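import Pool.Agent.Work.MP_9954fe_nt.Fast

/-!
Certificates for the sets {7, 31, 47}, {11, 31, 47}, {11, 31, 53}, {13, 37, 43}, {17, 47}, {31, 47, 53} of split primes.
-/

set_option autoImplicit false
set_option linter.all false
set_option maxRecDepth 100000

namespace Pool.Agent.Work.MP_9954fe_nt.P7_31_47

/-- Dummy move. -/
noncomputable def mz : Mv := ⟨⟨0, 0, 0, 0, 0, 0, 0, 0, 0⟩, .nil, (nat_lit 0), (nat_lit 0), (nat_lit 0), (nat_lit 0), (0, 0, 0), [], 0⟩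

/-- Moves. -/
noncomputable def t0_1 : List Mv := [
  ⟨⟨-3, 4, -5, 2, -5, -6, 4, 4, -5⟩, (.cons (nat_lit 11870394) (nat_lit 28783777) (nat_lit 28481682) (nat_lit
 1) (.cons (nat_lit 900535) (nat_lit 755607) (nat_lit 497018) (nat_lit 1) .nil)), (nat_lit 38), (nat_lit 43),
 (nat_lit 29), (nat_lit 1), (3, 5, 3), [10048865, 647271], 3⟩,
  ⟨⟨-3, 4, -5, -2, 5, 6, 4, 4, -5⟩, (.cons (nat_lit 37305656) (nat_lit 7036773) (nat_lit 31813562) (nat_lit 1)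
 (.cons (nat_lit 659332) (nat_lit 610398) (nat_lit 613024) (nat_lit 1) .nil)), (nat_lit 1), (nat_lit 13),
 (nat_lit 14), (nat_lit 1), (3, 2, 3), [5604076, 369248], 2⟩,
  ⟨⟨7, 0, 0, 2, -5, -6, 4, 4, -5⟩, (.cons (nat_lit 23697019) (nat_lit 11044809) (nat_lit 25792226) (nat_lit 1)
 (.cons (nat_lit 853959) (nat_lit 549225) (nat_lit 581470) (nat_lit 1) .nil)), (nat_lit 9), (nat_lit 4),
 (nat_lit 29), (nat_lit 1), (0, 5, 3), [9064028, 820130], 3⟩,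
  ⟨⟨-3, 4, -5, 2, -5, -6, 4, 4, -5⟩, (.cons (nat_lit 11870394) (nat_lit 28783777) (nat_lit 28481682) (nat_lit
 1) (.cons (nat_lit 900535) (nat_lit 755607) (nat_lit 497018) (nat_lit 1) .nil)), (nat_lit 38), (nat_lit 43),
 (nat_lit 29), (nat_lit 1), (3, 5, 3), [10048865, 647271], 3⟩,
  ⟨⟨-3, 4, -5, 2, -5, -6, 4, 4, -5⟩, (.cons (nat_lit 11870394) (nat_lit 28783777) (nat_lit 28481682) (nat_lit
 1) (.cons (nat_lit 900535) (nat_lit 755607) (nat_lit 497018) (nat_lit 1) .nil)), (nat_lit 38), (nat_lit 43),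
 (nat_lit 29), (nat_lit 1), (3, 5, 3), [10048865, 647271], 3⟩,
  ⟨⟨-3, 4, -5, 2, -5, -6, 4, 4, -5⟩, (.cons (nat_lit 11870394) (nat_lit 28783777) (nat_lit 28481682) (nat_lit
 1) (.cons (nat_lit 900535) (nat_lit 755607) (nat_lit 497018) (nat_lit 1) .nil)), (nat_lit 38), (nat_lit 43),
 (nat_lit 29), (nat_lit 1), (3, 5, 3), [10048865, 647271], 3⟩,
  ⟨⟨7, 0, 0, 2, -5, -6, 4, 4, -5⟩, (.cons (nat_lit 23697019) (nat_lit 11044809) (nat_lit 25792226) (nat_lit 1)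
 (.cons (nat_lit 853959) (nat_lit 549225) (nat_lit 581470) (nat_lit 1) .nil)), (nat_lit 9), (nat_lit 4),
 (nat_lit 29), (nat_lit 1), (0, 5, 3), [9064028, 820130], 3⟩]

/-- Moves. -/
noncomputable def t0_3 : List Mv := [
  ⟨⟨1, 0, -9, 0, -7, 0, 6, 0, -5⟩, (.cons (nat_lit 25004503) (nat_lit 30625764) (nat_lit 38675796) (nat_lit 1)
 (.cons (nat_lit 806494) (nat_lit 451188) (nat_lit 207356) (nat_lit 1) .nil)), (nat_lit 1), (nat_lit 33),
 (nat_lit 31), (nat_lit 1), (2, 0, 5), [37099950, 144955], 10⟩,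
  ⟨⟨1, 0, -9, 0, -7, 0, 6, 0, -5⟩, (.cons (nat_lit 25004503) (nat_lit 30625764) (nat_lit 38675796) (nat_lit 1)
 (.cons (nat_lit 806494) (nat_lit 451188) (nat_lit 207356) (nat_lit 1) .nil)), (nat_lit 1), (nat_lit 33),
 (nat_lit 31), (nat_lit 1), (2, 0, 5), [37099950, 144955], 10⟩,
  ⟨⟨5, 0, 4, 0, 7, 0, 6, 0, -5⟩, (.cons (nat_lit 23707674) (nat_lit 19696108) (nat_lit 34804965) (nat_lit 1)
 (.cons (nat_lit 923520) (nat_lit 886156) (nat_lit 821770) (nat_lit 1) .nil)), (nat_lit 46), (nat_lit 3),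
 (nat_lit 10), (nat_lit 1), (3, 0, 5), [11878172, 378155], 29⟩,
  ⟨⟨5, 0, 4, 0, -7, 0, 6, 0, -5⟩, (.cons (nat_lit 26597705) (nat_lit 27856828) (nat_lit 8865904) (nat_lit 1)
 (.cons (nat_lit 923520) (nat_lit 393727) (nat_lit 465165) (nat_lit 1) .nil)), (nat_lit 46), (nat_lit 14),
 (nat_lit 31), (nat_lit 1), (3, 0, 5), [2605651, 330113], 10⟩,
  ⟨⟨1, 0, -9, 0, -7, 0, 6, 0, -5⟩, (.cons (nat_lit 25004503) (nat_lit 30625764) (nat_lit 38675796) (nat_lit 1)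
 (.cons (nat_lit 806494) (nat_lit 451188) (nat_lit 207356) (nat_lit 1) .nil)), (nat_lit 1), (nat_lit 33),
 (nat_lit 31), (nat_lit 1), (2, 0, 5), [37099950, 144955], 10⟩,
  ⟨⟨1, 0, -9, 0, 7, 0, 6, 0, -5⟩, (.cons (nat_lit 17043897) (nat_lit 16716079) (nat_lit 24805227) (nat_lit 1)
 (.cons (nat_lit 311404) (nat_lit 880745) (nat_lit 534231) (nat_lit 1) .nil)), (nat_lit 1), (nat_lit 44),
 (nat_lit 10), (nat_lit 1), (2, 0, 5), [27270990, 346605], 29⟩,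
  ⟨⟨1, 0, -9, 0, -7, 0, 6, 0, -5⟩, (.cons (nat_lit 25004503) (nat_lit 30625764) (nat_lit 38675796) (nat_lit 1)
 (.cons (nat_lit 806494) (nat_lit 451188) (nat_lit 207356) (nat_lit 1) .nil)), (nat_lit 1), (nat_lit 33),
 (nat_lit 31), (nat_lit 1), (2, 0, 5), [37099950, 144955], 10⟩]

/-- Moves. -/
noncomputable def t1_1 : List Mv := [
  mz,
  ⟨⟨3, 20, 29, -4, 25, -18, 26, 8, -7⟩, (.cons (nat_lit 32164367) (nat_lit 32102896) (nat_lit 2529029) (nat_lit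
 1) (.cons (nat_lit 874268) (nat_lit 408568) (nat_lit 660332) (nat_lit 1) .nil)), (nat_lit 24), (nat_lit 9),
 (nat_lit 25), (nat_lit 1), (26, 17, 29), [25479085, 537057], 27⟩,
  ⟨⟨23, 12, -36, -4, -25, -18, 26, -8, -7⟩, (.cons (nat_lit 36484861) (nat_lit 24878627) (nat_lit 39166361)
 (nat_lit 1) (.cons (nat_lit 98452) (nat_lit 25101) (nat_lit 204002) (nat_lit 1) .nil)), (nat_lit 20), (nat_lit
 31), (nat_lit 3), (nat_lit 1), (1, 16, 20), [576178, 555326], 7⟩,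
  mz,
  ⟨⟨27, 16, -28, -4, -15, -28, -6, 24, -11⟩, (.cons (nat_lit 20261629) (nat_lit 31133041) (nat_lit 8771062)
 (nat_lit 1) (.cons (nat_lit 287127) (nat_lit 339787) (nat_lit 502393) (nat_lit 1) .nil)), (nat_lit 4),
 (nat_lit 23), (nat_lit 14), (nat_lit 1), (15, 15, 7), [38016924, 69039], 12⟩,
  mz,
  ⟨⟨1, -12, 35, -16, -25, -2, 22, -16, -5⟩, (.cons (nat_lit 9271775) (nat_lit 10667315) (nat_lit 1) (nat_lit
 28054047) (.cons (nat_lit 376541) (nat_lit 474676) (nat_lit 547793) (nat_lit 1) .nil)), (nat_lit 7), (nat_lit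
 29), (nat_lit 26), (nat_lit 1), (1, 15, 22), [40101793, 912191], 14⟩,
  mz,
  ⟨⟨-31, 0, 0, -10, -19, 30, -4, -20, -19⟩, (.cons (nat_lit 12164646) (nat_lit 5259980) (nat_lit 2726627)
 (nat_lit 1) (.cons (nat_lit 405997) (nat_lit 648594) (nat_lit 94709) (nat_lit 1) .nil)), (nat_lit 26),
 (nat_lit 36), (nat_lit 26), (nat_lit 1), (0, 26, 29), [14611719, 207355], 10⟩,
  mz,
  mz,
  mz,
  mz,
  ⟨⟨-31, 0, 0, 10, -19, -30, -4, 20, -19⟩, (.cons (nat_lit 32776578) (nat_lit 23167512) (nat_lit 16736214)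
 (nat_lit 1) (.cons (nat_lit 246939) (nat_lit 726531) (nat_lit 744623) (nat_lit 1) .nil)), (nat_lit 38),
 (nat_lit 42), (nat_lit 46), (nat_lit 1), (0, 3, 5), [17799591, 232242], 11⟩,
  ⟨⟨-33, -8, 17, -4, 15, -28, -6, -24, -11⟩, (.cons (nat_lit 14116796) (nat_lit 19533125) (nat_lit 38364224)
 (nat_lit 1) (.cons (nat_lit 82435) (nat_lit 41748) (nat_lit 172095) (nat_lit 1) .nil)), (nat_lit 1), (nat_lit
 40), (nat_lit 2), (nat_lit 1), (14, 28, 11), [5269835, 453755], 42⟩,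
  ⟨⟨3, 20, -32, 4, -25, -22, 26, 8, -19⟩, (.cons (nat_lit 14217572) (nat_lit 13654861) (nat_lit 22070972)
 (nat_lit 1) (.cons (nat_lit 895430) (nat_lit 254775) (nat_lit 314062) (nat_lit 1) .nil)), (nat_lit 45),
 (nat_lit 32), (nat_lit 13), (nat_lit 1), (10, 3, 4), [11537028, 391180], 33⟩,
  mz,
  mz,
  ⟨⟨21, -4, 19, 16, 25, -18, 22, -16, -17⟩, (.cons (nat_lit 37556785) (nat_lit 14293012) (nat_lit 34870043)
 (nat_lit 1) (.cons (nat_lit 693619) (nat_lit 817906) (nat_lit 656852) (nat_lit 1) .nil)), (nat_lit 27),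
 (nat_lit 32), (nat_lit 25), (nat_lit 1), (7, 26, 28), [7407119, 779921], 40⟩,
  ⟨⟨-9, 8, -31, -10, -29, 0, 20, -4, -31⟩, (.cons (nat_lit 19128614) (nat_lit 5587998) (nat_lit 36008619)
 (nat_lit 1) (.cons (nat_lit 528090) (nat_lit 14735) (nat_lit 903999) (nat_lit 1) .nil)), (nat_lit 1), (nat_lit
 35), (nat_lit 16), (nat_lit 1), (2, 16, 30), [39465156, 877313], 33⟩,
  ⟨⟨-29, -12, 29, 10, -29, -10, -20, -4, -11⟩, (.cons (nat_lit 22264677) (nat_lit 1913587) (nat_lit 11974169)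
 (nat_lit 1) (.cons (nat_lit 439750) (nat_lit 186813) (nat_lit 889908) (nat_lit 1) .nil)), (nat_lit 1),
 (nat_lit 12), (nat_lit 31), (nat_lit 1), (6, 30, 2), [7258331, 157681], 33⟩,
  ⟨⟨-27, 16, -1, 4, -15, -32, 6, 24, -17⟩, (.cons (nat_lit 9159805) (nat_lit 16918148) (nat_lit 34594148)
 (nat_lit 1) (.cons (nat_lit 254432) (nat_lit 459002) (nat_lit 345733) (nat_lit 1) .nil)), (nat_lit 43),
 (nat_lit 23), (nat_lit 33), (nat_lit 1), (2, 2, 3), [13204395, 500041], 12⟩,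
  ⟨⟨-29, 12, 29, 10, 29, -10, -20, 4, -11⟩, (.cons (nat_lit 8237471) (nat_lit 12306891) (nat_lit 12265037)
 (nat_lit 1) (.cons (nat_lit 913652) (nat_lit 728419) (nat_lit 27113) (nat_lit 1) .nil)), (nat_lit 26),
 (nat_lit 44), (nat_lit 10), (nat_lit 1), (4, 20, 22), [22965998, 785890], 44⟩,
  ⟨⟨23, 12, 13, 4, 25, -22, 26, -8, -19⟩, (.cons (nat_lit 14378396) (nat_lit 3358856) (nat_lit 1) (nat_lit
 7847840) (.cons (nat_lit 535619) (nat_lit 553425) (nat_lit 395176) (nat_lit 1) .nil)), (nat_lit 7), (nat_lit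
 11), (nat_lit 13), (nat_lit 1), (23, 4, 26), [32001240, 734171], 33⟩,
  ⟨⟨-9, -8, -31, -10, 29, 0, 20, 4, -31⟩, (.cons (nat_lit 13481465) (nat_lit 161208) (nat_lit 40278818)
 (nat_lit 1) (.cons (nat_lit 95614) (nat_lit 833963) (nat_lit 512229) (nat_lit 1) .nil)), (nat_lit 26),
 (nat_lit 3), (nat_lit 37), (nat_lit 1), (24, 6, 19), [13419783, 241763], 44⟩,
  ⟨⟨31, 0, -31, -10, 19, -20, 4, -20, -23⟩, (.cons (nat_lit 30921157) (nat_lit 9947874) (nat_lit 31851388)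
 (nat_lit 1) (.cons (nat_lit 406746) (nat_lit 119749) (nat_lit 770485) (nat_lit 1) .nil)), (nat_lit 1),
 (nat_lit 9), (nat_lit 28), (nat_lit 1), (0, 22, 16), [9131316, 36014], 26⟩,
  ⟨⟨21, 4, -40, -16, 25, -2, 22, 16, -5⟩, (.cons (nat_lit 31425334) (nat_lit 26997003) (nat_lit 1555995)
 (nat_lit 1) (.cons (nat_lit 326565) (nat_lit 62027) (nat_lit 790013) (nat_lit 1) .nil)), (nat_lit 23),
 (nat_lit 16), (nat_lit 30), (nat_lit 1), (10, 16, 9), [39973600, 214474], 27⟩,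
  ⟨⟨-27, -16, -1, 4, 15, -32, 6, -24, -17⟩, (.cons (nat_lit 4768149) (nat_lit 885301) (nat_lit 34639826)
 (nat_lit 1) (.cons (nat_lit 286393) (nat_lit 216402) (nat_lit 490286) (nat_lit 1) .nil)), (nat_lit 1),
 (nat_lit 7), (nat_lit 45), (nat_lit 1), (15, 15, 7), [35263869, 125506], 42⟩,
  ⟨⟨1, 12, -36, -16, 25, 18, 22, 16, -17⟩, (.cons (nat_lit 29035491) (nat_lit 29503774) (nat_lit 1) (nat_lit
 24118976) (.cons (nat_lit 787215) (nat_lit 635244) (nat_lit 225138) (nat_lit 1) .nil)), (nat_lit 40), (nat_lit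
 29), (nat_lit 21), (nat_lit 1), (19, 6, 15), [2994883, 609124], 33⟩,
  ⟨⟨31, 0, -31, -10, -19, -20, 4, 20, -23⟩, (.cons (nat_lit 12294980) (nat_lit 23752341) (nat_lit 18281174)
 (nat_lit 1) (.cons (nat_lit 631852) (nat_lit 333647) (nat_lit 847766) (nat_lit 1) .nil)), (nat_lit 9),
 (nat_lit 42), (nat_lit 1), (nat_lit 1), (0, 20, 23), [38772893, 214088], 11⟩]

/-- Moves. -/
noncomputable def t1_3 : List Mv := [
  mz,
  ⟨⟨3, 20, 29, -4, 25, -18, 26, 8, -7⟩, (.cons (nat_lit 32164367) (nat_lit 32102896) (nat_lit 2529029) (nat_lit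
 1) (.cons (nat_lit 874268) (nat_lit 408568) (nat_lit 660332) (nat_lit 1) .nil)), (nat_lit 24), (nat_lit 9),
 (nat_lit 25), (nat_lit 1), (26, 17, 29), [25479085, 537057], 27⟩,
  ⟨⟨3, -20, 29, -4, -25, -18, 26, -8, -7⟩, (.cons (nat_lit 11553871) (nat_lit 20145716) (nat_lit 34800251)
 (nat_lit 1) (.cons (nat_lit 270570) (nat_lit 619249) (nat_lit 839408) (nat_lit 1) .nil)), (nat_lit 27),
 (nat_lit 16), (nat_lit 3), (nat_lit 1), (19, 16, 20), [13168156, 577307], 7⟩,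
  mz,
  ⟨⟨-33, 8, 17, 4, 15, 28, -6, 24, -11⟩, (.cons (nat_lit 15479605) (nat_lit 2038868) (nat_lit 14434936)
 (nat_lit 1) (.cons (nat_lit 784049) (nat_lit 406848) (nat_lit 368240) (nat_lit 1) .nil)), (nat_lit 1),
 (nat_lit 37), (nat_lit 39), (nat_lit 1), (23, 16, 7), [10489497, 347233], 42⟩,
  mz,
  ⟨⟨1, -12, 35, -16, -25, -2, 22, -16, -5⟩, (.cons (nat_lit 9271775) (nat_lit 10667315) (nat_lit 1) (nat_lit
 28054047) (.cons (nat_lit 376541) (nat_lit 474676) (nat_lit 547793) (nat_lit 1) .nil)), (nat_lit 7), (nat_lit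
 29), (nat_lit 26), (nat_lit 1), (1, 15, 22), [40101793, 912191], 14⟩,
  mz,
  ⟨⟨27, -20, -19, -10, -19, 30, -4, -20, -19⟩, (.cons (nat_lit 15846134) (nat_lit 35561325) (nat_lit 21446300)
 (nat_lit 1) (.cons (nat_lit 4112) (nat_lit 599309) (nat_lit 228553) (nat_lit 1) .nil)), (nat_lit 21), (nat_lit
 11), (nat_lit 26), (nat_lit 1), (29, 26, 29), [4953147, 921913], 10⟩,
  mz,
  mz,
  mz,
  mz,
  ⟨⟨27, 20, -19, -10, 19, 30, -4, 20, -19⟩, (.cons (nat_lit 3666244) (nat_lit 18421602) (nat_lit 30855787)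
 (nat_lit 1) (.cons (nat_lit 410815) (nat_lit 135285) (nat_lit 597632) (nat_lit 1) .nil)), (nat_lit 1),
 (nat_lit 46), (nat_lit 30), (nat_lit 1), (5, 28, 5), [6716029, 588360], 26⟩,
  ⟨⟨-33, -8, 17, 4, -15, 28, -6, -24, -11⟩, (.cons (nat_lit 30173607) (nat_lit 13534027) (nat_lit 36780973)
 (nat_lit 1) (.cons (nat_lit 114464) (nat_lit 166490) (nat_lit 257987) (nat_lit 1) .nil)), (nat_lit 35),
 (nat_lit 41), (nat_lit 20), (nat_lit 1), (14, 3, 11), [4101017, 102977], 36⟩,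
  ⟨⟨23, -12, 13, 4, -25, -22, 26, 8, -19⟩, (.cons (nat_lit 33496171) (nat_lit 563819) (nat_lit 6418279)
 (nat_lit 1) (.cons (nat_lit 264240) (nat_lit 675967) (nat_lit 592768) (nat_lit 1) .nil)), (nat_lit 2),
 (nat_lit 15), (nat_lit 13), (nat_lit 1), (25, 3, 4), [23662673, 407938], 33⟩,
  mz,
  mz,
  ⟨⟨21, -4, 19, 16, 25, -18, 22, -16, -17⟩, (.cons (nat_lit 37556785) (nat_lit 14293012) (nat_lit 34870043)
 (nat_lit 1) (.cons (nat_lit 693619) (nat_lit 817906) (nat_lit 656852) (nat_lit 1) .nil)), (nat_lit 27),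
 (nat_lit 32), (nat_lit 25), (nat_lit 1), (7, 26, 28), [7407119, 779921], 40⟩,
  ⟨⟨-9, 8, -31, 10, 29, 0, 20, -4, -31⟩, (.cons (nat_lit 4118522) (nat_lit 27444462) (nat_lit 13455146)
 (nat_lit 1) (.cons (nat_lit 318883) (nat_lit 474188) (nat_lit 28556) (nat_lit 1) .nil)), (nat_lit 38),
 (nat_lit 20), (nat_lit 43), (nat_lit 1), (2, 15, 30), [21158182, 71257], 39⟩,
  ⟨⟨9, 8, -40, 10, -29, -10, -20, -4, -11⟩, (.cons (nat_lit 40353606) (nat_lit 7352761) (nat_lit 22472867)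
 (nat_lit 1) (.cons (nat_lit 187224) (nat_lit 918287) (nat_lit 240243) (nat_lit 1) .nil)), (nat_lit 46),
 (nat_lit 35), (nat_lit 31), (nat_lit 1), (27, 30, 2), [34539249, 707005], 33⟩,
  ⟨⟨33, 8, -16, 4, -15, -32, 6, 24, -17⟩, (.cons (nat_lit 30795201) (nat_lit 5175700) (nat_lit 22564781)
 (nat_lit 1) (.cons (nat_lit 142473) (nat_lit 67177) (nat_lit 919577) (nat_lit 1) .nil)), (nat_lit 4), (nat_lit
 24), (nat_lit 33), (nat_lit 1), (1, 2, 3), [9196321, 38034], 12⟩,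
  ⟨⟨9, -8, -40, 10, 29, -10, -20, 4, -11⟩, (.cons (nat_lit 36006064) (nat_lit 29911502) (nat_lit 16598338)
 (nat_lit 1) (.cons (nat_lit 907802) (nat_lit 142896) (nat_lit 623847) (nat_lit 1) .nil)), (nat_lit 21),
 (nat_lit 3), (nat_lit 10), (nat_lit 1), (18, 20, 22), [36200331, 545064], 44⟩,
  ⟨⟨23, 12, 13, 4, 25, -22, 26, -8, -19⟩, (.cons (nat_lit 14378396) (nat_lit 3358856) (nat_lit 1) (nat_lit
 7847840) (.cons (nat_lit 535619) (nat_lit 553425) (nat_lit 395176) (nat_lit 1) .nil)), (nat_lit 7), (nat_lit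
 11), (nat_lit 13), (nat_lit 1), (23, 4, 26), [32001240, 734171], 33⟩,
  ⟨⟨-9, -8, -31, 10, -29, 0, 20, 4, -31⟩, (.cons (nat_lit 19756815) (nat_lit 7107519) (nat_lit 21451554)
 (nat_lit 1) (.cons (nat_lit 743127) (nat_lit 734578) (nat_lit 333781) (nat_lit 1) .nil)), (nat_lit 1),
 (nat_lit 14), (nat_lit 40), (nat_lit 1), (24, 25, 19), [28350647, 922480], 33⟩,
  ⟨⟨31, 0, -31, -10, 19, -20, 4, -20, -23⟩, (.cons (nat_lit 30921157) (nat_lit 9947874) (nat_lit 31851388)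
 (nat_lit 1) (.cons (nat_lit 406746) (nat_lit 119749) (nat_lit 770485) (nat_lit 1) .nil)), (nat_lit 1),
 (nat_lit 9), (nat_lit 28), (nat_lit 1), (0, 22, 16), [9131316, 36014], 26⟩,
  ⟨⟨1, 12, 35, -16, 25, -2, 22, 16, -5⟩, (.cons (nat_lit 30028303) (nat_lit 7822439) (nat_lit 9435223) (nat_lit
 1) (.cons (nat_lit 919023) (nat_lit 560928) (nat_lit 363179) (nat_lit 1) .nil)), (nat_lit 24), (nat_lit 31),
 (nat_lit 30), (nat_lit 1), (30, 16, 9), [20606343, 547783], 27⟩,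
  ⟨⟨33, -8, -16, 4, 15, -32, 6, -24, -17⟩, (.cons (nat_lit 40353606) (nat_lit 36726371) (nat_lit 6005654)
 (nat_lit 1) (.cons (nat_lit 447658) (nat_lit 403458) (nat_lit 153399) (nat_lit 1) .nil)), (nat_lit 46),
 (nat_lit 40), (nat_lit 45), (nat_lit 1), (23, 15, 7), [17307602, 769790], 42⟩,
  ⟨⟨21, 4, 19, 16, -25, -18, 22, 16, -17⟩, (.cons (nat_lit 36491422) (nat_lit 5241866) (nat_lit 11162450)
 (nat_lit 1) (.cons (nat_lit 598704) (nat_lit 263564) (nat_lit 50619) (nat_lit 1) .nil)), (nat_lit 2), (nat_lit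
 18), (nat_lit 3), (nat_lit 1), (27, 25, 15), [14914423, 436954], 33⟩,
  ⟨⟨31, 0, -31, -10, -19, -20, 4, 20, -23⟩, (.cons (nat_lit 12294980) (nat_lit 23752341) (nat_lit 18281174)
 (nat_lit 1) (.cons (nat_lit 631852) (nat_lit 333647) (nat_lit 847766) (nat_lit 1) .nil)), (nat_lit 9),
 (nat_lit 42), (nat_lit 1), (nat_lit 1), (0, 20, 23), [38772893, 214088], 11⟩]

/-- Moves. -/
noncomputable def t4_1 : List Mv := [
  mz,
  ⟨⟨-25, 12, -36, -22, 35, 36, 20, 28, -37⟩, (.cons (nat_lit 31514200) (nat_lit 30361641) (nat_lit 36072426)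
 (nat_lit 1) (.cons (nat_lit 412699) (nat_lit 626199) (nat_lit 18760) (nat_lit 1) .nil)), (nat_lit 21),
 (nat_lit 0), (nat_lit 0), (nat_lit 0), (2, 45, 36), [11746712, 391608], 0⟩,
  ⟨⟨21, -32, -49, 2, 35, -36, -28, -20, -13⟩, (.cons (nat_lit 32775144) (nat_lit 35508035) (nat_lit 3691106)
 (nat_lit 1) (.cons (nat_lit 300077) (nat_lit 468684) (nat_lit 1) (nat_lit 448415) .nil)), (nat_lit 5),
 (nat_lit 0), (nat_lit 0), (nat_lit 0), (33, 30, 3), [24043332, 128322], 0⟩,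
  ⟨⟨-51, 4, 19, -2, -45, -14, -12, 12, -37⟩, (.cons (nat_lit 16090651) (nat_lit 39320922) (nat_lit 37370923)
 (nat_lit 1) (.cons (nat_lit 788960) (nat_lit 78367) (nat_lit 232808) (nat_lit 1) .nil)), (nat_lit 33),
 (nat_lit 0), (nat_lit 0), (nat_lit 0), (7, 27, 21), [21482493, 444412], 0⟩,
  mz,
  ⟨⟨25, -12, -61, -22, 35, -14, -20, -28, -17⟩, (.cons (nat_lit 33269479) (nat_lit 22452513) (nat_lit 17808922)
 (nat_lit 1) (.cons (nat_lit 426808) (nat_lit 419511) (nat_lit 31207) (nat_lit 1) .nil)), (nat_lit 2), (nat_lit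
 0), (nat_lit 0), (nat_lit 0), (9, 9, 21), [15534567, 411461], 0⟩,
  mz,
  mz,
  mz,
  ⟨⟨27, 32, -47, -40, 17, 0, 10, -16, -47⟩, (.cons (nat_lit 1184324) (nat_lit 3083671) (nat_lit 5792272)
 (nat_lit 1) (.cons (nat_lit 299100) (nat_lit 32625) (nat_lit 48511) (nat_lit 1) .nil)), (nat_lit 38), (nat_lit
 0), (nat_lit 0), (nat_lit 0), (43, 39, 2), [24251666, 350795], 0⟩,
  mz,
  ⟨⟨17, 48, -17, 40, -17, -40, -10, 16, -37⟩, (.cons (nat_lit 722663) (nat_lit 28639690) (nat_lit 19208323)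
 (nat_lit 1) (.cons (nat_lit 348757) (nat_lit 408648) (nat_lit 514674) (nat_lit 1) .nil)), (nat_lit 9),
 (nat_lit 0), (nat_lit 0), (nat_lit 0), (25, 45, 24), [30381900, 254927], 0⟩,
  ⟨⟨21, 44, 8, 20, -23, 30, 38, 8, -37⟩, (.cons (nat_lit 4794363) (nat_lit 19551776) (nat_lit 31835585)
 (nat_lit 1) (.cons (nat_lit 830005) (nat_lit 647369) (nat_lit 465697) (nat_lit 1) .nil)), (nat_lit 31),
 (nat_lit 0), (nat_lit 0), (nat_lit 0), (29, 3, 1), [32701358, 670426], 0⟩,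
  mz,
  ⟨⟨-51, -4, 19, 2, -45, 14, -12, -12, -37⟩, (.cons (nat_lit 32896099) (nat_lit 33199508) (nat_lit 6283266)
 (nat_lit 1) (.cons (nat_lit 194906) (nat_lit 57793) (nat_lit 795664) (nat_lit 1) .nil)), (nat_lit 44),
 (nat_lit 0), (nat_lit 0), (nat_lit 0), (25, 11, 28), [35926004, 503036], 0⟩,
  ⟨⟨9, 4, -61, 40, 23, -10, 22, -32, -29⟩, (.cons (nat_lit 29967992) (nat_lit 12433312) (nat_lit 28813827)
 (nat_lit 1) (.cons (nat_lit 334557) (nat_lit 307794) (nat_lit 397800) (nat_lit 1) .nil)), (nat_lit 35),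
 (nat_lit 0), (nat_lit 0), (nat_lit 0), (18, 33, 44), [3595050, 37424], 0⟩,
  ⟨⟨-13, 36, 45, 40, 23, -30, -22, 32, -7⟩, (.cons (nat_lit 2157893) (nat_lit 16431639) (nat_lit 13017220)
 (nat_lit 1) (.cons (nat_lit 893197) (nat_lit 85336) (nat_lit 726797) (nat_lit 1) .nil)), (nat_lit 27),
 (nat_lit 0), (nat_lit 0), (nat_lit 0), (5, 28, 41), [8325717, 65662], 0⟩,
  mz,
  ⟨⟨19, 0, -63, 0, 47, 0, 42, 0, -23⟩, (.cons (nat_lit 22100912) (nat_lit 34746012) (nat_lit 32374993) (nat_lit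
 1) (.cons (nat_lit 426991) (nat_lit 324506) (nat_lit 749948) (nat_lit 1) .nil)), (nat_lit 29), (nat_lit 0),
 (nat_lit 0), (nat_lit 0), (16, 0, 23), [16984133, 350155], 0⟩,
  ⟨⟨-39, 32, 8, -20, -33, -20, 6, 24, -41⟩, (.cons (nat_lit 24297018) (nat_lit 3428762) (nat_lit 3536893)
 (nat_lit 1) (.cons (nat_lit 506349) (nat_lit 749533) (nat_lit 880748) (nat_lit 1) .nil)), (nat_lit 22),
 (nat_lit 0), (nat_lit 0), (nat_lit 0), (25, 8, 7), [9648774, 263152], 0⟩,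
  ⟨⟨17, -36, 28, 20, -23, -50, 38, 8, -1⟩, (.cons (nat_lit 35457102) (nat_lit 32028129) (nat_lit 16725515)
 (nat_lit 1) (.cons (nat_lit 879571) (nat_lit 9775) (nat_lit 220384) (nat_lit 1) .nil)), (nat_lit 16), (nat_lit
 0), (nat_lit 0), (nat_lit 0), (2, 30, 10), [37708121, 87027], 0⟩,
  ⟨⟨-49, -12, 36, -2, 35, 36, -28, 20, -13⟩, (.cons (nat_lit 18486246) (nat_lit 26829155) (nat_lit 18358274)
 (nat_lit 1) (.cons (nat_lit 380889) (nat_lit 840154) (nat_lit 727858) (nat_lit 1) .nil)), (nat_lit 1),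
 (nat_lit 0), (nat_lit 0), (nat_lit 0), (24, 24, 7), [28370411, 341342], 0⟩,
  ⟨⟨-39, -32, 8, -20, 33, -20, 6, -24, -41⟩, (.cons (nat_lit 40353606) (nat_lit 25336779) (nat_lit 20076979)
 (nat_lit 1) (.cons (nat_lit 923520) (nat_lit 166973) (nat_lit 823408) (nat_lit 1) .nil)), (nat_lit 22),
 (nat_lit 0), (nat_lit 0), (nat_lit 0), (28, 24, 21), [33786540, 261394], 0⟩,
  mz,
  mz,
  ⟨⟨-45, 8, -4, 20, 33, -40, -6, -24, -35⟩, (.cons (nat_lit 40353606) (nat_lit 18664542) (nat_lit 15919205)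
 (nat_lit 1) (.cons (nat_lit 923520) (nat_lit 628320) (nat_lit 191533) (nat_lit 1) .nil)), (nat_lit 25),
 (nat_lit 0), (nat_lit 0), (nat_lit 0), (40, 24, 21), [3970642, 326603], 0⟩,
  ⟨⟨49, -12, -13, -2, -35, -34, 28, 20, -41⟩, (.cons (nat_lit 32924110) (nat_lit 4343818) (nat_lit 14374567)
 (nat_lit 1) (.cons (nat_lit 216385) (nat_lit 635909) (nat_lit 15805) (nat_lit 1) .nil)), (nat_lit 42),
 (nat_lit 0), (nat_lit 0), (nat_lit 0), (24, 23, 7), [18950266, 923244], 0⟩,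
  ⟨⟨17, 36, -45, -20, -23, -30, 38, -8, -37⟩, (.cons (nat_lit 36030115) (nat_lit 9852247) (nat_lit 1) (nat_lit
 5073887) (.cons (nat_lit 572091) (nat_lit 138925) (nat_lit 289286) (nat_lit 1) .nil)), (nat_lit 32), (nat_lit
 0), (nat_lit 0), (nat_lit 0), (45, 30, 37), [2365099, 709214], 0⟩,
  ⟨⟨-45, -8, -4, -20, 33, 40, -6, 24, -35⟩, (.cons (nat_lit 40353606) (nat_lit 6052212) (nat_lit 33209123)
 (nat_lit 1) (.cons (nat_lit 923520) (nat_lit 317092) (nat_lit 428682) (nat_lit 1) .nil)), (nat_lit 28),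
 (nat_lit 0), (nat_lit 0), (nat_lit 0), (29, 39, 7), [20285738, 399003], 0⟩,
  ⟨⟨23, 0, -63, 0, -47, 0, 42, 0, -19⟩, (.cons (nat_lit 7515425) (nat_lit 8767997) (nat_lit 39871440) (nat_lit
 1) (.cons (nat_lit 158637) (nat_lit 249260) (nat_lit 321386) (nat_lit 1) .nil)), (nat_lit 18), (nat_lit 0),
 (nat_lit 0), (nat_lit 0), (40, 0, 24), [8037864, 244644], 0⟩,
  mz,
  ⟨⟨13, 36, 32, 40, -23, -10, 22, 32, -29⟩, (.cons (nat_lit 5979922) (nat_lit 24263908) (nat_lit 1) (nat_lit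
 10675217) (.cons (nat_lit 48005) (nat_lit 456326) (nat_lit 811883) (nat_lit 1) .nil)), (nat_lit 12), (nat_lit
 0), (nat_lit 0), (nat_lit 0), (5, 19, 41), [14952106, 298172], 0⟩,
  ⟨⟨-13, -36, 45, 40, -23, -30, -22, -32, -7⟩, (.cons (nat_lit 19620475) (nat_lit 12406433) (nat_lit 9395963)
 (nat_lit 1) (.cons (nat_lit 133342) (nat_lit 370389) (nat_lit 574837) (nat_lit 1) .nil)), (nat_lit 27),
 (nat_lit 0), (nat_lit 0), (nat_lit 0), (26, 14, 44), [28690645, 907382], 0⟩,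
  ⟨⟨51, -4, -32, 2, 45, -16, 12, -12, -49⟩, (.cons (nat_lit 40353606) (nat_lit 2149432) (nat_lit 25032579)
 (nat_lit 1) (.cons (nat_lit 923520) (nat_lit 146966) (nat_lit 381921) (nat_lit 1) .nil)), (nat_lit 33),
 (nat_lit 0), (nat_lit 0), (nat_lit 0), (25, 36, 28), [7432506, 737302], 0⟩,
  mz,
  ⟨⟨21, -44, -29, -20, -23, 50, 38, -8, -1⟩, (.cons (nat_lit 19246027) (nat_lit 27211308) (nat_lit 3889627)
 (nat_lit 1) (.cons (nat_lit 379744) (nat_lit 663587) (nat_lit 13812) (nat_lit 1) .nil)), (nat_lit 15),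
 (nat_lit 0), (nat_lit 0), (nat_lit 0), (18, 3, 46), [15483593, 119749], 0⟩,
  ⟨⟨27, -32, -47, -40, -17, 0, 10, 16, -47⟩, (.cons (nat_lit 40254) (nat_lit 34326633) (nat_lit 26595239)
 (nat_lit 1) (.cons (nat_lit 308089) (nat_lit 166774) (nat_lit 51386) (nat_lit 1) .nil)), (nat_lit 38),
 (nat_lit 0), (nat_lit 0), (nat_lit 0), (46, 45, 24), [4053129, 337358], 0⟩,
  mz,
  ⟨⟨17, -48, -17, 40, 17, -40, -10, -16, -37⟩, (.cons (nat_lit 34449997) (nat_lit 27872793) (nat_lit 31512583)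
 (nat_lit 1) (.cons (nat_lit 298636) (nat_lit 147050) (nat_lit 142931) (nat_lit 1) .nil)), (nat_lit 9),
 (nat_lit 0), (nat_lit 0), (nat_lit 0), (6, 39, 2), [40139594, 822602], 0⟩,
  mz,
  mz,
  mz,
  ⟨⟨45, -16, -1, -22, -35, 36, 20, -28, -37⟩, (.cons (nat_lit 39867104) (nat_lit 2443471) (nat_lit 30229708)
 (nat_lit 1) (.cons (nat_lit 521817) (nat_lit 356815) (nat_lit 648366) (nat_lit 1) .nil)), (nat_lit 26),
 (nat_lit 0), (nat_lit 0), (nat_lit 0), (12, 38, 21), [681280, 157242], 0⟩,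
  mz,
  ⟨⟨-39, 8, -17, 2, -45, -16, 12, 12, -49⟩, (.cons (nat_lit 19158779) (nat_lit 31464345) (nat_lit 28128840)
 (nat_lit 1) (.cons (nat_lit 229717) (nat_lit 503315) (nat_lit 188106) (nat_lit 1) .nil)), (nat_lit 14),
 (nat_lit 0), (nat_lit 0), (nat_lit 0), (14, 27, 21), [2765312, 677146], 0⟩,
  ⟨⟨-21, -32, -28, -2, 35, -34, 28, -20, -41⟩, (.cons (nat_lit 34030294) (nat_lit 9371806) (nat_lit 28679729)
 (nat_lit 1) (.cons (nat_lit 461865) (nat_lit 618189) (nat_lit 686741) (nat_lit 1) .nil)), (nat_lit 5),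
 (nat_lit 0), (nat_lit 0), (nat_lit 0), (33, 30, 3), [1033583, 201919], 0⟩,
  ⟨⟨-45, 16, 44, -22, -35, -14, -20, 28, -17⟩, (.cons (nat_lit 14440774) (nat_lit 13422317) (nat_lit 26812392)
 (nat_lit 1) (.cons (nat_lit 868082) (nat_lit 284702) (nat_lit 554496) (nat_lit 1) .nil)), (nat_lit 45),
 (nat_lit 0), (nat_lit 0), (nat_lit 0), (34, 2, 36), [27696815, 318423], 0⟩]

/-- Moves. -/
noncomputable def t4_3 : List Mv := [
  mz,
  ⟨⟨45, 16, -1, 22, -35, -36, 20, 28, -37⟩, (.cons (nat_lit 35204353) (nat_lit 24062828) (nat_lit 22765885)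
 (nat_lit 1) (.cons (nat_lit 40442) (nat_lit 310078) (nat_lit 461749) (nat_lit 1) .nil)), (nat_lit 45),
 (nat_lit 0), (nat_lit 0), (nat_lit 0), (34, 2, 36), [39138868, 493590], 0⟩,
  ⟨⟨21, -32, -49, 2, 35, -36, -28, -20, -13⟩, (.cons (nat_lit 32775144) (nat_lit 35508035) (nat_lit 3691106)
 (nat_lit 1) (.cons (nat_lit 300077) (nat_lit 468684) (nat_lit 1) (nat_lit 448415) .nil)), (nat_lit 5),
 (nat_lit 0), (nat_lit 0), (nat_lit 0), (33, 30, 3), [24043332, 128322], 0⟩,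
  ⟨⟨-51, 4, 19, -2, -45, -14, -12, 12, -37⟩, (.cons (nat_lit 16090651) (nat_lit 39320922) (nat_lit 37370923)
 (nat_lit 1) (.cons (nat_lit 788960) (nat_lit 78367) (nat_lit 232808) (nat_lit 1) .nil)), (nat_lit 33),
 (nat_lit 0), (nat_lit 0), (nat_lit 0), (7, 27, 21), [21482493, 444412], 0⟩,
  mz,
  ⟨⟨-45, -16, 44, -22, 35, -14, -20, -28, -17⟩, (.cons (nat_lit 37653457) (nat_lit 19264484) (nat_lit 29939782)
 (nat_lit 1) (.cons (nat_lit 406526) (nat_lit 480148) (nat_lit 479492) (nat_lit 1) .nil)), (nat_lit 45),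
 (nat_lit 0), (nat_lit 0), (nat_lit 0), (12, 9, 21), [13791063, 605431], 0⟩,
  mz,
  mz,
  mz,
  ⟨⟨27, 32, -47, 40, -17, 0, 10, -16, -47⟩, (.cons (nat_lit 17465569) (nat_lit 20764621) (nat_lit 21374911)
 (nat_lit 1) (.cons (nat_lit 333724) (nat_lit 700918) (nat_lit 140167) (nat_lit 1) .nil)), (nat_lit 11),
 (nat_lit 0), (nat_lit 0), (nat_lit 0), (43, 8, 2), [12887334, 240361], 0⟩,
  mz,
  ⟨⟨17, 48, -17, 40, -17, -40, -10, 16, -37⟩, (.cons (nat_lit 722663) (nat_lit 28639690) (nat_lit 19208323)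
 (nat_lit 1) (.cons (nat_lit 348757) (nat_lit 408648) (nat_lit 514674) (nat_lit 1) .nil)), (nat_lit 9),
 (nat_lit 0), (nat_lit 0), (nat_lit 0), (25, 45, 24), [30381900, 254927], 0⟩,
  ⟨⟨21, 44, 8, -20, 23, -30, 38, 8, -37⟩, (.cons (nat_lit 9406982) (nat_lit 6099672) (nat_lit 18766202)
 (nat_lit 1) (.cons (nat_lit 76481) (nat_lit 33253) (nat_lit 312648) (nat_lit 1) .nil)), (nat_lit 15), (nat_lit
 0), (nat_lit 0), (nat_lit 0), (29, 44, 1), [38114518, 807266], 0⟩,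
  mz,
  ⟨⟨-51, -4, 19, -2, 45, -14, -12, -12, -37⟩, (.cons (nat_lit 24434985) (nat_lit 35757888) (nat_lit 31815436)
 (nat_lit 1) (.cons (nat_lit 7954) (nat_lit 229138) (nat_lit 609522) (nat_lit 1) .nil)), (nat_lit 33), (nat_lit
 0), (nat_lit 0), (nat_lit 0), (25, 36, 28), [3249467, 309265], 0⟩,
  ⟨⟨13, -36, 32, 40, 23, -10, 22, -32, -29⟩, (.cons (nat_lit 36729527) (nat_lit 33740767) (nat_lit 23665068)
 (nat_lit 1) (.cons (nat_lit 789547) (nat_lit 895639) (nat_lit 408197) (nat_lit 1) .nil)), (nat_lit 12),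
 (nat_lit 0), (nat_lit 0), (nat_lit 0), (26, 33, 44), [5579963, 121355], 0⟩,
  ⟨⟨-9, -4, -52, 40, 23, -30, -22, 32, -7⟩, (.cons (nat_lit 34423722) (nat_lit 290661) (nat_lit 11596101)
 (nat_lit 1) (.cons (nat_lit 271719) (nat_lit 916692) (nat_lit 428586) (nat_lit 1) .nil)), (nat_lit 20),
 (nat_lit 0), (nat_lit 0), (nat_lit 0), (36, 28, 41), [3122995, 210175], 0⟩,
  mz,
  ⟨⟨19, 0, -63, 0, -47, 0, 42, 0, -23⟩, (.cons (nat_lit 24835398) (nat_lit 8351457) (nat_lit 1) (nat_lit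
 39454345) (.cons (nat_lit 411049) (nat_lit 356928) (nat_lit 87377) (nat_lit 1) .nil)), (nat_lit 29), (nat_lit
 0), (nat_lit 0), (nat_lit 0), (16, 0, 23), [37578159, 701401], 0⟩,
  ⟨⟨-39, 32, 8, 20, 33, 20, 6, 24, -41⟩, (.cons (nat_lit 40353606) (nat_lit 5148929) (nat_lit 11217973)
 (nat_lit 1) (.cons (nat_lit 923520) (nat_lit 345456) (nat_lit 333274) (nat_lit 1) .nil)), (nat_lit 19),
 (nat_lit 0), (nat_lit 0), (nat_lit 0), (25, 39, 7), [6668757, 415759], 0⟩,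
  ⟨⟨17, -36, 28, 20, -23, -50, 38, 8, -1⟩, (.cons (nat_lit 35457102) (nat_lit 32028129) (nat_lit 16725515)
 (nat_lit 1) (.cons (nat_lit 879571) (nat_lit 9775) (nat_lit 220384) (nat_lit 1) .nil)), (nat_lit 16), (nat_lit
 0), (nat_lit 0), (nat_lit 0), (2, 30, 10), [37708121, 87027], 0⟩,
  ⟨⟨21, 32, -49, 2, -35, -36, -28, 20, -13⟩, (.cons (nat_lit 9828653) (nat_lit 10386681) (nat_lit 3695569)
 (nat_lit 1) (.cons (nat_lit 684715) (nat_lit 749644) (nat_lit 153854) (nat_lit 1) .nil)), (nat_lit 5),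
 (nat_lit 0), (nat_lit 0), (nat_lit 0), (30, 23, 7), [9316845, 774946], 0⟩,
  ⟨⟨-39, -32, 8, 20, -33, 20, 6, -24, -41⟩, (.cons (nat_lit 6890480) (nat_lit 10304530) (nat_lit 24811298)
 (nat_lit 1) (.cons (nat_lit 59278) (nat_lit 701657) (nat_lit 432749) (nat_lit 1) .nil)), (nat_lit 19),
 (nat_lit 0), (nat_lit 0), (nat_lit 0), (28, 23, 21), [12848781, 912977], 0⟩,
  mz,
  mz,
  ⟨⟨-45, 8, -4, 20, 33, -40, -6, -24, -35⟩, (.cons (nat_lit 40353606) (nat_lit 18664542) (nat_lit 15919205)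
 (nat_lit 1) (.cons (nat_lit 923520) (nat_lit 628320) (nat_lit 191533) (nat_lit 1) .nil)), (nat_lit 25),
 (nat_lit 0), (nat_lit 0), (nat_lit 0), (40, 24, 21), [3970642, 326603], 0⟩,
  ⟨⟨-21, 32, -28, 2, 35, 34, 28, 20, -41⟩, (.cons (nat_lit 37416717) (nat_lit 33620745) (nat_lit 19567789)
 (nat_lit 1) (.cons (nat_lit 78495) (nat_lit 365136) (nat_lit 395969) (nat_lit 1) .nil)), (nat_lit 46),
 (nat_lit 0), (nat_lit 0), (nat_lit 0), (30, 24, 7), [29489893, 30374], 0⟩,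
  ⟨⟨21, -44, 8, -20, -23, -30, 38, -8, -37⟩, (.cons (nat_lit 28688490) (nat_lit 16838508) (nat_lit 1) (nat_lit
 23090802) (.cons (nat_lit 133371) (nat_lit 373174) (nat_lit 252070) (nat_lit 1) .nil)), (nat_lit 15), (nat_lit
 0), (nat_lit 0), (nat_lit 0), (39, 30, 37), [16490385, 177513], 0⟩,
  ⟨⟨-45, -8, -4, 20, -33, -40, -6, 24, -35⟩, (.cons (nat_lit 27446115) (nat_lit 13042875) (nat_lit 36949889)
 (nat_lit 1) (.cons (nat_lit 366508) (nat_lit 536133) (nat_lit 182775) (nat_lit 1) .nil)), (nat_lit 25),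
 (nat_lit 0), (nat_lit 0), (nat_lit 0), (29, 8, 7), [11182887, 338296], 0⟩,
  ⟨⟨23, 0, -63, 0, -47, 0, 42, 0, -19⟩, (.cons (nat_lit 7515425) (nat_lit 8767997) (nat_lit 39871440) (nat_lit
 1) (.cons (nat_lit 158637) (nat_lit 249260) (nat_lit 321386) (nat_lit 1) .nil)), (nat_lit 18), (nat_lit 0),
 (nat_lit 0), (nat_lit 0), (40, 0, 24), [8037864, 244644], 0⟩,
  mz,
  ⟨⟨13, 36, 32, 40, -23, -10, 22, 32, -29⟩, (.cons (nat_lit 5979922) (nat_lit 24263908) (nat_lit 1) (nat_lit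
 10675217) (.cons (nat_lit 48005) (nat_lit 456326) (nat_lit 811883) (nat_lit 1) .nil)), (nat_lit 12), (nat_lit
 0), (nat_lit 0), (nat_lit 0), (5, 19, 41), [14952106, 298172], 0⟩,
  ⟨⟨-9, 4, -52, 40, -23, -30, -22, -32, -7⟩, (.cons (nat_lit 875406) (nat_lit 28886952) (nat_lit 37181252)
 (nat_lit 1) (.cons (nat_lit 405677) (nat_lit 539299) (nat_lit 865667) (nat_lit 1) .nil)), (nat_lit 20),
 (nat_lit 0), (nat_lit 0), (nat_lit 0), (18, 14, 44), [11222712, 480954], 0⟩,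
  ⟨⟨51, -4, -32, 2, 45, -16, 12, -12, -49⟩, (.cons (nat_lit 40353606) (nat_lit 2149432) (nat_lit 25032579)
 (nat_lit 1) (.cons (nat_lit 923520) (nat_lit 146966) (nat_lit 381921) (nat_lit 1) .nil)), (nat_lit 33),
 (nat_lit 0), (nat_lit 0), (nat_lit 0), (25, 36, 28), [7432506, 737302], 0⟩,
  mz,
  ⟨⟨17, 36, 28, 20, 23, -50, 38, -8, -1⟩, (.cons (nat_lit 1054032) (nat_lit 2588146) (nat_lit 22065801)
 (nat_lit 1) (.cons (nat_lit 9865) (nat_lit 108484) (nat_lit 513292) (nat_lit 1) .nil)), (nat_lit 16), (nat_lit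
 0), (nat_lit 0), (nat_lit 0), (28, 44, 46), [10608482, 250323], 0⟩,
  ⟨⟨27, -32, -47, 40, 17, 0, 10, 16, -47⟩, (.cons (nat_lit 30460032) (nat_lit 23482129) (nat_lit 36808945)
 (nat_lit 1) (.cons (nat_lit 506397) (nat_lit 166189) (nat_lit 843846) (nat_lit 1) .nil)), (nat_lit 11),
 (nat_lit 0), (nat_lit 0), (nat_lit 0), (46, 2, 24), [33608566, 280611], 0⟩,
  mz,
  ⟨⟨17, -48, -17, 40, 17, -40, -10, -16, -37⟩, (.cons (nat_lit 34449997) (nat_lit 27872793) (nat_lit 31512583)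
 (nat_lit 1) (.cons (nat_lit 298636) (nat_lit 147050) (nat_lit 142931) (nat_lit 1) .nil)), (nat_lit 9),
 (nat_lit 0), (nat_lit 0), (nat_lit 0), (6, 39, 2), [40139594, 822602], 0⟩,
  mz,
  mz,
  mz,
  ⟨⟨45, -16, -1, 22, 35, -36, 20, -28, -37⟩, (.cons (nat_lit 24558077) (nat_lit 27324774) (nat_lit 33113446)
 (nat_lit 1) (.cons (nat_lit 459261) (nat_lit 299130) (nat_lit 318589) (nat_lit 1) .nil)), (nat_lit 45),
 (nat_lit 0), (nat_lit 0), (nat_lit 0), (12, 9, 21), [21725402, 601506], 0⟩,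
  mz,
  ⟨⟨51, 4, -32, 2, -45, -16, 12, 12, -49⟩, (.cons (nat_lit 3161155) (nat_lit 25377524) (nat_lit 35250780)
 (nat_lit 1) (.cons (nat_lit 908286) (nat_lit 854909) (nat_lit 1) (nat_lit 216597) .nil)), (nat_lit 33),
 (nat_lit 0), (nat_lit 0), (nat_lit 0), (7, 27, 21), [3546932, 601513], 0⟩,
  ⟨⟨-21, -32, -28, 2, -35, 34, 28, -20, -41⟩, (.cons (nat_lit 21757032) (nat_lit 32399853) (nat_lit 7567755)
 (nat_lit 1) (.cons (nat_lit 518024) (nat_lit 140768) (nat_lit 500726) (nat_lit 1) .nil)), (nat_lit 46),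
 (nat_lit 0), (nat_lit 0), (nat_lit 0), (33, 17, 3), [36774456, 112998], 0⟩,
  ⟨⟨-45, 16, 44, -22, -35, -14, -20, 28, -17⟩, (.cons (nat_lit 14440774) (nat_lit 13422317) (nat_lit 26812392)
 (nat_lit 1) (.cons (nat_lit 868082) (nat_lit 284702) (nat_lit 554496) (nat_lit 1) .nil)), (nat_lit 45),
 (nat_lit 0), (nat_lit 0), (nat_lit 0), (34, 2, 36), [27696815, 318423], 0⟩]

/-- All the moves. -/
noncomputable def tabs : List (List (List Mv)) := [[[], t0_1, [], t0_3], [[], t1_1, [], t1_3], [], [], [[], t4_1, [], t4_3]]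

/-- Subtrie. -/
noncomputable def T1 : Tr := (.ev (nat_lit 20) (nat_lit 35253129379852) (.nd (nat_lit 33) (.br (nat_lit 20)
 (.br (nat_lit 13) (.br (nat_lit 4) (.br (nat_lit 2) (.ch (nat_lit 1) (.ev (nat_lit 52) (nat_lit
 70644632682496) (.ev (nat_lit 84) (nat_lit 17592186044418) (.ev (nat_lit 160) (nat_lit 4447438658080) .dd))))
 (.ch (nat_lit 2) (.ev (nat_lit 52) (nat_lit 37111470112) (.ev (nat_lit 148) (nat_lit 32768) (.ev (nat_lit 180)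
 (nat_lit 274877906944) (.ev (nat_lit 404) (nat_lit 524288) (.nd (nat_lit 576) (.br (nat_lit 2) (.br (nat_lit
 1) (.ch (nat_lit 0) (.ev (nat_lit 592) (nat_lit 74767060173314) (.ev (nat_lit 612) (nat_lit 8589934592) (.nd
 (nat_lit 1376) (.br (nat_lit 5) (.ch (nat_lit 1) (.ev (nat_lit 1392) (nat_lit 17596615229440) (.nd (nat_lit
 1872) (.br (nat_lit 4) (.ch (nat_lit 0) (.ev (nat_lit 1888) (nat_lit 2097152) (.ev (nat_lit 1901) (nat_lit
 16384) .dd))) (.ch (nat_lit 4) (.fin (nat_lit 576550362680869408))))))) (.br (nat_lit 6) (.ch (nat_lit 5) (.ev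
 (nat_lit 1392) (nat_lit 17596483125248) (.ev (nat_lit 1405) (nat_lit 134217728) .dd))) (.ch (nat_lit 6) (.ev
 (nat_lit 1392) (nat_lit 136331264) (.nd (nat_lit 1792) (.br (nat_lit 5) (.ch (nat_lit 3) (.ev (nat_lit 1808)
 (nat_lit 17596481011712) .dd)) (.ch (nat_lit 5) (.fin (nat_lit 576497585986421301))))))))))))) (.ch (nat_lit
 1) (.ev (nat_lit 592) (nat_lit 17592590811648) (.ev (nat_lit 688) (nat_lit 70368744177664) (.ev (nat_lit 832)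
 (nat_lit 2) (.ev (nat_lit 1072) (nat_lit 4398046511104) (.nd (nat_lit 1376) (.br (nat_lit 3) (.ch (nat_lit 1)
 (.ev (nat_lit 1392) (nat_lit 4294967296) (.fin (nat_lit 576490988927140447)))) (.ch (nat_lit 3) (.ev (nat_lit
 1392) (nat_lit 1048576) (.fin (nat_lit 576460202555425342)))))))))))) (.br (nat_lit 6) (.ch (nat_lit 2) (.ev
 (nat_lit 592) (nat_lit 92371998999040) (.nd (nat_lit 1376) (.br (nat_lit 5) (.ch (nat_lit 4) (.ev (nat_lit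
 1392) (nat_lit 268451842) .dd)) (.ch (nat_lit 5) (.nd (nat_lit 1792) (.br (nat_lit 3) (.ch (nat_lit 1) (.ev
 (nat_lit 1808) (nat_lit 268435458) (.ev (nat_lit 1821) (nat_lit 16384) .dd))) (.ch (nat_lit 3) (.ev (nat_lit
 1808) (nat_lit 16384) (.fin (nat_lit 576385435559215628))))))))))) (.ch (nat_lit 6) (.ev (nat_lit 592)
 (nat_lit 92363541200898) (.ev (nat_lit 784) (nat_lit 2097152) (.ev (nat_lit 934) (nat_lit 8589935104) (.ev
 (nat_lit 941) (nat_lit 134217728) .dd)))))))))))))) (.br (nat_lit 6) (.ch (nat_lit 4) (.ev (nat_lit 52)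
 (nat_lit 88277147451426) (.ev (nat_lit 96) (nat_lit 4407109933568) .dd))) (.br (nat_lit 8) (.ch (nat_lit 6)
 (.ev (nat_lit 52) (nat_lit 22299471288834) (.ev (nat_lit 84) (nat_lit 4294967296) (.ev (nat_lit 148) (nat_lit
 536870912) (.ev (nat_lit 212) (nat_lit 8589934592) (.ev (nat_lit 244) (nat_lit 70368744177664) (.ev (nat_lit
 340) (nat_lit 32) (.ev (nat_lit 372) (nat_lit 524288) (.nd (nat_lit 576) (.br (nat_lit 1) (.ch (nat_lit 0)
 (.ev (nat_lit 592) (nat_lit 2416181248) (.ev (nat_lit 816) (nat_lit 67108864) (.ev (nat_lit 1056) (nat_lit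
 2097152) (.nd (nat_lit 1376) (.br (nat_lit 6) (.ch (nat_lit 5) (.fin (nat_lit 576490988927140412))) (.ch
 (nat_lit 6) (.ev (nat_lit 1392) (nat_lit 134234112) .dd)))))))) (.br (nat_lit 3) (.ch (nat_lit 1) (.ev
 (nat_lit 592) (nat_lit 69222400) (.ev (nat_lit 676) (nat_lit 268435456) (.nd (nat_lit 1376) (.br (nat_lit 5)
 (.ch (nat_lit 1) (.ev (nat_lit 1392) (nat_lit 2281963520) .dd)) (.br (nat_lit 6) (.ch (nat_lit 5) (.ev
 (nat_lit 1392) (nat_lit 2147483648) (.fin (nat_lit 576464600599839301)))) (.ch (nat_lit 6) (.ev (nat_lit 1392)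
 (nat_lit 134217728) (.ev (nat_lit 1540) (nat_lit 262144) (.ev (nat_lit 1549) (nat_lit 2147483648)
 .dd)))))))))) (.ch (nat_lit 3) (.ev (nat_lit 592) (nat_lit 2619621376) .dd))))))))))))) (.ch (nat_lit 8) (.ev
 (nat_lit 52) (nat_lit 21992785582592) (.ev (nat_lit 84) (nat_lit 34359738368) (.ev (nat_lit 244) (nat_lit
 1048576) (.nd (nat_lit 576) (.br (nat_lit 2) (.ch (nat_lit 1) (.ev (nat_lit 592) (nat_lit 604028962) (.ev
 (nat_lit 804) (nat_lit 70368744177664) (.ev (nat_lit 1028) (nat_lit 274877906944) (.nd (nat_lit 1376) (.br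
 (nat_lit 6) (.ch (nat_lit 3) (.nd (nat_lit 1872) (.br (nat_lit 5) (.ch (nat_lit 2) (.fin (nat_lit
 576460202555425342))) (.ch (nat_lit 5) (.ev (nat_lit 1888) (nat_lit 8589934592) (.ev (nat_lit 1901) (nat_lit
 4294967296) .dd)))))) (.ch (nat_lit 6) (.ev (nat_lit 1392) (nat_lit 8589934592) (.ev (nat_lit 1405) (nat_lit
 4294967296) .dd))))))))) (.br (nat_lit 6) (.ch (nat_lit 2) (.ev (nat_lit 592) (nat_lit 70656574095392) (.ev
 (nat_lit 960) (nat_lit 2) (.ev (nat_lit 1632) (nat_lit 32768) (.nd (nat_lit 1872) (.ch (nat_lit 5) (.nd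
 (nat_lit 1952) (.br (nat_lit 1) (.ch (nat_lit 0) (.fin (nat_lit 576468998579241547))) (.ch (nat_lit 1) (.ev
 (nat_lit 1968) (nat_lit 536870912) (.ev (nat_lit 1981) (nat_lit 16384) .dd))))))))))) (.ch (nat_lit 6) (.ev
 (nat_lit 592) (nat_lit 70652748922882) (.ev (nat_lit 976) (nat_lit 67108864) (.ev (nat_lit 1040) (nat_lit 32)
 (.ev (nat_lit 1316) (nat_lit 16384) (.ev (nat_lit 1325) (nat_lit 4294967296) .dd)))))))))))))))) (.br (nat_lit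
 15) (.br (nat_lit 14) (.ch (nat_lit 13) (.ev (nat_lit 52) (nat_lit 283937918978) (.ev (nat_lit 148) (nat_lit
 2147483648) (.ev (nat_lit 212) (nat_lit 70368744177664) (.ev (nat_lit 404) (nat_lit 32) (.nd (nat_lit 576)
 (.br (nat_lit 2) (.ch (nat_lit 0) (.ev (nat_lit 592) (nat_lit 4432946266624) (.nd (nat_lit 1376) (.br (nat_lit
 6) (.ch (nat_lit 1) (.ev (nat_lit 1392) (nat_lit 17592186570752) (.ev (nat_lit 1405) (nat_lit 4294967296)
 .dd))) (.ch (nat_lit 6) (.ev (nat_lit 1552) (nat_lit 524288) (.ev (nat_lit 1568) (nat_lit 2048) (.nd (nat_lit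
 1920) (.br (nat_lit 5) (.ch (nat_lit 3) (.ev (nat_lit 1936) (nat_lit 17592186044416) (.ev (nat_lit 1949)
 (nat_lit 4294967296) .dd))) (.ch (nat_lit 5) (.fin (nat_lit 576497585986421301)))))))))))) (.br (nat_lit 6)
 (.ch (nat_lit 2) (.ev (nat_lit 592) (nat_lit 17630843373568) (.ev (nat_lit 676) (nat_lit 512) (.nd (nat_lit
 1376) (.br (nat_lit 1) (.ch (nat_lit 0) (.ev (nat_lit 1392) (nat_lit 4398046511104) (.nd (nat_lit 1872) (.br
 (nat_lit 1) (.ch (nat_lit 0) (.fin (nat_lit 576464600599839294))) (.ch (nat_lit 1) (.ev (nat_lit 1888)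
 (nat_lit 536870912) (.ev (nat_lit 1901) (nat_lit 1048576) .dd))))))) (.ch (nat_lit 1) (.ev (nat_lit 1392)
 (nat_lit 1048576) (.ev (nat_lit 1446) (nat_lit 536870912) (.ev (nat_lit 1453) (nat_lit 4398046511104)
 .dd))))))))) (.ch (nat_lit 6) (.ev (nat_lit 592) (nat_lit 21990769953280) (.nd (nat_lit 1376) (.br (nat_lit 5)
 (.ch (nat_lit 1) (.ev (nat_lit 1392) (nat_lit 4297064448) (.ev (nat_lit 1584) (nat_lit 34359738368) (.ev
 (nat_lit 1597) (nat_lit 1048576) .dd)))) (.br (nat_lit 6) (.ch (nat_lit 5) (.ev (nat_lit 1392) (nat_lit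
 34360786944) (.ev (nat_lit 1456) (nat_lit 2097152) (.ev (nat_lit 1469) (nat_lit 4294967296) .dd)))) (.ch
 (nat_lit 6) (.ev (nat_lit 1392) (nat_lit 38657851392) .dd))))))))))))))) (.ch (nat_lit 14) (.ev (nat_lit 52)
 (nat_lit 74780213807648) (.ev (nat_lit 116) (nat_lit 2) (.ev (nat_lit 180) (nat_lit 17594333528064) (.ev
 (nat_lit 340) (nat_lit 524288) (.nd (nat_lit 576) (.br (nat_lit 2) (.br (nat_lit 1) (.ch (nat_lit 0) (.ev
 (nat_lit 592) (nat_lit 34831601664) (.ev (nat_lit 1206) (nat_lit 274877906944) (.ev (nat_lit 1213) (nat_lit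
 16384) .dd)))) (.ch (nat_lit 1) (.ev (nat_lit 592) (nat_lit 20480) (.ev (nat_lit 900) (nat_lit 67108864) (.nd
 (nat_lit 1376) (.br (nat_lit 5) (.ch (nat_lit 3) (.ev (nat_lit 1392) (nat_lit 309371863040) (.nd (nat_lit
 1792) (.br (nat_lit 5) (.ch (nat_lit 2) (.fin (nat_lit 576363445337145868))) (.ch (nat_lit 5) (.ev (nat_lit
 1808) (nat_lit 270532608) .dd)))))) (.br (nat_lit 6) (.ch (nat_lit 5) (.ev (nat_lit 1392) (nat_lit
 309506080768) (.nd (nat_lit 1792) (.br (nat_lit 6) (.ch (nat_lit 0) (.ev (nat_lit 1808) (nat_lit 2097152) (.ev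
 (nat_lit 1821) (nat_lit 134217728) .dd))) (.ch (nat_lit 6) (.fin (nat_lit 576465700110418456))))))) (.ch
 (nat_lit 6) (.ev (nat_lit 1392) (nat_lit 404750336) (.nd (nat_lit 1792) (.br (nat_lit 4) (.ch (nat_lit 3) (.ev
 (nat_lit 1808) (nat_lit 309237645312) .dd)) (.ch (nat_lit 4) (.nd (nat_lit 2049) (.br (nat_lit 18) (.ch
 (nat_lit 7) (.ev (nat_lit 2065) (nat_lit 309237645312) .dd)) (.ch (nat_lit 18) (.nd (nat_lit 2080) (.ch
 (nat_lit 5) (.fin (nat_lit 576458003536364077))))))))))))))))))) (.br (nat_lit 6) (.ch (nat_lit 2) (.ev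
 (nat_lit 592) (nat_lit 309709524992) .dd)) (.ch (nat_lit 6) (.ev (nat_lit 592) (nat_lit 34630270976) (.ev
 (nat_lit 832) (nat_lit 134217728) (.ev (nat_lit 1140) (nat_lit 16384) (.ev (nat_lit 1316) (nat_lit
 274877906944) (.ev (nat_lit 1504) (nat_lit 4096) (.ev (nat_lit 1517) (nat_lit 67108864) .dd))))))))))))))))
 (.br (nat_lit 18) (.ch (nat_lit 15) (.ev (nat_lit 52) (nat_lit 4432945483776) (.ev (nat_lit 84) (nat_lit
 274877906944) (.ev (nat_lit 180) (nat_lit 67108864) (.ev (nat_lit 308) (nat_lit 32) (.ev (nat_lit 340)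
 (nat_lit 1048576) (.ev (nat_lit 372) (nat_lit 8589934592) (.nd (nat_lit 576) (.br (nat_lit 3) (.br (nat_lit 1)
 (.ch (nat_lit 0) (.ev (nat_lit 592) (nat_lit 70369013170690) (.ev (nat_lit 832) (nat_lit 4294967296) (.ev
 (nat_lit 1140) (nat_lit 2147483648) (.nd (nat_lit 1728) (.br (nat_lit 5) (.ch (nat_lit 4) (.ev (nat_lit 1744)
 (nat_lit 134234112) (.fin (nat_lit 576570153858712075)))) (.br (nat_lit 6) (.ch (nat_lit 5) (.ev (nat_lit
 1744) (nat_lit 17592186046464) (.nd (nat_lit 1920) (.br (nat_lit 3) (.ch (nat_lit 1) (.ev (nat_lit 1936)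
 (nat_lit 16384) (.ev (nat_lit 1949) (nat_lit 134217728) .dd))) (.ch (nat_lit 3) (.fin (nat_lit
 576431615194382916))))))) (.ch (nat_lit 6) (.ev (nat_lit 1744) (nat_lit 17592320280576) .dd))))))))) (.ch
 (nat_lit 1) (.ev (nat_lit 592) (nat_lit 17592588714498) (.ev (nat_lit 784) (nat_lit 2048) (.nd (nat_lit 1376)
 (.br (nat_lit 5) (.ch (nat_lit 3) (.ev (nat_lit 1392) (nat_lit 70368744177664) (.nd (nat_lit 1872) (.ch
 (nat_lit 4) (.nd (nat_lit 1953) (.br (nat_lit 21) (.ch (nat_lit 7) (.ev (nat_lit 1969) (nat_lit 2147516416)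
 (.nd (nat_lit 2080) (.br (nat_lit 5) (.ch (nat_lit 3) (.ev (nat_lit 2096) (nat_lit 4295491584) .dd)) (.ch
 (nat_lit 5) (.fin (nat_lit 576421719655793200))))))) (.ch (nat_lit 21) (.ev (nat_lit 1969) (nat_lit
 4295491584) (.nd (nat_lit 2048) (.br (nat_lit 5) (.ch (nat_lit 3) (.fin (nat_lit 576479993758433872))) (.ch
 (nat_lit 5) (.ev (nat_lit 2064) (nat_lit 2147516416) .dd)))))))))))) (.ch (nat_lit 5) (.ev (nat_lit 1392)
 (nat_lit 6442483712) (.fin (nat_lit 576537168562307665)))))))))) (.br (nat_lit 6) (.ch (nat_lit 3) (.ev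
 (nat_lit 592) (nat_lit 70375321421824) (.nd (nat_lit 1376) (.br (nat_lit 6) (.ch (nat_lit 1) (.ev (nat_lit
 1392) (nat_lit 268435968) (.nd (nat_lit 1792) (.br (nat_lit 6) (.ch (nat_lit 2) (.fin (nat_lit
 576487690347168364))) (.ch (nat_lit 6) (.ev (nat_lit 1808) (nat_lit 17592186044418) .dd)))))) (.ch (nat_lit 6)
 (.ev (nat_lit 1392) (nat_lit 17592186044416) (.nd (nat_lit 1792) (.br (nat_lit 3) (.ch (nat_lit 2) (.ev
 (nat_lit 1808) (nat_lit 268435456) (.ev (nat_lit 1840) (nat_lit 514) .dd))) (.ch (nat_lit 3) (.ev (nat_lit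
 1808) (nat_lit 2) (.fin (nat_lit 576482192970433000)))))))))))) (.ch (nat_lit 6) (.ev (nat_lit 592) (nat_lit
 87965494200322) (.nd (nat_lit 1376) (.br (nat_lit 3) (.ch (nat_lit 1) (.ev (nat_lit 1392) (nat_lit 134218240)
 (.ev (nat_lit 1405) (nat_lit 2147483648) .dd))) (.ch (nat_lit 3) (.ev (nat_lit 1428) (nat_lit 512) (.ev
 (nat_lit 1540) (nat_lit 134217728) (.ev (nat_lit 1549) (nat_lit 2147483648) .dd)))))))))))))))))) (.br
 (nat_lit 19) (.ch (nat_lit 18) (.ev (nat_lit 52) (nat_lit 70368881596960) (.ev (nat_lit 84) (nat_lit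
 536870912) (.ev (nat_lit 116) (nat_lit 4294967296) (.ev (nat_lit 148) (nat_lit 67108864) (.ev (nat_lit 276)
 (nat_lit 524288) (.ev (nat_lit 436) (nat_lit 8589934592) (.ev (nat_lit 528) (nat_lit 17592186044416) (.nd
 (nat_lit 576) (.br (nat_lit 1) (.ch (nat_lit 0) (.ev (nat_lit 592) (nat_lit 4707552591874) (.ev (nat_lit 900)
 (nat_lit 2147483648) (.ev (nat_lit 909) (nat_lit 262144) .dd)))) (.br (nat_lit 2) (.ch (nat_lit 1) (.ev
 (nat_lit 592) (nat_lit 4398046511104) (.ev (nat_lit 1104) (nat_lit 268435456) (.nd (nat_lit 1376) (.br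
 (nat_lit 6) (.ch (nat_lit 1) (.ev (nat_lit 1392) (nat_lit 36507484162) (.ev (nat_lit 1405) (nat_lit
 274877906944) .dd))) (.ch (nat_lit 6) (.ev (nat_lit 1684) (nat_lit 2147483648) (.nd (nat_lit 1792) (.br
 (nat_lit 4) (.ch (nat_lit 0) (.ev (nat_lit 1808) (nat_lit 309237645314) (.ev (nat_lit 1821) (nat_lit 262144)
 .dd))) (.br (nat_lit 5) (.ch (nat_lit 4) (.ev (nat_lit 1808) (nat_lit 262146) (.fin (nat_lit
 576458003536364077)))) (.ch (nat_lit 5) (.ev (nat_lit 1808) (nat_lit 309237645312) (.fin (nat_lit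
 576487690322002536)))))))))))))) (.ch (nat_lit 2) (.ev (nat_lit 592) (nat_lit 311385391104) (.ev (nat_lit 768)
 (nat_lit 4398046511104) (.nd (nat_lit 1376) (.br (nat_lit 5) (.ch (nat_lit 4) (.ev (nat_lit 1392) (nat_lit
 268435458) .dd)) (.ch (nat_lit 5) (.nd (nat_lit 1792) (.br (nat_lit 3) (.ch (nat_lit 1) (.ev (nat_lit 1808)
 (nat_lit 268435458) .dd)) (.ch (nat_lit 3) (.fin (nat_lit 576537168562307700)))))))))))))))))))))) (.ch
 (nat_lit 19) (.ev (nat_lit 52) (nat_lit 88281444292608) (.ev (nat_lit 84) (nat_lit 134217728) (.ev (nat_lit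
 148) (nat_lit 4398046511104) (.nd (nat_lit 576) (.br (nat_lit 3) (.ch (nat_lit 1) (.ev (nat_lit 592) (nat_lit
 16416) (.ev (nat_lit 868) (nat_lit 512) (.ev (nat_lit 1172) (nat_lit 67108864) (.nd (nat_lit 1728) (.br
 (nat_lit 3) (.ch (nat_lit 0) (.ev (nat_lit 1744) (nat_lit 4565237762) .dd)) (.br (nat_lit 6) (.ch (nat_lit 3)
 (.ev (nat_lit 1744) (nat_lit 1048578) (.nd (nat_lit 1792) (.br (nat_lit 5) (.ch (nat_lit 4) (.ev (nat_lit
 1808) (nat_lit 268435456) (.ev (nat_lit 1824) (nat_lit 262144) (.fin (nat_lit 576500884465730128))))) (.ch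
 (nat_lit 5) (.ev (nat_lit 1808) (nat_lit 786432) (.ev (nat_lit 1840) (nat_lit 4294967296) (.ev (nat_lit 1853)
 (nat_lit 268435456) .dd)))))))) (.ch (nat_lit 6) (.ev (nat_lit 1744) (nat_lit 4563927040) (.nd (nat_lit 1792)
 (.br (nat_lit 5) (.ch (nat_lit 3) (.ev (nat_lit 1808) (nat_lit 262146) (.ev (nat_lit 1821) (nat_lit 1048576)
 .dd))) (.ch (nat_lit 5) (.ev (nat_lit 1808) (nat_lit 1048576) (.fin (nat_lit 576434913799520792)))))))))))))))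
 (.br (nat_lit 6) (.ch (nat_lit 3) (.ev (nat_lit 592) (nat_lit 4363927584) (.ev (nat_lit 656) (nat_lit 2) (.nd
 (nat_lit 1376) (.br (nat_lit 6) (.ch (nat_lit 5) (.ev (nat_lit 1392) (nat_lit 268435968) .dd)) (.ch (nat_lit
 6) (.nd (nat_lit 1792) (.br (nat_lit 3) (.ch (nat_lit 0) (.ev (nat_lit 1860) (nat_lit 512) (.ev (nat_lit 1869)
 (nat_lit 268435456) .dd))) (.ch (nat_lit 3) (.fin (nat_lit 576440411151090328))))))))))) (.ch (nat_lit 6) (.ev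
 (nat_lit 592) (nat_lit 269222402) (.ev (nat_lit 1264) (nat_lit 4294967296) (.nd (nat_lit 1728) (.br (nat_lit
 6) (.ch (nat_lit 0) (.ev (nat_lit 1744) (nat_lit 16416) (.nd (nat_lit 1792) (.br (nat_lit 3) (.ch (nat_lit 0)
 (.fin (nat_lit 576465700110418540))) (.ch (nat_lit 3) (.ev (nat_lit 1860) (nat_lit 67108864) (.ev (nat_lit
 1869) (nat_lit 1048576) .dd))))))) (.ch (nat_lit 6) (.ev (nat_lit 1744) (nat_lit 68157440) (.fin (nat_lit
 576438212526293515)))))))))))))))))))) (.br (nat_lit 25) (.br (nat_lit 22) (.br (nat_lit 21) (.ch (nat_lit 20)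
 (.ev (nat_lit 52) (nat_lit 40869581314) (.ev (nat_lit 148) (nat_lit 274877906944) (.ev (nat_lit 244) (nat_lit
 524288) (.ev (nat_lit 308) (nat_lit 1048576) (.ev (nat_lit 436) (nat_lit 32) (.nd (nat_lit 576) (.br (nat_lit
 1) (.ch (nat_lit 0) (.ev (nat_lit 592) (nat_lit 74776188059648) (.ev (nat_lit 1264) (nat_lit 134217728) (.nd
 (nat_lit 1728) (.br (nat_lit 4) (.ch (nat_lit 1) (.ev (nat_lit 1744) (nat_lit 17592186046464) .dd)) (.ch
 (nat_lit 4) (.nd (nat_lit 1872) (.br (nat_lit 5) (.ch (nat_lit 3) (.ev (nat_lit 1908) (nat_lit 17592186044416)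
 (.ev (nat_lit 1917) (nat_lit 2048) .dd))) (.ch (nat_lit 5) (.fin (nat_lit 576352450262811253))))))))))) (.br
 (nat_lit 2) (.ch (nat_lit 1) (.ev (nat_lit 592) (nat_lit 268468224) (.ev (nat_lit 740) (nat_lit 2048) (.ev
 (nat_lit 916) (nat_lit 536870912) (.nd (nat_lit 1376) (.br (nat_lit 3) (.ch (nat_lit 1) (.ev (nat_lit 1392)
 (nat_lit 92367702982656) .dd)) (.br (nat_lit 5) (.ch (nat_lit 3) (.ev (nat_lit 1392) (nat_lit 70368878395392)
 (.ev (nat_lit 1712) (nat_lit 2097152) (.nd (nat_lit 1792) (.br (nat_lit 5) (.ch (nat_lit 2) (.ev (nat_lit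
 1808) (nat_lit 17592186044416) (.fin (nat_lit 576434913789035028)))) (.ch (nat_lit 5) (.ev (nat_lit 1808)
 (nat_lit 4406636445696) (.ev (nat_lit 1821) (nat_lit 17592186044416) .dd)))))))) (.ch (nat_lit 5) (.ev
 (nat_lit 1392) (nat_lit 21998822490112) (.ev (nat_lit 1702) (nat_lit 70368744177664) (.nd (nat_lit 1792) (.br
 (nat_lit 6) (.ch (nat_lit 0) (.ev (nat_lit 1808) (nat_lit 136314880) .dd)) (.ch (nat_lit 6) (.fin (nat_lit
 576456904011104872))))))))))))))) (.ch (nat_lit 2) (.ev (nat_lit 592) (nat_lit 17600912295936) (.ev (nat_lit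
 656) (nat_lit 4398046511104) (.nd (nat_lit 1376) (.br (nat_lit 5) (.ch (nat_lit 1) (.ev (nat_lit 1392)
 (nat_lit 268468224) (.nd (nat_lit 1792) (.br (nat_lit 6) (.ch (nat_lit 1) (.ev (nat_lit 1860) (nat_lit
 536870912) (.ev (nat_lit 1869) (nat_lit 70368744177664) .dd))) (.ch (nat_lit 6) (.fin (nat_lit
 576487690322002480))))))) (.ch (nat_lit 5) (.ev (nat_lit 1392) (nat_lit 70369281048576) (.fin (nat_lit
 576504183192502760)))))))))))))))))) (.ch (nat_lit 21) (.ev (nat_lit 52) (nat_lit 74769475344898) (.ev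
 (nat_lit 116) (nat_lit 17592253153280) (.ev (nat_lit 180) (nat_lit 134217728) (.ev (nat_lit 340) (nat_lit
 8589934592) (.ev (nat_lit 496) (nat_lit 524288) (.nd (nat_lit 576) (.br (nat_lit 3) (.ch (nat_lit 0) (.ev
 (nat_lit 592) (nat_lit 309507129344) (.ev (nat_lit 1284) (nat_lit 32) (.nd (nat_lit 1728) (.br (nat_lit 4)
 (.ch (nat_lit 1) (.ev (nat_lit 1744) (nat_lit 4294967296) (.nd (nat_lit 1920) (.br (nat_lit 4) (.ch (nat_lit
 3) (.ev (nat_lit 1936) (nat_lit 2113536) .dd)) (.ch (nat_lit 4) (.fin (nat_lit 576372241440653920))))))) (.br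
 (nat_lit 6) (.ch (nat_lit 4) (.ev (nat_lit 1744) (nat_lit 4297080832) .dd)) (.ch (nat_lit 6) (.ev (nat_lit
 1744) (nat_lit 2113536) (.ev (nat_lit 1757) (nat_lit 4294967296) .dd))))))))) (.br (nat_lit 6) (.ch (nat_lit
 3) (.ev (nat_lit 592) (nat_lit 38657867776) (.ev (nat_lit 630) (nat_lit 268435488) (.ev (nat_lit 637) (nat_lit
 274877906944) .dd)))) (.ch (nat_lit 6) (.ev (nat_lit 592) (nat_lit 275146342432) (.ev (nat_lit 1028) (nat_lit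
 4294967296) (.nd (nat_lit 1376) (.br (nat_lit 3) (.ch (nat_lit 1) (.ev (nat_lit 1392) (nat_lit 2113536) (.fin
 (nat_lit 576660313665389173)))) (.br (nat_lit 5) (.ch (nat_lit 3) (.ev (nat_lit 1392) (nat_lit 34359738368)
 (.nd (nat_lit 1728) (.br (nat_lit 6) (.ch (nat_lit 2) (.ev (nat_lit 1824) (nat_lit 1048576) (.fin (nat_lit
 576448107907596820)))) (.ch (nat_lit 6) (.ev (nat_lit 1744) (nat_lit 3162112) .dd)))))) (.ch (nat_lit 5) (.ev
 (nat_lit 1392) (nat_lit 34362900480) .dd)))))))))))))))))) (.br (nat_lit 23) (.ch (nat_lit 22) (.ev (nat_lit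
 52) (nat_lit 4402544689664) (.ev (nat_lit 116) (nat_lit 2147483648) (.ev (nat_lit 148) (nat_lit 2097152) (.ev
 (nat_lit 180) (nat_lit 4096) (.ev (nat_lit 276) (nat_lit 32) (.ev (nat_lit 448) (nat_lit 70368744179712) (.nd
 (nat_lit 576) (.br (nat_lit 3) (.ch (nat_lit 0) (.ev (nat_lit 592) (nat_lit 17627351089154) (.ev (nat_lit 852)
 (nat_lit 8589934592) (.ev (nat_lit 861) (nat_lit 274877906944) .dd)))) (.br (nat_lit 6) (.ch (nat_lit 3) (.ev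
 (nat_lit 592) (nat_lit 317827579904) (.ev (nat_lit 1248) (nat_lit 536870912) (.ev (nat_lit 1366) (nat_lit
 268435456) (.nd (nat_lit 1728) (.br (nat_lit 6) (.ch (nat_lit 1) (.nd (nat_lit 1952) (.br (nat_lit 6) (.ch
 (nat_lit 2) (.fin (nat_lit 576487690347168364))) (.ch (nat_lit 6) (.ev (nat_lit 1968) (nat_lit 17592186044418)
 .dd))))) (.ch (nat_lit 6) (.fin (nat_lit 576484392014660128))))))))) (.ch (nat_lit 6) (.ev (nat_lit 592)
 (nat_lit 17592991350786) (.nd (nat_lit 1376) (.br (nat_lit 6) (.ch (nat_lit 1) (.ev (nat_lit 1392) (nat_lit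
 283467841536) (.ev (nat_lit 1405) (nat_lit 34359738368) .dd))) (.ch (nat_lit 6) (.ev (nat_lit 1392) (nat_lit
 34359738368) (.nd (nat_lit 1792) (.br (nat_lit 4) (.ch (nat_lit 0) (.fin (nat_lit 576570153565110795))) (.br
 (nat_lit 5) (.ch (nat_lit 4) (.ev (nat_lit 1808) (nat_lit 283467841536) .dd)) (.ch (nat_lit 5) (.ev (nat_lit
 1808) (nat_lit 8589934592) (.ev (nat_lit 1821) (nat_lit 274877906944) .dd)))))))))))))))))))))) (.br (nat_lit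
 24) (.ch (nat_lit 23) (.ev (nat_lit 52) (nat_lit 5305532930) (.ev (nat_lit 84) (nat_lit 4096) (.ev (nat_lit
 116) (nat_lit 34359738368) (.ev (nat_lit 148) (nat_lit 17592186044416) (.ev (nat_lit 212) (nat_lit 2048) (.ev
 (nat_lit 464) (nat_lit 16384) (.nd (nat_lit 576) (.br (nat_lit 3) (.ch (nat_lit 1) (.ev (nat_lit 592) (nat_lit
 32) (.nd (nat_lit 1376) (.br (nat_lit 6) (.ch (nat_lit 3) (.ev (nat_lit 1392) (nat_lit 274877906944) (.ev
 (nat_lit 1620) (nat_lit 70368744177664) (.nd (nat_lit 1792) (.br (nat_lit 4) (.ch (nat_lit 2) (.ev (nat_lit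
 1808) (nat_lit 2147516416) (.fin (nat_lit 576487690332488300)))) (.br (nat_lit 5) (.ch (nat_lit 4) (.ev
 (nat_lit 1808) (nat_lit 4406636445696) (.fin (nat_lit 576479993758433872)))) (.ch (nat_lit 5) (.ev (nat_lit
 1808) (nat_lit 10737451008) (.ev (nat_lit 1821) (nat_lit 4398046511104) .dd))))))))) (.ch (nat_lit 6) (.ev
 (nat_lit 1392) (nat_lit 74777528139776) (.ev (nat_lit 1405) (nat_lit 274877906944) .dd))))))) (.br (nat_lit 6)
 (.ch (nat_lit 3) (.ev (nat_lit 592) (nat_lit 285615357984) (.ev (nat_lit 1158) (nat_lit 74766790688768) .dd)))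
 (.ch (nat_lit 6) (.ev (nat_lit 592) (nat_lit 74768938205184) (.ev (nat_lit 640) (nat_lit 32) (.nd (nat_lit
 1376) (.br (nat_lit 6) (.ch (nat_lit 1) (.ev (nat_lit 1392) (nat_lit 283467841536) .dd)) (.ch (nat_lit 6) (.nd
 (nat_lit 1792) (.br (nat_lit 4) (.ch (nat_lit 0) (.fin (nat_lit 576352450556412533))) (.ch (nat_lit 4) (.ev
 (nat_lit 1808) (nat_lit 8589934592) (.ev (nat_lit 1821) (nat_lit 274877906944) .dd))))))))))))))))))))) (.ch
 (nat_lit 24) (.ev (nat_lit 52) (nat_lit 17883039041568) (.ev (nat_lit 128) (nat_lit 74801218343426) .dd))))))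
 (.br (nat_lit 27) (.br (nat_lit 26) (.ch (nat_lit 25) (.ev (nat_lit 52) (nat_lit 17902297677856) (.ev (nat_lit
 64) (nat_lit 74781959707138) .dd))) (.ch (nat_lit 26) (.ev (nat_lit 52) (nat_lit 4722518919170) (.nd (nat_lit
 576) (.br (nat_lit 3) (.br (nat_lit 2) (.ch (nat_lit 1) (.ev (nat_lit 592) (nat_lit 805359648) (.ev (nat_lit
 704) (nat_lit 2097152) (.ev (nat_lit 1220) (nat_lit 512) (.nd (nat_lit 1728) (.br (nat_lit 3) (.ch (nat_lit 1)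
 (.ev (nat_lit 1744) (nat_lit 87960931008512) .dd)) (.br (nat_lit 5) (.ch (nat_lit 3) (.ev (nat_lit 1744)
 (nat_lit 70368744701952) (.nd (nat_lit 1872) (.br (nat_lit 5) (.ch (nat_lit 1) (.fin (nat_lit
 576453605416452676))) (.ch (nat_lit 5) (.ev (nat_lit 1888) (nat_lit 262144) (.ev (nat_lit 1901) (nat_lit
 17592186044416) .dd))))))) (.ch (nat_lit 5) (.ev (nat_lit 1744) (nat_lit 17592186306560) (.fin (nat_lit
 576385435559215663))))))))))) (.ch (nat_lit 2) (.ev (nat_lit 592) (nat_lit 17592188949024) (.nd (nat_lit 1376)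
 (.br (nat_lit 5) (.ch (nat_lit 1) (.ev (nat_lit 1392) (nat_lit 268468224) (.nd (nat_lit 1872) (.br (nat_lit 6)
 (.ch (nat_lit 5) (.ev (nat_lit 1888) (nat_lit 70369281048576) .dd)) (.ch (nat_lit 6) (.fin (nat_lit
 576434913799520848))))))) (.ch (nat_lit 5) (.ev (nat_lit 1392) (nat_lit 70368744177664) (.nd (nat_lit 1792)
 (.br (nat_lit 3) (.ch (nat_lit 1) (.ev (nat_lit 1808) (nat_lit 536870912) (.fin (nat_lit
 576418420929020568)))) (.ch (nat_lit 3) (.ev (nat_lit 1808) (nat_lit 32768) (.ev (nat_lit 1840) (nat_lit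
 805306368) .dd)))))))))))) (.br (nat_lit 6) (.ch (nat_lit 3) (.ev (nat_lit 592) (nat_lit 70369283985440) (.ev
 (nat_lit 1008) (nat_lit 268435456) (.ev (nat_lit 1302) (nat_lit 512) (.ev (nat_lit 1309) (nat_lit
 17592186044416) .dd))))) (.ch (nat_lit 6) (.ev (nat_lit 592) (nat_lit 87961735823360) (.ev (nat_lit 656)
 (nat_lit 524288) (.nd (nat_lit 1376) (.br (nat_lit 6) (.ch (nat_lit 3) (.ev (nat_lit 1408) (nat_lit 32) (.nd
 (nat_lit 1872) (.ch (nat_lit 2) (.nd (nat_lit 2017) (.br (nat_lit 14) (.ch (nat_lit 8) (.ev (nat_lit 2033)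
 (nat_lit 20992) (.ev (nat_lit 2045) (nat_lit 2097152) .dd))) (.br (nat_lit 19) (.ch (nat_lit 14) (.ev (nat_lit
 2033) (nat_lit 4608) (.nd (nat_lit 2144) (.br (nat_lit 5) (.ch (nat_lit 1) (.fin (nat_lit
 576448107907596820))) (.ch (nat_lit 5) (.ev (nat_lit 2160) (nat_lit 2113536) .dd)))))) (.ch (nat_lit 19) (.ev
 (nat_lit 2033) (nat_lit 2113536) (.nd (nat_lit 2080) (.br (nat_lit 5) (.ch (nat_lit 1) (.ev (nat_lit 2096)
 (nat_lit 4608) .dd)) (.ch (nat_lit 5) (.fin (nat_lit 576458003536364112)))))))))))))) (.ch (nat_lit 6) (.ev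
 (nat_lit 1392) (nat_lit 2101760) (.fin (nat_lit 576484391595229813))))))))))))))) (.br (nat_lit 28) (.ch
 (nat_lit 27) (.ev (nat_lit 52) (nat_lit 4680038268962) (.ev (nat_lit 84) (nat_lit 2097152) (.ev (nat_lit 116)
 (nat_lit 268435456) (.ev (nat_lit 340) (nat_lit 70368744177664) (.ev (nat_lit 404) (nat_lit 8589934592) (.nd
 (nat_lit 576) (.br (nat_lit 3) (.br (nat_lit 2) (.ch (nat_lit 0) (.ev (nat_lit 592) (nat_lit 34360787456) (.ev
 (nat_lit 704) (nat_lit 67108864) (.ev (nat_lit 1088) (nat_lit 524288) (.ev (nat_lit 1220) (nat_lit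
 17592186044416) (.ev (nat_lit 1604) (nat_lit 4096) (.ev (nat_lit 1613) (nat_lit 2048) .dd))))))) (.ch (nat_lit
 2) (.ev (nat_lit 592) (nat_lit 17626614471168) .dd))) (.br (nat_lit 6) (.ch (nat_lit 3) (.ev (nat_lit 592)
 (nat_lit 34428422656) (.ev (nat_lit 1126) (nat_lit 4096) (.ev (nat_lit 1133) (nat_lit 17592186044416) .dd))))
 (.ch (nat_lit 6) (.ev (nat_lit 592) (nat_lit 17592186568704) (.ev (nat_lit 1188) (nat_lit 2048) (.nd (nat_lit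
 1728) (.br (nat_lit 1) (.ch (nat_lit 0) (.ev (nat_lit 1744) (nat_lit 34359742976) (.nd (nat_lit 1872) (.br
 (nat_lit 3) (.ch (nat_lit 0) (.fin (nat_lit 576456904011104788))) (.ch (nat_lit 3) (.ev (nat_lit 1888)
 (nat_lit 68157440) .dd)))))) (.br (nat_lit 3) (.ch (nat_lit 1) (.ev (nat_lit 1744) (nat_lit 67113472) (.nd
 (nat_lit 1872) (.br (nat_lit 6) (.ch (nat_lit 1) (.ev (nat_lit 1888) (nat_lit 34360786944) .dd)) (.ch (nat_lit
 6) (.fin (nat_lit 576262290456134155))))))) (.ch (nat_lit 3) (.ev (nat_lit 1744) (nat_lit 34427895808) (.nd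
 (nat_lit 1872) (.br (nat_lit 6) (.ch (nat_lit 2) (.nd (nat_lit 1985) (.ch (nat_lit 3) (.nd (nat_lit 2016) (.ch
 (nat_lit 5) (.fin (nat_lit 576458003536364112))))))) (.ch (nat_lit 6) (.ev (nat_lit 1888) (nat_lit 4608)
 .dd))))))))))))))))))))) (.br (nat_lit 29) (.ch (nat_lit 28) (.ev (nat_lit 52) (nat_lit 70684558496288) (.ev
 (nat_lit 116) (nat_lit 4398046511104) (.ev (nat_lit 340) (nat_lit 2048) (.nd (nat_lit 576) (.br (nat_lit 2)
 (.br (nat_lit 1) (.ch (nat_lit 0) (.ev (nat_lit 592) (nat_lit 17601045774338) (.ev (nat_lit 656) (nat_lit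
 2097152) (.nd (nat_lit 1376) (.br (nat_lit 6) (.ch (nat_lit 1) (.ev (nat_lit 1392) (nat_lit 604504064) .dd))
 (.ch (nat_lit 6) (.ev (nat_lit 1540) (nat_lit 67108864) (.ev (nat_lit 1654) (nat_lit 537395200) .dd))))))))
 (.ch (nat_lit 1) (.ev (nat_lit 592) (nat_lit 17592253464578) (.ev (nat_lit 612) (nat_lit 536870912) (.nd
 (nat_lit 1376) (.br (nat_lit 3) (.br (nat_lit 1) (.ch (nat_lit 0) (.ev (nat_lit 1392) (nat_lit 8861515776)
 (.ev (nat_lit 1405) (nat_lit 524288) .dd))) (.ch (nat_lit 1) (.ev (nat_lit 1392) (nat_lit 271056896) (.nd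
 (nat_lit 1872) (.br (nat_lit 2) (.ch (nat_lit 0) (.ev (nat_lit 1888) (nat_lit 8590983168) .dd)) (.ch (nat_lit
 2) (.fin (nat_lit 576431615194382881)))))))) (.br (nat_lit 6) (.ch (nat_lit 3) (.ev (nat_lit 1392) (nat_lit
 8591507456) (.nd (nat_lit 1728) (.br (nat_lit 5) (.ch (nat_lit 2) (.fin (nat_lit 576559158784377460))) (.ch
 (nat_lit 5) (.ev (nat_lit 1744) (nat_lit 2097152) (.ev (nat_lit 1757) (nat_lit 268435456) .dd))))))) (.ch
 (nat_lit 6) (.ev (nat_lit 1392) (nat_lit 272105472) (.ev (nat_lit 1405) (nat_lit 8589934592) .dd))))))))))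
 (.br (nat_lit 3) (.ch (nat_lit 2) (.ev (nat_lit 592) (nat_lit 17601114144768) (.ev (nat_lit 704) (nat_lit 2)
 (.ev (nat_lit 816) (nat_lit 262144) (.nd (nat_lit 1376) (.br (nat_lit 5) (.ch (nat_lit 0) (.ev (nat_lit 1392)
 (nat_lit 49152) (.fin (nat_lit 576464600599839294)))) (.ch (nat_lit 5) (.ev (nat_lit 1392) (nat_lit 1048576)
 (.ev (nat_lit 1488) (nat_lit 32768) (.fin (nat_lit 576468998579241547))))))))))) (.ch (nat_lit 3) (.ev
 (nat_lit 592) (nat_lit 9197895680) (.nd (nat_lit 1376) (.br (nat_lit 6) (.ch (nat_lit 5) (.ev (nat_lit 1392)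
 (nat_lit 17592454479874) .dd)) (.ch (nat_lit 6) (.nd (nat_lit 1792) (.br (nat_lit 2) (.ch (nat_lit 0) (.ev
 (nat_lit 1808) (nat_lit 17592186044418) (.ev (nat_lit 1821) (nat_lit 268435456) .dd))) (.ch (nat_lit 2) (.ev
 (nat_lit 1808) (nat_lit 268435456) (.fin (nat_lit 576438212106863200)))))))))))))))))) (.ch (nat_lit 29) (.ev
 (nat_lit 52) (nat_lit 70416529377792) (.ev (nat_lit 84) (nat_lit 2214592512) (.ev (nat_lit 116) (nat_lit
 274877906944) (.ev (nat_lit 180) (nat_lit 32768) (.ev (nat_lit 244) (nat_lit 32) (.nd (nat_lit 576) (.br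
 (nat_lit 3) (.br (nat_lit 1) (.ch (nat_lit 0) (.ev (nat_lit 592) (nat_lit 21990635212802) (.ev (nat_lit 605)
 (nat_lit 262144) .dd))) (.ch (nat_lit 1) (.ev (nat_lit 592) (nat_lit 4096) (.ev (nat_lit 1350) (nat_lit
 268435456) (.ev (nat_lit 1540) (nat_lit 4398046511104) (.ev (nat_lit 1552) (nat_lit 2) (.nd (nat_lit 1792)
 (.br (nat_lit 3) (.ch (nat_lit 0) (.ev (nat_lit 1808) (nat_lit 17592320524288) .dd)) (.br (nat_lit 5) (.ch
 (nat_lit 3) (.ev (nat_lit 1808) (nat_lit 134217728) (.nd (nat_lit 1872) (.br (nat_lit 5) (.ch (nat_lit 1)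
 (.fin (nat_lit 576453605416452676))) (.ch (nat_lit 5) (.ev (nat_lit 1888) (nat_lit 17592186306560) .dd))))))
 (.ch (nat_lit 5) (.ev (nat_lit 1808) (nat_lit 17592186044416) (.nd (nat_lit 1920) (.br (nat_lit 4) (.ch
 (nat_lit 0) (.ev (nat_lit 1936) (nat_lit 262144) (.ev (nat_lit 1949) (nat_lit 134217728) .dd))) (.ch (nat_lit
 4) (.fin (nat_lit 576464600599839301)))))))))))))))) (.br (nat_lit 6) (.ch (nat_lit 3) (.ev (nat_lit 592)
 (nat_lit 17592588959746) (.ev (nat_lit 886) (nat_lit 4398046515200) .dd))) (.ch (nat_lit 6) (.ev (nat_lit 592)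
 (nat_lit 21990500990978) (.ev (nat_lit 1332) (nat_lit 134217728) (.ev (nat_lit 1668) (nat_lit 262144) (.ev
 (nat_lit 1677) (nat_lit 4096) .dd)))))))))))))))))))))

/-- Subtrie. -/
noncomputable def T3 : Tr := (.ev (nat_lit 20) (nat_lit 75076029401130) (.nd (nat_lit 33) (.br (nat_lit 20)
 (.br (nat_lit 13) (.br (nat_lit 4) (.br (nat_lit 2) (.ch (nat_lit 1) (.ev (nat_lit 52) (nat_lit
 35185381638144) (.ev (nat_lit 116) (nat_lit 4294967296) (.ev (nat_lit 180) (nat_lit 512) (.ev (nat_lit 372)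
 (nat_lit 2181038080) (.nd (nat_lit 576) (.br (nat_lit 3) (.ch (nat_lit 2) (.ev (nat_lit 592) (nat_lit
 17592190242816) (.ev (nat_lit 688) (nat_lit 4) (.ev (nat_lit 1472) (nat_lit 68719476736) (.nd (nat_lit 1728)
 (.br (nat_lit 6) (.ch (nat_lit 0) (.ev (nat_lit 1744) (nat_lit 8590000128) .dd)) (.ch (nat_lit 6) (.fin
 (nat_lit 576425018218988107))))))))) (.br (nat_lit 5) (.ch (nat_lit 3) (.ev (nat_lit 592) (nat_lit
 77309411332) (.ev (nat_lit 804) (nat_lit 4096) (.ev (nat_lit 992) (nat_lit 4194304) (.nd (nat_lit 1728) (.br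
 (nat_lit 5) (.ch (nat_lit 1) (.ev (nat_lit 1744) (nat_lit 17592186109952) .dd)) (.ch (nat_lit 5) (.fin
 (nat_lit 576460202542842430))))))))) (.ch (nat_lit 5) (.ev (nat_lit 592) (nat_lit 17669499719684)
 .dd)))))))))) (.ch (nat_lit 2) (.ev (nat_lit 52) (nat_lit 35187161567236) (.ev (nat_lit 116) (nat_lit 65536)
 (.ev (nat_lit 180) (nat_lit 68719476736) (.ev (nat_lit 372) (nat_lit 268468224) (.nd (nat_lit 576) (.br
 (nat_lit 2) (.ch (nat_lit 0) (.ev (nat_lit 592) (nat_lit 17605207785984) .dd)) (.br (nat_lit 3) (.ch (nat_lit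
 2) (.ev (nat_lit 592) (nat_lit 17592188142080) (.ev (nat_lit 804) (nat_lit 134217728) (.ev (nat_lit 992)
 (nat_lit 524288) (.nd (nat_lit 1728) (.br (nat_lit 3) (.ch (nat_lit 0) (.ev (nat_lit 1744) (nat_lit
 12884901888) .dd)) (.ch (nat_lit 3) (.fin (nat_lit 576460202555425342))))))))) (.ch (nat_lit 3) (.ev (nat_lit
 592) (nat_lit 8724676608) (.ev (nat_lit 688) (nat_lit 2097152) (.ev (nat_lit 1472) (nat_lit 512) (.nd (nat_lit
 1792) (.br (nat_lit 2) (.ch (nat_lit 1) (.ev (nat_lit 1808) (nat_lit 17596481011712) .dd)) (.ch (nat_lit 2)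
 (.fin (nat_lit 576425018135102027)))))))))))))))))) (.br (nat_lit 6) (.ch (nat_lit 4) (.ev (nat_lit 52)
 (nat_lit 17667885170688) (.ev (nat_lit 84) (nat_lit 512) (.ev (nat_lit 244) (nat_lit 134217728) (.ev (nat_lit
 404) (nat_lit 268435456) (.ev (nat_lit 436) (nat_lit 4096) (.ev (nat_lit 544) (nat_lit 4194304) (.nd (nat_lit
 576) (.br (nat_lit 2) (.ch (nat_lit 0) (.ev (nat_lit 592) (nat_lit 8691122180) (.ev (nat_lit 758) (nat_lit
 35184374185984) (.ev (nat_lit 765) (nat_lit 32768) .dd)))) (.br (nat_lit 5) (.ch (nat_lit 2) (.ev (nat_lit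
 592) (nat_lit 35184374218752) (.nd (nat_lit 1376) (.br (nat_lit 3) (.ch (nat_lit 2) (.ev (nat_lit 1392)
 (nat_lit 8690597892) (.ev (nat_lit 1405) (nat_lit 524288) .dd))) (.br (nat_lit 4) (.ch (nat_lit 3) (.ev
 (nat_lit 1392) (nat_lit 524292) (.ev (nat_lit 1782) (nat_lit 33554432) (.nd (nat_lit 1872) (.br (nat_lit 3)
 (.ch (nat_lit 1) (.ev (nat_lit 1888) (nat_lit 8657043456) .dd)) (.ch (nat_lit 3) (.fin (nat_lit
 576448107907596896)))))))) (.ch (nat_lit 4) (.ev (nat_lit 1392) (nat_lit 8657567744) (.fin (nat_lit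
 576559158406890100))))))))) (.ch (nat_lit 5) (.ev (nat_lit 592) (nat_lit 35184405676036) (.ev (nat_lit 676)
 (nat_lit 2097152) (.nd (nat_lit 1728) (.br (nat_lit 5) (.ch (nat_lit 0) (.ev (nat_lit 1744) (nat_lit
 8657567744) .dd)) (.br (nat_lit 6) (.ch (nat_lit 5) (.ev (nat_lit 1744) (nat_lit 524288) (.nd (nat_lit 1920)
 (.br (nat_lit 6) (.ch (nat_lit 3) (.ev (nat_lit 1936) (nat_lit 8657043456) .dd)) (.ch (nat_lit 6) (.fin
 (nat_lit 576550362680869553))))))) (.ch (nat_lit 6) (.ev (nat_lit 1744) (nat_lit 8657043456) (.ev (nat_lit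
 1757) (nat_lit 524288) .dd))))))))))))))))))) (.br (nat_lit 8) (.ch (nat_lit 6) (.ev (nat_lit 52) (nat_lit
 52776558236160) (.ev (nat_lit 84) (nat_lit 8589934592) (.ev (nat_lit 116) (nat_lit 68719476736) (.ev (nat_lit
 256) (nat_lit 7489716228) .dd))))) (.ch (nat_lit 8) (.ev (nat_lit 52) (nat_lit 52779144712704) (.ev (nat_lit
 148) (nat_lit 4194304) (.ev (nat_lit 244) (nat_lit 536870912) (.nd (nat_lit 576) (.br (nat_lit 5) (.br
 (nat_lit 2) (.ch (nat_lit 0) (.ev (nat_lit 592) (nat_lit 73081651204) (.ev (nat_lit 605) (nat_lit 8589934592)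
 .dd))) (.ch (nat_lit 2) (.ev (nat_lit 592) (nat_lit 67108864) (.ev (nat_lit 944) (nat_lit 4) (.ev (nat_lit
 1408) (nat_lit 32768) (.ev (nat_lit 1620) (nat_lit 68719476736) (.nd (nat_lit 1792) (.br (nat_lit 3) (.ch
 (nat_lit 0) (.ev (nat_lit 1808) (nat_lit 12884967424) .dd)) (.br (nat_lit 6) (.ch (nat_lit 3) (.ev (nat_lit
 1808) (nat_lit 65536) (.nd (nat_lit 1952) (.br (nat_lit 3) (.ch (nat_lit 2) (.ev (nat_lit 1968) (nat_lit
 8589934592) (.ev (nat_lit 1981) (nat_lit 4294967296) .dd))) (.ch (nat_lit 3) (.fin (nat_lit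
 576460202555425342))))))) (.ch (nat_lit 6) (.ev (nat_lit 1808) (nat_lit 4294967296) (.nd (nat_lit 1984) (.br
 (nat_lit 6) (.ch (nat_lit 0) (.ev (nat_lit 2000) (nat_lit 8590000128) .dd)) (.ch (nat_lit 6) (.fin (nat_lit
 576425018218988107)))))))))))))))) (.br (nat_lit 6) (.ch (nat_lit 5) (.ev (nat_lit 592) (nat_lit 68719575044)
 (.ev (nat_lit 1028) (nat_lit 8589934592) (.ev (nat_lit 1604) (nat_lit 4294967296) (.ev (nat_lit 1613) (nat_lit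
 67108864) .dd))))) (.ch (nat_lit 6) (.ev (nat_lit 592) (nat_lit 12885000196) (.ev (nat_lit 1172) (nat_lit
 67108864) (.ev (nat_lit 1181) (nat_lit 68719476736) .dd)))))))))))))) (.br (nat_lit 15) (.br (nat_lit 14) (.ch
 (nat_lit 13) (.ev (nat_lit 52) (nat_lit 77817221124) (.ev (nat_lit 148) (nat_lit 524288) (.ev (nat_lit 276)
 (nat_lit 536870912) (.nd (nat_lit 576) (.br (nat_lit 5) (.br (nat_lit 3) (.ch (nat_lit 0) (.ev (nat_lit 592)
 (nat_lit 6444548608) (.ev (nat_lit 1028) (nat_lit 17592186044416) (.ev (nat_lit 1604) (nat_lit 65536) (.ev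
 (nat_lit 1613) (nat_lit 35184372088832) .dd))))) (.ch (nat_lit 3) (.ev (nat_lit 592) (nat_lit 35184372088832)
 (.ev (nat_lit 944) (nat_lit 2097152) (.ev (nat_lit 1408) (nat_lit 2147483648) (.ev (nat_lit 1620) (nat_lit
 512) (.nd (nat_lit 1792) (.br (nat_lit 2) (.ch (nat_lit 1) (.ev (nat_lit 1808) (nat_lit 17596481077248) .dd))
 (.br (nat_lit 5) (.ch (nat_lit 2) (.ev (nat_lit 1808) (nat_lit 65536) (.nd (nat_lit 2016) (.br (nat_lit 2)
 (.ch (nat_lit 1) (.ev (nat_lit 2032) (nat_lit 17596481011712) .dd)) (.ch (nat_lit 2) (.fin (nat_lit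
 576425018135102027))))))) (.ch (nat_lit 5) (.ev (nat_lit 1808) (nat_lit 4294967296) (.nd (nat_lit 1952) (.br
 (nat_lit 6) (.ch (nat_lit 0) (.ev (nat_lit 1968) (nat_lit 17592186044416) (.ev (nat_lit 1981) (nat_lit 65536)
 .dd))) (.ch (nat_lit 6) (.fin (nat_lit 576460202542842430)))))))))))))))) (.br (nat_lit 6) (.ch (nat_lit 5)
 (.ev (nat_lit 592) (nat_lit 35190816702976) (.ev (nat_lit 605) (nat_lit 17592186044416) .dd))) (.ch (nat_lit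
 6) (.ev (nat_lit 592) (nat_lit 17598630658048) (.ev (nat_lit 1172) (nat_lit 35184372088832) (.ev (nat_lit
 1181) (nat_lit 512) .dd))))))))))) (.ch (nat_lit 14) (.ev (nat_lit 52) (nat_lit 13422133760) (.ev (nat_lit 84)
 (nat_lit 68719476736) (.ev (nat_lit 244) (nat_lit 4096) (.ev (nat_lit 404) (nat_lit 33554432) (.ev (nat_lit
 436) (nat_lit 134217728) (.ev (nat_lit 560) (nat_lit 524288) (.nd (nat_lit 576) (.br (nat_lit 3) (.ch (nat_lit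
 0) (.ev (nat_lit 592) (nat_lit 2485125120) (.ev (nat_lit 676) (nat_lit 4) (.nd (nat_lit 1728) (.br (nat_lit 4)
 (.ch (nat_lit 3) (.ev (nat_lit 1744) (nat_lit 52776562327552) .dd)) (.br (nat_lit 5) (.ch (nat_lit 4) (.ev
 (nat_lit 1744) (nat_lit 52776558133248) (.ev (nat_lit 1757) (nat_lit 4194304) .dd))) (.ch (nat_lit 5) (.ev
 (nat_lit 1744) (nat_lit 4194304) (.nd (nat_lit 1920) (.br (nat_lit 6) (.ch (nat_lit 2) (.ev (nat_lit 1936)
 (nat_lit 52776558133248) .dd)) (.ch (nat_lit 6) (.fin (nat_lit 576550362324353713))))))))))))) (.br (nat_lit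
 5) (.ch (nat_lit 3) (.ev (nat_lit 592) (nat_lit 2214592516) (.ev (nat_lit 1668) (nat_lit 4194304) (.nd
 (nat_lit 1920) (.br (nat_lit 5) (.ch (nat_lit 4) (.ev (nat_lit 1936) (nat_lit 52776558133248) (.fin (nat_lit
 576559158784377460)))) (.br (nat_lit 6) (.ch (nat_lit 5) (.ev (nat_lit 1936) (nat_lit 270532608) (.nd (nat_lit
 1984) (.br (nat_lit 6) (.ch (nat_lit 1) (.ev (nat_lit 2000) (nat_lit 52776558133248) .dd)) (.ch (nat_lit 6)
 (.fin (nat_lit 576474496186663456))))))) (.ch (nat_lit 6) (.ev (nat_lit 1936) (nat_lit 52776828665856)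
 .dd)))))))) (.ch (nat_lit 5) (.ev (nat_lit 592) (nat_lit 52776832860160) (.ev (nat_lit 1238) (nat_lit
 67108868) (.ev (nat_lit 1245) (nat_lit 2147483648) .dd))))))))))))))) (.br (nat_lit 18) (.ch (nat_lit 15) (.ev
 (nat_lit 52) (nat_lit 35253668614148) (.ev (nat_lit 116) (nat_lit 17592186044416) (.ev (nat_lit 244) (nat_lit
 32768) (.ev (nat_lit 308) (nat_lit 134217728) (.ev (nat_lit 340) (nat_lit 2147483648) (.nd (nat_lit 576) (.br
 (nat_lit 3) (.br (nat_lit 2) (.ch (nat_lit 0) (.ev (nat_lit 592) (nat_lit 4631035904) (.ev (nat_lit 832)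
 (nat_lit 512) (.ev (nat_lit 845) (nat_lit 8589934592) .dd)))) (.ch (nat_lit 2) (.ev (nat_lit 592) (nat_lit
 13220971008) .dd))) (.br (nat_lit 5) (.ch (nat_lit 3) (.ev (nat_lit 592) (nat_lit 8657567744) (.nd (nat_lit
 1728) (.br (nat_lit 4) (.ch (nat_lit 1) (.ev (nat_lit 1744) (nat_lit 4563403264) .dd)) (.br (nat_lit 5) (.ch
 (nat_lit 4) (.ev (nat_lit 1744) (nat_lit 512) (.ev (nat_lit 1824) (nat_lit 268435456) (.ev (nat_lit 1837)
 (nat_lit 4294967296) .dd)))) (.ch (nat_lit 5) (.ev (nat_lit 1744) (nat_lit 4294967296) (.nd (nat_lit 1920)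
 (.br (nat_lit 6) (.ch (nat_lit 0) (.ev (nat_lit 1936) (nat_lit 268435968) .dd)) (.ch (nat_lit 6) (.fin
 (nat_lit 576440411151090328)))))))))))) (.ch (nat_lit 5) (.ev (nat_lit 592) (nat_lit 268435968) (.nd (nat_lit
 1728) (.br (nat_lit 5) (.ch (nat_lit 1) (.ev (nat_lit 1744) (nat_lit 8657043456) (.nd (nat_lit 1984) (.br
 (nat_lit 3) (.ch (nat_lit 0) (.ev (nat_lit 2000) (nat_lit 524288) (.ev (nat_lit 2013) (nat_lit 4294967296)
 .dd))) (.ch (nat_lit 3) (.nd (nat_lit 2113) (.br (nat_lit 9) (.br (nat_lit 8) (.ch (nat_lit 7) (.nd (nat_lit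
 2176) (.ch (nat_lit 3) (.fin (nat_lit 576500884465730128))))) (.ch (nat_lit 8) (.ev (nat_lit 2129) (nat_lit
 4294967296) (.ev (nat_lit 2141) (nat_lit 524288) .dd)))) (.br (nat_lit 13) (.ch (nat_lit 9) (.ev (nat_lit
 2129) (nat_lit 4295491584) .dd)) (.br (nat_lit 28) (.ch (nat_lit 13) (.ev (nat_lit 2129) (nat_lit 4295491584)
 .dd)) (.ch (nat_lit 28) (.ev (nat_lit 2129) (nat_lit 4294967296) (.ev (nat_lit 2141) (nat_lit 524288)
 .dd)))))))))))) (.br (nat_lit 6) (.ch (nat_lit 5) (.ev (nat_lit 1744) (nat_lit 4295491584) (.nd (nat_lit 1920)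
 (.br (nat_lit 6) (.ch (nat_lit 3) (.ev (nat_lit 1936) (nat_lit 8657043456) .dd)) (.ch (nat_lit 6) (.fin
 (nat_lit 576372241440653775))))))) (.ch (nat_lit 6) (.ev (nat_lit 1744) (nat_lit 12952535040)
 .dd)))))))))))))))) (.br (nat_lit 19) (.ch (nat_lit 18) (.ev (nat_lit 52) (nat_lit 68855894528) (.ev (nat_lit
 84) (nat_lit 35184372088832) (.ev (nat_lit 116) (nat_lit 4194304) (.ev (nat_lit 180) (nat_lit 17592186044416)
 (.ev (nat_lit 212) (nat_lit 536870912) (.ev (nat_lit 276) (nat_lit 268435456) (.ev (nat_lit 308) (nat_lit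
 2147483648) (.ev (nat_lit 372) (nat_lit 262144) (.nd (nat_lit 576) (.br (nat_lit 5) (.br (nat_lit 3) (.ch
 (nat_lit 2) (.ev (nat_lit 592) (nat_lit 4295491584) (.nd (nat_lit 1728) (.br (nat_lit 4) (.ch (nat_lit 3) (.ev
 (nat_lit 1744) (nat_lit 33554436) (.nd (nat_lit 1920) (.br (nat_lit 4) (.ch (nat_lit 3) (.nd (nat_lit 1985)
 (.ch (nat_lit 12) (.nd (nat_lit 2048) (.ch (nat_lit 6) (.fin (nat_lit 576474496213926432))))))) (.ch (nat_lit
 4) (.ev (nat_lit 1936) (nat_lit 8589934592) (.ev (nat_lit 1949) (nat_lit 67108864) .dd))))))) (.br (nat_lit 6)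
 (.ch (nat_lit 4) (.ev (nat_lit 1744) (nat_lit 8657043456) (.nd (nat_lit 1872) (.br (nat_lit 3) (.ch (nat_lit
 2) (.fin (nat_lit 576363445714633228))) (.ch (nat_lit 3) (.ev (nat_lit 1888) (nat_lit 33554436) .dd)))))) (.ch
 (nat_lit 6) (.ev (nat_lit 1744) (nat_lit 8690597892) .dd))))))) (.ch (nat_lit 3) (.ev (nat_lit 592) (nat_lit
 12986089476) .dd))) (.br (nat_lit 6) (.ch (nat_lit 5) (.ev (nat_lit 592) (nat_lit 8623489028) (.nd (nat_lit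
 1792) (.br (nat_lit 5) (.ch (nat_lit 0) (.ev (nat_lit 1808) (nat_lit 67108864) (.nd (nat_lit 2016) (.br
 (nat_lit 6) (.ch (nat_lit 1) (.ev (nat_lit 2032) (nat_lit 4295491584) .dd)) (.ch (nat_lit 6) (.fin (nat_lit
 576504183192502975))))))) (.br (nat_lit 6) (.ch (nat_lit 5) (.ev (nat_lit 1808) (nat_lit 524288) (.ev (nat_lit
 1824) (nat_lit 4294967296) (.ev (nat_lit 1837) (nat_lit 67108864) .dd)))) (.ch (nat_lit 6) (.ev (nat_lit 1808)
 (nat_lit 4362600448) .dd))))))) (.ch (nat_lit 6) (.ev (nat_lit 592) (nat_lit 12952010756) (.ev (nat_lit 704)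
 (nat_lit 524288) (.ev (nat_lit 717) (nat_lit 33554432) .dd)))))))))))))))) (.ch (nat_lit 19) (.ev (nat_lit 52)
 (nat_lit 17603496087556) (.ev (nat_lit 276) (nat_lit 262144) (.ev (nat_lit 512) (nat_lit 35253091565568) (.nd
 (nat_lit 576) (.br (nat_lit 3) (.ch (nat_lit 0) (.ev (nat_lit 592) (nat_lit 4501012480) (.ev (nat_lit 724)
 (nat_lit 268435456) (.ev (nat_lit 733) (nat_lit 512) .dd)))) (.br (nat_lit 5) (.ch (nat_lit 3) (.ev (nat_lit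
 592) (nat_lit 4496818176) (.ev (nat_lit 1520) (nat_lit 4194304) (.nd (nat_lit 1728) (.ch (nat_lit 5) (.nd
 (nat_lit 1952) (.br (nat_lit 5) (.ch (nat_lit 1) (.ev (nat_lit 1968) (nat_lit 268435968) .dd)) (.br (nat_lit
 6) (.ch (nat_lit 5) (.ev (nat_lit 1968) (nat_lit 268435456) (.ev (nat_lit 1981) (nat_lit 512) .dd))) (.ch
 (nat_lit 6) (.fin (nat_lit 576482192970433000))))))))))) (.ch (nat_lit 5) (.ev (nat_lit 592) (nat_lit
 272630272) (.ev (nat_lit 640) (nat_lit 67108864) (.ev (nat_lit 1760) (nat_lit 134217728) (.nd (nat_lit 1872)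
 (.br (nat_lit 1) (.ch (nat_lit 0) (.fin (nat_lit 576418420929020353))) (.ch (nat_lit 1) (.nd (nat_lit 2192)
 (.br (nat_lit 5) (.ch (nat_lit 3) (.fin (nat_lit 576500884465730128))) (.ch (nat_lit 5) (.ev (nat_lit 2208)
 (nat_lit 4295491584) .dd)))))))))))))))))))))) (.br (nat_lit 25) (.br (nat_lit 22) (.br (nat_lit 21) (.ch
 (nat_lit 20) (.ev (nat_lit 52) (nat_lit 35259605651968) (.ev (nat_lit 180) (nat_lit 2097152) (.ev (nat_lit
 212) (nat_lit 33554432) (.ev (nat_lit 416) (nat_lit 17601716060164) .dd))))) (.ch (nat_lit 21) (.ev (nat_lit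
 52) (nat_lit 2684719616) (.ev (nat_lit 148) (nat_lit 35184372088832) (.ev (nat_lit 244) (nat_lit 268435456)
 (.ev (nat_lit 384) (nat_lit 17674032119812) .dd)))))) (.br (nat_lit 23) (.ch (nat_lit 22) (.ev (nat_lit 52)
 (nat_lit 35257588744704) (.ev (nat_lit 180) (nat_lit 4) (.ev (nat_lit 212) (nat_lit 268435456) (.ev (nat_lit
 352) (nat_lit 17603500183552) .dd))))) (.br (nat_lit 24) (.ch (nat_lit 23) (.ev (nat_lit 52) (nat_lit
 5304484356) (.ev (nat_lit 116) (nat_lit 8589934592) (.ev (nat_lit 244) (nat_lit 2147483648) (.ev (nat_lit 308)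
 (nat_lit 4096) (.ev (nat_lit 340) (nat_lit 32768) (.nd (nat_lit 576) (.br (nat_lit 3) (.br (nat_lit 2) (.ch
 (nat_lit 0) (.ev (nat_lit 592) (nat_lit 68753031168) (.nd (nat_lit 1376) (.br (nat_lit 4) (.ch (nat_lit 2)
 (.ev (nat_lit 1392) (nat_lit 52776558133248) (.nd (nat_lit 1872) (.br (nat_lit 4) (.ch (nat_lit 1) (.nd
 (nat_lit 2049) (.br (nat_lit 22) (.br (nat_lit 15) (.ch (nat_lit 7) (.ev (nat_lit 2065) (nat_lit 65536) (.ev
 (nat_lit 2077) (nat_lit 4194304) .dd))) (.ch (nat_lit 15) (.nd (nat_lit 2112) (.ch (nat_lit 0) (.fin (nat_lit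
 576500884492993104)))))) (.br (nat_lit 26) (.ch (nat_lit 22) (.ev (nat_lit 2065) (nat_lit 65536) (.ev (nat_lit
 2077) (nat_lit 4194304) .dd))) (.br (nat_lit 29) (.ch (nat_lit 26) (.ev (nat_lit 2065) (nat_lit 4259840) .dd))
 (.ch (nat_lit 29) (.ev (nat_lit 2065) (nat_lit 4259840) .dd))))))) (.ch (nat_lit 4) (.ev (nat_lit 1888)
 (nat_lit 4194304) (.ev (nat_lit 1901) (nat_lit 65536) .dd))))))) (.br (nat_lit 5) (.ch (nat_lit 4) (.ev
 (nat_lit 1392) (nat_lit 52776562393088) .dd)) (.ch (nat_lit 5) (.ev (nat_lit 1392) (nat_lit 4259840) (.nd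
 (nat_lit 1872) (.br (nat_lit 6) (.ch (nat_lit 2) (.ev (nat_lit 1888) (nat_lit 52776558133248) .dd)) (.ch
 (nat_lit 6) (.fin (nat_lit 576372241797169615)))))))))))) (.ch (nat_lit 2) (.ev (nat_lit 592) (nat_lit
 52776562327552) (.nd (nat_lit 1728) (.br (nat_lit 3) (.ch (nat_lit 0) (.ev (nat_lit 1744) (nat_lit
 68753096704) .dd)) (.br (nat_lit 4) (.ch (nat_lit 3) (.ev (nat_lit 1744) (nat_lit 65536) (.nd (nat_lit 1872)
 (.br (nat_lit 3) (.ch (nat_lit 2) (.ev (nat_lit 1888) (nat_lit 68753031168) .dd)) (.ch (nat_lit 3) (.fin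
 (nat_lit 576440411528577688))))))) (.ch (nat_lit 4) (.ev (nat_lit 1744) (nat_lit 68719476736) (.ev (nat_lit
 1824) (nat_lit 33554432) (.ev (nat_lit 1837) (nat_lit 65536) .dd)))))))))) (.br (nat_lit 5) (.ch (nat_lit 3)
 (.ev (nat_lit 592) (nat_lit 52845315424256) .dd)) (.ch (nat_lit 5) (.ev (nat_lit 592) (nat_lit 35184409903104)
 (.ev (nat_lit 832) (nat_lit 68719476736) (.ev (nat_lit 845) (nat_lit 17592186044416) .dd))))))))))))) (.ch
 (nat_lit 24) (.ev (nat_lit 52) (nat_lit 17608160083972) (.ev (nat_lit 244) (nat_lit 262144) (.ev (nat_lit 480)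
 (nat_lit 67109376) (.nd (nat_lit 576) (.br (nat_lit 2) (.ch (nat_lit 0) (.ev (nat_lit 592) (nat_lit
 68753555456) (.ev (nat_lit 640) (nat_lit 35184372088832) (.nd (nat_lit 1376) (.br (nat_lit 3) (.ch (nat_lit 2)
 (.ev (nat_lit 1392) (nat_lit 4096) (.nd (nat_lit 1792) (.br (nat_lit 6) (.ch (nat_lit 1) (.fin (nat_lit
 576421719628530224))) (.ch (nat_lit 6) (.ev (nat_lit 1808) (nat_lit 4259840) .dd)))))) (.ch (nat_lit 3) (.ev
 (nat_lit 1760) (nat_lit 4096) (.fin (nat_lit 576418421285536193))))))))) (.br (nat_lit 5) (.ch (nat_lit 2)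
 (.ev (nat_lit 592) (nat_lit 35184376352768) (.nd (nat_lit 1376) (.br (nat_lit 3) (.ch (nat_lit 2) (.ev
 (nat_lit 1392) (nat_lit 68753031168) (.ev (nat_lit 1405) (nat_lit 524288) .dd))) (.ch (nat_lit 3) (.ev
 (nat_lit 1392) (nat_lit 524288) (.nd (nat_lit 1952) (.br (nat_lit 3) (.ch (nat_lit 1) (.ev (nat_lit 1968)
 (nat_lit 68753031168) .dd)) (.br (nat_lit 4) (.ch (nat_lit 3) (.fin (nat_lit 576482192592945640))) (.ch
 (nat_lit 4) (.ev (nat_lit 1968) (nat_lit 33554432) (.ev (nat_lit 1981) (nat_lit 68719476736) .dd))))))))))))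
 (.ch (nat_lit 5) (.ev (nat_lit 592) (nat_lit 35184376877056) (.ev (nat_lit 724) (nat_lit 33554432) (.ev
 (nat_lit 733) (nat_lit 68719476736) .dd)))))))))))))) (.br (nat_lit 27) (.br (nat_lit 26) (.ch (nat_lit 25)
 (.ev (nat_lit 52) (nat_lit 17661782720516) (.ev (nat_lit 192) (nat_lit 35199574643200) .dd))) (.ch (nat_lit
 26) (.ev (nat_lit 52) (nat_lit 83953188864) (.ev (nat_lit 84) (nat_lit 17592186044416) (.ev (nat_lit 116)
 (nat_lit 512) (.ev (nat_lit 224) (nat_lit 35185218129924) .dd)))))) (.br (nat_lit 28) (.ch (nat_lit 27) (.ev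
 (nat_lit 52) (nat_lit 75833311232) (.ev (nat_lit 148) (nat_lit 67108864) (.ev (nat_lit 244) (nat_lit 33554432)
 (.ev (nat_lit 320) (nat_lit 52785423389188) .dd))))) (.br (nat_lit 29) (.ch (nat_lit 28) (.ev (nat_lit 52)
 (nat_lit 75296150020) (.ev (nat_lit 84) (nat_lit 67108864) (.ev (nat_lit 116) (nat_lit 524288) (.ev (nat_lit
 180) (nat_lit 8589934592) (.ev (nat_lit 276) (nat_lit 33554432) (.ev (nat_lit 308) (nat_lit 536903680) (.ev
 (nat_lit 436) (nat_lit 262144) (.nd (nat_lit 576) (.br (nat_lit 3) (.br (nat_lit 2) (.ch (nat_lit 0) (.ev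
 (nat_lit 592) (nat_lit 17592456577024) (.nd (nat_lit 1728) (.br (nat_lit 4) (.ch (nat_lit 3) (.ev (nat_lit
 1744) (nat_lit 35184372088832) (.nd (nat_lit 1920) (.br (nat_lit 6) (.ch (nat_lit 1) (.fin (nat_lit
 576504182835987135))) (.ch (nat_lit 6) (.ev (nat_lit 1936) (nat_lit 4259840) .dd)))))) (.br (nat_lit 5) (.ch
 (nat_lit 4) (.ev (nat_lit 1744) (nat_lit 35184376348672) .dd)) (.ch (nat_lit 5) (.ev (nat_lit 1744) (nat_lit
 4194304) (.ev (nat_lit 1824) (nat_lit 65536) (.ev (nat_lit 1837) (nat_lit 35184372088832) .dd))))))))) (.ch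
 (nat_lit 2) (.ev (nat_lit 592) (nat_lit 52776832925696) .dd))) (.br (nat_lit 6) (.ch (nat_lit 3) (.ev (nat_lit
 592) (nat_lit 4259840) (.nd (nat_lit 1728) (.br (nat_lit 4) (.ch (nat_lit 2) (.ev (nat_lit 1744) (nat_lit
 52776828665856) .dd)) (.br (nat_lit 5) (.ch (nat_lit 4) (.ev (nat_lit 1744) (nat_lit 52776558133248) (.nd
 (nat_lit 2016) (.br (nat_lit 2) (.ch (nat_lit 1) (.ev (nat_lit 2032) (nat_lit 270532608) .dd)) (.ch (nat_lit
 2) (.fin (nat_lit 576363445337145868))))))) (.ch (nat_lit 5) (.ev (nat_lit 1744) (nat_lit 270532608) (.nd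
 (nat_lit 1920) (.br (nat_lit 6) (.ch (nat_lit 5) (.ev (nat_lit 1936) (nat_lit 17592186044416) (.ev (nat_lit
 1949) (nat_lit 35184372088832) .dd))) (.ch (nat_lit 6) (.nd (nat_lit 1985) (.ch (nat_lit 21) (.nd (nat_lit
 2048) (.ch (nat_lit 3) (.fin (nat_lit 576474496186663456)))))))))))))))) (.ch (nat_lit 6) (.ev (nat_lit 592)
 (nat_lit 52776560295936) (.ev (nat_lit 704) (nat_lit 4194304) (.ev (nat_lit 717) (nat_lit 268435456)
 .dd))))))))))))))) (.ch (nat_lit 29) (.ev (nat_lit 52) (nat_lit 35197834232320) (.ev (nat_lit 212) (nat_lit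
 2281701376) (.ev (nat_lit 288) (nat_lit 17661241430020) .dd)))))))))))

/-- The trie. -/
noncomputable def T : Tr := .nd (nat_lit 1000000) (.br (nat_lit 1) (.ch (nat_lit 0) (.ev (nat_lit 0) (nat_lit 140737488355327) .dd)) (.br (nat_lit 3) (.ch (nat_lit 1) T1) (.ch (nat_lit 3) T3)))

/-- The possible values. -/
noncomputable def oks : List ℕ := [79, 835, 3586, 7435, 84715]

/-- The parameters. -/
noncomputable def S : Pr := ⟨fun i l e => lget mz (lget [] (lget [] tabs i) l) e, oks, [(nat_lit 0), (nat_lit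
 1), (nat_lit 0), (nat_lit 0), (nat_lit 0), (nat_lit 1), (nat_lit 0)], T, (nat_lit 140737488355327), (nat_lit
 12800101590481), (nat_lit 47), [(nat_lit 1), (nat_lit 1073946281)], [(nat_lit 40353607), (nat_lit 923521)]⟩

/-- Nothing known. -/
noncomputable def cs0 : Cs := (.cons (nat_lit 7) (nat_lit 0) (nat_lit 1) (.cons (nat_lit 31) (nat_lit 0) (nat_lit 1) .nil))

theorem part_1 : part S cs0 (nat_lit 1) = true := by decide +kernel

theorem part_3 : part S cs0 (nat_lit 3) = true := by decide +kernel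

/-- Data of a prime. -/
noncomputable def D0 : PD := ⟨(nat_lit 7), (nat_lit 9), (1562932, 1, 2), (36264346, 14618947, 12267798), (17529001, 32002150, 38949929)⟩

theorem D0_ok : D0.Ok := pdb_sound (s := 1) (C := ⟨⟨7, -2, -11, 7, 2, 4, 0, 3, -1⟩, (5, 2, 3)⟩) (by show Nat.Prime 7; norm_num) (by decide +kernel)

/-- Lines of the first type. -/
noncomputable def Cl0 : List C1 := [⟨⟨7, 2, -11, 7, -2, 4, 0, -3, -1⟩, (6, 1, 5)⟩,
  ⟨⟨0, 0, 0, 0, 0, 0, 0, 0, 0⟩, (0, 0, 0)⟩,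
  ⟨⟨0, 0, 0, 0, 0, 0, 0, 0, 0⟩, (0, 0, 0)⟩,
  ⟨⟨0, 0, 0, 0, 0, 0, 0, 0, 0⟩, (0, 0, 0)⟩,
  ⟨⟨0, 0, 0, 0, 0, 0, 0, 0, 0⟩, (0, 0, 0)⟩,
  ⟨⟨0, 0, 0, 0, 0, 0, 0, 0, 0⟩, (0, 0, 0)⟩,
  ⟨⟨0, 0, 0, 0, 0, 0, 0, 0, 0⟩, (0, 0, 0)⟩]

/-- Data of a prime. -/
noncomputable def D1 : PD := ⟨(nat_lit 31), (nat_lit 4), (701965, 8, 13), (856532, 861885, 201127), (191905, 134505, 170383)⟩

theorem D1_ok : D1.Ok := pdb_sound (s := 3) (C := ⟨⟨11, 26, -43, -19, 34, 32, -12, -3, -1⟩, (11, 12, 19)⟩) (by show Nat.Prime 31; norm_num) (by decide +kernel)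

/-- Lines of the first type. -/
noncomputable def Cl1 : List C1 := [⟨⟨-11, -26, -32, 19, -34, 13, 12, 3, -13⟩, (22, 24, 7)⟩,
  ⟨⟨0, 0, 0, 0, 0, 0, 0, 0, 0⟩, (0, 0, 0)⟩,
  ⟨⟨0, 0, 0, 0, 0, 0, 0, 0, 0⟩, (0, 0, 0)⟩,
  ⟨⟨29, 26, -37, 21, 6, 32, 8, -11, -7⟩, (2, 10, 23)⟩,
  ⟨⟨0, 0, 0, 0, 0, 0, 0, 0, 0⟩, (0, 0, 0)⟩,
  ⟨⟨21, 6, -53, 29, 26, 8, 8, -11, -1⟩, (6, 26, 20)⟩,
  ⟨⟨0, 0, 0, 0, 0, 0, 0, 0, 0⟩, (0, 0, 0)⟩,
  ⟨⟨29, -26, -37, 21, -6, 32, 8, 11, -7⟩, (27, 11, 16)⟩,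
  ⟨⟨0, 0, 0, 0, 0, 0, 0, 0, 0⟩, (0, 0, 0)⟩,
  ⟨⟨-9, -6, -43, -41, 14, 28, 4, 13, -5⟩, (4, 1, 12)⟩,
  ⟨⟨9, -6, -52, -41, -14, 13, -4, 13, -1⟩, (29, 16, 25)⟩,
  ⟨⟨21, -6, -53, 29, -26, 8, 8, 11, -1⟩, (7, 20, 13)⟩,
  ⟨⟨9, 6, -52, -41, 14, 13, -4, -13, -1⟩, (28, 24, 22)⟩,
  ⟨⟨0, 0, 0, 0, 0, 0, 0, 0, 0⟩, (0, 0, 0)⟩,
  ⟨⟨0, 0, 0, 0, 0, 0, 0, 0, 0⟩, (0, 0, 0)⟩,
  ⟨⟨0, 0, 0, 0, 0, 0, 0, 0, 0⟩, (0, 0, 0)⟩,
  ⟨⟨11, -26, -43, -19, -34, 32, -12, 3, -1⟩, (25, 16, 15)⟩,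
  ⟨⟨-9, 6, -43, -41, -14, 28, 4, -13, -5⟩, (3, 24, 9)⟩,
  ⟨⟨0, 0, 0, 0, 0, 0, 0, 0, 0⟩, (0, 0, 0)⟩,
  ⟨⟨0, 0, 0, 0, 0, 0, 0, 0, 0⟩, (0, 0, 0)⟩,
  ⟨⟨0, 0, 0, 0, 0, 0, 0, 0, 0⟩, (0, 0, 0)⟩,
  ⟨⟨0, 0, 0, 0, 0, 0, 0, 0, 0⟩, (0, 0, 0)⟩,
  ⟨⟨0, 0, 0, 0, 0, 0, 0, 0, 0⟩, (0, 0, 0)⟩,
  ⟨⟨0, 0, 0, 0, 0, 0, 0, 0, 0⟩, (0, 0, 0)⟩,
  ⟨⟨0, 0, 0, 0, 0, 0, 0, 0, 0⟩, (0, 0, 0)⟩,
  ⟨⟨0, 0, 0, 0, 0, 0, 0, 0, 0⟩, (0, 0, 0)⟩,
  ⟨⟨0, 0, 0, 0, 0, 0, 0, 0, 0⟩, (0, 0, 0)⟩,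
  ⟨⟨0, 0, 0, 0, 0, 0, 0, 0, 0⟩, (0, 0, 0)⟩,
  ⟨⟨0, 0, 0, 0, 0, 0, 0, 0, 0⟩, (0, 0, 0)⟩,
  ⟨⟨0, 0, 0, 0, 0, 0, 0, 0, 0⟩, (0, 0, 0)⟩,
  ⟨⟨-11, 26, -32, 19, 34, 13, 12, -3, -13⟩, (28, 8, 23)⟩]

/-- Data of a prime. -/
noncomputable def Dm : PD := ⟨(nat_lit 47), (nat_lit 2), (1034, 1, 9), (105, 517, 2039), (987, 5, 190)⟩

theorem Dm_ok : Dm.Ok := pdb_sound (s := 1) (C := ⟨⟨47, 2, -76, 47, -2, 29, 0, -21, -1⟩, (2, 45, 26)⟩) (by show Nat.Prime 47; norm_num) (by decide +kernel)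

/-- Lines of the first type. -/
noncomputable def Clm : List C1 := [⟨⟨47, -2, -76, 47, 2, 29, 0, 21, -1⟩, (9, 38, 23)⟩,
  ⟨⟨0, 0, 0, 0, 0, 0, 0, 0, 0⟩, (0, 0, 0)⟩,
  ⟨⟨0, 0, 0, 0, 0, 0, 0, 0, 0⟩, (0, 0, 0)⟩,
  ⟨⟨0, 0, 0, 0, 0, 0, 0, 0, 0⟩, (0, 0, 0)⟩,
  ⟨⟨17, 22, -76, -63, 18, 19, -4, -19, -7⟩, (10, 21, 17)⟩,
  ⟨⟨0, 0, 0, 0, 0, 0, 0, 0, 0⟩, (0, 0, 0)⟩,
  ⟨⟨57, -18, -61, -23, -62, 4, -8, 5, -17⟩, (3, 26, 7)⟩,
  ⟨⟨57, 18, -61, -23, 62, 4, -8, -5, -17⟩, (16, 29, 6)⟩,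
  ⟨⟨53, -22, -64, -13, -62, 29, -12, -3, -13⟩, (46, 10, 2)⟩,
  ⟨⟨0, 0, 0, 0, 0, 0, 0, 0, 0⟩, (0, 0, 0)⟩,
  ⟨⟨43, -38, -59, 3, -42, 56, -16, -11, -1⟩, (35, 9, 46)⟩,
  ⟨⟨0, 0, 0, 0, 0, 0, 0, 0, 0⟩, (0, 0, 0)⟩,
  ⟨⟨0, 0, 0, 0, 0, 0, 0, 0, 0⟩, (0, 0, 0)⟩,
  ⟨⟨-17, -22, -59, -63, 18, 44, 4, 19, -11⟩, (15, 39, 2)⟩,
  ⟨⟨0, 0, 0, 0, 0, 0, 0, 0, 0⟩, (0, 0, 0)⟩,
  ⟨⟨0, 0, 0, 0, 0, 0, 0, 0, 0⟩, (0, 0, 0)⟩,
  ⟨⟨0, 0, 0, 0, 0, 0, 0, 0, 0⟩, (0, 0, 0)⟩,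
  ⟨⟨53, 22, -64, -13, 62, 29, -12, 3, -13⟩, (41, 13, 12)⟩,
  ⟨⟨0, 0, 0, 0, 0, 0, 0, 0, 0⟩, (0, 0, 0)⟩,
  ⟨⟨0, 0, 0, 0, 0, 0, 0, 0, 0⟩, (0, 0, 0)⟩,
  ⟨⟨0, 0, 0, 0, 0, 0, 0, 0, 0⟩, (0, 0, 0)⟩,
  ⟨⟨0, 0, 0, 0, 0, 0, 0, 0, 0⟩, (0, 0, 0)⟩,
  ⟨⟨0, 0, 0, 0, 0, 0, 0, 0, 0⟩, (0, 0, 0)⟩,
  ⟨⟨43, 38, -59, 3, 42, 56, -16, 11, -1⟩, (5, 8, 20)⟩,
  ⟨⟨3, -42, -59, 43, -38, 16, 16, 11, -17⟩, (39, 42, 20)⟩,
  ⟨⟨0, 0, 0, 0, 0, 0, 0, 0, 0⟩, (0, 0, 0)⟩,
  ⟨⟨0, 0, 0, 0, 0, 0, 0, 0, 0⟩, (0, 0, 0)⟩,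
  ⟨⟨0, 0, 0, 0, 0, 0, 0, 0, 0⟩, (0, 0, 0)⟩,
  ⟨⟨0, 0, 0, 0, 0, 0, 0, 0, 0⟩, (0, 0, 0)⟩,
  ⟨⟨0, 0, 0, 0, 0, 0, 0, 0, 0⟩, (0, 0, 0)⟩,
  ⟨⟨-13, -62, -16, 53, -22, 11, 12, 3, -25⟩, (34, 6, 12)⟩,
  ⟨⟨0, 0, 0, 0, 0, 0, 0, 0, 0⟩, (0, 0, 0)⟩,
  ⟨⟨0, 0, 0, 0, 0, 0, 0, 0, 0⟩, (0, 0, 0)⟩,
  ⟨⟨0, 0, 0, 0, 0, 0, 0, 0, 0⟩, (0, 0, 0)⟩,
  ⟨⟨17, -22, -76, -63, -18, 19, -4, 19, -7⟩, (15, 8, 2)⟩,
  ⟨⟨0, 0, 0, 0, 0, 0, 0, 0, 0⟩, (0, 0, 0)⟩,
  ⟨⟨0, 0, 0, 0, 0, 0, 0, 0, 0⟩, (0, 0, 0)⟩,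
  ⟨⟨3, 42, -59, 43, 38, 16, 16, -11, -17⟩, (38, 12, 46)⟩,
  ⟨⟨0, 0, 0, 0, 0, 0, 0, 0, 0⟩, (0, 0, 0)⟩,
  ⟨⟨-13, 62, -16, 53, 22, 11, 12, -3, -25⟩, (37, 1, 2)⟩,
  ⟨⟨23, 62, -19, 57, -18, 4, 8, -5, -25⟩, (29, 31, 6)⟩,
  ⟨⟨23, -62, -19, 57, 18, 4, 8, 5, -25⟩, (26, 44, 7)⟩,
  ⟨⟨0, 0, 0, 0, 0, 0, 0, 0, 0⟩, (0, 0, 0)⟩,
  ⟨⟨-17, 22, -59, -63, -18, 44, 4, -19, -11⟩, (10, 26, 17)⟩,
  ⟨⟨0, 0, 0, 0, 0, 0, 0, 0, 0⟩, (0, 0, 0)⟩,
  ⟨⟨0, 0, 0, 0, 0, 0, 0, 0, 0⟩, (0, 0, 0)⟩,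
  ⟨⟨0, 0, 0, 0, 0, 0, 0, 0, 0⟩, (0, 0, 0)⟩]

/-- Unit moves. -/
noncomputable def U : List Mv := [mz,
  mz,
  ⟨⟨1, 0, 0, 0, -1, 0, 0, 0, 1⟩, .nil, (nat_lit 0), (nat_lit 2), (nat_lit 1), (nat_lit 0), (0, 0, 0), [], 2⟩,
  mz,
  ⟨⟨-1, 0, 1, 0, 1, 0, 0, 0, 1⟩, .nil, (nat_lit 6), (nat_lit 0), (nat_lit 0), (nat_lit 1), (0, 0, 0), [], 1⟩,
  ⟨⟨-1, 0, 1, 0, -1, 0, 0, 0, 1⟩, .nil, (nat_lit 0), (nat_lit 5), (nat_lit 1), (nat_lit 0), (0, 0, 0), [], 2⟩,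
  ⟨⟨-1, 0, 1, 0, 1, 0, 0, 0, 1⟩, .nil, (nat_lit 6), (nat_lit 0), (nat_lit 0), (nat_lit 1), (0, 0, 0), [], 1⟩]

theorem v_ty : tyb Dm S.ty1 Clm = true := by decide +kernel

theorem v_ty0 : tyb D0 (S.tys.getD 0 0) Cl0 = true := by decide +kernel

theorem v_ty1 : tyb D1 (S.tys.getD 1 0) Cl1 = true := by decide +kernel

theorem v_msc : mscb S D0 [D1] Dm (nat_lit 10) = true := by decide +kernel

theorem v_mv0 : mvsn (nat_lit 82323694309955623) S D0 [D1] Dm (nat_lit 10) 0 D0 = true := by decide +kernel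

theorem v_mv1 : mvsn (nat_lit 82323694309955623) S D0 [D1] Dm (nat_lit 10) 1 D1 = true := by decide +kernel

theorem v_mm : mmsn (nat_lit 82323694309955623) S D0 [D1] Dm (nat_lit 10) = true := by decide +kernel

theorem v_un : unb S D0 (nat_lit 10) U = true := by decide +kernel

theorem v_ok : okb S.oks [(0, 0, 0), (4, 27, 3), (0, 0, 0), (17, 84, 3), (41, 288, 3)] = true := by decide +kernel

theorem v_part : ∀ d < D0.p, (nat_lit 10).testBit d = true → part S (zc (D0 :: [D1])) d = true := by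
  intro d hd h
  have h1 : ∀ d < 7, (nat_lit 10).testBit d = true → d = 1 ∨ d = 3 := by decide
  rcases h1 d hd h with rfl | rfl
  · exact part_1
  · exact part_3

theorem main (n : ℕ) (ho : Odd n) (hr : ¬ Rep n) (h0 : Split 7 n) (h1 : Split 31 n) (hm : Split 47 n) :
    n ∈ EE := by
  refine concln (W := nat_lit 82323694309955623) (S := S) (P0 := D0) (Pl := [D1]) (Pm := Dm) (cn := nat_lit 10) ?_ Dm_ok v_ty ?_ ?_ v_msc ?_ v_mm v_un v_part v_ok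
    n ho hr ?_ hm
  · simp only [List.forall_mem_cons]
    exact ⟨D0_ok, D1_ok, fun _ h => absurd h (by simp)⟩
  · exact all2 (φ := fun j P => ∃ L, tyb P (S.tys.getD j 0) L = true) ⟨_, v_ty0⟩ ⟨_, v_ty1⟩
  · exact all2 (φ := fun j P => Nat.ble (S.pks.getD j 0) (Nat.pow P.p P.K) = true) (by decide +kernel) (by decide +kernel)
  · exact all2 (φ := fun i P => mvsn (nat_lit 82323694309955623) S D0 [D1] Dm (nat_lit 10) i P = true) v_mv0 v_mv1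
  · simp only [List.forall_mem_cons]
    exact ⟨h0, h1, fun _ h => absurd h (by simp)⟩

end Pool.Agent.Work.MP_9954fe_nt.P7_31_47

namespace Pool.Agent.Work.MP_9954fe_nt.P11_31_47

/-- Dummy move. -/
noncomputable def mz : Mv := ⟨⟨0, 0, 0, 0, 0, 0, 0, 0, 0⟩, .nil, (nat_lit 0), (nat_lit 0), (nat_lit 0), (nat_lit 0), (0, 0, 0), [], 0⟩

/-- Moves. -/
noncomputable def t0_1 : List Mv := [
  ⟨⟨3, 8, -11, -10, -1, 0, 4, -4, -11⟩, (.cons (nat_lit 84) (nat_lit 45) (nat_lit 119) (nat_lit 1) (.cons (nat_lit 477) (nat_lit 481) (nat_lit 827) (nat_lit 1) .nil)), (nat_lit 1), (nat_lit 30), (nat_lit 15), (nat_lit 1), (4, 5, 9), [68, 743], 4⟩,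
  ⟨⟨3, 8, -11, 10, 1, 0, 4, -4, -11⟩, (.cons (nat_lit 2) (nat_lit 113) (nat_lit 15) (nat_lit 1) (.cons (nat_lit 569) (nat_lit 760) (nat_lit 1) (nat_lit 155) .nil)), (nat_lit 21), (nat_lit 39), (nat_lit 11), (nat_lit 1), (4, 6, 9), [1, 785], 24⟩,
  ⟨⟨1, -12, 0, 10, 1, 0, 4, -4, -11⟩, (.cons (nat_lit 120) (nat_lit 105) (nat_lit 106) (nat_lit 1) (.cons (nat_lit 661) (nat_lit 278) (nat_lit 861) (nat_lit 1) .nil)), (nat_lit 26), (nat_lit 8), (nat_lit 11), (nat_lit 1), (5, 6, 9), [120, 215], 24⟩,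
  ⟨⟨1, -12, 0, -10, -1, 0, 4, -4, -11⟩, (.cons (nat_lit 41) (nat_lit 79) (nat_lit 52) (nat_lit 1) (.cons (nat_lit 960) (nat_lit 310) (nat_lit 425) (nat_lit 1) .nil)), (nat_lit 46), (nat_lit 17), (nat_lit 15), (nat_lit 1), (5, 5, 9), [47, 888], 4⟩,
  ⟨⟨1, -12, 0, -10, -1, 0, 4, -4, -11⟩, (.cons (nat_lit 41) (nat_lit 79) (nat_lit 52) (nat_lit 1) (.cons (nat_lit 960) (nat_lit 310) (nat_lit 425) (nat_lit 1) .nil)), (nat_lit 46), (nat_lit 17), (nat_lit 15), (nat_lit 1), (5, 5, 9), [47, 888], 4⟩,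
  ⟨⟨1, -12, 0, 10, 1, 0, 4, -4, -11⟩, (.cons (nat_lit 120) (nat_lit 105) (nat_lit 106) (nat_lit 1) (.cons (nat_lit 661) (nat_lit 278) (nat_lit 861) (nat_lit 1) .nil)), (nat_lit 26), (nat_lit 8), (nat_lit 11), (nat_lit 1), (5, 6, 9), [120, 215], 24⟩,
  ⟨⟨1, -12, 0, -10, -1, 0, 4, -4, -11⟩, (.cons (nat_lit 41) (nat_lit 79) (nat_lit 52) (nat_lit 1) (.cons (nat_lit 960) (nat_lit 310) (nat_lit 425) (nat_lit 1) .nil)), (nat_lit 46), (nat_lit 17), (nat_lit 15), (nat_lit 1), (5, 5, 9), [47, 888], 4⟩,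
  ⟨⟨3, 8, -11, 10, 1, 0, 4, -4, -11⟩, (.cons (nat_lit 2) (nat_lit 113) (nat_lit 15) (nat_lit 1) (.cons (nat_lit 569) (nat_lit 760) (nat_lit 1) (nat_lit 155) .nil)), (nat_lit 21), (nat_lit 39), (nat_lit 11), (nat_lit 1), (4, 6, 9), [1, 785], 24⟩,
  ⟨⟨1, -12, 0, -10, -1, 0, 4, -4, -11⟩, (.cons (nat_lit 41) (nat_lit 79) (nat_lit 52) (nat_lit 1) (.cons (nat_lit 960) (nat_lit 310) (nat_lit 425) (nat_lit 1) .nil)), (nat_lit 46), (nat_lit 17), (nat_lit 15), (nat_lit 1), (5, 5, 9), [47, 888], 4⟩,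
  ⟨⟨3, 8, -11, -10, -1, 0, 4, -4, -11⟩, (.cons (nat_lit 84) (nat_lit 45) (nat_lit 119) (nat_lit 1) (.cons (nat_lit 477) (nat_lit 481) (nat_lit 827) (nat_lit 1) .nil)), (nat_lit 1), (nat_lit 30), (nat_lit 15), (nat_lit 1), (4, 5, 9), [68, 743], 4⟩,
  ⟨⟨1, -12, 0, -10, -1, 0, 4, -4, -11⟩, (.cons (nat_lit 41) (nat_lit 79) (nat_lit 52) (nat_lit 1) (.cons (nat_lit 960) (nat_lit 310) (nat_lit 425) (nat_lit 1) .nil)), (nat_lit 46), (nat_lit 17), (nat_lit 15), (nat_lit 1), (5, 5, 9), [47, 888], 4⟩]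

/-- Moves. -/
noncomputable def t0_4 : List Mv := [
  ⟨⟨-11, 0, 0, -4, 5, 12, -2, 8, -5⟩, (.cons (nat_lit 83) (nat_lit 12) (nat_lit 84) (nat_lit 1) (.cons (nat_lit 960) (nat_lit 381) (nat_lit 416) (nat_lit 1) .nil)), (nat_lit 46), (nat_lit 30), (nat_lit 43), (nat_lit 1), (0, 5, 8), [43, 748], 40⟩,
  ⟨⟨9, 8, -5, 4, -5, -12, -2, 8, -5⟩, (.cons (nat_lit 86) (nat_lit 61) (nat_lit 61) (nat_lit 1) (.cons (nat_lit 900) (nat_lit 43) (nat_lit 644) (nat_lit 1) .nil)), (nat_lit 15), (nat_lit 8), (nat_lit 36), (nat_lit 1), (8, 6, 8), [116, 315], 5⟩,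
  ⟨⟨9, 8, -5, 4, -5, -12, -2, 8, -5⟩, (.cons (nat_lit 86) (nat_lit 61) (nat_lit 61) (nat_lit 1) (.cons (nat_lit 900) (nat_lit 43) (nat_lit 644) (nat_lit 1) .nil)), (nat_lit 15), (nat_lit 8), (nat_lit 36), (nat_lit 1), (8, 6, 8), [116, 315], 5⟩,
  ⟨⟨9, 8, -5, 4, -5, -12, -2, 8, -5⟩, (.cons (nat_lit 86) (nat_lit 61) (nat_lit 61) (nat_lit 1) (.cons (nat_lit 900) (nat_lit 43) (nat_lit 644) (nat_lit 1) .nil)), (nat_lit 15), (nat_lit 8), (nat_lit 36), (nat_lit 1), (8, 6, 8), [116, 315], 5⟩,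
  ⟨⟨9, 8, -5, -4, 5, 12, -2, 8, -5⟩, (.cons (nat_lit 64) (nat_lit 68) (nat_lit 111) (nat_lit 1) (.cons (nat_lit 675) (nat_lit 878) (nat_lit 274) (nat_lit 1) .nil)), (nat_lit 1), (nat_lit 17), (nat_lit 43), (nat_lit 1), (8, 5, 8), [103, 922], 40⟩,
  ⟨⟨-11, 0, 0, 4, -5, -12, -2, 8, -5⟩, (.cons (nat_lit 3) (nat_lit 69) (nat_lit 109) (nat_lit 1) (.cons (nat_lit 690) (nat_lit 730) (nat_lit 703) (nat_lit 1) .nil)), (nat_lit 32), (nat_lit 39), (nat_lit 36), (nat_lit 1), (0, 6, 8), [16, 274], 5⟩,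
  ⟨⟨9, 8, -5, 4, -5, -12, -2, 8, -5⟩, (.cons (nat_lit 86) (nat_lit 61) (nat_lit 61) (nat_lit 1) (.cons (nat_lit 900) (nat_lit 43) (nat_lit 644) (nat_lit 1) .nil)), (nat_lit 15), (nat_lit 8), (nat_lit 36), (nat_lit 1), (8, 6, 8), [116, 315], 5⟩,
  ⟨⟨9, 8, -5, -4, 5, 12, -2, 8, -5⟩, (.cons (nat_lit 64) (nat_lit 68) (nat_lit 111) (nat_lit 1) (.cons (nat_lit 675) (nat_lit 878) (nat_lit 274) (nat_lit 1) .nil)), (nat_lit 1), (nat_lit 17), (nat_lit 43), (nat_lit 1), (8, 5, 8), [103, 922], 40⟩,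
  ⟨⟨-11, 0, 0, 4, -5, -12, -2, 8, -5⟩, (.cons (nat_lit 3) (nat_lit 69) (nat_lit 109) (nat_lit 1) (.cons (nat_lit 690) (nat_lit 730) (nat_lit 703) (nat_lit 1) .nil)), (nat_lit 32), (nat_lit 39), (nat_lit 36), (nat_lit 1), (0, 6, 8), [16, 274], 5⟩,
  ⟨⟨9, 8, -5, 4, -5, -12, -2, 8, -5⟩, (.cons (nat_lit 86) (nat_lit 61) (nat_lit 61) (nat_lit 1) (.cons (nat_lit 900) (nat_lit 43) (nat_lit 644) (nat_lit 1) .nil)), (nat_lit 15), (nat_lit 8), (nat_lit 36), (nat_lit 1), (8, 6, 8), [116, 315], 5⟩,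
  ⟨⟨9, 8, -5, 4, -5, -12, -2, 8, -5⟩, (.cons (nat_lit 86) (nat_lit 61) (nat_lit 61) (nat_lit 1) (.cons (nat_lit 900) (nat_lit 43) (nat_lit 644) (nat_lit 1) .nil)), (nat_lit 15), (nat_lit 8), (nat_lit 36), (nat_lit 1), (8, 6, 8), [116, 315], 5⟩]

/-- Moves. -/
noncomputable def t1_1 : List Mv := [
  mz,
  ⟨⟨3, 20, 29, 4, -25, 18, 26, 8, -7⟩, (.cons (nat_lit 84) (nat_lit 90) (nat_lit 52) (nat_lit 1) (.cons (nat_lit 213) (nat_lit 582) (nat_lit 69) (nat_lit 1) .nil)), (nat_lit 7), (nat_lit 36), (nat_lit 34), (nat_lit 1), (26, 14, 29), [62, 417], 14⟩,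
  ⟨⟨3, -20, 29, 4, 25, 18, 26, -8, -7⟩, (.cons (nat_lit 79) (nat_lit 117) (nat_lit 70) (nat_lit 1) (.cons (nat_lit 666) (nat_lit 825) (nat_lit 28) (nat_lit 1) .nil)), (nat_lit 2), (nat_lit 32), (nat_lit 34), (nat_lit 1), (19, 15, 20), [3, 331], 14⟩,
  mz,
  ⟨⟨-33, 8, 17, 4, 15, 28, -6, 24, -11⟩, (.cons (nat_lit 58) (nat_lit 9) (nat_lit 1) (nat_lit 0) (.cons (nat_lit 834) (nat_lit 345) (nat_lit 177) (nat_lit 1) .nil)), (nat_lit 1), (nat_lit 37), (nat_lit 39), (nat_lit 1), (23, 16, 7), [84, 312], 42⟩,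
  mz,
  ⟨⟨21, -4, -40, 16, 25, 2, 22, -16, -5⟩, (.cons (nat_lit 60) (nat_lit 23) (nat_lit 72) (nat_lit 1) (.cons
 (nat_lit 528) (nat_lit 151) (nat_lit 120) (nat_lit 1) .nil)), (nat_lit 45), (nat_lit 18), (nat_lit 44),
 (nat_lit 1), (21, 16, 22), [13, 667], 14⟩,
  mz,
  ⟨⟨27, -20, -19, 10, 19, -30, -4, -20, -19⟩, (.cons (nat_lit 61) (nat_lit 15) (nat_lit 75) (nat_lit 1) (.cons
 (nat_lit 67) (nat_lit 474) (nat_lit 645) (nat_lit 1) .nil)), (nat_lit 1), (nat_lit 38), (nat_lit 19), (nat_lit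
 1), (29, 5, 29), [72, 65], 26⟩,
  mz,
  mz,
  mz,
  mz,
  ⟨⟨-31, 0, 0, 10, -19, -30, -4, 20, -19⟩, (.cons (nat_lit 84) (nat_lit 105) (nat_lit 61) (nat_lit 1) (.cons
 (nat_lit 923) (nat_lit 15) (nat_lit 809) (nat_lit 1) .nil)), (nat_lit 38), (nat_lit 42), (nat_lit 46),
 (nat_lit 1), (0, 3, 5), [52, 641], 11⟩,
  ⟨⟨27, -16, -28, -4, 15, -28, -6, -24, -11⟩, (.cons (nat_lit 120) (nat_lit 98) (nat_lit 41) (nat_lit 1) (.cons
 (nat_lit 864) (nat_lit 613) (nat_lit 819) (nat_lit 1) .nil)), (nat_lit 46), (nat_lit 7), (nat_lit 2), (nat_lit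
 1), (28, 28, 11), [80, 502], 42⟩,
  ⟨⟨3, 20, -32, 4, -25, -22, 26, 8, -19⟩, (.cons (nat_lit 17) (nat_lit 71) (nat_lit 69) (nat_lit 1) (.cons (nat_lit 739) (nat_lit 110) (nat_lit 776) (nat_lit 1) .nil)), (nat_lit 45), (nat_lit 32), (nat_lit 13), (nat_lit 1), (10, 3, 4), [92, 53], 33⟩,
  mz,
  mz,
  ⟨⟨1, -12, -36, 16, 25, -18, 22, -16, -17⟩, (.cons (nat_lit 46) (nat_lit 42) (nat_lit 1) (nat_lit 33) (.cons
 (nat_lit 750) (nat_lit 77) (nat_lit 378) (nat_lit 1) .nil)), (nat_lit 20), (nat_lit 15), (nat_lit 25),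
 (nat_lit 1), (21, 26, 28), [18, 474], 40⟩,
  ⟨⟨29, -12, 0, 10, 29, 0, 20, -4, -31⟩, (.cons (nat_lit 22) (nat_lit 42) (nat_lit 52) (nat_lit 1) (.cons
 (nat_lit 539) (nat_lit 141) (nat_lit 791) (nat_lit 1) .nil)), (nat_lit 9), (nat_lit 27), (nat_lit 43),
 (nat_lit 1), (28, 15, 30), [109, 477], 39⟩,
  ⟨⟨9, 8, -40, 10, -29, -10, -20, -4, -11⟩, (.cons (nat_lit 120) (nat_lit 53) (nat_lit 23) (nat_lit 1) (.cons
 (nat_lit 790) (nat_lit 532) (nat_lit 954) (nat_lit 1) .nil)), (nat_lit 46), (nat_lit 35), (nat_lit 31),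
 (nat_lit 1), (27, 30, 2), [53, 670], 33⟩,
  ⟨⟨-27, 16, -1, -4, 15, 32, 6, 24, -17⟩, (.cons (nat_lit 0) (nat_lit 52) (nat_lit 73) (nat_lit 1) (.cons (nat_lit 221) (nat_lit 925) (nat_lit 1) (nat_lit 186) .nil)), (nat_lit 1), (nat_lit 10), (nat_lit 8), (nat_lit 1), (2, 29, 3), [57, 780], 42⟩,
  ⟨⟨-29, 12, 29, -10, -29, 10, -20, 4, -11⟩, (.cons (nat_lit 60) (nat_lit 11) (nat_lit 69) (nat_lit 1) (.cons
 (nat_lit 526) (nat_lit 10) (nat_lit 195) (nat_lit 1) .nil)), (nat_lit 1), (nat_lit 33), (nat_lit 7), (nat_lit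
 1), (4, 11, 22), [10, 463], 33⟩,
  ⟨⟨3, -20, -32, 4, 25, -22, 26, -8, -19⟩, (.cons (nat_lit 75) (nat_lit 94) (nat_lit 94) (nat_lit 1) (.cons
 (nat_lit 77) (nat_lit 742) (nat_lit 648) (nat_lit 1) .nil)), (nat_lit 40), (nat_lit 36), (nat_lit 13),
 (nat_lit 1), (3, 4, 26), [54, 722], 33⟩,
  ⟨⟨29, 12, 0, -10, 29, 0, 20, 4, -31⟩, (.cons (nat_lit 114) (nat_lit 52) (nat_lit 1) (nat_lit 88) (.cons
 (nat_lit 898) (nat_lit 519) (nat_lit 292) (nat_lit 1) .nil)), (nat_lit 21), (nat_lit 44), (nat_lit 37),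
 (nat_lit 1), (26, 6, 19), [17, 734], 44⟩,
  ⟨⟨31, 0, -31, -10, 19, -20, 4, -20, -23⟩, (.cons (nat_lit 2) (nat_lit 91) (nat_lit 92) (nat_lit 1) (.cons
 (nat_lit 243) (nat_lit 585) (nat_lit 724) (nat_lit 1) .nil)), (nat_lit 1), (nat_lit 9), (nat_lit 28), (nat_lit
 1), (0, 22, 16), [46, 457], 26⟩,
  ⟨⟨1, 12, 35, 16, -25, 2, 22, 16, -5⟩, (.cons (nat_lit 85) (nat_lit 94) (nat_lit 57) (nat_lit 1) (.cons (nat_lit 253) (nat_lit 314) (nat_lit 687) (nat_lit 1) .nil)), (nat_lit 27), (nat_lit 15), (nat_lit 22), (nat_lit 1), (30, 15, 9), [8, 760], 7⟩,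
  ⟨⟨33, -8, -16, 4, 15, -32, 6, -24, -17⟩, (.cons (nat_lit 120) (nat_lit 23) (nat_lit 57) (nat_lit 1) (.cons
 (nat_lit 793) (nat_lit 799) (nat_lit 600) (nat_lit 1) .nil)), (nat_lit 46), (nat_lit 40), (nat_lit 45),
 (nat_lit 1), (23, 15, 7), [16, 29], 42⟩,
  ⟨⟨1, 12, -36, 16, -25, -18, 22, 16, -17⟩, (.cons (nat_lit 28) (nat_lit 81) (nat_lit 1) (nat_lit 1) (.cons
 (nat_lit 247) (nat_lit 852) (nat_lit 433) (nat_lit 1) .nil)), (nat_lit 45), (nat_lit 29), (nat_lit 3),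
 (nat_lit 1), (19, 25, 15), [70, 606], 33⟩,
  ⟨⟨31, 0, -31, -10, -19, -20, 4, 20, -23⟩, (.cons (nat_lit 72) (nat_lit 51) (nat_lit 41) (nat_lit 1) (.cons
 (nat_lit 475) (nat_lit 180) (nat_lit 164) (nat_lit 1) .nil)), (nat_lit 9), (nat_lit 42), (nat_lit 1), (nat_lit
 1), (0, 20, 23), [89, 746], 11⟩]

/-- Moves. -/
noncomputable def t1_4 : List Mv := [
  mz,
  ⟨⟨3, 20, 29, -4, 25, -18, 26, 8, -7⟩, (.cons (nat_lit 30) (nat_lit 28) (nat_lit 55) (nat_lit 1) (.cons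
 (nat_lit 719) (nat_lit 143) (nat_lit 125) (nat_lit 1) .nil)), (nat_lit 24), (nat_lit 9), (nat_lit 25),
 (nat_lit 1), (26, 17, 29), [104, 819], 27⟩,
  ⟨⟨3, -20, 29, -4, -25, -18, 26, -8, -7⟩, (.cons (nat_lit 103) (nat_lit 31) (nat_lit 13) (nat_lit 1) (.cons
 (nat_lit 529) (nat_lit 365) (nat_lit 455) (nat_lit 1) .nil)), (nat_lit 27), (nat_lit 16), (nat_lit 3),
 (nat_lit 1), (19, 16, 20), [17, 707], 7⟩,
  mz,
  ⟨⟨-33, 8, 17, -4, -15, -28, -6, 24, -11⟩, (.cons (nat_lit 34) (nat_lit 49) (nat_lit 1) (nat_lit 1) (.cons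
 (nat_lit 698) (nat_lit 820) (nat_lit 957) (nat_lit 1) .nil)), (nat_lit 43), (nat_lit 24), (nat_lit 14),
 (nat_lit 1), (23, 15, 7), [102, 827], 12⟩,
  mz,
  ⟨⟨1, -12, 35, -16, -25, -2, 22, -16, -5⟩, (.cons (nat_lit 47) (nat_lit 116) (nat_lit 115) (nat_lit 1) (.cons
 (nat_lit 790) (nat_lit 903) (nat_lit 23) (nat_lit 1) .nil)), (nat_lit 7), (nat_lit 29), (nat_lit 26), (nat_lit
 1), (1, 15, 22), [43, 202], 14⟩,
  mz,
  ⟨⟨-31, 0, 0, -10, -19, 30, -4, -20, -19⟩, (.cons (nat_lit 85) (nat_lit 29) (nat_lit 18) (nat_lit 1) (.cons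
 (nat_lit 455) (nat_lit 880) (nat_lit 531) (nat_lit 1) .nil)), (nat_lit 26), (nat_lit 36), (nat_lit 26),
 (nat_lit 1), (0, 26, 29), [116, 740], 10⟩,
  mz,
  mz,
  mz,
  mz,
  ⟨⟨-31, 0, 0, 10, -19, -30, -4, 20, -19⟩, (.cons (nat_lit 84) (nat_lit 105) (nat_lit 61) (nat_lit 1) (.cons
 (nat_lit 923) (nat_lit 15) (nat_lit 809) (nat_lit 1) .nil)), (nat_lit 38), (nat_lit 42), (nat_lit 46),
 (nat_lit 1), (0, 3, 5), [52, 641], 11⟩,
  ⟨⟨27, -16, -28, -4, 15, -28, -6, -24, -11⟩, (.cons (nat_lit 120) (nat_lit 98) (nat_lit 41) (nat_lit 1) (.cons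
 (nat_lit 864) (nat_lit 613) (nat_lit 819) (nat_lit 1) .nil)), (nat_lit 46), (nat_lit 7), (nat_lit 2), (nat_lit
 1), (28, 28, 11), [80, 502], 42⟩,
  ⟨⟨23, -12, 13, 4, -25, -22, 26, 8, -19⟩, (.cons (nat_lit 73) (nat_lit 33) (nat_lit 51) (nat_lit 1) (.cons
 (nat_lit 926) (nat_lit 384) (nat_lit 792) (nat_lit 1) .nil)), (nat_lit 2), (nat_lit 15), (nat_lit 13),
 (nat_lit 1), (25, 3, 4), [63, 474], 33⟩,
  mz,
  mz,
  ⟨⟨21, -4, 19, -16, -25, 18, 22, -16, -17⟩, (.cons (nat_lit 63) (nat_lit 99) (nat_lit 54) (nat_lit 1) (.cons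
 (nat_lit 99) (nat_lit 869) (nat_lit 887) (nat_lit 1) .nil)), (nat_lit 24), (nat_lit 16), (nat_lit 17),
 (nat_lit 1), (7, 5, 28), [61, 18], 20⟩,
  ⟨⟨-9, 8, -31, -10, -29, 0, 20, -4, -31⟩, (.cons (nat_lit 97) (nat_lit 30) (nat_lit 55) (nat_lit 1) (.cons
 (nat_lit 501) (nat_lit 320) (nat_lit 659) (nat_lit 1) .nil)), (nat_lit 1), (nat_lit 35), (nat_lit 16),
 (nat_lit 1), (2, 16, 30), [106, 881], 33⟩,
  ⟨⟨9, 8, -40, 10, -29, -10, -20, -4, -11⟩, (.cons (nat_lit 120) (nat_lit 53) (nat_lit 23) (nat_lit 1) (.cons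
 (nat_lit 790) (nat_lit 532) (nat_lit 954) (nat_lit 1) .nil)), (nat_lit 46), (nat_lit 35), (nat_lit 31),
 (nat_lit 1), (27, 30, 2), [53, 670], 33⟩,
  ⟨⟨33, 8, -16, -4, 15, 32, 6, 24, -17⟩, (.cons (nat_lit 120) (nat_lit 18) (nat_lit 112) (nat_lit 1) (.cons
 (nat_lit 103) (nat_lit 526) (nat_lit 464) (nat_lit 1) .nil)), (nat_lit 46), (nat_lit 37), (nat_lit 8),
 (nat_lit 1), (1, 29, 3), [91, 828], 42⟩,
  ⟨⟨9, -8, -40, 10, 29, -10, -20, 4, -11⟩, (.cons (nat_lit 118) (nat_lit 76) (nat_lit 1) (nat_lit 11) (.cons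
 (nat_lit 618) (nat_lit 668) (nat_lit 158) (nat_lit 1) .nil)), (nat_lit 21), (nat_lit 3), (nat_lit 10),
 (nat_lit 1), (18, 20, 22), [112, 177], 44⟩,
  ⟨⟨3, -20, -32, -4, -25, 22, 26, -8, -19⟩, (.cons (nat_lit 119) (nat_lit 46) (nat_lit 23) (nat_lit 1) (.cons
 (nat_lit 692) (nat_lit 924) (nat_lit 260) (nat_lit 1) .nil)), (nat_lit 23), (nat_lit 9), (nat_lit 22),
 (nat_lit 1), (3, 27, 26), [69, 259], 20⟩,
  ⟨⟨-9, -8, -31, 10, -29, 0, 20, 4, -31⟩, (.cons (nat_lit 119) (nat_lit 22) (nat_lit 17) (nat_lit 1) (.cons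
 (nat_lit 274) (nat_lit 374) (nat_lit 314) (nat_lit 1) .nil)), (nat_lit 1), (nat_lit 14), (nat_lit 40),
 (nat_lit 1), (24, 25, 19), [40, 881], 33⟩,
  ⟨⟨31, 0, -31, -10, 19, -20, 4, -20, -23⟩, (.cons (nat_lit 2) (nat_lit 91) (nat_lit 92) (nat_lit 1) (.cons
 (nat_lit 243) (nat_lit 585) (nat_lit 724) (nat_lit 1) .nil)), (nat_lit 1), (nat_lit 9), (nat_lit 28), (nat_lit
 1), (0, 22, 16), [46, 457], 26⟩,
  ⟨⟨1, 12, 35, -16, 25, -2, 22, 16, -5⟩, (.cons (nat_lit 72) (nat_lit 46) (nat_lit 42) (nat_lit 1) (.cons (nat_lit 307) (nat_lit 665) (nat_lit 882) (nat_lit 1) .nil)), (nat_lit 24), (nat_lit 31), (nat_lit 30), (nat_lit 1), (30, 16, 9), [64, 13], 27⟩,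
  ⟨⟨-27, -16, -1, -4, -15, 32, 6, -24, -17⟩, (.cons (nat_lit 89) (nat_lit 116) (nat_lit 32) (nat_lit 1) (.cons
 (nat_lit 468) (nat_lit 82) (nat_lit 551) (nat_lit 1) .nil)), (nat_lit 35), (nat_lit 6), (nat_lit 27), (nat_lit
 1), (15, 16, 7), [25, 508], 36⟩,
  ⟨⟨1, 12, -36, 16, -25, -18, 22, 16, -17⟩, (.cons (nat_lit 28) (nat_lit 81) (nat_lit 1) (nat_lit 1) (.cons
 (nat_lit 247) (nat_lit 852) (nat_lit 433) (nat_lit 1) .nil)), (nat_lit 45), (nat_lit 29), (nat_lit 3),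
 (nat_lit 1), (19, 25, 15), [70, 606], 33⟩,
  ⟨⟨31, 0, -31, -10, -19, -20, 4, 20, -23⟩, (.cons (nat_lit 72) (nat_lit 51) (nat_lit 41) (nat_lit 1) (.cons
 (nat_lit 475) (nat_lit 180) (nat_lit 164) (nat_lit 1) .nil)), (nat_lit 9), (nat_lit 42), (nat_lit 1), (nat_lit
 1), (0, 20, 23), [89, 746], 11⟩]

/-- Moves. -/
noncomputable def t4_1 : List Mv := [
  mz,
  ⟨⟨-25, 12, -36, 22, -35, -36, 20, 28, -37⟩, (.cons (nat_lit 44) (nat_lit 83) (nat_lit 104) (nat_lit 1) (.cons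
 (nat_lit 289) (nat_lit 527) (nat_lit 304) (nat_lit 1) .nil)), (nat_lit 2), (nat_lit 0), (nat_lit 0), (nat_lit
 0), (2, 2, 36), [101, 212], 0⟩,
  ⟨⟨-49, 12, 36, -2, -35, 36, -28, -20, -13⟩, (.cons (nat_lit 57) (nat_lit 109) (nat_lit 1) (nat_lit 88) (.cons
 (nat_lit 276) (nat_lit 620) (nat_lit 664) (nat_lit 1) .nil)), (nat_lit 1), (nat_lit 0), (nat_lit 0), (nat_lit
 0), (17, 17, 3), [118, 668], 0⟩,
  ⟨⟨-51, 4, 19, -2, -45, -14, -12, 12, -37⟩, (.cons (nat_lit 41) (nat_lit 5) (nat_lit 100) (nat_lit 1) (.cons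
 (nat_lit 940) (nat_lit 526) (nat_lit 246) (nat_lit 1) .nil)), (nat_lit 33), (nat_lit 0), (nat_lit 0), (nat_lit
 0), (7, 27, 21), [35, 430], 0⟩,
  mz,
  ⟨⟨25, -12, -61, 22, -35, 14, -20, -28, -17⟩, (.cons (nat_lit 105) (nat_lit 98) (nat_lit 25) (nat_lit 1)
 (.cons (nat_lit 577) (nat_lit 551) (nat_lit 539) (nat_lit 1) .nil)), (nat_lit 21), (nat_lit 0), (nat_lit 0),
 (nat_lit 0), (9, 38, 21), [16, 253], 0⟩,
  mz,
  mz,
  mz,
  ⟨⟨-17, -48, 0, 40, -17, 0, 10, -16, -47⟩, (.cons (nat_lit 2) (nat_lit 2) (nat_lit 14) (nat_lit 1) (.cons (nat_lit 272) (nat_lit 583) (nat_lit 454) (nat_lit 1) .nil)), (nat_lit 36), (nat_lit 0), (nat_lit 0), (nat_lit 0), (6, 8, 2), [12, 579], 0⟩,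
  mz,
  ⟨⟨17, 48, -17, 40, -17, -40, -10, 16, -37⟩, (.cons (nat_lit 73) (nat_lit 26) (nat_lit 47) (nat_lit 1) (.cons
 (nat_lit 875) (nat_lit 223) (nat_lit 539) (nat_lit 1) .nil)), (nat_lit 9), (nat_lit 0), (nat_lit 0), (nat_lit
 0), (25, 45, 24), [84, 262], 0⟩,
  ⟨⟨17, -36, -45, -20, 23, -30, 38, 8, -37⟩, (.cons (nat_lit 102) (nat_lit 97) (nat_lit 52) (nat_lit 1) (.cons
 (nat_lit 804) (nat_lit 407) (nat_lit 811) (nat_lit 1) .nil)), (nat_lit 32), (nat_lit 0), (nat_lit 0), (nat_lit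
 0), (19, 44, 1), [46, 113], 0⟩,
  mz,
  ⟨⟨-51, -4, 19, -2, 45, -14, -12, -12, -37⟩, (.cons (nat_lit 35) (nat_lit 41) (nat_lit 1) (nat_lit 55) (.cons
 (nat_lit 266) (nat_lit 420) (nat_lit 248) (nat_lit 1) .nil)), (nat_lit 33), (nat_lit 0), (nat_lit 0), (nat_lit
 0), (25, 36, 28), [97, 784], 0⟩,
  ⟨⟨9, 4, -61, 40, 23, -10, 22, -32, -29⟩, (.cons (nat_lit 40) (nat_lit 2) (nat_lit 37) (nat_lit 1) (.cons (nat_lit 129) (nat_lit 274) (nat_lit 907) (nat_lit 1) .nil)), (nat_lit 35), (nat_lit 0), (nat_lit 0), (nat_lit 0), (18, 33, 44), [96, 906], 0⟩,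
  ⟨⟨-13, 36, 45, 40, 23, -30, -22, 32, -7⟩, (.cons (nat_lit 63) (nat_lit 16) (nat_lit 54) (nat_lit 1) (.cons
 (nat_lit 428) (nat_lit 768) (nat_lit 281) (nat_lit 1) .nil)), (nat_lit 27), (nat_lit 0), (nat_lit 0), (nat_lit
 0), (5, 28, 41), [105, 314], 0⟩,
  mz,
  ⟨⟨19, 0, -63, 0, -47, 0, 42, 0, -23⟩, (.cons (nat_lit 38) (nat_lit 13) (nat_lit 51) (nat_lit 1) (.cons (nat_lit 702) (nat_lit 397) (nat_lit 887) (nat_lit 1) .nil)), (nat_lit 29), (nat_lit 0), (nat_lit 0), (nat_lit 0), (16, 0, 23), [93, 832], 0⟩,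
  ⟨⟨-39, 32, 8, -20, -33, -20, 6, 24, -41⟩, (.cons (nat_lit 101) (nat_lit 109) (nat_lit 63) (nat_lit 1) (.cons
 (nat_lit 863) (nat_lit 914) (nat_lit 472) (nat_lit 1) .nil)), (nat_lit 22), (nat_lit 0), (nat_lit 0), (nat_lit
 0), (25, 8, 7), [14, 799], 0⟩,
  ⟨⟨17, -36, 28, -20, 23, 50, 38, 8, -1⟩, (.cons (nat_lit 71) (nat_lit 98) (nat_lit 69) (nat_lit 1) (.cons (nat_lit 420) (nat_lit 198) (nat_lit 756) (nat_lit 1) .nil)), (nat_lit 32), (nat_lit 0), (nat_lit 0), (nat_lit 0), (2, 17, 10), [119, 296], 0⟩,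
  ⟨⟨21, 32, -49, -2, 35, 36, -28, 20, -13⟩, (.cons (nat_lit 14) (nat_lit 116) (nat_lit 48) (nat_lit 1) (.cons
 (nat_lit 833) (nat_lit 559) (nat_lit 611) (nat_lit 1) .nil)), (nat_lit 46), (nat_lit 0), (nat_lit 0), (nat_lit
 0), (30, 24, 7), [41, 509], 0⟩,
  ⟨⟨45, 8, -49, -20, 33, -20, 6, -24, -41⟩, (.cons (nat_lit 51) (nat_lit 111) (nat_lit 34) (nat_lit 1) (.cons
 (nat_lit 472) (nat_lit 36) (nat_lit 870) (nat_lit 1) .nil)), (nat_lit 25), (nat_lit 0), (nat_lit 0), (nat_lit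
 0), (40, 24, 21), [15, 668], 0⟩,
  mz,
  mz,
  ⟨⟨-45, 8, -4, 20, 33, -40, -6, -24, -35⟩, (.cons (nat_lit 120) (nat_lit 61) (nat_lit 33) (nat_lit 1) (.cons
 (nat_lit 960) (nat_lit 787) (nat_lit 294) (nat_lit 1) .nil)), (nat_lit 25), (nat_lit 0), (nat_lit 0), (nat_lit
 0), (40, 24, 21), [85, 824], 0⟩,
  ⟨⟨-21, 32, -28, -2, -35, -34, 28, 20, -41⟩, (.cons (nat_lit 66) (nat_lit 36) (nat_lit 109) (nat_lit 1) (.cons
 (nat_lit 227) (nat_lit 400) (nat_lit 775) (nat_lit 1) .nil)), (nat_lit 5), (nat_lit 0), (nat_lit 0), (nat_lit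
 0), (30, 23, 7), [68, 181], 0⟩,
  ⟨⟨21, -44, 8, 20, 23, 30, 38, -8, -37⟩, (.cons (nat_lit 115) (nat_lit 37) (nat_lit 118) (nat_lit 1) (.cons
 (nat_lit 928) (nat_lit 21) (nat_lit 774) (nat_lit 1) .nil)), (nat_lit 31), (nat_lit 0), (nat_lit 0), (nat_lit
 0), (39, 17, 37), [26, 533], 0⟩,
  ⟨⟨-45, -8, -4, -20, 33, 40, -6, 24, -35⟩, (.cons (nat_lit 120) (nat_lit 108) (nat_lit 117) (nat_lit 1) (.cons
 (nat_lit 960) (nat_lit 923) (nat_lit 76) (nat_lit 1) .nil)), (nat_lit 28), (nat_lit 0), (nat_lit 0), (nat_lit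
 0), (29, 39, 7), [50, 188], 0⟩,
  ⟨⟨19, 0, 44, 0, -47, 0, 42, 0, -19⟩, (.cons (nat_lit 120) (nat_lit 106) (nat_lit 71) (nat_lit 1) (.cons (nat_lit 960) (nat_lit 19) (nat_lit 274) (nat_lit 1) .nil)), (nat_lit 29), (nat_lit 0), (nat_lit 0), (nat_lit 0), (31, 0, 24), [35, 326], 0⟩,
  mz,
  ⟨⟨13, 36, 32, -40, 23, 10, 22, 32, -29⟩, (.cons (nat_lit 20) (nat_lit 107) (nat_lit 60) (nat_lit 1) (.cons
 (nat_lit 728) (nat_lit 88) (nat_lit 635) (nat_lit 1) .nil)), (nat_lit 27), (nat_lit 0), (nat_lit 0), (nat_lit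
 0), (5, 28, 41), [115, 327], 0⟩,
  ⟨⟨-9, 4, -52, 40, -23, -30, -22, -32, -7⟩, (.cons (nat_lit 75) (nat_lit 31) (nat_lit 28) (nat_lit 1) (.cons
 (nat_lit 135) (nat_lit 178) (nat_lit 767) (nat_lit 1) .nil)), (nat_lit 20), (nat_lit 0), (nat_lit 0), (nat_lit
 0), (18, 14, 44), [118, 454], 0⟩,
  ⟨⟨-39, -8, -17, -2, -45, 16, 12, -12, -49⟩, (.cons (nat_lit 62) (nat_lit 53) (nat_lit 92) (nat_lit 1) (.cons
 (nat_lit 183) (nat_lit 803) (nat_lit 149) (nat_lit 1) .nil)), (nat_lit 3), (nat_lit 0), (nat_lit 0), (nat_lit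
 0), (3, 11, 28), [109, 646], 0⟩,
  mz,
  ⟨⟨17, 36, 28, 20, 23, -50, 38, -8, -1⟩, (.cons (nat_lit 56) (nat_lit 1) (nat_lit 71) (nat_lit 1) (.cons (nat_lit 255) (nat_lit 852) (nat_lit 118) (nat_lit 1) .nil)), (nat_lit 16), (nat_lit 0), (nat_lit 0), (nat_lit 0), (28, 44, 46), [100, 463], 0⟩,
  ⟨⟨-17, 48, 0, -40, -17, 0, 10, 16, -47⟩, (.cons (nat_lit 61) (nat_lit 120) (nat_lit 114) (nat_lit 1) (.cons (nat_lit 53) (nat_lit 814) (nat_lit 924) (nat_lit 1) .nil)), (nat_lit 9), (nat_lit 0), (nat_lit 0), (nat_lit 0), (25, 45, 24), [3, 399], 0⟩,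
  mz,
  ⟨⟨17, -48, -17, -40, -17, 40, -10, -16, -37⟩, (.cons (nat_lit 44) (nat_lit 64) (nat_lit 59) (nat_lit 1)
 (.cons (nat_lit 885) (nat_lit 195) (nat_lit 793) (nat_lit 1) .nil)), (nat_lit 36), (nat_lit 0), (nat_lit 0),
 (nat_lit 0), (6, 8, 2), [46, 470], 0⟩,
  mz,
  mz,
  mz,
  ⟨⟨45, -16, -1, 22, 35, -36, 20, -28, -37⟩, (.cons (nat_lit 47) (nat_lit 64) (nat_lit 109) (nat_lit 1) (.cons
 (nat_lit 864) (nat_lit 259) (nat_lit 498) (nat_lit 1) .nil)), (nat_lit 45), (nat_lit 0), (nat_lit 0), (nat_lit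
 0), (12, 9, 21), [52, 881], 0⟩,
  mz,
  ⟨⟨-39, 8, -17, -2, 45, 16, 12, 12, -49⟩, (.cons (nat_lit 77) (nat_lit 91) (nat_lit 41) (nat_lit 1) (.cons (nat_lit 484) (nat_lit 806) (nat_lit 470) (nat_lit 1) .nil)), (nat_lit 3), (nat_lit 0), (nat_lit 0), (nat_lit 0), (14, 20, 21), [82, 552], 0⟩,
  ⟨⟨-21, -32, -28, -2, 35, -34, 28, -20, -41⟩, (.cons (nat_lit 91) (nat_lit 62) (nat_lit 62) (nat_lit 1) (.cons
 (nat_lit 585) (nat_lit 266) (nat_lit 587) (nat_lit 1) .nil)), (nat_lit 5), (nat_lit 0), (nat_lit 0), (nat_lit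
 0), (33, 30, 3), [27, 109], 0⟩,
  ⟨⟨-45, 16, 44, -22, -35, -14, -20, 28, -17⟩, (.cons (nat_lit 114) (nat_lit 19) (nat_lit 42) (nat_lit 1)
 (.cons (nat_lit 299) (nat_lit 246) (nat_lit 960) (nat_lit 1) .nil)), (nat_lit 45), (nat_lit 0), (nat_lit 0),
 (nat_lit 0), (34, 2, 36), [83, 332], 0⟩]

/-- Moves. -/
noncomputable def t4_4 : List Mv := [
  mz,
  ⟨⟨45, 16, -1, 22, -35, -36, 20, 28, -37⟩, (.cons (nat_lit 46) (nat_lit 91) (nat_lit 62) (nat_lit 1) (.cons (nat_lit 80) (nat_lit 636) (nat_lit 469) (nat_lit 1) .nil)), (nat_lit 45), (nat_lit 0), (nat_lit 0), (nat_lit 0), (34, 2, 36), [42, 597], 0⟩,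
  ⟨⟨21, -32, -49, 2, 35, -36, -28, -20, -13⟩, (.cons (nat_lit 82) (nat_lit 33) (nat_lit 42) (nat_lit 1) (.cons
 (nat_lit 245) (nat_lit 677) (nat_lit 1) (nat_lit 589) .nil)), (nat_lit 5), (nat_lit 0), (nat_lit 0), (nat_lit
 0), (33, 30, 3), [62, 509], 0⟩,
  ⟨⟨-51, 4, 19, 2, 45, 14, -12, 12, -37⟩, (.cons (nat_lit 59) (nat_lit 76) (nat_lit 1) (nat_lit 66) (.cons (nat_lit 824) (nat_lit 868) (nat_lit 3) (nat_lit 1) .nil)), (nat_lit 44), (nat_lit 0), (nat_lit 0), (nat_lit 0), (7, 20, 21), [3, 908], 0⟩,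
  mz,
  ⟨⟨-45, -16, 44, -22, 35, -14, -20, -28, -17⟩, (.cons (nat_lit 4) (nat_lit 115) (nat_lit 115) (nat_lit 1)
 (.cons (nat_lit 23) (nat_lit 609) (nat_lit 914) (nat_lit 1) .nil)), (nat_lit 45), (nat_lit 0), (nat_lit 0),
 (nat_lit 0), (12, 9, 21), [69, 1], 0⟩,
  mz,
  mz,
  mz,
  ⟨⟨27, 32, -47, -40, 17, 0, 10, -16, -47⟩, (.cons (nat_lit 20) (nat_lit 47) (nat_lit 45) (nat_lit 1) (.cons (nat_lit 229) (nat_lit 912) (nat_lit 461) (nat_lit 1) .nil)), (nat_lit 38), (nat_lit 0), (nat_lit 0), (nat_lit 0), (43, 39, 2), [92, 30], 0⟩,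
  mz,
  ⟨⟨17, 48, -17, 40, -17, -40, -10, 16, -37⟩, (.cons (nat_lit 73) (nat_lit 26) (nat_lit 47) (nat_lit 1) (.cons
 (nat_lit 875) (nat_lit 223) (nat_lit 539) (nat_lit 1) .nil)), (nat_lit 9), (nat_lit 0), (nat_lit 0), (nat_lit
 0), (25, 45, 24), [84, 262], 0⟩,
  ⟨⟨17, -36, -45, -20, 23, -30, 38, 8, -37⟩, (.cons (nat_lit 102) (nat_lit 97) (nat_lit 52) (nat_lit 1) (.cons
 (nat_lit 804) (nat_lit 407) (nat_lit 811) (nat_lit 1) .nil)), (nat_lit 32), (nat_lit 0), (nat_lit 0), (nat_lit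
 0), (19, 44, 1), [46, 113], 0⟩,
  mz,
  ⟨⟨-51, -4, 19, -2, 45, -14, -12, -12, -37⟩, (.cons (nat_lit 35) (nat_lit 41) (nat_lit 1) (nat_lit 55) (.cons
 (nat_lit 266) (nat_lit 420) (nat_lit 248) (nat_lit 1) .nil)), (nat_lit 33), (nat_lit 0), (nat_lit 0), (nat_lit
 0), (25, 36, 28), [97, 784], 0⟩,
  ⟨⟨9, 4, -61, 40, 23, -10, 22, -32, -29⟩, (.cons (nat_lit 40) (nat_lit 2) (nat_lit 37) (nat_lit 1) (.cons (nat_lit 129) (nat_lit 274) (nat_lit 907) (nat_lit 1) .nil)), (nat_lit 35), (nat_lit 0), (nat_lit 0), (nat_lit 0), (18, 33, 44), [96, 906], 0⟩,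
  ⟨⟨-9, -4, -52, -40, -23, 30, -22, 32, -7⟩, (.cons (nat_lit 67) (nat_lit 54) (nat_lit 83) (nat_lit 1) (.cons
 (nat_lit 505) (nat_lit 268) (nat_lit 953) (nat_lit 1) .nil)), (nat_lit 35), (nat_lit 0), (nat_lit 0), (nat_lit
 0), (36, 19, 41), [10, 534], 0⟩,
  mz,
  ⟨⟨19, 0, -63, 0, -47, 0, 42, 0, -23⟩, (.cons (nat_lit 38) (nat_lit 13) (nat_lit 51) (nat_lit 1) (.cons (nat_lit 702) (nat_lit 397) (nat_lit 887) (nat_lit 1) .nil)), (nat_lit 29), (nat_lit 0), (nat_lit 0), (nat_lit 0), (16, 0, 23), [93, 832], 0⟩,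
  ⟨⟨-39, 32, 8, -20, -33, -20, 6, 24, -41⟩, (.cons (nat_lit 101) (nat_lit 109) (nat_lit 63) (nat_lit 1) (.cons
 (nat_lit 863) (nat_lit 914) (nat_lit 472) (nat_lit 1) .nil)), (nat_lit 22), (nat_lit 0), (nat_lit 0), (nat_lit
 0), (25, 8, 7), [14, 799], 0⟩,
  ⟨⟨17, -36, 28, -20, 23, 50, 38, 8, -1⟩, (.cons (nat_lit 71) (nat_lit 98) (nat_lit 69) (nat_lit 1) (.cons (nat_lit 420) (nat_lit 198) (nat_lit 756) (nat_lit 1) .nil)), (nat_lit 32), (nat_lit 0), (nat_lit 0), (nat_lit 0), (2, 17, 10), [119, 296], 0⟩,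
  ⟨⟨21, 32, -49, 2, -35, -36, -28, 20, -13⟩, (.cons (nat_lit 68) (nat_lit 112) (nat_lit 115) (nat_lit 1) (.cons
 (nat_lit 483) (nat_lit 64) (nat_lit 94) (nat_lit 1) .nil)), (nat_lit 5), (nat_lit 0), (nat_lit 0), (nat_lit
 0), (30, 23, 7), [53, 380], 0⟩,
  ⟨⟨45, 8, -49, 20, -33, 20, 6, -24, -41⟩, (.cons (nat_lit 45) (nat_lit 80) (nat_lit 93) (nat_lit 1) (.cons
 (nat_lit 745) (nat_lit 197) (nat_lit 425) (nat_lit 1) .nil)), (nat_lit 28), (nat_lit 0), (nat_lit 0), (nat_lit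
 0), (40, 23, 21), [68, 639], 0⟩,
  mz,
  mz,
  ⟨⟨39, -32, -31, 20, 33, -40, -6, -24, -35⟩, (.cons (nat_lit 19) (nat_lit 69) (nat_lit 80) (nat_lit 1) (.cons
 (nat_lit 226) (nat_lit 513) (nat_lit 385) (nat_lit 1) .nil)), (nat_lit 22), (nat_lit 0), (nat_lit 0), (nat_lit
 0), (28, 24, 21), [91, 385], 0⟩,
  ⟨⟨-21, 32, -28, -2, -35, -34, 28, 20, -41⟩, (.cons (nat_lit 66) (nat_lit 36) (nat_lit 109) (nat_lit 1) (.cons
 (nat_lit 227) (nat_lit 400) (nat_lit 775) (nat_lit 1) .nil)), (nat_lit 5), (nat_lit 0), (nat_lit 0), (nat_lit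
 0), (30, 23, 7), [68, 181], 0⟩,
  ⟨⟨17, 36, -45, -20, -23, -30, 38, -8, -37⟩, (.cons (nat_lit 23) (nat_lit 51) (nat_lit 70) (nat_lit 1) (.cons
 (nat_lit 296) (nat_lit 541) (nat_lit 25) (nat_lit 1) .nil)), (nat_lit 32), (nat_lit 0), (nat_lit 0), (nat_lit
 0), (45, 30, 37), [92, 957], 0⟩,
  ⟨⟨39, 32, -31, 20, -33, -40, -6, 24, -35⟩, (.cons (nat_lit 78) (nat_lit 52) (nat_lit 6) (nat_lit 1) (.cons (nat_lit 218) (nat_lit 299) (nat_lit 567) (nat_lit 1) .nil)), (nat_lit 22), (nat_lit 0), (nat_lit 0), (nat_lit 0), (25, 8, 7), [13, 236], 0⟩,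
  ⟨⟨19, 0, 44, 0, 47, 0, 42, 0, -19⟩, (.cons (nat_lit 120) (nat_lit 53) (nat_lit 9) (nat_lit 1) (.cons (nat_lit 960) (nat_lit 272) (nat_lit 326) (nat_lit 1) .nil)), (nat_lit 29), (nat_lit 0), (nat_lit 0), (nat_lit 0), (31, 0, 24), [81, 735], 0⟩,
  mz,
  ⟨⟨9, -4, -61, 40, -23, -10, 22, 32, -29⟩, (.cons (nat_lit 34) (nat_lit 31) (nat_lit 8) (nat_lit 1) (.cons
 (nat_lit 420) (nat_lit 710) (nat_lit 896) (nat_lit 1) .nil)), (nat_lit 35), (nat_lit 0), (nat_lit 0), (nat_lit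
 0), (36, 19, 41), [15, 368], 0⟩,
  ⟨⟨-9, 4, -52, 40, -23, -30, -22, -32, -7⟩, (.cons (nat_lit 75) (nat_lit 31) (nat_lit 28) (nat_lit 1) (.cons
 (nat_lit 135) (nat_lit 178) (nat_lit 767) (nat_lit 1) .nil)), (nat_lit 20), (nat_lit 0), (nat_lit 0), (nat_lit
 0), (18, 14, 44), [118, 454], 0⟩,
  ⟨⟨-39, -8, -17, 2, 45, -16, 12, -12, -49⟩, (.cons (nat_lit 88) (nat_lit 106) (nat_lit 38) (nat_lit 1) (.cons
 (nat_lit 112) (nat_lit 49) (nat_lit 93) (nat_lit 1) .nil)), (nat_lit 14), (nat_lit 0), (nat_lit 0), (nat_lit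
 0), (3, 36, 28), [71, 583], 0⟩,
  mz,
  ⟨⟨21, -44, -29, -20, -23, 50, 38, -8, -1⟩, (.cons (nat_lit 118) (nat_lit 6) (nat_lit 111) (nat_lit 1) (.cons
 (nat_lit 149) (nat_lit 497) (nat_lit 358) (nat_lit 1) .nil)), (nat_lit 15), (nat_lit 0), (nat_lit 0), (nat_lit
 0), (18, 3, 46), [104, 585], 0⟩,
  ⟨⟨27, -32, -47, -40, -17, 0, 10, 16, -47⟩, (.cons (nat_lit 41) (nat_lit 38) (nat_lit 1) (nat_lit 110) (.cons
 (nat_lit 569) (nat_lit 521) (nat_lit 453) (nat_lit 1) .nil)), (nat_lit 38), (nat_lit 0), (nat_lit 0), (nat_lit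
 0), (46, 45, 24), [7, 47], 0⟩,
  mz,
  ⟨⟨-27, 32, -20, 40, 17, -40, -10, -16, -37⟩, (.cons (nat_lit 120) (nat_lit 118) (nat_lit 11) (nat_lit 1)
 (.cons (nat_lit 960) (nat_lit 291) (nat_lit 615) (nat_lit 1) .nil)), (nat_lit 38), (nat_lit 0), (nat_lit 0),
 (nat_lit 0), (43, 39, 2), [52, 231], 0⟩,
  mz,
  mz,
  mz,
  ⟨⟨45, -16, -1, 22, 35, -36, 20, -28, -37⟩, (.cons (nat_lit 47) (nat_lit 64) (nat_lit 109) (nat_lit 1) (.cons
 (nat_lit 864) (nat_lit 259) (nat_lit 498) (nat_lit 1) .nil)), (nat_lit 45), (nat_lit 0), (nat_lit 0), (nat_lit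
 0), (12, 9, 21), [52, 881], 0⟩,
  mz,
  ⟨⟨51, 4, -32, 2, -45, -16, 12, 12, -49⟩, (.cons (nat_lit 38) (nat_lit 13) (nat_lit 22) (nat_lit 1) (.cons (nat_lit 141) (nat_lit 580) (nat_lit 1) (nat_lit 372) .nil)), (nat_lit 33), (nat_lit 0), (nat_lit 0), (nat_lit 0), (7, 27, 21), [81, 888], 0⟩,
  ⟨⟨49, 12, -13, -2, 35, -34, 28, -20, -41⟩, (.cons (nat_lit 103) (nat_lit 63) (nat_lit 26) (nat_lit 1) (.cons
 (nat_lit 426) (nat_lit 181) (nat_lit 233) (nat_lit 1) .nil)), (nat_lit 42), (nat_lit 0), (nat_lit 0), (nat_lit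
 0), (17, 30, 3), [29, 708], 0⟩,
  ⟨⟨25, 12, -61, 22, 35, 14, -20, 28, -17⟩, (.cons (nat_lit 26) (nat_lit 9) (nat_lit 83) (nat_lit 1) (.cons (nat_lit 488) (nat_lit 132) (nat_lit 703) (nat_lit 1) .nil)), (nat_lit 21), (nat_lit 0), (nat_lit 0), (nat_lit 0), (2, 45, 36), [7, 522], 0⟩]

/-- All the moves. -/
noncomputable def tabs : List (List (List Mv)) := [[[], t0_1, [], [], t0_4], [[], t1_1, [], [], t1_4], [], [], [[], t4_1, [], [], t4_4]]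

/-- Subtrie. -/
noncomputable def T1 : Tr := (.ev (nat_lit 20) (nat_lit 74766892226560) (.nd (nat_lit 33) (.br (nat_lit 20)
 (.br (nat_lit 13) (.br (nat_lit 4) (.br (nat_lit 2) (.ch (nat_lit 1) (.ev (nat_lit 52) (nat_lit
 35460192698368) (.ev (nat_lit 148) (nat_lit 512) (.ev (nat_lit 180) (nat_lit 2) (.ev (nat_lit 500) (nat_lit
 17592186044416) (.ev (nat_lit 784) (nat_lit 103079215104) (.nd (nat_lit 1024) (.br (nat_lit 7) (.br (nat_lit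
 2) (.ch (nat_lit 0) (.ev (nat_lit 1040) (nat_lit 15036579884) .dd)) (.ch (nat_lit 2) (.ev (nat_lit 1040)
 (nat_lit 10737418248) (.ev (nat_lit 1136) (nat_lit 4194304) (.ev (nat_lit 1216) (nat_lit 4) (.ev (nat_lit
 1488) (nat_lit 4294967328) .dd)))))) (.br (nat_lit 9) (.ch (nat_lit 7) (.ev (nat_lit 1040) (nat_lit
 4294967340) (.ev (nat_lit 1104) (nat_lit 4194304) (.ev (nat_lit 1152) (nat_lit 2147483648) (.ev (nat_lit 1165)
 (nat_lit 8589934592) .dd))))) (.br (nat_lit 10) (.ch (nat_lit 9) (.ev (nat_lit 1040) (nat_lit 12889096192)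
 (.ev (nat_lit 1152) (nat_lit 4) (.ev (nat_lit 1216) (nat_lit 32) (.ev (nat_lit 1232) (nat_lit 8) (.ev (nat_lit
 1245) (nat_lit 2147483648) .dd)))))) (.ch (nat_lit 10) (.ev (nat_lit 1040) (nat_lit 15032385580) (.ev (nat_lit
 1053) (nat_lit 4194304) .dd))))))))))))) (.ch (nat_lit 2) (.ev (nat_lit 52) (nat_lit 35221420376100) (.ev
 (nat_lit 116) (nat_lit 68719476736) (.ev (nat_lit 180) (nat_lit 8589935104) (.ev (nat_lit 212) (nat_lit
 1048576) (.ev (nat_lit 468) (nat_lit 4294967296) (.nd (nat_lit 1024) (.br (nat_lit 2) (.br (nat_lit 1) (.ch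
 (nat_lit 0) (.ev (nat_lit 1040) (nat_lit 275282690058) (.ev (nat_lit 1053) (nat_lit 17592186044416) .dd)))
 (.ch (nat_lit 1) (.ev (nat_lit 1040) (nat_lit 275282657290) (.ev (nat_lit 1056) (nat_lit 32768) (.ev (nat_lit
 1069) (nat_lit 17592186044416) .dd))))) (.br (nat_lit 5) (.ch (nat_lit 2) (.ev (nat_lit 1040) (nat_lit
 17592188174346) (.ev (nat_lit 1188) (nat_lit 268435456) (.ev (nat_lit 1536) (nat_lit 275012124672) .dd))))
 (.br (nat_lit 9) (.ch (nat_lit 5) (.ev (nat_lit 1040) (nat_lit 17592322359304) (.ev (nat_lit 1216) (nat_lit 2)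
 (.ev (nat_lit 1312) (nat_lit 32768) (.ev (nat_lit 1440) (nat_lit 275146342400) .dd))))) (.ch (nat_lit 9) (.ev
 (nat_lit 1040) (nat_lit 17867332419584) (.ev (nat_lit 1152) (nat_lit 134217728) (.ev (nat_lit 1188) (nat_lit
 2097160) (.ev (nat_lit 1197) (nat_lit 2) .dd)))))))))))))))) (.br (nat_lit 6) (.ch (nat_lit 4) (.ev (nat_lit
 52) (nat_lit 17977122488354) (.ev (nat_lit 340) (nat_lit 268435456) (.ev (nat_lit 436) (nat_lit 4194304) (.ev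
 (nat_lit 736) (nat_lit 512) (.ev (nat_lit 864) (nat_lit 35184372088832) (.nd (nat_lit 1024) (.br (nat_lit 7)
 (.br (nat_lit 5) (.ch (nat_lit 2) (.ev (nat_lit 1040) (nat_lit 8593113088) (.ev (nat_lit 1072) (nat_lit 8)
 (.ev (nat_lit 1188) (nat_lit 4) (.ev (nat_lit 1197) (nat_lit 134217728) .dd))))) (.ch (nat_lit 5) (.ev
 (nat_lit 1040) (nat_lit 8726249484) (.ev (nat_lit 1424) (nat_lit 32768) (.ev (nat_lit 1437) (nat_lit 1048576)
 .dd))))) (.br (nat_lit 9) (.ch (nat_lit 7) (.ev (nat_lit 1040) (nat_lit 135299084) (.ev (nat_lit 1124)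
 (nat_lit 2097152) (.ev (nat_lit 1133) (nat_lit 8589934592) .dd)))) (.ch (nat_lit 9) (.ev (nat_lit 1040)
 (nat_lit 8590983180) (.ev (nat_lit 1056) (nat_lit 134217728) (.ev (nat_lit 1264) (nat_lit 2097152) (.ev
 (nat_lit 1277) (nat_lit 32768) .dd)))))))))))))) (.br (nat_lit 8) (.ch (nat_lit 6) (.ev (nat_lit 52) (nat_lit
 53085796860418) (.ev (nat_lit 148) (nat_lit 134217728) (.ev (nat_lit 212) (nat_lit 8589934592) (.ev (nat_lit
 340) (nat_lit 68719476736) (.ev (nat_lit 404) (nat_lit 2097152) (.ev (nat_lit 688) (nat_lit 4294967296) (.nd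
 (nat_lit 1024) (.br (nat_lit 2) (.br (nat_lit 1) (.ch (nat_lit 0) (.ev (nat_lit 1040) (nat_lit 2956984360)
 (.ev (nat_lit 1053) (nat_lit 4) .dd))) (.ch (nat_lit 1) (.ev (nat_lit 1040) (nat_lit 809500716) (.ev (nat_lit
 1053) (nat_lit 2147483648) .dd)))) (.br (nat_lit 7) (.ch (nat_lit 2) (.ev (nat_lit 1040) (nat_lit 2688548868)
 (.ev (nat_lit 1332) (nat_lit 268435456) (.ev (nat_lit 1520) (nat_lit 32) (.ev (nat_lit 1533) (nat_lit 8)
 .dd))))) (.br (nat_lit 10) (.ch (nat_lit 7) (.ev (nat_lit 1040) (nat_lit 268435468) (.ev (nat_lit 1152)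
 (nat_lit 32) (.ev (nat_lit 1264) (nat_lit 2147483648) (.ev (nat_lit 1558) (nat_lit 541065216) .dd))))) (.ch
 (nat_lit 10) (.ev (nat_lit 1040) (nat_lit 2147483684) (.ev (nat_lit 1124) (nat_lit 268435456) (.ev (nat_lit
 1332) (nat_lit 8) (.ev (nat_lit 1472) (nat_lit 541065216) .dd)))))))))))))))) (.ch (nat_lit 8) (.ev (nat_lit
 52) (nat_lit 52779110367752) (.ev (nat_lit 84) (nat_lit 536870912) (.ev (nat_lit 148) (nat_lit 8589934592)
 (.ev (nat_lit 180) (nat_lit 4) (.ev (nat_lit 212) (nat_lit 4294967296) (.ev (nat_lit 308) (nat_lit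
 274877906944) (.ev (nat_lit 372) (nat_lit 32768) (.ev (nat_lit 528) (nat_lit 68720525312) (.ev (nat_lit 608)
 (nat_lit 4194306) (.nd (nat_lit 1024) (.br (nat_lit 7) (.ch (nat_lit 0) (.ev (nat_lit 1040) (nat_lit
 34359738400) .dd)) (.br (nat_lit 9) (.ch (nat_lit 7) (.ev (nat_lit 1696) (nat_lit 34359738400) .dd)) (.ch
 (nat_lit 9) (.ev (nat_lit 1040) (nat_lit 34359738368) (.ev (nat_lit 1053) (nat_lit 32) .dd)))))))))))))))))))
 (.br (nat_lit 15) (.br (nat_lit 14) (.ch (nat_lit 13) (.ev (nat_lit 52) (nat_lit 352594198534) (.ev (nat_lit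
 192) (nat_lit 52817900339752) .dd))) (.ch (nat_lit 14) (.ev (nat_lit 52) (nat_lit 13422854688) (.ev (nat_lit
 116) (nat_lit 268435456) (.ev (nat_lit 212) (nat_lit 68719476736) (.ev (nat_lit 340) (nat_lit 8) (.ev (nat_lit
 1008) (nat_lit 17592186044416) (.nd (nat_lit 1024) (.br (nat_lit 5) (.br (nat_lit 2) (.ch (nat_lit 1) (.ev
 (nat_lit 1040) (nat_lit 35459388407812) (.ev (nat_lit 1124) (nat_lit 2) (.ev (nat_lit 1136) (nat_lit
 34359738368) (.ev (nat_lit 1200) (nat_lit 2147483648) (.ev (nat_lit 1213) (nat_lit 2097152) .dd)))))) (.ch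
 (nat_lit 2) (.ev (nat_lit 1040) (nat_lit 36509319170) (.ev (nat_lit 1124) (nat_lit 4) (.ev (nat_lit 1136)
 (nat_lit 274877906944) (.ev (nat_lit 1200) (nat_lit 4194304) (.ev (nat_lit 1440) (nat_lit 35184506306560)
 .dd))))))) (.br (nat_lit 7) (.ch (nat_lit 5) (.ev (nat_lit 1040) (nat_lit 35495897726976) (.ev (nat_lit 1104)
 (nat_lit 2) (.ev (nat_lit 1117) (nat_lit 4) .dd)))) (.br (nat_lit 9) (.ch (nat_lit 7) (.ev (nat_lit 1040)
 (nat_lit 35184372088838) (.ev (nat_lit 1152) (nat_lit 4194304) (.ev (nat_lit 1188) (nat_lit 136314880) (.ev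
 (nat_lit 1232) (nat_lit 274877906944) (.ev (nat_lit 1472) (nat_lit 36507222016) .dd)))))) (.ch (nat_lit 9)
 (.ev (nat_lit 1040) (nat_lit 35495897726976) (.ev (nat_lit 1104) (nat_lit 4) (.ev (nat_lit 1117) (nat_lit 2)
 .dd))))))))))))))) (.br (nat_lit 18) (.ch (nat_lit 15) (.ev (nat_lit 52) (nat_lit 35287994466308) (.ev
 (nat_lit 96) (nat_lit 17882500071978) .dd))) (.br (nat_lit 19) (.ch (nat_lit 18) (.ev (nat_lit 52) (nat_lit
 68856873504) (.ev (nat_lit 64) (nat_lit 53101637664782) .dd))) (.ch (nat_lit 19) (.ev (nat_lit 52) (nat_lit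
 17912700108804) (.ev (nat_lit 116) (nat_lit 1048584) (.ev (nat_lit 212) (nat_lit 134217728) (.ev (nat_lit 340)
 (nat_lit 4294967296) (.ev (nat_lit 404) (nat_lit 4194304) (.ev (nat_lit 436) (nat_lit 32) (.ev (nat_lit 468)
 (nat_lit 268435456) (.nd (nat_lit 1024) (.br (nat_lit 2) (.br (nat_lit 1) (.ch (nat_lit 0) (.ev (nat_lit 1040)
 (nat_lit 35184372089346) (.ev (nat_lit 1053) (nat_lit 68719476736) .dd))) (.ch (nat_lit 1) (.ev (nat_lit 1040)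
 (nat_lit 68719477250) (.ev (nat_lit 1053) (nat_lit 35184372088832) .dd)))) (.br (nat_lit 7) (.ch (nat_lit 2)
 (.ev (nat_lit 1040) (nat_lit 35184372088834) (.fin (nat_lit 576462401572389440)))) (.br (nat_lit 10) (.ch
 (nat_lit 7) (.ev (nat_lit 1040) (nat_lit 35253091566080) (.ev (nat_lit 1053) (nat_lit 2) .dd))) (.ch (nat_lit
 10) (.ev (nat_lit 1040) (nat_lit 68719476738) (.ev (nat_lit 1124) (nat_lit 512) (.ev (nat_lit 1133) (nat_lit
 35184372088832) .dd)))))))))))))))))))) (.br (nat_lit 25) (.br (nat_lit 22) (.br (nat_lit 21) (.ch (nat_lit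
 20) (.ev (nat_lit 52) (nat_lit 35293897949706) (.ev (nat_lit 276) (nat_lit 274877906944) (.ev (nat_lit 308)
 (nat_lit 17592186044416) (.ev (nat_lit 372) (nat_lit 32) (.ev (nat_lit 912) (nat_lit 1048576) (.nd (nat_lit
 1024) (.br (nat_lit 7) (.br (nat_lit 5) (.ch (nat_lit 2) (.ev (nat_lit 1040) (nat_lit 9128935424) (.ev
 (nat_lit 1124) (nat_lit 4) (.ev (nat_lit 1152) (nat_lit 134217728) (.ev (nat_lit 1165) (nat_lit 268435456)
 .dd))))) (.ch (nat_lit 5) (.ev (nat_lit 1040) (nat_lit 404750336) (.ev (nat_lit 1188) (nat_lit 4) (.ev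
 (nat_lit 1200) (nat_lit 32768) (.ev (nat_lit 1232) (nat_lit 536870912) (.ev (nat_lit 1245) (nat_lit
 8589934592) .dd))))))) (.br (nat_lit 10) (.ch (nat_lit 7) (.ev (nat_lit 1040) (nat_lit 8860499972) (.ev
 (nat_lit 1280) (nat_lit 671088640) .dd))) (.ch (nat_lit 10) (.ev (nat_lit 1040) (nat_lit 671088644) (.ev
 (nat_lit 1472) (nat_lit 270532608) (.ev (nat_lit 1520) (nat_lit 32768) (.ev (nat_lit 1533) (nat_lit
 8589934592) .dd)))))))))))))) (.ch (nat_lit 21) (.ev (nat_lit 52) (nat_lit 2684387850) (.ev (nat_lit 84)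
 (nat_lit 1048576) (.ev (nat_lit 116) (nat_lit 4429185024) (.ev (nat_lit 276) (nat_lit 35184372088832) (.ev
 (nat_lit 436) (nat_lit 17592186044416) (.ev (nat_lit 768) (nat_lit 274877906948) (.ev (nat_lit 998) (nat_lit
 68719476736) (.nd (nat_lit 1024) (.br (nat_lit 9) (.br (nat_lit 5) (.ch (nat_lit 2) (.ev (nat_lit 1040)
 (nat_lit 42951770112) (.ev (nat_lit 1056) (nat_lit 4194304) (.ev (nat_lit 1280) (nat_lit 32) (.ev (nat_lit
 1293) (nat_lit 268435456) .dd))))) (.ch (nat_lit 5) (.ev (nat_lit 1040) (nat_lit 42955964448) (.ev (nat_lit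
 1053) (nat_lit 268435456) .dd)))) (.br (nat_lit 10) (.ch (nat_lit 9) (.ev (nat_lit 1040) (nat_lit 43222302720)
 (.ev (nat_lit 1124) (nat_lit 32) (.ev (nat_lit 1133) (nat_lit 2097152) .dd)))) (.ch (nat_lit 10) (.ev (nat_lit
 1040) (nat_lit 270532640) (.ev (nat_lit 1072) (nat_lit 8589934592) (.ev (nat_lit 1188) (nat_lit 34359738368)
 (.ev (nat_lit 1197) (nat_lit 4194304) .dd))))))))))))))))) (.br (nat_lit 23) (.ch (nat_lit 22) (.ev (nat_lit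
 52) (nat_lit 35257521832456) (.ev (nat_lit 116) (nat_lit 4) (.ev (nat_lit 180) (nat_lit 268435456) (.ev
 (nat_lit 372) (nat_lit 2097152) (.ev (nat_lit 500) (nat_lit 34359738368) (.nd (nat_lit 1024) (.br (nat_lit 9)
 (.br (nat_lit 7) (.ch (nat_lit 2) (.ev (nat_lit 1040) (nat_lit 17603460333570) (.ev (nat_lit 1168) (nat_lit
 274877906944) (.ev (nat_lit 1232) (nat_lit 4194304) (.ev (nat_lit 1245) (nat_lit 32) .dd))))) (.ch (nat_lit 7)
 (.ev (nat_lit 1040) (nat_lit 17867068145666) (.ev (nat_lit 1056) (nat_lit 32) (.ev (nat_lit 1332) (nat_lit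
 8589934592) (.ev (nat_lit 1504) (nat_lit 2684354560) .dd)))))) (.br (nat_lit 10) (.ch (nat_lit 9) (.ev
 (nat_lit 1040) (nat_lit 17876194951200) (.ev (nat_lit 1136) (nat_lit 2) (.ev (nat_lit 1149) (nat_lit
 2147483648) .dd)))) (.ch (nat_lit 10) (.ev (nat_lit 1040) (nat_lit 285619519522) (.ev (nat_lit 1584) (nat_lit
 17592722915328) .dd)))))))))))) (.br (nat_lit 24) (.ch (nat_lit 23) (.ev (nat_lit 52) (nat_lit 5237637638)
 (.ev (nat_lit 128) (nat_lit 53165256900648) .dd))) (.ch (nat_lit 24) (.ev (nat_lit 52) (nat_lit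
 17883039039524) (.ev (nat_lit 84) (nat_lit 8) (.ev (nat_lit 308) (nat_lit 35184376283136) (.nd (nat_lit 1024)
 (.br (nat_lit 2) (.br (nat_lit 1) (.ch (nat_lit 0) (.ev (nat_lit 1040) (nat_lit 68719477250) (.ev (nat_lit
 1053) (nat_lit 34359738368) .dd))) (.ch (nat_lit 1) (.ev (nat_lit 1040) (nat_lit 103079215104) (.ev (nat_lit
 1124) (nat_lit 512) (.ev (nat_lit 1133) (nat_lit 2) .dd))))) (.br (nat_lit 5) (.ch (nat_lit 2) (.ev (nat_lit
 1040) (nat_lit 34359738370) (.fin (nat_lit 576462401572389440)))) (.br (nat_lit 9) (.ch (nat_lit 5) (.ev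
 (nat_lit 1040) (nat_lit 34359738882) (.ev (nat_lit 1053) (nat_lit 68719476736) .dd))) (.ch (nat_lit 9) (.ev
 (nat_lit 1040) (nat_lit 103079215616) (.ev (nat_lit 1053) (nat_lit 2) .dd)))))))))))))) (.br (nat_lit 27) (.br
 (nat_lit 26) (.ch (nat_lit 25) (.ev (nat_lit 52) (nat_lit 17970953715756) (.ev (nat_lit 84) (nat_lit
 8724152320) (.ev (nat_lit 116) (nat_lit 2147483648) (.ev (nat_lit 560) (nat_lit 2097154) (.ev (nat_lit 640)
 (nat_lit 4294967808) (.nd (nat_lit 1024) (.br (nat_lit 5) (.ch (nat_lit 0) (.ev (nat_lit 1040) (nat_lit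
 35184372121600) .dd)) (.br (nat_lit 10) (.ch (nat_lit 5) (.ev (nat_lit 1040) (nat_lit 32768) (.ev (nat_lit
 1053) (nat_lit 35184372088832) .dd))) (.ch (nat_lit 10) (.ev (nat_lit 1654) (nat_lit 35184372121600)
 .dd))))))))))) (.ch (nat_lit 26) (.ev (nat_lit 52) (nat_lit 393124773890) (.ev (nat_lit 84) (nat_lit
 268435456) (.ev (nat_lit 244) (nat_lit 32) (.ev (nat_lit 816) (nat_lit 17592186044416) (.ev (nat_lit 880)
 (nat_lit 4) (.ev (nat_lit 966) (nat_lit 512) (.nd (nat_lit 1024) (.br (nat_lit 5) (.br (nat_lit 1) (.ch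
 (nat_lit 0) (.ev (nat_lit 1040) (nat_lit 35184915283976) .dd)) (.ch (nat_lit 1) (.ev (nat_lit 1040) (nat_lit
 2097160) (.ev (nat_lit 1136) (nat_lit 32768) (.ev (nat_lit 1216) (nat_lit 536870912) (.ev (nat_lit 1332)
 (nat_lit 35184372088832) (.ev (nat_lit 1341) (nat_lit 4194304) .dd))))))) (.br (nat_lit 9) (.ch (nat_lit 5)
 (.ev (nat_lit 1040) (nat_lit 35184915251208) (.ev (nat_lit 1053) (nat_lit 32768) .dd))) (.br (nat_lit 10) (.ch
 (nat_lit 9) (.ev (nat_lit 1040) (nat_lit 35184913154048) (.ev (nat_lit 1104) (nat_lit 32768) (.ev (nat_lit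
 1152) (nat_lit 2097152) (.ev (nat_lit 1165) (nat_lit 8) .dd))))) (.ch (nat_lit 10) (.ev (nat_lit 1040)
 (nat_lit 32776) (.ev (nat_lit 1216) (nat_lit 536870912) (.ev (nat_lit 1232) (nat_lit 2097152) (.ev (nat_lit
 1472) (nat_lit 35184376283136) .dd))))))))))))))))) (.br (nat_lit 28) (.ch (nat_lit 27) (.ev (nat_lit 52)
 (nat_lit 350710956066) (.ev (nat_lit 84) (nat_lit 4) (.ev (nat_lit 148) (nat_lit 8) (.ev (nat_lit 244)
 (nat_lit 34359738368) (.ev (nat_lit 320) (nat_lit 52785423843840) .dd)))))) (.br (nat_lit 29) (.ch (nat_lit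
 28) (.ev (nat_lit 52) (nat_lit 384533791276) (.ev (nat_lit 84) (nat_lit 2) (.ev (nat_lit 116) (nat_lit
 8589934592) (.ev (nat_lit 212) (nat_lit 536870912) (.ev (nat_lit 244) (nat_lit 4194304) (.ev (nat_lit 372)
 (nat_lit 35184372088832) (.ev (nat_lit 448) (nat_lit 17592457658368) .dd)))))))) (.ch (nat_lit 29) (.ev
 (nat_lit 52) (nat_lit 35232160940544) (.ev (nat_lit 160) (nat_lit 17938333597742) .dd))))))))))

/-- Subtrie. -/
noncomputable def T4 : Tr := (.ev (nat_lit 20) (nat_lit 17594535680518) (.nd (nat_lit 33) (.br (nat_lit 20)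
 (.br (nat_lit 13) (.br (nat_lit 4) (.br (nat_lit 2) (.ch (nat_lit 1) (.ev (nat_lit 52) (nat_lit
 105828802625536) (.ev (nat_lit 84) (nat_lit 65536) (.ev (nat_lit 180) (nat_lit 34359738368) (.ev (nat_lit 288)
 (nat_lit 4479688654888) .dd))))) (.ch (nat_lit 2) (.ev (nat_lit 52) (nat_lit 35219306446880) (.ev (nat_lit
 148) (nat_lit 2097152) (.ev (nat_lit 244) (nat_lit 4294967296) (.ev (nat_lit 372) (nat_lit 16384) (.ev
 (nat_lit 404) (nat_lit 8589934592) (.ev (nat_lit 800) (nat_lit 1048576) (.ev (nat_lit 896) (nat_lit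
 4398046511104) (.ev (nat_lit 976) (nat_lit 8) (.nd (nat_lit 1024) (.br (nat_lit 6) (.br (nat_lit 5) (.ch
 (nat_lit 0) (.ev (nat_lit 1040) (nat_lit 70368744177664) (.ev (nat_lit 1536) (nat_lit 68719542272) (.ev
 (nat_lit 1568) (nat_lit 275146342400) .dd)))) (.ch (nat_lit 5) (.ev (nat_lit 1040) (nat_lit 70437732155392)
 (.ev (nat_lit 1053) (nat_lit 274877906944) .dd)))) (.br (nat_lit 8) (.ch (nat_lit 6) (.ev (nat_lit 1040)
 (nat_lit 70712610062336) .dd)) (.ch (nat_lit 8) (.ev (nat_lit 1040) (nat_lit 275146342400) (.ev (nat_lit 1200)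
 (nat_lit 65536) (.ev (nat_lit 1408) (nat_lit 70437463654400) .dd))))))))))))))))) (.br (nat_lit 6) (.ch
 (nat_lit 4) (.ev (nat_lit 52) (nat_lit 70751533203488) (.ev (nat_lit 308) (nat_lit 8590983168) (.ev (nat_lit
 340) (nat_lit 8) (.ev (nat_lit 500) (nat_lit 35184372088832) (.nd (nat_lit 1024) (.br (nat_lit 5) (.br
 (nat_lit 4) (.ch (nat_lit 2) (.ev (nat_lit 1040) (nat_lit 306184192) (.ev (nat_lit 1088) (nat_lit
 4398046511104) (.ev (nat_lit 1200) (nat_lit 2097152) (.ev (nat_lit 1213) (nat_lit 16384) .dd))))) (.ch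
 (nat_lit 4) (.ev (nat_lit 1040) (nat_lit 4398321238016) (.ev (nat_lit 1136) (nat_lit 33570816) .dd)))) (.br
 (nat_lit 6) (.ch (nat_lit 5) (.ev (nat_lit 1040) (nat_lit 4398321254400) (.ev (nat_lit 1053) (nat_lit
 33554432) .dd))) (.br (nat_lit 8) (.ch (nat_lit 6) (.ev (nat_lit 1040) (nat_lit 4398048608256) (.ev (nat_lit
 1104) (nat_lit 33554432) (.ev (nat_lit 1216) (nat_lit 16384) (.fin (nat_lit 576461302059713084)))))) (.ch
 (nat_lit 8) (.ev (nat_lit 1040) (nat_lit 4398352711680) (.ev (nat_lit 1053) (nat_lit 2097152) .dd))))))))))))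
 (.br (nat_lit 8) (.ch (nat_lit 6) (.ev (nat_lit 52) (nat_lit 39891657359360) (.ev (nat_lit 180) (nat_lit
 2097152) (.ev (nat_lit 308) (nat_lit 16384) (.ev (nat_lit 436) (nat_lit 268435456) (.ev (nat_lit 468) (nat_lit
 70368744177664) (.ev (nat_lit 752) (nat_lit 8589934592) (.ev (nat_lit 832) (nat_lit 4294967296) (.nd (nat_lit
 1024) (.br (nat_lit 6) (.br (nat_lit 5) (.ch (nat_lit 0) (.ev (nat_lit 1040) (nat_lit 33554472) (.ev (nat_lit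
 1200) (nat_lit 68719476736) (.ev (nat_lit 1456) (nat_lit 4194304) (.ev (nat_lit 1469) (nat_lit 536870912)
 .dd))))) (.ch (nat_lit 5) (.ev (nat_lit 1040) (nat_lit 69260541960) (.ev (nat_lit 1504) (nat_lit 33554464)
 .dd)))) (.br (nat_lit 7) (.ch (nat_lit 6) (.ev (nat_lit 1040) (nat_lit 536870944) (.ev (nat_lit 1332) (nat_lit
 4194304) (.ev (nat_lit 1360) (nat_lit 68719476736) (.ev (nat_lit 1616) (nat_lit 33554440) .dd))))) (.ch
 (nat_lit 7) (.ev (nat_lit 1040) (nat_lit 69294096424) .dd))))))))))))) (.ch (nat_lit 8) (.ev (nat_lit 52)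
 (nat_lit 39582722686984) (.ev (nat_lit 244) (nat_lit 536870912) (.ev (nat_lit 340) (nat_lit 70368744177664)
 (.ev (nat_lit 372) (nat_lit 4194304) (.ev (nat_lit 512) (nat_lit 274877906944) (.ev (nat_lit 592) (nat_lit
 81920) (.ev (nat_lit 624) (nat_lit 77310459904) (.nd (nat_lit 1024) (.br (nat_lit 5) (.ch (nat_lit 2) (.ev
 (nat_lit 1040) (nat_lit 4294967296) (.ev (nat_lit 1664) (nat_lit 34359738400) .dd))) (.br (nat_lit 8) (.ch
 (nat_lit 5) (.ev (nat_lit 1040) (nat_lit 34359738400) (.ev (nat_lit 1053) (nat_lit 4294967296) .dd))) (.ch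
 (nat_lit 8) (.ev (nat_lit 1040) (nat_lit 34359738368) (.ev (nat_lit 1124) (nat_lit 32) (.ev (nat_lit 1133)
 (nat_lit 4294967296) .dd)))))))))))))))))) (.br (nat_lit 15) (.br (nat_lit 14) (.ch (nat_lit 13) (.ev (nat_lit
 52) (nat_lit 352493518848) (.ev (nat_lit 212) (nat_lit 70368744177664) (.ev (nat_lit 468) (nat_lit
 34359738368) (.ev (nat_lit 544) (nat_lit 4402341478408) (.ev (nat_lit 576) (nat_lit 35184372088864) (.ev
 (nat_lit 720) (nat_lit 536870912) (.nd (nat_lit 1024) (.br (nat_lit 4) (.ch (nat_lit 0) (.ev (nat_lit 1040)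
 (nat_lit 1048576) (.ev (nat_lit 1686) (nat_lit 2162688) .dd))) (.br (nat_lit 8) (.ch (nat_lit 4) (.ev (nat_lit
 1040) (nat_lit 2162688) (.ev (nat_lit 1053) (nat_lit 1048576) .dd))) (.ch (nat_lit 8) (.ev (nat_lit 1040)
 (nat_lit 65536) (.ev (nat_lit 1124) (nat_lit 1048576) (.ev (nat_lit 1133) (nat_lit 2097152) .dd))))))))))))))
 (.ch (nat_lit 14) (.ev (nat_lit 52) (nat_lit 74780213575712) (.ev (nat_lit 148) (nat_lit 34359738368) (.ev
 (nat_lit 180) (nat_lit 68719476736) (.ev (nat_lit 244) (nat_lit 35184372088832) (.ev (nat_lit 308) (nat_lit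
 268435456) (.ev (nat_lit 416) (nat_lit 274917769224) .dd)))))))) (.br (nat_lit 18) (.ch (nat_lit 15) (.ev
 (nat_lit 52) (nat_lit 39686074597376) (.ev (nat_lit 84) (nat_lit 8) (.ev (nat_lit 212) (nat_lit 32) (.ev
 (nat_lit 276) (nat_lit 4294967296) (.ev (nat_lit 656) (nat_lit 274877906944) (.ev (nat_lit 928) (nat_lit
 16384) (.nd (nat_lit 1024) (.br (nat_lit 6) (.br (nat_lit 4) (.ch (nat_lit 2) (.ev (nat_lit 1040) (nat_lit
 70377334112256) (.ev (nat_lit 1280) (nat_lit 1048576) (.ev (nat_lit 1293) (nat_lit 268435456) .dd)))) (.ch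
 (nat_lit 4) (.ev (nat_lit 1040) (nat_lit 8858370048) (.ev (nat_lit 1124) (nat_lit 1048576) (.ev (nat_lit 1133)
 (nat_lit 70368744177664) .dd))))) (.br (nat_lit 7) (.ch (nat_lit 6) (.ev (nat_lit 1040) (nat_lit
 70377603596288) .dd)) (.ch (nat_lit 7) (.ev (nat_lit 1040) (nat_lit 70368745226240) (.ev (nat_lit 1232)
 (nat_lit 268435456) (.ev (nat_lit 1245) (nat_lit 8589934592) .dd)))))))))))))) (.br (nat_lit 19) (.ch (nat_lit
 18) (.ev (nat_lit 52) (nat_lit 70437466882080) (.ev (nat_lit 116) (nat_lit 34359738368) (.ev (nat_lit 180)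
 (nat_lit 8) (.ev (nat_lit 244) (nat_lit 268435456) (.ev (nat_lit 276) (nat_lit 8589934592) (.ev (nat_lit 436)
 (nat_lit 274877906944) (.ev (nat_lit 704) (nat_lit 35184372088832) (.ev (nat_lit 848) (nat_lit 536870912) (.nd
 (nat_lit 1024) (.br (nat_lit 7) (.br (nat_lit 4) (.ch (nat_lit 2) (.ev (nat_lit 1040) (nat_lit 4328521728)
 (.ev (nat_lit 1124) (nat_lit 4194304) (.ev (nat_lit 1133) (nat_lit 4398046511104) .dd)))) (.ch (nat_lit 4)
 (.ev (nat_lit 1040) (nat_lit 4398050705408) (.ev (nat_lit 1232) (nat_lit 33554432) (.ev (nat_lit 1245)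
 (nat_lit 4294967296) .dd))))) (.br (nat_lit 8) (.ch (nat_lit 7) (.ev (nat_lit 1040) (nat_lit 4402379227136)
 .dd)) (.ch (nat_lit 8) (.ev (nat_lit 1040) (nat_lit 4398080065536) (.ev (nat_lit 1264) (nat_lit 4194304) (.ev
 (nat_lit 1277) (nat_lit 4294967296) .dd)))))))))))))))) (.ch (nat_lit 19) (.ev (nat_lit 52) (nat_lit
 70687144345600) (.ev (nat_lit 148) (nat_lit 8) (.ev (nat_lit 256) (nat_lit 39655706738720) .dd)))))))) (.br
 (nat_lit 25) (.br (nat_lit 22) (.br (nat_lit 21) (.ch (nat_lit 20) (.ev (nat_lit 52) (nat_lit 35291750547464)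
 (.ev (nat_lit 372) (nat_lit 274877906944) (.ev (nat_lit 404) (nat_lit 1048576) (.ev (nat_lit 944) (nat_lit
 33554432) (.nd (nat_lit 1024) (.br (nat_lit 6) (.br (nat_lit 4) (.ch (nat_lit 2) (.ev (nat_lit 1040) (nat_lit
 70377870983168) (.ev (nat_lit 1188) (nat_lit 32) (.ev (nat_lit 1200) (nat_lit 4398046511104) (.ev (nat_lit
 1456) (nat_lit 268435456) (.ev (nat_lit 1469) (nat_lit 2097152) .dd)))))) (.ch (nat_lit 4) (.ev (nat_lit 1040)
 (nat_lit 4398853914624) (.ev (nat_lit 1124) (nat_lit 32) (.ev (nat_lit 1152) (nat_lit 70368744177664) (.ev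
 (nat_lit 1165) (nat_lit 8589934592) .dd)))))) (.br (nat_lit 8) (.ch (nat_lit 6) (.ev (nat_lit 1040) (nat_lit
 74766792785952) (.ev (nat_lit 1380) (nat_lit 268435456) (.ev (nat_lit 1424) (nat_lit 8589934592) (.ev (nat_lit
 1437) (nat_lit 536870912) .dd))))) (.ch (nat_lit 8) (.ev (nat_lit 1040) (nat_lit 4407441752096) (.ev (nat_lit
 1296) (nat_lit 70368746274816) .dd))))))))))) (.ch (nat_lit 21) (.ev (nat_lit 52) (nat_lit 74767327625224)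
 (.ev (nat_lit 84) (nat_lit 68719476736) (.ev (nat_lit 340) (nat_lit 33554464) (.ev (nat_lit 436) (nat_lit
 8589934592) (.ev (nat_lit 500) (nat_lit 274877906944) (.nd (nat_lit 1024) (.br (nat_lit 4) (.br (nat_lit 2)
 (.ch (nat_lit 0) (.ev (nat_lit 1040) (nat_lit 35188668121088) (.ev (nat_lit 1136) (nat_lit 34359738368) (.ev
 (nat_lit 1200) (nat_lit 270532608) (.ev (nat_lit 1213) (nat_lit 4194304) .dd))))) (.ch (nat_lit 2) (.ev
 (nat_lit 1040) (nat_lit 35188935491584) (.ev (nat_lit 1216) (nat_lit 4210688) (.ev (nat_lit 1332) (nat_lit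
 1048576) (.ev (nat_lit 1456) (nat_lit 34361835520) .dd)))))) (.br (nat_lit 7) (.ch (nat_lit 4) (.ev (nat_lit
 1040) (nat_lit 34634465280) (.ev (nat_lit 1136) (nat_lit 35184372088832) (.ev (nat_lit 1200) (nat_lit
 4294983680) (.ev (nat_lit 1213) (nat_lit 1048576) .dd))))) (.br (nat_lit 8) (.ch (nat_lit 7) (.ev (nat_lit
 1040) (nat_lit 35223034150912) (.ev (nat_lit 1053) (nat_lit 268435456) .dd))) (.ch (nat_lit 8) (.ev (nat_lit
 1040) (nat_lit 35219007619072) (.ev (nat_lit 1053) (nat_lit 4294967296) .dd)))))))))))))) (.br (nat_lit 23)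
 (.ch (nat_lit 22) (.ev (nat_lit 52) (nat_lit 39655434174472) (.ev (nat_lit 148) (nat_lit 33554432) (.ev
 (nat_lit 244) (nat_lit 4194304) (.ev (nat_lit 352) (nat_lit 70687379161120) .dd))))) (.br (nat_lit 24) (.ch
 (nat_lit 23) (.ev (nat_lit 52) (nat_lit 5103419392) (.ev (nat_lit 148) (nat_lit 68719476768) (.ev (nat_lit
 212) (nat_lit 8) (.ev (nat_lit 244) (nat_lit 16384) (.ev (nat_lit 308) (nat_lit 35184372088832) (.ev (nat_lit
 672) (nat_lit 70368744177664) (.nd (nat_lit 1024) (.br (nat_lit 4) (.br (nat_lit 2) (.ch (nat_lit 0) (.ev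
 (nat_lit 1040) (nat_lit 8623554560) (.ev (nat_lit 1124) (nat_lit 274877906944) (.ev (nat_lit 1488) (nat_lit
 34363932672) (.ev (nat_lit 1501) (nat_lit 4398046511104) .dd))))) (.ch (nat_lit 2) (.ev (nat_lit 1040)
 (nat_lit 4715911839744) (.ev (nat_lit 1053) (nat_lit 65536) .dd)))) (.br (nat_lit 5) (.ch (nat_lit 4) (.ev
 (nat_lit 1040) (nat_lit 4715878350848) (.ev (nat_lit 1053) (nat_lit 33554432) .dd))) (.br (nat_lit 6) (.ch
 (nat_lit 5) (.ev (nat_lit 1040) (nat_lit 34363998208) (.ev (nat_lit 1152) (nat_lit 8589934592) (.ev (nat_lit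
 1248) (nat_lit 33554432) (.ev (nat_lit 1600) (nat_lit 4672924418048) .dd))))) (.ch (nat_lit 6) (.ev (nat_lit
 1040) (nat_lit 4672958038016) (.ev (nat_lit 1332) (nat_lit 34359738368) (.ev (nat_lit 1344) (nat_lit
 8589934592) (.ev (nat_lit 1357) (nat_lit 4194304) .dd)))))))))))))))) (.ch (nat_lit 24) (.ev (nat_lit 52)
 (nat_lit 288571260960) (.ev (nat_lit 244) (nat_lit 4398046511104) (.ev (nat_lit 468) (nat_lit 8) (.nd (nat_lit
 1024) (.br (nat_lit 7) (.br (nat_lit 5) (.ch (nat_lit 0) (.ev (nat_lit 1040) (nat_lit 105553154080768) (.ev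
 (nat_lit 1168) (nat_lit 68719476736) (.ev (nat_lit 1248) (nat_lit 34359738368) (.ev (nat_lit 1261) (nat_lit
 16384) .dd))))) (.ch (nat_lit 5) (.ev (nat_lit 1040) (nat_lit 68723752960) (.ev (nat_lit 1056) (nat_lit
 34359738368) (.ev (nat_lit 1332) (nat_lit 70368744177664) (.ev (nat_lit 1536) (nat_lit 35184405643264)
 .dd)))))) (.br (nat_lit 8) (.ch (nat_lit 7) (.ev (nat_lit 1040) (nat_lit 35287489069056) (.ev (nat_lit 1136)
 (nat_lit 65536) (.ev (nat_lit 1149) (nat_lit 70368744177664) .dd)))) (.ch (nat_lit 8) (.ev (nat_lit 1040)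
 (nat_lit 70471823474688) (.ev (nat_lit 1380) (nat_lit 33554432) (.ev (nat_lit 1632) (nat_lit 35184376283136)
 .dd)))))))))))))) (.br (nat_lit 27) (.br (nat_lit 26) (.ch (nat_lit 25) (.ev (nat_lit 52) (nat_lit
 378767736872) (.ev (nat_lit 116) (nat_lit 2097152) (.ev (nat_lit 244) (nat_lit 8589934592) (.ev (nat_lit 384)
 (nat_lit 109955491315712) .dd))))) (.ch (nat_lit 26) (.ev (nat_lit 52) (nat_lit 4788889583616) (.ev (nat_lit
 212) (nat_lit 65536) (.ev (nat_lit 276) (nat_lit 4194304) (.ev (nat_lit 372) (nat_lit 536870912) (.nd (nat_lit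
 1024) (.br (nat_lit 4) (.br (nat_lit 2) (.ch (nat_lit 0) (.ev (nat_lit 1040) (nat_lit 105553418272800) (.ev
 (nat_lit 1056) (nat_lit 2097152) (.ev (nat_lit 1069) (nat_lit 8) .dd)))) (.ch (nat_lit 2) (.ev (nat_lit 1040)
 (nat_lit 105553149820936) (.ev (nat_lit 1296) (nat_lit 2097152) (.ev (nat_lit 1398) (nat_lit 268451872)
 .dd))))) (.br (nat_lit 5) (.ch (nat_lit 4) (.ev (nat_lit 1040) (nat_lit 270549000) (.ev (nat_lit 1152)
 (nat_lit 33554432) (.ev (nat_lit 1188) (nat_lit 105553116266496) (.ev (nat_lit 1197) (nat_lit 32) .dd)))))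
 (.br (nat_lit 6) (.ch (nat_lit 5) (.ev (nat_lit 1040) (nat_lit 105553420369952) (.ev (nat_lit 1053) (nat_lit
 8) .dd))) (.ch (nat_lit 6) (.ev (nat_lit 1040) (nat_lit 105553118363688) (.ev (nat_lit 1188) (nat_lit 16384)
 (.ev (nat_lit 1216) (nat_lit 33554432) (.ev (nat_lit 1229) (nat_lit 268435456) .dd))))))))))))))) (.br
 (nat_lit 28) (.ch (nat_lit 27) (.ev (nat_lit 52) (nat_lit 4746475749408) (.ev (nat_lit 84) (nat_lit 33554432)
 (.ev (nat_lit 116) (nat_lit 8) (.ev (nat_lit 148) (nat_lit 65536) (.ev (nat_lit 212) (nat_lit 2097152) (.ev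
 (nat_lit 276) (nat_lit 1048576) (.nd (nat_lit 1024) (.br (nat_lit 5) (.br (nat_lit 4) (.ch (nat_lit 0) (.ev
 (nat_lit 1040) (nat_lit 105561978830848) (.ev (nat_lit 1053) (nat_lit 34359738368) .dd))) (.ch (nat_lit 4)
 (.ev (nat_lit 1040) (nat_lit 34632368128) (.ev (nat_lit 1088) (nat_lit 35184372088832) (.ev (nat_lit 1200)
 (nat_lit 70368744177664) (.ev (nat_lit 1213) (nat_lit 8589934592) .dd)))))) (.br (nat_lit 6) (.ch (nat_lit 5)
 (.ev (nat_lit 1040) (nat_lit 105553388896256) (.ev (nat_lit 1136) (nat_lit 42949672960) .dd))) (.br (nat_lit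
 7) (.ch (nat_lit 6) (.ev (nat_lit 1040) (nat_lit 105553116266496) (.ev (nat_lit 1104) (nat_lit 34359738368)
 (.ev (nat_lit 1216) (nat_lit 8589934592) (.fin (nat_lit 576461302059713084)))))) (.ch (nat_lit 7) (.ev
 (nat_lit 1040) (nat_lit 35227594391552) (.ev (nat_lit 1053) (nat_lit 70368744177664) .dd)))))))))))))) (.br
 (nat_lit 29) (.ch (nat_lit 28) (.ev (nat_lit 52) (nat_lit 70750996267048) (.ev (nat_lit 224) (nat_lit
 39591854817280) .dd))) (.ch (nat_lit 29) (.ev (nat_lit 52) (nat_lit 105600938688512) (.ev (nat_lit 84)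
 (nat_lit 32) (.ev (nat_lit 116) (nat_lit 68719476736) (.ev (nat_lit 276) (nat_lit 268435456) (.ev (nat_lit
 480) (nat_lit 4672924483592) .dd)))))))))))))

/-- The trie. -/
noncomputable def T : Tr := .nd (nat_lit 1000000) (.br (nat_lit 4) (.br (nat_lit 1) (.ch (nat_lit 0) (.ev
 (nat_lit 0) (nat_lit 140737488355327) .dd)) (.ch (nat_lit 1) T1)) (.br (nat_lit 5) (.ch (nat_lit 4) T4) (.br
 (nat_lit 10) (.ch (nat_lit 5) (.ev (nat_lit 0) (nat_lit 140737488355327) .dd)) (.ch (nat_lit 10) (.ev (nat_lit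
 0) (nat_lit 140737488355327) .dd)))))

/-- The possible values. -/
noncomputable def oks : List ℕ := [3, 34]

/-- The parameters. -/
noncomputable def S : Pr := ⟨fun i l e => lget mz (lget [] (lget [] tabs i) l) e, oks, [(nat_lit 0), (nat_lit
 1), (nat_lit 0)], T, (nat_lit 140737488355327), (nat_lit 12800101590481), (nat_lit 47), [(nat_lit 1057),
 (nat_lit 1073946281)], [(nat_lit 121), (nat_lit 961)]⟩

/-- Nothing known. -/
noncomputable def cs0 : Cs := (.cons (nat_lit 11) (nat_lit 0) (nat_lit 1) (.cons (nat_lit 31) (nat_lit 0) (nat_lit 1) .nil))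

theorem part_1 : part S cs0 (nat_lit 1) = true := by decide +kernel

theorem part_4 : part S cs0 (nat_lit 4) = true := by decide +kernel

/-- Data of a prime. -/
noncomputable def D0 : PD := ⟨(nat_lit 11), (nat_lit 2), (12, 3, 3), (46, 69, 43), (105, 106, 86)⟩

theorem D0_ok : D0.Ok := pdb_sound (s := 1) (C := ⟨⟨9, -6, -17, -1, -14, 8, -4, -1, -1⟩, (9, 10, 7)⟩) (by show Nat.Prime 11; norm_num) (by decide +kernel)

/-- Lines of the first type. -/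
noncomputable def Cl0 : List C1 := [⟨⟨-9, 6, -8, 1, 14, 7, 4, 1, -5⟩, (4, 2, 8)⟩,
  ⟨⟨0, 0, 0, 0, 0, 0, 0, 0, 0⟩, (0, 0, 0)⟩,
  ⟨⟨0, 0, 0, 0, 0, 0, 0, 0, 0⟩, (0, 0, 0)⟩,
  ⟨⟨0, 0, 0, 0, 0, 0, 0, 0, 0⟩, (0, 0, 0)⟩,
  ⟨⟨0, 0, 0, 0, 0, 0, 0, 0, 0⟩, (0, 0, 0)⟩,
  ⟨⟨9, 6, -17, -1, 14, 8, -4, 1, -1⟩, (8, 4, 5)⟩,
  ⟨⟨0, 0, 0, 0, 0, 0, 0, 0, 0⟩, (0, 0, 0)⟩,
  ⟨⟨0, 0, 0, 0, 0, 0, 0, 0, 0⟩, (0, 0, 0)⟩,
  ⟨⟨0, 0, 0, 0, 0, 0, 0, 0, 0⟩, (0, 0, 0)⟩,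
  ⟨⟨0, 0, 0, 0, 0, 0, 0, 0, 0⟩, (0, 0, 0)⟩,
  ⟨⟨-9, -6, -8, 1, -14, 7, 4, -1, -5⟩, (7, 9, 3)⟩]

/-- Data of a prime. -/
noncomputable def D1 : PD := ⟨(nat_lit 31), (nat_lit 2), (435, 8, 13), (281, 829, 278), (666, 926, 286)⟩

theorem D1_ok : D1.Ok := pdb_sound (s := 3) (C := ⟨⟨11, 26, -43, -19, 34, 32, -12, -3, -1⟩, (11, 12, 19)⟩) (by show Nat.Prime 31; norm_num) (by decide +kernel)

/-- Lines of the first type. -/
noncomputable def Cl1 : List C1 := [⟨⟨-11, -26, -32, 19, -34, 13, 12, 3, -13⟩, (22, 24, 7)⟩,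
  ⟨⟨0, 0, 0, 0, 0, 0, 0, 0, 0⟩, (0, 0, 0)⟩,
  ⟨⟨0, 0, 0, 0, 0, 0, 0, 0, 0⟩, (0, 0, 0)⟩,
  ⟨⟨29, 26, -37, 21, 6, 32, 8, -11, -7⟩, (2, 10, 23)⟩,
  ⟨⟨0, 0, 0, 0, 0, 0, 0, 0, 0⟩, (0, 0, 0)⟩,
  ⟨⟨21, 6, -53, 29, 26, 8, 8, -11, -1⟩, (6, 26, 20)⟩,
  ⟨⟨0, 0, 0, 0, 0, 0, 0, 0, 0⟩, (0, 0, 0)⟩,
  ⟨⟨29, -26, -37, 21, -6, 32, 8, 11, -7⟩, (27, 11, 16)⟩,
  ⟨⟨0, 0, 0, 0, 0, 0, 0, 0, 0⟩, (0, 0, 0)⟩,
  ⟨⟨-9, -6, -43, -41, 14, 28, 4, 13, -5⟩, (4, 1, 12)⟩,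
  ⟨⟨9, -6, -52, -41, -14, 13, -4, 13, -1⟩, (29, 16, 25)⟩,
  ⟨⟨21, -6, -53, 29, -26, 8, 8, 11, -1⟩, (7, 20, 13)⟩,
  ⟨⟨9, 6, -52, -41, 14, 13, -4, -13, -1⟩, (28, 24, 22)⟩,
  ⟨⟨0, 0, 0, 0, 0, 0, 0, 0, 0⟩, (0, 0, 0)⟩,
  ⟨⟨0, 0, 0, 0, 0, 0, 0, 0, 0⟩, (0, 0, 0)⟩,
  ⟨⟨0, 0, 0, 0, 0, 0, 0, 0, 0⟩, (0, 0, 0)⟩,
  ⟨⟨11, -26, -43, -19, -34, 32, -12, 3, -1⟩, (25, 16, 15)⟩,
  ⟨⟨-9, 6, -43, -41, -14, 28, 4, -13, -5⟩, (3, 24, 9)⟩,
  ⟨⟨0, 0, 0, 0, 0, 0, 0, 0, 0⟩, (0, 0, 0)⟩,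
  ⟨⟨0, 0, 0, 0, 0, 0, 0, 0, 0⟩, (0, 0, 0)⟩,
  ⟨⟨0, 0, 0, 0, 0, 0, 0, 0, 0⟩, (0, 0, 0)⟩,
  ⟨⟨0, 0, 0, 0, 0, 0, 0, 0, 0⟩, (0, 0, 0)⟩,
  ⟨⟨0, 0, 0, 0, 0, 0, 0, 0, 0⟩, (0, 0, 0)⟩,
  ⟨⟨0, 0, 0, 0, 0, 0, 0, 0, 0⟩, (0, 0, 0)⟩,
  ⟨⟨0, 0, 0, 0, 0, 0, 0, 0, 0⟩, (0, 0, 0)⟩,
  ⟨⟨0, 0, 0, 0, 0, 0, 0, 0, 0⟩, (0, 0, 0)⟩,
  ⟨⟨0, 0, 0, 0, 0, 0, 0, 0, 0⟩, (0, 0, 0)⟩,
  ⟨⟨0, 0, 0, 0, 0, 0, 0, 0, 0⟩, (0, 0, 0)⟩,
  ⟨⟨0, 0, 0, 0, 0, 0, 0, 0, 0⟩, (0, 0, 0)⟩,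
  ⟨⟨0, 0, 0, 0, 0, 0, 0, 0, 0⟩, (0, 0, 0)⟩,
  ⟨⟨-11, 26, -32, 19, 34, 13, 12, -3, -13⟩, (28, 8, 23)⟩]

/-- Data of a prime. -/
noncomputable def Dm : PD := ⟨(nat_lit 47), (nat_lit 2), (1034, 1, 9), (105, 517, 2039), (987, 5, 190)⟩

theorem Dm_ok : Dm.Ok := pdb_sound (s := 1) (C := ⟨⟨47, 2, -76, 47, -2, 29, 0, -21, -1⟩, (2, 45, 26)⟩) (by show Nat.Prime 47; norm_num) (by decide +kernel)

/-- Lines of the first type. -/
noncomputable def Clm : List C1 := [⟨⟨47, -2, -76, 47, 2, 29, 0, 21, -1⟩, (9, 38, 23)⟩,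
  ⟨⟨0, 0, 0, 0, 0, 0, 0, 0, 0⟩, (0, 0, 0)⟩,
  ⟨⟨0, 0, 0, 0, 0, 0, 0, 0, 0⟩, (0, 0, 0)⟩,
  ⟨⟨0, 0, 0, 0, 0, 0, 0, 0, 0⟩, (0, 0, 0)⟩,
  ⟨⟨17, 22, -76, -63, 18, 19, -4, -19, -7⟩, (10, 21, 17)⟩,
  ⟨⟨0, 0, 0, 0, 0, 0, 0, 0, 0⟩, (0, 0, 0)⟩,
  ⟨⟨57, -18, -61, -23, -62, 4, -8, 5, -17⟩, (3, 26, 7)⟩,
  ⟨⟨57, 18, -61, -23, 62, 4, -8, -5, -17⟩, (16, 29, 6)⟩,
  ⟨⟨53, -22, -64, -13, -62, 29, -12, -3, -13⟩, (46, 10, 2)⟩,
  ⟨⟨0, 0, 0, 0, 0, 0, 0, 0, 0⟩, (0, 0, 0)⟩,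
  ⟨⟨43, -38, -59, 3, -42, 56, -16, -11, -1⟩, (35, 9, 46)⟩,
  ⟨⟨0, 0, 0, 0, 0, 0, 0, 0, 0⟩, (0, 0, 0)⟩,
  ⟨⟨0, 0, 0, 0, 0, 0, 0, 0, 0⟩, (0, 0, 0)⟩,
  ⟨⟨-17, -22, -59, -63, 18, 44, 4, 19, -11⟩, (15, 39, 2)⟩,
  ⟨⟨0, 0, 0, 0, 0, 0, 0, 0, 0⟩, (0, 0, 0)⟩,
  ⟨⟨0, 0, 0, 0, 0, 0, 0, 0, 0⟩, (0, 0, 0)⟩,
  ⟨⟨0, 0, 0, 0, 0, 0, 0, 0, 0⟩, (0, 0, 0)⟩,
  ⟨⟨53, 22, -64, -13, 62, 29, -12, 3, -13⟩, (41, 13, 12)⟩,
  ⟨⟨0, 0, 0, 0, 0, 0, 0, 0, 0⟩, (0, 0, 0)⟩,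
  ⟨⟨0, 0, 0, 0, 0, 0, 0, 0, 0⟩, (0, 0, 0)⟩,
  ⟨⟨0, 0, 0, 0, 0, 0, 0, 0, 0⟩, (0, 0, 0)⟩,
  ⟨⟨0, 0, 0, 0, 0, 0, 0, 0, 0⟩, (0, 0, 0)⟩,
  ⟨⟨0, 0, 0, 0, 0, 0, 0, 0, 0⟩, (0, 0, 0)⟩,
  ⟨⟨43, 38, -59, 3, 42, 56, -16, 11, -1⟩, (5, 8, 20)⟩,
  ⟨⟨3, -42, -59, 43, -38, 16, 16, 11, -17⟩, (39, 42, 20)⟩,
  ⟨⟨0, 0, 0, 0, 0, 0, 0, 0, 0⟩, (0, 0, 0)⟩,
  ⟨⟨0, 0, 0, 0, 0, 0, 0, 0, 0⟩, (0, 0, 0)⟩,
  ⟨⟨0, 0, 0, 0, 0, 0, 0, 0, 0⟩, (0, 0, 0)⟩,
  ⟨⟨0, 0, 0, 0, 0, 0, 0, 0, 0⟩, (0, 0, 0)⟩,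
  ⟨⟨0, 0, 0, 0, 0, 0, 0, 0, 0⟩, (0, 0, 0)⟩,
  ⟨⟨-13, -62, -16, 53, -22, 11, 12, 3, -25⟩, (34, 6, 12)⟩,
  ⟨⟨0, 0, 0, 0, 0, 0, 0, 0, 0⟩, (0, 0, 0)⟩,
  ⟨⟨0, 0, 0, 0, 0, 0, 0, 0, 0⟩, (0, 0, 0)⟩,
  ⟨⟨0, 0, 0, 0, 0, 0, 0, 0, 0⟩, (0, 0, 0)⟩,
  ⟨⟨17, -22, -76, -63, -18, 19, -4, 19, -7⟩, (15, 8, 2)⟩,
  ⟨⟨0, 0, 0, 0, 0, 0, 0, 0, 0⟩, (0, 0, 0)⟩,
  ⟨⟨0, 0, 0, 0, 0, 0, 0, 0, 0⟩, (0, 0, 0)⟩,
  ⟨⟨3, 42, -59, 43, 38, 16, 16, -11, -17⟩, (38, 12, 46)⟩,
  ⟨⟨0, 0, 0, 0, 0, 0, 0, 0, 0⟩, (0, 0, 0)⟩,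
  ⟨⟨-13, 62, -16, 53, 22, 11, 12, -3, -25⟩, (37, 1, 2)⟩,
  ⟨⟨23, 62, -19, 57, -18, 4, 8, -5, -25⟩, (29, 31, 6)⟩,
  ⟨⟨23, -62, -19, 57, 18, 4, 8, 5, -25⟩, (26, 44, 7)⟩,
  ⟨⟨0, 0, 0, 0, 0, 0, 0, 0, 0⟩, (0, 0, 0)⟩,
  ⟨⟨-17, 22, -59, -63, -18, 44, 4, -19, -11⟩, (10, 26, 17)⟩,
  ⟨⟨0, 0, 0, 0, 0, 0, 0, 0, 0⟩, (0, 0, 0)⟩,
  ⟨⟨0, 0, 0, 0, 0, 0, 0, 0, 0⟩, (0, 0, 0)⟩,
  ⟨⟨0, 0, 0, 0, 0, 0, 0, 0, 0⟩, (0, 0, 0)⟩]

/-- Unit moves. -/
noncomputable def U : List Mv := [mz,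
  mz,
  ⟨⟨-1, 0, 1, 0, 1, 0, 0, 0, 1⟩, .nil, (nat_lit 10), (nat_lit 5), (nat_lit 1), (nat_lit 1), (0, 0, 0), [], 6⟩,
  ⟨⟨1, 0, 0, 0, -1, 0, 0, 0, 1⟩, .nil, (nat_lit 10), (nat_lit 10), (nat_lit 2), (nat_lit 1), (0, 0, 0), [], 10⟩,
  mz,
  mz,
  ⟨⟨-1, 0, 1, 0, -1, 0, 0, 0, 1⟩, .nil, (nat_lit 0), (nat_lit 6), (nat_lit 1), (nat_lit 0), (0, 0, 0), [], 5⟩,
  ⟨⟨-1, 0, 1, 0, -1, 0, 0, 0, 1⟩, .nil, (nat_lit 0), (nat_lit 6), (nat_lit 1), (nat_lit 0), (0, 0, 0), [], 5⟩,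
  ⟨⟨1, 0, 0, 0, -1, 0, 0, 0, 1⟩, .nil, (nat_lit 10), (nat_lit 10), (nat_lit 2), (nat_lit 1), (0, 0, 0), [], 10⟩,
  ⟨⟨-1, 0, 1, 0, 1, 0, 0, 0, 1⟩, .nil, (nat_lit 10), (nat_lit 5), (nat_lit 1), (nat_lit 1), (0, 0, 0), [], 6⟩,
  mz]

theorem v_ty : tyb Dm S.ty1 Clm = true := by decide +kernel

theorem v_ty0 : tyb D0 (S.tys.getD 0 0) Cl0 = true := by decide +kernel

theorem v_ty1 : tyb D1 (S.tys.getD 1 0) Cl1 = true := by decide +kernel

theorem v_msc : mscb S D0 [D1] Dm (nat_lit 18) = true := by decide +kernel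

theorem v_mv0 : mvsn (nat_lit 256864729) S D0 [D1] Dm (nat_lit 18) 0 D0 = true := by decide +kernel

theorem v_mv1 : mvsn (nat_lit 256864729) S D0 [D1] Dm (nat_lit 18) 1 D1 = true := by decide +kernel

theorem v_mm : mmsn (nat_lit 256864729) S D0 [D1] Dm (nat_lit 18) = true := by decide +kernel

theorem v_un : unb S D0 (nat_lit 18) U = true := by decide +kernel

theorem v_ok : okb S.oks [(0, 0, 0), (0, 0, 0)] = true := by decide +kernel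

theorem v_part : ∀ d < D0.p, (nat_lit 18).testBit d = true → part S (zc (D0 :: [D1])) d = true := by
  intro d hd h
  have h1 : ∀ d < 11, (nat_lit 18).testBit d = true → d = 1 ∨ d = 4 := by decide
  rcases h1 d hd h with rfl | rfl
  · exact part_1
  · exact part_4

theorem main (n : ℕ) (ho : Odd n) (hr : ¬ Rep n) (h0 : Split 11 n) (h1 : Split 31 n) (hm : Split 47 n) :
    n ∈ EE := by
  refine concln (W := nat_lit 256864729) (S := S) (P0 := D0) (Pl := [D1]) (Pm := Dm) (cn := nat_lit 18) ?_ Dm_ok v_ty ?_ ?_ v_msc ?_ v_mm v_un v_part v_ok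
    n ho hr ?_ hm
  · simp only [List.forall_mem_cons]
    exact ⟨D0_ok, D1_ok, fun _ h => absurd h (by simp)⟩
  · exact all2 (φ := fun j P => ∃ L, tyb P (S.tys.getD j 0) L = true) ⟨_, v_ty0⟩ ⟨_, v_ty1⟩
  · exact all2 (φ := fun j P => Nat.ble (S.pks.getD j 0) (Nat.pow P.p P.K) = true) (by decide +kernel) (by decide +kernel)
  · exact all2 (φ := fun i P => mvsn (nat_lit 256864729) S D0 [D1] Dm (nat_lit 18) i P = true) v_mv0 v_mv1
  · simp only [List.forall_mem_cons]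
    exact ⟨h0, h1, fun _ h => absurd h (by simp)⟩

end Pool.Agent.Work.MP_9954fe_nt.P11_31_47

namespace Pool.Agent.Work.MP_9954fe_nt.P11_53_31

/-- Dummy move. -/
noncomputable def mz : Mv := ⟨⟨0, 0, 0, 0, 0, 0, 0, 0, 0⟩, .nil, (nat_lit 0), (nat_lit 0), (nat_lit 0), (nat_lit 0), (0, 0, 0), [], 0⟩

/-- Moves. -/
noncomputable def t0_1 : List Mv := [
  ⟨⟨3, 8, -11, -10, -1, 0, 4, -4, -11⟩, (.cons (nat_lit 15242817) (nat_lit 6282365) (nat_lit 2311098) (nat_lit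
 1) (.cons (nat_lit 287480) (nat_lit 2094015) (nat_lit 7310376) (nat_lit 1) .nil)), (nat_lit 12), (nat_lit 16),
 (nat_lit 21), (nat_lit 1), (4, 5, 9), [14831522, 176098], 30⟩,
  ⟨⟨3, 8, -11, 10, 1, 0, 4, -4, -11⟩, (.cons (nat_lit 6190604) (nat_lit 17063049) (nat_lit 6190617) (nat_lit 1)
 (.cons (nat_lit 527600) (nat_lit 2036098) (nat_lit 4606980) (nat_lit 1) .nil)), (nat_lit 11), (nat_lit 16),
 (nat_lit 1), (nat_lit 0), (4, 6, 9), [1, 4359402], 10⟩,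
  ⟨⟨1, -12, 0, 10, 1, 0, 4, -4, -11⟩, (.cons (nat_lit 13486901) (nat_lit 18743973) (nat_lit 18743974) (nat_lit
 1) (.cons (nat_lit 1239485) (nat_lit 242418) (nat_lit 5910669) (nat_lit 1) .nil)), (nat_lit 10), (nat_lit 30),
 (nat_lit 24), (nat_lit 1), (5, 6, 9), [4149452, 2454531], 29⟩,
  ⟨⟨1, -12, 0, -10, -1, 0, 4, -4, -11⟩, (.cons (nat_lit 10749318) (nat_lit 19050803) (nat_lit 10749329)
 (nat_lit 1) (.cons (nat_lit 7890480) (nat_lit 258037) (nat_lit 7551339) (nat_lit 1) .nil)), (nat_lit 30),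
 (nat_lit 0), (nat_lit 22), (nat_lit 1), (5, 5, 9), [14450835, 125745], 20⟩,
  ⟨⟨1, -12, 0, -10, -1, 0, 4, -4, -11⟩, (.cons (nat_lit 10749318) (nat_lit 19050803) (nat_lit 10749329)
 (nat_lit 1) (.cons (nat_lit 7890480) (nat_lit 258037) (nat_lit 7551339) (nat_lit 1) .nil)), (nat_lit 30),
 (nat_lit 0), (nat_lit 22), (nat_lit 1), (5, 5, 9), [14450835, 125745], 20⟩,
  ⟨⟨1, -12, 0, 10, 1, 0, 4, -4, -11⟩, (.cons (nat_lit 13486901) (nat_lit 18743973) (nat_lit 18743974) (nat_lit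
 1) (.cons (nat_lit 1239485) (nat_lit 242418) (nat_lit 5910669) (nat_lit 1) .nil)), (nat_lit 10), (nat_lit 30),
 (nat_lit 24), (nat_lit 1), (5, 6, 9), [4149452, 2454531], 29⟩,
  ⟨⟨1, -12, 0, -10, -1, 0, 4, -4, -11⟩, (.cons (nat_lit 10749318) (nat_lit 19050803) (nat_lit 10749329)
 (nat_lit 1) (.cons (nat_lit 7890480) (nat_lit 258037) (nat_lit 7551339) (nat_lit 1) .nil)), (nat_lit 30),
 (nat_lit 0), (nat_lit 22), (nat_lit 1), (5, 5, 9), [14450835, 125745], 20⟩,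
  ⟨⟨3, 8, -11, 10, 1, 0, 4, -4, -11⟩, (.cons (nat_lit 6190604) (nat_lit 17063049) (nat_lit 6190617) (nat_lit 1)
 (.cons (nat_lit 527600) (nat_lit 2036098) (nat_lit 4606980) (nat_lit 1) .nil)), (nat_lit 11), (nat_lit 16),
 (nat_lit 1), (nat_lit 0), (4, 6, 9), [1, 4359402], 10⟩,
  ⟨⟨1, -12, 0, -10, -1, 0, 4, -4, -11⟩, (.cons (nat_lit 10749318) (nat_lit 19050803) (nat_lit 10749329)
 (nat_lit 1) (.cons (nat_lit 7890480) (nat_lit 258037) (nat_lit 7551339) (nat_lit 1) .nil)), (nat_lit 30),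
 (nat_lit 0), (nat_lit 22), (nat_lit 1), (5, 5, 9), [14450835, 125745], 20⟩,
  ⟨⟨3, 8, -11, -10, -1, 0, 4, -4, -11⟩, (.cons (nat_lit 15242817) (nat_lit 6282365) (nat_lit 2311098) (nat_lit
 1) (.cons (nat_lit 287480) (nat_lit 2094015) (nat_lit 7310376) (nat_lit 1) .nil)), (nat_lit 12), (nat_lit 16),
 (nat_lit 21), (nat_lit 1), (4, 5, 9), [14831522, 176098], 30⟩,
  ⟨⟨1, -12, 0, -10, -1, 0, 4, -4, -11⟩, (.cons (nat_lit 10749318) (nat_lit 19050803) (nat_lit 10749329)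
 (nat_lit 1) (.cons (nat_lit 7890480) (nat_lit 258037) (nat_lit 7551339) (nat_lit 1) .nil)), (nat_lit 30),
 (nat_lit 0), (nat_lit 22), (nat_lit 1), (5, 5, 9), [14450835, 125745], 20⟩]

/-- Moves. -/
noncomputable def t0_4 : List Mv := [
  ⟨⟨-11, 0, 0, -4, 5, 12, -2, 8, -5⟩, (.cons (nat_lit 4611151) (nat_lit 18672974) (nat_lit 10896376) (nat_lit
 1) (.cons (nat_lit 7890480) (nat_lit 2312121) (nat_lit 7364617) (nat_lit 1) .nil)), (nat_lit 30), (nat_lit 9),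
 (nat_lit 13), (nat_lit 1), (0, 5, 8), [13330250, 5301720], 4⟩,
  ⟨⟨9, 8, -5, 4, -5, -12, -2, 8, -5⟩, (.cons (nat_lit 6586237) (nat_lit 5980849) (nat_lit 18545247) (nat_lit 1)
 (.cons (nat_lit 2187015) (nat_lit 836166) (nat_lit 644255) (nat_lit 1) .nil)), (nat_lit 1), (nat_lit 12),
 (nat_lit 24), (nat_lit 1), (8, 6, 8), [4509665, 6227092], 5⟩,
  ⟨⟨9, 8, -5, 4, -5, -12, -2, 8, -5⟩, (.cons (nat_lit 6586237) (nat_lit 5980849) (nat_lit 18545247) (nat_lit 1)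
 (.cons (nat_lit 2187015) (nat_lit 836166) (nat_lit 644255) (nat_lit 1) .nil)), (nat_lit 1), (nat_lit 12),
 (nat_lit 24), (nat_lit 1), (8, 6, 8), [4509665, 6227092], 5⟩,
  ⟨⟨9, 8, -5, 4, -5, -12, -2, 8, -5⟩, (.cons (nat_lit 6586237) (nat_lit 5980849) (nat_lit 18545247) (nat_lit 1)
 (.cons (nat_lit 2187015) (nat_lit 836166) (nat_lit 644255) (nat_lit 1) .nil)), (nat_lit 1), (nat_lit 12),
 (nat_lit 24), (nat_lit 1), (8, 6, 8), [4509665, 6227092], 5⟩,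
  ⟨⟨9, 8, -5, -4, 5, 12, -2, 8, -5⟩, (.cons (nat_lit 19404713) (nat_lit 11515759) (nat_lit 5642825) (nat_lit 1)
 (.cons (nat_lit 4104370) (nat_lit 812116) (nat_lit 2247650) (nat_lit 1) .nil)), (nat_lit 24), (nat_lit 10),
 (nat_lit 26), (nat_lit 1), (8, 5, 8), [18598650, 4557440], 23⟩,
  ⟨⟨-11, 0, 0, 4, -5, -12, -2, 8, -5⟩, (.cons (nat_lit 14857472) (nat_lit 1937884) (nat_lit 16472565) (nat_lit
 1) (.cons (nat_lit 4326135) (nat_lit 1443170) (nat_lit 2662721) (nat_lit 1) .nil)), (nat_lit 8), (nat_lit 17),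
 (nat_lit 21), (nat_lit 1), (0, 6, 8), [9454230, 1216179], 26⟩,
  ⟨⟨9, 8, -5, 4, -5, -12, -2, 8, -5⟩, (.cons (nat_lit 6586237) (nat_lit 5980849) (nat_lit 18545247) (nat_lit 1)
 (.cons (nat_lit 2187015) (nat_lit 836166) (nat_lit 644255) (nat_lit 1) .nil)), (nat_lit 1), (nat_lit 12),
 (nat_lit 24), (nat_lit 1), (8, 6, 8), [4509665, 6227092], 5⟩,
  ⟨⟨9, 8, -5, -4, 5, 12, -2, 8, -5⟩, (.cons (nat_lit 19404713) (nat_lit 11515759) (nat_lit 5642825) (nat_lit 1)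
 (.cons (nat_lit 4104370) (nat_lit 812116) (nat_lit 2247650) (nat_lit 1) .nil)), (nat_lit 24), (nat_lit 10),
 (nat_lit 26), (nat_lit 1), (8, 5, 8), [18598650, 4557440], 23⟩,
  ⟨⟨-11, 0, 0, 4, -5, -12, -2, 8, -5⟩, (.cons (nat_lit 14857472) (nat_lit 1937884) (nat_lit 16472565) (nat_lit
 1) (.cons (nat_lit 4326135) (nat_lit 1443170) (nat_lit 2662721) (nat_lit 1) .nil)), (nat_lit 8), (nat_lit 17),
 (nat_lit 21), (nat_lit 1), (0, 6, 8), [9454230, 1216179], 26⟩,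
  ⟨⟨9, 8, -5, 4, -5, -12, -2, 8, -5⟩, (.cons (nat_lit 6586237) (nat_lit 5980849) (nat_lit 18545247) (nat_lit 1)
 (.cons (nat_lit 2187015) (nat_lit 836166) (nat_lit 644255) (nat_lit 1) .nil)), (nat_lit 1), (nat_lit 12),
 (nat_lit 24), (nat_lit 1), (8, 6, 8), [4509665, 6227092], 5⟩,
  ⟨⟨9, 8, -5, 4, -5, -12, -2, 8, -5⟩, (.cons (nat_lit 6586237) (nat_lit 5980849) (nat_lit 18545247) (nat_lit 1)
 (.cons (nat_lit 2187015) (nat_lit 836166) (nat_lit 644255) (nat_lit 1) .nil)), (nat_lit 1), (nat_lit 12),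
 (nat_lit 24), (nat_lit 1), (8, 6, 8), [4509665, 6227092], 5⟩]

/-- Moves. -/
noncomputable def t1_1 : List Mv := [
  mz,
  mz,
  mz,
  mz,
  ⟨⟨51, 20, -47, 10, -47, -30, -2, 20, -47⟩, (.cons (nat_lit 19135869) (nat_lit 14286497) (nat_lit 1) (nat_lit
 16541591) (.cons (nat_lit 2854593) (nat_lit 775833) (nat_lit 7029246) (nat_lit 1) .nil)), (nat_lit 23),
 (nat_lit 30), (nat_lit 29), (nat_lit 1), (24, 39, 24), [15830616, 3566787], 28⟩,
  ⟨⟨51, -20, -47, -10, -47, 30, -2, -20, -47⟩, (.cons (nat_lit 1148745) (nat_lit 12961805) (nat_lit 14485044)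
 (nat_lit 1) (.cons (nat_lit 7706101) (nat_lit 1363439) (nat_lit 7460656) (nat_lit 1) .nil)), (nat_lit 15),
 (nat_lit 15), (nat_lit 30), (nat_lit 1), (12, 7, 12), [7945035, 6069444], 9⟩,
  ⟨⟨25, -48, -36, -28, 5, -36, 40, 8, -47⟩, (.cons (nat_lit 616200) (nat_lit 12285234) (nat_lit 19155945)
 (nat_lit 1) (.cons (nat_lit 6557244) (nat_lit 2488151) (nat_lit 4864254) (nat_lit 1) .nil)), (nat_lit 12),
 (nat_lit 0), (nat_lit 3), (nat_lit 1), (37, 37, 38), [9951393, 3865803], 16⟩,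
  mz,
  mz,
  ⟨⟨-33, -20, -32, -8, -45, 34, 24, -24, -49⟩, (.cons (nat_lit 14046973) (nat_lit 1113906) (nat_lit 14363631)
 (nat_lit 1) (.cons (nat_lit 3228686) (nat_lit 4341650) (nat_lit 1924880) (nat_lit 1) .nil)), (nat_lit 19),
 (nat_lit 29), (nat_lit 27), (nat_lit 1), (35, 39, 42), [15953581, 4305531], 6⟩,
  ⟨⟨-15, -56, 4, -28, 5, 64, -40, -8, -7⟩, (.cons (nat_lit 8632443) (nat_lit 2900729) (nat_lit 6435830)
 (nat_lit 1) (.cons (nat_lit 5520281) (nat_lit 2707339) (nat_lit 5903063) (nat_lit 1) .nil)), (nat_lit 13),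
 (nat_lit 27), (nat_lit 0), (nat_lit 1), (10, 1, 9), [12379194, 6101311], 7⟩,
  ⟨⟨15, -32, 44, 50, 17, -30, 14, -44, -19⟩, (.cons (nat_lit 1132989) (nat_lit 12993913) (nat_lit 6417469)
 (nat_lit 1) (.cons (nat_lit 6892726) (nat_lit 5526891) (nat_lit 446713) (nat_lit 1) .nil)), (nat_lit 16),
 (nat_lit 28), (nat_lit 12), (nat_lit 1), (29, 26, 20), [11492911, 3552138], 3⟩,
  ⟨⟨53, 0, -53, -10, -47, -20, 2, 20, -49⟩, (.cons (nat_lit 3132957) (nat_lit 11785898) (nat_lit 2291536)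
 (nat_lit 1) (.cons (nat_lit 5361064) (nat_lit 6078105) (nat_lit 3878160) (nat_lit 1) .nil)), (nat_lit 29),
 (nat_lit 30), (nat_lit 29), (nat_lit 1), (0, 25, 48), [16496526, 6804044], 5⟩,
  mz,
  mz,
  ⟨⟨-51, -20, 4, -10, 47, -20, 2, -20, -49⟩, (.cons (nat_lit 19487170) (nat_lit 6303291) (nat_lit 3382434)
 (nat_lit 1) (.cons (nat_lit 4314151) (nat_lit 6999064) (nat_lit 3443806) (nat_lit 1) .nil)), (nat_lit 30),
 (nat_lit 4), (nat_lit 1), (nat_lit 1), (36, 32, 36), [8668387, 989393], 14⟩,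
  ⟨⟨31, -48, -27, 10, 17, -60, 46, 4, -11⟩, (.cons (nat_lit 14090575) (nat_lit 8773878) (nat_lit 7240833)
 (nat_lit 1) (.cons (nat_lit 545572) (nat_lit 727136) (nat_lit 1) (nat_lit 1207340) .nil)), (nat_lit 21),
 (nat_lit 11), (nat_lit 8), (nat_lit 1), (39, 16, 10), [7008986, 707945], 14⟩,
  ⟨⟨31, -48, -4, 10, 17, 50, 46, 4, -35⟩, (.cons (nat_lit 5945446) (nat_lit 10245958) (nat_lit 357680) (nat_lit
 1) (.cons (nat_lit 5298735) (nat_lit 6124146) (nat_lit 1616335) (nat_lit 1) .nil)), (nat_lit 5), (nat_lit 22),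
 (nat_lit 23), (nat_lit 1), (18, 40, 25), [14359943, 2578308], 17⟩,
  ⟨⟨-57, -4, 40, 8, -45, 26, -24, -24, -25⟩, (.cons (nat_lit 789006) (nat_lit 15166654) (nat_lit 2297576)
 (nat_lit 1) (.cons (nat_lit 6547170) (nat_lit 3001802) (nat_lit 1491073) (nat_lit 1) .nil)), (nat_lit 6),
 (nat_lit 25), (nat_lit 19), (nat_lit 1), (12, 29, 19), [8102676, 347683], 26⟩,
  mz,
  mz,
  ⟨⟨-33, 20, -32, 8, -45, -34, 24, 24, -49⟩, (.cons (nat_lit 9525400) (nat_lit 7991636) (nat_lit 9781544)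
 (nat_lit 1) (.cons (nat_lit 1323067) (nat_lit 1259898) (nat_lit 7815040) (nat_lit 1) .nil)), (nat_lit 26),
 (nat_lit 1), (nat_lit 2), (nat_lit 1), (47, 40, 14), [482050, 7336522], 30⟩,
  ⟨⟨45, 28, -49, 28, -45, -14, 0, 0, -53⟩, (.cons (nat_lit 19487170) (nat_lit 17691378) (nat_lit 14361664)
 (nat_lit 1) (.cons (nat_lit 3517226) (nat_lit 6386058) (nat_lit 1235851) (nat_lit 1) .nil)), (nat_lit 30),
 (nat_lit 4), (nat_lit 8), (nat_lit 1), (24, 22, 0), [7876064, 4257688], 18⟩,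
  mz,
  ⟨⟨-13, 48, -27, 30, -17, -60, 30, 36, -7⟩, (.cons (nat_lit 9594724) (nat_lit 12331346) (nat_lit 1) (nat_lit
 4056833) (.cons (nat_lit 6610459) (nat_lit 6365867) (nat_lit 5197395) (nat_lit 1) .nil)), (nat_lit 9),
 (nat_lit 5), (nat_lit 10), (nat_lit 1), (11, 48, 48), [15955787, 3534223], 3⟩,
  mz,
  ⟨⟨-25, -48, -11, 28, 5, -64, -40, 8, -7⟩, (.cons (nat_lit 11536474) (nat_lit 16636398) (nat_lit 1057867)
 (nat_lit 1) (.cons (nat_lit 6047124) (nat_lit 1824961) (nat_lit 1) (nat_lit 4001235) .nil)), (nat_lit 20),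
 (nat_lit 21), (nat_lit 24), (nat_lit 1), (2, 2, 35), [8851476, 351296], 15⟩,
  mz,
  ⟨⟨-1, -48, 37, -52, -5, 16, 8, -40, -31⟩, (.cons (nat_lit 150352) (nat_lit 16406697) (nat_lit 3243281)
 (nat_lit 1) (.cons (nat_lit 7822685) (nat_lit 1416042) (nat_lit 7449798) (nat_lit 1) .nil)), (nat_lit 23),
 (nat_lit 7), (nat_lit 23), (nat_lit 1), (29, 24, 33), [9295713, 6879005], 2⟩,
  ⟨⟨43, -12, -63, -30, 17, -30, 30, 36, -23⟩, (.cons (nat_lit 16831870) (nat_lit 11655417) (nat_lit 16527536)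
 (nat_lit 1) (.cons (nat_lit 615641) (nat_lit 5686034) (nat_lit 5103288) (nat_lit 1) .nil)), (nat_lit 7),
 (nat_lit 27), (nat_lit 23), (nat_lit 1), (16, 48, 5), [12757615, 4237298], 8⟩,
  mz,
  ⟨⟨-45, 28, -4, -28, -45, 14, 0, 0, -53⟩, (.cons (nat_lit 10130473) (nat_lit 7879166) (nat_lit 3039142)
 (nat_lit 1) (.cons (nat_lit 3655600) (nat_lit 5887883) (nat_lit 2285624) (nat_lit 1) .nil)), (nat_lit 1),
 (nat_lit 10), (nat_lit 11), (nat_lit 1), (14, 4, 0), [19422829, 7307019], 11⟩,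
  mz,
  ⟨⟨-39, 28, -17, 10, -33, -50, 18, 36, -37⟩, (.cons (nat_lit 8127102) (nat_lit 3538313) (nat_lit 16108327)
 (nat_lit 1) (.cons (nat_lit 5420005) (nat_lit 7422346) (nat_lit 1619287) (nat_lit 1) .nil)), (nat_lit 26),
 (nat_lit 14), (nat_lit 28), (nat_lit 1), (43, 8, 25), [1684907, 3950882], 23⟩,
  mz,
  mz,
  ⟨⟨1, -48, 36, -52, 5, 36, -8, -40, -23⟩, (.cons (nat_lit 16466027) (nat_lit 229386) (nat_lit 4275477)
 (nat_lit 1) (.cons (nat_lit 6620983) (nat_lit 6158622) (nat_lit 3916216) (nat_lit 1) .nil)), (nat_lit 13),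
 (nat_lit 0), (nat_lit 23), (nat_lit 1), (41, 41, 43), [13388752, 6588648], 7⟩,
  ⟨⟨-1, 48, 37, 52, -5, -16, 8, 40, -31⟩, (.cons (nat_lit 18133883) (nat_lit 11434718) (nat_lit 11218595)
 (nat_lit 1) (.cons (nat_lit 5119050) (nat_lit 6142234) (nat_lit 3161272) (nat_lit 1) .nil)), (nat_lit 0),
 (nat_lit 10), (nat_lit 8), (nat_lit 1), (26, 26, 4), [14742093, 7145290], 7⟩,
  ⟨⟨-57, 8, 37, 10, 33, 40, -18, 36, -19⟩, (.cons (nat_lit 10774394) (nat_lit 7640825) (nat_lit 16038356)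
 (nat_lit 1) (.cons (nat_lit 442927) (nat_lit 7648795) (nat_lit 7470885) (nat_lit 1) .nil)), (nat_lit 16),
 (nat_lit 29), (nat_lit 3), (nat_lit 1), (40, 6, 21), [14195928, 6316364], 19⟩,
  ⟨⟨15, -56, -11, -28, -5, -36, 40, -8, -47⟩, (.cons (nat_lit 16980637) (nat_lit 10999530) (nat_lit 8920668)
 (nat_lit 1) (.cons (nat_lit 1275306) (nat_lit 3349324) (nat_lit 5008160) (nat_lit 1) .nil)), (nat_lit 27),
 (nat_lit 28), (nat_lit 30), (nat_lit 1), (31, 34, 12), [8949142, 6153873], 1⟩,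
  ⟨⟨-9, -8, -59, 52, 5, -36, -8, 40, -23⟩, (.cons (nat_lit 11162471) (nat_lit 7533529) (nat_lit 19396003)
 (nat_lit 1) (.cons (nat_lit 7273294) (nat_lit 2172787) (nat_lit 2018632) (nat_lit 1) .nil)), (nat_lit 5),
 (nat_lit 23), (nat_lit 1), (nat_lit 1), (29, 15, 14), [18497624, 7873025], 24⟩,
  ⟨⟨31, 48, -4, -10, 17, -50, 46, -4, -35⟩, (.cons (nat_lit 13094847) (nat_lit 2714594) (nat_lit 1) (nat_lit
 13300056) (.cons (nat_lit 6883105) (nat_lit 570559) (nat_lit 2830267) (nat_lit 1) .nil)), (nat_lit 2),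
 (nat_lit 6), (nat_lit 7), (nat_lit 1), (15, 2, 12), [10975123, 1037093], 12⟩,
  ⟨⟨-57, 4, 40, -8, -45, -26, -24, 24, -25⟩, (.cons (nat_lit 14534676) (nat_lit 10144251) (nat_lit 17075484)
 (nat_lit 1) (.cons (nat_lit 3048247) (nat_lit 509608) (nat_lit 406381) (nat_lit 1) .nil)), (nat_lit 18),
 (nat_lit 5), (nat_lit 10), (nat_lit 1), (25, 50, 44), [2216194, 6286556], 22⟩,
  ⟨⟨-1, 12, -63, 50, -17, -30, 14, 44, -19⟩, (.cons (nat_lit 12595465) (nat_lit 10913916) (nat_lit 16528703)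
 (nat_lit 1) (.cons (nat_lit 1773605) (nat_lit 126269) (nat_lit 5642298) (nat_lit 1) .nil)), (nat_lit 3),
 (nat_lit 29), (nat_lit 7), (nat_lit 1), (30, 37, 4), [13423169, 6132586], 29⟩,
  ⟨⟨-15, 32, 59, 50, 17, -20, -14, 44, -5⟩, (.cons (nat_lit 4956014) (nat_lit 12550680) (nat_lit 6791200)
 (nat_lit 1) (.cons (nat_lit 7281819) (nat_lit 7138151) (nat_lit 4780138) (nat_lit 1) .nil)), (nat_lit 25),
 (nat_lit 20), (nat_lit 10), (nat_lit 1), (6, 33, 48), [7035104, 3977989], 25⟩,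
  mz,
  ⟨⟨-13, -48, -27, 30, 17, -60, 30, -36, -7⟩, (.cons (nat_lit 9170433) (nat_lit 18543494) (nat_lit 10753722)
 (nat_lit 1) (.cons (nat_lit 295719) (nat_lit 5096781) (nat_lit 4168007) (nat_lit 1) .nil)), (nat_lit 9),
 (nat_lit 28), (nat_lit 22), (nat_lit 1), (14, 37, 37), [10519046, 5049337], 7⟩,
  ⟨⟨1, -12, -64, 50, -17, -20, -14, -44, -5⟩, (.cons (nat_lit 2485709) (nat_lit 14409897) (nat_lit 3107138)
 (nat_lit 1) (.cons (nat_lit 7293500) (nat_lit 4977554) (nat_lit 2242767) (nat_lit 1) .nil)), (nat_lit 29),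
 (nat_lit 21), (nat_lit 21), (nat_lit 1), (3, 44, 11), [7673338, 5412787], 19⟩,
  ⟨⟨15, -52, 16, -10, 17, 60, 46, -4, -11⟩, (.cons (nat_lit 10191447) (nat_lit 16027074) (nat_lit 11395723)
 (nat_lit 1) (.cons (nat_lit 2170015) (nat_lit 3086532) (nat_lit 6768730) (nat_lit 1) .nil)), (nat_lit 15),
 (nat_lit 26), (nat_lit 26), (nat_lit 1), (14, 26, 50), [535109, 4754291], 3⟩,
  ⟨⟨-39, -28, -17, 10, 33, -50, 18, -36, -37⟩, (.cons (nat_lit 3413138) (nat_lit 4384606) (nat_lit 14961878)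
 (nat_lit 1) (.cons (nat_lit 4568767) (nat_lit 2110641) (nat_lit 6640120) (nat_lit 1) .nil)), (nat_lit 2),
 (nat_lit 28), (nat_lit 8), (nat_lit 1), (5, 49, 14), [6010732, 1703946], 14⟩,
  ⟨⟨-57, -8, 37, -10, 33, -40, -18, -36, -19⟩, (.cons (nat_lit 12840887) (nat_lit 6831823) (nat_lit 337162)
 (nat_lit 1) (.cons (nat_lit 4426713) (nat_lit 1222364) (nat_lit 4618925) (nat_lit 1) .nil)), (nat_lit 16),
 (nat_lit 17), (nat_lit 27), (nat_lit 1), (14, 35, 10), [14659578, 6796120], 19⟩,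
  mz,
  ⟨⟨-13, -48, 40, 30, 17, 30, 30, -36, -23⟩, (.cons (nat_lit 1498545) (nat_lit 4315407) (nat_lit 1437119)
 (nat_lit 1) (.cons (nat_lit 5668415) (nat_lit 7659635) (nat_lit 3779191) (nat_lit 1) .nil)), (nat_lit 20),
 (nat_lit 30), (nat_lit 14), (nat_lit 1), (45, 47, 47), [8915124, 2128245], 27⟩]

/-- Moves. -/
noncomputable def t1_4 : List Mv := [
  mz,
  mz,
  mz,
  mz,
  ⟨⟨-53, 0, 0, 10, -47, -30, -2, 20, -47⟩, (.cons (nat_lit 19487160) (nat_lit 11465904) (nat_lit 3714369)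
 (nat_lit 1) (.cons (nat_lit 2753566) (nat_lit 382075) (nat_lit 3033848) (nat_lit 1) .nil)), (nat_lit 21),
 (nat_lit 20), (nat_lit 1), (nat_lit 0), (0, 39, 24), [9742181, 3609729], 6⟩,
  ⟨⟨-53, 0, 0, -10, -47, 30, -2, -20, -47⟩, (.cons (nat_lit 7321139) (nat_lit 6495732) (nat_lit 1) (nat_lit
 16903326) (.cons (nat_lit 2777262) (nat_lit 2311629) (nat_lit 6003670) (nat_lit 1) .nil)), (nat_lit 0),
 (nat_lit 2), (nat_lit 28), (nat_lit 1), (0, 7, 12), [8661277, 3489508], 23⟩,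
  ⟨⟨25, -48, -36, 28, -5, 36, 40, 8, -47⟩, (.cons (nat_lit 5885503) (nat_lit 12991479) (nat_lit 1) (nat_lit
 610214) (.cons (nat_lit 4416162) (nat_lit 1396055) (nat_lit 5956047) (nat_lit 1) .nil)), (nat_lit 16),
 (nat_lit 30), (nat_lit 10), (nat_lit 1), (37, 16, 38), [15155128, 7462547], 17⟩,
  mz,
  mz,
  ⟨⟨-33, -20, -32, 8, 45, -34, 24, -24, -49⟩, (.cons (nat_lit 5525535) (nat_lit 5385298) (nat_lit 14834804)
 (nat_lit 1) (.cons (nat_lit 3320803) (nat_lit 4389122) (nat_lit 1807882) (nat_lit 1) .nil)), (nat_lit 28),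
 (nat_lit 25), (nat_lit 4), (nat_lit 1), (35, 14, 42), [7634141, 3535963], 28⟩,
  ⟨⟨-25, 48, -11, -28, 5, 64, -40, -8, -7⟩, (.cons (nat_lit 14863058) (nat_lit 18402876) (nat_lit 14323430)
 (nat_lit 1) (.cons (nat_lit 3797972) (nat_lit 751728) (nat_lit 3657816) (nat_lit 1) .nil)), (nat_lit 25),
 (nat_lit 14), (nat_lit 6), (nat_lit 1), (52, 1, 9), [4521728, 4089196], 27⟩,
  ⟨⟨15, -32, 44, 50, 17, -30, 14, -44, -19⟩, (.cons (nat_lit 1132989) (nat_lit 12993913) (nat_lit 6417469)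
 (nat_lit 1) (.cons (nat_lit 6892726) (nat_lit 5526891) (nat_lit 446713) (nat_lit 1) .nil)), (nat_lit 16),
 (nat_lit 28), (nat_lit 12), (nat_lit 1), (29, 26, 20), [11492911, 3552138], 3⟩,
  ⟨⟨-51, 20, 4, 10, 47, 20, 2, 20, -49⟩, (.cons (nat_lit 19487170) (nat_lit 18646124) (nat_lit 18851097)
 (nat_lit 1) (.cons (nat_lit 833274) (nat_lit 5718228) (nat_lit 726984) (nat_lit 1) .nil)), (nat_lit 30),
 (nat_lit 16), (nat_lit 2), (nat_lit 1), (48, 28, 48), [16276167, 1031367], 18⟩,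
  mz,
  mz,
  ⟨⟨-51, -20, 4, -10, 47, -20, 2, -20, -49⟩, (.cons (nat_lit 19487170) (nat_lit 6303291) (nat_lit 3382434)
 (nat_lit 1) (.cons (nat_lit 4314151) (nat_lit 6999064) (nat_lit 3443806) (nat_lit 1) .nil)), (nat_lit 30),
 (nat_lit 4), (nat_lit 1), (nat_lit 1), (36, 32, 36), [8668387, 989393], 14⟩,
  ⟨⟨15, 52, 16, 10, 17, -60, 46, 4, -11⟩, (.cons (nat_lit 4307810) (nat_lit 19375406) (nat_lit 17094261)
 (nat_lit 1) (.cons (nat_lit 1251332) (nat_lit 4266202) (nat_lit 7253833) (nat_lit 1) .nil)), (nat_lit 27),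
 (nat_lit 3), (nat_lit 5), (nat_lit 1), (24, 16, 10), [15104776, 6928554], 15⟩,
  ⟨⟨15, 52, -31, 10, 17, 50, 46, 4, -35⟩, (.cons (nat_lit 18308055) (nat_lit 13531283) (nat_lit 2733393)
 (nat_lit 1) (.cons (nat_lit 6062022) (nat_lit 1902273) (nat_lit 4866373) (nat_lit 1) .nil)), (nat_lit 5),
 (nat_lit 24), (nat_lit 12), (nat_lit 1), (7, 40, 25), [9907464, 3638760], 5⟩,
  ⟨⟨-57, -4, 40, -8, 45, -26, -24, -24, -25⟩, (.cons (nat_lit 103436) (nat_lit 7099107) (nat_lit 6032338)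
 (nat_lit 1) (.cons (nat_lit 2169052) (nat_lit 6191318) (nat_lit 2945743) (nat_lit 1) .nil)), (nat_lit 10),
 (nat_lit 29), (nat_lit 22), (nat_lit 1), (12, 24, 19), [18253921, 4621735], 10⟩,
  mz,
  mz,
  ⟨⟨-33, 20, -32, 8, -45, -34, 24, 24, -49⟩, (.cons (nat_lit 9525400) (nat_lit 7991636) (nat_lit 9781544)
 (nat_lit 1) (.cons (nat_lit 1323067) (nat_lit 1259898) (nat_lit 7815040) (nat_lit 1) .nil)), (nat_lit 26),
 (nat_lit 1), (nat_lit 2), (nat_lit 1), (47, 40, 14), [482050, 7336522], 30⟩,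
  ⟨⟨-45, -28, -4, 28, -45, -14, 0, 0, -53⟩, (.cons (nat_lit 19191580) (nat_lit 1315041) (nat_lit 3926993)
 (nat_lit 1) (.cons (nat_lit 3102915) (nat_lit 148637) (nat_lit 1554903) (nat_lit 1) .nil)), (nat_lit 1),
 (nat_lit 21), (nat_lit 20), (nat_lit 1), (29, 22, 0), [8437778, 825806], 11⟩,
  mz,
  ⟨⟨-13, 48, -27, 30, -17, -60, 30, 36, -7⟩, (.cons (nat_lit 9594724) (nat_lit 12331346) (nat_lit 1) (nat_lit
 4056833) (.cons (nat_lit 6610459) (nat_lit 6365867) (nat_lit 5197395) (nat_lit 1) .nil)), (nat_lit 9),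
 (nat_lit 5), (nat_lit 10), (nat_lit 1), (11, 48, 48), [15955787, 3534223], 3⟩,
  mz,
  ⟨⟨-25, -48, -11, 28, 5, -64, -40, 8, -7⟩, (.cons (nat_lit 11536474) (nat_lit 16636398) (nat_lit 1057867)
 (nat_lit 1) (.cons (nat_lit 6047124) (nat_lit 1824961) (nat_lit 1) (nat_lit 4001235) .nil)), (nat_lit 20),
 (nat_lit 21), (nat_lit 24), (nat_lit 1), (2, 2, 35), [8851476, 351296], 15⟩,
  mz,
  ⟨⟨-1, -48, 37, 52, 5, -16, 8, -40, -31⟩, (.cons (nat_lit 12952545) (nat_lit 7632350) (nat_lit 9744620)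
 (nat_lit 1) (.cons (nat_lit 597646) (nat_lit 6142929) (nat_lit 2271106) (nat_lit 1) .nil)), (nat_lit 25),
 (nat_lit 3), (nat_lit 28), (nat_lit 1), (29, 29, 33), [17845192, 3950918], 27⟩,
  ⟨⟨-13, 48, 40, -30, 17, -30, 30, 36, -23⟩, (.cons (nat_lit 1066255) (nat_lit 6012906) (nat_lit 18885069)
 (nat_lit 1) (.cons (nat_lit 6321929) (nat_lit 1558013) (nat_lit 7284761) (nat_lit 1) .nil)), (nat_lit 14),
 (nat_lit 14), (nat_lit 21), (nat_lit 1), (42, 48, 5), [10185465, 7133235], 22⟩,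
  mz,
  ⟨⟨45, -28, -49, 28, 45, -14, 0, 0, -53⟩, (.cons (nat_lit 16102483) (nat_lit 19446292) (nat_lit 12825807)
 (nat_lit 1) (.cons (nat_lit 684971) (nat_lit 5174550) (nat_lit 2796875) (nat_lit 1) .nil)), (nat_lit 1),
 (nat_lit 17), (nat_lit 28), (nat_lit 1), (39, 49, 0), [15447112, 6405699], 3⟩,
  mz,
  ⟨⟨-39, 28, -17, -10, 33, 50, 18, 36, -37⟩, (.cons (nat_lit 9400592) (nat_lit 11374117) (nat_lit 18357096)
 (nat_lit 1) (.cons (nat_lit 3800503) (nat_lit 4022867) (nat_lit 3293273) (nat_lit 1) .nil)), (nat_lit 2),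
 (nat_lit 4), (nat_lit 25), (nat_lit 1), (43, 45, 25), [11611107, 6183128], 14⟩,
  mz,
  mz,
  ⟨⟨-9, 8, -59, 52, -5, -36, -8, -40, -23⟩, (.cons (nat_lit 16221133) (nat_lit 16827725) (nat_lit 11458119)
 (nat_lit 1) (.cons (nat_lit 3221663) (nat_lit 503522) (nat_lit 3478152) (nat_lit 1) .nil)), (nat_lit 17),
 (nat_lit 25), (nat_lit 1), (nat_lit 0), (2, 12, 43), [15156304, 990193], 8⟩,
  ⟨⟨9, -8, -68, -52, 5, 16, 8, 40, -31⟩, (.cons (nat_lit 10066718) (nat_lit 3367922) (nat_lit 6077303) (nat_lit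
 1) (.cons (nat_lit 4230101) (nat_lit 2867185) (nat_lit 2677752) (nat_lit 1) .nil)), (nat_lit 12), (nat_lit
 17), (nat_lit 0), (nat_lit 1), (31, 27, 4), [1731577, 5465563], 16⟩,
  ⟨⟨39, 28, -56, 10, 33, 40, -18, 36, -19⟩, (.cons (nat_lit 19487170) (nat_lit 3670876) (nat_lit 15515417)
 (nat_lit 1) (.cons (nat_lit 570450) (nat_lit 3965948) (nat_lit 7697850) (nat_lit 1) .nil)), (nat_lit 30),
 (nat_lit 13), (nat_lit 12), (nat_lit 1), (34, 6, 21), [15910563, 7051744], 13⟩,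
  ⟨⟨15, -56, -11, -28, -5, -36, 40, -8, -47⟩, (.cons (nat_lit 16980637) (nat_lit 10999530) (nat_lit 8920668)
 (nat_lit 1) (.cons (nat_lit 1275306) (nat_lit 3349324) (nat_lit 5008160) (nat_lit 1) .nil)), (nat_lit 27),
 (nat_lit 28), (nat_lit 30), (nat_lit 1), (31, 34, 12), [8949142, 6153873], 1⟩,
  ⟨⟨1, 48, 36, -52, -5, 36, -8, 40, -23⟩, (.cons (nat_lit 15523167) (nat_lit 15273535) (nat_lit 17918212)
 (nat_lit 1) (.cons (nat_lit 2185149) (nat_lit 4868308) (nat_lit 1277514) (nat_lit 1) .nil)), (nat_lit 2),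
 (nat_lit 2), (nat_lit 11), (nat_lit 1), (38, 38, 14), [955895, 4974077], 6⟩,
  ⟨⟨31, 48, -4, -10, 17, -50, 46, -4, -35⟩, (.cons (nat_lit 13094847) (nat_lit 2714594) (nat_lit 1) (nat_lit
 13300056) (.cons (nat_lit 6883105) (nat_lit 570559) (nat_lit 2830267) (nat_lit 1) .nil)), (nat_lit 2),
 (nat_lit 6), (nat_lit 7), (nat_lit 1), (15, 2, 12), [10975123, 1037093], 12⟩,
  ⟨⟨-57, 4, 40, -8, -45, -26, -24, 24, -25⟩, (.cons (nat_lit 14534676) (nat_lit 10144251) (nat_lit 17075484)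
 (nat_lit 1) (.cons (nat_lit 3048247) (nat_lit 509608) (nat_lit 406381) (nat_lit 1) .nil)), (nat_lit 18),
 (nat_lit 5), (nat_lit 10), (nat_lit 1), (25, 50, 44), [2216194, 6286556], 22⟩,
  ⟨⟨15, 32, 44, -50, 17, 30, 14, 44, -19⟩, (.cons (nat_lit 16166580) (nat_lit 3559449) (nat_lit 4890772)
 (nat_lit 1) (.cons (nat_lit 1154981) (nat_lit 6197288) (nat_lit 7210033) (nat_lit 1) .nil)), (nat_lit 25),
 (nat_lit 8), (nat_lit 14), (nat_lit 1), (27, 16, 4), [241025, 52268], 23⟩,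
  ⟨⟨-15, 32, 59, 50, 17, -20, -14, 44, -5⟩, (.cons (nat_lit 4956014) (nat_lit 12550680) (nat_lit 6791200)
 (nat_lit 1) (.cons (nat_lit 7281819) (nat_lit 7138151) (nat_lit 4780138) (nat_lit 1) .nil)), (nat_lit 25),
 (nat_lit 20), (nat_lit 10), (nat_lit 1), (6, 33, 48), [7035104, 3977989], 25⟩,
  mz,
  ⟨⟨43, 12, 20, 30, 17, -60, 30, -36, -7⟩, (.cons (nat_lit 19487170) (nat_lit 18590738) (nat_lit 17596032)
 (nat_lit 1) (.cons (nat_lit 3895227) (nat_lit 4908199) (nat_lit 84680) (nat_lit 1) .nil)), (nat_lit 30),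
 (nat_lit 6), (nat_lit 0), (nat_lit 1), (23, 37, 37), [16943699, 7090380], 22⟩,
  ⟨⟨1, -12, -64, 50, -17, -20, -14, -44, -5⟩, (.cons (nat_lit 2485709) (nat_lit 14409897) (nat_lit 3107138)
 (nat_lit 1) (.cons (nat_lit 7293500) (nat_lit 4977554) (nat_lit 2242767) (nat_lit 1) .nil)), (nat_lit 29),
 (nat_lit 21), (nat_lit 21), (nat_lit 1), (3, 44, 11), [7673338, 5412787], 19⟩,
  ⟨⟨15, -52, 16, -10, 17, 60, 46, -4, -11⟩, (.cons (nat_lit 10191447) (nat_lit 16027074) (nat_lit 11395723)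
 (nat_lit 1) (.cons (nat_lit 2170015) (nat_lit 3086532) (nat_lit 6768730) (nat_lit 1) .nil)), (nat_lit 15),
 (nat_lit 26), (nat_lit 26), (nat_lit 1), (14, 26, 50), [535109, 4754291], 3⟩,
  ⟨⟨-39, -28, -17, 10, 33, -50, 18, -36, -37⟩, (.cons (nat_lit 3413138) (nat_lit 4384606) (nat_lit 14961878)
 (nat_lit 1) (.cons (nat_lit 4568767) (nat_lit 2110641) (nat_lit 6640120) (nat_lit 1) .nil)), (nat_lit 2),
 (nat_lit 28), (nat_lit 8), (nat_lit 1), (5, 49, 14), [6010732, 1703946], 14⟩,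
  ⟨⟨39, -28, -56, -10, 33, -40, -18, -36, -19⟩, (.cons (nat_lit 19487170) (nat_lit 11858037) (nat_lit 741142)
 (nat_lit 1) (.cons (nat_lit 7091676) (nat_lit 4555332) (nat_lit 6612029) (nat_lit 1) .nil)), (nat_lit 30),
 (nat_lit 12), (nat_lit 11), (nat_lit 1), (49, 35, 10), [8423167, 2147297], 12⟩,
  mz,
  ⟨⟨43, 12, -63, -30, -17, -30, 30, -36, -23⟩, (.cons (nat_lit 16195351) (nat_lit 4574667) (nat_lit 8728297)
 (nat_lit 1) (.cons (nat_lit 5288912) (nat_lit 3162638) (nat_lit 4737897) (nat_lit 1) .nil)), (nat_lit 7),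
 (nat_lit 16), (nat_lit 11), (nat_lit 1), (2, 6, 47), [14224237, 3450906], 29⟩]

/-- Moves. -/
noncomputable def t4_1 : List Mv := [
  mz,
  ⟨⟨3, 20, 29, 4, -25, 18, 26, 8, -7⟩, (.cons (nat_lit 15954176) (nat_lit 8044654) (nat_lit 18186957) (nat_lit
 1) (.cons (nat_lit 941886) (nat_lit 1341646) (nat_lit 2361269) (nat_lit 1) .nil)), (nat_lit 26), (nat_lit 0),
 (nat_lit 0), (nat_lit 0), (26, 14, 29), [8440175, 6554088], 0⟩,
  ⟨⟨3, -20, 29, 4, 25, 18, 26, -8, -7⟩, (.cons (nat_lit 894995) (nat_lit 13093043) (nat_lit 7707770) (nat_lit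
 1) (.cons (nat_lit 4139496) (nat_lit 3442446) (nat_lit 3319782) (nat_lit 1) .nil)), (nat_lit 26), (nat_lit 0),
 (nat_lit 0), (nat_lit 0), (19, 15, 20), [10920374, 5841794], 0⟩,
  mz,
  ⟨⟨-33, 8, 17, 4, 15, 28, -6, 24, -11⟩, (.cons (nat_lit 7715260) (nat_lit 15512935) (nat_lit 1) (nat_lit
 13807794) (.cons (nat_lit 992235) (nat_lit 468884) (nat_lit 7844801) (nat_lit 1) .nil)), (nat_lit 21),
 (nat_lit 0), (nat_lit 0), (nat_lit 0), (23, 16, 7), [5874997, 366412], 0⟩,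
  mz,
  ⟨⟨21, -4, -40, 16, 25, 2, 22, -16, -5⟩, (.cons (nat_lit 5909579) (nat_lit 6425244) (nat_lit 5431036) (nat_lit
 1) (.cons (nat_lit 4097889) (nat_lit 1890592) (nat_lit 85142) (nat_lit 1) .nil)), (nat_lit 23), (nat_lit 0),
 (nat_lit 0), (nat_lit 0), (21, 16, 22), [17940683, 3351051], 0⟩,
  mz,
  ⟨⟨27, -20, -19, 10, 19, -30, -4, -20, -19⟩, (.cons (nat_lit 11438070) (nat_lit 5116016) (nat_lit 6748124)
 (nat_lit 1) (.cons (nat_lit 7885549) (nat_lit 829504) (nat_lit 2769958) (nat_lit 1) .nil)), (nat_lit 25),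
 (nat_lit 0), (nat_lit 0), (nat_lit 0), (29, 5, 29), [11480552, 7197711], 0⟩,
  mz,
  mz,
  mz,
  mz,
  ⟨⟨-31, 0, 0, 10, -19, -30, -4, 20, -19⟩, (.cons (nat_lit 16703287) (nat_lit 492091) (nat_lit 9412893)
 (nat_lit 1) (.cons (nat_lit 3203693) (nat_lit 4560848) (nat_lit 7171648) (nat_lit 1) .nil)), (nat_lit 8),
 (nat_lit 0), (nat_lit 0), (nat_lit 0), (0, 3, 5), [7158533, 1177379], 0⟩,
  ⟨⟨27, -16, -28, -4, 15, -28, -6, -24, -11⟩, (.cons (nat_lit 19487170) (nat_lit 9088287) (nat_lit 8310805)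
 (nat_lit 1) (.cons (nat_lit 7890480) (nat_lit 1997988) (nat_lit 1328433) (nat_lit 1) .nil)), (nat_lit 14),
 (nat_lit 0), (nat_lit 0), (nat_lit 0), (28, 28, 11), [17681205, 2057762], 0⟩,
  ⟨⟨3, 20, -32, 4, -25, -22, 26, 8, -19⟩, (.cons (nat_lit 10424893) (nat_lit 16506528) (nat_lit 9346835)
 (nat_lit 1) (.cons (nat_lit 1263813) (nat_lit 5245265) (nat_lit 6032626) (nat_lit 1) .nil)), (nat_lit 26),
 (nat_lit 0), (nat_lit 0), (nat_lit 0), (10, 3, 4), [3694222, 259114], 0⟩,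
  mz,
  mz,
  ⟨⟨1, -12, -36, 16, 25, -18, 22, -16, -17⟩, (.cons (nat_lit 16086754) (nat_lit 12991449) (nat_lit 1) (nat_lit
 9896139) (.cons (nat_lit 7201489) (nat_lit 3067544) (nat_lit 2572157) (nat_lit 1) .nil)), (nat_lit 1),
 (nat_lit 0), (nat_lit 0), (nat_lit 0), (21, 26, 28), [11096928, 4196158], 0⟩,
  ⟨⟨29, -12, 0, 10, 29, 0, 20, -4, -31⟩, (.cons (nat_lit 7137570) (nat_lit 3518238) (nat_lit 17561629) (nat_lit
 1) (.cons (nat_lit 784254) (nat_lit 910689) (nat_lit 5021466) (nat_lit 1) .nil)), (nat_lit 24), (nat_lit 0),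
 (nat_lit 0), (nat_lit 0), (28, 15, 30), [14518778, 4688196], 0⟩,
  ⟨⟨9, 8, -40, 10, -29, -10, -20, -4, -11⟩, (.cons (nat_lit 19487170) (nat_lit 16363367) (nat_lit 12249458)
 (nat_lit 1) (.cons (nat_lit 7890480) (nat_lit 5999369) (nat_lit 6824328) (nat_lit 1) .nil)), (nat_lit 20),
 (nat_lit 0), (nat_lit 0), (nat_lit 0), (27, 30, 2), [497605, 5296547], 0⟩,
  ⟨⟨-27, 16, -1, -4, 15, 32, 6, 24, -17⟩, (.cons (nat_lit 7135491) (nat_lit 580489) (nat_lit 10862364) (nat_lit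
 1) (.cons (nat_lit 2773213) (nat_lit 4502584) (nat_lit 6587866) (nat_lit 1) .nil)), (nat_lit 4), (nat_lit 0),
 (nat_lit 0), (nat_lit 0), (2, 29, 3), [5695164, 5687827], 0⟩,
  ⟨⟨-29, 12, 29, -10, -29, 10, -20, 4, -11⟩, (.cons (nat_lit 8974630) (nat_lit 9273088) (nat_lit 7471698)
 (nat_lit 1) (.cons (nat_lit 5652099) (nat_lit 3512658) (nat_lit 2001967) (nat_lit 1) .nil)), (nat_lit 24),
 (nat_lit 0), (nat_lit 0), (nat_lit 0), (4, 11, 22), [14508878, 3387241], 0⟩,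
  ⟨⟨3, -20, -32, 4, 25, -22, 26, -8, -19⟩, (.cons (nat_lit 10880395) (nat_lit 5757879) (nat_lit 6816387)
 (nat_lit 1) (.cons (nat_lit 4681111) (nat_lit 2272137) (nat_lit 4198311) (nat_lit 1) .nil)), (nat_lit 26),
 (nat_lit 0), (nat_lit 0), (nat_lit 0), (3, 4, 26), [14063279, 1178343], 0⟩,
  ⟨⟨29, 12, 0, -10, 29, 0, 20, 4, -31⟩, (.cons (nat_lit 9438477) (nat_lit 12991459) (nat_lit 1) (nat_lit
 16544418) (.cons (nat_lit 6825601) (nat_lit 2825496) (nat_lit 5988076) (nat_lit 1) .nil)), (nat_lit 19),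
 (nat_lit 0), (nat_lit 0), (nat_lit 0), (26, 6, 19), [18945834, 1415707], 0⟩,
  ⟨⟨31, 0, -31, -10, 19, -20, 4, -20, -23⟩, (.cons (nat_lit 1552795) (nat_lit 16065140) (nat_lit 12999001)
 (nat_lit 1) (.cons (nat_lit 4609180) (nat_lit 7212311) (nat_lit 5110496) (nat_lit 1) .nil)), (nat_lit 8),
 (nat_lit 0), (nat_lit 0), (nat_lit 0), (0, 22, 16), [7469981, 7714002], 0⟩,
  ⟨⟨1, 12, 35, 16, -25, 2, 22, 16, -5⟩, (.cons (nat_lit 19041613) (nat_lit 6636218) (nat_lit 13357247) (nat_lit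
 1) (.cons (nat_lit 4460563) (nat_lit 7245828) (nat_lit 3647441) (nat_lit 1) .nil)), (nat_lit 1), (nat_lit 0),
 (nat_lit 0), (nat_lit 0), (30, 15, 9), [18307308, 3229235], 0⟩,
  ⟨⟨33, -8, -16, 4, 15, -32, 6, -24, -17⟩, (.cons (nat_lit 19487170) (nat_lit 7828723) (nat_lit 6118422)
 (nat_lit 1) (.cons (nat_lit 7890480) (nat_lit 6694701) (nat_lit 681856) (nat_lit 1) .nil)), (nat_lit 27),
 (nat_lit 0), (nat_lit 0), (nat_lit 0), (23, 15, 7), [16999064, 3265605], 0⟩,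
  ⟨⟨1, 12, -36, 16, -25, -18, 22, 16, -17⟩, (.cons (nat_lit 2910562) (nat_lit 6042821) (nat_lit 6763659)
 (nat_lit 1) (.cons (nat_lit 6862627) (nat_lit 6795558) (nat_lit 6494194) (nat_lit 1) .nil)), (nat_lit 1),
 (nat_lit 0), (nat_lit 0), (nat_lit 0), (19, 25, 15), [18419174, 7786651], 0⟩,
  ⟨⟨31, 0, -31, -10, -19, -20, 4, 20, -23⟩, (.cons (nat_lit 16957254) (nat_lit 14149065) (nat_lit 18644205)
 (nat_lit 1) (.cons (nat_lit 3377534) (nat_lit 3009705) (nat_lit 3746162) (nat_lit 1) .nil)), (nat_lit 8),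
 (nat_lit 0), (nat_lit 0), (nat_lit 0), (0, 20, 23), [15392136, 170178], 0⟩]

/-- Moves. -/
noncomputable def t4_4 : List Mv := [
  mz,
  ⟨⟨3, 20, 29, -4, 25, -18, 26, 8, -7⟩, (.cons (nat_lit 7415031) (nat_lit 11386128) (nat_lit 10761795) (nat_lit
 1) (.cons (nat_lit 2980221) (nat_lit 5857247) (nat_lit 4255619) (nat_lit 1) .nil)), (nat_lit 6), (nat_lit 0),
 (nat_lit 0), (nat_lit 0), (26, 17, 29), [4883059, 7003689], 0⟩,
  ⟨⟨3, -20, 29, -4, -25, -18, 26, -8, -7⟩, (.cons (nat_lit 13093029) (nat_lit 8799877) (nat_lit 13125730)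
 (nat_lit 1) (.cons (nat_lit 4380147) (nat_lit 4587426) (nat_lit 5320142) (nat_lit 1) .nil)), (nat_lit 6),
 (nat_lit 0), (nat_lit 0), (nat_lit 0), (19, 16, 20), [12363434, 6395293], 0⟩,
  mz,
  ⟨⟨-33, 8, 17, -4, -15, -28, -6, 24, -11⟩, (.cons (nat_lit 2715516) (nat_lit 524947) (nat_lit 6565098)
 (nat_lit 1) (.cons (nat_lit 6666910) (nat_lit 3632644) (nat_lit 961939) (nat_lit 1) .nil)), (nat_lit 27),
 (nat_lit 0), (nat_lit 0), (nat_lit 0), (23, 15, 7), [3278839, 5054779], 0⟩,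
  mz,
  ⟨⟨1, -12, 35, -16, -25, -2, 22, -16, -5⟩, (.cons (nat_lit 1189840) (nat_lit 11328620) (nat_lit 6922646)
 (nat_lit 1) (.cons (nat_lit 2924215) (nat_lit 2608472) (nat_lit 4153677) (nat_lit 1) .nil)), (nat_lit 2),
 (nat_lit 0), (nat_lit 0), (nat_lit 0), (1, 15, 22), [12221648, 2186429], 0⟩,
  mz,
  ⟨⟨-31, 0, 0, -10, -19, 30, -4, -20, -19⟩, (.cons (nat_lit 9170433) (nat_lit 15104580) (nat_lit 9607418)
 (nat_lit 1) (.cons (nat_lit 3716652) (nat_lit 3929480) (nat_lit 6254845) (nat_lit 1) .nil)), (nat_lit 13),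
 (nat_lit 0), (nat_lit 0), (nat_lit 0), (0, 26, 29), [2494894, 2682803], 0⟩,
  mz,
  mz,
  mz,
  mz,
  ⟨⟨-31, 0, 0, 10, -19, -30, -4, 20, -19⟩, (.cons (nat_lit 16703287) (nat_lit 492091) (nat_lit 9412893)
 (nat_lit 1) (.cons (nat_lit 3203693) (nat_lit 4560848) (nat_lit 7171648) (nat_lit 1) .nil)), (nat_lit 8),
 (nat_lit 0), (nat_lit 0), (nat_lit 0), (0, 3, 5), [7158533, 1177379], 0⟩,
  ⟨⟨27, -16, -28, -4, 15, -28, -6, -24, -11⟩, (.cons (nat_lit 19487170) (nat_lit 9088287) (nat_lit 8310805)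
 (nat_lit 1) (.cons (nat_lit 7890480) (nat_lit 1997988) (nat_lit 1328433) (nat_lit 1) .nil)), (nat_lit 14),
 (nat_lit 0), (nat_lit 0), (nat_lit 0), (28, 28, 11), [17681205, 2057762], 0⟩,
  ⟨⟨23, -12, 13, 4, -25, -22, 26, 8, -19⟩, (.cons (nat_lit 619714) (nat_lit 5411637) (nat_lit 11388692)
 (nat_lit 1) (.cons (nat_lit 3499761) (nat_lit 4843916) (nat_lit 4817436) (nat_lit 1) .nil)), (nat_lit 18),
 (nat_lit 0), (nat_lit 0), (nat_lit 0), (25, 3, 4), [6242211, 5696553], 0⟩,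
  mz,
  mz,
  ⟨⟨21, -4, 19, -16, -25, 18, 22, -16, -17⟩, (.cons (nat_lit 4098817) (nat_lit 1631663) (nat_lit 9138337)
 (nat_lit 1) (.cons (nat_lit 3400511) (nat_lit 7641917) (nat_lit 7004025) (nat_lit 1) .nil)), (nat_lit 15),
 (nat_lit 0), (nat_lit 0), (nat_lit 0), (7, 5, 28), [5375123, 6673597], 0⟩,
  ⟨⟨-9, 8, -31, -10, -29, 0, 20, -4, -31⟩, (.cons (nat_lit 14603950) (nat_lit 235738) (nat_lit 4314552)
 (nat_lit 1) (.cons (nat_lit 7619447) (nat_lit 3659220) (nat_lit 6647052) (nat_lit 1) .nil)), (nat_lit 20),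
 (nat_lit 0), (nat_lit 0), (nat_lit 0), (2, 16, 30), [11419481, 6359326], 0⟩,
  ⟨⟨9, 8, -40, 10, -29, -10, -20, -4, -11⟩, (.cons (nat_lit 19487170) (nat_lit 16363367) (nat_lit 12249458)
 (nat_lit 1) (.cons (nat_lit 7890480) (nat_lit 5999369) (nat_lit 6824328) (nat_lit 1) .nil)), (nat_lit 20),
 (nat_lit 0), (nat_lit 0), (nat_lit 0), (27, 30, 2), [497605, 5296547], 0⟩,
  ⟨⟨33, 8, -16, -4, 15, 32, 6, 24, -17⟩, (.cons (nat_lit 19487170) (nat_lit 2616764) (nat_lit 4268871) (nat_lit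
 1) (.cons (nat_lit 7890480) (nat_lit 6204847) (nat_lit 2369540) (nat_lit 1) .nil)), (nat_lit 21), (nat_lit 0),
 (nat_lit 0), (nat_lit 0), (1, 29, 3), [1990420, 2318893], 0⟩,
  ⟨⟨9, -8, -40, 10, 29, -10, -20, 4, -11⟩, (.cons (nat_lit 14888563) (nat_lit 16001721) (nat_lit 1) (nat_lit
 249634) (.cons (nat_lit 5650697) (nat_lit 4922589) (nat_lit 7665161) (nat_lit 1) .nil)), (nat_lit 20),
 (nat_lit 0), (nat_lit 0), (nat_lit 0), (18, 20, 22), [2105270, 7357378], 0⟩,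
  ⟨⟨3, -20, -32, -4, -25, 22, 26, -8, -19⟩, (.cons (nat_lit 17239352) (nat_lit 5166383) (nat_lit 13791482)
 (nat_lit 1) (.cons (nat_lit 6534897) (nat_lit 4365485) (nat_lit 3067341) (nat_lit 1) .nil)), (nat_lit 6),
 (nat_lit 0), (nat_lit 0), (nat_lit 0), (3, 27, 26), [16368707, 4042395], 0⟩,
  ⟨⟨-9, -8, -31, 10, -29, 0, 20, 4, -31⟩, (.cons (nat_lit 18287817) (nat_lit 16439203) (nat_lit 15811571)
 (nat_lit 1) (.cons (nat_lit 3823322) (nat_lit 2138098) (nat_lit 4510157) (nat_lit 1) .nil)), (nat_lit 22),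
 (nat_lit 0), (nat_lit 0), (nat_lit 0), (24, 25, 19), [169803, 14590], 0⟩,
  ⟨⟨31, 0, -31, -10, 19, -20, 4, -20, -23⟩, (.cons (nat_lit 1552795) (nat_lit 16065140) (nat_lit 12999001)
 (nat_lit 1) (.cons (nat_lit 4609180) (nat_lit 7212311) (nat_lit 5110496) (nat_lit 1) .nil)), (nat_lit 8),
 (nat_lit 0), (nat_lit 0), (nat_lit 0), (0, 22, 16), [7469981, 7714002], 0⟩,
  ⟨⟨1, 12, 35, -16, 25, -2, 22, 16, -5⟩, (.cons (nat_lit 5803595) (nat_lit 16221306) (nat_lit 6110179) (nat_lit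
 1) (.cons (nat_lit 7568920) (nat_lit 798716) (nat_lit 1354731) (nat_lit 1) .nil)), (nat_lit 2), (nat_lit 0),
 (nat_lit 0), (nat_lit 0), (30, 16, 9), [11554959, 1905023], 0⟩,
  ⟨⟨-27, -16, -1, -4, -15, 32, 6, -24, -17⟩, (.cons (nat_lit 6533363) (nat_lit 14327726) (nat_lit 10903463)
 (nat_lit 1) (.cons (nat_lit 4577084) (nat_lit 7409357) (nat_lit 4901643) (nat_lit 1) .nil)), (nat_lit 4),
 (nat_lit 0), (nat_lit 0), (nat_lit 0), (15, 16, 7), [1307914, 6973688], 0⟩,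
  ⟨⟨1, 12, -36, 16, -25, -18, 22, 16, -17⟩, (.cons (nat_lit 2910562) (nat_lit 6042821) (nat_lit 6763659)
 (nat_lit 1) (.cons (nat_lit 6862627) (nat_lit 6795558) (nat_lit 6494194) (nat_lit 1) .nil)), (nat_lit 1),
 (nat_lit 0), (nat_lit 0), (nat_lit 0), (19, 25, 15), [18419174, 7786651], 0⟩,
  ⟨⟨31, 0, -31, -10, -19, -20, 4, 20, -23⟩, (.cons (nat_lit 16957254) (nat_lit 14149065) (nat_lit 18644205)
 (nat_lit 1) (.cons (nat_lit 3377534) (nat_lit 3009705) (nat_lit 3746162) (nat_lit 1) .nil)), (nat_lit 8),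
 (nat_lit 0), (nat_lit 0), (nat_lit 0), (0, 20, 23), [15392136, 170178], 0⟩]

/-- All the moves. -/
noncomputable def tabs : List (List (List Mv)) := [[[], t0_1, [], [], t0_4], [[], t1_1, [], [], t1_4], [], [], [[], t4_1, [], [], t4_4]]

/-- Subtrie. -/
noncomputable def T1 : Tr := (.ev (nat_lit 20) (nat_lit 948215808) (.nd (nat_lit 33) (.br (nat_lit 31) (.br
 (nat_lit 16) (.br (nat_lit 10) (.br (nat_lit 6) (.br (nat_lit 5) (.ch (nat_lit 4) (.ev (nat_lit 52) (nat_lit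
 71827462) (.ev (nat_lit 148) (nat_lit 18874368) (.ev (nat_lit 384) (nat_lit 34619728) .dd)))) (.ch (nat_lit 5)
 (.ev (nat_lit 52) (nat_lit 53477446) (.ev (nat_lit 724) (nat_lit 16384) (.ev (nat_lit 896) (nat_lit 67108864)
 (.nd (nat_lit 1056) (.br (nat_lit 5) (.br (nat_lit 2) (.ch (nat_lit 0) (.ev (nat_lit 1072) (nat_lit 4718608)
 (.ev (nat_lit 1085) (nat_lit 256) .dd))) (.ch (nat_lit 2) (.ev (nat_lit 1072) (nat_lit 4194576) (.ev (nat_lit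
 1085) (nat_lit 524288) .dd)))) (.br (nat_lit 7) (.ch (nat_lit 5) (.ev (nat_lit 1072) (nat_lit 4718848) (.ev
 (nat_lit 1085) (nat_lit 16) .dd))) (.ch (nat_lit 7) (.ev (nat_lit 1072) (nat_lit 524544) (.nd (nat_lit 1328)
 (.br (nat_lit 4) (.ch (nat_lit 0) (.fin (nat_lit 576478894266728988))) (.ch (nat_lit 4) (.ev (nat_lit 1344)
 (nat_lit 4194304) (.ev (nat_lit 1357) (nat_lit 16) .dd))))))))))))))) (.br (nat_lit 9) (.ch (nat_lit 6) (.ev
 (nat_lit 52) (nat_lit 34078726) (.ev (nat_lit 84) (nat_lit 16) (.ev (nat_lit 308) (nat_lit 16777216) (.ev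
 (nat_lit 404) (nat_lit 256) (.ev (nat_lit 532) (nat_lit 4194304) (.nd (nat_lit 1056) (.br (nat_lit 7) (.br
 (nat_lit 5) (.ch (nat_lit 1) (.ev (nat_lit 1072) (nat_lit 3145792) (.ev (nat_lit 1104) (nat_lit 67108864) (.ev
 (nat_lit 1117) (nat_lit 16384) .dd)))) (.ch (nat_lit 5) (.ev (nat_lit 1072) (nat_lit 67125312) (.ev (nat_lit
 1088) (nat_lit 2097152) (.ev (nat_lit 1101) (nat_lit 1048576) .dd))))) (.br (nat_lit 10) (.ch (nat_lit 7) (.ev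
 (nat_lit 1072) (nat_lit 70254656) (.ev (nat_lit 1085) (nat_lit 16384) .dd))) (.ch (nat_lit 10) (.ev (nat_lit
 1072) (nat_lit 68173824) (.ev (nat_lit 1168) (nat_lit 2097216) .dd)))))))))))) (.ch (nat_lit 9) (.ev (nat_lit
 52) (nat_lit 33554692) (.ev (nat_lit 84) (nat_lit 2) (.ev (nat_lit 308) (nat_lit 2097152) (.ev (nat_lit 660)
 (nat_lit 4194304) (.ev (nat_lit 788) (nat_lit 1048576) (.ev (nat_lit 976) (nat_lit 524288) (.nd (nat_lit 1056)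
 (.br (nat_lit 2) (.ch (nat_lit 1) (.ev (nat_lit 1072) (nat_lit 16793616) (.ev (nat_lit 1200) (nat_lit
 67108928) .dd))) (.br (nat_lit 9) (.ch (nat_lit 2) (.ev (nat_lit 1072) (nat_lit 67108928) (.ev (nat_lit 1188)
 (nat_lit 16793600) (.ev (nat_lit 1197) (nat_lit 16) .dd)))) (.ch (nat_lit 9) (.ev (nat_lit 1072) (nat_lit
 83902528) (.ev (nat_lit 1085) (nat_lit 16) .dd))))))))))))))) (.br (nat_lit 12) (.br (nat_lit 11) (.ch
 (nat_lit 10) (.ev (nat_lit 52) (nat_lit 37749074) (.ev (nat_lit 596) (nat_lit 4) (.ev (nat_lit 628) (nat_lit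
 16777216) (.nd (nat_lit 1056) (.br (nat_lit 7) (.br (nat_lit 2) (.ch (nat_lit 0) (.ev (nat_lit 1072) (nat_lit
 3162112) (.fin (nat_lit 576456903962870320)))) (.br (nat_lit 5) (.ch (nat_lit 2) (.ev (nat_lit 1072) (nat_lit
 68157440) (.ev (nat_lit 1088) (nat_lit 16384) (.ev (nat_lit 1380) (nat_lit 524288) (.ev (nat_lit 1389)
 (nat_lit 2097152) .dd))))) (.ch (nat_lit 5) (.ev (nat_lit 1072) (nat_lit 540672) (.ev (nat_lit 1104) (nat_lit
 70254592) .dd))))) (.br (nat_lit 9) (.ch (nat_lit 7) (.ev (nat_lit 1072) (nat_lit 70795264) .dd)) (.br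
 (nat_lit 10) (.ch (nat_lit 9) (.ev (nat_lit 1072) (nat_lit 70795264) .dd)) (.ch (nat_lit 10) (.ev (nat_lit
 1072) (nat_lit 1064960) (.ev (nat_lit 1188) (nat_lit 524288) (.nd (nat_lit 1328) (.br (nat_lit 2) (.ch
 (nat_lit 0) (.ev (nat_lit 1344) (nat_lit 67108864) (.ev (nat_lit 1357) (nat_lit 2097152) .dd))) (.ch (nat_lit
 2) (.fin (nat_lit 576471197667508802)))))))))))))))) (.ch (nat_lit 11) (.ev (nat_lit 52) (nat_lit 37224528)
 (.ev (nat_lit 116) (nat_lit 4194304) (.ev (nat_lit 308) (nat_lit 67108864) (.ev (nat_lit 532) (nat_lit 4) (.ev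
 (nat_lit 672) (nat_lit 16793858) .dd))))))) (.br (nat_lit 15) (.ch (nat_lit 12) (.ev (nat_lit 52) (nat_lit
 17842182) (.ev (nat_lit 308) (nat_lit 256) (.ev (nat_lit 436) (nat_lit 4194304) (.ev (nat_lit 756) (nat_lit
 67108864) (.ev (nat_lit 912) (nat_lit 2097152) (.nd (nat_lit 1056) (.br (nat_lit 5) (.br (nat_lit 1) (.ch
 (nat_lit 0) (.ev (nat_lit 1072) (nat_lit 524368) (.ev (nat_lit 1085) (nat_lit 33554432) .dd))) (.ch (nat_lit
 1) (.ev (nat_lit 1072) (nat_lit 33554448) (.nd (nat_lit 1328) (.br (nat_lit 3) (.ch (nat_lit 2) (.ev (nat_lit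
 1344) (nat_lit 524288) (.ev (nat_lit 1357) (nat_lit 64) .dd))) (.ch (nat_lit 3) (.fin (nat_lit
 576439311827157512)))))))) (.br (nat_lit 7) (.ch (nat_lit 5) (.ev (nat_lit 1072) (nat_lit 34078784) (.ev
 (nat_lit 1085) (nat_lit 16) .dd))) (.ch (nat_lit 7) (.ev (nat_lit 1072) (nat_lit 34078736) (.ev (nat_lit 1085)
 (nat_lit 64) .dd)))))))))))) (.ch (nat_lit 15) (.ev (nat_lit 52) (nat_lit 4718870) (.ev (nat_lit 404) (nat_lit
 33554432) (.ev (nat_lit 820) (nat_lit 1048576) (.nd (nat_lit 1056) (.br (nat_lit 9) (.br (nat_lit 7) (.ch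
 (nat_lit 1) (.ev (nat_lit 1072) (nat_lit 18874432) (.ev (nat_lit 1120) (nat_lit 67108864) (.ev (nat_lit 1133)
 (nat_lit 16384) .dd)))) (.ch (nat_lit 7) (.ev (nat_lit 1072) (nat_lit 85999680) .dd))) (.br (nat_lit 10) (.ch
 (nat_lit 9) (.ev (nat_lit 1072) (nat_lit 67125312) (.nd (nat_lit 1328) (.br (nat_lit 2) (.ch (nat_lit 0) (.ev
 (nat_lit 1344) (nat_lit 16777216) (.ev (nat_lit 1357) (nat_lit 2097152) .dd))) (.ch (nat_lit 2) (.fin (nat_lit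
 576443709854794252))))))) (.ch (nat_lit 10) (.ev (nat_lit 1072) (nat_lit 16793600) (.ev (nat_lit 1088)
 (nat_lit 64) (.nd (nat_lit 1328) (.br (nat_lit 10) (.ch (nat_lit 2) (.fin (nat_lit 576471197667508802))) (.ch
 (nat_lit 10) (.ev (nat_lit 1344) (nat_lit 67108864) (.ev (nat_lit 1357) (nat_lit 2097152)
 .dd)))))))))))))))))) (.br (nat_lit 22) (.br (nat_lit 18) (.br (nat_lit 17) (.ch (nat_lit 16) (.ev (nat_lit
 52) (nat_lit 17301570) (.ev (nat_lit 404) (nat_lit 16384) (.ev (nat_lit 692) (nat_lit 33554432) (.ev (nat_lit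
 852) (nat_lit 1048576) (.ev (nat_lit 928) (nat_lit 256) (.nd (nat_lit 1056) (.br (nat_lit 9) (.br (nat_lit 2)
 (.ch (nat_lit 1) (.ev (nat_lit 1072) (nat_lit 73400340) .dd)) (.ch (nat_lit 2) (.ev (nat_lit 1072) (nat_lit
 67108868) (.ev (nat_lit 1188) (nat_lit 2097168) (.ev (nat_lit 1197) (nat_lit 4194304) .dd))))) (.br (nat_lit
 10) (.ch (nat_lit 9) (.ev (nat_lit 1072) (nat_lit 6291472) (.ev (nat_lit 1120) (nat_lit 4) (.ev (nat_lit 1133)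
 (nat_lit 67108864) .dd)))) (.ch (nat_lit 10) (.ev (nat_lit 1072) (nat_lit 67108884) (.ev (nat_lit 1188)
 (nat_lit 4194304) (.ev (nat_lit 1197) (nat_lit 2097152) .dd))))))))))))) (.ch (nat_lit 17) (.ev (nat_lit 52)
 (nat_lit 105906450) (.ev (nat_lit 148) (nat_lit 16384) (.nd (nat_lit 1056) (.br (nat_lit 5) (.ch (nat_lit 1)
 (.ev (nat_lit 1072) (nat_lit 2097152) (.nd (nat_lit 1328) (.br (nat_lit 7) (.ch (nat_lit 4) (.ev (nat_lit
 1344) (nat_lit 524292) (.fin (nat_lit 576440411348222514)))) (.br (nat_lit 10) (.ch (nat_lit 7) (.ev (nat_lit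
 1344) (nat_lit 16777280) (.fin (nat_lit 576462401553515087)))) (.ch (nat_lit 10) (.ev (nat_lit 1344) (nat_lit
 17301568) (.ev (nat_lit 1357) (nat_lit 4) .dd)))))))) (.br (nat_lit 9) (.ch (nat_lit 5) (.ev (nat_lit 1072)
 (nat_lit 17301568) (.ev (nat_lit 1188) (nat_lit 4) (.ev (nat_lit 1197) (nat_lit 2097152) .dd)))) (.ch (nat_lit
 9) (.ev (nat_lit 1072) (nat_lit 524356) (.nd (nat_lit 1328) (.br (nat_lit 7) (.ch (nat_lit 2) (.fin (nat_lit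
 576443709854794252))) (.br (nat_lit 10) (.ch (nat_lit 7) (.ev (nat_lit 1344) (nat_lit 18874368) .dd)) (.ch
 (nat_lit 10) (.ev (nat_lit 1380) (nat_lit 2097152) (.ev (nat_lit 1389) (nat_lit 16777216) .dd)))))))))))))))
 (.br (nat_lit 21) (.ch (nat_lit 18) (.ev (nat_lit 52) (nat_lit 100680002) (.ev (nat_lit 212) (nat_lit 2097152)
 (.ev (nat_lit 692) (nat_lit 524288) (.ev (nat_lit 1008) (nat_lit 4194304) (.nd (nat_lit 1056) (.br (nat_lit 5)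
 (.br (nat_lit 2) (.ch (nat_lit 0) (.ev (nat_lit 1072) (nat_lit 1048596) (.ev (nat_lit 1085) (nat_lit 16777216)
 .dd))) (.ch (nat_lit 2) (.ev (nat_lit 1072) (nat_lit 17825796) (.ev (nat_lit 1085) (nat_lit 16) .dd)))) (.br
 (nat_lit 7) (.ch (nat_lit 5) (.ev (nat_lit 1188) (nat_lit 16777232) (.ev (nat_lit 1270) (nat_lit 1048576) (.ev
 (nat_lit 1277) (nat_lit 4) .dd)))) (.ch (nat_lit 7) (.ev (nat_lit 1072) (nat_lit 17825812) .dd)))))))))) (.ch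
 (nat_lit 21) (.ev (nat_lit 52) (nat_lit 35651842) (.ev (nat_lit 128) (nat_lit 89669716) .dd))))) (.br (nat_lit
 26) (.br (nat_lit 24) (.ch (nat_lit 22) (.ev (nat_lit 52) (nat_lit 33554704) (.ev (nat_lit 64) (nat_lit
 91766854) .dd))) (.ch (nat_lit 24) (.ev (nat_lit 52) (nat_lit 73400388) (.ev (nat_lit 244) (nat_lit 524288)
 (.ev (nat_lit 692) (nat_lit 16384) (.ev (nat_lit 864) (nat_lit 50331664) (.nd (nat_lit 1056) (.br (nat_lit 7)
 (.br (nat_lit 1) (.ch (nat_lit 0) (.ev (nat_lit 1072) (nat_lit 1048578) (.ev (nat_lit 1085) (nat_lit 256)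
 .dd))) (.ch (nat_lit 1) (.ev (nat_lit 1072) (nat_lit 1048834) .dd))) (.br (nat_lit 10) (.ch (nat_lit 7) (.ev
 (nat_lit 1072) (nat_lit 256) (.ev (nat_lit 1188) (nat_lit 2) (.ev (nat_lit 1197) (nat_lit 1048576) .dd))))
 (.ch (nat_lit 10) (.ev (nat_lit 1072) (nat_lit 258) (.ev (nat_lit 1085) (nat_lit 1048576) .dd)))))))))))) (.br
 (nat_lit 28) (.ch (nat_lit 26) (.ev (nat_lit 52) (nat_lit 68174084) (.ev (nat_lit 244) (nat_lit 16777216) (.ev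
 (nat_lit 288) (nat_lit 40370258) .dd)))) (.br (nat_lit 29) (.ch (nat_lit 28) (.ev (nat_lit 52) (nat_lit
 6307858) (.ev (nat_lit 84) (nat_lit 67108864) (.ev (nat_lit 756) (nat_lit 33554432) (.nd (nat_lit 1056) (.br
 (nat_lit 9) (.br (nat_lit 2) (.ch (nat_lit 1) (.ev (nat_lit 1072) (nat_lit 17826052) (.nd (nat_lit 1328) (.br
 (nat_lit 5) (.ch (nat_lit 3) (.fin (nat_lit 576483292294365816))) (.ch (nat_lit 5) (.ev (nat_lit 1360)
 (nat_lit 524352) .dd)))))) (.ch (nat_lit 2) (.ev (nat_lit 1072) (nat_lit 1573188) (.ev (nat_lit 1085) (nat_lit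
 16777216) .dd)))) (.br (nat_lit 10) (.ch (nat_lit 9) (.ev (nat_lit 1072) (nat_lit 18350144) (.ev (nat_lit
 1136) (nat_lit 260) .dd))) (.ch (nat_lit 10) (.ev (nat_lit 1072) (nat_lit 16777540) (.nd (nat_lit 1328) (.br
 (nat_lit 10) (.ch (nat_lit 7) (.fin (nat_lit 576449207420273226))) (.ch (nat_lit 10) (.ev (nat_lit 1344)
 (nat_lit 1572864) .dd))))))))))))) (.ch (nat_lit 29) (.ev (nat_lit 52) (nat_lit 541008) (.ev (nat_lit 276)
 (nat_lit 1048576) (.ev (nat_lit 756) (nat_lit 16777216) (.ev (nat_lit 880) (nat_lit 100663298) (.nd (nat_lit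
 1056) (.br (nat_lit 5) (.br (nat_lit 2) (.ch (nat_lit 1) (.ev (nat_lit 1072) (nat_lit 6291456) (.ev (nat_lit
 1085) (nat_lit 4) .dd))) (.ch (nat_lit 2) (.ev (nat_lit 1072) (nat_lit 6291460) .dd))) (.br (nat_lit 7) (.ch
 (nat_lit 5) (.ev (nat_lit 1072) (nat_lit 4194304) (.ev (nat_lit 1188) (nat_lit 4) (.ev (nat_lit 1197) (nat_lit
 2097152) .dd)))) (.ch (nat_lit 7) (.ev (nat_lit 1072) (nat_lit 2097156) (.ev (nat_lit 1085) (nat_lit 4194304)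
 .dd)))))))))))))))) (.br (nat_lit 42) (.br (nat_lit 38) (.br (nat_lit 36) (.br (nat_lit 33) (.ch (nat_lit 31)
 (.ev (nat_lit 52) (nat_lit 35668224) (.ev (nat_lit 180) (nat_lit 4) (.ev (nat_lit 212) (nat_lit 2) (.ev
 (nat_lit 276) (nat_lit 64) (.ev (nat_lit 308) (nat_lit 16) (.nd (nat_lit 1056) (.br (nat_lit 9) (.br (nat_lit
 1) (.ch (nat_lit 0) (.ev (nat_lit 1072) (nat_lit 22020096) (.nd (nat_lit 1328) (.br (nat_lit 4) (.ch (nat_lit
 1) (.ev (nat_lit 1380) (nat_lit 524288) (.ev (nat_lit 1389) (nat_lit 67108864) .dd))) (.ch (nat_lit 4) (.fin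
 (nat_lit 576456903962870320))))))) (.ch (nat_lit 1) (.ev (nat_lit 1072) (nat_lit 72876032) (.ev (nat_lit 1085)
 (nat_lit 16777216) .dd)))) (.br (nat_lit 10) (.ch (nat_lit 9) (.ev (nat_lit 1072) (nat_lit 1572864) (.ev
 (nat_lit 1152) (nat_lit 67108864) (.fin (nat_lit 576473396676084309))))) (.ch (nat_lit 10) (.ev (nat_lit 1072)
 (nat_lit 20971520) (.ev (nat_lit 1236) (nat_lit 67108864) (.nd (nat_lit 1328) (.br (nat_lit 10) (.ch (nat_lit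
 7) (.fin (nat_lit 576473396701250102))) (.ch (nat_lit 10) (.ev (nat_lit 1344) (nat_lit 1048576) (.ev (nat_lit
 1357) (nat_lit 524288) .dd))))))))))))))))) (.ch (nat_lit 33) (.ev (nat_lit 52) (nat_lit 102760466) (.ev
 (nat_lit 224) (nat_lit 22561092) .dd)))) (.br (nat_lit 37) (.ch (nat_lit 36) (.ev (nat_lit 52) (nat_lit
 85983314) (.ev (nat_lit 212) (nat_lit 524288) (.ev (nat_lit 500) (nat_lit 1048576) (.nd (nat_lit 1056) (.br
 (nat_lit 5) (.br (nat_lit 2) (.ch (nat_lit 0) (.ev (nat_lit 1072) (nat_lit 37765120) (.ev (nat_lit 1088)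
 (nat_lit 4) (.ev (nat_lit 1101) (nat_lit 256) .dd)))) (.ch (nat_lit 2) (.ev (nat_lit 1072) (nat_lit 37748996)
 (.ev (nat_lit 1085) (nat_lit 16384) .dd)))) (.br (nat_lit 7) (.ch (nat_lit 5) (.ev (nat_lit 1072) (nat_lit
 4210944) (.ev (nat_lit 1168) (nat_lit 33554436) .dd))) (.ch (nat_lit 7) (.ev (nat_lit 1072) (nat_lit 33554692)
 (.ev (nat_lit 1104) (nat_lit 4194304) (.ev (nat_lit 1117) (nat_lit 16384) .dd))))))))))) (.ch (nat_lit 37)
 (.ev (nat_lit 52) (nat_lit 34619412) (.ev (nat_lit 116) (nat_lit 64) (.ev (nat_lit 212) (nat_lit 16777216)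
 (.ev (nat_lit 372) (nat_lit 4194304) (.ev (nat_lit 628) (nat_lit 2097152) (.ev (nat_lit 736) (nat_lit
 67633410) .dd))))))))) (.br (nat_lit 40) (.br (nat_lit 39) (.ch (nat_lit 38) (.ev (nat_lit 52) (nat_lit
 2113808) (.ev (nat_lit 116) (nat_lit 4) (.ev (nat_lit 212) (nat_lit 67108864) (.ev (nat_lit 756) (nat_lit 2)
 (.nd (nat_lit 1056) (.br (nat_lit 5) (.br (nat_lit 1) (.ch (nat_lit 0) (.ev (nat_lit 1072) (nat_lit 22020160)
 (.ev (nat_lit 1120) (nat_lit 524288) (.ev (nat_lit 1133) (nat_lit 33554432) .dd)))) (.ch (nat_lit 1) (.ev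
 (nat_lit 1072) (nat_lit 39321600) (.nd (nat_lit 1328) (.br (nat_lit 5) (.ch (nat_lit 4) (.fin (nat_lit
 576482192773300814))) (.ch (nat_lit 5) (.ev (nat_lit 1344) (nat_lit 64) (.ev (nat_lit 1357) (nat_lit 16777216)
 .dd)))))))) (.br (nat_lit 7) (.ch (nat_lit 5) (.ev (nat_lit 1072) (nat_lit 38273088) (.nd (nat_lit 1328) (.br
 (nat_lit 3) (.ch (nat_lit 2) (.ev (nat_lit 1344) (nat_lit 1048576) (.ev (nat_lit 1357) (nat_lit 16777216)
 .dd))) (.ch (nat_lit 3) (.fin (nat_lit 576461302007284292))))))) (.ch (nat_lit 7) (.ev (nat_lit 1072) (nat_lit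
 51380224) (.ev (nat_lit 1120) (nat_lit 4194368) (.ev (nat_lit 1133) (nat_lit 524288) .dd)))))))))))) (.ch
 (nat_lit 39) (.ev (nat_lit 52) (nat_lit 52429062) (.ev (nat_lit 84) (nat_lit 16384) (.ev (nat_lit 340)
 (nat_lit 64) (.ev (nat_lit 608) (nat_lit 72876048) .dd)))))) (.br (nat_lit 41) (.ch (nat_lit 40) (.ev (nat_lit
 52) (nat_lit 69747012) (.ev (nat_lit 148) (nat_lit 2) (.ev (nat_lit 340) (nat_lit 1048576) (.nd (nat_lit 1056)
 (.br (nat_lit 5) (.br (nat_lit 2) (.ch (nat_lit 0) (.ev (nat_lit 1072) (nat_lit 20971536) (.ev (nat_lit 1085)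
 (nat_lit 33554432) .dd))) (.ch (nat_lit 2) (.ev (nat_lit 1072) (nat_lit 50331648) (.nd (nat_lit 1328) (.br
 (nat_lit 8) (.ch (nat_lit 7) (.ev (nat_lit 1380) (nat_lit 16) (.ev (nat_lit 1389) (nat_lit 4194304) .dd)))
 (.ch (nat_lit 8) (.fin (nat_lit 576464600585159233)))))))) (.br (nat_lit 9) (.ch (nat_lit 5) (.ev (nat_lit
 1072) (nat_lit 54525952) (.ev (nat_lit 1085) (nat_lit 16) .dd))) (.ch (nat_lit 9) (.ev (nat_lit 1072) (nat_lit
 33554432) (.nd (nat_lit 1328) (.br (nat_lit 10) (.ch (nat_lit 7) (.ev (nat_lit 1344) (nat_lit 16) (.nd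
 (nat_lit 1393) (.ch (nat_lit 24) (.nd (nat_lit 1424) (.br (nat_lit 10) (.ch (nat_lit 7) (.ev (nat_lit 1440)
 (nat_lit 20971520) .dd)) (.ch (nat_lit 10) (.fin (nat_lit 576449207445439019))))))))) (.ch (nat_lit 10) (.ev
 (nat_lit 1344) (nat_lit 16777216) (.ev (nat_lit 1380) (nat_lit 4194304) (.ev (nat_lit 1389) (nat_lit 16)
 .dd))))))))))))))) (.ch (nat_lit 41) (.ev (nat_lit 52) (nat_lit 5259332) (.ev (nat_lit 192) (nat_lit
 120062226) .dd)))))) (.br (nat_lit 47) (.br (nat_lit 44) (.br (nat_lit 43) (.ch (nat_lit 42) (.ev (nat_lit 52)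
 (nat_lit 100663636) (.ev (nat_lit 340) (nat_lit 4194304) (.ev (nat_lit 960) (nat_lit 2) (.nd (nat_lit 1056)
 (.br (nat_lit 1) (.ch (nat_lit 0) (.ev (nat_lit 1072) (nat_lit 3686400) (.ev (nat_lit 1085) (nat_lit 16777216)
 .dd))) (.br (nat_lit 5) (.ch (nat_lit 1) (.ev (nat_lit 1072) (nat_lit 19922944) (.ev (nat_lit 1200) (nat_lit
 540672) .dd))) (.ch (nat_lit 5) (.ev (nat_lit 1072) (nat_lit 540672) (.ev (nat_lit 1188) (nat_lit 3145728)
 (.ev (nat_lit 1197) (nat_lit 16777216) .dd))))))))))) (.ch (nat_lit 43) (.ev (nat_lit 52) (nat_lit 90193920)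
 (.ev (nat_lit 116) (nat_lit 1048576) (.ev (nat_lit 660) (nat_lit 4) (.ev (nat_lit 944) (nat_lit 256) (.nd
 (nat_lit 1056) (.br (nat_lit 5) (.br (nat_lit 1) (.ch (nat_lit 0) (.ev (nat_lit 1072) (nat_lit 33554450) (.ev
 (nat_lit 1188) (nat_lit 64) (.ev (nat_lit 1197) (nat_lit 524288) .dd)))) (.ch (nat_lit 1) (.ev (nat_lit 1072)
 (nat_lit 34078802) .dd))) (.br (nat_lit 7) (.ch (nat_lit 5) (.ev (nat_lit 1072) (nat_lit 524354) (.ev (nat_lit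
 1120) (nat_lit 33554432) (.ev (nat_lit 1133) (nat_lit 16) .dd)))) (.ch (nat_lit 7) (.ev (nat_lit 1072)
 (nat_lit 33554448) (.ev (nat_lit 1188) (nat_lit 66) (.ev (nat_lit 1197) (nat_lit 524288) .dd))))))))))))) (.br
 (nat_lit 46) (.ch (nat_lit 44) (.ev (nat_lit 52) (nat_lit 88096848) (.ev (nat_lit 436) (nat_lit 1048576) (.ev
 (nat_lit 724) (nat_lit 35651584) (.nd (nat_lit 1056) (.br (nat_lit 9) (.br (nat_lit 2) (.ch (nat_lit 1) (.ev
 (nat_lit 1072) (nat_lit 258) (.nd (nat_lit 1328) (.br (nat_lit 7) (.ch (nat_lit 2) (.ev (nat_lit 1344)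
 (nat_lit 524288) (.ev (nat_lit 1357) (nat_lit 4) .dd))) (.ch (nat_lit 7) (.fin (nat_lit
 576460202568008241))))))) (.ch (nat_lit 2) (.ev (nat_lit 1072) (nat_lit 524548) (.ev (nat_lit 1085) (nat_lit
 2) .dd)))) (.br (nat_lit 10) (.ch (nat_lit 9) (.ev (nat_lit 1072) (nat_lit 524288) (.ev (nat_lit 1120)
 (nat_lit 256) (.nd (nat_lit 1328) (.br (nat_lit 5) (.ch (nat_lit 3) (.ev (nat_lit 1344) (nat_lit 2) (.ev
 (nat_lit 1357) (nat_lit 4) .dd))) (.ch (nat_lit 5) (.fin (nat_lit 576462401572389451)))))))) (.ch (nat_lit 10)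
 (.ev (nat_lit 1072) (nat_lit 262) (.ev (nat_lit 1085) (nat_lit 524288) .dd)))))))))) (.ch (nat_lit 46) (.ev
 (nat_lit 52) (nat_lit 103809090) (.ev (nat_lit 148) (nat_lit 524288) (.ev (nat_lit 180) (nat_lit 4194304) (.ev
 (nat_lit 500) (nat_lit 4) (.ev (nat_lit 704) (nat_lit 16793872) .dd)))))))) (.br (nat_lit 49) (.br (nat_lit
 48) (.ch (nat_lit 47) (.ev (nat_lit 52) (nat_lit 70795600) (.ev (nat_lit 84) (nat_lit 16777216) (.ev (nat_lit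
 212) (nat_lit 33554432) (.ev (nat_lit 820) (nat_lit 4194304) (.nd (nat_lit 1056) (.br (nat_lit 9) (.br
 (nat_lit 2) (.ch (nat_lit 0) (.nd (nat_lit 1328) (.br (nat_lit 7) (.ch (nat_lit 3) (.fin (nat_lit
 576500884446855768))) (.ch (nat_lit 7) (.ev (nat_lit 1344) (nat_lit 2) (.ev (nat_lit 1357) (nat_lit 4)
 .dd)))))) (.ch (nat_lit 2) (.ev (nat_lit 1072) (nat_lit 6) .dd))) (.br (nat_lit 10) (.ch (nat_lit 9) (.nd
 (nat_lit 1328) (.br (nat_lit 5) (.ch (nat_lit 0) (.ev (nat_lit 1344) (nat_lit 2) (.ev (nat_lit 1357) (nat_lit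
 4) .dd))) (.ch (nat_lit 5) (.fin (nat_lit 576462401572389451)))))) (.ch (nat_lit 10) (.ev (nat_lit 1072)
 (nat_lit 4) (.ev (nat_lit 1085) (nat_lit 2) .dd))))))))))) (.ch (nat_lit 48) (.ev (nat_lit 52) (nat_lit
 120062212) (.ev (nat_lit 180) (nat_lit 1048576) (.ev (nat_lit 244) (nat_lit 16384) (.ev (nat_lit 564) (nat_lit
 64) (.ev (nat_lit 628) (nat_lit 2) (.nd (nat_lit 1056) (.br (nat_lit 7) (.br (nat_lit 2) (.ch (nat_lit 1) (.ev
 (nat_lit 1072) (nat_lit 4194320) .dd)) (.ch (nat_lit 2) (.nd (nat_lit 1328) (.br (nat_lit 8) (.ch (nat_lit 1)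
 (.ev (nat_lit 1344) (nat_lit 4194304) (.ev (nat_lit 1357) (nat_lit 16) .dd))) (.ch (nat_lit 8) (.fin (nat_lit
 576464600585159233))))))) (.br (nat_lit 10) (.ch (nat_lit 7) (.nd (nat_lit 1328) (.br (nat_lit 10) (.ch
 (nat_lit 0) (.fin (nat_lit 576478894266728988))) (.ch (nat_lit 10) (.ev (nat_lit 1344) (nat_lit 4194304) (.ev
 (nat_lit 1357) (nat_lit 16) .dd)))))) (.ch (nat_lit 10) (.ev (nat_lit 1072) (nat_lit 16) (.ev (nat_lit 1085)
 (nat_lit 4194304) .dd))))))))))))) (.br (nat_lit 50) (.ch (nat_lit 49) (.ev (nat_lit 52) (nat_lit 35668036)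
 (.ev (nat_lit 212) (nat_lit 16) (.ev (nat_lit 276) (nat_lit 4194304) (.ev (nat_lit 724) (nat_lit 524288) (.nd
 (nat_lit 1056) (.br (nat_lit 7) (.br (nat_lit 2) (.ch (nat_lit 1) (.ev (nat_lit 1072) (nat_lit 68157698) (.ev
 (nat_lit 1085) (nat_lit 16777216) .dd))) (.br (nat_lit 5) (.ch (nat_lit 2) (.ev (nat_lit 1072) (nat_lit
 67109120) (.ev (nat_lit 1136) (nat_lit 2) (.nd (nat_lit 1328) (.br (nat_lit 8) (.ch (nat_lit 2) (.ev (nat_lit
 1344) (nat_lit 16777216) (.ev (nat_lit 1357) (nat_lit 1048576) .dd))) (.ch (nat_lit 8) (.ev (nat_lit 1344)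
 (nat_lit 1048576) (.ev (nat_lit 1357) (nat_lit 16777216) .dd)))))))) (.ch (nat_lit 5) (.ev (nat_lit 1072)
 (nat_lit 67109122) (.nd (nat_lit 1328) (.br (nat_lit 5) (.ch (nat_lit 3) (.fin (nat_lit 576461302114239036)))
 (.ch (nat_lit 5) (.ev (nat_lit 1344) (nat_lit 16777216) (.ev (nat_lit 1357) (nat_lit 1048576) .dd)))))))))
 (.br (nat_lit 9) (.ch (nat_lit 7) (.ev (nat_lit 1072) (nat_lit 84934658) (.ev (nat_lit 1085) (nat_lit 256)
 .dd))) (.br (nat_lit 10) (.ch (nat_lit 9) (.ev (nat_lit 1072) (nat_lit 17825794) (.ev (nat_lit 1104) (nat_lit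
 67108864) (.ev (nat_lit 1117) (nat_lit 256) .dd)))) (.ch (nat_lit 10) (.ev (nat_lit 1072) (nat_lit 83886338)
 (.ev (nat_lit 1085) (nat_lit 1048576) .dd)))))))))))) (.br (nat_lit 52) (.ch (nat_lit 50) (.ev (nat_lit 52)
 (nat_lit 16656) (.ev (nat_lit 84) (nat_lit 524288) (.ev (nat_lit 468) (nat_lit 4194304) (.ev (nat_lit 500)
 (nat_lit 64) (.ev (nat_lit 564) (nat_lit 1048576) (.ev (nat_lit 692) (nat_lit 67108864) (.nd (nat_lit 1056)
 (.br (nat_lit 7) (.br (nat_lit 1) (.ch (nat_lit 0) (.ev (nat_lit 1072) (nat_lit 52428800) (.nd (nat_lit 1328)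
 (.br (nat_lit 8) (.ch (nat_lit 3) (.fin (nat_lit 576500884446855768))) (.ch (nat_lit 8) (.ev (nat_lit 1344)
 (nat_lit 4) (.ev (nat_lit 1357) (nat_lit 2) .dd))))))) (.br (nat_lit 5) (.ch (nat_lit 1) (.ev (nat_lit 1072)
 (nat_lit 52428802) (.ev (nat_lit 1085) (nat_lit 4) .dd))) (.ch (nat_lit 5) (.ev (nat_lit 1072) (nat_lit
 18874374) (.ev (nat_lit 1085) (nat_lit 33554432) .dd))))) (.br (nat_lit 9) (.ch (nat_lit 7) (.ev (nat_lit
 1072) (nat_lit 52428804) (.ev (nat_lit 1085) (nat_lit 2) .dd))) (.br (nat_lit 10) (.ch (nat_lit 9) (.ev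
 (nat_lit 1072) (nat_lit 35651584) (.ev (nat_lit 1136) (nat_lit 16777216) (.ev (nat_lit 1222) (nat_lit 6)
 .dd)))) (.ch (nat_lit 10) (.ev (nat_lit 1072) (nat_lit 16777222) (.ev (nat_lit 1104) (nat_lit 2097152) (.ev
 (nat_lit 1117) (nat_lit 33554432) .dd))))))))))))))) (.ch (nat_lit 52) (.ev (nat_lit 52) (nat_lit 83902480)
 (.ev (nat_lit 212) (nat_lit 256) (.ev (nat_lit 244) (nat_lit 33554432) (.ev (nat_lit 404) (nat_lit 2097152)
 (.ev (nat_lit 660) (nat_lit 1048576) (.nd (nat_lit 1056) (.br (nat_lit 2) (.ch (nat_lit 0) (.ev (nat_lit 1072)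
 (nat_lit 4718658) (.ev (nat_lit 1085) (nat_lit 4) .dd))) (.br (nat_lit 7) (.ch (nat_lit 2) (.ev (nat_lit 1072)
 (nat_lit 4194368) (.ev (nat_lit 1188) (nat_lit 6) (.ev (nat_lit 1197) (nat_lit 524288) .dd)))) (.ch (nat_lit
 7) (.ev (nat_lit 1072) (nat_lit 524294) (.ev (nat_lit 1302) (nat_lit 4194304) (.ev (nat_lit 1309) (nat_lit 64)
 .dd)))))))))))))))))))))

/-- Subtrie. -/
noncomputable def T4 : Tr := (.ev (nat_lit 20) (nat_lit 843595778) (.nd (nat_lit 33) (.br (nat_lit 31) (.br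
 (nat_lit 16) (.br (nat_lit 10) (.br (nat_lit 6) (.br (nat_lit 5) (.ch (nat_lit 4) (.ev (nat_lit 52) (nat_lit
 209747972) (.ev (nat_lit 404) (nat_lit 1048576) (.ev (nat_lit 564) (nat_lit 64) (.ev (nat_lit 820) (nat_lit
 2097152) (.ev (nat_lit 852) (nat_lit 262144) (.ev (nat_lit 1024) (nat_lit 16777216) (.nd (nat_lit 1056) (.br
 (nat_lit 6) (.br (nat_lit 2) (.ch (nat_lit 0) (.ev (nat_lit 1072) (nat_lit 272) (.ev (nat_lit 1085) (nat_lit
 8192) .dd))) (.br (nat_lit 4) (.ch (nat_lit 2) (.ev (nat_lit 1072) (nat_lit 8192) (.ev (nat_lit 1088) (nat_lit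
 272) .dd))) (.ch (nat_lit 4) (.ev (nat_lit 1072) (nat_lit 8448) (.ev (nat_lit 1085) (nat_lit 16) .dd))))) (.br
 (nat_lit 7) (.ch (nat_lit 6) (.ev (nat_lit 1072) (nat_lit 8464) .dd)) (.br (nat_lit 8) (.ch (nat_lit 7) (.ev
 (nat_lit 1072) (nat_lit 8464) .dd)) (.ch (nat_lit 8) (.ev (nat_lit 1072) (nat_lit 16) (.fin (nat_lit
 576462401572389443))))))))))))))) (.ch (nat_lit 5) (.ev (nat_lit 52) (nat_lit 28344388) (.ev (nat_lit 372)
 (nat_lit 16) (.ev (nat_lit 596) (nat_lit 262144) (.ev (nat_lit 1040) (nat_lit 134217728) (.nd (nat_lit 1056)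
 (.br (nat_lit 6) (.br (nat_lit 4) (.ch (nat_lit 2) (.ev (nat_lit 1072) (nat_lit 67117312) .dd)) (.br (nat_lit
 5) (.ch (nat_lit 4) (.ev (nat_lit 1072) (nat_lit 67109120) (.ev (nat_lit 1085) (nat_lit 8192) .dd))) (.ch
 (nat_lit 5) (.ev (nat_lit 1072) (nat_lit 8192) (.ev (nat_lit 1088) (nat_lit 67109120) .dd))))) (.br (nat_lit
 7) (.ch (nat_lit 6) (.ev (nat_lit 1072) (nat_lit 8448) (.ev (nat_lit 1085) (nat_lit 67108864) .dd))) (.br
 (nat_lit 8) (.ch (nat_lit 7) (.ev (nat_lit 1072) (nat_lit 67117312) .dd)) (.ch (nat_lit 8) (.ev (nat_lit 1072)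
 (nat_lit 67108864) (.fin (nat_lit 576462401572389443)))))))))))))) (.br (nat_lit 9) (.ch (nat_lit 6) (.ev
 (nat_lit 52) (nat_lit 134520836) (.ev (nat_lit 116) (nat_lit 16) (.ev (nat_lit 436) (nat_lit 2097152) (.ev
 (nat_lit 500) (nat_lit 64) (.ev (nat_lit 628) (nat_lit 16777216) (.nd (nat_lit 1056) (.br (nat_lit 5) (.br
 (nat_lit 2) (.ch (nat_lit 0) (.ev (nat_lit 1072) (nat_lit 9437440) (.ev (nat_lit 1085) (nat_lit 67108864)
 .dd))) (.ch (nat_lit 2) (.ev (nat_lit 1072) (nat_lit 256) (.ev (nat_lit 1088) (nat_lit 8388608) (.ev (nat_lit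
 1152) (nat_lit 1048576) (.ev (nat_lit 1165) (nat_lit 67108864) .dd)))))) (.br (nat_lit 7) (.ch (nat_lit 5)
 (.ev (nat_lit 1072) (nat_lit 68157440) (.ev (nat_lit 1104) (nat_lit 256) (.ev (nat_lit 1117) (nat_lit 8388608)
 .dd)))) (.ch (nat_lit 7) (.ev (nat_lit 1072) (nat_lit 76546304) .dd))))))))))) (.ch (nat_lit 9) (.ev (nat_lit
 52) (nat_lit 142876932) (.ev (nat_lit 244) (nat_lit 67108864) (.ev (nat_lit 416) (nat_lit 19955792) .dd))))))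
 (.br (nat_lit 12) (.br (nat_lit 11) (.ch (nat_lit 10) (.ev (nat_lit 52) (nat_lit 8429904) (.ev (nat_lit 116)
 (nat_lit 134217728) (.ev (nat_lit 308) (nat_lit 16777216) (.ev (nat_lit 372) (nat_lit 262144) (.nd (nat_lit
 1056) (.br (nat_lit 4) (.br (nat_lit 2) (.ch (nat_lit 0) (.ev (nat_lit 1072) (nat_lit 1048576) (.ev (nat_lit
 1252) (nat_lit 2097152) (.nd (nat_lit 1328) (.br (nat_lit 3) (.ch (nat_lit 0) (.nd (nat_lit 1393) (.ch
 (nat_lit 46) (.nd (nat_lit 1424) (.br (nat_lit 10) (.ch (nat_lit 7) (.ev (nat_lit 1440) (nat_lit 67108868)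
 .dd)) (.ch (nat_lit 10) (.fin (nat_lit 576479993745850958)))))))) (.ch (nat_lit 3) (.ev (nat_lit 1344)
 (nat_lit 4) (.ev (nat_lit 1357) (nat_lit 67108864) .dd)))))))) (.ch (nat_lit 2) (.ev (nat_lit 1072) (nat_lit
 69206020) (.ev (nat_lit 1085) (nat_lit 1048576) .dd)))) (.br (nat_lit 7) (.ch (nat_lit 4) (.ev (nat_lit 1072)
 (nat_lit 1048580) (.nd (nat_lit 1328) (.br (nat_lit 4) (.ch (nat_lit 3) (.ev (nat_lit 1380) (nat_lit 2097152)
 (.ev (nat_lit 1389) (nat_lit 67108864) .dd))) (.ch (nat_lit 4) (.fin (nat_lit 576451406454014526))))))) (.ch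
 (nat_lit 7) (.ev (nat_lit 1072) (nat_lit 68157444) (.ev (nat_lit 1085) (nat_lit 2097152) .dd))))))))))) (.ch
 (nat_lit 11) (.ev (nat_lit 52) (nat_lit 137625680) (.ev (nat_lit 148) (nat_lit 16777216) (.ev (nat_lit 308)
 (nat_lit 8388608) (.ev (nat_lit 576) (nat_lit 67150084) .dd)))))) (.br (nat_lit 15) (.ch (nat_lit 12) (.ev
 (nat_lit 52) (nat_lit 26517508) (.ev (nat_lit 276) (nat_lit 16) (.ev (nat_lit 564) (nat_lit 2097152) (.nd
 (nat_lit 1056) (.br (nat_lit 5) (.br (nat_lit 4) (.ch (nat_lit 2) (.ev (nat_lit 1072) (nat_lit 201326912)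
 .dd)) (.ch (nat_lit 4) (.ev (nat_lit 1072) (nat_lit 320) (.ev (nat_lit 1088) (nat_lit 67108864) (.ev (nat_lit
 1101) (nat_lit 134217728) .dd))))) (.br (nat_lit 7) (.ch (nat_lit 5) (.ev (nat_lit 1072) (nat_lit 201326592)
 (.ev (nat_lit 1088) (nat_lit 256) (.ev (nat_lit 1101) (nat_lit 64) .dd)))) (.ch (nat_lit 7) (.ev (nat_lit
 1072) (nat_lit 201326912) .dd))))))))) (.ch (nat_lit 15) (.ev (nat_lit 52) (nat_lit 8421652) (.ev (nat_lit
 180) (nat_lit 64) (.ev (nat_lit 340) (nat_lit 134479872) (.nd (nat_lit 1056) (.br (nat_lit 5) (.br (nat_lit 4)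
 (.ch (nat_lit 2) (.ev (nat_lit 1072) (nat_lit 83894272) (.ev (nat_lit 1120) (nat_lit 2097152) (.ev (nat_lit
 1133) (nat_lit 1048576) .dd)))) (.ch (nat_lit 4) (.ev (nat_lit 1072) (nat_lit 17825792) (.ev (nat_lit 1088)
 (nat_lit 8192) (.nd (nat_lit 1328) (.br (nat_lit 7) (.ch (nat_lit 4) (.fin (nat_lit 576451406454014526))) (.ch
 (nat_lit 7) (.ev (nat_lit 1380) (nat_lit 2097152) (.ev (nat_lit 1389) (nat_lit 67108864) .dd))))))))) (.br
 (nat_lit 7) (.ch (nat_lit 5) (.ev (nat_lit 1072) (nat_lit 3153920) (.nd (nat_lit 1328) (.br (nat_lit 6) (.ch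
 (nat_lit 4) (.fin (nat_lit 576439311829254664))) (.ch (nat_lit 6) (.ev (nat_lit 1344) (nat_lit 16777216) (.ev
 (nat_lit 1357) (nat_lit 67108864) .dd))))))) (.ch (nat_lit 7) (.ev (nat_lit 1072) (nat_lit 87040000)
 .dd)))))))))))) (.br (nat_lit 22) (.br (nat_lit 18) (.br (nat_lit 17) (.ch (nat_lit 16) (.ev (nat_lit 52)
 (nat_lit 151035968) (.ev (nat_lit 116) (nat_lit 262144) (.ev (nat_lit 276) (nat_lit 2097152) (.ev (nat_lit
 480) (nat_lit 76546324) .dd))))) (.ch (nat_lit 17) (.ev (nat_lit 52) (nat_lit 68452624) (.ev (nat_lit 532)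
 (nat_lit 134217728) (.ev (nat_lit 596) (nat_lit 8192) (.ev (nat_lit 660) (nat_lit 4) (.nd (nat_lit 1056) (.br
 (nat_lit 6) (.br (nat_lit 2) (.ch (nat_lit 0) (.ev (nat_lit 1072) (nat_lit 64) (.ev (nat_lit 1120) (nat_lit
 8388608) (.nd (nat_lit 1328) (.br (nat_lit 2) (.ch (nat_lit 1) (.ev (nat_lit 1344) (nat_lit 2097152) (.ev
 (nat_lit 1357) (nat_lit 16777216) .dd))) (.br (nat_lit 10) (.ch (nat_lit 2) (.fin (nat_lit
 576464600585159234))) (.ch (nat_lit 10) (.ev (nat_lit 1344) (nat_lit 16777216) (.ev (nat_lit 1357) (nat_lit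
 2097152) .dd))))))))) (.ch (nat_lit 2) (.ev (nat_lit 1072) (nat_lit 25165888) (.ev (nat_lit 1085) (nat_lit
 2097152) .dd)))) (.br (nat_lit 7) (.ch (nat_lit 6) (.ev (nat_lit 1072) (nat_lit 27262976) (.ev (nat_lit 1085)
 (nat_lit 64) .dd))) (.ch (nat_lit 7) (.ev (nat_lit 1072) (nat_lit 10485760) (.nd (nat_lit 1328) (.br (nat_lit
 10) (.ch (nat_lit 2) (.ev (nat_lit 1344) (nat_lit 64) (.ev (nat_lit 1357) (nat_lit 16777216) .dd))) (.ch
 (nat_lit 10) (.fin (nat_lit 576440411348222514)))))))))))))))) (.br (nat_lit 21) (.ch (nat_lit 18) (.ev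
 (nat_lit 52) (nat_lit 67150144) (.ev (nat_lit 256) (nat_lit 162791444) .dd))) (.ch (nat_lit 21) (.ev (nat_lit
 52) (nat_lit 2400512) (.ev (nat_lit 116) (nat_lit 4) (.ev (nat_lit 244) (nat_lit 1048576) (.ev (nat_lit 468)
 (nat_lit 134217728) (.ev (nat_lit 992) (nat_lit 16) (.nd (nat_lit 1056) (.br (nat_lit 5) (.br (nat_lit 2) (.ch
 (nat_lit 0) (.ev (nat_lit 1072) (nat_lit 92274688) (.ev (nat_lit 1085) (nat_lit 64) .dd))) (.ch (nat_lit 2)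
 (.ev (nat_lit 1072) (nat_lit 25165888) (.ev (nat_lit 1085) (nat_lit 67108864) .dd)))) (.br (nat_lit 7) (.ch
 (nat_lit 5) (.ev (nat_lit 1188) (nat_lit 67108928) (.ev (nat_lit 1312) (nat_lit 25165824) .dd))) (.ch (nat_lit
 7) (.ev (nat_lit 1072) (nat_lit 92274752) .dd))))))))))))) (.br (nat_lit 26) (.br (nat_lit 24) (.ch (nat_lit
 22) (.ev (nat_lit 52) (nat_lit 134226192) (.ev (nat_lit 148) (nat_lit 67108864) (.ev (nat_lit 244) (nat_lit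
 16777216) (.ev (nat_lit 468) (nat_lit 2097152) (.ev (nat_lit 852) (nat_lit 32768) (.nd (nat_lit 1056) (.br
 (nat_lit 4) (.br (nat_lit 2) (.ch (nat_lit 0) (.ev (nat_lit 1072) (nat_lit 9699392) (.ev (nat_lit 1085)
 (nat_lit 4) .dd))) (.ch (nat_lit 2) (.ev (nat_lit 1072) (nat_lit 8388676) (.nd (nat_lit 1328) (.br (nat_lit
 10) (.ch (nat_lit 4) (.fin (nat_lit 576465700158652980))) (.ch (nat_lit 10) (.ev (nat_lit 1380) (nat_lit
 262144) (.ev (nat_lit 1389) (nat_lit 1048576) .dd)))))))) (.br (nat_lit 6) (.ch (nat_lit 4) (.ev (nat_lit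
 1072) (nat_lit 68) (.nd (nat_lit 1328) (.br (nat_lit 7) (.ch (nat_lit 2) (.ev (nat_lit 1344) (nat_lit 1048576)
 (.fin (nat_lit 576473396690764338)))) (.ch (nat_lit 7) (.ev (nat_lit 1344) (nat_lit 8388608) (.ev (nat_lit
 1380) (nat_lit 262144) (.ev (nat_lit 1389) (nat_lit 1048576) .dd)))))))) (.ch (nat_lit 6) (.ev (nat_lit 1072)
 (nat_lit 8650752) (.ev (nat_lit 1152) (nat_lit 1048576) (.fin (nat_lit 576473396686570073)))))))))))))) (.ch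
 (nat_lit 24) (.ev (nat_lit 52) (nat_lit 203685956) (.ev (nat_lit 320) (nat_lit 26255632) .dd)))) (.br (nat_lit
 28) (.ch (nat_lit 26) (.ev (nat_lit 52) (nat_lit 76587268) (.ev (nat_lit 448) (nat_lit 153354320) .dd))) (.br
 (nat_lit 29) (.ch (nat_lit 28) (.ev (nat_lit 52) (nat_lit 10747920) (.ev (nat_lit 160) (nat_lit 219193668)
 .dd))) (.ch (nat_lit 29) (.ev (nat_lit 52) (nat_lit 8651088) (.ev (nat_lit 372) (nat_lit 32768) (.ev (nat_lit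
 500) (nat_lit 8192) (.ev (nat_lit 788) (nat_lit 2097152) (.nd (nat_lit 1056) (.br (nat_lit 4) (.ch (nat_lit 2)
 (.ev (nat_lit 1072) (nat_lit 150994948) (.ev (nat_lit 1280) (nat_lit 68157440) .dd))) (.br (nat_lit 5) (.ch
 (nat_lit 4) (.ev (nat_lit 1072) (nat_lit 84934660) (.ev (nat_lit 1085) (nat_lit 134217728) .dd))) (.ch
 (nat_lit 5) (.ev (nat_lit 1072) (nat_lit 68157440) (.ev (nat_lit 1188) (nat_lit 16777220) (.ev (nat_lit 1197)
 (nat_lit 134217728) .dd))))))))))))))))) (.br (nat_lit 42) (.br (nat_lit 38) (.br (nat_lit 36) (.br (nat_lit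
 33) (.ch (nat_lit 31) (.ev (nat_lit 52) (nat_lit 2105600) (.ev (nat_lit 96) (nat_lit 227835988) .dd))) (.ch
 (nat_lit 33) (.ev (nat_lit 52) (nat_lit 203423760) (.ev (nat_lit 148) (nat_lit 1048576) (.ev (nat_lit 532)
 (nat_lit 8192) (.ev (nat_lit 596) (nat_lit 64) (.nd (nat_lit 1056) (.br (nat_lit 7) (.br (nat_lit 5) (.ch
 (nat_lit 4) (.ev (nat_lit 1072) (nat_lit 17039620) (.nd (nat_lit 1328) (.br (nat_lit 4) (.ch (nat_lit 0) (.fin
 (nat_lit 576421719609655860))) (.br (nat_lit 9) (.ch (nat_lit 4) (.ev (nat_lit 1344) (nat_lit 32768) (.ev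
 (nat_lit 1357) (nat_lit 8388608) .dd))) (.ch (nat_lit 9) (.ev (nat_lit 1344) (nat_lit 8388608) (.ev (nat_lit
 1357) (nat_lit 32768) .dd)))))))) (.ch (nat_lit 5) (.ev (nat_lit 1072) (nat_lit 8683776) (.ev (nat_lit 1120)
 (nat_lit 4) (.ev (nat_lit 1133) (nat_lit 16777216) .dd))))) (.br (nat_lit 8) (.ch (nat_lit 7) (.ev (nat_lit
 1072) (nat_lit 25166084) (.nd (nat_lit 1328) (.br (nat_lit 3) (.ch (nat_lit 1) (.fin (nat_lit
 576442610375672381))) (.ch (nat_lit 3) (.ev (nat_lit 1344) (nat_lit 262144) (.ev (nat_lit 1357) (nat_lit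
 32768) .dd))))))) (.ch (nat_lit 8) (.ev (nat_lit 1072) (nat_lit 25198592) (.ev (nat_lit 1120) (nat_lit 262400)
 (.ev (nat_lit 1133) (nat_lit 4) .dd))))))))))))) (.br (nat_lit 37) (.ch (nat_lit 36) (.ev (nat_lit 52)
 (nat_lit 228597840) (.ev (nat_lit 180) (nat_lit 256) (.ev (nat_lit 436) (nat_lit 4) (.ev (nat_lit 832)
 (nat_lit 1343488) .dd))))) (.ch (nat_lit 37) (.ev (nat_lit 52) (nat_lit 135561236) (.ev (nat_lit 116) (nat_lit
 64) (.ev (nat_lit 788) (nat_lit 8192) (.nd (nat_lit 1056) (.br (nat_lit 6) (.br (nat_lit 4) (.ch (nat_lit 0)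
 (.ev (nat_lit 1072) (nat_lit 8388864) (.ev (nat_lit 1188) (nat_lit 67108864) (.nd (nat_lit 1328) (.br (nat_lit
 3) (.ch (nat_lit 2) (.fin (nat_lit 576464600585159234))) (.ch (nat_lit 3) (.ev (nat_lit 1344) (nat_lit
 16777216) (.ev (nat_lit 1357) (nat_lit 2097152) .dd)))))))) (.br (nat_lit 5) (.ch (nat_lit 4) (.ev (nat_lit
 1072) (nat_lit 16777472) (.ev (nat_lit 1088) (nat_lit 8388608) (.ev (nat_lit 1236) (nat_lit 67108864) (.ev
 (nat_lit 1245) (nat_lit 2097152) .dd))))) (.ch (nat_lit 5) (.ev (nat_lit 1072) (nat_lit 10486016) (.fin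
 (nat_lit 576483292292268664)))))) (.br (nat_lit 7) (.ch (nat_lit 6) (.ev (nat_lit 1072) (nat_lit 94372096)
 .dd)) (.br (nat_lit 8) (.ch (nat_lit 7) (.ev (nat_lit 1072) (nat_lit 94372096) .dd)) (.ch (nat_lit 8) (.ev
 (nat_lit 1072) (nat_lit 75497472) (.ev (nat_lit 1104) (nat_lit 18874624) .dd))))))))))))) (.br (nat_lit 40)
 (.br (nat_lit 39) (.ch (nat_lit 38) (.ev (nat_lit 52) (nat_lit 10756368) (.ev (nat_lit 276) (nat_lit 32768)
 (.ev (nat_lit 500) (nat_lit 134217728) (.ev (nat_lit 628) (nat_lit 1048576) (.nd (nat_lit 1056) (.br (nat_lit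
 5) (.br (nat_lit 2) (.ch (nat_lit 0) (.ev (nat_lit 1072) (nat_lit 16777280) (.nd (nat_lit 1328) (.br (nat_lit
 7) (.ch (nat_lit 0) (.fin (nat_lit 576442610375672370))) (.ch (nat_lit 7) (.ev (nat_lit 1344) (nat_lit 4) (.ev
 (nat_lit 1357) (nat_lit 67108864) .dd))))))) (.ch (nat_lit 2) (.ev (nat_lit 1072) (nat_lit 16777284) (.ev
 (nat_lit 1085) (nat_lit 67108864) .dd)))) (.br (nat_lit 7) (.ch (nat_lit 5) (.ev (nat_lit 1072) (nat_lit
 83886084) (.ev (nat_lit 1085) (nat_lit 64) .dd))) (.ch (nat_lit 7) (.ev (nat_lit 1072) (nat_lit 67108868) (.nd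
 (nat_lit 1328) (.br (nat_lit 10) (.ch (nat_lit 3) (.ev (nat_lit 1344) (nat_lit 16777216) (.ev (nat_lit 1357)
 (nat_lit 64) .dd))) (.ch (nat_lit 10) (.fin (nat_lit 576482192773300814))))))))))))))) (.ch (nat_lit 39) (.ev
 (nat_lit 52) (nat_lit 27263236) (.ev (nat_lit 180) (nat_lit 16) (.ev (nat_lit 276) (nat_lit 134217728) (.nd
 (nat_lit 1056) (.br (nat_lit 5) (.br (nat_lit 4) (.ch (nat_lit 2) (.ev (nat_lit 1072) (nat_lit 67149888) (.fin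
 (nat_lit 576465700158652980)))) (.ch (nat_lit 4) (.ev (nat_lit 1072) (nat_lit 1343552) (.ev (nat_lit 1136)
 (nat_lit 67117056) .dd)))) (.br (nat_lit 7) (.ch (nat_lit 5) (.ev (nat_lit 1072) (nat_lit 68460544) (.ev
 (nat_lit 1085) (nat_lit 64) .dd))) (.ch (nat_lit 7) (.ev (nat_lit 1072) (nat_lit 68165696) (.nd (nat_lit 1328)
 (.br (nat_lit 10) (.ch (nat_lit 1) (.fin (nat_lit 576479993745850947))) (.ch (nat_lit 10) (.ev (nat_lit 1344)
 (nat_lit 294912) .dd)))))))))))))) (.br (nat_lit 41) (.ch (nat_lit 40) (.ev (nat_lit 52) (nat_lit 203456836)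
 (.ev (nat_lit 468) (nat_lit 16) (.ev (nat_lit 532) (nat_lit 262144) (.nd (nat_lit 1056) (.br (nat_lit 6) (.br
 (nat_lit 2) (.ch (nat_lit 0) (.ev (nat_lit 1072) (nat_lit 1056768) (.ev (nat_lit 1104) (nat_lit 8388608) (.ev
 (nat_lit 1117) (nat_lit 16777216) .dd)))) (.ch (nat_lit 2) (.ev (nat_lit 1072) (nat_lit 26222592) .dd))) (.br
 (nat_lit 8) (.ch (nat_lit 6) (.ev (nat_lit 1072) (nat_lit 25174016) (.ev (nat_lit 1085) (nat_lit 1048576)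
 .dd))) (.ch (nat_lit 8) (.ev (nat_lit 1072) (nat_lit 8388608) (.ev (nat_lit 1088) (nat_lit 16777216) (.ev
 (nat_lit 1152) (nat_lit 8192) (.ev (nat_lit 1165) (nat_lit 1048576) .dd)))))))))))) (.ch (nat_lit 41) (.ev
 (nat_lit 52) (nat_lit 9445444) (.ev (nat_lit 84) (nat_lit 67108864) (.ev (nat_lit 352) (nat_lit 153387280)
 .dd))))))) (.br (nat_lit 47) (.br (nat_lit 44) (.br (nat_lit 43) (.ch (nat_lit 42) (.ev (nat_lit 52) (nat_lit
 75506004) (.ev (nat_lit 116) (nat_lit 32768) (.ev (nat_lit 180) (nat_lit 262144) (.ev (nat_lit 372) (nat_lit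
 134217728) (.ev (nat_lit 800) (nat_lit 19922944) .dd)))))) (.ch (nat_lit 43) (.ev (nat_lit 52) (nat_lit
 220463104) (.ev (nat_lit 340) (nat_lit 256) (.ev (nat_lit 372) (nat_lit 8192) (.ev (nat_lit 564) (nat_lit 16)
 (.nd (nat_lit 1056) (.br (nat_lit 5) (.ch (nat_lit 4) (.ev (nat_lit 1072) (nat_lit 1048644) (.nd (nat_lit
 1328) (.br (nat_lit 7) (.ch (nat_lit 0) (.fin (nat_lit 576421719609655860))) (.br (nat_lit 9) (.ch (nat_lit 7)
 (.ev (nat_lit 1344) (nat_lit 8421376) .dd)) (.ch (nat_lit 9) (.ev (nat_lit 1344) (nat_lit 32768) (.ev (nat_lit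
 1357) (nat_lit 8388608) .dd)))))))) (.br (nat_lit 6) (.ch (nat_lit 5) (.ev (nat_lit 1072) (nat_lit 1081408)
 (.ev (nat_lit 1188) (nat_lit 4) (.ev (nat_lit 1197) (nat_lit 8388608) .dd)))) (.ch (nat_lit 6) (.ev (nat_lit
 1072) (nat_lit 8388608) (.nd (nat_lit 1328) (.br (nat_lit 6) (.ch (nat_lit 4) (.ev (nat_lit 1344) (nat_lit 68)
 (.fin (nat_lit 576460202568008270)))) (.br (nat_lit 8) (.ch (nat_lit 6) (.ev (nat_lit 1344) (nat_lit 1081344)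
 (.fin (nat_lit 576449207434953255)))) (.ch (nat_lit 8) (.ev (nat_lit 1344) (nat_lit 1081408) (.ev (nat_lit
 1357) (nat_lit 4) .dd))))))))))))))))) (.br (nat_lit 46) (.ch (nat_lit 44) (.ev (nat_lit 52) (nat_lit
 218374224) (.ev (nat_lit 244) (nat_lit 8388608) (.ev (nat_lit 468) (nat_lit 4) (.ev (nat_lit 532) (nat_lit
 32768) (.ev (nat_lit 768) (nat_lit 3145984) .dd)))))) (.ch (nat_lit 46) (.ev (nat_lit 52) (nat_lit 204472384)
 (.ev (nat_lit 404) (nat_lit 8388608) (.ev (nat_lit 436) (nat_lit 262144) (.ev (nat_lit 468) (nat_lit 32768)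
 (.ev (nat_lit 596) (nat_lit 256) (.nd (nat_lit 1056) (.br (nat_lit 6) (.br (nat_lit 2) (.ch (nat_lit 0) (.ev
 (nat_lit 1072) (nat_lit 16785424) (.ev (nat_lit 1085) (nat_lit 4) .dd))) (.br (nat_lit 5) (.ch (nat_lit 2)
 (.ev (nat_lit 1072) (nat_lit 16785412) (.ev (nat_lit 1085) (nat_lit 16) .dd))) (.ch (nat_lit 5) (.ev (nat_lit
 1072) (nat_lit 8192) (.ev (nat_lit 1104) (nat_lit 16777216) (.ev (nat_lit 1188) (nat_lit 4) (.ev (nat_lit
 1197) (nat_lit 16) .dd))))))) (.br (nat_lit 7) (.ch (nat_lit 6) (.ev (nat_lit 1072) (nat_lit 16785428) .dd))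
 (.br (nat_lit 8) (.ch (nat_lit 7) (.ev (nat_lit 1072) (nat_lit 16785428) .dd)) (.ch (nat_lit 8) (.ev (nat_lit
 1072) (nat_lit 16777216) (.ev (nat_lit 1104) (nat_lit 8192) (.ev (nat_lit 1188) (nat_lit 4) (.ev (nat_lit
 1197) (nat_lit 16) .dd))))))))))))))))) (.br (nat_lit 49) (.br (nat_lit 48) (.ch (nat_lit 47) (.ev (nat_lit
 52) (nat_lit 70254928) (.ev (nat_lit 84) (nat_lit 16777216) (.ev (nat_lit 180) (nat_lit 8192) (.ev (nat_lit
 660) (nat_lit 32768) (.nd (nat_lit 1056) (.br (nat_lit 5) (.br (nat_lit 4) (.ch (nat_lit 0) (.ev (nat_lit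
 1072) (nat_lit 8650756) (.ev (nat_lit 1085) (nat_lit 134217728) .dd))) (.ch (nat_lit 4) (.ev (nat_lit 1072)
 (nat_lit 4) (.ev (nat_lit 1188) (nat_lit 134217728) (.nd (nat_lit 1328) (.br (nat_lit 7) (.ch (nat_lit 2) (.nd
 (nat_lit 1393) (.br (nat_lit 40) (.ch (nat_lit 29) (.ev (nat_lit 1409) (nat_lit 8650752) .dd)) (.ch (nat_lit
 40) (.nd (nat_lit 1424) (.br (nat_lit 8) (.ch (nat_lit 2) (.ev (nat_lit 1440) (nat_lit 8650752) .dd)) (.ch
 (nat_lit 8) (.fin (nat_lit 576449207430758990))))))))) (.ch (nat_lit 7) (.ev (nat_lit 1344) (nat_lit 8650752)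
 .dd)))))))) (.br (nat_lit 7) (.ch (nat_lit 5) (.ev (nat_lit 1072) (nat_lit 134479872) (.ev (nat_lit 1136)
 (nat_lit 4) (.ev (nat_lit 1149) (nat_lit 8388608) .dd)))) (.ch (nat_lit 7) (.ev (nat_lit 1072) (nat_lit
 8650756) (.ev (nat_lit 1085) (nat_lit 134217728) .dd))))))))))) (.ch (nat_lit 48) (.ev (nat_lit 52) (nat_lit
 94634244) (.ev (nat_lit 436) (nat_lit 134217728) (.ev (nat_lit 564) (nat_lit 8192) (.nd (nat_lit 1056) (.br
 (nat_lit 5) (.br (nat_lit 2) (.ch (nat_lit 0) (.ev (nat_lit 1072) (nat_lit 1081360) (.ev (nat_lit 1085)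
 (nat_lit 64) .dd))) (.ch (nat_lit 2) (.ev (nat_lit 1072) (nat_lit 1048640) (.ev (nat_lit 1136) (nat_lit 16)
 (.ev (nat_lit 1149) (nat_lit 32768) .dd))))) (.br (nat_lit 6) (.ch (nat_lit 5) (.ev (nat_lit 1072) (nat_lit
 1081360) (.ev (nat_lit 1085) (nat_lit 64) .dd))) (.ch (nat_lit 6) (.ev (nat_lit 1072) (nat_lit 16) (.ev
 (nat_lit 1188) (nat_lit 64) (.nd (nat_lit 1328) (.br (nat_lit 6) (.ch (nat_lit 4) (.nd (nat_lit 1393) (.ch
 (nat_lit 41) (.nd (nat_lit 1424) (.br (nat_lit 8) (.ch (nat_lit 6) (.fin (nat_lit 576462401553515058))) (.ch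
 (nat_lit 8) (.ev (nat_lit 1440) (nat_lit 1081344) .dd))))))) (.ch (nat_lit 6) (.ev (nat_lit 1344) (nat_lit
 1081344) .dd))))))))))))))) (.br (nat_lit 50) (.ch (nat_lit 49) (.ev (nat_lit 52) (nat_lit 136314948) (.ev
 (nat_lit 84) (nat_lit 9437184) (.ev (nat_lit 340) (nat_lit 8192) (.ev (nat_lit 512) (nat_lit 84181264)
 .dd))))) (.br (nat_lit 52) (.ch (nat_lit 50) (.ev (nat_lit 52) (nat_lit 134258960) (.ev (nat_lit 148) (nat_lit
 8388608) (.ev (nat_lit 180) (nat_lit 4) (.ev (nat_lit 372) (nat_lit 2097152) (.ev (nat_lit 640) (nat_lit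
 85196864) .dd)))))) (.ch (nat_lit 52) (.ev (nat_lit 52) (nat_lit 84189200) (.ev (nat_lit 276) (nat_lit 64)
 (.ev (nat_lit 544) (nat_lit 145752324) .dd))))))))))))

/-- The trie. -/
noncomputable def T : Tr := .nd (nat_lit 1000000) (.br (nat_lit 4) (.br (nat_lit 1) (.ch (nat_lit 0) (.ev
 (nat_lit 0) (nat_lit 2147483647) .dd)) (.ch (nat_lit 1) T1)) (.br (nat_lit 5) (.ch (nat_lit 4) T4) (.br
 (nat_lit 10) (.ch (nat_lit 5) (.ev (nat_lit 0) (nat_lit 2147483647) .dd)) (.ch (nat_lit 10) (.ev (nat_lit 0)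
 (nat_lit 2147483647) .dd)))))

/-- The possible values. -/
noncomputable def oks : List ℕ := [15, 223, 1071, 5234]

/-- The parameters. -/
noncomputable def S : Pr := ⟨fun i l e => lget mz (lget [] (lget [] tabs i) l) e, oks, [(nat_lit 0), (nat_lit
 1), (nat_lit 0), (nat_lit 0), (nat_lit 1), (nat_lit 0)], T, (nat_lit 2147483647), (nat_lit 1073946281),
 (nat_lit 31), [(nat_lit 1057), (nat_lit 2287041271849359)], [(nat_lit 19487171), (nat_lit 7890481)]⟩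

/-- Nothing known. -/
noncomputable def cs0 : Cs := (.cons (nat_lit 11) (nat_lit 0) (nat_lit 1) (.cons (nat_lit 53) (nat_lit 0) (nat_lit 1) .nil))

theorem part_1 : part S cs0 (nat_lit 1) = true := by decide +kernel

theorem part_4 : part S cs0 (nat_lit 4) = true := by decide +kernel

/-- Data of a prime. -/
noncomputable def D0 : PD := ⟨(nat_lit 11), (nat_lit 7), (6190614, 3, 3), (12381250, 14211882, 1830652), (13368790, 19487156, 19487136)⟩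

theorem D0_ok : D0.Ok := pdb_sound (s := 1) (C := ⟨⟨9, -6, -17, -1, -14, 8, -4, -1, -1⟩, (9, 10, 7)⟩) (by show Nat.Prime 11; norm_num) (by decide +kernel)

/-- Lines of the first type. -/
noncomputable def Cl0 : List C1 := [⟨⟨-9, 6, -8, 1, 14, 7, 4, 1, -5⟩, (4, 2, 8)⟩,
  ⟨⟨0, 0, 0, 0, 0, 0, 0, 0, 0⟩, (0, 0, 0)⟩,
  ⟨⟨0, 0, 0, 0, 0, 0, 0, 0, 0⟩, (0, 0, 0)⟩,
  ⟨⟨0, 0, 0, 0, 0, 0, 0, 0, 0⟩, (0, 0, 0)⟩,
  ⟨⟨0, 0, 0, 0, 0, 0, 0, 0, 0⟩, (0, 0, 0)⟩,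
  ⟨⟨9, 6, -17, -1, 14, 8, -4, 1, -1⟩, (8, 4, 5)⟩,
  ⟨⟨0, 0, 0, 0, 0, 0, 0, 0, 0⟩, (0, 0, 0)⟩,
  ⟨⟨0, 0, 0, 0, 0, 0, 0, 0, 0⟩, (0, 0, 0)⟩,
  ⟨⟨0, 0, 0, 0, 0, 0, 0, 0, 0⟩, (0, 0, 0)⟩,
  ⟨⟨0, 0, 0, 0, 0, 0, 0, 0, 0⟩, (0, 0, 0)⟩,
  ⟨⟨-9, -6, -8, 1, -14, 7, 4, -1, -5⟩, (7, 9, 3)⟩]

/-- Data of a prime. -/
noncomputable def D1 : PD := ⟨(nat_lit 53), (nat_lit 4), (4766609, 8, 14), (5741397, 394060, 6448212), (2544113, 2380180, 3415374)⟩

theorem D1_ok : D1.Ok := pdb_sound (s := 12) (C := ⟨⟨-13, 2, -76, -47, -58, 31, 18, -15, -13⟩, (40, 6, 18)⟩) (by show Nat.Prime 53; norm_num) (by decide +kernel)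

/-- Lines of the first type. -/
noncomputable def Cl1 : List C1 := [⟨⟨13, -2, -89, -47, -58, 16, 18, -15, -5⟩, (17, 16, 48)⟩,
  ⟨⟨-23, 38, -56, 43, 58, 1, 18, -9, -23⟩, (9, 50, 16)⟩,
  ⟨⟨-23, -38, -56, 43, -58, 1, 18, 9, -23⟩, (18, 47, 32)⟩,
  ⟨⟨-13, -2, -76, -47, 58, 31, 18, 15, -13⟩, (20, 3, 9)⟩,
  ⟨⟨0, 0, 0, 0, 0, 0, 0, 0, 0⟩, (0, 0, 0)⟩,
  ⟨⟨0, 0, 0, 0, 0, 0, 0, 0, 0⟩, (0, 0, 0)⟩,
  ⟨⟨0, 0, 0, 0, 0, 0, 0, 0, 0⟩, (0, 0, 0)⟩,
  ⟨⟨23, -38, -79, -43, -58, 44, -18, 9, -5⟩, (29, 8, 28)⟩,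
  ⟨⟨33, -18, -89, 67, 2, 4, 2, 23, -7⟩, (12, 34, 20)⟩,
  ⟨⟨0, 0, 0, 0, 0, 0, 0, 0, 0⟩, (0, 0, 0)⟩,
  ⟨⟨0, 0, 0, 0, 0, 0, 0, 0, 0⟩, (0, 0, 0)⟩,
  ⟨⟨0, 0, 0, 0, 0, 0, 0, 0, 0⟩, (0, 0, 0)⟩,
  ⟨⟨0, 0, 0, 0, 0, 0, 0, 0, 0⟩, (0, 0, 0)⟩,
  ⟨⟨27, 42, -76, 7, 58, 49, 22, -7, -5⟩, (1, 14, 44)⟩,
  ⟨⟨33, 18, -89, 67, -2, 4, 2, -23, -7⟩, (44, 1, 38)⟩,
  ⟨⟨0, 0, 0, 0, 0, 0, 0, 0, 0⟩, (0, 0, 0)⟩,
  ⟨⟨0, 0, 0, 0, 0, 0, 0, 0, 0⟩, (0, 0, 0)⟩,
  ⟨⟨0, 0, 0, 0, 0, 0, 0, 0, 0⟩, (0, 0, 0)⟩,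
  ⟨⟨0, 0, 0, 0, 0, 0, 0, 0, 0⟩, (0, 0, 0)⟩,
  ⟨⟨57, 42, -56, -37, 62, 41, -10, 1, -19⟩, (20, 27, 3)⟩,
  ⟨⟨13, 2, -89, -47, 58, 16, 18, 15, -5⟩, (50, 19, 4)⟩,
  ⟨⟨0, 0, 0, 0, 0, 0, 0, 0, 0⟩, (0, 0, 0)⟩,
  ⟨⟨0, 0, 0, 0, 0, 0, 0, 0, 0⟩, (0, 0, 0)⟩,
  ⟨⟨57, -42, -56, -37, -62, 41, -10, -1, -19⟩, (16, 11, 13)⟩,
  ⟨⟨0, 0, 0, 0, 0, 0, 0, 0, 0⟩, (0, 0, 0)⟩,
  ⟨⟨7, 58, -56, 27, 42, 49, 22, -7, -17⟩, (20, 9, 25)⟩,
  ⟨⟨0, 0, 0, 0, 0, 0, 0, 0, 0⟩, (0, 0, 0)⟩,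
  ⟨⟨67, -2, -71, 33, 18, 56, -2, 23, -5⟩, (28, 13, 49)⟩,
  ⟨⟨0, 0, 0, 0, 0, 0, 0, 0, 0⟩, (0, 0, 0)⟩,
  ⟨⟨0, 0, 0, 0, 0, 0, 0, 0, 0⟩, (0, 0, 0)⟩,
  ⟨⟨23, 38, -79, -43, 58, 44, -18, -9, -5⟩, (20, 11, 12)⟩,
  ⟨⟨0, 0, 0, 0, 0, 0, 0, 0, 0⟩, (0, 0, 0)⟩,
  ⟨⟨7, -58, -56, 27, -42, 49, 22, 7, -17⟩, (17, 5, 8)⟩,
  ⟨⟨0, 0, 0, 0, 0, 0, 0, 0, 0⟩, (0, 0, 0)⟩,
  ⟨⟨67, 2, -71, 33, -18, 56, -2, -23, -5⟩, (8, 34, 14)⟩,
  ⟨⟨27, -42, -76, 7, -58, 49, 22, 7, -5⟩, (50, 11, 27)⟩,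
  ⟨⟨0, 0, 0, 0, 0, 0, 0, 0, 0⟩, (0, 0, 0)⟩,
  ⟨⟨0, 0, 0, 0, 0, 0, 0, 0, 0⟩, (0, 0, 0)⟩,
  ⟨⟨0, 0, 0, 0, 0, 0, 0, 0, 0⟩, (0, 0, 0)⟩,
  ⟨⟨0, 0, 0, 0, 0, 0, 0, 0, 0⟩, (0, 0, 0)⟩,
  ⟨⟨0, 0, 0, 0, 0, 0, 0, 0, 0⟩, (0, 0, 0)⟩,
  ⟨⟨0, 0, 0, 0, 0, 0, 0, 0, 0⟩, (0, 0, 0)⟩,
  ⟨⟨0, 0, 0, 0, 0, 0, 0, 0, 0⟩, (0, 0, 0)⟩,
  ⟨⟨0, 0, 0, 0, 0, 0, 0, 0, 0⟩, (0, 0, 0)⟩,
  ⟨⟨0, 0, 0, 0, 0, 0, 0, 0, 0⟩, (0, 0, 0)⟩,
  ⟨⟨-37, 62, -4, -57, -42, 1, 10, -1, -29⟩, (22, 21, 27)⟩,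
  ⟨⟨0, 0, 0, 0, 0, 0, 0, 0, 0⟩, (0, 0, 0)⟩,
  ⟨⟨0, 0, 0, 0, 0, 0, 0, 0, 0⟩, (0, 0, 0)⟩,
  ⟨⟨0, 0, 0, 0, 0, 0, 0, 0, 0⟩, (0, 0, 0)⟩,
  ⟨⟨0, 0, 0, 0, 0, 0, 0, 0, 0⟩, (0, 0, 0)⟩,
  ⟨⟨0, 0, 0, 0, 0, 0, 0, 0, 0⟩, (0, 0, 0)⟩,
  ⟨⟨-37, -62, -4, -57, 42, 1, 10, 1, -29⟩, (6, 25, 17)⟩,
  ⟨⟨0, 0, 0, 0, 0, 0, 0, 0, 0⟩, (0, 0, 0)⟩]

/-- Data of a prime. -/
noncomputable def Dm : PD := ⟨(nat_lit 31), (nat_lit 2), (435, 8, 13), (281, 829, 278), (666, 926, 286)⟩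

theorem Dm_ok : Dm.Ok := pdb_sound (s := 3) (C := ⟨⟨11, 26, -43, -19, 34, 32, -12, -3, -1⟩, (11, 12, 19)⟩) (by show Nat.Prime 31; norm_num) (by decide +kernel)

/-- Lines of the first type. -/
noncomputable def Clm : List C1 := [⟨⟨-11, -26, -32, 19, -34, 13, 12, 3, -13⟩, (22, 24, 7)⟩,
  ⟨⟨0, 0, 0, 0, 0, 0, 0, 0, 0⟩, (0, 0, 0)⟩,
  ⟨⟨0, 0, 0, 0, 0, 0, 0, 0, 0⟩, (0, 0, 0)⟩,
  ⟨⟨29, 26, -37, 21, 6, 32, 8, -11, -7⟩, (2, 10, 23)⟩,
  ⟨⟨0, 0, 0, 0, 0, 0, 0, 0, 0⟩, (0, 0, 0)⟩,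
  ⟨⟨21, 6, -53, 29, 26, 8, 8, -11, -1⟩, (6, 26, 20)⟩,
  ⟨⟨0, 0, 0, 0, 0, 0, 0, 0, 0⟩, (0, 0, 0)⟩,
  ⟨⟨29, -26, -37, 21, -6, 32, 8, 11, -7⟩, (27, 11, 16)⟩,
  ⟨⟨0, 0, 0, 0, 0, 0, 0, 0, 0⟩, (0, 0, 0)⟩,
  ⟨⟨-9, -6, -43, -41, 14, 28, 4, 13, -5⟩, (4, 1, 12)⟩,
  ⟨⟨9, -6, -52, -41, -14, 13, -4, 13, -1⟩, (29, 16, 25)⟩,
  ⟨⟨21, -6, -53, 29, -26, 8, 8, 11, -1⟩, (7, 20, 13)⟩,
  ⟨⟨9, 6, -52, -41, 14, 13, -4, -13, -1⟩, (28, 24, 22)⟩,
  ⟨⟨0, 0, 0, 0, 0, 0, 0, 0, 0⟩, (0, 0, 0)⟩,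
  ⟨⟨0, 0, 0, 0, 0, 0, 0, 0, 0⟩, (0, 0, 0)⟩,
  ⟨⟨0, 0, 0, 0, 0, 0, 0, 0, 0⟩, (0, 0, 0)⟩,
  ⟨⟨11, -26, -43, -19, -34, 32, -12, 3, -1⟩, (25, 16, 15)⟩,
  ⟨⟨-9, 6, -43, -41, -14, 28, 4, -13, -5⟩, (3, 24, 9)⟩,
  ⟨⟨0, 0, 0, 0, 0, 0, 0, 0, 0⟩, (0, 0, 0)⟩,
  ⟨⟨0, 0, 0, 0, 0, 0, 0, 0, 0⟩, (0, 0, 0)⟩,
  ⟨⟨0, 0, 0, 0, 0, 0, 0, 0, 0⟩, (0, 0, 0)⟩,
  ⟨⟨0, 0, 0, 0, 0, 0, 0, 0, 0⟩, (0, 0, 0)⟩,
  ⟨⟨0, 0, 0, 0, 0, 0, 0, 0, 0⟩, (0, 0, 0)⟩,
  ⟨⟨0, 0, 0, 0, 0, 0, 0, 0, 0⟩, (0, 0, 0)⟩,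
  ⟨⟨0, 0, 0, 0, 0, 0, 0, 0, 0⟩, (0, 0, 0)⟩,
  ⟨⟨0, 0, 0, 0, 0, 0, 0, 0, 0⟩, (0, 0, 0)⟩,
  ⟨⟨0, 0, 0, 0, 0, 0, 0, 0, 0⟩, (0, 0, 0)⟩,
  ⟨⟨0, 0, 0, 0, 0, 0, 0, 0, 0⟩, (0, 0, 0)⟩,
  ⟨⟨0, 0, 0, 0, 0, 0, 0, 0, 0⟩, (0, 0, 0)⟩,
  ⟨⟨0, 0, 0, 0, 0, 0, 0, 0, 0⟩, (0, 0, 0)⟩,
  ⟨⟨-11, 26, -32, 19, 34, 13, 12, -3, -13⟩, (28, 8, 23)⟩]

/-- Unit moves. -/
noncomputable def U : List Mv := [mz,
  mz,
  ⟨⟨-1, 0, 1, 0, 1, 0, 0, 0, 1⟩, .nil, (nat_lit 10), (nat_lit 5), (nat_lit 1), (nat_lit 1), (0, 0, 0), [], 6⟩,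
  ⟨⟨1, 0, 0, 0, -1, 0, 0, 0, 1⟩, .nil, (nat_lit 10), (nat_lit 10), (nat_lit 2), (nat_lit 1), (0, 0, 0), [], 10⟩,
  mz,
  mz,
  ⟨⟨-1, 0, 1, 0, -1, 0, 0, 0, 1⟩, .nil, (nat_lit 0), (nat_lit 6), (nat_lit 1), (nat_lit 0), (0, 0, 0), [], 5⟩,
  ⟨⟨-1, 0, 1, 0, -1, 0, 0, 0, 1⟩, .nil, (nat_lit 0), (nat_lit 6), (nat_lit 1), (nat_lit 0), (0, 0, 0), [], 5⟩,
  ⟨⟨1, 0, 0, 0, -1, 0, 0, 0, 1⟩, .nil, (nat_lit 10), (nat_lit 10), (nat_lit 2), (nat_lit 1), (0, 0, 0), [], 10⟩,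
  ⟨⟨-1, 0, 1, 0, 1, 0, 0, 0, 1⟩, .nil, (nat_lit 10), (nat_lit 5), (nat_lit 1), (nat_lit 1), (0, 0, 0), [], 6⟩,
  mz]

theorem v_ty : tyb Dm S.ty1 Clm = true := by decide +kernel

theorem v_ty0 : tyb D0 (S.tys.getD 0 0) Cl0 = true := by decide +kernel

theorem v_ty1 : tyb D1 (S.tys.getD 1 0) Cl1 = true := by decide +kernel

theorem v_msc : mscb S D0 [D1] Dm (nat_lit 18) = true := by decide +kernel

theorem v_mv0 : mvsn (nat_lit 147766389571000211) S D0 [D1] Dm (nat_lit 18) 0 D0 = true := by decide +kernel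

theorem v_mv1 : mvsn (nat_lit 147766389571000211) S D0 [D1] Dm (nat_lit 18) 1 D1 = true := by decide +kernel

theorem v_mm : mmsn (nat_lit 147766389571000211) S D0 [D1] Dm (nat_lit 18) = true := by decide +kernel

theorem v_un : unb S D0 (nat_lit 18) U = true := by decide +kernel

theorem v_ok : okb S.oks [(1, 2, 1), (0, 0, 0), (10, 31, 1), (0, 0, 0)] = true := by decide +kernel

theorem v_part : ∀ d < D0.p, (nat_lit 18).testBit d = true → part S (zc (D0 :: [D1])) d = true := by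
  intro d hd h
  have h1 : ∀ d < 11, (nat_lit 18).testBit d = true → d = 1 ∨ d = 4 := by decide
  rcases h1 d hd h with rfl | rfl
  · exact part_1
  · exact part_4

theorem main (n : ℕ) (ho : Odd n) (hr : ¬ Rep n) (h0 : Split 11 n) (h1 : Split 53 n) (hm : Split 31 n) :
    n ∈ EE := by
  refine concln (W := nat_lit 147766389571000211) (S := S) (P0 := D0) (Pl := [D1]) (Pm := Dm) (cn := nat_lit 18) ?_ Dm_ok v_ty ?_ ?_ v_msc ?_ v_mm v_un v_part v_ok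
    n ho hr ?_ hm
  · simp only [List.forall_mem_cons]
    exact ⟨D0_ok, D1_ok, fun _ h => absurd h (by simp)⟩
  · exact all2 (φ := fun j P => ∃ L, tyb P (S.tys.getD j 0) L = true) ⟨_, v_ty0⟩ ⟨_, v_ty1⟩
  · exact all2 (φ := fun j P => Nat.ble (S.pks.getD j 0) (Nat.pow P.p P.K) = true) (by decide +kernel) (by decide +kernel)
  · exact all2 (φ := fun i P => mvsn (nat_lit 147766389571000211) S D0 [D1] Dm (nat_lit 18) i P = true) v_mv0 v_mv1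
  · simp only [List.forall_mem_cons]
    exact ⟨h0, h1, fun _ h => absurd h (by simp)⟩

end Pool.Agent.Work.MP_9954fe_nt.P11_53_31

namespace Pool.Agent.Work.MP_9954fe_nt.P13_37_43

/-- Dummy move. -/
noncomputable def mz : Mv := ⟨⟨0, 0, 0, 0, 0, 0, 0, 0, 0⟩, .nil, (nat_lit 0), (nat_lit 0), (nat_lit 0), (nat_lit 0), (0, 0, 0), [], 0⟩

/-- Moves. -/
noncomputable def t0_2 : List Mv := [
  ⟨⟨-1, -12, 9, 8, 5, 6, 8, -8, -7⟩, (.cons (nat_lit 1798270) (nat_lit 3794392) (nat_lit 2144058) (nat_lit 1)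
 (.cons (nat_lit 747337) (nat_lit 110045) (nat_lit 1515415) (nat_lit 1) .nil)), (nat_lit 23), (nat_lit 21),
 (nat_lit 30), (nat_lit 1), (8, 1, 1), [1227326, 1383093], 22⟩,
  ⟨⟨9, 4, -16, -8, -5, -6, 8, -8, -7⟩, (.cons (nat_lit 2919685) (nat_lit 4270751) (nat_lit 1481163) (nat_lit 1)
 (.cons (nat_lit 193808) (nat_lit 746204) (nat_lit 841112) (nat_lit 1) .nil)), (nat_lit 1), (nat_lit 33),
 (nat_lit 40), (nat_lit 1), (6, 12, 1), [2271767, 1823369], 33⟩,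
  ⟨⟨9, 4, -16, -8, -5, -6, 8, -8, -7⟩, (.cons (nat_lit 2919685) (nat_lit 4270751) (nat_lit 1481163) (nat_lit 1)
 (.cons (nat_lit 193808) (nat_lit 746204) (nat_lit 841112) (nat_lit 1) .nil)), (nat_lit 1), (nat_lit 33),
 (nat_lit 40), (nat_lit 1), (6, 12, 1), [2271767, 1823369], 33⟩,
  ⟨⟨-1, -12, 9, -8, -5, -6, 8, -8, -7⟩, (.cons (nat_lit 495919) (nat_lit 4756839) (nat_lit 247966) (nat_lit 1)
 (.cons (nat_lit 1874160) (nat_lit 273551) (nat_lit 311591) (nat_lit 1) .nil)), (nat_lit 42), (nat_lit 10),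
 (nat_lit 40), (nat_lit 1), (8, 12, 1), [3125393, 1193489], 33⟩,
  ⟨⟨-1, -12, 9, 8, 5, 6, 8, -8, -7⟩, (.cons (nat_lit 1798270) (nat_lit 3794392) (nat_lit 2144058) (nat_lit 1)
 (.cons (nat_lit 747337) (nat_lit 110045) (nat_lit 1515415) (nat_lit 1) .nil)), (nat_lit 23), (nat_lit 21),
 (nat_lit 30), (nat_lit 1), (8, 1, 1), [1227326, 1383093], 22⟩,
  ⟨⟨9, 4, -16, 8, 5, 6, 8, -8, -7⟩, (.cons (nat_lit 2843227) (nat_lit 1868486) (nat_lit 1840382) (nat_lit 1)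
 (.cons (nat_lit 1810248) (nat_lit 806303) (nat_lit 229633) (nat_lit 1) .nil)), (nat_lit 20), (nat_lit 22),
 (nat_lit 30), (nat_lit 1), (6, 1, 1), [4589782, 36332], 22⟩,
  ⟨⟨9, 4, -16, 8, 5, 6, 8, -8, -7⟩, (.cons (nat_lit 2843227) (nat_lit 1868486) (nat_lit 1840382) (nat_lit 1)
 (.cons (nat_lit 1810248) (nat_lit 806303) (nat_lit 229633) (nat_lit 1) .nil)), (nat_lit 20), (nat_lit 22),
 (nat_lit 30), (nat_lit 1), (6, 1, 1), [4589782, 36332], 22⟩,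
  ⟨⟨-1, -12, 9, -8, -5, -6, 8, -8, -7⟩, (.cons (nat_lit 495919) (nat_lit 4756839) (nat_lit 247966) (nat_lit 1)
 (.cons (nat_lit 1874160) (nat_lit 273551) (nat_lit 311591) (nat_lit 1) .nil)), (nat_lit 42), (nat_lit 10),
 (nat_lit 40), (nat_lit 1), (8, 12, 1), [3125393, 1193489], 33⟩,
  ⟨⟨-1, -12, 9, -8, -5, -6, 8, -8, -7⟩, (.cons (nat_lit 495919) (nat_lit 4756839) (nat_lit 247966) (nat_lit 1)
 (.cons (nat_lit 1874160) (nat_lit 273551) (nat_lit 311591) (nat_lit 1) .nil)), (nat_lit 42), (nat_lit 10),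
 (nat_lit 40), (nat_lit 1), (8, 12, 1), [3125393, 1193489], 33⟩,
  ⟨⟨-1, -12, 9, -8, -5, -6, 8, -8, -7⟩, (.cons (nat_lit 495919) (nat_lit 4756839) (nat_lit 247966) (nat_lit 1)
 (.cons (nat_lit 1874160) (nat_lit 273551) (nat_lit 311591) (nat_lit 1) .nil)), (nat_lit 42), (nat_lit 10),
 (nat_lit 40), (nat_lit 1), (8, 12, 1), [3125393, 1193489], 33⟩,
  ⟨⟨-1, -12, 9, 8, 5, 6, 8, -8, -7⟩, (.cons (nat_lit 1798270) (nat_lit 3794392) (nat_lit 2144058) (nat_lit 1)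
 (.cons (nat_lit 747337) (nat_lit 110045) (nat_lit 1515415) (nat_lit 1) .nil)), (nat_lit 23), (nat_lit 21),
 (nat_lit 30), (nat_lit 1), (8, 1, 1), [1227326, 1383093], 22⟩,
  ⟨⟨-1, -12, 9, -8, -5, -6, 8, -8, -7⟩, (.cons (nat_lit 495919) (nat_lit 4756839) (nat_lit 247966) (nat_lit 1)
 (.cons (nat_lit 1874160) (nat_lit 273551) (nat_lit 311591) (nat_lit 1) .nil)), (nat_lit 42), (nat_lit 10),
 (nat_lit 40), (nat_lit 1), (8, 12, 1), [3125393, 1193489], 33⟩,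
  ⟨⟨-1, -12, 9, -8, -5, -6, 8, -8, -7⟩, (.cons (nat_lit 495919) (nat_lit 4756839) (nat_lit 247966) (nat_lit 1)
 (.cons (nat_lit 1874160) (nat_lit 273551) (nat_lit 311591) (nat_lit 1) .nil)), (nat_lit 42), (nat_lit 10),
 (nat_lit 40), (nat_lit 1), (8, 12, 1), [3125393, 1193489], 33⟩]

/-- Moves. -/
noncomputable def t0_4 : List Mv := [
  ⟨⟨5, 12, -9, -12, 5, 6, 0, 0, -13⟩, (.cons (nat_lit 2595001) (nat_lit 3104467) (nat_lit 3422489) (nat_lit 1)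
 (.cons (nat_lit 696785) (nat_lit 946351) (nat_lit 1681894) (nat_lit 1) .nil)), (nat_lit 1), (nat_lit 35),
 (nat_lit 7), (nat_lit 1), (12, 5, 0), [2732539, 156218], 33⟩,
  ⟨⟨-5, -12, -4, -12, 5, 6, 0, 0, -13⟩, (.cons (nat_lit 273335) (nat_lit 1209881) (nat_lit 68337) (nat_lit 1)
 (.cons (nat_lit 1874160) (nat_lit 825254) (nat_lit 1780818) (nat_lit 1) .nil)), (nat_lit 42), (nat_lit 8),
 (nat_lit 7), (nat_lit 1), (1, 5, 0), [3873608, 817248], 33⟩,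
  ⟨⟨-5, -12, -4, -12, 5, 6, 0, 0, -13⟩, (.cons (nat_lit 273335) (nat_lit 1209881) (nat_lit 68337) (nat_lit 1)
 (.cons (nat_lit 1874160) (nat_lit 825254) (nat_lit 1780818) (nat_lit 1) .nil)), (nat_lit 42), (nat_lit 8),
 (nat_lit 7), (nat_lit 1), (1, 5, 0), [3873608, 817248], 33⟩,
  ⟨⟨-5, -12, -4, 12, -5, -6, 0, 0, -13⟩, (.cons (nat_lit 3834156) (nat_lit 4555975) (nat_lit 1642618) (nat_lit
 1) (.cons (nat_lit 856403) (nat_lit 70813) (nat_lit 375199) (nat_lit 1) .nil)), (nat_lit 1), (nat_lit 37),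
 (nat_lit 16), (nat_lit 1), (1, 8, 0), [1521153, 52624], 29⟩,
  ⟨⟨5, 12, -9, 12, -5, -6, 0, 0, -13⟩, (.cons (nat_lit 2272170) (nat_lit 4691530) (nat_lit 1774748) (nat_lit 1)
 (.cons (nat_lit 1874160) (nat_lit 1282665) (nat_lit 326050) (nat_lit 1) .nil)), (nat_lit 42), (nat_lit 6),
 (nat_lit 16), (nat_lit 1), (12, 8, 0), [2927202, 635925], 29⟩,
  ⟨⟨5, 12, -9, 12, -5, -6, 0, 0, -13⟩, (.cons (nat_lit 2272170) (nat_lit 4691530) (nat_lit 1774748) (nat_lit 1)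
 (.cons (nat_lit 1874160) (nat_lit 1282665) (nat_lit 326050) (nat_lit 1) .nil)), (nat_lit 42), (nat_lit 6),
 (nat_lit 16), (nat_lit 1), (12, 8, 0), [2927202, 635925], 29⟩,
  ⟨⟨5, 12, -9, -12, 5, 6, 0, 0, -13⟩, (.cons (nat_lit 2595001) (nat_lit 3104467) (nat_lit 3422489) (nat_lit 1)
 (.cons (nat_lit 696785) (nat_lit 946351) (nat_lit 1681894) (nat_lit 1) .nil)), (nat_lit 1), (nat_lit 35),
 (nat_lit 7), (nat_lit 1), (12, 5, 0), [2732539, 156218], 33⟩,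
  ⟨⟨5, 12, -9, 12, -5, -6, 0, 0, -13⟩, (.cons (nat_lit 2272170) (nat_lit 4691530) (nat_lit 1774748) (nat_lit 1)
 (.cons (nat_lit 1874160) (nat_lit 1282665) (nat_lit 326050) (nat_lit 1) .nil)), (nat_lit 42), (nat_lit 6),
 (nat_lit 16), (nat_lit 1), (12, 8, 0), [2927202, 635925], 29⟩,
  ⟨⟨5, 12, -9, 12, -5, -6, 0, 0, -13⟩, (.cons (nat_lit 2272170) (nat_lit 4691530) (nat_lit 1774748) (nat_lit 1)
 (.cons (nat_lit 1874160) (nat_lit 1282665) (nat_lit 326050) (nat_lit 1) .nil)), (nat_lit 42), (nat_lit 6),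
 (nat_lit 16), (nat_lit 1), (12, 8, 0), [2927202, 635925], 29⟩,
  ⟨⟨-5, -12, -4, 12, -5, -6, 0, 0, -13⟩, (.cons (nat_lit 3834156) (nat_lit 4555975) (nat_lit 1642618) (nat_lit
 1) (.cons (nat_lit 856403) (nat_lit 70813) (nat_lit 375199) (nat_lit 1) .nil)), (nat_lit 1), (nat_lit 37),
 (nat_lit 16), (nat_lit 1), (1, 8, 0), [1521153, 52624], 29⟩,
  ⟨⟨5, 12, -9, 12, -5, -6, 0, 0, -13⟩, (.cons (nat_lit 2272170) (nat_lit 4691530) (nat_lit 1774748) (nat_lit 1)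
 (.cons (nat_lit 1874160) (nat_lit 1282665) (nat_lit 326050) (nat_lit 1) .nil)), (nat_lit 42), (nat_lit 6),
 (nat_lit 16), (nat_lit 1), (12, 8, 0), [2927202, 635925], 29⟩,
  ⟨⟨5, 12, -9, -12, 5, 6, 0, 0, -13⟩, (.cons (nat_lit 2595001) (nat_lit 3104467) (nat_lit 3422489) (nat_lit 1)
 (.cons (nat_lit 696785) (nat_lit 946351) (nat_lit 1681894) (nat_lit 1) .nil)), (nat_lit 1), (nat_lit 35),
 (nat_lit 7), (nat_lit 1), (12, 5, 0), [2732539, 156218], 33⟩,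
  ⟨⟨5, 12, -9, 12, -5, -6, 0, 0, -13⟩, (.cons (nat_lit 2272170) (nat_lit 4691530) (nat_lit 1774748) (nat_lit 1)
 (.cons (nat_lit 1874160) (nat_lit 1282665) (nat_lit 326050) (nat_lit 1) .nil)), (nat_lit 42), (nat_lit 6),
 (nat_lit 16), (nat_lit 1), (12, 8, 0), [2927202, 635925], 29⟩]

/-- Moves. -/
noncomputable def t0_5 : List Mv := [
  ⟨⟨9, 8, -13, 10, -7, 0, 2, -4, -13⟩, (.cons (nat_lit 2315812) (nat_lit 843964) (nat_lit 1453495) (nat_lit 1)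
 (.cons (nat_lit 963361) (nat_lit 960539) (nat_lit 352253) (nat_lit 1) .nil)), (nat_lit 24), (nat_lit 2),
 (nat_lit 34), (nat_lit 1), (2, 8, 12), [4581319, 250838], 30⟩,
  ⟨⟨9, 8, -13, -10, 7, 0, 2, -4, -13⟩, (.cons (nat_lit 4177513) (nat_lit 3253428) (nat_lit 1218083) (nat_lit 1)
 (.cons (nat_lit 1589971) (nat_lit 1553939) (nat_lit 1560690) (nat_lit 1) .nil)), (nat_lit 1), (nat_lit 19),
 (nat_lit 12), (nat_lit 1), (2, 5, 12), [648168, 1288213], 27⟩,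
  ⟨⟨9, 8, -13, -10, 7, 0, 2, -4, -13⟩, (.cons (nat_lit 4177513) (nat_lit 3253428) (nat_lit 1218083) (nat_lit 1)
 (.cons (nat_lit 1589971) (nat_lit 1553939) (nat_lit 1560690) (nat_lit 1) .nil)), (nat_lit 1), (nat_lit 19),
 (nat_lit 12), (nat_lit 1), (2, 5, 12), [648168, 1288213], 27⟩,
  ⟨⟨9, 8, -13, -10, 7, 0, 2, -4, -13⟩, (.cons (nat_lit 4177513) (nat_lit 3253428) (nat_lit 1218083) (nat_lit 1)
 (.cons (nat_lit 1589971) (nat_lit 1553939) (nat_lit 1560690) (nat_lit 1) .nil)), (nat_lit 1), (nat_lit 19),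
 (nat_lit 12), (nat_lit 1), (2, 5, 12), [648168, 1288213], 27⟩,
  ⟨⟨-7, -12, 0, 10, -7, 0, 2, -4, -13⟩, (.cons (nat_lit 3289575) (nat_lit 183543) (nat_lit 32948) (nat_lit 1)
 (.cons (nat_lit 825945) (nat_lit 316964) (nat_lit 231834) (nat_lit 1) .nil)), (nat_lit 19), (nat_lit 41),
 (nat_lit 34), (nat_lit 1), (10, 8, 12), [920321, 1320059], 30⟩,
  ⟨⟨9, 8, -13, 10, -7, 0, 2, -4, -13⟩, (.cons (nat_lit 2315812) (nat_lit 843964) (nat_lit 1453495) (nat_lit 1)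
 (.cons (nat_lit 963361) (nat_lit 960539) (nat_lit 352253) (nat_lit 1) .nil)), (nat_lit 24), (nat_lit 2),
 (nat_lit 34), (nat_lit 1), (2, 8, 12), [4581319, 250838], 30⟩,
  ⟨⟨9, 8, -13, 10, -7, 0, 2, -4, -13⟩, (.cons (nat_lit 2315812) (nat_lit 843964) (nat_lit 1453495) (nat_lit 1)
 (.cons (nat_lit 963361) (nat_lit 960539) (nat_lit 352253) (nat_lit 1) .nil)), (nat_lit 24), (nat_lit 2),
 (nat_lit 34), (nat_lit 1), (2, 8, 12), [4581319, 250838], 30⟩,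
  ⟨⟨9, 8, -13, -10, 7, 0, 2, -4, -13⟩, (.cons (nat_lit 4177513) (nat_lit 3253428) (nat_lit 1218083) (nat_lit 1)
 (.cons (nat_lit 1589971) (nat_lit 1553939) (nat_lit 1560690) (nat_lit 1) .nil)), (nat_lit 1), (nat_lit 19),
 (nat_lit 12), (nat_lit 1), (2, 5, 12), [648168, 1288213], 27⟩,
  ⟨⟨-7, -12, 0, 10, -7, 0, 2, -4, -13⟩, (.cons (nat_lit 3289575) (nat_lit 183543) (nat_lit 32948) (nat_lit 1)
 (.cons (nat_lit 825945) (nat_lit 316964) (nat_lit 231834) (nat_lit 1) .nil)), (nat_lit 19), (nat_lit 41),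
 (nat_lit 34), (nat_lit 1), (10, 8, 12), [920321, 1320059], 30⟩,
  ⟨⟨-7, -12, 0, -10, 7, 0, 2, -4, -13⟩, (.cons (nat_lit 4676545) (nat_lit 3073074) (nat_lit 3831397) (nat_lit
 1) (.cons (nat_lit 1874160) (nat_lit 1864410) (nat_lit 723926) (nat_lit 1) .nil)), (nat_lit 42), (nat_lit 24),
 (nat_lit 12), (nat_lit 1), (10, 5, 12), [3689710, 612321], 27⟩,
  ⟨⟨9, 8, -13, -10, 7, 0, 2, -4, -13⟩, (.cons (nat_lit 4177513) (nat_lit 3253428) (nat_lit 1218083) (nat_lit 1)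
 (.cons (nat_lit 1589971) (nat_lit 1553939) (nat_lit 1560690) (nat_lit 1) .nil)), (nat_lit 1), (nat_lit 19),
 (nat_lit 12), (nat_lit 1), (2, 5, 12), [648168, 1288213], 27⟩,
  ⟨⟨9, 8, -13, -10, 7, 0, 2, -4, -13⟩, (.cons (nat_lit 4177513) (nat_lit 3253428) (nat_lit 1218083) (nat_lit 1)
 (.cons (nat_lit 1589971) (nat_lit 1553939) (nat_lit 1560690) (nat_lit 1) .nil)), (nat_lit 1), (nat_lit 19),
 (nat_lit 12), (nat_lit 1), (2, 5, 12), [648168, 1288213], 27⟩,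
  ⟨⟨9, 8, -13, -10, 7, 0, 2, -4, -13⟩, (.cons (nat_lit 4177513) (nat_lit 3253428) (nat_lit 1218083) (nat_lit 1)
 (.cons (nat_lit 1589971) (nat_lit 1553939) (nat_lit 1560690) (nat_lit 1) .nil)), (nat_lit 1), (nat_lit 19),
 (nat_lit 12), (nat_lit 1), (2, 5, 12), [648168, 1288213], 27⟩]

/-- Moves. -/
noncomputable def t1_2 : List Mv := [
  mz,
  ⟨⟨27, 4, 20, -10, -33, 20, 30, -12, -23⟩, (.cons (nat_lit 3990903) (nat_lit 4807734) (nat_lit 1) (nat_lit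
 2967393) (.cons (nat_lit 607496) (nat_lit 134371) (nat_lit 1185402) (nat_lit 1) .nil)), (nat_lit 11), (nat_lit
 37), (nat_lit 16), (nat_lit 1), (3, 3, 28), [2499281, 24583], 3⟩,
  mz,
  mz,
  ⟨⟨21, 4, 28, 8, 35, -14, 32, -8, -19⟩, (.cons (nat_lit 4826808) (nat_lit 3870509) (nat_lit 1547033) (nat_lit
 1) (.cons (nat_lit 1425476) (nat_lit 1018043) (nat_lit 1761999) (nat_lit 1) .nil)), (nat_lit 42), (nat_lit
 11), (nat_lit 16), (nat_lit 1), (33, 2, 8), [4747384, 1716966], 13⟩,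
  ⟨⟨21, -4, 28, 8, -35, -14, 32, 8, -19⟩, (.cons (nat_lit 2597736) (nat_lit 3145515) (nat_lit 2120523) (nat_lit
 1) (.cons (nat_lit 140534) (nat_lit 54930) (nat_lit 357163) (nat_lit 1) .nil)), (nat_lit 9), (nat_lit 8),
 (nat_lit 36), (nat_lit 1), (15, 11, 7), [1685490, 1768453], 40⟩,
  mz,
  ⟨⟨-1, -24, -36, 30, 17, -30, -18, 12, -19⟩, (.cons (nat_lit 1738888) (nat_lit 1305455) (nat_lit 93072)
 (nat_lit 1) (.cons (nat_lit 1499386) (nat_lit 885095) (nat_lit 110208) (nat_lit 1) .nil)), (nat_lit 10),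
 (nat_lit 1), (nat_lit 26), (nat_lit 1), (13, 17, 12), [1698451, 466968], 33⟩,
  ⟨⟨-35, 12, -1, 12, 35, -6, 0, 0, -37⟩, (.cons (nat_lit 3463655) (nat_lit 3255587) (nat_lit 1) (nat_lit
 1363154) (.cons (nat_lit 353825) (nat_lit 423693) (nat_lit 512773) (nat_lit 1) .nil)), (nat_lit 42), (nat_lit
 11), (nat_lit 15), (nat_lit 1), (3, 18, 0), [3755070, 388739], 7⟩,
  mz,
  ⟨⟨-1, 24, -36, 30, -17, -30, -18, -12, -19⟩, (.cons (nat_lit 4826808) (nat_lit 68122) (nat_lit 2990635)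
 (nat_lit 1) (.cons (nat_lit 313047) (nat_lit 906125) (nat_lit 1155805) (nat_lit 1) .nil)), (nat_lit 42),
 (nat_lit 7), (nat_lit 42), (nat_lit 1), (10, 33, 32), [3346311, 164154], 7⟩,
  ⟨⟨3, 16, -43, 10, -33, -20, 30, 12, -23⟩, (.cons (nat_lit 60303) (nat_lit 3114643) (nat_lit 387409) (nat_lit
 1) (.cons (nat_lit 657744) (nat_lit 232141) (nat_lit 594355) (nat_lit 1) .nil)), (nat_lit 39), (nat_lit 19),
 (nat_lit 22), (nat_lit 1), (23, 15, 8), [4608965, 1521813], 5⟩,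
  ⟨⟨39, -4, -8, 10, 17, -40, 14, -28, -19⟩, (.cons (nat_lit 4826808) (nat_lit 1223186) (nat_lit 4033354)
 (nat_lit 1) (.cons (nat_lit 1554850) (nat_lit 1613946) (nat_lit 285754) (nat_lit 1) .nil)), (nat_lit 42),
 (nat_lit 32), (nat_lit 5), (nat_lit 1), (11, 18, 3), [210780, 179876], 23⟩,
  ⟨⟨-31, 24, 27, 8, -5, 36, 8, 32, -1⟩, (.cons (nat_lit 4826808) (nat_lit 1995273) (nat_lit 2886299) (nat_lit
 1) (.cons (nat_lit 384092) (nat_lit 900727) (nat_lit 1038712) (nat_lit 1) .nil)), (nat_lit 42), (nat_lit 26),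
 (nat_lit 8), (nat_lit 1), (26, 10, 10), [2301184, 604956], 7⟩,
  mz,
  ⟨⟨-3, 40, 8, 32, 5, -36, -16, 16, -19⟩, (.cons (nat_lit 2004831) (nat_lit 2109832) (nat_lit 1) (nat_lit
 3436849) (.cons (nat_lit 798622) (nat_lit 669341) (nat_lit 1419928) (nat_lit 1) .nil)), (nat_lit 7), (nat_lit
 16), (nat_lit 14), (nat_lit 1), (27, 8, 33), [3994894, 1800850], 12⟩,
  ⟨⟨11, -12, 36, 8, 35, 6, 32, -8, -13⟩, (.cons (nat_lit 3177120) (nat_lit 1286175) (nat_lit 4570667) (nat_lit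
 1) (.cons (nat_lit 1621980) (nat_lit 49080) (nat_lit 836361) (nat_lit 1) .nil)), (nat_lit 9), (nat_lit 35),
 (nat_lit 7), (nat_lit 1), (3, 19, 2), [2195530, 975839], 3⟩,
  ⟨⟨39, -8, -11, 8, 5, -44, 8, -32, -7⟩, (.cons (nat_lit 4826808) (nat_lit 1126416) (nat_lit 4401238) (nat_lit
 1) (.cons (nat_lit 275039) (nat_lit 1783885) (nat_lit 457160) (nat_lit 1) .nil)), (nat_lit 42), (nat_lit 17),
 (nat_lit 35), (nat_lit 1), (5, 20, 20), [4323594, 48182], 36⟩,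
  ⟨⟨39, 4, -8, 10, -17, -40, 14, 28, -19⟩, (.cons (nat_lit 4114537) (nat_lit 353353) (nat_lit 794364) (nat_lit
 1) (.cons (nat_lit 101959) (nat_lit 470110) (nat_lit 1640323) (nat_lit 1) .nil)), (nat_lit 40), (nat_lit 17),
 (nat_lit 12), (nat_lit 1), (29, 34, 18), [4184964, 770684], 38⟩,
  ⟨⟨39, -8, -28, -8, -5, -36, 8, -32, -1⟩, (.cons (nat_lit 2990997) (nat_lit 72102) (nat_lit 2906935) (nat_lit
 1) (.cons (nat_lit 1371082) (nat_lit 881345) (nat_lit 452127) (nat_lit 1) .nil)), (nat_lit 1), (nat_lit 3),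
 (nat_lit 31), (nat_lit 1), (22, 23, 14), [187659, 10396], 7⟩,
  ⟨⟨25, -24, -36, -10, 17, -30, -14, -28, -5⟩, (.cons (nat_lit 4826808) (nat_lit 1095338) (nat_lit 1573909)
 (nat_lit 1) (.cons (nat_lit 740045) (nat_lit 1217231) (nat_lit 1723749) (nat_lit 1) .nil)), (nat_lit 42),
 (nat_lit 11), (nat_lit 38), (nat_lit 1), (21, 36, 6), [2109788, 1773034], 23⟩,
  ⟨⟨13, -24, -40, 32, -5, 4, 16, 16, -35⟩, (.cons (nat_lit 2895224) (nat_lit 3898719) (nat_lit 2380620)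
 (nat_lit 1) (.cons (nat_lit 222986) (nat_lit 1585934) (nat_lit 135540) (nat_lit 1) .nil)), (nat_lit 1),
 (nat_lit 3), (nat_lit 13), (nat_lit 1), (27, 1, 19), [1553353, 375479], 30⟩,
  ⟨⟨-31, 24, 4, -8, 5, 44, 8, 32, -7⟩, (.cons (nat_lit 738559) (nat_lit 2602679) (nat_lit 2329299) (nat_lit 1)
 (.cons (nat_lit 461521) (nat_lit 1176936) (nat_lit 1089616) (nat_lit 1) .nil)), (nat_lit 1), (nat_lit 40),
 (nat_lit 12), (nat_lit 1), (12, 21, 16), [2529699, 1822483], 36⟩,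
  mz,
  ⟨⟨13, 24, -40, 32, 5, 4, 16, -16, -35⟩, (.cons (nat_lit 698737) (nat_lit 4259267) (nat_lit 834427) (nat_lit
 1) (.cons (nat_lit 1571933) (nat_lit 218484) (nat_lit 1279548) (nat_lit 1) .nil)), (nat_lit 37), (nat_lit 10),
 (nat_lit 41), (nat_lit 1), (24, 5, 21), [3509280, 32266], 2⟩,
  ⟨⟨17, -36, 0, -30, -17, 0, 18, -12, -37⟩, (.cons (nat_lit 4826808) (nat_lit 3471372) (nat_lit 4313700)
 (nat_lit 1) (.cons (nat_lit 484565) (nat_lit 632621) (nat_lit 1368780) (nat_lit 1) .nil)), (nat_lit 42),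
 (nat_lit 36), (nat_lit 1), (nat_lit 1), (21, 13, 7), [1016163, 119015], 7⟩,
  ⟨⟨27, -4, -47, -10, 33, -10, 30, 12, -7⟩, (.cons (nat_lit 281830) (nat_lit 3648050) (nat_lit 3767919)
 (nat_lit 1) (.cons (nat_lit 274365) (nat_lit 283126) (nat_lit 1229669) (nat_lit 1) .nil)), (nat_lit 32),
 (nat_lit 37), (nat_lit 27), (nat_lit 1), (15, 15, 29), [1966693, 653075], 40⟩,
  ⟨⟨27, 4, -47, -10, -33, -10, 30, -12, -7⟩, (.cons (nat_lit 3559078) (nat_lit 3697792) (nat_lit 3987724)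
 (nat_lit 1) (.cons (nat_lit 3966) (nat_lit 12424) (nat_lit 414996) (nat_lit 1) .nil)), (nat_lit 1), (nat_lit
 41), (nat_lit 7), (nat_lit 1), (33, 33, 12), [3269064, 89427], 4⟩,
  mz,
  ⟨⟨-35, -12, -1, 12, -35, -6, 0, 0, -37⟩, (.cons (nat_lit 3525120) (nat_lit 3701762) (nat_lit 2321570)
 (nat_lit 1) (.cons (nat_lit 1066550) (nat_lit 1394035) (nat_lit 434693) (nat_lit 1) .nil)), (nat_lit 1),
 (nat_lit 20), (nat_lit 4), (nat_lit 1), (23, 27, 0), [3091020, 1839414], 42⟩,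
  ⟨⟨25, 24, -36, 10, 17, 30, -14, 28, -5⟩, (.cons (nat_lit 4826808) (nat_lit 2649231) (nat_lit 4031871)
 (nat_lit 1) (.cons (nat_lit 459819) (nat_lit 1725603) (nat_lit 889937) (nat_lit 1) .nil)), (nat_lit 42),
 (nat_lit 18), (nat_lit 28), (nat_lit 1), (18, 22, 21), [2786652, 1218758], 23⟩,
  mz,
  mz,
  ⟨⟨-3, -40, 8, 32, -5, -36, -16, -16, -19⟩, (.cons (nat_lit 4312999) (nat_lit 4133762) (nat_lit 852063)
 (nat_lit 1) (.cons (nat_lit 1782129) (nat_lit 882841) (nat_lit 1226847) (nat_lit 1) .nil)), (nat_lit 1),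
 (nat_lit 22), (nat_lit 35), (nat_lit 1), (32, 4, 35), [2101746, 1421722], 30⟩,
  mz,
  ⟨⟨11, 12, 36, -8, 35, -6, 32, 8, -13⟩, (.cons (nat_lit 3753847) (nat_lit 3246396) (nat_lit 3045047) (nat_lit
 1) (.cons (nat_lit 1213719) (nat_lit 643017) (nat_lit 1869) (nat_lit 1) .nil)), (nat_lit 24), (nat_lit 20),
 (nat_lit 4), (nat_lit 1), (20, 9, 1), [2135643, 1122014], 8⟩,
  ⟨⟨1, -24, -37, -30, 17, 0, 18, 12, -37⟩, (.cons (nat_lit 3225005) (nat_lit 4459384) (nat_lit 3975974)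
 (nat_lit 1) (.cons (nat_lit 1196502) (nat_lit 1057277) (nat_lit 1384140) (nat_lit 1) .nil)), (nat_lit 33),
 (nat_lit 1), (nat_lit 17), (nat_lit 1), (26, 34, 24), [4187814, 1684962], 33⟩]

/-- Moves. -/
noncomputable def t1_4 : List Mv := [
  mz,
  ⟨⟨3, -16, -43, -10, -33, 20, 30, -12, -23⟩, (.cons (nat_lit 2846833) (nat_lit 717161) (nat_lit 1264353)
 (nat_lit 1) (.cons (nat_lit 298279) (nat_lit 1817436) (nat_lit 1785048) (nat_lit 1) .nil)), (nat_lit 32),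
 (nat_lit 6), (nat_lit 16), (nat_lit 1), (25, 3, 28), [1659577, 24429], 3⟩,
  mz,
  mz,
  ⟨⟨21, 4, 28, 8, 35, -14, 32, -8, -19⟩, (.cons (nat_lit 4826808) (nat_lit 3870509) (nat_lit 1547033) (nat_lit
 1) (.cons (nat_lit 1425476) (nat_lit 1018043) (nat_lit 1761999) (nat_lit 1) .nil)), (nat_lit 42), (nat_lit
 11), (nat_lit 16), (nat_lit 1), (33, 2, 8), [4747384, 1716966], 13⟩,
  ⟨⟨21, -4, 28, 8, -35, -14, 32, 8, -19⟩, (.cons (nat_lit 2597736) (nat_lit 3145515) (nat_lit 2120523) (nat_lit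
 1) (.cons (nat_lit 140534) (nat_lit 54930) (nat_lit 357163) (nat_lit 1) .nil)), (nat_lit 9), (nat_lit 8),
 (nat_lit 36), (nat_lit 1), (15, 11, 7), [1685490, 1768453], 40⟩,
  mz,
  ⟨⟨-1, -24, -36, 30, 17, -30, -18, 12, -19⟩, (.cons (nat_lit 1738888) (nat_lit 1305455) (nat_lit 93072)
 (nat_lit 1) (.cons (nat_lit 1499386) (nat_lit 885095) (nat_lit 110208) (nat_lit 1) .nil)), (nat_lit 10),
 (nat_lit 1), (nat_lit 26), (nat_lit 1), (13, 17, 12), [1698451, 466968], 33⟩,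
  ⟨⟨-35, 12, -1, -12, -35, 6, 0, 0, -37⟩, (.cons (nat_lit 1150605) (nat_lit 2104961) (nat_lit 3972458) (nat_lit
 1) (.cons (nat_lit 799824) (nat_lit 112697) (nat_lit 541824) (nat_lit 1) .nil)), (nat_lit 1), (nat_lit 23),
 (nat_lit 39), (nat_lit 1), (3, 19, 0), [4302945, 974124], 42⟩,
  mz,
  ⟨⟨-1, 24, -36, 30, -17, -30, -18, -12, -19⟩, (.cons (nat_lit 4826808) (nat_lit 68122) (nat_lit 2990635)
 (nat_lit 1) (.cons (nat_lit 313047) (nat_lit 906125) (nat_lit 1155805) (nat_lit 1) .nil)), (nat_lit 42),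
 (nat_lit 7), (nat_lit 42), (nat_lit 1), (10, 33, 32), [3346311, 164154], 7⟩,
  ⟨⟨3, 16, -43, 10, -33, -20, 30, 12, -23⟩, (.cons (nat_lit 60303) (nat_lit 3114643) (nat_lit 387409) (nat_lit
 1) (.cons (nat_lit 657744) (nat_lit 232141) (nat_lit 594355) (nat_lit 1) .nil)), (nat_lit 39), (nat_lit 19),
 (nat_lit 22), (nat_lit 1), (23, 15, 8), [4608965, 1521813], 5⟩,
  ⟨⟨39, -4, -8, -10, -17, 40, 14, -28, -19⟩, (.cons (nat_lit 3437063) (nat_lit 1024296) (nat_lit 571109)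
 (nat_lit 1) (.cons (nat_lit 114235) (nat_lit 1334585) (nat_lit 580609) (nat_lit 1) .nil)), (nat_lit 14),
 (nat_lit 20), (nat_lit 4), (nat_lit 1), (11, 19, 3), [3936037, 1791581], 9⟩,
  ⟨⟨39, 8, -28, -8, 5, -36, 8, 32, -1⟩, (.cons (nat_lit 3927768) (nat_lit 1960263) (nat_lit 1739437) (nat_lit
 1) (.cons (nat_lit 1823396) (nat_lit 1267075) (nat_lit 1419066) (nat_lit 1) .nil)), (nat_lit 28), (nat_lit
 25), (nat_lit 38), (nat_lit 1), (21, 27, 10), [1651132, 1338202], 28⟩,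
  mz,
  ⟨⟨-13, -24, -27, 32, 5, -36, -16, 16, -19⟩, (.cons (nat_lit 2526554) (nat_lit 3057564) (nat_lit 3975506)
 (nat_lit 1) (.cons (nat_lit 796793) (nat_lit 623440) (nat_lit 327247) (nat_lit 1) .nil)), (nat_lit 36),
 (nat_lit 27), (nat_lit 14), (nat_lit 1), (6, 8, 33), [1741034, 654749], 12⟩,
  ⟨⟨21, 4, -49, 8, 35, 6, 32, -8, -13⟩, (.cons (nat_lit 3843909) (nat_lit 2974177) (nat_lit 2549487) (nat_lit
 1) (.cons (nat_lit 1143271) (nat_lit 1071032) (nat_lit 159805) (nat_lit 1) .nil)), (nat_lit 34), (nat_lit 8),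
 (nat_lit 7), (nat_lit 1), (36, 19, 2), [3629312, 753675], 3⟩,
  ⟨⟨39, -8, -11, -8, -5, 44, 8, -32, -7⟩, (.cons (nat_lit 3469351) (nat_lit 1659860) (nat_lit 3767641) (nat_lit
 1) (.cons (nat_lit 460752) (nat_lit 665154) (nat_lit 1172797) (nat_lit 1) .nil)), (nat_lit 15), (nat_lit 25),
 (nat_lit 5), (nat_lit 1), (5, 17, 20), [2779988, 1248849], 15⟩,
  ⟨⟨39, 4, -8, -10, 17, 40, 14, 28, -19⟩, (.cons (nat_lit 4826808) (nat_lit 2268763) (nat_lit 3937883) (nat_lit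
 1) (.cons (nat_lit 448528) (nat_lit 502940) (nat_lit 1378481) (nat_lit 1) .nil)), (nat_lit 42), (nat_lit 25),
 (nat_lit 15), (nat_lit 1), (29, 3, 18), [3534328, 1274331], 23⟩,
  ⟨⟨39, -8, -28, -8, -5, -36, 8, -32, -1⟩, (.cons (nat_lit 2990997) (nat_lit 72102) (nat_lit 2906935) (nat_lit
 1) (.cons (nat_lit 1371082) (nat_lit 881345) (nat_lit 452127) (nat_lit 1) .nil)), (nat_lit 1), (nat_lit 3),
 (nat_lit 31), (nat_lit 1), (22, 23, 14), [187659, 10396], 7⟩,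
  ⟨⟨-39, -4, 31, 10, -17, 30, -14, -28, -5⟩, (.cons (nat_lit 1118456) (nat_lit 1718638) (nat_lit 4341112)
 (nat_lit 1) (.cons (nat_lit 1446381) (nat_lit 1824542) (nat_lit 424510) (nat_lit 1) .nil)), (nat_lit 29),
 (nat_lit 20), (nat_lit 39), (nat_lit 1), (22, 1, 6), [4634091, 361569], 9⟩,
  ⟨⟨13, -24, -40, -32, 5, -4, 16, 16, -35⟩, (.cons (nat_lit 1733791) (nat_lit 323919) (nat_lit 4404522)
 (nat_lit 1) (.cons (nat_lit 790175) (nat_lit 546003) (nat_lit 1464450) (nat_lit 1) .nil)), (nat_lit 7),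
 (nat_lit 27), (nat_lit 29), (nat_lit 1), (27, 36, 19), [401133, 620026], 12⟩,
  ⟨⟨39, 8, -11, 8, -5, -44, 8, 32, -7⟩, (.cons (nat_lit 3957064) (nat_lit 4631890) (nat_lit 79108) (nat_lit 1)
 (.cons (nat_lit 425268) (nat_lit 1360462) (nat_lit 1420042) (nat_lit 1) .nil)), (nat_lit 23), (nat_lit 27),
 (nat_lit 14), (nat_lit 1), (4, 16, 16), [4743431, 517079], 23⟩,
  mz,
  ⟨⟨13, 24, -40, -32, -5, -4, 16, -16, -35⟩, (.cons (nat_lit 3174932) (nat_lit 3813019) (nat_lit 941042)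
 (nat_lit 1) (.cons (nat_lit 1860152) (nat_lit 1054636) (nat_lit 705457) (nat_lit 1) .nil)), (nat_lit 1),
 (nat_lit 21), (nat_lit 8), (nat_lit 1), (24, 32, 21), [1722340, 1551364], 30⟩,
  ⟨⟨1, 24, -37, -30, -17, 0, 18, -12, -37⟩, (.cons (nat_lit 4449046) (nat_lit 1841748) (nat_lit 4430173)
 (nat_lit 1) (.cons (nat_lit 331579) (nat_lit 1579701) (nat_lit 232118) (nat_lit 1) .nil)), (nat_lit 1),
 (nat_lit 7), (nat_lit 1), (nat_lit 1), (23, 13, 7), [1876078, 853811], 7⟩,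
  ⟨⟨3, 16, 40, 10, -33, 10, 30, 12, -7⟩, (.cons (nat_lit 4826808) (nat_lit 2366898) (nat_lit 4522467) (nat_lit
 1) (.cons (nat_lit 193529) (nat_lit 124685) (nat_lit 728276) (nat_lit 1) .nil)), (nat_lit 42), (nat_lit 35),
 (nat_lit 9), (nat_lit 1), (14, 22, 29), [690785, 75080], 4⟩,
  ⟨⟨3, -16, 40, -10, -33, -10, 30, -12, -7⟩, (.cons (nat_lit 4826808) (nat_lit 1428698) (nat_lit 1737974)
 (nat_lit 1) (.cons (nat_lit 724955) (nat_lit 944729) (nat_lit 859812) (nat_lit 1) .nil)), (nat_lit 42),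
 (nat_lit 2), (nat_lit 7), (nat_lit 1), (16, 33, 12), [4175976, 883822], 4⟩,
  mz,
  ⟨⟨-35, -12, -1, 12, -35, -6, 0, 0, -37⟩, (.cons (nat_lit 3525120) (nat_lit 3701762) (nat_lit 2321570)
 (nat_lit 1) (.cons (nat_lit 1066550) (nat_lit 1394035) (nat_lit 434693) (nat_lit 1) .nil)), (nat_lit 1),
 (nat_lit 20), (nat_lit 4), (nat_lit 1), (23, 27, 0), [3091020, 1839414], 42⟩,
  ⟨⟨-39, 4, 31, 10, 17, 30, -14, 28, -5⟩, (.cons (nat_lit 4678349) (nat_lit 3864368) (nat_lit 2956117) (nat_lit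
 1) (.cons (nat_lit 414330) (nat_lit 634291) (nat_lit 8576) (nat_lit 1) .nil)), (nat_lit 1), (nat_lit 25),
 (nat_lit 28), (nat_lit 1), (3, 22, 21), [3993967, 1424097], 23⟩,
  mz,
  mz,
  ⟨⟨-3, -40, 8, 32, -5, -36, -16, -16, -19⟩, (.cons (nat_lit 4312999) (nat_lit 4133762) (nat_lit 852063)
 (nat_lit 1) (.cons (nat_lit 1782129) (nat_lit 882841) (nat_lit 1226847) (nat_lit 1) .nil)), (nat_lit 1),
 (nat_lit 22), (nat_lit 35), (nat_lit 1), (32, 4, 35), [2101746, 1421722], 30⟩,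
  mz,
  ⟨⟨21, -4, -49, -8, 35, -6, 32, 8, -13⟩, (.cons (nat_lit 3469823) (nat_lit 1220923) (nat_lit 4305166) (nat_lit
 1) (.cons (nat_lit 1467484) (nat_lit 742414) (nat_lit 558328) (nat_lit 1) .nil)), (nat_lit 19), (nat_lit 23),
 (nat_lit 4), (nat_lit 1), (18, 9, 1), [1736352, 1006223], 8⟩,
  ⟨⟨1, -24, -37, -30, 17, 0, 18, 12, -37⟩, (.cons (nat_lit 3225005) (nat_lit 4459384) (nat_lit 3975974)
 (nat_lit 1) (.cons (nat_lit 1196502) (nat_lit 1057277) (nat_lit 1384140) (nat_lit 1) .nil)), (nat_lit 33),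
 (nat_lit 1), (nat_lit 17), (nat_lit 1), (26, 34, 24), [4187814, 1684962], 33⟩]

/-- Moves. -/
noncomputable def t1_5 : List Mv := [
  mz,
  ⟨⟨3, -16, -43, 10, 33, -20, 30, -12, -23⟩, (.cons (nat_lit 2767332) (nat_lit 2611102) (nat_lit 3010223)
 (nat_lit 1) (.cons (nat_lit 613252) (nat_lit 1059658) (nat_lit 579005) (nat_lit 1) .nil)), (nat_lit 1),
 (nat_lit 35), (nat_lit 34), (nat_lit 1), (25, 34, 28), [4435322, 1167854], 39⟩,
  mz,
  mz,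
  ⟨⟨21, 4, 28, 8, 35, -14, 32, -8, -19⟩, (.cons (nat_lit 4826808) (nat_lit 3870509) (nat_lit 1547033) (nat_lit
 1) (.cons (nat_lit 1425476) (nat_lit 1018043) (nat_lit 1761999) (nat_lit 1) .nil)), (nat_lit 42), (nat_lit
 11), (nat_lit 16), (nat_lit 1), (33, 2, 8), [4747384, 1716966], 13⟩,
  ⟨⟨21, -4, 28, -8, 35, 14, 32, 8, -19⟩, (.cons (nat_lit 4826808) (nat_lit 3496432) (nat_lit 1648458) (nat_lit
 1) (.cons (nat_lit 1028292) (nat_lit 691621) (nat_lit 580498) (nat_lit 1) .nil)), (nat_lit 42), (nat_lit 37),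
 (nat_lit 28), (nat_lit 1), (15, 26, 7), [3902238, 809546], 13⟩,
  mz,
  ⟨⟨-1, -24, -36, 30, 17, -30, -18, 12, -19⟩, (.cons (nat_lit 1738888) (nat_lit 1305455) (nat_lit 93072)
 (nat_lit 1) (.cons (nat_lit 1499386) (nat_lit 885095) (nat_lit 110208) (nat_lit 1) .nil)), (nat_lit 10),
 (nat_lit 1), (nat_lit 26), (nat_lit 1), (13, 17, 12), [1698451, 466968], 33⟩,
  ⟨⟨-35, 12, -1, 12, 35, -6, 0, 0, -37⟩, (.cons (nat_lit 3463655) (nat_lit 3255587) (nat_lit 1) (nat_lit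
 1363154) (.cons (nat_lit 353825) (nat_lit 423693) (nat_lit 512773) (nat_lit 1) .nil)), (nat_lit 42), (nat_lit
 11), (nat_lit 15), (nat_lit 1), (3, 18, 0), [3755070, 388739], 7⟩,
  mz,
  ⟨⟨-1, 24, -36, -30, 17, 30, -18, -12, -19⟩, (.cons (nat_lit 280220) (nat_lit 4427201) (nat_lit 3439996)
 (nat_lit 1) (.cons (nat_lit 413761) (nat_lit 1019282) (nat_lit 864789) (nat_lit 1) .nil)), (nat_lit 13),
 (nat_lit 30), (nat_lit 6), (nat_lit 1), (10, 4, 32), [3131725, 549573], 30⟩,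
  ⟨⟨27, -4, 20, 10, -33, -20, 30, 12, -23⟩, (.cons (nat_lit 3290443) (nat_lit 1341998) (nat_lit 4111131)
 (nat_lit 1) (.cons (nat_lit 223957) (nat_lit 1529890) (nat_lit 759273) (nat_lit 1) .nil)), (nat_lit 4),
 (nat_lit 24), (nat_lit 22), (nat_lit 1), (22, 15, 8), [699654, 1041787], 5⟩,
  ⟨⟨-25, -24, -11, -10, -17, 40, 14, -28, -19⟩, (.cons (nat_lit 4507204) (nat_lit 3436122) (nat_lit 1880168)
 (nat_lit 1) (.cons (nat_lit 390234) (nat_lit 1118274) (nat_lit 1469609) (nat_lit 1) .nil)), (nat_lit 29),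
 (nat_lit 23), (nat_lit 4), (nat_lit 1), (29, 19, 3), [3240827, 1476147], 9⟩,
  ⟨⟨-31, 24, 27, 8, -5, 36, 8, 32, -1⟩, (.cons (nat_lit 4826808) (nat_lit 1995273) (nat_lit 2886299) (nat_lit
 1) (.cons (nat_lit 384092) (nat_lit 900727) (nat_lit 1038712) (nat_lit 1) .nil)), (nat_lit 42), (nat_lit 26),
 (nat_lit 8), (nat_lit 1), (26, 10, 10), [2301184, 604956], 7⟩,
  mz,
  ⟨⟨-3, 40, 8, -32, -5, 36, -16, 16, -19⟩, (.cons (nat_lit 2471120) (nat_lit 2078922) (nat_lit 1271384)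
 (nat_lit 1) (.cons (nat_lit 505032) (nat_lit 1154438) (nat_lit 1762769) (nat_lit 1) .nil)), (nat_lit 1),
 (nat_lit 40), (nat_lit 30), (nat_lit 1), (27, 29, 33), [362125, 1768448], 30⟩,
  ⟨⟨21, 4, -49, -8, -35, -6, 32, -8, -13⟩, (.cons (nat_lit 4461738) (nat_lit 1033493) (nat_lit 3029009)
 (nat_lit 1) (.cons (nat_lit 269102) (nat_lit 1406390) (nat_lit 1191970) (nat_lit 1) .nil)), (nat_lit 1),
 (nat_lit 37), (nat_lit 15), (nat_lit 1), (36, 18, 2), [4146778, 1126172], 30⟩,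
  ⟨⟨39, -8, -11, 8, 5, -44, 8, -32, -7⟩, (.cons (nat_lit 4826808) (nat_lit 1126416) (nat_lit 4401238) (nat_lit
 1) (.cons (nat_lit 275039) (nat_lit 1783885) (nat_lit 457160) (nat_lit 1) .nil)), (nat_lit 42), (nat_lit 17),
 (nat_lit 35), (nat_lit 1), (5, 20, 20), [4323594, 48182], 36⟩,
  ⟨⟨39, 4, -8, -10, 17, 40, 14, 28, -19⟩, (.cons (nat_lit 4826808) (nat_lit 2268763) (nat_lit 3937883) (nat_lit
 1) (.cons (nat_lit 448528) (nat_lit 502940) (nat_lit 1378481) (nat_lit 1) .nil)), (nat_lit 42), (nat_lit 25),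
 (nat_lit 15), (nat_lit 1), (29, 3, 18), [3534328, 1274331], 23⟩,
  ⟨⟨39, -8, -28, -8, -5, -36, 8, -32, -1⟩, (.cons (nat_lit 2990997) (nat_lit 72102) (nat_lit 2906935) (nat_lit
 1) (.cons (nat_lit 1371082) (nat_lit 881345) (nat_lit 452127) (nat_lit 1) .nil)), (nat_lit 1), (nat_lit 3),
 (nat_lit 31), (nat_lit 1), (22, 23, 14), [187659, 10396], 7⟩,
  ⟨⟨25, -24, -36, -10, 17, -30, -14, -28, -5⟩, (.cons (nat_lit 4826808) (nat_lit 1095338) (nat_lit 1573909)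
 (nat_lit 1) (.cons (nat_lit 740045) (nat_lit 1217231) (nat_lit 1723749) (nat_lit 1) .nil)), (nat_lit 42),
 (nat_lit 11), (nat_lit 38), (nat_lit 1), (21, 36, 6), [2109788, 1773034], 23⟩,
  ⟨⟨13, -24, -40, -32, 5, -4, 16, 16, -35⟩, (.cons (nat_lit 1733791) (nat_lit 323919) (nat_lit 4404522)
 (nat_lit 1) (.cons (nat_lit 790175) (nat_lit 546003) (nat_lit 1464450) (nat_lit 1) .nil)), (nat_lit 7),
 (nat_lit 27), (nat_lit 29), (nat_lit 1), (27, 36, 19), [401133, 620026], 12⟩,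
  ⟨⟨39, 8, -11, 8, -5, -44, 8, 32, -7⟩, (.cons (nat_lit 3957064) (nat_lit 4631890) (nat_lit 79108) (nat_lit 1)
 (.cons (nat_lit 425268) (nat_lit 1360462) (nat_lit 1420042) (nat_lit 1) .nil)), (nat_lit 23), (nat_lit 27),
 (nat_lit 14), (nat_lit 1), (4, 16, 16), [4743431, 517079], 23⟩,
  mz,
  ⟨⟨3, -40, 5, -32, -5, -4, 16, -16, -35⟩, (.cons (nat_lit 4826808) (nat_lit 3702007) (nat_lit 3350191)
 (nat_lit 1) (.cons (nat_lit 321485) (nat_lit 1375892) (nat_lit 481937) (nat_lit 1) .nil)), (nat_lit 42),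
 (nat_lit 22), (nat_lit 8), (nat_lit 1), (34, 32, 21), [369787, 213769], 30⟩,
  ⟨⟨17, -36, 0, 30, 17, 0, 18, -12, -37⟩, (.cons (nat_lit 3748126) (nat_lit 81780) (nat_lit 1938205) (nat_lit
 1) (.cons (nat_lit 338837) (nat_lit 141716) (nat_lit 670967) (nat_lit 1) .nil)), (nat_lit 13), (nat_lit 13),
 (nat_lit 37), (nat_lit 1), (21, 24, 7), [1231593, 862200], 30⟩,
  ⟨⟨27, -4, -47, -10, 33, -10, 30, 12, -7⟩, (.cons (nat_lit 281830) (nat_lit 3648050) (nat_lit 3767919)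
 (nat_lit 1) (.cons (nat_lit 274365) (nat_lit 283126) (nat_lit 1229669) (nat_lit 1) .nil)), (nat_lit 32),
 (nat_lit 37), (nat_lit 27), (nat_lit 1), (15, 15, 29), [1966693, 653075], 40⟩,
  ⟨⟨27, 4, -47, 10, 33, 10, 30, -12, -7⟩, (.cons (nat_lit 4303579) (nat_lit 4018370) (nat_lit 4285886) (nat_lit
 1) (.cons (nat_lit 699829) (nat_lit 70715) (nat_lit 1699014) (nat_lit 1) .nil)), (nat_lit 39), (nat_lit 24),
 (nat_lit 21), (nat_lit 1), (33, 4, 12), [1304450, 1764046], 38⟩,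
  mz,
  ⟨⟨-35, -12, -1, -12, 35, 6, 0, 0, -37⟩, (.cons (nat_lit 4826808) (nat_lit 2831480) (nat_lit 1497530) (nat_lit
 1) (.cons (nat_lit 8720) (nat_lit 1641026) (nat_lit 1615958) (nat_lit 1) .nil)), (nat_lit 42), (nat_lit 32),
 (nat_lit 28), (nat_lit 1), (23, 10, 0), [3534214, 29474], 7⟩,
  ⟨⟨-39, 4, 31, -10, -17, -30, -14, 28, -5⟩, (.cons (nat_lit 4411969) (nat_lit 2097027) (nat_lit 1) (nat_lit
 2148588) (.cons (nat_lit 603834) (nat_lit 328847) (nat_lit 657138) (nat_lit 1) .nil)), (nat_lit 3), (nat_lit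
 17), (nat_lit 31), (nat_lit 1), (3, 15, 21), [363798, 870269], 38⟩,
  mz,
  mz,
  ⟨⟨-3, -40, 8, 32, -5, -36, -16, -16, -19⟩, (.cons (nat_lit 4312999) (nat_lit 4133762) (nat_lit 852063)
 (nat_lit 1) (.cons (nat_lit 1782129) (nat_lit 882841) (nat_lit 1226847) (nat_lit 1) .nil)), (nat_lit 1),
 (nat_lit 22), (nat_lit 35), (nat_lit 1), (32, 4, 35), [2101746, 1421722], 30⟩,
  mz,
  ⟨⟨21, -4, -49, -8, 35, -6, 32, 8, -13⟩, (.cons (nat_lit 3469823) (nat_lit 1220923) (nat_lit 4305166) (nat_lit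
 1) (.cons (nat_lit 1467484) (nat_lit 742414) (nat_lit 558328) (nat_lit 1) .nil)), (nat_lit 19), (nat_lit 23),
 (nat_lit 4), (nat_lit 1), (18, 9, 1), [1736352, 1006223], 8⟩,
  ⟨⟨17, 36, 0, -30, 17, 0, 18, 12, -37⟩, (.cons (nat_lit 372042) (nat_lit 2609176) (nat_lit 2639136) (nat_lit
 1) (.cons (nat_lit 587166) (nat_lit 654203) (nat_lit 125876) (nat_lit 1) .nil)), (nat_lit 10), (nat_lit 42),
 (nat_lit 17), (nat_lit 1), (35, 34, 24), [4696836, 983644], 33⟩]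

/-- Moves. -/
noncomputable def t4_2 : List Mv := [
  mz,
  ⟨⟨3, 44, -20, 2, 15, 44, 36, 12, -25⟩, (.cons (nat_lit 1958561) (nat_lit 3353443) (nat_lit 2525918) (nat_lit
 1) (.cons (nat_lit 1061826) (nat_lit 455374) (nat_lit 585259) (nat_lit 1) .nil)), (nat_lit 22), (nat_lit 0),
 (nat_lit 0), (nat_lit 0), (36, 24, 2), [157470, 1567395], 0⟩,
  mz,
  mz,
  ⟨⟨19, 36, -36, -20, -13, -30, 34, -8, -35⟩, (.cons (nat_lit 2791757) (nat_lit 1109312) (nat_lit 3580713)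
 (nat_lit 1) (.cons (nat_lit 196097) (nat_lit 183861) (nat_lit 699944) (nat_lit 1) .nil)), (nat_lit 18),
 (nat_lit 0), (nat_lit 0), (nat_lit 0), (14, 26, 16), [3239619, 963959], 0⟩,
  ⟨⟨33, -32, -28, 2, 15, -46, 36, 12, -11⟩, (.cons (nat_lit 2245823) (nat_lit 661410) (nat_lit 1464898)
 (nat_lit 1) (.cons (nat_lit 846620) (nat_lit 110997) (nat_lit 76577) (nat_lit 1) .nil)), (nat_lit 21),
 (nat_lit 0), (nat_lit 0), (nat_lit 0), (19, 22, 9), [4046014, 34610], 0⟩,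
  ⟨⟨-37, -24, 0, -20, 37, 0, 2, -8, -43⟩, (.cons (nat_lit 4826808) (nat_lit 1167233) (nat_lit 2431607) (nat_lit
 1) (.cons (nat_lit 1874160) (nat_lit 510274) (nat_lit 671342) (nat_lit 1) .nil)), (nat_lit 6), (nat_lit 0),
 (nat_lit 0), (nat_lit 0), (12, 3, 4), [4317107, 856585], 0⟩,
  ⟨⟨33, 8, -53, -20, -27, -20, 30, -24, -13⟩, (.cons (nat_lit 522512) (nat_lit 2732097) (nat_lit 1263118)
 (nat_lit 1) (.cons (nat_lit 1817134) (nat_lit 58883) (nat_lit 928041) (nat_lit 1) .nil)), (nat_lit 36),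
 (nat_lit 0), (nat_lit 0), (nat_lit 0), (32, 21, 33), [2364048, 1035437], 0⟩,
  ⟨⟨-39, -16, -4, 20, -37, -20, -2, 8, -41⟩, (.cons (nat_lit 2268480) (nat_lit 3310296) (nat_lit 1820726)
 (nat_lit 1) (.cons (nat_lit 1129534) (nat_lit 806312) (nat_lit 1860066) (nat_lit 1) .nil)), (nat_lit 37),
 (nat_lit 0), (nat_lit 0), (nat_lit 0), (6, 30, 40), [3818346, 1527098], 0⟩,
  ⟨⟨47, 0, -20, 0, 43, 0, 18, 0, -47⟩, (.cons (nat_lit 4826808) (nat_lit 3487469) (nat_lit 971350) (nat_lit 1)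
 (.cons (nat_lit 1874160) (nat_lit 1431512) (nat_lit 1768949) (nat_lit 1) .nil)), (nat_lit 9), (nat_lit 0),
 (nat_lit 0), (nat_lit 0), (34, 0, 24), [537400, 44158], 0⟩,
  ⟨⟨21, -20, 31, 38, 15, -34, 12, -36, -13⟩, (.cons (nat_lit 3311930) (nat_lit 1891429) (nat_lit 1234863)
 (nat_lit 1) (.cons (nat_lit 1577832) (nat_lit 295961) (nat_lit 1566443) (nat_lit 1) .nil)), (nat_lit 38),
 (nat_lit 0), (nat_lit 0), (nat_lit 0), (8, 37, 23), [1072520, 344758], 0⟩,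
  mz,
  ⟨⟨-15, 44, 16, 20, 13, -50, -34, 8, -1⟩, (.cons (nat_lit 1003721) (nat_lit 612802) (nat_lit 82551) (nat_lit
 1) (.cons (nat_lit 1233322) (nat_lit 420228) (nat_lit 1044237) (nat_lit 1) .nil)), (nat_lit 25), (nat_lit 0),
 (nat_lit 0), (nat_lit 0), (28, 20, 9), [146494, 537806], 0⟩,
  ⟨⟨33, 8, 20, 20, 27, -40, 30, -24, -17⟩, (.cons (nat_lit 4826808) (nat_lit 4385623) (nat_lit 409601) (nat_lit
 1) (.cons (nat_lit 1874160) (nat_lit 1523104) (nat_lit 926388) (nat_lit 1) .nil)), (nat_lit 13), (nat_lit 0),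
 (nat_lit 0), (nat_lit 0), (4, 35, 31), [79884, 679138], 0⟩,
  mz,
  mz,
  mz,
  ⟨⟨5, 36, 31, 40, -13, -10, 14, 32, -25⟩, (.cons (nat_lit 318441) (nat_lit 3646291) (nat_lit 4359353) (nat_lit
 1) (.cons (nat_lit 1076387) (nat_lit 1224262) (nat_lit 1868273) (nat_lit 1) .nil)), (nat_lit 31), (nat_lit 0),
 (nat_lit 0), (nat_lit 0), (1, 8, 20), [3304200, 1115517], 0⟩,
  ⟨⟨-5, -36, 36, 40, -13, -30, -14, -32, -11⟩, (.cons (nat_lit 4386722) (nat_lit 674266) (nat_lit 2427374)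
 (nat_lit 1) (.cons (nat_lit 1352991) (nat_lit 733762) (nat_lit 1243279) (nat_lit 1) .nil)), (nat_lit 4),
 (nat_lit 0), (nat_lit 0), (nat_lit 0), (11, 41, 5), [1078647, 173834], 0⟩,
  mz,
  mz,
  ⟨⟨-9, 16, -44, 38, -15, -34, 12, 36, -13⟩, (.cons (nat_lit 3478480) (nat_lit 1879859) (nat_lit 424979)
 (nat_lit 1) (.cons (nat_lit 451725) (nat_lit 1183569) (nat_lit 1518413) (nat_lit 1) .nil)), (nat_lit 5),
 (nat_lit 0), (nat_lit 0), (nat_lit 0), (1, 34, 13), [2719559, 96535], 0⟩,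
  ⟨⟨-21, 20, 52, 38, 15, -4, -12, 36, -1⟩, (.cons (nat_lit 4504957) (nat_lit 4056373) (nat_lit 1973884)
 (nat_lit 1) (.cons (nat_lit 1251504) (nat_lit 1865189) (nat_lit 1) (nat_lit 6771) .nil)), (nat_lit 1),
 (nat_lit 0), (nat_lit 0), (nat_lit 0), (12, 9, 13), [1164453, 1399966], 0⟩,
  mz,
  mz,
  ⟨⟨5, -36, 31, 40, 13, -10, 14, -32, -25⟩, (.cons (nat_lit 417548) (nat_lit 1177053) (nat_lit 4747865)
 (nat_lit 1) (.cons (nat_lit 179559) (nat_lit 1340762) (nat_lit 992442) (nat_lit 1) .nil)), (nat_lit 31),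
 (nat_lit 0), (nat_lit 0), (nat_lit 0), (11, 2, 5), [4665069, 343491], 0⟩,
  ⟨⟨-5, 36, 36, 40, 13, -30, -14, 32, -11⟩, (.cons (nat_lit 1477519) (nat_lit 269747) (nat_lit 1467888)
 (nat_lit 1) (.cons (nat_lit 1234210) (nat_lit 898997) (nat_lit 1281064) (nat_lit 1) .nil)), (nat_lit 4),
 (nat_lit 0), (nat_lit 0), (nat_lit 0), (1, 35, 20), [1821986, 1722176], 0⟩,
  mz,
  mz,
  mz,
  ⟨⟨33, -8, -53, 20, -27, 20, 30, 24, -13⟩, (.cons (nat_lit 3030368) (nat_lit 1091158) (nat_lit 3368563)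
 (nat_lit 1) (.cons (nat_lit 1512920) (nat_lit 362781) (nat_lit 669746) (nat_lit 1) .nil)), (nat_lit 13),
 (nat_lit 0), (nat_lit 0), (nat_lit 0), (39, 8, 12), [4542393, 972241], 0⟩,
  ⟨⟨15, 44, 1, -20, 13, -30, 34, 8, -35⟩, (.cons (nat_lit 4220828) (nat_lit 4534445) (nat_lit 4766744) (nat_lit
 1) (.cons (nat_lit 1025325) (nat_lit 911621) (nat_lit 121300) (nat_lit 1) .nil)), (nat_lit 25), (nat_lit 0),
 (nat_lit 0), (nat_lit 0), (28, 20, 9), [2546940, 362494], 0⟩,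
  mz,
  ⟨⟨-21, -20, 52, 38, -15, -4, -12, -36, -1⟩, (.cons (nat_lit 614908) (nat_lit 3166132) (nat_lit 1057937)
 (nat_lit 1) (.cons (nat_lit 509291) (nat_lit 411199) (nat_lit 1556142) (nat_lit 1) .nil)), (nat_lit 1),
 (nat_lit 0), (nat_lit 0), (nat_lit 0), (8, 6, 23), [4372448, 1001390], 0⟩,
  ⟨⟨29, 0, -56, 0, -43, 0, -18, 0, -29⟩, (.cons (nat_lit 4826808) (nat_lit 1276180) (nat_lit 2968301) (nat_lit
 1) (.cons (nat_lit 1874160) (nat_lit 1473987) (nat_lit 41889) (nat_lit 1) .nil)), (nat_lit 34), (nat_lit 0),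
 (nat_lit 0), (nat_lit 0), (33, 0, 24), [2928357, 18694], 0⟩,
  ⟨⟨39, -16, -43, 20, 37, 0, 2, 8, -43⟩, (.cons (nat_lit 2816701) (nat_lit 3079564) (nat_lit 1858858) (nat_lit
 1) (.cons (nat_lit 1580018) (nat_lit 856420) (nat_lit 1665936) (nat_lit 1) .nil)), (nat_lit 8), (nat_lit 0),
 (nat_lit 0), (nat_lit 0), (6, 13, 40), [2483389, 427090], 0⟩,
  ⟨⟨33, -8, 20, -20, 27, 40, 30, 24, -17⟩, (.cons (nat_lit 2316132) (nat_lit 1633116) (nat_lit 1) (nat_lit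
 2510677) (.cons (nat_lit 1874160) (nat_lit 1237274) (nat_lit 1322560) (nat_lit 1) .nil)), (nat_lit 36),
 (nat_lit 0), (nat_lit 0), (nat_lit 0), (11, 22, 10), [1032346, 1568246], 0⟩,
  ⟨⟨-39, 16, -4, 20, 37, -20, -2, -8, -41⟩, (.cons (nat_lit 4826808) (nat_lit 2367452) (nat_lit 4001041)
 (nat_lit 1) (.cons (nat_lit 1874160) (nat_lit 1764313) (nat_lit 405930) (nat_lit 1) .nil)), (nat_lit 37),
 (nat_lit 0), (nat_lit 0), (nat_lit 0), (35, 3, 4), [1002311, 1595529], 0⟩,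
  ⟨⟨33, 32, -5, -2, 15, -44, 36, -12, -25⟩, (.cons (nat_lit 3087155) (nat_lit 1157075) (nat_lit 263435)
 (nat_lit 1) (.cons (nat_lit 1062298) (nat_lit 1100177) (nat_lit 802666) (nat_lit 1) .nil)), (nat_lit 10),
 (nat_lit 0), (nat_lit 0), (nat_lit 0), (24, 22, 34), [4725531, 971305], 0⟩,
  ⟨⟨-15, -44, 16, 20, -13, -50, -34, -8, -1⟩, (.cons (nat_lit 3391567) (nat_lit 3501204) (nat_lit 730125)
 (nat_lit 1) (.cons (nat_lit 179660) (nat_lit 1859172) (nat_lit 367017) (nat_lit 1) .nil)), (nat_lit 25),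
 (nat_lit 0), (nat_lit 0), (nat_lit 0), (2, 26, 16), [4734511, 258403], 0⟩,
  mz,
  mz,
  ⟨⟨33, 32, -28, 2, -15, -46, 36, -12, -11⟩, (.cons (nat_lit 2072221) (nat_lit 1748512) (nat_lit 2280253)
 (nat_lit 1) (.cons (nat_lit 1688592) (nat_lit 336189) (nat_lit 1329574) (nat_lit 1) .nil)), (nat_lit 21),
 (nat_lit 0), (nat_lit 0), (nat_lit 0), (34, 19, 41), [1883456, 1086484], 0⟩]

/-- Moves. -/
noncomputable def t4_4 : List Mv := [
  mz,
  ⟨⟨3, 44, -20, -2, -15, -44, 36, 12, -25⟩, (.cons (nat_lit 2262291) (nat_lit 2326284) (nat_lit 2235365)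
 (nat_lit 1) (.cons (nat_lit 1575600) (nat_lit 1068334) (nat_lit 673923) (nat_lit 1) .nil)), (nat_lit 33),
 (nat_lit 0), (nat_lit 0), (nat_lit 0), (36, 19, 2), [2691323, 1488068], 0⟩,
  mz,
  mz,
  ⟨⟨19, 36, -36, -20, -13, -30, 34, -8, -35⟩, (.cons (nat_lit 2791757) (nat_lit 1109312) (nat_lit 3580713)
 (nat_lit 1) (.cons (nat_lit 196097) (nat_lit 183861) (nat_lit 699944) (nat_lit 1) .nil)), (nat_lit 18),
 (nat_lit 0), (nat_lit 0), (nat_lit 0), (14, 26, 16), [3239619, 963959], 0⟩,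
  ⟨⟨3, 44, 17, -2, -15, 46, 36, 12, -11⟩, (.cons (nat_lit 2354497) (nat_lit 2882707) (nat_lit 1364946) (nat_lit
 1) (.cons (nat_lit 1694791) (nat_lit 434556) (nat_lit 235892) (nat_lit 1) .nil)), (nat_lit 33), (nat_lit 0),
 (nat_lit 0), (nat_lit 0), (33, 21, 9), [4161406, 1571308], 0⟩,
  ⟨⟨-37, -24, 0, -20, 37, 0, 2, -8, -43⟩, (.cons (nat_lit 4826808) (nat_lit 1167233) (nat_lit 2431607) (nat_lit
 1) (.cons (nat_lit 1874160) (nat_lit 510274) (nat_lit 671342) (nat_lit 1) .nil)), (nat_lit 6), (nat_lit 0),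
 (nat_lit 0), (nat_lit 0), (12, 3, 4), [4317107, 856585], 0⟩,
  ⟨⟨33, 8, -53, 20, 27, 20, 30, -24, -13⟩, (.cons (nat_lit 3600157) (nat_lit 1773547) (nat_lit 1533542)
 (nat_lit 1) (.cons (nat_lit 1583985) (nat_lit 1346095) (nat_lit 118015) (nat_lit 1) .nil)), (nat_lit 13),
 (nat_lit 0), (nat_lit 0), (nat_lit 0), (32, 22, 33), [3039724, 1512211], 0⟩,
  ⟨⟨-39, -16, -4, 20, -37, -20, -2, 8, -41⟩, (.cons (nat_lit 2268480) (nat_lit 3310296) (nat_lit 1820726)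
 (nat_lit 1) (.cons (nat_lit 1129534) (nat_lit 806312) (nat_lit 1860066) (nat_lit 1) .nil)), (nat_lit 37),
 (nat_lit 0), (nat_lit 0), (nat_lit 0), (6, 30, 40), [3818346, 1527098], 0⟩,
  ⟨⟨-29, 0, -27, 0, -43, 0, 18, 0, -47⟩, (.cons (nat_lit 1216126) (nat_lit 417942) (nat_lit 2998535) (nat_lit
 1) (.cons (nat_lit 763101) (nat_lit 684443) (nat_lit 473968) (nat_lit 1) .nil)), (nat_lit 34), (nat_lit 0),
 (nat_lit 0), (nat_lit 0), (33, 0, 24), [659232, 1653470], 0⟩,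
  ⟨⟨21, -20, 31, 38, 15, -34, 12, -36, -13⟩, (.cons (nat_lit 3311930) (nat_lit 1891429) (nat_lit 1234863)
 (nat_lit 1) (.cons (nat_lit 1577832) (nat_lit 295961) (nat_lit 1566443) (nat_lit 1) .nil)), (nat_lit 38),
 (nat_lit 0), (nat_lit 0), (nat_lit 0), (8, 37, 23), [1072520, 344758], 0⟩,
  mz,
  ⟨⟨-19, -36, -17, 20, 13, -50, -34, 8, -1⟩, (.cons (nat_lit 1906236) (nat_lit 1872727) (nat_lit 2656974)
 (nat_lit 1) (.cons (nat_lit 323265) (nat_lit 1745904) (nat_lit 856716) (nat_lit 1) .nil)), (nat_lit 18),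
 (nat_lit 0), (nat_lit 0), (nat_lit 0), (24, 20, 9), [2660390, 1633656], 0⟩,
  ⟨⟨33, 8, 20, 20, 27, -40, 30, -24, -17⟩, (.cons (nat_lit 4826808) (nat_lit 4385623) (nat_lit 409601) (nat_lit
 1) (.cons (nat_lit 1874160) (nat_lit 1523104) (nat_lit 926388) (nat_lit 1) .nil)), (nat_lit 13), (nat_lit 0),
 (nat_lit 0), (nat_lit 0), (4, 35, 31), [79884, 679138], 0⟩,
  mz,
  mz,
  mz,
  ⟨⟨9, -4, -56, 40, -13, -10, 14, 32, -25⟩, (.cons (nat_lit 685809) (nat_lit 2712640) (nat_lit 3468618)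
 (nat_lit 1) (.cons (nat_lit 992744) (nat_lit 1778333) (nat_lit 784164) (nat_lit 1) .nil)), (nat_lit 12),
 (nat_lit 0), (nat_lit 0), (nat_lit 0), (19, 8, 20), [3543845, 837789], 0⟩,
  ⟨⟨-9, 4, -47, -40, 13, 30, -14, -32, -11⟩, (.cons (nat_lit 4799095) (nat_lit 2905710) (nat_lit 2406141)
 (nat_lit 1) (.cons (nat_lit 758842) (nat_lit 1617664) (nat_lit 633130) (nat_lit 1) .nil)), (nat_lit 12),
 (nat_lit 0), (nat_lit 0), (nat_lit 0), (37, 2, 5), [789536, 1873090], 0⟩,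
  mz,
  mz,
  ⟨⟨21, 20, 31, 38, -15, -34, 12, 36, -13⟩, (.cons (nat_lit 427008) (nat_lit 859506) (nat_lit 2520025) (nat_lit
 1) (.cons (nat_lit 586665) (nat_lit 878360) (nat_lit 606636) (nat_lit 1) .nil)), (nat_lit 38), (nat_lit 0),
 (nat_lit 0), (nat_lit 0), (12, 34, 13), [1223088, 1251080], 0⟩,
  ⟨⟨-21, 20, 52, 38, 15, -4, -12, 36, -1⟩, (.cons (nat_lit 4504957) (nat_lit 4056373) (nat_lit 1973884)
 (nat_lit 1) (.cons (nat_lit 1251504) (nat_lit 1865189) (nat_lit 1) (nat_lit 6771) .nil)), (nat_lit 1),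
 (nat_lit 0), (nat_lit 0), (nat_lit 0), (12, 9, 13), [1164453, 1399966], 0⟩,
  mz,
  mz,
  ⟨⟨9, 4, -56, 40, 13, -10, 14, -32, -25⟩, (.cons (nat_lit 1030286) (nat_lit 4603064) (nat_lit 2061803)
 (nat_lit 1) (.cons (nat_lit 510786) (nat_lit 1080122) (nat_lit 831996) (nat_lit 1) .nil)), (nat_lit 12),
 (nat_lit 0), (nat_lit 0), (nat_lit 0), (37, 2, 5), [661530, 1718402], 0⟩,
  ⟨⟨-5, 36, 36, 40, 13, -30, -14, 32, -11⟩, (.cons (nat_lit 1477519) (nat_lit 269747) (nat_lit 1467888)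
 (nat_lit 1) (.cons (nat_lit 1234210) (nat_lit 898997) (nat_lit 1281064) (nat_lit 1) .nil)), (nat_lit 4),
 (nat_lit 0), (nat_lit 0), (nat_lit 0), (1, 35, 20), [1821986, 1722176], 0⟩,
  mz,
  mz,
  mz,
  ⟨⟨33, -8, -53, -20, 27, -20, 30, 24, -13⟩, (.cons (nat_lit 4053007) (nat_lit 2269722) (nat_lit 2865369)
 (nat_lit 1) (.cons (nat_lit 208042) (nat_lit 92848) (nat_lit 1235709) (nat_lit 1) .nil)), (nat_lit 36),
 (nat_lit 0), (nat_lit 0), (nat_lit 0), (39, 35, 12), [4397290, 426976], 0⟩,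
  ⟨⟨15, 44, 1, 20, -13, 30, 34, 8, -35⟩, (.cons (nat_lit 4608615) (nat_lit 717793) (nat_lit 4033324) (nat_lit
 1) (.cons (nat_lit 1574955) (nat_lit 1768522) (nat_lit 1860573) (nat_lit 1) .nil)), (nat_lit 17), (nat_lit 0),
 (nat_lit 0), (nat_lit 0), (28, 23, 9), [998932, 694167], 0⟩,
  mz,
  ⟨⟨-21, -20, 52, -38, 15, 4, -12, -36, -1⟩, (.cons (nat_lit 3558953) (nat_lit 1106388) (nat_lit 39763)
 (nat_lit 1) (.cons (nat_lit 1276782) (nat_lit 861298) (nat_lit 1769041) (nat_lit 1) .nil)), (nat_lit 38),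
 (nat_lit 0), (nat_lit 0), (nat_lit 0), (8, 37, 23), [4573670, 1302532], 0⟩,
  ⟨⟨-47, 0, 27, 0, -43, 0, -18, 0, -29⟩, (.cons (nat_lit 195787) (nat_lit 1282623) (nat_lit 953007) (nat_lit 1)
 (.cons (nat_lit 471030) (nat_lit 1863091) (nat_lit 659602) (nat_lit 1) .nil)), (nat_lit 9), (nat_lit 0),
 (nat_lit 0), (nat_lit 0), (34, 0, 24), [4045217, 1405791], 0⟩,
  ⟨⟨39, -16, -43, 20, 37, 0, 2, 8, -43⟩, (.cons (nat_lit 2816701) (nat_lit 3079564) (nat_lit 1858858) (nat_lit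
 1) (.cons (nat_lit 1580018) (nat_lit 856420) (nat_lit 1665936) (nat_lit 1) .nil)), (nat_lit 8), (nat_lit 0),
 (nat_lit 0), (nat_lit 0), (6, 13, 40), [2483389, 427090], 0⟩,
  ⟨⟨33, -8, 20, 20, -27, -40, 30, 24, -17⟩, (.cons (nat_lit 3060677) (nat_lit 749997) (nat_lit 3127075)
 (nat_lit 1) (.cons (nat_lit 625809) (nat_lit 1717210) (nat_lit 1750463) (nat_lit 1) .nil)), (nat_lit 13),
 (nat_lit 0), (nat_lit 0), (nat_lit 0), (11, 21, 10), [1681665, 506898], 0⟩,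
  ⟨⟨-39, 16, -4, -20, -37, 20, -2, -8, -41⟩, (.cons (nat_lit 3420077) (nat_lit 1542259) (nat_lit 4560526)
 (nat_lit 1) (.cons (nat_lit 735467) (nat_lit 533433) (nat_lit 422874) (nat_lit 1) .nil)), (nat_lit 8),
 (nat_lit 0), (nat_lit 0), (nat_lit 0), (35, 40, 4), [3269756, 803001], 0⟩,
  ⟨⟨3, -44, -20, -2, 15, -44, 36, -12, -25⟩, (.cons (nat_lit 1144590) (nat_lit 968320) (nat_lit 4476700)
 (nat_lit 1) (.cons (nat_lit 1789460) (nat_lit 1084973) (nat_lit 369791) (nat_lit 1) .nil)), (nat_lit 33),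
 (nat_lit 0), (nat_lit 0), (nat_lit 0), (10, 22, 34), [688444, 1476127], 0⟩,
  ⟨⟨-15, -44, 16, -20, 13, 50, -34, -8, -1⟩, (.cons (nat_lit 2221698) (nat_lit 1404163) (nat_lit 4787225)
 (nat_lit 1) (.cons (nat_lit 526963) (nat_lit 1156524) (nat_lit 1252827) (nat_lit 1) .nil)), (nat_lit 17),
 (nat_lit 0), (nat_lit 0), (nat_lit 0), (2, 17, 16), [3771459, 622097], 0⟩,
  mz,
  mz,
  ⟨⟨33, 32, -28, 2, -15, -46, 36, -12, -11⟩, (.cons (nat_lit 2072221) (nat_lit 1748512) (nat_lit 2280253)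
 (nat_lit 1) (.cons (nat_lit 1688592) (nat_lit 336189) (nat_lit 1329574) (nat_lit 1) .nil)), (nat_lit 21),
 (nat_lit 0), (nat_lit 0), (nat_lit 0), (34, 19, 41), [1883456, 1086484], 0⟩]

/-- Moves. -/
noncomputable def t4_5 : List Mv := [
  mz,
  ⟨⟨3, 44, -20, -2, -15, -44, 36, 12, -25⟩, (.cons (nat_lit 2262291) (nat_lit 2326284) (nat_lit 2235365)
 (nat_lit 1) (.cons (nat_lit 1575600) (nat_lit 1068334) (nat_lit 673923) (nat_lit 1) .nil)), (nat_lit 33),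
 (nat_lit 0), (nat_lit 0), (nat_lit 0), (36, 19, 2), [2691323, 1488068], 0⟩,
  mz,
  mz,
  ⟨⟨19, 36, -36, -20, -13, -30, 34, -8, -35⟩, (.cons (nat_lit 2791757) (nat_lit 1109312) (nat_lit 3580713)
 (nat_lit 1) (.cons (nat_lit 196097) (nat_lit 183861) (nat_lit 699944) (nat_lit 1) .nil)), (nat_lit 18),
 (nat_lit 0), (nat_lit 0), (nat_lit 0), (14, 26, 16), [3239619, 963959], 0⟩,
  ⟨⟨33, -32, -28, 2, 15, -46, 36, 12, -11⟩, (.cons (nat_lit 2245823) (nat_lit 661410) (nat_lit 1464898)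
 (nat_lit 1) (.cons (nat_lit 846620) (nat_lit 110997) (nat_lit 76577) (nat_lit 1) .nil)), (nat_lit 21),
 (nat_lit 0), (nat_lit 0), (nat_lit 0), (19, 22, 9), [4046014, 34610], 0⟩,
  ⟨⟨-37, -24, 0, 20, -37, 0, 2, -8, -43⟩, (.cons (nat_lit 583542) (nat_lit 2307135) (nat_lit 1389079) (nat_lit
 1) (.cons (nat_lit 488677) (nat_lit 898148) (nat_lit 1383164) (nat_lit 1) .nil)), (nat_lit 35), (nat_lit 0),
 (nat_lit 0), (nat_lit 0), (12, 40, 4), [1340647, 361924], 0⟩,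
  ⟨⟨33, 8, -53, -20, -27, -20, 30, -24, -13⟩, (.cons (nat_lit 522512) (nat_lit 2732097) (nat_lit 1263118)
 (nat_lit 1) (.cons (nat_lit 1817134) (nat_lit 58883) (nat_lit 928041) (nat_lit 1) .nil)), (nat_lit 36),
 (nat_lit 0), (nat_lit 0), (nat_lit 0), (32, 21, 33), [2364048, 1035437], 0⟩,
  ⟨⟨37, 24, -37, -20, 37, 20, -2, 8, -41⟩, (.cons (nat_lit 1334954) (nat_lit 3827806) (nat_lit 1545222)
 (nat_lit 1) (.cons (nat_lit 436875) (nat_lit 1517896) (nat_lit 270257) (nat_lit 1) .nil)), (nat_lit 35),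
 (nat_lit 0), (nat_lit 0), (nat_lit 0), (34, 13, 40), [1233093, 1551672], 0⟩,
  ⟨⟨47, 0, -20, 0, 43, 0, 18, 0, -47⟩, (.cons (nat_lit 4826808) (nat_lit 3487469) (nat_lit 971350) (nat_lit 1)
 (.cons (nat_lit 1874160) (nat_lit 1431512) (nat_lit 1768949) (nat_lit 1) .nil)), (nat_lit 9), (nat_lit 0),
 (nat_lit 0), (nat_lit 0), (34, 0, 24), [537400, 44158], 0⟩,
  ⟨⟨21, -20, 31, 38, 15, -34, 12, -36, -13⟩, (.cons (nat_lit 3311930) (nat_lit 1891429) (nat_lit 1234863)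
 (nat_lit 1) (.cons (nat_lit 1577832) (nat_lit 295961) (nat_lit 1566443) (nat_lit 1) .nil)), (nat_lit 38),
 (nat_lit 0), (nat_lit 0), (nat_lit 0), (8, 37, 23), [1072520, 344758], 0⟩,
  mz,
  ⟨⟨-15, 44, 16, -20, -13, 50, -34, 8, -1⟩, (.cons (nat_lit 915111) (nat_lit 3243952) (nat_lit 1860319)
 (nat_lit 1) (.cons (nat_lit 1756402) (nat_lit 1588090) (nat_lit 581845) (nat_lit 1) .nil)), (nat_lit 17),
 (nat_lit 0), (nat_lit 0), (nat_lit 0), (28, 23, 9), [4655324, 1667709], 0⟩,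
  ⟨⟨-3, -32, -37, 20, 27, -40, 30, -24, -17⟩, (.cons (nat_lit 4156590) (nat_lit 165203) (nat_lit 2590873)
 (nat_lit 1) (.cons (nat_lit 244433) (nat_lit 279542) (nat_lit 1813493) (nat_lit 1) .nil)), (nat_lit 30),
 (nat_lit 0), (nat_lit 0), (nat_lit 0), (27, 35, 31), [4533470, 1774156], 0⟩,
  mz,
  mz,
  mz,
  ⟨⟨9, -4, -56, -40, 13, 10, 14, 32, -25⟩, (.cons (nat_lit 4523954) (nat_lit 1432038) (nat_lit 1581236)
 (nat_lit 1) (.cons (nat_lit 1391159) (nat_lit 348193) (nat_lit 87940) (nat_lit 1) .nil)), (nat_lit 39),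
 (nat_lit 0), (nat_lit 0), (nat_lit 0), (19, 35, 20), [546875, 1444921], 0⟩,
  ⟨⟨-5, -36, 36, 40, -13, -30, -14, -32, -11⟩, (.cons (nat_lit 4386722) (nat_lit 674266) (nat_lit 2427374)
 (nat_lit 1) (.cons (nat_lit 1352991) (nat_lit 733762) (nat_lit 1243279) (nat_lit 1) .nil)), (nat_lit 4),
 (nat_lit 0), (nat_lit 0), (nat_lit 0), (11, 41, 5), [1078647, 173834], 0⟩,
  mz,
  mz,
  ⟨⟨-9, 16, -44, -38, 15, 34, 12, 36, -13⟩, (.cons (nat_lit 2170719) (nat_lit 4076168) (nat_lit 2754604)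
 (nat_lit 1) (.cons (nat_lit 750537) (nat_lit 1634420) (nat_lit 669051) (nat_lit 1) .nil)), (nat_lit 42),
 (nat_lit 0), (nat_lit 0), (nat_lit 0), (1, 9, 13), [3646919, 1264598], 0⟩,
  ⟨⟨-21, 20, 52, 38, 15, -4, -12, 36, -1⟩, (.cons (nat_lit 4504957) (nat_lit 4056373) (nat_lit 1973884)
 (nat_lit 1) (.cons (nat_lit 1251504) (nat_lit 1865189) (nat_lit 1) (nat_lit 6771) .nil)), (nat_lit 1),
 (nat_lit 0), (nat_lit 0), (nat_lit 0), (12, 9, 13), [1164453, 1399966], 0⟩,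
  mz,
  mz,
  ⟨⟨9, 4, -56, 40, 13, -10, 14, -32, -25⟩, (.cons (nat_lit 1030286) (nat_lit 4603064) (nat_lit 2061803)
 (nat_lit 1) (.cons (nat_lit 510786) (nat_lit 1080122) (nat_lit 831996) (nat_lit 1) .nil)), (nat_lit 12),
 (nat_lit 0), (nat_lit 0), (nat_lit 0), (37, 2, 5), [661530, 1718402], 0⟩,
  ⟨⟨-9, -4, -47, 40, 13, -30, -14, 32, -11⟩, (.cons (nat_lit 4239886) (nat_lit 1247014) (nat_lit 924090)
 (nat_lit 1) (.cons (nat_lit 675823) (nat_lit 537750) (nat_lit 29139) (nat_lit 1) .nil)), (nat_lit 39),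
 (nat_lit 0), (nat_lit 0), (nat_lit 0), (19, 35, 20), [1139781, 316022], 0⟩,
  mz,
  mz,
  mz,
  ⟨⟨-3, 32, 40, 20, -27, 20, 30, 24, -13⟩, (.cons (nat_lit 1071395) (nat_lit 4403268) (nat_lit 1) (nat_lit
 3755414) (.cons (nat_lit 1874160) (nat_lit 1282888) (nat_lit 984636) (nat_lit 1) .nil)), (nat_lit 30),
 (nat_lit 0), (nat_lit 0), (nat_lit 0), (16, 8, 12), [3712739, 255817], 0⟩,
  ⟨⟨15, 44, 1, 20, -13, 30, 34, 8, -35⟩, (.cons (nat_lit 4608615) (nat_lit 717793) (nat_lit 4033324) (nat_lit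
 1) (.cons (nat_lit 1574955) (nat_lit 1768522) (nat_lit 1860573) (nat_lit 1) .nil)), (nat_lit 17), (nat_lit 0),
 (nat_lit 0), (nat_lit 0), (28, 23, 9), [998932, 694167], 0⟩,
  mz,
  ⟨⟨-21, -20, 52, 38, -15, -4, -12, -36, -1⟩, (.cons (nat_lit 614908) (nat_lit 3166132) (nat_lit 1057937)
 (nat_lit 1) (.cons (nat_lit 509291) (nat_lit 411199) (nat_lit 1556142) (nat_lit 1) .nil)), (nat_lit 1),
 (nat_lit 0), (nat_lit 0), (nat_lit 0), (8, 6, 23), [4372448, 1001390], 0⟩,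
  ⟨⟨-47, 0, 27, 0, -43, 0, -18, 0, -29⟩, (.cons (nat_lit 195787) (nat_lit 1282623) (nat_lit 953007) (nat_lit 1)
 (.cons (nat_lit 471030) (nat_lit 1863091) (nat_lit 659602) (nat_lit 1) .nil)), (nat_lit 9), (nat_lit 0),
 (nat_lit 0), (nat_lit 0), (34, 0, 24), [4045217, 1405791], 0⟩,
  ⟨⟨-37, 24, 0, -20, -37, 0, 2, 8, -43⟩, (.cons (nat_lit 4437309) (nat_lit 2743734) (nat_lit 4422881) (nat_lit
 1) (.cons (nat_lit 1819621) (nat_lit 45863) (nat_lit 910149) (nat_lit 1) .nil)), (nat_lit 6), (nat_lit 0),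
 (nat_lit 0), (nat_lit 0), (34, 30, 40), [4640999, 1403185], 0⟩,
  ⟨⟨-3, 32, -37, -20, 27, 40, 30, 24, -17⟩, (.cons (nat_lit 1051241) (nat_lit 3776893) (nat_lit 4072844)
 (nat_lit 1) (.cons (nat_lit 12850) (nat_lit 514494) (nat_lit 1833754) (nat_lit 1) .nil)), (nat_lit 7),
 (nat_lit 0), (nat_lit 0), (nat_lit 0), (42, 22, 10), [2379123, 826586], 0⟩,
  ⟨⟨-39, 16, -4, 20, 37, -20, -2, -8, -41⟩, (.cons (nat_lit 4826808) (nat_lit 2367452) (nat_lit 4001041)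
 (nat_lit 1) (.cons (nat_lit 1874160) (nat_lit 1764313) (nat_lit 405930) (nat_lit 1) .nil)), (nat_lit 37),
 (nat_lit 0), (nat_lit 0), (nat_lit 0), (35, 3, 4), [1002311, 1595529], 0⟩,
  ⟨⟨3, -44, -20, -2, 15, -44, 36, -12, -25⟩, (.cons (nat_lit 1144590) (nat_lit 968320) (nat_lit 4476700)
 (nat_lit 1) (.cons (nat_lit 1789460) (nat_lit 1084973) (nat_lit 369791) (nat_lit 1) .nil)), (nat_lit 33),
 (nat_lit 0), (nat_lit 0), (nat_lit 0), (10, 22, 34), [688444, 1476127], 0⟩,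
  ⟨⟨-19, 36, -17, -20, 13, 50, -34, -8, -1⟩, (.cons (nat_lit 861719) (nat_lit 2350177) (nat_lit 1730874)
 (nat_lit 1) (.cons (nat_lit 954672) (nat_lit 935603) (nat_lit 1858476) (nat_lit 1) .nil)), (nat_lit 26),
 (nat_lit 0), (nat_lit 0), (nat_lit 0), (14, 17, 16), [93346, 571337], 0⟩,
  mz,
  mz,
  ⟨⟨33, 32, -28, 2, -15, -46, 36, -12, -11⟩, (.cons (nat_lit 2072221) (nat_lit 1748512) (nat_lit 2280253)
 (nat_lit 1) (.cons (nat_lit 1688592) (nat_lit 336189) (nat_lit 1329574) (nat_lit 1) .nil)), (nat_lit 21),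
 (nat_lit 0), (nat_lit 0), (nat_lit 0), (34, 19, 41), [1883456, 1086484], 0⟩]

/-- All the moves. -/
noncomputable def tabs : List (List (List Mv)) := [[[], [], t0_2, [], t0_4, t0_5], [[], [], t1_2, [], t1_4, t1_5], [], [], [[], [], t4_2, [], t4_4, t4_5]]

/-- Subtrie. -/
noncomputable def T2 : Tr := (.ev (nat_lit 20) (nat_lit 695856010480) (.nd (nat_lit 33) (.br (nat_lit 19) (.br
 (nat_lit 11) (.br (nat_lit 7) (.br (nat_lit 4) (.ch (nat_lit 1) (.ev (nat_lit 52) (nat_lit 18253873408) (.ev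
 (nat_lit 180) (nat_lit 2) (.ev (nat_lit 468) (nat_lit 4398046511104) (.nd (nat_lit 832) (.br (nat_lit 5) (.br
 (nat_lit 1) (.ch (nat_lit 0) (.ev (nat_lit 848) (nat_lit 377992905216) (.ev (nat_lit 868) (nat_lit 8192) (.ev
 (nat_lit 877) (nat_lit 2147483648) .dd)))) (.br (nat_lit 4) (.ch (nat_lit 1) (.ev (nat_lit 848) (nat_lit
 380138291200) (.ev (nat_lit 1220) (nat_lit 2097152) (.ev (nat_lit 1700) (nat_lit 512) (.ev (nat_lit 1709)
 (nat_lit 8192) .dd))))) (.ch (nat_lit 4) (.ev (nat_lit 848) (nat_lit 343633043968) (.ev (nat_lit 1700)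
 (nat_lit 34359738368) (.ev (nat_lit 2340) (nat_lit 2147483648) (.ev (nat_lit 2349) (nat_lit 131072) .dd)))))))
 (.br (nat_lit 9) (.br (nat_lit 6) (.ch (nat_lit 5) (.ev (nat_lit 848) (nat_lit 277025391104) (.ev (nat_lit
 868) (nat_lit 2097152) (.ev (nat_lit 2516) (nat_lit 139264) (.ev (nat_lit 2868) (nat_lit 68719476736) (.ev
 (nat_lit 2948) (nat_lit 34359738368) (.ev (nat_lit 2957) (nat_lit 33554432) .dd))))))) (.ch (nat_lit 6) (.ev
 (nat_lit 848) (nat_lit 2183274496) (.ev (nat_lit 1424) (nat_lit 34359738368) (.ev (nat_lit 1568) (nat_lit 512)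
 (.ev (nat_lit 3158) (nat_lit 343597383680) .dd)))))) (.br (nat_lit 12) (.ch (nat_lit 9) (.ev (nat_lit 848)
 (nat_lit 105226838016) (.ev (nat_lit 3088) (nat_lit 2097152) (.ev (nat_lit 3108) (nat_lit 512) (.fin (nat_lit
 576474496186663492)))))) (.ch (nat_lit 12) (.ev (nat_lit 848) (nat_lit 380140265984) (.ev (nat_lit 861)
 (nat_lit 131072) .dd))))))))))) (.br (nat_lit 5) (.ch (nat_lit 4) (.ev (nat_lit 52) (nat_lit 1074012928) (.ev
 (nat_lit 116) (nat_lit 274877906944) (.ev (nat_lit 148) (nat_lit 2097152) (.nd (nat_lit 832) (.br (nat_lit 6)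
 (.br (nat_lit 4) (.ch (nat_lit 2) (.ev (nat_lit 848) (nat_lit 4449619673090) (.ev (nat_lit 996) (nat_lit
 131072) (.ev (nat_lit 1808) (nat_lit 2147483648) (.ev (nat_lit 1821) (nat_lit 68719476736) .dd))))) (.ch
 (nat_lit 4) (.ev (nat_lit 848) (nat_lit 4466799542274) (.ev (nat_lit 1924) (nat_lit 131072) (.ev (nat_lit
 2212) (nat_lit 2147483648) (.ev (nat_lit 2400) (nat_lit 34359738368) (.ev (nat_lit 2413) (nat_lit 17179869184)
 .dd))))))) (.br (nat_lit 9) (.ch (nat_lit 6) (.ev (nat_lit 848) (nat_lit 4468947156992) (.ev (nat_lit 1952)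
 (nat_lit 17179869184) (.ev (nat_lit 2528) (nat_lit 34359738368) (.ev (nat_lit 2541) (nat_lit 2) .dd))))) (.br
 (nat_lit 12) (.ch (nat_lit 9) (.ev (nat_lit 848) (nat_lit 105226829826) (.ev (nat_lit 2308) (nat_lit
 4398046511104) (.ev (nat_lit 2640) (nat_lit 17179869184) (.ev (nat_lit 2653) (nat_lit 33554432) .dd))))) (.ch
 (nat_lit 12) (.ev (nat_lit 848) (nat_lit 122406567938) (.ev (nat_lit 1952) (nat_lit 131072) (.ev (nat_lit
 2628) (nat_lit 33554432) (.ev (nat_lit 2637) (nat_lit 4398046511104) .dd))))))))))))) (.ch (nat_lit 5) (.ev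
 (nat_lit 52) (nat_lit 4504346952192) (.ev (nat_lit 384) (nat_lit 292093829378) .dd))))) (.br (nat_lit 8) (.ch
 (nat_lit 7) (.ev (nat_lit 52) (nat_lit 275953746434) (.ev (nat_lit 288) (nat_lit 4520487035136) .dd))) (.br
 (nat_lit 10) (.ch (nat_lit 8) (.ev (nat_lit 52) (nat_lit 34362228736) (.ev (nat_lit 308) (nat_lit 68719476736)
 (.ev (nat_lit 708) (nat_lit 8192) (.nd (nat_lit 832) (.br (nat_lit 4) (.br (nat_lit 1) (.ch (nat_lit 0) (.ev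
 (nat_lit 848) (nat_lit 4676145644290) (.ev (nat_lit 900) (nat_lit 33554432) (.ev (nat_lit 909) (nat_lit
 17179869184) .dd)))) (.br (nat_lit 2) (.ch (nat_lit 1) (.ev (nat_lit 848) (nat_lit 4675105456640) (.ev
 (nat_lit 868) (nat_lit 256) (.ev (nat_lit 2676) (nat_lit 17179869184) (.ev (nat_lit 2820) (nat_lit 1073741824)
 (.ev (nat_lit 2829) (nat_lit 2) .dd)))))) (.ch (nat_lit 2) (.ev (nat_lit 848) (nat_lit 295312556546) (.ev
 (nat_lit 1558) (nat_lit 256) (.ev (nat_lit 1565) (nat_lit 4398046511104) .dd)))))) (.br (nat_lit 10) (.br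
 (nat_lit 5) (.ch (nat_lit 4) (.ev (nat_lit 848) (nat_lit 4672957972994) (.ev (nat_lit 1664) (nat_lit
 2147483648) (.ev (nat_lit 1732) (nat_lit 17179869184) (.ev (nat_lit 2020) (nat_lit 256) (.ev (nat_lit 2029)
 (nat_lit 1073741824) .dd)))))) (.ch (nat_lit 5) (.ev (nat_lit 848) (nat_lit 4674031715074) (.ev (nat_lit 2256)
 (nat_lit 2147483648) (.ev (nat_lit 2269) (nat_lit 17179869184) .dd))))) (.br (nat_lit 12) (.ch (nat_lit 10)
 (.ev (nat_lit 848) (nat_lit 4399153807362) (.ev (nat_lit 916) (nat_lit 256) (.ev (nat_lit 1408) (nat_lit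
 274877906944) (.ev (nat_lit 3236) (nat_lit 17179869184) (.nd (nat_lit 3760) (.br (nat_lit 3) (.ch (nat_lit 2)
 (.fin (nat_lit 576465700104127060))) (.br (nat_lit 12) (.ch (nat_lit 3) (.ev (nat_lit 3776) (nat_lit
 2147484160) .dd)) (.ch (nat_lit 12) (.ev (nat_lit 3776) (nat_lit 2147484160) .dd)))))))))) (.ch (nat_lit 12)
 (.ev (nat_lit 848) (nat_lit 4692251771392) (.ev (nat_lit 948) (nat_lit 2) (.ev (nat_lit 1700) (nat_lit
 1073741824) (.ev (nat_lit 2560) (nat_lit 33554432) (.ev (nat_lit 2573) (nat_lit 256) .dd)))))))))))))) (.ch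
 (nat_lit 10) (.ev (nat_lit 52) (nat_lit 309237645826) (.ev (nat_lit 256) (nat_lit 4487203135744) .dd))))))
 (.br (nat_lit 15) (.br (nat_lit 12) (.ch (nat_lit 11) (.ev (nat_lit 52) (nat_lit 4415228477440) (.ev (nat_lit
 148) (nat_lit 1073741824) (.ev (nat_lit 500) (nat_lit 262144) (.ev (nat_lit 532) (nat_lit 33554432) (.nd
 (nat_lit 832) (.br (nat_lit 4) (.br (nat_lit 1) (.ch (nat_lit 0) (.ev (nat_lit 848) (nat_lit 345744998658)
 (.ev (nat_lit 1392) (nat_lit 512) (.fin (nat_lit 576482192792175128))))) (.br (nat_lit 2) (.ch (nat_lit 1)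
 (.ev (nat_lit 848) (nat_lit 311385260544) (.ev (nat_lit 3188) (nat_lit 68719476736) (.ev (nat_lit 3408)
 (nat_lit 2) (.nd (nat_lit 3872) (.br (nat_lit 10) (.ch (nat_lit 8) (.ev (nat_lit 3888) (nat_lit 8448) .dd))
 (.ch (nat_lit 10) (.nd (nat_lit 4193) (.br (nat_lit 24) (.ch (nat_lit 16) (.nd (nat_lit 4464) (.br (nat_lit 6)
 (.ch (nat_lit 5) (.ev (nat_lit 4480) (nat_lit 8192) (.ev (nat_lit 4493) (nat_lit 256) .dd))) (.ch (nat_lit 6)
 (.fin (nat_lit 576443709869474375)))))) (.ch (nat_lit 24) (.ev (nat_lit 4209) (nat_lit 256) (.ev (nat_lit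
 4221) (nat_lit 8192) .dd)))))))))))) (.ch (nat_lit 2) (.ev (nat_lit 848) (nat_lit 2147615490) (.ev (nat_lit
 1700) (nat_lit 34359738368) (.ev (nat_lit 2854) (nat_lit 343597391872) .dd)))))) (.br (nat_lit 5) (.ch
 (nat_lit 4) (.ev (nat_lit 848) (nat_lit 343597392642) (.ev (nat_lit 1652) (nat_lit 34359738368) (.ev (nat_lit
 2592) (nat_lit 2147614720) .dd)))) (.br (nat_lit 10) (.ch (nat_lit 5) (.ev (nat_lit 848) (nat_lit
 345744876034) (.ev (nat_lit 1652) (nat_lit 34359738368) (.ev (nat_lit 2884) (nat_lit 256) (.ev (nat_lit 2893)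
 (nat_lit 131072) .dd))))) (.ch (nat_lit 10) (.ev (nat_lit 848) (nat_lit 103079223808) (.ev (nat_lit 2640)
 (nat_lit 2147483648) (.ev (nat_lit 2772) (nat_lit 274877906944) (.ev (nat_lit 3264) (nat_lit 256) (.fin
 (nat_lit 576474496213926468)))))))))))))))) (.br (nat_lit 13) (.ch (nat_lit 12) (.ev (nat_lit 52) (nat_lit
 4690104688642) (.ev (nat_lit 180) (nat_lit 2097152) (.ev (nat_lit 512) (nat_lit 106333995776) .dd)))) (.ch
 (nat_lit 13) (.ev (nat_lit 52) (nat_lit 275987431938) (.ev (nat_lit 372) (nat_lit 34359738368) (.ev (nat_lit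
 404) (nat_lit 2147483648) (.nd (nat_lit 832) (.br (nat_lit 6) (.br (nat_lit 4) (.br (nat_lit 1) (.ch (nat_lit
 0) (.ev (nat_lit 848) (nat_lit 4483946119424) (.ev (nat_lit 861) (nat_lit 8192) .dd))) (.ch (nat_lit 1) (.ev
 (nat_lit 848) (nat_lit 262144) (.ev (nat_lit 868) (nat_lit 8192) (.ev (nat_lit 2528) (nat_lit 17179869184)
 (.ev (nat_lit 3284) (nat_lit 68719476736) (.nd (nat_lit 3936) (.br (nat_lit 8) (.ch (nat_lit 3) (.ev (nat_lit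
 3952) (nat_lit 4398046511360) .dd)) (.ch (nat_lit 8) (.fin (nat_lit 576416222096605767))))))))))) (.br
 (nat_lit 5) (.ch (nat_lit 4) (.ev (nat_lit 848) (nat_lit 68719485184) (.ev (nat_lit 1748) (nat_lit 262144)
 (.ev (nat_lit 2000) (nat_lit 17179869184) (.ev (nat_lit 2013) (nat_lit 4398046511104) .dd))))) (.ch (nat_lit
 5) (.ev (nat_lit 848) (nat_lit 4415226642688) (.ev (nat_lit 1664) (nat_lit 68719476736) (.ev (nat_lit 1677)
 (nat_lit 8192) .dd)))))) (.br (nat_lit 10) (.br (nat_lit 9) (.ch (nat_lit 6) (.ev (nat_lit 848) (nat_lit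
 4466765996288) (.ev (nat_lit 2436) (nat_lit 17179869184) (.ev (nat_lit 2445) (nat_lit 262144) .dd)))) (.ch
 (nat_lit 9) (.ev (nat_lit 848) (nat_lit 4483946127616) .dd))) (.br (nat_lit 12) (.ch (nat_lit 10) (.ev
 (nat_lit 848) (nat_lit 4483946127616) .dd)) (.ch (nat_lit 12) (.ev (nat_lit 848) (nat_lit 4483945865216) (.ev
 (nat_lit 1504) (nat_lit 256) (.ev (nat_lit 1517) (nat_lit 262144) .dd)))))))))))))) (.br (nat_lit 17) (.br
 (nat_lit 16) (.ch (nat_lit 15) (.ev (nat_lit 52) (nat_lit 68755267584) (.ev (nat_lit 84) (nat_lit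
 4398046511104) (.ev (nat_lit 372) (nat_lit 1073741824) (.ev (nat_lit 596) (nat_lit 262144) (.nd (nat_lit 832)
 (.br (nat_lit 9) (.br (nat_lit 5) (.ch (nat_lit 1) (.ev (nat_lit 848) (nat_lit 311385128962) (.ev (nat_lit
 2694) (nat_lit 17179869952) .dd))) (.br (nat_lit 6) (.ch (nat_lit 5) (.ev (nat_lit 848) (nat_lit 274877907458)
 (.ev (nat_lit 1076) (nat_lit 256) (.ev (nat_lit 1700) (nat_lit 34359738368) (.ev (nat_lit 2964) (nat_lit
 2147483648) (.ev (nat_lit 2973) (nat_lit 17179869184) .dd)))))) (.ch (nat_lit 6) (.ev (nat_lit 848) (nat_lit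
 19327353602) (.ev (nat_lit 3318) (nat_lit 309237645312) .dd))))) (.br (nat_lit 10) (.ch (nat_lit 9) (.ev
 (nat_lit 848) (nat_lit 328564998144) (.ev (nat_lit 868) (nat_lit 256) (.ev (nat_lit 2592) (nat_lit 514)
 .dd)))) (.br (nat_lit 12) (.ch (nat_lit 10) (.ev (nat_lit 848) (nat_lit 34359738624) (.ev (nat_lit 1712)
 (nat_lit 274877906944) (.ev (nat_lit 2192) (nat_lit 2) (.ev (nat_lit 3510) (nat_lit 17179869184) (.nd (nat_lit
 4096) (.br (nat_lit 12) (.ch (nat_lit 2) (.fin (nat_lit 576456904017396268))) (.ch (nat_lit 12) (.ev (nat_lit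
 4112) (nat_lit 2147484160) .dd))))))))) (.ch (nat_lit 12) (.ev (nat_lit 848) (nat_lit 328564998658) (.ev
 (nat_lit 861) (nat_lit 256) .dd)))))))))))) (.ch (nat_lit 16) (.ev (nat_lit 52) (nat_lit 85899485442) (.ev
 (nat_lit 116) (nat_lit 2097152) (.ev (nat_lit 180) (nat_lit 4398046511104) (.ev (nat_lit 308) (nat_lit
 33554432) (.ev (nat_lit 468) (nat_lit 512) (.ev (nat_lit 564) (nat_lit 2147483648) (.nd (nat_lit 832) (.br
 (nat_lit 2) (.br (nat_lit 1) (.ch (nat_lit 0) (.ev (nat_lit 848) (nat_lit 275951910912) (.ev (nat_lit 861)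
 (nat_lit 34359738368) .dd))) (.ch (nat_lit 1) (.ev (nat_lit 848) (nat_lit 309237907456) (.ev (nat_lit 861)
 (nat_lit 1073741824) .dd)))) (.br (nat_lit 5) (.ch (nat_lit 2) (.ev (nat_lit 848) (nat_lit 1073741824) (.ev
 (nat_lit 948) (nat_lit 34359738368) (.ev (nat_lit 2516) (nat_lit 274877906944) (.ev (nat_lit 2525) (nat_lit
 262144) .dd))))) (.br (nat_lit 10) (.ch (nat_lit 5) (.ev (nat_lit 848) (nat_lit 274877906944) (.ev (nat_lit
 1936) (nat_lit 1073741824) (.ev (nat_lit 2560) (nat_lit 34360000512) .dd)))) (.ch (nat_lit 10) (.ev (nat_lit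
 848) (nat_lit 310311649280) .dd)))))))))))))) (.br (nat_lit 18) (.ch (nat_lit 17) (.ev (nat_lit 52) (nat_lit
 4758824165376) (.ev (nat_lit 180) (nat_lit 512) (.ev (nat_lit 340) (nat_lit 34359738368) (.ev (nat_lit 372)
 (nat_lit 2) (.ev (nat_lit 708) (nat_lit 256) (.nd (nat_lit 832) (.br (nat_lit 4) (.br (nat_lit 2) (.ch
 (nat_lit 1) (.ev (nat_lit 848) (nat_lit 2149580800) (.ev (nat_lit 884) (nat_lit 33554432) (.ev (nat_lit 893)
 (nat_lit 1073741824) .dd)))) (.ch (nat_lit 2) (.ev (nat_lit 848) (nat_lit 1107296256) (.ev (nat_lit 884)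
 (nat_lit 2097152) (.ev (nat_lit 893) (nat_lit 2147483648) .dd))))) (.br (nat_lit 12) (.ch (nat_lit 4) (.ev
 (nat_lit 848) (nat_lit 1107296256) (.ev (nat_lit 2528) (nat_lit 2147483648) (.ev (nat_lit 2541) (nat_lit
 2097152) .dd)))) (.ch (nat_lit 12) (.ev (nat_lit 848) (nat_lit 2149580800) (.ev (nat_lit 2320) (nat_lit
 33554432) (.ev (nat_lit 2333) (nat_lit 1073741824) .dd))))))))))))) (.ch (nat_lit 18) (.ev (nat_lit 52)
 (nat_lit 360811069698) (.ev (nat_lit 116) (nat_lit 4398046511104) (.ev (nat_lit 212) (nat_lit 2147483648) (.ev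
 (nat_lit 340) (nat_lit 512) (.nd (nat_lit 832) (.br (nat_lit 5) (.br (nat_lit 2) (.ch (nat_lit 0) (.ev
 (nat_lit 848) (nat_lit 35433619456) (.ev (nat_lit 861) (nat_lit 2097152) .dd))) (.br (nat_lit 4) (.ch (nat_lit
 2) (.ev (nat_lit 848) (nat_lit 35433611264) (.ev (nat_lit 1444) (nat_lit 8192) (.ev (nat_lit 1453) (nat_lit
 2097152) .dd)))) (.ch (nat_lit 4) (.ev (nat_lit 848) (nat_lit 34361843712) (.ev (nat_lit 2464) (nat_lit
 1073872896) .dd))))) (.br (nat_lit 9) (.br (nat_lit 6) (.ch (nat_lit 5) (.ev (nat_lit 848) (nat_lit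
 35433488384) (.ev (nat_lit 900) (nat_lit 131072) (.ev (nat_lit 909) (nat_lit 2097152) .dd)))) (.ch (nat_lit 6)
 (.ev (nat_lit 848) (nat_lit 1073881088) (.ev (nat_lit 2436) (nat_lit 34359738368) (.ev (nat_lit 2445) (nat_lit
 2097152) .dd))))) (.br (nat_lit 12) (.ch (nat_lit 9) (.ev (nat_lit 848) (nat_lit 34359877632) (.ev (nat_lit
 2356) (nat_lit 2097152) (.ev (nat_lit 2365) (nat_lit 1073741824) .dd)))) (.ch (nat_lit 12) (.ev (nat_lit 848)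
 (nat_lit 35435716608) .dd))))))))))))))) (.br (nat_lit 26) (.br (nat_lit 22) (.br (nat_lit 20) (.ch (nat_lit
 19) (.ev (nat_lit 52) (nat_lit 4710541427202) (.ev (nat_lit 244) (nat_lit 68719476736) (.ev (nat_lit 404)
 (nat_lit 17179869184) (.ev (nat_lit 628) (nat_lit 8192) (.ev (nat_lit 637) (nat_lit 256) .dd)))))) (.br
 (nat_lit 21) (.ch (nat_lit 20) (.ev (nat_lit 52) (nat_lit 4399153938946) (.ev (nat_lit 180) (nat_lit
 274877906944) (.ev (nat_lit 340) (nat_lit 2097152) (.ev (nat_lit 532) (nat_lit 2147483648) (.nd (nat_lit 832)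
 (.br (nat_lit 5) (.br (nat_lit 2) (.ch (nat_lit 0) (.ev (nat_lit 848) (nat_lit 68719739136) (.ev (nat_lit
 3494) (nat_lit 17179869184) (.nd (nat_lit 4080) (.ch (nat_lit 4) (.nd (nat_lit 4369) (.br (nat_lit 5) (.ch
 (nat_lit 3) (.nd (nat_lit 4592) (.br (nat_lit 3) (.ch (nat_lit 1) (.fin (nat_lit 576482192792175128))) (.ch
 (nat_lit 3) (.ev (nat_lit 4608) (nat_lit 34359738368) (.ev (nat_lit 4621) (nat_lit 8192) .dd)))))) (.br
 (nat_lit 8) (.ch (nat_lit 5) (.ev (nat_lit 4385) (nat_lit 34359746560) .dd)) (.ch (nat_lit 8) (.ev (nat_lit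
 4385) (nat_lit 34359746560) .dd)))))))))) (.ch (nat_lit 2) (.ev (nat_lit 848) (nat_lit 120259092480) (.ev
 (nat_lit 884) (nat_lit 256) (.ev (nat_lit 893) (nat_lit 262144) .dd))))) (.br (nat_lit 9) (.ch (nat_lit 5)
 (.ev (nat_lit 848) (nat_lit 34359738368) (.ev (nat_lit 1732) (nat_lit 256) (.ev (nat_lit 1860) (nat_lit
 68719476736) (.ev (nat_lit 1924) (nat_lit 262144) (.ev (nat_lit 2980) (nat_lit 17179869184) (.ev (nat_lit
 2989) (nat_lit 8192) .dd))))))) (.ch (nat_lit 9) (.ev (nat_lit 848) (nat_lit 103079477504) (.ev (nat_lit 2708)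
 (nat_lit 17179869184) (.ev (nat_lit 2717) (nat_lit 8192) .dd)))))))))))) (.ch (nat_lit 21) (.ev (nat_lit 52)
 (nat_lit 3223584768) (.ev (nat_lit 116) (nat_lit 34359738368) (.ev (nat_lit 532) (nat_lit 68719476736) (.nd
 (nat_lit 832) (.br (nat_lit 6) (.br (nat_lit 1) (.ch (nat_lit 0) (.ev (nat_lit 848) (nat_lit 4672924549890)
 (.ev (nat_lit 1860) (nat_lit 33554432) (.ev (nat_lit 3220) (nat_lit 8192) (.ev (nat_lit 3229) (nat_lit
 17179869184) .dd))))) (.br (nat_lit 5) (.ch (nat_lit 1) (.ev (nat_lit 848) (nat_lit 292091462144) (.ev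
 (nat_lit 2256) (nat_lit 2) (.nd (nat_lit 3568) (.br (nat_lit 10) (.ch (nat_lit 8) (.ev (nat_lit 3584) (nat_lit
 8192) (.fin (nat_lit 576416222096605767)))) (.ch (nat_lit 10) (.ev (nat_lit 3584) (nat_lit 4398046511104)
 (.fin (nat_lit 576478894252048953))))))))) (.ch (nat_lit 5) (.ev (nat_lit 848) (nat_lit 4672958104066) (.ev
 (nat_lit 868) (nat_lit 8192) (.ev (nat_lit 2276) (nat_lit 17179869184) (.ev (nat_lit 2285) (nat_lit 256)
 .dd))))))) (.br (nat_lit 10) (.br (nat_lit 9) (.ch (nat_lit 6) (.ev (nat_lit 848) (nat_lit 4672958112002) (.ev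
 (nat_lit 1700) (nat_lit 512) (.ev (nat_lit 1709) (nat_lit 17179869184) .dd)))) (.ch (nat_lit 9) (.ev (nat_lit
 848) (nat_lit 274911601152) (.ev (nat_lit 868) (nat_lit 256) (.ev (nat_lit 1652) (nat_lit 2) (.ev (nat_lit
 2640) (nat_lit 4398046511104) (.ev (nat_lit 2653) (nat_lit 17179869184) .dd))))))) (.br (nat_lit 12) (.ch
 (nat_lit 10) (.ev (nat_lit 848) (nat_lit 4398080074240) (.ev (nat_lit 916) (nat_lit 17179869184) (.ev (nat_lit
 3120) (nat_lit 274877906944) (.ev (nat_lit 3168) (nat_lit 256) (.fin (nat_lit 576448107907596860))))))) (.ch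
 (nat_lit 12) (.ev (nat_lit 848) (nat_lit 4690104427010) (.ev (nat_lit 2182) (nat_lit 33554688)
 .dd))))))))))))) (.br (nat_lit 24) (.ch (nat_lit 22) (.ev (nat_lit 52) (nat_lit 4486127165698) (.ev (nat_lit
 84) (nat_lit 131072) (.ev (nat_lit 116) (nat_lit 512) (.ev (nat_lit 340) (nat_lit 1073741824) (.ev (nat_lit
 372) (nat_lit 2097152) (.ev (nat_lit 468) (nat_lit 34359738368) (.ev (nat_lit 477) (nat_lit 274877906944)
 .dd)))))))) (.br (nat_lit 25) (.ch (nat_lit 24) (.ev (nat_lit 52) (nat_lit 35435839744) (.ev (nat_lit 148)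
 (nat_lit 2) (.ev (nat_lit 244) (nat_lit 17179869184) (.ev (nat_lit 276) (nat_lit 2147483648) (.nd (nat_lit
 832) (.br (nat_lit 6) (.br (nat_lit 4) (.ch (nat_lit 2) (.ev (nat_lit 848) (nat_lit 33563136) (.ev (nat_lit
 1700) (nat_lit 68719476736) (.ev (nat_lit 2036) (nat_lit 131072) (.ev (nat_lit 2772) (nat_lit 274877906944)
 (.ev (nat_lit 2781) (nat_lit 4398046511104) .dd)))))) (.br (nat_lit 5) (.ch (nat_lit 4) (.ev (nat_lit 848)
 (nat_lit 4741677457920) (.ev (nat_lit 861) (nat_lit 131072) .dd))) (.ch (nat_lit 5) (.ev (nat_lit 848)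
 (nat_lit 4741643895296) (.ev (nat_lit 868) (nat_lit 131072) (.ev (nat_lit 2276) (nat_lit 33554432) (.ev
 (nat_lit 2285) (nat_lit 8192) .dd))))))) (.br (nat_lit 9) (.ch (nat_lit 6) (.ev (nat_lit 848) (nat_lit
 4672958111744) (.ev (nat_lit 3254) (nat_lit 68719477248) .dd))) (.br (nat_lit 12) (.ch (nat_lit 9) (.ev
 (nat_lit 848) (nat_lit 68719607808) (.ev (nat_lit 1712) (nat_lit 512) (.ev (nat_lit 2480) (nat_lit 8192) (.ev
 (nat_lit 3526) (nat_lit 4398046511104) (.nd (nat_lit 4128) (.br (nat_lit 10) (.ch (nat_lit 9) (.fin (nat_lit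
 576448107934859836))) (.ch (nat_lit 10) (.ev (nat_lit 4144) (nat_lit 274911461376) .dd))))))))) (.ch (nat_lit
 12) (.ev (nat_lit 848) (nat_lit 343597392384) (.ev (nat_lit 1632) (nat_lit 33554432) (.ev (nat_lit 2628)
 (nat_lit 4398046511104) (.ev (nat_lit 2637) (nat_lit 131072) .dd)))))))))))))) (.ch (nat_lit 25) (.ev (nat_lit
 52) (nat_lit 4486093340928) (.ev (nat_lit 84) (nat_lit 512) (.ev (nat_lit 116) (nat_lit 2) (.ev (nat_lit 148)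
 (nat_lit 309237645312) (.ev (nat_lit 276) (nat_lit 33554432) (.ev (nat_lit 628) (nat_lit 262144) (.nd (nat_lit
 832) (.br (nat_lit 5) (.br (nat_lit 2) (.br (nat_lit 1) (.ch (nat_lit 0) (.ev (nat_lit 848) (nat_lit
 1073881088) (.ev (nat_lit 861) (nat_lit 2097152) .dd))) (.ch (nat_lit 1) (.ev (nat_lit 848) (nat_lit 2236416)
 (.ev (nat_lit 861) (nat_lit 1073741824) .dd)))) (.br (nat_lit 4) (.ch (nat_lit 2) (.ev (nat_lit 848) (nat_lit
 1073872896) (.ev (nat_lit 1456) (nat_lit 2097152) (.ev (nat_lit 1469) (nat_lit 8192) .dd)))) (.ch (nat_lit 4)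
 (.ev (nat_lit 848) (nat_lit 1075978240) .dd)))) (.br (nat_lit 10) (.br (nat_lit 9) (.ch (nat_lit 5) (.ev
 (nat_lit 848) (nat_lit 8192) (.ev (nat_lit 868) (nat_lit 131072) (.ev (nat_lit 1652) (nat_lit 1073741824) (.ev
 (nat_lit 1661) (nat_lit 2097152) .dd))))) (.ch (nat_lit 9) (.ev (nat_lit 848) (nat_lit 131072) (.ev (nat_lit
 868) (nat_lit 8192) (.ev (nat_lit 1238) (nat_lit 1073741824) (.ev (nat_lit 1245) (nat_lit 2097152) .dd))))))
 (.br (nat_lit 12) (.ch (nat_lit 10) (.ev (nat_lit 848) (nat_lit 1075978240) .dd)) (.ch (nat_lit 12) (.ev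
 (nat_lit 848) (nat_lit 2105344) (.ev (nat_lit 1600) (nat_lit 1073741824) (.ev (nat_lit 1613) (nat_lit 131072)
 .dd)))))))))))))))))) (.br (nat_lit 30) (.br (nat_lit 27) (.ch (nat_lit 26) (.ev (nat_lit 52) (nat_lit
 309271208448) (.ev (nat_lit 180) (nat_lit 131072) (.ev (nat_lit 276) (nat_lit 68719476736) (.ev (nat_lit 308)
 (nat_lit 19327352832) (.ev (nat_lit 676) (nat_lit 262144) (.nd (nat_lit 832) (.br (nat_lit 5) (.br (nat_lit 2)
 (.br (nat_lit 1) (.ch (nat_lit 0) (.ev (nat_lit 848) (nat_lit 4399122350338) .dd)) (.ch (nat_lit 1) (.ev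
 (nat_lit 1204) (nat_lit 2) (.ev (nat_lit 1700) (nat_lit 256) (.ev (nat_lit 2000) (nat_lit 2097152) (.ev
 (nat_lit 2628) (nat_lit 4398046511104) (.ev (nat_lit 2637) (nat_lit 1073741824) .dd))))))) (.br (nat_lit 4)
 (.ch (nat_lit 2) (.ev (nat_lit 848) (nat_lit 1075838978) (.ev (nat_lit 1700) (nat_lit 256) (.ev (nat_lit 1709)
 (nat_lit 4398046511104) .dd)))) (.ch (nat_lit 4) (.ev (nat_lit 848) (nat_lit 4399120252930) (.ev (nat_lit
 2436) (nat_lit 2097152) (.ev (nat_lit 2445) (nat_lit 256) .dd)))))) (.br (nat_lit 9) (.br (nat_lit 6) (.ch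
 (nat_lit 5) (.ev (nat_lit 848) (nat_lit 4398048608514) (.ev (nat_lit 861) (nat_lit 1073741824) .dd))) (.ch
 (nat_lit 6) (.ev (nat_lit 848) (nat_lit 4399120253184) (.ev (nat_lit 1872) (nat_lit 2097152) (.ev (nat_lit
 1885) (nat_lit 2) .dd))))) (.br (nat_lit 12) (.ch (nat_lit 9) (.ev (nat_lit 848) (nat_lit 4399122350338) .dd))
 (.ch (nat_lit 12) (.ev (nat_lit 848) (nat_lit 4398048608256) (.ev (nat_lit 868) (nat_lit 256) (.ev (nat_lit
 996) (nat_lit 2) (.ev (nat_lit 1005) (nat_lit 1073741824) .dd))))))))))))))) (.br (nat_lit 29) (.ch (nat_lit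
 27) (.ev (nat_lit 52) (nat_lit 70867091970) (.ev (nat_lit 84) (nat_lit 1073741824) (.ev (nat_lit 276) (nat_lit
 17179869184) (.ev (nat_lit 544) (nat_lit 4707320078592) .dd))))) (.ch (nat_lit 29) (.ev (nat_lit 52) (nat_lit
 2183135488) (.ev (nat_lit 224) (nat_lit 4794257646082) .dd))))) (.br (nat_lit 35) (.br (nat_lit 33) (.ch
 (nat_lit 30) (.ev (nat_lit 52) (nat_lit 4709465588224) (.ev (nat_lit 212) (nat_lit 68719476736) (.ev (nat_lit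
 436) (nat_lit 17179869184) (.ev (nat_lit 596) (nat_lit 8192) (.nd (nat_lit 832) (.br (nat_lit 4) (.br (nat_lit
 1) (.ch (nat_lit 0) (.ev (nat_lit 848) (nat_lit 1075839234) .dd)) (.ch (nat_lit 1) (.ev (nat_lit 848) (nat_lit
 1073741824) (.ev (nat_lit 1108) (nat_lit 256) (.ev (nat_lit 1156) (nat_lit 2) (.ev (nat_lit 1165) (nat_lit
 2097152) .dd)))))) (.br (nat_lit 9) (.ch (nat_lit 4) (.ev (nat_lit 848) (nat_lit 258) (.ev (nat_lit 1312)
 (nat_lit 1073741824) (.ev (nat_lit 1325) (nat_lit 2097152) .dd)))) (.br (nat_lit 12) (.ch (nat_lit 9) (.ev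
 (nat_lit 848) (nat_lit 258) (.ev (nat_lit 1600) (nat_lit 1073741824) (.ev (nat_lit 1613) (nat_lit 2097152)
 .dd)))) (.ch (nat_lit 12) (.ev (nat_lit 848) (nat_lit 2097152) (.ev (nat_lit 1700) (nat_lit 1073741824) (.ev
 (nat_lit 1972) (nat_lit 256) (.ev (nat_lit 1981) (nat_lit 2) .dd)))))))))))))) (.ch (nat_lit 33) (.ev (nat_lit
 52) (nat_lit 105262489856) (.ev (nat_lit 416) (nat_lit 4691178291714) .dd)))) (.br (nat_lit 36) (.ch (nat_lit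
 35) (.ev (nat_lit 52) (nat_lit 398391779328) (.ev (nat_lit 84) (nat_lit 2) (.ev (nat_lit 148) (nat_lit 131072)
 (.ev (nat_lit 676) (nat_lit 256) (.nd (nat_lit 832) (.br (nat_lit 6) (.br (nat_lit 5) (.ch (nat_lit 1) (.ev
 (nat_lit 848) (nat_lit 262144) (.ev (nat_lit 1924) (nat_lit 512) (.ev (nat_lit 2400) (nat_lit 4398046511104)
 (.ev (nat_lit 2413) (nat_lit 2097152) .dd))))) (.ch (nat_lit 5) (.ev (nat_lit 848) (nat_lit 4398046773760)
 (.ev (nat_lit 861) (nat_lit 2097152) .dd)))) (.br (nat_lit 10) (.ch (nat_lit 6) (.ev (nat_lit 848) (nat_lit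
 4398046511104) (.ev (nat_lit 1798) (nat_lit 2097664) (.ev (nat_lit 1805) (nat_lit 262144) .dd)))) (.br
 (nat_lit 12) (.ch (nat_lit 10) (.ev (nat_lit 848) (nat_lit 4398048870912) .dd)) (.ch (nat_lit 12) (.ev
 (nat_lit 848) (nat_lit 2359808) (.ev (nat_lit 861) (nat_lit 4398046511104) .dd)))))))))))) (.ch (nat_lit 36)
 (.ev (nat_lit 52) (nat_lit 4417373872128) (.ev (nat_lit 192) (nat_lit 379066909442) .dd))))))))))

/-- Subtrie. -/
noncomputable def T4 : Tr := (.ev (nat_lit 20) (nat_lit 4760002365248) (.nd (nat_lit 33) (.br (nat_lit 19) (.br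
 (nat_lit 11) (.br (nat_lit 7) (.br (nat_lit 4) (.ch (nat_lit 1) (.ev (nat_lit 52) (nat_lit 549756076064) (.ev
 (nat_lit 84) (nat_lit 8589934592) (.ev (nat_lit 116) (nat_lit 2) (.ev (nat_lit 212) (nat_lit 34359742464) (.ev
 (nat_lit 308) (nat_lit 128) (.nd (nat_lit 832) (.br (nat_lit 3) (.br (nat_lit 1) (.ch (nat_lit 0) (.ev
 (nat_lit 848) (nat_lit 2149580816) (.ev (nat_lit 3296) (nat_lit 137438953472) (.fin (nat_lit
 576506382068957780))))) (.ch (nat_lit 1) (.ev (nat_lit 848) (nat_lit 137439092752) (.ev (nat_lit 2544)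
 (nat_lit 2149580800) .dd)))) (.br (nat_lit 6) (.ch (nat_lit 3) (.ev (nat_lit 848) (nat_lit 2149711888) (.nd
 (nat_lit 3632) (.ch (nat_lit 5) (.nd (nat_lit 4225) (.br (nat_lit 36) (.ch (nat_lit 0) (.ev (nat_lit 4241)
 (nat_lit 137438953472) (.ev (nat_lit 4253) (nat_lit 8192) .dd))) (.ch (nat_lit 36) (.nd (nat_lit 4496) (.br
 (nat_lit 11) (.ch (nat_lit 7) (.ev (nat_lit 4512) (nat_lit 8192) (.ev (nat_lit 4525) (nat_lit 137438953472)
 .dd))) (.ch (nat_lit 11) (.fin (nat_lit 576445908882244163)))))))))))) (.ch (nat_lit 6) (.ev (nat_lit 848)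
 (nat_lit 131072) (.ev (nat_lit 1680) (nat_lit 2097152) (.ev (nat_lit 1860) (nat_lit 16) (.ev (nat_lit 1904)
 (nat_lit 2147483648) (.ev (nat_lit 2868) (nat_lit 8192) (.ev (nat_lit 2877) (nat_lit 137438953472)
 .dd)))))))))))))))) (.br (nat_lit 5) (.ch (nat_lit 4) (.ev (nat_lit 52) (nat_lit 274608) (.ev (nat_lit 468)
 (nat_lit 131072) (.nd (nat_lit 832) (.br (nat_lit 6) (.br (nat_lit 2) (.br (nat_lit 1) (.ch (nat_lit 0) (.ev
 (nat_lit 848) (nat_lit 697934282754) (.ev (nat_lit 861) (nat_lit 34359738368) .dd))) (.ch (nat_lit 1) (.ev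
 (nat_lit 848) (nat_lit 695786799104) (.ev (nat_lit 868) (nat_lit 34359738368) (.ev (nat_lit 948) (nat_lit 2)
 (.ev (nat_lit 957) (nat_lit 2147483648) .dd)))))) (.br (nat_lit 3) (.ch (nat_lit 2) (.ev (nat_lit 848)
 (nat_lit 723701989378) (.ev (nat_lit 1664) (nat_lit 2097152) (.ev (nat_lit 1677) (nat_lit 8589934592) .dd))))
 (.ch (nat_lit 3) (.ev (nat_lit 848) (nat_lit 551905394690) (.ev (nat_lit 1094) (nat_lit 171798691840) (.ev
 (nat_lit 1101) (nat_lit 8589934592) .dd)))))) (.br (nat_lit 8) (.br (nat_lit 7) (.ch (nat_lit 6) (.ev (nat_lit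
 848) (nat_lit 146028888064) (.ev (nat_lit 1888) (nat_lit 2) (.ev (nat_lit 2628) (nat_lit 2147483648) (.ev
 (nat_lit 2708) (nat_lit 34359738368) (.ev (nat_lit 2948) (nat_lit 2097152) (.ev (nat_lit 2957) (nat_lit
 549755813888) .dd))))))) (.ch (nat_lit 7) (.ev (nat_lit 848) (nat_lit 171798691842) (.ev (nat_lit 868)
 (nat_lit 8589934592) (.ev (nat_lit 1732) (nat_lit 2147483648) (.ev (nat_lit 2068) (nat_lit 549755813888) (.ev
 (nat_lit 2077) (nat_lit 2097152) .dd))))))) (.br (nat_lit 11) (.ch (nat_lit 8) (.ev (nat_lit 848) (nat_lit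
 594855067648) (.ev (nat_lit 1936) (nat_lit 2) (.ev (nat_lit 1949) (nat_lit 137438953472) .dd)))) (.ch (nat_lit
 11) (.ev (nat_lit 848) (nat_lit 723704086530) (.ev (nat_lit 861) (nat_lit 8589934592) .dd)))))))))) (.ch
 (nat_lit 5) (.ev (nat_lit 52) (nat_lit 723701989504) (.ev (nat_lit 576) (nat_lit 8592437298) .dd))))) (.br
 (nat_lit 8) (.ch (nat_lit 7) (.ev (nat_lit 52) (nat_lit 549757915138) (.ev (nat_lit 116) (nat_lit 2147483648)
 (.ev (nat_lit 180) (nat_lit 32) (.ev (nat_lit 276) (nat_lit 16) (.ev (nat_lit 308) (nat_lit 137438953472) (.ev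
 (nat_lit 564) (nat_lit 8192) (.nd (nat_lit 832) (.br (nat_lit 7) (.br (nat_lit 2) (.ch (nat_lit 1) (.ev
 (nat_lit 848) (nat_lit 8590327936) (.ev (nat_lit 861) (nat_lit 34359738368) .dd))) (.br (nat_lit 6) (.ch
 (nat_lit 2) (.ev (nat_lit 848) (nat_lit 131200) (.ev (nat_lit 1652) (nat_lit 262144) (.ev (nat_lit 1664)
 (nat_lit 34359738368) (.ev (nat_lit 1677) (nat_lit 8589934592) .dd))))) (.ch (nat_lit 6) (.ev (nat_lit 848)
 (nat_lit 8590065792) (.ev (nat_lit 1664) (nat_lit 262144) (.ev (nat_lit 1677) (nat_lit 34359738368) .dd))))))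
 (.br (nat_lit 8) (.ch (nat_lit 7) (.ev (nat_lit 848) (nat_lit 393216) (.ev (nat_lit 2516) (nat_lit
 34359738368) (.ev (nat_lit 2996) (nat_lit 128) (.ev (nat_lit 3005) (nat_lit 8589934592) .dd))))) (.br (nat_lit
 9) (.ch (nat_lit 8) (.ev (nat_lit 848) (nat_lit 34359869440) (.ev (nat_lit 2608) (nat_lit 262144) (.ev
 (nat_lit 2724) (nat_lit 128) (.ev (nat_lit 2733) (nat_lit 8589934592) .dd))))) (.ch (nat_lit 9) (.ev (nat_lit
 848) (nat_lit 42949672960) (.ev (nat_lit 3108) (nat_lit 131072) (.nd (nat_lit 4160) (.br (nat_lit 7) (.ch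
 (nat_lit 6) (.ev (nat_lit 4176) (nat_lit 262272) .dd)) (.ch (nat_lit 7) (.nd (nat_lit 4433) (.br (nat_lit 22)
 (.br (nat_lit 21) (.ch (nat_lit 12) (.ev (nat_lit 4449) (nat_lit 262272) .dd)) (.ch (nat_lit 21) (.nd (nat_lit
 4752) (.br (nat_lit 10) (.ch (nat_lit 3) (.fin (nat_lit 576506382006043221))) (.ch (nat_lit 10) (.ev (nat_lit
 4768) (nat_lit 262144) (.ev (nat_lit 4781) (nat_lit 128) .dd))))))) (.br (nat_lit 27) (.ch (nat_lit 22) (.ev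
 (nat_lit 4449) (nat_lit 262272) .dd)) (.ch (nat_lit 27) (.ev (nat_lit 4449) (nat_lit 262272)
 .dd)))))))))))))))))))))) (.br (nat_lit 10) (.ch (nat_lit 8) (.ev (nat_lit 52) (nat_lit 180391120912) (.ev
 (nat_lit 340) (nat_lit 551903297536) (.nd (nat_lit 832) (.br (nat_lit 6) (.br (nat_lit 2) (.ch (nat_lit 0)
 (.ev (nat_lit 848) (nat_lit 130) (.ev (nat_lit 868) (nat_lit 8192) (.ev (nat_lit 877) (nat_lit 32) .dd))))
 (.br (nat_lit 3) (.ch (nat_lit 2) (.ev (nat_lit 848) (nat_lit 160) (.ev (nat_lit 1700) (nat_lit 8192) (.ev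
 (nat_lit 1709) (nat_lit 2) .dd)))) (.ch (nat_lit 3) (.ev (nat_lit 848) (nat_lit 162) (.ev (nat_lit 861)
 (nat_lit 8192) .dd))))) (.br (nat_lit 9) (.br (nat_lit 7) (.ch (nat_lit 6) (.ev (nat_lit 848) (nat_lit 8226)
 (.ev (nat_lit 861) (nat_lit 128) .dd))) (.ch (nat_lit 7) (.ev (nat_lit 848) (nat_lit 8194) (.ev (nat_lit 1700)
 (nat_lit 128) (.ev (nat_lit 1709) (nat_lit 32) .dd))))) (.br (nat_lit 11) (.ch (nat_lit 9) (.ev (nat_lit 848)
 (nat_lit 8224) (.ev (nat_lit 868) (nat_lit 128) (.ev (nat_lit 877) (nat_lit 2) .dd)))) (.ch (nat_lit 11) (.ev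
 (nat_lit 848) (nat_lit 8354) .dd))))))))) (.ch (nat_lit 10) (.ev (nat_lit 52) (nat_lit 584115556482) (.ev
 (nat_lit 84) (nat_lit 131072) (.ev (nat_lit 244) (nat_lit 8192) (.ev (nat_lit 276) (nat_lit 137438953472) (.ev
 (nat_lit 340) (nat_lit 8589934592) (.ev (nat_lit 404) (nat_lit 16) (.nd (nat_lit 832) (.br (nat_lit 6) (.br
 (nat_lit 2) (.ch (nat_lit 0) (.ev (nat_lit 848) (nat_lit 2149842976) .dd)) (.ch (nat_lit 2) (.ev (nat_lit 848)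
 (nat_lit 2149842976) .dd))) (.br (nat_lit 7) (.ch (nat_lit 6) (.ev (nat_lit 848) (nat_lit 2147483680) (.ev
 (nat_lit 2160) (nat_lit 2359296) .dd))) (.br (nat_lit 11) (.ch (nat_lit 7) (.ev (nat_lit 848) (nat_lit
 2359296) (.ev (nat_lit 1776) (nat_lit 2147483680) .dd))) (.ch (nat_lit 11) (.ev (nat_lit 848) (nat_lit
 2149842976) .dd)))))))))))))))) (.br (nat_lit 15) (.br (nat_lit 12) (.ch (nat_lit 11) (.ev (nat_lit 52)
 (nat_lit 137441054848) (.ev (nat_lit 84) (nat_lit 2) (.ev (nat_lit 180) (nat_lit 8589934592) (.ev (nat_lit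
 340) (nat_lit 131072) (.ev (nat_lit 372) (nat_lit 32) (.ev (nat_lit 532) (nat_lit 34359738368) (.nd (nat_lit
 832) (.br (nat_lit 7) (.br (nat_lit 3) (.br (nat_lit 2) (.ch (nat_lit 0) (.ev (nat_lit 848) (nat_lit
 551903559696) (.ev (nat_lit 861) (nat_lit 8192) .dd))) (.ch (nat_lit 2) (.ev (nat_lit 1444) (nat_lit
 549755813888) (.ev (nat_lit 1524) (nat_lit 16) (.ev (nat_lit 2436) (nat_lit 2147745792) (.ev (nat_lit 2445)
 (nat_lit 8192) .dd)))))) (.br (nat_lit 6) (.ch (nat_lit 3) (.ev (nat_lit 848) (nat_lit 2147745792) (.ev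
 (nat_lit 868) (nat_lit 549755813888) (.ev (nat_lit 1732) (nat_lit 8192) (.ev (nat_lit 1741) (nat_lit 16)
 .dd))))) (.ch (nat_lit 6) (.ev (nat_lit 848) (nat_lit 549756084224) (.ev (nat_lit 2516) (nat_lit 16) (.ev
 (nat_lit 2525) (nat_lit 2147483648) .dd)))))) (.br (nat_lit 9) (.br (nat_lit 8) (.ch (nat_lit 7) (.ev (nat_lit
 848) (nat_lit 270352) (.ev (nat_lit 1904) (nat_lit 2147483648) (.ev (nat_lit 1917) (nat_lit 549755813888)
 .dd)))) (.ch (nat_lit 8) (.ev (nat_lit 848) (nat_lit 2147491856) (.ev (nat_lit 1616) (nat_lit 549755813888)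
 (.ev (nat_lit 1629) (nat_lit 262144) .dd))))) (.br (nat_lit 11) (.ch (nat_lit 9) (.ev (nat_lit 848) (nat_lit
 551903567888) .dd)) (.ch (nat_lit 11) (.ev (nat_lit 848) (nat_lit 551903567888) .dd))))))))))))) (.br (nat_lit
 13) (.ch (nat_lit 12) (.ev (nat_lit 52) (nat_lit 687195168770) (.ev (nat_lit 84) (nat_lit 2147483648) (.ev
 (nat_lit 308) (nat_lit 16) (.ev (nat_lit 404) (nat_lit 128) (.nd (nat_lit 832) (.br (nat_lit 7) (.br (nat_lit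
 2) (.ch (nat_lit 1) (.ev (nat_lit 848) (nat_lit 8589938720) (.ev (nat_lit 2628) (nat_lit 2097152) (.ev
 (nat_lit 2637) (nat_lit 34359738368) .dd)))) (.br (nat_lit 6) (.ch (nat_lit 2) (.ev (nat_lit 848) (nat_lit
 2101280) (.ev (nat_lit 1588) (nat_lit 34359738368) (.ev (nat_lit 1597) (nat_lit 8589934592) .dd)))) (.ch
 (nat_lit 6) (.ev (nat_lit 848) (nat_lit 8592035872) (.ev (nat_lit 861) (nat_lit 34359738368) .dd))))) (.br
 (nat_lit 9) (.br (nat_lit 8) (.ch (nat_lit 7) (.ev (nat_lit 848) (nat_lit 8592035840) (.ev (nat_lit 1972)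
 (nat_lit 32) (.ev (nat_lit 1981) (nat_lit 34359738368) .dd)))) (.ch (nat_lit 8) (.ev (nat_lit 848) (nat_lit
 42951774240) .dd))) (.br (nat_lit 11) (.ch (nat_lit 9) (.ev (nat_lit 848) (nat_lit 8592031776) (.ev (nat_lit
 900) (nat_lit 4096) (.ev (nat_lit 909) (nat_lit 34359738368) .dd)))) (.ch (nat_lit 11) (.ev (nat_lit 848)
 (nat_lit 42949672992) (.ev (nat_lit 1872) (nat_lit 2097152) (.ev (nat_lit 1885) (nat_lit 4096)
 .dd))))))))))))) (.ch (nat_lit 13) (.ev (nat_lit 52) (nat_lit 549758042290) (.ev (nat_lit 244) (nat_lit 4096)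
 (.ev (nat_lit 644) (nat_lit 34359738368) (.ev (nat_lit 688) (nat_lit 148176642048) .dd))))))) (.br (nat_lit
 17) (.br (nat_lit 16) (.ch (nat_lit 15) (.ev (nat_lit 52) (nat_lit 146031128592) (.ev (nat_lit 116) (nat_lit
 262144) (.ev (nat_lit 148) (nat_lit 549755813888) (.nd (nat_lit 832) (.br (nat_lit 3) (.br (nat_lit 2) (.ch
 (nat_lit 1) (.ev (nat_lit 848) (nat_lit 160) (.ev (nat_lit 1472) (nat_lit 34359738368) (.ev (nat_lit 1616)
 (nat_lit 2) (.ev (nat_lit 1629) (nat_lit 2147483648) .dd))))) (.ch (nat_lit 2) (.ev (nat_lit 848) (nat_lit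
 34359738530) (.ev (nat_lit 861) (nat_lit 2147483648) .dd)))) (.br (nat_lit 6) (.ch (nat_lit 3) (.ev (nat_lit
 848) (nat_lit 34359738370) (.ev (nat_lit 1312) (nat_lit 2147483648) (.ev (nat_lit 1492) (nat_lit 128) (.ev
 (nat_lit 1501) (nat_lit 32) .dd))))) (.br (nat_lit 11) (.ch (nat_lit 6) (.ev (nat_lit 848) (nat_lit
 2147483808) (.fin (nat_lit 576416222096605712)))) (.ch (nat_lit 11) (.ev (nat_lit 848) (nat_lit 36507222178)
 .dd)))))))))) (.ch (nat_lit 16) (.ev (nat_lit 52) (nat_lit 143506) (.ev (nat_lit 468) (nat_lit 262144) (.nd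
 (nat_lit 832) (.br (nat_lit 7) (.br (nat_lit 3) (.br (nat_lit 2) (.ch (nat_lit 1) (.ev (nat_lit 848) (nat_lit
 697934282752) (.ev (nat_lit 1936) (nat_lit 32) (.ev (nat_lit 1949) (nat_lit 34359738368) .dd)))) (.ch (nat_lit
 2) (.ev (nat_lit 848) (nat_lit 171798691872) (.ev (nat_lit 868) (nat_lit 2097152) (.ev (nat_lit 1732) (nat_lit
 549755813888) (.ev (nat_lit 2068) (nat_lit 2147483648) (.ev (nat_lit 2077) (nat_lit 8589934592) .dd)))))))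
 (.br (nat_lit 6) (.ch (nat_lit 3) (.ev (nat_lit 848) (nat_lit 34361835520) (.ev (nat_lit 1888) (nat_lit 32)
 (.ev (nat_lit 2628) (nat_lit 549755813888) (.ev (nat_lit 2708) (nat_lit 137438953472) (.ev (nat_lit 2948)
 (nat_lit 8589934592) (.ev (nat_lit 2957) (nat_lit 2147483648) .dd))))))) (.ch (nat_lit 6) (.ev (nat_lit 848)
 (nat_lit 560493232160) (.ev (nat_lit 1062) (nat_lit 171798691840) (.ev (nat_lit 1069) (nat_lit 2097152)
 .dd)))))) (.br (nat_lit 9) (.br (nat_lit 8) (.ch (nat_lit 7) (.ev (nat_lit 848) (nat_lit 723701989408) (.ev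
 (nat_lit 1664) (nat_lit 8589934592) (.ev (nat_lit 1677) (nat_lit 2097152) .dd)))) (.ch (nat_lit 8) (.ev
 (nat_lit 848) (nat_lit 45099253760) (.ev (nat_lit 868) (nat_lit 137438953472) (.ev (nat_lit 948) (nat_lit 32)
 (.ev (nat_lit 957) (nat_lit 549755813888) .dd)))))) (.br (nat_lit 11) (.ch (nat_lit 9) (.ev (nat_lit 848)
 (nat_lit 594855067680) (.ev (nat_lit 861) (nat_lit 137438953472) .dd))) (.ch (nat_lit 11) (.ev (nat_lit 848)
 (nat_lit 732291924000) (.ev (nat_lit 861) (nat_lit 2097152) .dd))))))))))) (.br (nat_lit 18) (.ch (nat_lit 17)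
 (.ev (nat_lit 52) (nat_lit 695785103408) (.nd (nat_lit 832) (.br (nat_lit 6) (.br (nat_lit 1) (.ch (nat_lit 0)
 (.ev (nat_lit 848) (nat_lit 2149585026) (.ev (nat_lit 861) (nat_lit 34359738368) .dd))) (.br (nat_lit 3) (.ch
 (nat_lit 1) (.ev (nat_lit 848) (nat_lit 4224) (.ev (nat_lit 996) (nat_lit 2) (.ev (nat_lit 1700) (nat_lit
 2147483648) (.ev (nat_lit 2212) (nat_lit 34359738368) (.ev (nat_lit 2221) (nat_lit 2097152) .dd)))))) (.ch
 (nat_lit 3) (.ev (nat_lit 848) (nat_lit 2101378) (.ev (nat_lit 2308) (nat_lit 34359738368) (.ev (nat_lit 2317)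
 (nat_lit 2147483648) .dd)))))) (.br (nat_lit 9) (.br (nat_lit 7) (.ch (nat_lit 6) (.ev (nat_lit 848) (nat_lit
 2101248) (.ev (nat_lit 2212) (nat_lit 2147483648) (.nd (nat_lit 3904) (.br (nat_lit 4) (.ch (nat_lit 2) (.ev
 (nat_lit 3920) (nat_lit 34359738498) .dd)) (.br (nat_lit 9) (.ch (nat_lit 4) (.ev (nat_lit 3920) (nat_lit 128)
 (.fin (nat_lit 576416222096605712)))) (.ch (nat_lit 9) (.ev (nat_lit 3920) (nat_lit 2) (.fin (nat_lit
 576476695207821905)))))))))) (.ch (nat_lit 7) (.ev (nat_lit 848) (nat_lit 36509323266) (.ev (nat_lit 861)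
 (nat_lit 128) .dd)))) (.br (nat_lit 11) (.ch (nat_lit 9) (.ev (nat_lit 848) (nat_lit 2149580802) (.ev (nat_lit
 2628) (nat_lit 4096) (.ev (nat_lit 3200) (nat_lit 34359738368) (.ev (nat_lit 3213) (nat_lit 128) .dd))))) (.ch
 (nat_lit 11) (.ev (nat_lit 848) (nat_lit 36507222146) (.ev (nat_lit 2516) (nat_lit 2097152) (.ev (nat_lit
 2525) (nat_lit 4096) .dd)))))))))) (.ch (nat_lit 18) (.ev (nat_lit 52) (nat_lit 266274) (.ev (nat_lit 404)
 (nat_lit 34359738368) (.ev (nat_lit 564) (nat_lit 137438953488) (.ev (nat_lit 784) (nat_lit 551903297536) (.nd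
 (nat_lit 832) (.br (nat_lit 2) (.br (nat_lit 1) (.ch (nat_lit 0) (.ev (nat_lit 848) (nat_lit 8592040064) (.ev
 (nat_lit 861) (nat_lit 131072) .dd))) (.ch (nat_lit 1) (.ev (nat_lit 848) (nat_lit 8589934720) (.ev (nat_lit
 2212) (nat_lit 2097152) (.ev (nat_lit 2544) (nat_lit 139264) .dd))))) (.br (nat_lit 3) (.ch (nat_lit 2) (.ev
 (nat_lit 848) (nat_lit 8590065792) (.ev (nat_lit 2308) (nat_lit 8192) (.ev (nat_lit 2317) (nat_lit 2097152)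
 .dd)))) (.br (nat_lit 8) (.ch (nat_lit 3) (.ev (nat_lit 848) (nat_lit 2105344) (.ev (nat_lit 1492) (nat_lit
 128) (.ev (nat_lit 1652) (nat_lit 131072) (.ev (nat_lit 1661) (nat_lit 8589934592) .dd))))) (.ch (nat_lit 8)
 (.ev (nat_lit 848) (nat_lit 8592171008) (.ev (nat_lit 861) (nat_lit 128) .dd)))))))))))))))) (.br (nat_lit 26)
 (.br (nat_lit 22) (.br (nat_lit 20) (.ch (nat_lit 19) (.ev (nat_lit 52) (nat_lit 36509716610) (.nd (nat_lit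
 832) (.br (nat_lit 6) (.br (nat_lit 2) (.ch (nat_lit 0) (.ev (nat_lit 848) (nat_lit 558345748512) (.ev
 (nat_lit 2628) (nat_lit 16) (.ev (nat_lit 3200) (nat_lit 137438953472) (.ev (nat_lit 3213) (nat_lit 8192)
 .dd))))) (.br (nat_lit 3) (.ch (nat_lit 2) (.ev (nat_lit 848) (nat_lit 695784702000) (.ev (nat_lit 861)
 (nat_lit 8192) .dd))) (.ch (nat_lit 3) (.ev (nat_lit 848) (nat_lit 8589934608) (.ev (nat_lit 2212) (nat_lit
 549755813888) (.nd (nat_lit 3792) (.br (nat_lit 10) (.ch (nat_lit 5) (.ev (nat_lit 3808) (nat_lit 32) (.fin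
 (nat_lit 576476695239279165)))) (.br (nat_lit 12) (.ch (nat_lit 10) (.ev (nat_lit 3808) (nat_lit 8192) (.fin
 (nat_lit 576416222071439943)))) (.ch (nat_lit 12) (.ev (nat_lit 3808) (nat_lit 137438961696) .dd))))))))))
 (.br (nat_lit 9) (.br (nat_lit 8) (.ch (nat_lit 6) (.ev (nat_lit 848) (nat_lit 8589942832) (.ev (nat_lit 2308)
 (nat_lit 137438953472) (.ev (nat_lit 2317) (nat_lit 549755813888) .dd)))) (.ch (nat_lit 8) (.ev (nat_lit 848)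
 (nat_lit 8208) (.ev (nat_lit 996) (nat_lit 32) (.ev (nat_lit 1700) (nat_lit 549755813888) (.ev (nat_lit 2212)
 (nat_lit 137438953472) (.ev (nat_lit 2221) (nat_lit 8589934592) .dd))))))) (.br (nat_lit 11) (.ch (nat_lit 9)
 (.ev (nat_lit 848) (nat_lit 558345756720) (.ev (nat_lit 861) (nat_lit 137438953472) .dd))) (.ch (nat_lit 11)
 (.ev (nat_lit 848) (nat_lit 687194775584) (.ev (nat_lit 2516) (nat_lit 8589934592) (.ev (nat_lit 2525)
 (nat_lit 16) .dd)))))))))) (.br (nat_lit 21) (.ch (nat_lit 20) (.ev (nat_lit 52) (nat_lit 131122) (.ev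
 (nat_lit 404) (nat_lit 137438953472) (.ev (nat_lit 564) (nat_lit 34359742464) (.ev (nat_lit 800) (nat_lit
 551903297536) (.nd (nat_lit 832) (.br (nat_lit 7) (.br (nat_lit 6) (.ch (nat_lit 1) (.ev (nat_lit 848)
 (nat_lit 8592294016) (.ev (nat_lit 861) (nat_lit 8192) .dd))) (.ch (nat_lit 6) (.ev (nat_lit 848) (nat_lit
 8589934720) (.ev (nat_lit 1492) (nat_lit 8192) (.ev (nat_lit 1652) (nat_lit 262144) (.ev (nat_lit 1661)
 (nat_lit 2097152) .dd)))))) (.br (nat_lit 8) (.ch (nat_lit 7) (.ev (nat_lit 848) (nat_lit 2367488) (.ev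
 (nat_lit 2308) (nat_lit 128) (.ev (nat_lit 2317) (nat_lit 8589934592) .dd)))) (.br (nat_lit 9) (.ch (nat_lit
 8) (.ev (nat_lit 848) (nat_lit 2105344) (.ev (nat_lit 2212) (nat_lit 8589934592) (.ev (nat_lit 2544) (nat_lit
 262272) .dd)))) (.ch (nat_lit 9) (.ev (nat_lit 848) (nat_lit 8592040064) (.ev (nat_lit 861) (nat_lit 262144)
 .dd)))))))))))) (.ch (nat_lit 21) (.ev (nat_lit 52) (nat_lit 697934545024) (.ev (nat_lit 608) (nat_lit
 34359881778) .dd))))) (.br (nat_lit 24) (.ch (nat_lit 22) (.ev (nat_lit 52) (nat_lit 10737692706) (.ev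
 (nat_lit 244) (nat_lit 16) (.ev (nat_lit 644) (nat_lit 137438953472) (.ev (nat_lit 720) (nat_lit 584117780608)
 .dd))))) (.br (nat_lit 25) (.ch (nat_lit 24) (.ev (nat_lit 52) (nat_lit 42952036496) (.ev (nat_lit 116)
 (nat_lit 131072) (.ev (nat_lit 148) (nat_lit 2147483648) (.nd (nat_lit 832) (.br (nat_lit 7) (.br (nat_lit 6)
 (.ch (nat_lit 3) (.ev (nat_lit 848) (nat_lit 549755822082) (.fin (nat_lit 576416222071439943)))) (.ch (nat_lit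
 6) (.ev (nat_lit 848) (nat_lit 137438953504) (.ev (nat_lit 1312) (nat_lit 549755813888) (.ev (nat_lit 1382)
 (nat_lit 2) (.ev (nat_lit 1389) (nat_lit 8192) .dd)))))) (.br (nat_lit 8) (.ch (nat_lit 7) (.ev (nat_lit 848)
 (nat_lit 137438961698) (.ev (nat_lit 861) (nat_lit 549755813888) .dd))) (.br (nat_lit 11) (.ch (nat_lit 8)
 (.ev (nat_lit 848) (nat_lit 8194) (.ev (nat_lit 1472) (nat_lit 137438953472) (.ev (nat_lit 1616) (nat_lit 32)
 (.ev (nat_lit 1629) (nat_lit 549755813888) .dd))))) (.ch (nat_lit 11) (.ev (nat_lit 848) (nat_lit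
 687194775586) .dd)))))))))) (.ch (nat_lit 25) (.ev (nat_lit 52) (nat_lit 10737418288) (.ev (nat_lit 116)
 (nat_lit 549755813888) (.ev (nat_lit 180) (nat_lit 2) (.ev (nat_lit 276) (nat_lit 4096) (.ev (nat_lit 308)
 (nat_lit 34359738368) (.ev (nat_lit 564) (nat_lit 128) (.nd (nat_lit 832) (.br (nat_lit 3) (.br (nat_lit 1)
 (.ch (nat_lit 0) (.ev (nat_lit 848) (nat_lit 137441050624) (.ev (nat_lit 3108) (nat_lit 262144) (.nd (nat_lit
 3968) (.br (nat_lit 6) (.ch (nat_lit 5) (.nd (nat_lit 4337) (.br (nat_lit 21) (.br (nat_lit 19) (.ch (nat_lit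
 14) (.nd (nat_lit 4624) (.br (nat_lit 11) (.ch (nat_lit 5) (.fin (nat_lit 576506382068957780))) (.ch (nat_lit
 11) (.ev (nat_lit 4640) (nat_lit 131072) (.ev (nat_lit 4653) (nat_lit 8192) .dd)))))) (.ch (nat_lit 19) (.ev
 (nat_lit 4353) (nat_lit 139264) .dd))) (.br (nat_lit 25) (.ch (nat_lit 21) (.ev (nat_lit 4353) (nat_lit
 139264) .dd)) (.ch (nat_lit 25) (.ev (nat_lit 4353) (nat_lit 139264) .dd)))))) (.ch (nat_lit 6) (.ev (nat_lit
 3984) (nat_lit 139264) .dd))))))) (.br (nat_lit 2) (.ch (nat_lit 1) (.ev (nat_lit 848) (nat_lit 137439215616)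
 (.ev (nat_lit 2608) (nat_lit 131072) (.ev (nat_lit 2724) (nat_lit 8192) (.ev (nat_lit 2733) (nat_lit 2097152)
 .dd))))) (.ch (nat_lit 2) (.ev (nat_lit 848) (nat_lit 393216) (.ev (nat_lit 2516) (nat_lit 137438953472) (.ev
 (nat_lit 2996) (nat_lit 8192) (.ev (nat_lit 3005) (nat_lit 2097152) .dd))))))) (.br (nat_lit 7) (.ch (nat_lit
 3) (.ev (nat_lit 848) (nat_lit 2367488) (.ev (nat_lit 1664) (nat_lit 131072) (.ev (nat_lit 1677) (nat_lit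
 137438953472) .dd)))) (.br (nat_lit 8) (.ch (nat_lit 7) (.ev (nat_lit 848) (nat_lit 270336) (.ev (nat_lit
 1652) (nat_lit 131072) (.ev (nat_lit 1664) (nat_lit 137438953472) (.ev (nat_lit 1677) (nat_lit 2097152)
 .dd))))) (.ch (nat_lit 8) (.ev (nat_lit 848) (nat_lit 2498560) (.ev (nat_lit 861) (nat_lit 137438953472)
 .dd))))))))))))))))) (.br (nat_lit 30) (.br (nat_lit 27) (.ch (nat_lit 26) (.ev (nat_lit 52) (nat_lit
 42949681168) (.ev (nat_lit 84) (nat_lit 32) (.ev (nat_lit 180) (nat_lit 2097152) (.ev (nat_lit 340) (nat_lit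
 262144) (.ev (nat_lit 372) (nat_lit 2) (.ev (nat_lit 532) (nat_lit 137438953472) (.nd (nat_lit 832) (.br
 (nat_lit 6) (.br (nat_lit 2) (.br (nat_lit 1) (.ch (nat_lit 0) (.ev (nat_lit 848) (nat_lit 551903432832) .dd))
 (.ch (nat_lit 1) (.ev (nat_lit 848) (nat_lit 549755818112) (.ev (nat_lit 1616) (nat_lit 2147483648) (.ev
 (nat_lit 1629) (nat_lit 131072) .dd))))) (.br (nat_lit 3) (.ch (nat_lit 2) (.ev (nat_lit 848) (nat_lit 135296)
 (.ev (nat_lit 1904) (nat_lit 549755813888) (.ev (nat_lit 1917) (nat_lit 2147483648) .dd)))) (.ch (nat_lit 3)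
 (.ev (nat_lit 848) (nat_lit 2147614848) (.ev (nat_lit 2516) (nat_lit 4096) (.ev (nat_lit 2525) (nat_lit
 549755813888) .dd)))))) (.br (nat_lit 9) (.br (nat_lit 7) (.ch (nat_lit 6) (.ev (nat_lit 848) (nat_lit
 549755944960) (.ev (nat_lit 868) (nat_lit 2147483648) (.ev (nat_lit 1732) (nat_lit 128) (.ev (nat_lit 1741)
 (nat_lit 4096) .dd))))) (.ch (nat_lit 7) (.ev (nat_lit 1444) (nat_lit 2147483648) (.ev (nat_lit 1524) (nat_lit
 4096) (.ev (nat_lit 2436) (nat_lit 549755944960) (.ev (nat_lit 2445) (nat_lit 128) .dd)))))) (.br (nat_lit 11)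
 (.ch (nat_lit 9) (.ev (nat_lit 848) (nat_lit 551903432704) (.ev (nat_lit 861) (nat_lit 128) .dd))) (.ch
 (nat_lit 11) (.ev (nat_lit 848) (nat_lit 551903432832) .dd))))))))))))) (.br (nat_lit 29) (.ch (nat_lit 27)
 (.ev (nat_lit 52) (nat_lit 2147614722) (.ev (nat_lit 84) (nat_lit 2097152) (.ev (nat_lit 116) (nat_lit 32)
 (.ev (nat_lit 212) (nat_lit 137438953488) (.ev (nat_lit 308) (nat_lit 8192) (.nd (nat_lit 832) (.br (nat_lit
 8) (.br (nat_lit 6) (.ch (nat_lit 3) (.ev (nat_lit 848) (nat_lit 262144) (.ev (nat_lit 1680) (nat_lit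
 8589934592) (.ev (nat_lit 1860) (nat_lit 4096) (.ev (nat_lit 1904) (nat_lit 549755813888) (.ev (nat_lit 2868)
 (nat_lit 128) (.ev (nat_lit 2877) (nat_lit 34359738368) .dd))))))) (.ch (nat_lit 6) (.ev (nat_lit 848)
 (nat_lit 558346014720) (.nd (nat_lit 3744) (.ch (nat_lit 9) (.nd (nat_lit 4401) (.br (nat_lit 25) (.ch
 (nat_lit 15) (.nd (nat_lit 4720) (.br (nat_lit 7) (.ch (nat_lit 3) (.fin (nat_lit 576445908913701423))) (.ch
 (nat_lit 7) (.ev (nat_lit 4736) (nat_lit 128) (.ev (nat_lit 4749) (nat_lit 34359738368) .dd)))))) (.ch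
 (nat_lit 25) (.ev (nat_lit 4417) (nat_lit 34359738368) (.ev (nat_lit 4429) (nat_lit 128) .dd)))))))))) (.br
 (nat_lit 9) (.ch (nat_lit 8) (.ev (nat_lit 848) (nat_lit 34360004736) (.ev (nat_lit 2544) (nat_lit
 558345748480) .dd))) (.ch (nat_lit 9) (.ev (nat_lit 848) (nat_lit 558345752576) (.ev (nat_lit 3296) (nat_lit
 34359738368) (.fin (nat_lit 576506382006043221)))))))))))))) (.ch (nat_lit 29) (.ev (nat_lit 52) (nat_lit
 560495329280) (.ev (nat_lit 148) (nat_lit 34) (.ev (nat_lit 276) (nat_lit 8320) (.ev (nat_lit 436) (nat_lit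
 4112) (.nd (nat_lit 832) (.br (nat_lit 6) (.br (nat_lit 2) (.ch (nat_lit 1) (.ev (nat_lit 848) (nat_lit
 171798953984) (.ev (nat_lit 861) (nat_lit 131072) .dd))) (.br (nat_lit 3) (.ch (nat_lit 2) (.ev (nat_lit 848)
 (nat_lit 137439084544) (.ev (nat_lit 868) (nat_lit 262144) (.ev (nat_lit 877) (nat_lit 34359738368) .dd))))
 (.ch (nat_lit 3) (.ev (nat_lit 848) (nat_lit 137439215616) (.ev (nat_lit 1700) (nat_lit 131072) (.ev (nat_lit
 1709) (nat_lit 34359738368) .dd)))))) (.br (nat_lit 8) (.br (nat_lit 7) (.ch (nat_lit 6) (.ev (nat_lit 848)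
 (nat_lit 34359869440) (.ev (nat_lit 1700) (nat_lit 262144) (.ev (nat_lit 1709) (nat_lit 137438953472) .dd))))
 (.ch (nat_lit 7) (.ev (nat_lit 848) (nat_lit 34360000512) (.ev (nat_lit 868) (nat_lit 131072) (.ev (nat_lit
 877) (nat_lit 137438953472) .dd))))) (.br (nat_lit 11) (.ch (nat_lit 8) (.ev (nat_lit 848) (nat_lit
 171798822912) (.ev (nat_lit 861) (nat_lit 262144) .dd))) (.ch (nat_lit 11) (.ev (nat_lit 848) (nat_lit
 171799085056) .dd))))))))))))) (.br (nat_lit 35) (.br (nat_lit 33) (.ch (nat_lit 30) (.ev (nat_lit 52)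
 (nat_lit 36507615392) (.ev (nat_lit 84) (nat_lit 549755813888) (.ev (nat_lit 308) (nat_lit 4096) (.ev (nat_lit
 404) (nat_lit 8192) (.nd (nat_lit 832) (.br (nat_lit 3) (.br (nat_lit 1) (.ch (nat_lit 0) (.ev (nat_lit 848)
 (nat_lit 8592031746) (.ev (nat_lit 900) (nat_lit 16) (.ev (nat_lit 909) (nat_lit 137438953472) .dd)))) (.br
 (nat_lit 2) (.ch (nat_lit 1) (.ev (nat_lit 848) (nat_lit 146030985234) .dd)) (.ch (nat_lit 2) (.ev (nat_lit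
 848) (nat_lit 8592031760) (.ev (nat_lit 1972) (nat_lit 2) (.ev (nat_lit 1981) (nat_lit 137438953472) .dd))))))
 (.br (nat_lit 8) (.br (nat_lit 7) (.ch (nat_lit 3) (.ev (nat_lit 848) (nat_lit 8592031762) (.ev (nat_lit 861)
 (nat_lit 137438953472) .dd))) (.ch (nat_lit 7) (.ev (nat_lit 848) (nat_lit 8589934610) (.ev (nat_lit 1588)
 (nat_lit 137438953472) (.ev (nat_lit 1597) (nat_lit 2097152) .dd))))) (.br (nat_lit 11) (.ch (nat_lit 8) (.ev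
 (nat_lit 848) (nat_lit 2097170) (.ev (nat_lit 2628) (nat_lit 8589934592) (.ev (nat_lit 2637) (nat_lit
 137438953472) .dd)))) (.ch (nat_lit 11) (.ev (nat_lit 848) (nat_lit 137441050626) (.ev (nat_lit 1872) (nat_lit
 8589934592) (.ev (nat_lit 1885) (nat_lit 16) .dd))))))))))))) (.ch (nat_lit 33) (.ev (nat_lit 52) (nat_lit
 594855206912) (.ev (nat_lit 644) (nat_lit 128) (.ev (nat_lit 656) (nat_lit 137439219762) .dd))))) (.br
 (nat_lit 36) (.ch (nat_lit 35) (.ev (nat_lit 52) (nat_lit 723701997568) (.ev (nat_lit 480) (nat_lit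
 8592429234) .dd))) (.ch (nat_lit 36) (.ev (nat_lit 52) (nat_lit 139586445360) (.ev (nat_lit 84) (nat_lit
 262144) (.ev (nat_lit 244) (nat_lit 128) (.ev (nat_lit 276) (nat_lit 34359738368) (.ev (nat_lit 340) (nat_lit
 2097152) (.ev (nat_lit 404) (nat_lit 4096) (.nd (nat_lit 832) (.br (nat_lit 7) (.br (nat_lit 3) (.ch (nat_lit
 2) (.ev (nat_lit 848) (nat_lit 8590065664) (.ev (nat_lit 1776) (nat_lit 549755813890) .dd))) (.ch (nat_lit 3)
 (.ev (nat_lit 848) (nat_lit 549755813890) (.ev (nat_lit 2160) (nat_lit 8590065664) .dd)))) (.br (nat_lit 9)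
 (.ch (nat_lit 7) (.ev (nat_lit 848) (nat_lit 558345879554) .dd)) (.br (nat_lit 11) (.ch (nat_lit 9) (.ev
 (nat_lit 848) (nat_lit 558345879554) .dd)) (.ch (nat_lit 11) (.ev (nat_lit 848) (nat_lit 558345879554)
 .dd))))))))))))))))))))

/-- Subtrie. -/
noncomputable def T5 : Tr := (.ev (nat_lit 20) (nat_lit 4552699150354) (.nd (nat_lit 33) (.br (nat_lit 19) (.br
 (nat_lit 11) (.br (nat_lit 7) (.br (nat_lit 4) (.ch (nat_lit 1) (.ev (nat_lit 52) (nat_lit 550829557024) (.ev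
 (nat_lit 64) (nat_lit 388768084672) .dd))) (.br (nat_lit 5) (.ch (nat_lit 4) (.ev (nat_lit 52) (nat_lit
 1073755104) (.ev (nat_lit 84) (nat_lit 549755813888) (.ev (nat_lit 276) (nat_lit 2097152) (.ev (nat_lit 596)
 (nat_lit 8589934592) (.ev (nat_lit 740) (nat_lit 131072) (.nd (nat_lit 832) (.br (nat_lit 6) (.br (nat_lit 4)
 (.br (nat_lit 1) (.ch (nat_lit 0) (.ev (nat_lit 848) (nat_lit 105230894080) (.ev (nat_lit 1108) (nat_lit
 274877906944) (.ev (nat_lit 1117) (nat_lit 67108864) .dd)))) (.ch (nat_lit 1) (.ev (nat_lit 848) (nat_lit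
 103146324992) (.ev (nat_lit 1700) (nat_lit 274877906944) (.ev (nat_lit 2020) (nat_lit 4194304) (.ev (nat_lit
 2029) (nat_lit 2147483648) .dd)))))) (.br (nat_lit 5) (.ch (nat_lit 4) (.ev (nat_lit 848) (nat_lit
 274882101248) (.ev (nat_lit 2308) (nat_lit 34359738368) (.ev (nat_lit 2628) (nat_lit 68719476736) (.ev
 (nat_lit 2676) (nat_lit 2147483648) (.ev (nat_lit 2756) (nat_lit 67108864) (.ev (nat_lit 2765) (nat_lit 1024)
 .dd))))))) (.ch (nat_lit 5) (.ev (nat_lit 848) (nat_lit 70871154688) (.ev (nat_lit 868) (nat_lit 274877906944)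
 (.ev (nat_lit 1732) (nat_lit 34359738368) (.ev (nat_lit 2868) (nat_lit 1024) (.ev (nat_lit 2877) (nat_lit
 67108864) .dd)))))))) (.br (nat_lit 11) (.br (nat_lit 9) (.ch (nat_lit 6) (.ev (nat_lit 848) (nat_lit
 311452238848) (.ev (nat_lit 1142) (nat_lit 68719476736) (.ev (nat_lit 1149) (nat_lit 4194304) .dd)))) (.ch
 (nat_lit 9) (.ev (nat_lit 848) (nat_lit 105298002944) (.ev (nat_lit 861) (nat_lit 274877906944) .dd)))) (.br
 (nat_lit 12) (.ch (nat_lit 11) (.ev (nat_lit 848) (nat_lit 378028426240) (.ev (nat_lit 861) (nat_lit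
 2147483648) .dd))) (.ch (nat_lit 12) (.ev (nat_lit 848) (nat_lit 274949211136) (.ev (nat_lit 868) (nat_lit
 2147483648) (.ev (nat_lit 1348) (nat_lit 34359738368) (.ev (nat_lit 1357) (nat_lit 68719476736)
 .dd))))))))))))))) (.ch (nat_lit 5) (.ev (nat_lit 52) (nat_lit 656123363968) (.ev (nat_lit 212) (nat_lit 1024)
 (.ev (nat_lit 340) (nat_lit 64) (.ev (nat_lit 404) (nat_lit 4194304) (.nd (nat_lit 832) (.br (nat_lit 8) (.br
 (nat_lit 5) (.ch (nat_lit 4) (.ev (nat_lit 848) (nat_lit 283470077952) (.ev (nat_lit 1652) (nat_lit 4096) (.ev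
 (nat_lit 2390) (nat_lit 288) .dd)))) (.ch (nat_lit 5) (.ev (nat_lit 848) (nat_lit 8592040224) (.ev (nat_lit
 1808) (nat_lit 274877906944) (.ev (nat_lit 2416) (nat_lit 135168) .dd))))) (.br (nat_lit 11) (.ch (nat_lit 8)
 (.ev (nat_lit 848) (nat_lit 8592036096) (.ev (nat_lit 1824) (nat_lit 32) (.ev (nat_lit 2372) (nat_lit 8192)
 (.ev (nat_lit 2544) (nat_lit 131072) (.ev (nat_lit 2557) (nat_lit 274877906944) .dd)))))) (.br (nat_lit 12)
 (.ch (nat_lit 11) (.ev (nat_lit 848) (nat_lit 283467976960) (.ev (nat_lit 1952) (nat_lit 32) (.ev (nat_lit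
 2516) (nat_lit 8192) (.ev (nat_lit 2525) (nat_lit 2097152) .dd))))) (.ch (nat_lit 12) (.ev (nat_lit 848)
 (nat_lit 274877919520) (.ev (nat_lit 1732) (nat_lit 2097152) (.ev (nat_lit 1924) (nat_lit 131072) (.ev
 (nat_lit 1933) (nat_lit 8589934592) .dd)))))))))))))))) (.br (nat_lit 8) (.ch (nat_lit 7) (.ev (nat_lit 52)
 (nat_lit 825709564480) (.ev (nat_lit 128) (nat_lit 113888077216) .dd))) (.br (nat_lit 10) (.ch (nat_lit 8)
 (.ev (nat_lit 52) (nat_lit 42956100608) (.ev (nat_lit 372) (nat_lit 67108992) (.ev (nat_lit 532) (nat_lit 256)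
 (.nd (nat_lit 832) (.br (nat_lit 6) (.br (nat_lit 1) (.ch (nat_lit 0) (.ev (nat_lit 848) (nat_lit
 827854955072) (.ev (nat_lit 1492) (nat_lit 32) (.ev (nat_lit 1501) (nat_lit 68719476736) .dd)))) (.br (nat_lit
 5) (.ch (nat_lit 1) (.ev (nat_lit 848) (nat_lit 621696516608) (.ev (nat_lit 1700) (nat_lit 274877906944) (.ev
 (nat_lit 1924) (nat_lit 64) (.ev (nat_lit 2340) (nat_lit 8192) (.ev (nat_lit 2349) (nat_lit 32) .dd)))))) (.ch
 (nat_lit 5) (.ev (nat_lit 848) (nat_lit 346818609760) (.ev (nat_lit 900) (nat_lit 8192) (.ev (nat_lit 909)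
 (nat_lit 549755813888) .dd)))))) (.br (nat_lit 9) (.br (nat_lit 8) (.ch (nat_lit 6) (.ev (nat_lit 848)
 (nat_lit 343597391936) (.ev (nat_lit 916) (nat_lit 32) (.ev (nat_lit 3072) (nat_lit 1073741824) (.ev (nat_lit
 3428) (nat_lit 549755813888) (.nd (nat_lit 4032) (.br (nat_lit 3) (.ch (nat_lit 0) (.ev (nat_lit 4048)
 (nat_lit 2147484160) .dd)) (.br (nat_lit 12) (.ch (nat_lit 3) (.ev (nat_lit 4048) (nat_lit 2147484160) .dd))
 (.ch (nat_lit 12) (.fin (nat_lit 576465700104127060))))))))))) (.ch (nat_lit 8) (.ev (nat_lit 848) (nat_lit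
 71940710464) (.ev (nat_lit 1732) (nat_lit 549755813888) (.ev (nat_lit 2516) (nat_lit 32) (.ev (nat_lit 2708)
 (nat_lit 512) (.ev (nat_lit 2717) (nat_lit 274877906944) .dd))))))) (.br (nat_lit 12) (.ch (nat_lit 9) (.ev
 (nat_lit 848) (nat_lit 71940710912) (.ev (nat_lit 868) (nat_lit 32) (.ev (nat_lit 2916) (nat_lit 549755813888)
 (.ev (nat_lit 3108) (nat_lit 274877906944) (.ev (nat_lit 3117) (nat_lit 64) .dd)))))) (.ch (nat_lit 12) (.ev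
 (nat_lit 848) (nat_lit 346818617440) (.ev (nat_lit 2560) (nat_lit 512) (.ev (nat_lit 2573) (nat_lit
 549755813888) .dd)))))))))))) (.ch (nat_lit 10) (.ev (nat_lit 52) (nat_lit 858993464960) (.ev (nat_lit 84)
 (nat_lit 68719476800) (.ev (nat_lit 212) (nat_lit 2147483904) (.ev (nat_lit 244) (nat_lit 4194304) (.ev
 (nat_lit 276) (nat_lit 32) (.ev (nat_lit 308) (nat_lit 2097152) (.nd (nat_lit 832) (.br (nat_lit 8) (.br
 (nat_lit 4) (.ch (nat_lit 1) (.ev (nat_lit 848) (nat_lit 8657043456) (.ev (nat_lit 1652) (nat_lit 1073872896)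
 (.ev (nat_lit 1661) (nat_lit 8192) .dd)))) (.br (nat_lit 5) (.ch (nat_lit 4) (.ev (nat_lit 848) (nat_lit
 139264) (.ev (nat_lit 1270) (nat_lit 8589934592) (.nd (nat_lit 3536) (.br (nat_lit 7) (.ch (nat_lit 1) (.ev
 (nat_lit 3552) (nat_lit 1140850688) .dd)) (.ch (nat_lit 7) (.nd (nat_lit 4305) (.ch (nat_lit 32) (.nd (nat_lit
 4656) (.br (nat_lit 11) (.ch (nat_lit 1) (.ev (nat_lit 4672) (nat_lit 1073741824) (.ev (nat_lit 4685) (nat_lit
 67108864) .dd))) (.ch (nat_lit 11) (.fin (nat_lit 576506382068957781))))))))))))) (.ch (nat_lit 5) (.ev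
 (nat_lit 848) (nat_lit 9663676416) (.ev (nat_lit 1924) (nat_lit 131072) (.ev (nat_lit 2804) (nat_lit 67108864)
 (.ev (nat_lit 2813) (nat_lit 8192) .dd))))))) (.br (nat_lit 11) (.ch (nat_lit 8) (.ev (nat_lit 848) (nat_lit
 9730793472) (.ev (nat_lit 861) (nat_lit 131072) .dd))) (.br (nat_lit 12) (.ch (nat_lit 11) (.ev (nat_lit 848)
 (nat_lit 8590065664) (.ev (nat_lit 2036) (nat_lit 8192) (.ev (nat_lit 2496) (nat_lit 1073741824) (.ev (nat_lit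
 2509) (nat_lit 67108864) .dd))))) (.ch (nat_lit 12) (.ev (nat_lit 848) (nat_lit 8657051648) (.ev (nat_lit
 1392) (nat_lit 1073741824) (.ev (nat_lit 1405) (nat_lit 131072) .dd)))))))))))))))))) (.br (nat_lit 15) (.br
 (nat_lit 12) (.ch (nat_lit 11) (.ev (nat_lit 52) (nat_lit 69210240) (.ev (nat_lit 148) (nat_lit 64) (.ev
 (nat_lit 212) (nat_lit 512) (.ev (nat_lit 404) (nat_lit 2147483648) (.ev (nat_lit 500) (nat_lit 283467841536)
 (.ev (nat_lit 564) (nat_lit 256) (.nd (nat_lit 832) (.br (nat_lit 5) (.br (nat_lit 1) (.ch (nat_lit 0) (.ev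
 (nat_lit 848) (nat_lit 653913097216) (.ev (nat_lit 868) (nat_lit 8192) (.ev (nat_lit 877) (nat_lit 32) .dd))))
 (.br (nat_lit 4) (.ch (nat_lit 1) (.ev (nat_lit 848) (nat_lit 652839224352) (.ev (nat_lit 1012) (nat_lit 8192)
 (.ev (nat_lit 1652) (nat_lit 131072) (.ev (nat_lit 1661) (nat_lit 1073741824) .dd))))) (.ch (nat_lit 4) (.ev
 (nat_lit 848) (nat_lit 69797553152) (.ev (nat_lit 1664) (nat_lit 549755813888) (.ev (nat_lit 2628) (nat_lit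
 32) (.ev (nat_lit 2637) (nat_lit 34359738368) .dd))))))) (.br (nat_lit 9) (.br (nat_lit 6) (.ch (nat_lit 5)
 (.ev (nat_lit 848) (nat_lit 1077936160) (.ev (nat_lit 868) (nat_lit 131072) (.ev (nat_lit 2068) (nat_lit
 68719476736) (.ev (nat_lit 2576) (nat_lit 34359738368) (.ev (nat_lit 2676) (nat_lit 8192) (.ev (nat_lit 2756)
 (nat_lit 549755813888) (.ev (nat_lit 2765) (nat_lit 1024) .dd)))))))) (.ch (nat_lit 6) (.ev (nat_lit 848)
 (nat_lit 34359878688) (.ev (nat_lit 1504) (nat_lit 1073741824) (.ev (nat_lit 3088) (nat_lit 549755813888) (.ev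
 (nat_lit 3440) (nat_lit 4194304) (.ev (nat_lit 3453) (nat_lit 68719476736) .dd))))))) (.br (nat_lit 12) (.ch
 (nat_lit 9) (.ev (nat_lit 848) (nat_lit 652835037216) (.ev (nat_lit 1424) (nat_lit 131072) (.ev (nat_lit 2116)
 (nat_lit 1073741824) (.fin (nat_lit 576461302042935864)))))) (.ch (nat_lit 12) (.ev (nat_lit 848) (nat_lit
 619553367072) (.ev (nat_lit 861) (nat_lit 34359738368) .dd)))))))))))))) (.br (nat_lit 13) (.ch (nat_lit 12)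
 (.ev (nat_lit 52) (nat_lit 824700968960) (.ev (nat_lit 180) (nat_lit 64) (.ev (nat_lit 244) (nat_lit 1024)
 (.ev (nat_lit 436) (nat_lit 4194304) (.nd (nat_lit 832) (.br (nat_lit 8) (.br (nat_lit 4) (.br (nat_lit 1)
 (.ch (nat_lit 0) (.ev (nat_lit 848) (nat_lit 114892472992) (.ev (nat_lit 1600) (nat_lit 256) (.ev (nat_lit
 1613) (nat_lit 4096) .dd)))) (.ch (nat_lit 1) (.ev (nat_lit 848) (nat_lit 106302542496) (.ev (nat_lit 1652)
 (nat_lit 8589934592) (.ev (nat_lit 1661) (nat_lit 256) .dd))))) (.br (nat_lit 6) (.ch (nat_lit 4) (.ev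
 (nat_lit 848) (nat_lit 35435577760) (.ev (nat_lit 868) (nat_lit 2147483648) (.ev (nat_lit 2628) (nat_lit 4096)
 (.ev (nat_lit 3284) (nat_lit 512) (.fin (nat_lit 576447008451543644))))))) (.ch (nat_lit 6) (.ev (nat_lit 848)
 (nat_lit 10739516032) (.ev (nat_lit 868) (nat_lit 4128) (.ev (nat_lit 2448) (nat_lit 68719476736) (.ev
 (nat_lit 3140) (nat_lit 34359738368) (.nd (nat_lit 3712) (.br (nat_lit 4) (.ch (nat_lit 3) (.fin (nat_lit
 576482192792175227))) (.ch (nat_lit 4) (.ev (nat_lit 3728) (nat_lit 1073742080) .dd))))))))))) (.br (nat_lit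
 11) (.br (nat_lit 9) (.ch (nat_lit 8) (.ev (nat_lit 848) (nat_lit 80532738816) (.ev (nat_lit 1364) (nat_lit
 128) (.ev (nat_lit 1860) (nat_lit 32) (.ev (nat_lit 1869) (nat_lit 34359738368) .dd))))) (.ch (nat_lit 9) (.ev
 (nat_lit 848) (nat_lit 113816638112) (.ev (nat_lit 868) (nat_lit 2097152) (.ev (nat_lit 1616) (nat_lit 256)
 (.ev (nat_lit 1629) (nat_lit 1073741824) .dd)))))) (.br (nat_lit 12) (.ch (nat_lit 11) (.ev (nat_lit 848)
 (nat_lit 111669154560) (.ev (nat_lit 1156) (nat_lit 128) (.ev (nat_lit 1444) (nat_lit 1073741824) (.ev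
 (nat_lit 2436) (nat_lit 2097184) (.ev (nat_lit 2445) (nat_lit 2147483648) .dd)))))) (.ch (nat_lit 12) (.ev
 (nat_lit 848) (nat_lit 111671251232) (.ev (nat_lit 1664) (nat_lit 512) (.ev (nat_lit 2320) (nat_lit
 2147483648) (.ev (nat_lit 2516) (nat_lit 1073741824) (.ev (nat_lit 2525) (nat_lit 128) .dd))))))))))))))) (.ch
 (nat_lit 13) (.ev (nat_lit 52) (nat_lit 825776801504) (.ev (nat_lit 244) (nat_lit 8192) (.ev (nat_lit 468)
 (nat_lit 34359738368) (.nd (nat_lit 832) (.br (nat_lit 6) (.br (nat_lit 4) (.br (nat_lit 1) (.ch (nat_lit 0)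
 (.ev (nat_lit 848) (nat_lit 79461089280) (.ev (nat_lit 1664) (nat_lit 256) (.ev (nat_lit 1677) (nat_lit 4096)
 .dd)))) (.ch (nat_lit 1) (.ev (nat_lit 848) (nat_lit 68719481088) (.ev (nat_lit 982) (nat_lit 8594128896) (.ev
 (nat_lit 989) (nat_lit 2147483648) .dd))))) (.br (nat_lit 5) (.ch (nat_lit 4) (.ev (nat_lit 848) (nat_lit
 4194304) (.ev (nat_lit 868) (nat_lit 4096) (.ev (nat_lit 1904) (nat_lit 2147483648) (.ev (nat_lit 3348)
 (nat_lit 256) (.nd (nat_lit 3840) (.br (nat_lit 6) (.ch (nat_lit 1) (.fin (nat_lit 576447008451543644))) (.ch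
 (nat_lit 6) (.ev (nat_lit 3856) (nat_lit 77309411328) .dd))))))))) (.ch (nat_lit 5) (.ev (nat_lit 848)
 (nat_lit 79461089536) (.ev (nat_lit 861) (nat_lit 4096) .dd))))) (.br (nat_lit 9) (.br (nat_lit 8) (.ch
 (nat_lit 6) (.ev (nat_lit 848) (nat_lit 10737422592) (.ev (nat_lit 1190) (nat_lit 4194304) (.ev (nat_lit 1197)
 (nat_lit 68719476736) .dd)))) (.ch (nat_lit 8) (.ev (nat_lit 848) (nat_lit 79461093632) .dd))) (.br (nat_lit
 12) (.ch (nat_lit 9) (.ev (nat_lit 848) (nat_lit 79461093632) .dd)) (.ch (nat_lit 12) (.ev (nat_lit 848)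
 (nat_lit 77309415680) (.ev (nat_lit 1888) (nat_lit 4194304) (.ev (nat_lit 1901) (nat_lit 2147483648)
 .dd)))))))))))))) (.br (nat_lit 17) (.br (nat_lit 16) (.ch (nat_lit 15) (.ev (nat_lit 52) (nat_lit
 77315847232) (.ev (nat_lit 212) (nat_lit 32) (.nd (nat_lit 832) (.br (nat_lit 6) (.br (nat_lit 4) (.ch
 (nat_lit 0) (.ev (nat_lit 848) (nat_lit 587336778624) (.ev (nat_lit 1700) (nat_lit 274877906944) (.ev (nat_lit
 1709) (nat_lit 67108864) .dd)))) (.br (nat_lit 5) (.ch (nat_lit 4) (.ev (nat_lit 848) (nat_lit 827854946944)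
 (.ev (nat_lit 2464) (nat_lit 256) (.ev (nat_lit 3396) (nat_lit 34359738368) (.ev (nat_lit 3405) (nat_lit
 67108864) .dd))))) (.ch (nat_lit 5) (.ev (nat_lit 848) (nat_lit 826781205376) (.ev (nat_lit 868) (nat_lit
 34359738368) (.ev (nat_lit 2628) (nat_lit 67108864) (.ev (nat_lit 2637) (nat_lit 1073741824) .dd))))))) (.br
 (nat_lit 11) (.br (nat_lit 9) (.ch (nat_lit 6) (.ev (nat_lit 848) (nat_lit 309237645696) (.ev (nat_lit 916)
 (nat_lit 67108864) (.ev (nat_lit 2128) (nat_lit 549755813888) (.ev (nat_lit 3396) (nat_lit 1073741824) (.fin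
 (nat_lit 576456904017396268))))))) (.ch (nat_lit 9) (.ev (nat_lit 848) (nat_lit 861208052352) (.ev (nat_lit
 2436) (nat_lit 256) (.ev (nat_lit 2445) (nat_lit 1073741824) .dd))))) (.br (nat_lit 12) (.ch (nat_lit 11) (.ev
 (nat_lit 848) (nat_lit 858993459968) (.ev (nat_lit 868) (nat_lit 1073741824) (.ev (nat_lit 2528) (nat_lit 128)
 (.ev (nat_lit 2900) (nat_lit 2147483648) (.ev (nat_lit 2909) (nat_lit 67108864) .dd)))))) (.ch (nat_lit 12)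
 (.ev (nat_lit 848) (nat_lit 824700830464) (.ev (nat_lit 2560) (nat_lit 2147483648) (.nd (nat_lit 3648) (.br
 (nat_lit 11) (.ch (nat_lit 1) (.ev (nat_lit 3664) (nat_lit 128) (.fin (nat_lit 576478894252048983)))) (.ch
 (nat_lit 11) (.ev (nat_lit 3664) (nat_lit 34359738368) (.fin (nat_lit 576409625014256153)))))))))))))))) (.ch
 (nat_lit 16) (.ev (nat_lit 52) (nat_lit 68719620544) (.ev (nat_lit 160) (nat_lit 870878021152) .dd)))) (.br
 (nat_lit 18) (.ch (nat_lit 17) (.ev (nat_lit 52) (nat_lit 902014574624) (.ev (nat_lit 244) (nat_lit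
 2147483648) (.ev (nat_lit 448) (nat_lit 35435583424) .dd)))) (.ch (nat_lit 18) (.ev (nat_lit 52) (nat_lit
 343664496928) (.ev (nat_lit 116) (nat_lit 34359738368) (.ev (nat_lit 180) (nat_lit 1073741824) (.ev (nat_lit
 244) (nat_lit 2097152) (.ev (nat_lit 404) (nat_lit 1024) (.ev (nat_lit 436) (nat_lit 8192) (.ev (nat_lit 676)
 (nat_lit 8589934592) (.ev (nat_lit 816) (nat_lit 131200) (.nd (nat_lit 832) (.br (nat_lit 5) (.br (nat_lit 4)
 (.ch (nat_lit 0) (.ev (nat_lit 848) (nat_lit 551903298048) (.ev (nat_lit 2628) (nat_lit 4194304) (.ev (nat_lit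
 2637) (nat_lit 64) .dd)))) (.ch (nat_lit 4) (.ev (nat_lit 848) (nat_lit 4194368) (.ev (nat_lit 1492) (nat_lit
 549755813888) (.ev (nat_lit 1652) (nat_lit 2147483648) (.ev (nat_lit 1661) (nat_lit 512) .dd)))))) (.br
 (nat_lit 9) (.ch (nat_lit 5) (.ev (nat_lit 848) (nat_lit 2151678528) (.ev (nat_lit 861) (nat_lit 549755813888)
 .dd))) (.br (nat_lit 11) (.ch (nat_lit 9) (.ev (nat_lit 848) (nat_lit 2147484160) (.ev (nat_lit 1824) (nat_lit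
 549755813888) (.ev (nat_lit 2224) (nat_lit 4194304) (.ev (nat_lit 2237) (nat_lit 64) .dd))))) (.ch (nat_lit
 11) (.ev (nat_lit 848) (nat_lit 549760008768) (.ev (nat_lit 861) (nat_lit 2147483648) .dd))))))))))))))))))))
 (.br (nat_lit 26) (.br (nat_lit 22) (.br (nat_lit 20) (.ch (nat_lit 19) (.ev (nat_lit 52) (nat_lit
 312461104768) (.ev (nat_lit 352) (nat_lit 627136536928) .dd))) (.br (nat_lit 21) (.ch (nat_lit 20) (.ev
 (nat_lit 52) (nat_lit 1140982368) (.ev (nat_lit 84) (nat_lit 34359738368) (.ev (nat_lit 116) (nat_lit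
 68719476736) (.ev (nat_lit 244) (nat_lit 256) (.ev (nat_lit 276) (nat_lit 8192) (.ev (nat_lit 340) (nat_lit
 128) (.ev (nat_lit 436) (nat_lit 1024) (.ev (nat_lit 596) (nat_lit 274877906944) (.nd (nat_lit 832) (.br
 (nat_lit 11) (.br (nat_lit 9) (.ch (nat_lit 6) (.ev (nat_lit 848) (nat_lit 10741612544) (.ev (nat_lit 3478)
 (nat_lit 2097152) (.nd (nat_lit 4064) (.ch (nat_lit 0) (.nd (nat_lit 4321) (.ch (nat_lit 14) (.nd (nat_lit
 4688) (.br (nat_lit 9) (.ch (nat_lit 1) (.ev (nat_lit 4704) (nat_lit 4096) (.ev (nat_lit 4717) (nat_lit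
 549755813888) .dd))) (.ch (nat_lit 9) (.fin (nat_lit 576466799618900492)))))))))))) (.ch (nat_lit 9) (.ev
 (nat_lit 848) (nat_lit 10741616640) (.ev (nat_lit 2516) (nat_lit 549755813888) (.ev (nat_lit 2525) (nat_lit
 2097152) .dd))))) (.br (nat_lit 12) (.ch (nat_lit 11) (.ev (nat_lit 848) (nat_lit 549762109440) (.ev (nat_lit
 884) (nat_lit 8589934592) (.ev (nat_lit 893) (nat_lit 2147483648) .dd)))) (.ch (nat_lit 12) (.ev (nat_lit 848)
 (nat_lit 4096) (.ev (nat_lit 1732) (nat_lit 8589934592) (.ev (nat_lit 2516) (nat_lit 2147483648) (.ev (nat_lit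
 2628) (nat_lit 4194304) (.ev (nat_lit 2788) (nat_lit 2097152) (.ev (nat_lit 2797) (nat_lit 549755813888)
 .dd))))))))))))))))))) (.ch (nat_lit 21) (.ev (nat_lit 52) (nat_lit 561640375488) (.ev (nat_lit 320) (nat_lit
 377957266208) .dd))))) (.br (nat_lit 24) (.ch (nat_lit 22) (.ev (nat_lit 52) (nat_lit 79528210720) (.ev
 (nat_lit 116) (nat_lit 549755813888) (.ev (nat_lit 372) (nat_lit 34359738368) (.ev (nat_lit 564) (nat_lit
 1024) (.ev (nat_lit 708) (nat_lit 274877906944) (.nd (nat_lit 832) (.br (nat_lit 5) (.br (nat_lit 1) (.ch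
 (nat_lit 0) (.ev (nat_lit 848) (nat_lit 1075970688) (.ev (nat_lit 861) (nat_lit 64) .dd))) (.br (nat_lit 4)
 (.ch (nat_lit 1) (.ev (nat_lit 848) (nat_lit 576) (.ev (nat_lit 1652) (nat_lit 128) (.ev (nat_lit 2020)
 (nat_lit 2097152) (.ev (nat_lit 2516) (nat_lit 1073741824) (.ev (nat_lit 2525) (nat_lit 131072) .dd)))))) (.ch
 (nat_lit 4) (.ev (nat_lit 848) (nat_lit 2228352) (.ev (nat_lit 1860) (nat_lit 512) (.ev (nat_lit 3382)
 (nat_lit 1073741824) (.ev (nat_lit 3389) (nat_lit 64) .dd))))))) (.br (nat_lit 11) (.br (nat_lit 8) (.ch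
 (nat_lit 5) (.ev (nat_lit 848) (nat_lit 2228800) (.ev (nat_lit 2676) (nat_lit 1073741824) (.ev (nat_lit 2685)
 (nat_lit 128) .dd)))) (.ch (nat_lit 8) (.ev (nat_lit 848) (nat_lit 1075839168) (.ev (nat_lit 1888) (nat_lit
 131072) (.ev (nat_lit 1901) (nat_lit 512) .dd))))) (.br (nat_lit 12) (.ch (nat_lit 11) (.ev (nat_lit 848)
 (nat_lit 131584) (.ev (nat_lit 2276) (nat_lit 128) (.nd (nat_lit 3600) (.br (nat_lit 2) (.ch (nat_lit 1) (.ev
 (nat_lit 3616) (nat_lit 1075839040) .dd)) (.br (nat_lit 5) (.ch (nat_lit 2) (.ev (nat_lit 3616) (nat_lit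
 2097152) (.fin (nat_lit 576476695239279185)))) (.ch (nat_lit 5) (.ev (nat_lit 3616) (nat_lit 64) (.fin
 (nat_lit 576447008367657495)))))))))) (.ch (nat_lit 12) (.ev (nat_lit 848) (nat_lit 2228928) (.ev (nat_lit
 861) (nat_lit 1073741824) .dd))))))))))))) (.br (nat_lit 25) (.ch (nat_lit 24) (.ev (nat_lit 52) (nat_lit
 44096820608) (.ev (nat_lit 308) (nat_lit 2147483648) (.ev (nat_lit 468) (nat_lit 68719476736) (.ev (nat_lit
 532) (nat_lit 512) (.nd (nat_lit 832) (.br (nat_lit 6) (.br (nat_lit 1) (.ch (nat_lit 0) (.ev (nat_lit 848)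
 (nat_lit 549755953184) (.ev (nat_lit 1712) (nat_lit 274877907008) .dd))) (.br (nat_lit 4) (.ch (nat_lit 1)
 (.ev (nat_lit 848) (nat_lit 824633720896) (.ev (nat_lit 964) (nat_lit 131072) (.ev (nat_lit 1652) (nat_lit 32)
 (.ev (nat_lit 1661) (nat_lit 8192) .dd))))) (.ch (nat_lit 4) (.ev (nat_lit 848) (nat_lit 274878046208) (.ev
 (nat_lit 1332) (nat_lit 32) (.ev (nat_lit 2276) (nat_lit 549755813888) (.ev (nat_lit 2285) (nat_lit 64)
 .dd))))))) (.br (nat_lit 11) (.br (nat_lit 8) (.ch (nat_lit 6) (.ev (nat_lit 848) (nat_lit 824633860192) .dd))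
 (.ch (nat_lit 8) (.ev (nat_lit 848) (nat_lit 549755813984) (.ev (nat_lit 1568) (nat_lit 8192) (.ev (nat_lit
 2576) (nat_lit 274877906944) (.ev (nat_lit 2589) (nat_lit 131072) .dd)))))) (.br (nat_lit 12) (.ch (nat_lit
 11) (.ev (nat_lit 848) (nat_lit 824633851904) (.ev (nat_lit 1172) (nat_lit 32) (.ev (nat_lit 1332) (nat_lit
 8192) (.ev (nat_lit 1341) (nat_lit 64) .dd))))) (.ch (nat_lit 12) (.ev (nat_lit 848) (nat_lit 274877915232)
 (.ev (nat_lit 1712) (nat_lit 549755944960) .dd)))))))))))) (.ch (nat_lit 25) (.ev (nat_lit 52) (nat_lit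
 79456895264) (.ev (nat_lit 212) (nat_lit 4194304) (.ev (nat_lit 532) (nat_lit 8192) (.ev (nat_lit 768)
 (nat_lit 131072) (.nd (nat_lit 832) (.br (nat_lit 6) (.br (nat_lit 4) (.ch (nat_lit 0) (.ev (nat_lit 848)
 (nat_lit 585258501824) (.ev (nat_lit 2150) (nat_lit 274877911040) .dd))) (.ch (nat_lit 4) (.ev (nat_lit 848)
 (nat_lit 824635822208) (.ev (nat_lit 1600) (nat_lit 512) (.ev (nat_lit 3024) (nat_lit 1073742848) (.ev
 (nat_lit 3040) (nat_lit 67108864) (.fin (nat_lit 576462401572389440)))))))) (.br (nat_lit 8) (.ch (nat_lit 6)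
 (.ev (nat_lit 848) (nat_lit 310313490112) (.ev (nat_lit 2742) (nat_lit 549822922752) .dd))) (.br (nat_lit 12)
 (.ch (nat_lit 8) (.ev (nat_lit 848) (nat_lit 310313489600) (.ev (nat_lit 1124) (nat_lit 549755813888) (.ev
 (nat_lit 1664) (nat_lit 67109376) .dd)))) (.ch (nat_lit 12) (.ev (nat_lit 848) (nat_lit 310378501184) (.ev
 (nat_lit 1588) (nat_lit 2097152) (.ev (nat_lit 2884) (nat_lit 549755813888) (.ev (nat_lit 3008) (nat_lit 512)
 (.ev (nat_lit 3021) (nat_lit 128) .dd)))))))))))))))))) (.br (nat_lit 30) (.br (nat_lit 27) (.ch (nat_lit 26)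
 (.ev (nat_lit 52) (nat_lit 317827588608) (.ev (nat_lit 180) (nat_lit 549755813888) (.ev (nat_lit 276) (nat_lit
 2147483648) (.ev (nat_lit 308) (nat_lit 256) (.ev (nat_lit 564) (nat_lit 32) (.ev (nat_lit 740) (nat_lit 4096)
 (.nd (nat_lit 832) (.br (nat_lit 6) (.br (nat_lit 4) (.ch (nat_lit 0) (.ev (nat_lit 848) (nat_lit 69795447936)
 (.ev (nat_lit 1392) (nat_lit 67108864) (.ev (nat_lit 1632) (nat_lit 4194304) (.ev (nat_lit 1645) (nat_lit 64)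
 .dd))))) (.br (nat_lit 5) (.ch (nat_lit 4) (.ev (nat_lit 848) (nat_lit 6423744) (.ev (nat_lit 3056) (nat_lit
 68719476736) (.fin (nat_lit 576506382068957781))))) (.ch (nat_lit 5) (.ev (nat_lit 848) (nat_lit 68725769280)
 (.ev (nat_lit 1044) (nat_lit 67108864) (.ev (nat_lit 2054) (nat_lit 1073741952) (.ev (nat_lit 2061) (nat_lit
 131072) .dd))))))) (.br (nat_lit 9) (.ch (nat_lit 6) (.ev (nat_lit 848) (nat_lit 69793350848) (.ev (nat_lit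
 1652) (nat_lit 67108864) (.ev (nat_lit 2288) (nat_lit 6291456) .dd)))) (.br (nat_lit 11) (.ch (nat_lit 9) (.ev
 (nat_lit 848) (nat_lit 69860327552) (.ev (nat_lit 2676) (nat_lit 2097152) (.ev (nat_lit 2964) (nat_lit 131072)
 (.ev (nat_lit 3328) (nat_lit 64) (.fin (nat_lit 576461302078587464))))))) (.ch (nat_lit 11) (.ev (nat_lit 848)
 (nat_lit 68793008128) (.ev (nat_lit 3188) (nat_lit 1024) (.ev (nat_lit 3460) (nat_lit 128) (.nd (nat_lit 4000)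
 (.br (nat_lit 2) (.ch (nat_lit 1) (.ev (nat_lit 4016) (nat_lit 1073741888) .dd)) (.ch (nat_lit 2) (.nd
 (nat_lit 4257) (.ch (nat_lit 19) (.nd (nat_lit 4528) (.br (nat_lit 10) (.ch (nat_lit 3) (.ev (nat_lit 4544)
 (nat_lit 1073741824) (.ev (nat_lit 4557) (nat_lit 64) .dd))) (.ch (nat_lit 10) (.fin (nat_lit
 576445908882244143))))))))))))))))))))))))) (.br (nat_lit 29) (.ch (nat_lit 27) (.ev (nat_lit 52) (nat_lit
 70871286336) (.ev (nat_lit 84) (nat_lit 128) (.ev (nat_lit 212) (nat_lit 8192) (.ev (nat_lit 372) (nat_lit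
 549755813888) (.ev (nat_lit 404) (nat_lit 32) (.ev (nat_lit 564) (nat_lit 2097152) (.ev (nat_lit 596) (nat_lit
 4096) (.ev (nat_lit 628) (nat_lit 8589934592) (.nd (nat_lit 832) (.br (nat_lit 8) (.br (nat_lit 6) (.ch
 (nat_lit 5) (.ev (nat_lit 848) (nat_lit 256) (.ev (nat_lit 1652) (nat_lit 34359738368) (.ev (nat_lit 1680)
 (nat_lit 67108864) (.ev (nat_lit 2068) (nat_lit 1073741824) (.ev (nat_lit 2448) (nat_lit 274877906944) (.ev
 (nat_lit 2461) (nat_lit 1024) .dd))))))) (.ch (nat_lit 6) (.ev (nat_lit 848) (nat_lit 274945016832) (.ev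
 (nat_lit 3360) (nat_lit 34359738368) (.fin (nat_lit 576482192792175227)))))) (.br (nat_lit 12) (.ch (nat_lit
 8) (.ev (nat_lit 848) (nat_lit 35433481472) (.ev (nat_lit 2244) (nat_lit 274877906944) (.ev (nat_lit 2253)
 (nat_lit 67108864) .dd)))) (.ch (nat_lit 12) (.ev (nat_lit 848) (nat_lit 274945017088) (.nd (nat_lit 3824)
 (.ch (nat_lit 1) (.nd (nat_lit 4273) (.br (nat_lit 15) (.ch (nat_lit 2) (.nd (nat_lit 4560) (.br (nat_lit 10)
 (.ch (nat_lit 5) (.fin (nat_lit 576443709869474345))) (.ch (nat_lit 10) (.ev (nat_lit 4576) (nat_lit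
 1073741824) (.ev (nat_lit 4589) (nat_lit 34359738368) .dd)))))) (.ch (nat_lit 15) (.ev (nat_lit 4289) (nat_lit
 1073741824) (.ev (nat_lit 4301) (nat_lit 34359738368) .dd))))))))))))))))))))) (.ch (nat_lit 29) (.ev (nat_lit
 52) (nat_lit 560566633792) (.ev (nat_lit 148) (nat_lit 128) (.ev (nat_lit 436) (nat_lit 512) (.ev (nat_lit
 468) (nat_lit 1073741824) (.ev (nat_lit 628) (nat_lit 4096) (.nd (nat_lit 832) (.br (nat_lit 6) (.br (nat_lit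
 1) (.ch (nat_lit 0) (.ev (nat_lit 848) (nat_lit 309237776384) (.ev (nat_lit 1492) (nat_lit 32) (.ev (nat_lit
 1632) (nat_lit 68719476736) (.ev (nat_lit 1645) (nat_lit 8192) .dd))))) (.br (nat_lit 5) (.ch (nat_lit 1) (.ev
 (nat_lit 848) (nat_lit 377957122048) (.ev (nat_lit 1252) (nat_lit 32) (.ev (nat_lit 1652) (nat_lit 8192) (.ev
 (nat_lit 1661) (nat_lit 131072) .dd))))) (.ch (nat_lit 5) (.ev (nat_lit 848) (nat_lit 274878038048) (.ev
 (nat_lit 868) (nat_lit 8192) (.ev (nat_lit 2676) (nat_lit 34359738368) (.ev (nat_lit 2685) (nat_lit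
 68719476736) .dd))))))) (.br (nat_lit 8) (.ch (nat_lit 6) (.ev (nat_lit 848) (nat_lit 274878046208) (.ev
 (nat_lit 1700) (nat_lit 32) (.ev (nat_lit 2244) (nat_lit 34359738368) (.ev (nat_lit 2253) (nat_lit
 68719476736) .dd))))) (.br (nat_lit 9) (.ch (nat_lit 8) (.ev (nat_lit 848) (nat_lit 103079215136) (.ev
 (nat_lit 1252) (nat_lit 8192) (.ev (nat_lit 2192) (nat_lit 274877906944) (.ev (nat_lit 2205) (nat_lit 131072)
 .dd))))) (.ch (nat_lit 9) (.ev (nat_lit 848) (nat_lit 103079223296) (.ev (nat_lit 868) (nat_lit 32) (.ev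
 (nat_lit 2340) (nat_lit 131072) (.ev (nat_lit 2349) (nat_lit 274877906944) .dd))))))))))))))))) (.br (nat_lit
 35) (.br (nat_lit 33) (.ch (nat_lit 30) (.ev (nat_lit 52) (nat_lit 311385260704) (.ev (nat_lit 148) (nat_lit
 68719476736) (.nd (nat_lit 832) (.br (nat_lit 6) (.br (nat_lit 4) (.br (nat_lit 1) (.ch (nat_lit 0) (.ev
 (nat_lit 848) (nat_lit 550902957056) (.ev (nat_lit 1600) (nat_lit 4096) (.ev (nat_lit 1888) (nat_lit
 8589934592) (.ev (nat_lit 1984) (nat_lit 8192) (.ev (nat_lit 2628) (nat_lit 256) (.ev (nat_lit 2637) (nat_lit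
 64) .dd))))))) (.ch (nat_lit 1) (.ev (nat_lit 848) (nat_lit 550898775104) (.ev (nat_lit 934) (nat_lit
 8594128896) (.ev (nat_lit 941) (nat_lit 256) .dd))))) (.br (nat_lit 5) (.ch (nat_lit 4) (.ev (nat_lit 848)
 (nat_lit 550902964480) (.ev (nat_lit 1664) (nat_lit 1024) (.ev (nat_lit 1840) (nat_lit 8589934592) (.ev
 (nat_lit 2640) (nat_lit 4160) .dd))))) (.ch (nat_lit 5) (.ev (nat_lit 848) (nat_lit 9737078080) (.ev (nat_lit
 868) (nat_lit 8192) (.ev (nat_lit 1616) (nat_lit 4096) (.ev (nat_lit 1629) (nat_lit 549755813888) .dd)))))))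
 (.br (nat_lit 11) (.br (nat_lit 8) (.ch (nat_lit 6) (.ev (nat_lit 848) (nat_lit 9663685696) (.ev (nat_lit 868)
 (nat_lit 67109120) (.ev (nat_lit 2656) (nat_lit 2097152) (.ev (nat_lit 2836) (nat_lit 4194304) (.nd (nat_lit
 3680) (.br (nat_lit 4) (.ch (nat_lit 0) (.fin (nat_lit 576466799618900492))) (.ch (nat_lit 4) (.ev (nat_lit
 3696) (nat_lit 549755817984) .dd))))))))) (.ch (nat_lit 8) (.ev (nat_lit 848) (nat_lit 9669981504) (.ev
 (nat_lit 1456) (nat_lit 549755813888) (.ev (nat_lit 1469) (nat_lit 67108864) .dd))))) (.br (nat_lit 12) (.ch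
 (nat_lit 11) (.ev (nat_lit 848) (nat_lit 558349955328) (.ev (nat_lit 868) (nat_lit 64) (.ev (nat_lit 1872)
 (nat_lit 67108864) (.ev (nat_lit 3348) (nat_lit 1024) (.fin (nat_lit 576447008367657495))))))) (.ch (nat_lit
 12) (.ev (nat_lit 848) (nat_lit 8663348544) (.ev (nat_lit 1030) (nat_lit 550829555712) .dd)))))))))) (.ch
 (nat_lit 33) (.ev (nat_lit 52) (nat_lit 663578879232) (.ev (nat_lit 180) (nat_lit 67108864) (.ev (nat_lit 244)
 (nat_lit 512) (.ev (nat_lit 468) (nat_lit 64) (.nd (nat_lit 832) (.br (nat_lit 6) (.br (nat_lit 1) (.ch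
 (nat_lit 0) (.ev (nat_lit 848) (nat_lit 275951653024) .dd)) (.ch (nat_lit 1) (.ev (nat_lit 848) (nat_lit
 1073741952) (.ev (nat_lit 1652) (nat_lit 274877906944) (.ev (nat_lit 3040) (nat_lit 4128) .dd))))) (.br
 (nat_lit 11) (.ch (nat_lit 6) (.ev (nat_lit 848) (nat_lit 275951652992) (.ev (nat_lit 861) (nat_lit 32) .dd)))
 (.br (nat_lit 12) (.ch (nat_lit 11) (.ev (nat_lit 848) (nat_lit 274877911040) (.ev (nat_lit 1044) (nat_lit
 1073741824) (.ev (nat_lit 1204) (nat_lit 128) (.ev (nat_lit 1213) (nat_lit 32) .dd))))) (.ch (nat_lit 12) (.ev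
 (nat_lit 848) (nat_lit 274877911072) (.fin (nat_lit 576409625014256153)))))))))))))) (.br (nat_lit 36) (.ch
 (nat_lit 35) (.ev (nat_lit 52) (nat_lit 930934169600) (.ev (nat_lit 96) (nat_lit 8663472096) .dd))) (.ch
 (nat_lit 36) (.ev (nat_lit 52) (nat_lit 2151686176) (.ev (nat_lit 148) (nat_lit 549755813888) (.ev (nat_lit
 436) (nat_lit 2097152) (.ev (nat_lit 500) (nat_lit 4096) (.ev (nat_lit 752) (nat_lit 68719476736) (.nd
 (nat_lit 832) (.br (nat_lit 4) (.br (nat_lit 1) (.ch (nat_lit 0) (.ev (nat_lit 848) (nat_lit 44090656448) (.ev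
 (nat_lit 2934) (nat_lit 256) (.ev (nat_lit 2941) (nat_lit 274877906944) .dd)))) (.ch (nat_lit 1) (.ev (nat_lit
 848) (nat_lit 43016914240) (.ev (nat_lit 1280) (nat_lit 512) (.ev (nat_lit 1524) (nat_lit 128) (.ev (nat_lit
 2084) (nat_lit 274877906944) (.ev (nat_lit 2093) (nat_lit 1073741824) .dd))))))) (.br (nat_lit 9) (.ch
 (nat_lit 4) (.ev (nat_lit 848) (nat_lit 283467973248) (.ev (nat_lit 1296) (nat_lit 1024) (.ev (nat_lit 1312)
 (nat_lit 256) (.ev (nat_lit 1536) (nat_lit 1073741824) (.ev (nat_lit 2096) (nat_lit 67108864) (.fin (nat_lit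
 576462401572389440)))))))) (.br (nat_lit 12) (.ch (nat_lit 9) (.ev (nat_lit 848) (nat_lit 43016914624) (.ev
 (nat_lit 1616) (nat_lit 274877906944) (.ev (nat_lit 1664) (nat_lit 1073742080) .dd)))) (.ch (nat_lit 12) (.ev
 (nat_lit 848) (nat_lit 310378497984) (.ev (nat_lit 1766) (nat_lit 131072) (.ev (nat_lit 1773) (nat_lit
 8589934592) .dd)))))))))))))))))))))

/-- The trie. -/
noncomputable def T : Tr := .nd (nat_lit 1000000) (.br (nat_lit 3) (.br (nat_lit 1) (.ch (nat_lit 0) (.ev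
 (nat_lit 0) (nat_lit 8796093022207) .dd)) (.br (nat_lit 2) (.ch (nat_lit 1) (.ev (nat_lit 0) (nat_lit
 8796093022207) .dd)) (.ch (nat_lit 2) T2))) (.br (nat_lit 4) (.ch (nat_lit 3) (.ev (nat_lit 0) (nat_lit
 8796093022207) .dd)) (.br (nat_lit 5) (.ch (nat_lit 4) T4) (.ch (nat_lit 5) T5))))

/-- The possible values. -/
noncomputable def oks : List ℕ := [3, 706, 1140, 6003]

/-- The parameters. -/
noncomputable def S : Pr := ⟨fun i l e => lget mz (lget [] (lget [] tabs i) l) e, oks, [(nat_lit 0), (nat_lit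
 1), (nat_lit 0), (nat_lit 0), (nat_lit 1), (nat_lit 0)], T, (nat_lit 8796093022207), (nat_lit 3303796230157),
 (nat_lit 43), [(nat_lit 11), (nat_lit 23899161165)], [(nat_lit 4826809), (nat_lit 1874161)]⟩

/-- Nothing known. -/
noncomputable def cs0 : Cs := (.cons (nat_lit 13) (nat_lit 0) (nat_lit 1) (.cons (nat_lit 37) (nat_lit 0) (nat_lit 1) .nil))

theorem part_2 : part S cs0 (nat_lit 2) = true := by decide +kernel

theorem part_4 : part S cs0 (nat_lit 4) = true := by decide +kernel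

theorem part_5 : part S cs0 (nat_lit 5) = true := by decide +kernel

/-- Data of a prime. -/
noncomputable def D0 : PD := ⟨(nat_lit 13), (nat_lit 6), (2731834, 6, 3), (3031204, 4036787, 560186), (3718172, 4072320, 1281671)⟩

theorem D0_ok : D0.Ok := pdb_sound (s := 2) (C := ⟨⟨3, 18, -4, -17, 2, 1, 2, -1, -7⟩, (3, 9, 2)⟩) (by show Nat.Prime 13; norm_num) (by decide +kernel)

/-- Lines of the first type. -/
noncomputable def Cl0 : List C1 := [⟨⟨17, -2, -16, 3, 18, 1, -2, 1, -5⟩, (10, 1, 8)⟩,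
  ⟨⟨3, -18, -4, -17, -2, 1, 2, 1, -7⟩, (5, 2, 12)⟩,
  ⟨⟨0, 0, 0, 0, 0, 0, 0, 0, 0⟩, (0, 0, 0)⟩,
  ⟨⟨17, 2, -16, 3, -18, 1, -2, -1, -5⟩, (8, 6, 9)⟩,
  ⟨⟨0, 0, 0, 0, 0, 0, 0, 0, 0⟩, (0, 0, 0)⟩,
  ⟨⟨0, 0, 0, 0, 0, 0, 0, 0, 0⟩, (0, 0, 0)⟩,
  ⟨⟨0, 0, 0, 0, 0, 0, 0, 0, 0⟩, (0, 0, 0)⟩,
  ⟨⟨0, 0, 0, 0, 0, 0, 0, 0, 0⟩, (0, 0, 0)⟩,
  ⟨⟨0, 0, 0, 0, 0, 0, 0, 0, 0⟩, (0, 0, 0)⟩,
  ⟨⟨0, 0, 0, 0, 0, 0, 0, 0, 0⟩, (0, 0, 0)⟩,
  ⟨⟨0, 0, 0, 0, 0, 0, 0, 0, 0⟩, (0, 0, 0)⟩,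
  ⟨⟨0, 0, 0, 0, 0, 0, 0, 0, 0⟩, (0, 0, 0)⟩,
  ⟨⟨0, 0, 0, 0, 0, 0, 0, 0, 0⟩, (0, 0, 0)⟩]

/-- Data of a prime. -/
noncomputable def D1 : PD := ⟨(nat_lit 37), (nat_lit 4), (1164206, 16, 5), (290098, 1020852, 1005947), (112988, 1391410, 1055966)⟩

theorem D1_ok : D1.Ok := pdb_sound (s := 2) (C := ⟨⟨43, 22, -44, 23, -2, 41, 6, -15, -7⟩, (6, 23, 6)⟩) (by show Nat.Prime 37; norm_num) (by decide +kernel)

/-- Lines of the first type. -/
noncomputable def Cl1 : List C1 := [⟨⟨23, -2, -64, 43, 22, 1, -6, 15, -1⟩, (31, 29, 8)⟩,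
  ⟨⟨0, 0, 0, 0, 0, 0, 0, 0, 0⟩, (0, 0, 0)⟩,
  ⟨⟨-7, 22, -49, 27, 42, 4, 14, -7, -13⟩, (1, 12, 35)⟩,
  ⟨⟨-13, 38, -31, -47, -22, 16, 6, -9, -17⟩, (20, 4, 5)⟩,
  ⟨⟨0, 0, 0, 0, 0, 0, 0, 0, 0⟩, (0, 0, 0)⟩,
  ⟨⟨0, 0, 0, 0, 0, 0, 0, 0, 0⟩, (0, 0, 0)⟩,
  ⟨⟨7, 22, -56, -27, 42, 31, 14, 7, -1⟩, (18, 31, 36)⟩,
  ⟨⟨0, 0, 0, 0, 0, 0, 0, 0, 0⟩, (0, 0, 0)⟩,
  ⟨⟨0, 0, 0, 0, 0, 0, 0, 0, 0⟩, (0, 0, 0)⟩,
  ⟨⟨13, -38, -44, -47, -22, 31, -6, 9, -11⟩, (18, 26, 23)⟩,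
  ⟨⟨0, 0, 0, 0, 0, 0, 0, 0, 0⟩, (0, 0, 0)⟩,
  ⟨⟨0, 0, 0, 0, 0, 0, 0, 0, 0⟩, (0, 0, 0)⟩,
  ⟨⟨0, 0, 0, 0, 0, 0, 0, 0, 0⟩, (0, 0, 0)⟩,
  ⟨⟨0, 0, 0, 0, 0, 0, 0, 0, 0⟩, (0, 0, 0)⟩,
  ⟨⟨13, 38, -44, -47, 22, 31, -6, -9, -11⟩, (4, 14, 1)⟩,
  ⟨⟨0, 0, 0, 0, 0, 0, 0, 0, 0⟩, (0, 0, 0)⟩,
  ⟨⟨0, 0, 0, 0, 0, 0, 0, 0, 0⟩, (0, 0, 0)⟩,
  ⟨⟨0, 0, 0, 0, 0, 0, 0, 0, 0⟩, (0, 0, 0)⟩,
  ⟨⟨0, 0, 0, 0, 0, 0, 0, 0, 0⟩, (0, 0, 0)⟩,
  ⟨⟨0, 0, 0, 0, 0, 0, 0, 0, 0⟩, (0, 0, 0)⟩,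
  ⟨⟨0, 0, 0, 0, 0, 0, 0, 0, 0⟩, (0, 0, 0)⟩,
  ⟨⟨0, 0, 0, 0, 0, 0, 0, 0, 0⟩, (0, 0, 0)⟩,
  ⟨⟨0, 0, 0, 0, 0, 0, 0, 0, 0⟩, (0, 0, 0)⟩,
  ⟨⟨-7, -22, -49, 27, -42, 4, 14, 7, -13⟩, (13, 8, 11)⟩,
  ⟨⟨0, 0, 0, 0, 0, 0, 0, 0, 0⟩, (0, 0, 0)⟩,
  ⟨⟨0, 0, 0, 0, 0, 0, 0, 0, 0⟩, (0, 0, 0)⟩,
  ⟨⟨0, 0, 0, 0, 0, 0, 0, 0, 0⟩, (0, 0, 0)⟩,
  ⟨⟨0, 0, 0, 0, 0, 0, 0, 0, 0⟩, (0, 0, 0)⟩,
  ⟨⟨23, 2, -64, 43, -22, 1, -6, -15, -1⟩, (3, 4, 33)⟩,
  ⟨⟨0, 0, 0, 0, 0, 0, 0, 0, 0⟩, (0, 0, 0)⟩,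
  ⟨⟨0, 0, 0, 0, 0, 0, 0, 0, 0⟩, (0, 0, 0)⟩,
  ⟨⟨-13, -38, -31, -47, 22, 16, 6, 9, -17⟩, (34, 29, 27)⟩,
  ⟨⟨7, -22, -56, -27, -42, 31, 14, -7, -1⟩, (30, 27, 23)⟩,
  ⟨⟨0, 0, 0, 0, 0, 0, 0, 0, 0⟩, (0, 0, 0)⟩,
  ⟨⟨43, -22, -44, 23, 2, 41, 6, 15, -7⟩, (12, 9, 12)⟩,
  ⟨⟨0, 0, 0, 0, 0, 0, 0, 0, 0⟩, (0, 0, 0)⟩,
  ⟨⟨0, 0, 0, 0, 0, 0, 0, 0, 0⟩, (0, 0, 0)⟩]

/-- Data of a prime. -/
noncomputable def Dm : PD := ⟨(nat_lit 43), (nat_lit 2), (989, 1, 17), (1652, 774, 636), (172, 5, 130)⟩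

theorem Dm_ok : Dm.Ok := pdb_sound (s := 1) (C := ⟨⟨43, -38, -44, 43, 38, 1, 0, 9, -19⟩, (5, 38, 9)⟩) (by show Nat.Prime 43; norm_num) (by decide +kernel)

/-- Lines of the first type. -/
noncomputable def Clm : List C1 := [⟨⟨43, 38, -44, 43, -38, 1, 0, -9, -19⟩, (42, 1, 24)⟩,
  ⟨⟨0, 0, 0, 0, 0, 0, 0, 0, 0⟩, (0, 0, 0)⟩,
  ⟨⟨57, -18, -16, -17, -58, 1, 4, 1, -23⟩, (41, 27, 24)⟩,
  ⟨⟨7, -38, -56, -33, -42, 49, -16, 7, -1⟩, (28, 40, 22)⟩,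
  ⟨⟨0, 0, 0, 0, 0, 0, 0, 0, 0⟩, (0, 0, 0)⟩,
  ⟨⟨0, 0, 0, 0, 0, 0, 0, 0, 0⟩, (0, 0, 0)⟩,
  ⟨⟨0, 0, 0, 0, 0, 0, 0, 0, 0⟩, (0, 0, 0)⟩,
  ⟨⟨0, 0, 0, 0, 0, 0, 0, 0, 0⟩, (0, 0, 0)⟩,
  ⟨⟨0, 0, 0, 0, 0, 0, 0, 0, 0⟩, (0, 0, 0)⟩,
  ⟨⟨0, 0, 0, 0, 0, 0, 0, 0, 0⟩, (0, 0, 0)⟩,
  ⟨⟨0, 0, 0, 0, 0, 0, 0, 0, 0⟩, (0, 0, 0)⟩,
  ⟨⟨27, -18, -71, -53, -22, 4, -4, 17, -7⟩, (6, 36, 23)⟩,
  ⟨⟨0, 0, 0, 0, 0, 0, 0, 0, 0⟩, (0, 0, 0)⟩,
  ⟨⟨0, 0, 0, 0, 0, 0, 0, 0, 0⟩, (0, 0, 0)⟩,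
  ⟨⟨-7, -2, -64, -47, -38, 31, 12, -15, -7⟩, (37, 15, 41)⟩,
  ⟨⟨-7, 2, -64, -47, 38, 31, 12, 15, -7⟩, (3, 14, 1)⟩,
  ⟨⟨-7, 38, -49, 33, 42, 16, 16, -7, -17⟩, (27, 14, 12)⟩,
  ⟨⟨0, 0, 0, 0, 0, 0, 0, 0, 0⟩, (0, 0, 0)⟩,
  ⟨⟨0, 0, 0, 0, 0, 0, 0, 0, 0⟩, (0, 0, 0)⟩,
  ⟨⟨57, 18, -16, -17, 58, 1, 4, -1, -23⟩, (36, 30, 41)⟩,
  ⟨⟨53, 22, -49, 27, -18, 44, 4, -17, -11⟩, (6, 42, 11)⟩,
  ⟨⟨0, 0, 0, 0, 0, 0, 0, 0, 0⟩, (0, 0, 0)⟩,
  ⟨⟨0, 0, 0, 0, 0, 0, 0, 0, 0⟩, (0, 0, 0)⟩,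
  ⟨⟨27, 18, -71, -53, 22, 4, -4, -17, -7⟩, (1, 6, 11)⟩,
  ⟨⟨57, -18, -41, -17, -58, 16, -4, -1, -19⟩, (7, 13, 41)⟩,
  ⟨⟨0, 0, 0, 0, 0, 0, 0, 0, 0⟩, (0, 0, 0)⟩,
  ⟨⟨0, 0, 0, 0, 0, 0, 0, 0, 0⟩, (0, 0, 0)⟩,
  ⟨⟨7, 38, -56, -33, 42, 49, -16, -7, -1⟩, (27, 14, 12)⟩,
  ⟨⟨7, 2, -71, -47, -38, 16, 12, -15, -5⟩, (3, 29, 42)⟩,
  ⟨⟨7, -2, -71, -47, 38, 16, 12, 15, -5⟩, (37, 28, 2)⟩,
  ⟨⟨0, 0, 0, 0, 0, 0, 0, 0, 0⟩, (0, 0, 0)⟩,
  ⟨⟨0, 0, 0, 0, 0, 0, 0, 0, 0⟩, (0, 0, 0)⟩,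
  ⟨⟨53, -22, -49, 27, 18, 44, 4, 17, -11⟩, (36, 37, 23)⟩,
  ⟨⟨0, 0, 0, 0, 0, 0, 0, 0, 0⟩, (0, 0, 0)⟩,
  ⟨⟨0, 0, 0, 0, 0, 0, 0, 0, 0⟩, (0, 0, 0)⟩,
  ⟨⟨0, 0, 0, 0, 0, 0, 0, 0, 0⟩, (0, 0, 0)⟩,
  ⟨⟨0, 0, 0, 0, 0, 0, 0, 0, 0⟩, (0, 0, 0)⟩,
  ⟨⟨0, 0, 0, 0, 0, 0, 0, 0, 0⟩, (0, 0, 0)⟩,
  ⟨⟨0, 0, 0, 0, 0, 0, 0, 0, 0⟩, (0, 0, 0)⟩,
  ⟨⟨0, 0, 0, 0, 0, 0, 0, 0, 0⟩, (0, 0, 0)⟩,
  ⟨⟨-7, -38, -49, 33, -42, 16, 16, 7, -17⟩, (28, 40, 22)⟩,
  ⟨⟨57, 18, -41, -17, 58, 16, -4, 1, -19⟩, (2, 16, 24)⟩,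
  ⟨⟨0, 0, 0, 0, 0, 0, 0, 0, 0⟩, (0, 0, 0)⟩]

/-- Unit moves. -/
noncomputable def U : List Mv := [mz,
  mz,
  mz,
  mz,
  mz,
  mz,
  ⟨⟨-1, 0, 1, 0, 1, 0, 0, 0, 1⟩, .nil, (nat_lit 12), (nat_lit 1), (nat_lit 4), (nat_lit 1), (0, 0, 0), [], 5⟩,
  ⟨⟨1, 0, 0, 0, -1, 0, 0, 0, 1⟩, .nil, (nat_lit 12), (nat_lit 3), (nat_lit 12), (nat_lit 1), (0, 0, 0), [], 11⟩,
  ⟨⟨-1, 0, 1, 0, -1, 0, 0, 0, 1⟩, .nil, (nat_lit 0), (nat_lit 3), (nat_lit 1), (nat_lit 0), (0, 0, 0), [], 10⟩,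
  ⟨⟨1, 0, 0, 0, -1, 0, 0, 0, 1⟩, .nil, (nat_lit 12), (nat_lit 3), (nat_lit 12), (nat_lit 1), (0, 0, 0), [], 11⟩,
  ⟨⟨-1, 0, 1, 0, 1, 0, 0, 0, 1⟩, .nil, (nat_lit 12), (nat_lit 1), (nat_lit 4), (nat_lit 1), (0, 0, 0), [], 5⟩,
  ⟨⟨-1, 0, 1, 0, -1, 0, 0, 0, 1⟩, .nil, (nat_lit 0), (nat_lit 3), (nat_lit 1), (nat_lit 0), (0, 0, 0), [], 10⟩,
  ⟨⟨1, 0, 0, 0, -1, 0, 0, 0, 1⟩, .nil, (nat_lit 12), (nat_lit 3), (nat_lit 12), (nat_lit 1), (0, 0, 0), [], 11⟩]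

theorem v_ty : tyb Dm S.ty1 Clm = true := by decide +kernel

theorem v_ty0 : tyb D0 (S.tys.getD 0 0) Cl0 = true := by decide +kernel

theorem v_ty1 : tyb D1 (S.tys.getD 1 0) Cl1 = true := by decide +kernel

theorem v_msc : mscb S D0 [D1] Dm (nat_lit 52) = true := by decide +kernel

theorem v_mv0 : mvsn (nat_lit 16726455569978401) S D0 [D1] Dm (nat_lit 52) 0 D0 = true := by decide +kernel

theorem v_mv1 : mvsn (nat_lit 16726455569978401) S D0 [D1] Dm (nat_lit 52) 1 D1 = true := by decide +kernel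

theorem v_mm : mmsn (nat_lit 16726455569978401) S D0 [D1] Dm (nat_lit 52) = true := by decide +kernel

theorem v_un : unb S D0 (nat_lit 52) U = true := by decide +kernel

theorem v_ok : okb S.oks [(0, 0, 0), (0, 0, 0), (0, 0, 0), (8, 77, 1)] = true := by decide +kernel

theorem v_part : ∀ d < D0.p, (nat_lit 52).testBit d = true → part S (zc (D0 :: [D1])) d = true := by
  intro d hd h
  have h1 : ∀ d < 13, (nat_lit 52).testBit d = true → d = 2 ∨ d = 4 ∨ d = 5 := by decide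
  rcases h1 d hd h with rfl | rfl | rfl
  · exact part_2
  · exact part_4
  · exact part_5

theorem main (n : ℕ) (ho : Odd n) (hr : ¬ Rep n) (h0 : Split 13 n) (h1 : Split 37 n) (hm : Split 43 n) :
    n ∈ EE := by
  refine concln (W := nat_lit 16726455569978401) (S := S) (P0 := D0) (Pl := [D1]) (Pm := Dm) (cn := nat_lit 52) ?_ Dm_ok v_ty ?_ ?_ v_msc ?_ v_mm v_un v_part v_ok
    n ho hr ?_ hm
  · simp only [List.forall_mem_cons]
    exact ⟨D0_ok, D1_ok, fun _ h => absurd h (by simp)⟩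
  · exact all2 (φ := fun j P => ∃ L, tyb P (S.tys.getD j 0) L = true) ⟨_, v_ty0⟩ ⟨_, v_ty1⟩
  · exact all2 (φ := fun j P => Nat.ble (S.pks.getD j 0) (Nat.pow P.p P.K) = true) (by decide +kernel) (by decide +kernel)
  · exact all2 (φ := fun i P => mvsn (nat_lit 16726455569978401) S D0 [D1] Dm (nat_lit 52) i P = true) v_mv0 v_mv1
  · simp only [List.forall_mem_cons]
    exact ⟨h0, h1, fun _ h => absurd h (by simp)⟩

end Pool.Agent.Work.MP_9954fe_nt.P13_37_43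

namespace Pool.Agent.Work.MP_9954fe_nt.P17_47

/-- Dummy move. -/
noncomputable def mz : Mv := ⟨⟨0, 0, 0, 0, 0, 0, 0, 0, 0⟩, .nil, (nat_lit 0), (nat_lit 0), (nat_lit 0), (nat_lit 0), (0, 0, 0), [], 0⟩

/-- Moves. -/
noncomputable def t0_3 : List Mv := [
  ⟨⟨13, -12, 0, -10, -13, 0, 10, -4, -17⟩, (.cons (nat_lit 21166033) (nat_lit 6056983) (nat_lit 7055350) (nat_lit 1) .nil), (nat_lit 46), (nat_lit 25), (nat_lit 4), (nat_lit 1), (15, 12, 5), [3817343], 22⟩,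
  ⟨⟨-3, 8, -17, -10, -13, 0, 10, -4, -17⟩, (.cons (nat_lit 10550802) (nat_lit 18770371) (nat_lit 9712546) (nat_lit 1) .nil), (nat_lit 1), (nat_lit 22), (nat_lit 4), (nat_lit 1), (7, 12, 5), [15625320], 22⟩,
  ⟨⟨13, -12, 0, -10, -13, 0, 10, -4, -17⟩, (.cons (nat_lit 21166033) (nat_lit 6056983) (nat_lit 7055350) (nat_lit 1) .nil), (nat_lit 46), (nat_lit 25), (nat_lit 4), (nat_lit 1), (15, 12, 5), [3817343], 22⟩,
  ⟨⟨13, -12, 0, -10, -13, 0, 10, -4, -17⟩, (.cons (nat_lit 21166033) (nat_lit 6056983) (nat_lit 7055350) (nat_lit 1) .nil), (nat_lit 46), (nat_lit 25), (nat_lit 4), (nat_lit 1), (15, 12, 5), [3817343], 22⟩,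
  ⟨⟨13, -12, 0, -10, -13, 0, 10, -4, -17⟩, (.cons (nat_lit 21166033) (nat_lit 6056983) (nat_lit 7055350) (nat_lit 1) .nil), (nat_lit 46), (nat_lit 25), (nat_lit 4), (nat_lit 1), (15, 12, 5), [3817343], 22⟩,
  ⟨⟨13, -12, 0, -10, -13, 0, 10, -4, -17⟩, (.cons (nat_lit 21166033) (nat_lit 6056983) (nat_lit 7055350) (nat_lit 1) .nil), (nat_lit 46), (nat_lit 25), (nat_lit 4), (nat_lit 1), (15, 12, 5), [3817343], 22⟩,
  ⟨⟨13, -12, 0, -10, -13, 0, 10, -4, -17⟩, (.cons (nat_lit 21166033) (nat_lit 6056983) (nat_lit 7055350) (nat_lit 1) .nil), (nat_lit 46), (nat_lit 25), (nat_lit 4), (nat_lit 1), (15, 12, 5), [3817343], 22⟩,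
  ⟨⟨-3, 8, -17, -10, -13, 0, 10, -4, -17⟩, (.cons (nat_lit 10550802) (nat_lit 18770371) (nat_lit 9712546) (nat_lit 1) .nil), (nat_lit 1), (nat_lit 22), (nat_lit 4), (nat_lit 1), (7, 12, 5), [15625320], 22⟩,
  ⟨⟨13, -12, 0, -10, -13, 0, 10, -4, -17⟩, (.cons (nat_lit 21166033) (nat_lit 6056983) (nat_lit 7055350) (nat_lit 1) .nil), (nat_lit 46), (nat_lit 25), (nat_lit 4), (nat_lit 1), (15, 12, 5), [3817343], 22⟩,
  ⟨⟨13, -12, 0, -10, -13, 0, 10, -4, -17⟩, (.cons (nat_lit 21166033) (nat_lit 6056983) (nat_lit 7055350) (nat_lit 1) .nil), (nat_lit 46), (nat_lit 25), (nat_lit 4), (nat_lit 1), (15, 12, 5), [3817343], 22⟩,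
  ⟨⟨13, -12, 0, -10, -13, 0, 10, -4, -17⟩, (.cons (nat_lit 21166033) (nat_lit 6056983) (nat_lit 7055350) (nat_lit 1) .nil), (nat_lit 46), (nat_lit 25), (nat_lit 4), (nat_lit 1), (15, 12, 5), [3817343], 22⟩,
  ⟨⟨13, -12, 0, -10, -13, 0, 10, -4, -17⟩, (.cons (nat_lit 21166033) (nat_lit 6056983) (nat_lit 7055350) (nat_lit 1) .nil), (nat_lit 46), (nat_lit 25), (nat_lit 4), (nat_lit 1), (15, 12, 5), [3817343], 22⟩,
  ⟨⟨13, -12, 0, 10, 13, 0, 10, -4, -17⟩, (.cons (nat_lit 111434) (nat_lit 10224314) (nat_lit 8284035) (nat_lit 1) .nil), (nat_lit 18), (nat_lit 28), (nat_lit 15), (nat_lit 1), (15, 5, 5), [14257539], 19⟩,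
  ⟨⟨13, -12, 0, 10, 13, 0, 10, -4, -17⟩, (.cons (nat_lit 111434) (nat_lit 10224314) (nat_lit 8284035) (nat_lit 1) .nil), (nat_lit 18), (nat_lit 28), (nat_lit 15), (nat_lit 1), (15, 5, 5), [14257539], 19⟩,
  ⟨⟨-3, 8, -17, 10, 13, 0, 10, -4, -17⟩, (.cons (nat_lit 14585888) (nat_lit 3606022) (nat_lit 12868590) (nat_lit 1) .nil), (nat_lit 29), (nat_lit 19), (nat_lit 15), (nat_lit 1), (7, 5, 5), [24064270], 19⟩,
  ⟨⟨13, -12, 0, 10, 13, 0, 10, -4, -17⟩, (.cons (nat_lit 111434) (nat_lit 10224314) (nat_lit 8284035) (nat_lit 1) .nil), (nat_lit 18), (nat_lit 28), (nat_lit 15), (nat_lit 1), (15, 5, 5), [14257539], 19⟩,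
  ⟨⟨-3, 8, -17, 10, 13, 0, 10, -4, -17⟩, (.cons (nat_lit 14585888) (nat_lit 3606022) (nat_lit 12868590) (nat_lit 1) .nil), (nat_lit 29), (nat_lit 19), (nat_lit 15), (nat_lit 1), (7, 5, 5), [24064270], 19⟩]

/-- Moves. -/
noncomputable def t0_7 : List Mv := [
  ⟨⟨15, -8, -16, 8, 15, -4, 0, 0, -17⟩, (.cons (nat_lit 11766583) (nat_lit 2885277) (nat_lit 454466) (nat_lit 1) .nil), (nat_lit 1), (nat_lit 25), (nat_lit 5), (nat_lit 1), (7, 6, 0), [23369712], 40⟩,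
  ⟨⟨-15, 8, -1, 8, 15, -4, 0, 0, -17⟩, (.cons (nat_lit 6943683) (nat_lit 23410621) (nat_lit 21681302) (nat_lit 1) .nil), (nat_lit 46), (nat_lit 22), (nat_lit 5), (nat_lit 1), (10, 6, 0), [5227342], 40⟩,
  ⟨⟨-15, 8, -1, 8, 15, -4, 0, 0, -17⟩, (.cons (nat_lit 6943683) (nat_lit 23410621) (nat_lit 21681302) (nat_lit 1) .nil), (nat_lit 46), (nat_lit 22), (nat_lit 5), (nat_lit 1), (10, 6, 0), [5227342], 40⟩,
  ⟨⟨15, -8, -16, 8, 15, -4, 0, 0, -17⟩, (.cons (nat_lit 11766583) (nat_lit 2885277) (nat_lit 454466) (nat_lit 1) .nil), (nat_lit 1), (nat_lit 25), (nat_lit 5), (nat_lit 1), (7, 6, 0), [23369712], 40⟩,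
  ⟨⟨15, -8, -16, 8, 15, -4, 0, 0, -17⟩, (.cons (nat_lit 11766583) (nat_lit 2885277) (nat_lit 454466) (nat_lit 1) .nil), (nat_lit 1), (nat_lit 25), (nat_lit 5), (nat_lit 1), (7, 6, 0), [23369712], 40⟩,
  ⟨⟨-15, 8, -1, -8, -15, 4, 0, 0, -17⟩, (.cons (nat_lit 7588434) (nat_lit 3540918) (nat_lit 17226043) (nat_lit 1) .nil), (nat_lit 1), (nat_lit 19), (nat_lit 32), (nat_lit 1), (10, 11, 0), [23350074], 26⟩,
  ⟨⟨15, -8, -16, 8, 15, -4, 0, 0, -17⟩, (.cons (nat_lit 11766583) (nat_lit 2885277) (nat_lit 454466) (nat_lit 1) .nil), (nat_lit 1), (nat_lit 25), (nat_lit 5), (nat_lit 1), (7, 6, 0), [23369712], 40⟩,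
  ⟨⟨15, -8, -16, 8, 15, -4, 0, 0, -17⟩, (.cons (nat_lit 11766583) (nat_lit 2885277) (nat_lit 454466) (nat_lit 1) .nil), (nat_lit 1), (nat_lit 25), (nat_lit 5), (nat_lit 1), (7, 6, 0), [23369712], 40⟩,
  ⟨⟨15, -8, -16, 8, 15, -4, 0, 0, -17⟩, (.cons (nat_lit 11766583) (nat_lit 2885277) (nat_lit 454466) (nat_lit 1) .nil), (nat_lit 1), (nat_lit 25), (nat_lit 5), (nat_lit 1), (7, 6, 0), [23369712], 40⟩,
  ⟨⟨15, -8, -16, 8, 15, -4, 0, 0, -17⟩, (.cons (nat_lit 11766583) (nat_lit 2885277) (nat_lit 454466) (nat_lit 1) .nil), (nat_lit 1), (nat_lit 25), (nat_lit 5), (nat_lit 1), (7, 6, 0), [23369712], 40⟩,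
  ⟨⟨15, -8, -16, 8, 15, -4, 0, 0, -17⟩, (.cons (nat_lit 11766583) (nat_lit 2885277) (nat_lit 454466) (nat_lit 1) .nil), (nat_lit 1), (nat_lit 25), (nat_lit 5), (nat_lit 1), (7, 6, 0), [23369712], 40⟩,
  ⟨⟨15, -8, -16, -8, -15, 4, 0, 0, -17⟩, (.cons (nat_lit 19142200) (nat_lit 10860631) (nat_lit 16527499) (nat_lit 1) .nil), (nat_lit 46), (nat_lit 28), (nat_lit 32), (nat_lit 1), (7, 11, 0), [7156400], 26⟩,
  ⟨⟨15, -8, -16, -8, -15, 4, 0, 0, -17⟩, (.cons (nat_lit 19142200) (nat_lit 10860631) (nat_lit 16527499) (nat_lit 1) .nil), (nat_lit 46), (nat_lit 28), (nat_lit 32), (nat_lit 1), (7, 11, 0), [7156400], 26⟩,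
  ⟨⟨-15, 8, -1, -8, -15, 4, 0, 0, -17⟩, (.cons (nat_lit 7588434) (nat_lit 3540918) (nat_lit 17226043) (nat_lit 1) .nil), (nat_lit 1), (nat_lit 19), (nat_lit 32), (nat_lit 1), (10, 11, 0), [23350074], 26⟩,
  ⟨⟨15, -8, -16, 8, 15, -4, 0, 0, -17⟩, (.cons (nat_lit 11766583) (nat_lit 2885277) (nat_lit 454466) (nat_lit 1) .nil), (nat_lit 1), (nat_lit 25), (nat_lit 5), (nat_lit 1), (7, 6, 0), [23369712], 40⟩,
  ⟨⟨15, -8, -16, 8, 15, -4, 0, 0, -17⟩, (.cons (nat_lit 11766583) (nat_lit 2885277) (nat_lit 454466) (nat_lit 1) .nil), (nat_lit 1), (nat_lit 25), (nat_lit 5), (nat_lit 1), (7, 6, 0), [23369712], 40⟩,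
  ⟨⟨15, -8, -16, 8, 15, -4, 0, 0, -17⟩, (.cons (nat_lit 11766583) (nat_lit 2885277) (nat_lit 454466) (nat_lit 1) .nil), (nat_lit 1), (nat_lit 25), (nat_lit 5), (nat_lit 1), (7, 6, 0), [23369712], 40⟩]

/-- Moves. -/
noncomputable def t0_9 : List Mv := [
  ⟨⟨9, -16, -1, 10, 3, -20, -6, -12, -5⟩, (.cons (nat_lit 2649515) (nat_lit 8649654) (nat_lit 6035001) (nat_lit 1) .nil), (nat_lit 1), (nat_lit 33), (nat_lit 36), (nat_lit 1), (2, 6, 10), [12906100], 16⟩,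
  ⟨⟨9, -16, -1, 10, 3, -20, -6, -12, -5⟩, (.cons (nat_lit 2649515) (nat_lit 8649654) (nat_lit 6035001) (nat_lit 1) .nil), (nat_lit 1), (nat_lit 33), (nat_lit 36), (nat_lit 1), (2, 6, 10), [12906100], 16⟩,
  ⟨⟨9, -16, -1, 10, 3, -20, -6, -12, -5⟩, (.cons (nat_lit 2649515) (nat_lit 8649654) (nat_lit 6035001) (nat_lit 1) .nil), (nat_lit 1), (nat_lit 33), (nat_lit 36), (nat_lit 1), (2, 6, 10), [12906100], 16⟩,
  ⟨⟨9, -16, -1, 10, 3, -20, -6, -12, -5⟩, (.cons (nat_lit 2649515) (nat_lit 8649654) (nat_lit 6035001) (nat_lit 1) .nil), (nat_lit 1), (nat_lit 33), (nat_lit 36), (nat_lit 1), (2, 6, 10), [12906100], 16⟩,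
  ⟨⟨-15, 4, -4, -10, -3, 20, -6, -12, -5⟩, (.cons (nat_lit 19143280) (nat_lit 21029396) (nat_lit 22468049) (nat_lit 1) .nil), (nat_lit 14), (nat_lit 3), (nat_lit 10), (nat_lit 1), (8, 11, 10), [19122491], 37⟩,
  ⟨⟨9, -16, -1, 10, 3, -20, -6, -12, -5⟩, (.cons (nat_lit 2649515) (nat_lit 8649654) (nat_lit 6035001) (nat_lit 1) .nil), (nat_lit 1), (nat_lit 33), (nat_lit 36), (nat_lit 1), (2, 6, 10), [12906100], 16⟩,
  ⟨⟨9, -16, -1, -10, -3, 20, -6, -12, -5⟩, (.cons (nat_lit 12361898) (nat_lit 20985542) (nat_lit 11286757) (nat_lit 1) .nil), (nat_lit 33), (nat_lit 44), (nat_lit 10), (nat_lit 1), (2, 11, 10), [5319789], 37⟩,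
  ⟨⟨9, -16, -1, 10, 3, -20, -6, -12, -5⟩, (.cons (nat_lit 2649515) (nat_lit 8649654) (nat_lit 6035001) (nat_lit 1) .nil), (nat_lit 1), (nat_lit 33), (nat_lit 36), (nat_lit 1), (2, 6, 10), [12906100], 16⟩,
  ⟨⟨9, -16, -1, 10, 3, -20, -6, -12, -5⟩, (.cons (nat_lit 2649515) (nat_lit 8649654) (nat_lit 6035001) (nat_lit 1) .nil), (nat_lit 1), (nat_lit 33), (nat_lit 36), (nat_lit 1), (2, 6, 10), [12906100], 16⟩,
  ⟨⟨9, -16, -1, 10, 3, -20, -6, -12, -5⟩, (.cons (nat_lit 2649515) (nat_lit 8649654) (nat_lit 6035001) (nat_lit 1) .nil), (nat_lit 1), (nat_lit 33), (nat_lit 36), (nat_lit 1), (2, 6, 10), [12906100], 16⟩,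
  ⟨⟨-15, 4, -4, -10, -3, 20, -6, -12, -5⟩, (.cons (nat_lit 19143280) (nat_lit 21029396) (nat_lit 22468049) (nat_lit 1) .nil), (nat_lit 14), (nat_lit 3), (nat_lit 10), (nat_lit 1), (8, 11, 10), [19122491], 37⟩,
  ⟨⟨-15, 4, -4, 10, 3, -20, -6, -12, -5⟩, (.cons (nat_lit 23380411) (nat_lit 23863569) (nat_lit 18689538) (nat_lit 1) .nil), (nat_lit 46), (nat_lit 14), (nat_lit 36), (nat_lit 1), (8, 6, 10), [2566078], 16⟩,
  ⟨⟨9, -16, -1, 10, 3, -20, -6, -12, -5⟩, (.cons (nat_lit 2649515) (nat_lit 8649654) (nat_lit 6035001) (nat_lit 1) .nil), (nat_lit 1), (nat_lit 33), (nat_lit 36), (nat_lit 1), (2, 6, 10), [12906100], 16⟩,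
  ⟨⟨9, -16, -1, -10, -3, 20, -6, -12, -5⟩, (.cons (nat_lit 12361898) (nat_lit 20985542) (nat_lit 11286757) (nat_lit 1) .nil), (nat_lit 33), (nat_lit 44), (nat_lit 10), (nat_lit 1), (2, 11, 10), [5319789], 37⟩,
  ⟨⟨9, -16, -1, -10, -3, 20, -6, -12, -5⟩, (.cons (nat_lit 12361898) (nat_lit 20985542) (nat_lit 11286757) (nat_lit 1) .nil), (nat_lit 33), (nat_lit 44), (nat_lit 10), (nat_lit 1), (2, 11, 10), [5319789], 37⟩,
  ⟨⟨9, -16, -1, 10, 3, -20, -6, -12, -5⟩, (.cons (nat_lit 2649515) (nat_lit 8649654) (nat_lit 6035001) (nat_lit 1) .nil), (nat_lit 1), (nat_lit 33), (nat_lit 36), (nat_lit 1), (2, 6, 10), [12906100], 16⟩,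
  ⟨⟨9, -16, -1, 10, 3, -20, -6, -12, -5⟩, (.cons (nat_lit 2649515) (nat_lit 8649654) (nat_lit 6035001) (nat_lit 1) .nil), (nat_lit 1), (nat_lit 33), (nat_lit 36), (nat_lit 1), (2, 6, 10), [12906100], 16⟩]

/-- Moves. -/
noncomputable def t4_3 : List Mv := [
  mz,
  ⟨⟨-25, 12, -36, 22, -35, -36, 20, 28, -37⟩, (.cons (nat_lit 7384752) (nat_lit 19745988) (nat_lit 19194504) (nat_lit 1) .nil), (nat_lit 2), (nat_lit 0), (nat_lit 0), (nat_lit 0), (2, 2, 36), [6340475], 0⟩,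
  ⟨⟨21, -32, -49, 2, 35, -36, -28, -20, -13⟩, (.cons (nat_lit 4805808) (nat_lit 8776616) (nat_lit 9116699) (nat_lit 1) .nil), (nat_lit 5), (nat_lit 0), (nat_lit 0), (nat_lit 0), (33, 30, 3), [23485832], 0⟩,
  ⟨⟨-51, 4, 19, 2, 45, 14, -12, 12, -37⟩, (.cons (nat_lit 7952881) (nat_lit 10157113) (nat_lit 20501955) (nat_lit 1) .nil), (nat_lit 44), (nat_lit 0), (nat_lit 0), (nat_lit 0), (7, 20, 21), [14067985], 0⟩,
  mz,
  ⟨⟨-45, -16, 44, -22, 35, -14, -20, -28, -17⟩, (.cons (nat_lit 17913237) (nat_lit 9664607) (nat_lit 16710478) (nat_lit 1) .nil), (nat_lit 45), (nat_lit 0), (nat_lit 0), (nat_lit 0), (12, 9, 21), [6707989], 0⟩,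
  mz,
  mz,
  mz,
  ⟨⟨-17, -48, 0, 40, -17, 0, 10, -16, -47⟩, (.cons (nat_lit 9628506) (nat_lit 21302702) (nat_lit 12313357) (nat_lit 1) .nil), (nat_lit 36), (nat_lit 0), (nat_lit 0), (nat_lit 0), (6, 8, 2), [23030357], 0⟩,
  mz,
  ⟨⟨17, 48, -17, 40, -17, -40, -10, 16, -37⟩, (.cons (nat_lit 3043418) (nat_lit 10369155) (nat_lit 15964320) (nat_lit 1) .nil), (nat_lit 9), (nat_lit 0), (nat_lit 0), (nat_lit 0), (25, 45, 24), [5958017], 0⟩,
  ⟨⟨17, -36, -45, -20, 23, -30, 38, 8, -37⟩, (.cons (nat_lit 3889993) (nat_lit 1881883) (nat_lit 16774233) (nat_lit 1) .nil), (nat_lit 32), (nat_lit 0), (nat_lit 0), (nat_lit 0), (19, 44, 1), [20679064], 0⟩,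
  mz,
  ⟨⟨-51, -4, 19, -2, 45, -14, -12, -12, -37⟩, (.cons (nat_lit 10724867) (nat_lit 16250907) (nat_lit 15288918) (nat_lit 1) .nil), (nat_lit 33), (nat_lit 0), (nat_lit 0), (nat_lit 0), (25, 36, 28), [1592654], 0⟩,
  ⟨⟨9, 4, -61, 40, 23, -10, 22, -32, -29⟩, (.cons (nat_lit 21521706) (nat_lit 17258663) (nat_lit 11791440) (nat_lit 1) .nil), (nat_lit 35), (nat_lit 0), (nat_lit 0), (nat_lit 0), (18, 33, 44), [23397677], 0⟩,
  ⟨⟨-13, 36, 45, 40, 23, -30, -22, 32, -7⟩, (.cons (nat_lit 12034259) (nat_lit 5925446) (nat_lit 8750387) (nat_lit 1) .nil), (nat_lit 27), (nat_lit 0), (nat_lit 0), (nat_lit 0), (5, 28, 41), [20626646], 0⟩,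
  mz,
  ⟨⟨19, 0, -63, 0, 47, 0, 42, 0, -23⟩, (.cons (nat_lit 903783) (nat_lit 17811081) (nat_lit 7955674) (nat_lit 1) .nil), (nat_lit 29), (nat_lit 0), (nat_lit 0), (nat_lit 0), (16, 0, 23), [20378060], 0⟩,
  ⟨⟨-39, 32, 8, 20, 33, 20, 6, 24, -41⟩, (.cons (nat_lit 24137568) (nat_lit 1715532) (nat_lit 18396866) (nat_lit 1) .nil), (nat_lit 19), (nat_lit 0), (nat_lit 0), (nat_lit 0), (25, 39, 7), [20802715], 0⟩,
  ⟨⟨17, -36, 28, 20, -23, -50, 38, 8, -1⟩, (.cons (nat_lit 3512249) (nat_lit 22091986) (nat_lit 4647988) (nat_lit 1) .nil), (nat_lit 16), (nat_lit 0), (nat_lit 0), (nat_lit 0), (2, 30, 10), [10951618], 0⟩,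
  ⟨⟨21, 32, -49, 2, -35, -36, -28, 20, -13⟩, (.cons (nat_lit 19674890) (nat_lit 16204444) (nat_lit 7213132) (nat_lit 1) .nil), (nat_lit 5), (nat_lit 0), (nat_lit 0), (nat_lit 0), (30, 23, 7), [19966677], 0⟩,
  ⟨⟨-39, -32, 8, -20, 33, -20, 6, -24, -41⟩, (.cons (nat_lit 24137568) (nat_lit 5932290) (nat_lit 6006924) (nat_lit 1) .nil), (nat_lit 22), (nat_lit 0), (nat_lit 0), (nat_lit 0), (28, 24, 21), [11028406], 0⟩,
  mz,
  mz,
  ⟨⟨-45, 8, -4, 20, 33, -40, -6, -24, -35⟩, (.cons (nat_lit 24137568) (nat_lit 3565022) (nat_lit 18712526) (nat_lit 1) .nil), (nat_lit 25), (nat_lit 0), (nat_lit 0), (nat_lit 0), (40, 24, 21), [23245326], 0⟩,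
  ⟨⟨-21, 32, -28, -2, -35, -34, 28, 20, -41⟩, (.cons (nat_lit 11959486) (nat_lit 1106376) (nat_lit 6604251) (nat_lit 1) .nil), (nat_lit 5), (nat_lit 0), (nat_lit 0), (nat_lit 0), (30, 23, 7), [22846863], 0⟩,
  ⟨⟨17, 36, -45, 20, 23, 30, 38, -8, -37⟩, (.cons (nat_lit 16466093) (nat_lit 8922029) (nat_lit 18292106) (nat_lit 1) .nil), (nat_lit 16), (nat_lit 0), (nat_lit 0), (nat_lit 0), (45, 17, 37), [19150176], 0⟩,
  ⟨⟨39, 32, -31, -20, 33, 40, -6, 24, -35⟩, (.cons (nat_lit 1949464) (nat_lit 23680477) (nat_lit 5463412) (nat_lit 1) .nil), (nat_lit 19), (nat_lit 0), (nat_lit 0), (nat_lit 0), (25, 39, 7), [15031002], 0⟩,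
  ⟨⟨19, 0, 44, 0, -47, 0, 42, 0, -19⟩, (.cons (nat_lit 24137568) (nat_lit 9953939) (nat_lit 326156) (nat_lit 1) .nil), (nat_lit 29), (nat_lit 0), (nat_lit 0), (nat_lit 0), (31, 0, 24), [24011828], 0⟩,
  mz,
  ⟨⟨9, -4, -61, -40, 23, 10, 22, 32, -29⟩, (.cons (nat_lit 8028252) (nat_lit 12663048) (nat_lit 593283) (nat_lit 1) .nil), (nat_lit 20), (nat_lit 0), (nat_lit 0), (nat_lit 0), (36, 28, 41), [15107263], 0⟩,
  ⟨⟨-13, -36, 45, -40, 23, 30, -22, -32, -7⟩, (.cons (nat_lit 21205724) (nat_lit 23742115) (nat_lit 23264869) (nat_lit 1) .nil), (nat_lit 12), (nat_lit 0), (nat_lit 0), (nat_lit 0), (26, 33, 44), [11398685], 0⟩,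
  ⟨⟨51, -4, -32, 2, 45, -16, 12, -12, -49⟩, (.cons (nat_lit 24137568) (nat_lit 5399547) (nat_lit 11967481) (nat_lit 1) .nil), (nat_lit 33), (nat_lit 0), (nat_lit 0), (nat_lit 0), (25, 36, 28), [23987860], 0⟩,
  mz,
  ⟨⟨17, 36, 28, 20, 23, -50, 38, -8, -1⟩, (.cons (nat_lit 13093969) (nat_lit 8410566) (nat_lit 15313619) (nat_lit 1) .nil), (nat_lit 16), (nat_lit 0), (nat_lit 0), (nat_lit 0), (28, 44, 46), [6047928], 0⟩,
  ⟨⟨-17, 48, 0, -40, -17, 0, 10, 16, -47⟩, (.cons (nat_lit 22140606) (nat_lit 4374063) (nat_lit 14730956) (nat_lit 1) .nil), (nat_lit 9), (nat_lit 0), (nat_lit 0), (nat_lit 0), (25, 45, 24), [20996517], 0⟩,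
  mz,
  ⟨⟨17, -48, -17, -40, -17, 40, -10, -16, -37⟩, (.cons (nat_lit 11052569) (nat_lit 11805819) (nat_lit 12372710) (nat_lit 1) .nil), (nat_lit 36), (nat_lit 0), (nat_lit 0), (nat_lit 0), (6, 8, 2), [12143570], 0⟩,
  mz,
  mz,
  mz,
  ⟨⟨45, -16, -1, -22, -35, 36, 20, -28, -37⟩, (.cons (nat_lit 19693908) (nat_lit 11838584) (nat_lit 4814950) (nat_lit 1) .nil), (nat_lit 26), (nat_lit 0), (nat_lit 0), (nat_lit 0), (12, 38, 21), [10860422], 0⟩,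
  mz,
  ⟨⟨51, 4, -32, 2, -45, -16, 12, 12, -49⟩, (.cons (nat_lit 11041089) (nat_lit 23349326) (nat_lit 23039203) (nat_lit 1) .nil), (nat_lit 33), (nat_lit 0), (nat_lit 0), (nat_lit 0), (7, 27, 21), [5137297], 0⟩,
  ⟨⟨-21, -32, -28, -2, 35, -34, 28, -20, -41⟩, (.cons (nat_lit 13885951) (nat_lit 17546291) (nat_lit 16833345) (nat_lit 1) .nil), (nat_lit 5), (nat_lit 0), (nat_lit 0), (nat_lit 0), (33, 30, 3), [9728015], 0⟩,
  ⟨⟨-45, 16, 44, -22, -35, -14, -20, 28, -17⟩, (.cons (nat_lit 776054) (nat_lit 22283204) (nat_lit 13821913) (nat_lit 1) .nil), (nat_lit 45), (nat_lit 0), (nat_lit 0), (nat_lit 0), (34, 2, 36), [4609058], 0⟩]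

/-- Moves. -/
noncomputable def t4_7 : List Mv := [
  mz,
  ⟨⟨45, 16, -1, 22, -35, -36, 20, 28, -37⟩, (.cons (nat_lit 14971330) (nat_lit 7065247) (nat_lit 20750171) (nat_lit 1) .nil), (nat_lit 45), (nat_lit 0), (nat_lit 0), (nat_lit 0), (34, 2, 36), [14542657], 0⟩,
  ⟨⟨-49, 12, 36, 2, 35, -36, -28, -20, -13⟩, (.cons (nat_lit 19193528) (nat_lit 13666858) (nat_lit 21856556) (nat_lit 1) .nil), (nat_lit 42), (nat_lit 0), (nat_lit 0), (nat_lit 0), (17, 30, 3), [22545529], 0⟩,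
  ⟨⟨-51, 4, 19, -2, -45, -14, -12, 12, -37⟩, (.cons (nat_lit 20841514) (nat_lit 16873726) (nat_lit 12015414) (nat_lit 1) .nil), (nat_lit 33), (nat_lit 0), (nat_lit 0), (nat_lit 0), (7, 27, 21), [17290006], 0⟩,
  mz,
  ⟨⟨-45, -16, 44, -22, 35, -14, -20, -28, -17⟩, (.cons (nat_lit 17913237) (nat_lit 9664607) (nat_lit 16710478) (nat_lit 1) .nil), (nat_lit 45), (nat_lit 0), (nat_lit 0), (nat_lit 0), (12, 9, 21), [6707989], 0⟩,
  mz,
  mz,
  mz,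
  ⟨⟨27, 32, -47, -40, 17, 0, 10, -16, -47⟩, (.cons (nat_lit 4743933) (nat_lit 2654974) (nat_lit 5233541) (nat_lit 1) .nil), (nat_lit 38), (nat_lit 0), (nat_lit 0), (nat_lit 0), (43, 39, 2), [14596658], 0⟩,
  mz,
  ⟨⟨17, 48, -17, 40, -17, -40, -10, 16, -37⟩, (.cons (nat_lit 3043418) (nat_lit 10369155) (nat_lit 15964320) (nat_lit 1) .nil), (nat_lit 9), (nat_lit 0), (nat_lit 0), (nat_lit 0), (25, 45, 24), [5958017], 0⟩,
  ⟨⟨17, -36, -45, -20, 23, -30, 38, 8, -37⟩, (.cons (nat_lit 3889993) (nat_lit 1881883) (nat_lit 16774233) (nat_lit 1) .nil), (nat_lit 32), (nat_lit 0), (nat_lit 0), (nat_lit 0), (19, 44, 1), [20679064], 0⟩,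
  mz,
  ⟨⟨39, -8, -56, 2, -45, 14, -12, -12, -37⟩, (.cons (nat_lit 20902786) (nat_lit 20991988) (nat_lit 14697049) (nat_lit 1) .nil), (nat_lit 3), (nat_lit 0), (nat_lit 0), (nat_lit 0), (3, 11, 28), [6215096], 0⟩,
  ⟨⟨13, -36, 32, -40, -23, 10, 22, -32, -29⟩, (.cons (nat_lit 20158931) (nat_lit 6006478) (nat_lit 9641934) (nat_lit 1) .nil), (nat_lit 27), (nat_lit 0), (nat_lit 0), (nat_lit 0), (26, 14, 44), [23301603], 0⟩,
  ⟨⟨-13, 36, 45, 40, 23, -30, -22, 32, -7⟩, (.cons (nat_lit 12034259) (nat_lit 5925446) (nat_lit 8750387) (nat_lit 1) .nil), (nat_lit 27), (nat_lit 0), (nat_lit 0), (nat_lit 0), (5, 28, 41), [20626646], 0⟩,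
  mz,
  ⟨⟨19, 0, -63, 0, -47, 0, 42, 0, -23⟩, (.cons (nat_lit 10879273) (nat_lit 21663052) (nat_lit 21176026) (nat_lit 1) .nil), (nat_lit 29), (nat_lit 0), (nat_lit 0), (nat_lit 0), (16, 0, 23), [3908298], 0⟩,
  ⟨⟨-39, 32, 8, 20, 33, 20, 6, 24, -41⟩, (.cons (nat_lit 24137568) (nat_lit 1715532) (nat_lit 18396866) (nat_lit 1) .nil), (nat_lit 19), (nat_lit 0), (nat_lit 0), (nat_lit 0), (25, 39, 7), [20802715], 0⟩,
  ⟨⟨17, -36, 28, 20, -23, -50, 38, 8, -1⟩, (.cons (nat_lit 3512249) (nat_lit 22091986) (nat_lit 4647988) (nat_lit 1) .nil), (nat_lit 16), (nat_lit 0), (nat_lit 0), (nat_lit 0), (2, 30, 10), [10951618], 0⟩,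
  ⟨⟨21, 32, -49, 2, -35, -36, -28, 20, -13⟩, (.cons (nat_lit 19674890) (nat_lit 16204444) (nat_lit 7213132) (nat_lit 1) .nil), (nat_lit 5), (nat_lit 0), (nat_lit 0), (nat_lit 0), (30, 23, 7), [19966677], 0⟩,
  ⟨⟨-39, -32, 8, -20, 33, -20, 6, -24, -41⟩, (.cons (nat_lit 24137568) (nat_lit 5932290) (nat_lit 6006924) (nat_lit 1) .nil), (nat_lit 22), (nat_lit 0), (nat_lit 0), (nat_lit 0), (28, 24, 21), [11028406], 0⟩,
  mz,
  mz,
  ⟨⟨-45, 8, -4, 20, 33, -40, -6, -24, -35⟩, (.cons (nat_lit 24137568) (nat_lit 3565022) (nat_lit 18712526) (nat_lit 1) .nil), (nat_lit 25), (nat_lit 0), (nat_lit 0), (nat_lit 0), (40, 24, 21), [23245326], 0⟩,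
  ⟨⟨49, -12, -13, -2, -35, -34, 28, 20, -41⟩, (.cons (nat_lit 10367779) (nat_lit 5430892) (nat_lit 17206990) (nat_lit 1) .nil), (nat_lit 42), (nat_lit 0), (nat_lit 0), (nat_lit 0), (24, 23, 7), [13967348], 0⟩,
  ⟨⟨21, -44, 8, -20, -23, -30, 38, -8, -37⟩, (.cons (nat_lit 23391845) (nat_lit 14395880) (nat_lit 1848651) (nat_lit 1) .nil), (nat_lit 15), (nat_lit 0), (nat_lit 0), (nat_lit 0), (39, 30, 37), [7886302], 0⟩,
  ⟨⟨-45, -8, -4, 20, -33, -40, -6, 24, -35⟩, (.cons (nat_lit 13950343) (nat_lit 22886819) (nat_lit 5680832) (nat_lit 1) .nil), (nat_lit 25), (nat_lit 0), (nat_lit 0), (nat_lit 0), (29, 8, 7), [23402078], 0⟩,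
  ⟨⟨19, 0, 44, 0, -47, 0, 42, 0, -19⟩, (.cons (nat_lit 24137568) (nat_lit 9953939) (nat_lit 326156) (nat_lit 1) .nil), (nat_lit 29), (nat_lit 0), (nat_lit 0), (nat_lit 0), (31, 0, 24), [24011828], 0⟩,
  mz,
  ⟨⟨9, -4, -61, 40, -23, -10, 22, 32, -29⟩, (.cons (nat_lit 10766271) (nat_lit 21739866) (nat_lit 6931904) (nat_lit 1) .nil), (nat_lit 35), (nat_lit 0), (nat_lit 0), (nat_lit 0), (36, 19, 41), [12413088], 0⟩,
  ⟨⟨-13, -36, 45, 40, -23, -30, -22, -32, -7⟩, (.cons (nat_lit 24043050) (nat_lit 1165722) (nat_lit 12614836) (nat_lit 1) .nil), (nat_lit 27), (nat_lit 0), (nat_lit 0), (nat_lit 0), (26, 14, 44), [8626185], 0⟩,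
  ⟨⟨51, -4, -32, 2, 45, -16, 12, -12, -49⟩, (.cons (nat_lit 24137568) (nat_lit 5399547) (nat_lit 11967481) (nat_lit 1) .nil), (nat_lit 33), (nat_lit 0), (nat_lit 0), (nat_lit 0), (25, 36, 28), [23987860], 0⟩,
  mz,
  ⟨⟨21, -44, -29, -20, -23, 50, 38, -8, -1⟩, (.cons (nat_lit 23943065) (nat_lit 18992184) (nat_lit 2852087) (nat_lit 1) .nil), (nat_lit 15), (nat_lit 0), (nat_lit 0), (nat_lit 0), (18, 3, 46), [13479196], 0⟩,
  ⟨⟨27, -32, -47, -40, -17, 0, 10, 16, -47⟩, (.cons (nat_lit 9176388) (nat_lit 16548115) (nat_lit 12961442) (nat_lit 1) .nil), (nat_lit 38), (nat_lit 0), (nat_lit 0), (nat_lit 0), (46, 45, 24), [2837137], 0⟩,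
  mz,
  ⟨⟨-27, 32, -20, 40, 17, -40, -10, -16, -37⟩, (.cons (nat_lit 24137568) (nat_lit 7172234) (nat_lit 13186847) (nat_lit 1) .nil), (nat_lit 38), (nat_lit 0), (nat_lit 0), (nat_lit 0), (43, 39, 2), [19128643], 0⟩,
  mz,
  mz,
  mz,
  ⟨⟨45, -16, -1, 22, 35, -36, 20, -28, -37⟩, (.cons (nat_lit 17493654) (nat_lit 11959268) (nat_lit 20295768) (nat_lit 1) .nil), (nat_lit 45), (nat_lit 0), (nat_lit 0), (nat_lit 0), (12, 9, 21), [18754042], 0⟩,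
  mz,
  ⟨⟨-39, 8, -17, -2, 45, 16, 12, 12, -49⟩, (.cons (nat_lit 5197531) (nat_lit 19186260) (nat_lit 24027108) (nat_lit 1) .nil), (nat_lit 3), (nat_lit 0), (nat_lit 0), (nat_lit 0), (14, 20, 21), [848404], 0⟩,
  ⟨⟨-21, -32, -28, -2, 35, -34, 28, -20, -41⟩, (.cons (nat_lit 13885951) (nat_lit 17546291) (nat_lit 16833345) (nat_lit 1) .nil), (nat_lit 5), (nat_lit 0), (nat_lit 0), (nat_lit 0), (33, 30, 3), [9728015], 0⟩,
  ⟨⟨-45, 16, 44, -22, -35, -14, -20, 28, -17⟩, (.cons (nat_lit 776054) (nat_lit 22283204) (nat_lit 13821913) (nat_lit 1) .nil), (nat_lit 45), (nat_lit 0), (nat_lit 0), (nat_lit 0), (34, 2, 36), [4609058], 0⟩]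

/-- Moves. -/
noncomputable def t4_9 : List Mv := [
  mz,
  ⟨⟨45, 16, -1, 22, -35, -36, 20, 28, -37⟩, (.cons (nat_lit 14971330) (nat_lit 7065247) (nat_lit 20750171) (nat_lit 1) .nil), (nat_lit 45), (nat_lit 0), (nat_lit 0), (nat_lit 0), (34, 2, 36), [14542657], 0⟩,
  ⟨⟨-49, 12, 36, -2, -35, 36, -28, -20, -13⟩, (.cons (nat_lit 3537111) (nat_lit 18308231) (nat_lit 792220) (nat_lit 1) .nil), (nat_lit 1), (nat_lit 0), (nat_lit 0), (nat_lit 0), (17, 17, 3), [11381045], 0⟩,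
  ⟨⟨-51, 4, 19, -2, -45, -14, -12, 12, -37⟩, (.cons (nat_lit 20841514) (nat_lit 16873726) (nat_lit 12015414) (nat_lit 1) .nil), (nat_lit 33), (nat_lit 0), (nat_lit 0), (nat_lit 0), (7, 27, 21), [17290006], 0⟩,
  mz,
  ⟨⟨-45, -16, 44, -22, 35, -14, -20, -28, -17⟩, (.cons (nat_lit 17913237) (nat_lit 9664607) (nat_lit 16710478) (nat_lit 1) .nil), (nat_lit 45), (nat_lit 0), (nat_lit 0), (nat_lit 0), (12, 9, 21), [6707989], 0⟩,
  mz,
  mz,
  mz,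
  ⟨⟨27, 32, -47, -40, 17, 0, 10, -16, -47⟩, (.cons (nat_lit 4743933) (nat_lit 2654974) (nat_lit 5233541) (nat_lit 1) .nil), (nat_lit 38), (nat_lit 0), (nat_lit 0), (nat_lit 0), (43, 39, 2), [14596658], 0⟩,
  mz,
  ⟨⟨17, 48, -17, -40, 17, 40, -10, 16, -37⟩, (.cons (nat_lit 21187176) (nat_lit 13345431) (nat_lit 6386479) (nat_lit 1) .nil), (nat_lit 36), (nat_lit 0), (nat_lit 0), (nat_lit 0), (25, 2, 24), [14662657], 0⟩,
  ⟨⟨17, -36, -45, -20, 23, -30, 38, 8, -37⟩, (.cons (nat_lit 3889993) (nat_lit 1881883) (nat_lit 16774233) (nat_lit 1) .nil), (nat_lit 32), (nat_lit 0), (nat_lit 0), (nat_lit 0), (19, 44, 1), [20679064], 0⟩,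
  mz,
  ⟨⟨-51, -4, 19, -2, 45, -14, -12, -12, -37⟩, (.cons (nat_lit 10724867) (nat_lit 16250907) (nat_lit 15288918) (nat_lit 1) .nil), (nat_lit 33), (nat_lit 0), (nat_lit 0), (nat_lit 0), (25, 36, 28), [1592654], 0⟩,
  ⟨⟨9, 4, -61, 40, 23, -10, 22, -32, -29⟩, (.cons (nat_lit 21521706) (nat_lit 17258663) (nat_lit 11791440) (nat_lit 1) .nil), (nat_lit 35), (nat_lit 0), (nat_lit 0), (nat_lit 0), (18, 33, 44), [23397677], 0⟩,
  ⟨⟨-13, 36, 45, 40, 23, -30, -22, 32, -7⟩, (.cons (nat_lit 12034259) (nat_lit 5925446) (nat_lit 8750387) (nat_lit 1) .nil), (nat_lit 27), (nat_lit 0), (nat_lit 0), (nat_lit 0), (5, 28, 41), [20626646], 0⟩,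
  mz,
  ⟨⟨19, 0, -63, 0, -47, 0, 42, 0, -23⟩, (.cons (nat_lit 10879273) (nat_lit 21663052) (nat_lit 21176026) (nat_lit 1) .nil), (nat_lit 29), (nat_lit 0), (nat_lit 0), (nat_lit 0), (16, 0, 23), [3908298], 0⟩,
  ⟨⟨45, -8, -49, 20, 33, 20, 6, 24, -41⟩, (.cons (nat_lit 19844494) (nat_lit 5846662) (nat_lit 23748634) (nat_lit 1) .nil), (nat_lit 28), (nat_lit 0), (nat_lit 0), (nat_lit 0), (29, 39, 7), [14824549], 0⟩,
  ⟨⟨21, 44, -29, 20, -23, -50, 38, 8, -1⟩, (.cons (nat_lit 5962980) (nat_lit 6864522) (nat_lit 12274714) (nat_lit 1) .nil), (nat_lit 31), (nat_lit 0), (nat_lit 0), (nat_lit 0), (8, 30, 10), [14038568], 0⟩,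
  ⟨⟨21, 32, -49, 2, -35, -36, -28, 20, -13⟩, (.cons (nat_lit 19674890) (nat_lit 16204444) (nat_lit 7213132) (nat_lit 1) .nil), (nat_lit 5), (nat_lit 0), (nat_lit 0), (nat_lit 0), (30, 23, 7), [19966677], 0⟩,
  ⟨⟨-39, -32, 8, -20, 33, -20, 6, -24, -41⟩, (.cons (nat_lit 24137568) (nat_lit 5932290) (nat_lit 6006924) (nat_lit 1) .nil), (nat_lit 22), (nat_lit 0), (nat_lit 0), (nat_lit 0), (28, 24, 21), [11028406], 0⟩,
  mz,
  mz,
  ⟨⟨-45, 8, -4, -20, -33, 40, -6, -24, -35⟩, (.cons (nat_lit 2169222) (nat_lit 19248193) (nat_lit 15624004) (nat_lit 1) .nil), (nat_lit 28), (nat_lit 0), (nat_lit 0), (nat_lit 0), (40, 23, 21), [17391435], 0⟩,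
  ⟨⟨-21, 32, -28, -2, -35, -34, 28, 20, -41⟩, (.cons (nat_lit 11959486) (nat_lit 1106376) (nat_lit 6604251) (nat_lit 1) .nil), (nat_lit 5), (nat_lit 0), (nat_lit 0), (nat_lit 0), (30, 23, 7), [22846863], 0⟩,
  ⟨⟨17, 36, -45, 20, 23, 30, 38, -8, -37⟩, (.cons (nat_lit 16466093) (nat_lit 8922029) (nat_lit 18292106) (nat_lit 1) .nil), (nat_lit 16), (nat_lit 0), (nat_lit 0), (nat_lit 0), (45, 17, 37), [19150176], 0⟩,
  ⟨⟨-45, -8, -4, 20, -33, -40, -6, 24, -35⟩, (.cons (nat_lit 13950343) (nat_lit 22886819) (nat_lit 5680832) (nat_lit 1) .nil), (nat_lit 25), (nat_lit 0), (nat_lit 0), (nat_lit 0), (29, 8, 7), [23402078], 0⟩,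
  ⟨⟨23, 0, -63, 0, -47, 0, 42, 0, -19⟩, (.cons (nat_lit 19547205) (nat_lit 16142597) (nat_lit 21755406) (nat_lit 1) .nil), (nat_lit 18), (nat_lit 0), (nat_lit 0), (nat_lit 0), (40, 0, 24), [13982616], 0⟩,
  mz,
  ⟨⟨9, -4, -61, 40, -23, -10, 22, 32, -29⟩, (.cons (nat_lit 10766271) (nat_lit 21739866) (nat_lit 6931904) (nat_lit 1) .nil), (nat_lit 35), (nat_lit 0), (nat_lit 0), (nat_lit 0), (36, 19, 41), [12413088], 0⟩,
  ⟨⟨-9, 4, -52, -40, 23, 30, -22, -32, -7⟩, (.cons (nat_lit 7474189) (nat_lit 4641052) (nat_lit 3171477) (nat_lit 1) .nil), (nat_lit 35), (nat_lit 0), (nat_lit 0), (nat_lit 0), (18, 33, 44), [22189995], 0⟩,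
  ⟨⟨51, -4, -32, 2, 45, -16, 12, -12, -49⟩, (.cons (nat_lit 24137568) (nat_lit 5399547) (nat_lit 11967481) (nat_lit 1) .nil), (nat_lit 33), (nat_lit 0), (nat_lit 0), (nat_lit 0), (25, 36, 28), [23987860], 0⟩,
  mz,
  ⟨⟨17, 36, 28, -20, -23, 50, 38, -8, -1⟩, (.cons (nat_lit 11950785) (nat_lit 8650002) (nat_lit 15899270) (nat_lit 1) .nil), (nat_lit 32), (nat_lit 0), (nat_lit 0), (nat_lit 0), (28, 3, 46), [5594672], 0⟩,
  ⟨⟨27, -32, -47, 40, 17, 0, 10, 16, -47⟩, (.cons (nat_lit 9973354) (nat_lit 23619863) (nat_lit 11535307) (nat_lit 1) .nil), (nat_lit 11), (nat_lit 0), (nat_lit 0), (nat_lit 0), (46, 2, 24), [7907396], 0⟩,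
  mz,
  ⟨⟨17, -48, -17, 40, 17, -40, -10, -16, -37⟩, (.cons (nat_lit 5934181) (nat_lit 1908955) (nat_lit 16689481) (nat_lit 1) .nil), (nat_lit 9), (nat_lit 0), (nat_lit 0), (nat_lit 0), (6, 39, 2), [20205252], 0⟩,
  mz,
  mz,
  mz,
  ⟨⟨45, -16, -1, 22, 35, -36, 20, -28, -37⟩, (.cons (nat_lit 17493654) (nat_lit 11959268) (nat_lit 20295768) (nat_lit 1) .nil), (nat_lit 45), (nat_lit 0), (nat_lit 0), (nat_lit 0), (12, 9, 21), [18754042], 0⟩,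
  mz,
  ⟨⟨51, 4, -32, 2, -45, -16, 12, 12, -49⟩, (.cons (nat_lit 11041089) (nat_lit 23349326) (nat_lit 23039203) (nat_lit 1) .nil), (nat_lit 33), (nat_lit 0), (nat_lit 0), (nat_lit 0), (7, 27, 21), [5137297], 0⟩,
  ⟨⟨-21, -32, -28, -2, 35, -34, 28, -20, -41⟩, (.cons (nat_lit 13885951) (nat_lit 17546291) (nat_lit 16833345) (nat_lit 1) .nil), (nat_lit 5), (nat_lit 0), (nat_lit 0), (nat_lit 0), (33, 30, 3), [9728015], 0⟩,
  ⟨⟨-45, 16, 44, -22, -35, -14, -20, 28, -17⟩, (.cons (nat_lit 776054) (nat_lit 22283204) (nat_lit 13821913) (nat_lit 1) .nil), (nat_lit 45), (nat_lit 0), (nat_lit 0), (nat_lit 0), (34, 2, 36), [4609058], 0⟩]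

/-- All the moves. -/
noncomputable def tabs : List (List (List Mv)) := [[[], [], [], t0_3, [], [], [], t0_7, [], t0_9], [], [], [], [[], [], [], t4_3, [], [], [], t4_7, [], t4_9]]

/-- Subtrie. -/
noncomputable def T3 : Tr := (.ev (nat_lit 20) (nat_lit 123180307044388) (.nd (nat_lit 32) (.br (nat_lit 12)
 (.br (nat_lit 3) (.br (nat_lit 2) (.ch (nat_lit 1) (.ev (nat_lit 48) (nat_lit 286018241034) (.nd (nat_lit 480)
 (.br (nat_lit 8) (.br (nat_lit 5) (.br (nat_lit 4) (.ch (nat_lit 0) (.ev (nat_lit 496) (nat_lit 68719476736)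
 (.ev (nat_lit 564) (nat_lit 4398046511104) (.ev (nat_lit 2196) (nat_lit 524288) (.ev (nat_lit 2205) (nat_lit
 4294967296) .dd))))) (.ch (nat_lit 4) (.ev (nat_lit 496) (nat_lit 68719476736) (.ev (nat_lit 2772) (nat_lit
 4398046511104) (.nd (nat_lit 2992) (.br (nat_lit 5) (.br (nat_lit 3) (.ch (nat_lit 2) (.ev (nat_lit 3008)
 (nat_lit 4294967296) (.ev (nat_lit 3021) (nat_lit 524288) .dd))) (.ch (nat_lit 3) (.ev (nat_lit 3008) (nat_lit
 4294967296) (.ev (nat_lit 3021) (nat_lit 524288) .dd)))) (.br (nat_lit 15) (.ch (nat_lit 5) (.ev (nat_lit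
 3008) (nat_lit 4295491584) .dd)) (.ch (nat_lit 15) (.nd (nat_lit 4144) (.br (nat_lit 9) (.ch (nat_lit 6) (.fin
 (nat_lit 576465700116709959))) (.ch (nat_lit 9) (.ev (nat_lit 4160) (nat_lit 4294967296) (.ev (nat_lit 4173)
 (nat_lit 524288) .dd))))))))))))) (.br (nat_lit 6) (.ch (nat_lit 5) (.ev (nat_lit 496) (nat_lit 68720001024)
 (.ev (nat_lit 2576) (nat_lit 4294967296) (.ev (nat_lit 2589) (nat_lit 4398046511104) .dd)))) (.ch (nat_lit 6)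
 (.ev (nat_lit 496) (nat_lit 4466766512128) (.ev (nat_lit 509) (nat_lit 4294967296) .dd))))) (.br (nat_lit 10)
 (.br (nat_lit 9) (.ch (nat_lit 8) (.ev (nat_lit 496) (nat_lit 73014444032) (.nd (nat_lit 2432) (.br (nat_lit
 12) (.br (nat_lit 8) (.ch (nat_lit 3) (.ev (nat_lit 2544) (nat_lit 524288) (.ev (nat_lit 2557) (nat_lit
 4398046511104) .dd))) (.ch (nat_lit 8) (.ev (nat_lit 2448) (nat_lit 524288) (.ev (nat_lit 2461) (nat_lit
 4398046511104) .dd)))) (.br (nat_lit 13) (.ch (nat_lit 12) (.ev (nat_lit 2448) (nat_lit 4398046511104) (.ev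
 (nat_lit 2461) (nat_lit 524288) .dd))) (.br (nat_lit 16) (.ch (nat_lit 13) (.ev (nat_lit 2448) (nat_lit
 4398046511104) (.ev (nat_lit 2461) (nat_lit 524288) .dd))) (.ch (nat_lit 16) (.ev (nat_lit 2448) (nat_lit
 4398047035392) .dd)))))))) (.ch (nat_lit 9) (.ev (nat_lit 496) (nat_lit 4471060955136) (.ev (nat_lit 509)
 (nat_lit 524288) .dd)))) (.br (nat_lit 11) (.ch (nat_lit 10) (.ev (nat_lit 496) (nat_lit 4466766512128) (.ev
 (nat_lit 509) (nat_lit 4294967296) .dd))) (.br (nat_lit 12) (.ch (nat_lit 11) (.ev (nat_lit 496) (nat_lit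
 4402341478400) (.ev (nat_lit 2724) (nat_lit 68719476736) (.ev (nat_lit 2733) (nat_lit 524288) .dd)))) (.ch
 (nat_lit 12) (.ev (nat_lit 496) (nat_lit 4295491584) (.ev (nat_lit 2704) (nat_lit 68719476736) (.ev (nat_lit
 2717) (nat_lit 4398046511104) .dd))))))))))) (.ch (nat_lit 2) (.ev (nat_lit 48) (nat_lit 350442749954) (.nd
 (nat_lit 96) (.br (nat_lit 12) (.br (nat_lit 7) (.br (nat_lit 4) (.ch (nat_lit 0) (.ev (nat_lit 112) (nat_lit
 4398046511112) (.nd (nat_lit 832) (.br (nat_lit 6) (.br (nat_lit 4) (.br (nat_lit 3) (.ch (nat_lit 0) (.ev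
 (nat_lit 1824) (nat_lit 512) (.ev (nat_lit 2132) (nat_lit 524288) (.ev (nat_lit 2141) (nat_lit 8589934592)
 .dd)))) (.ch (nat_lit 3) (.ev (nat_lit 848) (nat_lit 512) (.ev (nat_lit 2564) (nat_lit 524288) (.ev (nat_lit
 2573) (nat_lit 8589934592) .dd))))) (.br (nat_lit 5) (.ch (nat_lit 4) (.ev (nat_lit 848) (nat_lit 524800) (.ev
 (nat_lit 861) (nat_lit 8589934592) .dd))) (.ch (nat_lit 5) (.ev (nat_lit 848) (nat_lit 512) (.ev (nat_lit 980)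
 (nat_lit 524288) (.ev (nat_lit 989) (nat_lit 8589934592) .dd)))))) (.br (nat_lit 11) (.br (nat_lit 10) (.ch
 (nat_lit 6) (.ev (nat_lit 848) (nat_lit 8590459392) .dd)) (.ch (nat_lit 10) (.ev (nat_lit 848) (nat_lit
 524288) (.ev (nat_lit 2724) (nat_lit 512) (.ev (nat_lit 2733) (nat_lit 8589934592) .dd))))) (.br (nat_lit 12)
 (.ch (nat_lit 11) (.ev (nat_lit 848) (nat_lit 8589935104) (.ev (nat_lit 861) (nat_lit 524288) .dd))) (.br
 (nat_lit 15) (.ch (nat_lit 12) (.ev (nat_lit 848) (nat_lit 8590459392) .dd)) (.ch (nat_lit 15) (.ev (nat_lit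
 848) (nat_lit 8589934592) (.ev (nat_lit 1184) (nat_lit 512) (.ev (nat_lit 1197) (nat_lit 524288)
 .dd))))))))))) (.ch (nat_lit 4) (.ev (nat_lit 112) (nat_lit 4406636446208) (.nd (nat_lit 1504) (.br (nat_lit
 9) (.br (nat_lit 5) (.br (nat_lit 4) (.ch (nat_lit 1) (.ev (nat_lit 1520) (nat_lit 524288) (.ev (nat_lit 1533)
 (nat_lit 8) .dd))) (.ch (nat_lit 4) (.ev (nat_lit 1520) (nat_lit 524288) (.ev (nat_lit 1533) (nat_lit 8)
 .dd)))) (.br (nat_lit 8) (.ch (nat_lit 5) (.ev (nat_lit 1520) (nat_lit 8) (.ev (nat_lit 1533) (nat_lit 524288)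
 .dd))) (.ch (nat_lit 8) (.ev (nat_lit 1520) (nat_lit 8) (.ev (nat_lit 1533) (nat_lit 524288) .dd))))) (.br
 (nat_lit 13) (.br (nat_lit 11) (.ch (nat_lit 9) (.ev (nat_lit 1520) (nat_lit 8) (.ev (nat_lit 1533) (nat_lit
 524288) .dd))) (.ch (nat_lit 11) (.ev (nat_lit 1556) (nat_lit 524288) (.ev (nat_lit 1565) (nat_lit 8) .dd))))
 (.br (nat_lit 14) (.ch (nat_lit 13) (.ev (nat_lit 1520) (nat_lit 524288) (.ev (nat_lit 1533) (nat_lit 8)
 .dd))) (.br (nat_lit 16) (.ch (nat_lit 14) (.ev (nat_lit 1520) (nat_lit 524296) .dd)) (.ch (nat_lit 16) (.ev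
 (nat_lit 2196) (nat_lit 8) (.ev (nat_lit 2205) (nat_lit 524288) .dd))))))))))) (.br (nat_lit 11) (.ch (nat_lit
 7) (.ev (nat_lit 112) (nat_lit 4406636970504) .dd)) (.ch (nat_lit 11) (.ev (nat_lit 112) (nat_lit 520) (.nd
 (nat_lit 624) (.br (nat_lit 10) (.br (nat_lit 5) (.br (nat_lit 4) (.ch (nat_lit 1) (.ev (nat_lit 640) (nat_lit
 524288) (.ev (nat_lit 1408) (nat_lit 4398046511104) (.ev (nat_lit 1421) (nat_lit 8589934592) .dd)))) (.ch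
 (nat_lit 4) (.ev (nat_lit 640) (nat_lit 4406636969984) .dd))) (.br (nat_lit 6) (.ch (nat_lit 5) (.ev (nat_lit
 640) (nat_lit 4398046511104) (.ev (nat_lit 2228) (nat_lit 524288) (.ev (nat_lit 2237) (nat_lit 8589934592)
 .dd)))) (.ch (nat_lit 6) (.ev (nat_lit 640) (nat_lit 524288) (.ev (nat_lit 2724) (nat_lit 4398046511104) (.ev
 (nat_lit 2733) (nat_lit 8589934592) .dd)))))) (.br (nat_lit 12) (.br (nat_lit 11) (.ch (nat_lit 10) (.ev
 (nat_lit 640) (nat_lit 4406636445696) (.ev (nat_lit 653) (nat_lit 524288) .dd))) (.ch (nat_lit 11) (.ev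
 (nat_lit 640) (nat_lit 4406636969984) .dd))) (.br (nat_lit 13) (.ch (nat_lit 12) (.ev (nat_lit 640) (nat_lit
 4406636445696) (.ev (nat_lit 653) (nat_lit 524288) .dd))) (.br (nat_lit 16) (.ch (nat_lit 13) (.ev (nat_lit
 640) (nat_lit 4398046511104) (.ev (nat_lit 1556) (nat_lit 524288) (.ev (nat_lit 1565) (nat_lit 8589934592)
 .dd)))) (.ch (nat_lit 16) (.ev (nat_lit 1556) (nat_lit 524288) (.ev (nat_lit 1824) (nat_lit 4406636445696)
 .dd)))))))))))) (.br (nat_lit 15) (.br (nat_lit 13) (.ch (nat_lit 12) (.ev (nat_lit 112) (nat_lit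
 4398047035904) (.nd (nat_lit 1360) (.br (nat_lit 6) (.br (nat_lit 3) (.ch (nat_lit 2) (.ev (nat_lit 1376)
 (nat_lit 8589934600) .dd)) (.br (nat_lit 4) (.ch (nat_lit 3) (.ev (nat_lit 2308) (nat_lit 8589934592) (.ev
 (nat_lit 2317) (nat_lit 8) .dd))) (.ch (nat_lit 4) (.ev (nat_lit 1376) (nat_lit 8) (.ev (nat_lit 1389)
 (nat_lit 8589934592) .dd))))) (.br (nat_lit 8) (.ch (nat_lit 6) (.ev (nat_lit 2132) (nat_lit 8589934592) (.ev
 (nat_lit 2141) (nat_lit 8) .dd))) (.br (nat_lit 10) (.ch (nat_lit 8) (.ev (nat_lit 1376) (nat_lit 8589934600)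
 .dd)) (.ch (nat_lit 10) (.ev (nat_lit 1376) (nat_lit 8589934592) (.ev (nat_lit 1389) (nat_lit 8) .dd)))))))))
 (.ch (nat_lit 13) (.ev (nat_lit 112) (nat_lit 4398047035400) (.ev (nat_lit 2656) (nat_lit 8589934592) (.ev
 (nat_lit 2669) (nat_lit 512) .dd))))) (.br (nat_lit 16) (.ch (nat_lit 15) (.ev (nat_lit 112) (nat_lit 520)
 (.nd (nat_lit 944) (.br (nat_lit 7) (.br (nat_lit 4) (.br (nat_lit 3) (.ch (nat_lit 1) (.ev (nat_lit 960)
 (nat_lit 8589934592) (.ev (nat_lit 2464) (nat_lit 4398047035392) .dd))) (.ch (nat_lit 3) (.ev (nat_lit 960)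
 (nat_lit 4398047035392) (.ev (nat_lit 973) (nat_lit 8589934592) .dd)))) (.br (nat_lit 6) (.ch (nat_lit 4) (.ev
 (nat_lit 1408) (nat_lit 4398046511104) (.ev (nat_lit 2096) (nat_lit 524288) (.ev (nat_lit 2109) (nat_lit
 8589934592) .dd)))) (.ch (nat_lit 6) (.ev (nat_lit 1204) (nat_lit 524288) (.ev (nat_lit 2772) (nat_lit
 8589934592) (.ev (nat_lit 2781) (nat_lit 4398046511104) .dd)))))) (.br (nat_lit 12) (.br (nat_lit 10) (.ch
 (nat_lit 7) (.ev (nat_lit 960) (nat_lit 524288) (.ev (nat_lit 1764) (nat_lit 8589934592) (.ev (nat_lit 1773)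
 (nat_lit 4398046511104) .dd)))) (.ch (nat_lit 10) (.ev (nat_lit 960) (nat_lit 4406636445696) (.ev (nat_lit
 973) (nat_lit 524288) .dd)))) (.br (nat_lit 16) (.ch (nat_lit 12) (.ev (nat_lit 960) (nat_lit 524288) (.ev
 (nat_lit 2736) (nat_lit 4398046511104) (.ev (nat_lit 2749) (nat_lit 8589934592) .dd)))) (.ch (nat_lit 16) (.ev
 (nat_lit 960) (nat_lit 4406636445696) (.ev (nat_lit 973) (nat_lit 524288) .dd))))))))) (.ch (nat_lit 16) (.ev
 (nat_lit 112) (nat_lit 4406636446216) (.ev (nat_lit 125) (nat_lit 524288) .dd)))))))))) (.br (nat_lit 7) (.ch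
 (nat_lit 3) (.ev (nat_lit 48) (nat_lit 4752515792896) (.nd (nat_lit 400) (.br (nat_lit 6) (.br (nat_lit 4)
 (.br (nat_lit 3) (.ch (nat_lit 2) (.ev (nat_lit 416) (nat_lit 4294967808) (.nd (nat_lit 1360) (.br (nat_lit 8)
 (.br (nat_lit 3) (.br (nat_lit 2) (.ch (nat_lit 1) (.ev (nat_lit 1376) (nat_lit 524296) (.ev (nat_lit 1396)
 (nat_lit 268435456) (.ev (nat_lit 1405) (nat_lit 2) .dd)))) (.ch (nat_lit 2) (.ev (nat_lit 1376) (nat_lit
 268959744) (.ev (nat_lit 2564) (nat_lit 2) (.ev (nat_lit 2573) (nat_lit 8) .dd))))) (.br (nat_lit 4) (.ch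
 (nat_lit 3) (.ev (nat_lit 1376) (nat_lit 524288) (.ev (nat_lit 1396) (nat_lit 268435456) (.ev (nat_lit 1604)
 (nat_lit 8) (.ev (nat_lit 1613) (nat_lit 2) .dd))))) (.ch (nat_lit 4) (.ev (nat_lit 1376) (nat_lit 524288)
 (.ev (nat_lit 1396) (nat_lit 268435464) (.ev (nat_lit 1405) (nat_lit 2) .dd)))))) (.br (nat_lit 10) (.br
 (nat_lit 9) (.ch (nat_lit 8) (.ev (nat_lit 1376) (nat_lit 268435466) (.ev (nat_lit 1389) (nat_lit 524288)
 .dd))) (.ch (nat_lit 9) (.ev (nat_lit 1376) (nat_lit 268435458) (.ev (nat_lit 2644) (nat_lit 8) (.ev (nat_lit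
 2653) (nat_lit 524288) .dd))))) (.br (nat_lit 13) (.ch (nat_lit 10) (.ev (nat_lit 1376) (nat_lit 524288) (.ev
 (nat_lit 2288) (nat_lit 2) (.fin (nat_lit 576451406435140203))))) (.br (nat_lit 15) (.ch (nat_lit 13) (.ev
 (nat_lit 1376) (nat_lit 10) (.nd (nat_lit 4048) (.br (nat_lit 15) (.ch (nat_lit 1) (.fin (nat_lit
 576459103025971775))) (.ch (nat_lit 15) (.ev (nat_lit 4064) (nat_lit 268435456) (.ev (nat_lit 4077) (nat_lit
 524288) .dd))))))) (.ch (nat_lit 15) (.ev (nat_lit 1376) (nat_lit 268435466) (.ev (nat_lit 1389) (nat_lit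
 524288) .dd)))))))))) (.ch (nat_lit 3) (.ev (nat_lit 416) (nat_lit 4563927562) .dd))) (.br (nat_lit 5) (.ch
 (nat_lit 4) (.ev (nat_lit 416) (nat_lit 524802) (.nd (nat_lit 1136) (.br (nat_lit 8) (.br (nat_lit 3) (.br
 (nat_lit 2) (.ch (nat_lit 0) (.ev (nat_lit 1152) (nat_lit 4563402752) (.ev (nat_lit 1165) (nat_lit 8) .dd)))
 (.ch (nat_lit 2) (.ev (nat_lit 1152) (nat_lit 8) (.ev (nat_lit 1460) (nat_lit 4294967296) (.ev (nat_lit 1469)
 (nat_lit 268435456) .dd))))) (.br (nat_lit 5) (.ch (nat_lit 3) (.ev (nat_lit 1152) (nat_lit 268435456) (.ev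
 (nat_lit 1172) (nat_lit 4294967296) (.ev (nat_lit 1181) (nat_lit 8) .dd)))) (.ch (nat_lit 5) (.ev (nat_lit
 1152) (nat_lit 4563402760) .dd)))) (.br (nat_lit 15) (.br (nat_lit 13) (.ch (nat_lit 8) (.ev (nat_lit 1152)
 (nat_lit 4294967296) (.ev (nat_lit 1604) (nat_lit 268435456) (.ev (nat_lit 1613) (nat_lit 8) .dd)))) (.ch
 (nat_lit 13) (.ev (nat_lit 1152) (nat_lit 4563402752) (.ev (nat_lit 1165) (nat_lit 8) .dd)))) (.br (nat_lit
 16) (.ch (nat_lit 15) (.ev (nat_lit 1152) (nat_lit 268435456) (.ev (nat_lit 2916) (nat_lit 8) (.ev (nat_lit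
 2925) (nat_lit 4294967296) .dd)))) (.ch (nat_lit 16) (.ev (nat_lit 1152) (nat_lit 4294967304) (.ev (nat_lit
 1165) (nat_lit 268435456) .dd))))))))) (.ch (nat_lit 5) (.ev (nat_lit 416) (nat_lit 4563927042) (.nd (nat_lit
 2432) (.br (nat_lit 5) (.br (nat_lit 3) (.ch (nat_lit 2) (.ev (nat_lit 2448) (nat_lit 520) .dd)) (.br (nat_lit
 4) (.ch (nat_lit 3) (.ev (nat_lit 2448) (nat_lit 512) (.ev (nat_lit 2461) (nat_lit 8) .dd))) (.ch (nat_lit 4)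
 (.ev (nat_lit 2564) (nat_lit 8) (.ev (nat_lit 2573) (nat_lit 512) .dd))))) (.br (nat_lit 11) (.br (nat_lit 6)
 (.ch (nat_lit 5) (.ev (nat_lit 2448) (nat_lit 512) (.ev (nat_lit 2461) (nat_lit 8) .dd))) (.ch (nat_lit 6)
 (.ev (nat_lit 2544) (nat_lit 520) .dd))) (.br (nat_lit 15) (.ch (nat_lit 11) (.ev (nat_lit 2448) (nat_lit 8)
 (.ev (nat_lit 2461) (nat_lit 512) .dd))) (.ch (nat_lit 15) (.ev (nat_lit 2448) (nat_lit 520) .dd))))))))))
 (.br (nat_lit 12) (.br (nat_lit 7) (.ch (nat_lit 6) (.ev (nat_lit 416) (nat_lit 4563403266) (.ev (nat_lit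
 2144) (nat_lit 8) (.ev (nat_lit 2157) (nat_lit 524288) .dd)))) (.ch (nat_lit 7) (.ev (nat_lit 416) (nat_lit
 524296) (.nd (nat_lit 832) (.br (nat_lit 12) (.br (nat_lit 3) (.br (nat_lit 2) (.ch (nat_lit 0) (.ev (nat_lit
 848) (nat_lit 268435968) (.ev (nat_lit 1204) (nat_lit 2) (.ev (nat_lit 1213) (nat_lit 4294967296) .dd)))) (.ch
 (nat_lit 2) (.ev (nat_lit 848) (nat_lit 4563402752) (.ev (nat_lit 1172) (nat_lit 2) (.ev (nat_lit 1181)
 (nat_lit 512) .dd))))) (.br (nat_lit 4) (.ch (nat_lit 3) (.ev (nat_lit 848) (nat_lit 268435968) (.ev (nat_lit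
 1764) (nat_lit 2) (.ev (nat_lit 1773) (nat_lit 4294967296) .dd)))) (.ch (nat_lit 4) (.ev (nat_lit 848)
 (nat_lit 268435456) (.ev (nat_lit 1236) (nat_lit 512) (.ev (nat_lit 1604) (nat_lit 2) (.ev (nat_lit 1613)
 (nat_lit 4294967296) .dd))))))) (.br (nat_lit 14) (.br (nat_lit 13) (.ch (nat_lit 12) (.ev (nat_lit 848)
 (nat_lit 4563403266) .dd)) (.ch (nat_lit 13) (.ev (nat_lit 848) (nat_lit 268435970) (.ev (nat_lit 861)
 (nat_lit 4294967296) .dd)))) (.br (nat_lit 16) (.ch (nat_lit 14) (.ev (nat_lit 848) (nat_lit 2) (.ev (nat_lit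
 868) (nat_lit 4294967296) (.ev (nat_lit 1172) (nat_lit 512) (.ev (nat_lit 1181) (nat_lit 268435456) .dd)))))
 (.ch (nat_lit 16) (.ev (nat_lit 848) (nat_lit 4294967808) (.ev (nat_lit 1172) (nat_lit 2) (.ev (nat_lit 1181)
 (nat_lit 268435456) .dd))))))))))) (.br (nat_lit 14) (.ch (nat_lit 12) (.ev (nat_lit 416) (nat_lit 268435458)
 (.nd (nat_lit 688) (.br (nat_lit 8) (.br (nat_lit 4) (.ch (nat_lit 3) (.ev (nat_lit 704) (nat_lit 524296) (.ev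
 (nat_lit 1316) (nat_lit 4294967296) (.ev (nat_lit 1325) (nat_lit 512) .dd)))) (.br (nat_lit 6) (.ch (nat_lit
 4) (.ev (nat_lit 704) (nat_lit 4295492096) (.ev (nat_lit 717) (nat_lit 8) .dd))) (.ch (nat_lit 6) (.ev
 (nat_lit 1796) (nat_lit 512) (.ev (nat_lit 2340) (nat_lit 4294967296) (.ev (nat_lit 2564) (nat_lit 8) (.ev
 (nat_lit 2573) (nat_lit 524288) .dd))))))) (.br (nat_lit 11) (.br (nat_lit 10) (.ch (nat_lit 8) (.ev (nat_lit
 704) (nat_lit 4294967816) (.ev (nat_lit 717) (nat_lit 524288) .dd))) (.ch (nat_lit 10) (.ev (nat_lit 704)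
 (nat_lit 524296) (.ev (nat_lit 3844) (nat_lit 512) (.ev (nat_lit 3853) (nat_lit 4294967296) .dd))))) (.br
 (nat_lit 12) (.ch (nat_lit 11) (.ev (nat_lit 704) (nat_lit 524296) (.ev (nat_lit 1332) (nat_lit 4294967296)
 (.ev (nat_lit 1341) (nat_lit 512) .dd)))) (.ch (nat_lit 12) (.ev (nat_lit 704) (nat_lit 520) (.ev (nat_lit
 1920) (nat_lit 524288) (.ev (nat_lit 1933) (nat_lit 4294967296) .dd)))))))))) (.br (nat_lit 15) (.ch (nat_lit
 14) (.ev (nat_lit 416) (nat_lit 10) (.ev (nat_lit 516) (nat_lit 524288) (.nd (nat_lit 944) (.br (nat_lit 8)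
 (.br (nat_lit 5) (.br (nat_lit 3) (.ch (nat_lit 1) (.ev (nat_lit 960) (nat_lit 268435456) (.ev (nat_lit 1264)
 (nat_lit 512) (.ev (nat_lit 1277) (nat_lit 4294967296) .dd)))) (.ch (nat_lit 3) (.ev (nat_lit 960) (nat_lit
 4563402752) (.ev (nat_lit 973) (nat_lit 512) .dd)))) (.br (nat_lit 6) (.ch (nat_lit 5) (.ev (nat_lit 980)
 (nat_lit 268435456) (.ev (nat_lit 2004) (nat_lit 512) (.ev (nat_lit 2013) (nat_lit 4294967296) .dd)))) (.ch
 (nat_lit 6) (.ev (nat_lit 960) (nat_lit 4563403264) .dd)))) (.br (nat_lit 12) (.br (nat_lit 9) (.ch (nat_lit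
 8) (.ev (nat_lit 960) (nat_lit 268435456) (.ev (nat_lit 980) (nat_lit 512) (.ev (nat_lit 989) (nat_lit
 4294967296) .dd)))) (.ch (nat_lit 9) (.ev (nat_lit 2644) (nat_lit 512) (.ev (nat_lit 3988) (nat_lit
 4294967296) (.ev (nat_lit 3997) (nat_lit 268435456) .dd))))) (.br (nat_lit 15) (.ch (nat_lit 12) (.ev (nat_lit
 960) (nat_lit 4294967808) (.ev (nat_lit 973) (nat_lit 268435456) .dd))) (.br (nat_lit 16) (.ch (nat_lit 15)
 (.ev (nat_lit 960) (nat_lit 4563403264) .dd)) (.ch (nat_lit 16) (.ev (nat_lit 960) (nat_lit 268435968) (.ev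
 (nat_lit 973) (nat_lit 4294967296) .dd))))))))))) (.ch (nat_lit 15) (.ev (nat_lit 416) (nat_lit 10) (.nd
 (nat_lit 752) (.br (nat_lit 4) (.br (nat_lit 2) (.br (nat_lit 1) (.ch (nat_lit 0) (.ev (nat_lit 768) (nat_lit
 4563927552) .dd)) (.ch (nat_lit 1) (.ev (nat_lit 768) (nat_lit 4294967808) (.ev (nat_lit 788) (nat_lit
 268435456) (.ev (nat_lit 797) (nat_lit 524288) .dd))))) (.br (nat_lit 3) (.ch (nat_lit 2) (.ev (nat_lit 768)
 (nat_lit 4294967808) (.ev (nat_lit 1668) (nat_lit 268435456) (.ev (nat_lit 1677) (nat_lit 524288) .dd)))) (.ch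
 (nat_lit 3) (.ev (nat_lit 768) (nat_lit 524288) (.ev (nat_lit 1680) (nat_lit 268435456) (.ev (nat_lit 2608)
 (nat_lit 4294967808) .dd)))))) (.br (nat_lit 11) (.br (nat_lit 9) (.ch (nat_lit 4) (.ev (nat_lit 768) (nat_lit
 4563927552) .dd)) (.ch (nat_lit 9) (.ev (nat_lit 768) (nat_lit 524800) (.ev (nat_lit 1876) (nat_lit 268435456)
 (.ev (nat_lit 1885) (nat_lit 4294967296) .dd))))) (.br (nat_lit 12) (.ch (nat_lit 11) (.ev (nat_lit 768)
 (nat_lit 268435968) (.ev (nat_lit 2564) (nat_lit 524288) (.ev (nat_lit 2573) (nat_lit 4294967296) .dd)))) (.br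
 (nat_lit 16) (.ch (nat_lit 12) (.ev (nat_lit 768) (nat_lit 268960256) (.ev (nat_lit 781) (nat_lit 4294967296)
 .dd))) (.ch (nat_lit 16) (.ev (nat_lit 768) (nat_lit 524288) (.ev (nat_lit 1428) (nat_lit 512) (.fin (nat_lit
 576429416213070396))))))))))))))))))) (.ch (nat_lit 7) (.ev (nat_lit 48) (nat_lit 4750368047106) (.nd (nat_lit
 160) (.br (nat_lit 8) (.br (nat_lit 5) (.br (nat_lit 3) (.ch (nat_lit 2) (.ev (nat_lit 176) (nat_lit
 6710886912) (.nd (nat_lit 1136) (.br (nat_lit 9) (.br (nat_lit 4) (.br (nat_lit 3) (.ch (nat_lit 1) (.ev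
 (nat_lit 1152) (nat_lit 786440) .dd)) (.ch (nat_lit 3) (.ev (nat_lit 1152) (nat_lit 786432) (.ev (nat_lit
 1165) (nat_lit 8) .dd)))) (.br (nat_lit 7) (.ch (nat_lit 4) (.ev (nat_lit 1152) (nat_lit 524288) (.ev (nat_lit
 1568) (nat_lit 8) (.ev (nat_lit 1581) (nat_lit 262144) .dd)))) (.ch (nat_lit 7) (.ev (nat_lit 1152) (nat_lit
 262144) (.ev (nat_lit 2772) (nat_lit 8) (.ev (nat_lit 2781) (nat_lit 524288) .dd)))))) (.br (nat_lit 12) (.br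
 (nat_lit 11) (.ch (nat_lit 9) (.ev (nat_lit 1152) (nat_lit 262152) (.ev (nat_lit 1165) (nat_lit 524288) .dd)))
 (.ch (nat_lit 11) (.ev (nat_lit 1152) (nat_lit 786440) .dd))) (.br (nat_lit 13) (.ch (nat_lit 12) (.ev
 (nat_lit 1152) (nat_lit 262144) (.ev (nat_lit 2772) (nat_lit 8) (.ev (nat_lit 2781) (nat_lit 524288) .dd))))
 (.ch (nat_lit 13) (.ev (nat_lit 1152) (nat_lit 524296) (.ev (nat_lit 1165) (nat_lit 262144) .dd))))))))) (.ch
 (nat_lit 3) (.ev (nat_lit 176) (nat_lit 268697608) (.nd (nat_lit 944) (.br (nat_lit 8) (.br (nat_lit 4) (.br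
 (nat_lit 2) (.ch (nat_lit 1) (.ev (nat_lit 960) (nat_lit 4295491584) (.ev (nat_lit 1172) (nat_lit 2147483648)
 (.ev (nat_lit 1181) (nat_lit 512) .dd)))) (.ch (nat_lit 2) (.ev (nat_lit 960) (nat_lit 2147483648) (.ev
 (nat_lit 1732) (nat_lit 524288) (.ev (nat_lit 2084) (nat_lit 4294967296) (.ev (nat_lit 2093) (nat_lit 512)
 .dd)))))) (.br (nat_lit 6) (.ch (nat_lit 4) (.ev (nat_lit 960) (nat_lit 4294967296) (.ev (nat_lit 1172)
 (nat_lit 2147483648) (.ev (nat_lit 1284) (nat_lit 512) (.ev (nat_lit 1293) (nat_lit 524288) .dd))))) (.ch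
 (nat_lit 6) (.ev (nat_lit 960) (nat_lit 4295492096) (.ev (nat_lit 973) (nat_lit 2147483648) .dd))))) (.br
 (nat_lit 12) (.br (nat_lit 9) (.ch (nat_lit 8) (.ev (nat_lit 960) (nat_lit 6442451456) (.ev (nat_lit 973)
 (nat_lit 524288) .dd))) (.ch (nat_lit 9) (.ev (nat_lit 960) (nat_lit 6442450944) (.ev (nat_lit 980) (nat_lit
 512) (.ev (nat_lit 989) (nat_lit 524288) .dd))))) (.br (nat_lit 15) (.ch (nat_lit 12) (.ev (nat_lit 960)
 (nat_lit 524800) (.fin (nat_lit 576461302072295984)))) (.br (nat_lit 16) (.ch (nat_lit 15) (.ev (nat_lit 960)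
 (nat_lit 2148007936) (.ev (nat_lit 1172) (nat_lit 4294967296) (.ev (nat_lit 1181) (nat_lit 512) .dd)))) (.ch
 (nat_lit 16) (.ev (nat_lit 960) (nat_lit 4294967808) (.ev (nat_lit 1172) (nat_lit 2147483648) (.ev (nat_lit
 1181) (nat_lit 524288) .dd)))))))))))) (.br (nat_lit 6) (.ch (nat_lit 5) (.ev (nat_lit 176) (nat_lit
 6711410696) (.nd (nat_lit 752) (.br (nat_lit 9) (.br (nat_lit 6) (.br (nat_lit 5) (.ch (nat_lit 1) (.ev
 (nat_lit 768) (nat_lit 262656) .dd)) (.ch (nat_lit 5) (.ev (nat_lit 768) (nat_lit 262656) .dd))) (.br (nat_lit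
 7) (.ch (nat_lit 6) (.ev (nat_lit 768) (nat_lit 262656) .dd)) (.ch (nat_lit 7) (.ev (nat_lit 768) (nat_lit
 512) (.ev (nat_lit 781) (nat_lit 262144) .dd))))) (.br (nat_lit 11) (.br (nat_lit 10) (.ch (nat_lit 9) (.ev
 (nat_lit 768) (nat_lit 262144) (.ev (nat_lit 781) (nat_lit 512) .dd))) (.ch (nat_lit 10) (.ev (nat_lit 768)
 (nat_lit 512) (.ev (nat_lit 781) (nat_lit 262144) .dd)))) (.br (nat_lit 12) (.ch (nat_lit 11) (.ev (nat_lit
 1172) (nat_lit 512) (.ev (nat_lit 1181) (nat_lit 262144) .dd))) (.br (nat_lit 13) (.ch (nat_lit 12) (.ev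
 (nat_lit 1764) (nat_lit 262144) (.ev (nat_lit 1773) (nat_lit 512) .dd))) (.ch (nat_lit 13) (.ev (nat_lit 768)
 (nat_lit 512) (.ev (nat_lit 781) (nat_lit 262144) .dd)))))))))) (.ch (nat_lit 6) (.ev (nat_lit 176) (nat_lit
 268697600) (.nd (nat_lit 576) (.br (nat_lit 8) (.br (nat_lit 6) (.br (nat_lit 2) (.ch (nat_lit 0) (.ev
 (nat_lit 592) (nat_lit 524288) (.ev (nat_lit 788) (nat_lit 512) (.ev (nat_lit 1668) (nat_lit 4294967296) (.ev
 (nat_lit 1732) (nat_lit 8) (.ev (nat_lit 1741) (nat_lit 2147483648) .dd)))))) (.ch (nat_lit 2) (.ev (nat_lit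
 592) (nat_lit 6442450944) (.ev (nat_lit 2576) (nat_lit 8) (.ev (nat_lit 3556) (nat_lit 524288) (.ev (nat_lit
 3565) (nat_lit 512) .dd)))))) (.br (nat_lit 7) (.ch (nat_lit 6) (.ev (nat_lit 592) (nat_lit 6442450952) (.ev
 (nat_lit 788) (nat_lit 512) (.ev (nat_lit 797) (nat_lit 524288) .dd)))) (.ch (nat_lit 7) (.ev (nat_lit 592)
 (nat_lit 2148007936) (.ev (nat_lit 1556) (nat_lit 8) (.nd (nat_lit 4016) (.br (nat_lit 13) (.ch (nat_lit 5)
 (.fin (nat_lit 576523974171116110))) (.ch (nat_lit 13) (.ev (nat_lit 4032) (nat_lit 4294967808) .dd)))))))))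
 (.br (nat_lit 12) (.br (nat_lit 11) (.ch (nat_lit 8) (.ev (nat_lit 592) (nat_lit 4295492104) (.ev (nat_lit
 605) (nat_lit 2147483648) .dd))) (.ch (nat_lit 11) (.ev (nat_lit 592) (nat_lit 4294967808) (.ev (nat_lit 1952)
 (nat_lit 2147483648) (.ev (nat_lit 2052) (nat_lit 8) (.ev (nat_lit 2061) (nat_lit 524288) .dd)))))) (.br
 (nat_lit 15) (.ch (nat_lit 12) (.ev (nat_lit 592) (nat_lit 2147484168) (.ev (nat_lit 804) (nat_lit 4294967296)
 (.ev (nat_lit 813) (nat_lit 524288) .dd)))) (.br (nat_lit 16) (.ch (nat_lit 15) (.ev (nat_lit 592) (nat_lit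
 4295492096) (.ev (nat_lit 660) (nat_lit 2147483648) (.ev (nat_lit 669) (nat_lit 8) .dd)))) (.ch (nat_lit 16)
 (.ev (nat_lit 592) (nat_lit 520) (.ev (nat_lit 1732) (nat_lit 4294967296) (.nd (nat_lit 3360) (.br (nat_lit
 15) (.ch (nat_lit 0) (.fin (nat_lit 576451406411022905))) (.ch (nat_lit 15) (.ev (nat_lit 3444) (nat_lit
 524288) (.ev (nat_lit 3453) (nat_lit 2147483648) .dd))))))))))))))))) (.br (nat_lit 12) (.br (nat_lit 10) (.ch
 (nat_lit 8) (.ev (nat_lit 176) (nat_lit 524296) (.nd (nat_lit 576) (.br (nat_lit 9) (.br (nat_lit 7) (.br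
 (nat_lit 6) (.ch (nat_lit 5) (.ev (nat_lit 592) (nat_lit 6710886912) (.ev (nat_lit 605) (nat_lit 262144)
 .dd))) (.ch (nat_lit 6) (.ev (nat_lit 592) (nat_lit 6710886912) (.ev (nat_lit 605) (nat_lit 262144) .dd))))
 (.br (nat_lit 8) (.ch (nat_lit 7) (.ev (nat_lit 592) (nat_lit 262656) (.ev (nat_lit 868) (nat_lit 268435456)
 (.ev (nat_lit 1028) (nat_lit 4294967296) (.ev (nat_lit 1037) (nat_lit 2147483648) .dd))))) (.ch (nat_lit 8)
 (.ev (nat_lit 592) (nat_lit 2415919104) (.ev (nat_lit 660) (nat_lit 512) (.ev (nat_lit 3780) (nat_lit 262144)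
 (.ev (nat_lit 3789) (nat_lit 4294967296) .dd))))))) (.br (nat_lit 12) (.br (nat_lit 11) (.ch (nat_lit 9) (.ev
 (nat_lit 592) (nat_lit 4563664896) (.ev (nat_lit 3136) (nat_lit 2147483648) (.ev (nat_lit 3149) (nat_lit 512)
 .dd)))) (.ch (nat_lit 11) (.ev (nat_lit 592) (nat_lit 262144) (.ev (nat_lit 660) (nat_lit 2147483648) (.ev
 (nat_lit 2644) (nat_lit 268435456) (.ev (nat_lit 2852) (nat_lit 512) (.ev (nat_lit 2861) (nat_lit 4294967296)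
 .dd))))))) (.br (nat_lit 13) (.ch (nat_lit 12) (.ev (nat_lit 592) (nat_lit 4563665408) (.ev (nat_lit 605)
 (nat_lit 2147483648) .dd))) (.br (nat_lit 15) (.ch (nat_lit 13) (.ev (nat_lit 592) (nat_lit 2147484160) (.ev
 (nat_lit 788) (nat_lit 4294967296) (.ev (nat_lit 1568) (nat_lit 268435456) (.ev (nat_lit 1581) (nat_lit
 262144) .dd))))) (.ch (nat_lit 15) (.ev (nat_lit 592) (nat_lit 268435968) (.ev (nat_lit 1204) (nat_lit
 4294967296) (.nd (nat_lit 3296) (.br (nat_lit 6) (.ch (nat_lit 1) (.ev (nat_lit 3312) (nat_lit 262144) (.ev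
 (nat_lit 3325) (nat_lit 2147483648) .dd))) (.br (nat_lit 16) (.ch (nat_lit 6) (.ev (nat_lit 3312) (nat_lit
 2147483648) (.ev (nat_lit 3325) (nat_lit 262144) .dd))) (.ch (nat_lit 16) (.fin (nat_lit
 576454704964780598)))))))))))))))) (.ch (nat_lit 10) (.ev (nat_lit 176) (nat_lit 6710886408) (.nd (nat_lit
 1504) (.br (nat_lit 8) (.br (nat_lit 5) (.br (nat_lit 2) (.ch (nat_lit 0) (.ev (nat_lit 1520) (nat_lit 786944)
 .dd)) (.ch (nat_lit 2) (.ev (nat_lit 1520) (nat_lit 512) (.ev (nat_lit 2208) (nat_lit 524288) (.ev (nat_lit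
 2221) (nat_lit 262144) .dd))))) (.br (nat_lit 6) (.ch (nat_lit 5) (.ev (nat_lit 1520) (nat_lit 512) (.ev
 (nat_lit 1776) (nat_lit 524288) (.ev (nat_lit 1789) (nat_lit 262144) .dd)))) (.ch (nat_lit 6) (.ev (nat_lit
 1520) (nat_lit 262656) (.ev (nat_lit 1533) (nat_lit 524288) .dd))))) (.br (nat_lit 12) (.br (nat_lit 9) (.ch
 (nat_lit 8) (.ev (nat_lit 1520) (nat_lit 786432) (.ev (nat_lit 1533) (nat_lit 512) .dd))) (.ch (nat_lit 9)
 (.ev (nat_lit 1520) (nat_lit 262656) (.ev (nat_lit 1533) (nat_lit 524288) .dd)))) (.br (nat_lit 14) (.ch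
 (nat_lit 12) (.ev (nat_lit 1520) (nat_lit 786944) .dd)) (.ch (nat_lit 14) (.ev (nat_lit 1520) (nat_lit 262144)
 (.ev (nat_lit 1680) (nat_lit 524288) (.ev (nat_lit 1693) (nat_lit 512) .dd))))))))))) (.br (nat_lit 13) (.ch
 (nat_lit 12) (.ev (nat_lit 176) (nat_lit 2415919624) (.nd (nat_lit 688) (.br (nat_lit 8) (.br (nat_lit 4) (.ch
 (nat_lit 1) (.ev (nat_lit 704) (nat_lit 4294967296) (.ev (nat_lit 1668) (nat_lit 524288) (.ev (nat_lit 1677)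
 (nat_lit 262144) .dd)))) (.br (nat_lit 5) (.ch (nat_lit 4) (.ev (nat_lit 704) (nat_lit 4295229440) (.ev
 (nat_lit 717) (nat_lit 524288) .dd))) (.ch (nat_lit 5) (.ev (nat_lit 704) (nat_lit 4295491584) (.ev (nat_lit
 717) (nat_lit 262144) .dd))))) (.br (nat_lit 15) (.br (nat_lit 10) (.ch (nat_lit 8) (.ev (nat_lit 704)
 (nat_lit 4294967296) (.nd (nat_lit 3248) (.br (nat_lit 15) (.ch (nat_lit 10) (.ev (nat_lit 3264) (nat_lit
 524288) (.ev (nat_lit 3277) (nat_lit 262144) .dd))) (.ch (nat_lit 15) (.ev (nat_lit 3264) (nat_lit 262144)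
 (.ev (nat_lit 3277) (nat_lit 524288) .dd))))))) (.ch (nat_lit 10) (.ev (nat_lit 704) (nat_lit 786432) (.ev
 (nat_lit 717) (nat_lit 4294967296) .dd)))) (.br (nat_lit 16) (.ch (nat_lit 15) (.ev (nat_lit 1876) (nat_lit
 4294967296) (.ev (nat_lit 2196) (nat_lit 262144) (.ev (nat_lit 2205) (nat_lit 524288) .dd)))) (.ch (nat_lit
 16) (.ev (nat_lit 704) (nat_lit 262144) (.ev (nat_lit 2724) (nat_lit 524288) (.ev (nat_lit 2733) (nat_lit
 4294967296) .dd)))))))))) (.br (nat_lit 16) (.ch (nat_lit 13) (.ev (nat_lit 176) (nat_lit 786952) (.nd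
 (nat_lit 1136) (.br (nat_lit 8) (.br (nat_lit 5) (.br (nat_lit 4) (.ch (nat_lit 3) (.ev (nat_lit 1152)
 (nat_lit 6442450944) (.ev (nat_lit 1165) (nat_lit 268435456) .dd))) (.ch (nat_lit 4) (.ev (nat_lit 1152)
 (nat_lit 6442450944) (.ev (nat_lit 1165) (nat_lit 268435456) .dd)))) (.br (nat_lit 7) (.ch (nat_lit 5) (.ev
 (nat_lit 1152) (nat_lit 4294967296) (.ev (nat_lit 1396) (nat_lit 268435456) (.ev (nat_lit 1405) (nat_lit
 2147483648) .dd)))) (.ch (nat_lit 7) (.ev (nat_lit 1152) (nat_lit 4294967296) (.ev (nat_lit 1396) (nat_lit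
 268435456) (.ev (nat_lit 1405) (nat_lit 2147483648) .dd)))))) (.br (nat_lit 11) (.br (nat_lit 10) (.ch
 (nat_lit 8) (.ev (nat_lit 1152) (nat_lit 2147483648) (.ev (nat_lit 1604) (nat_lit 268435456) (.ev (nat_lit
 1613) (nat_lit 4294967296) .dd)))) (.ch (nat_lit 10) (.ev (nat_lit 1152) (nat_lit 2415919104) (.ev (nat_lit
 1165) (nat_lit 4294967296) .dd)))) (.br (nat_lit 12) (.ch (nat_lit 11) (.ev (nat_lit 1152) (nat_lit
 6710886400) .dd)) (.ch (nat_lit 12) (.ev (nat_lit 1152) (nat_lit 6710886400) .dd)))))))) (.ch (nat_lit 16)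
 (.ev (nat_lit 176) (nat_lit 4564189696) (.nd (nat_lit 1136) (.br (nat_lit 12) (.br (nat_lit 4) (.br (nat_lit
 2) (.ch (nat_lit 1) (.ev (nat_lit 2576) (nat_lit 2147483648) (.ev (nat_lit 2589) (nat_lit 8) .dd))) (.ch
 (nat_lit 2) (.ev (nat_lit 1152) (nat_lit 2147483656) .dd))) (.br (nat_lit 7) (.ch (nat_lit 4) (.ev (nat_lit
 1152) (nat_lit 2147483648) (.ev (nat_lit 1165) (nat_lit 8) .dd))) (.ch (nat_lit 7) (.ev (nat_lit 1668)
 (nat_lit 2147483648) (.ev (nat_lit 1677) (nat_lit 8) .dd))))) (.br (nat_lit 14) (.br (nat_lit 13) (.ch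
 (nat_lit 12) (.ev (nat_lit 1152) (nat_lit 2147483656) .dd)) (.ch (nat_lit 13) (.ev (nat_lit 1152) (nat_lit
 2147483656) .dd))) (.br (nat_lit 15) (.ch (nat_lit 14) (.ev (nat_lit 1152) (nat_lit 2147483648) (.ev (nat_lit
 1165) (nat_lit 8) .dd))) (.ch (nat_lit 15) (.fin (nat_lit 576460202542842433)))))))))))))))))) (.br (nat_lit
 14) (.br (nat_lit 13) (.ch (nat_lit 12) (.ev (nat_lit 48) (nat_lit 4402744918026) (.nd (nat_lit 480) (.br
 (nat_lit 9) (.br (nat_lit 7) (.br (nat_lit 3) (.ch (nat_lit 1) (.ev (nat_lit 496) (nat_lit 345744867328) (.ev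
 (nat_lit 2724) (nat_lit 512) (.ev (nat_lit 2733) (nat_lit 8589934592) .dd)))) (.ch (nat_lit 3) (.ev (nat_lit
 496) (nat_lit 277025391104) (.ev (nat_lit 2644) (nat_lit 8589934592) (.ev (nat_lit 2653) (nat_lit 68719476736)
 .dd))))) (.br (nat_lit 8) (.ch (nat_lit 7) (.ev (nat_lit 496) (nat_lit 68719476736) (.nd (nat_lit 832) (.br
 (nat_lit 10) (.br (nat_lit 7) (.br (nat_lit 1) (.ch (nat_lit 0) (.ev (nat_lit 848) (nat_lit 10737418752) (.ev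
 (nat_lit 861) (nat_lit 274877906944) .dd))) (.ch (nat_lit 1) (.ev (nat_lit 848) (nat_lit 2147484160) (.ev
 (nat_lit 1616) (nat_lit 274877906944) (.ev (nat_lit 1629) (nat_lit 8589934592) .dd))))) (.br (nat_lit 8) (.ch
 (nat_lit 7) (.ev (nat_lit 848) (nat_lit 274877907456) (.ev (nat_lit 2464) (nat_lit 10737418240) .dd))) (.ch
 (nat_lit 8) (.ev (nat_lit 848) (nat_lit 274877906944) (.ev (nat_lit 868) (nat_lit 2147483648) (.ev (nat_lit
 2644) (nat_lit 8589934592) (.ev (nat_lit 2653) (nat_lit 512) .dd))))))) (.br (nat_lit 15) (.br (nat_lit 11)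
 (.ch (nat_lit 10) (.ev (nat_lit 848) (nat_lit 8589935104) (.ev (nat_lit 868) (nat_lit 2147483648) (.ev
 (nat_lit 877) (nat_lit 274877906944) .dd)))) (.ch (nat_lit 11) (.ev (nat_lit 848) (nat_lit 512) (.ev (nat_lit
 1732) (nat_lit 8589934592) (.ev (nat_lit 1876) (nat_lit 274877906944) (.ev (nat_lit 1885) (nat_lit 2147483648)
 .dd)))))) (.br (nat_lit 16) (.ch (nat_lit 15) (.ev (nat_lit 848) (nat_lit 277025390592) (.ev (nat_lit 1604)
 (nat_lit 512) (.ev (nat_lit 1613) (nat_lit 8589934592) .dd)))) (.ch (nat_lit 16) (.ev (nat_lit 848) (nat_lit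
 8589935104) (.ev (nat_lit 1316) (nat_lit 2147483648) (.ev (nat_lit 1325) (nat_lit 274877906944) .dd))))))))))
 (.ch (nat_lit 8) (.ev (nat_lit 496) (nat_lit 352187318272) (.nd (nat_lit 1360) (.br (nat_lit 8) (.br (nat_lit
 5) (.br (nat_lit 3) (.ch (nat_lit 0) (.ev (nat_lit 1376) (nat_lit 2147484160) .dd)) (.ch (nat_lit 3) (.ev
 (nat_lit 1376) (nat_lit 2147483648) (.ev (nat_lit 1389) (nat_lit 512) .dd)))) (.br (nat_lit 6) (.ch (nat_lit
 5) (.ev (nat_lit 1396) (nat_lit 2147483648) (.ev (nat_lit 1405) (nat_lit 512) .dd))) (.ch (nat_lit 6) (.ev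
 (nat_lit 1376) (nat_lit 2147484160) .dd)))) (.br (nat_lit 11) (.br (nat_lit 9) (.ch (nat_lit 8) (.ev (nat_lit
 1376) (nat_lit 512) (.ev (nat_lit 1389) (nat_lit 2147483648) .dd))) (.ch (nat_lit 9) (.ev (nat_lit 1376)
 (nat_lit 2147483648) (.ev (nat_lit 1389) (nat_lit 512) .dd)))) (.br (nat_lit 12) (.ch (nat_lit 11) (.ev
 (nat_lit 1376) (nat_lit 512) (.ev (nat_lit 1389) (nat_lit 2147483648) .dd))) (.br (nat_lit 16) (.ch (nat_lit
 12) (.ev (nat_lit 1696) (nat_lit 512) (.ev (nat_lit 1709) (nat_lit 2147483648) .dd))) (.ch (nat_lit 16) (.ev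
 (nat_lit 1556) (nat_lit 512) (.ev (nat_lit 1565) (nat_lit 2147483648) .dd)))))))))))) (.br (nat_lit 13) (.br
 (nat_lit 11) (.ch (nat_lit 9) (.ev (nat_lit 496) (nat_lit 274877907456) (.nd (nat_lit 1504) (.br (nat_lit 9)
 (.br (nat_lit 5) (.br (nat_lit 4) (.ch (nat_lit 3) (.ev (nat_lit 1520) (nat_lit 2147483648) (.ev (nat_lit
 1732) (nat_lit 68719476736) (.ev (nat_lit 1741) (nat_lit 8589934592) .dd)))) (.ch (nat_lit 4) (.ev (nat_lit
 1520) (nat_lit 10737418240) (.ev (nat_lit 1533) (nat_lit 68719476736) .dd)))) (.br (nat_lit 6) (.ch (nat_lit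
 5) (.ev (nat_lit 1520) (nat_lit 10737418240) (.ev (nat_lit 1533) (nat_lit 68719476736) .dd))) (.ch (nat_lit 6)
 (.ev (nat_lit 1520) (nat_lit 68719476736) (.ev (nat_lit 1556) (nat_lit 2147483648) (.ev (nat_lit 1565)
 (nat_lit 8589934592) .dd)))))) (.br (nat_lit 14) (.br (nat_lit 11) (.ch (nat_lit 9) (.ev (nat_lit 1520)
 (nat_lit 77309411328) (.ev (nat_lit 1533) (nat_lit 2147483648) .dd))) (.ch (nat_lit 11) (.ev (nat_lit 1520)
 (nat_lit 70866960384) (.ev (nat_lit 1533) (nat_lit 8589934592) .dd)))) (.br (nat_lit 15) (.ch (nat_lit 14)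
 (.ev (nat_lit 1520) (nat_lit 2147483648) (.ev (nat_lit 1556) (nat_lit 68719476736) (.ev (nat_lit 1565)
 (nat_lit 8589934592) .dd)))) (.ch (nat_lit 15) (.ev (nat_lit 1520) (nat_lit 2147483648) (.ev (nat_lit 1556)
 (nat_lit 8589934592) (.ev (nat_lit 1565) (nat_lit 68719476736) .dd)))))))))) (.ch (nat_lit 11) (.ev (nat_lit
 496) (nat_lit 274877907456) (.nd (nat_lit 1136) (.br (nat_lit 9) (.br (nat_lit 7) (.br (nat_lit 6) (.ch
 (nat_lit 5) (.ev (nat_lit 1172) (nat_lit 8589934592) (.ev (nat_lit 1556) (nat_lit 68719476736) (.ev (nat_lit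
 1565) (nat_lit 2147483648) .dd)))) (.ch (nat_lit 6) (.ev (nat_lit 1152) (nat_lit 79456894976) .dd))) (.br
 (nat_lit 8) (.ch (nat_lit 7) (.ev (nat_lit 1152) (nat_lit 70866960384) (.ev (nat_lit 1165) (nat_lit
 8589934592) .dd))) (.ch (nat_lit 8) (.ev (nat_lit 1152) (nat_lit 77309411328) (.ev (nat_lit 1165) (nat_lit
 2147483648) .dd))))) (.br (nat_lit 14) (.br (nat_lit 10) (.ch (nat_lit 9) (.ev (nat_lit 1152) (nat_lit
 10737418240) (.ev (nat_lit 1165) (nat_lit 68719476736) .dd))) (.ch (nat_lit 10) (.ev (nat_lit 1152) (nat_lit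
 8589934592) (.ev (nat_lit 1556) (nat_lit 68719476736) (.ev (nat_lit 1565) (nat_lit 2147483648) .dd))))) (.br
 (nat_lit 15) (.ch (nat_lit 14) (.ev (nat_lit 1556) (nat_lit 68719476736) (.ev (nat_lit 1984) (nat_lit
 2147483648) (.ev (nat_lit 1997) (nat_lit 8589934592) .dd)))) (.ch (nat_lit 15) (.ev (nat_lit 1556) (nat_lit
 68719476736) (.ev (nat_lit 2804) (nat_lit 8589934592) (.ev (nat_lit 2813) (nat_lit 2147483648) .dd)))))))))))
 (.br (nat_lit 15) (.ch (nat_lit 13) (.ev (nat_lit 496) (nat_lit 8589935104) (.nd (nat_lit 1136) (.br (nat_lit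
 7) (.br (nat_lit 3) (.ch (nat_lit 0) (.ev (nat_lit 1152) (nat_lit 2147483648) (.ev (nat_lit 2688) (nat_lit
 343597383680) .dd))) (.br (nat_lit 6) (.ch (nat_lit 3) (.ev (nat_lit 1152) (nat_lit 343597383680) (.ev
 (nat_lit 1165) (nat_lit 2147483648) .dd))) (.ch (nat_lit 6) (.ev (nat_lit 1152) (nat_lit 2147483648) (.ev
 (nat_lit 1556) (nat_lit 274877906944) (.ev (nat_lit 1565) (nat_lit 68719476736) .dd)))))) (.br (nat_lit 12)
 (.br (nat_lit 8) (.ch (nat_lit 7) (.ev (nat_lit 1152) (nat_lit 345744867328) .dd)) (.ch (nat_lit 8) (.ev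
 (nat_lit 1152) (nat_lit 68719476736) (.ev (nat_lit 1396) (nat_lit 274877906944) (.ev (nat_lit 1405) (nat_lit
 2147483648) .dd))))) (.br (nat_lit 14) (.ch (nat_lit 12) (.ev (nat_lit 1152) (nat_lit 68719476736) (.ev
 (nat_lit 2512) (nat_lit 277025390592) .dd))) (.ch (nat_lit 14) (.ev (nat_lit 1152) (nat_lit 70866960384) (.ev
 (nat_lit 1165) (nat_lit 274877906944) .dd))))))))) (.br (nat_lit 16) (.ch (nat_lit 15) (.ev (nat_lit 496)
 (nat_lit 285615325184) (.fin (nat_lit 576462401572389440)))) (.ch (nat_lit 16) (.ev (nat_lit 496) (nat_lit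
 79456894976) (.nd (nat_lit 1504) (.br (nat_lit 7) (.br (nat_lit 3) (.br (nat_lit 1) (.ch (nat_lit 0) (.ev
 (nat_lit 1520) (nat_lit 274877906944) (.ev (nat_lit 1533) (nat_lit 512) .dd))) (.ch (nat_lit 1) (.ev (nat_lit
 1520) (nat_lit 274877906944) (.ev (nat_lit 1533) (nat_lit 512) .dd)))) (.br (nat_lit 4) (.ch (nat_lit 3) (.ev
 (nat_lit 1520) (nat_lit 274877907456) .dd)) (.ch (nat_lit 4) (.ev (nat_lit 1520) (nat_lit 274877906944) (.ev
 (nat_lit 1533) (nat_lit 512) .dd))))) (.br (nat_lit 15) (.br (nat_lit 14) (.ch (nat_lit 7) (.ev (nat_lit 1520)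
 (nat_lit 512) (.ev (nat_lit 1533) (nat_lit 274877906944) .dd))) (.ch (nat_lit 14) (.ev (nat_lit 1520) (nat_lit
 512) (.ev (nat_lit 1533) (nat_lit 274877906944) .dd)))) (.br (nat_lit 16) (.ch (nat_lit 15) (.ev (nat_lit
 1520) (nat_lit 274877906944) (.ev (nat_lit 1533) (nat_lit 512) .dd))) (.ch (nat_lit 16) (.ev (nat_lit 1520)
 (nat_lit 274877907456) .dd))))))))))))))) (.ch (nat_lit 13) (.ev (nat_lit 48) (nat_lit 4408784454152) (.nd
 (nat_lit 400) (.br (nat_lit 8) (.br (nat_lit 5) (.br (nat_lit 4) (.ch (nat_lit 1) (.ev (nat_lit 416) (nat_lit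
 73282879490) (.nd (nat_lit 1360) (.br (nat_lit 11) (.br (nat_lit 5) (.br (nat_lit 2) (.ch (nat_lit 1) (.ev
 (nat_lit 1376) (nat_lit 262144) (.ev (nat_lit 2672) (nat_lit 134217728) (.ev (nat_lit 2685) (nat_lit
 274877906944) .dd)))) (.ch (nat_lit 2) (.ev (nat_lit 1376) (nat_lit 274878169088) (.ev (nat_lit 1389) (nat_lit
 134217728) .dd)))) (.br (nat_lit 9) (.ch (nat_lit 5) (.ev (nat_lit 1376) (nat_lit 134479872) (.ev (nat_lit
 1389) (nat_lit 274877906944) .dd))) (.ch (nat_lit 9) (.ev (nat_lit 1376) (nat_lit 275012386816) .dd)))) (.br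
 (nat_lit 15) (.br (nat_lit 13) (.ch (nat_lit 11) (.ev (nat_lit 1408) (nat_lit 134217728) (.ev (nat_lit 2084)
 (nat_lit 262144) (.ev (nat_lit 2093) (nat_lit 274877906944) .dd)))) (.ch (nat_lit 13) (.ev (nat_lit 1396)
 (nat_lit 262144) (.ev (nat_lit 1744) (nat_lit 134217728) (.ev (nat_lit 1757) (nat_lit 274877906944) .dd)))))
 (.br (nat_lit 16) (.ch (nat_lit 15) (.ev (nat_lit 1376) (nat_lit 274878169088) (.ev (nat_lit 1389) (nat_lit
 134217728) .dd))) (.ch (nat_lit 16) (.ev (nat_lit 1376) (nat_lit 134479872) (.ev (nat_lit 1389) (nat_lit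
 274877906944) .dd))))))))) (.ch (nat_lit 4) (.ev (nat_lit 416) (nat_lit 68988174336) (.nd (nat_lit 1136) (.br
 (nat_lit 9) (.br (nat_lit 3) (.br (nat_lit 2) (.ch (nat_lit 1) (.ev (nat_lit 1152) (nat_lit 134217728) (.ev
 (nat_lit 1396) (nat_lit 2) (.ev (nat_lit 1556) (nat_lit 4294967296) (.ev (nat_lit 1565) (nat_lit 274877906944)
 .dd))))) (.ch (nat_lit 2) (.ev (nat_lit 1152) (nat_lit 275012124674) (.ev (nat_lit 1165) (nat_lit 4294967296)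
 .dd)))) (.br (nat_lit 7) (.ch (nat_lit 3) (.ev (nat_lit 1152) (nat_lit 279307091968) (.ev (nat_lit 1165)
 (nat_lit 2) .dd))) (.ch (nat_lit 7) (.ev (nat_lit 1152) (nat_lit 279307091970) .dd)))) (.br (nat_lit 11) (.br
 (nat_lit 10) (.ch (nat_lit 9) (.ev (nat_lit 1556) (nat_lit 4294967296) (.ev (nat_lit 2176) (nat_lit
 274877906944) (.ev (nat_lit 2352) (nat_lit 134217728) (.ev (nat_lit 2365) (nat_lit 2) .dd))))) (.ch (nat_lit
 10) (.ev (nat_lit 1152) (nat_lit 4429185024) (.ev (nat_lit 2196) (nat_lit 2) (.ev (nat_lit 2205) (nat_lit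
 274877906944) .dd))))) (.br (nat_lit 14) (.ch (nat_lit 11) (.ev (nat_lit 1152) (nat_lit 2) (.ev (nat_lit 1824)
 (nat_lit 274877906944) (.ev (nat_lit 2132) (nat_lit 4294967296) (.ev (nat_lit 2141) (nat_lit 134217728)
 .dd))))) (.br (nat_lit 15) (.ch (nat_lit 14) (.ev (nat_lit 1152) (nat_lit 279307091968) (.ev (nat_lit 1165)
 (nat_lit 2) .dd))) (.ch (nat_lit 15) (.ev (nat_lit 1152) (nat_lit 134217730) (.ev (nat_lit 1556) (nat_lit
 4294967296) (.ev (nat_lit 1565) (nat_lit 274877906944) .dd)))))))))))) (.br (nat_lit 7) (.ch (nat_lit 5) (.ev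
 (nat_lit 416) (nat_lit 347892350976) (.nd (nat_lit 832) (.br (nat_lit 6) (.br (nat_lit 4) (.br (nat_lit 3)
 (.ch (nat_lit 1) (.ev (nat_lit 848) (nat_lit 262144) (.ev (nat_lit 1492) (nat_lit 2) (.ev (nat_lit 1616)
 (nat_lit 134217728) (.ev (nat_lit 1629) (nat_lit 268435456) .dd))))) (.ch (nat_lit 3) (.ev (nat_lit 848)
 (nat_lit 262146) (.ev (nat_lit 2736) (nat_lit 134217728) (.ev (nat_lit 2749) (nat_lit 268435456) .dd))))) (.br
 (nat_lit 5) (.ch (nat_lit 4) (.ev (nat_lit 848) (nat_lit 268697602) (.ev (nat_lit 861) (nat_lit 134217728)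
 .dd))) (.ch (nat_lit 5) (.ev (nat_lit 848) (nat_lit 402915330) .dd)))) (.br (nat_lit 12) (.br (nat_lit 7) (.ch
 (nat_lit 6) (.ev (nat_lit 848) (nat_lit 134479872) (.ev (nat_lit 1012) (nat_lit 268435456) (.ev (nat_lit 1021)
 (nat_lit 2) .dd)))) (.ch (nat_lit 7) (.ev (nat_lit 848) (nat_lit 402653184) (.ev (nat_lit 2496) (nat_lit 2)
 (.ev (nat_lit 2509) (nat_lit 262144) .dd))))) (.br (nat_lit 14) (.ch (nat_lit 12) (.ev (nat_lit 848) (nat_lit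
 134217730) (.ev (nat_lit 1668) (nat_lit 268435456) (.ev (nat_lit 1677) (nat_lit 262144) .dd)))) (.br (nat_lit
 15) (.ch (nat_lit 14) (.ev (nat_lit 848) (nat_lit 262146) (.fin (nat_lit 576474496184566347)))) (.ch (nat_lit
 15) (.ev (nat_lit 848) (nat_lit 268697602) (.ev (nat_lit 861) (nat_lit 134217728) .dd)))))))))) (.ch (nat_lit
 7) (.ev (nat_lit 416) (nat_lit 343597383680) (.nd (nat_lit 832) (.br (nat_lit 8) (.br (nat_lit 5) (.br
 (nat_lit 2) (.ch (nat_lit 0) (.ev (nat_lit 848) (nat_lit 402653184) (.ev (nat_lit 1604) (nat_lit 4294967296)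
 (.ev (nat_lit 2564) (nat_lit 2) (.ev (nat_lit 2573) (nat_lit 262144) .dd))))) (.ch (nat_lit 2) (.ev (nat_lit
 848) (nat_lit 268435456) (.ev (nat_lit 1616) (nat_lit 2) (.ev (nat_lit 1668) (nat_lit 4294967296) (.fin
 (nat_lit 576458003521684027))))))) (.br (nat_lit 6) (.ch (nat_lit 5) (.ev (nat_lit 848) (nat_lit 402915328)
 (.ev (nat_lit 1396) (nat_lit 4294967296) (.ev (nat_lit 1405) (nat_lit 2) .dd)))) (.ch (nat_lit 6) (.ev
 (nat_lit 848) (nat_lit 402653184) (.ev (nat_lit 1668) (nat_lit 4294967296) (.ev (nat_lit 2724) (nat_lit 2)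
 (.ev (nat_lit 2733) (nat_lit 262144) .dd))))))) (.br (nat_lit 14) (.br (nat_lit 13) (.ch (nat_lit 8) (.ev
 (nat_lit 848) (nat_lit 4429185026) (.ev (nat_lit 1460) (nat_lit 262144) (.ev (nat_lit 1469) (nat_lit
 268435456) .dd)))) (.ch (nat_lit 13) (.ev (nat_lit 848) (nat_lit 4295229442) (.ev (nat_lit 2496) (nat_lit
 134217728) (.ev (nat_lit 2509) (nat_lit 268435456) .dd))))) (.br (nat_lit 15) (.ch (nat_lit 14) (.ev (nat_lit
 848) (nat_lit 4563402754) (.ev (nat_lit 1556) (nat_lit 134217728) (.ev (nat_lit 1565) (nat_lit 262144) .dd))))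
 (.br (nat_lit 16) (.ch (nat_lit 15) (.ev (nat_lit 848) (nat_lit 402915330) (.ev (nat_lit 861) (nat_lit
 4294967296) .dd))) (.ch (nat_lit 16) (.ev (nat_lit 848) (nat_lit 4697882624) (.ev (nat_lit 861) (nat_lit 2)
 .dd)))))))))))) (.br (nat_lit 13) (.br (nat_lit 11) (.ch (nat_lit 8) (.ev (nat_lit 416) (nat_lit 268697600)
 (.nd (nat_lit 832) (.br (nat_lit 8) (.br (nat_lit 4) (.br (nat_lit 1) (.ch (nat_lit 0) (.ev (nat_lit 848)
 (nat_lit 73148661762) (.ev (nat_lit 861) (nat_lit 274877906944) .dd))) (.ch (nat_lit 1) (.ev (nat_lit 848)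
 (nat_lit 279172874242) (.ev (nat_lit 980) (nat_lit 68719476736) (.ev (nat_lit 989) (nat_lit 134217728)
 .dd))))) (.br (nat_lit 5) (.ch (nat_lit 4) (.ev (nat_lit 848) (nat_lit 343731601410) (.ev (nat_lit 861)
 (nat_lit 4294967296) .dd))) (.ch (nat_lit 5) (.ev (nat_lit 848) (nat_lit 68719476738) (.ev (nat_lit 868)
 (nat_lit 4294967296) (.ev (nat_lit 980) (nat_lit 274877906944) (.ev (nat_lit 989) (nat_lit 134217728)
 .dd))))))) (.br (nat_lit 10) (.br (nat_lit 9) (.ch (nat_lit 8) (.ev (nat_lit 848) (nat_lit 134217728) (.ev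
 (nat_lit 1556) (nat_lit 2) (.ev (nat_lit 1632) (nat_lit 4294967296) (.ev (nat_lit 1824) (nat_lit 68719476736)
 (.ev (nat_lit 1837) (nat_lit 274877906944) .dd)))))) (.ch (nat_lit 9) (.ev (nat_lit 848) (nat_lit 4294967298)
 (.ev (nat_lit 1396) (nat_lit 134217728) (.ev (nat_lit 2724) (nat_lit 68719476736) (.ev (nat_lit 2733) (nat_lit
 274877906944) .dd)))))) (.br (nat_lit 12) (.ch (nat_lit 10) (.ev (nat_lit 848) (nat_lit 68719476736) (.ev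
 (nat_lit 1556) (nat_lit 2) (.ev (nat_lit 2624) (nat_lit 274877906944) (.fin (nat_lit 576504183003759215))))))
 (.br (nat_lit 16) (.ch (nat_lit 12) (.ev (nat_lit 848) (nat_lit 343731601410) (.ev (nat_lit 861) (nat_lit
 4294967296) .dd))) (.ch (nat_lit 16) (.ev (nat_lit 848) (nat_lit 347892350978) (.ev (nat_lit 861) (nat_lit
 134217728) .dd)))))))))) (.ch (nat_lit 11) (.ev (nat_lit 416) (nat_lit 134479872) (.nd (nat_lit 832) (.br
 (nat_lit 11) (.br (nat_lit 7) (.br (nat_lit 3) (.ch (nat_lit 1) (.ev (nat_lit 848) (nat_lit 274877906944) (.ev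
 (nat_lit 1408) (nat_lit 68719476736) (.ev (nat_lit 1440) (nat_lit 2) (.ev (nat_lit 1876) (nat_lit 4294967296)
 (.ev (nat_lit 1885) (nat_lit 268435456) .dd)))))) (.ch (nat_lit 3) (.ev (nat_lit 848) (nat_lit 275146342402)
 (.ev (nat_lit 1616) (nat_lit 73014444032) .dd)))) (.br (nat_lit 10) (.ch (nat_lit 7) (.ev (nat_lit 848)
 (nat_lit 4563402754) (.ev (nat_lit 1556) (nat_lit 68719476736) (.ev (nat_lit 1565) (nat_lit 274877906944)
 .dd)))) (.ch (nat_lit 10) (.ev (nat_lit 848) (nat_lit 68987912192) (.ev (nat_lit 868) (nat_lit 2) (.ev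
 (nat_lit 1556) (nat_lit 274877906944) (.ev (nat_lit 1565) (nat_lit 4294967296) .dd))))))) (.br (nat_lit 14)
 (.br (nat_lit 13) (.ch (nat_lit 11) (.ev (nat_lit 848) (nat_lit 275146342400) (.ev (nat_lit 1428) (nat_lit
 4294967296) (.ev (nat_lit 2672) (nat_lit 2) (.ev (nat_lit 2685) (nat_lit 68719476736) .dd))))) (.ch (nat_lit
 13) (.ev (nat_lit 848) (nat_lit 348160786434) .dd))) (.br (nat_lit 16) (.ch (nat_lit 14) (.ev (nat_lit 848)
 (nat_lit 68987912192) (.ev (nat_lit 868) (nat_lit 2) (.ev (nat_lit 1556) (nat_lit 274877906944) (.ev (nat_lit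
 1565) (nat_lit 4294967296) .dd))))) (.ch (nat_lit 16) (.ev (nat_lit 848) (nat_lit 279172874240) (.ev (nat_lit
 868) (nat_lit 268435456) (.ev (nat_lit 1616) (nat_lit 2) (.ev (nat_lit 1629) (nat_lit 68719476736)
 .dd)))))))))))) (.br (nat_lit 16) (.ch (nat_lit 13) (.ev (nat_lit 416) (nat_lit 348295266306) .dd)) (.ch
 (nat_lit 16) (.ev (nat_lit 416) (nat_lit 69122392066) (.nd (nat_lit 1360) (.br (nat_lit 10) (.br (nat_lit 3)
 (.ch (nat_lit 0) (.ev (nat_lit 1376) (nat_lit 4294967296) (.ev (nat_lit 1389) (nat_lit 274877906944) .dd)))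
 (.br (nat_lit 7) (.ch (nat_lit 3) (.ev (nat_lit 1376) (nat_lit 279172874240) .dd)) (.ch (nat_lit 7) (.ev
 (nat_lit 1376) (nat_lit 274877906944) (.ev (nat_lit 1389) (nat_lit 4294967296) .dd))))) (.br (nat_lit 14) (.ch
 (nat_lit 10) (.ev (nat_lit 1376) (nat_lit 4294967296) (.ev (nat_lit 1389) (nat_lit 274877906944) .dd))) (.br
 (nat_lit 15) (.ch (nat_lit 14) (.ev (nat_lit 1376) (nat_lit 274877906944) (.ev (nat_lit 1389) (nat_lit
 4294967296) .dd))) (.ch (nat_lit 15) (.ev (nat_lit 1376) (nat_lit 4294967296) (.ev (nat_lit 1389) (nat_lit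
 274877906944) .dd)))))))))))))))) (.br (nat_lit 15) (.ch (nat_lit 14) (.ev (nat_lit 48) (nat_lit 288031244802)
 (.nd (nat_lit 272) (.br (nat_lit 8) (.br (nat_lit 4) (.br (nat_lit 3) (.ch (nat_lit 0) (.ev (nat_lit 288)
 (nat_lit 4466900467712) (.ev (nat_lit 2228) (nat_lit 524288) (.ev (nat_lit 2576) (nat_lit 8) (.ev (nat_lit
 2589) (nat_lit 2147483648) .dd))))) (.ch (nat_lit 3) (.ev (nat_lit 288) (nat_lit 71001964552) (.ev (nat_lit
 301) (nat_lit 4398046511104) .dd)))) (.br (nat_lit 7) (.ch (nat_lit 4) (.ev (nat_lit 288) (nat_lit 134217728)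
 (.nd (nat_lit 624) (.br (nat_lit 10) (.br (nat_lit 5) (.br (nat_lit 2) (.ch (nat_lit 0) (.ev (nat_lit 640)
 (nat_lit 68719476744) (.ev (nat_lit 1012) (nat_lit 2147483648) (.ev (nat_lit 1764) (nat_lit 262144) (.ev
 (nat_lit 2084) (nat_lit 524288) (.ev (nat_lit 2093) (nat_lit 4398046511104) .dd)))))) (.ch (nat_lit 2) (.ev
 (nat_lit 640) (nat_lit 68720001024) (.ev (nat_lit 1744) (nat_lit 8) (.ev (nat_lit 2644) (nat_lit
 4398046511104) (.nd (nat_lit 3584) (.br (nat_lit 14) (.ch (nat_lit 8) (.ev (nat_lit 3600) (nat_lit 262144)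
 (.ev (nat_lit 3613) (nat_lit 2147483648) .dd))) (.ch (nat_lit 14) (.fin (nat_lit 576468998631670332))))))))))
 (.br (nat_lit 9) (.ch (nat_lit 5) (.ev (nat_lit 640) (nat_lit 4466766249992) (.ev (nat_lit 804) (nat_lit
 524288) (.ev (nat_lit 813) (nat_lit 2147483648) .dd)))) (.ch (nat_lit 9) (.ev (nat_lit 640) (nat_lit
 4466766249984) (.ev (nat_lit 2196) (nat_lit 8) (.ev (nat_lit 3508) (nat_lit 2147483648) (.ev (nat_lit 3517)
 (nat_lit 524288) .dd))))))) (.br (nat_lit 14) (.br (nat_lit 12) (.ch (nat_lit 10) (.ev (nat_lit 640) (nat_lit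
 2148270088) (.ev (nat_lit 1332) (nat_lit 68719476736) (.ev (nat_lit 1341) (nat_lit 4398046511104) .dd)))) (.ch
 (nat_lit 12) (.ev (nat_lit 640) (nat_lit 4400193994760) (.ev (nat_lit 1348) (nat_lit 68719476736) (.nd
 (nat_lit 3328) (.br (nat_lit 10) (.ch (nat_lit 8) (.fin (nat_lit 576444809347547687))) (.br (nat_lit 15) (.ch
 (nat_lit 10) (.ev (nat_lit 3424) (nat_lit 786432) .dd)) (.ch (nat_lit 15) (.ev (nat_lit 3344) (nat_lit 786432)
 .dd))))))))) (.br (nat_lit 15) (.ch (nat_lit 14) (.ev (nat_lit 640) (nat_lit 4468914257920) (.ev (nat_lit 653)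
 (nat_lit 8) .dd))) (.br (nat_lit 16) (.ch (nat_lit 15) (.ev (nat_lit 640) (nat_lit 2148270080) (.ev (nat_lit
 1264) (nat_lit 4398046511104) (.ev (nat_lit 1764) (nat_lit 8) (.ev (nat_lit 1773) (nat_lit 68719476736)
 .dd))))) (.ch (nat_lit 16) (.ev (nat_lit 640) (nat_lit 262144) (.ev (nat_lit 820) (nat_lit 524288) (.ev
 (nat_lit 2308) (nat_lit 2147483648) (.ev (nat_lit 2724) (nat_lit 8) (.ev (nat_lit 3828) (nat_lit
 4398046511104) (.ev (nat_lit 3837) (nat_lit 68719476736) .dd)))))))))))))) (.ch (nat_lit 7) (.ev (nat_lit 288)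
 (nat_lit 4400328474624) (.nd (nat_lit 1136) (.br (nat_lit 5) (.br (nat_lit 2) (.br (nat_lit 1) (.ch (nat_lit
 0) (.ev (nat_lit 1152) (nat_lit 68719476736) (.ev (nat_lit 1172) (nat_lit 524288) (.ev (nat_lit 1181) (nat_lit
 8) .dd)))) (.ch (nat_lit 1) (.ev (nat_lit 1172) (nat_lit 524288) (.ev (nat_lit 1204) (nat_lit 68719476736)
 (.ev (nat_lit 1213) (nat_lit 8) .dd))))) (.br (nat_lit 4) (.ch (nat_lit 2) (.ev (nat_lit 1152) (nat_lit
 68720001032) .dd)) (.ch (nat_lit 4) (.ev (nat_lit 1152) (nat_lit 524296) (.ev (nat_lit 1165) (nat_lit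
 68719476736) .dd))))) (.br (nat_lit 10) (.br (nat_lit 7) (.ch (nat_lit 5) (.ev (nat_lit 1152) (nat_lit
 68719476736) (.ev (nat_lit 1316) (nat_lit 524288) (.ev (nat_lit 1325) (nat_lit 8) .dd)))) (.ch (nat_lit 7)
 (.ev (nat_lit 1152) (nat_lit 68719476736) (.ev (nat_lit 1668) (nat_lit 8) (.ev (nat_lit 1677) (nat_lit 524288)
 .dd))))) (.br (nat_lit 15) (.ch (nat_lit 10) (.ev (nat_lit 1152) (nat_lit 8) (.ev (nat_lit 1204) (nat_lit
 524288) (.ev (nat_lit 1213) (nat_lit 68719476736) .dd)))) (.br (nat_lit 16) (.ch (nat_lit 15) (.ev (nat_lit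
 1152) (nat_lit 68720001032) .dd)) (.ch (nat_lit 16) (.ev (nat_lit 1152) (nat_lit 68720001024) (.ev (nat_lit
 1165) (nat_lit 8) .dd)))))))))))) (.br (nat_lit 13) (.br (nat_lit 9) (.ch (nat_lit 8) (.ev (nat_lit 288)
 (nat_lit 68853956616) (.nd (nat_lit 1360) (.br (nat_lit 7) (.br (nat_lit 5) (.br (nat_lit 4) (.ch (nat_lit 2)
 (.ev (nat_lit 1376) (nat_lit 2147483648) (.ev (nat_lit 2804) (nat_lit 524288) (.ev (nat_lit 2813) (nat_lit
 4398046511104) .dd)))) (.ch (nat_lit 4) (.ev (nat_lit 1376) (nat_lit 4400194519040) .dd))) (.br (nat_lit 6)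
 (.ch (nat_lit 5) (.ev (nat_lit 1376) (nat_lit 4400193994752) (.ev (nat_lit 1389) (nat_lit 524288) .dd))) (.ch
 (nat_lit 6) (.ev (nat_lit 1376) (nat_lit 4398047035392) (.ev (nat_lit 1389) (nat_lit 2147483648) .dd))))) (.br
 (nat_lit 15) (.br (nat_lit 8) (.ch (nat_lit 7) (.ev (nat_lit 1604) (nat_lit 2147483648) (.ev (nat_lit 2804)
 (nat_lit 524288) (.ev (nat_lit 2813) (nat_lit 4398046511104) .dd)))) (.ch (nat_lit 8) (.ev (nat_lit 1376)
 (nat_lit 2148007936) (.ev (nat_lit 1389) (nat_lit 4398046511104) .dd)))) (.br (nat_lit 16) (.ch (nat_lit 15)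
 (.ev (nat_lit 1376) (nat_lit 4400194519040) .dd)) (.ch (nat_lit 16) (.ev (nat_lit 1376) (nat_lit
 4398047035392) (.ev (nat_lit 1389) (nat_lit 2147483648) .dd))))))))) (.ch (nat_lit 9) (.ev (nat_lit 288)
 (nat_lit 2148007944) (.nd (nat_lit 832) (.br (nat_lit 11) (.br (nat_lit 4) (.br (nat_lit 3) (.ch (nat_lit 2)
 (.ev (nat_lit 848) (nat_lit 4466900467712) .dd)) (.ch (nat_lit 3) (.ev (nat_lit 848) (nat_lit 68853694464)
 (.ev (nat_lit 2272) (nat_lit 4398046773248) .dd)))) (.br (nat_lit 6) (.ch (nat_lit 4) (.ev (nat_lit 848)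
 (nat_lit 4466765987840) (.ev (nat_lit 1940) (nat_lit 134217728) (.ev (nat_lit 1949) (nat_lit 262144) .dd))))
 (.ch (nat_lit 6) (.ev (nat_lit 848) (nat_lit 4466766249984) (.ev (nat_lit 861) (nat_lit 134217728) .dd)))))
 (.br (nat_lit 14) (.br (nat_lit 13) (.ch (nat_lit 11) (.ev (nat_lit 848) (nat_lit 4466900467712) .dd)) (.ch
 (nat_lit 13) (.ev (nat_lit 848) (nat_lit 4398046773248) (.ev (nat_lit 1396) (nat_lit 134217728) (.ev (nat_lit
 1405) (nat_lit 68719476736) .dd))))) (.br (nat_lit 15) (.ch (nat_lit 14) (.ev (nat_lit 848) (nat_lit 262144)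
 (.ev (nat_lit 2420) (nat_lit 4398046511104) (.ev (nat_lit 2592) (nat_lit 134217728) (.ev (nat_lit 2605)
 (nat_lit 68719476736) .dd))))) (.ch (nat_lit 15) (.ev (nat_lit 848) (nat_lit 68719738880) (.ev (nat_lit 2016)
 (nat_lit 4398046511104) (.ev (nat_lit 2029) (nat_lit 134217728) .dd))))))))))) (.br (nat_lit 15) (.ch (nat_lit
 13) (.ev (nat_lit 288) (nat_lit 134742024) (.nd (nat_lit 832) (.br (nat_lit 9) (.br (nat_lit 3) (.br (nat_lit
 2) (.ch (nat_lit 1) (.ev (nat_lit 848) (nat_lit 4398046773248) (.ev (nat_lit 980) (nat_lit 2147483648) (.ev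
 (nat_lit 989) (nat_lit 68719476736) .dd)))) (.ch (nat_lit 2) (.ev (nat_lit 848) (nat_lit 4466765987840) (.ev
 (nat_lit 980) (nat_lit 2147483648) (.ev (nat_lit 989) (nat_lit 262144) .dd))))) (.br (nat_lit 7) (.ch (nat_lit
 3) (.ev (nat_lit 848) (nat_lit 4466766249984) (.ev (nat_lit 861) (nat_lit 2147483648) .dd))) (.ch (nat_lit 7)
 (.ev (nat_lit 848) (nat_lit 4466766249984) (.ev (nat_lit 861) (nat_lit 2147483648) .dd))))) (.br (nat_lit 11)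
 (.br (nat_lit 10) (.ch (nat_lit 9) (.ev (nat_lit 980) (nat_lit 2147483648) (.ev (nat_lit 1284) (nat_lit
 68719476736) (.ev (nat_lit 1764) (nat_lit 262144) (.ev (nat_lit 1773) (nat_lit 4398046511104) .dd))))) (.ch
 (nat_lit 10) (.ev (nat_lit 848) (nat_lit 4400193994752) (.ev (nat_lit 1972) (nat_lit 262144) (.ev (nat_lit
 1981) (nat_lit 68719476736) .dd))))) (.br (nat_lit 14) (.ch (nat_lit 11) (.ev (nat_lit 848) (nat_lit
 2147483648) (.ev (nat_lit 1680) (nat_lit 262144) (.ev (nat_lit 2592) (nat_lit 68719476736) (.ev (nat_lit 2605)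
 (nat_lit 4398046511104) .dd))))) (.br (nat_lit 15) (.ch (nat_lit 14) (.ev (nat_lit 848) (nat_lit
 4468913471488) (.ev (nat_lit 861) (nat_lit 262144) .dd))) (.ch (nat_lit 15) (.ev (nat_lit 848) (nat_lit
 4400194256896) (.ev (nat_lit 861) (nat_lit 68719476736) .dd)))))))))) (.br (nat_lit 16) (.ch (nat_lit 15) (.ev
 (nat_lit 288) (nat_lit 4398046511104) (.nd (nat_lit 752) (.br (nat_lit 10) (.br (nat_lit 6) (.br (nat_lit 2)
 (.ch (nat_lit 1) (.ev (nat_lit 768) (nat_lit 135004168) (.ev (nat_lit 1236) (nat_lit 2147483648) (.ev (nat_lit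
 1245) (nat_lit 68719476736) .dd)))) (.ch (nat_lit 2) (.ev (nat_lit 768) (nat_lit 70867484680) (.ev (nat_lit
 1028) (nat_lit 262144) (.ev (nat_lit 1037) (nat_lit 134217728) .dd))))) (.br (nat_lit 7) (.ch (nat_lit 6) (.ev
 (nat_lit 768) (nat_lit 68719476736) (.ev (nat_lit 1012) (nat_lit 8) (.ev (nat_lit 1604) (nat_lit 134217728)
 (.ev (nat_lit 3284) (nat_lit 524288) (.ev (nat_lit 3476) (nat_lit 2147483648) (.ev (nat_lit 3485) (nat_lit
 262144) .dd))))))) (.ch (nat_lit 7) (.ev (nat_lit 768) (nat_lit 524296) (.ev (nat_lit 1764) (nat_lit 262144)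
 (.ev (nat_lit 2564) (nat_lit 68719476736) (.ev (nat_lit 2724) (nat_lit 134217728) (.ev (nat_lit 2733) (nat_lit
 2147483648) .dd)))))))) (.br (nat_lit 13) (.br (nat_lit 12) (.ch (nat_lit 10) (.ev (nat_lit 768) (nat_lit
 2281963528) (.ev (nat_lit 788) (nat_lit 524288) (.ev (nat_lit 797) (nat_lit 68719476736) .dd)))) (.ch (nat_lit
 12) (.ev (nat_lit 768) (nat_lit 71001702408) (.ev (nat_lit 781) (nat_lit 262144) .dd)))) (.br (nat_lit 15)
 (.ch (nat_lit 13) (.ev (nat_lit 768) (nat_lit 68853956608) (.ev (nat_lit 1460) (nat_lit 8) (.ev (nat_lit 1604)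
 (nat_lit 2147483648) (.ev (nat_lit 1613) (nat_lit 524288) .dd))))) (.br (nat_lit 16) (.ch (nat_lit 15) (.ev
 (nat_lit 768) (nat_lit 68719738888) (.ev (nat_lit 1876) (nat_lit 2147483648) (.ev (nat_lit 2644) (nat_lit
 134217728) (.ev (nat_lit 2653) (nat_lit 524288) .dd))))) (.ch (nat_lit 16) (.ev (nat_lit 768) (nat_lit
 70866960392) (.ev (nat_lit 2228) (nat_lit 524288) (.ev (nat_lit 2644) (nat_lit 134217728) (.ev (nat_lit 2653)
 (nat_lit 262144) .dd)))))))))))) (.ch (nat_lit 16) (.ev (nat_lit 288) (nat_lit 4469048213504) (.ev (nat_lit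
 1876) (nat_lit 262144) (.ev (nat_lit 1885) (nat_lit 8) .dd))))))))))) (.br (nat_lit 16) (.ch (nat_lit 15) (.ev
 (nat_lit 48) (nat_lit 285750067714) (.nd (nat_lit 128) (.br (nat_lit 6) (.br (nat_lit 3) (.br (nat_lit 2) (.ch
 (nat_lit 0) (.ev (nat_lit 144) (nat_lit 268697608) (.nd (nat_lit 688) (.br (nat_lit 11) (.br (nat_lit 6) (.br
 (nat_lit 5) (.ch (nat_lit 3) (.ev (nat_lit 704) (nat_lit 4471060955136) .dd)) (.ch (nat_lit 5) (.ev (nat_lit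
 704) (nat_lit 4398046511104) (.ev (nat_lit 1204) (nat_lit 68719476736) (.ev (nat_lit 1213) (nat_lit
 4294967296) .dd))))) (.br (nat_lit 10) (.ch (nat_lit 6) (.ev (nat_lit 704) (nat_lit 4294967296) (.ev (nat_lit
 2132) (nat_lit 68719476736) (.ev (nat_lit 2141) (nat_lit 4398046511104) .dd)))) (.ch (nat_lit 10) (.ev
 (nat_lit 1204) (nat_lit 68719476736) (.ev (nat_lit 1556) (nat_lit 4398046511104) (.ev (nat_lit 1565) (nat_lit
 4294967296) .dd)))))) (.br (nat_lit 13) (.br (nat_lit 12) (.ch (nat_lit 11) (.ev (nat_lit 704) (nat_lit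
 4466765987840) (.ev (nat_lit 717) (nat_lit 4294967296) .dd))) (.ch (nat_lit 12) (.ev (nat_lit 704) (nat_lit
 4402341478400) (.ev (nat_lit 717) (nat_lit 68719476736) .dd)))) (.br (nat_lit 14) (.ch (nat_lit 13) (.ev
 (nat_lit 704) (nat_lit 68719476736) (.ev (nat_lit 2644) (nat_lit 4398046511104) (.ev (nat_lit 2653) (nat_lit
 4294967296) .dd)))) (.br (nat_lit 15) (.ch (nat_lit 14) (.ev (nat_lit 704) (nat_lit 4466765987840) (.ev
 (nat_lit 717) (nat_lit 4294967296) .dd))) (.ch (nat_lit 15) (.ev (nat_lit 704) (nat_lit 4294967296) (.ev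
 (nat_lit 1264) (nat_lit 68719476736) (.ev (nat_lit 1277) (nat_lit 4398046511104) .dd))))))))))) (.ch (nat_lit
 2) (.ev (nat_lit 144) (nat_lit 68719738880) (.nd (nat_lit 624) (.br (nat_lit 7) (.br (nat_lit 4) (.br (nat_lit
 2) (.ch (nat_lit 0) (.ev (nat_lit 640) (nat_lit 4402341478408) (.ev (nat_lit 653) (nat_lit 268435456) .dd)))
 (.ch (nat_lit 2) (.ev (nat_lit 640) (nat_lit 8) (.ev (nat_lit 1012) (nat_lit 268435456) (.ev (nat_lit 1316)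
 (nat_lit 4294967296) (.ev (nat_lit 1325) (nat_lit 4398046511104) .dd)))))) (.br (nat_lit 6) (.ch (nat_lit 4)
 (.ev (nat_lit 640) (nat_lit 4294967296) (.ev (nat_lit 740) (nat_lit 268435456) (.ev (nat_lit 2240) (nat_lit
 4398046511112) .dd)))) (.ch (nat_lit 6) (.ev (nat_lit 640) (nat_lit 4398046511112) (.ev (nat_lit 2852)
 (nat_lit 4294967296) (.ev (nat_lit 2861) (nat_lit 268435456) .dd)))))) (.br (nat_lit 12) (.br (nat_lit 8) (.ch
 (nat_lit 7) (.ev (nat_lit 640) (nat_lit 4398314946568) (.ev (nat_lit 653) (nat_lit 4294967296) .dd))) (.ch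
 (nat_lit 8) (.ev (nat_lit 640) (nat_lit 268435464) (.ev (nat_lit 660) (nat_lit 4294967296) (.ev (nat_lit 669)
 (nat_lit 4398046511104) .dd))))) (.br (nat_lit 14) (.ch (nat_lit 12) (.ev (nat_lit 640) (nat_lit
 4402341478400) (.ev (nat_lit 660) (nat_lit 268435456) (.ev (nat_lit 669) (nat_lit 8) .dd)))) (.br (nat_lit 16)
 (.ch (nat_lit 14) (.ev (nat_lit 640) (nat_lit 4402609913856) (.ev (nat_lit 653) (nat_lit 8) .dd))) (.ch
 (nat_lit 16) (.ev (nat_lit 640) (nat_lit 4398314946568) (.ev (nat_lit 653) (nat_lit 4294967296) .dd)))))))))))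
 (.br (nat_lit 5) (.ch (nat_lit 3) (.ev (nat_lit 144) (nat_lit 4467034423304) (.nd (nat_lit 1136) (.br (nat_lit
 8) (.br (nat_lit 6) (.br (nat_lit 5) (.ch (nat_lit 3) (.ev (nat_lit 1796) (nat_lit 4294967296) (.ev (nat_lit
 1805) (nat_lit 262144) .dd))) (.ch (nat_lit 5) (.ev (nat_lit 1172) (nat_lit 4294967296) (.ev (nat_lit 1181)
 (nat_lit 262144) .dd)))) (.br (nat_lit 7) (.ch (nat_lit 6) (.ev (nat_lit 1152) (nat_lit 262144) (.ev (nat_lit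
 1165) (nat_lit 4294967296) .dd))) (.ch (nat_lit 7) (.ev (nat_lit 1152) (nat_lit 4294967296) (.ev (nat_lit
 1165) (nat_lit 262144) .dd))))) (.br (nat_lit 14) (.br (nat_lit 10) (.ch (nat_lit 8) (.ev (nat_lit 1152)
 (nat_lit 262144) (.ev (nat_lit 1165) (nat_lit 4294967296) .dd))) (.ch (nat_lit 10) (.ev (nat_lit 1152)
 (nat_lit 4295229440) .dd))) (.br (nat_lit 16) (.ch (nat_lit 14) (.ev (nat_lit 1616) (nat_lit 4294967296) (.ev
 (nat_lit 1629) (nat_lit 262144) .dd))) (.ch (nat_lit 16) (.ev (nat_lit 1152) (nat_lit 4294967296) (.ev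
 (nat_lit 1165) (nat_lit 262144) .dd))))))))) (.ch (nat_lit 5) (.ev (nat_lit 144) (nat_lit 4402341740552) (.nd
 (nat_lit 752) (.br (nat_lit 7) (.br (nat_lit 2) (.ch (nat_lit 1) (.ev (nat_lit 3572) (nat_lit 68719476736)
 (.ev (nat_lit 3581) (nat_lit 268435456) .dd))) (.br (nat_lit 4) (.ch (nat_lit 2) (.ev (nat_lit 768) (nat_lit
 268435456) (.ev (nat_lit 781) (nat_lit 68719476736) .dd))) (.ch (nat_lit 4) (.ev (nat_lit 768) (nat_lit
 68719476736) (.ev (nat_lit 781) (nat_lit 268435456) .dd))))) (.br (nat_lit 14) (.br (nat_lit 9) (.ch (nat_lit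
 7) (.ev (nat_lit 768) (nat_lit 68719476736) (.ev (nat_lit 781) (nat_lit 268435456) .dd))) (.ch (nat_lit 9)
 (.ev (nat_lit 768) (nat_lit 268435456) (.ev (nat_lit 781) (nat_lit 68719476736) .dd)))) (.br (nat_lit 15) (.ch
 (nat_lit 14) (.ev (nat_lit 768) (nat_lit 68987912192) .dd)) (.ch (nat_lit 15) (.fin (nat_lit
 576501983959532050))))))))))) (.br (nat_lit 9) (.br (nat_lit 8) (.ch (nat_lit 6) (.ev (nat_lit 144) (nat_lit
 4563664896) (.nd (nat_lit 1360) (.br (nat_lit 9) (.br (nat_lit 4) (.br (nat_lit 2) (.ch (nat_lit 1) (.ev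
 (nat_lit 1376) (nat_lit 4466765987848) .dd)) (.ch (nat_lit 2) (.ev (nat_lit 1376) (nat_lit 4466765987848)
 .dd))) (.br (nat_lit 5) (.ch (nat_lit 4) (.ev (nat_lit 1376) (nat_lit 68719476744) (.ev (nat_lit 1389)
 (nat_lit 4398046511104) .dd))) (.ch (nat_lit 5) (.ev (nat_lit 1376) (nat_lit 4466765987848) .dd)))) (.br
 (nat_lit 13) (.br (nat_lit 10) (.ch (nat_lit 9) (.ev (nat_lit 1376) (nat_lit 4398046511104) (.ev (nat_lit
 1732) (nat_lit 68719476736) (.ev (nat_lit 1741) (nat_lit 8) .dd)))) (.ch (nat_lit 10) (.ev (nat_lit 1376)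
 (nat_lit 4466765987840) (.ev (nat_lit 1389) (nat_lit 8) .dd)))) (.br (nat_lit 15) (.ch (nat_lit 13) (.ev
 (nat_lit 1376) (nat_lit 68719476736) (.ev (nat_lit 2564) (nat_lit 4398046511104) (.ev (nat_lit 2573) (nat_lit
 8) .dd)))) (.br (nat_lit 16) (.ch (nat_lit 15) (.ev (nat_lit 1376) (nat_lit 68719476736) (.ev (nat_lit 2772)
 (nat_lit 8) (.ev (nat_lit 2781) (nat_lit 4398046511104) .dd)))) (.ch (nat_lit 16) (.ev (nat_lit 1556) (nat_lit
 68719476736) (.ev (nat_lit 1808) (nat_lit 8) (.ev (nat_lit 1821) (nat_lit 4398046511104) .dd))))))))))) (.ch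
 (nat_lit 8) (.ev (nat_lit 144) (nat_lit 4471061217288) (.ev (nat_lit 157) (nat_lit 268435456) .dd)))) (.br
 (nat_lit 13) (.ch (nat_lit 9) (.ev (nat_lit 144) (nat_lit 4295229440) (.nd (nat_lit 1136) (.br (nat_lit 7)
 (.br (nat_lit 2) (.br (nat_lit 1) (.ch (nat_lit 0) (.ev (nat_lit 1152) (nat_lit 4467034423296) (.ev (nat_lit
 1165) (nat_lit 8) .dd))) (.ch (nat_lit 1) (.ev (nat_lit 1152) (nat_lit 4467034423296) (.ev (nat_lit 1165)
 (nat_lit 8) .dd)))) (.br (nat_lit 6) (.ch (nat_lit 2) (.ev (nat_lit 1152) (nat_lit 268435456) (.ev (nat_lit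
 1796) (nat_lit 68719476736) (.ev (nat_lit 2656) (nat_lit 4398046511104) (.ev (nat_lit 2669) (nat_lit 8)
 .dd))))) (.ch (nat_lit 6) (.ev (nat_lit 1152) (nat_lit 4398314946568) (.ev (nat_lit 1165) (nat_lit
 68719476736) .dd))))) (.br (nat_lit 11) (.br (nat_lit 8) (.ch (nat_lit 7) (.ev (nat_lit 1152) (nat_lit
 68987912200) (.ev (nat_lit 1165) (nat_lit 4398046511104) .dd))) (.ch (nat_lit 8) (.ev (nat_lit 1152) (nat_lit
 4466765987840) (.ev (nat_lit 1172) (nat_lit 268435456) (.ev (nat_lit 1181) (nat_lit 8) .dd))))) (.br (nat_lit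
 14) (.ch (nat_lit 11) (.ev (nat_lit 1152) (nat_lit 4467034423296) (.ev (nat_lit 1165) (nat_lit 8) .dd))) (.ch
 (nat_lit 14) (.ev (nat_lit 1152) (nat_lit 4398046511112) (.ev (nat_lit 1172) (nat_lit 68719476736) (.ev
 (nat_lit 1181) (nat_lit 268435456) .dd)))))))))) (.br (nat_lit 14) (.ch (nat_lit 13) (.ev (nat_lit 144)
 (nat_lit 68719476736) (.nd (nat_lit 576) (.br (nat_lit 9) (.br (nat_lit 7) (.br (nat_lit 5) (.ch (nat_lit 3)
 (.ev (nat_lit 592) (nat_lit 4563664904) (.ev (nat_lit 605) (nat_lit 4398046511104) .dd))) (.ch (nat_lit 5)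
 (.ev (nat_lit 592) (nat_lit 262144) (.ev (nat_lit 2228) (nat_lit 8) (.ev (nat_lit 2576) (nat_lit
 4398046511104) (.nd (nat_lit 3904) (.ch (nat_lit 13) (.nd (nat_lit 4304) (.br (nat_lit 7) (.ch (nat_lit 0)
 (.fin (nat_lit 576468998610698804))) (.ch (nat_lit 7) (.ev (nat_lit 4320) (nat_lit 4563402752) .dd)))))))))))
 (.br (nat_lit 8) (.ch (nat_lit 7) (.ev (nat_lit 592) (nat_lit 4398314946568) (.ev (nat_lit 2160) (nat_lit
 262144) (.ev (nat_lit 2173) (nat_lit 4294967296) .dd)))) (.ch (nat_lit 8) (.ev (nat_lit 592) (nat_lit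
 4398046773256) (.ev (nat_lit 2772) (nat_lit 268435456) (.ev (nat_lit 2781) (nat_lit 4294967296) .dd)))))) (.br
 (nat_lit 12) (.br (nat_lit 11) (.ch (nat_lit 9) (.ev (nat_lit 592) (nat_lit 4398046773248) (.ev (nat_lit 1940)
 (nat_lit 4294967296) (.ev (nat_lit 2228) (nat_lit 8) (.ev (nat_lit 2237) (nat_lit 268435456) .dd))))) (.ch
 (nat_lit 11) (.ev (nat_lit 592) (nat_lit 4402341740544) (.ev (nat_lit 1396) (nat_lit 8) (.ev (nat_lit 1405)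
 (nat_lit 268435456) .dd))))) (.br (nat_lit 14) (.ch (nat_lit 12) (.ev (nat_lit 592) (nat_lit 4402341478408)
 (.ev (nat_lit 1568) (nat_lit 262144) (.ev (nat_lit 1581) (nat_lit 268435456) .dd)))) (.br (nat_lit 16) (.ch
 (nat_lit 14) (.ev (nat_lit 592) (nat_lit 4398315208704) (.nd (nat_lit 3216) (.br (nat_lit 7) (.ch (nat_lit 6)
 (.ev (nat_lit 3232) (nat_lit 4294967296) (.ev (nat_lit 3245) (nat_lit 8) .dd))) (.ch (nat_lit 7) (.fin
 (nat_lit 576463501078774317))))))) (.ch (nat_lit 16) (.ev (nat_lit 592) (nat_lit 4563402752) (.ev (nat_lit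
 1732) (nat_lit 8) (.ev (nat_lit 2644) (nat_lit 262144) (.ev (nat_lit 2653) (nat_lit 4398046511104)
 .dd)))))))))))) (.ch (nat_lit 14) (.ev (nat_lit 144) (nat_lit 4398315208704) (.nd (nat_lit 624) (.br (nat_lit
 11) (.br (nat_lit 7) (.br (nat_lit 6) (.ch (nat_lit 1) (.ev (nat_lit 640) (nat_lit 8) (.ev (nat_lit 2836)
 (nat_lit 4294967296) (.ev (nat_lit 2845) (nat_lit 68719476736) .dd)))) (.ch (nat_lit 6) (.ev (nat_lit 640)
 (nat_lit 73014444032) (.ev (nat_lit 653) (nat_lit 8) .dd)))) (.br (nat_lit 9) (.ch (nat_lit 7) (.ev (nat_lit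
 640) (nat_lit 73014444032) (.ev (nat_lit 653) (nat_lit 8) .dd))) (.ch (nat_lit 9) (.ev (nat_lit 1668) (nat_lit
 8) (.ev (nat_lit 3172) (nat_lit 68719476736) (.ev (nat_lit 3181) (nat_lit 4294967296) .dd)))))) (.br (nat_lit
 13) (.br (nat_lit 12) (.ch (nat_lit 11) (.ev (nat_lit 640) (nat_lit 68719476744) (.ev (nat_lit 653) (nat_lit
 4294967296) .dd))) (.ch (nat_lit 12) (.ev (nat_lit 640) (nat_lit 73014444032) (.ev (nat_lit 653) (nat_lit 8)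
 .dd)))) (.br (nat_lit 16) (.ch (nat_lit 13) (.ev (nat_lit 640) (nat_lit 4294967304) (.ev (nat_lit 653)
 (nat_lit 68719476736) .dd))) (.ch (nat_lit 16) (.ev (nat_lit 640) (nat_lit 73014444032) (.ev (nat_lit 653)
 (nat_lit 8) .dd)))))))))))))))) (.ch (nat_lit 16) (.ev (nat_lit 48) (nat_lit 358630293512) (.nd (nat_lit 432)
 (.br (nat_lit 8) (.br (nat_lit 4) (.br (nat_lit 2) (.ch (nat_lit 0) (.ev (nat_lit 448) (nat_lit 262146) (.nd
 (nat_lit 944) (.br (nat_lit 8) (.br (nat_lit 3) (.br (nat_lit 1) (.ch (nat_lit 0) (.ev (nat_lit 960) (nat_lit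
 268435968) (.ev (nat_lit 1876) (nat_lit 134217728) (.ev (nat_lit 1885) (nat_lit 4398046511104) .dd)))) (.ch
 (nat_lit 1) (.ev (nat_lit 960) (nat_lit 134217728) (.ev (nat_lit 2528) (nat_lit 268435456) (.ev (nat_lit 2704)
 (nat_lit 4398046511616) .dd))))) (.br (nat_lit 4) (.ch (nat_lit 3) (.ev (nat_lit 960) (nat_lit 4398449164288)
 (.ev (nat_lit 973) (nat_lit 512) .dd))) (.ch (nat_lit 4) (.ev (nat_lit 960) (nat_lit 512) (.ev (nat_lit 1316)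
 (nat_lit 268435456) (.ev (nat_lit 1732) (nat_lit 4398046511104) (.ev (nat_lit 1741) (nat_lit 134217728)
 .dd))))))) (.br (nat_lit 10) (.br (nat_lit 9) (.ch (nat_lit 8) (.ev (nat_lit 960) (nat_lit 402653696) (.ev
 (nat_lit 973) (nat_lit 4398046511104) .dd))) (.ch (nat_lit 9) (.ev (nat_lit 960) (nat_lit 4398180729344) (.ev
 (nat_lit 973) (nat_lit 268435456) .dd)))) (.br (nat_lit 11) (.ch (nat_lit 10) (.ev (nat_lit 960) (nat_lit
 4398314947072) (.ev (nat_lit 973) (nat_lit 134217728) .dd))) (.br (nat_lit 14) (.ch (nat_lit 11) (.ev (nat_lit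
 960) (nat_lit 512) (.ev (nat_lit 1396) (nat_lit 4398046511104) (.ev (nat_lit 2052) (nat_lit 268435456) (.ev
 (nat_lit 2061) (nat_lit 134217728) .dd))))) (.ch (nat_lit 14) (.ev (nat_lit 960) (nat_lit 4398046511104) (.ev
 (nat_lit 980) (nat_lit 268435456) (.ev (nat_lit 1876) (nat_lit 512) (.ev (nat_lit 1885) (nat_lit 134217728)
 .dd)))))))))))) (.ch (nat_lit 2) (.ev (nat_lit 448) (nat_lit 402653696) (.nd (nat_lit 944) (.br (nat_lit 12)
 (.br (nat_lit 4) (.br (nat_lit 2) (.ch (nat_lit 1) (.ev (nat_lit 960) (nat_lit 262144) (.ev (nat_lit 1396)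
 (nat_lit 4398046511104) (.ev (nat_lit 1405) (nat_lit 2) .dd)))) (.ch (nat_lit 2) (.ev (nat_lit 960) (nat_lit
 4398046511104) (.ev (nat_lit 1204) (nat_lit 2) (.ev (nat_lit 1213) (nat_lit 262144) .dd))))) (.br (nat_lit 10)
 (.ch (nat_lit 4) (.ev (nat_lit 960) (nat_lit 262146) (.ev (nat_lit 973) (nat_lit 4398046511104) .dd))) (.ch
 (nat_lit 10) (.ev (nat_lit 1680) (nat_lit 2) (.ev (nat_lit 1732) (nat_lit 4398046511104) (.ev (nat_lit 1741)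
 (nat_lit 262144) .dd)))))) (.br (nat_lit 15) (.br (nat_lit 14) (.ch (nat_lit 12) (.ev (nat_lit 960) (nat_lit
 2) (.ev (nat_lit 1764) (nat_lit 4398046511104) (.ev (nat_lit 1773) (nat_lit 262144) .dd)))) (.ch (nat_lit 14)
 (.ev (nat_lit 960) (nat_lit 4398046511106) (.ev (nat_lit 973) (nat_lit 262144) .dd)))) (.br (nat_lit 16) (.ch
 (nat_lit 15) (.ev (nat_lit 960) (nat_lit 4398046511104) (.ev (nat_lit 1876) (nat_lit 2) (.ev (nat_lit 1885)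
 (nat_lit 262144) .dd)))) (.ch (nat_lit 16) (.ev (nat_lit 960) (nat_lit 262144) (.ev (nat_lit 1396) (nat_lit
 4398046511104) (.ev (nat_lit 1405) (nat_lit 2) .dd))))))))))) (.br (nat_lit 7) (.ch (nat_lit 4) (.ev (nat_lit
 448) (nat_lit 402653698) (.nd (nat_lit 2432) (.br (nat_lit 12) (.br (nat_lit 11) (.ch (nat_lit 0) (.ev
 (nat_lit 2448) (nat_lit 4398046511104) (.ev (nat_lit 2461) (nat_lit 262144) .dd))) (.ch (nat_lit 11) (.ev
 (nat_lit 2448) (nat_lit 262144) (.ev (nat_lit 2461) (nat_lit 4398046511104) .dd)))) (.br (nat_lit 14) (.ch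
 (nat_lit 12) (.ev (nat_lit 2448) (nat_lit 4398046511104) (.ev (nat_lit 2461) (nat_lit 262144) .dd))) (.br
 (nat_lit 16) (.ch (nat_lit 14) (.ev (nat_lit 2448) (nat_lit 4398046773248) .dd)) (.ch (nat_lit 16) (.ev
 (nat_lit 2448) (nat_lit 262144) (.ev (nat_lit 2461) (nat_lit 4398046511104) .dd))))))))) (.ch (nat_lit 7) (.ev
 (nat_lit 448) (nat_lit 134480384) (.nd (nat_lit 1504) (.br (nat_lit 9) (.br (nat_lit 5) (.br (nat_lit 1) (.ch
 (nat_lit 0) (.ev (nat_lit 1520) (nat_lit 4398314946560) (.ev (nat_lit 1533) (nat_lit 2) .dd))) (.ch (nat_lit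
 1) (.ev (nat_lit 1520) (nat_lit 268435458) (.ev (nat_lit 1533) (nat_lit 4398046511104) .dd)))) (.br (nat_lit
 6) (.ch (nat_lit 5) (.ev (nat_lit 1520) (nat_lit 2) (.ev (nat_lit 2576) (nat_lit 4398046511104) (.ev (nat_lit
 2589) (nat_lit 268435456) .dd)))) (.ch (nat_lit 6) (.ev (nat_lit 1520) (nat_lit 4398046511106) (.ev (nat_lit
 1533) (nat_lit 268435456) .dd))))) (.br (nat_lit 12) (.br (nat_lit 11) (.ch (nat_lit 9) (.ev (nat_lit 1604)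
 (nat_lit 2) (.ev (nat_lit 2644) (nat_lit 4398046511104) (.ev (nat_lit 2653) (nat_lit 268435456) .dd)))) (.ch
 (nat_lit 11) (.ev (nat_lit 1520) (nat_lit 4398314946560) (.ev (nat_lit 1533) (nat_lit 2) .dd)))) (.br (nat_lit
 15) (.ch (nat_lit 12) (.ev (nat_lit 1520) (nat_lit 4398046511104) (.ev (nat_lit 1556) (nat_lit 268435456) (.ev
 (nat_lit 1565) (nat_lit 2) .dd)))) (.ch (nat_lit 15) (.ev (nat_lit 1520) (nat_lit 268435458) (.ev (nat_lit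
 1533) (nat_lit 4398046511104) .dd))))))))))) (.br (nat_lit 12) (.br (nat_lit 11) (.ch (nat_lit 8) (.ev
 (nat_lit 448) (nat_lit 4398180729344) (.nd (nat_lit 1360) (.br (nat_lit 11) (.br (nat_lit 2) (.br (nat_lit 1)
 (.ch (nat_lit 0) (.ev (nat_lit 1376) (nat_lit 268697600) (.ev (nat_lit 1389) (nat_lit 2) .dd))) (.ch (nat_lit
 1) (.ev (nat_lit 1376) (nat_lit 268435458) (.ev (nat_lit 1389) (nat_lit 262144) .dd)))) (.br (nat_lit 4) (.ch
 (nat_lit 2) (.ev (nat_lit 1376) (nat_lit 268697602) .dd)) (.ch (nat_lit 4) (.ev (nat_lit 1376) (nat_lit 2)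
 (.ev (nat_lit 1396) (nat_lit 262144) (.ev (nat_lit 1405) (nat_lit 268435456) .dd)))))) (.br (nat_lit 13) (.br
 (nat_lit 12) (.ch (nat_lit 11) (.ev (nat_lit 1376) (nat_lit 268697602) .dd)) (.ch (nat_lit 12) (.ev (nat_lit
 1376) (nat_lit 2) (.fin (nat_lit 576474496199246420))))) (.br (nat_lit 14) (.ch (nat_lit 13) (.ev (nat_lit
 1376) (nat_lit 2) (.ev (nat_lit 1408) (nat_lit 268435456) (.ev (nat_lit 1421) (nat_lit 262144) .dd)))) (.br
 (nat_lit 15) (.ch (nat_lit 14) (.ev (nat_lit 1396) (nat_lit 2) (.ev (nat_lit 2388) (nat_lit 262144) (.ev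
 (nat_lit 2397) (nat_lit 268435456) .dd)))) (.ch (nat_lit 15) (.ev (nat_lit 1376) (nat_lit 262144) (.ev
 (nat_lit 1668) (nat_lit 2) (.ev (nat_lit 1677) (nat_lit 268435456) .dd))))))))))) (.ch (nat_lit 11) (.ev
 (nat_lit 448) (nat_lit 4398449164800) (.ev (nat_lit 2084) (nat_lit 262144) (.ev (nat_lit 2093) (nat_lit 2)
 .dd))))) (.br (nat_lit 14) (.ch (nat_lit 12) (.ev (nat_lit 448) (nat_lit 402653186) (.nd (nat_lit 1504) (.br
 (nat_lit 4) (.br (nat_lit 2) (.ch (nat_lit 1) (.ev (nat_lit 2644) (nat_lit 4398046511104) (.ev (nat_lit 2724)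
 (nat_lit 512) (.ev (nat_lit 2733) (nat_lit 262144) .dd)))) (.br (nat_lit 3) (.ch (nat_lit 2) (.ev (nat_lit
 1520) (nat_lit 4398046773248) (.ev (nat_lit 1533) (nat_lit 512) .dd))) (.ch (nat_lit 3) (.ev (nat_lit 1568)
 (nat_lit 512) (.ev (nat_lit 1888) (nat_lit 262144) (.ev (nat_lit 1901) (nat_lit 4398046511104) .dd)))))) (.br
 (nat_lit 6) (.ch (nat_lit 4) (.ev (nat_lit 1520) (nat_lit 4398046511104) (.ev (nat_lit 1668) (nat_lit 512)
 (.ev (nat_lit 1677) (nat_lit 262144) .dd)))) (.br (nat_lit 16) (.ch (nat_lit 6) (.ev (nat_lit 1520) (nat_lit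
 4398046511616) (.ev (nat_lit 1533) (nat_lit 262144) .dd))) (.ch (nat_lit 16) (.ev (nat_lit 1520) (nat_lit
 4398046773760) .dd)))))))) (.br (nat_lit 16) (.ch (nat_lit 14) (.ev (nat_lit 448) (nat_lit 4398449426946)
 .dd)) (.ch (nat_lit 16) (.ev (nat_lit 448) (nat_lit 4398315209216) (.nd (nat_lit 1504) (.br (nat_lit 12) (.br
 (nat_lit 7) (.ch (nat_lit 2) (.ev (nat_lit 1520) (nat_lit 2) (.ev (nat_lit 1533) (nat_lit 134217728) .dd)))
 (.br (nat_lit 9) (.ch (nat_lit 7) (.ev (nat_lit 2308) (nat_lit 134217728) (.ev (nat_lit 2317) (nat_lit 2)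
 .dd))) (.ch (nat_lit 9) (.ev (nat_lit 1520) (nat_lit 2) (.ev (nat_lit 1533) (nat_lit 134217728) .dd))))) (.br
 (nat_lit 13) (.ch (nat_lit 12) (.ev (nat_lit 1520) (nat_lit 2) (.ev (nat_lit 1533) (nat_lit 134217728) .dd)))
 (.br (nat_lit 16) (.ch (nat_lit 13) (.ev (nat_lit 1520) (nat_lit 134217728) (.ev (nat_lit 1533) (nat_lit 2)
 .dd))) (.ch (nat_lit 16) (.ev (nat_lit 1520) (nat_lit 2) (.ev (nat_lit 1533) (nat_lit 134217728)
 .dd))))))))))))))))))))))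

/-- Subtrie. -/
noncomputable def T7 : Tr := (.ev (nat_lit 20) (nat_lit 109967008078344) (.nd (nat_lit 32) (.br (nat_lit 8)
 (.br (nat_lit 2) (.br (nat_lit 1) (.ch (nat_lit 0) (.ev (nat_lit 48) (nat_lit 343732125734) (.nd (nat_lit 480)
 (.br (nat_lit 5) (.br (nat_lit 3) (.br (nat_lit 2) (.ch (nat_lit 1) (.ev (nat_lit 496) (nat_lit
 17626579369984) (.nd (nat_lit 1360) (.br (nat_lit 9) (.br (nat_lit 3) (.br (nat_lit 1) (.ch (nat_lit 0) (.ev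
 (nat_lit 1376) (nat_lit 81920) (.ev (nat_lit 1389) (nat_lit 67108864) .dd))) (.ch (nat_lit 1) (.ev (nat_lit
 1376) (nat_lit 81920) (.ev (nat_lit 1389) (nat_lit 67108864) .dd)))) (.br (nat_lit 5) (.ch (nat_lit 3) (.ev
 (nat_lit 1376) (nat_lit 16384) (.ev (nat_lit 1908) (nat_lit 67108864) (.ev (nat_lit 1917) (nat_lit 65536)
 .dd)))) (.ch (nat_lit 5) (.ev (nat_lit 1376) (nat_lit 67125248) (.ev (nat_lit 1389) (nat_lit 65536) .dd)))))
 (.br (nat_lit 11) (.br (nat_lit 10) (.ch (nat_lit 9) (.ev (nat_lit 2480) (nat_lit 16384) (.ev (nat_lit 2644)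
 (nat_lit 65536) (.ev (nat_lit 2653) (nat_lit 67108864) .dd)))) (.ch (nat_lit 10) (.ev (nat_lit 1376) (nat_lit
 65536) (.ev (nat_lit 1712) (nat_lit 67125248) .dd)))) (.br (nat_lit 13) (.ch (nat_lit 11) (.ev (nat_lit 1376)
 (nat_lit 67108864) (.ev (nat_lit 1396) (nat_lit 16384) (.ev (nat_lit 1405) (nat_lit 65536) .dd)))) (.br
 (nat_lit 15) (.ch (nat_lit 13) (.ev (nat_lit 1376) (nat_lit 67108864) (.ev (nat_lit 2036) (nat_lit 65536) (.ev
 (nat_lit 2045) (nat_lit 16384) .dd)))) (.ch (nat_lit 15) (.ev (nat_lit 1376) (nat_lit 67174400) (.ev (nat_lit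
 1389) (nat_lit 16384) .dd)))))))))) (.ch (nat_lit 2) (.ev (nat_lit 496) (nat_lit 34426961920) (.ev (nat_lit
 2724) (nat_lit 17592186044416) (.ev (nat_lit 2733) (nat_lit 33554432) .dd))))) (.br (nat_lit 4) (.ch (nat_lit
 3) (.ev (nat_lit 496) (nat_lit 17592286773248) (.ev (nat_lit 1732) (nat_lit 34359738368) (.ev (nat_lit 2724)
 (nat_lit 32768) (.ev (nat_lit 2733) (nat_lit 16384) .dd))))) (.ch (nat_lit 4) (.ev (nat_lit 496) (nat_lit
 67190784) (.nd (nat_lit 1360) (.br (nat_lit 9) (.br (nat_lit 4) (.br (nat_lit 1) (.ch (nat_lit 0) (.ev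
 (nat_lit 1376) (nat_lit 17626545815552) (.ev (nat_lit 1389) (nat_lit 33554432) .dd))) (.ch (nat_lit 1) (.ev
 (nat_lit 1376) (nat_lit 17592219598848) (.ev (nat_lit 1396) (nat_lit 34359738368) (.ev (nat_lit 1405) (nat_lit
 32768) .dd))))) (.br (nat_lit 8) (.ch (nat_lit 4) (.ev (nat_lit 1376) (nat_lit 17592219598848) (.ev (nat_lit
 1396) (nat_lit 32768) (.ev (nat_lit 1405) (nat_lit 34359738368) .dd)))) (.ch (nat_lit 8) (.ev (nat_lit 1396)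
 (nat_lit 34359738368) (.ev (nat_lit 2820) (nat_lit 33554432) (.nd (nat_lit 4176) (.br (nat_lit 14) (.ch
 (nat_lit 6) (.fin (nat_lit 576459103042748971))) (.ch (nat_lit 14) (.ev (nat_lit 4192) (nat_lit 32768) (.ev
 (nat_lit 4205) (nat_lit 17592186044416) .dd)))))))))) (.br (nat_lit 14) (.br (nat_lit 12) (.ch (nat_lit 9)
 (.ev (nat_lit 1376) (nat_lit 34393292800) (.ev (nat_lit 1668) (nat_lit 32768) (.ev (nat_lit 1677) (nat_lit
 17592186044416) .dd)))) (.ch (nat_lit 12) (.ev (nat_lit 1376) (nat_lit 33587200) (.ev (nat_lit 2196) (nat_lit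
 34359738368) (.ev (nat_lit 2205) (nat_lit 17592186044416) .dd))))) (.br (nat_lit 15) (.ch (nat_lit 14) (.ev
 (nat_lit 1396) (nat_lit 32768) (.ev (nat_lit 1908) (nat_lit 33554432) (.ev (nat_lit 2196) (nat_lit
 34359738368) (.ev (nat_lit 2205) (nat_lit 17592186044416) .dd))))) (.ch (nat_lit 15) (.ev (nat_lit 1376)
 (nat_lit 34393325568) (.ev (nat_lit 1389) (nat_lit 17592186044416) .dd))))))))))) (.br (nat_lit 8) (.br
 (nat_lit 7) (.ch (nat_lit 5) (.ev (nat_lit 496) (nat_lit 17592186159104) (.nd (nat_lit 2432) (.br (nat_lit 11)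
 (.br (nat_lit 7) (.ch (nat_lit 2) (.ev (nat_lit 2448) (nat_lit 33554432) (.ev (nat_lit 2564) (nat_lit
 67108864) (.ev (nat_lit 2573) (nat_lit 34359738368) .dd)))) (.ch (nat_lit 7) (.ev (nat_lit 2544) (nat_lit
 33554432) (.ev (nat_lit 2564) (nat_lit 34359738368) (.ev (nat_lit 2573) (nat_lit 67108864) .dd))))) (.br
 (nat_lit 14) (.ch (nat_lit 11) (.ev (nat_lit 2448) (nat_lit 100663296) (.ev (nat_lit 2461) (nat_lit
 34359738368) .dd))) (.br (nat_lit 15) (.ch (nat_lit 14) (.ev (nat_lit 2448) (nat_lit 67108864) (.ev (nat_lit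
 2564) (nat_lit 34359738368) (.ev (nat_lit 2573) (nat_lit 33554432) .dd)))) (.ch (nat_lit 15) (.ev (nat_lit
 2448) (nat_lit 34426847232) (.ev (nat_lit 2461) (nat_lit 33554432) .dd))))))))) (.ch (nat_lit 7) (.ev (nat_lit
 496) (nat_lit 100777984) (.ev (nat_lit 2644) (nat_lit 34359738368) (.ev (nat_lit 2653) (nat_lit
 17592186044416) .dd))))) (.br (nat_lit 9) (.ch (nat_lit 8) (.ev (nat_lit 496) (nat_lit 17592219615232) (.nd
 (nat_lit 1504) (.br (nat_lit 12) (.br (nat_lit 4) (.ch (nat_lit 0) (.ev (nat_lit 1520) (nat_lit 34359771136)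
 (.ev (nat_lit 2564) (nat_lit 67108864) (.ev (nat_lit 2573) (nat_lit 65536) .dd)))) (.br (nat_lit 11) (.ch
 (nat_lit 4) (.ev (nat_lit 1520) (nat_lit 34426912768) (.ev (nat_lit 1533) (nat_lit 32768) .dd))) (.ch (nat_lit
 11) (.ev (nat_lit 1520) (nat_lit 67141632) (.ev (nat_lit 1556) (nat_lit 34359738368) (.ev (nat_lit 1565)
 (nat_lit 65536) .dd)))))) (.br (nat_lit 13) (.ch (nat_lit 12) (.ev (nat_lit 1520) (nat_lit 34426847232) (.ev
 (nat_lit 1556) (nat_lit 65536) (.ev (nat_lit 1565) (nat_lit 32768) .dd)))) (.br (nat_lit 15) (.ch (nat_lit 13)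
 (.ev (nat_lit 1520) (nat_lit 34359771136) (.ev (nat_lit 2564) (nat_lit 67108864) (.ev (nat_lit 2573) (nat_lit
 65536) .dd)))) (.ch (nat_lit 15) (.ev (nat_lit 1520) (nat_lit 67141632) (.ev (nat_lit 2644) (nat_lit
 34359738368) (.ev (nat_lit 2653) (nat_lit 65536) .dd)))))))))) (.br (nat_lit 13) (.ch (nat_lit 9) (.ev
 (nat_lit 496) (nat_lit 34359820288) (.nd (nat_lit 2432) (.br (nat_lit 13) (.br (nat_lit 5) (.ch (nat_lit 3)
 (.ev (nat_lit 2448) (nat_lit 17592253153280) (.nd (nat_lit 4240) (.br (nat_lit 15) (.ch (nat_lit 1) (.ev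
 (nat_lit 4256) (nat_lit 32768) (.ev (nat_lit 4269) (nat_lit 33554432) .dd))) (.ch (nat_lit 15) (.fin (nat_lit
 576471197623468645))))))) (.br (nat_lit 6) (.ch (nat_lit 5) (.ev (nat_lit 2448) (nat_lit 100663296) (.ev
 (nat_lit 2564) (nat_lit 32768) (.ev (nat_lit 2573) (nat_lit 17592186044416) .dd)))) (.ch (nat_lit 6) (.ev
 (nat_lit 2448) (nat_lit 17592219598848) (.ev (nat_lit 2564) (nat_lit 32768) (.ev (nat_lit 2573) (nat_lit
 67108864) .dd)))))) (.br (nat_lit 15) (.ch (nat_lit 13) (.ev (nat_lit 2448) (nat_lit 33554432) (.ev (nat_lit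
 2564) (nat_lit 17592186077184) (.ev (nat_lit 2573) (nat_lit 67108864) .dd)))) (.br (nat_lit 16) (.ch (nat_lit
 15) (.ev (nat_lit 2448) (nat_lit 32768) (.ev (nat_lit 2564) (nat_lit 100663296) (.ev (nat_lit 2573) (nat_lit
 17592186044416) .dd)))) (.ch (nat_lit 16) (.ev (nat_lit 2448) (nat_lit 32768) (.ev (nat_lit 2564) (nat_lit
 67108864) (.ev (nat_lit 2724) (nat_lit 33554432) (.ev (nat_lit 2733) (nat_lit 17592186044416) .dd)))))))))))
 (.ch (nat_lit 13) (.ev (nat_lit 496) (nat_lit 34359803904) (.nd (nat_lit 1360) (.br (nat_lit 9) (.br (nat_lit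
 6) (.br (nat_lit 5) (.ch (nat_lit 2) (.ev (nat_lit 1376) (nat_lit 17592286707712) (.fin (nat_lit
 576462401566097983)))) (.ch (nat_lit 5) (.ev (nat_lit 1376) (nat_lit 17592286724096) (.ev (nat_lit 1389)
 (nat_lit 32768) .dd)))) (.br (nat_lit 8) (.ch (nat_lit 6) (.ev (nat_lit 1376) (nat_lit 33587200) (.ev (nat_lit
 1396) (nat_lit 17592186044416) (.ev (nat_lit 1732) (nat_lit 16384) (.ev (nat_lit 1741) (nat_lit 67108864)
 .dd))))) (.ch (nat_lit 8) (.ev (nat_lit 1376) (nat_lit 17592219648000) (.ev (nat_lit 1389) (nat_lit 67108864)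
 .dd))))) (.br (nat_lit 13) (.br (nat_lit 11) (.ch (nat_lit 9) (.ev (nat_lit 1376) (nat_lit 33554432) (.ev
 (nat_lit 1396) (nat_lit 17592253153280) (.ev (nat_lit 2564) (nat_lit 32768) (.ev (nat_lit 2573) (nat_lit
 16384) .dd))))) (.ch (nat_lit 11) (.ev (nat_lit 1376) (nat_lit 32768) (.ev (nat_lit 1396) (nat_lit
 17592186060800) (.ev (nat_lit 1668) (nat_lit 33554432) (.ev (nat_lit 1677) (nat_lit 67108864) .dd)))))) (.br
 (nat_lit 15) (.ch (nat_lit 13) (.ev (nat_lit 1376) (nat_lit 17592219648000) (.ev (nat_lit 1389) (nat_lit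
 67108864) .dd))) (.br (nat_lit 16) (.ch (nat_lit 15) (.ev (nat_lit 1376) (nat_lit 100712448) (.ev (nat_lit
 1389) (nat_lit 17592186044416) .dd))) (.ch (nat_lit 16) (.ev (nat_lit 1376) (nat_lit 67141632) (.ev (nat_lit
 1396) (nat_lit 16384) (.ev (nat_lit 1604) (nat_lit 33554432) (.ev (nat_lit 1613) (nat_lit 17592186044416)
 .dd))))))))))))))))))) (.ch (nat_lit 1) (.ev (nat_lit 48) (nat_lit 17970143805472) (.nd (nat_lit 528) (.br
 (nat_lit 8) (.br (nat_lit 6) (.br (nat_lit 3) (.ch (nat_lit 0) (.ev (nat_lit 544) (nat_lit 201326594) (.ev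
 (nat_lit 2644) (nat_lit 4) (.ev (nat_lit 2653) (nat_lit 33554432) .dd)))) (.ch (nat_lit 3) (.ev (nat_lit 544)
 (nat_lit 100663300) (.ev (nat_lit 2132) (nat_lit 2) (.ev (nat_lit 2141) (nat_lit 134217728) .dd))))) (.br
 (nat_lit 7) (.ch (nat_lit 6) (.ev (nat_lit 544) (nat_lit 201326592) (.ev (nat_lit 564) (nat_lit 33554432) (.ev
 (nat_lit 2736) (nat_lit 2) (.ev (nat_lit 2749) (nat_lit 4) .dd))))) (.ch (nat_lit 7) (.ev (nat_lit 544)
 (nat_lit 201326598) (.ev (nat_lit 557) (nat_lit 33554432) .dd))))) (.br (nat_lit 13) (.br (nat_lit 9) (.ch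
 (nat_lit 8) (.ev (nat_lit 544) (nat_lit 201326598) (.ev (nat_lit 557) (nat_lit 33554432) .dd))) (.ch (nat_lit
 9) (.ev (nat_lit 544) (nat_lit 167772162) (.ev (nat_lit 2704) (nat_lit 67108864) (.ev (nat_lit 2717) (nat_lit
 4) .dd))))) (.br (nat_lit 14) (.ch (nat_lit 13) (.ev (nat_lit 544) (nat_lit 234881026) (.ev (nat_lit 557)
 (nat_lit 4) .dd))) (.br (nat_lit 16) (.ch (nat_lit 14) (.ev (nat_lit 544) (nat_lit 67108870) (.ev (nat_lit
 2576) (nat_lit 134217728) (.ev (nat_lit 2589) (nat_lit 33554432) .dd)))) (.ch (nat_lit 16) (.ev (nat_lit 544)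
 (nat_lit 33554432) (.ev (nat_lit 2388) (nat_lit 2) (.ev (nat_lit 2564) (nat_lit 4) (.ev (nat_lit 2736)
 (nat_lit 201326592) .dd))))))))))))) (.br (nat_lit 5) (.ch (nat_lit 2) (.ev (nat_lit 48) (nat_lit
 309439070208) (.nd (nat_lit 480) (.br (nat_lit 5) (.br (nat_lit 3) (.br (nat_lit 2) (.ch (nat_lit 1) (.ev
 (nat_lit 496) (nat_lit 17660939599906) (.ev (nat_lit 2784) (nat_lit 16384) (.ev (nat_lit 2797) (nat_lit 4)
 .dd)))) (.ch (nat_lit 2) (.ev (nat_lit 496) (nat_lit 16388) (.nd (nat_lit 944) (.br (nat_lit 9) (.br (nat_lit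
 4) (.br (nat_lit 3) (.ch (nat_lit 2) (.ev (nat_lit 960) (nat_lit 33554464) (.ev (nat_lit 980) (nat_lit
 68719476736) (.ev (nat_lit 2132) (nat_lit 524288) (.ev (nat_lit 2144) (nat_lit 17592186044418) .dd))))) (.ch
 (nat_lit 3) (.ev (nat_lit 960) (nat_lit 68753555490) (.ev (nat_lit 973) (nat_lit 17592186044416) .dd)))) (.br
 (nat_lit 8) (.ch (nat_lit 4) (.ev (nat_lit 960) (nat_lit 17592186568706) (.ev (nat_lit 1332) (nat_lit
 68719476736) (.ev (nat_lit 1584) (nat_lit 33554432) (.ev (nat_lit 1597) (nat_lit 32) .dd))))) (.ch (nat_lit 8)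
 (.ev (nat_lit 960) (nat_lit 33554434) (.ev (nat_lit 1604) (nat_lit 17592186044416) (.ev (nat_lit 1796)
 (nat_lit 524288) (.ev (nat_lit 1808) (nat_lit 68719476736) (.ev (nat_lit 1821) (nat_lit 32) .dd)))))))) (.br
 (nat_lit 13) (.br (nat_lit 10) (.ch (nat_lit 9) (.ev (nat_lit 960) (nat_lit 68719476770) (.ev (nat_lit 1556)
 (nat_lit 17592186044416) (.ev (nat_lit 1616) (nat_lit 524288) (.ev (nat_lit 1629) (nat_lit 33554432) .dd)))))
 (.ch (nat_lit 10) (.ev (nat_lit 960) (nat_lit 17592219598882) (.ev (nat_lit 980) (nat_lit 68719476736) (.ev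
 (nat_lit 989) (nat_lit 524288) .dd))))) (.br (nat_lit 16) (.ch (nat_lit 13) (.ev (nat_lit 960) (nat_lit
 68753555488) (.ev (nat_lit 1556) (nat_lit 17592186044416) (.ev (nat_lit 1565) (nat_lit 2) .dd)))) (.ch
 (nat_lit 16) (.ev (nat_lit 960) (nat_lit 17592219598850) (.ev (nat_lit 1568) (nat_lit 68719476736) (.ev
 (nat_lit 1668) (nat_lit 524288) (.ev (nat_lit 1677) (nat_lit 32) .dd)))))))))))) (.br (nat_lit 4) (.ch
 (nat_lit 3) (.ev (nat_lit 496) (nat_lit 17660939092000) (.ev (nat_lit 1908) (nat_lit 2) (.ev (nat_lit 2724)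
 (nat_lit 524288) (.ev (nat_lit 2733) (nat_lit 4) .dd))))) (.ch (nat_lit 4) (.ev (nat_lit 496) (nat_lit
 17592220123140) (.nd (nat_lit 1360) (.br (nat_lit 7) (.br (nat_lit 4) (.br (nat_lit 3) (.ch (nat_lit 1) (.ev
 (nat_lit 1376) (nat_lit 16418) (.ev (nat_lit 1389) (nat_lit 68719476736) .dd))) (.ch (nat_lit 3) (.ev (nat_lit
 1376) (nat_lit 16416) (.ev (nat_lit 1396) (nat_lit 68719476736) (.ev (nat_lit 1405) (nat_lit 2) .dd))))) (.br
 (nat_lit 6) (.ch (nat_lit 4) (.ev (nat_lit 1376) (nat_lit 16386) (.ev (nat_lit 2724) (nat_lit 68719476736)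
 (.ev (nat_lit 2733) (nat_lit 32) .dd)))) (.ch (nat_lit 6) (.ev (nat_lit 1376) (nat_lit 16416) (.ev (nat_lit
 1536) (nat_lit 68719476738) .dd))))) (.br (nat_lit 10) (.br (nat_lit 8) (.ch (nat_lit 7) (.ev (nat_lit 1376)
 (nat_lit 68719476770) (.ev (nat_lit 1389) (nat_lit 16384) .dd))) (.ch (nat_lit 8) (.ev (nat_lit 1376) (nat_lit
 16384) (.ev (nat_lit 2564) (nat_lit 68719476736) (.ev (nat_lit 2804) (nat_lit 32) (.ev (nat_lit 2813) (nat_lit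
 2) .dd)))))) (.br (nat_lit 15) (.ch (nat_lit 10) (.ev (nat_lit 1376) (nat_lit 68719476736) (.ev (nat_lit 1396)
 (nat_lit 2) (.ev (nat_lit 2196) (nat_lit 16384) (.ev (nat_lit 2205) (nat_lit 32) .dd))))) (.ch (nat_lit 15)
 (.ev (nat_lit 1376) (nat_lit 68719493152) (.ev (nat_lit 1389) (nat_lit 2) .dd))))))))))) (.br (nat_lit 10)
 (.br (nat_lit 6) (.ch (nat_lit 5) (.ev (nat_lit 496) (nat_lit 17592219598854) (.nd (nat_lit 944) (.br (nat_lit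
 10) (.br (nat_lit 5) (.br (nat_lit 3) (.ch (nat_lit 0) (.ev (nat_lit 960) (nat_lit 524320) (.ev (nat_lit 1172)
 (nat_lit 16384) (.ev (nat_lit 1181) (nat_lit 68719476736) .dd)))) (.ch (nat_lit 3) (.ev (nat_lit 960) (nat_lit
 68719493120) (.ev (nat_lit 2308) (nat_lit 32) (.ev (nat_lit 2317) (nat_lit 524288) .dd))))) (.br (nat_lit 9)
 (.ch (nat_lit 5) (.ev (nat_lit 960) (nat_lit 68720001056) (.ev (nat_lit 973) (nat_lit 16384) .dd))) (.ch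
 (nat_lit 9) (.ev (nat_lit 960) (nat_lit 540704) (.ev (nat_lit 973) (nat_lit 68719476736) .dd))))) (.br
 (nat_lit 13) (.br (nat_lit 11) (.ch (nat_lit 10) (.ev (nat_lit 960) (nat_lit 68719493152) (.ev (nat_lit 973)
 (nat_lit 524288) .dd))) (.ch (nat_lit 11) (.ev (nat_lit 960) (nat_lit 68719476736) (.ev (nat_lit 1668)
 (nat_lit 16416) (.ev (nat_lit 1677) (nat_lit 524288) .dd))))) (.br (nat_lit 15) (.ch (nat_lit 13) (.ev
 (nat_lit 960) (nat_lit 68719493120) (.ev (nat_lit 2644) (nat_lit 524288) (.ev (nat_lit 2653) (nat_lit 32)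
 .dd)))) (.br (nat_lit 16) (.ch (nat_lit 15) (.ev (nat_lit 960) (nat_lit 68720001024) (.ev (nat_lit 1172)
 (nat_lit 16384) (.ev (nat_lit 1181) (nat_lit 32) .dd)))) (.ch (nat_lit 16) (.ev (nat_lit 960) (nat_lit
 68719476736) (.ev (nat_lit 1460) (nat_lit 32) (.ev (nat_lit 2900) (nat_lit 524288) (.ev (nat_lit 2909)
 (nat_lit 16384) .dd)))))))))))) (.ch (nat_lit 6) (.ev (nat_lit 496) (nat_lit 68719476740) (.nd (nat_lit 1504)
 (.br (nat_lit 6) (.br (nat_lit 2) (.br (nat_lit 1) (.ch (nat_lit 0) (.ev (nat_lit 1520) (nat_lit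
 17592219598880) (.ev (nat_lit 2564) (nat_lit 524288) (.ev (nat_lit 2608) (nat_lit 2) (.ev (nat_lit 2621)
 (nat_lit 16384) .dd))))) (.ch (nat_lit 1) (.ev (nat_lit 1520) (nat_lit 17592220139552) (.ev (nat_lit 1533)
 (nat_lit 2) .dd)))) (.br (nat_lit 3) (.ch (nat_lit 2) (.ev (nat_lit 1520) (nat_lit 17592219615264) (.ev
 (nat_lit 2564) (nat_lit 524288) (.ev (nat_lit 2573) (nat_lit 2) .dd)))) (.ch (nat_lit 3) (.ev (nat_lit 1520)
 (nat_lit 17592219598850) (.ev (nat_lit 1556) (nat_lit 32) (.ev (nat_lit 1668) (nat_lit 16384) (.ev (nat_lit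
 1677) (nat_lit 524288) .dd))))))) (.br (nat_lit 11) (.br (nat_lit 8) (.ch (nat_lit 6) (.ev (nat_lit 1520)
 (nat_lit 16386) (.ev (nat_lit 1584) (nat_lit 33554432) (.ev (nat_lit 2160) (nat_lit 17592186044416) (.ev
 (nat_lit 2308) (nat_lit 32) (.ev (nat_lit 2317) (nat_lit 524288) .dd)))))) (.ch (nat_lit 8) (.ev (nat_lit
 1520) (nat_lit 524322) (.ev (nat_lit 1556) (nat_lit 17592186044416) (.nd (nat_lit 4208) (.br (nat_lit 10) (.ch
 (nat_lit 7) (.ev (nat_lit 4224) (nat_lit 16384) (.ev (nat_lit 4237) (nat_lit 33554432) .dd))) (.ch (nat_lit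
 10) (.fin (nat_lit 576451406477083243))))))))) (.br (nat_lit 12) (.ch (nat_lit 11) (.ev (nat_lit 1520)
 (nat_lit 17592220123168) (.ev (nat_lit 1556) (nat_lit 2) (.ev (nat_lit 1565) (nat_lit 16384) .dd)))) (.br
 (nat_lit 13) (.ch (nat_lit 12) (.ev (nat_lit 1520) (nat_lit 17592186044448) (.ev (nat_lit 1972) (nat_lit 2)
 (.ev (nat_lit 2564) (nat_lit 524288) (.ev (nat_lit 2644) (nat_lit 16384) (.ev (nat_lit 2653) (nat_lit
 33554432) .dd)))))) (.ch (nat_lit 13) (.ev (nat_lit 1520) (nat_lit 540706) (.ev (nat_lit 2340) (nat_lit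
 17592186044416) (.ev (nat_lit 2349) (nat_lit 33554432) .dd)))))))))))) (.br (nat_lit 11) (.ch (nat_lit 10)
 (.ev (nat_lit 496) (nat_lit 17660906061858) (.ev (nat_lit 2644) (nat_lit 33554432) (.ev (nat_lit 2653)
 (nat_lit 4) .dd)))) (.br (nat_lit 13) (.ch (nat_lit 11) (.ev (nat_lit 496) (nat_lit 17660905537538) (.nd
 (nat_lit 944) (.br (nat_lit 8) (.br (nat_lit 4) (.br (nat_lit 1) (.ch (nat_lit 0) (.ev (nat_lit 960) (nat_lit
 524292) (.ev (nat_lit 1216) (nat_lit 33554432) (.ev (nat_lit 1229) (nat_lit 32) .dd)))) (.ch (nat_lit 1) (.ev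
 (nat_lit 960) (nat_lit 33554468) (.ev (nat_lit 973) (nat_lit 524288) .dd)))) (.br (nat_lit 7) (.ch (nat_lit 4)
 (.ev (nat_lit 960) (nat_lit 36) (.ev (nat_lit 1396) (nat_lit 33554432) (.ev (nat_lit 1405) (nat_lit 524288)
 .dd)))) (.ch (nat_lit 7) (.ev (nat_lit 960) (nat_lit 524288) (.ev (nat_lit 1744) (nat_lit 32) (.ev (nat_lit
 1876) (nat_lit 4) (.ev (nat_lit 1885) (nat_lit 33554432) .dd))))))) (.br (nat_lit 11) (.br (nat_lit 10) (.ch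
 (nat_lit 8) (.ev (nat_lit 960) (nat_lit 34078752) (.ev (nat_lit 973) (nat_lit 4) .dd))) (.ch (nat_lit 10) (.ev
 (nat_lit 960) (nat_lit 33554436) (.ev (nat_lit 2308) (nat_lit 32) (.ev (nat_lit 2317) (nat_lit 524288)
 .dd))))) (.br (nat_lit 13) (.ch (nat_lit 11) (.ev (nat_lit 960) (nat_lit 33554464) (.ev (nat_lit 1396)
 (nat_lit 4) (.ev (nat_lit 1405) (nat_lit 524288) .dd)))) (.br (nat_lit 15) (.ch (nat_lit 13) (.ev (nat_lit
 2644) (nat_lit 524288) (.ev (nat_lit 2724) (nat_lit 32) (.ev (nat_lit 2804) (nat_lit 4) (.ev (nat_lit 2813)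
 (nat_lit 33554432) .dd))))) (.ch (nat_lit 15) (.ev (nat_lit 960) (nat_lit 34078720) (.ev (nat_lit 1264)
 (nat_lit 4) (.ev (nat_lit 1277) (nat_lit 32) .dd))))))))))) (.ch (nat_lit 13) (.ev (nat_lit 496) (nat_lit
 17660906045472) (.ev (nat_lit 2644) (nat_lit 16384) (.ev (nat_lit 2724) (nat_lit 4) (.ev (nat_lit 2752)
 (nat_lit 2) (.ev (nat_lit 2765) (nat_lit 33554432) .dd))))))))))))) (.ch (nat_lit 5) (.ev (nat_lit 48)
 (nat_lit 17695433097220) (.nd (nat_lit 528) (.br (nat_lit 6) (.br (nat_lit 3) (.br (nat_lit 1) (.ch (nat_lit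
 0) (.ev (nat_lit 544) (nat_lit 274878480416) (.ev (nat_lit 2404) (nat_lit 2) (.ev (nat_lit 2413) (nat_lit
 67108864) .dd)))) (.ch (nat_lit 1) (.ev (nat_lit 544) (nat_lit 274945589282) .dd))) (.br (nat_lit 4) (.ch
 (nat_lit 3) (.ev (nat_lit 544) (nat_lit 67158050) (.nd (nat_lit 2432) (.br (nat_lit 11) (.br (nat_lit 4) (.ch
 (nat_lit 1) (.ev (nat_lit 2448) (nat_lit 274877906944) (.ev (nat_lit 2461) (nat_lit 524288) .dd))) (.br
 (nat_lit 6) (.ch (nat_lit 4) (.ev (nat_lit 2448) (nat_lit 524288) (.ev (nat_lit 2461) (nat_lit 274877906944)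
 .dd))) (.ch (nat_lit 6) (.ev (nat_lit 2448) (nat_lit 274877906944) (.ev (nat_lit 2461) (nat_lit 524288)
 .dd))))) (.br (nat_lit 15) (.br (nat_lit 12) (.ch (nat_lit 11) (.ev (nat_lit 2448) (nat_lit 524288) (.ev
 (nat_lit 2461) (nat_lit 274877906944) .dd))) (.ch (nat_lit 12) (.ev (nat_lit 2448) (nat_lit 524288) (.ev
 (nat_lit 2461) (nat_lit 274877906944) .dd)))) (.br (nat_lit 16) (.ch (nat_lit 15) (.ev (nat_lit 2448) (nat_lit
 274877906944) (.ev (nat_lit 2461) (nat_lit 524288) .dd))) (.ch (nat_lit 16) (.ev (nat_lit 2448) (nat_lit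
 274877906944) (.ev (nat_lit 2461) (nat_lit 524288) .dd))))))))) (.ch (nat_lit 4) (.ev (nat_lit 544) (nat_lit
 32800) (.nd (nat_lit 1136) (.br (nat_lit 8) (.br (nat_lit 3) (.br (nat_lit 1) (.ch (nat_lit 0) (.ev (nat_lit
 1152) (nat_lit 67108866) (.ev (nat_lit 1172) (nat_lit 274877906944) (.ev (nat_lit 1732) (nat_lit 524288) (.ev
 (nat_lit 1741) (nat_lit 16384) .dd))))) (.ch (nat_lit 1) (.ev (nat_lit 1152) (nat_lit 274945032194) (.ev
 (nat_lit 1165) (nat_lit 524288) .dd)))) (.br (nat_lit 4) (.ch (nat_lit 3) (.ev (nat_lit 1152) (nat_lit 524290)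
 (.ev (nat_lit 1876) (nat_lit 274877906944) (.ev (nat_lit 2132) (nat_lit 67108864) (.ev (nat_lit 2141) (nat_lit
 16384) .dd))))) (.ch (nat_lit 4) (.ev (nat_lit 1152) (nat_lit 67649538) (.ev (nat_lit 1165) (nat_lit
 274877906944) .dd))))) (.br (nat_lit 12) (.br (nat_lit 9) (.ch (nat_lit 8) (.ev (nat_lit 1172) (nat_lit 2)
 (.ev (nat_lit 1296) (nat_lit 67108864) (.ev (nat_lit 2340) (nat_lit 524288) (.ev (nat_lit 2656) (nat_lit
 274877906944) (.ev (nat_lit 2669) (nat_lit 16384) .dd)))))) (.ch (nat_lit 9) (.ev (nat_lit 1152) (nat_lit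
 274945540096) (.ev (nat_lit 1172) (nat_lit 2) (.ev (nat_lit 1181) (nat_lit 16384) .dd))))) (.br (nat_lit 14)
 (.ch (nat_lit 12) (.ev (nat_lit 1152) (nat_lit 274877923328) (.ev (nat_lit 1348) (nat_lit 67108864) (.ev
 (nat_lit 2884) (nat_lit 2) (.ev (nat_lit 2893) (nat_lit 524288) .dd))))) (.br (nat_lit 15) (.ch (nat_lit 14)
 (.ev (nat_lit 1152) (nat_lit 540672) (.ev (nat_lit 2772) (nat_lit 274877906944) (.ev (nat_lit 3812) (nat_lit
 2) (.ev (nat_lit 3821) (nat_lit 67108864) .dd))))) (.ch (nat_lit 15) (.ev (nat_lit 1152) (nat_lit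
 274877906944) (.ev (nat_lit 1204) (nat_lit 2) (.ev (nat_lit 1680) (nat_lit 16384) (.ev (nat_lit 2592) (nat_lit
 67108864) (.ev (nat_lit 2605) (nat_lit 524288) .dd))))))))))))))) (.br (nat_lit 11) (.br (nat_lit 7) (.ch
 (nat_lit 6) (.ev (nat_lit 544) (nat_lit 274945048578) (.ev (nat_lit 2644) (nat_lit 16416) (.ev (nat_lit 2653)
 (nat_lit 524288) .dd)))) (.ch (nat_lit 7) (.ev (nat_lit 544) (nat_lit 32) (.nd (nat_lit 1360) (.br (nat_lit
 10) (.br (nat_lit 8) (.br (nat_lit 5) (.ch (nat_lit 2) (.ev (nat_lit 1376) (nat_lit 67682304) (.ev (nat_lit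
 1396) (nat_lit 274877906944) (.ev (nat_lit 1405) (nat_lit 2) .dd)))) (.ch (nat_lit 5) (.ev (nat_lit 1376)
 (nat_lit 274945032194) (.ev (nat_lit 2084) (nat_lit 32768) (.ev (nat_lit 2093) (nat_lit 524288) .dd))))) (.br
 (nat_lit 9) (.ch (nat_lit 8) (.ev (nat_lit 1376) (nat_lit 274945064960) (.ev (nat_lit 1648) (nat_lit 524290)
 .dd))) (.ch (nat_lit 9) (.ev (nat_lit 1376) (nat_lit 274945540098) (.ev (nat_lit 1396) (nat_lit 32768) (.ev
 (nat_lit 1405) (nat_lit 16384) .dd)))))) (.br (nat_lit 15) (.br (nat_lit 14) (.ch (nat_lit 10) (.ev (nat_lit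
 1376) (nat_lit 540672) (.ev (nat_lit 1396) (nat_lit 274877906944) (.ev (nat_lit 1908) (nat_lit 32768) (.ev
 (nat_lit 2644) (nat_lit 67108864) (.ev (nat_lit 2653) (nat_lit 2) .dd)))))) (.ch (nat_lit 14) (.ev (nat_lit
 1376) (nat_lit 67141634) (.ev (nat_lit 1396) (nat_lit 274878431232) (.ev (nat_lit 1405) (nat_lit 16384)
 .dd))))) (.br (nat_lit 16) (.ch (nat_lit 15) (.ev (nat_lit 1376) (nat_lit 274877923330) (.ev (nat_lit 1668)
 (nat_lit 524288) (.ev (nat_lit 1796) (nat_lit 67108864) (.ev (nat_lit 1805) (nat_lit 32768) .dd))))) (.ch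
 (nat_lit 16) (.ev (nat_lit 1376) (nat_lit 274945032192) (.ev (nat_lit 1764) (nat_lit 32768) (.ev (nat_lit
 1776) (nat_lit 524288) (.ev (nat_lit 1789) (nat_lit 2) .dd)))))))))))) (.br (nat_lit 12) (.ch (nat_lit 11)
 (.ev (nat_lit 544) (nat_lit 524320) (.ev (nat_lit 1732) (nat_lit 16384) (.ev (nat_lit 2340) (nat_lit 32768)
 (.ev (nat_lit 2372) (nat_lit 274877906944) (.ev (nat_lit 2820) (nat_lit 67108864) (.ev (nat_lit 2829) (nat_lit
 2) .dd))))))) (.br (nat_lit 15) (.ch (nat_lit 12) (.ev (nat_lit 544) (nat_lit 67682304) (.ev (nat_lit 2724)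
 (nat_lit 274877906944) (.nd (nat_lit 2992) (.br (nat_lit 8) (.br (nat_lit 5) (.ch (nat_lit 0) (.ev (nat_lit
 3008) (nat_lit 2) (.ev (nat_lit 3021) (nat_lit 32) .dd))) (.br (nat_lit 6) (.ch (nat_lit 5) (.ev (nat_lit
 3028) (nat_lit 2) (.ev (nat_lit 3037) (nat_lit 32) .dd))) (.ch (nat_lit 6) (.ev (nat_lit 3008) (nat_lit 2)
 (.ev (nat_lit 3021) (nat_lit 32) .dd))))) (.br (nat_lit 11) (.ch (nat_lit 8) (.ev (nat_lit 3008) (nat_lit 2)
 (.ev (nat_lit 3021) (nat_lit 32) .dd))) (.br (nat_lit 15) (.ch (nat_lit 11) (.ev (nat_lit 3008) (nat_lit 32)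
 (.ev (nat_lit 3021) (nat_lit 2) .dd))) (.ch (nat_lit 15) (.ev (nat_lit 3008) (nat_lit 32) (.ev (nat_lit 3021)
 (nat_lit 2) .dd)))))))))) (.ch (nat_lit 15) (.ev (nat_lit 544) (nat_lit 274877939714) (.ev (nat_lit 564)
 (nat_lit 67108864) (.ev (nat_lit 1908) (nat_lit 16384) (.ev (nat_lit 2564) (nat_lit 32) (.ev (nat_lit 2573)
 (nat_lit 524288) .dd))))))))))))))) (.br (nat_lit 12) (.br (nat_lit 11) (.ch (nat_lit 8) (.ev (nat_lit 48)
 (nat_lit 309439545344) (.nd (nat_lit 432) (.br (nat_lit 10) (.br (nat_lit 5) (.br (nat_lit 4) (.ch (nat_lit 1)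
 (.ev (nat_lit 448) (nat_lit 68719542304) (.ev (nat_lit 468) (nat_lit 4) (.ev (nat_lit 1908) (nat_lit
 17592186044416) (.ev (nat_lit 2564) (nat_lit 2) (.ev (nat_lit 2573) (nat_lit 33554432) .dd)))))) (.ch (nat_lit
 4) (.ev (nat_lit 448) (nat_lit 17592219664388) (.nd (nat_lit 1504) (.br (nat_lit 11) (.br (nat_lit 7) (.br
 (nat_lit 5) (.ch (nat_lit 0) (.ev (nat_lit 1520) (nat_lit 68719476736) (.ev (nat_lit 1764) (nat_lit 32) (.ev
 (nat_lit 1773) (nat_lit 2) .dd)))) (.ch (nat_lit 5) (.ev (nat_lit 1520) (nat_lit 68719476768) (.ev (nat_lit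
 1533) (nat_lit 2) .dd)))) (.br (nat_lit 10) (.ch (nat_lit 7) (.ev (nat_lit 1520) (nat_lit 2) (.ev (nat_lit
 2724) (nat_lit 68719476736) (.ev (nat_lit 2733) (nat_lit 32) .dd)))) (.ch (nat_lit 10) (.ev (nat_lit 1520)
 (nat_lit 68719476770) .dd)))) (.br (nat_lit 14) (.br (nat_lit 12) (.ch (nat_lit 11) (.ev (nat_lit 1520)
 (nat_lit 2) (.ev (nat_lit 1764) (nat_lit 68719476736) (.ev (nat_lit 1773) (nat_lit 32) .dd)))) (.ch (nat_lit
 12) (.ev (nat_lit 1520) (nat_lit 34) (.ev (nat_lit 1533) (nat_lit 68719476736) .dd)))) (.br (nat_lit 16) (.ch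
 (nat_lit 14) (.ev (nat_lit 1556) (nat_lit 68719476768) (.ev (nat_lit 1565) (nat_lit 2) .dd))) (.ch (nat_lit
 16) (.ev (nat_lit 1556) (nat_lit 2) (.ev (nat_lit 2132) (nat_lit 68719476736) (.ev (nat_lit 2141) (nat_lit 32)
 .dd))))))))))) (.br (nat_lit 9) (.ch (nat_lit 5) (.ev (nat_lit 448) (nat_lit 33554434) (.nd (nat_lit 1360)
 (.br (nat_lit 7) (.br (nat_lit 3) (.br (nat_lit 2) (.ch (nat_lit 1) (.ev (nat_lit 1376) (nat_lit 4) (.ev
 (nat_lit 1396) (nat_lit 17592186044416) (.ev (nat_lit 1556) (nat_lit 65536) (.ev (nat_lit 1604) (nat_lit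
 68719476736) (.ev (nat_lit 1613) (nat_lit 32) .dd)))))) (.ch (nat_lit 2) (.ev (nat_lit 1376) (nat_lit 36) (.ev
 (nat_lit 1556) (nat_lit 65536) (.ev (nat_lit 1604) (nat_lit 68719476736) (.ev (nat_lit 1613) (nat_lit
 17592186044416) .dd)))))) (.br (nat_lit 5) (.ch (nat_lit 3) (.ev (nat_lit 1376) (nat_lit 17660905586724) .dd))
 (.ch (nat_lit 5) (.ev (nat_lit 1376) (nat_lit 17592186109952) (.ev (nat_lit 1396) (nat_lit 4) (.ev (nat_lit
 2196) (nat_lit 32) (.ev (nat_lit 2205) (nat_lit 68719476736) .dd))))))) (.br (nat_lit 13) (.br (nat_lit 11)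
 (.ch (nat_lit 7) (.ev (nat_lit 1376) (nat_lit 68719476768) (.ev (nat_lit 1396) (nat_lit 17592186044416) (.ev
 (nat_lit 1556) (nat_lit 65536) (.ev (nat_lit 1565) (nat_lit 4) .dd))))) (.ch (nat_lit 11) (.ev (nat_lit 1376)
 (nat_lit 17592186109952) (.ev (nat_lit 1888) (nat_lit 68719476736) (.ev (nat_lit 2820) (nat_lit 4) (.ev
 (nat_lit 2829) (nat_lit 32) .dd)))))) (.br (nat_lit 15) (.ch (nat_lit 13) (.ev (nat_lit 1376) (nat_lit
 17660905521156) (.ev (nat_lit 1556) (nat_lit 65536) (.ev (nat_lit 1565) (nat_lit 32) .dd)))) (.br (nat_lit 16)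
 (.ch (nat_lit 15) (.ev (nat_lit 1376) (nat_lit 68719542308) (.ev (nat_lit 1389) (nat_lit 17592186044416)
 .dd))) (.ch (nat_lit 16) (.ev (nat_lit 1376) (nat_lit 4) (.ev (nat_lit 1396) (nat_lit 17592186044416) (.ev
 (nat_lit 1460) (nat_lit 32) (.ev (nat_lit 2288) (nat_lit 68719542272) .dd)))))))))))) (.ch (nat_lit 9) (.ev
 (nat_lit 448) (nat_lit 2) (.nd (nat_lit 944) (.br (nat_lit 10) (.br (nat_lit 4) (.br (nat_lit 3) (.ch (nat_lit
 2) (.ev (nat_lit 960) (nat_lit 17592219598848) (.ev (nat_lit 1396) (nat_lit 68719476736) (.ev (nat_lit 1908)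
 (nat_lit 65536) (.ev (nat_lit 2644) (nat_lit 4) (.ev (nat_lit 2653) (nat_lit 32) .dd)))))) (.ch (nat_lit 3)
 (.ev (nat_lit 960) (nat_lit 68753031172) (.ev (nat_lit 980) (nat_lit 65568) (.ev (nat_lit 989) (nat_lit
 17592186044416) .dd))))) (.br (nat_lit 7) (.ch (nat_lit 4) (.ev (nat_lit 960) (nat_lit 17660905586692) (.ev
 (nat_lit 1648) (nat_lit 33554464) .dd))) (.ch (nat_lit 7) (.ev (nat_lit 960) (nat_lit 17660905521188) (.ev
 (nat_lit 2084) (nat_lit 65536) (.ev (nat_lit 2093) (nat_lit 33554432) .dd)))))) (.br (nat_lit 14) (.br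
 (nat_lit 13) (.ch (nat_lit 10) (.ev (nat_lit 960) (nat_lit 17592219664388) (.ev (nat_lit 1396) (nat_lit
 68719476736) (.ev (nat_lit 1405) (nat_lit 32) .dd)))) (.ch (nat_lit 13) (.ev (nat_lit 960) (nat_lit
 17660905521156) (.ev (nat_lit 1764) (nat_lit 65536) (.ev (nat_lit 1776) (nat_lit 33554432) (.ev (nat_lit 1789)
 (nat_lit 32) .dd)))))) (.br (nat_lit 15) (.ch (nat_lit 14) (.ev (nat_lit 960) (nat_lit 17660905521184) (.ev
 (nat_lit 1668) (nat_lit 33554432) (.ev (nat_lit 1796) (nat_lit 4) (.ev (nat_lit 1805) (nat_lit 65536) .dd)))))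
 (.ch (nat_lit 15) (.ev (nat_lit 960) (nat_lit 65572) (.ev (nat_lit 1396) (nat_lit 68719476736) (.ev (nat_lit
 1428) (nat_lit 33554432) (.ev (nat_lit 1437) (nat_lit 17592186044416) .dd))))))))))))) (.br (nat_lit 13) (.br
 (nat_lit 12) (.ch (nat_lit 10) (.ev (nat_lit 448) (nat_lit 68719542308) (.ev (nat_lit 2644) (nat_lit
 17592186044418) (.ev (nat_lit 2653) (nat_lit 33554432) .dd)))) (.ch (nat_lit 12) (.ev (nat_lit 448) (nat_lit
 65538) (.nd (nat_lit 944) (.br (nat_lit 8) (.br (nat_lit 5) (.br (nat_lit 3) (.ch (nat_lit 2) (.ev (nat_lit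
 960) (nat_lit 17592219598884) (.ev (nat_lit 973) (nat_lit 68719476736) .dd))) (.ch (nat_lit 3) (.ev (nat_lit
 960) (nat_lit 33554464) (.ev (nat_lit 1876) (nat_lit 68719476736) (.ev (nat_lit 2132) (nat_lit 4) (.ev
 (nat_lit 2141) (nat_lit 17592186044416) .dd)))))) (.br (nat_lit 6) (.ch (nat_lit 5) (.ev (nat_lit 960)
 (nat_lit 17660905521188) (.ev (nat_lit 973) (nat_lit 33554432) .dd))) (.ch (nat_lit 6) (.ev (nat_lit 960)
 (nat_lit 36) (.ev (nat_lit 980) (nat_lit 68719476736) (.ev (nat_lit 1732) (nat_lit 33554432) (.ev (nat_lit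
 1741) (nat_lit 17592186044416) .dd))))))) (.br (nat_lit 11) (.br (nat_lit 9) (.ch (nat_lit 8) (.ev (nat_lit
 960) (nat_lit 68719476736) (.ev (nat_lit 1204) (nat_lit 32) (.ev (nat_lit 1680) (nat_lit 17592186044416) (.ev
 (nat_lit 2592) (nat_lit 4) (.ev (nat_lit 2605) (nat_lit 33554432) .dd)))))) (.ch (nat_lit 9) (.ev (nat_lit
 960) (nat_lit 17592219598848) (.ev (nat_lit 2772) (nat_lit 68719476736) (.ev (nat_lit 3812) (nat_lit 32) (.ev
 (nat_lit 3821) (nat_lit 4) .dd)))))) (.br (nat_lit 14) (.ch (nat_lit 11) (.ev (nat_lit 960) (nat_lit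
 17660905521152) (.ev (nat_lit 1348) (nat_lit 4) (.ev (nat_lit 2884) (nat_lit 32) (.ev (nat_lit 2893) (nat_lit
 33554432) .dd))))) (.br (nat_lit 15) (.ch (nat_lit 14) (.ev (nat_lit 960) (nat_lit 68753031172) (.ev (nat_lit
 980) (nat_lit 17592186044416) (.ev (nat_lit 989) (nat_lit 32) .dd)))) (.ch (nat_lit 15) (.ev (nat_lit 980)
 (nat_lit 32) (.ev (nat_lit 1296) (nat_lit 4) (.ev (nat_lit 2340) (nat_lit 33554432) (.ev (nat_lit 2656)
 (nat_lit 68719476736) (.ev (nat_lit 2669) (nat_lit 17592186044416) .dd)))))))))))))) (.br (nat_lit 15) (.ch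
 (nat_lit 13) (.ev (nat_lit 448) (nat_lit 17592186109990) (.nd (nat_lit 1504) (.br (nat_lit 6) (.br (nat_lit 3)
 (.ch (nat_lit 0) (.ev (nat_lit 1520) (nat_lit 33554432) (.ev (nat_lit 1533) (nat_lit 68719476736) .dd))) (.br
 (nat_lit 5) (.ch (nat_lit 3) (.ev (nat_lit 1520) (nat_lit 68719476736) (.ev (nat_lit 1533) (nat_lit 33554432)
 .dd))) (.ch (nat_lit 5) (.ev (nat_lit 1520) (nat_lit 68719476736) (.ev (nat_lit 1533) (nat_lit 33554432)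
 .dd))))) (.br (nat_lit 10) (.br (nat_lit 9) (.ch (nat_lit 6) (.ev (nat_lit 1520) (nat_lit 68719476736) (.ev
 (nat_lit 1533) (nat_lit 33554432) .dd))) (.ch (nat_lit 9) (.ev (nat_lit 1604) (nat_lit 68719476736) (.ev
 (nat_lit 1613) (nat_lit 33554432) .dd)))) (.br (nat_lit 15) (.ch (nat_lit 10) (.ev (nat_lit 1520) (nat_lit
 33554432) (.ev (nat_lit 1533) (nat_lit 68719476736) .dd))) (.ch (nat_lit 15) (.ev (nat_lit 1520) (nat_lit
 68719476736) (.ev (nat_lit 1533) (nat_lit 33554432) .dd))))))))) (.br (nat_lit 16) (.ch (nat_lit 15) (.ev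
 (nat_lit 448) (nat_lit 17660939141158) .dd)) (.ch (nat_lit 16) (.ev (nat_lit 448) (nat_lit 17660939141122)
 (.ev (nat_lit 2404) (nat_lit 32) (.ev (nat_lit 2413) (nat_lit 4) .dd))))))))))) (.ch (nat_lit 11) (.ev
 (nat_lit 48) (nat_lit 103213531140) (.nd (nat_lit 480) (.br (nat_lit 8) (.br (nat_lit 2) (.br (nat_lit 1) (.ch
 (nat_lit 0) (.ev (nat_lit 496) (nat_lit 101203968) (.ev (nat_lit 2196) (nat_lit 17592186044416) (.ev (nat_lit
 2724) (nat_lit 274877906944) (.nd (nat_lit 3040) (.br (nat_lit 8) (.ch (nat_lit 4) (.ev (nat_lit 3076)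
 (nat_lit 2) (.ev (nat_lit 3085) (nat_lit 32) .dd))) (.ch (nat_lit 8) (.ev (nat_lit 3056) (nat_lit 32) (.ev
 (nat_lit 3069) (nat_lit 2) .dd))))))))) (.ch (nat_lit 1) (.ev (nat_lit 496) (nat_lit 17867064492034) (.ev
 (nat_lit 1908) (nat_lit 32) (.ev (nat_lit 2724) (nat_lit 33554432) (.ev (nat_lit 2733) (nat_lit 67108864)
 .dd)))))) (.br (nat_lit 3) (.ch (nat_lit 2) (.ev (nat_lit 496) (nat_lit 17592253153280) (.nd (nat_lit 1360)
 (.br (nat_lit 9) (.br (nat_lit 7) (.br (nat_lit 4) (.ch (nat_lit 1) (.ev (nat_lit 1376) (nat_lit 540704) (.ev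
 (nat_lit 1568) (nat_lit 274877906944) (.ev (nat_lit 1668) (nat_lit 33554432) (.ev (nat_lit 1677) (nat_lit 2)
 .dd))))) (.ch (nat_lit 4) (.ev (nat_lit 1376) (nat_lit 274911985666) (.ev (nat_lit 1556) (nat_lit 16384) (.ev
 (nat_lit 1565) (nat_lit 32) .dd))))) (.br (nat_lit 8) (.ch (nat_lit 7) (.ev (nat_lit 1376) (nat_lit 540706)
 (.ev (nat_lit 1396) (nat_lit 274877906944) (.ev (nat_lit 1405) (nat_lit 33554432) .dd)))) (.ch (nat_lit 8)
 (.ev (nat_lit 1376) (nat_lit 274877906978) (.ev (nat_lit 1556) (nat_lit 16384) (.ev (nat_lit 1616) (nat_lit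
 33554432) (.ev (nat_lit 1629) (nat_lit 524288) .dd))))))) (.br (nat_lit 14) (.br (nat_lit 13) (.ch (nat_lit 9)
 (.ev (nat_lit 1376) (nat_lit 524320) (.ev (nat_lit 1604) (nat_lit 16384) (.ev (nat_lit 1796) (nat_lit
 33554432) (.ev (nat_lit 1808) (nat_lit 274877906944) (.ev (nat_lit 1821) (nat_lit 2) .dd)))))) (.ch (nat_lit
 13) (.ev (nat_lit 1376) (nat_lit 33570848) (.ev (nat_lit 1396) (nat_lit 274877906944) (.ev (nat_lit 1584)
 (nat_lit 524288) (.ev (nat_lit 1597) (nat_lit 2) .dd)))))) (.br (nat_lit 15) (.ch (nat_lit 14) (.ev (nat_lit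
 1376) (nat_lit 274911985698) (.ev (nat_lit 1389) (nat_lit 16384) .dd))) (.ch (nat_lit 15) (.ev (nat_lit 1376)
 (nat_lit 524290) (.ev (nat_lit 1396) (nat_lit 274877906944) (.ev (nat_lit 2132) (nat_lit 33554432) (.ev
 (nat_lit 2144) (nat_lit 16416) .dd))))))))))) (.ch (nat_lit 3) (.ev (nat_lit 496) (nat_lit 274912002082) (.nd
 (nat_lit 2432) (.br (nat_lit 6) (.br (nat_lit 4) (.ch (nat_lit 3) (.ev (nat_lit 2448) (nat_lit 17592253153280)
 .dd)) (.ch (nat_lit 4) (.ev (nat_lit 2448) (nat_lit 17592253153280) .dd))) (.br (nat_lit 8) (.ch (nat_lit 6)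
 (.ev (nat_lit 2448) (nat_lit 17592186044416) (.ev (nat_lit 2461) (nat_lit 67108864) .dd))) (.ch (nat_lit 8)
 (.ev (nat_lit 2448) (nat_lit 67108864) (.ev (nat_lit 2461) (nat_lit 17592186044416) .dd)))))))))) (.br
 (nat_lit 11) (.br (nat_lit 10) (.ch (nat_lit 8) (.ev (nat_lit 496) (nat_lit 274911477762) (.nd (nat_lit 1504)
 (.br (nat_lit 10) (.br (nat_lit 1) (.ch (nat_lit 0) (.ev (nat_lit 1520) (nat_lit 524320) (.ev (nat_lit 2564)
 (nat_lit 17592186044416) (.ev (nat_lit 2573) (nat_lit 67108864) .dd)))) (.br (nat_lit 9) (.ch (nat_lit 1) (.ev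
 (nat_lit 1520) (nat_lit 67108896) (.ev (nat_lit 1920) (nat_lit 524288) (.ev (nat_lit 1933) (nat_lit
 17592186044416) .dd)))) (.ch (nat_lit 9) (.ev (nat_lit 1520) (nat_lit 524320) (.ev (nat_lit 2196) (nat_lit
 67108864) (.ev (nat_lit 2205) (nat_lit 17592186044416) .dd)))))) (.br (nat_lit 14) (.br (nat_lit 12) (.ch
 (nat_lit 10) (.ev (nat_lit 1520) (nat_lit 67633152) (.ev (nat_lit 1888) (nat_lit 32) (.ev (nat_lit 1901)
 (nat_lit 17592186044416) .dd)))) (.ch (nat_lit 12) (.ev (nat_lit 1520) (nat_lit 17592186044416) (.ev (nat_lit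
 1556) (nat_lit 67108864) (.ev (nat_lit 2752) (nat_lit 32) (.ev (nat_lit 2765) (nat_lit 524288) .dd)))))) (.br
 (nat_lit 16) (.ch (nat_lit 14) (.ev (nat_lit 1520) (nat_lit 17592253153312) (.ev (nat_lit 1533) (nat_lit
 524288) .dd))) (.ch (nat_lit 16) (.ev (nat_lit 1520) (nat_lit 17592186568736) (.ev (nat_lit 1533) (nat_lit
 67108864) .dd))))))))) (.ch (nat_lit 10) (.ev (nat_lit 496) (nat_lit 17867063967776) (.nd (nat_lit 2432) (.br
 (nat_lit 9) (.br (nat_lit 6) (.ch (nat_lit 2) (.ev (nat_lit 2448) (nat_lit 101187584) (.ev (nat_lit 2461)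
 (nat_lit 2) .dd))) (.br (nat_lit 8) (.ch (nat_lit 6) (.ev (nat_lit 2644) (nat_lit 33554432) (.ev (nat_lit
 2724) (nat_lit 2) (.ev (nat_lit 2804) (nat_lit 67108864) (.ev (nat_lit 2813) (nat_lit 524288) .dd))))) (.ch
 (nat_lit 8) (.ev (nat_lit 2448) (nat_lit 524290) (.ev (nat_lit 2564) (nat_lit 67108864) (.ev (nat_lit 2573)
 (nat_lit 33554432) .dd)))))) (.br (nat_lit 12) (.br (nat_lit 11) (.ch (nat_lit 9) (.ev (nat_lit 2448) (nat_lit
 67633152) (.ev (nat_lit 2564) (nat_lit 2) (.ev (nat_lit 2573) (nat_lit 33554432) .dd)))) (.ch (nat_lit 11)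
 (.ev (nat_lit 2448) (nat_lit 34078722) (.ev (nat_lit 2461) (nat_lit 67108864) .dd)))) (.br (nat_lit 15) (.ch
 (nat_lit 12) (.ev (nat_lit 2448) (nat_lit 33554434) (.ev (nat_lit 2564) (nat_lit 67108864) (.ev (nat_lit 2573)
 (nat_lit 524288) .dd)))) (.ch (nat_lit 15) (.ev (nat_lit 2448) (nat_lit 67108866) (.ev (nat_lit 2644) (nat_lit
 33554432) (.ev (nat_lit 2653) (nat_lit 524288) .dd))))))))))) (.br (nat_lit 15) (.ch (nat_lit 11) (.ev
 (nat_lit 496) (nat_lit 17867097522210) (.ev (nat_lit 2656) (nat_lit 67108864) (.ev (nat_lit 2669) (nat_lit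
 524288) .dd)))) (.br (nat_lit 16) (.ch (nat_lit 15) (.ev (nat_lit 496) (nat_lit 274945015808) (.nd (nat_lit
 1136) (.br (nat_lit 6) (.br (nat_lit 4) (.br (nat_lit 3) (.ch (nat_lit 0) (.ev (nat_lit 1152) (nat_lit
 17592186044448) (.ev (nat_lit 1428) (nat_lit 524288) (.ev (nat_lit 1668) (nat_lit 33554432) (.ev (nat_lit
 2160) (nat_lit 16384) (.ev (nat_lit 2173) (nat_lit 2) .dd)))))) (.ch (nat_lit 3) (.ev (nat_lit 1152) (nat_lit
 16416) (.ev (nat_lit 1172) (nat_lit 2) (.ev (nat_lit 1216) (nat_lit 524288) (.ev (nat_lit 1556) (nat_lit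
 33554432) (.ev (nat_lit 1565) (nat_lit 17592186044416) .dd))))))) (.br (nat_lit 5) (.ch (nat_lit 4) (.ev
 (nat_lit 1152) (nat_lit 17592186585090) (.ev (nat_lit 1556) (nat_lit 33554432) (.ev (nat_lit 1565) (nat_lit
 32) .dd)))) (.ch (nat_lit 5) (.ev (nat_lit 1152) (nat_lit 17592220139522) (.ev (nat_lit 1165) (nat_lit 32)
 .dd))))) (.br (nat_lit 11) (.br (nat_lit 10) (.ch (nat_lit 6) (.ev (nat_lit 1152) (nat_lit 540674) (.ev
 (nat_lit 1556) (nat_lit 33554432) (.ev (nat_lit 2608) (nat_lit 32) (.ev (nat_lit 2621) (nat_lit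
 17592186044416) .dd))))) (.ch (nat_lit 10) (.ev (nat_lit 1152) (nat_lit 17592219598882) (.ev (nat_lit 2340)
 (nat_lit 16384) (.ev (nat_lit 2349) (nat_lit 524288) .dd))))) (.br (nat_lit 12) (.ch (nat_lit 11) (.ev
 (nat_lit 1152) (nat_lit 16386) (.ev (nat_lit 1556) (nat_lit 33554432) (.ev (nat_lit 1972) (nat_lit 32) (.ev
 (nat_lit 2644) (nat_lit 17592186044416) (.ev (nat_lit 2653) (nat_lit 524288) .dd)))))) (.br (nat_lit 15) (.ch
 (nat_lit 12) (.ev (nat_lit 1152) (nat_lit 34095106) (.ev (nat_lit 1172) (nat_lit 32) (.ev (nat_lit 1181)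
 (nat_lit 17592186044416) .dd)))) (.ch (nat_lit 15) (.ev (nat_lit 1152) (nat_lit 33554466) (.ev (nat_lit 1396)
 (nat_lit 16384) (.nd (nat_lit 3920) (.br (nat_lit 12) (.ch (nat_lit 9) (.fin (nat_lit 576451406435140108)))
 (.ch (nat_lit 12) (.ev (nat_lit 3936) (nat_lit 17592186044416) (.ev (nat_lit 3949) (nat_lit 524288)
 .dd))))))))))))))) (.ch (nat_lit 16) (.ev (nat_lit 496) (nat_lit 67649568) (.nd (nat_lit 1360) (.br (nat_lit
 6) (.br (nat_lit 2) (.br (nat_lit 1) (.ch (nat_lit 0) (.ev (nat_lit 1376) (nat_lit 33554434) (.ev (nat_lit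
 1396) (nat_lit 17592186044416) (.ev (nat_lit 1405) (nat_lit 274877906944) .dd)))) (.ch (nat_lit 1) (.ev
 (nat_lit 1376) (nat_lit 274877906944) (.ev (nat_lit 1460) (nat_lit 2) (.ev (nat_lit 2900) (nat_lit 33554432)
 (.ev (nat_lit 2909) (nat_lit 17592186044416) .dd)))))) (.br (nat_lit 4) (.ch (nat_lit 2) (.ev (nat_lit 1376)
 (nat_lit 274911461376) (.ev (nat_lit 1396) (nat_lit 2) (.ev (nat_lit 1405) (nat_lit 17592186044416) .dd))))
 (.ch (nat_lit 4) (.ev (nat_lit 1376) (nat_lit 17867063951360) (.ev (nat_lit 2644) (nat_lit 33554432) (.ev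
 (nat_lit 2653) (nat_lit 2) .dd)))))) (.br (nat_lit 8) (.br (nat_lit 7) (.ch (nat_lit 6) (.ev (nat_lit 1376)
 (nat_lit 274877906944) (.ev (nat_lit 1668) (nat_lit 17592186044418) (.ev (nat_lit 1677) (nat_lit 33554432)
 .dd)))) (.ch (nat_lit 7) (.ev (nat_lit 1376) (nat_lit 17867063951362) (.ev (nat_lit 1389) (nat_lit 33554432)
 .dd)))) (.br (nat_lit 12) (.ch (nat_lit 8) (.ev (nat_lit 1376) (nat_lit 17592219598850) (.ev (nat_lit 1389)
 (nat_lit 274877906944) .dd))) (.br (nat_lit 14) (.ch (nat_lit 12) (.ev (nat_lit 1376) (nat_lit 274911461378)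
 (.ev (nat_lit 1389) (nat_lit 17592186044416) .dd))) (.ch (nat_lit 14) (.ev (nat_lit 1376) (nat_lit
 17867063951360) (.ev (nat_lit 2308) (nat_lit 2) (.ev (nat_lit 2317) (nat_lit 33554432) .dd)))))))))))))))))))
 (.br (nat_lit 13) (.ch (nat_lit 12) (.ev (nat_lit 48) (nat_lit 17935951314946) (.nd (nat_lit 528) (.br
 (nat_lit 7) (.br (nat_lit 4) (.br (nat_lit 3) (.ch (nat_lit 0) (.ev (nat_lit 544) (nat_lit 67633156) (.ev
 (nat_lit 2132) (nat_lit 32) (.ev (nat_lit 2141) (nat_lit 34359738368) .dd)))) (.ch (nat_lit 3) (.ev (nat_lit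
 544) (nat_lit 34359738404) (.ev (nat_lit 2644) (nat_lit 524288) (.ev (nat_lit 2653) (nat_lit 67108864)
 .dd))))) (.br (nat_lit 6) (.ch (nat_lit 4) (.ev (nat_lit 544) (nat_lit 524288) (.nd (nat_lit 1136) (.br
 (nat_lit 6) (.br (nat_lit 3) (.ch (nat_lit 2) (.ev (nat_lit 1152) (nat_lit 67108864) (.ev (nat_lit 1236)
 (nat_lit 34359738368) (.ev (nat_lit 1796) (nat_lit 4) (.ev (nat_lit 1805) (nat_lit 32) .dd))))) (.br (nat_lit
 4) (.ch (nat_lit 3) (.ev (nat_lit 1152) (nat_lit 34426847264) (.ev (nat_lit 1165) (nat_lit 4) .dd))) (.ch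
 (nat_lit 4) (.ev (nat_lit 1152) (nat_lit 32) (.ev (nat_lit 1568) (nat_lit 4) (.ev (nat_lit 2564) (nat_lit
 67108864) (.ev (nat_lit 2573) (nat_lit 34359738368) .dd))))))) (.br (nat_lit 12) (.br (nat_lit 8) (.ch
 (nat_lit 6) (.ev (nat_lit 1152) (nat_lit 34426847232) (.ev (nat_lit 1732) (nat_lit 32) (.ev (nat_lit 1741)
 (nat_lit 4) .dd)))) (.ch (nat_lit 8) (.ev (nat_lit 1172) (nat_lit 34359738368) (.ev (nat_lit 2388) (nat_lit
 32) (.ev (nat_lit 2564) (nat_lit 67108864) (.ev (nat_lit 2573) (nat_lit 4) .dd)))))) (.br (nat_lit 15) (.ch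
 (nat_lit 12) (.ev (nat_lit 1152) (nat_lit 67108868) (.ev (nat_lit 2228) (nat_lit 32) (.ev (nat_lit 2237)
 (nat_lit 34359738368) .dd)))) (.ch (nat_lit 15) (.ev (nat_lit 1152) (nat_lit 67108868) (.ev (nat_lit 1668)
 (nat_lit 32) (.ev (nat_lit 1677) (nat_lit 34359738368) .dd)))))))))) (.ch (nat_lit 6) (.ev (nat_lit 544)
 (nat_lit 67108900) (.ev (nat_lit 2576) (nat_lit 34359738368) (.ev (nat_lit 2589) (nat_lit 524288) .dd))))))
 (.br (nat_lit 12) (.br (nat_lit 11) (.ch (nat_lit 7) (.ev (nat_lit 544) (nat_lit 34360262692) (.ev (nat_lit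
 557) (nat_lit 67108864) .dd))) (.ch (nat_lit 11) (.ev (nat_lit 544) (nat_lit 34360262688) (.ev (nat_lit 2704)
 (nat_lit 4) (.ev (nat_lit 2717) (nat_lit 67108864) .dd))))) (.br (nat_lit 13) (.ch (nat_lit 12) (.ev (nat_lit
 544) (nat_lit 34426847268) (.ev (nat_lit 557) (nat_lit 524288) .dd))) (.br (nat_lit 14) (.ch (nat_lit 13) (.ev
 (nat_lit 544) (nat_lit 34426847268) (.ev (nat_lit 557) (nat_lit 524288) .dd))) (.ch (nat_lit 14) (.ev (nat_lit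
 544) (nat_lit 34359738372) (.ev (nat_lit 564) (nat_lit 524288) (.ev (nat_lit 2736) (nat_lit 32) (.ev (nat_lit
 2749) (nat_lit 67108864) .dd)))))))))))) (.br (nat_lit 15) (.ch (nat_lit 13) (.ev (nat_lit 48) (nat_lit
 378057785378) (.nd (nat_lit 528) (.br (nat_lit 8) (.br (nat_lit 5) (.br (nat_lit 4) (.ch (nat_lit 3) (.ev
 (nat_lit 544) (nat_lit 17592320294912) (.nd (nat_lit 1360) (.br (nat_lit 10) (.br (nat_lit 4) (.br (nat_lit 2)
 (.ch (nat_lit 1) (.ev (nat_lit 1376) (nat_lit 65536) (.ev (nat_lit 1556) (nat_lit 4) (.ev (nat_lit 2724)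
 (nat_lit 524288) (.ev (nat_lit 2733) (nat_lit 16384) .dd))))) (.ch (nat_lit 2) (.ev (nat_lit 1376) (nat_lit
 65536) (.ev (nat_lit 1556) (nat_lit 4) (.ev (nat_lit 2372) (nat_lit 524288) (.ev (nat_lit 2381) (nat_lit
 16384) .dd)))))) (.br (nat_lit 9) (.ch (nat_lit 4) (.ev (nat_lit 1376) (nat_lit 524288) (.ev (nat_lit 1396)
 (nat_lit 65536) (.ev (nat_lit 1764) (nat_lit 16384) (.ev (nat_lit 1773) (nat_lit 4) .dd))))) (.ch (nat_lit 9)
 (.ev (nat_lit 1376) (nat_lit 589828) (.ev (nat_lit 1389) (nat_lit 16384) .dd))))) (.br (nat_lit 12) (.br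
 (nat_lit 11) (.ch (nat_lit 10) (.ev (nat_lit 1376) (nat_lit 540676) (.ev (nat_lit 1389) (nat_lit 65536) .dd)))
 (.ch (nat_lit 11) (.ev (nat_lit 1376) (nat_lit 540672) (.ev (nat_lit 1396) (nat_lit 65536) (.ev (nat_lit 1405)
 (nat_lit 4) .dd))))) (.br (nat_lit 14) (.ch (nat_lit 12) (.ev (nat_lit 1376) (nat_lit 4) (.ev (nat_lit 1396)
 (nat_lit 81920) (.ev (nat_lit 1405) (nat_lit 524288) .dd)))) (.ch (nat_lit 14) (.ev (nat_lit 1376) (nat_lit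
 16388) (.nd (nat_lit 3872) (.br (nat_lit 3) (.ch (nat_lit 0) (.ev (nat_lit 3888) (nat_lit 65536) (.ev (nat_lit
 3901) (nat_lit 524288) .dd))) (.ch (nat_lit 3) (.fin (nat_lit 576471197707354660))))))))))))) (.ch (nat_lit 4)
 (.ev (nat_lit 544) (nat_lit 17592186585088) (.ev (nat_lit 2320) (nat_lit 65536) (.ev (nat_lit 2564) (nat_lit
 4) (.ev (nat_lit 2644) (nat_lit 134217728) (.ev (nat_lit 2653) (nat_lit 32768) .dd))))))) (.br (nat_lit 7)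
 (.ch (nat_lit 5) (.ev (nat_lit 544) (nat_lit 17592186667012) (.ev (nat_lit 2644) (nat_lit 134217728) (.ev
 (nat_lit 2653) (nat_lit 16384) .dd)))) (.ch (nat_lit 7) (.ev (nat_lit 544) (nat_lit 17592186159104) (.ev
 (nat_lit 2644) (nat_lit 134217728) (.ev (nat_lit 2724) (nat_lit 524288) (.ev (nat_lit 2733) (nat_lit 4)
 .dd))))))) (.br (nat_lit 10) (.br (nat_lit 9) (.ch (nat_lit 8) (.ev (nat_lit 544) (nat_lit 17592186077188)
 (.ev (nat_lit 2196) (nat_lit 134217728) (.ev (nat_lit 2820) (nat_lit 524288) (.nd (nat_lit 3040) (.br (nat_lit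
 10) (.ch (nat_lit 2) (.ev (nat_lit 3056) (nat_lit 81920) .dd)) (.br (nat_lit 11) (.ch (nat_lit 10) (.ev
 (nat_lit 3056) (nat_lit 65536) (.ev (nat_lit 3069) (nat_lit 16384) .dd))) (.ch (nat_lit 11) (.nd (nat_lit
 4272) (.br (nat_lit 10) (.ch (nat_lit 2) (.ev (nat_lit 4288) (nat_lit 65536) (.ev (nat_lit 4301) (nat_lit
 16384) .dd))) (.ch (nat_lit 10) (.fin (nat_lit 576459103032263251))))))))))))) (.ch (nat_lit 9) (.ev (nat_lit
 544) (nat_lit 573444) (.ev (nat_lit 1732) (nat_lit 134217728) (.ev (nat_lit 2724) (nat_lit 65536) (.ev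
 (nat_lit 2733) (nat_lit 17592186044416) .dd)))))) (.br (nat_lit 11) (.ch (nat_lit 10) (.ev (nat_lit 544)
 (nat_lit 17592320360452) (.ev (nat_lit 2724) (nat_lit 16384) (.ev (nat_lit 2733) (nat_lit 524288) .dd)))) (.br
 (nat_lit 16) (.ch (nat_lit 11) (.ev (nat_lit 544) (nat_lit 134823936) (.nd (nat_lit 1504) (.br (nat_lit 9)
 (.br (nat_lit 5) (.br (nat_lit 1) (.ch (nat_lit 0) (.ev (nat_lit 1520) (nat_lit 32768) (.ev (nat_lit 1712)
 (nat_lit 17592186044420) .dd))) (.ch (nat_lit 1) (.ev (nat_lit 2480) (nat_lit 17592186044416) (.ev (nat_lit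
 2644) (nat_lit 32768) (.ev (nat_lit 2653) (nat_lit 4) .dd))))) (.br (nat_lit 7) (.ch (nat_lit 5) (.ev (nat_lit
 1520) (nat_lit 17592186044420) (.ev (nat_lit 1533) (nat_lit 32768) .dd))) (.ch (nat_lit 7) (.ev (nat_lit 1520)
 (nat_lit 17592186044416) (.ev (nat_lit 1908) (nat_lit 4) (.ev (nat_lit 1917) (nat_lit 32768) .dd)))))) (.br
 (nat_lit 12) (.br (nat_lit 10) (.ch (nat_lit 9) (.ev (nat_lit 1520) (nat_lit 17592186077184) (.ev (nat_lit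
 1533) (nat_lit 4) .dd))) (.ch (nat_lit 10) (.ev (nat_lit 1520) (nat_lit 17592186077184) (.ev (nat_lit 1533)
 (nat_lit 4) .dd)))) (.br (nat_lit 14) (.ch (nat_lit 12) (.ev (nat_lit 1520) (nat_lit 32772) (.ev (nat_lit
 1533) (nat_lit 17592186044416) .dd))) (.br (nat_lit 16) (.ch (nat_lit 14) (.ev (nat_lit 1520) (nat_lit 4) (.ev
 (nat_lit 2036) (nat_lit 32768) (.ev (nat_lit 2045) (nat_lit 17592186044416) .dd)))) (.ch (nat_lit 16) (.ev
 (nat_lit 1520) (nat_lit 4) (.ev (nat_lit 1556) (nat_lit 32768) (.ev (nat_lit 1565) (nat_lit 17592186044416)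
 .dd))))))))))) (.ch (nat_lit 16) (.ev (nat_lit 544) (nat_lit 134250496) (.nd (nat_lit 1504) (.br (nat_lit 6)
 (.br (nat_lit 3) (.br (nat_lit 2) (.ch (nat_lit 0) (.ev (nat_lit 1520) (nat_lit 65536) (.ev (nat_lit 1556)
 (nat_lit 17592186060800) (.ev (nat_lit 1668) (nat_lit 524288) (.ev (nat_lit 1677) (nat_lit 4) .dd))))) (.ch
 (nat_lit 2) (.ev (nat_lit 1520) (nat_lit 524288) (.ev (nat_lit 1556) (nat_lit 16388) (.ev (nat_lit 2564)
 (nat_lit 65536) (.ev (nat_lit 2573) (nat_lit 17592186044416) .dd)))))) (.br (nat_lit 5) (.ch (nat_lit 3) (.ev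
 (nat_lit 1520) (nat_lit 17592186650624) (.ev (nat_lit 1533) (nat_lit 4) .dd))) (.ch (nat_lit 5) (.ev (nat_lit
 1520) (nat_lit 589824) (.ev (nat_lit 1556) (nat_lit 16384) (.ev (nat_lit 1732) (nat_lit 17592186044416) (.ev
 (nat_lit 1741) (nat_lit 4) .dd))))))) (.br (nat_lit 12) (.br (nat_lit 9) (.ch (nat_lit 6) (.ev (nat_lit 1520)
 (nat_lit 17592186585092) (.ev (nat_lit 1533) (nat_lit 65536) .dd))) (.ch (nat_lit 9) (.ev (nat_lit 1520)
 (nat_lit 540676) (.fin (nat_lit 576462401578680898))))) (.br (nat_lit 13) (.ch (nat_lit 12) (.ev (nat_lit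
 1520) (nat_lit 17592186109956) (.ev (nat_lit 1604) (nat_lit 524288) (.ev (nat_lit 1613) (nat_lit 16384)
 .dd)))) (.br (nat_lit 15) (.ch (nat_lit 13) (.ev (nat_lit 1520) (nat_lit 17592186634244) (.ev (nat_lit 1533)
 (nat_lit 16384) .dd))) (.ch (nat_lit 15) (.ev (nat_lit 1520) (nat_lit 17592186650624) (.ev (nat_lit 1533)
 (nat_lit 4) .dd))))))))))))))))) (.ch (nat_lit 15) (.ev (nat_lit 48) (nat_lit 17970378686502) .dd))))))))

/-- Subtrie. -/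
noncomputable def T9 : Tr := (.ev (nat_lit 20) (nat_lit 92636075803178) (.nd (nat_lit 32) (.br (nat_lit 8) (.br
 (nat_lit 4) (.br (nat_lit 3) (.ch (nat_lit 0) (.ev (nat_lit 48) (nat_lit 47513700356) (.nd (nat_lit 192) (.br
 (nat_lit 8) (.br (nat_lit 5) (.br (nat_lit 4) (.ch (nat_lit 2) (.ev (nat_lit 208) (nat_lit 69289902080) (.nd
 (nat_lit 688) (.br (nat_lit 9) (.br (nat_lit 3) (.br (nat_lit 1) (.ch (nat_lit 0) (.ev (nat_lit 704) (nat_lit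
 35184373141504) (.ev (nat_lit 717) (nat_lit 134217728) .dd))) (.ch (nat_lit 1) (.ev (nat_lit 704) (nat_lit
 1052672) (.ev (nat_lit 2144) (nat_lit 134217728) (.ev (nat_lit 2157) (nat_lit 35184372088832) .dd))))) (.br
 (nat_lit 8) (.ch (nat_lit 3) (.ev (nat_lit 704) (nat_lit 35184373137408) (.fin (nat_lit 576440411339833831))))
 (.ch (nat_lit 8) (.ev (nat_lit 704) (nat_lit 35184373137408) (.ev (nat_lit 788) (nat_lit 134217728) (.ev
 (nat_lit 797) (nat_lit 4096) .dd)))))) (.br (nat_lit 12) (.br (nat_lit 10) (.ch (nat_lit 9) (.ev (nat_lit 704)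
 (nat_lit 134221824) (.ev (nat_lit 1428) (nat_lit 1048576) (.ev (nat_lit 1437) (nat_lit 35184372088832) .dd))))
 (.ch (nat_lit 10) (.ev (nat_lit 704) (nat_lit 1052672) (.ev (nat_lit 2836) (nat_lit 35184372088832) (.ev
 (nat_lit 2845) (nat_lit 134217728) .dd))))) (.br (nat_lit 13) (.ch (nat_lit 12) (.ev (nat_lit 704) (nat_lit
 135266304) (.ev (nat_lit 1668) (nat_lit 35184372088832) (.ev (nat_lit 1677) (nat_lit 4096) .dd)))) (.ch
 (nat_lit 13) (.ev (nat_lit 704) (nat_lit 134217728) (.ev (nat_lit 1428) (nat_lit 1048576) (.ev (nat_lit 1604)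
 (nat_lit 35184372088832) (.ev (nat_lit 1613) (nat_lit 4096) .dd))))))))))) (.ch (nat_lit 4) (.ev (nat_lit 208)
 (nat_lit 69391613952) (.ev (nat_lit 388) (nat_lit 33554432) (.nd (nat_lit 752) (.br (nat_lit 9) (.br (nat_lit
 5) (.br (nat_lit 2) (.ch (nat_lit 1) (.ev (nat_lit 768) (nat_lit 4096) (.ev (nat_lit 781) (nat_lit
 35184372088832) .dd))) (.ch (nat_lit 2) (.ev (nat_lit 768) (nat_lit 35184372092928) .dd))) (.br (nat_lit 8)
 (.ch (nat_lit 5) (.ev (nat_lit 768) (nat_lit 35184372092928) .dd)) (.ch (nat_lit 8) (.ev (nat_lit 1012)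
 (nat_lit 35184372088832) (.ev (nat_lit 1021) (nat_lit 4096) .dd))))) (.br (nat_lit 14) (.br (nat_lit 12) (.ch
 (nat_lit 9) (.ev (nat_lit 3796) (nat_lit 4096) (.ev (nat_lit 3805) (nat_lit 35184372088832) .dd))) (.ch
 (nat_lit 12) (.ev (nat_lit 2868) (nat_lit 4096) (.ev (nat_lit 2877) (nat_lit 35184372088832) .dd)))) (.br
 (nat_lit 16) (.ch (nat_lit 14) (.ev (nat_lit 768) (nat_lit 35184372088832) (.ev (nat_lit 781) (nat_lit 4096)
 .dd))) (.ch (nat_lit 16) (.ev (nat_lit 1184) (nat_lit 4096) (.ev (nat_lit 1197) (nat_lit 35184372088832)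
 .dd))))))))))) (.br (nat_lit 7) (.ch (nat_lit 5) (.ev (nat_lit 208) (nat_lit 35184372092928) (.nd (nat_lit
 624) (.br (nat_lit 10) (.br (nat_lit 7) (.br (nat_lit 4) (.ch (nat_lit 0) (.ev (nat_lit 640) (nat_lit
 69257396224) (.ev (nat_lit 1216) (nat_lit 134217728) (.ev (nat_lit 1229) (nat_lit 33554432) .dd)))) (.ch
 (nat_lit 4) (.ev (nat_lit 640) (nat_lit 672137216) (.ev (nat_lit 1764) (nat_lit 68719476736) (.ev (nat_lit
 1773) (nat_lit 33554432) .dd))))) (.br (nat_lit 9) (.ch (nat_lit 7) (.ev (nat_lit 640) (nat_lit 69424119808)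
 (.ev (nat_lit 653) (nat_lit 1048576) .dd))) (.ch (nat_lit 9) (.ev (nat_lit 640) (nat_lit 536870912) (.nd
 (nat_lit 3088) (.br (nat_lit 10) (.br (nat_lit 6) (.ch (nat_lit 1) (.ev (nat_lit 3104) (nat_lit 68853694464)
 (.fin (nat_lit 576490988892537394)))) (.ch (nat_lit 6) (.ev (nat_lit 3104) (nat_lit 68754079744) (.ev (nat_lit
 3117) (nat_lit 134217728) .dd)))) (.br (nat_lit 14) (.ch (nat_lit 10) (.ev (nat_lit 3104) (nat_lit 135266304)
 (.ev (nat_lit 3520) (nat_lit 68753031168) .dd))) (.ch (nat_lit 14) (.ev (nat_lit 3104) (nat_lit 167772160)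
 (.ev (nat_lit 3476) (nat_lit 1048576) (.ev (nat_lit 3485) (nat_lit 68719476736) .dd))))))))))) (.br (nat_lit
 14) (.br (nat_lit 11) (.ch (nat_lit 10) (.ev (nat_lit 660) (nat_lit 135266304) (.ev (nat_lit 1732) (nat_lit
 536870912) (.ev (nat_lit 2804) (nat_lit 33554432) (.ev (nat_lit 2813) (nat_lit 68719476736) .dd))))) (.ch
 (nat_lit 11) (.ev (nat_lit 640) (nat_lit 68753031168) (.ev (nat_lit 1764) (nat_lit 1048576) (.ev (nat_lit
 2564) (nat_lit 536870912) (.ev (nat_lit 2573) (nat_lit 134217728) .dd)))))) (.br (nat_lit 16) (.ch (nat_lit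
 14) (.ev (nat_lit 640) (nat_lit 672137216) (.ev (nat_lit 1604) (nat_lit 33554432) (.ev (nat_lit 1613) (nat_lit
 68719476736) .dd)))) (.ch (nat_lit 16) (.ev (nat_lit 640) (nat_lit 570425344) (.ev (nat_lit 992) (nat_lit
 68719476736) (.ev (nat_lit 1984) (nat_lit 1048576) (.ev (nat_lit 1997) (nat_lit 134217728) .dd))))))))))) (.ch
 (nat_lit 7) (.ev (nat_lit 208) (nat_lit 35253763706880) (.ev (nat_lit 221) (nat_lit 33554432) .dd))))) (.br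
 (nat_lit 10) (.br (nat_lit 9) (.ch (nat_lit 8) (.ev (nat_lit 208) (nat_lit 68753031168) (.nd (nat_lit 752)
 (.br (nat_lit 9) (.br (nat_lit 4) (.ch (nat_lit 1) (.ev (nat_lit 768) (nat_lit 1052672) (.ev (nat_lit 2564)
 (nat_lit 134217728) (.ev (nat_lit 2644) (nat_lit 536870912) (.ev (nat_lit 2653) (nat_lit 35184372088832)
 .dd))))) (.br (nat_lit 5) (.ch (nat_lit 4) (.ev (nat_lit 768) (nat_lit 134217728) (.ev (nat_lit 788) (nat_lit
 4096) (.ev (nat_lit 1668) (nat_lit 35184372088832) (.fin (nat_lit 576464600599839294)))))) (.ch (nat_lit 5)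
 (.ev (nat_lit 768) (nat_lit 35184506310656) (.ev (nat_lit 1604) (nat_lit 536870912) (.ev (nat_lit 1613)
 (nat_lit 1048576) .dd)))))) (.br (nat_lit 11) (.br (nat_lit 10) (.ch (nat_lit 9) (.ev (nat_lit 768) (nat_lit
 537919488) (.ev (nat_lit 788) (nat_lit 134217728) (.ev (nat_lit 1796) (nat_lit 35184372088832) (.ev (nat_lit
 1805) (nat_lit 4096) .dd))))) (.ch (nat_lit 10) (.ev (nat_lit 768) (nat_lit 35184506306560) (.ev (nat_lit
 2512) (nat_lit 1048576) (.ev (nat_lit 2772) (nat_lit 4096) (.ev (nat_lit 2781) (nat_lit 536870912) .dd))))))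
 (.br (nat_lit 13) (.ch (nat_lit 11) (.ev (nat_lit 768) (nat_lit 672141312) (.ev (nat_lit 781) (nat_lit
 35184372088832) .dd))) (.ch (nat_lit 13) (.ev (nat_lit 768) (nat_lit 135270400) (.ev (nat_lit 1428) (nat_lit
 35184372088832) (.ev (nat_lit 1437) (nat_lit 536870912) .dd)))))))))) (.ch (nat_lit 9) (.ev (nat_lit 208)
 (nat_lit 671088640) (.nd (nat_lit 624) (.br (nat_lit 7) (.br (nat_lit 5) (.br (nat_lit 2) (.ch (nat_lit 1)
 (.ev (nat_lit 640) (nat_lit 68719480832) (.ev (nat_lit 2196) (nat_lit 35184372088832) (.ev (nat_lit 3172)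
 (nat_lit 1048576) (.ev (nat_lit 3181) (nat_lit 33554432) .dd))))) (.ch (nat_lit 2) (.ev (nat_lit 640) (nat_lit
 1052672) (.ev (nat_lit 1796) (nat_lit 35184372088832) (.ev (nat_lit 3556) (nat_lit 68719476736) (.ev (nat_lit
 3565) (nat_lit 33554432) .dd)))))) (.br (nat_lit 6) (.ch (nat_lit 5) (.ev (nat_lit 640) (nat_lit
 35253125124096) (.ev (nat_lit 653) (nat_lit 1048576) .dd))) (.ch (nat_lit 6) (.ev (nat_lit 640) (nat_lit
 35184406695936) (.ev (nat_lit 653) (nat_lit 68719476736) .dd))))) (.br (nat_lit 13) (.br (nat_lit 11) (.ch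
 (nat_lit 7) (.ev (nat_lit 640) (nat_lit 35253091569664) (.ev (nat_lit 660) (nat_lit 1048576) (.ev (nat_lit
 669) (nat_lit 33554432) .dd)))) (.ch (nat_lit 11) (.ev (nat_lit 640) (nat_lit 1052672) (.ev (nat_lit 884)
 (nat_lit 68719476736) (.ev (nat_lit 1732) (nat_lit 33554432) (.ev (nat_lit 1741) (nat_lit 35184372088832)
 .dd)))))) (.br (nat_lit 14) (.ch (nat_lit 13) (.ev (nat_lit 640) (nat_lit 33554432) (.ev (nat_lit 1668)
 (nat_lit 4096) (.ev (nat_lit 2772) (nat_lit 35184372088832) (.fin (nat_lit 576481093275304504)))))) (.br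
 (nat_lit 15) (.ch (nat_lit 14) (.ev (nat_lit 640) (nat_lit 35253091569664) (.ev (nat_lit 1044) (nat_lit
 1048576) (.ev (nat_lit 1053) (nat_lit 33554432) .dd)))) (.ch (nat_lit 15) (.ev (nat_lit 640) (nat_lit
 34603008) (.ev (nat_lit 1172) (nat_lit 4096) (.ev (nat_lit 1408) (nat_lit 68719476736) (.ev (nat_lit 1421)
 (nat_lit 35184372088832) .dd))))))))))))) (.br (nat_lit 11) (.ch (nat_lit 10) (.ev (nat_lit 208) (nat_lit
 69257400320) (.ev (nat_lit 260) (nat_lit 134217728) (.ev (nat_lit 2388) (nat_lit 33554432) (.ev (nat_lit 2397)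
 (nat_lit 35184372088832) .dd))))) (.br (nat_lit 16) (.ch (nat_lit 11) (.ev (nat_lit 208) (nat_lit
 35184943566848) (.nd (nat_lit 752) (.br (nat_lit 8) (.br (nat_lit 4) (.br (nat_lit 3) (.ch (nat_lit 2) (.ev
 (nat_lit 768) (nat_lit 68719476736) (.ev (nat_lit 781) (nat_lit 134217728) .dd))) (.ch (nat_lit 3) (.ev
 (nat_lit 788) (nat_lit 68719476736) (.ev (nat_lit 797) (nat_lit 134217728) .dd)))) (.br (nat_lit 6) (.ch
 (nat_lit 4) (.ev (nat_lit 768) (nat_lit 68719476736) (.ev (nat_lit 781) (nat_lit 134217728) .dd))) (.ch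
 (nat_lit 6) (.ev (nat_lit 768) (nat_lit 134217728) (.ev (nat_lit 781) (nat_lit 68719476736) .dd))))) (.br
 (nat_lit 10) (.br (nat_lit 9) (.ch (nat_lit 8) (.ev (nat_lit 2528) (nat_lit 68719476736) (.ev (nat_lit 2541)
 (nat_lit 134217728) .dd))) (.ch (nat_lit 9) (.ev (nat_lit 768) (nat_lit 134217728) (.ev (nat_lit 781) (nat_lit
 68719476736) .dd)))) (.br (nat_lit 14) (.ch (nat_lit 10) (.ev (nat_lit 768) (nat_lit 68853694464) .dd)) (.br
 (nat_lit 16) (.ch (nat_lit 14) (.ev (nat_lit 1460) (nat_lit 134217728) (.ev (nat_lit 1469) (nat_lit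
 68719476736) .dd))) (.ch (nat_lit 16) (.ev (nat_lit 768) (nat_lit 68853694464) .dd))))))))) (.ch (nat_lit 16)
 (.ev (nat_lit 208) (nat_lit 35253259337728) (.nd (nat_lit 1136) (.br (nat_lit 11) (.br (nat_lit 8) (.br
 (nat_lit 3) (.ch (nat_lit 1) (.ev (nat_lit 1152) (nat_lit 1052672) (.ev (nat_lit 1165) (nat_lit 536870912)
 .dd))) (.ch (nat_lit 3) (.ev (nat_lit 1152) (nat_lit 536875008) (.ev (nat_lit 1165) (nat_lit 1048576) .dd))))
 (.br (nat_lit 9) (.ch (nat_lit 8) (.ev (nat_lit 1152) (nat_lit 536870912) (.fin (nat_lit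
 576461302040838724)))) (.ch (nat_lit 9) (.ev (nat_lit 1152) (nat_lit 536875008) (.ev (nat_lit 1165) (nat_lit
 1048576) .dd))))) (.br (nat_lit 15) (.br (nat_lit 13) (.ch (nat_lit 11) (.ev (nat_lit 1152) (nat_lit
 537919488) (.ev (nat_lit 1165) (nat_lit 4096) .dd))) (.ch (nat_lit 13) (.ev (nat_lit 1152) (nat_lit 536875008)
 (.ev (nat_lit 1165) (nat_lit 1048576) .dd)))) (.br (nat_lit 16) (.ch (nat_lit 15) (.ev (nat_lit 1152) (nat_lit
 1048576) (.ev (nat_lit 2064) (nat_lit 536870912) (.ev (nat_lit 2077) (nat_lit 4096) .dd)))) (.ch (nat_lit 16)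
 (.ev (nat_lit 1152) (nat_lit 536875008) (.ev (nat_lit 1165) (nat_lit 1048576) .dd)))))))))))))))) (.ch
 (nat_lit 3) (.ev (nat_lit 48) (nat_lit 35266246023168) (.nd (nat_lit 432) (.br (nat_lit 11) (.br (nat_lit 8)
 (.br (nat_lit 7) (.ch (nat_lit 6) (.ev (nat_lit 448) (nat_lit 671645696) (.nd (nat_lit 1504) (.br (nat_lit 8)
 (.br (nat_lit 3) (.br (nat_lit 2) (.ch (nat_lit 0) (.ev (nat_lit 1520) (nat_lit 34359738372) (.ev (nat_lit
 1533) (nat_lit 33554432) .dd))) (.ch (nat_lit 2) (.ev (nat_lit 1520) (nat_lit 34359738368) (.ev (nat_lit 1556)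
 (nat_lit 4) (.ev (nat_lit 1565) (nat_lit 33554432) .dd))))) (.br (nat_lit 7) (.ch (nat_lit 3) (.ev (nat_lit
 1520) (nat_lit 34359738368) (.ev (nat_lit 1556) (nat_lit 33554432) (.ev (nat_lit 1565) (nat_lit 4) .dd))))
 (.ch (nat_lit 7) (.ev (nat_lit 1520) (nat_lit 33554432) (.ev (nat_lit 1556) (nat_lit 4) (.ev (nat_lit 1565)
 (nat_lit 34359738368) .dd)))))) (.br (nat_lit 10) (.br (nat_lit 9) (.ch (nat_lit 8) (.ev (nat_lit 1520)
 (nat_lit 34393292804) .dd)) (.ch (nat_lit 9) (.ev (nat_lit 1520) (nat_lit 34359738368) (.ev (nat_lit 1556)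
 (nat_lit 33554432) (.ev (nat_lit 1565) (nat_lit 4) .dd))))) (.br (nat_lit 12) (.ch (nat_lit 10) (.ev (nat_lit
 1520) (nat_lit 34393292804) .dd)) (.ch (nat_lit 12) (.ev (nat_lit 1520) (nat_lit 4) (.ev (nat_lit 1668)
 (nat_lit 33554432) (.ev (nat_lit 1677) (nat_lit 34359738368) .dd)))))))))) (.ch (nat_lit 7) (.ev (nat_lit 448)
 (nat_lit 35031384064) (.nd (nat_lit 1504) (.br (nat_lit 7) (.br (nat_lit 4) (.br (nat_lit 2) (.ch (nat_lit 0)
 (.ev (nat_lit 1520) (nat_lit 4) (.ev (nat_lit 1533) (nat_lit 33554432) .dd))) (.ch (nat_lit 2) (.ev (nat_lit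
 1520) (nat_lit 33554436) .dd))) (.br (nat_lit 6) (.ch (nat_lit 4) (.ev (nat_lit 2340) (nat_lit 4) (.ev
 (nat_lit 2349) (nat_lit 33554432) .dd))) (.ch (nat_lit 6) (.ev (nat_lit 1520) (nat_lit 4) (.ev (nat_lit 1533)
 (nat_lit 33554432) .dd))))) (.br (nat_lit 10) (.br (nat_lit 9) (.ch (nat_lit 7) (.ev (nat_lit 1520) (nat_lit
 33554436) .dd)) (.ch (nat_lit 9) (.ev (nat_lit 1520) (nat_lit 4) (.ev (nat_lit 1533) (nat_lit 33554432)
 .dd)))) (.br (nat_lit 13) (.ch (nat_lit 10) (.ev (nat_lit 1520) (nat_lit 33554436) .dd)) (.br (nat_lit 16)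
 (.ch (nat_lit 13) (.ev (nat_lit 1520) (nat_lit 33554436) .dd)) (.ch (nat_lit 16) (.ev (nat_lit 1556) (nat_lit
 4) (.ev (nat_lit 1565) (nat_lit 33554432) .dd))))))))))) (.br (nat_lit 10) (.ch (nat_lit 8) (.ev (nat_lit 448)
 (nat_lit 704675840) (.nd (nat_lit 1360) (.br (nat_lit 8) (.br (nat_lit 6) (.br (nat_lit 5) (.ch (nat_lit 4)
 (.ev (nat_lit 1376) (nat_lit 34360262656) (.ev (nat_lit 1389) (nat_lit 4) .dd))) (.ch (nat_lit 5) (.ev
 (nat_lit 1376) (nat_lit 34359738372) (.ev (nat_lit 1389) (nat_lit 524288) .dd)))) (.br (nat_lit 7) (.ch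
 (nat_lit 6) (.ev (nat_lit 1376) (nat_lit 524288) (.ev (nat_lit 1604) (nat_lit 34359738368) (.ev (nat_lit 1613)
 (nat_lit 4) .dd)))) (.ch (nat_lit 7) (.ev (nat_lit 1376) (nat_lit 34360262660) .dd)))) (.br (nat_lit 11) (.br
 (nat_lit 10) (.ch (nat_lit 8) (.ev (nat_lit 1376) (nat_lit 4) (.ev (nat_lit 1568) (nat_lit 34359738368) (.ev
 (nat_lit 1581) (nat_lit 524288) .dd)))) (.ch (nat_lit 10) (.ev (nat_lit 1396) (nat_lit 524292) (.ev (nat_lit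
 1405) (nat_lit 34359738368) .dd)))) (.br (nat_lit 13) (.ch (nat_lit 11) (.ev (nat_lit 1376) (nat_lit 524292)
 (.ev (nat_lit 1389) (nat_lit 34359738368) .dd))) (.br (nat_lit 16) (.ch (nat_lit 13) (.ev (nat_lit 1376)
 (nat_lit 4) (.ev (nat_lit 1396) (nat_lit 524288) (.ev (nat_lit 1405) (nat_lit 34359738368) .dd)))) (.ch
 (nat_lit 16) (.ev (nat_lit 1376) (nat_lit 34359738372) (.ev (nat_lit 1389) (nat_lit 524288) .dd)))))))))) (.ch
 (nat_lit 10) (.ev (nat_lit 448) (nat_lit 35030827012) (.nd (nat_lit 832) (.br (nat_lit 11) (.br (nat_lit 7)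
 (.ch (nat_lit 0) (.ev (nat_lit 848) (nat_lit 32768) (.ev (nat_lit 1604) (nat_lit 524288) (.ev (nat_lit 1613)
 (nat_lit 33554432) .dd)))) (.br (nat_lit 8) (.ch (nat_lit 7) (.ev (nat_lit 848) (nat_lit 34111488) .dd)) (.ch
 (nat_lit 8) (.ev (nat_lit 848) (nat_lit 557056) (.ev (nat_lit 861) (nat_lit 33554432) .dd))))) (.br (nat_lit
 15) (.ch (nat_lit 11) (.ev (nat_lit 848) (nat_lit 33554432) (.ev (nat_lit 2576) (nat_lit 557056) .dd))) (.br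
 (nat_lit 16) (.ch (nat_lit 15) (.ev (nat_lit 848) (nat_lit 34078720) (.ev (nat_lit 861) (nat_lit 32768) .dd)))
 (.ch (nat_lit 16) (.ev (nat_lit 848) (nat_lit 33587200) (.ev (nat_lit 861) (nat_lit 524288) .dd)))))))))))
 (.br (nat_lit 14) (.br (nat_lit 13) (.ch (nat_lit 11) (.ev (nat_lit 448) (nat_lit 34528034820) (.nd (nat_lit
 2432) (.br (nat_lit 8) (.br (nat_lit 1) (.ch (nat_lit 0) (.ev (nat_lit 2448) (nat_lit 536870912) (.ev (nat_lit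
 2461) (nat_lit 32768) .dd))) (.ch (nat_lit 1) (.ev (nat_lit 2448) (nat_lit 536870912) (.ev (nat_lit 2461)
 (nat_lit 32768) .dd)))) (.br (nat_lit 10) (.ch (nat_lit 8) (.ev (nat_lit 2448) (nat_lit 32768) (.ev (nat_lit
 2461) (nat_lit 536870912) .dd))) (.br (nat_lit 14) (.ch (nat_lit 10) (.ev (nat_lit 2448) (nat_lit 536870912)
 (.ev (nat_lit 2461) (nat_lit 32768) .dd))) (.ch (nat_lit 14) (.ev (nat_lit 2576) (nat_lit 32768) (.ev (nat_lit
 2589) (nat_lit 536870912) .dd))))))))) (.ch (nat_lit 13) (.ev (nat_lit 448) (nat_lit 134742016) (.nd (nat_lit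
 1136) (.br (nat_lit 11) (.br (nat_lit 8) (.br (nat_lit 5) (.ch (nat_lit 0) (.ev (nat_lit 1152) (nat_lit
 570425348) (.ev (nat_lit 2308) (nat_lit 34359738368) (.ev (nat_lit 2317) (nat_lit 32768) .dd)))) (.ch (nat_lit
 5) (.ev (nat_lit 1152) (nat_lit 34359738372) (.ev (nat_lit 1668) (nat_lit 33554432) (.ev (nat_lit 1876)
 (nat_lit 536870912) (.ev (nat_lit 1885) (nat_lit 32768) .dd)))))) (.br (nat_lit 10) (.ch (nat_lit 8) (.ev
 (nat_lit 1152) (nat_lit 34359771136) (.ev (nat_lit 1204) (nat_lit 536870912) (.ev (nat_lit 1796) (nat_lit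
 33554432) (.ev (nat_lit 1805) (nat_lit 4) .dd))))) (.ch (nat_lit 10) (.ev (nat_lit 1152) (nat_lit 34896609280)
 (.ev (nat_lit 1428) (nat_lit 4) (.ev (nat_lit 1732) (nat_lit 33554432) (.ev (nat_lit 1741) (nat_lit 32768)
 .dd))))))) (.br (nat_lit 14) (.br (nat_lit 13) (.ch (nat_lit 11) (.ev (nat_lit 1152) (nat_lit 34393325572)
 (.ev (nat_lit 1165) (nat_lit 536870912) .dd))) (.ch (nat_lit 13) (.ev (nat_lit 1152) (nat_lit 33554436) (.ev
 (nat_lit 1668) (nat_lit 536870912) (.ev (nat_lit 2564) (nat_lit 32768) (.ev (nat_lit 2573) (nat_lit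
 34359738368) .dd)))))) (.br (nat_lit 15) (.ch (nat_lit 14) (.ev (nat_lit 1152) (nat_lit 34896642048) (.ev
 (nat_lit 1428) (nat_lit 4) (.ev (nat_lit 1437) (nat_lit 33554432) .dd)))) (.br (nat_lit 16) (.ch (nat_lit 15)
 (.ev (nat_lit 1152) (nat_lit 34896609280) (.ev (nat_lit 1616) (nat_lit 4) (.ev (nat_lit 1680) (nat_lit
 33554432) (.ev (nat_lit 1693) (nat_lit 32768) .dd))))) (.ch (nat_lit 16) (.ev (nat_lit 1152) (nat_lit
 34393325568) (.ev (nat_lit 1172) (nat_lit 536870912) (.ev (nat_lit 1181) (nat_lit 4) .dd)))))))))))) (.br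
 (nat_lit 15) (.ch (nat_lit 14) (.ev (nat_lit 448) (nat_lit 34897133568) (.nd (nat_lit 1136) (.br (nat_lit 8)
 (.br (nat_lit 4) (.br (nat_lit 1) (.ch (nat_lit 0) (.ev (nat_lit 1152) (nat_lit 167772160) (.ev (nat_lit 2132)
 (nat_lit 4) (.ev (nat_lit 2141) (nat_lit 32768) .dd)))) (.ch (nat_lit 1) (.ev (nat_lit 1152) (nat_lit 32772)
 (.ev (nat_lit 1824) (nat_lit 134217728) (.ev (nat_lit 1837) (nat_lit 33554432) .dd))))) (.br (nat_lit 7) (.ch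
 (nat_lit 4) (.ev (nat_lit 1152) (nat_lit 134217732) (.ev (nat_lit 1172) (nat_lit 33554432) (.ev (nat_lit 1181)
 (nat_lit 32768) .dd)))) (.ch (nat_lit 7) (.ev (nat_lit 1152) (nat_lit 33587200) (.ev (nat_lit 2132) (nat_lit
 4) (.ev (nat_lit 2141) (nat_lit 134217728) .dd)))))) (.br (nat_lit 11) (.br (nat_lit 10) (.ch (nat_lit 8) (.ev
 (nat_lit 1152) (nat_lit 167772164) (.ev (nat_lit 1165) (nat_lit 32768) .dd))) (.ch (nat_lit 10) (.ev (nat_lit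
 1152) (nat_lit 32768) (.ev (nat_lit 1184) (nat_lit 134217728) (.ev (nat_lit 2132) (nat_lit 4) (.ev (nat_lit
 2141) (nat_lit 33554432) .dd)))))) (.br (nat_lit 13) (.ch (nat_lit 11) (.ev (nat_lit 1152) (nat_lit 134217732)
 (.ev (nat_lit 1172) (nat_lit 33554432) (.ev (nat_lit 1181) (nat_lit 32768) .dd)))) (.br (nat_lit 15) (.ch
 (nat_lit 13) (.ev (nat_lit 1152) (nat_lit 134250496) (.ev (nat_lit 1940) (nat_lit 33554432) (.ev (nat_lit
 1949) (nat_lit 4) .dd)))) (.ch (nat_lit 15) (.ev (nat_lit 1152) (nat_lit 167772160) (.ev (nat_lit 2132)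
 (nat_lit 4) (.ev (nat_lit 2141) (nat_lit 32768) .dd))))))))))) (.ch (nat_lit 15) (.ev (nat_lit 448) (nat_lit
 34930688004) (.ev (nat_lit 1668) (nat_lit 134217728) (.ev (nat_lit 1677) (nat_lit 32768) .dd))))))))))) (.br
 (nat_lit 6) (.ch (nat_lit 4) (.ev (nat_lit 48) (nat_lit 47816153092) (.nd (nat_lit 224) (.br (nat_lit 9) (.br
 (nat_lit 7) (.br (nat_lit 4) (.ch (nat_lit 2) (.ev (nat_lit 240) (nat_lit 69122195456) (.nd (nat_lit 2432)
 (.br (nat_lit 8) (.br (nat_lit 3) (.ch (nat_lit 1) (.ev (nat_lit 2448) (nat_lit 35184372088832) (.ev (nat_lit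
 2461) (nat_lit 524288) .dd))) (.br (nat_lit 5) (.ch (nat_lit 3) (.ev (nat_lit 2564) (nat_lit 524288) (.ev
 (nat_lit 2573) (nat_lit 35184372088832) .dd))) (.ch (nat_lit 5) (.ev (nat_lit 2448) (nat_lit 524288) (.ev
 (nat_lit 2461) (nat_lit 35184372088832) .dd))))) (.br (nat_lit 12) (.ch (nat_lit 8) (.ev (nat_lit 2448)
 (nat_lit 35184372613120) .dd)) (.br (nat_lit 15) (.ch (nat_lit 12) (.ev (nat_lit 2448) (nat_lit
 35184372613120) .dd)) (.ch (nat_lit 15) (.ev (nat_lit 2448) (nat_lit 524288) (.ev (nat_lit 2461) (nat_lit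
 35184372088832) .dd))))))))) (.ch (nat_lit 4) (.ev (nat_lit 240) (nat_lit 35184506830848) (.nd (nat_lit 624)
 (.br (nat_lit 10) (.br (nat_lit 6) (.br (nat_lit 2) (.ch (nat_lit 1) (.ev (nat_lit 640) (nat_lit 65536) (.ev
 (nat_lit 1236) (nat_lit 268435456) (.ev (nat_lit 1245) (nat_lit 68719476736) .dd)))) (.ch (nat_lit 2) (.ev
 (nat_lit 1184) (nat_lit 268435456) (.ev (nat_lit 1236) (nat_lit 65536) (.ev (nat_lit 1245) (nat_lit
 68719476736) .dd))))) (.br (nat_lit 7) (.ch (nat_lit 6) (.ev (nat_lit 640) (nat_lit 68719542272) (.ev (nat_lit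
 653) (nat_lit 268435456) .dd))) (.ch (nat_lit 7) (.ev (nat_lit 640) (nat_lit 68987912192) (.ev (nat_lit 653)
 (nat_lit 65536) .dd))))) (.br (nat_lit 15) (.br (nat_lit 13) (.ch (nat_lit 10) (.ev (nat_lit 2004) (nat_lit
 65536) (.ev (nat_lit 3572) (nat_lit 268435456) (.ev (nat_lit 3581) (nat_lit 68719476736) .dd)))) (.ch (nat_lit
 13) (.ev (nat_lit 640) (nat_lit 68987977728) .dd))) (.br (nat_lit 16) (.ch (nat_lit 15) (.ev (nat_lit 640)
 (nat_lit 268435456) (.ev (nat_lit 3764) (nat_lit 68719476736) (.ev (nat_lit 3773) (nat_lit 65536) .dd)))) (.ch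
 (nat_lit 16) (.ev (nat_lit 2624) (nat_lit 65536) (.ev (nat_lit 2644) (nat_lit 68719476736) (.ev (nat_lit 2653)
 (nat_lit 268435456) .dd))))))))))) (.br (nat_lit 8) (.ch (nat_lit 7) (.ev (nat_lit 240) (nat_lit 68988436480)
 (.nd (nat_lit 1136) (.br (nat_lit 8) (.br (nat_lit 5) (.br (nat_lit 3) (.ch (nat_lit 0) (.ev (nat_lit 1152)
 (nat_lit 134283264) (.ev (nat_lit 1165) (nat_lit 35184372088832) .dd))) (.ch (nat_lit 3) (.ev (nat_lit 1152)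
 (nat_lit 35184506372096) .dd))) (.br (nat_lit 7) (.ch (nat_lit 5) (.ev (nat_lit 1152) (nat_lit 134283264) (.ev
 (nat_lit 1165) (nat_lit 35184372088832) .dd))) (.ch (nat_lit 7) (.ev (nat_lit 1152) (nat_lit 35184506306560)
 (.ev (nat_lit 1165) (nat_lit 65536) .dd))))) (.br (nat_lit 12) (.br (nat_lit 10) (.ch (nat_lit 8) (.ev
 (nat_lit 1152) (nat_lit 35184506306560) (.ev (nat_lit 1165) (nat_lit 65536) .dd))) (.ch (nat_lit 10) (.ev
 (nat_lit 1876) (nat_lit 134217728) (.ev (nat_lit 2480) (nat_lit 35184372088832) (.ev (nat_lit 2493) (nat_lit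
 65536) .dd))))) (.br (nat_lit 13) (.ch (nat_lit 12) (.ev (nat_lit 1152) (nat_lit 65536) (.ev (nat_lit 1172)
 (nat_lit 134217728) (.ev (nat_lit 1181) (nat_lit 35184372088832) .dd)))) (.br (nat_lit 16) (.ch (nat_lit 13)
 (.ev (nat_lit 1152) (nat_lit 35184372088832) (.ev (nat_lit 1428) (nat_lit 134217728) (.ev (nat_lit 1437)
 (nat_lit 65536) .dd)))) (.ch (nat_lit 16) (.ev (nat_lit 1152) (nat_lit 134217728) (.ev (nat_lit 1172) (nat_lit
 65536) (.ev (nat_lit 1181) (nat_lit 35184372088832) .dd))))))))))) (.ch (nat_lit 8) (.ev (nat_lit 240)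
 (nat_lit 35184506896384) (.nd (nat_lit 752) (.br (nat_lit 7) (.br (nat_lit 5) (.br (nat_lit 2) (.ch (nat_lit
 1) (.ev (nat_lit 2804) (nat_lit 268435456) (.ev (nat_lit 2813) (nat_lit 68719476736) .dd))) (.ch (nat_lit 2)
 (.ev (nat_lit 768) (nat_lit 68719476736) (.ev (nat_lit 781) (nat_lit 268435456) .dd)))) (.br (nat_lit 6) (.ch
 (nat_lit 5) (.ev (nat_lit 768) (nat_lit 268435456) (.ev (nat_lit 781) (nat_lit 68719476736) .dd))) (.ch
 (nat_lit 6) (.ev (nat_lit 768) (nat_lit 268435456) (.ev (nat_lit 781) (nat_lit 68719476736) .dd))))) (.br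
 (nat_lit 9) (.br (nat_lit 8) (.ch (nat_lit 7) (.ev (nat_lit 768) (nat_lit 268435456) (.ev (nat_lit 781)
 (nat_lit 68719476736) .dd))) (.ch (nat_lit 8) (.ev (nat_lit 768) (nat_lit 68987912192) .dd))) (.br (nat_lit
 16) (.ch (nat_lit 9) (.ev (nat_lit 768) (nat_lit 68719476736) (.ev (nat_lit 781) (nat_lit 268435456) .dd)))
 (.ch (nat_lit 16) (.nd (nat_lit 3248) (.br (nat_lit 11) (.ch (nat_lit 8) (.fin (nat_lit 576440411329348176)))
 (.ch (nat_lit 11) (.ev (nat_lit 3264) (nat_lit 268435456) (.ev (nat_lit 3277) (nat_lit 68719476736)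
 .dd)))))))))))))) (.br (nat_lit 13) (.br (nat_lit 11) (.ch (nat_lit 9) (.ev (nat_lit 240) (nat_lit
 35184775331840) (.ev (nat_lit 253) (nat_lit 68719476736) .dd))) (.ch (nat_lit 11) (.ev (nat_lit 240) (nat_lit
 134742016) (.nd (nat_lit 752) (.br (nat_lit 9) (.br (nat_lit 3) (.br (nat_lit 1) (.ch (nat_lit 0) (.ev
 (nat_lit 768) (nat_lit 268435456) (.ev (nat_lit 2096) (nat_lit 65536) (.ev (nat_lit 2196) (nat_lit
 68719476736) (.ev (nat_lit 2205) (nat_lit 35184372088832) .dd))))) (.ch (nat_lit 1) (.ev (nat_lit 768)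
 (nat_lit 268435456) (.ev (nat_lit 3028) (nat_lit 35184372088832) (.nd (nat_lit 4112) (.br (nat_lit 8) (.ch
 (nat_lit 5) (.fin (nat_lit 576398629845549618))) (.ch (nat_lit 8) (.ev (nat_lit 4128) (nat_lit 68719542272)
 .dd)))))))) (.br (nat_lit 8) (.ch (nat_lit 3) (.ev (nat_lit 768) (nat_lit 35184640589824) (.ev (nat_lit 781)
 (nat_lit 68719476736) .dd))) (.ch (nat_lit 8) (.ev (nat_lit 768) (nat_lit 35253360001024) (.ev (nat_lit 781)
 (nat_lit 65536) .dd))))) (.br (nat_lit 11) (.br (nat_lit 10) (.ch (nat_lit 9) (.ev (nat_lit 768) (nat_lit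
 65536) (.ev (nat_lit 1408) (nat_lit 35184372088832) (.ev (nat_lit 1604) (nat_lit 268435456) (.ev (nat_lit
 1613) (nat_lit 68719476736) .dd))))) (.ch (nat_lit 10) (.ev (nat_lit 768) (nat_lit 68987977728) (.ev (nat_lit
 781) (nat_lit 35184372088832) .dd)))) (.br (nat_lit 12) (.ch (nat_lit 11) (.ev (nat_lit 768) (nat_lit
 35253360066560) .dd)) (.br (nat_lit 13) (.ch (nat_lit 12) (.ev (nat_lit 768) (nat_lit 35253360001024) (.ev
 (nat_lit 781) (nat_lit 65536) .dd))) (.ch (nat_lit 13) (.ev (nat_lit 788) (nat_lit 68719476736) (.ev (nat_lit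
 2340) (nat_lit 268435456) (.ev (nat_lit 2852) (nat_lit 65536) (.ev (nat_lit 2861) (nat_lit 35184372088832)
 .dd))))))))))))) (.br (nat_lit 14) (.ch (nat_lit 13) (.ev (nat_lit 240) (nat_lit 35184372154368) (.nd (nat_lit
 752) (.br (nat_lit 7) (.br (nat_lit 3) (.ch (nat_lit 2) (.ev (nat_lit 768) (nat_lit 68987912192) (.ev (nat_lit
 980) (nat_lit 134217728) (.ev (nat_lit 989) (nat_lit 524288) .dd)))) (.br (nat_lit 4) (.ch (nat_lit 3) (.ev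
 (nat_lit 768) (nat_lit 268435456) (.ev (nat_lit 788) (nat_lit 68719476736) (.ev (nat_lit 1604) (nat_lit
 134217728) (.ev (nat_lit 1613) (nat_lit 524288) .dd))))) (.ch (nat_lit 4) (.ev (nat_lit 768) (nat_lit
 134217728) (.ev (nat_lit 1668) (nat_lit 68720001024) (.ev (nat_lit 1677) (nat_lit 268435456) .dd)))))) (.br
 (nat_lit 10) (.br (nat_lit 9) (.ch (nat_lit 7) (.ev (nat_lit 768) (nat_lit 268959744) (.ev (nat_lit 1284)
 (nat_lit 68719476736) (.ev (nat_lit 1293) (nat_lit 134217728) .dd)))) (.ch (nat_lit 9) (.ev (nat_lit 768)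
 (nat_lit 68853694464) (.fin (nat_lit 576441510846218807))))) (.br (nat_lit 11) (.ch (nat_lit 10) (.ev (nat_lit
 768) (nat_lit 268435456) (.ev (nat_lit 788) (nat_lit 68719476736) (.ev (nat_lit 2736) (nat_lit 134217728) (.ev
 (nat_lit 2749) (nat_lit 524288) .dd))))) (.ch (nat_lit 11) (.ev (nat_lit 768) (nat_lit 524288) (.ev (nat_lit
 1568) (nat_lit 134217728) (.ev (nat_lit 1876) (nat_lit 68719476736) (.ev (nat_lit 1885) (nat_lit 268435456)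
 .dd))))))))))) (.br (nat_lit 15) (.ch (nat_lit 14) (.ev (nat_lit 240) (nat_lit 35253225783296) (.nd (nat_lit
 752) (.br (nat_lit 11) (.br (nat_lit 4) (.br (nat_lit 2) (.ch (nat_lit 1) (.ev (nat_lit 768) (nat_lit 589824)
 (.ev (nat_lit 781) (nat_lit 268435456) .dd))) (.ch (nat_lit 2) (.ev (nat_lit 768) (nat_lit 269025280) .dd)))
 (.br (nat_lit 8) (.ch (nat_lit 4) (.ev (nat_lit 1908) (nat_lit 524288) (.ev (nat_lit 2544) (nat_lit 268435456)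
 (.ev (nat_lit 2557) (nat_lit 65536) .dd)))) (.ch (nat_lit 8) (.ev (nat_lit 768) (nat_lit 268959744) (.ev
 (nat_lit 781) (nat_lit 65536) .dd))))) (.br (nat_lit 15) (.br (nat_lit 12) (.ch (nat_lit 11) (.ev (nat_lit
 768) (nat_lit 269025280) .dd)) (.ch (nat_lit 12) (.ev (nat_lit 768) (nat_lit 589824) (.ev (nat_lit 781)
 (nat_lit 268435456) .dd)))) (.br (nat_lit 16) (.ch (nat_lit 15) (.ev (nat_lit 768) (nat_lit 268500992) (.ev
 (nat_lit 781) (nat_lit 524288) .dd))) (.ch (nat_lit 16) (.ev (nat_lit 768) (nat_lit 269025280) .dd))))))))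
 (.ch (nat_lit 15) (.ev (nat_lit 240) (nat_lit 35253494743040) (.ev (nat_lit 253) (nat_lit 65536) .dd))))))))))
 (.ch (nat_lit 6) (.ev (nat_lit 48) (nat_lit 35065987076) (.nd (nat_lit 432) (.br (nat_lit 10) (.br (nat_lit 5)
 (.br (nat_lit 2) (.ch (nat_lit 0) (.ev (nat_lit 448) (nat_lit 35188667062272) (.nd (nat_lit 944) (.br (nat_lit
 10) (.br (nat_lit 7) (.br (nat_lit 4) (.ch (nat_lit 0) (.ev (nat_lit 960) (nat_lit 77309411328) (.ev (nat_lit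
 1908) (nat_lit 65536) (.ev (nat_lit 1917) (nat_lit 268435456) .dd)))) (.ch (nat_lit 4) (.ev (nat_lit 960)
 (nat_lit 77577846784) (.ev (nat_lit 973) (nat_lit 65536) .dd)))) (.br (nat_lit 8) (.ch (nat_lit 7) (.ev
 (nat_lit 960) (nat_lit 77309476864) (.ev (nat_lit 973) (nat_lit 268435456) .dd))) (.ch (nat_lit 8) (.ev
 (nat_lit 960) (nat_lit 68719476736) (.ev (nat_lit 2196) (nat_lit 268435456) (.ev (nat_lit 2772) (nat_lit
 65536) (.ev (nat_lit 2781) (nat_lit 8589934592) .dd))))))) (.br (nat_lit 13) (.br (nat_lit 11) (.ch (nat_lit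
 10) (.ev (nat_lit 960) (nat_lit 68987977728) (.ev (nat_lit 973) (nat_lit 8589934592) .dd))) (.ch (nat_lit 11)
 (.ev (nat_lit 960) (nat_lit 77309476864) (.ev (nat_lit 973) (nat_lit 268435456) .dd)))) (.br (nat_lit 15) (.ch
 (nat_lit 13) (.ev (nat_lit 960) (nat_lit 268435456) (.ev (nat_lit 1172) (nat_lit 8589934592) (.ev (nat_lit
 1556) (nat_lit 68719476736) (.ev (nat_lit 1565) (nat_lit 65536) .dd))))) (.ch (nat_lit 15) (.ev (nat_lit 1316)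
 (nat_lit 65536) (.ev (nat_lit 1876) (nat_lit 268435456) (.ev (nat_lit 2004) (nat_lit 8589934592) (.ev (nat_lit
 2013) (nat_lit 68719476736) .dd))))))))))) (.ch (nat_lit 2) (.ev (nat_lit 448) (nat_lit 35253360068608) (.nd
 (nat_lit 1136) (.br (nat_lit 9) (.br (nat_lit 4) (.ch (nat_lit 0) (.ev (nat_lit 1152) (nat_lit 12884901888)
 (.ev (nat_lit 1165) (nat_lit 4096) .dd))) (.br (nat_lit 7) (.ch (nat_lit 4) (.ev (nat_lit 1152) (nat_lit
 4294971392) (.ev (nat_lit 1165) (nat_lit 8589934592) .dd))) (.ch (nat_lit 7) (.ev (nat_lit 1152) (nat_lit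
 8589938688) (.ev (nat_lit 1165) (nat_lit 4294967296) .dd))))) (.br (nat_lit 10) (.ch (nat_lit 9) (.ev (nat_lit
 1152) (nat_lit 4096) (.ev (nat_lit 2752) (nat_lit 12884901888) .dd))) (.br (nat_lit 14) (.ch (nat_lit 10) (.ev
 (nat_lit 1152) (nat_lit 8589934592) (.ev (nat_lit 1236) (nat_lit 4294967296) (.ev (nat_lit 1245) (nat_lit
 4096) .dd)))) (.ch (nat_lit 14) (.ev (nat_lit 1152) (nat_lit 12884905984) .dd))))))))) (.br (nat_lit 7) (.ch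
 (nat_lit 5) (.ev (nat_lit 448) (nat_lit 35257386602496) (.nd (nat_lit 944) (.br (nat_lit 8) (.br (nat_lit 3)
 (.ch (nat_lit 2) (.ev (nat_lit 960) (nat_lit 8589934592) (.ev (nat_lit 980) (nat_lit 268435456) (.ev (nat_lit
 989) (nat_lit 2048) .dd)))) (.br (nat_lit 5) (.ch (nat_lit 3) (.ev (nat_lit 960) (nat_lit 268435456) (.ev
 (nat_lit 2576) (nat_lit 8589936640) .dd))) (.ch (nat_lit 5) (.ev (nat_lit 960) (nat_lit 8858370048) (.ev
 (nat_lit 973) (nat_lit 2048) .dd))))) (.br (nat_lit 12) (.ch (nat_lit 8) (.ev (nat_lit 960) (nat_lit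
 268437504) (.ev (nat_lit 973) (nat_lit 8589934592) .dd))) (.br (nat_lit 15) (.ch (nat_lit 12) (.ev (nat_lit
 960) (nat_lit 2048) (.ev (nat_lit 1668) (nat_lit 268435456) (.ev (nat_lit 1677) (nat_lit 8589934592) .dd))))
 (.ch (nat_lit 15) (.ev (nat_lit 960) (nat_lit 268437504) (.ev (nat_lit 973) (nat_lit 8589934592) .dd)))))))))
 (.ch (nat_lit 7) (.ev (nat_lit 448) (nat_lit 81872881664) (.nd (nat_lit 1504) (.br (nat_lit 6) (.br (nat_lit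
 3) (.br (nat_lit 2) (.ch (nat_lit 0) (.ev (nat_lit 1520) (nat_lit 4096) (.ev (nat_lit 1533) (nat_lit
 35184372088832) .dd))) (.ch (nat_lit 2) (.ev (nat_lit 1520) (nat_lit 35184372088832) (.ev (nat_lit 1533)
 (nat_lit 4096) .dd)))) (.br (nat_lit 5) (.ch (nat_lit 3) (.ev (nat_lit 1520) (nat_lit 35184372092928) .dd))
 (.ch (nat_lit 5) (.ev (nat_lit 1520) (nat_lit 35184372088832) (.ev (nat_lit 1533) (nat_lit 4096) .dd))))) (.br
 (nat_lit 13) (.br (nat_lit 9) (.ch (nat_lit 6) (.ev (nat_lit 1520) (nat_lit 35184372088832) (.ev (nat_lit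
 1533) (nat_lit 4096) .dd))) (.ch (nat_lit 9) (.ev (nat_lit 1520) (nat_lit 35184372092928) .dd))) (.br (nat_lit
 15) (.ch (nat_lit 13) (.ev (nat_lit 1520) (nat_lit 35184372088832) (.ev (nat_lit 1533) (nat_lit 4096) .dd)))
 (.ch (nat_lit 15) (.ev (nat_lit 2096) (nat_lit 35184372092928) .dd)))))))))) (.br (nat_lit 13) (.br (nat_lit
 11) (.ch (nat_lit 10) (.ev (nat_lit 448) (nat_lit 35265976535040) (.nd (nat_lit 1360) (.br (nat_lit 6) (.br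
 (nat_lit 4) (.br (nat_lit 1) (.ch (nat_lit 0) (.ev (nat_lit 1376) (nat_lit 268435456) (.ev (nat_lit 1389)
 (nat_lit 4096) .dd))) (.ch (nat_lit 1) (.ev (nat_lit 1604) (nat_lit 268435456) (.ev (nat_lit 1613) (nat_lit
 4096) .dd)))) (.br (nat_lit 5) (.ch (nat_lit 4) (.ev (nat_lit 1376) (nat_lit 4096) (.ev (nat_lit 1389)
 (nat_lit 268435456) .dd))) (.ch (nat_lit 5) (.ev (nat_lit 1376) (nat_lit 4096) (.ev (nat_lit 1389) (nat_lit
 268435456) .dd))))) (.br (nat_lit 12) (.br (nat_lit 10) (.ch (nat_lit 6) (.ev (nat_lit 1376) (nat_lit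
 268439552) .dd)) (.ch (nat_lit 10) (.ev (nat_lit 1376) (nat_lit 268435456) (.ev (nat_lit 1389) (nat_lit 4096)
 .dd)))) (.br (nat_lit 13) (.ch (nat_lit 12) (.ev (nat_lit 1556) (nat_lit 268435456) (.ev (nat_lit 1565)
 (nat_lit 4096) .dd))) (.br (nat_lit 14) (.ch (nat_lit 13) (.ev (nat_lit 1376) (nat_lit 268439552) .dd)) (.ch
 (nat_lit 14) (.ev (nat_lit 1632) (nat_lit 4096) (.ev (nat_lit 1645) (nat_lit 268435456) .dd)))))))))) (.ch
 (nat_lit 11) (.ev (nat_lit 448) (nat_lit 4563468288) (.nd (nat_lit 752) (.br (nat_lit 5) (.br (nat_lit 3) (.br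
 (nat_lit 2) (.ch (nat_lit 0) (.ev (nat_lit 768) (nat_lit 35184372090880) (.ev (nat_lit 1236) (nat_lit
 68719476736) (.ev (nat_lit 1680) (nat_lit 4096) (.ev (nat_lit 1693) (nat_lit 8589934592) .dd))))) (.ch
 (nat_lit 2) (.ev (nat_lit 768) (nat_lit 35184372090880) (.ev (nat_lit 1668) (nat_lit 8589934592) (.fin
 (nat_lit 576438212295606880)))))) (.br (nat_lit 4) (.ch (nat_lit 3) (.ev (nat_lit 768) (nat_lit
 35261681504256) (.ev (nat_lit 781) (nat_lit 2048) .dd))) (.ch (nat_lit 4) (.ev (nat_lit 768) (nat_lit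
 35253091565568) (.ev (nat_lit 868) (nat_lit 4096) (.ev (nat_lit 2576) (nat_lit 8589936640) .dd)))))) (.br
 (nat_lit 11) (.br (nat_lit 6) (.ch (nat_lit 5) (.ev (nat_lit 768) (nat_lit 35192962027520) (.ev (nat_lit 788)
 (nat_lit 68719476736) (.ev (nat_lit 797) (nat_lit 2048) .dd)))) (.ch (nat_lit 6) (.ev (nat_lit 768) (nat_lit
 68719482880) (.ev (nat_lit 1668) (nat_lit 8589934592) (.ev (nat_lit 1677) (nat_lit 35184372088832) .dd)))))
 (.br (nat_lit 13) (.ch (nat_lit 11) (.ev (nat_lit 768) (nat_lit 4096) (.ev (nat_lit 1568) (nat_lit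
 68719476736) (.ev (nat_lit 2564) (nat_lit 8589934592) (.ev (nat_lit 2644) (nat_lit 2048) (.ev (nat_lit 2653)
 (nat_lit 35184372088832) .dd)))))) (.br (nat_lit 14) (.ch (nat_lit 13) (.ev (nat_lit 768) (nat_lit
 35192962023424) (.ev (nat_lit 868) (nat_lit 4096) (.ev (nat_lit 916) (nat_lit 68719476736) (.ev (nat_lit 925)
 (nat_lit 2048) .dd))))) (.ch (nat_lit 14) (.ev (nat_lit 768) (nat_lit 35261681502208) (.ev (nat_lit 781)
 (nat_lit 4096) .dd))))))))))) (.br (nat_lit 14) (.ch (nat_lit 13) (.ev (nat_lit 448) (nat_lit 8590006272) (.nd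
 (nat_lit 944) (.br (nat_lit 9) (.br (nat_lit 7) (.br (nat_lit 2) (.ch (nat_lit 0) (.ev (nat_lit 960) (nat_lit
 68719476736) (.ev (nat_lit 1556) (nat_lit 268435456) (.ev (nat_lit 2196) (nat_lit 4294967296) (.ev (nat_lit
 2205) (nat_lit 35184372088832) .dd))))) (.ch (nat_lit 2) (.ev (nat_lit 960) (nat_lit 268435456) (.ev (nat_lit
 1876) (nat_lit 35184372088832) (.ev (nat_lit 2260) (nat_lit 68719476736) (.ev (nat_lit 2269) (nat_lit
 4294967296) .dd)))))) (.br (nat_lit 8) (.ch (nat_lit 7) (.ev (nat_lit 960) (nat_lit 35188935491584) (.ev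
 (nat_lit 973) (nat_lit 68719476736) .dd))) (.ch (nat_lit 8) (.ev (nat_lit 960) (nat_lit 68987912192) (.ev
 (nat_lit 1668) (nat_lit 4294967296) (.ev (nat_lit 1677) (nat_lit 35184372088832) .dd)))))) (.br (nat_lit 11)
 (.br (nat_lit 10) (.ch (nat_lit 9) (.ev (nat_lit 960) (nat_lit 35253091565568) (.ev (nat_lit 1556) (nat_lit
 268435456) (.ev (nat_lit 1565) (nat_lit 4294967296) .dd)))) (.ch (nat_lit 10) (.ev (nat_lit 960) (nat_lit
 35253360001024) (.ev (nat_lit 973) (nat_lit 4294967296) .dd)))) (.br (nat_lit 13) (.ch (nat_lit 11) (.ev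
 (nat_lit 960) (nat_lit 73014444032) (.ev (nat_lit 2372) (nat_lit 268435456) (.ev (nat_lit 2381) (nat_lit
 35184372088832) .dd)))) (.br (nat_lit 16) (.ch (nat_lit 13) (.ev (nat_lit 960) (nat_lit 73014444032) (.ev
 (nat_lit 1604) (nat_lit 268435456) (.ev (nat_lit 1613) (nat_lit 35184372088832) .dd)))) (.ch (nat_lit 16) (.ev
 (nat_lit 960) (nat_lit 35257386532864) (.ev (nat_lit 973) (nat_lit 268435456) .dd)))))))))) (.ch (nat_lit 14)
 (.ev (nat_lit 448) (nat_lit 35257386534912) (.nd (nat_lit 944) (.br (nat_lit 9) (.br (nat_lit 3) (.br (nat_lit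
 2) (.ch (nat_lit 1) (.ev (nat_lit 960) (nat_lit 8589934592) (.ev (nat_lit 1632) (nat_lit 268435456) (.ev
 (nat_lit 1824) (nat_lit 65536) (.ev (nat_lit 1837) (nat_lit 4096) .dd))))) (.ch (nat_lit 2) (.ev (nat_lit 960)
 (nat_lit 8858374144) (.ev (nat_lit 973) (nat_lit 65536) .dd)))) (.br (nat_lit 5) (.ch (nat_lit 3) (.ev
 (nat_lit 960) (nat_lit 8590000128) (.ev (nat_lit 1668) (nat_lit 4096) (.ev (nat_lit 1677) (nat_lit 268435456)
 .dd)))) (.ch (nat_lit 5) (.ev (nat_lit 960) (nat_lit 69632) (.ev (nat_lit 1604) (nat_lit 8589934592) (.ev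
 (nat_lit 1613) (nat_lit 268435456) .dd)))))) (.br (nat_lit 11) (.br (nat_lit 10) (.ch (nat_lit 9) (.ev
 (nat_lit 960) (nat_lit 268505088) (.ev (nat_lit 973) (nat_lit 8589934592) .dd))) (.ch (nat_lit 10) (.ev
 (nat_lit 960) (nat_lit 268500992) (.ev (nat_lit 1604) (nat_lit 4096) (.ev (nat_lit 1613) (nat_lit 8589934592)
 .dd))))) (.br (nat_lit 14) (.ch (nat_lit 11) (.ev (nat_lit 960) (nat_lit 8858370048) (.ev (nat_lit 1408)
 (nat_lit 65536) (.ev (nat_lit 1421) (nat_lit 4096) .dd)))) (.br (nat_lit 15) (.ch (nat_lit 14) (.ev (nat_lit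
 960) (nat_lit 65536) (.ev (nat_lit 1604) (nat_lit 4096) (.ev (nat_lit 1764) (nat_lit 8589934592) (.ev (nat_lit
 1773) (nat_lit 268435456) .dd))))) (.ch (nat_lit 15) (.ev (nat_lit 960) (nat_lit 69632) (.ev (nat_lit 1460)
 (nat_lit 268435456) (.ev (nat_lit 1469) (nat_lit 8589934592) .dd))))))))))))))))))) (.br (nat_lit 11) (.br
 (nat_lit 10) (.ch (nat_lit 8) (.ev (nat_lit 48) (nat_lit 68988960772) (.nd (nat_lit 64) (.br (nat_lit 11) (.br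
 (nat_lit 8) (.br (nat_lit 1) (.ch (nat_lit 0) (.ev (nat_lit 80) (nat_lit 34897168384) (.nd (nat_lit 528) (.br
 (nat_lit 6) (.br (nat_lit 3) (.br (nat_lit 2) (.ch (nat_lit 1) (.ev (nat_lit 544) (nat_lit 35184539865088)
 (.ev (nat_lit 2772) (nat_lit 8589934592) (.fin (nat_lit 576460202549133852))))) (.ch (nat_lit 2) (.ev (nat_lit
 544) (nat_lit 4462804992) (.ev (nat_lit 1012) (nat_lit 8589934592) (.ev (nat_lit 1284) (nat_lit
 35184372088832) (.ev (nat_lit 1293) (nat_lit 4096) .dd)))))) (.br (nat_lit 5) (.ch (nat_lit 3) (.ev (nat_lit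
 544) (nat_lit 4429189120) (.ev (nat_lit 788) (nat_lit 33554432) (.ev (nat_lit 2196) (nat_lit 8589934592) (.ev
 (nat_lit 2260) (nat_lit 65536) (.ev (nat_lit 2269) (nat_lit 35184372088832) .dd)))))) (.ch (nat_lit 5) (.ev
 (nat_lit 544) (nat_lit 8724221952) (.ev (nat_lit 788) (nat_lit 33554432) (.ev (nat_lit 1236) (nat_lit
 35184372088832) (.ev (nat_lit 1245) (nat_lit 4294967296) .dd))))))) (.br (nat_lit 8) (.br (nat_lit 7) (.ch
 (nat_lit 6) (.ev (nat_lit 544) (nat_lit 35193096241152) (.ev (nat_lit 2564) (nat_lit 33554432) (.ev (nat_lit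
 2772) (nat_lit 4294967296) (.ev (nat_lit 2836) (nat_lit 65536) (.ev (nat_lit 2845) (nat_lit 4096) .dd))))))
 (.ch (nat_lit 7) (.ev (nat_lit 544) (nat_lit 8623489024) (.ev (nat_lit 660) (nat_lit 4096) (.ev (nat_lit 1204)
 (nat_lit 4294967296) (.ev (nat_lit 1680) (nat_lit 35184372088832) (.ev (nat_lit 2592) (nat_lit 65536) (.ev
 (nat_lit 2605) (nat_lit 134217728) .dd)))))))) (.br (nat_lit 9) (.ch (nat_lit 8) (.ev (nat_lit 544) (nat_lit
 35197424828416) (.ev (nat_lit 557) (nat_lit 4096) .dd))) (.br (nat_lit 16) (.ch (nat_lit 9) (.ev (nat_lit 544)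
 (nat_lit 35188834897920) (.ev (nat_lit 557) (nat_lit 8589934592) .dd))) (.ch (nat_lit 16) (.ev (nat_lit 544)
 (nat_lit 33554432) (.ev (nat_lit 660) (nat_lit 4096) (.ev (nat_lit 724) (nat_lit 4294967296) (.ev (nat_lit
 1296) (nat_lit 65536) (.ev (nat_lit 1732) (nat_lit 134217728) (.ev (nat_lit 2644) (nat_lit 8589934592) (.ev
 (nat_lit 2653) (nat_lit 35184372088832) .dd))))))))))))))) (.ch (nat_lit 1) (.ev (nat_lit 80) (nat_lit
 34930722816) (.nd (nat_lit 576) (.br (nat_lit 6) (.br (nat_lit 3) (.br (nat_lit 2) (.ch (nat_lit 1) (.ev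
 (nat_lit 592) (nat_lit 35193096306688) (.ev (nat_lit 1776) (nat_lit 4096) (.ev (nat_lit 1789) (nat_lit
 4294967296) .dd)))) (.ch (nat_lit 2) (.ev (nat_lit 592) (nat_lit 35184506376192) (.ev (nat_lit 2112) (nat_lit
 12884901888) .dd)))) (.br (nat_lit 4) (.ch (nat_lit 3) (.ev (nat_lit 592) (nat_lit 35197257056256) (.ev
 (nat_lit 660) (nat_lit 134217728) (.ev (nat_lit 669) (nat_lit 4096) .dd)))) (.ch (nat_lit 4) (.ev (nat_lit
 592) (nat_lit 35193096306688) (.ev (nat_lit 1172) (nat_lit 4096) (.ev (nat_lit 1181) (nat_lit 4294967296)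
 .dd)))))) (.br (nat_lit 12) (.br (nat_lit 10) (.ch (nat_lit 6) (.ev (nat_lit 592) (nat_lit 4295032832) (.ev
 (nat_lit 1172) (nat_lit 4096) (.ev (nat_lit 2260) (nat_lit 134217728) (.ev (nat_lit 2272) (nat_lit
 35184372088832) (.ev (nat_lit 2285) (nat_lit 8589934592) .dd)))))) (.ch (nat_lit 10) (.ev (nat_lit 592)
 (nat_lit 8724221952) (.ev (nat_lit 724) (nat_lit 4294967296) (.ev (nat_lit 733) (nat_lit 35184372088832)
 .dd))))) (.br (nat_lit 16) (.ch (nat_lit 12) (.ev (nat_lit 592) (nat_lit 35197391208448) (.ev (nat_lit 1668)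
 (nat_lit 4096) (.ev (nat_lit 1677) (nat_lit 65536) .dd)))) (.ch (nat_lit 16) (.ev (nat_lit 592) (nat_lit
 35184372092928) (.ev (nat_lit 1396) (nat_lit 8589934592) (.ev (nat_lit 2644) (nat_lit 65536) (.fin (nat_lit
 576504183003759215))))))))))))) (.br (nat_lit 10) (.ch (nat_lit 8) (.ev (nat_lit 80) (nat_lit 134256640) (.nd
 (nat_lit 528) (.br (nat_lit 6) (.br (nat_lit 3) (.br (nat_lit 2) (.ch (nat_lit 1) (.ev (nat_lit 544) (nat_lit
 35218732351488) (.ev (nat_lit 612) (nat_lit 536870912) (.ev (nat_lit 740) (nat_lit 65536) (.ev (nat_lit 2196)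
 (nat_lit 4294967296) (.ev (nat_lit 2724) (nat_lit 33554432) (.ev (nat_lit 2733) (nat_lit 8589934592)
 .dd))))))) (.ch (nat_lit 2) (.ev (nat_lit 544) (nat_lit 39191642112) (.ev (nat_lit 1204) (nat_lit 524288) (.ev
 (nat_lit 1216) (nat_lit 33554432) (.ev (nat_lit 1428) (nat_lit 8589934592) (.ev (nat_lit 1437) (nat_lit
 35184372088832) .dd))))))) (.br (nat_lit 4) (.ch (nat_lit 3) (.ev (nat_lit 544) (nat_lit 34393882624) (.ev
 (nat_lit 724) (nat_lit 4294967296) (.ev (nat_lit 1604) (nat_lit 9126805504) (.ev (nat_lit 1613) (nat_lit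
 35184372088832) .dd))))) (.ch (nat_lit 4) (.ev (nat_lit 544) (nat_lit 35227355906048) (.nd (nat_lit 3648) (.br
 (nat_lit 14) (.ch (nat_lit 8) (.ev (nat_lit 3764) (nat_lit 4294967296) (.ev (nat_lit 3773) (nat_lit 536870912)
 .dd))) (.ch (nat_lit 14) (.ev (nat_lit 3664) (nat_lit 536870912) (.ev (nat_lit 3677) (nat_lit 4294967296)
 .dd))))))))) (.br (nat_lit 9) (.br (nat_lit 8) (.ch (nat_lit 6) (.ev (nat_lit 544) (nat_lit 47278718976) (.ev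
 (nat_lit 2724) (nat_lit 35184372088832) (.fin (nat_lit 576467899156742716))))) (.ch (nat_lit 8) (.ev (nat_lit
 544) (nat_lit 34393882624) (.ev (nat_lit 612) (nat_lit 536870912) (.ev (nat_lit 1796) (nat_lit 4294967296)
 (.ev (nat_lit 2260) (nat_lit 8589934592) (.ev (nat_lit 2269) (nat_lit 35184372088832) .dd))))))) (.br (nat_lit
 13) (.ch (nat_lit 9) (.ev (nat_lit 544) (nat_lit 13422362624) (.ev (nat_lit 660) (nat_lit 33554432) (.ev
 (nat_lit 1204) (nat_lit 35184372088832) (.ev (nat_lit 1213) (nat_lit 34359738368) .dd))))) (.br (nat_lit 16)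
 (.ch (nat_lit 13) (.ev (nat_lit 544) (nat_lit 35197793927168) (.ev (nat_lit 1172) (nat_lit 34359738368) (.ev
 (nat_lit 1204) (nat_lit 524288) (.ev (nat_lit 1213) (nat_lit 33554432) .dd))))) (.ch (nat_lit 16) (.ev
 (nat_lit 544) (nat_lit 35184909484032) (.ev (nat_lit 1876) (nat_lit 8589934592) (.ev (nat_lit 2656) (nat_lit
 34359738368) (.ev (nat_lit 3204) (nat_lit 4294967296) (.ev (nat_lit 3556) (nat_lit 65536) (.ev (nat_lit 3565)
 (nat_lit 33554432) .dd)))))))))))))) (.ch (nat_lit 10) (.ev (nat_lit 80) (nat_lit 35228026411008) (.nd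
 (nat_lit 624) (.br (nat_lit 9) (.br (nat_lit 5) (.br (nat_lit 2) (.ch (nat_lit 0) (.ev (nat_lit 640) (nat_lit
 4295065600) (.ev (nat_lit 653) (nat_lit 524288) .dd))) (.ch (nat_lit 2) (.ev (nat_lit 640) (nat_lit 98304)
 (.fin (nat_lit 576465700116709959))))) (.br (nat_lit 6) (.ch (nat_lit 5) (.ev (nat_lit 640) (nat_lit 557056)
 (.ev (nat_lit 2228) (nat_lit 4294967296) (.ev (nat_lit 2237) (nat_lit 65536) .dd)))) (.ch (nat_lit 6) (.ev
 (nat_lit 640) (nat_lit 4295065600) (.ev (nat_lit 653) (nat_lit 524288) .dd))))) (.br (nat_lit 12) (.br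
 (nat_lit 10) (.ch (nat_lit 9) (.ev (nat_lit 640) (nat_lit 4295065600) (.ev (nat_lit 653) (nat_lit 524288)
 .dd))) (.ch (nat_lit 10) (.ev (nat_lit 640) (nat_lit 4295000064) (.fin (nat_lit 576471197707354660))))) (.br
 (nat_lit 14) (.ch (nat_lit 12) (.ev (nat_lit 640) (nat_lit 4295524352) (.ev (nat_lit 653) (nat_lit 65536)
 .dd))) (.br (nat_lit 15) (.ch (nat_lit 14) (.ev (nat_lit 640) (nat_lit 589824) (.ev (nat_lit 1556) (nat_lit
 4294967296) (.ev (nat_lit 1565) (nat_lit 32768) .dd)))) (.ch (nat_lit 15) (.ev (nat_lit 640) (nat_lit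
 4295557120) (.ev (nat_lit 653) (nat_lit 32768) .dd)))))))))))) (.br (nat_lit 14) (.br (nat_lit 12) (.ch
 (nat_lit 11) (.ev (nat_lit 80) (nat_lit 35223027419136) (.nd (nat_lit 528) (.br (nat_lit 4) (.br (nat_lit 2)
 (.ch (nat_lit 0) (.ev (nat_lit 544) (nat_lit 9160359936) (.fin (nat_lit 576488789851456097)))) (.br (nat_lit
 3) (.ch (nat_lit 2) (.ev (nat_lit 544) (nat_lit 570425344) (.ev (nat_lit 2196) (nat_lit 4096) (.ev (nat_lit
 2724) (nat_lit 8589934592) (.ev (nat_lit 2733) (nat_lit 134217728) .dd))))) (.ch (nat_lit 3) (.ev (nat_lit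
 544) (nat_lit 9160359936) (.ev (nat_lit 2804) (nat_lit 4096) (.ev (nat_lit 2813) (nat_lit 134217728) .dd))))))
 (.br (nat_lit 9) (.br (nat_lit 5) (.ch (nat_lit 4) (.ev (nat_lit 544) (nat_lit 9261023232) (.ev (nat_lit 1908)
 (nat_lit 33554432) (.ev (nat_lit 1917) (nat_lit 4096) .dd)))) (.ch (nat_lit 5) (.ev (nat_lit 544) (nat_lit
 167776256) (.ev (nat_lit 1796) (nat_lit 536870912) (.ev (nat_lit 1805) (nat_lit 8589934592) .dd))))) (.br
 (nat_lit 13) (.ch (nat_lit 9) (.ev (nat_lit 544) (nat_lit 8589934592) (.ev (nat_lit 1876) (nat_lit 134217728)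
 (.ev (nat_lit 2228) (nat_lit 536870912) (.fin (nat_lit 576474496216023627)))))) (.ch (nat_lit 13) (.ev
 (nat_lit 544) (nat_lit 671092736) (.ev (nat_lit 1732) (nat_lit 33554432) (.ev (nat_lit 1741) (nat_lit
 8589934592) .dd)))))))))) (.ch (nat_lit 12) (.ev (nat_lit 80) (nat_lit 47412477952) (.nd (nat_lit 576) (.br
 (nat_lit 11) (.br (nat_lit 7) (.br (nat_lit 4) (.ch (nat_lit 2) (.ev (nat_lit 592) (nat_lit 536870912) (.ev
 (nat_lit 1876) (nat_lit 35184372088832) (.ev (nat_lit 2644) (nat_lit 32768) (.ev (nat_lit 3204) (nat_lit 4096)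
 (.ev (nat_lit 4004) (nat_lit 524288) (.ev (nat_lit 4013) (nat_lit 2048) .dd))))))) (.ch (nat_lit 4) (.ev
 (nat_lit 592) (nat_lit 35184372615168) (.ev (nat_lit 660) (nat_lit 4096) (.ev (nat_lit 1204) (nat_lit
 536870912) (.ev (nat_lit 1213) (nat_lit 32768) .dd)))))) (.br (nat_lit 8) (.ch (nat_lit 7) (.ev (nat_lit 592)
 (nat_lit 35184372127744) (.ev (nat_lit 788) (nat_lit 536870912) (.ev (nat_lit 797) (nat_lit 524288) .dd))))
 (.ch (nat_lit 8) (.ev (nat_lit 592) (nat_lit 35184909488128) (.ev (nat_lit 1732) (nat_lit 32768) (.ev (nat_lit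
 1741) (nat_lit 2048) .dd)))))) (.br (nat_lit 14) (.br (nat_lit 13) (.ch (nat_lit 11) (.ev (nat_lit 592)
 (nat_lit 35184372088832) (.ev (nat_lit 788) (nat_lit 536870912) (.ev (nat_lit 980) (nat_lit 524288) (.ev
 (nat_lit 2260) (nat_lit 32768) (.ev (nat_lit 2820) (nat_lit 2048) (.ev (nat_lit 2829) (nat_lit 4096)
 .dd))))))) (.ch (nat_lit 13) (.ev (nat_lit 592) (nat_lit 537432064) (.ev (nat_lit 1568) (nat_lit 2048) (.ev
 (nat_lit 1581) (nat_lit 35184372088832) .dd))))) (.br (nat_lit 15) (.ch (nat_lit 14) (.ev (nat_lit 592)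
 (nat_lit 561152) (.ev (nat_lit 992) (nat_lit 2048) (.ev (nat_lit 1732) (nat_lit 35184372088832) (.ev (nat_lit
 1741) (nat_lit 536870912) .dd))))) (.ch (nat_lit 15) (.ev (nat_lit 592) (nat_lit 35184372619264) (.ev (nat_lit
 788) (nat_lit 536870912) (.ev (nat_lit 797) (nat_lit 32768) .dd))))))))))) (.br (nat_lit 15) (.ch (nat_lit 14)
 (.ev (nat_lit 80) (nat_lit 35218766008320) (.nd (nat_lit 576) (.br (nat_lit 11) (.br (nat_lit 3) (.br (nat_lit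
 2) (.ch (nat_lit 0) (.ev (nat_lit 592) (nat_lit 134217728) (.ev (nat_lit 660) (nat_lit 2048) (.ev (nat_lit
 868) (nat_lit 4294967296) (.ev (nat_lit 2132) (nat_lit 8589934592) (.ev (nat_lit 2141) (nat_lit 536870912)
 .dd)))))) (.ch (nat_lit 2) (.ev (nat_lit 592) (nat_lit 12884903936) (.ev (nat_lit 724) (nat_lit 536870912)
 (.ev (nat_lit 733) (nat_lit 134217728) .dd))))) (.br (nat_lit 7) (.ch (nat_lit 3) (.ev (nat_lit 592) (nat_lit
 671090688) (.ev (nat_lit 2724) (nat_lit 4294967296) (.ev (nat_lit 2733) (nat_lit 8589934592) .dd)))) (.ch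
 (nat_lit 7) (.ev (nat_lit 592) (nat_lit 4966057984) (.ev (nat_lit 605) (nat_lit 8589934592) .dd))))) (.br
 (nat_lit 13) (.br (nat_lit 12) (.ch (nat_lit 11) (.ev (nat_lit 592) (nat_lit 9261023232) (.ev (nat_lit 868)
 (nat_lit 4294967296) (.ev (nat_lit 877) (nat_lit 2048) .dd)))) (.ch (nat_lit 12) (.ev (nat_lit 592) (nat_lit
 536870912) (.ev (nat_lit 1124) (nat_lit 4294967296) (.ev (nat_lit 2772) (nat_lit 8589934592) (.fin (nat_lit
 576441510846218790))))))) (.br (nat_lit 15) (.ch (nat_lit 13) (.ev (nat_lit 592) (nat_lit 134217728) (.ev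
 (nat_lit 868) (nat_lit 4294967296) (.ev (nat_lit 1428) (nat_lit 2048) (.ev (nat_lit 1732) (nat_lit 536870912)
 (.ev (nat_lit 1741) (nat_lit 8589934592) .dd)))))) (.ch (nat_lit 15) (.ev (nat_lit 592) (nat_lit 12884901888)
 (.ev (nat_lit 3120) (nat_lit 536870912) (.ev (nat_lit 3536) (nat_lit 134217728) (.ev (nat_lit 3549) (nat_lit
 2048) .dd))))))))))) (.br (nat_lit 16) (.ch (nat_lit 15) (.ev (nat_lit 80) (nat_lit 47781543936) (.nd (nat_lit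
 528) (.br (nat_lit 10) (.br (nat_lit 5) (.br (nat_lit 4) (.ch (nat_lit 0) (.ev (nat_lit 544) (nat_lit
 35184405645312) (.ev (nat_lit 724) (nat_lit 4096) (.ev (nat_lit 1264) (nat_lit 134217728) (.ev (nat_lit 1856)
 (nat_lit 589824) .dd))))) (.ch (nat_lit 4) (.ev (nat_lit 544) (nat_lit 35184372092928) (.ev (nat_lit 788)
 (nat_lit 2048) (.nd (nat_lit 3216) (.br (nat_lit 13) (.ch (nat_lit 1) (.ev (nat_lit 3232) (nat_lit 134742016)
 (.fin (nat_lit 576453605447909964)))) (.ch (nat_lit 13) (.ev (nat_lit 3232) (nat_lit 33619968) (.fin (nat_lit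
 576442610394546743)))))))))) (.br (nat_lit 8) (.ch (nat_lit 5) (.ev (nat_lit 544) (nat_lit 134746112) (.ev
 (nat_lit 788) (nat_lit 33554432) (.ev (nat_lit 2564) (nat_lit 2048) (.ev (nat_lit 2772) (nat_lit 65536) (.ev
 (nat_lit 2781) (nat_lit 35184372088832) .dd)))))) (.ch (nat_lit 8) (.ev (nat_lit 544) (nat_lit 34144256) (.ev
 (nat_lit 1236) (nat_lit 4096) (.ev (nat_lit 1492) (nat_lit 2048) (.ev (nat_lit 2228) (nat_lit 35184372088832)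
 (.ev (nat_lit 2237) (nat_lit 134217728) .dd)))))))) (.br (nat_lit 13) (.br (nat_lit 11) (.ch (nat_lit 10) (.ev
 (nat_lit 544) (nat_lit 35184539932672) (.ev (nat_lit 557) (nat_lit 524288) .dd))) (.ch (nat_lit 11) (.ev
 (nat_lit 544) (nat_lit 35184540454912) (.ev (nat_lit 557) (nat_lit 2048) .dd)))) (.br (nat_lit 14) (.ch
 (nat_lit 13) (.ev (nat_lit 544) (nat_lit 35184506374144) (.ev (nat_lit 788) (nat_lit 33554432) (.ev (nat_lit
 1604) (nat_lit 4096) (.ev (nat_lit 1613) (nat_lit 524288) .dd))))) (.br (nat_lit 16) (.ch (nat_lit 14) (.ev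
 (nat_lit 544) (nat_lit 35184406167552) (.ev (nat_lit 724) (nat_lit 4096) (.ev (nat_lit 788) (nat_lit 2048)
 (.ev (nat_lit 2820) (nat_lit 65536) (.ev (nat_lit 2829) (nat_lit 134217728) .dd)))))) (.ch (nat_lit 16) (.ev
 (nat_lit 544) (nat_lit 67584) (.ev (nat_lit 1744) (nat_lit 524288) (.ev (nat_lit 2644) (nat_lit 134217728)
 (.ev (nat_lit 2724) (nat_lit 4096) (.ev (nat_lit 2772) (nat_lit 35184372088832) (.ev (nat_lit 2781) (nat_lit
 33554432) .dd)))))))))))))) (.ch (nat_lit 16) (.ev (nat_lit 80) (nat_lit 35197391280128) (.nd (nat_lit 624)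
 (.br (nat_lit 11) (.br (nat_lit 7) (.br (nat_lit 6) (.ch (nat_lit 0) (.ev (nat_lit 640) (nat_lit 34930163712)
 (.ev (nat_lit 1568) (nat_lit 32768) (.ev (nat_lit 1581) (nat_lit 524288) .dd)))) (.ch (nat_lit 6) (.ev
 (nat_lit 640) (nat_lit 34111488) (.ev (nat_lit 1604) (nat_lit 536870912) (.ev (nat_lit 1613) (nat_lit
 34359738368) .dd))))) (.br (nat_lit 9) (.ch (nat_lit 7) (.ev (nat_lit 640) (nat_lit 34896609280) (.ev (nat_lit
 1172) (nat_lit 524288) (.ev (nat_lit 1584) (nat_lit 33554432) (.ev (nat_lit 1597) (nat_lit 32768) .dd)))))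
 (.ch (nat_lit 9) (.ev (nat_lit 640) (nat_lit 570982400) (.ev (nat_lit 653) (nat_lit 34359738368) .dd))))) (.br
 (nat_lit 14) (.br (nat_lit 12) (.ch (nat_lit 11) (.ev (nat_lit 640) (nat_lit 34078720) (.ev (nat_lit 1172)
 (nat_lit 536870912) (.ev (nat_lit 2144) (nat_lit 34359771136) .dd)))) (.ch (nat_lit 12) (.ev (nat_lit 640)
 (nat_lit 34930688000) (.ev (nat_lit 653) (nat_lit 32768) .dd)))) (.br (nat_lit 16) (.ch (nat_lit 14) (.ev
 (nat_lit 640) (nat_lit 537427968) (.ev (nat_lit 2308) (nat_lit 34359738368) (.ev (nat_lit 2317) (nat_lit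
 33554432) .dd)))) (.ch (nat_lit 16) (.ev (nat_lit 640) (nat_lit 570425344) (.ev (nat_lit 1492) (nat_lit
 524288) (.ev (nat_lit 1604) (nat_lit 34359738368) (.ev (nat_lit 1613) (nat_lit 32768) .dd))))))))))))))))))
 (.ch (nat_lit 10) (.ev (nat_lit 48) (nat_lit 35193096343556) (.nd (nat_lit 304) (.br (nat_lit 8) (.br (nat_lit
 5) (.br (nat_lit 1) (.ch (nat_lit 0) (.ev (nat_lit 320) (nat_lit 103884521472) (.nd (nat_lit 688) (.br
 (nat_lit 6) (.br (nat_lit 4) (.br (nat_lit 3) (.ch (nat_lit 1) (.ev (nat_lit 704) (nat_lit 1572864) (.ev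
 (nat_lit 1668) (nat_lit 2048) (.nd (nat_lit 3392) (.br (nat_lit 13) (.ch (nat_lit 12) (.ev (nat_lit 3408)
 (nat_lit 33554432) (.ev (nat_lit 3421) (nat_lit 4294967296) .dd))) (.ch (nat_lit 13) (.ev (nat_lit 3408)
 (nat_lit 4294967296) (.ev (nat_lit 3421) (nat_lit 33554432) .dd)))))))) (.ch (nat_lit 3) (.ev (nat_lit 704)
 (nat_lit 4330094592) (.ev (nat_lit 717) (nat_lit 2048) .dd)))) (.br (nat_lit 5) (.ch (nat_lit 4) (.ev (nat_lit
 704) (nat_lit 4296542208) (.ev (nat_lit 717) (nat_lit 33554432) .dd))) (.ch (nat_lit 5) (.ev (nat_lit 704)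
 (nat_lit 34078720) (.ev (nat_lit 1172) (nat_lit 1048576) (.ev (nat_lit 2132) (nat_lit 4294967296) (.ev
 (nat_lit 2141) (nat_lit 2048) .dd))))))) (.br (nat_lit 14) (.br (nat_lit 7) (.ch (nat_lit 6) (.ev (nat_lit
 704) (nat_lit 2048) (.ev (nat_lit 2564) (nat_lit 1048576) (.ev (nat_lit 3120) (nat_lit 524288) (.fin (nat_lit
 576471197620322882)))))) (.ch (nat_lit 7) (.ev (nat_lit 704) (nat_lit 4329572352) (.ev (nat_lit 717) (nat_lit
 524288) .dd)))) (.br (nat_lit 15) (.ch (nat_lit 14) (.ev (nat_lit 704) (nat_lit 34603008) (.ev (nat_lit 724)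
 (nat_lit 4294967296) (.fin (nat_lit 576501983959532179))))) (.ch (nat_lit 15) (.ev (nat_lit 704) (nat_lit
 33554432) (.ev (nat_lit 788) (nat_lit 526336) (.ev (nat_lit 1428) (nat_lit 1048576) (.ev (nat_lit 1437)
 (nat_lit 4294967296) .dd))))))))))) (.ch (nat_lit 1) (.ev (nat_lit 320) (nat_lit 4866965504) (.nd (nat_lit
 624) (.br (nat_lit 9) (.br (nat_lit 7) (.br (nat_lit 5) (.ch (nat_lit 0) (.ev (nat_lit 640) (nat_lit
 68719476736) (.ev (nat_lit 1776) (nat_lit 268435456) (.ev (nat_lit 1840) (nat_lit 34359740416) .dd)))) (.ch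
 (nat_lit 5) (.ev (nat_lit 640) (nat_lit 103079215104) (.ev (nat_lit 1648) (nat_lit 268437504) .dd)))) (.br
 (nat_lit 8) (.ch (nat_lit 7) (.ev (nat_lit 640) (nat_lit 103079217152) (.ev (nat_lit 653) (nat_lit 268435456)
 .dd))) (.ch (nat_lit 8) (.ev (nat_lit 640) (nat_lit 103347650560) (.ev (nat_lit 653) (nat_lit 2048) .dd)))))
 (.br (nat_lit 14) (.br (nat_lit 13) (.ch (nat_lit 9) (.ev (nat_lit 640) (nat_lit 68719478784) (.ev (nat_lit
 868) (nat_lit 268435456) (.ev (nat_lit 877) (nat_lit 34359738368) .dd)))) (.ch (nat_lit 13) (.ev (nat_lit 640)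
 (nat_lit 103347650560) (.ev (nat_lit 653) (nat_lit 2048) .dd)))) (.br (nat_lit 15) (.ch (nat_lit 14) (.ev
 (nat_lit 640) (nat_lit 34359740416) (.ev (nat_lit 868) (nat_lit 268435456) (.ev (nat_lit 877) (nat_lit
 68719476736) .dd)))) (.ch (nat_lit 15) (.ev (nat_lit 640) (nat_lit 34628173824) (.ev (nat_lit 1248) (nat_lit
 2048) (.ev (nat_lit 1261) (nat_lit 68719476736) .dd))))))))))) (.br (nat_lit 7) (.ch (nat_lit 5) (.ev (nat_lit
 320) (nat_lit 39225655296) (.nd (nat_lit 688) (.br (nat_lit 7) (.br (nat_lit 3) (.br (nat_lit 2) (.ch (nat_lit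
 0) (.ev (nat_lit 704) (nat_lit 68719478784) (.ev (nat_lit 788) (nat_lit 268435456) (.ev (nat_lit 797) (nat_lit
 1048576) .dd)))) (.ch (nat_lit 2) (.ev (nat_lit 1908) (nat_lit 1048576) (.ev (nat_lit 2772) (nat_lit
 268435456) (.ev (nat_lit 3748) (nat_lit 68719476736) (.ev (nat_lit 3757) (nat_lit 2048) .dd)))))) (.br
 (nat_lit 4) (.ch (nat_lit 3) (.ev (nat_lit 704) (nat_lit 269486080) (.ev (nat_lit 717) (nat_lit 68719476736)
 .dd))) (.ch (nat_lit 4) (.ev (nat_lit 704) (nat_lit 1048576) (.ev (nat_lit 1284) (nat_lit 2048) (.ev (nat_lit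
 1680) (nat_lit 68719476736) (.ev (nat_lit 1693) (nat_lit 268435456) .dd))))))) (.br (nat_lit 11) (.br (nat_lit
 8) (.ch (nat_lit 7) (.ev (nat_lit 704) (nat_lit 1050624) (.ev (nat_lit 788) (nat_lit 68719476736) (.ev
 (nat_lit 797) (nat_lit 268435456) .dd)))) (.ch (nat_lit 8) (.ev (nat_lit 704) (nat_lit 68720525312) (.nd
 (nat_lit 3328) (.br (nat_lit 13) (.ch (nat_lit 9) (.ev (nat_lit 3556) (nat_lit 268435456) (.ev (nat_lit 3565)
 (nat_lit 2048) .dd))) (.ch (nat_lit 13) (.ev (nat_lit 3344) (nat_lit 2048) (.ev (nat_lit 3357) (nat_lit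
 268435456) .dd)))))))) (.br (nat_lit 12) (.ch (nat_lit 11) (.ev (nat_lit 704) (nat_lit 68987912192) (.ev
 (nat_lit 2564) (nat_lit 1048576) (.ev (nat_lit 2573) (nat_lit 2048) .dd)))) (.br (nat_lit 13) (.ch (nat_lit
 12) (.ev (nat_lit 704) (nat_lit 268435456) (.ev (nat_lit 1236) (nat_lit 68719476736) (.ev (nat_lit 1284)
 (nat_lit 2048) (.ev (nat_lit 1293) (nat_lit 1048576) .dd))))) (.ch (nat_lit 13) (.ev (nat_lit 704) (nat_lit
 68987914240) (.ev (nat_lit 717) (nat_lit 1048576) .dd)))))))))) (.ch (nat_lit 7) (.ev (nat_lit 320) (nat_lit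
 4563402752) (.nd (nat_lit 576) (.br (nat_lit 8) (.br (nat_lit 5) (.br (nat_lit 4) (.ch (nat_lit 2) (.ev
 (nat_lit 592) (nat_lit 69257396224) (.ev (nat_lit 724) (nat_lit 33554432) (.ev (nat_lit 788) (nat_lit 2048)
 (.ev (nat_lit 2260) (nat_lit 524288) (.ev (nat_lit 2269) (nat_lit 34359738368) .dd)))))) (.ch (nat_lit 4) (.ev
 (nat_lit 592) (nat_lit 572000256) (.ev (nat_lit 2644) (nat_lit 68719476736) (.ev (nat_lit 2653) (nat_lit
 34359738368) .dd))))) (.br (nat_lit 7) (.ch (nat_lit 5) (.ev (nat_lit 592) (nat_lit 103079741440) (.ev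
 (nat_lit 1396) (nat_lit 1048576) (.ev (nat_lit 2308) (nat_lit 536870912) (.ev (nat_lit 2317) (nat_lit
 33554432) .dd))))) (.ch (nat_lit 7) (.ev (nat_lit 592) (nat_lit 103616086016) (.ev (nat_lit 1236) (nat_lit
 33554432) (.ev (nat_lit 1732) (nat_lit 1048576) (.nd (nat_lit 3360) (.br (nat_lit 13) (.ch (nat_lit 3) (.fin
 (nat_lit 576482192792175203))) (.ch (nat_lit 13) (.ev (nat_lit 3376) (nat_lit 524288) (.ev (nat_lit 3389)
 (nat_lit 2048) .dd))))))))))) (.br (nat_lit 11) (.br (nat_lit 10) (.ch (nat_lit 8) (.ev (nat_lit 592) (nat_lit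
 537919488) (.ev (nat_lit 1428) (nat_lit 524288) (.ev (nat_lit 1796) (nat_lit 33554432) (.ev (nat_lit 2820)
 (nat_lit 2048) (.fin (nat_lit 576447008430572064))))))) (.ch (nat_lit 10) (.ev (nat_lit 592) (nat_lit
 103650164736) (.ev (nat_lit 788) (nat_lit 2048) (.ev (nat_lit 797) (nat_lit 1048576) .dd))))) (.br (nat_lit
 15) (.ch (nat_lit 11) (.ev (nat_lit 592) (nat_lit 571473920) (.ev (nat_lit 788) (nat_lit 2048) (.ev (nat_lit
 1604) (nat_lit 524288) (.ev (nat_lit 1876) (nat_lit 68719476736) (.ev (nat_lit 1885) (nat_lit 34359738368)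
 .dd)))))) (.br (nat_lit 16) (.ch (nat_lit 15) (.ev (nat_lit 592) (nat_lit 526336) (.ev (nat_lit 612) (nat_lit
 34359738368) (.ev (nat_lit 1604) (nat_lit 1048576) (.ev (nat_lit 1972) (nat_lit 536870912) (.ev (nat_lit 2964)
 (nat_lit 33554432) (.ev (nat_lit 2973) (nat_lit 68719476736) .dd))))))) (.ch (nat_lit 16) (.ev (nat_lit 592)
 (nat_lit 34930165760) (.ev (nat_lit 1396) (nat_lit 1048576) (.ev (nat_lit 2724) (nat_lit 68719476736) (.ev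
 (nat_lit 2733) (nat_lit 524288) .dd)))))))))))))) (.br (nat_lit 12) (.br (nat_lit 9) (.ch (nat_lit 8) (.ev
 (nat_lit 320) (nat_lit 34605056) (.nd (nat_lit 576) (.br (nat_lit 10) (.br (nat_lit 4) (.br (nat_lit 1) (.ch
 (nat_lit 0) (.ev (nat_lit 592) (nat_lit 108179488768) (.ev (nat_lit 605) (nat_lit 524288) .dd))) (.ch (nat_lit
 1) (.ev (nat_lit 592) (nat_lit 34360262656) (.ev (nat_lit 2644) (nat_lit 68719476736) (.ev (nat_lit 3444)
 (nat_lit 268435456) (.fin (nat_lit 576468998652641867))))))) (.br (nat_lit 8) (.ch (nat_lit 4) (.ev (nat_lit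
 592) (nat_lit 35165044736) (.ev (nat_lit 884) (nat_lit 68719476736) (.ev (nat_lit 992) (nat_lit 4294967296)
 (.ev (nat_lit 1005) (nat_lit 524288) .dd))))) (.ch (nat_lit 8) (.ev (nat_lit 592) (nat_lit 805830656) (.ev
 (nat_lit 820) (nat_lit 34359738368) (.ev (nat_lit 1076) (nat_lit 4294967296) (.ev (nat_lit 1085) (nat_lit
 68719476736) .dd))))))) (.br (nat_lit 15) (.br (nat_lit 11) (.ch (nat_lit 10) (.ev (nat_lit 592) (nat_lit
 107911053312) (.ev (nat_lit 724) (nat_lit 268435456) (.ev (nat_lit 733) (nat_lit 524288) .dd)))) (.ch (nat_lit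
 11) (.ev (nat_lit 592) (nat_lit 103885045760) (.ev (nat_lit 605) (nat_lit 4294967296) .dd)))) (.br (nat_lit
 16) (.ch (nat_lit 15) (.ev (nat_lit 592) (nat_lit 73282879488) (.ev (nat_lit 660) (nat_lit 524288) (.ev
 (nat_lit 1732) (nat_lit 34359738368) (.ev (nat_lit 1741) (nat_lit 536870912) .dd))))) (.ch (nat_lit 16) (.ev
 (nat_lit 592) (nat_lit 103079215104) (.ev (nat_lit 2868) (nat_lit 524288) (.ev (nat_lit 3456) (nat_lit
 4294967296) (.fin (nat_lit 576477794773975606)))))))))))) (.ch (nat_lit 9) (.ev (nat_lit 320) (nat_lit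
 107642619904) (.ev (nat_lit 340) (nat_lit 524288) (.nd (nat_lit 832) (.br (nat_lit 7) (.br (nat_lit 4) (.br
 (nat_lit 3) (.ch (nat_lit 0) (.ev (nat_lit 848) (nat_lit 1048576) (.ev (nat_lit 1668) (nat_lit 33554432) (.ev
 (nat_lit 1677) (nat_lit 536870912) .dd)))) (.ch (nat_lit 3) (.ev (nat_lit 848) (nat_lit 537919488) (.ev
 (nat_lit 861) (nat_lit 33554432) .dd)))) (.br (nat_lit 6) (.ch (nat_lit 4) (.ev (nat_lit 1556) (nat_lit
 1048576) (.ev (nat_lit 1808) (nat_lit 33554432) (.ev (nat_lit 1821) (nat_lit 536870912) .dd)))) (.ch (nat_lit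
 6) (.ev (nat_lit 848) (nat_lit 34603008) (.ev (nat_lit 861) (nat_lit 536870912) .dd))))) (.br (nat_lit 12)
 (.br (nat_lit 10) (.ch (nat_lit 7) (.ev (nat_lit 848) (nat_lit 537919488) (.ev (nat_lit 861) (nat_lit
 33554432) .dd))) (.ch (nat_lit 10) (.ev (nat_lit 848) (nat_lit 571473920) .dd))) (.br (nat_lit 15) (.ch
 (nat_lit 12) (.ev (nat_lit 848) (nat_lit 537919488) (.ev (nat_lit 861) (nat_lit 33554432) .dd))) (.ch (nat_lit
 15) (.ev (nat_lit 848) (nat_lit 570425344) (.ev (nat_lit 861) (nat_lit 1048576) .dd))))))))))) (.br (nat_lit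
 13) (.ch (nat_lit 12) (.ev (nat_lit 320) (nat_lit 73585920000) (.nd (nat_lit 688) (.br (nat_lit 7) (.br
 (nat_lit 5) (.ch (nat_lit 4) (.ev (nat_lit 704) (nat_lit 268435456) (.ev (nat_lit 980) (nat_lit 34359738368)
 (.ev (nat_lit 989) (nat_lit 524288) .dd)))) (.br (nat_lit 6) (.ch (nat_lit 5) (.ev (nat_lit 704) (nat_lit
 34359738368) (.ev (nat_lit 1204) (nat_lit 524288) (.ev (nat_lit 1213) (nat_lit 268435456) .dd)))) (.ch
 (nat_lit 6) (.ev (nat_lit 704) (nat_lit 34628698112) .dd)))) (.br (nat_lit 12) (.br (nat_lit 8) (.ch (nat_lit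
 7) (.ev (nat_lit 704) (nat_lit 34360262656) (.ev (nat_lit 717) (nat_lit 268435456) .dd))) (.ch (nat_lit 8)
 (.ev (nat_lit 704) (nat_lit 524288) (.ev (nat_lit 1764) (nat_lit 34359738368) (.ev (nat_lit 1773) (nat_lit
 268435456) .dd))))) (.br (nat_lit 16) (.ch (nat_lit 12) (.ev (nat_lit 704) (nat_lit 524288) (.ev (nat_lit
 2948) (nat_lit 34359738368) (.ev (nat_lit 2957) (nat_lit 268435456) .dd)))) (.ch (nat_lit 16) (.ev (nat_lit
 704) (nat_lit 524288) (.ev (nat_lit 2340) (nat_lit 268435456) (.ev (nat_lit 2349) (nat_lit 34359738368)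
 .dd)))))))))) (.br (nat_lit 16) (.ch (nat_lit 13) (.ev (nat_lit 320) (nat_lit 34360264704) (.nd (nat_lit 576)
 (.br (nat_lit 5) (.br (nat_lit 2) (.br (nat_lit 1) (.ch (nat_lit 0) (.ev (nat_lit 592) (nat_lit 73049047040)
 (.ev (nat_lit 1012) (nat_lit 536870912) (.ev (nat_lit 1021) (nat_lit 268435456) .dd)))) (.ch (nat_lit 1) (.ev
 (nat_lit 592) (nat_lit 73049047040) (.ev (nat_lit 868) (nat_lit 536870912) (.ev (nat_lit 877) (nat_lit
 268435456) .dd))))) (.br (nat_lit 3) (.ch (nat_lit 2) (.ev (nat_lit 592) (nat_lit 68987912192) (.ev (nat_lit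
 1028) (nat_lit 33554432) (.ev (nat_lit 1604) (nat_lit 1048576) (.ev (nat_lit 1732) (nat_lit 4294967296) (.ev
 (nat_lit 1741) (nat_lit 536870912) .dd)))))) (.ch (nat_lit 3) (.ev (nat_lit 592) (nat_lit 536870912) (.ev
 (nat_lit 980) (nat_lit 4294967296) (.ev (nat_lit 1952) (nat_lit 1048576) (.ev (nat_lit 2228) (nat_lit
 68719476736) (.fin (nat_lit 576462401572389442))))))))) (.br (nat_lit 12) (.br (nat_lit 8) (.ch (nat_lit 5)
 (.ev (nat_lit 592) (nat_lit 4328521728) (.ev (nat_lit 1744) (nat_lit 536870912) (.ev (nat_lit 2772) (nat_lit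
 68719476736) (.ev (nat_lit 2820) (nat_lit 1048576) (.ev (nat_lit 2829) (nat_lit 268435456) .dd)))))) (.ch
 (nat_lit 8) (.ev (nat_lit 592) (nat_lit 69524783104) (.ev (nat_lit 884) (nat_lit 33554432) (.ev (nat_lit 980)
 (nat_lit 4294967296) (.ev (nat_lit 989) (nat_lit 1048576) .dd)))))) (.br (nat_lit 13) (.ch (nat_lit 12) (.ev
 (nat_lit 592) (nat_lit 73282879488) (.ev (nat_lit 1604) (nat_lit 1048576) (.ev (nat_lit 1940) (nat_lit
 33554432) (.ev (nat_lit 1949) (nat_lit 536870912) .dd))))) (.br (nat_lit 15) (.ch (nat_lit 13) (.ev (nat_lit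
 592) (nat_lit 69290950656) (.ev (nat_lit 1908) (nat_lit 4294967296) (.ev (nat_lit 1917) (nat_lit 268435456)
 .dd)))) (.ch (nat_lit 15) (.ev (nat_lit 592) (nat_lit 806354944) (.ev (nat_lit 2228) (nat_lit 4294967296) (.ev
 (nat_lit 2836) (nat_lit 33554432) (.ev (nat_lit 2845) (nat_lit 68719476736) .dd)))))))))))) (.ch (nat_lit 16)
 (.ev (nat_lit 320) (nat_lit 73284452352) (.ev (nat_lit 340) (nat_lit 2048) (.nd (nat_lit 752) (.br (nat_lit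
 10) (.br (nat_lit 8) (.br (nat_lit 3) (.ch (nat_lit 0) (.ev (nat_lit 2868) (nat_lit 34359738368) (.ev (nat_lit
 3508) (nat_lit 536870912) (.ev (nat_lit 3517) (nat_lit 33554432) .dd)))) (.ch (nat_lit 3) (.ev (nat_lit 768)
 (nat_lit 34896609280) (.ev (nat_lit 781) (nat_lit 33554432) .dd)))) (.br (nat_lit 9) (.ch (nat_lit 8) (.ev
 (nat_lit 768) (nat_lit 570425344) (.ev (nat_lit 781) (nat_lit 34359738368) .dd))) (.ch (nat_lit 9) (.ev
 (nat_lit 768) (nat_lit 33554432) (.ev (nat_lit 788) (nat_lit 536870912) (.ev (nat_lit 797) (nat_lit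
 34359738368) .dd)))))) (.br (nat_lit 12) (.br (nat_lit 11) (.ch (nat_lit 10) (.ev (nat_lit 768) (nat_lit
 34359738368) (.ev (nat_lit 1732) (nat_lit 33554432) (.ev (nat_lit 1741) (nat_lit 536870912) .dd)))) (.ch
 (nat_lit 11) (.ev (nat_lit 804) (nat_lit 33554432) (.ev (nat_lit 1012) (nat_lit 34359738368) (.ev (nat_lit
 1021) (nat_lit 536870912) .dd))))) (.br (nat_lit 14) (.ch (nat_lit 12) (.ev (nat_lit 768) (nat_lit
 34930163712) .dd)) (.br (nat_lit 15) (.ch (nat_lit 14) (.ev (nat_lit 768) (nat_lit 570425344) (.ev (nat_lit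
 781) (nat_lit 34359738368) .dd))) (.ch (nat_lit 15) (.ev (nat_lit 768) (nat_lit 34359738368) (.ev (nat_lit
 2724) (nat_lit 536870912) (.ev (nat_lit 2733) (nat_lit 33554432) .dd)))))))))))))))))))) (.br (nat_lit 13)
 (.ch (nat_lit 11) (.ev (nat_lit 48) (nat_lit 35266917597184) (.nd (nat_lit 400) (.br (nat_lit 8) (.br (nat_lit
 6) (.br (nat_lit 5) (.ch (nat_lit 4) (.ev (nat_lit 416) (nat_lit 34393298944) (.nd (nat_lit 1136) (.br
 (nat_lit 8) (.br (nat_lit 5) (.br (nat_lit 4) (.ch (nat_lit 0) (.ev (nat_lit 1172) (nat_lit 65536) (.ev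
 (nat_lit 1181) (nat_lit 4) .dd))) (.ch (nat_lit 4) (.ev (nat_lit 1152) (nat_lit 65536) (.ev (nat_lit 1165)
 (nat_lit 4) .dd)))) (.br (nat_lit 6) (.ch (nat_lit 5) (.ev (nat_lit 1152) (nat_lit 65540) .dd)) (.ch (nat_lit
 6) (.ev (nat_lit 1732) (nat_lit 65536) (.ev (nat_lit 1741) (nat_lit 4) .dd))))) (.br (nat_lit 12) (.br
 (nat_lit 10) (.ch (nat_lit 8) (.ev (nat_lit 1556) (nat_lit 65536) (.ev (nat_lit 1565) (nat_lit 4) .dd))) (.ch
 (nat_lit 10) (.ev (nat_lit 1152) (nat_lit 4) (.ev (nat_lit 1165) (nat_lit 65536) .dd)))) (.br (nat_lit 13)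
 (.ch (nat_lit 12) (.ev (nat_lit 1152) (nat_lit 4) (.ev (nat_lit 1165) (nat_lit 65536) .dd))) (.br (nat_lit 15)
 (.ch (nat_lit 13) (.ev (nat_lit 1152) (nat_lit 65540) .dd)) (.ch (nat_lit 15) (.ev (nat_lit 1152) (nat_lit
 65536) (.ev (nat_lit 1165) (nat_lit 4) .dd)))))))))) (.ch (nat_lit 5) (.ev (nat_lit 416) (nat_lit 4100) (.nd
 (nat_lit 688) (.br (nat_lit 4) (.br (nat_lit 1) (.ch (nat_lit 0) (.ev (nat_lit 704) (nat_lit 33619968) (.ev
 (nat_lit 2132) (nat_lit 34359738368) (.ev (nat_lit 2141) (nat_lit 2048) .dd)))) (.br (nat_lit 3) (.ch (nat_lit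
 1) (.ev (nat_lit 704) (nat_lit 34359803904) (.ev (nat_lit 900) (nat_lit 33554432) (.ev (nat_lit 909) (nat_lit
 2048) .dd)))) (.ch (nat_lit 3) (.ev (nat_lit 704) (nat_lit 65536) (.ev (nat_lit 868) (nat_lit 33554432) (.ev
 (nat_lit 1204) (nat_lit 34359738368) (.ev (nat_lit 1213) (nat_lit 2048) .dd))))))) (.br (nat_lit 12) (.br
 (nat_lit 7) (.ch (nat_lit 4) (.ev (nat_lit 704) (nat_lit 33554432) (.ev (nat_lit 1764) (nat_lit 65536) (.fin
 (nat_lit 576438212295606795))))) (.ch (nat_lit 7) (.ev (nat_lit 704) (nat_lit 2048) (.ev (nat_lit 1012)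
 (nat_lit 65536) (.ev (nat_lit 1796) (nat_lit 34359738368) (.ev (nat_lit 1805) (nat_lit 33554432) .dd))))))
 (.br (nat_lit 14) (.ch (nat_lit 12) (.ev (nat_lit 704) (nat_lit 33622016) (.ev (nat_lit 717) (nat_lit
 34359738368) .dd))) (.ch (nat_lit 14) (.ev (nat_lit 704) (nat_lit 34393358336) (.ev (nat_lit 717) (nat_lit
 2048) .dd)))))))))) (.br (nat_lit 7) (.ch (nat_lit 6) (.ev (nat_lit 416) (nat_lit 34393292804) (.nd (nat_lit
 1504) (.br (nat_lit 9) (.br (nat_lit 5) (.br (nat_lit 1) (.ch (nat_lit 0) (.ev (nat_lit 1520) (nat_lit 71680)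
 .dd)) (.ch (nat_lit 1) (.ev (nat_lit 1520) (nat_lit 67584) (.ev (nat_lit 1533) (nat_lit 4096) .dd)))) (.br
 (nat_lit 8) (.ch (nat_lit 5) (.ev (nat_lit 1520) (nat_lit 2048) (.ev (nat_lit 2228) (nat_lit 4096) (.ev
 (nat_lit 2237) (nat_lit 65536) .dd)))) (.ch (nat_lit 8) (.ev (nat_lit 1520) (nat_lit 67584) (.ev (nat_lit
 1533) (nat_lit 4096) .dd))))) (.br (nat_lit 14) (.br (nat_lit 10) (.ch (nat_lit 9) (.ev (nat_lit 1520)
 (nat_lit 67584) (.ev (nat_lit 1533) (nat_lit 4096) .dd))) (.ch (nat_lit 10) (.ev (nat_lit 1520) (nat_lit 4096)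
 (.ev (nat_lit 1556) (nat_lit 2048) (.ev (nat_lit 1565) (nat_lit 65536) .dd))))) (.br (nat_lit 16) (.ch
 (nat_lit 14) (.ev (nat_lit 1520) (nat_lit 6144) (.ev (nat_lit 1533) (nat_lit 65536) .dd))) (.ch (nat_lit 16)
 (.ev (nat_lit 1556) (nat_lit 65536) (.ev (nat_lit 2228) (nat_lit 4096) (.ev (nat_lit 2237) (nat_lit 2048)
 .dd)))))))))) (.ch (nat_lit 7) (.ev (nat_lit 416) (nat_lit 6148) (.nd (nat_lit 688) (.br (nat_lit 9) (.br
 (nat_lit 4) (.br (nat_lit 1) (.ch (nat_lit 0) (.ev (nat_lit 704) (nat_lit 34359738368) (.ev (nat_lit 3988)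
 (nat_lit 33554432) (.ev (nat_lit 3997) (nat_lit 65536) .dd)))) (.ch (nat_lit 1) (.ev (nat_lit 704) (nat_lit
 34393292800) (.ev (nat_lit 717) (nat_lit 65536) .dd)))) (.br (nat_lit 8) (.ch (nat_lit 4) (.ev (nat_lit 704)
 (nat_lit 34359738368) (.ev (nat_lit 1184) (nat_lit 33554432) (.ev (nat_lit 1197) (nat_lit 65536) .dd)))) (.ch
 (nat_lit 8) (.ev (nat_lit 704) (nat_lit 65536) (.nd (nat_lit 3680) (.br (nat_lit 8) (.ch (nat_lit 0) (.ev
 (nat_lit 3696) (nat_lit 33554432) (.ev (nat_lit 3709) (nat_lit 34359738368) .dd))) (.ch (nat_lit 8) (.ev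
 (nat_lit 3748) (nat_lit 33554432) (.ev (nat_lit 3757) (nat_lit 34359738368) .dd))))))))) (.br (nat_lit 14)
 (.br (nat_lit 12) (.ch (nat_lit 9) (.ev (nat_lit 704) (nat_lit 33554432) (.ev (nat_lit 3184) (nat_lit
 34359803904) .dd))) (.ch (nat_lit 12) (.ev (nat_lit 704) (nat_lit 33554432) (.ev (nat_lit 2132) (nat_lit
 65536) (.ev (nat_lit 2141) (nat_lit 34359738368) .dd))))) (.br (nat_lit 15) (.ch (nat_lit 14) (.ev (nat_lit
 704) (nat_lit 65536) (.ev (nat_lit 1764) (nat_lit 33554432) (.ev (nat_lit 1773) (nat_lit 34359738368) .dd))))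
 (.ch (nat_lit 15) (.ev (nat_lit 704) (nat_lit 33619968) (.ev (nat_lit 717) (nat_lit 34359738368)
 .dd))))))))))) (.br (nat_lit 11) (.br (nat_lit 10) (.ch (nat_lit 8) (.ev (nat_lit 416) (nat_lit 34359808004)
 (.nd (nat_lit 1504) (.br (nat_lit 11) (.br (nat_lit 6) (.br (nat_lit 3) (.ch (nat_lit 2) (.ev (nat_lit 1520)
 (nat_lit 2048) (.ev (nat_lit 1533) (nat_lit 33554432) .dd))) (.ch (nat_lit 3) (.ev (nat_lit 1520) (nat_lit
 2048) (.ev (nat_lit 1533) (nat_lit 33554432) .dd)))) (.br (nat_lit 7) (.ch (nat_lit 6) (.ev (nat_lit 1520)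
 (nat_lit 33556480) .dd)) (.ch (nat_lit 7) (.ev (nat_lit 1520) (nat_lit 33556480) .dd)))) (.br (nat_lit 14)
 (.br (nat_lit 12) (.ch (nat_lit 11) (.ev (nat_lit 1520) (nat_lit 33554432) (.ev (nat_lit 1533) (nat_lit 2048)
 .dd))) (.ch (nat_lit 12) (.ev (nat_lit 2036) (nat_lit 2048) (.ev (nat_lit 2045) (nat_lit 33554432) .dd))))
 (.br (nat_lit 16) (.ch (nat_lit 14) (.ev (nat_lit 1520) (nat_lit 33556480) .dd)) (.ch (nat_lit 16) (.ev
 (nat_lit 1520) (nat_lit 33556480) .dd)))))))) (.ch (nat_lit 10) (.ev (nat_lit 416) (nat_lit 33556484) (.nd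
 (nat_lit 1504) (.br (nat_lit 7) (.br (nat_lit 3) (.ch (nat_lit 0) (.ev (nat_lit 1520) (nat_lit 69632) (.ev
 (nat_lit 1533) (nat_lit 34359738368) .dd))) (.br (nat_lit 6) (.ch (nat_lit 3) (.ev (nat_lit 1520) (nat_lit
 34359803904) (.ev (nat_lit 1533) (nat_lit 4096) .dd))) (.ch (nat_lit 6) (.ev (nat_lit 1520) (nat_lit
 34359738368) (.ev (nat_lit 1556) (nat_lit 65536) (.ev (nat_lit 1565) (nat_lit 4096) .dd)))))) (.br (nat_lit
 12) (.ch (nat_lit 7) (.ev (nat_lit 1520) (nat_lit 34359742464) (.ev (nat_lit 1533) (nat_lit 65536) .dd))) (.br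
 (nat_lit 16) (.ch (nat_lit 12) (.ev (nat_lit 1520) (nat_lit 65536) (.ev (nat_lit 2208) (nat_lit 34359742464)
 .dd))) (.ch (nat_lit 16) (.ev (nat_lit 1520) (nat_lit 65536) (.fin (nat_lit 576450306945532475))))))))))) (.br
 (nat_lit 12) (.ch (nat_lit 11) (.ev (nat_lit 416) (nat_lit 34393360384) (.nd (nat_lit 2432) (.br (nat_lit 11)
 (.br (nat_lit 9) (.ch (nat_lit 7) (.ev (nat_lit 2448) (nat_lit 4096) (.ev (nat_lit 2461) (nat_lit 4) .dd)))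
 (.ch (nat_lit 9) (.ev (nat_lit 2448) (nat_lit 4096) (.ev (nat_lit 2461) (nat_lit 4) .dd)))) (.br (nat_lit 13)
 (.ch (nat_lit 11) (.ev (nat_lit 2480) (nat_lit 4096) (.ev (nat_lit 2493) (nat_lit 4) .dd))) (.ch (nat_lit 13)
 (.ev (nat_lit 2564) (nat_lit 4) (.ev (nat_lit 2573) (nat_lit 4096) .dd)))))))) (.br (nat_lit 16) (.ch (nat_lit
 12) (.ev (nat_lit 416) (nat_lit 67588) (.ev (nat_lit 516) (nat_lit 4096) (.nd (nat_lit 688) (.br (nat_lit 8)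
 (.br (nat_lit 5) (.br (nat_lit 1) (.ch (nat_lit 0) (.ev (nat_lit 2724) (nat_lit 33554432) (.ev (nat_lit 2733)
 (nat_lit 34359738368) .dd))) (.ch (nat_lit 1) (.fin (nat_lit 576479993789891144)))) (.br (nat_lit 7) (.ch
 (nat_lit 5) (.ev (nat_lit 704) (nat_lit 34359738368) (.ev (nat_lit 717) (nat_lit 33554432) .dd))) (.ch
 (nat_lit 7) (.ev (nat_lit 1284) (nat_lit 34359738368) (.ev (nat_lit 1293) (nat_lit 33554432) .dd))))) (.br
 (nat_lit 10) (.br (nat_lit 9) (.ch (nat_lit 8) (.ev (nat_lit 704) (nat_lit 34393292800) .dd)) (.ch (nat_lit 9)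
 (.ev (nat_lit 704) (nat_lit 34393292800) .dd))) (.br (nat_lit 15) (.ch (nat_lit 10) (.ev (nat_lit 1184)
 (nat_lit 33554432) (.ev (nat_lit 1197) (nat_lit 34359738368) .dd))) (.ch (nat_lit 15) (.ev (nat_lit 704)
 (nat_lit 33554432) (.ev (nat_lit 717) (nat_lit 34359738368) .dd)))))))))) (.ch (nat_lit 16) (.ev (nat_lit 416)
 (nat_lit 67588) (.ev (nat_lit 516) (nat_lit 4096) (.nd (nat_lit 832) (.br (nat_lit 9) (.br (nat_lit 5) (.br
 (nat_lit 2) (.ch (nat_lit 1) (.ev (nat_lit 848) (nat_lit 33554432) (.ev (nat_lit 861) (nat_lit 34359738368)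
 .dd))) (.ch (nat_lit 2) (.ev (nat_lit 1108) (nat_lit 33554432) (.ev (nat_lit 1117) (nat_lit 34359738368)
 .dd)))) (.br (nat_lit 8) (.ch (nat_lit 5) (.ev (nat_lit 848) (nat_lit 34393292800) .dd)) (.ch (nat_lit 8) (.ev
 (nat_lit 848) (nat_lit 34393292800) .dd)))) (.br (nat_lit 12) (.br (nat_lit 11) (.ch (nat_lit 9) (.ev (nat_lit
 848) (nat_lit 33554432) (.ev (nat_lit 861) (nat_lit 34359738368) .dd))) (.ch (nat_lit 11) (.ev (nat_lit 848)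
 (nat_lit 34393292800) .dd))) (.br (nat_lit 14) (.ch (nat_lit 12) (.ev (nat_lit 848) (nat_lit 33554432) (.ev
 (nat_lit 861) (nat_lit 34359738368) .dd))) (.br (nat_lit 16) (.ch (nat_lit 14) (.ev (nat_lit 2644) (nat_lit
 33554432) (.ev (nat_lit 2653) (nat_lit 34359738368) .dd))) (.ch (nat_lit 16) (.ev (nat_lit 848) (nat_lit
 34393292800) .dd))))))))))))))))) (.br (nat_lit 14) (.ch (nat_lit 13) (.ev (nat_lit 48) (nat_lit 43118592004)
 (.nd (nat_lit 352) (.br (nat_lit 7) (.br (nat_lit 4) (.br (nat_lit 3) (.ch (nat_lit 1) (.ev (nat_lit 368)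
 (nat_lit 524288) (.nd (nat_lit 576) (.br (nat_lit 10) (.br (nat_lit 7) (.br (nat_lit 6) (.ch (nat_lit 4) (.ev
 (nat_lit 592) (nat_lit 73551314944) (.ev (nat_lit 1172) (nat_lit 35184372088832) (.ev (nat_lit 1204) (nat_lit
 268435456) (.ev (nat_lit 1284) (nat_lit 2048) (.ev (nat_lit 1293) (nat_lit 4096) .dd)))))) (.ch (nat_lit 6)
 (.ev (nat_lit 592) (nat_lit 4831844352) (.ev (nat_lit 724) (nat_lit 268435456) (.ev (nat_lit 1012) (nat_lit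
 68719476736) (.ev (nat_lit 1021) (nat_lit 35184372088832) .dd)))))) (.br (nat_lit 8) (.ch (nat_lit 7) (.ev
 (nat_lit 592) (nat_lit 35253360003072) (.ev (nat_lit 1908) (nat_lit 536870912) (.ev (nat_lit 2308) (nat_lit
 4294967296) (.ev (nat_lit 2317) (nat_lit 4096) .dd))))) (.ch (nat_lit 8) (.ev (nat_lit 592) (nat_lit
 35188667062272) (.ev (nat_lit 1764) (nat_lit 536870912) (.ev (nat_lit 2644) (nat_lit 68719476736) (.ev
 (nat_lit 2653) (nat_lit 268435456) .dd))))))) (.br (nat_lit 12) (.br (nat_lit 11) (.ch (nat_lit 10) (.ev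
 (nat_lit 592) (nat_lit 35253896878080) (.ev (nat_lit 605) (nat_lit 4294967296) .dd))) (.ch (nat_lit 11) (.ev
 (nat_lit 592) (nat_lit 68719478784) (.ev (nat_lit 1604) (nat_lit 35184372088832) (.ev (nat_lit 1796) (nat_lit
 536870912) (.nd (nat_lit 3296) (.ch (nat_lit 15) (.ev (nat_lit 3860) (nat_lit 4096) (.nd (nat_lit 4336) (.br
 (nat_lit 15) (.ch (nat_lit 10) (.fin (nat_lit 576493187908452932))) (.ch (nat_lit 15) (.ev (nat_lit 4352)
 (nat_lit 4563402752) .dd)))))))))))) (.br (nat_lit 13) (.ch (nat_lit 12) (.ev (nat_lit 592) (nat_lit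
 35189203927040) (.ev (nat_lit 884) (nat_lit 2048) (.ev (nat_lit 980) (nat_lit 68719476736) (.ev (nat_lit 1316)
 (nat_lit 268435456) (.ev (nat_lit 1325) (nat_lit 4096) .dd)))))) (.br (nat_lit 14) (.ch (nat_lit 13) (.ev
 (nat_lit 592) (nat_lit 68987914240) (.ev (nat_lit 1236) (nat_lit 536870912) (.ev (nat_lit 1908) (nat_lit
 4294967296) (.ev (nat_lit 1940) (nat_lit 4096) (.ev (nat_lit 1949) (nat_lit 35184372088832) .dd)))))) (.ch
 (nat_lit 14) (.ev (nat_lit 592) (nat_lit 68987918336) (.ev (nat_lit 980) (nat_lit 536870912) (.ev (nat_lit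
 2644) (nat_lit 35184372088832) (.ev (nat_lit 2653) (nat_lit 4294967296) .dd)))))))))))) (.ch (nat_lit 3) (.ev
 (nat_lit 368) (nat_lit 35257923403776) (.nd (nat_lit 752) (.br (nat_lit 7) (.br (nat_lit 3) (.br (nat_lit 2)
 (.ch (nat_lit 1) (.ev (nat_lit 980) (nat_lit 528384) (.nd (nat_lit 3712) (.br (nat_lit 15) (.ch (nat_lit 14)
 (.ev (nat_lit 3728) (nat_lit 2048) (.ev (nat_lit 3741) (nat_lit 268435456) .dd))) (.ch (nat_lit 15) (.ev
 (nat_lit 3728) (nat_lit 268435456) (.ev (nat_lit 3741) (nat_lit 2048) .dd))))))) (.ch (nat_lit 2) (.ev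
 (nat_lit 768) (nat_lit 528384) (.ev (nat_lit 1732) (nat_lit 2048) (.ev (nat_lit 1741) (nat_lit 268435456)
 .dd))))) (.br (nat_lit 6) (.ch (nat_lit 3) (.ev (nat_lit 768) (nat_lit 268437504) (.ev (nat_lit 1284) (nat_lit
 4096) (.ev (nat_lit 1293) (nat_lit 524288) .dd)))) (.ch (nat_lit 6) (.ev (nat_lit 768) (nat_lit 528384) (.ev
 (nat_lit 1204) (nat_lit 268435456) (.ev (nat_lit 1213) (nat_lit 2048) .dd)))))) (.br (nat_lit 11) (.br
 (nat_lit 10) (.ch (nat_lit 7) (.ev (nat_lit 768) (nat_lit 268437504) (.ev (nat_lit 2036) (nat_lit 4096) (.ev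
 (nat_lit 2045) (nat_lit 524288) .dd)))) (.ch (nat_lit 10) (.ev (nat_lit 768) (nat_lit 268959744) (.ev (nat_lit
 788) (nat_lit 2048) (.ev (nat_lit 797) (nat_lit 4096) .dd))))) (.br (nat_lit 12) (.ch (nat_lit 11) (.ev
 (nat_lit 768) (nat_lit 2048) (.ev (nat_lit 2576) (nat_lit 524288) (.nd (nat_lit 3952) (.br (nat_lit 15) (.ch
 (nat_lit 7) (.ev (nat_lit 3968) (nat_lit 268435456) (.ev (nat_lit 3981) (nat_lit 4096) .dd))) (.ch (nat_lit
 15) (.ev (nat_lit 3968) (nat_lit 4096) (.ev (nat_lit 3981) (nat_lit 268435456) .dd)))))))) (.br (nat_lit 16)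
 (.ch (nat_lit 12) (.ev (nat_lit 768) (nat_lit 268963840) (.ev (nat_lit 781) (nat_lit 2048) .dd))) (.ch
 (nat_lit 16) (.ev (nat_lit 768) (nat_lit 268441600) (.ev (nat_lit 781) (nat_lit 524288) .dd))))))))))) (.br
 (nat_lit 6) (.ch (nat_lit 4) (.ev (nat_lit 368) (nat_lit 73283403776) (.nd (nat_lit 832) (.br (nat_lit 6) (.br
 (nat_lit 4) (.br (nat_lit 3) (.ch (nat_lit 2) (.ev (nat_lit 848) (nat_lit 536877056) (.ev (nat_lit 861)
 (nat_lit 35184372088832) .dd))) (.ch (nat_lit 3) (.ev (nat_lit 848) (nat_lit 536870912) (.ev (nat_lit 1776)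
 (nat_lit 35184372088832) (.ev (nat_lit 1808) (nat_lit 4096) (.ev (nat_lit 1821) (nat_lit 2048) .dd)))))) (.br
 (nat_lit 5) (.ch (nat_lit 4) (.ev (nat_lit 848) (nat_lit 6144) (.ev (nat_lit 2240) (nat_lit 35184908959744)
 .dd))) (.ch (nat_lit 5) (.ev (nat_lit 848) (nat_lit 536870912) (.ev (nat_lit 2644) (nat_lit 4096) (.ev
 (nat_lit 2980) (nat_lit 2048) (.ev (nat_lit 2989) (nat_lit 35184372088832) .dd))))))) (.br (nat_lit 9) (.br
 (nat_lit 8) (.ch (nat_lit 6) (.ev (nat_lit 848) (nat_lit 35184908961792) (.ev (nat_lit 861) (nat_lit 4096)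
 .dd))) (.ch (nat_lit 8) (.ev (nat_lit 848) (nat_lit 4096) (.ev (nat_lit 1568) (nat_lit 35184372088832) (.ev
 (nat_lit 2564) (nat_lit 536870912) (.ev (nat_lit 2573) (nat_lit 2048) .dd)))))) (.br (nat_lit 10) (.ch
 (nat_lit 9) (.ev (nat_lit 848) (nat_lit 35184372094976) (.ev (nat_lit 861) (nat_lit 536870912) .dd))) (.br
 (nat_lit 14) (.ch (nat_lit 10) (.ev (nat_lit 848) (nat_lit 35184908959744) (.fin (nat_lit
 576475595690951213)))) (.ch (nat_lit 14) (.ev (nat_lit 848) (nat_lit 35184908959744) (.ev (nat_lit 2644)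
 (nat_lit 4096) (.ev (nat_lit 2653) (nat_lit 2048) .dd))))))))))) (.ch (nat_lit 6) (.ev (nat_lit 368) (nat_lit
 35257387063296) (.ev (nat_lit 2052) (nat_lit 268435456) (.ev (nat_lit 2061) (nat_lit 536870912) .dd)))))) (.br
 (nat_lit 13) (.br (nat_lit 10) (.ch (nat_lit 7) (.ev (nat_lit 368) (nat_lit 69524787200) (.nd (nat_lit 832)
 (.br (nat_lit 6) (.br (nat_lit 2) (.br (nat_lit 1) (.ch (nat_lit 0) (.ev (nat_lit 848) (nat_lit 524288) (.ev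
 (nat_lit 868) (nat_lit 4294967296) (.ev (nat_lit 2196) (nat_lit 35184372088832) (.ev (nat_lit 2205) (nat_lit
 2048) .dd))))) (.ch (nat_lit 1) (.ev (nat_lit 848) (nat_lit 35188667056128) (.ev (nat_lit 2724) (nat_lit
 524288) (.ev (nat_lit 2733) (nat_lit 2048) .dd))))) (.br (nat_lit 4) (.ch (nat_lit 2) (.ev (nat_lit 848)
 (nat_lit 35184372090880) (.ev (nat_lit 992) (nat_lit 524288) (.ev (nat_lit 1005) (nat_lit 4294967296) .dd))))
 (.ch (nat_lit 4) (.ev (nat_lit 848) (nat_lit 35184372615168) (.ev (nat_lit 861) (nat_lit 4294967296) .dd)))))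
 (.br (nat_lit 10) (.br (nat_lit 9) (.ch (nat_lit 6) (.ev (nat_lit 848) (nat_lit 35184372088832) (.ev (nat_lit
 2644) (nat_lit 524288) (.ev (nat_lit 2852) (nat_lit 2048) (.ev (nat_lit 2861) (nat_lit 4294967296) .dd)))))
 (.ch (nat_lit 9) (.ev (nat_lit 848) (nat_lit 4294969344) (.ev (nat_lit 1556) (nat_lit 524288) (.ev (nat_lit
 1565) (nat_lit 35184372088832) .dd))))) (.br (nat_lit 12) (.ch (nat_lit 10) (.ev (nat_lit 848) (nat_lit
 35188667058176) (.ev (nat_lit 861) (nat_lit 524288) .dd))) (.ch (nat_lit 12) (.ev (nat_lit 848) (nat_lit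
 35184372615168) (.ev (nat_lit 861) (nat_lit 4294967296) .dd))))))))) (.ch (nat_lit 10) (.ev (nat_lit 368)
 (nat_lit 35253360003072) (.nd (nat_lit 944) (.br (nat_lit 11) (.br (nat_lit 8) (.br (nat_lit 5) (.ch (nat_lit
 0) (.ev (nat_lit 960) (nat_lit 537399296) (.ev (nat_lit 973) (nat_lit 4294967296) .dd))) (.ch (nat_lit 5) (.ev
 (nat_lit 960) (nat_lit 4294971392) (.fin (nat_lit 576448107922276936))))) (.br (nat_lit 10) (.ch (nat_lit 8)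
 (.ev (nat_lit 960) (nat_lit 4096) (.ev (nat_lit 1428) (nat_lit 524288) (.ev (nat_lit 2372) (nat_lit
 4294967296) (.ev (nat_lit 2381) (nat_lit 536870912) .dd))))) (.ch (nat_lit 10) (.ev (nat_lit 960) (nat_lit
 4295495680) (.ev (nat_lit 973) (nat_lit 536870912) .dd))))) (.br (nat_lit 15) (.br (nat_lit 14) (.ch (nat_lit
 11) (.ev (nat_lit 960) (nat_lit 536870912) (.ev (nat_lit 2404) (nat_lit 524288) (.ev (nat_lit 2932) (nat_lit
 4096) (.ev (nat_lit 2941) (nat_lit 4294967296) .dd))))) (.ch (nat_lit 14) (.ev (nat_lit 960) (nat_lit 4096)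
 (.ev (nat_lit 1396) (nat_lit 536870912) (.ev (nat_lit 1732) (nat_lit 524288) (.ev (nat_lit 1741) (nat_lit
 4294967296) .dd)))))) (.br (nat_lit 16) (.ch (nat_lit 15) (.ev (nat_lit 960) (nat_lit 4294967296) (.ev
 (nat_lit 1428) (nat_lit 537395200) (.ev (nat_lit 1437) (nat_lit 4096) .dd)))) (.ch (nat_lit 16) (.ev (nat_lit
 960) (nat_lit 4832362496) (.ev (nat_lit 973) (nat_lit 4096) .dd)))))))))) (.br (nat_lit 14) (.ch (nat_lit 13)
 (.ev (nat_lit 368) (nat_lit 35184909484032) (.nd (nat_lit 688) (.br (nat_lit 7) (.br (nat_lit 4) (.br (nat_lit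
 3) (.ch (nat_lit 2) (.ev (nat_lit 704) (nat_lit 73282879488) (.ev (nat_lit 868) (nat_lit 4096) (.ev (nat_lit
 877) (nat_lit 2048) .dd)))) (.ch (nat_lit 3) (.ev (nat_lit 704) (nat_lit 73282881536) (.ev (nat_lit 717)
 (nat_lit 4096) .dd)))) (.br (nat_lit 6) (.ch (nat_lit 4) (.ev (nat_lit 704) (nat_lit 73014448128) (.ev
 (nat_lit 1092) (nat_lit 2048) (.ev (nat_lit 1101) (nat_lit 268435456) .dd)))) (.ch (nat_lit 6) (.ev (nat_lit
 704) (nat_lit 4294969344) (.ev (nat_lit 1236) (nat_lit 4096) (.ev (nat_lit 2592) (nat_lit 68987912192)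
 .dd)))))) (.br (nat_lit 10) (.br (nat_lit 9) (.ch (nat_lit 7) (.ev (nat_lit 704) (nat_lit 4563408896) (.ev
 (nat_lit 717) (nat_lit 68719476736) .dd))) (.ch (nat_lit 9) (.ev (nat_lit 704) (nat_lit 4563402752) (.ev
 (nat_lit 1796) (nat_lit 4096) (.ev (nat_lit 2576) (nat_lit 68719478784) .dd))))) (.br (nat_lit 11) (.ch
 (nat_lit 10) (.ev (nat_lit 704) (nat_lit 268437504) (.ev (nat_lit 932) (nat_lit 68719476736) (.ev (nat_lit
 1668) (nat_lit 4096) (.ev (nat_lit 1677) (nat_lit 4294967296) .dd))))) (.ch (nat_lit 11) (.ev (nat_lit 704)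
 (nat_lit 268441600) (.ev (nat_lit 804) (nat_lit 68719476736) (.ev (nat_lit 813) (nat_lit 4294967296)
 .dd)))))))))) (.br (nat_lit 16) (.ch (nat_lit 14) (.ev (nat_lit 368) (nat_lit 69256878080) (.nd (nat_lit 832)
 (.br (nat_lit 9) (.br (nat_lit 2) (.ch (nat_lit 1) (.ev (nat_lit 848) (nat_lit 35184372088832) (.ev (nat_lit
 884) (nat_lit 4294967296) (.ev (nat_lit 893) (nat_lit 268435456) .dd)))) (.br (nat_lit 7) (.ch (nat_lit 2)
 (.ev (nat_lit 848) (nat_lit 4294967296) (.ev (nat_lit 1876) (nat_lit 268435456) (.ev (nat_lit 1885) (nat_lit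
 35184372088832) .dd)))) (.ch (nat_lit 7) (.ev (nat_lit 848) (nat_lit 35188667056128) (.ev (nat_lit 861)
 (nat_lit 268435456) .dd))))) (.br (nat_lit 13) (.br (nat_lit 12) (.ch (nat_lit 9) (.ev (nat_lit 848) (nat_lit
 4563402752) (.ev (nat_lit 861) (nat_lit 35184372088832) .dd))) (.ch (nat_lit 12) (.ev (nat_lit 848) (nat_lit
 268435456) (.ev (nat_lit 1876) (nat_lit 4294967296) (.ev (nat_lit 1885) (nat_lit 35184372088832) .dd))))) (.br
 (nat_lit 16) (.ch (nat_lit 13) (.ev (nat_lit 848) (nat_lit 35188935491584) .dd)) (.ch (nat_lit 16) (.ev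
 (nat_lit 848) (nat_lit 4563402752) (.ev (nat_lit 861) (nat_lit 35184372088832) .dd))))))))) (.ch (nat_lit 16)
 (.ev (nat_lit 368) (nat_lit 73283409920) (.ev (nat_lit 2772) (nat_lit 536870912) (.ev (nat_lit 2781) (nat_lit
 35184372088832) .dd))))))))))) (.ch (nat_lit 14) (.ev (nat_lit 48) (nat_lit 35262252488704) (.nd (nat_lit 352)
 (.br (nat_lit 8) (.br (nat_lit 6) (.br (nat_lit 5) (.ch (nat_lit 4) (.ev (nat_lit 368) (nat_lit 4564451332)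
 (.nd (nat_lit 944) (.br (nat_lit 11) (.br (nat_lit 2) (.br (nat_lit 1) (.ch (nat_lit 0) (.ev (nat_lit 960)
 (nat_lit 134283264) (.ev (nat_lit 973) (nat_lit 34359738368) .dd))) (.ch (nat_lit 1) (.ev (nat_lit 960)
 (nat_lit 134217728) (.ev (nat_lit 2196) (nat_lit 65536) (.ev (nat_lit 2205) (nat_lit 34359738368) .dd)))))
 (.br (nat_lit 7) (.ch (nat_lit 2) (.ev (nat_lit 960) (nat_lit 34359803904) (.ev (nat_lit 973) (nat_lit
 134217728) .dd))) (.ch (nat_lit 7) (.ev (nat_lit 960) (nat_lit 65536) (.ev (nat_lit 1712) (nat_lit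
 34493956096) .dd))))) (.br (nat_lit 13) (.br (nat_lit 12) (.ch (nat_lit 11) (.ev (nat_lit 960) (nat_lit
 34359738368) (.ev (nat_lit 1536) (nat_lit 134283264) .dd))) (.ch (nat_lit 12) (.ev (nat_lit 960) (nat_lit
 34359803904) (.ev (nat_lit 973) (nat_lit 134217728) .dd)))) (.br (nat_lit 15) (.ch (nat_lit 13) (.ev (nat_lit
 960) (nat_lit 34494021632) .dd)) (.br (nat_lit 16) (.ch (nat_lit 15) (.ev (nat_lit 1172) (nat_lit 134217728)
 (.ev (nat_lit 1876) (nat_lit 65536) (.ev (nat_lit 1885) (nat_lit 34359738368) .dd)))) (.ch (nat_lit 16) (.ev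
 (nat_lit 960) (nat_lit 134283264) (.ev (nat_lit 973) (nat_lit 34359738368) .dd)))))))))) (.ch (nat_lit 5) (.ev
 (nat_lit 368) (nat_lit 134283264) (.nd (nat_lit 624) (.br (nat_lit 11) (.br (nat_lit 6) (.br (nat_lit 2) (.ch
 (nat_lit 0) (.ev (nat_lit 640) (nat_lit 4294967296) (.ev (nat_lit 2724) (nat_lit 4) (.ev (nat_lit 3572)
 (nat_lit 268435456) (.nd (nat_lit 4080) (.br (nat_lit 14) (.ch (nat_lit 9) (.fin (nat_lit
 576447008409600567))) (.ch (nat_lit 14) (.ev (nat_lit 4096) (nat_lit 34359738368) (.ev (nat_lit 4109) (nat_lit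
 1048576) .dd))))))))) (.ch (nat_lit 2) (.ev (nat_lit 640) (nat_lit 4296015876) (.ev (nat_lit 1060) (nat_lit
 268435456) (.ev (nat_lit 1069) (nat_lit 34359738368) .dd))))) (.br (nat_lit 10) (.ch (nat_lit 6) (.ev (nat_lit
 640) (nat_lit 38923141120) (.ev (nat_lit 820) (nat_lit 1048576) (.ev (nat_lit 829) (nat_lit 4) .dd)))) (.ch
 (nat_lit 10) (.ev (nat_lit 640) (nat_lit 38655754240) (.ev (nat_lit 1668) (nat_lit 4) (.ev (nat_lit 1677)
 (nat_lit 268435456) .dd)))))) (.br (nat_lit 14) (.br (nat_lit 13) (.ch (nat_lit 11) (.ev (nat_lit 640)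
 (nat_lit 34628173828) (.ev (nat_lit 2288) (nat_lit 1048576) (.ev (nat_lit 2301) (nat_lit 4294967296) .dd))))
 (.ch (nat_lit 13) (.ev (nat_lit 640) (nat_lit 4563402756) (.ev (nat_lit 992) (nat_lit 34359738368) (.ev
 (nat_lit 1005) (nat_lit 1048576) .dd))))) (.br (nat_lit 15) (.ch (nat_lit 14) (.ev (nat_lit 1472) (nat_lit 4)
 (.ev (nat_lit 2644) (nat_lit 4294967296) (.ev (nat_lit 3204) (nat_lit 268435456) (.ev (nat_lit 3488) (nat_lit
 34360786944) .dd))))) (.ch (nat_lit 15) (.ev (nat_lit 640) (nat_lit 4296015872) (.ev (nat_lit 660) (nat_lit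
 34359738368) (.ev (nat_lit 676) (nat_lit 268435456) (.ev (nat_lit 685) (nat_lit 4) .dd)))))))))))) (.br
 (nat_lit 7) (.ch (nat_lit 6) (.ev (nat_lit 368) (nat_lit 34628239364) (.nd (nat_lit 944) (.br (nat_lit 9) (.br
 (nat_lit 7) (.br (nat_lit 4) (.ch (nat_lit 2) (.ev (nat_lit 960) (nat_lit 4430233600) .dd)) (.ch (nat_lit 4)
 (.ev (nat_lit 960) (nat_lit 4429185024) (.ev (nat_lit 973) (nat_lit 1048576) .dd)))) (.br (nat_lit 8) (.ch
 (nat_lit 7) (.ev (nat_lit 960) (nat_lit 1048576) (.ev (nat_lit 1732) (nat_lit 4294967296) (.ev (nat_lit 1741)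
 (nat_lit 134217728) .dd)))) (.ch (nat_lit 8) (.ev (nat_lit 960) (nat_lit 4429185024) (.ev (nat_lit 973)
 (nat_lit 1048576) .dd))))) (.br (nat_lit 13) (.br (nat_lit 11) (.ch (nat_lit 9) (.ev (nat_lit 960) (nat_lit
 4429185024) (.ev (nat_lit 973) (nat_lit 1048576) .dd))) (.ch (nat_lit 11) (.ev (nat_lit 960) (nat_lit
 4429185024) (.ev (nat_lit 973) (nat_lit 1048576) .dd)))) (.br (nat_lit 15) (.ch (nat_lit 13) (.ev (nat_lit
 960) (nat_lit 4294967296) (.ev (nat_lit 980) (nat_lit 1048576) (.ev (nat_lit 989) (nat_lit 134217728) .dd))))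
 (.ch (nat_lit 15) (.ev (nat_lit 960) (nat_lit 135266304) (.ev (nat_lit 973) (nat_lit 4294967296) .dd)))))))))
 (.ch (nat_lit 7) (.ev (nat_lit 368) (nat_lit 38790037508) (.ev (nat_lit 381) (nat_lit 268435456) .dd))))) (.br
 (nat_lit 13) (.br (nat_lit 10) (.ch (nat_lit 8) (.ev (nat_lit 368) (nat_lit 38655819776) (.nd (nat_lit 1360)
 (.br (nat_lit 9) (.br (nat_lit 6) (.br (nat_lit 2) (.ch (nat_lit 1) (.ev (nat_lit 1376) (nat_lit 268435456)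
 (.ev (nat_lit 1396) (nat_lit 4) (.ev (nat_lit 1405) (nat_lit 134217728) .dd)))) (.ch (nat_lit 2) (.ev (nat_lit
 1376) (nat_lit 402653188) .dd))) (.br (nat_lit 8) (.ch (nat_lit 6) (.ev (nat_lit 1376) (nat_lit 4) (.ev
 (nat_lit 1604) (nat_lit 134217728) (.ev (nat_lit 1613) (nat_lit 268435456) .dd)))) (.ch (nat_lit 8) (.ev
 (nat_lit 1376) (nat_lit 134217728) (.ev (nat_lit 2372) (nat_lit 4) (.ev (nat_lit 2381) (nat_lit 268435456)
 .dd)))))) (.br (nat_lit 13) (.br (nat_lit 10) (.ch (nat_lit 9) (.ev (nat_lit 1376) (nat_lit 402653184) (.ev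
 (nat_lit 1389) (nat_lit 4) .dd))) (.ch (nat_lit 10) (.ev (nat_lit 1376) (nat_lit 134217728) (.ev (nat_lit
 2160) (nat_lit 268435460) .dd)))) (.br (nat_lit 14) (.ch (nat_lit 13) (.ev (nat_lit 1396) (nat_lit 4) (.ev
 (nat_lit 2260) (nat_lit 134217728) (.ev (nat_lit 2269) (nat_lit 268435456) .dd)))) (.ch (nat_lit 14) (.ev
 (nat_lit 1376) (nat_lit 268435460) (.ev (nat_lit 1389) (nat_lit 134217728) .dd))))))))) (.ch (nat_lit 10) (.ev
 (nat_lit 368) (nat_lit 4295032832) (.nd (nat_lit 688) (.br (nat_lit 9) (.br (nat_lit 7) (.br (nat_lit 5) (.ch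
 (nat_lit 2) (.ev (nat_lit 704) (nat_lit 403701764) (.ev (nat_lit 717) (nat_lit 34359738368) .dd))) (.ch
 (nat_lit 5) (.ev (nat_lit 704) (nat_lit 34493956096) (.ev (nat_lit 1028) (nat_lit 4) (.ev (nat_lit 1584)
 (nat_lit 1048576) (.ev (nat_lit 1597) (nat_lit 268435456) .dd)))))) (.br (nat_lit 8) (.ch (nat_lit 7) (.ev
 (nat_lit 704) (nat_lit 1048576) (.ev (nat_lit 2564) (nat_lit 4) (.nd (nat_lit 3616) (.br (nat_lit 13) (.ch
 (nat_lit 9) (.ev (nat_lit 3632) (nat_lit 134217728) (.fin (nat_lit 576431615264637518)))) (.ch (nat_lit 13)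
 (.ev (nat_lit 3632) (nat_lit 34628173824) (.ev (nat_lit 3645) (nat_lit 134217728) .dd)))))))) (.ch (nat_lit 8)
 (.ev (nat_lit 704) (nat_lit 268435460) (.nd (nat_lit 3088) (.br (nat_lit 4) (.ch (nat_lit 1) (.ev (nat_lit
 3104) (nat_lit 1048576) (.ev (nat_lit 3152) (nat_lit 34493956096) .dd))) (.br (nat_lit 9) (.ch (nat_lit 4)
 (.ev (nat_lit 3104) (nat_lit 134217728) (.ev (nat_lit 3444) (nat_lit 34359738368) (.ev (nat_lit 3453) (nat_lit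
 1048576) .dd)))) (.ch (nat_lit 9) (.ev (nat_lit 3104) (nat_lit 34493956096) (.ev (nat_lit 3117) (nat_lit
 1048576) .dd)))))))))) (.br (nat_lit 12) (.br (nat_lit 10) (.ch (nat_lit 9) (.ev (nat_lit 704) (nat_lit
 34359738372) (.ev (nat_lit 724) (nat_lit 134217728) (.ev (nat_lit 1796) (nat_lit 268435456) (.ev (nat_lit
 1805) (nat_lit 1048576) .dd))))) (.ch (nat_lit 10) (.ev (nat_lit 704) (nat_lit 34493956100) (.ev (nat_lit
 2772) (nat_lit 1048576) (.ev (nat_lit 2781) (nat_lit 268435456) .dd))))) (.br (nat_lit 14) (.ch (nat_lit 12)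
 (.ev (nat_lit 704) (nat_lit 403701760) (.ev (nat_lit 1460) (nat_lit 34359738368) (.ev (nat_lit 1469) (nat_lit
 4) .dd)))) (.br (nat_lit 15) (.ch (nat_lit 14) (.ev (nat_lit 704) (nat_lit 1048580) (.ev (nat_lit 1236)
 (nat_lit 268435456) (.ev (nat_lit 2096) (nat_lit 134217728) (.ev (nat_lit 2109) (nat_lit 34359738368) .dd)))))
 (.ch (nat_lit 15) (.ev (nat_lit 704) (nat_lit 34628173828) (.ev (nat_lit 1204) (nat_lit 134217728) (.ev
 (nat_lit 1213) (nat_lit 1048576) .dd)))))))))))) (.br (nat_lit 14) (.ch (nat_lit 13) (.ev (nat_lit 368)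
 (nat_lit 34762391556) (.nd (nat_lit 1504) (.br (nat_lit 8) (.br (nat_lit 5) (.ch (nat_lit 3) (.ev (nat_lit
 1556) (nat_lit 4296015872) (.ev (nat_lit 1565) (nat_lit 65536) .dd))) (.br (nat_lit 6) (.ch (nat_lit 5) (.ev
 (nat_lit 1520) (nat_lit 65536) (.ev (nat_lit 1556) (nat_lit 4294967296) (.ev (nat_lit 1565) (nat_lit 1048576)
 .dd)))) (.ch (nat_lit 6) (.ev (nat_lit 1520) (nat_lit 65536) (.ev (nat_lit 1556) (nat_lit 1048576) (.ev
 (nat_lit 1565) (nat_lit 4294967296) .dd)))))) (.br (nat_lit 13) (.ch (nat_lit 8) (.ev (nat_lit 1520) (nat_lit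
 4296015872) (.ev (nat_lit 1533) (nat_lit 65536) .dd))) (.br (nat_lit 15) (.ch (nat_lit 13) (.ev (nat_lit 1520)
 (nat_lit 1048576) (.ev (nat_lit 1604) (nat_lit 4294967296) (.ev (nat_lit 1613) (nat_lit 65536) .dd)))) (.ch
 (nat_lit 15) (.ev (nat_lit 1520) (nat_lit 1048576) (.ev (nat_lit 1556) (nat_lit 4294967296) (.ev (nat_lit
 1565) (nat_lit 65536) .dd)))))))))) (.br (nat_lit 16) (.ch (nat_lit 14) (.ev (nat_lit 368) (nat_lit
 39057424384) (.nd (nat_lit 2432) (.br (nat_lit 11) (.br (nat_lit 7) (.ch (nat_lit 3) (.ev (nat_lit 2448)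
 (nat_lit 1048580) .dd)) (.br (nat_lit 9) (.ch (nat_lit 7) (.ev (nat_lit 2448) (nat_lit 1048580) .dd)) (.ch
 (nat_lit 9) (.ev (nat_lit 2448) (nat_lit 1048576) (.ev (nat_lit 2461) (nat_lit 4) .dd))))) (.br (nat_lit 14)
 (.br (nat_lit 13) (.ch (nat_lit 11) (.ev (nat_lit 2644) (nat_lit 1048576) (.ev (nat_lit 2653) (nat_lit 4)
 .dd))) (.ch (nat_lit 13) (.ev (nat_lit 2448) (nat_lit 1048580) .dd))) (.br (nat_lit 16) (.ch (nat_lit 14) (.ev
 (nat_lit 2448) (nat_lit 1048580) .dd)) (.ch (nat_lit 16) (.ev (nat_lit 2448) (nat_lit 1048576) (.ev (nat_lit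
 2461) (nat_lit 4) .dd))))))))) (.ch (nat_lit 16) (.ev (nat_lit 368) (nat_lit 38655819776) (.ev (nat_lit 388)
 (nat_lit 268435456) (.nd (nat_lit 1504) (.br (nat_lit 14) (.br (nat_lit 5) (.ch (nat_lit 1) (.ev (nat_lit
 1520) (nat_lit 134217728) (.ev (nat_lit 1533) (nat_lit 4) .dd))) (.br (nat_lit 13) (.ch (nat_lit 5) (.ev
 (nat_lit 1520) (nat_lit 134217728) (.ev (nat_lit 1533) (nat_lit 4) .dd))) (.ch (nat_lit 13) (.ev (nat_lit
 1520) (nat_lit 134217732) .dd)))) (.br (nat_lit 15) (.ch (nat_lit 14) (.ev (nat_lit 1520) (nat_lit 4) (.ev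
 (nat_lit 1533) (nat_lit 134217728) .dd))) (.br (nat_lit 16) (.ch (nat_lit 15) (.ev (nat_lit 1520) (nat_lit
 134217732) .dd)) (.ch (nat_lit 16) (.ev (nat_lit 1520) (nat_lit 4) (.ev (nat_lit 1533) (nat_lit 134217728)
 .dd)))))))))))))))))))))))

/-- The trie. -/
noncomputable def T : Tr := .nd (nat_lit 1000000) (.br (nat_lit 7) (.br (nat_lit 2) (.br (nat_lit 1) (.ch
 (nat_lit 0) (.ev (nat_lit 0) (nat_lit 140737488355327) .dd)) (.ch (nat_lit 1) (.ev (nat_lit 0) (nat_lit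
 140737488355327) .dd))) (.br (nat_lit 3) (.ch (nat_lit 2) (.ev (nat_lit 0) (nat_lit 140737488355327) .dd))
 (.br (nat_lit 4) (.ch (nat_lit 3) T3) (.ch (nat_lit 4) (.ev (nat_lit 0) (nat_lit 140737488355327) .dd)))))
 (.br (nat_lit 9) (.br (nat_lit 8) (.ch (nat_lit 7) T7) (.ch (nat_lit 8) (.ev (nat_lit 0) (nat_lit
 140737488355327) .dd))) (.br (nat_lit 15) (.ch (nat_lit 9) T9) (.br (nat_lit 16) (.ch (nat_lit 15) (.ev
 (nat_lit 0) (nat_lit 140737488355327) .dd)) (.ch (nat_lit 16) (.ev (nat_lit 0) (nat_lit 140737488355327)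
 .dd))))))

/-- The possible values. -/
noncomputable def oks : List ℕ := [3, 7, 79, 252, 435, 754, 860, 1438, 2403, 2523, 3913, 5515, 13543]

/-- The parameters. -/
noncomputable def S : Pr := ⟨fun i l e => lget mz (lget [] (lget [] tabs i) l) e, oks, [(nat_lit 0), (nat_lit
 0), (nat_lit 0), (nat_lit 0), (nat_lit 0), (nat_lit 0)], T, (nat_lit 140737488355327), (nat_lit
 12800101590481), (nat_lit 47), [(nat_lit 98583)], [(nat_lit 24137569)]⟩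

/-- Nothing known. -/
noncomputable def cs0 : Cs := (.cons (nat_lit 17) (nat_lit 0) (nat_lit 1) .nil)

theorem part_3 : part S cs0 (nat_lit 3) = true := by decide +kernel

theorem part_7 : part S cs0 (nat_lit 7) = true := by decide +kernel

theorem part_9 : part S cs0 (nat_lit 9) = true := by decide +kernel

/-- Data of a prime. -/
noncomputable def D0 : PD := ⟨(nat_lit 17), (nat_lit 6), (12458655, 6, 5), (17892079, 9049853, 18736650), (19385948, 23138178, 18282424)⟩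

theorem D0_ok : D0.Ok := pdb_sound (s := 3) (C := ⟨⟨3, 18, -19, -23, -2, 4, 2, -5, -7⟩, (3, 11, 2)⟩) (by show Nat.Prime 17; norm_num) (by decide +kernel)

/-- Lines of the first type. -/
noncomputable def Cl0 : List C1 := [⟨⟨23, 2, -19, 3, 18, 16, -2, 5, -5⟩, (14, 7, 1)⟩,
  ⟨⟨3, -18, -19, -23, 2, 4, 2, 5, -7⟩, (1, 15, 12)⟩,
  ⟨⟨-13, 2, -16, -7, 22, 11, 6, 3, -7⟩, (14, 1, 4)⟩,
  ⟨⟨0, 0, 0, 0, 0, 0, 0, 0, 0⟩, (0, 0, 0)⟩,
  ⟨⟨-13, -2, -16, -7, -22, 11, 6, -3, -7⟩, (16, 6, 7)⟩,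
  ⟨⟨0, 0, 0, 0, 0, 0, 0, 0, 0⟩, (0, 0, 0)⟩,
  ⟨⟨0, 0, 0, 0, 0, 0, 0, 0, 0⟩, (0, 0, 0)⟩,
  ⟨⟨0, 0, 0, 0, 0, 0, 0, 0, 0⟩, (0, 0, 0)⟩,
  ⟨⟨13, 2, -29, 7, 22, 4, -6, 3, -1⟩, (9, 14, 5)⟩,
  ⟨⟨0, 0, 0, 0, 0, 0, 0, 0, 0⟩, (0, 0, 0)⟩,
  ⟨⟨0, 0, 0, 0, 0, 0, 0, 0, 0⟩, (0, 0, 0)⟩,
  ⟨⟨0, 0, 0, 0, 0, 0, 0, 0, 0⟩, (0, 0, 0)⟩,
  ⟨⟨0, 0, 0, 0, 0, 0, 0, 0, 0⟩, (0, 0, 0)⟩,
  ⟨⟨0, 0, 0, 0, 0, 0, 0, 0, 0⟩, (0, 0, 0)⟩,
  ⟨⟨0, 0, 0, 0, 0, 0, 0, 0, 0⟩, (0, 0, 0)⟩,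
  ⟨⟨23, -2, -19, 3, -18, 16, -2, -5, -5⟩, (16, 8, 6)⟩,
  ⟨⟨13, -2, -29, 7, -22, 4, -6, -3, -1⟩, (11, 2, 8)⟩]

/-- Data of a prime. -/
noncomputable def Dm : PD := ⟨(nat_lit 47), (nat_lit 2), (1034, 1, 9), (105, 517, 2039), (987, 5, 190)⟩

theorem Dm_ok : Dm.Ok := pdb_sound (s := 1) (C := ⟨⟨47, 2, -76, 47, -2, 29, 0, -21, -1⟩, (2, 45, 26)⟩) (by show Nat.Prime 47; norm_num) (by decide +kernel)

/-- Lines of the first type. -/
noncomputable def Clm : List C1 := [⟨⟨47, -2, -76, 47, 2, 29, 0, 21, -1⟩, (9, 38, 23)⟩,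
  ⟨⟨0, 0, 0, 0, 0, 0, 0, 0, 0⟩, (0, 0, 0)⟩,
  ⟨⟨0, 0, 0, 0, 0, 0, 0, 0, 0⟩, (0, 0, 0)⟩,
  ⟨⟨0, 0, 0, 0, 0, 0, 0, 0, 0⟩, (0, 0, 0)⟩,
  ⟨⟨17, 22, -76, -63, 18, 19, -4, -19, -7⟩, (10, 21, 17)⟩,
  ⟨⟨0, 0, 0, 0, 0, 0, 0, 0, 0⟩, (0, 0, 0)⟩,
  ⟨⟨57, -18, -61, -23, -62, 4, -8, 5, -17⟩, (3, 26, 7)⟩,
  ⟨⟨57, 18, -61, -23, 62, 4, -8, -5, -17⟩, (16, 29, 6)⟩,
  ⟨⟨53, -22, -64, -13, -62, 29, -12, -3, -13⟩, (46, 10, 2)⟩,
  ⟨⟨0, 0, 0, 0, 0, 0, 0, 0, 0⟩, (0, 0, 0)⟩,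
  ⟨⟨43, -38, -59, 3, -42, 56, -16, -11, -1⟩, (35, 9, 46)⟩,
  ⟨⟨0, 0, 0, 0, 0, 0, 0, 0, 0⟩, (0, 0, 0)⟩,
  ⟨⟨0, 0, 0, 0, 0, 0, 0, 0, 0⟩, (0, 0, 0)⟩,
  ⟨⟨-17, -22, -59, -63, 18, 44, 4, 19, -11⟩, (15, 39, 2)⟩,
  ⟨⟨0, 0, 0, 0, 0, 0, 0, 0, 0⟩, (0, 0, 0)⟩,
  ⟨⟨0, 0, 0, 0, 0, 0, 0, 0, 0⟩, (0, 0, 0)⟩,
  ⟨⟨0, 0, 0, 0, 0, 0, 0, 0, 0⟩, (0, 0, 0)⟩,
  ⟨⟨53, 22, -64, -13, 62, 29, -12, 3, -13⟩, (41, 13, 12)⟩,
  ⟨⟨0, 0, 0, 0, 0, 0, 0, 0, 0⟩, (0, 0, 0)⟩,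
  ⟨⟨0, 0, 0, 0, 0, 0, 0, 0, 0⟩, (0, 0, 0)⟩,
  ⟨⟨0, 0, 0, 0, 0, 0, 0, 0, 0⟩, (0, 0, 0)⟩,
  ⟨⟨0, 0, 0, 0, 0, 0, 0, 0, 0⟩, (0, 0, 0)⟩,
  ⟨⟨0, 0, 0, 0, 0, 0, 0, 0, 0⟩, (0, 0, 0)⟩,
  ⟨⟨43, 38, -59, 3, 42, 56, -16, 11, -1⟩, (5, 8, 20)⟩,
  ⟨⟨3, -42, -59, 43, -38, 16, 16, 11, -17⟩, (39, 42, 20)⟩,
  ⟨⟨0, 0, 0, 0, 0, 0, 0, 0, 0⟩, (0, 0, 0)⟩,
  ⟨⟨0, 0, 0, 0, 0, 0, 0, 0, 0⟩, (0, 0, 0)⟩,
  ⟨⟨0, 0, 0, 0, 0, 0, 0, 0, 0⟩, (0, 0, 0)⟩,
  ⟨⟨0, 0, 0, 0, 0, 0, 0, 0, 0⟩, (0, 0, 0)⟩,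
  ⟨⟨0, 0, 0, 0, 0, 0, 0, 0, 0⟩, (0, 0, 0)⟩,
  ⟨⟨-13, -62, -16, 53, -22, 11, 12, 3, -25⟩, (34, 6, 12)⟩,
  ⟨⟨0, 0, 0, 0, 0, 0, 0, 0, 0⟩, (0, 0, 0)⟩,
  ⟨⟨0, 0, 0, 0, 0, 0, 0, 0, 0⟩, (0, 0, 0)⟩,
  ⟨⟨0, 0, 0, 0, 0, 0, 0, 0, 0⟩, (0, 0, 0)⟩,
  ⟨⟨17, -22, -76, -63, -18, 19, -4, 19, -7⟩, (15, 8, 2)⟩,
  ⟨⟨0, 0, 0, 0, 0, 0, 0, 0, 0⟩, (0, 0, 0)⟩,
  ⟨⟨0, 0, 0, 0, 0, 0, 0, 0, 0⟩, (0, 0, 0)⟩,
  ⟨⟨3, 42, -59, 43, 38, 16, 16, -11, -17⟩, (38, 12, 46)⟩,
  ⟨⟨0, 0, 0, 0, 0, 0, 0, 0, 0⟩, (0, 0, 0)⟩,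
  ⟨⟨-13, 62, -16, 53, 22, 11, 12, -3, -25⟩, (37, 1, 2)⟩,
  ⟨⟨23, 62, -19, 57, -18, 4, 8, -5, -25⟩, (29, 31, 6)⟩,
  ⟨⟨23, -62, -19, 57, 18, 4, 8, 5, -25⟩, (26, 44, 7)⟩,
  ⟨⟨0, 0, 0, 0, 0, 0, 0, 0, 0⟩, (0, 0, 0)⟩,
  ⟨⟨-17, 22, -59, -63, -18, 44, 4, -19, -11⟩, (10, 26, 17)⟩,
  ⟨⟨0, 0, 0, 0, 0, 0, 0, 0, 0⟩, (0, 0, 0)⟩,
  ⟨⟨0, 0, 0, 0, 0, 0, 0, 0, 0⟩, (0, 0, 0)⟩,
  ⟨⟨0, 0, 0, 0, 0, 0, 0, 0, 0⟩, (0, 0, 0)⟩]

/-- Unit moves. -/
noncomputable def U : List Mv := [mz,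
  mz,
  mz,
  mz,
  mz,
  ⟨⟨-1, 0, 1, 0, -1, 0, 0, 0, 1⟩, .nil, (nat_lit 0), (nat_lit 15), (nat_lit 1), (nat_lit 0), (0, 0, 0), [], 2⟩,
  ⟨⟨-1, 0, 1, 0, 1, 0, 0, 0, 1⟩, .nil, (nat_lit 16), (nat_lit 1), (nat_lit 9), (nat_lit 1), (0, 0, 0), [], 10⟩,
  mz,
  mz,
  mz,
  ⟨⟨1, 0, 0, 0, -1, 0, 0, 0, 1⟩, .nil, (nat_lit 16), (nat_lit 15), (nat_lit 16), (nat_lit 1), (0, 0, 0), [], 3⟩,
  ⟨⟨1, 0, 0, 0, -1, 0, 0, 0, 1⟩, .nil, (nat_lit 16), (nat_lit 15), (nat_lit 16), (nat_lit 1), (0, 0, 0), [], 3⟩,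
  ⟨⟨1, 0, 0, 0, -1, 0, 0, 0, 1⟩, .nil, (nat_lit 16), (nat_lit 15), (nat_lit 16), (nat_lit 1), (0, 0, 0), [], 3⟩,
  ⟨⟨-1, 0, 1, 0, -1, 0, 0, 0, 1⟩, .nil, (nat_lit 0), (nat_lit 15), (nat_lit 1), (nat_lit 0), (0, 0, 0), [], 2⟩,
  ⟨⟨-1, 0, 1, 0, 1, 0, 0, 0, 1⟩, .nil, (nat_lit 16), (nat_lit 1), (nat_lit 9), (nat_lit 1), (0, 0, 0), [], 10⟩,
  mz,
  mz]

theorem v_ty : tyb Dm S.ty1 Clm = true := by decide +kernel

theorem v_ty0 : tyb D0 (S.tys.getD 0 0) Cl0 = true := by decide +kernel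

theorem v_msc : mscb S D0 [] Dm (nat_lit 648) = true := by decide +kernel

theorem v_mv0 : mvsn (nat_lit 53319889921) S D0 [] Dm (nat_lit 648) 0 D0 = true := by decide +kernel

theorem v_mm : mmsn (nat_lit 53319889921) S D0 [] Dm (nat_lit 648) = true := by decide +kernel

theorem v_un : unb S D0 (nat_lit 648) U = true := by decide +kernel

theorem v_ok : okb S.oks [(0, 0, 0), (0, 0, 0), (0, 0, 0), (0, 0, 0), (5, 20, 1), (0, 0, 0), (0, 0, 0), (0, 0, 0), (32, 37, 1), (8, 47, 5), (13, 48, 12), (9, 72, 5), (22, 93, 21)] = true := by decide +kernel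

theorem v_part : ∀ d < D0.p, (nat_lit 648).testBit d = true → part S (zc (D0 :: [])) d = true := by
  intro d hd h
  have h1 : ∀ d < 17, (nat_lit 648).testBit d = true → d = 3 ∨ d = 7 ∨ d = 9 := by decide
  rcases h1 d hd h with rfl | rfl | rfl
  · exact part_3
  · exact part_7
  · exact part_9

theorem main (n : ℕ) (ho : Odd n) (hr : ¬ Rep n) (h0 : Split 17 n) (hm : Split 47 n) :
    n ∈ EE := by
  refine concln (W := nat_lit 53319889921) (S := S) (P0 := D0) (Pl := []) (Pm := Dm) (cn := nat_lit 648) ?_ Dm_ok v_ty ?_ ?_ v_msc ?_ v_mm v_un v_part v_ok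
    n ho hr ?_ hm
  · simp only [List.forall_mem_cons]
    exact ⟨D0_ok, fun _ h => absurd h (by simp)⟩
  · exact all1 (φ := fun j P => ∃ L, tyb P (S.tys.getD j 0) L = true) ⟨_, v_ty0⟩
  · exact all1 (φ := fun j P => Nat.ble (S.pks.getD j 0) (Nat.pow P.p P.K) = true) (by decide +kernel)
  · exact all1 (φ := fun i P => mvsn (nat_lit 53319889921) S D0 [] Dm (nat_lit 648) i P = true) v_mv0
  · simp only [List.forall_mem_cons]
    exact ⟨h0, fun _ h => absurd h (by simp)⟩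

end Pool.Agent.Work.MP_9954fe_nt.P17_47

namespace Pool.Agent.Work.MP_9954fe_nt.P31_47_53

/-- Dummy move. -/
noncomputable def mz : Mv := ⟨⟨0, 0, 0, 0, 0, 0, 0, 0, 0⟩, .nil, (nat_lit 0), (nat_lit 0), (nat_lit 0), (nat_lit 0), (0, 0, 0), [], 0⟩

/-- Moves. -/
noncomputable def t0_1 : List Mv := [
  ⟨⟨3, 20, 29, -4, 25, -18, 26, 8, -7⟩, (.cons (nat_lit 10329) (nat_lit 21285) (nat_lit 4930) (nat_lit 1)
 (.cons (nat_lit 1951) (nat_lit 291) (nat_lit 25) (nat_lit 1) .nil)), (nat_lit 31), (nat_lit 5), (nat_lit 37),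
 (nat_lit 1), (26, 17, 29), [819, 1578], 4⟩,
  ⟨⟨23, -12, -36, -4, 25, -18, 26, 8, -7⟩, (.cons (nat_lit 3271) (nat_lit 12916) (nat_lit 935) (nat_lit 1)
 (.cons (nat_lit 634) (nat_lit 2106) (nat_lit 1999) (nat_lit 1) .nil)), (nat_lit 36), (nat_lit 15), (nat_lit
 19), (nat_lit 1), (3, 17, 29), [21957, 779], 19⟩,
  ⟨⟨3, 20, 29, -4, 25, -18, 26, 8, -7⟩, (.cons (nat_lit 10329) (nat_lit 21285) (nat_lit 4930) (nat_lit 1)
 (.cons (nat_lit 1951) (nat_lit 291) (nat_lit 25) (nat_lit 1) .nil)), (nat_lit 31), (nat_lit 5), (nat_lit 37),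
 (nat_lit 1), (26, 17, 29), [819, 1578], 4⟩,
  ⟨⟨3, 20, 29, -4, 25, -18, 26, 8, -7⟩, (.cons (nat_lit 10329) (nat_lit 21285) (nat_lit 4930) (nat_lit 1)
 (.cons (nat_lit 1951) (nat_lit 291) (nat_lit 25) (nat_lit 1) .nil)), (nat_lit 31), (nat_lit 5), (nat_lit 37),
 (nat_lit 1), (26, 17, 29), [819, 1578], 4⟩,
  ⟨⟨23, -12, -36, -4, 25, -18, 26, 8, -7⟩, (.cons (nat_lit 3271) (nat_lit 12916) (nat_lit 935) (nat_lit 1)
 (.cons (nat_lit 634) (nat_lit 2106) (nat_lit 1999) (nat_lit 1) .nil)), (nat_lit 36), (nat_lit 15), (nat_lit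
 19), (nat_lit 1), (3, 17, 29), [21957, 779], 19⟩,
  ⟨⟨3, 20, 29, -4, 25, -18, 26, 8, -7⟩, (.cons (nat_lit 10329) (nat_lit 21285) (nat_lit 4930) (nat_lit 1)
 (.cons (nat_lit 1951) (nat_lit 291) (nat_lit 25) (nat_lit 1) .nil)), (nat_lit 31), (nat_lit 5), (nat_lit 37),
 (nat_lit 1), (26, 17, 29), [819, 1578], 4⟩,
  ⟨⟨3, 20, 29, -4, 25, -18, 26, 8, -7⟩, (.cons (nat_lit 10329) (nat_lit 21285) (nat_lit 4930) (nat_lit 1)
 (.cons (nat_lit 1951) (nat_lit 291) (nat_lit 25) (nat_lit 1) .nil)), (nat_lit 31), (nat_lit 5), (nat_lit 37),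
 (nat_lit 1), (26, 17, 29), [819, 1578], 4⟩,
  ⟨⟨23, -12, -36, 4, -25, 18, 26, 8, -7⟩, (.cons (nat_lit 10345) (nat_lit 11678) (nat_lit 29062) (nat_lit 1)
 (.cons (nat_lit 416) (nat_lit 434) (nat_lit 692) (nat_lit 1) .nil)), (nat_lit 20), (nat_lit 12), (nat_lit 38),
 (nat_lit 1), (3, 14, 29), [26410, 1800], 1⟩,
  ⟨⟨3, 20, 29, -4, 25, -18, 26, 8, -7⟩, (.cons (nat_lit 10329) (nat_lit 21285) (nat_lit 4930) (nat_lit 1)
 (.cons (nat_lit 1951) (nat_lit 291) (nat_lit 25) (nat_lit 1) .nil)), (nat_lit 31), (nat_lit 5), (nat_lit 37),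
 (nat_lit 1), (26, 17, 29), [819, 1578], 4⟩,
  ⟨⟨23, -12, -36, 4, -25, 18, 26, 8, -7⟩, (.cons (nat_lit 10345) (nat_lit 11678) (nat_lit 29062) (nat_lit 1)
 (.cons (nat_lit 416) (nat_lit 434) (nat_lit 692) (nat_lit 1) .nil)), (nat_lit 20), (nat_lit 12), (nat_lit 38),
 (nat_lit 1), (3, 14, 29), [26410, 1800], 1⟩,
  ⟨⟨3, 20, 29, -4, 25, -18, 26, 8, -7⟩, (.cons (nat_lit 10329) (nat_lit 21285) (nat_lit 4930) (nat_lit 1)
 (.cons (nat_lit 1951) (nat_lit 291) (nat_lit 25) (nat_lit 1) .nil)), (nat_lit 31), (nat_lit 5), (nat_lit 37),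
 (nat_lit 1), (26, 17, 29), [819, 1578], 4⟩,
  ⟨⟨23, -12, -36, -4, 25, -18, 26, 8, -7⟩, (.cons (nat_lit 3271) (nat_lit 12916) (nat_lit 935) (nat_lit 1)
 (.cons (nat_lit 634) (nat_lit 2106) (nat_lit 1999) (nat_lit 1) .nil)), (nat_lit 36), (nat_lit 15), (nat_lit
 19), (nat_lit 1), (3, 17, 29), [21957, 779], 19⟩,
  ⟨⟨3, 20, 29, -4, 25, -18, 26, 8, -7⟩, (.cons (nat_lit 10329) (nat_lit 21285) (nat_lit 4930) (nat_lit 1)
 (.cons (nat_lit 1951) (nat_lit 291) (nat_lit 25) (nat_lit 1) .nil)), (nat_lit 31), (nat_lit 5), (nat_lit 37),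
 (nat_lit 1), (26, 17, 29), [819, 1578], 4⟩,
  ⟨⟨23, -12, -36, 4, -25, 18, 26, 8, -7⟩, (.cons (nat_lit 10345) (nat_lit 11678) (nat_lit 29062) (nat_lit 1)
 (.cons (nat_lit 416) (nat_lit 434) (nat_lit 692) (nat_lit 1) .nil)), (nat_lit 20), (nat_lit 12), (nat_lit 38),
 (nat_lit 1), (3, 14, 29), [26410, 1800], 1⟩,
  ⟨⟨3, 20, 29, -4, 25, -18, 26, 8, -7⟩, (.cons (nat_lit 10329) (nat_lit 21285) (nat_lit 4930) (nat_lit 1)
 (.cons (nat_lit 1951) (nat_lit 291) (nat_lit 25) (nat_lit 1) .nil)), (nat_lit 31), (nat_lit 5), (nat_lit 37),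
 (nat_lit 1), (26, 17, 29), [819, 1578], 4⟩,
  ⟨⟨3, 20, 29, -4, 25, -18, 26, 8, -7⟩, (.cons (nat_lit 10329) (nat_lit 21285) (nat_lit 4930) (nat_lit 1)
 (.cons (nat_lit 1951) (nat_lit 291) (nat_lit 25) (nat_lit 1) .nil)), (nat_lit 31), (nat_lit 5), (nat_lit 37),
 (nat_lit 1), (26, 17, 29), [819, 1578], 4⟩,
  ⟨⟨23, -12, -36, -4, 25, -18, 26, 8, -7⟩, (.cons (nat_lit 3271) (nat_lit 12916) (nat_lit 935) (nat_lit 1)
 (.cons (nat_lit 634) (nat_lit 2106) (nat_lit 1999) (nat_lit 1) .nil)), (nat_lit 36), (nat_lit 15), (nat_lit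
 19), (nat_lit 1), (3, 17, 29), [21957, 779], 19⟩,
  ⟨⟨3, 20, 29, -4, 25, -18, 26, 8, -7⟩, (.cons (nat_lit 10329) (nat_lit 21285) (nat_lit 4930) (nat_lit 1)
 (.cons (nat_lit 1951) (nat_lit 291) (nat_lit 25) (nat_lit 1) .nil)), (nat_lit 31), (nat_lit 5), (nat_lit 37),
 (nat_lit 1), (26, 17, 29), [819, 1578], 4⟩,
  ⟨⟨23, -12, -36, -4, 25, -18, 26, 8, -7⟩, (.cons (nat_lit 3271) (nat_lit 12916) (nat_lit 935) (nat_lit 1)
 (.cons (nat_lit 634) (nat_lit 2106) (nat_lit 1999) (nat_lit 1) .nil)), (nat_lit 36), (nat_lit 15), (nat_lit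
 19), (nat_lit 1), (3, 17, 29), [21957, 779], 19⟩,
  ⟨⟨3, 20, 29, 4, -25, 18, 26, 8, -7⟩, (.cons (nat_lit 29043) (nat_lit 18841) (nat_lit 22172) (nat_lit 1)
 (.cons (nat_lit 1699) (nat_lit 647) (nat_lit 1961) (nat_lit 1) .nil)), (nat_lit 23), (nat_lit 4), (nat_lit
 13), (nat_lit 1), (26, 14, 29), [15793, 1330], 2⟩,
  ⟨⟨3, 20, 29, 4, -25, 18, 26, 8, -7⟩, (.cons (nat_lit 29043) (nat_lit 18841) (nat_lit 22172) (nat_lit 1)
 (.cons (nat_lit 1699) (nat_lit 647) (nat_lit 1961) (nat_lit 1) .nil)), (nat_lit 23), (nat_lit 4), (nat_lit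
 13), (nat_lit 1), (26, 14, 29), [15793, 1330], 2⟩,
  ⟨⟨3, 20, 29, -4, 25, -18, 26, 8, -7⟩, (.cons (nat_lit 10329) (nat_lit 21285) (nat_lit 4930) (nat_lit 1)
 (.cons (nat_lit 1951) (nat_lit 291) (nat_lit 25) (nat_lit 1) .nil)), (nat_lit 31), (nat_lit 5), (nat_lit 37),
 (nat_lit 1), (26, 17, 29), [819, 1578], 4⟩,
  ⟨⟨3, 20, 29, -4, 25, -18, 26, 8, -7⟩, (.cons (nat_lit 10329) (nat_lit 21285) (nat_lit 4930) (nat_lit 1)
 (.cons (nat_lit 1951) (nat_lit 291) (nat_lit 25) (nat_lit 1) .nil)), (nat_lit 31), (nat_lit 5), (nat_lit 37),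
 (nat_lit 1), (26, 17, 29), [819, 1578], 4⟩,
  ⟨⟨3, 20, 29, 4, -25, 18, 26, 8, -7⟩, (.cons (nat_lit 29043) (nat_lit 18841) (nat_lit 22172) (nat_lit 1)
 (.cons (nat_lit 1699) (nat_lit 647) (nat_lit 1961) (nat_lit 1) .nil)), (nat_lit 23), (nat_lit 4), (nat_lit
 13), (nat_lit 1), (26, 14, 29), [15793, 1330], 2⟩,
  ⟨⟨3, 20, 29, -4, 25, -18, 26, 8, -7⟩, (.cons (nat_lit 10329) (nat_lit 21285) (nat_lit 4930) (nat_lit 1)
 (.cons (nat_lit 1951) (nat_lit 291) (nat_lit 25) (nat_lit 1) .nil)), (nat_lit 31), (nat_lit 5), (nat_lit 37),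
 (nat_lit 1), (26, 17, 29), [819, 1578], 4⟩,
  ⟨⟨23, -12, -36, 4, -25, 18, 26, 8, -7⟩, (.cons (nat_lit 10345) (nat_lit 11678) (nat_lit 29062) (nat_lit 1)
 (.cons (nat_lit 416) (nat_lit 434) (nat_lit 692) (nat_lit 1) .nil)), (nat_lit 20), (nat_lit 12), (nat_lit 38),
 (nat_lit 1), (3, 14, 29), [26410, 1800], 1⟩,
  ⟨⟨3, 20, 29, 4, -25, 18, 26, 8, -7⟩, (.cons (nat_lit 29043) (nat_lit 18841) (nat_lit 22172) (nat_lit 1)
 (.cons (nat_lit 1699) (nat_lit 647) (nat_lit 1961) (nat_lit 1) .nil)), (nat_lit 23), (nat_lit 4), (nat_lit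
 13), (nat_lit 1), (26, 14, 29), [15793, 1330], 2⟩,
  ⟨⟨3, 20, 29, -4, 25, -18, 26, 8, -7⟩, (.cons (nat_lit 10329) (nat_lit 21285) (nat_lit 4930) (nat_lit 1)
 (.cons (nat_lit 1951) (nat_lit 291) (nat_lit 25) (nat_lit 1) .nil)), (nat_lit 31), (nat_lit 5), (nat_lit 37),
 (nat_lit 1), (26, 17, 29), [819, 1578], 4⟩,
  ⟨⟨23, -12, -36, 4, -25, 18, 26, 8, -7⟩, (.cons (nat_lit 10345) (nat_lit 11678) (nat_lit 29062) (nat_lit 1)
 (.cons (nat_lit 416) (nat_lit 434) (nat_lit 692) (nat_lit 1) .nil)), (nat_lit 20), (nat_lit 12), (nat_lit 38),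
 (nat_lit 1), (3, 14, 29), [26410, 1800], 1⟩,
  ⟨⟨3, 20, 29, 4, -25, 18, 26, 8, -7⟩, (.cons (nat_lit 29043) (nat_lit 18841) (nat_lit 22172) (nat_lit 1)
 (.cons (nat_lit 1699) (nat_lit 647) (nat_lit 1961) (nat_lit 1) .nil)), (nat_lit 23), (nat_lit 4), (nat_lit
 13), (nat_lit 1), (26, 14, 29), [15793, 1330], 2⟩,
  ⟨⟨3, 20, 29, -4, 25, -18, 26, 8, -7⟩, (.cons (nat_lit 10329) (nat_lit 21285) (nat_lit 4930) (nat_lit 1)
 (.cons (nat_lit 1951) (nat_lit 291) (nat_lit 25) (nat_lit 1) .nil)), (nat_lit 31), (nat_lit 5), (nat_lit 37),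
 (nat_lit 1), (26, 17, 29), [819, 1578], 4⟩]

/-- Moves. -/
noncomputable def t0_4 : List Mv := [
  ⟨⟨-33, 8, 17, 4, 15, 28, -6, 24, -11⟩, (.cons (nat_lit 9483) (nat_lit 19565) (nat_lit 10748) (nat_lit 1)
 (.cons (nat_lit 1364) (nat_lit 37) (nat_lit 1214) (nat_lit 1) .nil)), (nat_lit 22), (nat_lit 46), (nat_lit 6),
 (nat_lit 1), (23, 16, 7), [19532, 1734], 23⟩,
  ⟨⟨27, 16, -28, -4, -15, -28, -6, 24, -11⟩, (.cons (nat_lit 19008) (nat_lit 12086) (nat_lit 25737) (nat_lit 1)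
 (.cons (nat_lit 286) (nat_lit 1762) (nat_lit 860) (nat_lit 1) .nil)), (nat_lit 47), (nat_lit 52), (nat_lit
 12), (nat_lit 1), (15, 15, 7), [9457, 1704], 27⟩,
  ⟨⟨27, 16, -28, -4, -15, -28, -6, 24, -11⟩, (.cons (nat_lit 19008) (nat_lit 12086) (nat_lit 25737) (nat_lit 1)
 (.cons (nat_lit 286) (nat_lit 1762) (nat_lit 860) (nat_lit 1) .nil)), (nat_lit 47), (nat_lit 52), (nat_lit
 12), (nat_lit 1), (15, 15, 7), [9457, 1704], 27⟩,
  ⟨⟨27, 16, -28, -4, -15, -28, -6, 24, -11⟩, (.cons (nat_lit 19008) (nat_lit 12086) (nat_lit 25737) (nat_lit 1)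
 (.cons (nat_lit 286) (nat_lit 1762) (nat_lit 860) (nat_lit 1) .nil)), (nat_lit 47), (nat_lit 52), (nat_lit
 12), (nat_lit 1), (15, 15, 7), [9457, 1704], 27⟩,
  ⟨⟨-33, 8, 17, -4, -15, -28, -6, 24, -11⟩, (.cons (nat_lit 698) (nat_lit 820) (nat_lit 957) (nat_lit 1) (.cons
 (nat_lit 842) (nat_lit 917) (nat_lit 719) (nat_lit 1) .nil)), (nat_lit 40), (nat_lit 24), (nat_lit 42),
 (nat_lit 1), (23, 15, 7), [9476, 1751], 10⟩,
  ⟨⟨-33, 8, 17, 4, 15, 28, -6, 24, -11⟩, (.cons (nat_lit 9483) (nat_lit 19565) (nat_lit 10748) (nat_lit 1)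
 (.cons (nat_lit 1364) (nat_lit 37) (nat_lit 1214) (nat_lit 1) .nil)), (nat_lit 22), (nat_lit 46), (nat_lit 6),
 (nat_lit 1), (23, 16, 7), [19532, 1734], 23⟩,
  ⟨⟨-33, 8, 17, -4, -15, -28, -6, 24, -11⟩, (.cons (nat_lit 698) (nat_lit 820) (nat_lit 957) (nat_lit 1) (.cons
 (nat_lit 842) (nat_lit 917) (nat_lit 719) (nat_lit 1) .nil)), (nat_lit 40), (nat_lit 24), (nat_lit 42),
 (nat_lit 1), (23, 15, 7), [9476, 1751], 10⟩,
  ⟨⟨27, 16, -28, -4, -15, -28, -6, 24, -11⟩, (.cons (nat_lit 19008) (nat_lit 12086) (nat_lit 25737) (nat_lit 1)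
 (.cons (nat_lit 286) (nat_lit 1762) (nat_lit 860) (nat_lit 1) .nil)), (nat_lit 47), (nat_lit 52), (nat_lit
 12), (nat_lit 1), (15, 15, 7), [9457, 1704], 27⟩,
  ⟨⟨27, 16, -28, -4, -15, -28, -6, 24, -11⟩, (.cons (nat_lit 19008) (nat_lit 12086) (nat_lit 25737) (nat_lit 1)
 (.cons (nat_lit 286) (nat_lit 1762) (nat_lit 860) (nat_lit 1) .nil)), (nat_lit 47), (nat_lit 52), (nat_lit
 12), (nat_lit 1), (15, 15, 7), [9457, 1704], 27⟩,
  ⟨⟨27, 16, -28, -4, -15, -28, -6, 24, -11⟩, (.cons (nat_lit 19008) (nat_lit 12086) (nat_lit 25737) (nat_lit 1)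
 (.cons (nat_lit 286) (nat_lit 1762) (nat_lit 860) (nat_lit 1) .nil)), (nat_lit 47), (nat_lit 52), (nat_lit
 12), (nat_lit 1), (15, 15, 7), [9457, 1704], 27⟩,
  ⟨⟨27, 16, -28, -4, -15, -28, -6, 24, -11⟩, (.cons (nat_lit 19008) (nat_lit 12086) (nat_lit 25737) (nat_lit 1)
 (.cons (nat_lit 286) (nat_lit 1762) (nat_lit 860) (nat_lit 1) .nil)), (nat_lit 47), (nat_lit 52), (nat_lit
 12), (nat_lit 1), (15, 15, 7), [9457, 1704], 27⟩,
  ⟨⟨27, 16, -28, -4, -15, -28, -6, 24, -11⟩, (.cons (nat_lit 19008) (nat_lit 12086) (nat_lit 25737) (nat_lit 1)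
 (.cons (nat_lit 286) (nat_lit 1762) (nat_lit 860) (nat_lit 1) .nil)), (nat_lit 47), (nat_lit 52), (nat_lit
 12), (nat_lit 1), (15, 15, 7), [9457, 1704], 27⟩,
  ⟨⟨27, 16, -28, 4, 15, 28, -6, 24, -11⟩, (.cons (nat_lit 18671) (nat_lit 20264) (nat_lit 19571) (nat_lit 1)
 (.cons (nat_lit 2208) (nat_lit 1514) (nat_lit 1825) (nat_lit 1) .nil)), (nat_lit 52), (nat_lit 29), (nat_lit
 37), (nat_lit 1), (15, 16, 7), [20072, 606], 10⟩,
  ⟨⟨27, 16, -28, -4, -15, -28, -6, 24, -11⟩, (.cons (nat_lit 19008) (nat_lit 12086) (nat_lit 25737) (nat_lit 1)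
 (.cons (nat_lit 286) (nat_lit 1762) (nat_lit 860) (nat_lit 1) .nil)), (nat_lit 47), (nat_lit 52), (nat_lit
 12), (nat_lit 1), (15, 15, 7), [9457, 1704], 27⟩,
  ⟨⟨27, 16, -28, -4, -15, -28, -6, 24, -11⟩, (.cons (nat_lit 19008) (nat_lit 12086) (nat_lit 25737) (nat_lit 1)
 (.cons (nat_lit 286) (nat_lit 1762) (nat_lit 860) (nat_lit 1) .nil)), (nat_lit 47), (nat_lit 52), (nat_lit
 12), (nat_lit 1), (15, 15, 7), [9457, 1704], 27⟩,
  ⟨⟨-33, 8, 17, 4, 15, 28, -6, 24, -11⟩, (.cons (nat_lit 9483) (nat_lit 19565) (nat_lit 10748) (nat_lit 1)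
 (.cons (nat_lit 1364) (nat_lit 37) (nat_lit 1214) (nat_lit 1) .nil)), (nat_lit 22), (nat_lit 46), (nat_lit 6),
 (nat_lit 1), (23, 16, 7), [19532, 1734], 23⟩,
  ⟨⟨27, 16, -28, -4, -15, -28, -6, 24, -11⟩, (.cons (nat_lit 19008) (nat_lit 12086) (nat_lit 25737) (nat_lit 1)
 (.cons (nat_lit 286) (nat_lit 1762) (nat_lit 860) (nat_lit 1) .nil)), (nat_lit 47), (nat_lit 52), (nat_lit
 12), (nat_lit 1), (15, 15, 7), [9457, 1704], 27⟩,
  ⟨⟨27, 16, -28, -4, -15, -28, -6, 24, -11⟩, (.cons (nat_lit 19008) (nat_lit 12086) (nat_lit 25737) (nat_lit 1)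
 (.cons (nat_lit 286) (nat_lit 1762) (nat_lit 860) (nat_lit 1) .nil)), (nat_lit 47), (nat_lit 52), (nat_lit
 12), (nat_lit 1), (15, 15, 7), [9457, 1704], 27⟩,
  ⟨⟨27, 16, -28, -4, -15, -28, -6, 24, -11⟩, (.cons (nat_lit 19008) (nat_lit 12086) (nat_lit 25737) (nat_lit 1)
 (.cons (nat_lit 286) (nat_lit 1762) (nat_lit 860) (nat_lit 1) .nil)), (nat_lit 47), (nat_lit 52), (nat_lit
 12), (nat_lit 1), (15, 15, 7), [9457, 1704], 27⟩,
  ⟨⟨27, 16, -28, -4, -15, -28, -6, 24, -11⟩, (.cons (nat_lit 19008) (nat_lit 12086) (nat_lit 25737) (nat_lit 1)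
 (.cons (nat_lit 286) (nat_lit 1762) (nat_lit 860) (nat_lit 1) .nil)), (nat_lit 47), (nat_lit 52), (nat_lit
 12), (nat_lit 1), (15, 15, 7), [9457, 1704], 27⟩,
  ⟨⟨27, 16, -28, 4, 15, 28, -6, 24, -11⟩, (.cons (nat_lit 18671) (nat_lit 20264) (nat_lit 19571) (nat_lit 1)
 (.cons (nat_lit 2208) (nat_lit 1514) (nat_lit 1825) (nat_lit 1) .nil)), (nat_lit 52), (nat_lit 29), (nat_lit
 37), (nat_lit 1), (15, 16, 7), [20072, 606], 10⟩,
  ⟨⟨-33, 8, 17, -4, -15, -28, -6, 24, -11⟩, (.cons (nat_lit 698) (nat_lit 820) (nat_lit 957) (nat_lit 1) (.cons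
 (nat_lit 842) (nat_lit 917) (nat_lit 719) (nat_lit 1) .nil)), (nat_lit 40), (nat_lit 24), (nat_lit 42),
 (nat_lit 1), (23, 15, 7), [9476, 1751], 10⟩,
  ⟨⟨27, 16, -28, -4, -15, -28, -6, 24, -11⟩, (.cons (nat_lit 19008) (nat_lit 12086) (nat_lit 25737) (nat_lit 1)
 (.cons (nat_lit 286) (nat_lit 1762) (nat_lit 860) (nat_lit 1) .nil)), (nat_lit 47), (nat_lit 52), (nat_lit
 12), (nat_lit 1), (15, 15, 7), [9457, 1704], 27⟩,
  ⟨⟨27, 16, -28, -4, -15, -28, -6, 24, -11⟩, (.cons (nat_lit 19008) (nat_lit 12086) (nat_lit 25737) (nat_lit 1)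
 (.cons (nat_lit 286) (nat_lit 1762) (nat_lit 860) (nat_lit 1) .nil)), (nat_lit 47), (nat_lit 52), (nat_lit
 12), (nat_lit 1), (15, 15, 7), [9457, 1704], 27⟩,
  ⟨⟨27, 16, -28, 4, 15, 28, -6, 24, -11⟩, (.cons (nat_lit 18671) (nat_lit 20264) (nat_lit 19571) (nat_lit 1)
 (.cons (nat_lit 2208) (nat_lit 1514) (nat_lit 1825) (nat_lit 1) .nil)), (nat_lit 52), (nat_lit 29), (nat_lit
 37), (nat_lit 1), (15, 16, 7), [20072, 606], 10⟩,
  ⟨⟨-33, 8, 17, 4, 15, 28, -6, 24, -11⟩, (.cons (nat_lit 9483) (nat_lit 19565) (nat_lit 10748) (nat_lit 1)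
 (.cons (nat_lit 1364) (nat_lit 37) (nat_lit 1214) (nat_lit 1) .nil)), (nat_lit 22), (nat_lit 46), (nat_lit 6),
 (nat_lit 1), (23, 16, 7), [19532, 1734], 23⟩,
  ⟨⟨-33, 8, 17, -4, -15, -28, -6, 24, -11⟩, (.cons (nat_lit 698) (nat_lit 820) (nat_lit 957) (nat_lit 1) (.cons
 (nat_lit 842) (nat_lit 917) (nat_lit 719) (nat_lit 1) .nil)), (nat_lit 40), (nat_lit 24), (nat_lit 42),
 (nat_lit 1), (23, 15, 7), [9476, 1751], 10⟩,
  ⟨⟨-33, 8, 17, -4, -15, -28, -6, 24, -11⟩, (.cons (nat_lit 698) (nat_lit 820) (nat_lit 957) (nat_lit 1) (.cons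
 (nat_lit 842) (nat_lit 917) (nat_lit 719) (nat_lit 1) .nil)), (nat_lit 40), (nat_lit 24), (nat_lit 42),
 (nat_lit 1), (23, 15, 7), [9476, 1751], 10⟩,
  ⟨⟨-33, 8, 17, 4, 15, 28, -6, 24, -11⟩, (.cons (nat_lit 9483) (nat_lit 19565) (nat_lit 10748) (nat_lit 1)
 (.cons (nat_lit 1364) (nat_lit 37) (nat_lit 1214) (nat_lit 1) .nil)), (nat_lit 22), (nat_lit 46), (nat_lit 6),
 (nat_lit 1), (23, 16, 7), [19532, 1734], 23⟩,
  ⟨⟨27, 16, -28, 4, 15, 28, -6, 24, -11⟩, (.cons (nat_lit 18671) (nat_lit 20264) (nat_lit 19571) (nat_lit 1)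
 (.cons (nat_lit 2208) (nat_lit 1514) (nat_lit 1825) (nat_lit 1) .nil)), (nat_lit 52), (nat_lit 29), (nat_lit
 37), (nat_lit 1), (15, 16, 7), [20072, 606], 10⟩,
  ⟨⟨27, 16, -28, -4, -15, -28, -6, 24, -11⟩, (.cons (nat_lit 19008) (nat_lit 12086) (nat_lit 25737) (nat_lit 1)
 (.cons (nat_lit 286) (nat_lit 1762) (nat_lit 860) (nat_lit 1) .nil)), (nat_lit 47), (nat_lit 52), (nat_lit
 12), (nat_lit 1), (15, 15, 7), [9457, 1704], 27⟩]

/-- Moves. -/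
noncomputable def t0_6 : List Mv := [
  ⟨⟨1, -12, 35, -16, -25, -2, 22, -16, -5⟩, (.cons (nat_lit 19049) (nat_lit 27811) (nat_lit 11555) (nat_lit 1)
 (.cons (nat_lit 571) (nat_lit 640) (nat_lit 1013) (nat_lit 1) .nil)), (nat_lit 46), (nat_lit 24), (nat_lit
 14), (nat_lit 1), (1, 15, 22), [18461, 1800], 20⟩,
  ⟨⟨21, -4, -40, 16, 25, 2, 22, -16, -5⟩, (.cons (nat_lit 21670) (nat_lit 21293) (nat_lit 18379) (nat_lit 1)
 (.cons (nat_lit 1972) (nat_lit 535) (nat_lit 1877) (nat_lit 1) .nil)), (nat_lit 35), (nat_lit 29), (nat_lit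
 24), (nat_lit 1), (21, 16, 22), [12199, 672], 20⟩,
  ⟨⟨1, -12, 35, -16, -25, -2, 22, -16, -5⟩, (.cons (nat_lit 19049) (nat_lit 27811) (nat_lit 11555) (nat_lit 1)
 (.cons (nat_lit 571) (nat_lit 640) (nat_lit 1013) (nat_lit 1) .nil)), (nat_lit 46), (nat_lit 24), (nat_lit
 14), (nat_lit 1), (1, 15, 22), [18461, 1800], 20⟩,
  ⟨⟨1, -12, 35, -16, -25, -2, 22, -16, -5⟩, (.cons (nat_lit 19049) (nat_lit 27811) (nat_lit 11555) (nat_lit 1)
 (.cons (nat_lit 571) (nat_lit 640) (nat_lit 1013) (nat_lit 1) .nil)), (nat_lit 46), (nat_lit 24), (nat_lit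
 14), (nat_lit 1), (1, 15, 22), [18461, 1800], 20⟩,
  ⟨⟨1, -12, 35, -16, -25, -2, 22, -16, -5⟩, (.cons (nat_lit 19049) (nat_lit 27811) (nat_lit 11555) (nat_lit 1)
 (.cons (nat_lit 571) (nat_lit 640) (nat_lit 1013) (nat_lit 1) .nil)), (nat_lit 46), (nat_lit 24), (nat_lit
 14), (nat_lit 1), (1, 15, 22), [18461, 1800], 20⟩,
  ⟨⟨21, -4, -40, -16, -25, -2, 22, -16, -5⟩, (.cons (nat_lit 24108) (nat_lit 6469) (nat_lit 2252) (nat_lit 1)
 (.cons (nat_lit 2202) (nat_lit 1052) (nat_lit 1953) (nat_lit 1) .nil)), (nat_lit 20), (nat_lit 52), (nat_lit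
 21), (nat_lit 1), (21, 15, 22), [6072, 1565], 1⟩,
  ⟨⟨21, -4, -40, 16, 25, 2, 22, -16, -5⟩, (.cons (nat_lit 21670) (nat_lit 21293) (nat_lit 18379) (nat_lit 1)
 (.cons (nat_lit 1972) (nat_lit 535) (nat_lit 1877) (nat_lit 1) .nil)), (nat_lit 35), (nat_lit 29), (nat_lit
 24), (nat_lit 1), (21, 16, 22), [12199, 672], 20⟩,
  ⟨⟨21, -4, -40, -16, -25, -2, 22, -16, -5⟩, (.cons (nat_lit 24108) (nat_lit 6469) (nat_lit 2252) (nat_lit 1)
 (.cons (nat_lit 2202) (nat_lit 1052) (nat_lit 1953) (nat_lit 1) .nil)), (nat_lit 20), (nat_lit 52), (nat_lit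
 21), (nat_lit 1), (21, 15, 22), [6072, 1565], 1⟩,
  ⟨⟨1, -12, 35, -16, -25, -2, 22, -16, -5⟩, (.cons (nat_lit 19049) (nat_lit 27811) (nat_lit 11555) (nat_lit 1)
 (.cons (nat_lit 571) (nat_lit 640) (nat_lit 1013) (nat_lit 1) .nil)), (nat_lit 46), (nat_lit 24), (nat_lit
 14), (nat_lit 1), (1, 15, 22), [18461, 1800], 20⟩,
  ⟨⟨1, -12, 35, -16, -25, -2, 22, -16, -5⟩, (.cons (nat_lit 19049) (nat_lit 27811) (nat_lit 11555) (nat_lit 1)
 (.cons (nat_lit 571) (nat_lit 640) (nat_lit 1013) (nat_lit 1) .nil)), (nat_lit 46), (nat_lit 24), (nat_lit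
 14), (nat_lit 1), (1, 15, 22), [18461, 1800], 20⟩,
  ⟨⟨1, -12, 35, -16, -25, -2, 22, -16, -5⟩, (.cons (nat_lit 19049) (nat_lit 27811) (nat_lit 11555) (nat_lit 1)
 (.cons (nat_lit 571) (nat_lit 640) (nat_lit 1013) (nat_lit 1) .nil)), (nat_lit 46), (nat_lit 24), (nat_lit
 14), (nat_lit 1), (1, 15, 22), [18461, 1800], 20⟩,
  ⟨⟨21, -4, -40, -16, -25, -2, 22, -16, -5⟩, (.cons (nat_lit 24108) (nat_lit 6469) (nat_lit 2252) (nat_lit 1)
 (.cons (nat_lit 2202) (nat_lit 1052) (nat_lit 1953) (nat_lit 1) .nil)), (nat_lit 20), (nat_lit 52), (nat_lit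
 21), (nat_lit 1), (21, 15, 22), [6072, 1565], 1⟩,
  ⟨⟨1, -12, 35, -16, -25, -2, 22, -16, -5⟩, (.cons (nat_lit 19049) (nat_lit 27811) (nat_lit 11555) (nat_lit 1)
 (.cons (nat_lit 571) (nat_lit 640) (nat_lit 1013) (nat_lit 1) .nil)), (nat_lit 46), (nat_lit 24), (nat_lit
 14), (nat_lit 1), (1, 15, 22), [18461, 1800], 20⟩,
  ⟨⟨1, -12, 35, -16, -25, -2, 22, -16, -5⟩, (.cons (nat_lit 19049) (nat_lit 27811) (nat_lit 11555) (nat_lit 1)
 (.cons (nat_lit 571) (nat_lit 640) (nat_lit 1013) (nat_lit 1) .nil)), (nat_lit 46), (nat_lit 24), (nat_lit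
 14), (nat_lit 1), (1, 15, 22), [18461, 1800], 20⟩,
  ⟨⟨1, -12, 35, 16, 25, 2, 22, -16, -5⟩, (.cons (nat_lit 23499) (nat_lit 12259) (nat_lit 4310) (nat_lit 1)
 (.cons (nat_lit 1036) (nat_lit 1157) (nat_lit 608) (nat_lit 1) .nil)), (nat_lit 12), (nat_lit 46), (nat_lit
 33), (nat_lit 1), (1, 16, 22), [23139, 907], 46⟩,
  ⟨⟨21, -4, -40, -16, -25, -2, 22, -16, -5⟩, (.cons (nat_lit 24108) (nat_lit 6469) (nat_lit 2252) (nat_lit 1)
 (.cons (nat_lit 2202) (nat_lit 1052) (nat_lit 1953) (nat_lit 1) .nil)), (nat_lit 20), (nat_lit 52), (nat_lit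
 21), (nat_lit 1), (21, 15, 22), [6072, 1565], 1⟩,
  ⟨⟨21, -4, -40, 16, 25, 2, 22, -16, -5⟩, (.cons (nat_lit 21670) (nat_lit 21293) (nat_lit 18379) (nat_lit 1)
 (.cons (nat_lit 1972) (nat_lit 535) (nat_lit 1877) (nat_lit 1) .nil)), (nat_lit 35), (nat_lit 29), (nat_lit
 24), (nat_lit 1), (21, 16, 22), [12199, 672], 20⟩,
  ⟨⟨1, -12, 35, -16, -25, -2, 22, -16, -5⟩, (.cons (nat_lit 19049) (nat_lit 27811) (nat_lit 11555) (nat_lit 1)
 (.cons (nat_lit 571) (nat_lit 640) (nat_lit 1013) (nat_lit 1) .nil)), (nat_lit 46), (nat_lit 24), (nat_lit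
 14), (nat_lit 1), (1, 15, 22), [18461, 1800], 20⟩,
  ⟨⟨21, -4, -40, -16, -25, -2, 22, -16, -5⟩, (.cons (nat_lit 24108) (nat_lit 6469) (nat_lit 2252) (nat_lit 1)
 (.cons (nat_lit 2202) (nat_lit 1052) (nat_lit 1953) (nat_lit 1) .nil)), (nat_lit 20), (nat_lit 52), (nat_lit
 21), (nat_lit 1), (21, 15, 22), [6072, 1565], 1⟩,
  ⟨⟨21, -4, -40, 16, 25, 2, 22, -16, -5⟩, (.cons (nat_lit 21670) (nat_lit 21293) (nat_lit 18379) (nat_lit 1)
 (.cons (nat_lit 1972) (nat_lit 535) (nat_lit 1877) (nat_lit 1) .nil)), (nat_lit 35), (nat_lit 29), (nat_lit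
 24), (nat_lit 1), (21, 16, 22), [12199, 672], 20⟩,
  ⟨⟨1, -12, 35, -16, -25, -2, 22, -16, -5⟩, (.cons (nat_lit 19049) (nat_lit 27811) (nat_lit 11555) (nat_lit 1)
 (.cons (nat_lit 571) (nat_lit 640) (nat_lit 1013) (nat_lit 1) .nil)), (nat_lit 46), (nat_lit 24), (nat_lit
 14), (nat_lit 1), (1, 15, 22), [18461, 1800], 20⟩,
  ⟨⟨1, -12, 35, -16, -25, -2, 22, -16, -5⟩, (.cons (nat_lit 19049) (nat_lit 27811) (nat_lit 11555) (nat_lit 1)
 (.cons (nat_lit 571) (nat_lit 640) (nat_lit 1013) (nat_lit 1) .nil)), (nat_lit 46), (nat_lit 24), (nat_lit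
 14), (nat_lit 1), (1, 15, 22), [18461, 1800], 20⟩,
  ⟨⟨1, -12, 35, -16, -25, -2, 22, -16, -5⟩, (.cons (nat_lit 19049) (nat_lit 27811) (nat_lit 11555) (nat_lit 1)
 (.cons (nat_lit 571) (nat_lit 640) (nat_lit 1013) (nat_lit 1) .nil)), (nat_lit 46), (nat_lit 24), (nat_lit
 14), (nat_lit 1), (1, 15, 22), [18461, 1800], 20⟩,
  ⟨⟨1, -12, 35, 16, 25, 2, 22, -16, -5⟩, (.cons (nat_lit 23499) (nat_lit 12259) (nat_lit 4310) (nat_lit 1)
 (.cons (nat_lit 1036) (nat_lit 1157) (nat_lit 608) (nat_lit 1) .nil)), (nat_lit 12), (nat_lit 46), (nat_lit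
 33), (nat_lit 1), (1, 16, 22), [23139, 907], 46⟩,
  ⟨⟨1, -12, 35, 16, 25, 2, 22, -16, -5⟩, (.cons (nat_lit 23499) (nat_lit 12259) (nat_lit 4310) (nat_lit 1)
 (.cons (nat_lit 1036) (nat_lit 1157) (nat_lit 608) (nat_lit 1) .nil)), (nat_lit 12), (nat_lit 46), (nat_lit
 33), (nat_lit 1), (1, 16, 22), [23139, 907], 46⟩,
  ⟨⟨1, -12, 35, -16, -25, -2, 22, -16, -5⟩, (.cons (nat_lit 19049) (nat_lit 27811) (nat_lit 11555) (nat_lit 1)
 (.cons (nat_lit 571) (nat_lit 640) (nat_lit 1013) (nat_lit 1) .nil)), (nat_lit 46), (nat_lit 24), (nat_lit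
 14), (nat_lit 1), (1, 15, 22), [18461, 1800], 20⟩,
  ⟨⟨21, -4, -40, 16, 25, 2, 22, -16, -5⟩, (.cons (nat_lit 21670) (nat_lit 21293) (nat_lit 18379) (nat_lit 1)
 (.cons (nat_lit 1972) (nat_lit 535) (nat_lit 1877) (nat_lit 1) .nil)), (nat_lit 35), (nat_lit 29), (nat_lit
 24), (nat_lit 1), (21, 16, 22), [12199, 672], 20⟩,
  ⟨⟨1, -12, 35, -16, -25, -2, 22, -16, -5⟩, (.cons (nat_lit 19049) (nat_lit 27811) (nat_lit 11555) (nat_lit 1)
 (.cons (nat_lit 571) (nat_lit 640) (nat_lit 1013) (nat_lit 1) .nil)), (nat_lit 46), (nat_lit 24), (nat_lit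
 14), (nat_lit 1), (1, 15, 22), [18461, 1800], 20⟩,
  ⟨⟨1, -12, 35, -16, -25, -2, 22, -16, -5⟩, (.cons (nat_lit 19049) (nat_lit 27811) (nat_lit 11555) (nat_lit 1)
 (.cons (nat_lit 571) (nat_lit 640) (nat_lit 1013) (nat_lit 1) .nil)), (nat_lit 46), (nat_lit 24), (nat_lit
 14), (nat_lit 1), (1, 15, 22), [18461, 1800], 20⟩,
  ⟨⟨1, -12, 35, 16, 25, 2, 22, -16, -5⟩, (.cons (nat_lit 23499) (nat_lit 12259) (nat_lit 4310) (nat_lit 1)
 (.cons (nat_lit 1036) (nat_lit 1157) (nat_lit 608) (nat_lit 1) .nil)), (nat_lit 12), (nat_lit 46), (nat_lit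
 33), (nat_lit 1), (1, 16, 22), [23139, 907], 46⟩,
  ⟨⟨1, -12, 35, -16, -25, -2, 22, -16, -5⟩, (.cons (nat_lit 19049) (nat_lit 27811) (nat_lit 11555) (nat_lit 1)
 (.cons (nat_lit 571) (nat_lit 640) (nat_lit 1013) (nat_lit 1) .nil)), (nat_lit 46), (nat_lit 24), (nat_lit
 14), (nat_lit 1), (1, 15, 22), [18461, 1800], 20⟩]

/-- Moves. -/
noncomputable def t0_8 : List Mv := [
  ⟨⟨-31, 0, 0, 10, 19, -30, -4, -20, -19⟩, (.cons (nat_lit 17880) (nat_lit 10674) (nat_lit 28306) (nat_lit 1)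
 (.cons (nat_lit 2208) (nat_lit 291) (nat_lit 1993) (nat_lit 1) .nil)), (nat_lit 52), (nat_lit 30), (nat_lit
 9), (nat_lit 1), (0, 5, 29), [19958, 167], 26⟩,
  ⟨⟨-31, 0, 0, -10, -19, 30, -4, -20, -19⟩, (.cons (nat_lit 18714) (nat_lit 22983) (nat_lit 5336) (nat_lit 1)
 (.cons (nat_lit 919) (nat_lit 647) (nat_lit 825) (nat_lit 1) .nil)), (nat_lit 27), (nat_lit 7), (nat_lit 50),
 (nat_lit 1), (0, 26, 29), [28609, 1843], 49⟩,
  ⟨⟨-31, 0, 0, -10, -19, 30, -4, -20, -19⟩, (.cons (nat_lit 18714) (nat_lit 22983) (nat_lit 5336) (nat_lit 1)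
 (.cons (nat_lit 919) (nat_lit 647) (nat_lit 825) (nat_lit 1) .nil)), (nat_lit 27), (nat_lit 7), (nat_lit 50),
 (nat_lit 1), (0, 26, 29), [28609, 1843], 49⟩,
  ⟨⟨-31, 0, 0, -10, -19, 30, -4, -20, -19⟩, (.cons (nat_lit 18714) (nat_lit 22983) (nat_lit 5336) (nat_lit 1)
 (.cons (nat_lit 919) (nat_lit 647) (nat_lit 825) (nat_lit 1) .nil)), (nat_lit 27), (nat_lit 7), (nat_lit 50),
 (nat_lit 1), (0, 26, 29), [28609, 1843], 49⟩,
  ⟨⟨-31, 0, 0, 10, 19, -30, -4, -20, -19⟩, (.cons (nat_lit 17880) (nat_lit 10674) (nat_lit 28306) (nat_lit 1)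
 (.cons (nat_lit 2208) (nat_lit 291) (nat_lit 1993) (nat_lit 1) .nil)), (nat_lit 52), (nat_lit 30), (nat_lit
 9), (nat_lit 1), (0, 5, 29), [19958, 167], 26⟩,
  ⟨⟨-31, 0, 0, 10, 19, -30, -4, -20, -19⟩, (.cons (nat_lit 17880) (nat_lit 10674) (nat_lit 28306) (nat_lit 1)
 (.cons (nat_lit 2208) (nat_lit 291) (nat_lit 1993) (nat_lit 1) .nil)), (nat_lit 52), (nat_lit 30), (nat_lit
 9), (nat_lit 1), (0, 5, 29), [19958, 167], 26⟩,
  ⟨⟨-31, 0, 0, -10, -19, 30, -4, -20, -19⟩, (.cons (nat_lit 18714) (nat_lit 22983) (nat_lit 5336) (nat_lit 1)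
 (.cons (nat_lit 919) (nat_lit 647) (nat_lit 825) (nat_lit 1) .nil)), (nat_lit 27), (nat_lit 7), (nat_lit 50),
 (nat_lit 1), (0, 26, 29), [28609, 1843], 49⟩,
  ⟨⟨27, -20, -19, 10, 19, -30, -4, -20, -19⟩, (.cons (nat_lit 26014) (nat_lit 474) (nat_lit 645) (nat_lit 1)
 (.cons (nat_lit 1928) (nat_lit 2106) (nat_lit 583) (nat_lit 1) .nil)), (nat_lit 50), (nat_lit 1), (nat_lit
 19), (nat_lit 1), (29, 5, 29), [11597, 543], 46⟩,
  ⟨⟨27, -20, -19, -10, -19, 30, -4, -20, -19⟩, (.cons (nat_lit 4112) (nat_lit 3489) (nat_lit 20016) (nat_lit 1)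
 (.cons (nat_lit 491) (nat_lit 434) (nat_lit 2047) (nat_lit 1) .nil)), (nat_lit 18), (nat_lit 2), (nat_lit 30),
 (nat_lit 1), (29, 26, 29), [28183, 1232], 23⟩,
  ⟨⟨27, -20, -19, 10, 19, -30, -4, -20, -19⟩, (.cons (nat_lit 26014) (nat_lit 474) (nat_lit 645) (nat_lit 1)
 (.cons (nat_lit 1928) (nat_lit 2106) (nat_lit 583) (nat_lit 1) .nil)), (nat_lit 50), (nat_lit 1), (nat_lit
 19), (nat_lit 1), (29, 5, 29), [11597, 543], 46⟩,
  ⟨⟨-31, 0, 0, 10, 19, -30, -4, -20, -19⟩, (.cons (nat_lit 17880) (nat_lit 10674) (nat_lit 28306) (nat_lit 1)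
 (.cons (nat_lit 2208) (nat_lit 291) (nat_lit 1993) (nat_lit 1) .nil)), (nat_lit 52), (nat_lit 30), (nat_lit
 9), (nat_lit 1), (0, 5, 29), [19958, 167], 26⟩,
  ⟨⟨-31, 0, 0, 10, 19, -30, -4, -20, -19⟩, (.cons (nat_lit 17880) (nat_lit 10674) (nat_lit 28306) (nat_lit 1)
 (.cons (nat_lit 2208) (nat_lit 291) (nat_lit 1993) (nat_lit 1) .nil)), (nat_lit 52), (nat_lit 30), (nat_lit
 9), (nat_lit 1), (0, 5, 29), [19958, 167], 26⟩,
  ⟨⟨27, -20, -19, -10, -19, 30, -4, -20, -19⟩, (.cons (nat_lit 4112) (nat_lit 3489) (nat_lit 20016) (nat_lit 1)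
 (.cons (nat_lit 491) (nat_lit 434) (nat_lit 2047) (nat_lit 1) .nil)), (nat_lit 18), (nat_lit 2), (nat_lit 30),
 (nat_lit 1), (29, 26, 29), [28183, 1232], 23⟩,
  ⟨⟨27, -20, -19, -10, -19, 30, -4, -20, -19⟩, (.cons (nat_lit 4112) (nat_lit 3489) (nat_lit 20016) (nat_lit 1)
 (.cons (nat_lit 491) (nat_lit 434) (nat_lit 2047) (nat_lit 1) .nil)), (nat_lit 18), (nat_lit 2), (nat_lit 30),
 (nat_lit 1), (29, 26, 29), [28183, 1232], 23⟩,
  ⟨⟨-31, 0, 0, 10, 19, -30, -4, -20, -19⟩, (.cons (nat_lit 17880) (nat_lit 10674) (nat_lit 28306) (nat_lit 1)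
 (.cons (nat_lit 2208) (nat_lit 291) (nat_lit 1993) (nat_lit 1) .nil)), (nat_lit 52), (nat_lit 30), (nat_lit
 9), (nat_lit 1), (0, 5, 29), [19958, 167], 26⟩,
  ⟨⟨-31, 0, 0, 10, 19, -30, -4, -20, -19⟩, (.cons (nat_lit 17880) (nat_lit 10674) (nat_lit 28306) (nat_lit 1)
 (.cons (nat_lit 2208) (nat_lit 291) (nat_lit 1993) (nat_lit 1) .nil)), (nat_lit 52), (nat_lit 30), (nat_lit
 9), (nat_lit 1), (0, 5, 29), [19958, 167], 26⟩,
  ⟨⟨27, -20, -19, -10, -19, 30, -4, -20, -19⟩, (.cons (nat_lit 4112) (nat_lit 3489) (nat_lit 20016) (nat_lit 1)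
 (.cons (nat_lit 491) (nat_lit 434) (nat_lit 2047) (nat_lit 1) .nil)), (nat_lit 18), (nat_lit 2), (nat_lit 30),
 (nat_lit 1), (29, 26, 29), [28183, 1232], 23⟩,
  ⟨⟨-31, 0, 0, -10, -19, 30, -4, -20, -19⟩, (.cons (nat_lit 18714) (nat_lit 22983) (nat_lit 5336) (nat_lit 1)
 (.cons (nat_lit 919) (nat_lit 647) (nat_lit 825) (nat_lit 1) .nil)), (nat_lit 27), (nat_lit 7), (nat_lit 50),
 (nat_lit 1), (0, 26, 29), [28609, 1843], 49⟩,
  ⟨⟨27, -20, -19, 10, 19, -30, -4, -20, -19⟩, (.cons (nat_lit 26014) (nat_lit 474) (nat_lit 645) (nat_lit 1)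
 (.cons (nat_lit 1928) (nat_lit 2106) (nat_lit 583) (nat_lit 1) .nil)), (nat_lit 50), (nat_lit 1), (nat_lit
 19), (nat_lit 1), (29, 5, 29), [11597, 543], 46⟩,
  ⟨⟨27, -20, -19, 10, 19, -30, -4, -20, -19⟩, (.cons (nat_lit 26014) (nat_lit 474) (nat_lit 645) (nat_lit 1)
 (.cons (nat_lit 1928) (nat_lit 2106) (nat_lit 583) (nat_lit 1) .nil)), (nat_lit 50), (nat_lit 1), (nat_lit
 19), (nat_lit 1), (29, 5, 29), [11597, 543], 46⟩,
  ⟨⟨-31, 0, 0, 10, 19, -30, -4, -20, -19⟩, (.cons (nat_lit 17880) (nat_lit 10674) (nat_lit 28306) (nat_lit 1)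
 (.cons (nat_lit 2208) (nat_lit 291) (nat_lit 1993) (nat_lit 1) .nil)), (nat_lit 52), (nat_lit 30), (nat_lit
 9), (nat_lit 1), (0, 5, 29), [19958, 167], 26⟩,
  ⟨⟨-31, 0, 0, 10, 19, -30, -4, -20, -19⟩, (.cons (nat_lit 17880) (nat_lit 10674) (nat_lit 28306) (nat_lit 1)
 (.cons (nat_lit 2208) (nat_lit 291) (nat_lit 1993) (nat_lit 1) .nil)), (nat_lit 52), (nat_lit 30), (nat_lit
 9), (nat_lit 1), (0, 5, 29), [19958, 167], 26⟩,
  ⟨⟨27, -20, -19, -10, -19, 30, -4, -20, -19⟩, (.cons (nat_lit 4112) (nat_lit 3489) (nat_lit 20016) (nat_lit 1)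
 (.cons (nat_lit 491) (nat_lit 434) (nat_lit 2047) (nat_lit 1) .nil)), (nat_lit 18), (nat_lit 2), (nat_lit 30),
 (nat_lit 1), (29, 26, 29), [28183, 1232], 23⟩,
  ⟨⟨-31, 0, 0, 10, 19, -30, -4, -20, -19⟩, (.cons (nat_lit 17880) (nat_lit 10674) (nat_lit 28306) (nat_lit 1)
 (.cons (nat_lit 2208) (nat_lit 291) (nat_lit 1993) (nat_lit 1) .nil)), (nat_lit 52), (nat_lit 30), (nat_lit
 9), (nat_lit 1), (0, 5, 29), [19958, 167], 26⟩,
  ⟨⟨-31, 0, 0, 10, 19, -30, -4, -20, -19⟩, (.cons (nat_lit 17880) (nat_lit 10674) (nat_lit 28306) (nat_lit 1)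
 (.cons (nat_lit 2208) (nat_lit 291) (nat_lit 1993) (nat_lit 1) .nil)), (nat_lit 52), (nat_lit 30), (nat_lit
 9), (nat_lit 1), (0, 5, 29), [19958, 167], 26⟩,
  ⟨⟨-31, 0, 0, 10, 19, -30, -4, -20, -19⟩, (.cons (nat_lit 17880) (nat_lit 10674) (nat_lit 28306) (nat_lit 1)
 (.cons (nat_lit 2208) (nat_lit 291) (nat_lit 1993) (nat_lit 1) .nil)), (nat_lit 52), (nat_lit 30), (nat_lit
 9), (nat_lit 1), (0, 5, 29), [19958, 167], 26⟩,
  ⟨⟨-31, 0, 0, 10, 19, -30, -4, -20, -19⟩, (.cons (nat_lit 17880) (nat_lit 10674) (nat_lit 28306) (nat_lit 1)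
 (.cons (nat_lit 2208) (nat_lit 291) (nat_lit 1993) (nat_lit 1) .nil)), (nat_lit 52), (nat_lit 30), (nat_lit
 9), (nat_lit 1), (0, 5, 29), [19958, 167], 26⟩,
  ⟨⟨-31, 0, 0, 10, 19, -30, -4, -20, -19⟩, (.cons (nat_lit 17880) (nat_lit 10674) (nat_lit 28306) (nat_lit 1)
 (.cons (nat_lit 2208) (nat_lit 291) (nat_lit 1993) (nat_lit 1) .nil)), (nat_lit 52), (nat_lit 30), (nat_lit
 9), (nat_lit 1), (0, 5, 29), [19958, 167], 26⟩,
  ⟨⟨-31, 0, 0, 10, 19, -30, -4, -20, -19⟩, (.cons (nat_lit 17880) (nat_lit 10674) (nat_lit 28306) (nat_lit 1)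
 (.cons (nat_lit 2208) (nat_lit 291) (nat_lit 1993) (nat_lit 1) .nil)), (nat_lit 52), (nat_lit 30), (nat_lit
 9), (nat_lit 1), (0, 5, 29), [19958, 167], 26⟩,
  ⟨⟨27, -20, -19, 10, 19, -30, -4, -20, -19⟩, (.cons (nat_lit 26014) (nat_lit 474) (nat_lit 645) (nat_lit 1)
 (.cons (nat_lit 1928) (nat_lit 2106) (nat_lit 583) (nat_lit 1) .nil)), (nat_lit 50), (nat_lit 1), (nat_lit
 19), (nat_lit 1), (29, 5, 29), [11597, 543], 46⟩,
  ⟨⟨-31, 0, 0, 10, 19, -30, -4, -20, -19⟩, (.cons (nat_lit 17880) (nat_lit 10674) (nat_lit 28306) (nat_lit 1)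
 (.cons (nat_lit 2208) (nat_lit 291) (nat_lit 1993) (nat_lit 1) .nil)), (nat_lit 52), (nat_lit 30), (nat_lit
 9), (nat_lit 1), (0, 5, 29), [19958, 167], 26⟩]

/-- Moves. -/
noncomputable def t0_19 : List Mv := [
  ⟨⟨-9, 8, -31, -10, -29, 0, 20, -4, -31⟩, (.cons (nat_lit 21643) (nat_lit 14735) (nat_lit 10269) (nat_lit 1)
 (.cons (nat_lit 95) (nat_lit 552) (nat_lit 533) (nat_lit 1) .nil)), (nat_lit 8), (nat_lit 47), (nat_lit 4),
 (nat_lit 1), (2, 16, 30), [13374, 1208], 15⟩,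
  ⟨⟨-9, 8, -31, -10, -29, 0, 20, -4, -31⟩, (.cons (nat_lit 21643) (nat_lit 14735) (nat_lit 10269) (nat_lit 1)
 (.cons (nat_lit 95) (nat_lit 552) (nat_lit 533) (nat_lit 1) .nil)), (nat_lit 8), (nat_lit 47), (nat_lit 4),
 (nat_lit 1), (2, 16, 30), [13374, 1208], 15⟩,
  ⟨⟨-9, 8, -31, -10, -29, 0, 20, -4, -31⟩, (.cons (nat_lit 21643) (nat_lit 14735) (nat_lit 10269) (nat_lit 1)
 (.cons (nat_lit 95) (nat_lit 552) (nat_lit 533) (nat_lit 1) .nil)), (nat_lit 8), (nat_lit 47), (nat_lit 4),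
 (nat_lit 1), (2, 16, 30), [13374, 1208], 15⟩,
  ⟨⟨-9, 8, -31, -10, -29, 0, 20, -4, -31⟩, (.cons (nat_lit 21643) (nat_lit 14735) (nat_lit 10269) (nat_lit 1)
 (.cons (nat_lit 95) (nat_lit 552) (nat_lit 533) (nat_lit 1) .nil)), (nat_lit 8), (nat_lit 47), (nat_lit 4),
 (nat_lit 1), (2, 16, 30), [13374, 1208], 15⟩,
  ⟨⟨29, -12, 0, 10, 29, 0, 20, -4, -31⟩, (.cons (nat_lit 20720) (nat_lit 16478) (nat_lit 13284) (nat_lit 1)
 (.cons (nat_lit 1842) (nat_lit 1061) (nat_lit 1124) (nat_lit 1) .nil)), (nat_lit 13), (nat_lit 43), (nat_lit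
 34), (nat_lit 1), (28, 15, 30), [28346, 2201], 28⟩,
  ⟨⟨-9, 8, -31, -10, -29, 0, 20, -4, -31⟩, (.cons (nat_lit 21643) (nat_lit 14735) (nat_lit 10269) (nat_lit 1)
 (.cons (nat_lit 95) (nat_lit 552) (nat_lit 533) (nat_lit 1) .nil)), (nat_lit 8), (nat_lit 47), (nat_lit 4),
 (nat_lit 1), (2, 16, 30), [13374, 1208], 15⟩,
  ⟨⟨-9, 8, -31, -10, -29, 0, 20, -4, -31⟩, (.cons (nat_lit 21643) (nat_lit 14735) (nat_lit 10269) (nat_lit 1)
 (.cons (nat_lit 95) (nat_lit 552) (nat_lit 533) (nat_lit 1) .nil)), (nat_lit 8), (nat_lit 47), (nat_lit 4),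
 (nat_lit 1), (2, 16, 30), [13374, 1208], 15⟩,
  ⟨⟨29, -12, 0, 10, 29, 0, 20, -4, -31⟩, (.cons (nat_lit 20720) (nat_lit 16478) (nat_lit 13284) (nat_lit 1)
 (.cons (nat_lit 1842) (nat_lit 1061) (nat_lit 1124) (nat_lit 1) .nil)), (nat_lit 13), (nat_lit 43), (nat_lit
 34), (nat_lit 1), (28, 15, 30), [28346, 2201], 28⟩,
  ⟨⟨29, -12, 0, 10, 29, 0, 20, -4, -31⟩, (.cons (nat_lit 20720) (nat_lit 16478) (nat_lit 13284) (nat_lit 1)
 (.cons (nat_lit 1842) (nat_lit 1061) (nat_lit 1124) (nat_lit 1) .nil)), (nat_lit 13), (nat_lit 43), (nat_lit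
 34), (nat_lit 1), (28, 15, 30), [28346, 2201], 28⟩,
  ⟨⟨-9, 8, -31, -10, -29, 0, 20, -4, -31⟩, (.cons (nat_lit 21643) (nat_lit 14735) (nat_lit 10269) (nat_lit 1)
 (.cons (nat_lit 95) (nat_lit 552) (nat_lit 533) (nat_lit 1) .nil)), (nat_lit 8), (nat_lit 47), (nat_lit 4),
 (nat_lit 1), (2, 16, 30), [13374, 1208], 15⟩,
  ⟨⟨-9, 8, -31, 10, 29, 0, 20, -4, -31⟩, (.cons (nat_lit 20973) (nat_lit 27323) (nat_lit 28556) (nat_lit 1)
 (.cons (nat_lit 179) (nat_lit 1665) (nat_lit 1030) (nat_lit 1) .nil)), (nat_lit 24), (nat_lit 44), (nat_lit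
 24), (nat_lit 1), (2, 15, 30), [11675, 1684], 20⟩,
  ⟨⟨-9, 8, -31, -10, -29, 0, 20, -4, -31⟩, (.cons (nat_lit 21643) (nat_lit 14735) (nat_lit 10269) (nat_lit 1)
 (.cons (nat_lit 95) (nat_lit 552) (nat_lit 533) (nat_lit 1) .nil)), (nat_lit 8), (nat_lit 47), (nat_lit 4),
 (nat_lit 1), (2, 16, 30), [13374, 1208], 15⟩,
  ⟨⟨-9, 8, -31, 10, 29, 0, 20, -4, -31⟩, (.cons (nat_lit 20973) (nat_lit 27323) (nat_lit 28556) (nat_lit 1)
 (.cons (nat_lit 179) (nat_lit 1665) (nat_lit 1030) (nat_lit 1) .nil)), (nat_lit 24), (nat_lit 44), (nat_lit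
 24), (nat_lit 1), (2, 15, 30), [11675, 1684], 20⟩,
  ⟨⟨-9, 8, -31, 10, 29, 0, 20, -4, -31⟩, (.cons (nat_lit 20973) (nat_lit 27323) (nat_lit 28556) (nat_lit 1)
 (.cons (nat_lit 179) (nat_lit 1665) (nat_lit 1030) (nat_lit 1) .nil)), (nat_lit 24), (nat_lit 44), (nat_lit
 24), (nat_lit 1), (2, 15, 30), [11675, 1684], 20⟩,
  ⟨⟨-9, 8, -31, -10, -29, 0, 20, -4, -31⟩, (.cons (nat_lit 21643) (nat_lit 14735) (nat_lit 10269) (nat_lit 1)
 (.cons (nat_lit 95) (nat_lit 552) (nat_lit 533) (nat_lit 1) .nil)), (nat_lit 8), (nat_lit 47), (nat_lit 4),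
 (nat_lit 1), (2, 16, 30), [13374, 1208], 15⟩,
  ⟨⟨-9, 8, -31, 10, 29, 0, 20, -4, -31⟩, (.cons (nat_lit 20973) (nat_lit 27323) (nat_lit 28556) (nat_lit 1)
 (.cons (nat_lit 179) (nat_lit 1665) (nat_lit 1030) (nat_lit 1) .nil)), (nat_lit 24), (nat_lit 44), (nat_lit
 24), (nat_lit 1), (2, 15, 30), [11675, 1684], 20⟩,
  ⟨⟨29, -12, 0, 10, 29, 0, 20, -4, -31⟩, (.cons (nat_lit 20720) (nat_lit 16478) (nat_lit 13284) (nat_lit 1)
 (.cons (nat_lit 1842) (nat_lit 1061) (nat_lit 1124) (nat_lit 1) .nil)), (nat_lit 13), (nat_lit 43), (nat_lit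
 34), (nat_lit 1), (28, 15, 30), [28346, 2201], 28⟩,
  ⟨⟨-9, 8, -31, 10, 29, 0, 20, -4, -31⟩, (.cons (nat_lit 20973) (nat_lit 27323) (nat_lit 28556) (nat_lit 1)
 (.cons (nat_lit 179) (nat_lit 1665) (nat_lit 1030) (nat_lit 1) .nil)), (nat_lit 24), (nat_lit 44), (nat_lit
 24), (nat_lit 1), (2, 15, 30), [11675, 1684], 20⟩,
  ⟨⟨29, -12, 0, -10, -29, 0, 20, -4, -31⟩, (.cons (nat_lit 7144) (nat_lit 25088) (nat_lit 19193) (nat_lit 1)
 (.cons (nat_lit 2208) (nat_lit 435) (nat_lit 1473) (nat_lit 1) .nil)), (nat_lit 52), (nat_lit 11), (nat_lit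
 15), (nat_lit 1), (28, 16, 30), [5093, 2101], 48⟩,
  ⟨⟨29, -12, 0, -10, -29, 0, 20, -4, -31⟩, (.cons (nat_lit 7144) (nat_lit 25088) (nat_lit 19193) (nat_lit 1)
 (.cons (nat_lit 2208) (nat_lit 435) (nat_lit 1473) (nat_lit 1) .nil)), (nat_lit 52), (nat_lit 11), (nat_lit
 15), (nat_lit 1), (28, 16, 30), [5093, 2101], 48⟩,
  ⟨⟨-9, 8, -31, -10, -29, 0, 20, -4, -31⟩, (.cons (nat_lit 21643) (nat_lit 14735) (nat_lit 10269) (nat_lit 1)
 (.cons (nat_lit 95) (nat_lit 552) (nat_lit 533) (nat_lit 1) .nil)), (nat_lit 8), (nat_lit 47), (nat_lit 4),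
 (nat_lit 1), (2, 16, 30), [13374, 1208], 15⟩,
  ⟨⟨-9, 8, -31, -10, -29, 0, 20, -4, -31⟩, (.cons (nat_lit 21643) (nat_lit 14735) (nat_lit 10269) (nat_lit 1)
 (.cons (nat_lit 95) (nat_lit 552) (nat_lit 533) (nat_lit 1) .nil)), (nat_lit 8), (nat_lit 47), (nat_lit 4),
 (nat_lit 1), (2, 16, 30), [13374, 1208], 15⟩,
  ⟨⟨29, -12, 0, -10, -29, 0, 20, -4, -31⟩, (.cons (nat_lit 7144) (nat_lit 25088) (nat_lit 19193) (nat_lit 1)
 (.cons (nat_lit 2208) (nat_lit 435) (nat_lit 1473) (nat_lit 1) .nil)), (nat_lit 52), (nat_lit 11), (nat_lit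
 15), (nat_lit 1), (28, 16, 30), [5093, 2101], 48⟩,
  ⟨⟨-9, 8, -31, -10, -29, 0, 20, -4, -31⟩, (.cons (nat_lit 21643) (nat_lit 14735) (nat_lit 10269) (nat_lit 1)
 (.cons (nat_lit 95) (nat_lit 552) (nat_lit 533) (nat_lit 1) .nil)), (nat_lit 8), (nat_lit 47), (nat_lit 4),
 (nat_lit 1), (2, 16, 30), [13374, 1208], 15⟩,
  ⟨⟨29, -12, 0, -10, -29, 0, 20, -4, -31⟩, (.cons (nat_lit 7144) (nat_lit 25088) (nat_lit 19193) (nat_lit 1)
 (.cons (nat_lit 2208) (nat_lit 435) (nat_lit 1473) (nat_lit 1) .nil)), (nat_lit 52), (nat_lit 11), (nat_lit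
 15), (nat_lit 1), (28, 16, 30), [5093, 2101], 48⟩,
  ⟨⟨-9, 8, -31, -10, -29, 0, 20, -4, -31⟩, (.cons (nat_lit 21643) (nat_lit 14735) (nat_lit 10269) (nat_lit 1)
 (.cons (nat_lit 95) (nat_lit 552) (nat_lit 533) (nat_lit 1) .nil)), (nat_lit 8), (nat_lit 47), (nat_lit 4),
 (nat_lit 1), (2, 16, 30), [13374, 1208], 15⟩,
  ⟨⟨29, -12, 0, 10, 29, 0, 20, -4, -31⟩, (.cons (nat_lit 20720) (nat_lit 16478) (nat_lit 13284) (nat_lit 1)
 (.cons (nat_lit 1842) (nat_lit 1061) (nat_lit 1124) (nat_lit 1) .nil)), (nat_lit 13), (nat_lit 43), (nat_lit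
 34), (nat_lit 1), (28, 15, 30), [28346, 2201], 28⟩,
  ⟨⟨-9, 8, -31, -10, -29, 0, 20, -4, -31⟩, (.cons (nat_lit 21643) (nat_lit 14735) (nat_lit 10269) (nat_lit 1)
 (.cons (nat_lit 95) (nat_lit 552) (nat_lit 533) (nat_lit 1) .nil)), (nat_lit 8), (nat_lit 47), (nat_lit 4),
 (nat_lit 1), (2, 16, 30), [13374, 1208], 15⟩,
  ⟨⟨-9, 8, -31, -10, -29, 0, 20, -4, -31⟩, (.cons (nat_lit 21643) (nat_lit 14735) (nat_lit 10269) (nat_lit 1)
 (.cons (nat_lit 95) (nat_lit 552) (nat_lit 533) (nat_lit 1) .nil)), (nat_lit 8), (nat_lit 47), (nat_lit 4),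
 (nat_lit 1), (2, 16, 30), [13374, 1208], 15⟩,
  ⟨⟨-9, 8, -31, -10, -29, 0, 20, -4, -31⟩, (.cons (nat_lit 21643) (nat_lit 14735) (nat_lit 10269) (nat_lit 1)
 (.cons (nat_lit 95) (nat_lit 552) (nat_lit 533) (nat_lit 1) .nil)), (nat_lit 8), (nat_lit 47), (nat_lit 4),
 (nat_lit 1), (2, 16, 30), [13374, 1208], 15⟩,
  ⟨⟨-9, 8, -31, -10, -29, 0, 20, -4, -31⟩, (.cons (nat_lit 21643) (nat_lit 14735) (nat_lit 10269) (nat_lit 1)
 (.cons (nat_lit 95) (nat_lit 552) (nat_lit 533) (nat_lit 1) .nil)), (nat_lit 8), (nat_lit 47), (nat_lit 4),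
 (nat_lit 1), (2, 16, 30), [13374, 1208], 15⟩]

/-- Moves. -/
noncomputable def t1_1 : List Mv := [
  mz,
  ⟨⟨45, 16, -1, -22, 35, 36, 20, 28, -37⟩, (.cons (nat_lit 26341) (nat_lit 27638) (nat_lit 1) (nat_lit 21917)
 (.cons (nat_lit 472) (nat_lit 2204) (nat_lit 1486) (nat_lit 1) .nil)), (nat_lit 38), (nat_lit 49), (nat_lit
 23), (nat_lit 1), (34, 45, 36), [1760, 934], 38⟩,
  ⟨⟨-49, 12, 36, 2, 35, -36, -28, -20, -13⟩, (.cons (nat_lit 5260) (nat_lit 7036) (nat_lit 28384) (nat_lit 1)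
 (.cons (nat_lit 1161) (nat_lit 194) (nat_lit 1206) (nat_lit 1) .nil)), (nat_lit 9), (nat_lit 19), (nat_lit
 16), (nat_lit 1), (17, 30, 3), [16698, 1351], 21⟩,
  ⟨⟨39, 8, -56, 2, 45, 14, -12, 12, -37⟩, (.cons (nat_lit 29790) (nat_lit 23669) (nat_lit 20574) (nat_lit 1)
 (.cons (nat_lit 1122) (nat_lit 1160) (nat_lit 1126) (nat_lit 1) .nil)), (nat_lit 52), (nat_lit 32), (nat_lit
 20), (nat_lit 1), (14, 20, 21), [19714, 1728], 23⟩,
  mz,
  ⟨⟨-45, -16, 44, 22, -35, 14, -20, -28, -17⟩, (.cons (nat_lit 20054) (nat_lit 29658) (nat_lit 11935) (nat_lit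
 1) (.cons (nat_lit 1382) (nat_lit 676) (nat_lit 2038) (nat_lit 1) .nil)), (nat_lit 51), (nat_lit 27), (nat_lit
 27), (nat_lit 1), (12, 38, 21), [1753, 99], 13⟩,
  mz,
  mz,
  mz,
  ⟨⟨27, 32, -47, 40, -17, 0, 10, -16, -47⟩, (.cons (nat_lit 6023) (nat_lit 15725) (nat_lit 21003) (nat_lit 1)
 (.cons (nat_lit 1562) (nat_lit 1560) (nat_lit 1) (nat_lit 1363) .nil)), (nat_lit 37), (nat_lit 42), (nat_lit
 47), (nat_lit 1), (43, 8, 2), [2033, 179], 15⟩,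
  mz,
  ⟨⟨17, 48, -17, 40, -17, -40, -10, 16, -37⟩, (.cons (nat_lit 21056) (nat_lit 21365) (nat_lit 8227) (nat_lit 1)
 (.cons (nat_lit 1602) (nat_lit 1282) (nat_lit 178) (nat_lit 1) .nil)), (nat_lit 43), (nat_lit 49), (nat_lit
 46), (nat_lit 1), (25, 45, 24), [16599, 933], 16⟩,
  ⟨⟨21, 44, 8, -20, 23, -30, 38, 8, -37⟩, (.cons (nat_lit 16899) (nat_lit 3462) (nat_lit 14738) (nat_lit 1)
 (.cons (nat_lit 88) (nat_lit 1873) (nat_lit 197) (nat_lit 1) .nil)), (nat_lit 15), (nat_lit 14), (nat_lit 50),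
 (nat_lit 1), (29, 44, 1), [2909, 2199], 24⟩,
  mz,
  ⟨⟨-51, -4, 19, -2, 45, -14, -12, -12, -37⟩, (.cons (nat_lit 7954) (nat_lit 20601) (nat_lit 13702) (nat_lit 1)
 (.cons (nat_lit 414) (nat_lit 95) (nat_lit 51) (nat_lit 1) .nil)), (nat_lit 22), (nat_lit 44), (nat_lit 36),
 (nat_lit 1), (25, 36, 28), [11355, 2196], 44⟩,
  ⟨⟨9, 4, -61, 40, 23, -10, 22, -32, -29⟩, (.cons (nat_lit 6856) (nat_lit 9884) (nat_lit 10517) (nat_lit 1)
 (.cons (nat_lit 892) (nat_lit 661) (nat_lit 1320) (nat_lit 1) .nil)), (nat_lit 13), (nat_lit 23), (nat_lit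
 25), (nat_lit 1), (18, 33, 44), [7633, 927], 33⟩,
  ⟨⟨-13, 36, 45, 40, 23, -30, -22, 32, -7⟩, (.cons (nat_lit 29258) (nat_lit 25754) (nat_lit 11813) (nat_lit 1)
 (.cons (nat_lit 2015) (nat_lit 1298) (nat_lit 2026) (nat_lit 1) .nil)), (nat_lit 49), (nat_lit 42), (nat_lit
 2), (nat_lit 1), (5, 28, 41), [6080, 977], 51⟩,
  mz,
  ⟨⟨19, 0, -63, 0, -47, 0, 42, 0, -23⟩, (.cons (nat_lit 23766) (nat_lit 29227) (nat_lit 27795) (nat_lit 1)
 (.cons (nat_lit 1748) (nat_lit 1366) (nat_lit 963) (nat_lit 1) .nil)), (nat_lit 49), (nat_lit 50), (nat_lit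
 8), (nat_lit 1), (16, 0, 23), [16208, 1564], 14⟩,
  ⟨⟨-39, 32, 8, -20, -33, -20, 6, 24, -41⟩, (.cons (nat_lit 29693) (nat_lit 4758) (nat_lit 16809) (nat_lit 1)
 (.cons (nat_lit 1775) (nat_lit 303) (nat_lit 587) (nat_lit 1) .nil)), (nat_lit 37), (nat_lit 7), (nat_lit 24),
 (nat_lit 1), (25, 8, 7), [24824, 1575], 9⟩,
  ⟨⟨17, -36, 28, 20, -23, -50, 38, 8, -1⟩, (.cons (nat_lit 15632) (nat_lit 9775) (nat_lit 11847) (nat_lit 1)
 (.cons (nat_lit 1665) (nat_lit 1449) (nat_lit 1658) (nat_lit 1) .nil)), (nat_lit 46), (nat_lit 41), (nat_lit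
 39), (nat_lit 1), (2, 30, 10), [27445, 406], 43⟩,
  ⟨⟨21, 32, -49, 2, -35, -36, -28, 20, -13⟩, (.cons (nat_lit 29313) (nat_lit 4869) (nat_lit 4899) (nat_lit 1)
 (.cons (nat_lit 333) (nat_lit 1589) (nat_lit 1486) (nat_lit 1) .nil)), (nat_lit 37), (nat_lit 22), (nat_lit
 18), (nat_lit 1), (30, 23, 7), [380, 500], 34⟩,
  ⟨⟨45, 8, -49, -20, 33, -20, 6, -24, -41⟩, (.cons (nat_lit 11043) (nat_lit 16373) (nat_lit 17207) (nat_lit 1)
 (.cons (nat_lit 1469) (nat_lit 751) (nat_lit 243) (nat_lit 1) .nil)), (nat_lit 24), (nat_lit 16), (nat_lit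
 15), (nat_lit 1), (40, 24, 21), [12200, 2095], 29⟩,
  mz,
  mz,
  ⟨⟨39, -32, -31, -20, -33, 40, -6, -24, -35⟩, (.cons (nat_lit 8939) (nat_lit 2706) (nat_lit 26182) (nat_lit 1)
 (.cons (nat_lit 483) (nat_lit 547) (nat_lit 1099) (nat_lit 1) .nil)), (nat_lit 6), (nat_lit 41), (nat_lit 32),
 (nat_lit 1), (28, 23, 21), [12960, 178], 45⟩,
  ⟨⟨-21, 32, -28, -2, -35, -34, 28, 20, -41⟩, (.cons (nat_lit 28096) (nat_lit 12893) (nat_lit 1736) (nat_lit 1)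
 (.cons (nat_lit 1274) (nat_lit 140) (nat_lit 1035) (nat_lit 1) .nil)), (nat_lit 26), (nat_lit 40), (nat_lit
 40), (nat_lit 1), (30, 23, 7), [5947, 41], 43⟩,
  ⟨⟨17, 36, -45, -20, -23, -30, 38, -8, -37⟩, (.cons (nat_lit 6062) (nat_lit 19761) (nat_lit 21167) (nat_lit 1)
 (.cons (nat_lit 404) (nat_lit 600) (nat_lit 653) (nat_lit 1) .nil)), (nat_lit 33), (nat_lit 28), (nat_lit 51),
 (nat_lit 1), (45, 30, 37), [24021, 403], 4⟩,
  ⟨⟨-45, -8, -4, 20, -33, -40, -6, 24, -35⟩, (.cons (nat_lit 9016) (nat_lit 29686) (nat_lit 4029) (nat_lit 1)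
 (.cons (nat_lit 1239) (nat_lit 596) (nat_lit 450) (nat_lit 1) .nil)), (nat_lit 37), (nat_lit 44), (nat_lit
 52), (nat_lit 1), (29, 8, 7), [10595, 1881], 9⟩,
  ⟨⟨19, 0, 44, 0, -47, 0, 42, 0, -19⟩, (.cons (nat_lit 29790) (nat_lit 14434) (nat_lit 9884) (nat_lit 1) (.cons
 (nat_lit 1626) (nat_lit 16) (nat_lit 1962) (nat_lit 1) .nil)), (nat_lit 52), (nat_lit 26), (nat_lit 18),
 (nat_lit 1), (31, 0, 24), [12819, 1160], 5⟩,
  mz,
  ⟨⟨9, -4, -61, -40, 23, 10, 22, 32, -29⟩, (.cons (nat_lit 21512) (nat_lit 2467) (nat_lit 11292) (nat_lit 1)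
 (.cons (nat_lit 361) (nat_lit 1237) (nat_lit 105) (nat_lit 1) .nil)), (nat_lit 26), (nat_lit 8), (nat_lit 33),
 (nat_lit 1), (36, 28, 41), [16512, 807], 50⟩,
  ⟨⟨-9, 4, -52, 40, -23, -30, -22, -32, -7⟩, (.cons (nat_lit 18394) (nat_lit 3061) (nat_lit 1728) (nat_lit 1)
 (.cons (nat_lit 2082) (nat_lit 45) (nat_lit 1124) (nat_lit 1) .nil)), (nat_lit 6), (nat_lit 4), (nat_lit 14),
 (nat_lit 1), (18, 14, 44), [4298, 100], 35⟩,
  ⟨⟨-39, -8, -17, 2, 45, -16, 12, -12, -49⟩, (.cons (nat_lit 25098) (nat_lit 8698) (nat_lit 14508) (nat_lit 1)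
 (.cons (nat_lit 1332) (nat_lit 777) (nat_lit 592) (nat_lit 1) .nil)), (nat_lit 41), (nat_lit 51), (nat_lit 8),
 (nat_lit 1), (3, 36, 28), [1544, 820], 29⟩,
  mz,
  ⟨⟨17, 36, 28, 20, 23, -50, 38, -8, -1⟩, (.cons (nat_lit 9865) (nat_lit 19111) (nat_lit 6845) (nat_lit 1)
 (.cons (nat_lit 168) (nat_lit 1196) (nat_lit 34) (nat_lit 1) .nil)), (nat_lit 3), (nat_lit 26), (nat_lit 23),
 (nat_lit 1), (28, 44, 46), [11995, 734], 34⟩,
  ⟨⟨27, -32, -47, -40, -17, 0, 10, 16, -47⟩, (.cons (nat_lit 10179) (nat_lit 17819) (nat_lit 21595) (nat_lit 1)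
 (.cons (nat_lit 59) (nat_lit 2000) (nat_lit 1111) (nat_lit 1) .nil)), (nat_lit 32), (nat_lit 2), (nat_lit 30),
 (nat_lit 1), (46, 45, 24), [9657, 313], 9⟩,
  mz,
  ⟨⟨17, -48, -17, 40, 17, -40, -10, -16, -37⟩, (.cons (nat_lit 726) (nat_lit 27886) (nat_lit 23767) (nat_lit 1)
 (.cons (nat_lit 894) (nat_lit 1313) (nat_lit 256) (nat_lit 1) .nil)), (nat_lit 20), (nat_lit 11), (nat_lit
 18), (nat_lit 1), (6, 39, 2), [18245, 1675], 45⟩,
  mz,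
  mz,
  mz,
  ⟨⟨-25, -12, -36, 22, 35, -36, 20, -28, -37⟩, (.cons (nat_lit 22819) (nat_lit 19006) (nat_lit 21426) (nat_lit
 1) (.cons (nat_lit 498) (nat_lit 997) (nat_lit 1471) (nat_lit 1) .nil)), (nat_lit 6), (nat_lit 45), (nat_lit
 10), (nat_lit 1), (9, 9, 21), [6163, 687], 14⟩,
  mz,
  ⟨⟨51, 4, -32, 2, -45, -16, 12, 12, -49⟩, (.cons (nat_lit 14556) (nat_lit 20761) (nat_lit 1) (nat_lit 8060)
 (.cons (nat_lit 1664) (nat_lit 1547) (nat_lit 331) (nat_lit 1) .nil)), (nat_lit 17), (nat_lit 33), (nat_lit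
 4), (nat_lit 1), (7, 27, 21), [5693, 2095], 1⟩,
  ⟨⟨-21, -32, -28, -2, 35, -34, 28, -20, -41⟩, (.cons (nat_lit 15000) (nat_lit 22369) (nat_lit 1548) (nat_lit
 1) (.cons (nat_lit 1271) (nat_lit 1430) (nat_lit 1918) (nat_lit 1) .nil)), (nat_lit 17), (nat_lit 5), (nat_lit
 8), (nat_lit 1), (33, 30, 3), [23173, 2109], 32⟩,
  ⟨⟨-45, 16, 44, -22, -35, -14, -20, 28, -17⟩, (.cons (nat_lit 4143) (nat_lit 16583) (nat_lit 18258) (nat_lit
 1) (.cons (nat_lit 1571) (nat_lit 299) (nat_lit 225) (nat_lit 1) .nil)), (nat_lit 42), (nat_lit 44), (nat_lit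
 41), (nat_lit 1), (34, 2, 36), [20513, 1643], 28⟩]

/-- Moves. -/
noncomputable def t1_4 : List Mv := [
  mz,
  ⟨⟨45, 16, -1, 22, -35, -36, 20, 28, -37⟩, (.cons (nat_lit 10651) (nat_lit 12168) (nat_lit 14884) (nat_lit 1)
 (.cons (nat_lit 217) (nat_lit 236) (nat_lit 197) (nat_lit 1) .nil)), (nat_lit 37), (nat_lit 33), (nat_lit 12),
 (nat_lit 1), (34, 2, 36), [16934, 114], 34⟩,
  ⟨⟨21, -32, -49, 2, 35, -36, -28, -20, -13⟩, (.cons (nat_lit 2167) (nat_lit 21819) (nat_lit 1) (nat_lit 1550)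
 (.cons (nat_lit 578) (nat_lit 370) (nat_lit 1159) (nat_lit 1) .nil)), (nat_lit 38), (nat_lit 51), (nat_lit
 46), (nat_lit 1), (33, 30, 3), [9158, 1915], 38⟩,
  ⟨⟨39, 8, -56, -2, -45, -14, -12, 12, -37⟩, (.cons (nat_lit 28104) (nat_lit 29394) (nat_lit 1) (nat_lit 9579)
 (.cons (nat_lit 1190) (nat_lit 1050) (nat_lit 1824) (nat_lit 1) .nil)), (nat_lit 17), (nat_lit 25), (nat_lit
 18), (nat_lit 1), (14, 27, 21), [1082, 1193], 1⟩,
  mz,
  ⟨⟨-45, -16, 44, -22, 35, -14, -20, -28, -17⟩, (.cons (nat_lit 19243) (nat_lit 3492) (nat_lit 2836) (nat_lit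
 1) (.cons (nat_lit 823) (nat_lit 911) (nat_lit 1116) (nat_lit 1) .nil)), (nat_lit 25), (nat_lit 34), (nat_lit
 12), (nat_lit 1), (12, 9, 21), [9611, 287], 19⟩,
  mz,
  mz,
  mz,
  ⟨⟨-17, -48, 0, 40, -17, 0, 10, -16, -47⟩, (.cons (nat_lit 6999) (nat_lit 14998) (nat_lit 4298) (nat_lit 1)
 (.cons (nat_lit 1728) (nat_lit 1589) (nat_lit 1) (nat_lit 846) .nil)), (nat_lit 50), (nat_lit 21), (nat_lit
 24), (nat_lit 1), (6, 8, 2), [29409, 2059], 32⟩,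
  mz,
  ⟨⟨17, 48, -17, -40, 17, 40, -10, 16, -37⟩, (.cons (nat_lit 6554) (nat_lit 15836) (nat_lit 13302) (nat_lit 1)
 (.cons (nat_lit 1779) (nat_lit 466) (nat_lit 398) (nat_lit 1) .nil)), (nat_lit 20), (nat_lit 33), (nat_lit 6),
 (nat_lit 1), (25, 2, 24), [29653, 342], 45⟩,
  ⟨⟨17, -36, -45, -20, 23, -30, 38, 8, -37⟩, (.cons (nat_lit 13297) (nat_lit 14822) (nat_lit 12343) (nat_lit 1)
 (.cons (nat_lit 570) (nat_lit 1135) (nat_lit 2077) (nat_lit 1) .nil)), (nat_lit 26), (nat_lit 34), (nat_lit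
 14), (nat_lit 1), (19, 44, 1), [22216, 178], 50⟩,
  mz,
  ⟨⟨39, -8, -56, 2, -45, 14, -12, -12, -37⟩, (.cons (nat_lit 10943) (nat_lit 8070) (nat_lit 11761) (nat_lit 1)
 (.cons (nat_lit 349) (nat_lit 1415) (nat_lit 132) (nat_lit 1) .nil)), (nat_lit 25), (nat_lit 11), (nat_lit
 27), (nat_lit 1), (3, 11, 28), [22942, 1334], 42⟩,
  ⟨⟨13, -36, 32, 40, 23, -10, 22, -32, -29⟩, (.cons (nat_lit 14981) (nat_lit 1909) (nat_lit 20914) (nat_lit 1)
 (.cons (nat_lit 236) (nat_lit 1454) (nat_lit 1085) (nat_lit 1) .nil)), (nat_lit 46), (nat_lit 45), (nat_lit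
 32), (nat_lit 1), (26, 33, 44), [2191, 128], 10⟩,
  ⟨⟨-13, 36, 45, 40, 23, -30, -22, 32, -7⟩, (.cons (nat_lit 29258) (nat_lit 25754) (nat_lit 11813) (nat_lit 1)
 (.cons (nat_lit 2015) (nat_lit 1298) (nat_lit 2026) (nat_lit 1) .nil)), (nat_lit 49), (nat_lit 42), (nat_lit
 2), (nat_lit 1), (5, 28, 41), [6080, 977], 51⟩,
  mz,
  ⟨⟨19, 0, -63, 0, -47, 0, 42, 0, -23⟩, (.cons (nat_lit 23766) (nat_lit 29227) (nat_lit 27795) (nat_lit 1)
 (.cons (nat_lit 1748) (nat_lit 1366) (nat_lit 963) (nat_lit 1) .nil)), (nat_lit 49), (nat_lit 50), (nat_lit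
 8), (nat_lit 1), (16, 0, 23), [16208, 1564], 14⟩,
  ⟨⟨45, -8, -49, 20, 33, 20, 6, 24, -41⟩, (.cons (nat_lit 26388) (nat_lit 5426) (nat_lit 14735) (nat_lit 1)
 (.cons (nat_lit 2116) (nat_lit 1643) (nat_lit 1452) (nat_lit 1) .nil)), (nat_lit 24), (nat_lit 1), (nat_lit
 28), (nat_lit 1), (29, 39, 7), [12789, 9], 29⟩,
  ⟨⟨17, -36, 28, -20, 23, 50, 38, 8, -1⟩, (.cons (nat_lit 15796) (nat_lit 29028) (nat_lit 22859) (nat_lit 1)
 (.cons (nat_lit 1095) (nat_lit 1205) (nat_lit 1666) (nat_lit 1) .nil)), (nat_lit 9), (nat_lit 17), (nat_lit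
 33), (nat_lit 1), (2, 17, 10), [14711, 663], 27⟩,
  ⟨⟨-49, -12, 36, 2, -35, -36, -28, 20, -13⟩, (.cons (nat_lit 9444) (nat_lit 6649) (nat_lit 19805) (nat_lit 1)
 (.cons (nat_lit 748) (nat_lit 808) (nat_lit 499) (nat_lit 1) .nil)), (nat_lit 42), (nat_lit 31), (nat_lit 24),
 (nat_lit 1), (24, 23, 7), [14871, 406], 28⟩,
  ⟨⟨45, 8, -49, 20, -33, 20, 6, -24, -41⟩, (.cons (nat_lit 6511) (nat_lit 21339) (nat_lit 5230) (nat_lit 1)
 (.cons (nat_lit 557) (nat_lit 381) (nat_lit 2009) (nat_lit 1) .nil)), (nat_lit 26), (nat_lit 48), (nat_lit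
 31), (nat_lit 1), (40, 23, 21), [29469, 1651], 27⟩,
  mz,
  mz,
  ⟨⟨39, -32, -31, 20, 33, -40, -6, -24, -35⟩, (.cons (nat_lit 1187) (nat_lit 18772) (nat_lit 11917) (nat_lit 1)
 (.cons (nat_lit 2065) (nat_lit 979) (nat_lit 1224) (nat_lit 1) .nil)), (nat_lit 42), (nat_lit 17), (nat_lit
 6), (nat_lit 1), (28, 24, 21), [14800, 1162], 11⟩,
  ⟨⟨-21, 32, -28, -2, -35, -34, 28, 20, -41⟩, (.cons (nat_lit 28096) (nat_lit 12893) (nat_lit 1736) (nat_lit 1)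
 (.cons (nat_lit 1274) (nat_lit 140) (nat_lit 1035) (nat_lit 1) .nil)), (nat_lit 26), (nat_lit 40), (nat_lit
 40), (nat_lit 1), (30, 23, 7), [5947, 41], 43⟩,
  ⟨⟨21, -44, 8, 20, 23, 30, 38, -8, -37⟩, (.cons (nat_lit 17265) (nat_lit 9631) (nat_lit 22877) (nat_lit 1)
 (.cons (nat_lit 1596) (nat_lit 1542) (nat_lit 1322) (nat_lit 1) .nil)), (nat_lit 26), (nat_lit 40), (nat_lit
 22), (nat_lit 1), (39, 17, 37), [15909, 230], 17⟩,
  ⟨⟨39, 32, -31, 20, -33, -40, -6, 24, -35⟩, (.cons (nat_lit 10789) (nat_lit 28168) (nat_lit 27475) (nat_lit 1)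
 (.cons (nat_lit 2004) (nat_lit 156) (nat_lit 262) (nat_lit 1) .nil)), (nat_lit 51), (nat_lit 43), (nat_lit 9),
 (nat_lit 1), (25, 8, 7), [24261, 894], 2⟩,
  ⟨⟨19, 0, 44, 0, -47, 0, 42, 0, -19⟩, (.cons (nat_lit 29790) (nat_lit 14434) (nat_lit 9884) (nat_lit 1) (.cons
 (nat_lit 1626) (nat_lit 16) (nat_lit 1962) (nat_lit 1) .nil)), (nat_lit 52), (nat_lit 26), (nat_lit 18),
 (nat_lit 1), (31, 0, 24), [12819, 1160], 5⟩,
  mz,
  ⟨⟨9, -4, -61, 40, -23, -10, 22, 32, -29⟩, (.cons (nat_lit 28289) (nat_lit 9359) (nat_lit 19155) (nat_lit 1)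
 (.cons (nat_lit 1469) (nat_lit 1394) (nat_lit 1785) (nat_lit 1) .nil)), (nat_lit 33), (nat_lit 14), (nat_lit
 49), (nat_lit 1), (36, 19, 41), [19588, 1696], 4⟩,
  ⟨⟨-13, -36, 45, 40, -23, -30, -22, -32, -7⟩, (.cons (nat_lit 14178) (nat_lit 12897) (nat_lit 8808) (nat_lit
 1) (.cons (nat_lit 2007) (nat_lit 1130) (nat_lit 43) (nat_lit 1) .nil)), (nat_lit 45), (nat_lit 12), (nat_lit
 37), (nat_lit 1), (26, 14, 44), [13652, 194], 44⟩,
  ⟨⟨-39, -8, -17, 2, 45, -16, 12, -12, -49⟩, (.cons (nat_lit 25098) (nat_lit 8698) (nat_lit 14508) (nat_lit 1)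
 (.cons (nat_lit 1332) (nat_lit 777) (nat_lit 592) (nat_lit 1) .nil)), (nat_lit 41), (nat_lit 51), (nat_lit 8),
 (nat_lit 1), (3, 36, 28), [1544, 820], 29⟩,
  mz,
  ⟨⟨17, 36, 28, 20, 23, -50, 38, -8, -1⟩, (.cons (nat_lit 9865) (nat_lit 19111) (nat_lit 6845) (nat_lit 1)
 (.cons (nat_lit 168) (nat_lit 1196) (nat_lit 34) (nat_lit 1) .nil)), (nat_lit 3), (nat_lit 26), (nat_lit 23),
 (nat_lit 1), (28, 44, 46), [11995, 734], 34⟩,
  ⟨⟨27, -32, -47, -40, -17, 0, 10, 16, -47⟩, (.cons (nat_lit 10179) (nat_lit 17819) (nat_lit 21595) (nat_lit 1)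
 (.cons (nat_lit 59) (nat_lit 2000) (nat_lit 1111) (nat_lit 1) .nil)), (nat_lit 32), (nat_lit 2), (nat_lit 30),
 (nat_lit 1), (46, 45, 24), [9657, 313], 9⟩,
  mz,
  ⟨⟨17, -48, -17, 40, 17, -40, -10, -16, -37⟩, (.cons (nat_lit 726) (nat_lit 27886) (nat_lit 23767) (nat_lit 1)
 (.cons (nat_lit 894) (nat_lit 1313) (nat_lit 256) (nat_lit 1) .nil)), (nat_lit 20), (nat_lit 11), (nat_lit
 18), (nat_lit 1), (6, 39, 2), [18245, 1675], 45⟩,
  mz,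
  mz,
  mz,
  ⟨⟨-25, -12, -36, -22, -35, 36, 20, -28, -37⟩, (.cons (nat_lit 5656) (nat_lit 19289) (nat_lit 26871) (nat_lit
 1) (.cons (nat_lit 1732) (nat_lit 963) (nat_lit 1300) (nat_lit 1) .nil)), (nat_lit 24), (nat_lit 51), (nat_lit
 7), (nat_lit 1), (9, 38, 21), [8187, 2083], 16⟩,
  mz,
  ⟨⟨51, 4, -32, 2, -45, -16, 12, 12, -49⟩, (.cons (nat_lit 14556) (nat_lit 20761) (nat_lit 1) (nat_lit 8060)
 (.cons (nat_lit 1664) (nat_lit 1547) (nat_lit 331) (nat_lit 1) .nil)), (nat_lit 17), (nat_lit 33), (nat_lit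
 4), (nat_lit 1), (7, 27, 21), [5693, 2095], 1⟩,
  ⟨⟨-21, -32, -28, 2, -35, 34, 28, -20, -41⟩, (.cons (nat_lit 11577) (nat_lit 21604) (nat_lit 24070) (nat_lit
 1) (.cons (nat_lit 2082) (nat_lit 411) (nat_lit 2054) (nat_lit 1) .nil)), (nat_lit 24), (nat_lit 4), (nat_lit
 23), (nat_lit 1), (33, 17, 3), [23625, 483], 16⟩,
  ⟨⟨-45, 16, 44, -22, -35, -14, -20, 28, -17⟩, (.cons (nat_lit 4143) (nat_lit 16583) (nat_lit 18258) (nat_lit
 1) (.cons (nat_lit 1571) (nat_lit 299) (nat_lit 225) (nat_lit 1) .nil)), (nat_lit 42), (nat_lit 44), (nat_lit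
 41), (nat_lit 1), (34, 2, 36), [20513, 1643], 28⟩]

/-- Moves. -/
noncomputable def t1_6 : List Mv := [
  mz,
  ⟨⟨45, 16, -1, 22, -35, -36, 20, 28, -37⟩, (.cons (nat_lit 10651) (nat_lit 12168) (nat_lit 14884) (nat_lit 1)
 (.cons (nat_lit 217) (nat_lit 236) (nat_lit 197) (nat_lit 1) .nil)), (nat_lit 37), (nat_lit 33), (nat_lit 12),
 (nat_lit 1), (34, 2, 36), [16934, 114], 34⟩,
  ⟨⟨-49, 12, 36, -2, -35, 36, -28, -20, -13⟩, (.cons (nat_lit 7964) (nat_lit 13113) (nat_lit 2586) (nat_lit 1)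
 (.cons (nat_lit 1674) (nat_lit 1981) (nat_lit 1580) (nat_lit 1) .nil)), (nat_lit 51), (nat_lit 23), (nat_lit
 34), (nat_lit 1), (17, 17, 3), [4512, 362], 13⟩,
  ⟨⟨39, 8, -56, -2, -45, -14, -12, 12, -37⟩, (.cons (nat_lit 28104) (nat_lit 29394) (nat_lit 1) (nat_lit 9579)
 (.cons (nat_lit 1190) (nat_lit 1050) (nat_lit 1824) (nat_lit 1) .nil)), (nat_lit 17), (nat_lit 25), (nat_lit
 18), (nat_lit 1), (14, 27, 21), [1082, 1193], 1⟩,
  mz,
  ⟨⟨-45, -16, 44, 22, -35, 14, -20, -28, -17⟩, (.cons (nat_lit 20054) (nat_lit 29658) (nat_lit 11935) (nat_lit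
 1) (.cons (nat_lit 1382) (nat_lit 676) (nat_lit 2038) (nat_lit 1) .nil)), (nat_lit 51), (nat_lit 27), (nat_lit
 27), (nat_lit 1), (12, 38, 21), [1753, 99], 13⟩,
  mz,
  mz,
  mz,
  ⟨⟨27, 32, -47, -40, 17, 0, 10, -16, -47⟩, (.cons (nat_lit 1190) (nat_lit 2834) (nat_lit 18720) (nat_lit 1)
 (.cons (nat_lit 1211) (nat_lit 1316) (nat_lit 278) (nat_lit 1) .nil)), (nat_lit 8), (nat_lit 18), (nat_lit
 15), (nat_lit 1), (43, 39, 2), [23094, 152], 18⟩,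
  mz,
  ⟨⟨17, 48, -17, 40, -17, -40, -10, 16, -37⟩, (.cons (nat_lit 21056) (nat_lit 21365) (nat_lit 8227) (nat_lit 1)
 (.cons (nat_lit 1602) (nat_lit 1282) (nat_lit 178) (nat_lit 1) .nil)), (nat_lit 43), (nat_lit 49), (nat_lit
 46), (nat_lit 1), (25, 45, 24), [16599, 933], 16⟩,
  ⟨⟨17, -36, -45, -20, 23, -30, 38, 8, -37⟩, (.cons (nat_lit 13297) (nat_lit 14822) (nat_lit 12343) (nat_lit 1)
 (.cons (nat_lit 570) (nat_lit 1135) (nat_lit 2077) (nat_lit 1) .nil)), (nat_lit 26), (nat_lit 34), (nat_lit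
 14), (nat_lit 1), (19, 44, 1), [22216, 178], 50⟩,
  mz,
  ⟨⟨-51, -4, 19, -2, 45, -14, -12, -12, -37⟩, (.cons (nat_lit 7954) (nat_lit 20601) (nat_lit 13702) (nat_lit 1)
 (.cons (nat_lit 414) (nat_lit 95) (nat_lit 51) (nat_lit 1) .nil)), (nat_lit 22), (nat_lit 44), (nat_lit 36),
 (nat_lit 1), (25, 36, 28), [11355, 2196], 44⟩,
  ⟨⟨9, 4, -61, 40, 23, -10, 22, -32, -29⟩, (.cons (nat_lit 6856) (nat_lit 9884) (nat_lit 10517) (nat_lit 1)
 (.cons (nat_lit 892) (nat_lit 661) (nat_lit 1320) (nat_lit 1) .nil)), (nat_lit 13), (nat_lit 23), (nat_lit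
 25), (nat_lit 1), (18, 33, 44), [7633, 927], 33⟩,
  ⟨⟨-13, 36, 45, 40, 23, -30, -22, 32, -7⟩, (.cons (nat_lit 29258) (nat_lit 25754) (nat_lit 11813) (nat_lit 1)
 (.cons (nat_lit 2015) (nat_lit 1298) (nat_lit 2026) (nat_lit 1) .nil)), (nat_lit 49), (nat_lit 42), (nat_lit
 2), (nat_lit 1), (5, 28, 41), [6080, 977], 51⟩,
  mz,
  ⟨⟨19, 0, -63, 0, -47, 0, 42, 0, -23⟩, (.cons (nat_lit 23766) (nat_lit 29227) (nat_lit 27795) (nat_lit 1)
 (.cons (nat_lit 1748) (nat_lit 1366) (nat_lit 963) (nat_lit 1) .nil)), (nat_lit 49), (nat_lit 50), (nat_lit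
 8), (nat_lit 1), (16, 0, 23), [16208, 1564], 14⟩,
  ⟨⟨45, -8, -49, 20, 33, 20, 6, 24, -41⟩, (.cons (nat_lit 26388) (nat_lit 5426) (nat_lit 14735) (nat_lit 1)
 (.cons (nat_lit 2116) (nat_lit 1643) (nat_lit 1452) (nat_lit 1) .nil)), (nat_lit 24), (nat_lit 1), (nat_lit
 28), (nat_lit 1), (29, 39, 7), [12789, 9], 29⟩,
  ⟨⟨17, -36, 28, 20, -23, -50, 38, 8, -1⟩, (.cons (nat_lit 15632) (nat_lit 9775) (nat_lit 11847) (nat_lit 1)
 (.cons (nat_lit 1665) (nat_lit 1449) (nat_lit 1658) (nat_lit 1) .nil)), (nat_lit 46), (nat_lit 41), (nat_lit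
 39), (nat_lit 1), (2, 30, 10), [27445, 406], 43⟩,
  ⟨⟨-49, -12, 36, -2, 35, 36, -28, 20, -13⟩, (.cons (nat_lit 23397) (nat_lit 6006) (nat_lit 12874) (nat_lit 1)
 (.cons (nat_lit 1608) (nat_lit 788) (nat_lit 1091) (nat_lit 1) .nil)), (nat_lit 25), (nat_lit 22), (nat_lit
 33), (nat_lit 1), (24, 24, 7), [13641, 1201], 19⟩,
  ⟨⟨45, 8, -49, -20, 33, -20, 6, -24, -41⟩, (.cons (nat_lit 11043) (nat_lit 16373) (nat_lit 17207) (nat_lit 1)
 (.cons (nat_lit 1469) (nat_lit 751) (nat_lit 243) (nat_lit 1) .nil)), (nat_lit 24), (nat_lit 16), (nat_lit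
 15), (nat_lit 1), (40, 24, 21), [12200, 2095], 29⟩,
  mz,
  mz,
  ⟨⟨39, -32, -31, 20, 33, -40, -6, -24, -35⟩, (.cons (nat_lit 1187) (nat_lit 18772) (nat_lit 11917) (nat_lit 1)
 (.cons (nat_lit 2065) (nat_lit 979) (nat_lit 1224) (nat_lit 1) .nil)), (nat_lit 42), (nat_lit 17), (nat_lit
 6), (nat_lit 1), (28, 24, 21), [14800, 1162], 11⟩,
  ⟨⟨-21, 32, -28, 2, 35, 34, 28, 20, -41⟩, (.cons (nat_lit 18913) (nat_lit 7644) (nat_lit 8686) (nat_lit 1)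
 (.cons (nat_lit 1838) (nat_lit 1744) (nat_lit 888) (nat_lit 1) .nil)), (nat_lit 6), (nat_lit 36), (nat_lit
 39), (nat_lit 1), (30, 24, 7), [583, 1675], 14⟩,
  ⟨⟨17, 36, -45, 20, 23, 30, 38, -8, -37⟩, (.cons (nat_lit 10452) (nat_lit 10668) (nat_lit 14219) (nat_lit 1)
 (.cons (nat_lit 2117) (nat_lit 855) (nat_lit 53) (nat_lit 1) .nil)), (nat_lit 13), (nat_lit 37), (nat_lit 27),
 (nat_lit 1), (45, 17, 37), [8656, 982], 33⟩,
  ⟨⟨39, 32, -31, -20, 33, 40, -6, 24, -35⟩, (.cons (nat_lit 26762) (nat_lit 20513) (nat_lit 5397) (nat_lit 1)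
 (.cons (nat_lit 1918) (nat_lit 830) (nat_lit 472) (nat_lit 1) .nil)), (nat_lit 42), (nat_lit 11), (nat_lit
 43), (nat_lit 1), (25, 39, 7), [4415, 1058], 11⟩,
  ⟨⟨23, 0, -63, 0, 47, 0, 42, 0, -19⟩, (.cons (nat_lit 22923) (nat_lit 29069) (nat_lit 25123) (nat_lit 1)
 (.cons (nat_lit 1042) (nat_lit 1942) (nat_lit 601) (nat_lit 1) .nil)), (nat_lit 13), (nat_lit 39), (nat_lit
 2), (nat_lit 1), (40, 0, 24), [29531, 252], 19⟩,
  mz,
  ⟨⟨13, 36, 32, -40, 23, 10, 22, 32, -29⟩, (.cons (nat_lit 14182) (nat_lit 4893) (nat_lit 12167) (nat_lit 1)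
 (.cons (nat_lit 1754) (nat_lit 1724) (nat_lit 1609) (nat_lit 1) .nil)), (nat_lit 51), (nat_lit 27), (nat_lit
 44), (nat_lit 1), (5, 28, 41), [15703, 2076], 15⟩,
  ⟨⟨-9, 4, -52, 40, -23, -30, -22, -32, -7⟩, (.cons (nat_lit 18394) (nat_lit 3061) (nat_lit 1728) (nat_lit 1)
 (.cons (nat_lit 2082) (nat_lit 45) (nat_lit 1124) (nat_lit 1) .nil)), (nat_lit 6), (nat_lit 4), (nat_lit 14),
 (nat_lit 1), (18, 14, 44), [4298, 100], 35⟩,
  ⟨⟨-39, -8, -17, 2, 45, -16, 12, -12, -49⟩, (.cons (nat_lit 25098) (nat_lit 8698) (nat_lit 14508) (nat_lit 1)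
 (.cons (nat_lit 1332) (nat_lit 777) (nat_lit 592) (nat_lit 1) .nil)), (nat_lit 41), (nat_lit 51), (nat_lit 8),
 (nat_lit 1), (3, 36, 28), [1544, 820], 29⟩,
  mz,
  ⟨⟨17, 36, 28, 20, 23, -50, 38, -8, -1⟩, (.cons (nat_lit 9865) (nat_lit 19111) (nat_lit 6845) (nat_lit 1)
 (.cons (nat_lit 168) (nat_lit 1196) (nat_lit 34) (nat_lit 1) .nil)), (nat_lit 3), (nat_lit 26), (nat_lit 23),
 (nat_lit 1), (28, 44, 46), [11995, 734], 34⟩,
  ⟨⟨27, -32, -47, 40, 17, 0, 10, 16, -47⟩, (.cons (nat_lit 29741) (nat_lit 17234) (nat_lit 9698) (nat_lit 1)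
 (.cons (nat_lit 316) (nat_lit 2207) (nat_lit 738) (nat_lit 1) .nil)), (nat_lit 8), (nat_lit 1), (nat_lit 5),
 (nat_lit 1), (46, 2, 24), [12492, 417], 18⟩,
  mz,
  ⟨⟨17, -48, -17, 40, 17, -40, -10, -16, -37⟩, (.cons (nat_lit 726) (nat_lit 27886) (nat_lit 23767) (nat_lit 1)
 (.cons (nat_lit 894) (nat_lit 1313) (nat_lit 256) (nat_lit 1) .nil)), (nat_lit 20), (nat_lit 11), (nat_lit
 18), (nat_lit 1), (6, 39, 2), [18245, 1675], 45⟩,
  mz,
  mz,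
  mz,
  ⟨⟨45, -16, -1, 22, 35, -36, 20, -28, -37⟩, (.cons (nat_lit 12396) (nat_lit 1220) (nat_lit 20679) (nat_lit 1)
 (.cons (nat_lit 630) (nat_lit 554) (nat_lit 296) (nat_lit 1) .nil)), (nat_lit 2), (nat_lit 23), (nat_lit 41),
 (nat_lit 1), (12, 9, 21), [5686, 2097], 25⟩,
  mz,
  ⟨⟨51, 4, -32, 2, -45, -16, 12, 12, -49⟩, (.cons (nat_lit 14556) (nat_lit 20761) (nat_lit 1) (nat_lit 8060)
 (.cons (nat_lit 1664) (nat_lit 1547) (nat_lit 331) (nat_lit 1) .nil)), (nat_lit 17), (nat_lit 33), (nat_lit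
 4), (nat_lit 1), (7, 27, 21), [5693, 2095], 1⟩,
  ⟨⟨-21, -32, -28, -2, 35, -34, 28, -20, -41⟩, (.cons (nat_lit 15000) (nat_lit 22369) (nat_lit 1548) (nat_lit
 1) (.cons (nat_lit 1271) (nat_lit 1430) (nat_lit 1918) (nat_lit 1) .nil)), (nat_lit 17), (nat_lit 5), (nat_lit
 8), (nat_lit 1), (33, 30, 3), [23173, 2109], 32⟩,
  ⟨⟨-45, 16, 44, 22, 35, 14, -20, 28, -17⟩, (.cons (nat_lit 26836) (nat_lit 6442) (nat_lit 17079) (nat_lit 1)
 (.cons (nat_lit 484) (nat_lit 1371) (nat_lit 438) (nat_lit 1) .nil)), (nat_lit 9), (nat_lit 47), (nat_lit 20),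
 (nat_lit 1), (34, 45, 36), [24913, 834], 21⟩]

/-- Moves. -/
noncomputable def t1_8 : List Mv := [
  mz,
  ⟨⟨-25, 12, -36, -22, 35, 36, 20, 28, -37⟩, (.cons (nat_lit 25416) (nat_lit 588) (nat_lit 18760) (nat_lit 1)
 (.cons (nat_lit 1079) (nat_lit 710) (nat_lit 405) (nat_lit 1) .nil)), (nat_lit 17), (nat_lit 50), (nat_lit
 22), (nat_lit 1), (2, 45, 36), [4325, 699], 32⟩,
  ⟨⟨21, -32, -49, 2, 35, -36, -28, -20, -13⟩, (.cons (nat_lit 2167) (nat_lit 21819) (nat_lit 1) (nat_lit 1550)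
 (.cons (nat_lit 578) (nat_lit 370) (nat_lit 1159) (nat_lit 1) .nil)), (nat_lit 38), (nat_lit 51), (nat_lit
 46), (nat_lit 1), (33, 30, 3), [9158, 1915], 38⟩,
  ⟨⟨-51, 4, 19, -2, -45, -14, -12, 12, -37⟩, (.cons (nat_lit 14394) (nat_lit 18785) (nat_lit 24271) (nat_lit 1)
 (.cons (nat_lit 361) (nat_lit 1112) (nat_lit 790) (nat_lit 1) .nil)), (nat_lit 11), (nat_lit 35), (nat_lit
 48), (nat_lit 1), (7, 27, 21), [27338, 1146], 3⟩,
  mz,
  ⟨⟨25, -12, -61, -22, 35, -14, -20, -28, -17⟩, (.cons (nat_lit 9734) (nat_lit 2437) (nat_lit 1416) (nat_lit 1)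
 (.cons (nat_lit 211) (nat_lit 781) (nat_lit 2056) (nat_lit 1) .nil)), (nat_lit 7), (nat_lit 14), (nat_lit 49),
 (nat_lit 1), (9, 9, 21), [24178, 1791], 7⟩,
  mz,
  mz,
  mz,
  ⟨⟨27, 32, -47, -40, 17, 0, 10, -16, -47⟩, (.cons (nat_lit 1190) (nat_lit 2834) (nat_lit 18720) (nat_lit 1)
 (.cons (nat_lit 1211) (nat_lit 1316) (nat_lit 278) (nat_lit 1) .nil)), (nat_lit 8), (nat_lit 18), (nat_lit
 15), (nat_lit 1), (43, 39, 2), [23094, 152], 18⟩,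
  mz,
  ⟨⟨17, 48, -17, 40, -17, -40, -10, 16, -37⟩, (.cons (nat_lit 21056) (nat_lit 21365) (nat_lit 8227) (nat_lit 1)
 (.cons (nat_lit 1602) (nat_lit 1282) (nat_lit 178) (nat_lit 1) .nil)), (nat_lit 43), (nat_lit 49), (nat_lit
 46), (nat_lit 1), (25, 45, 24), [16599, 933], 16⟩,
  ⟨⟨17, -36, -45, -20, 23, -30, 38, 8, -37⟩, (.cons (nat_lit 13297) (nat_lit 14822) (nat_lit 12343) (nat_lit 1)
 (.cons (nat_lit 570) (nat_lit 1135) (nat_lit 2077) (nat_lit 1) .nil)), (nat_lit 26), (nat_lit 34), (nat_lit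
 14), (nat_lit 1), (19, 44, 1), [22216, 178], 50⟩,
  mz,
  ⟨⟨-51, -4, 19, -2, 45, -14, -12, -12, -37⟩, (.cons (nat_lit 7954) (nat_lit 20601) (nat_lit 13702) (nat_lit 1)
 (.cons (nat_lit 414) (nat_lit 95) (nat_lit 51) (nat_lit 1) .nil)), (nat_lit 22), (nat_lit 44), (nat_lit 36),
 (nat_lit 1), (25, 36, 28), [11355, 2196], 44⟩,
  ⟨⟨13, -36, 32, -40, -23, 10, 22, -32, -29⟩, (.cons (nat_lit 13089) (nat_lit 28083) (nat_lit 9020) (nat_lit 1)
 (.cons (nat_lit 1166) (nat_lit 1678) (nat_lit 736) (nat_lit 1) .nil)), (nat_lit 3), (nat_lit 51), (nat_lit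
 19), (nat_lit 1), (26, 14, 44), [8837, 989], 19⟩,
  ⟨⟨-9, -4, -52, -40, -23, 30, -22, 32, -7⟩, (.cons (nat_lit 29335) (nat_lit 15644) (nat_lit 23056) (nat_lit 1)
 (.cons (nat_lit 137) (nat_lit 1193) (nat_lit 580) (nat_lit 1) .nil)), (nat_lit 18), (nat_lit 9), (nat_lit 10),
 (nat_lit 1), (36, 19, 41), [29364, 1823], 8⟩,
  mz,
  ⟨⟨19, 0, -63, 0, -47, 0, 42, 0, -23⟩, (.cons (nat_lit 23766) (nat_lit 29227) (nat_lit 27795) (nat_lit 1)
 (.cons (nat_lit 1748) (nat_lit 1366) (nat_lit 963) (nat_lit 1) .nil)), (nat_lit 49), (nat_lit 50), (nat_lit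
 8), (nat_lit 1), (16, 0, 23), [16208, 1564], 14⟩,
  ⟨⟨-39, 32, 8, -20, -33, -20, 6, 24, -41⟩, (.cons (nat_lit 29693) (nat_lit 4758) (nat_lit 16809) (nat_lit 1)
 (.cons (nat_lit 1775) (nat_lit 303) (nat_lit 587) (nat_lit 1) .nil)), (nat_lit 37), (nat_lit 7), (nat_lit 24),
 (nat_lit 1), (25, 8, 7), [24824, 1575], 9⟩,
  ⟨⟨17, -36, 28, -20, 23, 50, 38, 8, -1⟩, (.cons (nat_lit 15796) (nat_lit 29028) (nat_lit 22859) (nat_lit 1)
 (.cons (nat_lit 1095) (nat_lit 1205) (nat_lit 1666) (nat_lit 1) .nil)), (nat_lit 9), (nat_lit 17), (nat_lit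
 33), (nat_lit 1), (2, 17, 10), [14711, 663], 27⟩,
  ⟨⟨21, 32, -49, 2, -35, -36, -28, 20, -13⟩, (.cons (nat_lit 29313) (nat_lit 4869) (nat_lit 4899) (nat_lit 1)
 (.cons (nat_lit 333) (nat_lit 1589) (nat_lit 1486) (nat_lit 1) .nil)), (nat_lit 37), (nat_lit 22), (nat_lit
 18), (nat_lit 1), (30, 23, 7), [380, 500], 34⟩,
  ⟨⟨-39, -32, 8, -20, 33, -20, 6, -24, -41⟩, (.cons (nat_lit 29790) (nat_lit 18018) (nat_lit 19051) (nat_lit 1)
 (.cons (nat_lit 1868) (nat_lit 2069) (nat_lit 1794) (nat_lit 1) .nil)), (nat_lit 52), (nat_lit 41), (nat_lit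
 16), (nat_lit 1), (28, 24, 21), [23066, 1202], 20⟩,
  mz,
  mz,
  ⟨⟨-45, 8, -4, 20, 33, -40, -6, -24, -35⟩, (.cons (nat_lit 29790) (nat_lit 2709) (nat_lit 12787) (nat_lit 1)
 (.cons (nat_lit 1084) (nat_lit 431) (nat_lit 1459) (nat_lit 1) .nil)), (nat_lit 52), (nat_lit 48), (nat_lit
 26), (nat_lit 1), (40, 24, 21), [28693, 1820], 21⟩,
  ⟨⟨49, -12, -13, 2, 35, 34, 28, 20, -41⟩, (.cons (nat_lit 12834) (nat_lit 20145) (nat_lit 27969) (nat_lit 1)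
 (.cons (nat_lit 747) (nat_lit 1170) (nat_lit 2110) (nat_lit 1) .nil)), (nat_lit 7), (nat_lit 28), (nat_lit
 51), (nat_lit 1), (24, 24, 7), [3129, 500], 7⟩,
  ⟨⟨17, 36, -45, -20, -23, -30, 38, -8, -37⟩, (.cons (nat_lit 6062) (nat_lit 19761) (nat_lit 21167) (nat_lit 1)
 (.cons (nat_lit 404) (nat_lit 600) (nat_lit 653) (nat_lit 1) .nil)), (nat_lit 33), (nat_lit 28), (nat_lit 51),
 (nat_lit 1), (45, 30, 37), [24021, 403], 4⟩,
  ⟨⟨-45, -8, -4, 20, -33, -40, -6, 24, -35⟩, (.cons (nat_lit 9016) (nat_lit 29686) (nat_lit 4029) (nat_lit 1)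
 (.cons (nat_lit 1239) (nat_lit 596) (nat_lit 450) (nat_lit 1) .nil)), (nat_lit 37), (nat_lit 44), (nat_lit
 52), (nat_lit 1), (29, 8, 7), [10595, 1881], 9⟩,
  ⟨⟨23, 0, -63, 0, 47, 0, 42, 0, -19⟩, (.cons (nat_lit 22923) (nat_lit 29069) (nat_lit 25123) (nat_lit 1)
 (.cons (nat_lit 1042) (nat_lit 1942) (nat_lit 601) (nat_lit 1) .nil)), (nat_lit 13), (nat_lit 39), (nat_lit
 2), (nat_lit 1), (40, 0, 24), [29531, 252], 19⟩,
  mz,
  ⟨⟨9, -4, -61, 40, -23, -10, 22, 32, -29⟩, (.cons (nat_lit 28289) (nat_lit 9359) (nat_lit 19155) (nat_lit 1)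
 (.cons (nat_lit 1469) (nat_lit 1394) (nat_lit 1785) (nat_lit 1) .nil)), (nat_lit 33), (nat_lit 14), (nat_lit
 49), (nat_lit 1), (36, 19, 41), [19588, 1696], 4⟩,
  ⟨⟨-9, 4, -52, -40, 23, 30, -22, -32, -7⟩, (.cons (nat_lit 26100) (nat_lit 9935) (nat_lit 14922) (nat_lit 1)
 (.cons (nat_lit 883) (nat_lit 402) (nat_lit 1168) (nat_lit 1) .nil)), (nat_lit 26), (nat_lit 5), (nat_lit 17),
 (nat_lit 1), (18, 33, 44), [20404, 345], 17⟩,
  ⟨⟨51, -4, -32, -2, -45, 16, 12, -12, -49⟩, (.cons (nat_lit 2170) (nat_lit 6423) (nat_lit 702) (nat_lit 1)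
 (.cons (nat_lit 203) (nat_lit 1335) (nat_lit 1734) (nat_lit 1) .nil)), (nat_lit 25), (nat_lit 23), (nat_lit
 6), (nat_lit 1), (25, 11, 28), [25329, 345], 42⟩,
  mz,
  ⟨⟨17, 36, 28, -20, -23, 50, 38, -8, -1⟩, (.cons (nat_lit 16538) (nat_lit 22126) (nat_lit 8608) (nat_lit 1)
 (.cons (nat_lit 961) (nat_lit 1130) (nat_lit 196) (nat_lit 1) .nil)), (nat_lit 51), (nat_lit 10), (nat_lit
 34), (nat_lit 1), (28, 3, 46), [13406, 381], 38⟩,
  ⟨⟨-17, 48, 0, -40, -17, 0, 10, 16, -47⟩, (.cons (nat_lit 1975) (nat_lit 20995) (nat_lit 1885) (nat_lit 1)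
 (.cons (nat_lit 599) (nat_lit 1807) (nat_lit 312) (nat_lit 1) .nil)), (nat_lit 35), (nat_lit 7), (nat_lit 8),
 (nat_lit 1), (25, 45, 24), [17697, 2099], 33⟩,
  mz,
  ⟨⟨17, -48, -17, -40, -17, 40, -10, -16, -37⟩, (.cons (nat_lit 13378) (nat_lit 5000) (nat_lit 15208) (nat_lit
 1) (.cons (nat_lit 1210) (nat_lit 127) (nat_lit 172) (nat_lit 1) .nil)), (nat_lit 5), (nat_lit 43), (nat_lit
 9), (nat_lit 1), (6, 8, 2), [470, 1456], 13⟩,
  mz,
  mz,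
  mz,
  ⟨⟨45, -16, -1, 22, 35, -36, 20, -28, -37⟩, (.cons (nat_lit 12396) (nat_lit 1220) (nat_lit 20679) (nat_lit 1)
 (.cons (nat_lit 630) (nat_lit 554) (nat_lit 296) (nat_lit 1) .nil)), (nat_lit 2), (nat_lit 23), (nat_lit 41),
 (nat_lit 1), (12, 9, 21), [5686, 2097], 25⟩,
  mz,
  ⟨⟨51, 4, -32, 2, -45, -16, 12, 12, -49⟩, (.cons (nat_lit 14556) (nat_lit 20761) (nat_lit 1) (nat_lit 8060)
 (.cons (nat_lit 1664) (nat_lit 1547) (nat_lit 331) (nat_lit 1) .nil)), (nat_lit 17), (nat_lit 33), (nat_lit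
 4), (nat_lit 1), (7, 27, 21), [5693, 2095], 1⟩,
  ⟨⟨-21, -32, -28, -2, 35, -34, 28, -20, -41⟩, (.cons (nat_lit 15000) (nat_lit 22369) (nat_lit 1548) (nat_lit
 1) (.cons (nat_lit 1271) (nat_lit 1430) (nat_lit 1918) (nat_lit 1) .nil)), (nat_lit 17), (nat_lit 5), (nat_lit
 8), (nat_lit 1), (33, 30, 3), [23173, 2109], 32⟩,
  ⟨⟨-45, 16, 44, -22, -35, -14, -20, 28, -17⟩, (.cons (nat_lit 4143) (nat_lit 16583) (nat_lit 18258) (nat_lit
 1) (.cons (nat_lit 1571) (nat_lit 299) (nat_lit 225) (nat_lit 1) .nil)), (nat_lit 42), (nat_lit 44), (nat_lit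
 41), (nat_lit 1), (34, 2, 36), [20513, 1643], 28⟩]

/-- Moves. -/
noncomputable def t1_19 : List Mv := [
  mz,
  ⟨⟨-25, 12, -36, 22, -35, -36, 20, 28, -37⟩, (.cons (nat_lit 12782) (nat_lit 23591) (nat_lit 13758) (nat_lit
 1) (.cons (nat_lit 206) (nat_lit 375) (nat_lit 1748) (nat_lit 1) .nil)), (nat_lit 26), (nat_lit 38), (nat_lit
 17), (nat_lit 1), (2, 2, 36), [7900, 1430], 43⟩,
  ⟨⟨21, -32, -49, 2, 35, -36, -28, -20, -13⟩, (.cons (nat_lit 2167) (nat_lit 21819) (nat_lit 1) (nat_lit 1550)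
 (.cons (nat_lit 578) (nat_lit 370) (nat_lit 1159) (nat_lit 1) .nil)), (nat_lit 38), (nat_lit 51), (nat_lit
 46), (nat_lit 1), (33, 30, 3), [9158, 1915], 38⟩,
  ⟨⟨39, 8, -56, 2, 45, 14, -12, 12, -37⟩, (.cons (nat_lit 29790) (nat_lit 23669) (nat_lit 20574) (nat_lit 1)
 (.cons (nat_lit 1122) (nat_lit 1160) (nat_lit 1126) (nat_lit 1) .nil)), (nat_lit 52), (nat_lit 32), (nat_lit
 20), (nat_lit 1), (14, 20, 21), [19714, 1728], 23⟩,
  mz,
  ⟨⟨25, -12, -61, -22, 35, -14, -20, -28, -17⟩, (.cons (nat_lit 9734) (nat_lit 2437) (nat_lit 1416) (nat_lit 1)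
 (.cons (nat_lit 211) (nat_lit 781) (nat_lit 2056) (nat_lit 1) .nil)), (nat_lit 7), (nat_lit 14), (nat_lit 49),
 (nat_lit 1), (9, 9, 21), [24178, 1791], 7⟩,
  mz,
  mz,
  mz,
  ⟨⟨-17, -48, 0, 40, -17, 0, 10, -16, -47⟩, (.cons (nat_lit 6999) (nat_lit 14998) (nat_lit 4298) (nat_lit 1)
 (.cons (nat_lit 1728) (nat_lit 1589) (nat_lit 1) (nat_lit 846) .nil)), (nat_lit 50), (nat_lit 21), (nat_lit
 24), (nat_lit 1), (6, 8, 2), [29409, 2059], 32⟩,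
  mz,
  ⟨⟨17, 48, -17, 40, -17, -40, -10, 16, -37⟩, (.cons (nat_lit 21056) (nat_lit 21365) (nat_lit 8227) (nat_lit 1)
 (.cons (nat_lit 1602) (nat_lit 1282) (nat_lit 178) (nat_lit 1) .nil)), (nat_lit 43), (nat_lit 49), (nat_lit
 46), (nat_lit 1), (25, 45, 24), [16599, 933], 16⟩,
  ⟨⟨17, -36, -45, -20, 23, -30, 38, 8, -37⟩, (.cons (nat_lit 13297) (nat_lit 14822) (nat_lit 12343) (nat_lit 1)
 (.cons (nat_lit 570) (nat_lit 1135) (nat_lit 2077) (nat_lit 1) .nil)), (nat_lit 26), (nat_lit 34), (nat_lit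
 14), (nat_lit 1), (19, 44, 1), [22216, 178], 50⟩,
  mz,
  ⟨⟨39, -8, -56, 2, -45, 14, -12, -12, -37⟩, (.cons (nat_lit 10943) (nat_lit 8070) (nat_lit 11761) (nat_lit 1)
 (.cons (nat_lit 349) (nat_lit 1415) (nat_lit 132) (nat_lit 1) .nil)), (nat_lit 25), (nat_lit 11), (nat_lit
 27), (nat_lit 1), (3, 11, 28), [22942, 1334], 42⟩,
  ⟨⟨9, 4, -61, 40, 23, -10, 22, -32, -29⟩, (.cons (nat_lit 6856) (nat_lit 9884) (nat_lit 10517) (nat_lit 1)
 (.cons (nat_lit 892) (nat_lit 661) (nat_lit 1320) (nat_lit 1) .nil)), (nat_lit 13), (nat_lit 23), (nat_lit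
 25), (nat_lit 1), (18, 33, 44), [7633, 927], 33⟩,
  ⟨⟨-13, 36, 45, 40, 23, -30, -22, 32, -7⟩, (.cons (nat_lit 29258) (nat_lit 25754) (nat_lit 11813) (nat_lit 1)
 (.cons (nat_lit 2015) (nat_lit 1298) (nat_lit 2026) (nat_lit 1) .nil)), (nat_lit 49), (nat_lit 42), (nat_lit
 2), (nat_lit 1), (5, 28, 41), [6080, 977], 51⟩,
  mz,
  ⟨⟨19, 0, -63, 0, -47, 0, 42, 0, -23⟩, (.cons (nat_lit 23766) (nat_lit 29227) (nat_lit 27795) (nat_lit 1)
 (.cons (nat_lit 1748) (nat_lit 1366) (nat_lit 963) (nat_lit 1) .nil)), (nat_lit 49), (nat_lit 50), (nat_lit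
 8), (nat_lit 1), (16, 0, 23), [16208, 1564], 14⟩,
  ⟨⟨45, -8, -49, -20, -33, -20, 6, 24, -41⟩, (.cons (nat_lit 1753) (nat_lit 22942) (nat_lit 10885) (nat_lit 1)
 (.cons (nat_lit 2079) (nat_lit 1295) (nat_lit 493) (nat_lit 1) .nil)), (nat_lit 9), (nat_lit 2), (nat_lit 30),
 (nat_lit 1), (29, 8, 7), [8917, 2045], 41⟩,
  ⟨⟨21, 44, -29, 20, -23, -50, 38, 8, -1⟩, (.cons (nat_lit 7114) (nat_lit 26452) (nat_lit 15039) (nat_lit 1)
 (.cons (nat_lit 262) (nat_lit 2170) (nat_lit 671) (nat_lit 1) .nil)), (nat_lit 51), (nat_lit 16), (nat_lit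
 13), (nat_lit 1), (8, 30, 10), [10349, 77], 12⟩,
  ⟨⟨21, 32, -49, 2, -35, -36, -28, 20, -13⟩, (.cons (nat_lit 29313) (nat_lit 4869) (nat_lit 4899) (nat_lit 1)
 (.cons (nat_lit 333) (nat_lit 1589) (nat_lit 1486) (nat_lit 1) .nil)), (nat_lit 37), (nat_lit 22), (nat_lit
 18), (nat_lit 1), (30, 23, 7), [380, 500], 34⟩,
  ⟨⟨-39, -32, 8, -20, 33, -20, 6, -24, -41⟩, (.cons (nat_lit 29790) (nat_lit 18018) (nat_lit 19051) (nat_lit 1)
 (.cons (nat_lit 1868) (nat_lit 2069) (nat_lit 1794) (nat_lit 1) .nil)), (nat_lit 52), (nat_lit 41), (nat_lit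
 16), (nat_lit 1), (28, 24, 21), [23066, 1202], 20⟩,
  mz,
  mz,
  ⟨⟨-45, 8, -4, 20, 33, -40, -6, -24, -35⟩, (.cons (nat_lit 29790) (nat_lit 2709) (nat_lit 12787) (nat_lit 1)
 (.cons (nat_lit 1084) (nat_lit 431) (nat_lit 1459) (nat_lit 1) .nil)), (nat_lit 52), (nat_lit 48), (nat_lit
 26), (nat_lit 1), (40, 24, 21), [28693, 1820], 21⟩,
  ⟨⟨-21, 32, -28, -2, -35, -34, 28, 20, -41⟩, (.cons (nat_lit 28096) (nat_lit 12893) (nat_lit 1736) (nat_lit 1)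
 (.cons (nat_lit 1274) (nat_lit 140) (nat_lit 1035) (nat_lit 1) .nil)), (nat_lit 26), (nat_lit 40), (nat_lit
 40), (nat_lit 1), (30, 23, 7), [5947, 41], 43⟩,
  ⟨⟨21, -44, 8, -20, -23, -30, 38, -8, -37⟩, (.cons (nat_lit 14207) (nat_lit 15682) (nat_lit 13742) (nat_lit 1)
 (.cons (nat_lit 1429) (nat_lit 481) (nat_lit 2204) (nat_lit 1) .nil)), (nat_lit 18), (nat_lit 36), (nat_lit
 29), (nat_lit 1), (39, 30, 37), [28558, 1625], 8⟩,
  ⟨⟨39, 32, -31, -20, 33, 40, -6, 24, -35⟩, (.cons (nat_lit 26762) (nat_lit 20513) (nat_lit 5397) (nat_lit 1)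
 (.cons (nat_lit 1918) (nat_lit 830) (nat_lit 472) (nat_lit 1) .nil)), (nat_lit 42), (nat_lit 11), (nat_lit
 43), (nat_lit 1), (25, 39, 7), [4415, 1058], 11⟩,
  ⟨⟨19, 0, 44, 0, -47, 0, 42, 0, -19⟩, (.cons (nat_lit 29790) (nat_lit 14434) (nat_lit 9884) (nat_lit 1) (.cons
 (nat_lit 1626) (nat_lit 16) (nat_lit 1962) (nat_lit 1) .nil)), (nat_lit 52), (nat_lit 26), (nat_lit 18),
 (nat_lit 1), (31, 0, 24), [12819, 1160], 5⟩,
  mz,
  ⟨⟨9, -4, -61, 40, -23, -10, 22, 32, -29⟩, (.cons (nat_lit 28289) (nat_lit 9359) (nat_lit 19155) (nat_lit 1)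
 (.cons (nat_lit 1469) (nat_lit 1394) (nat_lit 1785) (nat_lit 1) .nil)), (nat_lit 33), (nat_lit 14), (nat_lit
 49), (nat_lit 1), (36, 19, 41), [19588, 1696], 4⟩,
  ⟨⟨-13, -36, 45, -40, 23, 30, -22, -32, -7⟩, (.cons (nat_lit 12291) (nat_lit 24554) (nat_lit 17750) (nat_lit
 1) (.cons (nat_lit 292) (nat_lit 1196) (nat_lit 369) (nat_lit 1) .nil)), (nat_lit 51), (nat_lit 15), (nat_lit
 28), (nat_lit 1), (26, 33, 44), [9584, 768], 41⟩,
  ⟨⟨51, -4, -32, 2, 45, -16, 12, -12, -49⟩, (.cons (nat_lit 29790) (nat_lit 27802) (nat_lit 24429) (nat_lit 1)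
 (.cons (nat_lit 1770) (nat_lit 69) (nat_lit 122) (nat_lit 1) .nil)), (nat_lit 52), (nat_lit 19), (nat_lit 3),
 (nat_lit 1), (25, 36, 28), [22318, 21], 23⟩,
  mz,
  ⟨⟨17, 36, 28, 20, 23, -50, 38, -8, -1⟩, (.cons (nat_lit 9865) (nat_lit 19111) (nat_lit 6845) (nat_lit 1)
 (.cons (nat_lit 168) (nat_lit 1196) (nat_lit 34) (nat_lit 1) .nil)), (nat_lit 3), (nat_lit 26), (nat_lit 23),
 (nat_lit 1), (28, 44, 46), [11995, 734], 34⟩,
  ⟨⟨-17, 48, 0, -40, -17, 0, 10, 16, -47⟩, (.cons (nat_lit 1975) (nat_lit 20995) (nat_lit 1885) (nat_lit 1)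
 (.cons (nat_lit 599) (nat_lit 1807) (nat_lit 312) (nat_lit 1) .nil)), (nat_lit 35), (nat_lit 7), (nat_lit 8),
 (nat_lit 1), (25, 45, 24), [17697, 2099], 33⟩,
  mz,
  ⟨⟨17, -48, -17, 40, 17, -40, -10, -16, -37⟩, (.cons (nat_lit 726) (nat_lit 27886) (nat_lit 23767) (nat_lit 1)
 (.cons (nat_lit 894) (nat_lit 1313) (nat_lit 256) (nat_lit 1) .nil)), (nat_lit 20), (nat_lit 11), (nat_lit
 18), (nat_lit 1), (6, 39, 2), [18245, 1675], 45⟩,
  mz,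
  mz,
  mz,
  ⟨⟨45, -16, -1, 22, 35, -36, 20, -28, -37⟩, (.cons (nat_lit 12396) (nat_lit 1220) (nat_lit 20679) (nat_lit 1)
 (.cons (nat_lit 630) (nat_lit 554) (nat_lit 296) (nat_lit 1) .nil)), (nat_lit 2), (nat_lit 23), (nat_lit 41),
 (nat_lit 1), (12, 9, 21), [5686, 2097], 25⟩,
  mz,
  ⟨⟨51, 4, -32, 2, -45, -16, 12, 12, -49⟩, (.cons (nat_lit 14556) (nat_lit 20761) (nat_lit 1) (nat_lit 8060)
 (.cons (nat_lit 1664) (nat_lit 1547) (nat_lit 331) (nat_lit 1) .nil)), (nat_lit 17), (nat_lit 33), (nat_lit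
 4), (nat_lit 1), (7, 27, 21), [5693, 2095], 1⟩,
  ⟨⟨49, 12, -13, -2, 35, -34, 28, -20, -41⟩, (.cons (nat_lit 2348) (nat_lit 25167) (nat_lit 5038) (nat_lit 1)
 (.cons (nat_lit 233) (nat_lit 1296) (nat_lit 790) (nat_lit 1) .nil)), (nat_lit 27), (nat_lit 15), (nat_lit 6),
 (nat_lit 1), (17, 30, 3), [18967, 840], 46⟩,
  ⟨⟨-45, 16, 44, -22, -35, -14, -20, 28, -17⟩, (.cons (nat_lit 4143) (nat_lit 16583) (nat_lit 18258) (nat_lit
 1) (.cons (nat_lit 1571) (nat_lit 299) (nat_lit 225) (nat_lit 1) .nil)), (nat_lit 42), (nat_lit 44), (nat_lit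
 41), (nat_lit 1), (34, 2, 36), [20513, 1643], 28⟩]

/-- Moves. -/
noncomputable def t4_1 : List Mv := [
  mz,
  mz,
  mz,
  mz,
  ⟨⟨51, 20, -47, 10, -47, -30, -2, 20, -47⟩, (.cons (nat_lit 10625) (nat_lit 23156) (nat_lit 23961) (nat_lit 1)
 (.cons (nat_lit 121) (nat_lit 1189) (nat_lit 1520) (nat_lit 1) .nil)), (nat_lit 15), (nat_lit 0), (nat_lit 0),
 (nat_lit 0), (24, 39, 24), [5484, 604], 0⟩,
  ⟨⟨51, -20, -47, 10, 47, -30, -2, -20, -47⟩, (.cons (nat_lit 25165) (nat_lit 9726) (nat_lit 16368) (nat_lit 1)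
 (.cons (nat_lit 2163) (nat_lit 880) (nat_lit 131) (nat_lit 1) .nil)), (nat_lit 15), (nat_lit 0), (nat_lit 0),
 (nat_lit 0), (12, 46, 12), [3316, 2184], 0⟩,
  ⟨⟨15, 56, -11, -28, 5, -36, 40, 8, -47⟩, (.cons (nat_lit 17861) (nat_lit 10711) (nat_lit 19638) (nat_lit 1)
 (.cons (nat_lit 1494) (nat_lit 899) (nat_lit 1554) (nat_lit 1) .nil)), (nat_lit 28), (nat_lit 0), (nat_lit 0),
 (nat_lit 0), (1, 37, 38), [15741, 309], 0⟩,
  mz,
  mz,
  ⟨⟨57, -4, -17, 8, 45, -34, 24, -24, -49⟩, (.cons (nat_lit 29790) (nat_lit 6487) (nat_lit 3726) (nat_lit 1)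
 (.cons (nat_lit 2208) (nat_lit 1412) (nat_lit 1986) (nat_lit 1) .nil)), (nat_lit 9), (nat_lit 0), (nat_lit 0),
 (nat_lit 0), (7, 14, 42), [26839, 620], 0⟩,
  ⟨⟨-25, 48, -11, 28, -5, -64, -40, -8, -7⟩, (.cons (nat_lit 15996) (nat_lit 16527) (nat_lit 3678) (nat_lit 1)
 (.cons (nat_lit 714) (nat_lit 2040) (nat_lit 163) (nat_lit 1) .nil)), (nat_lit 36), (nat_lit 0), (nat_lit 0),
 (nat_lit 0), (52, 52, 9), [27535, 131], 0⟩,
  ⟨⟨15, -32, 44, 50, 17, -30, 14, -44, -19⟩, (.cons (nat_lit 2341) (nat_lit 8739) (nat_lit 29772) (nat_lit 1)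
 (.cons (nat_lit 1240) (nat_lit 1248) (nat_lit 88) (nat_lit 1) .nil)), (nat_lit 41), (nat_lit 0), (nat_lit 0),
 (nat_lit 0), (29, 26, 20), [13054, 507], 0⟩,
  ⟨⟨-51, 20, 4, -10, -47, -20, 2, 20, -49⟩, (.cons (nat_lit 27613) (nat_lit 2468) (nat_lit 1) (nat_lit 15376)
 (.cons (nat_lit 1900) (nat_lit 1800) (nat_lit 924) (nat_lit 1) .nil)), (nat_lit 15), (nat_lit 0), (nat_lit 0),
 (nat_lit 0), (48, 25, 48), [6835, 369], 0⟩,
  mz,
  mz,
  ⟨⟨-51, -20, 4, -10, 47, -20, 2, -20, -49⟩, (.cons (nat_lit 29790) (nat_lit 4096) (nat_lit 18508) (nat_lit 1)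
 (.cons (nat_lit 2208) (nat_lit 1538) (nat_lit 386) (nat_lit 1) .nil)), (nat_lit 15), (nat_lit 0), (nat_lit 0),
 (nat_lit 0), (36, 32, 36), [17622, 539], 0⟩,
  ⟨⟨15, 52, 16, 10, 17, -60, 46, 4, -11⟩, (.cons (nat_lit 21510) (nat_lit 16433) (nat_lit 25270) (nat_lit 1)
 (.cons (nat_lit 1187) (nat_lit 1139) (nat_lit 1495) (nat_lit 1) .nil)), (nat_lit 44), (nat_lit 0), (nat_lit
 0), (nat_lit 0), (24, 16, 10), [27233, 1120], 0⟩,
  ⟨⟨31, -48, -4, -10, -17, -50, 46, 4, -35⟩, (.cons (nat_lit 14779) (nat_lit 14187) (nat_lit 916) (nat_lit 1)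
 (.cons (nat_lit 991) (nat_lit 854) (nat_lit 2058) (nat_lit 1) .nil)), (nat_lit 11), (nat_lit 0), (nat_lit 0),
 (nat_lit 0), (18, 13, 25), [26165, 1632], 0⟩,
  ⟨⟨-57, -4, 40, -8, 45, -26, -24, -24, -25⟩, (.cons (nat_lit 17494) (nat_lit 19807) (nat_lit 1076) (nat_lit 1)
 (.cons (nat_lit 1928) (nat_lit 1882) (nat_lit 1680) (nat_lit 1) .nil)), (nat_lit 9), (nat_lit 0), (nat_lit 0),
 (nat_lit 0), (12, 24, 19), [5621, 2030], 0⟩,
  mz,
  mz,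
  ⟨⟨-33, 20, -32, 8, -45, -34, 24, 24, -49⟩, (.cons (nat_lit 21633) (nat_lit 20182) (nat_lit 26662) (nat_lit 1)
 (.cons (nat_lit 1045) (nat_lit 1179) (nat_lit 1052) (nat_lit 1) .nil)), (nat_lit 18), (nat_lit 0), (nat_lit
 0), (nat_lit 0), (47, 40, 14), [22443, 742], 0⟩,
  ⟨⟨-45, -28, -4, 28, -45, -14, 0, 0, -53⟩, (.cons (nat_lit 1303) (nat_lit 18094) (nat_lit 5600) (nat_lit 1)
 (.cons (nat_lit 330) (nat_lit 831) (nat_lit 608) (nat_lit 1) .nil)), (nat_lit 31), (nat_lit 0), (nat_lit 0),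
 (nat_lit 0), (29, 22, 0), [15108, 828], 0⟩,
  mz,
  ⟨⟨43, -12, 20, 30, -17, -60, 30, 36, -7⟩, (.cons (nat_lit 27486) (nat_lit 11973) (nat_lit 7872) (nat_lit 1)
 (.cons (nat_lit 1428) (nat_lit 1432) (nat_lit 512) (nat_lit 1) .nil)), (nat_lit 46), (nat_lit 0), (nat_lit 0),
 (nat_lit 0), (37, 48, 48), [24711, 345], 0⟩,
  mz,
  ⟨⟨-25, -48, -11, 28, 5, -64, -40, 8, -7⟩, (.cons (nat_lit 5817) (nat_lit 14157) (nat_lit 117) (nat_lit 1)
 (.cons (nat_lit 977) (nat_lit 464) (nat_lit 1078) (nat_lit 1) .nil)), (nat_lit 36), (nat_lit 0), (nat_lit 0),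
 (nat_lit 0), (2, 2, 35), [12880, 1202], 0⟩,
  mz,
  ⟨⟨-1, -48, 37, 52, 5, -16, 8, -40, -31⟩, (.cons (nat_lit 25848) (nat_lit 19626) (nat_lit 5825) (nat_lit 1)
 (.cons (nat_lit 1001) (nat_lit 1373) (nat_lit 1791) (nat_lit 1) .nil)), (nat_lit 6), (nat_lit 0), (nat_lit 0),
 (nat_lit 0), (29, 29, 33), [24548, 451], 0⟩,
  ⟨⟨43, -12, -63, -30, 17, -30, 30, 36, -23⟩, (.cons (nat_lit 9369) (nat_lit 8893) (nat_lit 14531) (nat_lit 1)
 (.cons (nat_lit 906) (nat_lit 756) (nat_lit 864) (nat_lit 1) .nil)), (nat_lit 24), (nat_lit 0), (nat_lit 0),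
 (nat_lit 0), (16, 48, 5), [29520, 116], 0⟩,
  mz,
  ⟨⟨-45, 28, -4, -28, -45, 14, 0, 0, -53⟩, (.cons (nat_lit 25607) (nat_lit 6365) (nat_lit 14674) (nat_lit 1)
 (.cons (nat_lit 1881) (nat_lit 861) (nat_lit 614) (nat_lit 1) .nil)), (nat_lit 22), (nat_lit 0), (nat_lit 0),
 (nat_lit 0), (14, 4, 0), [22021, 1627], 0⟩,
  mz,
  ⟨⟨-39, 28, -17, 10, -33, -50, 18, 36, -37⟩, (.cons (nat_lit 10876) (nat_lit 19420) (nat_lit 20457) (nat_lit
 1) (.cons (nat_lit 1283) (nat_lit 1657) (nat_lit 1652) (nat_lit 1) .nil)), (nat_lit 50), (nat_lit 0), (nat_lit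
 0), (nat_lit 0), (43, 8, 25), [27396, 279], 0⟩,
  mz,
  mz,
  ⟨⟨-9, 8, -59, 52, -5, -36, -8, -40, -23⟩, (.cons (nat_lit 26057) (nat_lit 14657) (nat_lit 1) (nat_lit 1891)
 (.cons (nat_lit 1055) (nat_lit 1575) (nat_lit 337) (nat_lit 1) .nil)), (nat_lit 10), (nat_lit 0), (nat_lit 0),
 (nat_lit 0), (2, 12, 43), [29396, 1230], 0⟩,
  ⟨⟨-1, 48, 37, 52, -5, -16, 8, 40, -31⟩, (.cons (nat_lit 15221) (nat_lit 8256) (nat_lit 27071) (nat_lit 1)
 (.cons (nat_lit 1607) (nat_lit 1582) (nat_lit 62) (nat_lit 1) .nil)), (nat_lit 6), (nat_lit 0), (nat_lit 0),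
 (nat_lit 0), (26, 26, 4), [7075, 554], 0⟩,
  ⟨⟨-57, 8, 37, 10, 33, 40, -18, 36, -19⟩, (.cons (nat_lit 2310) (nat_lit 27650) (nat_lit 7288) (nat_lit 1)
 (.cons (nat_lit 2163) (nat_lit 1853) (nat_lit 1777) (nat_lit 1) .nil)), (nat_lit 33), (nat_lit 0), (nat_lit
 0), (nat_lit 0), (40, 6, 21), [26121, 5], 0⟩,
  ⟨⟨15, -56, -11, -28, -5, -36, 40, -8, -47⟩, (.cons (nat_lit 22347) (nat_lit 19000) (nat_lit 27248) (nat_lit
 1) (.cons (nat_lit 56) (nat_lit 686) (nat_lit 1106) (nat_lit 1) .nil)), (nat_lit 28), (nat_lit 0), (nat_lit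
 0), (nat_lit 0), (31, 34, 12), [18973, 1447], 0⟩,
  ⟨⟨-9, -8, -59, -52, -5, 36, -8, 40, -23⟩, (.cons (nat_lit 1453) (nat_lit 17964) (nat_lit 8240) (nat_lit 1)
 (.cons (nat_lit 1372) (nat_lit 1285) (nat_lit 2100) (nat_lit 1) .nil)), (nat_lit 26), (nat_lit 0), (nat_lit
 0), (nat_lit 0), (29, 38, 14), [869, 1024], 0⟩,
  ⟨⟨31, 48, -4, -10, 17, -50, 46, -4, -35⟩, (.cons (nat_lit 21392) (nat_lit 23628) (nat_lit 19165) (nat_lit 1)
 (.cons (nat_lit 269) (nat_lit 56) (nat_lit 627) (nat_lit 1) .nil)), (nat_lit 11), (nat_lit 0), (nat_lit 0),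
 (nat_lit 0), (15, 2, 12), [4259, 2164], 0⟩,
  ⟨⟨-57, 4, 40, -8, -45, -26, -24, 24, -25⟩, (.cons (nat_lit 6404) (nat_lit 14823) (nat_lit 12534) (nat_lit 1)
 (.cons (nat_lit 58) (nat_lit 1547) (nat_lit 1862) (nat_lit 1) .nil)), (nat_lit 9), (nat_lit 0), (nat_lit 0),
 (nat_lit 0), (25, 50, 44), [28232, 178], 0⟩,
  ⟨⟨-1, 12, -63, 50, -17, -30, 14, 44, -19⟩, (.cons (nat_lit 29050) (nat_lit 20768) (nat_lit 12686) (nat_lit 1)
 (.cons (nat_lit 936) (nat_lit 1272) (nat_lit 716) (nat_lit 1) .nil)), (nat_lit 16), (nat_lit 0), (nat_lit 0),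
 (nat_lit 0), (30, 37, 4), [22070, 2196], 0⟩,
  ⟨⟨1, 12, -64, 50, 17, -20, -14, 44, -5⟩, (.cons (nat_lit 4342) (nat_lit 10807) (nat_lit 10056) (nat_lit 1)
 (.cons (nat_lit 927) (nat_lit 484) (nat_lit 1333) (nat_lit 1) .nil)), (nat_lit 48), (nat_lit 0), (nat_lit 0),
 (nat_lit 0), (42, 33, 48), [1438, 472], 0⟩,
  mz,
  ⟨⟨-13, -48, -27, 30, 17, -60, 30, -36, -7⟩, (.cons (nat_lit 19012) (nat_lit 11715) (nat_lit 11275) (nat_lit
 1) (.cons (nat_lit 518) (nat_lit 107) (nat_lit 2100) (nat_lit 1) .nil)), (nat_lit 29), (nat_lit 0), (nat_lit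
 0), (nat_lit 0), (14, 37, 37), [20498, 565], 0⟩,
  ⟨⟨-15, -32, 59, -50, 17, 20, -14, -44, -5⟩, (.cons (nat_lit 28814) (nat_lit 26426) (nat_lit 18749) (nat_lit
 1) (.cons (nat_lit 2144) (nat_lit 1953) (nat_lit 2074) (nat_lit 1) .nil)), (nat_lit 41), (nat_lit 0), (nat_lit
 0), (nat_lit 0), (8, 9, 11), [26575, 554], 0⟩,
  ⟨⟨15, -52, 16, 10, -17, -60, 46, -4, -11⟩, (.cons (nat_lit 14772) (nat_lit 8965) (nat_lit 20485) (nat_lit 1)
 (.cons (nat_lit 112) (nat_lit 1017) (nat_lit 916) (nat_lit 1) .nil)), (nat_lit 44), (nat_lit 0), (nat_lit 0),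
 (nat_lit 0), (14, 27, 50), [8336, 1561], 0⟩,
  ⟨⟨-39, -28, -17, -10, -33, 50, 18, -36, -37⟩, (.cons (nat_lit 11938) (nat_lit 7334) (nat_lit 15443) (nat_lit
 1) (.cons (nat_lit 1024) (nat_lit 1384) (nat_lit 118) (nat_lit 1) .nil)), (nat_lit 38), (nat_lit 0), (nat_lit
 0), (nat_lit 0), (5, 4, 14), [10129, 1627], 0⟩,
  ⟨⟨39, -28, -56, -10, 33, -40, -18, -36, -19⟩, (.cons (nat_lit 29790) (nat_lit 17372) (nat_lit 476) (nat_lit
 1) (.cons (nat_lit 2208) (nat_lit 1412) (nat_lit 1030) (nat_lit 1) .nil)), (nat_lit 50), (nat_lit 0), (nat_lit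
 0), (nat_lit 0), (49, 35, 10), [5468, 287], 0⟩,
  mz,
  ⟨⟨-13, -48, 40, -30, -17, -30, 30, -36, -23⟩, (.cons (nat_lit 29790) (nat_lit 23808) (nat_lit 19108) (nat_lit
 1) (.cons (nat_lit 2208) (nat_lit 1532) (nat_lit 388) (nat_lit 1) .nil)), (nat_lit 52), (nat_lit 0), (nat_lit
 0), (nat_lit 0), (45, 6, 47), [25522, 657], 0⟩]

/-- Moves. -/
noncomputable def t4_4 : List Mv := [
  mz,
  mz,
  mz,
  mz,
  ⟨⟨-53, 0, 0, -10, 47, 30, -2, 20, -47⟩, (.cons (nat_lit 29790) (nat_lit 1349) (nat_lit 14299) (nat_lit 1)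
 (.cons (nat_lit 2208) (nat_lit 1971) (nat_lit 858) (nat_lit 1) .nil)), (nat_lit 4), (nat_lit 0), (nat_lit 0),
 (nat_lit 0), (0, 14, 24), [2091, 868], 0⟩,
  ⟨⟨51, -20, -47, -10, -47, 30, -2, -20, -47⟩, (.cons (nat_lit 26768) (nat_lit 13221) (nat_lit 278) (nat_lit 1)
 (.cons (nat_lit 1370) (nat_lit 521) (nat_lit 1287) (nat_lit 1) .nil)), (nat_lit 12), (nat_lit 0), (nat_lit 0),
 (nat_lit 0), (12, 7, 12), [23662, 174], 0⟩,
  ⟨⟨15, 56, -11, 28, -5, 36, 40, 8, -47⟩, (.cons (nat_lit 18937) (nat_lit 29087) (nat_lit 1) (nat_lit 12152)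
 (.cons (nat_lit 444) (nat_lit 54) (nat_lit 1189) (nat_lit 1) .nil)), (nat_lit 37), (nat_lit 0), (nat_lit 0),
 (nat_lit 0), (1, 16, 38), [1011, 384], 0⟩,
  mz,
  mz,
  ⟨⟨-33, -20, -32, 8, 45, -34, 24, -24, -49⟩, (.cons (nat_lit 23216) (nat_lit 14564) (nat_lit 14233) (nat_lit
 1) (.cons (nat_lit 283) (nat_lit 1972) (nat_lit 1704) (nat_lit 1) .nil)), (nat_lit 18), (nat_lit 0), (nat_lit
 0), (nat_lit 0), (35, 14, 42), [24952, 479], 0⟩,
  ⟨⟨-25, 48, -11, 28, -5, -64, -40, -8, -7⟩, (.cons (nat_lit 15996) (nat_lit 16527) (nat_lit 3678) (nat_lit 1)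
 (.cons (nat_lit 714) (nat_lit 2040) (nat_lit 163) (nat_lit 1) .nil)), (nat_lit 36), (nat_lit 0), (nat_lit 0),
 (nat_lit 0), (52, 52, 9), [27535, 131], 0⟩,
  ⟨⟨15, -32, 44, 50, 17, -30, 14, -44, -19⟩, (.cons (nat_lit 2341) (nat_lit 8739) (nat_lit 29772) (nat_lit 1)
 (.cons (nat_lit 1240) (nat_lit 1248) (nat_lit 88) (nat_lit 1) .nil)), (nat_lit 41), (nat_lit 0), (nat_lit 0),
 (nat_lit 0), (29, 26, 20), [13054, 507], 0⟩,
  ⟨⟨53, 0, -53, -10, -47, -20, 2, 20, -49⟩, (.cons (nat_lit 5361) (nat_lit 24799) (nat_lit 28983) (nat_lit 1)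
 (.cons (nat_lit 2001) (nat_lit 127) (nat_lit 407) (nat_lit 1) .nil)), (nat_lit 5), (nat_lit 0), (nat_lit 0),
 (nat_lit 0), (0, 25, 48), [18822, 1873], 0⟩,
  mz,
  mz,
  ⟨⟨-51, -20, 4, -10, 47, -20, 2, -20, -49⟩, (.cons (nat_lit 29790) (nat_lit 4096) (nat_lit 18508) (nat_lit 1)
 (.cons (nat_lit 2208) (nat_lit 1538) (nat_lit 386) (nat_lit 1) .nil)), (nat_lit 15), (nat_lit 0), (nat_lit 0),
 (nat_lit 0), (36, 32, 36), [17622, 539], 0⟩,
  ⟨⟨31, -48, -27, 10, 17, -60, 46, 4, -11⟩, (.cons (nat_lit 10654) (nat_lit 25276) (nat_lit 5123) (nat_lit 1)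
 (.cons (nat_lit 2150) (nat_lit 2151) (nat_lit 273) (nat_lit 1) .nil)), (nat_lit 43), (nat_lit 0), (nat_lit 0),
 (nat_lit 0), (39, 16, 10), [7268, 1073], 0⟩,
  ⟨⟨31, -48, -4, -10, -17, -50, 46, 4, -35⟩, (.cons (nat_lit 14779) (nat_lit 14187) (nat_lit 916) (nat_lit 1)
 (.cons (nat_lit 991) (nat_lit 854) (nat_lit 2058) (nat_lit 1) .nil)), (nat_lit 11), (nat_lit 0), (nat_lit 0),
 (nat_lit 0), (18, 13, 25), [26165, 1632], 0⟩,
  ⟨⟨-57, -4, 40, -8, 45, -26, -24, -24, -25⟩, (.cons (nat_lit 17494) (nat_lit 19807) (nat_lit 1076) (nat_lit 1)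
 (.cons (nat_lit 1928) (nat_lit 1882) (nat_lit 1680) (nat_lit 1) .nil)), (nat_lit 9), (nat_lit 0), (nat_lit 0),
 (nat_lit 0), (12, 24, 19), [5621, 2030], 0⟩,
  mz,
  mz,
  ⟨⟨57, 4, -17, -8, 45, 34, 24, 24, -49⟩, (.cons (nat_lit 29790) (nat_lit 27512) (nat_lit 22222) (nat_lit 1)
 (.cons (nat_lit 2208) (nat_lit 1564) (nat_lit 790) (nat_lit 1) .nil)), (nat_lit 21), (nat_lit 0), (nat_lit 0),
 (nat_lit 0), (20, 13, 14), [10648, 1137], 0⟩,
  ⟨⟨45, 28, -49, 28, -45, -14, 0, 0, -53⟩, (.cons (nat_lit 29790) (nat_lit 7041) (nat_lit 11447) (nat_lit 1)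
 (.cons (nat_lit 2208) (nat_lit 2130) (nat_lit 1172) (nat_lit 1) .nil)), (nat_lit 22), (nat_lit 0), (nat_lit
 0), (nat_lit 0), (24, 22, 0), [20106, 922], 0⟩,
  mz,
  ⟨⟨-13, 48, -27, 30, -17, -60, 30, 36, -7⟩, (.cons (nat_lit 3202) (nat_lit 4810) (nat_lit 5280) (nat_lit 1)
 (.cons (nat_lit 217) (nat_lit 1623) (nat_lit 277) (nat_lit 1) .nil)), (nat_lit 29), (nat_lit 0), (nat_lit 0),
 (nat_lit 0), (11, 48, 48), [22478, 533], 0⟩,
  mz,
  ⟨⟨-25, -48, -11, -28, -5, 64, -40, 8, -7⟩, (.cons (nat_lit 16546) (nat_lit 22254) (nat_lit 14367) (nat_lit 1)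
 (.cons (nat_lit 256) (nat_lit 181) (nat_lit 1396) (nat_lit 1) .nil)), (nat_lit 40), (nat_lit 0), (nat_lit 0),
 (nat_lit 0), (2, 51, 35), [11782, 1653], 0⟩,
  mz,
  ⟨⟨-1, -48, 37, 52, 5, -16, 8, -40, -31⟩, (.cons (nat_lit 25848) (nat_lit 19626) (nat_lit 5825) (nat_lit 1)
 (.cons (nat_lit 1001) (nat_lit 1373) (nat_lit 1791) (nat_lit 1) .nil)), (nat_lit 6), (nat_lit 0), (nat_lit 0),
 (nat_lit 0), (29, 29, 33), [24548, 451], 0⟩,
  ⟨⟨43, -12, -63, -30, 17, -30, 30, 36, -23⟩, (.cons (nat_lit 9369) (nat_lit 8893) (nat_lit 14531) (nat_lit 1)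
 (.cons (nat_lit 906) (nat_lit 756) (nat_lit 864) (nat_lit 1) .nil)), (nat_lit 24), (nat_lit 0), (nat_lit 0),
 (nat_lit 0), (16, 48, 5), [29520, 116], 0⟩,
  mz,
  ⟨⟨-45, 28, -4, -28, -45, 14, 0, 0, -53⟩, (.cons (nat_lit 25607) (nat_lit 6365) (nat_lit 14674) (nat_lit 1)
 (.cons (nat_lit 1881) (nat_lit 861) (nat_lit 614) (nat_lit 1) .nil)), (nat_lit 22), (nat_lit 0), (nat_lit 0),
 (nat_lit 0), (14, 4, 0), [22021, 1627], 0⟩,
  mz,
  ⟨⟨-39, 28, -17, 10, -33, -50, 18, 36, -37⟩, (.cons (nat_lit 10876) (nat_lit 19420) (nat_lit 20457) (nat_lit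
 1) (.cons (nat_lit 1283) (nat_lit 1657) (nat_lit 1652) (nat_lit 1) .nil)), (nat_lit 50), (nat_lit 0), (nat_lit
 0), (nat_lit 0), (43, 8, 25), [27396, 279], 0⟩,
  mz,
  mz,
  ⟨⟨-9, 8, -59, 52, -5, -36, -8, -40, -23⟩, (.cons (nat_lit 26057) (nat_lit 14657) (nat_lit 1) (nat_lit 1891)
 (.cons (nat_lit 1055) (nat_lit 1575) (nat_lit 337) (nat_lit 1) .nil)), (nat_lit 10), (nat_lit 0), (nat_lit 0),
 (nat_lit 0), (2, 12, 43), [29396, 1230], 0⟩,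
  ⟨⟨-1, 48, 37, 52, -5, -16, 8, 40, -31⟩, (.cons (nat_lit 15221) (nat_lit 8256) (nat_lit 27071) (nat_lit 1)
 (.cons (nat_lit 1607) (nat_lit 1582) (nat_lit 62) (nat_lit 1) .nil)), (nat_lit 6), (nat_lit 0), (nat_lit 0),
 (nat_lit 0), (26, 26, 4), [7075, 554], 0⟩,
  ⟨⟨39, 28, -56, -10, -33, -40, -18, 36, -19⟩, (.cons (nat_lit 20112) (nat_lit 24219) (nat_lit 23893) (nat_lit
 1) (.cons (nat_lit 456) (nat_lit 764) (nat_lit 1591) (nat_lit 1) .nil)), (nat_lit 50), (nat_lit 0), (nat_lit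
 0), (nat_lit 0), (34, 47, 21), [10089, 373], 0⟩,
  ⟨⟨25, 48, -36, 28, 5, 36, 40, -8, -47⟩, (.cons (nat_lit 25611) (nat_lit 19897) (nat_lit 26155) (nat_lit 1)
 (.cons (nat_lit 2101) (nat_lit 69) (nat_lit 2117) (nat_lit 1) .nil)), (nat_lit 40), (nat_lit 0), (nat_lit 0),
 (nat_lit 0), (34, 19, 12), [17627, 1579], 0⟩,
  ⟨⟨1, 48, 36, 52, 5, -36, -8, 40, -23⟩, (.cons (nat_lit 9201) (nat_lit 23189) (nat_lit 29334) (nat_lit 1)
 (.cons (nat_lit 1984) (nat_lit 62) (nat_lit 1390) (nat_lit 1) .nil)), (nat_lit 39), (nat_lit 0), (nat_lit 0),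
 (nat_lit 0), (38, 15, 14), [22043, 2001], 0⟩,
  ⟨⟨31, 48, -4, 10, -17, 50, 46, -4, -35⟩, (.cons (nat_lit 7717) (nat_lit 15216) (nat_lit 27508) (nat_lit 1)
 (.cons (nat_lit 1704) (nat_lit 1587) (nat_lit 1043) (nat_lit 1) .nil)), (nat_lit 43), (nat_lit 0), (nat_lit
 0), (nat_lit 0), (15, 51, 12), [28911, 196], 0⟩,
  ⟨⟨-57, 4, 40, -8, -45, -26, -24, 24, -25⟩, (.cons (nat_lit 6404) (nat_lit 14823) (nat_lit 12534) (nat_lit 1)
 (.cons (nat_lit 58) (nat_lit 1547) (nat_lit 1862) (nat_lit 1) .nil)), (nat_lit 9), (nat_lit 0), (nat_lit 0),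
 (nat_lit 0), (25, 50, 44), [28232, 178], 0⟩,
  ⟨⟨-1, 12, -63, -50, 17, 30, 14, 44, -19⟩, (.cons (nat_lit 18412) (nat_lit 24391) (nat_lit 211) (nat_lit 1)
 (.cons (nat_lit 1000) (nat_lit 343) (nat_lit 1816) (nat_lit 1) .nil)), (nat_lit 48), (nat_lit 0), (nat_lit 0),
 (nat_lit 0), (30, 16, 4), [24367, 425], 0⟩,
  ⟨⟨-15, 32, 59, 50, 17, -20, -14, 44, -5⟩, (.cons (nat_lit 10658) (nat_lit 10560) (nat_lit 16967) (nat_lit 1)
 (.cons (nat_lit 765) (nat_lit 1443) (nat_lit 534) (nat_lit 1) .nil)), (nat_lit 17), (nat_lit 0), (nat_lit 0),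
 (nat_lit 0), (6, 33, 48), [27863, 989], 0⟩,
  mz,
  ⟨⟨43, 12, 20, -30, -17, 60, 30, -36, -7⟩, (.cons (nat_lit 14553) (nat_lit 4490) (nat_lit 14970) (nat_lit 1)
 (.cons (nat_lit 1632) (nat_lit 98) (nat_lit 1627) (nat_lit 1) .nil)), (nat_lit 24), (nat_lit 0), (nat_lit 0),
 (nat_lit 0), (23, 16, 37), [23414, 1341], 0⟩,
  ⟨⟨-15, -32, 59, 50, -17, -20, -14, -44, -5⟩, (.cons (nat_lit 6841) (nat_lit 3352) (nat_lit 27891) (nat_lit 1)
 (.cons (nat_lit 364) (nat_lit 844) (nat_lit 1478) (nat_lit 1) .nil)), (nat_lit 17), (nat_lit 0), (nat_lit 0),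
 (nat_lit 0), (8, 44, 11), [10340, 1324], 0⟩,
  ⟨⟨15, -52, 16, 10, -17, -60, 46, -4, -11⟩, (.cons (nat_lit 14772) (nat_lit 8965) (nat_lit 20485) (nat_lit 1)
 (.cons (nat_lit 112) (nat_lit 1017) (nat_lit 916) (nat_lit 1) .nil)), (nat_lit 44), (nat_lit 0), (nat_lit 0),
 (nat_lit 0), (14, 27, 50), [8336, 1561], 0⟩,
  ⟨⟨57, -8, -20, -10, -33, 50, 18, -36, -37⟩, (.cons (nat_lit 2564) (nat_lit 1669) (nat_lit 12358) (nat_lit 1)
 (.cons (nat_lit 574) (nat_lit 214) (nat_lit 682) (nat_lit 1) .nil)), (nat_lit 33), (nat_lit 0), (nat_lit 0),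
 (nat_lit 0), (9, 4, 14), [16076, 170], 0⟩,
  ⟨⟨39, -28, -56, -10, 33, -40, -18, -36, -19⟩, (.cons (nat_lit 29790) (nat_lit 17372) (nat_lit 476) (nat_lit
 1) (.cons (nat_lit 2208) (nat_lit 1412) (nat_lit 1030) (nat_lit 1) .nil)), (nat_lit 50), (nat_lit 0), (nat_lit
 0), (nat_lit 0), (49, 35, 10), [5468, 287], 0⟩,
  mz,
  ⟨⟨43, 12, -63, -30, -17, -30, 30, -36, -23⟩, (.cons (nat_lit 26264) (nat_lit 17128) (nat_lit 21680) (nat_lit
 1) (.cons (nat_lit 2022) (nat_lit 489) (nat_lit 1093) (nat_lit 1) .nil)), (nat_lit 24), (nat_lit 0), (nat_lit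
 0), (nat_lit 0), (2, 6, 47), [26348, 140], 0⟩]

/-- Moves. -/
noncomputable def t4_6 : List Mv := [
  mz,
  mz,
  mz,
  mz,
  ⟨⟨-53, 0, 0, -10, 47, 30, -2, 20, -47⟩, (.cons (nat_lit 29790) (nat_lit 1349) (nat_lit 14299) (nat_lit 1)
 (.cons (nat_lit 2208) (nat_lit 1971) (nat_lit 858) (nat_lit 1) .nil)), (nat_lit 4), (nat_lit 0), (nat_lit 0),
 (nat_lit 0), (0, 14, 24), [2091, 868], 0⟩,
  ⟨⟨51, -20, -47, 10, 47, -30, -2, -20, -47⟩, (.cons (nat_lit 25165) (nat_lit 9726) (nat_lit 16368) (nat_lit 1)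
 (.cons (nat_lit 2163) (nat_lit 880) (nat_lit 131) (nat_lit 1) .nil)), (nat_lit 15), (nat_lit 0), (nat_lit 0),
 (nat_lit 0), (12, 46, 12), [3316, 2184], 0⟩,
  ⟨⟨15, 56, -11, -28, 5, -36, 40, 8, -47⟩, (.cons (nat_lit 17861) (nat_lit 10711) (nat_lit 19638) (nat_lit 1)
 (.cons (nat_lit 1494) (nat_lit 899) (nat_lit 1554) (nat_lit 1) .nil)), (nat_lit 28), (nat_lit 0), (nat_lit 0),
 (nat_lit 0), (1, 37, 38), [15741, 309], 0⟩,
  mz,
  mz,
  ⟨⟨-33, -20, -32, 8, 45, -34, 24, -24, -49⟩, (.cons (nat_lit 23216) (nat_lit 14564) (nat_lit 14233) (nat_lit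
 1) (.cons (nat_lit 283) (nat_lit 1972) (nat_lit 1704) (nat_lit 1) .nil)), (nat_lit 18), (nat_lit 0), (nat_lit
 0), (nat_lit 0), (35, 14, 42), [24952, 479], 0⟩,
  ⟨⟨-25, 48, -11, 28, -5, -64, -40, -8, -7⟩, (.cons (nat_lit 15996) (nat_lit 16527) (nat_lit 3678) (nat_lit 1)
 (.cons (nat_lit 714) (nat_lit 2040) (nat_lit 163) (nat_lit 1) .nil)), (nat_lit 36), (nat_lit 0), (nat_lit 0),
 (nat_lit 0), (52, 52, 9), [27535, 131], 0⟩,
  ⟨⟨15, -32, 44, 50, 17, -30, 14, -44, -19⟩, (.cons (nat_lit 2341) (nat_lit 8739) (nat_lit 29772) (nat_lit 1)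
 (.cons (nat_lit 1240) (nat_lit 1248) (nat_lit 88) (nat_lit 1) .nil)), (nat_lit 41), (nat_lit 0), (nat_lit 0),
 (nat_lit 0), (29, 26, 20), [13054, 507], 0⟩,
  ⟨⟨53, 0, -53, -10, -47, -20, 2, 20, -49⟩, (.cons (nat_lit 5361) (nat_lit 24799) (nat_lit 28983) (nat_lit 1)
 (.cons (nat_lit 2001) (nat_lit 127) (nat_lit 407) (nat_lit 1) .nil)), (nat_lit 5), (nat_lit 0), (nat_lit 0),
 (nat_lit 0), (0, 25, 48), [18822, 1873], 0⟩,
  mz,
  mz,
  ⟨⟨-51, -20, 4, 10, -47, 20, 2, -20, -49⟩, (.cons (nat_lit 27869) (nat_lit 15731) (nat_lit 10327) (nat_lit 1)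
 (.cons (nat_lit 1873) (nat_lit 1743) (nat_lit 1204) (nat_lit 1) .nil)), (nat_lit 12), (nat_lit 0), (nat_lit
 0), (nat_lit 0), (36, 21, 36), [798, 1302], 0⟩,
  ⟨⟨15, 52, 16, 10, 17, -60, 46, 4, -11⟩, (.cons (nat_lit 21510) (nat_lit 16433) (nat_lit 25270) (nat_lit 1)
 (.cons (nat_lit 1187) (nat_lit 1139) (nat_lit 1495) (nat_lit 1) .nil)), (nat_lit 44), (nat_lit 0), (nat_lit
 0), (nat_lit 0), (24, 16, 10), [27233, 1120], 0⟩,
  ⟨⟨15, 52, -31, 10, 17, 50, 46, 4, -35⟩, (.cons (nat_lit 19938) (nat_lit 17508) (nat_lit 18550) (nat_lit 1)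
 (.cons (nat_lit 1721) (nat_lit 1722) (nat_lit 2139) (nat_lit 1) .nil)), (nat_lit 44), (nat_lit 0), (nat_lit
 0), (nat_lit 0), (7, 40, 25), [25301, 836], 0⟩,
  ⟨⟨-57, -4, 40, -8, 45, -26, -24, -24, -25⟩, (.cons (nat_lit 17494) (nat_lit 19807) (nat_lit 1076) (nat_lit 1)
 (.cons (nat_lit 1928) (nat_lit 1882) (nat_lit 1680) (nat_lit 1) .nil)), (nat_lit 9), (nat_lit 0), (nat_lit 0),
 (nat_lit 0), (12, 24, 19), [5621, 2030], 0⟩,
  mz,
  mz,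
  ⟨⟨-33, 20, -32, -8, 45, 34, 24, 24, -49⟩, (.cons (nat_lit 11188) (nat_lit 22880) (nat_lit 10621) (nat_lit 1)
 (.cons (nat_lit 377) (nat_lit 1914) (nat_lit 508) (nat_lit 1) .nil)), (nat_lit 42), (nat_lit 0), (nat_lit 0),
 (nat_lit 0), (47, 13, 14), [1361, 1325], 0⟩,
  ⟨⟨45, 28, -49, -28, 45, 14, 0, 0, -53⟩, (.cons (nat_lit 19128) (nat_lit 22768) (nat_lit 902) (nat_lit 1)
 (.cons (nat_lit 941) (nat_lit 2052) (nat_lit 1294) (nat_lit 1) .nil)), (nat_lit 31), (nat_lit 0), (nat_lit 0),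
 (nat_lit 0), (24, 31, 0), [2142, 226], 0⟩,
  mz,
  ⟨⟨-13, 48, -27, 30, -17, -60, 30, 36, -7⟩, (.cons (nat_lit 3202) (nat_lit 4810) (nat_lit 5280) (nat_lit 1)
 (.cons (nat_lit 217) (nat_lit 1623) (nat_lit 277) (nat_lit 1) .nil)), (nat_lit 29), (nat_lit 0), (nat_lit 0),
 (nat_lit 0), (11, 48, 48), [22478, 533], 0⟩,
  mz,
  ⟨⟨-15, 56, 4, 28, 5, -64, -40, 8, -7⟩, (.cons (nat_lit 23151) (nat_lit 28772) (nat_lit 21361) (nat_lit 1)
 (.cons (nat_lit 198) (nat_lit 100) (nat_lit 232) (nat_lit 1) .nil)), (nat_lit 28), (nat_lit 0), (nat_lit 0),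
 (nat_lit 0), (33, 2, 35), [22415, 262], 0⟩,
  mz,
  ⟨⟨9, 8, -68, -52, -5, 16, 8, -40, -31⟩, (.cons (nat_lit 18399) (nat_lit 12064) (nat_lit 22814) (nat_lit 1)
 (.cons (nat_lit 1624) (nat_lit 2139) (nat_lit 415) (nat_lit 1) .nil)), (nat_lit 10), (nat_lit 0), (nat_lit 0),
 (nat_lit 0), (4, 24, 33), [23267, 102], 0⟩,
  ⟨⟨43, -12, -63, -30, 17, -30, 30, 36, -23⟩, (.cons (nat_lit 9369) (nat_lit 8893) (nat_lit 14531) (nat_lit 1)
 (.cons (nat_lit 906) (nat_lit 756) (nat_lit 864) (nat_lit 1) .nil)), (nat_lit 24), (nat_lit 0), (nat_lit 0),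
 (nat_lit 0), (16, 48, 5), [29520, 116], 0⟩,
  mz,
  ⟨⟨45, -28, -49, -28, -45, 14, 0, 0, -53⟩, (.cons (nat_lit 29790) (nat_lit 3605) (nat_lit 3366) (nat_lit 1)
 (.cons (nat_lit 2208) (nat_lit 2100) (nat_lit 1178) (nat_lit 1) .nil)), (nat_lit 31), (nat_lit 0), (nat_lit
 0), (nat_lit 0), (39, 4, 0), [3265, 1533], 0⟩,
  mz,
  ⟨⟨57, 8, -20, 10, -33, -50, 18, 36, -37⟩, (.cons (nat_lit 6007) (nat_lit 13884) (nat_lit 4666) (nat_lit 1)
 (.cons (nat_lit 127) (nat_lit 1539) (nat_lit 1746) (nat_lit 1) .nil)), (nat_lit 49), (nat_lit 0), (nat_lit 0),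
 (nat_lit 0), (35, 8, 25), [7361, 561], 0⟩,
  mz,
  mz,
  ⟨⟨-9, 8, -59, 52, -5, -36, -8, -40, -23⟩, (.cons (nat_lit 26057) (nat_lit 14657) (nat_lit 1) (nat_lit 1891)
 (.cons (nat_lit 1055) (nat_lit 1575) (nat_lit 337) (nat_lit 1) .nil)), (nat_lit 10), (nat_lit 0), (nat_lit 0),
 (nat_lit 0), (2, 12, 43), [29396, 1230], 0⟩,
  ⟨⟨-1, 48, 37, 52, -5, -16, 8, 40, -31⟩, (.cons (nat_lit 15221) (nat_lit 8256) (nat_lit 27071) (nat_lit 1)
 (.cons (nat_lit 1607) (nat_lit 1582) (nat_lit 62) (nat_lit 1) .nil)), (nat_lit 6), (nat_lit 0), (nat_lit 0),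
 (nat_lit 0), (26, 26, 4), [7075, 554], 0⟩,
  ⟨⟨39, 28, -56, -10, -33, -40, -18, 36, -19⟩, (.cons (nat_lit 20112) (nat_lit 24219) (nat_lit 23893) (nat_lit
 1) (.cons (nat_lit 456) (nat_lit 764) (nat_lit 1591) (nat_lit 1) .nil)), (nat_lit 50), (nat_lit 0), (nat_lit
 0), (nat_lit 0), (34, 47, 21), [10089, 373], 0⟩,
  ⟨⟨15, -56, -11, 28, 5, 36, 40, -8, -47⟩, (.cons (nat_lit 12104) (nat_lit 11271) (nat_lit 187) (nat_lit 1)
 (.cons (nat_lit 484) (nat_lit 777) (nat_lit 49) (nat_lit 1) .nil)), (nat_lit 37), (nat_lit 0), (nat_lit 0),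
 (nat_lit 0), (31, 19, 12), [4521, 1908], 0⟩,
  ⟨⟨-9, -8, -59, 52, 5, -36, -8, 40, -23⟩, (.cons (nat_lit 15319) (nat_lit 18902) (nat_lit 10727) (nat_lit 1)
 (.cons (nat_lit 84) (nat_lit 690) (nat_lit 27) (nat_lit 1) .nil)), (nat_lit 10), (nat_lit 0), (nat_lit 0),
 (nat_lit 0), (29, 15, 14), [6937, 2142], 0⟩,
  ⟨⟨31, 48, -4, -10, 17, -50, 46, -4, -35⟩, (.cons (nat_lit 21392) (nat_lit 23628) (nat_lit 19165) (nat_lit 1)
 (.cons (nat_lit 269) (nat_lit 56) (nat_lit 627) (nat_lit 1) .nil)), (nat_lit 11), (nat_lit 0), (nat_lit 0),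
 (nat_lit 0), (15, 2, 12), [4259, 2164], 0⟩,
  ⟨⟨-57, 4, 40, -8, -45, -26, -24, 24, -25⟩, (.cons (nat_lit 6404) (nat_lit 14823) (nat_lit 12534) (nat_lit 1)
 (.cons (nat_lit 58) (nat_lit 1547) (nat_lit 1862) (nat_lit 1) .nil)), (nat_lit 9), (nat_lit 0), (nat_lit 0),
 (nat_lit 0), (25, 50, 44), [28232, 178], 0⟩,
  ⟨⟨15, 32, 44, -50, 17, 30, 14, 44, -19⟩, (.cons (nat_lit 7527) (nat_lit 24560) (nat_lit 5749) (nat_lit 1)
 (.cons (nat_lit 1726) (nat_lit 1584) (nat_lit 406) (nat_lit 1) .nil)), (nat_lit 17), (nat_lit 0), (nat_lit 0),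
 (nat_lit 0), (27, 16, 4), [26218, 942], 0⟩,
  ⟨⟨-15, 32, 59, 50, 17, -20, -14, 44, -5⟩, (.cons (nat_lit 10658) (nat_lit 10560) (nat_lit 16967) (nat_lit 1)
 (.cons (nat_lit 765) (nat_lit 1443) (nat_lit 534) (nat_lit 1) .nil)), (nat_lit 17), (nat_lit 0), (nat_lit 0),
 (nat_lit 0), (6, 33, 48), [27863, 989], 0⟩,
  mz,
  ⟨⟨-13, -48, -27, 30, 17, -60, 30, -36, -7⟩, (.cons (nat_lit 19012) (nat_lit 11715) (nat_lit 11275) (nat_lit
 1) (.cons (nat_lit 518) (nat_lit 107) (nat_lit 2100) (nat_lit 1) .nil)), (nat_lit 29), (nat_lit 0), (nat_lit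
 0), (nat_lit 0), (14, 37, 37), [20498, 565], 0⟩,
  ⟨⟨-15, -32, 59, 50, -17, -20, -14, -44, -5⟩, (.cons (nat_lit 6841) (nat_lit 3352) (nat_lit 27891) (nat_lit 1)
 (.cons (nat_lit 364) (nat_lit 844) (nat_lit 1478) (nat_lit 1) .nil)), (nat_lit 17), (nat_lit 0), (nat_lit 0),
 (nat_lit 0), (8, 44, 11), [10340, 1324], 0⟩,
  ⟨⟨31, 48, -27, 10, -17, -60, 46, -4, -11⟩, (.cons (nat_lit 18460) (nat_lit 3314) (nat_lit 7561) (nat_lit 1)
 (.cons (nat_lit 687) (nat_lit 722) (nat_lit 493) (nat_lit 1) .nil)), (nat_lit 43), (nat_lit 0), (nat_lit 0),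
 (nat_lit 0), (36, 27, 50), [10687, 1420], 0⟩,
  ⟨⟨-39, -28, -17, 10, 33, -50, 18, -36, -37⟩, (.cons (nat_lit 5489) (nat_lit 17636) (nat_lit 15198) (nat_lit
 1) (.cons (nat_lit 2069) (nat_lit 2164) (nat_lit 1508) (nat_lit 1) .nil)), (nat_lit 50), (nat_lit 0), (nat_lit
 0), (nat_lit 0), (5, 49, 14), [20009, 1744], 0⟩,
  ⟨⟨39, -28, -56, 10, -33, 40, -18, -36, -19⟩, (.cons (nat_lit 5571) (nat_lit 29181) (nat_lit 28076) (nat_lit
 1) (.cons (nat_lit 809) (nat_lit 444) (nat_lit 728) (nat_lit 1) .nil)), (nat_lit 38), (nat_lit 0), (nat_lit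
 0), (nat_lit 0), (49, 18, 10), [22245, 405], 0⟩,
  mz,
  ⟨⟨43, 12, -63, 30, 17, 30, 30, -36, -23⟩, (.cons (nat_lit 16281) (nat_lit 20383) (nat_lit 1) (nat_lit 1643)
 (.cons (nat_lit 2191) (nat_lit 351) (nat_lit 1415) (nat_lit 1) .nil)), (nat_lit 46), (nat_lit 0), (nat_lit 0),
 (nat_lit 0), (2, 47, 47), [1477, 454], 0⟩]

/-- Moves. -/
noncomputable def t4_8 : List Mv := [
  mz,
  mz,
  mz,
  mz,
  ⟨⟨-53, 0, 0, 10, -47, -30, -2, 20, -47⟩, (.cons (nat_lit 12452) (nat_lit 12885) (nat_lit 1) (nat_lit 25823)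
 (.cons (nat_lit 396) (nat_lit 738) (nat_lit 2037) (nat_lit 1) .nil)), (nat_lit 5), (nat_lit 0), (nat_lit 0),
 (nat_lit 0), (0, 39, 24), [14638, 2108], 0⟩,
  ⟨⟨-53, 0, 0, -10, -47, 30, -2, -20, -47⟩, (.cons (nat_lit 1550) (nat_lit 9643) (nat_lit 6352) (nat_lit 1)
 (.cons (nat_lit 463) (nat_lit 701) (nat_lit 112) (nat_lit 1) .nil)), (nat_lit 4), (nat_lit 0), (nat_lit 0),
 (nat_lit 0), (0, 7, 12), [25970, 1349], 0⟩,
  ⟨⟨15, 56, -11, 28, -5, 36, 40, 8, -47⟩, (.cons (nat_lit 18937) (nat_lit 29087) (nat_lit 1) (nat_lit 12152)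
 (.cons (nat_lit 444) (nat_lit 54) (nat_lit 1189) (nat_lit 1) .nil)), (nat_lit 37), (nat_lit 0), (nat_lit 0),
 (nat_lit 0), (1, 16, 38), [1011, 384], 0⟩,
  mz,
  mz,
  ⟨⟨-33, -20, -32, 8, 45, -34, 24, -24, -49⟩, (.cons (nat_lit 23216) (nat_lit 14564) (nat_lit 14233) (nat_lit
 1) (.cons (nat_lit 283) (nat_lit 1972) (nat_lit 1704) (nat_lit 1) .nil)), (nat_lit 18), (nat_lit 0), (nat_lit
 0), (nat_lit 0), (35, 14, 42), [24952, 479], 0⟩,
  ⟨⟨-25, 48, -11, 28, -5, -64, -40, -8, -7⟩, (.cons (nat_lit 15996) (nat_lit 16527) (nat_lit 3678) (nat_lit 1)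
 (.cons (nat_lit 714) (nat_lit 2040) (nat_lit 163) (nat_lit 1) .nil)), (nat_lit 36), (nat_lit 0), (nat_lit 0),
 (nat_lit 0), (52, 52, 9), [27535, 131], 0⟩,
  ⟨⟨15, -32, 44, 50, 17, -30, 14, -44, -19⟩, (.cons (nat_lit 2341) (nat_lit 8739) (nat_lit 29772) (nat_lit 1)
 (.cons (nat_lit 1240) (nat_lit 1248) (nat_lit 88) (nat_lit 1) .nil)), (nat_lit 41), (nat_lit 0), (nat_lit 0),
 (nat_lit 0), (29, 26, 20), [13054, 507], 0⟩,
  ⟨⟨-51, 20, 4, -10, -47, -20, 2, 20, -49⟩, (.cons (nat_lit 27613) (nat_lit 2468) (nat_lit 1) (nat_lit 15376)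
 (.cons (nat_lit 1900) (nat_lit 1800) (nat_lit 924) (nat_lit 1) .nil)), (nat_lit 15), (nat_lit 0), (nat_lit 0),
 (nat_lit 0), (48, 25, 48), [6835, 369], 0⟩,
  mz,
  mz,
  ⟨⟨-51, -20, 4, -10, 47, -20, 2, -20, -49⟩, (.cons (nat_lit 29790) (nat_lit 4096) (nat_lit 18508) (nat_lit 1)
 (.cons (nat_lit 2208) (nat_lit 1538) (nat_lit 386) (nat_lit 1) .nil)), (nat_lit 15), (nat_lit 0), (nat_lit 0),
 (nat_lit 0), (36, 32, 36), [17622, 539], 0⟩,
  ⟨⟨31, -48, -27, 10, 17, -60, 46, 4, -11⟩, (.cons (nat_lit 10654) (nat_lit 25276) (nat_lit 5123) (nat_lit 1)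
 (.cons (nat_lit 2150) (nat_lit 2151) (nat_lit 273) (nat_lit 1) .nil)), (nat_lit 43), (nat_lit 0), (nat_lit 0),
 (nat_lit 0), (39, 16, 10), [7268, 1073], 0⟩,
  ⟨⟨31, -48, -4, -10, -17, -50, 46, 4, -35⟩, (.cons (nat_lit 14779) (nat_lit 14187) (nat_lit 916) (nat_lit 1)
 (.cons (nat_lit 991) (nat_lit 854) (nat_lit 2058) (nat_lit 1) .nil)), (nat_lit 11), (nat_lit 0), (nat_lit 0),
 (nat_lit 0), (18, 13, 25), [26165, 1632], 0⟩,
  ⟨⟨-57, -4, 40, -8, 45, -26, -24, -24, -25⟩, (.cons (nat_lit 17494) (nat_lit 19807) (nat_lit 1076) (nat_lit 1)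
 (.cons (nat_lit 1928) (nat_lit 1882) (nat_lit 1680) (nat_lit 1) .nil)), (nat_lit 9), (nat_lit 0), (nat_lit 0),
 (nat_lit 0), (12, 24, 19), [5621, 2030], 0⟩,
  mz,
  mz,
  ⟨⟨-33, 20, -32, 8, -45, -34, 24, 24, -49⟩, (.cons (nat_lit 21633) (nat_lit 20182) (nat_lit 26662) (nat_lit 1)
 (.cons (nat_lit 1045) (nat_lit 1179) (nat_lit 1052) (nat_lit 1) .nil)), (nat_lit 18), (nat_lit 0), (nat_lit
 0), (nat_lit 0), (47, 40, 14), [22443, 742], 0⟩,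
  ⟨⟨45, 28, -49, 28, -45, -14, 0, 0, -53⟩, (.cons (nat_lit 29790) (nat_lit 7041) (nat_lit 11447) (nat_lit 1)
 (.cons (nat_lit 2208) (nat_lit 2130) (nat_lit 1172) (nat_lit 1) .nil)), (nat_lit 22), (nat_lit 0), (nat_lit
 0), (nat_lit 0), (24, 22, 0), [20106, 922], 0⟩,
  mz,
  ⟨⟨43, -12, 20, -30, 17, 60, 30, 36, -7⟩, (.cons (nat_lit 29790) (nat_lit 11101) (nat_lit 1992) (nat_lit 1)
 (.cons (nat_lit 2208) (nat_lit 1664) (nat_lit 364) (nat_lit 1) .nil)), (nat_lit 24), (nat_lit 0), (nat_lit 0),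
 (nat_lit 0), (37, 5, 48), [21289, 753], 0⟩,
  mz,
  ⟨⟨-25, -48, -11, 28, 5, -64, -40, 8, -7⟩, (.cons (nat_lit 5817) (nat_lit 14157) (nat_lit 117) (nat_lit 1)
 (.cons (nat_lit 977) (nat_lit 464) (nat_lit 1078) (nat_lit 1) .nil)), (nat_lit 36), (nat_lit 0), (nat_lit 0),
 (nat_lit 0), (2, 2, 35), [12880, 1202], 0⟩,
  mz,
  ⟨⟨-1, -48, 37, 52, 5, -16, 8, -40, -31⟩, (.cons (nat_lit 25848) (nat_lit 19626) (nat_lit 5825) (nat_lit 1)
 (.cons (nat_lit 1001) (nat_lit 1373) (nat_lit 1791) (nat_lit 1) .nil)), (nat_lit 6), (nat_lit 0), (nat_lit 0),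
 (nat_lit 0), (29, 29, 33), [24548, 451], 0⟩,
  ⟨⟨43, -12, -63, -30, 17, -30, 30, 36, -23⟩, (.cons (nat_lit 9369) (nat_lit 8893) (nat_lit 14531) (nat_lit 1)
 (.cons (nat_lit 906) (nat_lit 756) (nat_lit 864) (nat_lit 1) .nil)), (nat_lit 24), (nat_lit 0), (nat_lit 0),
 (nat_lit 0), (16, 48, 5), [29520, 116], 0⟩,
  mz,
  ⟨⟨45, -28, -49, 28, 45, -14, 0, 0, -53⟩, (.cons (nat_lit 19314) (nat_lit 3799) (nat_lit 6507) (nat_lit 1)
 (.cons (nat_lit 1270) (nat_lit 580) (nat_lit 116) (nat_lit 1) .nil)), (nat_lit 22), (nat_lit 0), (nat_lit 0),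
 (nat_lit 0), (39, 49, 0), [5583, 1683], 0⟩,
  mz,
  ⟨⟨57, 8, -20, 10, -33, -50, 18, 36, -37⟩, (.cons (nat_lit 6007) (nat_lit 13884) (nat_lit 4666) (nat_lit 1)
 (.cons (nat_lit 127) (nat_lit 1539) (nat_lit 1746) (nat_lit 1) .nil)), (nat_lit 49), (nat_lit 0), (nat_lit 0),
 (nat_lit 0), (35, 8, 25), [7361, 561], 0⟩,
  mz,
  mz,
  ⟨⟨-9, 8, -59, -52, 5, 36, -8, -40, -23⟩, (.cons (nat_lit 18862) (nat_lit 17190) (nat_lit 27471) (nat_lit 1)
 (.cons (nat_lit 719) (nat_lit 2152) (nat_lit 277) (nat_lit 1) .nil)), (nat_lit 26), (nat_lit 0), (nat_lit 0),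
 (nat_lit 0), (2, 41, 43), [2258, 2049], 0⟩,
  ⟨⟨-1, 48, 37, -52, 5, 16, 8, 40, -31⟩, (.cons (nat_lit 8607) (nat_lit 19790) (nat_lit 28996) (nat_lit 1)
 (.cons (nat_lit 178) (nat_lit 861) (nat_lit 114) (nat_lit 1) .nil)), (nat_lit 39), (nat_lit 0), (nat_lit 0),
 (nat_lit 0), (26, 27, 4), [18925, 1578], 0⟩,
  ⟨⟨39, 28, -56, -10, -33, -40, -18, 36, -19⟩, (.cons (nat_lit 20112) (nat_lit 24219) (nat_lit 23893) (nat_lit
 1) (.cons (nat_lit 456) (nat_lit 764) (nat_lit 1591) (nat_lit 1) .nil)), (nat_lit 50), (nat_lit 0), (nat_lit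
 0), (nat_lit 0), (34, 47, 21), [10089, 373], 0⟩,
  ⟨⟨15, -56, -11, -28, -5, -36, 40, -8, -47⟩, (.cons (nat_lit 22347) (nat_lit 19000) (nat_lit 27248) (nat_lit
 1) (.cons (nat_lit 56) (nat_lit 686) (nat_lit 1106) (nat_lit 1) .nil)), (nat_lit 28), (nat_lit 0), (nat_lit
 0), (nat_lit 0), (31, 34, 12), [18973, 1447], 0⟩,
  ⟨⟨-9, -8, -59, 52, 5, -36, -8, 40, -23⟩, (.cons (nat_lit 15319) (nat_lit 18902) (nat_lit 10727) (nat_lit 1)
 (.cons (nat_lit 84) (nat_lit 690) (nat_lit 27) (nat_lit 1) .nil)), (nat_lit 10), (nat_lit 0), (nat_lit 0),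
 (nat_lit 0), (29, 15, 14), [6937, 2142], 0⟩,
  ⟨⟨31, 48, -4, -10, 17, -50, 46, -4, -35⟩, (.cons (nat_lit 21392) (nat_lit 23628) (nat_lit 19165) (nat_lit 1)
 (.cons (nat_lit 269) (nat_lit 56) (nat_lit 627) (nat_lit 1) .nil)), (nat_lit 11), (nat_lit 0), (nat_lit 0),
 (nat_lit 0), (15, 2, 12), [4259, 2164], 0⟩,
  ⟨⟨-57, 4, 40, -8, -45, -26, -24, 24, -25⟩, (.cons (nat_lit 6404) (nat_lit 14823) (nat_lit 12534) (nat_lit 1)
 (.cons (nat_lit 58) (nat_lit 1547) (nat_lit 1862) (nat_lit 1) .nil)), (nat_lit 9), (nat_lit 0), (nat_lit 0),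
 (nat_lit 0), (25, 50, 44), [28232, 178], 0⟩,
  ⟨⟨-1, 12, -63, 50, -17, -30, 14, 44, -19⟩, (.cons (nat_lit 29050) (nat_lit 20768) (nat_lit 12686) (nat_lit 1)
 (.cons (nat_lit 936) (nat_lit 1272) (nat_lit 716) (nat_lit 1) .nil)), (nat_lit 16), (nat_lit 0), (nat_lit 0),
 (nat_lit 0), (30, 37, 4), [22070, 2196], 0⟩,
  ⟨⟨1, 12, -64, 50, 17, -20, -14, 44, -5⟩, (.cons (nat_lit 4342) (nat_lit 10807) (nat_lit 10056) (nat_lit 1)
 (.cons (nat_lit 927) (nat_lit 484) (nat_lit 1333) (nat_lit 1) .nil)), (nat_lit 48), (nat_lit 0), (nat_lit 0),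
 (nat_lit 0), (42, 33, 48), [1438, 472], 0⟩,
  mz,
  ⟨⟨-13, -48, -27, -30, -17, 60, 30, -36, -7⟩, (.cons (nat_lit 19654) (nat_lit 10403) (nat_lit 21674) (nat_lit
 1) (.cons (nat_lit 859) (nat_lit 1124) (nat_lit 1674) (nat_lit 1) .nil)), (nat_lit 52), (nat_lit 0), (nat_lit
 0), (nat_lit 0), (14, 16, 37), [2786, 1294], 0⟩,
  ⟨⟨-15, -32, 59, 50, -17, -20, -14, -44, -5⟩, (.cons (nat_lit 6841) (nat_lit 3352) (nat_lit 27891) (nat_lit 1)
 (.cons (nat_lit 364) (nat_lit 844) (nat_lit 1478) (nat_lit 1) .nil)), (nat_lit 17), (nat_lit 0), (nat_lit 0),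
 (nat_lit 0), (8, 44, 11), [10340, 1324], 0⟩,
  ⟨⟨15, -52, 16, 10, -17, -60, 46, -4, -11⟩, (.cons (nat_lit 14772) (nat_lit 8965) (nat_lit 20485) (nat_lit 1)
 (.cons (nat_lit 112) (nat_lit 1017) (nat_lit 916) (nat_lit 1) .nil)), (nat_lit 44), (nat_lit 0), (nat_lit 0),
 (nat_lit 0), (14, 27, 50), [8336, 1561], 0⟩,
  ⟨⟨57, -8, -20, 10, 33, -50, 18, -36, -37⟩, (.cons (nat_lit 29790) (nat_lit 2393) (nat_lit 26996) (nat_lit 1)
 (.cons (nat_lit 2208) (nat_lit 1220) (nat_lit 192) (nat_lit 1) .nil)), (nat_lit 49), (nat_lit 0), (nat_lit 0),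
 (nat_lit 0), (9, 49, 14), [25898, 193], 0⟩,
  ⟨⟨39, -28, -56, -10, 33, -40, -18, -36, -19⟩, (.cons (nat_lit 29790) (nat_lit 17372) (nat_lit 476) (nat_lit
 1) (.cons (nat_lit 2208) (nat_lit 1412) (nat_lit 1030) (nat_lit 1) .nil)), (nat_lit 50), (nat_lit 0), (nat_lit
 0), (nat_lit 0), (49, 35, 10), [5468, 287], 0⟩,
  mz,
  ⟨⟨43, 12, -63, 30, 17, 30, 30, -36, -23⟩, (.cons (nat_lit 16281) (nat_lit 20383) (nat_lit 1) (nat_lit 1643)
 (.cons (nat_lit 2191) (nat_lit 351) (nat_lit 1415) (nat_lit 1) .nil)), (nat_lit 46), (nat_lit 0), (nat_lit 0),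
 (nat_lit 0), (2, 47, 47), [1477, 454], 0⟩]

/-- Moves. -/
noncomputable def t4_19 : List Mv := [
  mz,
  mz,
  mz,
  mz,
  ⟨⟨51, 20, -47, 10, -47, -30, -2, 20, -47⟩, (.cons (nat_lit 10625) (nat_lit 23156) (nat_lit 23961) (nat_lit 1)
 (.cons (nat_lit 121) (nat_lit 1189) (nat_lit 1520) (nat_lit 1) .nil)), (nat_lit 15), (nat_lit 0), (nat_lit 0),
 (nat_lit 0), (24, 39, 24), [5484, 604], 0⟩,
  ⟨⟨51, -20, -47, -10, -47, 30, -2, -20, -47⟩, (.cons (nat_lit 26768) (nat_lit 13221) (nat_lit 278) (nat_lit 1)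
 (.cons (nat_lit 1370) (nat_lit 521) (nat_lit 1287) (nat_lit 1) .nil)), (nat_lit 12), (nat_lit 0), (nat_lit 0),
 (nat_lit 0), (12, 7, 12), [23662, 174], 0⟩,
  ⟨⟨15, 56, -11, -28, 5, -36, 40, 8, -47⟩, (.cons (nat_lit 17861) (nat_lit 10711) (nat_lit 19638) (nat_lit 1)
 (.cons (nat_lit 1494) (nat_lit 899) (nat_lit 1554) (nat_lit 1) .nil)), (nat_lit 28), (nat_lit 0), (nat_lit 0),
 (nat_lit 0), (1, 37, 38), [15741, 309], 0⟩,
  mz,
  mz,
  ⟨⟨-33, -20, -32, -8, -45, 34, 24, -24, -49⟩, (.cons (nat_lit 19580) (nat_lit 19373) (nat_lit 2538) (nat_lit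
 1) (.cons (nat_lit 876) (nat_lit 1154) (nat_lit 1339) (nat_lit 1) .nil)), (nat_lit 42), (nat_lit 0), (nat_lit
 0), (nat_lit 0), (35, 39, 42), [6733, 1622], 0⟩,
  ⟨⟨-15, -56, 4, 28, -5, -64, -40, -8, -7⟩, (.cons (nat_lit 22508) (nat_lit 8453) (nat_lit 9955) (nat_lit 1)
 (.cons (nat_lit 978) (nat_lit 2190) (nat_lit 586) (nat_lit 1) .nil)), (nat_lit 28), (nat_lit 0), (nat_lit 0),
 (nat_lit 0), (10, 52, 9), [7074, 883], 0⟩,
  ⟨⟨15, -32, 44, 50, 17, -30, 14, -44, -19⟩, (.cons (nat_lit 2341) (nat_lit 8739) (nat_lit 29772) (nat_lit 1)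
 (.cons (nat_lit 1240) (nat_lit 1248) (nat_lit 88) (nat_lit 1) .nil)), (nat_lit 41), (nat_lit 0), (nat_lit 0),
 (nat_lit 0), (29, 26, 20), [13054, 507], 0⟩,
  ⟨⟨-51, 20, 4, 10, 47, 20, 2, 20, -49⟩, (.cons (nat_lit 29790) (nat_lit 10339) (nat_lit 14510) (nat_lit 1)
 (.cons (nat_lit 2208) (nat_lit 802) (nat_lit 646) (nat_lit 1) .nil)), (nat_lit 12), (nat_lit 0), (nat_lit 0),
 (nat_lit 0), (48, 28, 48), [8140, 1150], 0⟩,
  mz,
  mz,
  ⟨⟨-51, -20, 4, -10, 47, -20, 2, -20, -49⟩, (.cons (nat_lit 29790) (nat_lit 4096) (nat_lit 18508) (nat_lit 1)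
 (.cons (nat_lit 2208) (nat_lit 1538) (nat_lit 386) (nat_lit 1) .nil)), (nat_lit 15), (nat_lit 0), (nat_lit 0),
 (nat_lit 0), (36, 32, 36), [17622, 539], 0⟩,
  ⟨⟨15, 52, 16, 10, 17, -60, 46, 4, -11⟩, (.cons (nat_lit 21510) (nat_lit 16433) (nat_lit 25270) (nat_lit 1)
 (.cons (nat_lit 1187) (nat_lit 1139) (nat_lit 1495) (nat_lit 1) .nil)), (nat_lit 44), (nat_lit 0), (nat_lit
 0), (nat_lit 0), (24, 16, 10), [27233, 1120], 0⟩,
  ⟨⟨31, -48, -4, 10, 17, 50, 46, 4, -35⟩, (.cons (nat_lit 21333) (nat_lit 25628) (nat_lit 6130) (nat_lit 1)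
 (.cons (nat_lit 1898) (nat_lit 17) (nat_lit 353) (nat_lit 1) .nil)), (nat_lit 43), (nat_lit 0), (nat_lit 0),
 (nat_lit 0), (18, 40, 25), [25530, 977], 0⟩,
  ⟨⟨-57, -4, 40, -8, 45, -26, -24, -24, -25⟩, (.cons (nat_lit 17494) (nat_lit 19807) (nat_lit 1076) (nat_lit 1)
 (.cons (nat_lit 1928) (nat_lit 1882) (nat_lit 1680) (nat_lit 1) .nil)), (nat_lit 9), (nat_lit 0), (nat_lit 0),
 (nat_lit 0), (12, 24, 19), [5621, 2030], 0⟩,
  mz,
  mz,
  ⟨⟨57, 4, -17, -8, 45, 34, 24, 24, -49⟩, (.cons (nat_lit 29790) (nat_lit 27512) (nat_lit 22222) (nat_lit 1)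
 (.cons (nat_lit 2208) (nat_lit 1564) (nat_lit 790) (nat_lit 1) .nil)), (nat_lit 21), (nat_lit 0), (nat_lit 0),
 (nat_lit 0), (20, 13, 14), [10648, 1137], 0⟩,
  ⟨⟨-45, -28, -4, 28, -45, -14, 0, 0, -53⟩, (.cons (nat_lit 1303) (nat_lit 18094) (nat_lit 5600) (nat_lit 1)
 (.cons (nat_lit 330) (nat_lit 831) (nat_lit 608) (nat_lit 1) .nil)), (nat_lit 31), (nat_lit 0), (nat_lit 0),
 (nat_lit 0), (29, 22, 0), [15108, 828], 0⟩,
  mz,
  ⟨⟨43, -12, 20, -30, 17, 60, 30, 36, -7⟩, (.cons (nat_lit 29790) (nat_lit 11101) (nat_lit 1992) (nat_lit 1)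
 (.cons (nat_lit 2208) (nat_lit 1664) (nat_lit 364) (nat_lit 1) .nil)), (nat_lit 24), (nat_lit 0), (nat_lit 0),
 (nat_lit 0), (37, 5, 48), [21289, 753], 0⟩,
  mz,
  ⟨⟨-25, -48, -11, 28, 5, -64, -40, 8, -7⟩, (.cons (nat_lit 5817) (nat_lit 14157) (nat_lit 117) (nat_lit 1)
 (.cons (nat_lit 977) (nat_lit 464) (nat_lit 1078) (nat_lit 1) .nil)), (nat_lit 36), (nat_lit 0), (nat_lit 0),
 (nat_lit 0), (2, 2, 35), [12880, 1202], 0⟩,
  mz,
  ⟨⟨9, 8, -68, 52, 5, -16, 8, -40, -31⟩, (.cons (nat_lit 5523) (nat_lit 27229) (nat_lit 25348) (nat_lit 1)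
 (.cons (nat_lit 926) (nat_lit 178) (nat_lit 1650) (nat_lit 1) .nil)), (nat_lit 26), (nat_lit 0), (nat_lit 0),
 (nat_lit 0), (4, 29, 33), [24943, 1203], 0⟩,
  ⟨⟨43, -12, -63, -30, 17, -30, 30, 36, -23⟩, (.cons (nat_lit 9369) (nat_lit 8893) (nat_lit 14531) (nat_lit 1)
 (.cons (nat_lit 906) (nat_lit 756) (nat_lit 864) (nat_lit 1) .nil)), (nat_lit 24), (nat_lit 0), (nat_lit 0),
 (nat_lit 0), (16, 48, 5), [29520, 116], 0⟩,
  mz,
  ⟨⟨45, -28, -49, 28, 45, -14, 0, 0, -53⟩, (.cons (nat_lit 19314) (nat_lit 3799) (nat_lit 6507) (nat_lit 1)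
 (.cons (nat_lit 1270) (nat_lit 580) (nat_lit 116) (nat_lit 1) .nil)), (nat_lit 22), (nat_lit 0), (nat_lit 0),
 (nat_lit 0), (39, 49, 0), [5583, 1683], 0⟩,
  mz,
  ⟨⟨-39, 28, -17, -10, 33, 50, 18, 36, -37⟩, (.cons (nat_lit 374) (nat_lit 26168) (nat_lit 15060) (nat_lit 1)
 (.cons (nat_lit 48) (nat_lit 1625) (nat_lit 855) (nat_lit 1) .nil)), (nat_lit 38), (nat_lit 0), (nat_lit 0),
 (nat_lit 0), (43, 45, 25), [13592, 475], 0⟩,
  mz,
  mz,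
  ⟨⟨-9, 8, -59, -52, 5, 36, -8, -40, -23⟩, (.cons (nat_lit 18862) (nat_lit 17190) (nat_lit 27471) (nat_lit 1)
 (.cons (nat_lit 719) (nat_lit 2152) (nat_lit 277) (nat_lit 1) .nil)), (nat_lit 26), (nat_lit 0), (nat_lit 0),
 (nat_lit 0), (2, 41, 43), [2258, 2049], 0⟩,
  ⟨⟨-1, 48, 37, -52, 5, 16, 8, 40, -31⟩, (.cons (nat_lit 8607) (nat_lit 19790) (nat_lit 28996) (nat_lit 1)
 (.cons (nat_lit 178) (nat_lit 861) (nat_lit 114) (nat_lit 1) .nil)), (nat_lit 39), (nat_lit 0), (nat_lit 0),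
 (nat_lit 0), (26, 27, 4), [18925, 1578], 0⟩,
  ⟨⟨-57, 8, 37, -10, -33, -40, -18, 36, -19⟩, (.cons (nat_lit 3586) (nat_lit 5729) (nat_lit 2871) (nat_lit 1)
 (.cons (nat_lit 343) (nat_lit 223) (nat_lit 1497) (nat_lit 1) .nil)), (nat_lit 49), (nat_lit 0), (nat_lit 0),
 (nat_lit 0), (40, 47, 21), [16064, 655], 0⟩,
  ⟨⟨15, -56, -11, 28, 5, 36, 40, -8, -47⟩, (.cons (nat_lit 12104) (nat_lit 11271) (nat_lit 187) (nat_lit 1)
 (.cons (nat_lit 484) (nat_lit 777) (nat_lit 49) (nat_lit 1) .nil)), (nat_lit 37), (nat_lit 0), (nat_lit 0),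
 (nat_lit 0), (31, 19, 12), [4521, 1908], 0⟩,
  ⟨⟨-9, -8, -59, 52, 5, -36, -8, 40, -23⟩, (.cons (nat_lit 15319) (nat_lit 18902) (nat_lit 10727) (nat_lit 1)
 (.cons (nat_lit 84) (nat_lit 690) (nat_lit 27) (nat_lit 1) .nil)), (nat_lit 10), (nat_lit 0), (nat_lit 0),
 (nat_lit 0), (29, 15, 14), [6937, 2142], 0⟩,
  ⟨⟨15, -52, -31, -10, 17, -50, 46, -4, -35⟩, (.cons (nat_lit 1982) (nat_lit 26037) (nat_lit 18650) (nat_lit 1)
 (.cons (nat_lit 2175) (nat_lit 132) (nat_lit 2037) (nat_lit 1) .nil)), (nat_lit 47), (nat_lit 0), (nat_lit 0),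
 (nat_lit 0), (50, 2, 12), [9177, 2023], 0⟩,
  ⟨⟨-57, 4, 40, 8, 45, 26, -24, 24, -25⟩, (.cons (nat_lit 28654) (nat_lit 7017) (nat_lit 10722) (nat_lit 1)
 (.cons (nat_lit 1834) (nat_lit 2034) (nat_lit 526) (nat_lit 1) .nil)), (nat_lit 21), (nat_lit 0), (nat_lit 0),
 (nat_lit 0), (25, 3, 44), [2149, 1184], 0⟩,
  ⟨⟨15, 32, 44, 50, -17, -30, 14, 44, -19⟩, (.cons (nat_lit 16569) (nat_lit 7329) (nat_lit 22248) (nat_lit 1)
 (.cons (nat_lit 1461) (nat_lit 843) (nat_lit 387) (nat_lit 1) .nil)), (nat_lit 41), (nat_lit 0), (nat_lit 0),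
 (nat_lit 0), (27, 37, 4), [19868, 1397], 0⟩,
  ⟨⟨-15, 32, 59, 50, 17, -20, -14, 44, -5⟩, (.cons (nat_lit 10658) (nat_lit 10560) (nat_lit 16967) (nat_lit 1)
 (.cons (nat_lit 765) (nat_lit 1443) (nat_lit 534) (nat_lit 1) .nil)), (nat_lit 17), (nat_lit 0), (nat_lit 0),
 (nat_lit 0), (6, 33, 48), [27863, 989], 0⟩,
  mz,
  ⟨⟨-13, -48, -27, -30, -17, 60, 30, -36, -7⟩, (.cons (nat_lit 19654) (nat_lit 10403) (nat_lit 21674) (nat_lit
 1) (.cons (nat_lit 859) (nat_lit 1124) (nat_lit 1674) (nat_lit 1) .nil)), (nat_lit 52), (nat_lit 0), (nat_lit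
 0), (nat_lit 0), (14, 16, 37), [2786, 1294], 0⟩,
  ⟨⟨-15, -32, 59, 50, -17, -20, -14, -44, -5⟩, (.cons (nat_lit 6841) (nat_lit 3352) (nat_lit 27891) (nat_lit 1)
 (.cons (nat_lit 364) (nat_lit 844) (nat_lit 1478) (nat_lit 1) .nil)), (nat_lit 17), (nat_lit 0), (nat_lit 0),
 (nat_lit 0), (8, 44, 11), [10340, 1324], 0⟩,
  ⟨⟨15, -52, 16, 10, -17, -60, 46, -4, -11⟩, (.cons (nat_lit 14772) (nat_lit 8965) (nat_lit 20485) (nat_lit 1)
 (.cons (nat_lit 112) (nat_lit 1017) (nat_lit 916) (nat_lit 1) .nil)), (nat_lit 44), (nat_lit 0), (nat_lit 0),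
 (nat_lit 0), (14, 27, 50), [8336, 1561], 0⟩,
  ⟨⟨57, -8, -20, -10, -33, 50, 18, -36, -37⟩, (.cons (nat_lit 2564) (nat_lit 1669) (nat_lit 12358) (nat_lit 1)
 (.cons (nat_lit 574) (nat_lit 214) (nat_lit 682) (nat_lit 1) .nil)), (nat_lit 33), (nat_lit 0), (nat_lit 0),
 (nat_lit 0), (9, 4, 14), [16076, 170], 0⟩,
  ⟨⟨39, -28, -56, -10, 33, -40, -18, -36, -19⟩, (.cons (nat_lit 29790) (nat_lit 17372) (nat_lit 476) (nat_lit
 1) (.cons (nat_lit 2208) (nat_lit 1412) (nat_lit 1030) (nat_lit 1) .nil)), (nat_lit 50), (nat_lit 0), (nat_lit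
 0), (nat_lit 0), (49, 35, 10), [5468, 287], 0⟩,
  mz,
  ⟨⟨-13, -48, 40, -30, -17, -30, 30, -36, -23⟩, (.cons (nat_lit 29790) (nat_lit 23808) (nat_lit 19108) (nat_lit
 1) (.cons (nat_lit 2208) (nat_lit 1532) (nat_lit 388) (nat_lit 1) .nil)), (nat_lit 52), (nat_lit 0), (nat_lit
 0), (nat_lit 0), (45, 6, 47), [25522, 657], 0⟩]

/-- All the moves. -/
noncomputable def tabs : List (List (List Mv)) := [[[], t0_1, [], [], t0_4, [], t0_6, [], t0_8, [], [], [], [],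
 [], [], [], [], [], [], t0_19], [[], t1_1, [], [], t1_4, [], t1_6, [], t1_8, [], [], [], [], [], [], [], [],
 [], [], t1_19], [], [], [[], t4_1, [], [], t4_4, [], t4_6, [], t4_8, [], [], [], [], [], [], [], [], [], [],
 t4_19]]

/-- Subtrie. -/
noncomputable def T1 : Tr := (.ev (nat_lit 20) (nat_lit 70996080432240) (.nd (nat_lit 33) (.br (nat_lit 25)
 (.br (nat_lit 14) (.br (nat_lit 5) (.br (nat_lit 2) (.ch (nat_lit 1) (.ev (nat_lit 52) (nat_lit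
 593738514565120) (.ev (nat_lit 84) (nat_lit 5629774412120064) (.ev (nat_lit 148) (nat_lit 536870912) (.ev
 (nat_lit 276) (nat_lit 512) (.nd (nat_lit 608) (.br (nat_lit 16) (.br (nat_lit 13) (.br (nat_lit 4) (.ch
 (nat_lit 0) (.ev (nat_lit 624) (nat_lit 424548927275008) (.ev (nat_lit 637) (nat_lit 1099511627776) .dd)))
 (.ch (nat_lit 4) (.ev (nat_lit 624) (nat_lit 137438953472) (.ev (nat_lit 788) (nat_lit 2199023255552) (.ev
 (nat_lit 848) (nat_lit 140737488355328) (.fin (nat_lit 576474496213926468))))))) (.br (nat_lit 15) (.ch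
 (nat_lit 13) (.ev (nat_lit 624) (nat_lit 284773511593984) (.ev (nat_lit 992) (nat_lit 140874927308800) .dd)))
 (.ch (nat_lit 15) (.ev (nat_lit 624) (nat_lit 423449415647232) (.ev (nat_lit 637) (nat_lit 2199023255552)
 .dd))))) (.br (nat_lit 21) (.br (nat_lit 19) (.ch (nat_lit 16) (.ev (nat_lit 624) (nat_lit 282711927291904)
 (.ev (nat_lit 816) (nat_lit 142936511610880) .dd))) (.ch (nat_lit 19) (.ev (nat_lit 624) (nat_lit
 425648438902784) .dd))) (.br (nat_lit 23) (.ch (nat_lit 21) (.ev (nat_lit 624) (nat_lit 425648438902784) .dd))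
 (.br (nat_lit 28) (.ch (nat_lit 23) (.ev (nat_lit 624) (nat_lit 425648438902784) .dd)) (.ch (nat_lit 28) (.ev
 (nat_lit 624) (nat_lit 424548927275008) (.ev (nat_lit 637) (nat_lit 1099511627776) .dd))))))))))))) (.br
 (nat_lit 3) (.ch (nat_lit 2) (.ev (nat_lit 52) (nat_lit 2120270819099136) (.ev (nat_lit 84) (nat_lit
 4507997673883648) (.ev (nat_lit 116) (nat_lit 536870912) (.ev (nat_lit 148) (nat_lit 2199023255552) (.ev
 (nat_lit 180) (nat_lit 17592186044416) (.nd (nat_lit 608) (.br (nat_lit 9) (.br (nat_lit 4) (.br (nat_lit 1)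
 (.ch (nat_lit 0) (.ev (nat_lit 624) (nat_lit 1101659111424) (.ev (nat_lit 637) (nat_lit 4194304) .dd))) (.ch
 (nat_lit 1) (.ev (nat_lit 624) (nat_lit 1101663305728) .dd))) (.br (nat_lit 7) (.ch (nat_lit 4) (.ev (nat_lit
 788) (nat_lit 4194304) (.fin (nat_lit 576566855213728378)))) (.br (nat_lit 8) (.ch (nat_lit 7) (.ev (nat_lit
 624) (nat_lit 1101663305728) .dd)) (.ch (nat_lit 8) (.ev (nat_lit 624) (nat_lit 2151677952) (.ev (nat_lit 637)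
 (nat_lit 1099511627776) .dd)))))) (.br (nat_lit 21) (.br (nat_lit 13) (.ch (nat_lit 9) (.ev (nat_lit 624)
 (nat_lit 1099511627776) (.ev (nat_lit 656) (nat_lit 2147483648) (.ev (nat_lit 669) (nat_lit 4194304) .dd))))
 (.br (nat_lit 20) (.ch (nat_lit 13) (.ev (nat_lit 624) (nat_lit 1101663305728) .dd)) (.ch (nat_lit 20) (.ev
 (nat_lit 624) (nat_lit 2151677952) (.ev (nat_lit 637) (nat_lit 1099511627776) .dd))))) (.br (nat_lit 28) (.ch
 (nat_lit 21) (.ev (nat_lit 624) (nat_lit 1101663305728) .dd)) (.br (nat_lit 29) (.ch (nat_lit 28) (.ev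
 (nat_lit 624) (nat_lit 1101663305728) .dd)) (.ch (nat_lit 29) (.ev (nat_lit 624) (nat_lit 4194304) (.ev
 (nat_lit 676) (nat_lit 2147483648) (.ev (nat_lit 685) (nat_lit 1099511627776) .dd))))))))))))))) (.ch (nat_lit
 3) (.ev (nat_lit 52) (nat_lit 1689952073025536) (.ev (nat_lit 84) (nat_lit 4503599627370496) (.nd (nat_lit
 608) (.br (nat_lit 13) (.br (nat_lit 7) (.br (nat_lit 1) (.ch (nat_lit 0) (.ev (nat_lit 624) (nat_lit
 422349908213760) (.ev (nat_lit 676) (nat_lit 2199023255552) (.ev (nat_lit 800) (nat_lit 4398046511104) (.ev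
 (nat_lit 832) (nat_lit 17592186044416) (.ev (nat_lit 1028) (nat_lit 8796093022208) (.ev (nat_lit 1188)
 (nat_lit 274877906944) (.ev (nat_lit 1206) (nat_lit 67109376) .dd)))))))) (.br (nat_lit 4) (.ch (nat_lit 1)
 (.ev (nat_lit 624) (nat_lit 7009457930752) (.ev (nat_lit 676) (nat_lit 149533581377536) (.ev (nat_lit 788)
 (nat_lit 281474976710656) (.ev (nat_lit 797) (nat_lit 17592186044416) .dd))))) (.ch (nat_lit 4) (.ev (nat_lit
 624) (nat_lit 156405596160512) (.ev (nat_lit 676) (nat_lit 299204601708544) (.ev (nat_lit 685) (nat_lit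
 4194304) .dd)))))) (.br (nat_lit 8) (.ch (nat_lit 7) (.ev (nat_lit 624) (nat_lit 310199789289472) (.ev
 (nat_lit 704) (nat_lit 4398046511104) (.ev (nat_lit 800) (nat_lit 512) (.ev (nat_lit 900) (nat_lit
 274877906944) (.ev (nat_lit 909) (nat_lit 140737488355328) .dd)))))) (.br (nat_lit 11) (.ch (nat_lit 8) (.ev
 (nat_lit 624) (nat_lit 314872713707520) (.ev (nat_lit 676) (nat_lit 140737488355328) (.ev (nat_lit 685)
 (nat_lit 512) .dd)))) (.ch (nat_lit 11) (.ev (nat_lit 624) (nat_lit 446539164024832) (.ev (nat_lit 800)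
 (nat_lit 512) (.ev (nat_lit 964) (nat_lit 8796093022208) (.ev (nat_lit 1152) (nat_lit 67108864) (.ev (nat_lit
 1165) (nat_lit 274877906944) .dd))))))))) (.br (nat_lit 23) (.br (nat_lit 19) (.ch (nat_lit 13) (.ev (nat_lit
 624) (nat_lit 446814109041152) (.ev (nat_lit 637) (nat_lit 8796093022208) .dd))) (.br (nat_lit 20) (.ch
 (nat_lit 19) (.ev (nat_lit 624) (nat_lit 442415995421184) (.ev (nat_lit 676) (nat_lit 8796093022208) (.ev
 (nat_lit 704) (nat_lit 4398046511104) (.ev (nat_lit 717) (nat_lit 67108864) .dd))))) (.ch (nat_lit 20) (.ev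
 (nat_lit 624) (nat_lit 173997786399232) (.ev (nat_lit 676) (nat_lit 281474976710656) (.ev (nat_lit 685)
 (nat_lit 137438953472) .dd)))))) (.br (nat_lit 28) (.br (nat_lit 26) (.ch (nat_lit 23) (.ev (nat_lit 624)
 (nat_lit 446676598784512) (.ev (nat_lit 676) (nat_lit 4194304) (.ev (nat_lit 788) (nat_lit 8796093022208) (.ev
 (nat_lit 864) (nat_lit 137506062336) .dd))))) (.ch (nat_lit 26) (.ev (nat_lit 624) (nat_lit 173997786398720)
 (.ev (nat_lit 640) (nat_lit 512) (.ev (nat_lit 900) (nat_lit 281474976710656) (.ev (nat_lit 909) (nat_lit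
 137438953472) .dd)))))) (.br (nat_lit 29) (.ch (nat_lit 28) (.ev (nat_lit 624) (nat_lit 446539164024832) (.ev
 (nat_lit 676) (nat_lit 274877906944) (.ev (nat_lit 964) (nat_lit 512) (.ev (nat_lit 1012) (nat_lit 67108864)
 (.ev (nat_lit 1021) (nat_lit 8796093022208) .dd)))))) (.ch (nat_lit 29) (.ev (nat_lit 624) (nat_lit
 455335324155904) (.ev (nat_lit 676) (nat_lit 512) (.ev (nat_lit 685) (nat_lit 274877906944) .dd))))))))))))))
 (.br (nat_lit 11) (.br (nat_lit 9) (.ch (nat_lit 5) (.ev (nat_lit 52) (nat_lit 159706819594752) (.ev (nat_lit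
 84) (nat_lit 1130297953353728) (.ev (nat_lit 180) (nat_lit 2199023255552) (.ev (nat_lit 528) (nat_lit
 562949953421312) (.nd (nat_lit 608) (.br (nat_lit 21) (.br (nat_lit 11) (.ch (nat_lit 1) (.ev (nat_lit 624)
 (nat_lit 4785212043034624) (.ev (nat_lit 676) (nat_lit 16777216) (.ev (nat_lit 685) (nat_lit 8796093022208)
 .dd)))) (.br (nat_lit 13) (.ch (nat_lit 11) (.ev (nat_lit 624) (nat_lit 4794008152834048) .dd)) (.ch (nat_lit
 13) (.ev (nat_lit 624) (nat_lit 4793870713880576) (.ev (nat_lit 637) (nat_lit 137438953472) .dd))))) (.br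
 (nat_lit 25) (.br (nat_lit 23) (.ch (nat_lit 21) (.ev (nat_lit 624) (nat_lit 4512533176123392) (.ev (nat_lit
 637) (nat_lit 281474976710656) .dd))) (.ch (nat_lit 23) (.ev (nat_lit 624) (nat_lit 281612415664128) (.ev
 (nat_lit 676) (nat_lit 4503599644147712) (.ev (nat_lit 685) (nat_lit 8796093022208) .dd))))) (.br (nat_lit 26)
 (.ch (nat_lit 25) (.ev (nat_lit 624) (nat_lit 4785212043034624) (.ev (nat_lit 676) (nat_lit 16777216) (.ev
 (nat_lit 685) (nat_lit 8796093022208) .dd)))) (.ch (nat_lit 26) (.ev (nat_lit 624) (nat_lit 8933548752896)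
 (.ev (nat_lit 752) (nat_lit 281474976710656) (.ev (nat_lit 765) (nat_lit 4503599627370496) .dd)))))))))))))
 (.ch (nat_lit 9) (.ev (nat_lit 52) (nat_lit 709597337750016) (.ev (nat_lit 84) (nat_lit 2201774718976) (.ev
 (nat_lit 148) (nat_lit 290271069732864) (.nd (nat_lit 608) (.br (nat_lit 15) (.br (nat_lit 7) (.br (nat_lit 1)
 (.ch (nat_lit 0) (.ev (nat_lit 624) (nat_lit 4521191813414912) (.ev (nat_lit 637) (nat_lit 1125899906842624)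
 .dd))) (.br (nat_lit 4) (.ch (nat_lit 1) (.ev (nat_lit 624) (nat_lit 5647091720257536) .dd)) (.ch (nat_lit 4)
 (.ev (nat_lit 624) (nat_lit 4521191813414912) (.ev (nat_lit 637) (nat_lit 1125899906842624) .dd))))) (.br
 (nat_lit 8) (.ch (nat_lit 7) (.ev (nat_lit 624) (nat_lit 1125899906842624) (.fin (nat_lit
 576544864991658538)))) (.br (nat_lit 13) (.ch (nat_lit 8) (.ev (nat_lit 624) (nat_lit 1125899906842624) (.ev
 (nat_lit 688) (nat_lit 4503599627370496) (.ev (nat_lit 701) (nat_lit 17592186044416) .dd)))) (.ch (nat_lit 13)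
 (.ev (nat_lit 624) (nat_lit 1143492092887040) (.ev (nat_lit 637) (nat_lit 4503599627370496) .dd)))))) (.br
 (nat_lit 21) (.br (nat_lit 18) (.ch (nat_lit 15) (.ev (nat_lit 624) (nat_lit 5647091720257536) .dd)) (.br
 (nat_lit 20) (.ch (nat_lit 18) (.ev (nat_lit 624) (nat_lit 4521191813414912) (.ev (nat_lit 637) (nat_lit
 1125899906842624) .dd))) (.ch (nat_lit 20) (.ev (nat_lit 624) (nat_lit 4521191813414912) (.ev (nat_lit 637)
 (nat_lit 1125899906842624) .dd))))) (.br (nat_lit 26) (.br (nat_lit 25) (.ch (nat_lit 21) (.ev (nat_lit 624)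
 (nat_lit 5629499534213120) (.ev (nat_lit 637) (nat_lit 17592186044416) .dd))) (.ch (nat_lit 25) (.ev (nat_lit
 624) (nat_lit 4521191813414912) (.ev (nat_lit 637) (nat_lit 1125899906842624) .dd)))) (.br (nat_lit 29) (.ch
 (nat_lit 26) (.ev (nat_lit 676) (nat_lit 17592186044416) (.ev (nat_lit 788) (nat_lit 1125899906842624) (.ev
 (nat_lit 797) (nat_lit 4503599627370496) .dd)))) (.ch (nat_lit 29) (.ev (nat_lit 624) (nat_lit
 4521191813414912) (.ev (nat_lit 637) (nat_lit 1125899906842624) .dd))))))))))))) (.br (nat_lit 12) (.ch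
 (nat_lit 11) (.ev (nat_lit 52) (nat_lit 5097748764295680) (.ev (nat_lit 84) (nat_lit 1266637479084032) (.ev
 (nat_lit 116) (nat_lit 281474976710656) (.ev (nat_lit 244) (nat_lit 2048) (.nd (nat_lit 608) (.br (nat_lit 15)
 (.br (nat_lit 8) (.br (nat_lit 4) (.ch (nat_lit 1) (.ev (nat_lit 624) (nat_lit 3300682366976) .dd)) (.br
 (nat_lit 7) (.ch (nat_lit 4) (.ev (nat_lit 624) (nat_lit 2199023255552) (.fin (nat_lit 576566855213728378))))
 (.ch (nat_lit 7) (.ev (nat_lit 624) (nat_lit 3298534883328) (.ev (nat_lit 637) (nat_lit 2147483648) .dd)))))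
 (.br (nat_lit 11) (.ch (nat_lit 8) (.ev (nat_lit 624) (nat_lit 3300682366976) .dd)) (.br (nat_lit 13) (.ch
 (nat_lit 11) (.ev (nat_lit 624) (nat_lit 2201170739200) (.ev (nat_lit 637) (nat_lit 1099511627776) .dd))) (.ch
 (nat_lit 13) (.ev (nat_lit 624) (nat_lit 1101659111424) (.ev (nat_lit 637) (nat_lit 2199023255552) .dd))))))
 (.br (nat_lit 20) (.br (nat_lit 16) (.ch (nat_lit 15) (.ev (nat_lit 624) (nat_lit 1101659111424) (.ev (nat_lit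
 637) (nat_lit 2199023255552) .dd))) (.br (nat_lit 18) (.ch (nat_lit 16) (.ev (nat_lit 624) (nat_lit
 1101659111424) (.ev (nat_lit 637) (nat_lit 2199023255552) .dd))) (.ch (nat_lit 18) (.ev (nat_lit 624) (nat_lit
 1101659111424) (.ev (nat_lit 637) (nat_lit 2199023255552) .dd))))) (.br (nat_lit 26) (.br (nat_lit 25) (.ch
 (nat_lit 20) (.ev (nat_lit 624) (nat_lit 2199023255552) (.ev (nat_lit 688) (nat_lit 2147483648) (.ev (nat_lit
 701) (nat_lit 1099511627776) .dd)))) (.ch (nat_lit 25) (.ev (nat_lit 624) (nat_lit 1101659111424) (.ev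
 (nat_lit 637) (nat_lit 2199023255552) .dd)))) (.br (nat_lit 29) (.ch (nat_lit 26) (.ev (nat_lit 624) (nat_lit
 1101659111424) (.ev (nat_lit 637) (nat_lit 2199023255552) .dd))) (.ch (nat_lit 29) (.ev (nat_lit 676) (nat_lit
 1099511627776) (.ev (nat_lit 788) (nat_lit 2147483648) (.ev (nat_lit 797) (nat_lit 2199023255552)
 .dd)))))))))))))) (.ch (nat_lit 12) (.ev (nat_lit 52) (nat_lit 6192586993696768) (.ev (nat_lit 84) (nat_lit
 277025390592) (.ev (nat_lit 116) (nat_lit 4398046511616) (.ev (nat_lit 212) (nat_lit 2199023255552) (.ev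
 (nat_lit 276) (nat_lit 8796113993728) (.nd (nat_lit 608) (.br (nat_lit 11) (.br (nat_lit 7) (.br (nat_lit 1)
 (.ch (nat_lit 0) (.ev (nat_lit 624) (nat_lit 439805187981312) (.ev (nat_lit 676) (nat_lit 1099511627776) (.ev
 (nat_lit 685) (nat_lit 2048) .dd)))) (.br (nat_lit 4) (.ch (nat_lit 1) (.ev (nat_lit 624) (nat_lit
 18691697672192) (.ev (nat_lit 676) (nat_lit 281474976712704) (.ev (nat_lit 788) (nat_lit 536870912) (.ev
 (nat_lit 797) (nat_lit 140737488355328) .dd))))) (.ch (nat_lit 4) (.ev (nat_lit 624) (nat_lit 158330211272704)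
 (.fin (nat_lit 576474496213926468)))))) (.br (nat_lit 8) (.ch (nat_lit 7) (.ev (nat_lit 624) (nat_lit
 300167211255808) (.ev (nat_lit 637) (nat_lit 140737488355328) .dd))) (.br (nat_lit 9) (.ch (nat_lit 8) (.ev
 (nat_lit 624) (nat_lit 282574488340480) (.ev (nat_lit 704) (nat_lit 536870912) (.ev (nat_lit 788) (nat_lit
 17592186044416) (.ev (nat_lit 797) (nat_lit 140737488355328) .dd))))) (.ch (nat_lit 9) (.ev (nat_lit 624)
 (nat_lit 440904699609088) (.ev (nat_lit 637) (nat_lit 2048) .dd)))))) (.br (nat_lit 20) (.br (nat_lit 13) (.ch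
 (nat_lit 11) (.ev (nat_lit 624) (nat_lit 440904162738176) (.ev (nat_lit 832) (nat_lit 536870912) (.ev (nat_lit
 845) (nat_lit 2048) .dd)))) (.br (nat_lit 19) (.ch (nat_lit 13) (.ev (nat_lit 624) (nat_lit 300167211255808)
 (.ev (nat_lit 637) (nat_lit 140737488355328) .dd))) (.ch (nat_lit 19) (.ev (nat_lit 624) (nat_lit
 440904699609088) (.ev (nat_lit 637) (nat_lit 2048) .dd))))) (.br (nat_lit 26) (.br (nat_lit 25) (.ch (nat_lit
 20) (.ev (nat_lit 624) (nat_lit 159429722900480) (.ev (nat_lit 637) (nat_lit 281474976710656) .dd))) (.ch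
 (nat_lit 25) (.ev (nat_lit 624) (nat_lit 423312513566720) (.ev (nat_lit 637) (nat_lit 17592186044416) .dd))))
 (.br (nat_lit 28) (.ch (nat_lit 26) (.ev (nat_lit 624) (nat_lit 440904699609088) (.ev (nat_lit 637) (nat_lit
 2048) .dd))) (.ch (nat_lit 28) (.ev (nat_lit 624) (nat_lit 439805187981312) (.ev (nat_lit 676) (nat_lit
 1099511627776) (.ev (nat_lit 685) (nat_lit 2048) .dd)))))))))))))))))) (.br (nat_lit 19) (.br (nat_lit 16)
 (.br (nat_lit 15) (.ch (nat_lit 14) (.ev (nat_lit 52) (nat_lit 4794145646313984) (.ev (nat_lit 84) (nat_lit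
 1829587348619264) (.ev (nat_lit 116) (nat_lit 2048) (.ev (nat_lit 148) (nat_lit 18691697672192) (.nd (nat_lit
 608) (.br (nat_lit 18) (.br (nat_lit 9) (.br (nat_lit 4) (.ch (nat_lit 0) (.ev (nat_lit 624) (nat_lit
 2339163340800) (.ev (nat_lit 637) (nat_lit 4398046511104) .dd))) (.ch (nat_lit 4) (.ev (nat_lit 624) (nat_lit
 6597623414784) (.ev (nat_lit 676) (nat_lit 137438953472) (.ev (nat_lit 685) (nat_lit 2147483648) .dd))))) (.br
 (nat_lit 11) (.ch (nat_lit 9) (.ev (nat_lit 624) (nat_lit 140140085248) (.ev (nat_lit 676) (nat_lit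
 4398046511104) (.ev (nat_lit 685) (nat_lit 2199023255552) .dd)))) (.br (nat_lit 15) (.ch (nat_lit 11) (.ev
 (nat_lit 624) (nat_lit 4400193994752) (.ev (nat_lit 676) (nat_lit 2199023255552) (.ev (nat_lit 900) (nat_lit
 137455730688) (.ev (nat_lit 909) (nat_lit 536870912) .dd))))) (.ch (nat_lit 15) (.ev (nat_lit 624) (nat_lit
 2339146563584) (.ev (nat_lit 676) (nat_lit 16777216) (.ev (nat_lit 685) (nat_lit 4398046511104) .dd)))))))
 (.br (nat_lit 25) (.br (nat_lit 21) (.ch (nat_lit 18) (.ev (nat_lit 624) (nat_lit 6737209851904) .dd)) (.br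
 (nat_lit 23) (.ch (nat_lit 21) (.ev (nat_lit 624) (nat_lit 2339163340800) (.ev (nat_lit 637) (nat_lit
 4398046511104) .dd))) (.ch (nat_lit 23) (.ev (nat_lit 624) (nat_lit 6597069766656) (.ev (nat_lit 640) (nat_lit
 137455730688) (.ev (nat_lit 788) (nat_lit 536870912) (.ev (nat_lit 797) (nat_lit 2147483648) .dd))))))) (.br
 (nat_lit 26) (.ch (nat_lit 25) (.ev (nat_lit 624) (nat_lit 140123308032) (.ev (nat_lit 656) (nat_lit
 4398046511104) (.ev (nat_lit 800) (nat_lit 16777216) (.ev (nat_lit 813) (nat_lit 2199023255552) .dd))))) (.br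
 (nat_lit 28) (.ch (nat_lit 26) (.ev (nat_lit 624) (nat_lit 6599770898432) (.ev (nat_lit 637) (nat_lit
 137438953472) .dd))) (.ch (nat_lit 28) (.ev (nat_lit 624) (nat_lit 6737193074688) (.ev (nat_lit 637) (nat_lit
 16777216) .dd))))))))))))) (.ch (nat_lit 15) (.ev (nat_lit 52) (nat_lit 281614584119296) (.ev (nat_lit 64)
 (nat_lit 6367547318340096) .dd)))) (.br (nat_lit 18) (.ch (nat_lit 16) (.ev (nat_lit 52) (nat_lit
 4507038356865024) (.ev (nat_lit 84) (nat_lit 141012366264320) (.ev (nat_lit 116) (nat_lit 26388279066624) (.ev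
 (nat_lit 148) (nat_lit 16777216) (.ev (nat_lit 576) (nat_lit 512) (.nd (nat_lit 608) (.br (nat_lit 11) (.br
 (nat_lit 8) (.br (nat_lit 4) (.ch (nat_lit 0) (.ev (nat_lit 624) (nat_lit 1407374883553280) (.ev (nat_lit 676)
 (nat_lit 4398046511104) (.ev (nat_lit 685) (nat_lit 562949953421312) .dd)))) (.ch (nat_lit 4) (.ev (nat_lit
 624) (nat_lit 1974722883485696) .dd))) (.br (nat_lit 9) (.ch (nat_lit 8) (.ev (nat_lit 624) (nat_lit
 1693247906775040) (.ev (nat_lit 637) (nat_lit 281474976710656) .dd))) (.ch (nat_lit 9) (.ev (nat_lit 624)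
 (nat_lit 1970324836974592) (.ev (nat_lit 637) (nat_lit 4398046511104) .dd))))) (.br (nat_lit 19) (.br (nat_lit
 16) (.ch (nat_lit 11) (.ev (nat_lit 624) (nat_lit 285873023221760) (.fin (nat_lit 576485491348030027)))) (.ch
 (nat_lit 16) (.ev (nat_lit 624) (nat_lit 1974722883485696) .dd))) (.br (nat_lit 20) (.ch (nat_lit 19) (.ev
 (nat_lit 624) (nat_lit 1970324836974592) (.ev (nat_lit 637) (nat_lit 4398046511104) .dd))) (.br (nat_lit 28)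
 (.ch (nat_lit 20) (.ev (nat_lit 624) (nat_lit 567347999932416) (.ev (nat_lit 704) (nat_lit 1125899906842624)
 (.ev (nat_lit 717) (nat_lit 281474976710656) .dd)))) (.ch (nat_lit 28) (.ev (nat_lit 624) (nat_lit
 848822976643072) (.ev (nat_lit 637) (nat_lit 1125899906842624) .dd)))))))))))))) (.ch (nat_lit 18) (.ev
 (nat_lit 52) (nat_lit 722381307904000) (.ev (nat_lit 84) (nat_lit 274945015808) (.ev (nat_lit 128) (nat_lit
 5926505649539584) .dd)))))) (.br (nat_lit 21) (.br (nat_lit 20) (.ch (nat_lit 19) (.ev (nat_lit 52) (nat_lit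
 988735852251136) (.ev (nat_lit 84) (nat_lit 2147483648) (.ev (nat_lit 128) (nat_lit 5660423902724608) .dd))))
 (.ch (nat_lit 20) (.ev (nat_lit 52) (nat_lit 4504974016905216) (.ev (nat_lit 64) (nat_lit 2144187885554176)
 .dd)))) (.br (nat_lit 22) (.ch (nat_lit 21) (.ev (nat_lit 52) (nat_lit 1711114987505664) (.ev (nat_lit 96)
 (nat_lit 4938046914953728) .dd))) (.ch (nat_lit 22) (.ev (nat_lit 52) (nat_lit 1155588935385088) (.ev (nat_lit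
 84) (nat_lit 512) (.ev (nat_lit 116) (nat_lit 141012370456576) (.ev (nat_lit 148) (nat_lit 137438953472) (.ev
 (nat_lit 180) (nat_lit 281474976710656) (.ev (nat_lit 244) (nat_lit 16777216) (.nd (nat_lit 608) (.br (nat_lit
 18) (.br (nat_lit 15) (.br (nat_lit 13) (.ch (nat_lit 9) (.ev (nat_lit 624) (nat_lit 5066550117664768) (.ev
 (nat_lit 637) (nat_lit 4398046511104) .dd))) (.ch (nat_lit 13) (.ev (nat_lit 624) (nat_lit 567347999934464)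
 (.ev (nat_lit 688) (nat_lit 536870912) (.ev (nat_lit 701) (nat_lit 4503599627370496) .dd))))) (.br (nat_lit
 16) (.ch (nat_lit 15) (.ev (nat_lit 624) (nat_lit 5066550117662720) (.ev (nat_lit 900) (nat_lit 2048) (.ev
 (nat_lit 909) (nat_lit 4398046511104) .dd)))) (.ch (nat_lit 16) (.ev (nat_lit 624) (nat_lit 5070948164173824)
 (.ev (nat_lit 637) (nat_lit 2048) .dd))))) (.br (nat_lit 23) (.br (nat_lit 20) (.ch (nat_lit 18) (.ev (nat_lit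
 624) (nat_lit 4507998210754560) (.ev (nat_lit 637) (nat_lit 562949953421312) .dd))) (.ch (nat_lit 20) (.ev
 (nat_lit 624) (nat_lit 567348536805376) (.ev (nat_lit 637) (nat_lit 4503599627370496) .dd)))) (.br (nat_lit
 25) (.ch (nat_lit 23) (.ev (nat_lit 624) (nat_lit 567348536805376) (.ev (nat_lit 637) (nat_lit
 4503599627370496) .dd))) (.br (nat_lit 28) (.ch (nat_lit 25) (.ev (nat_lit 624) (nat_lit 4507998210752512)
 (.ev (nat_lit 788) (nat_lit 2048) (.ev (nat_lit 797) (nat_lit 562949953421312) .dd)))) (.ch (nat_lit 28) (.ev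
 (nat_lit 624) (nat_lit 5070948164175872) .dd)))))))))))))))))) (.br (nat_lit 33) (.br (nat_lit 28) (.br
 (nat_lit 26) (.ch (nat_lit 25) (.ev (nat_lit 52) (nat_lit 873425157488640) (.ev (nat_lit 84) (nat_lit
 4503599627370496) (.ev (nat_lit 180) (nat_lit 512) (.nd (nat_lit 608) (.br (nat_lit 18) (.br (nat_lit 9) (.br
 (nat_lit 7) (.ch (nat_lit 0) (.ev (nat_lit 624) (nat_lit 145135551643648) (.ev (nat_lit 676) (nat_lit
 1099511629824) (.ev (nat_lit 1108) (nat_lit 2147483648) (.ev (nat_lit 1117) (nat_lit 1125899906842624)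
 .dd))))) (.br (nat_lit 8) (.ch (nat_lit 7) (.ev (nat_lit 624) (nat_lit 1131399612465152) (.ev (nat_lit 676)
 (nat_lit 16779264) (.ev (nat_lit 685) (nat_lit 140737488355328) .dd)))) (.ch (nat_lit 8) (.ev (nat_lit 624)
 (nat_lit 1130300117616640) (.ev (nat_lit 1108) (nat_lit 1099511627776) (.ev (nat_lit 1117) (nat_lit
 140737488355328) .dd)))))) (.br (nat_lit 13) (.ch (nat_lit 9) (.ev (nat_lit 624) (nat_lit 1272137117597696)
 (.ev (nat_lit 637) (nat_lit 2048) .dd))) (.br (nat_lit 15) (.ch (nat_lit 13) (.ev (nat_lit 624) (nat_lit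
 1131399629244416) (.ev (nat_lit 637) (nat_lit 140737488355328) .dd))) (.ch (nat_lit 15) (.ev (nat_lit 624)
 (nat_lit 4400193994752) (.ev (nat_lit 676) (nat_lit 1099511629824) (.ev (nat_lit 688) (nat_lit
 1125899906842624) (.ev (nat_lit 788) (nat_lit 16777216) (.ev (nat_lit 797) (nat_lit 140737488355328)
 .dd))))))))) (.br (nat_lit 23) (.br (nat_lit 19) (.ch (nat_lit 18) (.ev (nat_lit 624) (nat_lit
 141839164246016) (.ev (nat_lit 676) (nat_lit 4398046511104) (.ev (nat_lit 685) (nat_lit 1125899906842624)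
 .dd)))) (.br (nat_lit 20) (.ch (nat_lit 19) (.ev (nat_lit 624) (nat_lit 141837016762368) (.ev (nat_lit 800)
 (nat_lit 1125899906842624) (.ev (nat_lit 816) (nat_lit 2147483648) (.ev (nat_lit 829) (nat_lit 4398046511104)
 .dd))))) (.ch (nat_lit 20) (.ev (nat_lit 624) (nat_lit 1272134970116096) (.ev (nat_lit 637) (nat_lit
 2147483648) .dd))))) (.br (nat_lit 28) (.br (nat_lit 26) (.ch (nat_lit 23) (.ev (nat_lit 624) (nat_lit
 1272134970116096) (.ev (nat_lit 637) (nat_lit 2147483648) .dd))) (.ch (nat_lit 26) (.ev (nat_lit 624) (nat_lit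
 145137699127296) (.ev (nat_lit 676) (nat_lit 2048) (.ev (nat_lit 1302) (nat_lit 1126999418470400) .dd)))))
 (.br (nat_lit 29) (.ch (nat_lit 28) (.ev (nat_lit 624) (nat_lit 146237193977856) (.ev (nat_lit 676) (nat_lit
 1125899923619840) (.ev (nat_lit 685) (nat_lit 2048) .dd)))) (.ch (nat_lit 29) (.ev (nat_lit 624) (nat_lit
 5497574916096) (.ev (nat_lit 676) (nat_lit 1125899906844672) (.ev (nat_lit 1056) (nat_lit 140737488355328)
 (.ev (nat_lit 1069) (nat_lit 2147483648) .dd)))))))))))))) (.br (nat_lit 27) (.ch (nat_lit 26) (.ev (nat_lit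
 52) (nat_lit 6348855553556480) (.ev (nat_lit 84) (nat_lit 2214592512) (.ev (nat_lit 160) (nat_lit
 300304134310400) .dd)))) (.ch (nat_lit 27) (.ev (nat_lit 52) (nat_lit 288484984094720) (.ev (nat_lit 84)
 (nat_lit 5084141766836224) (.ev (nat_lit 148) (nat_lit 512) (.ev (nat_lit 192) (nat_lit 1276535151527936)
 .dd))))))) (.br (nat_lit 31) (.br (nat_lit 29) (.ch (nat_lit 28) (.ev (nat_lit 52) (nat_lit 6051851585718272)
 (.ev (nat_lit 84) (nat_lit 4398113619968) (.ev (nat_lit 116) (nat_lit 17867600822272) (.ev (nat_lit 180)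
 (nat_lit 8796093022208) (.ev (nat_lit 212) (nat_lit 2199023255552) (.ev (nat_lit 224) (nat_lit
 564049486021120) .dd))))))) (.ch (nat_lit 29) (.ev (nat_lit 52) (nat_lit 5638710699755520) (.ev (nat_lit 84)
 (nat_lit 703687441776640) (.ev (nat_lit 148) (nat_lit 281474993487872) (.ev (nat_lit 256) (nat_lit
 25288767439360) .dd)))))) (.br (nat_lit 32) (.ch (nat_lit 31) (.ev (nat_lit 52) (nat_lit 282714162856448) (.ev
 (nat_lit 84) (nat_lit 142936511610880) (.ev (nat_lit 244) (nat_lit 8796093024256) (.nd (nat_lit 608) (.br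
 (nat_lit 13) (.br (nat_lit 8) (.br (nat_lit 7) (.ch (nat_lit 4) (.ev (nat_lit 624) (nat_lit 5084417181614080)
 (.ev (nat_lit 640) (nat_lit 1130297953353728) .dd))) (.ch (nat_lit 7) (.ev (nat_lit 624) (nat_lit
 6192450024505344) (.ev (nat_lit 688) (nat_lit 17592186044416) (.ev (nat_lit 912) (nat_lit 4398046511104) (.ev
 (nat_lit 925) (nat_lit 274877906944) .dd)))))) (.br (nat_lit 9) (.ch (nat_lit 8) (.ev (nat_lit 624) (nat_lit
 1130572831260672) (.ev (nat_lit 676) (nat_lit 562949953421312) (.ev (nat_lit 736) (nat_lit 17592186044416)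
 (.ev (nat_lit 900) (nat_lit 536870912) (.ev (nat_lit 909) (nat_lit 4503599627370496) .dd)))))) (.br (nat_lit
 11) (.ch (nat_lit 9) (.ev (nat_lit 624) (nat_lit 6210317088456704) (.ev (nat_lit 637) (nat_lit 4398046511104)
 .dd))) (.ch (nat_lit 11) (.ev (nat_lit 624) (nat_lit 4521191813414912) (.ev (nat_lit 676) (nat_lit
 275414777856) (.ev (nat_lit 900) (nat_lit 4398046511104) (.nd (nat_lit 1392) (.br (nat_lit 24) (.ch (nat_lit
 18) (.fin (nat_lit 576437112773493301))) (.ch (nat_lit 24) (.ev (nat_lit 1408) (nat_lit 1688849860263936)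
 .dd))))))))))) (.br (nat_lit 21) (.br (nat_lit 15) (.ch (nat_lit 13) (.ev (nat_lit 624) (nat_lit
 6214715134967808) .dd)) (.br (nat_lit 20) (.ch (nat_lit 15) (.ev (nat_lit 624) (nat_lit 5088815228125184) (.ev
 (nat_lit 637) (nat_lit 1125899906842624) .dd))) (.ch (nat_lit 20) (.ev (nat_lit 624) (nat_lit
 6214714598096896) (.ev (nat_lit 637) (nat_lit 536870912) .dd))))) (.br (nat_lit 25) (.ch (nat_lit 21) (.ev
 (nat_lit 624) (nat_lit 6197122948923392) (.ev (nat_lit 637) (nat_lit 17592186044416) .dd))) (.br (nat_lit 26)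
 (.ch (nat_lit 25) (.ev (nat_lit 624) (nat_lit 6192724902412288) (.ev (nat_lit 676) (nat_lit 4398046511104)
 (.ev (nat_lit 685) (nat_lit 17592186044416) .dd)))) (.ch (nat_lit 26) (.ev (nat_lit 624) (nat_lit
 1693248443645952) (.ev (nat_lit 656) (nat_lit 4503599627370496) (.ev (nat_lit 676) (nat_lit 17592186044416)
 (.ev (nat_lit 685) (nat_lit 274877906944) .dd)))))))))))))) (.ch (nat_lit 32) (.ev (nat_lit 52) (nat_lit
 4511298897313792) (.ev (nat_lit 84) (nat_lit 703962319683584) (.ev (nat_lit 116) (nat_lit 8796160131072) (.ev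
 (nat_lit 180) (nat_lit 17592186044416) (.ev (nat_lit 244) (nat_lit 512) (.nd (nat_lit 608) (.br (nat_lit 18)
 (.br (nat_lit 9) (.br (nat_lit 4) (.ch (nat_lit 0) (.ev (nat_lit 624) (nat_lit 281612432443392) (.ev (nat_lit
 637) (nat_lit 1125899906842624) .dd))) (.ch (nat_lit 4) (.ev (nat_lit 624) (nat_lit 1126037362575360) (.ev
 (nat_lit 637) (nat_lit 281474976710656) .dd)))) (.br (nat_lit 15) (.ch (nat_lit 9) (.ev (nat_lit 624) (nat_lit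
 1407512339286016) .dd)) (.ch (nat_lit 15) (.ev (nat_lit 624) (nat_lit 281612415666176) (.ev (nat_lit 788)
 (nat_lit 16777216) (.ev (nat_lit 797) (nat_lit 1125899906842624) .dd)))))) (.br (nat_lit 20) (.br (nat_lit 19)
 (.ch (nat_lit 18) (.ev (nat_lit 624) (nat_lit 281612432443392) (.ev (nat_lit 637) (nat_lit 1125899906842624)
 .dd))) (.ch (nat_lit 19) (.ev (nat_lit 624) (nat_lit 1407512339283968) (.ev (nat_lit 637) (nat_lit 2048)
 .dd)))) (.br (nat_lit 21) (.ch (nat_lit 20) (.ev (nat_lit 624) (nat_lit 1407374900332544) (.ev (nat_lit 637)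
 (nat_lit 137438953472) .dd))) (.br (nat_lit 29) (.ch (nat_lit 21) (.ev (nat_lit 624) (nat_lit
 1126037362575360) (.ev (nat_lit 637) (nat_lit 281474976710656) .dd))) (.ch (nat_lit 29) (.ev (nat_lit 624)
 (nat_lit 1407512339286016) .dd)))))))))))))))) (.br (nat_lit 42) (.br (nat_lit 36) (.br (nat_lit 35) (.ch
 (nat_lit 33) (.ev (nat_lit 52) (nat_lit 17869832192000) (.ev (nat_lit 84) (nat_lit 4648735162236928) (.ev
 (nat_lit 116) (nat_lit 1127136857423872) (.ev (nat_lit 148) (nat_lit 8796093022208) (.ev (nat_lit 180)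
 (nat_lit 281474976710656) (.ev (nat_lit 212) (nat_lit 2048) (.nd (nat_lit 608) (.br (nat_lit 18) (.br (nat_lit
 8) (.br (nat_lit 1) (.ch (nat_lit 0) (.ev (nat_lit 624) (nat_lit 562949953421312) (.ev (nat_lit 676) (nat_lit
 2199027449856) (.ev (nat_lit 685) (nat_lit 512) .dd)))) (.br (nat_lit 4) (.ch (nat_lit 1) (.ev (nat_lit 624)
 (nat_lit 565148980871680) .dd)) (.ch (nat_lit 4) (.ev (nat_lit 624) (nat_lit 562949957616128) (.ev (nat_lit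
 637) (nat_lit 2199023255552) .dd))))) (.br (nat_lit 15) (.ch (nat_lit 8) (.ev (nat_lit 624) (nat_lit
 565148980871680) .dd)) (.br (nat_lit 16) (.ch (nat_lit 15) (.ev (nat_lit 624) (nat_lit 565148976676864) (.ev
 (nat_lit 800) (nat_lit 512) (.ev (nat_lit 813) (nat_lit 4194304) .dd)))) (.ch (nat_lit 16) (.ev (nat_lit 624)
 (nat_lit 562949957616128) (.ev (nat_lit 637) (nat_lit 2199023255552) .dd)))))) (.br (nat_lit 21) (.br (nat_lit
 19) (.ch (nat_lit 18) (.ev (nat_lit 624) (nat_lit 562949957615616) (.ev (nat_lit 788) (nat_lit 512) (.ev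
 (nat_lit 797) (nat_lit 2199023255552) .dd)))) (.br (nat_lit 20) (.ch (nat_lit 19) (.ev (nat_lit 624) (nat_lit
 4194304) (.ev (nat_lit 688) (nat_lit 512) (.ev (nat_lit 900) (nat_lit 2199023255552) (.ev (nat_lit 909)
 (nat_lit 562949953421312) .dd))))) (.ch (nat_lit 20) (.ev (nat_lit 624) (nat_lit 2199027450368) (.ev (nat_lit
 637) (nat_lit 562949953421312) .dd))))) (.br (nat_lit 28) (.br (nat_lit 26) (.ch (nat_lit 21) (.ev (nat_lit
 624) (nat_lit 565148980871680) .dd)) (.ch (nat_lit 26) (.ev (nat_lit 624) (nat_lit 4194304) (.ev (nat_lit 676)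
 (nat_lit 2199023255552) (.ev (nat_lit 1264) (nat_lit 562949953421824) .dd))))) (.br (nat_lit 29) (.ch (nat_lit
 28) (.ev (nat_lit 624) (nat_lit 565148980871168) (.ev (nat_lit 637) (nat_lit 512) .dd))) (.ch (nat_lit 29)
 (.ev (nat_lit 688) (nat_lit 2199023255552) (.ev (nat_lit 816) (nat_lit 562949953421312) (.ev (nat_lit 912)
 (nat_lit 4194304) (.ev (nat_lit 925) (nat_lit 512) .dd))))))))))))))))) (.ch (nat_lit 35) (.ev (nat_lit 52)
 (nat_lit 1973623925506560) (.ev (nat_lit 84) (nat_lit 141014513745920) (.ev (nat_lit 148) (nat_lit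
 8933531977728) (.nd (nat_lit 608) (.br (nat_lit 15) (.br (nat_lit 8) (.br (nat_lit 4) (.ch (nat_lit 1) (.ev
 (nat_lit 624) (nat_lit 4525589931229184) .dd)) (.br (nat_lit 7) (.ch (nat_lit 4) (.ev (nat_lit 624) (nat_lit
 4525589931229184) .dd)) (.ch (nat_lit 7) (.ev (nat_lit 624) (nat_lit 21990303858688) (.ev (nat_lit 637)
 (nat_lit 4503599627370496) .dd))))) (.br (nat_lit 11) (.ch (nat_lit 8) (.ev (nat_lit 624) (nat_lit
 21990236749824) (.ev (nat_lit 816) (nat_lit 4503599627370496) (.ev (nat_lit 829) (nat_lit 67108864) .dd))))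
 (.br (nat_lit 13) (.ch (nat_lit 11) (.ev (nat_lit 624) (nat_lit 21990303858688) (.ev (nat_lit 637) (nat_lit
 4503599627370496) .dd))) (.ch (nat_lit 13) (.ev (nat_lit 624) (nat_lit 21990303858688) (.ev (nat_lit 637)
 (nat_lit 4503599627370496) .dd)))))) (.br (nat_lit 19) (.br (nat_lit 16) (.ch (nat_lit 15) (.ev (nat_lit 624)
 (nat_lit 4525589931229184) .dd)) (.br (nat_lit 18) (.ch (nat_lit 16) (.ev (nat_lit 624) (nat_lit
 4521191817609216) (.ev (nat_lit 704) (nat_lit 67108864) (.ev (nat_lit 717) (nat_lit 4398046511104) .dd))))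
 (.ch (nat_lit 18) (.ev (nat_lit 624) (nat_lit 4521191884718080) (.ev (nat_lit 637) (nat_lit 4398046511104)
 .dd))))) (.br (nat_lit 25) (.br (nat_lit 21) (.ch (nat_lit 19) (.ev (nat_lit 624) (nat_lit 4521191817609216)
 (.ev (nat_lit 640) (nat_lit 4398046511104) (.ev (nat_lit 653) (nat_lit 67108864) .dd)))) (.ch (nat_lit 21)
 (.ev (nat_lit 624) (nat_lit 4503599627370496) (.ev (nat_lit 640) (nat_lit 71303168) (.ev (nat_lit 676)
 (nat_lit 17592186044416) (.ev (nat_lit 685) (nat_lit 4398046511104) .dd)))))) (.br (nat_lit 28) (.ch (nat_lit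
 25) (.ev (nat_lit 624) (nat_lit 4503599698673664) (.ev (nat_lit 676) (nat_lit 17592186044416) (.ev (nat_lit
 685) (nat_lit 4398046511104) .dd)))) (.ch (nat_lit 28) (.ev (nat_lit 624) (nat_lit 21990236749824) (.ev
 (nat_lit 900) (nat_lit 4503599627370496) (.ev (nat_lit 909) (nat_lit 67108864) .dd)))))))))))))) (.br (nat_lit
 38) (.ch (nat_lit 36) (.ev (nat_lit 52) (nat_lit 1159986998673920) (.ev (nat_lit 84) (nat_lit 274877906944)
 (.ev (nat_lit 116) (nat_lit 562949953421312) (.ev (nat_lit 148) (nat_lit 536870912) (.ev (nat_lit 276)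
 (nat_lit 2048) (.nd (nat_lit 608) (.br (nat_lit 16) (.br (nat_lit 7) (.br (nat_lit 4) (.ch (nat_lit 1) (.ev
 (nat_lit 624) (nat_lit 4925949535584256) .dd)) (.ch (nat_lit 4) (.ev (nat_lit 624) (nat_lit 4925812092436480)
 (.ev (nat_lit 676) (nat_lit 137438953472) (.ev (nat_lit 685) (nat_lit 4194304) .dd))))) (.br (nat_lit 8) (.ch
 (nat_lit 7) (.ev (nat_lit 624) (nat_lit 4925949535584256) .dd)) (.br (nat_lit 11) (.ch (nat_lit 8) (.ev
 (nat_lit 624) (nat_lit 422349908213760) (.ev (nat_lit 637) (nat_lit 4503599627370496) .dd))) (.ch (nat_lit 11)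
 (.ev (nat_lit 624) (nat_lit 4925812096630784) (.ev (nat_lit 637) (nat_lit 137438953472) .dd)))))) (.br
 (nat_lit 23) (.br (nat_lit 19) (.ch (nat_lit 16) (.ev (nat_lit 624) (nat_lit 4785212047228928) (.ev (nat_lit
 637) (nat_lit 140737488355328) .dd))) (.br (nat_lit 20) (.ch (nat_lit 19) (.ev (nat_lit 624) (nat_lit
 4925949535584256) .dd)) (.ch (nat_lit 20) (.ev (nat_lit 624) (nat_lit 140737492549632) (.ev (nat_lit 676)
 (nat_lit 281612415664128) (.ev (nat_lit 685) (nat_lit 4503599627370496) .dd)))))) (.br (nat_lit 25) (.ch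
 (nat_lit 23) (.ev (nat_lit 624) (nat_lit 4925812096630784) (.ev (nat_lit 637) (nat_lit 137438953472) .dd)))
 (.br (nat_lit 26) (.ch (nat_lit 25) (.ev (nat_lit 624) (nat_lit 281612415664128) (.ev (nat_lit 688) (nat_lit
 140737488355328) (.ev (nat_lit 788) (nat_lit 4503599627370496) (.ev (nat_lit 797) (nat_lit 4194304) .dd)))))
 (.ch (nat_lit 26) (.ev (nat_lit 624) (nat_lit 4644337115725824) (.ev (nat_lit 656) (nat_lit 137438953472) (.ev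
 (nat_lit 944) (nat_lit 281474980904960) .dd))))))))))))))) (.ch (nat_lit 38) (.ev (nat_lit 52) (nat_lit
 6057349680728576) (.ev (nat_lit 148) (nat_lit 17592202821632) (.ev (nat_lit 224) (nat_lit 574220018909184)
 .dd)))))) (.br (nat_lit 45) (.br (nat_lit 44) (.ch (nat_lit 42) (.ev (nat_lit 52) (nat_lit 156270241777664)
 (.ev (nat_lit 84) (nat_lit 1688849927372800) (.ev (nat_lit 148) (nat_lit 1099511628288) (.ev (nat_lit 180)
 (nat_lit 281474993487872) (.ev (nat_lit 244) (nat_lit 536870912) (.nd (nat_lit 608) (.br (nat_lit 21) (.br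
 (nat_lit 16) (.br (nat_lit 11) (.ch (nat_lit 7) (.ev (nat_lit 788) (nat_lit 274877906944) (.fin (nat_lit
 576544864991658538)))) (.ch (nat_lit 11) (.ev (nat_lit 624) (nat_lit 4521466691321856) .dd))) (.br (nat_lit
 18) (.ch (nat_lit 16) (.ev (nat_lit 624) (nat_lit 4521466691321856) .dd)) (.br (nat_lit 19) (.ch (nat_lit 18)
 (.ev (nat_lit 624) (nat_lit 4521466691321856) .dd)) (.ch (nat_lit 19) (.ev (nat_lit 624) (nat_lit
 4521191813414912) (.ev (nat_lit 637) (nat_lit 274877906944) .dd)))))) (.br (nat_lit 26) (.br (nat_lit 23) (.ch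
 (nat_lit 21) (.ev (nat_lit 624) (nat_lit 4503874505277440) (.ev (nat_lit 637) (nat_lit 17592186044416) .dd)))
 (.br (nat_lit 25) (.ch (nat_lit 23) (.ev (nat_lit 624) (nat_lit 17592186044416) (.ev (nat_lit 656) (nat_lit
 4503599627370496) (.ev (nat_lit 669) (nat_lit 274877906944) .dd)))) (.ch (nat_lit 25) (.ev (nat_lit 624)
 (nat_lit 274877906944) (.ev (nat_lit 676) (nat_lit 4503599627370496) (.ev (nat_lit 685) (nat_lit
 17592186044416) .dd)))))) (.br (nat_lit 28) (.ch (nat_lit 26) (.ev (nat_lit 624) (nat_lit 4503874505277440)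
 (.ev (nat_lit 637) (nat_lit 17592186044416) .dd))) (.br (nat_lit 29) (.ch (nat_lit 28) (.ev (nat_lit 624)
 (nat_lit 4521466691321856) .dd)) (.ch (nat_lit 29) (.ev (nat_lit 624) (nat_lit 4521466691321856)
 .dd))))))))))))) (.ch (nat_lit 44) (.ev (nat_lit 52) (nat_lit 6339921556013056) (.ev (nat_lit 84) (nat_lit
 512) (.ev (nat_lit 148) (nat_lit 281474976710656) (.ev (nat_lit 180) (nat_lit 8796093022208) (.nd (nat_lit
 608) (.br (nat_lit 13) (.br (nat_lit 1) (.ch (nat_lit 0) (.ev (nat_lit 624) (nat_lit 17869765085184) (.ev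
 (nat_lit 637) (nat_lit 1099511627776) .dd))) (.br (nat_lit 9) (.ch (nat_lit 1) (.ev (nat_lit 624) (nat_lit
 18967129227264) (.ev (nat_lit 676) (nat_lit 2147483648) (.ev (nat_lit 685) (nat_lit 2048) .dd)))) (.ch
 (nat_lit 9) (.ev (nat_lit 624) (nat_lit 1374926405632) (.ev (nat_lit 720) (nat_lit 2147483648) (.ev (nat_lit
 816) (nat_lit 2048) (.ev (nat_lit 864) (nat_lit 16777216) (.ev (nat_lit 877) (nat_lit 17592186044416)
 .dd)))))))) (.br (nat_lit 26) (.br (nat_lit 16) (.ch (nat_lit 13) (.ev (nat_lit 624) (nat_lit 18968739842048)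
 (.ev (nat_lit 637) (nat_lit 536870912) .dd))) (.ch (nat_lit 16) (.ev (nat_lit 624) (nat_lit 18694398806016)
 (.ev (nat_lit 637) (nat_lit 274877906944) .dd)))) (.br (nat_lit 29) (.ch (nat_lit 26) (.ev (nat_lit 624)
 (nat_lit 18969276712960) .dd)) (.ch (nat_lit 29) (.ev (nat_lit 624) (nat_lit 17867617599488) (.ev (nat_lit
 676) (nat_lit 2048) (.ev (nat_lit 752) (nat_lit 1099511627776) (.ev (nat_lit 765) (nat_lit 2147483648)
 .dd))))))))))))))) (.br (nat_lit 46) (.ch (nat_lit 45) (.ev (nat_lit 52) (nat_lit 6211416600087040) (.ev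
 (nat_lit 84) (nat_lit 4400261103616) (.ev (nat_lit 148) (nat_lit 281612415664128) (.ev (nat_lit 224) (nat_lit
 151732625604608) .dd))))) (.ch (nat_lit 46) (.ev (nat_lit 52) (nat_lit 6078102430024192) (.ev (nat_lit 84)
 (nat_lit 563224831328256) (.ev (nat_lit 116) (nat_lit 16777216) (.ev (nat_lit 192) (nat_lit 7834624329728)
 .dd))))))))))))

/-- Subtrie. -/
noncomputable def T4 : Tr := (.ev (nat_lit 20) (nat_lit 5792717691063296) (.nd (nat_lit 33) (.br (nat_lit 25)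
 (.br (nat_lit 14) (.br (nat_lit 5) (.br (nat_lit 2) (.ch (nat_lit 1) (.ev (nat_lit 52) (nat_lit
 572298033893408) (.ev (nat_lit 84) (nat_lit 2199023255552) (.ev (nat_lit 160) (nat_lit 352943234679376)
 .dd)))) (.br (nat_lit 3) (.ch (nat_lit 2) (.ev (nat_lit 52) (nat_lit 923589851480608) (.ev (nat_lit 244)
 (nat_lit 65536) (.nd (nat_lit 608) (.br (nat_lit 19) (.br (nat_lit 5) (.br (nat_lit 2) (.ch (nat_lit 1) (.ev
 (nat_lit 624) (nat_lit 2748781170768) (.ev (nat_lit 788) (nat_lit 2147483648) (.ev (nat_lit 797) (nat_lit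
 1099511627776) .dd)))) (.ch (nat_lit 2) (.ev (nat_lit 624) (nat_lit 1651417026624) (.ev (nat_lit 676) (nat_lit
 16) (.ev (nat_lit 685) (nat_lit 2199023255552) .dd))))) (.br (nat_lit 15) (.ch (nat_lit 5) (.ev (nat_lit 624)
 (nat_lit 3850440282176) (.ev (nat_lit 637) (nat_lit 16) .dd))) (.ch (nat_lit 15) (.ev (nat_lit 624) (nat_lit
 3848292794368) (.ev (nat_lit 656) (nat_lit 64) (.ev (nat_lit 720) (nat_lit 4096) (.ev (nat_lit 900) (nat_lit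
 16) (.ev (nat_lit 909) (nat_lit 2147483648) .dd)))))))) (.br (nat_lit 21) (.br (nat_lit 20) (.ch (nat_lit 19)
 (.ev (nat_lit 624) (nat_lit 551905398800) (.ev (nat_lit 688) (nat_lit 1099511627776) (.ev (nat_lit 900)
 (nat_lit 2199023255552) (.ev (nat_lit 909) (nat_lit 64) .dd))))) (.ch (nat_lit 20) (.ev (nat_lit 624) (nat_lit
 3300684468304) (.ev (nat_lit 637) (nat_lit 549755813888) .dd)))) (.br (nat_lit 26) (.ch (nat_lit 21) (.ev
 (nat_lit 624) (nat_lit 3850438180944) (.ev (nat_lit 640) (nat_lit 4096) (.ev (nat_lit 653) (nat_lit 2097152)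
 .dd)))) (.br (nat_lit 27) (.ch (nat_lit 26) (.ev (nat_lit 624) (nat_lit 1099511631888) (.ev (nat_lit 676)
 (nat_lit 64) (.ev (nat_lit 900) (nat_lit 2199025352704) (.ev (nat_lit 928) (nat_lit 551903297536) .dd)))))
 (.ch (nat_lit 27) (.ev (nat_lit 624) (nat_lit 3300684468304) (.ev (nat_lit 637) (nat_lit 549755813888)
 .dd))))))))))) (.ch (nat_lit 3) (.ev (nat_lit 52) (nat_lit 564601387290704) (.ev (nat_lit 84) (nat_lit
 283673999966208) (.ev (nat_lit 116) (nat_lit 8796093022208) (.ev (nat_lit 148) (nat_lit 32) (.ev (nat_lit 180)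
 (nat_lit 262144) (.ev (nat_lit 244) (nat_lit 70368744177664) (.nd (nat_lit 608) (.br (nat_lit 13) (.br
 (nat_lit 4) (.br (nat_lit 1) (.ch (nat_lit 0) (.ev (nat_lit 624) (nat_lit 67109376) .dd)) (.br (nat_lit 2)
 (.ch (nat_lit 1) (.ev (nat_lit 624) (nat_lit 67109376) .dd)) (.ch (nat_lit 2) (.ev (nat_lit 1328) (nat_lit
 67109376) .dd)))) (.br (nat_lit 5) (.ch (nat_lit 4) (.ev (nat_lit 624) (nat_lit 67109376) .dd)) (.br (nat_lit
 12) (.ch (nat_lit 5) (.ev (nat_lit 624) (nat_lit 67109376) .dd)) (.ch (nat_lit 12) (.ev (nat_lit 1088)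
 (nat_lit 512) (.ev (nat_lit 1101) (nat_lit 67108864) .dd)))))) (.br (nat_lit 20) (.br (nat_lit 15) (.ch
 (nat_lit 13) (.ev (nat_lit 624) (nat_lit 512) (.ev (nat_lit 637) (nat_lit 67108864) .dd))) (.br (nat_lit 19)
 (.ch (nat_lit 15) (.ev (nat_lit 624) (nat_lit 512) (.ev (nat_lit 637) (nat_lit 67108864) .dd))) (.ch (nat_lit
 19) (.ev (nat_lit 624) (nat_lit 67108864) (.ev (nat_lit 637) (nat_lit 512) .dd))))) (.br (nat_lit 28) (.br
 (nat_lit 24) (.ch (nat_lit 20) (.ev (nat_lit 624) (nat_lit 67108864) (.ev (nat_lit 637) (nat_lit 512) .dd)))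
 (.ch (nat_lit 24) (.ev (nat_lit 624) (nat_lit 67109376) .dd))) (.br (nat_lit 29) (.ch (nat_lit 28) (.ev
 (nat_lit 624) (nat_lit 67109376) .dd)) (.ch (nat_lit 29) (.ev (nat_lit 624) (nat_lit 67108864) (.ev (nat_lit
 637) (nat_lit 512) .dd))))))))))))))))) (.br (nat_lit 11) (.br (nat_lit 9) (.ch (nat_lit 5) (.ev (nat_lit 52)
 (nat_lit 1651484201504) (.ev (nat_lit 116) (nat_lit 562949953421312) (.ev (nat_lit 128) (nat_lit
 362838854205520) .dd)))) (.ch (nat_lit 9) (.ev (nat_lit 52) (nat_lit 634418228363776) (.ev (nat_lit 84)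
 (nat_lit 2199023321088) (.ev (nat_lit 116) (nat_lit 551903297536) (.ev (nat_lit 148) (nat_lit 281474976710656)
 (.ev (nat_lit 276) (nat_lit 67108864) (.nd (nat_lit 608) (.br (nat_lit 12) (.br (nat_lit 2) (.br (nat_lit 1)
 (.ch (nat_lit 0) (.ev (nat_lit 624) (nat_lit 8796093026416) .dd)) (.ch (nat_lit 1) (.ev (nat_lit 624) (nat_lit
 64) (.ev (nat_lit 788) (nat_lit 32) (.ev (nat_lit 864) (nat_lit 8796093022208) (.ev (nat_lit 900) (nat_lit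
 4096) (.ev (nat_lit 909) (nat_lit 16) .dd))))))) (.br (nat_lit 5) (.ch (nat_lit 2) (.ev (nat_lit 624) (nat_lit
 8796093026400) (.ev (nat_lit 637) (nat_lit 16) .dd))) (.br (nat_lit 6) (.ch (nat_lit 5) (.ev (nat_lit 624)
 (nat_lit 8796093026416) .dd)) (.ch (nat_lit 6) (.ev (nat_lit 624) (nat_lit 8796093026416) .dd))))) (.br
 (nat_lit 19) (.br (nat_lit 15) (.ch (nat_lit 12) (.ev (nat_lit 624) (nat_lit 32) (.ev (nat_lit 676) (nat_lit
 64) (.ev (nat_lit 788) (nat_lit 4112) (.ev (nat_lit 797) (nat_lit 8796093022208) .dd))))) (.br (nat_lit 18)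
 (.ch (nat_lit 15) (.ev (nat_lit 624) (nat_lit 8796093026352) (.ev (nat_lit 637) (nat_lit 64) .dd))) (.ch
 (nat_lit 18) (.ev (nat_lit 624) (nat_lit 8796093026400) (.ev (nat_lit 637) (nat_lit 16) .dd))))) (.br (nat_lit
 21) (.ch (nat_lit 19) (.ev (nat_lit 624) (nat_lit 8796093022320) (.ev (nat_lit 637) (nat_lit 4096) .dd))) (.br
 (nat_lit 28) (.ch (nat_lit 21) (.ev (nat_lit 624) (nat_lit 8796093022288) (.ev (nat_lit 900) (nat_lit 32) (.ev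
 (nat_lit 909) (nat_lit 4096) .dd)))) (.ch (nat_lit 28) (.ev (nat_lit 624) (nat_lit 8796093026336) (.ev
 (nat_lit 800) (nat_lit 16) (.ev (nat_lit 813) (nat_lit 64) .dd)))))))))))))))) (.br (nat_lit 12) (.ch (nat_lit
 11) (.ev (nat_lit 52) (nat_lit 571746048868944) (.ev (nat_lit 84) (nat_lit 549755817984) (.ev (nat_lit 148)
 (nat_lit 1099528404992) (.ev (nat_lit 244) (nat_lit 2147483648) (.ev (nat_lit 544) (nat_lit 32) (.nd (nat_lit
 608) (.br (nat_lit 18) (.br (nat_lit 12) (.br (nat_lit 4) (.ch (nat_lit 0) (.ev (nat_lit 624) (nat_lit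
 354042811252736) .dd)) (.ch (nat_lit 4) (.ev (nat_lit 624) (nat_lit 283674067075072) (.ev (nat_lit 637)
 (nat_lit 70368744177664) .dd)))) (.br (nat_lit 13) (.ch (nat_lit 12) (.ev (nat_lit 624) (nat_lit
 70368811286528) (.ev (nat_lit 752) (nat_lit 2199023255552) (.ev (nat_lit 765) (nat_lit 281474976710656)
 .dd)))) (.ch (nat_lit 13) (.ev (nat_lit 624) (nat_lit 354042744143872) (.ev (nat_lit 637) (nat_lit 67108864)
 .dd))))) (.br (nat_lit 25) (.br (nat_lit 21) (.ch (nat_lit 18) (.ev (nat_lit 624) (nat_lit 354042811252736)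
 .dd)) (.ch (nat_lit 21) (.ev (nat_lit 624) (nat_lit 72567767433216) (.ev (nat_lit 676) (nat_lit
 281474976710656) (.ev (nat_lit 685) (nat_lit 67108864) .dd))))) (.br (nat_lit 28) (.ch (nat_lit 25) (.ev
 (nat_lit 624) (nat_lit 283674067075072) (.ev (nat_lit 637) (nat_lit 70368744177664) .dd))) (.br (nat_lit 29)
 (.ch (nat_lit 28) (.ev (nat_lit 624) (nat_lit 354042811252736) .dd)) (.ch (nat_lit 29) (.ev (nat_lit 624)
 (nat_lit 283674067075072) (.ev (nat_lit 637) (nat_lit 70368744177664) .dd)))))))))))))) (.ch (nat_lit 12) (.ev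
 (nat_lit 52) (nat_lit 633318765035536) (.ev (nat_lit 84) (nat_lit 2199023255552) (.ev (nat_lit 116) (nat_lit
 32) (.ev (nat_lit 180) (nat_lit 290271069732864) (.ev (nat_lit 592) (nat_lit 512) (.nd (nat_lit 608) (.br
 (nat_lit 21) (.br (nat_lit 6) (.br (nat_lit 1) (.ch (nat_lit 0) (.ev (nat_lit 624) (nat_lit 1651433803840)
 .dd)) (.ch (nat_lit 1) (.ev (nat_lit 624) (nat_lit 1649269542976) (.ev (nat_lit 688) (nat_lit 16777216) (.ev
 (nat_lit 701) (nat_lit 2147483648) .dd))))) (.br (nat_lit 19) (.ch (nat_lit 6) (.ev (nat_lit 624) (nat_lit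
 1651433803840) .dd)) (.br (nat_lit 20) (.ch (nat_lit 19) (.ev (nat_lit 624) (nat_lit 549772595264) (.ev
 (nat_lit 640) (nat_lit 2147483648) (.ev (nat_lit 656) (nat_lit 1099511627776) (.ev (nat_lit 669) (nat_lit
 2097152) .dd))))) (.ch (nat_lit 20) (.ev (nat_lit 624) (nat_lit 1101677989888) (.ev (nat_lit 900) (nat_lit
 549755813888) (.ev (nat_lit 909) (nat_lit 64) .dd))))))) (.br (nat_lit 26) (.br (nat_lit 24) (.ch (nat_lit 21)
 (.ev (nat_lit 624) (nat_lit 1651431706688) (.ev (nat_lit 637) (nat_lit 2097152) .dd))) (.br (nat_lit 25) (.ch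
 (nat_lit 24) (.ev (nat_lit 624) (nat_lit 551903297600) (.ev (nat_lit 656) (nat_lit 2097152) (.ev (nat_lit 676)
 (nat_lit 4096) (.ev (nat_lit 800) (nat_lit 16777216) (.ev (nat_lit 813) (nat_lit 1099511627776) .dd)))))) (.ch
 (nat_lit 25) (.ev (nat_lit 624) (nat_lit 1099513724928) (.ev (nat_lit 676) (nat_lit 2147483648) (.ev (nat_lit
 788) (nat_lit 4096) (.ev (nat_lit 880) (nat_lit 16777216) (.ev (nat_lit 1012) (nat_lit 64) (.ev (nat_lit 1021)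
 (nat_lit 549755813888) .dd))))))))) (.br (nat_lit 27) (.ch (nat_lit 26) (.ev (nat_lit 624) (nat_lit
 1101675892736) (.ev (nat_lit 676) (nat_lit 549755813952) (.ev (nat_lit 685) (nat_lit 2097152) .dd)))) (.br
 (nat_lit 29) (.ch (nat_lit 27) (.ev (nat_lit 624) (nat_lit 1101677989952) (.ev (nat_lit 637) (nat_lit
 549755813888) .dd))) (.ch (nat_lit 29) (.ev (nat_lit 624) (nat_lit 1651431706688) (.ev (nat_lit 637) (nat_lit
 2097152) .dd))))))))))))))))) (.br (nat_lit 19) (.br (nat_lit 16) (.br (nat_lit 15) (.ch (nat_lit 14) (.ev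
 (nat_lit 52) (nat_lit 361189636833888) (.ev (nat_lit 84) (nat_lit 4096) (.ev (nat_lit 116) (nat_lit 18874368)
 (.ev (nat_lit 148) (nat_lit 562949953421312) (.ev (nat_lit 180) (nat_lit 1099511627776) (.ev (nat_lit 212)
 (nat_lit 65536) (.ev (nat_lit 244) (nat_lit 2147483648) (.ev (nat_lit 340) (nat_lit 16) (.nd (nat_lit 608)
 (.br (nat_lit 15) (.br (nat_lit 6) (.br (nat_lit 2) (.ch (nat_lit 1) (.ev (nat_lit 624) (nat_lit
 2199023517696) .dd)) (.br (nat_lit 4) (.ch (nat_lit 2) (.ev (nat_lit 624) (nat_lit 2199023255552) (.ev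
 (nat_lit 637) (nat_lit 262144) .dd))) (.ch (nat_lit 4) (.ev (nat_lit 624) (nat_lit 2199023517696) .dd)))) (.br
 (nat_lit 12) (.ch (nat_lit 6) (.ev (nat_lit 624) (nat_lit 2199023255552) (.ev (nat_lit 637) (nat_lit 262144)
 .dd))) (.br (nat_lit 13) (.ch (nat_lit 12) (.ev (nat_lit 624) (nat_lit 262144) (.ev (nat_lit 637) (nat_lit
 2199023255552) .dd))) (.ch (nat_lit 13) (.ev (nat_lit 624) (nat_lit 2199023517696) .dd))))) (.br (nat_lit 20)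
 (.br (nat_lit 18) (.ch (nat_lit 15) (.ev (nat_lit 624) (nat_lit 2199023517696) .dd)) (.br (nat_lit 19) (.ch
 (nat_lit 18) (.ev (nat_lit 624) (nat_lit 2199023517696) .dd)) (.ch (nat_lit 19) (.ev (nat_lit 624) (nat_lit
 262144) (.ev (nat_lit 637) (nat_lit 2199023255552) .dd))))) (.br (nat_lit 24) (.br (nat_lit 21) (.ch (nat_lit
 20) (.ev (nat_lit 1216) (nat_lit 2199023517696) .dd)) (.ch (nat_lit 21) (.ev (nat_lit 624) (nat_lit
 2199023255552) (.ev (nat_lit 637) (nat_lit 262144) .dd)))) (.br (nat_lit 27) (.ch (nat_lit 24) (.ev (nat_lit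
 1168) (nat_lit 262144) (.ev (nat_lit 1181) (nat_lit 2199023255552) .dd))) (.ch (nat_lit 27) (.ev (nat_lit 624)
 (nat_lit 2199023517696) .dd)))))))))))))))) (.ch (nat_lit 15) (.ev (nat_lit 52) (nat_lit 352395643129856) (.ev
 (nat_lit 84) (nat_lit 1099511628288) (.ev (nat_lit 116) (nat_lit 16) (.ev (nat_lit 180) (nat_lit 32) (.nd
 (nat_lit 608) (.br (nat_lit 13) (.br (nat_lit 4) (.br (nat_lit 1) (.ch (nat_lit 0) (.ev (nat_lit 624) (nat_lit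
 10995183648832) (.ev (nat_lit 637) (nat_lit 562949953421312) .dd))) (.br (nat_lit 2) (.ch (nat_lit 1) (.ev
 (nat_lit 624) (nat_lit 67371072) (.ev (nat_lit 704) (nat_lit 2199023255552) (.ev (nat_lit 788) (nat_lit
 8796093022208) (.ev (nat_lit 797) (nat_lit 562949953421312) .dd))))) (.ch (nat_lit 2) (.ev (nat_lit 624)
 (nat_lit 573945137070080) (.ev (nat_lit 637) (nat_lit 64) .dd))))) (.br (nat_lit 6) (.ch (nat_lit 4) (.ev
 (nat_lit 624) (nat_lit 571746113814528) (.ev (nat_lit 832) (nat_lit 2199023255552) (.ev (nat_lit 845) (nat_lit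
 64) .dd)))) (.br (nat_lit 12) (.ch (nat_lit 6) (.ev (nat_lit 624) (nat_lit 10995183648832) (.ev (nat_lit 637)
 (nat_lit 562949953421312) .dd))) (.ch (nat_lit 12) (.ev (nat_lit 624) (nat_lit 573945137070080) (.ev (nat_lit
 637) (nat_lit 64) .dd)))))) (.br (nat_lit 21) (.br (nat_lit 18) (.ch (nat_lit 13) (.ev (nat_lit 624) (nat_lit
 573945069961280) (.ev (nat_lit 637) (nat_lit 67108864) .dd))) (.br (nat_lit 19) (.ch (nat_lit 18) (.ev
 (nat_lit 624) (nat_lit 565149044047936) (.ev (nat_lit 637) (nat_lit 8796093022208) .dd))) (.ch (nat_lit 19)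
 (.ev (nat_lit 624) (nat_lit 573945137070080) (.ev (nat_lit 637) (nat_lit 64) .dd))))) (.br (nat_lit 25) (.br
 (nat_lit 24) (.ch (nat_lit 21) (.ev (nat_lit 624) (nat_lit 573945136807936) (.ev (nat_lit 676) (nat_lit
 262144) (.ev (nat_lit 685) (nat_lit 64) .dd)))) (.ch (nat_lit 24) (.ev (nat_lit 624) (nat_lit 573945136807936)
 (.ev (nat_lit 676) (nat_lit 262144) (.ev (nat_lit 685) (nat_lit 64) .dd))))) (.br (nat_lit 28) (.ch (nat_lit
 25) (.ev (nat_lit 624) (nat_lit 8796093284352) (.ev (nat_lit 676) (nat_lit 67108928) (.ev (nat_lit 788)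
 (nat_lit 2199023255552) (.ev (nat_lit 797) (nat_lit 562949953421312) .dd))))) (.ch (nat_lit 28) (.ev (nat_lit
 624) (nat_lit 573945069699136) (.fin (nat_lit 576465700110418480))))))))))))))) (.br (nat_lit 18) (.ch
 (nat_lit 16) (.ev (nat_lit 52) (nat_lit 3300749738080) (.ev (nat_lit 84) (nat_lit 281474978812416) (.ev
 (nat_lit 116) (nat_lit 16) (.ev (nat_lit 180) (nat_lit 549755813888) (.ev (nat_lit 224) (nat_lit
 642114807463936) .dd)))))) (.ch (nat_lit 18) (.ev (nat_lit 52) (nat_lit 634970129301568) (.ev (nat_lit 84)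
 (nat_lit 69206016) (.ev (nat_lit 128) (nat_lit 292470093320752) .dd)))))) (.br (nat_lit 21) (.br (nat_lit 20)
 (.ch (nat_lit 19) (.ev (nat_lit 52) (nat_lit 848273237606432) (.ev (nat_lit 84) (nat_lit 2101248) (.ev
 (nat_lit 116) (nat_lit 80) (.ev (nat_lit 212) (nat_lit 8796093022208) (.nd (nat_lit 608) (.br (nat_lit 19)
 (.br (nat_lit 13) (.br (nat_lit 5) (.ch (nat_lit 4) (.ev (nat_lit 624) (nat_lit 70370959097856) (.ev (nat_lit
 637) (nat_lit 512) .dd))) (.ch (nat_lit 5) (.ev (nat_lit 624) (nat_lit 2214920192) (.ev (nat_lit 676) (nat_lit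
 512) (.ev (nat_lit 685) (nat_lit 70368744177664) .dd))))) (.br (nat_lit 15) (.ch (nat_lit 13) (.ev (nat_lit
 624) (nat_lit 70370891989504) (.ev (nat_lit 637) (nat_lit 67108864) .dd))) (.ch (nat_lit 15) (.ev (nat_lit
 624) (nat_lit 70370959032832) (.ev (nat_lit 637) (nat_lit 65536) .dd))))) (.br (nat_lit 27) (.br (nat_lit 25)
 (.ch (nat_lit 19) (.ev (nat_lit 624) (nat_lit 70368811614720) (.ev (nat_lit 637) (nat_lit 2147483648) .dd)))
 (.ch (nat_lit 25) (.ev (nat_lit 624) (nat_lit 70370891989504) (.ev (nat_lit 637) (nat_lit 67108864) .dd))))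
 (.br (nat_lit 28) (.ch (nat_lit 27) (.ev (nat_lit 624) (nat_lit 70370959098368) .dd)) (.br (nat_lit 29) (.ch
 (nat_lit 28) (.ev (nat_lit 624) (nat_lit 70368744178176) (.ev (nat_lit 788) (nat_lit 65536) (.ev (nat_lit 800)
 (nat_lit 2147483648) (.fin (nat_lit 576465700110418480)))))) (.ch (nat_lit 29) (.ev (nat_lit 624) (nat_lit
 70368811548672) (.ev (nat_lit 788) (nat_lit 65536) (.ev (nat_lit 816) (nat_lit 2147484160) .dd))))))))))))))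
 (.ch (nat_lit 20) (.ev (nat_lit 52) (nat_lit 72018013782096) (.ev (nat_lit 84) (nat_lit 2199040036864) (.ev
 (nat_lit 116) (nat_lit 562949953421312) (.ev (nat_lit 180) (nat_lit 2147483648) (.ev (nat_lit 244) (nat_lit
 67108864) (.nd (nat_lit 608) (.br (nat_lit 20) (.br (nat_lit 15) (.br (nat_lit 5) (.ch (nat_lit 4) (.ev
 (nat_lit 624) (nat_lit 281474976973344) (.ev (nat_lit 637) (nat_lit 8796093022208) .dd))) (.ch (nat_lit 5)
 (.ev (nat_lit 624) (nat_lit 290271069733408) (.ev (nat_lit 637) (nat_lit 262144) .dd)))) (.br (nat_lit 18)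
 (.ch (nat_lit 15) (.ev (nat_lit 624) (nat_lit 290271069995552) .dd)) (.ch (nat_lit 18) (.ev (nat_lit 624)
 (nat_lit 281474976973312) (.ev (nat_lit 788) (nat_lit 32) (.ev (nat_lit 797) (nat_lit 8796093022208) .dd))))))
 (.br (nat_lit 25) (.br (nat_lit 21) (.ch (nat_lit 20) (.ev (nat_lit 624) (nat_lit 290271069995040) (.ev
 (nat_lit 637) (nat_lit 512) .dd))) (.ch (nat_lit 21) (.ev (nat_lit 624) (nat_lit 8796093284896) (.ev (nat_lit
 637) (nat_lit 281474976710656) .dd)))) (.br (nat_lit 26) (.ch (nat_lit 25) (.ev (nat_lit 624) (nat_lit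
 290271069995552) .dd)) (.br (nat_lit 28) (.ch (nat_lit 26) (.ev (nat_lit 624) (nat_lit 281474976973344) (.ev
 (nat_lit 637) (nat_lit 8796093022208) .dd))) (.ch (nat_lit 28) (.ev (nat_lit 624) (nat_lit 8796093284896) (.ev
 (nat_lit 637) (nat_lit 281474976710656) .dd))))))))))))))) (.br (nat_lit 22) (.ch (nat_lit 21) (.ev (nat_lit
 52) (nat_lit 633318716542992) (.ev (nat_lit 84) (nat_lit 512) (.ev (nat_lit 116) (nat_lit 8796093022208) (.ev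
 (nat_lit 180) (nat_lit 64) (.ev (nat_lit 212) (nat_lit 2214592512) (.nd (nat_lit 608) (.br (nat_lit 15) (.br
 (nat_lit 6) (.br (nat_lit 5) (.ch (nat_lit 2) (.ev (nat_lit 624) (nat_lit 283124244414496) (.ev (nat_lit 637)
 (nat_lit 2199023255552) .dd))) (.ch (nat_lit 5) (.ev (nat_lit 624) (nat_lit 284773511594016) (.ev (nat_lit
 656) (nat_lit 262144) (.ev (nat_lit 669) (nat_lit 549755813888) .dd))))) (.br (nat_lit 12) (.ch (nat_lit 6)
 (.ev (nat_lit 624) (nat_lit 3298534883360) (.ev (nat_lit 964) (nat_lit 549755813888) (.fin (nat_lit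
 576500884442661358))))) (.br (nat_lit 13) (.ch (nat_lit 12) (.ev (nat_lit 624) (nat_lit 549755813920) (.ev
 (nat_lit 676) (nat_lit 1099511889920) (.ev (nat_lit 788) (nat_lit 281474976710656) (.ev (nat_lit 797) (nat_lit
 2199023255552) .dd))))) (.ch (nat_lit 13) (.ev (nat_lit 624) (nat_lit 285323267670048) .dd))))) (.br (nat_lit
 25) (.br (nat_lit 18) (.ch (nat_lit 15) (.ev (nat_lit 624) (nat_lit 284773511856160) (.ev (nat_lit 637)
 (nat_lit 549755813888) .dd))) (.br (nat_lit 20) (.ch (nat_lit 18) (.ev (nat_lit 624) (nat_lit 284223756042272)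
 (.ev (nat_lit 637) (nat_lit 1099511627776) .dd))) (.ch (nat_lit 20) (.ev (nat_lit 624) (nat_lit
 285323267670048) .dd)))) (.br (nat_lit 27) (.ch (nat_lit 25) (.ev (nat_lit 624) (nat_lit 282024732786720) (.ev
 (nat_lit 900) (nat_lit 2199023255552) (.ev (nat_lit 909) (nat_lit 1099511627776) .dd)))) (.br (nat_lit 28)
 (.ch (nat_lit 27) (.ev (nat_lit 624) (nat_lit 3848290959360) (.ev (nat_lit 640) (nat_lit 281474976710656) (.ev
 (nat_lit 653) (nat_lit 32) .dd)))) (.ch (nat_lit 28) (.ev (nat_lit 624) (nat_lit 3848290959360) (.ev (nat_lit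
 676) (nat_lit 281474976710656) (.ev (nat_lit 685) (nat_lit 32) .dd))))))))))))))) (.ch (nat_lit 22) (.ev
 (nat_lit 52) (nat_lit 82465586741328) (.ev (nat_lit 116) (nat_lit 32) (.ev (nat_lit 212) (nat_lit
 562949953421312) (.nd (nat_lit 608) (.br (nat_lit 19) (.br (nat_lit 6) (.br (nat_lit 1) (.ch (nat_lit 0) (.ev
 (nat_lit 624) (nat_lit 282024751665152) (.ev (nat_lit 637) (nat_lit 512) .dd))) (.br (nat_lit 4) (.ch (nat_lit
 1) (.ev (nat_lit 624) (nat_lit 282024751665664) .dd)) (.ch (nat_lit 4) (.ev (nat_lit 624) (nat_lit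
 282024751665664) .dd)))) (.br (nat_lit 12) (.ch (nat_lit 6) (.ev (nat_lit 624) (nat_lit 549774692864) (.fin
 (nat_lit 576500884442661358)))) (.br (nat_lit 13) (.ch (nat_lit 12) (.ev (nat_lit 624) (nat_lit
 282024751661056) (.ev (nat_lit 676) (nat_lit 512) (.ev (nat_lit 685) (nat_lit 4096) .dd)))) (.ch (nat_lit 13)
 (.ev (nat_lit 624) (nat_lit 282024751665664) .dd))))) (.br (nat_lit 25) (.br (nat_lit 21) (.ch (nat_lit 19)
 (.ev (nat_lit 624) (nat_lit 282024751661056) (.ev (nat_lit 1012) (nat_lit 4096) (.ev (nat_lit 1021) (nat_lit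
 512) .dd)))) (.br (nat_lit 24) (.ch (nat_lit 21) (.ev (nat_lit 624) (nat_lit 549774688256) (.ev (nat_lit 688)
 (nat_lit 262144) (.ev (nat_lit 788) (nat_lit 281474976714752) (.ev (nat_lit 797) (nat_lit 512) .dd))))) (.ch
 (nat_lit 24) (.ev (nat_lit 624) (nat_lit 282024732529152) (.ev (nat_lit 676) (nat_lit 2097152) (.ev (nat_lit
 788) (nat_lit 262144) (.ev (nat_lit 797) (nat_lit 16777216) .dd))))))) (.br (nat_lit 27) (.br (nat_lit 26)
 (.ch (nat_lit 25) (.ev (nat_lit 624) (nat_lit 282024734888448) (.ev (nat_lit 637) (nat_lit 16777216) .dd)))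
 (.ch (nat_lit 26) (.ev (nat_lit 624) (nat_lit 282024749564416) (.ev (nat_lit 688) (nat_lit 2097152) (.ev
 (nat_lit 701) (nat_lit 4096) .dd))))) (.br (nat_lit 28) (.ch (nat_lit 27) (.ev (nat_lit 624) (nat_lit
 19141120) (.ev (nat_lit 676) (nat_lit 281474976710656) (.ev (nat_lit 685) (nat_lit 549755813888) .dd)))) (.ch
 (nat_lit 28) (.ev (nat_lit 624) (nat_lit 2101760) (.ev (nat_lit 676) (nat_lit 281474993750016) (.ev (nat_lit
 685) (nat_lit 549755813888) .dd))))))))))))))))) (.br (nat_lit 33) (.br (nat_lit 28) (.br (nat_lit 26) (.ch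
 (nat_lit 25) (.ev (nat_lit 52) (nat_lit 855420113588288) (.ev (nat_lit 84) (nat_lit 2097664) (.ev (nat_lit
 116) (nat_lit 262176) (.ev (nat_lit 212) (nat_lit 16) (.nd (nat_lit 608) (.br (nat_lit 12) (.br (nat_lit 4)
 (.br (nat_lit 1) (.ch (nat_lit 0) (.ev (nat_lit 624) (nat_lit 72020175880192) .dd)) (.ch (nat_lit 1) (.ev
 (nat_lit 624) (nat_lit 70918516768768) (.ev (nat_lit 788) (nat_lit 2147483648) (.ev (nat_lit 797) (nat_lit
 1099511627776) .dd))))) (.br (nat_lit 5) (.ch (nat_lit 4) (.ev (nat_lit 624) (nat_lit 70920664252416) (.ev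
 (nat_lit 637) (nat_lit 1099511627776) .dd))) (.ch (nat_lit 5) (.ev (nat_lit 624) (nat_lit 1651414925312) (.ev
 (nat_lit 688) (nat_lit 16777216) (.ev (nat_lit 701) (nat_lit 70368744177664) .dd)))))) (.br (nat_lit 24) (.br
 (nat_lit 13) (.ch (nat_lit 12) (.ev (nat_lit 624) (nat_lit 1651431702528) (.ev (nat_lit 637) (nat_lit
 70368744177664) .dd))) (.ch (nat_lit 13) (.ev (nat_lit 624) (nat_lit 1651431702528) (.ev (nat_lit 637)
 (nat_lit 70368744177664) .dd)))) (.br (nat_lit 25) (.ch (nat_lit 24) (.ev (nat_lit 624) (nat_lit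
 72018028396544) (.ev (nat_lit 637) (nat_lit 2147483648) .dd))) (.br (nat_lit 27) (.ch (nat_lit 25) (.ev
 (nat_lit 624) (nat_lit 70370908438528) (.ev (nat_lit 900) (nat_lit 549755813888) (.ev (nat_lit 909) (nat_lit
 1099511627776) .dd)))) (.ch (nat_lit 27) (.ev (nat_lit 624) (nat_lit 71470420066304) (.ev (nat_lit 637)
 (nat_lit 549755813888) .dd))))))))))))) (.br (nat_lit 27) (.ch (nat_lit 26) (.ev (nat_lit 52) (nat_lit
 574494827614224) (.ev (nat_lit 116) (nat_lit 262144) (.ev (nat_lit 212) (nat_lit 67108928) (.ev (nat_lit 244)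
 (nat_lit 2147483648) (.ev (nat_lit 276) (nat_lit 281474976710656) (.nd (nat_lit 608) (.br (nat_lit 20) (.br
 (nat_lit 6) (.br (nat_lit 4) (.ch (nat_lit 0) (.ev (nat_lit 624) (nat_lit 71468272648736) .dd)) (.br (nat_lit
 5) (.ch (nat_lit 4) (.ev (nat_lit 624) (nat_lit 16777216) (.ev (nat_lit 676) (nat_lit 32) (.ev (nat_lit 900)
 (nat_lit 70368744178176) (.ev (nat_lit 1012) (nat_lit 1099511627776) (.ev (nat_lit 1021) (nat_lit 65536)
 .dd)))))) (.ch (nat_lit 5) (.ev (nat_lit 624) (nat_lit 1099528471072) (.ev (nat_lit 637) (nat_lit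
 70368744177664) .dd))))) (.br (nat_lit 13) (.ch (nat_lit 6) (.ev (nat_lit 624) (nat_lit 70368760954912) (.ev
 (nat_lit 676) (nat_lit 66048) (.ev (nat_lit 685) (nat_lit 1099511627776) .dd)))) (.br (nat_lit 15) (.ch
 (nat_lit 13) (.ev (nat_lit 624) (nat_lit 1099528471072) (.ev (nat_lit 637) (nat_lit 70368744177664) .dd)))
 (.ch (nat_lit 15) (.ev (nat_lit 624) (nat_lit 71468272648736) .dd))))) (.br (nat_lit 25) (.br (nat_lit 21)
 (.ch (nat_lit 20) (.ev (nat_lit 624) (nat_lit 71468272582688) (.ev (nat_lit 900) (nat_lit 512) (.ev (nat_lit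
 909) (nat_lit 65536) .dd)))) (.br (nat_lit 24) (.ch (nat_lit 21) (.ev (nat_lit 624) (nat_lit 70368761020960)
 (.ev (nat_lit 637) (nat_lit 1099511627776) .dd))) (.ch (nat_lit 24) (.ev (nat_lit 624) (nat_lit 16843296) (.ev
 (nat_lit 800) (nat_lit 1099511627776) (.ev (nat_lit 813) (nat_lit 70368744177664) .dd)))))) (.br (nat_lit 28)
 (.br (nat_lit 26) (.ch (nat_lit 25) (.ev (nat_lit 624) (nat_lit 70368744178208) (.ev (nat_lit 848) (nat_lit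
 16777216) (.ev (nat_lit 1028) (nat_lit 65536) (.ev (nat_lit 1037) (nat_lit 1099511627776) .dd))))) (.ch
 (nat_lit 26) (.ev (nat_lit 624) (nat_lit 71468272583200) (.ev (nat_lit 637) (nat_lit 65536) .dd)))) (.br
 (nat_lit 29) (.ch (nat_lit 28) (.ev (nat_lit 624) (nat_lit 71468272583200) (.ev (nat_lit 637) (nat_lit 65536)
 .dd))) (.ch (nat_lit 29) (.ev (nat_lit 624) (nat_lit 1099511628320) (.ev (nat_lit 640) (nat_lit
 70368744177664) (.ev (nat_lit 768) (nat_lit 65536) (.ev (nat_lit 781) (nat_lit 16777216) .dd))))))))))))))))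
 (.ch (nat_lit 27) (.ev (nat_lit 52) (nat_lit 283674083856416) (.ev (nat_lit 84) (nat_lit 70370893758976) (.ev
 (nat_lit 116) (nat_lit 562949953486848) (.ev (nat_lit 212) (nat_lit 262144) (.nd (nat_lit 608) (.br (nat_lit
 19) (.br (nat_lit 5) (.br (nat_lit 1) (.ch (nat_lit 0) (.ev (nat_lit 624) (nat_lit 10445360463952) .dd)) (.br
 (nat_lit 2) (.ch (nat_lit 1) (.ev (nat_lit 624) (nat_lit 10445360463952) .dd)) (.ch (nat_lit 2) (.ev (nat_lit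
 624) (nat_lit 9895604649984) (.ev (nat_lit 676) (nat_lit 64) (.ev (nat_lit 976) (nat_lit 16) (.ev (nat_lit
 989) (nat_lit 549755813888) .dd))))))) (.br (nat_lit 6) (.ch (nat_lit 5) (.ev (nat_lit 624) (nat_lit
 10445360463952) .dd)) (.br (nat_lit 15) (.ch (nat_lit 6) (.ev (nat_lit 624) (nat_lit 16) (.ev (nat_lit 912)
 (nat_lit 1099511627776) (.ev (nat_lit 976) (nat_lit 8796093022208) (.ev (nat_lit 1012) (nat_lit 64) (.ev
 (nat_lit 1021) (nat_lit 549755813888) .dd)))))) (.ch (nat_lit 15) (.ev (nat_lit 624) (nat_lit 1649267441728)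
 (.ev (nat_lit 704) (nat_lit 8796093022224) .dd)))))) (.br (nat_lit 24) (.br (nat_lit 20) (.ch (nat_lit 19)
 (.ev (nat_lit 624) (nat_lit 9345848836176) (.ev (nat_lit 637) (nat_lit 1099511627776) .dd))) (.br (nat_lit 21)
 (.ch (nat_lit 20) (.ev (nat_lit 624) (nat_lit 9895604649984) (.ev (nat_lit 676) (nat_lit 549755813888) (.ev
 (nat_lit 788) (nat_lit 16) (.ev (nat_lit 797) (nat_lit 64) .dd))))) (.ch (nat_lit 21) (.ev (nat_lit 624)
 (nat_lit 9345848836112) (.ev (nat_lit 676) (nat_lit 1099511627776) (.ev (nat_lit 685) (nat_lit 64) .dd))))))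
 (.br (nat_lit 26) (.br (nat_lit 25) (.ch (nat_lit 24) (.ev (nat_lit 624) (nat_lit 10445360463952) .dd)) (.ch
 (nat_lit 25) (.ev (nat_lit 624) (nat_lit 9895604650000) (.ev (nat_lit 788) (nat_lit 64) (.ev (nat_lit 797)
 (nat_lit 549755813888) .dd))))) (.br (nat_lit 28) (.ch (nat_lit 26) (.ev (nat_lit 624) (nat_lit 1099511627792)
 (.ev (nat_lit 788) (nat_lit 549755813888) (.ev (nat_lit 800) (nat_lit 8796093022208) (.ev (nat_lit 813)
 (nat_lit 64) .dd))))) (.ch (nat_lit 28) (.ev (nat_lit 624) (nat_lit 10445360463888) (.ev (nat_lit 637)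
 (nat_lit 64) .dd))))))))))))))) (.br (nat_lit 31) (.br (nat_lit 29) (.ch (nat_lit 28) (.ev (nat_lit 52)
 (nat_lit 282026880073728) (.ev (nat_lit 84) (nat_lit 512) (.ev (nat_lit 116) (nat_lit 64) (.ev (nat_lit 148)
 (nat_lit 8796109799424) (.ev (nat_lit 180) (nat_lit 562949953421312) (.ev (nat_lit 212) (nat_lit 262144) (.ev
 (nat_lit 244) (nat_lit 70368744177664) (.nd (nat_lit 608) (.br (nat_lit 19) (.br (nat_lit 6) (.br (nat_lit 1)
 (.ch (nat_lit 0) (.ev (nat_lit 624) (nat_lit 3298604093488) .dd)) (.br (nat_lit 2) (.ch (nat_lit 1) (.ev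
 (nat_lit 624) (nat_lit 3298604089344) (.ev (nat_lit 676) (nat_lit 16) (.ev (nat_lit 788) (nat_lit 32) (.ev
 (nat_lit 797) (nat_lit 4096) .dd))))) (.ch (nat_lit 2) (.ev (nat_lit 624) (nat_lit 3298604093488) .dd)))) (.br
 (nat_lit 12) (.ch (nat_lit 6) (.ev (nat_lit 624) (nat_lit 2199092465712) (.ev (nat_lit 637) (nat_lit
 1099511627776) .dd))) (.br (nat_lit 15) (.ch (nat_lit 12) (.ev (nat_lit 624) (nat_lit 1099513729072) (.ev
 (nat_lit 676) (nat_lit 67108864) (.ev (nat_lit 685) (nat_lit 2199023255552) .dd)))) (.ch (nat_lit 15) (.ev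
 (nat_lit 624) (nat_lit 3298604089392) (.ev (nat_lit 637) (nat_lit 4096) .dd)))))) (.br (nat_lit 24) (.br
 (nat_lit 20) (.ch (nat_lit 19) (.ev (nat_lit 624) (nat_lit 2199090368560) (.ev (nat_lit 676) (nat_lit 2097152)
 (.ev (nat_lit 685) (nat_lit 1099511627776) .dd)))) (.br (nat_lit 21) (.ch (nat_lit 20) (.ev (nat_lit 624)
 (nat_lit 3298604093488) .dd)) (.ch (nat_lit 21) (.ev (nat_lit 624) (nat_lit 2199023259664) (.ev (nat_lit 688)
 (nat_lit 32) (.ev (nat_lit 788) (nat_lit 69206016) (.ev (nat_lit 797) (nat_lit 1099511627776) .dd))))))) (.br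
 (nat_lit 28) (.br (nat_lit 26) (.ch (nat_lit 24) (.ev (nat_lit 624) (nat_lit 2199090368560) (.ev (nat_lit
 1012) (nat_lit 2097152) (.ev (nat_lit 1021) (nat_lit 1099511627776) .dd)))) (.ch (nat_lit 26) (.ev (nat_lit
 624) (nat_lit 1099513724944) (.ev (nat_lit 676) (nat_lit 67112992) (.ev (nat_lit 685) (nat_lit 2199023255552)
 .dd))))) (.br (nat_lit 29) (.ch (nat_lit 28) (.ev (nat_lit 624) (nat_lit 3298536984592) (.fin (nat_lit
 576434913786937798)))) (.ch (nat_lit 29) (.ev (nat_lit 624) (nat_lit 3298601996320) (.ev (nat_lit 688)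
 (nat_lit 16) (.ev (nat_lit 701) (nat_lit 2097152) .dd))))))))))))))))) (.ch (nat_lit 29) (.ev (nat_lit 52)
 (nat_lit 8798307614720) (.ev (nat_lit 64) (nat_lit 918641984213616) .dd)))) (.br (nat_lit 32) (.ch (nat_lit
 31) (.ev (nat_lit 52) (nat_lit 352945463951936) (.ev (nat_lit 84) (nat_lit 2199023259648) (.ev (nat_lit 116)
 (nat_lit 262144) (.ev (nat_lit 192) (nat_lit 572295804354608) .dd))))) (.ch (nat_lit 32) (.ev (nat_lit 52)
 (nat_lit 3850438180880) (.ev (nat_lit 96) (nat_lit 923589853647456) .dd)))))) (.br (nat_lit 42) (.br (nat_lit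
 36) (.br (nat_lit 35) (.ch (nat_lit 33) (.ev (nat_lit 52) (nat_lit 2231631968) (.ev (nat_lit 84) (nat_lit
 2097152) (.ev (nat_lit 116) (nat_lit 4608) (.ev (nat_lit 148) (nat_lit 65536) (.ev (nat_lit 180) (nat_lit
 70368744177664) (.ev (nat_lit 212) (nat_lit 1099511627776) (.nd (nat_lit 608) (.br (nat_lit 12) (.br (nat_lit
 2) (.br (nat_lit 1) (.ch (nat_lit 0) (.ev (nat_lit 624) (nat_lit 290820825546768) (.ev (nat_lit 676) (nat_lit
 2199023255552) (.ev (nat_lit 685) (nat_lit 562949953421312) .dd)))) (.ch (nat_lit 1) (.ev (nat_lit 624)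
 (nat_lit 282024732524544) (.ev (nat_lit 640) (nat_lit 10995116277760) (.ev (nat_lit 788) (nat_lit 16) (.ev
 (nat_lit 797) (nat_lit 562949953421312) .dd)))))) (.br (nat_lit 4) (.ch (nat_lit 2) (.ev (nat_lit 624)
 (nat_lit 844424930131968) (.ev (nat_lit 676) (nat_lit 549755813888) (.ev (nat_lit 900) (nat_lit
 10995116277760) (.ev (nat_lit 909) (nat_lit 16) .dd))))) (.br (nat_lit 6) (.ch (nat_lit 4) (.ev (nat_lit 624)
 (nat_lit 855969802223632) .dd)) (.ch (nat_lit 6) (.ev (nat_lit 624) (nat_lit 565148976676880) (.ev (nat_lit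
 656) (nat_lit 281474976710656) (.ev (nat_lit 800) (nat_lit 8796093022208) (.ev (nat_lit 813) (nat_lit
 549755813888) .dd)))))))) (.br (nat_lit 27) (.br (nat_lit 21) (.ch (nat_lit 12) (.ev (nat_lit 624) (nat_lit
 565698732490768) (.ev (nat_lit 676) (nat_lit 8796093022208) (.ev (nat_lit 685) (nat_lit 281474976710656)
 .dd)))) (.br (nat_lit 24) (.ch (nat_lit 21) (.ev (nat_lit 624) (nat_lit 574494825512976) (.ev (nat_lit 637)
 (nat_lit 281474976710656) .dd))) (.ch (nat_lit 24) (.ev (nat_lit 624) (nat_lit 853770778968080) (.ev (nat_lit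
 637) (nat_lit 2199023255552) .dd))))) (.br (nat_lit 28) (.ch (nat_lit 27) (.ev (nat_lit 624) (nat_lit
 574494825512976) (.ev (nat_lit 637) (nat_lit 281474976710656) .dd))) (.br (nat_lit 29) (.ch (nat_lit 28) (.ev
 (nat_lit 624) (nat_lit 573945069699088) (.ev (nat_lit 676) (nat_lit 281474976710656) (.ev (nat_lit 685)
 (nat_lit 549755813888) .dd)))) (.ch (nat_lit 29) (.ev (nat_lit 624) (nat_lit 847173709201424) (.ev (nat_lit
 637) (nat_lit 8796093022208) .dd))))))))))))))) (.ch (nat_lit 35) (.ev (nat_lit 52) (nat_lit 848273237611104)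
 (.ev (nat_lit 84) (nat_lit 2097152) (.ev (nat_lit 180) (nat_lit 8796160131072) (.ev (nat_lit 256) (nat_lit
 70370891989008) .dd)))))) (.br (nat_lit 38) (.ch (nat_lit 36) (.ev (nat_lit 52) (nat_lit 82465605816832) (.ev
 (nat_lit 160) (nat_lit 844974686011504) .dd))) (.ch (nat_lit 38) (.ev (nat_lit 52) (nat_lit 283126393995808)
 (.ev (nat_lit 84) (nat_lit 2199023255552) (.ev (nat_lit 128) (nat_lit 642114874576976) .dd)))))) (.br (nat_lit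
 45) (.br (nat_lit 44) (.ch (nat_lit 42) (.ev (nat_lit 52) (nat_lit 81366008201296) (.ev (nat_lit 84) (nat_lit
 2097152) (.ev (nat_lit 116) (nat_lit 562949953425408) (.ev (nat_lit 212) (nat_lit 16777216) (.ev (nat_lit 244)
 (nat_lit 65536) (.nd (nat_lit 608) (.br (nat_lit 19) (.br (nat_lit 5) (.br (nat_lit 1) (.ch (nat_lit 0) (.ev
 (nat_lit 624) (nat_lit 283124244152352) (.ev (nat_lit 676) (nat_lit 67108864) (.ev (nat_lit 685) (nat_lit 512)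
 .dd)))) (.ch (nat_lit 1) (.ev (nat_lit 624) (nat_lit 549822923296) (.ev (nat_lit 900) (nat_lit
 281474976710656) (.ev (nat_lit 909) (nat_lit 1099511627776) .dd))))) (.br (nat_lit 13) (.ch (nat_lit 5) (.ev
 (nat_lit 624) (nat_lit 283124311261728) .dd)) (.br (nat_lit 18) (.ch (nat_lit 13) (.ev (nat_lit 624) (nat_lit
 283124311261728) .dd)) (.ch (nat_lit 18) (.ev (nat_lit 624) (nat_lit 282574555447808) (.ev (nat_lit 656)
 (nat_lit 32) (.ev (nat_lit 669) (nat_lit 549755813888) .dd))))))) (.br (nat_lit 25) (.br (nat_lit 21) (.ch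
 (nat_lit 19) (.ev (nat_lit 624) (nat_lit 1649334551072) (.ev (nat_lit 637) (nat_lit 281474976710656) .dd)))
 (.br (nat_lit 24) (.ch (nat_lit 21) (.ev (nat_lit 624) (nat_lit 283124244152352) (.ev (nat_lit 640) (nat_lit
 67108864) (.ev (nat_lit 653) (nat_lit 512) .dd)))) (.ch (nat_lit 24) (.ev (nat_lit 624) (nat_lit
 282024799633952) (.ev (nat_lit 637) (nat_lit 1099511627776) .dd))))) (.br (nat_lit 26) (.ch (nat_lit 25) (.ev
 (nat_lit 624) (nat_lit 282574555447840) (.ev (nat_lit 637) (nat_lit 549755813888) .dd))) (.br (nat_lit 28)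
 (.ch (nat_lit 26) (.ev (nat_lit 624) (nat_lit 549755814400) (.ev (nat_lit 676) (nat_lit 1099511627808) (.ev
 (nat_lit 788) (nat_lit 67108864) (.ev (nat_lit 797) (nat_lit 281474976710656) .dd))))) (.ch (nat_lit 28) (.ev
 (nat_lit 624) (nat_lit 282574488338944) (.ev (nat_lit 964) (nat_lit 549755813888) (.fin (nat_lit
 576434913786937798)))))))))))))))) (.ch (nat_lit 44) (.ev (nat_lit 52) (nat_lit 636067543781392) (.ev (nat_lit
 96) (nat_lit 291372748046944) .dd)))) (.br (nat_lit 46) (.ch (nat_lit 45) (.ev (nat_lit 52) (nat_lit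
 564049465311840) (.ev (nat_lit 84) (nat_lit 2199023259648) (.ev (nat_lit 116) (nat_lit 67108880) (.ev (nat_lit
 148) (nat_lit 549755879424) (.ev (nat_lit 212) (nat_lit 8796093022208) (.nd (nat_lit 608) (.br (nat_lit 13)
 (.br (nat_lit 5) (.br (nat_lit 4) (.ch (nat_lit 2) (.ev (nat_lit 624) (nat_lit 351843739762688) (.ev (nat_lit
 637) (nat_lit 2147483648) .dd))) (.ch (nat_lit 4) (.ev (nat_lit 624) (nat_lit 351845887246336) .dd))) (.br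
 (nat_lit 12) (.ch (nat_lit 5) (.ev (nat_lit 624) (nat_lit 351845870469120) (.ev (nat_lit 637) (nat_lit
 16777216) .dd))) (.ch (nat_lit 12) (.ev (nat_lit 624) (nat_lit 351845887246336) .dd)))) (.br (nat_lit 19) (.br
 (nat_lit 18) (.ch (nat_lit 13) (.ev (nat_lit 624) (nat_lit 351845887246336) .dd)) (.ch (nat_lit 18) (.ev
 (nat_lit 624) (nat_lit 2166358016) (.ev (nat_lit 880) (nat_lit 281474976710656) (.ev (nat_lit 893) (nat_lit
 70368744177664) .dd))))) (.br (nat_lit 20) (.ch (nat_lit 19) (.ev (nat_lit 624) (nat_lit 351845885149184) (.ev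
 (nat_lit 637) (nat_lit 2097152) .dd))) (.br (nat_lit 21) (.ch (nat_lit 20) (.ev (nat_lit 624) (nat_lit
 351845887246336) .dd)) (.ch (nat_lit 21) (.ev (nat_lit 624) (nat_lit 351845887246336) .dd))))))))))))) (.ch
 (nat_lit 46) (.ev (nat_lit 52) (nat_lit 290273219314256) (.ev (nat_lit 84) (nat_lit 16777216) (.ev (nat_lit
 116) (nat_lit 2199023255552) (.ev (nat_lit 128) (nat_lit 634968032481312) .dd))))))))))))

/-- Subtrie. -/
noncomputable def T6 : Tr := (.ev (nat_lit 20) (nat_lit 799414226848800) (.nd (nat_lit 33) (.br (nat_lit 25)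
 (.br (nat_lit 14) (.br (nat_lit 5) (.br (nat_lit 2) (.ch (nat_lit 1) (.ev (nat_lit 52) (nat_lit 9348336193536)
 (.ev (nat_lit 84) (nat_lit 2097152) (.ev (nat_lit 116) (nat_lit 1126183374684160) (.ev (nat_lit 148) (nat_lit
 512) (.ev (nat_lit 192) (nat_lit 4785212043067472) .dd)))))) (.br (nat_lit 3) (.ch (nat_lit 2) (.ev (nat_lit
 52) (nat_lit 1416591950512640) (.ev (nat_lit 116) (nat_lit 131072) (.ev (nat_lit 180) (nat_lit 2147483712)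
 (.nd (nat_lit 608) (.br (nat_lit 7) (.br (nat_lit 5) (.br (nat_lit 1) (.ch (nat_lit 0) (.ev (nat_lit 624)
 (nat_lit 550030544912) (.ev (nat_lit 637) (nat_lit 4503599627370496) .dd))) (.ch (nat_lit 1) (.ev (nat_lit
 624) (nat_lit 4504149651623952) (.fin (nat_lit 576474496210780777))))) (.br (nat_lit 6) (.ch (nat_lit 5) (.ev
 (nat_lit 624) (nat_lit 4503599902101520) (.ev (nat_lit 637) (nat_lit 549755813888) .dd))) (.ch (nat_lit 6)
 (.ev (nat_lit 624) (nat_lit 4504149385285648) (.ev (nat_lit 656) (nat_lit 4194304) (.ev (nat_lit 669) (nat_lit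
 268435456) .dd)))))) (.br (nat_lit 13) (.br (nat_lit 11) (.ch (nat_lit 7) (.ev (nat_lit 624) (nat_lit
 549757915136) (.ev (nat_lit 676) (nat_lit 4194304) (.ev (nat_lit 788) (nat_lit 268435472) (.ev (nat_lit 797)
 (nat_lit 4503599627370496) .dd))))) (.ch (nat_lit 11) (.ev (nat_lit 624) (nat_lit 4504149657911296) (.ev
 (nat_lit 640) (nat_lit 4096) (.ev (nat_lit 653) (nat_lit 16) .dd))))) (.br (nat_lit 14) (.ch (nat_lit 13) (.ev
 (nat_lit 624) (nat_lit 4504149655818256) (.ev (nat_lit 637) (nat_lit 2097152) .dd))) (.br (nat_lit 18) (.ch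
 (nat_lit 14) (.ev (nat_lit 624) (nat_lit 4503599633666064) (.ev (nat_lit 928) (nat_lit 549755813888) (.ev
 (nat_lit 941) (nat_lit 268435456) .dd)))) (.ch (nat_lit 18) (.ev (nat_lit 624) (nat_lit 550030544912) (.ev
 (nat_lit 637) (nat_lit 4503599627370496) .dd)))))))))))) (.ch (nat_lit 3) (.ev (nat_lit 52) (nat_lit
 1126451812241488) (.ev (nat_lit 84) (nat_lit 8796361457664) (.ev (nat_lit 180) (nat_lit 146028920832) (.nd
 (nat_lit 608) (.br (nat_lit 14) (.br (nat_lit 6) (.br (nat_lit 1) (.ch (nat_lit 0) (.ev (nat_lit 624) (nat_lit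
 4785349553422848) .dd)) (.br (nat_lit 2) (.ch (nat_lit 1) (.ev (nat_lit 624) (nat_lit 4503874505409024) (.ev
 (nat_lit 704) (nat_lit 281474976710656) (.ev (nat_lit 788) (nat_lit 67108864) (.ev (nat_lit 797) (nat_lit
 4194304) .dd))))) (.ch (nat_lit 2) (.ev (nat_lit 624) (nat_lit 4785349549228544) (.ev (nat_lit 637) (nat_lit
 4194304) .dd))))) (.br (nat_lit 7) (.ch (nat_lit 6) (.ev (nat_lit 624) (nat_lit 4785349482119680) (.ev
 (nat_lit 676) (nat_lit 67108864) (.ev (nat_lit 685) (nat_lit 4194304) .dd)))) (.br (nat_lit 9) (.ch (nat_lit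
 7) (.ev (nat_lit 624) (nat_lit 4785349481988096) (.ev (nat_lit 1126) (nat_lit 71434752) .dd))) (.ch (nat_lit
 9) (.ev (nat_lit 676) (nat_lit 274877906944) (.ev (nat_lit 800) (nat_lit 4503599627501568) (.ev (nat_lit 976)
 (nat_lit 281474976710656) (.ev (nat_lit 1152) (nat_lit 67108864) (.ev (nat_lit 1248) (nat_lit 4194816)
 .dd))))))))) (.br (nat_lit 18) (.br (nat_lit 15) (.ch (nat_lit 14) (.ev (nat_lit 624) (nat_lit
 4785349549228544) (.ev (nat_lit 637) (nat_lit 4194304) .dd))) (.br (nat_lit 16) (.ch (nat_lit 15) (.ev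
 (nat_lit 624) (nat_lit 281749925921280) (.ev (nat_lit 832) (nat_lit 4503599627501568) .dd))) (.ch (nat_lit 16)
 (.ev (nat_lit 624) (nat_lit 4785349553291264) (.ev (nat_lit 676) (nat_lit 512) (.ev (nat_lit 685) (nat_lit
 131072) .dd)))))) (.br (nat_lit 24) (.br (nat_lit 19) (.ch (nat_lit 18) (.ev (nat_lit 624) (nat_lit
 4785349481988096) (.ev (nat_lit 676) (nat_lit 512) (.ev (nat_lit 800) (nat_lit 4194304) (.ev (nat_lit 900)
 (nat_lit 67108864) (.ev (nat_lit 909) (nat_lit 131072) .dd)))))) (.ch (nat_lit 19) (.ev (nat_lit 624) (nat_lit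
 4785349553291776) (.ev (nat_lit 637) (nat_lit 131072) .dd)))) (.br (nat_lit 26) (.ch (nat_lit 24) (.ev
 (nat_lit 624) (nat_lit 4503874576580608) (.ev (nat_lit 676) (nat_lit 512) (.ev (nat_lit 704) (nat_lit
 281474976710656) (.ev (nat_lit 717) (nat_lit 131072) .dd))))) (.ch (nat_lit 26) (.ev (nat_lit 624) (nat_lit
 281749926052352) (.ev (nat_lit 637) (nat_lit 4503599627370496) .dd)))))))))))))) (.br (nat_lit 11) (.br
 (nat_lit 9) (.ch (nat_lit 5) (.ev (nat_lit 52) (nat_lit 826854609408) (.ev (nat_lit 84) (nat_lit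
 8796361457664) (.ev (nat_lit 116) (nat_lit 64) (.ev (nat_lit 180) (nat_lit 137438953472) (.ev (nat_lit 244)
 (nat_lit 8589934592) (.nd (nat_lit 608) (.br (nat_lit 12) (.br (nat_lit 6) (.br (nat_lit 1) (.ch (nat_lit 0)
 (.ev (nat_lit 624) (nat_lit 5910974511087632) .dd)) (.br (nat_lit 2) (.ch (nat_lit 1) (.ev (nat_lit 624)
 (nat_lit 5910974510956560) (.ev (nat_lit 637) (nat_lit 131072) .dd))) (.ch (nat_lit 2) (.ev (nat_lit 624)
 (nat_lit 4785074604113920) (.ev (nat_lit 848) (nat_lit 16) (.ev (nat_lit 1028) (nat_lit 131072) (.ev (nat_lit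
 1037) (nat_lit 1125899906842624) .dd))))))) (.br (nat_lit 9) (.ch (nat_lit 6) (.ev (nat_lit 624) (nat_lit
 5629499534376976) (.ev (nat_lit 637) (nat_lit 281474976710656) .dd))) (.br (nat_lit 11) (.ch (nat_lit 9) (.ev
 (nat_lit 624) (nat_lit 16) (.ev (nat_lit 676) (nat_lit 4503599627370496) (.ev (nat_lit 900) (nat_lit
 281474976743424) (.ev (nat_lit 1012) (nat_lit 1125899906842624) (.ev (nat_lit 1021) (nat_lit 131072) .dd))))))
 (.ch (nat_lit 11) (.ev (nat_lit 624) (nat_lit 5629499534245888) (.ev (nat_lit 640) (nat_lit 281474976710656)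
 (.ev (nat_lit 768) (nat_lit 131072) (.ev (nat_lit 781) (nat_lit 16) .dd)))))))) (.br (nat_lit 23) (.br
 (nat_lit 14) (.ch (nat_lit 12) (.ev (nat_lit 624) (nat_lit 5910974510956560) (.ev (nat_lit 637) (nat_lit
 131072) .dd))) (.br (nat_lit 19) (.ch (nat_lit 14) (.ev (nat_lit 624) (nat_lit 5910974510923792) (.ev (nat_lit
 900) (nat_lit 32768) (.ev (nat_lit 909) (nat_lit 131072) .dd)))) (.ch (nat_lit 19) (.ev (nat_lit 624) (nat_lit
 5629499534376976) (.ev (nat_lit 637) (nat_lit 281474976710656) .dd))))) (.br (nat_lit 26) (.br (nat_lit 24)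
 (.ch (nat_lit 23) (.ev (nat_lit 624) (nat_lit 4503599627534352) (.ev (nat_lit 800) (nat_lit 1125899906842624)
 (.ev (nat_lit 813) (nat_lit 281474976710656) .dd)))) (.ch (nat_lit 24) (.ev (nat_lit 624) (nat_lit
 4785074604245008) (.ev (nat_lit 637) (nat_lit 1125899906842624) .dd)))) (.br (nat_lit 29) (.ch (nat_lit 26)
 (.ev (nat_lit 624) (nat_lit 5910974511087632) .dd)) (.ch (nat_lit 29) (.ev (nat_lit 624) (nat_lit
 4785074604081168) (.ev (nat_lit 676) (nat_lit 163840) (.ev (nat_lit 685) (nat_lit 1125899906842624)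
 .dd))))))))))))))) (.ch (nat_lit 9) (.ev (nat_lit 52) (nat_lit 412323316224) (.ev (nat_lit 84) (nat_lit
 4512395720392704) (.ev (nat_lit 128) (nat_lit 1407935712333904) .dd))))) (.br (nat_lit 12) (.ch (nat_lit 11)
 (.ev (nat_lit 52) (nat_lit 4512808311980624) (.ev (nat_lit 84) (nat_lit 4096) (.ev (nat_lit 160) (nat_lit
 1407935444058112) .dd)))) (.ch (nat_lit 12) (.ev (nat_lit 52) (nat_lit 5629637308874768) (.ev (nat_lit 84)
 (nat_lit 2097152) (.ev (nat_lit 96) (nat_lit 291106445070912) .dd))))))) (.br (nat_lit 19) (.br (nat_lit 16)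
 (.br (nat_lit 15) (.ch (nat_lit 14) (.ev (nat_lit 52) (nat_lit 4794703992095296) (.ev (nat_lit 84) (nat_lit
 268566528) (.ev (nat_lit 148) (nat_lit 4112) (.nd (nat_lit 608) (.br (nat_lit 15) (.br (nat_lit 11) (.br
 (nat_lit 6) (.ch (nat_lit 1) (.ev (nat_lit 624) (nat_lit 1125902056423424) (.ev (nat_lit 637) (nat_lit
 137438953472) .dd))) (.br (nat_lit 7) (.ch (nat_lit 6) (.ev (nat_lit 624) (nat_lit 1126039495376896) .dd))
 (.ch (nat_lit 7) (.ev (nat_lit 624) (nat_lit 1125899906842624) (.ev (nat_lit 688) (nat_lit 2097152) (.ev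
 (nat_lit 900) (nat_lit 137438953472) (.ev (nat_lit 909) (nat_lit 2147483648) .dd))))))) (.br (nat_lit 12) (.ch
 (nat_lit 11) (.ev (nat_lit 688) (nat_lit 137438953472) (.ev (nat_lit 816) (nat_lit 2147483648) (.ev (nat_lit
 912) (nat_lit 1125899906842624) (.ev (nat_lit 925) (nat_lit 2097152) .dd))))) (.br (nat_lit 14) (.ch (nat_lit
 12) (.ev (nat_lit 624) (nat_lit 1125902056423424) (.ev (nat_lit 637) (nat_lit 137438953472) .dd))) (.ch
 (nat_lit 14) (.ev (nat_lit 624) (nat_lit 1126039495376896) .dd))))) (.br (nat_lit 19) (.br (nat_lit 16) (.ch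
 (nat_lit 15) (.ev (nat_lit 624) (nat_lit 1126039495376896) .dd)) (.br (nat_lit 18) (.ch (nat_lit 16) (.ev
 (nat_lit 624) (nat_lit 1125899906842624) (.ev (nat_lit 676) (nat_lit 137438953472) (.ev (nat_lit 1376)
 (nat_lit 2149580800) .dd)))) (.ch (nat_lit 18) (.ev (nat_lit 624) (nat_lit 2147483648) (.ev (nat_lit 676)
 (nat_lit 1126037345796096) (.ev (nat_lit 685) (nat_lit 2097152) .dd)))))) (.br (nat_lit 24) (.br (nat_lit 23)
 (.ch (nat_lit 19) (.ev (nat_lit 624) (nat_lit 1125902054326272) (.ev (nat_lit 788) (nat_lit 2097152) (.ev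
 (nat_lit 797) (nat_lit 137438953472) .dd)))) (.ch (nat_lit 23) (.ev (nat_lit 624) (nat_lit 1126039493279744)
 (.ev (nat_lit 637) (nat_lit 2097152) .dd)))) (.br (nat_lit 26) (.ch (nat_lit 24) (.ev (nat_lit 624) (nat_lit
 139586437120) (.ev (nat_lit 800) (nat_lit 2097152) (.ev (nat_lit 813) (nat_lit 1125899906842624) .dd)))) (.ch
 (nat_lit 26) (.ev (nat_lit 624) (nat_lit 1126037347893248) (.ev (nat_lit 637) (nat_lit 2147483648)
 .dd)))))))))))) (.ch (nat_lit 15) (.ev (nat_lit 52) (nat_lit 282164593692672) (.ev (nat_lit 84) (nat_lit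
 131072) (.ev (nat_lit 96) (nat_lit 5638579162219088) .dd))))) (.br (nat_lit 18) (.ch (nat_lit 16) (.ev
 (nat_lit 52) (nat_lit 4503739285241920) (.ev (nat_lit 84) (nat_lit 549755813888) (.ev (nat_lit 96) (nat_lit
 1416454714987024) .dd)))) (.ch (nat_lit 18) (.ev (nat_lit 52) (nat_lit 560497426496) (.ev (nat_lit 84)
 (nat_lit 4512395789598720) (.ev (nat_lit 116) (nat_lit 1125899906842624) (.ev (nat_lit 148) (nat_lit
 137438953472) (.ev (nat_lit 372) (nat_lit 32768) (.nd (nat_lit 608) (.br (nat_lit 12) (.br (nat_lit 5) (.br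
 (nat_lit 1) (.ch (nat_lit 0) (.ev (nat_lit 624) (nat_lit 281475245281808) (.ev (nat_lit 637) (nat_lit
 274877906944) .dd))) (.br (nat_lit 2) (.ch (nat_lit 1) (.ev (nat_lit 624) (nat_lit 281475245146128) (.ev
 (nat_lit 676) (nat_lit 274877907456) (.ev (nat_lit 688) (nat_lit 131072) (.ev (nat_lit 701) (nat_lit 4096)
 .dd))))) (.ch (nat_lit 2) (.ev (nat_lit 624) (nat_lit 281475245281792) (.ev (nat_lit 676) (nat_lit 16) (.ev
 (nat_lit 685) (nat_lit 274877906944) .dd)))))) (.br (nat_lit 7) (.ch (nat_lit 5) (.ev (nat_lit 624) (nat_lit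
 281474976846336) (.ev (nat_lit 676) (nat_lit 268435456) (.ev (nat_lit 704) (nat_lit 274877906944) (.ev
 (nat_lit 717) (nat_lit 16) .dd))))) (.br (nat_lit 11) (.ch (nat_lit 7) (.ev (nat_lit 624) (nat_lit
 281750123057680) (.ev (nat_lit 637) (nat_lit 131072) .dd))) (.ch (nat_lit 11) (.ev (nat_lit 624) (nat_lit
 275146347008) (.ev (nat_lit 800) (nat_lit 131072) (.ev (nat_lit 912) (nat_lit 281474976710672) .dd))))))) (.br
 (nat_lit 16) (.br (nat_lit 13) (.ch (nat_lit 12) (.ev (nat_lit 624) (nat_lit 281750123057680) (.ev (nat_lit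
 637) (nat_lit 131072) .dd))) (.br (nat_lit 15) (.ch (nat_lit 13) (.ev (nat_lit 624) (nat_lit 281475245281792)
 (.ev (nat_lit 640) (nat_lit 274877906944) (.ev (nat_lit 653) (nat_lit 16) .dd)))) (.ch (nat_lit 15) (.ev
 (nat_lit 624) (nat_lit 281750123188752) .dd)))) (.br (nat_lit 19) (.br (nat_lit 18) (.ch (nat_lit 16) (.ev
 (nat_lit 624) (nat_lit 281750123053568) (.ev (nat_lit 788) (nat_lit 131072) (.ev (nat_lit 848) (nat_lit 4096)
 (.ev (nat_lit 861) (nat_lit 16) .dd))))) (.ch (nat_lit 18) (.ev (nat_lit 624) (nat_lit 281750123057680) (.ev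
 (nat_lit 637) (nat_lit 131072) .dd)))) (.br (nat_lit 26) (.ch (nat_lit 19) (.ev (nat_lit 624) (nat_lit
 275146347024) (.ev (nat_lit 788) (nat_lit 131072) (.ev (nat_lit 797) (nat_lit 281474976710656) .dd)))) (.ch
 (nat_lit 26) (.ev (nat_lit 624) (nat_lit 281750123188752) .dd))))))))))))))) (.br (nat_lit 21) (.br (nat_lit
 20) (.ch (nat_lit 19) (.ev (nat_lit 52) (nat_lit 282299614756864) (.ev (nat_lit 84) (nat_lit 2097152) (.ev
 (nat_lit 148) (nat_lit 512) (.ev (nat_lit 276) (nat_lit 16) (.nd (nat_lit 608) (.br (nat_lit 12) (.br (nat_lit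
 5) (.br (nat_lit 1) (.ch (nat_lit 0) (.ev (nat_lit 624) (nat_lit 1134844511817792) (.ev (nat_lit 637) (nat_lit
 4503599627370496) .dd))) (.br (nat_lit 2) (.ch (nat_lit 1) (.ev (nat_lit 624) (nat_lit 5638298043158592) (.ev
 (nat_lit 676) (nat_lit 67141632) (.ev (nat_lit 768) (nat_lit 137438953472) (.ev (nat_lit 781) (nat_lit
 8589934592) .dd))))) (.ch (nat_lit 2) (.ev (nat_lit 624) (nat_lit 5638304284315712) (.ev (nat_lit 900)
 (nat_lit 268435456) (.ev (nat_lit 964) (nat_lit 2147483648) (.ev (nat_lit 973) (nat_lit 137438953472)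
 .dd))))))) (.br (nat_lit 9) (.ch (nat_lit 5) (.ev (nat_lit 624) (nat_lit 5638443803639872) (.ev (nat_lit 640)
 (nat_lit 67108864) (.ev (nat_lit 676) (nat_lit 4096) (.ev (nat_lit 685) (nat_lit 268435456) .dd))))) (.br
 (nat_lit 11) (.ch (nat_lit 9) (.ev (nat_lit 624) (nat_lit 1125910711406656) (.ev (nat_lit 676) (nat_lit
 4503737066323968) (.ev (nat_lit 1056) (nat_lit 8796093022208) (.ev (nat_lit 1069) (nat_lit 268435456) .dd)))))
 (.ch (nat_lit 11) (.ev (nat_lit 624) (nat_lit 1134706804428800) (.ev (nat_lit 788) (nat_lit 137438953472) (.ev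
 (nat_lit 912) (nat_lit 64) (.ev (nat_lit 964) (nat_lit 268435456) (.ev (nat_lit 973) (nat_lit
 4503599627370496) .dd))))))))) (.br (nat_lit 15) (.br (nat_lit 13) (.ch (nat_lit 12) (.ev (nat_lit 624)
 (nat_lit 5638306700234816) (.ev (nat_lit 637) (nat_lit 137438953472) .dd))) (.br (nat_lit 14) (.ch (nat_lit
 13) (.ev (nat_lit 624) (nat_lit 5638444072079424) (.ev (nat_lit 637) (nat_lit 67108864) .dd))) (.ch (nat_lit
 14) (.ev (nat_lit 624) (nat_lit 5629508191293440) (.ev (nat_lit 676) (nat_lit 2415919104) (.ev (nat_lit 900)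
 (nat_lit 137438953472) (.ev (nat_lit 992) (nat_lit 64) (.ev (nat_lit 1005) (nat_lit 8796093022208) .dd))))))))
 (.br (nat_lit 24) (.br (nat_lit 18) (.ch (nat_lit 15) (.ev (nat_lit 624) (nat_lit 4503747803779072) (.ev
 (nat_lit 688) (nat_lit 1125899906842624) (.ev (nat_lit 788) (nat_lit 8796093022208) (.ev (nat_lit 800)
 (nat_lit 268435456) (.ev (nat_lit 900) (nat_lit 64) (.ev (nat_lit 909) (nat_lit 67108864) .dd))))))) (.ch
 (nat_lit 18) (.ev (nat_lit 624) (nat_lit 5629647979057216) (.ev (nat_lit 800) (nat_lit 8796093022208) (.ev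
 (nat_lit 813) (nat_lit 67108864) .dd))))) (.br (nat_lit 29) (.ch (nat_lit 24) (.ev (nat_lit 624) (nat_lit
 5629645898682432) (.ev (nat_lit 1344) (nat_lit 8798240505856) .dd))) (.ch (nat_lit 29) (.ev (nat_lit 624)
 (nat_lit 1134696067006528) (.ev (nat_lit 688) (nat_lit 268435456) (.ev (nat_lit 788) (nat_lit 8589938688) (.ev
 (nat_lit 816) (nat_lit 2147483648) (.ev (nat_lit 900) (nat_lit 137438953472) (.ev (nat_lit 909) (nat_lit
 4503599627370496) .dd))))))))))))))))) (.ch (nat_lit 20) (.ev (nat_lit 52) (nat_lit 4504432853286992) (.ev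
 (nat_lit 84) (nat_lit 4194304) (.ev (nat_lit 116) (nat_lit 1125899906842624) (.ev (nat_lit 160) (nat_lit
 290410991718912) .dd)))))) (.br (nat_lit 22) (.ch (nat_lit 21) (.ev (nat_lit 52) (nat_lit 1126183645220880)
 (.ev (nat_lit 84) (nat_lit 4512395720523776) (.ev (nat_lit 116) (nat_lit 4194304) (.ev (nat_lit 148) (nat_lit
 281474976710656) (.ev (nat_lit 180) (nat_lit 2147483648) (.ev (nat_lit 276) (nat_lit 512) (.nd (nat_lit 608)
 (.br (nat_lit 12) (.br (nat_lit 5) (.br (nat_lit 1) (.ch (nat_lit 0) (.ev (nat_lit 624) (nat_lit 687261909056)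
 .dd)) (.ch (nat_lit 1) (.ev (nat_lit 624) (nat_lit 549822922816) (.ev (nat_lit 964) (nat_lit 32768) (.ev
 (nat_lit 973) (nat_lit 137438953472) .dd))))) (.br (nat_lit 9) (.ch (nat_lit 5) (.ev (nat_lit 624) (nat_lit
 687194767424) (.ev (nat_lit 676) (nat_lit 32768) (.ev (nat_lit 685) (nat_lit 67108864) .dd)))) (.ch (nat_lit
 9) (.ev (nat_lit 624) (nat_lit 687194800192) (.ev (nat_lit 637) (nat_lit 67108864) .dd))))) (.br (nat_lit 23)
 (.br (nat_lit 14) (.ch (nat_lit 12) (.ev (nat_lit 624) (nat_lit 687194800192) (.ev (nat_lit 637) (nat_lit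
 67108864) .dd))) (.ch (nat_lit 14) (.ev (nat_lit 624) (nat_lit 549822955520) (.ev (nat_lit 640) (nat_lit
 137438953472) (.ev (nat_lit 653) (nat_lit 64) .dd))))) (.br (nat_lit 26) (.ch (nat_lit 23) (.ev (nat_lit 624)
 (nat_lit 137506095168) (.ev (nat_lit 637) (nat_lit 549755813888) .dd))) (.br (nat_lit 29) (.ch (nat_lit 26)
 (.ev (nat_lit 624) (nat_lit 687261909056) .dd)) (.ch (nat_lit 29) (.ev (nat_lit 624) (nat_lit 549822922816)
 (.ev (nat_lit 964) (nat_lit 137438953472) (.ev (nat_lit 973) (nat_lit 32768) .dd)))))))))))))))) (.ch (nat_lit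
 22) (.ev (nat_lit 52) (nat_lit 1134706804523088) (.ev (nat_lit 84) (nat_lit 4503599897903104) (.ev (nat_lit
 116) (nat_lit 137438953984) (.ev (nat_lit 148) (nat_lit 281749854617600) (.ev (nat_lit 180) (nat_lit 32768)
 (.nd (nat_lit 608) (.br (nat_lit 12) (.br (nat_lit 9) (.br (nat_lit 6) (.ch (nat_lit 2) (.ev (nat_lit 624)
 (nat_lit 549755817984) (.ev (nat_lit 637) (nat_lit 4194304) .dd))) (.ch (nat_lit 6) (.ev (nat_lit 624)
 (nat_lit 4194304) (.ev (nat_lit 676) (nat_lit 4096) (.ev (nat_lit 685) (nat_lit 549755813888) .dd))))) (.br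
 (nat_lit 11) (.ch (nat_lit 9) (.ev (nat_lit 624) (nat_lit 549760012288) .dd)) (.ch (nat_lit 11) (.ev (nat_lit
 624) (nat_lit 549760012288) .dd)))) (.br (nat_lit 15) (.br (nat_lit 13) (.ch (nat_lit 12) (.ev (nat_lit 624)
 (nat_lit 549760008192) (.ev (nat_lit 637) (nat_lit 4096) .dd))) (.ch (nat_lit 13) (.ev (nat_lit 624) (nat_lit
 549760012288) .dd))) (.br (nat_lit 24) (.ch (nat_lit 15) (.ev (nat_lit 624) (nat_lit 4198400) (.ev (nat_lit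
 637) (nat_lit 549755813888) .dd))) (.br (nat_lit 29) (.ch (nat_lit 24) (.ev (nat_lit 624) (nat_lit
 549760012288) .dd)) (.ch (nat_lit 29) (.ev (nat_lit 624) (nat_lit 4194304) (.fin (nat_lit
 576434913776452258))))))))))))))))))) (.br (nat_lit 33) (.br (nat_lit 28) (.br (nat_lit 26) (.ch (nat_lit 25)
 (.ev (nat_lit 52) (nat_lit 290683726336064) (.ev (nat_lit 84) (nat_lit 4504149385281536) (.ev (nat_lit 116)
 (nat_lit 32768) (.ev (nat_lit 148) (nat_lit 8589934592) (.ev (nat_lit 180) (nat_lit 16) (.ev (nat_lit 212)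
 (nat_lit 2147483648) (.nd (nat_lit 608) (.br (nat_lit 13) (.br (nat_lit 7) (.br (nat_lit 6) (.ch (nat_lit 1)
 (.ev (nat_lit 624) (nat_lit 1125899906842624) (.ev (nat_lit 676) (nat_lit 512) (.ev (nat_lit 685) (nat_lit
 131072) .dd)))) (.ch (nat_lit 6) (.ev (nat_lit 624) (nat_lit 1125899906974208) .dd))) (.br (nat_lit 11) (.ch
 (nat_lit 7) (.ev (nat_lit 624) (nat_lit 1125899906974208) .dd)) (.ch (nat_lit 11) (.ev (nat_lit 624) (nat_lit
 1125899906974208) .dd)))) (.br (nat_lit 16) (.br (nat_lit 15) (.ch (nat_lit 13) (.ev (nat_lit 624) (nat_lit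
 1125899906973696) (.ev (nat_lit 637) (nat_lit 512) .dd))) (.ch (nat_lit 15) (.ev (nat_lit 624) (nat_lit
 1125899906974208) .dd))) (.br (nat_lit 19) (.ch (nat_lit 16) (.ev (nat_lit 624) (nat_lit 1125899906842624)
 (.fin (nat_lit 576500884442661558)))) (.br (nat_lit 24) (.ch (nat_lit 19) (.ev (nat_lit 624) (nat_lit
 1125899906843136) (.ev (nat_lit 637) (nat_lit 131072) .dd))) (.ch (nat_lit 24) (.ev (nat_lit 624) (nat_lit
 131584) (.ev (nat_lit 637) (nat_lit 1125899906842624) .dd))))))))))))))) (.br (nat_lit 27) (.ch (nat_lit 26)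
 (.ev (nat_lit 52) (nat_lit 5639128852992016) (.ev (nat_lit 84) (nat_lit 339738624) (.ev (nat_lit 148) (nat_lit
 281477124227072) (.ev (nat_lit 180) (nat_lit 64) (.nd (nat_lit 608) (.br (nat_lit 15) (.br (nat_lit 5) (.br
 (nat_lit 2) (.ch (nat_lit 0) (.ev (nat_lit 624) (nat_lit 137439085056) .dd)) (.ch (nat_lit 2) (.ev (nat_lit
 624) (nat_lit 137439085056) .dd))) (.br (nat_lit 7) (.ch (nat_lit 5) (.ev (nat_lit 624) (nat_lit 137439084544)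
 (.ev (nat_lit 637) (nat_lit 512) .dd))) (.br (nat_lit 14) (.ch (nat_lit 7) (.ev (nat_lit 624) (nat_lit
 137438953472) (.ev (nat_lit 676) (nat_lit 131072) (.ev (nat_lit 685) (nat_lit 512) .dd)))) (.ch (nat_lit 14)
 (.ev (nat_lit 624) (nat_lit 131584) (.ev (nat_lit 637) (nat_lit 137438953472) .dd)))))) (.br (nat_lit 23) (.br
 (nat_lit 16) (.ch (nat_lit 15) (.ev (nat_lit 624) (nat_lit 137439085056) .dd)) (.br (nat_lit 18) (.ch (nat_lit
 16) (.ev (nat_lit 964) (nat_lit 137438953472) (.nd (nat_lit 1392) (.br (nat_lit 15) (.ch (nat_lit 12) (.ev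
 (nat_lit 1408) (nat_lit 131584) .dd)) (.ch (nat_lit 15) (.fin (nat_lit 576500884442661558))))))) (.ch (nat_lit
 18) (.ev (nat_lit 624) (nat_lit 137439085056) .dd)))) (.br (nat_lit 24) (.ch (nat_lit 23) (.ev (nat_lit 624)
 (nat_lit 137439085056) .dd)) (.br (nat_lit 26) (.ch (nat_lit 24) (.ev (nat_lit 624) (nat_lit 137438953472)
 (.ev (nat_lit 788) (nat_lit 131072) (.ev (nat_lit 797) (nat_lit 512) .dd)))) (.ch (nat_lit 26) (.ev (nat_lit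
 624) (nat_lit 131584) (.ev (nat_lit 637) (nat_lit 137438953472) .dd))))))))))))) (.ch (nat_lit 27) (.ev
 (nat_lit 52) (nat_lit 281896219054080) (.ev (nat_lit 84) (nat_lit 549755945472) (.ev (nat_lit 116) (nat_lit
 1134695999864832) (.ev (nat_lit 148) (nat_lit 32768) (.ev (nat_lit 212) (nat_lit 16) (.ev (nat_lit 384)
 (nat_lit 2147483648) (.nd (nat_lit 608) (.br (nat_lit 12) (.br (nat_lit 5) (.br (nat_lit 2) (.ch (nat_lit 1)
 (.ev (nat_lit 624) (nat_lit 4503599627370560) (.fin (nat_lit 576448107910742551)))) (.ch (nat_lit 2) (.ev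
 (nat_lit 624) (nat_lit 4503599633662016) .dd))) (.br (nat_lit 9) (.ch (nat_lit 5) (.ev (nat_lit 624) (nat_lit
 4503599629467648) (.ev (nat_lit 676) (nat_lit 64) (.ev (nat_lit 685) (nat_lit 4194304) .dd)))) (.ch (nat_lit
 9) (.ev (nat_lit 624) (nat_lit 4194368) (.ev (nat_lit 704) (nat_lit 2097152) (.ev (nat_lit 717) (nat_lit
 4503599627370496) .dd)))))) (.br (nat_lit 15) (.br (nat_lit 13) (.ch (nat_lit 12) (.ev (nat_lit 624) (nat_lit
 4503599633662016) .dd)) (.ch (nat_lit 13) (.ev (nat_lit 624) (nat_lit 4503599633661952) (.ev (nat_lit 637)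
 (nat_lit 64) .dd)))) (.br (nat_lit 19) (.ch (nat_lit 15) (.ev (nat_lit 624) (nat_lit 4503599633661952) (.ev
 (nat_lit 637) (nat_lit 64) .dd))) (.br (nat_lit 23) (.ch (nat_lit 19) (.ev (nat_lit 624) (nat_lit 6291520)
 (.ev (nat_lit 637) (nat_lit 4503599627370496) .dd))) (.ch (nat_lit 23) (.ev (nat_lit 624) (nat_lit
 4503599631564864) (.ev (nat_lit 637) (nat_lit 2097152) .dd))))))))))))))))) (.br (nat_lit 31) (.br (nat_lit
 29) (.ch (nat_lit 28) (.ev (nat_lit 52) (nat_lit 5911672711708672) (.ev (nat_lit 84) (nat_lit 8796095119360)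
 (.ev (nat_lit 116) (nat_lit 4194304) (.nd (nat_lit 608) (.br (nat_lit 6) (.br (nat_lit 2) (.br (nat_lit 1)
 (.ch (nat_lit 0) (.ev (nat_lit 624) (nat_lit 67113552) (.ev (nat_lit 637) (nat_lit 274877906944) .dd))) (.ch
 (nat_lit 1) (.ev (nat_lit 624) (nat_lit 274945020496) .dd))) (.br (nat_lit 5) (.ch (nat_lit 2) (.ev (nat_lit
 624) (nat_lit 274945020480) (.ev (nat_lit 637) (nat_lit 16) .dd))) (.ch (nat_lit 5) (.ev (nat_lit 624)
 (nat_lit 4112) (.ev (nat_lit 788) (nat_lit 67108864) (.ev (nat_lit 800) (nat_lit 274877906944) (.fin (nat_lit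
 576465700110418516)))))))) (.br (nat_lit 9) (.br (nat_lit 7) (.ch (nat_lit 6) (.ev (nat_lit 624) (nat_lit
 274945016384) (.ev (nat_lit 676) (nat_lit 16) (.ev (nat_lit 685) (nat_lit 4096) .dd)))) (.ch (nat_lit 7) (.ev
 (nat_lit 624) (nat_lit 274945019984) (.ev (nat_lit 637) (nat_lit 512) .dd)))) (.br (nat_lit 15) (.ch (nat_lit
 9) (.ev (nat_lit 624) (nat_lit 4672) (.ev (nat_lit 788) (nat_lit 67108864) (.ev (nat_lit 816) (nat_lit
 274877906960) .dd)))) (.br (nat_lit 24) (.ch (nat_lit 15) (.ev (nat_lit 624) (nat_lit 274877911632) (.ev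
 (nat_lit 637) (nat_lit 67108864) .dd))) (.ch (nat_lit 24) (.ev (nat_lit 624) (nat_lit 274945019984) (.ev
 (nat_lit 637) (nat_lit 512) .dd)))))))))))) (.ch (nat_lit 29) (.ev (nat_lit 52) (nat_lit 5638710431318016)
 (.ev (nat_lit 84) (nat_lit 131072) (.ev (nat_lit 148) (nat_lit 512) (.ev (nat_lit 180) (nat_lit 4112) (.nd
 (nat_lit 608) (.br (nat_lit 13) (.br (nat_lit 5) (.br (nat_lit 2) (.ch (nat_lit 1) (.ev (nat_lit 624) (nat_lit
 549757943872) (.ev (nat_lit 676) (nat_lit 281474976710656) (.ev (nat_lit 685) (nat_lit 8589934592) .dd))))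
 (.ch (nat_lit 2) (.ev (nat_lit 624) (nat_lit 282033324556352) (.ev (nat_lit 637) (nat_lit 32768) .dd)))) (.br
 (nat_lit 7) (.ch (nat_lit 5) (.ev (nat_lit 624) (nat_lit 281483568775232) (.ev (nat_lit 637) (nat_lit
 549755813888) .dd))) (.br (nat_lit 11) (.ch (nat_lit 7) (.ev (nat_lit 624) (nat_lit 281483566678016) (.ev
 (nat_lit 656) (nat_lit 549755813888) (.ev (nat_lit 788) (nat_lit 64) (.ev (nat_lit 797) (nat_lit 2097152)
 .dd))))) (.ch (nat_lit 11) (.ev (nat_lit 624) (nat_lit 282024734654464) (.ev (nat_lit 788) (nat_lit 64) (.ev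
 (nat_lit 797) (nat_lit 8589934592) .dd))))))) (.br (nat_lit 23) (.br (nat_lit 14) (.ch (nat_lit 13) (.ev
 (nat_lit 624) (nat_lit 282033324589056) (.ev (nat_lit 637) (nat_lit 64) .dd))) (.br (nat_lit 16) (.ch (nat_lit
 14) (.ev (nat_lit 624) (nat_lit 281483568775168) (.ev (nat_lit 676) (nat_lit 64) (.ev (nat_lit 685) (nat_lit
 549755813888) .dd)))) (.ch (nat_lit 16) (.ev (nat_lit 624) (nat_lit 549755846656) (.ev (nat_lit 676) (nat_lit
 281483566645248) (.ev (nat_lit 788) (nat_lit 64) (.ev (nat_lit 797) (nat_lit 2097152) .dd))))))) (.br (nat_lit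
 26) (.ch (nat_lit 23) (.ev (nat_lit 624) (nat_lit 281483568742464) (.ev (nat_lit 676) (nat_lit 549755813888)
 (.ev (nat_lit 685) (nat_lit 32768) .dd)))) (.br (nat_lit 29) (.ch (nat_lit 26) (.ev (nat_lit 624) (nat_lit
 282033324556352) (.ev (nat_lit 637) (nat_lit 32768) .dd))) (.ch (nat_lit 29) (.ev (nat_lit 624) (nat_lit
 32832) (.ev (nat_lit 676) (nat_lit 8589934592) (.ev (nat_lit 736) (nat_lit 549755813888) (.ev (nat_lit 788)
 (nat_lit 2097152) (.ev (nat_lit 797) (nat_lit 281474976710656) .dd))))))))))))))))) (.br (nat_lit 32) (.ch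
 (nat_lit 31) (.ev (nat_lit 52) (nat_lit 281614902919744) (.ev (nat_lit 84) (nat_lit 8804683087872) (.ev
 (nat_lit 212) (nat_lit 1125899906846720) (.nd (nat_lit 608) (.br (nat_lit 15) (.br (nat_lit 7) (.br (nat_lit
 1) (.ch (nat_lit 0) (.ev (nat_lit 624) (nat_lit 824635818000) (.ev (nat_lit 637) (nat_lit 4503599627370496)
 .dd))) (.br (nat_lit 2) (.ch (nat_lit 1) (.ev (nat_lit 624) (nat_lit 4503599627370512) (.ev (nat_lit 788)
 (nat_lit 274877906944) (.ev (nat_lit 800) (nat_lit 549755813888) (.ev (nat_lit 813) (nat_lit 2097152) .dd)))))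
 (.ch (nat_lit 2) (.ev (nat_lit 624) (nat_lit 4504149383184384) (.ev (nat_lit 676) (nat_lit 2097152) (.ev
 (nat_lit 976) (nat_lit 16) (.ev (nat_lit 989) (nat_lit 274877906944) .dd))))))) (.br (nat_lit 9) (.ch (nat_lit
 7) (.ev (nat_lit 624) (nat_lit 16) (.ev (nat_lit 912) (nat_lit 4503599627370496) (.ev (nat_lit 976) (nat_lit
 549755813888) (.ev (nat_lit 1012) (nat_lit 2097152) (.ev (nat_lit 1021) (nat_lit 274877906944) .dd)))))) (.br
 (nat_lit 14) (.ch (nat_lit 9) (.ev (nat_lit 624) (nat_lit 4504149383184384) (.ev (nat_lit 676) (nat_lit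
 274877906944) (.ev (nat_lit 788) (nat_lit 16) (.ev (nat_lit 797) (nat_lit 2097152) .dd))))) (.ch (nat_lit 14)
 (.ev (nat_lit 624) (nat_lit 4504424263188496) .dd))))) (.br (nat_lit 23) (.br (nat_lit 18) (.ch (nat_lit 15)
 (.ev (nat_lit 624) (nat_lit 4504424263188496) .dd)) (.br (nat_lit 19) (.ch (nat_lit 18) (.ev (nat_lit 624)
 (nat_lit 824633720848) (.ev (nat_lit 676) (nat_lit 4503599627370496) (.ev (nat_lit 685) (nat_lit 2097152)
 .dd)))) (.ch (nat_lit 19) (.ev (nat_lit 624) (nat_lit 4504424261091344) (.ev (nat_lit 637) (nat_lit 2097152)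
 .dd))))) (.br (nat_lit 26) (.br (nat_lit 24) (.ch (nat_lit 23) (.ev (nat_lit 624) (nat_lit 4504149383184400)
 (.ev (nat_lit 788) (nat_lit 2097152) (.ev (nat_lit 797) (nat_lit 274877906944) .dd)))) (.ch (nat_lit 24) (.ev
 (nat_lit 624) (nat_lit 4504424263188496) .dd))) (.br (nat_lit 29) (.ch (nat_lit 26) (.ev (nat_lit 624)
 (nat_lit 4503874507374592) (.ev (nat_lit 704) (nat_lit 549755813904) .dd))) (.ch (nat_lit 29) (.ev (nat_lit
 624) (nat_lit 4504424263188496) .dd))))))))))) (.ch (nat_lit 32) (.ev (nat_lit 52) (nat_lit 4504151803428880)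
 (.ev (nat_lit 84) (nat_lit 8933534072832) (.ev (nat_lit 116) (nat_lit 4096) (.ev (nat_lit 148) (nat_lit
 8589934592) (.ev (nat_lit 212) (nat_lit 281749854617600) (.nd (nat_lit 608) (.br (nat_lit 11) (.br (nat_lit 6)
 (.br (nat_lit 5) (.ch (nat_lit 0) (.ev (nat_lit 624) (nat_lit 1125899973984832) .dd)) (.ch (nat_lit 5) (.ev
 (nat_lit 624) (nat_lit 1125899973984256) (.fin (nat_lit 576465700110418516))))) (.br (nat_lit 7) (.ch (nat_lit
 6) (.ev (nat_lit 624) (nat_lit 67142208) (.ev (nat_lit 637) (nat_lit 1125899906842624) .dd))) (.br (nat_lit 9)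
 (.ch (nat_lit 7) (.ev (nat_lit 624) (nat_lit 1125899906875968) (.ev (nat_lit 637) (nat_lit 67108864) .dd)))
 (.ch (nat_lit 9) (.ev (nat_lit 624) (nat_lit 576) (.ev (nat_lit 676) (nat_lit 32768) (.ev (nat_lit 788)
 (nat_lit 1125899906842624) (.ev (nat_lit 797) (nat_lit 67108864) .dd)))))))) (.br (nat_lit 19) (.br (nat_lit
 12) (.ch (nat_lit 11) (.ev (nat_lit 624) (nat_lit 33344) (.ev (nat_lit 688) (nat_lit 67108864) (.ev (nat_lit
 701) (nat_lit 1125899906842624) .dd)))) (.br (nat_lit 18) (.ch (nat_lit 12) (.ev (nat_lit 624) (nat_lit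
 1125899906875968) (.ev (nat_lit 637) (nat_lit 67108864) .dd))) (.ch (nat_lit 18) (.ev (nat_lit 624) (nat_lit
 67142208) (.ev (nat_lit 637) (nat_lit 1125899906842624) .dd))))) (.br (nat_lit 23) (.ch (nat_lit 19) (.ev
 (nat_lit 624) (nat_lit 1125899973984832) .dd)) (.br (nat_lit 29) (.ch (nat_lit 23) (.ev (nat_lit 624) (nat_lit
 1125899973952064) (.ev (nat_lit 637) (nat_lit 32768) .dd))) (.ch (nat_lit 29) (.ev (nat_lit 624) (nat_lit
 67142208) (.ev (nat_lit 637) (nat_lit 1125899906842624) .dd))))))))))))))))) (.br (nat_lit 42) (.br (nat_lit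
 36) (.br (nat_lit 35) (.ch (nat_lit 33) (.ev (nat_lit 52) (nat_lit 285951033408) (.ev (nat_lit 84) (nat_lit
 6291456) (.ev (nat_lit 116) (nat_lit 512) (.ev (nat_lit 148) (nat_lit 16) (.ev (nat_lit 244) (nat_lit
 281474976710656) (.ev (nat_lit 340) (nat_lit 1125899906842624) (.ev (nat_lit 400) (nat_lit 4096) (.nd (nat_lit
 608) (.br (nat_lit 13) (.br (nat_lit 7) (.br (nat_lit 1) (.ch (nat_lit 0) (.ev (nat_lit 624) (nat_lit
 9483287789568) (.ev (nat_lit 637) (nat_lit 4503599627370496) .dd))) (.ch (nat_lit 1) (.ev (nat_lit 624)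
 (nat_lit 4513082915160064) .dd))) (.br (nat_lit 9) (.ch (nat_lit 7) (.ev (nat_lit 624) (nat_lit
 4512533159346176) (.ev (nat_lit 637) (nat_lit 549755813888) .dd))) (.ch (nat_lit 9) (.ev (nat_lit 624)
 (nat_lit 4504149383184384) (.ev (nat_lit 900) (nat_lit 137438953472) (.ev (nat_lit 909) (nat_lit
 8796093022208) .dd)))))) (.br (nat_lit 18) (.br (nat_lit 15) (.ch (nat_lit 13) (.ev (nat_lit 624) (nat_lit
 4513082915160064) .dd)) (.ch (nat_lit 15) (.ev (nat_lit 624) (nat_lit 4504286822137856) (.ev (nat_lit 637)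
 (nat_lit 8796093022208) .dd)))) (.br (nat_lit 23) (.ch (nat_lit 18) (.ev (nat_lit 624) (nat_lit
 4512945476206592) (.ev (nat_lit 637) (nat_lit 137438953472) .dd))) (.br (nat_lit 26) (.ch (nat_lit 23) (.ev
 (nat_lit 624) (nat_lit 4512533159346176) (.ev (nat_lit 637) (nat_lit 549755813888) .dd))) (.ch (nat_lit 26)
 (.ev (nat_lit 676) (nat_lit 137438953472) (.ev (nat_lit 688) (nat_lit 4503599627370496) (.ev (nat_lit 788)
 (nat_lit 8796093022208) (.ev (nat_lit 797) (nat_lit 549755813888) .dd)))))))))))))))))) (.ch (nat_lit 35) (.ev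
 (nat_lit 52) (nat_lit 1407924639371840) (.ev (nat_lit 84) (nat_lit 4503599698673664) (.ev (nat_lit 96)
 (nat_lit 9219417997328) .dd))))) (.br (nat_lit 38) (.ch (nat_lit 36) (.ev (nat_lit 52) (nat_lit
 1134707074929152) (.ev (nat_lit 84) (nat_lit 4504149383315472) (.ev (nat_lit 148) (nat_lit 137438953472) (.ev
 (nat_lit 512) (nat_lit 64) (.nd (nat_lit 608) (.br (nat_lit 14) (.br (nat_lit 12) (.br (nat_lit 11) (.ch
 (nat_lit 6) (.ev (nat_lit 624) (nat_lit 281749854650368) (.ev (nat_lit 637) (nat_lit 4194304) .dd))) (.ch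
 (nat_lit 11) (.ev (nat_lit 624) (nat_lit 4227072) (.ev (nat_lit 752) (nat_lit 274877906944) (.ev (nat_lit 765)
 (nat_lit 281474976710656) .dd))))) (.br (nat_lit 13) (.ch (nat_lit 12) (.ev (nat_lit 624) (nat_lit
 281749858844672) .dd)) (.ch (nat_lit 13) (.ev (nat_lit 624) (nat_lit 281749858811904) (.ev (nat_lit 637)
 (nat_lit 32768) .dd))))) (.br (nat_lit 23) (.br (nat_lit 18) (.ch (nat_lit 14) (.ev (nat_lit 624) (nat_lit
 281749854650368) (.ev (nat_lit 637) (nat_lit 4194304) .dd))) (.ch (nat_lit 18) (.ev (nat_lit 624) (nat_lit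
 281749858844672) .dd))) (.br (nat_lit 26) (.ch (nat_lit 23) (.ev (nat_lit 624) (nat_lit 281749858844672) .dd))
 (.br (nat_lit 29) (.ch (nat_lit 26) (.ev (nat_lit 624) (nat_lit 281749854650368) (.ev (nat_lit 637) (nat_lit
 4194304) .dd))) (.ch (nat_lit 29) (.ev (nat_lit 624) (nat_lit 274882101248) (.ev (nat_lit 676) (nat_lit
 281474976710656) (.ev (nat_lit 685) (nat_lit 32768) .dd)))))))))))))) (.ch (nat_lit 38) (.ev (nat_lit 52)
 (nat_lit 5911672713642496) (.ev (nat_lit 84) (nat_lit 4194304) (.ev (nat_lit 116) (nat_lit 67141696) (.ev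
 (nat_lit 148) (nat_lit 4096) (.ev (nat_lit 320) (nat_lit 9070971060240) .dd)))))))) (.br (nat_lit 45) (.br
 (nat_lit 44) (.ch (nat_lit 42) (.ev (nat_lit 52) (nat_lit 8944273621072) (.ev (nat_lit 84) (nat_lit 268435456)
 (.ev (nat_lit 116) (nat_lit 4785074604085248) (.ev (nat_lit 192) (nat_lit 1126724609901056) .dd))))) (.ch
 (nat_lit 44) (.ev (nat_lit 52) (nat_lit 5630186800287760) (.ev (nat_lit 84) (nat_lit 2097152) (.ev (nat_lit
 116) (nat_lit 268468224) (.ev (nat_lit 148) (nat_lit 64) (.ev (nat_lit 180) (nat_lit 274877906944) (.ev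
 (nat_lit 192) (nat_lit 290281807282688) .dd)))))))) (.br (nat_lit 46) (.ch (nat_lit 45) (.ev (nat_lit 52)
 (nat_lit 5629783002219072) (.ev (nat_lit 84) (nat_lit 8796093022208) (.ev (nat_lit 96) (nat_lit
 282164660801552) .dd)))) (.ch (nat_lit 46) (.ev (nat_lit 52) (nat_lit 5919772757754448) (.ev (nat_lit 84)
 (nat_lit 67239936) (.ev (nat_lit 116) (nat_lit 412316860416) (.ev (nat_lit 212) (nat_lit 8589934592) (.nd
 (nat_lit 608) (.br (nat_lit 13) (.br (nat_lit 6) (.br (nat_lit 5) (.ch (nat_lit 1) (.ev (nat_lit 624) (nat_lit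
 268435456) (.ev (nat_lit 676) (nat_lit 549755813888) (.ev (nat_lit 685) (nat_lit 4096) .dd)))) (.ch (nat_lit
 5) (.ev (nat_lit 624) (nat_lit 549755817984) (.ev (nat_lit 637) (nat_lit 268435456) .dd)))) (.br (nat_lit 9)
 (.ch (nat_lit 6) (.ev (nat_lit 624) (nat_lit 550024253440) .dd)) (.br (nat_lit 12) (.ch (nat_lit 9) (.ev
 (nat_lit 624) (nat_lit 549755817984) (.ev (nat_lit 637) (nat_lit 268435456) .dd))) (.ch (nat_lit 12) (.ev
 (nat_lit 624) (nat_lit 550024249344) (.ev (nat_lit 637) (nat_lit 4096) .dd)))))) (.br (nat_lit 19) (.br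
 (nat_lit 16) (.ch (nat_lit 13) (.ev (nat_lit 624) (nat_lit 550024253440) .dd)) (.br (nat_lit 18) (.ch (nat_lit
 16) (.ev (nat_lit 624) (nat_lit 268435456) (.ev (nat_lit 788) (nat_lit 549755813888) (.ev (nat_lit 797)
 (nat_lit 4096) .dd)))) (.ch (nat_lit 18) (.ev (nat_lit 624) (nat_lit 550024253440) .dd)))) (.br (nat_lit 24)
 (.ch (nat_lit 19) (.ev (nat_lit 624) (nat_lit 550024253440) .dd)) (.br (nat_lit 29) (.ch (nat_lit 24) (.ev
 (nat_lit 624) (nat_lit 550024253440) .dd)) (.ch (nat_lit 29) (.ev (nat_lit 964) (nat_lit 268435456) (.nd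
 (nat_lit 1392) (.br (nat_lit 23) (.ch (nat_lit 22) (.fin (nat_lit 576434913776452258))) (.ch (nat_lit 23) (.ev
 (nat_lit 1408) (nat_lit 549755817984) .dd)))))))))))))))))))))))

/-- Subtrie. -/
noncomputable def T8 : Tr := (.ev (nat_lit 20) (nat_lit 1554437321950720) (.nd (nat_lit 33) (.br (nat_lit 25)
 (.br (nat_lit 14) (.br (nat_lit 5) (.br (nat_lit 2) (.ch (nat_lit 1) (.ev (nat_lit 52) (nat_lit
 589338517706784) (.ev (nat_lit 84) (nat_lit 68719476736) (.ev (nat_lit 148) (nat_lit 2199023321104) (.nd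
 (nat_lit 608) (.br (nat_lit 16) (.br (nat_lit 12) (.br (nat_lit 8) (.ch (nat_lit 3) (.ev (nat_lit 624)
 (nat_lit 4573976961482816) (.ev (nat_lit 637) (nat_lit 137438953472) .dd))) (.ch (nat_lit 8) (.ev (nat_lit
 624) (nat_lit 4574114400436288) .dd))) (.br (nat_lit 13) (.ch (nat_lit 12) (.ev (nat_lit 624) (nat_lit
 4574114400436288) .dd)) (.ch (nat_lit 13) (.ev (nat_lit 624) (nat_lit 4573976961482816) (.ev (nat_lit 637)
 (nat_lit 137438953472) .dd))))) (.br (nat_lit 18) (.br (nat_lit 17) (.ch (nat_lit 16) (.ev (nat_lit 624)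
 (nat_lit 4503608217305152) (.ev (nat_lit 676) (nat_lit 137438953472) (.ev (nat_lit 685) (nat_lit
 70368744177664) .dd)))) (.ch (nat_lit 17) (.ev (nat_lit 624) (nat_lit 70506183131200) (.ev (nat_lit 640)
 (nat_lit 8589934592) (.ev (nat_lit 653) (nat_lit 4503599627370496) .dd))))) (.br (nat_lit 19) (.ch (nat_lit
 18) (.ev (nat_lit 624) (nat_lit 4574114400436224) (.ev (nat_lit 637) (nat_lit 64) .dd))) (.br (nat_lit 29)
 (.ch (nat_lit 19) (.ev (nat_lit 624) (nat_lit 4503737066324032) (.ev (nat_lit 964) (nat_lit 70368744177664)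
 (.ev (nat_lit 973) (nat_lit 8589934592) .dd)))) (.ch (nat_lit 29) (.ev (nat_lit 624) (nat_lit
 4503737066324032) (.ev (nat_lit 964) (nat_lit 8589934592) (.ev (nat_lit 973) (nat_lit 70368744177664)
 .dd))))))))))))) (.br (nat_lit 3) (.ch (nat_lit 2) (.ev (nat_lit 52) (nat_lit 642260836286496) (.ev (nat_lit
 116) (nat_lit 2199291691008) (.ev (nat_lit 180) (nat_lit 4503599627370560) (.ev (nat_lit 212) (nat_lit 16)
 (.nd (nat_lit 608) (.br (nat_lit 13) (.br (nat_lit 6) (.br (nat_lit 4) (.ch (nat_lit 2) (.ev (nat_lit 624)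
 (nat_lit 17592186112000) (.ev (nat_lit 964) (nat_lit 68719476736) (.ev (nat_lit 973) (nat_lit 4096) .dd))))
 (.ch (nat_lit 4) (.ev (nat_lit 624) (nat_lit 17592186050560) (.ev (nat_lit 640) (nat_lit 68719476736) (.ev
 (nat_lit 653) (nat_lit 65536) .dd))))) (.br (nat_lit 11) (.ch (nat_lit 6) (.ev (nat_lit 624) (nat_lit
 17660905592832) .dd)) (.br (nat_lit 12) (.ch (nat_lit 11) (.ev (nat_lit 624) (nat_lit 17660905527296) (.ev
 (nat_lit 637) (nat_lit 65536) .dd))) (.ch (nat_lit 12) (.ev (nat_lit 624) (nat_lit 17660905527296) (.ev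
 (nat_lit 637) (nat_lit 65536) .dd)))))) (.br (nat_lit 19) (.br (nat_lit 16) (.ch (nat_lit 13) (.ev (nat_lit
 624) (nat_lit 17660905527296) (.ev (nat_lit 637) (nat_lit 65536) .dd))) (.br (nat_lit 18) (.ch (nat_lit 16)
 (.ev (nat_lit 624) (nat_lit 68719546368) (.fin (nat_lit 576461302078587464)))) (.ch (nat_lit 18) (.ev (nat_lit
 624) (nat_lit 17592186112000) (.ev (nat_lit 912) (nat_lit 68719476736) (.ev (nat_lit 925) (nat_lit 4096)
 .dd)))))) (.br (nat_lit 20) (.ch (nat_lit 19) (.ev (nat_lit 624) (nat_lit 17660905592832) .dd)) (.br (nat_lit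
 29) (.ch (nat_lit 20) (.ev (nat_lit 624) (nat_lit 17660905527296) (.ev (nat_lit 637) (nat_lit 65536) .dd)))
 (.ch (nat_lit 29) (.ev (nat_lit 624) (nat_lit 17660905588736) (.ev (nat_lit 637) (nat_lit 4096)
 .dd))))))))))))) (.ch (nat_lit 3) (.ev (nat_lit 52) (nat_lit 562949970270288) (.ev (nat_lit 84) (nat_lit
 68719476736) (.ev (nat_lit 116) (nat_lit 268435456) (.ev (nat_lit 160) (nat_lit 4602701702758432) .dd)))))))
 (.br (nat_lit 11) (.br (nat_lit 9) (.ch (nat_lit 5) (.ev (nat_lit 52) (nat_lit 17592186116128) (.ev (nat_lit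
 84) (nat_lit 77326188544) (.ev (nat_lit 148) (nat_lit 8796093022224) (.ev (nat_lit 180) (nat_lit
 633318697598976) (.nd (nat_lit 608) (.br (nat_lit 15) (.br (nat_lit 8) (.br (nat_lit 4) (.ch (nat_lit 2) (.ev
 (nat_lit 624) (nat_lit 4505936358014976) (.ev (nat_lit 637) (nat_lit 64) .dd))) (.ch (nat_lit 4) (.ev (nat_lit
 624) (nat_lit 4505936358015040) .dd))) (.br (nat_lit 12) (.ch (nat_lit 8) (.ev (nat_lit 624) (nat_lit
 2199291691072) (.ev (nat_lit 964) (nat_lit 137438953472) (.ev (nat_lit 973) (nat_lit 4503599627370496) .dd))))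
 (.br (nat_lit 13) (.ch (nat_lit 12) (.ev (nat_lit 624) (nat_lit 4503737066324032) (.fin (nat_lit
 576474496186663496)))) (.ch (nat_lit 13) (.ev (nat_lit 624) (nat_lit 4505798919061504) (.ev (nat_lit 640)
 (nat_lit 137438953472) (.ev (nat_lit 653) (nat_lit 64) .dd))))))) (.br (nat_lit 20) (.br (nat_lit 17) (.ch
 (nat_lit 15) (.ev (nat_lit 624) (nat_lit 4505936358014976) (.ev (nat_lit 637) (nat_lit 64) .dd))) (.br
 (nat_lit 18) (.ch (nat_lit 17) (.ev (nat_lit 624) (nat_lit 2199291691072) (.ev (nat_lit 912) (nat_lit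
 137438953472) (.ev (nat_lit 925) (nat_lit 4503599627370496) .dd)))) (.ch (nat_lit 18) (.ev (nat_lit 624)
 (nat_lit 4505936358015040) .dd)))) (.br (nat_lit 22) (.ch (nat_lit 20) (.ev (nat_lit 624) (nat_lit
 4505936358014976) (.ev (nat_lit 637) (nat_lit 64) .dd))) (.br (nat_lit 29) (.ch (nat_lit 22) (.ev (nat_lit
 624) (nat_lit 4505936358014976) (.ev (nat_lit 637) (nat_lit 64) .dd))) (.ch (nat_lit 29) (.ev (nat_lit 624)
 (nat_lit 2336730644544) (.ev (nat_lit 637) (nat_lit 4503599627370496) .dd))))))))))))) (.ch (nat_lit 9) (.ev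
 (nat_lit 52) (nat_lit 633524872808448) (.ev (nat_lit 96) (nat_lit 4532195788132464) .dd)))) (.br (nat_lit 12)
 (.ch (nat_lit 11) (.ev (nat_lit 52) (nat_lit 5093144286789712) (.ev (nat_lit 84) (nat_lit 16777216) (.ev
 (nat_lit 180) (nat_lit 70368744179712) (.ev (nat_lit 212) (nat_lit 2199023255552) (.ev (nat_lit 352) (nat_lit
 8589938720) .dd)))))) (.ch (nat_lit 12) (.ev (nat_lit 52) (nat_lit 5137056032423952) (.ev (nat_lit 96)
 (nat_lit 28664628516960) .dd)))))) (.br (nat_lit 19) (.br (nat_lit 16) (.br (nat_lit 15) (.ch (nat_lit 14)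
 (.ev (nat_lit 52) (nat_lit 4582841773981792) (.ev (nat_lit 84) (nat_lit 137438953472) (.ev (nat_lit 148)
 (nat_lit 65536) (.ev (nat_lit 212) (nat_lit 4096) (.ev (nat_lit 308) (nat_lit 2048) (.ev (nat_lit 372)
 (nat_lit 16) (.ev (nat_lit 416) (nat_lit 268435456) (.nd (nat_lit 608) (.br (nat_lit 6) (.br (nat_lit 3) (.br
 (nat_lit 2) (.ch (nat_lit 1) (.ev (nat_lit 676) (nat_lit 562949953421312) (.ev (nat_lit 688) (nat_lit
 17592186044416) (.ev (nat_lit 788) (nat_lit 16777216) (.ev (nat_lit 797) (nat_lit 2199023255552) .dd))))) (.ch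
 (nat_lit 2) (.ev (nat_lit 624) (nat_lit 582741179498496) .dd))) (.br (nat_lit 4) (.ch (nat_lit 3) (.ev
 (nat_lit 624) (nat_lit 565148993454080) (.ev (nat_lit 637) (nat_lit 17592186044416) .dd))) (.ch (nat_lit 4)
 (.ev (nat_lit 624) (nat_lit 19791226077184) (.ev (nat_lit 637) (nat_lit 562949953421312) .dd))))) (.br
 (nat_lit 12) (.br (nat_lit 9) (.ch (nat_lit 6) (.ev (nat_lit 624) (nat_lit 580542156242944) (.ev (nat_lit 637)
 (nat_lit 2199023255552) .dd))) (.ch (nat_lit 9) (.ev (nat_lit 624) (nat_lit 582741162721280) (.ev (nat_lit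
 637) (nat_lit 16777216) .dd)))) (.br (nat_lit 19) (.ch (nat_lit 12) (.ev (nat_lit 624) (nat_lit
 580542156242944) (.ev (nat_lit 637) (nat_lit 2199023255552) .dd))) (.br (nat_lit 22) (.ch (nat_lit 19) (.ev
 (nat_lit 624) (nat_lit 19791209299968) (.ev (nat_lit 900) (nat_lit 562949953421312) (.ev (nat_lit 909)
 (nat_lit 16777216) .dd)))) (.ch (nat_lit 22) (.ev (nat_lit 624) (nat_lit 582741179498496) .dd)))))))))))))))
 (.ch (nat_lit 15) (.ev (nat_lit 52) (nat_lit 70575187890176) (.ev (nat_lit 116) (nat_lit 8796093022208) (.ev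
 (nat_lit 148) (nat_lit 4503599627370528) (.ev (nat_lit 180) (nat_lit 2048) (.nd (nat_lit 608) (.br (nat_lit
 13) (.br (nat_lit 8) (.br (nat_lit 2) (.ch (nat_lit 1) (.ev (nat_lit 624) (nat_lit 17600775979088) (.ev
 (nat_lit 676) (nat_lit 2199023255552) (.ev (nat_lit 685) (nat_lit 562949953421312) .dd)))) (.br (nat_lit 4)
 (.ch (nat_lit 2) (.ev (nat_lit 624) (nat_lit 8589934608) (.ev (nat_lit 676) (nat_lit 17592186044416) (.ev
 (nat_lit 688) (nat_lit 64) (.ev (nat_lit 800) (nat_lit 562949953421312) (.ev (nat_lit 813) (nat_lit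
 2199023255552) .dd)))))) (.ch (nat_lit 4) (.ev (nat_lit 624) (nat_lit 17600775979088) (.ev (nat_lit 788)
 (nat_lit 562949953421312) (.ev (nat_lit 797) (nat_lit 2199023255552) .dd)))))) (.br (nat_lit 9) (.ch (nat_lit
 8) (.ev (nat_lit 624) (nat_lit 19799799234624) (.ev (nat_lit 676) (nat_lit 16) (.ev (nat_lit 685) (nat_lit
 562949953421312) .dd)))) (.br (nat_lit 11) (.ch (nat_lit 9) (.ev (nat_lit 624) (nat_lit 19799799234640) (.ev
 (nat_lit 637) (nat_lit 562949953421312) .dd))) (.ch (nat_lit 11) (.ev (nat_lit 624) (nat_lit 582749752655936)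
 (.ev (nat_lit 637) (nat_lit 16) .dd)))))) (.br (nat_lit 18) (.br (nat_lit 15) (.ch (nat_lit 13) (.ev (nat_lit
 624) (nat_lit 17600775979088) (.ev (nat_lit 676) (nat_lit 2199023255552) (.ev (nat_lit 685) (nat_lit
 562949953421312) .dd)))) (.br (nat_lit 17) (.ch (nat_lit 15) (.ev (nat_lit 624) (nat_lit 582741162721296) (.ev
 (nat_lit 800) (nat_lit 8589934592) (.ev (nat_lit 813) (nat_lit 64) .dd)))) (.ch (nat_lit 17) (.ev (nat_lit
 624) (nat_lit 582741162721360) (.ev (nat_lit 637) (nat_lit 8589934592) .dd))))) (.br (nat_lit 20) (.br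
 (nat_lit 19) (.ch (nat_lit 18) (.ev (nat_lit 624) (nat_lit 582749752655952) .dd)) (.ch (nat_lit 19) (.ev
 (nat_lit 624) (nat_lit 17600775979088) (.ev (nat_lit 676) (nat_lit 2199023255552) (.ev (nat_lit 685) (nat_lit
 562949953421312) .dd))))) (.br (nat_lit 22) (.ch (nat_lit 20) (.ev (nat_lit 624) (nat_lit 582749752655888)
 (.ev (nat_lit 637) (nat_lit 64) .dd))) (.ch (nat_lit 22) (.ev (nat_lit 624) (nat_lit 565157566611456) (.ev
 (nat_lit 676) (nat_lit 64) (.ev (nat_lit 788) (nat_lit 17592186044416) (.ev (nat_lit 797) (nat_lit 16)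
 .dd)))))))))))))))) (.br (nat_lit 18) (.ch (nat_lit 16) (.ev (nat_lit 52) (nat_lit 4506004809056352) (.ev
 (nat_lit 84) (nat_lit 16777216) (.ev (nat_lit 116) (nat_lit 4096) (.ev (nat_lit 148) (nat_lit 8796093022208)
 (.ev (nat_lit 180) (nat_lit 65552) (.ev (nat_lit 212) (nat_lit 70368744177664) (.nd (nat_lit 608) (.br
 (nat_lit 11) (.br (nat_lit 4) (.br (nat_lit 2) (.ch (nat_lit 1) (.ev (nat_lit 624) (nat_lit 580542407901184)
 (.ev (nat_lit 900) (nat_lit 2048) (.ev (nat_lit 909) (nat_lit 8589934592) .dd)))) (.br (nat_lit 3) (.ch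
 (nat_lit 2) (.ev (nat_lit 624) (nat_lit 580550997835776) (.ev (nat_lit 637) (nat_lit 2048) .dd))) (.ch
 (nat_lit 3) (.ev (nat_lit 624) (nat_lit 562958543357952) (.ev (nat_lit 676) (nat_lit 17592186044416) (.ev
 (nat_lit 685) (nat_lit 268435456) .dd)))))) (.br (nat_lit 7) (.ch (nat_lit 4) (.ev (nat_lit 624) (nat_lit
 580542407901184) (.ev (nat_lit 816) (nat_lit 2048) (.ev (nat_lit 829) (nat_lit 8589934592) .dd)))) (.br
 (nat_lit 9) (.ch (nat_lit 7) (.ev (nat_lit 624) (nat_lit 580542139467776) (.ev (nat_lit 640) (nat_lit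
 268435456) (.ev (nat_lit 653) (nat_lit 8589934592) .dd)))) (.ch (nat_lit 9) (.ev (nat_lit 624) (nat_lit
 580542139467776) (.ev (nat_lit 704) (nat_lit 8589934592) (.ev (nat_lit 717) (nat_lit 268435456) .dd)))))))
 (.br (nat_lit 17) (.br (nat_lit 15) (.ch (nat_lit 11) (.ev (nat_lit 624) (nat_lit 580550997835776) (.ev
 (nat_lit 637) (nat_lit 2048) .dd))) (.br (nat_lit 16) (.ch (nat_lit 15) (.ev (nat_lit 624) (nat_lit
 580550997835776) (.ev (nat_lit 637) (nat_lit 2048) .dd))) (.ch (nat_lit 16) (.ev (nat_lit 624) (nat_lit 2048)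
 (.ev (nat_lit 640) (nat_lit 562958543355904) (.ev (nat_lit 676) (nat_lit 17592186044416) (.ev (nat_lit 685)
 (nat_lit 268435456) .dd))))))) (.br (nat_lit 19) (.br (nat_lit 18) (.ch (nat_lit 17) (.ev (nat_lit 624)
 (nat_lit 580550997837824) .dd)) (.ch (nat_lit 18) (.ev (nat_lit 624) (nat_lit 580550729402368) (.ev (nat_lit
 637) (nat_lit 268435456) .dd)))) (.br (nat_lit 20) (.ch (nat_lit 19) (.ev (nat_lit 624) (nat_lit
 580550997837824) .dd)) (.ch (nat_lit 20) (.ev (nat_lit 624) (nat_lit 580550997837824) .dd)))))))))))))) (.ch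
 (nat_lit 18) (.ev (nat_lit 52) (nat_lit 650988209832000) (.ev (nat_lit 96) (nat_lit 4514732451108912) .dd)))))
 (.br (nat_lit 21) (.br (nat_lit 20) (.ch (nat_lit 19) (.ev (nat_lit 52) (nat_lit 565217712932896) (.ev
 (nat_lit 84) (nat_lit 146028888064) (.ev (nat_lit 128) (nat_lit 4600356919119952) .dd)))) (.ch (nat_lit 20)
 (.ev (nat_lit 52) (nat_lit 4574045681025104) (.ev (nat_lit 84) (nat_lit 137455730688) (.ev (nat_lit 116)
 (nat_lit 2048) (.ev (nat_lit 148) (nat_lit 562949953421344) (.nd (nat_lit 608) (.br (nat_lit 15) (.br (nat_lit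
 9) (.br (nat_lit 8) (.ch (nat_lit 1) (.ev (nat_lit 624) (nat_lit 2199291691008) (.ev (nat_lit 676) (nat_lit
 4096) (.ev (nat_lit 788) (nat_lit 8796093022208) (.ev (nat_lit 797) (nat_lit 17592186044416) .dd))))) (.ch
 (nat_lit 8) (.ev (nat_lit 624) (nat_lit 19791477739520) (.ev (nat_lit 637) (nat_lit 8796093022208) .dd))))
 (.br (nat_lit 11) (.ch (nat_lit 9) (.ev (nat_lit 624) (nat_lit 28587570757632) (.ev (nat_lit 637) (nat_lit
 4096) .dd))) (.br (nat_lit 12) (.ch (nat_lit 11) (.ev (nat_lit 624) (nat_lit 2199291695104) (.ev (nat_lit 688)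
 (nat_lit 17592186044416) (.ev (nat_lit 701) (nat_lit 8796093022208) .dd)))) (.ch (nat_lit 12) (.ev (nat_lit
 624) (nat_lit 26388279070720) (.fin (nat_lit 576474496186663496))))))) (.br (nat_lit 18) (.br (nat_lit 16)
 (.ch (nat_lit 15) (.ev (nat_lit 624) (nat_lit 19791477739520) (.ev (nat_lit 637) (nat_lit 8796093022208)
 .dd))) (.br (nat_lit 17) (.ch (nat_lit 16) (.ev (nat_lit 624) (nat_lit 10995384717312) (.ev (nat_lit 637)
 (nat_lit 17592186044416) .dd))) (.ch (nat_lit 17) (.ev (nat_lit 624) (nat_lit 19791477739520) (.ev (nat_lit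
 637) (nat_lit 8796093022208) .dd))))) (.br (nat_lit 20) (.ch (nat_lit 18) (.ev (nat_lit 624) (nat_lit
 28587570761728) .dd)) (.br (nat_lit 22) (.ch (nat_lit 20) (.ev (nat_lit 624) (nat_lit 28587570761728) .dd))
 (.ch (nat_lit 22) (.ev (nat_lit 624) (nat_lit 10995384717312) (.ev (nat_lit 637) (nat_lit 17592186044416)
 .dd)))))))))))))) (.br (nat_lit 22) (.ch (nat_lit 21) (.ev (nat_lit 52) (nat_lit 650919758862352) (.ev
 (nat_lit 84) (nat_lit 64) (.ev (nat_lit 148) (nat_lit 8796093022240) (.ev (nat_lit 288) (nat_lit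
 4506004809056256) .dd))))) (.ch (nat_lit 22) (.ev (nat_lit 52) (nat_lit 99033355976784) (.ev (nat_lit 84)
 (nat_lit 137438953472) (.ev (nat_lit 212) (nat_lit 4503599627370496) (.ev (nat_lit 432) (nat_lit 32) (.nd
 (nat_lit 608) (.br (nat_lit 12) (.br (nat_lit 7) (.br (nat_lit 3) (.ch (nat_lit 2) (.ev (nat_lit 624) (nat_lit
 562950238636032) (.ev (nat_lit 637) (nat_lit 4096) .dd))) (.ch (nat_lit 3) (.ev (nat_lit 624) (nat_lit
 562950221862912) (.ev (nat_lit 637) (nat_lit 16777216) .dd)))) (.br (nat_lit 9) (.ch (nat_lit 7) (.ev (nat_lit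
 624) (nat_lit 562949970202624) (.ev (nat_lit 676) (nat_lit 2048) (.ev (nat_lit 685) (nat_lit 268435456)
 .dd)))) (.ch (nat_lit 9) (.ev (nat_lit 624) (nat_lit 285214720) (.ev (nat_lit 800) (nat_lit 562949953425408)
 .dd))))) (.br (nat_lit 16) (.br (nat_lit 15) (.ch (nat_lit 12) (.ev (nat_lit 624) (nat_lit 562949970204672)
 (.ev (nat_lit 637) (nat_lit 268435456) .dd))) (.ch (nat_lit 15) (.ev (nat_lit 624) (nat_lit 285212672) (.ev
 (nat_lit 788) (nat_lit 562949953421312) (.ev (nat_lit 848) (nat_lit 6144) .dd))))) (.br (nat_lit 19) (.ch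
 (nat_lit 16) (.ev (nat_lit 624) (nat_lit 562950221860864) (.ev (nat_lit 676) (nat_lit 2048) (.ev (nat_lit 685)
 (nat_lit 16777216) .dd)))) (.br (nat_lit 29) (.ch (nat_lit 19) (.ev (nat_lit 624) (nat_lit 285218816) (.ev
 (nat_lit 637) (nat_lit 562949953421312) .dd))) (.ch (nat_lit 29) (.ev (nat_lit 624) (nat_lit 562949970204672)
 (.ev (nat_lit 637) (nat_lit 268435456) .dd))))))))))))))))) (.br (nat_lit 33) (.br (nat_lit 28) (.br (nat_lit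
 26) (.ch (nat_lit 25) (.ev (nat_lit 52) (nat_lit 591674963202112) (.ev (nat_lit 84) (nat_lit 8589934592) (.ev
 (nat_lit 180) (nat_lit 16) (.ev (nat_lit 192) (nat_lit 4574037107804192) .dd))))) (.br (nat_lit 27) (.ch
 (nat_lit 26) (.ev (nat_lit 52) (nat_lit 5077622006485008) (.ev (nat_lit 84) (nat_lit 137438953472) (.ev
 (nat_lit 116) (nat_lit 16777216) (.ev (nat_lit 180) (nat_lit 65568) (.nd (nat_lit 608) (.br (nat_lit 15) (.br
 (nat_lit 9) (.br (nat_lit 6) (.ch (nat_lit 3) (.ev (nat_lit 624) (nat_lit 87961198659648) .dd)) (.ch (nat_lit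
 6) (.ev (nat_lit 624) (nat_lit 87961198659648) .dd))) (.br (nat_lit 11) (.ch (nat_lit 9) (.ev (nat_lit 624)
 (nat_lit 87961198659648) .dd)) (.ch (nat_lit 11) (.ev (nat_lit 624) (nat_lit 70369012615232) (.ev (nat_lit
 637) (nat_lit 17592186044416) .dd))))) (.br (nat_lit 18) (.br (nat_lit 16) (.ch (nat_lit 15) (.ev (nat_lit
 624) (nat_lit 17592454481984) (.ev (nat_lit 637) (nat_lit 70368744177664) .dd))) (.ch (nat_lit 16) (.ev
 (nat_lit 624) (nat_lit 64) (.ev (nat_lit 788) (nat_lit 70368744177664) (.ev (nat_lit 848) (nat_lit 268435456)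
 (.fin (nat_lit 576461302078587464))))))) (.br (nat_lit 22) (.ch (nat_lit 18) (.ev (nat_lit 624) (nat_lit
 87960930224128) (.ev (nat_lit 992) (nat_lit 268435520) .dd))) (.br (nat_lit 29) (.ch (nat_lit 22) (.ev
 (nat_lit 624) (nat_lit 70369012615232) (.ev (nat_lit 637) (nat_lit 17592186044416) .dd))) (.ch (nat_lit 29)
 (.ev (nat_lit 624) (nat_lit 17592186046528) (.ev (nat_lit 816) (nat_lit 70369012613120) .dd))))))))))))) (.ch
 (nat_lit 27) (.ev (nat_lit 52) (nat_lit 2345337360416) (.ev (nat_lit 116) (nat_lit 2048) (.ev (nat_lit 128)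
 (nat_lit 5163375323578448) .dd)))))) (.br (nat_lit 31) (.br (nat_lit 29) (.ch (nat_lit 28) (.ev (nat_lit 52)
 (nat_lit 4503745924761600) (.ev (nat_lit 84) (nat_lit 16777216) (.ev (nat_lit 128) (nat_lit 661974719402096)
 .dd)))) (.ch (nat_lit 29) (.ev (nat_lit 52) (nat_lit 4512533427783680) (.ev (nat_lit 84) (nat_lit 8589934592)
 (.ev (nat_lit 116) (nat_lit 16777232) (.ev (nat_lit 180) (nat_lit 17592186048512) (.nd (nat_lit 608) (.br
 (nat_lit 15) (.br (nat_lit 8) (.br (nat_lit 4) (.ch (nat_lit 3) (.ev (nat_lit 624) (nat_lit 565217696153696)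
 (.ev (nat_lit 640) (nat_lit 65536) (.ev (nat_lit 653) (nat_lit 70368744177664) .dd)))) (.br (nat_lit 7) (.ch
 (nat_lit 4) (.ev (nat_lit 624) (nat_lit 72636486975584) (.ev (nat_lit 637) (nat_lit 562949953421312) .dd)))
 (.ch (nat_lit 7) (.ev (nat_lit 624) (nat_lit 565217696153696) (.ev (nat_lit 676) (nat_lit 70368744177664) (.ev
 (nat_lit 685) (nat_lit 65536) .dd)))))) (.br (nat_lit 9) (.ch (nat_lit 8) (.ev (nat_lit 624) (nat_lit
 72636486975584) (.ev (nat_lit 637) (nat_lit 562949953421312) .dd))) (.br (nat_lit 13) (.ch (nat_lit 9) (.ev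
 (nat_lit 624) (nat_lit 72636486975584) (.ev (nat_lit 637) (nat_lit 562949953421312) .dd))) (.ch (nat_lit 13)
 (.ev (nat_lit 624) (nat_lit 70437463654432) (.ev (nat_lit 676) (nat_lit 65600) (.ev (nat_lit 688) (nat_lit
 562949953421312) (.ev (nat_lit 701) (nat_lit 2199023255552) .dd)))))))) (.br (nat_lit 19) (.br (nat_lit 16)
 (.ch (nat_lit 15) (.ev (nat_lit 624) (nat_lit 2267742797888) (.ev (nat_lit 800) (nat_lit 562949953421312) (.ev
 (nat_lit 912) (nat_lit 70368744177696) .dd)))) (.br (nat_lit 18) (.ch (nat_lit 16) (.ev (nat_lit 624) (nat_lit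
 68719542368) (.ev (nat_lit 788) (nat_lit 562949953421312) (.ev (nat_lit 848) (nat_lit 2199023255552) (.ev
 (nat_lit 861) (nat_lit 70368744177664) .dd))))) (.ch (nat_lit 18) (.ev (nat_lit 624) (nat_lit 635586440396896)
 .dd)))) (.br (nat_lit 22) (.br (nat_lit 20) (.ch (nat_lit 19) (.ev (nat_lit 624) (nat_lit 635586440331360)
 (.ev (nat_lit 637) (nat_lit 65536) .dd))) (.ch (nat_lit 20) (.ev (nat_lit 624) (nat_lit 565148976676960) (.ev
 (nat_lit 676) (nat_lit 68719476736) (.ev (nat_lit 704) (nat_lit 65536) (.ev (nat_lit 717) (nat_lit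
 70368744177664) .dd)))))) (.br (nat_lit 29) (.ch (nat_lit 22) (.ev (nat_lit 624) (nat_lit 635586440396896)
 .dd)) (.ch (nat_lit 29) (.ev (nat_lit 624) (nat_lit 72636486975552) (.ev (nat_lit 788) (nat_lit
 562949953421312) (.ev (nat_lit 797) (nat_lit 32) .dd))))))))))))))) (.br (nat_lit 32) (.ch (nat_lit 31) (.ev
 (nat_lit 52) (nat_lit 70506468409408) (.ev (nat_lit 84) (nat_lit 8589934592) (.ev (nat_lit 116) (nat_lit 4112)
 (.ev (nat_lit 160) (nat_lit 5095205602592800) .dd))))) (.ch (nat_lit 32) (.ev (nat_lit 52) (nat_lit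
 4505867638538256) (.ev (nat_lit 84) (nat_lit 146028888064) (.ev (nat_lit 116) (nat_lit 4096) (.ev (nat_lit
 180) (nat_lit 562949953423360) (.ev (nat_lit 212) (nat_lit 64) (.ev (nat_lit 448) (nat_lit 16777216) (.nd
 (nat_lit 608) (.br (nat_lit 13) (.br (nat_lit 6) (.br (nat_lit 4) (.ch (nat_lit 1) (.ev (nat_lit 624) (nat_lit
 79164837265408) (.ev (nat_lit 900) (nat_lit 32) (.ev (nat_lit 909) (nat_lit 17592186044416) .dd)))) (.ch
 (nat_lit 4) (.ev (nat_lit 624) (nat_lit 96757023244320) (.ev (nat_lit 637) (nat_lit 65536) .dd)))) (.br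
 (nat_lit 8) (.ch (nat_lit 6) (.ev (nat_lit 624) (nat_lit 96757023309856) .dd)) (.ch (nat_lit 8) (.ev (nat_lit
 624) (nat_lit 87960930287648) (.ev (nat_lit 637) (nat_lit 8796093022208) .dd))))) (.br (nat_lit 18) (.br
 (nat_lit 17) (.ch (nat_lit 13) (.ev (nat_lit 624) (nat_lit 87960930222112) (.ev (nat_lit 676) (nat_lit 65536)
 (.ev (nat_lit 685) (nat_lit 8796093022208) .dd)))) (.ch (nat_lit 17) (.ev (nat_lit 624) (nat_lit
 96757023309824) (.ev (nat_lit 637) (nat_lit 32) .dd)))) (.br (nat_lit 19) (.ch (nat_lit 18) (.ev (nat_lit 624)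
 (nat_lit 96757023244288) (.ev (nat_lit 676) (nat_lit 32) (.ev (nat_lit 685) (nat_lit 65536) .dd)))) (.br
 (nat_lit 22) (.ch (nat_lit 19) (.ev (nat_lit 624) (nat_lit 17592186109984) (.ev (nat_lit 676) (nat_lit
 70368744177664) (.ev (nat_lit 685) (nat_lit 8796093022208) .dd)))) (.ch (nat_lit 22) (.ev (nat_lit 624)
 (nat_lit 79164837265440) (.ev (nat_lit 637) (nat_lit 17592186044416) .dd)))))))))))))))))) (.br (nat_lit 42)
 (.br (nat_lit 36) (.br (nat_lit 35) (.ch (nat_lit 33) (.ev (nat_lit 52) (nat_lit 17601061191776) (.ev (nat_lit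
 116) (nat_lit 2267742732288) (.ev (nat_lit 148) (nat_lit 65536) (.ev (nat_lit 308) (nat_lit 70368744177664)
 (.nd (nat_lit 608) (.br (nat_lit 9) (.br (nat_lit 6) (.ch (nat_lit 2) (.ev (nat_lit 624) (nat_lit
 8933531977744) (.ev (nat_lit 676) (nat_lit 4503599627370496) (.ev (nat_lit 752) (nat_lit 4096) (.ev (nat_lit
 765) (nat_lit 562949953421312) .dd))))) (.br (nat_lit 8) (.ch (nat_lit 6) (.ev (nat_lit 624) (nat_lit
 5075483112773648) .dd)) (.ch (nat_lit 8) (.ev (nat_lit 624) (nat_lit 8933531979776) (.ev (nat_lit 720)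
 (nat_lit 562949953421312) (.ev (nat_lit 816) (nat_lit 4503599627370496) (.ev (nat_lit 864) (nat_lit 16) (.ev
 (nat_lit 877) (nat_lit 2048) .dd)))))))) (.br (nat_lit 20) (.br (nat_lit 13) (.ch (nat_lit 9) (.ev (nat_lit
 624) (nat_lit 5075345673820176) (.ev (nat_lit 637) (nat_lit 137438953472) .dd))) (.ch (nat_lit 13) (.ev
 (nat_lit 624) (nat_lit 5066687019751440) (.ev (nat_lit 637) (nat_lit 8796093022208) .dd)))) (.br (nat_lit 29)
 (.ch (nat_lit 20) (.ev (nat_lit 624) (nat_lit 5075483112769552) (.ev (nat_lit 637) (nat_lit 4096) .dd))) (.ch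
 (nat_lit 29) (.ev (nat_lit 624) (nat_lit 8933531981840) (.ev (nat_lit 676) (nat_lit 562949953421312) (.ev
 (nat_lit 685) (nat_lit 4503599627370496) .dd))))))))))))) (.ch (nat_lit 35) (.ev (nat_lit 52) (nat_lit
 565217712935008) (.ev (nat_lit 84) (nat_lit 17729624997888) (.ev (nat_lit 116) (nat_lit 67584) (.ev (nat_lit
 496) (nat_lit 16) (.nd (nat_lit 608) (.br (nat_lit 8) (.br (nat_lit 6) (.br (nat_lit 4) (.ch (nat_lit 3) (.ev
 (nat_lit 624) (nat_lit 79173695569920) (.ev (nat_lit 637) (nat_lit 4503599627370496) .dd))) (.ch (nat_lit 4)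
 (.ev (nat_lit 624) (nat_lit 4582764733005824) (.ev (nat_lit 637) (nat_lit 8589934592) .dd)))) (.br (nat_lit 7)
 (.ch (nat_lit 6) (.ev (nat_lit 624) (nat_lit 4512404578762752) (.ev (nat_lit 637) (nat_lit 70368744177664)
 .dd))) (.ch (nat_lit 7) (.ev (nat_lit 624) (nat_lit 8804951392256) (.ev (nat_lit 676) (nat_lit 70368744177664)
 (.ev (nat_lit 685) (nat_lit 4503599627370496) .dd)))))) (.br (nat_lit 16) (.br (nat_lit 11) (.ch (nat_lit 8)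
 (.ev (nat_lit 624) (nat_lit 4573977229918208) (.ev (nat_lit 637) (nat_lit 8796093022208) .dd))) (.ch (nat_lit
 11) (.ev (nat_lit 624) (nat_lit 4512395988828160) (.ev (nat_lit 676) (nat_lit 8589934592) (.ev (nat_lit 685)
 (nat_lit 70368744177664) .dd))))) (.br (nat_lit 18) (.ch (nat_lit 16) (.ev (nat_lit 624) (nat_lit
 4573968639983616) (.ev (nat_lit 900) (nat_lit 8589934592) (.ev (nat_lit 909) (nat_lit 8796093022208) .dd))))
 (.br (nat_lit 20) (.ch (nat_lit 18) (.ev (nat_lit 624) (nat_lit 79173427134464) (.ev (nat_lit 676) (nat_lit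
 268435456) (.ev (nat_lit 685) (nat_lit 4503599627370496) .dd)))) (.ch (nat_lit 20) (.ev (nat_lit 624) (nat_lit
 4582773322940416) .dd))))))))))))) (.br (nat_lit 38) (.ch (nat_lit 36) (.ev (nat_lit 52) (nat_lit
 99033641127936) (.ev (nat_lit 84) (nat_lit 137438953472) (.ev (nat_lit 116) (nat_lit 32) (.ev (nat_lit 148)
 (nat_lit 65536) (.nd (nat_lit 608) (.br (nat_lit 13) (.br (nat_lit 3) (.br (nat_lit 2) (.ch (nat_lit 1) (.ev
 (nat_lit 624) (nat_lit 5066549580793936) .dd)) (.ch (nat_lit 2) (.ev (nat_lit 624) (nat_lit 562949953421312)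
 (.ev (nat_lit 788) (nat_lit 2048) (.ev (nat_lit 864) (nat_lit 16) (.ev (nat_lit 900) (nat_lit 64) (.ev
 (nat_lit 909) (nat_lit 4503599627370496) .dd))))))) (.br (nat_lit 6) (.ch (nat_lit 3) (.ev (nat_lit 624)
 (nat_lit 562949953423440) (.ev (nat_lit 637) (nat_lit 4503599627370496) .dd))) (.br (nat_lit 7) (.ch (nat_lit
 6) (.ev (nat_lit 624) (nat_lit 5066549580793936) .dd)) (.ch (nat_lit 7) (.ev (nat_lit 624) (nat_lit
 5066549580793936) .dd))))) (.br (nat_lit 20) (.br (nat_lit 16) (.ch (nat_lit 13) (.ev (nat_lit 624) (nat_lit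
 2048) (.ev (nat_lit 676) (nat_lit 562949953421312) (.ev (nat_lit 788) (nat_lit 4503599627370560) (.ev (nat_lit
 797) (nat_lit 16) .dd))))) (.br (nat_lit 19) (.ch (nat_lit 16) (.ev (nat_lit 624) (nat_lit 4503599627372624)
 (.ev (nat_lit 637) (nat_lit 562949953421312) .dd))) (.ch (nat_lit 19) (.ev (nat_lit 624) (nat_lit
 562949953423440) (.ev (nat_lit 637) (nat_lit 4503599627370496) .dd))))) (.br (nat_lit 22) (.ch (nat_lit 20)
 (.ev (nat_lit 624) (nat_lit 5066549580793872) (.ev (nat_lit 637) (nat_lit 64) .dd))) (.br (nat_lit 29) (.ch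
 (nat_lit 22) (.ev (nat_lit 624) (nat_lit 5066549580791824) (.ev (nat_lit 900) (nat_lit 2048) (.ev (nat_lit
 909) (nat_lit 64) .dd)))) (.ch (nat_lit 29) (.ev (nat_lit 624) (nat_lit 2128) (.ev (nat_lit 800) (nat_lit
 4503599627370496) (.ev (nat_lit 813) (nat_lit 562949953421312) .dd)))))))))))))) (.ch (nat_lit 38) (.ev
 (nat_lit 52) (nat_lit 4503745924696096) (.ev (nat_lit 116) (nat_lit 70368744177664) (.ev (nat_lit 148)
 (nat_lit 580542139465792) (.ev (nat_lit 180) (nat_lit 2199023255568) (.nd (nat_lit 608) (.br (nat_lit 9) (.br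
 (nat_lit 4) (.br (nat_lit 3) (.ch (nat_lit 1) (.ev (nat_lit 624) (nat_lit 8796093087744) (.ev (nat_lit 688)
 (nat_lit 68719476736) (.ev (nat_lit 788) (nat_lit 4096) (.ev (nat_lit 797) (nat_lit 16777216) .dd))))) (.ch
 (nat_lit 3) (.ev (nat_lit 624) (nat_lit 8864829345792) .dd))) (.br (nat_lit 7) (.ch (nat_lit 4) (.ev (nat_lit
 624) (nat_lit 8796109869056) (.ev (nat_lit 637) (nat_lit 68719476736) .dd))) (.br (nat_lit 8) (.ch (nat_lit 7)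
 (.ev (nat_lit 624) (nat_lit 8864829345792) .dd)) (.ch (nat_lit 8) (.ev (nat_lit 624) (nat_lit 68719546368)
 (.ev (nat_lit 676) (nat_lit 8796093022208) (.ev (nat_lit 685) (nat_lit 16777216) .dd))))))) (.br (nat_lit 13)
 (.br (nat_lit 11) (.ch (nat_lit 9) (.ev (nat_lit 624) (nat_lit 8864829345792) .dd)) (.br (nat_lit 12) (.ch
 (nat_lit 11) (.ev (nat_lit 624) (nat_lit 68719480832) (.ev (nat_lit 656) (nat_lit 8796093022208) (.ev (nat_lit
 944) (nat_lit 16842752) .dd)))) (.ch (nat_lit 12) (.ev (nat_lit 624) (nat_lit 68736323584) (.ev (nat_lit 637)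
 (nat_lit 8796093022208) .dd))))) (.br (nat_lit 16) (.ch (nat_lit 13) (.ev (nat_lit 624) (nat_lit 68736253952)
 (.ev (nat_lit 676) (nat_lit 69632) (.ev (nat_lit 685) (nat_lit 8796093022208) .dd)))) (.br (nat_lit 17) (.ch
 (nat_lit 16) (.ev (nat_lit 624) (nat_lit 68736323584) (.ev (nat_lit 637) (nat_lit 8796093022208) .dd))) (.ch
 (nat_lit 17) (.ev (nat_lit 624) (nat_lit 8864829341696) (.ev (nat_lit 637) (nat_lit 4096) .dd)))))))))))))))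
 (.br (nat_lit 45) (.br (nat_lit 44) (.ch (nat_lit 42) (.ev (nat_lit 52) (nat_lit 81509889345616) (.ev (nat_lit
 84) (nat_lit 68719476736) (.ev (nat_lit 160) (nat_lit 5084142052118560) .dd)))) (.ch (nat_lit 44) (.ev
 (nat_lit 52) (nat_lit 5139254787182608) (.ev (nat_lit 128) (nat_lit 26465873758304) .dd)))) (.br (nat_lit 46)
 (.ch (nat_lit 45) (.ev (nat_lit 52) (nat_lit 5084150356772960) (.ev (nat_lit 84) (nat_lit 68719476736) (.ev
 (nat_lit 116) (nat_lit 65536) (.ev (nat_lit 160) (nat_lit 81501584625680) .dd))))) (.ch (nat_lit 46) (.ev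
 (nat_lit 52) (nat_lit 4530056625913936) (.ev (nat_lit 84) (nat_lit 146045665280) (.ev (nat_lit 116) (nat_lit
 70368744177664) (.ev (nat_lit 148) (nat_lit 2048) (.ev (nat_lit 212) (nat_lit 268435456) (.nd (nat_lit 608)
 (.br (nat_lit 12) (.br (nat_lit 4) (.br (nat_lit 3) (.ch (nat_lit 1) (.ev (nat_lit 624) (nat_lit
 2199023325216) (.ev (nat_lit 637) (nat_lit 562949953421312) .dd))) (.ch (nat_lit 3) (.ev (nat_lit 624)
 (nat_lit 565148976746528) .dd))) (.br (nat_lit 11) (.ch (nat_lit 4) (.ev (nat_lit 624) (nat_lit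
 565148976680992) (.ev (nat_lit 637) (nat_lit 65536) .dd))) (.ch (nat_lit 11) (.ev (nat_lit 624) (nat_lit
 565148976746528) .dd)))) (.br (nat_lit 18) (.br (nat_lit 17) (.ch (nat_lit 12) (.ev (nat_lit 624) (nat_lit
 565148976746528) .dd)) (.ch (nat_lit 17) (.ev (nat_lit 624) (nat_lit 562949953490944) (.ev (nat_lit 880)
 (nat_lit 2199023255552) (.ev (nat_lit 893) (nat_lit 32) .dd))))) (.br (nat_lit 19) (.ch (nat_lit 18) (.ev
 (nat_lit 624) (nat_lit 565148976742432) (.ev (nat_lit 637) (nat_lit 4096) .dd))) (.br (nat_lit 20) (.ch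
 (nat_lit 19) (.ev (nat_lit 624) (nat_lit 565148976746528) .dd)) (.ch (nat_lit 20) (.ev (nat_lit 624) (nat_lit
 565148976746528) .dd))))))))))))))))))))

/-- Subtrie. -/
noncomputable def T19 : Tr := (.ev (nat_lit 20) (nat_lit 423312513665104) (.nd (nat_lit 33) (.br (nat_lit 25)
 (.br (nat_lit 14) (.br (nat_lit 5) (.br (nat_lit 2) (.ch (nat_lit 1) (.ev (nat_lit 52) (nat_lit
 594288539209760) (.ev (nat_lit 116) (nat_lit 137438953472) (.ev (nat_lit 148) (nat_lit 1536) (.ev (nat_lit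
 212) (nat_lit 68719476736) (.nd (nat_lit 608) (.br (nat_lit 14) (.br (nat_lit 12) (.br (nat_lit 5) (.ch
 (nat_lit 4) (.ev (nat_lit 624) (nat_lit 4576442274807808) (.ev (nat_lit 656) (nat_lit 1125899906842624) (.ev
 (nat_lit 669) (nat_lit 8589934592) .dd)))) (.ch (nat_lit 5) (.ev (nat_lit 624) (nat_lit 5702075893678080) (.ev
 (nat_lit 637) (nat_lit 274877906944) .dd)))) (.br (nat_lit 13) (.ch (nat_lit 12) (.ev (nat_lit 624) (nat_lit
 5700151748329472) (.ev (nat_lit 637) (nat_lit 2199023255552) .dd))) (.ch (nat_lit 13) (.ev (nat_lit 624)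
 (nat_lit 4574243249455104) (.ev (nat_lit 676) (nat_lit 1125899906842624) (.ev (nat_lit 788) (nat_lit
 8592031744) (.ev (nat_lit 797) (nat_lit 2199023255552) .dd))))))) (.br (nat_lit 19) (.br (nat_lit 18) (.ch
 (nat_lit 14) (.ev (nat_lit 624) (nat_lit 1198742554279936) (.ev (nat_lit 928) (nat_lit 4503599627370496) (.ev
 (nat_lit 941) (nat_lit 8589934592) .dd)))) (.ch (nat_lit 18) (.ev (nat_lit 624) (nat_lit 5631982025310208)
 (.ev (nat_lit 640) (nat_lit 70368744177664) (.ev (nat_lit 653) (nat_lit 2097152) .dd))))) (.br (nat_lit 21)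
 (.ch (nat_lit 19) (.ev (nat_lit 624) (nat_lit 5700151748329472) (.ev (nat_lit 637) (nat_lit 2199023255552)
 .dd))) (.br (nat_lit 26) (.ch (nat_lit 21) (.ev (nat_lit 624) (nat_lit 4576175986835456) (.fin (nat_lit
 576496486432850527)))) (.ch (nat_lit 26) (.ev (nat_lit 624) (nat_lit 1198751144214528) (.ev (nat_lit 637)
 (nat_lit 4503599627370496) .dd))))))))))))) (.br (nat_lit 3) (.ch (nat_lit 2) (.ev (nat_lit 52) (nat_lit
 1768435688407584) (.ev (nat_lit 64) (nat_lit 4528409780818944) .dd))) (.ch (nat_lit 3) (.ev (nat_lit 52)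
 (nat_lit 1689401782440960) (.ev (nat_lit 84) (nat_lit 2199023255552) (.ev (nat_lit 116) (nat_lit
 4503599627370496) (.ev (nat_lit 148) (nat_lit 137506062336) (.ev (nat_lit 244) (nat_lit 77309411328) (.nd
 (nat_lit 608) (.br (nat_lit 14) (.br (nat_lit 10) (.br (nat_lit 5) (.ch (nat_lit 4) (.ev (nat_lit 624)
 (nat_lit 70643890520096) (.ev (nat_lit 676) (nat_lit 262144) (.ev (nat_lit 800) (nat_lit 512) (.ev (nat_lit
 832) (nat_lit 8796093022208) (.ev (nat_lit 1028) (nat_lit 17592186044416) (.ev (nat_lit 1108) (nat_lit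
 4194304) (.ev (nat_lit 1312) (nat_lit 4398046642176) .dd)))))))) (.br (nat_lit 8) (.ch (nat_lit 5) (.ev
 (nat_lit 624) (nat_lit 79439983804960) (.ev (nat_lit 676) (nat_lit 4194304) (.ev (nat_lit 964) (nat_lit
 4398046511104) (.ev (nat_lit 1012) (nat_lit 131072) (.ev (nat_lit 1021) (nat_lit 17592186044416) .dd))))))
 (.ch (nat_lit 8) (.ev (nat_lit 624) (nat_lit 83838034509856) (.ev (nat_lit 676) (nat_lit 17592186044416) (.ev
 (nat_lit 704) (nat_lit 512) (.ev (nat_lit 717) (nat_lit 131072) .dd))))))) (.br (nat_lit 12) (.ch (nat_lit 10)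
 (.ev (nat_lit 624) (nat_lit 83838034641440) (.ev (nat_lit 637) (nat_lit 17592186044416) .dd))) (.br (nat_lit
 13) (.ch (nat_lit 12) (.ev (nat_lit 624) (nat_lit 26663425802272) (.ev (nat_lit 704) (nat_lit 512) (.ev
 (nat_lit 800) (nat_lit 4398046511104) (.ev (nat_lit 900) (nat_lit 4194304) (.ev (nat_lit 909) (nat_lit
 70368744177664) .dd)))))) (.ch (nat_lit 13) (.ev (nat_lit 624) (nat_lit 92358981321216) (.ev (nat_lit 676)
 (nat_lit 8796361457696) (.ev (nat_lit 685) (nat_lit 274877906944) .dd))))))) (.br (nat_lit 17) (.br (nat_lit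
 15) (.ch (nat_lit 14) (.ev (nat_lit 624) (nat_lit 4672929006112) (.ev (nat_lit 676) (nat_lit 87960930222080)
 (.ev (nat_lit 788) (nat_lit 268435456) (.ev (nat_lit 797) (nat_lit 8796093022208) .dd))))) (.br (nat_lit 16)
 (.ch (nat_lit 15) (.ev (nat_lit 624) (nat_lit 97032169980448) (.ev (nat_lit 676) (nat_lit 4194304) (.ev
 (nat_lit 685) (nat_lit 4398046511104) .dd)))) (.ch (nat_lit 16) (.ev (nat_lit 624) (nat_lit 97031905739264)
 (.ev (nat_lit 640) (nat_lit 4398046511104) (.ev (nat_lit 900) (nat_lit 268435456) (.ev (nat_lit 909) (nat_lit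
 32) .dd))))))) (.br (nat_lit 21) (.br (nat_lit 18) (.ch (nat_lit 17) (.ev (nat_lit 624) (nat_lit
 83563156603392) (.ev (nat_lit 676) (nat_lit 274877906944) (.ev (nat_lit 788) (nat_lit 17592186044416) (.ev
 (nat_lit 864) (nat_lit 131104) .dd))))) (.ch (nat_lit 18) (.ev (nat_lit 624) (nat_lit 101429952250368) (.ev
 (nat_lit 676) (nat_lit 268435456) (.ev (nat_lit 685) (nat_lit 32) .dd))))) (.br (nat_lit 22) (.ch (nat_lit 21)
 (.ev (nat_lit 624) (nat_lit 79439983804960) (.ev (nat_lit 800) (nat_lit 4398046511104) (.ev (nat_lit 964)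
 (nat_lit 17592186044416) (.ev (nat_lit 1072) (nat_lit 131072) (.ev (nat_lit 1085) (nat_lit 4194304) .dd))))))
 (.ch (nat_lit 22) (.ev (nat_lit 624) (nat_lit 26663429997088) (.ev (nat_lit 676) (nat_lit 70368744177664) (.ev
 (nat_lit 685) (nat_lit 4398046511104) .dd))))))))))))))))) (.br (nat_lit 11) (.br (nat_lit 9) (.ch (nat_lit 5)
 (.ev (nat_lit 52) (nat_lit 18419040653856) (.ev (nat_lit 84) (nat_lit 1125908496777216) (.ev (nat_lit 116)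
 (nat_lit 2268011167744) (.ev (nat_lit 212) (nat_lit 137439084544) (.nd (nat_lit 608) (.br (nat_lit 19) (.br
 (nat_lit 12) (.br (nat_lit 10) (.ch (nat_lit 4) (.ev (nat_lit 624) (nat_lit 5136918342008832) (.ev (nat_lit
 688) (nat_lit 8796093022208) (.ev (nat_lit 900) (nat_lit 4398046511104) (.ev (nat_lit 909) (nat_lit 1024)
 .dd))))) (.ch (nat_lit 10) (.ev (nat_lit 624) (nat_lit 5141316371743744) (.ev (nat_lit 788) (nat_lit 16777216)
 (.ev (nat_lit 797) (nat_lit 8796093022208) .dd))))) (.br (nat_lit 14) (.ch (nat_lit 12) (.ev (nat_lit 624)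
 (nat_lit 4512395720654848) (.ev (nat_lit 676) (nat_lit 1024) (.ev (nat_lit 900) (nat_lit 567347999932416) (.ev
 (nat_lit 928) (nat_lit 70368760954880) .dd))))) (.ch (nat_lit 14) (.ev (nat_lit 624) (nat_lit
 5079743737365504) (.ev (nat_lit 637) (nat_lit 70368744177664) .dd))))) (.br (nat_lit 22) (.br (nat_lit 20)
 (.ch (nat_lit 19) (.ev (nat_lit 624) (nat_lit 5150112481281024) (.ev (nat_lit 637) (nat_lit 262144) .dd)))
 (.ch (nat_lit 20) (.ev (nat_lit 624) (nat_lit 5145714434769920) (.ev (nat_lit 676) (nat_lit 262144) (.ev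
 (nat_lit 685) (nat_lit 4398046511104) .dd))))) (.br (nat_lit 24) (.ch (nat_lit 22) (.ev (nat_lit 624) (nat_lit
 5079743737365504) (.ev (nat_lit 637) (nat_lit 70368744177664) .dd))) (.br (nat_lit 26) (.ch (nat_lit 24) (.ev
 (nat_lit 624) (nat_lit 83562900751360) (.ev (nat_lit 640) (nat_lit 4503599627370496) (.ev (nat_lit 653)
 (nat_lit 562949953421312) .dd)))) (.ch (nat_lit 26) (.ev (nat_lit 624) (nat_lit 646512837132288) (.ev (nat_lit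
 656) (nat_lit 1024) (.ev (nat_lit 720) (nat_lit 4503599627370496) (.ev (nat_lit 900) (nat_lit 262144) (.ev
 (nat_lit 909) (nat_lit 16777216) .dd)))))))))))))))) (.ch (nat_lit 9) (.ev (nat_lit 52) (nat_lit
 638197803910656) (.ev (nat_lit 84) (nat_lit 8796093026304) (.ev (nat_lit 116) (nat_lit 2147483648) (.ev
 (nat_lit 148) (nat_lit 1125899906842656) (.ev (nat_lit 180) (nat_lit 549755813888) (.ev (nat_lit 212) (nat_lit
 2199291691008) (.nd (nat_lit 608) (.br (nat_lit 14) (.br (nat_lit 7) (.br (nat_lit 4) (.ch (nat_lit 3) (.ev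
 (nat_lit 624) (nat_lit 8657043456) (.fin (nat_lit 576544864991658538)))) (.ch (nat_lit 4) (.ev (nat_lit 624)
 (nat_lit 4521200470458368) .dd))) (.br (nat_lit 8) (.ch (nat_lit 7) (.ev (nat_lit 624) (nat_lit
 4521191880523776) (.ev (nat_lit 637) (nat_lit 8589934592) .dd))) (.ch (nat_lit 8) (.ev (nat_lit 624) (nat_lit
 4521200403349504) (.ev (nat_lit 637) (nat_lit 67108864) .dd))))) (.br (nat_lit 19) (.br (nat_lit 15) (.ch
 (nat_lit 14) (.ev (nat_lit 624) (nat_lit 4521200470458368) .dd)) (.ch (nat_lit 15) (.ev (nat_lit 624) (nat_lit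
 17600843087872) (.ev (nat_lit 637) (nat_lit 4503599627370496) .dd)))) (.br (nat_lit 22) (.ch (nat_lit 19) (.ev
 (nat_lit 624) (nat_lit 4521200470458368) .dd)) (.br (nat_lit 24) (.ch (nat_lit 22) (.ev (nat_lit 624) (nat_lit
 4503608284413952) (.ev (nat_lit 637) (nat_lit 17592186044416) .dd))) (.ch (nat_lit 24) (.ev (nat_lit 624)
 (nat_lit 8657043456) (.ev (nat_lit 676) (nat_lit 4503599627370496) (.ev (nat_lit 685) (nat_lit 17592186044416)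
 .dd))))))))))))))))) (.br (nat_lit 12) (.ch (nat_lit 11) (.ev (nat_lit 52) (nat_lit 5097817217696256) (.ev
 (nat_lit 96) (nat_lit 1199028251530272) .dd))) (.ch (nat_lit 12) (.ev (nat_lit 52) (nat_lit 6262956006704128)
 (.ev (nat_lit 64) (nat_lit 33889462522400) .dd)))))) (.br (nat_lit 19) (.br (nat_lit 16) (.br (nat_lit 15)
 (.ch (nat_lit 14) (.ev (nat_lit 52) (nat_lit 4583666479006240) (.ev (nat_lit 116) (nat_lit 567348002160640)
 (.ev (nat_lit 180) (nat_lit 285212672) (.ev (nat_lit 212) (nat_lit 17592186044416) (.nd (nat_lit 608) (.br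
 (nat_lit 13) (.br (nat_lit 8) (.br (nat_lit 5) (.ch (nat_lit 4) (.ev (nat_lit 624) (nat_lit 1128101077585920)
 (.ev (nat_lit 676) (nat_lit 262144) (.ev (nat_lit 704) (nat_lit 137438953472) (.ev (nat_lit 717) (nat_lit
 1024) .dd))))) (.br (nat_lit 7) (.ch (nat_lit 5) (.ev (nat_lit 624) (nat_lit 139586441216) (.ev (nat_lit 676)
 (nat_lit 262144) (.ev (nat_lit 800) (nat_lit 1125899906842624) (.ev (nat_lit 900) (nat_lit 2199023255552) (.ev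
 (nat_lit 909) (nat_lit 1024) .dd)))))) (.ch (nat_lit 7) (.ev (nat_lit 624) (nat_lit 139586704384) (.ev
 (nat_lit 676) (nat_lit 2199023255552) (.ev (nat_lit 685) (nat_lit 1125899906842624) .dd)))))) (.br (nat_lit
 10) (.ch (nat_lit 8) (.ev (nat_lit 624) (nat_lit 1128238516802560) .dd)) (.br (nat_lit 12) (.ch (nat_lit 10)
 (.ev (nat_lit 624) (nat_lit 1128238516801536) (.ev (nat_lit 637) (nat_lit 1024) .dd))) (.ch (nat_lit 12) (.ev
 (nat_lit 624) (nat_lit 139586441216) (.ev (nat_lit 1046) (nat_lit 1128098930361344) .dd)))))) (.br (nat_lit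
 18) (.br (nat_lit 14) (.ch (nat_lit 13) (.ev (nat_lit 624) (nat_lit 2147750912) (.ev (nat_lit 704) (nat_lit
 137438953472) (.ev (nat_lit 788) (nat_lit 2199023255552) (.ev (nat_lit 797) (nat_lit 1125899906842624)
 .dd))))) (.br (nat_lit 16) (.ch (nat_lit 14) (.ev (nat_lit 624) (nat_lit 1128238516798464) (.ev (nat_lit 637)
 (nat_lit 4096) .dd))) (.ch (nat_lit 16) (.ev (nat_lit 624) (nat_lit 2338609959936) (.ev (nat_lit 637) (nat_lit
 1125899906842624) .dd))))) (.br (nat_lit 22) (.br (nat_lit 21) (.ch (nat_lit 18) (.ev (nat_lit 624) (nat_lit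
 2338609959936) (.ev (nat_lit 637) (nat_lit 1125899906842624) .dd))) (.ch (nat_lit 21) (.ev (nat_lit 624)
 (nat_lit 1128238516797440) (.ev (nat_lit 832) (nat_lit 5120) .dd)))) (.br (nat_lit 26) (.ch (nat_lit 22) (.ev
 (nat_lit 676) (nat_lit 2147483648) (.ev (nat_lit 800) (nat_lit 5120) (.ev (nat_lit 976) (nat_lit 137438953472)
 (.ev (nat_lit 1072) (nat_lit 2199023255552) (.ev (nat_lit 1360) (nat_lit 1125899907104768) .dd)))))) (.ch
 (nat_lit 26) (.ev (nat_lit 624) (nat_lit 1128238516539392) (.ev (nat_lit 676) (nat_lit 262144) (.ev (nat_lit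
 685) (nat_lit 1024) .dd)))))))))))))) (.ch (nat_lit 15) (.ev (nat_lit 52) (nat_lit 71127097414656) (.ev
 (nat_lit 64) (nat_lit 6225718371811872) .dd)))) (.br (nat_lit 18) (.ch (nat_lit 16) (.ev (nat_lit 52) (nat_lit
 4506007028236320) (.ev (nat_lit 64) (nat_lit 1790838440990208) .dd))) (.ch (nat_lit 18) (.ev (nat_lit 52)
 (nat_lit 651540117323776) (.ev (nat_lit 84) (nat_lit 274877906944) (.ev (nat_lit 116) (nat_lit 5120) (.ev
 (nat_lit 148) (nat_lit 268435488) (.ev (nat_lit 180) (nat_lit 137506455552) (.ev (nat_lit 212) (nat_lit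
 4398046511104) (.nd (nat_lit 608) (.br (nat_lit 14) (.br (nat_lit 10) (.br (nat_lit 8) (.ch (nat_lit 7) (.ev
 (nat_lit 624) (nat_lit 4503599629467648) (.ev (nat_lit 676) (nat_lit 1128098930098176) (.ev (nat_lit 788)
 (nat_lit 512) (.ev (nat_lit 797) (nat_lit 8796093022208) .dd))))) (.ch (nat_lit 8) (.ev (nat_lit 624) (nat_lit
 5640494652588032) (.ev (nat_lit 637) (nat_lit 512) .dd)))) (.br (nat_lit 12) (.ch (nat_lit 10) (.ev (nat_lit
 624) (nat_lit 5631698557468672) (.ev (nat_lit 656) (nat_lit 2097152) (.ev (nat_lit 788) (nat_lit 512) (.ev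
 (nat_lit 797) (nat_lit 8796093022208) .dd))))) (.br (nat_lit 13) (.ch (nat_lit 12) (.ev (nat_lit 624) (nat_lit
 4512395722490368) (.ev (nat_lit 676) (nat_lit 1125899906842624) (.ev (nat_lit 685) (nat_lit 2199023255552)
 .dd)))) (.ch (nat_lit 13) (.ev (nat_lit 624) (nat_lit 4503599627371008) (.ev (nat_lit 676) (nat_lit
 2199023255552) (.ev (nat_lit 736) (nat_lit 2097152) (.ev (nat_lit 788) (nat_lit 8796093022208) (.ev (nat_lit
 797) (nat_lit 1125899906842624) .dd))))))))) (.br (nat_lit 19) (.br (nat_lit 15) (.ch (nat_lit 14) (.ev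
 (nat_lit 624) (nat_lit 1136895025218048) (.ev (nat_lit 637) (nat_lit 4503599627370496) .dd))) (.br (nat_lit
 18) (.ch (nat_lit 15) (.ev (nat_lit 624) (nat_lit 1136895023120896) (.ev (nat_lit 676) (nat_lit 2097152) (.ev
 (nat_lit 685) (nat_lit 4503599627370496) .dd)))) (.ch (nat_lit 18) (.ev (nat_lit 624) (nat_lit
 5640494650490880) (.ev (nat_lit 676) (nat_lit 512) (.ev (nat_lit 685) (nat_lit 2097152) .dd)))))) (.br
 (nat_lit 21) (.ch (nat_lit 19) (.ev (nat_lit 624) (nat_lit 5638295629332480) (.ev (nat_lit 788) (nat_lit 512)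
 (.ev (nat_lit 797) (nat_lit 2199023255552) .dd)))) (.br (nat_lit 22) (.ch (nat_lit 21) (.ev (nat_lit 624)
 (nat_lit 5640494650491392) (.ev (nat_lit 637) (nat_lit 2097152) .dd))) (.ch (nat_lit 22) (.ev (nat_lit 624)
 (nat_lit 1136895025218048) (.ev (nat_lit 637) (nat_lit 4503599627370496) .dd))))))))))))))))) (.br (nat_lit
 21) (.br (nat_lit 20) (.ch (nat_lit 19) (.ev (nat_lit 52) (nat_lit 566042350978080) (.ev (nat_lit 116)
 (nat_lit 74904229904384) (.ev (nat_lit 148) (nat_lit 67108864) (.ev (nat_lit 212) (nat_lit 2097664) (.ev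
 (nat_lit 340) (nat_lit 17592186044416) (.nd (nat_lit 608) (.br (nat_lit 16) (.br (nat_lit 8) (.br (nat_lit 4)
 (.ch (nat_lit 3) (.ev (nat_lit 624) (nat_lit 4503608485744640) (.ev (nat_lit 676) (nat_lit 1125899906842624)
 (.ev (nat_lit 1280) (nat_lit 8798240505856) .dd)))) (.br (nat_lit 7) (.ch (nat_lit 4) (.ev (nat_lit 624)
 (nat_lit 4503599895810048) (.ev (nat_lit 676) (nat_lit 1134695999864832) (.ev (nat_lit 1188) (nat_lit
 2147483648) (.ev (nat_lit 1197) (nat_lit 8589934592) .dd))))) (.ch (nat_lit 7) (.ev (nat_lit 624) (nat_lit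
 8589938688) (.ev (nat_lit 676) (nat_lit 1134695999864832) (.ev (nat_lit 688) (nat_lit 2147483648) (.ev
 (nat_lit 788) (nat_lit 4503599627370496) (.ev (nat_lit 797) (nat_lit 268435456) .dd)))))))) (.br (nat_lit 12)
 (.ch (nat_lit 8) (.ev (nat_lit 624) (nat_lit 5638298043158528) (.ev (nat_lit 637) (nat_lit 8589934592) .dd)))
 (.br (nat_lit 14) (.ch (nat_lit 12) (.ev (nat_lit 624) (nat_lit 4512406726250496) (.ev (nat_lit 637) (nat_lit
 1125899906842624) .dd))) (.ch (nat_lit 14) (.ev (nat_lit 624) (nat_lit 5638295895670784) (.ev (nat_lit 800)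
 (nat_lit 2147483648) (.ev (nat_lit 816) (nat_lit 8589934592) (.ev (nat_lit 829) (nat_lit 4096) .dd))))))))
 (.br (nat_lit 20) (.br (nat_lit 18) (.ch (nat_lit 16) (.ev (nat_lit 624) (nat_lit 4512395720396800) (.ev
 (nat_lit 676) (nat_lit 1125902054326272) (.ev (nat_lit 1136) (nat_lit 268435456) (.ev (nat_lit 1149) (nat_lit
 8589934592) .dd))))) (.br (nat_lit 19) (.ch (nat_lit 18) (.ev (nat_lit 624) (nat_lit 5629510271635456) (.ev
 (nat_lit 1188) (nat_lit 268435456) (.ev (nat_lit 1197) (nat_lit 8796093022208) .dd)))) (.ch (nat_lit 19) (.ev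
 (nat_lit 624) (nat_lit 5638306364657664) (.ev (nat_lit 637) (nat_lit 268435456) .dd))))) (.br (nat_lit 22)
 (.br (nat_lit 21) (.ch (nat_lit 20) (.ev (nat_lit 624) (nat_lit 5638304485605376) (.ev (nat_lit 676) (nat_lit
 4096) (.ev (nat_lit 685) (nat_lit 2147483648) .dd)))) (.ch (nat_lit 21) (.ev (nat_lit 624) (nat_lit
 5638298043158528) (.ev (nat_lit 637) (nat_lit 8589934592) .dd)))) (.br (nat_lit 24) (.ch (nat_lit 22) (.ev
 (nat_lit 624) (nat_lit 8804951396352) (.ev (nat_lit 676) (nat_lit 4503601774854144) (.ev (nat_lit 685)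
 (nat_lit 1125899906842624) .dd)))) (.ch (nat_lit 24) (.ev (nat_lit 624) (nat_lit 8806830444544) (.ev (nat_lit
 676) (nat_lit 5629499534213120) (.ev (nat_lit 685) (nat_lit 268435456) .dd))))))))))))))) (.ch (nat_lit 20)
 (.ev (nat_lit 52) (nat_lit 4574870316908544) (.ev (nat_lit 84) (nat_lit 4096) (.ev (nat_lit 116) (nat_lit
 562949970198528) (.ev (nat_lit 148) (nat_lit 8796093284352) (.ev (nat_lit 212) (nat_lit 1143492164190208) (.ev
 (nat_lit 244) (nat_lit 2199023255552) (.nd (nat_lit 608) (.br (nat_lit 15) (.br (nat_lit 8) (.br (nat_lit 7)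
 (.ch (nat_lit 4) (.ev (nat_lit 624) (nat_lit 4535753901600) (.ev (nat_lit 637) (nat_lit 2147483648) .dd)))
 (.ch (nat_lit 7) (.ev (nat_lit 624) (nat_lit 137438953984) (.ev (nat_lit 676) (nat_lit 1056) (.ev (nat_lit
 900) (nat_lit 268435456) (.nd (nat_lit 1392) (.br (nat_lit 23) (.ch (nat_lit 12) (.fin (nat_lit
 576474496210780707))) (.ch (nat_lit 23) (.ev (nat_lit 1408) (nat_lit 4400193994752) .dd))))))))) (.br (nat_lit
 10) (.ch (nat_lit 8) (.ev (nat_lit 624) (nat_lit 4537901385216) (.ev (nat_lit 637) (nat_lit 32) .dd))) (.br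
 (nat_lit 12) (.ch (nat_lit 10) (.ev (nat_lit 624) (nat_lit 4537632948256) (.ev (nat_lit 688) (nat_lit 512)
 (.ev (nat_lit 912) (nat_lit 268435456) (.ev (nat_lit 925) (nat_lit 1024) .dd))))) (.ch (nat_lit 12) (.ev
 (nat_lit 624) (nat_lit 4537632949280) (.ev (nat_lit 676) (nat_lit 512) (.ev (nat_lit 685) (nat_lit 268435456)
 .dd))))))) (.br (nat_lit 20) (.br (nat_lit 17) (.ch (nat_lit 15) (.ev (nat_lit 624) (nat_lit 4537901384736)
 (.ev (nat_lit 637) (nat_lit 512) .dd))) (.br (nat_lit 19) (.ch (nat_lit 17) (.ev (nat_lit 624) (nat_lit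
 2415920128) (.ev (nat_lit 676) (nat_lit 4398046511104) (.ev (nat_lit 736) (nat_lit 512) (.ev (nat_lit 900)
 (nat_lit 32) (.ev (nat_lit 909) (nat_lit 137438953472) .dd)))))) (.ch (nat_lit 19) (.ev (nat_lit 624) (nat_lit
 4400462430240) (.ev (nat_lit 656) (nat_lit 137438953472) (.ev (nat_lit 676) (nat_lit 512) (.ev (nat_lit 685)
 (nat_lit 1024) .dd))))))) (.br (nat_lit 21) (.ch (nat_lit 20) (.ev (nat_lit 624) (nat_lit 4535485466144) (.ev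
 (nat_lit 640) (nat_lit 2415919104) .dd))) (.br (nat_lit 24) (.ch (nat_lit 21) (.ev (nat_lit 624) (nat_lit
 4537901385248) .dd)) (.ch (nat_lit 24) (.ev (nat_lit 624) (nat_lit 4537632949792) (.ev (nat_lit 637) (nat_lit
 268435456) .dd)))))))))))))))) (.br (nat_lit 22) (.ch (nat_lit 21) (.ev (nat_lit 52) (nat_lit
 1781492592153600) (.ev (nat_lit 64) (nat_lit 4515352877072928) .dd))) (.ch (nat_lit 22) (.ev (nat_lit 52)
 (nat_lit 1224935477477376) (.ev (nat_lit 84) (nat_lit 4096) (.ev (nat_lit 116) (nat_lit 4398046511104) (.ev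
 (nat_lit 148) (nat_lit 5066549580791808) (.ev (nat_lit 180) (nat_lit 550026347520) (.ev (nat_lit 244) (nat_lit
 274877906944) (.ev (nat_lit 464) (nat_lit 16777216) (.nd (nat_lit 608) (.br (nat_lit 14) (.br (nat_lit 8) (.br
 (nat_lit 5) (.ch (nat_lit 4) (.ev (nat_lit 624) (nat_lit 544) (.ev (nat_lit 788) (nat_lit 4194304) (.ev
 (nat_lit 848) (nat_lit 137439215616) .dd)))) (.ch (nat_lit 5) (.ev (nat_lit 624) (nat_lit 137443410432) (.ev
 (nat_lit 637) (nat_lit 32) .dd)))) (.br (nat_lit 12) (.ch (nat_lit 8) (.ev (nat_lit 624) (nat_lit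
 137443409952) (.ev (nat_lit 637) (nat_lit 512) .dd))) (.ch (nat_lit 12) (.ev (nat_lit 624) (nat_lit
 137443409952) (.ev (nat_lit 637) (nat_lit 512) .dd))))) (.br (nat_lit 18) (.br (nat_lit 15) (.ch (nat_lit 14)
 (.ev (nat_lit 624) (nat_lit 137439216160) (.ev (nat_lit 637) (nat_lit 4194304) .dd))) (.ch (nat_lit 15) (.ev
 (nat_lit 624) (nat_lit 4456480) (.ev (nat_lit 676) (nat_lit 512) (.ev (nat_lit 685) (nat_lit 137438953472)
 .dd))))) (.br (nat_lit 20) (.ch (nat_lit 18) (.ev (nat_lit 624) (nat_lit 137443148320) (.ev (nat_lit 637)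
 (nat_lit 262144) .dd))) (.br (nat_lit 22) (.ch (nat_lit 20) (.ev (nat_lit 624) (nat_lit 137438954016) (.ev
 (nat_lit 800) (nat_lit 4456448) .dd))) (.ch (nat_lit 22) (.ev (nat_lit 624) (nat_lit 4456960) (.ev (nat_lit
 676) (nat_lit 137438953472) (.ev (nat_lit 685) (nat_lit 32) .dd))))))))))))))))))))) (.br (nat_lit 33) (.br
 (nat_lit 28) (.br (nat_lit 26) (.ch (nat_lit 25) (.ev (nat_lit 52) (nat_lit 591949912346624) (.ev (nat_lit 64)
 (nat_lit 5704895556879904) .dd))) (.br (nat_lit 27) (.ch (nat_lit 26) (.ev (nat_lit 52) (nat_lit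
 6208744595656704) (.ev (nat_lit 84) (nat_lit 4194304) (.ev (nat_lit 116) (nat_lit 17592253154304) (.ev
 (nat_lit 148) (nat_lit 16777728) (.ev (nat_lit 340) (nat_lit 131072) (.ev (nat_lit 480) (nat_lit 262144) (.nd
 (nat_lit 608) (.br (nat_lit 16) (.br (nat_lit 10) (.ch (nat_lit 7) (.ev (nat_lit 624) (nat_lit 139854872576)
 (.ev (nat_lit 752) (nat_lit 70368744177664) (.ev (nat_lit 765) (nat_lit 32) .dd)))) (.br (nat_lit 15) (.ch
 (nat_lit 10) (.ev (nat_lit 624) (nat_lit 70506183131168) (.ev (nat_lit 676) (nat_lit 268435456) (.ev (nat_lit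
 685) (nat_lit 2147483648) .dd)))) (.ch (nat_lit 15) (.ev (nat_lit 624) (nat_lit 70371160096800) (.ev (nat_lit
 637) (nat_lit 137438953472) .dd))))) (.br (nat_lit 21) (.br (nat_lit 20) (.ch (nat_lit 16) (.ev (nat_lit 624)
 (nat_lit 70506183131136) (.ev (nat_lit 676) (nat_lit 2147483680) (.ev (nat_lit 685) (nat_lit 268435456)
 .dd)))) (.ch (nat_lit 20) (.ev (nat_lit 624) (nat_lit 70506183131168) (.ev (nat_lit 676) (nat_lit 2147483648)
 (.ev (nat_lit 685) (nat_lit 268435456) .dd))))) (.br (nat_lit 22) (.ch (nat_lit 21) (.ev (nat_lit 624)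
 (nat_lit 70508599050272) .dd)) (.ch (nat_lit 22) (.ev (nat_lit 624) (nat_lit 139854872608) (.ev (nat_lit 637)
 (nat_lit 70368744177664) .dd)))))))))))))) (.ch (nat_lit 27) (.ev (nat_lit 52) (nat_lit 7018328888352) (.ev
 (nat_lit 84) (nat_lit 1125899906842624) (.ev (nat_lit 116) (nat_lit 2152071168) (.ev (nat_lit 148) (nat_lit
 68719476736) (.ev (nat_lit 276) (nat_lit 512) (.ev (nat_lit 308) (nat_lit 549755813888) (.nd (nat_lit 608)
 (.br (nat_lit 16) (.br (nat_lit 10) (.br (nat_lit 7) (.ch (nat_lit 3) (.ev (nat_lit 624) (nat_lit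
 642114792718336) (.ev (nat_lit 676) (nat_lit 4503599627370496) (.ev (nat_lit 685) (nat_lit 17592186044416)
 .dd)))) (.br (nat_lit 8) (.ch (nat_lit 7) (.ev (nat_lit 624) (nat_lit 642114792718336) (.ev (nat_lit 676)
 (nat_lit 4503599627370496) (.ev (nat_lit 685) (nat_lit 17592186044416) .dd)))) (.ch (nat_lit 8) (.ev (nat_lit
 624) (nat_lit 4582764466667520) (.ev (nat_lit 676) (nat_lit 17592186044416) (.ev (nat_lit 685) (nat_lit
 562949953421312) .dd)))))) (.br (nat_lit 13) (.ch (nat_lit 10) (.ev (nat_lit 624) (nat_lit 5163306604036096)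
 (.ev (nat_lit 637) (nat_lit 2097152) .dd))) (.br (nat_lit 14) (.ch (nat_lit 13) (.ev (nat_lit 624) (nat_lit
 5154510511013888) (.ev (nat_lit 800) (nat_lit 2097152) (.ev (nat_lit 813) (nat_lit 8796093022208) .dd)))) (.ch
 (nat_lit 14) (.ev (nat_lit 624) (nat_lit 642114792718336) (.ev (nat_lit 788) (nat_lit 17592186044416) (.ev
 (nat_lit 797) (nat_lit 4503599627370496) .dd))))))) (.br (nat_lit 19) (.br (nat_lit 17) (.ch (nat_lit 16) (.ev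
 (nat_lit 624) (nat_lit 642114792718336) (.ev (nat_lit 676) (nat_lit 17592186044416) (.ev (nat_lit 685)
 (nat_lit 4503599627370496) .dd)))) (.br (nat_lit 18) (.ch (nat_lit 17) (.ev (nat_lit 624) (nat_lit
 562949955518464) (.ev (nat_lit 676) (nat_lit 70368744177664) (.ev (nat_lit 688) (nat_lit 8796093022208) (.ev
 (nat_lit 800) (nat_lit 17592186044416) (.ev (nat_lit 813) (nat_lit 4503599627370496) .dd)))))) (.ch (nat_lit
 18) (.ev (nat_lit 624) (nat_lit 4521191815512064) (.ev (nat_lit 676) (nat_lit 8796093022208) (.ev (nat_lit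
 788) (nat_lit 70368744177664) (.ev (nat_lit 797) (nat_lit 562949953421312) .dd))))))) (.br (nat_lit 22) (.br
 (nat_lit 21) (.ch (nat_lit 19) (.ev (nat_lit 624) (nat_lit 4600356652711936) (.ev (nat_lit 637) (nat_lit
 562949953421312) .dd))) (.ch (nat_lit 21) (.ev (nat_lit 624) (nat_lit 5154510513111040) (.ev (nat_lit 637)
 (nat_lit 8796093022208) .dd)))) (.br (nat_lit 24) (.ch (nat_lit 22) (.ev (nat_lit 624) (nat_lit
 5145714420088832) (.ev (nat_lit 637) (nat_lit 17592186044416) .dd))) (.ch (nat_lit 24) (.ev (nat_lit 624)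
 (nat_lit 5163306606133248) .dd)))))))))))))))) (.br (nat_lit 31) (.br (nat_lit 29) (.ch (nat_lit 28) (.ev
 (nat_lit 52) (nat_lit 5630197734966272) (.ev (nat_lit 84) (nat_lit 4096) (.ev (nat_lit 148) (nat_lit 32) (.ev
 (nat_lit 212) (nat_lit 16777216) (.ev (nat_lit 308) (nat_lit 67108864) (.ev (nat_lit 372) (nat_lit
 562949953421312) (.nd (nat_lit 608) (.br (nat_lit 13) (.br (nat_lit 8) (.br (nat_lit 4) (.ch (nat_lit 3) (.ev
 (nat_lit 624) (nat_lit 86105510641664) (.ev (nat_lit 640) (nat_lit 512) (.ev (nat_lit 676) (nat_lit 262144)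
 (.ev (nat_lit 685) (nat_lit 17592186044416) .dd))))) (.br (nat_lit 7) (.ch (nat_lit 4) (.ev (nat_lit 624)
 (nat_lit 75041675149312) (.ev (nat_lit 688) (nat_lit 8796093022208) (.ev (nat_lit 788) (nat_lit 68719476736)
 (.ev (nat_lit 800) (nat_lit 17592186044416) (.ev (nat_lit 900) (nat_lit 2199023255552) (.ev (nat_lit 909)
 (nat_lit 512) .dd))))))) (.ch (nat_lit 7) (.ev (nat_lit 624) (nat_lit 79164843753984) (.ev (nat_lit 676)
 (nat_lit 17867063951360) (.ev (nat_lit 900) (nat_lit 4398046511104) (.ev (nat_lit 992) (nat_lit 2199023255552)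
 (.ev (nat_lit 1005) (nat_lit 68719476736) .dd)))))))) (.br (nat_lit 10) (.ch (nat_lit 8) (.ev (nat_lit 624)
 (nat_lit 103354099565056) (.ev (nat_lit 1232) (nat_lit 343597383680) .dd))) (.br (nat_lit 12) (.ch (nat_lit
 10) (.ev (nat_lit 624) (nat_lit 103697696948224) (.ev (nat_lit 637) (nat_lit 512) .dd))) (.ch (nat_lit 12)
 (.ev (nat_lit 624) (nat_lit 81432586486272) (.ev (nat_lit 900) (nat_lit 17592186044416) (.ev (nat_lit 964)
 (nat_lit 274877906944) (.ev (nat_lit 973) (nat_lit 4398046511104) .dd)))))))) (.br (nat_lit 18) (.br (nat_lit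
 15) (.ch (nat_lit 13) (.ev (nat_lit 624) (nat_lit 99299650437632) (.ev (nat_lit 637) (nat_lit 4398046511104)
 .dd))) (.br (nat_lit 16) (.ch (nat_lit 15) (.ev (nat_lit 624) (nat_lit 99299644145664) (.ev (nat_lit 676)
 (nat_lit 2097664) (.ev (nat_lit 768) (nat_lit 4398046511104) (.ev (nat_lit 781) (nat_lit 4194304) .dd)))))
 (.ch (nat_lit 16) (.ev (nat_lit 624) (nat_lit 9139696960000) (.ev (nat_lit 788) (nat_lit 4398046511104) (.ev
 (nat_lit 912) (nat_lit 2199023255552) (.ev (nat_lit 964) (nat_lit 17592186044416) (.ev (nat_lit 973) (nat_lit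
 70368744177664) .dd)))))))) (.br (nat_lit 24) (.br (nat_lit 22) (.ch (nat_lit 18) (.ev (nat_lit 624) (nat_lit
 33328952771072) (.ev (nat_lit 637) (nat_lit 70368744177664) .dd))) (.ch (nat_lit 22) (.ev (nat_lit 624)
 (nat_lit 11270000738816) (.ev (nat_lit 676) (nat_lit 74766790688768) (.ev (nat_lit 1136) (nat_lit 68719476736)
 (.ev (nat_lit 1149) (nat_lit 17592186044416) .dd)))))) (.br (nat_lit 26) (.ch (nat_lit 24) (.ev (nat_lit 624)
 (nat_lit 11063837852160) (.ev (nat_lit 688) (nat_lit 17592186044416) (.ev (nat_lit 788) (nat_lit 4456448) (.ev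
 (nat_lit 816) (nat_lit 274877906944) (.ev (nat_lit 900) (nat_lit 4398046511104) (.ev (nat_lit 909) (nat_lit
 70368744177664) .dd))))))) (.ch (nat_lit 26) (.ev (nat_lit 624) (nat_lit 103628977471488) (.ev (nat_lit 800)
 (nat_lit 68719476736) (.ev (nat_lit 813) (nat_lit 512) .dd)))))))))))))))) (.ch (nat_lit 29) (.ev (nat_lit 52)
 (nat_lit 5638710431319040) (.ev (nat_lit 64) (nat_lit 658135037907488) .dd)))) (.br (nat_lit 32) (.ch (nat_lit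
 31) (.ev (nat_lit 52) (nat_lit 70508687131136) (.ev (nat_lit 64) (nat_lit 6226336782095392) .dd))) (.ch
 (nat_lit 32) (.ev (nat_lit 52) (nat_lit 4510817592673280) (.ev (nat_lit 84) (nat_lit 4096) (.ev (nat_lit 116)
 (nat_lit 2097184) (.ev (nat_lit 148) (nat_lit 1125899973951488) (.ev (nat_lit 180) (nat_lit 17592186044416)
 (.ev (nat_lit 212) (nat_lit 70368744177664) (.ev (nat_lit 560) (nat_lit 274877906944) (.nd (nat_lit 608) (.br
 (nat_lit 16) (.br (nat_lit 12) (.br (nat_lit 5) (.ch (nat_lit 3) (.ev (nat_lit 624) (nat_lit 8942138688000)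
 (.ev (nat_lit 900) (nat_lit 262144) (.ev (nat_lit 909) (nat_lit 562949953421312) .dd)))) (.ch (nat_lit 5) (.ev
 (nat_lit 624) (nat_lit 137438953984) (.ev (nat_lit 676) (nat_lit 8589934592) (.ev (nat_lit 788) (nat_lit
 16777216) (.ev (nat_lit 880) (nat_lit 8796093022208) (.ev (nat_lit 1012) (nat_lit 562949953421312) (.ev
 (nat_lit 1021) (nat_lit 262144) .dd)))))))) (.br (nat_lit 14) (.ch (nat_lit 12) (.ev (nat_lit 624) (nat_lit
 571892092109312) (.ev (nat_lit 637) (nat_lit 262144) .dd))) (.br (nat_lit 15) (.ch (nat_lit 14) (.ev (nat_lit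
 624) (nat_lit 563087409414656) (.ev (nat_lit 688) (nat_lit 8796093022208) (.ev (nat_lit 701) (nat_lit
 8589934592) .dd)))) (.ch (nat_lit 15) (.ev (nat_lit 624) (nat_lit 571746063482880) (.ev (nat_lit 640) (nat_lit
 8589934592) (.ev (nat_lit 656) (nat_lit 512) (.ev (nat_lit 669) (nat_lit 137438953472) .dd)))))))) (.br
 (nat_lit 22) (.br (nat_lit 17) (.ch (nat_lit 16) (.ev (nat_lit 624) (nat_lit 571892092371456) .dd)) (.br
 (nat_lit 19) (.ch (nat_lit 17) (.ev (nat_lit 624) (nat_lit 562958543618048) (.ev (nat_lit 656) (nat_lit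
 137438953472) (.ev (nat_lit 676) (nat_lit 16777216) (.ev (nat_lit 800) (nat_lit 8796093022208) (.ev (nat_lit
 813) (nat_lit 512) .dd)))))) (.ch (nat_lit 19) (.ev (nat_lit 624) (nat_lit 571754653417984) (.ev (nat_lit 637)
 (nat_lit 137438953472) .dd))))) (.br (nat_lit 24) (.ch (nat_lit 22) (.ev (nat_lit 624) (nat_lit
 571754653417984) (.ev (nat_lit 637) (nat_lit 137438953472) .dd))) (.br (nat_lit 26) (.ch (nat_lit 24) (.ev
 (nat_lit 624) (nat_lit 8804699734528) (.ev (nat_lit 676) (nat_lit 562949953683456) (.ev (nat_lit 685) (nat_lit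
 137438953472) .dd)))) (.ch (nat_lit 26) (.ev (nat_lit 624) (nat_lit 571892092371456) .dd))))))))))))))))))
 (.br (nat_lit 42) (.br (nat_lit 36) (.br (nat_lit 35) (.ch (nat_lit 33) (.ev (nat_lit 52) (nat_lit
 17878154085408) (.ev (nat_lit 64) (nat_lit 6278967315141120) .dd))) (.ch (nat_lit 35) (.ev (nat_lit 52)
 (nat_lit 1691667375591968) (.ev (nat_lit 64) (nat_lit 4605178093634560) .dd)))) (.br (nat_lit 38) (.ch
 (nat_lit 36) (.ev (nat_lit 52) (nat_lit 1229333811433984) (.ev (nat_lit 84) (nat_lit 32) (.ev (nat_lit 116)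
 (nat_lit 131072) (.ev (nat_lit 148) (nat_lit 4503599627370496) (.ev (nat_lit 180) (nat_lit 562949953421312)
 (.ev (nat_lit 244) (nat_lit 274877906944) (.nd (nat_lit 608) (.br (nat_lit 16) (.br (nat_lit 12) (.br (nat_lit
 7) (.ch (nat_lit 4) (.ev (nat_lit 624) (nat_lit 687194768384) (.ev (nat_lit 637) (nat_lit 4194304) .dd))) (.ch
 (nat_lit 7) (.ev (nat_lit 624) (nat_lit 137443148800) (.ev (nat_lit 637) (nat_lit 549755813888) .dd)))) (.br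
 (nat_lit 13) (.ch (nat_lit 12) (.ev (nat_lit 624) (nat_lit 687198962688) .dd)) (.ch (nat_lit 13) (.ev (nat_lit
 624) (nat_lit 549760009216) (.ev (nat_lit 637) (nat_lit 137438953472) .dd))))) (.br (nat_lit 20) (.br (nat_lit
 18) (.ch (nat_lit 16) (.ev (nat_lit 624) (nat_lit 687198962688) .dd)) (.ch (nat_lit 18) (.ev (nat_lit 624)
 (nat_lit 687198962688) .dd))) (.br (nat_lit 24) (.ch (nat_lit 20) (.ev (nat_lit 624) (nat_lit 549755814912)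
 (.ev (nat_lit 676) (nat_lit 4194304) (.ev (nat_lit 685) (nat_lit 137438953472) .dd)))) (.br (nat_lit 26) (.ch
 (nat_lit 24) (.ev (nat_lit 624) (nat_lit 549755814912) (.fin (nat_lit 576566855213728358)))) (.ch (nat_lit 26)
 (.ev (nat_lit 624) (nat_lit 687198961664) (.ev (nat_lit 637) (nat_lit 1024) .dd))))))))))))))) (.ch (nat_lit
 38) (.ev (nat_lit 52) (nat_lit 5634595783705120) (.ev (nat_lit 64) (nat_lit 662249685521408) .dd))))) (.br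
 (nat_lit 45) (.br (nat_lit 44) (.ch (nat_lit 42) (.ev (nat_lit 52) (nat_lit 85910087795712) (.ev (nat_lit 84)
 (nat_lit 68721573888) (.ev (nat_lit 180) (nat_lit 16777216) (.nd (nat_lit 608) (.br (nat_lit 14) (.br (nat_lit
 8) (.br (nat_lit 7) (.ch (nat_lit 3) (.ev (nat_lit 624) (nat_lit 563774922822176) (.ev (nat_lit 788) (nat_lit
 1125899906842624) (.fin (nat_lit 576544864991658538))))) (.ch (nat_lit 7) (.ev (nat_lit 624) (nat_lit
 1126724876243488) (.ev (nat_lit 676) (nat_lit 4521191813414912) (.ev (nat_lit 685) (nat_lit 562949953421312)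
 .dd))))) (.br (nat_lit 10) (.ch (nat_lit 8) (.ev (nat_lit 624) (nat_lit 5647916689526784) (.ev (nat_lit 676)
 (nat_lit 131072) (.ev (nat_lit 788) (nat_lit 32) (.ev (nat_lit 864) (nat_lit 512) (.ev (nat_lit 877) (nat_lit
 562949953421312) .dd)))))) (.br (nat_lit 13) (.ch (nat_lit 10) (.ev (nat_lit 624) (nat_lit 6210316820025888)
 (.ev (nat_lit 640) (nat_lit 549755813888) (.ev (nat_lit 688) (nat_lit 67108864) (.ev (nat_lit 701) (nat_lit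
 131072) .dd))))) (.ch (nat_lit 13) (.ev (nat_lit 624) (nat_lit 6210316618826240) (.ev (nat_lit 676) (nat_lit
 268435456) (.ev (nat_lit 688) (nat_lit 4096) (.ev (nat_lit 964) (nat_lit 549755813888) (.ev (nat_lit 973)
 (nat_lit 32) .dd))))))))) (.br (nat_lit 20) (.br (nat_lit 16) (.ch (nat_lit 14) (.ev (nat_lit 624) (nat_lit
 1688850195939872) (.ev (nat_lit 788) (nat_lit 4521466691321856) (.ev (nat_lit 900) (nat_lit 4096) (.ev
 (nat_lit 909) (nat_lit 549755813888) .dd))))) (.br (nat_lit 18) (.ch (nat_lit 16) (.ev (nat_lit 624) (nat_lit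
 6210866374644224) (.ev (nat_lit 676) (nat_lit 268435456) (.ev (nat_lit 685) (nat_lit 32) .dd)))) (.ch (nat_lit
 18) (.ev (nat_lit 624) (nat_lit 4522016782815232) (.ev (nat_lit 640) (nat_lit 1688849860263968) (.ev (nat_lit
 653) (nat_lit 512) .dd)))))) (.br (nat_lit 21) (.ch (nat_lit 20) (.ev (nat_lit 624) (nat_lit 6210866374644256)
 (.ev (nat_lit 637) (nat_lit 268435456) .dd))) (.br (nat_lit 26) (.ch (nat_lit 21) (.ev (nat_lit 624) (nat_lit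
 4521741904773664) (.ev (nat_lit 676) (nat_lit 4096) (.ev (nat_lit 800) (nat_lit 562949953421312) (.ev (nat_lit
 944) (nat_lit 131072) (.fin (nat_lit 576426117688672801))))))) (.ch (nat_lit 26) (.ev (nat_lit 624) (nat_lit
 1144316995179040) (.ev (nat_lit 676) (nat_lit 562950020530176) (.ev (nat_lit 685) (nat_lit 4503599627370496)
 .dd))))))))))))) (.ch (nat_lit 44) (.ev (nat_lit 52) (nat_lit 6270102567654400) (.ev (nat_lit 96) (nat_lit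
 26742901572128) .dd)))) (.br (nat_lit 46) (.ch (nat_lit 45) (.ev (nat_lit 52) (nat_lit 6210325141914144) (.ev
 (nat_lit 116) (nat_lit 268436480) (.ev (nat_lit 148) (nat_lit 8796093022208) (.nd (nat_lit 608) (.br (nat_lit
 15) (.br (nat_lit 5) (.br (nat_lit 4) (.ch (nat_lit 3) (.ev (nat_lit 624) (nat_lit 77517803229184) (.ev
 (nat_lit 676) (nat_lit 137443147776) (.ev (nat_lit 685) (nat_lit 68719476736) .dd)))) (.ch (nat_lit 4) (.ev
 (nat_lit 624) (nat_lit 75456218927104) (.ev (nat_lit 676) (nat_lit 2267742732288) (.ev (nat_lit 685) (nat_lit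
 4194304) .dd))))) (.br (nat_lit 7) (.ch (nat_lit 5) (.ev (nat_lit 624) (nat_lit 7215563935744) (.ev (nat_lit
 788) (nat_lit 139590631424) (.ev (nat_lit 900) (nat_lit 70368744177664) (.ev (nat_lit 909) (nat_lit 67108864)
 .dd))))) (.br (nat_lit 10) (.ch (nat_lit 7) (.ev (nat_lit 624) (nat_lit 2886291427328) (.ev (nat_lit 676)
 (nat_lit 70368744177664) (.ev (nat_lit 800) (nat_lit 68719476736) (.ev (nat_lit 944) (nat_lit 16777216) (.fin
 (nat_lit 576448107910742621))))))) (.ch (nat_lit 10) (.ev (nat_lit 624) (nat_lit 77174207942656) (.ev (nat_lit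
 676) (nat_lit 549755813888) (.ev (nat_lit 685) (nat_lit 2097152) .dd))))))) (.br (nat_lit 21) (.br (nat_lit
 18) (.ch (nat_lit 15) (.ev (nat_lit 624) (nat_lit 73257197764608) (.ev (nat_lit 640) (nat_lit 4466768084992)
 (.ev (nat_lit 653) (nat_lit 4096) .dd)))) (.br (nat_lit 20) (.ch (nat_lit 18) (.ev (nat_lit 624) (nat_lit
 6805396656128) (.ev (nat_lit 676) (nat_lit 549755813888) (.ev (nat_lit 688) (nat_lit 70368744177664) (.ev
 (nat_lit 964) (nat_lit 67108864) (.ev (nat_lit 973) (nat_lit 2097152) .dd)))))) (.ch (nat_lit 20) (.ev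
 (nat_lit 624) (nat_lit 77174210039808) (.ev (nat_lit 637) (nat_lit 549755813888) .dd))))) (.br (nat_lit 24)
 (.ch (nat_lit 21) (.ev (nat_lit 624) (nat_lit 77655227498496) (.ev (nat_lit 676) (nat_lit 16777216) (.ev
 (nat_lit 788) (nat_lit 2097152) (.ev (nat_lit 864) (nat_lit 4096) (.ev (nat_lit 877) (nat_lit 68719476736)
 .dd)))))) (.br (nat_lit 26) (.ch (nat_lit 24) (.ev (nat_lit 624) (nat_lit 73188476194816) (.ev (nat_lit 788)
 (nat_lit 4398046511104) (.fin (nat_lit 576566855213728358))))) (.ch (nat_lit 26) (.ev (nat_lit 624) (nat_lit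
 75524858712064) (.ev (nat_lit 640) (nat_lit 67108864) (.ev (nat_lit 688) (nat_lit 2199023255552) (.ev (nat_lit
 701) (nat_lit 16777216) .dd)))))))))))))) (.ch (nat_lit 46) (.ev (nat_lit 52) (nat_lit 5655958686533120) (.ev
 (nat_lit 64) (nat_lit 640886782693408) .dd))))))))))

/-- The trie. -/
noncomputable def T : Tr := .nd (nat_lit 1000000) (.br (nat_lit 9) (.br (nat_lit 5) (.br (nat_lit 3) (.br
 (nat_lit 1) (.ch (nat_lit 0) (.ev (nat_lit 0) (nat_lit 9007199254740991) .dd)) (.ch (nat_lit 1) T1)) (.br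
 (nat_lit 4) (.ch (nat_lit 3) (.ev (nat_lit 0) (nat_lit 9007199254740991) .dd)) (.ch (nat_lit 4) T4))) (.br
 (nat_lit 7) (.br (nat_lit 6) (.ch (nat_lit 5) (.ev (nat_lit 0) (nat_lit 9007199254740991) .dd)) (.ch (nat_lit
 6) T6)) (.br (nat_lit 8) (.ch (nat_lit 7) (.ev (nat_lit 0) (nat_lit 9007199254740991) .dd)) (.ch (nat_lit 8)
 T8)))) (.br (nat_lit 16) (.br (nat_lit 11) (.br (nat_lit 10) (.ch (nat_lit 9) (.ev (nat_lit 0) (nat_lit
 9007199254740991) .dd)) (.ch (nat_lit 10) (.ev (nat_lit 0) (nat_lit 9007199254740991) .dd))) (.br (nat_lit 12)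
 (.ch (nat_lit 11) (.ev (nat_lit 0) (nat_lit 9007199254740991) .dd)) (.ch (nat_lit 12) (.ev (nat_lit 0)
 (nat_lit 9007199254740991) .dd)))) (.br (nat_lit 19) (.br (nat_lit 17) (.ch (nat_lit 16) (.ev (nat_lit 0)
 (nat_lit 9007199254740991) .dd)) (.ch (nat_lit 17) (.ev (nat_lit 0) (nat_lit 9007199254740991) .dd))) (.br
 (nat_lit 30) (.ch (nat_lit 19) T19) (.ch (nat_lit 30) (.ev (nat_lit 0) (nat_lit 9007199254740991) .dd))))))

/-- The possible values. -/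
noncomputable def oks : List ℕ := [706, 3010, 25690]

/-- The parameters. -/
noncomputable def S : Pr := ⟨fun i l e => lget mz (lget [] (lget [] tabs i) l) e, oks, [(nat_lit 0), (nat_lit
 1), (nat_lit 0), (nat_lit 0)], T, (nat_lit 9007199254740991), (nat_lit 2287041271849359), (nat_lit 53),
 [(nat_lit 1073946281), (nat_lit 12800101590481)], [(nat_lit 29791), (nat_lit 2209)]⟩

/-- Nothing known. -/
noncomputable def cs0 : Cs := (.cons (nat_lit 31) (nat_lit 0) (nat_lit 1) (.cons (nat_lit 47) (nat_lit 0) (nat_lit 1) .nil))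

theorem part_1 : part S cs0 (nat_lit 1) = true := by decide +kernel

theorem part_4 : part S cs0 (nat_lit 4) = true := by decide +kernel

theorem part_6 : part S cs0 (nat_lit 6) = true := by decide +kernel

theorem part_8 : part S cs0 (nat_lit 8) = true := by decide +kernel

theorem part_19 : part S cs0 (nat_lit 19) = true := by decide +kernel

/-- Data of a prime. -/
noncomputable def D0 : PD := ⟨(nat_lit 31), (nat_lit 3), (16772, 8, 13), (22384, 27737, 22381), (13159, 15341, 21428)⟩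

theorem D0_ok : D0.Ok := pdb_sound (s := 3) (C := ⟨⟨11, 26, -43, -19, 34, 32, -12, -3, -1⟩, (11, 12, 19)⟩) (by show Nat.Prime 31; norm_num) (by decide +kernel)

/-- Lines of the first type. -/
noncomputable def Cl0 : List C1 := [⟨⟨-11, -26, -32, 19, -34, 13, 12, 3, -13⟩, (22, 24, 7)⟩,
  ⟨⟨0, 0, 0, 0, 0, 0, 0, 0, 0⟩, (0, 0, 0)⟩,
  ⟨⟨0, 0, 0, 0, 0, 0, 0, 0, 0⟩, (0, 0, 0)⟩,
  ⟨⟨29, 26, -37, 21, 6, 32, 8, -11, -7⟩, (2, 10, 23)⟩,
  ⟨⟨0, 0, 0, 0, 0, 0, 0, 0, 0⟩, (0, 0, 0)⟩,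
  ⟨⟨21, 6, -53, 29, 26, 8, 8, -11, -1⟩, (6, 26, 20)⟩,
  ⟨⟨0, 0, 0, 0, 0, 0, 0, 0, 0⟩, (0, 0, 0)⟩,
  ⟨⟨29, -26, -37, 21, -6, 32, 8, 11, -7⟩, (27, 11, 16)⟩,
  ⟨⟨0, 0, 0, 0, 0, 0, 0, 0, 0⟩, (0, 0, 0)⟩,
  ⟨⟨-9, -6, -43, -41, 14, 28, 4, 13, -5⟩, (4, 1, 12)⟩,
  ⟨⟨9, -6, -52, -41, -14, 13, -4, 13, -1⟩, (29, 16, 25)⟩,
  ⟨⟨21, -6, -53, 29, -26, 8, 8, 11, -1⟩, (7, 20, 13)⟩,
  ⟨⟨9, 6, -52, -41, 14, 13, -4, -13, -1⟩, (28, 24, 22)⟩,
  ⟨⟨0, 0, 0, 0, 0, 0, 0, 0, 0⟩, (0, 0, 0)⟩,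
  ⟨⟨0, 0, 0, 0, 0, 0, 0, 0, 0⟩, (0, 0, 0)⟩,
  ⟨⟨0, 0, 0, 0, 0, 0, 0, 0, 0⟩, (0, 0, 0)⟩,
  ⟨⟨11, -26, -43, -19, -34, 32, -12, 3, -1⟩, (25, 16, 15)⟩,
  ⟨⟨-9, 6, -43, -41, -14, 28, 4, -13, -5⟩, (3, 24, 9)⟩,
  ⟨⟨0, 0, 0, 0, 0, 0, 0, 0, 0⟩, (0, 0, 0)⟩,
  ⟨⟨0, 0, 0, 0, 0, 0, 0, 0, 0⟩, (0, 0, 0)⟩,
  ⟨⟨0, 0, 0, 0, 0, 0, 0, 0, 0⟩, (0, 0, 0)⟩,
  ⟨⟨0, 0, 0, 0, 0, 0, 0, 0, 0⟩, (0, 0, 0)⟩,
  ⟨⟨0, 0, 0, 0, 0, 0, 0, 0, 0⟩, (0, 0, 0)⟩,
  ⟨⟨0, 0, 0, 0, 0, 0, 0, 0, 0⟩, (0, 0, 0)⟩,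
  ⟨⟨0, 0, 0, 0, 0, 0, 0, 0, 0⟩, (0, 0, 0)⟩,
  ⟨⟨0, 0, 0, 0, 0, 0, 0, 0, 0⟩, (0, 0, 0)⟩,
  ⟨⟨0, 0, 0, 0, 0, 0, 0, 0, 0⟩, (0, 0, 0)⟩,
  ⟨⟨0, 0, 0, 0, 0, 0, 0, 0, 0⟩, (0, 0, 0)⟩,
  ⟨⟨0, 0, 0, 0, 0, 0, 0, 0, 0⟩, (0, 0, 0)⟩,
  ⟨⟨0, 0, 0, 0, 0, 0, 0, 0, 0⟩, (0, 0, 0)⟩,
  ⟨⟨-11, 26, -32, 19, 34, 13, 12, -3, -13⟩, (28, 8, 23)⟩]

/-- Data of a prime. -/
noncomputable def D1 : PD := ⟨(nat_lit 47), (nat_lit 2), (1034, 1, 9), (105, 517, 2039), (987, 5, 190)⟩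

theorem D1_ok : D1.Ok := pdb_sound (s := 1) (C := ⟨⟨47, 2, -76, 47, -2, 29, 0, -21, -1⟩, (2, 45, 26)⟩) (by show Nat.Prime 47; norm_num) (by decide +kernel)

/-- Lines of the first type. -/
noncomputable def Cl1 : List C1 := [⟨⟨47, -2, -76, 47, 2, 29, 0, 21, -1⟩, (9, 38, 23)⟩,
  ⟨⟨0, 0, 0, 0, 0, 0, 0, 0, 0⟩, (0, 0, 0)⟩,
  ⟨⟨0, 0, 0, 0, 0, 0, 0, 0, 0⟩, (0, 0, 0)⟩,
  ⟨⟨0, 0, 0, 0, 0, 0, 0, 0, 0⟩, (0, 0, 0)⟩,
  ⟨⟨17, 22, -76, -63, 18, 19, -4, -19, -7⟩, (10, 21, 17)⟩,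
  ⟨⟨0, 0, 0, 0, 0, 0, 0, 0, 0⟩, (0, 0, 0)⟩,
  ⟨⟨57, -18, -61, -23, -62, 4, -8, 5, -17⟩, (3, 26, 7)⟩,
  ⟨⟨57, 18, -61, -23, 62, 4, -8, -5, -17⟩, (16, 29, 6)⟩,
  ⟨⟨53, -22, -64, -13, -62, 29, -12, -3, -13⟩, (46, 10, 2)⟩,
  ⟨⟨0, 0, 0, 0, 0, 0, 0, 0, 0⟩, (0, 0, 0)⟩,
  ⟨⟨43, -38, -59, 3, -42, 56, -16, -11, -1⟩, (35, 9, 46)⟩,
  ⟨⟨0, 0, 0, 0, 0, 0, 0, 0, 0⟩, (0, 0, 0)⟩,
  ⟨⟨0, 0, 0, 0, 0, 0, 0, 0, 0⟩, (0, 0, 0)⟩,
  ⟨⟨-17, -22, -59, -63, 18, 44, 4, 19, -11⟩, (15, 39, 2)⟩,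
  ⟨⟨0, 0, 0, 0, 0, 0, 0, 0, 0⟩, (0, 0, 0)⟩,
  ⟨⟨0, 0, 0, 0, 0, 0, 0, 0, 0⟩, (0, 0, 0)⟩,
  ⟨⟨0, 0, 0, 0, 0, 0, 0, 0, 0⟩, (0, 0, 0)⟩,
  ⟨⟨53, 22, -64, -13, 62, 29, -12, 3, -13⟩, (41, 13, 12)⟩,
  ⟨⟨0, 0, 0, 0, 0, 0, 0, 0, 0⟩, (0, 0, 0)⟩,
  ⟨⟨0, 0, 0, 0, 0, 0, 0, 0, 0⟩, (0, 0, 0)⟩,
  ⟨⟨0, 0, 0, 0, 0, 0, 0, 0, 0⟩, (0, 0, 0)⟩,
  ⟨⟨0, 0, 0, 0, 0, 0, 0, 0, 0⟩, (0, 0, 0)⟩,
  ⟨⟨0, 0, 0, 0, 0, 0, 0, 0, 0⟩, (0, 0, 0)⟩,
  ⟨⟨43, 38, -59, 3, 42, 56, -16, 11, -1⟩, (5, 8, 20)⟩,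
  ⟨⟨3, -42, -59, 43, -38, 16, 16, 11, -17⟩, (39, 42, 20)⟩,
  ⟨⟨0, 0, 0, 0, 0, 0, 0, 0, 0⟩, (0, 0, 0)⟩,
  ⟨⟨0, 0, 0, 0, 0, 0, 0, 0, 0⟩, (0, 0, 0)⟩,
  ⟨⟨0, 0, 0, 0, 0, 0, 0, 0, 0⟩, (0, 0, 0)⟩,
  ⟨⟨0, 0, 0, 0, 0, 0, 0, 0, 0⟩, (0, 0, 0)⟩,
  ⟨⟨0, 0, 0, 0, 0, 0, 0, 0, 0⟩, (0, 0, 0)⟩,
  ⟨⟨-13, -62, -16, 53, -22, 11, 12, 3, -25⟩, (34, 6, 12)⟩,
  ⟨⟨0, 0, 0, 0, 0, 0, 0, 0, 0⟩, (0, 0, 0)⟩,
  ⟨⟨0, 0, 0, 0, 0, 0, 0, 0, 0⟩, (0, 0, 0)⟩,
  ⟨⟨0, 0, 0, 0, 0, 0, 0, 0, 0⟩, (0, 0, 0)⟩,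
  ⟨⟨17, -22, -76, -63, -18, 19, -4, 19, -7⟩, (15, 8, 2)⟩,
  ⟨⟨0, 0, 0, 0, 0, 0, 0, 0, 0⟩, (0, 0, 0)⟩,
  ⟨⟨0, 0, 0, 0, 0, 0, 0, 0, 0⟩, (0, 0, 0)⟩,
  ⟨⟨3, 42, -59, 43, 38, 16, 16, -11, -17⟩, (38, 12, 46)⟩,
  ⟨⟨0, 0, 0, 0, 0, 0, 0, 0, 0⟩, (0, 0, 0)⟩,
  ⟨⟨-13, 62, -16, 53, 22, 11, 12, -3, -25⟩, (37, 1, 2)⟩,
  ⟨⟨23, 62, -19, 57, -18, 4, 8, -5, -25⟩, (29, 31, 6)⟩,
  ⟨⟨23, -62, -19, 57, 18, 4, 8, 5, -25⟩, (26, 44, 7)⟩,
  ⟨⟨0, 0, 0, 0, 0, 0, 0, 0, 0⟩, (0, 0, 0)⟩,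
  ⟨⟨-17, 22, -59, -63, -18, 44, 4, -19, -11⟩, (10, 26, 17)⟩,
  ⟨⟨0, 0, 0, 0, 0, 0, 0, 0, 0⟩, (0, 0, 0)⟩,
  ⟨⟨0, 0, 0, 0, 0, 0, 0, 0, 0⟩, (0, 0, 0)⟩,
  ⟨⟨0, 0, 0, 0, 0, 0, 0, 0, 0⟩, (0, 0, 0)⟩]

/-- Data of a prime. -/
noncomputable def Dm : PD := ⟨(nat_lit 53), (nat_lit 2), (2545, 8, 14), (2610, 800, 1557), (1968, 957, 2439)⟩

theorem Dm_ok : Dm.Ok := pdb_sound (s := 12) (C := ⟨⟨-13, 2, -76, -47, -58, 31, 18, -15, -13⟩, (40, 6, 18)⟩) (by show Nat.Prime 53; norm_num) (by decide +kernel)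

/-- Lines of the first type. -/
noncomputable def Clm : List C1 := [⟨⟨13, -2, -89, -47, -58, 16, 18, -15, -5⟩, (17, 16, 48)⟩,
  ⟨⟨-23, 38, -56, 43, 58, 1, 18, -9, -23⟩, (9, 50, 16)⟩,
  ⟨⟨-23, -38, -56, 43, -58, 1, 18, 9, -23⟩, (18, 47, 32)⟩,
  ⟨⟨-13, -2, -76, -47, 58, 31, 18, 15, -13⟩, (20, 3, 9)⟩,
  ⟨⟨0, 0, 0, 0, 0, 0, 0, 0, 0⟩, (0, 0, 0)⟩,
  ⟨⟨0, 0, 0, 0, 0, 0, 0, 0, 0⟩, (0, 0, 0)⟩,
  ⟨⟨0, 0, 0, 0, 0, 0, 0, 0, 0⟩, (0, 0, 0)⟩,
  ⟨⟨23, -38, -79, -43, -58, 44, -18, 9, -5⟩, (29, 8, 28)⟩,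
  ⟨⟨33, -18, -89, 67, 2, 4, 2, 23, -7⟩, (12, 34, 20)⟩,
  ⟨⟨0, 0, 0, 0, 0, 0, 0, 0, 0⟩, (0, 0, 0)⟩,
  ⟨⟨0, 0, 0, 0, 0, 0, 0, 0, 0⟩, (0, 0, 0)⟩,
  ⟨⟨0, 0, 0, 0, 0, 0, 0, 0, 0⟩, (0, 0, 0)⟩,
  ⟨⟨0, 0, 0, 0, 0, 0, 0, 0, 0⟩, (0, 0, 0)⟩,
  ⟨⟨27, 42, -76, 7, 58, 49, 22, -7, -5⟩, (1, 14, 44)⟩,
  ⟨⟨33, 18, -89, 67, -2, 4, 2, -23, -7⟩, (44, 1, 38)⟩,
  ⟨⟨0, 0, 0, 0, 0, 0, 0, 0, 0⟩, (0, 0, 0)⟩,
  ⟨⟨0, 0, 0, 0, 0, 0, 0, 0, 0⟩, (0, 0, 0)⟩,
  ⟨⟨0, 0, 0, 0, 0, 0, 0, 0, 0⟩, (0, 0, 0)⟩,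
  ⟨⟨0, 0, 0, 0, 0, 0, 0, 0, 0⟩, (0, 0, 0)⟩,
  ⟨⟨57, 42, -56, -37, 62, 41, -10, 1, -19⟩, (20, 27, 3)⟩,
  ⟨⟨13, 2, -89, -47, 58, 16, 18, 15, -5⟩, (50, 19, 4)⟩,
  ⟨⟨0, 0, 0, 0, 0, 0, 0, 0, 0⟩, (0, 0, 0)⟩,
  ⟨⟨0, 0, 0, 0, 0, 0, 0, 0, 0⟩, (0, 0, 0)⟩,
  ⟨⟨57, -42, -56, -37, -62, 41, -10, -1, -19⟩, (16, 11, 13)⟩,
  ⟨⟨0, 0, 0, 0, 0, 0, 0, 0, 0⟩, (0, 0, 0)⟩,
  ⟨⟨7, 58, -56, 27, 42, 49, 22, -7, -17⟩, (20, 9, 25)⟩,
  ⟨⟨0, 0, 0, 0, 0, 0, 0, 0, 0⟩, (0, 0, 0)⟩,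
  ⟨⟨67, -2, -71, 33, 18, 56, -2, 23, -5⟩, (28, 13, 49)⟩,
  ⟨⟨0, 0, 0, 0, 0, 0, 0, 0, 0⟩, (0, 0, 0)⟩,
  ⟨⟨0, 0, 0, 0, 0, 0, 0, 0, 0⟩, (0, 0, 0)⟩,
  ⟨⟨23, 38, -79, -43, 58, 44, -18, -9, -5⟩, (20, 11, 12)⟩,
  ⟨⟨0, 0, 0, 0, 0, 0, 0, 0, 0⟩, (0, 0, 0)⟩,
  ⟨⟨7, -58, -56, 27, -42, 49, 22, 7, -17⟩, (17, 5, 8)⟩,
  ⟨⟨0, 0, 0, 0, 0, 0, 0, 0, 0⟩, (0, 0, 0)⟩,
  ⟨⟨67, 2, -71, 33, -18, 56, -2, -23, -5⟩, (8, 34, 14)⟩,
  ⟨⟨27, -42, -76, 7, -58, 49, 22, 7, -5⟩, (50, 11, 27)⟩,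
  ⟨⟨0, 0, 0, 0, 0, 0, 0, 0, 0⟩, (0, 0, 0)⟩,
  ⟨⟨0, 0, 0, 0, 0, 0, 0, 0, 0⟩, (0, 0, 0)⟩,
  ⟨⟨0, 0, 0, 0, 0, 0, 0, 0, 0⟩, (0, 0, 0)⟩,
  ⟨⟨0, 0, 0, 0, 0, 0, 0, 0, 0⟩, (0, 0, 0)⟩,
  ⟨⟨0, 0, 0, 0, 0, 0, 0, 0, 0⟩, (0, 0, 0)⟩,
  ⟨⟨0, 0, 0, 0, 0, 0, 0, 0, 0⟩, (0, 0, 0)⟩,
  ⟨⟨0, 0, 0, 0, 0, 0, 0, 0, 0⟩, (0, 0, 0)⟩,
  ⟨⟨0, 0, 0, 0, 0, 0, 0, 0, 0⟩, (0, 0, 0)⟩,
  ⟨⟨0, 0, 0, 0, 0, 0, 0, 0, 0⟩, (0, 0, 0)⟩,
  ⟨⟨-37, 62, -4, -57, -42, 1, 10, -1, -29⟩, (22, 21, 27)⟩,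
  ⟨⟨0, 0, 0, 0, 0, 0, 0, 0, 0⟩, (0, 0, 0)⟩,
  ⟨⟨0, 0, 0, 0, 0, 0, 0, 0, 0⟩, (0, 0, 0)⟩,
  ⟨⟨0, 0, 0, 0, 0, 0, 0, 0, 0⟩, (0, 0, 0)⟩,
  ⟨⟨0, 0, 0, 0, 0, 0, 0, 0, 0⟩, (0, 0, 0)⟩,
  ⟨⟨0, 0, 0, 0, 0, 0, 0, 0, 0⟩, (0, 0, 0)⟩,
  ⟨⟨-37, -62, -4, -57, 42, 1, 10, 1, -29⟩, (6, 25, 17)⟩,
  ⟨⟨0, 0, 0, 0, 0, 0, 0, 0, 0⟩, (0, 0, 0)⟩]

/-- Unit moves. -/
noncomputable def U : List Mv := [mz,
  mz,
  ⟨⟨1, 0, 0, 0, -1, 0, 0, 0, 1⟩, .nil, (nat_lit 30), (nat_lit 30), (nat_lit 29), (nat_lit 1), (0, 0, 0), [], 3⟩,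
  mz,
  mz,
  mz,
  mz,
  mz,
  mz,
  mz,
  mz,
  mz,
  mz,
  ⟨⟨1, 0, 0, 0, -1, 0, 0, 0, 1⟩, .nil, (nat_lit 30), (nat_lit 30), (nat_lit 29), (nat_lit 1), (0, 0, 0), [], 3⟩,
  ⟨⟨1, 0, 0, 0, -1, 0, 0, 0, 1⟩, .nil, (nat_lit 30), (nat_lit 30), (nat_lit 29), (nat_lit 1), (0, 0, 0), [], 3⟩,
  ⟨⟨-1, 0, 1, 0, -1, 0, 0, 0, 1⟩, .nil, (nat_lit 0), (nat_lit 15), (nat_lit 1), (nat_lit 0), (0, 0, 0), [], 16⟩,
  mz,
  mz,
  ⟨⟨-1, 0, 1, 0, -1, 0, 0, 0, 1⟩, .nil, (nat_lit 0), (nat_lit 15), (nat_lit 1), (nat_lit 0), (0, 0, 0), [], 16⟩,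
  mz,
  ⟨⟨-1, 0, 1, 0, 1, 0, 0, 0, 1⟩, .nil, (nat_lit 30), (nat_lit 16), (nat_lit 1), (nat_lit 1), (0, 0, 0), [], 17⟩,
  ⟨⟨-1, 0, 1, 0, 1, 0, 0, 0, 1⟩, .nil, (nat_lit 30), (nat_lit 16), (nat_lit 1), (nat_lit 1), (0, 0, 0), [], 17⟩,
  ⟨⟨-1, 0, 1, 0, -1, 0, 0, 0, 1⟩, .nil, (nat_lit 0), (nat_lit 15), (nat_lit 1), (nat_lit 0), (0, 0, 0), [], 16⟩,
  ⟨⟨-1, 0, 1, 0, 1, 0, 0, 0, 1⟩, .nil, (nat_lit 30), (nat_lit 16), (nat_lit 1), (nat_lit 1), (0, 0, 0), [], 17⟩,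
  ⟨⟨1, 0, 0, 0, -1, 0, 0, 0, 1⟩, .nil, (nat_lit 30), (nat_lit 30), (nat_lit 29), (nat_lit 1), (0, 0, 0), [], 3⟩,
  ⟨⟨-1, 0, 1, 0, 1, 0, 0, 0, 1⟩, .nil, (nat_lit 30), (nat_lit 16), (nat_lit 1), (nat_lit 1), (0, 0, 0), [], 17⟩,
  ⟨⟨1, 0, 0, 0, -1, 0, 0, 0, 1⟩, .nil, (nat_lit 30), (nat_lit 30), (nat_lit 29), (nat_lit 1), (0, 0, 0), [], 3⟩,
  ⟨⟨-1, 0, 1, 0, -1, 0, 0, 0, 1⟩, .nil, (nat_lit 0), (nat_lit 15), (nat_lit 1), (nat_lit 0), (0, 0, 0), [], 16⟩,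
  ⟨⟨-1, 0, 1, 0, 1, 0, 0, 0, 1⟩, .nil, (nat_lit 30), (nat_lit 16), (nat_lit 1), (nat_lit 1), (0, 0, 0), [], 17⟩,
  ⟨⟨-1, 0, 1, 0, -1, 0, 0, 0, 1⟩, .nil, (nat_lit 0), (nat_lit 15), (nat_lit 1), (nat_lit 0), (0, 0, 0), [], 16⟩,
  mz]

theorem v_ty : tyb Dm S.ty1 Clm = true := by decide +kernel

theorem v_ty0 : tyb D0 (S.tys.getD 0 0) Cl0 = true := by decide +kernel

theorem v_ty1 : tyb D1 (S.tys.getD 1 0) Cl1 = true := by decide +kernel

theorem v_msc : mscb S D0 [D1] Dm (nat_lit 524626) = true := by decide +kernel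

theorem v_mv0 : mvsn (nat_lit 184855568071) S D0 [D1] Dm (nat_lit 524626) 0 D0 = true := by decide +kernel

theorem v_mv1 : mvsn (nat_lit 184855568071) S D0 [D1] Dm (nat_lit 524626) 1 D1 = true := by decide +kernel

theorem v_mm : mmsn (nat_lit 184855568071) S D0 [D1] Dm (nat_lit 524626) = true := by decide +kernel

theorem v_un : unb S D0 (nat_lit 524626) U = true := by decide +kernel

theorem v_ok : okb S.oks [(0, 0, 0), (0, 0, 0), (0, 0, 0)] = true := by decide +kernel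

theorem v_part : ∀ d < D0.p, (nat_lit 524626).testBit d = true → part S (zc (D0 :: [D1])) d = true := by
  intro d hd h
  have h1 : ∀ d < 31, (nat_lit 524626).testBit d = true → d = 1 ∨ d = 4 ∨ d = 6 ∨ d = 8 ∨ d = 19 := by decide
  rcases h1 d hd h with rfl | rfl | rfl | rfl | rfl
  · exact part_1
  · exact part_4
  · exact part_6
  · exact part_8
  · exact part_19

theorem main (n : ℕ) (ho : Odd n) (hr : ¬ Rep n) (h0 : Split 31 n) (h1 : Split 47 n) (hm : Split 53 n) :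
    n ∈ EE := by
  refine concln (W := nat_lit 184855568071) (S := S) (P0 := D0) (Pl := [D1]) (Pm := Dm) (cn := nat_lit 524626) ?_ Dm_ok v_ty ?_ ?_ v_msc ?_ v_mm v_un v_part v_ok
    n ho hr ?_ hm
  · simp only [List.forall_mem_cons]
    exact ⟨D0_ok, D1_ok, fun _ h => absurd h (by simp)⟩
  · exact all2 (φ := fun j P => ∃ L, tyb P (S.tys.getD j 0) L = true) ⟨_, v_ty0⟩ ⟨_, v_ty1⟩
  · exact all2 (φ := fun j P => Nat.ble (S.pks.getD j 0) (Nat.pow P.p P.K) = true) (by decide +kernel) (by decide +kernel)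
  · exact all2 (φ := fun i P => mvsn (nat_lit 184855568071) S D0 [D1] Dm (nat_lit 524626) i P = true) v_mv0 v_mv1
  · simp only [List.forall_mem_cons]
    exact ⟨h0, h1, fun _ h => absurd h (by simp)⟩

end Pool.Agent.Work.MP_9954fe_nt.P31_47_53

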