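import Pool.Agent.Work.MP_9954fe_nt.Fast

/-!
Certificates for the sets {7, 37, 43}, {13, 31, 71}, {13, 47, 53}, {17, 31}, {19, 43, 53}, {31, 53, 71} of split primes.
-/

set_option autoImplicit false
set_option linter.all false
set_option maxRecDepth 100000

namespace Pool.Agent.Work.MP_9954fe_nt.P7_43_37

/-- Dummy move. -/
noncomputable def mz : Mv := ⟨⟨0, 0, 0, 0, 0, 0, 0, 0, 0⟩, .nil, (nat_lit 0), (nat_lit 0), (nat_lit 0), (nat_lit 0), (0, 0, 0), [], 0⟩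

/-- Moves. -/
noncomputable def t0_1 : List Mv := [
  ⟨⟨-3, 4, -5, 2, -5, -6, 4, 4, -5⟩, (.cons (nat_lit 2251) (nat_lit 589) (nat_lit 1020) (nat_lit 1) (.cons
 (nat_lit 657) (nat_lit 845) (nat_lit 1035) (nat_lit 1) .nil)), (nat_lit 13), (nat_lit 31), (nat_lit 29),
 (nat_lit 1), (3, 5, 3), [680, 934], 23⟩,
  ⟨⟨-3, 4, -5, -2, 5, 6, 4, 4, -5⟩, (.cons (nat_lit 1319) (nat_lit 1843) (nat_lit 312) (nat_lit 1) (.cons (nat_lit 861) (nat_lit 545) (nat_lit 971) (nat_lit 1) .nil)), (nat_lit 15), (nat_lit 3), (nat_lit 16), (nat_lit 1), (3, 2, 3), [142, 1511], 28⟩,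
  ⟨⟨7, 0, 0, 2, -5, -6, 4, 4, -5⟩, (.cons (nat_lit 1550) (nat_lit 209) (nat_lit 684) (nat_lit 1) (.cons (nat_lit 461) (nat_lit 1262) (nat_lit 519) (nat_lit 1) .nil)), (nat_lit 33), (nat_lit 9), (nat_lit 5), (nat_lit 1), (0, 5, 3), [253, 203], 27⟩,
  ⟨⟨-3, 4, -5, 2, -5, -6, 4, 4, -5⟩, (.cons (nat_lit 2251) (nat_lit 589) (nat_lit 1020) (nat_lit 1) (.cons
 (nat_lit 657) (nat_lit 845) (nat_lit 1035) (nat_lit 1) .nil)), (nat_lit 13), (nat_lit 31), (nat_lit 29),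
 (nat_lit 1), (3, 5, 3), [680, 934], 23⟩,
  ⟨⟨-3, 4, -5, 2, -5, -6, 4, 4, -5⟩, (.cons (nat_lit 2251) (nat_lit 589) (nat_lit 1020) (nat_lit 1) (.cons
 (nat_lit 657) (nat_lit 845) (nat_lit 1035) (nat_lit 1) .nil)), (nat_lit 13), (nat_lit 31), (nat_lit 29),
 (nat_lit 1), (3, 5, 3), [680, 934], 23⟩,
  ⟨⟨-3, 4, -5, 2, -5, -6, 4, 4, -5⟩, (.cons (nat_lit 2251) (nat_lit 589) (nat_lit 1020) (nat_lit 1) (.cons
 (nat_lit 657) (nat_lit 845) (nat_lit 1035) (nat_lit 1) .nil)), (nat_lit 13), (nat_lit 31), (nat_lit 29),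
 (nat_lit 1), (3, 5, 3), [680, 934], 23⟩,
  ⟨⟨7, 0, 0, 2, -5, -6, 4, 4, -5⟩, (.cons (nat_lit 1550) (nat_lit 209) (nat_lit 684) (nat_lit 1) (.cons (nat_lit 461) (nat_lit 1262) (nat_lit 519) (nat_lit 1) .nil)), (nat_lit 33), (nat_lit 9), (nat_lit 5), (nat_lit 1), (0, 5, 3), [253, 203], 27⟩]

/-- Moves. -/
noncomputable def t0_3 : List Mv := [
  ⟨⟨1, 0, -9, 0, -7, 0, 6, 0, -5⟩, (.cons (nat_lit 489) (nat_lit 1009) (nat_lit 488) (nat_lit 1) (.cons (nat_lit 259) (nat_lit 833) (nat_lit 573) (nat_lit 1) .nil)), (nat_lit 28), (nat_lit 29), (nat_lit 14), (nat_lit 1), (2, 0, 5), [2099, 56], 19⟩,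
  ⟨⟨1, 0, -9, 0, -7, 0, 6, 0, -5⟩, (.cons (nat_lit 489) (nat_lit 1009) (nat_lit 488) (nat_lit 1) (.cons (nat_lit 259) (nat_lit 833) (nat_lit 573) (nat_lit 1) .nil)), (nat_lit 28), (nat_lit 29), (nat_lit 14), (nat_lit 1), (2, 0, 5), [2099, 56], 19⟩,
  ⟨⟨5, 0, 4, 0, 7, 0, 6, 0, -5⟩, (.cons (nat_lit 200) (nat_lit 705) (nat_lit 69) (nat_lit 1) (.cons (nat_lit 1848) (nat_lit 605) (nat_lit 1755) (nat_lit 1) .nil)), (nat_lit 36), (nat_lit 29), (nat_lit 15), (nat_lit 1), (3, 0, 5), [425, 1301], 18⟩,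
  ⟨⟨5, 0, 4, 0, -7, 0, 6, 0, -5⟩, (.cons (nat_lit 1828) (nat_lit 426) (nat_lit 1412) (nat_lit 1) (.cons (nat_lit 1848) (nat_lit 1188) (nat_lit 1132) (nat_lit 1) .nil)), (nat_lit 36), (nat_lit 8), (nat_lit 6), (nat_lit 1), (3, 0, 5), [566, 1389], 27⟩,
  ⟨⟨1, 0, -9, 0, -7, 0, 6, 0, -5⟩, (.cons (nat_lit 489) (nat_lit 1009) (nat_lit 488) (nat_lit 1) (.cons (nat_lit 259) (nat_lit 833) (nat_lit 573) (nat_lit 1) .nil)), (nat_lit 28), (nat_lit 29), (nat_lit 14), (nat_lit 1), (2, 0, 5), [2099, 56], 19⟩,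
  ⟨⟨1, 0, -9, 0, 7, 0, 6, 0, -5⟩, (.cons (nat_lit 1599) (nat_lit 317) (nat_lit 496) (nat_lit 1) (.cons (nat_lit 646) (nat_lit 1803) (nat_lit 379) (nat_lit 1) .nil)), (nat_lit 11), (nat_lit 8), (nat_lit 23), (nat_lit 1), (2, 0, 5), [432, 828], 10⟩,
  ⟨⟨1, 0, -9, 0, -7, 0, 6, 0, -5⟩, (.cons (nat_lit 489) (nat_lit 1009) (nat_lit 488) (nat_lit 1) (.cons (nat_lit 259) (nat_lit 833) (nat_lit 573) (nat_lit 1) .nil)), (nat_lit 28), (nat_lit 29), (nat_lit 14), (nat_lit 1), (2, 0, 5), [2099, 56], 19⟩]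

/-- Moves. -/
noncomputable def t1_1 : List Mv := [
  mz,
  ⟨⟨3, 44, -20, 2, 15, 44, 36, 12, -25⟩, (.cons (nat_lit 455) (nat_lit 103) (nat_lit 1789) (nat_lit 1) (.cons
 (nat_lit 1146) (nat_lit 1615) (nat_lit 185) (nat_lit 1) .nil)), (nat_lit 0), (nat_lit 15), (nat_lit 30),
 (nat_lit 1), (36, 24, 2), [176, 60], 1⟩,
  mz,
  mz,
  ⟨⟨19, 36, -36, -20, -13, -30, 34, -8, -35⟩, (.cons (nat_lit 1475) (nat_lit 177) (nat_lit 2153) (nat_lit 1)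
 (.cons (nat_lit 749) (nat_lit 1193) (nat_lit 216) (nat_lit 1) .nil)), (nat_lit 34), (nat_lit 8), (nat_lit 15),
 (nat_lit 1), (14, 26, 16), [1060, 1777], 35⟩,
  ⟨⟨33, -32, -28, 2, 15, -46, 36, 12, -11⟩, (.cons (nat_lit 1139) (nat_lit 1204) (nat_lit 1056) (nat_lit 1)
 (.cons (nat_lit 667) (nat_lit 738) (nat_lit 1461) (nat_lit 1) .nil)), (nat_lit 23), (nat_lit 34), (nat_lit
 24), (nat_lit 1), (19, 22, 9), [495, 416], 15⟩,
  ⟨⟨-37, -24, 0, -20, 37, 0, 2, -8, -43⟩, (.cons (nat_lit 2400) (nat_lit 295) (nat_lit 1839) (nat_lit 1) (.cons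
 (nat_lit 1390) (nat_lit 1579) (nat_lit 547) (nat_lit 1) .nil)), (nat_lit 36), (nat_lit 7), (nat_lit 14),
 (nat_lit 1), (12, 3, 4), [358, 1160], 35⟩,
  ⟨⟨-3, -32, 40, -20, -27, -20, 30, -24, -13⟩, (.cons (nat_lit 2400) (nat_lit 2131) (nat_lit 883) (nat_lit 1)
 (.cons (nat_lit 752) (nat_lit 1209) (nat_lit 906) (nat_lit 1) .nil)), (nat_lit 36), (nat_lit 5), (nat_lit 11),
 (nat_lit 1), (1, 21, 33), [1718, 6], 34⟩,
  ⟨⟨37, 24, -37, -20, 37, 20, -2, 8, -41⟩, (.cons (nat_lit 1870) (nat_lit 2237) (nat_lit 1439) (nat_lit 1)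
 (.cons (nat_lit 1749) (nat_lit 532) (nat_lit 679) (nat_lit 1) .nil)), (nat_lit 16), (nat_lit 8), (nat_lit 9),
 (nat_lit 1), (34, 13, 40), [22, 773], 3⟩,
  ⟨⟨-29, 0, -27, 0, -43, 0, 18, 0, -47⟩, (.cons (nat_lit 120) (nat_lit 167) (nat_lit 780) (nat_lit 1) (.cons
 (nat_lit 988) (nat_lit 244) (nat_lit 1529) (nat_lit 1) .nil)), (nat_lit 13), (nat_lit 17), (nat_lit 35),
 (nat_lit 1), (33, 0, 24), [1690, 439], 14⟩,
  ⟨⟨21, -20, 31, 38, 15, -34, 12, -36, -13⟩, (.cons (nat_lit 1302) (nat_lit 1679) (nat_lit 181) (nat_lit 1)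
 (.cons (nat_lit 1841) (nat_lit 1697) (nat_lit 681) (nat_lit 1) .nil)), (nat_lit 4), (nat_lit 35), (nat_lit
 11), (nat_lit 1), (8, 37, 23), [652, 40], 29⟩,
  mz,
  ⟨⟨-15, 44, 16, 20, 13, -50, -34, 8, -1⟩, (.cons (nat_lit 1423) (nat_lit 2272) (nat_lit 1007) (nat_lit 1)
 (.cons (nat_lit 1138) (nat_lit 1770) (nat_lit 1523) (nat_lit 1) .nil)), (nat_lit 1), (nat_lit 19), (nat_lit
 23), (nat_lit 1), (28, 20, 9), [2267, 1270], 11⟩,
  ⟨⟨-3, -32, -37, 20, 27, -40, 30, -24, -17⟩, (.cons (nat_lit 1541) (nat_lit 2224) (nat_lit 1370) (nat_lit 1)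
 (.cons (nat_lit 699) (nat_lit 253) (nat_lit 1352) (nat_lit 1) .nil)), (nat_lit 11), (nat_lit 7), (nat_lit 12),
 (nat_lit 1), (27, 35, 31), [963, 708], 6⟩,
  mz,
  mz,
  mz,
  ⟨⟨9, -4, -56, 40, -13, -10, 14, 32, -25⟩, (.cons (nat_lit 33) (nat_lit 2367) (nat_lit 1569) (nat_lit 1)
 (.cons (nat_lit 658) (nat_lit 1296) (nat_lit 148) (nat_lit 1) .nil)), (nat_lit 34), (nat_lit 2), (nat_lit 23),
 (nat_lit 1), (19, 8, 20), [59, 703], 35⟩,
  ⟨⟨-9, 4, -47, 40, -13, -30, -14, -32, -11⟩, (.cons (nat_lit 1873) (nat_lit 1980) (nat_lit 758) (nat_lit 1)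
 (.cons (nat_lit 1416) (nat_lit 1254) (nat_lit 635) (nat_lit 1) .nil)), (nat_lit 13), (nat_lit 21), (nat_lit
 7), (nat_lit 1), (37, 41, 5), [1665, 196], 10⟩,
  mz,
  mz,
  ⟨⟨21, 20, 31, 38, -15, -34, 12, 36, -13⟩, (.cons (nat_lit 1684) (nat_lit 7) (nat_lit 2096) (nat_lit 1) (.cons
 (nat_lit 581) (nat_lit 1424) (nat_lit 1449) (nat_lit 1) .nil)), (nat_lit 30), (nat_lit 17), (nat_lit 21),
 (nat_lit 1), (12, 34, 13), [949, 689], 36⟩,
  ⟨⟨-21, 20, 52, 38, 15, -4, -12, 36, -1⟩, (.cons (nat_lit 2350) (nat_lit 451) (nat_lit 1) (nat_lit 805) (.cons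
 (nat_lit 59) (nat_lit 1353) (nat_lit 1392) (nat_lit 1) .nil)), (nat_lit 16), (nat_lit 19), (nat_lit 1),
 (nat_lit 0), (12, 9, 13), [1586, 814], 34⟩,
  mz,
  mz,
  ⟨⟨5, -36, 31, 40, 13, -10, 14, -32, -25⟩, (.cons (nat_lit 458) (nat_lit 296) (nat_lit 1593) (nat_lit 1)
 (.cons (nat_lit 517) (nat_lit 1690) (nat_lit 283) (nat_lit 1) .nil)), (nat_lit 35), (nat_lit 30), (nat_lit
 28), (nat_lit 1), (11, 2, 5), [1174, 711], 20⟩,
  ⟨⟨-5, 36, 36, 40, 13, -30, -14, 32, -11⟩, (.cons (nat_lit 2193) (nat_lit 1482) (nat_lit 93) (nat_lit 1)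
 (.cons (nat_lit 1289) (nat_lit 967) (nat_lit 677) (nat_lit 1) .nil)), (nat_lit 1), (nat_lit 8), (nat_lit 13),
 (nat_lit 1), (1, 35, 20), [2211, 1176], 11⟩,
  mz,
  mz,
  mz,
  ⟨⟨33, -8, -53, 20, -27, 20, 30, 24, -13⟩, (.cons (nat_lit 617) (nat_lit 1164) (nat_lit 2263) (nat_lit 1)
 (.cons (nat_lit 1578) (nat_lit 1332) (nat_lit 1289) (nat_lit 1) .nil)), (nat_lit 27), (nat_lit 33), (nat_lit
 9), (nat_lit 1), (39, 8, 12), [381, 1347], 29⟩,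
  ⟨⟨15, 44, 1, -20, 13, -30, 34, 8, -35⟩, (.cons (nat_lit 173) (nat_lit 1614) (nat_lit 526) (nat_lit 1) (.cons
 (nat_lit 1547) (nat_lit 1757) (nat_lit 184) (nat_lit 1) .nil)), (nat_lit 18), (nat_lit 15), (nat_lit 14),
 (nat_lit 1), (28, 20, 9), [412, 15], 5⟩,
  mz,
  ⟨⟨-21, -20, 52, 38, -15, -4, -12, -36, -1⟩, (.cons (nat_lit 2175) (nat_lit 446) (nat_lit 245) (nat_lit 1)
 (.cons (nat_lit 269) (nat_lit 445) (nat_lit 1731) (nat_lit 1) .nil)), (nat_lit 23), (nat_lit 18), (nat_lit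
 33), (nat_lit 1), (8, 6, 23), [2368, 842], 22⟩,
  ⟨⟨29, 0, -56, 0, -43, 0, -18, 0, -29⟩, (.cons (nat_lit 2400) (nat_lit 1819) (nat_lit 88) (nat_lit 1) (.cons
 (nat_lit 1216) (nat_lit 1436) (nat_lit 744) (nat_lit 1) .nil)), (nat_lit 36), (nat_lit 18), (nat_lit 5),
 (nat_lit 1), (33, 0, 24), [528, 1554], 9⟩,
  ⟨⟨39, -16, -43, 20, 37, 0, 2, 8, -43⟩, (.cons (nat_lit 2297) (nat_lit 2152) (nat_lit 794) (nat_lit 1) (.cons
 (nat_lit 1824) (nat_lit 1292) (nat_lit 400) (nat_lit 1) .nil)), (nat_lit 7), (nat_lit 18), (nat_lit 11),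
 (nat_lit 1), (6, 13, 40), [253, 954], 36⟩,
  ⟨⟨33, -8, 20, 20, -27, -40, 30, 24, -17⟩, (.cons (nat_lit 2019) (nat_lit 886) (nat_lit 1972) (nat_lit 1)
 (.cons (nat_lit 1783) (nat_lit 953) (nat_lit 845) (nat_lit 1) .nil)), (nat_lit 28), (nat_lit 3), (nat_lit 30),
 (nat_lit 1), (11, 21, 10), [816, 813], 35⟩,
  ⟨⟨37, -24, -37, 20, 37, -20, -2, -8, -41⟩, (.cons (nat_lit 575) (nat_lit 1982) (nat_lit 2207) (nat_lit 1)
 (.cons (nat_lit 606) (nat_lit 1510) (nat_lit 15) (nat_lit 1) .nil)), (nat_lit 16), (nat_lit 16), (nat_lit 23),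
 (nat_lit 1), (12, 3, 4), [1128, 1705], 3⟩,
  ⟨⟨33, 32, -5, 2, -15, 44, 36, -12, -25⟩, (.cons (nat_lit 1892) (nat_lit 1162) (nat_lit 820) (nat_lit 1)
 (.cons (nat_lit 1214) (nat_lit 602) (nat_lit 1700) (nat_lit 1) .nil)), (nat_lit 21), (nat_lit 13), (nat_lit
 3), (nat_lit 1), (24, 21, 34), [667, 311], 3⟩,
  ⟨⟨-19, 36, -17, 20, -13, -50, -34, -8, -1⟩, (.cons (nat_lit 1969) (nat_lit 604) (nat_lit 920) (nat_lit 1)
 (.cons (nat_lit 1054) (nat_lit 880) (nat_lit 694) (nat_lit 1) .nil)), (nat_lit 20), (nat_lit 24), (nat_lit 8),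
 (nat_lit 1), (14, 26, 16), [1144, 504], 4⟩,
  mz,
  mz,
  ⟨⟨3, -44, 17, 2, -15, -46, 36, -12, -11⟩, (.cons (nat_lit 882) (nat_lit 124) (nat_lit 843) (nat_lit 1) (.cons
 (nat_lit 1454) (nat_lit 600) (nat_lit 1661) (nat_lit 1) .nil)), (nat_lit 4), (nat_lit 36), (nat_lit 22),
 (nat_lit 1), (7, 19, 41), [1707, 1465], 8⟩]

/-- Moves. -/
noncomputable def t1_3 : List Mv := [
  mz,
  ⟨⟨3, 44, -20, -2, -15, -44, 36, 12, -25⟩, (.cons (nat_lit 1158) (nat_lit 2148) (nat_lit 2009) (nat_lit 1)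
 (.cons (nat_lit 189) (nat_lit 471) (nat_lit 983) (nat_lit 1) .nil)), (nat_lit 29), (nat_lit 33), (nat_lit 5),
 (nat_lit 1), (36, 19, 2), [1019, 554], 2⟩,
  mz,
  mz,
  ⟨⟨15, -44, 1, -20, -13, -30, 34, -8, -35⟩, (.cons (nat_lit 1038) (nat_lit 1678) (nat_lit 1782) (nat_lit 1)
 (.cons (nat_lit 1100) (nat_lit 785) (nat_lit 732) (nat_lit 1) .nil)), (nat_lit 30), (nat_lit 29), (nat_lit
 23), (nat_lit 1), (2, 26, 16), [1340, 1519], 26⟩,
  ⟨⟨33, -32, -28, 2, 15, -46, 36, 12, -11⟩, (.cons (nat_lit 1139) (nat_lit 1204) (nat_lit 1056) (nat_lit 1)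
 (.cons (nat_lit 667) (nat_lit 738) (nat_lit 1461) (nat_lit 1) .nil)), (nat_lit 23), (nat_lit 34), (nat_lit
 24), (nat_lit 1), (19, 22, 9), [495, 416], 15⟩,
  ⟨⟨39, 16, -43, -20, 37, 0, 2, -8, -43⟩, (.cons (nat_lit 309) (nat_lit 2218) (nat_lit 2322) (nat_lit 1) (.cons
 (nat_lit 717) (nat_lit 872) (nat_lit 848) (nat_lit 1) .nil)), (nat_lit 7), (nat_lit 36), (nat_lit 24),
 (nat_lit 1), (35, 3, 4), [911, 988], 36⟩,
  ⟨⟨33, 8, -53, -20, -27, -20, 30, -24, -13⟩, (.cons (nat_lit 1758) (nat_lit 1894) (nat_lit 274) (nat_lit 1)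
 (.cons (nat_lit 1484) (nat_lit 81) (nat_lit 949) (nat_lit 1) .nil)), (nat_lit 27), (nat_lit 16), (nat_lit 7),
 (nat_lit 1), (32, 21, 33), [1452, 1425], 29⟩,
  ⟨⟨-39, -16, -4, 20, -37, -20, -2, 8, -41⟩, (.cons (nat_lit 810) (nat_lit 2075) (nat_lit 1486) (nat_lit 1)
 (.cons (nat_lit 962) (nat_lit 777) (nat_lit 1488) (nat_lit 1) .nil)), (nat_lit 35), (nat_lit 8), (nat_lit 2),
 (nat_lit 1), (6, 30, 40), [1513, 1438], 34⟩,
  ⟨⟨-29, 0, -27, 0, -43, 0, 18, 0, -47⟩, (.cons (nat_lit 120) (nat_lit 167) (nat_lit 780) (nat_lit 1) (.cons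
 (nat_lit 988) (nat_lit 244) (nat_lit 1529) (nat_lit 1) .nil)), (nat_lit 13), (nat_lit 17), (nat_lit 35),
 (nat_lit 1), (33, 0, 24), [1690, 439], 14⟩,
  ⟨⟨-9, -16, -44, 38, 15, -34, 12, -36, -13⟩, (.cons (nat_lit 1127) (nat_lit 491) (nat_lit 286) (nat_lit 1)
 (.cons (nat_lit 1255) (nat_lit 1356) (nat_lit 1627) (nat_lit 1) .nil)), (nat_lit 0), (nat_lit 4), (nat_lit
 20), (nat_lit 1), (15, 37, 23), [638, 900], 1⟩,
  mz,
  ⟨⟨-15, 44, 16, -20, -13, 50, -34, 8, -1⟩, (.cons (nat_lit 2110) (nat_lit 2111) (nat_lit 389) (nat_lit 1)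
 (.cons (nat_lit 1529) (nat_lit 1492) (nat_lit 1299) (nat_lit 1) .nil)), (nat_lit 12), (nat_lit 13), (nat_lit
 20), (nat_lit 1), (28, 23, 9), [2099, 676], 8⟩,
  ⟨⟨33, 8, 20, 20, 27, -40, 30, -24, -17⟩, (.cons (nat_lit 2400) (nat_lit 513) (nat_lit 313) (nat_lit 1) (.cons
 (nat_lit 290) (nat_lit 1037) (nat_lit 879) (nat_lit 1) .nil)), (nat_lit 36), (nat_lit 36), (nat_lit 19),
 (nat_lit 1), (4, 35, 31), [1635, 1525], 3⟩,
  mz,
  mz,
  mz,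
  ⟨⟨5, 36, 31, 40, -13, -10, 14, 32, -25⟩, (.cons (nat_lit 198) (nat_lit 979) (nat_lit 1247) (nat_lit 1) (.cons
 (nat_lit 976) (nat_lit 381) (nat_lit 965) (nat_lit 1) .nil)), (nat_lit 20), (nat_lit 6), (nat_lit 32),
 (nat_lit 1), (1, 8, 20), [1816, 1262], 4⟩,
  ⟨⟨-5, -36, 36, 40, -13, -30, -14, -32, -11⟩, (.cons (nat_lit 1382) (nat_lit 288) (nat_lit 1794) (nat_lit 1)
 (.cons (nat_lit 1809) (nat_lit 208) (nat_lit 807) (nat_lit 1) .nil)), (nat_lit 12), (nat_lit 15), (nat_lit 5),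
 (nat_lit 1), (11, 41, 5), [1042, 1486], 8⟩,
  mz,
  mz,
  ⟨⟨-9, 16, -44, 38, -15, -34, 12, 36, -13⟩, (.cons (nat_lit 976) (nat_lit 1386) (nat_lit 1774) (nat_lit 1)
 (.cons (nat_lit 1483) (nat_lit 1715) (nat_lit 1148) (nat_lit 1) .nil)), (nat_lit 29), (nat_lit 13), (nat_lit
 7), (nat_lit 1), (1, 34, 13), [67, 1], 2⟩,
  ⟨⟨9, 16, -53, 38, 15, -4, -12, 36, -1⟩, (.cons (nat_lit 1857) (nat_lit 228) (nat_lit 1) (nat_lit 392) (.cons
 (nat_lit 285) (nat_lit 1700) (nat_lit 446) (nat_lit 1) .nil)), (nat_lit 28), (nat_lit 28), (nat_lit 13),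
 (nat_lit 1), (1, 9, 13), [445, 1674], 18⟩,
  mz,
  mz,
  ⟨⟨5, -36, 31, 40, 13, -10, 14, -32, -25⟩, (.cons (nat_lit 458) (nat_lit 296) (nat_lit 1593) (nat_lit 1)
 (.cons (nat_lit 517) (nat_lit 1690) (nat_lit 283) (nat_lit 1) .nil)), (nat_lit 35), (nat_lit 30), (nat_lit
 28), (nat_lit 1), (11, 2, 5), [1174, 711], 20⟩,
  ⟨⟨-5, 36, 36, 40, 13, -30, -14, 32, -11⟩, (.cons (nat_lit 2193) (nat_lit 1482) (nat_lit 93) (nat_lit 1)
 (.cons (nat_lit 1289) (nat_lit 967) (nat_lit 677) (nat_lit 1) .nil)), (nat_lit 1), (nat_lit 8), (nat_lit 13),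
 (nat_lit 1), (1, 35, 20), [2211, 1176], 11⟩,
  mz,
  mz,
  mz,
  ⟨⟨33, -8, -53, -20, 27, -20, 30, 24, -13⟩, (.cons (nat_lit 1234) (nat_lit 267) (nat_lit 683) (nat_lit 1)
 (.cons (nat_lit 210) (nat_lit 822) (nat_lit 830) (nat_lit 1) .nil)), (nat_lit 28), (nat_lit 15), (nat_lit 20),
 (nat_lit 1), (39, 35, 12), [383, 231], 33⟩,
  ⟨⟨15, 44, 1, -20, 13, -30, 34, 8, -35⟩, (.cons (nat_lit 173) (nat_lit 1614) (nat_lit 526) (nat_lit 1) (.cons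
 (nat_lit 1547) (nat_lit 1757) (nat_lit 184) (nat_lit 1) .nil)), (nat_lit 18), (nat_lit 15), (nat_lit 14),
 (nat_lit 1), (28, 20, 9), [412, 15], 5⟩,
  mz,
  ⟨⟨9, -16, -53, 38, -15, -4, -12, -36, -1⟩, (.cons (nat_lit 1668) (nat_lit 2242) (nat_lit 602) (nat_lit 1)
 (.cons (nat_lit 806) (nat_lit 1662) (nat_lit 11) (nat_lit 1) .nil)), (nat_lit 21), (nat_lit 30), (nat_lit 5),
 (nat_lit 1), (15, 6, 23), [254, 1014], 3⟩,
  ⟨⟨-47, 0, 27, 0, -43, 0, -18, 0, -29⟩, (.cons (nat_lit 2381) (nat_lit 939) (nat_lit 1194) (nat_lit 1) (.cons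
 (nat_lit 203) (nat_lit 1746) (nat_lit 787) (nat_lit 1) .nil)), (nat_lit 20), (nat_lit 30), (nat_lit 3),
 (nat_lit 1), (34, 0, 24), [1319, 92], 13⟩,
  ⟨⟨39, -16, -43, -20, -37, 0, 2, 8, -43⟩, (.cons (nat_lit 1241) (nat_lit 535) (nat_lit 1335) (nat_lit 1)
 (.cons (nat_lit 118) (nat_lit 320) (nat_lit 1428) (nat_lit 1) .nil)), (nat_lit 6), (nat_lit 12), (nat_lit 16),
 (nat_lit 1), (6, 30, 40), [57, 1710], 31⟩,
  ⟨⟨33, -8, 20, 20, -27, -40, 30, 24, -17⟩, (.cons (nat_lit 2019) (nat_lit 886) (nat_lit 1972) (nat_lit 1)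
 (.cons (nat_lit 1783) (nat_lit 953) (nat_lit 845) (nat_lit 1) .nil)), (nat_lit 28), (nat_lit 3), (nat_lit 30),
 (nat_lit 1), (11, 21, 10), [816, 813], 35⟩,
  ⟨⟨-39, 16, -4, 20, 37, -20, -2, -8, -41⟩, (.cons (nat_lit 2400) (nat_lit 237) (nat_lit 1969) (nat_lit 1)
 (.cons (nat_lit 1716) (nat_lit 1629) (nat_lit 1047) (nat_lit 1) .nil)), (nat_lit 36), (nat_lit 5), (nat_lit
 3), (nat_lit 1), (35, 3, 4), [1436, 931], 15⟩,
  ⟨⟨3, -44, -20, -2, 15, -44, 36, -12, -25⟩, (.cons (nat_lit 615) (nat_lit 559) (nat_lit 1) (nat_lit 1589)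
 (.cons (nat_lit 1151) (nat_lit 538) (nat_lit 1) (nat_lit 989) .nil)), (nat_lit 29), (nat_lit 22), (nat_lit
 13), (nat_lit 1), (10, 22, 34), [1177, 666], 12⟩,
  ⟨⟨-15, -44, 16, -20, 13, 50, -34, -8, -1⟩, (.cons (nat_lit 536) (nat_lit 2211) (nat_lit 862) (nat_lit 1)
 (.cons (nat_lit 1399) (nat_lit 570) (nat_lit 358) (nat_lit 1) .nil)), (nat_lit 9), (nat_lit 15), (nat_lit 7),
 (nat_lit 1), (2, 17, 16), [1846, 729], 16⟩,
  mz,
  mz,
  ⟨⟨33, 32, -28, 2, -15, -46, 36, -12, -11⟩, (.cons (nat_lit 161) (nat_lit 751) (nat_lit 2222) (nat_lit 1)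
 (.cons (nat_lit 610) (nat_lit 1464) (nat_lit 758) (nat_lit 1) .nil)), (nat_lit 23), (nat_lit 7), (nat_lit 16),
 (nat_lit 1), (34, 19, 41), [1441, 1551], 16⟩]

/-- Moves. -/
noncomputable def t4_1 : List Mv := [
  mz,
  ⟨⟨3, -16, -43, -10, -33, 20, 30, -12, -23⟩, (.cons (nat_lit 1547) (nat_lit 1766) (nat_lit 792) (nat_lit 1)
 (.cons (nat_lit 1408) (nat_lit 135) (nat_lit 1349) (nat_lit 1) .nil)), (nat_lit 27), (nat_lit 0), (nat_lit 0),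
 (nat_lit 0), (25, 3, 28), [95, 175], 0⟩,
  mz,
  mz,
  ⟨⟨21, 4, 28, 8, 35, -14, 32, -8, -19⟩, (.cons (nat_lit 2400) (nat_lit 252) (nat_lit 2227) (nat_lit 1) (.cons
 (nat_lit 1848) (nat_lit 1559) (nat_lit 1048) (nat_lit 1) .nil)), (nat_lit 4), (nat_lit 0), (nat_lit 0),
 (nat_lit 0), (33, 2, 8), [737, 615], 0⟩,
  ⟨⟨11, 12, -47, 8, -35, -14, 32, 8, -19⟩, (.cons (nat_lit 315) (nat_lit 57) (nat_lit 1908) (nat_lit 1) (.cons
 (nat_lit 1152) (nat_lit 852) (nat_lit 853) (nat_lit 1) .nil)), (nat_lit 35), (nat_lit 0), (nat_lit 0),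
 (nat_lit 0), (29, 11, 7), [246, 1717], 0⟩,
  mz,
  ⟨⟨-17, 36, 17, 30, 17, -30, -18, 12, -19⟩, (.cons (nat_lit 711) (nat_lit 58) (nat_lit 1884) (nat_lit 1)
 (.cons (nat_lit 936) (nat_lit 902) (nat_lit 1574) (nat_lit 1) .nil)), (nat_lit 25), (nat_lit 0), (nat_lit 0),
 (nat_lit 0), (36, 17, 12), [116, 764], 0⟩,
  ⟨⟨-35, 12, -1, 12, 35, -6, 0, 0, -37⟩, (.cons (nat_lit 2400) (nat_lit 2258) (nat_lit 1829) (nat_lit 1) (.cons
 (nat_lit 1848) (nat_lit 1688) (nat_lit 15) (nat_lit 1) .nil)), (nat_lit 8), (nat_lit 0), (nat_lit 0), (nat_lit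
 0), (3, 18, 0), [1172, 566], 0⟩,
  mz,
  ⟨⟨-17, -36, 17, 30, -17, -30, -18, -12, -19⟩, (.cons (nat_lit 1086) (nat_lit 2370) (nat_lit 417) (nat_lit 1)
 (.cons (nat_lit 689) (nat_lit 122) (nat_lit 902) (nat_lit 1) .nil)), (nat_lit 25), (nat_lit 0), (nat_lit 0),
 (nat_lit 0), (22, 33, 32), [135, 523], 0⟩,
  ⟨⟨3, 16, -43, 10, -33, -20, 30, 12, -23⟩, (.cons (nat_lit 2150) (nat_lit 198) (nat_lit 1) (nat_lit 952)
 (.cons (nat_lit 813) (nat_lit 836) (nat_lit 1269) (nat_lit 1) .nil)), (nat_lit 26), (nat_lit 0), (nat_lit 0),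
 (nat_lit 0), (23, 15, 8), [865, 1639], 0⟩,
  ⟨⟨39, -4, -8, 10, 17, -40, 14, -28, -19⟩, (.cons (nat_lit 2400) (nat_lit 2115) (nat_lit 753) (nat_lit 1)
 (.cons (nat_lit 1848) (nat_lit 1709) (nat_lit 1639) (nat_lit 1) .nil)), (nat_lit 12), (nat_lit 0), (nat_lit
 0), (nat_lit 0), (11, 18, 3), [710, 625], 0⟩,
  ⟨⟨-31, 24, 27, -8, 5, -36, 8, 32, -1⟩, (.cons (nat_lit 1047) (nat_lit 1730) (nat_lit 2215) (nat_lit 1) (.cons
 (nat_lit 402) (nat_lit 706) (nat_lit 167) (nat_lit 1) .nil)), (nat_lit 19), (nat_lit 0), (nat_lit 0), (nat_lit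
 0), (26, 27, 10), [376, 501], 0⟩,
  mz,
  ⟨⟨-3, 40, 8, 32, 5, -36, -16, 16, -19⟩, (.cons (nat_lit 2003) (nat_lit 1717) (nat_lit 1) (nat_lit 588) (.cons
 (nat_lit 1082) (nat_lit 1607) (nat_lit 100) (nat_lit 1) .nil)), (nat_lit 24), (nat_lit 0), (nat_lit 0),
 (nat_lit 0), (27, 8, 33), [416, 1689], 0⟩,
  ⟨⟨11, -12, 36, -8, -35, -6, 32, -8, -13⟩, (.cons (nat_lit 2400) (nat_lit 2046) (nat_lit 133) (nat_lit 1)
 (.cons (nat_lit 1848) (nat_lit 479) (nat_lit 316) (nat_lit 1) .nil)), (nat_lit 16), (nat_lit 0), (nat_lit 0),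
 (nat_lit 0), (3, 18, 2), [1391, 116], 0⟩,
  ⟨⟨39, -8, -11, 8, 5, -44, 8, -32, -7⟩, (.cons (nat_lit 2400) (nat_lit 33) (nat_lit 1501) (nat_lit 1) (.cons
 (nat_lit 1848) (nat_lit 1436) (nat_lit 1153) (nat_lit 1) .nil)), (nat_lit 17), (nat_lit 0), (nat_lit 0),
 (nat_lit 0), (5, 20, 20), [795, 165], 0⟩,
  ⟨⟨39, 4, -8, 10, -17, -40, 14, 28, -19⟩, (.cons (nat_lit 1373) (nat_lit 1503) (nat_lit 183) (nat_lit 1)
 (.cons (nat_lit 1072) (nat_lit 1608) (nat_lit 1001) (nat_lit 1) .nil)), (nat_lit 12), (nat_lit 0), (nat_lit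
 0), (nat_lit 0), (29, 34, 18), [1406, 1629], 0⟩,
  ⟨⟨39, -8, -28, -8, -5, -36, 8, -32, -1⟩, (.cons (nat_lit 1051) (nat_lit 1681) (nat_lit 741) (nat_lit 1)
 (.cons (nat_lit 560) (nat_lit 1379) (nat_lit 633) (nat_lit 1) .nil)), (nat_lit 22), (nat_lit 0), (nat_lit 0),
 (nat_lit 0), (22, 23, 14), [311, 695], 0⟩,
  ⟨⟨25, -24, -36, -10, 17, -30, -14, -28, -5⟩, (.cons (nat_lit 2400) (nat_lit 2169) (nat_lit 1550) (nat_lit 1)
 (.cons (nat_lit 1848) (nat_lit 1301) (nat_lit 1715) (nat_lit 1) .nil)), (nat_lit 20), (nat_lit 0), (nat_lit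
 0), (nat_lit 0), (21, 36, 6), [1179, 840], 0⟩,
  ⟨⟨13, -24, -40, -32, 5, -4, 16, 16, -35⟩, (.cons (nat_lit 55) (nat_lit 821) (nat_lit 1) (nat_lit 532) (.cons
 (nat_lit 867) (nat_lit 1403) (nat_lit 1620) (nat_lit 1) .nil)), (nat_lit 33), (nat_lit 0), (nat_lit 0),
 (nat_lit 0), (27, 36, 19), [605, 1044], 0⟩,
  ⟨⟨39, 8, -11, 8, -5, -44, 8, 32, -7⟩, (.cons (nat_lit 1591) (nat_lit 1143) (nat_lit 881) (nat_lit 1) (.cons
 (nat_lit 711) (nat_lit 586) (nat_lit 1003) (nat_lit 1) .nil)), (nat_lit 17), (nat_lit 0), (nat_lit 0),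
 (nat_lit 0), (4, 16, 16), [1590, 1313], 0⟩,
  mz,
  ⟨⟨13, 24, -40, -32, -5, -4, 16, -16, -35⟩, (.cons (nat_lit 547) (nat_lit 1595) (nat_lit 917) (nat_lit 1)
 (.cons (nat_lit 1334) (nat_lit 494) (nat_lit 782) (nat_lit 1) .nil)), (nat_lit 33), (nat_lit 0), (nat_lit 0),
 (nat_lit 0), (24, 32, 21), [1986, 1191], 0⟩,
  ⟨⟨1, 24, -37, -30, -17, 0, 18, -12, -37⟩, (.cons (nat_lit 1709) (nat_lit 157) (nat_lit 444) (nat_lit 1)
 (.cons (nat_lit 1162) (nat_lit 609) (nat_lit 259) (nat_lit 1) .nil)), (nat_lit 10), (nat_lit 0), (nat_lit 0),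
 (nat_lit 0), (23, 13, 7), [2116, 136], 0⟩,
  ⟨⟨27, -4, -47, -10, 33, -10, 30, 12, -7⟩, (.cons (nat_lit 1785) (nat_lit 2287) (nat_lit 727) (nat_lit 1)
 (.cons (nat_lit 1451) (nat_lit 1757) (nat_lit 285) (nat_lit 1) .nil)), (nat_lit 11), (nat_lit 0), (nat_lit 0),
 (nat_lit 0), (15, 15, 29), [1627, 1330], 0⟩,
  ⟨⟨27, 4, -47, 10, 33, 10, 30, -12, -7⟩, (.cons (nat_lit 2113) (nat_lit 1997) (nat_lit 1) (nat_lit 1050)
 (.cons (nat_lit 1501) (nat_lit 755) (nat_lit 1655) (nat_lit 1) .nil)), (nat_lit 1), (nat_lit 0), (nat_lit 0),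
 (nat_lit 0), (33, 4, 12), [402, 38], 0⟩,
  mz,
  ⟨⟨35, 12, -36, 12, -35, -6, 0, 0, -37⟩, (.cons (nat_lit 2400) (nat_lit 942) (nat_lit 926) (nat_lit 1) (.cons
 (nat_lit 1848) (nat_lit 1700) (nat_lit 1122) (nat_lit 1) .nil)), (nat_lit 29), (nat_lit 0), (nat_lit 0),
 (nat_lit 0), (14, 27, 0), [1802, 644], 0⟩,
  ⟨⟨-39, 4, 31, -10, -17, -30, -14, 28, -5⟩, (.cons (nat_lit 1847) (nat_lit 292) (nat_lit 1350) (nat_lit 1)
 (.cons (nat_lit 46) (nat_lit 17) (nat_lit 1493) (nat_lit 1) .nil)), (nat_lit 12), (nat_lit 0), (nat_lit 0),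
 (nat_lit 0), (3, 15, 21), [615, 1801], 0⟩,
  mz,
  mz,
  ⟨⟨-3, -40, 8, -32, 5, 36, -16, -16, -19⟩, (.cons (nat_lit 1232) (nat_lit 247) (nat_lit 1135) (nat_lit 1)
 (.cons (nat_lit 209) (nat_lit 764) (nat_lit 1636) (nat_lit 1) .nil)), (nat_lit 21), (nat_lit 0), (nat_lit 0),
 (nat_lit 0), (32, 33, 35), [1921, 1077], 0⟩,
  mz,
  ⟨⟨21, -4, -49, -8, 35, -6, 32, 8, -13⟩, (.cons (nat_lit 1013) (nat_lit 2284) (nat_lit 1) (nat_lit 2163)
 (.cons (nat_lit 191) (nat_lit 1829) (nat_lit 1638) (nat_lit 1) .nil)), (nat_lit 5), (nat_lit 0), (nat_lit 0),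
 (nat_lit 0), (18, 9, 1), [1165, 696], 0⟩,
  ⟨⟨1, -24, -37, -30, 17, 0, 18, 12, -37⟩, (.cons (nat_lit 2048) (nat_lit 922) (nat_lit 888) (nat_lit 1) (.cons
 (nat_lit 1022) (nat_lit 1549) (nat_lit 705) (nat_lit 1) .nil)), (nat_lit 10), (nat_lit 0), (nat_lit 0),
 (nat_lit 0), (26, 34, 24), [1530, 1366], 0⟩]

/-- Moves. -/
noncomputable def t4_3 : List Mv := [
  mz,
  ⟨⟨27, 4, 20, 10, 33, -20, 30, -12, -23⟩, (.cons (nat_lit 2400) (nat_lit 2400) (nat_lit 140) (nat_lit 1)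
 (.cons (nat_lit 1848) (nat_lit 653) (nat_lit 1840) (nat_lit 1) .nil)), (nat_lit 1), (nat_lit 0), (nat_lit 0),
 (nat_lit 0), (3, 34, 28), [2060, 770], 0⟩,
  mz,
  mz,
  ⟨⟨21, 4, 28, 8, 35, -14, 32, -8, -19⟩, (.cons (nat_lit 2400) (nat_lit 252) (nat_lit 2227) (nat_lit 1) (.cons
 (nat_lit 1848) (nat_lit 1559) (nat_lit 1048) (nat_lit 1) .nil)), (nat_lit 4), (nat_lit 0), (nat_lit 0),
 (nat_lit 0), (33, 2, 8), [737, 615], 0⟩,
  ⟨⟨21, -4, 28, 8, -35, -14, 32, 8, -19⟩, (.cons (nat_lit 406) (nat_lit 643) (nat_lit 1446) (nat_lit 1) (.cons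
 (nat_lit 525) (nat_lit 1642) (nat_lit 79) (nat_lit 1) .nil)), (nat_lit 4), (nat_lit 0), (nat_lit 0), (nat_lit
 0), (15, 11, 7), [358, 1373], 0⟩,
  mz,
  ⟨⟨-1, -24, -36, 30, 17, -30, -18, 12, -19⟩, (.cons (nat_lit 773) (nat_lit 327) (nat_lit 498) (nat_lit 1)
 (.cons (nat_lit 1515) (nat_lit 216) (nat_lit 456) (nat_lit 1) .nil)), (nat_lit 10), (nat_lit 0), (nat_lit 0),
 (nat_lit 0), (13, 17, 12), [1404, 1237], 0⟩,
  ⟨⟨-35, 12, -1, 12, 35, -6, 0, 0, -37⟩, (.cons (nat_lit 2400) (nat_lit 2258) (nat_lit 1829) (nat_lit 1) (.cons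
 (nat_lit 1848) (nat_lit 1688) (nat_lit 15) (nat_lit 1) .nil)), (nat_lit 8), (nat_lit 0), (nat_lit 0), (nat_lit
 0), (3, 18, 0), [1172, 566], 0⟩,
  mz,
  ⟨⟨-1, 24, -36, 30, -17, -30, -18, -12, -19⟩, (.cons (nat_lit 2400) (nat_lit 381) (nat_lit 1992) (nat_lit 1)
 (.cons (nat_lit 1848) (nat_lit 1340) (nat_lit 859) (nat_lit 1) .nil)), (nat_lit 10), (nat_lit 0), (nat_lit 0),
 (nat_lit 0), (10, 33, 32), [835, 609], 0⟩,
  ⟨⟨27, -4, 20, 10, -33, -20, 30, 12, -23⟩, (.cons (nat_lit 461) (nat_lit 2287) (nat_lit 1) (nat_lit 2016)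
 (.cons (nat_lit 1509) (nat_lit 1013) (nat_lit 710) (nat_lit 1) .nil)), (nat_lit 1), (nat_lit 0), (nat_lit 0),
 (nat_lit 0), (22, 15, 8), [1607, 1510], 0⟩,
  ⟨⟨39, -4, -8, -10, -17, 40, 14, -28, -19⟩, (.cons (nat_lit 1030) (nat_lit 555) (nat_lit 1189) (nat_lit 1)
 (.cons (nat_lit 702) (nat_lit 923) (nat_lit 1767) (nat_lit 1) .nil)), (nat_lit 18), (nat_lit 0), (nat_lit 0),
 (nat_lit 0), (11, 19, 3), [1749, 1084], 0⟩,
  ⟨⟨-31, 24, 27, 8, -5, 36, 8, 32, -1⟩, (.cons (nat_lit 2400) (nat_lit 1570) (nat_lit 1313) (nat_lit 1) (.cons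
 (nat_lit 1848) (nat_lit 628) (nat_lit 567) (nat_lit 1) .nil)), (nat_lit 13), (nat_lit 0), (nat_lit 0),
 (nat_lit 0), (26, 10, 10), [360, 1125], 0⟩,
  mz,
  ⟨⟨-13, -24, -27, 32, 5, -36, -16, 16, -19⟩, (.cons (nat_lit 265) (nat_lit 670) (nat_lit 1) (nat_lit 476)
 (.cons (nat_lit 1713) (nat_lit 414) (nat_lit 702) (nat_lit 1) .nil)), (nat_lit 33), (nat_lit 0), (nat_lit 0),
 (nat_lit 0), (6, 8, 33), [1144, 786], 0⟩,
  ⟨⟨21, 4, -49, -8, -35, -6, 32, -8, -13⟩, (.cons (nat_lit 505) (nat_lit 1328) (nat_lit 1071) (nat_lit 1)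
 (.cons (nat_lit 904) (nat_lit 1198) (nat_lit 1821) (nat_lit 1) .nil)), (nat_lit 5), (nat_lit 0), (nat_lit 0),
 (nat_lit 0), (36, 18, 2), [61, 1234], 0⟩,
  ⟨⟨39, -8, -11, 8, 5, -44, 8, -32, -7⟩, (.cons (nat_lit 2400) (nat_lit 33) (nat_lit 1501) (nat_lit 1) (.cons
 (nat_lit 1848) (nat_lit 1436) (nat_lit 1153) (nat_lit 1) .nil)), (nat_lit 17), (nat_lit 0), (nat_lit 0),
 (nat_lit 0), (5, 20, 20), [795, 165], 0⟩,
  ⟨⟨39, 4, -8, -10, 17, 40, 14, 28, -19⟩, (.cons (nat_lit 2400) (nat_lit 909) (nat_lit 1935) (nat_lit 1) (.cons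
 (nat_lit 1848) (nat_lit 1272) (nat_lit 875) (nat_lit 1) .nil)), (nat_lit 18), (nat_lit 0), (nat_lit 0),
 (nat_lit 0), (29, 3, 18), [787, 109], 0⟩,
  ⟨⟨-31, -24, 27, 8, 5, 36, 8, -32, -1⟩, (.cons (nat_lit 1353) (nat_lit 285) (nat_lit 1954) (nat_lit 1) (.cons
 (nat_lit 23) (nat_lit 403) (nat_lit 1706) (nat_lit 1) .nil)), (nat_lit 13), (nat_lit 0), (nat_lit 0), (nat_lit
 0), (29, 14, 14), [2309, 622], 0⟩,
  ⟨⟨25, -24, -36, -10, 17, -30, -14, -28, -5⟩, (.cons (nat_lit 2400) (nat_lit 2169) (nat_lit 1550) (nat_lit 1)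
 (.cons (nat_lit 1848) (nat_lit 1301) (nat_lit 1715) (nat_lit 1) .nil)), (nat_lit 20), (nat_lit 0), (nat_lit
 0), (nat_lit 0), (21, 36, 6), [1179, 840], 0⟩,
  ⟨⟨13, -24, -40, 32, -5, 4, 16, 16, -35⟩, (.cons (nat_lit 64) (nat_lit 707) (nat_lit 2313) (nat_lit 1) (.cons
 (nat_lit 904) (nat_lit 992) (nat_lit 1174) (nat_lit 1) .nil)), (nat_lit 15), (nat_lit 0), (nat_lit 0),
 (nat_lit 0), (27, 1, 19), [600, 1234], 0⟩,
  ⟨⟨39, 8, -11, 8, -5, -44, 8, 32, -7⟩, (.cons (nat_lit 1591) (nat_lit 1143) (nat_lit 881) (nat_lit 1) (.cons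
 (nat_lit 711) (nat_lit 586) (nat_lit 1003) (nat_lit 1) .nil)), (nat_lit 17), (nat_lit 0), (nat_lit 0),
 (nat_lit 0), (4, 16, 16), [1590, 1313], 0⟩,
  mz,
  ⟨⟨13, 24, -40, 32, 5, 4, 16, -16, -35⟩, (.cons (nat_lit 2303) (nat_lit 131) (nat_lit 923) (nat_lit 1) (.cons
 (nat_lit 1714) (nat_lit 612) (nat_lit 557) (nat_lit 1) .nil)), (nat_lit 15), (nat_lit 0), (nat_lit 0),
 (nat_lit 0), (24, 5, 21), [458, 1722], 0⟩,
  ⟨⟨1, 24, -37, 30, 17, 0, 18, -12, -37⟩, (.cons (nat_lit 1962) (nat_lit 1452) (nat_lit 1132) (nat_lit 1)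
 (.cons (nat_lit 804) (nat_lit 1449) (nat_lit 1069) (nat_lit 1) .nil)), (nat_lit 7), (nat_lit 0), (nat_lit 0),
 (nat_lit 0), (23, 24, 7), [2326, 1320], 0⟩,
  ⟨⟨27, -4, -47, -10, 33, -10, 30, 12, -7⟩, (.cons (nat_lit 1785) (nat_lit 2287) (nat_lit 727) (nat_lit 1)
 (.cons (nat_lit 1451) (nat_lit 1757) (nat_lit 285) (nat_lit 1) .nil)), (nat_lit 11), (nat_lit 0), (nat_lit 0),
 (nat_lit 0), (15, 15, 29), [1627, 1330], 0⟩,
  ⟨⟨27, 4, -47, -10, -33, -10, 30, -12, -7⟩, (.cons (nat_lit 211) (nat_lit 2352) (nat_lit 1039) (nat_lit 1)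
 (.cons (nat_lit 1291) (nat_lit 1632) (nat_lit 1770) (nat_lit 1) .nil)), (nat_lit 11), (nat_lit 0), (nat_lit
 0), (nat_lit 0), (33, 33, 12), [474, 391], 0⟩,
  mz,
  ⟨⟨-35, -12, -1, 12, -35, -6, 0, 0, -37⟩, (.cons (nat_lit 1933) (nat_lit 2201) (nat_lit 1626) (nat_lit 1)
 (.cons (nat_lit 1506) (nat_lit 1353) (nat_lit 1380) (nat_lit 1) .nil)), (nat_lit 8), (nat_lit 0), (nat_lit 0),
 (nat_lit 0), (23, 27, 0), [1921, 1590], 0⟩,
  ⟨⟨25, 24, -36, -10, -17, -30, -14, 28, -5⟩, (.cons (nat_lit 1744) (nat_lit 1514) (nat_lit 783) (nat_lit 1)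
 (.cons (nat_lit 857) (nat_lit 1316) (nat_lit 203) (nat_lit 1) .nil)), (nat_lit 20), (nat_lit 0), (nat_lit 0),
 (nat_lit 0), (18, 15, 21), [1476, 554], 0⟩,
  mz,
  mz,
  ⟨⟨-13, 24, -27, 32, -5, -36, -16, -16, -19⟩, (.cons (nat_lit 2400) (nat_lit 1812) (nat_lit 1477) (nat_lit 1)
 (.cons (nat_lit 1848) (nat_lit 193) (nat_lit 981) (nat_lit 1) .nil)), (nat_lit 33), (nat_lit 0), (nat_lit 0),
 (nat_lit 0), (3, 4, 35), [418, 503], 0⟩,
  mz,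
  ⟨⟨21, -4, -49, -8, 35, -6, 32, 8, -13⟩, (.cons (nat_lit 1013) (nat_lit 2284) (nat_lit 1) (nat_lit 2163)
 (.cons (nat_lit 191) (nat_lit 1829) (nat_lit 1638) (nat_lit 1) .nil)), (nat_lit 5), (nat_lit 0), (nat_lit 0),
 (nat_lit 0), (18, 9, 1), [1165, 696], 0⟩,
  ⟨⟨1, -24, -37, 30, -17, 0, 18, 12, -37⟩, (.cons (nat_lit 1240) (nat_lit 2204) (nat_lit 761) (nat_lit 1)
 (.cons (nat_lit 259) (nat_lit 38) (nat_lit 1065) (nat_lit 1) .nil)), (nat_lit 7), (nat_lit 0), (nat_lit 0),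
 (nat_lit 0), (26, 3, 24), [1521, 1211], 0⟩]

/-- All the moves. -/
noncomputable def tabs : List (List (List Mv)) := [[[], t0_1, [], t0_3], [[], t1_1, [], t1_3], [], [], [[], t4_1, [], t4_3]]

/-- Subtrie. -/
noncomputable def T1 : Tr := (.ev (nat_lit 20) (nat_lit 104241565696) (.nd (nat_lit 33) (.br (nat_lit 22) (.br
 (nat_lit 9) (.br (nat_lit 6) (.br (nat_lit 4) (.ch (nat_lit 1) (.ev (nat_lit 52) (nat_lit 135603328) (.ev
 (nat_lit 116) (nat_lit 8589934592) (.ev (nat_lit 148) (nat_lit 35651584) (.ev (nat_lit 180) (nat_lit 256) (.ev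
 (nat_lit 212) (nat_lit 131072) (.nd (nat_lit 560) (.br (nat_lit 3) (.br (nat_lit 2) (.ch (nat_lit 1) (.ev
 (nat_lit 576) (nat_lit 32816) (.nd (nat_lit 608) (.br (nat_lit 5) (.br (nat_lit 1) (.ch (nat_lit 0) (.ev
 (nat_lit 624) (nat_lit 2048) (.ev (nat_lit 1040) (nat_lit 2) (.ev (nat_lit 1053) (nat_lit 536870912) .dd))))
 (.ch (nat_lit 1) (.ev (nat_lit 624) (nat_lit 536870912) (.ev (nat_lit 736) (nat_lit 2) (.ev (nat_lit 749)
 (nat_lit 2048) .dd))))) (.br (nat_lit 6) (.ch (nat_lit 5) (.ev (nat_lit 624) (nat_lit 536872962) .dd)) (.ch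
 (nat_lit 6) (.ev (nat_lit 624) (nat_lit 2050) (.ev (nat_lit 637) (nat_lit 536870912) .dd)))))))) (.ch (nat_lit
 2) (.ev (nat_lit 576) (nat_lit 536903714) (.nd (nat_lit 608) (.br (nat_lit 1) (.ch (nat_lit 0) (.ev (nat_lit
 624) (nat_lit 2048) (.ev (nat_lit 637) (nat_lit 16) .dd))) (.br (nat_lit 4) (.ch (nat_lit 1) (.ev (nat_lit
 624) (nat_lit 16) (.ev (nat_lit 637) (nat_lit 2048) .dd))) (.ch (nat_lit 4) (.ev (nat_lit 624) (nat_lit 2048)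
 (.ev (nat_lit 637) (nat_lit 16) .dd))))))))) (.br (nat_lit 6) (.ch (nat_lit 3) (.ev (nat_lit 576) (nat_lit 2)
 (.nd (nat_lit 608) (.br (nat_lit 5) (.br (nat_lit 3) (.ch (nat_lit 0) (.ev (nat_lit 624) (nat_lit 536903696)
 (.fin (nat_lit 576464600600887876)))) (.ch (nat_lit 3) (.ev (nat_lit 624) (nat_lit 2080) (.ev (nat_lit 836)
 (nat_lit 32768) (.ev (nat_lit 1012) (nat_lit 536870912) (.ev (nat_lit 1021) (nat_lit 16) .dd)))))) (.br
 (nat_lit 6) (.ch (nat_lit 5) (.ev (nat_lit 624) (nat_lit 2064) (.ev (nat_lit 752) (nat_lit 32768) (.ev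
 (nat_lit 836) (nat_lit 32) (.ev (nat_lit 845) (nat_lit 536870912) .dd))))) (.ch (nat_lit 6) (.ev (nat_lit 624)
 (nat_lit 536905728) (.ev (nat_lit 640) (nat_lit 32) (.ev (nat_lit 653) (nat_lit 16) .dd))))))))) (.ch (nat_lit
 6) (.ev (nat_lit 576) (nat_lit 536903730) (.ev (nat_lit 589) (nat_lit 2048) .dd)))))))))))) (.br (nat_lit 5)
 (.ch (nat_lit 4) (.ev (nat_lit 52) (nat_lit 34840848) (.ev (nat_lit 84) (nat_lit 262176) (.ev (nat_lit 128)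
 (nat_lit 9263123586) .dd)))) (.ch (nat_lit 5) (.ev (nat_lit 52) (nat_lit 35004434) (.ev (nat_lit 84) (nat_lit
 32) (.ev (nat_lit 116) (nat_lit 8724152320) (.ev (nat_lit 128) (nat_lit 539069824) .dd))))))) (.br (nat_lit 7)
 (.ch (nat_lit 6) (.ev (nat_lit 52) (nat_lit 674341008) (.ev (nat_lit 116) (nat_lit 1024) (.ev (nat_lit 160)
 (nat_lit 8623884578) .dd)))) (.br (nat_lit 8) (.ch (nat_lit 7) (.ev (nat_lit 52) (nat_lit 2174000) (.ev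
 (nat_lit 116) (nat_lit 256) (.ev (nat_lit 148) (nat_lit 536870912) (.ev (nat_lit 180) (nat_lit 134217728) (.ev
 (nat_lit 224) (nat_lit 8590065664) (.nd (nat_lit 560) (.br (nat_lit 3) (.ch (nat_lit 2) (.ev (nat_lit 576)
 (nat_lit 2) (.nd (nat_lit 608) (.br (nat_lit 4) (.ch (nat_lit 1) (.ev (nat_lit 624) (nat_lit 1343488) (.ev
 (nat_lit 1072) (nat_lit 128) (.ev (nat_lit 1085) (nat_lit 33554432) .dd)))) (.br (nat_lit 6) (.ch (nat_lit 4)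
 (.ev (nat_lit 624) (nat_lit 33554560) (.ev (nat_lit 1168) (nat_lit 32768) (.fin (nat_lit
 576461302003089983))))) (.ch (nat_lit 6) (.ev (nat_lit 624) (nat_lit 128) (.ev (nat_lit 708) (nat_lit 294912)
 (.ev (nat_lit 980) (nat_lit 1048576) (.ev (nat_lit 989) (nat_lit 33554432) .dd)))))))))) (.br (nat_lit 6) (.ch
 (nat_lit 3) (.ev (nat_lit 576) (nat_lit 33554432) (.nd (nat_lit 608) (.br (nat_lit 3) (.ch (nat_lit 1) (.ev
 (nat_lit 624) (nat_lit 1081472) (.ev (nat_lit 1072) (nat_lit 262144) (.ev (nat_lit 1085) (nat_lit 2) .dd))))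
 (.br (nat_lit 5) (.ch (nat_lit 3) (.ev (nat_lit 624) (nat_lit 262144) (.ev (nat_lit 708) (nat_lit 1048704)
 (.ev (nat_lit 980) (nat_lit 32768) (.ev (nat_lit 989) (nat_lit 2) .dd))))) (.ch (nat_lit 5) (.ev (nat_lit 624)
 (nat_lit 262146) (.ev (nat_lit 1168) (nat_lit 1048576) (.fin (nat_lit 576428316675228183)))))))))) (.ch
 (nat_lit 6) (.ev (nat_lit 576) (nat_lit 34898050) .dd))))))))))) (.ch (nat_lit 8) (.ev (nat_lit 52) (nat_lit
 9160687634) (.ev (nat_lit 148) (nat_lit 256) (.ev (nat_lit 180) (nat_lit 132096) (.ev (nat_lit 320) (nat_lit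
 2097152) (.nd (nat_lit 560) (.br (nat_lit 1) (.ch (nat_lit 0) (.ev (nat_lit 576) (nat_lit 1050784) (.nd
 (nat_lit 608) (.br (nat_lit 4) (.br (nat_lit 1) (.ch (nat_lit 0) (.ev (nat_lit 624) (nat_lit 134225920) (.ev
 (nat_lit 637) (nat_lit 32768) .dd))) (.ch (nat_lit 1) (.ev (nat_lit 624) (nat_lit 134225920) (.ev (nat_lit
 637) (nat_lit 32768) .dd)))) (.br (nat_lit 5) (.ch (nat_lit 4) (.ev (nat_lit 656) (nat_lit 134217728) (.ev
 (nat_lit 708) (nat_lit 32768) (.ev (nat_lit 717) (nat_lit 8192) .dd)))) (.ch (nat_lit 5) (.ev (nat_lit 708)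
 (nat_lit 32768) (.ev (nat_lit 836) (nat_lit 8192) (.ev (nat_lit 845) (nat_lit 134217728) .dd))))))))) (.br
 (nat_lit 3) (.ch (nat_lit 1) (.ev (nat_lit 576) (nat_lit 134258688) (.nd (nat_lit 608) (.br (nat_lit 3) (.ch
 (nat_lit 0) (.ev (nat_lit 624) (nat_lit 2208) (.ev (nat_lit 637) (nat_lit 1048576) .dd))) (.br (nat_lit 6)
 (.ch (nat_lit 3) (.ev (nat_lit 624) (nat_lit 1048576) (.ev (nat_lit 640) (nat_lit 2048) (.ev (nat_lit 836)
 (nat_lit 32) (.ev (nat_lit 845) (nat_lit 128) .dd))))) (.ch (nat_lit 6) (.ev (nat_lit 624) (nat_lit 2208) (.ev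
 (nat_lit 637) (nat_lit 1048576) .dd)))))))) (.ch (nat_lit 3) (.ev (nat_lit 576) (nat_lit 134219776) (.nd
 (nat_lit 608) (.br (nat_lit 5) (.ch (nat_lit 3) (.ev (nat_lit 624) (nat_lit 32800) (.ev (nat_lit 720) (nat_lit
 1048576) (.ev (nat_lit 1012) (nat_lit 128) (.ev (nat_lit 1021) (nat_lit 8192) .dd))))) (.br (nat_lit 6) (.ch
 (nat_lit 5) (.ev (nat_lit 624) (nat_lit 1048576) (.ev (nat_lit 1120) (nat_lit 8192) (.ev (nat_lit 1156)
 (nat_lit 32) (.fin (nat_lit 576428316675228183)))))) (.ch (nat_lit 6) (.ev (nat_lit 624) (nat_lit 8320) (.ev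
 (nat_lit 1200) (nat_lit 32) (.nd (nat_lit 1280) (.br (nat_lit 3) (.ch (nat_lit 2) (.ev (nat_lit 1296) (nat_lit
 32768) (.ev (nat_lit 1309) (nat_lit 1048576) .dd))) (.ch (nat_lit 3) (.fin (nat_lit
 576478894262534753)))))))))))))))))))))))) (.br (nat_lit 13) (.br (nat_lit 10) (.ch (nat_lit 9) (.ev (nat_lit
 52) (nat_lit 135275696) (.ev (nat_lit 96) (nat_lit 9162950914) .dd))) (.br (nat_lit 12) (.ch (nat_lit 10) (.ev
 (nat_lit 52) (nat_lit 9128944898) (.ev (nat_lit 84) (nat_lit 1312768) (.ev (nat_lit 148) (nat_lit 134217728)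
 (.ev (nat_lit 192) (nat_lit 33751216) .dd))))) (.ch (nat_lit 12) (.ev (nat_lit 52) (nat_lit 363920) (.ev
 (nat_lit 96) (nat_lit 9297862690) .dd))))) (.br (nat_lit 18) (.br (nat_lit 17) (.ch (nat_lit 13) (.ev (nat_lit
 52) (nat_lit 8590163984) (.ev (nat_lit 84) (nat_lit 2048) (.ev (nat_lit 116) (nat_lit 167772160) (.ev (nat_lit
 180) (nat_lit 2097152) (.ev (nat_lit 336) (nat_lit 2) (.nd (nat_lit 560) (.br (nat_lit 2) (.ch (nat_lit 0)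
 (.ev (nat_lit 576) (nat_lit 1048992) (.nd (nat_lit 608) (.br (nat_lit 5) (.ch (nat_lit 0) (.ev (nat_lit 672)
 (nat_lit 8192) (.ev (nat_lit 836) (nat_lit 1024) (.ev (nat_lit 980) (nat_lit 262144) (.ev (nat_lit 989)
 (nat_lit 536870912) .dd))))) (.br (nat_lit 6) (.ch (nat_lit 5) (.ev (nat_lit 624) (nat_lit 262144) (.ev
 (nat_lit 672) (nat_lit 8192) (.ev (nat_lit 708) (nat_lit 1024) (.ev (nat_lit 717) (nat_lit 536870912) .dd)))))
 (.ch (nat_lit 6) (.ev (nat_lit 624) (nat_lit 537134080) (.ev (nat_lit 637) (nat_lit 8192) .dd)))))))) (.br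
 (nat_lit 3) (.ch (nat_lit 2) (.ev (nat_lit 576) (nat_lit 8448) (.nd (nat_lit 608) (.br (nat_lit 4) (.ch
 (nat_lit 0) (.ev (nat_lit 624) (nat_lit 537919488) (.ev (nat_lit 708) (nat_lit 262144) (.ev (nat_lit 848)
 (nat_lit 32) (.ev (nat_lit 1024) (nat_lit 1024) (.ev (nat_lit 1037) (nat_lit 128) .dd)))))) (.br (nat_lit 5)
 (.ch (nat_lit 4) (.ev (nat_lit 624) (nat_lit 1184) (.ev (nat_lit 1156) (nat_lit 536870912) (.nd (nat_lit 1280)
 (.br (nat_lit 3) (.ch (nat_lit 2) (.ev (nat_lit 1296) (nat_lit 1048576) (.ev (nat_lit 1309) (nat_lit 262144)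
 .dd))) (.ch (nat_lit 3) (.fin (nat_lit 576461302003089983)))))))) (.ch (nat_lit 5) (.ev (nat_lit 624) (nat_lit
 262304) (.ev (nat_lit 708) (nat_lit 536870912) (.ev (nat_lit 1156) (nat_lit 1024) (.ev (nat_lit 1165) (nat_lit
 1048576) .dd)))))))))) (.ch (nat_lit 3) (.ev (nat_lit 576) (nat_lit 537142272) (.nd (nat_lit 608) (.br
 (nat_lit 5) (.br (nat_lit 3) (.ch (nat_lit 1) (.ev (nat_lit 624) (nat_lit 1048992) .dd)) (.ch (nat_lit 3) (.ev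
 (nat_lit 624) (nat_lit 256) (.ev (nat_lit 720) (nat_lit 32) (.ev (nat_lit 980) (nat_lit 1048576) (.ev (nat_lit
 989) (nat_lit 128) .dd)))))) (.br (nat_lit 6) (.ch (nat_lit 5) (.ev (nat_lit 624) (nat_lit 1048864) (.ev
 (nat_lit 637) (nat_lit 128) .dd))) (.ch (nat_lit 6) (.ev (nat_lit 624) (nat_lit 128) (.ev (nat_lit 688)
 (nat_lit 256) (.ev (nat_lit 752) (nat_lit 32) (.ev (nat_lit 765) (nat_lit 1048576) .dd))))))))))))))))))) (.ch
 (nat_lit 17) (.ev (nat_lit 52) (nat_lit 8725438720) (.ev (nat_lit 116) (nat_lit 2097152) (.nd (nat_lit 560)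
 (.br (nat_lit 3) (.br (nat_lit 2) (.ch (nat_lit 0) (.ev (nat_lit 576) (nat_lit 570428578) (.nd (nat_lit 608)
 (.br (nat_lit 4) (.br (nat_lit 1) (.ch (nat_lit 0) (.ev (nat_lit 624) (nat_lit 16) (.ev (nat_lit 637) (nat_lit
 262144) .dd))) (.ch (nat_lit 1) (.ev (nat_lit 624) (nat_lit 262160) .dd))) (.br (nat_lit 5) (.ch (nat_lit 4)
 (.ev (nat_lit 624) (nat_lit 262144) (.ev (nat_lit 637) (nat_lit 16) .dd))) (.ch (nat_lit 5) (.ev (nat_lit 624)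
 (nat_lit 262144) (.ev (nat_lit 637) (nat_lit 16) .dd)))))))) (.ch (nat_lit 2) (.ev (nat_lit 576) (nat_lit
 1042) (.nd (nat_lit 608) (.br (nat_lit 4) (.ch (nat_lit 1) (.ev (nat_lit 624) (nat_lit 262176) (.ev (nat_lit
 672) (nat_lit 536870912) (.ev (nat_lit 836) (nat_lit 33554432) (.ev (nat_lit 964) (nat_lit 2048) (.ev (nat_lit
 973) (nat_lit 128) .dd)))))) (.br (nat_lit 5) (.ch (nat_lit 4) (.ev (nat_lit 624) (nat_lit 2048) (.ev (nat_lit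
 672) (nat_lit 536870912) (.ev (nat_lit 708) (nat_lit 262144) (.ev (nat_lit 736) (nat_lit 32) (.ev (nat_lit
 964) (nat_lit 128) (.ev (nat_lit 973) (nat_lit 33554432) .dd))))))) (.ch (nat_lit 5) (.ev (nat_lit 624)
 (nat_lit 33816736) (.ev (nat_lit 672) (nat_lit 536870912) (.ev (nat_lit 685) (nat_lit 2048) .dd)))))))))) (.br
 (nat_lit 6) (.ch (nat_lit 3) (.ev (nat_lit 576) (nat_lit 536870912) (.nd (nat_lit 608) (.br (nat_lit 3) (.br
 (nat_lit 1) (.ch (nat_lit 0) (.ev (nat_lit 624) (nat_lit 262322) (.ev (nat_lit 640) (nat_lit 1024) (.ev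
 (nat_lit 1088) (nat_lit 33554432) (.ev (nat_lit 1101) (nat_lit 2048) .dd))))) (.ch (nat_lit 1) (.ev (nat_lit
 624) (nat_lit 264352) (.ev (nat_lit 708) (nat_lit 1024) (.ev (nat_lit 964) (nat_lit 2) (.fin (nat_lit
 576487690313613859))))))) (.br (nat_lit 6) (.ch (nat_lit 3) (.ev (nat_lit 624) (nat_lit 33819696) (.ev
 (nat_lit 640) (nat_lit 2) (.ev (nat_lit 653) (nat_lit 128) .dd)))) (.ch (nat_lit 6) (.ev (nat_lit 624)
 (nat_lit 33554562) (.ev (nat_lit 708) (nat_lit 32) (.ev (nat_lit 768) (nat_lit 2048) (.ev (nat_lit 836)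
 (nat_lit 16) (.fin (nat_lit 576482192797418020)))))))))))) (.ch (nat_lit 6) (.ev (nat_lit 576) (nat_lit
 570427570) (.nd (nat_lit 608) (.br (nat_lit 3) (.ch (nat_lit 0) (.fin (nat_lit 576440411324105308))) (.br
 (nat_lit 6) (.ch (nat_lit 3) (.ev (nat_lit 624) (nat_lit 262144) (.ev (nat_lit 637) (nat_lit 1024) .dd))) (.ch
 (nat_lit 6) (.ev (nat_lit 624) (nat_lit 262144) (.ev (nat_lit 637) (nat_lit 1024) .dd))))))))))))))) (.br
 (nat_lit 21) (.ch (nat_lit 18) (.ev (nat_lit 52) (nat_lit 2490642) (.ev (nat_lit 116) (nat_lit 66560) (.ev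
 (nat_lit 180) (nat_lit 671088640) (.ev (nat_lit 544) (nat_lit 128) (.nd (nat_lit 560) (.br (nat_lit 3) (.ch
 (nat_lit 1) (.ev (nat_lit 576) (nat_lit 34646016) (.nd (nat_lit 608) (.br (nat_lit 1) (.ch (nat_lit 0) (.ev
 (nat_lit 624) (nat_lit 32) (.ev (nat_lit 637) (nat_lit 8589934592) .dd))) (.br (nat_lit 5) (.ch (nat_lit 1)
 (.ev (nat_lit 624) (nat_lit 8589934592) (.ev (nat_lit 637) (nat_lit 32) .dd))) (.ch (nat_lit 5) (.ev (nat_lit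
 624) (nat_lit 32) (.ev (nat_lit 637) (nat_lit 8589934592) .dd)))))))) (.br (nat_lit 6) (.ch (nat_lit 3) (.ev
 (nat_lit 576) (nat_lit 8589934592) (.nd (nat_lit 608) (.br (nat_lit 5) (.br (nat_lit 3) (.ch (nat_lit 1) (.ev
 (nat_lit 624) (nat_lit 34613280) (.ev (nat_lit 637) (nat_lit 32768) .dd))) (.ch (nat_lit 3) (.ev (nat_lit 624)
 (nat_lit 1048608) (.ev (nat_lit 736) (nat_lit 33554432) (.ev (nat_lit 816) (nat_lit 8192) (.ev (nat_lit 980)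
 (nat_lit 32768) (.ev (nat_lit 989) (nat_lit 2048) .dd))))))) (.br (nat_lit 6) (.ch (nat_lit 5) (.ev (nat_lit
 624) (nat_lit 1048576) (.ev (nat_lit 656) (nat_lit 32) (.ev (nat_lit 708) (nat_lit 32768) (.ev (nat_lit 880)
 (nat_lit 33554432) (.ev (nat_lit 928) (nat_lit 8192) (.ev (nat_lit 941) (nat_lit 2048) .dd))))))) (.ch
 (nat_lit 6) (.ev (nat_lit 624) (nat_lit 33564704) (.fin (nat_lit 576443709858988575))))))))) (.ch (nat_lit 6)
 (.ev (nat_lit 576) (nat_lit 8623521792) (.nd (nat_lit 608) (.br (nat_lit 3) (.br (nat_lit 1) (.ch (nat_lit 0)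
 (.ev (nat_lit 624) (nat_lit 1056768) (.ev (nat_lit 656) (nat_lit 32) (.ev (nat_lit 669) (nat_lit 2048) .dd))))
 (.ch (nat_lit 1) (.ev (nat_lit 624) (nat_lit 1050656) (.ev (nat_lit 637) (nat_lit 8192) .dd)))) (.br (nat_lit
 5) (.ch (nat_lit 3) (.ev (nat_lit 624) (nat_lit 10272) (.ev (nat_lit 637) (nat_lit 1048576) .dd))) (.ch
 (nat_lit 5) (.ev (nat_lit 624) (nat_lit 32) (.ev (nat_lit 1168) (nat_lit 2048) (.nd (nat_lit 1280) (.br
 (nat_lit 6) (.ch (nat_lit 0) (.fin (nat_lit 576485491357467241))) (.ch (nat_lit 6) (.ev (nat_lit 1296)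
 (nat_lit 1056768) .dd)))))))))))))))))))) (.ch (nat_lit 21) (.ev (nat_lit 52) (nat_lit 9128946048) (.ev
 (nat_lit 116) (nat_lit 18) (.ev (nat_lit 464) (nat_lit 134217728) (.nd (nat_lit 560) (.br (nat_lit 3) (.br
 (nat_lit 2) (.ch (nat_lit 0) (.ev (nat_lit 576) (nat_lit 1180704) (.nd (nat_lit 608) (.br (nat_lit 1) (.ch
 (nat_lit 0) (.ev (nat_lit 624) (nat_lit 33554432) (.fin (nat_lit 576489889347355223)))) (.br (nat_lit 4) (.ch
 (nat_lit 1) (.ev (nat_lit 624) (nat_lit 327680) (.ev (nat_lit 637) (nat_lit 33554432) .dd))) (.ch (nat_lit 4)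
 (.ev (nat_lit 624) (nat_lit 262144) (.ev (nat_lit 720) (nat_lit 65536) (.ev (nat_lit 733) (nat_lit 33554432)
 .dd))))))))) (.ch (nat_lit 2) (.ev (nat_lit 576) (nat_lit 33752096) (.nd (nat_lit 608) (.br (nat_lit 4) (.ch
 (nat_lit 0) (.ev (nat_lit 624) (nat_lit 1048576) (.ev (nat_lit 637) (nat_lit 262144) .dd))) (.br (nat_lit 6)
 (.ch (nat_lit 4) (.ev (nat_lit 624) (nat_lit 262144) (.ev (nat_lit 637) (nat_lit 1048576) .dd))) (.ch (nat_lit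
 6) (.ev (nat_lit 964) (nat_lit 262144) (.ev (nat_lit 973) (nat_lit 1048576) .dd))))))))) (.br (nat_lit 6) (.ch
 (nat_lit 3) (.ev (nat_lit 576) (nat_lit 196608) (.nd (nat_lit 608) (.br (nat_lit 3) (.br (nat_lit 1) (.ch
 (nat_lit 0) (.ev (nat_lit 624) (nat_lit 1311744) (.ev (nat_lit 1024) (nat_lit 32) (.ev (nat_lit 1037) (nat_lit
 33554432) .dd)))) (.ch (nat_lit 1) (.ev (nat_lit 624) (nat_lit 34865184) (.ev (nat_lit 637) (nat_lit 1024)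
 .dd)))) (.br (nat_lit 6) (.ch (nat_lit 3) (.ev (nat_lit 624) (nat_lit 262144) (.ev (nat_lit 848) (nat_lit
 1024) (.ev (nat_lit 992) (nat_lit 33554432) (.ev (nat_lit 1248) (nat_lit 32) (.ev (nat_lit 1261) (nat_lit
 1048576) .dd)))))) (.ch (nat_lit 6) (.ev (nat_lit 624) (nat_lit 33554464) (.ev (nat_lit 836) (nat_lit 1048576)
 (.fin (nat_lit 576482192797418020)))))))))) (.ch (nat_lit 6) (.ev (nat_lit 576) (nat_lit 34668544) (.nd
 (nat_lit 608) (.br (nat_lit 3) (.ch (nat_lit 0) (.ev (nat_lit 624) (nat_lit 32) (.ev (nat_lit 964) (nat_lit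
 131072) (.fin (nat_lit 576440411324105308))))) (.br (nat_lit 5) (.ch (nat_lit 3) (.ev (nat_lit 624) (nat_lit
 262144) (.ev (nat_lit 752) (nat_lit 1024) (.ev (nat_lit 1056) (nat_lit 131104) .dd)))) (.ch (nat_lit 5) (.ev
 (nat_lit 624) (nat_lit 393248) (.ev (nat_lit 637) (nat_lit 1024) .dd))))))))))))))))))) (.br (nat_lit 34) (.br
 (nat_lit 30) (.br (nat_lit 25) (.ch (nat_lit 22) (.ev (nat_lit 52) (nat_lit 9263284480) (.ev (nat_lit 84)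
 (nat_lit 144) (.ev (nat_lit 116) (nat_lit 8194) (.ev (nat_lit 148) (nat_lit 33554432) (.nd (nat_lit 560) (.br
 (nat_lit 3) (.br (nat_lit 2) (.ch (nat_lit 1) (.ev (nat_lit 576) (nat_lit 328736) (.nd (nat_lit 608) (.br
 (nat_lit 1) (.ch (nat_lit 0) (.ev (nat_lit 624) (nat_lit 2048) (.ev (nat_lit 637) (nat_lit 1048576) .dd)))
 (.br (nat_lit 6) (.ch (nat_lit 1) (.ev (nat_lit 624) (nat_lit 1048576) (.ev (nat_lit 637) (nat_lit 2048)
 .dd))) (.ch (nat_lit 6) (.ev (nat_lit 624) (nat_lit 2048) (.ev (nat_lit 637) (nat_lit 1048576) .dd))))))))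
 (.ch (nat_lit 2) (.ev (nat_lit 576) (nat_lit 1377312) (.ev (nat_lit 589) (nat_lit 2048) .dd)))) (.br (nat_lit
 6) (.ch (nat_lit 3) (.ev (nat_lit 576) (nat_lit 65536) (.nd (nat_lit 608) (.br (nat_lit 5) (.br (nat_lit 3)
 (.ch (nat_lit 0) (.ev (nat_lit 624) (nat_lit 1311744) (.fin (nat_lit 576464600600887876)))) (.ch (nat_lit 3)
 (.ev (nat_lit 624) (nat_lit 1050624) (.ev (nat_lit 752) (nat_lit 262144) (.ev (nat_lit 836) (nat_lit 32) (.ev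
 (nat_lit 845) (nat_lit 1024) .dd)))))) (.br (nat_lit 6) (.ch (nat_lit 5) (.ev (nat_lit 624) (nat_lit 265216)
 (.ev (nat_lit 640) (nat_lit 32) (.ev (nat_lit 653) (nat_lit 1048576) .dd)))) (.ch (nat_lit 6) (.ev (nat_lit
 624) (nat_lit 2080) (.ev (nat_lit 836) (nat_lit 262144) (.ev (nat_lit 1012) (nat_lit 1024) (.ev (nat_lit 1021)
 (nat_lit 1048576) .dd)))))))))) (.ch (nat_lit 6) (.ev (nat_lit 576) (nat_lit 1310752) (.nd (nat_lit 608) (.br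
 (nat_lit 3) (.br (nat_lit 1) (.ch (nat_lit 0) (.ev (nat_lit 624) (nat_lit 1024) (.ev (nat_lit 736) (nat_lit
 65536) (.ev (nat_lit 749) (nat_lit 2048) .dd)))) (.ch (nat_lit 1) (.ev (nat_lit 624) (nat_lit 68608) .dd)))
 (.br (nat_lit 5) (.ch (nat_lit 3) (.ev (nat_lit 624) (nat_lit 67584) (.ev (nat_lit 637) (nat_lit 1024) .dd)))
 (.ch (nat_lit 5) (.ev (nat_lit 624) (nat_lit 2048) (.ev (nat_lit 1040) (nat_lit 65536) (.ev (nat_lit 1053)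
 (nat_lit 1024) .dd))))))))))))))))) (.br (nat_lit 26) (.ch (nat_lit 25) (.ev (nat_lit 52) (nat_lit 9128157184)
 (.ev (nat_lit 84) (nat_lit 2176) (.ev (nat_lit 212) (nat_lit 1024) (.ev (nat_lit 512) (nat_lit 33554432) (.nd
 (nat_lit 560) (.br (nat_lit 3) (.ch (nat_lit 1) (.ev (nat_lit 576) (nat_lit 2097202) (.nd (nat_lit 608) (.br
 (nat_lit 1) (.ch (nat_lit 0) (.ev (nat_lit 624) (nat_lit 134349056) (.ev (nat_lit 637) (nat_lit 65536) .dd)))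
 (.br (nat_lit 5) (.ch (nat_lit 1) (.ev (nat_lit 624) (nat_lit 65536) (.ev (nat_lit 688) (nat_lit 256) (.ev
 (nat_lit 836) (nat_lit 134217728) (.ev (nat_lit 845) (nat_lit 131072) .dd))))) (.ch (nat_lit 5) (.ev (nat_lit
 624) (nat_lit 65792) (.ev (nat_lit 1156) (nat_lit 131072) (.ev (nat_lit 1165) (nat_lit 134217728) .dd)))))))))
 (.br (nat_lit 6) (.ch (nat_lit 3) (.ev (nat_lit 576) (nat_lit 134414626) (.nd (nat_lit 608) (.br (nat_lit 5)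
 (.ch (nat_lit 0) (.ev (nat_lit 708) (nat_lit 16) (.ev (nat_lit 717) (nat_lit 2097152) .dd))) (.br (nat_lit 6)
 (.ch (nat_lit 5) (.ev (nat_lit 624) (nat_lit 2097168) .dd)) (.ch (nat_lit 6) (.ev (nat_lit 624) (nat_lit
 2097152) (.ev (nat_lit 637) (nat_lit 16) .dd)))))))) (.ch (nat_lit 6) (.ev (nat_lit 576) (nat_lit 134414608)
 (.nd (nat_lit 608) (.br (nat_lit 5) (.ch (nat_lit 0) (.ev (nat_lit 1088) (nat_lit 32) (.fin (nat_lit
 576481093281595927)))) (.ch (nat_lit 5) (.ev (nat_lit 624) (nat_lit 32) (.ev (nat_lit 1088) (nat_lit 2) (.ev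
 (nat_lit 1101) (nat_lit 2097152) .dd)))))))))))))))) (.ch (nat_lit 26) (.ev (nat_lit 52) (nat_lit 540420128)
 (.ev (nat_lit 96) (nat_lit 8757806482) .dd))))) (.br (nat_lit 31) (.ch (nat_lit 30) (.ev (nat_lit 52) (nat_lit
 3154098) (.ev (nat_lit 84) (nat_lit 32768) (.ev (nat_lit 148) (nat_lit 65536) (.ev (nat_lit 352) (nat_lit
 134217728) (.nd (nat_lit 560) (.br (nat_lit 2) (.ch (nat_lit 1) (.ev (nat_lit 576) (nat_lit 396288) (.nd
 (nat_lit 608) (.br (nat_lit 3) (.ch (nat_lit 0) (.ev (nat_lit 672) (nat_lit 536870912) (.ev (nat_lit 836)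
 (nat_lit 256) (.ev (nat_lit 980) (nat_lit 8589934592) (.ev (nat_lit 989) (nat_lit 33554432) .dd))))) (.br
 (nat_lit 6) (.ch (nat_lit 3) (.ev (nat_lit 624) (nat_lit 8623489280) (.ev (nat_lit 637) (nat_lit 536870912)
 .dd))) (.ch (nat_lit 6) (.ev (nat_lit 624) (nat_lit 8589934592) (.ev (nat_lit 672) (nat_lit 536870912) (.ev
 (nat_lit 708) (nat_lit 256) (.ev (nat_lit 717) (nat_lit 33554432) .dd)))))))))) (.br (nat_lit 6) (.ch (nat_lit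
 2) (.ev (nat_lit 576) (nat_lit 537001984) (.nd (nat_lit 608) (.br (nat_lit 5) (.ch (nat_lit 1) (.ev (nat_lit
 624) (nat_lit 264448) (.ev (nat_lit 1156) (nat_lit 33554432) (.nd (nat_lit 1280) (.br (nat_lit 5) (.ch
 (nat_lit 1) (.ev (nat_lit 1296) (nat_lit 1024) (.ev (nat_lit 1309) (nat_lit 8589934592) .dd))) (.ch (nat_lit
 5) (.fin (nat_lit 576494287372894825)))))))) (.br (nat_lit 6) (.ch (nat_lit 5) (.ev (nat_lit 624) (nat_lit
 8590198784) (.ev (nat_lit 708) (nat_lit 33554432) (.ev (nat_lit 1156) (nat_lit 256) (.ev (nat_lit 1165)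
 (nat_lit 1024) .dd))))) (.ch (nat_lit 6) (.ev (nat_lit 624) (nat_lit 33555456) (.ev (nat_lit 708) (nat_lit
 8589934592) (.ev (nat_lit 848) (nat_lit 262144) (.ev (nat_lit 1024) (nat_lit 256) (.ev (nat_lit 1037) (nat_lit
 2048) .dd))))))))))) (.ch (nat_lit 6) (.ev (nat_lit 576) (nat_lit 9160360192) (.nd (nat_lit 608) (.br (nat_lit
 5) (.br (nat_lit 1) (.ch (nat_lit 0) (.ev (nat_lit 624) (nat_lit 131072) (.ev (nat_lit 720) (nat_lit 262144)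
 (.ev (nat_lit 980) (nat_lit 1024) (.ev (nat_lit 989) (nat_lit 2048) .dd))))) (.ch (nat_lit 1) (.ev (nat_lit
 624) (nat_lit 394240) (.ev (nat_lit 637) (nat_lit 2048) .dd)))) (.br (nat_lit 6) (.ch (nat_lit 5) (.ev
 (nat_lit 624) (nat_lit 2048) (.ev (nat_lit 688) (nat_lit 131072) (.ev (nat_lit 752) (nat_lit 262144) (.ev
 (nat_lit 765) (nat_lit 1024) .dd))))) (.ch (nat_lit 6) (.ev (nat_lit 624) (nat_lit 396288) .dd)))))))))))))))
 (.br (nat_lit 33) (.ch (nat_lit 31) (.ev (nat_lit 52) (nat_lit 9296674848) (.ev (nat_lit 84) (nat_lit 1310720)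
 (.ev (nat_lit 116) (nat_lit 256) (.ev (nat_lit 528) (nat_lit 1024) (.nd (nat_lit 560) (.br (nat_lit 1) (.ch
 (nat_lit 0) (.ev (nat_lit 576) (nat_lit 198786) (.nd (nat_lit 608) (.br (nat_lit 5) (.ch (nat_lit 4) (.ev
 (nat_lit 624) (nat_lit 8192) (.ev (nat_lit 1088) (nat_lit 32768) (.ev (nat_lit 1101) (nat_lit 16) .dd)))) (.ch
 (nat_lit 5) (.ev (nat_lit 1088) (nat_lit 8192) (.fin (nat_lit 576496486473744961)))))))) (.br (nat_lit 2) (.ch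
 (nat_lit 1) (.ev (nat_lit 576) (nat_lit 43024) (.nd (nat_lit 608) (.br (nat_lit 5) (.ch (nat_lit 3) (.ev
 (nat_lit 624) (nat_lit 128) (.ev (nat_lit 688) (nat_lit 131072) (.ev (nat_lit 836) (nat_lit 65536) (.ev
 (nat_lit 845) (nat_lit 2) .dd))))) (.br (nat_lit 6) (.ch (nat_lit 5) (.ev (nat_lit 624) (nat_lit 131200) (.ev
 (nat_lit 1156) (nat_lit 2) (.ev (nat_lit 1165) (nat_lit 65536) .dd)))) (.ch (nat_lit 6) (.ev (nat_lit 624)
 (nat_lit 196610) (.ev (nat_lit 637) (nat_lit 128) .dd)))))))) (.ch (nat_lit 2) (.ev (nat_lit 576) (nat_lit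
 237698) (.nd (nat_lit 608) (.br (nat_lit 4) (.ch (nat_lit 1) (.ev (nat_lit 624) (nat_lit 16) (.ev (nat_lit
 637) (nat_lit 2048) .dd))) (.br (nat_lit 5) (.ch (nat_lit 4) (.ev (nat_lit 624) (nat_lit 2064) .dd)) (.ch
 (nat_lit 5) (.ev (nat_lit 708) (nat_lit 2048) (.ev (nat_lit 717) (nat_lit 16) .dd)))))))))))))))) (.ch
 (nat_lit 33) (.ev (nat_lit 52) (nat_lit 9162621184) (.ev (nat_lit 84) (nat_lit 1048704) (.ev (nat_lit 448)
 (nat_lit 2) (.nd (nat_lit 560) (.br (nat_lit 2) (.ch (nat_lit 0) (.ev (nat_lit 576) (nat_lit 134548512) (.nd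
 (nat_lit 608) (.br (nat_lit 4) (.ch (nat_lit 1) (.ev (nat_lit 624) (nat_lit 8192) (.ev (nat_lit 637) (nat_lit
 16) .dd))) (.br (nat_lit 6) (.ch (nat_lit 4) (.ev (nat_lit 896) (nat_lit 8192) (.ev (nat_lit 909) (nat_lit 16)
 .dd))) (.ch (nat_lit 6) (.ev (nat_lit 624) (nat_lit 8208) .dd))))))) (.br (nat_lit 6) (.ch (nat_lit 2) (.ev
 (nat_lit 576) (nat_lit 73728) (.nd (nat_lit 608) (.br (nat_lit 4) (.ch (nat_lit 0) (.ev (nat_lit 624) (nat_lit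
 264192) (.ev (nat_lit 708) (nat_lit 16) (.ev (nat_lit 720) (nat_lit 1024) (.ev (nat_lit 1120) (nat_lit
 134217728) (.ev (nat_lit 1133) (nat_lit 32) .dd)))))) (.br (nat_lit 6) (.ch (nat_lit 4) (.ev (nat_lit 624)
 (nat_lit 134482944) (.ev (nat_lit 964) (nat_lit 16) (.ev (nat_lit 973) (nat_lit 32) .dd)))) (.ch (nat_lit 6)
 (.ev (nat_lit 624) (nat_lit 48) (.ev (nat_lit 768) (nat_lit 1024) (.ev (nat_lit 848) (nat_lit 2048) (.fin
 (nat_lit 576514078607360605))))))))))) (.ch (nat_lit 6) (.ev (nat_lit 576) (nat_lit 134226960) (.nd (nat_lit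
 608) (.br (nat_lit 3) (.ch (nat_lit 0) (.ev (nat_lit 624) (nat_lit 327712) (.ev (nat_lit 637) (nat_lit 2048)
 .dd))) (.br (nat_lit 6) (.ch (nat_lit 3) (.ev (nat_lit 624) (nat_lit 264224) (.ev (nat_lit 637) (nat_lit
 65536) .dd))) (.ch (nat_lit 6) (.ev (nat_lit 624) (nat_lit 67584) (.ev (nat_lit 1104) (nat_lit 262144) (.ev
 (nat_lit 1117) (nat_lit 32) .dd))))))))))))))))))) (.br (nat_lit 37) (.br (nat_lit 35) (.ch (nat_lit 34) (.ev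
 (nat_lit 52) (nat_lit 34015234) (.ev (nat_lit 84) (nat_lit 128) (.ev (nat_lit 116) (nat_lit 32) (.ev (nat_lit
 148) (nat_lit 9126805504) (.nd (nat_lit 560) (.br (nat_lit 3) (.ch (nat_lit 0) (.ev (nat_lit 576) (nat_lit
 3155200) (.nd (nat_lit 608) (.br (nat_lit 4) (.ch (nat_lit 0) (.ev (nat_lit 624) (nat_lit 134217744) (.ev
 (nat_lit 637) (nat_lit 32768) .dd))) (.br (nat_lit 5) (.ch (nat_lit 4) (.ev (nat_lit 624) (nat_lit 32768) (.ev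
 (nat_lit 980) (nat_lit 16) (.ev (nat_lit 989) (nat_lit 134217728) .dd)))) (.ch (nat_lit 5) (.ev (nat_lit 1040)
 (nat_lit 134217728) (.fin (nat_lit 576496486473744961))))))))) (.br (nat_lit 6) (.ch (nat_lit 3) (.ev (nat_lit
 576) (nat_lit 134226960) (.nd (nat_lit 608) (.br (nat_lit 1) (.ch (nat_lit 0) (.ev (nat_lit 624) (nat_lit
 1081344) (.ev (nat_lit 708) (nat_lit 256) (.ev (nat_lit 717) (nat_lit 2097152) .dd)))) (.br (nat_lit 6) (.ch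
 (nat_lit 1) (.ev (nat_lit 624) (nat_lit 1048832) (.ev (nat_lit 708) (nat_lit 2097152) (.ev (nat_lit 717)
 (nat_lit 32768) .dd)))) (.ch (nat_lit 6) (.ev (nat_lit 624) (nat_lit 2129920) (.ev (nat_lit 708) (nat_lit 256)
 (.ev (nat_lit 717) (nat_lit 1048576) .dd))))))))) (.ch (nat_lit 6) (.ev (nat_lit 576) (nat_lit 136347920) (.nd
 (nat_lit 608) (.br (nat_lit 5) (.ch (nat_lit 3) (.ev (nat_lit 624) (nat_lit 9216) (.ev (nat_lit 637) (nat_lit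
 1048576) .dd))) (.br (nat_lit 6) (.ch (nat_lit 5) (.ev (nat_lit 1040) (nat_lit 1024) (.fin (nat_lit
 576485491357467241)))) (.ch (nat_lit 6) (.ev (nat_lit 624) (nat_lit 1048576) (.ev (nat_lit 980) (nat_lit 8192)
 (.ev (nat_lit 989) (nat_lit 1024) .dd))))))))))))))))) (.br (nat_lit 36) (.ch (nat_lit 35) (.ev (nat_lit 52)
 (nat_lit 8589935904) (.ev (nat_lit 84) (nat_lit 8192) (.ev (nat_lit 116) (nat_lit 2099328) (.ev (nat_lit 148)
 (nat_lit 2) (.ev (nat_lit 212) (nat_lit 65536) (.ev (nat_lit 400) (nat_lit 131072) (.nd (nat_lit 560) (.br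
 (nat_lit 2) (.ch (nat_lit 0) (.ev (nat_lit 576) (nat_lit 1081360) (.nd (nat_lit 608) (.br (nat_lit 5) (.ch
 (nat_lit 0) (.ev (nat_lit 624) (nat_lit 168034304) (.ev (nat_lit 637) (nat_lit 536870912) .dd))) (.br (nat_lit
 6) (.ch (nat_lit 5) (.ev (nat_lit 624) (nat_lit 168034304) (.ev (nat_lit 637) (nat_lit 536870912) .dd))) (.ch
 (nat_lit 6) (.ev (nat_lit 624) (nat_lit 536870912) (.ev (nat_lit 640) (nat_lit 134217728) (.ev (nat_lit 836)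
 (nat_lit 262144) (.ev (nat_lit 845) (nat_lit 33554432) .dd)))))))))) (.br (nat_lit 3) (.ch (nat_lit 2) (.ev
 (nat_lit 576) (nat_lit 704905216) (.nd (nat_lit 608) (.br (nat_lit 5) (.br (nat_lit 4) (.ch (nat_lit 0) (.ev
 (nat_lit 624) (nat_lit 1081344) (.ev (nat_lit 637) (nat_lit 16) .dd))) (.ch (nat_lit 4) (.ev (nat_lit 708)
 (nat_lit 16) (.ev (nat_lit 836) (nat_lit 32768) (.ev (nat_lit 845) (nat_lit 1048576) .dd))))) (.br (nat_lit 6)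
 (.ch (nat_lit 5) (.ev (nat_lit 624) (nat_lit 1081344) (.ev (nat_lit 637) (nat_lit 16) .dd))) (.ch (nat_lit 6)
 (.ev (nat_lit 656) (nat_lit 1048576) (.ev (nat_lit 708) (nat_lit 16) (.ev (nat_lit 717) (nat_lit 32768)
 .dd))))))))) (.ch (nat_lit 3) (.ev (nat_lit 576) (nat_lit 135266304) (.nd (nat_lit 608) (.br (nat_lit 5) (.ch
 (nat_lit 1) (.ev (nat_lit 624) (nat_lit 536870912) (.ev (nat_lit 1120) (nat_lit 32768) (.ev (nat_lit 1156)
 (nat_lit 262144) (.fin (nat_lit 576487690313613859)))))) (.br (nat_lit 6) (.ch (nat_lit 5) (.ev (nat_lit 624)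
 (nat_lit 262160) (.ev (nat_lit 720) (nat_lit 536870912) (.ev (nat_lit 1012) (nat_lit 33554432) (.ev (nat_lit
 1021) (nat_lit 32768) .dd))))) (.ch (nat_lit 6) (.ev (nat_lit 624) (nat_lit 33587200) (.ev (nat_lit 1200)
 (nat_lit 262144) (.nd (nat_lit 1280) (.br (nat_lit 5) (.ch (nat_lit 0) (.ev (nat_lit 1296) (nat_lit 16) (.ev
 (nat_lit 1309) (nat_lit 536870912) .dd))) (.ch (nat_lit 5) (.fin (nat_lit
 576445908903215703))))))))))))))))))))))) (.ch (nat_lit 36) (.ev (nat_lit 52) (nat_lit 8758198304) (.ev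
 (nat_lit 84) (nat_lit 10240) (.ev (nat_lit 116) (nat_lit 1024) (.ev (nat_lit 160) (nat_lit 540017042)
 .dd))))))) (.br (nat_lit 39) (.br (nat_lit 38) (.ch (nat_lit 37) (.ev (nat_lit 52) (nat_lit 2263328) (.ev
 (nat_lit 116) (nat_lit 134217728) (.nd (nat_lit 560) (.br (nat_lit 2) (.br (nat_lit 1) (.ch (nat_lit 0) (.ev
 (nat_lit 576) (nat_lit 8624799890) (.nd (nat_lit 608) (.br (nat_lit 5) (.br (nat_lit 4) (.ch (nat_lit 0) (.ev
 (nat_lit 624) (nat_lit 536880128) (.ev (nat_lit 637) (nat_lit 65536) .dd))) (.ch (nat_lit 4) (.ev (nat_lit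
 624) (nat_lit 9216) (.fin (nat_lit 576476695228793445))))) (.br (nat_lit 6) (.ch (nat_lit 5) (.ev (nat_lit
 624) (nat_lit 536871936) (.ev (nat_lit 708) (nat_lit 65536) (.ev (nat_lit 717) (nat_lit 8192) .dd)))) (.ch
 (nat_lit 6) (.ev (nat_lit 624) (nat_lit 536870912) (.ev (nat_lit 836) (nat_lit 8192) (.ev (nat_lit 964)
 (nat_lit 1024) (.ev (nat_lit 973) (nat_lit 65536) .dd)))))))))) (.ch (nat_lit 1) (.ev (nat_lit 576) (nat_lit
 1385618) (.nd (nat_lit 608) (.br (nat_lit 3) (.ch (nat_lit 0) (.ev (nat_lit 836) (nat_lit 8589934592) (.fin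
 (nat_lit 576462401619575353)))) (.br (nat_lit 5) (.ch (nat_lit 3) (.ev (nat_lit 624) (nat_lit 9126805504) (.ev
 (nat_lit 637) (nat_lit 33554432) .dd))) (.ch (nat_lit 5) (.ev (nat_lit 624) (nat_lit 9126805504) (.ev (nat_lit
 637) (nat_lit 33554432) .dd))))))))) (.br (nat_lit 3) (.ch (nat_lit 2) (.ev (nat_lit 576) (nat_lit 73730) (.nd
 (nat_lit 608) (.br (nat_lit 5) (.br (nat_lit 4) (.ch (nat_lit 1) (.ev (nat_lit 624) (nat_lit 571736080) (.ev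
 (nat_lit 800) (nat_lit 128) (.fin (nat_lit 576494287372894825))))) (.ch (nat_lit 4) (.ev (nat_lit 624)
 (nat_lit 8590984320) (.ev (nat_lit 720) (nat_lit 262144) (.ev (nat_lit 768) (nat_lit 16) (.fin (nat_lit
 576462401619575353))))))) (.br (nat_lit 6) (.ch (nat_lit 5) (.ev (nat_lit 624) (nat_lit 537134208) (.ev
 (nat_lit 640) (nat_lit 33554432) (.ev (nat_lit 1088) (nat_lit 1048576) (.ev (nat_lit 1156) (nat_lit
 8589934592) (.ev (nat_lit 1165) (nat_lit 16) .dd)))))) (.ch (nat_lit 6) (.ev (nat_lit 624) (nat_lit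
 9127067792) (.ev (nat_lit 708) (nat_lit 33554432) (.ev (nat_lit 980) (nat_lit 1048576) (.ev (nat_lit 989)
 (nat_lit 1024) .dd)))))))))) (.ch (nat_lit 3) (.ev (nat_lit 576) (nat_lit 8623563776) (.nd (nat_lit 608) (.br
 (nat_lit 5) (.ch (nat_lit 3) (.ev (nat_lit 624) (nat_lit 130) (.ev (nat_lit 708) (nat_lit 536870912) (.ev
 (nat_lit 864) (nat_lit 262144) (.ev (nat_lit 1136) (nat_lit 16) (.ev (nat_lit 1149) (nat_lit 1048576)
 .dd)))))) (.br (nat_lit 6) (.ch (nat_lit 5) (.ev (nat_lit 624) (nat_lit 1310738) (.ev (nat_lit 912) (nat_lit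
 536871040) .dd))) (.ch (nat_lit 6) (.ev (nat_lit 624) (nat_lit 537919616) (.ev (nat_lit 640) (nat_lit 262146)
 (.ev (nat_lit 653) (nat_lit 16) .dd))))))))))))))) (.ch (nat_lit 38) (.ev (nat_lit 52) (nat_lit 402560) (.ev
 (nat_lit 84) (nat_lit 1048608) (.ev (nat_lit 116) (nat_lit 2162688) (.ev (nat_lit 180) (nat_lit 8589934592)
 (.ev (nat_lit 480) (nat_lit 2) (.nd (nat_lit 560) (.br (nat_lit 2) (.br (nat_lit 1) (.ch (nat_lit 0) (.ev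
 (nat_lit 576) (nat_lit 167774480) (.nd (nat_lit 608) (.br (nat_lit 1) (.ch (nat_lit 0) (.ev (nat_lit 624)
 (nat_lit 32768) (.ev (nat_lit 637) (nat_lit 536870912) .dd))) (.br (nat_lit 5) (.ch (nat_lit 1) (.ev (nat_lit
 624) (nat_lit 536870912) (.ev (nat_lit 637) (nat_lit 32768) .dd))) (.ch (nat_lit 5) (.ev (nat_lit 964)
 (nat_lit 536870912) (.ev (nat_lit 973) (nat_lit 32768) .dd)))))))) (.ch (nat_lit 1) (.ev (nat_lit 576)
 (nat_lit 33040) (.nd (nat_lit 608) (.br (nat_lit 3) (.ch (nat_lit 0) (.ev (nat_lit 624) (nat_lit 2048) (.ev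
 (nat_lit 964) (nat_lit 134217728) (.fin (nat_lit 576462401619575353))))) (.br (nat_lit 6) (.ch (nat_lit 3)
 (.ev (nat_lit 624) (nat_lit 671090688) (.ev (nat_lit 637) (nat_lit 33554432) .dd))) (.ch (nat_lit 6) (.ev
 (nat_lit 624) (nat_lit 536870912) (.ev (nat_lit 752) (nat_lit 33554432) (.ev (nat_lit 1056) (nat_lit
 134219776) .dd)))))))))) (.br (nat_lit 3) (.ch (nat_lit 2) (.ev (nat_lit 576) (nat_lit 134217744) (.nd
 (nat_lit 608) (.br (nat_lit 5) (.br (nat_lit 4) (.ch (nat_lit 1) (.ev (nat_lit 624) (nat_lit 536905984) (.ev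
 (nat_lit 637) (nat_lit 33554432) .dd))) (.ch (nat_lit 4) (.ev (nat_lit 624) (nat_lit 2304) (.ev (nat_lit 836)
 (nat_lit 32768) (.fin (nat_lit 576462401619575353)))))) (.br (nat_lit 6) (.ch (nat_lit 5) (.ev (nat_lit 624)
 (nat_lit 536870912) (.ev (nat_lit 848) (nat_lit 33554432) (.ev (nat_lit 992) (nat_lit 256) (.ev (nat_lit 1248)
 (nat_lit 2048) (.ev (nat_lit 1261) (nat_lit 32768) .dd)))))) (.ch (nat_lit 6) (.ev (nat_lit 624) (nat_lit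
 570458112) (.ev (nat_lit 1024) (nat_lit 2048) (.ev (nat_lit 1037) (nat_lit 256) .dd))))))))) (.ch (nat_lit 3)
 (.ev (nat_lit 576) (nat_lit 167806976) (.nd (nat_lit 608) (.br (nat_lit 1) (.ch (nat_lit 0) (.ev (nat_lit 624)
 (nat_lit 536870912) (.ev (nat_lit 720) (nat_lit 16) (.ev (nat_lit 733) (nat_lit 256) .dd)))) (.br (nat_lit 6)
 (.ch (nat_lit 1) (.ev (nat_lit 624) (nat_lit 536870928) (.ev (nat_lit 637) (nat_lit 256) .dd))) (.ch (nat_lit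
 6) (.ev (nat_lit 624) (nat_lit 256) (.fin (nat_lit 576476695218307625))))))))))))))))))) (.br (nat_lit 42)
 (.ch (nat_lit 39) (.ev (nat_lit 52) (nat_lit 9129043106) (.ev (nat_lit 84) (nat_lit 2048) (.ev (nat_lit 496)
 (nat_lit 1048576) (.nd (nat_lit 560) (.br (nat_lit 1) (.ch (nat_lit 0) (.ev (nat_lit 576) (nat_lit 256) (.nd
 (nat_lit 608) (.br (nat_lit 5) (.br (nat_lit 4) (.ch (nat_lit 0) (.ev (nat_lit 624) (nat_lit 167804944) (.fin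
 (nat_lit 576432714774168105)))) (.ch (nat_lit 4) (.ev (nat_lit 624) (nat_lit 262144) (.ev (nat_lit 656)
 (nat_lit 33554432) (.ev (nat_lit 708) (nat_lit 65536) (.ev (nat_lit 880) (nat_lit 32768) (.ev (nat_lit 928)
 (nat_lit 134217728) (.ev (nat_lit 941) (nat_lit 16) .dd)))))))) (.br (nat_lit 6) (.ch (nat_lit 5) (.ev
 (nat_lit 624) (nat_lit 33816576) (.ev (nat_lit 736) (nat_lit 32768) (.ev (nat_lit 816) (nat_lit 134217728)
 (.ev (nat_lit 980) (nat_lit 65536) (.ev (nat_lit 989) (nat_lit 16) .dd)))))) (.ch (nat_lit 6) (.ev (nat_lit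
 624) (nat_lit 168067088) (.ev (nat_lit 637) (nat_lit 65536) .dd)))))))) (.br (nat_lit 2) (.ch (nat_lit 1) (.ev
 (nat_lit 576) (nat_lit 134578192) (.nd (nat_lit 608) (.br (nat_lit 1) (.ch (nat_lit 0) (.ev (nat_lit 624)
 (nat_lit 33554432) (.ev (nat_lit 637) (nat_lit 256) .dd))) (.br (nat_lit 3) (.ch (nat_lit 1) (.ev (nat_lit
 624) (nat_lit 33554432) (.ev (nat_lit 637) (nat_lit 256) .dd))) (.ch (nat_lit 3) (.ev (nat_lit 624) (nat_lit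
 256) (.ev (nat_lit 637) (nat_lit 33554432) .dd)))))))) (.ch (nat_lit 2) (.ev (nat_lit 576) (nat_lit 98560)
 (.nd (nat_lit 608) (.br (nat_lit 5) (.br (nat_lit 1) (.ch (nat_lit 0) (.ev (nat_lit 624) (nat_lit 167772176)
 (.ev (nat_lit 637) (nat_lit 262144) .dd))) (.ch (nat_lit 1) (.ev (nat_lit 624) (nat_lit 33816592) (.ev
 (nat_lit 637) (nat_lit 134217728) .dd)))) (.br (nat_lit 6) (.ch (nat_lit 5) (.ev (nat_lit 624) (nat_lit
 134479872) (.ev (nat_lit 656) (nat_lit 33554432) (.ev (nat_lit 669) (nat_lit 16) .dd)))) (.ch (nat_lit 6) (.ev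
 (nat_lit 624) (nat_lit 33554432) (.ev (nat_lit 1168) (nat_lit 16) (.nd (nat_lit 1280) (.br (nat_lit 5) (.ch
 (nat_lit 1) (.fin (nat_lit 576514078607360605))) (.ch (nat_lit 5) (.ev (nat_lit 1296) (nat_lit 134479872)
 .dd))))))))))))))))))) (.ch (nat_lit 42) (.ev (nat_lit 52) (nat_lit 34736160) (.ev (nat_lit 148) (nat_lit
 8589934592) (.ev (nat_lit 180) (nat_lit 256) (.ev (nat_lit 240) (nat_lit 134217856) (.nd (nat_lit 560) (.br
 (nat_lit 3) (.ch (nat_lit 0) (.ev (nat_lit 576) (nat_lit 2359298) (.nd (nat_lit 608) (.br (nat_lit 4) (.ch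
 (nat_lit 0) (.ev (nat_lit 624) (nat_lit 536870928) (.ev (nat_lit 640) (nat_lit 65536) (.ev (nat_lit 656)
 (nat_lit 1024) (.ev (nat_lit 848) (nat_lit 40960) .dd))))) (.br (nat_lit 5) (.ch (nat_lit 4) (.ev (nat_lit
 624) (nat_lit 1040) (.ev (nat_lit 1156) (nat_lit 40960) (.nd (nat_lit 1280) (.br (nat_lit 5) (.ch (nat_lit 3)
 (.ev (nat_lit 1296) (nat_lit 65536) (.ev (nat_lit 1309) (nat_lit 536870912) .dd))) (.ch (nat_lit 5) (.fin
 (nat_lit 576445908892729883)))))))) (.ch (nat_lit 5) (.ev (nat_lit 624) (nat_lit 107520) (.ev (nat_lit 720)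
 (nat_lit 536870912) (.ev (nat_lit 733) (nat_lit 16) .dd))))))))) (.br (nat_lit 6) (.ch (nat_lit 3) (.ev
 (nat_lit 576) (nat_lit 65552) (.nd (nat_lit 608) (.br (nat_lit 3) (.br (nat_lit 1) (.ch (nat_lit 0) (.ev
 (nat_lit 624) (nat_lit 537166850) (.ev (nat_lit 964) (nat_lit 8192) (.ev (nat_lit 973) (nat_lit 2097152)
 .dd)))) (.ch (nat_lit 1) (.ev (nat_lit 624) (nat_lit 538976256) (.ev (nat_lit 656) (nat_lit 1024) (.ev
 (nat_lit 708) (nat_lit 262144) (.ev (nat_lit 928) (nat_lit 2) (.ev (nat_lit 941) (nat_lit 32768) .dd)))))))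
 (.br (nat_lit 5) (.ch (nat_lit 3) (.ev (nat_lit 624) (nat_lit 2098176) (.ev (nat_lit 708) (nat_lit 536903680)
 (.ev (nat_lit 816) (nat_lit 2) (.ev (nat_lit 1104) (nat_lit 262144) (.ev (nat_lit 1117) (nat_lit 8192)
 .dd)))))) (.ch (nat_lit 5) (.ev (nat_lit 624) (nat_lit 2401282) (.ev (nat_lit 637) (nat_lit 536870912)
 .dd)))))))) (.ch (nat_lit 6) (.ev (nat_lit 576) (nat_lit 536977424) (.nd (nat_lit 608) (.br (nat_lit 1) (.ch
 (nat_lit 0) (.ev (nat_lit 624) (nat_lit 1024) (.ev (nat_lit 1216) (nat_lit 262144) (.nd (nat_lit 1280) (.br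
 (nat_lit 3) (.ch (nat_lit 1) (.fin (nat_lit 576481093281595927))) (.ch (nat_lit 3) (.ev (nat_lit 1296)
 (nat_lit 2) (.ev (nat_lit 1309) (nat_lit 2097152) .dd)))))))) (.br (nat_lit 3) (.ch (nat_lit 1) (.ev (nat_lit
 624) (nat_lit 263170) (.ev (nat_lit 637) (nat_lit 2097152) .dd))) (.ch (nat_lit 3) (.ev (nat_lit 624) (nat_lit
 2097152) (.ev (nat_lit 656) (nat_lit 1024) (.ev (nat_lit 708) (nat_lit 2) (.ev (nat_lit 717) (nat_lit 262144)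
 .dd)))))))))))))))))))))))))

/-- Subtrie. -/
noncomputable def T3 : Tr := (.ev (nat_lit 20) (nat_lit 536872320) (.nd (nat_lit 33) (.br (nat_lit 22) (.br
 (nat_lit 9) (.br (nat_lit 6) (.br (nat_lit 4) (.ch (nat_lit 1) (.ev (nat_lit 52) (nat_lit 140324864) (.ev
 (nat_lit 84) (nat_lit 32768) (.ev (nat_lit 116) (nat_lit 2) (.ev (nat_lit 148) (nat_lit 67108864) (.ev
 (nat_lit 180) (nat_lit 16) (.ev (nat_lit 212) (nat_lit 68719476736) (.ev (nat_lit 416) (nat_lit 2048) (.nd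
 (nat_lit 560) (.br (nat_lit 5) (.ch (nat_lit 3) (.ev (nat_lit 576) (nat_lit 44075843584) (.nd (nat_lit 608)
 (.br (nat_lit 2) (.ch (nat_lit 1) (.ev (nat_lit 624) (nat_lit 131072) (.ev (nat_lit 637) (nat_lit 32) .dd)))
 (.br (nat_lit 5) (.ch (nat_lit 2) (.ev (nat_lit 896) (nat_lit 131072) (.ev (nat_lit 909) (nat_lit 32) .dd)))
 (.ch (nat_lit 5) (.ev (nat_lit 624) (nat_lit 131104) .dd))))))) (.br (nat_lit 6) (.ch (nat_lit 5) (.ev
 (nat_lit 576) (nat_lit 19005472) (.nd (nat_lit 608) (.br (nat_lit 5) (.ch (nat_lit 0) (.ev (nat_lit 624)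
 (nat_lit 34393292800) (.ev (nat_lit 1104) (nat_lit 8589934592) (.ev (nat_lit 1117) (nat_lit 1073741824)
 .dd)))) (.br (nat_lit 6) (.ch (nat_lit 5) (.ev (nat_lit 624) (nat_lit 9697230848) (.ev (nat_lit 637) (nat_lit
 34359738368) .dd))) (.ch (nat_lit 6) (.ev (nat_lit 624) (nat_lit 44023414784) (.ev (nat_lit 637) (nat_lit
 33554432) .dd)))))))) (.ch (nat_lit 6) (.ev (nat_lit 576) (nat_lit 33685504) (.nd (nat_lit 608) (.br (nat_lit
 1) (.ch (nat_lit 0) (.ev (nat_lit 624) (nat_lit 42968547328) (.ev (nat_lit 964) (nat_lit 32) (.ev (nat_lit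
 973) (nat_lit 1073741824) .dd)))) (.br (nat_lit 3) (.ch (nat_lit 1) (.ev (nat_lit 624) (nat_lit 42949672960)
 (.ev (nat_lit 708) (nat_lit 32) (.ev (nat_lit 720) (nat_lit 16777216) (.ev (nat_lit 1120) (nat_lit 2097152)
 (.ev (nat_lit 1133) (nat_lit 1073741824) .dd)))))) (.ch (nat_lit 3) (.ev (nat_lit 624) (nat_lit 1073741856)
 (.ev (nat_lit 768) (nat_lit 16777216) (.ev (nat_lit 848) (nat_lit 34359738368) (.fin (nat_lit
 576461302034547215)))))))))))))))))))))) (.br (nat_lit 5) (.ch (nat_lit 4) (.ev (nat_lit 52) (nat_lit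
 68838203408) (.ev (nat_lit 84) (nat_lit 4194304) (.ev (nat_lit 148) (nat_lit 2097152) (.ev (nat_lit 180)
 (nat_lit 134217728) (.nd (nat_lit 560) (.br (nat_lit 3) (.ch (nat_lit 2) (.ev (nat_lit 576) (nat_lit 524322)
 (.nd (nat_lit 608) (.br (nat_lit 3) (.ch (nat_lit 2) (.ev (nat_lit 624) (nat_lit 42949935104) (.ev (nat_lit
 1104) (nat_lit 4096) (.fin (nat_lit 576408525514162733))))) (.br (nat_lit 4) (.ch (nat_lit 3) (.ev (nat_lit
 624) (nat_lit 1074010112) (.ev (nat_lit 1156) (nat_lit 8589934592) (.ev (nat_lit 1165) (nat_lit 34359738368)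
 .dd)))) (.ch (nat_lit 4) (.ev (nat_lit 624) (nat_lit 42949679104) (.ev (nat_lit 708) (nat_lit 1073741824) (.ev
 (nat_lit 717) (nat_lit 262144) .dd))))))))) (.br (nat_lit 5) (.ch (nat_lit 3) (.ev (nat_lit 576) (nat_lit
 44023414784) (.nd (nat_lit 608) (.br (nat_lit 4) (.br (nat_lit 2) (.ch (nat_lit 1) (.ev (nat_lit 624) (nat_lit
 4098) (.ev (nat_lit 708) (nat_lit 32) (.ev (nat_lit 752) (nat_lit 262144) (.ev (nat_lit 964) (nat_lit 2048)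
 (.ev (nat_lit 973) (nat_lit 524288) .dd)))))) (.ch (nat_lit 2) (.ev (nat_lit 624) (nat_lit 788482) (.ev
 (nat_lit 640) (nat_lit 4128) .dd)))) (.br (nat_lit 6) (.ch (nat_lit 4) (.ev (nat_lit 708) (nat_lit 262176)
 (.ev (nat_lit 836) (nat_lit 2) (.ev (nat_lit 1012) (nat_lit 2048) (.nd (nat_lit 1280) (.br (nat_lit 2) (.ch
 (nat_lit 1) (.fin (nat_lit 576415122598609465))) (.ch (nat_lit 2) (.ev (nat_lit 1296) (nat_lit 528384)
 .dd)))))))) (.ch (nat_lit 6) (.ev (nat_lit 624) (nat_lit 792578) (.ev (nat_lit 637) (nat_lit 32) .dd))))))))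
 (.ch (nat_lit 5) (.ev (nat_lit 576) (nat_lit 792578) (.nd (nat_lit 608) (.br (nat_lit 4) (.ch (nat_lit 1) (.ev
 (nat_lit 624) (nat_lit 1073741824) (.ev (nat_lit 1184) (nat_lit 34359738368) (.fin (nat_lit
 576426117729567295))))) (.br (nat_lit 6) (.ch (nat_lit 4) (.ev (nat_lit 944) (nat_lit 8589934592) (.ev
 (nat_lit 992) (nat_lit 34359738368) (.fin (nat_lit 576489889347355203))))) (.ch (nat_lit 6) (.ev (nat_lit 624)
 (nat_lit 44023414816) .dd))))))))))))))) (.ch (nat_lit 5) (.ev (nat_lit 52) (nat_lit 69832417298) (.nd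
 (nat_lit 560) (.br (nat_lit 5) (.br (nat_lit 2) (.ch (nat_lit 0) (.ev (nat_lit 576) (nat_lit 42951774240) (.ev
 (nat_lit 596) (nat_lit 67108864) (.nd (nat_lit 608) (.br (nat_lit 3) (.ch (nat_lit 2) (.ev (nat_lit 624)
 (nat_lit 559104) (.ev (nat_lit 640) (nat_lit 65536) (.ev (nat_lit 964) (nat_lit 134217728) (.ev (nat_lit 973)
 (nat_lit 16777216) .dd))))) (.br (nat_lit 5) (.ch (nat_lit 3) (.ev (nat_lit 624) (nat_lit 151586816) (.ev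
 (nat_lit 637) (nat_lit 32768) .dd))) (.ch (nat_lit 5) (.ev (nat_lit 624) (nat_lit 32768) (.ev (nat_lit 784)
 (nat_lit 524288) (.ev (nat_lit 836) (nat_lit 65536) (.ev (nat_lit 1012) (nat_lit 134217728) (.fin (nat_lit
 576441510862996073))))))))))))) (.ch (nat_lit 2) (.ev (nat_lit 576) (nat_lit 34496677920) (.nd (nat_lit 608)
 (.br (nat_lit 4) (.br (nat_lit 2) (.ch (nat_lit 0) (.ev (nat_lit 624) (nat_lit 8657047552) (.ev (nat_lit 637)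
 (nat_lit 16777216) .dd))) (.ch (nat_lit 2) (.ev (nat_lit 624) (nat_lit 83886080) (.ev (nat_lit 1072) (nat_lit
 8589938688) .dd)))) (.br (nat_lit 6) (.ch (nat_lit 4) (.ev (nat_lit 624) (nat_lit 8657043456) (.ev (nat_lit
 1264) (nat_lit 16781312) .dd))) (.ch (nat_lit 6) (.ev (nat_lit 624) (nat_lit 8606715904) (.ev (nat_lit 637)
 (nat_lit 67108864) .dd))))))))) (.br (nat_lit 6) (.ch (nat_lit 5) (.ev (nat_lit 576) (nat_lit 8741554176) (.nd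
 (nat_lit 608) (.br (nat_lit 4) (.ch (nat_lit 1) (.ev (nat_lit 624) (nat_lit 69206048) (.ev (nat_lit 752)
 (nat_lit 34359738368) (.ev (nat_lit 765) (nat_lit 4096) .dd)))) (.br (nat_lit 6) (.ch (nat_lit 4) (.ev
 (nat_lit 624) (nat_lit 4096) (.ev (nat_lit 708) (nat_lit 32) (.ev (nat_lit 836) (nat_lit 2097152) (.fin
 (nat_lit 576464600590402111)))))) (.ch (nat_lit 6) (.ev (nat_lit 624) (nat_lit 69210112) (.ev (nat_lit 640)
 (nat_lit 34359738400) .dd)))))))) (.ch (nat_lit 6) (.ev (nat_lit 576) (nat_lit 34377044000) (.nd (nat_lit 608)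
 (.br (nat_lit 3) (.ch (nat_lit 0) (.ev (nat_lit 624) (nat_lit 67174400) (.ev (nat_lit 708) (nat_lit 136314880)
 (.ev (nat_lit 944) (nat_lit 8589936640) (.ev (nat_lit 957) (nat_lit 32768) .dd))))) (.br (nat_lit 4) (.ch
 (nat_lit 3) (.ev (nat_lit 624) (nat_lit 67209216) (.ev (nat_lit 1232) (nat_lit 134217728) (.fin (nat_lit
 576461302034547215))))) (.ch (nat_lit 4) (.ev (nat_lit 624) (nat_lit 8726249472) (.ev (nat_lit 736) (nat_lit
 65536) (.ev (nat_lit 836) (nat_lit 67108864) (.ev (nat_lit 980) (nat_lit 32768) (.ev (nat_lit 989) (nat_lit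
 2048) .dd)))))))))))))))))) (.br (nat_lit 7) (.ch (nat_lit 6) (.ev (nat_lit 52) (nat_lit 137469968) (.ev
 (nat_lit 84) (nat_lit 8594259968) (.ev (nat_lit 116) (nat_lit 1073741824) (.nd (nat_lit 560) (.br (nat_lit 3)
 (.br (nat_lit 2) (.ch (nat_lit 0) (.ev (nat_lit 576) (nat_lit 34460407842) (.nd (nat_lit 608) (.br (nat_lit 5)
 (.br (nat_lit 3) (.ch (nat_lit 2) (.ev (nat_lit 624) (nat_lit 262144) (.ev (nat_lit 836) (nat_lit 524288) (.ev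
 (nat_lit 964) (nat_lit 68719476736) (.ev (nat_lit 973) (nat_lit 16777216) .dd))))) (.ch (nat_lit 3) (.ev
 (nat_lit 624) (nat_lit 68720001024) (.fin (nat_lit 576443709890445905))))) (.br (nat_lit 6) (.ch (nat_lit 5)
 (.ev (nat_lit 624) (nat_lit 68720263168) (.ev (nat_lit 637) (nat_lit 16777216) .dd))) (.ch (nat_lit 6) (.ev
 (nat_lit 624) (nat_lit 68719738880) (.ev (nat_lit 708) (nat_lit 16777216) (.ev (nat_lit 717) (nat_lit 524288)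
 .dd))))))))) (.ch (nat_lit 2) (.ev (nat_lit 576) (nat_lit 68736780320) (.nd (nat_lit 608) (.br (nat_lit 2)
 (.ch (nat_lit 0) (.ev (nat_lit 624) (nat_lit 100663296) (.ev (nat_lit 708) (nat_lit 262144) (.ev (nat_lit 864)
 (nat_lit 2) (.ev (nat_lit 1136) (nat_lit 4096) (.ev (nat_lit 1149) (nat_lit 34359738368) .dd)))))) (.br
 (nat_lit 6) (.ch (nat_lit 2) (.ev (nat_lit 624) (nat_lit 34393554944) (.ev (nat_lit 640) (nat_lit 67108866)
 (.ev (nat_lit 653) (nat_lit 4096) .dd)))) (.ch (nat_lit 6) (.ev (nat_lit 624) (nat_lit 34426851330) (.ev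
 (nat_lit 912) (nat_lit 33816576) .dd))))))))) (.br (nat_lit 6) (.ch (nat_lit 3) (.ev (nat_lit 576) (nat_lit
 103197184002) (.nd (nat_lit 608) (.br (nat_lit 5) (.ch (nat_lit 4) (.ev (nat_lit 836) (nat_lit 32) (.fin
 (nat_lit 576471197628711520)))) (.br (nat_lit 6) (.ch (nat_lit 5) (.ev (nat_lit 624) (nat_lit 262176) (.ev
 (nat_lit 637) (nat_lit 2048) .dd))) (.ch (nat_lit 6) (.ev (nat_lit 624) (nat_lit 262176) (.ev (nat_lit 637)
 (nat_lit 2048) .dd)))))))) (.ch (nat_lit 6) (.ev (nat_lit 576) (nat_lit 84410368) (.nd (nat_lit 608) (.br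
 (nat_lit 3) (.br (nat_lit 2) (.ch (nat_lit 0) (.ev (nat_lit 624) (nat_lit 68753293314) (.ev (nat_lit 640)
 (nat_lit 2048) (.ev (nat_lit 1088) (nat_lit 34359738368) (.ev (nat_lit 1156) (nat_lit 32) (.ev (nat_lit 1165)
 (nat_lit 4096) .dd)))))) (.ch (nat_lit 2) (.ev (nat_lit 624) (nat_lit 34360006658) (.ev (nat_lit 800) (nat_lit
 33554432) (.fin (nat_lit 576434913755480669)))))) (.br (nat_lit 4) (.ch (nat_lit 3) (.ev (nat_lit 624)
 (nat_lit 33820706) (.ev (nat_lit 708) (nat_lit 2048) (.ev (nat_lit 980) (nat_lit 34359738368) (.ev (nat_lit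
 989) (nat_lit 68719476736) .dd))))) (.ch (nat_lit 4) (.ev (nat_lit 624) (nat_lit 103112769568) (.ev (nat_lit
 720) (nat_lit 2) (.ev (nat_lit 768) (nat_lit 4096) (.fin (nat_lit 576451406492811808)))))))))))))))))) (.br
 (nat_lit 8) (.ch (nat_lit 7) (.ev (nat_lit 52) (nat_lit 1093216304) (.ev (nat_lit 64) (nat_lit 111909703682)
 .dd))) (.ch (nat_lit 8) (.ev (nat_lit 52) (nat_lit 8644788242) (.ev (nat_lit 64) (nat_lit 104358131744)
 .dd)))))) (.br (nat_lit 13) (.br (nat_lit 10) (.ch (nat_lit 9) (.ev (nat_lit 52) (nat_lit 1276649520) (.ev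
 (nat_lit 84) (nat_lit 8589969410) (.nd (nat_lit 560) (.br (nat_lit 3) (.ch (nat_lit 2) (.ev (nat_lit 576)
 (nat_lit 68721774592) (.nd (nat_lit 608) (.br (nat_lit 4) (.ch (nat_lit 2) (.ev (nat_lit 624) (nat_lit
 34364194816) (.ev (nat_lit 1156) (nat_lit 33554432) (.ev (nat_lit 1165) (nat_lit 16777216) .dd)))) (.br
 (nat_lit 6) (.ch (nat_lit 4) (.ev (nat_lit 624) (nat_lit 34393554944) (.ev (nat_lit 720) (nat_lit 20971520)
 .dd))) (.ch (nat_lit 6) (.ev (nat_lit 624) (nat_lit 50331648) (.ev (nat_lit 1056) (nat_lit 34359738368) (.fin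
 (nat_lit 576437112845845075)))))))))) (.br (nat_lit 6) (.ch (nat_lit 3) (.ev (nat_lit 576) (nat_lit
 34414526464) (.nd (nat_lit 608) (.br (nat_lit 4) (.ch (nat_lit 2) (.ev (nat_lit 624) (nat_lit 68721573888)
 (.ev (nat_lit 1056) (nat_lit 65536) (.fin (nat_lit 576437112764056147))))) (.br (nat_lit 6) (.ch (nat_lit 4)
 (.ev (nat_lit 624) (nat_lit 68719546368) (.ev (nat_lit 720) (nat_lit 2228224) .dd))) (.ch (nat_lit 6) (.ev
 (nat_lit 624) (nat_lit 200704) (.ev (nat_lit 1156) (nat_lit 68719476736) (.ev (nat_lit 1165) (nat_lit 2097152)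
 .dd))))))))) (.ch (nat_lit 6) (.ev (nat_lit 576) (nat_lit 34359803904) (.nd (nat_lit 608) (.br (nat_lit 2)
 (.ch (nat_lit 1) (.ev (nat_lit 624) (nat_lit 68721967104) (.ev (nat_lit 708) (nat_lit 4194304) (.ev (nat_lit
 980) (nat_lit 16777216) (.ev (nat_lit 1012) (nat_lit 33554432) (.ev (nat_lit 1021) (nat_lit 4096) .dd))))))
 (.br (nat_lit 3) (.ch (nat_lit 2) (.ev (nat_lit 624) (nat_lit 266240) (.ev (nat_lit 708) (nat_lit 56754176)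
 (.ev (nat_lit 717) (nat_lit 68719476736) .dd)))) (.ch (nat_lit 3) (.ev (nat_lit 624) (nat_lit 54530048) (.ev
 (nat_lit 708) (nat_lit 131072) (.ev (nat_lit 980) (nat_lit 2097152) (.ev (nat_lit 1012) (nat_lit 68719476736)
 (.ev (nat_lit 1021) (nat_lit 262144) .dd))))))))))))))))) (.br (nat_lit 12) (.ch (nat_lit 10) (.ev (nat_lit
 52) (nat_lit 8609374210) (.ev (nat_lit 116) (nat_lit 32) (.ev (nat_lit 180) (nat_lit 68719480832) (.nd
 (nat_lit 560) (.br (nat_lit 5) (.br (nat_lit 2) (.ch (nat_lit 0) (.ev (nat_lit 576) (nat_lit 35605839888) (.nd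
 (nat_lit 608) (.br (nat_lit 5) (.br (nat_lit 4) (.ch (nat_lit 3) (.ev (nat_lit 624) (nat_lit 67176448) (.ev
 (nat_lit 637) (nat_lit 1048576) .dd))) (.ch (nat_lit 4) (.ev (nat_lit 624) (nat_lit 68157440) (.ev (nat_lit
 1072) (nat_lit 67584) .dd)))) (.br (nat_lit 6) (.ch (nat_lit 5) (.ev (nat_lit 624) (nat_lit 67110912) (.ev
 (nat_lit 1264) (nat_lit 1114112) .dd))) (.ch (nat_lit 6) (.ev (nat_lit 624) (nat_lit 1116160) (.ev (nat_lit
 637) (nat_lit 67108864) .dd)))))))) (.ch (nat_lit 2) (.ev (nat_lit 576) (nat_lit 34495201280) (.nd (nat_lit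
 608) (.br (nat_lit 4) (.ch (nat_lit 2) (.ev (nat_lit 624) (nat_lit 105119744) (.ev (nat_lit 1232) (nat_lit 16)
 (.fin (nat_lit 576408525514162733))))) (.br (nat_lit 6) (.ch (nat_lit 4) (.ev (nat_lit 624) (nat_lit 67371008)
 (.ev (nat_lit 708) (nat_lit 1073741840) (.ev (nat_lit 944) (nat_lit 4196352) (.ev (nat_lit 957) (nat_lit
 33554432) .dd))))) (.ch (nat_lit 6) (.ev (nat_lit 624) (nat_lit 1073743888) (.ev (nat_lit 736) (nat_lit
 262144) (.ev (nat_lit 836) (nat_lit 67108864) (.ev (nat_lit 980) (nat_lit 33554432) (.ev (nat_lit 989)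
 (nat_lit 4194304) .dd)))))))))))) (.br (nat_lit 6) (.ch (nat_lit 5) (.ev (nat_lit 576) (nat_lit 39192592) (.nd
 (nat_lit 608) (.br (nat_lit 5) (.ch (nat_lit 4) (.ev (nat_lit 624) (nat_lit 65536) (.ev (nat_lit 708) (nat_lit
 134217728) (.ev (nat_lit 836) (nat_lit 1073741824) (.fin (nat_lit 576464600590402111)))))) (.br (nat_lit 6)
 (.ch (nat_lit 5) (.ev (nat_lit 624) (nat_lit 1140916224) (.ev (nat_lit 640) (nat_lit 34493956096) .dd))) (.ch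
 (nat_lit 6) (.ev (nat_lit 624) (nat_lit 1275068416) (.ev (nat_lit 752) (nat_lit 34359738368) (.ev (nat_lit
 765) (nat_lit 65536) .dd))))))))) (.ch (nat_lit 6) (.ev (nat_lit 576) (nat_lit 35567765504) (.ev (nat_lit 596)
 (nat_lit 67108864) (.nd (nat_lit 608) (.br (nat_lit 2) (.ch (nat_lit 1) (.ev (nat_lit 624) (nat_lit 5636112)
 (.ev (nat_lit 637) (nat_lit 33554432) .dd))) (.br (nat_lit 4) (.ch (nat_lit 2) (.ev (nat_lit 624) (nat_lit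
 33554432) (.ev (nat_lit 784) (nat_lit 131072) (.ev (nat_lit 836) (nat_lit 262144) (.ev (nat_lit 1012) (nat_lit
 16) (.fin (nat_lit 576507481522913891))))))) (.ch (nat_lit 4) (.ev (nat_lit 624) (nat_lit 37879808) (.ev
 (nat_lit 640) (nat_lit 262144) (.ev (nat_lit 964) (nat_lit 16) (.ev (nat_lit 973) (nat_lit 1048576)
 .dd)))))))))))))))))) (.ch (nat_lit 12) (.ev (nat_lit 52) (nat_lit 21858320) (.ev (nat_lit 116) (nat_lit
 33554432) (.ev (nat_lit 148) (nat_lit 68786585600) (.ev (nat_lit 180) (nat_lit 34359738368) (.ev (nat_lit 212)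
 (nat_lit 32) (.nd (nat_lit 560) (.br (nat_lit 5) (.br (nat_lit 3) (.ch (nat_lit 2) (.ev (nat_lit 576) (nat_lit
 9801179136) (.nd (nat_lit 608) (.br (nat_lit 3) (.ch (nat_lit 0) (.ev (nat_lit 624) (nat_lit 4096) (.ev
 (nat_lit 637) (nat_lit 2) .dd))) (.br (nat_lit 4) (.ch (nat_lit 3) (.ev (nat_lit 624) (nat_lit 4096) (.ev
 (nat_lit 637) (nat_lit 2) .dd))) (.ch (nat_lit 4) (.fin (nat_lit 576471197702111840)))))))) (.ch (nat_lit 3)
 (.ev (nat_lit 576) (nat_lit 9801048066) (.nd (nat_lit 608) (.br (nat_lit 4) (.br (nat_lit 2) (.ch (nat_lit 1)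
 (.ev (nat_lit 624) (nat_lit 4096) (.ev (nat_lit 637) (nat_lit 131072) .dd))) (.ch (nat_lit 2) (.ev (nat_lit
 624) (nat_lit 4096) (.ev (nat_lit 637) (nat_lit 131072) .dd)))) (.br (nat_lit 5) (.ch (nat_lit 4) (.ev
 (nat_lit 624) (nat_lit 131072) (.ev (nat_lit 637) (nat_lit 4096) .dd))) (.ch (nat_lit 5) (.ev (nat_lit 624)
 (nat_lit 135168) .dd)))))))) (.br (nat_lit 6) (.ch (nat_lit 5) (.ev (nat_lit 576) (nat_lit 1179650) (.nd
 (nat_lit 608) (.br (nat_lit 1) (.ch (nat_lit 0) (.ev (nat_lit 624) (nat_lit 2097152) (.ev (nat_lit 672)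
 (nat_lit 8192) (.ev (nat_lit 708) (nat_lit 4096) (.ev (nat_lit 736) (nat_lit 134217728) (.ev (nat_lit 964)
 (nat_lit 8589934592) (.ev (nat_lit 973) (nat_lit 1073741824) .dd))))))) (.br (nat_lit 4) (.ch (nat_lit 1) (.ev
 (nat_lit 624) (nat_lit 9797898240) (.ev (nat_lit 672) (nat_lit 8192) (.ev (nat_lit 685) (nat_lit 2097152)
 .dd)))) (.ch (nat_lit 4) (.ev (nat_lit 624) (nat_lit 134221824) (.ev (nat_lit 672) (nat_lit 8192) (.ev
 (nat_lit 836) (nat_lit 1073741824) (.ev (nat_lit 964) (nat_lit 2097152) (.ev (nat_lit 973) (nat_lit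
 8589934592) .dd))))))))))) (.ch (nat_lit 6) (.ev (nat_lit 576) (nat_lit 8192) (.nd (nat_lit 608) (.br (nat_lit
 2) (.br (nat_lit 1) (.ch (nat_lit 0) (.ev (nat_lit 624) (nat_lit 9664724992) (.ev (nat_lit 708) (nat_lit
 134217728) (.ev (nat_lit 768) (nat_lit 2097152) (.ev (nat_lit 836) (nat_lit 131072) (.fin (nat_lit
 576471197702111840))))))) (.ch (nat_lit 1) (.ev (nat_lit 624) (nat_lit 8725336064) (.ev (nat_lit 640) (nat_lit
 2) (.ev (nat_lit 1088) (nat_lit 1073741824) (.ev (nat_lit 1101) (nat_lit 2097152) .dd)))))) (.br (nat_lit 4)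
 (.ch (nat_lit 2) (.ev (nat_lit 624) (nat_lit 8726253568) (.ev (nat_lit 708) (nat_lit 2) (.ev (nat_lit 964)
 (nat_lit 1048576) (.fin (nat_lit 576507481575342691)))))) (.ch (nat_lit 4) (.ev (nat_lit 624) (nat_lit
 1210191874) (.ev (nat_lit 640) (nat_lit 1048576) (.ev (nat_lit 653) (nat_lit 8589934592)
 .dd)))))))))))))))))))) (.br (nat_lit 18) (.br (nat_lit 17) (.ch (nat_lit 13) (.ev (nat_lit 52) (nat_lit
 111740686352) (.ev (nat_lit 116) (nat_lit 134225920) (.ev (nat_lit 288) (nat_lit 34603008) (.ev (nat_lit 368)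
 (nat_lit 2050) (.nd (nat_lit 560) (.br (nat_lit 3) (.ch (nat_lit 0) (.ev (nat_lit 576) (nat_lit 2359328) (.nd
 (nat_lit 608) (.br (nat_lit 4) (.ch (nat_lit 2) (.ev (nat_lit 624) (nat_lit 1073741824) (.ev (nat_lit 768)
 (nat_lit 16777216) (.ev (nat_lit 781) (nat_lit 524288) .dd)))) (.br (nat_lit 5) (.ch (nat_lit 4) (.ev (nat_lit
 624) (nat_lit 17301504) (.ev (nat_lit 637) (nat_lit 1073741824) .dd))) (.ch (nat_lit 5) (.ev (nat_lit 708)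
 (nat_lit 1073741824) (.ev (nat_lit 836) (nat_lit 524288) (.ev (nat_lit 845) (nat_lit 16777216) .dd)))))))))
 (.br (nat_lit 5) (.ch (nat_lit 3) (.ev (nat_lit 576) (nat_lit 1091043328) (.nd (nat_lit 608) (.br (nat_lit 2)
 (.ch (nat_lit 1) (.ev (nat_lit 708) (nat_lit 32) (.ev (nat_lit 836) (nat_lit 2097152) (.ev (nat_lit 845)
 (nat_lit 262144) .dd)))) (.br (nat_lit 4) (.ch (nat_lit 2) (.ev (nat_lit 624) (nat_lit 2359296) (.ev (nat_lit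
 637) (nat_lit 32) .dd))) (.ch (nat_lit 4) (.ev (nat_lit 624) (nat_lit 32) (.ev (nat_lit 768) (nat_lit 262144)
 (.ev (nat_lit 781) (nat_lit 2097152) .dd))))))))) (.ch (nat_lit 5) (.ev (nat_lit 576) (nat_lit 17039360) (.nd
 (nat_lit 608) (.br (nat_lit 5) (.ch (nat_lit 4) (.ev (nat_lit 708) (nat_lit 32) (.ev (nat_lit 1088) (nat_lit
 2097152) (.ev (nat_lit 1156) (nat_lit 524288) (.ev (nat_lit 1165) (nat_lit 1073741824) .dd))))) (.ch (nat_lit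
 5) (.ev (nat_lit 708) (nat_lit 1073741824) (.ev (nat_lit 1088) (nat_lit 524288) (.ev (nat_lit 1156) (nat_lit
 32) (.ev (nat_lit 1165) (nat_lit 2097152) .dd))))))))))))))))) (.ch (nat_lit 17) (.ev (nat_lit 52) (nat_lit
 9799708672) (.ev (nat_lit 116) (nat_lit 2097152) (.ev (nat_lit 148) (nat_lit 68719476736) (.ev (nat_lit 212)
 (nat_lit 34359738368) (.nd (nat_lit 560) (.br (nat_lit 2) (.ch (nat_lit 0) (.ev (nat_lit 576) (nat_lit
 37748786) (.nd (nat_lit 608) (.br (nat_lit 4) (.ch (nat_lit 3) (.ev (nat_lit 944) (nat_lit 2048) (.ev (nat_lit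
 992) (nat_lit 67108864) (.fin (nat_lit 576478894231077423))))) (.br (nat_lit 5) (.ch (nat_lit 4) (.ev (nat_lit
 624) (nat_lit 84150272) .dd)) (.ch (nat_lit 5) (.ev (nat_lit 624) (nat_lit 262144) (.ev (nat_lit 1184)
 (nat_lit 67108864) (.fin (nat_lit 576441510862996073)))))))))) (.br (nat_lit 6) (.ch (nat_lit 2) (.ev (nat_lit
 576) (nat_lit 16777264) (.nd (nat_lit 608) (.br (nat_lit 3) (.ch (nat_lit 0) (.ev (nat_lit 624) (nat_lit
 104859648) (.ev (nat_lit 708) (nat_lit 262144) (.ev (nat_lit 717) (nat_lit 2) .dd)))) (.br (nat_lit 6) (.ch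
 (nat_lit 3) (.ev (nat_lit 624) (nat_lit 38010882) (.ev (nat_lit 1156) (nat_lit 2048) (.ev (nat_lit 1165)
 (nat_lit 67108864) .dd)))) (.ch (nat_lit 6) (.ev (nat_lit 624) (nat_lit 67110914) (.ev (nat_lit 1104) (nat_lit
 33554432) (.fin (nat_lit 576437112845845075)))))))))) (.ch (nat_lit 6) (.ev (nat_lit 576) (nat_lit 67373056)
 (.nd (nat_lit 608) (.br (nat_lit 3) (.br (nat_lit 2) (.ch (nat_lit 1) (.ev (nat_lit 624) (nat_lit 4194354)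
 (.ev (nat_lit 640) (nat_lit 50331648) .dd))) (.ch (nat_lit 2) (.ev (nat_lit 708) (nat_lit 16777218) (.ev
 (nat_lit 836) (nat_lit 32) (.ev (nat_lit 1012) (nat_lit 4194304) (.nd (nat_lit 1280) (.br (nat_lit 4) (.ch
 (nat_lit 0) (.fin (nat_lit 576434913807909469))) (.ch (nat_lit 4) (.ev (nat_lit 1296) (nat_lit 33554448)
 .dd))))))))) (.br (nat_lit 4) (.ch (nat_lit 3) (.ev (nat_lit 624) (nat_lit 37748786) (.ev (nat_lit 637)
 (nat_lit 16777216) .dd))) (.ch (nat_lit 4) (.ev (nat_lit 624) (nat_lit 33554464) (.ev (nat_lit 708) (nat_lit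
 16777216) (.ev (nat_lit 752) (nat_lit 2) (.ev (nat_lit 964) (nat_lit 4194304) (.ev (nat_lit 973) (nat_lit 16)
 .dd)))))))))))))))))))) (.br (nat_lit 21) (.ch (nat_lit 18) (.ev (nat_lit 52) (nat_lit 1097732114) (.ev
 (nat_lit 64) (nat_lit 111905187872) .dd))) (.ch (nat_lit 21) (.ev (nat_lit 52) (nat_lit 8609376256) (.ev
 (nat_lit 116) (nat_lit 16) (.ev (nat_lit 180) (nat_lit 33816576) (.nd (nat_lit 560) (.br (nat_lit 5) (.br
 (nat_lit 3) (.ch (nat_lit 0) (.ev (nat_lit 576) (nat_lit 69797548066) (.nd (nat_lit 608) (.br (nat_lit 5) (.ch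
 (nat_lit 4) (.ev (nat_lit 624) (nat_lit 202375168) (.ev (nat_lit 752) (nat_lit 65536) (.ev (nat_lit 765)
 (nat_lit 34359738368) .dd)))) (.br (nat_lit 6) (.ch (nat_lit 5) (.ev (nat_lit 624) (nat_lit 34495004672) (.ev
 (nat_lit 640) (nat_lit 67174400) .dd))) (.ch (nat_lit 6) (.ev (nat_lit 624) (nat_lit 34359738368) (.ev
 (nat_lit 708) (nat_lit 67108864) (.ev (nat_lit 836) (nat_lit 1048576) (.fin (nat_lit
 576458003520635457))))))))))) (.ch (nat_lit 3) (.ev (nat_lit 576) (nat_lit 35504848896) (.nd (nat_lit 608)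
 (.br (nat_lit 4) (.ch (nat_lit 2) (.ev (nat_lit 624) (nat_lit 1048610) (.ev (nat_lit 736) (nat_lit 4096) (.ev
 (nat_lit 836) (nat_lit 134217728) (.ev (nat_lit 980) (nat_lit 68719476736) (.ev (nat_lit 989) (nat_lit 131072)
 .dd)))))) (.br (nat_lit 6) (.ch (nat_lit 4) (.ev (nat_lit 624) (nat_lit 134221824) (.ev (nat_lit 708) (nat_lit
 1048608) (.ev (nat_lit 944) (nat_lit 131074) (.ev (nat_lit 957) (nat_lit 68719476736) .dd))))) (.ch (nat_lit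
 6) (.ev (nat_lit 624) (nat_lit 68853829632) (.ev (nat_lit 1232) (nat_lit 32) (.fin (nat_lit
 576408525491094061))))))))))) (.br (nat_lit 6) (.ch (nat_lit 5) (.ev (nat_lit 576) (nat_lit 68792029216) (.nd
 (nat_lit 608) (.br (nat_lit 5) (.br (nat_lit 4) (.ch (nat_lit 0) (.ev (nat_lit 624) (nat_lit 34493956098) (.ev
 (nat_lit 637) (nat_lit 1073741824) .dd))) (.ch (nat_lit 4) (.ev (nat_lit 624) (nat_lit 35433480194) (.ev
 (nat_lit 637) (nat_lit 134217728) .dd)))) (.br (nat_lit 6) (.ch (nat_lit 5) (.ev (nat_lit 624) (nat_lit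
 134217730) (.ev (nat_lit 1264) (nat_lit 35433480192) .dd))) (.ch (nat_lit 6) (.ev (nat_lit 624) (nat_lit
 1207959552) (.ev (nat_lit 1072) (nat_lit 34359738370) .dd)))))))) (.ch (nat_lit 6) (.ev (nat_lit 576) (nat_lit
 34427961346) (.ev (nat_lit 596) (nat_lit 134217728) (.nd (nat_lit 608) (.br (nat_lit 2) (.ch (nat_lit 0) (.ev
 (nat_lit 624) (nat_lit 68723802112) (.ev (nat_lit 640) (nat_lit 4096) (.ev (nat_lit 964) (nat_lit 32) (.ev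
 (nat_lit 973) (nat_lit 1073741824) .dd))))) (.br (nat_lit 3) (.ch (nat_lit 2) (.ev (nat_lit 624) (nat_lit
 68719476736) (.ev (nat_lit 784) (nat_lit 4194304) (.ev (nat_lit 836) (nat_lit 4096) (.ev (nat_lit 1012)
 (nat_lit 32) (.fin (nat_lit 576507481575342691))))))) (.ch (nat_lit 3) (.ev (nat_lit 624) (nat_lit 1078071328)
 (.ev (nat_lit 637) (nat_lit 68719476736) .dd)))))))))))))))))))) (.br (nat_lit 34) (.br (nat_lit 30) (.br
 (nat_lit 25) (.ch (nat_lit 22) (.ev (nat_lit 52) (nat_lit 77466861568) (.ev (nat_lit 116) (nat_lit 69632) (.ev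
 (nat_lit 180) (nat_lit 1048576) (.ev (nat_lit 256) (nat_lit 33556480) (.nd (nat_lit 560) (.br (nat_lit 2) (.ch
 (nat_lit 0) (.ev (nat_lit 576) (nat_lit 34) (.nd (nat_lit 608) (.br (nat_lit 5) (.br (nat_lit 4) (.ch (nat_lit
 3) (.ev (nat_lit 624) (nat_lit 35500597264) (.ev (nat_lit 964) (nat_lit 524288) (.ev (nat_lit 973) (nat_lit
 262144) .dd)))) (.ch (nat_lit 4) (.ev (nat_lit 624) (nat_lit 34427641872) (.ev (nat_lit 637) (nat_lit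
 1073741824) .dd)))) (.br (nat_lit 6) (.ch (nat_lit 5) (.ev (nat_lit 624) (nat_lit 34360000512) (.ev (nat_lit
 708) (nat_lit 1140850688) (.ev (nat_lit 816) (nat_lit 8192) (.ev (nat_lit 1104) (nat_lit 16) (.ev (nat_lit
 1117) (nat_lit 524288) .dd)))))) (.ch (nat_lit 6) (.ev (nat_lit 624) (nat_lit 1074528256) (.ev (nat_lit 656)
 (nat_lit 34359738368) (.ev (nat_lit 708) (nat_lit 16) (.ev (nat_lit 928) (nat_lit 8192) (.ev (nat_lit 941)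
 (nat_lit 67108864) .dd))))))))))) (.br (nat_lit 5) (.ch (nat_lit 2) (.ev (nat_lit 576) (nat_lit 1141375010)
 (.nd (nat_lit 608) (.br (nat_lit 4) (.ch (nat_lit 0) (.ev (nat_lit 624) (nat_lit 34359746576) (.ev (nat_lit
 637) (nat_lit 262144) .dd))) (.br (nat_lit 6) (.ch (nat_lit 4) (.ev (nat_lit 624) (nat_lit 34359738368) (.ev
 (nat_lit 1216) (nat_lit 16) (.nd (nat_lit 1280) (.br (nat_lit 3) (.ch (nat_lit 2) (.ev (nat_lit 1296) (nat_lit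
 8192) (.ev (nat_lit 1309) (nat_lit 262144) .dd))) (.ch (nat_lit 3) (.fin (nat_lit 576415122546180665))))))))
 (.ch (nat_lit 6) (.ev (nat_lit 624) (nat_lit 262144) (.ev (nat_lit 656) (nat_lit 34359738368) (.ev (nat_lit
 708) (nat_lit 8192) (.ev (nat_lit 717) (nat_lit 16) .dd)))))))))) (.ch (nat_lit 5) (.ev (nat_lit 576) (nat_lit
 270352) (.nd (nat_lit 608) (.br (nat_lit 4) (.ch (nat_lit 0) (.ev (nat_lit 624) (nat_lit 34427371552) (.ev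
 (nat_lit 720) (nat_lit 1073741824) (.ev (nat_lit 733) (nat_lit 2) .dd)))) (.br (nat_lit 6) (.ch (nat_lit 4)
 (.ev (nat_lit 624) (nat_lit 34359738370) (.ev (nat_lit 1156) (nat_lit 67633152) (.nd (nat_lit 1280) (.br
 (nat_lit 4) (.ch (nat_lit 3) (.fin (nat_lit 576432714774168125))) (.ch (nat_lit 4) (.ev (nat_lit 1296)
 (nat_lit 32) (.ev (nat_lit 1309) (nat_lit 1073741824) .dd)))))))) (.ch (nat_lit 6) (.ev (nat_lit 624) (nat_lit
 1073741826) (.ev (nat_lit 640) (nat_lit 32) (.ev (nat_lit 656) (nat_lit 34359738368) (.ev (nat_lit 848)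
 (nat_lit 67633152) .dd)))))))))))))))))) (.br (nat_lit 26) (.ch (nat_lit 25) (.ev (nat_lit 52) (nat_lit
 44096593920) (.ev (nat_lit 116) (nat_lit 16777216) (.ev (nat_lit 148) (nat_lit 33554432) (.ev (nat_lit 212)
 (nat_lit 65536) (.nd (nat_lit 560) (.br (nat_lit 5) (.ch (nat_lit 3) (.ev (nat_lit 576) (nat_lit 2097200) (.nd
 (nat_lit 608) (.br (nat_lit 2) (.ch (nat_lit 1) (.ev (nat_lit 624) (nat_lit 68853825538) (.ev (nat_lit 708)
 (nat_lit 4096) (.ev (nat_lit 717) (nat_lit 2048) .dd)))) (.br (nat_lit 5) (.ch (nat_lit 2) (.ev (nat_lit 624)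
 (nat_lit 134219778) (.ev (nat_lit 1104) (nat_lit 68719476736) (.fin (nat_lit 576437112764056147))))) (.ch
 (nat_lit 5) (.ev (nat_lit 624) (nat_lit 68719613952) (.ev (nat_lit 1156) (nat_lit 2) (.ev (nat_lit 1165)
 (nat_lit 134217728) .dd))))))))) (.br (nat_lit 6) (.ch (nat_lit 5) (.ev (nat_lit 576) (nat_lit 68719609904)
 (.nd (nat_lit 608) (.br (nat_lit 5) (.ch (nat_lit 0) (.ev (nat_lit 944) (nat_lit 2) (.ev (nat_lit 992)
 (nat_lit 134217728) (.fin (nat_lit 576478894262534703))))) (.br (nat_lit 6) (.ch (nat_lit 5) (.ev (nat_lit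
 624) (nat_lit 4096) (.ev (nat_lit 1184) (nat_lit 134217728) (.fin (nat_lit 576441510839927401))))) (.ch
 (nat_lit 6) (.ev (nat_lit 624) (nat_lit 136318978) .dd))))))) (.ch (nat_lit 6) (.ev (nat_lit 576) (nat_lit
 134221826) (.nd (nat_lit 608) (.br (nat_lit 2) (.br (nat_lit 1) (.ch (nat_lit 0) (.ev (nat_lit 624) (nat_lit
 68719476752) (.ev (nat_lit 708) (nat_lit 2097152) (.ev (nat_lit 752) (nat_lit 2048) (.ev (nat_lit 964)
 (nat_lit 131072) (.ev (nat_lit 973) (nat_lit 32) .dd)))))) (.ch (nat_lit 1) (.ev (nat_lit 624) (nat_lit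
 68719609904) (.ev (nat_lit 637) (nat_lit 2097152) .dd)))) (.br (nat_lit 3) (.ch (nat_lit 2) (.ev (nat_lit 708)
 (nat_lit 2099200) (.ev (nat_lit 836) (nat_lit 16) (.ev (nat_lit 1012) (nat_lit 131072) (.nd (nat_lit 1280)
 (.br (nat_lit 3) (.ch (nat_lit 0) (.fin (nat_lit 576434913755480669))) (.ch (nat_lit 3) (.ev (nat_lit 1296)
 (nat_lit 68719476768) .dd)))))))) (.ch (nat_lit 3) (.ev (nat_lit 624) (nat_lit 133168) (.ev (nat_lit 640)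
 (nat_lit 68721573888) .dd)))))))))))))))) (.ch (nat_lit 26) (.ev (nat_lit 52) (nat_lit 24524832) (.ev (nat_lit
 84) (nat_lit 8589934592) (.ev (nat_lit 96) (nat_lit 104388460562) .dd)))))) (.br (nat_lit 31) (.ch (nat_lit
 30) (.ev (nat_lit 52) (nat_lit 34380193842) (.ev (nat_lit 64) (nat_lit 78622726144) .dd))) (.br (nat_lit 33)
 (.ch (nat_lit 31) (.ev (nat_lit 52) (nat_lit 112917479456) (.ev (nat_lit 84) (nat_lit 131072) (.ev (nat_lit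
 148) (nat_lit 16777216) (.ev (nat_lit 180) (nat_lit 67108864) (.nd (nat_lit 560) (.br (nat_lit 2) (.ch
 (nat_lit 0) (.ev (nat_lit 576) (nat_lit 276482) (.nd (nat_lit 608) (.br (nat_lit 4) (.ch (nat_lit 2) (.ev
 (nat_lit 624) (nat_lit 1048576) (.ev (nat_lit 1184) (nat_lit 65536) (.fin (nat_lit 576426117647778367)))))
 (.br (nat_lit 6) (.ch (nat_lit 4) (.ev (nat_lit 624) (nat_lit 1146896) .dd)) (.ch (nat_lit 6) (.ev (nat_lit
 944) (nat_lit 32768) (.ev (nat_lit 992) (nat_lit 65536) (.fin (nat_lit 576489889378812483)))))))))) (.br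
 (nat_lit 3) (.ch (nat_lit 2) (.ev (nat_lit 576) (nat_lit 1146880) (.nd (nat_lit 608) (.br (nat_lit 4) (.br
 (nat_lit 2) (.ch (nat_lit 0) (.ev (nat_lit 624) (nat_lit 264192) (.ev (nat_lit 708) (nat_lit 16) (.ev (nat_lit
 752) (nat_lit 4096) (.ev (nat_lit 964) (nat_lit 2) (.ev (nat_lit 973) (nat_lit 8192) .dd)))))) (.ch (nat_lit
 2) (.ev (nat_lit 624) (nat_lit 276482) (.ev (nat_lit 637) (nat_lit 16) .dd)))) (.br (nat_lit 6) (.ch (nat_lit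
 4) (.ev (nat_lit 708) (nat_lit 4112) (.ev (nat_lit 836) (nat_lit 2048) (.ev (nat_lit 1012) (nat_lit 2) (.nd
 (nat_lit 1280) (.br (nat_lit 3) (.ch (nat_lit 2) (.ev (nat_lit 1296) (nat_lit 270336) .dd)) (.ch (nat_lit 3)
 (.fin (nat_lit 576415122546180665))))))))) (.ch (nat_lit 6) (.ev (nat_lit 624) (nat_lit 14338) (.ev (nat_lit
 640) (nat_lit 262160) .dd)))))))) (.ch (nat_lit 3) (.ev (nat_lit 576) (nat_lit 10256) (.nd (nat_lit 608) (.br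
 (nat_lit 5) (.ch (nat_lit 4) (.ev (nat_lit 624) (nat_lit 360450) (.ev (nat_lit 708) (nat_lit 1048576) (.ev
 (nat_lit 717) (nat_lit 4096) .dd)))) (.br (nat_lit 6) (.ch (nat_lit 5) (.ev (nat_lit 624) (nat_lit 1314818)
 (.ev (nat_lit 1156) (nat_lit 32768) (.ev (nat_lit 1165) (nat_lit 65536) .dd)))) (.ch (nat_lit 6) (.ev (nat_lit
 624) (nat_lit 102400) (.ev (nat_lit 1104) (nat_lit 262144) (.fin (nat_lit 576408525491094061))))))))))))))))))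
 (.ch (nat_lit 33) (.ev (nat_lit 52) (nat_lit 8713830400) (.ev (nat_lit 116) (nat_lit 34360000512) (.ev
 (nat_lit 180) (nat_lit 1073741824) (.ev (nat_lit 272) (nat_lit 68719476738) (.nd (nat_lit 560) (.br (nat_lit
 3) (.ch (nat_lit 0) (.ev (nat_lit 576) (nat_lit 528416) (.nd (nat_lit 608) (.br (nat_lit 4) (.ch (nat_lit 3)
 (.ev (nat_lit 624) (nat_lit 134291472) (.ev (nat_lit 720) (nat_lit 1048576) (.ev (nat_lit 733) (nat_lit 2048)
 .dd)))) (.br (nat_lit 6) (.ch (nat_lit 4) (.ev (nat_lit 624) (nat_lit 1050624) (.ev (nat_lit 640) (nat_lit 16)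
 (.ev (nat_lit 656) (nat_lit 65536) (.ev (nat_lit 848) (nat_lit 134225920) .dd))))) (.ch (nat_lit 6) (.ev
 (nat_lit 624) (nat_lit 67584) (.ev (nat_lit 1156) (nat_lit 134225920) (.nd (nat_lit 1280) (.br (nat_lit 5)
 (.ch (nat_lit 4) (.ev (nat_lit 1296) (nat_lit 16) (.ev (nat_lit 1309) (nat_lit 1048576) .dd))) (.ch (nat_lit
 5) (.fin (nat_lit 576432714742710845))))))))))))) (.br (nat_lit 5) (.ch (nat_lit 3) (.ev (nat_lit 576)
 (nat_lit 135276560) (.nd (nat_lit 608) (.br (nat_lit 2) (.ch (nat_lit 1) (.ev (nat_lit 624) (nat_lit 589856)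
 (.ev (nat_lit 637) (nat_lit 4096) .dd))) (.br (nat_lit 4) (.ch (nat_lit 2) (.ev (nat_lit 624) (nat_lit 4096)
 (.ev (nat_lit 656) (nat_lit 65536) (.ev (nat_lit 708) (nat_lit 524288) (.ev (nat_lit 717) (nat_lit 32)
 .dd))))) (.ch (nat_lit 4) (.ev (nat_lit 624) (nat_lit 65536) (.ev (nat_lit 1216) (nat_lit 32) (.nd (nat_lit
 1280) (.br (nat_lit 2) (.ch (nat_lit 1) (.fin (nat_lit 576415122598609465))) (.ch (nat_lit 2) (.ev (nat_lit
 1296) (nat_lit 524288) (.ev (nat_lit 1309) (nat_lit 4096) .dd))))))))))))) (.ch (nat_lit 5) (.ev (nat_lit 576)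
 (nat_lit 2064) (.nd (nat_lit 608) (.br (nat_lit 5) (.br (nat_lit 4) (.ch (nat_lit 0) (.ev (nat_lit 624)
 (nat_lit 135856160) (.ev (nat_lit 964) (nat_lit 8192) (.ev (nat_lit 973) (nat_lit 4096) .dd)))) (.ch (nat_lit
 4) (.ev (nat_lit 624) (nat_lit 1060864) (.ev (nat_lit 656) (nat_lit 65536) (.ev (nat_lit 708) (nat_lit 32)
 (.ev (nat_lit 928) (nat_lit 524288) (.ev (nat_lit 941) (nat_lit 134217728) .dd))))))) (.br (nat_lit 6) (.ch
 (nat_lit 5) (.ev (nat_lit 624) (nat_lit 69632) (.ev (nat_lit 708) (nat_lit 135266304) (.ev (nat_lit 816)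
 (nat_lit 524288) (.ev (nat_lit 1104) (nat_lit 32) (.ev (nat_lit 1117) (nat_lit 8192) .dd)))))) (.ch (nat_lit
 6) (.ev (nat_lit 624) (nat_lit 134819872) (.ev (nat_lit 637) (nat_lit 1048576) .dd))))))))))))))))))) (.br
 (nat_lit 37) (.br (nat_lit 35) (.ch (nat_lit 34) (.ev (nat_lit 52) (nat_lit 103117428738) (.ev (nat_lit 116)
 (nat_lit 18874368) (.nd (nat_lit 560) (.br (nat_lit 5) (.ch (nat_lit 0) (.ev (nat_lit 576) (nat_lit
 9797902368) (.nd (nat_lit 608) (.br (nat_lit 3) (.ch (nat_lit 2) (.ev (nat_lit 624) (nat_lit 68157440) (.ev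
 (nat_lit 1056) (nat_lit 524288) (.fin (nat_lit 576426117647778367))))) (.br (nat_lit 6) (.ch (nat_lit 3) (.ev
 (nat_lit 624) (nat_lit 557072) (.ev (nat_lit 1156) (nat_lit 67108864) (.ev (nat_lit 1165) (nat_lit 1048576)
 .dd)))) (.ch (nat_lit 6) (.ev (nat_lit 624) (nat_lit 67665920) (.ev (nat_lit 720) (nat_lit 1048592)
 .dd)))))))) (.br (nat_lit 6) (.ch (nat_lit 5) (.ev (nat_lit 576) (nat_lit 68714512) (.nd (nat_lit 608) (.br
 (nat_lit 1) (.ch (nat_lit 0) (.ev (nat_lit 624) (nat_lit 8589942816) (.ev (nat_lit 1156) (nat_lit 134217728)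
 (.ev (nat_lit 1165) (nat_lit 1073741824) .dd)))) (.br (nat_lit 4) (.ch (nat_lit 1) (.ev (nat_lit 624) (nat_lit
 1207959552) (.ev (nat_lit 1056) (nat_lit 8192) (.fin (nat_lit 576426117729567295))))) (.ch (nat_lit 4) (.ev
 (nat_lit 624) (nat_lit 8724160512) (.ev (nat_lit 720) (nat_lit 1073741856) .dd)))))))) (.ch (nat_lit 6) (.ev
 (nat_lit 576) (nat_lit 532480) (.nd (nat_lit 608) (.br (nat_lit 2) (.ch (nat_lit 0) (.ev (nat_lit 624)
 (nat_lit 8658092048) (.ev (nat_lit 708) (nat_lit 32) (.ev (nat_lit 980) (nat_lit 1073741824) (.ev (nat_lit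
 1012) (nat_lit 134217728) (.ev (nat_lit 1021) (nat_lit 32768) .dd)))))) (.br (nat_lit 4) (.ch (nat_lit 2) (.ev
 (nat_lit 624) (nat_lit 8589967360) (.ev (nat_lit 708) (nat_lit 202375216) (.ev (nat_lit 717) (nat_lit
 1073741824) .dd)))) (.ch (nat_lit 4) (.ev (nat_lit 624) (nat_lit 1207992352) (.ev (nat_lit 708) (nat_lit 16)
 (.ev (nat_lit 980) (nat_lit 1048576) (.ev (nat_lit 1012) (nat_lit 67108864) (.ev (nat_lit 1021) (nat_lit
 8589934592) .dd))))))))))))))))) (.br (nat_lit 36) (.ch (nat_lit 35) (.ev (nat_lit 52) (nat_lit 44107825184)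
 (.ev (nat_lit 84) (nat_lit 4358144) (.ev (nat_lit 116) (nat_lit 1048576) (.nd (nat_lit 560) (.br (nat_lit 5)
 (.br (nat_lit 3) (.ch (nat_lit 2) (.ev (nat_lit 576) (nat_lit 68889683968) (.nd (nat_lit 608) (.br (nat_lit 3)
 (.ch (nat_lit 2) (.ev (nat_lit 624) (nat_lit 4112) (.ev (nat_lit 637) (nat_lit 2) .dd))) (.br (nat_lit 4) (.ch
 (nat_lit 3) (.ev (nat_lit 624) (nat_lit 4112) (.ev (nat_lit 637) (nat_lit 2) .dd))) (.ch (nat_lit 4) (.ev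
 (nat_lit 836) (nat_lit 16) (.fin (nat_lit 576471197702111840))))))))) (.ch (nat_lit 3) (.ev (nat_lit 576)
 (nat_lit 35659794) (.nd (nat_lit 608) (.br (nat_lit 2) (.ch (nat_lit 1) (.ev (nat_lit 624) (nat_lit
 68853694464) (.ev (nat_lit 708) (nat_lit 4096) (.ev (nat_lit 864) (nat_lit 2048) (.ev (nat_lit 1136) (nat_lit
 262144) (.ev (nat_lit 1149) (nat_lit 65536) .dd)))))) (.br (nat_lit 6) (.ch (nat_lit 2) (.ev (nat_lit 624)
 (nat_lit 134547456) (.ev (nat_lit 912) (nat_lit 68719480832) .dd))) (.ch (nat_lit 6) (.ev (nat_lit 624)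
 (nat_lit 68719546368) (.ev (nat_lit 640) (nat_lit 134219776) (.ev (nat_lit 653) (nat_lit 262144) .dd))))))))))
 (.br (nat_lit 6) (.ch (nat_lit 5) (.ev (nat_lit 576) (nat_lit 68854024210) (.nd (nat_lit 608) (.br (nat_lit 4)
 (.br (nat_lit 1) (.ch (nat_lit 0) (.ev (nat_lit 624) (nat_lit 33562624) (.fin (nat_lit 576443709858988625))))
 (.ch (nat_lit 1) (.ev (nat_lit 624) (nat_lit 4096) (.ev (nat_lit 836) (nat_lit 8192) (.ev (nat_lit 964)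
 (nat_lit 33554432) (.ev (nat_lit 973) (nat_lit 2097152) .dd)))))) (.br (nat_lit 5) (.ch (nat_lit 4) (.ev
 (nat_lit 624) (nat_lit 33558528) (.ev (nat_lit 708) (nat_lit 2097152) (.ev (nat_lit 717) (nat_lit 8192)
 .dd)))) (.ch (nat_lit 5) (.ev (nat_lit 624) (nat_lit 33566720) (.ev (nat_lit 637) (nat_lit 2097152)
 .dd)))))))) (.ch (nat_lit 6) (.ev (nat_lit 576) (nat_lit 136323072) (.nd (nat_lit 608) (.br (nat_lit 2) (.br
 (nat_lit 1) (.ch (nat_lit 0) (.ev (nat_lit 624) (nat_lit 68753096720) (.ev (nat_lit 720) (nat_lit 2048) (.ev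
 (nat_lit 768) (nat_lit 262144) (.fin (nat_lit 576471197702111840)))))) (.ch (nat_lit 1) (.ev (nat_lit 624)
 (nat_lit 68719745040) (.ev (nat_lit 708) (nat_lit 2) (.ev (nat_lit 980) (nat_lit 65536) (.ev (nat_lit 989)
 (nat_lit 33554432) .dd)))))) (.br (nat_lit 4) (.ch (nat_lit 2) (.ev (nat_lit 624) (nat_lit 333826) (.ev
 (nat_lit 800) (nat_lit 68719476736) (.fin (nat_lit 576434913807909469))))) (.ch (nat_lit 4) (.ev (nat_lit 624)
 (nat_lit 68753037312) (.ev (nat_lit 640) (nat_lit 2) (.ev (nat_lit 1088) (nat_lit 65536) (.ev (nat_lit 1156)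
 (nat_lit 16) (.ev (nat_lit 1165) (nat_lit 262144) .dd)))))))))))))))))) (.ch (nat_lit 36) (.ev (nat_lit 52)
 (nat_lit 43122130976) (.ev (nat_lit 116) (nat_lit 67633152) (.ev (nat_lit 304) (nat_lit 69793218560) (.ev
 (nat_lit 384) (nat_lit 2050) (.nd (nat_lit 560) (.br (nat_lit 2) (.ch (nat_lit 0) (.ev (nat_lit 576) (nat_lit
 2101248) (.nd (nat_lit 608) (.br (nat_lit 6) (.ch (nat_lit 5) (.ev (nat_lit 708) (nat_lit 1048576) (.ev
 (nat_lit 1088) (nat_lit 8192) (.ev (nat_lit 1156) (nat_lit 16) (.ev (nat_lit 1165) (nat_lit 16777216) .dd)))))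
 (.ch (nat_lit 6) (.ev (nat_lit 708) (nat_lit 16) (.ev (nat_lit 1088) (nat_lit 16777216) (.ev (nat_lit 1156)
 (nat_lit 8192) (.ev (nat_lit 1165) (nat_lit 1048576) .dd))))))))) (.br (nat_lit 5) (.ch (nat_lit 2) (.ev
 (nat_lit 576) (nat_lit 3153920) (.nd (nat_lit 608) (.br (nat_lit 4) (.ch (nat_lit 0) (.ev (nat_lit 708)
 (nat_lit 16) (.ev (nat_lit 836) (nat_lit 16777216) (.ev (nat_lit 845) (nat_lit 4096) .dd)))) (.br (nat_lit 6)
 (.ch (nat_lit 4) (.ev (nat_lit 624) (nat_lit 16) (.ev (nat_lit 768) (nat_lit 4096) (.ev (nat_lit 781) (nat_lit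
 16777216) .dd)))) (.ch (nat_lit 6) (.ev (nat_lit 624) (nat_lit 16781312) (.ev (nat_lit 637) (nat_lit 16)
 .dd)))))))) (.ch (nat_lit 5) (.ev (nat_lit 576) (nat_lit 16781328) (.nd (nat_lit 608) (.br (nat_lit 5) (.ch
 (nat_lit 1) (.ev (nat_lit 624) (nat_lit 1048576) (.ev (nat_lit 768) (nat_lit 2097152) (.ev (nat_lit 781)
 (nat_lit 8192) .dd)))) (.br (nat_lit 6) (.ch (nat_lit 5) (.ev (nat_lit 708) (nat_lit 1048576) (.ev (nat_lit
 836) (nat_lit 8192) (.ev (nat_lit 845) (nat_lit 2097152) .dd)))) (.ch (nat_lit 6) (.ev (nat_lit 624) (nat_lit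
 2105344) (.ev (nat_lit 637) (nat_lit 1048576) .dd)))))))))))))))))) (.br (nat_lit 39) (.br (nat_lit 38) (.ch
 (nat_lit 37) (.ev (nat_lit 52) (nat_lit 103081482272) (.ev (nat_lit 64) (nat_lit 9921437714) .dd))) (.ch
 (nat_lit 38) (.ev (nat_lit 52) (nat_lit 35501518848) (.ev (nat_lit 84) (nat_lit 8589934592) (.ev (nat_lit 116)
 (nat_lit 2048) (.ev (nat_lit 148) (nat_lit 134217728) (.ev (nat_lit 180) (nat_lit 32) (.ev (nat_lit 212)
 (nat_lit 33554432) (.ev (nat_lit 432) (nat_lit 2) (.nd (nat_lit 560) (.br (nat_lit 2) (.ch (nat_lit 0) (.ev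
 (nat_lit 576) (nat_lit 23068688) (.nd (nat_lit 608) (.br (nat_lit 4) (.ch (nat_lit 3) (.ev (nat_lit 624)
 (nat_lit 68719542272) (.ev (nat_lit 1104) (nat_lit 32768) (.ev (nat_lit 1117) (nat_lit 1048576) .dd)))) (.br
 (nat_lit 5) (.ch (nat_lit 4) (.ev (nat_lit 624) (nat_lit 1146880) (.ev (nat_lit 637) (nat_lit 68719476736)
 .dd))) (.ch (nat_lit 5) (.ev (nat_lit 624) (nat_lit 68720558080) (.ev (nat_lit 637) (nat_lit 65536)
 .dd)))))))) (.br (nat_lit 6) (.ch (nat_lit 2) (.ev (nat_lit 576) (nat_lit 68739497984) (.nd (nat_lit 608) (.br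
 (nat_lit 3) (.ch (nat_lit 0) (.ev (nat_lit 624) (nat_lit 4194304) (.ev (nat_lit 637) (nat_lit 16) .dd))) (.br
 (nat_lit 6) (.ch (nat_lit 3) (.ev (nat_lit 624) (nat_lit 4194320) .dd)) (.ch (nat_lit 6) (.ev (nat_lit 896)
 (nat_lit 4194304) (.ev (nat_lit 909) (nat_lit 16) .dd)))))))) (.ch (nat_lit 6) (.ev (nat_lit 576) (nat_lit
 68723671040) (.nd (nat_lit 608) (.br (nat_lit 3) (.ch (nat_lit 1) (.ev (nat_lit 624) (nat_lit 1048592) (.ev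
 (nat_lit 768) (nat_lit 2097152) (.ev (nat_lit 848) (nat_lit 65536) (.fin (nat_lit 576461302086976015))))))
 (.br (nat_lit 4) (.ch (nat_lit 3) (.ev (nat_lit 624) (nat_lit 98304) (.ev (nat_lit 708) (nat_lit 16) (.ev
 (nat_lit 720) (nat_lit 2097152) (.ev (nat_lit 1120) (nat_lit 16777216) (.ev (nat_lit 1133) (nat_lit 1048576)
 .dd)))))) (.ch (nat_lit 4) (.ev (nat_lit 624) (nat_lit 18972672) (.ev (nat_lit 964) (nat_lit 16) (.ev (nat_lit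
 973) (nat_lit 1048576) .dd))))))))))))))))))))) (.br (nat_lit 42) (.ch (nat_lit 39) (.ev (nat_lit 52) (nat_lit
 42951913506) (.ev (nat_lit 116) (nat_lit 68719476736) (.ev (nat_lit 148) (nat_lit 167772160) (.ev (nat_lit
 180) (nat_lit 65536) (.ev (nat_lit 212) (nat_lit 16) (.nd (nat_lit 560) (.br (nat_lit 3) (.br (nat_lit 2) (.ch
 (nat_lit 0) (.ev (nat_lit 576) (nat_lit 1077938176) (.nd (nat_lit 608) (.br (nat_lit 3) (.ch (nat_lit 2) (.ev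
 (nat_lit 624) (nat_lit 68452352) (.ev (nat_lit 672) (nat_lit 524288) (.ev (nat_lit 685) (nat_lit 16777216)
 .dd)))) (.br (nat_lit 6) (.ch (nat_lit 3) (.ev (nat_lit 624) (nat_lit 16777216) (.ev (nat_lit 672) (nat_lit
 524288) (.ev (nat_lit 708) (nat_lit 262144) (.ev (nat_lit 736) (nat_lit 67108864) (.ev (nat_lit 964) (nat_lit
 32768) (.ev (nat_lit 973) (nat_lit 1048576) .dd))))))) (.ch (nat_lit 6) (.ev (nat_lit 624) (nat_lit 67371008)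
 (.ev (nat_lit 672) (nat_lit 524288) (.ev (nat_lit 836) (nat_lit 1048576) (.ev (nat_lit 964) (nat_lit 16777216)
 (.ev (nat_lit 973) (nat_lit 32768) .dd))))))))))) (.ch (nat_lit 2) (.ev (nat_lit 576) (nat_lit 1159235584)
 (.nd (nat_lit 608) (.br (nat_lit 4) (.br (nat_lit 3) (.ch (nat_lit 0) (.ev (nat_lit 624) (nat_lit 262144) (.ev
 (nat_lit 637) (nat_lit 4194304) .dd))) (.ch (nat_lit 3) (.ev (nat_lit 624) (nat_lit 4456448) .dd))) (.br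
 (nat_lit 6) (.ch (nat_lit 4) (.ev (nat_lit 624) (nat_lit 4194304) (.ev (nat_lit 637) (nat_lit 262144) .dd)))
 (.ch (nat_lit 6) (.ev (nat_lit 624) (nat_lit 262144) (.ev (nat_lit 637) (nat_lit 4194304) .dd))))))))) (.br
 (nat_lit 6) (.ch (nat_lit 3) (.ev (nat_lit 576) (nat_lit 1163427840) (.nd (nat_lit 608) (.br (nat_lit 4) (.ch
 (nat_lit 1) (.ev (nat_lit 624) (nat_lit 262144) (.ev (nat_lit 637) (nat_lit 2048) .dd))) (.br (nat_lit 5) (.ch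
 (nat_lit 4) (.fin (nat_lit 576471197628711520))) (.ch (nat_lit 5) (.ev (nat_lit 624) (nat_lit 262144) (.ev
 (nat_lit 637) (nat_lit 2048) .dd)))))))) (.ch (nat_lit 6) (.ev (nat_lit 576) (nat_lit 524288) (.nd (nat_lit
 608) (.br (nat_lit 3) (.br (nat_lit 2) (.ch (nat_lit 0) (.ev (nat_lit 624) (nat_lit 89393152) (.ev (nat_lit
 640) (nat_lit 1073741824) (.ev (nat_lit 653) (nat_lit 32768) .dd)))) (.ch (nat_lit 2) (.ev (nat_lit 624)
 (nat_lit 84180992) (.ev (nat_lit 708) (nat_lit 2048) (.ev (nat_lit 964) (nat_lit 1073741824) (.fin (nat_lit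
 576507481522913891))))))) (.br (nat_lit 4) (.ch (nat_lit 3) (.ev (nat_lit 624) (nat_lit 1145339904) (.ev
 (nat_lit 640) (nat_lit 2048) (.ev (nat_lit 1088) (nat_lit 1048576) (.ev (nat_lit 1101) (nat_lit 16777216)
 .dd))))) (.ch (nat_lit 4) (.ev (nat_lit 624) (nat_lit 1074823168) (.ev (nat_lit 708) (nat_lit 67108864) (.ev
 (nat_lit 768) (nat_lit 16777216) (.ev (nat_lit 836) (nat_lit 4194304) (.fin (nat_lit
 576451406492811808))))))))))))))))))))) (.ch (nat_lit 42) (.ev (nat_lit 52) (nat_lit 69832677408) (.nd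
 (nat_lit 560) (.br (nat_lit 5) (.br (nat_lit 3) (.ch (nat_lit 0) (.ev (nat_lit 576) (nat_lit 43018919938) (.nd
 (nat_lit 608) (.br (nat_lit 4) (.ch (nat_lit 2) (.ev (nat_lit 624) (nat_lit 150994960) (.ev (nat_lit 752)
 (nat_lit 65536) (.ev (nat_lit 765) (nat_lit 262144) .dd)))) (.br (nat_lit 6) (.ch (nat_lit 4) (.ev (nat_lit
 624) (nat_lit 151257088) (.ev (nat_lit 640) (nat_lit 65552) .dd))) (.ch (nat_lit 6) (.ev (nat_lit 624)
 (nat_lit 262144) (.ev (nat_lit 708) (nat_lit 16) (.ev (nat_lit 836) (nat_lit 16777216) (.fin (nat_lit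
 576458003520635457))))))))))) (.ch (nat_lit 3) (.ev (nat_lit 576) (nat_lit 43033632786) (.nd (nat_lit 608)
 (.br (nat_lit 4) (.br (nat_lit 2) (.ch (nat_lit 1) (.ev (nat_lit 624) (nat_lit 134512640) (.ev (nat_lit 637)
 (nat_lit 2097152) .dd))) (.ch (nat_lit 2) (.ev (nat_lit 624) (nat_lit 2392064) (.ev (nat_lit 637) (nat_lit
 134217728) .dd)))) (.br (nat_lit 6) (.ch (nat_lit 4) (.ev (nat_lit 624) (nat_lit 134250496) (.ev (nat_lit
 1264) (nat_lit 2359296) .dd))) (.ch (nat_lit 6) (.ev (nat_lit 624) (nat_lit 136314880) (.ev (nat_lit 1072)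
 (nat_lit 294912) .dd))))))))) (.br (nat_lit 6) (.ch (nat_lit 5) (.ev (nat_lit 576) (nat_lit 17137680) (.ev
 (nat_lit 596) (nat_lit 134217728) (.nd (nat_lit 608) (.br (nat_lit 1) (.ch (nat_lit 0) (.ev (nat_lit 624)
 (nat_lit 34428952578) (.ev (nat_lit 637) (nat_lit 8589934592) .dd))) (.br (nat_lit 5) (.ch (nat_lit 1) (.ev
 (nat_lit 624) (nat_lit 8589942786) (.ev (nat_lit 640) (nat_lit 34359738368) (.ev (nat_lit 964) (nat_lit
 67108864) (.ev (nat_lit 973) (nat_lit 2097152) .dd))))) (.ch (nat_lit 5) (.ev (nat_lit 624) (nat_lit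
 8589934592) (.ev (nat_lit 784) (nat_lit 8192) (.ev (nat_lit 836) (nat_lit 34359738368) (.ev (nat_lit 1012)
 (nat_lit 67108864) (.fin (nat_lit 576441510839927401))))))))))))) (.ch (nat_lit 6) (.ev (nat_lit 576) (nat_lit
 2433040) (.nd (nat_lit 608) (.br (nat_lit 1) (.ch (nat_lit 0) (.ev (nat_lit 624) (nat_lit 83918848) (.ev
 (nat_lit 736) (nat_lit 34359738368) (.ev (nat_lit 836) (nat_lit 134217728) (.ev (nat_lit 980) (nat_lit
 8589934592) (.ev (nat_lit 989) (nat_lit 2) .dd)))))) (.br (nat_lit 4) (.ch (nat_lit 1) (.ev (nat_lit 624)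
 (nat_lit 43083890690) (.ev (nat_lit 1232) (nat_lit 67108864) (.fin (nat_lit 576461302086976015))))) (.ch
 (nat_lit 4) (.ev (nat_lit 624) (nat_lit 34493956096) (.ev (nat_lit 708) (nat_lit 83886080) (.ev (nat_lit 944)
 (nat_lit 32770) (.ev (nat_lit 957) (nat_lit 8589934592) .dd))))))))))))))))))))))

/-- The trie. -/
noncomputable def T : Tr := .nd (nat_lit 1000000) (.br (nat_lit 1) (.ch (nat_lit 0) (.ev (nat_lit 0) (nat_lit 137438953471) .dd)) (.br (nat_lit 3) (.ch (nat_lit 1) T1) (.ch (nat_lit 3) T3)))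

/-- The possible values. -/
noncomputable def oks : List ℕ := [85, 2340, 4165, 6052]

/-- The parameters. -/
noncomputable def S : Pr := ⟨fun i l e => lget mz (lget [] (lget [] tabs i) l) e, oks, [(nat_lit 0), (nat_lit
 1), (nat_lit 0), (nat_lit 0), (nat_lit 0)], T, (nat_lit 137438953471), (nat_lit 23899161165), (nat_lit 37),
 [(nat_lit 1), (nat_lit 3303796230157)], [(nat_lit 2401), (nat_lit 1849)]⟩

/-- Nothing known. -/
noncomputable def cs0 : Cs := (.cons (nat_lit 7) (nat_lit 0) (nat_lit 1) (.cons (nat_lit 43) (nat_lit 0) (nat_lit 1) .nil))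

theorem part_1 : part S cs0 (nat_lit 1) = true := by decide +kernel

theorem part_3 : part S cs0 (nat_lit 3) = true := by decide +kernel

/-- Data of a prime. -/
noncomputable def D0 : PD := ⟨(nat_lit 7), (nat_lit 4), (2282, 1, 2), (2043, 1659, 1089), (1701, 1622, 907)⟩

theorem D0_ok : D0.Ok := pdb_sound (s := 1) (C := ⟨⟨7, -2, -11, 7, 2, 4, 0, 3, -1⟩, (5, 2, 3)⟩) (by show Nat.Prime 7; norm_num) (by decide +kernel)

/-- Lines of the first type. -/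
noncomputable def Cl0 : List C1 := [⟨⟨7, 2, -11, 7, -2, 4, 0, -3, -1⟩, (6, 1, 5)⟩,
  ⟨⟨0, 0, 0, 0, 0, 0, 0, 0, 0⟩, (0, 0, 0)⟩,
  ⟨⟨0, 0, 0, 0, 0, 0, 0, 0, 0⟩, (0, 0, 0)⟩,
  ⟨⟨0, 0, 0, 0, 0, 0, 0, 0, 0⟩, (0, 0, 0)⟩,
  ⟨⟨0, 0, 0, 0, 0, 0, 0, 0, 0⟩, (0, 0, 0)⟩,
  ⟨⟨0, 0, 0, 0, 0, 0, 0, 0, 0⟩, (0, 0, 0)⟩,
  ⟨⟨0, 0, 0, 0, 0, 0, 0, 0, 0⟩, (0, 0, 0)⟩]

/-- Data of a prime. -/
noncomputable def D1 : PD := ⟨(nat_lit 43), (nat_lit 2), (989, 1, 17), (1652, 774, 636), (172, 5, 130)⟩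

theorem D1_ok : D1.Ok := pdb_sound (s := 1) (C := ⟨⟨43, -38, -44, 43, 38, 1, 0, 9, -19⟩, (5, 38, 9)⟩) (by show Nat.Prime 43; norm_num) (by decide +kernel)

/-- Lines of the first type. -/
noncomputable def Cl1 : List C1 := [⟨⟨43, 38, -44, 43, -38, 1, 0, -9, -19⟩, (42, 1, 24)⟩,
  ⟨⟨0, 0, 0, 0, 0, 0, 0, 0, 0⟩, (0, 0, 0)⟩,
  ⟨⟨57, -18, -16, -17, -58, 1, 4, 1, -23⟩, (41, 27, 24)⟩,
  ⟨⟨7, -38, -56, -33, -42, 49, -16, 7, -1⟩, (28, 40, 22)⟩,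
  ⟨⟨0, 0, 0, 0, 0, 0, 0, 0, 0⟩, (0, 0, 0)⟩,
  ⟨⟨0, 0, 0, 0, 0, 0, 0, 0, 0⟩, (0, 0, 0)⟩,
  ⟨⟨0, 0, 0, 0, 0, 0, 0, 0, 0⟩, (0, 0, 0)⟩,
  ⟨⟨0, 0, 0, 0, 0, 0, 0, 0, 0⟩, (0, 0, 0)⟩,
  ⟨⟨0, 0, 0, 0, 0, 0, 0, 0, 0⟩, (0, 0, 0)⟩,
  ⟨⟨0, 0, 0, 0, 0, 0, 0, 0, 0⟩, (0, 0, 0)⟩,
  ⟨⟨0, 0, 0, 0, 0, 0, 0, 0, 0⟩, (0, 0, 0)⟩,
  ⟨⟨27, -18, -71, -53, -22, 4, -4, 17, -7⟩, (6, 36, 23)⟩,
  ⟨⟨0, 0, 0, 0, 0, 0, 0, 0, 0⟩, (0, 0, 0)⟩,
  ⟨⟨0, 0, 0, 0, 0, 0, 0, 0, 0⟩, (0, 0, 0)⟩,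
  ⟨⟨-7, -2, -64, -47, -38, 31, 12, -15, -7⟩, (37, 15, 41)⟩,
  ⟨⟨-7, 2, -64, -47, 38, 31, 12, 15, -7⟩, (3, 14, 1)⟩,
  ⟨⟨-7, 38, -49, 33, 42, 16, 16, -7, -17⟩, (27, 14, 12)⟩,
  ⟨⟨0, 0, 0, 0, 0, 0, 0, 0, 0⟩, (0, 0, 0)⟩,
  ⟨⟨0, 0, 0, 0, 0, 0, 0, 0, 0⟩, (0, 0, 0)⟩,
  ⟨⟨57, 18, -16, -17, 58, 1, 4, -1, -23⟩, (36, 30, 41)⟩,
  ⟨⟨53, 22, -49, 27, -18, 44, 4, -17, -11⟩, (6, 42, 11)⟩,
  ⟨⟨0, 0, 0, 0, 0, 0, 0, 0, 0⟩, (0, 0, 0)⟩,
  ⟨⟨0, 0, 0, 0, 0, 0, 0, 0, 0⟩, (0, 0, 0)⟩,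
  ⟨⟨27, 18, -71, -53, 22, 4, -4, -17, -7⟩, (1, 6, 11)⟩,
  ⟨⟨57, -18, -41, -17, -58, 16, -4, -1, -19⟩, (7, 13, 41)⟩,
  ⟨⟨0, 0, 0, 0, 0, 0, 0, 0, 0⟩, (0, 0, 0)⟩,
  ⟨⟨0, 0, 0, 0, 0, 0, 0, 0, 0⟩, (0, 0, 0)⟩,
  ⟨⟨7, 38, -56, -33, 42, 49, -16, -7, -1⟩, (27, 14, 12)⟩,
  ⟨⟨7, 2, -71, -47, -38, 16, 12, -15, -5⟩, (3, 29, 42)⟩,
  ⟨⟨7, -2, -71, -47, 38, 16, 12, 15, -5⟩, (37, 28, 2)⟩,
  ⟨⟨0, 0, 0, 0, 0, 0, 0, 0, 0⟩, (0, 0, 0)⟩,
  ⟨⟨0, 0, 0, 0, 0, 0, 0, 0, 0⟩, (0, 0, 0)⟩,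
  ⟨⟨53, -22, -49, 27, 18, 44, 4, 17, -11⟩, (36, 37, 23)⟩,
  ⟨⟨0, 0, 0, 0, 0, 0, 0, 0, 0⟩, (0, 0, 0)⟩,
  ⟨⟨0, 0, 0, 0, 0, 0, 0, 0, 0⟩, (0, 0, 0)⟩,
  ⟨⟨0, 0, 0, 0, 0, 0, 0, 0, 0⟩, (0, 0, 0)⟩,
  ⟨⟨0, 0, 0, 0, 0, 0, 0, 0, 0⟩, (0, 0, 0)⟩,
  ⟨⟨0, 0, 0, 0, 0, 0, 0, 0, 0⟩, (0, 0, 0)⟩,
  ⟨⟨0, 0, 0, 0, 0, 0, 0, 0, 0⟩, (0, 0, 0)⟩,
  ⟨⟨0, 0, 0, 0, 0, 0, 0, 0, 0⟩, (0, 0, 0)⟩,
  ⟨⟨-7, -38, -49, 33, -42, 16, 16, 7, -17⟩, (28, 40, 22)⟩,
  ⟨⟨57, 18, -41, -17, 58, 16, -4, 1, -19⟩, (2, 16, 24)⟩,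
  ⟨⟨0, 0, 0, 0, 0, 0, 0, 0, 0⟩, (0, 0, 0)⟩]

/-- Data of a prime. -/
noncomputable def Dm : PD := ⟨(nat_lit 37), (nat_lit 2), (556, 16, 5), (1239, 947, 1101), (730, 506, 467)⟩

theorem Dm_ok : Dm.Ok := pdb_sound (s := 2) (C := ⟨⟨43, 22, -44, 23, -2, 41, 6, -15, -7⟩, (6, 23, 6)⟩) (by show Nat.Prime 37; norm_num) (by decide +kernel)

/-- Lines of the first type. -/
noncomputable def Clm : List C1 := [⟨⟨23, -2, -64, 43, 22, 1, -6, 15, -1⟩, (31, 29, 8)⟩,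
  ⟨⟨0, 0, 0, 0, 0, 0, 0, 0, 0⟩, (0, 0, 0)⟩,
  ⟨⟨-7, 22, -49, 27, 42, 4, 14, -7, -13⟩, (1, 12, 35)⟩,
  ⟨⟨-13, 38, -31, -47, -22, 16, 6, -9, -17⟩, (20, 4, 5)⟩,
  ⟨⟨0, 0, 0, 0, 0, 0, 0, 0, 0⟩, (0, 0, 0)⟩,
  ⟨⟨0, 0, 0, 0, 0, 0, 0, 0, 0⟩, (0, 0, 0)⟩,
  ⟨⟨7, 22, -56, -27, 42, 31, 14, 7, -1⟩, (18, 31, 36)⟩,
  ⟨⟨0, 0, 0, 0, 0, 0, 0, 0, 0⟩, (0, 0, 0)⟩,
  ⟨⟨0, 0, 0, 0, 0, 0, 0, 0, 0⟩, (0, 0, 0)⟩,
  ⟨⟨13, -38, -44, -47, -22, 31, -6, 9, -11⟩, (18, 26, 23)⟩,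
  ⟨⟨0, 0, 0, 0, 0, 0, 0, 0, 0⟩, (0, 0, 0)⟩,
  ⟨⟨0, 0, 0, 0, 0, 0, 0, 0, 0⟩, (0, 0, 0)⟩,
  ⟨⟨0, 0, 0, 0, 0, 0, 0, 0, 0⟩, (0, 0, 0)⟩,
  ⟨⟨0, 0, 0, 0, 0, 0, 0, 0, 0⟩, (0, 0, 0)⟩,
  ⟨⟨13, 38, -44, -47, 22, 31, -6, -9, -11⟩, (4, 14, 1)⟩,
  ⟨⟨0, 0, 0, 0, 0, 0, 0, 0, 0⟩, (0, 0, 0)⟩,
  ⟨⟨0, 0, 0, 0, 0, 0, 0, 0, 0⟩, (0, 0, 0)⟩,
  ⟨⟨0, 0, 0, 0, 0, 0, 0, 0, 0⟩, (0, 0, 0)⟩,
  ⟨⟨0, 0, 0, 0, 0, 0, 0, 0, 0⟩, (0, 0, 0)⟩,
  ⟨⟨0, 0, 0, 0, 0, 0, 0, 0, 0⟩, (0, 0, 0)⟩,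
  ⟨⟨0, 0, 0, 0, 0, 0, 0, 0, 0⟩, (0, 0, 0)⟩,
  ⟨⟨0, 0, 0, 0, 0, 0, 0, 0, 0⟩, (0, 0, 0)⟩,
  ⟨⟨0, 0, 0, 0, 0, 0, 0, 0, 0⟩, (0, 0, 0)⟩,
  ⟨⟨-7, -22, -49, 27, -42, 4, 14, 7, -13⟩, (13, 8, 11)⟩,
  ⟨⟨0, 0, 0, 0, 0, 0, 0, 0, 0⟩, (0, 0, 0)⟩,
  ⟨⟨0, 0, 0, 0, 0, 0, 0, 0, 0⟩, (0, 0, 0)⟩,
  ⟨⟨0, 0, 0, 0, 0, 0, 0, 0, 0⟩, (0, 0, 0)⟩,
  ⟨⟨0, 0, 0, 0, 0, 0, 0, 0, 0⟩, (0, 0, 0)⟩,
  ⟨⟨23, 2, -64, 43, -22, 1, -6, -15, -1⟩, (3, 4, 33)⟩,
  ⟨⟨0, 0, 0, 0, 0, 0, 0, 0, 0⟩, (0, 0, 0)⟩,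
  ⟨⟨0, 0, 0, 0, 0, 0, 0, 0, 0⟩, (0, 0, 0)⟩,
  ⟨⟨-13, -38, -31, -47, 22, 16, 6, 9, -17⟩, (34, 29, 27)⟩,
  ⟨⟨7, -22, -56, -27, -42, 31, 14, -7, -1⟩, (30, 27, 23)⟩,
  ⟨⟨0, 0, 0, 0, 0, 0, 0, 0, 0⟩, (0, 0, 0)⟩,
  ⟨⟨43, -22, -44, 23, 2, 41, 6, 15, -7⟩, (12, 9, 12)⟩,
  ⟨⟨0, 0, 0, 0, 0, 0, 0, 0, 0⟩, (0, 0, 0)⟩,
  ⟨⟨0, 0, 0, 0, 0, 0, 0, 0, 0⟩, (0, 0, 0)⟩]

/-- Unit moves. -/
noncomputable def U : List Mv := [mz,
  mz,
  ⟨⟨1, 0, 0, 0, -1, 0, 0, 0, 1⟩, .nil, (nat_lit 0), (nat_lit 2), (nat_lit 1), (nat_lit 0), (0, 0, 0), [], 2⟩,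
  mz,
  ⟨⟨-1, 0, 1, 0, 1, 0, 0, 0, 1⟩, .nil, (nat_lit 6), (nat_lit 0), (nat_lit 0), (nat_lit 1), (0, 0, 0), [], 1⟩,
  ⟨⟨-1, 0, 1, 0, -1, 0, 0, 0, 1⟩, .nil, (nat_lit 0), (nat_lit 5), (nat_lit 1), (nat_lit 0), (0, 0, 0), [], 2⟩,
  ⟨⟨-1, 0, 1, 0, 1, 0, 0, 0, 1⟩, .nil, (nat_lit 6), (nat_lit 0), (nat_lit 0), (nat_lit 1), (0, 0, 0), [], 1⟩]

theorem v_ty : tyb Dm S.ty1 Clm = true := by decide +kernel

theorem v_ty0 : tyb D0 (S.tys.getD 0 0) Cl0 = true := by decide +kernel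

theorem v_ty1 : tyb D1 (S.tys.getD 1 0) Cl1 = true := by decide +kernel

theorem v_msc : mscb S D0 [D1] Dm (nat_lit 10) = true := by decide +kernel

theorem v_mv0 : mvsn (nat_lit 6077605681) S D0 [D1] Dm (nat_lit 10) 0 D0 = true := by decide +kernel

theorem v_mv1 : mvsn (nat_lit 6077605681) S D0 [D1] Dm (nat_lit 10) 1 D1 = true := by decide +kernel

theorem v_mm : mmsn (nat_lit 6077605681) S D0 [D1] Dm (nat_lit 10) = true := by decide +kernel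

theorem v_un : unb S D0 (nat_lit 10) U = true := by decide +kernel

theorem v_ok : okb S.oks [(2, 9, 0), (0, 0, 0), (14, 63, 0), (0, 0, 0)] = true := by decide +kernel

theorem v_part : ∀ d < D0.p, (nat_lit 10).testBit d = true → part S (zc (D0 :: [D1])) d = true := by
  intro d hd h
  have h1 : ∀ d < 7, (nat_lit 10).testBit d = true → d = 1 ∨ d = 3 := by decide
  rcases h1 d hd h with rfl | rfl
  · exact part_1
  · exact part_3

theorem main (n : ℕ) (ho : Odd n) (hr : ¬ Rep n) (h0 : Split 7 n) (h1 : Split 43 n) (hm : Split 37 n) :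
    n ∈ EE := by
  refine concln (W := nat_lit 6077605681) (S := S) (P0 := D0) (Pl := [D1]) (Pm := Dm) (cn := nat_lit 10) ?_ Dm_ok v_ty ?_ ?_ v_msc ?_ v_mm v_un v_part v_ok
    n ho hr ?_ hm
  · simp only [List.forall_mem_cons]
    exact ⟨D0_ok, D1_ok, fun _ h => absurd h (by simp)⟩
  · exact all2 (φ := fun j P => ∃ L, tyb P (S.tys.getD j 0) L = true) ⟨_, v_ty0⟩ ⟨_, v_ty1⟩
  · exact all2 (φ := fun j P => Nat.ble (S.pks.getD j 0) (Nat.pow P.p P.K) = true) (by decide +kernel) (by decide +kernel)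
  · exact all2 (φ := fun i P => mvsn (nat_lit 6077605681) S D0 [D1] Dm (nat_lit 10) i P = true) v_mv0 v_mv1
  · simp only [List.forall_mem_cons]
    exact ⟨h0, h1, fun _ h => absurd h (by simp)⟩

end Pool.Agent.Work.MP_9954fe_nt.P7_43_37

namespace Pool.Agent.Work.MP_9954fe_nt.P13_71_31

/-- Dummy move. -/
noncomputable def mz : Mv := ⟨⟨0, 0, 0, 0, 0, 0, 0, 0, 0⟩, .nil, (nat_lit 0), (nat_lit 0), (nat_lit 0), (nat_lit 0), (0, 0, 0), [], 0⟩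

/-- Moves. -/
noncomputable def t0_2 : List Mv := [
  ⟨⟨-1, -12, 9, 8, 5, 6, 8, -8, -7⟩, (.cons (nat_lit 1798270) (nat_lit 3794392) (nat_lit 2144058) (nat_lit 1)
 (.cons (nat_lit 24495929) (nat_lit 1402937) (nat_lit 22719277) (nat_lit 1) .nil)), (nat_lit 20), (nat_lit 23),
 (nat_lit 28), (nat_lit 1), (8, 1, 1), [1227326, 1736493], 21⟩,
  ⟨⟨9, 4, -16, -8, -5, -6, 8, -8, -7⟩, (.cons (nat_lit 2919685) (nat_lit 4270751) (nat_lit 1481163) (nat_lit 1)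
 (.cons (nat_lit 14351471) (nat_lit 3752255) (nat_lit 18724981) (nat_lit 1) .nil)), (nat_lit 25), (nat_lit 2),
 (nat_lit 13), (nat_lit 1), (6, 12, 1), [2271767, 19056565], 13⟩,
  ⟨⟨9, 4, -16, -8, -5, -6, 8, -8, -7⟩, (.cons (nat_lit 2919685) (nat_lit 4270751) (nat_lit 1481163) (nat_lit 1)
 (.cons (nat_lit 14351471) (nat_lit 3752255) (nat_lit 18724981) (nat_lit 1) .nil)), (nat_lit 25), (nat_lit 2),
 (nat_lit 13), (nat_lit 1), (6, 12, 1), [2271767, 19056565], 13⟩,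
  ⟨⟨-1, -12, 9, -8, -5, -6, 8, -8, -7⟩, (.cons (nat_lit 495919) (nat_lit 4756839) (nat_lit 247966) (nat_lit 1)
 (.cons (nat_lit 25411680) (nat_lit 11472277) (nat_lit 23060427) (nat_lit 1) .nil)), (nat_lit 30), (nat_lit
 15), (nat_lit 23), (nat_lit 1), (8, 12, 1), [3125393, 22027076], 28⟩,
  ⟨⟨-1, -12, 9, 8, 5, 6, 8, -8, -7⟩, (.cons (nat_lit 1798270) (nat_lit 3794392) (nat_lit 2144058) (nat_lit 1)
 (.cons (nat_lit 24495929) (nat_lit 1402937) (nat_lit 22719277) (nat_lit 1) .nil)), (nat_lit 20), (nat_lit 23),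
 (nat_lit 28), (nat_lit 1), (8, 1, 1), [1227326, 1736493], 21⟩,
  ⟨⟨9, 4, -16, 8, 5, 6, 8, -8, -7⟩, (.cons (nat_lit 2843227) (nat_lit 1868486) (nat_lit 1840382) (nat_lit 1)
 (.cons (nat_lit 22816511) (nat_lit 2985604) (nat_lit 1294005) (nat_lit 1) .nil)), (nat_lit 23), (nat_lit 1),
 (nat_lit 2), (nat_lit 1), (6, 1, 1), [4589782, 20037507], 25⟩,
  ⟨⟨9, 4, -16, 8, 5, 6, 8, -8, -7⟩, (.cons (nat_lit 2843227) (nat_lit 1868486) (nat_lit 1840382) (nat_lit 1)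
 (.cons (nat_lit 22816511) (nat_lit 2985604) (nat_lit 1294005) (nat_lit 1) .nil)), (nat_lit 23), (nat_lit 1),
 (nat_lit 2), (nat_lit 1), (6, 1, 1), [4589782, 20037507], 25⟩,
  ⟨⟨-1, -12, 9, -8, -5, -6, 8, -8, -7⟩, (.cons (nat_lit 495919) (nat_lit 4756839) (nat_lit 247966) (nat_lit 1)
 (.cons (nat_lit 25411680) (nat_lit 11472277) (nat_lit 23060427) (nat_lit 1) .nil)), (nat_lit 30), (nat_lit
 15), (nat_lit 23), (nat_lit 1), (8, 12, 1), [3125393, 22027076], 28⟩,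
  ⟨⟨-1, -12, 9, -8, -5, -6, 8, -8, -7⟩, (.cons (nat_lit 495919) (nat_lit 4756839) (nat_lit 247966) (nat_lit 1)
 (.cons (nat_lit 25411680) (nat_lit 11472277) (nat_lit 23060427) (nat_lit 1) .nil)), (nat_lit 30), (nat_lit
 15), (nat_lit 23), (nat_lit 1), (8, 12, 1), [3125393, 22027076], 28⟩,
  ⟨⟨-1, -12, 9, -8, -5, -6, 8, -8, -7⟩, (.cons (nat_lit 495919) (nat_lit 4756839) (nat_lit 247966) (nat_lit 1)
 (.cons (nat_lit 25411680) (nat_lit 11472277) (nat_lit 23060427) (nat_lit 1) .nil)), (nat_lit 30), (nat_lit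
 15), (nat_lit 23), (nat_lit 1), (8, 12, 1), [3125393, 22027076], 28⟩,
  ⟨⟨-1, -12, 9, 8, 5, 6, 8, -8, -7⟩, (.cons (nat_lit 1798270) (nat_lit 3794392) (nat_lit 2144058) (nat_lit 1)
 (.cons (nat_lit 24495929) (nat_lit 1402937) (nat_lit 22719277) (nat_lit 1) .nil)), (nat_lit 20), (nat_lit 23),
 (nat_lit 28), (nat_lit 1), (8, 1, 1), [1227326, 1736493], 21⟩,
  ⟨⟨-1, -12, 9, -8, -5, -6, 8, -8, -7⟩, (.cons (nat_lit 495919) (nat_lit 4756839) (nat_lit 247966) (nat_lit 1)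
 (.cons (nat_lit 25411680) (nat_lit 11472277) (nat_lit 23060427) (nat_lit 1) .nil)), (nat_lit 30), (nat_lit
 15), (nat_lit 23), (nat_lit 1), (8, 12, 1), [3125393, 22027076], 28⟩,
  ⟨⟨-1, -12, 9, -8, -5, -6, 8, -8, -7⟩, (.cons (nat_lit 495919) (nat_lit 4756839) (nat_lit 247966) (nat_lit 1)
 (.cons (nat_lit 25411680) (nat_lit 11472277) (nat_lit 23060427) (nat_lit 1) .nil)), (nat_lit 30), (nat_lit
 15), (nat_lit 23), (nat_lit 1), (8, 12, 1), [3125393, 22027076], 28⟩]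

/-- Moves. -/
noncomputable def t0_4 : List Mv := [
  ⟨⟨5, 12, -9, -12, 5, 6, 0, 0, -13⟩, (.cons (nat_lit 2595001) (nat_lit 3104467) (nat_lit 3422489) (nat_lit 1)
 (.cons (nat_lit 3636550) (nat_lit 23327340) (nat_lit 11874439) (nat_lit 1) .nil)), (nat_lit 1), (nat_lit 6),
 (nat_lit 19), (nat_lit 1), (12, 5, 0), [2732539, 17031420], 12⟩,
  ⟨⟨-5, -12, -4, -12, 5, 6, 0, 0, -13⟩, (.cons (nat_lit 273335) (nat_lit 1209881) (nat_lit 68337) (nat_lit 1)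
 (.cons (nat_lit 25411680) (nat_lit 14290882) (nat_lit 17329831) (nat_lit 1) .nil)), (nat_lit 30), (nat_lit
 28), (nat_lit 25), (nat_lit 1), (1, 5, 0), [3873608, 2077142], 1⟩,
  ⟨⟨-5, -12, -4, -12, 5, 6, 0, 0, -13⟩, (.cons (nat_lit 273335) (nat_lit 1209881) (nat_lit 68337) (nat_lit 1)
 (.cons (nat_lit 25411680) (nat_lit 14290882) (nat_lit 17329831) (nat_lit 1) .nil)), (nat_lit 30), (nat_lit
 28), (nat_lit 25), (nat_lit 1), (1, 5, 0), [3873608, 2077142], 1⟩,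
  ⟨⟨-5, -12, -4, 12, -5, -6, 0, 0, -13⟩, (.cons (nat_lit 3834156) (nat_lit 4555975) (nat_lit 1642618) (nat_lit
 1) (.cons (nat_lit 23190518) (nat_lit 4508379) (nat_lit 12295) (nat_lit 1) .nil)), (nat_lit 1), (nat_lit 18),
 (nat_lit 26), (nat_lit 1), (1, 8, 0), [1521153, 1182786], 26⟩,
  ⟨⟨5, 12, -9, 12, -5, -6, 0, 0, -13⟩, (.cons (nat_lit 2272170) (nat_lit 4691530) (nat_lit 1774748) (nat_lit 1)
 (.cons (nat_lit 25411680) (nat_lit 14383953) (nat_lit 19282144) (nat_lit 1) .nil)), (nat_lit 30), (nat_lit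
 26), (nat_lit 21), (nat_lit 1), (12, 8, 0), [2927202, 17739995], 19⟩,
  ⟨⟨5, 12, -9, 12, -5, -6, 0, 0, -13⟩, (.cons (nat_lit 2272170) (nat_lit 4691530) (nat_lit 1774748) (nat_lit 1)
 (.cons (nat_lit 25411680) (nat_lit 14383953) (nat_lit 19282144) (nat_lit 1) .nil)), (nat_lit 30), (nat_lit
 26), (nat_lit 21), (nat_lit 1), (12, 8, 0), [2927202, 17739995], 19⟩,
  ⟨⟨5, 12, -9, -12, 5, 6, 0, 0, -13⟩, (.cons (nat_lit 2595001) (nat_lit 3104467) (nat_lit 3422489) (nat_lit 1)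
 (.cons (nat_lit 3636550) (nat_lit 23327340) (nat_lit 11874439) (nat_lit 1) .nil)), (nat_lit 1), (nat_lit 6),
 (nat_lit 19), (nat_lit 1), (12, 5, 0), [2732539, 17031420], 12⟩,
  ⟨⟨5, 12, -9, 12, -5, -6, 0, 0, -13⟩, (.cons (nat_lit 2272170) (nat_lit 4691530) (nat_lit 1774748) (nat_lit 1)
 (.cons (nat_lit 25411680) (nat_lit 14383953) (nat_lit 19282144) (nat_lit 1) .nil)), (nat_lit 30), (nat_lit
 26), (nat_lit 21), (nat_lit 1), (12, 8, 0), [2927202, 17739995], 19⟩,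
  ⟨⟨5, 12, -9, 12, -5, -6, 0, 0, -13⟩, (.cons (nat_lit 2272170) (nat_lit 4691530) (nat_lit 1774748) (nat_lit 1)
 (.cons (nat_lit 25411680) (nat_lit 14383953) (nat_lit 19282144) (nat_lit 1) .nil)), (nat_lit 30), (nat_lit
 26), (nat_lit 21), (nat_lit 1), (12, 8, 0), [2927202, 17739995], 19⟩,
  ⟨⟨-5, -12, -4, 12, -5, -6, 0, 0, -13⟩, (.cons (nat_lit 3834156) (nat_lit 4555975) (nat_lit 1642618) (nat_lit
 1) (.cons (nat_lit 23190518) (nat_lit 4508379) (nat_lit 12295) (nat_lit 1) .nil)), (nat_lit 1), (nat_lit 18),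
 (nat_lit 26), (nat_lit 1), (1, 8, 0), [1521153, 1182786], 26⟩,
  ⟨⟨5, 12, -9, 12, -5, -6, 0, 0, -13⟩, (.cons (nat_lit 2272170) (nat_lit 4691530) (nat_lit 1774748) (nat_lit 1)
 (.cons (nat_lit 25411680) (nat_lit 14383953) (nat_lit 19282144) (nat_lit 1) .nil)), (nat_lit 30), (nat_lit
 26), (nat_lit 21), (nat_lit 1), (12, 8, 0), [2927202, 17739995], 19⟩,
  ⟨⟨5, 12, -9, -12, 5, 6, 0, 0, -13⟩, (.cons (nat_lit 2595001) (nat_lit 3104467) (nat_lit 3422489) (nat_lit 1)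
 (.cons (nat_lit 3636550) (nat_lit 23327340) (nat_lit 11874439) (nat_lit 1) .nil)), (nat_lit 1), (nat_lit 6),
 (nat_lit 19), (nat_lit 1), (12, 5, 0), [2732539, 17031420], 12⟩,
  ⟨⟨5, 12, -9, 12, -5, -6, 0, 0, -13⟩, (.cons (nat_lit 2272170) (nat_lit 4691530) (nat_lit 1774748) (nat_lit 1)
 (.cons (nat_lit 25411680) (nat_lit 14383953) (nat_lit 19282144) (nat_lit 1) .nil)), (nat_lit 30), (nat_lit
 26), (nat_lit 21), (nat_lit 1), (12, 8, 0), [2927202, 17739995], 19⟩]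

/-- Moves. -/
noncomputable def t0_5 : List Mv := [
  ⟨⟨9, 8, -13, 10, -7, 0, 2, -4, -13⟩, (.cons (nat_lit 2315812) (nat_lit 843964) (nat_lit 1453495) (nat_lit 1)
 (.cons (nat_lit 12139777) (nat_lit 20582993) (nat_lit 19857521) (nat_lit 1) .nil)), (nat_lit 5), (nat_lit 5),
 (nat_lit 10), (nat_lit 1), (2, 8, 12), [4581319, 13069842], 4⟩,
  ⟨⟨9, 8, -13, -10, 7, 0, 2, -4, -13⟩, (.cons (nat_lit 4177513) (nat_lit 3253428) (nat_lit 1218083) (nat_lit 1)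
 (.cons (nat_lit 11331862) (nat_lit 20845812) (nat_lit 20386165) (nat_lit 1) .nil)), (nat_lit 12), (nat_lit
 11), (nat_lit 0), (nat_lit 1), (2, 5, 12), [648168, 16956073], 30⟩,
  ⟨⟨9, 8, -13, -10, 7, 0, 2, -4, -13⟩, (.cons (nat_lit 4177513) (nat_lit 3253428) (nat_lit 1218083) (nat_lit 1)
 (.cons (nat_lit 11331862) (nat_lit 20845812) (nat_lit 20386165) (nat_lit 1) .nil)), (nat_lit 12), (nat_lit
 11), (nat_lit 0), (nat_lit 1), (2, 5, 12), [648168, 16956073], 30⟩,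
  ⟨⟨9, 8, -13, -10, 7, 0, 2, -4, -13⟩, (.cons (nat_lit 4177513) (nat_lit 3253428) (nat_lit 1218083) (nat_lit 1)
 (.cons (nat_lit 11331862) (nat_lit 20845812) (nat_lit 20386165) (nat_lit 1) .nil)), (nat_lit 12), (nat_lit
 11), (nat_lit 0), (nat_lit 1), (2, 5, 12), [648168, 16956073], 30⟩,
  ⟨⟨-7, -12, 0, 10, -7, 0, 2, -4, -13⟩, (.cons (nat_lit 3289575) (nat_lit 183543) (nat_lit 32948) (nat_lit 1)
 (.cons (nat_lit 16760711) (nat_lit 20278681) (nat_lit 2764407) (nat_lit 1) .nil)), (nat_lit 0), (nat_lit 7),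
 (nat_lit 18), (nat_lit 1), (10, 8, 12), [920321, 7541753], 26⟩,
  ⟨⟨9, 8, -13, 10, -7, 0, 2, -4, -13⟩, (.cons (nat_lit 2315812) (nat_lit 843964) (nat_lit 1453495) (nat_lit 1)
 (.cons (nat_lit 12139777) (nat_lit 20582993) (nat_lit 19857521) (nat_lit 1) .nil)), (nat_lit 5), (nat_lit 5),
 (nat_lit 10), (nat_lit 1), (2, 8, 12), [4581319, 13069842], 4⟩,
  ⟨⟨9, 8, -13, 10, -7, 0, 2, -4, -13⟩, (.cons (nat_lit 2315812) (nat_lit 843964) (nat_lit 1453495) (nat_lit 1)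
 (.cons (nat_lit 12139777) (nat_lit 20582993) (nat_lit 19857521) (nat_lit 1) .nil)), (nat_lit 5), (nat_lit 5),
 (nat_lit 10), (nat_lit 1), (2, 8, 12), [4581319, 13069842], 4⟩,
  ⟨⟨9, 8, -13, -10, 7, 0, 2, -4, -13⟩, (.cons (nat_lit 4177513) (nat_lit 3253428) (nat_lit 1218083) (nat_lit 1)
 (.cons (nat_lit 11331862) (nat_lit 20845812) (nat_lit 20386165) (nat_lit 1) .nil)), (nat_lit 12), (nat_lit
 11), (nat_lit 0), (nat_lit 1), (2, 5, 12), [648168, 16956073], 30⟩,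
  ⟨⟨-7, -12, 0, 10, -7, 0, 2, -4, -13⟩, (.cons (nat_lit 3289575) (nat_lit 183543) (nat_lit 32948) (nat_lit 1)
 (.cons (nat_lit 16760711) (nat_lit 20278681) (nat_lit 2764407) (nat_lit 1) .nil)), (nat_lit 0), (nat_lit 7),
 (nat_lit 18), (nat_lit 1), (10, 8, 12), [920321, 7541753], 26⟩,
  ⟨⟨-7, -12, 0, -10, 7, 0, 2, -4, -13⟩, (.cons (nat_lit 4676545) (nat_lit 3073074) (nat_lit 3831397) (nat_lit
 1) (.cons (nat_lit 25411680) (nat_lit 2521958) (nat_lit 6609286) (nat_lit 1) .nil)), (nat_lit 30), (nat_lit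
 3), (nat_lit 1), (nat_lit 1), (10, 5, 12), [3689710, 11162863], 10⟩,
  ⟨⟨9, 8, -13, -10, 7, 0, 2, -4, -13⟩, (.cons (nat_lit 4177513) (nat_lit 3253428) (nat_lit 1218083) (nat_lit 1)
 (.cons (nat_lit 11331862) (nat_lit 20845812) (nat_lit 20386165) (nat_lit 1) .nil)), (nat_lit 12), (nat_lit
 11), (nat_lit 0), (nat_lit 1), (2, 5, 12), [648168, 16956073], 30⟩,
  ⟨⟨9, 8, -13, -10, 7, 0, 2, -4, -13⟩, (.cons (nat_lit 4177513) (nat_lit 3253428) (nat_lit 1218083) (nat_lit 1)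
 (.cons (nat_lit 11331862) (nat_lit 20845812) (nat_lit 20386165) (nat_lit 1) .nil)), (nat_lit 12), (nat_lit
 11), (nat_lit 0), (nat_lit 1), (2, 5, 12), [648168, 16956073], 30⟩,
  ⟨⟨9, 8, -13, -10, 7, 0, 2, -4, -13⟩, (.cons (nat_lit 4177513) (nat_lit 3253428) (nat_lit 1218083) (nat_lit 1)
 (.cons (nat_lit 11331862) (nat_lit 20845812) (nat_lit 20386165) (nat_lit 1) .nil)), (nat_lit 12), (nat_lit
 11), (nat_lit 0), (nat_lit 1), (2, 5, 12), [648168, 16956073], 30⟩]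

/-- Moves. -/
noncomputable def t1_2 : List Mv := [
  mz,
  ⟨⟨-75, 20, 43, -10, -21, -70, -12, 60, -13⟩, (.cons (nat_lit 4682214) (nat_lit 409142) (nat_lit 421146)
 (nat_lit 1) (.cons (nat_lit 9958158) (nat_lit 14218708) (nat_lit 17738934) (nat_lit 1) .nil)), (nat_lit 5),
 (nat_lit 18), (nat_lit 5), (nat_lit 1), (51, 21, 11), [706233, 5763012], 21⟩,
  mz,
  ⟨⟨65, -24, -72, -4, 55, -48, -10, -40, -49⟩, (.cons (nat_lit 4826808) (nat_lit 2255262) (nat_lit 1189622)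
 (nat_lit 1) (.cons (nat_lit 19071543) (nat_lit 14234576) (nat_lit 14827765) (nat_lit 1) .nil)), (nat_lit 30),
 (nat_lit 22), (nat_lit 26), (nat_lit 1), (37, 1, 38), [3295568, 22101516], 11⟩,
  ⟨⟨27, 68, 16, 64, -15, -62, -6, 48, -43⟩, (.cons (nat_lit 899485) (nat_lit 591795) (nat_lit 713635) (nat_lit
 1) (.cons (nat_lit 2338641) (nat_lit 3232467) (nat_lit 10640152) (nat_lit 1) .nil)), (nat_lit 21), (nat_lit
 10), (nat_lit 25), (nat_lit 1), (60, 16, 34), [3929379, 10006727], 16⟩,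
  ⟨⟨27, -68, 16, -64, -15, 62, -6, -48, -43⟩, (.cons (nat_lit 3998805) (nat_lit 1575508) (nat_lit 4732861)
 (nat_lit 1) (.cons (nat_lit 4762656) (nat_lit 22874515) (nat_lit 19542933) (nat_lit 1) .nil)), (nat_lit 28),
 (nat_lit 29), (nat_lit 19), (nat_lit 1), (7, 36, 30), [1122728, 16768119], 5⟩,
  mz,
  ⟨⟨-9, -56, -55, 56, 25, -68, -38, 16, -35⟩, (.cons (nat_lit 917628) (nat_lit 3363939) (nat_lit 2451517)
 (nat_lit 1) (.cons (nat_lit 17849842) (nat_lit 7328955) (nat_lit 23156756) (nat_lit 1) .nil)), (nat_lit 1),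
 (nat_lit 1), (nat_lit 13), (nat_lit 1), (69, 44, 31), [3991794, 21741685], 15⟩,
  ⟨⟨3, 40, -76, -64, -25, 12, 26, -32, -67⟩, (.cons (nat_lit 1454743) (nat_lit 4105675) (nat_lit 1) (nat_lit
 3518788) (.cons (nat_lit 8567285) (nat_lit 23733055) (nat_lit 15919663) (nat_lit 1) .nil)), (nat_lit 13),
 (nat_lit 9), (nat_lit 27), (nat_lit 1), (14, 9, 3), [3883931, 9066087], 24⟩,
  mz,
  mz,
  ⟨⟨33, -20, -92, 64, 15, -2, 6, 48, -49⟩, (.cons (nat_lit 285331) (nat_lit 605870) (nat_lit 2836271) (nat_lit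
 1) (.cons (nat_lit 18710210) (nat_lit 6171651) (nat_lit 15890191) (nat_lit 1) .nil)), (nat_lit 21), (nat_lit
 25), (nat_lit 4), (nat_lit 1), (67, 3, 38), [3834877, 11384974], 29⟩,
  ⟨⟨9, 76, -20, -44, 15, 82, -42, 24, -25⟩, (.cons (nat_lit 1821250) (nat_lit 1587563) (nat_lit 723679)
 (nat_lit 1) (.cons (nat_lit 21817829) (nat_lit 13562732) (nat_lit 23698931) (nat_lit 1) .nil)), (nat_lit 3),
 (nat_lit 18), (nat_lit 19), (nat_lit 1), (31, 22, 21), [2456001, 14313382], 13⟩,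
  mz,
  mz,
  ⟨⟨-9, 76, -11, -44, -15, -38, 42, 24, -67⟩, (.cons (nat_lit 3830828) (nat_lit 4672940) (nat_lit 4215331)
 (nat_lit 1) (.cons (nat_lit 4715657) (nat_lit 1928413) (nat_lit 21356184) (nat_lit 1) .nil)), (nat_lit 26),
 (nat_lit 19), (nat_lit 18), (nat_lit 1), (25, 67, 49), [4287818, 21092642], 23⟩,
  ⟨⟨17, 24, -89, 36, 55, 12, 54, -24, -53⟩, (.cons (nat_lit 575781) (nat_lit 3275884) (nat_lit 1279490)
 (nat_lit 1) (.cons (nat_lit 20414142) (nat_lit 16851743) (nat_lit 20892664) (nat_lit 1) .nil)), (nat_lit 25),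
 (nat_lit 22), (nat_lit 13), (nat_lit 1), (7, 19, 64), [2479870, 14476869], 7⟩,
  mz,
  ⟨⟨9, 56, -64, -56, -25, -12, 38, -16, -73⟩, (.cons (nat_lit 2076251) (nat_lit 2592940) (nat_lit 1203062)
 (nat_lit 1) (.cons (nat_lit 13624382) (nat_lit 3901849) (nat_lit 14862921) (nat_lit 1) .nil)), (nat_lit 7),
 (nat_lit 12), (nat_lit 7), (nat_lit 1), (56, 46, 55), [594151, 24020974], 11⟩,
  ⟨⟨39, 40, -80, -44, 55, 32, -22, -8, -55⟩, (.cons (nat_lit 2096273) (nat_lit 4181390) (nat_lit 799691)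
 (nat_lit 1) (.cons (nat_lit 10664811) (nat_lit 17912237) (nat_lit 5417271) (nat_lit 1) .nil)), (nat_lit 4),
 (nat_lit 19), (nat_lit 21), (nat_lit 1), (28, 3, 37), [2186082, 12661400], 21⟩,
  mz,
  mz,
  ⟨⟨37, 48, -73, 36, -55, -48, 54, 24, -1⟩, (.cons (nat_lit 1387887) (nat_lit 1740810) (nat_lit 22020) (nat_lit
 1) (.cons (nat_lit 12433037) (nat_lit 20083888) (nat_lit 13767999) (nat_lit 1) .nil)), (nat_lit 11), (nat_lit
 12), (nat_lit 24), (nat_lit 1), (15, 5, 43), [4431326, 17716865], 13⟩,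
  ⟨⟨39, -40, -80, 44, 55, -32, -22, 8, -55⟩, (.cons (nat_lit 4314626) (nat_lit 1028306) (nat_lit 4430949)
 (nat_lit 1) (.cons (nat_lit 18124959) (nat_lit 15648998) (nat_lit 21296286) (nat_lit 1) .nil)), (nat_lit 8),
 (nat_lit 3), (nat_lit 18), (nat_lit 1), (1, 43, 14), [1496540, 13376371], 11⟩,
  ⟨⟨-39, 40, -41, 44, 55, -12, 22, -8, -77⟩, (.cons (nat_lit 4787888) (nat_lit 436379) (nat_lit 3125596)
 (nat_lit 1) (.cons (nat_lit 14495468) (nat_lit 9396165) (nat_lit 2244716) (nat_lit 1) .nil)), (nat_lit 4),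
 (nat_lit 18), (nat_lit 5), (nat_lit 1), (2, 56, 28), [2212058, 13223009], 1⟩,
  mz,
  ⟨⟨51, -4, 40, 10, -69, -20, 60, 12, -49⟩, (.cons (nat_lit 3844780) (nat_lit 3020279) (nat_lit 1026187)
 (nat_lit 1) (.cons (nat_lit 19362272) (nat_lit 17138793) (nat_lit 21029141) (nat_lit 1) .nil)), (nat_lit 6),
 (nat_lit 12), (nat_lit 1), (nat_lit 0), (60, 41, 33), [529481, 25123588], 16⟩,
  mz,
  mz,
  ⟨⟨-13, -72, 36, 70, -11, -30, -4, -44, -49⟩, (.cons (nat_lit 4216353) (nat_lit 1277741) (nat_lit 649110)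
 (nat_lit 1) (.cons (nat_lit 15855782) (nat_lit 18995683) (nat_lit 1) (nat_lit 2553941) .nil)), (nat_lit 28),
 (nat_lit 4), (nat_lit 5), (nat_lit 1), (29, 35, 69), [4372631, 20693009], 21⟩,
  mz,
  ⟨⟨-11, 72, -25, 50, -11, -80, -44, 4, -29⟩, (.cons (nat_lit 375082) (nat_lit 3619643) (nat_lit 3152750)
 (nat_lit 1) (.cons (nat_lit 12407002) (nat_lit 24376873) (nat_lit 14098317) (nat_lit 1) .nil)), (nat_lit 15),
 (nat_lit 26), (nat_lit 25), (nat_lit 1), (44, 13, 34), [2963706, 14269590], 20⟩,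
  mz,
  ⟨⟨-29, -72, 20, -56, 25, 68, -38, -16, -35⟩, (.cons (nat_lit 1743865) (nat_lit 401477) (nat_lit 1862876)
 (nat_lit 1) (.cons (nat_lit 23585245) (nat_lit 22731201) (nat_lit 2745648) (nat_lit 1) .nil)), (nat_lit 13),
 (nat_lit 29), (nat_lit 1), (nat_lit 0), (27, 35, 6), [4400937, 23320108], 18⟩,
  ⟨⟨75, 20, -32, 10, -21, -80, 12, 60, -25⟩, (.cons (nat_lit 53098) (nat_lit 1379667) (nat_lit 132568) (nat_lit
 1) (.cons (nat_lit 10392680) (nat_lit 18212453) (nat_lit 8524758) (nat_lit 1) .nil)), (nat_lit 17), (nat_lit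
 28), (nat_lit 21), (nat_lit 1), (30, 4, 19), [3430467, 12331447], 7⟩,
  mz,
  ⟨⟨3, -40, -76, -64, 25, 12, 26, 32, -67⟩, (.cons (nat_lit 2343027) (nat_lit 1221086) (nat_lit 3596441)
 (nat_lit 1) (.cons (nat_lit 11498147) (nat_lit 9235268) (nat_lit 8778192) (nat_lit 1) .nil)), (nat_lit 0),
 (nat_lit 24), (nat_lit 19), (nat_lit 1), (58, 17, 53), [857460, 10429235], 19⟩,
  mz,
  ⟨⟨17, -24, -89, -36, 55, -12, 54, 24, -53⟩, (.cons (nat_lit 4606201) (nat_lit 1208013) (nat_lit 2018306)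
 (nat_lit 1) (.cons (nat_lit 4460429) (nat_lit 21182247) (nat_lit 18504917) (nat_lit 1) .nil)), (nat_lit 17),
 (nat_lit 13), (nat_lit 26), (nat_lit 1), (5, 27, 66), [1560235, 20333912], 25⟩,
  ⟨⟨-3, 40, -73, -64, 25, 52, -26, -32, -41⟩, (.cons (nat_lit 512412) (nat_lit 3185167) (nat_lit 4793673)
 (nat_lit 1) (.cons (nat_lit 17482981) (nat_lit 5789245) (nat_lit 4748289) (nat_lit 1) .nil)), (nat_lit 1),
 (nat_lit 30), (nat_lit 18), (nat_lit 1), (12, 43, 33), [1644932, 6593798], 15⟩,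
  mz,
  mz,
  ⟨⟨-65, 24, -7, -4, 55, 52, 10, 40, -59⟩, (.cons (nat_lit 1804534) (nat_lit 3810164) (nat_lit 1156754)
 (nat_lit 1) (.cons (nat_lit 17346011) (nat_lit 5792644) (nat_lit 4291906) (nat_lit 1) .nil)), (nat_lit 26),
 (nat_lit 29), (nat_lit 23), (nat_lit 1), (43, 66, 48), [3097765, 1089535], 28⟩,
  ⟨⟨11, -72, -36, -50, 11, -30, 44, -4, -73⟩, (.cons (nat_lit 2034178) (nat_lit 2710476) (nat_lit 1031644)
 (nat_lit 1) (.cons (nat_lit 11361759) (nat_lit 10080610) (nat_lit 23614597) (nat_lit 1) .nil)), (nat_lit 19),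
 (nat_lit 13), (nat_lit 21), (nat_lit 1), (69, 22, 63), [1073288, 6446590], 8⟩,
  ⟨⟨-39, -40, -41, -44, 55, 12, 22, 8, -77⟩, (.cons (nat_lit 2253061) (nat_lit 1461196) (nat_lit 2864352)
 (nat_lit 1) (.cons (nat_lit 3914650) (nat_lit 11224922) (nat_lit 14987655) (nat_lit 1) .nil)), (nat_lit 15),
 (nat_lit 10), (nat_lit 20), (nat_lit 1), (46, 61, 5), [3357403, 9764011], 9⟩,
  mz,
  ⟨⟨51, 52, -56, -44, 15, -38, 42, -24, -67⟩, (.cons (nat_lit 766916) (nat_lit 3223466) (nat_lit 4192819)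
 (nat_lit 1) (.cons (nat_lit 8736094) (nat_lit 17176897) (nat_lit 20721628) (nat_lit 1) .nil)), (nat_lit 21),
 (nat_lit 2), (nat_lit 19), (nat_lit 1), (52, 15, 47), [319521, 2474823], 29⟩,
  ⟨⟨9, -16, 80, 10, 69, 10, 60, -12, -11⟩, (.cons (nat_lit 3997153) (nat_lit 3703084) (nat_lit 3226946)
 (nat_lit 1) (.cons (nat_lit 6196689) (nat_lit 12327543) (nat_lit 12126569) (nat_lit 1) .nil)), (nat_lit 8),
 (nat_lit 11), (nat_lit 1), (nat_lit 0), (33, 13, 7), [180761, 24897080], 6⟩,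
  ⟨⟨51, 4, 40, 10, 69, -20, 60, -12, -49⟩, (.cons (nat_lit 4826808) (nat_lit 1244527) (nat_lit 1015223)
 (nat_lit 1) (.cons (nat_lit 16195517) (nat_lit 6927046) (nat_lit 23631449) (nat_lit 1) .nil)), (nat_lit 30),
 (nat_lit 25), (nat_lit 1), (nat_lit 1), (13, 29, 32), [3150713, 15405491], 17⟩,
  ⟨⟨29, 72, -9, 56, -25, 12, 38, 16, -73⟩, (.cons (nat_lit 1021687) (nat_lit 1040003) (nat_lit 156752) (nat_lit
 1) (.cons (nat_lit 23303751) (nat_lit 12485044) (nat_lit 16358733) (nat_lit 1) .nil)), (nat_lit 4), (nat_lit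
 13), (nat_lit 0), (nat_lit 1), (5, 17, 9), [168904, 21486448], 5⟩,
  ⟨⟨65, 24, -72, -4, -55, -48, -10, 40, -49⟩, (.cons (nat_lit 2905324) (nat_lit 4189369) (nat_lit 3443009)
 (nat_lit 1) (.cons (nat_lit 19741089) (nat_lit 2187581) (nat_lit 17965284) (nat_lit 1) .nil)), (nat_lit 29),
 (nat_lit 9), (nat_lit 16), (nat_lit 1), (39, 26, 65), [4629971, 17288678], 19⟩,
  ⟨⟨-51, 52, -5, 44, 15, -82, -42, -24, -25⟩, (.cons (nat_lit 1035746) (nat_lit 2061843) (nat_lit 1890393)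
 (nat_lit 1) (.cons (nat_lit 987317) (nat_lit 25157370) (nat_lit 24352771) (nat_lit 1) .nil)), (nat_lit 10),
 (nat_lit 13), (nat_lit 16), (nat_lit 1), (18, 68, 19), [3834705, 21521545], 16⟩,
  mz,
  ⟨⟨13, -72, 23, 70, 11, -40, 4, -44, -53⟩, (.cons (nat_lit 4095353) (nat_lit 1556275) (nat_lit 1) (nat_lit
 2081495) (.cons (nat_lit 24463773) (nat_lit 4140411) (nat_lit 17011242) (nat_lit 1) .nil)), (nat_lit 2),
 (nat_lit 4), (nat_lit 12), (nat_lit 1), (14, 59, 48), [348852, 3632351], 11⟩,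
  ⟨⟨9, 16, 80, 10, -69, 10, 60, 12, -11⟩, (.cons (nat_lit 4826808) (nat_lit 4283129) (nat_lit 1725005) (nat_lit
 1) (.cons (nat_lit 4557118) (nat_lit 14637901) (nat_lit 1) (nat_lit 23915853) .nil)), (nat_lit 30), (nat_lit
 28), (nat_lit 1), (nat_lit 1), (58, 25, 8), [2138404, 4086645], 18⟩,
  ⟨⟨75, -20, -32, -10, -21, 80, 12, -60, -25⟩, (.cons (nat_lit 3281172) (nat_lit 4280724) (nat_lit 3963766)
 (nat_lit 1) (.cons (nat_lit 22990953) (nat_lit 15417494) (nat_lit 17216542) (nat_lit 1) .nil)), (nat_lit 11),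
 (nat_lit 2), (nat_lit 17), (nat_lit 1), (52, 12, 14), [3322128, 25073035], 10⟩,
  mz,
  ⟨⟨-11, -72, -25, -50, -11, 80, -44, -4, -29⟩, (.cons (nat_lit 3254097) (nat_lit 1014942) (nat_lit 1870977)
 (nat_lit 1) (.cons (nat_lit 19307294) (nat_lit 17388099) (nat_lit 2725703) (nat_lit 1) .nil)), (nat_lit 2),
 (nat_lit 26), (nat_lit 28), (nat_lit 1), (38, 63, 10), [54143, 18286496], 7⟩,
  ⟨⟨-75, -20, 43, -10, 21, -70, -12, -60, -13⟩, (.cons (nat_lit 1949157) (nat_lit 759147) (nat_lit 800025)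
 (nat_lit 1) (.cons (nat_lit 10341591) (nat_lit 3383064) (nat_lit 24842300) (nat_lit 1) .nil)), (nat_lit 18),
 (nat_lit 20), (nat_lit 25), (nat_lit 1), (2, 5, 6), [2879386, 6461813], 2⟩,
  mz,
  mz,
  mz,
  ⟨⟨11, 72, -36, 50, 11, 30, 44, 4, -73⟩, (.cons (nat_lit 2971508) (nat_lit 3213672) (nat_lit 1596945) (nat_lit
 1) (.cons (nat_lit 19620) (nat_lit 22872879) (nat_lit 9533623) (nat_lit 1) .nil)), (nat_lit 7), (nat_lit 20),
 (nat_lit 11), (nat_lit 1), (4, 44, 16), [2633936, 15710472], 5⟩,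
  mz,
  ⟨⟨9, -28, -85, -70, -11, 30, -4, 44, -49⟩, (.cons (nat_lit 221813) (nat_lit 4695532) (nat_lit 2016519)
 (nat_lit 1) (.cons (nat_lit 6068427) (nat_lit 16390685) (nat_lit 21261874) (nat_lit 1) .nil)), (nat_lit 16),
 (nat_lit 18), (nat_lit 17), (nat_lit 1), (14, 41, 49), [3555818, 9467572], 25⟩,
  ⟨⟨75, -16, -52, 4, 55, -52, 10, -40, -59⟩, (.cons (nat_lit 4826808) (nat_lit 1255750) (nat_lit 4141536)
 (nat_lit 1) (.cons (nat_lit 11266956) (nat_lit 24683539) (nat_lit 24803122) (nat_lit 1) .nil)), (nat_lit 30),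
 (nat_lit 14), (nat_lit 3), (nat_lit 1), (51, 51, 21), [2043012, 2618825], 15⟩,
  mz,
  ⟨⟨-27, -68, 43, 64, -15, -2, 6, -48, -49⟩, (.cons (nat_lit 2790763) (nat_lit 4502980) (nat_lit 816618)
 (nat_lit 1) (.cons (nat_lit 10253048) (nat_lit 24260685) (nat_lit 19286469) (nat_lit 1) .nil)), (nat_lit 6),
 (nat_lit 10), (nat_lit 16), (nat_lit 1), (60, 55, 34), [1657593, 19951550], 22⟩,
  ⟨⟨13, 72, 23, -70, 11, 40, 4, 44, -53⟩, (.cons (nat_lit 2008420) (nat_lit 4206146) (nat_lit 2116600) (nat_lit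
 1) (.cons (nat_lit 21177378) (nat_lit 10662998) (nat_lit 22641869) (nat_lit 1) .nil)), (nat_lit 17), (nat_lit
 18), (nat_lit 12), (nat_lit 1), (20, 7, 28), [4477794, 1955048], 24⟩,
  ⟨⟨-23, 72, 32, 64, 25, -52, -26, 32, -41⟩, (.cons (nat_lit 2971529) (nat_lit 3673796) (nat_lit 826714)
 (nat_lit 1) (.cons (nat_lit 9047709) (nat_lit 17368815) (nat_lit 11049736) (nat_lit 1) .nil)), (nat_lit 26),
 (nat_lit 19), (nat_lit 15), (nat_lit 1), (27, 36, 12), [4515656, 20008534], 25⟩,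
  ⟨⟨17, 24, 72, -36, -55, 48, 54, -24, -1⟩, (.cons (nat_lit 1715015) (nat_lit 1041506) (nat_lit 1938066)
 (nat_lit 1) (.cons (nat_lit 4643605) (nat_lit 16030596) (nat_lit 10069807) (nat_lit 1) .nil)), (nat_lit 13),
 (nat_lit 27), (nat_lit 27), (nat_lit 1), (30, 20, 41), [4519637, 6742947], 4⟩]

/-- Moves. -/
noncomputable def t1_4 : List Mv := [
  mz,
  ⟨⟨63, 40, -56, 10, 21, 70, -12, 60, -13⟩, (.cons (nat_lit 4826808) (nat_lit 2684416) (nat_lit 720335)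
 (nat_lit 1) (.cons (nat_lit 13358189) (nat_lit 609709) (nat_lit 13358260) (nat_lit 1) .nil)), (nat_lit 30),
 (nat_lit 6), (nat_lit 2), (nat_lit 1), (31, 50, 11), [2594210, 16345884], 24⟩,
  mz,
  ⟨⟨65, -24, -72, 4, -55, 48, -10, -40, -49⟩, (.cons (nat_lit 463214) (nat_lit 745203) (nat_lit 124809)
 (nat_lit 1) (.cons (nat_lit 1813402) (nat_lit 5132470) (nat_lit 5103024) (nat_lit 1) .nil)), (nat_lit 15),
 (nat_lit 20), (nat_lit 8), (nat_lit 1), (37, 70, 38), [46741, 17715435], 28⟩,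
  ⟨⟨27, 68, 16, 64, -15, -62, -6, 48, -43⟩, (.cons (nat_lit 899485) (nat_lit 591795) (nat_lit 713635) (nat_lit
 1) (.cons (nat_lit 2338641) (nat_lit 3232467) (nat_lit 10640152) (nat_lit 1) .nil)), (nat_lit 21), (nat_lit
 10), (nat_lit 25), (nat_lit 1), (60, 16, 34), [3929379, 10006727], 16⟩,
  ⟨⟨27, -68, 16, 64, 15, -62, -6, -48, -43⟩, (.cons (nat_lit 4745210) (nat_lit 4299297) (nat_lit 788852)
 (nat_lit 1) (.cons (nat_lit 14436313) (nat_lit 12335421) (nat_lit 13733103) (nat_lit 1) .nil)), (nat_lit 3),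
 (nat_lit 25), (nat_lit 5), (nat_lit 1), (7, 35, 30), [3044693, 1072123], 13⟩,
  mz,
  ⟨⟨-29, 72, 20, 56, 25, -68, -38, 16, -35⟩, (.cons (nat_lit 1261743) (nat_lit 2955769) (nat_lit 3455137)
 (nat_lit 1) (.cons (nat_lit 10822884) (nat_lit 1507447) (nat_lit 12237693) (nat_lit 1) .nil)), (nat_lit 26),
 (nat_lit 23), (nat_lit 7), (nat_lit 1), (33, 44, 31), [1624950, 23280106], 25⟩,
  ⟨⟨23, -72, 9, 64, 25, -12, 26, -32, -67⟩, (.cons (nat_lit 2287891) (nat_lit 4045067) (nat_lit 4215083)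
 (nat_lit 1) (.cons (nat_lit 1500478) (nat_lit 4023338) (nat_lit 4932604) (nat_lit 1) .nil)), (nat_lit 14),
 (nat_lit 12), (nat_lit 29), (nat_lit 1), (60, 62, 3), [3089610, 25217914], 30⟩,
  mz,
  mz,
  ⟨⟨33, -20, -92, 64, 15, -2, 6, 48, -49⟩, (.cons (nat_lit 285331) (nat_lit 605870) (nat_lit 2836271) (nat_lit
 1) (.cons (nat_lit 18710210) (nat_lit 6171651) (nat_lit 15890191) (nat_lit 1) .nil)), (nat_lit 21), (nat_lit
 25), (nat_lit 4), (nat_lit 1), (67, 3, 38), [3834877, 11384974], 29⟩,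
  ⟨⟨9, 76, -20, 44, -15, -82, -42, 24, -25⟩, (.cons (nat_lit 521744) (nat_lit 4605497) (nat_lit 366545)
 (nat_lit 1) (.cons (nat_lit 8602149) (nat_lit 22875120) (nat_lit 14551059) (nat_lit 1) .nil)), (nat_lit 21),
 (nat_lit 28), (nat_lit 20), (nat_lit 1), (31, 49, 21), [370369, 3891540], 16⟩,
  mz,
  mz,
  ⟨⟨51, -52, -56, -44, -15, -38, 42, 24, -67⟩, (.cons (nat_lit 2685704) (nat_lit 1570083) (nat_lit 4732535)
 (nat_lit 1) (.cons (nat_lit 22459808) (nat_lit 20579095) (nat_lit 7179908) (nat_lit 1) .nil)), (nat_lit 10),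
 (nat_lit 20), (nat_lit 27), (nat_lit 1), (24, 67, 49), [4691067, 4105919], 4⟩,
  ⟨⟨37, -48, 36, -36, -55, -12, 54, -24, -53⟩, (.cons (nat_lit 4826808) (nat_lit 2571377) (nat_lit 3855239)
 (nat_lit 1) (.cons (nat_lit 20124520) (nat_lit 12963851) (nat_lit 2846017) (nat_lit 1) .nil)), (nat_lit 30),
 (nat_lit 19), (nat_lit 11), (nat_lit 1), (57, 52, 64), [2332789, 1083677], 1⟩,
  mz,
  ⟨⟨9, 56, -64, -56, -25, -12, 38, -16, -73⟩, (.cons (nat_lit 2076251) (nat_lit 2592940) (nat_lit 1203062)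
 (nat_lit 1) (.cons (nat_lit 13624382) (nat_lit 3901849) (nat_lit 14862921) (nat_lit 1) .nil)), (nat_lit 7),
 (nat_lit 12), (nat_lit 7), (nat_lit 1), (56, 46, 55), [594151, 24020974], 11⟩,
  ⟨⟨-61, -48, 25, -44, 55, 32, -22, -8, -55⟩, (.cons (nat_lit 655702) (nat_lit 2793290) (nat_lit 3141695)
 (nat_lit 1) (.cons (nat_lit 6271889) (nat_lit 7686182) (nat_lit 16540640) (nat_lit 1) .nil)), (nat_lit 29),
 (nat_lit 20), (nat_lit 9), (nat_lit 1), (9, 3, 37), [2939407, 22761599], 5⟩,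
  mz,
  mz,
  ⟨⟨17, -24, 72, 36, -55, -48, 54, 24, -1⟩, (.cons (nat_lit 234685) (nat_lit 3772150) (nat_lit 19669) (nat_lit
 1) (.cons (nat_lit 8656205) (nat_lit 4264002) (nat_lit 8449541) (nat_lit 1) .nil)), (nat_lit 12), (nat_lit
 17), (nat_lit 17), (nat_lit 1), (28, 5, 43), [4056834, 8136690], 18⟩,
  ⟨⟨-61, 48, 25, 44, 55, -32, -22, 8, -55⟩, (.cons (nat_lit 2425372) (nat_lit 2655060) (nat_lit 2199620)
 (nat_lit 1) (.cons (nat_lit 3652723) (nat_lit 12157983) (nat_lit 4018629) (nat_lit 1) .nil)), (nat_lit 8),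
 (nat_lit 11), (nat_lit 22), (nat_lit 1), (13, 43, 14), [617283, 9765772], 2⟩,
  ⟨⟨-39, 40, -41, 44, 55, -12, 22, -8, -77⟩, (.cons (nat_lit 4787888) (nat_lit 436379) (nat_lit 3125596)
 (nat_lit 1) (.cons (nat_lit 14495468) (nat_lit 9396165) (nat_lit 2244716) (nat_lit 1) .nil)), (nat_lit 4),
 (nat_lit 18), (nat_lit 5), (nat_lit 1), (2, 56, 28), [2212058, 13223009], 1⟩,
  mz,
  ⟨⟨9, 16, -89, -10, 69, 20, 60, 12, -49⟩, (.cons (nat_lit 1490927) (nat_lit 3618298) (nat_lit 2587847)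
 (nat_lit 1) (.cons (nat_lit 19960156) (nat_lit 25219661) (nat_lit 13239166) (nat_lit 1) .nil)), (nat_lit 9),
 (nat_lit 0), (nat_lit 16), (nat_lit 1), (44, 30, 33), [4792811, 20048236], 19⟩,
  mz,
  mz,
  ⟨⟨-13, -72, 36, 70, -11, -30, -4, -44, -49⟩, (.cons (nat_lit 4216353) (nat_lit 1277741) (nat_lit 649110)
 (nat_lit 1) (.cons (nat_lit 15855782) (nat_lit 18995683) (nat_lit 1) (nat_lit 2553941) .nil)), (nat_lit 28),
 (nat_lit 4), (nat_lit 5), (nat_lit 1), (29, 35, 69), [4372631, 20693009], 21⟩,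
  mz,
  ⟨⟨-11, 72, -25, 50, -11, -80, -44, 4, -29⟩, (.cons (nat_lit 375082) (nat_lit 3619643) (nat_lit 3152750)
 (nat_lit 1) (.cons (nat_lit 12407002) (nat_lit 24376873) (nat_lit 14098317) (nat_lit 1) .nil)), (nat_lit 15),
 (nat_lit 26), (nat_lit 25), (nat_lit 1), (44, 13, 34), [2963706, 14269590], 20⟩,
  mz,
  ⟨⟨-29, -72, 20, 56, -25, -68, -38, -16, -35⟩, (.cons (nat_lit 7657) (nat_lit 1415524) (nat_lit 3372996)
 (nat_lit 1) (.cons (nat_lit 16218424) (nat_lit 14318191) (nat_lit 18958389) (nat_lit 1) .nil)), (nat_lit 12),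
 (nat_lit 16), (nat_lit 17), (nat_lit 1), (27, 36, 6), [2070982, 5865947], 15⟩,
  ⟨⟨75, 20, -32, -10, 21, 80, 12, 60, -25⟩, (.cons (nat_lit 4826808) (nat_lit 4130763) (nat_lit 1123700)
 (nat_lit 1) (.cons (nat_lit 15359465) (nat_lit 9745398) (nat_lit 19884213) (nat_lit 1) .nil)), (nat_lit 30),
 (nat_lit 18), (nat_lit 7), (nat_lit 1), (30, 67, 19), [3514062, 10903580], 27⟩,
  mz,
  ⟨⟨23, 72, 9, -64, 25, 12, 26, 32, -67⟩, (.cons (nat_lit 2494723) (nat_lit 3307919) (nat_lit 2533637) (nat_lit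
 1) (.cons (nat_lit 5300019) (nat_lit 1340226) (nat_lit 1506309) (nat_lit 1) .nil)), (nat_lit 1), (nat_lit 22),
 (nat_lit 2), (nat_lit 1), (66, 17, 53), [1266175, 9012132], 15⟩,
  mz,
  ⟨⟨17, -24, -89, 36, -55, 12, 54, 24, -53⟩, (.cons (nat_lit 4317708) (nat_lit 1220870) (nat_lit 1) (nat_lit
 2252042) (.cons (nat_lit 12534630) (nat_lit 900075) (nat_lit 21681832) (nat_lit 1) .nil)), (nat_lit 29),
 (nat_lit 8), (nat_lit 9), (nat_lit 1), (5, 44, 66), [4461281, 6215286], 15⟩,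
  ⟨⟨-23, -72, 32, 64, -25, -52, -26, -32, -41⟩, (.cons (nat_lit 4538721) (nat_lit 2764689) (nat_lit 3532020)
 (nat_lit 1) (.cons (nat_lit 11744953) (nat_lit 12433497) (nat_lit 9872230) (nat_lit 1) .nil)), (nat_lit 9),
 (nat_lit 16), (nat_lit 30), (nat_lit 1), (21, 28, 33), [4650387, 8080566], 23⟩,
  mz,
  mz,
  ⟨⟨-65, 24, -7, -4, 55, 52, 10, 40, -59⟩, (.cons (nat_lit 1804534) (nat_lit 3810164) (nat_lit 1156754)
 (nat_lit 1) (.cons (nat_lit 17346011) (nat_lit 5792644) (nat_lit 4291906) (nat_lit 1) .nil)), (nat_lit 26),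
 (nat_lit 29), (nat_lit 23), (nat_lit 1), (43, 66, 48), [3097765, 1089535], 28⟩,
  ⟨⟨11, -72, -36, -50, 11, -30, 44, -4, -73⟩, (.cons (nat_lit 2034178) (nat_lit 2710476) (nat_lit 1031644)
 (nat_lit 1) (.cons (nat_lit 11361759) (nat_lit 10080610) (nat_lit 23614597) (nat_lit 1) .nil)), (nat_lit 19),
 (nat_lit 13), (nat_lit 21), (nat_lit 1), (69, 22, 63), [1073288, 6446590], 8⟩,
  ⟨⟨61, 48, -36, 44, -55, -12, 22, 8, -77⟩, (.cons (nat_lit 4826808) (nat_lit 928313) (nat_lit 3226095)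
 (nat_lit 1) (.cons (nat_lit 12815531) (nat_lit 8499939) (nat_lit 15307257) (nat_lit 1) .nil)), (nat_lit 30),
 (nat_lit 17), (nat_lit 17), (nat_lit 1), (30, 10, 5), [592569, 16533204], 25⟩,
  mz,
  ⟨⟨51, 52, -56, 44, -15, 38, 42, -24, -67⟩, (.cons (nat_lit 1855393) (nat_lit 4691312) (nat_lit 2380898)
 (nat_lit 1) (.cons (nat_lit 21917181) (nat_lit 6843152) (nat_lit 14696249) (nat_lit 1) .nil)), (nat_lit 3),
 (nat_lit 1), (nat_lit 18), (nat_lit 1), (52, 56, 47), [1264591, 15025589], 20⟩,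
  ⟨⟨9, -16, 80, -10, -69, -10, 60, -12, -11⟩, (.cons (nat_lit 4826808) (nat_lit 3863090) (nat_lit 4288588)
 (nat_lit 1) (.cons (nat_lit 13312123) (nat_lit 11384614) (nat_lit 7312001) (nat_lit 1) .nil)), (nat_lit 30),
 (nat_lit 16), (nat_lit 19), (nat_lit 1), (33, 58, 7), [3835097, 506377], 14⟩,
  ⟨⟨51, 4, 40, 10, 69, -20, 60, -12, -49⟩, (.cons (nat_lit 4826808) (nat_lit 1244527) (nat_lit 1015223)
 (nat_lit 1) (.cons (nat_lit 16195517) (nat_lit 6927046) (nat_lit 23631449) (nat_lit 1) .nil)), (nat_lit 30),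
 (nat_lit 25), (nat_lit 1), (nat_lit 1), (13, 29, 32), [3150713, 15405491], 17⟩,
  ⟨⟨9, -56, -64, -56, 25, -12, 38, 16, -73⟩, (.cons (nat_lit 3916456) (nat_lit 4339986) (nat_lit 373240)
 (nat_lit 1) (.cons (nat_lit 23653989) (nat_lit 24861180) (nat_lit 21281576) (nat_lit 1) .nil)), (nat_lit 0),
 (nat_lit 25), (nat_lit 17), (nat_lit 1), (4, 54, 9), [2292478, 5232135], 19⟩,
  ⟨⟨65, 24, -72, -4, -55, -48, -10, 40, -49⟩, (.cons (nat_lit 2905324) (nat_lit 4189369) (nat_lit 3443009)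
 (nat_lit 1) (.cons (nat_lit 19741089) (nat_lit 2187581) (nat_lit 17965284) (nat_lit 1) .nil)), (nat_lit 29),
 (nat_lit 9), (nat_lit 16), (nat_lit 1), (39, 26, 65), [4629971, 17288678], 19⟩,
  ⟨⟨9, -76, -20, 44, 15, -82, -42, -24, -25⟩, (.cons (nat_lit 4242105) (nat_lit 644354) (nat_lit 3668304)
 (nat_lit 1) (.cons (nat_lit 23868292) (nat_lit 390859) (nat_lit 12737451) (nat_lit 1) .nil)), (nat_lit 22),
 (nat_lit 29), (nat_lit 24), (nat_lit 1), (1, 68, 19), [47409, 19420683], 21⟩,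
  mz,
  ⟨⟨-9, 28, -76, 70, 11, -40, 4, -44, -53⟩, (.cons (nat_lit 3775961) (nat_lit 1310663) (nat_lit 4084979)
 (nat_lit 1) (.cons (nat_lit 23018024) (nat_lit 1574902) (nat_lit 19231458) (nat_lit 1) .nil)), (nat_lit 7),
 (nat_lit 21), (nat_lit 9), (nat_lit 1), (34, 59, 48), [1098844, 10289507], 5⟩,
  ⟨⟨9, 16, 80, -10, 69, -10, 60, 12, -11⟩, (.cons (nat_lit 2794386) (nat_lit 2198428) (nat_lit 832037) (nat_lit
 1) (.cons (nat_lit 7016208) (nat_lit 2447189) (nat_lit 7473851) (nat_lit 1) .nil)), (nat_lit 0), (nat_lit 18),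
 (nat_lit 27), (nat_lit 1), (58, 46, 8), [3235105, 14008967], 3⟩,
  ⟨⟨-63, -40, 7, -10, -21, 80, 12, -60, -25⟩, (.cons (nat_lit 3269692) (nat_lit 1097322) (nat_lit 3325342)
 (nat_lit 1) (.cons (nat_lit 2873988) (nat_lit 1451496) (nat_lit 4754636) (nat_lit 1) .nil)), (nat_lit 25),
 (nat_lit 15), (nat_lit 30), (nat_lit 1), (33, 12, 14), [4526711, 2523807], 12⟩,
  mz,
  ⟨⟨-33, 68, -4, -50, -11, 80, -44, -4, -29⟩, (.cons (nat_lit 4047483) (nat_lit 2888852) (nat_lit 388493)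
 (nat_lit 1) (.cons (nat_lit 16678252) (nat_lit 2456643) (nat_lit 16898285) (nat_lit 1) .nil)), (nat_lit 28),
 (nat_lit 18), (nat_lit 8), (nat_lit 1), (43, 63, 10), [3354809, 6563783], 21⟩,
  ⟨⟨-75, -20, 43, 10, -21, 70, -12, -60, -13⟩, (.cons (nat_lit 773240) (nat_lit 1540580) (nat_lit 3394048)
 (nat_lit 1) (.cons (nat_lit 11799607) (nat_lit 13948617) (nat_lit 23252280) (nat_lit 1) .nil)), (nat_lit 17),
 (nat_lit 22), (nat_lit 13), (nat_lit 1), (2, 66, 6), [4616565, 24896405], 3⟩,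
  mz,
  mz,
  mz,
  ⟨⟨33, -68, -37, 50, 11, 30, 44, 4, -73⟩, (.cons (nat_lit 4749738) (nat_lit 3385926) (nat_lit 1641636)
 (nat_lit 1) (.cons (nat_lit 15723608) (nat_lit 21702876) (nat_lit 23244376) (nat_lit 1) .nil)), (nat_lit 11),
 (nat_lit 19), (nat_lit 23), (nat_lit 1), (12, 44, 16), [1712697, 21402], 21⟩,
  mz,
  ⟨⟨9, -28, -85, -70, -11, 30, -4, 44, -49⟩, (.cons (nat_lit 221813) (nat_lit 4695532) (nat_lit 2016519)
 (nat_lit 1) (.cons (nat_lit 6068427) (nat_lit 16390685) (nat_lit 21261874) (nat_lit 1) .nil)), (nat_lit 16),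
 (nat_lit 18), (nat_lit 17), (nat_lit 1), (14, 41, 49), [3555818, 9467572], 25⟩,
  ⟨⟨75, -16, -52, 4, 55, -52, 10, -40, -59⟩, (.cons (nat_lit 4826808) (nat_lit 1255750) (nat_lit 4141536)
 (nat_lit 1) (.cons (nat_lit 11266956) (nat_lit 24683539) (nat_lit 24803122) (nat_lit 1) .nil)), (nat_lit 30),
 (nat_lit 14), (nat_lit 3), (nat_lit 1), (51, 51, 21), [2043012, 2618825], 15⟩,
  mz,
  ⟨⟨33, 20, -92, 64, -15, -2, 6, -48, -49⟩, (.cons (nat_lit 1812727) (nat_lit 2834598) (nat_lit 2855107)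
 (nat_lit 1) (.cons (nat_lit 2157815) (nat_lit 4824277) (nat_lit 22079549) (nat_lit 1) .nil)), (nat_lit 3),
 (nat_lit 9), (nat_lit 2), (nat_lit 1), (45, 55, 34), [3897299, 5465951], 20⟩,
  ⟨⟨13, 72, 23, -70, 11, 40, 4, 44, -53⟩, (.cons (nat_lit 2008420) (nat_lit 4206146) (nat_lit 2116600) (nat_lit
 1) (.cons (nat_lit 21177378) (nat_lit 10662998) (nat_lit 22641869) (nat_lit 1) .nil)), (nat_lit 17), (nat_lit
 18), (nat_lit 12), (nat_lit 1), (20, 7, 28), [4477794, 1955048], 24⟩,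
  ⟨⟨-23, 72, 32, -64, -25, 52, -26, 32, -41⟩, (.cons (nat_lit 4469205) (nat_lit 3771928) (nat_lit 362828)
 (nat_lit 1) (.cons (nat_lit 1127756) (nat_lit 5350195) (nat_lit 21410883) (nat_lit 1) .nil)), (nat_lit 12),
 (nat_lit 24), (nat_lit 1), (nat_lit 1), (27, 35, 12), [3282127, 21496726], 15⟩,
  ⟨⟨37, -48, -73, -36, -55, 48, 54, -24, -1⟩, (.cons (nat_lit 3890295) (nat_lit 1081594) (nat_lit 136801)
 (nat_lit 1) (.cons (nat_lit 5723611) (nat_lit 13948938) (nat_lit 12221839) (nat_lit 1) .nil)), (nat_lit 5),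
 (nat_lit 14), (nat_lit 28), (nat_lit 1), (11, 20, 41), [1063357, 11945700], 11⟩]

/-- Moves. -/
noncomputable def t1_5 : List Mv := [
  mz,
  ⟨⟨-75, 20, 43, -10, -21, -70, -12, 60, -13⟩, (.cons (nat_lit 4682214) (nat_lit 409142) (nat_lit 421146)
 (nat_lit 1) (.cons (nat_lit 9958158) (nat_lit 14218708) (nat_lit 17738934) (nat_lit 1) .nil)), (nat_lit 5),
 (nat_lit 18), (nat_lit 5), (nat_lit 1), (51, 21, 11), [706233, 5763012], 21⟩,
  mz,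
  ⟨⟨65, -24, -72, -4, 55, -48, -10, -40, -49⟩, (.cons (nat_lit 4826808) (nat_lit 2255262) (nat_lit 1189622)
 (nat_lit 1) (.cons (nat_lit 19071543) (nat_lit 14234576) (nat_lit 14827765) (nat_lit 1) .nil)), (nat_lit 30),
 (nat_lit 22), (nat_lit 26), (nat_lit 1), (37, 1, 38), [3295568, 22101516], 11⟩,
  ⟨⟨-33, -20, -59, 64, -15, -62, -6, 48, -43⟩, (.cons (nat_lit 4004144) (nat_lit 1879830) (nat_lit 2621576)
 (nat_lit 1) (.cons (nat_lit 13395830) (nat_lit 9405980) (nat_lit 22751369) (nat_lit 1) .nil)), (nat_lit 26),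
 (nat_lit 9), (nat_lit 7), (nat_lit 1), (45, 16, 34), [1734241, 2007429], 23⟩,
  ⟨⟨-33, 20, -59, 64, 15, -62, -6, -48, -43⟩, (.cons (nat_lit 1434515) (nat_lit 3173830) (nat_lit 717985)
 (nat_lit 1) (.cons (nat_lit 24180357) (nat_lit 8731198) (nat_lit 13633983) (nat_lit 1) .nil)), (nat_lit 28),
 (nat_lit 8), (nat_lit 17), (nat_lit 1), (23, 35, 30), [2615846, 13311542], 20⟩,
  mz,
  ⟨⟨-29, 72, 20, 56, 25, -68, -38, 16, -35⟩, (.cons (nat_lit 1261743) (nat_lit 2955769) (nat_lit 3455137)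
 (nat_lit 1) (.cons (nat_lit 10822884) (nat_lit 1507447) (nat_lit 12237693) (nat_lit 1) .nil)), (nat_lit 26),
 (nat_lit 23), (nat_lit 7), (nat_lit 1), (33, 44, 31), [1624950, 23280106], 25⟩,
  ⟨⟨3, 40, -76, 64, 25, -12, 26, -32, -67⟩, (.cons (nat_lit 4775310) (nat_lit 899107) (nat_lit 613387) (nat_lit
 1) (.cons (nat_lit 17133532) (nat_lit 17207597) (nat_lit 20508952) (nat_lit 1) .nil)), (nat_lit 6), (nat_lit
 17), (nat_lit 20), (nat_lit 1), (14, 62, 3), [4404277, 13037207], 1⟩,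
  mz,
  mz,
  ⟨⟨33, -20, -92, 64, 15, -2, 6, 48, -49⟩, (.cons (nat_lit 285331) (nat_lit 605870) (nat_lit 2836271) (nat_lit
 1) (.cons (nat_lit 18710210) (nat_lit 6171651) (nat_lit 15890191) (nat_lit 1) .nil)), (nat_lit 21), (nat_lit
 25), (nat_lit 4), (nat_lit 1), (67, 3, 38), [3834877, 11384974], 29⟩,
  ⟨⟨9, 76, -20, 44, -15, -82, -42, 24, -25⟩, (.cons (nat_lit 521744) (nat_lit 4605497) (nat_lit 366545)
 (nat_lit 1) (.cons (nat_lit 8602149) (nat_lit 22875120) (nat_lit 14551059) (nat_lit 1) .nil)), (nat_lit 21),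
 (nat_lit 28), (nat_lit 20), (nat_lit 1), (31, 49, 21), [370369, 3891540], 16⟩,
  mz,
  mz,
  ⟨⟨51, -52, -56, -44, -15, -38, 42, 24, -67⟩, (.cons (nat_lit 2685704) (nat_lit 1570083) (nat_lit 4732535)
 (nat_lit 1) (.cons (nat_lit 22459808) (nat_lit 20579095) (nat_lit 7179908) (nat_lit 1) .nil)), (nat_lit 10),
 (nat_lit 20), (nat_lit 27), (nat_lit 1), (24, 67, 49), [4691067, 4105919], 4⟩,
  ⟨⟨17, 24, -89, -36, -55, -12, 54, -24, -53⟩, (.cons (nat_lit 4110442) (nat_lit 2375369) (nat_lit 1) (nat_lit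
 1438034) (.cons (nat_lit 4333107) (nat_lit 13499443) (nat_lit 3248065) (nat_lit 1) .nil)), (nat_lit 29),
 (nat_lit 20), (nat_lit 16), (nat_lit 1), (7, 52, 64), [1363663, 21602980], 15⟩,
  mz,
  ⟨⟨9, 56, -64, -56, -25, -12, 38, -16, -73⟩, (.cons (nat_lit 2076251) (nat_lit 2592940) (nat_lit 1203062)
 (nat_lit 1) (.cons (nat_lit 13624382) (nat_lit 3901849) (nat_lit 14862921) (nat_lit 1) .nil)), (nat_lit 7),
 (nat_lit 12), (nat_lit 7), (nat_lit 1), (56, 46, 55), [594151, 24020974], 11⟩,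
  ⟨⟨-61, -48, 25, -44, 55, 32, -22, -8, -55⟩, (.cons (nat_lit 655702) (nat_lit 2793290) (nat_lit 3141695)
 (nat_lit 1) (.cons (nat_lit 6271889) (nat_lit 7686182) (nat_lit 16540640) (nat_lit 1) .nil)), (nat_lit 29),
 (nat_lit 20), (nat_lit 9), (nat_lit 1), (9, 3, 37), [2939407, 22761599], 5⟩,
  mz,
  mz,
  ⟨⟨37, 48, -73, -36, 55, 48, 54, 24, -1⟩, (.cons (nat_lit 565045) (nat_lit 1052881) (nat_lit 2170136) (nat_lit
 1) (.cons (nat_lit 1983276) (nat_lit 1040204) (nat_lit 20575771) (nat_lit 1) .nil)), (nat_lit 15), (nat_lit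
 10), (nat_lit 8), (nat_lit 1), (15, 66, 43), [3740379, 16419923], 4⟩,
  ⟨⟨-61, 48, 25, 44, 55, -32, -22, 8, -55⟩, (.cons (nat_lit 2425372) (nat_lit 2655060) (nat_lit 2199620)
 (nat_lit 1) (.cons (nat_lit 3652723) (nat_lit 12157983) (nat_lit 4018629) (nat_lit 1) .nil)), (nat_lit 8),
 (nat_lit 11), (nat_lit 22), (nat_lit 1), (13, 43, 14), [617283, 9765772], 2⟩,
  ⟨⟨-39, 40, -41, 44, 55, -12, 22, -8, -77⟩, (.cons (nat_lit 4787888) (nat_lit 436379) (nat_lit 3125596)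
 (nat_lit 1) (.cons (nat_lit 14495468) (nat_lit 9396165) (nat_lit 2244716) (nat_lit 1) .nil)), (nat_lit 4),
 (nat_lit 18), (nat_lit 5), (nat_lit 1), (2, 56, 28), [2212058, 13223009], 1⟩,
  mz,
  ⟨⟨51, -4, 40, -10, 69, 20, 60, 12, -49⟩, (.cons (nat_lit 4826808) (nat_lit 3911543) (nat_lit 889094) (nat_lit
 1) (.cons (nat_lit 8161405) (nat_lit 5738787) (nat_lit 1) (nat_lit 2748339) .nil)), (nat_lit 30), (nat_lit
 16), (nat_lit 25), (nat_lit 1), (60, 30, 33), [4747371, 4432529], 13⟩,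
  mz,
  mz,
  ⟨⟨-13, -72, 36, 70, -11, -30, -4, -44, -49⟩, (.cons (nat_lit 4216353) (nat_lit 1277741) (nat_lit 649110)
 (nat_lit 1) (.cons (nat_lit 15855782) (nat_lit 18995683) (nat_lit 1) (nat_lit 2553941) .nil)), (nat_lit 28),
 (nat_lit 4), (nat_lit 5), (nat_lit 1), (29, 35, 69), [4372631, 20693009], 21⟩,
  mz,
  ⟨⟨-33, -68, -4, 50, -11, -80, -44, 4, -29⟩, (.cons (nat_lit 2150501) (nat_lit 2813265) (nat_lit 3619754)
 (nat_lit 1) (.cons (nat_lit 14749038) (nat_lit 1995709) (nat_lit 21234913) (nat_lit 1) .nil)), (nat_lit 20),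
 (nat_lit 18), (nat_lit 21), (nat_lit 1), (61, 13, 34), [984751, 13010794], 29⟩,
  mz,
  ⟨⟨-29, -72, 20, 56, -25, -68, -38, -16, -35⟩, (.cons (nat_lit 7657) (nat_lit 1415524) (nat_lit 3372996)
 (nat_lit 1) (.cons (nat_lit 16218424) (nat_lit 14318191) (nat_lit 18958389) (nat_lit 1) .nil)), (nat_lit 12),
 (nat_lit 16), (nat_lit 17), (nat_lit 1), (27, 36, 6), [2070982, 5865947], 15⟩,
  ⟨⟨75, 20, -32, 10, -21, -80, 12, 60, -25⟩, (.cons (nat_lit 53098) (nat_lit 1379667) (nat_lit 132568) (nat_lit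
 1) (.cons (nat_lit 10392680) (nat_lit 18212453) (nat_lit 8524758) (nat_lit 1) .nil)), (nat_lit 17), (nat_lit
 28), (nat_lit 21), (nat_lit 1), (30, 4, 19), [3430467, 12331447], 7⟩,
  mz,
  ⟨⟨23, 72, 9, 64, -25, -12, 26, 32, -67⟩, (.cons (nat_lit 679650) (nat_lit 4697819) (nat_lit 831448) (nat_lit
 1) (.cons (nat_lit 4368812) (nat_lit 6388092) (nat_lit 4348064) (nat_lit 1) .nil)), (nat_lit 8), (nat_lit 20),
 (nat_lit 0), (nat_lit 1), (66, 54, 53), [3163232, 2845078], 10⟩,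
  mz,
  ⟨⟨17, -24, -89, -36, 55, -12, 54, 24, -53⟩, (.cons (nat_lit 4606201) (nat_lit 1208013) (nat_lit 2018306)
 (nat_lit 1) (.cons (nat_lit 4460429) (nat_lit 21182247) (nat_lit 18504917) (nat_lit 1) .nil)), (nat_lit 17),
 (nat_lit 13), (nat_lit 26), (nat_lit 1), (5, 27, 66), [1560235, 20333912], 25⟩,
  ⟨⟨-23, -72, 32, 64, -25, -52, -26, -32, -41⟩, (.cons (nat_lit 4538721) (nat_lit 2764689) (nat_lit 3532020)
 (nat_lit 1) (.cons (nat_lit 11744953) (nat_lit 12433497) (nat_lit 9872230) (nat_lit 1) .nil)), (nat_lit 9),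
 (nat_lit 16), (nat_lit 30), (nat_lit 1), (21, 28, 33), [4650387, 8080566], 23⟩,
  mz,
  mz,
  ⟨⟨75, 16, -52, 4, -55, -52, 10, 40, -59⟩, (.cons (nat_lit 2751755) (nat_lit 3768563) (nat_lit 4768057)
 (nat_lit 1) (.cons (nat_lit 14668271) (nat_lit 20528607) (nat_lit 9658954) (nat_lit 1) .nil)), (nat_lit 29),
 (nat_lit 8), (nat_lit 18), (nat_lit 1), (5, 5, 48), [1574763, 469455], 19⟩,
  ⟨⟨33, 68, -37, -50, 11, -30, 44, -4, -73⟩, (.cons (nat_lit 2014610) (nat_lit 4061899) (nat_lit 4486774)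
 (nat_lit 1) (.cons (nat_lit 20879688) (nat_lit 1409577) (nat_lit 1706311) (nat_lit 1) .nil)), (nat_lit 16),
 (nat_lit 29), (nat_lit 25), (nat_lit 1), (65, 22, 63), [4163727, 16489152], 26⟩,
  ⟨⟨-39, -40, -41, -44, 55, 12, 22, 8, -77⟩, (.cons (nat_lit 2253061) (nat_lit 1461196) (nat_lit 2864352)
 (nat_lit 1) (.cons (nat_lit 3914650) (nat_lit 11224922) (nat_lit 14987655) (nat_lit 1) .nil)), (nat_lit 15),
 (nat_lit 10), (nat_lit 20), (nat_lit 1), (46, 61, 5), [3357403, 9764011], 9⟩,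
  mz,
  ⟨⟨-9, -76, -11, -44, 15, -38, 42, -24, -67⟩, (.cons (nat_lit 471991) (nat_lit 2366671) (nat_lit 4824440)
 (nat_lit 1) (.cons (nat_lit 22517634) (nat_lit 9532521) (nat_lit 18463696) (nat_lit 1) .nil)), (nat_lit 22),
 (nat_lit 15), (nat_lit 3), (nat_lit 1), (66, 15, 47), [4480997, 24428426], 10⟩,
  ⟨⟨9, -16, 80, -10, -69, -10, 60, -12, -11⟩, (.cons (nat_lit 4826808) (nat_lit 3863090) (nat_lit 4288588)
 (nat_lit 1) (.cons (nat_lit 13312123) (nat_lit 11384614) (nat_lit 7312001) (nat_lit 1) .nil)), (nat_lit 30),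
 (nat_lit 16), (nat_lit 19), (nat_lit 1), (33, 58, 7), [3835097, 506377], 14⟩,
  ⟨⟨51, 4, 40, 10, 69, -20, 60, -12, -49⟩, (.cons (nat_lit 4826808) (nat_lit 1244527) (nat_lit 1015223)
 (nat_lit 1) (.cons (nat_lit 16195517) (nat_lit 6927046) (nat_lit 23631449) (nat_lit 1) .nil)), (nat_lit 30),
 (nat_lit 25), (nat_lit 1), (nat_lit 1), (13, 29, 32), [3150713, 15405491], 17⟩,
  ⟨⟨9, -56, -64, 56, -25, 12, 38, 16, -73⟩, (.cons (nat_lit 480422) (nat_lit 2055636) (nat_lit 1) (nat_lit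
 4610658) (.cons (nat_lit 119131) (nat_lit 18170114) (nat_lit 19640130) (nat_lit 1) .nil)), (nat_lit 13),
 (nat_lit 29), (nat_lit 18), (nat_lit 1), (4, 17, 9), [1062738, 23990328], 24⟩,
  ⟨⟨-75, 16, 23, 4, 55, 48, -10, 40, -49⟩, (.cons (nat_lit 1814303) (nat_lit 4589411) (nat_lit 3954356)
 (nat_lit 1) (.cons (nat_lit 4039374) (nat_lit 13313178) (nat_lit 1) (nat_lit 25319097) .nil)), (nat_lit 6),
 (nat_lit 12), (nat_lit 17), (nat_lit 1), (26, 45, 65), [1958522, 14405364], 16⟩,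
  ⟨⟨-51, 52, -5, -44, -15, 82, -42, -24, -25⟩, (.cons (nat_lit 3152163) (nat_lit 133571) (nat_lit 2116573)
 (nat_lit 1) (.cons (nat_lit 13564630) (nat_lit 19448600) (nat_lit 22963976) (nat_lit 1) .nil)), (nat_lit 6),
 (nat_lit 8), (nat_lit 20), (nat_lit 1), (18, 3, 19), [1258740, 15340100], 22⟩,
  mz,
  ⟨⟨-9, 28, -76, -70, -11, 40, 4, -44, -53⟩, (.cons (nat_lit 872385) (nat_lit 3597542) (nat_lit 24735) (nat_lit
 1) (.cons (nat_lit 2658701) (nat_lit 9136079) (nat_lit 10225428) (nat_lit 1) .nil)), (nat_lit 14), (nat_lit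
 27), (nat_lit 16), (nat_lit 1), (34, 12, 48), [4655700, 13201517], 11⟩,
  ⟨⟨9, 16, 80, 10, -69, 10, 60, 12, -11⟩, (.cons (nat_lit 4826808) (nat_lit 4283129) (nat_lit 1725005) (nat_lit
 1) (.cons (nat_lit 4557118) (nat_lit 14637901) (nat_lit 1) (nat_lit 23915853) .nil)), (nat_lit 30), (nat_lit
 28), (nat_lit 1), (nat_lit 1), (58, 25, 8), [2138404, 4086645], 18⟩,
  ⟨⟨-63, -40, 7, 10, 21, -80, 12, -60, -25⟩, (.cons (nat_lit 4581402) (nat_lit 4467665) (nat_lit 1279100)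
 (nat_lit 1) (.cons (nat_lit 18324066) (nat_lit 11794227) (nat_lit 9240593) (nat_lit 1) .nil)), (nat_lit 19),
 (nat_lit 23), (nat_lit 21), (nat_lit 1), (33, 59, 14), [2823500, 9751936], 9⟩,
  mz,
  ⟨⟨-11, -72, -25, -50, -11, 80, -44, -4, -29⟩, (.cons (nat_lit 3254097) (nat_lit 1014942) (nat_lit 1870977)
 (nat_lit 1) (.cons (nat_lit 19307294) (nat_lit 17388099) (nat_lit 2725703) (nat_lit 1) .nil)), (nat_lit 2),
 (nat_lit 26), (nat_lit 28), (nat_lit 1), (38, 63, 10), [54143, 18286496], 7⟩,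
  ⟨⟨-75, -20, 43, -10, 21, -70, -12, -60, -13⟩, (.cons (nat_lit 1949157) (nat_lit 759147) (nat_lit 800025)
 (nat_lit 1) (.cons (nat_lit 10341591) (nat_lit 3383064) (nat_lit 24842300) (nat_lit 1) .nil)), (nat_lit 18),
 (nat_lit 20), (nat_lit 25), (nat_lit 1), (2, 5, 6), [2879386, 6461813], 2⟩,
  mz,
  mz,
  mz,
  ⟨⟨11, 72, -36, -50, -11, -30, 44, 4, -73⟩, (.cons (nat_lit 1126898) (nat_lit 1615372) (nat_lit 2835934)
 (nat_lit 1) (.cons (nat_lit 6435578) (nat_lit 6376974) (nat_lit 4168498) (nat_lit 1) .nil)), (nat_lit 10),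
 (nat_lit 22), (nat_lit 12), (nat_lit 1), (4, 27, 16), [1098673, 25197485], 23⟩,
  mz,
  ⟨⟨-13, 72, 36, 70, 11, -30, -4, 44, -49⟩, (.cons (nat_lit 2147056) (nat_lit 4196295) (nat_lit 3082848)
 (nat_lit 1) (.cons (nat_lit 10591511) (nat_lit 23391675) (nat_lit 21523246) (nat_lit 1) .nil)), (nat_lit 9),
 (nat_lit 6), (nat_lit 25), (nat_lit 1), (35, 30, 49), [2611685, 22922958], 2⟩,
  ⟨⟨75, -16, -52, -4, -55, 52, 10, -40, -59⟩, (.cons (nat_lit 1951727) (nat_lit 1239315) (nat_lit 2190100)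
 (nat_lit 1) (.cons (nat_lit 13486898) (nat_lit 17457890) (nat_lit 11624604) (nat_lit 1) .nil)), (nat_lit 15),
 (nat_lit 4), (nat_lit 9), (nat_lit 1), (51, 20, 21), [886801, 19780911], 28⟩,
  mz,
  ⟨⟨-27, -68, 43, -64, 15, 2, 6, -48, -49⟩, (.cons (nat_lit 2709859) (nat_lit 2621248) (nat_lit 1) (nat_lit
 1903213) (.cons (nat_lit 21537337) (nat_lit 5614637) (nat_lit 4996779) (nat_lit 1) .nil)), (nat_lit 24),
 (nat_lit 12), (nat_lit 21), (nat_lit 1), (60, 16, 34), [1203764, 1575777], 25⟩,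
  ⟨⟨13, 72, 23, 70, -11, -40, 4, 44, -53⟩, (.cons (nat_lit 1180913) (nat_lit 127950) (nat_lit 1870977) (nat_lit
 1) (.cons (nat_lit 8221869) (nat_lit 18203907) (nat_lit 7691922) (nat_lit 1) .nil)), (nat_lit 15), (nat_lit
 28), (nat_lit 21), (nat_lit 1), (20, 64, 28), [1771008, 13541919], 20⟩,
  ⟨⟨-23, 72, 32, 64, 25, -52, -26, 32, -41⟩, (.cons (nat_lit 2971529) (nat_lit 3673796) (nat_lit 826714)
 (nat_lit 1) (.cons (nat_lit 9047709) (nat_lit 17368815) (nat_lit 11049736) (nat_lit 1) .nil)), (nat_lit 26),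
 (nat_lit 19), (nat_lit 15), (nat_lit 1), (27, 36, 12), [4515656, 20008534], 25⟩,
  ⟨⟨17, 24, 72, 36, 55, -48, 54, -24, -1⟩, (.cons (nat_lit 4826808) (nat_lit 2591751) (nat_lit 1795143)
 (nat_lit 1) (.cons (nat_lit 18432159) (nat_lit 4681861) (nat_lit 11154038) (nat_lit 1) .nil)), (nat_lit 30),
 (nat_lit 21), (nat_lit 7), (nat_lit 1), (30, 51, 41), [1625750, 22737215], 30⟩]

/-- Moves. -/
noncomputable def t4_2 : List Mv := [
  mz,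
  ⟨⟨3, 20, 29, 4, -25, 18, 26, 8, -7⟩, (.cons (nat_lit 2664834) (nat_lit 3155156) (nat_lit 1567534) (nat_lit 1)
 (.cons (nat_lit 2477529) (nat_lit 18488815) (nat_lit 19546867) (nat_lit 1) .nil)), (nat_lit 26), (nat_lit 0),
 (nat_lit 0), (nat_lit 0), (26, 14, 29), [4822849, 2540608], 0⟩,
  ⟨⟨3, -20, 29, 4, 25, 18, 26, -8, -7⟩, (.cons (nat_lit 365799) (nat_lit 2080091) (nat_lit 1620712) (nat_lit 1)
 (.cons (nat_lit 18182358) (nat_lit 15037159) (nat_lit 19619157) (nat_lit 1) .nil)), (nat_lit 26), (nat_lit 0),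
 (nat_lit 0), (nat_lit 0), (19, 15, 20), [279709, 13775801], 0⟩,
  mz,
  ⟨⟨27, 16, -28, -4, -15, -28, -6, 24, -11⟩, (.cons (nat_lit 701229) (nat_lit 3899800) (nat_lit 1275613)
 (nat_lit 1) (.cons (nat_lit 24427947) (nat_lit 12938966) (nat_lit 18242210) (nat_lit 1) .nil)), (nat_lit 14),
 (nat_lit 0), (nat_lit 0), (nat_lit 0), (15, 15, 7), [4090962, 20388510], 0⟩,
  mz,
  ⟨⟨21, -4, -40, 16, 25, 2, 22, -16, -5⟩, (.cons (nat_lit 107871) (nat_lit 2882138) (nat_lit 2569701) (nat_lit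
 1) (.cons (nat_lit 9898550) (nat_lit 24339272) (nat_lit 14198103) (nat_lit 1) .nil)), (nat_lit 23), (nat_lit
 0), (nat_lit 0), (nat_lit 0), (21, 16, 22), [1497800, 654792], 0⟩,
  mz,
  ⟨⟨-31, 0, 0, 10, 19, -30, -4, -20, -19⟩, (.cons (nat_lit 4826808) (nat_lit 1029438) (nat_lit 1972793)
 (nat_lit 1) (.cons (nat_lit 25411680) (nat_lit 9340589) (nat_lit 13737376) (nat_lit 1) .nil)), (nat_lit 8),
 (nat_lit 0), (nat_lit 0), (nat_lit 0), (0, 5, 29), [3988190, 24641864], 0⟩,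
  mz,
  mz,
  mz,
  mz,
  ⟨⟨27, 20, -19, 10, -19, -30, -4, 20, -19⟩, (.cons (nat_lit 2640907) (nat_lit 3131469) (nat_lit 360424)
 (nat_lit 1) (.cons (nat_lit 15810504) (nat_lit 14755091) (nat_lit 15735469) (nat_lit 1) .nil)), (nat_lit 25),
 (nat_lit 0), (nat_lit 0), (nat_lit 0), (5, 3, 5), [1616623, 8415009], 0⟩,
  ⟨⟨27, -16, -28, -4, 15, -28, -6, -24, -11⟩, (.cons (nat_lit 4826808) (nat_lit 2440775) (nat_lit 997769)
 (nat_lit 1) (.cons (nat_lit 25411680) (nat_lit 12605649) (nat_lit 5755279) (nat_lit 1) .nil)), (nat_lit 14),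
 (nat_lit 0), (nat_lit 0), (nat_lit 0), (28, 28, 11), [1604539, 23651366], 0⟩,
  ⟨⟨3, 20, -32, 4, -25, -22, 26, 8, -19⟩, (.cons (nat_lit 4586589) (nat_lit 4151478) (nat_lit 255299) (nat_lit
 1) (.cons (nat_lit 12046840) (nat_lit 11024044) (nat_lit 5768151) (nat_lit 1) .nil)), (nat_lit 26), (nat_lit
 0), (nat_lit 0), (nat_lit 0), (10, 3, 4), [1161717, 13482584], 0⟩,
  mz,
  mz,
  ⟨⟨21, -4, 19, 16, 25, -18, 22, -16, -17⟩, (.cons (nat_lit 2868347) (nat_lit 4365526) (nat_lit 2373266)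
 (nat_lit 1) (.cons (nat_lit 22939937) (nat_lit 19148580) (nat_lit 17097863) (nat_lit 1) .nil)), (nat_lit 23),
 (nat_lit 0), (nat_lit 0), (nat_lit 0), (7, 26, 28), [1477153, 19375968], 0⟩,
  ⟨⟨-9, 8, -31, -10, -29, 0, 20, -4, -31⟩, (.cons (nat_lit 1700027) (nat_lit 2721594) (nat_lit 3556003)
 (nat_lit 1) (.cons (nat_lit 24212753) (nat_lit 6588761) (nat_lit 10127404) (nat_lit 1) .nil)), (nat_lit 20),
 (nat_lit 0), (nat_lit 0), (nat_lit 0), (2, 16, 30), [3027983, 11792647], 0⟩,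
  ⟨⟨9, 8, -40, 10, -29, -10, -20, -4, -11⟩, (.cons (nat_lit 4826808) (nat_lit 1253457) (nat_lit 1543574)
 (nat_lit 1) (.cons (nat_lit 25411680) (nat_lit 16630176) (nat_lit 24736672) (nat_lit 1) .nil)), (nat_lit 20),
 (nat_lit 0), (nat_lit 0), (nat_lit 0), (27, 30, 2), [608147, 6193095], 0⟩,
  ⟨⟨33, 8, -16, 4, -15, -32, 6, 24, -17⟩, (.cons (nat_lit 360031) (nat_lit 4669168) (nat_lit 286916) (nat_lit
 1) (.cons (nat_lit 22185199) (nat_lit 3034083) (nat_lit 23889179) (nat_lit 1) .nil)), (nat_lit 27), (nat_lit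
 0), (nat_lit 0), (nat_lit 0), (1, 2, 3), [2548005, 19717773], 0⟩,
  ⟨⟨9, -8, -40, 10, 29, -10, -20, 4, -11⟩, (.cons (nat_lit 849360) (nat_lit 982318) (nat_lit 1268333) (nat_lit
 1) (.cons (nat_lit 24020582) (nat_lit 10714654) (nat_lit 16629061) (nat_lit 1) .nil)), (nat_lit 20), (nat_lit
 0), (nat_lit 0), (nat_lit 0), (18, 20, 22), [1535725, 16963189], 0⟩,
  ⟨⟨23, 12, 13, 4, 25, -22, 26, -8, -19⟩, (.cons (nat_lit 2759862) (nat_lit 1722387) (nat_lit 1454337) (nat_lit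
 1) (.cons (nat_lit 4482470) (nat_lit 23286057) (nat_lit 6290512) (nat_lit 1) .nil)), (nat_lit 18), (nat_lit
 0), (nat_lit 0), (nat_lit 0), (23, 4, 26), [3414595, 17282905], 0⟩,
  ⟨⟨29, 12, 0, 10, -29, 0, 20, 4, -31⟩, (.cons (nat_lit 4826808) (nat_lit 3075431) (nat_lit 2703884) (nat_lit
 1) (.cons (nat_lit 25411680) (nat_lit 5262612) (nat_lit 7291504) (nat_lit 1) .nil)), (nat_lit 24), (nat_lit
 0), (nat_lit 0), (nat_lit 0), (26, 25, 19), [3750819, 23752318], 0⟩,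
  ⟨⟨31, 0, -31, -10, 19, -20, 4, -20, -23⟩, (.cons (nat_lit 2699149) (nat_lit 1140005) (nat_lit 3919162)
 (nat_lit 1) (.cons (nat_lit 4485913) (nat_lit 23384087) (nat_lit 12433922) (nat_lit 1) .nil)), (nat_lit 8),
 (nat_lit 0), (nat_lit 0), (nat_lit 0), (0, 22, 16), [2988034, 22421476], 0⟩,
  ⟨⟨1, 12, 35, -16, 25, -2, 22, 16, -5⟩, (.cons (nat_lit 3055294) (nat_lit 920231) (nat_lit 4128446) (nat_lit
 1) (.cons (nat_lit 2742142) (nat_lit 10214943) (nat_lit 21785505) (nat_lit 1) .nil)), (nat_lit 2), (nat_lit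
 0), (nat_lit 0), (nat_lit 0), (30, 16, 9), [4355493, 13933074], 0⟩,
  ⟨⟨33, -8, -16, 4, 15, -32, 6, -24, -17⟩, (.cons (nat_lit 4826808) (nat_lit 2018644) (nat_lit 570233) (nat_lit
 1) (.cons (nat_lit 25411680) (nat_lit 18662838) (nat_lit 4917095) (nat_lit 1) .nil)), (nat_lit 27), (nat_lit
 0), (nat_lit 0), (nat_lit 0), (23, 15, 7), [425723, 16787434], 0⟩,
  ⟨⟨1, 12, -36, -16, 25, 18, 22, 16, -17⟩, (.cons (nat_lit 3847870) (nat_lit 3562045) (nat_lit 4172815)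
 (nat_lit 1) (.cons (nat_lit 23772692) (nat_lit 1624254) (nat_lit 5773978) (nat_lit 1) .nil)), (nat_lit 2),
 (nat_lit 0), (nat_lit 0), (nat_lit 0), (19, 6, 15), [1125201, 7968437], 0⟩,
  ⟨⟨-27, 20, 8, 10, 19, 20, 4, 20, -23⟩, (.cons (nat_lit 4826808) (nat_lit 3096484) (nat_lit 1543856) (nat_lit
 1) (.cons (nat_lit 25411680) (nat_lit 6137219) (nat_lit 23753807) (nat_lit 1) .nil)), (nat_lit 29), (nat_lit
 0), (nat_lit 0), (nat_lit 0), (23, 11, 23), [3246059, 11988599], 0⟩]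

/-- Moves. -/
noncomputable def t4_4 : List Mv := [
  mz,
  ⟨⟨3, 20, 29, -4, 25, -18, 26, 8, -7⟩, (.cons (nat_lit 4237942) (nat_lit 3584) (nat_lit 4358045) (nat_lit 1)
 (.cons (nat_lit 11387945) (nat_lit 11646189) (nat_lit 18245043) (nat_lit 1) .nil)), (nat_lit 6), (nat_lit 0),
 (nat_lit 0), (nat_lit 0), (26, 17, 29), [3488104, 17403750], 0⟩,
  ⟨⟨23, 12, -36, -4, -25, -18, 26, -8, -7⟩, (.cons (nat_lit 2998797) (nat_lit 3954169) (nat_lit 1) (nat_lit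
 1763372) (.cons (nat_lit 10601595) (nat_lit 8899219) (nat_lit 8892198) (nat_lit 1) .nil)), (nat_lit 28),
 (nat_lit 0), (nat_lit 0), (nat_lit 0), (1, 16, 20), [3604942, 2233906], 0⟩,
  mz,
  ⟨⟨27, 16, -28, -4, -15, -28, -6, 24, -11⟩, (.cons (nat_lit 701229) (nat_lit 3899800) (nat_lit 1275613)
 (nat_lit 1) (.cons (nat_lit 24427947) (nat_lit 12938966) (nat_lit 18242210) (nat_lit 1) .nil)), (nat_lit 14),
 (nat_lit 0), (nat_lit 0), (nat_lit 0), (15, 15, 7), [4090962, 20388510], 0⟩,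
  mz,
  ⟨⟨1, -12, 35, -16, -25, -2, 22, -16, -5⟩, (.cons (nat_lit 3763527) (nat_lit 2352555) (nat_lit 166871)
 (nat_lit 1) (.cons (nat_lit 17123452) (nat_lit 3239316) (nat_lit 9772962) (nat_lit 1) .nil)), (nat_lit 2),
 (nat_lit 0), (nat_lit 0), (nat_lit 0), (1, 15, 22), [2241549, 2393964], 0⟩,
  mz,
  ⟨⟨-31, 0, 0, 10, 19, -30, -4, -20, -19⟩, (.cons (nat_lit 4826808) (nat_lit 1029438) (nat_lit 1972793)
 (nat_lit 1) (.cons (nat_lit 25411680) (nat_lit 9340589) (nat_lit 13737376) (nat_lit 1) .nil)), (nat_lit 8),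
 (nat_lit 0), (nat_lit 0), (nat_lit 0), (0, 5, 29), [3988190, 24641864], 0⟩,
  mz,
  mz,
  mz,
  mz,
  ⟨⟨-31, 0, 0, 10, -19, -30, -4, 20, -19⟩, (.cons (nat_lit 2572631) (nat_lit 3630868) (nat_lit 1) (nat_lit
 1337206) (.cons (nat_lit 7435160) (nat_lit 7109328) (nat_lit 266938) (nat_lit 1) .nil)), (nat_lit 8), (nat_lit
 0), (nat_lit 0), (nat_lit 0), (0, 3, 5), [1863130, 15023187], 0⟩,
  ⟨⟨27, -16, -28, -4, 15, -28, -6, -24, -11⟩, (.cons (nat_lit 4826808) (nat_lit 2440775) (nat_lit 997769)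
 (nat_lit 1) (.cons (nat_lit 25411680) (nat_lit 12605649) (nat_lit 5755279) (nat_lit 1) .nil)), (nat_lit 14),
 (nat_lit 0), (nat_lit 0), (nat_lit 0), (28, 28, 11), [1604539, 23651366], 0⟩,
  ⟨⟨3, 20, -32, 4, -25, -22, 26, 8, -19⟩, (.cons (nat_lit 4586589) (nat_lit 4151478) (nat_lit 255299) (nat_lit
 1) (.cons (nat_lit 12046840) (nat_lit 11024044) (nat_lit 5768151) (nat_lit 1) .nil)), (nat_lit 26), (nat_lit
 0), (nat_lit 0), (nat_lit 0), (10, 3, 4), [1161717, 13482584], 0⟩,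
  mz,
  mz,
  ⟨⟨1, -12, -36, 16, 25, -18, 22, -16, -17⟩, (.cons (nat_lit 1430573) (nat_lit 3216035) (nat_lit 2544950)
 (nat_lit 1) (.cons (nat_lit 3418354) (nat_lit 17091775) (nat_lit 4046177) (nat_lit 1) .nil)), (nat_lit 1),
 (nat_lit 0), (nat_lit 0), (nat_lit 0), (21, 26, 28), [1125705, 10905683], 0⟩,
  ⟨⟨-9, 8, -31, 10, 29, 0, 20, -4, -31⟩, (.cons (nat_lit 2349780) (nat_lit 1971431) (nat_lit 706422) (nat_lit
 1) (.cons (nat_lit 7408377) (nat_lit 10235376) (nat_lit 1) (nat_lit 20083273) .nil)), (nat_lit 22), (nat_lit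
 0), (nat_lit 0), (nat_lit 0), (2, 15, 30), [416392, 13582088], 0⟩,
  ⟨⟨9, 8, -40, -10, 29, 10, -20, -4, -11⟩, (.cons (nat_lit 2900035) (nat_lit 1956625) (nat_lit 1785087)
 (nat_lit 1) (.cons (nat_lit 18682248) (nat_lit 10543205) (nat_lit 2816763) (nat_lit 1) .nil)), (nat_lit 22),
 (nat_lit 0), (nat_lit 0), (nat_lit 0), (27, 1, 2), [3735450, 16442265], 0⟩,
  ⟨⟨-27, 16, -1, 4, -15, -32, 6, 24, -17⟩, (.cons (nat_lit 2043631) (nat_lit 2186680) (nat_lit 1753994)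
 (nat_lit 1) (.cons (nat_lit 12308328) (nat_lit 2759471) (nat_lit 14700589) (nat_lit 1) .nil)), (nat_lit 14),
 (nat_lit 0), (nat_lit 0), (nat_lit 0), (2, 2, 3), [1342500, 18064734], 0⟩,
  ⟨⟨9, -8, -40, -10, -29, 10, -20, 4, -11⟩, (.cons (nat_lit 4826808) (nat_lit 4545361) (nat_lit 3401734)
 (nat_lit 1) (.cons (nat_lit 25411680) (nat_lit 22133848) (nat_lit 21807011) (nat_lit 1) .nil)), (nat_lit 22),
 (nat_lit 0), (nat_lit 0), (nat_lit 0), (18, 11, 22), [3703728, 22555391], 0⟩,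
  ⟨⟨23, 12, 13, -4, -25, 22, 26, -8, -19⟩, (.cons (nat_lit 2665489) (nat_lit 4259927) (nat_lit 1781858)
 (nat_lit 1) (.cons (nat_lit 18492356) (nat_lit 18381160) (nat_lit 16532099) (nat_lit 1) .nil)), (nat_lit 28),
 (nat_lit 0), (nat_lit 0), (nat_lit 0), (23, 27, 26), [1237692, 1462069], 0⟩,
  ⟨⟨-9, -8, -31, 10, -29, 0, 20, 4, -31⟩, (.cons (nat_lit 64341) (nat_lit 4290038) (nat_lit 3977136) (nat_lit
 1) (.cons (nat_lit 3451927) (nat_lit 7534441) (nat_lit 5756966) (nat_lit 1) .nil)), (nat_lit 22), (nat_lit 0),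
 (nat_lit 0), (nat_lit 0), (24, 25, 19), [891407, 1226640], 0⟩,
  ⟨⟨31, 0, -31, -10, 19, -20, 4, -20, -23⟩, (.cons (nat_lit 2699149) (nat_lit 1140005) (nat_lit 3919162)
 (nat_lit 1) (.cons (nat_lit 4485913) (nat_lit 23384087) (nat_lit 12433922) (nat_lit 1) .nil)), (nat_lit 8),
 (nat_lit 0), (nat_lit 0), (nat_lit 0), (0, 22, 16), [2988034, 22421476], 0⟩,
  ⟨⟨1, 12, 35, -16, 25, -2, 22, 16, -5⟩, (.cons (nat_lit 3055294) (nat_lit 920231) (nat_lit 4128446) (nat_lit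
 1) (.cons (nat_lit 2742142) (nat_lit 10214943) (nat_lit 21785505) (nat_lit 1) .nil)), (nat_lit 2), (nat_lit
 0), (nat_lit 0), (nat_lit 0), (30, 16, 9), [4355493, 13933074], 0⟩,
  ⟨⟨33, -8, -16, 4, 15, -32, 6, -24, -17⟩, (.cons (nat_lit 4826808) (nat_lit 2018644) (nat_lit 570233) (nat_lit
 1) (.cons (nat_lit 25411680) (nat_lit 18662838) (nat_lit 4917095) (nat_lit 1) .nil)), (nat_lit 27), (nat_lit
 0), (nat_lit 0), (nat_lit 0), (23, 15, 7), [425723, 16787434], 0⟩,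
  ⟨⟨1, 12, -36, 16, -25, -18, 22, 16, -17⟩, (.cons (nat_lit 118086) (nat_lit 1616990) (nat_lit 4075602)
 (nat_lit 1) (.cons (nat_lit 24525374) (nat_lit 10045152) (nat_lit 6587665) (nat_lit 1) .nil)), (nat_lit 1),
 (nat_lit 0), (nat_lit 0), (nat_lit 0), (19, 25, 15), [953665, 4749300], 0⟩,
  ⟨⟨31, 0, -31, -10, -19, -20, 4, 20, -23⟩, (.cons (nat_lit 4671504) (nat_lit 3399581) (nat_lit 1013492)
 (nat_lit 1) (.cons (nat_lit 8637507) (nat_lit 21097502) (nat_lit 23795410) (nat_lit 1) .nil)), (nat_lit 8),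
 (nat_lit 0), (nat_lit 0), (nat_lit 0), (0, 20, 23), [1635900, 15722747], 0⟩]

/-- Moves. -/
noncomputable def t4_5 : List Mv := [
  mz,
  ⟨⟨23, -12, -36, -4, 25, -18, 26, 8, -7⟩, (.cons (nat_lit 1420460) (nat_lit 1234913) (nat_lit 1656399)
 (nat_lit 1) (.cons (nat_lit 17666154) (nat_lit 19382924) (nat_lit 9670763) (nat_lit 1) .nil)), (nat_lit 28),
 (nat_lit 0), (nat_lit 0), (nat_lit 0), (3, 17, 29), [1861309, 5002608], 0⟩,
  ⟨⟨3, -20, 29, -4, -25, -18, 26, -8, -7⟩, (.cons (nat_lit 707201) (nat_lit 4238419) (nat_lit 4141979) (nat_lit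
 1) (.cons (nat_lit 3973139) (nat_lit 1343146) (nat_lit 17040454) (nat_lit 1) .nil)), (nat_lit 6), (nat_lit 0),
 (nat_lit 0), (nat_lit 0), (19, 16, 20), [3540912, 15529691], 0⟩,
  mz,
  ⟨⟨-33, 8, 17, 4, 15, 28, -6, 24, -11⟩, (.cons (nat_lit 265306) (nat_lit 3007786) (nat_lit 2793875) (nat_lit
 1) (.cons (nat_lit 16889517) (nat_lit 17681798) (nat_lit 19280178) (nat_lit 1) .nil)), (nat_lit 21), (nat_lit
 0), (nat_lit 0), (nat_lit 0), (23, 16, 7), [2708656, 17002187], 0⟩,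
  mz,
  ⟨⟨1, -12, 35, -16, -25, -2, 22, -16, -5⟩, (.cons (nat_lit 3763527) (nat_lit 2352555) (nat_lit 166871)
 (nat_lit 1) (.cons (nat_lit 17123452) (nat_lit 3239316) (nat_lit 9772962) (nat_lit 1) .nil)), (nat_lit 2),
 (nat_lit 0), (nat_lit 0), (nat_lit 0), (1, 15, 22), [2241549, 2393964], 0⟩,
  mz,
  ⟨⟨27, -20, -19, 10, 19, -30, -4, -20, -19⟩, (.cons (nat_lit 2163947) (nat_lit 4104839) (nat_lit 3845283)
 (nat_lit 1) (.cons (nat_lit 15674094) (nat_lit 12105763) (nat_lit 3580338) (nat_lit 1) .nil)), (nat_lit 25),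
 (nat_lit 0), (nat_lit 0), (nat_lit 0), (29, 5, 29), [3250113, 6150016], 0⟩,
  mz,
  mz,
  mz,
  mz,
  ⟨⟨-31, 0, 0, 10, -19, -30, -4, 20, -19⟩, (.cons (nat_lit 2572631) (nat_lit 3630868) (nat_lit 1) (nat_lit
 1337206) (.cons (nat_lit 7435160) (nat_lit 7109328) (nat_lit 266938) (nat_lit 1) .nil)), (nat_lit 8), (nat_lit
 0), (nat_lit 0), (nat_lit 0), (0, 3, 5), [1863130, 15023187], 0⟩,
  ⟨⟨27, -16, -28, -4, 15, -28, -6, -24, -11⟩, (.cons (nat_lit 4826808) (nat_lit 2440775) (nat_lit 997769)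
 (nat_lit 1) (.cons (nat_lit 25411680) (nat_lit 12605649) (nat_lit 5755279) (nat_lit 1) .nil)), (nat_lit 14),
 (nat_lit 0), (nat_lit 0), (nat_lit 0), (28, 28, 11), [1604539, 23651366], 0⟩,
  ⟨⟨3, 20, -32, 4, -25, -22, 26, 8, -19⟩, (.cons (nat_lit 4586589) (nat_lit 4151478) (nat_lit 255299) (nat_lit
 1) (.cons (nat_lit 12046840) (nat_lit 11024044) (nat_lit 5768151) (nat_lit 1) .nil)), (nat_lit 26), (nat_lit
 0), (nat_lit 0), (nat_lit 0), (10, 3, 4), [1161717, 13482584], 0⟩,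
  mz,
  mz,
  ⟨⟨1, -12, -36, 16, 25, -18, 22, -16, -17⟩, (.cons (nat_lit 1430573) (nat_lit 3216035) (nat_lit 2544950)
 (nat_lit 1) (.cons (nat_lit 3418354) (nat_lit 17091775) (nat_lit 4046177) (nat_lit 1) .nil)), (nat_lit 1),
 (nat_lit 0), (nat_lit 0), (nat_lit 0), (21, 26, 28), [1125705, 10905683], 0⟩,
  ⟨⟨29, -12, 0, 10, 29, 0, 20, -4, -31⟩, (.cons (nat_lit 3347742) (nat_lit 3809453) (nat_lit 59065) (nat_lit 1)
 (.cons (nat_lit 11569681) (nat_lit 19601715) (nat_lit 22734541) (nat_lit 1) .nil)), (nat_lit 24), (nat_lit 0),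
 (nat_lit 0), (nat_lit 0), (28, 15, 30), [4230399, 22731729], 0⟩,
  ⟨⟨9, 8, -40, 10, -29, -10, -20, -4, -11⟩, (.cons (nat_lit 4826808) (nat_lit 1253457) (nat_lit 1543574)
 (nat_lit 1) (.cons (nat_lit 25411680) (nat_lit 16630176) (nat_lit 24736672) (nat_lit 1) .nil)), (nat_lit 20),
 (nat_lit 0), (nat_lit 0), (nat_lit 0), (27, 30, 2), [608147, 6193095], 0⟩,
  ⟨⟨-27, 16, -1, -4, 15, 32, 6, 24, -17⟩, (.cons (nat_lit 4679279) (nat_lit 463592) (nat_lit 4677813) (nat_lit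
 1) (.cons (nat_lit 14032062) (nat_lit 20207267) (nat_lit 5891755) (nat_lit 1) .nil)), (nat_lit 4), (nat_lit
 0), (nat_lit 0), (nat_lit 0), (2, 29, 3), [380582, 11350310], 0⟩,
  ⟨⟨9, -8, -40, 10, 29, -10, -20, 4, -11⟩, (.cons (nat_lit 849360) (nat_lit 982318) (nat_lit 1268333) (nat_lit
 1) (.cons (nat_lit 24020582) (nat_lit 10714654) (nat_lit 16629061) (nat_lit 1) .nil)), (nat_lit 20), (nat_lit
 0), (nat_lit 0), (nat_lit 0), (18, 20, 22), [1535725, 16963189], 0⟩,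
  ⟨⟨3, -20, -32, -4, -25, 22, 26, -8, -19⟩, (.cons (nat_lit 1866674) (nat_lit 2337287) (nat_lit 1857164)
 (nat_lit 1) (.cons (nat_lit 22890111) (nat_lit 4259804) (nat_lit 9688050) (nat_lit 1) .nil)), (nat_lit 6),
 (nat_lit 0), (nat_lit 0), (nat_lit 0), (3, 27, 26), [2361617, 13788586], 0⟩,
  ⟨⟨29, 12, 0, -10, 29, 0, 20, 4, -31⟩, (.cons (nat_lit 4607439) (nat_lit 4608822) (nat_lit 1933694) (nat_lit
 1) (.cons (nat_lit 1124857) (nat_lit 4805282) (nat_lit 13823756) (nat_lit 1) .nil)), (nat_lit 19), (nat_lit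
 0), (nat_lit 0), (nat_lit 0), (26, 6, 19), [44716, 22264475], 0⟩,
  ⟨⟨31, 0, -31, 10, -19, 20, 4, -20, -23⟩, (.cons (nat_lit 3678964) (nat_lit 3254567) (nat_lit 260081) (nat_lit
 1) (.cons (nat_lit 10472016) (nat_lit 24816958) (nat_lit 13132358) (nat_lit 1) .nil)), (nat_lit 13), (nat_lit
 0), (nat_lit 0), (nat_lit 0), (0, 9, 16), [2560240, 18376209], 0⟩,
  ⟨⟨1, 12, 35, 16, -25, 2, 22, 16, -5⟩, (.cons (nat_lit 2374784) (nat_lit 909093) (nat_lit 1108369) (nat_lit 1)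
 (.cons (nat_lit 12611903) (nat_lit 19015277) (nat_lit 24690636) (nat_lit 1) .nil)), (nat_lit 1), (nat_lit 0),
 (nat_lit 0), (nat_lit 0), (30, 15, 9), [2718211, 21577186], 0⟩,
  ⟨⟨33, -8, -16, 4, 15, -32, 6, -24, -17⟩, (.cons (nat_lit 4826808) (nat_lit 2018644) (nat_lit 570233) (nat_lit
 1) (.cons (nat_lit 25411680) (nat_lit 18662838) (nat_lit 4917095) (nat_lit 1) .nil)), (nat_lit 27), (nat_lit
 0), (nat_lit 0), (nat_lit 0), (23, 15, 7), [425723, 16787434], 0⟩,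
  ⟨⟨1, 12, -36, 16, -25, -18, 22, 16, -17⟩, (.cons (nat_lit 118086) (nat_lit 1616990) (nat_lit 4075602)
 (nat_lit 1) (.cons (nat_lit 24525374) (nat_lit 10045152) (nat_lit 6587665) (nat_lit 1) .nil)), (nat_lit 1),
 (nat_lit 0), (nat_lit 0), (nat_lit 0), (19, 25, 15), [953665, 4749300], 0⟩,
  ⟨⟨-27, 20, 8, 10, 19, 20, 4, 20, -23⟩, (.cons (nat_lit 4826808) (nat_lit 3096484) (nat_lit 1543856) (nat_lit
 1) (.cons (nat_lit 25411680) (nat_lit 6137219) (nat_lit 23753807) (nat_lit 1) .nil)), (nat_lit 29), (nat_lit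
 0), (nat_lit 0), (nat_lit 0), (23, 11, 23), [3246059, 11988599], 0⟩]

/-- All the moves. -/
noncomputable def tabs : List (List (List Mv)) := [[[], [], t0_2, [], t0_4, t0_5], [[], [], t1_2, [], t1_4, t1_5], [], [], [[], [], t4_2, [], t4_4, t4_5]]

/-- Subtrie. -/
noncomputable def T2 : Tr := (.ev (nat_lit 20) (nat_lit 7913488) (.nd (nat_lit 33) (.br (nat_lit 39) (.br
 (nat_lit 19) (.br (nat_lit 8) (.br (nat_lit 4) (.br (nat_lit 3) (.ch (nat_lit 1) (.ev (nat_lit 52) (nat_lit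
 218104134) (.ev (nat_lit 116) (nat_lit 536879104) (.ev (nat_lit 148) (nat_lit 8388608) (.ev (nat_lit 180)
 (nat_lit 33554432) (.nd (nat_lit 640) (.br (nat_lit 6) (.br (nat_lit 4) (.ch (nat_lit 1) (.ev (nat_lit 656)
 (nat_lit 262144) (.ev (nat_lit 669) (nat_lit 268435456) .dd))) (.br (nat_lit 5) (.ch (nat_lit 4) (.ev (nat_lit
 656) (nat_lit 268697600) .dd)) (.ch (nat_lit 5) (.ev (nat_lit 656) (nat_lit 268435456) (.ev (nat_lit 669)
 (nat_lit 262144) .dd))))) (.br (nat_lit 9) (.ch (nat_lit 6) (.ev (nat_lit 740) (nat_lit 268435456) (.ev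
 (nat_lit 749) (nat_lit 262144) .dd))) (.br (nat_lit 12) (.ch (nat_lit 9) (.ev (nat_lit 656) (nat_lit 262144)
 (.ev (nat_lit 669) (nat_lit 268435456) .dd))) (.ch (nat_lit 12) (.ev (nat_lit 656) (nat_lit 268697600)
 .dd))))))))))) (.ch (nat_lit 3) (.ev (nat_lit 52) (nat_lit 796925952) (.ev (nat_lit 84) (nat_lit 256) (.ev
 (nat_lit 116) (nat_lit 262144) (.ev (nat_lit 148) (nat_lit 64) (.ev (nat_lit 256) (nat_lit 268435462)
 .dd))))))) (.br (nat_lit 5) (.ch (nat_lit 4) (.ev (nat_lit 52) (nat_lit 360710402) (.ev (nat_lit 84) (nat_lit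
 134217728) (.ev (nat_lit 160) (nat_lit 570695748) .dd)))) (.br (nat_lit 7) (.ch (nat_lit 5) (.ev (nat_lit 52)
 (nat_lit 17047620) (.ev (nat_lit 84) (nat_lit 536870912) (.ev (nat_lit 116) (nat_lit 256) (.ev (nat_lit 180)
 (nat_lit 67108864) (.ev (nat_lit 400) (nat_lit 33554432) (.nd (nat_lit 640) (.br (nat_lit 2) (.br (nat_lit 1)
 (.ch (nat_lit 0) (.ev (nat_lit 656) (nat_lit 276824066) (.ev (nat_lit 669) (nat_lit 134217728) .dd))) (.ch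
 (nat_lit 1) (.ev (nat_lit 656) (nat_lit 8388610) (.ev (nat_lit 836) (nat_lit 134217728) (.ev (nat_lit 845)
 (nat_lit 268435456) .dd))))) (.br (nat_lit 5) (.ch (nat_lit 2) (.ev (nat_lit 656) (nat_lit 268435456) (.ev
 (nat_lit 692) (nat_lit 134217728) (.ev (nat_lit 980) (nat_lit 8388608) (.ev (nat_lit 989) (nat_lit 2) .dd)))))
 (.br (nat_lit 10) (.ch (nat_lit 5) (.ev (nat_lit 656) (nat_lit 134217728) (.ev (nat_lit 692) (nat_lit
 268435456) (.ev (nat_lit 864) (nat_lit 2) (.ev (nat_lit 877) (nat_lit 8388608) .dd))))) (.ch (nat_lit 10) (.ev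
 (nat_lit 656) (nat_lit 134217730) (.ev (nat_lit 692) (nat_lit 8388608) (.ev (nat_lit 701) (nat_lit 268435456)
 .dd)))))))))))))) (.ch (nat_lit 7) (.ev (nat_lit 52) (nat_lit 679485446) (.ev (nat_lit 84) (nat_lit 33816640)
 (.nd (nat_lit 640) (.br (nat_lit 6) (.br (nat_lit 1) (.ch (nat_lit 0) (.ev (nat_lit 656) (nat_lit 352321536)
 (.ev (nat_lit 669) (nat_lit 256) .dd))) (.br (nat_lit 2) (.ch (nat_lit 1) (.ev (nat_lit 656) (nat_lit
 83886080) (.ev (nat_lit 740) (nat_lit 268435456) (.ev (nat_lit 749) (nat_lit 256) .dd)))) (.ch (nat_lit 2)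
 (.ev (nat_lit 656) (nat_lit 335544576) (.ev (nat_lit 669) (nat_lit 16777216) .dd))))) (.br (nat_lit 10) (.br
 (nat_lit 9) (.ch (nat_lit 6) (.ev (nat_lit 656) (nat_lit 16777472) (.ev (nat_lit 784) (nat_lit 268435456) (.ev
 (nat_lit 797) (nat_lit 67108864) .dd)))) (.ch (nat_lit 9) (.ev (nat_lit 656) (nat_lit 268435712) (.ev (nat_lit
 752) (nat_lit 67108864) (.ev (nat_lit 765) (nat_lit 16777216) .dd))))) (.br (nat_lit 12) (.ch (nat_lit 10)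
 (.ev (nat_lit 656) (nat_lit 83886336) (.ev (nat_lit 669) (nat_lit 268435456) .dd))) (.ch (nat_lit 12) (.ev
 (nat_lit 656) (nat_lit 268435456) (.ev (nat_lit 772) (nat_lit 16777216) (.ev (nat_lit 784) (nat_lit 67108864)
 (.ev (nat_lit 797) (nat_lit 256) .dd))))))))))))))) (.br (nat_lit 15) (.br (nat_lit 11) (.ch (nat_lit 8) (.ev
 (nat_lit 52) (nat_lit 830472514) (.ev (nat_lit 116) (nat_lit 67108864) (.nd (nat_lit 640) (.br (nat_lit 9)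
 (.br (nat_lit 5) (.ch (nat_lit 0) (.ev (nat_lit 656) (nat_lit 33824772) (.ev (nat_lit 669) (nat_lit 134217728)
 .dd))) (.br (nat_lit 6) (.ch (nat_lit 5) (.ev (nat_lit 656) (nat_lit 134225920) (.ev (nat_lit 884) (nat_lit
 262148) (.ev (nat_lit 893) (nat_lit 33554432) .dd)))) (.ch (nat_lit 6) (.ev (nat_lit 656) (nat_lit 33554436)
 (.ev (nat_lit 692) (nat_lit 8192) (.ev (nat_lit 896) (nat_lit 134217728) (.ev (nat_lit 909) (nat_lit 262144)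
 .dd))))))) (.br (nat_lit 10) (.ch (nat_lit 9) (.ev (nat_lit 656) (nat_lit 134488064) (.fin (nat_lit
 576474496186663492)))) (.br (nat_lit 12) (.ch (nat_lit 10) (.ev (nat_lit 656) (nat_lit 33816580) (.ev (nat_lit
 836) (nat_lit 8192) (.ev (nat_lit 845) (nat_lit 134217728) .dd)))) (.ch (nat_lit 12) (.ev (nat_lit 656)
 (nat_lit 167780356) (.ev (nat_lit 669) (nat_lit 262144) .dd)))))))))) (.br (nat_lit 12) (.ch (nat_lit 11) (.ev
 (nat_lit 52) (nat_lit 58982466) (.ev (nat_lit 84) (nat_lit 536870912) (.ev (nat_lit 128) (nat_lit 469770500)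
 .dd)))) (.ch (nat_lit 12) (.ev (nat_lit 52) (nat_lit 319037700) (.ev (nat_lit 84) (nat_lit 2) (.nd (nat_lit
 640) (.br (nat_lit 6) (.br (nat_lit 2) (.ch (nat_lit 0) (.ev (nat_lit 656) (nat_lit 75497472) (.ev (nat_lit
 884) (nat_lit 64) (.ev (nat_lit 980) (nat_lit 134217728) (.ev (nat_lit 989) (nat_lit 536870912) .dd))))) (.br
 (nat_lit 5) (.ch (nat_lit 2) (.ev (nat_lit 656) (nat_lit 603979776) (.ev (nat_lit 692) (nat_lit 64) (.ev
 (nat_lit 1008) (nat_lit 8388608) (.ev (nat_lit 1021) (nat_lit 134217728) .dd))))) (.ch (nat_lit 5) (.ev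
 (nat_lit 656) (nat_lit 746586176) .dd)))) (.br (nat_lit 9) (.ch (nat_lit 6) (.ev (nat_lit 656) (nat_lit
 671088640) (.ev (nat_lit 672) (nat_lit 8388608) (.ev (nat_lit 980) (nat_lit 64) (.ev (nat_lit 989) (nat_lit
 67108864) .dd))))) (.br (nat_lit 12) (.ch (nat_lit 9) (.ev (nat_lit 656) (nat_lit 8388672) (.ev (nat_lit 896)
 (nat_lit 67108864) (.ev (nat_lit 992) (nat_lit 536870912) (.ev (nat_lit 1005) (nat_lit 134217728) .dd)))))
 (.ch (nat_lit 12) (.ev (nat_lit 656) (nat_lit 679477312) (.ev (nat_lit 669) (nat_lit 67108864) .dd))))))))))))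
 (.br (nat_lit 16) (.ch (nat_lit 15) (.ev (nat_lit 52) (nat_lit 637534532) (.ev (nat_lit 84) (nat_lit 2) (.ev
 (nat_lit 180) (nat_lit 268435456) (.nd (nat_lit 640) (.br (nat_lit 5) (.br (nat_lit 2) (.ch (nat_lit 1) (.ev
 (nat_lit 656) (nat_lit 151003136) (.ev (nat_lit 884) (nat_lit 8388608) (.ev (nat_lit 893) (nat_lit 262144)
 .dd)))) (.br (nat_lit 4) (.ch (nat_lit 2) (.ev (nat_lit 656) (nat_lit 159383552) (.ev (nat_lit 848) (nat_lit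
 8192) (.ev (nat_lit 861) (nat_lit 262144) .dd)))) (.ch (nat_lit 4) (.ev (nat_lit 656) (nat_lit 17047552) (.ev
 (nat_lit 980) (nat_lit 8388608) (.ev (nat_lit 989) (nat_lit 134217728) .dd)))))) (.br (nat_lit 9) (.ch
 (nat_lit 5) (.ev (nat_lit 656) (nat_lit 151003136) (.fin (nat_lit 576474496205537852)))) (.br (nat_lit 12)
 (.ch (nat_lit 9) (.ev (nat_lit 656) (nat_lit 25427968) (.ev (nat_lit 1126) (nat_lit 134225920) .dd))) (.ch
 (nat_lit 12) (.ev (nat_lit 656) (nat_lit 142876672) (.ev (nat_lit 669) (nat_lit 16777216) .dd))))))))))) (.br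
 (nat_lit 18) (.ch (nat_lit 16) (.ev (nat_lit 52) (nat_lit 1023672578) (.ev (nat_lit 84) (nat_lit 4) (.ev
 (nat_lit 116) (nat_lit 64) (.nd (nat_lit 640) (.br (nat_lit 6) (.br (nat_lit 5) (.ch (nat_lit 2) (.ev (nat_lit
 656) (nat_lit 41943040) (.ev (nat_lit 669) (nat_lit 8192) .dd))) (.ch (nat_lit 5) (.ev (nat_lit 656) (nat_lit
 8192) (.ev (nat_lit 992) (nat_lit 8388608) (.ev (nat_lit 1005) (nat_lit 33554432) .dd))))) (.br (nat_lit 9)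
 (.ch (nat_lit 6) (.ev (nat_lit 656) (nat_lit 41943040) (.ev (nat_lit 669) (nat_lit 8192) .dd))) (.br (nat_lit
 12) (.ch (nat_lit 9) (.ev (nat_lit 656) (nat_lit 8388608) (.ev (nat_lit 1024) (nat_lit 8192) (.ev (nat_lit
 1037) (nat_lit 33554432) .dd)))) (.ch (nat_lit 12) (.ev (nat_lit 656) (nat_lit 41951232) .dd)))))))))) (.ch
 (nat_lit 18) (.ev (nat_lit 52) (nat_lit 41943300) (.ev (nat_lit 84) (nat_lit 134217728) (.ev (nat_lit 148)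
 (nat_lit 17039360) (.ev (nat_lit 276) (nat_lit 67108864) (.nd (nat_lit 640) (.br (nat_lit 5) (.br (nat_lit 2)
 (.ch (nat_lit 1) (.ev (nat_lit 656) (nat_lit 268443714) (.ev (nat_lit 669) (nat_lit 536870912) .dd))) (.br
 (nat_lit 4) (.ch (nat_lit 2) (.ev (nat_lit 656) (nat_lit 536870978) (.nd (nat_lit 1248) (.ch (nat_lit 0) (.nd
 (nat_lit 1265) (.ch (nat_lit 8) (.nd (nat_lit 1296) (.br (nat_lit 11) (.ch (nat_lit 4) (.fin (nat_lit
 576540466966119052))) (.ch (nat_lit 11) (.ev (nat_lit 1312) (nat_lit 268443648) .dd)))))))))) (.ch (nat_lit 4)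
 (.ev (nat_lit 656) (nat_lit 805306432) (.ev (nat_lit 752) (nat_lit 8192) (.ev (nat_lit 765) (nat_lit 2)
 .dd)))))) (.br (nat_lit 6) (.ch (nat_lit 5) (.ev (nat_lit 656) (nat_lit 805314560) (.ev (nat_lit 692) (nat_lit
 2) (.ev (nat_lit 701) (nat_lit 64) .dd)))) (.br (nat_lit 10) (.ch (nat_lit 6) (.ev (nat_lit 656) (nat_lit
 536879168) (.ev (nat_lit 800) (nat_lit 268435458) .dd))) (.ch (nat_lit 10) (.ev (nat_lit 656) (nat_lit 2) (.ev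
 (nat_lit 772) (nat_lit 8192) (.ev (nat_lit 1088) (nat_lit 536870912) (.fin (nat_lit
 576496486542950992))))))))))))))))))) (.br (nat_lit 29) (.br (nat_lit 23) (.br (nat_lit 22) (.ch (nat_lit 19)
 (.ev (nat_lit 52) (nat_lit 385875972) (.ev (nat_lit 84) (nat_lit 64) (.ev (nat_lit 180) (nat_lit 142606336)
 (.nd (nat_lit 640) (.br (nat_lit 9) (.br (nat_lit 4) (.ch (nat_lit 0) (.ev (nat_lit 656) (nat_lit 270338) (.ev
 (nat_lit 740) (nat_lit 256) (.ev (nat_lit 749) (nat_lit 536870912) .dd)))) (.br (nat_lit 6) (.ch (nat_lit 4)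
 (.ev (nat_lit 656) (nat_lit 262400) (.ev (nat_lit 692) (nat_lit 8192) (.ev (nat_lit 928) (nat_lit 2) (.ev
 (nat_lit 941) (nat_lit 536870912) .dd))))) (.ch (nat_lit 6) (.ev (nat_lit 656) (nat_lit 536871170) (.ev
 (nat_lit 800) (nat_lit 270336) .dd))))) (.br (nat_lit 10) (.ch (nat_lit 9) (.ev (nat_lit 656) (nat_lit 2) (.ev
 (nat_lit 692) (nat_lit 536870912) (.ev (nat_lit 960) (nat_lit 256) (.ev (nat_lit 1044) (nat_lit 8192) (.ev
 (nat_lit 1053) (nat_lit 262144) .dd)))))) (.br (nat_lit 12) (.ch (nat_lit 10) (.ev (nat_lit 656) (nat_lit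
 270592) (.fin (nat_lit 576448107907596860)))) (.ch (nat_lit 12) (.ev (nat_lit 656) (nat_lit 536879106) (.nd
 (nat_lit 1216) (.br (nat_lit 11) (.ch (nat_lit 9) (.fin (nat_lit 576540466829804172))) (.ch (nat_lit 11) (.ev
 (nat_lit 1232) (nat_lit 256) (.ev (nat_lit 1245) (nat_lit 262144) .dd))))))))))))))) (.ch (nat_lit 22) (.ev
 (nat_lit 52) (nat_lit 243540032) (.ev (nat_lit 84) (nat_lit 536870912) (.ev (nat_lit 148) (nat_lit 2) (.nd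
 (nat_lit 640) (.br (nat_lit 6) (.br (nat_lit 2) (.ch (nat_lit 1) (.ev (nat_lit 656) (nat_lit 268435716) (.ev
 (nat_lit 669) (nat_lit 16777216) .dd))) (.br (nat_lit 4) (.ch (nat_lit 2) (.ev (nat_lit 656) (nat_lit
 16777472) (.ev (nat_lit 692) (nat_lit 4) (.ev (nat_lit 701) (nat_lit 268435456) .dd)))) (.ch (nat_lit 4) (.ev
 (nat_lit 656) (nat_lit 285212676) (.ev (nat_lit 669) (nat_lit 256) .dd))))) (.br (nat_lit 9) (.ch (nat_lit 6)
 (.ev (nat_lit 656) (nat_lit 268435712) (.ev (nat_lit 772) (nat_lit 16777216) (.ev (nat_lit 781) (nat_lit 4)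
 .dd)))) (.br (nat_lit 10) (.ch (nat_lit 9) (.ev (nat_lit 656) (nat_lit 260) (.ev (nat_lit 836) (nat_lit
 16777216) (.ev (nat_lit 845) (nat_lit 268435456) .dd)))) (.ch (nat_lit 10) (.ev (nat_lit 656) (nat_lit
 285212928) (.ev (nat_lit 669) (nat_lit 4) .dd)))))))))))) (.br (nat_lit 24) (.ch (nat_lit 23) (.ev (nat_lit
 52) (nat_lit 671350850) (.ev (nat_lit 116) (nat_lit 83886080) (.ev (nat_lit 148) (nat_lit 256) (.nd (nat_lit
 640) (.br (nat_lit 6) (.br (nat_lit 4) (.ch (nat_lit 2) (.ev (nat_lit 656) (nat_lit 41943044) (.nd (nat_lit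
 1216) (.br (nat_lit 6) (.ch (nat_lit 0) (.fin (nat_lit 576540466966119052))) (.ch (nat_lit 6) (.ev (nat_lit
 1232) (nat_lit 268435456) (.ev (nat_lit 1245) (nat_lit 8192) .dd))))))) (.br (nat_lit 5) (.ch (nat_lit 4) (.ev
 (nat_lit 656) (nat_lit 268443648) (.ev (nat_lit 692) (nat_lit 8388608) (.ev (nat_lit 928) (nat_lit 33554432)
 (.ev (nat_lit 941) (nat_lit 4) .dd))))) (.ch (nat_lit 5) (.ev (nat_lit 656) (nat_lit 41951232) (.ev (nat_lit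
 740) (nat_lit 268435456) (.ev (nat_lit 749) (nat_lit 4) .dd)))))) (.br (nat_lit 9) (.ch (nat_lit 6) (.ev
 (nat_lit 656) (nat_lit 33554432) (.ev (nat_lit 692) (nat_lit 4) (.ev (nat_lit 960) (nat_lit 268435456) (.ev
 (nat_lit 1044) (nat_lit 8192) (.ev (nat_lit 1053) (nat_lit 8388608) .dd)))))) (.br (nat_lit 10) (.ch (nat_lit
 9) (.ev (nat_lit 656) (nat_lit 276832256) (.fin (nat_lit 576474496186663492)))) (.ch (nat_lit 10) (.ev
 (nat_lit 656) (nat_lit 301989892) (.ev (nat_lit 800) (nat_lit 8396800) .dd))))))))))) (.br (nat_lit 26) (.ch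
 (nat_lit 24) (.ev (nat_lit 52) (nat_lit 262464) (.ev (nat_lit 64) (nat_lit 1065361414) .dd))) (.ch (nat_lit
 26) (.ev (nat_lit 52) (nat_lit 738459652) (.ev (nat_lit 64) (nat_lit 327164226) .dd)))))) (.br (nat_lit 34)
 (.br (nat_lit 31) (.ch (nat_lit 29) (.ev (nat_lit 52) (nat_lit 109060160) (.ev (nat_lit 64) (nat_lit
 956563718) .dd))) (.br (nat_lit 33) (.ch (nat_lit 31) (.ev (nat_lit 52) (nat_lit 511705092) (.ev (nat_lit 84)
 (nat_lit 2) (.ev (nat_lit 128) (nat_lit 553918784) .dd)))) (.ch (nat_lit 33) (.ev (nat_lit 52) (nat_lit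
 50331910) (.ev (nat_lit 116) (nat_lit 8396800) (.ev (nat_lit 148) (nat_lit 536870912) (.ev (nat_lit 416)
 (nat_lit 262144) (.nd (nat_lit 640) (.br (nat_lit 2) (.br (nat_lit 1) (.ch (nat_lit 0) (.ev (nat_lit 656)
 (nat_lit 469762048) (.ev (nat_lit 669) (nat_lit 64) .dd))) (.ch (nat_lit 1) (.ev (nat_lit 656) (nat_lit
 67108928) (.ev (nat_lit 864) (nat_lit 134217728) (.ev (nat_lit 877) (nat_lit 268435456) .dd))))) (.br (nat_lit
 4) (.ch (nat_lit 2) (.ev (nat_lit 656) (nat_lit 201326656) (.ev (nat_lit 669) (nat_lit 268435456) .dd))) (.br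
 (nat_lit 10) (.ch (nat_lit 4) (.ev (nat_lit 656) (nat_lit 402653184) (.ev (nat_lit 864) (nat_lit 67108864)
 (.ev (nat_lit 877) (nat_lit 64) .dd)))) (.ch (nat_lit 10) (.nd (nat_lit 1216) (.br (nat_lit 7) (.ch (nat_lit
 2) (.ev (nat_lit 1232) (nat_lit 268435520) (.fin (nat_lit 576456904017396268)))) (.ch (nat_lit 7) (.ev
 (nat_lit 1232) (nat_lit 201326592) (.fin (nat_lit 576426117578572336)))))))))))))))))) (.br (nat_lit 36) (.ch
 (nat_lit 34) (.ev (nat_lit 52) (nat_lit 310640644) (.ev (nat_lit 64) (nat_lit 754983234) .dd))) (.br (nat_lit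
 38) (.ch (nat_lit 36) (.ev (nat_lit 52) (nat_lit 100933636) (.ev (nat_lit 116) (nat_lit 134217728) (.ev
 (nat_lit 148) (nat_lit 268435712) (.ev (nat_lit 432) (nat_lit 64) (.nd (nat_lit 640) (.br (nat_lit 9) (.br
 (nat_lit 6) (.ch (nat_lit 5) (.ev (nat_lit 656) (nat_lit 553648128) (.ev (nat_lit 864) (nat_lit 2) (.ev
 (nat_lit 877) (nat_lit 8388608) .dd)))) (.ch (nat_lit 6) (.ev (nat_lit 656) (nat_lit 553648130) (.ev (nat_lit
 669) (nat_lit 8388608) .dd)))) (.br (nat_lit 10) (.ch (nat_lit 9) (.ev (nat_lit 656) (nat_lit 8388610) (.ev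
 (nat_lit 864) (nat_lit 536870912) (.ev (nat_lit 877) (nat_lit 16777216) .dd)))) (.br (nat_lit 12) (.ch
 (nat_lit 10) (.nd (nat_lit 1216) (.br (nat_lit 8) (.ch (nat_lit 6) (.ev (nat_lit 1232) (nat_lit 25165824)
 (.fin (nat_lit 576448107907596860)))) (.ch (nat_lit 8) (.ev (nat_lit 1232) (nat_lit 536870914) (.fin (nat_lit
 576514078561223336))))))) (.ch (nat_lit 12) (.ev (nat_lit 656) (nat_lit 545259522) (.ev (nat_lit 669) (nat_lit
 16777216) .dd)))))))))))) (.ch (nat_lit 38) (.ev (nat_lit 52) (nat_lit 319037508) (.ev (nat_lit 116) (nat_lit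
 671088640) (.nd (nat_lit 640) (.br (nat_lit 5) (.br (nat_lit 1) (.ch (nat_lit 0) (.ev (nat_lit 656) (nat_lit
 75497474) (.ev (nat_lit 669) (nat_lit 256) .dd))) (.br (nat_lit 2) (.ch (nat_lit 1) (.ev (nat_lit 656)
 (nat_lit 67108866) (.ev (nat_lit 836) (nat_lit 256) (.ev (nat_lit 845) (nat_lit 8388608) .dd)))) (.ch (nat_lit
 2) (.ev (nat_lit 656) (nat_lit 75497728) (.ev (nat_lit 669) (nat_lit 2) .dd))))) (.br (nat_lit 6) (.ch
 (nat_lit 5) (.ev (nat_lit 656) (nat_lit 258) (.ev (nat_lit 692) (nat_lit 67108864) (.ev (nat_lit 701) (nat_lit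
 8388608) .dd)))) (.br (nat_lit 12) (.ch (nat_lit 6) (.ev (nat_lit 656) (nat_lit 8388866) (.ev (nat_lit 669)
 (nat_lit 67108864) .dd))) (.ch (nat_lit 12) (.ev (nat_lit 656) (nat_lit 8388610) (.ev (nat_lit 772) (nat_lit
 256) (.ev (nat_lit 781) (nat_lit 67108864) .dd)))))))))))))))) (.br (nat_lit 54) (.br (nat_lit 47) (.br
 (nat_lit 43) (.br (nat_lit 42) (.ch (nat_lit 39) (.ev (nat_lit 52) (nat_lit 310386754) (.ev (nat_lit 84)
 (nat_lit 134217728) (.ev (nat_lit 116) (nat_lit 256) (.ev (nat_lit 148) (nat_lit 67108864) (.nd (nat_lit 640)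
 (.br (nat_lit 5) (.br (nat_lit 2) (.ch (nat_lit 0) (.ev (nat_lit 656) (nat_lit 17039364) (.ev (nat_lit 669)
 (nat_lit 536870912) .dd))) (.br (nat_lit 4) (.ch (nat_lit 2) (.ev (nat_lit 656) (nat_lit 262144) (.ev (nat_lit
 772) (nat_lit 536870912) (.ev (nat_lit 784) (nat_lit 4) (.ev (nat_lit 797) (nat_lit 16777216) .dd))))) (.ch
 (nat_lit 4) (.ev (nat_lit 656) (nat_lit 17039360) (.ev (nat_lit 752) (nat_lit 4) (.ev (nat_lit 765) (nat_lit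
 536870912) .dd)))))) (.br (nat_lit 10) (.br (nat_lit 6) (.ch (nat_lit 5) (.ev (nat_lit 656) (nat_lit
 536870916) (.ev (nat_lit 740) (nat_lit 262144) (.ev (nat_lit 749) (nat_lit 16777216) .dd)))) (.ch (nat_lit 6)
 (.ev (nat_lit 656) (nat_lit 553648128) (.ev (nat_lit 784) (nat_lit 262144) (.ev (nat_lit 797) (nat_lit 4)
 .dd))))) (.br (nat_lit 12) (.ch (nat_lit 10) (.ev (nat_lit 656) (nat_lit 537133060) (.ev (nat_lit 669)
 (nat_lit 16777216) .dd))) (.ch (nat_lit 12) (.ev (nat_lit 656) (nat_lit 553648132) (.ev (nat_lit 669) (nat_lit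
 262144) .dd)))))))))))) (.ch (nat_lit 42) (.ev (nat_lit 52) (nat_lit 452993284) (.ev (nat_lit 148) (nat_lit
 262144) (.ev (nat_lit 448) (nat_lit 8388608) (.nd (nat_lit 640) (.br (nat_lit 9) (.br (nat_lit 5) (.ch
 (nat_lit 0) (.ev (nat_lit 656) (nat_lit 603979842) .dd)) (.ch (nat_lit 5) (.ev (nat_lit 656) (nat_lit
 536870914) (.ev (nat_lit 740) (nat_lit 64) (.ev (nat_lit 749) (nat_lit 67108864) .dd))))) (.br (nat_lit 10)
 (.ch (nat_lit 9) (.ev (nat_lit 656) (nat_lit 67108928) (.ev (nat_lit 884) (nat_lit 2) (.ev (nat_lit 893)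
 (nat_lit 536870912) .dd)))) (.br (nat_lit 12) (.ch (nat_lit 10) (.ev (nat_lit 656) (nat_lit 2) (.ev (nat_lit
 704) (nat_lit 67108864) (.ev (nat_lit 836) (nat_lit 536870912) (.ev (nat_lit 845) (nat_lit 64) .dd))))) (.ch
 (nat_lit 12) (.ev (nat_lit 656) (nat_lit 536870976) (.ev (nat_lit 896) (nat_lit 2) (.ev (nat_lit 909) (nat_lit
 67108864) .dd))))))))))))) (.br (nat_lit 44) (.ch (nat_lit 43) (.ev (nat_lit 52) (nat_lit 478158852) (.ev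
 (nat_lit 96) (nat_lit 587465026) .dd))) (.br (nat_lit 46) (.ch (nat_lit 44) (.ev (nat_lit 52) (nat_lit
 343941120) (.ev (nat_lit 84) (nat_lit 16777216) (.ev (nat_lit 116) (nat_lit 536870912) (.ev (nat_lit 148)
 (nat_lit 33554694) (.nd (nat_lit 640) (.br (nat_lit 6) (.br (nat_lit 1) (.ch (nat_lit 0) (.ev (nat_lit 656)
 (nat_lit 262208) (.ev (nat_lit 669) (nat_lit 134217728) .dd))) (.br (nat_lit 2) (.ch (nat_lit 1) (.ev (nat_lit
 656) (nat_lit 262144) (.ev (nat_lit 884) (nat_lit 134217728) (.ev (nat_lit 893) (nat_lit 64) .dd)))) (.ch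
 (nat_lit 2) (.ev (nat_lit 656) (nat_lit 262208) (.ev (nat_lit 669) (nat_lit 134217728) .dd))))) (.br (nat_lit
 10) (.br (nat_lit 9) (.ch (nat_lit 6) (.ev (nat_lit 656) (nat_lit 134217728) (.ev (nat_lit 1044) (nat_lit
 262144) (.ev (nat_lit 1053) (nat_lit 64) .dd)))) (.ch (nat_lit 9) (.ev (nat_lit 656) (nat_lit 134217792) (.ev
 (nat_lit 669) (nat_lit 262144) .dd)))) (.br (nat_lit 12) (.ch (nat_lit 10) (.ev (nat_lit 656) (nat_lit
 134479872) (.ev (nat_lit 669) (nat_lit 64) .dd))) (.ch (nat_lit 12) (.ev (nat_lit 656) (nat_lit 134479936)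
 .dd))))))))))) (.ch (nat_lit 46) (.ev (nat_lit 52) (nat_lit 645931074) (.ev (nat_lit 96) (nat_lit 419692804)
 .dd)))))) (.br (nat_lit 50) (.br (nat_lit 48) (.ch (nat_lit 47) (.ev (nat_lit 52) (nat_lit 67379200) (.ev
 (nat_lit 84) (nat_lit 671088704) (.ev (nat_lit 116) (nat_lit 301989888) (.ev (nat_lit 148) (nat_lit 8388608)
 (.nd (nat_lit 640) (.br (nat_lit 4) (.br (nat_lit 1) (.ch (nat_lit 0) (.ev (nat_lit 656) (nat_lit 16777478)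
 .dd)) (.br (nat_lit 2) (.ch (nat_lit 1) (.ev (nat_lit 656) (nat_lit 6) (.fin (nat_lit 576448107832099316))))
 (.ch (nat_lit 2) (.ev (nat_lit 656) (nat_lit 256) (.ev (nat_lit 692) (nat_lit 2) (.ev (nat_lit 884) (nat_lit
 16777216) (.ev (nat_lit 893) (nat_lit 4) .dd))))))) (.br (nat_lit 10) (.ch (nat_lit 4) (.ev (nat_lit 656)
 (nat_lit 16777478) .dd)) (.br (nat_lit 12) (.ch (nat_lit 10) (.ev (nat_lit 656) (nat_lit 16777472) (.ev
 (nat_lit 672) (nat_lit 4) (.ev (nat_lit 685) (nat_lit 2) .dd)))) (.ch (nat_lit 12) (.ev (nat_lit 656) (nat_lit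
 260) (.ev (nat_lit 692) (nat_lit 16777216) (.ev (nat_lit 701) (nat_lit 2) .dd))))))))))))) (.br (nat_lit 49)
 (.ch (nat_lit 48) (.ev (nat_lit 52) (nat_lit 452984898) (.ev (nat_lit 84) (nat_lit 67108864) (.ev (nat_lit
 128) (nat_lit 545530116) .dd)))) (.ch (nat_lit 49) (.ev (nat_lit 52) (nat_lit 562044930) (.ev (nat_lit 116)
 (nat_lit 33554432) (.nd (nat_lit 640) (.br (nat_lit 6) (.br (nat_lit 4) (.ch (nat_lit 1) (.ev (nat_lit 656)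
 (nat_lit 335806724) (.ev (nat_lit 1076) (nat_lit 134217728) (.ev (nat_lit 1085) (nat_lit 64) .dd)))) (.br
 (nat_lit 5) (.ch (nat_lit 4) (.ev (nat_lit 656) (nat_lit 335806720) (.ev (nat_lit 992) (nat_lit 4) (.ev
 (nat_lit 1076) (nat_lit 134217728) (.ev (nat_lit 1085) (nat_lit 64) .dd))))) (.ch (nat_lit 5) (.ev (nat_lit
 656) (nat_lit 201326912) (.ev (nat_lit 884) (nat_lit 262144) (.ev (nat_lit 1076) (nat_lit 268435456) (.ev
 (nat_lit 1085) (nat_lit 4) .dd))))))) (.br (nat_lit 9) (.ch (nat_lit 6) (.ev (nat_lit 656) (nat_lit 402915648)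
 (.ev (nat_lit 720) (nat_lit 67108868) .dd))) (.br (nat_lit 12) (.ch (nat_lit 9) (.ev (nat_lit 656) (nat_lit
 134218052) (.ev (nat_lit 692) (nat_lit 262144) (.ev (nat_lit 944) (nat_lit 67108864) (.ev (nat_lit 957)
 (nat_lit 268435456) .dd))))) (.ch (nat_lit 12) (.ev (nat_lit 656) (nat_lit 469762116) (.fin (nat_lit
 576382137291719156))))))))))))) (.br (nat_lit 51) (.ch (nat_lit 50) (.ev (nat_lit 52) (nat_lit 570425664) (.ev
 (nat_lit 84) (nat_lit 16785410) (.ev (nat_lit 116) (nat_lit 4) (.ev (nat_lit 308) (nat_lit 268435456) (.nd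
 (nat_lit 640) (.br (nat_lit 5) (.br (nat_lit 2) (.ch (nat_lit 0) (.ev (nat_lit 656) (nat_lit 209977344) .dd))
 (.br (nat_lit 4) (.ch (nat_lit 2) (.ev (nat_lit 656) (nat_lit 67108864) (.ev (nat_lit 672) (nat_lit 262144)
 (.ev (nat_lit 772) (nat_lit 134217728) (.ev (nat_lit 781) (nat_lit 8388608) .dd))))) (.ch (nat_lit 4) (.ev
 (nat_lit 656) (nat_lit 75759616) (.ev (nat_lit 669) (nat_lit 134217728) .dd))))) (.br (nat_lit 10) (.br
 (nat_lit 6) (.ch (nat_lit 5) (.ev (nat_lit 656) (nat_lit 134217728) (.ev (nat_lit 692) (nat_lit 67371008) (.ev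
 (nat_lit 701) (nat_lit 8388608) .dd)))) (.ch (nat_lit 6) (.ev (nat_lit 656) (nat_lit 8650752) (.ev (nat_lit
 980) (nat_lit 67108864) (.ev (nat_lit 989) (nat_lit 134217728) .dd))))) (.br (nat_lit 12) (.ch (nat_lit 10)
 (.ev (nat_lit 656) (nat_lit 201588736) (.ev (nat_lit 669) (nat_lit 8388608) .dd))) (.ch (nat_lit 12) (.ev
 (nat_lit 656) (nat_lit 209715200) (.ev (nat_lit 669) (nat_lit 262144) .dd)))))))))))) (.br (nat_lit 53) (.ch
 (nat_lit 51) (.ev (nat_lit 52) (nat_lit 813965570) (.ev (nat_lit 624) (nat_lit 33554432) (.nd (nat_lit 640)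
 (.br (nat_lit 6) (.br (nat_lit 4) (.ch (nat_lit 2) (.ev (nat_lit 656) (nat_lit 201326592) (.ev (nat_lit 772)
 (nat_lit 16777216) (.ev (nat_lit 1044) (nat_lit 4) (.ev (nat_lit 1053) (nat_lit 64) .dd))))) (.ch (nat_lit 4)
 (.ev (nat_lit 656) (nat_lit 16777216) (.ev (nat_lit 864) (nat_lit 64) (.ev (nat_lit 992) (nat_lit 4) (.ev
 (nat_lit 1076) (nat_lit 134217728) (.ev (nat_lit 1085) (nat_lit 67108864) .dd))))))) (.br (nat_lit 9) (.ch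
 (nat_lit 6) (.ev (nat_lit 656) (nat_lit 218103872) (.ev (nat_lit 669) (nat_lit 4) .dd))) (.br (nat_lit 12)
 (.ch (nat_lit 9) (.ev (nat_lit 656) (nat_lit 68) (.ev (nat_lit 692) (nat_lit 16777216) (.ev (nat_lit 1056)
 (nat_lit 201326592) .dd)))) (.ch (nat_lit 12) (.ev (nat_lit 656) (nat_lit 134217796) (.ev (nat_lit 740)
 (nat_lit 67108864) (.ev (nat_lit 749) (nat_lit 16777216) .dd))))))))))) (.ch (nat_lit 53) (.ev (nat_lit 52)
 (nat_lit 822345990) (.ev (nat_lit 84) (nat_lit 8192) (.nd (nat_lit 640) (.br (nat_lit 9) (.br (nat_lit 2) (.ch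
 (nat_lit 0) (.ev (nat_lit 656) (nat_lit 209715264) (.ev (nat_lit 669) (nat_lit 33554432) .dd))) (.br (nat_lit
 4) (.ch (nat_lit 2) (.ev (nat_lit 656) (nat_lit 243269632) (.ev (nat_lit 669) (nat_lit 64) .dd))) (.ch
 (nat_lit 4) (.ev (nat_lit 656) (nat_lit 134217792) (.ev (nat_lit 772) (nat_lit 67108864) (.ev (nat_lit 980)
 (nat_lit 33554432) (.ev (nat_lit 989) (nat_lit 8388608) .dd))))))) (.br (nat_lit 10) (.ch (nat_lit 9) (.ev
 (nat_lit 656) (nat_lit 41943104) (.ev (nat_lit 928) (nat_lit 134217728) (.ev (nat_lit 941) (nat_lit 67108864)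
 .dd)))) (.br (nat_lit 12) (.ch (nat_lit 10) (.ev (nat_lit 656) (nat_lit 41943104) (.nd (nat_lit 1248) (.ch
 (nat_lit 2) (.nd (nat_lit 1265) (.ch (nat_lit 30) (.nd (nat_lit 1296) (.br (nat_lit 9) (.ch (nat_lit 1) (.ev
 (nat_lit 1312) (nat_lit 201326592) .dd)) (.ch (nat_lit 9) (.fin (nat_lit 576456904017396268))))))))))) (.ch
 (nat_lit 12) (.ev (nat_lit 656) (nat_lit 176160832) (.ev (nat_lit 669) (nat_lit 67108864) .dd))))))))))))))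
 (.br (nat_lit 64) (.br (nat_lit 57) (.br (nat_lit 55) (.ch (nat_lit 54) (.ev (nat_lit 52) (nat_lit 411042112)
 (.ev (nat_lit 84) (nat_lit 50331648) (.ev (nat_lit 148) (nat_lit 67108864) (.nd (nat_lit 640) (.br (nat_lit 4)
 (.br (nat_lit 2) (.ch (nat_lit 1) (.ev (nat_lit 656) (nat_lit 536879110) (.ev (nat_lit 669) (nat_lit 262144)
 .dd))) (.ch (nat_lit 2) (.ev (nat_lit 656) (nat_lit 270338) (.ev (nat_lit 704) (nat_lit 4) (.ev (nat_lit 717)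
 (nat_lit 536870912) .dd))))) (.br (nat_lit 9) (.ch (nat_lit 4) (.ev (nat_lit 656) (nat_lit 270338) (.ev
 (nat_lit 980) (nat_lit 4) (.ev (nat_lit 989) (nat_lit 536870912) .dd)))) (.br (nat_lit 12) (.ch (nat_lit 9)
 (.ev (nat_lit 656) (nat_lit 536870916) (.ev (nat_lit 884) (nat_lit 8192) (.ev (nat_lit 980) (nat_lit 2) (.ev
 (nat_lit 989) (nat_lit 262144) .dd))))) (.ch (nat_lit 12) (.ev (nat_lit 656) (nat_lit 536879108) (.ev (nat_lit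
 784) (nat_lit 262144) (.ev (nat_lit 797) (nat_lit 2) .dd)))))))))))) (.ch (nat_lit 55) (.ev (nat_lit 52)
 (nat_lit 830734338) (.ev (nat_lit 116) (nat_lit 64) (.nd (nat_lit 640) (.br (nat_lit 6) (.br (nat_lit 1) (.ch
 (nat_lit 0) (.ev (nat_lit 656) (nat_lit 201335044) (.ev (nat_lit 669) (nat_lit 33554432) .dd))) (.br (nat_lit
 5) (.ch (nat_lit 1) (.ev (nat_lit 656) (nat_lit 67117316) (.ev (nat_lit 692) (nat_lit 33554432) (.ev (nat_lit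
 701) (nat_lit 134217728) .dd)))) (.ch (nat_lit 5) (.ev (nat_lit 656) (nat_lit 134226180) (.ev (nat_lit 848)
 (nat_lit 33554432) (.ev (nat_lit 861) (nat_lit 67108864) .dd)))))) (.br (nat_lit 9) (.ch (nat_lit 6) (.ev
 (nat_lit 656) (nat_lit 33554692) (.ev (nat_lit 740) (nat_lit 134217728) (.ev (nat_lit 1076) (nat_lit 8192)
 (.ev (nat_lit 1085) (nat_lit 67108864) .dd))))) (.br (nat_lit 10) (.ch (nat_lit 9) (.ev (nat_lit 656) (nat_lit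
 134217728) (.ev (nat_lit 692) (nat_lit 256) (.ev (nat_lit 772) (nat_lit 67108864) (.ev (nat_lit 784) (nat_lit
 33554432) (.ev (nat_lit 836) (nat_lit 8192) (.ev (nat_lit 845) (nat_lit 4) .dd))))))) (.ch (nat_lit 10) (.ev
 (nat_lit 656) (nat_lit 100663552) (.ev (nat_lit 980) (nat_lit 4) (.ev (nat_lit 992) (nat_lit 8192) (.ev
 (nat_lit 1005) (nat_lit 134217728) .dd))))))))))))) (.br (nat_lit 58) (.ch (nat_lit 57) (.ev (nat_lit 52)
 (nat_lit 688128066) (.ev (nat_lit 84) (nat_lit 100671748) (.nd (nat_lit 640) (.br (nat_lit 6) (.br (nat_lit 5)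
 (.ch (nat_lit 1) (.ev (nat_lit 704) (nat_lit 8388608) (.ev (nat_lit 717) (nat_lit 268435456) .dd))) (.ch
 (nat_lit 5) (.ev (nat_lit 656) (nat_lit 268435456) (.ev (nat_lit 669) (nat_lit 8388608) .dd)))) (.br (nat_lit
 10) (.ch (nat_lit 6) (.ev (nat_lit 656) (nat_lit 8388608) (.ev (nat_lit 669) (nat_lit 268435456) .dd))) (.br
 (nat_lit 12) (.ch (nat_lit 10) (.ev (nat_lit 692) (nat_lit 8388608) (.ev (nat_lit 701) (nat_lit 268435456)
 .dd))) (.ch (nat_lit 12) (.ev (nat_lit 656) (nat_lit 276824064) .dd))))))))) (.br (nat_lit 62) (.ch (nat_lit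
 58) (.ev (nat_lit 52) (nat_lit 92282950) (.ev (nat_lit 84) (nat_lit 256) (.nd (nat_lit 640) (.br (nat_lit 4)
 (.br (nat_lit 1) (.ch (nat_lit 0) (.ev (nat_lit 656) (nat_lit 805568512) (.ev (nat_lit 672) (nat_lit
 134217728) (.ev (nat_lit 685) (nat_lit 33554432) .dd)))) (.br (nat_lit 2) (.ch (nat_lit 1) (.ev (nat_lit 656)
 (nat_lit 671088640) (.ev (nat_lit 692) (nat_lit 33554432) (.ev (nat_lit 1044) (nat_lit 262144) (.ev (nat_lit
 1053) (nat_lit 268435456) .dd))))) (.ch (nat_lit 2) (.ev (nat_lit 656) (nat_lit 33816576) (.ev (nat_lit 672)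
 (nat_lit 134217728) (.ev (nat_lit 1044) (nat_lit 268435456) (.ev (nat_lit 1053) (nat_lit 536870912) .dd)))))))
 (.br (nat_lit 5) (.ch (nat_lit 4) (.ev (nat_lit 656) (nat_lit 402915328) (.ev (nat_lit 784) (nat_lit 33554432)
 (.ev (nat_lit 797) (nat_lit 536870912) .dd)))) (.br (nat_lit 9) (.ch (nat_lit 5) (.ev (nat_lit 656) (nat_lit
 973340672) .dd)) (.ch (nat_lit 9) (.ev (nat_lit 656) (nat_lit 402915328) (.ev (nat_lit 1044) (nat_lit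
 536870912) (.ev (nat_lit 1053) (nat_lit 33554432) .dd))))))))))) (.ch (nat_lit 62) (.ev (nat_lit 52) (nat_lit
 134480194) (.ev (nat_lit 148) (nat_lit 536870912) (.nd (nat_lit 640) (.br (nat_lit 6) (.br (nat_lit 2) (.ch
 (nat_lit 1) (.ev (nat_lit 656) (nat_lit 109051908) (.ev (nat_lit 864) (nat_lit 16777216) (.ev (nat_lit 980)
 (nat_lit 8192) (.ev (nat_lit 989) (nat_lit 268435456) .dd))))) (.br (nat_lit 5) (.ch (nat_lit 2) (.ev (nat_lit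
 656) (nat_lit 385875972) (.ev (nat_lit 800) (nat_lit 8396800) .dd))) (.ch (nat_lit 5) (.ev (nat_lit 656)
 (nat_lit 25174020) (.ev (nat_lit 772) (nat_lit 268435456) (.ev (nat_lit 884) (nat_lit 33554432) (.ev (nat_lit
 893) (nat_lit 67108864) .dd))))))) (.br (nat_lit 9) (.ch (nat_lit 6) (.ev (nat_lit 656) (nat_lit 117448704)
 (.ev (nat_lit 692) (nat_lit 268435456) (.ev (nat_lit 980) (nat_lit 4) (.ev (nat_lit 989) (nat_lit 8388608)
 .dd))))) (.br (nat_lit 10) (.ch (nat_lit 9) (.ev (nat_lit 656) (nat_lit 125837312) (.ev (nat_lit 752) (nat_lit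
 4) (.ev (nat_lit 765) (nat_lit 268435456) .dd)))) (.ch (nat_lit 10) (.ev (nat_lit 656) (nat_lit 301998080)
 (.ev (nat_lit 772) (nat_lit 4) (.ev (nat_lit 816) (nat_lit 67108864) (.nd (nat_lit 1216) (.br (nat_lit 8) (.ch
 (nat_lit 2) (.ev (nat_lit 1232) (nat_lit 16777216) (.ev (nat_lit 1245) (nat_lit 8388608) .dd))) (.ch (nat_lit
 8) (.fin (nat_lit 576514078561223336))))))))))))))))))) (.br (nat_lit 68) (.br (nat_lit 65) (.ch (nat_lit 64)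
 (.ev (nat_lit 52) (nat_lit 763363648) (.ev (nat_lit 84) (nat_lit 268435456) (.nd (nat_lit 640) (.br (nat_lit
 5) (.br (nat_lit 2) (.ch (nat_lit 1) (.ev (nat_lit 656) (nat_lit 33824774) .dd)) (.br (nat_lit 4) (.ch
 (nat_lit 2) (.ev (nat_lit 656) (nat_lit 33824768) (.ev (nat_lit 1076) (nat_lit 2) (.ev (nat_lit 1085) (nat_lit
 4) .dd)))) (.ch (nat_lit 4) (.ev (nat_lit 656) (nat_lit 262146) (.ev (nat_lit 692) (nat_lit 8192) (.ev
 (nat_lit 740) (nat_lit 33554432) (.ev (nat_lit 749) (nat_lit 4) .dd))))))) (.br (nat_lit 10) (.ch (nat_lit 5)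
 (.ev (nat_lit 656) (nat_lit 8196) (.ev (nat_lit 896) (nat_lit 262144) (.ev (nat_lit 1044) (nat_lit 33554432)
 (.ev (nat_lit 1053) (nat_lit 2) .dd))))) (.br (nat_lit 12) (.ch (nat_lit 10) (.ev (nat_lit 656) (nat_lit
 33816578) (.ev (nat_lit 884) (nat_lit 4) (.ev (nat_lit 893) (nat_lit 8192) .dd)))) (.ch (nat_lit 12) (.ev
 (nat_lit 656) (nat_lit 33824774) .dd))))))))) (.br (nat_lit 67) (.ch (nat_lit 65) (.ev (nat_lit 52) (nat_lit
 553918722) (.ev (nat_lit 96) (nat_lit 511705156) .dd))) (.ch (nat_lit 67) (.ev (nat_lit 52) (nat_lit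
 872415236) (.ev (nat_lit 84) (nat_lit 151003138) (.nd (nat_lit 640) (.br (nat_lit 5) (.br (nat_lit 2) (.ch
 (nat_lit 0) (.ev (nat_lit 656) (nat_lit 42205248) (.ev (nat_lit 669) (nat_lit 256) .dd))) (.br (nat_lit 4)
 (.ch (nat_lit 2) (.ev (nat_lit 656) (nat_lit 33816832) (.ev (nat_lit 980) (nat_lit 8388608) (.ev (nat_lit 989)
 (nat_lit 64) .dd)))) (.ch (nat_lit 4) (.ev (nat_lit 656) (nat_lit 8651008) (.ev (nat_lit 1174) (nat_lit
 33554496) .dd))))) (.br (nat_lit 6) (.ch (nat_lit 5) (.ev (nat_lit 656) (nat_lit 33554752) (.fin (nat_lit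
 576474496205537852)))) (.br (nat_lit 9) (.ch (nat_lit 6) (.ev (nat_lit 656) (nat_lit 33554752) (.ev (nat_lit
 884) (nat_lit 8388608) (.ev (nat_lit 893) (nat_lit 262144) .dd)))) (.ch (nat_lit 9) (.ev (nat_lit 656)
 (nat_lit 8388928) (.ev (nat_lit 848) (nat_lit 33554432) (.ev (nat_lit 861) (nat_lit 262144) .dd)))))))))))))
 (.br (nat_lit 69) (.ch (nat_lit 68) (.ev (nat_lit 52) (nat_lit 436477958) (.ev (nat_lit 84) (nat_lit 64) (.ev
 (nat_lit 116) (nat_lit 8388608) (.nd (nat_lit 640) (.br (nat_lit 4) (.br (nat_lit 1) (.ch (nat_lit 0) (.ev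
 (nat_lit 656) (nat_lit 83886080) (.ev (nat_lit 704) (nat_lit 256) (.ev (nat_lit 717) (nat_lit 536870912)
 .dd)))) (.ch (nat_lit 1) (.ev (nat_lit 656) (nat_lit 67108864) (.ev (nat_lit 1044) (nat_lit 536870912) (.nd
 (nat_lit 1216) (.br (nat_lit 6) (.ch (nat_lit 1) (.ev (nat_lit 1232) (nat_lit 16777472) .dd)) (.ch (nat_lit 6)
 (.fin (nat_lit 576474496289424012))))))))) (.br (nat_lit 10) (.ch (nat_lit 4) (.ev (nat_lit 656) (nat_lit
 553648128) (.ev (nat_lit 992) (nat_lit 67109120) .dd))) (.br (nat_lit 12) (.ch (nat_lit 10) (.ev (nat_lit 656)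
 (nat_lit 256) (.ev (nat_lit 692) (nat_lit 67108864) (.ev (nat_lit 836) (nat_lit 536870912) (.ev (nat_lit 845)
 (nat_lit 16777216) .dd))))) (.ch (nat_lit 12) (.ev (nat_lit 656) (nat_lit 620757248) .dd)))))))))) (.br
 (nat_lit 70) (.ch (nat_lit 69) (.ev (nat_lit 52) (nat_lit 621019396) (.ev (nat_lit 84) (nat_lit 134217728)
 (.ev (nat_lit 128) (nat_lit 310386754) .dd)))) (.ch (nat_lit 70) (.ev (nat_lit 52) (nat_lit 872415552) (.ev
 (nat_lit 116) (nat_lit 150994946) (.ev (nat_lit 180) (nat_lit 8192) (.nd (nat_lit 640) (.br (nat_lit 2) (.br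
 (nat_lit 1) (.ch (nat_lit 0) (.ev (nat_lit 656) (nat_lit 42205188) .dd)) (.ch (nat_lit 1) (.ev (nat_lit 656)
 (nat_lit 8650756) (.ev (nat_lit 669) (nat_lit 33554432) .dd)))) (.br (nat_lit 5) (.ch (nat_lit 2) (.ev
 (nat_lit 656) (nat_lit 33554436) (.ev (nat_lit 772) (nat_lit 8388608) (.ev (nat_lit 781) (nat_lit 262144)
 .dd)))) (.br (nat_lit 9) (.ch (nat_lit 5) (.ev (nat_lit 692) (nat_lit 8388608) (.ev (nat_lit 740) (nat_lit
 262144) (.ev (nat_lit 1044) (nat_lit 4) (.ev (nat_lit 1053) (nat_lit 33554432) .dd))))) (.ch (nat_lit 9) (.ev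
 (nat_lit 656) (nat_lit 42205184) (.ev (nat_lit 669) (nat_lit 4) .dd)))))))))))))))))))

/-- Subtrie. -/
noncomputable def T4 : Tr := (.ev (nat_lit 20) (nat_lit 503619666) (.nd (nat_lit 33) (.br (nat_lit 39) (.br
 (nat_lit 19) (.br (nat_lit 8) (.br (nat_lit 4) (.br (nat_lit 3) (.ch (nat_lit 1) (.ev (nat_lit 52) (nat_lit
 18350340) (.ev (nat_lit 84) (nat_lit 6291456) (.ev (nat_lit 180) (nat_lit 16384) (.nd (nat_lit 640) (.br
 (nat_lit 7) (.br (nat_lit 1) (.ch (nat_lit 0) (.ev (nat_lit 656) (nat_lit 545259520) .dd)) (.br (nat_lit 2)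
 (.ch (nat_lit 1) (.ev (nat_lit 656) (nat_lit 536870912) (.ev (nat_lit 669) (nat_lit 8388608) .dd))) (.ch
 (nat_lit 2) (.ev (nat_lit 740) (nat_lit 8388608) (.ev (nat_lit 749) (nat_lit 536870912) .dd))))) (.br (nat_lit
 8) (.ch (nat_lit 7) (.ev (nat_lit 656) (nat_lit 545259520) .dd)) (.br (nat_lit 11) (.ch (nat_lit 8) (.ev
 (nat_lit 656) (nat_lit 536870912) (.ev (nat_lit 669) (nat_lit 8388608) .dd))) (.ch (nat_lit 11) (.ev (nat_lit
 656) (nat_lit 8388608) (.ev (nat_lit 669) (nat_lit 536870912) .dd))))))))))) (.ch (nat_lit 3) (.ev (nat_lit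
 52) (nat_lit 567279616) (.ev (nat_lit 116) (nat_lit 2097152) (.nd (nat_lit 640) (.br (nat_lit 7) (.br (nat_lit
 1) (.ch (nat_lit 0) (.ev (nat_lit 656) (nat_lit 540932) .dd)) (.br (nat_lit 3) (.ch (nat_lit 1) (.ev (nat_lit
 656) (nat_lit 540928) (.ev (nat_lit 669) (nat_lit 4) .dd))) (.ch (nat_lit 3) (.ev (nat_lit 656) (nat_lit
 524548) (.ev (nat_lit 669) (nat_lit 16384) .dd))))) (.br (nat_lit 9) (.br (nat_lit 8) (.ch (nat_lit 7) (.ev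
 (nat_lit 656) (nat_lit 16384) (.ev (nat_lit 692) (nat_lit 524544) (.ev (nat_lit 701) (nat_lit 4) .dd)))) (.ch
 (nat_lit 8) (.ev (nat_lit 656) (nat_lit 256) (.ev (nat_lit 672) (nat_lit 524288) (.ev (nat_lit 772) (nat_lit
 16384) (.ev (nat_lit 781) (nat_lit 4) .dd)))))) (.br (nat_lit 11) (.ch (nat_lit 9) (.ev (nat_lit 656) (nat_lit
 16644) (.ev (nat_lit 669) (nat_lit 524288) .dd))) (.ch (nat_lit 11) (.ev (nat_lit 656) (nat_lit 524292) (.ev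
 (nat_lit 980) (nat_lit 256) (.ev (nat_lit 989) (nat_lit 16384) .dd)))))))))))) (.br (nat_lit 5) (.ch (nat_lit
 4) (.ev (nat_lit 52) (nat_lit 29884672) (.ev (nat_lit 84) (nat_lit 16384) (.ev (nat_lit 148) (nat_lit 4) (.nd
 (nat_lit 640) (.br (nat_lit 6) (.br (nat_lit 2) (.ch (nat_lit 0) (.ev (nat_lit 656) (nat_lit 538968064) (.ev
 (nat_lit 669) (nat_lit 1048576) .dd))) (.br (nat_lit 3) (.ch (nat_lit 2) (.ev (nat_lit 656) (nat_lit
 536870912) (.fin (nat_lit 576465700116709948)))) (.ch (nat_lit 3) (.ev (nat_lit 656) (nat_lit 538968064) (.ev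
 (nat_lit 669) (nat_lit 1048576) .dd))))) (.br (nat_lit 8) (.ch (nat_lit 6) (.ev (nat_lit 656) (nat_lit
 538968064) (.ev (nat_lit 669) (nat_lit 1048576) .dd))) (.br (nat_lit 9) (.ch (nat_lit 8) (.ev (nat_lit 656)
 (nat_lit 540016640) .dd)) (.ch (nat_lit 9) (.ev (nat_lit 656) (nat_lit 3145728) (.ev (nat_lit 669) (nat_lit
 536870912) .dd))))))))))) (.br (nat_lit 7) (.ch (nat_lit 5) (.ev (nat_lit 52) (nat_lit 18350084) (.ev (nat_lit
 96) (nat_lit 551567616) .dd))) (.ch (nat_lit 7) (.ev (nat_lit 52) (nat_lit 549978116) (.ev (nat_lit 116)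
 (nat_lit 2097152) (.ev (nat_lit 192) (nat_lit 17842432) .dd))))))) (.br (nat_lit 15) (.br (nat_lit 11) (.ch
 (nat_lit 8) (.ev (nat_lit 52) (nat_lit 563085568) (.nd (nat_lit 640) (.br (nat_lit 6) (.br (nat_lit 1) (.ch
 (nat_lit 0) (.ev (nat_lit 656) (nat_lit 2113536) (.ev (nat_lit 692) (nat_lit 524288) (.ev (nat_lit 1044)
 (nat_lit 4194304) (.ev (nat_lit 1053) (nat_lit 4) .dd))))) (.br (nat_lit 3) (.ch (nat_lit 1) (.ev (nat_lit
 656) (nat_lit 16388) (.ev (nat_lit 692) (nat_lit 4194304) (.ev (nat_lit 740) (nat_lit 524288) (.ev (nat_lit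
 749) (nat_lit 2097152) .dd))))) (.ch (nat_lit 3) (.ev (nat_lit 656) (nat_lit 6832132) .dd)))) (.br (nat_lit 9)
 (.ch (nat_lit 6) (.ev (nat_lit 656) (nat_lit 524288) (.ev (nat_lit 692) (nat_lit 6291456) (.ev (nat_lit 980)
 (nat_lit 4) (.ev (nat_lit 989) (nat_lit 16384) .dd))))) (.br (nat_lit 11) (.ch (nat_lit 9) (.ev (nat_lit 656)
 (nat_lit 6307844) (.ev (nat_lit 669) (nat_lit 524288) .dd))) (.ch (nat_lit 11) (.ev (nat_lit 656) (nat_lit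
 6815748) (.ev (nat_lit 669) (nat_lit 16384) .dd))))))))) (.br (nat_lit 12) (.ch (nat_lit 11) (.ev (nat_lit 52)
 (nat_lit 30408704) (.ev (nat_lit 128) (nat_lit 539508996) .dd))) (.ch (nat_lit 12) (.ev (nat_lit 52) (nat_lit
 16777476) (.ev (nat_lit 84) (nat_lit 8404992) (.ev (nat_lit 116) (nat_lit 536870912) (.ev (nat_lit 180)
 (nat_lit 524288) (.nd (nat_lit 640) (.br (nat_lit 3) (.br (nat_lit 1) (.ch (nat_lit 0) (.ev (nat_lit 656)
 (nat_lit 6291456) (.ev (nat_lit 669) (nat_lit 1048576) .dd))) (.br (nat_lit 2) (.ch (nat_lit 1) (.ev (nat_lit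
 656) (nat_lit 3145728) (.ev (nat_lit 669) (nat_lit 4194304) .dd))) (.ch (nat_lit 2) (.ev (nat_lit 656)
 (nat_lit 4194304) (.fin (nat_lit 576465700116709948)))))) (.br (nat_lit 6) (.ch (nat_lit 3) (.ev (nat_lit 656)
 (nat_lit 7340032) .dd)) (.br (nat_lit 7) (.ch (nat_lit 6) (.ev (nat_lit 656) (nat_lit 6291456) (.ev (nat_lit
 669) (nat_lit 1048576) .dd))) (.ch (nat_lit 7) (.ev (nat_lit 656) (nat_lit 6291456) (.ev (nat_lit 669)
 (nat_lit 1048576) .dd)))))))))))))) (.br (nat_lit 16) (.ch (nat_lit 15) (.ev (nat_lit 52) (nat_lit 541065476)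
 (.ev (nat_lit 84) (nat_lit 16777216) (.ev (nat_lit 116) (nat_lit 8388608) (.ev (nat_lit 224) (nat_lit 3686400)
 .dd))))) (.br (nat_lit 18) (.ch (nat_lit 16) (.ev (nat_lit 52) (nat_lit 554189056) (.ev (nat_lit 84) (nat_lit
 8388608) (.ev (nat_lit 116) (nat_lit 2097152) (.nd (nat_lit 640) (.br (nat_lit 7) (.br (nat_lit 2) (.ch
 (nat_lit 1) (.ev (nat_lit 656) (nat_lit 1048580) (.ev (nat_lit 669) (nat_lit 4194304) .dd))) (.ch (nat_lit 2)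
 (.ev (nat_lit 656) (nat_lit 1048576) (.ev (nat_lit 1024) (nat_lit 4194304) (.ev (nat_lit 1037) (nat_lit 4)
 .dd))))) (.br (nat_lit 8) (.ch (nat_lit 7) (.ev (nat_lit 656) (nat_lit 4194304) (.ev (nat_lit 992) (nat_lit
 1048576) (.ev (nat_lit 1005) (nat_lit 4) .dd)))) (.br (nat_lit 9) (.ch (nat_lit 8) (.ev (nat_lit 656) (nat_lit
 5242884) .dd)) (.ch (nat_lit 9) (.ev (nat_lit 656) (nat_lit 1048580) (.ev (nat_lit 669) (nat_lit 4194304)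
 .dd))))))))))) (.ch (nat_lit 18) (.ev (nat_lit 52) (nat_lit 13107460) (.ev (nat_lit 116) (nat_lit 16384) (.ev
 (nat_lit 224) (nat_lit 556793856) .dd)))))))) (.br (nat_lit 29) (.br (nat_lit 23) (.br (nat_lit 22) (.ch
 (nat_lit 19) (.ev (nat_lit 52) (nat_lit 18874372) (.ev (nat_lit 116) (nat_lit 5242880) (.ev (nat_lit 212)
 (nat_lit 537395200) (.nd (nat_lit 640) (.br (nat_lit 6) (.br (nat_lit 1) (.ch (nat_lit 0) (.ev (nat_lit 656)
 (nat_lit 8404992) (.ev (nat_lit 669) (nat_lit 256) .dd))) (.br (nat_lit 2) (.ch (nat_lit 1) (.ev (nat_lit 656)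
 (nat_lit 8405248) .dd)) (.ch (nat_lit 2) (.ev (nat_lit 656) (nat_lit 16384) (.ev (nat_lit 884) (nat_lit
 8388608) (.ev (nat_lit 893) (nat_lit 256) .dd)))))) (.br (nat_lit 9) (.br (nat_lit 8) (.ch (nat_lit 6) (.ev
 (nat_lit 656) (nat_lit 8388864) (.ev (nat_lit 669) (nat_lit 16384) .dd))) (.ch (nat_lit 8) (.ev (nat_lit 656)
 (nat_lit 16640) (.ev (nat_lit 669) (nat_lit 8388608) .dd)))) (.br (nat_lit 11) (.ch (nat_lit 9) (.ev (nat_lit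
 656) (nat_lit 16640) (.ev (nat_lit 669) (nat_lit 8388608) .dd))) (.ch (nat_lit 11) (.ev (nat_lit 656) (nat_lit
 8388608) (.ev (nat_lit 1044) (nat_lit 16384) (.ev (nat_lit 1053) (nat_lit 256) .dd)))))))))))) (.ch (nat_lit
 22) (.ev (nat_lit 52) (nat_lit 13647872) (.ev (nat_lit 116) (nat_lit 2097152) (.ev (nat_lit 212) (nat_lit
 536870912) (.nd (nat_lit 640) (.br (nat_lit 2) (.br (nat_lit 1) (.ch (nat_lit 0) (.ev (nat_lit 656) (nat_lit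
 17301764) .dd)) (.ch (nat_lit 1) (.ev (nat_lit 656) (nat_lit 16777476) (.ev (nat_lit 669) (nat_lit 524288)
 .dd)))) (.br (nat_lit 3) (.ch (nat_lit 2) (.ev (nat_lit 692) (nat_lit 256) (.ev (nat_lit 740) (nat_lit 4) (.ev
 (nat_lit 1044) (nat_lit 524288) (.ev (nat_lit 1053) (nat_lit 16777216) .dd))))) (.br (nat_lit 6) (.ch (nat_lit
 3) (.ev (nat_lit 656) (nat_lit 524548) (.ev (nat_lit 669) (nat_lit 16777216) .dd))) (.ch (nat_lit 6) (.ev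
 (nat_lit 656) (nat_lit 17301504) (.ev (nat_lit 772) (nat_lit 256) (.ev (nat_lit 781) (nat_lit 4)
 .dd))))))))))))) (.br (nat_lit 24) (.ch (nat_lit 23) (.ev (nat_lit 52) (nat_lit 537395200) (.ev (nat_lit 64)
 (nat_lit 32522500) .dd))) (.br (nat_lit 26) (.ch (nat_lit 24) (.ev (nat_lit 52) (nat_lit 4194560) (.ev
 (nat_lit 84) (nat_lit 2097152) (.ev (nat_lit 96) (nat_lit 563625988) .dd)))) (.ch (nat_lit 26) (.ev (nat_lit
 52) (nat_lit 539492356) (.ev (nat_lit 84) (nat_lit 1048576) (.ev (nat_lit 148) (nat_lit 16777216) (.nd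
 (nat_lit 640) (.br (nat_lit 6) (.br (nat_lit 2) (.ch (nat_lit 1) (.ev (nat_lit 656) (nat_lit 12599552) .dd))
 (.br (nat_lit 3) (.ch (nat_lit 2) (.ev (nat_lit 656) (nat_lit 16384) (.ev (nat_lit 692) (nat_lit 4194304) (.ev
 (nat_lit 884) (nat_lit 8388608) (.ev (nat_lit 893) (nat_lit 256) .dd))))) (.ch (nat_lit 3) (.ev (nat_lit 656)
 (nat_lit 12599552) .dd)))) (.br (nat_lit 7) (.ch (nat_lit 6) (.ev (nat_lit 656) (nat_lit 8404992) (.ev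
 (nat_lit 672) (nat_lit 256) (.ev (nat_lit 685) (nat_lit 4194304) .dd)))) (.br (nat_lit 8) (.ch (nat_lit 7)
 (.ev (nat_lit 656) (nat_lit 16640) (.ev (nat_lit 692) (nat_lit 8388608) (.ev (nat_lit 701) (nat_lit 4194304)
 .dd)))) (.ch (nat_lit 8) (.ev (nat_lit 656) (nat_lit 4194560) (.fin (nat_lit 576408525602243092)))))))))))))))
 (.br (nat_lit 34) (.br (nat_lit 31) (.ch (nat_lit 29) (.ev (nat_lit 52) (nat_lit 15204352) (.ev (nat_lit 84)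
 (nat_lit 16384) (.ev (nat_lit 576) (nat_lit 1048576) (.nd (nat_lit 640) (.br (nat_lit 8) (.br (nat_lit 6) (.ch
 (nat_lit 0) (.ev (nat_lit 656) (nat_lit 553648128) (.ev (nat_lit 740) (nat_lit 256) (.ev (nat_lit 749)
 (nat_lit 4) .dd)))) (.br (nat_lit 7) (.ch (nat_lit 6) (.ev (nat_lit 656) (nat_lit 553648128) (.ev (nat_lit
 772) (nat_lit 4) (.ev (nat_lit 781) (nat_lit 256) .dd)))) (.ch (nat_lit 7) (.ev (nat_lit 656) (nat_lit 256)
 (.ev (nat_lit 928) (nat_lit 16777216) (.ev (nat_lit 1044) (nat_lit 4) (.ev (nat_lit 1053) (nat_lit 536870912)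
 .dd))))))) (.br (nat_lit 9) (.ch (nat_lit 8) (.ev (nat_lit 656) (nat_lit 553648384) (.ev (nat_lit 669)
 (nat_lit 4) .dd))) (.br (nat_lit 11) (.ch (nat_lit 9) (.ev (nat_lit 656) (nat_lit 16777476) (.ev (nat_lit 669)
 (nat_lit 536870912) .dd))) (.ch (nat_lit 11) (.ev (nat_lit 656) (nat_lit 16777220) (.ev (nat_lit 980) (nat_lit
 536870912) (.ev (nat_lit 989) (nat_lit 256) .dd)))))))))))) (.br (nat_lit 33) (.ch (nat_lit 31) (.ev (nat_lit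
 52) (nat_lit 11026436) (.ev (nat_lit 116) (nat_lit 1048576) (.ev (nat_lit 192) (nat_lit 557842688) .dd))))
 (.ch (nat_lit 33) (.ev (nat_lit 52) (nat_lit 19923204) (.ev (nat_lit 160) (nat_lit 549994496) .dd))))) (.br
 (nat_lit 36) (.ch (nat_lit 34) (.ev (nat_lit 52) (nat_lit 14172164) (.ev (nat_lit 84) (nat_lit 16777216) (.ev
 (nat_lit 116) (nat_lit 2097152) (.ev (nat_lit 372) (nat_lit 256) (.ev (nat_lit 381) (nat_lit 536870912)
 .dd)))))) (.br (nat_lit 38) (.ch (nat_lit 36) (.ev (nat_lit 52) (nat_lit 4718596) (.ev (nat_lit 148) (nat_lit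
 256) (.ev (nat_lit 180) (nat_lit 536870912) (.nd (nat_lit 640) (.br (nat_lit 7) (.br (nat_lit 1) (.ch (nat_lit
 0) (.ev (nat_lit 656) (nat_lit 27279360) (.ev (nat_lit 669) (nat_lit 1048576) .dd))) (.br (nat_lit 6) (.ch
 (nat_lit 1) (.ev (nat_lit 656) (nat_lit 17842176) (.ev (nat_lit 800) (nat_lit 10485760) .dd))) (.ch (nat_lit
 6) (.ev (nat_lit 656) (nat_lit 9453568) (.ev (nat_lit 692) (nat_lit 2097152) (.ev (nat_lit 701) (nat_lit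
 16777216) .dd)))))) (.br (nat_lit 8) (.ch (nat_lit 7) (.ev (nat_lit 656) (nat_lit 2097152) (.ev (nat_lit 772)
 (nat_lit 16384) (.ev (nat_lit 1088) (nat_lit 1048576) (.fin (nat_lit 576514078561223336)))))) (.br (nat_lit
 11) (.ch (nat_lit 8) (.ev (nat_lit 656) (nat_lit 19922944) (.nd (nat_lit 1248) (.ch (nat_lit 10) (.nd (nat_lit
 1265) (.ch (nat_lit 1) (.nd (nat_lit 1296) (.br (nat_lit 12) (.ch (nat_lit 3) (.ev (nat_lit 1312) (nat_lit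
 8404992) .dd)) (.ch (nat_lit 12) (.fin (nat_lit 576408525602243092))))))))))) (.ch (nat_lit 11) (.ev (nat_lit
 656) (nat_lit 26214400) (.ev (nat_lit 752) (nat_lit 16384) (.ev (nat_lit 765) (nat_lit 2097152)
 .dd)))))))))))) (.ch (nat_lit 38) (.ev (nat_lit 52) (nat_lit 19398660) (.ev (nat_lit 116) (nat_lit 16384) (.ev
 (nat_lit 212) (nat_lit 256) (.nd (nat_lit 640) (.br (nat_lit 7) (.br (nat_lit 6) (.ch (nat_lit 3) (.ev
 (nat_lit 656) (nat_lit 5242880) (.ev (nat_lit 772) (nat_lit 536870912) (.ev (nat_lit 781) (nat_lit 8388608)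
 .dd)))) (.ch (nat_lit 6) (.ev (nat_lit 656) (nat_lit 549453824) (.ev (nat_lit 669) (nat_lit 1048576) .dd))))
 (.br (nat_lit 8) (.ch (nat_lit 7) (.ev (nat_lit 692) (nat_lit 536870912) (.ev (nat_lit 740) (nat_lit 8388608)
 (.ev (nat_lit 1044) (nat_lit 4194304) (.ev (nat_lit 1053) (nat_lit 1048576) .dd))))) (.br (nat_lit 9) (.ch
 (nat_lit 8) (.ev (nat_lit 656) (nat_lit 546308096) (.ev (nat_lit 669) (nat_lit 4194304) .dd))) (.ch (nat_lit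
 9) (.ev (nat_lit 656) (nat_lit 550502400) .dd))))))))))))))) (.br (nat_lit 54) (.br (nat_lit 47) (.br (nat_lit
 43) (.br (nat_lit 42) (.ch (nat_lit 39) (.ev (nat_lit 52) (nat_lit 13107200) (.ev (nat_lit 148) (nat_lit
 536870912) (.ev (nat_lit 180) (nat_lit 256) (.nd (nat_lit 640) (.br (nat_lit 8) (.br (nat_lit 2) (.ch (nat_lit
 1) (.ev (nat_lit 656) (nat_lit 17842176) (.nd (nat_lit 1248) (.ch (nat_lit 0) (.nd (nat_lit 1265) (.ch
 (nat_lit 61) (.nd (nat_lit 1296) (.br (nat_lit 5) (.ch (nat_lit 1) (.ev (nat_lit 1312) (nat_lit 2097156) .dd))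
 (.ch (nat_lit 5) (.fin (nat_lit 576408525403013692))))))))))) (.br (nat_lit 3) (.ch (nat_lit 2) (.ev (nat_lit
 656) (nat_lit 16384) (.ev (nat_lit 772) (nat_lit 2097152) (.ev (nat_lit 1088) (nat_lit 16777216) (.fin
 (nat_lit 576514078676566536)))))) (.ch (nat_lit 3) (.ev (nat_lit 656) (nat_lit 18874372) (.ev (nat_lit 692)
 (nat_lit 16384) (.ev (nat_lit 701) (nat_lit 1048576) .dd)))))) (.br (nat_lit 9) (.ch (nat_lit 8) (.ev (nat_lit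
 656) (nat_lit 19922944) (.ev (nat_lit 800) (nat_lit 16388) .dd))) (.br (nat_lit 11) (.ch (nat_lit 9) (.ev
 (nat_lit 656) (nat_lit 3162116) (.ev (nat_lit 669) (nat_lit 16777216) .dd))) (.ch (nat_lit 11) (.ev (nat_lit
 656) (nat_lit 17825796) (.ev (nat_lit 752) (nat_lit 2097152) (.ev (nat_lit 765) (nat_lit 16384)
 .dd)))))))))))) (.ch (nat_lit 42) (.ev (nat_lit 52) (nat_lit 18350340) (.ev (nat_lit 116) (nat_lit 16384) (.nd
 (nat_lit 640) (.br (nat_lit 6) (.br (nat_lit 1) (.ch (nat_lit 0) (.ev (nat_lit 656) (nat_lit 547356672) (.ev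
 (nat_lit 669) (nat_lit 4194304) .dd))) (.br (nat_lit 2) (.ch (nat_lit 1) (.ev (nat_lit 656) (nat_lit
 536870912) (.ev (nat_lit 672) (nat_lit 4194304) (.ev (nat_lit 772) (nat_lit 2097152) (.ev (nat_lit 781)
 (nat_lit 8388608) .dd))))) (.ch (nat_lit 2) (.ev (nat_lit 656) (nat_lit 2097152) (.ev (nat_lit 692) (nat_lit
 541065216) (.ev (nat_lit 701) (nat_lit 8388608) .dd)))))) (.br (nat_lit 9) (.br (nat_lit 8) (.ch (nat_lit 6)
 (.ev (nat_lit 656) (nat_lit 549453824) (.ev (nat_lit 669) (nat_lit 2097152) .dd))) (.ch (nat_lit 8) (.ev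
 (nat_lit 656) (nat_lit 543162368) (.ev (nat_lit 669) (nat_lit 8388608) .dd)))) (.br (nat_lit 11) (.ch (nat_lit
 9) (.ev (nat_lit 656) (nat_lit 551550976) .dd)) (.ch (nat_lit 11) (.ev (nat_lit 656) (nat_lit 12582912) (.ev
 (nat_lit 980) (nat_lit 536870912) (.ev (nat_lit 989) (nat_lit 2097152) .dd)))))))))))) (.br (nat_lit 44) (.ch
 (nat_lit 43) (.ev (nat_lit 52) (nat_lit 14696452) (.ev (nat_lit 116) (nat_lit 16777216) (.ev (nat_lit 160)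
 (nat_lit 538444032) .dd)))) (.br (nat_lit 46) (.ch (nat_lit 44) (.ev (nat_lit 52) (nat_lit 9453568) (.ev
 (nat_lit 116) (nat_lit 17301504) (.ev (nat_lit 212) (nat_lit 4194560) (.nd (nat_lit 640) (.br (nat_lit 7) (.br
 (nat_lit 1) (.ch (nat_lit 0) (.ev (nat_lit 656) (nat_lit 538968064) (.ev (nat_lit 669) (nat_lit 4) .dd))) (.br
 (nat_lit 3) (.ch (nat_lit 1) (.ev (nat_lit 656) (nat_lit 538968064) (.ev (nat_lit 669) (nat_lit 4) .dd))) (.ch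
 (nat_lit 3) (.ev (nat_lit 656) (nat_lit 536870916) (.ev (nat_lit 669) (nat_lit 2097152) .dd))))) (.br (nat_lit
 9) (.br (nat_lit 8) (.ch (nat_lit 7) (.ev (nat_lit 656) (nat_lit 2097152) (.ev (nat_lit 884) (nat_lit 4) (.ev
 (nat_lit 893) (nat_lit 536870912) .dd)))) (.ch (nat_lit 8) (.ev (nat_lit 656) (nat_lit 538968068) .dd))) (.br
 (nat_lit 11) (.ch (nat_lit 9) (.ev (nat_lit 656) (nat_lit 2097156) (.ev (nat_lit 669) (nat_lit 536870912)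
 .dd))) (.ch (nat_lit 11) (.ev (nat_lit 656) (nat_lit 4) (.ev (nat_lit 1044) (nat_lit 2097152) (.ev (nat_lit
 1053) (nat_lit 536870912) .dd)))))))))))) (.ch (nat_lit 46) (.ev (nat_lit 52) (nat_lit 546308096) (.ev
 (nat_lit 84) (nat_lit 2097156) (.ev (nat_lit 116) (nat_lit 256) (.ev (nat_lit 180) (nat_lit 4194304) (.nd
 (nat_lit 640) (.br (nat_lit 7) (.br (nat_lit 3) (.ch (nat_lit 2) (.ev (nat_lit 656) (nat_lit 540672) (.ev
 (nat_lit 669) (nat_lit 16777216) .dd))) (.br (nat_lit 6) (.ch (nat_lit 3) (.ev (nat_lit 656) (nat_lit 540672)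
 (.ev (nat_lit 669) (nat_lit 16777216) .dd))) (.ch (nat_lit 6) (.ev (nat_lit 656) (nat_lit 17317888) .dd))))
 (.br (nat_lit 8) (.ch (nat_lit 7) (.ev (nat_lit 656) (nat_lit 524288) (.fin (nat_lit 576465700097835592))))
 (.br (nat_lit 9) (.ch (nat_lit 8) (.ev (nat_lit 656) (nat_lit 16793600) (.ev (nat_lit 669) (nat_lit 524288)
 .dd))) (.ch (nat_lit 9) (.ev (nat_lit 656) (nat_lit 540672) (.ev (nat_lit 669) (nat_lit 16777216)
 .dd))))))))))))))) (.br (nat_lit 50) (.br (nat_lit 48) (.ch (nat_lit 47) (.ev (nat_lit 52) (nat_lit 3162112)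
 (.ev (nat_lit 84) (nat_lit 562036736) (.ev (nat_lit 116) (nat_lit 4) (.ev (nat_lit 180) (nat_lit 256) (.nd
 (nat_lit 640) (.br (nat_lit 7) (.br (nat_lit 1) (.ch (nat_lit 0) (.ev (nat_lit 692) (nat_lit 524288) (.ev
 (nat_lit 701) (nat_lit 4194304) .dd))) (.br (nat_lit 6) (.ch (nat_lit 1) (.ev (nat_lit 656) (nat_lit 4194304)
 (.ev (nat_lit 669) (nat_lit 524288) .dd))) (.ch (nat_lit 6) (.ev (nat_lit 656) (nat_lit 524288) (.ev (nat_lit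
 669) (nat_lit 4194304) .dd))))) (.br (nat_lit 9) (.ch (nat_lit 7) (.ev (nat_lit 692) (nat_lit 4194304) (.ev
 (nat_lit 701) (nat_lit 524288) .dd))) (.br (nat_lit 11) (.ch (nat_lit 9) (.ev (nat_lit 656) (nat_lit 4718592)
 .dd)) (.ch (nat_lit 11) (.ev (nat_lit 656) (nat_lit 4718592) .dd))))))))))) (.br (nat_lit 49) (.ch (nat_lit
 48) (.ev (nat_lit 52) (nat_lit 18890752) (.ev (nat_lit 84) (nat_lit 1048836) (.ev (nat_lit 116) (nat_lit
 8388608) (.ev (nat_lit 180) (nat_lit 536870912) (.nd (nat_lit 640) (.br (nat_lit 8) (.br (nat_lit 2) (.ch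
 (nat_lit 0) (.ev (nat_lit 656) (nat_lit 4718592) .dd)) (.br (nat_lit 3) (.ch (nat_lit 2) (.ev (nat_lit 692)
 (nat_lit 524288) (.ev (nat_lit 701) (nat_lit 4194304) .dd))) (.ch (nat_lit 3) (.ev (nat_lit 656) (nat_lit
 4194304) (.ev (nat_lit 669) (nat_lit 524288) .dd))))) (.br (nat_lit 9) (.ch (nat_lit 8) (.ev (nat_lit 656)
 (nat_lit 524288) (.ev (nat_lit 669) (nat_lit 4194304) .dd))) (.br (nat_lit 11) (.ch (nat_lit 9) (.ev (nat_lit
 692) (nat_lit 4194304) (.ev (nat_lit 701) (nat_lit 524288) .dd))) (.ch (nat_lit 11) (.ev (nat_lit 656)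
 (nat_lit 4718592) .dd))))))))))) (.ch (nat_lit 49) (.ev (nat_lit 52) (nat_lit 563101696) (.ev (nat_lit 160)
 (nat_lit 6816004) .dd))))) (.br (nat_lit 51) (.ch (nat_lit 50) (.ev (nat_lit 52) (nat_lit 544751872) (.ev
 (nat_lit 148) (nat_lit 8388608) (.ev (nat_lit 288) (nat_lit 16777220) .dd)))) (.br (nat_lit 53) (.ch (nat_lit
 51) (.ev (nat_lit 52) (nat_lit 545784064) (.ev (nat_lit 84) (nat_lit 1048576) (.ev (nat_lit 116) (nat_lit 4)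
 (.ev (nat_lit 192) (nat_lit 23085056) .dd))))) (.ch (nat_lit 53) (.ev (nat_lit 52) (nat_lit 556794116) (.ev
 (nat_lit 84) (nat_lit 16384) (.ev (nat_lit 212) (nat_lit 524288) (.nd (nat_lit 640) (.br (nat_lit 2) (.br
 (nat_lit 1) (.ch (nat_lit 0) (.ev (nat_lit 656) (nat_lit 8388608) (.ev (nat_lit 669) (nat_lit 4194304) .dd)))
 (.ch (nat_lit 1) (.ev (nat_lit 704) (nat_lit 4194304) (.ev (nat_lit 717) (nat_lit 8388608) .dd)))) (.br
 (nat_lit 3) (.ch (nat_lit 2) (.ev (nat_lit 692) (nat_lit 4194304) (.ev (nat_lit 701) (nat_lit 8388608) .dd)))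
 (.br (nat_lit 8) (.ch (nat_lit 3) (.ev (nat_lit 656) (nat_lit 4194304) (.ev (nat_lit 669) (nat_lit 8388608)
 .dd))) (.ch (nat_lit 8) (.ev (nat_lit 656) (nat_lit 12582912) .dd)))))))))))))) (.br (nat_lit 64) (.br
 (nat_lit 57) (.br (nat_lit 55) (.ch (nat_lit 54) (.ev (nat_lit 52) (nat_lit 12599552) (.ev (nat_lit 84)
 (nat_lit 16777216) (.ev (nat_lit 148) (nat_lit 1048576) (.nd (nat_lit 640) (.br (nat_lit 6) (.br (nat_lit 2)
 (.ch (nat_lit 1) (.ev (nat_lit 656) (nat_lit 537395200) (.fin (nat_lit 576514078718509636)))) (.br (nat_lit 3)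
 (.ch (nat_lit 2) (.ev (nat_lit 656) (nat_lit 538968064) (.ev (nat_lit 692) (nat_lit 4) (.ev (nat_lit 701)
 (nat_lit 524288) .dd)))) (.ch (nat_lit 3) (.ev (nat_lit 656) (nat_lit 2097156) (.ev (nat_lit 672) (nat_lit
 536870912) (.ev (nat_lit 685) (nat_lit 524288) .dd)))))) (.br (nat_lit 7) (.ch (nat_lit 6) (.ev (nat_lit 656)
 (nat_lit 539492356) .dd)) (.br (nat_lit 8) (.ch (nat_lit 7) (.ev (nat_lit 656) (nat_lit 2097152) (.ev (nat_lit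
 692) (nat_lit 524288) (.ev (nat_lit 884) (nat_lit 4) (.ev (nat_lit 893) (nat_lit 536870912) .dd))))) (.ch
 (nat_lit 8) (.ev (nat_lit 656) (nat_lit 539492356) .dd)))))))))) (.ch (nat_lit 55) (.ev (nat_lit 52) (nat_lit
 567279616) (.ev (nat_lit 84) (nat_lit 540672) (.ev (nat_lit 180) (nat_lit 2097152) (.nd (nat_lit 640) (.br
 (nat_lit 8) (.br (nat_lit 2) (.ch (nat_lit 1) (.ev (nat_lit 656) (nat_lit 256) (.ev (nat_lit 669) (nat_lit 4)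
 .dd))) (.br (nat_lit 7) (.ch (nat_lit 2) (.ev (nat_lit 656) (nat_lit 260) .dd)) (.ch (nat_lit 7) (.ev (nat_lit
 740) (nat_lit 4) (.ev (nat_lit 749) (nat_lit 256) .dd))))) (.br (nat_lit 9) (.ch (nat_lit 8) (.ev (nat_lit
 656) (nat_lit 256) (.ev (nat_lit 669) (nat_lit 4) .dd))) (.br (nat_lit 11) (.ch (nat_lit 9) (.ev (nat_lit 656)
 (nat_lit 260) .dd)) (.ch (nat_lit 11) (.ev (nat_lit 656) (nat_lit 4) (.ev (nat_lit 669) (nat_lit 256)
 .dd)))))))))))) (.br (nat_lit 58) (.ch (nat_lit 57) (.ev (nat_lit 52) (nat_lit 555761664) (.ev (nat_lit 180)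
 (nat_lit 524288) (.ev (nat_lit 276) (nat_lit 8388608) (.nd (nat_lit 640) (.br (nat_lit 7) (.br (nat_lit 2)
 (.ch (nat_lit 0) (.ev (nat_lit 656) (nat_lit 5242880) (.ev (nat_lit 704) (nat_lit 4) (.ev (nat_lit 717)
 (nat_lit 256) .dd)))) (.ch (nat_lit 2) (.ev (nat_lit 656) (nat_lit 4194304) (.ev (nat_lit 1044) (nat_lit 256)
 (.nd (nat_lit 1216) (.br (nat_lit 6) (.ch (nat_lit 3) (.fin (nat_lit 576408525444956792))) (.ch (nat_lit 6)
 (.ev (nat_lit 1232) (nat_lit 1048580) .dd)))))))) (.br (nat_lit 8) (.ch (nat_lit 7) (.ev (nat_lit 656)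
 (nat_lit 4) (.ev (nat_lit 692) (nat_lit 4194304) (.ev (nat_lit 836) (nat_lit 256) (.ev (nat_lit 845) (nat_lit
 1048576) .dd))))) (.br (nat_lit 11) (.ch (nat_lit 8) (.ev (nat_lit 656) (nat_lit 1048832) (.ev (nat_lit 992)
 (nat_lit 4194308) .dd))) (.ch (nat_lit 11) (.ev (nat_lit 656) (nat_lit 5243140) .dd)))))))))) (.br (nat_lit
 62) (.ch (nat_lit 58) (.ev (nat_lit 52) (nat_lit 31981572) (.ev (nat_lit 84) (nat_lit 1048576) (.ev (nat_lit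
 116) (nat_lit 16384) (.ev (nat_lit 352) (nat_lit 536871168) .dd))))) (.ch (nat_lit 62) (.ev (nat_lit 52)
 (nat_lit 3162368) (.ev (nat_lit 180) (nat_lit 4194304) (.ev (nat_lit 276) (nat_lit 4) (.nd (nat_lit 640) (.br
 (nat_lit 7) (.br (nat_lit 2) (.ch (nat_lit 1) (.ev (nat_lit 656) (nat_lit 553648128) (.ev (nat_lit 992)
 (nat_lit 8912896) .dd))) (.ch (nat_lit 2) (.ev (nat_lit 656) (nat_lit 8388608) (.ev (nat_lit 692) (nat_lit
 524288) (.ev (nat_lit 836) (nat_lit 536870912) (.ev (nat_lit 845) (nat_lit 16777216) .dd)))))) (.br (nat_lit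
 9) (.ch (nat_lit 7) (.ev (nat_lit 656) (nat_lit 524288) (.ev (nat_lit 1044) (nat_lit 536870912) (.nd (nat_lit
 1216) (.br (nat_lit 12) (.ch (nat_lit 9) (.ev (nat_lit 1232) (nat_lit 25165824) .dd)) (.ch (nat_lit 12) (.fin
 (nat_lit 576408525560299992)))))))) (.br (nat_lit 11) (.ch (nat_lit 9) (.ev (nat_lit 656) (nat_lit 17301504)
 (.ev (nat_lit 704) (nat_lit 8388608) (.ev (nat_lit 717) (nat_lit 536870912) .dd)))) (.ch (nat_lit 11) (.ev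
 (nat_lit 656) (nat_lit 562561024) .dd))))))))))))) (.br (nat_lit 68) (.br (nat_lit 65) (.ch (nat_lit 64) (.ev
 (nat_lit 52) (nat_lit 563101952) (.ev (nat_lit 84) (nat_lit 2097152) (.ev (nat_lit 212) (nat_lit 4194304) (.nd
 (nat_lit 640) (.br (nat_lit 7) (.br (nat_lit 6) (.ch (nat_lit 1) (.ev (nat_lit 656) (nat_lit 524292) .dd))
 (.ch (nat_lit 6) (.ev (nat_lit 656) (nat_lit 524288) (.ev (nat_lit 669) (nat_lit 4) .dd)))) (.br (nat_lit 8)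
 (.ch (nat_lit 7) (.ev (nat_lit 692) (nat_lit 4) (.ev (nat_lit 701) (nat_lit 524288) .dd))) (.br (nat_lit 9)
 (.ch (nat_lit 8) (.ev (nat_lit 704) (nat_lit 524288) (.ev (nat_lit 717) (nat_lit 4) .dd))) (.ch (nat_lit 9)
 (.ev (nat_lit 656) (nat_lit 4) (.ev (nat_lit 669) (nat_lit 524288) .dd))))))))))) (.br (nat_lit 67) (.ch
 (nat_lit 65) (.ev (nat_lit 52) (nat_lit 560480512) (.ev (nat_lit 148) (nat_lit 4) (.ev (nat_lit 320) (nat_lit
 9437184) .dd)))) (.ch (nat_lit 67) (.ev (nat_lit 52) (nat_lit 542638084) (.ev (nat_lit 84) (nat_lit 2097152)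
 (.ev (nat_lit 148) (nat_lit 8388608) (.nd (nat_lit 640) (.br (nat_lit 6) (.br (nat_lit 1) (.ch (nat_lit 0)
 (.ev (nat_lit 656) (nat_lit 16793600) (.ev (nat_lit 669) (nat_lit 256) .dd))) (.br (nat_lit 3) (.ch (nat_lit
 1) (.ev (nat_lit 656) (nat_lit 16793856) .dd)) (.ch (nat_lit 3) (.ev (nat_lit 656) (nat_lit 16640) (.ev
 (nat_lit 669) (nat_lit 16777216) .dd))))) (.br (nat_lit 7) (.ch (nat_lit 6) (.ev (nat_lit 656) (nat_lit 16640)
 (.ev (nat_lit 669) (nat_lit 16777216) .dd))) (.br (nat_lit 9) (.ch (nat_lit 7) (.ev (nat_lit 656) (nat_lit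
 256) (.fin (nat_lit 576465700097835592)))) (.ch (nat_lit 9) (.ev (nat_lit 656) (nat_lit 16640) (.ev (nat_lit
 669) (nat_lit 16777216) .dd))))))))))))) (.br (nat_lit 69) (.ch (nat_lit 68) (.ev (nat_lit 52) (nat_lit
 4734980) (.ev (nat_lit 84) (nat_lit 2097152) (.ev (nat_lit 608) (nat_lit 16777216) (.nd (nat_lit 640) (.br
 (nat_lit 3) (.br (nat_lit 1) (.ch (nat_lit 0) (.ev (nat_lit 656) (nat_lit 546308096) (.ev (nat_lit 669)
 (nat_lit 256) .dd))) (.br (nat_lit 2) (.ch (nat_lit 1) (.ev (nat_lit 656) (nat_lit 537919744) (.ev (nat_lit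
 669) (nat_lit 8388608) .dd))) (.ch (nat_lit 2) (.ev (nat_lit 656) (nat_lit 536870912) (.ev (nat_lit 928)
 (nat_lit 1048576) (.ev (nat_lit 1044) (nat_lit 8388608) (.ev (nat_lit 1053) (nat_lit 256) .dd))))))) (.br
 (nat_lit 9) (.ch (nat_lit 3) (.ev (nat_lit 656) (nat_lit 1048832) (.ev (nat_lit 772) (nat_lit 8388608) (.ev
 (nat_lit 781) (nat_lit 536870912) .dd)))) (.br (nat_lit 11) (.ch (nat_lit 9) (.ev (nat_lit 656) (nat_lit
 1048832) (.ev (nat_lit 740) (nat_lit 536870912) (.ev (nat_lit 749) (nat_lit 8388608) .dd)))) (.ch (nat_lit 11)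
 (.ev (nat_lit 656) (nat_lit 9437184) (.ev (nat_lit 980) (nat_lit 256) (.ev (nat_lit 989) (nat_lit 536870912)
 .dd)))))))))))) (.br (nat_lit 70) (.ch (nat_lit 69) (.ev (nat_lit 52) (nat_lit 554696964) (.nd (nat_lit 640)
 (.br (nat_lit 8) (.br (nat_lit 3) (.ch (nat_lit 0) (.ev (nat_lit 656) (nat_lit 11026432) (.ev (nat_lit 669)
 (nat_lit 4194304) .dd))) (.br (nat_lit 6) (.ch (nat_lit 3) (.ev (nat_lit 656) (nat_lit 4194304) (.ev (nat_lit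
 692) (nat_lit 540672) (.ev (nat_lit 980) (nat_lit 2097152) (.ev (nat_lit 989) (nat_lit 8388608) .dd))))) (.ch
 (nat_lit 6) (.ev (nat_lit 656) (nat_lit 15220736) .dd)))) (.br (nat_lit 9) (.ch (nat_lit 8) (.ev (nat_lit 656)
 (nat_lit 10485760) (.ev (nat_lit 692) (nat_lit 524288) (.ev (nat_lit 740) (nat_lit 4194304) (.ev (nat_lit 749)
 (nat_lit 16384) .dd))))) (.br (nat_lit 11) (.ch (nat_lit 9) (.ev (nat_lit 656) (nat_lit 2113536) (.ev (nat_lit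
 692) (nat_lit 4194304) (.ev (nat_lit 1044) (nat_lit 524288) (.ev (nat_lit 1053) (nat_lit 8388608) .dd)))))
 (.ch (nat_lit 11) (.ev (nat_lit 656) (nat_lit 13123584) (.ev (nat_lit 669) (nat_lit 2097152) .dd))))))))) (.ch
 (nat_lit 70) (.ev (nat_lit 52) (nat_lit 544211200) (.ev (nat_lit 84) (nat_lit 4) (.ev (nat_lit 116) (nat_lit
 16384) (.nd (nat_lit 640) (.br (nat_lit 2) (.br (nat_lit 1) (.ch (nat_lit 0) (.ev (nat_lit 656) (nat_lit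
 25165824) (.ev (nat_lit 669) (nat_lit 524288) .dd))) (.ch (nat_lit 1) (.ev (nat_lit 656) (nat_lit 25690112)
 .dd))) (.br (nat_lit 7) (.ch (nat_lit 2) (.ev (nat_lit 656) (nat_lit 524288) (.ev (nat_lit 992) (nat_lit
 16777216) (.ev (nat_lit 1005) (nat_lit 8388608) .dd)))) (.br (nat_lit 8) (.ch (nat_lit 7) (.ev (nat_lit 656)
 (nat_lit 16777216) (.ev (nat_lit 1024) (nat_lit 524288) (.ev (nat_lit 1037) (nat_lit 8388608) .dd)))) (.ch
 (nat_lit 8) (.ev (nat_lit 656) (nat_lit 25165824) (.ev (nat_lit 669) (nat_lit 524288) .dd)))))))))))))))))))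

/-- Subtrie. -/
noncomputable def T5 : Tr := (.ev (nat_lit 20) (nat_lit 1351680) (.nd (nat_lit 33) (.br (nat_lit 39) (.br
 (nat_lit 19) (.br (nat_lit 8) (.br (nat_lit 4) (.br (nat_lit 3) (.ch (nat_lit 1) (.ev (nat_lit 52) (nat_lit
 218628422) (.ev (nat_lit 96) (nat_lit 853557264) .dd))) (.ch (nat_lit 3) (.ev (nat_lit 52) (nat_lit 801112080)
 (.ev (nat_lit 84) (nat_lit 64) (.ev (nat_lit 96) (nat_lit 271073542) .dd))))) (.br (nat_lit 5) (.ch (nat_lit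
 4) (.ev (nat_lit 52) (nat_lit 365428994) (.ev (nat_lit 84) (nat_lit 134217728) (.ev (nat_lit 180) (nat_lit
 536870912) (.nd (nat_lit 640) (.br (nat_lit 8) (.br (nat_lit 1) (.ch (nat_lit 0) (.ev (nat_lit 656) (nat_lit
 33554516) (.ev (nat_lit 772) (nat_lit 16384) (.ev (nat_lit 781) (nat_lit 2097152) .dd)))) (.br (nat_lit 5)
 (.ch (nat_lit 1) (.ev (nat_lit 656) (nat_lit 35667984) (.fin (nat_lit 576448107926471216)))) (.ch (nat_lit 5)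
 (.ev (nat_lit 656) (nat_lit 16452) (.ev (nat_lit 692) (nat_lit 2097152) (.ev (nat_lit 784) (nat_lit 16) (.ev
 (nat_lit 797) (nat_lit 33554432) .dd))))))) (.br (nat_lit 11) (.br (nat_lit 9) (.ch (nat_lit 8) (.ev (nat_lit
 656) (nat_lit 33570884) (.ev (nat_lit 672) (nat_lit 2097152) (.ev (nat_lit 685) (nat_lit 16) .dd)))) (.ch
 (nat_lit 9) (.ev (nat_lit 656) (nat_lit 2113620) (.ev (nat_lit 669) (nat_lit 33554432) .dd)))) (.br (nat_lit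
 12) (.ch (nat_lit 11) (.ev (nat_lit 656) (nat_lit 35651652) (.ev (nat_lit 836) (nat_lit 16) (.ev (nat_lit 845)
 (nat_lit 16384) .dd)))) (.ch (nat_lit 12) (.ev (nat_lit 656) (nat_lit 35651668) (.ev (nat_lit 669) (nat_lit
 16384) .dd))))))))))) (.br (nat_lit 7) (.ch (nat_lit 5) (.ev (nat_lit 52) (nat_lit 17301572) (.ev (nat_lit 84)
 (nat_lit 274726912) (.ev (nat_lit 148) (nat_lit 41943040) (.ev (nat_lit 244) (nat_lit 16384) (.ev (nat_lit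
 464) (nat_lit 256) (.nd (nat_lit 640) (.br (nat_lit 8) (.br (nat_lit 5) (.ch (nat_lit 4) (.ev (nat_lit 656)
 (nat_lit 134217744) (.ev (nat_lit 772) (nat_lit 536870912) (.ev (nat_lit 1044) (nat_lit 2) (.ev (nat_lit 1053)
 (nat_lit 67108864) .dd))))) (.ch (nat_lit 5) (.ev (nat_lit 656) (nat_lit 67108866) (.ev (nat_lit 692) (nat_lit
 536870912) (.ev (nat_lit 1056) (nat_lit 134217744) .dd))))) (.br (nat_lit 11) (.ch (nat_lit 8) (.ev (nat_lit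
 656) (nat_lit 536870912) (.ev (nat_lit 864) (nat_lit 67108864) (.ev (nat_lit 992) (nat_lit 2) (.ev (nat_lit
 1076) (nat_lit 134217728) (.ev (nat_lit 1085) (nat_lit 16) .dd)))))) (.br (nat_lit 12) (.ch (nat_lit 11) (.ev
 (nat_lit 656) (nat_lit 201326594) (.ev (nat_lit 740) (nat_lit 16) (.ev (nat_lit 749) (nat_lit 536870912)
 .dd)))) (.ch (nat_lit 12) (.ev (nat_lit 656) (nat_lit 738197520) (.ev (nat_lit 669) (nat_lit 2)
 .dd))))))))))))) (.ch (nat_lit 7) (.ev (nat_lit 52) (nat_lit 684195846) (.ev (nat_lit 84) (nat_lit 16777216)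
 (.ev (nat_lit 148) (nat_lit 67108864) (.ev (nat_lit 212) (nat_lit 16384) (.nd (nat_lit 640) (.br (nat_lit 6)
 (.br (nat_lit 5) (.ch (nat_lit 4) (.ev (nat_lit 656) (nat_lit 304087056) (.ev (nat_lit 1044) (nat_lit 64) (.ev
 (nat_lit 1053) (nat_lit 256) .dd)))) (.ch (nat_lit 5) (.ev (nat_lit 656) (nat_lit 33554688) (.ev (nat_lit 692)
 (nat_lit 16) (.ev (nat_lit 784) (nat_lit 2097152) (.ev (nat_lit 980) (nat_lit 268435456) (.ev (nat_lit 989)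
 (nat_lit 64) .dd))))))) (.br (nat_lit 8) (.ch (nat_lit 6) (.ev (nat_lit 656) (nat_lit 2097488) (.ev (nat_lit
 848) (nat_lit 33554432) (.ev (nat_lit 861) (nat_lit 268435456) .dd)))) (.br (nat_lit 12) (.ch (nat_lit 8) (.ev
 (nat_lit 656) (nat_lit 301990208) (.ev (nat_lit 912) (nat_lit 2097168) .dd))) (.ch (nat_lit 12) (.ev (nat_lit
 656) (nat_lit 304087120) (.ev (nat_lit 669) (nat_lit 256) .dd))))))))))))))) (.br (nat_lit 15) (.br (nat_lit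
 11) (.ch (nat_lit 8) (.ev (nat_lit 52) (nat_lit 830472514) (.ev (nat_lit 84) (nat_lit 524288) (.ev (nat_lit
 148) (nat_lit 136314880) (.nd (nat_lit 640) (.br (nat_lit 4) (.br (nat_lit 1) (.ch (nat_lit 0) (.ev (nat_lit
 656) (nat_lit 4194320) (.ev (nat_lit 692) (nat_lit 16384) (.ev (nat_lit 784) (nat_lit 33554432) (.ev (nat_lit
 980) (nat_lit 67108864) (.ev (nat_lit 989) (nat_lit 4) .dd)))))) (.ch (nat_lit 1) (.ev (nat_lit 656) (nat_lit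
 71303188) (.ev (nat_lit 912) (nat_lit 33570816) .dd)))) (.br (nat_lit 9) (.ch (nat_lit 4) (.ev (nat_lit 656)
 (nat_lit 100679696) (.ev (nat_lit 1044) (nat_lit 4) (.ev (nat_lit 1053) (nat_lit 4194304) .dd)))) (.br
 (nat_lit 11) (.ch (nat_lit 9) (.ev (nat_lit 656) (nat_lit 37765124) (.ev (nat_lit 848) (nat_lit 16) (.ev
 (nat_lit 861) (nat_lit 67108864) .dd)))) (.ch (nat_lit 11) (.ev (nat_lit 656) (nat_lit 100679700) (.ev
 (nat_lit 669) (nat_lit 4194304) .dd))))))))))) (.br (nat_lit 12) (.ch (nat_lit 11) (.ev (nat_lit 52) (nat_lit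
 62914626) (.ev (nat_lit 84) (nat_lit 67633172) (.ev (nat_lit 148) (nat_lit 256) (.nd (nat_lit 640) (.br
 (nat_lit 5) (.br (nat_lit 1) (.ch (nat_lit 0) (.ev (nat_lit 656) (nat_lit 805306368) (.ev (nat_lit 692)
 (nat_lit 134217728) (.ev (nat_lit 1008) (nat_lit 16384) (.ev (nat_lit 1021) (nat_lit 2097152) .dd))))) (.br
 (nat_lit 4) (.ch (nat_lit 1) (.ev (nat_lit 656) (nat_lit 538968064) (.ev (nat_lit 672) (nat_lit 16384) (.ev
 (nat_lit 980) (nat_lit 134217728) (.ev (nat_lit 989) (nat_lit 268435456) .dd))))) (.ch (nat_lit 4) (.ev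
 (nat_lit 656) (nat_lit 941637632) .dd)))) (.br (nat_lit 6) (.ch (nat_lit 5) (.ev (nat_lit 656) (nat_lit
 134234112) (.ev (nat_lit 896) (nat_lit 268435456) (.ev (nat_lit 992) (nat_lit 536870912) (.ev (nat_lit 1005)
 (nat_lit 2097152) .dd))))) (.br (nat_lit 9) (.ch (nat_lit 6) (.ev (nat_lit 656) (nat_lit 268451840) (.ev
 (nat_lit 884) (nat_lit 134217728) (.ev (nat_lit 980) (nat_lit 2097152) (.ev (nat_lit 989) (nat_lit 536870912)
 .dd))))) (.ch (nat_lit 9) (.ev (nat_lit 656) (nat_lit 673202176) (.ev (nat_lit 669) (nat_lit 268435456)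
 .dd))))))))))) (.ch (nat_lit 12) (.ev (nat_lit 52) (nat_lit 318767364) (.ev (nat_lit 64) (nat_lit 753418322)
 .dd))))) (.br (nat_lit 16) (.ch (nat_lit 15) (.ev (nat_lit 52) (nat_lit 641728836) (.ev (nat_lit 84) (nat_lit
 268959746) (.ev (nat_lit 116) (nat_lit 16384) (.ev (nat_lit 480) (nat_lit 16777216) (.nd (nat_lit 640) (.br
 (nat_lit 5) (.br (nat_lit 4) (.ch (nat_lit 0) (.ev (nat_lit 656) (nat_lit 8388624) (.ev (nat_lit 692) (nat_lit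
 2097152) (.ev (nat_lit 701) (nat_lit 134217728) .dd)))) (.ch (nat_lit 4) (.ev (nat_lit 656) (nat_lit
 134217728) (.ev (nat_lit 692) (nat_lit 16) (.ev (nat_lit 980) (nat_lit 2097152) (.ev (nat_lit 989) (nat_lit
 8388608) .dd)))))) (.br (nat_lit 9) (.ch (nat_lit 5) (.ev (nat_lit 656) (nat_lit 144703488) (.ev (nat_lit 669)
 (nat_lit 16) .dd))) (.br (nat_lit 11) (.ch (nat_lit 9) (.ev (nat_lit 656) (nat_lit 16) (.ev (nat_lit 692)
 (nat_lit 134217728) (.ev (nat_lit 864) (nat_lit 8388608) (.ev (nat_lit 877) (nat_lit 2097152) .dd))))) (.ch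
 (nat_lit 11) (.ev (nat_lit 656) (nat_lit 10485760) (.ev (nat_lit 836) (nat_lit 16) (.ev (nat_lit 845) (nat_lit
 134217728) .dd))))))))))))) (.br (nat_lit 18) (.ch (nat_lit 16) (.ev (nat_lit 52) (nat_lit 1023951106) (.ev
 (nat_lit 84) (nat_lit 33554432) (.nd (nat_lit 640) (.br (nat_lit 5) (.br (nat_lit 1) (.ch (nat_lit 0) (.ev
 (nat_lit 656) (nat_lit 14680144) (.ev (nat_lit 669) (nat_lit 4) .dd))) (.br (nat_lit 4) (.ch (nat_lit 1) (.ev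
 (nat_lit 656) (nat_lit 10485764) (.ev (nat_lit 692) (nat_lit 4194304) (.ev (nat_lit 740) (nat_lit 64) (.ev
 (nat_lit 749) (nat_lit 16) .dd))))) (.ch (nat_lit 4) (.ev (nat_lit 656) (nat_lit 64) (.ev (nat_lit 692)
 (nat_lit 8388608) (.ev (nat_lit 772) (nat_lit 2097152) (.ev (nat_lit 884) (nat_lit 16) (.ev (nat_lit 1076)
 (nat_lit 4) (.ev (nat_lit 1085) (nat_lit 4194304) .dd))))))))) (.br (nat_lit 6) (.ch (nat_lit 5) (.ev (nat_lit
 656) (nat_lit 12582980) (.fin (nat_lit 576470098169512516)))) (.br (nat_lit 8) (.ch (nat_lit 6) (.ev (nat_lit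
 656) (nat_lit 14680080) (.ev (nat_lit 692) (nat_lit 4) (.ev (nat_lit 701) (nat_lit 64) .dd)))) (.ch (nat_lit
 8) (.ev (nat_lit 656) (nat_lit 12582992) (.ev (nat_lit 836) (nat_lit 4) (.ev (nat_lit 845) (nat_lit 2097152)
 .dd))))))))))) (.ch (nat_lit 18) (.ev (nat_lit 52) (nat_lit 46661908) (.ev (nat_lit 64) (nat_lit 1025523778)
 .dd))))))) (.br (nat_lit 29) (.br (nat_lit 23) (.br (nat_lit 22) (.ch (nat_lit 19) (.ev (nat_lit 52) (nat_lit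
 387973124) (.ev (nat_lit 116) (nat_lit 536870912) (.ev (nat_lit 148) (nat_lit 16384) (.nd (nat_lit 640) (.br
 (nat_lit 6) (.br (nat_lit 1) (.ch (nat_lit 0) (.ev (nat_lit 656) (nat_lit 8388946) (.ev (nat_lit 672) (nat_lit
 134217728) (.fin (nat_lit 576461302049227332))))) (.br (nat_lit 4) (.ch (nat_lit 1) (.ev (nat_lit 656)
 (nat_lit 143130962) (.ev (nat_lit 669) (nat_lit 4194304) .dd))) (.ch (nat_lit 4) (.ev (nat_lit 656) (nat_lit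
 138936338) (.ev (nat_lit 980) (nat_lit 64) (.ev (nat_lit 1008) (nat_lit 8388608) (.ev (nat_lit 1021) (nat_lit
 256) .dd))))))) (.br (nat_lit 9) (.ch (nat_lit 6) (.ev (nat_lit 656) (nat_lit 143130706) (.ev (nat_lit 692)
 (nat_lit 4194304) (.ev (nat_lit 701) (nat_lit 256) .dd)))) (.br (nat_lit 11) (.ch (nat_lit 9) (.ev (nat_lit
 656) (nat_lit 4718914) (.ev (nat_lit 672) (nat_lit 134217728) (.ev (nat_lit 1184) (nat_lit 8388624) .dd))))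
 (.ch (nat_lit 11) (.ev (nat_lit 656) (nat_lit 143130944) (.ev (nat_lit 692) (nat_lit 4194304) (.ev (nat_lit
 848) (nat_lit 16) (.ev (nat_lit 861) (nat_lit 2) .dd))))))))))))) (.ch (nat_lit 22) (.ev (nat_lit 52) (nat_lit
 247480384) (.ev (nat_lit 84) (nat_lit 16777216) (.ev (nat_lit 116) (nat_lit 268435458) (.nd (nat_lit 640) (.br
 (nat_lit 8) (.br (nat_lit 5) (.ch (nat_lit 1) (.ev (nat_lit 656) (nat_lit 539492368) (.ev (nat_lit 692)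
 (nat_lit 256) (.ev (nat_lit 701) (nat_lit 4) .dd)))) (.br (nat_lit 6) (.ch (nat_lit 5) (.ev (nat_lit 656)
 (nat_lit 537395460) (.fin (nat_lit 576470098169512516)))) (.ch (nat_lit 6) (.ev (nat_lit 656) (nat_lit
 537395220) (.ev (nat_lit 836) (nat_lit 256) (.ev (nat_lit 845) (nat_lit 2097152) .dd)))))) (.br (nat_lit 9)
 (.ch (nat_lit 8) (.ev (nat_lit 656) (nat_lit 2621696) (.ev (nat_lit 692) (nat_lit 536870912) (.ev (nat_lit
 740) (nat_lit 4) (.ev (nat_lit 749) (nat_lit 16) .dd))))) (.br (nat_lit 12) (.ch (nat_lit 9) (.ev (nat_lit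
 656) (nat_lit 4) (.ev (nat_lit 692) (nat_lit 524288) (.ev (nat_lit 772) (nat_lit 2097152) (.ev (nat_lit 884)
 (nat_lit 16) (.ev (nat_lit 1076) (nat_lit 256) (.ev (nat_lit 1085) (nat_lit 536870912) .dd))))))) (.ch
 (nat_lit 12) (.ev (nat_lit 656) (nat_lit 539492372) (.ev (nat_lit 669) (nat_lit 256) .dd)))))))))))) (.br
 (nat_lit 24) (.ch (nat_lit 23) (.ev (nat_lit 52) (nat_lit 671612994) (.ev (nat_lit 64) (nat_lit 400572692)
 .dd))) (.br (nat_lit 26) (.ch (nat_lit 24) (.ev (nat_lit 52) (nat_lit 4194640) (.ev (nat_lit 64) (nat_lit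
 1067991046) .dd))) (.ch (nat_lit 26) (.ev (nat_lit 52) (nat_lit 740818964) (.ev (nat_lit 84) (nat_lit
 16777280) (.ev (nat_lit 116) (nat_lit 256) (.ev (nat_lit 384) (nat_lit 268435458) (.nd (nat_lit 640) (.br
 (nat_lit 6) (.br (nat_lit 5) (.ch (nat_lit 0) (.ev (nat_lit 656) (nat_lit 8388608) (.ev (nat_lit 704) (nat_lit
 16384) (.fin (nat_lit 576448107832099456))))) (.ch (nat_lit 5) (.ev (nat_lit 656) (nat_lit 4210688) (.ev
 (nat_lit 740) (nat_lit 8388608) (.ev (nat_lit 749) (nat_lit 33554432) .dd))))) (.br (nat_lit 11) (.ch (nat_lit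
 6) (.ev (nat_lit 656) (nat_lit 41943040) (.ev (nat_lit 740) (nat_lit 4194304) (.ev (nat_lit 749) (nat_lit
 16384) .dd)))) (.br (nat_lit 12) (.ch (nat_lit 11) (.ev (nat_lit 656) (nat_lit 4194304) (.ev (nat_lit 704)
 (nat_lit 33554432) (.fin (nat_lit 576514078519280236))))) (.ch (nat_lit 12) (.ev (nat_lit 656) (nat_lit
 46153728) .dd)))))))))))))) (.br (nat_lit 34) (.br (nat_lit 31) (.ch (nat_lit 29) (.ev (nat_lit 52) (nat_lit
 115867728) (.ev (nat_lit 96) (nat_lit 956317958) .dd))) (.br (nat_lit 33) (.ch (nat_lit 31) (.ev (nat_lit 52)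
 (nat_lit 514342932) (.ev (nat_lit 84) (nat_lit 2) (.ev (nat_lit 116) (nat_lit 64) (.ev (nat_lit 592) (nat_lit
 4194304) (.nd (nat_lit 640) (.br (nat_lit 8) (.br (nat_lit 5) (.ch (nat_lit 0) (.ev (nat_lit 656) (nat_lit
 553648384) .dd)) (.br (nat_lit 6) (.ch (nat_lit 5) (.ev (nat_lit 656) (nat_lit 553648384) .dd)) (.ch (nat_lit
 6) (.ev (nat_lit 772) (nat_lit 16777216) (.ev (nat_lit 884) (nat_lit 536870912) (.ev (nat_lit 893) (nat_lit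
 256) .dd)))))) (.br (nat_lit 9) (.ch (nat_lit 8) (.ev (nat_lit 656) (nat_lit 536871168) (.ev (nat_lit 669)
 (nat_lit 16777216) .dd))) (.br (nat_lit 12) (.ch (nat_lit 9) (.ev (nat_lit 656) (nat_lit 16777216) (.fin
 (nat_lit 576461302078587464)))) (.ch (nat_lit 12) (.ev (nat_lit 656) (nat_lit 553648384) .dd))))))))))) (.ch
 (nat_lit 33) (.ev (nat_lit 52) (nat_lit 52429062) (.ev (nat_lit 84) (nat_lit 268435520) (.ev (nat_lit 148)
 (nat_lit 536870912) (.ev (nat_lit 180) (nat_lit 4210688) (.nd (nat_lit 640) (.br (nat_lit 8) (.br (nat_lit 4)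
 (.ch (nat_lit 1) (.ev (nat_lit 656) (nat_lit 201326592) (.ev (nat_lit 692) (nat_lit 524288) (.ev (nat_lit 896)
 (nat_lit 8388608) (.ev (nat_lit 909) (nat_lit 16) .dd))))) (.br (nat_lit 6) (.ch (nat_lit 4) (.ev (nat_lit
 656) (nat_lit 201850896) (.ev (nat_lit 669) (nat_lit 8388608) .dd))) (.ch (nat_lit 6) (.ev (nat_lit 656)
 (nat_lit 8912912) (.fin (nat_lit 576465700104127060)))))) (.br (nat_lit 11) (.ch (nat_lit 8) (.ev (nat_lit
 656) (nat_lit 8912896) (.ev (nat_lit 884) (nat_lit 67108880) (.ev (nat_lit 893) (nat_lit 134217728) .dd))))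
 (.br (nat_lit 12) (.ch (nat_lit 11) (.ev (nat_lit 656) (nat_lit 210239488) (.ev (nat_lit 669) (nat_lit 16)
 .dd))) (.ch (nat_lit 12) (.ev (nat_lit 656) (nat_lit 201326608) (.ev (nat_lit 836) (nat_lit 524288) (.ev
 (nat_lit 845) (nat_lit 8388608) .dd))))))))))))))) (.br (nat_lit 36) (.ch (nat_lit 34) (.ev (nat_lit 52)
 (nat_lit 315113476) (.ev (nat_lit 84) (nat_lit 16777232) (.ev (nat_lit 180) (nat_lit 2097152) (.nd (nat_lit
 640) (.br (nat_lit 9) (.br (nat_lit 4) (.ch (nat_lit 1) (.ev (nat_lit 656) (nat_lit 603979842) (.ev (nat_lit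
 692) (nat_lit 256) (.ev (nat_lit 701) (nat_lit 134217728) .dd)))) (.br (nat_lit 6) (.ch (nat_lit 4) (.ev
 (nat_lit 656) (nat_lit 134217728) (.ev (nat_lit 692) (nat_lit 67108864) (.ev (nat_lit 772) (nat_lit 2) (.ev
 (nat_lit 784) (nat_lit 256) (.ev (nat_lit 836) (nat_lit 536870912) (.ev (nat_lit 845) (nat_lit 64) .dd)))))))
 (.ch (nat_lit 6) (.ev (nat_lit 656) (nat_lit 67109122) (.ev (nat_lit 980) (nat_lit 64) (.ev (nat_lit 992)
 (nat_lit 536870912) (.ev (nat_lit 1005) (nat_lit 134217728) .dd))))))) (.br (nat_lit 11) (.ch (nat_lit 9) (.ev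
 (nat_lit 656) (nat_lit 738197568) (.ev (nat_lit 848) (nat_lit 256) (.ev (nat_lit 861) (nat_lit 2) .dd)))) (.br
 (nat_lit 12) (.ch (nat_lit 11) (.ev (nat_lit 656) (nat_lit 67109184) (.ev (nat_lit 740) (nat_lit 134217728)
 (.ev (nat_lit 1076) (nat_lit 536870912) (.ev (nat_lit 1085) (nat_lit 2) .dd))))) (.ch (nat_lit 12) (.ev
 (nat_lit 656) (nat_lit 738197570) (.ev (nat_lit 669) (nat_lit 256) .dd))))))))))) (.br (nat_lit 38) (.ch
 (nat_lit 36) (.ev (nat_lit 52) (nat_lit 105381892) (.ev (nat_lit 84) (nat_lit 134217744) (.ev (nat_lit 148)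
 (nat_lit 536870912) (.ev (nat_lit 180) (nat_lit 256) (.nd (nat_lit 640) (.br (nat_lit 9) (.br (nat_lit 5) (.ch
 (nat_lit 0) (.ev (nat_lit 656) (nat_lit 276840514) (.ev (nat_lit 720) (nat_lit 18874368) .dd))) (.br (nat_lit
 6) (.ch (nat_lit 5) (.ev (nat_lit 656) (nat_lit 25182210) (.ev (nat_lit 992) (nat_lit 2097152) (.ev (nat_lit
 1076) (nat_lit 268435456) (.ev (nat_lit 1085) (nat_lit 64) .dd))))) (.ch (nat_lit 6) (.ev (nat_lit 656)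
 (nat_lit 27279362) (.ev (nat_lit 1076) (nat_lit 268435456) (.ev (nat_lit 1085) (nat_lit 64) .dd)))))) (.br
 (nat_lit 11) (.ch (nat_lit 9) (.ev (nat_lit 656) (nat_lit 285229120) (.ev (nat_lit 884) (nat_lit 8388608) (.ev
 (nat_lit 1076) (nat_lit 2) (.ev (nat_lit 1085) (nat_lit 2097152) .dd))))) (.br (nat_lit 12) (.ch (nat_lit 11)
 (.ev (nat_lit 656) (nat_lit 287309890) (.fin (nat_lit 576408525602243092)))) (.ch (nat_lit 12) (.ev (nat_lit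
 656) (nat_lit 270549056) (.ev (nat_lit 692) (nat_lit 8388608) (.ev (nat_lit 944) (nat_lit 16777216) (.ev
 (nat_lit 957) (nat_lit 2) .dd)))))))))))))) (.ch (nat_lit 38) (.ev (nat_lit 52) (nat_lit 321388628) (.ev
 (nat_lit 96) (nat_lit 750797058) .dd)))))))) (.br (nat_lit 54) (.br (nat_lit 47) (.br (nat_lit 43) (.br
 (nat_lit 42) (.ch (nat_lit 39) (.ev (nat_lit 52) (nat_lit 315097154) (.ev (nat_lit 64) (nat_lit 757088532)
 .dd))) (.ch (nat_lit 42) (.ev (nat_lit 52) (nat_lit 453509396) (.ev (nat_lit 84) (nat_lit 2) (.ev (nat_lit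
 116) (nat_lit 67108864) (.nd (nat_lit 640) (.br (nat_lit 9) (.br (nat_lit 4) (.ch (nat_lit 0) (.ev (nat_lit
 656) (nat_lit 545259584) (.ev (nat_lit 992) (nat_lit 4194304) (.ev (nat_lit 1044) (nat_lit 16384) (.ev
 (nat_lit 1053) (nat_lit 2097152) .dd))))) (.br (nat_lit 8) (.ch (nat_lit 4) (.ev (nat_lit 656) (nat_lit
 12599296) (.ev (nat_lit 884) (nat_lit 64) (.ev (nat_lit 1044) (nat_lit 536870912) (.ev (nat_lit 1053) (nat_lit
 2097152) .dd))))) (.ch (nat_lit 8) (.ev (nat_lit 656) (nat_lit 541081664) (.ev (nat_lit 1108) (nat_lit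
 8388608) (.ev (nat_lit 1117) (nat_lit 2097152) .dd)))))) (.br (nat_lit 11) (.ch (nat_lit 9) (.ev (nat_lit 656)
 (nat_lit 541081664) (.ev (nat_lit 1108) (nat_lit 8388608) (.ev (nat_lit 1117) (nat_lit 2097152) .dd)))) (.br
 (nat_lit 12) (.ch (nat_lit 11) (.ev (nat_lit 656) (nat_lit 14680128) (.ev (nat_lit 740) (nat_lit 536870912)
 (.ev (nat_lit 749) (nat_lit 16384) .dd)))) (.ch (nat_lit 12) (.ev (nat_lit 656) (nat_lit 551550976) (.ev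
 (nat_lit 692) (nat_lit 16384) (.ev (nat_lit 701) (nat_lit 64) .dd))))))))))))) (.br (nat_lit 44) (.ch (nat_lit
 43) (.ev (nat_lit 52) (nat_lit 484458516) (.ev (nat_lit 116) (nat_lit 2) (.ev (nat_lit 148) (nat_lit 524288)
 (.nd (nat_lit 640) (.br (nat_lit 8) (.br (nat_lit 5) (.ch (nat_lit 4) (.ev (nat_lit 656) (nat_lit 50331712)
 (.ev (nat_lit 928) (nat_lit 256) (.ev (nat_lit 941) (nat_lit 536870912) .dd)))) (.br (nat_lit 6) (.ch (nat_lit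
 5) (.ev (nat_lit 656) (nat_lit 16777472) (.ev (nat_lit 772) (nat_lit 536870912) (.ev (nat_lit 980) (nat_lit
 33554432) (.ev (nat_lit 989) (nat_lit 64) .dd))))) (.ch (nat_lit 6) (.ev (nat_lit 656) (nat_lit 50331968) (.ev
 (nat_lit 669) (nat_lit 536870912) .dd))))) (.br (nat_lit 9) (.ch (nat_lit 8) (.ev (nat_lit 656) (nat_lit
 570425664) (.ev (nat_lit 669) (nat_lit 16777216) .dd))) (.br (nat_lit 11) (.ch (nat_lit 9) (.ev (nat_lit 656)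
 (nat_lit 50331712) (.nd (nat_lit 1248) (.ch (nat_lit 2) (.nd (nat_lit 1265) (.br (nat_lit 43) (.ch (nat_lit
 18) (.ev (nat_lit 1281) (nat_lit 536871168) .dd)) (.br (nat_lit 52) (.ch (nat_lit 43) (.ev (nat_lit 1281)
 (nat_lit 536871168) .dd)) (.ch (nat_lit 52) (.nd (nat_lit 1296) (.br (nat_lit 11) (.ch (nat_lit 10) (.ev
 (nat_lit 1312) (nat_lit 536871168) .dd)) (.ch (nat_lit 11) (.fin (nat_lit 576461302078587464))))))))))))) (.ch
 (nat_lit 11) (.ev (nat_lit 656) (nat_lit 553648448) (.ev (nat_lit 669) (nat_lit 33554432) .dd))))))))))) (.br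
 (nat_lit 46) (.ch (nat_lit 44) (.ev (nat_lit 52) (nat_lit 343949312) (.ev (nat_lit 84) (nat_lit 570425346)
 (.ev (nat_lit 116) (nat_lit 16) (.nd (nat_lit 640) (.br (nat_lit 5) (.br (nat_lit 1) (.ch (nat_lit 0) (.ev
 (nat_lit 656) (nat_lit 136315204) (.ev (nat_lit 672) (nat_lit 16777216) (.fin (nat_lit 576461302049227332)))))
 (.br (nat_lit 4) (.ch (nat_lit 1) (.ev (nat_lit 656) (nat_lit 153616644) (.ev (nat_lit 692) (nat_lit 4194304)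
 (.ev (nat_lit 701) (nat_lit 64) .dd)))) (.ch (nat_lit 4) (.ev (nat_lit 656) (nat_lit 153616448) (.ev (nat_lit
 692) (nat_lit 4194304) (.ev (nat_lit 848) (nat_lit 4) (.ev (nat_lit 861) (nat_lit 256) .dd))))))) (.br
 (nat_lit 8) (.ch (nat_lit 5) (.ev (nat_lit 656) (nat_lit 21496068) (.ev (nat_lit 980) (nat_lit 2097152) (.ev
 (nat_lit 1008) (nat_lit 134217728) (.ev (nat_lit 1021) (nat_lit 64) .dd))))) (.br (nat_lit 11) (.ch (nat_lit
 8) (.ev (nat_lit 656) (nat_lit 6816064) (.ev (nat_lit 672) (nat_lit 16777216) (.ev (nat_lit 1136) (nat_lit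
 134217732) .dd)))) (.ch (nat_lit 11) (.ev (nat_lit 656) (nat_lit 153616708) (.ev (nat_lit 669) (nat_lit
 4194304) .dd))))))))))) (.ch (nat_lit 46) (.ev (nat_lit 52) (nat_lit 645922882) (.ev (nat_lit 84) (nat_lit
 268435456) (.ev (nat_lit 244) (nat_lit 4194304) (.ev (nat_lit 496) (nat_lit 524288) (.nd (nat_lit 640) (.br
 (nat_lit 6) (.br (nat_lit 5) (.ch (nat_lit 0) (.ev (nat_lit 656) (nat_lit 151011600) (.ev (nat_lit 884)
 (nat_lit 2097152) (.ev (nat_lit 893) (nat_lit 4) .dd)))) (.ch (nat_lit 5) (.ev (nat_lit 656) (nat_lit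
 18891012) (.ev (nat_lit 1044) (nat_lit 16) (.ev (nat_lit 1053) (nat_lit 134217728) .dd))))) (.br (nat_lit 9)
 (.ch (nat_lit 6) (.ev (nat_lit 656) (nat_lit 134217748) (.ev (nat_lit 1200) (nat_lit 2097408) (.fin (nat_lit
 576456904023687736))))) (.br (nat_lit 11) (.ch (nat_lit 9) (.ev (nat_lit 656) (nat_lit 153108484) (.ev
 (nat_lit 884) (nat_lit 256) (.ev (nat_lit 893) (nat_lit 16) .dd)))) (.ch (nat_lit 11) (.ev (nat_lit 656)
 (nat_lit 18891012) (.ev (nat_lit 1044) (nat_lit 16) (.ev (nat_lit 1053) (nat_lit 134217728)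
 .dd)))))))))))))))) (.br (nat_lit 50) (.br (nat_lit 48) (.ch (nat_lit 47) (.ev (nat_lit 52) (nat_lit 69222416)
 (.ev (nat_lit 64) (nat_lit 1002963270) .dd))) (.br (nat_lit 49) (.ch (nat_lit 48) (.ev (nat_lit 52) (nat_lit
 455098434) (.ev (nat_lit 84) (nat_lit 20) (.ev (nat_lit 128) (nat_lit 617087232) .dd)))) (.ch (nat_lit 49)
 (.ev (nat_lit 52) (nat_lit 562053122) (.ev (nat_lit 84) (nat_lit 260) (.ev (nat_lit 116) (nat_lit 134217792)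
 (.ev (nat_lit 148) (nat_lit 16) (.ev (nat_lit 244) (nat_lit 4194304) (.nd (nat_lit 640) (.br (nat_lit 5) (.br
 (nat_lit 1) (.ch (nat_lit 0) (.ev (nat_lit 656) (nat_lit 270532608) (.ev (nat_lit 692) (nat_lit 33554432) (.ev
 (nat_lit 740) (nat_lit 67108864) (.ev (nat_lit 749) (nat_lit 524288) .dd))))) (.br (nat_lit 4) (.ch (nat_lit
 1) (.ev (nat_lit 656) (nat_lit 371720192) .dd)) (.ch (nat_lit 4) (.ev (nat_lit 656) (nat_lit 304611328) (.ev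
 (nat_lit 669) (nat_lit 67108864) .dd))))) (.br (nat_lit 6) (.ch (nat_lit 5) (.ev (nat_lit 656) (nat_lit
 369623040) (.ev (nat_lit 669) (nat_lit 2097152) .dd))) (.br (nat_lit 9) (.ch (nat_lit 6) (.ev (nat_lit 656)
 (nat_lit 2621440) (.ev (nat_lit 692) (nat_lit 67108864) (.ev (nat_lit 1044) (nat_lit 33554432) (.ev (nat_lit
 1053) (nat_lit 268435456) .dd))))) (.ch (nat_lit 9) (.ev (nat_lit 656) (nat_lit 67108864) (.ev (nat_lit 692)
 (nat_lit 34078720) (.ev (nat_lit 980) (nat_lit 2097152) (.ev (nat_lit 989) (nat_lit 268435456)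
 .dd))))))))))))))))) (.br (nat_lit 51) (.ch (nat_lit 50) (.ev (nat_lit 52) (nat_lit 577257792) (.ev (nat_lit
 116) (nat_lit 402653200) (.ev (nat_lit 560) (nat_lit 8388608) (.nd (nat_lit 640) (.br (nat_lit 8) (.br
 (nat_lit 6) (.ch (nat_lit 0) (.ev (nat_lit 656) (nat_lit 2) (.ev (nat_lit 704) (nat_lit 16777216) (.ev
 (nat_lit 836) (nat_lit 67108864) (.ev (nat_lit 845) (nat_lit 4) .dd))))) (.ch (nat_lit 6) (.ev (nat_lit 656)
 (nat_lit 67108866) (.ev (nat_lit 740) (nat_lit 4) (.ev (nat_lit 749) (nat_lit 16777216) .dd))))) (.br (nat_lit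
 9) (.ch (nat_lit 8) (.ev (nat_lit 656) (nat_lit 67108868) (.ev (nat_lit 896) (nat_lit 2) (.ev (nat_lit 909)
 (nat_lit 16777216) .dd)))) (.br (nat_lit 12) (.ch (nat_lit 9) (.ev (nat_lit 656) (nat_lit 16777220) (.ev
 (nat_lit 884) (nat_lit 2) (.ev (nat_lit 893) (nat_lit 67108864) .dd)))) (.ch (nat_lit 12) (.ev (nat_lit 656)
 (nat_lit 83886086) .dd)))))))))) (.br (nat_lit 53) (.ch (nat_lit 51) (.ev (nat_lit 52) (nat_lit 814219522)
 (.ev (nat_lit 84) (nat_lit 16) (.ev (nat_lit 116) (nat_lit 4194304) (.ev (nat_lit 180) (nat_lit 33554432) (.ev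
 (nat_lit 212) (nat_lit 16384) (.nd (nat_lit 640) (.br (nat_lit 8) (.br (nat_lit 1) (.ch (nat_lit 0) (.ev
 (nat_lit 656) (nat_lit 67108932) (.ev (nat_lit 692) (nat_lit 134217728) (.ev (nat_lit 784) (nat_lit 2097152)
 (.ev (nat_lit 797) (nat_lit 16777216) .dd))))) (.br (nat_lit 5) (.ch (nat_lit 1) (.ev (nat_lit 656) (nat_lit
 220200960) (.fin (nat_lit 576448107926471216)))) (.ch (nat_lit 5) (.ev (nat_lit 656) (nat_lit 150995012) (.ev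
 (nat_lit 836) (nat_lit 2097152) (.ev (nat_lit 845) (nat_lit 67108864) .dd)))))) (.br (nat_lit 11) (.br
 (nat_lit 9) (.ch (nat_lit 8) (.ev (nat_lit 656) (nat_lit 153092164) (.ev (nat_lit 669) (nat_lit 67108864)
 .dd))) (.ch (nat_lit 9) (.ev (nat_lit 656) (nat_lit 83886148) (.ev (nat_lit 672) (nat_lit 134217728) (.ev
 (nat_lit 685) (nat_lit 2097152) .dd))))) (.br (nat_lit 12) (.ch (nat_lit 11) (.ev (nat_lit 656) (nat_lit
 18874436) (.ev (nat_lit 772) (nat_lit 67108864) (.ev (nat_lit 781) (nat_lit 134217728) .dd)))) (.ch (nat_lit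
 12) (.ev (nat_lit 656) (nat_lit 203423812) (.ev (nat_lit 669) (nat_lit 16777216) .dd))))))))))))) (.ch
 (nat_lit 53) (.ev (nat_lit 52) (nat_lit 824181014) (.ev (nat_lit 84) (nat_lit 8388608) (.ev (nat_lit 116)
 (nat_lit 64) (.ev (nat_lit 148) (nat_lit 33554432) (.ev (nat_lit 340) (nat_lit 4194304) (.ev (nat_lit 512)
 (nat_lit 524288) (.nd (nat_lit 640) (.br (nat_lit 8) (.br (nat_lit 4) (.ch (nat_lit 1) (.ev (nat_lit 656)
 (nat_lit 201342976) .dd)) (.br (nat_lit 6) (.ch (nat_lit 4) (.ev (nat_lit 656) (nat_lit 201342976) .dd)) (.ch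
 (nat_lit 6) (.ev (nat_lit 656) (nat_lit 16384) (.fin (nat_lit 576465700104127060)))))) (.br (nat_lit 11) (.ch
 (nat_lit 8) (.ev (nat_lit 656) (nat_lit 201342976) .dd)) (.br (nat_lit 12) (.ch (nat_lit 11) (.ev (nat_lit
 772) (nat_lit 16384) (.ev (nat_lit 884) (nat_lit 134217728) (.ev (nat_lit 893) (nat_lit 67108864) .dd)))) (.ch
 (nat_lit 12) (.ev (nat_lit 656) (nat_lit 201326592) (.ev (nat_lit 669) (nat_lit 16384) .dd))))))))))))))))))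
 (.br (nat_lit 64) (.br (nat_lit 57) (.br (nat_lit 55) (.ch (nat_lit 54) (.ev (nat_lit 52) (nat_lit 415252816)
 (.ev (nat_lit 84) (nat_lit 67108868) (.ev (nat_lit 148) (nat_lit 16777216) (.nd (nat_lit 640) (.br (nat_lit 9)
 (.br (nat_lit 6) (.ch (nat_lit 1) (.ev (nat_lit 656) (nat_lit 572522496) (.ev (nat_lit 980) (nat_lit 524288)
 (.ev (nat_lit 989) (nat_lit 2) .dd)))) (.ch (nat_lit 6) (.ev (nat_lit 656) (nat_lit 524290) (.ev (nat_lit 884)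
 (nat_lit 2097152) (.ev (nat_lit 980) (nat_lit 536870912) (.ev (nat_lit 989) (nat_lit 33554432) .dd)))))) (.br
 (nat_lit 11) (.ch (nat_lit 9) (.ev (nat_lit 656) (nat_lit 2621442) (.ev (nat_lit 784) (nat_lit 33554432) (.ev
 (nat_lit 797) (nat_lit 536870912) .dd)))) (.br (nat_lit 12) (.ch (nat_lit 11) (.ev (nat_lit 656) (nat_lit
 539492354) (.ev (nat_lit 669) (nat_lit 33554432) .dd))) (.ch (nat_lit 12) (.ev (nat_lit 656) (nat_lit
 572522496) (.ev (nat_lit 704) (nat_lit 524288) (.ev (nat_lit 717) (nat_lit 2) .dd)))))))))))) (.ch (nat_lit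
 55) (.ev (nat_lit 52) (nat_lit 834666514) (.ev (nat_lit 84) (nat_lit 201326592) (.ev (nat_lit 116) (nat_lit
 2113536) (.nd (nat_lit 640) (.br (nat_lit 9) (.br (nat_lit 5) (.ch (nat_lit 4) (.ev (nat_lit 656) (nat_lit
 34078720) (.ev (nat_lit 692) (nat_lit 64) (.ev (nat_lit 1044) (nat_lit 4) (.ev (nat_lit 1053) (nat_lit 256)
 .dd))))) (.br (nat_lit 6) (.ch (nat_lit 5) (.ev (nat_lit 656) (nat_lit 524548) (.ev (nat_lit 1044) (nat_lit
 33554432) (.ev (nat_lit 1053) (nat_lit 64) .dd)))) (.ch (nat_lit 6) (.ev (nat_lit 656) (nat_lit 524548) (.ev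
 (nat_lit 784) (nat_lit 64) (.ev (nat_lit 797) (nat_lit 33554432) .dd)))))) (.br (nat_lit 11) (.ch (nat_lit 9)
 (.ev (nat_lit 656) (nat_lit 68) (.ev (nat_lit 672) (nat_lit 524288) (.ev (nat_lit 1044) (nat_lit 256) (.ev
 (nat_lit 1053) (nat_lit 33554432) .dd))))) (.br (nat_lit 12) (.ch (nat_lit 11) (.ev (nat_lit 656) (nat_lit
 34079044) .dd)) (.ch (nat_lit 12) (.ev (nat_lit 656) (nat_lit 33554692) (.ev (nat_lit 672) (nat_lit 524288)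
 (.ev (nat_lit 685) (nat_lit 64) .dd))))))))))))) (.br (nat_lit 58) (.ch (nat_lit 57) (.ev (nat_lit 52)
 (nat_lit 689979474) (.ev (nat_lit 84) (nat_lit 524288) (.ev (nat_lit 116) (nat_lit 8388608) (.ev (nat_lit 148)
 (nat_lit 33554432) (.nd (nat_lit 640) (.br (nat_lit 6) (.br (nat_lit 4) (.ch (nat_lit 1) (.ev (nat_lit 656)
 (nat_lit 71303168) (.ev (nat_lit 692) (nat_lit 256) (.ev (nat_lit 740) (nat_lit 4) (.ev (nat_lit 749) (nat_lit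
 268435456) .dd))))) (.br (nat_lit 5) (.ch (nat_lit 4) (.ev (nat_lit 656) (nat_lit 268435712) (.ev (nat_lit
 896) (nat_lit 4194304) (.ev (nat_lit 1044) (nat_lit 4) (.ev (nat_lit 1053) (nat_lit 67108864) .dd))))) (.ch
 (nat_lit 5) (.ev (nat_lit 656) (nat_lit 339738884) .dd)))) (.br (nat_lit 8) (.ch (nat_lit 6) (.ev (nat_lit
 656) (nat_lit 71303172) (.ev (nat_lit 884) (nat_lit 268435456) (.ev (nat_lit 893) (nat_lit 256) .dd)))) (.br
 (nat_lit 12) (.ch (nat_lit 8) (.ev (nat_lit 656) (nat_lit 4194564) (.ev (nat_lit 1076) (nat_lit 67108864) (.ev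
 (nat_lit 1085) (nat_lit 268435456) .dd)))) (.ch (nat_lit 12) (.ev (nat_lit 656) (nat_lit 339738884)
 .dd))))))))))) (.br (nat_lit 62) (.ch (nat_lit 58) (.ev (nat_lit 52) (nat_lit 99090502) (.ev (nat_lit 84)
 (nat_lit 536870912) (.ev (nat_lit 116) (nat_lit 268435456) (.ev (nat_lit 160) (nat_lit 167788816) .dd)))))
 (.ch (nat_lit 62) (.ev (nat_lit 52) (nat_lit 136331602) (.ev (nat_lit 84) (nat_lit 100663296) (.ev (nat_lit
 116) (nat_lit 524288) (.ev (nat_lit 212) (nat_lit 4194304) (.ev (nat_lit 528) (nat_lit 16777216) (.nd (nat_lit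
 640) (.br (nat_lit 8) (.br (nat_lit 5) (.ch (nat_lit 1) (.ev (nat_lit 656) (nat_lit 536870912) (.ev (nat_lit
 928) (nat_lit 4) (.ev (nat_lit 1044) (nat_lit 268435456) (.ev (nat_lit 1053) (nat_lit 8388608) .dd))))) (.br
 (nat_lit 6) (.ch (nat_lit 5) (.ev (nat_lit 656) (nat_lit 8388612) (.ev (nat_lit 740) (nat_lit 536870912) (.ev
 (nat_lit 749) (nat_lit 268435456) .dd)))) (.ch (nat_lit 6) (.ev (nat_lit 656) (nat_lit 545259524) (.ev
 (nat_lit 669) (nat_lit 268435456) .dd))))) (.br (nat_lit 9) (.ch (nat_lit 8) (.ev (nat_lit 656) (nat_lit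
 268435460) (.ev (nat_lit 980) (nat_lit 8388608) (.ev (nat_lit 989) (nat_lit 536870912) .dd)))) (.br (nat_lit
 11) (.ch (nat_lit 9) (.ev (nat_lit 656) (nat_lit 8388612) (.ev (nat_lit 772) (nat_lit 268435456) (.ev (nat_lit
 781) (nat_lit 536870912) .dd)))) (.ch (nat_lit 11) (.ev (nat_lit 656) (nat_lit 805306372) (.ev (nat_lit 669)
 (nat_lit 8388608) .dd)))))))))))))))) (.br (nat_lit 68) (.br (nat_lit 65) (.ch (nat_lit 64) (.ev (nat_lit 52)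
 (nat_lit 763380032) (.ev (nat_lit 84) (nat_lit 2097152) (.nd (nat_lit 640) (.br (nat_lit 8) (.br (nat_lit 4)
 (.ch (nat_lit 0) (.ev (nat_lit 656) (nat_lit 268435474) (.ev (nat_lit 772) (nat_lit 524288) (.ev (nat_lit 816)
 (nat_lit 4) (.nd (nat_lit 1216) (.br (nat_lit 8) (.ch (nat_lit 2) (.ev (nat_lit 1232) (nat_lit 4194304) (.ev
 (nat_lit 1245) (nat_lit 33554432) .dd))) (.ch (nat_lit 8) (.fin (nat_lit 576474496289423872))))))))) (.br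
 (nat_lit 5) (.ch (nat_lit 4) (.ev (nat_lit 656) (nat_lit 302514180) (.ev (nat_lit 864) (nat_lit 4194304) (.ev
 (nat_lit 980) (nat_lit 16) (.ev (nat_lit 989) (nat_lit 2) .dd))))) (.ch (nat_lit 5) (.ev (nat_lit 656)
 (nat_lit 273154054) (.ev (nat_lit 800) (nat_lit 33554448) .dd))))) (.br (nat_lit 9) (.ch (nat_lit 8) (.ev
 (nat_lit 656) (nat_lit 38273040) (.ev (nat_lit 772) (nat_lit 2) (.ev (nat_lit 884) (nat_lit 268435456) (.ev
 (nat_lit 893) (nat_lit 4) .dd))))) (.br (nat_lit 12) (.ch (nat_lit 9) (.ev (nat_lit 656) (nat_lit 272629780)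
 (.ev (nat_lit 692) (nat_lit 2) (.ev (nat_lit 980) (nat_lit 524288) (.ev (nat_lit 989) (nat_lit 33554432)
 .dd))))) (.ch (nat_lit 12) (.ev (nat_lit 656) (nat_lit 306184212) (.ev (nat_lit 752) (nat_lit 524288) (.ev
 (nat_lit 765) (nat_lit 2) .dd))))))))))) (.br (nat_lit 67) (.ch (nat_lit 65) (.ev (nat_lit 52) (nat_lit
 560480514) (.ev (nat_lit 148) (nat_lit 33554432) (.ev (nat_lit 276) (nat_lit 67108864) (.nd (nat_lit 640) (.br
 (nat_lit 8) (.br (nat_lit 4) (.ch (nat_lit 1) (.ev (nat_lit 656) (nat_lit 276824068) (.ev (nat_lit 992)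
 (nat_lit 64) (.ev (nat_lit 1044) (nat_lit 134217728) (.ev (nat_lit 1053) (nat_lit 16) .dd))))) (.br (nat_lit
 5) (.ch (nat_lit 4) (.ev (nat_lit 656) (nat_lit 411041856) (.ev (nat_lit 1108) (nat_lit 4) (.ev (nat_lit 1117)
 (nat_lit 16) .dd)))) (.ch (nat_lit 5) (.ev (nat_lit 656) (nat_lit 268435540) (.ev (nat_lit 692) (nat_lit
 134217728) (.ev (nat_lit 701) (nat_lit 8388608) .dd)))))) (.br (nat_lit 9) (.ch (nat_lit 8) (.ev (nat_lit 656)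
 (nat_lit 411041856) (.ev (nat_lit 1108) (nat_lit 4) (.ev (nat_lit 1117) (nat_lit 16) .dd)))) (.br (nat_lit 11)
 (.ch (nat_lit 9) (.ev (nat_lit 656) (nat_lit 8388692) (.ev (nat_lit 740) (nat_lit 268435456) (.ev (nat_lit
 749) (nat_lit 134217728) .dd)))) (.ch (nat_lit 11) (.ev (nat_lit 656) (nat_lit 134217796) (.ev (nat_lit 884)
 (nat_lit 8388608) (.ev (nat_lit 1044) (nat_lit 268435456) (.ev (nat_lit 1053) (nat_lit 16) .dd)))))))))))))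
 (.ch (nat_lit 67) (.ev (nat_lit 52) (nat_lit 877133828) (.ev (nat_lit 84) (nat_lit 2097152) (.ev (nat_lit 180)
 (nat_lit 8388608) (.ev (nat_lit 544) (nat_lit 256) (.nd (nat_lit 640) (.br (nat_lit 6) (.br (nat_lit 5) (.ch
 (nat_lit 0) (.ev (nat_lit 656) (nat_lit 16793682) (.ev (nat_lit 884) (nat_lit 33554432) (.ev (nat_lit 893)
 (nat_lit 134217728) .dd)))) (.ch (nat_lit 5) (.ev (nat_lit 656) (nat_lit 184565762) (.ev (nat_lit 884)
 (nat_lit 64) (.ev (nat_lit 893) (nat_lit 16) .dd))))) (.br (nat_lit 8) (.ch (nat_lit 6) (.ev (nat_lit 656)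
 (nat_lit 134217746) (.ev (nat_lit 1152) (nat_lit 33554496) (.fin (nat_lit 576456904023687736))))) (.br
 (nat_lit 9) (.ch (nat_lit 8) (.ev (nat_lit 656) (nat_lit 50348112) (.ev (nat_lit 1044) (nat_lit 134217728)
 (.ev (nat_lit 1053) (nat_lit 2) .dd)))) (.ch (nat_lit 9) (.ev (nat_lit 656) (nat_lit 50348112) (.ev (nat_lit
 1044) (nat_lit 134217728) (.ev (nat_lit 1053) (nat_lit 2) .dd))))))))))))))) (.br (nat_lit 69) (.ch (nat_lit
 68) (.ev (nat_lit 52) (nat_lit 440942598) (.ev (nat_lit 84) (nat_lit 320) (.ev (nat_lit 128) (nat_lit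
 631242768) .dd)))) (.br (nat_lit 70) (.ch (nat_lit 69) (.ev (nat_lit 52) (nat_lit 620757252) (.ev (nat_lit 64)
 (nat_lit 451428434) .dd))) (.ch (nat_lit 70) (.ev (nat_lit 52) (nat_lit 878707024) (.ev (nat_lit 84) (nat_lit
 524288) (.ev (nat_lit 96) (nat_lit 192954374) .dd))))))))))))

/-- The trie. -/
noncomputable def T : Tr := .nd (nat_lit 1000000) (.br (nat_lit 3) (.br (nat_lit 1) (.ch (nat_lit 0) (.ev
 (nat_lit 0) (nat_lit 2147483647) .dd)) (.br (nat_lit 2) (.ch (nat_lit 1) (.ev (nat_lit 0) (nat_lit 2147483647)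
 .dd)) (.ch (nat_lit 2) T2))) (.br (nat_lit 4) (.ch (nat_lit 3) (.ev (nat_lit 0) (nat_lit 2147483647) .dd))
 (.br (nat_lit 5) (.ch (nat_lit 4) T4) (.ch (nat_lit 5) T5))))

/-- The possible values. -/
noncomputable def oks : List ℕ := [274, 610, 706, 24610]

/-- The parameters. -/
noncomputable def S : Pr := ⟨fun i l e => lget mz (lget [] (lget [] tabs i) l) e, oks, [(nat_lit 0), (nat_lit
 1), (nat_lit 0), (nat_lit 0), (nat_lit 1), (nat_lit 0)], T, (nat_lit 2147483647), (nat_lit 1073946281),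
 (nat_lit 31), [(nat_lit 11), (nat_lit 87122173451996128837)], [(nat_lit 4826809), (nat_lit 25411681)]⟩

/-- Nothing known. -/
noncomputable def cs0 : Cs := (.cons (nat_lit 13) (nat_lit 0) (nat_lit 1) (.cons (nat_lit 71) (nat_lit 0) (nat_lit 1) .nil))

theorem part_2 : part S cs0 (nat_lit 2) = true := by decide +kernel

theorem part_4 : part S cs0 (nat_lit 4) = true := by decide +kernel

theorem part_5 : part S cs0 (nat_lit 5) = true := by decide +kernel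

/-- Data of a prime. -/
noncomputable def D0 : PD := ⟨(nat_lit 13), (nat_lit 6), (2731834, 6, 3), (3031204, 4036787, 560186), (3718172, 4072320, 1281671)⟩

theorem D0_ok : D0.Ok := pdb_sound (s := 2) (C := ⟨⟨3, 18, -4, -17, 2, 1, 2, -1, -7⟩, (3, 9, 2)⟩) (by show Nat.Prime 13; norm_num) (by decide +kernel)

/-- Lines of the first type. -/
noncomputable def Cl0 : List C1 := [⟨⟨17, -2, -16, 3, 18, 1, -2, 1, -5⟩, (10, 1, 8)⟩,
  ⟨⟨3, -18, -4, -17, -2, 1, 2, 1, -7⟩, (5, 2, 12)⟩,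
  ⟨⟨0, 0, 0, 0, 0, 0, 0, 0, 0⟩, (0, 0, 0)⟩,
  ⟨⟨17, 2, -16, 3, -18, 1, -2, -1, -5⟩, (8, 6, 9)⟩,
  ⟨⟨0, 0, 0, 0, 0, 0, 0, 0, 0⟩, (0, 0, 0)⟩,
  ⟨⟨0, 0, 0, 0, 0, 0, 0, 0, 0⟩, (0, 0, 0)⟩,
  ⟨⟨0, 0, 0, 0, 0, 0, 0, 0, 0⟩, (0, 0, 0)⟩,
  ⟨⟨0, 0, 0, 0, 0, 0, 0, 0, 0⟩, (0, 0, 0)⟩,
  ⟨⟨0, 0, 0, 0, 0, 0, 0, 0, 0⟩, (0, 0, 0)⟩,
  ⟨⟨0, 0, 0, 0, 0, 0, 0, 0, 0⟩, (0, 0, 0)⟩,
  ⟨⟨0, 0, 0, 0, 0, 0, 0, 0, 0⟩, (0, 0, 0)⟩,
  ⟨⟨0, 0, 0, 0, 0, 0, 0, 0, 0⟩, (0, 0, 0)⟩,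
  ⟨⟨0, 0, 0, 0, 0, 0, 0, 0, 0⟩, (0, 0, 0)⟩]

/-- Data of a prime. -/
noncomputable def D1 : PD := ⟨(nat_lit 71), (nat_lit 4), (11251584, 9, 33), (23923522, 720358, 4464657), (17637591, 10151933, 2206443)⟩

theorem D1_ok : D1.Ok := pdb_sound (s := 11) (C := ⟨⟨59, 34, -112, -29, 94, 37, -24, -3, -11⟩, (59, 42, 47)⟩) (by show Nat.Prime 71; norm_num) (by decide +kernel)

/-- Lines of the first type. -/
noncomputable def Cl1 : List C1 := [⟨⟨-59, -34, -53, 29, -94, 8, 24, 3, -35⟩, (17, 47, 34)⟩,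
  ⟨⟨0, 0, 0, 0, 0, 0, 0, 0, 0⟩, (0, 0, 0)⟩,
  ⟨⟨49, -74, -77, 79, 14, 28, 12, 21, -29⟩, (59, 56, 13)⟩,
  ⟨⟨0, 0, 0, 0, 0, 0, 0, 0, 0⟩, (0, 0, 0)⟩,
  ⟨⟨0, 0, 0, 0, 0, 0, 0, 0, 0⟩, (0, 0, 0)⟩,
  ⟨⟨0, 0, 0, 0, 0, 0, 0, 0, 0⟩, (0, 0, 0)⟩,
  ⟨⟨79, -14, -107, 49, 74, 28, -12, 21, -17⟩, (44, 21, 5)⟩,
  ⟨⟨0, 0, 0, 0, 0, 0, 0, 0, 0⟩, (0, 0, 0)⟩,
  ⟨⟨0, 0, 0, 0, 0, 0, 0, 0, 0⟩, (0, 0, 0)⟩,
  ⟨⟨39, 66, -92, -89, 46, 37, -8, -19, -23⟩, (13, 65, 21)⟩,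
  ⟨⟨19, 46, -107, -91, -26, 8, 12, -27, -19⟩, (7, 30, 53)⟩,
  ⟨⟨0, 0, 0, 0, 0, 0, 0, 0, 0⟩, (0, 0, 0)⟩,
  ⟨⟨0, 0, 0, 0, 0, 0, 0, 0, 0⟩, (0, 0, 0)⟩,
  ⟨⟨99, 6, -67, 11, -94, 32, -4, -11, -31⟩, (13, 33, 59)⟩,
  ⟨⟨-39, -66, -53, -89, 46, 52, 8, 19, -31⟩, (17, 57, 22)⟩,
  ⟨⟨0, 0, 0, 0, 0, 0, 0, 0, 0⟩, (0, 0, 0)⟩,
  ⟨⟨0, 0, 0, 0, 0, 0, 0, 0, 0⟩, (0, 0, 0)⟩,
  ⟨⟨19, -46, -107, -91, 26, 8, 12, 27, -19⟩, (15, 44, 2)⟩,
  ⟨⟨0, 0, 0, 0, 0, 0, 0, 0, 0⟩, (0, 0, 0)⟩,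
  ⟨⟨0, 0, 0, 0, 0, 0, 0, 0, 0⟩, (0, 0, 0)⟩,
  ⟨⟨51, 66, -88, -59, 74, 67, -20, -5, -17⟩, (59, 64, 59)⟩,
  ⟨⟨49, 74, -77, 79, -14, 28, 12, -21, -29⟩, (6, 43, 29)⟩,
  ⟨⟨0, 0, 0, 0, 0, 0, 0, 0, 0⟩, (0, 0, 0)⟩,
  ⟨⟨0, 0, 0, 0, 0, 0, 0, 0, 0⟩, (0, 0, 0)⟩,
  ⟨⟨0, 0, 0, 0, 0, 0, 0, 0, 0⟩, (0, 0, 0)⟩,
  ⟨⟨31, 74, -83, -81, 54, 68, -16, -13, -19⟩, (8, 2, 60)⟩,
  ⟨⟨0, 0, 0, 0, 0, 0, 0, 0, 0⟩, (0, 0, 0)⟩,
  ⟨⟨11, 94, -43, -99, 6, 32, 4, -11, -35⟩, (69, 18, 38)⟩,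
  ⟨⟨-51, 66, -37, 59, 74, 8, 20, -5, -37⟩, (25, 56, 25)⟩,
  ⟨⟨0, 0, 0, 0, 0, 0, 0, 0, 0⟩, (0, 0, 0)⟩,
  ⟨⟨39, -66, -92, -89, -46, 37, -8, 19, -23⟩, (43, 2, 64)⟩,
  ⟨⟨0, 0, 0, 0, 0, 0, 0, 0, 0⟩, (0, 0, 0)⟩,
  ⟨⟨59, -34, -112, -29, -94, 37, -24, 3, -11⟩, (9, 4, 18)⟩,
  ⟨⟨0, 0, 0, 0, 0, 0, 0, 0, 0⟩, (0, 0, 0)⟩,
  ⟨⟨0, 0, 0, 0, 0, 0, 0, 0, 0⟩, (0, 0, 0)⟩,
  ⟨⟨-59, 34, -53, 29, 94, 8, 24, -3, -35⟩, (8, 43, 16)⟩,
  ⟨⟨0, 0, 0, 0, 0, 0, 0, 0, 0⟩, (0, 0, 0)⟩,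
  ⟨⟨11, -94, -43, -99, -6, 32, 4, 11, -35⟩, (2, 53, 33)⟩,
  ⟨⟨0, 0, 0, 0, 0, 0, 0, 0, 0⟩, (0, 0, 0)⟩,
  ⟨⟨0, 0, 0, 0, 0, 0, 0, 0, 0⟩, (0, 0, 0)⟩,
  ⟨⟨51, -66, -88, -59, -74, 67, -20, 5, -17⟩, (18, 46, 18)⟩,
  ⟨⟨-19, -46, -88, -91, -26, 83, -12, 27, -7⟩, (26, 61, 65)⟩,
  ⟨⟨0, 0, 0, 0, 0, 0, 0, 0, 0⟩, (0, 0, 0)⟩,
  ⟨⟨0, 0, 0, 0, 0, 0, 0, 0, 0⟩, (0, 0, 0)⟩,
  ⟨⟨0, 0, 0, 0, 0, 0, 0, 0, 0⟩, (0, 0, 0)⟩,
  ⟨⟨-19, 46, -88, -91, 26, 83, -12, -27, -7⟩, (18, 4, 45)⟩,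
  ⟨⟨0, 0, 0, 0, 0, 0, 0, 0, 0⟩, (0, 0, 0)⟩,
  ⟨⟨0, 0, 0, 0, 0, 0, 0, 0, 0⟩, (0, 0, 0)⟩,
  ⟨⟨0, 0, 0, 0, 0, 0, 0, 0, 0⟩, (0, 0, 0)⟩,
  ⟨⟨0, 0, 0, 0, 0, 0, 0, 0, 0⟩, (0, 0, 0)⟩,
  ⟨⟨0, 0, 0, 0, 0, 0, 0, 0, 0⟩, (0, 0, 0)⟩,
  ⟨⟨0, 0, 0, 0, 0, 0, 0, 0, 0⟩, (0, 0, 0)⟩,
  ⟨⟨99, -6, -67, 11, 94, 32, -4, 11, -31⟩, (48, 29, 54)⟩,
  ⟨⟨0, 0, 0, 0, 0, 0, 0, 0, 0⟩, (0, 0, 0)⟩,
  ⟨⟨0, 0, 0, 0, 0, 0, 0, 0, 0⟩, (0, 0, 0)⟩,
  ⟨⟨0, 0, 0, 0, 0, 0, 0, 0, 0⟩, (0, 0, 0)⟩,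
  ⟨⟨-51, -66, -37, 59, -74, 8, 20, 5, -37⟩, (55, 38, 55)⟩,
  ⟨⟨0, 0, 0, 0, 0, 0, 0, 0, 0⟩, (0, 0, 0)⟩,
  ⟨⟨0, 0, 0, 0, 0, 0, 0, 0, 0⟩, (0, 0, 0)⟩,
  ⟨⟨-31, -74, -52, -81, 54, 13, 16, 13, -35⟩, (64, 55, 54)⟩,
  ⟨⟨-31, 74, -52, -81, -54, 13, 16, -13, -35⟩, (11, 15, 47)⟩,
  ⟨⟨-39, 66, -53, -89, -46, 52, 8, -19, -31⟩, (58, 65, 50)⟩,
  ⟨⟨0, 0, 0, 0, 0, 0, 0, 0, 0⟩, (0, 0, 0)⟩,
  ⟨⟨79, 14, -107, 49, -74, 28, -12, -21, -17⟩, (57, 3, 21)⟩,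
  ⟨⟨0, 0, 0, 0, 0, 0, 0, 0, 0⟩, (0, 0, 0)⟩,
  ⟨⟨0, 0, 0, 0, 0, 0, 0, 0, 0⟩, (0, 0, 0)⟩,
  ⟨⟨31, -74, -83, -81, -54, 68, -16, 13, -19⟩, (61, 33, 67)⟩,
  ⟨⟨0, 0, 0, 0, 0, 0, 0, 0, 0⟩, (0, 0, 0)⟩,
  ⟨⟨0, 0, 0, 0, 0, 0, 0, 0, 0⟩, (0, 0, 0)⟩,
  ⟨⟨0, 0, 0, 0, 0, 0, 0, 0, 0⟩, (0, 0, 0)⟩,
  ⟨⟨0, 0, 0, 0, 0, 0, 0, 0, 0⟩, (0, 0, 0)⟩]

/-- Data of a prime. -/
noncomputable def Dm : PD := ⟨(nat_lit 31), (nat_lit 2), (435, 8, 13), (281, 829, 278), (666, 926, 286)⟩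

theorem Dm_ok : Dm.Ok := pdb_sound (s := 3) (C := ⟨⟨11, 26, -43, -19, 34, 32, -12, -3, -1⟩, (11, 12, 19)⟩) (by show Nat.Prime 31; norm_num) (by decide +kernel)

/-- Lines of the first type. -/
noncomputable def Clm : List C1 := [⟨⟨-11, -26, -32, 19, -34, 13, 12, 3, -13⟩, (22, 24, 7)⟩,
  ⟨⟨0, 0, 0, 0, 0, 0, 0, 0, 0⟩, (0, 0, 0)⟩,
  ⟨⟨0, 0, 0, 0, 0, 0, 0, 0, 0⟩, (0, 0, 0)⟩,
  ⟨⟨29, 26, -37, 21, 6, 32, 8, -11, -7⟩, (2, 10, 23)⟩,
  ⟨⟨0, 0, 0, 0, 0, 0, 0, 0, 0⟩, (0, 0, 0)⟩,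
  ⟨⟨21, 6, -53, 29, 26, 8, 8, -11, -1⟩, (6, 26, 20)⟩,
  ⟨⟨0, 0, 0, 0, 0, 0, 0, 0, 0⟩, (0, 0, 0)⟩,
  ⟨⟨29, -26, -37, 21, -6, 32, 8, 11, -7⟩, (27, 11, 16)⟩,
  ⟨⟨0, 0, 0, 0, 0, 0, 0, 0, 0⟩, (0, 0, 0)⟩,
  ⟨⟨-9, -6, -43, -41, 14, 28, 4, 13, -5⟩, (4, 1, 12)⟩,
  ⟨⟨9, -6, -52, -41, -14, 13, -4, 13, -1⟩, (29, 16, 25)⟩,
  ⟨⟨21, -6, -53, 29, -26, 8, 8, 11, -1⟩, (7, 20, 13)⟩,
  ⟨⟨9, 6, -52, -41, 14, 13, -4, -13, -1⟩, (28, 24, 22)⟩,
  ⟨⟨0, 0, 0, 0, 0, 0, 0, 0, 0⟩, (0, 0, 0)⟩,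
  ⟨⟨0, 0, 0, 0, 0, 0, 0, 0, 0⟩, (0, 0, 0)⟩,
  ⟨⟨0, 0, 0, 0, 0, 0, 0, 0, 0⟩, (0, 0, 0)⟩,
  ⟨⟨11, -26, -43, -19, -34, 32, -12, 3, -1⟩, (25, 16, 15)⟩,
  ⟨⟨-9, 6, -43, -41, -14, 28, 4, -13, -5⟩, (3, 24, 9)⟩,
  ⟨⟨0, 0, 0, 0, 0, 0, 0, 0, 0⟩, (0, 0, 0)⟩,
  ⟨⟨0, 0, 0, 0, 0, 0, 0, 0, 0⟩, (0, 0, 0)⟩,
  ⟨⟨0, 0, 0, 0, 0, 0, 0, 0, 0⟩, (0, 0, 0)⟩,
  ⟨⟨0, 0, 0, 0, 0, 0, 0, 0, 0⟩, (0, 0, 0)⟩,
  ⟨⟨0, 0, 0, 0, 0, 0, 0, 0, 0⟩, (0, 0, 0)⟩,
  ⟨⟨0, 0, 0, 0, 0, 0, 0, 0, 0⟩, (0, 0, 0)⟩,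
  ⟨⟨0, 0, 0, 0, 0, 0, 0, 0, 0⟩, (0, 0, 0)⟩,
  ⟨⟨0, 0, 0, 0, 0, 0, 0, 0, 0⟩, (0, 0, 0)⟩,
  ⟨⟨0, 0, 0, 0, 0, 0, 0, 0, 0⟩, (0, 0, 0)⟩,
  ⟨⟨0, 0, 0, 0, 0, 0, 0, 0, 0⟩, (0, 0, 0)⟩,
  ⟨⟨0, 0, 0, 0, 0, 0, 0, 0, 0⟩, (0, 0, 0)⟩,
  ⟨⟨0, 0, 0, 0, 0, 0, 0, 0, 0⟩, (0, 0, 0)⟩,
  ⟨⟨-11, 26, -32, 19, 34, 13, 12, -3, -13⟩, (28, 8, 23)⟩]

/-- Unit moves. -/
noncomputable def U : List Mv := [mz,
  mz,
  mz,
  mz,
  mz,
  mz,
  ⟨⟨-1, 0, 1, 0, 1, 0, 0, 0, 1⟩, .nil, (nat_lit 12), (nat_lit 1), (nat_lit 4), (nat_lit 1), (0, 0, 0), [], 5⟩,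
  ⟨⟨1, 0, 0, 0, -1, 0, 0, 0, 1⟩, .nil, (nat_lit 12), (nat_lit 3), (nat_lit 12), (nat_lit 1), (0, 0, 0), [], 11⟩,
  ⟨⟨-1, 0, 1, 0, -1, 0, 0, 0, 1⟩, .nil, (nat_lit 0), (nat_lit 3), (nat_lit 1), (nat_lit 0), (0, 0, 0), [], 10⟩,
  ⟨⟨1, 0, 0, 0, -1, 0, 0, 0, 1⟩, .nil, (nat_lit 12), (nat_lit 3), (nat_lit 12), (nat_lit 1), (0, 0, 0), [], 11⟩,
  ⟨⟨-1, 0, 1, 0, 1, 0, 0, 0, 1⟩, .nil, (nat_lit 12), (nat_lit 1), (nat_lit 4), (nat_lit 1), (0, 0, 0), [], 5⟩,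
  ⟨⟨-1, 0, 1, 0, -1, 0, 0, 0, 1⟩, .nil, (nat_lit 0), (nat_lit 3), (nat_lit 1), (nat_lit 0), (0, 0, 0), [], 10⟩,
  ⟨⟨1, 0, 0, 0, -1, 0, 0, 0, 1⟩, .nil, (nat_lit 12), (nat_lit 3), (nat_lit 12), (nat_lit 1), (0, 0, 0), [], 11⟩]

theorem v_ty : tyb Dm S.ty1 Clm = true := by decide +kernel

theorem v_ty0 : tyb D0 (S.tys.getD 0 0) Cl0 = true := by decide +kernel

theorem v_ty1 : tyb D1 (S.tys.getD 1 0) Cl1 = true := by decide +kernel

theorem v_msc : mscb S D0 [D1] Dm (nat_lit 52) = true := by decide +kernel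

theorem v_mv0 : mvsn (nat_lit 117873694664247769) S D0 [D1] Dm (nat_lit 52) 0 D0 = true := by decide +kernel

theorem v_mv1 : mvsn (nat_lit 117873694664247769) S D0 [D1] Dm (nat_lit 52) 1 D1 = true := by decide +kernel

theorem v_mm : mmsn (nat_lit 117873694664247769) S D0 [D1] Dm (nat_lit 52) = true := by decide +kernel

theorem v_un : unb S D0 (nat_lit 52) U = true := by decide +kernel

theorem v_ok : okb S.oks [(0, 0, 0), (0, 0, 0), (0, 0, 0), (0, 0, 0)] = true := by decide +kernel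

theorem v_part : ∀ d < D0.p, (nat_lit 52).testBit d = true → part S (zc (D0 :: [D1])) d = true := by
  intro d hd h
  have h1 : ∀ d < 13, (nat_lit 52).testBit d = true → d = 2 ∨ d = 4 ∨ d = 5 := by decide
  rcases h1 d hd h with rfl | rfl | rfl
  · exact part_2
  · exact part_4
  · exact part_5

theorem main (n : ℕ) (ho : Odd n) (hr : ¬ Rep n) (h0 : Split 13 n) (h1 : Split 71 n) (hm : Split 31 n) :
    n ∈ EE := by
  refine concln (W := nat_lit 117873694664247769) (S := S) (P0 := D0) (Pl := [D1]) (Pm := Dm) (cn := nat_lit 52) ?_ Dm_ok v_ty ?_ ?_ v_msc ?_ v_mm v_un v_part v_ok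
    n ho hr ?_ hm
  · simp only [List.forall_mem_cons]
    exact ⟨D0_ok, D1_ok, fun _ h => absurd h (by simp)⟩
  · exact all2 (φ := fun j P => ∃ L, tyb P (S.tys.getD j 0) L = true) ⟨_, v_ty0⟩ ⟨_, v_ty1⟩
  · exact all2 (φ := fun j P => Nat.ble (S.pks.getD j 0) (Nat.pow P.p P.K) = true) (by decide +kernel) (by decide +kernel)
  · exact all2 (φ := fun i P => mvsn (nat_lit 117873694664247769) S D0 [D1] Dm (nat_lit 52) i P = true) v_mv0 v_mv1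
  · simp only [List.forall_mem_cons]
    exact ⟨h0, h1, fun _ h => absurd h (by simp)⟩

end Pool.Agent.Work.MP_9954fe_nt.P13_71_31

namespace Pool.Agent.Work.MP_9954fe_nt.P13_53_47

/-- Dummy move. -/
noncomputable def mz : Mv := ⟨⟨0, 0, 0, 0, 0, 0, 0, 0, 0⟩, .nil, (nat_lit 0), (nat_lit 0), (nat_lit 0), (nat_lit 0), (0, 0, 0), [], 0⟩

/-- Moves. -/
noncomputable def t0_2 : List Mv := [
  ⟨⟨-1, -12, 9, 8, 5, 6, 8, -8, -7⟩, (.cons (nat_lit 1124) (nat_lit 173) (nat_lit 1983) (nat_lit 1) (.cons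
 (nat_lit 1142) (nat_lit 1612) (nat_lit 106) (nat_lit 1) .nil)), (nat_lit 18), (nat_lit 30), (nat_lit 6),
 (nat_lit 1), (8, 1, 1), [1400, 1425], 38⟩,
  ⟨⟨9, 4, -16, -8, -5, -6, 8, -8, -7⟩, (.cons (nat_lit 2069) (nat_lit 1980) (nat_lit 385) (nat_lit 1) (.cons
 (nat_lit 159) (nat_lit 393) (nat_lit 2249) (nat_lit 1) .nil)), (nat_lit 1), (nat_lit 8), (nat_lit 10),
 (nat_lit 1), (6, 12, 1), [69, 2073], 40⟩,
  ⟨⟨9, 4, -16, -8, -5, -6, 8, -8, -7⟩, (.cons (nat_lit 2069) (nat_lit 1980) (nat_lit 385) (nat_lit 1) (.cons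
 (nat_lit 159) (nat_lit 393) (nat_lit 2249) (nat_lit 1) .nil)), (nat_lit 1), (nat_lit 8), (nat_lit 10),
 (nat_lit 1), (6, 12, 1), [69, 2073], 40⟩,
  ⟨⟨-1, -12, 9, -8, -5, -6, 8, -8, -7⟩, (.cons (nat_lit 1594) (nat_lit 334) (nat_lit 1902) (nat_lit 1) (.cons
 (nat_lit 2808) (nat_lit 1886) (nat_lit 565) (nat_lit 1) .nil)), (nat_lit 46), (nat_lit 39), (nat_lit 10),
 (nat_lit 1), (8, 12, 1), [1259, 1305], 40⟩,
  ⟨⟨-1, -12, 9, 8, 5, 6, 8, -8, -7⟩, (.cons (nat_lit 1124) (nat_lit 173) (nat_lit 1983) (nat_lit 1) (.cons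
 (nat_lit 1142) (nat_lit 1612) (nat_lit 106) (nat_lit 1) .nil)), (nat_lit 18), (nat_lit 30), (nat_lit 6),
 (nat_lit 1), (8, 1, 1), [1400, 1425], 38⟩,
  ⟨⟨9, 4, -16, 8, 5, 6, 8, -8, -7⟩, (.cons (nat_lit 309) (nat_lit 1036) (nat_lit 1493) (nat_lit 1) (.cons
 (nat_lit 184) (nat_lit 2204) (nat_lit 2055) (nat_lit 1) .nil)), (nat_lit 29), (nat_lit 17), (nat_lit 6),
 (nat_lit 1), (6, 1, 1), [249, 1981], 38⟩,
  ⟨⟨9, 4, -16, 8, 5, 6, 8, -8, -7⟩, (.cons (nat_lit 309) (nat_lit 1036) (nat_lit 1493) (nat_lit 1) (.cons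
 (nat_lit 184) (nat_lit 2204) (nat_lit 2055) (nat_lit 1) .nil)), (nat_lit 29), (nat_lit 17), (nat_lit 6),
 (nat_lit 1), (6, 1, 1), [249, 1981], 38⟩,
  ⟨⟨-1, -12, 9, -8, -5, -6, 8, -8, -7⟩, (.cons (nat_lit 1594) (nat_lit 334) (nat_lit 1902) (nat_lit 1) (.cons
 (nat_lit 2808) (nat_lit 1886) (nat_lit 565) (nat_lit 1) .nil)), (nat_lit 46), (nat_lit 39), (nat_lit 10),
 (nat_lit 1), (8, 12, 1), [1259, 1305], 40⟩,
  ⟨⟨-1, -12, 9, -8, -5, -6, 8, -8, -7⟩, (.cons (nat_lit 1594) (nat_lit 334) (nat_lit 1902) (nat_lit 1) (.cons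
 (nat_lit 2808) (nat_lit 1886) (nat_lit 565) (nat_lit 1) .nil)), (nat_lit 46), (nat_lit 39), (nat_lit 10),
 (nat_lit 1), (8, 12, 1), [1259, 1305], 40⟩,
  ⟨⟨-1, -12, 9, -8, -5, -6, 8, -8, -7⟩, (.cons (nat_lit 1594) (nat_lit 334) (nat_lit 1902) (nat_lit 1) (.cons
 (nat_lit 2808) (nat_lit 1886) (nat_lit 565) (nat_lit 1) .nil)), (nat_lit 46), (nat_lit 39), (nat_lit 10),
 (nat_lit 1), (8, 12, 1), [1259, 1305], 40⟩,
  ⟨⟨-1, -12, 9, 8, 5, 6, 8, -8, -7⟩, (.cons (nat_lit 1124) (nat_lit 173) (nat_lit 1983) (nat_lit 1) (.cons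
 (nat_lit 1142) (nat_lit 1612) (nat_lit 106) (nat_lit 1) .nil)), (nat_lit 18), (nat_lit 30), (nat_lit 6),
 (nat_lit 1), (8, 1, 1), [1400, 1425], 38⟩,
  ⟨⟨-1, -12, 9, -8, -5, -6, 8, -8, -7⟩, (.cons (nat_lit 1594) (nat_lit 334) (nat_lit 1902) (nat_lit 1) (.cons
 (nat_lit 2808) (nat_lit 1886) (nat_lit 565) (nat_lit 1) .nil)), (nat_lit 46), (nat_lit 39), (nat_lit 10),
 (nat_lit 1), (8, 12, 1), [1259, 1305], 40⟩,
  ⟨⟨-1, -12, 9, -8, -5, -6, 8, -8, -7⟩, (.cons (nat_lit 1594) (nat_lit 334) (nat_lit 1902) (nat_lit 1) (.cons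
 (nat_lit 2808) (nat_lit 1886) (nat_lit 565) (nat_lit 1) .nil)), (nat_lit 46), (nat_lit 39), (nat_lit 10),
 (nat_lit 1), (8, 12, 1), [1259, 1305], 40⟩]

/-- Moves. -/
noncomputable def t0_4 : List Mv := [
  ⟨⟨5, 12, -9, -12, 5, 6, 0, 0, -13⟩, (.cons (nat_lit 344) (nat_lit 106) (nat_lit 1760) (nat_lit 1) (.cons
 (nat_lit 425) (nat_lit 1096) (nat_lit 2004) (nat_lit 1) .nil)), (nat_lit 1), (nat_lit 20), (nat_lit 4),
 (nat_lit 1), (12, 5, 0), [1668, 2409], 40⟩,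
  ⟨⟨-5, -12, -4, -12, 5, 6, 0, 0, -13⟩, (.cons (nat_lit 907) (nat_lit 1531) (nat_lit 230) (nat_lit 1) (.cons
 (nat_lit 2808) (nat_lit 2360) (nat_lit 155) (nat_lit 1) .nil)), (nat_lit 46), (nat_lit 27), (nat_lit 4),
 (nat_lit 1), (1, 5, 0), [297, 224], 40⟩,
  ⟨⟨-5, -12, -4, -12, 5, 6, 0, 0, -13⟩, (.cons (nat_lit 907) (nat_lit 1531) (nat_lit 230) (nat_lit 1) (.cons
 (nat_lit 2808) (nat_lit 2360) (nat_lit 155) (nat_lit 1) .nil)), (nat_lit 46), (nat_lit 27), (nat_lit 4),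
 (nat_lit 1), (1, 5, 0), [297, 224], 40⟩,
  ⟨⟨-5, -12, -4, 12, -5, -6, 0, 0, -13⟩, (.cons (nat_lit 391) (nat_lit 1594) (nat_lit 1459) (nat_lit 1) (.cons
 (nat_lit 1061) (nat_lit 355) (nat_lit 1459) (nat_lit 1) .nil)), (nat_lit 1), (nat_lit 12), (nat_lit 40),
 (nat_lit 1), (1, 8, 0), [829, 364], 23⟩,
  ⟨⟨5, 12, -9, 12, -5, -6, 0, 0, -13⟩, (.cons (nat_lit 472) (nat_lit 935) (nat_lit 1769) (nat_lit 1) (.cons
 (nat_lit 2808) (nat_lit 2743) (nat_lit 2561) (nat_lit 1) .nil)), (nat_lit 46), (nat_lit 35), (nat_lit 40),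
 (nat_lit 1), (12, 8, 0), [798, 687], 23⟩,
  ⟨⟨5, 12, -9, 12, -5, -6, 0, 0, -13⟩, (.cons (nat_lit 472) (nat_lit 935) (nat_lit 1769) (nat_lit 1) (.cons
 (nat_lit 2808) (nat_lit 2743) (nat_lit 2561) (nat_lit 1) .nil)), (nat_lit 46), (nat_lit 35), (nat_lit 40),
 (nat_lit 1), (12, 8, 0), [798, 687], 23⟩,
  ⟨⟨5, 12, -9, -12, 5, 6, 0, 0, -13⟩, (.cons (nat_lit 344) (nat_lit 106) (nat_lit 1760) (nat_lit 1) (.cons
 (nat_lit 425) (nat_lit 1096) (nat_lit 2004) (nat_lit 1) .nil)), (nat_lit 1), (nat_lit 20), (nat_lit 4),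
 (nat_lit 1), (12, 5, 0), [1668, 2409], 40⟩,
  ⟨⟨5, 12, -9, 12, -5, -6, 0, 0, -13⟩, (.cons (nat_lit 472) (nat_lit 935) (nat_lit 1769) (nat_lit 1) (.cons
 (nat_lit 2808) (nat_lit 2743) (nat_lit 2561) (nat_lit 1) .nil)), (nat_lit 46), (nat_lit 35), (nat_lit 40),
 (nat_lit 1), (12, 8, 0), [798, 687], 23⟩,
  ⟨⟨5, 12, -9, 12, -5, -6, 0, 0, -13⟩, (.cons (nat_lit 472) (nat_lit 935) (nat_lit 1769) (nat_lit 1) (.cons
 (nat_lit 2808) (nat_lit 2743) (nat_lit 2561) (nat_lit 1) .nil)), (nat_lit 46), (nat_lit 35), (nat_lit 40),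
 (nat_lit 1), (12, 8, 0), [798, 687], 23⟩,
  ⟨⟨-5, -12, -4, 12, -5, -6, 0, 0, -13⟩, (.cons (nat_lit 391) (nat_lit 1594) (nat_lit 1459) (nat_lit 1) (.cons
 (nat_lit 1061) (nat_lit 355) (nat_lit 1459) (nat_lit 1) .nil)), (nat_lit 1), (nat_lit 12), (nat_lit 40),
 (nat_lit 1), (1, 8, 0), [829, 364], 23⟩,
  ⟨⟨5, 12, -9, 12, -5, -6, 0, 0, -13⟩, (.cons (nat_lit 472) (nat_lit 935) (nat_lit 1769) (nat_lit 1) (.cons
 (nat_lit 2808) (nat_lit 2743) (nat_lit 2561) (nat_lit 1) .nil)), (nat_lit 46), (nat_lit 35), (nat_lit 40),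
 (nat_lit 1), (12, 8, 0), [798, 687], 23⟩,
  ⟨⟨5, 12, -9, -12, 5, 6, 0, 0, -13⟩, (.cons (nat_lit 344) (nat_lit 106) (nat_lit 1760) (nat_lit 1) (.cons
 (nat_lit 425) (nat_lit 1096) (nat_lit 2004) (nat_lit 1) .nil)), (nat_lit 1), (nat_lit 20), (nat_lit 4),
 (nat_lit 1), (12, 5, 0), [1668, 2409], 40⟩,
  ⟨⟨5, 12, -9, 12, -5, -6, 0, 0, -13⟩, (.cons (nat_lit 472) (nat_lit 935) (nat_lit 1769) (nat_lit 1) (.cons
 (nat_lit 2808) (nat_lit 2743) (nat_lit 2561) (nat_lit 1) .nil)), (nat_lit 46), (nat_lit 35), (nat_lit 40),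
 (nat_lit 1), (12, 8, 0), [798, 687], 23⟩]

/-- Moves. -/
noncomputable def t0_5 : List Mv := [
  ⟨⟨9, 8, -13, 10, -7, 0, 2, -4, -13⟩, (.cons (nat_lit 174) (nat_lit 316) (nat_lit 1278) (nat_lit 1) (.cons (nat_lit 712) (nat_lit 248) (nat_lit 752) (nat_lit 1) .nil)), (nat_lit 7), (nat_lit 27), (nat_lit 4), (nat_lit 1), (2, 8, 12), [574, 548], 3⟩,
  ⟨⟨9, 8, -13, -10, 7, 0, 2, -4, -13⟩, (.cons (nat_lit 1016) (nat_lit 1868) (nat_lit 945) (nat_lit 1) (.cons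
 (nat_lit 1068) (nat_lit 1736) (nat_lit 1222) (nat_lit 1) .nil)), (nat_lit 1), (nat_lit 12), (nat_lit 2),
 (nat_lit 1), (2, 5, 12), [53, 2304], 17⟩,
  ⟨⟨9, 8, -13, -10, 7, 0, 2, -4, -13⟩, (.cons (nat_lit 1016) (nat_lit 1868) (nat_lit 945) (nat_lit 1) (.cons
 (nat_lit 1068) (nat_lit 1736) (nat_lit 1222) (nat_lit 1) .nil)), (nat_lit 1), (nat_lit 12), (nat_lit 2),
 (nat_lit 1), (2, 5, 12), [53, 2304], 17⟩,
  ⟨⟨9, 8, -13, -10, 7, 0, 2, -4, -13⟩, (.cons (nat_lit 1016) (nat_lit 1868) (nat_lit 945) (nat_lit 1) (.cons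
 (nat_lit 1068) (nat_lit 1736) (nat_lit 1222) (nat_lit 1) .nil)), (nat_lit 1), (nat_lit 12), (nat_lit 2),
 (nat_lit 1), (2, 5, 12), [53, 2304], 17⟩,
  ⟨⟨-7, -12, 0, 10, -7, 0, 2, -4, -13⟩, (.cons (nat_lit 666) (nat_lit 1192) (nat_lit 2190) (nat_lit 1) (.cons
 (nat_lit 296) (nat_lit 2784) (nat_lit 986) (nat_lit 1) .nil)), (nat_lit 40), (nat_lit 20), (nat_lit 4),
 (nat_lit 1), (10, 8, 12), [1975, 1546], 3⟩,
  ⟨⟨9, 8, -13, 10, -7, 0, 2, -4, -13⟩, (.cons (nat_lit 174) (nat_lit 316) (nat_lit 1278) (nat_lit 1) (.cons (nat_lit 712) (nat_lit 248) (nat_lit 752) (nat_lit 1) .nil)), (nat_lit 7), (nat_lit 27), (nat_lit 4), (nat_lit 1), (2, 8, 12), [574, 548], 3⟩,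
  ⟨⟨9, 8, -13, 10, -7, 0, 2, -4, -13⟩, (.cons (nat_lit 174) (nat_lit 316) (nat_lit 1278) (nat_lit 1) (.cons (nat_lit 712) (nat_lit 248) (nat_lit 752) (nat_lit 1) .nil)), (nat_lit 7), (nat_lit 27), (nat_lit 4), (nat_lit 1), (2, 8, 12), [574, 548], 3⟩,
  ⟨⟨9, 8, -13, -10, 7, 0, 2, -4, -13⟩, (.cons (nat_lit 1016) (nat_lit 1868) (nat_lit 945) (nat_lit 1) (.cons
 (nat_lit 1068) (nat_lit 1736) (nat_lit 1222) (nat_lit 1) .nil)), (nat_lit 1), (nat_lit 12), (nat_lit 2),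
 (nat_lit 1), (2, 5, 12), [53, 2304], 17⟩,
  ⟨⟨-7, -12, 0, 10, -7, 0, 2, -4, -13⟩, (.cons (nat_lit 666) (nat_lit 1192) (nat_lit 2190) (nat_lit 1) (.cons
 (nat_lit 296) (nat_lit 2784) (nat_lit 986) (nat_lit 1) .nil)), (nat_lit 40), (nat_lit 20), (nat_lit 4),
 (nat_lit 1), (10, 8, 12), [1975, 1546], 3⟩,
  ⟨⟨-7, -12, 0, -10, 7, 0, 2, -4, -13⟩, (.cons (nat_lit 1329) (nat_lit 1668) (nat_lit 2026) (nat_lit 1) (.cons
 (nat_lit 2808) (nat_lit 2475) (nat_lit 2658) (nat_lit 1) .nil)), (nat_lit 46), (nat_lit 35), (nat_lit 2),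
 (nat_lit 1), (10, 5, 12), [947, 1651], 17⟩,
  ⟨⟨9, 8, -13, -10, 7, 0, 2, -4, -13⟩, (.cons (nat_lit 1016) (nat_lit 1868) (nat_lit 945) (nat_lit 1) (.cons
 (nat_lit 1068) (nat_lit 1736) (nat_lit 1222) (nat_lit 1) .nil)), (nat_lit 1), (nat_lit 12), (nat_lit 2),
 (nat_lit 1), (2, 5, 12), [53, 2304], 17⟩,
  ⟨⟨9, 8, -13, -10, 7, 0, 2, -4, -13⟩, (.cons (nat_lit 1016) (nat_lit 1868) (nat_lit 945) (nat_lit 1) (.cons
 (nat_lit 1068) (nat_lit 1736) (nat_lit 1222) (nat_lit 1) .nil)), (nat_lit 1), (nat_lit 12), (nat_lit 2),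
 (nat_lit 1), (2, 5, 12), [53, 2304], 17⟩,
  ⟨⟨9, 8, -13, -10, 7, 0, 2, -4, -13⟩, (.cons (nat_lit 1016) (nat_lit 1868) (nat_lit 945) (nat_lit 1) (.cons
 (nat_lit 1068) (nat_lit 1736) (nat_lit 1222) (nat_lit 1) .nil)), (nat_lit 1), (nat_lit 12), (nat_lit 2),
 (nat_lit 1), (2, 5, 12), [53, 2304], 17⟩]

/-- Moves. -/
noncomputable def t1_2 : List Mv := [
  mz,
  mz,
  mz,
  mz,
  ⟨⟨51, 20, -47, 10, -47, -30, -2, 20, -47⟩, (.cons (nat_lit 1558) (nat_lit 1986) (nat_lit 1) (nat_lit 572)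
 (.cons (nat_lit 649) (nat_lit 549) (nat_lit 1128) (nat_lit 1) .nil)), (nat_lit 27), (nat_lit 14), (nat_lit
 16), (nat_lit 1), (24, 39, 24), [1420, 2166], 40⟩,
  ⟨⟨51, -20, -47, 10, 47, -30, -2, -20, -47⟩, (.cons (nat_lit 227) (nat_lit 816) (nat_lit 641) (nat_lit 1)
 (.cons (nat_lit 2774) (nat_lit 1863) (nat_lit 2153) (nat_lit 1) .nil)), (nat_lit 1), (nat_lit 34), (nat_lit
 37), (nat_lit 1), (12, 46, 12), [1373, 2631], 22⟩,
  ⟨⟨15, 56, -11, -28, 5, -36, 40, 8, -47⟩, (.cons (nat_lit 1985) (nat_lit 306) (nat_lit 1153) (nat_lit 1)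
 (.cons (nat_lit 2695) (nat_lit 350) (nat_lit 1620) (nat_lit 1) .nil)), (nat_lit 37), (nat_lit 6), (nat_lit 3),
 (nat_lit 1), (1, 37, 38), [938, 2505], 27⟩,
  mz,
  mz,
  ⟨⟨-33, -20, -32, -8, -45, 34, 24, -24, -49⟩, (.cons (nat_lit 1746) (nat_lit 276) (nat_lit 1247) (nat_lit 1)
 (.cons (nat_lit 1145) (nat_lit 1745) (nat_lit 715) (nat_lit 1) .nil)), (nat_lit 30), (nat_lit 26), (nat_lit
 23), (nat_lit 1), (35, 39, 42), [1358, 2143], 24⟩,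
  ⟨⟨-15, -56, 4, 28, -5, -64, -40, -8, -7⟩, (.cons (nat_lit 215) (nat_lit 2029) (nat_lit 1990) (nat_lit 1)
 (.cons (nat_lit 1246) (nat_lit 501) (nat_lit 177) (nat_lit 1) .nil)), (nat_lit 38), (nat_lit 28), (nat_lit
 22), (nat_lit 1), (10, 52, 9), [1632, 352], 37⟩,
  ⟨⟨15, -32, 44, 50, 17, -30, 14, -44, -19⟩, (.cons (nat_lit 801) (nat_lit 375) (nat_lit 875) (nat_lit 1)
 (.cons (nat_lit 2249) (nat_lit 1588) (nat_lit 82) (nat_lit 1) .nil)), (nat_lit 18), (nat_lit 26), (nat_lit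
 41), (nat_lit 1), (29, 26, 20), [660, 1562], 37⟩,
  ⟨⟨-51, 20, 4, 10, 47, 20, 2, 20, -49⟩, (.cons (nat_lit 2196) (nat_lit 2090) (nat_lit 1750) (nat_lit 1) (.cons
 (nat_lit 1810) (nat_lit 1913) (nat_lit 2262) (nat_lit 1) .nil)), (nat_lit 46), (nat_lit 3), (nat_lit 35),
 (nat_lit 1), (48, 28, 48), [348, 464], 22⟩,
  mz,
  mz,
  ⟨⟨-51, -20, 4, 10, -47, 20, 2, -20, -49⟩, (.cons (nat_lit 282) (nat_lit 734) (nat_lit 360) (nat_lit 1) (.cons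
 (nat_lit 1733) (nat_lit 806) (nat_lit 1677) (nat_lit 1) .nil)), (nat_lit 40), (nat_lit 4), (nat_lit 29),
 (nat_lit 1), (36, 21, 36), [1475, 1609], 33⟩,
  ⟨⟨15, 52, 16, 10, 17, -60, 46, 4, -11⟩, (.cons (nat_lit 2103) (nat_lit 1629) (nat_lit 531) (nat_lit 1) (.cons
 (nat_lit 1327) (nat_lit 2140) (nat_lit 995) (nat_lit 1) .nil)), (nat_lit 12), (nat_lit 11), (nat_lit 38),
 (nat_lit 1), (24, 16, 10), [736, 1560], 39⟩,
  ⟨⟨31, -48, -4, 10, 17, 50, 46, 4, -35⟩, (.cons (nat_lit 1613) (nat_lit 1429) (nat_lit 55) (nat_lit 1) (.cons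
 (nat_lit 961) (nat_lit 526) (nat_lit 1160) (nat_lit 1) .nil)), (nat_lit 18), (nat_lit 17), (nat_lit 24),
 (nat_lit 1), (18, 40, 25), [217, 2455], 37⟩,
  ⟨⟨-57, -4, 40, -8, 45, -26, -24, -24, -25⟩, (.cons (nat_lit 1525) (nat_lit 1625) (nat_lit 1940) (nat_lit 1)
 (.cons (nat_lit 504) (nat_lit 282) (nat_lit 1911) (nat_lit 1) .nil)), (nat_lit 1), (nat_lit 2), (nat_lit 35),
 (nat_lit 1), (12, 24, 19), [1083, 930], 9⟩,
  mz,
  mz,
  ⟨⟨57, 4, -17, -8, 45, 34, 24, 24, -49⟩, (.cons (nat_lit 2196) (nat_lit 684) (nat_lit 1161) (nat_lit 1) (.cons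
 (nat_lit 515) (nat_lit 2364) (nat_lit 2301) (nat_lit 1) .nil)), (nat_lit 46), (nat_lit 13), (nat_lit 38),
 (nat_lit 1), (20, 13, 14), [696, 825], 9⟩,
  ⟨⟨45, 28, -49, -28, 45, 14, 0, 0, -53⟩, (.cons (nat_lit 1093) (nat_lit 645) (nat_lit 774) (nat_lit 1) (.cons
 (nat_lit 281) (nat_lit 225) (nat_lit 1305) (nat_lit 1) .nil)), (nat_lit 1), (nat_lit 31), (nat_lit 25),
 (nat_lit 1), (24, 31, 0), [2109, 1208], 38⟩,
  mz,
  ⟨⟨-13, 48, -27, -30, 17, 60, 30, 36, -7⟩, (.cons (nat_lit 1673) (nat_lit 1603) (nat_lit 1708) (nat_lit 1)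
 (.cons (nat_lit 1516) (nat_lit 1300) (nat_lit 1770) (nat_lit 1) .nil)), (nat_lit 1), (nat_lit 28), (nat_lit
 35), (nat_lit 1), (11, 5, 48), [470, 1087], 1⟩,
  mz,
  ⟨⟨-25, -48, -11, 28, 5, -64, -40, 8, -7⟩, (.cons (nat_lit 2047) (nat_lit 1646) (nat_lit 2072) (nat_lit 1)
 (.cons (nat_lit 2156) (nat_lit 1920) (nat_lit 1) (nat_lit 1219) .nil)), (nat_lit 37), (nat_lit 41), (nat_lit
 44), (nat_lit 1), (2, 2, 35), [320, 171], 27⟩,
  mz,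
  ⟨⟨-1, -48, 37, 52, 5, -16, 8, -40, -31⟩, (.cons (nat_lit 2083) (nat_lit 1929) (nat_lit 1819) (nat_lit 1)
 (.cons (nat_lit 2138) (nat_lit 2455) (nat_lit 1434) (nat_lit 1) .nil)), (nat_lit 14), (nat_lit 10), (nat_lit
 5), (nat_lit 1), (29, 29, 33), [1292, 1464], 28⟩,
  ⟨⟨-13, 48, 40, 30, -17, 30, 30, 36, -23⟩, (.cons (nat_lit 2196) (nat_lit 109) (nat_lit 1440) (nat_lit 1)
 (.cons (nat_lit 1192) (nat_lit 2417) (nat_lit 1399) (nat_lit 1) .nil)), (nat_lit 46), (nat_lit 13), (nat_lit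
 15), (nat_lit 1), (42, 5, 5), [1106, 1845], 46⟩,
  mz,
  ⟨⟨45, -28, -49, 28, 45, -14, 0, 0, -53⟩, (.cons (nat_lit 599) (nat_lit 317) (nat_lit 2138) (nat_lit 1) (.cons
 (nat_lit 2384) (nat_lit 372) (nat_lit 1920) (nat_lit 1) .nil)), (nat_lit 1), (nat_lit 16), (nat_lit 22),
 (nat_lit 1), (39, 49, 0), [796, 1179], 38⟩,
  mz,
  ⟨⟨-39, 28, -17, 10, -33, -50, 18, 36, -37⟩, (.cons (nat_lit 573) (nat_lit 918) (nat_lit 1163) (nat_lit 1)
 (.cons (nat_lit 1444) (nat_lit 968) (nat_lit 1303) (nat_lit 1) .nil)), (nat_lit 14), (nat_lit 12), (nat_lit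
 7), (nat_lit 1), (43, 8, 25), [1256, 1428], 44⟩,
  mz,
  mz,
  ⟨⟨1, -48, 36, 52, -5, -36, -8, -40, -23⟩, (.cons (nat_lit 10) (nat_lit 950) (nat_lit 21) (nat_lit 1) (.cons
 (nat_lit 1360) (nat_lit 137) (nat_lit 607) (nat_lit 1) .nil)), (nat_lit 26), (nat_lit 23), (nat_lit 8),
 (nat_lit 1), (41, 12, 43), [63, 338], 8⟩,
  ⟨⟨-1, 48, 37, 52, -5, -16, 8, 40, -31⟩, (.cons (nat_lit 537) (nat_lit 1449) (nat_lit 455) (nat_lit 1) (.cons
 (nat_lit 1052) (nat_lit 1760) (nat_lit 1147) (nat_lit 1) .nil)), (nat_lit 9), (nat_lit 31), (nat_lit 15),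
 (nat_lit 1), (26, 26, 4), [550, 2003], 37⟩,
  ⟨⟨39, 28, -56, -10, -33, -40, -18, 36, -19⟩, (.cons (nat_lit 1089) (nat_lit 1292) (nat_lit 1907) (nat_lit 1)
 (.cons (nat_lit 1911) (nat_lit 2057) (nat_lit 52) (nat_lit 1) .nil)), (nat_lit 33), (nat_lit 12), (nat_lit
 40), (nat_lit 1), (34, 47, 21), [2149, 1689], 44⟩,
  ⟨⟨25, 48, -36, -28, -5, -36, 40, -8, -47⟩, (.cons (nat_lit 1538) (nat_lit 2102) (nat_lit 657) (nat_lit 1)
 (.cons (nat_lit 295) (nat_lit 2777) (nat_lit 840) (nat_lit 1) .nil)), (nat_lit 38), (nat_lit 19), (nat_lit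
 25), (nat_lit 1), (34, 34, 12), [462, 915], 37⟩,
  ⟨⟨1, 48, 36, 52, 5, -36, -8, 40, -23⟩, (.cons (nat_lit 1311) (nat_lit 1035) (nat_lit 1972) (nat_lit 1) (.cons
 (nat_lit 390) (nat_lit 1720) (nat_lit 1335) (nat_lit 1) .nil)), (nat_lit 10), (nat_lit 15), (nat_lit 27),
 (nat_lit 1), (38, 15, 14), [1005, 1952], 27⟩,
  ⟨⟨31, 48, -4, -10, 17, -50, 46, -4, -35⟩, (.cons (nat_lit 96) (nat_lit 1349) (nat_lit 1683) (nat_lit 1)
 (.cons (nat_lit 1055) (nat_lit 332) (nat_lit 1604) (nat_lit 1) .nil)), (nat_lit 34), (nat_lit 9), (nat_lit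
 16), (nat_lit 1), (15, 2, 12), [1264, 572], 2⟩,
  ⟨⟨-57, 4, 40, -8, -45, -26, -24, 24, -25⟩, (.cons (nat_lit 1856) (nat_lit 1842) (nat_lit 1206) (nat_lit 1)
 (.cons (nat_lit 482) (nat_lit 1179) (nat_lit 1885) (nat_lit 1) .nil)), (nat_lit 11), (nat_lit 43), (nat_lit
 29), (nat_lit 1), (25, 50, 44), [223, 14], 37⟩,
  ⟨⟨15, 32, 44, -50, 17, 30, 14, 44, -19⟩, (.cons (nat_lit 79) (nat_lit 1353) (nat_lit 49) (nat_lit 1) (.cons
 (nat_lit 482) (nat_lit 634) (nat_lit 2139) (nat_lit 1) .nil)), (nat_lit 34), (nat_lit 33), (nat_lit 30),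
 (nat_lit 1), (27, 16, 4), [945, 1706], 2⟩,
  ⟨⟨-15, 32, 59, 50, 17, -20, -14, 44, -5⟩, (.cons (nat_lit 2007) (nat_lit 1403) (nat_lit 1784) (nat_lit 1)
 (.cons (nat_lit 891) (nat_lit 482) (nat_lit 2029) (nat_lit 1) .nil)), (nat_lit 13), (nat_lit 33), (nat_lit
 17), (nat_lit 1), (6, 33, 48), [1516, 445], 2⟩,
  mz,
  ⟨⟨43, 12, 20, 30, 17, -60, 30, -36, -7⟩, (.cons (nat_lit 2196) (nat_lit 1151) (nat_lit 234) (nat_lit 1)
 (.cons (nat_lit 1953) (nat_lit 876) (nat_lit 410) (nat_lit 1) .nil)), (nat_lit 46), (nat_lit 34), (nat_lit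
 32), (nat_lit 1), (23, 37, 37), [846, 464], 1⟩,
  ⟨⟨-15, -32, 59, 50, -17, -20, -14, -44, -5⟩, (.cons (nat_lit 1024) (nat_lit 693) (nat_lit 1960) (nat_lit 1)
 (.cons (nat_lit 2375) (nat_lit 609) (nat_lit 1128) (nat_lit 1) .nil)), (nat_lit 35), (nat_lit 45), (nat_lit
 21), (nat_lit 1), (8, 44, 11), [394, 1990], 8⟩,
  ⟨⟨31, 48, -27, -10, 17, 60, 46, -4, -11⟩, (.cons (nat_lit 834) (nat_lit 1316) (nat_lit 450) (nat_lit 1)
 (.cons (nat_lit 1436) (nat_lit 2808) (nat_lit 92) (nat_lit 1) .nil)), (nat_lit 43), (nat_lit 8), (nat_lit 10),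
 (nat_lit 1), (36, 26, 50), [4, 1528], 13⟩,
  ⟨⟨-39, -28, -17, -10, -33, 50, 18, -36, -37⟩, (.cons (nat_lit 1279) (nat_lit 464) (nat_lit 1570) (nat_lit 1)
 (.cons (nat_lit 1516) (nat_lit 1780) (nat_lit 648) (nat_lit 1) .nil)), (nat_lit 37), (nat_lit 21), (nat_lit
 24), (nat_lit 1), (5, 4, 14), [1879, 234], 29⟩,
  ⟨⟨39, -28, -56, 10, -33, 40, -18, -36, -19⟩, (.cons (nat_lit 1850) (nat_lit 136) (nat_lit 432) (nat_lit 1)
 (.cons (nat_lit 1636) (nat_lit 2451) (nat_lit 481) (nat_lit 1) .nil)), (nat_lit 10), (nat_lit 21), (nat_lit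
 23), (nat_lit 1), (49, 18, 10), [675, 2485], 29⟩,
  mz,
  ⟨⟨43, 12, -63, -30, -17, -30, 30, -36, -23⟩, (.cons (nat_lit 1849) (nat_lit 2003) (nat_lit 1194) (nat_lit 1)
 (.cons (nat_lit 2374) (nat_lit 2513) (nat_lit 1923) (nat_lit 1) .nil)), (nat_lit 1), (nat_lit 19), (nat_lit
 12), (nat_lit 1), (2, 6, 47), [996, 1454], 46⟩]

/-- Moves. -/
noncomputable def t1_4 : List Mv := [
  mz,
  mz,
  mz,
  mz,
  ⟨⟨51, 20, -47, -10, 47, 30, -2, 20, -47⟩, (.cons (nat_lit 786) (nat_lit 53) (nat_lit 1496) (nat_lit 1) (.cons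
 (nat_lit 771) (nat_lit 182) (nat_lit 1005) (nat_lit 1) .nil)), (nat_lit 1), (nat_lit 3), (nat_lit 12),
 (nat_lit 1), (24, 14, 24), [1685, 2363], 22⟩,
  ⟨⟨51, -20, -47, 10, 47, -30, -2, -20, -47⟩, (.cons (nat_lit 227) (nat_lit 816) (nat_lit 641) (nat_lit 1)
 (.cons (nat_lit 2774) (nat_lit 1863) (nat_lit 2153) (nat_lit 1) .nil)), (nat_lit 1), (nat_lit 34), (nat_lit
 37), (nat_lit 1), (12, 46, 12), [1373, 2631], 22⟩,
  ⟨⟨25, -48, -36, 28, -5, 36, 40, 8, -47⟩, (.cons (nat_lit 106) (nat_lit 617) (nat_lit 798) (nat_lit 1) (.cons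
 (nat_lit 414) (nat_lit 2791) (nat_lit 967) (nat_lit 1) .nil)), (nat_lit 26), (nat_lit 40), (nat_lit 14),
 (nat_lit 1), (37, 16, 38), [405, 1843], 8⟩,
  mz,
  mz,
  ⟨⟨57, -4, -17, 8, 45, -34, 24, -24, -49⟩, (.cons (nat_lit 2196) (nat_lit 79) (nat_lit 127) (nat_lit 1) (.cons
 (nat_lit 2048) (nat_lit 38) (nat_lit 1794) (nat_lit 1) .nil)), (nat_lit 46), (nat_lit 2), (nat_lit 12),
 (nat_lit 1), (7, 14, 42), [128, 1517], 9⟩,
  ⟨⟨-25, 48, -11, -28, 5, 64, -40, -8, -7⟩, (.cons (nat_lit 523) (nat_lit 1524) (nat_lit 1021) (nat_lit 1)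
 (.cons (nat_lit 204) (nat_lit 1725) (nat_lit 498) (nat_lit 1) .nil)), (nat_lit 14), (nat_lit 22), (nat_lit
 45), (nat_lit 1), (52, 1, 9), [265, 2101], 28⟩,
  ⟨⟨15, -32, 44, 50, 17, -30, 14, -44, -19⟩, (.cons (nat_lit 801) (nat_lit 375) (nat_lit 875) (nat_lit 1)
 (.cons (nat_lit 2249) (nat_lit 1588) (nat_lit 82) (nat_lit 1) .nil)), (nat_lit 18), (nat_lit 26), (nat_lit
 41), (nat_lit 1), (29, 26, 20), [660, 1562], 37⟩,
  ⟨⟨-51, 20, 4, -10, -47, -20, 2, 20, -49⟩, (.cons (nat_lit 1862) (nat_lit 2023) (nat_lit 1962) (nat_lit 1)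
 (.cons (nat_lit 1105) (nat_lit 2442) (nat_lit 2547) (nat_lit 1) .nil)), (nat_lit 20), (nat_lit 14), (nat_lit
 31), (nat_lit 1), (48, 25, 48), [1107, 2352], 40⟩,
  mz,
  mz,
  ⟨⟨-51, -20, 4, 10, -47, 20, 2, -20, -49⟩, (.cons (nat_lit 282) (nat_lit 734) (nat_lit 360) (nat_lit 1) (.cons
 (nat_lit 1733) (nat_lit 806) (nat_lit 1677) (nat_lit 1) .nil)), (nat_lit 40), (nat_lit 4), (nat_lit 29),
 (nat_lit 1), (36, 21, 36), [1475, 1609], 33⟩,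
  ⟨⟨15, 52, 16, 10, 17, -60, 46, 4, -11⟩, (.cons (nat_lit 2103) (nat_lit 1629) (nat_lit 531) (nat_lit 1) (.cons
 (nat_lit 1327) (nat_lit 2140) (nat_lit 995) (nat_lit 1) .nil)), (nat_lit 12), (nat_lit 11), (nat_lit 38),
 (nat_lit 1), (24, 16, 10), [736, 1560], 39⟩,
  ⟨⟨31, -48, -4, -10, -17, -50, 46, 4, -35⟩, (.cons (nat_lit 134) (nat_lit 1705) (nat_lit 1184) (nat_lit 1)
 (.cons (nat_lit 256) (nat_lit 2259) (nat_lit 1541) (nat_lit 1) .nil)), (nat_lit 4), (nat_lit 8), (nat_lit 37),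
 (nat_lit 1), (18, 13, 25), [54, 2297], 34⟩,
  ⟨⟨-57, -4, 40, -8, 45, -26, -24, -24, -25⟩, (.cons (nat_lit 1525) (nat_lit 1625) (nat_lit 1940) (nat_lit 1)
 (.cons (nat_lit 504) (nat_lit 282) (nat_lit 1911) (nat_lit 1) .nil)), (nat_lit 1), (nat_lit 2), (nat_lit 35),
 (nat_lit 1), (12, 24, 19), [1083, 930], 9⟩,
  mz,
  mz,
  ⟨⟨-33, 20, -32, 8, -45, -34, 24, 24, -49⟩, (.cons (nat_lit 1594) (nat_lit 1939) (nat_lit 2088) (nat_lit 1)
 (.cons (nat_lit 28) (nat_lit 1466) (nat_lit 402) (nat_lit 1) .nil)), (nat_lit 11), (nat_lit 4), (nat_lit 18),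
 (nat_lit 1), (47, 40, 14), [2101, 2223], 37⟩,
  ⟨⟨45, 28, -49, -28, 45, 14, 0, 0, -53⟩, (.cons (nat_lit 1093) (nat_lit 645) (nat_lit 774) (nat_lit 1) (.cons
 (nat_lit 281) (nat_lit 225) (nat_lit 1305) (nat_lit 1) .nil)), (nat_lit 1), (nat_lit 31), (nat_lit 25),
 (nat_lit 1), (24, 31, 0), [2109, 1208], 38⟩,
  mz,
  ⟨⟨-13, 48, -27, -30, 17, 60, 30, 36, -7⟩, (.cons (nat_lit 1673) (nat_lit 1603) (nat_lit 1708) (nat_lit 1)
 (.cons (nat_lit 1516) (nat_lit 1300) (nat_lit 1770) (nat_lit 1) .nil)), (nat_lit 1), (nat_lit 28), (nat_lit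
 35), (nat_lit 1), (11, 5, 48), [470, 1087], 1⟩,
  mz,
  ⟨⟨-25, -48, -11, 28, 5, -64, -40, 8, -7⟩, (.cons (nat_lit 2047) (nat_lit 1646) (nat_lit 2072) (nat_lit 1)
 (.cons (nat_lit 2156) (nat_lit 1920) (nat_lit 1) (nat_lit 1219) .nil)), (nat_lit 37), (nat_lit 41), (nat_lit
 44), (nat_lit 1), (2, 2, 35), [320, 171], 27⟩,
  mz,
  ⟨⟨-1, -48, 37, 52, 5, -16, 8, -40, -31⟩, (.cons (nat_lit 2083) (nat_lit 1929) (nat_lit 1819) (nat_lit 1)
 (.cons (nat_lit 2138) (nat_lit 2455) (nat_lit 1434) (nat_lit 1) .nil)), (nat_lit 14), (nat_lit 10), (nat_lit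
 5), (nat_lit 1), (29, 29, 33), [1292, 1464], 28⟩,
  ⟨⟨-13, 48, 40, -30, 17, -30, 30, 36, -23⟩, (.cons (nat_lit 2147) (nat_lit 2022) (nat_lit 1606) (nat_lit 1)
 (.cons (nat_lit 1679) (nat_lit 1827) (nat_lit 1024) (nat_lit 1) .nil)), (nat_lit 34), (nat_lit 43), (nat_lit
 18), (nat_lit 1), (42, 48, 5), [463, 1184], 22⟩,
  mz,
  ⟨⟨45, -28, -49, 28, 45, -14, 0, 0, -53⟩, (.cons (nat_lit 599) (nat_lit 317) (nat_lit 2138) (nat_lit 1) (.cons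
 (nat_lit 2384) (nat_lit 372) (nat_lit 1920) (nat_lit 1) .nil)), (nat_lit 1), (nat_lit 16), (nat_lit 22),
 (nat_lit 1), (39, 49, 0), [796, 1179], 38⟩,
  mz,
  ⟨⟨-39, 28, -17, 10, -33, -50, 18, 36, -37⟩, (.cons (nat_lit 573) (nat_lit 918) (nat_lit 1163) (nat_lit 1)
 (.cons (nat_lit 1444) (nat_lit 968) (nat_lit 1303) (nat_lit 1) .nil)), (nat_lit 14), (nat_lit 12), (nat_lit
 7), (nat_lit 1), (43, 8, 25), [1256, 1428], 44⟩,
  mz,
  mz,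
  ⟨⟨-9, 8, -59, -52, 5, 36, -8, -40, -23⟩, (.cons (nat_lit 1948) (nat_lit 1212) (nat_lit 1830) (nat_lit 1)
 (.cons (nat_lit 55) (nat_lit 1144) (nat_lit 2487) (nat_lit 1) .nil)), (nat_lit 14), (nat_lit 37), (nat_lit
 42), (nat_lit 1), (2, 41, 43), [1410, 2365], 28⟩,
  ⟨⟨-1, 48, 37, -52, 5, 16, 8, 40, -31⟩, (.cons (nat_lit 58) (nat_lit 206) (nat_lit 1878) (nat_lit 1) (.cons
 (nat_lit 2392) (nat_lit 2693) (nat_lit 2146) (nat_lit 1) .nil)), (nat_lit 37), (nat_lit 15), (nat_lit 20),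
 (nat_lit 1), (26, 27, 4), [723, 1482], 27⟩,
  ⟨⟨-57, 8, 37, -10, -33, -40, -18, 36, -19⟩, (.cons (nat_lit 1984) (nat_lit 2164) (nat_lit 466) (nat_lit 1)
 (.cons (nat_lit 1745) (nat_lit 2058) (nat_lit 1273) (nat_lit 1) .nil)), (nat_lit 14), (nat_lit 35), (nat_lit
 40), (nat_lit 1), (40, 47, 21), [357, 101], 44⟩,
  ⟨⟨15, -56, -11, 28, 5, 36, 40, -8, -47⟩, (.cons (nat_lit 947) (nat_lit 451) (nat_lit 1104) (nat_lit 1) (.cons
 (nat_lit 2241) (nat_lit 389) (nat_lit 1705) (nat_lit 1) .nil)), (nat_lit 14), (nat_lit 25), (nat_lit 2),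
 (nat_lit 1), (31, 19, 12), [1085, 889], 28⟩,
  ⟨⟨-9, -8, -59, 52, 5, -36, -8, 40, -23⟩, (.cons (nat_lit 1088) (nat_lit 623) (nat_lit 834) (nat_lit 1) (.cons
 (nat_lit 793) (nat_lit 1430) (nat_lit 1770) (nat_lit 1) .nil)), (nat_lit 37), (nat_lit 32), (nat_lit 27),
 (nat_lit 1), (29, 15, 14), [106, 2207], 27⟩,
  ⟨⟨31, 48, -4, 10, -17, 50, 46, -4, -35⟩, (.cons (nat_lit 416) (nat_lit 684) (nat_lit 1388) (nat_lit 1) (.cons
 (nat_lit 1334) (nat_lit 2711) (nat_lit 2029) (nat_lit 1) .nil)), (nat_lit 12), (nat_lit 36), (nat_lit 9),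
 (nat_lit 1), (15, 51, 12), [193, 737], 8⟩,
  ⟨⟨-57, 4, 40, -8, -45, -26, -24, 24, -25⟩, (.cons (nat_lit 1856) (nat_lit 1842) (nat_lit 1206) (nat_lit 1)
 (.cons (nat_lit 482) (nat_lit 1179) (nat_lit 1885) (nat_lit 1) .nil)), (nat_lit 11), (nat_lit 43), (nat_lit
 29), (nat_lit 1), (25, 50, 44), [223, 14], 37⟩,
  ⟨⟨15, 32, 44, 50, -17, -30, 14, 44, -19⟩, (.cons (nat_lit 1920) (nat_lit 526) (nat_lit 1) (nat_lit 1209)
 (.cons (nat_lit 2239) (nat_lit 416) (nat_lit 2194) (nat_lit 1) .nil)), (nat_lit 4), (nat_lit 44), (nat_lit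
 11), (nat_lit 1), (27, 37, 4), [917, 2460], 34⟩,
  ⟨⟨-15, 32, 59, 50, 17, -20, -14, 44, -5⟩, (.cons (nat_lit 2007) (nat_lit 1403) (nat_lit 1784) (nat_lit 1)
 (.cons (nat_lit 891) (nat_lit 482) (nat_lit 2029) (nat_lit 1) .nil)), (nat_lit 13), (nat_lit 33), (nat_lit
 17), (nat_lit 1), (6, 33, 48), [1516, 445], 2⟩,
  mz,
  ⟨⟨-13, -48, -27, 30, 17, -60, 30, -36, -7⟩, (.cons (nat_lit 958) (nat_lit 1363) (nat_lit 848) (nat_lit 1)
 (.cons (nat_lit 774) (nat_lit 1255) (nat_lit 2260) (nat_lit 1) .nil)), (nat_lit 1), (nat_lit 13), (nat_lit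
 32), (nat_lit 1), (14, 37, 37), [522, 1564], 1⟩,
  ⟨⟨-15, -32, 59, -50, 17, 20, -14, -44, -5⟩, (.cons (nat_lit 1575) (nat_lit 2102) (nat_lit 767) (nat_lit 1)
 (.cons (nat_lit 1303) (nat_lit 2501) (nat_lit 2749) (nat_lit 1) .nil)), (nat_lit 29), (nat_lit 26), (nat_lit
 6), (nat_lit 1), (8, 9, 11), [1705, 2486], 37⟩,
  ⟨⟨15, -52, 16, -10, 17, 60, 46, -4, -11⟩, (.cons (nat_lit 964) (nat_lit 242) (nat_lit 1) (nat_lit 1053)
 (.cons (nat_lit 1467) (nat_lit 2250) (nat_lit 1849) (nat_lit 1) .nil)), (nat_lit 4), (nat_lit 39), (nat_lit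
 10), (nat_lit 1), (14, 26, 50), [2101, 1463], 13⟩,
  ⟨⟨57, -8, -20, 10, 33, -50, 18, -36, -37⟩, (.cons (nat_lit 2196) (nat_lit 1920) (nat_lit 1887) (nat_lit 1)
 (.cons (nat_lit 1909) (nat_lit 2310) (nat_lit 384) (nat_lit 1) .nil)), (nat_lit 46), (nat_lit 45), (nat_lit
 4), (nat_lit 1), (9, 49, 14), [1176, 296], 5⟩,
  ⟨⟨39, -28, -56, -10, 33, -40, -18, -36, -19⟩, (.cons (nat_lit 2196) (nat_lit 635) (nat_lit 242) (nat_lit 1)
 (.cons (nat_lit 1760) (nat_lit 1943) (nat_lit 2452) (nat_lit 1) .nil)), (nat_lit 46), (nat_lit 2), (nat_lit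
 43), (nat_lit 1), (49, 35, 10), [284, 1221], 5⟩,
  mz,
  ⟨⟨43, 12, -63, -30, -17, -30, 30, -36, -23⟩, (.cons (nat_lit 1849) (nat_lit 2003) (nat_lit 1194) (nat_lit 1)
 (.cons (nat_lit 2374) (nat_lit 2513) (nat_lit 1923) (nat_lit 1) .nil)), (nat_lit 1), (nat_lit 19), (nat_lit
 12), (nat_lit 1), (2, 6, 47), [996, 1454], 46⟩]

/-- Moves. -/
noncomputable def t1_5 : List Mv := [
  mz,
  mz,
  mz,
  mz,
  ⟨⟨51, 20, -47, 10, -47, -30, -2, 20, -47⟩, (.cons (nat_lit 1558) (nat_lit 1986) (nat_lit 1) (nat_lit 572)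
 (.cons (nat_lit 649) (nat_lit 549) (nat_lit 1128) (nat_lit 1) .nil)), (nat_lit 27), (nat_lit 14), (nat_lit
 16), (nat_lit 1), (24, 39, 24), [1420, 2166], 40⟩,
  ⟨⟨51, -20, -47, 10, 47, -30, -2, -20, -47⟩, (.cons (nat_lit 227) (nat_lit 816) (nat_lit 641) (nat_lit 1)
 (.cons (nat_lit 2774) (nat_lit 1863) (nat_lit 2153) (nat_lit 1) .nil)), (nat_lit 1), (nat_lit 34), (nat_lit
 37), (nat_lit 1), (12, 46, 12), [1373, 2631], 22⟩,
  ⟨⟨15, 56, -11, -28, 5, -36, 40, 8, -47⟩, (.cons (nat_lit 1985) (nat_lit 306) (nat_lit 1153) (nat_lit 1)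
 (.cons (nat_lit 2695) (nat_lit 350) (nat_lit 1620) (nat_lit 1) .nil)), (nat_lit 37), (nat_lit 6), (nat_lit 3),
 (nat_lit 1), (1, 37, 38), [938, 2505], 27⟩,
  mz,
  mz,
  ⟨⟨-33, -20, -32, -8, -45, 34, 24, -24, -49⟩, (.cons (nat_lit 1746) (nat_lit 276) (nat_lit 1247) (nat_lit 1)
 (.cons (nat_lit 1145) (nat_lit 1745) (nat_lit 715) (nat_lit 1) .nil)), (nat_lit 30), (nat_lit 26), (nat_lit
 23), (nat_lit 1), (35, 39, 42), [1358, 2143], 24⟩,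
  ⟨⟨-25, 48, -11, 28, -5, -64, -40, -8, -7⟩, (.cons (nat_lit 264) (nat_lit 936) (nat_lit 557) (nat_lit 1)
 (.cons (nat_lit 1455) (nat_lit 2755) (nat_lit 1785) (nat_lit 1) .nil)), (nat_lit 9), (nat_lit 19), (nat_lit
 22), (nat_lit 1), (52, 52, 9), [823, 2339], 37⟩,
  ⟨⟨-1, -12, -63, -50, -17, 30, 14, -44, -19⟩, (.cons (nat_lit 1736) (nat_lit 304) (nat_lit 932) (nat_lit 1)
 (.cons (nat_lit 561) (nat_lit 2408) (nat_lit 2506) (nat_lit 1) .nil)), (nat_lit 35), (nat_lit 2), (nat_lit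
 26), (nat_lit 1), (44, 27, 20), [155, 155], 8⟩,
  ⟨⟨-51, 20, 4, -10, -47, -20, 2, 20, -49⟩, (.cons (nat_lit 1862) (nat_lit 2023) (nat_lit 1962) (nat_lit 1)
 (.cons (nat_lit 1105) (nat_lit 2442) (nat_lit 2547) (nat_lit 1) .nil)), (nat_lit 20), (nat_lit 14), (nat_lit
 31), (nat_lit 1), (48, 25, 48), [1107, 2352], 40⟩,
  mz,
  mz,
  ⟨⟨53, 0, -53, -10, 47, -20, 2, -20, -49⟩, (.cons (nat_lit 271) (nat_lit 761) (nat_lit 2049) (nat_lit 1)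
 (.cons (nat_lit 1549) (nat_lit 203) (nat_lit 331) (nat_lit 1) .nil)), (nat_lit 1), (nat_lit 13), (nat_lit 10),
 (nat_lit 1), (0, 32, 36), [981, 1037], 22⟩,
  ⟨⟨15, 52, 16, -10, -17, 60, 46, 4, -11⟩, (.cons (nat_lit 833) (nat_lit 1296) (nat_lit 1980) (nat_lit 1)
 (.cons (nat_lit 713) (nat_lit 742) (nat_lit 1533) (nat_lit 1) .nil)), (nat_lit 34), (nat_lit 38), (nat_lit
 31), (nat_lit 1), (24, 37, 10), [1057, 872], 45⟩,
  ⟨⟨15, 52, -31, 10, 17, 50, 46, 4, -35⟩, (.cons (nat_lit 1191) (nat_lit 944) (nat_lit 1952) (nat_lit 1) (.cons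
 (nat_lit 200) (nat_lit 580) (nat_lit 1185) (nat_lit 1) .nil)), (nat_lit 29), (nat_lit 30), (nat_lit 24),
 (nat_lit 1), (7, 40, 25), [187, 1105], 37⟩,
  ⟨⟨33, -20, -65, 8, -45, 26, -24, -24, -25⟩, (.cons (nat_lit 987) (nat_lit 1551) (nat_lit 1) (nat_lit 2119)
 (.cons (nat_lit 2751) (nat_lit 546) (nat_lit 2318) (nat_lit 1) .nil)), (nat_lit 17), (nat_lit 26), (nat_lit
 24), (nat_lit 1), (7, 29, 19), [854, 1173], 24⟩,
  mz,
  mz,
  ⟨⟨57, 4, -17, -8, 45, 34, 24, 24, -49⟩, (.cons (nat_lit 2196) (nat_lit 684) (nat_lit 1161) (nat_lit 1) (.cons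
 (nat_lit 515) (nat_lit 2364) (nat_lit 2301) (nat_lit 1) .nil)), (nat_lit 46), (nat_lit 13), (nat_lit 38),
 (nat_lit 1), (20, 13, 14), [696, 825], 9⟩,
  ⟨⟨45, 28, -49, 28, -45, -14, 0, 0, -53⟩, (.cons (nat_lit 2196) (nat_lit 1037) (nat_lit 1782) (nat_lit 1)
 (.cons (nat_lit 358) (nat_lit 1201) (nat_lit 2700) (nat_lit 1) .nil)), (nat_lit 46), (nat_lit 15), (nat_lit
 44), (nat_lit 1), (24, 22, 0), [1705, 2053], 29⟩,
  mz,
  ⟨⟨-13, 48, -27, 30, -17, -60, 30, 36, -7⟩, (.cons (nat_lit 271) (nat_lit 1647) (nat_lit 738) (nat_lit 1)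
 (.cons (nat_lit 882) (nat_lit 673) (nat_lit 745) (nat_lit 1) .nil)), (nat_lit 29), (nat_lit 25), (nat_lit 42),
 (nat_lit 1), (11, 48, 48), [1340, 501], 16⟩,
  mz,
  ⟨⟨-25, -48, -11, 28, 5, -64, -40, 8, -7⟩, (.cons (nat_lit 2047) (nat_lit 1646) (nat_lit 2072) (nat_lit 1)
 (.cons (nat_lit 2156) (nat_lit 1920) (nat_lit 1) (nat_lit 1219) .nil)), (nat_lit 37), (nat_lit 41), (nat_lit
 44), (nat_lit 1), (2, 2, 35), [320, 171], 27⟩,
  mz,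
  ⟨⟨9, 8, -68, -52, -5, 16, 8, -40, -31⟩, (.cons (nat_lit 327) (nat_lit 11) (nat_lit 1779) (nat_lit 1) (.cons
 (nat_lit 1850) (nat_lit 2136) (nat_lit 1722) (nat_lit 1) .nil)), (nat_lit 26), (nat_lit 24), (nat_lit 39),
 (nat_lit 1), (4, 24, 33), [418, 2170], 8⟩,
  ⟨⟨43, -12, -63, -30, 17, -30, 30, 36, -23⟩, (.cons (nat_lit 227) (nat_lit 1818) (nat_lit 1643) (nat_lit 1)
 (.cons (nat_lit 470) (nat_lit 618) (nat_lit 2144) (nat_lit 1) .nil)), (nat_lit 13), (nat_lit 4), (nat_lit 18),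
 (nat_lit 1), (16, 48, 5), [653, 1326], 22⟩,
  mz,
  ⟨⟨45, -28, -49, 28, 45, -14, 0, 0, -53⟩, (.cons (nat_lit 599) (nat_lit 317) (nat_lit 2138) (nat_lit 1) (.cons
 (nat_lit 2384) (nat_lit 372) (nat_lit 1920) (nat_lit 1) .nil)), (nat_lit 1), (nat_lit 16), (nat_lit 22),
 (nat_lit 1), (39, 49, 0), [796, 1179], 38⟩,
  mz,
  ⟨⟨-39, 28, -17, 10, -33, -50, 18, 36, -37⟩, (.cons (nat_lit 573) (nat_lit 918) (nat_lit 1163) (nat_lit 1)
 (.cons (nat_lit 1444) (nat_lit 968) (nat_lit 1303) (nat_lit 1) .nil)), (nat_lit 14), (nat_lit 12), (nat_lit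
 7), (nat_lit 1), (43, 8, 25), [1256, 1428], 44⟩,
  mz,
  mz,
  ⟨⟨-9, 8, -59, 52, -5, -36, -8, -40, -23⟩, (.cons (nat_lit 491) (nat_lit 1794) (nat_lit 1138) (nat_lit 1)
 (.cons (nat_lit 2549) (nat_lit 711) (nat_lit 610) (nat_lit 1) .nil)), (nat_lit 21), (nat_lit 24), (nat_lit 8),
 (nat_lit 1), (2, 12, 43), [790, 1425], 8⟩,
  ⟨⟨-1, 48, 37, 52, -5, -16, 8, 40, -31⟩, (.cons (nat_lit 537) (nat_lit 1449) (nat_lit 455) (nat_lit 1) (.cons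
 (nat_lit 1052) (nat_lit 1760) (nat_lit 1147) (nat_lit 1) .nil)), (nat_lit 9), (nat_lit 31), (nat_lit 15),
 (nat_lit 1), (26, 26, 4), [550, 2003], 37⟩,
  ⟨⟨-57, 8, 37, -10, -33, -40, -18, 36, -19⟩, (.cons (nat_lit 1984) (nat_lit 2164) (nat_lit 466) (nat_lit 1)
 (.cons (nat_lit 1745) (nat_lit 2058) (nat_lit 1273) (nat_lit 1) .nil)), (nat_lit 14), (nat_lit 35), (nat_lit
 40), (nat_lit 1), (40, 47, 21), [357, 101], 44⟩,
  ⟨⟨25, 48, -36, 28, 5, 36, 40, -8, -47⟩, (.cons (nat_lit 305) (nat_lit 693) (nat_lit 518) (nat_lit 1) (.cons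
 (nat_lit 1869) (nat_lit 804) (nat_lit 321) (nat_lit 1) .nil)), (nat_lit 33), (nat_lit 22), (nat_lit 2),
 (nat_lit 1), (34, 19, 12), [1184, 2213], 28⟩,
  ⟨⟨-9, -8, -59, 52, 5, -36, -8, 40, -23⟩, (.cons (nat_lit 1088) (nat_lit 623) (nat_lit 834) (nat_lit 1) (.cons
 (nat_lit 793) (nat_lit 1430) (nat_lit 1770) (nat_lit 1) .nil)), (nat_lit 37), (nat_lit 32), (nat_lit 27),
 (nat_lit 1), (29, 15, 14), [106, 2207], 27⟩,
  ⟨⟨31, 48, -4, 10, -17, 50, 46, -4, -35⟩, (.cons (nat_lit 416) (nat_lit 684) (nat_lit 1388) (nat_lit 1) (.cons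
 (nat_lit 1334) (nat_lit 2711) (nat_lit 2029) (nat_lit 1) .nil)), (nat_lit 12), (nat_lit 36), (nat_lit 9),
 (nat_lit 1), (15, 51, 12), [193, 737], 8⟩,
  ⟨⟨33, 20, -65, -8, -45, -26, -24, 24, -25⟩, (.cons (nat_lit 247) (nat_lit 940) (nat_lit 1665) (nat_lit 1)
 (.cons (nat_lit 1583) (nat_lit 1834) (nat_lit 1887) (nat_lit 1) .nil)), (nat_lit 36), (nat_lit 4), (nat_lit
 29), (nat_lit 1), (19, 50, 44), [1738, 1513], 37⟩,
  ⟨⟨15, 32, 44, 50, -17, -30, 14, 44, -19⟩, (.cons (nat_lit 1920) (nat_lit 526) (nat_lit 1) (nat_lit 1209)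
 (.cons (nat_lit 2239) (nat_lit 416) (nat_lit 2194) (nat_lit 1) .nil)), (nat_lit 4), (nat_lit 44), (nat_lit
 11), (nat_lit 1), (27, 37, 4), [917, 2460], 34⟩,
  ⟨⟨1, 12, -64, -50, -17, 20, -14, 44, -5⟩, (.cons (nat_lit 1005) (nat_lit 1817) (nat_lit 216) (nat_lit 1)
 (.cons (nat_lit 1187) (nat_lit 1178) (nat_lit 104) (nat_lit 1) .nil)), (nat_lit 4), (nat_lit 3), (nat_lit 36),
 (nat_lit 1), (42, 20, 48), [717, 2271], 34⟩,
  mz,
  ⟨⟨43, 12, 20, 30, 17, -60, 30, -36, -7⟩, (.cons (nat_lit 2196) (nat_lit 1151) (nat_lit 234) (nat_lit 1)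
 (.cons (nat_lit 1953) (nat_lit 876) (nat_lit 410) (nat_lit 1) .nil)), (nat_lit 46), (nat_lit 34), (nat_lit
 32), (nat_lit 1), (23, 37, 37), [846, 464], 1⟩,
  ⟨⟨1, -12, -64, -50, 17, 20, -14, -44, -5⟩, (.cons (nat_lit 1535) (nat_lit 1122) (nat_lit 1348) (nat_lit 1)
 (.cons (nat_lit 320) (nat_lit 1629) (nat_lit 179) (nat_lit 1) .nil)), (nat_lit 18), (nat_lit 21), (nat_lit 6),
 (nat_lit 1), (3, 9, 11), [360, 1944], 37⟩,
  ⟨⟨15, -52, 16, 10, -17, -60, 46, -4, -11⟩, (.cons (nat_lit 1672) (nat_lit 859) (nat_lit 603) (nat_lit 1)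
 (.cons (nat_lit 1105) (nat_lit 1901) (nat_lit 1002) (nat_lit 1) .nil)), (nat_lit 18), (nat_lit 30), (nat_lit
 23), (nat_lit 1), (14, 27, 50), [1667, 805], 10⟩,
  ⟨⟨-39, -28, -17, -10, -33, 50, 18, -36, -37⟩, (.cons (nat_lit 1279) (nat_lit 464) (nat_lit 1570) (nat_lit 1)
 (.cons (nat_lit 1516) (nat_lit 1780) (nat_lit 648) (nat_lit 1) .nil)), (nat_lit 37), (nat_lit 21), (nat_lit
 24), (nat_lit 1), (5, 4, 14), [1879, 234], 29⟩,
  ⟨⟨39, -28, -56, -10, 33, -40, -18, -36, -19⟩, (.cons (nat_lit 2196) (nat_lit 635) (nat_lit 242) (nat_lit 1)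
 (.cons (nat_lit 1760) (nat_lit 1943) (nat_lit 2452) (nat_lit 1) .nil)), (nat_lit 46), (nat_lit 2), (nat_lit
 43), (nat_lit 1), (49, 35, 10), [284, 1221], 5⟩,
  mz,
  ⟨⟨43, 12, -63, -30, -17, -30, 30, -36, -23⟩, (.cons (nat_lit 1849) (nat_lit 2003) (nat_lit 1194) (nat_lit 1)
 (.cons (nat_lit 2374) (nat_lit 2513) (nat_lit 1923) (nat_lit 1) .nil)), (nat_lit 1), (nat_lit 19), (nat_lit
 12), (nat_lit 1), (2, 6, 47), [996, 1454], 46⟩]

/-- Moves. -/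
noncomputable def t4_2 : List Mv := [
  mz,
  ⟨⟨-25, 12, -36, 22, -35, -36, 20, 28, -37⟩, (.cons (nat_lit 1930) (nat_lit 361) (nat_lit 848) (nat_lit 1)
 (.cons (nat_lit 450) (nat_lit 2105) (nat_lit 2243) (nat_lit 1) .nil)), (nat_lit 2), (nat_lit 0), (nat_lit 0),
 (nat_lit 0), (2, 2, 36), [1427, 1527], 0⟩,
  ⟨⟨21, -32, -49, 2, 35, -36, -28, -20, -13⟩, (.cons (nat_lit 1531) (nat_lit 513) (nat_lit 828) (nat_lit 1)
 (.cons (nat_lit 674) (nat_lit 1959) (nat_lit 2802) (nat_lit 1) .nil)), (nat_lit 5), (nat_lit 0), (nat_lit 0),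
 (nat_lit 0), (33, 30, 3), [313, 780], 0⟩,
  ⟨⟨-51, 4, 19, -2, -45, -14, -12, 12, -37⟩, (.cons (nat_lit 1947) (nat_lit 712) (nat_lit 1) (nat_lit 1521)
 (.cons (nat_lit 965) (nat_lit 2738) (nat_lit 2168) (nat_lit 1) .nil)), (nat_lit 33), (nat_lit 0), (nat_lit 0),
 (nat_lit 0), (7, 27, 21), [1861, 957], 0⟩,
  mz,
  ⟨⟨25, -12, -61, 22, -35, 14, -20, -28, -17⟩, (.cons (nat_lit 554) (nat_lit 1026) (nat_lit 378) (nat_lit 1)
 (.cons (nat_lit 1368) (nat_lit 2340) (nat_lit 1505) (nat_lit 1) .nil)), (nat_lit 21), (nat_lit 0), (nat_lit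
 0), (nat_lit 0), (9, 38, 21), [267, 114], 0⟩,
  mz,
  mz,
  mz,
  ⟨⟨27, 32, -47, -40, 17, 0, 10, -16, -47⟩, (.cons (nat_lit 1941) (nat_lit 1820) (nat_lit 900) (nat_lit 1)
 (.cons (nat_lit 2711) (nat_lit 2721) (nat_lit 1923) (nat_lit 1) .nil)), (nat_lit 38), (nat_lit 0), (nat_lit
 0), (nat_lit 0), (43, 39, 2), [1970, 548], 0⟩,
  mz,
  ⟨⟨-27, -32, -20, -40, 17, 40, -10, 16, -37⟩, (.cons (nat_lit 2196) (nat_lit 177) (nat_lit 1655) (nat_lit 1)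
 (.cons (nat_lit 2808) (nat_lit 1363) (nat_lit 1672) (nat_lit 1) .nil)), (nat_lit 11), (nat_lit 0), (nat_lit
 0), (nat_lit 0), (46, 2, 24), [607, 2749], 0⟩,
  ⟨⟨17, -36, -45, 20, -23, 30, 38, 8, -37⟩, (.cons (nat_lit 912) (nat_lit 1284) (nat_lit 621) (nat_lit 1)
 (.cons (nat_lit 1509) (nat_lit 1776) (nat_lit 2193) (nat_lit 1) .nil)), (nat_lit 16), (nat_lit 0), (nat_lit
 0), (nat_lit 0), (19, 3, 1), [758, 2104], 0⟩,
  mz,
  ⟨⟨-51, -4, 19, -2, 45, -14, -12, -12, -37⟩, (.cons (nat_lit 860) (nat_lit 1504) (nat_lit 693) (nat_lit 1)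
 (.cons (nat_lit 75) (nat_lit 2535) (nat_lit 2103) (nat_lit 1) .nil)), (nat_lit 33), (nat_lit 0), (nat_lit 0),
 (nat_lit 0), (25, 36, 28), [599, 1581], 0⟩,
  ⟨⟨9, 4, -61, 40, 23, -10, 22, -32, -29⟩, (.cons (nat_lit 255) (nat_lit 979) (nat_lit 1162) (nat_lit 1) (.cons
 (nat_lit 2557) (nat_lit 2620) (nat_lit 290) (nat_lit 1) .nil)), (nat_lit 35), (nat_lit 0), (nat_lit 0),
 (nat_lit 0), (18, 33, 44), [86, 2418], 0⟩,
  ⟨⟨-13, 36, 45, 40, 23, -30, -22, 32, -7⟩, (.cons (nat_lit 343) (nat_lit 2012) (nat_lit 674) (nat_lit 1)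
 (.cons (nat_lit 1162) (nat_lit 678) (nat_lit 1062) (nat_lit 1) .nil)), (nat_lit 27), (nat_lit 0), (nat_lit 0),
 (nat_lit 0), (5, 28, 41), [1773, 2383], 0⟩,
  mz,
  ⟨⟨23, 0, 40, 0, -47, 0, 42, 0, -23⟩, (.cons (nat_lit 2196) (nat_lit 2065) (nat_lit 1589) (nat_lit 1) (.cons
 (nat_lit 2808) (nat_lit 738) (nat_lit 415) (nat_lit 1) .nil)), (nat_lit 18), (nat_lit 0), (nat_lit 0),
 (nat_lit 0), (7, 0, 23), [170, 1388], 0⟩,
  ⟨⟨45, -8, -49, 20, 33, 20, 6, 24, -41⟩, (.cons (nat_lit 1511) (nat_lit 2042) (nat_lit 193) (nat_lit 1) (.cons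
 (nat_lit 1773) (nat_lit 1644) (nat_lit 1088) (nat_lit 1) .nil)), (nat_lit 28), (nat_lit 0), (nat_lit 0),
 (nat_lit 0), (29, 39, 7), [1559, 771], 0⟩,
  ⟨⟨17, -36, 28, 20, -23, -50, 38, 8, -1⟩, (.cons (nat_lit 1894) (nat_lit 1828) (nat_lit 374) (nat_lit 1)
 (.cons (nat_lit 1530) (nat_lit 2585) (nat_lit 1735) (nat_lit 1) .nil)), (nat_lit 16), (nat_lit 0), (nat_lit
 0), (nat_lit 0), (2, 30, 10), [1876, 838], 0⟩,
  ⟨⟨21, 32, -49, -2, 35, 36, -28, 20, -13⟩, (.cons (nat_lit 408) (nat_lit 1918) (nat_lit 360) (nat_lit 1)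
 (.cons (nat_lit 55) (nat_lit 1992) (nat_lit 186) (nat_lit 1) .nil)), (nat_lit 46), (nat_lit 0), (nat_lit 0),
 (nat_lit 0), (30, 24, 7), [1270, 1297], 0⟩,
  ⟨⟨-39, -32, 8, -20, 33, -20, 6, -24, -41⟩, (.cons (nat_lit 2196) (nat_lit 980) (nat_lit 231) (nat_lit 1)
 (.cons (nat_lit 2808) (nat_lit 730) (nat_lit 864) (nat_lit 1) .nil)), (nat_lit 22), (nat_lit 0), (nat_lit 0),
 (nat_lit 0), (28, 24, 21), [164, 2299], 0⟩,
  mz,
  mz,
  ⟨⟨-45, 8, -4, 20, 33, -40, -6, -24, -35⟩, (.cons (nat_lit 2196) (nat_lit 722) (nat_lit 1352) (nat_lit 1)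
 (.cons (nat_lit 2808) (nat_lit 525) (nat_lit 1775) (nat_lit 1) .nil)), (nat_lit 25), (nat_lit 0), (nat_lit 0),
 (nat_lit 0), (40, 24, 21), [1136, 2565], 0⟩,
  ⟨⟨-21, 32, -28, -2, -35, -34, 28, 20, -41⟩, (.cons (nat_lit 331) (nat_lit 1434) (nat_lit 430) (nat_lit 1)
 (.cons (nat_lit 768) (nat_lit 1206) (nat_lit 570) (nat_lit 1) .nil)), (nat_lit 5), (nat_lit 0), (nat_lit 0),
 (nat_lit 0), (30, 23, 7), [335, 43], 0⟩,
  ⟨⟨17, 36, -45, 20, 23, 30, 38, -8, -37⟩, (.cons (nat_lit 1217) (nat_lit 1051) (nat_lit 1420) (nat_lit 1)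
 (.cons (nat_lit 278) (nat_lit 2528) (nat_lit 2518) (nat_lit 1) .nil)), (nat_lit 16), (nat_lit 0), (nat_lit 0),
 (nat_lit 0), (45, 17, 37), [2153, 1305], 0⟩,
  ⟨⟨39, 32, -31, -20, 33, 40, -6, 24, -35⟩, (.cons (nat_lit 490) (nat_lit 1252) (nat_lit 2098) (nat_lit 1)
 (.cons (nat_lit 1738) (nat_lit 2290) (nat_lit 2322) (nat_lit 1) .nil)), (nat_lit 19), (nat_lit 0), (nat_lit
 0), (nat_lit 0), (25, 39, 7), [2025, 2714], 0⟩,
  ⟨⟨19, 0, 44, 0, -47, 0, 42, 0, -19⟩, (.cons (nat_lit 2196) (nat_lit 594) (nat_lit 895) (nat_lit 1) (.cons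
 (nat_lit 2808) (nat_lit 1245) (nat_lit 1608) (nat_lit 1) .nil)), (nat_lit 29), (nat_lit 0), (nat_lit 0),
 (nat_lit 0), (31, 0, 24), [2021, 906], 0⟩,
  mz,
  ⟨⟨9, -4, -61, 40, -23, -10, 22, 32, -29⟩, (.cons (nat_lit 1361) (nat_lit 1890) (nat_lit 2195) (nat_lit 1)
 (.cons (nat_lit 457) (nat_lit 2081) (nat_lit 2434) (nat_lit 1) .nil)), (nat_lit 35), (nat_lit 0), (nat_lit 0),
 (nat_lit 0), (36, 19, 41), [43, 481], 0⟩,
  ⟨⟨-9, 4, -52, 40, -23, -30, -22, -32, -7⟩, (.cons (nat_lit 1031) (nat_lit 285) (nat_lit 2062) (nat_lit 1)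
 (.cons (nat_lit 1225) (nat_lit 1223) (nat_lit 2240) (nat_lit 1) .nil)), (nat_lit 20), (nat_lit 0), (nat_lit
 0), (nat_lit 0), (18, 14, 44), [317, 88], 0⟩,
  ⟨⟨-39, -8, -17, -2, -45, 16, 12, -12, -49⟩, (.cons (nat_lit 1690) (nat_lit 38) (nat_lit 1907) (nat_lit 1)
 (.cons (nat_lit 294) (nat_lit 1211) (nat_lit 251) (nat_lit 1) .nil)), (nat_lit 3), (nat_lit 0), (nat_lit 0),
 (nat_lit 0), (3, 11, 28), [214, 2629], 0⟩,
  mz,
  ⟨⟨17, 36, 28, 20, 23, -50, 38, -8, -1⟩, (.cons (nat_lit 1424) (nat_lit 1177) (nat_lit 2083) (nat_lit 1)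
 (.cons (nat_lit 215) (nat_lit 291) (nat_lit 2196) (nat_lit 1) .nil)), (nat_lit 16), (nat_lit 0), (nat_lit 0),
 (nat_lit 0), (28, 44, 46), [203, 1995], 0⟩,
  ⟨⟨27, -32, -47, -40, -17, 0, 10, 16, -47⟩, (.cons (nat_lit 1349) (nat_lit 1127) (nat_lit 2064) (nat_lit 1)
 (.cons (nat_lit 403) (nat_lit 903) (nat_lit 1726) (nat_lit 1) .nil)), (nat_lit 38), (nat_lit 0), (nat_lit 0),
 (nat_lit 0), (46, 45, 24), [985, 2023], 0⟩,
  mz,
  ⟨⟨17, -48, -17, -40, -17, 40, -10, -16, -37⟩, (.cons (nat_lit 1070) (nat_lit 263) (nat_lit 1702) (nat_lit 1)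
 (.cons (nat_lit 1171) (nat_lit 1580) (nat_lit 1334) (nat_lit 1) .nil)), (nat_lit 36), (nat_lit 0), (nat_lit
 0), (nat_lit 0), (6, 8, 2), [2006, 1020], 0⟩,
  mz,
  mz,
  mz,
  ⟨⟨45, -16, -1, -22, -35, 36, 20, -28, -37⟩, (.cons (nat_lit 1177) (nat_lit 2056) (nat_lit 1318) (nat_lit 1)
 (.cons (nat_lit 1886) (nat_lit 2192) (nat_lit 728) (nat_lit 1) .nil)), (nat_lit 26), (nat_lit 0), (nat_lit 0),
 (nat_lit 0), (12, 38, 21), [1705, 391], 0⟩,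
  mz,
  ⟨⟨-39, 8, -17, -2, 45, 16, 12, 12, -49⟩, (.cons (nat_lit 956) (nat_lit 1462) (nat_lit 242) (nat_lit 1) (.cons
 (nat_lit 1101) (nat_lit 1428) (nat_lit 1083) (nat_lit 1) .nil)), (nat_lit 3), (nat_lit 0), (nat_lit 0),
 (nat_lit 0), (14, 20, 21), [1297, 241], 0⟩,
  ⟨⟨-21, -32, -28, -2, 35, -34, 28, -20, -41⟩, (.cons (nat_lit 1603) (nat_lit 1286) (nat_lit 1969) (nat_lit 1)
 (.cons (nat_lit 1130) (nat_lit 1754) (nat_lit 803) (nat_lit 1) .nil)), (nat_lit 5), (nat_lit 0), (nat_lit 0),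
 (nat_lit 0), (33, 30, 3), [1835, 1728], 0⟩,
  ⟨⟨-45, 16, 44, -22, -35, -14, -20, 28, -17⟩, (.cons (nat_lit 2030) (nat_lit 113) (nat_lit 1571) (nat_lit 1)
 (.cons (nat_lit 2321) (nat_lit 150) (nat_lit 1631) (nat_lit 1) .nil)), (nat_lit 45), (nat_lit 0), (nat_lit 0),
 (nat_lit 0), (34, 2, 36), [633, 1777], 0⟩]

/-- Moves. -/
noncomputable def t4_4 : List Mv := [
  mz,
  ⟨⟨45, 16, -1, 22, -35, -36, 20, 28, -37⟩, (.cons (nat_lit 1916) (nat_lit 808) (nat_lit 2178) (nat_lit 1)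
 (.cons (nat_lit 1786) (nat_lit 2312) (nat_lit 1761) (nat_lit 1) .nil)), (nat_lit 45), (nat_lit 0), (nat_lit
 0), (nat_lit 0), (34, 2, 36), [903, 2684], 0⟩,
  ⟨⟨21, -32, -49, 2, 35, -36, -28, -20, -13⟩, (.cons (nat_lit 1531) (nat_lit 513) (nat_lit 828) (nat_lit 1)
 (.cons (nat_lit 674) (nat_lit 1959) (nat_lit 2802) (nat_lit 1) .nil)), (nat_lit 5), (nat_lit 0), (nat_lit 0),
 (nat_lit 0), (33, 30, 3), [313, 780], 0⟩,
  ⟨⟨39, 8, -56, -2, -45, -14, -12, 12, -37⟩, (.cons (nat_lit 1174) (nat_lit 1836) (nat_lit 1172) (nat_lit 1)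
 (.cons (nat_lit 2720) (nat_lit 184) (nat_lit 2085) (nat_lit 1) .nil)), (nat_lit 14), (nat_lit 0), (nat_lit 0),
 (nat_lit 0), (14, 27, 21), [530, 1326], 0⟩,
  mz,
  ⟨⟨-45, -16, 44, -22, 35, -14, -20, -28, -17⟩, (.cons (nat_lit 270) (nat_lit 2103) (nat_lit 44) (nat_lit 1)
 (.cons (nat_lit 1668) (nat_lit 1306) (nat_lit 489) (nat_lit 1) .nil)), (nat_lit 45), (nat_lit 0), (nat_lit 0),
 (nat_lit 0), (12, 9, 21), [564, 920], 0⟩,
  mz,
  mz,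
  mz,
  ⟨⟨27, 32, -47, -40, 17, 0, 10, -16, -47⟩, (.cons (nat_lit 1941) (nat_lit 1820) (nat_lit 900) (nat_lit 1)
 (.cons (nat_lit 2711) (nat_lit 2721) (nat_lit 1923) (nat_lit 1) .nil)), (nat_lit 38), (nat_lit 0), (nat_lit
 0), (nat_lit 0), (43, 39, 2), [1970, 548], 0⟩,
  mz,
  ⟨⟨17, 48, -17, 40, -17, -40, -10, 16, -37⟩, (.cons (nat_lit 892) (nat_lit 418) (nat_lit 1074) (nat_lit 1)
 (.cons (nat_lit 467) (nat_lit 2328) (nat_lit 205) (nat_lit 1) .nil)), (nat_lit 9), (nat_lit 0), (nat_lit 0),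
 (nat_lit 0), (25, 45, 24), [365, 1871], 0⟩,
  ⟨⟨17, -36, -45, -20, 23, -30, 38, 8, -37⟩, (.cons (nat_lit 1996) (nat_lit 1204) (nat_lit 912) (nat_lit 1)
 (.cons (nat_lit 2305) (nat_lit 1306) (nat_lit 2293) (nat_lit 1) .nil)), (nat_lit 32), (nat_lit 0), (nat_lit
 0), (nat_lit 0), (19, 44, 1), [812, 421], 0⟩,
  mz,
  ⟨⟨-51, -4, 19, -2, 45, -14, -12, -12, -37⟩, (.cons (nat_lit 860) (nat_lit 1504) (nat_lit 693) (nat_lit 1)
 (.cons (nat_lit 75) (nat_lit 2535) (nat_lit 2103) (nat_lit 1) .nil)), (nat_lit 33), (nat_lit 0), (nat_lit 0),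
 (nat_lit 0), (25, 36, 28), [599, 1581], 0⟩,
  ⟨⟨13, -36, 32, -40, -23, 10, 22, -32, -29⟩, (.cons (nat_lit 1983) (nat_lit 498) (nat_lit 1588) (nat_lit 1)
 (.cons (nat_lit 1116) (nat_lit 263) (nat_lit 72) (nat_lit 1) .nil)), (nat_lit 27), (nat_lit 0), (nat_lit 0),
 (nat_lit 0), (26, 14, 44), [1045, 2351], 0⟩,
  ⟨⟨-13, 36, 45, 40, 23, -30, -22, 32, -7⟩, (.cons (nat_lit 343) (nat_lit 2012) (nat_lit 674) (nat_lit 1)
 (.cons (nat_lit 1162) (nat_lit 678) (nat_lit 1062) (nat_lit 1) .nil)), (nat_lit 27), (nat_lit 0), (nat_lit 0),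
 (nat_lit 0), (5, 28, 41), [1773, 2383], 0⟩,
  mz,
  ⟨⟨19, 0, -63, 0, -47, 0, 42, 0, -23⟩, (.cons (nat_lit 668) (nat_lit 1476) (nat_lit 1302) (nat_lit 1) (.cons
 (nat_lit 1268) (nat_lit 845) (nat_lit 1757) (nat_lit 1) .nil)), (nat_lit 29), (nat_lit 0), (nat_lit 0),
 (nat_lit 0), (16, 0, 23), [839, 279], 0⟩,
  ⟨⟨-39, 32, 8, -20, -33, -20, 6, 24, -41⟩, (.cons (nat_lit 1723) (nat_lit 2161) (nat_lit 1862) (nat_lit 1)
 (.cons (nat_lit 2528) (nat_lit 2551) (nat_lit 1190) (nat_lit 1) .nil)), (nat_lit 22), (nat_lit 0), (nat_lit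
 0), (nat_lit 0), (25, 8, 7), [302, 1864], 0⟩,
  ⟨⟨17, -36, 28, -20, 23, 50, 38, 8, -1⟩, (.cons (nat_lit 179) (nat_lit 1713) (nat_lit 2195) (nat_lit 1) (.cons
 (nat_lit 1917) (nat_lit 1024) (nat_lit 881) (nat_lit 1) .nil)), (nat_lit 32), (nat_lit 0), (nat_lit 0),
 (nat_lit 0), (2, 17, 10), [1931, 1511], 0⟩,
  ⟨⟨-49, -12, 36, -2, 35, 36, -28, 20, -13⟩, (.cons (nat_lit 387) (nat_lit 1688) (nat_lit 1561) (nat_lit 1)
 (.cons (nat_lit 767) (nat_lit 2672) (nat_lit 1570) (nat_lit 1) .nil)), (nat_lit 1), (nat_lit 0), (nat_lit 0),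
 (nat_lit 0), (24, 24, 7), [2007, 1980], 0⟩,
  ⟨⟨-39, -32, 8, 20, -33, 20, 6, -24, -41⟩, (.cons (nat_lit 1562) (nat_lit 1307) (nat_lit 384) (nat_lit 1)
 (.cons (nat_lit 2799) (nat_lit 229) (nat_lit 664) (nat_lit 1) .nil)), (nat_lit 19), (nat_lit 0), (nat_lit 0),
 (nat_lit 0), (28, 23, 21), [831, 1006], 0⟩,
  mz,
  mz,
  ⟨⟨-45, 8, -4, 20, 33, -40, -6, -24, -35⟩, (.cons (nat_lit 2196) (nat_lit 722) (nat_lit 1352) (nat_lit 1)
 (.cons (nat_lit 2808) (nat_lit 525) (nat_lit 1775) (nat_lit 1) .nil)), (nat_lit 25), (nat_lit 0), (nat_lit 0),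
 (nat_lit 0), (40, 24, 21), [1136, 2565], 0⟩,
  ⟨⟨-21, 32, -28, -2, -35, -34, 28, 20, -41⟩, (.cons (nat_lit 331) (nat_lit 1434) (nat_lit 430) (nat_lit 1)
 (.cons (nat_lit 768) (nat_lit 1206) (nat_lit 570) (nat_lit 1) .nil)), (nat_lit 5), (nat_lit 0), (nat_lit 0),
 (nat_lit 0), (30, 23, 7), [335, 43], 0⟩,
  ⟨⟨17, 36, -45, -20, -23, -30, 38, -8, -37⟩, (.cons (nat_lit 1790) (nat_lit 2125) (nat_lit 1762) (nat_lit 1)
 (.cons (nat_lit 139) (nat_lit 1671) (nat_lit 1217) (nat_lit 1) .nil)), (nat_lit 32), (nat_lit 0), (nat_lit 0),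
 (nat_lit 0), (45, 30, 37), [1603, 2389], 0⟩,
  ⟨⟨39, 32, -31, -20, 33, 40, -6, 24, -35⟩, (.cons (nat_lit 490) (nat_lit 1252) (nat_lit 2098) (nat_lit 1)
 (.cons (nat_lit 1738) (nat_lit 2290) (nat_lit 2322) (nat_lit 1) .nil)), (nat_lit 19), (nat_lit 0), (nat_lit
 0), (nat_lit 0), (25, 39, 7), [2025, 2714], 0⟩,
  ⟨⟨19, 0, 44, 0, -47, 0, 42, 0, -19⟩, (.cons (nat_lit 2196) (nat_lit 594) (nat_lit 895) (nat_lit 1) (.cons
 (nat_lit 2808) (nat_lit 1245) (nat_lit 1608) (nat_lit 1) .nil)), (nat_lit 29), (nat_lit 0), (nat_lit 0),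
 (nat_lit 0), (31, 0, 24), [2021, 906], 0⟩,
  mz,
  ⟨⟨9, -4, -61, -40, 23, 10, 22, 32, -29⟩, (.cons (nat_lit 2126) (nat_lit 618) (nat_lit 643) (nat_lit 1) (.cons
 (nat_lit 980) (nat_lit 1916) (nat_lit 404) (nat_lit 1) .nil)), (nat_lit 20), (nat_lit 0), (nat_lit 0),
 (nat_lit 0), (36, 28, 41), [1176, 2276], 0⟩,
  ⟨⟨-13, -36, 45, -40, 23, 30, -22, -32, -7⟩, (.cons (nat_lit 470) (nat_lit 946) (nat_lit 1972) (nat_lit 1)
 (.cons (nat_lit 2012) (nat_lit 1552) (nat_lit 1671) (nat_lit 1) .nil)), (nat_lit 12), (nat_lit 0), (nat_lit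
 0), (nat_lit 0), (26, 33, 44), [1129, 571], 0⟩,
  ⟨⟨-39, -8, -17, 2, 45, -16, 12, -12, -49⟩, (.cons (nat_lit 631) (nat_lit 80) (nat_lit 2117) (nat_lit 1)
 (.cons (nat_lit 412) (nat_lit 528) (nat_lit 1545) (nat_lit 1) .nil)), (nat_lit 14), (nat_lit 0), (nat_lit 0),
 (nat_lit 0), (3, 36, 28), [907, 1831], 0⟩,
  mz,
  ⟨⟨17, 36, 28, 20, 23, -50, 38, -8, -1⟩, (.cons (nat_lit 1424) (nat_lit 1177) (nat_lit 2083) (nat_lit 1)
 (.cons (nat_lit 215) (nat_lit 291) (nat_lit 2196) (nat_lit 1) .nil)), (nat_lit 16), (nat_lit 0), (nat_lit 0),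
 (nat_lit 0), (28, 44, 46), [203, 1995], 0⟩,
  ⟨⟨27, -32, -47, -40, -17, 0, 10, 16, -47⟩, (.cons (nat_lit 1349) (nat_lit 1127) (nat_lit 2064) (nat_lit 1)
 (.cons (nat_lit 403) (nat_lit 903) (nat_lit 1726) (nat_lit 1) .nil)), (nat_lit 38), (nat_lit 0), (nat_lit 0),
 (nat_lit 0), (46, 45, 24), [985, 2023], 0⟩,
  mz,
  ⟨⟨-27, 32, -20, 40, 17, -40, -10, -16, -37⟩, (.cons (nat_lit 2196) (nat_lit 1041) (nat_lit 1128) (nat_lit 1)
 (.cons (nat_lit 2808) (nat_lit 736) (nat_lit 2199) (nat_lit 1) .nil)), (nat_lit 38), (nat_lit 0), (nat_lit 0),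
 (nat_lit 0), (43, 39, 2), [1134, 2674], 0⟩,
  mz,
  mz,
  mz,
  ⟨⟨45, -16, -1, 22, 35, -36, 20, -28, -37⟩, (.cons (nat_lit 1864) (nat_lit 779) (nat_lit 1978) (nat_lit 1)
 (.cons (nat_lit 850) (nat_lit 235) (nat_lit 200) (nat_lit 1) .nil)), (nat_lit 45), (nat_lit 0), (nat_lit 0),
 (nat_lit 0), (12, 9, 21), [1075, 502], 0⟩,
  mz,
  ⟨⟨51, 4, -32, 2, -45, -16, 12, 12, -49⟩, (.cons (nat_lit 1018) (nat_lit 1151) (nat_lit 454) (nat_lit 1)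
 (.cons (nat_lit 759) (nat_lit 351) (nat_lit 1594) (nat_lit 1) .nil)), (nat_lit 33), (nat_lit 0), (nat_lit 0),
 (nat_lit 0), (7, 27, 21), [1934, 796], 0⟩,
  ⟨⟨49, 12, -13, 2, -35, 34, 28, -20, -41⟩, (.cons (nat_lit 86) (nat_lit 816) (nat_lit 1634) (nat_lit 1) (.cons
 (nat_lit 1156) (nat_lit 1496) (nat_lit 809) (nat_lit 1) .nil)), (nat_lit 1), (nat_lit 0), (nat_lit 0),
 (nat_lit 0), (17, 17, 3), [1905, 803], 0⟩,
  ⟨⟨-45, 16, 44, -22, -35, -14, -20, 28, -17⟩, (.cons (nat_lit 2030) (nat_lit 113) (nat_lit 1571) (nat_lit 1)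
 (.cons (nat_lit 2321) (nat_lit 150) (nat_lit 1631) (nat_lit 1) .nil)), (nat_lit 45), (nat_lit 0), (nat_lit 0),
 (nat_lit 0), (34, 2, 36), [633, 1777], 0⟩]

/-- Moves. -/
noncomputable def t4_5 : List Mv := [
  mz,
  ⟨⟨45, 16, -1, 22, -35, -36, 20, 28, -37⟩, (.cons (nat_lit 1916) (nat_lit 808) (nat_lit 2178) (nat_lit 1)
 (.cons (nat_lit 1786) (nat_lit 2312) (nat_lit 1761) (nat_lit 1) .nil)), (nat_lit 45), (nat_lit 0), (nat_lit
 0), (nat_lit 0), (34, 2, 36), [903, 2684], 0⟩,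
  ⟨⟨-49, 12, 36, -2, -35, 36, -28, -20, -13⟩, (.cons (nat_lit 1909) (nat_lit 709) (nat_lit 357) (nat_lit 1)
 (.cons (nat_lit 1005) (nat_lit 2461) (nat_lit 1412) (nat_lit 1) .nil)), (nat_lit 1), (nat_lit 0), (nat_lit 0),
 (nat_lit 0), (17, 17, 3), [2107, 1444], 0⟩,
  ⟨⟨-51, 4, 19, 2, 45, 14, -12, 12, -37⟩, (.cons (nat_lit 1588) (nat_lit 573) (nat_lit 179) (nat_lit 1) (.cons
 (nat_lit 870) (nat_lit 2027) (nat_lit 1614) (nat_lit 1) .nil)), (nat_lit 44), (nat_lit 0), (nat_lit 0),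
 (nat_lit 0), (7, 20, 21), [1704, 2058], 0⟩,
  mz,
  ⟨⟨-45, -16, 44, -22, 35, -14, -20, -28, -17⟩, (.cons (nat_lit 270) (nat_lit 2103) (nat_lit 44) (nat_lit 1)
 (.cons (nat_lit 1668) (nat_lit 1306) (nat_lit 489) (nat_lit 1) .nil)), (nat_lit 45), (nat_lit 0), (nat_lit 0),
 (nat_lit 0), (12, 9, 21), [564, 920], 0⟩,
  mz,
  mz,
  mz,
  ⟨⟨-17, -48, 0, 40, -17, 0, 10, -16, -47⟩, (.cons (nat_lit 480) (nat_lit 459) (nat_lit 1) (nat_lit 1196)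
 (.cons (nat_lit 1958) (nat_lit 1929) (nat_lit 1561) (nat_lit 1) .nil)), (nat_lit 36), (nat_lit 0), (nat_lit
 0), (nat_lit 0), (6, 8, 2), [1397, 2576], 0⟩,
  mz,
  ⟨⟨-27, -32, -20, -40, 17, 40, -10, 16, -37⟩, (.cons (nat_lit 2196) (nat_lit 177) (nat_lit 1655) (nat_lit 1)
 (.cons (nat_lit 2808) (nat_lit 1363) (nat_lit 1672) (nat_lit 1) .nil)), (nat_lit 11), (nat_lit 0), (nat_lit
 0), (nat_lit 0), (46, 2, 24), [607, 2749], 0⟩,
  ⟨⟨21, 44, 8, 20, -23, 30, 38, 8, -37⟩, (.cons (nat_lit 1928) (nat_lit 1302) (nat_lit 2141) (nat_lit 1) (.cons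
 (nat_lit 1702) (nat_lit 2340) (nat_lit 2074) (nat_lit 1) .nil)), (nat_lit 31), (nat_lit 0), (nat_lit 0),
 (nat_lit 0), (29, 3, 1), [83, 2049], 0⟩,
  mz,
  ⟨⟨-51, -4, 19, -2, 45, -14, -12, -12, -37⟩, (.cons (nat_lit 860) (nat_lit 1504) (nat_lit 693) (nat_lit 1)
 (.cons (nat_lit 75) (nat_lit 2535) (nat_lit 2103) (nat_lit 1) .nil)), (nat_lit 33), (nat_lit 0), (nat_lit 0),
 (nat_lit 0), (25, 36, 28), [599, 1581], 0⟩,
  ⟨⟨9, 4, -61, 40, 23, -10, 22, -32, -29⟩, (.cons (nat_lit 255) (nat_lit 979) (nat_lit 1162) (nat_lit 1) (.cons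
 (nat_lit 2557) (nat_lit 2620) (nat_lit 290) (nat_lit 1) .nil)), (nat_lit 35), (nat_lit 0), (nat_lit 0),
 (nat_lit 0), (18, 33, 44), [86, 2418], 0⟩,
  ⟨⟨-13, 36, 45, -40, -23, 30, -22, 32, -7⟩, (.cons (nat_lit 1125) (nat_lit 1126) (nat_lit 21) (nat_lit 1)
 (.cons (nat_lit 2137) (nat_lit 2456) (nat_lit 1780) (nat_lit 1) .nil)), (nat_lit 12), (nat_lit 0), (nat_lit
 0), (nat_lit 0), (5, 19, 41), [1730, 2531], 0⟩,
  mz,
  ⟨⟨23, 0, 40, 0, -47, 0, 42, 0, -23⟩, (.cons (nat_lit 2196) (nat_lit 2065) (nat_lit 1589) (nat_lit 1) (.cons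
 (nat_lit 2808) (nat_lit 738) (nat_lit 415) (nat_lit 1) .nil)), (nat_lit 18), (nat_lit 0), (nat_lit 0),
 (nat_lit 0), (7, 0, 23), [170, 1388], 0⟩,
  ⟨⟨-39, 32, 8, -20, -33, -20, 6, 24, -41⟩, (.cons (nat_lit 1723) (nat_lit 2161) (nat_lit 1862) (nat_lit 1)
 (.cons (nat_lit 2528) (nat_lit 2551) (nat_lit 1190) (nat_lit 1) .nil)), (nat_lit 22), (nat_lit 0), (nat_lit
 0), (nat_lit 0), (25, 8, 7), [302, 1864], 0⟩,
  ⟨⟨17, -36, 28, -20, 23, 50, 38, 8, -1⟩, (.cons (nat_lit 179) (nat_lit 1713) (nat_lit 2195) (nat_lit 1) (.cons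
 (nat_lit 1917) (nat_lit 1024) (nat_lit 881) (nat_lit 1) .nil)), (nat_lit 32), (nat_lit 0), (nat_lit 0),
 (nat_lit 0), (2, 17, 10), [1931, 1511], 0⟩,
  ⟨⟨21, 32, -49, 2, -35, -36, -28, 20, -13⟩, (.cons (nat_lit 694) (nat_lit 1981) (nat_lit 1308) (nat_lit 1)
 (.cons (nat_lit 885) (nat_lit 2142) (nat_lit 2350) (nat_lit 1) .nil)), (nat_lit 5), (nat_lit 0), (nat_lit 0),
 (nat_lit 0), (30, 23, 7), [2008, 776], 0⟩,
  ⟨⟨-39, -32, 8, -20, 33, -20, 6, -24, -41⟩, (.cons (nat_lit 2196) (nat_lit 980) (nat_lit 231) (nat_lit 1)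
 (.cons (nat_lit 2808) (nat_lit 730) (nat_lit 864) (nat_lit 1) .nil)), (nat_lit 22), (nat_lit 0), (nat_lit 0),
 (nat_lit 0), (28, 24, 21), [164, 2299], 0⟩,
  mz,
  mz,
  ⟨⟨-45, 8, -4, 20, 33, -40, -6, -24, -35⟩, (.cons (nat_lit 2196) (nat_lit 722) (nat_lit 1352) (nat_lit 1)
 (.cons (nat_lit 2808) (nat_lit 525) (nat_lit 1775) (nat_lit 1) .nil)), (nat_lit 25), (nat_lit 0), (nat_lit 0),
 (nat_lit 0), (40, 24, 21), [1136, 2565], 0⟩,
  ⟨⟨49, -12, -13, -2, -35, -34, 28, 20, -41⟩, (.cons (nat_lit 28) (nat_lit 1751) (nat_lit 445) (nat_lit 1)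
 (.cons (nat_lit 913) (nat_lit 1521) (nat_lit 1069) (nat_lit 1) .nil)), (nat_lit 42), (nat_lit 0), (nat_lit 0),
 (nat_lit 0), (24, 23, 7), [944, 18], 0⟩,
  ⟨⟨17, 36, -45, 20, 23, 30, 38, -8, -37⟩, (.cons (nat_lit 1217) (nat_lit 1051) (nat_lit 1420) (nat_lit 1)
 (.cons (nat_lit 278) (nat_lit 2528) (nat_lit 2518) (nat_lit 1) .nil)), (nat_lit 16), (nat_lit 0), (nat_lit 0),
 (nat_lit 0), (45, 17, 37), [2153, 1305], 0⟩,
  ⟨⟨-45, -8, -4, 20, -33, -40, -6, 24, -35⟩, (.cons (nat_lit 72) (nat_lit 56) (nat_lit 233) (nat_lit 1) (.cons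
 (nat_lit 196) (nat_lit 2694) (nat_lit 1165) (nat_lit 1) .nil)), (nat_lit 25), (nat_lit 0), (nat_lit 0),
 (nat_lit 0), (29, 8, 7), [1303, 168], 0⟩,
  ⟨⟨19, 0, 44, 0, -47, 0, 42, 0, -19⟩, (.cons (nat_lit 2196) (nat_lit 594) (nat_lit 895) (nat_lit 1) (.cons
 (nat_lit 2808) (nat_lit 1245) (nat_lit 1608) (nat_lit 1) .nil)), (nat_lit 29), (nat_lit 0), (nat_lit 0),
 (nat_lit 0), (31, 0, 24), [2021, 906], 0⟩,
  mz,
  ⟨⟨13, 36, 32, 40, -23, -10, 22, 32, -29⟩, (.cons (nat_lit 49) (nat_lit 2112) (nat_lit 547) (nat_lit 1) (.cons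
 (nat_lit 2606) (nat_lit 299) (nat_lit 2481) (nat_lit 1) .nil)), (nat_lit 12), (nat_lit 0), (nat_lit 0),
 (nat_lit 0), (5, 19, 41), [1553, 1510], 0⟩,
  ⟨⟨-13, -36, 45, 40, -23, -30, -22, -32, -7⟩, (.cons (nat_lit 1641) (nat_lit 1711) (nat_lit 2007) (nat_lit 1)
 (.cons (nat_lit 2324) (nat_lit 1443) (nat_lit 355) (nat_lit 1) .nil)), (nat_lit 27), (nat_lit 0), (nat_lit 0),
 (nat_lit 0), (26, 14, 44), [673, 839], 0⟩,
  ⟨⟨51, -4, -32, 2, 45, -16, 12, -12, -49⟩, (.cons (nat_lit 2196) (nat_lit 1518) (nat_lit 702) (nat_lit 1)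
 (.cons (nat_lit 2808) (nat_lit 655) (nat_lit 957) (nat_lit 1) .nil)), (nat_lit 33), (nat_lit 0), (nat_lit 0),
 (nat_lit 0), (25, 36, 28), [2127, 500], 0⟩,
  mz,
  ⟨⟨17, 36, 28, 20, 23, -50, 38, -8, -1⟩, (.cons (nat_lit 1424) (nat_lit 1177) (nat_lit 2083) (nat_lit 1)
 (.cons (nat_lit 215) (nat_lit 291) (nat_lit 2196) (nat_lit 1) .nil)), (nat_lit 16), (nat_lit 0), (nat_lit 0),
 (nat_lit 0), (28, 44, 46), [203, 1995], 0⟩,
  ⟨⟨-17, 48, 0, -40, -17, 0, 10, 16, -47⟩, (.cons (nat_lit 1339) (nat_lit 2045) (nat_lit 1158) (nat_lit 1)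
 (.cons (nat_lit 406) (nat_lit 537) (nat_lit 1068) (nat_lit 1) .nil)), (nat_lit 9), (nat_lit 0), (nat_lit 0),
 (nat_lit 0), (25, 45, 24), [1930, 669], 0⟩,
  mz,
  ⟨⟨17, -48, -17, -40, -17, 40, -10, -16, -37⟩, (.cons (nat_lit 1070) (nat_lit 263) (nat_lit 1702) (nat_lit 1)
 (.cons (nat_lit 1171) (nat_lit 1580) (nat_lit 1334) (nat_lit 1) .nil)), (nat_lit 36), (nat_lit 0), (nat_lit
 0), (nat_lit 0), (6, 8, 2), [2006, 1020], 0⟩,
  mz,
  mz,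
  mz,
  ⟨⟨45, -16, -1, 22, 35, -36, 20, -28, -37⟩, (.cons (nat_lit 1864) (nat_lit 779) (nat_lit 1978) (nat_lit 1)
 (.cons (nat_lit 850) (nat_lit 235) (nat_lit 200) (nat_lit 1) .nil)), (nat_lit 45), (nat_lit 0), (nat_lit 0),
 (nat_lit 0), (12, 9, 21), [1075, 502], 0⟩,
  mz,
  ⟨⟨51, 4, -32, 2, -45, -16, 12, 12, -49⟩, (.cons (nat_lit 1018) (nat_lit 1151) (nat_lit 454) (nat_lit 1)
 (.cons (nat_lit 759) (nat_lit 351) (nat_lit 1594) (nat_lit 1) .nil)), (nat_lit 33), (nat_lit 0), (nat_lit 0),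
 (nat_lit 0), (7, 27, 21), [1934, 796], 0⟩,
  ⟨⟨-21, -32, -28, 2, -35, 34, 28, -20, -41⟩, (.cons (nat_lit 592) (nat_lit 1211) (nat_lit 1496) (nat_lit 1)
 (.cons (nat_lit 236) (nat_lit 1117) (nat_lit 2726) (nat_lit 1) .nil)), (nat_lit 46), (nat_lit 0), (nat_lit 0),
 (nat_lit 0), (33, 17, 3), [1637, 2295], 0⟩,
  ⟨⟨25, 12, -61, 22, 35, 14, -20, 28, -17⟩, (.cons (nat_lit 2127) (nat_lit 243) (nat_lit 1033) (nat_lit 1)
 (.cons (nat_lit 2094) (nat_lit 117) (nat_lit 967) (nat_lit 1) .nil)), (nat_lit 21), (nat_lit 0), (nat_lit 0),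
 (nat_lit 0), (2, 45, 36), [1096, 2802], 0⟩]

/-- All the moves. -/
noncomputable def tabs : List (List (List Mv)) := [[[], [], t0_2, [], t0_4, t0_5], [[], [], t1_2, [], t1_4, t1_5], [], [], [[], [], t4_2, [], t4_4, t4_5]]

/-- Subtrie. -/
noncomputable def T2 : Tr := (.ev (nat_lit 20) (nat_lit 105589691695620) (.nd (nat_lit 33) (.br (nat_lit 31)
 (.br (nat_lit 16) (.br (nat_lit 10) (.br (nat_lit 6) (.br (nat_lit 5) (.ch (nat_lit 4) (.ev (nat_lit 52)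
 (nat_lit 21994533820424) (.ev (nat_lit 192) (nat_lit 353161248802) .dd))) (.ch (nat_lit 5) (.ev (nat_lit 52)
 (nat_lit 283602649122) (.ev (nat_lit 96) (nat_lit 22064092420104) .dd)))) (.br (nat_lit 9) (.ch (nat_lit 6)
 (.ev (nat_lit 52) (nat_lit 4406674524168) (.ev (nat_lit 180) (nat_lit 32) (.ev (nat_lit 212) (nat_lit
 68719476736) (.ev (nat_lit 276) (nat_lit 268435456) (.ev (nat_lit 468) (nat_lit 2) (.ev (nat_lit 500) (nat_lit
 524288) (.ev (nat_lit 532) (nat_lit 2097152) (.ev (nat_lit 692) (nat_lit 4096) (.nd (nat_lit 1184) (.br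
 (nat_lit 5) (.br (nat_lit 1) (.ch (nat_lit 0) (.ev (nat_lit 1200) (nat_lit 17592857133056) (.ev (nat_lit 2836)
 (nat_lit 274877906944) (.ev (nat_lit 2845) (nat_lit 4294967296) .dd)))) (.br (nat_lit 2) (.ch (nat_lit 1) (.ev
 (nat_lit 1200) (nat_lit 17871895789568) (.ev (nat_lit 1213) (nat_lit 134217728) .dd))) (.ch (nat_lit 2) (.ev
 (nat_lit 1200) (nat_lit 134217728) (.ev (nat_lit 1824) (nat_lit 274877906944) (.ev (nat_lit 2532) (nat_lit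
 17592722915328) (.ev (nat_lit 2541) (nat_lit 4294967296) .dd))))))) (.br (nat_lit 6) (.ch (nat_lit 5) (.ev
 (nat_lit 1200) (nat_lit 17867735040000) (.ev (nat_lit 1213) (nat_lit 4294967296) .dd))) (.br (nat_lit 9) (.ch
 (nat_lit 6) (.ev (nat_lit 1200) (nat_lit 134217728) (.ev (nat_lit 2836) (nat_lit 536870912) (.ev (nat_lit
 2900) (nat_lit 17592186044416) (.ev (nat_lit 2980) (nat_lit 4294967296) (.ev (nat_lit 2989) (nat_lit
 274877906944) .dd)))))) (.ch (nat_lit 9) (.ev (nat_lit 1200) (nat_lit 279709745152) (.ev (nat_lit 2596)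
 (nat_lit 17592186044416) (.ev (nat_lit 2605) (nat_lit 134217728) .dd))))))))))))))))) (.ch (nat_lit 9) (.ev
 (nat_lit 52) (nat_lit 343597385760) (.ev (nat_lit 84) (nat_lit 33554432) (.ev (nat_lit 212) (nat_lit 524288)
 (.ev (nat_lit 244) (nat_lit 4096) (.ev (nat_lit 596) (nat_lit 268435456) (.ev (nat_lit 628) (nat_lit 262144)
 (.ev (nat_lit 692) (nat_lit 2097152) (.ev (nat_lit 1060) (nat_lit 65536) (.nd (nat_lit 1184) (.br (nat_lit 5)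
 (.br (nat_lit 2) (.ch (nat_lit 1) (.ev (nat_lit 1200) (nat_lit 22003117457410) (.nd (nat_lit 1792) (.br
 (nat_lit 8) (.br (nat_lit 2) (.ch (nat_lit 1) (.ev (nat_lit 1808) (nat_lit 671088648) (.ev (nat_lit 1821)
 (nat_lit 4194304) .dd))) (.br (nat_lit 3) (.ch (nat_lit 2) (.ev (nat_lit 1808) (nat_lit 138412040) (.ev
 (nat_lit 1821) (nat_lit 536870912) .dd))) (.ch (nat_lit 3) (.ev (nat_lit 1808) (nat_lit 8) (.ev (nat_lit 2596)
 (nat_lit 134217728) (.ev (nat_lit 2836) (nat_lit 536870912) (.ev (nat_lit 2845) (nat_lit 4194304) .dd)))))))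
 (.br (nat_lit 9) (.ch (nat_lit 8) (.ev (nat_lit 1904) (nat_lit 134217728) (.ev (nat_lit 2048) (nat_lit 8) (.ev
 (nat_lit 2836) (nat_lit 536870912) (.ev (nat_lit 2845) (nat_lit 4194304) .dd))))) (.br (nat_lit 10) (.ch
 (nat_lit 9) (.ev (nat_lit 1808) (nat_lit 675282952) .dd)) (.ch (nat_lit 10) (.ev (nat_lit 1808) (nat_lit
 138412040) (.ev (nat_lit 1821) (nat_lit 536870912) .dd))))))))) (.br (nat_lit 4) (.ch (nat_lit 2) (.ev
 (nat_lit 1200) (nat_lit 17596615229450) (.ev (nat_lit 1252) (nat_lit 4194304) (.ev (nat_lit 1888) (nat_lit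
 8589934592) (.ev (nat_lit 2420) (nat_lit 536870912) (.ev (nat_lit 2429) (nat_lit 4398046511104) .dd)))))) (.ch
 (nat_lit 4) (.ev (nat_lit 1200) (nat_lit 21990370967560) (.nd (nat_lit 1792) (.br (nat_lit 5) (.br (nat_lit 4)
 (.ch (nat_lit 3) (.ev (nat_lit 1808) (nat_lit 4831838208) (.ev (nat_lit 2432) (nat_lit 8589934592) (.ev
 (nat_lit 2445) (nat_lit 2) .dd)))) (.ch (nat_lit 4) (.ev (nat_lit 1808) (nat_lit 12884901890) (.ev (nat_lit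
 1821) (nat_lit 536870912) .dd)))) (.br (nat_lit 6) (.ch (nat_lit 5) (.ev (nat_lit 1808) (nat_lit 13421772800)
 (.ev (nat_lit 1821) (nat_lit 2) .dd))) (.br (nat_lit 8) (.ch (nat_lit 6) (.ev (nat_lit 1808) (nat_lit
 9126805506) (.ev (nat_lit 1821) (nat_lit 4294967296) .dd))) (.ch (nat_lit 8) (.ev (nat_lit 1808) (nat_lit
 4831838208) (.ev (nat_lit 2596) (nat_lit 8589934592) (.ev (nat_lit 2605) (nat_lit 2) .dd)))))))))))) (.br
 (nat_lit 9) (.br (nat_lit 6) (.ch (nat_lit 5) (.ev (nat_lit 1200) (nat_lit 17597156294658) (.nd (nat_lit 1792)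
 (.br (nat_lit 9) (.ch (nat_lit 3) (.ev (nat_lit 1808) (nat_lit 8) (.ev (nat_lit 2560) (nat_lit 4398046511104)
 (.ev (nat_lit 2573) (nat_lit 8589934592) .dd)))) (.br (nat_lit 12) (.ch (nat_lit 9) (.ev (nat_lit 1808)
 (nat_lit 8589934592) (.ev (nat_lit 1824) (nat_lit 4398046511112) .dd))) (.ch (nat_lit 12) (.ev (nat_lit 1808)
 (nat_lit 4398046511112) (.ev (nat_lit 1821) (nat_lit 8589934592) .dd)))))))) (.ch (nat_lit 6) (.ev (nat_lit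
 1200) (nat_lit 4398721794050) (.ev (nat_lit 2608) (nat_lit 4294967296) (.ev (nat_lit 2836) (nat_lit
 17592186044416) (.fin (nat_lit 576461302059713087))))))) (.br (nat_lit 12) (.ch (nat_lit 9) (.ev (nat_lit
 1200) (nat_lit 4411472478208) (.nd (nat_lit 1792) (.br (nat_lit 5) (.br (nat_lit 3) (.ch (nat_lit 0) (.ev
 (nat_lit 1808) (nat_lit 17592320262154) .dd)) (.ch (nat_lit 3) (.ev (nat_lit 1808) (nat_lit 134217738) (.ev
 (nat_lit 1821) (nat_lit 17592186044416) .dd)))) (.br (nat_lit 6) (.ch (nat_lit 5) (.ev (nat_lit 1808) (nat_lit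
 17592186044418) (.ev (nat_lit 1876) (nat_lit 8) (.ev (nat_lit 1885) (nat_lit 134217728) .dd)))) (.br (nat_lit
 8) (.ch (nat_lit 6) (.ev (nat_lit 1808) (nat_lit 17592320262144) (.ev (nat_lit 2596) (nat_lit 8) (.ev (nat_lit
 2605) (nat_lit 2) .dd)))) (.ch (nat_lit 8) (.ev (nat_lit 1808) (nat_lit 17592320262154) .dd)))))))) (.ch
 (nat_lit 12) (.ev (nat_lit 1200) (nat_lit 21995202805762) (.ev (nat_lit 2544) (nat_lit 8589934592) (.ev
 (nat_lit 2557) (nat_lit 8) .dd))))))))))))))))))) (.br (nat_lit 12) (.br (nat_lit 11) (.ch (nat_lit 10) (.ev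
 (nat_lit 52) (nat_lit 22004059607048) (.ev (nat_lit 244) (nat_lit 2048) (.nd (nat_lit 1184) (.br (nat_lit 4)
 (.br (nat_lit 1) (.ch (nat_lit 0) (.ev (nat_lit 1200) (nat_lit 343635197954) (.ev (nat_lit 3300) (nat_lit
 262144) (.ev (nat_lit 3309) (nat_lit 32) .dd)))) (.br (nat_lit 2) (.ch (nat_lit 1) (.ev (nat_lit 1200)
 (nat_lit 274911461410) (.nd (nat_lit 1792) (.br (nat_lit 3) (.br (nat_lit 1) (.ch (nat_lit 0) (.ev (nat_lit
 1808) (nat_lit 68723998720) .dd)) (.br (nat_lit 2) (.ch (nat_lit 1) (.ev (nat_lit 1808) (nat_lit 68719542272)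
 (.ev (nat_lit 2000) (nat_lit 4456448) .dd))) (.ch (nat_lit 2) (.ev (nat_lit 1808) (nat_lit 4456448) (.ev
 (nat_lit 2740) (nat_lit 65536) (.ev (nat_lit 2749) (nat_lit 68719476736) .dd)))))) (.br (nat_lit 6) (.ch
 (nat_lit 3) (.ev (nat_lit 1808) (nat_lit 68723671040) (.ev (nat_lit 1952) (nat_lit 65536) (.ev (nat_lit 1965)
 (nat_lit 262144) .dd)))) (.br (nat_lit 12) (.ch (nat_lit 6) (.ev (nat_lit 1808) (nat_lit 262144) (.ev (nat_lit
 1952) (nat_lit 4259840) (.ev (nat_lit 1965) (nat_lit 68719476736) .dd)))) (.ch (nat_lit 12) (.ev (nat_lit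
 1808) (nat_lit 68723998720) .dd)))))))) (.ch (nat_lit 2) (.ev (nat_lit 1200) (nat_lit 327714) (.ev (nat_lit
 1888) (nat_lit 68719476736) (.ev (nat_lit 1940) (nat_lit 4194304) (.fin (nat_lit 576466799625191986))))))))
 (.br (nat_lit 5) (.ch (nat_lit 4) (.ev (nat_lit 1200) (nat_lit 274882166784) (.ev (nat_lit 1430) (nat_lit 32)
 (.ev (nat_lit 2996) (nat_lit 68719476736) (.nd (nat_lit 3440) (.br (nat_lit 9) (.br (nat_lit 5) (.ch (nat_lit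
 3) (.ev (nat_lit 3456) (nat_lit 33554434) (.ev (nat_lit 3469) (nat_lit 262144) .dd))) (.ch (nat_lit 5) (.ev
 (nat_lit 3456) (nat_lit 33816578) .dd))) (.br (nat_lit 11) (.ch (nat_lit 9) (.ev (nat_lit 3456) (nat_lit
 262144) (.fin (nat_lit 576453605455250015)))) (.ch (nat_lit 11) (.ev (nat_lit 3456) (nat_lit 33816578)
 .dd))))))))) (.br (nat_lit 9) (.ch (nat_lit 5) (.ev (nat_lit 1200) (nat_lit 343601905664) (.ev (nat_lit 1446)
 (nat_lit 2) (.nd (nat_lit 1792) (.br (nat_lit 8) (.br (nat_lit 2) (.ch (nat_lit 0) (.ev (nat_lit 1808)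
 (nat_lit 32) (.ev (nat_lit 1821) (nat_lit 33554432) .dd))) (.br (nat_lit 3) (.ch (nat_lit 2) (.ev (nat_lit
 2624) (nat_lit 32) (.ev (nat_lit 2637) (nat_lit 33554432) .dd))) (.ch (nat_lit 3) (.ev (nat_lit 1808) (nat_lit
 33554464) .dd)))) (.br (nat_lit 10) (.ch (nat_lit 8) (.ev (nat_lit 1808) (nat_lit 33554464) .dd)) (.br
 (nat_lit 11) (.ch (nat_lit 10) (.ev (nat_lit 1968) (nat_lit 32) (.ev (nat_lit 1981) (nat_lit 33554432) .dd)))
 (.ch (nat_lit 11) (.ev (nat_lit 1808) (nat_lit 33554464) .dd))))))))) (.ch (nat_lit 9) (.ev (nat_lit 1200)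
 (nat_lit 68757487648) (.ev (nat_lit 1462) (nat_lit 2) (.ev (nat_lit 2464) (nat_lit 274877906944) (.ev (nat_lit
 2477) (nat_lit 65536) .dd)))))))))))) (.ch (nat_lit 11) (.ev (nat_lit 52) (nat_lit 4673732345898) (.ev
 (nat_lit 384) (nat_lit 17673962723328) .dd)))) (.br (nat_lit 15) (.ch (nat_lit 12) (.ev (nat_lit 52) (nat_lit
 17661075390506) (.ev (nat_lit 212) (nat_lit 65536) (.ev (nat_lit 244) (nat_lit 4294967296) (.ev (nat_lit 276)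
 (nat_lit 4718592) (.ev (nat_lit 532) (nat_lit 4398046511104) (.ev (nat_lit 996) (nat_lit 8589934592) (.nd
 (nat_lit 1184) (.br (nat_lit 6) (.br (nat_lit 2) (.ch (nat_lit 1) (.ev (nat_lit 1200) (nat_lit 275146604544)
 (.nd (nat_lit 1792) (.br (nat_lit 1) (.ch (nat_lit 0) (.ev (nat_lit 1808) (nat_lit 536872960) (.ev (nat_lit
 1821) (nat_lit 4096) .dd))) (.br (nat_lit 8) (.ch (nat_lit 1) (.ev (nat_lit 2532) (nat_lit 2048) (.ev (nat_lit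
 2596) (nat_lit 4096) (.ev (nat_lit 2605) (nat_lit 536870912) .dd)))) (.ch (nat_lit 8) (.ev (nat_lit 1808)
 (nat_lit 4096) (.ev (nat_lit 1952) (nat_lit 536870912) (.ev (nat_lit 1965) (nat_lit 2048) .dd))))))))) (.br
 (nat_lit 4) (.ch (nat_lit 2) (.ev (nat_lit 1200) (nat_lit 536877056) (.ev (nat_lit 2448) (nat_lit 262144) (.ev
 (nat_lit 2532) (nat_lit 268435456) (.ev (nat_lit 2541) (nat_lit 274877906944) .dd))))) (.ch (nat_lit 4) (.ev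
 (nat_lit 1200) (nat_lit 275683219456) (.ev (nat_lit 1213) (nat_lit 262144) .dd))))) (.br (nat_lit 10) (.ch
 (nat_lit 6) (.ev (nat_lit 1200) (nat_lit 268288) (.ev (nat_lit 1940) (nat_lit 536870912) (.ev (nat_lit 2164)
 (nat_lit 268435456) (.ev (nat_lit 2173) (nat_lit 274877906944) .dd))))) (.br (nat_lit 12) (.ch (nat_lit 10)
 (.ev (nat_lit 1200) (nat_lit 268699648) (.ev (nat_lit 1940) (nat_lit 274877906944) (.ev (nat_lit 2532)
 (nat_lit 4096) (.ev (nat_lit 2541) (nat_lit 536870912) .dd))))) (.ch (nat_lit 12) (.ev (nat_lit 1200) (nat_lit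
 275683479552) (.ev (nat_lit 1213) (nat_lit 2048) .dd)))))))))))))) (.ch (nat_lit 15) (.ev (nat_lit 52)
 (nat_lit 4406904885248) (.ev (nat_lit 180) (nat_lit 262144) (.ev (nat_lit 308) (nat_lit 17592186044416) (.ev
 (nat_lit 372) (nat_lit 2097154) (.ev (nat_lit 404) (nat_lit 274877906944) (.ev (nat_lit 532) (nat_lit 2048)
 (.ev (nat_lit 1168) (nat_lit 134217728) (.nd (nat_lit 1184) (.br (nat_lit 6) (.br (nat_lit 5) (.ch (nat_lit 2)
 (.ev (nat_lit 1200) (nat_lit 34144296) (.ev (nat_lit 2432) (nat_lit 536870912) (.ev (nat_lit 2448) (nat_lit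
 4194304) (.fin (nat_lit 576458003540558387)))))) (.ch (nat_lit 5) (.ev (nat_lit 1200) (nat_lit 69294686248)
 (.ev (nat_lit 1213) (nat_lit 4294967296) .dd)))) (.br (nat_lit 9) (.ch (nat_lit 6) (.ev (nat_lit 1200)
 (nat_lit 69289967648) (.ev (nat_lit 1876) (nat_lit 4294967296) (.ev (nat_lit 2112) (nat_lit 8) (.ev (nat_lit
 2420) (nat_lit 524288) (.ev (nat_lit 2429) (nat_lit 4194304) .dd)))))) (.br (nat_lit 12) (.ch (nat_lit 9) (.ev
 (nat_lit 1200) (nat_lit 73589588008) (.ev (nat_lit 1213) (nat_lit 65536) .dd))) (.ch (nat_lit 12) (.ev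
 (nat_lit 1200) (nat_lit 4299227136) (.ev (nat_lit 2320) (nat_lit 536870912) (.ev (nat_lit 2532) (nat_lit
 68719476776) (.ev (nat_lit 2544) (nat_lit 33554432) (.ev (nat_lit 2557) (nat_lit 524288)
 .dd))))))))))))))))))))) (.br (nat_lit 22) (.br (nat_lit 18) (.br (nat_lit 17) (.ch (nat_lit 16) (.ev (nat_lit
 52) (nat_lit 308287528) (.ev (nat_lit 532) (nat_lit 4294967296) (.ev (nat_lit 596) (nat_lit 8590458880) (.nd
 (nat_lit 1184) (.br (nat_lit 4) (.br (nat_lit 1) (.ch (nat_lit 0) (.ev (nat_lit 1200) (nat_lit 22334501027842)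
 (.ev (nat_lit 1876) (nat_lit 262144) (.ev (nat_lit 1885) (nat_lit 65536) .dd)))) (.br (nat_lit 2) (.ch
 (nat_lit 1) (.ev (nat_lit 1200) (nat_lit 22265647595522) (.nd (nat_lit 1792) (.br (nat_lit 3) (.br (nat_lit 2)
 (.ch (nat_lit 0) (.ev (nat_lit 1808) (nat_lit 68853760000) .dd)) (.ch (nat_lit 2) (.ev (nat_lit 1808) (nat_lit
 68853694464) (.ev (nat_lit 1821) (nat_lit 65536) .dd)))) (.br (nat_lit 6) (.ch (nat_lit 3) (.ev (nat_lit 1808)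
 (nat_lit 65536) (.ev (nat_lit 1876) (nat_lit 134217728) (.ev (nat_lit 1885) (nat_lit 68719476736) .dd)))) (.br
 (nat_lit 9) (.ch (nat_lit 6) (.ev (nat_lit 1808) (nat_lit 68853694464) (.ev (nat_lit 1821) (nat_lit 65536)
 .dd))) (.ch (nat_lit 9) (.ev (nat_lit 1808) (nat_lit 68853694464) (.ev (nat_lit 1821) (nat_lit 65536)
 .dd))))))))) (.ch (nat_lit 2) (.ev (nat_lit 1200) (nat_lit 343731666946) (.ev (nat_lit 1252) (nat_lit
 17592186044416) (.ev (nat_lit 2192) (nat_lit 4398046511104) (.ev (nat_lit 2420) (nat_lit 536870912) (.ev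
 (nat_lit 2429) (nat_lit 262144) .dd)))))))) (.br (nat_lit 9) (.br (nat_lit 5) (.ch (nat_lit 4) (.ev (nat_lit
 1200) (nat_lit 22333964156930) (.ev (nat_lit 1232) (nat_lit 65536) (.ev (nat_lit 1286) (nat_lit 262144) (.ev
 (nat_lit 1293) (nat_lit 536870912) .dd))))) (.ch (nat_lit 5) (.ev (nat_lit 1200) (nat_lit 17661576675330) (.nd
 (nat_lit 1792) (.br (nat_lit 8) (.br (nat_lit 3) (.ch (nat_lit 0) (.ev (nat_lit 1808) (nat_lit 4672924680192)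
 .dd)) (.ch (nat_lit 3) (.ev (nat_lit 1808) (nat_lit 274878169088) (.ev (nat_lit 1821) (nat_lit 4398046511104)
 .dd)))) (.br (nat_lit 10) (.ch (nat_lit 8) (.ev (nat_lit 1808) (nat_lit 4672924680192) .dd)) (.br (nat_lit 11)
 (.ch (nat_lit 10) (.ev (nat_lit 1808) (nat_lit 4672924418048) (.ev (nat_lit 1821) (nat_lit 262144) .dd))) (.ch
 (nat_lit 11) (.ev (nat_lit 1808) (nat_lit 4398046511104) (.ev (nat_lit 2420) (nat_lit 262144) (.ev (nat_lit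
 2429) (nat_lit 274877906944) .dd))))))))))) (.br (nat_lit 10) (.ch (nat_lit 9) (.ev (nat_lit 1200) (nat_lit
 344134582272) (.nd (nat_lit 1792) (.br (nat_lit 9) (.br (nat_lit 3) (.ch (nat_lit 0) (.ev (nat_lit 1808)
 (nat_lit 134217730) (.ev (nat_lit 1876) (nat_lit 17592186044416) (.ev (nat_lit 1885) (nat_lit 4398046511104)
 .dd)))) (.br (nat_lit 6) (.ch (nat_lit 3) (.ev (nat_lit 1808) (nat_lit 21990366773250) .dd)) (.ch (nat_lit 6)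
 (.ev (nat_lit 1808) (nat_lit 17592320262144) (.ev (nat_lit 2752) (nat_lit 2) (.ev (nat_lit 2765) (nat_lit
 4398046511104) .dd)))))) (.br (nat_lit 10) (.ch (nat_lit 9) (.ev (nat_lit 1808) (nat_lit 2) (.ev (nat_lit
 3140) (nat_lit 17592186044416) (.fin (nat_lit 576448107934859836))))) (.br (nat_lit 12) (.ch (nat_lit 10) (.ev
 (nat_lit 1808) (nat_lit 17592320262144) (.ev (nat_lit 1888) (nat_lit 4398046511106) .dd))) (.ch (nat_lit 12)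
 (.ev (nat_lit 1808) (nat_lit 4398180728834) (.ev (nat_lit 1821) (nat_lit 17592186044416) .dd))))))))) (.ch
 (nat_lit 10) (.ev (nat_lit 1200) (nat_lit 22059488968704) (.ev (nat_lit 2596) (nat_lit 2) (.ev (nat_lit 2624)
 (nat_lit 134217728) (.ev (nat_lit 2848) (nat_lit 274877906944) (.ev (nat_lit 2861) (nat_lit 262144)
 .dd)))))))))))))) (.ch (nat_lit 17) (.ev (nat_lit 52) (nat_lit 13158125570) (.ev (nat_lit 180) (nat_lit 2048)
 (.ev (nat_lit 212) (nat_lit 536870912) (.ev (nat_lit 244) (nat_lit 262144) (.ev (nat_lit 500) (nat_lit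
 68719476736) (.nd (nat_lit 1184) (.br (nat_lit 2) (.br (nat_lit 1) (.ch (nat_lit 0) (.ev (nat_lit 1200)
 (nat_lit 17592221696008) (.ev (nat_lit 1876) (nat_lit 274877906944) (.ev (nat_lit 1940) (nat_lit 134217728)
 (.ev (nat_lit 2320) (nat_lit 4398046511104) (.ev (nat_lit 2333) (nat_lit 32) .dd)))))) (.ch (nat_lit 1) (.ev
 (nat_lit 1200) (nat_lit 22265146114080) (.ev (nat_lit 1216) (nat_lit 134217728) (.ev (nat_lit 1229) (nat_lit
 8) .dd))))) (.br (nat_lit 4) (.ch (nat_lit 2) (.ev (nat_lit 1200) (nat_lit 136314920) (.ev (nat_lit 1876)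
 (nat_lit 17592186044416) (.ev (nat_lit 2432) (nat_lit 4398046511104) (.fin (nat_lit 576466799625191986))))))
 (.br (nat_lit 10) (.ch (nat_lit 4) (.ev (nat_lit 1200) (nat_lit 22265244680232) (.ev (nat_lit 1216) (nat_lit
 33554432) (.ev (nat_lit 1229) (nat_lit 2097152) .dd)))) (.ch (nat_lit 10) (.ev (nat_lit 1200) (nat_lit
 4672924418048) (.ev (nat_lit 1940) (nat_lit 134217728) (.ev (nat_lit 2176) (nat_lit 32) (.ev (nat_lit 2244)
 (nat_lit 8) (.ev (nat_lit 2420) (nat_lit 33554432) (.ev (nat_lit 2836) (nat_lit 2097152) (.ev (nat_lit 2845)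
 (nat_lit 17592186044416) .dd))))))))))))))))))) (.br (nat_lit 21) (.ch (nat_lit 18) (.ev (nat_lit 52) (nat_lit
 4750233901058) (.ev (nat_lit 256) (nat_lit 17597461168168) .dd))) (.ch (nat_lit 21) (.ev (nat_lit 52) (nat_lit
 343599482920) (.ev (nat_lit 84) (nat_lit 2) (.ev (nat_lit 148) (nat_lit 536870912) (.ev (nat_lit 180) (nat_lit
 4398046511104) (.ev (nat_lit 436) (nat_lit 4294967296) (.ev (nat_lit 500) (nat_lit 8589934592) (.nd (nat_lit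
 1184) (.br (nat_lit 6) (.br (nat_lit 1) (.ch (nat_lit 0) (.ev (nat_lit 1200) (nat_lit 17592492756992) (.ev
 (nat_lit 1252) (nat_lit 134217728) (.ev (nat_lit 2596) (nat_lit 65536) (.ev (nat_lit 2605) (nat_lit 262144)
 .dd))))) (.br (nat_lit 5) (.ch (nat_lit 1) (.ev (nat_lit 1200) (nat_lit 17592488562688) (.nd (nat_lit 1792)
 (.br (nat_lit 6) (.br (nat_lit 2) (.ch (nat_lit 1) (.ev (nat_lit 1808) (nat_lit 134283264) (.ev (nat_lit 1888)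
 (nat_lit 4194304) (.ev (nat_lit 1901) (nat_lit 262144) .dd)))) (.br (nat_lit 3) (.ch (nat_lit 2) (.ev (nat_lit
 1808) (nat_lit 138674176) (.ev (nat_lit 1821) (nat_lit 65536) .dd))) (.ch (nat_lit 3) (.ev (nat_lit 1808)
 (nat_lit 138674176) (.ev (nat_lit 1821) (nat_lit 65536) .dd))))) (.br (nat_lit 8) (.ch (nat_lit 6) (.ev
 (nat_lit 1808) (nat_lit 327680) (.ev (nat_lit 2532) (nat_lit 4194304) (.ev (nat_lit 2541) (nat_lit 134217728)
 .dd)))) (.br (nat_lit 9) (.ch (nat_lit 8) (.ev (nat_lit 1808) (nat_lit 134479872) (.ev (nat_lit 2532) (nat_lit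
 4194304) (.ev (nat_lit 2541) (nat_lit 65536) .dd)))) (.ch (nat_lit 9) (.ev (nat_lit 1808) (nat_lit 4259840)
 (.ev (nat_lit 1876) (nat_lit 262144) (.ev (nat_lit 1885) (nat_lit 134217728) .dd)))))))))) (.ch (nat_lit 5)
 (.ev (nat_lit 1200) (nat_lit 17592354148352) (.nd (nat_lit 1792) (.br (nat_lit 10) (.br (nat_lit 4) (.ch
 (nat_lit 0) (.ev (nat_lit 1808) (nat_lit 273154048) .dd)) (.br (nat_lit 8) (.ch (nat_lit 4) (.ev (nat_lit
 1808) (nat_lit 268435456) (.ev (nat_lit 2368) (nat_lit 4194304) (.ev (nat_lit 2381) (nat_lit 524288) .dd))))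
 (.ch (nat_lit 8) (.ev (nat_lit 1808) (nat_lit 272629760) (.ev (nat_lit 1821) (nat_lit 524288) .dd))))) (.br
 (nat_lit 11) (.ch (nat_lit 10) (.ev (nat_lit 1808) (nat_lit 273154048) .dd)) (.br (nat_lit 12) (.ch (nat_lit
 11) (.ev (nat_lit 1808) (nat_lit 4194304) (.ev (nat_lit 2532) (nat_lit 524288) (.ev (nat_lit 2541) (nat_lit
 268435456) .dd)))) (.ch (nat_lit 12) (.ev (nat_lit 1808) (nat_lit 268959744) (.ev (nat_lit 1821) (nat_lit
 4194304) .dd))))))))))) (.br (nat_lit 9) (.ch (nat_lit 6) (.ev (nat_lit 1200) (nat_lit 17592358862848) (.ev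
 (nat_lit 2336) (nat_lit 4096) (.ev (nat_lit 2349) (nat_lit 268435456) .dd)))) (.br (nat_lit 10) (.ch (nat_lit
 9) (.ev (nat_lit 1200) (nat_lit 440664064) (.ev (nat_lit 1252) (nat_lit 17592186044416) (.nd (nat_lit 1792)
 (.br (nat_lit 8) (.br (nat_lit 5) (.ch (nat_lit 0) (.ev (nat_lit 1808) (nat_lit 65536) (.ev (nat_lit 2256)
 (nat_lit 528384) .dd))) (.br (nat_lit 6) (.ch (nat_lit 5) (.ev (nat_lit 1808) (nat_lit 524288) (.ev (nat_lit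
 3174) (nat_lit 69632) .dd))) (.ch (nat_lit 6) (.ev (nat_lit 2144) (nat_lit 4096) (.ev (nat_lit 2752) (nat_lit
 65536) (.ev (nat_lit 2765) (nat_lit 524288) .dd)))))) (.br (nat_lit 9) (.ch (nat_lit 8) (.ev (nat_lit 1808)
 (nat_lit 593920) .dd)) (.br (nat_lit 11) (.ch (nat_lit 9) (.ev (nat_lit 1808) (nat_lit 593920) .dd)) (.ch
 (nat_lit 11) (.ev (nat_lit 1808) (nat_lit 4096) (.ev (nat_lit 2480) (nat_lit 524288) (.ev (nat_lit 2493)
 (nat_lit 65536) .dd))))))))))) (.ch (nat_lit 10) (.ev (nat_lit 1200) (nat_lit 407109632) (.ev (nat_lit 1876)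
 (nat_lit 17592186044416) (.ev (nat_lit 2080) (nat_lit 524288) (.ev (nat_lit 3382) (nat_lit 4096) (.nd (nat_lit
 3680) (.br (nat_lit 3) (.ch (nat_lit 2) (.fin (nat_lit 576465700104127060))) (.br (nat_lit 6) (.ch (nat_lit 3)
 (.ev (nat_lit 3696) (nat_lit 33554432) (.ev (nat_lit 3709) (nat_lit 65536) .dd))) (.ch (nat_lit 6) (.ev
 (nat_lit 3696) (nat_lit 33554432) (.ev (nat_lit 3709) (nat_lit 65536) .dd)))))))))))))))))))))))) (.br
 (nat_lit 26) (.br (nat_lit 24) (.ch (nat_lit 22) (.ev (nat_lit 52) (nat_lit 21995098802210) (.ev (nat_lit 340)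
 (nat_lit 268435456) (.nd (nat_lit 1184) (.br (nat_lit 6) (.br (nat_lit 2) (.ch (nat_lit 0) (.ev (nat_lit 1200)
 (nat_lit 352193613832) (.ev (nat_lit 1213) (nat_lit 134217728) .dd))) (.br (nat_lit 5) (.ch (nat_lit 2) (.ev
 (nat_lit 1200) (nat_lit 275016323080) (.ev (nat_lit 1888) (nat_lit 68719476736) (.ev (nat_lit 2000) (nat_lit
 8592031744) .dd)))) (.ch (nat_lit 5) (.ev (nat_lit 1200) (nat_lit 68859990024) (.nd (nat_lit 1792) (.br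
 (nat_lit 10) (.br (nat_lit 9) (.ch (nat_lit 2) (.ev (nat_lit 1808) (nat_lit 283467841536) .dd)) (.ch (nat_lit
 9) (.ev (nat_lit 1808) (nat_lit 8589934592) (.ev (nat_lit 1821) (nat_lit 274877906944) .dd)))) (.br (nat_lit
 12) (.ch (nat_lit 10) (.ev (nat_lit 1808) (nat_lit 274877906944) (.ev (nat_lit 1821) (nat_lit 8589934592)
 .dd))) (.ch (nat_lit 12) (.ev (nat_lit 1808) (nat_lit 274877906944) (.ev (nat_lit 1821) (nat_lit 8589934592)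
 .dd)))))))))) (.br (nat_lit 9) (.ch (nat_lit 6) (.ev (nat_lit 1200) (nat_lit 8726249480) (.ev (nat_lit 1712)
 (nat_lit 4194304) (.ev (nat_lit 1876) (nat_lit 4096) (.ev (nat_lit 1940) (nat_lit 68719476736) (.ev (nat_lit
 1949) (nat_lit 274877906944) .dd)))))) (.br (nat_lit 10) (.ch (nat_lit 9) (.ev (nat_lit 1200) (nat_lit
 352193609736) (.ev (nat_lit 1252) (nat_lit 4096) (.ev (nat_lit 1261) (nat_lit 134217728) .dd)))) (.ch (nat_lit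
 10) (.ev (nat_lit 1200) (nat_lit 283467841536) (.ev (nat_lit 1766) (nat_lit 8) (.ev (nat_lit 2420) (nat_lit
 134217728) (.ev (nat_lit 2532) (nat_lit 4198400) (.ev (nat_lit 3040) (nat_lit 68721573888) .dd)))))))))))))
 (.ch (nat_lit 24) (.ev (nat_lit 52) (nat_lit 77446512650) (.ev (nat_lit 116) (nat_lit 4194304) (.ev (nat_lit
 436) (nat_lit 32) (.nd (nat_lit 1184) (.br (nat_lit 6) (.br (nat_lit 2) (.ch (nat_lit 0) (.ev (nat_lit 1200)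
 (nat_lit 22270244358144) (.ev (nat_lit 1213) (nat_lit 4096) .dd))) (.br (nat_lit 5) (.ch (nat_lit 2) (.ev
 (nat_lit 1200) (nat_lit 4398080137216) (.ev (nat_lit 1252) (nat_lit 4294967296) (.ev (nat_lit 1952) (nat_lit
 268435456) (.ev (nat_lit 1968) (nat_lit 274877906944) (.ev (nat_lit 2596) (nat_lit 17592186044416) (.ev
 (nat_lit 2605) (nat_lit 536870912) .dd))))))) (.ch (nat_lit 5) (.ev (nat_lit 1200) (nat_lit 21990769496064)
 (.nd (nat_lit 1792) (.br (nat_lit 2) (.ch (nat_lit 0) (.ev (nat_lit 1808) (nat_lit 4294969344) (.ev (nat_lit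
 1940) (nat_lit 268435456) (.ev (nat_lit 3030) (nat_lit 274911461376) .dd)))) (.br (nat_lit 12) (.ch (nat_lit
 2) (.ev (nat_lit 1808) (nat_lit 275146342400) (.ev (nat_lit 1876) (nat_lit 4294967296) (.ev (nat_lit 1940)
 (nat_lit 2048) (.ev (nat_lit 1949) (nat_lit 33554432) .dd))))) (.ch (nat_lit 12) (.ev (nat_lit 1808) (nat_lit
 4596957184) (.ev (nat_lit 1920) (nat_lit 2048) (.ev (nat_lit 1933) (nat_lit 274877906944) .dd))))))))))) (.br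
 (nat_lit 9) (.ch (nat_lit 6) (.ev (nat_lit 1200) (nat_lit 275179968512) (.ev (nat_lit 2420) (nat_lit
 4294967296) (.ev (nat_lit 2448) (nat_lit 21990232555520) (.ev (nat_lit 2461) (nat_lit 536870912) .dd))))) (.br
 (nat_lit 10) (.ch (nat_lit 9) (.ev (nat_lit 1200) (nat_lit 17872197781504) (.ev (nat_lit 2576) (nat_lit
 4398046511104) (.fin (nat_lit 576463501106037312))))) (.ch (nat_lit 10) (.ev (nat_lit 1200) (nat_lit
 21994796029952) (.ev (nat_lit 1888) (nat_lit 275414777856) (.ev (nat_lit 1901) (nat_lit 33554432)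
 .dd))))))))))))) (.br (nat_lit 28) (.ch (nat_lit 26) (.ev (nat_lit 52) (nat_lit 17670204362786) (.ev (nat_lit
 576) (nat_lit 4677490706440) .dd))) (.br (nat_lit 29) (.ch (nat_lit 28) (.ev (nat_lit 52) (nat_lit
 357457467394) (.ev (nat_lit 468) (nat_lit 4398046511104) (.ev (nat_lit 500) (nat_lit 8) (.ev (nat_lit 692)
 (nat_lit 17592186044416) (.nd (nat_lit 1184) (.br (nat_lit 6) (.br (nat_lit 4) (.ch (nat_lit 0) (.ev (nat_lit
 1200) (nat_lit 4784128) (.ev (nat_lit 2900) (nat_lit 262144) (.ev (nat_lit 2909) (nat_lit 32) .dd)))) (.br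
 (nat_lit 5) (.ch (nat_lit 4) (.ev (nat_lit 1200) (nat_lit 4194304) (.nd (nat_lit 1792) (.br (nat_lit 9) (.br
 (nat_lit 3) (.ch (nat_lit 0) (.ev (nat_lit 1808) (nat_lit 851968) (.ev (nat_lit 1821) (nat_lit 32) .dd))) (.br
 (nat_lit 5) (.ch (nat_lit 3) (.ev (nat_lit 1808) (nat_lit 65536) (.ev (nat_lit 2532) (nat_lit 262176) (.ev
 (nat_lit 2541) (nat_lit 524288) .dd)))) (.ch (nat_lit 5) (.ev (nat_lit 1808) (nat_lit 786432) (.ev (nat_lit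
 2532) (nat_lit 32) (.ev (nat_lit 2541) (nat_lit 65536) .dd)))))) (.br (nat_lit 11) (.ch (nat_lit 9) (.ev
 (nat_lit 1808) (nat_lit 65568) (.ev (nat_lit 2256) (nat_lit 524288) (.ev (nat_lit 2269) (nat_lit 262144)
 .dd)))) (.br (nat_lit 12) (.ch (nat_lit 11) (.ev (nat_lit 1808) (nat_lit 589824) (.ev (nat_lit 2532) (nat_lit
 32) (.ev (nat_lit 2541) (nat_lit 262144) .dd)))) (.ch (nat_lit 12) (.ev (nat_lit 1808) (nat_lit 262176) (.ev
 (nat_lit 2192) (nat_lit 589824) .dd))))))))) (.ch (nat_lit 5) (.ev (nat_lit 1200) (nat_lit 852000) (.ev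
 (nat_lit 1213) (nat_lit 4194304) .dd))))) (.br (nat_lit 10) (.ch (nat_lit 6) (.ev (nat_lit 1200) (nat_lit
 327712) (.ev (nat_lit 2900) (nat_lit 524288) (.ev (nat_lit 2909) (nat_lit 4194304) .dd)))) (.br (nat_lit 12)
 (.ch (nat_lit 10) (.ev (nat_lit 1200) (nat_lit 4194304) (.nd (nat_lit 1792) (.br (nat_lit 7) (.br (nat_lit 2)
 (.ch (nat_lit 0) (.ev (nat_lit 1808) (nat_lit 851968) (.ev (nat_lit 1821) (nat_lit 32) .dd))) (.br (nat_lit 6)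
 (.ch (nat_lit 2) (.ev (nat_lit 1808) (nat_lit 851968) (.ev (nat_lit 1821) (nat_lit 32) .dd))) (.ch (nat_lit 6)
 (.ev (nat_lit 1808) (nat_lit 65568) (.ev (nat_lit 1940) (nat_lit 262144) (.ev (nat_lit 1949) (nat_lit 524288)
 .dd)))))) (.br (nat_lit 8) (.ch (nat_lit 7) (.ev (nat_lit 1808) (nat_lit 327712) (.ev (nat_lit 1821) (nat_lit
 524288) .dd))) (.br (nat_lit 12) (.ch (nat_lit 8) (.ev (nat_lit 1808) (nat_lit 852000) .dd)) (.ch (nat_lit 12)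
 (.ev (nat_lit 1808) (nat_lit 262144) (.ev (nat_lit 1876) (nat_lit 524288) (.ev (nat_lit 1940) (nat_lit 65536)
 (.ev (nat_lit 1949) (nat_lit 32) .dd))))))))))) (.ch (nat_lit 12) (.ev (nat_lit 1200) (nat_lit 5046272) (.ev
 (nat_lit 1213) (nat_lit 32) .dd)))))))))))) (.ch (nat_lit 29) (.ev (nat_lit 52) (nat_lit 288467519528) (.ev
 (nat_lit 84) (nat_lit 262144) (.ev (nat_lit 180) (nat_lit 4096) (.ev (nat_lit 212) (nat_lit 268435456) (.ev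
 (nat_lit 628) (nat_lit 4398046511104) (.nd (nat_lit 1184) (.br (nat_lit 9) (.br (nat_lit 4) (.ch (nat_lit 0)
 (.ev (nat_lit 1200) (nat_lit 17660910239746) (.ev (nat_lit 1213) (nat_lit 2097152) .dd))) (.br (nat_lit 5)
 (.ch (nat_lit 4) (.ev (nat_lit 1200) (nat_lit 6291458) (.nd (nat_lit 1792) (.br (nat_lit 6) (.br (nat_lit 5)
 (.ch (nat_lit 4) (.ev (nat_lit 1808) (nat_lit 17660905521152) (.ev (nat_lit 1821) (nat_lit 524288) .dd))) (.ch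
 (nat_lit 5) (.ev (nat_lit 1808) (nat_lit 17592186568704) (.ev (nat_lit 1821) (nat_lit 68719476736) .dd))))
 (.br (nat_lit 11) (.ch (nat_lit 6) (.ev (nat_lit 1808) (nat_lit 17660906045440) .dd)) (.br (nat_lit 12) (.ch
 (nat_lit 11) (.ev (nat_lit 1808) (nat_lit 524288) (.ev (nat_lit 1988) (nat_lit 68719476736) (.ev (nat_lit
 1997) (nat_lit 17592186044416) .dd)))) (.ch (nat_lit 12) (.ev (nat_lit 1808) (nat_lit 17660906045440)
 .dd)))))))) (.ch (nat_lit 5) (.ev (nat_lit 1200) (nat_lit 17660906045440) (.ev (nat_lit 1680) (nat_lit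
 4194304) (.ev (nat_lit 2304) (nat_lit 2) (.ev (nat_lit 2317) (nat_lit 2097152) .dd))))))) (.br (nat_lit 10)
 (.ch (nat_lit 9) (.ev (nat_lit 1200) (nat_lit 68726292482) (.ev (nat_lit 1213) (nat_lit 17592186044416) .dd)))
 (.br (nat_lit 12) (.ch (nat_lit 10) (.ev (nat_lit 1200) (nat_lit 17592188665858) (.ev (nat_lit 1876) (nat_lit
 68719476736) (.ev (nat_lit 1885) (nat_lit 4194304) .dd)))) (.ch (nat_lit 12) (.ev (nat_lit 1200) (nat_lit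
 17660911812608) (.ev (nat_lit 1876) (nat_lit 2) (.ev (nat_lit 1885) (nat_lit 524288) .dd)))))))))))))))))))
 (.br (nat_lit 42) (.br (nat_lit 38) (.br (nat_lit 36) (.br (nat_lit 33) (.ch (nat_lit 31) (.ev (nat_lit 52)
 (nat_lit 4755338625066) (.ev (nat_lit 244) (nat_lit 33554432) (.ev (nat_lit 1040) (nat_lit 17592322889728)
 .dd)))) (.ch (nat_lit 33) (.ev (nat_lit 52) (nat_lit 4750643036160) (.ev (nat_lit 320) (nat_lit
 17597052033066) .dd)))) (.br (nat_lit 37) (.ch (nat_lit 36) (.ev (nat_lit 52) (nat_lit 73019492352) (.ev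
 (nat_lit 116) (nat_lit 8589934592) (.ev (nat_lit 148) (nat_lit 274877906944) (.ev (nat_lit 180) (nat_lit
 17592186044416) (.ev (nat_lit 532) (nat_lit 4096) (.ev (nat_lit 628) (nat_lit 32) (.nd (nat_lit 1184) (.br
 (nat_lit 9) (.br (nat_lit 1) (.ch (nat_lit 0) (.ev (nat_lit 1200) (nat_lit 840957962) (.ev (nat_lit 2532)
 (nat_lit 4398046511104) (.ev (nat_lit 2541) (nat_lit 134217728) .dd)))) (.br (nat_lit 2) (.ch (nat_lit 1) (.ev
 (nat_lit 1200) (nat_lit 4398216380426) (.nd (nat_lit 1792) (.br (nat_lit 3) (.br (nat_lit 1) (.ch (nat_lit 0)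
 (.ev (nat_lit 1808) (nat_lit 536870912) (.ev (nat_lit 1821) (nat_lit 268435456) .dd))) (.br (nat_lit 2) (.ch
 (nat_lit 1) (.ev (nat_lit 1808) (nat_lit 536870912) (.ev (nat_lit 1821) (nat_lit 268435456) .dd))) (.ch
 (nat_lit 2) (.ev (nat_lit 1808) (nat_lit 268435456) (.ev (nat_lit 1821) (nat_lit 536870912) .dd))))) (.br
 (nat_lit 8) (.ch (nat_lit 3) (.ev (nat_lit 1808) (nat_lit 805306368) .dd)) (.br (nat_lit 12) (.ch (nat_lit 8)
 (.ev (nat_lit 1808) (nat_lit 268435456) (.ev (nat_lit 1821) (nat_lit 536870912) .dd))) (.ch (nat_lit 12) (.ev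
 (nat_lit 1808) (nat_lit 805306368) .dd)))))))) (.ch (nat_lit 2) (.ev (nat_lit 1200) (nat_lit 402653194) (.ev
 (nat_lit 2016) (nat_lit 4398046511104) (.ev (nat_lit 2948) (nat_lit 2097152) (.ev (nat_lit 2980) (nat_lit
 33554432) (.ev (nat_lit 2989) (nat_lit 536870912) .dd)))))))) (.br (nat_lit 10) (.ch (nat_lit 9) (.ev (nat_lit
 1200) (nat_lit 838860800) (.ev (nat_lit 2532) (nat_lit 8) (.ev (nat_lit 2836) (nat_lit 2) (.ev (nat_lit 3280)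
 (nat_lit 2097152) (.nd (nat_lit 3552) (.br (nat_lit 9) (.ch (nat_lit 6) (.ev (nat_lit 3568) (nat_lit
 4398046511104) (.ev (nat_lit 3581) (nat_lit 134217728) .dd))) (.br (nat_lit 10) (.ch (nat_lit 9) (.fin
 (nat_lit 576448107934859836))) (.ch (nat_lit 10) (.ev (nat_lit 3568) (nat_lit 4398046511104) (.ev (nat_lit
 3581) (nat_lit 134217728) .dd))))))))))) (.br (nat_lit 12) (.ch (nat_lit 10) (.ev (nat_lit 1200) (nat_lit
 4398885371904) (.ev (nat_lit 2596) (nat_lit 134217728) (.ev (nat_lit 2608) (nat_lit 2) (.ev (nat_lit 2912)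
 (nat_lit 8) (.ev (nat_lit 2925) (nat_lit 2097152) .dd)))))) (.ch (nat_lit 12) (.ev (nat_lit 1200) (nat_lit
 4398082162690) (.ev (nat_lit 1252) (nat_lit 268435456) (.ev (nat_lit 2740) (nat_lit 8) (.ev (nat_lit 3204)
 (nat_lit 134217728) (.ev (nat_lit 3213) (nat_lit 536870912) .dd))))))))))))))))) (.ch (nat_lit 37) (.ev
 (nat_lit 52) (nat_lit 22266083612672) (.ev (nat_lit 308) (nat_lit 262144) (.ev (nat_lit 340) (nat_lit
 8589934592) (.ev (nat_lit 404) (nat_lit 4194304) (.ev (nat_lit 976) (nat_lit 73017065514) .dd)))))))) (.br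
 (nat_lit 40) (.br (nat_lit 39) (.ch (nat_lit 38) (.ev (nat_lit 52) (nat_lit 9297201184) (.ev (nat_lit 84)
 (nat_lit 4096) (.ev (nat_lit 148) (nat_lit 4194304) (.ev (nat_lit 436) (nat_lit 4398046511104) (.ev (nat_lit
 1060) (nat_lit 268435456) (.nd (nat_lit 1184) (.br (nat_lit 5) (.br (nat_lit 2) (.ch (nat_lit 1) (.ev (nat_lit
 1200) (nat_lit 17871358984202) (.nd (nat_lit 1792) (.br (nat_lit 3) (.br (nat_lit 1) (.ch (nat_lit 0) (.ev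
 (nat_lit 1808) (nat_lit 68719738880) .dd)) (.br (nat_lit 2) (.ch (nat_lit 1) (.ev (nat_lit 1808) (nat_lit
 68719476736) (.ev (nat_lit 1821) (nat_lit 262144) .dd))) (.ch (nat_lit 2) (.ev (nat_lit 1808) (nat_lit
 68719738880) .dd)))) (.br (nat_lit 9) (.br (nat_lit 8) (.ch (nat_lit 3) (.ev (nat_lit 1808) (nat_lit
 68719738880) .dd)) (.ch (nat_lit 8) (.ev (nat_lit 1808) (nat_lit 262144) (.ev (nat_lit 1821) (nat_lit
 68719476736) .dd)))) (.br (nat_lit 10) (.ch (nat_lit 9) (.ev (nat_lit 1808) (nat_lit 68719476736) (.ev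
 (nat_lit 1821) (nat_lit 262144) .dd))) (.ch (nat_lit 10) (.ev (nat_lit 1808) (nat_lit 68719738880) .dd))))))))
 (.br (nat_lit 4) (.ch (nat_lit 2) (.ev (nat_lit 1200) (nat_lit 327690) (.ev (nat_lit 2768) (nat_lit
 17592186044416) (.ev (nat_lit 2848) (nat_lit 274877906944) (.nd (nat_lit 3648) (.br (nat_lit 4) (.ch (nat_lit
 1) (.ev (nat_lit 3664) (nat_lit 68719476736) (.ev (nat_lit 3677) (nat_lit 4294967296) .dd))) (.ch (nat_lit 4)
 (.fin (nat_lit 576464600580964941))))))))) (.ch (nat_lit 4) (.ev (nat_lit 1200) (nat_lit 17935783428106) (.nd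
 (nat_lit 1792) (.br (nat_lit 6) (.br (nat_lit 4) (.ch (nat_lit 3) (.ev (nat_lit 1808) (nat_lit 4295294976)
 .dd)) (.br (nat_lit 5) (.ch (nat_lit 4) (.ev (nat_lit 1808) (nat_lit 4295032832) (.ev (nat_lit 1821) (nat_lit
 262144) .dd))) (.ch (nat_lit 5) (.ev (nat_lit 1808) (nat_lit 4295229440) (.ev (nat_lit 1821) (nat_lit 65536)
 .dd))))) (.br (nat_lit 8) (.ch (nat_lit 6) (.ev (nat_lit 1808) (nat_lit 262144) (.ev (nat_lit 2164) (nat_lit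
 65536) (.ev (nat_lit 2173) (nat_lit 4294967296) .dd)))) (.br (nat_lit 9) (.ch (nat_lit 8) (.ev (nat_lit 1808)
 (nat_lit 65536) (.ev (nat_lit 2224) (nat_lit 262144) (.ev (nat_lit 2237) (nat_lit 4294967296) .dd)))) (.ch
 (nat_lit 9) (.ev (nat_lit 1808) (nat_lit 65536) (.ev (nat_lit 2836) (nat_lit 4294967296) (.ev (nat_lit 2845)
 (nat_lit 262144) .dd)))))))))))) (.br (nat_lit 9) (.ch (nat_lit 5) (.ev (nat_lit 1200) (nat_lit
 17660905586690) (.nd (nat_lit 1792) (.br (nat_lit 10) (.br (nat_lit 4) (.ch (nat_lit 2) (.ev (nat_lit 1808)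
 (nat_lit 274877906944) (.ev (nat_lit 1876) (nat_lit 262144) (.ev (nat_lit 2096) (nat_lit 8) (.ev (nat_lit
 2109) (nat_lit 4294967296) .dd))))) (.br (nat_lit 8) (.ch (nat_lit 4) (.ev (nat_lit 1808) (nat_lit
 279173136392) .dd)) (.ch (nat_lit 8) (.ev (nat_lit 1808) (nat_lit 4295229448) (.ev (nat_lit 1821) (nat_lit
 274877906944) .dd))))) (.br (nat_lit 11) (.ch (nat_lit 10) (.ev (nat_lit 1808) (nat_lit 274877906952) (.ev
 (nat_lit 2596) (nat_lit 262144) (.ev (nat_lit 2605) (nat_lit 4294967296) .dd)))) (.br (nat_lit 12) (.ch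
 (nat_lit 11) (.ev (nat_lit 1808) (nat_lit 262152) (.ev (nat_lit 2432) (nat_lit 274877906944) (.ev (nat_lit
 2445) (nat_lit 4294967296) .dd)))) (.ch (nat_lit 12) (.ev (nat_lit 1808) (nat_lit 4294967304) (.ev (nat_lit
 2720) (nat_lit 274877906944) (.ev (nat_lit 2733) (nat_lit 262144) .dd)))))))))) (.br (nat_lit 12) (.ch
 (nat_lit 9) (.ev (nat_lit 1200) (nat_lit 73014706176) (.ev (nat_lit 1876) (nat_lit 8) (.ev (nat_lit 1968)
 (nat_lit 65536) (.ev (nat_lit 2000) (nat_lit 17592186044416) (.ev (nat_lit 2980) (nat_lit 2) (.ev (nat_lit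
 2989) (nat_lit 274877906944) .dd))))))) (.ch (nat_lit 12) (.ev (nat_lit 1200) (nat_lit 17940078723080) (.ev
 (nat_lit 1213) (nat_lit 2) .dd))))))))))))) (.ch (nat_lit 39) (.ev (nat_lit 52) (nat_lit 17871628140586) (.ev
 (nat_lit 276) (nat_lit 536870912) (.ev (nat_lit 340) (nat_lit 134217728) (.ev (nat_lit 628) (nat_lit 2097152)
 (.nd (nat_lit 1184) (.br (nat_lit 9) (.br (nat_lit 2) (.ch (nat_lit 1) (.ev (nat_lit 1200) (nat_lit
 4475389476864) (.nd (nat_lit 1792) (.br (nat_lit 9) (.br (nat_lit 3) (.ch (nat_lit 1) (.ev (nat_lit 1808)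
 (nat_lit 4259840) (.ev (nat_lit 1940) (nat_lit 4096) (.ev (nat_lit 1949) (nat_lit 2048) .dd)))) (.br (nat_lit
 8) (.ch (nat_lit 3) (.ev (nat_lit 1808) (nat_lit 6144) (.ev (nat_lit 2688) (nat_lit 65536) (.ev (nat_lit 2701)
 (nat_lit 4194304) .dd)))) (.ch (nat_lit 8) (.ev (nat_lit 1808) (nat_lit 65536) (.ev (nat_lit 1876) (nat_lit
 4096) (.ev (nat_lit 2244) (nat_lit 2048) (.ev (nat_lit 2253) (nat_lit 4194304) .dd))))))) (.br (nat_lit 10)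
 (.ch (nat_lit 9) (.ev (nat_lit 1808) (nat_lit 4096) (.ev (nat_lit 1888) (nat_lit 4259840) (.ev (nat_lit 1901)
 (nat_lit 2048) .dd)))) (.br (nat_lit 12) (.ch (nat_lit 10) (.ev (nat_lit 1808) (nat_lit 4261888) (.ev (nat_lit
 1821) (nat_lit 4096) .dd))) (.ch (nat_lit 12) (.ev (nat_lit 1808) (nat_lit 4265984) .dd)))))))) (.br (nat_lit
 4) (.ch (nat_lit 2) (.ev (nat_lit 1200) (nat_lit 8590006272) (.ev (nat_lit 2660) (nat_lit 4398046511104) (.ev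
 (nat_lit 2740) (nat_lit 4194304) (.ev (nat_lit 2912) (nat_lit 68753031168) .dd))))) (.ch (nat_lit 4) (.ev
 (nat_lit 1200) (nat_lit 4475360122880) (.nd (nat_lit 1792) (.br (nat_lit 8) (.ch (nat_lit 5) (.ev (nat_lit
 1808) (nat_lit 33554432) (.ev (nat_lit 1821) (nat_lit 65536) .dd))) (.br (nat_lit 12) (.ch (nat_lit 8) (.ev
 (nat_lit 1808) (nat_lit 65536) (.ev (nat_lit 1821) (nat_lit 33554432) .dd))) (.ch (nat_lit 12) (.ev (nat_lit
 1808) (nat_lit 33619968) .dd))))))))) (.br (nat_lit 10) (.ch (nat_lit 9) (.ev (nat_lit 1200) (nat_lit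
 4466803806208) (.ev (nat_lit 2192) (nat_lit 8589934592) (.ev (nat_lit 2205) (nat_lit 2048) .dd)))) (.br
 (nat_lit 12) (.ch (nat_lit 10) (.ev (nat_lit 1200) (nat_lit 8589940736) (.ev (nat_lit 1478) (nat_lit 4194304)
 (.ev (nat_lit 2164) (nat_lit 4398046511104) (.ev (nat_lit 2740) (nat_lit 68719476736) (.nd (nat_lit 3392) (.br
 (nat_lit 2) (.ch (nat_lit 0) (.ev (nat_lit 3408) (nat_lit 65536) (.ev (nat_lit 3421) (nat_lit 33554432) .dd)))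
 (.br (nat_lit 7) (.ch (nat_lit 2) (.fin (nat_lit 576465700104127060))) (.ch (nat_lit 7) (.ev (nat_lit 3408)
 (nat_lit 65536) (.ev (nat_lit 3421) (nat_lit 33554432) .dd))))))))))) (.ch (nat_lit 12) (.ev (nat_lit 1200)
 (nat_lit 4398050775040) (.ev (nat_lit 1252) (nat_lit 8589934592) (.ev (nat_lit 2996) (nat_lit 68719476736)
 (.ev (nat_lit 3238) (nat_lit 2048) (.ev (nat_lit 3245) (nat_lit 33554432) .dd)))))))))))))))) (.br (nat_lit
 41) (.ch (nat_lit 40) (.ev (nat_lit 52) (nat_lit 347897397288) (.ev (nat_lit 308) (nat_lit 4398046511104) (.nd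
 (nat_lit 1184) (.br (nat_lit 5) (.br (nat_lit 2) (.ch (nat_lit 1) (.ev (nat_lit 1200) (nat_lit 17600943757314)
 (.ev (nat_lit 2176) (nat_lit 268435456) (.ev (nat_lit 2996) (nat_lit 536870912) (.ev (nat_lit 3005) (nat_lit
 2097152) .dd))))) (.br (nat_lit 4) (.ch (nat_lit 2) (.ev (nat_lit 1200) (nat_lit 17592590800898) (.ev (nat_lit
 1876) (nat_lit 536870912) (.ev (nat_lit 2336) (nat_lit 33554432) (.ev (nat_lit 2349) (nat_lit 8589934592)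
 .dd))))) (.ch (nat_lit 4) (.ev (nat_lit 1200) (nat_lit 8724156416) (.nd (nat_lit 1792) (.br (nat_lit 9) (.br
 (nat_lit 3) (.ch (nat_lit 0) (.ev (nat_lit 1808) (nat_lit 17592454481922) (.ev (nat_lit 2256) (nat_lit
 572522496) .dd))) (.br (nat_lit 4) (.ch (nat_lit 3) (.ev (nat_lit 1808) (nat_lit 17592186046464) (.ev (nat_lit
 2144) (nat_lit 33554432) (.ev (nat_lit 2420) (nat_lit 268435456) (.ev (nat_lit 2752) (nat_lit 2) (.ev (nat_lit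
 3158) (nat_lit 538968064) .dd)))))) (.ch (nat_lit 4) (.ev (nat_lit 1808) (nat_lit 17592758566914) (.ev
 (nat_lit 2496) (nat_lit 268435456) (.ev (nat_lit 2509) (nat_lit 2048) .dd)))))) (.br (nat_lit 11) (.ch
 (nat_lit 9) (.ev (nat_lit 1808) (nat_lit 17592993449984) (.fin (nat_lit 576468998666273313)))) (.br (nat_lit
 12) (.ch (nat_lit 11) (.ev (nat_lit 1808) (nat_lit 17592221698050) (.ev (nat_lit 1876) (nat_lit 268435456)
 (.ev (nat_lit 1885) (nat_lit 536870912) .dd)))) (.ch (nat_lit 12) (.ev (nat_lit 1808) (nat_lit 838862848) (.ev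
 (nat_lit 2480) (nat_lit 2097152) (.ev (nat_lit 2576) (nat_lit 17592186044418) .dd)))))))))))) (.br (nat_lit
 10) (.ch (nat_lit 5) (.ev (nat_lit 1200) (nat_lit 17593161224192) (.ev (nat_lit 1494) (nat_lit 2048) (.ev
 (nat_lit 2176) (nat_lit 8589934592) (.ev (nat_lit 2189) (nat_lit 2) .dd))))) (.br (nat_lit 12) (.ch (nat_lit
 10) (.ev (nat_lit 1200) (nat_lit 9529460736) (.nd (nat_lit 1792) (.br (nat_lit 8) (.br (nat_lit 3) (.ch
 (nat_lit 2) (.ev (nat_lit 1808) (nat_lit 4096) (.ev (nat_lit 1876) (nat_lit 17592186044416) (.ev (nat_lit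
 2608) (nat_lit 33554432) (.ev (nat_lit 2640) (nat_lit 2) (.ev (nat_lit 2653) (nat_lit 2097152) .dd)))))) (.br
 (nat_lit 6) (.ch (nat_lit 3) (.ev (nat_lit 1808) (nat_lit 35655682) (.ev (nat_lit 1821) (nat_lit
 17592186044416) .dd))) (.ch (nat_lit 6) (.ev (nat_lit 1808) (nat_lit 17592188141568) (.ev (nat_lit 2768)
 (nat_lit 33554432) (.fin (nat_lit 576474496213926468))))))) (.br (nat_lit 9) (.ch (nat_lit 8) (.ev (nat_lit
 1808) (nat_lit 35651586) (.ev (nat_lit 2164) (nat_lit 4096) (.ev (nat_lit 2173) (nat_lit 17592186044416)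
 .dd)))) (.br (nat_lit 12) (.ch (nat_lit 9) (.ev (nat_lit 1808) (nat_lit 33554434) (.ev (nat_lit 1824) (nat_lit
 4096) (.ev (nat_lit 2420) (nat_lit 17592186044416) (.ev (nat_lit 2429) (nat_lit 2097152) .dd))))) (.ch
 (nat_lit 12) (.ev (nat_lit 1808) (nat_lit 17592221700096) (.ev (nat_lit 1821) (nat_lit 2) .dd))))))))) (.ch
 (nat_lit 12) (.ev (nat_lit 1200) (nat_lit 17601348505600) (.ev (nat_lit 2164) (nat_lit 2048) (.ev (nat_lit
 3204) (nat_lit 268435456) (.nd (nat_lit 3552) (.br (nat_lit 9) (.ch (nat_lit 7) (.fin (nat_lit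
 576476695232987730))) (.br (nat_lit 12) (.ch (nat_lit 9) (.ev (nat_lit 3568) (nat_lit 134217730) .dd)) (.ch
 (nat_lit 12) (.ev (nat_lit 3568) (nat_lit 134217730) .dd)))))))))))))))) (.ch (nat_lit 41) (.ev (nat_lit 52)
 (nat_lit 22063419555840) (.ev (nat_lit 116) (nat_lit 536870912) (.ev (nat_lit 480) (nat_lit 283738642474)
 .dd))))))) (.br (nat_lit 47) (.br (nat_lit 44) (.br (nat_lit 43) (.ch (nat_lit 42) (.ev (nat_lit 52) (nat_lit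
 22338261223426) (.ev (nat_lit 116) (nat_lit 524288) (.ev (nat_lit 996) (nat_lit 268435456) (.nd (nat_lit 1184)
 (.br (nat_lit 6) (.br (nat_lit 4) (.ch (nat_lit 1) (.ev (nat_lit 1200) (nat_lit 8627748896) (.nd (nat_lit
 1792) (.br (nat_lit 6) (.br (nat_lit 2) (.ch (nat_lit 1) (.ev (nat_lit 1808) (nat_lit 537133064) (.ev (nat_lit
 1821) (nat_lit 4096) .dd))) (.ch (nat_lit 2) (.ev (nat_lit 1808) (nat_lit 266240) (.ev (nat_lit 2432) (nat_lit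
 8) (.ev (nat_lit 2445) (nat_lit 536870912) .dd))))) (.br (nat_lit 9) (.ch (nat_lit 6) (.ev (nat_lit 1808)
 (nat_lit 537137160) .dd)) (.br (nat_lit 10) (.ch (nat_lit 9) (.ev (nat_lit 1808) (nat_lit 536875008) (.ev
 (nat_lit 2164) (nat_lit 262144) (.ev (nat_lit 2173) (nat_lit 8) .dd)))) (.ch (nat_lit 10) (.ev (nat_lit 1808)
 (nat_lit 537137160) .dd)))))))) (.br (nat_lit 5) (.ch (nat_lit 4) (.ev (nat_lit 1200) (nat_lit 541331464) (.ev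
 (nat_lit 1252) (nat_lit 65536) (.nd (nat_lit 1792) (.br (nat_lit 6) (.br (nat_lit 3) (.ch (nat_lit 0) (.ev
 (nat_lit 1808) (nat_lit 8623489056) .dd)) (.br (nat_lit 5) (.ch (nat_lit 3) (.ev (nat_lit 1808) (nat_lit
 8589934624) (.ev (nat_lit 1821) (nat_lit 33554432) .dd))) (.ch (nat_lit 5) (.ev (nat_lit 1808) (nat_lit
 8623489056) .dd)))) (.br (nat_lit 8) (.ch (nat_lit 6) (.ev (nat_lit 1808) (nat_lit 8623489056) .dd)) (.br
 (nat_lit 11) (.ch (nat_lit 8) (.ev (nat_lit 1808) (nat_lit 8589934624) (.ev (nat_lit 1821) (nat_lit 33554432)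
 .dd))) (.ch (nat_lit 11) (.ev (nat_lit 1808) (nat_lit 33554432) (.ev (nat_lit 2048) (nat_lit 8589934592) (.ev
 (nat_lit 2061) (nat_lit 32) .dd))))))))))) (.ch (nat_lit 5) (.ev (nat_lit 1200) (nat_lit 570494984) (.nd
 (nat_lit 1792) (.br (nat_lit 9) (.br (nat_lit 3) (.ch (nat_lit 2) (.ev (nat_lit 1808) (nat_lit 4194336) (.ev
 (nat_lit 1876) (nat_lit 8589934592) (.ev (nat_lit 1885) (nat_lit 262144) .dd)))) (.ch (nat_lit 3) (.ev
 (nat_lit 1808) (nat_lit 8594128928) (.ev (nat_lit 1821) (nat_lit 262144) .dd)))) (.br (nat_lit 10) (.ch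
 (nat_lit 9) (.ev (nat_lit 1808) (nat_lit 8594391040) (.ev (nat_lit 1821) (nat_lit 32) .dd))) (.br (nat_lit 11)
 (.ch (nat_lit 10) (.ev (nat_lit 1808) (nat_lit 8590196768) (.ev (nat_lit 1821) (nat_lit 4194304) .dd))) (.ch
 (nat_lit 11) (.ev (nat_lit 1808) (nat_lit 4194336) (.ev (nat_lit 1876) (nat_lit 8589934592) (.ev (nat_lit
 1885) (nat_lit 262144) .dd)))))))))))) (.br (nat_lit 10) (.br (nat_lit 9) (.ch (nat_lit 6) (.ev (nat_lit 1200)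
 (nat_lit 570753056) (.ev (nat_lit 2176) (nat_lit 4194304) (.ev (nat_lit 2784) (nat_lit 4096) (.fin (nat_lit
 576461302059713087)))))) (.ch (nat_lit 9) (.ev (nat_lit 1200) (nat_lit 574951456) (.ev (nat_lit 1824) (nat_lit
 8589934592) (.ev (nat_lit 1837) (nat_lit 8) .dd))))) (.br (nat_lit 12) (.ch (nat_lit 10) (.ev (nat_lit 1200)
 (nat_lit 8627949568) (.ev (nat_lit 1876) (nat_lit 8) (.ev (nat_lit 2660) (nat_lit 65536) (.ev (nat_lit 2768)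
 (nat_lit 536870912) (.ev (nat_lit 2781) (nat_lit 32) .dd)))))) (.ch (nat_lit 12) (.ev (nat_lit 1200) (nat_lit
 541397024) (.ev (nat_lit 2164) (nat_lit 8) (.ev (nat_lit 2420) (nat_lit 33554432) (.ev (nat_lit 2429) (nat_lit
 8589934592) .dd))))))))))))) (.ch (nat_lit 43) (.ev (nat_lit 52) (nat_lit 4467340609538) (.ev (nat_lit 276)
 (nat_lit 65536) (.ev (nat_lit 308) (nat_lit 2097152) (.ev (nat_lit 372) (nat_lit 4294967296) (.ev (nat_lit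
 404) (nat_lit 8) (.ev (nat_lit 996) (nat_lit 274877906944) (.nd (nat_lit 1184) (.br (nat_lit 9) (.br (nat_lit
 6) (.ch (nat_lit 5) (.ev (nat_lit 1200) (nat_lit 17601179160576) (.ev (nat_lit 1216) (nat_lit 32) (.ev
 (nat_lit 1229) (nat_lit 262144) .dd)))) (.ch (nat_lit 6) (.ev (nat_lit 1200) (nat_lit 135004192) (.ev (nat_lit
 1744) (nat_lit 8589934592) (.ev (nat_lit 1876) (nat_lit 4096) (.ev (nat_lit 1940) (nat_lit 268435456) (.ev
 (nat_lit 1949) (nat_lit 17592186044416) .dd))))))) (.br (nat_lit 10) (.ch (nat_lit 9) (.ev (nat_lit 1200)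
 (nat_lit 17601178894368) (.ev (nat_lit 1216) (nat_lit 4096) (.ev (nat_lit 1229) (nat_lit 524288) .dd)))) (.br
 (nat_lit 12) (.ch (nat_lit 10) (.ev (nat_lit 1200) (nat_lit 8858370048) (.ev (nat_lit 1876) (nat_lit 524288)
 (.ev (nat_lit 2448) (nat_lit 17592186044416) (.ev (nat_lit 2532) (nat_lit 4096) (.ev (nat_lit 2596) (nat_lit
 32) (.ev (nat_lit 2672) (nat_lit 262144) (.ev (nat_lit 2685) (nat_lit 134217728) .dd)))))))) (.ch (nat_lit 12)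
 (.ev (nat_lit 1200) (nat_lit 17592186834944) (.ev (nat_lit 2532) (nat_lit 134217728) (.ev (nat_lit 2544)
 (nat_lit 8589934592) (.fin (nat_lit 576444809390539314)))))))))))))))))) (.br (nat_lit 46) (.ch (nat_lit 44)
 (.ev (nat_lit 52) (nat_lit 77349521442) (.ev (nat_lit 148) (nat_lit 8) (.ev (nat_lit 212) (nat_lit
 274877906944) (.ev (nat_lit 404) (nat_lit 65536) (.nd (nat_lit 1184) (.br (nat_lit 6) (.br (nat_lit 1) (.ch
 (nat_lit 0) (.ev (nat_lit 1200) (nat_lit 17597421060096) (.nd (nat_lit 3392) (.br (nat_lit 12) (.ch (nat_lit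
 8) (.ev (nat_lit 3408) (nat_lit 4398046515200) .dd)) (.ch (nat_lit 12) (.fin (nat_lit
 576501983983649358))))))) (.br (nat_lit 2) (.ch (nat_lit 1) (.ev (nat_lit 1200) (nat_lit 21994527522816) (.nd
 (nat_lit 1792) (.br (nat_lit 8) (.br (nat_lit 2) (.ch (nat_lit 0) (.ev (nat_lit 1808) (nat_lit 537399296) (.ev
 (nat_lit 1988) (nat_lit 268435456) (.ev (nat_lit 1997) (nat_lit 134217728) .dd)))) (.br (nat_lit 3) (.ch
 (nat_lit 2) (.ev (nat_lit 1808) (nat_lit 671088640) (.ev (nat_lit 1876) (nat_lit 268435456) (.ev (nat_lit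
 2244) (nat_lit 524288) (.ev (nat_lit 2253) (nat_lit 4096) .dd))))) (.ch (nat_lit 3) (.ev (nat_lit 1808)
 (nat_lit 805830656) (.ev (nat_lit 1876) (nat_lit 134217728) (.ev (nat_lit 1885) (nat_lit 4096) .dd)))))) (.br
 (nat_lit 10) (.ch (nat_lit 8) (.ev (nat_lit 1808) (nat_lit 402657280) (.ev (nat_lit 2244) (nat_lit 524288)
 (.ev (nat_lit 2253) (nat_lit 536870912) .dd)))) (.br (nat_lit 12) (.ch (nat_lit 10) (.ev (nat_lit 1808)
 (nat_lit 940048384) (.ev (nat_lit 1821) (nat_lit 4096) .dd))) (.ch (nat_lit 12) (.ev (nat_lit 1808) (nat_lit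
 671617024) (.ev (nat_lit 1821) (nat_lit 268435456) .dd))))))))) (.ch (nat_lit 2) (.ev (nat_lit 1200) (nat_lit
 17592320790528) (.ev (nat_lit 2164) (nat_lit 4294967296) (.ev (nat_lit 2596) (nat_lit 268435456) (.ev (nat_lit
 2752) (nat_lit 4398046511104) (.ev (nat_lit 2765) (nat_lit 536870912) .dd)))))))) (.br (nat_lit 9) (.ch
 (nat_lit 6) (.ev (nat_lit 1200) (nat_lit 4403013095424) (.ev (nat_lit 2836) (nat_lit 17592186044416) (.ev
 (nat_lit 2845) (nat_lit 268435456) .dd)))) (.br (nat_lit 12) (.ch (nat_lit 9) (.ev (nat_lit 1200) (nat_lit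
 5234491392) (.nd (nat_lit 1792) (.br (nat_lit 9) (.br (nat_lit 5) (.ch (nat_lit 0) (.ev (nat_lit 1808)
 (nat_lit 4398047035392) (.ev (nat_lit 2660) (nat_lit 17592186044416) (.ev (nat_lit 2669) (nat_lit 4096)
 .dd)))) (.br (nat_lit 6) (.ch (nat_lit 5) (.ev (nat_lit 1808) (nat_lit 21990232555520) (.ev (nat_lit 2816)
 (nat_lit 528384) .dd))) (.ch (nat_lit 6) (.ev (nat_lit 1808) (nat_lit 17592186048512) (.fin (nat_lit
 576477794730984001)))))) (.br (nat_lit 11) (.ch (nat_lit 9) (.ev (nat_lit 1808) (nat_lit 17592186572800) (.ev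
 (nat_lit 1821) (nat_lit 4398046511104) .dd))) (.br (nat_lit 12) (.ch (nat_lit 11) (.ev (nat_lit 1808) (nat_lit
 21990232559616) (.ev (nat_lit 1821) (nat_lit 524288) .dd))) (.ch (nat_lit 12) (.ev (nat_lit 1808) (nat_lit
 4398046515200) (.ev (nat_lit 1940) (nat_lit 17592186044416) (.ev (nat_lit 1949) (nat_lit 524288) .dd))))))))))
 (.ch (nat_lit 12) (.ev (nat_lit 1200) (nat_lit 21994796486656) (.ev (nat_lit 2432) (nat_lit 134217728) (.ev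
 (nat_lit 2445) (nat_lit 536870912) .dd))))))))))))) (.ch (nat_lit 46) (.ev (nat_lit 52) (nat_lit
 22058958589952) (.ev (nat_lit 116) (nat_lit 274877906944) (.ev (nat_lit 308) (nat_lit 4294967296) (.ev
 (nat_lit 404) (nat_lit 134217728) (.ev (nat_lit 468) (nat_lit 32) (.ev (nat_lit 532) (nat_lit 33554432) (.ev
 (nat_lit 1136) (nat_lit 65536) (.nd (nat_lit 1184) (.br (nat_lit 4) (.ch (nat_lit 1) (.ev (nat_lit 1200)
 (nat_lit 8590458882) (.nd (nat_lit 1792) (.br (nat_lit 10) (.br (nat_lit 1) (.ch (nat_lit 0) (.ev (nat_lit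
 1808) (nat_lit 805306368) (.ev (nat_lit 1940) (nat_lit 2048) (.ev (nat_lit 1949) (nat_lit 8) .dd)))) (.ch
 (nat_lit 1) (.ev (nat_lit 1808) (nat_lit 8) (.ev (nat_lit 1904) (nat_lit 2048) (.ev (nat_lit 2336) (nat_lit
 805306368) .dd))))) (.br (nat_lit 12) (.ch (nat_lit 10) (.ev (nat_lit 1808) (nat_lit 268437512) (.ev (nat_lit
 1821) (nat_lit 536870912) .dd))) (.ch (nat_lit 12) (.ev (nat_lit 1808) (nat_lit 536870912) (.ev (nat_lit 2432)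
 (nat_lit 8) (.ev (nat_lit 3078) (nat_lit 268437504) .dd))))))))) (.br (nat_lit 6) (.ch (nat_lit 4) (.ev
 (nat_lit 1200) (nat_lit 268435464) (.nd (nat_lit 1792) (.br (nat_lit 9) (.br (nat_lit 6) (.ch (nat_lit 5) (.ev
 (nat_lit 1808) (nat_lit 9127329794) (.ev (nat_lit 1821) (nat_lit 2048) .dd))) (.ch (nat_lit 6) (.ev (nat_lit
 1808) (nat_lit 9126807554) (.ev (nat_lit 1821) (nat_lit 524288) .dd)))) (.br (nat_lit 12) (.ch (nat_lit 9)
 (.ev (nat_lit 1808) (nat_lit 537395200) (.ev (nat_lit 1952) (nat_lit 8589934592) (.ev (nat_lit 2420) (nat_lit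
 2048) (.ev (nat_lit 2429) (nat_lit 2) .dd))))) (.ch (nat_lit 12) (.ev (nat_lit 1808) (nat_lit 2048) (.ev
 (nat_lit 2208) (nat_lit 2) (.ev (nat_lit 2432) (nat_lit 9126805504) (.ev (nat_lit 2445) (nat_lit 524288)
 .dd)))))))))) (.ch (nat_lit 6) (.ev (nat_lit 1200) (nat_lit 536872962) (.ev (nat_lit 1776) (nat_lit 8) (.ev
 (nat_lit 1940) (nat_lit 268435456) (.ev (nat_lit 2016) (nat_lit 8589934592) (.ev (nat_lit 2029) (nat_lit
 524288) .dd))))))))))))))))))) (.br (nat_lit 49) (.br (nat_lit 48) (.ch (nat_lit 47) (.ev (nat_lit 52)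
 (nat_lit 22265379684384) (.ev (nat_lit 128) (nat_lit 82315384842) .dd))) (.ch (nat_lit 48) (.ev (nat_lit 52)
 (nat_lit 275314638848) (.ev (nat_lit 180) (nat_lit 4294967296) (.ev (nat_lit 276) (nat_lit 8589934592) (.ev
 (nat_lit 340) (nat_lit 536870912) (.ev (nat_lit 372) (nat_lit 32) (.ev (nat_lit 628) (nat_lit 17592186044416)
 (.nd (nat_lit 1184) (.br (nat_lit 6) (.br (nat_lit 4) (.ch (nat_lit 0) (.ev (nat_lit 1200) (nat_lit
 68724000778) (.ev (nat_lit 2980) (nat_lit 2097152) (.nd (nat_lit 3472) (.br (nat_lit 12) (.ch (nat_lit 5) (.ev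
 (nat_lit 3488) (nat_lit 4398046515200) .dd)) (.ch (nat_lit 12) (.fin (nat_lit 576420620137873970)))))))) (.br
 (nat_lit 5) (.ch (nat_lit 4) (.ev (nat_lit 1200) (nat_lit 4466770186250) (.ev (nat_lit 1252) (nat_lit 65536)
 (.nd (nat_lit 1792) (.br (nat_lit 6) (.br (nat_lit 3) (.ch (nat_lit 0) (.ev (nat_lit 1808) (nat_lit 264192)
 (.ev (nat_lit 1821) (nat_lit 2097152) .dd))) (.br (nat_lit 4) (.ch (nat_lit 3) (.ev (nat_lit 1808) (nat_lit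
 2097152) (.ev (nat_lit 2064) (nat_lit 262144) (.ev (nat_lit 2077) (nat_lit 2048) .dd)))) (.ch (nat_lit 4) (.ev
 (nat_lit 1808) (nat_lit 2099200) (.ev (nat_lit 1821) (nat_lit 262144) .dd))))) (.br (nat_lit 8) (.ch (nat_lit
 6) (.ev (nat_lit 1808) (nat_lit 2361344) .dd)) (.br (nat_lit 12) (.ch (nat_lit 8) (.ev (nat_lit 1808) (nat_lit
 2097152) (.ev (nat_lit 1876) (nat_lit 262144) (.ev (nat_lit 1885) (nat_lit 2048) .dd)))) (.ch (nat_lit 12)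
 (.ev (nat_lit 1808) (nat_lit 2048) (.ev (nat_lit 1876) (nat_lit 262144) (.ev (nat_lit 1885) (nat_lit 2097152)
 .dd))))))))))) (.ch (nat_lit 5) (.ev (nat_lit 1200) (nat_lit 4466766059520) (.ev (nat_lit 1510) (nat_lit
 262144) (.nd (nat_lit 1792) (.br (nat_lit 9) (.br (nat_lit 4) (.ch (nat_lit 0) (.ev (nat_lit 1808) (nat_lit
 4194314) (.ev (nat_lit 1821) (nat_lit 2097152) .dd))) (.br (nat_lit 8) (.ch (nat_lit 4) (.ev (nat_lit 1808)
 (nat_lit 4194306) (.ev (nat_lit 1824) (nat_lit 2097160) .dd))) (.ch (nat_lit 8) (.ev (nat_lit 1808) (nat_lit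
 6291466) .dd)))) (.br (nat_lit 10) (.ch (nat_lit 9) (.ev (nat_lit 1808) (nat_lit 2097152) (.ev (nat_lit 2420)
 (nat_lit 8) (.ev (nat_lit 2660) (nat_lit 2) (.ev (nat_lit 2669) (nat_lit 4194304) .dd))))) (.br (nat_lit 12)
 (.ch (nat_lit 10) (.ev (nat_lit 1808) (nat_lit 2097160) (.ev (nat_lit 1876) (nat_lit 2) (.ev (nat_lit 1885)
 (nat_lit 4194304) .dd)))) (.ch (nat_lit 12) (.ev (nat_lit 1808) (nat_lit 10) (.ev (nat_lit 2608) (nat_lit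
 4194304) (.ev (nat_lit 2621) (nat_lit 2097152) .dd))))))))))))) (.br (nat_lit 9) (.ch (nat_lit 6) (.ev
 (nat_lit 1200) (nat_lit 2426890) (.ev (nat_lit 2740) (nat_lit 4194304) (.ev (nat_lit 2900) (nat_lit
 68719476736) (.ev (nat_lit 2912) (nat_lit 4398046515200) .dd))))) (.br (nat_lit 10) (.ch (nat_lit 9) (.ev
 (nat_lit 1200) (nat_lit 4466772543488) (.nd (nat_lit 1792) (.br (nat_lit 10) (.ch (nat_lit 3) (.ev (nat_lit
 1808) (nat_lit 10) (.fin (nat_lit 576463501106037312)))) (.br (nat_lit 11) (.ch (nat_lit 10) (.ev (nat_lit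
 1808) (nat_lit 4104) (.ev (nat_lit 1888) (nat_lit 65538) .dd))) (.ch (nat_lit 11) (.ev (nat_lit 1808) (nat_lit
 69634) (.ev (nat_lit 1821) (nat_lit 8) .dd)))))))) (.ch (nat_lit 10) (.ev (nat_lit 1200) (nat_lit 2426888)
 (.ev (nat_lit 1526) (nat_lit 4194304) (.ev (nat_lit 1824) (nat_lit 4398046511104) (.ev (nat_lit 2532) (nat_lit
 68719476736) (.fin (nat_lit 576474496213926468))))))))))))))))))) (.br (nat_lit 50) (.ch (nat_lit 49) (.ev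
 (nat_lit 52) (nat_lit 17592222488586) (.ev (nat_lit 596) (nat_lit 68719476736) (.nd (nat_lit 1184) (.br
 (nat_lit 9) (.br (nat_lit 1) (.ch (nat_lit 0) (.ev (nat_lit 1200) (nat_lit 4407580164128) (.ev (nat_lit 1252)
 (nat_lit 65536) (.ev (nat_lit 1940) (nat_lit 274877906944) (.ev (nat_lit 1949) (nat_lit 4294967296) .dd)))))
 (.br (nat_lit 4) (.ch (nat_lit 1) (.ev (nat_lit 1200) (nat_lit 4686211973152) (.ev (nat_lit 1680) (nat_lit
 4194304) (.ev (nat_lit 2256) (nat_lit 536870912) (.ev (nat_lit 2269) (nat_lit 65536) .dd))))) (.ch (nat_lit 4)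
 (.ev (nat_lit 1200) (nat_lit 4686753103904) .dd)))) (.br (nat_lit 10) (.ch (nat_lit 9) (.ev (nat_lit 1200)
 (nat_lit 279848222752) (.ev (nat_lit 1734) (nat_lit 8589934592) (.ev (nat_lit 2176) (nat_lit 4398046511104)
 (.ev (nat_lit 2189) (nat_lit 268435456) .dd))))) (.br (nat_lit 12) (.ch (nat_lit 10) (.ev (nat_lit 1200)
 (nat_lit 288702332960) (.ev (nat_lit 1268) (nat_lit 65536) (.ev (nat_lit 2420) (nat_lit 4398046511104) (.ev
 (nat_lit 2429) (nat_lit 4194304) .dd))))) (.ch (nat_lit 12) (.ev (nat_lit 1200) (nat_lit 4685813579776) (.ev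
 (nat_lit 1252) (nat_lit 134217728) (.ev (nat_lit 1300) (nat_lit 536870912) (.fin (nat_lit
 576444809390539314))))))))))))) (.br (nat_lit 52) (.ch (nat_lit 50) (.ev (nat_lit 52) (nat_lit 17936595030024)
 (.ev (nat_lit 212) (nat_lit 134217728) (.ev (nat_lit 308) (nat_lit 32) (.ev (nat_lit 436) (nat_lit 2) (.nd
 (nat_lit 1184) (.br (nat_lit 5) (.br (nat_lit 2) (.ch (nat_lit 0) (.ev (nat_lit 1200) (nat_lit 4410965755904)
 (.ev (nat_lit 1213) (nat_lit 65536) .dd))) (.br (nat_lit 4) (.ch (nat_lit 2) (.ev (nat_lit 1200) (nat_lit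
 8624080896) (.ev (nat_lit 2432) (nat_lit 262144) (.ev (nat_lit 2752) (nat_lit 4398046511104) (.ev (nat_lit
 2765) (nat_lit 4294967296) .dd))))) (.ch (nat_lit 4) (.ev (nat_lit 1200) (nat_lit 4402342002688) (.nd (nat_lit
 1792) (.br (nat_lit 6) (.br (nat_lit 3) (.ch (nat_lit 0) (.ev (nat_lit 1808) (nat_lit 329728) (.ev (nat_lit
 1876) (nat_lit 33554432) (.ev (nat_lit 1885) (nat_lit 8589934592) .dd)))) (.br (nat_lit 4) (.ch (nat_lit 3)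
 (.ev (nat_lit 1808) (nat_lit 8623751168) (.ev (nat_lit 1840) (nat_lit 65536) (.ev (nat_lit 1853) (nat_lit
 2048) .dd)))) (.ch (nat_lit 4) (.ev (nat_lit 1808) (nat_lit 33816576) (.ev (nat_lit 2596) (nat_lit 65536) (.ev
 (nat_lit 2660) (nat_lit 2048) (.ev (nat_lit 2669) (nat_lit 8589934592) .dd))))))) (.br (nat_lit 8) (.ch
 (nat_lit 6) (.ev (nat_lit 1808) (nat_lit 8623818752) .dd)) (.br (nat_lit 11) (.ch (nat_lit 8) (.ev (nat_lit
 1808) (nat_lit 8590002176) (.ev (nat_lit 1876) (nat_lit 262144) (.ev (nat_lit 1885) (nat_lit 33554432) .dd))))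
 (.ch (nat_lit 11) (.ev (nat_lit 1808) (nat_lit 33884160) (.ev (nat_lit 1821) (nat_lit 8589934592)
 .dd))))))))))) (.br (nat_lit 6) (.ch (nat_lit 5) (.ev (nat_lit 1200) (nat_lit 854016) (.nd (nat_lit 1792) (.br
 (nat_lit 9) (.br (nat_lit 3) (.ch (nat_lit 2) (.ev (nat_lit 1808) (nat_lit 4398080065536) (.ev (nat_lit 1988)
 (nat_lit 4294967296) (.ev (nat_lit 1997) (nat_lit 8589934592) .dd)))) (.br (nat_lit 4) (.ch (nat_lit 3) (.ev
 (nat_lit 1808) (nat_lit 4402375032832) (.ev (nat_lit 1821) (nat_lit 8589934592) .dd))) (.ch (nat_lit 4) (.ev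
 (nat_lit 1808) (nat_lit 4410964967424) .dd)))) (.br (nat_lit 11) (.ch (nat_lit 9) (.ev (nat_lit 1808) (nat_lit
 8623489024) (.ev (nat_lit 1988) (nat_lit 4294967296) (.ev (nat_lit 1997) (nat_lit 4398046511104) .dd)))) (.br
 (nat_lit 12) (.ch (nat_lit 11) (.ev (nat_lit 1808) (nat_lit 8589934592) (.ev (nat_lit 1876) (nat_lit
 4294967296) (.ev (nat_lit 2420) (nat_lit 33554432) (.ev (nat_lit 2429) (nat_lit 4398046511104) .dd))))) (.ch
 (nat_lit 12) (.ev (nat_lit 1808) (nat_lit 4328521728) (.ev (nat_lit 2400) (nat_lit 8589934592) (.ev (nat_lit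
 2413) (nat_lit 4398046511104) .dd)))))))))) (.br (nat_lit 9) (.ch (nat_lit 6) (.ev (nat_lit 1200) (nat_lit
 4406670329856) (.ev (nat_lit 1888) (nat_lit 524288) (.ev (nat_lit 1901) (nat_lit 4294967296) .dd)))) (.ch
 (nat_lit 9) (.ev (nat_lit 1200) (nat_lit 4328849408) (.nd (nat_lit 1792) (.br (nat_lit 10) (.br (nat_lit 6)
 (.ch (nat_lit 3) (.ev (nat_lit 1808) (nat_lit 4398047037440) (.ev (nat_lit 1821) (nat_lit 8589934592) .dd)))
 (.br (nat_lit 9) (.ch (nat_lit 6) (.ev (nat_lit 1808) (nat_lit 8589936640) (.fin (nat_lit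
 576444809390539327)))) (.ch (nat_lit 9) (.ev (nat_lit 1808) (nat_lit 4406636969984) (.ev (nat_lit 1821)
 (nat_lit 2048) .dd))))) (.br (nat_lit 11) (.ch (nat_lit 10) (.ev (nat_lit 1808) (nat_lit 8590460928) (.ev
 (nat_lit 1821) (nat_lit 4398046511104) .dd))) (.br (nat_lit 12) (.ch (nat_lit 11) (.ev (nat_lit 1808) (nat_lit
 4398047035392) (.ev (nat_lit 1876) (nat_lit 2048) (.ev (nat_lit 1885) (nat_lit 8589934592) .dd)))) (.ch
 (nat_lit 12) (.ev (nat_lit 1808) (nat_lit 524288) (.ev (nat_lit 1876) (nat_lit 4398046511104) (.ev (nat_lit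
 1940) (nat_lit 2048) (.ev (nat_lit 1949) (nat_lit 8589934592) .dd)))))))))))))))))))) (.ch (nat_lit 52) (.ev
 (nat_lit 52) (nat_lit 17872164296704) (.ev (nat_lit 148) (nat_lit 8589934592) (.ev (nat_lit 212) (nat_lit 8)
 (.nd (nat_lit 1184) (.br (nat_lit 6) (.br (nat_lit 2) (.ch (nat_lit 1) (.ev (nat_lit 1200) (nat_lit
 4466806620194) (.ev (nat_lit 1213) (nat_lit 134217728) .dd))) (.br (nat_lit 4) (.ch (nat_lit 2) (.ev (nat_lit
 1200) (nat_lit 135004194) (.ev (nat_lit 1252) (nat_lit 33554432) (.ev (nat_lit 1712) (nat_lit 4194304) (.ev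
 (nat_lit 1952) (nat_lit 4398046511104) (.ev (nat_lit 2596) (nat_lit 2097152) (.ev (nat_lit 2605) (nat_lit
 68719476736) .dd))))))) (.ch (nat_lit 4) (.ev (nat_lit 1200) (nat_lit 4398185709570) (.nd (nat_lit 1792) (.br
 (nat_lit 9) (.ch (nat_lit 6) (.ev (nat_lit 1808) (nat_lit 33554464) (.ev (nat_lit 2000) (nat_lit 2097152) (.ev
 (nat_lit 2013) (nat_lit 68719476736) .dd)))) (.br (nat_lit 11) (.ch (nat_lit 9) (.ev (nat_lit 1808) (nat_lit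
 68721573888) (.ev (nat_lit 2176) (nat_lit 33554432) (.ev (nat_lit 2189) (nat_lit 32) .dd)))) (.ch (nat_lit 11)
 (.ev (nat_lit 1808) (nat_lit 35651584) (.ev (nat_lit 1952) (nat_lit 68719476736) (.ev (nat_lit 1965) (nat_lit
 32) .dd))))))))))) (.br (nat_lit 10) (.ch (nat_lit 6) (.ev (nat_lit 1200) (nat_lit 174325794) (.ev (nat_lit
 1888) (nat_lit 4466765987840) (.ev (nat_lit 1901) (nat_lit 524288) .dd)))) (.br (nat_lit 12) (.ch (nat_lit 10)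
 (.ev (nat_lit 1200) (nat_lit 68855791650) (.ev (nat_lit 1702) (nat_lit 262144) (.ev (nat_lit 1940) (nat_lit
 4194304) (.ev (nat_lit 2244) (nat_lit 33554432) (.ev (nat_lit 3088) (nat_lit 4398047035392) .dd)))))) (.ch
 (nat_lit 12) (.ev (nat_lit 1200) (nat_lit 4466806620160) (.ev (nat_lit 1840) (nat_lit 32) (.fin (nat_lit
 576476695232987730)))))))))))))))))))))

/-- Subtrie. -/
noncomputable def T4 : Tr := (.ev (nat_lit 20) (nat_lit 17627318340134) (.nd (nat_lit 33) (.br (nat_lit 31)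
 (.br (nat_lit 16) (.br (nat_lit 10) (.br (nat_lit 6) (.br (nat_lit 5) (.ch (nat_lit 4) (.ev (nat_lit 52)
 (nat_lit 74771093000200) (.ev (nat_lit 244) (nat_lit 65536) (.ev (nat_lit 372) (nat_lit 8589934592) (.nd
 (nat_lit 1184) (.br (nat_lit 6) (.br (nat_lit 2) (.ch (nat_lit 1) (.ev (nat_lit 1200) (nat_lit 35186519605248)
 (.ev (nat_lit 1876) (nat_lit 268435456) (.ev (nat_lit 2660) (nat_lit 68719476736) (.ev (nat_lit 2669) (nat_lit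
 274877906944) .dd))))) (.br (nat_lit 3) (.ch (nat_lit 2) (.ev (nat_lit 1200) (nat_lit 268435456) (.ev (nat_lit
 1232) (nat_lit 2147483648) (.ev (nat_lit 1252) (nat_lit 32768) (.ev (nat_lit 1824) (nat_lit 274877906944) (.ev
 (nat_lit 1988) (nat_lit 68719476736) (.ev (nat_lit 1997) (nat_lit 35184372088832) .dd))))))) (.ch (nat_lit 3)
 (.ev (nat_lit 1200) (nat_lit 35255239049216) (.ev (nat_lit 1252) (nat_lit 274877906944) (.ev (nat_lit 2608)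
 (nat_lit 268435456) (.ev (nat_lit 2621) (nat_lit 32768) .dd))))))) (.br (nat_lit 8) (.br (nat_lit 7) (.ch
 (nat_lit 6) (.ev (nat_lit 1200) (nat_lit 35461665914880) (.ev (nat_lit 2532) (nat_lit 68719476736) (.ev
 (nat_lit 2541) (nat_lit 32768) .dd)))) (.ch (nat_lit 7) (.ev (nat_lit 1200) (nat_lit 35253360033792) (.fin
 (nat_lit 576458003511198282))))) (.br (nat_lit 9) (.ch (nat_lit 8) (.ev (nat_lit 1200) (nat_lit
 35186788040704) (.ev (nat_lit 2836) (nat_lit 68719476736) (.ev (nat_lit 2845) (nat_lit 274877906944) .dd))))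
 (.ch (nat_lit 9) (.ev (nat_lit 1200) (nat_lit 35459518464000) (.ev (nat_lit 1876) (nat_lit 68719476736) (.ev
 (nat_lit 1885) (nat_lit 2147483648) .dd)))))))))))) (.ch (nat_lit 5) (.ev (nat_lit 52) (nat_lit
 35467839995904) (.ev (nat_lit 84) (nat_lit 32768) (.ev (nat_lit 1092) (nat_lit 2147483648) (.ev (nat_lit 1104)
 (nat_lit 4194304) (.nd (nat_lit 1184) (.br (nat_lit 2) (.br (nat_lit 1) (.ch (nat_lit 0) (.ev (nat_lit 1200)
 (nat_lit 73283928072) (.ev (nat_lit 1940) (nat_lit 4096) (.ev (nat_lit 2432) (nat_lit 70368744177664) (.ev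
 (nat_lit 2532) (nat_lit 4398046511104) (.ev (nat_lit 2541) (nat_lit 2097152) .dd)))))) (.ch (nat_lit 1) (.ev
 (nat_lit 1200) (nat_lit 4297068544) (.ev (nat_lit 1744) (nat_lit 68719476736) (.ev (nat_lit 1876) (nat_lit
 1048584) (.ev (nat_lit 1988) (nat_lit 268435456) (.ev (nat_lit 2432) (nat_lit 70368744177664) (.ev (nat_lit
 2445) (nat_lit 4398046511104) .dd)))))))) (.br (nat_lit 7) (.ch (nat_lit 2) (.ev (nat_lit 1200) (nat_lit
 74840076713992) (.ev (nat_lit 1213) (nat_lit 4096) .dd))) (.br (nat_lit 8) (.ch (nat_lit 7) (.ev (nat_lit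
 1200) (nat_lit 74835781750792) (.ev (nat_lit 1213) (nat_lit 4294967296) .dd))) (.ch (nat_lit 8) (.ev (nat_lit
 1200) (nat_lit 74771355140096) (.ev (nat_lit 2112) (nat_lit 68719476736) (.ev (nat_lit 2176) (nat_lit 2097152)
 (.fin (nat_lit 576458003542655542)))))))))))))))) (.br (nat_lit 9) (.ch (nat_lit 6) (.ev (nat_lit 52) (nat_lit
 109961905504264) (.ev (nat_lit 84) (nat_lit 68719476736) (.ev (nat_lit 468) (nat_lit 274877906944) (.nd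
 (nat_lit 1184) (.br (nat_lit 6) (.br (nat_lit 1) (.ch (nat_lit 0) (.ev (nat_lit 1200) (nat_lit 4565536768)
 .dd)) (.br (nat_lit 3) (.ch (nat_lit 1) (.ev (nat_lit 1200) (nat_lit 4565504000) (.ev (nat_lit 1213) (nat_lit
 32768) .dd))) (.ch (nat_lit 3) (.ev (nat_lit 1200) (nat_lit 4295004160) (.ev (nat_lit 2532) (nat_lit
 268435456) (.ev (nat_lit 2541) (nat_lit 2097152) .dd)))))) (.br (nat_lit 8) (.ch (nat_lit 6) (.ev (nat_lit
 1200) (nat_lit 4565499904) (.ev (nat_lit 2420) (nat_lit 32768) (.ev (nat_lit 2429) (nat_lit 4096) .dd)))) (.br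
 (nat_lit 9) (.ch (nat_lit 8) (.ev (nat_lit 1200) (nat_lit 268468224) (.ev (nat_lit 2420) (nat_lit 4096) (.fin
 (nat_lit 576459103028068946))))) (.ch (nat_lit 9) (.ev (nat_lit 1200) (nat_lit 4297101312) (.ev (nat_lit 1213)
 (nat_lit 268435456) .dd))))))))))) (.ch (nat_lit 9) (.ev (nat_lit 52) (nat_lit 105898861133824) (.ev (nat_lit
 308) (nat_lit 4194304) (.ev (nat_lit 468) (nat_lit 32768) (.ev (nat_lit 628) (nat_lit 268435456) (.ev (nat_lit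
 756) (nat_lit 1048576) (.ev (nat_lit 788) (nat_lit 4294967296) (.nd (nat_lit 1184) (.br (nat_lit 7) (.br
 (nat_lit 3) (.ch (nat_lit 0) (.ev (nat_lit 1200) (nat_lit 4398048677896) (.ev (nat_lit 1213) (nat_lit
 8589934592) .dd))) (.br (nat_lit 6) (.ch (nat_lit 3) (.ev (nat_lit 1200) (nat_lit 2101256) (.ev (nat_lit 2256)
 (nat_lit 4398046511104) (.ev (nat_lit 2532) (nat_lit 65536) (.ev (nat_lit 2541) (nat_lit 8589934592) .dd)))))
 (.ch (nat_lit 6) (.ev (nat_lit 1200) (nat_lit 4406638546952) (.ev (nat_lit 1213) (nat_lit 65536) .dd))))) (.br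
 (nat_lit 8) (.ch (nat_lit 7) (.ev (nat_lit 1200) (nat_lit 4406638546944) (.ev (nat_lit 2256) (nat_lit 65536)
 (.ev (nat_lit 2269) (nat_lit 8) .dd)))) (.br (nat_lit 11) (.ch (nat_lit 8) (.ev (nat_lit 1200) (nat_lit
 8590000128) (.ev (nat_lit 1216) (nat_lit 2097152) (.ev (nat_lit 2464) (nat_lit 4398046511104) (.fin (nat_lit
 576464600578867786)))))) (.ch (nat_lit 11) (.ev (nat_lit 1200) (nat_lit 4406638612488) .dd))))))))))))))) (.br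
 (nat_lit 12) (.br (nat_lit 11) (.ch (nat_lit 10) (.ev (nat_lit 52) (nat_lit 74779946160136) (.ev (nat_lit 84)
 (nat_lit 274877906944) (.ev (nat_lit 468) (nat_lit 68719476736) (.nd (nat_lit 1184) (.br (nat_lit 6) (.br
 (nat_lit 1) (.ch (nat_lit 0) (.ev (nat_lit 1200) (nat_lit 35186520686592) (.ev (nat_lit 1213) (nat_lit
 4194304) .dd))) (.br (nat_lit 3) (.ch (nat_lit 1) (.ev (nat_lit 1200) (nat_lit 4259840) (.ev (nat_lit 2420)
 (nat_lit 1048576) (.fin (nat_lit 576459103046943276))))) (.ch (nat_lit 3) (.ev (nat_lit 1200) (nat_lit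
 35186523766784) (.ev (nat_lit 2420) (nat_lit 65536) (.ev (nat_lit 2429) (nat_lit 1048576) .dd)))))) (.br
 (nat_lit 8) (.ch (nat_lit 6) (.ev (nat_lit 1200) (nat_lit 2148597760) (.ev (nat_lit 2532) (nat_lit 4194304)
 (.ev (nat_lit 2541) (nat_lit 35184372088832) .dd)))) (.br (nat_lit 9) (.ch (nat_lit 8) (.ev (nat_lit 1200)
 (nat_lit 35186524815360) (.ev (nat_lit 1213) (nat_lit 65536) .dd))) (.ch (nat_lit 9) (.ev (nat_lit 1200)
 (nat_lit 35186524880896) .dd)))))))))) (.ch (nat_lit 11) (.ev (nat_lit 52) (nat_lit 39857567039496) (.ev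
 (nat_lit 308) (nat_lit 70368744177664) (.ev (nat_lit 564) (nat_lit 1048576) (.ev (nat_lit 736) (nat_lit
 83756158976) .dd)))))) (.br (nat_lit 15) (.ch (nat_lit 12) (.ev (nat_lit 52) (nat_lit 68721606664) (.ev
 (nat_lit 84) (nat_lit 65536) (.ev (nat_lit 820) (nat_lit 4294967296) (.ev (nat_lit 1152) (nat_lit 268435456)
 (.nd (nat_lit 1184) (.br (nat_lit 7) (.br (nat_lit 2) (.ch (nat_lit 1) (.ev (nat_lit 1200) (nat_lit
 74768942370816) (.ev (nat_lit 2112) (nat_lit 274877906944) (.ev (nat_lit 2176) (nat_lit 35184372088832) (.fin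
 (nat_lit 576458003509101127)))))) (.ch (nat_lit 2) (.ev (nat_lit 1200) (nat_lit 110234635866112) (.ev (nat_lit
 1213) (nat_lit 2147483648) .dd)))) (.br (nat_lit 8) (.ch (nat_lit 7) (.ev (nat_lit 1200) (nat_lit
 110236782301184) (.ev (nat_lit 1213) (nat_lit 1048576) .dd))) (.br (nat_lit 9) (.ch (nat_lit 8) (.ev (nat_lit
 1200) (nat_lit 35186520621056) (.ev (nat_lit 1744) (nat_lit 274877906944) (.ev (nat_lit 1876) (nat_lit
 8589938688) (.ev (nat_lit 1988) (nat_lit 4194304) (.ev (nat_lit 2432) (nat_lit 4398046511104) (.ev (nat_lit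
 2445) (nat_lit 70368744177664) .dd))))))) (.ch (nat_lit 9) (.ev (nat_lit 1200) (nat_lit 285619523584) (.ev
 (nat_lit 1940) (nat_lit 1048576) (.ev (nat_lit 2432) (nat_lit 4398046511104) (.ev (nat_lit 2532) (nat_lit
 70368744177664) (.ev (nat_lit 2541) (nat_lit 35184372088832) .dd))))))))))))))) (.ch (nat_lit 15) (.ev
 (nat_lit 52) (nat_lit 109962169683968) (.ev (nat_lit 244) (nat_lit 32768) (.ev (nat_lit 372) (nat_lit 8) (.nd
 (nat_lit 1184) (.br (nat_lit 3) (.br (nat_lit 1) (.ch (nat_lit 0) (.ev (nat_lit 1200) (nat_lit 68725833728)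
 (.ev (nat_lit 1876) (nat_lit 274877906944) (.ev (nat_lit 1885) (nat_lit 4294967296) .dd)))) (.br (nat_lit 2)
 (.ch (nat_lit 1) (.ev (nat_lit 1200) (nat_lit 4301324288) (.ev (nat_lit 2836) (nat_lit 68719476736) (.ev
 (nat_lit 2845) (nat_lit 274877906944) .dd)))) (.ch (nat_lit 2) (.ev (nat_lit 1200) (nat_lit 274884263936)
 (.fin (nat_lit 576458003540558387)))))) (.br (nat_lit 7) (.br (nat_lit 6) (.ch (nat_lit 3) (.ev (nat_lit 1200)
 (nat_lit 73020735488) (.ev (nat_lit 2532) (nat_lit 274877906944) (.ev (nat_lit 2541) (nat_lit 65536) .dd))))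
 (.ch (nat_lit 6) (.ev (nat_lit 1200) (nat_lit 279174971392) (.ev (nat_lit 1252) (nat_lit 68719476736) (.ev
 (nat_lit 2608) (nat_lit 4194304) (.ev (nat_lit 2621) (nat_lit 65536) .dd)))))) (.br (nat_lit 8) (.ch (nat_lit
 7) (.ev (nat_lit 1200) (nat_lit 4194304) (.ev (nat_lit 1232) (nat_lit 4294967296) (.ev (nat_lit 1252) (nat_lit
 65536) (.ev (nat_lit 1824) (nat_lit 68719476736) (.ev (nat_lit 1988) (nat_lit 274877906944) (.ev (nat_lit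
 1997) (nat_lit 2097152) .dd))))))) (.ch (nat_lit 8) (.ev (nat_lit 1200) (nat_lit 4297129984) (.ev (nat_lit
 1876) (nat_lit 4194304) (.ev (nat_lit 2660) (nat_lit 68719476736) (.ev (nat_lit 2669) (nat_lit 274877906944)
 .dd)))))))))))))))) (.br (nat_lit 22) (.br (nat_lit 18) (.br (nat_lit 17) (.ch (nat_lit 16) (.ev (nat_lit 52)
 (nat_lit 2423296008) (.ev (nat_lit 532) (nat_lit 70368744177664) (.ev (nat_lit 944) (nat_lit 39938900951040)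
 .dd)))) (.ch (nat_lit 17) (.ev (nat_lit 52) (nat_lit 35197530738688) (.ev (nat_lit 532) (nat_lit
 4398046511104) (.ev (nat_lit 912) (nat_lit 70714491174920) .dd))))) (.br (nat_lit 21) (.ch (nat_lit 18) (.ev
 (nat_lit 52) (nat_lit 39934605987840) (.ev (nat_lit 84) (nat_lit 2097152) (.ev (nat_lit 640) (nat_lit
 70375460339720) .dd)))) (.ch (nat_lit 21) (.ev (nat_lit 52) (nat_lit 70712344739848) (.ev (nat_lit 84)
 (nat_lit 35184372088832) (.ev (nat_lit 704) (nat_lit 4413351596032) .dd)))))) (.br (nat_lit 26) (.br (nat_lit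
 24) (.ch (nat_lit 22) (.ev (nat_lit 52) (nat_lit 74773233238016) (.ev (nat_lit 244) (nat_lit 8589934600) (.ev
 (nat_lit 372) (nat_lit 35184374185984) (.ev (nat_lit 532) (nat_lit 343597383680) (.ev (nat_lit 692) (nat_lit
 272629760) (.ev (nat_lit 724) (nat_lit 4096) (.ev (nat_lit 733) (nat_lit 1048576) .dd)))))))) (.ch (nat_lit
 24) (.ev (nat_lit 52) (nat_lit 79459024904) (.ev (nat_lit 84) (nat_lit 4398050705408) (.ev (nat_lit 372)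
 (nat_lit 268435456) (.ev (nat_lit 436) (nat_lit 274877906944) (.ev (nat_lit 964) (nat_lit 1048576) (.nd
 (nat_lit 1184) (.br (nat_lit 6) (.br (nat_lit 1) (.ch (nat_lit 0) (.ev (nat_lit 1200) (nat_lit 35188667121664)
 (.ev (nat_lit 2164) (nat_lit 4096) (.ev (nat_lit 2173) (nat_lit 70368744177664) .dd)))) (.br (nat_lit 2) (.ch
 (nat_lit 1) (.ev (nat_lit 1200) (nat_lit 4295036928) (.ev (nat_lit 2016) (nat_lit 70368744177664) (.ev
 (nat_lit 2029) (nat_lit 35184372088832) .dd)))) (.ch (nat_lit 2) (.ev (nat_lit 1200) (nat_lit 105553116270592)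
 (.ev (nat_lit 1824) (nat_lit 4294967296) (.ev (nat_lit 1837) (nat_lit 65536) .dd)))))) (.br (nat_lit 8) (.ch
 (nat_lit 6) (.ev (nat_lit 1200) (nat_lit 4294967296) (.ev (nat_lit 2164) (nat_lit 70368744177664) (.ev
 (nat_lit 2432) (nat_lit 35184372088832) (.nd (nat_lit 3440) (.br (nat_lit 6) (.ch (nat_lit 0) (.ev (nat_lit
 3456) (nat_lit 65536) (.ev (nat_lit 3469) (nat_lit 4096) .dd))) (.br (nat_lit 11) (.ch (nat_lit 6) (.fin
 (nat_lit 576459103015486016))) (.ch (nat_lit 11) (.ev (nat_lit 3456) (nat_lit 65536) (.ev (nat_lit 3469)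
 (nat_lit 4096) .dd)))))))))) (.br (nat_lit 11) (.ch (nat_lit 8) (.ev (nat_lit 1200) (nat_lit 105557411299328)
 (.ev (nat_lit 1213) (nat_lit 4096) .dd))) (.ch (nat_lit 11) (.ev (nat_lit 1200) (nat_lit 105557411299328) (.ev
 (nat_lit 1213) (nat_lit 4096) .dd)))))))))))))) (.br (nat_lit 28) (.ch (nat_lit 26) (.ev (nat_lit 52) (nat_lit
 79461158912) (.ev (nat_lit 308) (nat_lit 2097152) (.ev (nat_lit 468) (nat_lit 35184372088832) (.ev (nat_lit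
 628) (nat_lit 70368744177664) (.ev (nat_lit 660) (nat_lit 1048576) (.ev (nat_lit 756) (nat_lit 4294967296)
 (.nd (nat_lit 1184) (.br (nat_lit 3) (.br (nat_lit 1) (.ch (nat_lit 0) (.ev (nat_lit 1200) (nat_lit
 274877939720) (.ev (nat_lit 2836) (nat_lit 4398046511104) (.ev (nat_lit 2845) (nat_lit 268435456) .dd)))) (.br
 (nat_lit 2) (.ch (nat_lit 1) (.ev (nat_lit 1200) (nat_lit 8) (.ev (nat_lit 1824) (nat_lit 4398046511104) (.ev
 (nat_lit 2420) (nat_lit 268435456) (.ev (nat_lit 2660) (nat_lit 274877906944) (.ev (nat_lit 2669) (nat_lit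
 32768) .dd)))))) (.ch (nat_lit 2) (.ev (nat_lit 1200) (nat_lit 4398314946560) (.ev (nat_lit 1332) (nat_lit
 274877906944) (.ev (nat_lit 2596) (nat_lit 32768) (.ev (nat_lit 2605) (nat_lit 8) .dd))))))) (.br (nat_lit 6)
 (.ch (nat_lit 3) (.ev (nat_lit 1200) (nat_lit 4672924450824) (.ev (nat_lit 1213) (nat_lit 268435456) .dd)))
 (.br (nat_lit 9) (.ch (nat_lit 6) (.ev (nat_lit 1200) (nat_lit 4673192853504) (.nd (nat_lit 3584) (.br
 (nat_lit 11) (.ch (nat_lit 2) (.ev (nat_lit 3600) (nat_lit 8) (.ev (nat_lit 3613) (nat_lit 32768) .dd))) (.ch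
 (nat_lit 11) (.fin (nat_lit 576440411305230918))))))) (.ch (nat_lit 9) (.ev (nat_lit 1200) (nat_lit
 274877939712) (.ev (nat_lit 2512) (nat_lit 8) (.nd (nat_lit 3744) (.br (nat_lit 6) (.ch (nat_lit 0) (.ev
 (nat_lit 3760) (nat_lit 4398046511104) (.ev (nat_lit 3773) (nat_lit 268435456) .dd))) (.br (nat_lit 11) (.ch
 (nat_lit 6) (.ev (nat_lit 3760) (nat_lit 4398046511104) (.ev (nat_lit 3773) (nat_lit 268435456) .dd))) (.ch
 (nat_lit 11) (.fin (nat_lit 576453605503484511)))))))))))))))))))) (.br (nat_lit 29) (.ch (nat_lit 28) (.ev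
 (nat_lit 52) (nat_lit 358900338688) (.ev (nat_lit 880) (nat_lit 109951168086024) .dd))) (.ch (nat_lit 29) (.ev
 (nat_lit 52) (nat_lit 35472134963208) (.ev (nat_lit 84) (nat_lit 70369012613120) (.ev (nat_lit 372) (nat_lit
 4194304) (.ev (nat_lit 436) (nat_lit 68719476736) (.ev (nat_lit 964) (nat_lit 4096) (.nd (nat_lit 1184) (.br
 (nat_lit 8) (.br (nat_lit 3) (.ch (nat_lit 1) (.ev (nat_lit 1200) (nat_lit 4400196124672) (.ev (nat_lit 1213)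
 (nat_lit 1048576) .dd))) (.br (nat_lit 7) (.ch (nat_lit 3) (.ev (nat_lit 1200) (nat_lit 2147483648) (.ev
 (nat_lit 2164) (nat_lit 4398046511104) (.ev (nat_lit 2432) (nat_lit 2097152) (.nd (nat_lit 3520) (.br (nat_lit
 3) (.ch (nat_lit 1) (.ev (nat_lit 3536) (nat_lit 32768) (.ev (nat_lit 3549) (nat_lit 1048576) .dd))) (.br
 (nat_lit 8) (.ch (nat_lit 3) (.ev (nat_lit 3536) (nat_lit 32768) (.ev (nat_lit 3549) (nat_lit 1048576) .dd)))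
 (.ch (nat_lit 8) (.fin (nat_lit 576459103059526206)))))))))) (.ch (nat_lit 7) (.ev (nat_lit 1200) (nat_lit
 4398049656832) (.ev (nat_lit 1824) (nat_lit 2147483648) (.ev (nat_lit 1837) (nat_lit 32768) .dd)))))) (.br
 (nat_lit 9) (.ch (nat_lit 8) (.ev (nat_lit 1200) (nat_lit 2148564992) (.ev (nat_lit 2016) (nat_lit
 4398046511104) (.ev (nat_lit 2029) (nat_lit 2097152) .dd)))) (.br (nat_lit 11) (.ch (nat_lit 9) (.ev (nat_lit
 1200) (nat_lit 2149613568) (.ev (nat_lit 2164) (nat_lit 1048576) (.ev (nat_lit 2173) (nat_lit 4398046511104)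
 .dd)))) (.ch (nat_lit 11) (.ev (nat_lit 1200) (nat_lit 4400196124672) (.ev (nat_lit 1213) (nat_lit 1048576)
 .dd)))))))))))))))))) (.br (nat_lit 42) (.br (nat_lit 38) (.br (nat_lit 36) (.br (nat_lit 33) (.ch (nat_lit
 31) (.ev (nat_lit 52) (nat_lit 75125693186056) (.ev (nat_lit 244) (nat_lit 35184374185984) (.ev (nat_lit 820)
 (nat_lit 4096) (.ev (nat_lit 829) (nat_lit 1048576) .dd))))) (.ch (nat_lit 33) (.ev (nat_lit 52) (nat_lit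
 39934881693696) (.ev (nat_lit 800) (nat_lit 70375186731016) .dd)))) (.br (nat_lit 37) (.ch (nat_lit 36) (.ev
 (nat_lit 52) (nat_lit 70441763962880) (.ev (nat_lit 84) (nat_lit 8589934592) (.ev (nat_lit 660) (nat_lit
 2147483648) (.ev (nat_lit 692) (nat_lit 35184372088832) (.ev (nat_lit 868) (nat_lit 4096) (.nd (nat_lit 1184)
 (.br (nat_lit 8) (.br (nat_lit 3) (.ch (nat_lit 0) (.ev (nat_lit 1200) (nat_lit 4398314946568) (.ev (nat_lit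
 2900) (nat_lit 274877906944) (.ev (nat_lit 2909) (nat_lit 2097152) .dd)))) (.br (nat_lit 7) (.ch (nat_lit 3)
 (.ev (nat_lit 1200) (nat_lit 274880004096) (.ev (nat_lit 2532) (nat_lit 4398046511104) (.ev (nat_lit 2624)
 (nat_lit 8) (.ev (nat_lit 2637) (nat_lit 268435456) .dd))))) (.ch (nat_lit 7) (.ev (nat_lit 1200) (nat_lit
 4398046511112) (.ev (nat_lit 1542) (nat_lit 268435456) (.nd (nat_lit 3392) (.br (nat_lit 1) (.ch (nat_lit 0)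
 (.ev (nat_lit 3408) (nat_lit 274877906944) (.ev (nat_lit 3421) (nat_lit 2097152) .dd))) (.br (nat_lit 4) (.ch
 (nat_lit 1) (.fin (nat_lit 576440411368145438))) (.ch (nat_lit 4) (.ev (nat_lit 3408) (nat_lit 274877906944)
 (.ev (nat_lit 3421) (nat_lit 2097152) .dd))))))))))) (.br (nat_lit 9) (.ch (nat_lit 8) (.ev (nat_lit 1200)
 (nat_lit 268435456) (.ev (nat_lit 2208) (nat_lit 274877906944) (.ev (nat_lit 2660) (nat_lit 2097152) (.ev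
 (nat_lit 2740) (nat_lit 8) (.ev (nat_lit 2749) (nat_lit 4398046511104) .dd)))))) (.br (nat_lit 11) (.ch
 (nat_lit 9) (.ev (nat_lit 1200) (nat_lit 274880004104) (.nd (nat_lit 3440) (.br (nat_lit 11) (.ch (nat_lit 4)
 (.ev (nat_lit 3456) (nat_lit 268435456) (.ev (nat_lit 3469) (nat_lit 4398046511104) .dd))) (.ch (nat_lit 11)
 (.fin (nat_lit 576468998618038817))))))) (.ch (nat_lit 11) (.ev (nat_lit 1200) (nat_lit 4673192853512) (.ev
 (nat_lit 1213) (nat_lit 2097152) .dd))))))))))))) (.ch (nat_lit 37) (.ev (nat_lit 52) (nat_lit 4675340439552)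
 (.ev (nat_lit 84) (nat_lit 8) (.ev (nat_lit 692) (nat_lit 2097152) (.ev (nat_lit 724) (nat_lit 4294967296)
 (.ev (nat_lit 868) (nat_lit 1048576) (.nd (nat_lit 1184) (.br (nat_lit 6) (.br (nat_lit 1) (.ch (nat_lit 0)
 (.ev (nat_lit 1200) (nat_lit 35261681500160) (.nd (nat_lit 3392) (.br (nat_lit 8) (.ch (nat_lit 1) (.fin
 (nat_lit 576468998666273382))) (.ch (nat_lit 8) (.ev (nat_lit 3408) (nat_lit 4194304) (.ev (nat_lit 3421)
 (nat_lit 70368744177664) .dd))))))) (.br (nat_lit 2) (.ch (nat_lit 1) (.ev (nat_lit 1200) (nat_lit 4194304)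
 (.ev (nat_lit 2208) (nat_lit 68719476736) (.ev (nat_lit 2660) (nat_lit 35184372088832) (.ev (nat_lit 2740)
 (nat_lit 8589934592) (.ev (nat_lit 2749) (nat_lit 70368744177664) .dd)))))) (.ch (nat_lit 2) (.ev (nat_lit
 1200) (nat_lit 70377334112256) (.ev (nat_lit 1414) (nat_lit 4194304) (.nd (nat_lit 3392) (.br (nat_lit 2) (.ch
 (nat_lit 1) (.fin (nat_lit 576440411311522383))) (.br (nat_lit 11) (.ch (nat_lit 2) (.ev (nat_lit 3408)
 (nat_lit 68719476736) (.ev (nat_lit 3421) (nat_lit 35184372088832) .dd))) (.ch (nat_lit 11) (.ev (nat_lit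
 3408) (nat_lit 68719476736) (.ev (nat_lit 3421) (nat_lit 35184372088832) .dd))))))))))) (.br (nat_lit 9) (.ch
 (nat_lit 6) (.ev (nat_lit 1200) (nat_lit 35253091565568) (.ev (nat_lit 2532) (nat_lit 70368744177664) (.ev
 (nat_lit 2624) (nat_lit 8589934592) (.ev (nat_lit 2637) (nat_lit 4194304) .dd))))) (.br (nat_lit 11) (.ch
 (nat_lit 9) (.ev (nat_lit 1200) (nat_lit 70377338306560) (.ev (nat_lit 2900) (nat_lit 68719476736) (.ev
 (nat_lit 2909) (nat_lit 35184372088832) .dd)))) (.ch (nat_lit 11) (.ev (nat_lit 1200) (nat_lit 70446057783296)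
 (.ev (nat_lit 1213) (nat_lit 35184372088832) .dd))))))))))))))) (.br (nat_lit 40) (.br (nat_lit 39) (.ch
 (nat_lit 38) (.ev (nat_lit 52) (nat_lit 35192965169152) (.ev (nat_lit 436) (nat_lit 32768) (.ev (nat_lit 628)
 (nat_lit 274877906944) (.nd (nat_lit 1184) (.br (nat_lit 7) (.br (nat_lit 2) (.ch (nat_lit 1) (.ev (nat_lit
 1200) (nat_lit 70442031321088) (.ev (nat_lit 1268) (nat_lit 4398046511104) (.ev (nat_lit 2532) (nat_lit
 2147483648) (.ev (nat_lit 2541) (nat_lit 8) .dd))))) (.br (nat_lit 3) (.ch (nat_lit 2) (.ev (nat_lit 1200)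
 (nat_lit 74769210802184) (.ev (nat_lit 1252) (nat_lit 4096) (.ev (nat_lit 2532) (nat_lit 65536) (.fin (nat_lit
 576458003540558387)))))) (.ch (nat_lit 3) (.ev (nat_lit 1200) (nat_lit 70444178739200) (.ev (nat_lit 1904)
 (nat_lit 8) (.ev (nat_lit 2176) (nat_lit 4398046511104) (.ev (nat_lit 2189) (nat_lit 65536) .dd))))))) (.br
 (nat_lit 9) (.ch (nat_lit 7) (.ev (nat_lit 1200) (nat_lit 74771089920008) (.ev (nat_lit 1366) (nat_lit
 68719476736) (.ev (nat_lit 2304) (nat_lit 2147483648) (.ev (nat_lit 2317) (nat_lit 268435456) .dd))))) (.br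
 (nat_lit 11) (.ch (nat_lit 9) (.ev (nat_lit 1200) (nat_lit 75430432776) (.ev (nat_lit 1252) (nat_lit
 4398046511104) (.ev (nat_lit 2532) (nat_lit 4194304) (.ev (nat_lit 2541) (nat_lit 70368744177664) .dd)))))
 (.ch (nat_lit 11) (.ev (nat_lit 1200) (nat_lit 74842225315848) .dd)))))))))) (.ch (nat_lit 39) (.ev (nat_lit
 52) (nat_lit 279442391048) (.ev (nat_lit 308) (nat_lit 35184372088832) (.ev (nat_lit 468) (nat_lit 2097152)
 (.ev (nat_lit 564) (nat_lit 2147483648) (.ev (nat_lit 628) (nat_lit 4398046511104) (.ev (nat_lit 660) (nat_lit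
 4096) (.nd (nat_lit 1184) (.br (nat_lit 7) (.br (nat_lit 3) (.ch (nat_lit 0) (.ev (nat_lit 1200) (nat_lit
 68719542272) (.ev (nat_lit 2512) (nat_lit 8589934592) (.nd (nat_lit 3440) (.br (nat_lit 6) (.ch (nat_lit 1)
 (.fin (nat_lit 576453605455249946))) (.br (nat_lit 12) (.ch (nat_lit 6) (.ev (nat_lit 3456) (nat_lit
 70368744177664) (.ev (nat_lit 3469) (nat_lit 4194304) .dd))) (.ch (nat_lit 12) (.ev (nat_lit 3456) (nat_lit
 70368744177664) (.ev (nat_lit 3469) (nat_lit 4194304) .dd))))))))) (.br (nat_lit 6) (.ch (nat_lit 3) (.ev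
 (nat_lit 1200) (nat_lit 70437467848704) (.nd (nat_lit 3392) (.br (nat_lit 12) (.ch (nat_lit 3) (.fin (nat_lit
 576440411374436903))) (.ch (nat_lit 12) (.ev (nat_lit 3408) (nat_lit 8589934592) (.ev (nat_lit 3421) (nat_lit
 65536) .dd))))))) (.ch (nat_lit 6) (.ev (nat_lit 1200) (nat_lit 70446053654528) (.ev (nat_lit 1213) (nat_lit
 4194304) .dd))))) (.br (nat_lit 8) (.ch (nat_lit 7) (.ev (nat_lit 1200) (nat_lit 70368748371968) (.ev (nat_lit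
 1332) (nat_lit 68719476736) (.ev (nat_lit 2596) (nat_lit 65536) (.ev (nat_lit 2605) (nat_lit 8589934592)
 .dd))))) (.br (nat_lit 9) (.ch (nat_lit 8) (.ev (nat_lit 1200) (nat_lit 8589934592) (.ev (nat_lit 1824)
 (nat_lit 70368744177664) (.ev (nat_lit 2420) (nat_lit 4194304) (.ev (nat_lit 2660) (nat_lit 68719476736) (.ev
 (nat_lit 2669) (nat_lit 65536) .dd)))))) (.ch (nat_lit 9) (.ev (nat_lit 1200) (nat_lit 77309476864) (.ev
 (nat_lit 2836) (nat_lit 70368744177664) (.ev (nat_lit 2845) (nat_lit 4194304) .dd)))))))))))))))) (.br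
 (nat_lit 41) (.ch (nat_lit 40) (.ev (nat_lit 52) (nat_lit 35534417231880) (.ev (nat_lit 768) (nat_lit
 74775651192832) .dd))) (.ch (nat_lit 41) (.ev (nat_lit 52) (nat_lit 4471065214976) (.ev (nat_lit 180) (nat_lit
 70368744177664) (.ev (nat_lit 308) (nat_lit 8589934592) (.ev (nat_lit 468) (nat_lit 268435456) (.nd (nat_lit
 1184) (.br (nat_lit 3) (.br (nat_lit 1) (.ch (nat_lit 0) (.ev (nat_lit 1200) (nat_lit 35186520657928) (.ev
 (nat_lit 2176) (nat_lit 2097152) (.ev (nat_lit 2189) (nat_lit 274877906944) .dd)))) (.br (nat_lit 2) (.ch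
 (nat_lit 1) (.ev (nat_lit 1200) (nat_lit 35459253178376) (.ev (nat_lit 1213) (nat_lit 2147483648) .dd))) (.ch
 (nat_lit 2) (.ev (nat_lit 1200) (nat_lit 3145728) (.ev (nat_lit 1252) (nat_lit 32768) (.ev (nat_lit 2384)
 (nat_lit 274877906944) (.ev (nat_lit 2836) (nat_lit 35184372088840) (.nd (nat_lit 3584) (.br (nat_lit 6) (.ch
 (nat_lit 1) (.ev (nat_lit 3600) (nat_lit 2147487744) .dd)) (.ch (nat_lit 6) (.fin (nat_lit
 576460202548085310)))))))))))) (.br (nat_lit 6) (.ch (nat_lit 3) (.ev (nat_lit 1200) (nat_lit 35461397483520)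
 (.ev (nat_lit 2420) (nat_lit 2097152) (.ev (nat_lit 2532) (nat_lit 8) (.nd (nat_lit 3616) (.br (nat_lit 11)
 (.ch (nat_lit 8) (.fin (nat_lit 576459103059526206))) (.br (nat_lit 12) (.ch (nat_lit 11) (.ev (nat_lit 3632)
 (nat_lit 1048576) (.ev (nat_lit 3645) (nat_lit 32768) .dd))) (.ch (nat_lit 12) (.ev (nat_lit 3632) (nat_lit
 1048576) (.ev (nat_lit 3645) (nat_lit 32768) .dd)))))))))) (.br (nat_lit 7) (.ch (nat_lit 6) (.ev (nat_lit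
 1200) (nat_lit 277028536328) (.ev (nat_lit 1252) (nat_lit 4096) (.ev (nat_lit 2660) (nat_lit 32768) (.ev
 (nat_lit 2669) (nat_lit 35184372088832) .dd))))) (.ch (nat_lit 7) (.ev (nat_lit 1200) (nat_lit 35186520625152)
 (.ev (nat_lit 1252) (nat_lit 32768) (.nd (nat_lit 3472) (.br (nat_lit 4) (.br (nat_lit 1) (.ch (nat_lit 0)
 (.ev (nat_lit 3488) (nat_lit 274880004104) .dd)) (.ch (nat_lit 1) (.ev (nat_lit 3488) (nat_lit 8) (.fin
 (nat_lit 576440411368145438))))) (.br (nat_lit 10) (.ch (nat_lit 4) (.ev (nat_lit 3488) (nat_lit 274880004096)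
 (.ev (nat_lit 3501) (nat_lit 8) .dd))) (.ch (nat_lit 10) (.ev (nat_lit 3488) (nat_lit 274880004104)
 .dd)))))))))))))))))))) (.br (nat_lit 47) (.br (nat_lit 44) (.br (nat_lit 43) (.ch (nat_lit 42) (.ev (nat_lit
 52) (nat_lit 4745940959232) (.ev (nat_lit 308) (nat_lit 268435456) (.ev (nat_lit 468) (nat_lit 65536) (.ev
 (nat_lit 628) (nat_lit 4194304) (.ev (nat_lit 756) (nat_lit 4096) (.ev (nat_lit 900) (nat_lit 2147483648) (.nd
 (nat_lit 1184) (.br (nat_lit 6) (.br (nat_lit 2) (.ch (nat_lit 1) (.ev (nat_lit 1200) (nat_lit 32776) (.ev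
 (nat_lit 1216) (nat_lit 35184372088832) (.ev (nat_lit 2464) (nat_lit 70368744177664) (.fin (nat_lit
 576464600612422201)))))) (.br (nat_lit 3) (.ch (nat_lit 2) (.ev (nat_lit 1200) (nat_lit 105553117315080) (.ev
 (nat_lit 2256) (nat_lit 32768) (.ev (nat_lit 2269) (nat_lit 8589934592) .dd)))) (.ch (nat_lit 3) (.ev (nat_lit
 1200) (nat_lit 105561707249672) (.ev (nat_lit 1213) (nat_lit 32768) .dd))))) (.br (nat_lit 9) (.ch (nat_lit 6)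
 (.ev (nat_lit 1200) (nat_lit 35192963072000) (.ev (nat_lit 2256) (nat_lit 70368744177664) (.ev (nat_lit 2532)
 (nat_lit 32768) (.ev (nat_lit 2541) (nat_lit 8) .dd))))) (.br (nat_lit 11) (.ch (nat_lit 9) (.ev (nat_lit
 1200) (nat_lit 105561707282432) (.ev (nat_lit 1213) (nat_lit 8) .dd))) (.ch (nat_lit 11) (.ev (nat_lit 1200)
 (nat_lit 105561707282440) .dd))))))))))))) (.ch (nat_lit 43) (.ev (nat_lit 52) (nat_lit 74835514359808) (.ev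
 (nat_lit 180) (nat_lit 35184372088832) (.ev (nat_lit 244) (nat_lit 268435456) (.ev (nat_lit 532) (nat_lit
 8589934592) (.ev (nat_lit 1092) (nat_lit 1048576) (.nd (nat_lit 1184) (.br (nat_lit 6) (.br (nat_lit 2) (.ch
 (nat_lit 0) (.ev (nat_lit 1200) (nat_lit 2149679112) (.ev (nat_lit 1252) (nat_lit 4096) (.ev (nat_lit 1988)
 (nat_lit 274877906944) (.ev (nat_lit 1997) (nat_lit 4294967296) .dd))))) (.br (nat_lit 3) (.ch (nat_lit 2)
 (.ev (nat_lit 1200) (nat_lit 2097160) (.ev (nat_lit 1252) (nat_lit 4294967296) (.ev (nat_lit 2464) (nat_lit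
 32768) (.ev (nat_lit 2596) (nat_lit 65536) (.ev (nat_lit 2784) (nat_lit 274877906944) (.nd (nat_lit 3520) (.br
 (nat_lit 6) (.ch (nat_lit 2) (.ev (nat_lit 3536) (nat_lit 2147487744) .dd)) (.ch (nat_lit 6) (.fin (nat_lit
 576460202548085310))))))))))) (.ch (nat_lit 3) (.ev (nat_lit 1200) (nat_lit 281322524672) (.ev (nat_lit 2176)
 (nat_lit 8) (.ev (nat_lit 2189) (nat_lit 32768) .dd)))))) (.br (nat_lit 8) (.ch (nat_lit 6) (.ev (nat_lit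
 1200) (nat_lit 277027491840) (.ev (nat_lit 1252) (nat_lit 4294967296) (.ev (nat_lit 3350) (nat_lit 65536) (.nd
 (nat_lit 3712) (.br (nat_lit 5) (.br (nat_lit 3) (.ch (nat_lit 0) (.ev (nat_lit 3728) (nat_lit 32776) .dd))
 (.ch (nat_lit 3) (.ev (nat_lit 3728) (nat_lit 32776) .dd))) (.br (nat_lit 11) (.ch (nat_lit 5) (.ev (nat_lit
 3728) (nat_lit 32776) .dd)) (.ch (nat_lit 11) (.fin (nat_lit 576440411305230918)))))))))) (.br (nat_lit 9)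
 (.ch (nat_lit 8) (.ev (nat_lit 1200) (nat_lit 277025427456) (.ev (nat_lit 2660) (nat_lit 8) (.ev (nat_lit
 2980) (nat_lit 65536) (.nd (nat_lit 3520) (.br (nat_lit 10) (.ch (nat_lit 4) (.ev (nat_lit 3536) (nat_lit
 2097152) (.ev (nat_lit 3549) (nat_lit 4294967296) .dd))) (.br (nat_lit 12) (.ch (nat_lit 10) (.ev (nat_lit
 3536) (nat_lit 2097152) (.ev (nat_lit 3549) (nat_lit 4294967296) .dd))) (.ch (nat_lit 12) (.fin (nat_lit
 576459103028068946)))))))))) (.ch (nat_lit 9) (.ev (nat_lit 1200) (nat_lit 279175073800) (.ev (nat_lit 1213)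
 (nat_lit 2147483648) .dd)))))))))))))) (.br (nat_lit 46) (.ch (nat_lit 44) (.ev (nat_lit 52) (nat_lit
 105630431969280) (.ev (nat_lit 308) (nat_lit 4398046511104) (.ev (nat_lit 544) (nat_lit 281589944328) .dd))))
 (.ch (nat_lit 46) (.ev (nat_lit 52) (nat_lit 4468920848384) (.ev (nat_lit 436) (nat_lit 70368744177664) (.ev
 (nat_lit 848) (nat_lit 35472403398664) .dd)))))) (.br (nat_lit 49) (.br (nat_lit 48) (.ch (nat_lit 47) (.ev
 (nat_lit 52) (nat_lit 75041937031168) (.ev (nat_lit 180) (nat_lit 2097152) (.ev (nat_lit 244) (nat_lit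
 4194304) (.ev (nat_lit 532) (nat_lit 8) (.ev (nat_lit 1092) (nat_lit 4096) (.nd (nat_lit 1184) (.br (nat_lit
 6) (.br (nat_lit 1) (.ch (nat_lit 0) (.ev (nat_lit 1200) (nat_lit 35263830130688) (.ev (nat_lit 1213) (nat_lit
 4294967296) .dd))) (.br (nat_lit 3) (.ch (nat_lit 1) (.ev (nat_lit 1200) (nat_lit 73015558144) (.ev (nat_lit
 2660) (nat_lit 8589934592) (.ev (nat_lit 2980) (nat_lit 32768) (.nd (nat_lit 3776) (.br (nat_lit 6) (.ch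
 (nat_lit 0) (.ev (nat_lit 3792) (nat_lit 35184372088832) (.ev (nat_lit 3805) (nat_lit 2147483648) .dd))) (.br
 (nat_lit 11) (.ch (nat_lit 6) (.ev (nat_lit 3792) (nat_lit 35184372088832) (.ev (nat_lit 3805) (nat_lit
 2147483648) .dd))) (.ch (nat_lit 11) (.fin (nat_lit 576459103046943276)))))))))) (.ch (nat_lit 3) (.ev
 (nat_lit 1200) (nat_lit 35257387581440) (.ev (nat_lit 1252) (nat_lit 2147483648) (.ev (nat_lit 3366) (nat_lit
 32768) (.nd (nat_lit 3552) (.br (nat_lit 9) (.br (nat_lit 3) (.ch (nat_lit 1) (.ev (nat_lit 3568) (nat_lit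
 8590000128) .dd)) (.ch (nat_lit 3) (.fin (nat_lit 576440411374436903)))) (.br (nat_lit 11) (.ch (nat_lit 9)
 (.ev (nat_lit 3568) (nat_lit 8590000128) .dd)) (.ch (nat_lit 11) (.ev (nat_lit 3568) (nat_lit 8590000128)
 .dd))))))))))) (.br (nat_lit 7) (.ch (nat_lit 6) (.ev (nat_lit 1200) (nat_lit 35259535097856) (.ev (nat_lit
 2176) (nat_lit 8589934592) (.ev (nat_lit 2189) (nat_lit 65536) .dd)))) (.br (nat_lit 9) (.ch (nat_lit 7) (.ev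
 (nat_lit 1200) (nat_lit 35192962023424) (.ev (nat_lit 1252) (nat_lit 2147483648) (.ev (nat_lit 2464) (nat_lit
 65536) (.ev (nat_lit 2596) (nat_lit 32768) (.ev (nat_lit 2784) (nat_lit 68719476736) (.nd (nat_lit 3440) (.br
 (nat_lit 9) (.ch (nat_lit 0) (.ev (nat_lit 3456) (nat_lit 4296015872) .dd)) (.ch (nat_lit 9) (.fin (nat_lit
 576460202550182465))))))))))) (.ch (nat_lit 9) (.ev (nat_lit 1200) (nat_lit 35197257089024) (.ev (nat_lit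
 1252) (nat_lit 1048576) (.ev (nat_lit 1988) (nat_lit 68719476736) (.ev (nat_lit 1997) (nat_lit 2147483648)
 .dd))))))))))))))) (.ch (nat_lit 48) (.ev (nat_lit 52) (nat_lit 70646038036480) (.ev (nat_lit 180) (nat_lit
 4398046511104) (.ev (nat_lit 308) (nat_lit 8) (.ev (nat_lit 468) (nat_lit 4194304) (.nd (nat_lit 1184) (.br
 (nat_lit 7) (.br (nat_lit 3) (.ch (nat_lit 2) (.ev (nat_lit 1200) (nat_lit 4298117120) (.ev (nat_lit 1252)
 (nat_lit 65536) (.nd (nat_lit 3392) (.br (nat_lit 5) (.br (nat_lit 2) (.ch (nat_lit 1) (.ev (nat_lit 3408)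
 (nat_lit 8589934592) (.fin (nat_lit 576440411311522383)))) (.ch (nat_lit 2) (.ev (nat_lit 3408) (nat_lit
 35261681500160) .dd))) (.br (nat_lit 11) (.ch (nat_lit 5) (.ev (nat_lit 3408) (nat_lit 35261681500160) .dd))
 (.ch (nat_lit 11) (.ev (nat_lit 3408) (nat_lit 35253091565568) (.ev (nat_lit 3421) (nat_lit 8589934592)
 .dd))))))))) (.br (nat_lit 6) (.ch (nat_lit 3) (.ev (nat_lit 1200) (nat_lit 35265976471552) (.ev (nat_lit
 1252) (nat_lit 1048576) (.ev (nat_lit 2660) (nat_lit 65536) (.ev (nat_lit 2669) (nat_lit 2097152) .dd)))))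
 (.ch (nat_lit 6) (.ev (nat_lit 1200) (nat_lit 73017589760) (.ev (nat_lit 2420) (nat_lit 35184372088832) (.ev
 (nat_lit 2532) (nat_lit 8589934592) (.nd (nat_lit 3472) (.br (nat_lit 3) (.ch (nat_lit 2) (.ev (nat_lit 3488)
 (nat_lit 4096) (.ev (nat_lit 3501) (nat_lit 65536) .dd))) (.br (nat_lit 6) (.ch (nat_lit 3) (.ev (nat_lit
 3488) (nat_lit 4096) (.ev (nat_lit 3501) (nat_lit 65536) .dd))) (.ch (nat_lit 6) (.fin (nat_lit
 576459103015486016)))))))))))) (.br (nat_lit 8) (.ch (nat_lit 7) (.ev (nat_lit 1200) (nat_lit 35184372092928)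
 (.ev (nat_lit 1252) (nat_lit 65536) (.ev (nat_lit 2384) (nat_lit 68719476736) (.ev (nat_lit 2836) (nat_lit
 8592031744) (.nd (nat_lit 3440) (.br (nat_lit 9) (.ch (nat_lit 1) (.ev (nat_lit 3456) (nat_lit 4296015872)
 .dd)) (.ch (nat_lit 9) (.fin (nat_lit 576460202550182465)))))))))) (.br (nat_lit 9) (.ch (nat_lit 8) (.ev
 (nat_lit 1200) (nat_lit 35261684715520) (.ev (nat_lit 1213) (nat_lit 4294967296) .dd))) (.ch (nat_lit 9) (.ev
 (nat_lit 1200) (nat_lit 12888117248) (.ev (nat_lit 2176) (nat_lit 35184372088832) (.ev (nat_lit 2189) (nat_lit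
 68719476736) .dd)))))))))))))) (.br (nat_lit 50) (.ch (nat_lit 49) (.ev (nat_lit 52) (nat_lit 35184374190088)
 (.ev (nat_lit 436) (nat_lit 65536) (.ev (nat_lit 628) (nat_lit 68719476736) (.nd (nat_lit 1184) (.br (nat_lit
 7) (.br (nat_lit 2) (.ch (nat_lit 0) (.ev (nat_lit 1200) (nat_lit 289915568128) (.ev (nat_lit 1252) (nat_lit
 70368744177664) (.ev (nat_lit 2532) (nat_lit 268435456) (.ev (nat_lit 2541) (nat_lit 4398046511104) .dd)))))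
 (.br (nat_lit 6) (.ch (nat_lit 2) (.ev (nat_lit 1200) (nat_lit 74777797623808) (.ev (nat_lit 1350) (nat_lit
 274877906944) (.ev (nat_lit 2304) (nat_lit 4294967296) (.ev (nat_lit 2317) (nat_lit 4194304) .dd))))) (.ch
 (nat_lit 6) (.ev (nat_lit 1200) (nat_lit 4679640547328) (.ev (nat_lit 1904) (nat_lit 8589934592) (.ev (nat_lit
 2176) (nat_lit 70368744177664) (.ev (nat_lit 2189) (nat_lit 32768) .dd))))))) (.br (nat_lit 8) (.ch (nat_lit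
 7) (.ev (nat_lit 1200) (nat_lit 74779948220416) (.ev (nat_lit 1252) (nat_lit 1048576) (.ev (nat_lit 2532)
 (nat_lit 32768) (.fin (nat_lit 576458003511198282)))))) (.br (nat_lit 11) (.ch (nat_lit 8) (.ev (nat_lit 1200)
 (nat_lit 4675345612800) (.ev (nat_lit 1268) (nat_lit 70368744177664) (.ev (nat_lit 2532) (nat_lit 4294967296)
 (.ev (nat_lit 2541) (nat_lit 8589934592) .dd))))) (.ch (nat_lit 11) (.ev (nat_lit 1200) (nat_lit
 75056974692352) .dd)))))))))) (.br (nat_lit 52) (.ch (nat_lit 50) (.ev (nat_lit 52) (nat_lit 105896988381192)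
 (.ev (nat_lit 836) (nat_lit 2147483648) (.ev (nat_lit 1072) (nat_lit 4410932559872) .dd)))) (.ch (nat_lit 52)
 (.ev (nat_lit 52) (nat_lit 105832558694400) (.ev (nat_lit 436) (nat_lit 4398046511104) (.ev (nat_lit 1008)
 (nat_lit 79463219208) .dd))))))))))))

/-- Subtrie. -/
noncomputable def T5 : Tr := (.ev (nat_lit 20) (nat_lit 22029696794656) (.nd (nat_lit 33) (.br (nat_lit 31)
 (.br (nat_lit 16) (.br (nat_lit 10) (.br (nat_lit 6) (.br (nat_lit 5) (.ch (nat_lit 4) (.ev (nat_lit 52)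
 (nat_lit 70368814438408) (.ev (nat_lit 64) (nat_lit 35538875531782) .dd))) (.ch (nat_lit 5) (.ev (nat_lit 52)
 (nat_lit 35467974754310) (.ev (nat_lit 84) (nat_lit 4096) (.ev (nat_lit 276) (nat_lit 2097152) (.ev (nat_lit
 372) (nat_lit 68719476736) (.ev (nat_lit 596) (nat_lit 2048) (.ev (nat_lit 692) (nat_lit 2147483648) (.nd
 (nat_lit 1184) (.br (nat_lit 8) (.br (nat_lit 1) (.ch (nat_lit 0) (.ev (nat_lit 1200) (nat_lit 70368845103112)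
 (.nd (nat_lit 1792) (.br (nat_lit 8) (.br (nat_lit 4) (.ch (nat_lit 2) (.ev (nat_lit 1840) (nat_lit 512) (.ev
 (nat_lit 1853) (nat_lit 1048576) .dd))) (.br (nat_lit 5) (.ch (nat_lit 4) (.ev (nat_lit 1808) (nat_lit
 1049088) .dd)) (.ch (nat_lit 5) (.ev (nat_lit 1808) (nat_lit 1048576) (.ev (nat_lit 1821) (nat_lit 512)
 .dd))))) (.br (nat_lit 11) (.br (nat_lit 9) (.ch (nat_lit 8) (.ev (nat_lit 1808) (nat_lit 1048576) (.ev
 (nat_lit 1821) (nat_lit 512) .dd))) (.ch (nat_lit 9) (.ev (nat_lit 1808) (nat_lit 1049088) .dd))) (.br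
 (nat_lit 12) (.ch (nat_lit 11) (.ev (nat_lit 1808) (nat_lit 1048576) (.ev (nat_lit 1821) (nat_lit 512) .dd)))
 (.ch (nat_lit 12) (.ev (nat_lit 1808) (nat_lit 1049088) .dd)))))))) (.br (nat_lit 4) (.ch (nat_lit 1) (.ev
 (nat_lit 1200) (nat_lit 70368845103624) (.ev (nat_lit 1213) (nat_lit 1048576) .dd))) (.ch (nat_lit 4) (.ev
 (nat_lit 1200) (nat_lit 70368811549184) (.nd (nat_lit 1792) (.br (nat_lit 8) (.br (nat_lit 3) (.ch (nat_lit 0)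
 (.ev (nat_lit 1808) (nat_lit 1048576) (.ev (nat_lit 2244) (nat_lit 8) (.ev (nat_lit 2253) (nat_lit 33554432)
 .dd)))) (.br (nat_lit 4) (.ch (nat_lit 3) (.ev (nat_lit 1808) (nat_lit 1048584) (.ev (nat_lit 1821) (nat_lit
 33554432) .dd))) (.ch (nat_lit 4) (.ev (nat_lit 1808) (nat_lit 34603008) (.ev (nat_lit 1821) (nat_lit 8)
 .dd))))) (.br (nat_lit 9) (.ch (nat_lit 8) (.ev (nat_lit 1808) (nat_lit 33554432) (.ev (nat_lit 2288) (nat_lit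
 8) (.ev (nat_lit 2301) (nat_lit 1048576) .dd)))) (.br (nat_lit 12) (.ch (nat_lit 9) (.ev (nat_lit 1808)
 (nat_lit 34603016) .dd)) (.ch (nat_lit 12) (.ev (nat_lit 1808) (nat_lit 34603008) (.ev (nat_lit 1821) (nat_lit
 8) .dd))))))))))) (.br (nat_lit 9) (.ch (nat_lit 8) (.ev (nat_lit 1200) (nat_lit 34865664) (.nd (nat_lit 1792)
 (.br (nat_lit 8) (.br (nat_lit 5) (.ch (nat_lit 1) (.ev (nat_lit 2464) (nat_lit 8) (.ev (nat_lit 2532)
 (nat_lit 67108864) (.ev (nat_lit 2541) (nat_lit 70368744177664) .dd)))) (.ch (nat_lit 5) (.ev (nat_lit 1808)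
 (nat_lit 70368811286536) .dd))) (.br (nat_lit 11) (.ch (nat_lit 8) (.ev (nat_lit 1808) (nat_lit 67108872) (.ev
 (nat_lit 1821) (nat_lit 70368744177664) .dd))) (.ch (nat_lit 11) (.ev (nat_lit 1808) (nat_lit 8) (.ev (nat_lit
 2176) (nat_lit 70368811286528) .dd)))))))) (.br (nat_lit 12) (.ch (nat_lit 9) (.ev (nat_lit 1200) (nat_lit
 70368778780680) (.ev (nat_lit 1670) (nat_lit 262144) (.ev (nat_lit 2560) (nat_lit 67108864) (.ev (nat_lit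
 2573) (nat_lit 512) .dd))))) (.ch (nat_lit 12) (.ev (nat_lit 1200) (nat_lit 68420104) (.ev (nat_lit 2128)
 (nat_lit 70368744177664) (.ev (nat_lit 2141) (nat_lit 33554432) .dd)))))))))))))))) (.br (nat_lit 9) (.ch
 (nat_lit 6) (.ev (nat_lit 52) (nat_lit 105563888633864) (.ev (nat_lit 448) (nat_lit 343801336326) .dd))) (.ch
 (nat_lit 9) (.ev (nat_lit 52) (nat_lit 105898861152772) (.ev (nat_lit 116) (nat_lit 67108864) (.ev (nat_lit
 212) (nat_lit 33554432) (.ev (nat_lit 404) (nat_lit 1048576) (.ev (nat_lit 596) (nat_lit 262144) (.ev (nat_lit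
 900) (nat_lit 134217728) (.ev (nat_lit 964) (nat_lit 2) (.nd (nat_lit 1184) (.br (nat_lit 8) (.br (nat_lit 4)
 (.ch (nat_lit 0) (.ev (nat_lit 1200) (nat_lit 65544) (.ev (nat_lit 1216) (nat_lit 4096) (.ev (nat_lit 2544)
 (nat_lit 524288) (.fin (nat_lit 576471197650731595)))))) (.br (nat_lit 6) (.ch (nat_lit 4) (.ev (nat_lit 1200)
 (nat_lit 8592035840) (.nd (nat_lit 1792) (.br (nat_lit 6) (.br (nat_lit 1) (.ch (nat_lit 0) (.ev (nat_lit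
 1808) (nat_lit 524296) (.ev (nat_lit 1821) (nat_lit 65536) .dd))) (.ch (nat_lit 1) (.ev (nat_lit 1808)
 (nat_lit 589824) (.ev (nat_lit 1821) (nat_lit 8) .dd)))) (.br (nat_lit 7) (.ch (nat_lit 6) (.ev (nat_lit 1808)
 (nat_lit 65544) (.ev (nat_lit 1821) (nat_lit 524288) .dd))) (.br (nat_lit 8) (.ch (nat_lit 7) (.ev (nat_lit
 1808) (nat_lit 65544) (.ev (nat_lit 1821) (nat_lit 524288) .dd))) (.ch (nat_lit 8) (.ev (nat_lit 1808)
 (nat_lit 524296) (.ev (nat_lit 1821) (nat_lit 65536) .dd))))))))) (.ch (nat_lit 6) (.ev (nat_lit 1200)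
 (nat_lit 2625544) (.nd (nat_lit 1792) (.br (nat_lit 5) (.br (nat_lit 3) (.ch (nat_lit 1) (.ev (nat_lit 1808)
 (nat_lit 8590000128) .dd)) (.ch (nat_lit 3) (.ev (nat_lit 1808) (nat_lit 65536) (.ev (nat_lit 1821) (nat_lit
 8589934592) .dd)))) (.br (nat_lit 7) (.ch (nat_lit 5) (.ev (nat_lit 2480) (nat_lit 8589934592) (.ev (nat_lit
 2493) (nat_lit 65536) .dd))) (.br (nat_lit 12) (.ch (nat_lit 7) (.ev (nat_lit 1808) (nat_lit 8590000128) .dd))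
 (.ch (nat_lit 12) (.ev (nat_lit 1808) (nat_lit 8589934592) (.ev (nat_lit 1821) (nat_lit 65536) .dd)))))))))))
 (.br (nat_lit 9) (.ch (nat_lit 8) (.ev (nat_lit 1200) (nat_lit 8592625672) .dd)) (.br (nat_lit 12) (.ch
 (nat_lit 9) (.ev (nat_lit 1200) (nat_lit 8592625664) (.ev (nat_lit 1213) (nat_lit 8) .dd))) (.ch (nat_lit 12)
 (.ev (nat_lit 1200) (nat_lit 8592560136) (.ev (nat_lit 1213) (nat_lit 65536) .dd))))))))))))))))) (.br
 (nat_lit 12) (.br (nat_lit 11) (.ch (nat_lit 10) (.ev (nat_lit 52) (nat_lit 70377470956040) (.ev (nat_lit 180)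
 (nat_lit 2147483648) (.ev (nat_lit 404) (nat_lit 65536) (.ev (nat_lit 628) (nat_lit 68719476736) (.ev (nat_lit
 964) (nat_lit 16384) (.ev (nat_lit 996) (nat_lit 4) (.nd (nat_lit 1184) (.br (nat_lit 6) (.br (nat_lit 4) (.ch
 (nat_lit 1) (.ev (nat_lit 1200) (nat_lit 35184440510466) (.fin (nat_lit 576455804496331342)))) (.br (nat_lit
 5) (.ch (nat_lit 4) (.ev (nat_lit 1200) (nat_lit 35459351709696) (.nd (nat_lit 1792) (.br (nat_lit 8) (.br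
 (nat_lit 4) (.ch (nat_lit 3) (.ev (nat_lit 1808) (nat_lit 2) (.ev (nat_lit 1821) (nat_lit 262144) .dd))) (.ch
 (nat_lit 4) (.ev (nat_lit 1808) (nat_lit 262146) .dd))) (.br (nat_lit 9) (.ch (nat_lit 8) (.ev (nat_lit 1808)
 (nat_lit 2) (.ev (nat_lit 1821) (nat_lit 262144) .dd))) (.br (nat_lit 12) (.ch (nat_lit 9) (.ev (nat_lit 2660)
 (nat_lit 262144) (.ev (nat_lit 2669) (nat_lit 2) .dd))) (.ch (nat_lit 12) (.ev (nat_lit 1808) (nat_lit 262146)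
 .dd)))))))) (.ch (nat_lit 5) (.ev (nat_lit 1200) (nat_lit 34867202) (.nd (nat_lit 1792) (.br (nat_lit 8) (.br
 (nat_lit 3) (.ch (nat_lit 1) (.ev (nat_lit 1888) (nat_lit 274877906944) (.ev (nat_lit 2096) (nat_lit 67108864)
 (.ev (nat_lit 2109) (nat_lit 35184372088832) .dd)))) (.br (nat_lit 6) (.ch (nat_lit 3) (.ev (nat_lit 1808)
 (nat_lit 35459317104640) .dd)) (.ch (nat_lit 6) (.ev (nat_lit 1808) (nat_lit 35459317104640) .dd)))) (.br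
 (nat_lit 10) (.ch (nat_lit 8) (.ev (nat_lit 1808) (nat_lit 35459249995776) (.ev (nat_lit 1821) (nat_lit
 67108864) .dd))) (.br (nat_lit 12) (.ch (nat_lit 10) (.ev (nat_lit 1808) (nat_lit 35459249995776) (.ev
 (nat_lit 1821) (nat_lit 67108864) .dd))) (.ch (nat_lit 12) (.ev (nat_lit 1808) (nat_lit 35459317104640)
 .dd)))))))))) (.br (nat_lit 11) (.br (nat_lit 8) (.ch (nat_lit 6) (.ev (nat_lit 1200) (nat_lit 274945280002)
 (.nd (nat_lit 1792) (.br (nat_lit 7) (.br (nat_lit 3) (.ch (nat_lit 0) (.ev (nat_lit 1808) (nat_lit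
 35184405643264) (.ev (nat_lit 1821) (nat_lit 1048576) .dd))) (.br (nat_lit 4) (.ch (nat_lit 3) (.ev (nat_lit
 1808) (nat_lit 34603008) (.ev (nat_lit 1821) (nat_lit 35184372088832) .dd))) (.ch (nat_lit 4) (.ev (nat_lit
 1808) (nat_lit 34603008) (.ev (nat_lit 1821) (nat_lit 35184372088832) .dd))))) (.br (nat_lit 8) (.ch (nat_lit
 7) (.ev (nat_lit 1808) (nat_lit 34603008) (.ev (nat_lit 1821) (nat_lit 35184372088832) .dd))) (.br (nat_lit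
 12) (.ch (nat_lit 8) (.ev (nat_lit 1808) (nat_lit 1048576) (.ev (nat_lit 2244) (nat_lit 35184372088832) (.ev
 (nat_lit 2253) (nat_lit 33554432) .dd)))) (.ch (nat_lit 12) (.ev (nat_lit 1808) (nat_lit 35184405643264) (.ev
 (nat_lit 1821) (nat_lit 1048576) .dd))))))))) (.ch (nat_lit 8) (.ev (nat_lit 1200) (nat_lit 101974016) (.nd
 (nat_lit 1792) (.br (nat_lit 6) (.br (nat_lit 2) (.ch (nat_lit 0) (.ev (nat_lit 1808) (nat_lit 35184372090882)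
 (.ev (nat_lit 1821) (nat_lit 274877906944) .dd))) (.br (nat_lit 5) (.ch (nat_lit 2) (.ev (nat_lit 1808)
 (nat_lit 274877906946) (.ev (nat_lit 1824) (nat_lit 35184372090880) .dd))) (.ch (nat_lit 5) (.ev (nat_lit
 1808) (nat_lit 35184372090880) (.ev (nat_lit 1824) (nat_lit 2) (.ev (nat_lit 1837) (nat_lit 274877906944)
 .dd)))))) (.br (nat_lit 11) (.br (nat_lit 8) (.ch (nat_lit 6) (.ev (nat_lit 1808) (nat_lit 35459249995778)
 (.ev (nat_lit 1821) (nat_lit 2048) .dd))) (.ch (nat_lit 8) (.ev (nat_lit 1808) (nat_lit 35184372088834) (.ev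
 (nat_lit 1888) (nat_lit 274877906944) (.ev (nat_lit 1901) (nat_lit 2048) .dd))))) (.br (nat_lit 12) (.ch
 (nat_lit 11) (.ev (nat_lit 1808) (nat_lit 2048) (.ev (nat_lit 2164) (nat_lit 35184372088832) (.ev (nat_lit
 2800) (nat_lit 2) (.ev (nat_lit 2813) (nat_lit 274877906944) .dd))))) (.ch (nat_lit 12) (.ev (nat_lit 1808)
 (nat_lit 35184372090882) (.ev (nat_lit 1821) (nat_lit 274877906944) .dd)))))))))) (.br (nat_lit 12) (.ch
 (nat_lit 11) (.ev (nat_lit 1200) (nat_lit 35184406691842) (.nd (nat_lit 1792) (.br (nat_lit 4) (.br (nat_lit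
 2) (.ch (nat_lit 0) (.ev (nat_lit 1808) (nat_lit 67110912) (.ev (nat_lit 1940) (nat_lit 262144) (.ev (nat_lit
 1949) (nat_lit 274877906944) .dd)))) (.br (nat_lit 3) (.ch (nat_lit 2) (.ev (nat_lit 1808) (nat_lit
 274878171136) (.ev (nat_lit 1821) (nat_lit 67108864) .dd))) (.ch (nat_lit 3) (.ev (nat_lit 1808) (nat_lit
 67373056) (.ev (nat_lit 1821) (nat_lit 274877906944) .dd))))) (.br (nat_lit 8) (.br (nat_lit 6) (.ch (nat_lit
 4) (.ev (nat_lit 1808) (nat_lit 274945015808) (.ev (nat_lit 1824) (nat_lit 262144) (.ev (nat_lit 1837)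
 (nat_lit 2048) .dd)))) (.ch (nat_lit 6) (.ev (nat_lit 1808) (nat_lit 67371008) (.ev (nat_lit 2608) (nat_lit
 274877908992) .dd)))) (.br (nat_lit 12) (.ch (nat_lit 8) (.ev (nat_lit 1808) (nat_lit 67373056) (.ev (nat_lit
 1821) (nat_lit 274877906944) .dd))) (.ch (nat_lit 12) (.ev (nat_lit 1808) (nat_lit 67373056) (.ev (nat_lit
 1821) (nat_lit 274877906944) .dd))))))))) (.ch (nat_lit 12) (.ev (nat_lit 1200) (nat_lit 35184440510466) (.ev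
 (nat_lit 1232) (nat_lit 33554432) (.ev (nat_lit 1245) (nat_lit 274877906944) .dd))))))))))))))) (.ch (nat_lit
 11) (.ev (nat_lit 52) (nat_lit 35459252617738) (.ev (nat_lit 276) (nat_lit 262144) (.ev (nat_lit 340) (nat_lit
 33554432) (.ev (nat_lit 564) (nat_lit 134217728) (.ev (nat_lit 756) (nat_lit 16384) (.nd (nat_lit 1184) (.br
 (nat_lit 9) (.br (nat_lit 1) (.ch (nat_lit 0) (.ev (nat_lit 1200) (nat_lit 70439679365120) (.ev (nat_lit 1382)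
 (nat_lit 2048) (.nd (nat_lit 3392) (.br (nat_lit 12) (.ch (nat_lit 4) (.fin (nat_lit 576466799657697839)))
 (.ch (nat_lit 12) (.ev (nat_lit 3408) (nat_lit 8589934596) .dd))))))) (.br (nat_lit 8) (.ch (nat_lit 1) (.ev
 (nat_lit 1200) (nat_lit 70379548708868) (.ev (nat_lit 1252) (nat_lit 65536) (.ev (nat_lit 1876) (nat_lit
 68719476736) (.ev (nat_lit 2112) (nat_lit 1048576) (.ev (nat_lit 2125) (nat_lit 2048) .dd)))))) (.ch (nat_lit
 8) (.ev (nat_lit 1200) (nat_lit 68787705856) (.ev (nat_lit 2244) (nat_lit 4) (.ev (nat_lit 2608) (nat_lit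
 2147483648) (.ev (nat_lit 2912) (nat_lit 8589934592) (.ev (nat_lit 2925) (nat_lit 70368744177664) .dd))))))))
 (.br (nat_lit 11) (.ch (nat_lit 9) (.ev (nat_lit 1200) (nat_lit 68720596992) (.ev (nat_lit 1952) (nat_lit
 2147483648) (.ev (nat_lit 2208) (nat_lit 8589934592) (.ev (nat_lit 3248) (nat_lit 70368744177664) (.fin
 (nat_lit 576461302042935864))))))) (.br (nat_lit 12) (.ch (nat_lit 11) (.ev (nat_lit 1200) (nat_lit
 10738532356) (.ev (nat_lit 2016) (nat_lit 67108864) (.ev (nat_lit 2532) (nat_lit 4096) (.ev (nat_lit 2596)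
 (nat_lit 68719476736) (.ev (nat_lit 2948) (nat_lit 70368744177664) (.ev (nat_lit 2957) (nat_lit 2048)
 .dd))))))) (.ch (nat_lit 12) (.ev (nat_lit 1200) (nat_lit 70448202123264) (.ev (nat_lit 2432) (nat_lit 4096)
 (.ev (nat_lit 2532) (nat_lit 67108864) (.fin (nat_lit 576463501074580014))))))))))))))))) (.br (nat_lit 15)
 (.ch (nat_lit 12) (.ev (nat_lit 52) (nat_lit 68956454922) (.ev (nat_lit 116) (nat_lit 65536) (.ev (nat_lit
 148) (nat_lit 2048) (.ev (nat_lit 276) (nat_lit 70368744177664) (.ev (nat_lit 372) (nat_lit 4096) (.ev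
 (nat_lit 468) (nat_lit 512) (.ev (nat_lit 724) (nat_lit 524288) (.ev (nat_lit 868) (nat_lit 16384) (.ev
 (nat_lit 1028) (nat_lit 274877906944) (.nd (nat_lit 1184) (.br (nat_lit 5) (.br (nat_lit 1) (.ch (nat_lit 0)
 (.ev (nat_lit 1200) (nat_lit 35184372088832) (.ev (nat_lit 1232) (nat_lit 1048576) (.ev (nat_lit 1252)
 (nat_lit 2147483648) (.nd (nat_lit 1792) (.br (nat_lit 4) (.ch (nat_lit 2) (.ev (nat_lit 1808) (nat_lit
 8589934592) (.ev (nat_lit 2272) (nat_lit 262148) .dd))) (.br (nat_lit 8) (.ch (nat_lit 4) (.ev (nat_lit 1808)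
 (nat_lit 262144) (.ev (nat_lit 2532) (nat_lit 4) (.ev (nat_lit 2541) (nat_lit 8589934592) .dd)))) (.ch
 (nat_lit 8) (.ev (nat_lit 1808) (nat_lit 8589934596) (.ev (nat_lit 1821) (nat_lit 262144) .dd)))))))))) (.br
 (nat_lit 4) (.ch (nat_lit 1) (.ev (nat_lit 1200) (nat_lit 35186519834628) (.fin (nat_lit
 576464600612422201)))) (.ch (nat_lit 4) (.ev (nat_lit 1200) (nat_lit 35195109507076) (.nd (nat_lit 1792) (.br
 (nat_lit 7) (.br (nat_lit 4) (.ch (nat_lit 1) (.ev (nat_lit 1808) (nat_lit 1048576) (.ev (nat_lit 1821)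
 (nat_lit 262144) .dd))) (.br (nat_lit 6) (.ch (nat_lit 4) (.ev (nat_lit 1808) (nat_lit 1310720) .dd)) (.ch
 (nat_lit 6) (.ev (nat_lit 1808) (nat_lit 1310720) .dd)))) (.br (nat_lit 9) (.ch (nat_lit 7) (.ev (nat_lit
 1808) (nat_lit 1310720) .dd)) (.br (nat_lit 12) (.ch (nat_lit 9) (.ev (nat_lit 1808) (nat_lit 262144) (.ev
 (nat_lit 1821) (nat_lit 1048576) .dd))) (.ch (nat_lit 12) (.ev (nat_lit 1808) (nat_lit 1310720) .dd))))))))))
 (.br (nat_lit 8) (.br (nat_lit 6) (.ch (nat_lit 5) (.ev (nat_lit 1200) (nat_lit 2148532228) (.nd (nat_lit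
 1792) (.br (nat_lit 4) (.br (nat_lit 1) (.ch (nat_lit 0) (.ev (nat_lit 2176) (nat_lit 8589934592) (.ev
 (nat_lit 2432) (nat_lit 35184372350976) .dd))) (.br (nat_lit 3) (.ch (nat_lit 1) (.ev (nat_lit 1808) (nat_lit
 35184372350976) (.ev (nat_lit 1821) (nat_lit 8589934592) .dd))) (.ch (nat_lit 3) (.ev (nat_lit 1808) (nat_lit
 35184372088832) (.ev (nat_lit 2532) (nat_lit 262144) (.ev (nat_lit 2541) (nat_lit 8589934592) .dd)))))) (.br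
 (nat_lit 10) (.br (nat_lit 8) (.ch (nat_lit 4) (.ev (nat_lit 1808) (nat_lit 8589934592) (.ev (nat_lit 1824)
 (nat_lit 35184372088832) (.ev (nat_lit 1837) (nat_lit 262144) .dd)))) (.ch (nat_lit 8) (.ev (nat_lit 1808)
 (nat_lit 35184372088832) (.ev (nat_lit 1840) (nat_lit 8590196736) .dd)))) (.br (nat_lit 12) (.ch (nat_lit 10)
 (.ev (nat_lit 1808) (nat_lit 35192962023424) (.ev (nat_lit 1821) (nat_lit 262144) .dd))) (.ch (nat_lit 12)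
 (.ev (nat_lit 1808) (nat_lit 35184372350976) (.ev (nat_lit 1821) (nat_lit 8589934592) .dd))))))))) (.ch
 (nat_lit 6) (.ev (nat_lit 1200) (nat_lit 35192963072004) (.ev (nat_lit 1300) (nat_lit 262144) (.ev (nat_lit
 1309) (nat_lit 2147483648) .dd))))) (.br (nat_lit 9) (.ch (nat_lit 8) (.ev (nat_lit 1200) (nat_lit 1310724)
 (.ev (nat_lit 1252) (nat_lit 8589934592) (.nd (nat_lit 1792) (.br (nat_lit 9) (.br (nat_lit 5) (.ch (nat_lit
 2) (.ev (nat_lit 1808) (nat_lit 2147483648) (.ev (nat_lit 1821) (nat_lit 35184372088832) .dd))) (.br (nat_lit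
 8) (.ch (nat_lit 5) (.ev (nat_lit 2544) (nat_lit 35186519572480) .dd)) (.ch (nat_lit 8) (.ev (nat_lit 1808)
 (nat_lit 35186519572480) .dd)))) (.br (nat_lit 11) (.ch (nat_lit 9) (.ev (nat_lit 1808) (nat_lit
 35186519572480) .dd)) (.br (nat_lit 12) (.ch (nat_lit 11) (.ev (nat_lit 1808) (nat_lit 35186519572480) .dd))
 (.ch (nat_lit 12) (.ev (nat_lit 1808) (nat_lit 35186519572480) .dd))))))))) (.ch (nat_lit 9) (.ev (nat_lit
 1200) (nat_lit 35186520621060) (.nd (nat_lit 1792) (.br (nat_lit 9) (.br (nat_lit 3) (.ch (nat_lit 1) (.ev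
 (nat_lit 1808) (nat_lit 262144) (.ev (nat_lit 1821) (nat_lit 8589934592) .dd))) (.br (nat_lit 8) (.ch (nat_lit
 3) (.ev (nat_lit 1840) (nat_lit 262144) (.ev (nat_lit 1853) (nat_lit 8589934592) .dd))) (.ch (nat_lit 8) (.ev
 (nat_lit 2900) (nat_lit 262144) (.ev (nat_lit 2909) (nat_lit 8589934592) .dd))))) (.br (nat_lit 11) (.br
 (nat_lit 10) (.ch (nat_lit 9) (.ev (nat_lit 1808) (nat_lit 8589934592) (.ev (nat_lit 1821) (nat_lit 262144)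
 .dd))) (.ch (nat_lit 10) (.ev (nat_lit 1808) (nat_lit 8589934592) (.ev (nat_lit 1821) (nat_lit 262144) .dd))))
 (.br (nat_lit 12) (.ch (nat_lit 11) (.ev (nat_lit 1808) (nat_lit 262144) (.ev (nat_lit 1821) (nat_lit
 8589934592) .dd))) (.ch (nat_lit 12) (.ev (nat_lit 2164) (nat_lit 8589934592) (.ev (nat_lit 2173) (nat_lit
 262144) .dd))))))))))))))))))))))) (.ch (nat_lit 15) (.ev (nat_lit 52) (nat_lit 105563854754308) (.ev (nat_lit
 340) (nat_lit 65536) (.ev (nat_lit 660) (nat_lit 524288) (.ev (nat_lit 756) (nat_lit 274877906944) (.ev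
 (nat_lit 868) (nat_lit 134217730) (.nd (nat_lit 1184) (.br (nat_lit 6) (.br (nat_lit 1) (.ch (nat_lit 0) (.ev
 (nat_lit 1200) (nat_lit 68820140040) (.ev (nat_lit 1398) (nat_lit 262144) (.ev (nat_lit 1888) (nat_lit
 2097152) (.ev (nat_lit 1901) (nat_lit 2048) .dd))))) (.br (nat_lit 5) (.ch (nat_lit 1) (.ev (nat_lit 1200)
 (nat_lit 68788946952) (.ev (nat_lit 1213) (nat_lit 33554432) .dd))) (.ch (nat_lit 5) (.ev (nat_lit 1200)
 (nat_lit 100927488) (.nd (nat_lit 1792) (.br (nat_lit 5) (.br (nat_lit 3) (.ch (nat_lit 1) (.ev (nat_lit 1808)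
 (nat_lit 68719476736) (.ev (nat_lit 1988) (nat_lit 2097152) (.ev (nat_lit 1997) (nat_lit 8) .dd)))) (.ch
 (nat_lit 3) (.ev (nat_lit 1808) (nat_lit 68721573888) (.ev (nat_lit 1821) (nat_lit 8) .dd)))) (.br (nat_lit
 12) (.ch (nat_lit 5) (.ev (nat_lit 1808) (nat_lit 68721573896) .dd)) (.ch (nat_lit 12) (.ev (nat_lit 2244)
 (nat_lit 2097152) (.ev (nat_lit 2544) (nat_lit 68719476736) (.ev (nat_lit 2557) (nat_lit 8) .dd)))))))))))
 (.br (nat_lit 11) (.ch (nat_lit 6) (.ev (nat_lit 1200) (nat_lit 68788684808) (.nd (nat_lit 1792) (.br (nat_lit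
 8) (.br (nat_lit 3) (.ch (nat_lit 1) (.ev (nat_lit 2164) (nat_lit 262144) (.ev (nat_lit 2173) (nat_lit
 33554432) .dd))) (.br (nat_lit 5) (.ch (nat_lit 3) (.ev (nat_lit 1808) (nat_lit 33816576) .dd)) (.ch (nat_lit
 5) (.ev (nat_lit 1808) (nat_lit 33816576) .dd)))) (.br (nat_lit 10) (.ch (nat_lit 8) (.ev (nat_lit 1808)
 (nat_lit 33554432) (.ev (nat_lit 1821) (nat_lit 262144) .dd))) (.br (nat_lit 12) (.ch (nat_lit 10) (.ev
 (nat_lit 1808) (nat_lit 33554432) (.ev (nat_lit 1821) (nat_lit 262144) .dd))) (.ch (nat_lit 12) (.ev (nat_lit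
 1808) (nat_lit 33554432) (.ev (nat_lit 1821) (nat_lit 262144) .dd))))))))) (.br (nat_lit 12) (.ch (nat_lit 11)
 (.ev (nat_lit 1200) (nat_lit 68755392512) (.ev (nat_lit 2448) (nat_lit 8) (.ev (nat_lit 2461) (nat_lit
 67108864) .dd)))) (.ch (nat_lit 12) (.ev (nat_lit 1200) (nat_lit 2361352) (.ev (nat_lit 2000) (nat_lit
 33554432) (.ev (nat_lit 2596) (nat_lit 67108864) (.ev (nat_lit 2605) (nat_lit 68719476736)
 .dd)))))))))))))))))) (.br (nat_lit 22) (.br (nat_lit 18) (.br (nat_lit 17) (.ch (nat_lit 16) (.ev (nat_lit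
 52) (nat_lit 2184189960) (.ev (nat_lit 244) (nat_lit 68719476736) (.ev (nat_lit 500) (nat_lit 65536) (.ev
 (nat_lit 660) (nat_lit 35184372088832) (.ev (nat_lit 788) (nat_lit 16384) (.nd (nat_lit 1184) (.br (nat_lit 5)
 (.br (nat_lit 1) (.ch (nat_lit 0) (.ev (nat_lit 1200) (nat_lit 70643823673346) (.ev (nat_lit 1252) (nat_lit
 524288) (.nd (nat_lit 1792) (.br (nat_lit 4) (.br (nat_lit 2) (.ch (nat_lit 1) (.ev (nat_lit 1808) (nat_lit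
 8589934596) (.ev (nat_lit 1821) (nat_lit 512) .dd))) (.ch (nat_lit 2) (.ev (nat_lit 1808) (nat_lit 8589934592)
 (.ev (nat_lit 2480) (nat_lit 4) (.ev (nat_lit 2493) (nat_lit 512) .dd))))) (.br (nat_lit 5) (.ch (nat_lit 4)
 (.ev (nat_lit 1808) (nat_lit 512) (.fin (nat_lit 576466799657697839)))) (.br (nat_lit 9) (.ch (nat_lit 5) (.ev
 (nat_lit 1808) (nat_lit 516) (.ev (nat_lit 1821) (nat_lit 8589934592) .dd))) (.ch (nat_lit 9) (.ev (nat_lit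
 1808) (nat_lit 512) (.ev (nat_lit 2192) (nat_lit 8589934596) .dd)))))))))) (.br (nat_lit 4) (.ch (nat_lit 1)
 (.ev (nat_lit 1200) (nat_lit 8657305600) (.ev (nat_lit 1558) (nat_lit 4) (.ev (nat_lit 2128) (nat_lit 2) (.ev
 (nat_lit 2420) (nat_lit 70368744177664) (.ev (nat_lit 2532) (nat_lit 512) (.ev (nat_lit 2740) (nat_lit
 134217728) (.nd (nat_lit 3392) (.br (nat_lit 7) (.ch (nat_lit 6) (.ev (nat_lit 3408) (nat_lit 274877906944)
 (.ev (nat_lit 3421) (nat_lit 524288) .dd))) (.br (nat_lit 10) (.ch (nat_lit 7) (.ev (nat_lit 3408) (nat_lit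
 274877906944) (.ev (nat_lit 3421) (nat_lit 524288) .dd))) (.ch (nat_lit 10) (.fin (nat_lit
 576447008412746258))))))))))))) (.ch (nat_lit 4) (.ev (nat_lit 1200) (nat_lit 8791523844) (.ev (nat_lit 1252)
 (nat_lit 70368744177664) (.nd (nat_lit 1792) (.br (nat_lit 6) (.br (nat_lit 3) (.ch (nat_lit 1) (.ev (nat_lit
 1808) (nat_lit 274877906946) (.ev (nat_lit 1821) (nat_lit 524288) .dd))) (.br (nat_lit 4) (.ch (nat_lit 3)
 (.ev (nat_lit 1808) (nat_lit 274878431234) .dd)) (.ch (nat_lit 4) (.ev (nat_lit 1808) (nat_lit 2) (.ev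
 (nat_lit 2244) (nat_lit 274877906944) (.ev (nat_lit 2253) (nat_lit 524288) .dd)))))) (.br (nat_lit 9) (.br
 (nat_lit 7) (.ch (nat_lit 6) (.ev (nat_lit 2208) (nat_lit 524288) (.ev (nat_lit 2244) (nat_lit 274877906944)
 (.ev (nat_lit 2253) (nat_lit 2) .dd)))) (.ch (nat_lit 7) (.ev (nat_lit 1808) (nat_lit 274878431234) .dd)))
 (.br (nat_lit 12) (.ch (nat_lit 9) (.ev (nat_lit 1808) (nat_lit 274878431232) (.ev (nat_lit 1821) (nat_lit 2)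
 .dd))) (.ch (nat_lit 12) (.ev (nat_lit 1808) (nat_lit 274878431234) .dd))))))))))) (.br (nat_lit 6) (.ch
 (nat_lit 5) (.ev (nat_lit 1200) (nat_lit 70377334637062) (.nd (nat_lit 1792) (.br (nat_lit 1) (.ch (nat_lit 0)
 (.ev (nat_lit 1808) (nat_lit 274945015808) (.ev (nat_lit 2560) (nat_lit 262144) (.ev (nat_lit 2573) (nat_lit
 134217728) .dd)))) (.br (nat_lit 3) (.ch (nat_lit 1) (.ev (nat_lit 1808) (nat_lit 262144) (.ev (nat_lit 1888)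
 (nat_lit 67108864) (.ev (nat_lit 2464) (nat_lit 274877906944) (.ev (nat_lit 2477) (nat_lit 134217728) .dd)))))
 (.ch (nat_lit 3) (.ev (nat_lit 1808) (nat_lit 201588736) (.ev (nat_lit 1821) (nat_lit 274877906944)
 .dd)))))))) (.br (nat_lit 8) (.ch (nat_lit 6) (.ev (nat_lit 1200) (nat_lit 70643756302342) (.ev (nat_lit 1252)
 (nat_lit 262144) (.nd (nat_lit 1792) (.br (nat_lit 5) (.br (nat_lit 1) (.ch (nat_lit 0) (.ev (nat_lit 1808)
 (nat_lit 67109376) (.ev (nat_lit 1876) (nat_lit 8589934592) (.ev (nat_lit 1885) (nat_lit 524288) .dd)))) (.br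
 (nat_lit 3) (.ch (nat_lit 1) (.ev (nat_lit 1808) (nat_lit 8590459392) (.ev (nat_lit 1821) (nat_lit 67108864)
 .dd))) (.ch (nat_lit 3) (.ev (nat_lit 1808) (nat_lit 67633152) (.ev (nat_lit 2384) (nat_lit 8589934592) (.ev
 (nat_lit 2397) (nat_lit 512) .dd)))))) (.br (nat_lit 8) (.ch (nat_lit 5) (.ev (nat_lit 1808) (nat_lit
 8657567744) (.ev (nat_lit 1821) (nat_lit 512) .dd))) (.br (nat_lit 10) (.ch (nat_lit 8) (.ev (nat_lit 1808)
 (nat_lit 8589934592) (.ev (nat_lit 2900) (nat_lit 524288) (.fin (nat_lit 576482192753377841))))) (.ch (nat_lit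
 10) (.ev (nat_lit 1808) (nat_lit 8657043968) (.ev (nat_lit 1821) (nat_lit 524288) .dd)))))))))) (.ch (nat_lit
 8) (.ev (nat_lit 1200) (nat_lit 70643622871552) (.ev (nat_lit 1574) (nat_lit 4) (.ev (nat_lit 2848) (nat_lit
 8657043456) (.nd (nat_lit 3472) (.br (nat_lit 12) (.ch (nat_lit 9) (.fin (nat_lit 576420620123193906))) (.ch
 (nat_lit 12) (.ev (nat_lit 3488) (nat_lit 2) (.ev (nat_lit 3501) (nat_lit 134217728) .dd)))))))))))))))))))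
 (.ch (nat_lit 17) (.ev (nat_lit 52) (nat_lit 35192963666434) (.ev (nat_lit 148) (nat_lit 70368744177664) (.ev
 (nat_lit 372) (nat_lit 2147483648) (.ev (nat_lit 596) (nat_lit 67108864) (.ev (nat_lit 724) (nat_lit 16384)
 (.ev (nat_lit 964) (nat_lit 134217728) (.nd (nat_lit 1184) (.br (nat_lit 9) (.br (nat_lit 5) (.ch (nat_lit 1)
 (.ev (nat_lit 1200) (nat_lit 2361352) (.ev (nat_lit 2688) (nat_lit 4) (.ev (nat_lit 2864) (nat_lit
 68719476736) (.fin (nat_lit 576466799625191986)))))) (.br (nat_lit 6) (.ch (nat_lit 5) (.ev (nat_lit 1200)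
 (nat_lit 33556484) (.ev (nat_lit 1590) (nat_lit 274877906944) (.ev (nat_lit 2164) (nat_lit 2097152) (.ev
 (nat_lit 2352) (nat_lit 262144) (.ev (nat_lit 2512) (nat_lit 68719476736) (.ev (nat_lit 2525) (nat_lit 8)
 .dd))))))) (.ch (nat_lit 6) (.ev (nat_lit 1200) (nat_lit 343630940172) (.nd (nat_lit 1792) (.br (nat_lit 10)
 (.ch (nat_lit 7) (.ev (nat_lit 1808) (nat_lit 262144) (.ev (nat_lit 1821) (nat_lit 2097152) .dd))) (.br
 (nat_lit 12) (.ch (nat_lit 10) (.ev (nat_lit 1808) (nat_lit 2097152) (.ev (nat_lit 1821) (nat_lit 262144)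
 .dd))) (.ch (nat_lit 12) (.ev (nat_lit 1808) (nat_lit 2359296) .dd))))))))) (.br (nat_lit 11) (.ch (nat_lit 9)
 (.ev (nat_lit 1200) (nat_lit 343633299456) (.ev (nat_lit 2544) (nat_lit 4) (.ev (nat_lit 2557) (nat_lit 8)
 .dd)))) (.br (nat_lit 12) (.ch (nat_lit 11) (.ev (nat_lit 1200) (nat_lit 343597645828) (.ev (nat_lit 2164)
 (nat_lit 2048) (.ev (nat_lit 2660) (nat_lit 33554432) (.ev (nat_lit 2836) (nat_lit 2097152) (.ev (nat_lit
 2845) (nat_lit 8) .dd)))))) (.ch (nat_lit 12) (.ev (nat_lit 1200) (nat_lit 274880268300) (.nd (nat_lit 3392)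
 (.br (nat_lit 7) (.ch (nat_lit 5) (.fin (nat_lit 576475595715068447))) (.ch (nat_lit 7) (.ev (nat_lit 3408)
 (nat_lit 68753031168) .dd)))))))))))))))))) (.br (nat_lit 21) (.ch (nat_lit 18) (.ev (nat_lit 52) (nat_lit
 35536559479302) (.ev (nat_lit 404) (nat_lit 262144) (.ev (nat_lit 436) (nat_lit 2147483648) (.ev (nat_lit 996)
 (nat_lit 1048576) (.nd (nat_lit 1184) (.br (nat_lit 9) (.br (nat_lit 1) (.ch (nat_lit 0) (.ev (nat_lit 1200)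
 (nat_lit 70368979075080) (.nd (nat_lit 1792) (.br (nat_lit 5) (.ch (nat_lit 4) (.ev (nat_lit 1808) (nat_lit
 524288) (.ev (nat_lit 1821) (nat_lit 2097152) .dd))) (.br (nat_lit 9) (.ch (nat_lit 5) (.ev (nat_lit 2432)
 (nat_lit 2097152) (.ev (nat_lit 2445) (nat_lit 524288) .dd))) (.ch (nat_lit 9) (.ev (nat_lit 1808) (nat_lit
 2097152) (.ev (nat_lit 1821) (nat_lit 524288) .dd)))))))) (.br (nat_lit 5) (.ch (nat_lit 1) (.ev (nat_lit
 1200) (nat_lit 70368813383688) (.ev (nat_lit 1252) (nat_lit 524288) (.ev (nat_lit 2420) (nat_lit 16384) (.ev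
 (nat_lit 2960) (nat_lit 134217728) (.ev (nat_lit 2973) (nat_lit 33554432) .dd)))))) (.ch (nat_lit 5) (.ev
 (nat_lit 1200) (nat_lit 70368981696512) (.ev (nat_lit 1213) (nat_lit 8) .dd))))) (.br (nat_lit 11) (.ch
 (nat_lit 9) (.ev (nat_lit 1200) (nat_lit 70368780353536) (.nd (nat_lit 1792) (.br (nat_lit 9) (.br (nat_lit 3)
 (.ch (nat_lit 1) (.ev (nat_lit 1808) (nat_lit 134217736) (.fin (nat_lit 576451406470791746)))) (.br (nat_lit
 4) (.ch (nat_lit 3) (.ev (nat_lit 1808) (nat_lit 134234120) (.ev (nat_lit 1821) (nat_lit 67108864) .dd))) (.ch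
 (nat_lit 4) (.ev (nat_lit 1808) (nat_lit 201342976) (.ev (nat_lit 1821) (nat_lit 8) .dd))))) (.br (nat_lit 10)
 (.ch (nat_lit 9) (.ev (nat_lit 1808) (nat_lit 201342976) (.ev (nat_lit 1821) (nat_lit 8) .dd))) (.br (nat_lit
 11) (.ch (nat_lit 10) (.ev (nat_lit 1808) (nat_lit 201326600) (.ev (nat_lit 1821) (nat_lit 16384) .dd))) (.ch
 (nat_lit 11) (.ev (nat_lit 1808) (nat_lit 16384) (.ev (nat_lit 1876) (nat_lit 67108864) (.ev (nat_lit 3126)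
 (nat_lit 134217736) .dd)))))))))) (.br (nat_lit 12) (.ch (nat_lit 11) (.ev (nat_lit 1200) (nat_lit 170409992)
 (.ev (nat_lit 2752) (nat_lit 67108864) (.ev (nat_lit 2765) (nat_lit 70368744177664) .dd)))) (.ch (nat_lit 12)
 (.ev (nat_lit 1200) (nat_lit 36192264) (.ev (nat_lit 1252) (nat_lit 70368744177664) (.ev (nat_lit 2532)
 (nat_lit 67108864) (.ev (nat_lit 2541) (nat_lit 134217728) .dd)))))))))))))) (.ch (nat_lit 21) (.ev (nat_lit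
 52) (nat_lit 70712411818504) (.ev (nat_lit 180) (nat_lit 8589934592) (.ev (nat_lit 900) (nat_lit 524288) (.ev
 (nat_lit 1092) (nat_lit 134217728) (.nd (nat_lit 1184) (.br (nat_lit 9) (.br (nat_lit 4) (.ch (nat_lit 1) (.ev
 (nat_lit 1200) (nat_lit 35186519916544) (.ev (nat_lit 2596) (nat_lit 2) (.ev (nat_lit 2740) (nat_lit 4096)
 (.ev (nat_lit 2948) (nat_lit 33554432) (.ev (nat_lit 2957) (nat_lit 4) .dd)))))) (.br (nat_lit 6) (.ch
 (nat_lit 4) (.ev (nat_lit 1200) (nat_lit 35184372158470) (.ev (nat_lit 1252) (nat_lit 16384) (.nd (nat_lit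
 1792) (.br (nat_lit 4) (.br (nat_lit 1) (.ch (nat_lit 0) (.ev (nat_lit 1808) (nat_lit 262144) (.ev (nat_lit
 2208) (nat_lit 2147483648) (.ev (nat_lit 2221) (nat_lit 33554432) .dd)))) (.br (nat_lit 3) (.ch (nat_lit 1)
 (.ev (nat_lit 1808) (nat_lit 2147483648) (.ev (nat_lit 3268) (nat_lit 33554432) (.ev (nat_lit 3277) (nat_lit
 262144) .dd)))) (.ch (nat_lit 3) (.ev (nat_lit 2096) (nat_lit 262144) (.ev (nat_lit 2768) (nat_lit 33554432)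
 (.ev (nat_lit 2781) (nat_lit 2147483648) .dd)))))) (.br (nat_lit 7) (.ch (nat_lit 4) (.ev (nat_lit 1808)
 (nat_lit 33554432) (.ev (nat_lit 2256) (nat_lit 2147483648) (.ev (nat_lit 2269) (nat_lit 262144) .dd)))) (.br
 (nat_lit 9) (.ch (nat_lit 7) (.ev (nat_lit 1808) (nat_lit 2181300224) .dd)) (.ch (nat_lit 9) (.ev (nat_lit
 1808) (nat_lit 2181300224) .dd))))))))) (.ch (nat_lit 6) (.ev (nat_lit 1200) (nat_lit 35184372092934) (.nd
 (nat_lit 1792) (.br (nat_lit 7) (.br (nat_lit 1) (.ch (nat_lit 0) (.ev (nat_lit 1808) (nat_lit 2181300224)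
 (.ev (nat_lit 2032) (nat_lit 65536) (.ev (nat_lit 2045) (nat_lit 16384) .dd)))) (.br (nat_lit 5) (.ch (nat_lit
 1) (.ev (nat_lit 1808) (nat_lit 2147565568) (.ev (nat_lit 3428) (nat_lit 33554432) (.ev (nat_lit 3437)
 (nat_lit 262144) .dd)))) (.ch (nat_lit 5) (.ev (nat_lit 1808) (nat_lit 2147565568) (.ev (nat_lit 2256)
 (nat_lit 33554432) (.ev (nat_lit 2269) (nat_lit 262144) .dd)))))) (.br (nat_lit 8) (.ch (nat_lit 7) (.ev
 (nat_lit 1808) (nat_lit 2147762176) (.ev (nat_lit 2532) (nat_lit 65536) (.ev (nat_lit 2541) (nat_lit 33554432)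
 .dd)))) (.br (nat_lit 12) (.ch (nat_lit 8) (.ev (nat_lit 1808) (nat_lit 33882112) (.ev (nat_lit 1888) (nat_lit
 16384) (.ev (nat_lit 1901) (nat_lit 2147483648) .dd)))) (.ch (nat_lit 12) (.ev (nat_lit 1808) (nat_lit
 2147500032) (.ev (nat_lit 2224) (nat_lit 262144) (.fin (nat_lit 576456904017396268))))))))))))) (.br (nat_lit
 11) (.ch (nat_lit 9) (.ev (nat_lit 1200) (nat_lit 33902596) (.ev (nat_lit 1606) (nat_lit 2147483648) (.ev
 (nat_lit 2448) (nat_lit 2) (.ev (nat_lit 2461) (nat_lit 35184372088832) .dd))))) (.br (nat_lit 12) (.ch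
 (nat_lit 11) (.ev (nat_lit 1200) (nat_lit 2181124102) (.ev (nat_lit 2464) (nat_lit 262144) (.ev (nat_lit 2477)
 (nat_lit 35184372088832) .dd)))) (.ch (nat_lit 12) (.ev (nat_lit 1200) (nat_lit 35186519916546) (.ev (nat_lit
 1252) (nat_lit 4) (.ev (nat_lit 1876) (nat_lit 33554432) (.ev (nat_lit 1885) (nat_lit 4096)
 .dd)))))))))))))))) (.br (nat_lit 26) (.br (nat_lit 24) (.ch (nat_lit 22) (.ev (nat_lit 52) (nat_lit
 70370926086658) (.ev (nat_lit 340) (nat_lit 8) (.ev (nat_lit 416) (nat_lit 35536763883524) .dd)))) (.ch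
 (nat_lit 24) (.ev (nat_lit 52) (nat_lit 79593996814) (.ev (nat_lit 512) (nat_lit 105828095973376) .dd)))) (.br
 (nat_lit 28) (.ch (nat_lit 26) (.ev (nat_lit 52) (nat_lit 79624753158) (.ev (nat_lit 116) (nat_lit 2048) (.ev
 (nat_lit 276) (nat_lit 1048576) (.ev (nat_lit 608) (nat_lit 105828064166408) .dd))))) (.br (nat_lit 29) (.ch
 (nat_lit 28) (.ev (nat_lit 52) (nat_lit 354504677378) (.ev (nat_lit 340) (nat_lit 4) (.ev (nat_lit 756)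
 (nat_lit 524288) (.ev (nat_lit 900) (nat_lit 35184372088832) (.nd (nat_lit 1184) (.br (nat_lit 9) (.br
 (nat_lit 5) (.ch (nat_lit 4) (.ev (nat_lit 1200) (nat_lit 70368811303424) (.nd (nat_lit 1792) (.br (nat_lit 8)
 (.br (nat_lit 4) (.ch (nat_lit 1) (.ev (nat_lit 1808) (nat_lit 1114112) (.ev (nat_lit 2880) (nat_lit 8) (.ev
 (nat_lit 2893) (nat_lit 262144) .dd)))) (.br (nat_lit 6) (.ch (nat_lit 4) (.ev (nat_lit 1808) (nat_lit
 1376264) .dd)) (.ch (nat_lit 6) (.ev (nat_lit 1808) (nat_lit 1310720) (.ev (nat_lit 1888) (nat_lit 8) (.ev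
 (nat_lit 1901) (nat_lit 65536) .dd)))))) (.br (nat_lit 9) (.ch (nat_lit 8) (.ev (nat_lit 1808) (nat_lit 65536)
 (.ev (nat_lit 2672) (nat_lit 1310728) .dd))) (.br (nat_lit 12) (.ch (nat_lit 9) (.ev (nat_lit 1808) (nat_lit
 262152) (.ev (nat_lit 2420) (nat_lit 65536) (.ev (nat_lit 2429) (nat_lit 1048576) .dd)))) (.ch (nat_lit 12)
 (.ev (nat_lit 1808) (nat_lit 1114120) (.ev (nat_lit 1821) (nat_lit 262144) .dd))))))))) (.br (nat_lit 6) (.ch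
 (nat_lit 5) (.ev (nat_lit 1200) (nat_lit 70368812662784) (.nd (nat_lit 1792) (.br (nat_lit 8) (.br (nat_lit 5)
 (.ch (nat_lit 1) (.ev (nat_lit 1808) (nat_lit 16392) (.ev (nat_lit 1821) (nat_lit 512) .dd))) (.br (nat_lit 6)
 (.ch (nat_lit 5) (.ev (nat_lit 1808) (nat_lit 16896) (.ev (nat_lit 1821) (nat_lit 8) .dd))) (.ch (nat_lit 6)
 (.ev (nat_lit 1808) (nat_lit 16904) .dd)))) (.br (nat_lit 10) (.ch (nat_lit 8) (.ev (nat_lit 1808) (nat_lit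
 16904) .dd)) (.br (nat_lit 12) (.ch (nat_lit 10) (.ev (nat_lit 1808) (nat_lit 16392) (.ev (nat_lit 1821)
 (nat_lit 512) .dd))) (.ch (nat_lit 12) (.ev (nat_lit 1808) (nat_lit 520) (.ev (nat_lit 1821) (nat_lit 16384)
 .dd))))))))) (.ch (nat_lit 6) (.ev (nat_lit 1200) (nat_lit 1064968) (.nd (nat_lit 1792) (.br (nat_lit 5) (.br
 (nat_lit 3) (.ch (nat_lit 1) (.ev (nat_lit 1808) (nat_lit 67174912) (.ev (nat_lit 2496) (nat_lit
 70368744177664) (.ev (nat_lit 2509) (nat_lit 262144) .dd)))) (.br (nat_lit 4) (.ch (nat_lit 3) (.ev (nat_lit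
 1808) (nat_lit 70368744505344) (.ev (nat_lit 2256) (nat_lit 67109376) .dd))) (.ch (nat_lit 4) (.ev (nat_lit
 1808) (nat_lit 512) (.ev (nat_lit 2400) (nat_lit 262144) (.ev (nat_lit 2912) (nat_lit 67108864) (.ev (nat_lit
 3012) (nat_lit 70368744177664) (.ev (nat_lit 3021) (nat_lit 65536) .dd)))))))) (.br (nat_lit 8) (.ch (nat_lit
 5) (.ev (nat_lit 1808) (nat_lit 70368811287040) (.ev (nat_lit 2596) (nat_lit 262144) (.ev (nat_lit 2605)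
 (nat_lit 65536) .dd)))) (.br (nat_lit 10) (.ch (nat_lit 8) (.ev (nat_lit 1808) (nat_lit 327680) (.ev (nat_lit
 2544) (nat_lit 70368744177664) (.fin (nat_lit 576482192753377841))))) (.ch (nat_lit 10) (.ev (nat_lit 1808)
 (nat_lit 70368811548672) (.ev (nat_lit 1904) (nat_lit 65536) (.ev (nat_lit 1917) (nat_lit 512) .dd))))))))))))
 (.br (nat_lit 11) (.ch (nat_lit 9) (.ev (nat_lit 1200) (nat_lit 70368744243720) (.nd (nat_lit 1792) (.br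
 (nat_lit 2) (.ch (nat_lit 1) (.ev (nat_lit 1808) (nat_lit 1310720) (.fin (nat_lit 576451406470791746)))) (.br
 (nat_lit 4) (.ch (nat_lit 2) (.ev (nat_lit 1808) (nat_lit 16384) (.ev (nat_lit 1876) (nat_lit 68157440) (.ev
 (nat_lit 1885) (nat_lit 262144) .dd)))) (.ch (nat_lit 4) (.ev (nat_lit 1808) (nat_lit 68419584) (.ev (nat_lit
 1821) (nat_lit 16384) .dd)))))))) (.br (nat_lit 12) (.ch (nat_lit 11) (.ev (nat_lit 1200) (nat_lit 1392648)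
 (.ev (nat_lit 2080) (nat_lit 512) (.ev (nat_lit 2752) (nat_lit 67108864) (.ev (nat_lit 2765) (nat_lit
 70368744177664) .dd))))) (.ch (nat_lit 12) (.ev (nat_lit 1200) (nat_lit 68436488) (.ev (nat_lit 3204) (nat_lit
 65536) (.ev (nat_lit 3213) (nat_lit 70368744177664) .dd))))))))))))) (.ch (nat_lit 29) (.ev (nat_lit 52)
 (nat_lit 35468074878984) (.ev (nat_lit 212) (nat_lit 262144) (.ev (nat_lit 352) (nat_lit 70439614829062)
 .dd))))))))) (.br (nat_lit 42) (.br (nat_lit 38) (.br (nat_lit 36) (.br (nat_lit 33) (.ch (nat_lit 31) (.ev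
 (nat_lit 52) (nat_lit 70723079307274) (.ev (nat_lit 244) (nat_lit 4096) (.ev (nat_lit 340) (nat_lit 3145728)
 (.ev (nat_lit 372) (nat_lit 512) (.nd (nat_lit 1184) (.br (nat_lit 9) (.br (nat_lit 6) (.ch (nat_lit 5) (.ev
 (nat_lit 1200) (nat_lit 33554436) (.nd (nat_lit 1792) (.br (nat_lit 3) (.br (nat_lit 1) (.ch (nat_lit 0) (.ev
 (nat_lit 1808) (nat_lit 35184439740416) (.ev (nat_lit 1821) (nat_lit 134217728) .dd))) (.ch (nat_lit 1) (.ev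
 (nat_lit 1808) (nat_lit 134758400) (.ev (nat_lit 2244) (nat_lit 35184372088832) (.ev (nat_lit 3104) (nat_lit
 67110912) .dd))))) (.br (nat_lit 4) (.ch (nat_lit 3) (.ev (nat_lit 1808) (nat_lit 35184506830848) (.ev
 (nat_lit 1904) (nat_lit 67127296) .dd))) (.br (nat_lit 5) (.ch (nat_lit 4) (.ev (nat_lit 1808) (nat_lit
 67110912) (.ev (nat_lit 2016) (nat_lit 540672) (.ev (nat_lit 2192) (nat_lit 35184506306560) .dd)))) (.ch
 (nat_lit 5) (.ev (nat_lit 1808) (nat_lit 35184573415424) (.ev (nat_lit 1968) (nat_lit 2048) (.ev (nat_lit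
 2420) (nat_lit 524288) (.ev (nat_lit 2429) (nat_lit 16384) .dd))))))))))) (.br (nat_lit 8) (.ch (nat_lit 6)
 (.ev (nat_lit 1200) (nat_lit 235423748) (.ev (nat_lit 1213) (nat_lit 35184372088832) .dd))) (.ch (nat_lit 8)
 (.ev (nat_lit 1200) (nat_lit 35184406169600) (.nd (nat_lit 1792) (.br (nat_lit 8) (.br (nat_lit 2) (.ch
 (nat_lit 1) (.ev (nat_lit 1808) (nat_lit 134234116) (.ev (nat_lit 1821) (nat_lit 67108864) .dd))) (.ch
 (nat_lit 2) (.ev (nat_lit 1808) (nat_lit 134217728) (.ev (nat_lit 1888) (nat_lit 4) (.ev (nat_lit 1940)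
 (nat_lit 67108864) (.ev (nat_lit 1949) (nat_lit 16384) .dd)))))) (.br (nat_lit 11) (.ch (nat_lit 8) (.ev
 (nat_lit 1808) (nat_lit 201342980) .dd)) (.br (nat_lit 12) (.ch (nat_lit 11) (.ev (nat_lit 1808) (nat_lit
 67125248) (.ev (nat_lit 2420) (nat_lit 4) (.ev (nat_lit 2429) (nat_lit 134217728) .dd)))) (.ch (nat_lit 12)
 (.ev (nat_lit 1808) (nat_lit 67125252) (.ev (nat_lit 1821) (nat_lit 134217728) .dd))))))))))) (.br (nat_lit
 11) (.ch (nat_lit 9) (.ev (nat_lit 1200) (nat_lit 101206020) (.ev (nat_lit 1252) (nat_lit 134217728) (.ev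
 (nat_lit 1261) (nat_lit 35184372088832) .dd)))) (.br (nat_lit 12) (.ch (nat_lit 11) (.ev (nat_lit 1200)
 (nat_lit 35184506847236) (.ev (nat_lit 1888) (nat_lit 67108864) (.ev (nat_lit 2320) (nat_lit 33556480) .dd))))
 (.ch (nat_lit 12) (.ev (nat_lit 1200) (nat_lit 35184573958144) (.ev (nat_lit 1840) (nat_lit 4) (.ev (nat_lit
 1853) (nat_lit 33554432) .dd))))))))))))) (.ch (nat_lit 33) (.ev (nat_lit 52) (nat_lit 35536764157956) (.ev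
 (nat_lit 404) (nat_lit 33554432) (.ev (nat_lit 500) (nat_lit 2048) (.ev (nat_lit 672) (nat_lit 70370892255754)
 .dd)))))) (.br (nat_lit 37) (.ch (nat_lit 36) (.ev (nat_lit 52) (nat_lit 70437532682752) (.ev (nat_lit 276)
 (nat_lit 33554432) (.ev (nat_lit 724) (nat_lit 134217728) (.ev (nat_lit 900) (nat_lit 2) (.nd (nat_lit 1184)
 (.br (nat_lit 5) (.br (nat_lit 1) (.ch (nat_lit 0) (.ev (nat_lit 1200) (nat_lit 35461397483532) (.nd (nat_lit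
 1792) (.br (nat_lit 9) (.ch (nat_lit 5) (.fin (nat_lit 576451406470791733))) (.br (nat_lit 11) (.ch (nat_lit
 9) (.ev (nat_lit 1808) (nat_lit 8592031744) .dd)) (.ch (nat_lit 11) (.ev (nat_lit 1808) (nat_lit 2097152) (.ev
 (nat_lit 1821) (nat_lit 8589934592) .dd)))))))) (.br (nat_lit 4) (.ch (nat_lit 1) (.ev (nat_lit 1200) (nat_lit
 35461399576584) (.ev (nat_lit 2048) (nat_lit 8589934592) (.ev (nat_lit 2784) (nat_lit 4) (.ev (nat_lit 2797)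
 (nat_lit 4096) .dd))))) (.ch (nat_lit 4) (.ev (nat_lit 1200) (nat_lit 35192964124684) (.nd (nat_lit 1792) (.br
 (nat_lit 7) (.br (nat_lit 6) (.ch (nat_lit 4) (.ev (nat_lit 1940) (nat_lit 2147483648) (.ev (nat_lit 1949)
 (nat_lit 274877906944) .dd))) (.ch (nat_lit 6) (.ev (nat_lit 1808) (nat_lit 277025390592) .dd))) (.br (nat_lit
 8) (.ch (nat_lit 7) (.ev (nat_lit 1808) (nat_lit 274877906944) (.ev (nat_lit 1821) (nat_lit 2147483648) .dd)))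
 (.br (nat_lit 9) (.ch (nat_lit 8) (.ev (nat_lit 1808) (nat_lit 277025390592) .dd)) (.ch (nat_lit 9) (.ev
 (nat_lit 1808) (nat_lit 274877906944) (.ev (nat_lit 1821) (nat_lit 2147483648) .dd))))))))))) (.br (nat_lit 9)
 (.br (nat_lit 6) (.ch (nat_lit 5) (.ev (nat_lit 1200) (nat_lit 35186521669636) (.nd (nat_lit 1792) (.br
 (nat_lit 5) (.br (nat_lit 3) (.ch (nat_lit 0) (.ev (nat_lit 1808) (nat_lit 274877911048) (.ev (nat_lit 1821)
 (nat_lit 8589934592) .dd))) (.br (nat_lit 4) (.ch (nat_lit 3) (.ev (nat_lit 1808) (nat_lit 8) (.ev (nat_lit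
 2532) (nat_lit 4096) (.ev (nat_lit 2848) (nat_lit 274877906944) (.ev (nat_lit 2861) (nat_lit 8589934592)
 .dd))))) (.ch (nat_lit 4) (.ev (nat_lit 1808) (nat_lit 283467841536) (.ev (nat_lit 1824) (nat_lit 4104)
 .dd))))) (.br (nat_lit 10) (.br (nat_lit 8) (.ch (nat_lit 5) (.ev (nat_lit 1808) (nat_lit 283467845632) (.ev
 (nat_lit 1821) (nat_lit 8) .dd))) (.ch (nat_lit 8) (.ev (nat_lit 1808) (nat_lit 4104) (.ev (nat_lit 1824)
 (nat_lit 274877906944) (.ev (nat_lit 1837) (nat_lit 8589934592) .dd))))) (.br (nat_lit 12) (.ch (nat_lit 10)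
 (.ev (nat_lit 1808) (nat_lit 274877911048) (.ev (nat_lit 1821) (nat_lit 8589934592) .dd))) (.ch (nat_lit 12)
 (.ev (nat_lit 1808) (nat_lit 274877911040) (.ev (nat_lit 2064) (nat_lit 8589934592) (.ev (nat_lit 2077)
 (nat_lit 8) .dd)))))))))) (.ch (nat_lit 6) (.ev (nat_lit 1200) (nat_lit 35461397483532) (.ev (nat_lit 1232)
 (nat_lit 2097152) (.ev (nat_lit 1245) (nat_lit 8589934592) .dd))))) (.br (nat_lit 11) (.ch (nat_lit 9) (.ev
 (nat_lit 1200) (nat_lit 35459252097024) (.ev (nat_lit 2176) (nat_lit 8) (.ev (nat_lit 2596) (nat_lit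
 8589934592) (.ev (nat_lit 2672) (nat_lit 4) (.ev (nat_lit 2685) (nat_lit 2147483648) .dd)))))) (.ch (nat_lit
 11) (.ev (nat_lit 1200) (nat_lit 285615325196) (.ev (nat_lit 2544) (nat_lit 35184374185984) (.ev (nat_lit
 2557) (nat_lit 4096) .dd))))))))))))) (.ch (nat_lit 37) (.ev (nat_lit 52) (nat_lit 277193234948) (.ev (nat_lit
 244) (nat_lit 8589934592) (.ev (nat_lit 288) (nat_lit 105621906800650) .dd)))))) (.br (nat_lit 40) (.br
 (nat_lit 39) (.ch (nat_lit 38) (.ev (nat_lit 52) (nat_lit 35193200593412) (.ev (nat_lit 148) (nat_lit 65536)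
 (.ev (nat_lit 180) (nat_lit 68719476736) (.ev (nat_lit 468) (nat_lit 2147483648) (.ev (nat_lit 500) (nat_lit
 262144) (.ev (nat_lit 996) (nat_lit 70368744177664) (.ev (nat_lit 1060) (nat_lit 8) (.nd (nat_lit 1184) (.br
 (nat_lit 6) (.br (nat_lit 5) (.ch (nat_lit 0) (.ev (nat_lit 1200) (nat_lit 274877906946) (.ev (nat_lit 1213)
 (nat_lit 4096) .dd))) (.ch (nat_lit 5) (.ev (nat_lit 1200) (nat_lit 2) (.ev (nat_lit 1316) (nat_lit 4096) (.ev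
 (nat_lit 1325) (nat_lit 274877906944) .dd))))) (.br (nat_lit 9) (.ch (nat_lit 6) (.ev (nat_lit 1200) (nat_lit
 274877911042) .dd)) (.br (nat_lit 11) (.ch (nat_lit 9) (.ev (nat_lit 1200) (nat_lit 274877911040) (.ev
 (nat_lit 1213) (nat_lit 2) .dd))) (.ch (nat_lit 11) (.ev (nat_lit 1200) (nat_lit 2) (.ev (nat_lit 2596)
 (nat_lit 4096) (.ev (nat_lit 2605) (nat_lit 274877906944) .dd)))))))))))))))) (.ch (nat_lit 39) (.ev (nat_lit
 52) (nat_lit 274946867210) (.ev (nat_lit 692) (nat_lit 68719476736) (.ev (nat_lit 788) (nat_lit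
 35184372088832) (.ev (nat_lit 820) (nat_lit 134217728) (.nd (nat_lit 1184) (.br (nat_lit 6) (.br (nat_lit 4)
 (.ch (nat_lit 1) (.ev (nat_lit 1200) (nat_lit 2181038084) (.ev (nat_lit 1622) (nat_lit 4096) (.ev (nat_lit
 2464) (nat_lit 512) (.ev (nat_lit 2740) (nat_lit 70368744177664) (.ev (nat_lit 3268) (nat_lit 2048) (.ev
 (nat_lit 3316) (nat_lit 2097152) (.nd (nat_lit 3472) (.br (nat_lit 6) (.br (nat_lit 3) (.ch (nat_lit 1) (.ev
 (nat_lit 3488) (nat_lit 8590000128) .dd)) (.ch (nat_lit 3) (.ev (nat_lit 3488) (nat_lit 8590000128) .dd)))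
 (.br (nat_lit 8) (.ch (nat_lit 6) (.ev (nat_lit 3488) (nat_lit 8590000128) .dd)) (.ch (nat_lit 8) (.fin
 (nat_lit 576482192747086425))))))))))))) (.br (nat_lit 5) (.ch (nat_lit 4) (.ev (nat_lit 1200) (nat_lit
 8625592836) (.ev (nat_lit 1968) (nat_lit 2147483648) (.ev (nat_lit 2948) (nat_lit 65536) (.ev (nat_lit 2957)
 (nat_lit 70368744177664) .dd))))) (.ch (nat_lit 5) (.ev (nat_lit 1200) (nat_lit 70379515216388) (.ev (nat_lit
 1638) (nat_lit 2097152) (.ev (nat_lit 2176) (nat_lit 4096) (.ev (nat_lit 2189) (nat_lit 2048) .dd))))))) (.br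
 (nat_lit 8) (.ch (nat_lit 6) (.ev (nat_lit 1200) (nat_lit 70370891667460) (.nd (nat_lit 1792) (.br (nat_lit 5)
 (.br (nat_lit 3) (.ch (nat_lit 0) (.ev (nat_lit 1808) (nat_lit 33554432) (.ev (nat_lit 2208) (nat_lit 65536)
 (.ev (nat_lit 2660) (nat_lit 2097664) (.ev (nat_lit 2669) (nat_lit 8589934592) .dd))))) (.br (nat_lit 4) (.ch
 (nat_lit 3) (.ev (nat_lit 1808) (nat_lit 8625651712) (.ev (nat_lit 1821) (nat_lit 512) .dd))) (.ch (nat_lit 4)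
 (.ev (nat_lit 1808) (nat_lit 8625586688) (.ev (nat_lit 1821) (nat_lit 65536) .dd))))) (.br (nat_lit 8) (.br
 (nat_lit 7) (.ch (nat_lit 5) (.ev (nat_lit 1808) (nat_lit 8592097280) (.ev (nat_lit 2640) (nat_lit 33554944)
 .dd))) (.ch (nat_lit 7) (.ev (nat_lit 1808) (nat_lit 8625651712) (.ev (nat_lit 1821) (nat_lit 512) .dd))))
 (.br (nat_lit 12) (.ch (nat_lit 8) (.ev (nat_lit 1808) (nat_lit 8590000128) (.ev (nat_lit 1904) (nat_lit
 2097152) (.ev (nat_lit 1968) (nat_lit 33554944) .dd)))) (.ch (nat_lit 12) (.ev (nat_lit 1808) (nat_lit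
 2097664) (.ev (nat_lit 2624) (nat_lit 8589934592) (.fin (nat_lit 576456904017396268))))))))))) (.br (nat_lit
 12) (.ch (nat_lit 8) (.ev (nat_lit 1200) (nat_lit 70368779899396) (.nd (nat_lit 1792) (.br (nat_lit 8) (.ch
 (nat_lit 0) (.ev (nat_lit 1808) (nat_lit 8589934592) (.ev (nat_lit 2244) (nat_lit 2048) (.ev (nat_lit 2253)
 (nat_lit 2147483648) .dd)))) (.br (nat_lit 11) (.ch (nat_lit 8) (.ev (nat_lit 2244) (nat_lit 2048) (.ev
 (nat_lit 2420) (nat_lit 8589934592) (.ev (nat_lit 2429) (nat_lit 2147483648) .dd)))) (.ch (nat_lit 11) (.ev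
 (nat_lit 1808) (nat_lit 2147485696) (.ev (nat_lit 1821) (nat_lit 8589934592) .dd)))))))) (.ch (nat_lit 12)
 (.ev (nat_lit 1200) (nat_lit 10773072384) (.ev (nat_lit 2164) (nat_lit 70368744177664) (.ev (nat_lit 3300)
 (nat_lit 4096) (.nd (nat_lit 3520) (.br (nat_lit 5) (.ch (nat_lit 1) (.ev (nat_lit 3536) (nat_lit 65540) .dd))
 (.br (nat_lit 12) (.ch (nat_lit 5) (.ev (nat_lit 3536) (nat_lit 65540) .dd)) (.ch (nat_lit 12) (.fin (nat_lit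
 576463501074580014)))))))))))))))))))) (.br (nat_lit 41) (.ch (nat_lit 40) (.ev (nat_lit 52) (nat_lit
 35530118857224) (.ev (nat_lit 148) (nat_lit 33554436) (.ev (nat_lit 404) (nat_lit 2048) (.ev (nat_lit 596)
 (nat_lit 70368744177664) (.ev (nat_lit 996) (nat_lit 2097152) (.ev (nat_lit 1092) (nat_lit 16384) (.nd
 (nat_lit 1184) (.br (nat_lit 9) (.br (nat_lit 6) (.ch (nat_lit 5) (.ev (nat_lit 1200) (nat_lit 134221826) (.ev
 (nat_lit 2244) (nat_lit 8589934592) (.ev (nat_lit 2253) (nat_lit 67108864) .dd)))) (.br (nat_lit 8) (.ch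
 (nat_lit 6) (.ev (nat_lit 1200) (nat_lit 8791265282) .dd)) (.ch (nat_lit 8) (.ev (nat_lit 1200) (nat_lit
 201330690) (.ev (nat_lit 1213) (nat_lit 8589934592) .dd))))) (.br (nat_lit 11) (.ch (nat_lit 9) (.ev (nat_lit
 1200) (nat_lit 8589938688) (.ev (nat_lit 2244) (nat_lit 67108864) (.fin (nat_lit 576445908888535598))))) (.br
 (nat_lit 12) (.ch (nat_lit 11) (.ev (nat_lit 1200) (nat_lit 8791261186) (.ev (nat_lit 1213) (nat_lit 4096)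
 .dd))) (.ch (nat_lit 12) (.ev (nat_lit 1200) (nat_lit 8657043458) (.ev (nat_lit 1876) (nat_lit 134217728) (.ev
 (nat_lit 1885) (nat_lit 4096) .dd))))))))))))))) (.ch (nat_lit 41) (.ev (nat_lit 52) (nat_lit 68954947584)
 (.ev (nat_lit 180) (nat_lit 512) (.ev (nat_lit 340) (nat_lit 2048) (.ev (nat_lit 500) (nat_lit 70368744177664)
 (.ev (nat_lit 932) (nat_lit 274877906944) (.nd (nat_lit 1184) (.br (nat_lit 6) (.br (nat_lit 1) (.ch (nat_lit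
 0) (.ev (nat_lit 1200) (nat_lit 35192964120586) (.ev (nat_lit 1252) (nat_lit 1048576) (.nd (nat_lit 1792) (.br
 (nat_lit 9) (.br (nat_lit 8) (.ch (nat_lit 4) (.ev (nat_lit 1808) (nat_lit 2147504132) (.ev (nat_lit 1821)
 (nat_lit 262144) .dd))) (.ch (nat_lit 8) (.ev (nat_lit 1808) (nat_lit 2147504128) (.ev (nat_lit 2532) (nat_lit
 4) (.ev (nat_lit 2541) (nat_lit 262144) .dd))))) (.br (nat_lit 11) (.ch (nat_lit 9) (.ev (nat_lit 1808)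
 (nat_lit 2147504128) (.ev (nat_lit 2660) (nat_lit 4) (.ev (nat_lit 2669) (nat_lit 262144) .dd)))) (.br
 (nat_lit 12) (.ch (nat_lit 11) (.ev (nat_lit 1808) (nat_lit 262144) (.ev (nat_lit 1876) (nat_lit 4) (.ev
 (nat_lit 2660) (nat_lit 16384) (.fin (nat_lit 576462401573438018)))))) (.ch (nat_lit 12) (.ev (nat_lit 1808)
 (nat_lit 2147749892) (.ev (nat_lit 1821) (nat_lit 16384) .dd)))))))))) (.br (nat_lit 4) (.ch (nat_lit 1) (.ev
 (nat_lit 1200) (nat_lit 35195109785610) (.ev (nat_lit 1824) (nat_lit 4096) (.ev (nat_lit 2420) (nat_lit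
 2097152) (.ev (nat_lit 2596) (nat_lit 1048576) (.ev (nat_lit 2605) (nat_lit 4) .dd)))))) (.ch (nat_lit 4) (.ev
 (nat_lit 1200) (nat_lit 35195111870476) (.ev (nat_lit 2544) (nat_lit 2) (.ev (nat_lit 2960) (nat_lit 16384)
 (.ev (nat_lit 2973) (nat_lit 1048576) .dd))))))) (.br (nat_lit 9) (.ch (nat_lit 6) (.ev (nat_lit 1200)
 (nat_lit 2149584910) (.ev (nat_lit 1252) (nat_lit 8589934592) (.nd (nat_lit 1792) (.br (nat_lit 8) (.br
 (nat_lit 5) (.ch (nat_lit 4) (.ev (nat_lit 2192) (nat_lit 16384) (.ev (nat_lit 2720) (nat_lit 35184372088832)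
 (.ev (nat_lit 2864) (nat_lit 262144) (.ev (nat_lit 2877) (nat_lit 1048576) .dd))))) (.br (nat_lit 7) (.ch
 (nat_lit 5) (.ev (nat_lit 1808) (nat_lit 35184372350976) (.ev (nat_lit 1888) (nat_lit 16384) (.ev (nat_lit
 1901) (nat_lit 1048576) .dd)))) (.ch (nat_lit 7) (.ev (nat_lit 1808) (nat_lit 1310720) (.fin (nat_lit
 576455804463825450)))))) (.br (nat_lit 10) (.ch (nat_lit 8) (.ev (nat_lit 1808) (nat_lit 1064960) (.ev
 (nat_lit 1876) (nat_lit 262144) (.ev (nat_lit 1885) (nat_lit 35184372088832) .dd)))) (.br (nat_lit 12) (.ch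
 (nat_lit 10) (.ev (nat_lit 1808) (nat_lit 35184372105216) (.ev (nat_lit 2244) (nat_lit 262144) (.ev (nat_lit
 2253) (nat_lit 1048576) .dd)))) (.ch (nat_lit 12) (.ev (nat_lit 1808) (nat_lit 35184373415936) .dd)))))))))
 (.br (nat_lit 11) (.ch (nat_lit 9) (.ev (nat_lit 1200) (nat_lit 3428356) (.nd (nat_lit 1792) (.br (nat_lit 8)
 (.ch (nat_lit 2) (.ev (nat_lit 1808) (nat_lit 8589934592) (.ev (nat_lit 1876) (nat_lit 8) (.ev (nat_lit 1888)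
 (nat_lit 35184372088832) (.ev (nat_lit 2164) (nat_lit 2) (.ev (nat_lit 2173) (nat_lit 2147483648) .dd))))))
 (.br (nat_lit 12) (.ch (nat_lit 8) (.ev (nat_lit 1808) (nat_lit 35192962023434) (.ev (nat_lit 1821) (nat_lit
 2147483648) .dd))) (.ch (nat_lit 12) (.ev (nat_lit 1808) (nat_lit 35186519572488) (.ev (nat_lit 2164) (nat_lit
 2) (.ev (nat_lit 2173) (nat_lit 8589934592) .dd))))))))) (.ch (nat_lit 11) (.ev (nat_lit 1200) (nat_lit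
 10738487302) (.ev (nat_lit 1876) (nat_lit 262144) (.ev (nat_lit 2448) (nat_lit 2097152) (.ev (nat_lit 2768)
 (nat_lit 8) (.ev (nat_lit 2781) (nat_lit 35184372088832) .dd))))))))))))))))))) (.br (nat_lit 47) (.br
 (nat_lit 44) (.br (nat_lit 43) (.ch (nat_lit 42) (.ev (nat_lit 52) (nat_lit 343800809986) (.ev (nat_lit 116)
 (nat_lit 70368777732096) (.ev (nat_lit 212) (nat_lit 4) (.ev (nat_lit 276) (nat_lit 8) (.ev (nat_lit 820)
 (nat_lit 35184372088832) (.nd (nat_lit 1184) (.br (nat_lit 8) (.br (nat_lit 1) (.ch (nat_lit 0) (.ev (nat_lit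
 1200) (nat_lit 10738012160) (.ev (nat_lit 1252) (nat_lit 262144) (.ev (nat_lit 2740) (nat_lit 1048576) (.ev
 (nat_lit 2749) (nat_lit 16384) .dd))))) (.br (nat_lit 4) (.ch (nat_lit 1) (.ev (nat_lit 1200) (nat_lit
 2148335616) (.ev (nat_lit 3216) (nat_lit 4096) (.nd (nat_lit 3472) (.br (nat_lit 8) (.ch (nat_lit 7) (.ev
 (nat_lit 3488) (nat_lit 16384) (.fin (nat_lit 576464600612422201)))) (.ch (nat_lit 8) (.ev (nat_lit 3488)
 (nat_lit 8589934592) (.ev (nat_lit 3508) (nat_lit 16384) (.ev (nat_lit 3517) (nat_lit 1048576) .dd)))))))))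
 (.ch (nat_lit 4) (.ev (nat_lit 1200) (nat_lit 8591331328) (.nd (nat_lit 1792) (.br (nat_lit 4) (.ch (nat_lit
 0) (.ev (nat_lit 1808) (nat_lit 2147483648) (.ev (nat_lit 1821) (nat_lit 524288) .dd))) (.br (nat_lit 7) (.ch
 (nat_lit 4) (.ev (nat_lit 1940) (nat_lit 2147483648) (.ev (nat_lit 1949) (nat_lit 524288) .dd))) (.ch (nat_lit
 7) (.ev (nat_lit 1808) (nat_lit 524288) (.ev (nat_lit 1821) (nat_lit 2147483648) .dd)))))))))) (.br (nat_lit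
 9) (.ch (nat_lit 8) (.ev (nat_lit 1200) (nat_lit 1839104) (.ev (nat_lit 1252) (nat_lit 2147483648) (.nd
 (nat_lit 1792) (.br (nat_lit 5) (.br (nat_lit 1) (.ch (nat_lit 0) (.ev (nat_lit 1808) (nat_lit 8590000128)
 (.ev (nat_lit 1821) (nat_lit 16384) .dd))) (.br (nat_lit 2) (.ch (nat_lit 1) (.ev (nat_lit 1808) (nat_lit
 8590016512) .dd)) (.ch (nat_lit 2) (.ev (nat_lit 1808) (nat_lit 8590016512) .dd)))) (.br (nat_lit 6) (.ch
 (nat_lit 5) (.ev (nat_lit 1808) (nat_lit 8589950976) (.ev (nat_lit 1821) (nat_lit 65536) .dd))) (.br (nat_lit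
 8) (.ch (nat_lit 6) (.ev (nat_lit 1876) (nat_lit 65536) (.ev (nat_lit 2512) (nat_lit 16384) (.ev (nat_lit
 2525) (nat_lit 8589934592) .dd)))) (.ch (nat_lit 8) (.ev (nat_lit 1808) (nat_lit 16384) (.ev (nat_lit 1876)
 (nat_lit 8589934592) (.ev (nat_lit 1885) (nat_lit 65536) .dd))))))))))) (.br (nat_lit 11) (.ch (nat_lit 9)
 (.ev (nat_lit 1200) (nat_lit 10738028544) (.ev (nat_lit 2740) (nat_lit 262144) (.ev (nat_lit 2749) (nat_lit
 1048576) .dd)))) (.ch (nat_lit 11) (.ev (nat_lit 1200) (nat_lit 10739335168) (.ev (nat_lit 1213) (nat_lit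
 4096) .dd))))))))))))) (.ch (nat_lit 43) (.ev (nat_lit 52) (nat_lit 70437564336134) (.ev (nat_lit 84) (nat_lit
 512) (.ev (nat_lit 932) (nat_lit 35184372088832) (.nd (nat_lit 1184) (.br (nat_lit 5) (.br (nat_lit 1) (.ch
 (nat_lit 0) (.ev (nat_lit 1200) (nat_lit 283602124808) (.ev (nat_lit 1252) (nat_lit 2097152) (.nd (nat_lit
 1792) (.br (nat_lit 9) (.br (nat_lit 4) (.ch (nat_lit 2) (.ev (nat_lit 1808) (nat_lit 2148012032) (.ev
 (nat_lit 1940) (nat_lit 262144) (.ev (nat_lit 1949) (nat_lit 1048576) .dd)))) (.ch (nat_lit 4) (.ev (nat_lit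
 1808) (nat_lit 2148012032) (.ev (nat_lit 1940) (nat_lit 262144) (.ev (nat_lit 1949) (nat_lit 1048576) .dd)))))
 (.br (nat_lit 11) (.ch (nat_lit 9) (.ev (nat_lit 1808) (nat_lit 2148798464) (.ev (nat_lit 1821) (nat_lit
 524288) .dd))) (.br (nat_lit 12) (.ch (nat_lit 11) (.ev (nat_lit 1808) (nat_lit 1048576) (.ev (nat_lit 1876)
 (nat_lit 262144) (.ev (nat_lit 2660) (nat_lit 524288) (.fin (nat_lit 576462401573438018)))))) (.ch (nat_lit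
 12) (.ev (nat_lit 1808) (nat_lit 2148274176) (.ev (nat_lit 1821) (nat_lit 1048576) .dd)))))))))) (.br (nat_lit
 4) (.ch (nat_lit 1) (.ev (nat_lit 1200) (nat_lit 10737750024) (.ev (nat_lit 1252) (nat_lit 134217728) (.ev
 (nat_lit 2836) (nat_lit 1048576) (.ev (nat_lit 2948) (nat_lit 2097152) (.nd (nat_lit 3392) (.br (nat_lit 8)
 (.br (nat_lit 3) (.ch (nat_lit 1) (.ev (nat_lit 3408) (nat_lit 274878431232) .dd)) (.ch (nat_lit 3) (.ev
 (nat_lit 3408) (nat_lit 274878431232) .dd))) (.br (nat_lit 10) (.ch (nat_lit 8) (.ev (nat_lit 3408) (nat_lit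
 274878431232) .dd)) (.ch (nat_lit 10) (.fin (nat_lit 576447008412746258))))))))))) (.ch (nat_lit 4) (.ev
 (nat_lit 1200) (nat_lit 10874523648) (.nd (nat_lit 1792) (.br (nat_lit 6) (.br (nat_lit 1) (.ch (nat_lit 0)
 (.ev (nat_lit 1808) (nat_lit 1048576) (.ev (nat_lit 2176) (nat_lit 65536) (.ev (nat_lit 2368) (nat_lit 8) (.ev
 (nat_lit 2381) (nat_lit 274877906944) .dd))))) (.br (nat_lit 4) (.ch (nat_lit 1) (.ev (nat_lit 1808) (nat_lit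
 274878955520) (.ev (nat_lit 1824) (nat_lit 65544) .dd))) (.ch (nat_lit 4) (.ev (nat_lit 1808) (nat_lit 65544)
 (.ev (nat_lit 1940) (nat_lit 1048576) (.ev (nat_lit 1949) (nat_lit 274877906944) .dd)))))) (.br (nat_lit 7)
 (.ch (nat_lit 6) (.ev (nat_lit 1808) (nat_lit 1048584) (.ev (nat_lit 2848) (nat_lit 274877972480) .dd))) (.br
 (nat_lit 9) (.ch (nat_lit 7) (.ev (nat_lit 1808) (nat_lit 274879021064) .dd)) (.ch (nat_lit 9) (.ev (nat_lit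
 1808) (nat_lit 274877972488) (.ev (nat_lit 1821) (nat_lit 1048576) .dd))))))))))) (.br (nat_lit 8) (.ch
 (nat_lit 5) (.ev (nat_lit 1200) (nat_lit 277160988680) (.ev (nat_lit 1654) (nat_lit 524288) (.ev (nat_lit
 2432) (nat_lit 8589934592) (.ev (nat_lit 2445) (nat_lit 2097152) .dd))))) (.br (nat_lit 11) (.ch (nat_lit 8)
 (.ev (nat_lit 1200) (nat_lit 3936264) (.nd (nat_lit 1792) (.br (nat_lit 8) (.ch (nat_lit 1) (.ev (nat_lit
 1808) (nat_lit 277025456128) (.ev (nat_lit 1876) (nat_lit 8589934592) (.ev (nat_lit 1885) (nat_lit 134217728)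
 .dd)))) (.br (nat_lit 9) (.ch (nat_lit 8) (.ev (nat_lit 1808) (nat_lit 134217728) (.ev (nat_lit 1876) (nat_lit
 65536) (.ev (nat_lit 1952) (nat_lit 2147483648) (.ev (nat_lit 2256) (nat_lit 274877906944) (.ev (nat_lit 2269)
 (nat_lit 8589934592) .dd)))))) (.ch (nat_lit 9) (.ev (nat_lit 1808) (nat_lit 283467907072) (.ev (nat_lit 1952)
 (nat_lit 2147483648) (.ev (nat_lit 1965) (nat_lit 134217728) .dd))))))))) (.ch (nat_lit 11) (.ev (nat_lit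
 1200) (nat_lit 285751181312) (.ev (nat_lit 1888) (nat_lit 4096) (.ev (nat_lit 1988) (nat_lit 2097160) (.ev
 (nat_lit 1997) (nat_lit 262144) .dd)))))))))))))) (.br (nat_lit 46) (.ch (nat_lit 44) (.ev (nat_lit 52)
 (nat_lit 105630461593602) (.ev (nat_lit 308) (nat_lit 512) (.ev (nat_lit 596) (nat_lit 1048576) (.ev (nat_lit
 1028) (nat_lit 16384) (.nd (nat_lit 1184) (.br (nat_lit 8) (.br (nat_lit 4) (.ch (nat_lit 1) (.ev (nat_lit
 1200) (nat_lit 2349400072) (.ev (nat_lit 1888) (nat_lit 4096) (.ev (nat_lit 1952) (nat_lit 4) (.ev (nat_lit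
 1965) (nat_lit 274877906944) .dd))))) (.br (nat_lit 6) (.ch (nat_lit 4) (.ev (nat_lit 1200) (nat_lit
 2349338636) (.nd (nat_lit 1792) (.br (nat_lit 8) (.ch (nat_lit 1) (.ev (nat_lit 1808) (nat_lit 274877972480)
 .dd)) (.br (nat_lit 12) (.ch (nat_lit 8) (.ev (nat_lit 1808) (nat_lit 274877906944) (.ev (nat_lit 1821)
 (nat_lit 65536) .dd))) (.ch (nat_lit 12) (.ev (nat_lit 1808) (nat_lit 65536) (.ev (nat_lit 1821) (nat_lit
 274877906944) .dd)))))))) (.ch (nat_lit 6) (.ev (nat_lit 1200) (nat_lit 277159612428) (.nd (nat_lit 1792) (.br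
 (nat_lit 7) (.br (nat_lit 1) (.ch (nat_lit 0) (.ev (nat_lit 1808) (nat_lit 67633152) (.ev (nat_lit 1821)
 (nat_lit 65536) .dd))) (.ch (nat_lit 1) (.ev (nat_lit 1808) (nat_lit 65536) (.ev (nat_lit 2448) (nat_lit
 67633152) .dd)))) (.br (nat_lit 8) (.ch (nat_lit 7) (.ev (nat_lit 1808) (nat_lit 67633152) (.ev (nat_lit 1821)
 (nat_lit 65536) .dd))) (.br (nat_lit 12) (.ch (nat_lit 8) (.ev (nat_lit 1808) (nat_lit 67698688) .dd)) (.ch
 (nat_lit 12) (.ev (nat_lit 1808) (nat_lit 67633152) (.ev (nat_lit 1821) (nat_lit 65536) .dd))))))))))) (.br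
 (nat_lit 11) (.br (nat_lit 9) (.ch (nat_lit 8) (.ev (nat_lit 1200) (nat_lit 67702792) (.ev (nat_lit 1252)
 (nat_lit 2147483648) (.nd (nat_lit 1792) (.br (nat_lit 5) (.br (nat_lit 1) (.ch (nat_lit 0) (.ev (nat_lit
 1808) (nat_lit 134217732) (.ev (nat_lit 1821) (nat_lit 274877906944) .dd))) (.br (nat_lit 2) (.ch (nat_lit 1)
 (.ev (nat_lit 1808) (nat_lit 274877906948) (.ev (nat_lit 1821) (nat_lit 134217728) .dd))) (.ch (nat_lit 2)
 (.ev (nat_lit 1808) (nat_lit 4) (.ev (nat_lit 1840) (nat_lit 274877906944) (.ev (nat_lit 1853) (nat_lit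
 134217728) .dd)))))) (.br (nat_lit 11) (.br (nat_lit 6) (.ch (nat_lit 5) (.ev (nat_lit 1808) (nat_lit
 134217732) (.ev (nat_lit 1821) (nat_lit 274877906944) .dd))) (.ch (nat_lit 6) (.ev (nat_lit 1808) (nat_lit
 275012124672) (.ev (nat_lit 1821) (nat_lit 4) .dd)))) (.br (nat_lit 12) (.ch (nat_lit 11) (.ev (nat_lit 1808)
 (nat_lit 134217728) (.ev (nat_lit 2624) (nat_lit 4) (.ev (nat_lit 2637) (nat_lit 274877906944) .dd)))) (.ch
 (nat_lit 12) (.ev (nat_lit 1808) (nat_lit 134217732) (.ev (nat_lit 1821) (nat_lit 274877906944) .dd))))))))))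
 (.ch (nat_lit 9) (.ev (nat_lit 1200) (nat_lit 275012718592) (.nd (nat_lit 1792) (.br (nat_lit 8) (.br (nat_lit
 3) (.ch (nat_lit 2) (.ev (nat_lit 1808) (nat_lit 8) (.ev (nat_lit 3334) (nat_lit 2147483648) (.fin (nat_lit
 576461302042935864))))) (.br (nat_lit 4) (.ch (nat_lit 3) (.ev (nat_lit 1808) (nat_lit 2214592524) .dd)) (.ch
 (nat_lit 4) (.ev (nat_lit 1808) (nat_lit 2214592512) (.ev (nat_lit 2608) (nat_lit 12) .dd))))) (.br (nat_lit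
 9) (.ch (nat_lit 8) (.ev (nat_lit 1808) (nat_lit 67108876) (.ev (nat_lit 1821) (nat_lit 2147483648) .dd)))
 (.br (nat_lit 10) (.ch (nat_lit 9) (.ev (nat_lit 1808) (nat_lit 2214592512) (.ev (nat_lit 1904) (nat_lit 8)
 (.ev (nat_lit 1917) (nat_lit 4) .dd)))) (.ch (nat_lit 10) (.ev (nat_lit 1808) (nat_lit 67108872) (.ev (nat_lit
 3184) (nat_lit 2147483652) .dd)))))))))) (.br (nat_lit 12) (.ch (nat_lit 11) (.ev (nat_lit 1200) (nat_lit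
 2282291204) (.ev (nat_lit 2192) (nat_lit 67108864) (.ev (nat_lit 2672) (nat_lit 4096) (.ev (nat_lit 2784)
 (nat_lit 8) (.ev (nat_lit 2797) (nat_lit 274877906944) .dd)))))) (.ch (nat_lit 12) (.ev (nat_lit 1200)
 (nat_lit 2215120908) (.ev (nat_lit 1232) (nat_lit 65536) (.ev (nat_lit 2480) (nat_lit 134217728) (.ev (nat_lit
 2493) (nat_lit 274877906944) .dd)))))))))))))) (.ch (nat_lit 46) (.ev (nat_lit 52) (nat_lit 70870389252) (.ev
 (nat_lit 84) (nat_lit 8589934592) (.ev (nat_lit 404) (nat_lit 8) (.ev (nat_lit 756) (nat_lit 134217728) (.ev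
 (nat_lit 1060) (nat_lit 2048) (.ev (nat_lit 1120) (nat_lit 524288) (.nd (nat_lit 1184) (.br (nat_lit 8) (.ch
 (nat_lit 6) (.ev (nat_lit 1200) (nat_lit 70643622084610) (.nd (nat_lit 1792) (.br (nat_lit 7) (.br (nat_lit 5)
 (.ch (nat_lit 0) (.ev (nat_lit 1808) (nat_lit 100663296) (.ev (nat_lit 1904) (nat_lit 65536) (.ev (nat_lit
 1917) (nat_lit 35184372088832) .dd)))) (.ch (nat_lit 5) (.ev (nat_lit 1808) (nat_lit 35184439197696) (.ev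
 (nat_lit 1940) (nat_lit 33554432) (.ev (nat_lit 1949) (nat_lit 65536) .dd))))) (.br (nat_lit 10) (.ch (nat_lit
 7) (.ev (nat_lit 1808) (nat_lit 67174400) (.ev (nat_lit 1856) (nat_lit 35184405643264) .dd))) (.ch (nat_lit
 10) (.ev (nat_lit 1808) (nat_lit 35184405643264) (.ev (nat_lit 2420) (nat_lit 67108864) (.ev (nat_lit 2429)
 (nat_lit 65536) .dd))))))))) (.br (nat_lit 11) (.ch (nat_lit 8) (.ev (nat_lit 1200) (nat_lit 100663296) (.ev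
 (nat_lit 1776) (nat_lit 274877906944) (.ev (nat_lit 1952) (nat_lit 70368744177664) (.ev (nat_lit 2164)
 (nat_lit 2) (.ev (nat_lit 2532) (nat_lit 35184372088832) (.ev (nat_lit 2541) (nat_lit 65536) .dd))))))) (.ch
 (nat_lit 11) (.ev (nat_lit 1200) (nat_lit 35184372154370) (.nd (nat_lit 1792) (.br (nat_lit 3) (.br (nat_lit
 1) (.ch (nat_lit 0) (.ev (nat_lit 1808) (nat_lit 274978570240) (.ev (nat_lit 1821) (nat_lit 70368744177664)
 .dd))) (.ch (nat_lit 1) (.ev (nat_lit 1808) (nat_lit 274877906944) (.ev (nat_lit 2544) (nat_lit 67108864) (.ev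
 (nat_lit 3056) (nat_lit 70368777732096) .dd))))) (.br (nat_lit 12) (.ch (nat_lit 3) (.ev (nat_lit 1808)
 (nat_lit 70368844840960) (.ev (nat_lit 1821) (nat_lit 274877906944) .dd))) (.ch (nat_lit 12) (.ev (nat_lit
 1808) (nat_lit 67108864) (.ev (nat_lit 1904) (nat_lit 70368744177664) (.ev (nat_lit 1988) (nat_lit 33554432)
 (.ev (nat_lit 1997) (nat_lit 274877906944) .dd)))))))))))))))))))))) (.br (nat_lit 49) (.br (nat_lit 48) (.ch
 (nat_lit 47) (.ev (nat_lit 52) (nat_lit 70643689980420) (.ev (nat_lit 148) (nat_lit 1048576) (.ev (nat_lit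
 500) (nat_lit 2097152) (.ev (nat_lit 532) (nat_lit 2147483648) (.ev (nat_lit 692) (nat_lit 4096) (.nd (nat_lit
 1184) (.br (nat_lit 8) (.br (nat_lit 5) (.ch (nat_lit 1) (.ev (nat_lit 1200) (nat_lit 35253225799688) (.ev
 (nat_lit 1252) (nat_lit 2048) (.ev (nat_lit 2420) (nat_lit 33554432) (.ev (nat_lit 2948) (nat_lit 2) (.nd
 (nat_lit 3440) (.br (nat_lit 10) (.ch (nat_lit 8) (.fin (nat_lit 576482192747086425))) (.ch (nat_lit 10) (.ev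
 (nat_lit 3456) (nat_lit 8590000128) .dd))))))))) (.br (nat_lit 6) (.ch (nat_lit 5) (.ev (nat_lit 1200)
 (nat_lit 68753113098) (.nd (nat_lit 1792) (.br (nat_lit 5) (.ch (nat_lit 1) (.ev (nat_lit 1808) (nat_lit 2048)
 (.ev (nat_lit 2192) (nat_lit 134217728) (.ev (nat_lit 2256) (nat_lit 8589934592) (.ev (nat_lit 2269) (nat_lit
 35184372088832) .dd))))) (.br (nat_lit 6) (.ch (nat_lit 5) (.ev (nat_lit 1808) (nat_lit 8724152320) (.ev
 (nat_lit 2448) (nat_lit 2048) (.ev (nat_lit 2461) (nat_lit 35184372088832) .dd)))) (.ch (nat_lit 6) (.ev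
 (nat_lit 1808) (nat_lit 35192962023424) (.ev (nat_lit 1988) (nat_lit 2048) (.ev (nat_lit 1997) (nat_lit
 134217728) .dd))))))))) (.ch (nat_lit 6) (.ev (nat_lit 1200) (nat_lit 134285322) (.ev (nat_lit 2176) (nat_lit
 68719476736) (.ev (nat_lit 2704) (nat_lit 33554432) (.ev (nat_lit 2848) (nat_lit 8589934592) (.nd (nat_lit
 3392) (.br (nat_lit 8) (.ch (nat_lit 7) (.fin (nat_lit 576455804463825450))) (.ch (nat_lit 8) (.ev (nat_lit
 3408) (nat_lit 16384) (.ev (nat_lit 3421) (nat_lit 35184372088832) .dd)))))))))))) (.br (nat_lit 9) (.ch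
 (nat_lit 8) (.ev (nat_lit 1200) (nat_lit 8623491072) (.nd (nat_lit 1792) (.br (nat_lit 9) (.br (nat_lit 6)
 (.ch (nat_lit 2) (.ev (nat_lit 1808) (nat_lit 68853710858) (.ev (nat_lit 2420) (nat_lit 65536) (.ev (nat_lit
 2429) (nat_lit 35184372088832) .dd)))) (.br (nat_lit 8) (.ch (nat_lit 6) (.ev (nat_lit 1808) (nat_lit
 35253225783298) (.ev (nat_lit 1876) (nat_lit 65536) (.ev (nat_lit 2080) (nat_lit 16392) .dd)))) (.ch (nat_lit
 8) (.ev (nat_lit 1808) (nat_lit 35184372170760) (.ev (nat_lit 1840) (nat_lit 134217728) (.ev (nat_lit 1876)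
 (nat_lit 68719476736) (.ev (nat_lit 1885) (nat_lit 2) .dd))))))) (.br (nat_lit 11) (.ch (nat_lit 9) (.ev
 (nat_lit 1808) (nat_lit 35253091581960) (.ev (nat_lit 1940) (nat_lit 65536) (.fin (nat_lit
 576501983998329422))))) (.br (nat_lit 12) (.ch (nat_lit 11) (.ev (nat_lit 1808) (nat_lit 81928) (.ev (nat_lit
 1876) (nat_lit 68719476736) (.ev (nat_lit 2752) (nat_lit 35184372088832) (.ev (nat_lit 2928) (nat_lit
 134217730) .dd))))) (.ch (nat_lit 12) (.ev (nat_lit 1808) (nat_lit 35253225865224) (.ev (nat_lit 1821)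
 (nat_lit 2) .dd))))))))) (.br (nat_lit 12) (.ch (nat_lit 9) (.ev (nat_lit 1200) (nat_lit 35261715122176) (.ev
 (nat_lit 1252) (nat_lit 8) (.nd (nat_lit 1792) (.br (nat_lit 4) (.br (nat_lit 2) (.ch (nat_lit 1) (.ev
 (nat_lit 1808) (nat_lit 134234114) .dd)) (.br (nat_lit 3) (.ch (nat_lit 2) (.ev (nat_lit 2244) (nat_lit
 134217728) (.ev (nat_lit 2640) (nat_lit 2) (.ev (nat_lit 2653) (nat_lit 16384) .dd)))) (.ch (nat_lit 3) (.ev
 (nat_lit 1808) (nat_lit 134217730) (.ev (nat_lit 1821) (nat_lit 16384) .dd))))) (.br (nat_lit 9) (.ch (nat_lit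
 4) (.ev (nat_lit 1808) (nat_lit 134234114) .dd)) (.br (nat_lit 10) (.ch (nat_lit 9) (.ev (nat_lit 1808)
 (nat_lit 134234112) (.ev (nat_lit 1821) (nat_lit 2) .dd))) (.ch (nat_lit 10) (.ev (nat_lit 1808) (nat_lit
 16384) (.ev (nat_lit 2244) (nat_lit 134217728) (.ev (nat_lit 2253) (nat_lit 2) .dd))))))))))) (.ch (nat_lit
 12) (.ev (nat_lit 1200) (nat_lit 35193096259592) (.ev (nat_lit 1252) (nat_lit 2) (.ev (nat_lit 2848) (nat_lit
 65536) (.nd (nat_lit 3440) (.br (nat_lit 1) (.ch (nat_lit 0) (.ev (nat_lit 3456) (nat_lit 68753031168) .dd))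
 (.br (nat_lit 5) (.ch (nat_lit 1) (.ev (nat_lit 3456) (nat_lit 68753031168) .dd)) (.ch (nat_lit 5) (.fin
 (nat_lit 576475595715068447)))))))))))))))))))) (.ch (nat_lit 48) (.ev (nat_lit 52) (nat_lit 70645937881092)
 (.ev (nat_lit 160) (nat_lit 35261752089098) .dd)))) (.br (nat_lit 50) (.ch (nat_lit 49) (.ev (nat_lit 52)
 (nat_lit 35184475642382) (.ev (nat_lit 116) (nat_lit 1048576) (.ev (nat_lit 436) (nat_lit 8589934592) (.ev
 (nat_lit 468) (nat_lit 68719476736) (.ev (nat_lit 964) (nat_lit 274877906944) (.ev (nat_lit 1060) (nat_lit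
 70368744243200) (.nd (nat_lit 1184) (.br (nat_lit 6) (.br (nat_lit 5) (.ch (nat_lit 0) (.ev (nat_lit 1200)
 (nat_lit 134234112) (.ev (nat_lit 1213) (nat_lit 2147483648) .dd))) (.ch (nat_lit 5) (.ev (nat_lit 1200)
 (nat_lit 2147500032) (.ev (nat_lit 1213) (nat_lit 134217728) .dd)))) (.br (nat_lit 8) (.ch (nat_lit 6) (.ev
 (nat_lit 1200) (nat_lit 2281717760) .dd)) (.br (nat_lit 9) (.ch (nat_lit 8) (.ev (nat_lit 1200) (nat_lit
 2147483648) (.ev (nat_lit 2596) (nat_lit 134217728) (.ev (nat_lit 2605) (nat_lit 16384) .dd)))) (.ch (nat_lit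
 9) (.ev (nat_lit 1200) (nat_lit 2147483648) (.nd (nat_lit 1792) (.br (nat_lit 9) (.br (nat_lit 3) (.ch
 (nat_lit 1) (.ev (nat_lit 1808) (nat_lit 134217728) (.ev (nat_lit 1821) (nat_lit 16384) .dd))) (.ch (nat_lit
 3) (.ev (nat_lit 1808) (nat_lit 134217728) (.ev (nat_lit 1821) (nat_lit 16384) .dd)))) (.br (nat_lit 10) (.ch
 (nat_lit 9) (.ev (nat_lit 1808) (nat_lit 134234112) .dd)) (.br (nat_lit 11) (.ch (nat_lit 10) (.ev (nat_lit
 2660) (nat_lit 134217728) (.ev (nat_lit 2669) (nat_lit 16384) .dd))) (.ch (nat_lit 11) (.ev (nat_lit 1808)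
 (nat_lit 134234112) .dd))))))))))))))))))) (.br (nat_lit 52) (.ch (nat_lit 50) (.ev (nat_lit 52) (nat_lit
 105896782860300) (.ev (nat_lit 224) (nat_lit 10907109890) .dd))) (.ch (nat_lit 52) (.ev (nat_lit 52) (nat_lit
 105828062418944) (.ev (nat_lit 84) (nat_lit 68719476736) (.ev (nat_lit 116) (nat_lit 262152) (.ev (nat_lit
 212) (nat_lit 2097152) (.ev (nat_lit 436) (nat_lit 512) (.ev (nat_lit 500) (nat_lit 4) (.ev (nat_lit 1028)
 (nat_lit 524288) (.nd (nat_lit 1184) (.br (nat_lit 8) (.br (nat_lit 5) (.ch (nat_lit 4) (.ev (nat_lit 1200)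
 (nat_lit 10871635968) (.nd (nat_lit 1792) (.br (nat_lit 8) (.br (nat_lit 4) (.ch (nat_lit 0) (.ev (nat_lit
 1808) (nat_lit 33554432) (.ev (nat_lit 1821) (nat_lit 2) .dd))) (.br (nat_lit 6) (.ch (nat_lit 4) (.ev
 (nat_lit 1808) (nat_lit 33554434) .dd)) (.ch (nat_lit 6) (.ev (nat_lit 2560) (nat_lit 33554434) .dd)))) (.br
 (nat_lit 9) (.ch (nat_lit 8) (.ev (nat_lit 1808) (nat_lit 33554434) .dd)) (.br (nat_lit 12) (.ch (nat_lit 9)
 (.ev (nat_lit 1808) (nat_lit 33554432) (.ev (nat_lit 1821) (nat_lit 2) .dd))) (.ch (nat_lit 12) (.ev (nat_lit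
 1808) (nat_lit 33554434) .dd)))))))) (.br (nat_lit 6) (.ch (nat_lit 5) (.ev (nat_lit 1200) (nat_lit
 10770972674) (.ev (nat_lit 1213) (nat_lit 134217728) .dd))) (.ch (nat_lit 6) (.ev (nat_lit 1200) (nat_lit
 167772162) (.nd (nat_lit 1792) (.br (nat_lit 7) (.br (nat_lit 3) (.ch (nat_lit 0) (.ev (nat_lit 1808) (nat_lit
 10737418240) .dd)) (.br (nat_lit 4) (.ch (nat_lit 3) (.ev (nat_lit 2420) (nat_lit 8589934592) (.ev (nat_lit
 2429) (nat_lit 2147483648) .dd))) (.ch (nat_lit 4) (.ev (nat_lit 1808) (nat_lit 10737418240) .dd)))) (.br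
 (nat_lit 10) (.ch (nat_lit 7) (.ev (nat_lit 1808) (nat_lit 10737418240) .dd)) (.br (nat_lit 12) (.ch (nat_lit
 10) (.ev (nat_lit 1808) (nat_lit 2147483648) (.ev (nat_lit 1821) (nat_lit 8589934592) .dd))) (.ch (nat_lit 12)
 (.ev (nat_lit 1808) (nat_lit 8589934592) (.ev (nat_lit 1821) (nat_lit 2147483648) .dd))))))))))) (.br (nat_lit
 9) (.ch (nat_lit 8) (.ev (nat_lit 1200) (nat_lit 8623489026) (.ev (nat_lit 2596) (nat_lit 2147483648) (.ev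
 (nat_lit 2605) (nat_lit 134217728) .dd)))) (.br (nat_lit 12) (.ch (nat_lit 9) (.ev (nat_lit 1200) (nat_lit
 33554432) (.nd (nat_lit 1792) (.br (nat_lit 9) (.br (nat_lit 2) (.ch (nat_lit 1) (.ev (nat_lit 1808) (nat_lit
 2281701378) (.ev (nat_lit 1821) (nat_lit 8589934592) .dd))) (.br (nat_lit 3) (.ch (nat_lit 2) (.ev (nat_lit
 1808) (nat_lit 8589934594) (.ev (nat_lit 2836) (nat_lit 2147483648) (.ev (nat_lit 2845) (nat_lit 134217728)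
 .dd)))) (.ch (nat_lit 3) (.ev (nat_lit 1808) (nat_lit 2147483650) (.ev (nat_lit 2192) (nat_lit 8724152320)
 .dd))))) (.br (nat_lit 11) (.ch (nat_lit 9) (.ev (nat_lit 1808) (nat_lit 10871635970) .dd)) (.br (nat_lit 12)
 (.ch (nat_lit 11) (.ev (nat_lit 1808) (nat_lit 10737418242) (.ev (nat_lit 1821) (nat_lit 134217728) .dd)))
 (.ch (nat_lit 12) (.ev (nat_lit 1808) (nat_lit 10737418240) (.fin (nat_lit 576445908888535598)))))))))) (.ch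
 (nat_lit 12) (.ev (nat_lit 1200) (nat_lit 10770972674) (.ev (nat_lit 1213) (nat_lit 134217728)
 .dd)))))))))))))))))))))))

/-- The trie. -/
noncomputable def T : Tr := .nd (nat_lit 1000000) (.br (nat_lit 3) (.br (nat_lit 1) (.ch (nat_lit 0) (.ev
 (nat_lit 0) (nat_lit 140737488355327) .dd)) (.br (nat_lit 2) (.ch (nat_lit 1) (.ev (nat_lit 0) (nat_lit
 140737488355327) .dd)) (.ch (nat_lit 2) T2))) (.br (nat_lit 4) (.ch (nat_lit 3) (.ev (nat_lit 0) (nat_lit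
 140737488355327) .dd)) (.br (nat_lit 5) (.ch (nat_lit 4) T4) (.ch (nat_lit 5) T5))))

/-- The possible values. -/
noncomputable def oks : List ℕ := [4, 9, 679, 706, 894, 3561]

/-- The parameters. -/
noncomputable def S : Pr := ⟨fun i l e => lget mz (lget [] (lget [] tabs i) l) e, oks, [(nat_lit 0), (nat_lit
 1), (nat_lit 0), (nat_lit 0)], T, (nat_lit 140737488355327), (nat_lit 12800101590481), (nat_lit 47), [(nat_lit
 11), (nat_lit 2287041271849359)], [(nat_lit 2197), (nat_lit 2809)]⟩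

/-- Nothing known. -/
noncomputable def cs0 : Cs := (.cons (nat_lit 13) (nat_lit 0) (nat_lit 1) (.cons (nat_lit 53) (nat_lit 0) (nat_lit 1) .nil))

theorem part_2 : part S cs0 (nat_lit 2) = true := by decide +kernel

theorem part_4 : part S cs0 (nat_lit 4) = true := by decide +kernel

theorem part_5 : part S cs0 (nat_lit 5) = true := by decide +kernel

/-- Data of a prime. -/
noncomputable def D0 : PD := ⟨(nat_lit 13), (nat_lit 3), (963, 6, 3), (1541, 898, 2148), (848, 1279, 820)⟩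

theorem D0_ok : D0.Ok := pdb_sound (s := 2) (C := ⟨⟨3, 18, -4, -17, 2, 1, 2, -1, -7⟩, (3, 9, 2)⟩) (by show Nat.Prime 13; norm_num) (by decide +kernel)

/-- Lines of the first type. -/
noncomputable def Cl0 : List C1 := [⟨⟨17, -2, -16, 3, 18, 1, -2, 1, -5⟩, (10, 1, 8)⟩,
  ⟨⟨3, -18, -4, -17, -2, 1, 2, 1, -7⟩, (5, 2, 12)⟩,
  ⟨⟨0, 0, 0, 0, 0, 0, 0, 0, 0⟩, (0, 0, 0)⟩,
  ⟨⟨17, 2, -16, 3, -18, 1, -2, -1, -5⟩, (8, 6, 9)⟩,
  ⟨⟨0, 0, 0, 0, 0, 0, 0, 0, 0⟩, (0, 0, 0)⟩,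
  ⟨⟨0, 0, 0, 0, 0, 0, 0, 0, 0⟩, (0, 0, 0)⟩,
  ⟨⟨0, 0, 0, 0, 0, 0, 0, 0, 0⟩, (0, 0, 0)⟩,
  ⟨⟨0, 0, 0, 0, 0, 0, 0, 0, 0⟩, (0, 0, 0)⟩,
  ⟨⟨0, 0, 0, 0, 0, 0, 0, 0, 0⟩, (0, 0, 0)⟩,
  ⟨⟨0, 0, 0, 0, 0, 0, 0, 0, 0⟩, (0, 0, 0)⟩,
  ⟨⟨0, 0, 0, 0, 0, 0, 0, 0, 0⟩, (0, 0, 0)⟩,
  ⟨⟨0, 0, 0, 0, 0, 0, 0, 0, 0⟩, (0, 0, 0)⟩,
  ⟨⟨0, 0, 0, 0, 0, 0, 0, 0, 0⟩, (0, 0, 0)⟩]

/-- Data of a prime. -/
noncomputable def D1 : PD := ⟨(nat_lit 53), (nat_lit 2), (2545, 8, 14), (2610, 800, 1557), (1968, 957, 2439)⟩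

theorem D1_ok : D1.Ok := pdb_sound (s := 12) (C := ⟨⟨-13, 2, -76, -47, -58, 31, 18, -15, -13⟩, (40, 6, 18)⟩) (by show Nat.Prime 53; norm_num) (by decide +kernel)

/-- Lines of the first type. -/
noncomputable def Cl1 : List C1 := [⟨⟨13, -2, -89, -47, -58, 16, 18, -15, -5⟩, (17, 16, 48)⟩,
  ⟨⟨-23, 38, -56, 43, 58, 1, 18, -9, -23⟩, (9, 50, 16)⟩,
  ⟨⟨-23, -38, -56, 43, -58, 1, 18, 9, -23⟩, (18, 47, 32)⟩,
  ⟨⟨-13, -2, -76, -47, 58, 31, 18, 15, -13⟩, (20, 3, 9)⟩,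
  ⟨⟨0, 0, 0, 0, 0, 0, 0, 0, 0⟩, (0, 0, 0)⟩,
  ⟨⟨0, 0, 0, 0, 0, 0, 0, 0, 0⟩, (0, 0, 0)⟩,
  ⟨⟨0, 0, 0, 0, 0, 0, 0, 0, 0⟩, (0, 0, 0)⟩,
  ⟨⟨23, -38, -79, -43, -58, 44, -18, 9, -5⟩, (29, 8, 28)⟩,
  ⟨⟨33, -18, -89, 67, 2, 4, 2, 23, -7⟩, (12, 34, 20)⟩,
  ⟨⟨0, 0, 0, 0, 0, 0, 0, 0, 0⟩, (0, 0, 0)⟩,
  ⟨⟨0, 0, 0, 0, 0, 0, 0, 0, 0⟩, (0, 0, 0)⟩,
  ⟨⟨0, 0, 0, 0, 0, 0, 0, 0, 0⟩, (0, 0, 0)⟩,
  ⟨⟨0, 0, 0, 0, 0, 0, 0, 0, 0⟩, (0, 0, 0)⟩,
  ⟨⟨27, 42, -76, 7, 58, 49, 22, -7, -5⟩, (1, 14, 44)⟩,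
  ⟨⟨33, 18, -89, 67, -2, 4, 2, -23, -7⟩, (44, 1, 38)⟩,
  ⟨⟨0, 0, 0, 0, 0, 0, 0, 0, 0⟩, (0, 0, 0)⟩,
  ⟨⟨0, 0, 0, 0, 0, 0, 0, 0, 0⟩, (0, 0, 0)⟩,
  ⟨⟨0, 0, 0, 0, 0, 0, 0, 0, 0⟩, (0, 0, 0)⟩,
  ⟨⟨0, 0, 0, 0, 0, 0, 0, 0, 0⟩, (0, 0, 0)⟩,
  ⟨⟨57, 42, -56, -37, 62, 41, -10, 1, -19⟩, (20, 27, 3)⟩,
  ⟨⟨13, 2, -89, -47, 58, 16, 18, 15, -5⟩, (50, 19, 4)⟩,
  ⟨⟨0, 0, 0, 0, 0, 0, 0, 0, 0⟩, (0, 0, 0)⟩,
  ⟨⟨0, 0, 0, 0, 0, 0, 0, 0, 0⟩, (0, 0, 0)⟩,
  ⟨⟨57, -42, -56, -37, -62, 41, -10, -1, -19⟩, (16, 11, 13)⟩,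
  ⟨⟨0, 0, 0, 0, 0, 0, 0, 0, 0⟩, (0, 0, 0)⟩,
  ⟨⟨7, 58, -56, 27, 42, 49, 22, -7, -17⟩, (20, 9, 25)⟩,
  ⟨⟨0, 0, 0, 0, 0, 0, 0, 0, 0⟩, (0, 0, 0)⟩,
  ⟨⟨67, -2, -71, 33, 18, 56, -2, 23, -5⟩, (28, 13, 49)⟩,
  ⟨⟨0, 0, 0, 0, 0, 0, 0, 0, 0⟩, (0, 0, 0)⟩,
  ⟨⟨0, 0, 0, 0, 0, 0, 0, 0, 0⟩, (0, 0, 0)⟩,
  ⟨⟨23, 38, -79, -43, 58, 44, -18, -9, -5⟩, (20, 11, 12)⟩,
  ⟨⟨0, 0, 0, 0, 0, 0, 0, 0, 0⟩, (0, 0, 0)⟩,
  ⟨⟨7, -58, -56, 27, -42, 49, 22, 7, -17⟩, (17, 5, 8)⟩,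
  ⟨⟨0, 0, 0, 0, 0, 0, 0, 0, 0⟩, (0, 0, 0)⟩,
  ⟨⟨67, 2, -71, 33, -18, 56, -2, -23, -5⟩, (8, 34, 14)⟩,
  ⟨⟨27, -42, -76, 7, -58, 49, 22, 7, -5⟩, (50, 11, 27)⟩,
  ⟨⟨0, 0, 0, 0, 0, 0, 0, 0, 0⟩, (0, 0, 0)⟩,
  ⟨⟨0, 0, 0, 0, 0, 0, 0, 0, 0⟩, (0, 0, 0)⟩,
  ⟨⟨0, 0, 0, 0, 0, 0, 0, 0, 0⟩, (0, 0, 0)⟩,
  ⟨⟨0, 0, 0, 0, 0, 0, 0, 0, 0⟩, (0, 0, 0)⟩,
  ⟨⟨0, 0, 0, 0, 0, 0, 0, 0, 0⟩, (0, 0, 0)⟩,
  ⟨⟨0, 0, 0, 0, 0, 0, 0, 0, 0⟩, (0, 0, 0)⟩,
  ⟨⟨0, 0, 0, 0, 0, 0, 0, 0, 0⟩, (0, 0, 0)⟩,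
  ⟨⟨0, 0, 0, 0, 0, 0, 0, 0, 0⟩, (0, 0, 0)⟩,
  ⟨⟨0, 0, 0, 0, 0, 0, 0, 0, 0⟩, (0, 0, 0)⟩,
  ⟨⟨-37, 62, -4, -57, -42, 1, 10, -1, -29⟩, (22, 21, 27)⟩,
  ⟨⟨0, 0, 0, 0, 0, 0, 0, 0, 0⟩, (0, 0, 0)⟩,
  ⟨⟨0, 0, 0, 0, 0, 0, 0, 0, 0⟩, (0, 0, 0)⟩,
  ⟨⟨0, 0, 0, 0, 0, 0, 0, 0, 0⟩, (0, 0, 0)⟩,
  ⟨⟨0, 0, 0, 0, 0, 0, 0, 0, 0⟩, (0, 0, 0)⟩,
  ⟨⟨0, 0, 0, 0, 0, 0, 0, 0, 0⟩, (0, 0, 0)⟩,
  ⟨⟨-37, -62, -4, -57, 42, 1, 10, 1, -29⟩, (6, 25, 17)⟩,
  ⟨⟨0, 0, 0, 0, 0, 0, 0, 0, 0⟩, (0, 0, 0)⟩]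

/-- Data of a prime. -/
noncomputable def Dm : PD := ⟨(nat_lit 47), (nat_lit 2), (1034, 1, 9), (105, 517, 2039), (987, 5, 190)⟩

theorem Dm_ok : Dm.Ok := pdb_sound (s := 1) (C := ⟨⟨47, 2, -76, 47, -2, 29, 0, -21, -1⟩, (2, 45, 26)⟩) (by show Nat.Prime 47; norm_num) (by decide +kernel)

/-- Lines of the first type. -/
noncomputable def Clm : List C1 := [⟨⟨47, -2, -76, 47, 2, 29, 0, 21, -1⟩, (9, 38, 23)⟩,
  ⟨⟨0, 0, 0, 0, 0, 0, 0, 0, 0⟩, (0, 0, 0)⟩,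
  ⟨⟨0, 0, 0, 0, 0, 0, 0, 0, 0⟩, (0, 0, 0)⟩,
  ⟨⟨0, 0, 0, 0, 0, 0, 0, 0, 0⟩, (0, 0, 0)⟩,
  ⟨⟨17, 22, -76, -63, 18, 19, -4, -19, -7⟩, (10, 21, 17)⟩,
  ⟨⟨0, 0, 0, 0, 0, 0, 0, 0, 0⟩, (0, 0, 0)⟩,
  ⟨⟨57, -18, -61, -23, -62, 4, -8, 5, -17⟩, (3, 26, 7)⟩,
  ⟨⟨57, 18, -61, -23, 62, 4, -8, -5, -17⟩, (16, 29, 6)⟩,
  ⟨⟨53, -22, -64, -13, -62, 29, -12, -3, -13⟩, (46, 10, 2)⟩,
  ⟨⟨0, 0, 0, 0, 0, 0, 0, 0, 0⟩, (0, 0, 0)⟩,
  ⟨⟨43, -38, -59, 3, -42, 56, -16, -11, -1⟩, (35, 9, 46)⟩,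
  ⟨⟨0, 0, 0, 0, 0, 0, 0, 0, 0⟩, (0, 0, 0)⟩,
  ⟨⟨0, 0, 0, 0, 0, 0, 0, 0, 0⟩, (0, 0, 0)⟩,
  ⟨⟨-17, -22, -59, -63, 18, 44, 4, 19, -11⟩, (15, 39, 2)⟩,
  ⟨⟨0, 0, 0, 0, 0, 0, 0, 0, 0⟩, (0, 0, 0)⟩,
  ⟨⟨0, 0, 0, 0, 0, 0, 0, 0, 0⟩, (0, 0, 0)⟩,
  ⟨⟨0, 0, 0, 0, 0, 0, 0, 0, 0⟩, (0, 0, 0)⟩,
  ⟨⟨53, 22, -64, -13, 62, 29, -12, 3, -13⟩, (41, 13, 12)⟩,
  ⟨⟨0, 0, 0, 0, 0, 0, 0, 0, 0⟩, (0, 0, 0)⟩,
  ⟨⟨0, 0, 0, 0, 0, 0, 0, 0, 0⟩, (0, 0, 0)⟩,
  ⟨⟨0, 0, 0, 0, 0, 0, 0, 0, 0⟩, (0, 0, 0)⟩,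
  ⟨⟨0, 0, 0, 0, 0, 0, 0, 0, 0⟩, (0, 0, 0)⟩,
  ⟨⟨0, 0, 0, 0, 0, 0, 0, 0, 0⟩, (0, 0, 0)⟩,
  ⟨⟨43, 38, -59, 3, 42, 56, -16, 11, -1⟩, (5, 8, 20)⟩,
  ⟨⟨3, -42, -59, 43, -38, 16, 16, 11, -17⟩, (39, 42, 20)⟩,
  ⟨⟨0, 0, 0, 0, 0, 0, 0, 0, 0⟩, (0, 0, 0)⟩,
  ⟨⟨0, 0, 0, 0, 0, 0, 0, 0, 0⟩, (0, 0, 0)⟩,
  ⟨⟨0, 0, 0, 0, 0, 0, 0, 0, 0⟩, (0, 0, 0)⟩,
  ⟨⟨0, 0, 0, 0, 0, 0, 0, 0, 0⟩, (0, 0, 0)⟩,
  ⟨⟨0, 0, 0, 0, 0, 0, 0, 0, 0⟩, (0, 0, 0)⟩,
  ⟨⟨-13, -62, -16, 53, -22, 11, 12, 3, -25⟩, (34, 6, 12)⟩,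
  ⟨⟨0, 0, 0, 0, 0, 0, 0, 0, 0⟩, (0, 0, 0)⟩,
  ⟨⟨0, 0, 0, 0, 0, 0, 0, 0, 0⟩, (0, 0, 0)⟩,
  ⟨⟨0, 0, 0, 0, 0, 0, 0, 0, 0⟩, (0, 0, 0)⟩,
  ⟨⟨17, -22, -76, -63, -18, 19, -4, 19, -7⟩, (15, 8, 2)⟩,
  ⟨⟨0, 0, 0, 0, 0, 0, 0, 0, 0⟩, (0, 0, 0)⟩,
  ⟨⟨0, 0, 0, 0, 0, 0, 0, 0, 0⟩, (0, 0, 0)⟩,
  ⟨⟨3, 42, -59, 43, 38, 16, 16, -11, -17⟩, (38, 12, 46)⟩,
  ⟨⟨0, 0, 0, 0, 0, 0, 0, 0, 0⟩, (0, 0, 0)⟩,
  ⟨⟨-13, 62, -16, 53, 22, 11, 12, -3, -25⟩, (37, 1, 2)⟩,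
  ⟨⟨23, 62, -19, 57, -18, 4, 8, -5, -25⟩, (29, 31, 6)⟩,
  ⟨⟨23, -62, -19, 57, 18, 4, 8, 5, -25⟩, (26, 44, 7)⟩,
  ⟨⟨0, 0, 0, 0, 0, 0, 0, 0, 0⟩, (0, 0, 0)⟩,
  ⟨⟨-17, 22, -59, -63, -18, 44, 4, -19, -11⟩, (10, 26, 17)⟩,
  ⟨⟨0, 0, 0, 0, 0, 0, 0, 0, 0⟩, (0, 0, 0)⟩,
  ⟨⟨0, 0, 0, 0, 0, 0, 0, 0, 0⟩, (0, 0, 0)⟩,
  ⟨⟨0, 0, 0, 0, 0, 0, 0, 0, 0⟩, (0, 0, 0)⟩]

/-- Unit moves. -/
noncomputable def U : List Mv := [mz,
  mz,
  mz,
  mz,
  mz,
  mz,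
  ⟨⟨-1, 0, 1, 0, 1, 0, 0, 0, 1⟩, .nil, (nat_lit 12), (nat_lit 1), (nat_lit 4), (nat_lit 1), (0, 0, 0), [], 5⟩,
  ⟨⟨1, 0, 0, 0, -1, 0, 0, 0, 1⟩, .nil, (nat_lit 12), (nat_lit 3), (nat_lit 12), (nat_lit 1), (0, 0, 0), [], 11⟩,
  ⟨⟨-1, 0, 1, 0, -1, 0, 0, 0, 1⟩, .nil, (nat_lit 0), (nat_lit 3), (nat_lit 1), (nat_lit 0), (0, 0, 0), [], 10⟩,
  ⟨⟨1, 0, 0, 0, -1, 0, 0, 0, 1⟩, .nil, (nat_lit 12), (nat_lit 3), (nat_lit 12), (nat_lit 1), (0, 0, 0), [], 11⟩,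
  ⟨⟨-1, 0, 1, 0, 1, 0, 0, 0, 1⟩, .nil, (nat_lit 12), (nat_lit 1), (nat_lit 4), (nat_lit 1), (0, 0, 0), [], 5⟩,
  ⟨⟨-1, 0, 1, 0, -1, 0, 0, 0, 1⟩, .nil, (nat_lit 0), (nat_lit 3), (nat_lit 1), (nat_lit 0), (0, 0, 0), [], 10⟩,
  ⟨⟨1, 0, 0, 0, -1, 0, 0, 0, 1⟩, .nil, (nat_lit 12), (nat_lit 3), (nat_lit 12), (nat_lit 1), (0, 0, 0), [], 11⟩]

theorem v_ty : tyb Dm S.ty1 Clm = true := by decide +kernel

theorem v_ty0 : tyb D0 (S.tys.getD 0 0) Cl0 = true := by decide +kernel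

theorem v_ty1 : tyb D1 (S.tys.getD 1 0) Cl1 = true := by decide +kernel

theorem v_msc : mscb S D0 [D1] Dm (nat_lit 52) = true := by decide +kernel

theorem v_mv0 : mvsn (nat_lit 13632562957) S D0 [D1] Dm (nat_lit 52) 0 D0 = true := by decide +kernel

theorem v_mv1 : mvsn (nat_lit 13632562957) S D0 [D1] Dm (nat_lit 52) 1 D1 = true := by decide +kernel

theorem v_mm : mmsn (nat_lit 13632562957) S D0 [D1] Dm (nat_lit 52) = true := by decide +kernel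

theorem v_un : unb S D0 (nat_lit 52) U = true := by decide +kernel

theorem v_ok : okb S.oks [(0, 0, 0), (0, 3, 0), (0, 0, 0), (0, 0, 0), (0, 0, 0), (25, 44, 10)] = true := by decide +kernel

theorem v_part : ∀ d < D0.p, (nat_lit 52).testBit d = true → part S (zc (D0 :: [D1])) d = true := by
  intro d hd h
  have h1 : ∀ d < 13, (nat_lit 52).testBit d = true → d = 2 ∨ d = 4 ∨ d = 5 := by decide
  rcases h1 d hd h with rfl | rfl | rfl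
  · exact part_2
  · exact part_4
  · exact part_5

theorem main (n : ℕ) (ho : Odd n) (hr : ¬ Rep n) (h0 : Split 13 n) (h1 : Split 53 n) (hm : Split 47 n) :
    n ∈ EE := by
  refine concln (W := nat_lit 13632562957) (S := S) (P0 := D0) (Pl := [D1]) (Pm := Dm) (cn := nat_lit 52) ?_ Dm_ok v_ty ?_ ?_ v_msc ?_ v_mm v_un v_part v_ok
    n ho hr ?_ hm
  · simp only [List.forall_mem_cons]
    exact ⟨D0_ok, D1_ok, fun _ h => absurd h (by simp)⟩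
  · exact all2 (φ := fun j P => ∃ L, tyb P (S.tys.getD j 0) L = true) ⟨_, v_ty0⟩ ⟨_, v_ty1⟩
  · exact all2 (φ := fun j P => Nat.ble (S.pks.getD j 0) (Nat.pow P.p P.K) = true) (by decide +kernel) (by decide +kernel)
  · exact all2 (φ := fun i P => mvsn (nat_lit 13632562957) S D0 [D1] Dm (nat_lit 52) i P = true) v_mv0 v_mv1
  · simp only [List.forall_mem_cons]
    exact ⟨h0, h1, fun _ h => absurd h (by simp)⟩

end Pool.Agent.Work.MP_9954fe_nt.P13_53_47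

namespace Pool.Agent.Work.MP_9954fe_nt.P17_31

/-- Dummy move. -/
noncomputable def mz : Mv := ⟨⟨0, 0, 0, 0, 0, 0, 0, 0, 0⟩, .nil, (nat_lit 0), (nat_lit 0), (nat_lit 0), (nat_lit 0), (0, 0, 0), [], 0⟩

/-- Moves. -/
noncomputable def t0_3 : List Mv := [
  ⟨⟨13, -12, 0, -10, -13, 0, 10, -4, -17⟩, (.cons (nat_lit 1288035) (nat_lit 377555) (nat_lit 1375922) (nat_lit 1) .nil), (nat_lit 30), (nat_lit 20), (nat_lit 6), (nat_lit 1), (15, 12, 5), [977629], 20⟩,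
  ⟨⟨-3, 8, -17, -10, -13, 0, 10, -4, -17⟩, (.cons (nat_lit 611803) (nat_lit 312230) (nat_lit 1193404) (nat_lit 1) .nil), (nat_lit 12), (nat_lit 19), (nat_lit 15), (nat_lit 1), (7, 12, 5), [6893], 22⟩,
  ⟨⟨13, -12, 0, -10, -13, 0, 10, -4, -17⟩, (.cons (nat_lit 1288035) (nat_lit 377555) (nat_lit 1375922) (nat_lit 1) .nil), (nat_lit 30), (nat_lit 20), (nat_lit 6), (nat_lit 1), (15, 12, 5), [977629], 20⟩,
  ⟨⟨13, -12, 0, -10, -13, 0, 10, -4, -17⟩, (.cons (nat_lit 1288035) (nat_lit 377555) (nat_lit 1375922) (nat_lit 1) .nil), (nat_lit 30), (nat_lit 20), (nat_lit 6), (nat_lit 1), (15, 12, 5), [977629], 20⟩,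
  ⟨⟨13, -12, 0, -10, -13, 0, 10, -4, -17⟩, (.cons (nat_lit 1288035) (nat_lit 377555) (nat_lit 1375922) (nat_lit 1) .nil), (nat_lit 30), (nat_lit 20), (nat_lit 6), (nat_lit 1), (15, 12, 5), [977629], 20⟩,
  ⟨⟨13, -12, 0, -10, -13, 0, 10, -4, -17⟩, (.cons (nat_lit 1288035) (nat_lit 377555) (nat_lit 1375922) (nat_lit 1) .nil), (nat_lit 30), (nat_lit 20), (nat_lit 6), (nat_lit 1), (15, 12, 5), [977629], 20⟩,
  ⟨⟨13, -12, 0, -10, -13, 0, 10, -4, -17⟩, (.cons (nat_lit 1288035) (nat_lit 377555) (nat_lit 1375922) (nat_lit 1) .nil), (nat_lit 30), (nat_lit 20), (nat_lit 6), (nat_lit 1), (15, 12, 5), [977629], 20⟩,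
  ⟨⟨-3, 8, -17, -10, -13, 0, 10, -4, -17⟩, (.cons (nat_lit 611803) (nat_lit 312230) (nat_lit 1193404) (nat_lit 1) .nil), (nat_lit 12), (nat_lit 19), (nat_lit 15), (nat_lit 1), (7, 12, 5), [6893], 22⟩,
  ⟨⟨13, -12, 0, -10, -13, 0, 10, -4, -17⟩, (.cons (nat_lit 1288035) (nat_lit 377555) (nat_lit 1375922) (nat_lit 1) .nil), (nat_lit 30), (nat_lit 20), (nat_lit 6), (nat_lit 1), (15, 12, 5), [977629], 20⟩,
  ⟨⟨13, -12, 0, -10, -13, 0, 10, -4, -17⟩, (.cons (nat_lit 1288035) (nat_lit 377555) (nat_lit 1375922) (nat_lit 1) .nil), (nat_lit 30), (nat_lit 20), (nat_lit 6), (nat_lit 1), (15, 12, 5), [977629], 20⟩,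
  ⟨⟨13, -12, 0, -10, -13, 0, 10, -4, -17⟩, (.cons (nat_lit 1288035) (nat_lit 377555) (nat_lit 1375922) (nat_lit 1) .nil), (nat_lit 30), (nat_lit 20), (nat_lit 6), (nat_lit 1), (15, 12, 5), [977629], 20⟩,
  ⟨⟨13, -12, 0, -10, -13, 0, 10, -4, -17⟩, (.cons (nat_lit 1288035) (nat_lit 377555) (nat_lit 1375922) (nat_lit 1) .nil), (nat_lit 30), (nat_lit 20), (nat_lit 6), (nat_lit 1), (15, 12, 5), [977629], 20⟩,
  ⟨⟨13, -12, 0, 10, 13, 0, 10, -4, -17⟩, (.cons (nat_lit 111434) (nat_lit 285315) (nat_lit 1184750) (nat_lit 1) .nil), (nat_lit 20), (nat_lit 22), (nat_lit 30), (nat_lit 1), (15, 5, 5), [58969], 30⟩,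
  ⟨⟨13, -12, 0, 10, 13, 0, 10, -4, -17⟩, (.cons (nat_lit 111434) (nat_lit 285315) (nat_lit 1184750) (nat_lit 1) .nil), (nat_lit 20), (nat_lit 22), (nat_lit 30), (nat_lit 1), (15, 5, 5), [58969], 30⟩,
  ⟨⟨-3, 8, -17, 10, 13, 0, 10, -4, -17⟩, (.cons (nat_lit 387318) (nat_lit 766308) (nat_lit 89877) (nat_lit 1) .nil), (nat_lit 20), (nat_lit 24), (nat_lit 17), (nat_lit 1), (7, 5, 5), [1346558], 7⟩,
  ⟨⟨13, -12, 0, 10, 13, 0, 10, -4, -17⟩, (.cons (nat_lit 111434) (nat_lit 285315) (nat_lit 1184750) (nat_lit 1) .nil), (nat_lit 20), (nat_lit 22), (nat_lit 30), (nat_lit 1), (15, 5, 5), [58969], 30⟩,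
  ⟨⟨-3, 8, -17, 10, 13, 0, 10, -4, -17⟩, (.cons (nat_lit 387318) (nat_lit 766308) (nat_lit 89877) (nat_lit 1) .nil), (nat_lit 20), (nat_lit 24), (nat_lit 17), (nat_lit 1), (7, 5, 5), [1346558], 7⟩]

/-- Moves. -/
noncomputable def t0_7 : List Mv := [
  ⟨⟨15, -8, -16, 8, 15, -4, 0, 0, -17⟩, (.cons (nat_lit 407727) (nat_lit 45563) (nat_lit 454466) (nat_lit 1) .nil), (nat_lit 1), (nat_lit 15), (nat_lit 1), (nat_lit 1), (7, 6, 0), [652000], 21⟩,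
  ⟨⟨-15, 8, -1, 8, 15, -4, 0, 0, -17⟩, (.cons (nat_lit 1264255) (nat_lit 692909) (nat_lit 383447) (nat_lit 1) .nil), (nat_lit 30), (nat_lit 2), (nat_lit 4), (nat_lit 1), (10, 6, 0), [967771], 2⟩,
  ⟨⟨-15, 8, -1, 8, 15, -4, 0, 0, -17⟩, (.cons (nat_lit 1264255) (nat_lit 692909) (nat_lit 383447) (nat_lit 1) .nil), (nat_lit 30), (nat_lit 2), (nat_lit 4), (nat_lit 1), (10, 6, 0), [967771], 2⟩,
  ⟨⟨15, -8, -16, 8, 15, -4, 0, 0, -17⟩, (.cons (nat_lit 407727) (nat_lit 45563) (nat_lit 454466) (nat_lit 1) .nil), (nat_lit 1), (nat_lit 15), (nat_lit 1), (nat_lit 1), (7, 6, 0), [652000], 21⟩,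
  ⟨⟨15, -8, -16, 8, 15, -4, 0, 0, -17⟩, (.cons (nat_lit 407727) (nat_lit 45563) (nat_lit 454466) (nat_lit 1) .nil), (nat_lit 1), (nat_lit 15), (nat_lit 1), (nat_lit 1), (7, 6, 0), [652000], 21⟩,
  ⟨⟨-15, 8, -1, -8, -15, 4, 0, 0, -17⟩, (.cons (nat_lit 489149) (nat_lit 701204) (nat_lit 187759) (nat_lit 1) .nil), (nat_lit 1), (nat_lit 1), (nat_lit 29), (nat_lit 1), (10, 11, 0), [632362], 11⟩,
  ⟨⟨15, -8, -16, 8, 15, -4, 0, 0, -17⟩, (.cons (nat_lit 407727) (nat_lit 45563) (nat_lit 454466) (nat_lit 1) .nil), (nat_lit 1), (nat_lit 15), (nat_lit 1), (nat_lit 1), (7, 6, 0), [652000], 21⟩,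
  ⟨⟨15, -8, -16, 8, 15, -4, 0, 0, -17⟩, (.cons (nat_lit 407727) (nat_lit 45563) (nat_lit 454466) (nat_lit 1) .nil), (nat_lit 1), (nat_lit 15), (nat_lit 1), (nat_lit 1), (7, 6, 0), [652000], 21⟩,
  ⟨⟨15, -8, -16, 8, 15, -4, 0, 0, -17⟩, (.cons (nat_lit 407727) (nat_lit 45563) (nat_lit 454466) (nat_lit 1) .nil), (nat_lit 1), (nat_lit 15), (nat_lit 1), (nat_lit 1), (7, 6, 0), [652000], 21⟩,
  ⟨⟨15, -8, -16, 8, 15, -4, 0, 0, -17⟩, (.cons (nat_lit 407727) (nat_lit 45563) (nat_lit 454466) (nat_lit 1) .nil), (nat_lit 1), (nat_lit 15), (nat_lit 1), (nat_lit 1), (7, 6, 0), [652000], 21⟩,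
  ⟨⟨15, -8, -16, 8, 15, -4, 0, 0, -17⟩, (.cons (nat_lit 407727) (nat_lit 45563) (nat_lit 454466) (nat_lit 1) .nil), (nat_lit 1), (nat_lit 15), (nat_lit 1), (nat_lit 1), (7, 6, 0), [652000], 21⟩,
  ⟨⟨15, -8, -16, -8, -15, 4, 0, 0, -17⟩, (.cons (nat_lit 684059) (nat_lit 921632) (nat_lit 909072) (nat_lit 1) .nil), (nat_lit 30), (nat_lit 23), (nat_lit 15), (nat_lit 1), (7, 11, 0), [57115], 8⟩,
  ⟨⟨15, -8, -16, -8, -15, 4, 0, 0, -17⟩, (.cons (nat_lit 684059) (nat_lit 921632) (nat_lit 909072) (nat_lit 1) .nil), (nat_lit 30), (nat_lit 23), (nat_lit 15), (nat_lit 1), (7, 11, 0), [57115], 8⟩,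
  ⟨⟨-15, 8, -1, -8, -15, 4, 0, 0, -17⟩, (.cons (nat_lit 489149) (nat_lit 701204) (nat_lit 187759) (nat_lit 1) .nil), (nat_lit 1), (nat_lit 1), (nat_lit 29), (nat_lit 1), (10, 11, 0), [632362], 11⟩,
  ⟨⟨15, -8, -16, 8, 15, -4, 0, 0, -17⟩, (.cons (nat_lit 407727) (nat_lit 45563) (nat_lit 454466) (nat_lit 1) .nil), (nat_lit 1), (nat_lit 15), (nat_lit 1), (nat_lit 1), (7, 6, 0), [652000], 21⟩,
  ⟨⟨15, -8, -16, 8, 15, -4, 0, 0, -17⟩, (.cons (nat_lit 407727) (nat_lit 45563) (nat_lit 454466) (nat_lit 1) .nil), (nat_lit 1), (nat_lit 15), (nat_lit 1), (nat_lit 1), (7, 6, 0), [652000], 21⟩,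
  ⟨⟨15, -8, -16, 8, 15, -4, 0, 0, -17⟩, (.cons (nat_lit 407727) (nat_lit 45563) (nat_lit 454466) (nat_lit 1) .nil), (nat_lit 1), (nat_lit 15), (nat_lit 1), (nat_lit 1), (7, 6, 0), [652000], 21⟩]

/-- Moves. -/
noncomputable def t0_9 : List Mv := [
  ⟨⟨9, -16, -1, 10, 3, -20, -6, -12, -5⟩, (.cons (nat_lit 1229658) (nat_lit 130512) (nat_lit 355573) (nat_lit 1) .nil), (nat_lit 9), (nat_lit 26), (nat_lit 26), (nat_lit 1), (2, 6, 10), [127387], 24⟩,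
  ⟨⟨9, -16, -1, 10, 3, -20, -6, -12, -5⟩, (.cons (nat_lit 1229658) (nat_lit 130512) (nat_lit 355573) (nat_lit 1) .nil), (nat_lit 9), (nat_lit 26), (nat_lit 26), (nat_lit 1), (2, 6, 10), [127387], 24⟩,
  ⟨⟨9, -16, -1, 10, 3, -20, -6, -12, -5⟩, (.cons (nat_lit 1229658) (nat_lit 130512) (nat_lit 355573) (nat_lit 1) .nil), (nat_lit 9), (nat_lit 26), (nat_lit 26), (nat_lit 1), (2, 6, 10), [127387], 24⟩,
  ⟨⟨9, -16, -1, 10, 3, -20, -6, -12, -5⟩, (.cons (nat_lit 1229658) (nat_lit 130512) (nat_lit 355573) (nat_lit 1) .nil), (nat_lit 9), (nat_lit 26), (nat_lit 26), (nat_lit 1), (2, 6, 10), [127387], 24⟩,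
  ⟨⟨-15, 4, -4, -10, -3, 20, -6, -12, -5⟩, (.cons (nat_lit 685139) (nat_lit 1151398) (nat_lit 1170194) (nat_lit 1) .nil), (nat_lit 15), (nat_lit 28), (nat_lit 23), (nat_lit 1), (8, 11, 10), [664350], 29⟩,
  ⟨⟨9, -16, -1, 10, 3, -20, -6, -12, -5⟩, (.cons (nat_lit 1229658) (nat_lit 130512) (nat_lit 355573) (nat_lit 1) .nil), (nat_lit 9), (nat_lit 26), (nat_lit 26), (nat_lit 1), (2, 6, 10), [127387], 24⟩,
  ⟨⟨9, -16, -1, -10, -3, 20, -6, -12, -5⟩, (.cons (nat_lit 1003042) (nat_lit 1107544) (nat_lit 1347758) (nat_lit 1) .nil), (nat_lit 25), (nat_lit 6), (nat_lit 12), (nat_lit 1), (2, 11, 10), [1060218], 7⟩,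
  ⟨⟨9, -16, -1, 10, 3, -20, -6, -12, -5⟩, (.cons (nat_lit 1229658) (nat_lit 130512) (nat_lit 355573) (nat_lit 1) .nil), (nat_lit 9), (nat_lit 26), (nat_lit 26), (nat_lit 1), (2, 6, 10), [127387], 24⟩,
  ⟨⟨9, -16, -1, 10, 3, -20, -6, -12, -5⟩, (.cons (nat_lit 1229658) (nat_lit 130512) (nat_lit 355573) (nat_lit 1) .nil), (nat_lit 9), (nat_lit 26), (nat_lit 26), (nat_lit 1), (2, 6, 10), [127387], 24⟩,
  ⟨⟨9, -16, -1, 10, 3, -20, -6, -12, -5⟩, (.cons (nat_lit 1229658) (nat_lit 130512) (nat_lit 355573) (nat_lit 1) .nil), (nat_lit 9), (nat_lit 26), (nat_lit 26), (nat_lit 1), (2, 6, 10), [127387], 24⟩,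
  ⟨⟨-15, 4, -4, -10, -3, 20, -6, -12, -5⟩, (.cons (nat_lit 685139) (nat_lit 1151398) (nat_lit 1170194) (nat_lit 1) .nil), (nat_lit 15), (nat_lit 28), (nat_lit 23), (nat_lit 1), (8, 11, 10), [664350], 29⟩,
  ⟨⟨-15, 4, -4, 10, 3, -20, -6, -12, -5⟩, (.cons (nat_lit 662699) (nat_lit 1145857) (nat_lit 231397) (nat_lit 1) .nil), (nat_lit 30), (nat_lit 18), (nat_lit 30), (nat_lit 1), (8, 6, 10), [1146221], 10⟩,
  ⟨⟨9, -16, -1, 10, 3, -20, -6, -12, -5⟩, (.cons (nat_lit 1229658) (nat_lit 130512) (nat_lit 355573) (nat_lit 1) .nil), (nat_lit 9), (nat_lit 26), (nat_lit 26), (nat_lit 1), (2, 6, 10), [127387], 24⟩,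
  ⟨⟨9, -16, -1, -10, -3, 20, -6, -12, -5⟩, (.cons (nat_lit 1003042) (nat_lit 1107544) (nat_lit 1347758) (nat_lit 1) .nil), (nat_lit 25), (nat_lit 6), (nat_lit 12), (nat_lit 1), (2, 11, 10), [1060218], 7⟩,
  ⟨⟨9, -16, -1, -10, -3, 20, -6, -12, -5⟩, (.cons (nat_lit 1003042) (nat_lit 1107544) (nat_lit 1347758) (nat_lit 1) .nil), (nat_lit 25), (nat_lit 6), (nat_lit 12), (nat_lit 1), (2, 11, 10), [1060218], 7⟩,
  ⟨⟨9, -16, -1, 10, 3, -20, -6, -12, -5⟩, (.cons (nat_lit 1229658) (nat_lit 130512) (nat_lit 355573) (nat_lit 1) .nil), (nat_lit 9), (nat_lit 26), (nat_lit 26), (nat_lit 1), (2, 6, 10), [127387], 24⟩,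
  ⟨⟨9, -16, -1, 10, 3, -20, -6, -12, -5⟩, (.cons (nat_lit 1229658) (nat_lit 130512) (nat_lit 355573) (nat_lit 1) .nil), (nat_lit 9), (nat_lit 26), (nat_lit 26), (nat_lit 1), (2, 6, 10), [127387], 24⟩]

/-- Moves. -/
noncomputable def t4_3 : List Mv := [
  mz,
  ⟨⟨3, 20, 29, -4, 25, -18, 26, 8, -7⟩, (.cons (nat_lit 1116053) (nat_lit 27241) (nat_lit 244992) (nat_lit 1) .nil), (nat_lit 6), (nat_lit 0), (nat_lit 0), (nat_lit 0), (26, 17, 29), [754687], 0⟩,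
  ⟨⟨3, -20, 29, -4, -25, -18, 26, -8, -7⟩, (.cons (nat_lit 680802) (nat_lit 471374) (nat_lit 192962) (nat_lit 1) .nil), (nat_lit 6), (nat_lit 0), (nat_lit 0), (nat_lit 0), (19, 16, 20), [1738], 0⟩,
  mz,
  ⟨⟨-33, 8, 17, -4, -15, -28, -6, 24, -11⟩, (.cons (nat_lit 146984) (nat_lit 1284583) (nat_lit 470957) (nat_lit 1) .nil), (nat_lit 27), (nat_lit 0), (nat_lit 0), (nat_lit 0), (23, 15, 7), [122887], 0⟩,
  mz,
  ⟨⟨21, -4, -40, 16, 25, 2, 22, -16, -5⟩, (.cons (nat_lit 104732) (nat_lit 1050818) (nat_lit 1227936) (nat_lit 1) .nil), (nat_lit 23), (nat_lit 0), (nat_lit 0), (nat_lit 0), (21, 16, 22), [1225294], 0⟩,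
  mz,
  ⟨⟨-31, 0, 0, 10, 19, -30, -4, -20, -19⟩, (.cons (nat_lit 1419856) (nat_lit 1000498) (nat_lit 431656) (nat_lit 1) .nil), (nat_lit 8), (nat_lit 0), (nat_lit 0), (nat_lit 0), (0, 5, 29), [710624], 0⟩,
  mz,
  mz,
  mz,
  mz,
  ⟨⟨-31, 0, 0, 10, -19, -30, -4, 20, -19⟩, (.cons (nat_lit 1212137) (nat_lit 18848) (nat_lit 1) (nat_lit 139961) .nil), (nat_lit 8), (nat_lit 0), (nat_lit 0), (nat_lit 0), (0, 3, 5), [20058], 0⟩,
  ⟨⟨27, -16, -28, -4, 15, -28, -6, -24, -11⟩, (.cons (nat_lit 1419856) (nat_lit 907045) (nat_lit 1271347) (nat_lit 1) .nil), (nat_lit 14), (nat_lit 0), (nat_lit 0), (nat_lit 0), (28, 28, 11), [489146], 0⟩,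
  ⟨⟨3, 20, -32, 4, -25, -22, 26, 8, -19⟩, (.cons (nat_lit 1307094) (nat_lit 880313) (nat_lit 619099) (nat_lit 1) .nil), (nat_lit 26), (nat_lit 0), (nat_lit 0), (nat_lit 0), (10, 3, 4), [965551], 0⟩,
  mz,
  mz,
  ⟨⟨21, -4, 19, 16, 25, -18, 22, -16, -17⟩, (.cons (nat_lit 1303869) (nat_lit 287103) (nat_lit 1210331) (nat_lit 1) .nil), (nat_lit 23), (nat_lit 0), (nat_lit 0), (nat_lit 0), (7, 26, 28), [643055], 0⟩,
  ⟨⟨29, -12, 0, 10, 29, 0, 20, -4, -31⟩, (.cons (nat_lit 1357829) (nat_lit 571771) (nat_lit 97522) (nat_lit 1) .nil), (nat_lit 24), (nat_lit 0), (nat_lit 0), (nat_lit 0), (28, 15, 30), [309965], 0⟩,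
  ⟨⟨9, 8, -40, 10, -29, -10, -20, -4, -11⟩, (.cons (nat_lit 1419856) (nat_lit 1336551) (nat_lit 24718) (nat_lit 1) .nil), (nat_lit 20), (nat_lit 0), (nat_lit 0), (nat_lit 0), (27, 30, 2), [1377768], 0⟩,
  ⟨⟨33, 8, -16, 4, -15, -32, 6, 24, -17⟩, (.cons (nat_lit 1238793) (nat_lit 1347881) (nat_lit 414305) (nat_lit 1) .nil), (nat_lit 27), (nat_lit 0), (nat_lit 0), (nat_lit 0), (1, 2, 3), [1385819], 0⟩,
  ⟨⟨9, -8, -40, 10, 29, -10, -20, 4, -11⟩, (.cons (nat_lit 899477) (nat_lit 553414) (nat_lit 873731) (nat_lit 1) .nil), (nat_lit 20), (nat_lit 0), (nat_lit 0), (nat_lit 0), (18, 20, 22), [816451], 0⟩,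
  ⟨⟨3, -20, -32, -4, -25, 22, 26, -8, -19⟩, (.cons (nat_lit 642916) (nat_lit 133310) (nat_lit 668622) (nat_lit 1) .nil), (nat_lit 6), (nat_lit 0), (nat_lit 0), (nat_lit 0), (3, 27, 26), [20319], 0⟩,
  ⟨⟨29, 12, 0, -10, 29, 0, 20, 4, -31⟩, (.cons (nat_lit 701665) (nat_lit 255491) (nat_lit 814128) (nat_lit 1) .nil), (nat_lit 19), (nat_lit 0), (nat_lit 0), (nat_lit 0), (26, 6, 19), [1382007], 0⟩,
  ⟨⟨31, 0, -31, -10, 19, -20, 4, -20, -23⟩, (.cons (nat_lit 812288) (nat_lit 801570) (nat_lit 521883) (nat_lit 1) .nil), (nat_lit 8), (nat_lit 0), (nat_lit 0), (nat_lit 0), (0, 22, 16), [1035877], 0⟩,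
  ⟨⟨21, 4, -40, -16, 25, -2, 22, 16, -5⟩, (.cons (nat_lit 1120393) (nat_lit 42756) (nat_lit 35161) (nat_lit 1) .nil), (nat_lit 15), (nat_lit 0), (nat_lit 0), (nat_lit 0), (10, 16, 9), [966730], 0⟩,
  ⟨⟨33, -8, -16, 4, 15, -32, 6, -24, -17⟩, (.cons (nat_lit 1419856) (nat_lit 1406671) (nat_lit 976113) (nat_lit 1) .nil), (nat_lit 27), (nat_lit 0), (nat_lit 0), (nat_lit 0), (23, 15, 7), [728185], 0⟩,
  ⟨⟨1, 12, -36, -16, 25, 18, 22, 16, -17⟩, (.cons (nat_lit 945795) (nat_lit 484528) (nat_lit 1206905) (nat_lit 1) .nil), (nat_lit 2), (nat_lit 0), (nat_lit 0), (nat_lit 0), (19, 6, 15), [1395523], 0⟩,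
  ⟨⟨-27, 20, 8, 10, 19, 20, 4, 20, -23⟩, (.cons (nat_lit 1419856) (nat_lit 694145) (nat_lit 402737) (nat_lit 1) .nil), (nat_lit 29), (nat_lit 0), (nat_lit 0), (nat_lit 0), (23, 11, 23), [438777], 0⟩]

/-- Moves. -/
noncomputable def t4_7 : List Mv := [
  mz,
  ⟨⟨23, -12, -36, -4, 25, -18, 26, 8, -7⟩, (.cons (nat_lit 1219265) (nat_lit 987149) (nat_lit 111546) (nat_lit 1) .nil), (nat_lit 28), (nat_lit 0), (nat_lit 0), (nat_lit 0), (3, 17, 29), [840658], 0⟩,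
  ⟨⟨3, -20, 29, -4, -25, -18, 26, -8, -7⟩, (.cons (nat_lit 680802) (nat_lit 471374) (nat_lit 192962) (nat_lit 1) .nil), (nat_lit 6), (nat_lit 0), (nat_lit 0), (nat_lit 0), (19, 16, 20), [1738], 0⟩,
  mz,
  ⟨⟨27, 16, -28, -4, -15, -28, -6, 24, -11⟩, (.cons (nat_lit 1184954) (nat_lit 385165) (nat_lit 25450) (nat_lit 1) .nil), (nat_lit 14), (nat_lit 0), (nat_lit 0), (nat_lit 0), (15, 15, 7), [265825], 0⟩,
  mz,
  ⟨⟨1, -12, 35, -16, -25, -2, 22, -16, -5⟩, (.cons (nat_lit 222315) (nat_lit 454932) (nat_lit 1212368) (nat_lit 1) .nil), (nat_lit 2), (nat_lit 0), (nat_lit 0), (nat_lit 0), (1, 15, 22), [100512], 0⟩,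
  mz,
  ⟨⟨-31, 0, 0, -10, -19, 30, -4, -20, -19⟩, (.cons (nat_lit 1065186) (nat_lit 1378407) (nat_lit 468412) (nat_lit 1) .nil), (nat_lit 13), (nat_lit 0), (nat_lit 0), (nat_lit 0), (0, 26, 29), [957844], 0⟩,
  mz,
  mz,
  mz,
  mz,
  ⟨⟨-31, 0, 0, -10, 19, 30, -4, 20, -19⟩, (.cons (nat_lit 1419856) (nat_lit 147306) (nat_lit 1202498) (nat_lit 1) .nil), (nat_lit 13), (nat_lit 0), (nat_lit 0), (nat_lit 0), (0, 28, 5), [176166], 0⟩,
  ⟨⟨27, -16, -28, -4, 15, -28, -6, -24, -11⟩, (.cons (nat_lit 1419856) (nat_lit 907045) (nat_lit 1271347) (nat_lit 1) .nil), (nat_lit 14), (nat_lit 0), (nat_lit 0), (nat_lit 0), (28, 28, 11), [489146], 0⟩,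
  ⟨⟨23, -12, 13, -4, 25, 22, 26, 8, -19⟩, (.cons (nat_lit 781531) (nat_lit 1089359) (nat_lit 1217590) (nat_lit 1) .nil), (nat_lit 28), (nat_lit 0), (nat_lit 0), (nat_lit 0), (25, 28, 4), [1389700], 0⟩,
  mz,
  mz,
  ⟨⟨1, -12, -36, 16, 25, -18, 22, -16, -17⟩, (.cons (nat_lit 107424) (nat_lit 333941) (nat_lit 89014) (nat_lit 1) .nil), (nat_lit 1), (nat_lit 0), (nat_lit 0), (nat_lit 0), (21, 26, 28), [953893], 0⟩,
  ⟨⟨-9, 8, -31, -10, -29, 0, 20, -4, -31⟩, (.cons (nat_lit 1176177) (nat_lit 757173) (nat_lit 970046) (nat_lit 1) .nil), (nat_lit 20), (nat_lit 0), (nat_lit 0), (nat_lit 0), (2, 16, 30), [1026252], 0⟩,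
  ⟨⟨9, 8, -40, 10, -29, -10, -20, -4, -11⟩, (.cons (nat_lit 1419856) (nat_lit 1336551) (nat_lit 24718) (nat_lit 1) .nil), (nat_lit 20), (nat_lit 0), (nat_lit 0), (nat_lit 0), (27, 30, 2), [1377768], 0⟩,
  ⟨⟨33, 8, -16, -4, 15, 32, 6, 24, -17⟩, (.cons (nat_lit 1419856) (nat_lit 88336) (nat_lit 1345980) (nat_lit 1) .nil), (nat_lit 21), (nat_lit 0), (nat_lit 0), (nat_lit 0), (1, 29, 3), [945987], 0⟩,
  ⟨⟨9, -8, -40, 10, 29, -10, -20, 4, -11⟩, (.cons (nat_lit 899477) (nat_lit 553414) (nat_lit 873731) (nat_lit 1) .nil), (nat_lit 20), (nat_lit 0), (nat_lit 0), (nat_lit 0), (18, 20, 22), [816451], 0⟩,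
  ⟨⟨3, -20, -32, 4, 25, -22, 26, -8, -19⟩, (.cons (nat_lit 358955) (nat_lit 1236390) (nat_lit 828118) (nat_lit 1) .nil), (nat_lit 26), (nat_lit 0), (nat_lit 0), (nat_lit 0), (3, 4, 26), [481773], 0⟩,
  ⟨⟨-9, -8, -31, -10, 29, 0, 20, 4, -31⟩, (.cons (nat_lit 163483) (nat_lit 813435) (nat_lit 1) (nat_lit 355436) .nil), (nat_lit 20), (nat_lit 0), (nat_lit 0), (nat_lit 0), (24, 6, 19), [472980], 0⟩,
  ⟨⟨31, 0, -31, 10, -19, 20, 4, -20, -23⟩, (.cons (nat_lit 2479) (nat_lit 1309266) (nat_lit 1023057) (nat_lit 1) .nil), (nat_lit 13), (nat_lit 0), (nat_lit 0), (nat_lit 0), (0, 9, 16), [196464], 0⟩,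
  ⟨⟨21, 4, -40, -16, 25, -2, 22, 16, -5⟩, (.cons (nat_lit 1120393) (nat_lit 42756) (nat_lit 35161) (nat_lit 1) .nil), (nat_lit 15), (nat_lit 0), (nat_lit 0), (nat_lit 0), (10, 16, 9), [966730], 0⟩,
  ⟨⟨33, -8, -16, 4, 15, -32, 6, -24, -17⟩, (.cons (nat_lit 1419856) (nat_lit 1406671) (nat_lit 976113) (nat_lit 1) .nil), (nat_lit 27), (nat_lit 0), (nat_lit 0), (nat_lit 0), (23, 15, 7), [728185], 0⟩,
  ⟨⟨21, 4, 19, -16, 25, 18, 22, 16, -17⟩, (.cons (nat_lit 616595) (nat_lit 1278099) (nat_lit 841556) (nat_lit 1) .nil), (nat_lit 15), (nat_lit 0), (nat_lit 0), (nat_lit 0), (27, 6, 15), [941145], 0⟩,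
  ⟨⟨31, 0, -31, 10, 19, 20, 4, 20, -23⟩, (.cons (nat_lit 1375277) (nat_lit 341326) (nat_lit 207070) (nat_lit 1) .nil), (nat_lit 13), (nat_lit 0), (nat_lit 0), (nat_lit 0), (0, 11, 23), [1389562], 0⟩]

/-- Moves. -/
noncomputable def t4_9 : List Mv := [
  mz,
  ⟨⟨3, 20, 29, -4, 25, -18, 26, 8, -7⟩, (.cons (nat_lit 1116053) (nat_lit 27241) (nat_lit 244992) (nat_lit 1) .nil), (nat_lit 6), (nat_lit 0), (nat_lit 0), (nat_lit 0), (26, 17, 29), [754687], 0⟩,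
  ⟨⟨23, 12, -36, -4, -25, -18, 26, -8, -7⟩, (.cons (nat_lit 1149790) (nat_lit 1002256) (nat_lit 1) (nat_lit 1416321) .nil), (nat_lit 28), (nat_lit 0), (nat_lit 0), (nat_lit 0), (1, 16, 20), [187260], 0⟩,
  mz,
  ⟨⟨27, 16, -28, -4, -15, -28, -6, 24, -11⟩, (.cons (nat_lit 1184954) (nat_lit 385165) (nat_lit 25450) (nat_lit 1) .nil), (nat_lit 14), (nat_lit 0), (nat_lit 0), (nat_lit 0), (15, 15, 7), [265825], 0⟩,
  mz,
  ⟨⟨1, -12, 35, -16, -25, -2, 22, -16, -5⟩, (.cons (nat_lit 222315) (nat_lit 454932) (nat_lit 1212368) (nat_lit 1) .nil), (nat_lit 2), (nat_lit 0), (nat_lit 0), (nat_lit 0), (1, 15, 22), [100512], 0⟩,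
  mz,
  ⟨⟨-31, 0, 0, 10, 19, -30, -4, -20, -19⟩, (.cons (nat_lit 1419856) (nat_lit 1000498) (nat_lit 431656) (nat_lit 1) .nil), (nat_lit 8), (nat_lit 0), (nat_lit 0), (nat_lit 0), (0, 5, 29), [710624], 0⟩,
  mz,
  mz,
  mz,
  mz,
  ⟨⟨-31, 0, 0, -10, 19, 30, -4, 20, -19⟩, (.cons (nat_lit 1419856) (nat_lit 147306) (nat_lit 1202498) (nat_lit 1) .nil), (nat_lit 13), (nat_lit 0), (nat_lit 0), (nat_lit 0), (0, 28, 5), [176166], 0⟩,
  ⟨⟨27, -16, -28, -4, 15, -28, -6, -24, -11⟩, (.cons (nat_lit 1419856) (nat_lit 907045) (nat_lit 1271347) (nat_lit 1) .nil), (nat_lit 14), (nat_lit 0), (nat_lit 0), (nat_lit 0), (28, 28, 11), [489146], 0⟩,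
  ⟨⟨3, 20, -32, 4, -25, -22, 26, 8, -19⟩, (.cons (nat_lit 1307094) (nat_lit 880313) (nat_lit 619099) (nat_lit 1) .nil), (nat_lit 26), (nat_lit 0), (nat_lit 0), (nat_lit 0), (10, 3, 4), [965551], 0⟩,
  mz,
  mz,
  ⟨⟨1, -12, -36, 16, 25, -18, 22, -16, -17⟩, (.cons (nat_lit 107424) (nat_lit 333941) (nat_lit 89014) (nat_lit 1) .nil), (nat_lit 1), (nat_lit 0), (nat_lit 0), (nat_lit 0), (21, 26, 28), [953893], 0⟩,
  ⟨⟨29, -12, 0, -10, -29, 0, 20, -4, -31⟩, (.cons (nat_lit 1419856) (nat_lit 803733) (nat_lit 1189922) (nat_lit 1) .nil), (nat_lit 19), (nat_lit 0), (nat_lit 0), (nat_lit 0), (28, 16, 30), [140247], 0⟩,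
  ⟨⟨9, 8, -40, 10, -29, -10, -20, -4, -11⟩, (.cons (nat_lit 1419856) (nat_lit 1336551) (nat_lit 24718) (nat_lit 1) .nil), (nat_lit 20), (nat_lit 0), (nat_lit 0), (nat_lit 0), (27, 30, 2), [1377768], 0⟩,
  ⟨⟨33, 8, -16, 4, -15, -32, 6, 24, -17⟩, (.cons (nat_lit 1238793) (nat_lit 1347881) (nat_lit 414305) (nat_lit 1) .nil), (nat_lit 27), (nat_lit 0), (nat_lit 0), (nat_lit 0), (1, 2, 3), [1385819], 0⟩,
  ⟨⟨9, -8, -40, 10, 29, -10, -20, 4, -11⟩, (.cons (nat_lit 899477) (nat_lit 553414) (nat_lit 873731) (nat_lit 1) .nil), (nat_lit 20), (nat_lit 0), (nat_lit 0), (nat_lit 0), (18, 20, 22), [816451], 0⟩,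
  ⟨⟨23, 12, 13, 4, 25, -22, 26, -8, -19⟩, (.cons (nat_lit 929821) (nat_lit 15292) (nat_lit 256162) (nat_lit 1) .nil), (nat_lit 18), (nat_lit 0), (nat_lit 0), (nat_lit 0), (23, 4, 26), [411188], 0⟩,
  ⟨⟨-9, -8, -31, -10, 29, 0, 20, 4, -31⟩, (.cons (nat_lit 163483) (nat_lit 813435) (nat_lit 1) (nat_lit 355436) .nil), (nat_lit 20), (nat_lit 0), (nat_lit 0), (nat_lit 0), (24, 6, 19), [472980], 0⟩,
  ⟨⟨31, 0, -31, -10, 19, -20, 4, -20, -23⟩, (.cons (nat_lit 812288) (nat_lit 801570) (nat_lit 521883) (nat_lit 1) .nil), (nat_lit 8), (nat_lit 0), (nat_lit 0), (nat_lit 0), (0, 22, 16), [1035877], 0⟩,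
  ⟨⟨1, 12, 35, -16, 25, -2, 22, 16, -5⟩, (.cons (nat_lit 642904) (nat_lit 906117) (nat_lit 386093) (nat_lit 1) .nil), (nat_lit 2), (nat_lit 0), (nat_lit 0), (nat_lit 0), (30, 16, 9), [1193462], 0⟩,
  ⟨⟨-27, -16, -1, -4, -15, 32, 6, -24, -17⟩, (.cons (nat_lit 386929) (nat_lit 1244955) (nat_lit 366041) (nat_lit 1) .nil), (nat_lit 4), (nat_lit 0), (nat_lit 0), (nat_lit 0), (15, 16, 7), [887645], 0⟩,
  ⟨⟨1, 12, -36, 16, -25, -18, 22, 16, -17⟩, (.cons (nat_lit 413948) (nat_lit 810920) (nat_lit 925889) (nat_lit 1) .nil), (nat_lit 1), (nat_lit 0), (nat_lit 0), (nat_lit 0), (19, 25, 15), [405724], 0⟩,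
  ⟨⟨31, 0, -31, -10, -19, -20, 4, 20, -23⟩, (.cons (nat_lit 1101756) (nat_lit 1361018) (nat_lit 925785) (nat_lit 1) .nil), (nat_lit 8), (nat_lit 0), (nat_lit 0), (nat_lit 0), (0, 20, 23), [60262], 0⟩]

/-- All the moves. -/
noncomputable def tabs : List (List (List Mv)) := [[[], [], [], t0_3, [], [], [], t0_7, [], t0_9], [], [], [], [[], [], [], t4_3, [], [], [], t4_7, [], t4_9]]

/-- Subtrie. -/
noncomputable def T3 : Tr := (.ev (nat_lit 20) (nat_lit 175128838) (.nd (nat_lit 32) (.br (nat_lit 12) (.br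
 (nat_lit 3) (.br (nat_lit 2) (.ch (nat_lit 1) (.ev (nat_lit 48) (nat_lit 17571904) (.nd (nat_lit 720) (.br
 (nat_lit 8) (.br (nat_lit 5) (.br (nat_lit 4) (.ch (nat_lit 0) (.ev (nat_lit 736) (nat_lit 343932944) (.ev
 (nat_lit 1284) (nat_lit 536870912) (.ev (nat_lit 1293) (nat_lit 32768) .dd)))) (.ch (nat_lit 4) (.ev (nat_lit
 736) (nat_lit 276856832) (.nd (nat_lit 1120) (.br (nat_lit 12) (.br (nat_lit 11) (.ch (nat_lit 5) (.ev
 (nat_lit 1136) (nat_lit 603979792) .dd)) (.ch (nat_lit 11) (.ev (nat_lit 1520) (nat_lit 67108864) (.ev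
 (nat_lit 1748) (nat_lit 16) (.ev (nat_lit 1757) (nat_lit 536870912) .dd))))) (.br (nat_lit 13) (.ch (nat_lit
 12) (.ev (nat_lit 1136) (nat_lit 67108864) (.ev (nat_lit 1748) (nat_lit 16) (.ev (nat_lit 1757) (nat_lit
 536870912) .dd)))) (.br (nat_lit 14) (.ch (nat_lit 13) (.ev (nat_lit 1136) (nat_lit 16) (.fin (nat_lit
 576478894237368940)))) (.ch (nat_lit 14) (.ev (nat_lit 1136) (nat_lit 603979776) (.ev (nat_lit 1149) (nat_lit
 16) .dd)))))))))) (.br (nat_lit 6) (.ch (nat_lit 5) (.ev (nat_lit 736) (nat_lit 335544320) (.ev (nat_lit 756)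
 (nat_lit 536870912) (.ev (nat_lit 964) (nat_lit 16) (.nd (nat_lit 2240) (.br (nat_lit 7) (.ch (nat_lit 6) (.ev
 (nat_lit 2256) (nat_lit 32768) (.ev (nat_lit 2269) (nat_lit 8388608) .dd))) (.br (nat_lit 15) (.ch (nat_lit 7)
 (.fin (nat_lit 576487690307322440))) (.ch (nat_lit 15) (.ev (nat_lit 2256) (nat_lit 8388608) (.ev (nat_lit
 2269) (nat_lit 32768) .dd)))))))))) (.ch (nat_lit 6) (.ev (nat_lit 736) (nat_lit 872415232) (.nd (nat_lit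
 1056) (.br (nat_lit 9) (.br (nat_lit 4) (.ch (nat_lit 3) (.ev (nat_lit 1072) (nat_lit 8421392) .dd)) (.br
 (nat_lit 5) (.ch (nat_lit 4) (.ev (nat_lit 1072) (nat_lit 8421392) .dd)) (.ch (nat_lit 5) (.ev (nat_lit 1072)
 (nat_lit 8388608) (.ev (nat_lit 1748) (nat_lit 32768) (.ev (nat_lit 1757) (nat_lit 16) .dd)))))) (.br (nat_lit
 15) (.br (nat_lit 14) (.ch (nat_lit 9) (.ev (nat_lit 1072) (nat_lit 8388624) (.ev (nat_lit 1085) (nat_lit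
 32768) .dd))) (.ch (nat_lit 14) (.ev (nat_lit 1072) (nat_lit 8388608) (.ev (nat_lit 2116) (nat_lit 32768) (.ev
 (nat_lit 2125) (nat_lit 16) .dd))))) (.br (nat_lit 16) (.ch (nat_lit 15) (.ev (nat_lit 1072) (nat_lit 32784)
 (.ev (nat_lit 1085) (nat_lit 8388608) .dd))) (.ch (nat_lit 16) (.ev (nat_lit 1072) (nat_lit 32768) (.nd
 (nat_lit 3472) (.br (nat_lit 6) (.ch (nat_lit 1) (.fin (nat_lit 576414022997852797))) (.ch (nat_lit 6) (.ev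
 (nat_lit 3488) (nat_lit 8388608) (.ev (nat_lit 3501) (nat_lit 16) .dd))))))))))))))) (.br (nat_lit 10) (.br
 (nat_lit 9) (.ch (nat_lit 8) (.ev (nat_lit 736) (nat_lit 872448000) (.ev (nat_lit 852) (nat_lit 8388608) (.ev
 (nat_lit 861) (nat_lit 16) .dd)))) (.ch (nat_lit 9) (.ev (nat_lit 736) (nat_lit 8421392) (.ev (nat_lit 980)
 (nat_lit 335544320) (.ev (nat_lit 989) (nat_lit 536870912) .dd))))) (.br (nat_lit 11) (.ch (nat_lit 10) (.ev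
 (nat_lit 736) (nat_lit 536903696) (.nd (nat_lit 2352) (.br (nat_lit 14) (.br (nat_lit 11) (.ch (nat_lit 9)
 (.ev (nat_lit 2368) (nat_lit 268435456) (.fin (nat_lit 576448107926471251)))) (.ch (nat_lit 11) (.ev (nat_lit
 2368) (nat_lit 8388608) (.ev (nat_lit 2436) (nat_lit 67108864) (.ev (nat_lit 2445) (nat_lit 268435456)
 .dd))))) (.br (nat_lit 15) (.ch (nat_lit 14) (.ev (nat_lit 2368) (nat_lit 8388608) (.fin (nat_lit
 576563556652630596)))) (.ch (nat_lit 15) (.ev (nat_lit 2368) (nat_lit 8388608) (.ev (nat_lit 2436) (nat_lit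
 67108864) (.ev (nat_lit 2445) (nat_lit 268435456) .dd))))))))) (.br (nat_lit 12) (.ch (nat_lit 11) (.ev
 (nat_lit 736) (nat_lit 545259536) (.ev (nat_lit 964) (nat_lit 67108864) (.ev (nat_lit 1684) (nat_lit 32768)
 (.ev (nat_lit 1693) (nat_lit 268435456) .dd))))) (.ch (nat_lit 12) (.ev (nat_lit 736) (nat_lit 268468224) (.ev
 (nat_lit 964) (nat_lit 16) (.nd (nat_lit 2384) (.br (nat_lit 10) (.br (nat_lit 4) (.ch (nat_lit 1) (.ev
 (nat_lit 2400) (nat_lit 545259520) (.ev (nat_lit 2413) (nat_lit 67108864) .dd))) (.br (nat_lit 6) (.ch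
 (nat_lit 4) (.ev (nat_lit 2400) (nat_lit 612368384) .dd)) (.ch (nat_lit 6) (.ev (nat_lit 2400) (nat_lit
 8388608) (.ev (nat_lit 2596) (nat_lit 67108864) (.ev (nat_lit 2605) (nat_lit 536870912) .dd)))))) (.br
 (nat_lit 12) (.ch (nat_lit 10) (.ev (nat_lit 2400) (nat_lit 603979776) (.ev (nat_lit 2413) (nat_lit 8388608)
 .dd))) (.br (nat_lit 16) (.ch (nat_lit 12) (.ev (nat_lit 2400) (nat_lit 612368384) .dd)) (.ch (nat_lit 16)
 (.ev (nat_lit 2400) (nat_lit 75497472) (.ev (nat_lit 2413) (nat_lit 536870912) .dd))))))))))))))))) (.ch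
 (nat_lit 2) (.ev (nat_lit 48) (nat_lit 25952336) (.nd (nat_lit 624) (.br (nat_lit 12) (.br (nat_lit 7) (.br
 (nat_lit 4) (.ch (nat_lit 0) (.ev (nat_lit 640) (nat_lit 872415232) (.ev (nat_lit 868) (nat_lit 32768) (.ev
 (nat_lit 877) (nat_lit 8192) .dd)))) (.ch (nat_lit 4) (.ev (nat_lit 640) (nat_lit 268443648) (.ev (nat_lit
 852) (nat_lit 32768) (.nd (nat_lit 2512) (.br (nat_lit 14) (.ch (nat_lit 5) (.ev (nat_lit 2528) (nat_lit
 603979776) .dd)) (.br (nat_lit 16) (.ch (nat_lit 14) (.ev (nat_lit 2612) (nat_lit 536870912) (.ev (nat_lit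
 2621) (nat_lit 67108864) .dd))) (.ch (nat_lit 16) (.ev (nat_lit 2548) (nat_lit 67108864) (.ev (nat_lit 2557)
 (nat_lit 536870912) .dd)))))))))) (.br (nat_lit 11) (.ch (nat_lit 7) (.ev (nat_lit 640) (nat_lit 67141632)
 (.ev (nat_lit 996) (nat_lit 536870912) (.ev (nat_lit 1364) (nat_lit 8192) (.ev (nat_lit 1373) (nat_lit
 268435456) .dd))))) (.ch (nat_lit 11) (.ev (nat_lit 640) (nat_lit 335585280) (.ev (nat_lit 653) (nat_lit
 536870912) .dd))))) (.br (nat_lit 14) (.br (nat_lit 13) (.ch (nat_lit 12) (.ev (nat_lit 640) (nat_lit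
 67108864) (.ev (nat_lit 868) (nat_lit 32768) (.ev (nat_lit 980) (nat_lit 8192) (.nd (nat_lit 2176) (.br
 (nat_lit 8) (.ch (nat_lit 2) (.ev (nat_lit 2192) (nat_lit 805306368) .dd)) (.br (nat_lit 10) (.ch (nat_lit 8)
 (.fin (nat_lit 576448107941151256))) (.ch (nat_lit 10) (.ev (nat_lit 2192) (nat_lit 268435456) (.ev (nat_lit
 2205) (nat_lit 536870912) .dd)))))))))) (.ch (nat_lit 13) (.ev (nat_lit 640) (nat_lit 603987968) (.nd (nat_lit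
 2208) (.br (nat_lit 15) (.ch (nat_lit 11) (.ev (nat_lit 2224) (nat_lit 268435456) (.ev (nat_lit 2237) (nat_lit
 32768) .dd))) (.ch (nat_lit 15) (.fin (nat_lit 576476695212016208)))))))) (.br (nat_lit 15) (.ch (nat_lit 14)
 (.ev (nat_lit 640) (nat_lit 536903680) (.ev (nat_lit 980) (nat_lit 8192) (.ev (nat_lit 1412) (nat_lit
 67108864) (.ev (nat_lit 1421) (nat_lit 268435456) .dd))))) (.br (nat_lit 16) (.ch (nat_lit 15) (.ev (nat_lit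
 640) (nat_lit 805314560) (.ev (nat_lit 1908) (nat_lit 32768) (.ev (nat_lit 1917) (nat_lit 67108864) .dd))))
 (.ch (nat_lit 16) (.ev (nat_lit 640) (nat_lit 268476416) (.ev (nat_lit 1268) (nat_lit 67108864) (.ev (nat_lit
 1277) (nat_lit 536870912) .dd)))))))))))) (.br (nat_lit 7) (.ch (nat_lit 3) (.ev (nat_lit 48) (nat_lit
 814481424) (.nd (nat_lit 528) (.br (nat_lit 6) (.br (nat_lit 4) (.br (nat_lit 3) (.ch (nat_lit 2) (.ev
 (nat_lit 544) (nat_lit 83918848) (.ev (nat_lit 772) (nat_lit 8192) (.ev (nat_lit 781) (nat_lit 64) .dd))))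
 (.ch (nat_lit 3) (.ev (nat_lit 544) (nat_lit 8256) (.ev (nat_lit 2000) (nat_lit 83886080) (.ev (nat_lit 2013)
 (nat_lit 32768) .dd))))) (.br (nat_lit 5) (.ch (nat_lit 4) (.ev (nat_lit 544) (nat_lit 83886080) (.nd (nat_lit
 1008) (.br (nat_lit 14) (.ch (nat_lit 8) (.ev (nat_lit 1364) (nat_lit 32768) (.fin (nat_lit
 576474496180372004)))) (.br (nat_lit 16) (.ch (nat_lit 14) (.ev (nat_lit 1364) (nat_lit 32768) (.ev (nat_lit
 2164) (nat_lit 64) (.ev (nat_lit 2173) (nat_lit 8192) .dd)))) (.ch (nat_lit 16) (.ev (nat_lit 1024) (nat_lit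
 32768) (.ev (nat_lit 1588) (nat_lit 64) (.ev (nat_lit 1597) (nat_lit 8192) .dd))))))))) (.ch (nat_lit 5) (.ev
 (nat_lit 544) (nat_lit 16777280) (.nd (nat_lit 1056) (.br (nat_lit 15) (.br (nat_lit 5) (.ch (nat_lit 0) (.ev
 (nat_lit 1072) (nat_lit 32768) (.ev (nat_lit 1248) (nat_lit 67117056) .dd))) (.ch (nat_lit 5) (.ev (nat_lit
 1572) (nat_lit 67108864) (.ev (nat_lit 2068) (nat_lit 32768) (.ev (nat_lit 2077) (nat_lit 8192) .dd))))) (.br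
 (nat_lit 16) (.ch (nat_lit 15) (.ev (nat_lit 1072) (nat_lit 67108864) (.ev (nat_lit 1392) (nat_lit 40960)
 .dd))) (.ch (nat_lit 16) (.ev (nat_lit 1072) (nat_lit 32768) (.ev (nat_lit 1780) (nat_lit 67108864) (.ev
 (nat_lit 1789) (nat_lit 8192) .dd))))))))))) (.br (nat_lit 12) (.br (nat_lit 7) (.ch (nat_lit 6) (.ev (nat_lit
 544) (nat_lit 16809984) (.ev (nat_lit 1508) (nat_lit 64) (.nd (nat_lit 2512) (.br (nat_lit 13) (.ch (nat_lit
 8) (.ev (nat_lit 2528) (nat_lit 8192) (.ev (nat_lit 2541) (nat_lit 67108864) .dd))) (.ch (nat_lit 13) (.fin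
 (nat_lit 576463501085065772)))))))) (.ch (nat_lit 7) (.ev (nat_lit 544) (nat_lit 16785472) (.ev (nat_lit 564)
 (nat_lit 67108864) (.ev (nat_lit 573) (nat_lit 32768) .dd))))) (.br (nat_lit 14) (.ch (nat_lit 12) (.ev
 (nat_lit 544) (nat_lit 67117120) (.ev (nat_lit 2036) (nat_lit 16777216) (.ev (nat_lit 2045) (nat_lit 32768)
 .dd)))) (.br (nat_lit 15) (.ch (nat_lit 14) (.ev (nat_lit 544) (nat_lit 83927104) .dd)) (.ch (nat_lit 15) (.ev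
 (nat_lit 544) (nat_lit 83918912) (.ev (nat_lit 557) (nat_lit 8192) .dd)))))))))) (.ch (nat_lit 7) (.ev
 (nat_lit 48) (nat_lit 353140816) (.nd (nat_lit 272) (.br (nat_lit 8) (.br (nat_lit 5) (.br (nat_lit 3) (.ch
 (nat_lit 2) (.ev (nat_lit 288) (nat_lit 8396800) (.ev (nat_lit 301) (nat_lit 536870912) .dd))) (.ch (nat_lit
 3) (.ev (nat_lit 288) (nat_lit 545267712) .dd))) (.br (nat_lit 6) (.ch (nat_lit 5) (.nd (nat_lit 1008) (.br
 (nat_lit 9) (.br (nat_lit 6) (.br (nat_lit 5) (.ch (nat_lit 1) (.ev (nat_lit 1024) (nat_lit 536879104) (.ev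
 (nat_lit 1037) (nat_lit 8388608) .dd))) (.ch (nat_lit 5) (.ev (nat_lit 1024) (nat_lit 536870912) (.ev (nat_lit
 1044) (nat_lit 8388608) (.ev (nat_lit 1053) (nat_lit 8192) .dd))))) (.br (nat_lit 7) (.ch (nat_lit 6) (.ev
 (nat_lit 1172) (nat_lit 8388608) (.ev (nat_lit 1460) (nat_lit 536870912) (.ev (nat_lit 1469) (nat_lit 8192)
 .dd)))) (.ch (nat_lit 7) (.ev (nat_lit 1024) (nat_lit 8388608) (.ev (nat_lit 1712) (nat_lit 536870912) (.ev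
 (nat_lit 1725) (nat_lit 8192) .dd)))))) (.br (nat_lit 12) (.br (nat_lit 10) (.ch (nat_lit 9) (.ev (nat_lit
 1024) (nat_lit 8396800) (.ev (nat_lit 1037) (nat_lit 536870912) .dd))) (.ch (nat_lit 10) (.ev (nat_lit 1024)
 (nat_lit 536879104) (.ev (nat_lit 1037) (nat_lit 8388608) .dd)))) (.br (nat_lit 13) (.ch (nat_lit 12) (.ev
 (nat_lit 1024) (nat_lit 545259520) (.ev (nat_lit 1037) (nat_lit 8192) .dd))) (.ch (nat_lit 13) (.ev (nat_lit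
 1024) (nat_lit 8192) (.ev (nat_lit 1588) (nat_lit 536870912) (.ev (nat_lit 1597) (nat_lit 8388608)
 .dd))))))))) (.ch (nat_lit 6) (.ev (nat_lit 288) (nat_lit 545259520) (.ev (nat_lit 301) (nat_lit 8192)
 .dd))))) (.br (nat_lit 12) (.br (nat_lit 10) (.ch (nat_lit 8) (.ev (nat_lit 288) (nat_lit 545259520) (.ev
 (nat_lit 301) (nat_lit 8192) .dd))) (.ch (nat_lit 10) (.ev (nat_lit 964) (nat_lit 8192) (.ev (nat_lit 1188)
 (nat_lit 536870912) (.ev (nat_lit 1197) (nat_lit 8388608) .dd))))) (.br (nat_lit 13) (.ch (nat_lit 12) (.ev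
 (nat_lit 288) (nat_lit 8388608) (.ev (nat_lit 2672) (nat_lit 536870912) (.ev (nat_lit 2685) (nat_lit 8192)
 .dd)))) (.br (nat_lit 16) (.ch (nat_lit 13) (.ev (nat_lit 288) (nat_lit 536879104) (.ev (nat_lit 301) (nat_lit
 8388608) .dd))) (.ch (nat_lit 16) (.ev (nat_lit 288) (nat_lit 8192) (.nd (nat_lit 1056) (.br (nat_lit 15) (.br
 (nat_lit 13) (.ch (nat_lit 2) (.ev (nat_lit 1072) (nat_lit 8388608) (.ev (nat_lit 1085) (nat_lit 536870912)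
 .dd))) (.ch (nat_lit 13) (.ev (nat_lit 1072) (nat_lit 536870912) (.ev (nat_lit 1085) (nat_lit 8388608) .dd))))
 (.br (nat_lit 16) (.ch (nat_lit 15) (.fin (nat_lit 576460202542842433))) (.ch (nat_lit 16) (.ev (nat_lit 1072)
 (nat_lit 536870912) (.ev (nat_lit 1085) (nat_lit 8388608) .dd))))))))))))))))) (.br (nat_lit 14) (.br (nat_lit
 13) (.ch (nat_lit 12) (.ev (nat_lit 48) (nat_lit 537165824) (.nd (nat_lit 64) (.br (nat_lit 9) (.br (nat_lit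
 7) (.br (nat_lit 3) (.ch (nat_lit 1) (.ev (nat_lit 80) (nat_lit 352854016) (.ev (nat_lit 404) (nat_lit 16)
 (.ev (nat_lit 2624) (nat_lit 8388608) (.ev (nat_lit 2637) (nat_lit 64) .dd))))) (.ch (nat_lit 3) (.ev (nat_lit
 80) (nat_lit 352845824) (.ev (nat_lit 404) (nat_lit 16) (.nd (nat_lit 2208) (.br (nat_lit 12) (.br (nat_lit 4)
 (.ch (nat_lit 0) (.ev (nat_lit 2224) (nat_lit 64) (.ev (nat_lit 2416) (nat_lit 8192) (.ev (nat_lit 2429)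
 (nat_lit 8388608) .dd)))) (.ch (nat_lit 4) (.ev (nat_lit 2224) (nat_lit 64) (.ev (nat_lit 2484) (nat_lit 8192)
 (.ev (nat_lit 2493) (nat_lit 8388608) .dd))))) (.br (nat_lit 14) (.ch (nat_lit 12) (.ev (nat_lit 2224)
 (nat_lit 8388672) (.ev (nat_lit 2237) (nat_lit 8192) .dd))) (.br (nat_lit 16) (.ch (nat_lit 14) (.ev (nat_lit
 2224) (nat_lit 8388608) (.ev (nat_lit 2340) (nat_lit 64) (.ev (nat_lit 2349) (nat_lit 8192) .dd)))) (.ch
 (nat_lit 16) (.ev (nat_lit 2224) (nat_lit 8256) (.ev (nat_lit 2237) (nat_lit 8388608) .dd))))))))))) (.br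
 (nat_lit 8) (.ch (nat_lit 7) (.ev (nat_lit 80) (nat_lit 352845888) (.nd (nat_lit 1120) (.br (nat_lit 8) (.br
 (nat_lit 4) (.ch (nat_lit 1) (.ev (nat_lit 1136) (nat_lit 8388624) (.ev (nat_lit 1149) (nat_lit 8192) .dd)))
 (.ch (nat_lit 4) (.ev (nat_lit 1136) (nat_lit 8192) (.ev (nat_lit 2100) (nat_lit 8388608) (.ev (nat_lit 2109)
 (nat_lit 16) .dd))))) (.br (nat_lit 10) (.ch (nat_lit 8) (.ev (nat_lit 1136) (nat_lit 8388624) (.ev (nat_lit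
 1149) (nat_lit 8192) .dd))) (.br (nat_lit 15) (.ch (nat_lit 10) (.ev (nat_lit 1136) (nat_lit 8208) (.ev
 (nat_lit 1149) (nat_lit 8388608) .dd))) (.ch (nat_lit 15) (.ev (nat_lit 1136) (nat_lit 8192) (.fin (nat_lit
 576434913688371805)))))))))) (.ch (nat_lit 8) (.ev (nat_lit 80) (nat_lit 361234512) (.ev (nat_lit 93) (nat_lit
 8192) .dd))))) (.br (nat_lit 13) (.br (nat_lit 11) (.ch (nat_lit 9) (.ev (nat_lit 80) (nat_lit 25174096) (.nd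
 (nat_lit 1008) (.br (nat_lit 9) (.br (nat_lit 5) (.ch (nat_lit 4) (.ev (nat_lit 1024) (nat_lit 67633152) (.ev
 (nat_lit 1037) (nat_lit 268435456) .dd))) (.br (nat_lit 6) (.ch (nat_lit 5) (.ev (nat_lit 1024) (nat_lit
 268435456) (.ev (nat_lit 2036) (nat_lit 524288) (.ev (nat_lit 2045) (nat_lit 67108864) .dd)))) (.ch (nat_lit
 6) (.ev (nat_lit 1024) (nat_lit 524288) (.nd (nat_lit 3344) (.br (nat_lit 16) (.ch (nat_lit 6) (.ev (nat_lit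
 3360) (nat_lit 268435456) (.ev (nat_lit 3373) (nat_lit 67108864) .dd))) (.ch (nat_lit 16) (.fin (nat_lit
 576461302072295899))))))))) (.br (nat_lit 11) (.ch (nat_lit 9) (.ev (nat_lit 1024) (nat_lit 67633152) (.ev
 (nat_lit 1037) (nat_lit 268435456) .dd))) (.br (nat_lit 16) (.ch (nat_lit 11) (.ev (nat_lit 1024) (nat_lit
 335544320) (.ev (nat_lit 1037) (nat_lit 524288) .dd))) (.ch (nat_lit 16) (.ev (nat_lit 1024) (nat_lit
 67633152) (.ev (nat_lit 1037) (nat_lit 268435456) .dd))))))))) (.ch (nat_lit 11) (.ev (nat_lit 80) (nat_lit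
 25698368) (.ev (nat_lit 404) (nat_lit 67108880) (.ev (nat_lit 413) (nat_lit 268435456) .dd))))) (.br (nat_lit
 15) (.ch (nat_lit 13) (.ev (nat_lit 80) (nat_lit 25690128) (.ev (nat_lit 212) (nat_lit 268435456) (.ev
 (nat_lit 404) (nat_lit 67108864) (.nd (nat_lit 1008) (.br (nat_lit 8) (.br (nat_lit 6) (.br (nat_lit 3) (.ch
 (nat_lit 0) (.ev (nat_lit 1024) (nat_lit 64) (.ev (nat_lit 1037) (nat_lit 8192) .dd))) (.ch (nat_lit 3) (.ev
 (nat_lit 1024) (nat_lit 8256) .dd))) (.br (nat_lit 7) (.ch (nat_lit 6) (.ev (nat_lit 1024) (nat_lit 8192) (.ev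
 (nat_lit 1037) (nat_lit 64) .dd))) (.ch (nat_lit 7) (.ev (nat_lit 2320) (nat_lit 8256) .dd)))) (.br (nat_lit
 12) (.br (nat_lit 10) (.ch (nat_lit 8) (.nd (nat_lit 3280) (.br (nat_lit 15) (.ch (nat_lit 10) (.fin (nat_lit
 576484391794459213))) (.ch (nat_lit 15) (.ev (nat_lit 3296) (nat_lit 8256) .dd))))) (.ch (nat_lit 10) (.ev
 (nat_lit 1024) (nat_lit 64) (.ev (nat_lit 1037) (nat_lit 8192) .dd)))) (.br (nat_lit 13) (.ch (nat_lit 12)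
 (.ev (nat_lit 1024) (nat_lit 8192) (.ev (nat_lit 1037) (nat_lit 64) .dd))) (.ch (nat_lit 13) (.ev (nat_lit
 1024) (nat_lit 8192) (.ev (nat_lit 1037) (nat_lit 64) .dd))))))))))) (.br (nat_lit 16) (.ch (nat_lit 15) (.ev
 (nat_lit 80) (nat_lit 67108928) (.ev (nat_lit 164) (nat_lit 8388608) (.ev (nat_lit 404) (nat_lit 16) (.nd
 (nat_lit 1808) (.br (nat_lit 11) (.br (nat_lit 6) (.ch (nat_lit 3) (.ev (nat_lit 1824) (nat_lit 17309696) (.ev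
 (nat_lit 1837) (nat_lit 268435456) .dd))) (.br (nat_lit 10) (.ch (nat_lit 6) (.ev (nat_lit 1824) (nat_lit
 17301504) (.ev (nat_lit 1860) (nat_lit 268435456) (.ev (nat_lit 1869) (nat_lit 8192) .dd)))) (.ch (nat_lit 10)
 (.ev (nat_lit 1824) (nat_lit 17301504) (.ev (nat_lit 1844) (nat_lit 268435456) (.ev (nat_lit 1853) (nat_lit
 8192) .dd)))))) (.br (nat_lit 15) (.br (nat_lit 14) (.ch (nat_lit 11) (.ev (nat_lit 1824) (nat_lit 285220864)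
 (.ev (nat_lit 1837) (nat_lit 524288) .dd))) (.ch (nat_lit 14) (.ev (nat_lit 1824) (nat_lit 532480) (.ev
 (nat_lit 1844) (nat_lit 16777216) (.ev (nat_lit 1853) (nat_lit 268435456) .dd))))) (.br (nat_lit 16) (.ch
 (nat_lit 15) (.ev (nat_lit 1824) (nat_lit 285736960) (.ev (nat_lit 1837) (nat_lit 8192) .dd))) (.ch (nat_lit
 16) (.ev (nat_lit 1824) (nat_lit 268443648) (.fin (nat_lit 576462401572389440)))))))))))) (.ch (nat_lit 16)
 (.ev (nat_lit 80) (nat_lit 67641360) (.ev (nat_lit 708) (nat_lit 268435456) (.nd (nat_lit 1056) (.br (nat_lit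
 4) (.br (nat_lit 3) (.ch (nat_lit 1) (.ev (nat_lit 1072) (nat_lit 16777216) (.ev (nat_lit 1620) (nat_lit 64)
 (.ev (nat_lit 1629) (nat_lit 8388608) .dd)))) (.ch (nat_lit 3) (.ev (nat_lit 1072) (nat_lit 25165824) (.ev
 (nat_lit 1085) (nat_lit 64) .dd)))) (.br (nat_lit 5) (.ch (nat_lit 4) (.ev (nat_lit 1072) (nat_lit 8388608)
 (.ev (nat_lit 1092) (nat_lit 16777216) (.ev (nat_lit 1101) (nat_lit 64) .dd)))) (.br (nat_lit 16) (.ch
 (nat_lit 5) (.ev (nat_lit 1092) (nat_lit 8388608) (.ev (nat_lit 2016) (nat_lit 16777280) .dd))) (.ch (nat_lit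
 16) (.ev (nat_lit 1072) (nat_lit 16777280) (.ev (nat_lit 1085) (nat_lit 8388608) .dd))))))))))))))))) (.ch
 (nat_lit 13) (.ev (nat_lit 48) (nat_lit 352854016) (.nd (nat_lit 96) (.br (nat_lit 7) (.br (nat_lit 5) (.br
 (nat_lit 4) (.ch (nat_lit 1) (.ev (nat_lit 112) (nat_lit 8421440) (.ev (nat_lit 212) (nat_lit 16) (.nd
 (nat_lit 1120) (.br (nat_lit 13) (.br (nat_lit 9) (.ch (nat_lit 8) (.ev (nat_lit 1136) (nat_lit 536870912)
 (.ev (nat_lit 1149) (nat_lit 262144) .dd))) (.ch (nat_lit 9) (.ev (nat_lit 1572) (nat_lit 262144) (.ev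
 (nat_lit 1581) (nat_lit 536870912) .dd)))) (.br (nat_lit 15) (.ch (nat_lit 13) (.ev (nat_lit 1136) (nat_lit
 262144) (.ev (nat_lit 1149) (nat_lit 536870912) .dd))) (.br (nat_lit 16) (.ch (nat_lit 15) (.ev (nat_lit 1732)
 (nat_lit 536870912) (.ev (nat_lit 1741) (nat_lit 262144) .dd))) (.ch (nat_lit 16) (.ev (nat_lit 1440) (nat_lit
 262144) (.ev (nat_lit 1453) (nat_lit 536870912) .dd)))))))))) (.ch (nat_lit 4) (.ev (nat_lit 112) (nat_lit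
 8421456) (.ev (nat_lit 308) (nat_lit 536870912) (.ev (nat_lit 317) (nat_lit 262144) .dd))))) (.br (nat_lit 6)
 (.ch (nat_lit 5) (.ev (nat_lit 112) (nat_lit 545521728) (.nd (nat_lit 1808) (.br (nat_lit 6) (.br (nat_lit 4)
 (.ch (nat_lit 1) (.ev (nat_lit 1824) (nat_lit 32768) (.ev (nat_lit 1837) (nat_lit 16) .dd))) (.ch (nat_lit 4)
 (.ev (nat_lit 1824) (nat_lit 32784) .dd))) (.br (nat_lit 7) (.ch (nat_lit 6) (.ev (nat_lit 1824) (nat_lit 16)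
 (.ev (nat_lit 1837) (nat_lit 32768) .dd))) (.br (nat_lit 14) (.ch (nat_lit 7) (.ev (nat_lit 1824) (nat_lit
 32768) (.ev (nat_lit 1837) (nat_lit 16) .dd))) (.ch (nat_lit 14) (.fin (nat_lit 576448107936956981)))))))))
 (.ch (nat_lit 6) (.ev (nat_lit 112) (nat_lit 537165824) (.nd (nat_lit 1008) (.br (nat_lit 7) (.br (nat_lit 4)
 (.br (nat_lit 2) (.ch (nat_lit 0) (.ev (nat_lit 1024) (nat_lit 16) (.ev (nat_lit 1604) (nat_lit 64) (.ev
 (nat_lit 1613) (nat_lit 8388608) .dd)))) (.ch (nat_lit 2) (.ev (nat_lit 1024) (nat_lit 8388624) (.ev (nat_lit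
 1037) (nat_lit 64) .dd)))) (.br (nat_lit 5) (.ch (nat_lit 4) (.ev (nat_lit 1024) (nat_lit 8388608) (.ev
 (nat_lit 1156) (nat_lit 16) (.ev (nat_lit 1165) (nat_lit 64) .dd)))) (.ch (nat_lit 5) (.ev (nat_lit 1024)
 (nat_lit 80) (.ev (nat_lit 1037) (nat_lit 8388608) .dd))))) (.br (nat_lit 10) (.br (nat_lit 9) (.ch (nat_lit
 7) (.ev (nat_lit 1024) (nat_lit 8388624) (.ev (nat_lit 1037) (nat_lit 64) .dd))) (.ch (nat_lit 9) (.ev
 (nat_lit 1024) (nat_lit 8388608) (.ev (nat_lit 1044) (nat_lit 64) (.ev (nat_lit 1053) (nat_lit 16) .dd)))))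
 (.br (nat_lit 16) (.ch (nat_lit 10) (.ev (nat_lit 1024) (nat_lit 64) (.ev (nat_lit 2036) (nat_lit 8388608)
 (.ev (nat_lit 2045) (nat_lit 16) .dd)))) (.ch (nat_lit 16) (.ev (nat_lit 1024) (nat_lit 64) (.ev (nat_lit
 1108) (nat_lit 8388608) (.ev (nat_lit 1117) (nat_lit 16) .dd)))))))))))) (.br (nat_lit 11) (.br (nat_lit 8)
 (.ch (nat_lit 7) (.ev (nat_lit 112) (nat_lit 16) (.ev (nat_lit 468) (nat_lit 262144) (.nd (nat_lit 1056) (.br
 (nat_lit 8) (.br (nat_lit 5) (.br (nat_lit 2) (.ch (nat_lit 0) (.ev (nat_lit 1072) (nat_lit 536870976) (.ev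
 (nat_lit 1092) (nat_lit 8388608) (.ev (nat_lit 1101) (nat_lit 32768) .dd)))) (.ch (nat_lit 2) (.ev (nat_lit
 1072) (nat_lit 32768) (.ev (nat_lit 2340) (nat_lit 8388608) (.fin (nat_lit 576458003521684027)))))) (.br
 (nat_lit 6) (.ch (nat_lit 5) (.ev (nat_lit 1072) (nat_lit 545292352) .dd)) (.ch (nat_lit 6) (.ev (nat_lit
 1072) (nat_lit 536870976) (.ev (nat_lit 1092) (nat_lit 8388608) (.ev (nat_lit 1101) (nat_lit 32768) .dd))))))
 (.br (nat_lit 14) (.br (nat_lit 13) (.ch (nat_lit 8) (.ev (nat_lit 1072) (nat_lit 536903680) (.ev (nat_lit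
 1092) (nat_lit 64) (.ev (nat_lit 1101) (nat_lit 8388608) .dd)))) (.ch (nat_lit 13) (.ev (nat_lit 1072)
 (nat_lit 536870976) (.fin (nat_lit 576473396688667183))))) (.br (nat_lit 15) (.ch (nat_lit 14) (.ev (nat_lit
 1072) (nat_lit 545259584) (.ev (nat_lit 1085) (nat_lit 32768) .dd))) (.br (nat_lit 16) (.ch (nat_lit 15) (.ev
 (nat_lit 1072) (nat_lit 8421440) (.ev (nat_lit 1085) (nat_lit 536870912) .dd))) (.ch (nat_lit 16) (.ev
 (nat_lit 1072) (nat_lit 545292288) (.ev (nat_lit 1085) (nat_lit 64) .dd))))))))))) (.ch (nat_lit 8) (.ev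
 (nat_lit 112) (nat_lit 545521680) (.ev (nat_lit 1204) (nat_lit 64) (.ev (nat_lit 1213) (nat_lit 32768)
 .dd))))) (.br (nat_lit 13) (.ch (nat_lit 11) (.ev (nat_lit 112) (nat_lit 294992) (.ev (nat_lit 2644) (nat_lit
 8388608) (.ev (nat_lit 2653) (nat_lit 536870912) .dd)))) (.br (nat_lit 16) (.ch (nat_lit 13) (.ev (nat_lit
 112) (nat_lit 8650816) (.ev (nat_lit 708) (nat_lit 16) (.ev (nat_lit 1172) (nat_lit 32768) (.ev (nat_lit 1181)
 (nat_lit 536870912) .dd))))) (.ch (nat_lit 16) (.ev (nat_lit 112) (nat_lit 537133072) (.ev (nat_lit 308)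
 (nat_lit 64) (.nd (nat_lit 2288) (.br (nat_lit 7) (.ch (nat_lit 3) (.ev (nat_lit 2304) (nat_lit 8388608) (.ev
 (nat_lit 2317) (nat_lit 32768) .dd))) (.br (nat_lit 14) (.ch (nat_lit 7) (.ev (nat_lit 2304) (nat_lit 32768)
 (.ev (nat_lit 2317) (nat_lit 8388608) .dd))) (.ch (nat_lit 14) (.ev (nat_lit 2304) (nat_lit 8421376)
 .dd)))))))))))))))) (.br (nat_lit 15) (.ch (nat_lit 14) (.ev (nat_lit 48) (nat_lit 629710864) (.nd (nat_lit
 816) (.br (nat_lit 8) (.br (nat_lit 4) (.br (nat_lit 3) (.ch (nat_lit 0) (.ev (nat_lit 832) (nat_lit 64) (.ev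
 (nat_lit 964) (nat_lit 262144) (.ev (nat_lit 973) (nat_lit 268435456) .dd)))) (.ch (nat_lit 3) (.ev (nat_lit
 832) (nat_lit 268435456) (.ev (nat_lit 2596) (nat_lit 262144) (.ev (nat_lit 2605) (nat_lit 64) .dd))))) (.br
 (nat_lit 7) (.ch (nat_lit 4) (.ev (nat_lit 832) (nat_lit 268435456) (.fin (nat_lit 576563556652630681)))) (.ch
 (nat_lit 7) (.ev (nat_lit 2000) (nat_lit 268435456) (.nd (nat_lit 2880) (.br (nat_lit 16) (.ch (nat_lit 2)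
 (.ev (nat_lit 2896) (nat_lit 262144) (.ev (nat_lit 2909) (nat_lit 64) .dd))) (.ch (nat_lit 16) (.fin (nat_lit
 576461302017770052))))))))) (.br (nat_lit 13) (.br (nat_lit 9) (.ch (nat_lit 8) (.ev (nat_lit 832) (nat_lit
 262208) (.ev (nat_lit 845) (nat_lit 268435456) .dd))) (.ch (nat_lit 9) (.ev (nat_lit 832) (nat_lit 262144)
 (.fin (nat_lit 576485491300844107))))) (.br (nat_lit 15) (.ch (nat_lit 13) (.ev (nat_lit 832) (nat_lit
 268435520) (.ev (nat_lit 845) (nat_lit 262144) .dd))) (.br (nat_lit 16) (.ch (nat_lit 15) (.ev (nat_lit 832)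
 (nat_lit 268697600) (.ev (nat_lit 845) (nat_lit 64) .dd))) (.ch (nat_lit 16) (.ev (nat_lit 832) (nat_lit
 268697664) .dd))))))))) (.br (nat_lit 16) (.ch (nat_lit 15) (.ev (nat_lit 48) (nat_lit 897613824) (.nd
 (nat_lit 128) (.br (nat_lit 6) (.br (nat_lit 3) (.br (nat_lit 2) (.ch (nat_lit 0) (.ev (nat_lit 144) (nat_lit
 794704) .dd)) (.ch (nat_lit 2) (.ev (nat_lit 144) (nat_lit 270400) (.ev (nat_lit 2000) (nat_lit 524304)
 .dd)))) (.br (nat_lit 5) (.ch (nat_lit 3) (.ev (nat_lit 144) (nat_lit 786432) (.nd (nat_lit 1008) (.br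
 (nat_lit 14) (.br (nat_lit 10) (.ch (nat_lit 3) (.ev (nat_lit 1024) (nat_lit 8256) (.ev (nat_lit 1037)
 (nat_lit 16) .dd))) (.ch (nat_lit 10) (.ev (nat_lit 1024) (nat_lit 16) (.ev (nat_lit 1636) (nat_lit 64) (.ev
 (nat_lit 1645) (nat_lit 8192) .dd))))) (.br (nat_lit 15) (.ch (nat_lit 14) (.ev (nat_lit 1024) (nat_lit 8256)
 (.ev (nat_lit 1037) (nat_lit 16) .dd))) (.br (nat_lit 16) (.ch (nat_lit 15) (.ev (nat_lit 1024) (nat_lit 8208)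
 (.ev (nat_lit 1037) (nat_lit 64) .dd))) (.ch (nat_lit 16) (.ev (nat_lit 1024) (nat_lit 8192) (.ev (nat_lit
 1092) (nat_lit 64) (.ev (nat_lit 1101) (nat_lit 16) .dd)))))))))) (.ch (nat_lit 5) (.ev (nat_lit 144) (nat_lit
 8272) (.ev (nat_lit 2036) (nat_lit 524288) (.ev (nat_lit 2045) (nat_lit 262144) .dd)))))) (.br (nat_lit 9)
 (.br (nat_lit 8) (.ch (nat_lit 6) (.ev (nat_lit 144) (nat_lit 794640) (.ev (nat_lit 157) (nat_lit 64) .dd)))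
 (.ch (nat_lit 8) (.ev (nat_lit 144) (nat_lit 786448) (.nd (nat_lit 2240) (.br (nat_lit 4) (.ch (nat_lit 1)
 (.ev (nat_lit 2436) (nat_lit 64) (.ev (nat_lit 2445) (nat_lit 8192) .dd))) (.br (nat_lit 6) (.ch (nat_lit 4)
 (.ev (nat_lit 2276) (nat_lit 64) (.ev (nat_lit 2285) (nat_lit 8192) .dd))) (.ch (nat_lit 6) (.ev (nat_lit
 2500) (nat_lit 64) (.ev (nat_lit 2509) (nat_lit 8192) .dd))))))))) (.br (nat_lit 13) (.ch (nat_lit 9) (.ev
 (nat_lit 144) (nat_lit 532544) (.ev (nat_lit 880) (nat_lit 262144) (.ev (nat_lit 893) (nat_lit 16) .dd))))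
 (.br (nat_lit 14) (.ch (nat_lit 13) (.ev (nat_lit 144) (nat_lit 524304) (.nd (nat_lit 1056) (.br (nat_lit 9)
 (.br (nat_lit 8) (.ch (nat_lit 7) (.ev (nat_lit 1072) (nat_lit 8192) (.ev (nat_lit 1156) (nat_lit 64) (.ev
 (nat_lit 1165) (nat_lit 262144) .dd)))) (.ch (nat_lit 8) (.ev (nat_lit 1072) (nat_lit 262144) (.ev (nat_lit
 2080) (nat_lit 8192) (.ev (nat_lit 2093) (nat_lit 64) .dd))))) (.br (nat_lit 14) (.ch (nat_lit 9) (.ev
 (nat_lit 1072) (nat_lit 8192) (.fin (nat_lit 576393132286362091)))) (.ch (nat_lit 14) (.ev (nat_lit 1072)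
 (nat_lit 64) (.nd (nat_lit 3248) (.br (nat_lit 16) (.ch (nat_lit 7) (.fin (nat_lit 576459103042749011))) (.ch
 (nat_lit 16) (.ev (nat_lit 3264) (nat_lit 262144) (.ev (nat_lit 3277) (nat_lit 8192) .dd)))))))))))) (.ch
 (nat_lit 14) (.ev (nat_lit 144) (nat_lit 794624) (.ev (nat_lit 2644) (nat_lit 64) (.ev (nat_lit 2653) (nat_lit
 16) .dd))))))))))) (.ch (nat_lit 16) (.ev (nat_lit 48) (nat_lit 554475584) (.nd (nat_lit 624) (.br (nat_lit 8)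
 (.br (nat_lit 4) (.br (nat_lit 2) (.ch (nat_lit 0) (.ev (nat_lit 640) (nat_lit 8388608) (.ev (nat_lit 1428)
 (nat_lit 16) (.nd (nat_lit 2816) (.br (nat_lit 8) (.br (nat_lit 4) (.ch (nat_lit 1) (.ev (nat_lit 2832)
 (nat_lit 335544320) .dd)) (.ch (nat_lit 4) (.fin (nat_lit 576529471728206485)))) (.br (nat_lit 14) (.ch
 (nat_lit 8) (.ev (nat_lit 2832) (nat_lit 335544320) .dd)) (.ch (nat_lit 14) (.ev (nat_lit 2832) (nat_lit
 335544320) .dd)))))))) (.ch (nat_lit 2) (.ev (nat_lit 640) (nat_lit 335544320) (.ev (nat_lit 788) (nat_lit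
 8388608) (.ev (nat_lit 797) (nat_lit 16) .dd))))) (.br (nat_lit 7) (.ch (nat_lit 4) (.ev (nat_lit 640)
 (nat_lit 8388624) (.ev (nat_lit 660) (nat_lit 67108864) (.ev (nat_lit 669) (nat_lit 268435456) .dd)))) (.ch
 (nat_lit 7) (.ev (nat_lit 640) (nat_lit 67108864) (.ev (nat_lit 900) (nat_lit 268435456) (.nd (nat_lit 1536)
 (.br (nat_lit 11) (.br (nat_lit 9) (.ch (nat_lit 1) (.ev (nat_lit 1552) (nat_lit 8388608) (.ev (nat_lit 1565)
 (nat_lit 16) .dd))) (.ch (nat_lit 9) (.ev (nat_lit 2148) (nat_lit 16) (.ev (nat_lit 2157) (nat_lit 8388608)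
 .dd)))) (.br (nat_lit 14) (.ch (nat_lit 11) (.fin (nat_lit 576448107890819616))) (.ch (nat_lit 14) (.ev
 (nat_lit 1572) (nat_lit 16) (.ev (nat_lit 1581) (nat_lit 8388608) .dd))))))))))) (.br (nat_lit 12) (.br
 (nat_lit 11) (.ch (nat_lit 8) (.ev (nat_lit 640) (nat_lit 343932944) .dd)) (.ch (nat_lit 11) (.ev (nat_lit
 640) (nat_lit 276824064) (.ev (nat_lit 2708) (nat_lit 67108864) (.ev (nat_lit 2717) (nat_lit 16) .dd))))) (.br
 (nat_lit 14) (.ch (nat_lit 12) (.ev (nat_lit 640) (nat_lit 335544320) (.ev (nat_lit 1492) (nat_lit 16) (.ev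
 (nat_lit 1501) (nat_lit 8388608) .dd)))) (.br (nat_lit 16) (.ch (nat_lit 14) (.ev (nat_lit 640) (nat_lit
 8388624) (.nd (nat_lit 2848) (.br (nat_lit 5) (.ch (nat_lit 4) (.fin (nat_lit 576461302055518782))) (.br
 (nat_lit 6) (.ch (nat_lit 5) (.ev (nat_lit 2864) (nat_lit 335544320) .dd)) (.ch (nat_lit 6) (.ev (nat_lit
 2948) (nat_lit 67108864) (.ev (nat_lit 2957) (nat_lit 268435456) .dd)))))))) (.ch (nat_lit 16) (.ev (nat_lit
 640) (nat_lit 8388624) (.ev (nat_lit 660) (nat_lit 67108864) (.ev (nat_lit 669) (nat_lit 268435456)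
 .dd)))))))))))))))))

/-- Subtrie. -/
noncomputable def T7 : Tr := (.ev (nat_lit 20) (nat_lit 165412948) (.nd (nat_lit 32) (.br (nat_lit 8) (.br
 (nat_lit 2) (.br (nat_lit 1) (.ch (nat_lit 0) (.ev (nat_lit 48) (nat_lit 270540802) (.nd (nat_lit 224) (.br
 (nat_lit 5) (.br (nat_lit 3) (.br (nat_lit 2) (.ch (nat_lit 1) (.ev (nat_lit 240) (nat_lit 536903680) (.ev
 (nat_lit 356) (nat_lit 33554432) (.ev (nat_lit 516) (nat_lit 16384) (.nd (nat_lit 2720) (.br (nat_lit 11) (.br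
 (nat_lit 9) (.ch (nat_lit 0) (.ev (nat_lit 2736) (nat_lit 67109120) .dd)) (.ch (nat_lit 9) (.ev (nat_lit 2736)
 (nat_lit 67109120) .dd))) (.br (nat_lit 15) (.ch (nat_lit 11) (.ev (nat_lit 2736) (nat_lit 67109120) .dd))
 (.ch (nat_lit 15) (.fin (nat_lit 576438212306092595)))))))))) (.ch (nat_lit 2) (.ev (nat_lit 240) (nat_lit
 67108864) (.ev (nat_lit 260) (nat_lit 256) (.ev (nat_lit 356) (nat_lit 33587200) (.ev (nat_lit 1652) (nat_lit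
 536870912) (.ev (nat_lit 1661) (nat_lit 16384) .dd))))))) (.br (nat_lit 4) (.ch (nat_lit 3) (.ev (nat_lit 240)
 (nat_lit 100712448) (.nd (nat_lit 2448) (.br (nat_lit 13) (.br (nat_lit 2) (.ch (nat_lit 0) (.ev (nat_lit
 2484) (nat_lit 256) (.ev (nat_lit 2493) (nat_lit 536870912) .dd))) (.ch (nat_lit 2) (.ev (nat_lit 2464)
 (nat_lit 536870912) (.ev (nat_lit 2477) (nat_lit 256) .dd)))) (.br (nat_lit 14) (.ch (nat_lit 13) (.ev
 (nat_lit 2484) (nat_lit 256) (.ev (nat_lit 2493) (nat_lit 536870912) .dd))) (.ch (nat_lit 14) (.ev (nat_lit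
 2484) (nat_lit 256) (.ev (nat_lit 2493) (nat_lit 536870912) .dd)))))))) (.ch (nat_lit 4) (.ev (nat_lit 240)
 (nat_lit 33587200) (.ev (nat_lit 1780) (nat_lit 16384) (.nd (nat_lit 2992) (.ch (nat_lit 8) (.ev (nat_lit
 3012) (nat_lit 256) (.nd (nat_lit 3408) (.br (nat_lit 6) (.ch (nat_lit 1) (.ev (nat_lit 3424) (nat_lit
 67108864) (.ev (nat_lit 3437) (nat_lit 536870912) .dd))) (.ch (nat_lit 6) (.fin (nat_lit
 576463501078774357))))))))))))) (.br (nat_lit 8) (.br (nat_lit 7) (.ch (nat_lit 5) (.ev (nat_lit 240) (nat_lit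
 604012800) (.ev (nat_lit 1412) (nat_lit 33554432) (.ev (nat_lit 1421) (nat_lit 16384) .dd)))) (.ch (nat_lit 7)
 (.ev (nat_lit 240) (nat_lit 603980032) (.ev (nat_lit 356) (nat_lit 33554432) (.ev (nat_lit 1940) (nat_lit
 32768) (.ev (nat_lit 1949) (nat_lit 16384) .dd)))))) (.br (nat_lit 9) (.ch (nat_lit 8) (.ev (nat_lit 240)
 (nat_lit 570441984) (.ev (nat_lit 1220) (nat_lit 67108864) (.ev (nat_lit 1229) (nat_lit 32768) .dd)))) (.br
 (nat_lit 13) (.ch (nat_lit 9) (.ev (nat_lit 240) (nat_lit 570474496) (.nd (nat_lit 1120) (.br (nat_lit 6) (.br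
 (nat_lit 5) (.ch (nat_lit 4) (.ev (nat_lit 1136) (nat_lit 67109120) .dd)) (.ch (nat_lit 5) (.ev (nat_lit 1156)
 (nat_lit 256) (.ev (nat_lit 1165) (nat_lit 67108864) .dd)))) (.br (nat_lit 7) (.ch (nat_lit 6) (.ev (nat_lit
 1136) (nat_lit 256) (.ev (nat_lit 1149) (nat_lit 67108864) .dd))) (.br (nat_lit 13) (.ch (nat_lit 7) (.ev
 (nat_lit 1156) (nat_lit 256) (.ev (nat_lit 1165) (nat_lit 67108864) .dd))) (.ch (nat_lit 13) (.ev (nat_lit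
 1136) (nat_lit 67109120) .dd)))))))) (.ch (nat_lit 13) (.ev (nat_lit 240) (nat_lit 536887552) (.ev (nat_lit
 2340) (nat_lit 67108864) (.fin (nat_lit 576462401566097983)))))))))))) (.ch (nat_lit 1) (.ev (nat_lit 48)
 (nat_lit 304103426) (.nd (nat_lit 928) (.br (nat_lit 8) (.br (nat_lit 6) (.br (nat_lit 3) (.ch (nat_lit 0)
 (.ev (nat_lit 944) (nat_lit 32768) (.ev (nat_lit 964) (nat_lit 8448) (.nd (nat_lit 2960) (.br (nat_lit 10)
 (.br (nat_lit 9) (.ch (nat_lit 2) (.fin (nat_lit 576443709884154388))) (.ch (nat_lit 9) (.ev (nat_lit 2976)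
 (nat_lit 603979776) .dd))) (.br (nat_lit 16) (.ch (nat_lit 10) (.ev (nat_lit 2976) (nat_lit 67108864) (.ev
 (nat_lit 2989) (nat_lit 536870912) .dd))) (.ch (nat_lit 16) (.ev (nat_lit 2976) (nat_lit 603979776)
 .dd)))))))) (.ch (nat_lit 3) (.ev (nat_lit 944) (nat_lit 67149824) (.ev (nat_lit 964) (nat_lit 256) (.ev
 (nat_lit 973) (nat_lit 536870912) .dd))))) (.br (nat_lit 7) (.ch (nat_lit 6) (.ev (nat_lit 944) (nat_lit
 604020736) (.ev (nat_lit 957) (nat_lit 256) .dd))) (.ch (nat_lit 7) (.ev (nat_lit 964) (nat_lit 32768) (.nd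
 (nat_lit 1536) (.br (nat_lit 11) (.br (nat_lit 8) (.ch (nat_lit 4) (.ev (nat_lit 1552) (nat_lit 536879104)
 (.ev (nat_lit 1732) (nat_lit 256) (.ev (nat_lit 1741) (nat_lit 67108864) .dd)))) (.ch (nat_lit 8) (.ev
 (nat_lit 1552) (nat_lit 67109120) (.ev (nat_lit 1796) (nat_lit 536870912) (.ev (nat_lit 1805) (nat_lit 8192)
 .dd))))) (.br (nat_lit 16) (.ch (nat_lit 11) (.ev (nat_lit 1552) (nat_lit 603979776) (.ev (nat_lit 1572)
 (nat_lit 256) (.ev (nat_lit 1581) (nat_lit 8192) .dd)))) (.ch (nat_lit 16) (.ev (nat_lit 1552) (nat_lit 8448)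
 (.ev (nat_lit 2100) (nat_lit 536870912) (.ev (nat_lit 2109) (nat_lit 67108864) .dd))))))))))) (.br (nat_lit
 13) (.br (nat_lit 9) (.ch (nat_lit 8) (.ev (nat_lit 944) (nat_lit 536879360) (.ev (nat_lit 1668) (nat_lit
 32768) (.ev (nat_lit 1677) (nat_lit 67108864) .dd)))) (.ch (nat_lit 9) (.ev (nat_lit 944) (nat_lit 67117056)
 (.ev (nat_lit 964) (nat_lit 536870912) (.ev (nat_lit 2692) (nat_lit 256) (.ev (nat_lit 2701) (nat_lit 32768)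
 .dd)))))) (.br (nat_lit 14) (.ch (nat_lit 13) (.ev (nat_lit 944) (nat_lit 603988224) (.ev (nat_lit 957)
 (nat_lit 32768) .dd))) (.br (nat_lit 16) (.ch (nat_lit 14) (.ev (nat_lit 944) (nat_lit 67109120) (.ev (nat_lit
 2068) (nat_lit 8192) (.nd (nat_lit 3088) (.br (nat_lit 8) (.ch (nat_lit 5) (.fin (nat_lit
 576459103028068946))) (.ch (nat_lit 8) (.ev (nat_lit 3104) (nat_lit 536870912) (.ev (nat_lit 3117) (nat_lit
 32768) .dd)))))))) (.ch (nat_lit 16) (.ev (nat_lit 944) (nat_lit 536903936) (.ev (nat_lit 1300) (nat_lit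
 67108864) (.ev (nat_lit 1309) (nat_lit 8192) .dd)))))))))))) (.br (nat_lit 5) (.ch (nat_lit 2) (.ev (nat_lit
 48) (nat_lit 905986050) (.nd (nat_lit 928) (.br (nat_lit 5) (.br (nat_lit 3) (.br (nat_lit 2) (.ch (nat_lit 1)
 (.ev (nat_lit 944) (nat_lit 2105344) (.ev (nat_lit 964) (nat_lit 256) (.ev (nat_lit 973) (nat_lit 32768)
 .dd)))) (.ch (nat_lit 2) (.ev (nat_lit 944) (nat_lit 2129920) (.ev (nat_lit 964) (nat_lit 8192) (.ev (nat_lit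
 973) (nat_lit 256) .dd))))) (.br (nat_lit 4) (.ch (nat_lit 3) (.ev (nat_lit 944) (nat_lit 2097152) (.ev
 (nat_lit 964) (nat_lit 8192) (.ev (nat_lit 1332) (nat_lit 32768) (.ev (nat_lit 1341) (nat_lit 256) .dd)))))
 (.ch (nat_lit 4) (.ev (nat_lit 944) (nat_lit 2097408) (.nd (nat_lit 3152) (.br (nat_lit 15) (.ch (nat_lit 9)
 (.nd (nat_lit 3536) (.br (nat_lit 14) (.ch (nat_lit 9) (.ev (nat_lit 3552) (nat_lit 32768) (.ev (nat_lit 3565)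
 (nat_lit 8192) .dd))) (.ch (nat_lit 14) (.fin (nat_lit 576441510856704547)))))) (.ch (nat_lit 15) (.ev
 (nat_lit 3168) (nat_lit 32768) (.ev (nat_lit 3181) (nat_lit 8192) .dd))))))))) (.br (nat_lit 10) (.br (nat_lit
 6) (.ch (nat_lit 5) (.ev (nat_lit 944) (nat_lit 2105344) (.ev (nat_lit 964) (nat_lit 32768) (.ev (nat_lit 973)
 (nat_lit 256) .dd)))) (.ch (nat_lit 6) (.ev (nat_lit 944) (nat_lit 33024) (.ev (nat_lit 1860) (nat_lit
 2097152) (.ev (nat_lit 1869) (nat_lit 8192) .dd))))) (.br (nat_lit 11) (.ch (nat_lit 10) (.ev (nat_lit 944)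
 (nat_lit 2130176) (.ev (nat_lit 957) (nat_lit 8192) .dd))) (.br (nat_lit 13) (.ch (nat_lit 11) (.ev (nat_lit
 944) (nat_lit 2138368) .dd)) (.ch (nat_lit 13) (.ev (nat_lit 944) (nat_lit 8448) (.ev (nat_lit 1844) (nat_lit
 32768) (.ev (nat_lit 1853) (nat_lit 2097152) .dd))))))))))) (.ch (nat_lit 5) (.ev (nat_lit 48) (nat_lit
 606109954) (.nd (nat_lit 480) (.br (nat_lit 6) (.br (nat_lit 3) (.br (nat_lit 1) (.ch (nat_lit 0) (.ev
 (nat_lit 496) (nat_lit 8192) (.ev (nat_lit 1428) (nat_lit 16384) (.nd (nat_lit 3216) (.br (nat_lit 8) (.ch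
 (nat_lit 6) (.ev (nat_lit 3232) (nat_lit 268435456) (.ev (nat_lit 3245) (nat_lit 33554432) .dd))) (.ch
 (nat_lit 8) (.fin (nat_lit 576459103038554666)))))))) (.ch (nat_lit 1) (.ev (nat_lit 496) (nat_lit 301989888)
 (.ev (nat_lit 1760) (nat_lit 8192) (.ev (nat_lit 1773) (nat_lit 16384) .dd))))) (.br (nat_lit 4) (.ch (nat_lit
 3) (.ev (nat_lit 496) (nat_lit 8192) (.ev (nat_lit 1668) (nat_lit 16384) (.ev (nat_lit 1892) (nat_lit
 33554432) (.ev (nat_lit 1901) (nat_lit 268435456) .dd))))) (.ch (nat_lit 4) (.ev (nat_lit 496) (nat_lit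
 301998080) (.ev (nat_lit 509) (nat_lit 16384) .dd))))) (.br (nat_lit 11) (.br (nat_lit 7) (.ch (nat_lit 6)
 (.ev (nat_lit 496) (nat_lit 33570816) (.ev (nat_lit 516) (nat_lit 8192) (.ev (nat_lit 525) (nat_lit 268435456)
 .dd)))) (.ch (nat_lit 7) (.ev (nat_lit 496) (nat_lit 24576) (.ev (nat_lit 612) (nat_lit 33554432) (.ev
 (nat_lit 621) (nat_lit 268435456) .dd))))) (.br (nat_lit 12) (.ch (nat_lit 11) (.ev (nat_lit 496) (nat_lit
 268451840) (.ev (nat_lit 2692) (nat_lit 8192) (.ev (nat_lit 2701) (nat_lit 33554432) .dd)))) (.br (nat_lit 15)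
 (.ch (nat_lit 12) (.ev (nat_lit 496) (nat_lit 33579008) (.ev (nat_lit 509) (nat_lit 268435456) .dd))) (.ch
 (nat_lit 15) (.ev (nat_lit 496) (nat_lit 268443648) (.ev (nat_lit 1956) (nat_lit 16384) (.ev (nat_lit 1965)
 (nat_lit 33554432) .dd))))))))))))) (.br (nat_lit 12) (.br (nat_lit 11) (.ch (nat_lit 8) (.ev (nat_lit 48)
 (nat_lit 805355778) (.nd (nat_lit 816) (.br (nat_lit 10) (.br (nat_lit 5) (.br (nat_lit 4) (.ch (nat_lit 1)
 (.ev (nat_lit 832) (nat_lit 100663296) (.ev (nat_lit 1956) (nat_lit 2097152) (.ev (nat_lit 1965) (nat_lit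
 8192) .dd)))) (.ch (nat_lit 4) (.ev (nat_lit 832) (nat_lit 35659776) (.ev (nat_lit 845) (nat_lit 67108864)
 .dd)))) (.br (nat_lit 9) (.ch (nat_lit 5) (.ev (nat_lit 832) (nat_lit 69206016) (.ev (nat_lit 2692) (nat_lit
 33554432) (.ev (nat_lit 2701) (nat_lit 8192) .dd)))) (.ch (nat_lit 9) (.ev (nat_lit 832) (nat_lit 35651584)
 (.ev (nat_lit 852) (nat_lit 8192) (.ev (nat_lit 861) (nat_lit 67108864) .dd)))))) (.br (nat_lit 13) (.br
 (nat_lit 12) (.ch (nat_lit 10) (.ev (nat_lit 832) (nat_lit 2105344) (.ev (nat_lit 852) (nat_lit 33554432) (.ev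
 (nat_lit 861) (nat_lit 67108864) .dd)))) (.ch (nat_lit 12) (.ev (nat_lit 832) (nat_lit 100671488) (.ev
 (nat_lit 845) (nat_lit 2097152) .dd)))) (.br (nat_lit 15) (.ch (nat_lit 13) (.ev (nat_lit 832) (nat_lit
 33554432) (.ev (nat_lit 1668) (nat_lit 2097152) (.ev (nat_lit 1892) (nat_lit 8192) (.ev (nat_lit 1901)
 (nat_lit 67108864) .dd))))) (.br (nat_lit 16) (.ch (nat_lit 15) (.ev (nat_lit 832) (nat_lit 67117056) (.ev
 (nat_lit 1760) (nat_lit 33554432) (.ev (nat_lit 1773) (nat_lit 2097152) .dd)))) (.ch (nat_lit 16) (.ev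
 (nat_lit 832) (nat_lit 33554432) (.ev (nat_lit 1428) (nat_lit 2097152) (.nd (nat_lit 2752) (.br (nat_lit 9)
 (.ch (nat_lit 7) (.fin (nat_lit 576459103036457556))) (.ch (nat_lit 9) (.ev (nat_lit 2768) (nat_lit 67108864)
 (.ev (nat_lit 2781) (nat_lit 8192) .dd))))))))))))))) (.ch (nat_lit 11) (.ev (nat_lit 48) (nat_lit 337682688)
 (.nd (nat_lit 928) (.br (nat_lit 8) (.br (nat_lit 2) (.br (nat_lit 1) (.ch (nat_lit 0) (.ev (nat_lit 944)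
 (nat_lit 536887296) (.nd (nat_lit 3184) (.br (nat_lit 14) (.ch (nat_lit 3) (.nd (nat_lit 3600) (.br (nat_lit
 12) (.ch (nat_lit 7) (.fin (nat_lit 576441510846218827))) (.ch (nat_lit 12) (.ev (nat_lit 3616) (nat_lit 2)
 (.ev (nat_lit 3629) (nat_lit 33554432) .dd)))))) (.ch (nat_lit 14) (.ev (nat_lit 3200) (nat_lit 2) (.ev
 (nat_lit 3213) (nat_lit 33554432) .dd))))))) (.ch (nat_lit 1) (.ev (nat_lit 944) (nat_lit 16384) (.ev (nat_lit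
 964) (nat_lit 33554432) (.ev (nat_lit 1332) (nat_lit 2) (.ev (nat_lit 1341) (nat_lit 536870912) .dd)))))) (.br
 (nat_lit 3) (.ch (nat_lit 2) (.ev (nat_lit 944) (nat_lit 16386) (.ev (nat_lit 964) (nat_lit 33554432) (.ev
 (nat_lit 973) (nat_lit 536870912) .dd)))) (.ch (nat_lit 3) (.ev (nat_lit 944) (nat_lit 33570816) (.ev (nat_lit
 964) (nat_lit 536870912) (.ev (nat_lit 973) (nat_lit 2) .dd)))))) (.br (nat_lit 11) (.br (nat_lit 10) (.ch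
 (nat_lit 8) (.ev (nat_lit 944) (nat_lit 570425344) (.ev (nat_lit 1844) (nat_lit 2) (.ev (nat_lit 1853)
 (nat_lit 16384) .dd)))) (.ch (nat_lit 10) (.ev (nat_lit 944) (nat_lit 570441730) .dd))) (.br (nat_lit 15) (.ch
 (nat_lit 11) (.ev (nat_lit 944) (nat_lit 536887298) (.ev (nat_lit 957) (nat_lit 33554432) .dd))) (.br (nat_lit
 16) (.ch (nat_lit 15) (.ev (nat_lit 944) (nat_lit 536870914) (.ev (nat_lit 1860) (nat_lit 16384) (.ev (nat_lit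
 1869) (nat_lit 33554432) .dd)))) (.ch (nat_lit 16) (.ev (nat_lit 944) (nat_lit 33570816) (.ev (nat_lit 964)
 (nat_lit 2) (.ev (nat_lit 973) (nat_lit 536870912) .dd)))))))))))) (.br (nat_lit 13) (.ch (nat_lit 12) (.ev
 (nat_lit 48) (nat_lit 69263360) (.nd (nat_lit 720) (.br (nat_lit 7) (.br (nat_lit 4) (.br (nat_lit 3) (.ch
 (nat_lit 0) (.ev (nat_lit 736) (nat_lit 301989890) (.ev (nat_lit 756) (nat_lit 536870912) (.ev (nat_lit 765)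
 (nat_lit 256) .dd)))) (.ch (nat_lit 3) (.ev (nat_lit 736) (nat_lit 2) (.ev (nat_lit 756) (nat_lit 536870912)
 (.ev (nat_lit 852) (nat_lit 33554432) (.nd (nat_lit 2560) (.br (nat_lit 6) (.br (nat_lit 4) (.ch (nat_lit 3)
 (.ev (nat_lit 2576) (nat_lit 268435456) (.ev (nat_lit 2589) (nat_lit 256) .dd))) (.ch (nat_lit 4) (.ev
 (nat_lit 2576) (nat_lit 268435712) .dd))) (.br (nat_lit 11) (.ch (nat_lit 6) (.ev (nat_lit 2596) (nat_lit 256)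
 (.ev (nat_lit 2605) (nat_lit 268435456) .dd))) (.br (nat_lit 14) (.ch (nat_lit 11) (.fin (nat_lit
 576443709865280092))) (.ch (nat_lit 14) (.ev (nat_lit 2576) (nat_lit 268435712) .dd))))))))))) (.br (nat_lit
 6) (.ch (nat_lit 4) (.ev (nat_lit 736) (nat_lit 536871170) (.ev (nat_lit 1300) (nat_lit 268435456) (.ev
 (nat_lit 1309) (nat_lit 33554432) .dd)))) (.ch (nat_lit 6) (.ev (nat_lit 736) (nat_lit 805306368) (.ev
 (nat_lit 2068) (nat_lit 33554432) (.nd (nat_lit 3056) (.br (nat_lit 16) (.ch (nat_lit 2) (.fin (nat_lit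
 576459103046943276))) (.ch (nat_lit 16) (.ev (nat_lit 3072) (nat_lit 256) (.ev (nat_lit 3085) (nat_lit 2)
 .dd)))))))))) (.br (nat_lit 12) (.br (nat_lit 11) (.ch (nat_lit 7) (.ev (nat_lit 736) (nat_lit 838861056) (.ev
 (nat_lit 749) (nat_lit 2) .dd))) (.ch (nat_lit 11) (.ev (nat_lit 736) (nat_lit 301989888) (.ev (nat_lit 756)
 (nat_lit 256) (.ev (nat_lit 2692) (nat_lit 536870912) (.ev (nat_lit 2701) (nat_lit 2) .dd)))))) (.br (nat_lit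
 13) (.ch (nat_lit 12) (.ev (nat_lit 736) (nat_lit 570425600) (.ev (nat_lit 1668) (nat_lit 2) (.ev (nat_lit
 1677) (nat_lit 268435456) .dd)))) (.br (nat_lit 14) (.ch (nat_lit 13) (.ev (nat_lit 916) (nat_lit 2) (.ev
 (nat_lit 1732) (nat_lit 536870912) (.ev (nat_lit 1844) (nat_lit 33554432) (.ev (nat_lit 2100) (nat_lit 256)
 (.ev (nat_lit 2109) (nat_lit 268435456) .dd)))))) (.ch (nat_lit 14) (.ev (nat_lit 736) (nat_lit 301990146)
 (.ev (nat_lit 749) (nat_lit 536870912) .dd)))))))))) (.br (nat_lit 15) (.ch (nat_lit 13) (.ev (nat_lit 48)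
 (nat_lit 100712448) (.nd (nat_lit 720) (.br (nat_lit 8) (.br (nat_lit 5) (.br (nat_lit 4) (.ch (nat_lit 3)
 (.ev (nat_lit 736) (nat_lit 2105602) (.ev (nat_lit 1188) (nat_lit 268435456) (.ev (nat_lit 1197) (nat_lit
 536870912) .dd)))) (.ch (nat_lit 4) (.ev (nat_lit 736) (nat_lit 538976512) (.ev (nat_lit 1220) (nat_lit
 268435456) (.ev (nat_lit 1229) (nat_lit 2) .dd))))) (.br (nat_lit 7) (.ch (nat_lit 5) (.ev (nat_lit 736)
 (nat_lit 805306624) (.ev (nat_lit 756) (nat_lit 8192) (.ev (nat_lit 1940) (nat_lit 2) (.ev (nat_lit 1949)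
 (nat_lit 2097152) .dd))))) (.ch (nat_lit 7) (.ev (nat_lit 736) (nat_lit 805306626) (.ev (nat_lit 1412)
 (nat_lit 8192) (.ev (nat_lit 1421) (nat_lit 2097152) .dd)))))) (.br (nat_lit 10) (.br (nat_lit 9) (.ch
 (nat_lit 8) (.ev (nat_lit 736) (nat_lit 8194) (.ev (nat_lit 1780) (nat_lit 2097152) (.nd (nat_lit 3024) (.ch
 (nat_lit 11) (.ev (nat_lit 3044) (nat_lit 536870912) (.nd (nat_lit 3504) (.br (nat_lit 15) (.ch (nat_lit 10)
 (.fin (nat_lit 576463501089260077))) (.ch (nat_lit 15) (.ev (nat_lit 3520) (nat_lit 268435456) (.ev (nat_lit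
 3533) (nat_lit 256) .dd))))))))))) (.ch (nat_lit 9) (.ev (nat_lit 736) (nat_lit 270540802) (.ev (nat_lit 2500)
 (nat_lit 536870912) (.ev (nat_lit 2509) (nat_lit 256) .dd))))) (.br (nat_lit 11) (.ch (nat_lit 10) (.ev
 (nat_lit 736) (nat_lit 268435456) (.ev (nat_lit 756) (nat_lit 536879106) (.ev (nat_lit 1652) (nat_lit 256)
 (.ev (nat_lit 1661) (nat_lit 2097152) .dd))))) (.br (nat_lit 16) (.ch (nat_lit 11) (.ev (nat_lit 736) (nat_lit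
 258) (.ev (nat_lit 756) (nat_lit 8192) (.ev (nat_lit 852) (nat_lit 2097152) (.nd (nat_lit 3120) (.br (nat_lit
 12) (.br (nat_lit 10) (.ch (nat_lit 1) (.ev (nat_lit 3136) (nat_lit 805306368) .dd)) (.ch (nat_lit 10) (.ev
 (nat_lit 3136) (nat_lit 805306368) .dd))) (.br (nat_lit 16) (.ch (nat_lit 12) (.fin (nat_lit
 576438212327064120))) (.ch (nat_lit 16) (.ev (nat_lit 3136) (nat_lit 805306368) .dd))))))))) (.ch (nat_lit 16)
 (.ev (nat_lit 736) (nat_lit 538968320) (.ev (nat_lit 2340) (nat_lit 268435456) (.fin (nat_lit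
 576462401578680898)))))))))))) (.ch (nat_lit 15) (.ev (nat_lit 48) (nat_lit 572547328) (.nd (nat_lit 816) (.br
 (nat_lit 10) (.br (nat_lit 5) (.br (nat_lit 4) (.ch (nat_lit 3) (.ev (nat_lit 832) (nat_lit 67108866) (.ev
 (nat_lit 1344) (nat_lit 32768) (.ev (nat_lit 1357) (nat_lit 268435456) .dd)))) (.ch (nat_lit 4) (.ev (nat_lit
 832) (nat_lit 335577090) .dd))) (.br (nat_lit 9) (.ch (nat_lit 5) (.ev (nat_lit 832) (nat_lit 268468224) (.ev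
 (nat_lit 1344) (nat_lit 2) (.ev (nat_lit 1357) (nat_lit 67108864) .dd)))) (.ch (nat_lit 9) (.ev (nat_lit 832)
 (nat_lit 268435456) (.ev (nat_lit 852) (nat_lit 67108864) (.ev (nat_lit 1460) (nat_lit 32768) (.ev (nat_lit
 1469) (nat_lit 2) .dd))))))) (.br (nat_lit 13) (.br (nat_lit 12) (.ch (nat_lit 10) (.ev (nat_lit 832) (nat_lit
 32770) (.ev (nat_lit 2036) (nat_lit 268435456) (.ev (nat_lit 2045) (nat_lit 67108864) .dd)))) (.ch (nat_lit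
 12) (.ev (nat_lit 832) (nat_lit 268435456) (.ev (nat_lit 1892) (nat_lit 32768) (.ev (nat_lit 2036) (nat_lit 2)
 (.ev (nat_lit 2045) (nat_lit 67108864) .dd)))))) (.br (nat_lit 15) (.ch (nat_lit 13) (.ev (nat_lit 832)
 (nat_lit 67108864) (.ev (nat_lit 1892) (nat_lit 2) (.ev (nat_lit 2036) (nat_lit 32768) (.ev (nat_lit 2045)
 (nat_lit 268435456) .dd))))) (.br (nat_lit 16) (.ch (nat_lit 15) (.ev (nat_lit 832) (nat_lit 32770) (.ev
 (nat_lit 2036) (nat_lit 67108864) (.ev (nat_lit 2045) (nat_lit 268435456) .dd)))) (.ch (nat_lit 16) (.ev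
 (nat_lit 832) (nat_lit 67108864) (.ev (nat_lit 852) (nat_lit 268435456) (.ev (nat_lit 1460) (nat_lit 2) (.ev
 (nat_lit 1469) (nat_lit 32768) .dd))))))))))))))))))

/-- Subtrie. -/
noncomputable def T9 : Tr := (.ev (nat_lit 20) (nat_lit 661913938) (.nd (nat_lit 32) (.br (nat_lit 8) (.br
 (nat_lit 4) (.br (nat_lit 3) (.ch (nat_lit 0) (.ev (nat_lit 48) (nat_lit 143147012) (.nd (nat_lit 320) (.br
 (nat_lit 8) (.br (nat_lit 5) (.br (nat_lit 4) (.ch (nat_lit 2) (.ev (nat_lit 336) (nat_lit 268468224) (.ev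
 (nat_lit 349) (nat_lit 8192) .dd))) (.ch (nat_lit 4) (.ev (nat_lit 336) (nat_lit 268435456) (.nd (nat_lit
 1120) (.br (nat_lit 5) (.br (nat_lit 2) (.ch (nat_lit 1) (.ev (nat_lit 1136) (nat_lit 8192) (.ev (nat_lit
 1149) (nat_lit 32768) .dd))) (.ch (nat_lit 2) (.ev (nat_lit 1136) (nat_lit 32768) (.ev (nat_lit 1149) (nat_lit
 8192) .dd)))) (.br (nat_lit 8) (.ch (nat_lit 5) (.ev (nat_lit 1136) (nat_lit 8192) (.ev (nat_lit 1149)
 (nat_lit 32768) .dd))) (.br (nat_lit 11) (.ch (nat_lit 8) (.ev (nat_lit 1376) (nat_lit 32768) (.ev (nat_lit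
 1389) (nat_lit 8192) .dd))) (.ch (nat_lit 11) (.ev (nat_lit 1136) (nat_lit 8192) (.ev (nat_lit 1149) (nat_lit
 32768) .dd)))))))))) (.br (nat_lit 7) (.ch (nat_lit 5) (.ev (nat_lit 336) (nat_lit 268468224) (.ev (nat_lit
 349) (nat_lit 8192) .dd))) (.ch (nat_lit 7) (.ev (nat_lit 336) (nat_lit 8192) (.ev (nat_lit 1924) (nat_lit
 32768) (.ev (nat_lit 1933) (nat_lit 268435456) .dd)))))) (.br (nat_lit 10) (.br (nat_lit 9) (.ch (nat_lit 8)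
 (.nd (nat_lit 1968) (.br (nat_lit 9) (.br (nat_lit 7) (.ch (nat_lit 4) (.ev (nat_lit 2644) (nat_lit 32768)
 (.nd (nat_lit 3568) (.br (nat_lit 11) (.ch (nat_lit 10) (.fin (nat_lit 576464600599839294))) (.ch (nat_lit 11)
 (.ev (nat_lit 3584) (nat_lit 268443648) .dd)))))) (.ch (nat_lit 7) (.ev (nat_lit 1984) (nat_lit 268476416)
 .dd))) (.br (nat_lit 10) (.ch (nat_lit 9) (.ev (nat_lit 1984) (nat_lit 40960) (.ev (nat_lit 1997) (nat_lit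
 268435456) .dd))) (.br (nat_lit 11) (.ch (nat_lit 10) (.ev (nat_lit 1984) (nat_lit 268443648) (.ev (nat_lit
 1997) (nat_lit 32768) .dd))) (.ch (nat_lit 11) (.ev (nat_lit 1984) (nat_lit 268443648) (.ev (nat_lit 1997)
 (nat_lit 32768) .dd)))))))) (.ch (nat_lit 9) (.ev (nat_lit 336) (nat_lit 40960) (.ev (nat_lit 349) (nat_lit
 268435456) .dd)))) (.br (nat_lit 11) (.ch (nat_lit 10) (.ev (nat_lit 336) (nat_lit 8192) (.ev (nat_lit 1236)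
 (nat_lit 268435456) (.ev (nat_lit 1245) (nat_lit 32768) .dd)))) (.br (nat_lit 16) (.ch (nat_lit 11) (.ev
 (nat_lit 336) (nat_lit 268468224) (.ev (nat_lit 349) (nat_lit 8192) .dd))) (.ch (nat_lit 16) (.ev (nat_lit
 336) (nat_lit 268476416) .dd))))))))) (.ch (nat_lit 3) (.ev (nat_lit 48) (nat_lit 548868) (.nd (nat_lit 432)
 (.br (nat_lit 10) (.br (nat_lit 7) (.br (nat_lit 6) (.ch (nat_lit 2) (.ev (nat_lit 448) (nat_lit 276824064)
 (.ev (nat_lit 2036) (nat_lit 32768) (.ev (nat_lit 2045) (nat_lit 134217728) .dd)))) (.ch (nat_lit 6) (.ev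
 (nat_lit 448) (nat_lit 402685952) (.ev (nat_lit 461) (nat_lit 8388608) .dd)))) (.br (nat_lit 8) (.ch (nat_lit
 7) (.ev (nat_lit 448) (nat_lit 32768) (.ev (nat_lit 468) (nat_lit 8388608) (.ev (nat_lit 900) (nat_lit
 134217728) (.ev (nat_lit 909) (nat_lit 268435456) .dd))))) (.ch (nat_lit 8) (.ev (nat_lit 448) (nat_lit
 134217728) (.ev (nat_lit 756) (nat_lit 268435456) (.nd (nat_lit 1536) (.br (nat_lit 7) (.br (nat_lit 5) (.ch
 (nat_lit 4) (.ev (nat_lit 1552) (nat_lit 8421376) .dd)) (.br (nat_lit 6) (.ch (nat_lit 5) (.ev (nat_lit 1748)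
 (nat_lit 8388608) (.ev (nat_lit 1757) (nat_lit 32768) .dd))) (.ch (nat_lit 6) (.ev (nat_lit 1552) (nat_lit
 8388608) (.ev (nat_lit 1565) (nat_lit 32768) .dd))))) (.br (nat_lit 10) (.ch (nat_lit 7) (.ev (nat_lit 1552)
 (nat_lit 32768) (.ev (nat_lit 1565) (nat_lit 8388608) .dd))) (.br (nat_lit 13) (.ch (nat_lit 10) (.ev (nat_lit
 1552) (nat_lit 8421376) .dd)) (.ch (nat_lit 13) (.ev (nat_lit 1552) (nat_lit 32768) (.ev (nat_lit 1565)
 (nat_lit 8388608) .dd)))))))))))) (.br (nat_lit 13) (.br (nat_lit 11) (.ch (nat_lit 10) (.ev (nat_lit 448)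
 (nat_lit 8421376) (.ev (nat_lit 1652) (nat_lit 134217728) (.ev (nat_lit 1661) (nat_lit 268435456) .dd)))) (.ch
 (nat_lit 11) (.ev (nat_lit 448) (nat_lit 142606336) (.nd (nat_lit 2176) (.br (nat_lit 8) (.ch (nat_lit 0) (.ev
 (nat_lit 2192) (nat_lit 32768) (.ev (nat_lit 2205) (nat_lit 268435456) .dd))) (.br (nat_lit 10) (.ch (nat_lit
 8) (.fin (nat_lit 576476695212016208))) (.ch (nat_lit 10) (.ev (nat_lit 2192) (nat_lit 268435456) (.ev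
 (nat_lit 2205) (nat_lit 32768) .dd))))))))) (.br (nat_lit 14) (.ch (nat_lit 13) (.ev (nat_lit 448) (nat_lit
 8421376) (.ev (nat_lit 2692) (nat_lit 134217728) (.ev (nat_lit 2701) (nat_lit 268435456) .dd)))) (.br (nat_lit
 15) (.ch (nat_lit 14) (.ev (nat_lit 448) (nat_lit 411041792) (.ev (nat_lit 461) (nat_lit 32768) .dd))) (.ch
 (nat_lit 15) (.ev (nat_lit 448) (nat_lit 411074560) .dd)))))))))) (.br (nat_lit 6) (.ch (nat_lit 4) (.ev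
 (nat_lit 48) (nat_lit 276856832) (.nd (nat_lit 176) (.br (nat_lit 9) (.br (nat_lit 7) (.br (nat_lit 4) (.ch
 (nat_lit 2) (.ev (nat_lit 192) (nat_lit 134758404) (.ev (nat_lit 205) (nat_lit 8192) .dd))) (.ch (nat_lit 4)
 (.ev (nat_lit 192) (nat_lit 24580) (.nd (nat_lit 1120) (.br (nat_lit 12) (.br (nat_lit 7) (.ch (nat_lit 1)
 (.ev (nat_lit 1136) (nat_lit 524288) (.ev (nat_lit 1149) (nat_lit 134217728) .dd))) (.ch (nat_lit 7) (.ev
 (nat_lit 1136) (nat_lit 524288) (.ev (nat_lit 1149) (nat_lit 134217728) .dd)))) (.br (nat_lit 13) (.ch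
 (nat_lit 12) (.ev (nat_lit 1156) (nat_lit 134217728) (.ev (nat_lit 1165) (nat_lit 524288) .dd))) (.br (nat_lit
 15) (.ch (nat_lit 13) (.ev (nat_lit 1136) (nat_lit 134742016) .dd)) (.ch (nat_lit 15) (.ev (nat_lit 2036)
 (nat_lit 524288) (.ev (nat_lit 2045) (nat_lit 134217728) .dd)))))))))) (.br (nat_lit 8) (.ch (nat_lit 7) (.ev
 (nat_lit 192) (nat_lit 134225920) (.nd (nat_lit 1536) (.br (nat_lit 8) (.br (nat_lit 5) (.ch (nat_lit 3) (.ev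
 (nat_lit 1552) (nat_lit 540672) (.ev (nat_lit 1565) (nat_lit 4) .dd))) (.br (nat_lit 7) (.ch (nat_lit 5) (.ev
 (nat_lit 1552) (nat_lit 540676) .dd)) (.ch (nat_lit 7) (.ev (nat_lit 1552) (nat_lit 16388) (.ev (nat_lit 1565)
 (nat_lit 524288) .dd))))) (.br (nat_lit 12) (.br (nat_lit 10) (.ch (nat_lit 8) (.ev (nat_lit 1552) (nat_lit
 540672) (.ev (nat_lit 1565) (nat_lit 4) .dd))) (.ch (nat_lit 10) (.ev (nat_lit 1552) (nat_lit 524288) (.fin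
 (nat_lit 576388734357291585))))) (.br (nat_lit 13) (.ch (nat_lit 12) (.ev (nat_lit 1552) (nat_lit 540676)
 .dd)) (.ch (nat_lit 13) (.ev (nat_lit 1552) (nat_lit 16384) (.ev (nat_lit 1572) (nat_lit 4) (.ev (nat_lit
 1581) (nat_lit 524288) .dd)))))))))) (.ch (nat_lit 8) (.ev (nat_lit 192) (nat_lit 134742020) (.ev (nat_lit
 2656) (nat_lit 16384) (.ev (nat_lit 2669) (nat_lit 8192) .dd)))))) (.br (nat_lit 13) (.br (nat_lit 11) (.ch
 (nat_lit 9) (.ev (nat_lit 192) (nat_lit 532480) (.ev (nat_lit 420) (nat_lit 4) (.ev (nat_lit 692) (nat_lit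
 16384) (.ev (nat_lit 701) (nat_lit 134217728) .dd))))) (.ch (nat_lit 11) (.ev (nat_lit 192) (nat_lit
 134766592) (.ev (nat_lit 205) (nat_lit 4) .dd)))) (.br (nat_lit 14) (.ch (nat_lit 13) (.ev (nat_lit 192)
 (nat_lit 524288) (.nd (nat_lit 1536) (.br (nat_lit 9) (.br (nat_lit 4) (.ch (nat_lit 2) (.ev (nat_lit 1552)
 (nat_lit 134234116) (.ev (nat_lit 1565) (nat_lit 8192) .dd))) (.br (nat_lit 7) (.ch (nat_lit 4) (.ev (nat_lit
 1552) (nat_lit 24576) (.ev (nat_lit 1844) (nat_lit 4) (.ev (nat_lit 1853) (nat_lit 134217728) .dd)))) (.ch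
 (nat_lit 7) (.ev (nat_lit 1552) (nat_lit 24576) (.ev (nat_lit 1844) (nat_lit 134217728) (.ev (nat_lit 1853)
 (nat_lit 4) .dd)))))) (.br (nat_lit 11) (.ch (nat_lit 9) (.ev (nat_lit 1552) (nat_lit 8196) (.fin (nat_lit
 576481093275304521)))) (.br (nat_lit 15) (.ch (nat_lit 11) (.ev (nat_lit 1552) (nat_lit 134242304) (.ev
 (nat_lit 1565) (nat_lit 4) .dd))) (.ch (nat_lit 15) (.ev (nat_lit 1552) (nat_lit 134225920) (.ev (nat_lit
 1860) (nat_lit 4) (.ev (nat_lit 1869) (nat_lit 16384) .dd)))))))))) (.br (nat_lit 15) (.ch (nat_lit 14) (.ev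
 (nat_lit 192) (nat_lit 134750208) (.ev (nat_lit 692) (nat_lit 16384) (.ev (nat_lit 701) (nat_lit 4) .dd))))
 (.ch (nat_lit 15) (.ev (nat_lit 192) (nat_lit 548868) (.ev (nat_lit 205) (nat_lit 134217728) .dd))))))))))
 (.ch (nat_lit 6) (.ev (nat_lit 48) (nat_lit 143163392) (.nd (nat_lit 816) (.br (nat_lit 10) (.br (nat_lit 5)
 (.br (nat_lit 2) (.ch (nat_lit 0) (.ev (nat_lit 832) (nat_lit 24580) (.ev (nat_lit 845) (nat_lit 268435456)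
 .dd))) (.ch (nat_lit 2) (.ev (nat_lit 832) (nat_lit 268451844) (.ev (nat_lit 845) (nat_lit 8192) .dd)))) (.br
 (nat_lit 7) (.ch (nat_lit 5) (.ev (nat_lit 832) (nat_lit 24576) (.ev (nat_lit 980) (nat_lit 4) (.ev (nat_lit
 989) (nat_lit 268435456) .dd)))) (.ch (nat_lit 7) (.ev (nat_lit 832) (nat_lit 4) (.ev (nat_lit 868) (nat_lit
 16384) (.nd (nat_lit 1808) (.br (nat_lit 3) (.br (nat_lit 2) (.ch (nat_lit 0) (.ev (nat_lit 1824) (nat_lit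
 8192) (.ev (nat_lit 1837) (nat_lit 268435456) .dd))) (.ch (nat_lit 2) (.ev (nat_lit 1824) (nat_lit 268443648)
 .dd))) (.br (nat_lit 13) (.ch (nat_lit 3) (.ev (nat_lit 1824) (nat_lit 268435456) (.ev (nat_lit 1837) (nat_lit
 8192) .dd))) (.ch (nat_lit 13) (.ev (nat_lit 1824) (nat_lit 268435456) (.ev (nat_lit 1837) (nat_lit 8192)
 .dd))))))))))) (.br (nat_lit 12) (.br (nat_lit 11) (.ch (nat_lit 10) (.ev (nat_lit 832) (nat_lit 268443652)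
 (.ev (nat_lit 845) (nat_lit 16384) .dd))) (.ch (nat_lit 11) (.ev (nat_lit 832) (nat_lit 16388) (.ev (nat_lit
 1316) (nat_lit 8192) (.ev (nat_lit 1325) (nat_lit 268435456) .dd))))) (.br (nat_lit 13) (.ch (nat_lit 12) (.ev
 (nat_lit 832) (nat_lit 268451840) (.ev (nat_lit 2048) (nat_lit 8196) .dd))) (.br (nat_lit 14) (.ch (nat_lit
 13) (.ev (nat_lit 832) (nat_lit 268443648) (.ev (nat_lit 852) (nat_lit 4) (.ev (nat_lit 861) (nat_lit 16384)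
 .dd)))) (.ch (nat_lit 14) (.ev (nat_lit 832) (nat_lit 24576) (.fin (nat_lit 576474496205537887)))))))))))))
 (.br (nat_lit 11) (.br (nat_lit 10) (.ch (nat_lit 8) (.ev (nat_lit 48) (nat_lit 403185664) (.nd (nat_lit 576)
 (.br (nat_lit 11) (.br (nat_lit 8) (.br (nat_lit 1) (.ch (nat_lit 0) (.ev (nat_lit 592) (nat_lit 8388612)
 (.fin (nat_lit 576487690246504995)))) (.ch (nat_lit 1) (.ev (nat_lit 592) (nat_lit 49152) (.ev (nat_lit 880)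
 (nat_lit 8388608) (.ev (nat_lit 893) (nat_lit 4) .dd))))) (.br (nat_lit 10) (.ch (nat_lit 8) (.ev (nat_lit
 592) (nat_lit 16384) (.ev (nat_lit 2068) (nat_lit 8388608) (.nd (nat_lit 2912) (.br (nat_lit 4) (.ch (nat_lit
 2) (.fin (nat_lit 576465700110418498))) (.br (nat_lit 8) (.ch (nat_lit 4) (.ev (nat_lit 2928) (nat_lit 32768)
 (.ev (nat_lit 2941) (nat_lit 4) .dd))) (.ch (nat_lit 8) (.ev (nat_lit 2928) (nat_lit 4) (.ev (nat_lit 2941)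
 (nat_lit 32768) .dd))))))))) (.ch (nat_lit 10) (.ev (nat_lit 592) (nat_lit 8421376) (.ev (nat_lit 676)
 (nat_lit 4) (.ev (nat_lit 685) (nat_lit 16384) .dd)))))) (.br (nat_lit 14) (.br (nat_lit 12) (.ch (nat_lit 11)
 (.ev (nat_lit 592) (nat_lit 32768) (.nd (nat_lit 1968) (.br (nat_lit 5) (.br (nat_lit 3) (.ch (nat_lit 0) (.ev
 (nat_lit 1984) (nat_lit 16388) (.ev (nat_lit 1997) (nat_lit 8388608) .dd))) (.ch (nat_lit 3) (.ev (nat_lit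
 1984) (nat_lit 8388612) (.ev (nat_lit 1997) (nat_lit 16384) .dd)))) (.br (nat_lit 9) (.ch (nat_lit 5) (.ev
 (nat_lit 1984) (nat_lit 16384) (.fin (nat_lit 576461302112141977)))) (.ch (nat_lit 9) (.ev (nat_lit 1984)
 (nat_lit 4) (.fin (nat_lit 576474496216023627))))))))) (.ch (nat_lit 12) (.ev (nat_lit 592) (nat_lit 8404996)
 (.ev (nat_lit 605) (nat_lit 32768) .dd)))) (.br (nat_lit 15) (.ch (nat_lit 14) (.ev (nat_lit 592) (nat_lit
 8404996) (.ev (nat_lit 605) (nat_lit 32768) .dd))) (.br (nat_lit 16) (.ch (nat_lit 15) (.ev (nat_lit 592)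
 (nat_lit 8421376) (.ev (nat_lit 676) (nat_lit 4) (.ev (nat_lit 685) (nat_lit 16384) .dd)))) (.ch (nat_lit 16)
 (.ev (nat_lit 592) (nat_lit 8388612) (.ev (nat_lit 2692) (nat_lit 16384) (.ev (nat_lit 2701) (nat_lit 32768)
 .dd))))))))))) (.ch (nat_lit 10) (.ev (nat_lit 48) (nat_lit 277405696) (.nd (nat_lit 928) (.br (nat_lit 8)
 (.br (nat_lit 5) (.br (nat_lit 1) (.ch (nat_lit 0) (.ev (nat_lit 944) (nat_lit 4) (.ev (nat_lit 957) (nat_lit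
 134217728) .dd))) (.ch (nat_lit 1) (.ev (nat_lit 944) (nat_lit 134217732) .dd))) (.br (nat_lit 7) (.ch
 (nat_lit 5) (.ev (nat_lit 944) (nat_lit 4) (.ev (nat_lit 957) (nat_lit 134217728) .dd))) (.ch (nat_lit 7) (.ev
 (nat_lit 964) (nat_lit 134217728) (.ev (nat_lit 973) (nat_lit 4) .dd))))) (.br (nat_lit 12) (.br (nat_lit 9)
 (.ch (nat_lit 8) (.nd (nat_lit 2448) (.br (nat_lit 7) (.ch (nat_lit 4) (.ev (nat_lit 2484) (nat_lit 4) (.ev
 (nat_lit 2493) (nat_lit 134217728) .dd))) (.br (nat_lit 8) (.ch (nat_lit 7) (.nd (nat_lit 3440) (.br (nat_lit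
 14) (.ch (nat_lit 3) (.ev (nat_lit 3456) (nat_lit 4) (.ev (nat_lit 3469) (nat_lit 134217728) .dd))) (.ch
 (nat_lit 14) (.fin (nat_lit 576414023123681752)))))) (.ch (nat_lit 8) (.ev (nat_lit 2484) (nat_lit 4) (.ev
 (nat_lit 2493) (nat_lit 134217728) .dd))))))) (.ch (nat_lit 9) (.ev (nat_lit 1732) (nat_lit 4) (.ev (nat_lit
 1741) (nat_lit 134217728) .dd)))) (.br (nat_lit 13) (.ch (nat_lit 12) (.ev (nat_lit 944) (nat_lit 134217732)
 .dd)) (.br (nat_lit 16) (.ch (nat_lit 13) (.ev (nat_lit 944) (nat_lit 134217732) .dd)) (.ch (nat_lit 16) (.ev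
 (nat_lit 944) (nat_lit 134217732) .dd)))))))))) (.br (nat_lit 13) (.ch (nat_lit 11) (.ev (nat_lit 48) (nat_lit
 8437760) (.nd (nat_lit 576) (.br (nat_lit 8) (.br (nat_lit 6) (.br (nat_lit 5) (.ch (nat_lit 4) (.ev (nat_lit
 592) (nat_lit 4) (.ev (nat_lit 804) (nat_lit 134217728) (.nd (nat_lit 1808) (.br (nat_lit 10) (.br (nat_lit 4)
 (.ch (nat_lit 0) (.ev (nat_lit 1824) (nat_lit 532480) (.ev (nat_lit 1837) (nat_lit 268435456) .dd))) (.br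
 (nat_lit 6) (.ch (nat_lit 4) (.ev (nat_lit 1824) (nat_lit 268967936) .dd)) (.ch (nat_lit 6) (.ev (nat_lit
 1824) (nat_lit 268435456) (.ev (nat_lit 1844) (nat_lit 524288) (.ev (nat_lit 1853) (nat_lit 8192) .dd))))))
 (.br (nat_lit 13) (.br (nat_lit 12) (.ch (nat_lit 10) (.ev (nat_lit 1824) (nat_lit 532480) (.ev (nat_lit 1837)
 (nat_lit 268435456) .dd))) (.ch (nat_lit 12) (.ev (nat_lit 1844) (nat_lit 524288) (.ev (nat_lit 1872) (nat_lit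
 268443648) .dd)))) (.br (nat_lit 15) (.ch (nat_lit 13) (.ev (nat_lit 1824) (nat_lit 268967936) .dd)) (.ch
 (nat_lit 15) (.ev (nat_lit 1824) (nat_lit 268967936) .dd))))))))) (.ch (nat_lit 5) (.ev (nat_lit 592) (nat_lit
 268967936) (.ev (nat_lit 1412) (nat_lit 4) (.ev (nat_lit 1421) (nat_lit 134217728) .dd))))) (.br (nat_lit 7)
 (.ch (nat_lit 6) (.ev (nat_lit 592) (nat_lit 403177476) (.ev (nat_lit 605) (nat_lit 8192) .dd))) (.ch (nat_lit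
 7) (.ev (nat_lit 592) (nat_lit 134225924) (.nd (nat_lit 1968) (.br (nat_lit 8) (.br (nat_lit 3) (.ch (nat_lit
 0) (.ev (nat_lit 1984) (nat_lit 268435456) (.ev (nat_lit 1997) (nat_lit 524288) .dd))) (.ch (nat_lit 3) (.ev
 (nat_lit 1984) (nat_lit 524288) (.ev (nat_lit 1997) (nat_lit 268435456) .dd)))) (.br (nat_lit 9) (.ch (nat_lit
 8) (.ev (nat_lit 1984) (nat_lit 524288) (.ev (nat_lit 1997) (nat_lit 268435456) .dd))) (.br (nat_lit 14) (.ch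
 (nat_lit 9) (.ev (nat_lit 1984) (nat_lit 268959744) .dd)) (.ch (nat_lit 14) (.ev (nat_lit 1984) (nat_lit
 268435456) (.ev (nat_lit 1997) (nat_lit 524288) .dd))))))))))) (.br (nat_lit 11) (.br (nat_lit 10) (.ch
 (nat_lit 8) (.ev (nat_lit 592) (nat_lit 268959748) (.ev (nat_lit 2708) (nat_lit 8192) (.ev (nat_lit 2717)
 (nat_lit 134217728) .dd)))) (.ch (nat_lit 10) (.ev (nat_lit 592) (nat_lit 268959744) (.nd (nat_lit 1008) (.br
 (nat_lit 6) (.br (nat_lit 1) (.ch (nat_lit 0) (.ev (nat_lit 1024) (nat_lit 8192) (.fin (nat_lit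
 576474496169886252)))) (.br (nat_lit 5) (.ch (nat_lit 1) (.ev (nat_lit 1024) (nat_lit 8192) (.ev (nat_lit
 2128) (nat_lit 4) (.ev (nat_lit 2141) (nat_lit 134217728) .dd)))) (.ch (nat_lit 5) (.ev (nat_lit 1024)
 (nat_lit 4) (.ev (nat_lit 1572) (nat_lit 134217728) (.ev (nat_lit 1581) (nat_lit 8192) .dd)))))) (.br (nat_lit
 12) (.br (nat_lit 7) (.ch (nat_lit 6) (.ev (nat_lit 1024) (nat_lit 134217728) (.ev (nat_lit 1696) (nat_lit
 8196) .dd))) (.ch (nat_lit 7) (.ev (nat_lit 1024) (nat_lit 8196) (.ev (nat_lit 1037) (nat_lit 134217728)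
 .dd)))) (.br (nat_lit 16) (.ch (nat_lit 12) (.ev (nat_lit 1024) (nat_lit 134225920) (.ev (nat_lit 1037)
 (nat_lit 4) .dd))) (.ch (nat_lit 16) (.ev (nat_lit 1024) (nat_lit 134225924) .dd))))))))) (.br (nat_lit 12)
 (.ch (nat_lit 11) (.ev (nat_lit 592) (nat_lit 134742016) (.ev (nat_lit 1364) (nat_lit 268435456) (.nd (nat_lit
 2288) (.br (nat_lit 8) (.ch (nat_lit 0) (.ev (nat_lit 2304) (nat_lit 8196) .dd)) (.br (nat_lit 9) (.ch
 (nat_lit 8) (.ev (nat_lit 2304) (nat_lit 4) (.ev (nat_lit 2317) (nat_lit 8192) .dd))) (.ch (nat_lit 9) (.fin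
 (nat_lit 576463501093454420))))))))) (.br (nat_lit 16) (.ch (nat_lit 12) (.ev (nat_lit 592) (nat_lit
 134750208) (.ev (nat_lit 1428) (nat_lit 4) (.ev (nat_lit 1437) (nat_lit 268435456) .dd)))) (.ch (nat_lit 16)
 (.ev (nat_lit 592) (nat_lit 532484) (.ev (nat_lit 1476) (nat_lit 268435456) (.ev (nat_lit 1485) (nat_lit
 134217728) .dd))))))))))) (.br (nat_lit 14) (.ch (nat_lit 13) (.ev (nat_lit 48) (nat_lit 277372932) (.nd
 (nat_lit 368) (.br (nat_lit 7) (.br (nat_lit 4) (.br (nat_lit 3) (.ch (nat_lit 1) (.nd (nat_lit 2352) (.br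
 (nat_lit 12) (.br (nat_lit 7) (.ch (nat_lit 4) (.ev (nat_lit 2368) (nat_lit 32768) (.ev (nat_lit 2381)
 (nat_lit 134217728) .dd))) (.ch (nat_lit 7) (.nd (nat_lit 3312) (.br (nat_lit 9) (.ch (nat_lit 5) (.fin
 (nat_lit 576533869764231811))) (.ch (nat_lit 9) (.ev (nat_lit 3328) (nat_lit 134217728) (.ev (nat_lit 3341)
 (nat_lit 32768) .dd))))))) (.br (nat_lit 13) (.ch (nat_lit 12) (.ev (nat_lit 2368) (nat_lit 134250496) .dd))
 (.ch (nat_lit 13) (.ev (nat_lit 2368) (nat_lit 134250496) .dd)))))) (.ch (nat_lit 3) (.ev (nat_lit 384)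
 (nat_lit 32768) (.ev (nat_lit 397) (nat_lit 134217728) .dd)))) (.br (nat_lit 6) (.ch (nat_lit 4) (.ev (nat_lit
 384) (nat_lit 32768) (.ev (nat_lit 397) (nat_lit 134217728) .dd))) (.ch (nat_lit 6) (.ev (nat_lit 384)
 (nat_lit 134250496) .dd)))) (.br (nat_lit 13) (.br (nat_lit 10) (.ch (nat_lit 7) (.ev (nat_lit 384) (nat_lit
 134217728) (.ev (nat_lit 397) (nat_lit 32768) .dd))) (.ch (nat_lit 10) (.ev (nat_lit 384) (nat_lit 134250496)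
 .dd))) (.br (nat_lit 14) (.ch (nat_lit 13) (.ev (nat_lit 384) (nat_lit 134217728) (.ev (nat_lit 397) (nat_lit
 32768) .dd))) (.br (nat_lit 16) (.ch (nat_lit 14) (.ev (nat_lit 384) (nat_lit 32768) (.ev (nat_lit 397)
 (nat_lit 134217728) .dd))) (.ch (nat_lit 16) (.ev (nat_lit 384) (nat_lit 32768) (.ev (nat_lit 397) (nat_lit
 134217728) .dd)))))))))) (.ch (nat_lit 14) (.ev (nat_lit 48) (nat_lit 403193860) (.nd (nat_lit 928) (.br
 (nat_lit 8) (.br (nat_lit 6) (.br (nat_lit 5) (.ch (nat_lit 4) (.ev (nat_lit 964) (nat_lit 8396800) (.ev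
 (nat_lit 973) (nat_lit 32768) .dd))) (.ch (nat_lit 5) (.ev (nat_lit 944) (nat_lit 8429568) .dd))) (.br
 (nat_lit 7) (.ch (nat_lit 6) (.ev (nat_lit 1892) (nat_lit 8192) (.nd (nat_lit 2784) (.br (nat_lit 7) (.ch
 (nat_lit 2) (.fin (nat_lit 576434913814200888))) (.br (nat_lit 14) (.ch (nat_lit 7) (.ev (nat_lit 2800)
 (nat_lit 8421376) .dd)) (.ch (nat_lit 14) (.ev (nat_lit 2800) (nat_lit 8421376) .dd))))))) (.ch (nat_lit 7)
 (.nd (nat_lit 2384) (.br (nat_lit 9) (.br (nat_lit 7) (.ch (nat_lit 6) (.ev (nat_lit 2400) (nat_lit 8421376)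
 (.ev (nat_lit 2413) (nat_lit 8192) .dd))) (.ch (nat_lit 7) (.ev (nat_lit 2400) (nat_lit 8192) (.fin (nat_lit
 576468998642156212))))) (.br (nat_lit 10) (.ch (nat_lit 9) (.ev (nat_lit 2400) (nat_lit 8388608) (.nd (nat_lit
 3376) (.br (nat_lit 15) (.ch (nat_lit 9) (.ev (nat_lit 3392) (nat_lit 32768) (.ev (nat_lit 3405) (nat_lit
 8192) .dd))) (.ch (nat_lit 15) (.fin (nat_lit 576481093264818781))))))) (.br (nat_lit 15) (.ch (nat_lit 10)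
 (.ev (nat_lit 2400) (nat_lit 8388608) (.ev (nat_lit 2416) (nat_lit 32768) (.ev (nat_lit 2429) (nat_lit 8192)
 .dd)))) (.ch (nat_lit 15) (.ev (nat_lit 2400) (nat_lit 8396800) (.ev (nat_lit 2413) (nat_lit 32768)
 .dd)))))))))) (.br (nat_lit 13) (.br (nat_lit 10) (.ch (nat_lit 8) (.ev (nat_lit 944) (nat_lit 8421376) (.ev
 (nat_lit 957) (nat_lit 8192) .dd))) (.ch (nat_lit 10) (.ev (nat_lit 944) (nat_lit 8396800) (.ev (nat_lit 957)
 (nat_lit 32768) .dd)))) (.br (nat_lit 14) (.ch (nat_lit 13) (.ev (nat_lit 944) (nat_lit 8192) (.nd (nat_lit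
 2560) (.br (nat_lit 6) (.ch (nat_lit 5) (.ev (nat_lit 2576) (nat_lit 32768) (.ev (nat_lit 2589) (nat_lit
 8388608) .dd))) (.br (nat_lit 8) (.ch (nat_lit 6) (.ev (nat_lit 2576) (nat_lit 8388608) (.ev (nat_lit 2589)
 (nat_lit 32768) .dd))) (.ch (nat_lit 8) (.ev (nat_lit 2576) (nat_lit 8388608) (.ev (nat_lit 2589) (nat_lit
 32768) .dd)))))))) (.br (nat_lit 16) (.ch (nat_lit 14) (.ev (nat_lit 944) (nat_lit 40960) (.ev (nat_lit 957)
 (nat_lit 8388608) .dd))) (.ch (nat_lit 16) (.ev (nat_lit 944) (nat_lit 8421376) (.ev (nat_lit 957) (nat_lit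
 8192) .dd))))))))))))))))

/-- The trie. -/
noncomputable def T : Tr := .nd (nat_lit 1000000) (.br (nat_lit 7) (.br (nat_lit 2) (.br (nat_lit 1) (.ch
 (nat_lit 0) (.ev (nat_lit 0) (nat_lit 2147483647) .dd)) (.ch (nat_lit 1) (.ev (nat_lit 0) (nat_lit 2147483647)
 .dd))) (.br (nat_lit 3) (.ch (nat_lit 2) (.ev (nat_lit 0) (nat_lit 2147483647) .dd)) (.br (nat_lit 4) (.ch
 (nat_lit 3) T3) (.ch (nat_lit 4) (.ev (nat_lit 0) (nat_lit 2147483647) .dd))))) (.br (nat_lit 9) (.br (nat_lit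
 8) (.ch (nat_lit 7) T7) (.ch (nat_lit 8) (.ev (nat_lit 0) (nat_lit 2147483647) .dd))) (.br (nat_lit 15) (.ch
 (nat_lit 9) T9) (.br (nat_lit 16) (.ch (nat_lit 15) (.ev (nat_lit 0) (nat_lit 2147483647) .dd)) (.ch (nat_lit
 16) (.ev (nat_lit 0) (nat_lit 2147483647) .dd))))))

/-- The possible values. -/
noncomputable def oks : List ℕ := [3, 58, 79, 860, 894, 1315, 1660, 3394, 20644, 25435]

/-- The parameters. -/
noncomputable def S : Pr := ⟨fun i l e => lget mz (lget [] (lget [] tabs i) l) e, oks, [(nat_lit 0), (nat_lit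
 0), (nat_lit 0), (nat_lit 0), (nat_lit 0)], T, (nat_lit 2147483647), (nat_lit 1073946281), (nat_lit 31),
 [(nat_lit 98583)], [(nat_lit 1419857)]⟩

/-- Nothing known. -/
noncomputable def cs0 : Cs := (.cons (nat_lit 17) (nat_lit 0) (nat_lit 1) .nil)

theorem part_3 : part S cs0 (nat_lit 3) = true := by decide +kernel

theorem part_7 : part S cs0 (nat_lit 7) = true := by decide +kernel

theorem part_9 : part S cs0 (nat_lit 9) = true := by decide +kernel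

/-- Data of a prime. -/
noncomputable def D0 : PD := ⟨(nat_lit 17), (nat_lit 5), (1099799, 6, 5), (853795, 530711, 278509), (927807, 420466, 1244140)⟩

theorem D0_ok : D0.Ok := pdb_sound (s := 3) (C := ⟨⟨3, 18, -19, -23, -2, 4, 2, -5, -7⟩, (3, 11, 2)⟩) (by show Nat.Prime 17; norm_num) (by decide +kernel)

/-- Lines of the first type. -/
noncomputable def Cl0 : List C1 := [⟨⟨23, 2, -19, 3, 18, 16, -2, 5, -5⟩, (14, 7, 1)⟩,
  ⟨⟨3, -18, -19, -23, 2, 4, 2, 5, -7⟩, (1, 15, 12)⟩,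
  ⟨⟨-13, 2, -16, -7, 22, 11, 6, 3, -7⟩, (14, 1, 4)⟩,
  ⟨⟨0, 0, 0, 0, 0, 0, 0, 0, 0⟩, (0, 0, 0)⟩,
  ⟨⟨-13, -2, -16, -7, -22, 11, 6, -3, -7⟩, (16, 6, 7)⟩,
  ⟨⟨0, 0, 0, 0, 0, 0, 0, 0, 0⟩, (0, 0, 0)⟩,
  ⟨⟨0, 0, 0, 0, 0, 0, 0, 0, 0⟩, (0, 0, 0)⟩,
  ⟨⟨0, 0, 0, 0, 0, 0, 0, 0, 0⟩, (0, 0, 0)⟩,
  ⟨⟨13, 2, -29, 7, 22, 4, -6, 3, -1⟩, (9, 14, 5)⟩,
  ⟨⟨0, 0, 0, 0, 0, 0, 0, 0, 0⟩, (0, 0, 0)⟩,
  ⟨⟨0, 0, 0, 0, 0, 0, 0, 0, 0⟩, (0, 0, 0)⟩,
  ⟨⟨0, 0, 0, 0, 0, 0, 0, 0, 0⟩, (0, 0, 0)⟩,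
  ⟨⟨0, 0, 0, 0, 0, 0, 0, 0, 0⟩, (0, 0, 0)⟩,
  ⟨⟨0, 0, 0, 0, 0, 0, 0, 0, 0⟩, (0, 0, 0)⟩,
  ⟨⟨0, 0, 0, 0, 0, 0, 0, 0, 0⟩, (0, 0, 0)⟩,
  ⟨⟨23, -2, -19, 3, -18, 16, -2, -5, -5⟩, (16, 8, 6)⟩,
  ⟨⟨13, -2, -29, 7, -22, 4, -6, -3, -1⟩, (11, 2, 8)⟩]

/-- Data of a prime. -/
noncomputable def Dm : PD := ⟨(nat_lit 31), (nat_lit 2), (435, 8, 13), (281, 829, 278), (666, 926, 286)⟩

theorem Dm_ok : Dm.Ok := pdb_sound (s := 3) (C := ⟨⟨11, 26, -43, -19, 34, 32, -12, -3, -1⟩, (11, 12, 19)⟩) (by show Nat.Prime 31; norm_num) (by decide +kernel)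

/-- Lines of the first type. -/
noncomputable def Clm : List C1 := [⟨⟨-11, -26, -32, 19, -34, 13, 12, 3, -13⟩, (22, 24, 7)⟩,
  ⟨⟨0, 0, 0, 0, 0, 0, 0, 0, 0⟩, (0, 0, 0)⟩,
  ⟨⟨0, 0, 0, 0, 0, 0, 0, 0, 0⟩, (0, 0, 0)⟩,
  ⟨⟨29, 26, -37, 21, 6, 32, 8, -11, -7⟩, (2, 10, 23)⟩,
  ⟨⟨0, 0, 0, 0, 0, 0, 0, 0, 0⟩, (0, 0, 0)⟩,
  ⟨⟨21, 6, -53, 29, 26, 8, 8, -11, -1⟩, (6, 26, 20)⟩,
  ⟨⟨0, 0, 0, 0, 0, 0, 0, 0, 0⟩, (0, 0, 0)⟩,
  ⟨⟨29, -26, -37, 21, -6, 32, 8, 11, -7⟩, (27, 11, 16)⟩,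
  ⟨⟨0, 0, 0, 0, 0, 0, 0, 0, 0⟩, (0, 0, 0)⟩,
  ⟨⟨-9, -6, -43, -41, 14, 28, 4, 13, -5⟩, (4, 1, 12)⟩,
  ⟨⟨9, -6, -52, -41, -14, 13, -4, 13, -1⟩, (29, 16, 25)⟩,
  ⟨⟨21, -6, -53, 29, -26, 8, 8, 11, -1⟩, (7, 20, 13)⟩,
  ⟨⟨9, 6, -52, -41, 14, 13, -4, -13, -1⟩, (28, 24, 22)⟩,
  ⟨⟨0, 0, 0, 0, 0, 0, 0, 0, 0⟩, (0, 0, 0)⟩,
  ⟨⟨0, 0, 0, 0, 0, 0, 0, 0, 0⟩, (0, 0, 0)⟩,
  ⟨⟨0, 0, 0, 0, 0, 0, 0, 0, 0⟩, (0, 0, 0)⟩,
  ⟨⟨11, -26, -43, -19, -34, 32, -12, 3, -1⟩, (25, 16, 15)⟩,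
  ⟨⟨-9, 6, -43, -41, -14, 28, 4, -13, -5⟩, (3, 24, 9)⟩,
  ⟨⟨0, 0, 0, 0, 0, 0, 0, 0, 0⟩, (0, 0, 0)⟩,
  ⟨⟨0, 0, 0, 0, 0, 0, 0, 0, 0⟩, (0, 0, 0)⟩,
  ⟨⟨0, 0, 0, 0, 0, 0, 0, 0, 0⟩, (0, 0, 0)⟩,
  ⟨⟨0, 0, 0, 0, 0, 0, 0, 0, 0⟩, (0, 0, 0)⟩,
  ⟨⟨0, 0, 0, 0, 0, 0, 0, 0, 0⟩, (0, 0, 0)⟩,
  ⟨⟨0, 0, 0, 0, 0, 0, 0, 0, 0⟩, (0, 0, 0)⟩,
  ⟨⟨0, 0, 0, 0, 0, 0, 0, 0, 0⟩, (0, 0, 0)⟩,
  ⟨⟨0, 0, 0, 0, 0, 0, 0, 0, 0⟩, (0, 0, 0)⟩,
  ⟨⟨0, 0, 0, 0, 0, 0, 0, 0, 0⟩, (0, 0, 0)⟩,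
  ⟨⟨0, 0, 0, 0, 0, 0, 0, 0, 0⟩, (0, 0, 0)⟩,
  ⟨⟨0, 0, 0, 0, 0, 0, 0, 0, 0⟩, (0, 0, 0)⟩,
  ⟨⟨0, 0, 0, 0, 0, 0, 0, 0, 0⟩, (0, 0, 0)⟩,
  ⟨⟨-11, 26, -32, 19, 34, 13, 12, -3, -13⟩, (28, 8, 23)⟩]

/-- Unit moves. -/
noncomputable def U : List Mv := [mz,
  mz,
  mz,
  mz,
  mz,
  ⟨⟨-1, 0, 1, 0, -1, 0, 0, 0, 1⟩, .nil, (nat_lit 0), (nat_lit 15), (nat_lit 1), (nat_lit 0), (0, 0, 0), [], 2⟩,
  ⟨⟨-1, 0, 1, 0, 1, 0, 0, 0, 1⟩, .nil, (nat_lit 16), (nat_lit 1), (nat_lit 9), (nat_lit 1), (0, 0, 0), [], 10⟩,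
  mz,
  mz,
  mz,
  ⟨⟨1, 0, 0, 0, -1, 0, 0, 0, 1⟩, .nil, (nat_lit 16), (nat_lit 15), (nat_lit 16), (nat_lit 1), (0, 0, 0), [], 3⟩,
  ⟨⟨1, 0, 0, 0, -1, 0, 0, 0, 1⟩, .nil, (nat_lit 16), (nat_lit 15), (nat_lit 16), (nat_lit 1), (0, 0, 0), [], 3⟩,
  ⟨⟨1, 0, 0, 0, -1, 0, 0, 0, 1⟩, .nil, (nat_lit 16), (nat_lit 15), (nat_lit 16), (nat_lit 1), (0, 0, 0), [], 3⟩,
  ⟨⟨-1, 0, 1, 0, -1, 0, 0, 0, 1⟩, .nil, (nat_lit 0), (nat_lit 15), (nat_lit 1), (nat_lit 0), (0, 0, 0), [], 2⟩,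
  ⟨⟨-1, 0, 1, 0, 1, 0, 0, 0, 1⟩, .nil, (nat_lit 16), (nat_lit 1), (nat_lit 9), (nat_lit 1), (0, 0, 0), [], 10⟩,
  mz,
  mz]

theorem v_ty : tyb Dm S.ty1 Clm = true := by decide +kernel

theorem v_ty0 : tyb D0 (S.tys.getD 0 0) Cl0 = true := by decide +kernel

theorem v_msc : mscb S D0 [] Dm (nat_lit 648) = true := by decide +kernel

theorem v_mv0 : mvsn (nat_lit 1364482577) S D0 [] Dm (nat_lit 648) 0 D0 = true := by decide +kernel

theorem v_mm : mmsn (nat_lit 1364482577) S D0 [] Dm (nat_lit 648) = true := by decide +kernel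

theorem v_un : unb S D0 (nat_lit 648) U = true := by decide +kernel

theorem v_ok : okb S.oks [(0, 0, 0), (0, 0, 0), (0, 0, 0), (0, 0, 0), (0, 0, 0), (3, 36, 1), (0, 0, 0), (0, 0, 0), (0, 0, 0), (12, 159, 1)] = true := by decide +kernel

theorem v_part : ∀ d < D0.p, (nat_lit 648).testBit d = true → part S (zc (D0 :: [])) d = true := by
  intro d hd h
  have h1 : ∀ d < 17, (nat_lit 648).testBit d = true → d = 3 ∨ d = 7 ∨ d = 9 := by decide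
  rcases h1 d hd h with rfl | rfl | rfl
  · exact part_3
  · exact part_7
  · exact part_9

theorem main (n : ℕ) (ho : Odd n) (hr : ¬ Rep n) (h0 : Split 17 n) (hm : Split 31 n) :
    n ∈ EE := by
  refine concln (W := nat_lit 1364482577) (S := S) (P0 := D0) (Pl := []) (Pm := Dm) (cn := nat_lit 648) ?_ Dm_ok v_ty ?_ ?_ v_msc ?_ v_mm v_un v_part v_ok
    n ho hr ?_ hm
  · simp only [List.forall_mem_cons]
    exact ⟨D0_ok, fun _ h => absurd h (by simp)⟩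
  · exact all1 (φ := fun j P => ∃ L, tyb P (S.tys.getD j 0) L = true) ⟨_, v_ty0⟩
  · exact all1 (φ := fun j P => Nat.ble (S.pks.getD j 0) (Nat.pow P.p P.K) = true) (by decide +kernel)
  · exact all1 (φ := fun i P => mvsn (nat_lit 1364482577) S D0 [] Dm (nat_lit 648) i P = true) v_mv0
  · simp only [List.forall_mem_cons]
    exact ⟨h0, fun _ h => absurd h (by simp)⟩

end Pool.Agent.Work.MP_9954fe_nt.P17_31

namespace Pool.Agent.Work.MP_9954fe_nt.P19_53_43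

/-- Dummy move. -/
noncomputable def mz : Mv := ⟨⟨0, 0, 0, 0, 0, 0, 0, 0, 0⟩, .nil, (nat_lit 0), (nat_lit 0), (nat_lit 0), (nat_lit 0), (0, 0, 0), [], 0⟩

/-- Moves. -/
noncomputable def t0_1 : List Mv := [
  ⟨⟨15, -4, -23, -10, 9, -10, 12, 12, -7⟩, (.cons (nat_lit 177) (nat_lit 313) (nat_lit 238) (nat_lit 1) (.cons
 (nat_lit 1578) (nat_lit 2723) (nat_lit 88) (nat_lit 1) .nil)), (nat_lit 41), (nat_lit 8), (nat_lit 7),
 (nat_lit 1), (18, 7, 3), [49, 2425], 16⟩,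
  ⟨⟨15, -4, -23, 10, -9, 10, 12, 12, -7⟩, (.cons (nat_lit 317) (nat_lit 293) (nat_lit 1) (nat_lit 190) (.cons
 (nat_lit 2250) (nat_lit 2332) (nat_lit 2799) (nat_lit 1) .nil)), (nat_lit 1), (nat_lit 37), (nat_lit 32),
 (nat_lit 1), (18, 12, 3), [350, 127], 31⟩,
  ⟨⟨15, -4, -23, -10, 9, -10, 12, 12, -7⟩, (.cons (nat_lit 177) (nat_lit 313) (nat_lit 238) (nat_lit 1) (.cons
 (nat_lit 1578) (nat_lit 2723) (nat_lit 88) (nat_lit 1) .nil)), (nat_lit 41), (nat_lit 8), (nat_lit 7),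
 (nat_lit 1), (18, 7, 3), [49, 2425], 16⟩,
  ⟨⟨15, -4, -23, -10, 9, -10, 12, 12, -7⟩, (.cons (nat_lit 177) (nat_lit 313) (nat_lit 238) (nat_lit 1) (.cons
 (nat_lit 1578) (nat_lit 2723) (nat_lit 88) (nat_lit 1) .nil)), (nat_lit 41), (nat_lit 8), (nat_lit 7),
 (nat_lit 1), (18, 7, 3), [49, 2425], 16⟩,
  ⟨⟨-3, 16, 16, 10, -9, 10, 12, 12, -7⟩, (.cons (nat_lit 235) (nat_lit 147) (nat_lit 254) (nat_lit 1) (.cons
 (nat_lit 2808) (nat_lit 2388) (nat_lit 1282) (nat_lit 1) .nil)), (nat_lit 42), (nat_lit 6), (nat_lit 32),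
 (nat_lit 1), (4, 12, 3), [80, 1849], 31⟩,
  ⟨⟨15, -4, -23, -10, 9, -10, 12, 12, -7⟩, (.cons (nat_lit 177) (nat_lit 313) (nat_lit 238) (nat_lit 1) (.cons
 (nat_lit 1578) (nat_lit 2723) (nat_lit 88) (nat_lit 1) .nil)), (nat_lit 41), (nat_lit 8), (nat_lit 7),
 (nat_lit 1), (18, 7, 3), [49, 2425], 16⟩,
  ⟨⟨15, -4, -23, 10, -9, 10, 12, 12, -7⟩, (.cons (nat_lit 317) (nat_lit 293) (nat_lit 1) (nat_lit 190) (.cons
 (nat_lit 2250) (nat_lit 2332) (nat_lit 2799) (nat_lit 1) .nil)), (nat_lit 1), (nat_lit 37), (nat_lit 32),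
 (nat_lit 1), (18, 12, 3), [350, 127], 31⟩,
  ⟨⟨-3, 16, 16, -10, 9, -10, 12, 12, -7⟩, (.cons (nat_lit 296) (nat_lit 76) (nat_lit 194) (nat_lit 1) (.cons
 (nat_lit 505) (nat_lit 453) (nat_lit 1) (nat_lit 1643) .nil)), (nat_lit 2), (nat_lit 35), (nat_lit 7),
 (nat_lit 1), (4, 7, 3), [8, 2512], 16⟩,
  ⟨⟨15, -4, -23, -10, 9, -10, 12, 12, -7⟩, (.cons (nat_lit 177) (nat_lit 313) (nat_lit 238) (nat_lit 1) (.cons
 (nat_lit 1578) (nat_lit 2723) (nat_lit 88) (nat_lit 1) .nil)), (nat_lit 41), (nat_lit 8), (nat_lit 7),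
 (nat_lit 1), (18, 7, 3), [49, 2425], 16⟩,
  ⟨⟨15, -4, -23, -10, 9, -10, 12, 12, -7⟩, (.cons (nat_lit 177) (nat_lit 313) (nat_lit 238) (nat_lit 1) (.cons
 (nat_lit 1578) (nat_lit 2723) (nat_lit 88) (nat_lit 1) .nil)), (nat_lit 41), (nat_lit 8), (nat_lit 7),
 (nat_lit 1), (18, 7, 3), [49, 2425], 16⟩,
  ⟨⟨15, -4, -23, -10, 9, -10, 12, 12, -7⟩, (.cons (nat_lit 177) (nat_lit 313) (nat_lit 238) (nat_lit 1) (.cons
 (nat_lit 1578) (nat_lit 2723) (nat_lit 88) (nat_lit 1) .nil)), (nat_lit 41), (nat_lit 8), (nat_lit 7),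
 (nat_lit 1), (18, 7, 3), [49, 2425], 16⟩,
  ⟨⟨-3, 16, 16, -10, 9, -10, 12, 12, -7⟩, (.cons (nat_lit 296) (nat_lit 76) (nat_lit 194) (nat_lit 1) (.cons
 (nat_lit 505) (nat_lit 453) (nat_lit 1) (nat_lit 1643) .nil)), (nat_lit 2), (nat_lit 35), (nat_lit 7),
 (nat_lit 1), (4, 7, 3), [8, 2512], 16⟩,
  ⟨⟨15, -4, -23, 10, -9, 10, 12, 12, -7⟩, (.cons (nat_lit 317) (nat_lit 293) (nat_lit 1) (nat_lit 190) (.cons
 (nat_lit 2250) (nat_lit 2332) (nat_lit 2799) (nat_lit 1) .nil)), (nat_lit 1), (nat_lit 37), (nat_lit 32),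
 (nat_lit 1), (18, 12, 3), [350, 127], 31⟩,
  ⟨⟨15, -4, -23, -10, 9, -10, 12, 12, -7⟩, (.cons (nat_lit 177) (nat_lit 313) (nat_lit 238) (nat_lit 1) (.cons
 (nat_lit 1578) (nat_lit 2723) (nat_lit 88) (nat_lit 1) .nil)), (nat_lit 41), (nat_lit 8), (nat_lit 7),
 (nat_lit 1), (18, 7, 3), [49, 2425], 16⟩,
  ⟨⟨15, -4, -23, -10, 9, -10, 12, 12, -7⟩, (.cons (nat_lit 177) (nat_lit 313) (nat_lit 238) (nat_lit 1) (.cons
 (nat_lit 1578) (nat_lit 2723) (nat_lit 88) (nat_lit 1) .nil)), (nat_lit 41), (nat_lit 8), (nat_lit 7),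
 (nat_lit 1), (18, 7, 3), [49, 2425], 16⟩,
  ⟨⟨-3, 16, 16, -10, 9, -10, 12, 12, -7⟩, (.cons (nat_lit 296) (nat_lit 76) (nat_lit 194) (nat_lit 1) (.cons
 (nat_lit 505) (nat_lit 453) (nat_lit 1) (nat_lit 1643) .nil)), (nat_lit 2), (nat_lit 35), (nat_lit 7),
 (nat_lit 1), (4, 7, 3), [8, 2512], 16⟩,
  ⟨⟨15, -4, -23, -10, 9, -10, 12, 12, -7⟩, (.cons (nat_lit 177) (nat_lit 313) (nat_lit 238) (nat_lit 1) (.cons
 (nat_lit 1578) (nat_lit 2723) (nat_lit 88) (nat_lit 1) .nil)), (nat_lit 41), (nat_lit 8), (nat_lit 7),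
 (nat_lit 1), (18, 7, 3), [49, 2425], 16⟩,
  ⟨⟨15, -4, -23, -10, 9, -10, 12, 12, -7⟩, (.cons (nat_lit 177) (nat_lit 313) (nat_lit 238) (nat_lit 1) (.cons
 (nat_lit 1578) (nat_lit 2723) (nat_lit 88) (nat_lit 1) .nil)), (nat_lit 41), (nat_lit 8), (nat_lit 7),
 (nat_lit 1), (18, 7, 3), [49, 2425], 16⟩,
  ⟨⟨-3, 16, 16, 10, -9, 10, 12, 12, -7⟩, (.cons (nat_lit 235) (nat_lit 147) (nat_lit 254) (nat_lit 1) (.cons
 (nat_lit 2808) (nat_lit 2388) (nat_lit 1282) (nat_lit 1) .nil)), (nat_lit 42), (nat_lit 6), (nat_lit 32),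
 (nat_lit 1), (4, 12, 3), [80, 1849], 31⟩]

/-- Moves. -/
noncomputable def t0_2 : List Mv := [
  ⟨⟨-11, 12, 20, 16, 5, 2, -2, 16, -5⟩, (.cons (nat_lit 131) (nat_lit 154) (nat_lit 242) (nat_lit 1) (.cons
 (nat_lit 1472) (nat_lit 2311) (nat_lit 590) (nat_lit 1) .nil)), (nat_lit 23), (nat_lit 7), (nat_lit 29),
 (nat_lit 1), (15, 11, 1), [46, 975], 20⟩,
  ⟨⟨9, 4, -25, -16, -5, -2, -2, 16, -5⟩, (.cons (nat_lit 274) (nat_lit 291) (nat_lit 265) (nat_lit 1) (.cons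
 (nat_lit 2630) (nat_lit 2314) (nat_lit 2643) (nat_lit 1) .nil)), (nat_lit 33), (nat_lit 13), (nat_lit 34),
 (nat_lit 1), (5, 8, 1), [52, 2791], 12⟩,
  ⟨⟨9, 4, -25, 16, 5, 2, -2, 16, -5⟩, (.cons (nat_lit 314) (nat_lit 176) (nat_lit 235) (nat_lit 1) (.cons
 (nat_lit 2648) (nat_lit 755) (nat_lit 2443) (nat_lit 1) .nil)), (nat_lit 20), (nat_lit 36), (nat_lit 29),
 (nat_lit 1), (5, 11, 1), [253, 1], 20⟩,
  ⟨⟨9, 4, -25, -16, -5, -2, -2, 16, -5⟩, (.cons (nat_lit 274) (nat_lit 291) (nat_lit 265) (nat_lit 1) (.cons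
 (nat_lit 2630) (nat_lit 2314) (nat_lit 2643) (nat_lit 1) .nil)), (nat_lit 33), (nat_lit 13), (nat_lit 34),
 (nat_lit 1), (5, 8, 1), [52, 2791], 12⟩,
  ⟨⟨9, 4, -25, -16, -5, -2, -2, 16, -5⟩, (.cons (nat_lit 274) (nat_lit 291) (nat_lit 265) (nat_lit 1) (.cons
 (nat_lit 2630) (nat_lit 2314) (nat_lit 2643) (nat_lit 1) .nil)), (nat_lit 33), (nat_lit 13), (nat_lit 34),
 (nat_lit 1), (5, 8, 1), [52, 2791], 12⟩,
  ⟨⟨9, 4, -25, 16, 5, 2, -2, 16, -5⟩, (.cons (nat_lit 314) (nat_lit 176) (nat_lit 235) (nat_lit 1) (.cons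
 (nat_lit 2648) (nat_lit 755) (nat_lit 2443) (nat_lit 1) .nil)), (nat_lit 20), (nat_lit 36), (nat_lit 29),
 (nat_lit 1), (5, 11, 1), [253, 1], 20⟩,
  ⟨⟨-11, 12, 20, 16, 5, 2, -2, 16, -5⟩, (.cons (nat_lit 131) (nat_lit 154) (nat_lit 242) (nat_lit 1) (.cons
 (nat_lit 1472) (nat_lit 2311) (nat_lit 590) (nat_lit 1) .nil)), (nat_lit 23), (nat_lit 7), (nat_lit 29),
 (nat_lit 1), (15, 11, 1), [46, 975], 20⟩,
  ⟨⟨-11, 12, 20, -16, -5, -2, -2, 16, -5⟩, (.cons (nat_lit 108) (nat_lit 314) (nat_lit 59) (nat_lit 1) (.cons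
 (nat_lit 2775) (nat_lit 2198) (nat_lit 909) (nat_lit 1) .nil)), (nat_lit 10), (nat_lit 30), (nat_lit 34),
 (nat_lit 1), (15, 8, 1), [7, 1478], 12⟩,
  ⟨⟨9, 4, -25, -16, -5, -2, -2, 16, -5⟩, (.cons (nat_lit 274) (nat_lit 291) (nat_lit 265) (nat_lit 1) (.cons
 (nat_lit 2630) (nat_lit 2314) (nat_lit 2643) (nat_lit 1) .nil)), (nat_lit 33), (nat_lit 13), (nat_lit 34),
 (nat_lit 1), (5, 8, 1), [52, 2791], 12⟩,
  ⟨⟨9, 4, -25, -16, -5, -2, -2, 16, -5⟩, (.cons (nat_lit 274) (nat_lit 291) (nat_lit 265) (nat_lit 1) (.cons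
 (nat_lit 2630) (nat_lit 2314) (nat_lit 2643) (nat_lit 1) .nil)), (nat_lit 33), (nat_lit 13), (nat_lit 34),
 (nat_lit 1), (5, 8, 1), [52, 2791], 12⟩,
  ⟨⟨9, 4, -25, -16, -5, -2, -2, 16, -5⟩, (.cons (nat_lit 274) (nat_lit 291) (nat_lit 265) (nat_lit 1) (.cons
 (nat_lit 2630) (nat_lit 2314) (nat_lit 2643) (nat_lit 1) .nil)), (nat_lit 33), (nat_lit 13), (nat_lit 34),
 (nat_lit 1), (5, 8, 1), [52, 2791], 12⟩,
  ⟨⟨9, 4, -25, -16, -5, -2, -2, 16, -5⟩, (.cons (nat_lit 274) (nat_lit 291) (nat_lit 265) (nat_lit 1) (.cons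
 (nat_lit 2630) (nat_lit 2314) (nat_lit 2643) (nat_lit 1) .nil)), (nat_lit 33), (nat_lit 13), (nat_lit 34),
 (nat_lit 1), (5, 8, 1), [52, 2791], 12⟩,
  ⟨⟨9, 4, -25, -16, -5, -2, -2, 16, -5⟩, (.cons (nat_lit 274) (nat_lit 291) (nat_lit 265) (nat_lit 1) (.cons
 (nat_lit 2630) (nat_lit 2314) (nat_lit 2643) (nat_lit 1) .nil)), (nat_lit 33), (nat_lit 13), (nat_lit 34),
 (nat_lit 1), (5, 8, 1), [52, 2791], 12⟩,
  ⟨⟨-11, 12, 20, -16, -5, -2, -2, 16, -5⟩, (.cons (nat_lit 108) (nat_lit 314) (nat_lit 59) (nat_lit 1) (.cons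
 (nat_lit 2775) (nat_lit 2198) (nat_lit 909) (nat_lit 1) .nil)), (nat_lit 10), (nat_lit 30), (nat_lit 34),
 (nat_lit 1), (15, 8, 1), [7, 1478], 12⟩,
  ⟨⟨9, 4, -25, -16, -5, -2, -2, 16, -5⟩, (.cons (nat_lit 274) (nat_lit 291) (nat_lit 265) (nat_lit 1) (.cons
 (nat_lit 2630) (nat_lit 2314) (nat_lit 2643) (nat_lit 1) .nil)), (nat_lit 33), (nat_lit 13), (nat_lit 34),
 (nat_lit 1), (5, 8, 1), [52, 2791], 12⟩,
  ⟨⟨9, 4, -25, 16, 5, 2, -2, 16, -5⟩, (.cons (nat_lit 314) (nat_lit 176) (nat_lit 235) (nat_lit 1) (.cons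
 (nat_lit 2648) (nat_lit 755) (nat_lit 2443) (nat_lit 1) .nil)), (nat_lit 20), (nat_lit 36), (nat_lit 29),
 (nat_lit 1), (5, 11, 1), [253, 1], 20⟩,
  ⟨⟨-11, 12, 20, -16, -5, -2, -2, 16, -5⟩, (.cons (nat_lit 108) (nat_lit 314) (nat_lit 59) (nat_lit 1) (.cons
 (nat_lit 2775) (nat_lit 2198) (nat_lit 909) (nat_lit 1) .nil)), (nat_lit 10), (nat_lit 30), (nat_lit 34),
 (nat_lit 1), (15, 8, 1), [7, 1478], 12⟩,
  ⟨⟨9, 4, -25, -16, -5, -2, -2, 16, -5⟩, (.cons (nat_lit 274) (nat_lit 291) (nat_lit 265) (nat_lit 1) (.cons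
 (nat_lit 2630) (nat_lit 2314) (nat_lit 2643) (nat_lit 1) .nil)), (nat_lit 33), (nat_lit 13), (nat_lit 34),
 (nat_lit 1), (5, 8, 1), [52, 2791], 12⟩,
  ⟨⟨9, 4, -25, -16, -5, -2, -2, 16, -5⟩, (.cons (nat_lit 274) (nat_lit 291) (nat_lit 265) (nat_lit 1) (.cons
 (nat_lit 2630) (nat_lit 2314) (nat_lit 2643) (nat_lit 1) .nil)), (nat_lit 33), (nat_lit 13), (nat_lit 34),
 (nat_lit 1), (5, 8, 1), [52, 2791], 12⟩]

/-- Moves. -/
noncomputable def t0_8 : List Mv := [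
  ⟨⟨17, -12, -9, -4, -5, -18, 14, 8, -13⟩, (.cons (nat_lit 67) (nat_lit 114) (nat_lit 350) (nat_lit 1) (.cons
 (nat_lit 2312) (nat_lit 950) (nat_lit 260) (nat_lit 1) .nil)), (nat_lit 33), (nat_lit 2), (nat_lit 6),
 (nat_lit 1), (9, 18, 13), [238, 2632], 12⟩,
  ⟨⟨17, -12, -9, -4, -5, -18, 14, 8, -13⟩, (.cons (nat_lit 67) (nat_lit 114) (nat_lit 350) (nat_lit 1) (.cons
 (nat_lit 2312) (nat_lit 950) (nat_lit 260) (nat_lit 1) .nil)), (nat_lit 33), (nat_lit 2), (nat_lit 6),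
 (nat_lit 1), (9, 18, 13), [238, 2632], 12⟩,
  ⟨⟨17, -12, -9, -4, -5, -18, 14, 8, -13⟩, (.cons (nat_lit 67) (nat_lit 114) (nat_lit 350) (nat_lit 1) (.cons
 (nat_lit 2312) (nat_lit 950) (nat_lit 260) (nat_lit 1) .nil)), (nat_lit 33), (nat_lit 2), (nat_lit 6),
 (nat_lit 1), (9, 18, 13), [238, 2632], 12⟩,
  ⟨⟨-3, 20, -4, -4, -5, -18, 14, 8, -13⟩, (.cons (nat_lit 100) (nat_lit 351) (nat_lit 181) (nat_lit 1) (.cons
 (nat_lit 1020) (nat_lit 1110) (nat_lit 297) (nat_lit 1) .nil)), (nat_lit 10), (nat_lit 41), (nat_lit 6),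
 (nat_lit 1), (4, 18, 13), [256, 2752], 12⟩,
  ⟨⟨-3, 20, -4, 4, 5, 18, 14, 8, -13⟩, (.cons (nat_lit 78) (nat_lit 138) (nat_lit 1) (nat_lit 285) (.cons
 (nat_lit 1082) (nat_lit 2317) (nat_lit 2072) (nat_lit 1) .nil)), (nat_lit 15), (nat_lit 24), (nat_lit 38),
 (nat_lit 1), (4, 1, 13), [71, 1896], 28⟩,
  ⟨⟨17, -12, -9, -4, -5, -18, 14, 8, -13⟩, (.cons (nat_lit 67) (nat_lit 114) (nat_lit 350) (nat_lit 1) (.cons
 (nat_lit 2312) (nat_lit 950) (nat_lit 260) (nat_lit 1) .nil)), (nat_lit 33), (nat_lit 2), (nat_lit 6),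
 (nat_lit 1), (9, 18, 13), [238, 2632], 12⟩,
  ⟨⟨17, -12, -9, -4, -5, -18, 14, 8, -13⟩, (.cons (nat_lit 67) (nat_lit 114) (nat_lit 350) (nat_lit 1) (.cons
 (nat_lit 2312) (nat_lit 950) (nat_lit 260) (nat_lit 1) .nil)), (nat_lit 33), (nat_lit 2), (nat_lit 6),
 (nat_lit 1), (9, 18, 13), [238, 2632], 12⟩,
  ⟨⟨17, -12, -9, -4, -5, -18, 14, 8, -13⟩, (.cons (nat_lit 67) (nat_lit 114) (nat_lit 350) (nat_lit 1) (.cons
 (nat_lit 2312) (nat_lit 950) (nat_lit 260) (nat_lit 1) .nil)), (nat_lit 33), (nat_lit 2), (nat_lit 6),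
 (nat_lit 1), (9, 18, 13), [238, 2632], 12⟩,
  ⟨⟨17, -12, -9, 4, 5, 18, 14, 8, -13⟩, (.cons (nat_lit 273) (nat_lit 128) (nat_lit 294) (nat_lit 1) (.cons
 (nat_lit 1321) (nat_lit 2471) (nat_lit 667) (nat_lit 1) .nil)), (nat_lit 28), (nat_lit 19), (nat_lit 38),
 (nat_lit 1), (9, 1, 13), [176, 433], 28⟩,
  ⟨⟨17, -12, -9, -4, -5, -18, 14, 8, -13⟩, (.cons (nat_lit 67) (nat_lit 114) (nat_lit 350) (nat_lit 1) (.cons
 (nat_lit 2312) (nat_lit 950) (nat_lit 260) (nat_lit 1) .nil)), (nat_lit 33), (nat_lit 2), (nat_lit 6),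
 (nat_lit 1), (9, 18, 13), [238, 2632], 12⟩,
  ⟨⟨17, -12, -9, -4, -5, -18, 14, 8, -13⟩, (.cons (nat_lit 67) (nat_lit 114) (nat_lit 350) (nat_lit 1) (.cons
 (nat_lit 2312) (nat_lit 950) (nat_lit 260) (nat_lit 1) .nil)), (nat_lit 33), (nat_lit 2), (nat_lit 6),
 (nat_lit 1), (9, 18, 13), [238, 2632], 12⟩,
  ⟨⟨17, -12, -9, -4, -5, -18, 14, 8, -13⟩, (.cons (nat_lit 67) (nat_lit 114) (nat_lit 350) (nat_lit 1) (.cons
 (nat_lit 2312) (nat_lit 950) (nat_lit 260) (nat_lit 1) .nil)), (nat_lit 33), (nat_lit 2), (nat_lit 6),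
 (nat_lit 1), (9, 18, 13), [238, 2632], 12⟩,
  ⟨⟨17, -12, -9, -4, -5, -18, 14, 8, -13⟩, (.cons (nat_lit 67) (nat_lit 114) (nat_lit 350) (nat_lit 1) (.cons
 (nat_lit 2312) (nat_lit 950) (nat_lit 260) (nat_lit 1) .nil)), (nat_lit 33), (nat_lit 2), (nat_lit 6),
 (nat_lit 1), (9, 18, 13), [238, 2632], 12⟩,
  ⟨⟨-3, 20, -4, -4, -5, -18, 14, 8, -13⟩, (.cons (nat_lit 100) (nat_lit 351) (nat_lit 181) (nat_lit 1) (.cons
 (nat_lit 1020) (nat_lit 1110) (nat_lit 297) (nat_lit 1) .nil)), (nat_lit 10), (nat_lit 41), (nat_lit 6),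
 (nat_lit 1), (4, 18, 13), [256, 2752], 12⟩,
  ⟨⟨-3, 20, -4, 4, 5, 18, 14, 8, -13⟩, (.cons (nat_lit 78) (nat_lit 138) (nat_lit 1) (nat_lit 285) (.cons
 (nat_lit 1082) (nat_lit 2317) (nat_lit 2072) (nat_lit 1) .nil)), (nat_lit 15), (nat_lit 24), (nat_lit 38),
 (nat_lit 1), (4, 1, 13), [71, 1896], 28⟩,
  ⟨⟨17, -12, -9, 4, 5, 18, 14, 8, -13⟩, (.cons (nat_lit 273) (nat_lit 128) (nat_lit 294) (nat_lit 1) (.cons
 (nat_lit 1321) (nat_lit 2471) (nat_lit 667) (nat_lit 1) .nil)), (nat_lit 28), (nat_lit 19), (nat_lit 38),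
 (nat_lit 1), (9, 1, 13), [176, 433], 28⟩,
  ⟨⟨17, -12, -9, 4, 5, 18, 14, 8, -13⟩, (.cons (nat_lit 273) (nat_lit 128) (nat_lit 294) (nat_lit 1) (.cons
 (nat_lit 1321) (nat_lit 2471) (nat_lit 667) (nat_lit 1) .nil)), (nat_lit 28), (nat_lit 19), (nat_lit 38),
 (nat_lit 1), (9, 1, 13), [176, 433], 28⟩,
  ⟨⟨17, -12, -9, -4, -5, -18, 14, 8, -13⟩, (.cons (nat_lit 67) (nat_lit 114) (nat_lit 350) (nat_lit 1) (.cons
 (nat_lit 2312) (nat_lit 950) (nat_lit 260) (nat_lit 1) .nil)), (nat_lit 33), (nat_lit 2), (nat_lit 6),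
 (nat_lit 1), (9, 18, 13), [238, 2632], 12⟩,
  ⟨⟨-3, 20, -4, -4, -5, -18, 14, 8, -13⟩, (.cons (nat_lit 100) (nat_lit 351) (nat_lit 181) (nat_lit 1) (.cons
 (nat_lit 1020) (nat_lit 1110) (nat_lit 297) (nat_lit 1) .nil)), (nat_lit 10), (nat_lit 41), (nat_lit 6),
 (nat_lit 1), (4, 18, 13), [256, 2752], 12⟩]

/-- Moves. -/
noncomputable def t1_1 : List Mv := [
  mz,
  mz,
  mz,
  mz,
  ⟨⟨-53, 0, 0, 10, -47, -30, -2, 20, -47⟩, (.cons (nat_lit 95) (nat_lit 215) (nat_lit 14) (nat_lit 1) (.cons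
 (nat_lit 746) (nat_lit 51) (nat_lit 128) (nat_lit 1) .nil)), (nat_lit 34), (nat_lit 38), (nat_lit 42),
 (nat_lit 1), (0, 39, 24), [348, 164], 11⟩,
  ⟨⟨51, -20, -47, 10, 47, -30, -2, -20, -47⟩, (.cons (nat_lit 9) (nat_lit 323) (nat_lit 22) (nat_lit 1) (.cons
 (nat_lit 2774) (nat_lit 1863) (nat_lit 2153) (nat_lit 1) .nil)), (nat_lit 1), (nat_lit 34), (nat_lit 26),
 (nat_lit 1), (12, 46, 12), [340, 2631], 15⟩,
  ⟨⟨15, 56, -11, -28, 5, -36, 40, 8, -47⟩, (.cons (nat_lit 279) (nat_lit 228) (nat_lit 22) (nat_lit 1) (.cons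
 (nat_lit 2695) (nat_lit 350) (nat_lit 1620) (nat_lit 1) .nil)), (nat_lit 10), (nat_lit 12), (nat_lit 26),
 (nat_lit 1), (1, 37, 38), [166, 2505], 10⟩,
  mz,
  mz,
  ⟨⟨-33, -20, -32, 8, 45, -34, 24, -24, -49⟩, (.cons (nat_lit 312) (nat_lit 139) (nat_lit 72) (nat_lit 1)
 (.cons (nat_lit 565) (nat_lit 1464) (nat_lit 1695) (nat_lit 1) .nil)), (nat_lit 1), (nat_lit 23), (nat_lit
 42), (nat_lit 1), (35, 14, 42), [176, 2241], 25⟩,
  ⟨⟨-25, 48, -11, 28, -5, -64, -40, -8, -7⟩, (.cons (nat_lit 268) (nat_lit 88) (nat_lit 148) (nat_lit 1) (.cons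
 (nat_lit 1455) (nat_lit 2755) (nat_lit 1785) (nat_lit 1) .nil)), (nat_lit 31), (nat_lit 36), (nat_lit 1),
 (nat_lit 1), (52, 52, 9), [85, 2339], 36⟩,
  ⟨⟨15, -32, 44, -50, -17, 30, 14, -44, -19⟩, (.cons (nat_lit 97) (nat_lit 164) (nat_lit 310) (nat_lit 1)
 (.cons (nat_lit 1320) (nat_lit 1688) (nat_lit 352) (nat_lit 1) .nil)), (nat_lit 27), (nat_lit 28), (nat_lit
 26), (nat_lit 1), (29, 27, 20), [71, 2652], 42⟩,
  ⟨⟨53, 0, -53, 10, 47, 20, 2, 20, -49⟩, (.cons (nat_lit 150) (nat_lit 175) (nat_lit 285) (nat_lit 1) (.cons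
 (nat_lit 416) (nat_lit 492) (nat_lit 2224) (nat_lit 1) .nil)), (nat_lit 1), (nat_lit 1), (nat_lit 24),
 (nat_lit 1), (0, 28, 48), [125, 1091], 15⟩,
  mz,
  mz,
  ⟨⟨53, 0, -53, 10, -47, 20, 2, -20, -49⟩, (.cons (nat_lit 105) (nat_lit 223) (nat_lit 154) (nat_lit 1) (.cons
 (nat_lit 2023) (nat_lit 577) (nat_lit 1526) (nat_lit 1) .nil)), (nat_lit 24), (nat_lit 9), (nat_lit 24),
 (nat_lit 1), (0, 21, 36), [186, 738], 15⟩,
  ⟨⟨15, 52, 16, 10, 17, -60, 46, 4, -11⟩, (.cons (nat_lit 154) (nat_lit 23) (nat_lit 37) (nat_lit 1) (.cons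
 (nat_lit 1327) (nat_lit 2140) (nat_lit 995) (nat_lit 1) .nil)), (nat_lit 27), (nat_lit 42), (nat_lit 3),
 (nat_lit 1), (24, 16, 10), [119, 1560], 1⟩,
  ⟨⟨31, -48, -4, 10, 17, 50, 46, 4, -35⟩, (.cons (nat_lit 193) (nat_lit 335) (nat_lit 318) (nat_lit 1) (.cons
 (nat_lit 961) (nat_lit 526) (nat_lit 1160) (nat_lit 1) .nil)), (nat_lit 23), (nat_lit 34), (nat_lit 23),
 (nat_lit 1), (18, 40, 25), [290, 2455], 22⟩,
  ⟨⟨-57, -4, 40, 8, -45, 26, -24, -24, -25⟩, (.cons (nat_lit 181) (nat_lit 227) (nat_lit 141) (nat_lit 1)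
 (.cons (nat_lit 2200) (nat_lit 1790) (nat_lit 2303) (nat_lit 1) .nil)), (nat_lit 32), (nat_lit 32), (nat_lit
 28), (nat_lit 1), (12, 29, 19), [186, 2176], 40⟩,
  mz,
  mz,
  ⟨⟨-33, 20, -32, 8, -45, -34, 24, 24, -49⟩, (.cons (nat_lit 2) (nat_lit 268) (nat_lit 79) (nat_lit 1) (.cons
 (nat_lit 28) (nat_lit 1466) (nat_lit 402) (nat_lit 1) .nil)), (nat_lit 39), (nat_lit 42), (nat_lit 26),
 (nat_lit 1), (47, 40, 14), [22, 2223], 38⟩,
  ⟨⟨45, 28, -49, 28, -45, -14, 0, 0, -53⟩, (.cons (nat_lit 342) (nat_lit 83) (nat_lit 1) (nat_lit 19) (.cons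
 (nat_lit 358) (nat_lit 1201) (nat_lit 2700) (nat_lit 1) .nil)), (nat_lit 42), (nat_lit 21), (nat_lit 13),
 (nat_lit 1), (24, 22, 0), [294, 2053], 12⟩,
  mz,
  ⟨⟨-13, 48, -27, 30, -17, -60, 30, 36, -7⟩, (.cons (nat_lit 351) (nat_lit 300) (nat_lit 127) (nat_lit 1)
 (.cons (nat_lit 882) (nat_lit 673) (nat_lit 745) (nat_lit 1) .nil)), (nat_lit 20), (nat_lit 39), (nat_lit 18),
 (nat_lit 1), (11, 48, 48), [35, 501], 26⟩,
  mz,
  ⟨⟨-25, -48, -11, 28, 5, -64, -40, 8, -7⟩, (.cons (nat_lit 49) (nat_lit 134) (nat_lit 250) (nat_lit 1) (.cons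
 (nat_lit 2156) (nat_lit 1920) (nat_lit 1) (nat_lit 1219) .nil)), (nat_lit 10), (nat_lit 31), (nat_lit 17),
 (nat_lit 1), (2, 2, 35), [32, 171], 10⟩,
  mz,
  ⟨⟨-1, -48, 37, 52, 5, -16, 8, -40, -31⟩, (.cons (nat_lit 22) (nat_lit 38) (nat_lit 238) (nat_lit 1) (.cons
 (nat_lit 2138) (nat_lit 2455) (nat_lit 1434) (nat_lit 1) .nil)), (nat_lit 13), (nat_lit 16), (nat_lit 6),
 (nat_lit 1), (29, 29, 33), [202, 1464], 13⟩,
  ⟨⟨-13, 48, 40, -30, 17, -30, 30, 36, -23⟩, (.cons (nat_lit 278) (nat_lit 16) (nat_lit 331) (nat_lit 1) (.cons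
 (nat_lit 1679) (nat_lit 1827) (nat_lit 1024) (nat_lit 1) .nil)), (nat_lit 15), (nat_lit 17), (nat_lit 12),
 (nat_lit 1), (42, 48, 5), [258, 1184], 41⟩,
  mz,
  ⟨⟨-45, 28, -4, -28, -45, 14, 0, 0, -53⟩, (.cons (nat_lit 248) (nat_lit 214) (nat_lit 154) (nat_lit 1) (.cons
 (nat_lit 1091) (nat_lit 219) (nat_lit 1907) (nat_lit 1) .nil)), (nat_lit 1), (nat_lit 21), (nat_lit 30),
 (nat_lit 1), (14, 4, 0), [2, 810], 12⟩,
  mz,
  ⟨⟨-39, 28, -17, 10, -33, -50, 18, 36, -37⟩, (.cons (nat_lit 26) (nat_lit 207) (nat_lit 244) (nat_lit 1)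
 (.cons (nat_lit 1444) (nat_lit 968) (nat_lit 1303) (nat_lit 1) .nil)), (nat_lit 14), (nat_lit 40), (nat_lit
 35), (nat_lit 1), (43, 8, 25), [175, 1428], 14⟩,
  mz,
  mz,
  ⟨⟨-9, 8, -59, 52, -5, -36, -8, -40, -23⟩, (.cons (nat_lit 295) (nat_lit 32) (nat_lit 21) (nat_lit 1) (.cons
 (nat_lit 2549) (nat_lit 711) (nat_lit 610) (nat_lit 1) .nil)), (nat_lit 25), (nat_lit 3), (nat_lit 18),
 (nat_lit 1), (2, 12, 43), [235, 1425], 11⟩,
  ⟨⟨-1, 48, 37, 52, -5, -16, 8, 40, -31⟩, (.cons (nat_lit 192) (nat_lit 86) (nat_lit 208) (nat_lit 1) (.cons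
 (nat_lit 1052) (nat_lit 1760) (nat_lit 1147) (nat_lit 1) .nil)), (nat_lit 31), (nat_lit 38), (nat_lit 10),
 (nat_lit 1), (26, 26, 4), [351, 2003], 36⟩,
  ⟨⟨39, 28, -56, -10, -33, -40, -18, 36, -19⟩, (.cons (nat_lit 165) (nat_lit 108) (nat_lit 341) (nat_lit 1)
 (.cons (nat_lit 1911) (nat_lit 2057) (nat_lit 52) (nat_lit 1) .nil)), (nat_lit 29), (nat_lit 40), (nat_lit 8),
 (nat_lit 1), (34, 47, 21), [124, 1689], 14⟩,
  ⟨⟨15, -56, -11, -28, -5, -36, 40, -8, -47⟩, (.cons (nat_lit 157) (nat_lit 291) (nat_lit 167) (nat_lit 1)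
 (.cons (nat_lit 20) (nat_lit 996) (nat_lit 2522) (nat_lit 1) .nil)), (nat_lit 31), (nat_lit 7), (nat_lit 42),
 (nat_lit 1), (31, 34, 12), [112, 2163], 36⟩,
  ⟨⟨1, 48, 36, 52, 5, -36, -8, 40, -23⟩, (.cons (nat_lit 64) (nat_lit 252) (nat_lit 162) (nat_lit 1) (.cons
 (nat_lit 390) (nat_lit 1720) (nat_lit 1335) (nat_lit 1) .nil)), (nat_lit 33), (nat_lit 1), (nat_lit 32),
 (nat_lit 1), (38, 15, 14), [305, 1952], 10⟩,
  ⟨⟨31, 48, -4, -10, 17, -50, 46, -4, -35⟩, (.cons (nat_lit 248) (nat_lit 329) (nat_lit 277) (nat_lit 1) (.cons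
 (nat_lit 1055) (nat_lit 332) (nat_lit 1604) (nat_lit 1) .nil)), (nat_lit 15), (nat_lit 38), (nat_lit 27),
 (nat_lit 1), (15, 2, 12), [82, 572], 5⟩,
  ⟨⟨-57, 4, 40, -8, -45, -26, -24, 24, -25⟩, (.cons (nat_lit 351) (nat_lit 297) (nat_lit 227) (nat_lit 1)
 (.cons (nat_lit 482) (nat_lit 1179) (nat_lit 1885) (nat_lit 1) .nil)), (nat_lit 39), (nat_lit 1), (nat_lit
 17), (nat_lit 1), (25, 50, 44), [198, 14], 38⟩,
  ⟨⟨15, 32, 44, -50, 17, 30, 14, 44, -19⟩, (.cons (nat_lit 260) (nat_lit 262) (nat_lit 350) (nat_lit 1) (.cons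
 (nat_lit 482) (nat_lit 634) (nat_lit 2139) (nat_lit 1) .nil)), (nat_lit 15), (nat_lit 6), (nat_lit 42),
 (nat_lit 1), (27, 16, 4), [256, 1706], 5⟩,
  ⟨⟨-15, 32, 59, 50, 17, -20, -14, 44, -5⟩, (.cons (nat_lit 339) (nat_lit 222) (nat_lit 261) (nat_lit 1) (.cons
 (nat_lit 891) (nat_lit 482) (nat_lit 2029) (nat_lit 1) .nil)), (nat_lit 28), (nat_lit 6), (nat_lit 1),
 (nat_lit 1), (6, 33, 48), [18, 445], 5⟩,
  mz,
  ⟨⟨-13, -48, -27, -30, -17, 60, 30, -36, -7⟩, (.cons (nat_lit 198) (nat_lit 288) (nat_lit 299) (nat_lit 1)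
 (.cons (nat_lit 1878) (nat_lit 2054) (nat_lit 1355) (nat_lit 1) .nil)), (nat_lit 28), (nat_lit 17), (nat_lit
 31), (nat_lit 1), (14, 16, 37), [149, 382], 2⟩,
  ⟨⟨-15, -32, 59, 50, -17, -20, -14, -44, -5⟩, (.cons (nat_lit 224) (nat_lit 175) (nat_lit 96) (nat_lit 1)
 (.cons (nat_lit 2375) (nat_lit 609) (nat_lit 1128) (nat_lit 1) .nil)), (nat_lit 16), (nat_lit 28), (nat_lit
 17), (nat_lit 1), (8, 44, 11), [215, 1990], 42⟩,
  ⟨⟨15, -52, 16, 10, -17, -60, 46, -4, -11⟩, (.cons (nat_lit 1) (nat_lit 56) (nat_lit 105) (nat_lit 1) (.cons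
 (nat_lit 1105) (nat_lit 1901) (nat_lit 1002) (nat_lit 1) .nil)), (nat_lit 23), (nat_lit 9), (nat_lit 20),
 (nat_lit 1), (14, 27, 50), [317, 805], 21⟩,
  ⟨⟨-39, -28, -17, 10, 33, -50, 18, -36, -37⟩, (.cons (nat_lit 10) (nat_lit 291) (nat_lit 353) (nat_lit 1)
 (.cons (nat_lit 1333) (nat_lit 1082) (nat_lit 2453) (nat_lit 1) .nil)), (nat_lit 1), (nat_lit 9), (nat_lit
 14), (nat_lit 1), (5, 49, 14), [91, 1692], 40⟩,
  ⟨⟨39, -28, -56, -10, 33, -40, -18, -36, -19⟩, (.cons (nat_lit 360) (nat_lit 175) (nat_lit 181) (nat_lit 1)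
 (.cons (nat_lit 1760) (nat_lit 1943) (nat_lit 2452) (nat_lit 1) .nil)), (nat_lit 42), (nat_lit 9), (nat_lit
 29), (nat_lit 1), (49, 35, 10), [178, 1221], 40⟩,
  mz,
  ⟨⟨-13, -48, 40, 30, 17, 30, 30, -36, -23⟩, (.cons (nat_lit 274) (nat_lit 309) (nat_lit 278) (nat_lit 1)
 (.cons (nat_lit 2662) (nat_lit 2301) (nat_lit 1086) (nat_lit 1) .nil)), (nat_lit 23), (nat_lit 39), (nat_lit
 25), (nat_lit 1), (45, 47, 47), [153, 1832], 17⟩]

/-- Moves. -/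
noncomputable def t1_2 : List Mv := [
  mz,
  mz,
  mz,
  mz,
  ⟨⟨51, 20, -47, -10, 47, 30, -2, 20, -47⟩, (.cons (nat_lit 142) (nat_lit 59) (nat_lit 323) (nat_lit 1) (.cons
 (nat_lit 771) (nat_lit 182) (nat_lit 1005) (nat_lit 1) .nil)), (nat_lit 1), (nat_lit 42), (nat_lit 19),
 (nat_lit 1), (24, 14, 24), [359, 2363], 15⟩,
  ⟨⟨51, -20, -47, 10, 47, -30, -2, -20, -47⟩, (.cons (nat_lit 9) (nat_lit 323) (nat_lit 22) (nat_lit 1) (.cons
 (nat_lit 2774) (nat_lit 1863) (nat_lit 2153) (nat_lit 1) .nil)), (nat_lit 1), (nat_lit 34), (nat_lit 26),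
 (nat_lit 1), (12, 46, 12), [340, 2631], 15⟩,
  ⟨⟨15, 56, -11, -28, 5, -36, 40, 8, -47⟩, (.cons (nat_lit 279) (nat_lit 228) (nat_lit 22) (nat_lit 1) (.cons
 (nat_lit 2695) (nat_lit 350) (nat_lit 1620) (nat_lit 1) .nil)), (nat_lit 10), (nat_lit 12), (nat_lit 26),
 (nat_lit 1), (1, 37, 38), [166, 2505], 10⟩,
  mz,
  mz,
  ⟨⟨57, -4, -17, 8, 45, -34, 24, -24, -49⟩, (.cons (nat_lit 360) (nat_lit 29) (nat_lit 182) (nat_lit 1) (.cons
 (nat_lit 2048) (nat_lit 38) (nat_lit 1794) (nat_lit 1) .nil)), (nat_lit 42), (nat_lit 20), (nat_lit 42),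
 (nat_lit 1), (7, 14, 42), [12, 1517], 25⟩,
  ⟨⟨-25, 48, -11, 28, -5, -64, -40, -8, -7⟩, (.cons (nat_lit 268) (nat_lit 88) (nat_lit 148) (nat_lit 1) (.cons
 (nat_lit 1455) (nat_lit 2755) (nat_lit 1785) (nat_lit 1) .nil)), (nat_lit 31), (nat_lit 36), (nat_lit 1),
 (nat_lit 1), (52, 52, 9), [85, 2339], 36⟩,
  ⟨⟨15, -32, 44, 50, 17, -30, 14, -44, -19⟩, (.cons (nat_lit 115) (nat_lit 70) (nat_lit 274) (nat_lit 1) (.cons
 (nat_lit 2249) (nat_lit 1588) (nat_lit 82) (nat_lit 1) .nil)), (nat_lit 23), (nat_lit 29), (nat_lit 24),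
 (nat_lit 1), (29, 26, 20), [6, 1562], 22⟩,
  ⟨⟨-51, 20, 4, -10, -47, -20, 2, 20, -49⟩, (.cons (nat_lit 57) (nat_lit 117) (nat_lit 85) (nat_lit 1) (.cons
 (nat_lit 1105) (nat_lit 2442) (nat_lit 2547) (nat_lit 1) .nil)), (nat_lit 34), (nat_lit 5), (nat_lit 1),
 (nat_lit 1), (48, 25, 48), [253, 2352], 11⟩,
  mz,
  mz,
  ⟨⟨-51, -20, 4, -10, 47, -20, 2, -20, -49⟩, (.cons (nat_lit 360) (nat_lit 161) (nat_lit 226) (nat_lit 1)
 (.cons (nat_lit 2336) (nat_lit 1845) (nat_lit 2781) (nat_lit 1) .nil)), (nat_lit 42), (nat_lit 34), (nat_lit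
 17), (nat_lit 1), (36, 32, 36), [312, 625], 15⟩,
  ⟨⟨31, -48, -27, -10, -17, 60, 46, 4, -11⟩, (.cons (nat_lit 111) (nat_lit 231) (nat_lit 48) (nat_lit 1) (.cons
 (nat_lit 812) (nat_lit 2335) (nat_lit 2189) (nat_lit 1) .nil)), (nat_lit 28), (nat_lit 38), (nat_lit 16),
 (nat_lit 1), (39, 37, 10), [210, 932], 38⟩,
  ⟨⟨31, -48, -4, -10, -17, -50, 46, 4, -35⟩, (.cons (nat_lit 67) (nat_lit 203) (nat_lit 168) (nat_lit 1) (.cons
 (nat_lit 256) (nat_lit 2259) (nat_lit 1541) (nat_lit 1) .nil)), (nat_lit 8), (nat_lit 34), (nat_lit 7),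
 (nat_lit 1), (18, 13, 25), [317, 2297], 22⟩,
  ⟨⟨-57, -4, 40, -8, 45, -26, -24, -24, -25⟩, (.cons (nat_lit 221) (nat_lit 327) (nat_lit 333) (nat_lit 1)
 (.cons (nat_lit 504) (nat_lit 282) (nat_lit 1911) (nat_lit 1) .nil)), (nat_lit 1), (nat_lit 20), (nat_lit 1),
 (nat_lit 1), (12, 24, 19), [245, 930], 25⟩,
  mz,
  mz,
  ⟨⟨-33, 20, -32, 8, -45, -34, 24, 24, -49⟩, (.cons (nat_lit 2) (nat_lit 268) (nat_lit 79) (nat_lit 1) (.cons
 (nat_lit 28) (nat_lit 1466) (nat_lit 402) (nat_lit 1) .nil)), (nat_lit 39), (nat_lit 42), (nat_lit 26),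
 (nat_lit 1), (47, 40, 14), [22, 2223], 38⟩,
  ⟨⟨-45, -28, -4, 28, -45, -14, 0, 0, -53⟩, (.cons (nat_lit 115) (nat_lit 299) (nat_lit 340) (nat_lit 1) (.cons
 (nat_lit 1779) (nat_lit 2569) (nat_lit 1526) (nat_lit 1) .nil)), (nat_lit 1), (nat_lit 22), (nat_lit 13),
 (nat_lit 1), (29, 22, 0), [97, 2769], 12⟩,
  mz,
  ⟨⟨-13, 48, -27, -30, 17, 60, 30, 36, -7⟩, (.cons (nat_lit 187) (nat_lit 49) (nat_lit 324) (nat_lit 1) (.cons
 (nat_lit 1516) (nat_lit 1300) (nat_lit 1770) (nat_lit 1) .nil)), (nat_lit 1), (nat_lit 12), (nat_lit 38),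
 (nat_lit 1), (11, 5, 48), [227, 1087], 8⟩,
  mz,
  ⟨⟨-15, 56, 4, -28, -5, 64, -40, 8, -7⟩, (.cons (nat_lit 17) (nat_lit 297) (nat_lit 163) (nat_lit 1) (.cons
 (nat_lit 2761) (nat_lit 2703) (nat_lit 1858) (nat_lit 1) .nil)), (nat_lit 18), (nat_lit 39), (nat_lit 35),
 (nat_lit 1), (33, 51, 35), [338, 2539], 11⟩,
  mz,
  ⟨⟨-1, -48, 37, 52, 5, -16, 8, -40, -31⟩, (.cons (nat_lit 22) (nat_lit 38) (nat_lit 238) (nat_lit 1) (.cons
 (nat_lit 2138) (nat_lit 2455) (nat_lit 1434) (nat_lit 1) .nil)), (nat_lit 13), (nat_lit 16), (nat_lit 6),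
 (nat_lit 1), (29, 29, 33), [202, 1464], 13⟩,
  ⟨⟨43, -12, -63, -30, 17, -30, 30, 36, -23⟩, (.cons (nat_lit 36) (nat_lit 30) (nat_lit 121) (nat_lit 1) (.cons
 (nat_lit 470) (nat_lit 618) (nat_lit 2144) (nat_lit 1) .nil)), (nat_lit 28), (nat_lit 26), (nat_lit 12),
 (nat_lit 1), (16, 48, 5), [126, 1326], 41⟩,
  mz,
  ⟨⟨45, -28, -49, 28, 45, -14, 0, 0, -53⟩, (.cons (nat_lit 134) (nat_lit 238) (nat_lit 232) (nat_lit 1) (.cons
 (nat_lit 2384) (nat_lit 372) (nat_lit 1920) (nat_lit 1) .nil)), (nat_lit 1), (nat_lit 33), (nat_lit 41),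
 (nat_lit 1), (39, 49, 0), [300, 1179], 18⟩,
  mz,
  ⟨⟨-39, 28, -17, 10, -33, -50, 18, 36, -37⟩, (.cons (nat_lit 26) (nat_lit 207) (nat_lit 244) (nat_lit 1)
 (.cons (nat_lit 1444) (nat_lit 968) (nat_lit 1303) (nat_lit 1) .nil)), (nat_lit 14), (nat_lit 40), (nat_lit
 35), (nat_lit 1), (43, 8, 25), [175, 1428], 14⟩,
  mz,
  mz,
  ⟨⟨-9, 8, -59, 52, -5, -36, -8, -40, -23⟩, (.cons (nat_lit 295) (nat_lit 32) (nat_lit 21) (nat_lit 1) (.cons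
 (nat_lit 2549) (nat_lit 711) (nat_lit 610) (nat_lit 1) .nil)), (nat_lit 25), (nat_lit 3), (nat_lit 18),
 (nat_lit 1), (2, 12, 43), [235, 1425], 11⟩,
  ⟨⟨9, -8, -68, 52, -5, -16, 8, 40, -31⟩, (.cons (nat_lit 85) (nat_lit 25) (nat_lit 224) (nat_lit 1) (.cons
 (nat_lit 2653) (nat_lit 630) (nat_lit 206) (nat_lit 1) .nil)), (nat_lit 12), (nat_lit 5), (nat_lit 10),
 (nat_lit 1), (31, 26, 4), [246, 722], 36⟩,
  ⟨⟨39, 28, -56, -10, -33, -40, -18, 36, -19⟩, (.cons (nat_lit 165) (nat_lit 108) (nat_lit 341) (nat_lit 1)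
 (.cons (nat_lit 1911) (nat_lit 2057) (nat_lit 52) (nat_lit 1) .nil)), (nat_lit 29), (nat_lit 40), (nat_lit 8),
 (nat_lit 1), (34, 47, 21), [124, 1689], 14⟩,
  ⟨⟨15, -56, -11, -28, -5, -36, 40, -8, -47⟩, (.cons (nat_lit 157) (nat_lit 291) (nat_lit 167) (nat_lit 1)
 (.cons (nat_lit 20) (nat_lit 996) (nat_lit 2522) (nat_lit 1) .nil)), (nat_lit 31), (nat_lit 7), (nat_lit 42),
 (nat_lit 1), (31, 34, 12), [112, 2163], 36⟩,
  ⟨⟨-9, -8, -59, 52, 5, -36, -8, 40, -23⟩, (.cons (nat_lit 32) (nat_lit 173) (nat_lit 190) (nat_lit 1) (.cons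
 (nat_lit 793) (nat_lit 1430) (nat_lit 1770) (nat_lit 1) .nil)), (nat_lit 10), (nat_lit 42), (nat_lit 32),
 (nat_lit 1), (29, 15, 14), [33, 2207], 10⟩,
  ⟨⟨31, 48, -4, -10, 17, -50, 46, -4, -35⟩, (.cons (nat_lit 248) (nat_lit 329) (nat_lit 277) (nat_lit 1) (.cons
 (nat_lit 1055) (nat_lit 332) (nat_lit 1604) (nat_lit 1) .nil)), (nat_lit 15), (nat_lit 38), (nat_lit 27),
 (nat_lit 1), (15, 2, 12), [82, 572], 5⟩,
  ⟨⟨-57, 4, 40, -8, -45, -26, -24, 24, -25⟩, (.cons (nat_lit 351) (nat_lit 297) (nat_lit 227) (nat_lit 1)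
 (.cons (nat_lit 482) (nat_lit 1179) (nat_lit 1885) (nat_lit 1) .nil)), (nat_lit 39), (nat_lit 1), (nat_lit
 17), (nat_lit 1), (25, 50, 44), [198, 14], 38⟩,
  ⟨⟨15, 32, 44, -50, 17, 30, 14, 44, -19⟩, (.cons (nat_lit 260) (nat_lit 262) (nat_lit 350) (nat_lit 1) (.cons
 (nat_lit 482) (nat_lit 634) (nat_lit 2139) (nat_lit 1) .nil)), (nat_lit 15), (nat_lit 6), (nat_lit 42),
 (nat_lit 1), (27, 16, 4), [256, 1706], 5⟩,
  ⟨⟨-15, 32, 59, 50, 17, -20, -14, 44, -5⟩, (.cons (nat_lit 339) (nat_lit 222) (nat_lit 261) (nat_lit 1) (.cons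
 (nat_lit 891) (nat_lit 482) (nat_lit 2029) (nat_lit 1) .nil)), (nat_lit 28), (nat_lit 6), (nat_lit 1),
 (nat_lit 1), (6, 33, 48), [18, 445], 5⟩,
  mz,
  ⟨⟨-13, -48, -27, 30, 17, -60, 30, -36, -7⟩, (.cons (nat_lit 168) (nat_lit 311) (nat_lit 349) (nat_lit 1)
 (.cons (nat_lit 774) (nat_lit 1255) (nat_lit 2260) (nat_lit 1) .nil)), (nat_lit 1), (nat_lit 25), (nat_lit
 32), (nat_lit 1), (14, 37, 37), [208, 1564], 8⟩,
  ⟨⟨1, -12, -64, 50, -17, -20, -14, -44, -5⟩, (.cons (nat_lit 98) (nat_lit 7) (nat_lit 359) (nat_lit 1) (.cons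
 (nat_lit 1336) (nat_lit 6) (nat_lit 1185) (nat_lit 1) .nil)), (nat_lit 27), (nat_lit 15), (nat_lit 17),
 (nat_lit 1), (3, 44, 11), [160, 2653], 42⟩,
  ⟨⟨15, -52, 16, -10, 17, 60, 46, -4, -11⟩, (.cons (nat_lit 70) (nat_lit 232) (nat_lit 140) (nat_lit 1) (.cons
 (nat_lit 1467) (nat_lit 2250) (nat_lit 1849) (nat_lit 1) .nil)), (nat_lit 8), (nat_lit 9), (nat_lit 36),
 (nat_lit 1), (14, 26, 50), [92, 1463], 21⟩,
  ⟨⟨-39, -28, -17, -10, -33, 50, 18, -36, -37⟩, (.cons (nat_lit 90) (nat_lit 176) (nat_lit 226) (nat_lit 1)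
 (.cons (nat_lit 1516) (nat_lit 1780) (nat_lit 648) (nat_lit 1) .nil)), (nat_lit 40), (nat_lit 9), (nat_lit
 24), (nat_lit 1), (5, 4, 14), [172, 234], 40⟩,
  ⟨⟨39, -28, -56, -10, 33, -40, -18, -36, -19⟩, (.cons (nat_lit 360) (nat_lit 175) (nat_lit 181) (nat_lit 1)
 (.cons (nat_lit 1760) (nat_lit 1943) (nat_lit 2452) (nat_lit 1) .nil)), (nat_lit 42), (nat_lit 9), (nat_lit
 29), (nat_lit 1), (49, 35, 10), [178, 1221], 40⟩,
  mz,
  ⟨⟨43, 12, -63, 30, 17, 30, 30, -36, -23⟩, (.cons (nat_lit 31) (nat_lit 97) (nat_lit 117) (nat_lit 1) (.cons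
 (nat_lit 1990) (nat_lit 2628) (nat_lit 1495) (nat_lit 1) .nil)), (nat_lit 20), (nat_lit 4), (nat_lit 25),
 (nat_lit 1), (2, 47, 47), [128, 112], 17⟩]

/-- Moves. -/
noncomputable def t1_8 : List Mv := [
  mz,
  mz,
  mz,
  mz,
  ⟨⟨51, 20, -47, 10, -47, -30, -2, 20, -47⟩, (.cons (nat_lit 306) (nat_lit 352) (nat_lit 167) (nat_lit 1)
 (.cons (nat_lit 649) (nat_lit 549) (nat_lit 1128) (nat_lit 1) .nil)), (nat_lit 9), (nat_lit 5), (nat_lit 42),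
 (nat_lit 1), (24, 39, 24), [212, 2166], 11⟩,
  ⟨⟨-53, 0, 0, -10, -47, 30, -2, -20, -47⟩, (.cons (nat_lit 232) (nat_lit 299) (nat_lit 1) (nat_lit 19) (.cons
 (nat_lit 1970) (nat_lit 2631) (nat_lit 837) (nat_lit 1) .nil)), (nat_lit 19), (nat_lit 9), (nat_lit 19),
 (nat_lit 1), (0, 7, 12), [267, 730], 15⟩,
  ⟨⟨25, -48, -36, 28, -5, 36, 40, 8, -47⟩, (.cons (nat_lit 146) (nat_lit 131) (nat_lit 1) (nat_lit 228) (.cons
 (nat_lit 414) (nat_lit 2791) (nat_lit 967) (nat_lit 1) .nil)), (nat_lit 18), (nat_lit 4), (nat_lit 8),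
 (nat_lit 1), (37, 16, 38), [27, 1843], 11⟩,
  mz,
  mz,
  ⟨⟨-33, -20, -32, -8, -45, 34, 24, -24, -49⟩, (.cons (nat_lit 36) (nat_lit 138) (nat_lit 131) (nat_lit 1)
 (.cons (nat_lit 1145) (nat_lit 1745) (nat_lit 715) (nat_lit 1) .nil)), (nat_lit 32), (nat_lit 11), (nat_lit
 15), (nat_lit 1), (35, 39, 42), [298, 2143], 40⟩,
  ⟨⟨-25, 48, -11, 28, -5, -64, -40, -8, -7⟩, (.cons (nat_lit 268) (nat_lit 88) (nat_lit 148) (nat_lit 1) (.cons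
 (nat_lit 1455) (nat_lit 2755) (nat_lit 1785) (nat_lit 1) .nil)), (nat_lit 31), (nat_lit 36), (nat_lit 1),
 (nat_lit 1), (52, 52, 9), [85, 2339], 36⟩,
  ⟨⟨-1, -12, -63, 50, 17, -30, 14, -44, -19⟩, (.cons (nat_lit 348) (nat_lit 115) (nat_lit 263) (nat_lit 1)
 (.cons (nat_lit 964) (nat_lit 2139) (nat_lit 1266) (nat_lit 1) .nil)), (nat_lit 20), (nat_lit 14), (nat_lit
 24), (nat_lit 1), (44, 26, 20), [249, 866], 22⟩,
  ⟨⟨-51, 20, 4, -10, -47, -20, 2, 20, -49⟩, (.cons (nat_lit 57) (nat_lit 117) (nat_lit 85) (nat_lit 1) (.cons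
 (nat_lit 1105) (nat_lit 2442) (nat_lit 2547) (nat_lit 1) .nil)), (nat_lit 34), (nat_lit 5), (nat_lit 1),
 (nat_lit 1), (48, 25, 48), [253, 2352], 11⟩,
  mz,
  mz,
  ⟨⟨53, 0, -53, -10, 47, -20, 2, -20, -49⟩, (.cons (nat_lit 321) (nat_lit 285) (nat_lit 158) (nat_lit 1) (.cons
 (nat_lit 1549) (nat_lit 203) (nat_lit 331) (nat_lit 1) .nil)), (nat_lit 1), (nat_lit 9), (nat_lit 17),
 (nat_lit 1), (0, 32, 36), [334, 1037], 15⟩,
  ⟨⟨15, 52, 16, 10, 17, -60, 46, 4, -11⟩, (.cons (nat_lit 154) (nat_lit 23) (nat_lit 37) (nat_lit 1) (.cons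
 (nat_lit 1327) (nat_lit 2140) (nat_lit 995) (nat_lit 1) .nil)), (nat_lit 27), (nat_lit 42), (nat_lit 3),
 (nat_lit 1), (24, 16, 10), [119, 1560], 1⟩,
  ⟨⟨31, -48, -4, 10, 17, 50, 46, 4, -35⟩, (.cons (nat_lit 193) (nat_lit 335) (nat_lit 318) (nat_lit 1) (.cons
 (nat_lit 961) (nat_lit 526) (nat_lit 1160) (nat_lit 1) .nil)), (nat_lit 23), (nat_lit 34), (nat_lit 23),
 (nat_lit 1), (18, 40, 25), [290, 2455], 22⟩,
  ⟨⟨-57, -4, 40, -8, 45, -26, -24, -24, -25⟩, (.cons (nat_lit 221) (nat_lit 327) (nat_lit 333) (nat_lit 1)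
 (.cons (nat_lit 504) (nat_lit 282) (nat_lit 1911) (nat_lit 1) .nil)), (nat_lit 1), (nat_lit 20), (nat_lit 1),
 (nat_lit 1), (12, 24, 19), [245, 930], 25⟩,
  mz,
  mz,
  ⟨⟨-33, 20, -32, 8, -45, -34, 24, 24, -49⟩, (.cons (nat_lit 2) (nat_lit 268) (nat_lit 79) (nat_lit 1) (.cons
 (nat_lit 28) (nat_lit 1466) (nat_lit 402) (nat_lit 1) .nil)), (nat_lit 39), (nat_lit 42), (nat_lit 26),
 (nat_lit 1), (47, 40, 14), [22, 2223], 38⟩,
  ⟨⟨45, 28, -49, 28, -45, -14, 0, 0, -53⟩, (.cons (nat_lit 342) (nat_lit 83) (nat_lit 1) (nat_lit 19) (.cons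
 (nat_lit 358) (nat_lit 1201) (nat_lit 2700) (nat_lit 1) .nil)), (nat_lit 42), (nat_lit 21), (nat_lit 13),
 (nat_lit 1), (24, 22, 0), [294, 2053], 12⟩,
  mz,
  ⟨⟨-13, 48, -27, 30, -17, -60, 30, 36, -7⟩, (.cons (nat_lit 351) (nat_lit 300) (nat_lit 127) (nat_lit 1)
 (.cons (nat_lit 882) (nat_lit 673) (nat_lit 745) (nat_lit 1) .nil)), (nat_lit 20), (nat_lit 39), (nat_lit 18),
 (nat_lit 1), (11, 48, 48), [35, 501], 26⟩,
  mz,
  ⟨⟨-25, -48, -11, 28, 5, -64, -40, 8, -7⟩, (.cons (nat_lit 49) (nat_lit 134) (nat_lit 250) (nat_lit 1) (.cons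
 (nat_lit 2156) (nat_lit 1920) (nat_lit 1) (nat_lit 1219) .nil)), (nat_lit 10), (nat_lit 31), (nat_lit 17),
 (nat_lit 1), (2, 2, 35), [32, 171], 10⟩,
  mz,
  ⟨⟨-1, -48, 37, 52, 5, -16, 8, -40, -31⟩, (.cons (nat_lit 22) (nat_lit 38) (nat_lit 238) (nat_lit 1) (.cons
 (nat_lit 2138) (nat_lit 2455) (nat_lit 1434) (nat_lit 1) .nil)), (nat_lit 13), (nat_lit 16), (nat_lit 6),
 (nat_lit 1), (29, 29, 33), [202, 1464], 13⟩,
  ⟨⟨43, -12, -63, -30, 17, -30, 30, 36, -23⟩, (.cons (nat_lit 36) (nat_lit 30) (nat_lit 121) (nat_lit 1) (.cons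
 (nat_lit 470) (nat_lit 618) (nat_lit 2144) (nat_lit 1) .nil)), (nat_lit 28), (nat_lit 26), (nat_lit 12),
 (nat_lit 1), (16, 48, 5), [126, 1326], 41⟩,
  mz,
  ⟨⟨45, -28, -49, 28, 45, -14, 0, 0, -53⟩, (.cons (nat_lit 134) (nat_lit 238) (nat_lit 232) (nat_lit 1) (.cons
 (nat_lit 2384) (nat_lit 372) (nat_lit 1920) (nat_lit 1) .nil)), (nat_lit 1), (nat_lit 33), (nat_lit 41),
 (nat_lit 1), (39, 49, 0), [300, 1179], 18⟩,
  mz,
  ⟨⟨57, 8, -20, 10, -33, -50, 18, 36, -37⟩, (.cons (nat_lit 108) (nat_lit 335) (nat_lit 333) (nat_lit 1) (.cons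
 (nat_lit 885) (nat_lit 511) (nat_lit 2495) (nat_lit 1) .nil)), (nat_lit 29), (nat_lit 3), (nat_lit 35),
 (nat_lit 1), (35, 8, 25), [352, 1226], 14⟩,
  mz,
  mz,
  ⟨⟨-9, 8, -59, 52, -5, -36, -8, -40, -23⟩, (.cons (nat_lit 295) (nat_lit 32) (nat_lit 21) (nat_lit 1) (.cons
 (nat_lit 2549) (nat_lit 711) (nat_lit 610) (nat_lit 1) .nil)), (nat_lit 25), (nat_lit 3), (nat_lit 18),
 (nat_lit 1), (2, 12, 43), [235, 1425], 11⟩,
  ⟨⟨-1, 48, 37, 52, -5, -16, 8, 40, -31⟩, (.cons (nat_lit 192) (nat_lit 86) (nat_lit 208) (nat_lit 1) (.cons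
 (nat_lit 1052) (nat_lit 1760) (nat_lit 1147) (nat_lit 1) .nil)), (nat_lit 31), (nat_lit 38), (nat_lit 10),
 (nat_lit 1), (26, 26, 4), [351, 2003], 36⟩,
  ⟨⟨-57, 8, 37, -10, -33, -40, -18, 36, -19⟩, (.cons (nat_lit 357) (nat_lit 343) (nat_lit 182) (nat_lit 1)
 (.cons (nat_lit 1745) (nat_lit 2058) (nat_lit 1273) (nat_lit 1) .nil)), (nat_lit 14), (nat_lit 3), (nat_lit
 8), (nat_lit 1), (40, 47, 21), [225, 101], 14⟩,
  ⟨⟨25, 48, -36, 28, 5, 36, 40, -8, -47⟩, (.cons (nat_lit 220) (nat_lit 154) (nat_lit 99) (nat_lit 1) (.cons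
 (nat_lit 1869) (nat_lit 804) (nat_lit 321) (nat_lit 1) .nil)), (nat_lit 30), (nat_lit 13), (nat_lit 29),
 (nat_lit 1), (34, 19, 12), [349, 2213], 13⟩,
  ⟨⟨1, 48, 36, -52, -5, 36, -8, 40, -23⟩, (.cons (nat_lit 323) (nat_lit 234) (nat_lit 225) (nat_lit 1) (.cons
 (nat_lit 2556) (nat_lit 311) (nat_lit 2228) (nat_lit 1) .nil)), (nat_lit 12), (nat_lit 38), (nat_lit 33),
 (nat_lit 1), (38, 38, 14), [129, 2147], 36⟩,
  ⟨⟨31, 48, -4, -10, 17, -50, 46, -4, -35⟩, (.cons (nat_lit 248) (nat_lit 329) (nat_lit 277) (nat_lit 1) (.cons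
 (nat_lit 1055) (nat_lit 332) (nat_lit 1604) (nat_lit 1) .nil)), (nat_lit 15), (nat_lit 38), (nat_lit 27),
 (nat_lit 1), (15, 2, 12), [82, 572], 5⟩,
  ⟨⟨-57, 4, 40, -8, -45, -26, -24, 24, -25⟩, (.cons (nat_lit 351) (nat_lit 297) (nat_lit 227) (nat_lit 1)
 (.cons (nat_lit 482) (nat_lit 1179) (nat_lit 1885) (nat_lit 1) .nil)), (nat_lit 39), (nat_lit 1), (nat_lit
 17), (nat_lit 1), (25, 50, 44), [198, 14], 38⟩,
  ⟨⟨15, 32, 44, 50, -17, -30, 14, 44, -19⟩, (.cons (nat_lit 108) (nat_lit 182) (nat_lit 348) (nat_lit 1) (.cons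
 (nat_lit 2239) (nat_lit 416) (nat_lit 2194) (nat_lit 1) .nil)), (nat_lit 8), (nat_lit 35), (nat_lit 24),
 (nat_lit 1), (27, 37, 4), [79, 2460], 22⟩,
  ⟨⟨1, 12, -64, -50, -17, 20, -14, 44, -5⟩, (.cons (nat_lit 143) (nat_lit 321) (nat_lit 124) (nat_lit 1) (.cons
 (nat_lit 1187) (nat_lit 1178) (nat_lit 104) (nat_lit 1) .nil)), (nat_lit 8), (nat_lit 8), (nat_lit 19),
 (nat_lit 1), (42, 20, 48), [70, 2271], 22⟩,
  mz,
  ⟨⟨-13, -48, -27, 30, 17, -60, 30, -36, -7⟩, (.cons (nat_lit 168) (nat_lit 311) (nat_lit 349) (nat_lit 1)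
 (.cons (nat_lit 774) (nat_lit 1255) (nat_lit 2260) (nat_lit 1) .nil)), (nat_lit 1), (nat_lit 25), (nat_lit
 32), (nat_lit 1), (14, 37, 37), [208, 1564], 8⟩,
  ⟨⟨-15, -32, 59, 50, -17, -20, -14, -44, -5⟩, (.cons (nat_lit 224) (nat_lit 175) (nat_lit 96) (nat_lit 1)
 (.cons (nat_lit 2375) (nat_lit 609) (nat_lit 1128) (nat_lit 1) .nil)), (nat_lit 16), (nat_lit 28), (nat_lit
 17), (nat_lit 1), (8, 44, 11), [215, 1990], 42⟩,
  ⟨⟨15, -52, 16, 10, -17, -60, 46, -4, -11⟩, (.cons (nat_lit 1) (nat_lit 56) (nat_lit 105) (nat_lit 1) (.cons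
 (nat_lit 1105) (nat_lit 1901) (nat_lit 1002) (nat_lit 1) .nil)), (nat_lit 23), (nat_lit 9), (nat_lit 20),
 (nat_lit 1), (14, 27, 50), [317, 805], 21⟩,
  ⟨⟨57, -8, -20, -10, -33, 50, 18, -36, -37⟩, (.cons (nat_lit 117) (nat_lit 154) (nat_lit 27) (nat_lit 1)
 (.cons (nat_lit 171) (nat_lit 923) (nat_lit 222) (nat_lit 1) .nil)), (nat_lit 3), (nat_lit 34), (nat_lit 24),
 (nat_lit 1), (9, 4, 14), [261, 322], 40⟩,
  ⟨⟨39, -28, -56, -10, 33, -40, -18, -36, -19⟩, (.cons (nat_lit 360) (nat_lit 175) (nat_lit 181) (nat_lit 1)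
 (.cons (nat_lit 1760) (nat_lit 1943) (nat_lit 2452) (nat_lit 1) .nil)), (nat_lit 42), (nat_lit 9), (nat_lit
 29), (nat_lit 1), (49, 35, 10), [178, 1221], 40⟩,
  mz,
  ⟨⟨43, 12, -63, -30, -17, -30, 30, -36, -23⟩, (.cons (nat_lit 139) (nat_lit 48) (nat_lit 89) (nat_lit 1)
 (.cons (nat_lit 2374) (nat_lit 2513) (nat_lit 1923) (nat_lit 1) .nil)), (nat_lit 1), (nat_lit 31), (nat_lit
 5), (nat_lit 1), (2, 6, 47), [283, 1454], 35⟩]

/-- Moves. -/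
noncomputable def t4_1 : List Mv := [
  mz,
  ⟨⟨33, -32, -5, 2, 15, 44, 36, 12, -25⟩, (.cons (nat_lit 125) (nat_lit 90) (nat_lit 81) (nat_lit 1) (.cons
 (nat_lit 2431) (nat_lit 2130) (nat_lit 1236) (nat_lit 1) .nil)), (nat_lit 21), (nat_lit 0), (nat_lit 0),
 (nat_lit 0), (9, 24, 2), [162, 1940], 0⟩,
  mz,
  mz,
  ⟨⟨19, 36, -36, -20, -13, -30, 34, -8, -35⟩, (.cons (nat_lit 213) (nat_lit 206) (nat_lit 88) (nat_lit 1)
 (.cons (nat_lit 1618) (nat_lit 1200) (nat_lit 290) (nat_lit 1) .nil)), (nat_lit 18), (nat_lit 0), (nat_lit 0),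
 (nat_lit 0), (14, 26, 16), [332, 1108], 0⟩,
  ⟨⟨33, -32, -28, 2, 15, -46, 36, 12, -11⟩, (.cons (nat_lit 296) (nat_lit 82) (nat_lit 336) (nat_lit 1) (.cons
 (nat_lit 2504) (nat_lit 143) (nat_lit 2487) (nat_lit 1) .nil)), (nat_lit 21), (nat_lit 0), (nat_lit 0),
 (nat_lit 0), (19, 22, 9), [159, 563], 0⟩,
  ⟨⟨-37, -24, 0, -20, 37, 0, 2, -8, -43⟩, (.cons (nat_lit 360) (nat_lit 157) (nat_lit 119) (nat_lit 1) (.cons
 (nat_lit 2808) (nat_lit 2428) (nat_lit 2265) (nat_lit 1) .nil)), (nat_lit 6), (nat_lit 0), (nat_lit 0),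
 (nat_lit 0), (12, 3, 4), [174, 562], 0⟩,
  ⟨⟨-3, -32, 40, 20, 27, 20, 30, -24, -13⟩, (.cons (nat_lit 215) (nat_lit 28) (nat_lit 128) (nat_lit 1) (.cons
 (nat_lit 365) (nat_lit 2126) (nat_lit 755) (nat_lit 1) .nil)), (nat_lit 30), (nat_lit 0), (nat_lit 0),
 (nat_lit 0), (1, 22, 33), [106, 1810], 0⟩,
  ⟨⟨-39, -16, -4, 20, -37, -20, -2, 8, -41⟩, (.cons (nat_lit 32) (nat_lit 274) (nat_lit 244) (nat_lit 1) (.cons
 (nat_lit 801) (nat_lit 1111) (nat_lit 441) (nat_lit 1) .nil)), (nat_lit 37), (nat_lit 0), (nat_lit 0),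
 (nat_lit 0), (6, 30, 40), [233, 2467], 0⟩,
  ⟨⟨-29, 0, -27, 0, -43, 0, 18, 0, -47⟩, (.cons (nat_lit 59) (nat_lit 50) (nat_lit 246) (nat_lit 1) (.cons (nat_lit 680) (nat_lit 577) (nat_lit 864) (nat_lit 1) .nil)), (nat_lit 34), (nat_lit 0), (nat_lit 0), (nat_lit 0), (33, 0, 24), [25, 75], 0⟩,
  ⟨⟨-9, -16, -44, 38, 15, -34, 12, -36, -13⟩, (.cons (nat_lit 150) (nat_lit 29) (nat_lit 1) (nat_lit 285)
 (.cons (nat_lit 2448) (nat_lit 1257) (nat_lit 214) (nat_lit 1) .nil)), (nat_lit 5), (nat_lit 0), (nat_lit 0),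
 (nat_lit 0), (15, 37, 23), [235, 1879], 0⟩,
  mz,
  ⟨⟨-15, 44, 16, 20, 13, -50, -34, 8, -1⟩, (.cons (nat_lit 74) (nat_lit 191) (nat_lit 252) (nat_lit 1) (.cons
 (nat_lit 1850) (nat_lit 77) (nat_lit 2449) (nat_lit 1) .nil)), (nat_lit 25), (nat_lit 0), (nat_lit 0),
 (nat_lit 0), (28, 20, 9), [231, 1842], 0⟩,
  ⟨⟨33, 8, 20, 20, 27, -40, 30, -24, -17⟩, (.cons (nat_lit 323) (nat_lit 327) (nat_lit 1) (nat_lit 38) (.cons
 (nat_lit 2808) (nat_lit 794) (nat_lit 2546) (nat_lit 1) .nil)), (nat_lit 13), (nat_lit 0), (nat_lit 0),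
 (nat_lit 0), (4, 35, 31), [343, 1070], 0⟩,
  mz,
  mz,
  mz,
  ⟨⟨9, -4, -56, 40, -13, -10, 14, 32, -25⟩, (.cons (nat_lit 308) (nat_lit 141) (nat_lit 290) (nat_lit 1) (.cons
 (nat_lit 1194) (nat_lit 2634) (nat_lit 1941) (nat_lit 1) .nil)), (nat_lit 12), (nat_lit 0), (nat_lit 0),
 (nat_lit 0), (19, 8, 20), [313, 2804], 0⟩,
  ⟨⟨-5, -36, 36, 40, -13, -30, -14, -32, -11⟩, (.cons (nat_lit 100) (nat_lit 338) (nat_lit 225) (nat_lit 1)
 (.cons (nat_lit 1467) (nat_lit 843) (nat_lit 1538) (nat_lit 1) .nil)), (nat_lit 4), (nat_lit 0), (nat_lit 0),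
 (nat_lit 0), (11, 41, 5), [244, 2265], 0⟩,
  mz,
  mz,
  ⟨⟨21, 20, 31, -38, 15, 34, 12, 36, -13⟩, (.cons (nat_lit 26) (nat_lit 187) (nat_lit 60) (nat_lit 1) (.cons
 (nat_lit 810) (nat_lit 2235) (nat_lit 1653) (nat_lit 1) .nil)), (nat_lit 1), (nat_lit 0), (nat_lit 0),
 (nat_lit 0), (12, 9, 13), [129, 257], 0⟩,
  ⟨⟨9, 16, -53, -38, -15, 4, -12, 36, -1⟩, (.cons (nat_lit 99) (nat_lit 264) (nat_lit 247) (nat_lit 1) (.cons
 (nat_lit 1305) (nat_lit 1065) (nat_lit 2510) (nat_lit 1) .nil)), (nat_lit 5), (nat_lit 0), (nat_lit 0),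
 (nat_lit 0), (1, 34, 13), [229, 1574], 0⟩,
  mz,
  mz,
  ⟨⟨9, 4, -56, 40, 13, -10, 14, -32, -25⟩, (.cons (nat_lit 161) (nat_lit 295) (nat_lit 221) (nat_lit 1) (.cons
 (nat_lit 1611) (nat_lit 2358) (nat_lit 1306) (nat_lit 1) .nil)), (nat_lit 12), (nat_lit 0), (nat_lit 0),
 (nat_lit 0), (37, 2, 5), [205, 362], 0⟩,
  ⟨⟨-5, 36, 36, -40, -13, 30, -14, 32, -11⟩, (.cons (nat_lit 250) (nat_lit 46) (nat_lit 181) (nat_lit 1) (.cons
 (nat_lit 1625) (nat_lit 1324) (nat_lit 1746) (nat_lit 1) .nil)), (nat_lit 31), (nat_lit 0), (nat_lit 0),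
 (nat_lit 0), (1, 8, 20), [347, 1539], 0⟩,
  mz,
  mz,
  mz,
  ⟨⟨-3, 32, 40, -20, 27, -20, 30, 24, -13⟩, (.cons (nat_lit 225) (nat_lit 198) (nat_lit 80) (nat_lit 1) (.cons
 (nat_lit 1316) (nat_lit 2757) (nat_lit 806) (nat_lit 1) .nil)), (nat_lit 7), (nat_lit 0), (nat_lit 0),
 (nat_lit 0), (16, 35, 12), [346, 754], 0⟩,
  ⟨⟨19, -36, -36, 20, -13, 30, 34, 8, -35⟩, (.cons (nat_lit 13) (nat_lit 124) (nat_lit 174) (nat_lit 1) (.cons
 (nat_lit 2223) (nat_lit 580) (nat_lit 680) (nat_lit 1) .nil)), (nat_lit 26), (nat_lit 0), (nat_lit 0),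
 (nat_lit 0), (24, 23, 9), [161, 1184], 0⟩,
  mz,
  ⟨⟨-21, -20, 52, 38, -15, -4, -12, -36, -1⟩, (.cons (nat_lit 220) (nat_lit 281) (nat_lit 332) (nat_lit 1)
 (.cons (nat_lit 1762) (nat_lit 1141) (nat_lit 1456) (nat_lit 1) .nil)), (nat_lit 1), (nat_lit 0), (nat_lit 0),
 (nat_lit 0), (8, 6, 23), [50, 126], 0⟩,
  ⟨⟨-47, 0, 27, 0, -43, 0, -18, 0, -29⟩, (.cons (nat_lit 257) (nat_lit 146) (nat_lit 314) (nat_lit 1) (.cons
 (nat_lit 789) (nat_lit 2614) (nat_lit 891) (nat_lit 1) .nil)), (nat_lit 9), (nat_lit 0), (nat_lit 0), (nat_lit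
 0), (34, 0, 24), [11, 686], 0⟩,
  ⟨⟨-37, 24, 0, -20, -37, 0, 2, 8, -43⟩, (.cons (nat_lit 184) (nat_lit 150) (nat_lit 145) (nat_lit 1) (.cons
 (nat_lit 1596) (nat_lit 2531) (nat_lit 1189) (nat_lit 1) .nil)), (nat_lit 6), (nat_lit 0), (nat_lit 0),
 (nat_lit 0), (34, 30, 40), [290, 1831], 0⟩,
  ⟨⟨33, -8, 20, -20, 27, 40, 30, 24, -17⟩, (.cons (nat_lit 360) (nat_lit 83) (nat_lit 290) (nat_lit 1) (.cons
 (nat_lit 2808) (nat_lit 436) (nat_lit 507) (nat_lit 1) .nil)), (nat_lit 36), (nat_lit 0), (nat_lit 0),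
 (nat_lit 0), (11, 22, 10), [66, 2432], 0⟩,
  ⟨⟨37, -24, -37, -20, -37, 20, -2, -8, -41⟩, (.cons (nat_lit 343) (nat_lit 292) (nat_lit 1) (nat_lit 171)
 (.cons (nat_lit 408) (nat_lit 1864) (nat_lit 665) (nat_lit 1) .nil)), (nat_lit 35), (nat_lit 0), (nat_lit 0),
 (nat_lit 0), (12, 40, 4), [212, 385], 0⟩,
  ⟨⟨3, -44, -20, -2, 15, -44, 36, -12, -25⟩, (.cons (nat_lit 354) (nat_lit 267) (nat_lit 254) (nat_lit 1)
 (.cons (nat_lit 909) (nat_lit 1347) (nat_lit 164) (nat_lit 1) .nil)), (nat_lit 33), (nat_lit 0), (nat_lit 0),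
 (nat_lit 0), (10, 22, 34), [44, 755], 0⟩,
  ⟨⟨-15, -44, 16, -20, 13, 50, -34, -8, -1⟩, (.cons (nat_lit 175) (nat_lit 202) (nat_lit 83) (nat_lit 1) (.cons
 (nat_lit 47) (nat_lit 804) (nat_lit 2625) (nat_lit 1) .nil)), (nat_lit 17), (nat_lit 0), (nat_lit 0), (nat_lit
 0), (2, 17, 16), [284, 884], 0⟩,
  mz,
  mz,
  ⟨⟨33, 32, -28, 2, -15, -46, 36, -12, -11⟩, (.cons (nat_lit 8) (nat_lit 235) (nat_lit 159) (nat_lit 1) (.cons
 (nat_lit 2140) (nat_lit 1654) (nat_lit 555) (nat_lit 1) .nil)), (nat_lit 21), (nat_lit 0), (nat_lit 0),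
 (nat_lit 0), (34, 19, 41), [262, 1319], 0⟩]

/-- Moves. -/
noncomputable def t4_2 : List Mv := [
  mz,
  ⟨⟨3, 44, -20, 2, 15, 44, 36, 12, -25⟩, (.cons (nat_lit 276) (nat_lit 193) (nat_lit 1) (nat_lit 190) (.cons
 (nat_lit 328) (nat_lit 1205) (nat_lit 2690) (nat_lit 1) .nil)), (nat_lit 22), (nat_lit 0), (nat_lit 0),
 (nat_lit 0), (36, 24, 2), [118, 289], 0⟩,
  mz,
  mz,
  ⟨⟨19, 36, -36, -20, -13, -30, 34, -8, -35⟩, (.cons (nat_lit 213) (nat_lit 206) (nat_lit 88) (nat_lit 1)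
 (.cons (nat_lit 1618) (nat_lit 1200) (nat_lit 290) (nat_lit 1) .nil)), (nat_lit 18), (nat_lit 0), (nat_lit 0),
 (nat_lit 0), (14, 26, 16), [332, 1108], 0⟩,
  ⟨⟨3, 44, 17, 2, 15, -46, 36, 12, -11⟩, (.cons (nat_lit 62) (nat_lit 238) (nat_lit 209) (nat_lit 1) (.cons
 (nat_lit 734) (nat_lit 2001) (nat_lit 364) (nat_lit 1) .nil)), (nat_lit 22), (nat_lit 0), (nat_lit 0),
 (nat_lit 0), (33, 22, 9), [203, 1448], 0⟩,
  ⟨⟨-37, -24, 0, -20, 37, 0, 2, -8, -43⟩, (.cons (nat_lit 360) (nat_lit 157) (nat_lit 119) (nat_lit 1) (.cons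
 (nat_lit 2808) (nat_lit 2428) (nat_lit 2265) (nat_lit 1) .nil)), (nat_lit 6), (nat_lit 0), (nat_lit 0),
 (nat_lit 0), (12, 3, 4), [174, 562], 0⟩,
  ⟨⟨33, 8, -53, -20, -27, -20, 30, -24, -13⟩, (.cons (nat_lit 253) (nat_lit 109) (nat_lit 292) (nat_lit 1)
 (.cons (nat_lit 289) (nat_lit 2713) (nat_lit 370) (nat_lit 1) .nil)), (nat_lit 36), (nat_lit 0), (nat_lit 0),
 (nat_lit 0), (32, 21, 33), [4, 2354], 0⟩,
  ⟨⟨-39, -16, -4, -20, 37, 20, -2, 8, -41⟩, (.cons (nat_lit 360) (nat_lit 16) (nat_lit 169) (nat_lit 1) (.cons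
 (nat_lit 2808) (nat_lit 1052) (nat_lit 2023) (nat_lit 1) .nil)), (nat_lit 8), (nat_lit 0), (nat_lit 0),
 (nat_lit 0), (6, 13, 40), [288, 1940], 0⟩,
  ⟨⟨-29, 0, -27, 0, -43, 0, 18, 0, -47⟩, (.cons (nat_lit 59) (nat_lit 50) (nat_lit 246) (nat_lit 1) (.cons (nat_lit 680) (nat_lit 577) (nat_lit 864) (nat_lit 1) .nil)), (nat_lit 34), (nat_lit 0), (nat_lit 0), (nat_lit 0), (33, 0, 24), [25, 75], 0⟩,
  ⟨⟨21, -20, 31, 38, 15, -34, 12, -36, -13⟩, (.cons (nat_lit 243) (nat_lit 299) (nat_lit 329) (nat_lit 1)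
 (.cons (nat_lit 2466) (nat_lit 1676) (nat_lit 970) (nat_lit 1) .nil)), (nat_lit 38), (nat_lit 0), (nat_lit 0),
 (nat_lit 0), (8, 37, 23), [136, 1890], 0⟩,
  mz,
  ⟨⟨-15, 44, 16, -20, -13, 50, -34, 8, -1⟩, (.cons (nat_lit 252) (nat_lit 207) (nat_lit 203) (nat_lit 1) (.cons
 (nat_lit 407) (nat_lit 1000) (nat_lit 2151) (nat_lit 1) .nil)), (nat_lit 17), (nat_lit 0), (nat_lit 0),
 (nat_lit 0), (28, 23, 9), [92, 410], 0⟩,
  ⟨⟨33, 8, 20, 20, 27, -40, 30, -24, -17⟩, (.cons (nat_lit 323) (nat_lit 327) (nat_lit 1) (nat_lit 38) (.cons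
 (nat_lit 2808) (nat_lit 794) (nat_lit 2546) (nat_lit 1) .nil)), (nat_lit 13), (nat_lit 0), (nat_lit 0),
 (nat_lit 0), (4, 35, 31), [343, 1070], 0⟩,
  mz,
  mz,
  mz,
  ⟨⟨9, -4, -56, -40, 13, 10, 14, 32, -25⟩, (.cons (nat_lit 328) (nat_lit 168) (nat_lit 212) (nat_lit 1) (.cons
 (nat_lit 1793) (nat_lit 2254) (nat_lit 1259) (nat_lit 1) .nil)), (nat_lit 39), (nat_lit 0), (nat_lit 0),
 (nat_lit 0), (19, 35, 20), [260, 2227], 0⟩,
  ⟨⟨-5, -36, 36, 40, -13, -30, -14, -32, -11⟩, (.cons (nat_lit 100) (nat_lit 338) (nat_lit 225) (nat_lit 1)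
 (.cons (nat_lit 1467) (nat_lit 843) (nat_lit 1538) (nat_lit 1) .nil)), (nat_lit 4), (nat_lit 0), (nat_lit 0),
 (nat_lit 0), (11, 41, 5), [244, 2265], 0⟩,
  mz,
  mz,
  ⟨⟨21, 20, 31, 38, -15, -34, 12, 36, -13⟩, (.cons (nat_lit 259) (nat_lit 350) (nat_lit 312) (nat_lit 1) (.cons
 (nat_lit 2743) (nat_lit 1293) (nat_lit 1985) (nat_lit 1) .nil)), (nat_lit 38), (nat_lit 0), (nat_lit 0),
 (nat_lit 0), (12, 34, 13), [234, 1566], 0⟩,
  ⟨⟨-21, 20, 52, 38, 15, -4, -12, 36, -1⟩, (.cons (nat_lit 19) (nat_lit 32) (nat_lit 17) (nat_lit 1) (.cons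
 (nat_lit 334) (nat_lit 2026) (nat_lit 420) (nat_lit 1) .nil)), (nat_lit 1), (nat_lit 0), (nat_lit 0), (nat_lit
 0), (12, 9, 13), [168, 791], 0⟩,
  mz,
  mz,
  ⟨⟨5, -36, 31, -40, -13, 10, 14, -32, -25⟩, (.cons (nat_lit 212) (nat_lit 5) (nat_lit 208) (nat_lit 1) (.cons
 (nat_lit 1114) (nat_lit 410) (nat_lit 2184) (nat_lit 1) .nil)), (nat_lit 4), (nat_lit 0), (nat_lit 0),
 (nat_lit 0), (11, 41, 5), [135, 2001], 0⟩,
  ⟨⟨-5, 36, 36, 40, 13, -30, -14, 32, -11⟩, (.cons (nat_lit 245) (nat_lit 225) (nat_lit 334) (nat_lit 1) (.cons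
 (nat_lit 1108) (nat_lit 2255) (nat_lit 1367) (nat_lit 1) .nil)), (nat_lit 4), (nat_lit 0), (nat_lit 0),
 (nat_lit 0), (1, 35, 20), [288, 2637], 0⟩,
  mz,
  mz,
  mz,
  ⟨⟨33, -8, -53, -20, 27, -20, 30, 24, -13⟩, (.cons (nat_lit 167) (nat_lit 224) (nat_lit 298) (nat_lit 1)
 (.cons (nat_lit 1319) (nat_lit 931) (nat_lit 821) (nat_lit 1) .nil)), (nat_lit 36), (nat_lit 0), (nat_lit 0),
 (nat_lit 0), (39, 35, 12), [297, 1553], 0⟩,
  ⟨⟨19, -36, -36, -20, 13, -30, 34, 8, -35⟩, (.cons (nat_lit 347) (nat_lit 268) (nat_lit 81) (nat_lit 1) (.cons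
 (nat_lit 1634) (nat_lit 1098) (nat_lit 2434) (nat_lit 1) .nil)), (nat_lit 18), (nat_lit 0), (nat_lit 0),
 (nat_lit 0), (24, 20, 9), [222, 160], 0⟩,
  mz,
  ⟨⟨-21, -20, 52, 38, -15, -4, -12, -36, -1⟩, (.cons (nat_lit 220) (nat_lit 281) (nat_lit 332) (nat_lit 1)
 (.cons (nat_lit 1762) (nat_lit 1141) (nat_lit 1456) (nat_lit 1) .nil)), (nat_lit 1), (nat_lit 0), (nat_lit 0),
 (nat_lit 0), (8, 6, 23), [50, 126], 0⟩,
  ⟨⟨-47, 0, 27, 0, -43, 0, -18, 0, -29⟩, (.cons (nat_lit 257) (nat_lit 146) (nat_lit 314) (nat_lit 1) (.cons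
 (nat_lit 789) (nat_lit 2614) (nat_lit 891) (nat_lit 1) .nil)), (nat_lit 9), (nat_lit 0), (nat_lit 0), (nat_lit
 0), (34, 0, 24), [11, 686], 0⟩,
  ⟨⟨-37, 24, 0, -20, -37, 0, 2, 8, -43⟩, (.cons (nat_lit 184) (nat_lit 150) (nat_lit 145) (nat_lit 1) (.cons
 (nat_lit 1596) (nat_lit 2531) (nat_lit 1189) (nat_lit 1) .nil)), (nat_lit 6), (nat_lit 0), (nat_lit 0),
 (nat_lit 0), (34, 30, 40), [290, 1831], 0⟩,
  ⟨⟨33, -8, 20, 20, -27, -40, 30, 24, -17⟩, (.cons (nat_lit 44) (nat_lit 250) (nat_lit 23) (nat_lit 1) (.cons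
 (nat_lit 100) (nat_lit 1022) (nat_lit 2104) (nat_lit 1) .nil)), (nat_lit 13), (nat_lit 0), (nat_lit 0),
 (nat_lit 0), (11, 21, 10), [122, 151], 0⟩,
  ⟨⟨-39, 16, -4, 20, 37, -20, -2, -8, -41⟩, (.cons (nat_lit 360) (nat_lit 342) (nat_lit 353) (nat_lit 1) (.cons
 (nat_lit 2808) (nat_lit 731) (nat_lit 2024) (nat_lit 1) .nil)), (nat_lit 37), (nat_lit 0), (nat_lit 0),
 (nat_lit 0), (35, 3, 4), [280, 606], 0⟩,
  ⟨⟨3, -44, -20, -2, 15, -44, 36, -12, -25⟩, (.cons (nat_lit 354) (nat_lit 267) (nat_lit 254) (nat_lit 1)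
 (.cons (nat_lit 909) (nat_lit 1347) (nat_lit 164) (nat_lit 1) .nil)), (nat_lit 33), (nat_lit 0), (nat_lit 0),
 (nat_lit 0), (10, 22, 34), [44, 755], 0⟩,
  ⟨⟨-15, -44, 16, 20, -13, -50, -34, -8, -1⟩, (.cons (nat_lit 22) (nat_lit 260) (nat_lit 164) (nat_lit 1)
 (.cons (nat_lit 671) (nat_lit 2777) (nat_lit 1999) (nat_lit 1) .nil)), (nat_lit 25), (nat_lit 0), (nat_lit 0),
 (nat_lit 0), (2, 26, 16), [138, 1433], 0⟩,
  mz,
  mz,
  ⟨⟨33, 32, -28, 2, -15, -46, 36, -12, -11⟩, (.cons (nat_lit 8) (nat_lit 235) (nat_lit 159) (nat_lit 1) (.cons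
 (nat_lit 2140) (nat_lit 1654) (nat_lit 555) (nat_lit 1) .nil)), (nat_lit 21), (nat_lit 0), (nat_lit 0),
 (nat_lit 0), (34, 19, 41), [262, 1319], 0⟩]

/-- Moves. -/
noncomputable def t4_8 : List Mv := [
  mz,
  ⟨⟨3, 44, -20, 2, 15, 44, 36, 12, -25⟩, (.cons (nat_lit 276) (nat_lit 193) (nat_lit 1) (nat_lit 190) (.cons
 (nat_lit 328) (nat_lit 1205) (nat_lit 2690) (nat_lit 1) .nil)), (nat_lit 22), (nat_lit 0), (nat_lit 0),
 (nat_lit 0), (36, 24, 2), [118, 289], 0⟩,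
  mz,
  mz,
  ⟨⟨15, -44, 1, -20, -13, -30, 34, -8, -35⟩, (.cons (nat_lit 298) (nat_lit 315) (nat_lit 108) (nat_lit 1)
 (.cons (nat_lit 1697) (nat_lit 862) (nat_lit 1632) (nat_lit 1) .nil)), (nat_lit 25), (nat_lit 0), (nat_lit 0),
 (nat_lit 0), (2, 26, 16), [91, 40], 0⟩,
  ⟨⟨33, -32, -28, -2, -15, 46, 36, 12, -11⟩, (.cons (nat_lit 38) (nat_lit 214) (nat_lit 219) (nat_lit 1) (.cons
 (nat_lit 2560) (nat_lit 1194) (nat_lit 2724) (nat_lit 1) .nil)), (nat_lit 10), (nat_lit 0), (nat_lit 0),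
 (nat_lit 0), (19, 21, 9), [307, 587], 0⟩,
  ⟨⟨-37, -24, 0, -20, 37, 0, 2, -8, -43⟩, (.cons (nat_lit 360) (nat_lit 157) (nat_lit 119) (nat_lit 1) (.cons
 (nat_lit 2808) (nat_lit 2428) (nat_lit 2265) (nat_lit 1) .nil)), (nat_lit 6), (nat_lit 0), (nat_lit 0),
 (nat_lit 0), (12, 3, 4), [174, 562], 0⟩,
  ⟨⟨33, 8, -53, -20, -27, -20, 30, -24, -13⟩, (.cons (nat_lit 253) (nat_lit 109) (nat_lit 292) (nat_lit 1)
 (.cons (nat_lit 289) (nat_lit 2713) (nat_lit 370) (nat_lit 1) .nil)), (nat_lit 36), (nat_lit 0), (nat_lit 0),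
 (nat_lit 0), (32, 21, 33), [4, 2354], 0⟩,
  ⟨⟨-39, -16, -4, -20, 37, 20, -2, 8, -41⟩, (.cons (nat_lit 360) (nat_lit 16) (nat_lit 169) (nat_lit 1) (.cons
 (nat_lit 2808) (nat_lit 1052) (nat_lit 2023) (nat_lit 1) .nil)), (nat_lit 8), (nat_lit 0), (nat_lit 0),
 (nat_lit 0), (6, 13, 40), [288, 1940], 0⟩,
  ⟨⟨47, 0, -20, 0, -43, 0, 18, 0, -47⟩, (.cons (nat_lit 360) (nat_lit 321) (nat_lit 68) (nat_lit 1) (.cons
 (nat_lit 2808) (nat_lit 806) (nat_lit 985) (nat_lit 1) .nil)), (nat_lit 9), (nat_lit 0), (nat_lit 0), (nat_lit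
 0), (34, 0, 24), [314, 2413], 0⟩,
  ⟨⟨21, -20, 31, 38, 15, -34, 12, -36, -13⟩, (.cons (nat_lit 243) (nat_lit 299) (nat_lit 329) (nat_lit 1)
 (.cons (nat_lit 2466) (nat_lit 1676) (nat_lit 970) (nat_lit 1) .nil)), (nat_lit 38), (nat_lit 0), (nat_lit 0),
 (nat_lit 0), (8, 37, 23), [136, 1890], 0⟩,
  mz,
  ⟨⟨-15, 44, 16, 20, 13, -50, -34, 8, -1⟩, (.cons (nat_lit 74) (nat_lit 191) (nat_lit 252) (nat_lit 1) (.cons
 (nat_lit 1850) (nat_lit 77) (nat_lit 2449) (nat_lit 1) .nil)), (nat_lit 25), (nat_lit 0), (nat_lit 0),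
 (nat_lit 0), (28, 20, 9), [231, 1842], 0⟩,
  ⟨⟨33, 8, 20, -20, -27, 40, 30, -24, -17⟩, (.cons (nat_lit 320) (nat_lit 142) (nat_lit 221) (nat_lit 1) (.cons
 (nat_lit 309) (nat_lit 1619) (nat_lit 1552) (nat_lit 1) .nil)), (nat_lit 36), (nat_lit 0), (nat_lit 0),
 (nat_lit 0), (4, 8, 31), [34, 1843], 0⟩,
  mz,
  mz,
  mz,
  ⟨⟨9, -4, -56, 40, -13, -10, 14, 32, -25⟩, (.cons (nat_lit 308) (nat_lit 141) (nat_lit 290) (nat_lit 1) (.cons
 (nat_lit 1194) (nat_lit 2634) (nat_lit 1941) (nat_lit 1) .nil)), (nat_lit 12), (nat_lit 0), (nat_lit 0),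
 (nat_lit 0), (19, 8, 20), [313, 2804], 0⟩,
  ⟨⟨-5, -36, 36, -40, 13, 30, -14, -32, -11⟩, (.cons (nat_lit 232) (nat_lit 277) (nat_lit 341) (nat_lit 1)
 (.cons (nat_lit 153) (nat_lit 546) (nat_lit 1195) (nat_lit 1) .nil)), (nat_lit 31), (nat_lit 0), (nat_lit 0),
 (nat_lit 0), (11, 2, 5), [189, 1043], 0⟩,
  mz,
  mz,
  ⟨⟨-9, 16, -44, 38, -15, -34, 12, 36, -13⟩, (.cons (nat_lit 311) (nat_lit 129) (nat_lit 194) (nat_lit 1)
 (.cons (nat_lit 2063) (nat_lit 2745) (nat_lit 1362) (nat_lit 1) .nil)), (nat_lit 5), (nat_lit 0), (nat_lit 0),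
 (nat_lit 0), (1, 34, 13), [322, 161], 0⟩,
  ⟨⟨-21, 20, 52, 38, 15, -4, -12, 36, -1⟩, (.cons (nat_lit 19) (nat_lit 32) (nat_lit 17) (nat_lit 1) (.cons
 (nat_lit 334) (nat_lit 2026) (nat_lit 420) (nat_lit 1) .nil)), (nat_lit 1), (nat_lit 0), (nat_lit 0), (nat_lit
 0), (12, 9, 13), [168, 791], 0⟩,
  mz,
  mz,
  ⟨⟨9, 4, -56, 40, 13, -10, 14, -32, -25⟩, (.cons (nat_lit 161) (nat_lit 295) (nat_lit 221) (nat_lit 1) (.cons
 (nat_lit 1611) (nat_lit 2358) (nat_lit 1306) (nat_lit 1) .nil)), (nat_lit 12), (nat_lit 0), (nat_lit 0),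
 (nat_lit 0), (37, 2, 5), [205, 362], 0⟩,
  ⟨⟨-5, 36, 36, 40, 13, -30, -14, 32, -11⟩, (.cons (nat_lit 245) (nat_lit 225) (nat_lit 334) (nat_lit 1) (.cons
 (nat_lit 1108) (nat_lit 2255) (nat_lit 1367) (nat_lit 1) .nil)), (nat_lit 4), (nat_lit 0), (nat_lit 0),
 (nat_lit 0), (1, 35, 20), [288, 2637], 0⟩,
  mz,
  mz,
  mz,
  ⟨⟨33, -8, -53, -20, 27, -20, 30, 24, -13⟩, (.cons (nat_lit 167) (nat_lit 224) (nat_lit 298) (nat_lit 1)
 (.cons (nat_lit 1319) (nat_lit 931) (nat_lit 821) (nat_lit 1) .nil)), (nat_lit 36), (nat_lit 0), (nat_lit 0),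
 (nat_lit 0), (39, 35, 12), [297, 1553], 0⟩,
  ⟨⟨19, -36, -36, -20, 13, -30, 34, 8, -35⟩, (.cons (nat_lit 347) (nat_lit 268) (nat_lit 81) (nat_lit 1) (.cons
 (nat_lit 1634) (nat_lit 1098) (nat_lit 2434) (nat_lit 1) .nil)), (nat_lit 18), (nat_lit 0), (nat_lit 0),
 (nat_lit 0), (24, 20, 9), [222, 160], 0⟩,
  mz,
  ⟨⟨-21, -20, 52, -38, 15, 4, -12, -36, -1⟩, (.cons (nat_lit 103) (nat_lit 296) (nat_lit 191) (nat_lit 1)
 (.cons (nat_lit 1610) (nat_lit 2687) (nat_lit 6) (nat_lit 1) .nil)), (nat_lit 38), (nat_lit 0), (nat_lit 0),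
 (nat_lit 0), (8, 37, 23), [23, 2391], 0⟩,
  ⟨⟨29, 0, -56, 0, 43, 0, -18, 0, -29⟩, (.cons (nat_lit 360) (nat_lit 226) (nat_lit 30) (nat_lit 1) (.cons
 (nat_lit 2808) (nat_lit 334) (nat_lit 168) (nat_lit 1) .nil)), (nat_lit 34), (nat_lit 0), (nat_lit 0),
 (nat_lit 0), (33, 0, 24), [256, 2737], 0⟩,
  ⟨⟨39, -16, -43, -20, -37, 0, 2, 8, -43⟩, (.cons (nat_lit 171) (nat_lit 297) (nat_lit 341) (nat_lit 1) (.cons
 (nat_lit 1315) (nat_lit 1097) (nat_lit 1933) (nat_lit 1) .nil)), (nat_lit 37), (nat_lit 0), (nat_lit 0),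
 (nat_lit 0), (6, 30, 40), [326, 1771], 0⟩,
  ⟨⟨-3, 32, -37, 20, -27, -40, 30, 24, -17⟩, (.cons (nat_lit 147) (nat_lit 284) (nat_lit 236) (nat_lit 1)
 (.cons (nat_lit 2694) (nat_lit 323) (nat_lit 1718) (nat_lit 1) .nil)), (nat_lit 30), (nat_lit 0), (nat_lit 0),
 (nat_lit 0), (42, 21, 10), [346, 983], 0⟩,
  ⟨⟨-39, 16, -4, 20, 37, -20, -2, -8, -41⟩, (.cons (nat_lit 360) (nat_lit 342) (nat_lit 353) (nat_lit 1) (.cons
 (nat_lit 2808) (nat_lit 731) (nat_lit 2024) (nat_lit 1) .nil)), (nat_lit 37), (nat_lit 0), (nat_lit 0),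
 (nat_lit 0), (35, 3, 4), [280, 606], 0⟩,
  ⟨⟨3, -44, -20, -2, 15, -44, 36, -12, -25⟩, (.cons (nat_lit 354) (nat_lit 267) (nat_lit 254) (nat_lit 1)
 (.cons (nat_lit 909) (nat_lit 1347) (nat_lit 164) (nat_lit 1) .nil)), (nat_lit 33), (nat_lit 0), (nat_lit 0),
 (nat_lit 0), (10, 22, 34), [44, 755], 0⟩,
  ⟨⟨-15, -44, 16, 20, -13, -50, -34, -8, -1⟩, (.cons (nat_lit 22) (nat_lit 260) (nat_lit 164) (nat_lit 1)
 (.cons (nat_lit 671) (nat_lit 2777) (nat_lit 1999) (nat_lit 1) .nil)), (nat_lit 25), (nat_lit 0), (nat_lit 0),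
 (nat_lit 0), (2, 26, 16), [138, 1433], 0⟩,
  mz,
  mz,
  ⟨⟨33, 32, -28, 2, -15, -46, 36, -12, -11⟩, (.cons (nat_lit 8) (nat_lit 235) (nat_lit 159) (nat_lit 1) (.cons
 (nat_lit 2140) (nat_lit 1654) (nat_lit 555) (nat_lit 1) .nil)), (nat_lit 21), (nat_lit 0), (nat_lit 0),
 (nat_lit 0), (34, 19, 41), [262, 1319], 0⟩]

/-- All the moves. -/
noncomputable def tabs : List (List (List Mv)) := [[[], t0_1, t0_2, [], [], [], [], [], t0_8], [[], t1_1, t1_2, [], [], [], [], [], t1_8], [], [], [[], t4_1, t4_2, [], [], [], [], [], t4_8]]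

/-- Subtrie. -/
noncomputable def T1 : Tr := (.ev (nat_lit 20) (nat_lit 4733087789904) (.nd (nat_lit 33) (.br (nat_lit 31) (.br
 (nat_lit 16) (.br (nat_lit 10) (.br (nat_lit 6) (.br (nat_lit 5) (.ch (nat_lit 4) (.ev (nat_lit 52) (nat_lit
 551909589122) (.ev (nat_lit 388) (nat_lit 131072) (.ev (nat_lit 644) (nat_lit 137438953472) (.ev (nat_lit
 2016) (nat_lit 68786586656) (.ev (nat_lit 2029) (nat_lit 1073741824) .dd)))))) (.ch (nat_lit 5) (.ev (nat_lit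
 52) (nat_lit 209379656736) (.ev (nat_lit 148) (nat_lit 4194304) (.ev (nat_lit 308) (nat_lit 67108864) (.ev
 (nat_lit 420) (nat_lit 2) (.ev (nat_lit 1060) (nat_lit 549755813888) (.ev (nat_lit 1408) (nat_lit 2228352)
 .dd)))))))) (.br (nat_lit 9) (.ch (nat_lit 6) (.ev (nat_lit 52) (nat_lit 621698745472) (.ev (nat_lit 244)
 (nat_lit 137438953472) (.ev (nat_lit 276) (nat_lit 67108864) (.ev (nat_lit 644) (nat_lit 32) (.ev (nat_lit
 1540) (nat_lit 2) (.ev (nat_lit 1549) (nat_lit 4194304) .dd))))))) (.ch (nat_lit 9) (.ev (nat_lit 52) (nat_lit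
 208375250946) (.ev (nat_lit 516) (nat_lit 128) (.ev (nat_lit 900) (nat_lit 1024) (.ev (nat_lit 1492) (nat_lit
 4194304) (.ev (nat_lit 1908) (nat_lit 32) (.ev (nat_lit 1988) (nat_lit 1073741824) (.ev (nat_lit 1997)
 (nat_lit 549755813888) .dd)))))))))) (.br (nat_lit 12) (.br (nat_lit 11) (.ch (nat_lit 10) (.ev (nat_lit 52)
 (nat_lit 621769916416) (.ev (nat_lit 212) (nat_lit 32) (.ev (nat_lit 484) (nat_lit 2) (.ev (nat_lit 740)
 (nat_lit 128) (.ev (nat_lit 772) (nat_lit 137438953472) (.ev (nat_lit 1860) (nat_lit 1024) (.ev (nat_lit 1869)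
 (nat_lit 131072) .dd)))))))) (.ch (nat_lit 11) (.ev (nat_lit 52) (nat_lit 1075970048) (.ev (nat_lit 276)
 (nat_lit 2147483648) (.ev (nat_lit 420) (nat_lit 67108864) (.ev (nat_lit 516) (nat_lit 68719476736) (.ev
 (nat_lit 580) (nat_lit 1024) (.ev (nat_lit 836) (nat_lit 4194304) (.ev (nat_lit 1428) (nat_lit 2) (.ev
 (nat_lit 2036) (nat_lit 128) (.ev (nat_lit 2260) (nat_lit 32) (.ev (nat_lit 2404) (nat_lit 549755813888) (.ev
 (nat_lit 2413) (nat_lit 137438953472) .dd))))))))))))) (.br (nat_lit 15) (.ch (nat_lit 12) (.ev (nat_lit 52)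
 (nat_lit 756994277378) (.ev (nat_lit 308) (nat_lit 128) (.ev (nat_lit 580) (nat_lit 32) (.ev (nat_lit 964)
 (nat_lit 67108864) (.ev (nat_lit 1764) (nat_lit 2147483648) (.ev (nat_lit 2356) (nat_lit 131072) (.ev (nat_lit
 2365) (nat_lit 1024) .dd)))))))) (.ch (nat_lit 15) (.ev (nat_lit 52) (nat_lit 551903298720) (.ev (nat_lit 84)
 (nat_lit 4194304) (.ev (nat_lit 116) (nat_lit 2097152) (.ev (nat_lit 356) (nat_lit 131072) (.ev (nat_lit 516)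
 (nat_lit 1073741824) (.ev (nat_lit 804) (nat_lit 137438953472) (.ev (nat_lit 1440) (nat_lit 68786585602)
 .dd))))))))))) (.br (nat_lit 22) (.br (nat_lit 18) (.br (nat_lit 17) (.ch (nat_lit 16) (.ev (nat_lit 52)
 (nat_lit 139588665506) (.ev (nat_lit 484) (nat_lit 1073741824) (.ev (nat_lit 516) (nat_lit 67108864) (.ev
 (nat_lit 676) (nat_lit 4194304) (.ev (nat_lit 1344) (nat_lit 618475291648) .dd)))))) (.ch (nat_lit 17) (.ev
 (nat_lit 52) (nat_lit 549755814050) (.ev (nat_lit 276) (nat_lit 2097152) (.ev (nat_lit 452) (nat_lit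
 137438953472) (.ev (nat_lit 612) (nat_lit 1073741824) (.ev (nat_lit 708) (nat_lit 1024) (.ev (nat_lit 1220)
 (nat_lit 131072) (.ev (nat_lit 1460) (nat_lit 2147483648) (.ev (nat_lit 1728) (nat_lit 71303168) (.ev (nat_lit
 1741) (nat_lit 68719476736) .dd))))))))))) (.br (nat_lit 21) (.ch (nat_lit 18) (.ev (nat_lit 52) (nat_lit
 140731613346) (.ev (nat_lit 212) (nat_lit 1024) (.ev (nat_lit 548) (nat_lit 2097152) (.ev (nat_lit 964)
 (nat_lit 68719476736) (.ev (nat_lit 973) (nat_lit 549755813888) .dd)))))) (.ch (nat_lit 21) (.ev (nat_lit 52)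
 (nat_lit 755914376226) (.ev (nat_lit 116) (nat_lit 2147483648) (.ev (nat_lit 276) (nat_lit 128) (.ev (nat_lit
 308) (nat_lit 1073741824) (.ev (nat_lit 484) (nat_lit 67108864) (.ev (nat_lit 1012) (nat_lit 4194304) (.ev
 (nat_lit 1021) (nat_lit 2097152) .dd)))))))))) (.br (nat_lit 26) (.br (nat_lit 24) (.ch (nat_lit 22) (.ev
 (nat_lit 52) (nat_lit 137445377024) (.ev (nat_lit 256) (nat_lit 621763625122) .dd))) (.ch (nat_lit 24) (.ev
 (nat_lit 52) (nat_lit 553044148258) (.ev (nat_lit 592) (nat_lit 206164853888) .dd)))) (.br (nat_lit 28) (.ch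
 (nat_lit 26) (.ev (nat_lit 52) (nat_lit 70938264738) (.ev (nat_lit 180) (nat_lit 131072) (.ev (nat_lit 1312)
 (nat_lit 688270606336) .dd)))) (.br (nat_lit 29) (.ch (nat_lit 28) (.ev (nat_lit 52) (nat_lit 755985679490)
 (.ev (nat_lit 276) (nat_lit 1073741824) (.ev (nat_lit 804) (nat_lit 32) (.ev (nat_lit 2212) (nat_lit
 2147483648) (.ev (nat_lit 2221) (nat_lit 2097152) .dd)))))) (.ch (nat_lit 29) (.ev (nat_lit 52) (nat_lit
 758130933794) (.ev (nat_lit 772) (nat_lit 1024) (.ev (nat_lit 1060) (nat_lit 4194304) (.ev (nat_lit 1284)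
 (nat_lit 131072) (.nd (nat_lit 2432) (.ch (nat_lit 11) (.fin (nat_lit 576462401572389439)))))))))))))) (.br
 (nat_lit 42) (.br (nat_lit 38) (.br (nat_lit 36) (.br (nat_lit 33) (.ch (nat_lit 31) (.ev (nat_lit 52)
 (nat_lit 73401344) (.ev (nat_lit 116) (nat_lit 1073741824) (.ev (nat_lit 612) (nat_lit 2) (.ev (nat_lit 932)
 (nat_lit 32) (.ev (nat_lit 1396) (nat_lit 137438953472) (.ev (nat_lit 1716) (nat_lit 549755813888) (.ev
 (nat_lit 1940) (nat_lit 70866960384) (.ev (nat_lit 1972) (nat_lit 131072) (.ev (nat_lit 1981) (nat_lit 128)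
 .dd)))))))))) (.ch (nat_lit 33) (.ev (nat_lit 52) (nat_lit 68788813826) (.ev (nat_lit 288) (nat_lit
 690420188320) .dd)))) (.br (nat_lit 37) (.ch (nat_lit 36) (.ev (nat_lit 52) (nat_lit 70936297600) (.ev
 (nat_lit 388) (nat_lit 4194304) (.ev (nat_lit 720) (nat_lit 688268510242) .dd)))) (.ch (nat_lit 37) (.ev
 (nat_lit 52) (nat_lit 688270606336) (.ev (nat_lit 96) (nat_lit 70938395810) .dd))))) (.br (nat_lit 40) (.br
 (nat_lit 39) (.ch (nat_lit 38) (.ev (nat_lit 52) (nat_lit 71435424) (.ev (nat_lit 516) (nat_lit 2) (.ev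
 (nat_lit 944) (nat_lit 759137566720) .dd)))) (.ch (nat_lit 39) (.ev (nat_lit 52) (nat_lit 550835979426) (.ev
 (nat_lit 116) (nat_lit 68719476736) (.ev (nat_lit 868) (nat_lit 137438953472) (.ev (nat_lit 1748) (nat_lit
 2147483648) (.ev (nat_lit 1757) (nat_lit 67108864) .dd))))))) (.br (nat_lit 41) (.ch (nat_lit 40) (.ev
 (nat_lit 52) (nat_lit 3225420832) (.ev (nat_lit 84) (nat_lit 549755813888) (.ev (nat_lit 1332) (nat_lit 128)
 (.ev (nat_lit 1460) (nat_lit 2097152) (.ev (nat_lit 1860) (nat_lit 137438953472) (.ev (nat_lit 1920) (nat_lit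
 68719607810) (.ev (nat_lit 1933) (nat_lit 67108864) .dd)))))))) (.ch (nat_lit 41) (.ev (nat_lit 52) (nat_lit
 69864521730) (.ev (nat_lit 400) (nat_lit 689344480416) .dd)))))) (.br (nat_lit 47) (.br (nat_lit 44) (.br
 (nat_lit 43) (.ch (nat_lit 42) (.ev (nat_lit 52) (nat_lit 688335618208) (.ev (nat_lit 276) (nat_lit
 68719476736) (.ev (nat_lit 484) (nat_lit 2147483648) (.ev (nat_lit 964) (nat_lit 2) (.ev (nat_lit 1168)
 (nat_lit 6423552) .dd)))))) (.ch (nat_lit 43) (.ev (nat_lit 52) (nat_lit 551907624066) (.ev (nat_lit 484)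
 (nat_lit 2097152) (.ev (nat_lit 1156) (nat_lit 32) (.ev (nat_lit 1428) (nat_lit 1073741824) (.ev (nat_lit
 1684) (nat_lit 137438953472) (.ev (nat_lit 2192) (nat_lit 68786585600) .dd)))))))) (.br (nat_lit 46) (.ch
 (nat_lit 44) (.ev (nat_lit 52) (nat_lit 206227636224) (.ev (nat_lit 148) (nat_lit 131072) (.ev (nat_lit 180)
 (nat_lit 549755813888) (.ev (nat_lit 528) (nat_lit 3225420962) .dd))))) (.ch (nat_lit 46) (.ev (nat_lit 52)
 (nat_lit 551907623040) (.ev (nat_lit 116) (nat_lit 67108864) (.ev (nat_lit 244) (nat_lit 1024) (.ev (nat_lit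
 420) (nat_lit 1073741824) (.ev (nat_lit 612) (nat_lit 68719476736) (.ev (nat_lit 1124) (nat_lit 32) (.ev
 (nat_lit 1332) (nat_lit 2) (.ev (nat_lit 1524) (nat_lit 137438953472) (.ev (nat_lit 1533) (nat_lit 2097152)
 .dd)))))))))))) (.br (nat_lit 49) (.br (nat_lit 48) (.ch (nat_lit 47) (.ev (nat_lit 52) (nat_lit 689413555232)
 (.ev (nat_lit 548) (nat_lit 1073741824) (.ev (nat_lit 964) (nat_lit 128) (.ev (nat_lit 1028) (nat_lit 2) (.ev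
 (nat_lit 1460) (nat_lit 68719476736) (.ev (nat_lit 1940) (nat_lit 2097152) (.ev (nat_lit 1949) (nat_lit
 131072) .dd)))))))) (.ch (nat_lit 48) (.ev (nat_lit 52) (nat_lit 207232173088) (.ev (nat_lit 464) (nat_lit
 551976829058) .dd)))) (.br (nat_lit 50) (.ch (nat_lit 49) (.ev (nat_lit 52) (nat_lit 71435266) (.ev (nat_lit
 496) (nat_lit 759137566880) .dd))) (.br (nat_lit 52) (.ch (nat_lit 50) (.ev (nat_lit 52) (nat_lit
 138582032416) (.ev (nat_lit 548) (nat_lit 128) (.ev (nat_lit 1092) (nat_lit 549755813888) (.ev (nat_lit 2036)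
 (nat_lit 70866960384) (.ev (nat_lit 2228) (nat_lit 2) (.ev (nat_lit 2324) (nat_lit 1024) (.ev (nat_lit 2333)
 (nat_lit 4194304) .dd)))))))) (.ch (nat_lit 52) (.ev (nat_lit 52) (nat_lit 689342383104) (.ev (nat_lit 180)
 (nat_lit 4194304) (.ev (nat_lit 548) (nat_lit 67108864) (.ev (nat_lit 740) (nat_lit 2097152) (.ev (nat_lit
 1188) (nat_lit 2) (.ev (nat_lit 1364) (nat_lit 68719476736) (.ev (nat_lit 1572) (nat_lit 32) (.nd (nat_lit
 2432) (.ch (nat_lit 11) (.fin (nat_lit 576462401572389439))))))))))))))))))))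

/-- Subtrie. -/
noncomputable def T2 : Tr := (.ev (nat_lit 20) (nat_lit 5145440290448) (.nd (nat_lit 33) (.br (nat_lit 31) (.br
 (nat_lit 16) (.br (nat_lit 10) (.br (nat_lit 6) (.br (nat_lit 5) (.ch (nat_lit 4) (.ev (nat_lit 52) (nat_lit
 2151686466) (.ev (nat_lit 116) (nat_lit 32) (.ev (nat_lit 516) (nat_lit 131072) (.ev (nat_lit 580) (nat_lit
 33554432) (.ev (nat_lit 644) (nat_lit 274877906944) (.ev (nat_lit 804) (nat_lit 1073741824) (.ev (nat_lit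
 1876) (nat_lit 4096) (.ev (nat_lit 1885) (nat_lit 68719476736) .dd))))))))) (.ch (nat_lit 5) (.ev (nat_lit 52)
 (nat_lit 346818613280) (.ev (nat_lit 84) (nat_lit 64) (.ev (nat_lit 356) (nat_lit 8192) (.ev (nat_lit 452)
 (nat_lit 33554432) (.ev (nat_lit 1364) (nat_lit 131072) (.ev (nat_lit 1716) (nat_lit 4194304) (.ev (nat_lit
 2084) (nat_lit 2) (.ev (nat_lit 2093) (nat_lit 256) .dd)))))))))) (.br (nat_lit 9) (.ch (nat_lit 6) (.ev
 (nat_lit 52) (nat_lit 346852298752) (.ev (nat_lit 212) (nat_lit 256) (.ev (nat_lit 836) (nat_lit 8192) (.ev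
 (nat_lit 1012) (nat_lit 4194304) (.ev (nat_lit 1252) (nat_lit 2) (.ev (nat_lit 1748) (nat_lit 32) (.ev
 (nat_lit 1757) (nat_lit 64) .dd)))))))) (.ch (nat_lit 9) (.ev (nat_lit 52) (nat_lit 345778565442) (.ev
 (nat_lit 84) (nat_lit 4194304) (.ev (nat_lit 308) (nat_lit 32) (.ev (nat_lit 317) (nat_lit 1073741824)
 .dd))))))) (.br (nat_lit 12) (.br (nat_lit 11) (.ch (nat_lit 10) (.ev (nat_lit 52) (nat_lit 346822811648) (.ev
 (nat_lit 244) (nat_lit 33554432) (.ev (nat_lit 484) (nat_lit 4096) (.ev (nat_lit 1040) (nat_lit 131426)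
 .dd))))) (.ch (nat_lit 11) (.ev (nat_lit 52) (nat_lit 275985338432) (.ev (nat_lit 244) (nat_lit 2147483648)
 (.ev (nat_lit 708) (nat_lit 256) (.ev (nat_lit 1092) (nat_lit 2) (.ev (nat_lit 1284) (nat_lit 4194304) (.ev
 (nat_lit 1472) (nat_lit 68719476768) (.ev (nat_lit 1485) (nat_lit 8192) .dd))))))))) (.br (nat_lit 15) (.ch
 (nat_lit 12) (.ev (nat_lit 52) (nat_lit 69797416962) (.ev (nat_lit 84) (nat_lit 8192) (.ev (nat_lit 308)
 (nat_lit 131072) (.ev (nat_lit 656) (nat_lit 277058945376) .dd))))) (.ch (nat_lit 15) (.ev (nat_lit 52)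
 (nat_lit 277025403232) (.ev (nat_lit 452) (nat_lit 1073741824) (.ev (nat_lit 1072) (nat_lit 68757356546)
 .dd))))))) (.br (nat_lit 22) (.br (nat_lit 18) (.br (nat_lit 17) (.ch (nat_lit 16) (.ev (nat_lit 52) (nat_lit
 2147623202) (.ev (nat_lit 676) (nat_lit 64) (.ev (nat_lit 804) (nat_lit 274877906944) (.ev (nat_lit 868)
 (nat_lit 68719476736) (.ev (nat_lit 1956) (nat_lit 4096) (.ev (nat_lit 2064) (nat_lit 1111490560) .dd)))))))
 (.ch (nat_lit 17) (.ev (nat_lit 52) (nat_lit 274877915234) (.ev (nat_lit 580) (nat_lit 68719476736) (.ev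
 (nat_lit 708) (nat_lit 2147483648) (.ev (nat_lit 1060) (nat_lit 4194304) (.ev (nat_lit 1188) (nat_lit 4096)
 (.ev (nat_lit 1860) (nat_lit 1073741824) (.ev (nat_lit 2004) (nat_lit 131072) (.ev (nat_lit 2116) (nat_lit
 256) (.ev (nat_lit 2125) (nat_lit 33554432) .dd))))))))))) (.br (nat_lit 21) (.ch (nat_lit 18) (.ev (nat_lit
 52) (nat_lit 3225555298) (.ev (nat_lit 180) (nat_lit 8192) (.ev (nat_lit 452) (nat_lit 68719476736) (.ev
 (nat_lit 1604) (nat_lit 33554432) (.ev (nat_lit 1613) (nat_lit 274877906944) .dd)))))) (.ch (nat_lit 21) (.ev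
 (nat_lit 52) (nat_lit 343631077730) (.ev (nat_lit 1200) (nat_lit 3225423872) .dd))))) (.br (nat_lit 26) (.br
 (nat_lit 24) (.ch (nat_lit 22) (.ev (nat_lit 52) (nat_lit 4325376) (.ev (nat_lit 116) (nat_lit 4096) (.ev
 (nat_lit 148) (nat_lit 8192) (.ev (nat_lit 484) (nat_lit 32) (.ev (nat_lit 868) (nat_lit 274877906944) (.ev
 (nat_lit 900) (nat_lit 33554432) (.ev (nat_lit 1124) (nat_lit 1073741824) (.ev (nat_lit 1796) (nat_lit 64)
 (.ev (nat_lit 2144) (nat_lit 68719476994) (.ev (nat_lit 2157) (nat_lit 2147483648) .dd))))))))))) (.ch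
 (nat_lit 24) (.ev (nat_lit 52) (nat_lit 3254784098) (.ev (nat_lit 148) (nat_lit 4194304) (.ev (nat_lit 932)
 (nat_lit 68719476736) (.ev (nat_lit 1012) (nat_lit 8192) (.ev (nat_lit 2340) (nat_lit 274877906944) (.ev
 (nat_lit 2388) (nat_lit 256) (.ev (nat_lit 2397) (nat_lit 131072) .dd))))))))) (.br (nat_lit 28) (.ch (nat_lit
 26) (.ev (nat_lit 52) (nat_lit 70871167010) (.ev (nat_lit 276) (nat_lit 131072) (.ev (nat_lit 580) (nat_lit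
 274877906944) (.ev (nat_lit 772) (nat_lit 1073741824) (.ev (nat_lit 1776) (nat_lit 33554752) .dd)))))) (.br
 (nat_lit 29) (.ch (nat_lit 28) (.ev (nat_lit 52) (nat_lit 68723806466) (.ev (nat_lit 244) (nat_lit 1073741824)
 (.ev (nat_lit 816) (nat_lit 277058953312) .dd)))) (.ch (nat_lit 29) (.ev (nat_lit 52) (nat_lit 70900519202)
 (.ev (nat_lit 212) (nat_lit 1073741824) (.ev (nat_lit 740) (nat_lit 131072) (.ev (nat_lit 1232) (nat_lit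
 274882109504) .dd)))))))))) (.br (nat_lit 42) (.br (nat_lit 38) (.br (nat_lit 36) (.br (nat_lit 33) (.ch
 (nat_lit 31) (.ev (nat_lit 52) (nat_lit 37749056) (.ev (nat_lit 160) (nat_lit 346818752546) .dd))) (.ch
 (nat_lit 33) (.ev (nat_lit 52) (nat_lit 343631069186) (.ev (nat_lit 368) (nat_lit 3225432416) .dd)))) (.br
 (nat_lit 37) (.ch (nat_lit 36) (.ev (nat_lit 52) (nat_lit 70867091520) (.ev (nat_lit 128) (nat_lit
 275989410082) .dd))) (.ch (nat_lit 37) (.ev (nat_lit 52) (nat_lit 275985215744) (.ev (nat_lit 612) (nat_lit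
 32) (.ev (nat_lit 932) (nat_lit 2147483648) (.ev (nat_lit 1092) (nat_lit 4194304) (.ev (nat_lit 1252) (nat_lit
 64) (.ev (nat_lit 1696) (nat_lit 68719607808) (.ev (nat_lit 1709) (nat_lit 2) .dd)))))))))) (.br (nat_lit 40)
 (.br (nat_lit 39) (.ch (nat_lit 38) (.ev (nat_lit 52) (nat_lit 37880096) (.ev (nat_lit 336) (nat_lit
 346818621506) .dd))) (.ch (nat_lit 39) (.ev (nat_lit 52) (nat_lit 1111633954) (.ev (nat_lit 580) (nat_lit
 2147483648) (.ev (nat_lit 836) (nat_lit 64) (.ev (nat_lit 1300) (nat_lit 256) (.ev (nat_lit 1524) (nat_lit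
 68719476736) (.ev (nat_lit 1533) (nat_lit 274877906944) .dd)))))))) (.br (nat_lit 41) (.ch (nat_lit 40) (.ev
 (nat_lit 52) (nat_lit 3258982496) (.ev (nat_lit 212) (nat_lit 274877906944) (.ev (nat_lit 980) (nat_lit
 131072) (.ev (nat_lit 1264) (nat_lit 68719481090) .dd))))) (.ch (nat_lit 41) (.ev (nat_lit 52) (nat_lit
 344675323970) (.ev (nat_lit 548) (nat_lit 32) (.ev (nat_lit 900) (nat_lit 2147483648) (.ev (nat_lit 964)
 (nat_lit 131072) (.ev (nat_lit 1632) (nat_lit 33554688) (.ev (nat_lit 1645) (nat_lit 8192) .dd)))))))))) (.br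
 (nat_lit 47) (.br (nat_lit 44) (.br (nat_lit 43) (.ch (nat_lit 42) (.ev (nat_lit 52) (nat_lit 275985203552)
 (.ev (nat_lit 244) (nat_lit 68719476736) (.ev (nat_lit 388) (nat_lit 2) (.ev (nat_lit 420) (nat_lit 131072)
 (.ev (nat_lit 1604) (nat_lit 2147483648) (.ev (nat_lit 1828) (nat_lit 8192) (.ev (nat_lit 1940) (nat_lit 4096)
 (.ev (nat_lit 1949) (nat_lit 4194304) .dd))))))))) (.ch (nat_lit 43) (.ev (nat_lit 52) (nat_lit 2185363522)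
 (.ev (nat_lit 388) (nat_lit 8192) (.ev (nat_lit 452) (nat_lit 256) (.ev (nat_lit 612) (nat_lit 4096) (.ev
 (nat_lit 708) (nat_lit 274877906944) (.ev (nat_lit 1188) (nat_lit 32) (.ev (nat_lit 2272) (nat_lit
 69793218560) .dd))))))))) (.br (nat_lit 46) (.ch (nat_lit 44) (.ev (nat_lit 52) (nat_lit 68719481088) (.ev
 (nat_lit 64) (nat_lit 278137020514) .dd))) (.ch (nat_lit 46) (.ev (nat_lit 52) (nat_lit 277029720128) (.ev
 (nat_lit 212) (nat_lit 68719476736) (.ev (nat_lit 804) (nat_lit 33554432) (.ev (nat_lit 992) (nat_lit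
 1073750306) .dd))))))) (.br (nat_lit 49) (.br (nat_lit 48) (.ch (nat_lit 47) (.ev (nat_lit 52) (nat_lit
 2151686432) (.ev (nat_lit 388) (nat_lit 64) (.ev (nat_lit 484) (nat_lit 131072) (.ev (nat_lit 708) (nat_lit
 68719476736) (.ev (nat_lit 772) (nat_lit 33554432) (.ev (nat_lit 900) (nat_lit 1073741824) (.ev (nat_lit 1156)
 (nat_lit 274877906944) (.ev (nat_lit 1956) (nat_lit 2) (.ev (nat_lit 1965) (nat_lit 4096) .dd)))))))))) (.ch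
 (nat_lit 48) (.ev (nat_lit 52) (nat_lit 344704680224) (.ev (nat_lit 84) (nat_lit 2) (.ev (nat_lit 356)
 (nat_lit 64) (.ev (nat_lit 1252) (nat_lit 8192) (.ev (nat_lit 1332) (nat_lit 131072) (.ev (nat_lit 1428)
 (nat_lit 4096) (.ev (nat_lit 2164) (nat_lit 4194304) (.ev (nat_lit 2173) (nat_lit 2147483648) .dd))))))))))
 (.br (nat_lit 50) (.ch (nat_lit 49) (.ev (nat_lit 52) (nat_lit 274915795010) (.ev (nat_lit 580) (nat_lit 256)
 (.ev (nat_lit 644) (nat_lit 2147483648) (.ev (nat_lit 900) (nat_lit 68719476736) (.ev (nat_lit 2260) (nat_lit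
 1073741824) (.ev (nat_lit 2340) (nat_lit 32) (.ev (nat_lit 2349) (nat_lit 4096) .dd)))))))) (.br (nat_lit 52)
 (.ch (nat_lit 50) (.ev (nat_lit 52) (nat_lit 1107427360) (.ev (nat_lit 148) (nat_lit 2) (.ev (nat_lit 356)
 (nat_lit 4194304) (.ev (nat_lit 420) (nat_lit 4096) (.ev (nat_lit 900) (nat_lit 256) (.ev (nat_lit 1764)
 (nat_lit 64) (.ev (nat_lit 1808) (nat_lit 70866968576) (.ev (nat_lit 1821) (nat_lit 274877906944) .dd)))))))))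
 (.ch (nat_lit 52) (.ev (nat_lit 52) (nat_lit 277025534208) (.ev (nat_lit 180) (nat_lit 4194304) (.ev (nat_lit
 644) (nat_lit 68719476736) (.ev (nat_lit 932) (nat_lit 1073741824) (.ev (nat_lit 1060) (nat_lit 64) (.ev
 (nat_lit 1220) (nat_lit 2) (.ev (nat_lit 1524) (nat_lit 33554432) (.ev (nat_lit 1533) (nat_lit 32)
 .dd)))))))))))))))))

/-- Subtrie. -/
noncomputable def T8 : Tr := (.ev (nat_lit 20) (nat_lit 5363441210560) (.nd (nat_lit 33) (.br (nat_lit 31) (.br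
 (nat_lit 16) (.br (nat_lit 10) (.br (nat_lit 6) (.br (nat_lit 5) (.ch (nat_lit 4) (.ev (nat_lit 52) (nat_lit
 6300434) (.ev (nat_lit 388) (nat_lit 68719738880) (.ev (nat_lit 740) (nat_lit 32) (.ev (nat_lit 836) (nat_lit
 8589934592) (.ev (nat_lit 1664) (nat_lit 51539607552) .dd)))))) (.ch (nat_lit 5) (.ev (nat_lit 52) (nat_lit
 111669150256) (.ev (nat_lit 548) (nat_lit 2097152) (.ev (nat_lit 772) (nat_lit 4194304) (.ev (nat_lit 1604)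
 (nat_lit 2) (.ev (nat_lit 1828) (nat_lit 270336) (.ev (nat_lit 2100) (nat_lit 17179869184) (.ev (nat_lit 2109)
 (nat_lit 256) .dd))))))))) (.br (nat_lit 9) (.ch (nat_lit 6) (.ev (nat_lit 52) (nat_lit 77311508480) (.ev
 (nat_lit 212) (nat_lit 4194304) (.ev (nat_lit 676) (nat_lit 262144) (.ev (nat_lit 740) (nat_lit 34359738368)
 (.ev (nat_lit 868) (nat_lit 2) (.ev (nat_lit 1012) (nat_lit 256) (.ev (nat_lit 1156) (nat_lit 512) (.ev
 (nat_lit 1364) (nat_lit 32) (.ev (nat_lit 1716) (nat_lit 8192) (.ev (nat_lit 2084) (nat_lit 16) (.ev (nat_lit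
 2093) (nat_lit 17179869184) .dd)))))))))))) (.ch (nat_lit 9) (.ev (nat_lit 52) (nat_lit 103081320706) (.ev
 (nat_lit 148) (nat_lit 16) (.ev (nat_lit 932) (nat_lit 17179869184) (.ev (nat_lit 1252) (nat_lit 8589934592)
 (.ev (nat_lit 2052) (nat_lit 4194304) (.ev (nat_lit 2180) (nat_lit 262144) (.ev (nat_lit 2304) (nat_lit 544)
 .dd)))))))))) (.br (nat_lit 12) (.br (nat_lit 11) (.ch (nat_lit 10) (.ev (nat_lit 52) (nat_lit 77315973136)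
 (.ev (nat_lit 388) (nat_lit 256) (.ev (nat_lit 612) (nat_lit 32) (.ev (nat_lit 1124) (nat_lit 17179869184)
 (.ev (nat_lit 1376) (nat_lit 34359738882) .dd)))))) (.ch (nat_lit 11) (.ev (nat_lit 52) (nat_lit 60131639824)
 (.ev (nat_lit 356) (nat_lit 68719476736) (.ev (nat_lit 676) (nat_lit 256) (.ev (nat_lit 836) (nat_lit 262144)
 (.ev (nat_lit 1188) (nat_lit 32) (.ev (nat_lit 2052) (nat_lit 4194304) (.ev (nat_lit 2292) (nat_lit 8192) (.ev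
 (nat_lit 2301) (nat_lit 2) .dd)))))))))) (.br (nat_lit 15) (.ch (nat_lit 12) (.ev (nat_lit 52) (nat_lit
 120265375762) (.ev (nat_lit 688) (nat_lit 8590205728) .dd))) (.ch (nat_lit 15) (.ev (nat_lit 52) (nat_lit
 25769812256) (.ev (nat_lit 356) (nat_lit 262144) (.ev (nat_lit 420) (nat_lit 34359738368) (.ev (nat_lit 740)
 (nat_lit 2097152) (.ev (nat_lit 772) (nat_lit 2) (.ev (nat_lit 1396) (nat_lit 512) (.ev (nat_lit 1796)
 (nat_lit 16) (.ev (nat_lit 2292) (nat_lit 68719476736) (.ev (nat_lit 2301) (nat_lit 4194304) .dd)))))))))))))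
 (.br (nat_lit 22) (.br (nat_lit 18) (.br (nat_lit 17) (.ch (nat_lit 16) (.ev (nat_lit 52) (nat_lit
 17181975330) (.ev (nat_lit 180) (nat_lit 8589934592) (.ev (nat_lit 308) (nat_lit 34359738368) (.ev (nat_lit
 1012) (nat_lit 68719476736) (.ev (nat_lit 1584) (nat_lit 4194320) (.ev (nat_lit 1597) (nat_lit 262144)
 .dd))))))) (.ch (nat_lit 17) (.ev (nat_lit 52) (nat_lit 60129813026) (.ev (nat_lit 84) (nat_lit 16) (.ev
 (nat_lit 276) (nat_lit 2097152) (.ev (nat_lit 1396) (nat_lit 4194304) (.ev (nat_lit 2084) (nat_lit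
 68719476736) (.ev (nat_lit 2093) (nat_lit 256) .dd)))))))) (.br (nat_lit 21) (.ch (nat_lit 18) (.ev (nat_lit
 52) (nat_lit 34364195106) (.ev (nat_lit 84) (nat_lit 8589934592) (.ev (nat_lit 868) (nat_lit 512) (.ev
 (nat_lit 1572) (nat_lit 17179869184) (.ev (nat_lit 1652) (nat_lit 16) (.ev (nat_lit 2164) (nat_lit 8192) (.ev
 (nat_lit 2240) (nat_lit 68721573888) .dd)))))))) (.ch (nat_lit 21) (.ev (nat_lit 52) (nat_lit 103079485746)
 (.ev (nat_lit 212) (nat_lit 17179869184) (.ev (nat_lit 1136) (nat_lit 8596226560) .dd)))))) (.br (nat_lit 26)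
 (.br (nat_lit 24) (.ch (nat_lit 22) (.ev (nat_lit 52) (nat_lit 42956226560) (.ev (nat_lit 212) (nat_lit 512)
 (.ev (nat_lit 324) (nat_lit 68719476736) (.ev (nat_lit 420) (nat_lit 32) (.ev (nat_lit 644) (nat_lit 2) (.ev
 (nat_lit 836) (nat_lit 16) (.ev (nat_lit 868) (nat_lit 17179869184) (.ev (nat_lit 1284) (nat_lit 8192) (.ev
 (nat_lit 1293) (nat_lit 256) .dd)))))))))) (.ch (nat_lit 24) (.ev (nat_lit 52) (nat_lit 42949673010) (.ev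
 (nat_lit 148) (nat_lit 256) (.ev (nat_lit 244) (nat_lit 512) (.ev (nat_lit 912) (nat_lit 85905907712)
 .dd)))))) (.br (nat_lit 28) (.ch (nat_lit 26) (.ev (nat_lit 52) (nat_lit 77313876018) (.ev (nat_lit 612)
 (nat_lit 34359738368) (.ev (nat_lit 708) (nat_lit 512) (.ev (nat_lit 1284) (nat_lit 256) (.ev (nat_lit 1552)
 (nat_lit 17181966336) .dd)))))) (.br (nat_lit 29) (.ch (nat_lit 28) (.ev (nat_lit 52) (nat_lit 85903540994)
 (.ev (nat_lit 308) (nat_lit 2097152) (.ev (nat_lit 548) (nat_lit 32) (.ev (nat_lit 676) (nat_lit 8589934592)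
 (.ev (nat_lit 1220) (nat_lit 262144) (.ev (nat_lit 1504) (nat_lit 8208) (.ev (nat_lit 1517) (nat_lit
 34359738368) .dd)))))))) (.ch (nat_lit 29) (.ev (nat_lit 52) (nat_lit 68721574194) (.ev (nat_lit 84) (nat_lit
 262144) (.ev (nat_lit 848) (nat_lit 60133745152) .dd))))))))) (.br (nat_lit 42) (.br (nat_lit 38) (.br
 (nat_lit 36) (.br (nat_lit 33) (.ch (nat_lit 31) (.ev (nat_lit 52) (nat_lit 8596226304) (.ev (nat_lit 224)
 (nat_lit 120259355186) .dd))) (.ch (nat_lit 33) (.ev (nat_lit 52) (nat_lit 128851378178) (.ev (nat_lit 116)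
 (nat_lit 32) (.ev (nat_lit 1060) (nat_lit 256) (.ev (nat_lit 1124) (nat_lit 4194304) (.ev (nat_lit 1492)
 (nat_lit 8192) (.ev (nat_lit 2132) (nat_lit 16) (.ev (nat_lit 2141) (nat_lit 512) .dd))))))))) (.br (nat_lit
 37) (.ch (nat_lit 36) (.ev (nat_lit 52) (nat_lit 128851116560) (.ev (nat_lit 180) (nat_lit 270336) (.ev
 (nat_lit 452) (nat_lit 4194304) (.ev (nat_lit 932) (nat_lit 2) (.ev (nat_lit 2372) (nat_lit 32) (.ev (nat_lit
 2381) (nat_lit 256) .dd))))))) (.ch (nat_lit 37) (.ev (nat_lit 52) (nat_lit 25772172032) (.ev (nat_lit 752)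
 (nat_lit 103083409458) .dd))))) (.br (nat_lit 40) (.br (nat_lit 39) (.ch (nat_lit 38) (.ev (nat_lit 52)
 (nat_lit 4457248) (.ev (nat_lit 452) (nat_lit 17179869186) (.ev (nat_lit 1092) (nat_lit 16) (.ev (nat_lit
 1220) (nat_lit 68719476736) (.ev (nat_lit 1332) (nat_lit 34359738368) (.ev (nat_lit 1828) (nat_lit 8589934592)
 (.ev (nat_lit 1892) (nat_lit 8192) (.ev (nat_lit 1901) (nat_lit 2097152) .dd))))))))) (.ch (nat_lit 39) (.ev
 (nat_lit 52) (nat_lit 6299698) (.ev (nat_lit 148) (nat_lit 68719476736) (.ev (nat_lit 516) (nat_lit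
 34359738368) (.ev (nat_lit 1684) (nat_lit 17179869184) (.ev (nat_lit 2164) (nat_lit 262400) (.ev (nat_lit
 2324) (nat_lit 512) (.ev (nat_lit 2333) (nat_lit 8589934592) .dd))))))))) (.br (nat_lit 41) (.ch (nat_lit 40)
 (.ev (nat_lit 52) (nat_lit 51544072752) (.ev (nat_lit 180) (nat_lit 68719476736) (.ev (nat_lit 356) (nat_lit
 8589934592) (.ev (nat_lit 1796) (nat_lit 256) (.ev (nat_lit 2036) (nat_lit 2097152) (.ev (nat_lit 2045)
 (nat_lit 2) .dd))))))) (.ch (nat_lit 41) (.ev (nat_lit 52) (nat_lit 120263279106) (.ev (nat_lit 560) (nat_lit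
 8592302384) .dd)))))) (.br (nat_lit 47) (.br (nat_lit 44) (.br (nat_lit 43) (.ch (nat_lit 42) (.ev (nat_lit
 52) (nat_lit 42949935408) (.ev (nat_lit 356) (nat_lit 8192) (.ev (nat_lit 804) (nat_lit 4194304) (.ev (nat_lit
 1104) (nat_lit 85901443586) .dd))))) (.ch (nat_lit 43) (.ev (nat_lit 52) (nat_lit 51543802370) (.ev (nat_lit
 148) (nat_lit 8589934592) (.ev (nat_lit 420) (nat_lit 2097152) (.ev (nat_lit 880) (nat_lit 68719747376)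
 .dd)))))) (.br (nat_lit 46) (.ch (nat_lit 44) (.ev (nat_lit 52) (nat_lit 94491640592) (.ev (nat_lit 644)
 (nat_lit 4194304) (.ev (nat_lit 964) (nat_lit 34359738368) (.ev (nat_lit 1092) (nat_lit 8192) (.ev (nat_lit
 2036) (nat_lit 32) (.ev (nat_lit 2045) (nat_lit 2) .dd))))))) (.ch (nat_lit 46) (.ev (nat_lit 52) (nat_lit
 34364194832) (.ev (nat_lit 192) (nat_lit 94491386658) .dd))))) (.br (nat_lit 49) (.br (nat_lit 48) (.ch
 (nat_lit 47) (.ev (nat_lit 52) (nat_lit 17184334624) (.ev (nat_lit 784) (nat_lit 111671246866) .dd))) (.ch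
 (nat_lit 48) (.ev (nat_lit 52) (nat_lit 85899346736) (.ev (nat_lit 624) (nat_lit 42956234754) .dd)))) (.br
 (nat_lit 50) (.ch (nat_lit 49) (.ev (nat_lit 52) (nat_lit 17184333826) (.ev (nat_lit 84) (nat_lit 68719476736)
 (.ev (nat_lit 308) (nat_lit 32) (.ev (nat_lit 516) (nat_lit 2097152) (.ev (nat_lit 676) (nat_lit 16) (.ev
 (nat_lit 1620) (nat_lit 8589934592) (.ev (nat_lit 1652) (nat_lit 256) (.ev (nat_lit 2420) (nat_lit
 34359738368) (.ev (nat_lit 2429) (nat_lit 512) .dd)))))))))) (.br (nat_lit 52) (.ch (nat_lit 50) (.ev (nat_lit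
 52) (nat_lit 8592294432) (.ev (nat_lit 432) (nat_lit 120263287058) .dd))) (.ch (nat_lit 52) (.ev (nat_lit 52)
 (nat_lit 270608) (.ev (nat_lit 116) (nat_lit 2097152) (.ev (nat_lit 244) (nat_lit 17184063488) (.ev (nat_lit
 1124) (nat_lit 512) (.ev (nat_lit 1156) (nat_lit 2) (.ev (nat_lit 1540) (nat_lit 8589934592) (.ev (nat_lit
 1840) (nat_lit 103079215104) (.ev (nat_lit 1853) (nat_lit 32) .dd)))))))))))))))))

/-- The trie. -/
noncomputable def T : Tr := .nd (nat_lit 1000000) (.br (nat_lit 7) (.br (nat_lit 2) (.br (nat_lit 1) (.ch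
 (nat_lit 0) (.ev (nat_lit 0) (nat_lit 8796093022207) .dd)) (.ch (nat_lit 1) T1)) (.br (nat_lit 3) (.ch
 (nat_lit 2) T2) (.br (nat_lit 4) (.ch (nat_lit 3) (.ev (nat_lit 0) (nat_lit 8796093022207) .dd)) (.ch (nat_lit
 4) (.ev (nat_lit 0) (nat_lit 8796093022207) .dd))))) (.br (nat_lit 9) (.br (nat_lit 8) (.ch (nat_lit 7) (.ev
 (nat_lit 0) (nat_lit 8796093022207) .dd)) (.ch (nat_lit 8) T8)) (.br (nat_lit 14) (.ch (nat_lit 9) (.ev
 (nat_lit 0) (nat_lit 8796093022207) .dd)) (.br (nat_lit 18) (.ch (nat_lit 14) (.ev (nat_lit 0) (nat_lit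
 8796093022207) .dd)) (.ch (nat_lit 18) (.ev (nat_lit 0) (nat_lit 8796093022207) .dd))))))

/-- The possible values. -/
noncomputable def oks : List ℕ := [7]

/-- The parameters. -/
noncomputable def S : Pr := ⟨fun i l e => lget mz (lget [] (lget [] tabs i) l) e, oks, [(nat_lit 0), (nat_lit
 1), (nat_lit 0)], T, (nat_lit 8796093022207), (nat_lit 3303796230157), (nat_lit 43), [(nat_lit 279193),
 (nat_lit 2287041271849359)], [(nat_lit 361), (nat_lit 2809)]⟩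

/-- Nothing known. -/
noncomputable def cs0 : Cs := (.cons (nat_lit 19) (nat_lit 0) (nat_lit 1) (.cons (nat_lit 53) (nat_lit 0) (nat_lit 1) .nil))

theorem part_1 : part S cs0 (nat_lit 1) = true := by decide +kernel

theorem part_2 : part S cs0 (nat_lit 2) = true := by decide +kernel

theorem part_8 : part S cs0 (nat_lit 8) = true := by decide +kernel

/-- Data of a prime. -/
noncomputable def D0 : PD := ⟨(nat_lit 19), (nat_lit 2), (210, 3, 5), (67, 193, 280), (183, 17, 194)⟩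

theorem D0_ok : D0.Ok := pdb_sound (s := 9) (C := ⟨⟨21, 6, -28, 11, 14, 17, -4, 7, -1⟩, (2, 11, 15)⟩) (by show Nat.Prime 19; norm_num) (by decide +kernel)

/-- Lines of the first type. -/
noncomputable def Cl0 : List C1 := [⟨⟨11, 14, -28, 21, 6, 7, 4, -7, -5⟩, (12, 16, 13)⟩,
  ⟨⟨0, 0, 0, 0, 0, 0, 0, 0, 0⟩, (0, 0, 0)⟩,
  ⟨⟨0, 0, 0, 0, 0, 0, 0, 0, 0⟩, (0, 0, 0)⟩,
  ⟨⟨9, 6, -32, 1, 26, 7, 8, -1, -1⟩, (8, 3, 5)⟩,
  ⟨⟨-9, -6, -23, -1, -26, 8, 8, -1, -7⟩, (13, 12, 18)⟩,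
  ⟨⟨0, 0, 0, 0, 0, 0, 0, 0, 0⟩, (0, 0, 0)⟩,
  ⟨⟨0, 0, 0, 0, 0, 0, 0, 0, 0⟩, (0, 0, 0)⟩,
  ⟨⟨9, -6, -32, 1, -26, 7, 8, 1, -1⟩, (5, 9, 15)⟩,
  ⟨⟨0, 0, 0, 0, 0, 0, 0, 0, 0⟩, (0, 0, 0)⟩,
  ⟨⟨21, -6, -28, 11, -14, 17, -4, -7, -1⟩, (16, 12, 6)⟩,
  ⟨⟨0, 0, 0, 0, 0, 0, 0, 0, 0⟩, (0, 0, 0)⟩,
  ⟨⟨0, 0, 0, 0, 0, 0, 0, 0, 0⟩, (0, 0, 0)⟩,
  ⟨⟨0, 0, 0, 0, 0, 0, 0, 0, 0⟩, (0, 0, 0)⟩,
  ⟨⟨0, 0, 0, 0, 0, 0, 0, 0, 0⟩, (0, 0, 0)⟩,
  ⟨⟨11, -14, -28, 21, -6, 7, 4, 7, -5⟩, (5, 13, 7)⟩,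
  ⟨⟨0, 0, 0, 0, 0, 0, 0, 0, 0⟩, (0, 0, 0)⟩,
  ⟨⟨0, 0, 0, 0, 0, 0, 0, 0, 0⟩, (0, 0, 0)⟩,
  ⟨⟨0, 0, 0, 0, 0, 0, 0, 0, 0⟩, (0, 0, 0)⟩,
  ⟨⟨-9, 6, -23, -1, 26, 8, 8, 1, -7⟩, (16, 6, 9)⟩]

/-- Data of a prime. -/
noncomputable def D1 : PD := ⟨(nat_lit 53), (nat_lit 2), (2545, 8, 14), (2610, 800, 1557), (1968, 957, 2439)⟩

theorem D1_ok : D1.Ok := pdb_sound (s := 12) (C := ⟨⟨-13, 2, -76, -47, -58, 31, 18, -15, -13⟩, (40, 6, 18)⟩) (by show Nat.Prime 53; norm_num) (by decide +kernel)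

/-- Lines of the first type. -/
noncomputable def Cl1 : List C1 := [⟨⟨13, -2, -89, -47, -58, 16, 18, -15, -5⟩, (17, 16, 48)⟩,
  ⟨⟨-23, 38, -56, 43, 58, 1, 18, -9, -23⟩, (9, 50, 16)⟩,
  ⟨⟨-23, -38, -56, 43, -58, 1, 18, 9, -23⟩, (18, 47, 32)⟩,
  ⟨⟨-13, -2, -76, -47, 58, 31, 18, 15, -13⟩, (20, 3, 9)⟩,
  ⟨⟨0, 0, 0, 0, 0, 0, 0, 0, 0⟩, (0, 0, 0)⟩,
  ⟨⟨0, 0, 0, 0, 0, 0, 0, 0, 0⟩, (0, 0, 0)⟩,
  ⟨⟨0, 0, 0, 0, 0, 0, 0, 0, 0⟩, (0, 0, 0)⟩,
  ⟨⟨23, -38, -79, -43, -58, 44, -18, 9, -5⟩, (29, 8, 28)⟩,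
  ⟨⟨33, -18, -89, 67, 2, 4, 2, 23, -7⟩, (12, 34, 20)⟩,
  ⟨⟨0, 0, 0, 0, 0, 0, 0, 0, 0⟩, (0, 0, 0)⟩,
  ⟨⟨0, 0, 0, 0, 0, 0, 0, 0, 0⟩, (0, 0, 0)⟩,
  ⟨⟨0, 0, 0, 0, 0, 0, 0, 0, 0⟩, (0, 0, 0)⟩,
  ⟨⟨0, 0, 0, 0, 0, 0, 0, 0, 0⟩, (0, 0, 0)⟩,
  ⟨⟨27, 42, -76, 7, 58, 49, 22, -7, -5⟩, (1, 14, 44)⟩,
  ⟨⟨33, 18, -89, 67, -2, 4, 2, -23, -7⟩, (44, 1, 38)⟩,
  ⟨⟨0, 0, 0, 0, 0, 0, 0, 0, 0⟩, (0, 0, 0)⟩,
  ⟨⟨0, 0, 0, 0, 0, 0, 0, 0, 0⟩, (0, 0, 0)⟩,
  ⟨⟨0, 0, 0, 0, 0, 0, 0, 0, 0⟩, (0, 0, 0)⟩,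
  ⟨⟨0, 0, 0, 0, 0, 0, 0, 0, 0⟩, (0, 0, 0)⟩,
  ⟨⟨57, 42, -56, -37, 62, 41, -10, 1, -19⟩, (20, 27, 3)⟩,
  ⟨⟨13, 2, -89, -47, 58, 16, 18, 15, -5⟩, (50, 19, 4)⟩,
  ⟨⟨0, 0, 0, 0, 0, 0, 0, 0, 0⟩, (0, 0, 0)⟩,
  ⟨⟨0, 0, 0, 0, 0, 0, 0, 0, 0⟩, (0, 0, 0)⟩,
  ⟨⟨57, -42, -56, -37, -62, 41, -10, -1, -19⟩, (16, 11, 13)⟩,
  ⟨⟨0, 0, 0, 0, 0, 0, 0, 0, 0⟩, (0, 0, 0)⟩,
  ⟨⟨7, 58, -56, 27, 42, 49, 22, -7, -17⟩, (20, 9, 25)⟩,
  ⟨⟨0, 0, 0, 0, 0, 0, 0, 0, 0⟩, (0, 0, 0)⟩,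
  ⟨⟨67, -2, -71, 33, 18, 56, -2, 23, -5⟩, (28, 13, 49)⟩,
  ⟨⟨0, 0, 0, 0, 0, 0, 0, 0, 0⟩, (0, 0, 0)⟩,
  ⟨⟨0, 0, 0, 0, 0, 0, 0, 0, 0⟩, (0, 0, 0)⟩,
  ⟨⟨23, 38, -79, -43, 58, 44, -18, -9, -5⟩, (20, 11, 12)⟩,
  ⟨⟨0, 0, 0, 0, 0, 0, 0, 0, 0⟩, (0, 0, 0)⟩,
  ⟨⟨7, -58, -56, 27, -42, 49, 22, 7, -17⟩, (17, 5, 8)⟩,
  ⟨⟨0, 0, 0, 0, 0, 0, 0, 0, 0⟩, (0, 0, 0)⟩,
  ⟨⟨67, 2, -71, 33, -18, 56, -2, -23, -5⟩, (8, 34, 14)⟩,
  ⟨⟨27, -42, -76, 7, -58, 49, 22, 7, -5⟩, (50, 11, 27)⟩,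
  ⟨⟨0, 0, 0, 0, 0, 0, 0, 0, 0⟩, (0, 0, 0)⟩,
  ⟨⟨0, 0, 0, 0, 0, 0, 0, 0, 0⟩, (0, 0, 0)⟩,
  ⟨⟨0, 0, 0, 0, 0, 0, 0, 0, 0⟩, (0, 0, 0)⟩,
  ⟨⟨0, 0, 0, 0, 0, 0, 0, 0, 0⟩, (0, 0, 0)⟩,
  ⟨⟨0, 0, 0, 0, 0, 0, 0, 0, 0⟩, (0, 0, 0)⟩,
  ⟨⟨0, 0, 0, 0, 0, 0, 0, 0, 0⟩, (0, 0, 0)⟩,
  ⟨⟨0, 0, 0, 0, 0, 0, 0, 0, 0⟩, (0, 0, 0)⟩,
  ⟨⟨0, 0, 0, 0, 0, 0, 0, 0, 0⟩, (0, 0, 0)⟩,
  ⟨⟨0, 0, 0, 0, 0, 0, 0, 0, 0⟩, (0, 0, 0)⟩,
  ⟨⟨-37, 62, -4, -57, -42, 1, 10, -1, -29⟩, (22, 21, 27)⟩,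
  ⟨⟨0, 0, 0, 0, 0, 0, 0, 0, 0⟩, (0, 0, 0)⟩,
  ⟨⟨0, 0, 0, 0, 0, 0, 0, 0, 0⟩, (0, 0, 0)⟩,
  ⟨⟨0, 0, 0, 0, 0, 0, 0, 0, 0⟩, (0, 0, 0)⟩,
  ⟨⟨0, 0, 0, 0, 0, 0, 0, 0, 0⟩, (0, 0, 0)⟩,
  ⟨⟨0, 0, 0, 0, 0, 0, 0, 0, 0⟩, (0, 0, 0)⟩,
  ⟨⟨-37, -62, -4, -57, 42, 1, 10, 1, -29⟩, (6, 25, 17)⟩,
  ⟨⟨0, 0, 0, 0, 0, 0, 0, 0, 0⟩, (0, 0, 0)⟩]

/-- Data of a prime. -/
noncomputable def Dm : PD := ⟨(nat_lit 43), (nat_lit 2), (989, 1, 17), (1652, 774, 636), (172, 5, 130)⟩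

theorem Dm_ok : Dm.Ok := pdb_sound (s := 1) (C := ⟨⟨43, -38, -44, 43, 38, 1, 0, 9, -19⟩, (5, 38, 9)⟩) (by show Nat.Prime 43; norm_num) (by decide +kernel)

/-- Lines of the first type. -/
noncomputable def Clm : List C1 := [⟨⟨43, 38, -44, 43, -38, 1, 0, -9, -19⟩, (42, 1, 24)⟩,
  ⟨⟨0, 0, 0, 0, 0, 0, 0, 0, 0⟩, (0, 0, 0)⟩,
  ⟨⟨57, -18, -16, -17, -58, 1, 4, 1, -23⟩, (41, 27, 24)⟩,
  ⟨⟨7, -38, -56, -33, -42, 49, -16, 7, -1⟩, (28, 40, 22)⟩,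
  ⟨⟨0, 0, 0, 0, 0, 0, 0, 0, 0⟩, (0, 0, 0)⟩,
  ⟨⟨0, 0, 0, 0, 0, 0, 0, 0, 0⟩, (0, 0, 0)⟩,
  ⟨⟨0, 0, 0, 0, 0, 0, 0, 0, 0⟩, (0, 0, 0)⟩,
  ⟨⟨0, 0, 0, 0, 0, 0, 0, 0, 0⟩, (0, 0, 0)⟩,
  ⟨⟨0, 0, 0, 0, 0, 0, 0, 0, 0⟩, (0, 0, 0)⟩,
  ⟨⟨0, 0, 0, 0, 0, 0, 0, 0, 0⟩, (0, 0, 0)⟩,
  ⟨⟨0, 0, 0, 0, 0, 0, 0, 0, 0⟩, (0, 0, 0)⟩,
  ⟨⟨27, -18, -71, -53, -22, 4, -4, 17, -7⟩, (6, 36, 23)⟩,
  ⟨⟨0, 0, 0, 0, 0, 0, 0, 0, 0⟩, (0, 0, 0)⟩,
  ⟨⟨0, 0, 0, 0, 0, 0, 0, 0, 0⟩, (0, 0, 0)⟩,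
  ⟨⟨-7, -2, -64, -47, -38, 31, 12, -15, -7⟩, (37, 15, 41)⟩,
  ⟨⟨-7, 2, -64, -47, 38, 31, 12, 15, -7⟩, (3, 14, 1)⟩,
  ⟨⟨-7, 38, -49, 33, 42, 16, 16, -7, -17⟩, (27, 14, 12)⟩,
  ⟨⟨0, 0, 0, 0, 0, 0, 0, 0, 0⟩, (0, 0, 0)⟩,
  ⟨⟨0, 0, 0, 0, 0, 0, 0, 0, 0⟩, (0, 0, 0)⟩,
  ⟨⟨57, 18, -16, -17, 58, 1, 4, -1, -23⟩, (36, 30, 41)⟩,
  ⟨⟨53, 22, -49, 27, -18, 44, 4, -17, -11⟩, (6, 42, 11)⟩,
  ⟨⟨0, 0, 0, 0, 0, 0, 0, 0, 0⟩, (0, 0, 0)⟩,
  ⟨⟨0, 0, 0, 0, 0, 0, 0, 0, 0⟩, (0, 0, 0)⟩,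
  ⟨⟨27, 18, -71, -53, 22, 4, -4, -17, -7⟩, (1, 6, 11)⟩,
  ⟨⟨57, -18, -41, -17, -58, 16, -4, -1, -19⟩, (7, 13, 41)⟩,
  ⟨⟨0, 0, 0, 0, 0, 0, 0, 0, 0⟩, (0, 0, 0)⟩,
  ⟨⟨0, 0, 0, 0, 0, 0, 0, 0, 0⟩, (0, 0, 0)⟩,
  ⟨⟨7, 38, -56, -33, 42, 49, -16, -7, -1⟩, (27, 14, 12)⟩,
  ⟨⟨7, 2, -71, -47, -38, 16, 12, -15, -5⟩, (3, 29, 42)⟩,
  ⟨⟨7, -2, -71, -47, 38, 16, 12, 15, -5⟩, (37, 28, 2)⟩,
  ⟨⟨0, 0, 0, 0, 0, 0, 0, 0, 0⟩, (0, 0, 0)⟩,
  ⟨⟨0, 0, 0, 0, 0, 0, 0, 0, 0⟩, (0, 0, 0)⟩,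
  ⟨⟨53, -22, -49, 27, 18, 44, 4, 17, -11⟩, (36, 37, 23)⟩,
  ⟨⟨0, 0, 0, 0, 0, 0, 0, 0, 0⟩, (0, 0, 0)⟩,
  ⟨⟨0, 0, 0, 0, 0, 0, 0, 0, 0⟩, (0, 0, 0)⟩,
  ⟨⟨0, 0, 0, 0, 0, 0, 0, 0, 0⟩, (0, 0, 0)⟩,
  ⟨⟨0, 0, 0, 0, 0, 0, 0, 0, 0⟩, (0, 0, 0)⟩,
  ⟨⟨0, 0, 0, 0, 0, 0, 0, 0, 0⟩, (0, 0, 0)⟩,
  ⟨⟨0, 0, 0, 0, 0, 0, 0, 0, 0⟩, (0, 0, 0)⟩,
  ⟨⟨0, 0, 0, 0, 0, 0, 0, 0, 0⟩, (0, 0, 0)⟩,
  ⟨⟨-7, -38, -49, 33, -42, 16, 16, 7, -17⟩, (28, 40, 22)⟩,
  ⟨⟨57, 18, -41, -17, 58, 16, -4, 1, -19⟩, (2, 16, 24)⟩,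
  ⟨⟨0, 0, 0, 0, 0, 0, 0, 0, 0⟩, (0, 0, 0)⟩]

/-- Unit moves. -/
noncomputable def U : List Mv := [mz,
  mz,
  mz,
  mz,
  mz,
  ⟨⟨-1, 0, 1, 0, 1, 0, 0, 0, 1⟩, .nil, (nat_lit 18), (nat_lit 9), (nat_lit 4), (nat_lit 1), (0, 0, 0), [], 18⟩,
  ⟨⟨-1, 0, 1, 0, -1, 0, 0, 0, 1⟩, .nil, (nat_lit 0), (nat_lit 12), (nat_lit 1), (nat_lit 0), (0, 0, 0), [], 7⟩,
  mz,
  mz,
  mz,
  ⟨⟨1, 0, 0, 0, -1, 0, 0, 0, 1⟩, .nil, (nat_lit 18), (nat_lit 14), (nat_lit 2), (nat_lit 1), (0, 0, 0), [], 10⟩,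
  ⟨⟨-1, 0, 1, 0, -1, 0, 0, 0, 1⟩, .nil, (nat_lit 0), (nat_lit 12), (nat_lit 1), (nat_lit 0), (0, 0, 0), [], 7⟩,
  ⟨⟨-1, 0, 1, 0, -1, 0, 0, 0, 1⟩, .nil, (nat_lit 0), (nat_lit 12), (nat_lit 1), (nat_lit 0), (0, 0, 0), [], 7⟩,
  ⟨⟨-1, 0, 1, 0, 1, 0, 0, 0, 1⟩, .nil, (nat_lit 18), (nat_lit 9), (nat_lit 4), (nat_lit 1), (0, 0, 0), [], 18⟩,
  mz,
  ⟨⟨-1, 0, 1, 0, 1, 0, 0, 0, 1⟩, .nil, (nat_lit 18), (nat_lit 9), (nat_lit 4), (nat_lit 1), (0, 0, 0), [], 18⟩,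
  ⟨⟨1, 0, 0, 0, -1, 0, 0, 0, 1⟩, .nil, (nat_lit 18), (nat_lit 14), (nat_lit 2), (nat_lit 1), (0, 0, 0), [], 10⟩,
  ⟨⟨1, 0, 0, 0, -1, 0, 0, 0, 1⟩, .nil, (nat_lit 18), (nat_lit 14), (nat_lit 2), (nat_lit 1), (0, 0, 0), [], 10⟩,
  mz]

theorem v_ty : tyb Dm S.ty1 Clm = true := by decide +kernel

theorem v_ty0 : tyb D0 (S.tys.getD 0 0) Cl0 = true := by decide +kernel

theorem v_ty1 : tyb D1 (S.tys.getD 1 0) Cl1 = true := by decide +kernel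

theorem v_msc : mscb S D0 [D1] Dm (nat_lit 262) = true := by decide +kernel

theorem v_mv0 : mvsn (nat_lit 1874976601) S D0 [D1] Dm (nat_lit 262) 0 D0 = true := by decide +kernel

theorem v_mv1 : mvsn (nat_lit 1874976601) S D0 [D1] Dm (nat_lit 262) 1 D1 = true := by decide +kernel

theorem v_mm : mmsn (nat_lit 1874976601) S D0 [D1] Dm (nat_lit 262) = true := by decide +kernel

theorem v_un : unb S D0 (nat_lit 262) U = true := by decide +kernel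

theorem v_ok : okb S.oks [(0, 0, 0)] = true := by decide +kernel

theorem v_part : ∀ d < D0.p, (nat_lit 262).testBit d = true → part S (zc (D0 :: [D1])) d = true := by
  intro d hd h
  have h1 : ∀ d < 19, (nat_lit 262).testBit d = true → d = 1 ∨ d = 2 ∨ d = 8 := by decide
  rcases h1 d hd h with rfl | rfl | rfl
  · exact part_1
  · exact part_2
  · exact part_8

theorem main (n : ℕ) (ho : Odd n) (hr : ¬ Rep n) (h0 : Split 19 n) (h1 : Split 53 n) (hm : Split 43 n) :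
    n ∈ EE := by
  refine concln (W := nat_lit 1874976601) (S := S) (P0 := D0) (Pl := [D1]) (Pm := Dm) (cn := nat_lit 262) ?_ Dm_ok v_ty ?_ ?_ v_msc ?_ v_mm v_un v_part v_ok
    n ho hr ?_ hm
  · simp only [List.forall_mem_cons]
    exact ⟨D0_ok, D1_ok, fun _ h => absurd h (by simp)⟩
  · exact all2 (φ := fun j P => ∃ L, tyb P (S.tys.getD j 0) L = true) ⟨_, v_ty0⟩ ⟨_, v_ty1⟩
  · exact all2 (φ := fun j P => Nat.ble (S.pks.getD j 0) (Nat.pow P.p P.K) = true) (by decide +kernel) (by decide +kernel)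
  · exact all2 (φ := fun i P => mvsn (nat_lit 1874976601) S D0 [D1] Dm (nat_lit 262) i P = true) v_mv0 v_mv1
  · simp only [List.forall_mem_cons]
    exact ⟨h0, h1, fun _ h => absurd h (by simp)⟩

end Pool.Agent.Work.MP_9954fe_nt.P19_53_43

namespace Pool.Agent.Work.MP_9954fe_nt.P31_71_53

/-- Dummy move. -/
noncomputable def mz : Mv := ⟨⟨0, 0, 0, 0, 0, 0, 0, 0, 0⟩, .nil, (nat_lit 0), (nat_lit 0), (nat_lit 0), (nat_lit 0), (0, 0, 0), [], 0⟩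

/-- Moves. -/
noncomputable def t0_1 : List Mv := [
  ⟨⟨3, 20, 29, -4, 25, -18, 26, 8, -7⟩, (.cons (nat_lit 10329) (nat_lit 21285) (nat_lit 4930) (nat_lit 1)
 (.cons (nat_lit 326) (nat_lit 1479) (nat_lit 1664) (nat_lit 1) .nil)), (nat_lit 31), (nat_lit 5), (nat_lit
 37), (nat_lit 1), (26, 17, 29), [819, 2218], 4⟩,
  ⟨⟨23, -12, -36, -4, 25, -18, 26, 8, -7⟩, (.cons (nat_lit 3271) (nat_lit 12916) (nat_lit 935) (nat_lit 1)
 (.cons (nat_lit 2490) (nat_lit 279) (nat_lit 2125) (nat_lit 1) .nil)), (nat_lit 36), (nat_lit 15), (nat_lit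
 19), (nat_lit 1), (3, 17, 29), [21957, 1936], 19⟩,
  ⟨⟨3, 20, 29, -4, 25, -18, 26, 8, -7⟩, (.cons (nat_lit 10329) (nat_lit 21285) (nat_lit 4930) (nat_lit 1)
 (.cons (nat_lit 326) (nat_lit 1479) (nat_lit 1664) (nat_lit 1) .nil)), (nat_lit 31), (nat_lit 5), (nat_lit
 37), (nat_lit 1), (26, 17, 29), [819, 2218], 4⟩,
  ⟨⟨3, 20, 29, -4, 25, -18, 26, 8, -7⟩, (.cons (nat_lit 10329) (nat_lit 21285) (nat_lit 4930) (nat_lit 1)
 (.cons (nat_lit 326) (nat_lit 1479) (nat_lit 1664) (nat_lit 1) .nil)), (nat_lit 31), (nat_lit 5), (nat_lit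
 37), (nat_lit 1), (26, 17, 29), [819, 2218], 4⟩,
  ⟨⟨23, -12, -36, -4, 25, -18, 26, 8, -7⟩, (.cons (nat_lit 3271) (nat_lit 12916) (nat_lit 935) (nat_lit 1)
 (.cons (nat_lit 2490) (nat_lit 279) (nat_lit 2125) (nat_lit 1) .nil)), (nat_lit 36), (nat_lit 15), (nat_lit
 19), (nat_lit 1), (3, 17, 29), [21957, 1936], 19⟩,
  ⟨⟨3, 20, 29, -4, 25, -18, 26, 8, -7⟩, (.cons (nat_lit 10329) (nat_lit 21285) (nat_lit 4930) (nat_lit 1)
 (.cons (nat_lit 326) (nat_lit 1479) (nat_lit 1664) (nat_lit 1) .nil)), (nat_lit 31), (nat_lit 5), (nat_lit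
 37), (nat_lit 1), (26, 17, 29), [819, 2218], 4⟩,
  ⟨⟨3, 20, 29, -4, 25, -18, 26, 8, -7⟩, (.cons (nat_lit 10329) (nat_lit 21285) (nat_lit 4930) (nat_lit 1)
 (.cons (nat_lit 326) (nat_lit 1479) (nat_lit 1664) (nat_lit 1) .nil)), (nat_lit 31), (nat_lit 5), (nat_lit
 37), (nat_lit 1), (26, 17, 29), [819, 2218], 4⟩,
  ⟨⟨23, -12, -36, 4, -25, 18, 26, 8, -7⟩, (.cons (nat_lit 10345) (nat_lit 11678) (nat_lit 29062) (nat_lit 1)
 (.cons (nat_lit 136) (nat_lit 4356) (nat_lit 529) (nat_lit 1) .nil)), (nat_lit 20), (nat_lit 12), (nat_lit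
 38), (nat_lit 1), (3, 14, 29), [26410, 3899], 1⟩,
  ⟨⟨3, 20, 29, -4, 25, -18, 26, 8, -7⟩, (.cons (nat_lit 10329) (nat_lit 21285) (nat_lit 4930) (nat_lit 1)
 (.cons (nat_lit 326) (nat_lit 1479) (nat_lit 1664) (nat_lit 1) .nil)), (nat_lit 31), (nat_lit 5), (nat_lit
 37), (nat_lit 1), (26, 17, 29), [819, 2218], 4⟩,
  ⟨⟨23, -12, -36, 4, -25, 18, 26, 8, -7⟩, (.cons (nat_lit 10345) (nat_lit 11678) (nat_lit 29062) (nat_lit 1)
 (.cons (nat_lit 136) (nat_lit 4356) (nat_lit 529) (nat_lit 1) .nil)), (nat_lit 20), (nat_lit 12), (nat_lit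
 38), (nat_lit 1), (3, 14, 29), [26410, 3899], 1⟩,
  ⟨⟨3, 20, 29, -4, 25, -18, 26, 8, -7⟩, (.cons (nat_lit 10329) (nat_lit 21285) (nat_lit 4930) (nat_lit 1)
 (.cons (nat_lit 326) (nat_lit 1479) (nat_lit 1664) (nat_lit 1) .nil)), (nat_lit 31), (nat_lit 5), (nat_lit
 37), (nat_lit 1), (26, 17, 29), [819, 2218], 4⟩,
  ⟨⟨23, -12, -36, -4, 25, -18, 26, 8, -7⟩, (.cons (nat_lit 3271) (nat_lit 12916) (nat_lit 935) (nat_lit 1)
 (.cons (nat_lit 2490) (nat_lit 279) (nat_lit 2125) (nat_lit 1) .nil)), (nat_lit 36), (nat_lit 15), (nat_lit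
 19), (nat_lit 1), (3, 17, 29), [21957, 1936], 19⟩,
  ⟨⟨3, 20, 29, -4, 25, -18, 26, 8, -7⟩, (.cons (nat_lit 10329) (nat_lit 21285) (nat_lit 4930) (nat_lit 1)
 (.cons (nat_lit 326) (nat_lit 1479) (nat_lit 1664) (nat_lit 1) .nil)), (nat_lit 31), (nat_lit 5), (nat_lit
 37), (nat_lit 1), (26, 17, 29), [819, 2218], 4⟩,
  ⟨⟨23, -12, -36, 4, -25, 18, 26, 8, -7⟩, (.cons (nat_lit 10345) (nat_lit 11678) (nat_lit 29062) (nat_lit 1)
 (.cons (nat_lit 136) (nat_lit 4356) (nat_lit 529) (nat_lit 1) .nil)), (nat_lit 20), (nat_lit 12), (nat_lit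
 38), (nat_lit 1), (3, 14, 29), [26410, 3899], 1⟩,
  ⟨⟨3, 20, 29, -4, 25, -18, 26, 8, -7⟩, (.cons (nat_lit 10329) (nat_lit 21285) (nat_lit 4930) (nat_lit 1)
 (.cons (nat_lit 326) (nat_lit 1479) (nat_lit 1664) (nat_lit 1) .nil)), (nat_lit 31), (nat_lit 5), (nat_lit
 37), (nat_lit 1), (26, 17, 29), [819, 2218], 4⟩,
  ⟨⟨3, 20, 29, -4, 25, -18, 26, 8, -7⟩, (.cons (nat_lit 10329) (nat_lit 21285) (nat_lit 4930) (nat_lit 1)
 (.cons (nat_lit 326) (nat_lit 1479) (nat_lit 1664) (nat_lit 1) .nil)), (nat_lit 31), (nat_lit 5), (nat_lit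
 37), (nat_lit 1), (26, 17, 29), [819, 2218], 4⟩,
  ⟨⟨23, -12, -36, -4, 25, -18, 26, 8, -7⟩, (.cons (nat_lit 3271) (nat_lit 12916) (nat_lit 935) (nat_lit 1)
 (.cons (nat_lit 2490) (nat_lit 279) (nat_lit 2125) (nat_lit 1) .nil)), (nat_lit 36), (nat_lit 15), (nat_lit
 19), (nat_lit 1), (3, 17, 29), [21957, 1936], 19⟩,
  ⟨⟨3, 20, 29, -4, 25, -18, 26, 8, -7⟩, (.cons (nat_lit 10329) (nat_lit 21285) (nat_lit 4930) (nat_lit 1)
 (.cons (nat_lit 326) (nat_lit 1479) (nat_lit 1664) (nat_lit 1) .nil)), (nat_lit 31), (nat_lit 5), (nat_lit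
 37), (nat_lit 1), (26, 17, 29), [819, 2218], 4⟩,
  ⟨⟨23, -12, -36, -4, 25, -18, 26, 8, -7⟩, (.cons (nat_lit 3271) (nat_lit 12916) (nat_lit 935) (nat_lit 1)
 (.cons (nat_lit 2490) (nat_lit 279) (nat_lit 2125) (nat_lit 1) .nil)), (nat_lit 36), (nat_lit 15), (nat_lit
 19), (nat_lit 1), (3, 17, 29), [21957, 1936], 19⟩,
  ⟨⟨3, 20, 29, 4, -25, 18, 26, 8, -7⟩, (.cons (nat_lit 29043) (nat_lit 18841) (nat_lit 22172) (nat_lit 1)
 (.cons (nat_lit 2398) (nat_lit 3468) (nat_lit 2910) (nat_lit 1) .nil)), (nat_lit 23), (nat_lit 4), (nat_lit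
 13), (nat_lit 1), (26, 14, 29), [15793, 4985], 2⟩,
  ⟨⟨3, 20, 29, 4, -25, 18, 26, 8, -7⟩, (.cons (nat_lit 29043) (nat_lit 18841) (nat_lit 22172) (nat_lit 1)
 (.cons (nat_lit 2398) (nat_lit 3468) (nat_lit 2910) (nat_lit 1) .nil)), (nat_lit 23), (nat_lit 4), (nat_lit
 13), (nat_lit 1), (26, 14, 29), [15793, 4985], 2⟩,
  ⟨⟨3, 20, 29, -4, 25, -18, 26, 8, -7⟩, (.cons (nat_lit 10329) (nat_lit 21285) (nat_lit 4930) (nat_lit 1)
 (.cons (nat_lit 326) (nat_lit 1479) (nat_lit 1664) (nat_lit 1) .nil)), (nat_lit 31), (nat_lit 5), (nat_lit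
 37), (nat_lit 1), (26, 17, 29), [819, 2218], 4⟩,
  ⟨⟨3, 20, 29, -4, 25, -18, 26, 8, -7⟩, (.cons (nat_lit 10329) (nat_lit 21285) (nat_lit 4930) (nat_lit 1)
 (.cons (nat_lit 326) (nat_lit 1479) (nat_lit 1664) (nat_lit 1) .nil)), (nat_lit 31), (nat_lit 5), (nat_lit
 37), (nat_lit 1), (26, 17, 29), [819, 2218], 4⟩,
  ⟨⟨3, 20, 29, 4, -25, 18, 26, 8, -7⟩, (.cons (nat_lit 29043) (nat_lit 18841) (nat_lit 22172) (nat_lit 1)
 (.cons (nat_lit 2398) (nat_lit 3468) (nat_lit 2910) (nat_lit 1) .nil)), (nat_lit 23), (nat_lit 4), (nat_lit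
 13), (nat_lit 1), (26, 14, 29), [15793, 4985], 2⟩,
  ⟨⟨3, 20, 29, -4, 25, -18, 26, 8, -7⟩, (.cons (nat_lit 10329) (nat_lit 21285) (nat_lit 4930) (nat_lit 1)
 (.cons (nat_lit 326) (nat_lit 1479) (nat_lit 1664) (nat_lit 1) .nil)), (nat_lit 31), (nat_lit 5), (nat_lit
 37), (nat_lit 1), (26, 17, 29), [819, 2218], 4⟩,
  ⟨⟨23, -12, -36, 4, -25, 18, 26, 8, -7⟩, (.cons (nat_lit 10345) (nat_lit 11678) (nat_lit 29062) (nat_lit 1)
 (.cons (nat_lit 136) (nat_lit 4356) (nat_lit 529) (nat_lit 1) .nil)), (nat_lit 20), (nat_lit 12), (nat_lit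
 38), (nat_lit 1), (3, 14, 29), [26410, 3899], 1⟩,
  ⟨⟨3, 20, 29, 4, -25, 18, 26, 8, -7⟩, (.cons (nat_lit 29043) (nat_lit 18841) (nat_lit 22172) (nat_lit 1)
 (.cons (nat_lit 2398) (nat_lit 3468) (nat_lit 2910) (nat_lit 1) .nil)), (nat_lit 23), (nat_lit 4), (nat_lit
 13), (nat_lit 1), (26, 14, 29), [15793, 4985], 2⟩,
  ⟨⟨3, 20, 29, -4, 25, -18, 26, 8, -7⟩, (.cons (nat_lit 10329) (nat_lit 21285) (nat_lit 4930) (nat_lit 1)
 (.cons (nat_lit 326) (nat_lit 1479) (nat_lit 1664) (nat_lit 1) .nil)), (nat_lit 31), (nat_lit 5), (nat_lit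
 37), (nat_lit 1), (26, 17, 29), [819, 2218], 4⟩,
  ⟨⟨23, -12, -36, 4, -25, 18, 26, 8, -7⟩, (.cons (nat_lit 10345) (nat_lit 11678) (nat_lit 29062) (nat_lit 1)
 (.cons (nat_lit 136) (nat_lit 4356) (nat_lit 529) (nat_lit 1) .nil)), (nat_lit 20), (nat_lit 12), (nat_lit
 38), (nat_lit 1), (3, 14, 29), [26410, 3899], 1⟩,
  ⟨⟨3, 20, 29, 4, -25, 18, 26, 8, -7⟩, (.cons (nat_lit 29043) (nat_lit 18841) (nat_lit 22172) (nat_lit 1)
 (.cons (nat_lit 2398) (nat_lit 3468) (nat_lit 2910) (nat_lit 1) .nil)), (nat_lit 23), (nat_lit 4), (nat_lit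
 13), (nat_lit 1), (26, 14, 29), [15793, 4985], 2⟩,
  ⟨⟨3, 20, 29, -4, 25, -18, 26, 8, -7⟩, (.cons (nat_lit 10329) (nat_lit 21285) (nat_lit 4930) (nat_lit 1)
 (.cons (nat_lit 326) (nat_lit 1479) (nat_lit 1664) (nat_lit 1) .nil)), (nat_lit 31), (nat_lit 5), (nat_lit
 37), (nat_lit 1), (26, 17, 29), [819, 2218], 4⟩]

/-- Moves. -/
noncomputable def t0_4 : List Mv := [
  ⟨⟨-33, 8, 17, 4, 15, 28, -6, 24, -11⟩, (.cons (nat_lit 9483) (nat_lit 19565) (nat_lit 10748) (nat_lit 1)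
 (.cons (nat_lit 2167) (nat_lit 3011) (nat_lit 3394) (nat_lit 1) .nil)), (nat_lit 22), (nat_lit 46), (nat_lit
 6), (nat_lit 1), (23, 16, 7), [19532, 3935], 23⟩,
  ⟨⟨27, 16, -28, -4, -15, -28, -6, 24, -11⟩, (.cons (nat_lit 19008) (nat_lit 12086) (nat_lit 25737) (nat_lit 1)
 (.cons (nat_lit 4302) (nat_lit 3760) (nat_lit 3872) (nat_lit 1) .nil)), (nat_lit 47), (nat_lit 52), (nat_lit
 12), (nat_lit 1), (15, 15, 7), [9457, 2706], 27⟩,
  ⟨⟨27, 16, -28, -4, -15, -28, -6, 24, -11⟩, (.cons (nat_lit 19008) (nat_lit 12086) (nat_lit 25737) (nat_lit 1)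
 (.cons (nat_lit 4302) (nat_lit 3760) (nat_lit 3872) (nat_lit 1) .nil)), (nat_lit 47), (nat_lit 52), (nat_lit
 12), (nat_lit 1), (15, 15, 7), [9457, 2706], 27⟩,
  ⟨⟨27, 16, -28, -4, -15, -28, -6, 24, -11⟩, (.cons (nat_lit 19008) (nat_lit 12086) (nat_lit 25737) (nat_lit 1)
 (.cons (nat_lit 4302) (nat_lit 3760) (nat_lit 3872) (nat_lit 1) .nil)), (nat_lit 47), (nat_lit 52), (nat_lit
 12), (nat_lit 1), (15, 15, 7), [9457, 2706], 27⟩,
  ⟨⟨-33, 8, 17, -4, -15, -28, -6, 24, -11⟩, (.cons (nat_lit 698) (nat_lit 820) (nat_lit 957) (nat_lit 1) (.cons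
 (nat_lit 461) (nat_lit 3685) (nat_lit 4193) (nat_lit 1) .nil)), (nat_lit 40), (nat_lit 24), (nat_lit 42),
 (nat_lit 1), (23, 15, 7), [9476, 2449], 10⟩,
  ⟨⟨-33, 8, 17, 4, 15, 28, -6, 24, -11⟩, (.cons (nat_lit 9483) (nat_lit 19565) (nat_lit 10748) (nat_lit 1)
 (.cons (nat_lit 2167) (nat_lit 3011) (nat_lit 3394) (nat_lit 1) .nil)), (nat_lit 22), (nat_lit 46), (nat_lit
 6), (nat_lit 1), (23, 16, 7), [19532, 3935], 23⟩,
  ⟨⟨-33, 8, 17, -4, -15, -28, -6, 24, -11⟩, (.cons (nat_lit 698) (nat_lit 820) (nat_lit 957) (nat_lit 1) (.cons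
 (nat_lit 461) (nat_lit 3685) (nat_lit 4193) (nat_lit 1) .nil)), (nat_lit 40), (nat_lit 24), (nat_lit 42),
 (nat_lit 1), (23, 15, 7), [9476, 2449], 10⟩,
  ⟨⟨27, 16, -28, -4, -15, -28, -6, 24, -11⟩, (.cons (nat_lit 19008) (nat_lit 12086) (nat_lit 25737) (nat_lit 1)
 (.cons (nat_lit 4302) (nat_lit 3760) (nat_lit 3872) (nat_lit 1) .nil)), (nat_lit 47), (nat_lit 52), (nat_lit
 12), (nat_lit 1), (15, 15, 7), [9457, 2706], 27⟩,
  ⟨⟨27, 16, -28, -4, -15, -28, -6, 24, -11⟩, (.cons (nat_lit 19008) (nat_lit 12086) (nat_lit 25737) (nat_lit 1)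
 (.cons (nat_lit 4302) (nat_lit 3760) (nat_lit 3872) (nat_lit 1) .nil)), (nat_lit 47), (nat_lit 52), (nat_lit
 12), (nat_lit 1), (15, 15, 7), [9457, 2706], 27⟩,
  ⟨⟨27, 16, -28, -4, -15, -28, -6, 24, -11⟩, (.cons (nat_lit 19008) (nat_lit 12086) (nat_lit 25737) (nat_lit 1)
 (.cons (nat_lit 4302) (nat_lit 3760) (nat_lit 3872) (nat_lit 1) .nil)), (nat_lit 47), (nat_lit 52), (nat_lit
 12), (nat_lit 1), (15, 15, 7), [9457, 2706], 27⟩,
  ⟨⟨27, 16, -28, -4, -15, -28, -6, 24, -11⟩, (.cons (nat_lit 19008) (nat_lit 12086) (nat_lit 25737) (nat_lit 1)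
 (.cons (nat_lit 4302) (nat_lit 3760) (nat_lit 3872) (nat_lit 1) .nil)), (nat_lit 47), (nat_lit 52), (nat_lit
 12), (nat_lit 1), (15, 15, 7), [9457, 2706], 27⟩,
  ⟨⟨27, 16, -28, -4, -15, -28, -6, 24, -11⟩, (.cons (nat_lit 19008) (nat_lit 12086) (nat_lit 25737) (nat_lit 1)
 (.cons (nat_lit 4302) (nat_lit 3760) (nat_lit 3872) (nat_lit 1) .nil)), (nat_lit 47), (nat_lit 52), (nat_lit
 12), (nat_lit 1), (15, 15, 7), [9457, 2706], 27⟩,
  ⟨⟨27, 16, -28, 4, 15, 28, -6, 24, -11⟩, (.cons (nat_lit 18671) (nat_lit 20264) (nat_lit 19571) (nat_lit 1)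
 (.cons (nat_lit 5040) (nat_lit 1544) (nat_lit 3971) (nat_lit 1) .nil)), (nat_lit 52), (nat_lit 29), (nat_lit
 37), (nat_lit 1), (15, 16, 7), [20072, 2111], 10⟩,
  ⟨⟨27, 16, -28, -4, -15, -28, -6, 24, -11⟩, (.cons (nat_lit 19008) (nat_lit 12086) (nat_lit 25737) (nat_lit 1)
 (.cons (nat_lit 4302) (nat_lit 3760) (nat_lit 3872) (nat_lit 1) .nil)), (nat_lit 47), (nat_lit 52), (nat_lit
 12), (nat_lit 1), (15, 15, 7), [9457, 2706], 27⟩,
  ⟨⟨27, 16, -28, -4, -15, -28, -6, 24, -11⟩, (.cons (nat_lit 19008) (nat_lit 12086) (nat_lit 25737) (nat_lit 1)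
 (.cons (nat_lit 4302) (nat_lit 3760) (nat_lit 3872) (nat_lit 1) .nil)), (nat_lit 47), (nat_lit 52), (nat_lit
 12), (nat_lit 1), (15, 15, 7), [9457, 2706], 27⟩,
  ⟨⟨-33, 8, 17, 4, 15, 28, -6, 24, -11⟩, (.cons (nat_lit 9483) (nat_lit 19565) (nat_lit 10748) (nat_lit 1)
 (.cons (nat_lit 2167) (nat_lit 3011) (nat_lit 3394) (nat_lit 1) .nil)), (nat_lit 22), (nat_lit 46), (nat_lit
 6), (nat_lit 1), (23, 16, 7), [19532, 3935], 23⟩,
  ⟨⟨27, 16, -28, -4, -15, -28, -6, 24, -11⟩, (.cons (nat_lit 19008) (nat_lit 12086) (nat_lit 25737) (nat_lit 1)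
 (.cons (nat_lit 4302) (nat_lit 3760) (nat_lit 3872) (nat_lit 1) .nil)), (nat_lit 47), (nat_lit 52), (nat_lit
 12), (nat_lit 1), (15, 15, 7), [9457, 2706], 27⟩,
  ⟨⟨27, 16, -28, -4, -15, -28, -6, 24, -11⟩, (.cons (nat_lit 19008) (nat_lit 12086) (nat_lit 25737) (nat_lit 1)
 (.cons (nat_lit 4302) (nat_lit 3760) (nat_lit 3872) (nat_lit 1) .nil)), (nat_lit 47), (nat_lit 52), (nat_lit
 12), (nat_lit 1), (15, 15, 7), [9457, 2706], 27⟩,
  ⟨⟨27, 16, -28, -4, -15, -28, -6, 24, -11⟩, (.cons (nat_lit 19008) (nat_lit 12086) (nat_lit 25737) (nat_lit 1)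
 (.cons (nat_lit 4302) (nat_lit 3760) (nat_lit 3872) (nat_lit 1) .nil)), (nat_lit 47), (nat_lit 52), (nat_lit
 12), (nat_lit 1), (15, 15, 7), [9457, 2706], 27⟩,
  ⟨⟨27, 16, -28, -4, -15, -28, -6, 24, -11⟩, (.cons (nat_lit 19008) (nat_lit 12086) (nat_lit 25737) (nat_lit 1)
 (.cons (nat_lit 4302) (nat_lit 3760) (nat_lit 3872) (nat_lit 1) .nil)), (nat_lit 47), (nat_lit 52), (nat_lit
 12), (nat_lit 1), (15, 15, 7), [9457, 2706], 27⟩,
  ⟨⟨27, 16, -28, 4, 15, 28, -6, 24, -11⟩, (.cons (nat_lit 18671) (nat_lit 20264) (nat_lit 19571) (nat_lit 1)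
 (.cons (nat_lit 5040) (nat_lit 1544) (nat_lit 3971) (nat_lit 1) .nil)), (nat_lit 52), (nat_lit 29), (nat_lit
 37), (nat_lit 1), (15, 16, 7), [20072, 2111], 10⟩,
  ⟨⟨-33, 8, 17, -4, -15, -28, -6, 24, -11⟩, (.cons (nat_lit 698) (nat_lit 820) (nat_lit 957) (nat_lit 1) (.cons
 (nat_lit 461) (nat_lit 3685) (nat_lit 4193) (nat_lit 1) .nil)), (nat_lit 40), (nat_lit 24), (nat_lit 42),
 (nat_lit 1), (23, 15, 7), [9476, 2449], 10⟩,
  ⟨⟨27, 16, -28, -4, -15, -28, -6, 24, -11⟩, (.cons (nat_lit 19008) (nat_lit 12086) (nat_lit 25737) (nat_lit 1)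
 (.cons (nat_lit 4302) (nat_lit 3760) (nat_lit 3872) (nat_lit 1) .nil)), (nat_lit 47), (nat_lit 52), (nat_lit
 12), (nat_lit 1), (15, 15, 7), [9457, 2706], 27⟩,
  ⟨⟨27, 16, -28, -4, -15, -28, -6, 24, -11⟩, (.cons (nat_lit 19008) (nat_lit 12086) (nat_lit 25737) (nat_lit 1)
 (.cons (nat_lit 4302) (nat_lit 3760) (nat_lit 3872) (nat_lit 1) .nil)), (nat_lit 47), (nat_lit 52), (nat_lit
 12), (nat_lit 1), (15, 15, 7), [9457, 2706], 27⟩,
  ⟨⟨27, 16, -28, 4, 15, 28, -6, 24, -11⟩, (.cons (nat_lit 18671) (nat_lit 20264) (nat_lit 19571) (nat_lit 1)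
 (.cons (nat_lit 5040) (nat_lit 1544) (nat_lit 3971) (nat_lit 1) .nil)), (nat_lit 52), (nat_lit 29), (nat_lit
 37), (nat_lit 1), (15, 16, 7), [20072, 2111], 10⟩,
  ⟨⟨-33, 8, 17, 4, 15, 28, -6, 24, -11⟩, (.cons (nat_lit 9483) (nat_lit 19565) (nat_lit 10748) (nat_lit 1)
 (.cons (nat_lit 2167) (nat_lit 3011) (nat_lit 3394) (nat_lit 1) .nil)), (nat_lit 22), (nat_lit 46), (nat_lit
 6), (nat_lit 1), (23, 16, 7), [19532, 3935], 23⟩,
  ⟨⟨-33, 8, 17, -4, -15, -28, -6, 24, -11⟩, (.cons (nat_lit 698) (nat_lit 820) (nat_lit 957) (nat_lit 1) (.cons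
 (nat_lit 461) (nat_lit 3685) (nat_lit 4193) (nat_lit 1) .nil)), (nat_lit 40), (nat_lit 24), (nat_lit 42),
 (nat_lit 1), (23, 15, 7), [9476, 2449], 10⟩,
  ⟨⟨-33, 8, 17, -4, -15, -28, -6, 24, -11⟩, (.cons (nat_lit 698) (nat_lit 820) (nat_lit 957) (nat_lit 1) (.cons
 (nat_lit 461) (nat_lit 3685) (nat_lit 4193) (nat_lit 1) .nil)), (nat_lit 40), (nat_lit 24), (nat_lit 42),
 (nat_lit 1), (23, 15, 7), [9476, 2449], 10⟩,
  ⟨⟨-33, 8, 17, 4, 15, 28, -6, 24, -11⟩, (.cons (nat_lit 9483) (nat_lit 19565) (nat_lit 10748) (nat_lit 1)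
 (.cons (nat_lit 2167) (nat_lit 3011) (nat_lit 3394) (nat_lit 1) .nil)), (nat_lit 22), (nat_lit 46), (nat_lit
 6), (nat_lit 1), (23, 16, 7), [19532, 3935], 23⟩,
  ⟨⟨27, 16, -28, 4, 15, 28, -6, 24, -11⟩, (.cons (nat_lit 18671) (nat_lit 20264) (nat_lit 19571) (nat_lit 1)
 (.cons (nat_lit 5040) (nat_lit 1544) (nat_lit 3971) (nat_lit 1) .nil)), (nat_lit 52), (nat_lit 29), (nat_lit
 37), (nat_lit 1), (15, 16, 7), [20072, 2111], 10⟩,
  ⟨⟨27, 16, -28, -4, -15, -28, -6, 24, -11⟩, (.cons (nat_lit 19008) (nat_lit 12086) (nat_lit 25737) (nat_lit 1)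
 (.cons (nat_lit 4302) (nat_lit 3760) (nat_lit 3872) (nat_lit 1) .nil)), (nat_lit 47), (nat_lit 52), (nat_lit
 12), (nat_lit 1), (15, 15, 7), [9457, 2706], 27⟩]

/-- Moves. -/
noncomputable def t0_6 : List Mv := [
  ⟨⟨1, -12, 35, -16, -25, -2, 22, -16, -5⟩, (.cons (nat_lit 19049) (nat_lit 27811) (nat_lit 11555) (nat_lit 1)
 (.cons (nat_lit 4216) (nat_lit 2994) (nat_lit 3504) (nat_lit 1) .nil)), (nat_lit 46), (nat_lit 24), (nat_lit
 14), (nat_lit 1), (1, 15, 22), [18461, 4530], 20⟩,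
  ⟨⟨21, -4, -40, 16, 25, 2, 22, -16, -5⟩, (.cons (nat_lit 21670) (nat_lit 21293) (nat_lit 18379) (nat_lit 1)
 (.cons (nat_lit 3067) (nat_lit 1324) (nat_lit 2647) (nat_lit 1) .nil)), (nat_lit 35), (nat_lit 29), (nat_lit
 24), (nat_lit 1), (21, 16, 22), [12199, 4503], 20⟩,
  ⟨⟨1, -12, 35, -16, -25, -2, 22, -16, -5⟩, (.cons (nat_lit 19049) (nat_lit 27811) (nat_lit 11555) (nat_lit 1)
 (.cons (nat_lit 4216) (nat_lit 2994) (nat_lit 3504) (nat_lit 1) .nil)), (nat_lit 46), (nat_lit 24), (nat_lit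
 14), (nat_lit 1), (1, 15, 22), [18461, 4530], 20⟩,
  ⟨⟨1, -12, 35, -16, -25, -2, 22, -16, -5⟩, (.cons (nat_lit 19049) (nat_lit 27811) (nat_lit 11555) (nat_lit 1)
 (.cons (nat_lit 4216) (nat_lit 2994) (nat_lit 3504) (nat_lit 1) .nil)), (nat_lit 46), (nat_lit 24), (nat_lit
 14), (nat_lit 1), (1, 15, 22), [18461, 4530], 20⟩,
  ⟨⟨1, -12, 35, -16, -25, -2, 22, -16, -5⟩, (.cons (nat_lit 19049) (nat_lit 27811) (nat_lit 11555) (nat_lit 1)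
 (.cons (nat_lit 4216) (nat_lit 2994) (nat_lit 3504) (nat_lit 1) .nil)), (nat_lit 46), (nat_lit 24), (nat_lit
 14), (nat_lit 1), (1, 15, 22), [18461, 4530], 20⟩,
  ⟨⟨21, -4, -40, -16, -25, -2, 22, -16, -5⟩, (.cons (nat_lit 24108) (nat_lit 6469) (nat_lit 2252) (nat_lit 1)
 (.cons (nat_lit 1698) (nat_lit 2145) (nat_lit 3627) (nat_lit 1) .nil)), (nat_lit 20), (nat_lit 52), (nat_lit
 21), (nat_lit 1), (21, 15, 22), [6072, 3615], 1⟩,
  ⟨⟨21, -4, -40, 16, 25, 2, 22, -16, -5⟩, (.cons (nat_lit 21670) (nat_lit 21293) (nat_lit 18379) (nat_lit 1)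
 (.cons (nat_lit 3067) (nat_lit 1324) (nat_lit 2647) (nat_lit 1) .nil)), (nat_lit 35), (nat_lit 29), (nat_lit
 24), (nat_lit 1), (21, 16, 22), [12199, 4503], 20⟩,
  ⟨⟨21, -4, -40, -16, -25, -2, 22, -16, -5⟩, (.cons (nat_lit 24108) (nat_lit 6469) (nat_lit 2252) (nat_lit 1)
 (.cons (nat_lit 1698) (nat_lit 2145) (nat_lit 3627) (nat_lit 1) .nil)), (nat_lit 20), (nat_lit 52), (nat_lit
 21), (nat_lit 1), (21, 15, 22), [6072, 3615], 1⟩,
  ⟨⟨1, -12, 35, -16, -25, -2, 22, -16, -5⟩, (.cons (nat_lit 19049) (nat_lit 27811) (nat_lit 11555) (nat_lit 1)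
 (.cons (nat_lit 4216) (nat_lit 2994) (nat_lit 3504) (nat_lit 1) .nil)), (nat_lit 46), (nat_lit 24), (nat_lit
 14), (nat_lit 1), (1, 15, 22), [18461, 4530], 20⟩,
  ⟨⟨1, -12, 35, -16, -25, -2, 22, -16, -5⟩, (.cons (nat_lit 19049) (nat_lit 27811) (nat_lit 11555) (nat_lit 1)
 (.cons (nat_lit 4216) (nat_lit 2994) (nat_lit 3504) (nat_lit 1) .nil)), (nat_lit 46), (nat_lit 24), (nat_lit
 14), (nat_lit 1), (1, 15, 22), [18461, 4530], 20⟩,
  ⟨⟨1, -12, 35, -16, -25, -2, 22, -16, -5⟩, (.cons (nat_lit 19049) (nat_lit 27811) (nat_lit 11555) (nat_lit 1)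
 (.cons (nat_lit 4216) (nat_lit 2994) (nat_lit 3504) (nat_lit 1) .nil)), (nat_lit 46), (nat_lit 24), (nat_lit
 14), (nat_lit 1), (1, 15, 22), [18461, 4530], 20⟩,
  ⟨⟨21, -4, -40, -16, -25, -2, 22, -16, -5⟩, (.cons (nat_lit 24108) (nat_lit 6469) (nat_lit 2252) (nat_lit 1)
 (.cons (nat_lit 1698) (nat_lit 2145) (nat_lit 3627) (nat_lit 1) .nil)), (nat_lit 20), (nat_lit 52), (nat_lit
 21), (nat_lit 1), (21, 15, 22), [6072, 3615], 1⟩,
  ⟨⟨1, -12, 35, -16, -25, -2, 22, -16, -5⟩, (.cons (nat_lit 19049) (nat_lit 27811) (nat_lit 11555) (nat_lit 1)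
 (.cons (nat_lit 4216) (nat_lit 2994) (nat_lit 3504) (nat_lit 1) .nil)), (nat_lit 46), (nat_lit 24), (nat_lit
 14), (nat_lit 1), (1, 15, 22), [18461, 4530], 20⟩,
  ⟨⟨1, -12, 35, -16, -25, -2, 22, -16, -5⟩, (.cons (nat_lit 19049) (nat_lit 27811) (nat_lit 11555) (nat_lit 1)
 (.cons (nat_lit 4216) (nat_lit 2994) (nat_lit 3504) (nat_lit 1) .nil)), (nat_lit 46), (nat_lit 24), (nat_lit
 14), (nat_lit 1), (1, 15, 22), [18461, 4530], 20⟩,
  ⟨⟨1, -12, 35, 16, 25, 2, 22, -16, -5⟩, (.cons (nat_lit 23499) (nat_lit 12259) (nat_lit 4310) (nat_lit 1)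
 (.cons (nat_lit 3572) (nat_lit 5021) (nat_lit 4572) (nat_lit 1) .nil)), (nat_lit 12), (nat_lit 46), (nat_lit
 33), (nat_lit 1), (1, 16, 22), [23139, 3613], 46⟩,
  ⟨⟨21, -4, -40, -16, -25, -2, 22, -16, -5⟩, (.cons (nat_lit 24108) (nat_lit 6469) (nat_lit 2252) (nat_lit 1)
 (.cons (nat_lit 1698) (nat_lit 2145) (nat_lit 3627) (nat_lit 1) .nil)), (nat_lit 20), (nat_lit 52), (nat_lit
 21), (nat_lit 1), (21, 15, 22), [6072, 3615], 1⟩,
  ⟨⟨21, -4, -40, 16, 25, 2, 22, -16, -5⟩, (.cons (nat_lit 21670) (nat_lit 21293) (nat_lit 18379) (nat_lit 1)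
 (.cons (nat_lit 3067) (nat_lit 1324) (nat_lit 2647) (nat_lit 1) .nil)), (nat_lit 35), (nat_lit 29), (nat_lit
 24), (nat_lit 1), (21, 16, 22), [12199, 4503], 20⟩,
  ⟨⟨1, -12, 35, -16, -25, -2, 22, -16, -5⟩, (.cons (nat_lit 19049) (nat_lit 27811) (nat_lit 11555) (nat_lit 1)
 (.cons (nat_lit 4216) (nat_lit 2994) (nat_lit 3504) (nat_lit 1) .nil)), (nat_lit 46), (nat_lit 24), (nat_lit
 14), (nat_lit 1), (1, 15, 22), [18461, 4530], 20⟩,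
  ⟨⟨21, -4, -40, -16, -25, -2, 22, -16, -5⟩, (.cons (nat_lit 24108) (nat_lit 6469) (nat_lit 2252) (nat_lit 1)
 (.cons (nat_lit 1698) (nat_lit 2145) (nat_lit 3627) (nat_lit 1) .nil)), (nat_lit 20), (nat_lit 52), (nat_lit
 21), (nat_lit 1), (21, 15, 22), [6072, 3615], 1⟩,
  ⟨⟨21, -4, -40, 16, 25, 2, 22, -16, -5⟩, (.cons (nat_lit 21670) (nat_lit 21293) (nat_lit 18379) (nat_lit 1)
 (.cons (nat_lit 3067) (nat_lit 1324) (nat_lit 2647) (nat_lit 1) .nil)), (nat_lit 35), (nat_lit 29), (nat_lit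
 24), (nat_lit 1), (21, 16, 22), [12199, 4503], 20⟩,
  ⟨⟨1, -12, 35, -16, -25, -2, 22, -16, -5⟩, (.cons (nat_lit 19049) (nat_lit 27811) (nat_lit 11555) (nat_lit 1)
 (.cons (nat_lit 4216) (nat_lit 2994) (nat_lit 3504) (nat_lit 1) .nil)), (nat_lit 46), (nat_lit 24), (nat_lit
 14), (nat_lit 1), (1, 15, 22), [18461, 4530], 20⟩,
  ⟨⟨1, -12, 35, -16, -25, -2, 22, -16, -5⟩, (.cons (nat_lit 19049) (nat_lit 27811) (nat_lit 11555) (nat_lit 1)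
 (.cons (nat_lit 4216) (nat_lit 2994) (nat_lit 3504) (nat_lit 1) .nil)), (nat_lit 46), (nat_lit 24), (nat_lit
 14), (nat_lit 1), (1, 15, 22), [18461, 4530], 20⟩,
  ⟨⟨1, -12, 35, -16, -25, -2, 22, -16, -5⟩, (.cons (nat_lit 19049) (nat_lit 27811) (nat_lit 11555) (nat_lit 1)
 (.cons (nat_lit 4216) (nat_lit 2994) (nat_lit 3504) (nat_lit 1) .nil)), (nat_lit 46), (nat_lit 24), (nat_lit
 14), (nat_lit 1), (1, 15, 22), [18461, 4530], 20⟩,
  ⟨⟨1, -12, 35, 16, 25, 2, 22, -16, -5⟩, (.cons (nat_lit 23499) (nat_lit 12259) (nat_lit 4310) (nat_lit 1)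
 (.cons (nat_lit 3572) (nat_lit 5021) (nat_lit 4572) (nat_lit 1) .nil)), (nat_lit 12), (nat_lit 46), (nat_lit
 33), (nat_lit 1), (1, 16, 22), [23139, 3613], 46⟩,
  ⟨⟨1, -12, 35, 16, 25, 2, 22, -16, -5⟩, (.cons (nat_lit 23499) (nat_lit 12259) (nat_lit 4310) (nat_lit 1)
 (.cons (nat_lit 3572) (nat_lit 5021) (nat_lit 4572) (nat_lit 1) .nil)), (nat_lit 12), (nat_lit 46), (nat_lit
 33), (nat_lit 1), (1, 16, 22), [23139, 3613], 46⟩,
  ⟨⟨1, -12, 35, -16, -25, -2, 22, -16, -5⟩, (.cons (nat_lit 19049) (nat_lit 27811) (nat_lit 11555) (nat_lit 1)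
 (.cons (nat_lit 4216) (nat_lit 2994) (nat_lit 3504) (nat_lit 1) .nil)), (nat_lit 46), (nat_lit 24), (nat_lit
 14), (nat_lit 1), (1, 15, 22), [18461, 4530], 20⟩,
  ⟨⟨21, -4, -40, 16, 25, 2, 22, -16, -5⟩, (.cons (nat_lit 21670) (nat_lit 21293) (nat_lit 18379) (nat_lit 1)
 (.cons (nat_lit 3067) (nat_lit 1324) (nat_lit 2647) (nat_lit 1) .nil)), (nat_lit 35), (nat_lit 29), (nat_lit
 24), (nat_lit 1), (21, 16, 22), [12199, 4503], 20⟩,
  ⟨⟨1, -12, 35, -16, -25, -2, 22, -16, -5⟩, (.cons (nat_lit 19049) (nat_lit 27811) (nat_lit 11555) (nat_lit 1)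
 (.cons (nat_lit 4216) (nat_lit 2994) (nat_lit 3504) (nat_lit 1) .nil)), (nat_lit 46), (nat_lit 24), (nat_lit
 14), (nat_lit 1), (1, 15, 22), [18461, 4530], 20⟩,
  ⟨⟨1, -12, 35, -16, -25, -2, 22, -16, -5⟩, (.cons (nat_lit 19049) (nat_lit 27811) (nat_lit 11555) (nat_lit 1)
 (.cons (nat_lit 4216) (nat_lit 2994) (nat_lit 3504) (nat_lit 1) .nil)), (nat_lit 46), (nat_lit 24), (nat_lit
 14), (nat_lit 1), (1, 15, 22), [18461, 4530], 20⟩,
  ⟨⟨1, -12, 35, 16, 25, 2, 22, -16, -5⟩, (.cons (nat_lit 23499) (nat_lit 12259) (nat_lit 4310) (nat_lit 1)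
 (.cons (nat_lit 3572) (nat_lit 5021) (nat_lit 4572) (nat_lit 1) .nil)), (nat_lit 12), (nat_lit 46), (nat_lit
 33), (nat_lit 1), (1, 16, 22), [23139, 3613], 46⟩,
  ⟨⟨1, -12, 35, -16, -25, -2, 22, -16, -5⟩, (.cons (nat_lit 19049) (nat_lit 27811) (nat_lit 11555) (nat_lit 1)
 (.cons (nat_lit 4216) (nat_lit 2994) (nat_lit 3504) (nat_lit 1) .nil)), (nat_lit 46), (nat_lit 24), (nat_lit
 14), (nat_lit 1), (1, 15, 22), [18461, 4530], 20⟩]

/-- Moves. -/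
noncomputable def t0_8 : List Mv := [
  ⟨⟨-31, 0, 0, 10, 19, -30, -4, -20, -19⟩, (.cons (nat_lit 17880) (nat_lit 10674) (nat_lit 28306) (nat_lit 1)
 (.cons (nat_lit 5040) (nat_lit 4657) (nat_lit 651) (nat_lit 1) .nil)), (nat_lit 52), (nat_lit 30), (nat_lit
 9), (nat_lit 1), (0, 5, 29), [19958, 1456], 26⟩,
  ⟨⟨-31, 0, 0, -10, -19, 30, -4, -20, -19⟩, (.cons (nat_lit 18714) (nat_lit 22983) (nat_lit 5336) (nat_lit 1)
 (.cons (nat_lit 16) (nat_lit 917) (nat_lit 3760) (nat_lit 1) .nil)), (nat_lit 27), (nat_lit 7), (nat_lit 50),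
 (nat_lit 1), (0, 26, 29), [28609, 701], 49⟩,
  ⟨⟨-31, 0, 0, -10, -19, 30, -4, -20, -19⟩, (.cons (nat_lit 18714) (nat_lit 22983) (nat_lit 5336) (nat_lit 1)
 (.cons (nat_lit 16) (nat_lit 917) (nat_lit 3760) (nat_lit 1) .nil)), (nat_lit 27), (nat_lit 7), (nat_lit 50),
 (nat_lit 1), (0, 26, 29), [28609, 701], 49⟩,
  ⟨⟨-31, 0, 0, -10, -19, 30, -4, -20, -19⟩, (.cons (nat_lit 18714) (nat_lit 22983) (nat_lit 5336) (nat_lit 1)
 (.cons (nat_lit 16) (nat_lit 917) (nat_lit 3760) (nat_lit 1) .nil)), (nat_lit 27), (nat_lit 7), (nat_lit 50),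
 (nat_lit 1), (0, 26, 29), [28609, 701], 49⟩,
  ⟨⟨-31, 0, 0, 10, 19, -30, -4, -20, -19⟩, (.cons (nat_lit 17880) (nat_lit 10674) (nat_lit 28306) (nat_lit 1)
 (.cons (nat_lit 5040) (nat_lit 4657) (nat_lit 651) (nat_lit 1) .nil)), (nat_lit 52), (nat_lit 30), (nat_lit
 9), (nat_lit 1), (0, 5, 29), [19958, 1456], 26⟩,
  ⟨⟨-31, 0, 0, 10, 19, -30, -4, -20, -19⟩, (.cons (nat_lit 17880) (nat_lit 10674) (nat_lit 28306) (nat_lit 1)
 (.cons (nat_lit 5040) (nat_lit 4657) (nat_lit 651) (nat_lit 1) .nil)), (nat_lit 52), (nat_lit 30), (nat_lit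
 9), (nat_lit 1), (0, 5, 29), [19958, 1456], 26⟩,
  ⟨⟨-31, 0, 0, -10, -19, 30, -4, -20, -19⟩, (.cons (nat_lit 18714) (nat_lit 22983) (nat_lit 5336) (nat_lit 1)
 (.cons (nat_lit 16) (nat_lit 917) (nat_lit 3760) (nat_lit 1) .nil)), (nat_lit 27), (nat_lit 7), (nat_lit 50),
 (nat_lit 1), (0, 26, 29), [28609, 701], 49⟩,
  ⟨⟨27, -20, -19, 10, 19, -30, -4, -20, -19⟩, (.cons (nat_lit 26014) (nat_lit 474) (nat_lit 645) (nat_lit 1)
 (.cons (nat_lit 1625) (nat_lit 2322) (nat_lit 1228) (nat_lit 1) .nil)), (nat_lit 50), (nat_lit 1), (nat_lit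
 19), (nat_lit 1), (29, 5, 29), [11597, 5037], 46⟩,
  ⟨⟨27, -20, -19, -10, -19, 30, -4, -20, -19⟩, (.cons (nat_lit 4112) (nat_lit 3489) (nat_lit 20016) (nat_lit 1)
 (.cons (nat_lit 1953) (nat_lit 3695) (nat_lit 3883) (nat_lit 1) .nil)), (nat_lit 18), (nat_lit 2), (nat_lit
 30), (nat_lit 1), (29, 26, 29), [28183, 4369], 23⟩,
  ⟨⟨27, -20, -19, 10, 19, -30, -4, -20, -19⟩, (.cons (nat_lit 26014) (nat_lit 474) (nat_lit 645) (nat_lit 1)
 (.cons (nat_lit 1625) (nat_lit 2322) (nat_lit 1228) (nat_lit 1) .nil)), (nat_lit 50), (nat_lit 1), (nat_lit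
 19), (nat_lit 1), (29, 5, 29), [11597, 5037], 46⟩,
  ⟨⟨-31, 0, 0, 10, 19, -30, -4, -20, -19⟩, (.cons (nat_lit 17880) (nat_lit 10674) (nat_lit 28306) (nat_lit 1)
 (.cons (nat_lit 5040) (nat_lit 4657) (nat_lit 651) (nat_lit 1) .nil)), (nat_lit 52), (nat_lit 30), (nat_lit
 9), (nat_lit 1), (0, 5, 29), [19958, 1456], 26⟩,
  ⟨⟨-31, 0, 0, 10, 19, -30, -4, -20, -19⟩, (.cons (nat_lit 17880) (nat_lit 10674) (nat_lit 28306) (nat_lit 1)
 (.cons (nat_lit 5040) (nat_lit 4657) (nat_lit 651) (nat_lit 1) .nil)), (nat_lit 52), (nat_lit 30), (nat_lit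
 9), (nat_lit 1), (0, 5, 29), [19958, 1456], 26⟩,
  ⟨⟨27, -20, -19, -10, -19, 30, -4, -20, -19⟩, (.cons (nat_lit 4112) (nat_lit 3489) (nat_lit 20016) (nat_lit 1)
 (.cons (nat_lit 1953) (nat_lit 3695) (nat_lit 3883) (nat_lit 1) .nil)), (nat_lit 18), (nat_lit 2), (nat_lit
 30), (nat_lit 1), (29, 26, 29), [28183, 4369], 23⟩,
  ⟨⟨27, -20, -19, -10, -19, 30, -4, -20, -19⟩, (.cons (nat_lit 4112) (nat_lit 3489) (nat_lit 20016) (nat_lit 1)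
 (.cons (nat_lit 1953) (nat_lit 3695) (nat_lit 3883) (nat_lit 1) .nil)), (nat_lit 18), (nat_lit 2), (nat_lit
 30), (nat_lit 1), (29, 26, 29), [28183, 4369], 23⟩,
  ⟨⟨-31, 0, 0, 10, 19, -30, -4, -20, -19⟩, (.cons (nat_lit 17880) (nat_lit 10674) (nat_lit 28306) (nat_lit 1)
 (.cons (nat_lit 5040) (nat_lit 4657) (nat_lit 651) (nat_lit 1) .nil)), (nat_lit 52), (nat_lit 30), (nat_lit
 9), (nat_lit 1), (0, 5, 29), [19958, 1456], 26⟩,
  ⟨⟨-31, 0, 0, 10, 19, -30, -4, -20, -19⟩, (.cons (nat_lit 17880) (nat_lit 10674) (nat_lit 28306) (nat_lit 1)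
 (.cons (nat_lit 5040) (nat_lit 4657) (nat_lit 651) (nat_lit 1) .nil)), (nat_lit 52), (nat_lit 30), (nat_lit
 9), (nat_lit 1), (0, 5, 29), [19958, 1456], 26⟩,
  ⟨⟨27, -20, -19, -10, -19, 30, -4, -20, -19⟩, (.cons (nat_lit 4112) (nat_lit 3489) (nat_lit 20016) (nat_lit 1)
 (.cons (nat_lit 1953) (nat_lit 3695) (nat_lit 3883) (nat_lit 1) .nil)), (nat_lit 18), (nat_lit 2), (nat_lit
 30), (nat_lit 1), (29, 26, 29), [28183, 4369], 23⟩,
  ⟨⟨-31, 0, 0, -10, -19, 30, -4, -20, -19⟩, (.cons (nat_lit 18714) (nat_lit 22983) (nat_lit 5336) (nat_lit 1)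
 (.cons (nat_lit 16) (nat_lit 917) (nat_lit 3760) (nat_lit 1) .nil)), (nat_lit 27), (nat_lit 7), (nat_lit 50),
 (nat_lit 1), (0, 26, 29), [28609, 701], 49⟩,
  ⟨⟨27, -20, -19, 10, 19, -30, -4, -20, -19⟩, (.cons (nat_lit 26014) (nat_lit 474) (nat_lit 645) (nat_lit 1)
 (.cons (nat_lit 1625) (nat_lit 2322) (nat_lit 1228) (nat_lit 1) .nil)), (nat_lit 50), (nat_lit 1), (nat_lit
 19), (nat_lit 1), (29, 5, 29), [11597, 5037], 46⟩,
  ⟨⟨27, -20, -19, 10, 19, -30, -4, -20, -19⟩, (.cons (nat_lit 26014) (nat_lit 474) (nat_lit 645) (nat_lit 1)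
 (.cons (nat_lit 1625) (nat_lit 2322) (nat_lit 1228) (nat_lit 1) .nil)), (nat_lit 50), (nat_lit 1), (nat_lit
 19), (nat_lit 1), (29, 5, 29), [11597, 5037], 46⟩,
  ⟨⟨-31, 0, 0, 10, 19, -30, -4, -20, -19⟩, (.cons (nat_lit 17880) (nat_lit 10674) (nat_lit 28306) (nat_lit 1)
 (.cons (nat_lit 5040) (nat_lit 4657) (nat_lit 651) (nat_lit 1) .nil)), (nat_lit 52), (nat_lit 30), (nat_lit
 9), (nat_lit 1), (0, 5, 29), [19958, 1456], 26⟩,
  ⟨⟨-31, 0, 0, 10, 19, -30, -4, -20, -19⟩, (.cons (nat_lit 17880) (nat_lit 10674) (nat_lit 28306) (nat_lit 1)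
 (.cons (nat_lit 5040) (nat_lit 4657) (nat_lit 651) (nat_lit 1) .nil)), (nat_lit 52), (nat_lit 30), (nat_lit
 9), (nat_lit 1), (0, 5, 29), [19958, 1456], 26⟩,
  ⟨⟨27, -20, -19, -10, -19, 30, -4, -20, -19⟩, (.cons (nat_lit 4112) (nat_lit 3489) (nat_lit 20016) (nat_lit 1)
 (.cons (nat_lit 1953) (nat_lit 3695) (nat_lit 3883) (nat_lit 1) .nil)), (nat_lit 18), (nat_lit 2), (nat_lit
 30), (nat_lit 1), (29, 26, 29), [28183, 4369], 23⟩,
  ⟨⟨-31, 0, 0, 10, 19, -30, -4, -20, -19⟩, (.cons (nat_lit 17880) (nat_lit 10674) (nat_lit 28306) (nat_lit 1)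
 (.cons (nat_lit 5040) (nat_lit 4657) (nat_lit 651) (nat_lit 1) .nil)), (nat_lit 52), (nat_lit 30), (nat_lit
 9), (nat_lit 1), (0, 5, 29), [19958, 1456], 26⟩,
  ⟨⟨-31, 0, 0, 10, 19, -30, -4, -20, -19⟩, (.cons (nat_lit 17880) (nat_lit 10674) (nat_lit 28306) (nat_lit 1)
 (.cons (nat_lit 5040) (nat_lit 4657) (nat_lit 651) (nat_lit 1) .nil)), (nat_lit 52), (nat_lit 30), (nat_lit
 9), (nat_lit 1), (0, 5, 29), [19958, 1456], 26⟩,
  ⟨⟨-31, 0, 0, 10, 19, -30, -4, -20, -19⟩, (.cons (nat_lit 17880) (nat_lit 10674) (nat_lit 28306) (nat_lit 1)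
 (.cons (nat_lit 5040) (nat_lit 4657) (nat_lit 651) (nat_lit 1) .nil)), (nat_lit 52), (nat_lit 30), (nat_lit
 9), (nat_lit 1), (0, 5, 29), [19958, 1456], 26⟩,
  ⟨⟨-31, 0, 0, 10, 19, -30, -4, -20, -19⟩, (.cons (nat_lit 17880) (nat_lit 10674) (nat_lit 28306) (nat_lit 1)
 (.cons (nat_lit 5040) (nat_lit 4657) (nat_lit 651) (nat_lit 1) .nil)), (nat_lit 52), (nat_lit 30), (nat_lit
 9), (nat_lit 1), (0, 5, 29), [19958, 1456], 26⟩,
  ⟨⟨-31, 0, 0, 10, 19, -30, -4, -20, -19⟩, (.cons (nat_lit 17880) (nat_lit 10674) (nat_lit 28306) (nat_lit 1)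
 (.cons (nat_lit 5040) (nat_lit 4657) (nat_lit 651) (nat_lit 1) .nil)), (nat_lit 52), (nat_lit 30), (nat_lit
 9), (nat_lit 1), (0, 5, 29), [19958, 1456], 26⟩,
  ⟨⟨-31, 0, 0, 10, 19, -30, -4, -20, -19⟩, (.cons (nat_lit 17880) (nat_lit 10674) (nat_lit 28306) (nat_lit 1)
 (.cons (nat_lit 5040) (nat_lit 4657) (nat_lit 651) (nat_lit 1) .nil)), (nat_lit 52), (nat_lit 30), (nat_lit
 9), (nat_lit 1), (0, 5, 29), [19958, 1456], 26⟩,
  ⟨⟨27, -20, -19, 10, 19, -30, -4, -20, -19⟩, (.cons (nat_lit 26014) (nat_lit 474) (nat_lit 645) (nat_lit 1)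
 (.cons (nat_lit 1625) (nat_lit 2322) (nat_lit 1228) (nat_lit 1) .nil)), (nat_lit 50), (nat_lit 1), (nat_lit
 19), (nat_lit 1), (29, 5, 29), [11597, 5037], 46⟩,
  ⟨⟨-31, 0, 0, 10, 19, -30, -4, -20, -19⟩, (.cons (nat_lit 17880) (nat_lit 10674) (nat_lit 28306) (nat_lit 1)
 (.cons (nat_lit 5040) (nat_lit 4657) (nat_lit 651) (nat_lit 1) .nil)), (nat_lit 52), (nat_lit 30), (nat_lit
 9), (nat_lit 1), (0, 5, 29), [19958, 1456], 26⟩]

/-- Moves. -/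
noncomputable def t0_19 : List Mv := [
  ⟨⟨-9, 8, -31, -10, -29, 0, 20, -4, -31⟩, (.cons (nat_lit 21643) (nat_lit 14735) (nat_lit 10269) (nat_lit 1)
 (.cons (nat_lit 830) (nat_lit 174) (nat_lit 35) (nat_lit 1) .nil)), (nat_lit 8), (nat_lit 47), (nat_lit 4),
 (nat_lit 1), (2, 16, 30), [13374, 1748], 15⟩,
  ⟨⟨-9, 8, -31, -10, -29, 0, 20, -4, -31⟩, (.cons (nat_lit 21643) (nat_lit 14735) (nat_lit 10269) (nat_lit 1)
 (.cons (nat_lit 830) (nat_lit 174) (nat_lit 35) (nat_lit 1) .nil)), (nat_lit 8), (nat_lit 47), (nat_lit 4),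
 (nat_lit 1), (2, 16, 30), [13374, 1748], 15⟩,
  ⟨⟨-9, 8, -31, -10, -29, 0, 20, -4, -31⟩, (.cons (nat_lit 21643) (nat_lit 14735) (nat_lit 10269) (nat_lit 1)
 (.cons (nat_lit 830) (nat_lit 174) (nat_lit 35) (nat_lit 1) .nil)), (nat_lit 8), (nat_lit 47), (nat_lit 4),
 (nat_lit 1), (2, 16, 30), [13374, 1748], 15⟩,
  ⟨⟨-9, 8, -31, -10, -29, 0, 20, -4, -31⟩, (.cons (nat_lit 21643) (nat_lit 14735) (nat_lit 10269) (nat_lit 1)
 (.cons (nat_lit 830) (nat_lit 174) (nat_lit 35) (nat_lit 1) .nil)), (nat_lit 8), (nat_lit 47), (nat_lit 4),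
 (nat_lit 1), (2, 16, 30), [13374, 1748], 15⟩,
  ⟨⟨29, -12, 0, 10, 29, 0, 20, -4, -31⟩, (.cons (nat_lit 20720) (nat_lit 16478) (nat_lit 13284) (nat_lit 1)
 (.cons (nat_lit 586) (nat_lit 2307) (nat_lit 4672) (nat_lit 1) .nil)), (nat_lit 13), (nat_lit 43), (nat_lit
 34), (nat_lit 1), (28, 15, 30), [28346, 1860], 28⟩,
  ⟨⟨-9, 8, -31, -10, -29, 0, 20, -4, -31⟩, (.cons (nat_lit 21643) (nat_lit 14735) (nat_lit 10269) (nat_lit 1)
 (.cons (nat_lit 830) (nat_lit 174) (nat_lit 35) (nat_lit 1) .nil)), (nat_lit 8), (nat_lit 47), (nat_lit 4),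
 (nat_lit 1), (2, 16, 30), [13374, 1748], 15⟩,
  ⟨⟨-9, 8, -31, -10, -29, 0, 20, -4, -31⟩, (.cons (nat_lit 21643) (nat_lit 14735) (nat_lit 10269) (nat_lit 1)
 (.cons (nat_lit 830) (nat_lit 174) (nat_lit 35) (nat_lit 1) .nil)), (nat_lit 8), (nat_lit 47), (nat_lit 4),
 (nat_lit 1), (2, 16, 30), [13374, 1748], 15⟩,
  ⟨⟨29, -12, 0, 10, 29, 0, 20, -4, -31⟩, (.cons (nat_lit 20720) (nat_lit 16478) (nat_lit 13284) (nat_lit 1)
 (.cons (nat_lit 586) (nat_lit 2307) (nat_lit 4672) (nat_lit 1) .nil)), (nat_lit 13), (nat_lit 43), (nat_lit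
 34), (nat_lit 1), (28, 15, 30), [28346, 1860], 28⟩,
  ⟨⟨29, -12, 0, 10, 29, 0, 20, -4, -31⟩, (.cons (nat_lit 20720) (nat_lit 16478) (nat_lit 13284) (nat_lit 1)
 (.cons (nat_lit 586) (nat_lit 2307) (nat_lit 4672) (nat_lit 1) .nil)), (nat_lit 13), (nat_lit 43), (nat_lit
 34), (nat_lit 1), (28, 15, 30), [28346, 1860], 28⟩,
  ⟨⟨-9, 8, -31, -10, -29, 0, 20, -4, -31⟩, (.cons (nat_lit 21643) (nat_lit 14735) (nat_lit 10269) (nat_lit 1)
 (.cons (nat_lit 830) (nat_lit 174) (nat_lit 35) (nat_lit 1) .nil)), (nat_lit 8), (nat_lit 47), (nat_lit 4),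
 (nat_lit 1), (2, 16, 30), [13374, 1748], 15⟩,
  ⟨⟨-9, 8, -31, 10, 29, 0, 20, -4, -31⟩, (.cons (nat_lit 20973) (nat_lit 27323) (nat_lit 28556) (nat_lit 1)
 (.cons (nat_lit 3148) (nat_lit 2146) (nat_lit 1) (nat_lit 4970) .nil)), (nat_lit 24), (nat_lit 44), (nat_lit
 24), (nat_lit 1), (2, 15, 30), [11675, 1634], 20⟩,
  ⟨⟨-9, 8, -31, -10, -29, 0, 20, -4, -31⟩, (.cons (nat_lit 21643) (nat_lit 14735) (nat_lit 10269) (nat_lit 1)
 (.cons (nat_lit 830) (nat_lit 174) (nat_lit 35) (nat_lit 1) .nil)), (nat_lit 8), (nat_lit 47), (nat_lit 4),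
 (nat_lit 1), (2, 16, 30), [13374, 1748], 15⟩,
  ⟨⟨-9, 8, -31, 10, 29, 0, 20, -4, -31⟩, (.cons (nat_lit 20973) (nat_lit 27323) (nat_lit 28556) (nat_lit 1)
 (.cons (nat_lit 3148) (nat_lit 2146) (nat_lit 1) (nat_lit 4970) .nil)), (nat_lit 24), (nat_lit 44), (nat_lit
 24), (nat_lit 1), (2, 15, 30), [11675, 1634], 20⟩,
  ⟨⟨-9, 8, -31, 10, 29, 0, 20, -4, -31⟩, (.cons (nat_lit 20973) (nat_lit 27323) (nat_lit 28556) (nat_lit 1)
 (.cons (nat_lit 3148) (nat_lit 2146) (nat_lit 1) (nat_lit 4970) .nil)), (nat_lit 24), (nat_lit 44), (nat_lit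
 24), (nat_lit 1), (2, 15, 30), [11675, 1634], 20⟩,
  ⟨⟨-9, 8, -31, -10, -29, 0, 20, -4, -31⟩, (.cons (nat_lit 21643) (nat_lit 14735) (nat_lit 10269) (nat_lit 1)
 (.cons (nat_lit 830) (nat_lit 174) (nat_lit 35) (nat_lit 1) .nil)), (nat_lit 8), (nat_lit 47), (nat_lit 4),
 (nat_lit 1), (2, 16, 30), [13374, 1748], 15⟩,
  ⟨⟨-9, 8, -31, 10, 29, 0, 20, -4, -31⟩, (.cons (nat_lit 20973) (nat_lit 27323) (nat_lit 28556) (nat_lit 1)
 (.cons (nat_lit 3148) (nat_lit 2146) (nat_lit 1) (nat_lit 4970) .nil)), (nat_lit 24), (nat_lit 44), (nat_lit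
 24), (nat_lit 1), (2, 15, 30), [11675, 1634], 20⟩,
  ⟨⟨29, -12, 0, 10, 29, 0, 20, -4, -31⟩, (.cons (nat_lit 20720) (nat_lit 16478) (nat_lit 13284) (nat_lit 1)
 (.cons (nat_lit 586) (nat_lit 2307) (nat_lit 4672) (nat_lit 1) .nil)), (nat_lit 13), (nat_lit 43), (nat_lit
 34), (nat_lit 1), (28, 15, 30), [28346, 1860], 28⟩,
  ⟨⟨-9, 8, -31, 10, 29, 0, 20, -4, -31⟩, (.cons (nat_lit 20973) (nat_lit 27323) (nat_lit 28556) (nat_lit 1)
 (.cons (nat_lit 3148) (nat_lit 2146) (nat_lit 1) (nat_lit 4970) .nil)), (nat_lit 24), (nat_lit 44), (nat_lit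
 24), (nat_lit 1), (2, 15, 30), [11675, 1634], 20⟩,
  ⟨⟨29, -12, 0, -10, -29, 0, 20, -4, -31⟩, (.cons (nat_lit 7144) (nat_lit 25088) (nat_lit 19193) (nat_lit 1)
 (.cons (nat_lit 5040) (nat_lit 781) (nat_lit 1528) (nat_lit 1) .nil)), (nat_lit 52), (nat_lit 11), (nat_lit
 15), (nat_lit 1), (28, 16, 30), [5093, 1460], 48⟩,
  ⟨⟨29, -12, 0, -10, -29, 0, 20, -4, -31⟩, (.cons (nat_lit 7144) (nat_lit 25088) (nat_lit 19193) (nat_lit 1)
 (.cons (nat_lit 5040) (nat_lit 781) (nat_lit 1528) (nat_lit 1) .nil)), (nat_lit 52), (nat_lit 11), (nat_lit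
 15), (nat_lit 1), (28, 16, 30), [5093, 1460], 48⟩,
  ⟨⟨-9, 8, -31, -10, -29, 0, 20, -4, -31⟩, (.cons (nat_lit 21643) (nat_lit 14735) (nat_lit 10269) (nat_lit 1)
 (.cons (nat_lit 830) (nat_lit 174) (nat_lit 35) (nat_lit 1) .nil)), (nat_lit 8), (nat_lit 47), (nat_lit 4),
 (nat_lit 1), (2, 16, 30), [13374, 1748], 15⟩,
  ⟨⟨-9, 8, -31, -10, -29, 0, 20, -4, -31⟩, (.cons (nat_lit 21643) (nat_lit 14735) (nat_lit 10269) (nat_lit 1)
 (.cons (nat_lit 830) (nat_lit 174) (nat_lit 35) (nat_lit 1) .nil)), (nat_lit 8), (nat_lit 47), (nat_lit 4),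
 (nat_lit 1), (2, 16, 30), [13374, 1748], 15⟩,
  ⟨⟨29, -12, 0, -10, -29, 0, 20, -4, -31⟩, (.cons (nat_lit 7144) (nat_lit 25088) (nat_lit 19193) (nat_lit 1)
 (.cons (nat_lit 5040) (nat_lit 781) (nat_lit 1528) (nat_lit 1) .nil)), (nat_lit 52), (nat_lit 11), (nat_lit
 15), (nat_lit 1), (28, 16, 30), [5093, 1460], 48⟩,
  ⟨⟨-9, 8, -31, -10, -29, 0, 20, -4, -31⟩, (.cons (nat_lit 21643) (nat_lit 14735) (nat_lit 10269) (nat_lit 1)
 (.cons (nat_lit 830) (nat_lit 174) (nat_lit 35) (nat_lit 1) .nil)), (nat_lit 8), (nat_lit 47), (nat_lit 4),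
 (nat_lit 1), (2, 16, 30), [13374, 1748], 15⟩,
  ⟨⟨29, -12, 0, -10, -29, 0, 20, -4, -31⟩, (.cons (nat_lit 7144) (nat_lit 25088) (nat_lit 19193) (nat_lit 1)
 (.cons (nat_lit 5040) (nat_lit 781) (nat_lit 1528) (nat_lit 1) .nil)), (nat_lit 52), (nat_lit 11), (nat_lit
 15), (nat_lit 1), (28, 16, 30), [5093, 1460], 48⟩,
  ⟨⟨-9, 8, -31, -10, -29, 0, 20, -4, -31⟩, (.cons (nat_lit 21643) (nat_lit 14735) (nat_lit 10269) (nat_lit 1)
 (.cons (nat_lit 830) (nat_lit 174) (nat_lit 35) (nat_lit 1) .nil)), (nat_lit 8), (nat_lit 47), (nat_lit 4),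
 (nat_lit 1), (2, 16, 30), [13374, 1748], 15⟩,
  ⟨⟨29, -12, 0, 10, 29, 0, 20, -4, -31⟩, (.cons (nat_lit 20720) (nat_lit 16478) (nat_lit 13284) (nat_lit 1)
 (.cons (nat_lit 586) (nat_lit 2307) (nat_lit 4672) (nat_lit 1) .nil)), (nat_lit 13), (nat_lit 43), (nat_lit
 34), (nat_lit 1), (28, 15, 30), [28346, 1860], 28⟩,
  ⟨⟨-9, 8, -31, -10, -29, 0, 20, -4, -31⟩, (.cons (nat_lit 21643) (nat_lit 14735) (nat_lit 10269) (nat_lit 1)
 (.cons (nat_lit 830) (nat_lit 174) (nat_lit 35) (nat_lit 1) .nil)), (nat_lit 8), (nat_lit 47), (nat_lit 4),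
 (nat_lit 1), (2, 16, 30), [13374, 1748], 15⟩,
  ⟨⟨-9, 8, -31, -10, -29, 0, 20, -4, -31⟩, (.cons (nat_lit 21643) (nat_lit 14735) (nat_lit 10269) (nat_lit 1)
 (.cons (nat_lit 830) (nat_lit 174) (nat_lit 35) (nat_lit 1) .nil)), (nat_lit 8), (nat_lit 47), (nat_lit 4),
 (nat_lit 1), (2, 16, 30), [13374, 1748], 15⟩,
  ⟨⟨-9, 8, -31, -10, -29, 0, 20, -4, -31⟩, (.cons (nat_lit 21643) (nat_lit 14735) (nat_lit 10269) (nat_lit 1)
 (.cons (nat_lit 830) (nat_lit 174) (nat_lit 35) (nat_lit 1) .nil)), (nat_lit 8), (nat_lit 47), (nat_lit 4),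
 (nat_lit 1), (2, 16, 30), [13374, 1748], 15⟩,
  ⟨⟨-9, 8, -31, -10, -29, 0, 20, -4, -31⟩, (.cons (nat_lit 21643) (nat_lit 14735) (nat_lit 10269) (nat_lit 1)
 (.cons (nat_lit 830) (nat_lit 174) (nat_lit 35) (nat_lit 1) .nil)), (nat_lit 8), (nat_lit 47), (nat_lit 4),
 (nat_lit 1), (2, 16, 30), [13374, 1748], 15⟩]

/-- Moves. -/
noncomputable def t1_1 : List Mv := [
  mz,
  ⟨⟨-75, 20, 43, -10, -21, -70, -12, 60, -13⟩, (.cons (nat_lit 27719) (nat_lit 10310) (nat_lit 23255) (nat_lit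
 1) (.cons (nat_lit 2183) (nat_lit 3088) (nat_lit 4696) (nat_lit 1) .nil)), (nat_lit 13), (nat_lit 5), (nat_lit
 22), (nat_lit 1), (51, 21, 11), [15397, 1149], 50⟩,
  mz,
  ⟨⟨-75, -16, 23, 4, -55, 48, -10, -40, -49⟩, (.cons (nat_lit 19776) (nat_lit 794) (nat_lit 20343) (nat_lit 1)
 (.cons (nat_lit 4556) (nat_lit 4347) (nat_lit 4666) (nat_lit 1) .nil)), (nat_lit 12), (nat_lit 16), (nat_lit
 28), (nat_lit 1), (1, 70, 38), [7818, 3644], 4⟩,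
  ⟨⟨27, 68, 16, 64, -15, -62, -6, 48, -43⟩, (.cons (nat_lit 4733) (nat_lit 18083) (nat_lit 15494) (nat_lit 1)
 (.cons (nat_lit 4658) (nat_lit 1186) (nat_lit 3642) (nat_lit 1) .nil)), (nat_lit 11), (nat_lit 31), (nat_lit
 1), (nat_lit 1), (60, 16, 34), [12540, 342], 11⟩,
  ⟨⟨-33, 20, -59, -64, -15, 62, -6, -48, -43⟩, (.cons (nat_lit 17084) (nat_lit 28781) (nat_lit 18801) (nat_lit
 1) (.cons (nat_lit 828) (nat_lit 2296) (nat_lit 4968) (nat_lit 1) .nil)), (nat_lit 36), (nat_lit 16), (nat_lit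
 52), (nat_lit 1), (23, 36, 30), [10253, 2958], 18⟩,
  mz,
  ⟨⟨-29, 72, 20, 56, 25, -68, -38, 16, -35⟩, (.cons (nat_lit 6102) (nat_lit 2069) (nat_lit 813) (nat_lit 1)
 (.cons (nat_lit 4898) (nat_lit 188) (nat_lit 3186) (nat_lit 1) .nil)), (nat_lit 40), (nat_lit 12), (nat_lit
 1), (nat_lit 1), (33, 44, 31), [19400, 768], 27⟩,
  ⟨⟨3, 40, -76, 64, 25, -12, 26, -32, -67⟩, (.cons (nat_lit 10980) (nat_lit 12913) (nat_lit 10560) (nat_lit 1)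
 (.cons (nat_lit 4214) (nat_lit 2664) (nat_lit 2164) (nat_lit 1) .nil)), (nat_lit 4), (nat_lit 5), (nat_lit
 49), (nat_lit 1), (14, 62, 3), [12060, 1181], 8⟩,
  mz,
  mz,
  ⟨⟨33, -20, -92, 64, 15, -2, 6, 48, -49⟩, (.cons (nat_lit 24232) (nat_lit 1823) (nat_lit 22479) (nat_lit 1)
 (.cons (nat_lit 3059) (nat_lit 1467) (nat_lit 959) (nat_lit 1) .nil)), (nat_lit 28), (nat_lit 17), (nat_lit
 15), (nat_lit 1), (67, 3, 38), [23589, 2396], 5⟩,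
  ⟨⟨-51, -52, -5, 44, -15, -82, -42, 24, -25⟩, (.cons (nat_lit 25224) (nat_lit 4935) (nat_lit 6505) (nat_lit 1)
 (.cons (nat_lit 2231) (nat_lit 111) (nat_lit 2420) (nat_lit 1) .nil)), (nat_lit 28), (nat_lit 29), (nat_lit
 28), (nat_lit 1), (61, 49, 21), [1153, 4257], 14⟩,
  mz,
  mz,
  ⟨⟨-9, 76, -11, -44, -15, -38, 42, 24, -67⟩, (.cons (nat_lit 15061) (nat_lit 23238) (nat_lit 11178) (nat_lit
 1) (.cons (nat_lit 2322) (nat_lit 2751) (nat_lit 2508) (nat_lit 1) .nil)), (nat_lit 29), (nat_lit 25),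
 (nat_lit 12), (nat_lit 1), (25, 67, 49), [27365, 1098], 2⟩,
  ⟨⟨17, 24, -89, -36, -55, -12, 54, -24, -53⟩, (.cons (nat_lit 29) (nat_lit 11676) (nat_lit 7704) (nat_lit 1)
 (.cons (nat_lit 2888) (nat_lit 4686) (nat_lit 1661) (nat_lit 1) .nil)), (nat_lit 32), (nat_lit 25), (nat_lit
 24), (nat_lit 1), (7, 52, 64), [18336, 2295], 48⟩,
  mz,
  ⟨⟨9, 56, -64, 56, 25, 12, 38, -16, -73⟩, (.cons (nat_lit 9461) (nat_lit 15448) (nat_lit 15720) (nat_lit 1)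
 (.cons (nat_lit 4338) (nat_lit 3929) (nat_lit 458) (nat_lit 1) .nil)), (nat_lit 4), (nat_lit 28), (nat_lit
 22), (nat_lit 1), (56, 25, 55), [3938, 4493], 8⟩,
  ⟨⟨-61, -48, 25, -44, 55, 32, -22, -8, -55⟩, (.cons (nat_lit 432) (nat_lit 29439) (nat_lit 319) (nat_lit 1)
 (.cons (nat_lit 885) (nat_lit 3698) (nat_lit 1119) (nat_lit 1) .nil)), (nat_lit 16), (nat_lit 25), (nat_lit
 4), (nat_lit 1), (9, 3, 37), [19132, 1484], 25⟩,
  mz,
  mz,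
  ⟨⟨17, -24, 72, -36, 55, 48, 54, 24, -1⟩, (.cons (nat_lit 29790) (nat_lit 24561) (nat_lit 21750) (nat_lit 1)
 (.cons (nat_lit 4330) (nat_lit 4166) (nat_lit 1804) (nat_lit 1) .nil)), (nat_lit 52), (nat_lit 14), (nat_lit
 9), (nat_lit 1), (28, 66, 43), [2044, 44], 7⟩,
  ⟨⟨-61, 48, 25, 44, 55, -32, -22, 8, -55⟩, (.cons (nat_lit 23227) (nat_lit 6955) (nat_lit 8919) (nat_lit 1)
 (.cons (nat_lit 3039) (nat_lit 4132) (nat_lit 952) (nat_lit 1) .nil)), (nat_lit 46), (nat_lit 42), (nat_lit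
 47), (nat_lit 1), (13, 43, 14), [5675, 1355], 11⟩,
  ⟨⟨-39, 40, -41, -44, -55, 12, 22, -8, -77⟩, (.cons (nat_lit 19509) (nat_lit 4802) (nat_lit 7898) (nat_lit 1)
 (.cons (nat_lit 1966) (nat_lit 1628) (nat_lit 4285) (nat_lit 1) .nil)), (nat_lit 17), (nat_lit 39), (nat_lit
 21), (nat_lit 1), (2, 15, 28), [26046, 2311], 20⟩,
  mz,
  ⟨⟨9, 16, -89, -10, 69, 20, 60, 12, -49⟩, (.cons (nat_lit 6488) (nat_lit 28334) (nat_lit 5813) (nat_lit 1)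
 (.cons (nat_lit 2837) (nat_lit 4579) (nat_lit 1500) (nat_lit 1) .nil)), (nat_lit 42), (nat_lit 38), (nat_lit
 9), (nat_lit 1), (44, 30, 33), [19859, 179], 6⟩,
  mz,
  mz,
  ⟨⟨-13, -72, 36, -70, 11, 30, -4, -44, -49⟩, (.cons (nat_lit 23578) (nat_lit 21063) (nat_lit 20795) (nat_lit
 1) (.cons (nat_lit 2555) (nat_lit 103) (nat_lit 3441) (nat_lit 1) .nil)), (nat_lit 45), (nat_lit 13), (nat_lit
 7), (nat_lit 1), (29, 36, 69), [22742, 1002], 20⟩,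
  mz,
  ⟨⟨-33, -68, -4, -50, 11, 80, -44, 4, -29⟩, (.cons (nat_lit 2033) (nat_lit 17357) (nat_lit 15962) (nat_lit 1)
 (.cons (nat_lit 2984) (nat_lit 3737) (nat_lit 3999) (nat_lit 1) .nil)), (nat_lit 45), (nat_lit 4), (nat_lit
 36), (nat_lit 1), (61, 58, 34), [1755, 245], 20⟩,
  mz,
  ⟨⟨-29, -72, 20, 56, -25, -68, -38, -16, -35⟩, (.cons (nat_lit 1686) (nat_lit 27544) (nat_lit 2125) (nat_lit
 1) (.cons (nat_lit 1527) (nat_lit 1751) (nat_lit 4229) (nat_lit 1) .nil)), (nat_lit 8), (nat_lit 21), (nat_lit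
 42), (nat_lit 1), (27, 36, 6), [4913, 3264], 44⟩,
  ⟨⟨75, 20, -32, -10, 21, 80, 12, 60, -25⟩, (.cons (nat_lit 29790) (nat_lit 10062) (nat_lit 24559) (nat_lit 1)
 (.cons (nat_lit 4579) (nat_lit 1145) (nat_lit 2509) (nat_lit 1) .nil)), (nat_lit 52), (nat_lit 17), (nat_lit
 45), (nat_lit 1), (30, 67, 19), [6413, 4938], 8⟩,
  mz,
  ⟨⟨3, -40, -76, 64, -25, -12, 26, 32, -67⟩, (.cons (nat_lit 25396) (nat_lit 12853) (nat_lit 29164) (nat_lit 1)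
 (.cons (nat_lit 554) (nat_lit 3966) (nat_lit 2625) (nat_lit 1) .nil)), (nat_lit 24), (nat_lit 11), (nat_lit
 25), (nat_lit 1), (58, 54, 53), [3080, 531], 13⟩,
  mz,
  ⟨⟨17, -24, -89, -36, 55, -12, 54, 24, -53⟩, (.cons (nat_lit 17098) (nat_lit 21403) (nat_lit 3033) (nat_lit 1)
 (.cons (nat_lit 4185) (nat_lit 5006) (nat_lit 4447) (nat_lit 1) .nil)), (nat_lit 12), (nat_lit 47), (nat_lit
 16), (nat_lit 1), (5, 27, 66), [1699, 3559], 36⟩,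
  ⟨⟨-23, -72, 32, 64, -25, -52, -26, -32, -41⟩, (.cons (nat_lit 26700) (nat_lit 14679) (nat_lit 991) (nat_lit
 1) (.cons (nat_lit 4464) (nat_lit 2391) (nat_lit 1952) (nat_lit 1) .nil)), (nat_lit 42), (nat_lit 36),
 (nat_lit 13), (nat_lit 1), (21, 28, 33), [15864, 4884], 36⟩,
  mz,
  mz,
  ⟨⟨-65, 24, -7, -4, 55, 52, 10, 40, -59⟩, (.cons (nat_lit 19494) (nat_lit 18443) (nat_lit 26094) (nat_lit 1)
 (.cons (nat_lit 4971) (nat_lit 535) (nat_lit 2015) (nat_lit 1) .nil)), (nat_lit 40), (nat_lit 27), (nat_lit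
 32), (nat_lit 1), (43, 66, 48), [23929, 679], 8⟩,
  ⟨⟨11, -72, -36, 50, -11, 30, 44, -4, -73⟩, (.cons (nat_lit 3238) (nat_lit 29458) (nat_lit 6254) (nat_lit 1)
 (.cons (nat_lit 1061) (nat_lit 4269) (nat_lit 1309) (nat_lit 1) .nil)), (nat_lit 24), (nat_lit 16), (nat_lit
 2), (nat_lit 1), (69, 49, 63), [27632, 1632], 38⟩,
  ⟨⟨-39, -40, -41, 44, -55, -12, 22, 8, -77⟩, (.cons (nat_lit 23663) (nat_lit 11792) (nat_lit 28979) (nat_lit
 1) (.cons (nat_lit 3645) (nat_lit 3408) (nat_lit 2591) (nat_lit 1) .nil)), (nat_lit 17), (nat_lit 12),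
 (nat_lit 2), (nat_lit 1), (46, 10, 5), [16250, 4733], 20⟩,
  mz,
  ⟨⟨51, 52, -56, -44, 15, -38, 42, -24, -67⟩, (.cons (nat_lit 17195) (nat_lit 12960) (nat_lit 17069) (nat_lit
 1) (.cons (nat_lit 41) (nat_lit 2210) (nat_lit 3118) (nat_lit 1) .nil)), (nat_lit 28), (nat_lit 1), (nat_lit
 43), (nat_lit 1), (52, 15, 47), [9143, 4733], 5⟩,
  ⟨⟨9, -16, 80, 10, 69, 10, 60, -12, -11⟩, (.cons (nat_lit 28714) (nat_lit 12442) (nat_lit 1) (nat_lit 25141)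
 (.cons (nat_lit 1300) (nat_lit 2298) (nat_lit 2964) (nat_lit 1) .nil)), (nat_lit 17), (nat_lit 9), (nat_lit
 46), (nat_lit 1), (33, 13, 7), [3478, 4622], 44⟩,
  ⟨⟨51, 4, 40, 10, 69, -20, 60, -12, -49⟩, (.cons (nat_lit 29790) (nat_lit 10813) (nat_lit 15625) (nat_lit 1)
 (.cons (nat_lit 3825) (nat_lit 712) (nat_lit 4282) (nat_lit 1) .nil)), (nat_lit 52), (nat_lit 44), (nat_lit
 50), (nat_lit 1), (13, 29, 32), [27886, 195], 27⟩,
  ⟨⟨9, -56, -64, -56, 25, -12, 38, 16, -73⟩, (.cons (nat_lit 20305) (nat_lit 8333) (nat_lit 8728) (nat_lit 1)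
 (.cons (nat_lit 1617) (nat_lit 4009) (nat_lit 3515) (nat_lit 1) .nil)), (nat_lit 7), (nat_lit 38), (nat_lit
 9), (nat_lit 1), (4, 54, 9), [4359, 4618], 12⟩,
  ⟨⟨-75, 16, 23, 4, 55, 48, -10, 40, -49⟩, (.cons (nat_lit 3602) (nat_lit 2244) (nat_lit 17) (nat_lit 1) (.cons
 (nat_lit 1533) (nat_lit 4938) (nat_lit 1) (nat_lit 3195) .nil)), (nat_lit 4), (nat_lit 51), (nat_lit 31),
 (nat_lit 1), (26, 45, 65), [19887, 3227], 22⟩,
  ⟨⟨9, -76, -20, 44, 15, -82, -42, -24, -25⟩, (.cons (nat_lit 7276) (nat_lit 25852) (nat_lit 26219) (nat_lit 1)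
 (.cons (nat_lit 4198) (nat_lit 2702) (nat_lit 3885) (nat_lit 1) .nil)), (nat_lit 35), (nat_lit 51), (nat_lit
 12), (nat_lit 1), (1, 68, 19), [15707, 2751], 51⟩,
  mz,
  ⟨⟨13, -72, 23, 70, 11, -40, 4, -44, -53⟩, (.cons (nat_lit 29390) (nat_lit 17674) (nat_lit 22518) (nat_lit 1)
 (.cons (nat_lit 4841) (nat_lit 1750) (nat_lit 2908) (nat_lit 1) .nil)), (nat_lit 39), (nat_lit 26), (nat_lit
 21), (nat_lit 1), (14, 59, 48), [7761, 2831], 10⟩,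
  ⟨⟨51, -4, -91, -10, 69, -10, 60, 12, -11⟩, (.cons (nat_lit 26531) (nat_lit 21757) (nat_lit 14157) (nat_lit 1)
 (.cons (nat_lit 4279) (nat_lit 1136) (nat_lit 2909) (nat_lit 1) .nil)), (nat_lit 30), (nat_lit 37), (nat_lit
 25), (nat_lit 1), (21, 46, 8), [869, 1510], 2⟩,
  ⟨⟨75, -20, -32, 10, 21, -80, 12, -60, -25⟩, (.cons (nat_lit 29790) (nat_lit 20585) (nat_lit 3205) (nat_lit 1)
 (.cons (nat_lit 2260) (nat_lit 1735) (nat_lit 409) (nat_lit 1) .nil)), (nat_lit 52), (nat_lit 3), (nat_lit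
 21), (nat_lit 1), (52, 59, 14), [2070, 1615], 39⟩,
  mz,
  ⟨⟨-11, -72, -25, 50, 11, -80, -44, -4, -29⟩, (.cons (nat_lit 16664) (nat_lit 3912) (nat_lit 23348) (nat_lit
 1) (.cons (nat_lit 4149) (nat_lit 3936) (nat_lit 2726) (nat_lit 1) .nil)), (nat_lit 33), (nat_lit 4), (nat_lit
 14), (nat_lit 1), (38, 8, 10), [27521, 3180], 43⟩,
  ⟨⟨-75, -20, 43, -10, 21, -70, -12, -60, -13⟩, (.cons (nat_lit 27980) (nat_lit 24448) (nat_lit 4706) (nat_lit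
 1) (.cons (nat_lit 2500) (nat_lit 553) (nat_lit 252) (nat_lit 1) .nil)), (nat_lit 22), (nat_lit 0), (nat_lit
 7), (nat_lit 1), (2, 5, 6), [126, 4292], 25⟩,
  mz,
  mz,
  mz,
  ⟨⟨11, 72, -36, -50, -11, -30, 44, 4, -73⟩, (.cons (nat_lit 3947) (nat_lit 9508) (nat_lit 29121) (nat_lit 1)
 (.cons (nat_lit 3262) (nat_lit 109) (nat_lit 4632) (nat_lit 1) .nil)), (nat_lit 26), (nat_lit 44), (nat_lit
 33), (nat_lit 1), (4, 27, 16), [9075, 2567], 16⟩,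
  mz,
  ⟨⟨9, -28, -85, 70, 11, -30, -4, 44, -49⟩, (.cons (nat_lit 5100) (nat_lit 9297) (nat_lit 16643) (nat_lit 1)
 (.cons (nat_lit 1898) (nat_lit 1290) (nat_lit 4564) (nat_lit 1) .nil)), (nat_lit 34), (nat_lit 16), (nat_lit
 43), (nat_lit 1), (14, 30, 49), [4800, 2815], 6⟩,
  ⟨⟨75, -16, -52, 4, 55, -52, 10, -40, -59⟩, (.cons (nat_lit 29790) (nat_lit 4943) (nat_lit 3072) (nat_lit 1)
 (.cons (nat_lit 321) (nat_lit 2803) (nat_lit 1402) (nat_lit 1) .nil)), (nat_lit 52), (nat_lit 16), (nat_lit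
 20), (nat_lit 1), (51, 51, 21), [21188, 2546], 1⟩,
  mz,
  ⟨⟨33, 20, -92, 64, -15, -2, 6, -48, -49⟩, (.cons (nat_lit 3568) (nat_lit 29056) (nat_lit 24554) (nat_lit 1)
 (.cons (nat_lit 267) (nat_lit 40) (nat_lit 5010) (nat_lit 1) .nil)), (nat_lit 29), (nat_lit 44), (nat_lit 30),
 (nat_lit 1), (45, 55, 34), [24789, 1507], 29⟩,
  ⟨⟨13, 72, 23, 70, -11, -40, 4, 44, -53⟩, (.cons (nat_lit 26768) (nat_lit 28362) (nat_lit 4423) (nat_lit 1)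
 (.cons (nat_lit 5039) (nat_lit 856) (nat_lit 4397) (nat_lit 1) .nil)), (nat_lit 10), (nat_lit 14), (nat_lit
 13), (nat_lit 1), (20, 64, 28), [5228, 1793], 31⟩,
  ⟨⟨-3, -40, -73, 64, 25, -52, -26, 32, -41⟩, (.cons (nat_lit 17256) (nat_lit 22774) (nat_lit 5503) (nat_lit 1)
 (.cons (nat_lit 3051) (nat_lit 2586) (nat_lit 1293) (nat_lit 1) .nil)), (nat_lit 19), (nat_lit 29), (nat_lit
 18), (nat_lit 1), (56, 36, 12), [28864, 3505], 44⟩,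
  ⟨⟨37, -48, -73, -36, -55, 48, 54, -24, -1⟩, (.cons (nat_lit 25270) (nat_lit 4974) (nat_lit 11436) (nat_lit 1)
 (.cons (nat_lit 2076) (nat_lit 491) (nat_lit 2455) (nat_lit 1) .nil)), (nat_lit 10), (nat_lit 51), (nat_lit
 23), (nat_lit 1), (11, 20, 41), [15728, 3571], 52⟩]

/-- Moves. -/
noncomputable def t1_4 : List Mv := [
  mz,
  ⟨⟨63, 40, -56, -10, -21, -70, -12, 60, -13⟩, (.cons (nat_lit 17) (nat_lit 10287) (nat_lit 27739) (nat_lit 1)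
 (.cons (nat_lit 129) (nat_lit 1046) (nat_lit 1) (nat_lit 0) .nil)), (nat_lit 0), (nat_lit 15), (nat_lit 32),
 (nat_lit 1), (31, 21, 11), [9183, 3995], 52⟩,
  mz,
  ⟨⟨65, -24, -72, -4, 55, -48, -10, -40, -49⟩, (.cons (nat_lit 29790) (nat_lit 5664) (nat_lit 21385) (nat_lit
 1) (.cons (nat_lit 1440) (nat_lit 3833) (nat_lit 2184) (nat_lit 1) .nil)), (nat_lit 52), (nat_lit 17),
 (nat_lit 14), (nat_lit 1), (37, 1, 38), [21959, 1772], 9⟩,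
  ⟨⟨27, 68, 16, 64, -15, -62, -6, 48, -43⟩, (.cons (nat_lit 4733) (nat_lit 18083) (nat_lit 15494) (nat_lit 1)
 (.cons (nat_lit 4658) (nat_lit 1186) (nat_lit 3642) (nat_lit 1) .nil)), (nat_lit 11), (nat_lit 31), (nat_lit
 1), (nat_lit 1), (60, 16, 34), [12540, 342], 11⟩,
  ⟨⟨-33, 20, -59, -64, -15, 62, -6, -48, -43⟩, (.cons (nat_lit 17084) (nat_lit 28781) (nat_lit 18801) (nat_lit
 1) (.cons (nat_lit 828) (nat_lit 2296) (nat_lit 4968) (nat_lit 1) .nil)), (nat_lit 36), (nat_lit 16), (nat_lit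
 52), (nat_lit 1), (23, 36, 30), [10253, 2958], 18⟩,
  mz,
  ⟨⟨-29, 72, 20, -56, -25, 68, -38, 16, -35⟩, (.cons (nat_lit 6209) (nat_lit 5812) (nat_lit 20213) (nat_lit 1)
 (.cons (nat_lit 2087) (nat_lit 2926) (nat_lit 1263) (nat_lit 1) .nil)), (nat_lit 42), (nat_lit 15), (nat_lit
 10), (nat_lit 1), (33, 27, 31), [26931, 3439], 36⟩,
  ⟨⟨23, -72, 9, 64, 25, -12, 26, -32, -67⟩, (.cons (nat_lit 6617) (nat_lit 19914) (nat_lit 17699) (nat_lit 1)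
 (.cons (nat_lit 3301) (nat_lit 620) (nat_lit 2506) (nat_lit 1) .nil)), (nat_lit 14), (nat_lit 15), (nat_lit
 5), (nat_lit 1), (60, 62, 3), [17173, 2832], 38⟩,
  mz,
  mz,
  ⟨⟨-27, 68, 43, 64, 15, -2, 6, 48, -49⟩, (.cons (nat_lit 909) (nat_lit 9308) (nat_lit 5792) (nat_lit 1) (.cons
 (nat_lit 1095) (nat_lit 3789) (nat_lit 3694) (nat_lit 1) .nil)), (nat_lit 25), (nat_lit 48), (nat_lit 20),
 (nat_lit 1), (42, 3, 38), [13718, 3386], 24⟩,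
  ⟨⟨9, 76, -20, 44, -15, -82, -42, 24, -25⟩, (.cons (nat_lit 25658) (nat_lit 927) (nat_lit 13536) (nat_lit 1)
 (.cons (nat_lit 2203) (nat_lit 4103) (nat_lit 2733) (nat_lit 1) .nil)), (nat_lit 11), (nat_lit 46), (nat_lit
 41), (nat_lit 1), (31, 49, 21), [5410, 4929], 11⟩,
  mz,
  mz,
  ⟨⟨-9, 76, -11, 44, 15, 38, 42, 24, -67⟩, (.cons (nat_lit 9111) (nat_lit 9789) (nat_lit 18740) (nat_lit 1)
 (.cons (nat_lit 4942) (nat_lit 2411) (nat_lit 3399) (nat_lit 1) .nil)), (nat_lit 17), (nat_lit 32), (nat_lit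
 31), (nat_lit 1), (25, 4, 49), [20201, 1578], 46⟩,
  ⟨⟨17, 24, -89, -36, -55, -12, 54, -24, -53⟩, (.cons (nat_lit 29) (nat_lit 11676) (nat_lit 7704) (nat_lit 1)
 (.cons (nat_lit 2888) (nat_lit 4686) (nat_lit 1661) (nat_lit 1) .nil)), (nat_lit 32), (nat_lit 25), (nat_lit
 24), (nat_lit 1), (7, 52, 64), [18336, 2295], 48⟩,
  mz,
  ⟨⟨9, 56, -64, -56, -25, -12, 38, -16, -73⟩, (.cons (nat_lit 26543) (nat_lit 11792) (nat_lit 1340) (nat_lit 1)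
 (.cons (nat_lit 3600) (nat_lit 115) (nat_lit 2053) (nat_lit 1) .nil)), (nat_lit 24), (nat_lit 37), (nat_lit
 6), (nat_lit 1), (56, 46, 55), [13682, 609], 13⟩,
  ⟨⟨-61, -48, 25, 44, -55, -32, -22, -8, -55⟩, (.cons (nat_lit 7003) (nat_lit 5633) (nat_lit 12193) (nat_lit 1)
 (.cons (nat_lit 2149) (nat_lit 4607) (nat_lit 2684) (nat_lit 1) .nil)), (nat_lit 25), (nat_lit 32), (nat_lit
 5), (nat_lit 1), (9, 68, 37), [25443, 2507], 45⟩,
  mz,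
  mz,
  ⟨⟨37, 48, -73, -36, 55, 48, 54, 24, -1⟩, (.cons (nat_lit 18491) (nat_lit 24252) (nat_lit 5898) (nat_lit 1)
 (.cons (nat_lit 2163) (nat_lit 1758) (nat_lit 3450) (nat_lit 1) .nil)), (nat_lit 5), (nat_lit 34), (nat_lit
 39), (nat_lit 1), (15, 66, 43), [5150, 1386], 19⟩,
  ⟨⟨39, -40, -80, 44, 55, -32, -22, 8, -55⟩, (.cons (nat_lit 12160) (nat_lit 10047) (nat_lit 24198) (nat_lit 1)
 (.cons (nat_lit 2564) (nat_lit 1734) (nat_lit 3102) (nat_lit 1) .nil)), (nat_lit 10), (nat_lit 21), (nat_lit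
 22), (nat_lit 1), (1, 43, 14), [6831, 2598], 27⟩,
  ⟨⟨-39, 40, -41, 44, 55, -12, 22, -8, -77⟩, (.cons (nat_lit 12776) (nat_lit 9473) (nat_lit 1431) (nat_lit 1)
 (.cons (nat_lit 2593) (nat_lit 4782) (nat_lit 1471) (nat_lit 1) .nil)), (nat_lit 15), (nat_lit 6), (nat_lit
 37), (nat_lit 1), (2, 56, 28), [4930, 466], 37⟩,
  mz,
  ⟨⟨51, -4, 40, 10, -69, -20, 60, 12, -49⟩, (.cons (nat_lit 19009) (nat_lit 4259) (nat_lit 1) (nat_lit 14415)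
 (.cons (nat_lit 4832) (nat_lit 4434) (nat_lit 3130) (nat_lit 1) .nil)), (nat_lit 17), (nat_lit 49), (nat_lit
 29), (nat_lit 1), (60, 41, 33), [29156, 4285], 9⟩,
  mz,
  mz,
  ⟨⟨-13, -72, 36, 70, -11, -30, -4, -44, -49⟩, (.cons (nat_lit 3872) (nat_lit 6700) (nat_lit 2423) (nat_lit 1)
 (.cons (nat_lit 1837) (nat_lit 1195) (nat_lit 1) (nat_lit 3195) .nil)), (nat_lit 51), (nat_lit 35), (nat_lit
 13), (nat_lit 1), (29, 35, 69), [517, 4745], 11⟩,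
  mz,
  ⟨⟨-11, 72, -25, 50, -11, -80, -44, 4, -29⟩, (.cons (nat_lit 25776) (nat_lit 5978) (nat_lit 2226) (nat_lit 1)
 (.cons (nat_lit 1101) (nat_lit 3638) (nat_lit 3681) (nat_lit 1) .nil)), (nat_lit 10), (nat_lit 15), (nat_lit
 51), (nat_lit 1), (44, 13, 34), [5631, 3560], 31⟩,
  mz,
  ⟨⟨-9, 56, -55, -56, 25, 68, -38, -16, -35⟩, (.cons (nat_lit 14987) (nat_lit 1549) (nat_lit 17818) (nat_lit 1)
 (.cons (nat_lit 1281) (nat_lit 1539) (nat_lit 318) (nat_lit 1) .nil)), (nat_lit 14), (nat_lit 18), (nat_lit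
 13), (nat_lit 1), (50, 35, 6), [21823, 4185], 38⟩,
  ⟨⟨75, 20, -32, 10, -21, -80, 12, 60, -25⟩, (.cons (nat_lit 23236) (nat_lit 25293) (nat_lit 26433) (nat_lit 1)
 (.cons (nat_lit 3179) (nat_lit 4361) (nat_lit 427) (nat_lit 1) .nil)), (nat_lit 0), (nat_lit 41), (nat_lit
 13), (nat_lit 1), (30, 4, 19), [23505, 1161], 52⟩,
  mz,
  ⟨⟨3, -40, -76, 64, -25, -12, 26, 32, -67⟩, (.cons (nat_lit 25396) (nat_lit 12853) (nat_lit 29164) (nat_lit 1)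
 (.cons (nat_lit 554) (nat_lit 3966) (nat_lit 2625) (nat_lit 1) .nil)), (nat_lit 24), (nat_lit 11), (nat_lit
 25), (nat_lit 1), (58, 54, 53), [3080, 531], 13⟩,
  mz,
  ⟨⟨17, -24, -89, -36, 55, -12, 54, 24, -53⟩, (.cons (nat_lit 17098) (nat_lit 21403) (nat_lit 3033) (nat_lit 1)
 (.cons (nat_lit 4185) (nat_lit 5006) (nat_lit 4447) (nat_lit 1) .nil)), (nat_lit 12), (nat_lit 47), (nat_lit
 16), (nat_lit 1), (5, 27, 66), [1699, 3559], 36⟩,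
  ⟨⟨-23, -72, 32, -64, 25, 52, -26, -32, -41⟩, (.cons (nat_lit 7615) (nat_lit 28826) (nat_lit 1) (nat_lit 7285)
 (.cons (nat_lit 1508) (nat_lit 1801) (nat_lit 2694) (nat_lit 1) .nil)), (nat_lit 38), (nat_lit 40), (nat_lit
 29), (nat_lit 1), (21, 43, 33), [25766, 4097], 50⟩,
  mz,
  mz,
  ⟨⟨75, 16, -52, 4, -55, -52, 10, 40, -59⟩, (.cons (nat_lit 20024) (nat_lit 19104) (nat_lit 11829) (nat_lit 1)
 (.cons (nat_lit 4002) (nat_lit 1655) (nat_lit 398) (nat_lit 1) .nil)), (nat_lit 24), (nat_lit 14), (nat_lit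
 27), (nat_lit 1), (5, 5, 48), [13225, 642], 41⟩,
  ⟨⟨11, -72, -36, -50, 11, -30, 44, -4, -73⟩, (.cons (nat_lit 18216) (nat_lit 24472) (nat_lit 20636) (nat_lit
 1) (.cons (nat_lit 4386) (nat_lit 3651) (nat_lit 2553) (nat_lit 1) .nil)), (nat_lit 33), (nat_lit 48),
 (nat_lit 34), (nat_lit 1), (69, 22, 63), [442, 4192], 50⟩,
  ⟨⟨61, 48, -36, -44, 55, 12, 22, 8, -77⟩, (.cons (nat_lit 3263) (nat_lit 17276) (nat_lit 18730) (nat_lit 1)
 (.cons (nat_lit 237) (nat_lit 4212) (nat_lit 1) (nat_lit 3053) .nil)), (nat_lit 10), (nat_lit 5), (nat_lit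
 50), (nat_lit 1), (30, 61, 5), [15728, 1514], 27⟩,
  mz,
  ⟨⟨51, 52, -56, 44, -15, 38, 42, -24, -67⟩, (.cons (nat_lit 9303) (nat_lit 3628) (nat_lit 17967) (nat_lit 1)
 (.cons (nat_lit 3954) (nat_lit 2515) (nat_lit 1734) (nat_lit 1) .nil)), (nat_lit 29), (nat_lit 2), (nat_lit
 24), (nat_lit 1), (52, 56, 47), [12947, 3409], 29⟩,
  ⟨⟨9, -16, 80, -10, -69, -10, 60, -12, -11⟩, (.cons (nat_lit 29790) (nat_lit 4387) (nat_lit 12264) (nat_lit 1)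
 (.cons (nat_lit 3883) (nat_lit 2036) (nat_lit 2551) (nat_lit 1) .nil)), (nat_lit 52), (nat_lit 21), (nat_lit
 24), (nat_lit 1), (33, 58, 7), [26767, 2277], 26⟩,
  ⟨⟨9, -16, -89, -10, -69, 20, 60, -12, -49⟩, (.cons (nat_lit 11018) (nat_lit 11545) (nat_lit 20920) (nat_lit
 1) (.cons (nat_lit 3729) (nat_lit 1199) (nat_lit 1664) (nat_lit 1) .nil)), (nat_lit 20), (nat_lit 11),
 (nat_lit 6), (nat_lit 1), (19, 42, 32), [14178, 212], 33⟩,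
  ⟨⟨9, -56, -64, -56, 25, -12, 38, 16, -73⟩, (.cons (nat_lit 20305) (nat_lit 8333) (nat_lit 8728) (nat_lit 1)
 (.cons (nat_lit 1617) (nat_lit 4009) (nat_lit 3515) (nat_lit 1) .nil)), (nat_lit 7), (nat_lit 38), (nat_lit
 9), (nat_lit 1), (4, 54, 9), [4359, 4618], 12⟩,
  ⟨⟨-75, 16, 23, -4, -55, -48, -10, 40, -49⟩, (.cons (nat_lit 23654) (nat_lit 6706) (nat_lit 28292) (nat_lit 1)
 (.cons (nat_lit 774) (nat_lit 4292) (nat_lit 1859) (nat_lit 1) .nil)), (nat_lit 41), (nat_lit 45), (nat_lit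
 39), (nat_lit 1), (26, 26, 65), [8766, 3192], 6⟩,
  ⟨⟨9, -76, -20, 44, 15, -82, -42, -24, -25⟩, (.cons (nat_lit 7276) (nat_lit 25852) (nat_lit 26219) (nat_lit 1)
 (.cons (nat_lit 4198) (nat_lit 2702) (nat_lit 3885) (nat_lit 1) .nil)), (nat_lit 35), (nat_lit 51), (nat_lit
 12), (nat_lit 1), (1, 68, 19), [15707, 2751], 51⟩,
  mz,
  ⟨⟨13, -72, 23, 70, 11, -40, 4, -44, -53⟩, (.cons (nat_lit 29390) (nat_lit 17674) (nat_lit 22518) (nat_lit 1)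
 (.cons (nat_lit 4841) (nat_lit 1750) (nat_lit 2908) (nat_lit 1) .nil)), (nat_lit 39), (nat_lit 26), (nat_lit
 21), (nat_lit 1), (14, 59, 48), [7761, 2831], 10⟩,
  ⟨⟨9, 16, 80, -10, 69, -10, 60, 12, -11⟩, (.cons (nat_lit 1581) (nat_lit 14340) (nat_lit 11590) (nat_lit 1)
 (.cons (nat_lit 4177) (nat_lit 2304) (nat_lit 3089) (nat_lit 1) .nil)), (nat_lit 25), (nat_lit 40), (nat_lit
 16), (nat_lit 1), (58, 46, 8), [4622, 28], 46⟩,
  ⟨⟨75, -20, -32, 10, 21, -80, 12, -60, -25⟩, (.cons (nat_lit 29790) (nat_lit 20585) (nat_lit 3205) (nat_lit 1)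
 (.cons (nat_lit 2260) (nat_lit 1735) (nat_lit 409) (nat_lit 1) .nil)), (nat_lit 52), (nat_lit 3), (nat_lit
 21), (nat_lit 1), (52, 59, 14), [2070, 1615], 39⟩,
  mz,
  ⟨⟨-11, -72, -25, 50, 11, -80, -44, -4, -29⟩, (.cons (nat_lit 16664) (nat_lit 3912) (nat_lit 23348) (nat_lit
 1) (.cons (nat_lit 4149) (nat_lit 3936) (nat_lit 2726) (nat_lit 1) .nil)), (nat_lit 33), (nat_lit 4), (nat_lit
 14), (nat_lit 1), (38, 8, 10), [27521, 3180], 43⟩,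
  ⟨⟨63, -40, -56, 10, -21, 70, -12, -60, -13⟩, (.cons (nat_lit 21029) (nat_lit 16919) (nat_lit 14140) (nat_lit
 1) (.cons (nat_lit 2697) (nat_lit 3144) (nat_lit 2697) (nat_lit 1) .nil)), (nat_lit 48), (nat_lit 22),
 (nat_lit 1), (nat_lit 0), (4, 66, 6), [9000, 2291], 28⟩,
  mz,
  mz,
  mz,
  ⟨⟨11, 72, -36, -50, -11, -30, 44, 4, -73⟩, (.cons (nat_lit 3947) (nat_lit 9508) (nat_lit 29121) (nat_lit 1)
 (.cons (nat_lit 3262) (nat_lit 109) (nat_lit 4632) (nat_lit 1) .nil)), (nat_lit 26), (nat_lit 44), (nat_lit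
 33), (nat_lit 1), (4, 27, 16), [9075, 2567], 16⟩,
  mz,
  ⟨⟨-13, 72, 36, -70, -11, 30, -4, 44, -49⟩, (.cons (nat_lit 12761) (nat_lit 19091) (nat_lit 2795) (nat_lit 1)
 (.cons (nat_lit 3831) (nat_lit 2815) (nat_lit 170) (nat_lit 1) .nil)), (nat_lit 42), (nat_lit 17), (nat_lit
 22), (nat_lit 1), (35, 41, 49), [9515, 865], 40⟩,
  ⟨⟨-65, -24, -7, -4, -55, 52, 10, -40, -59⟩, (.cons (nat_lit 25359) (nat_lit 19365) (nat_lit 29616) (nat_lit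
 1) (.cons (nat_lit 1725) (nat_lit 3750) (nat_lit 1632) (nat_lit 1) .nil)), (nat_lit 22), (nat_lit 17),
 (nat_lit 43), (nat_lit 1), (41, 20, 21), [28544, 3542], 42⟩,
  mz,
  ⟨⟨-27, -68, 43, 64, -15, -2, 6, -48, -49⟩, (.cons (nat_lit 29611) (nat_lit 12100) (nat_lit 16043) (nat_lit 1)
 (.cons (nat_lit 4695) (nat_lit 3393) (nat_lit 4644) (nat_lit 1) .nil)), (nat_lit 11), (nat_lit 43), (nat_lit
 27), (nat_lit 1), (60, 55, 34), [16049, 4313], 30⟩,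
  ⟨⟨-9, -28, -76, 70, -11, -40, 4, 44, -53⟩, (.cons (nat_lit 16750) (nat_lit 7260) (nat_lit 21961) (nat_lit 1)
 (.cons (nat_lit 1931) (nat_lit 4697) (nat_lit 4543) (nat_lit 1) .nil)), (nat_lit 26), (nat_lit 34), (nat_lit
 24), (nat_lit 1), (8, 64, 28), [5479, 3028], 16⟩,
  ⟨⟨-23, 72, 32, 64, 25, -52, -26, 32, -41⟩, (.cons (nat_lit 4676) (nat_lit 8327) (nat_lit 17468) (nat_lit 1)
 (.cons (nat_lit 4155) (nat_lit 2570) (nat_lit 4905) (nat_lit 1) .nil)), (nat_lit 40), (nat_lit 46), (nat_lit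
 21), (nat_lit 1), (27, 36, 12), [3590, 805], 27⟩,
  ⟨⟨17, 24, 72, 36, 55, -48, 54, -24, -1⟩, (.cons (nat_lit 29790) (nat_lit 16916) (nat_lit 5835) (nat_lit 1)
 (.cons (nat_lit 2263) (nat_lit 3813) (nat_lit 3346) (nat_lit 1) .nil)), (nat_lit 52), (nat_lit 23), (nat_lit
 48), (nat_lit 1), (30, 51, 41), [10291, 2305], 15⟩]

/-- Moves. -/
noncomputable def t1_6 : List Mv := [
  mz,
  ⟨⟨-75, 20, 43, -10, -21, -70, -12, 60, -13⟩, (.cons (nat_lit 27719) (nat_lit 10310) (nat_lit 23255) (nat_lit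
 1) (.cons (nat_lit 2183) (nat_lit 3088) (nat_lit 4696) (nat_lit 1) .nil)), (nat_lit 13), (nat_lit 5), (nat_lit
 22), (nat_lit 1), (51, 21, 11), [15397, 1149], 50⟩,
  mz,
  ⟨⟨65, -24, -72, -4, 55, -48, -10, -40, -49⟩, (.cons (nat_lit 29790) (nat_lit 5664) (nat_lit 21385) (nat_lit
 1) (.cons (nat_lit 1440) (nat_lit 3833) (nat_lit 2184) (nat_lit 1) .nil)), (nat_lit 52), (nat_lit 17),
 (nat_lit 14), (nat_lit 1), (37, 1, 38), [21959, 1772], 9⟩,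
  ⟨⟨-33, -20, -59, 64, -15, -62, -6, 48, -43⟩, (.cons (nat_lit 23028) (nat_lit 7542) (nat_lit 13182) (nat_lit
 1) (.cons (nat_lit 1893) (nat_lit 4515) (nat_lit 1336) (nat_lit 1) .nil)), (nat_lit 29), (nat_lit 22),
 (nat_lit 4), (nat_lit 1), (45, 16, 34), [17910, 1111], 2⟩,
  ⟨⟨27, -68, 16, 64, 15, -62, -6, -48, -43⟩, (.cons (nat_lit 14387) (nat_lit 6349) (nat_lit 25301) (nat_lit 1)
 (.cons (nat_lit 3930) (nat_lit 94) (nat_lit 1419) (nat_lit 1) .nil)), (nat_lit 36), (nat_lit 17), (nat_lit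
 42), (nat_lit 1), (7, 35, 30), [24038, 3431], 14⟩,
  mz,
  ⟨⟨-29, 72, 20, -56, -25, 68, -38, 16, -35⟩, (.cons (nat_lit 6209) (nat_lit 5812) (nat_lit 20213) (nat_lit 1)
 (.cons (nat_lit 2087) (nat_lit 2926) (nat_lit 1263) (nat_lit 1) .nil)), (nat_lit 42), (nat_lit 15), (nat_lit
 10), (nat_lit 1), (33, 27, 31), [26931, 3439], 36⟩,
  ⟨⟨3, 40, -76, 64, 25, -12, 26, -32, -67⟩, (.cons (nat_lit 10980) (nat_lit 12913) (nat_lit 10560) (nat_lit 1)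
 (.cons (nat_lit 4214) (nat_lit 2664) (nat_lit 2164) (nat_lit 1) .nil)), (nat_lit 4), (nat_lit 5), (nat_lit
 49), (nat_lit 1), (14, 62, 3), [12060, 1181], 8⟩,
  mz,
  mz,
  ⟨⟨33, -20, -92, 64, 15, -2, 6, 48, -49⟩, (.cons (nat_lit 24232) (nat_lit 1823) (nat_lit 22479) (nat_lit 1)
 (.cons (nat_lit 3059) (nat_lit 1467) (nat_lit 959) (nat_lit 1) .nil)), (nat_lit 28), (nat_lit 17), (nat_lit
 15), (nat_lit 1), (67, 3, 38), [23589, 2396], 5⟩,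
  ⟨⟨-51, -52, -5, 44, -15, -82, -42, 24, -25⟩, (.cons (nat_lit 25224) (nat_lit 4935) (nat_lit 6505) (nat_lit 1)
 (.cons (nat_lit 2231) (nat_lit 111) (nat_lit 2420) (nat_lit 1) .nil)), (nat_lit 28), (nat_lit 29), (nat_lit
 28), (nat_lit 1), (61, 49, 21), [1153, 4257], 14⟩,
  mz,
  mz,
  ⟨⟨51, -52, -56, -44, -15, -38, 42, 24, -67⟩, (.cons (nat_lit 17587) (nat_lit 13412) (nat_lit 21200) (nat_lit
 1) (.cons (nat_lit 2153) (nat_lit 1733) (nat_lit 1524) (nat_lit 1) .nil)), (nat_lit 25), (nat_lit 35),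
 (nat_lit 32), (nat_lit 1), (24, 67, 49), [7041, 2545], 6⟩,
  ⟨⟨17, 24, -89, 36, 55, 12, 54, -24, -53⟩, (.cons (nat_lit 29165) (nat_lit 15460) (nat_lit 9096) (nat_lit 1)
 (.cons (nat_lit 3133) (nat_lit 4721) (nat_lit 2760) (nat_lit 1) .nil)), (nat_lit 16), (nat_lit 32), (nat_lit
 3), (nat_lit 1), (7, 19, 64), [4471, 4158], 44⟩,
  mz,
  ⟨⟨29, -72, -9, -56, -25, -12, 38, -16, -73⟩, (.cons (nat_lit 17132) (nat_lit 12479) (nat_lit 7577) (nat_lit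
 1) (.cons (nat_lit 3647) (nat_lit 3360) (nat_lit 4210) (nat_lit 1) .nil)), (nat_lit 32), (nat_lit 40),
 (nat_lit 38), (nat_lit 1), (70, 46, 55), [17225, 3093], 34⟩,
  ⟨⟨39, 40, -80, -44, 55, 32, -22, -8, -55⟩, (.cons (nat_lit 1492) (nat_lit 24540) (nat_lit 3276) (nat_lit 1)
 (.cons (nat_lit 3096) (nat_lit 1564) (nat_lit 3237) (nat_lit 1) .nil)), (nat_lit 16), (nat_lit 35), (nat_lit
 19), (nat_lit 1), (28, 3, 37), [23054, 3449], 22⟩,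
  mz,
  mz,
  ⟨⟨17, -24, 72, 36, -55, -48, 54, 24, -1⟩, (.cons (nat_lit 26176) (nat_lit 16540) (nat_lit 12758) (nat_lit 1)
 (.cons (nat_lit 808) (nat_lit 4357) (nat_lit 825) (nat_lit 1) .nil)), (nat_lit 47), (nat_lit 8), (nat_lit 36),
 (nat_lit 1), (28, 5, 43), [3335, 516], 8⟩,
  ⟨⟨-61, 48, 25, 44, 55, -32, -22, 8, -55⟩, (.cons (nat_lit 23227) (nat_lit 6955) (nat_lit 8919) (nat_lit 1)
 (.cons (nat_lit 3039) (nat_lit 4132) (nat_lit 952) (nat_lit 1) .nil)), (nat_lit 46), (nat_lit 42), (nat_lit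
 47), (nat_lit 1), (13, 43, 14), [5675, 1355], 11⟩,
  ⟨⟨-39, 40, -41, 44, 55, -12, 22, -8, -77⟩, (.cons (nat_lit 12776) (nat_lit 9473) (nat_lit 1431) (nat_lit 1)
 (.cons (nat_lit 2593) (nat_lit 4782) (nat_lit 1471) (nat_lit 1) .nil)), (nat_lit 15), (nat_lit 6), (nat_lit
 37), (nat_lit 1), (2, 56, 28), [4930, 466], 37⟩,
  mz,
  ⟨⟨51, -4, 40, 10, -69, -20, 60, 12, -49⟩, (.cons (nat_lit 19009) (nat_lit 4259) (nat_lit 1) (nat_lit 14415)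
 (.cons (nat_lit 4832) (nat_lit 4434) (nat_lit 3130) (nat_lit 1) .nil)), (nat_lit 17), (nat_lit 49), (nat_lit
 29), (nat_lit 1), (60, 41, 33), [29156, 4285], 9⟩,
  mz,
  mz,
  ⟨⟨-13, -72, 36, 70, -11, -30, -4, -44, -49⟩, (.cons (nat_lit 3872) (nat_lit 6700) (nat_lit 2423) (nat_lit 1)
 (.cons (nat_lit 1837) (nat_lit 1195) (nat_lit 1) (nat_lit 3195) .nil)), (nat_lit 51), (nat_lit 35), (nat_lit
 13), (nat_lit 1), (29, 35, 69), [517, 4745], 11⟩,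
  mz,
  ⟨⟨-11, 72, -25, -50, 11, 80, -44, 4, -29⟩, (.cons (nat_lit 18044) (nat_lit 27844) (nat_lit 16779) (nat_lit 1)
 (.cons (nat_lit 5028) (nat_lit 4980) (nat_lit 2710) (nat_lit 1) .nil)), (nat_lit 39), (nat_lit 12), (nat_lit
 19), (nat_lit 1), (44, 58, 34), [18735, 1056], 10⟩,
  mz,
  ⟨⟨-9, 56, -55, -56, 25, 68, -38, -16, -35⟩, (.cons (nat_lit 14987) (nat_lit 1549) (nat_lit 17818) (nat_lit 1)
 (.cons (nat_lit 1281) (nat_lit 1539) (nat_lit 318) (nat_lit 1) .nil)), (nat_lit 14), (nat_lit 18), (nat_lit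
 13), (nat_lit 1), (50, 35, 6), [21823, 4185], 38⟩,
  ⟨⟨75, 20, -32, -10, 21, 80, 12, 60, -25⟩, (.cons (nat_lit 29790) (nat_lit 10062) (nat_lit 24559) (nat_lit 1)
 (.cons (nat_lit 4579) (nat_lit 1145) (nat_lit 2509) (nat_lit 1) .nil)), (nat_lit 52), (nat_lit 17), (nat_lit
 45), (nat_lit 1), (30, 67, 19), [6413, 4938], 8⟩,
  mz,
  ⟨⟨23, 72, 9, 64, -25, -12, 26, 32, -67⟩, (.cons (nat_lit 15229) (nat_lit 5817) (nat_lit 6603) (nat_lit 1)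
 (.cons (nat_lit 3306) (nat_lit 1145) (nat_lit 2722) (nat_lit 1) .nil)), (nat_lit 25), (nat_lit 47), (nat_lit
 47), (nat_lit 1), (66, 54, 53), [21493, 1954], 14⟩,
  mz,
  ⟨⟨17, -24, -89, -36, 55, -12, 54, 24, -53⟩, (.cons (nat_lit 17098) (nat_lit 21403) (nat_lit 3033) (nat_lit 1)
 (.cons (nat_lit 4185) (nat_lit 5006) (nat_lit 4447) (nat_lit 1) .nil)), (nat_lit 12), (nat_lit 47), (nat_lit
 16), (nat_lit 1), (5, 27, 66), [1699, 3559], 36⟩,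
  ⟨⟨-23, -72, 32, 64, -25, -52, -26, -32, -41⟩, (.cons (nat_lit 26700) (nat_lit 14679) (nat_lit 991) (nat_lit
 1) (.cons (nat_lit 4464) (nat_lit 2391) (nat_lit 1952) (nat_lit 1) .nil)), (nat_lit 42), (nat_lit 36),
 (nat_lit 13), (nat_lit 1), (21, 28, 33), [15864, 4884], 36⟩,
  mz,
  mz,
  ⟨⟨-65, 24, -7, 4, -55, -52, 10, 40, -59⟩, (.cons (nat_lit 821) (nat_lit 3528) (nat_lit 11148) (nat_lit 1)
 (.cons (nat_lit 456) (nat_lit 2998) (nat_lit 4341) (nat_lit 1) .nil)), (nat_lit 31), (nat_lit 34), (nat_lit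
 33), (nat_lit 1), (43, 5, 48), [11921, 3041], 28⟩,
  ⟨⟨11, -72, -36, -50, 11, -30, 44, -4, -73⟩, (.cons (nat_lit 18216) (nat_lit 24472) (nat_lit 20636) (nat_lit
 1) (.cons (nat_lit 4386) (nat_lit 3651) (nat_lit 2553) (nat_lit 1) .nil)), (nat_lit 33), (nat_lit 48),
 (nat_lit 34), (nat_lit 1), (69, 22, 63), [442, 4192], 50⟩,
  ⟨⟨-39, -40, -41, -44, 55, 12, 22, 8, -77⟩, (.cons (nat_lit 21033) (nat_lit 15448) (nat_lit 23239) (nat_lit 1)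
 (.cons (nat_lit 2834) (nat_lit 3656) (nat_lit 762) (nat_lit 1) .nil)), (nat_lit 10), (nat_lit 15), (nat_lit
 13), (nat_lit 1), (46, 61, 5), [15416, 4635], 9⟩,
  mz,
  ⟨⟨51, 52, -56, -44, 15, -38, 42, -24, -67⟩, (.cons (nat_lit 17195) (nat_lit 12960) (nat_lit 17069) (nat_lit
 1) (.cons (nat_lit 41) (nat_lit 2210) (nat_lit 3118) (nat_lit 1) .nil)), (nat_lit 28), (nat_lit 1), (nat_lit
 43), (nat_lit 1), (52, 15, 47), [9143, 4733], 5⟩,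
  ⟨⟨51, 4, -91, -10, -69, -10, 60, -12, -11⟩, (.cons (nat_lit 23257) (nat_lit 13082) (nat_lit 28408) (nat_lit
 1) (.cons (nat_lit 3359) (nat_lit 3320) (nat_lit 3742) (nat_lit 1) .nil)), (nat_lit 24), (nat_lit 42),
 (nat_lit 49), (nat_lit 1), (45, 58, 7), [14352, 4098], 42⟩,
  ⟨⟨51, 4, 40, 10, 69, -20, 60, -12, -49⟩, (.cons (nat_lit 29790) (nat_lit 10813) (nat_lit 15625) (nat_lit 1)
 (.cons (nat_lit 3825) (nat_lit 712) (nat_lit 4282) (nat_lit 1) .nil)), (nat_lit 52), (nat_lit 44), (nat_lit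
 50), (nat_lit 1), (13, 29, 32), [27886, 195], 27⟩,
  ⟨⟨29, 72, -9, 56, -25, 12, 38, 16, -73⟩, (.cons (nat_lit 11970) (nat_lit 21868) (nat_lit 27404) (nat_lit 1)
 (.cons (nat_lit 4249) (nat_lit 3528) (nat_lit 688) (nat_lit 1) .nil)), (nat_lit 17), (nat_lit 49), (nat_lit
 49), (nat_lit 1), (5, 17, 9), [19194, 1706], 18⟩,
  ⟨⟨65, 24, -72, -4, -55, -48, -10, 40, -49⟩, (.cons (nat_lit 19032) (nat_lit 17710) (nat_lit 19949) (nat_lit
 1) (.cons (nat_lit 533) (nat_lit 4828) (nat_lit 4201) (nat_lit 1) .nil)), (nat_lit 24), (nat_lit 23), (nat_lit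
 51), (nat_lit 1), (39, 26, 65), [20169, 3089], 41⟩,
  ⟨⟨-51, 52, -5, -44, -15, 82, -42, -24, -25⟩, (.cons (nat_lit 19567) (nat_lit 10300) (nat_lit 28075) (nat_lit
 1) (.cons (nat_lit 4340) (nat_lit 422) (nat_lit 2221) (nat_lit 1) .nil)), (nat_lit 11), (nat_lit 23), (nat_lit
 9), (nat_lit 1), (18, 3, 19), [16204, 337], 30⟩,
  mz,
  ⟨⟨13, -72, 23, -70, -11, 40, 4, -44, -53⟩, (.cons (nat_lit 10108) (nat_lit 1936) (nat_lit 7430) (nat_lit 1)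
 (.cons (nat_lit 3059) (nat_lit 1222) (nat_lit 94) (nat_lit 1) .nil)), (nat_lit 1), (nat_lit 10), (nat_lit 22),
 (nat_lit 1), (14, 12, 48), [29457, 4134], 33⟩,
  ⟨⟨9, 16, 80, -10, 69, -10, 60, 12, -11⟩, (.cons (nat_lit 1581) (nat_lit 14340) (nat_lit 11590) (nat_lit 1)
 (.cons (nat_lit 4177) (nat_lit 2304) (nat_lit 3089) (nat_lit 1) .nil)), (nat_lit 25), (nat_lit 40), (nat_lit
 16), (nat_lit 1), (58, 46, 8), [4622, 28], 46⟩,
  ⟨⟨75, -20, -32, 10, 21, -80, 12, -60, -25⟩, (.cons (nat_lit 29790) (nat_lit 20585) (nat_lit 3205) (nat_lit 1)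
 (.cons (nat_lit 2260) (nat_lit 1735) (nat_lit 409) (nat_lit 1) .nil)), (nat_lit 52), (nat_lit 3), (nat_lit
 21), (nat_lit 1), (52, 59, 14), [2070, 1615], 39⟩,
  mz,
  ⟨⟨-11, -72, -25, 50, 11, -80, -44, -4, -29⟩, (.cons (nat_lit 16664) (nat_lit 3912) (nat_lit 23348) (nat_lit
 1) (.cons (nat_lit 4149) (nat_lit 3936) (nat_lit 2726) (nat_lit 1) .nil)), (nat_lit 33), (nat_lit 4), (nat_lit
 14), (nat_lit 1), (38, 8, 10), [27521, 3180], 43⟩,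
  ⟨⟨-75, -20, 43, -10, 21, -70, -12, -60, -13⟩, (.cons (nat_lit 27980) (nat_lit 24448) (nat_lit 4706) (nat_lit
 1) (.cons (nat_lit 2500) (nat_lit 553) (nat_lit 252) (nat_lit 1) .nil)), (nat_lit 22), (nat_lit 0), (nat_lit
 7), (nat_lit 1), (2, 5, 6), [126, 4292], 25⟩,
  mz,
  mz,
  mz,
  ⟨⟨11, 72, -36, -50, -11, -30, 44, 4, -73⟩, (.cons (nat_lit 3947) (nat_lit 9508) (nat_lit 29121) (nat_lit 1)
 (.cons (nat_lit 3262) (nat_lit 109) (nat_lit 4632) (nat_lit 1) .nil)), (nat_lit 26), (nat_lit 44), (nat_lit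
 33), (nat_lit 1), (4, 27, 16), [9075, 2567], 16⟩,
  mz,
  ⟨⟨-13, 72, 36, 70, 11, -30, -4, 44, -49⟩, (.cons (nat_lit 7883) (nat_lit 21737) (nat_lit 5729) (nat_lit 1)
 (.cons (nat_lit 370) (nat_lit 1435) (nat_lit 3217) (nat_lit 1) .nil)), (nat_lit 51), (nat_lit 41), (nat_lit
 21), (nat_lit 1), (35, 30, 49), [3753, 1531], 48⟩,
  ⟨⟨-65, -24, -7, 4, 55, -52, 10, -40, -59⟩, (.cons (nat_lit 19742) (nat_lit 27710) (nat_lit 8397) (nat_lit 1)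
 (.cons (nat_lit 3182) (nat_lit 4758) (nat_lit 1747) (nat_lit 1) .nil)), (nat_lit 40), (nat_lit 41), (nat_lit
 34), (nat_lit 1), (41, 51, 21), [20457, 3565], 8⟩,
  mz,
  ⟨⟨33, 20, -92, -64, 15, 2, 6, -48, -49⟩, (.cons (nat_lit 954) (nat_lit 4140) (nat_lit 11514) (nat_lit 1)
 (.cons (nat_lit 3420) (nat_lit 3570) (nat_lit 3237) (nat_lit 1) .nil)), (nat_lit 50), (nat_lit 47), (nat_lit
 36), (nat_lit 1), (45, 16, 34), [10453, 3739], 35⟩,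
  ⟨⟨-9, -28, -76, -70, 11, 40, 4, 44, -53⟩, (.cons (nat_lit 12822) (nat_lit 17107) (nat_lit 29197) (nat_lit 1)
 (.cons (nat_lit 2789) (nat_lit 3617) (nat_lit 2165) (nat_lit 1) .nil)), (nat_lit 33), (nat_lit 27), (nat_lit
 31), (nat_lit 1), (8, 7, 28), [8812, 657], 50⟩,
  ⟨⟨-3, -40, -73, 64, 25, -52, -26, 32, -41⟩, (.cons (nat_lit 17256) (nat_lit 22774) (nat_lit 5503) (nat_lit 1)
 (.cons (nat_lit 3051) (nat_lit 2586) (nat_lit 1293) (nat_lit 1) .nil)), (nat_lit 19), (nat_lit 29), (nat_lit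
 18), (nat_lit 1), (56, 36, 12), [28864, 3505], 44⟩,
  ⟨⟨17, 24, 72, 36, 55, -48, 54, -24, -1⟩, (.cons (nat_lit 29790) (nat_lit 16916) (nat_lit 5835) (nat_lit 1)
 (.cons (nat_lit 2263) (nat_lit 3813) (nat_lit 3346) (nat_lit 1) .nil)), (nat_lit 52), (nat_lit 23), (nat_lit
 48), (nat_lit 1), (30, 51, 41), [10291, 2305], 15⟩]

/-- Moves. -/
noncomputable def t1_8 : List Mv := [
  mz,
  ⟨⟨-75, 20, 43, -10, -21, -70, -12, 60, -13⟩, (.cons (nat_lit 27719) (nat_lit 10310) (nat_lit 23255) (nat_lit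
 1) (.cons (nat_lit 2183) (nat_lit 3088) (nat_lit 4696) (nat_lit 1) .nil)), (nat_lit 13), (nat_lit 5), (nat_lit
 22), (nat_lit 1), (51, 21, 11), [15397, 1149], 50⟩,
  mz,
  ⟨⟨65, -24, -72, -4, 55, -48, -10, -40, -49⟩, (.cons (nat_lit 29790) (nat_lit 5664) (nat_lit 21385) (nat_lit
 1) (.cons (nat_lit 1440) (nat_lit 3833) (nat_lit 2184) (nat_lit 1) .nil)), (nat_lit 52), (nat_lit 17),
 (nat_lit 14), (nat_lit 1), (37, 1, 38), [21959, 1772], 9⟩,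
  ⟨⟨27, 68, 16, 64, -15, -62, -6, 48, -43⟩, (.cons (nat_lit 4733) (nat_lit 18083) (nat_lit 15494) (nat_lit 1)
 (.cons (nat_lit 4658) (nat_lit 1186) (nat_lit 3642) (nat_lit 1) .nil)), (nat_lit 11), (nat_lit 31), (nat_lit
 1), (nat_lit 1), (60, 16, 34), [12540, 342], 11⟩,
  ⟨⟨27, -68, 16, 64, 15, -62, -6, -48, -43⟩, (.cons (nat_lit 14387) (nat_lit 6349) (nat_lit 25301) (nat_lit 1)
 (.cons (nat_lit 3930) (nat_lit 94) (nat_lit 1419) (nat_lit 1) .nil)), (nat_lit 36), (nat_lit 17), (nat_lit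
 42), (nat_lit 1), (7, 35, 30), [24038, 3431], 14⟩,
  mz,
  ⟨⟨-9, -56, -55, -56, -25, 68, -38, 16, -35⟩, (.cons (nat_lit 2897) (nat_lit 26228) (nat_lit 8359) (nat_lit 1)
 (.cons (nat_lit 1951) (nat_lit 2852) (nat_lit 693) (nat_lit 1) .nil)), (nat_lit 5), (nat_lit 5), (nat_lit 21),
 (nat_lit 1), (69, 27, 31), [3486, 1587], 2⟩,
  ⟨⟨3, 40, -76, 64, 25, -12, 26, -32, -67⟩, (.cons (nat_lit 10980) (nat_lit 12913) (nat_lit 10560) (nat_lit 1)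
 (.cons (nat_lit 4214) (nat_lit 2664) (nat_lit 2164) (nat_lit 1) .nil)), (nat_lit 4), (nat_lit 5), (nat_lit
 49), (nat_lit 1), (14, 62, 3), [12060, 1181], 8⟩,
  mz,
  mz,
  ⟨⟨33, -20, -92, 64, 15, -2, 6, 48, -49⟩, (.cons (nat_lit 24232) (nat_lit 1823) (nat_lit 22479) (nat_lit 1)
 (.cons (nat_lit 3059) (nat_lit 1467) (nat_lit 959) (nat_lit 1) .nil)), (nat_lit 28), (nat_lit 17), (nat_lit
 15), (nat_lit 1), (67, 3, 38), [23589, 2396], 5⟩,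
  ⟨⟨9, 76, -20, 44, -15, -82, -42, 24, -25⟩, (.cons (nat_lit 25658) (nat_lit 927) (nat_lit 13536) (nat_lit 1)
 (.cons (nat_lit 2203) (nat_lit 4103) (nat_lit 2733) (nat_lit 1) .nil)), (nat_lit 11), (nat_lit 46), (nat_lit
 41), (nat_lit 1), (31, 49, 21), [5410, 4929], 11⟩,
  mz,
  mz,
  ⟨⟨51, -52, -56, -44, -15, -38, 42, 24, -67⟩, (.cons (nat_lit 17587) (nat_lit 13412) (nat_lit 21200) (nat_lit
 1) (.cons (nat_lit 2153) (nat_lit 1733) (nat_lit 1524) (nat_lit 1) .nil)), (nat_lit 25), (nat_lit 35),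
 (nat_lit 32), (nat_lit 1), (24, 67, 49), [7041, 2545], 6⟩,
  ⟨⟨17, 24, -89, -36, -55, -12, 54, -24, -53⟩, (.cons (nat_lit 29) (nat_lit 11676) (nat_lit 7704) (nat_lit 1)
 (.cons (nat_lit 2888) (nat_lit 4686) (nat_lit 1661) (nat_lit 1) .nil)), (nat_lit 32), (nat_lit 25), (nat_lit
 24), (nat_lit 1), (7, 52, 64), [18336, 2295], 48⟩,
  mz,
  ⟨⟨9, 56, -64, -56, -25, -12, 38, -16, -73⟩, (.cons (nat_lit 26543) (nat_lit 11792) (nat_lit 1340) (nat_lit 1)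
 (.cons (nat_lit 3600) (nat_lit 115) (nat_lit 2053) (nat_lit 1) .nil)), (nat_lit 24), (nat_lit 37), (nat_lit
 6), (nat_lit 1), (56, 46, 55), [13682, 609], 13⟩,
  ⟨⟨-61, -48, 25, -44, 55, 32, -22, -8, -55⟩, (.cons (nat_lit 432) (nat_lit 29439) (nat_lit 319) (nat_lit 1)
 (.cons (nat_lit 885) (nat_lit 3698) (nat_lit 1119) (nat_lit 1) .nil)), (nat_lit 16), (nat_lit 25), (nat_lit
 4), (nat_lit 1), (9, 3, 37), [19132, 1484], 25⟩,
  mz,
  mz,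
  ⟨⟨37, 48, -73, 36, -55, -48, 54, 24, -1⟩, (.cons (nat_lit 8846) (nat_lit 20658) (nat_lit 11773) (nat_lit 1)
 (.cons (nat_lit 1931) (nat_lit 544) (nat_lit 1028) (nat_lit 1) .nil)), (nat_lit 31), (nat_lit 27), (nat_lit
 34), (nat_lit 1), (15, 5, 43), [602, 2791], 13⟩,
  ⟨⟨-61, 48, 25, -44, -55, 32, -22, 8, -55⟩, (.cons (nat_lit 9018) (nat_lit 13614) (nat_lit 23821) (nat_lit 1)
 (.cons (nat_lit 2279) (nat_lit 1410) (nat_lit 3129) (nat_lit 1) .nil)), (nat_lit 25), (nat_lit 18), (nat_lit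
 3), (nat_lit 1), (13, 28, 14), [25226, 3777], 45⟩,
  ⟨⟨-39, 40, -41, 44, 55, -12, 22, -8, -77⟩, (.cons (nat_lit 12776) (nat_lit 9473) (nat_lit 1431) (nat_lit 1)
 (.cons (nat_lit 2593) (nat_lit 4782) (nat_lit 1471) (nat_lit 1) .nil)), (nat_lit 15), (nat_lit 6), (nat_lit
 37), (nat_lit 1), (2, 56, 28), [4930, 466], 37⟩,
  mz,
  ⟨⟨9, 16, -89, 10, -69, -20, 60, 12, -49⟩, (.cons (nat_lit 10701) (nat_lit 24799) (nat_lit 22969) (nat_lit 1)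
 (.cons (nat_lit 4560) (nat_lit 1491) (nat_lit 755) (nat_lit 1) .nil)), (nat_lit 23), (nat_lit 50), (nat_lit
 8), (nat_lit 1), (44, 41, 33), [22966, 2043], 2⟩,
  mz,
  mz,
  ⟨⟨9, 28, -85, -70, 11, 30, -4, -44, -49⟩, (.cons (nat_lit 817) (nat_lit 21324) (nat_lit 20715) (nat_lit 1)
 (.cons (nat_lit 25) (nat_lit 4970) (nat_lit 2397) (nat_lit 1) .nil)), (nat_lit 45), (nat_lit 32), (nat_lit 6),
 (nat_lit 1), (40, 36, 69), [21, 1182], 49⟩,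
  mz,
  ⟨⟨-33, -68, -4, -50, 11, 80, -44, 4, -29⟩, (.cons (nat_lit 2033) (nat_lit 17357) (nat_lit 15962) (nat_lit 1)
 (.cons (nat_lit 2984) (nat_lit 3737) (nat_lit 3999) (nat_lit 1) .nil)), (nat_lit 45), (nat_lit 4), (nat_lit
 36), (nat_lit 1), (61, 58, 34), [1755, 245], 20⟩,
  mz,
  ⟨⟨-29, -72, 20, 56, -25, -68, -38, -16, -35⟩, (.cons (nat_lit 1686) (nat_lit 27544) (nat_lit 2125) (nat_lit
 1) (.cons (nat_lit 1527) (nat_lit 1751) (nat_lit 4229) (nat_lit 1) .nil)), (nat_lit 8), (nat_lit 21), (nat_lit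
 42), (nat_lit 1), (27, 36, 6), [4913, 3264], 44⟩,
  ⟨⟨-63, 40, 7, 10, -21, -80, 12, 60, -25⟩, (.cons (nat_lit 9466) (nat_lit 21985) (nat_lit 694) (nat_lit 1)
 (.cons (nat_lit 3531) (nat_lit 156) (nat_lit 4966) (nat_lit 1) .nil)), (nat_lit 31), (nat_lit 16), (nat_lit
 28), (nat_lit 1), (60, 4, 19), [11864, 4933], 33⟩,
  mz,
  ⟨⟨3, -40, -76, -64, 25, 12, 26, 32, -67⟩, (.cons (nat_lit 23157) (nat_lit 644) (nat_lit 11024) (nat_lit 1)
 (.cons (nat_lit 4667) (nat_lit 156) (nat_lit 1811) (nat_lit 1) .nil)), (nat_lit 7), (nat_lit 43), (nat_lit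
 40), (nat_lit 1), (58, 17, 53), [7986, 4447], 12⟩,
  mz,
  ⟨⟨17, -24, -89, 36, -55, 12, 54, 24, -53⟩, (.cons (nat_lit 24426) (nat_lit 26110) (nat_lit 8534) (nat_lit 1)
 (.cons (nat_lit 2704) (nat_lit 2777) (nat_lit 491) (nat_lit 1) .nil)), (nat_lit 32), (nat_lit 44), (nat_lit
 4), (nat_lit 1), (5, 44, 66), [16786, 4774], 48⟩,
  ⟨⟨-23, -72, 32, -64, 25, 52, -26, -32, -41⟩, (.cons (nat_lit 7615) (nat_lit 28826) (nat_lit 1) (nat_lit 7285)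
 (.cons (nat_lit 1508) (nat_lit 1801) (nat_lit 2694) (nat_lit 1) .nil)), (nat_lit 38), (nat_lit 40), (nat_lit
 29), (nat_lit 1), (21, 43, 33), [25766, 4097], 50⟩,
  mz,
  mz,
  ⟨⟨75, 16, -52, 4, -55, -52, 10, 40, -59⟩, (.cons (nat_lit 20024) (nat_lit 19104) (nat_lit 11829) (nat_lit 1)
 (.cons (nat_lit 4002) (nat_lit 1655) (nat_lit 398) (nat_lit 1) .nil)), (nat_lit 24), (nat_lit 14), (nat_lit
 27), (nat_lit 1), (5, 5, 48), [13225, 642], 41⟩,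
  ⟨⟨11, -72, -36, 50, -11, 30, 44, -4, -73⟩, (.cons (nat_lit 3238) (nat_lit 29458) (nat_lit 6254) (nat_lit 1)
 (.cons (nat_lit 1061) (nat_lit 4269) (nat_lit 1309) (nat_lit 1) .nil)), (nat_lit 24), (nat_lit 16), (nat_lit
 2), (nat_lit 1), (69, 49, 63), [27632, 1632], 38⟩,
  ⟨⟨-39, -40, -41, -44, 55, 12, 22, 8, -77⟩, (.cons (nat_lit 21033) (nat_lit 15448) (nat_lit 23239) (nat_lit 1)
 (.cons (nat_lit 2834) (nat_lit 3656) (nat_lit 762) (nat_lit 1) .nil)), (nat_lit 10), (nat_lit 15), (nat_lit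
 13), (nat_lit 1), (46, 61, 5), [15416, 4635], 9⟩,
  mz,
  ⟨⟨51, 52, -56, -44, 15, -38, 42, -24, -67⟩, (.cons (nat_lit 17195) (nat_lit 12960) (nat_lit 17069) (nat_lit
 1) (.cons (nat_lit 41) (nat_lit 2210) (nat_lit 3118) (nat_lit 1) .nil)), (nat_lit 28), (nat_lit 1), (nat_lit
 43), (nat_lit 1), (52, 15, 47), [9143, 4733], 5⟩,
  ⟨⟨51, 4, -91, 10, 69, 10, 60, -12, -11⟩, (.cons (nat_lit 4848) (nat_lit 7129) (nat_lit 18195) (nat_lit 1)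
 (.cons (nat_lit 2037) (nat_lit 4520) (nat_lit 3659) (nat_lit 1) .nil)), (nat_lit 8), (nat_lit 18), (nat_lit
 5), (nat_lit 1), (45, 13, 7), [13451, 2878], 8⟩,
  ⟨⟨51, 4, 40, -10, -69, 20, 60, -12, -49⟩, (.cons (nat_lit 17298) (nat_lit 8027) (nat_lit 12033) (nat_lit 1)
 (.cons (nat_lit 4433) (nat_lit 3855) (nat_lit 135) (nat_lit 1) .nil)), (nat_lit 25), (nat_lit 47), (nat_lit
 17), (nat_lit 1), (13, 42, 32), [24084, 3231], 7⟩,
  ⟨⟨29, 72, -9, -56, 25, -12, 38, 16, -73⟩, (.cons (nat_lit 12327) (nat_lit 27753) (nat_lit 13711) (nat_lit 1)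
 (.cons (nat_lit 2193) (nat_lit 3852) (nat_lit 1774) (nat_lit 1) .nil)), (nat_lit 19), (nat_lit 33), (nat_lit
 11), (nat_lit 1), (5, 54, 9), [25671, 700], 44⟩,
  ⟨⟨65, 24, -72, -4, -55, -48, -10, 40, -49⟩, (.cons (nat_lit 19032) (nat_lit 17710) (nat_lit 19949) (nat_lit
 1) (.cons (nat_lit 533) (nat_lit 4828) (nat_lit 4201) (nat_lit 1) .nil)), (nat_lit 24), (nat_lit 23), (nat_lit
 51), (nat_lit 1), (39, 26, 65), [20169, 3089], 41⟩,
  ⟨⟨9, -76, -20, 44, 15, -82, -42, -24, -25⟩, (.cons (nat_lit 7276) (nat_lit 25852) (nat_lit 26219) (nat_lit 1)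
 (.cons (nat_lit 4198) (nat_lit 2702) (nat_lit 3885) (nat_lit 1) .nil)), (nat_lit 35), (nat_lit 51), (nat_lit
 12), (nat_lit 1), (1, 68, 19), [15707, 2751], 51⟩,
  mz,
  ⟨⟨13, -72, 23, 70, 11, -40, 4, -44, -53⟩, (.cons (nat_lit 29390) (nat_lit 17674) (nat_lit 22518) (nat_lit 1)
 (.cons (nat_lit 4841) (nat_lit 1750) (nat_lit 2908) (nat_lit 1) .nil)), (nat_lit 39), (nat_lit 26), (nat_lit
 21), (nat_lit 1), (14, 59, 48), [7761, 2831], 10⟩,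
  ⟨⟨9, 16, 80, -10, 69, -10, 60, 12, -11⟩, (.cons (nat_lit 1581) (nat_lit 14340) (nat_lit 11590) (nat_lit 1)
 (.cons (nat_lit 4177) (nat_lit 2304) (nat_lit 3089) (nat_lit 1) .nil)), (nat_lit 25), (nat_lit 40), (nat_lit
 16), (nat_lit 1), (58, 46, 8), [4622, 28], 46⟩,
  ⟨⟨75, -20, -32, 10, 21, -80, 12, -60, -25⟩, (.cons (nat_lit 29790) (nat_lit 20585) (nat_lit 3205) (nat_lit 1)
 (.cons (nat_lit 2260) (nat_lit 1735) (nat_lit 409) (nat_lit 1) .nil)), (nat_lit 52), (nat_lit 3), (nat_lit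
 21), (nat_lit 1), (52, 59, 14), [2070, 1615], 39⟩,
  mz,
  ⟨⟨-11, -72, -25, 50, 11, -80, -44, -4, -29⟩, (.cons (nat_lit 16664) (nat_lit 3912) (nat_lit 23348) (nat_lit
 1) (.cons (nat_lit 4149) (nat_lit 3936) (nat_lit 2726) (nat_lit 1) .nil)), (nat_lit 33), (nat_lit 4), (nat_lit
 14), (nat_lit 1), (38, 8, 10), [27521, 3180], 43⟩,
  ⟨⟨-75, -20, 43, 10, -21, 70, -12, -60, -13⟩, (.cons (nat_lit 19547) (nat_lit 24171) (nat_lit 19078) (nat_lit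
 1) (.cons (nat_lit 3667) (nat_lit 170) (nat_lit 3188) (nat_lit 1) .nil)), (nat_lit 12), (nat_lit 20), (nat_lit
 35), (nat_lit 1), (2, 66, 6), [3010, 3947], 35⟩,
  mz,
  mz,
  mz,
  ⟨⟨11, 72, -36, -50, -11, -30, 44, 4, -73⟩, (.cons (nat_lit 3947) (nat_lit 9508) (nat_lit 29121) (nat_lit 1)
 (.cons (nat_lit 3262) (nat_lit 109) (nat_lit 4632) (nat_lit 1) .nil)), (nat_lit 26), (nat_lit 44), (nat_lit
 33), (nat_lit 1), (4, 27, 16), [9075, 2567], 16⟩,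
  mz,
  ⟨⟨-13, 72, 36, 70, 11, -30, -4, 44, -49⟩, (.cons (nat_lit 7883) (nat_lit 21737) (nat_lit 5729) (nat_lit 1)
 (.cons (nat_lit 370) (nat_lit 1435) (nat_lit 3217) (nat_lit 1) .nil)), (nat_lit 51), (nat_lit 41), (nat_lit
 21), (nat_lit 1), (35, 30, 49), [3753, 1531], 48⟩,
  ⟨⟨75, -16, -52, 4, 55, -52, 10, -40, -59⟩, (.cons (nat_lit 29790) (nat_lit 4943) (nat_lit 3072) (nat_lit 1)
 (.cons (nat_lit 321) (nat_lit 2803) (nat_lit 1402) (nat_lit 1) .nil)), (nat_lit 52), (nat_lit 16), (nat_lit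
 20), (nat_lit 1), (51, 51, 21), [21188, 2546], 1⟩,
  mz,
  ⟨⟨-27, -68, 43, -64, 15, 2, 6, -48, -49⟩, (.cons (nat_lit 28792) (nat_lit 7297) (nat_lit 29595) (nat_lit 1)
 (.cons (nat_lit 2185) (nat_lit 4004) (nat_lit 1148) (nat_lit 1) .nil)), (nat_lit 12), (nat_lit 11), (nat_lit
 38), (nat_lit 1), (60, 16, 34), [5977, 2985], 6⟩,
  ⟨⟨-9, -28, -76, -70, 11, 40, 4, 44, -53⟩, (.cons (nat_lit 12822) (nat_lit 17107) (nat_lit 29197) (nat_lit 1)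
 (.cons (nat_lit 2789) (nat_lit 3617) (nat_lit 2165) (nat_lit 1) .nil)), (nat_lit 33), (nat_lit 27), (nat_lit
 31), (nat_lit 1), (8, 7, 28), [8812, 657], 50⟩,
  ⟨⟨-23, 72, 32, 64, 25, -52, -26, 32, -41⟩, (.cons (nat_lit 4676) (nat_lit 8327) (nat_lit 17468) (nat_lit 1)
 (.cons (nat_lit 4155) (nat_lit 2570) (nat_lit 4905) (nat_lit 1) .nil)), (nat_lit 40), (nat_lit 46), (nat_lit
 21), (nat_lit 1), (27, 36, 12), [3590, 805], 27⟩,
  ⟨⟨17, 24, 72, 36, 55, -48, 54, -24, -1⟩, (.cons (nat_lit 29790) (nat_lit 16916) (nat_lit 5835) (nat_lit 1)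
 (.cons (nat_lit 2263) (nat_lit 3813) (nat_lit 3346) (nat_lit 1) .nil)), (nat_lit 52), (nat_lit 23), (nat_lit
 48), (nat_lit 1), (30, 51, 41), [10291, 2305], 15⟩]

/-- Moves. -/
noncomputable def t1_19 : List Mv := [
  mz,
  ⟨⟨-75, 20, 43, -10, -21, -70, -12, 60, -13⟩, (.cons (nat_lit 27719) (nat_lit 10310) (nat_lit 23255) (nat_lit
 1) (.cons (nat_lit 2183) (nat_lit 3088) (nat_lit 4696) (nat_lit 1) .nil)), (nat_lit 13), (nat_lit 5), (nat_lit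
 22), (nat_lit 1), (51, 21, 11), [15397, 1149], 50⟩,
  mz,
  ⟨⟨-75, -16, 23, -4, 55, -48, -10, -40, -49⟩, (.cons (nat_lit 15816) (nat_lit 23832) (nat_lit 1326) (nat_lit
 1) (.cons (nat_lit 4114) (nat_lit 1671) (nat_lit 1823) (nat_lit 1) .nil)), (nat_lit 4), (nat_lit 48), (nat_lit
 23), (nat_lit 1), (1, 1, 38), [12571, 2645], 22⟩,
  ⟨⟨27, 68, 16, 64, -15, -62, -6, 48, -43⟩, (.cons (nat_lit 4733) (nat_lit 18083) (nat_lit 15494) (nat_lit 1)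
 (.cons (nat_lit 4658) (nat_lit 1186) (nat_lit 3642) (nat_lit 1) .nil)), (nat_lit 11), (nat_lit 31), (nat_lit
 1), (nat_lit 1), (60, 16, 34), [12540, 342], 11⟩,
  ⟨⟨27, -68, 16, 64, 15, -62, -6, -48, -43⟩, (.cons (nat_lit 14387) (nat_lit 6349) (nat_lit 25301) (nat_lit 1)
 (.cons (nat_lit 3930) (nat_lit 94) (nat_lit 1419) (nat_lit 1) .nil)), (nat_lit 36), (nat_lit 17), (nat_lit
 42), (nat_lit 1), (7, 35, 30), [24038, 3431], 14⟩,
  mz,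
  ⟨⟨-29, 72, 20, 56, 25, -68, -38, 16, -35⟩, (.cons (nat_lit 6102) (nat_lit 2069) (nat_lit 813) (nat_lit 1)
 (.cons (nat_lit 4898) (nat_lit 188) (nat_lit 3186) (nat_lit 1) .nil)), (nat_lit 40), (nat_lit 12), (nat_lit
 1), (nat_lit 1), (33, 44, 31), [19400, 768], 27⟩,
  ⟨⟨23, -72, 9, -64, -25, 12, 26, -32, -67⟩, (.cons (nat_lit 18149) (nat_lit 19602) (nat_lit 283) (nat_lit 1)
 (.cons (nat_lit 2217) (nat_lit 2924) (nat_lit 2549) (nat_lit 1) .nil)), (nat_lit 5), (nat_lit 12), (nat_lit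
 22), (nat_lit 1), (60, 9, 3), [11391, 4580], 2⟩,
  mz,
  mz,
  ⟨⟨-27, 68, 43, 64, 15, -2, 6, 48, -49⟩, (.cons (nat_lit 909) (nat_lit 9308) (nat_lit 5792) (nat_lit 1) (.cons
 (nat_lit 1095) (nat_lit 3789) (nat_lit 3694) (nat_lit 1) .nil)), (nat_lit 25), (nat_lit 48), (nat_lit 20),
 (nat_lit 1), (42, 3, 38), [13718, 3386], 24⟩,
  ⟨⟨9, 76, -20, -44, 15, 82, -42, 24, -25⟩, (.cons (nat_lit 11597) (nat_lit 10279) (nat_lit 12078) (nat_lit 1)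
 (.cons (nat_lit 381) (nat_lit 2442) (nat_lit 1190) (nat_lit 1) .nil)), (nat_lit 36), (nat_lit 24), (nat_lit
 43), (nat_lit 1), (31, 22, 21), [23201, 1983], 14⟩,
  mz,
  mz,
  ⟨⟨-9, 76, -11, 44, 15, 38, 42, 24, -67⟩, (.cons (nat_lit 9111) (nat_lit 9789) (nat_lit 18740) (nat_lit 1)
 (.cons (nat_lit 4942) (nat_lit 2411) (nat_lit 3399) (nat_lit 1) .nil)), (nat_lit 17), (nat_lit 32), (nat_lit
 31), (nat_lit 1), (25, 4, 49), [20201, 1578], 46⟩,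
  ⟨⟨17, 24, -89, -36, -55, -12, 54, -24, -53⟩, (.cons (nat_lit 29) (nat_lit 11676) (nat_lit 7704) (nat_lit 1)
 (.cons (nat_lit 2888) (nat_lit 4686) (nat_lit 1661) (nat_lit 1) .nil)), (nat_lit 32), (nat_lit 25), (nat_lit
 24), (nat_lit 1), (7, 52, 64), [18336, 2295], 48⟩,
  mz,
  ⟨⟨9, 56, -64, -56, -25, -12, 38, -16, -73⟩, (.cons (nat_lit 26543) (nat_lit 11792) (nat_lit 1340) (nat_lit 1)
 (.cons (nat_lit 3600) (nat_lit 115) (nat_lit 2053) (nat_lit 1) .nil)), (nat_lit 24), (nat_lit 37), (nat_lit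
 6), (nat_lit 1), (56, 46, 55), [13682, 609], 13⟩,
  ⟨⟨-61, -48, 25, -44, 55, 32, -22, -8, -55⟩, (.cons (nat_lit 432) (nat_lit 29439) (nat_lit 319) (nat_lit 1)
 (.cons (nat_lit 885) (nat_lit 3698) (nat_lit 1119) (nat_lit 1) .nil)), (nat_lit 16), (nat_lit 25), (nat_lit
 4), (nat_lit 1), (9, 3, 37), [19132, 1484], 25⟩,
  mz,
  mz,
  ⟨⟨17, -24, 72, -36, 55, 48, 54, 24, -1⟩, (.cons (nat_lit 29790) (nat_lit 24561) (nat_lit 21750) (nat_lit 1)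
 (.cons (nat_lit 4330) (nat_lit 4166) (nat_lit 1804) (nat_lit 1) .nil)), (nat_lit 52), (nat_lit 14), (nat_lit
 9), (nat_lit 1), (28, 66, 43), [2044, 44], 7⟩,
  ⟨⟨-61, 48, 25, 44, 55, -32, -22, 8, -55⟩, (.cons (nat_lit 23227) (nat_lit 6955) (nat_lit 8919) (nat_lit 1)
 (.cons (nat_lit 3039) (nat_lit 4132) (nat_lit 952) (nat_lit 1) .nil)), (nat_lit 46), (nat_lit 42), (nat_lit
 47), (nat_lit 1), (13, 43, 14), [5675, 1355], 11⟩,
  ⟨⟨61, -48, -36, 44, 55, -12, 22, -8, -77⟩, (.cons (nat_lit 1616) (nat_lit 25942) (nat_lit 29767) (nat_lit 1)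
 (.cons (nat_lit 1429) (nat_lit 4533) (nat_lit 1751) (nat_lit 1) .nil)), (nat_lit 16), (nat_lit 26), (nat_lit
 48), (nat_lit 1), (26, 56, 28), [9104, 1320], 22⟩,
  mz,
  ⟨⟨51, -4, 40, 10, -69, -20, 60, 12, -49⟩, (.cons (nat_lit 19009) (nat_lit 4259) (nat_lit 1) (nat_lit 14415)
 (.cons (nat_lit 4832) (nat_lit 4434) (nat_lit 3130) (nat_lit 1) .nil)), (nat_lit 17), (nat_lit 49), (nat_lit
 29), (nat_lit 1), (60, 41, 33), [29156, 4285], 9⟩,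
  mz,
  mz,
  ⟨⟨-13, -72, 36, 70, -11, -30, -4, -44, -49⟩, (.cons (nat_lit 3872) (nat_lit 6700) (nat_lit 2423) (nat_lit 1)
 (.cons (nat_lit 1837) (nat_lit 1195) (nat_lit 1) (nat_lit 3195) .nil)), (nat_lit 51), (nat_lit 35), (nat_lit
 13), (nat_lit 1), (29, 35, 69), [517, 4745], 11⟩,
  mz,
  ⟨⟨-11, 72, -25, 50, -11, -80, -44, 4, -29⟩, (.cons (nat_lit 25776) (nat_lit 5978) (nat_lit 2226) (nat_lit 1)
 (.cons (nat_lit 1101) (nat_lit 3638) (nat_lit 3681) (nat_lit 1) .nil)), (nat_lit 10), (nat_lit 15), (nat_lit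
 51), (nat_lit 1), (44, 13, 34), [5631, 3560], 31⟩,
  mz,
  ⟨⟨-29, -72, 20, -56, 25, 68, -38, -16, -35⟩, (.cons (nat_lit 7391) (nat_lit 6756) (nat_lit 1) (nat_lit 4092)
 (.cons (nat_lit 3447) (nat_lit 1332) (nat_lit 3344) (nat_lit 1) .nil)), (nat_lit 38), (nat_lit 9), (nat_lit
 17), (nat_lit 1), (27, 35, 6), [13503, 442], 50⟩,
  ⟨⟨75, 20, -32, 10, -21, -80, 12, 60, -25⟩, (.cons (nat_lit 23236) (nat_lit 25293) (nat_lit 26433) (nat_lit 1)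
 (.cons (nat_lit 3179) (nat_lit 4361) (nat_lit 427) (nat_lit 1) .nil)), (nat_lit 0), (nat_lit 41), (nat_lit
 13), (nat_lit 1), (30, 4, 19), [23505, 1161], 52⟩,
  mz,
  ⟨⟨3, -40, -76, 64, -25, -12, 26, 32, -67⟩, (.cons (nat_lit 25396) (nat_lit 12853) (nat_lit 29164) (nat_lit 1)
 (.cons (nat_lit 554) (nat_lit 3966) (nat_lit 2625) (nat_lit 1) .nil)), (nat_lit 24), (nat_lit 11), (nat_lit
 25), (nat_lit 1), (58, 54, 53), [3080, 531], 13⟩,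
  mz,
  ⟨⟨17, -24, -89, -36, 55, -12, 54, 24, -53⟩, (.cons (nat_lit 17098) (nat_lit 21403) (nat_lit 3033) (nat_lit 1)
 (.cons (nat_lit 4185) (nat_lit 5006) (nat_lit 4447) (nat_lit 1) .nil)), (nat_lit 12), (nat_lit 47), (nat_lit
 16), (nat_lit 1), (5, 27, 66), [1699, 3559], 36⟩,
  ⟨⟨-23, -72, 32, 64, -25, -52, -26, -32, -41⟩, (.cons (nat_lit 26700) (nat_lit 14679) (nat_lit 991) (nat_lit
 1) (.cons (nat_lit 4464) (nat_lit 2391) (nat_lit 1952) (nat_lit 1) .nil)), (nat_lit 42), (nat_lit 36),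
 (nat_lit 13), (nat_lit 1), (21, 28, 33), [15864, 4884], 36⟩,
  mz,
  mz,
  ⟨⟨75, 16, -52, 4, -55, -52, 10, 40, -59⟩, (.cons (nat_lit 20024) (nat_lit 19104) (nat_lit 11829) (nat_lit 1)
 (.cons (nat_lit 4002) (nat_lit 1655) (nat_lit 398) (nat_lit 1) .nil)), (nat_lit 24), (nat_lit 14), (nat_lit
 27), (nat_lit 1), (5, 5, 48), [13225, 642], 41⟩,
  ⟨⟨33, 68, -37, -50, 11, -30, 44, -4, -73⟩, (.cons (nat_lit 1783) (nat_lit 6136) (nat_lit 8674) (nat_lit 1)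
 (.cons (nat_lit 4907) (nat_lit 3138) (nat_lit 2453) (nat_lit 1) .nil)), (nat_lit 34), (nat_lit 17), (nat_lit
 28), (nat_lit 1), (65, 22, 63), [3529, 41], 6⟩,
  ⟨⟨-39, -40, -41, -44, 55, 12, 22, 8, -77⟩, (.cons (nat_lit 21033) (nat_lit 15448) (nat_lit 23239) (nat_lit 1)
 (.cons (nat_lit 2834) (nat_lit 3656) (nat_lit 762) (nat_lit 1) .nil)), (nat_lit 10), (nat_lit 15), (nat_lit
 13), (nat_lit 1), (46, 61, 5), [15416, 4635], 9⟩,
  mz,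
  ⟨⟨-9, -76, -11, -44, 15, -38, 42, -24, -67⟩, (.cons (nat_lit 17475) (nat_lit 20196) (nat_lit 28926) (nat_lit
 1) (.cons (nat_lit 4528) (nat_lit 5031) (nat_lit 3554) (nat_lit 1) .nil)), (nat_lit 31), (nat_lit 30),
 (nat_lit 41), (nat_lit 1), (66, 15, 47), [8349, 4781], 42⟩,
  ⟨⟨51, 4, -91, 10, 69, 10, 60, -12, -11⟩, (.cons (nat_lit 4848) (nat_lit 7129) (nat_lit 18195) (nat_lit 1)
 (.cons (nat_lit 2037) (nat_lit 4520) (nat_lit 3659) (nat_lit 1) .nil)), (nat_lit 8), (nat_lit 18), (nat_lit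
 5), (nat_lit 1), (45, 13, 7), [13451, 2878], 8⟩,
  ⟨⟨9, -16, -89, -10, -69, 20, 60, -12, -49⟩, (.cons (nat_lit 11018) (nat_lit 11545) (nat_lit 20920) (nat_lit
 1) (.cons (nat_lit 3729) (nat_lit 1199) (nat_lit 1664) (nat_lit 1) .nil)), (nat_lit 20), (nat_lit 11),
 (nat_lit 6), (nat_lit 1), (19, 42, 32), [14178, 212], 33⟩,
  ⟨⟨9, -56, -64, -56, 25, -12, 38, 16, -73⟩, (.cons (nat_lit 20305) (nat_lit 8333) (nat_lit 8728) (nat_lit 1)
 (.cons (nat_lit 1617) (nat_lit 4009) (nat_lit 3515) (nat_lit 1) .nil)), (nat_lit 7), (nat_lit 38), (nat_lit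
 9), (nat_lit 1), (4, 54, 9), [4359, 4618], 12⟩,
  ⟨⟨65, 24, -72, -4, -55, -48, -10, 40, -49⟩, (.cons (nat_lit 19032) (nat_lit 17710) (nat_lit 19949) (nat_lit
 1) (.cons (nat_lit 533) (nat_lit 4828) (nat_lit 4201) (nat_lit 1) .nil)), (nat_lit 24), (nat_lit 23), (nat_lit
 51), (nat_lit 1), (39, 26, 65), [20169, 3089], 41⟩,
  ⟨⟨9, -76, -20, 44, 15, -82, -42, -24, -25⟩, (.cons (nat_lit 7276) (nat_lit 25852) (nat_lit 26219) (nat_lit 1)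
 (.cons (nat_lit 4198) (nat_lit 2702) (nat_lit 3885) (nat_lit 1) .nil)), (nat_lit 35), (nat_lit 51), (nat_lit
 12), (nat_lit 1), (1, 68, 19), [15707, 2751], 51⟩,
  mz,
  ⟨⟨13, -72, 23, 70, 11, -40, 4, -44, -53⟩, (.cons (nat_lit 29390) (nat_lit 17674) (nat_lit 22518) (nat_lit 1)
 (.cons (nat_lit 4841) (nat_lit 1750) (nat_lit 2908) (nat_lit 1) .nil)), (nat_lit 39), (nat_lit 26), (nat_lit
 21), (nat_lit 1), (14, 59, 48), [7761, 2831], 10⟩,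
  ⟨⟨9, 16, 80, -10, 69, -10, 60, 12, -11⟩, (.cons (nat_lit 1581) (nat_lit 14340) (nat_lit 11590) (nat_lit 1)
 (.cons (nat_lit 4177) (nat_lit 2304) (nat_lit 3089) (nat_lit 1) .nil)), (nat_lit 25), (nat_lit 40), (nat_lit
 16), (nat_lit 1), (58, 46, 8), [4622, 28], 46⟩,
  ⟨⟨75, -20, -32, -10, -21, 80, 12, -60, -25⟩, (.cons (nat_lit 29182) (nat_lit 1490) (nat_lit 10557) (nat_lit
 1) (.cons (nat_lit 3993) (nat_lit 2116) (nat_lit 1527) (nat_lit 1) .nil)), (nat_lit 4), (nat_lit 48), (nat_lit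
 1), (nat_lit 0), (52, 12, 14), [26112, 4142], 37⟩,
  mz,
  ⟨⟨-33, 68, -4, -50, -11, 80, -44, -4, -29⟩, (.cons (nat_lit 3004) (nat_lit 27763) (nat_lit 16221) (nat_lit 1)
 (.cons (nat_lit 2624) (nat_lit 1676) (nat_lit 853) (nat_lit 1) .nil)), (nat_lit 51), (nat_lit 15), (nat_lit
 48), (nat_lit 1), (43, 63, 10), [10096, 401], 11⟩,
  ⟨⟨-75, -20, 43, -10, 21, -70, -12, -60, -13⟩, (.cons (nat_lit 27980) (nat_lit 24448) (nat_lit 4706) (nat_lit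
 1) (.cons (nat_lit 2500) (nat_lit 553) (nat_lit 252) (nat_lit 1) .nil)), (nat_lit 22), (nat_lit 0), (nat_lit
 7), (nat_lit 1), (2, 5, 6), [126, 4292], 25⟩,
  mz,
  mz,
  mz,
  ⟨⟨33, -68, -37, -50, -11, -30, 44, 4, -73⟩, (.cons (nat_lit 28226) (nat_lit 20949) (nat_lit 9460) (nat_lit 1)
 (.cons (nat_lit 1677) (nat_lit 212) (nat_lit 1812) (nat_lit 1) .nil)), (nat_lit 1), (nat_lit 43), (nat_lit
 31), (nat_lit 1), (12, 27, 16), [19710, 649], 33⟩,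
  mz,
  ⟨⟨-13, 72, 36, -70, -11, 30, -4, 44, -49⟩, (.cons (nat_lit 12761) (nat_lit 19091) (nat_lit 2795) (nat_lit 1)
 (.cons (nat_lit 3831) (nat_lit 2815) (nat_lit 170) (nat_lit 1) .nil)), (nat_lit 42), (nat_lit 17), (nat_lit
 22), (nat_lit 1), (35, 41, 49), [9515, 865], 40⟩,
  ⟨⟨75, -16, -52, 4, 55, -52, 10, -40, -59⟩, (.cons (nat_lit 29790) (nat_lit 4943) (nat_lit 3072) (nat_lit 1)
 (.cons (nat_lit 321) (nat_lit 2803) (nat_lit 1402) (nat_lit 1) .nil)), (nat_lit 52), (nat_lit 16), (nat_lit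
 20), (nat_lit 1), (51, 51, 21), [21188, 2546], 1⟩,
  mz,
  ⟨⟨33, 20, -92, 64, -15, -2, 6, -48, -49⟩, (.cons (nat_lit 3568) (nat_lit 29056) (nat_lit 24554) (nat_lit 1)
 (.cons (nat_lit 267) (nat_lit 40) (nat_lit 5010) (nat_lit 1) .nil)), (nat_lit 29), (nat_lit 44), (nat_lit 30),
 (nat_lit 1), (45, 55, 34), [24789, 1507], 29⟩,
  ⟨⟨13, 72, 23, 70, -11, -40, 4, 44, -53⟩, (.cons (nat_lit 26768) (nat_lit 28362) (nat_lit 4423) (nat_lit 1)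
 (.cons (nat_lit 5039) (nat_lit 856) (nat_lit 4397) (nat_lit 1) .nil)), (nat_lit 10), (nat_lit 14), (nat_lit
 13), (nat_lit 1), (20, 64, 28), [5228, 1793], 31⟩,
  ⟨⟨-3, -40, -73, -64, -25, 52, -26, 32, -41⟩, (.cons (nat_lit 10777) (nat_lit 27643) (nat_lit 3041) (nat_lit
 1) (.cons (nat_lit 2539) (nat_lit 3914) (nat_lit 3862) (nat_lit 1) .nil)), (nat_lit 32), (nat_lit 52),
 (nat_lit 17), (nat_lit 1), (56, 35, 12), [10932, 4630], 34⟩,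
  ⟨⟨37, -48, -73, 36, 55, -48, 54, -24, -1⟩, (.cons (nat_lit 14554) (nat_lit 9056) (nat_lit 24634) (nat_lit 1)
 (.cons (nat_lit 3354) (nat_lit 2953) (nat_lit 944) (nat_lit 1) .nil)), (nat_lit 5), (nat_lit 45), (nat_lit
 33), (nat_lit 1), (11, 51, 41), [19999, 3395], 19⟩]

/-- Moves. -/
noncomputable def t4_1 : List Mv := [
  mz,
  mz,
  mz,
  mz,
  ⟨⟨51, 20, -47, 10, -47, -30, -2, 20, -47⟩, (.cons (nat_lit 10625) (nat_lit 23156) (nat_lit 23961) (nat_lit 1)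
 (.cons (nat_lit 4169) (nat_lit 3973) (nat_lit 4779) (nat_lit 1) .nil)), (nat_lit 15), (nat_lit 0), (nat_lit
 0), (nat_lit 0), (24, 39, 24), [5484, 4568], 0⟩,
  ⟨⟨51, -20, -47, 10, 47, -30, -2, -20, -47⟩, (.cons (nat_lit 25165) (nat_lit 9726) (nat_lit 16368) (nat_lit 1)
 (.cons (nat_lit 4465) (nat_lit 1185) (nat_lit 3043) (nat_lit 1) .nil)), (nat_lit 15), (nat_lit 0), (nat_lit
 0), (nat_lit 0), (12, 46, 12), [3316, 1505], 0⟩,
  ⟨⟨15, 56, -11, -28, 5, -36, 40, 8, -47⟩, (.cons (nat_lit 17861) (nat_lit 10711) (nat_lit 19638) (nat_lit 1)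
 (.cons (nat_lit 1709) (nat_lit 3407) (nat_lit 3260) (nat_lit 1) .nil)), (nat_lit 28), (nat_lit 0), (nat_lit
 0), (nat_lit 0), (1, 37, 38), [15741, 3887], 0⟩,
  mz,
  mz,
  ⟨⟨57, -4, -17, 8, 45, -34, 24, -24, -49⟩, (.cons (nat_lit 29790) (nat_lit 6487) (nat_lit 3726) (nat_lit 1)
 (.cons (nat_lit 5040) (nat_lit 1386) (nat_lit 2382) (nat_lit 1) .nil)), (nat_lit 9), (nat_lit 0), (nat_lit 0),
 (nat_lit 0), (7, 14, 42), [26839, 3899], 0⟩,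
  ⟨⟨-25, 48, -11, 28, -5, -64, -40, -8, -7⟩, (.cons (nat_lit 15996) (nat_lit 16527) (nat_lit 3678) (nat_lit 1)
 (.cons (nat_lit 2723) (nat_lit 1140) (nat_lit 507) (nat_lit 1) .nil)), (nat_lit 36), (nat_lit 0), (nat_lit 0),
 (nat_lit 0), (52, 52, 9), [27535, 4388], 0⟩,
  ⟨⟨15, -32, 44, 50, 17, -30, 14, -44, -19⟩, (.cons (nat_lit 2341) (nat_lit 8739) (nat_lit 29772) (nat_lit 1)
 (.cons (nat_lit 1712) (nat_lit 3542) (nat_lit 1130) (nat_lit 1) .nil)), (nat_lit 41), (nat_lit 0), (nat_lit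
 0), (nat_lit 0), (29, 26, 20), [13054, 61], 0⟩,
  ⟨⟨-51, 20, 4, -10, -47, -20, 2, 20, -49⟩, (.cons (nat_lit 27613) (nat_lit 2468) (nat_lit 1) (nat_lit 15376)
 (.cons (nat_lit 5024) (nat_lit 3352) (nat_lit 3554) (nat_lit 1) .nil)), (nat_lit 15), (nat_lit 0), (nat_lit
 0), (nat_lit 0), (48, 25, 48), [6835, 34], 0⟩,
  mz,
  mz,
  ⟨⟨-51, -20, 4, -10, 47, -20, 2, -20, -49⟩, (.cons (nat_lit 29790) (nat_lit 4096) (nat_lit 18508) (nat_lit 1)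
 (.cons (nat_lit 5040) (nat_lit 3207) (nat_lit 4071) (nat_lit 1) .nil)), (nat_lit 15), (nat_lit 0), (nat_lit
 0), (nat_lit 0), (36, 32, 36), [17622, 871], 0⟩,
  ⟨⟨15, 52, 16, 10, 17, -60, 46, 4, -11⟩, (.cons (nat_lit 21510) (nat_lit 16433) (nat_lit 25270) (nat_lit 1)
 (.cons (nat_lit 4895) (nat_lit 3399) (nat_lit 4500) (nat_lit 1) .nil)), (nat_lit 44), (nat_lit 0), (nat_lit
 0), (nat_lit 0), (24, 16, 10), [27233, 823], 0⟩,
  ⟨⟨31, -48, -4, -10, -17, -50, 46, 4, -35⟩, (.cons (nat_lit 14779) (nat_lit 14187) (nat_lit 916) (nat_lit 1)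
 (.cons (nat_lit 2680) (nat_lit 4865) (nat_lit 1472) (nat_lit 1) .nil)), (nat_lit 11), (nat_lit 0), (nat_lit
 0), (nat_lit 0), (18, 13, 25), [26165, 24], 0⟩,
  ⟨⟨-57, -4, 40, -8, 45, -26, -24, -24, -25⟩, (.cons (nat_lit 17494) (nat_lit 19807) (nat_lit 1076) (nat_lit 1)
 (.cons (nat_lit 3354) (nat_lit 4299) (nat_lit 4511) (nat_lit 1) .nil)), (nat_lit 9), (nat_lit 0), (nat_lit 0),
 (nat_lit 0), (12, 24, 19), [5621, 3082], 0⟩,
  mz,
  mz,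
  ⟨⟨-33, 20, -32, 8, -45, -34, 24, 24, -49⟩, (.cons (nat_lit 21633) (nat_lit 20182) (nat_lit 26662) (nat_lit 1)
 (.cons (nat_lit 3901) (nat_lit 4749) (nat_lit 674) (nat_lit 1) .nil)), (nat_lit 18), (nat_lit 0), (nat_lit 0),
 (nat_lit 0), (47, 40, 14), [22443, 3974], 0⟩,
  ⟨⟨-45, -28, -4, 28, -45, -14, 0, 0, -53⟩, (.cons (nat_lit 1303) (nat_lit 18094) (nat_lit 5600) (nat_lit 1)
 (.cons (nat_lit 2983) (nat_lit 1571) (nat_lit 3687) (nat_lit 1) .nil)), (nat_lit 31), (nat_lit 0), (nat_lit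
 0), (nat_lit 0), (29, 22, 0), [15108, 2035], 0⟩,
  mz,
  ⟨⟨43, -12, 20, 30, -17, -60, 30, 36, -7⟩, (.cons (nat_lit 27486) (nat_lit 11973) (nat_lit 7872) (nat_lit 1)
 (.cons (nat_lit 2349) (nat_lit 3103) (nat_lit 1611) (nat_lit 1) .nil)), (nat_lit 46), (nat_lit 0), (nat_lit
 0), (nat_lit 0), (37, 48, 48), [24711, 4942], 0⟩,
  mz,
  ⟨⟨-25, -48, -11, 28, 5, -64, -40, 8, -7⟩, (.cons (nat_lit 5817) (nat_lit 14157) (nat_lit 117) (nat_lit 1)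
 (.cons (nat_lit 1464) (nat_lit 3490) (nat_lit 3948) (nat_lit 1) .nil)), (nat_lit 36), (nat_lit 0), (nat_lit
 0), (nat_lit 0), (2, 2, 35), [12880, 159], 0⟩,
  mz,
  ⟨⟨-1, -48, 37, 52, 5, -16, 8, -40, -31⟩, (.cons (nat_lit 25848) (nat_lit 19626) (nat_lit 5825) (nat_lit 1)
 (.cons (nat_lit 2755) (nat_lit 57) (nat_lit 1762) (nat_lit 1) .nil)), (nat_lit 6), (nat_lit 0), (nat_lit 0),
 (nat_lit 0), (29, 29, 33), [24548, 4921], 0⟩,
  ⟨⟨43, -12, -63, -30, 17, -30, 30, 36, -23⟩, (.cons (nat_lit 9369) (nat_lit 8893) (nat_lit 14531) (nat_lit 1)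
 (.cons (nat_lit 2843) (nat_lit 1933) (nat_lit 1) (nat_lit 4331) .nil)), (nat_lit 24), (nat_lit 0), (nat_lit
 0), (nat_lit 0), (16, 48, 5), [29520, 1424], 0⟩,
  mz,
  ⟨⟨-45, 28, -4, -28, -45, 14, 0, 0, -53⟩, (.cons (nat_lit 25607) (nat_lit 6365) (nat_lit 14674) (nat_lit 1)
 (.cons (nat_lit 2060) (nat_lit 62) (nat_lit 1567) (nat_lit 1) .nil)), (nat_lit 22), (nat_lit 0), (nat_lit 0),
 (nat_lit 0), (14, 4, 0), [22021, 4023], 0⟩,
  mz,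
  ⟨⟨-39, 28, -17, 10, -33, -50, 18, 36, -37⟩, (.cons (nat_lit 10876) (nat_lit 19420) (nat_lit 20457) (nat_lit
 1) (.cons (nat_lit 2490) (nat_lit 3254) (nat_lit 1437) (nat_lit 1) .nil)), (nat_lit 50), (nat_lit 0), (nat_lit
 0), (nat_lit 0), (43, 8, 25), [27396, 1348], 0⟩,
  mz,
  mz,
  ⟨⟨-9, 8, -59, 52, -5, -36, -8, -40, -23⟩, (.cons (nat_lit 26057) (nat_lit 14657) (nat_lit 1) (nat_lit 1891)
 (.cons (nat_lit 4456) (nat_lit 1488) (nat_lit 4217) (nat_lit 1) .nil)), (nat_lit 10), (nat_lit 0), (nat_lit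
 0), (nat_lit 0), (2, 12, 43), [29396, 4687], 0⟩,
  ⟨⟨-1, 48, 37, 52, -5, -16, 8, 40, -31⟩, (.cons (nat_lit 15221) (nat_lit 8256) (nat_lit 27071) (nat_lit 1)
 (.cons (nat_lit 4214) (nat_lit 2716) (nat_lit 1154) (nat_lit 1) .nil)), (nat_lit 6), (nat_lit 0), (nat_lit 0),
 (nat_lit 0), (26, 26, 4), [7075, 1619], 0⟩,
  ⟨⟨-57, 8, 37, 10, 33, 40, -18, 36, -19⟩, (.cons (nat_lit 2310) (nat_lit 27650) (nat_lit 7288) (nat_lit 1)
 (.cons (nat_lit 821) (nat_lit 2499) (nat_lit 2705) (nat_lit 1) .nil)), (nat_lit 33), (nat_lit 0), (nat_lit 0),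
 (nat_lit 0), (40, 6, 21), [26121, 2961], 0⟩,
  ⟨⟨15, -56, -11, -28, -5, -36, 40, -8, -47⟩, (.cons (nat_lit 22347) (nat_lit 19000) (nat_lit 27248) (nat_lit
 1) (.cons (nat_lit 1264) (nat_lit 860) (nat_lit 1026) (nat_lit 1) .nil)), (nat_lit 28), (nat_lit 0), (nat_lit
 0), (nat_lit 0), (31, 34, 12), [18973, 1736], 0⟩,
  ⟨⟨-9, -8, -59, -52, -5, 36, -8, 40, -23⟩, (.cons (nat_lit 1453) (nat_lit 17964) (nat_lit 8240) (nat_lit 1)
 (.cons (nat_lit 4672) (nat_lit 2571) (nat_lit 4935) (nat_lit 1) .nil)), (nat_lit 26), (nat_lit 0), (nat_lit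
 0), (nat_lit 0), (29, 38, 14), [869, 2020], 0⟩,
  ⟨⟨31, 48, -4, -10, 17, -50, 46, -4, -35⟩, (.cons (nat_lit 21392) (nat_lit 23628) (nat_lit 19165) (nat_lit 1)
 (.cons (nat_lit 2494) (nat_lit 3125) (nat_lit 4740) (nat_lit 1) .nil)), (nat_lit 11), (nat_lit 0), (nat_lit
 0), (nat_lit 0), (15, 2, 12), [4259, 1249], 0⟩,
  ⟨⟨-57, 4, 40, -8, -45, -26, -24, 24, -25⟩, (.cons (nat_lit 6404) (nat_lit 14823) (nat_lit 12534) (nat_lit 1)
 (.cons (nat_lit 348) (nat_lit 2647) (nat_lit 1936) (nat_lit 1) .nil)), (nat_lit 9), (nat_lit 0), (nat_lit 0),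
 (nat_lit 0), (25, 50, 44), [28232, 1057], 0⟩,
  ⟨⟨-1, 12, -63, 50, -17, -30, 14, 44, -19⟩, (.cons (nat_lit 29050) (nat_lit 20768) (nat_lit 12686) (nat_lit 1)
 (.cons (nat_lit 3367) (nat_lit 3259) (nat_lit 518) (nat_lit 1) .nil)), (nat_lit 16), (nat_lit 0), (nat_lit 0),
 (nat_lit 0), (30, 37, 4), [22070, 2902], 0⟩,
  ⟨⟨1, 12, -64, 50, 17, -20, -14, 44, -5⟩, (.cons (nat_lit 4342) (nat_lit 10807) (nat_lit 10056) (nat_lit 1)
 (.cons (nat_lit 3914) (nat_lit 3065) (nat_lit 2099) (nat_lit 1) .nil)), (nat_lit 48), (nat_lit 0), (nat_lit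
 0), (nat_lit 0), (42, 33, 48), [1438, 3095], 0⟩,
  mz,
  ⟨⟨-13, -48, -27, 30, 17, -60, 30, -36, -7⟩, (.cons (nat_lit 19012) (nat_lit 11715) (nat_lit 11275) (nat_lit
 1) (.cons (nat_lit 1907) (nat_lit 3941) (nat_lit 2245) (nat_lit 1) .nil)), (nat_lit 29), (nat_lit 0), (nat_lit
 0), (nat_lit 0), (14, 37, 37), [20498, 4268], 0⟩,
  ⟨⟨-15, -32, 59, -50, 17, 20, -14, -44, -5⟩, (.cons (nat_lit 28814) (nat_lit 26426) (nat_lit 18749) (nat_lit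
 1) (.cons (nat_lit 2187) (nat_lit 1257) (nat_lit 4170) (nat_lit 1) .nil)), (nat_lit 41), (nat_lit 0), (nat_lit
 0), (nat_lit 0), (8, 9, 11), [26575, 4949], 0⟩,
  ⟨⟨15, -52, 16, 10, -17, -60, 46, -4, -11⟩, (.cons (nat_lit 14772) (nat_lit 8965) (nat_lit 20485) (nat_lit 1)
 (.cons (nat_lit 1570) (nat_lit 2105) (nat_lit 1384) (nat_lit 1) .nil)), (nat_lit 44), (nat_lit 0), (nat_lit
 0), (nat_lit 0), (14, 27, 50), [8336, 2424], 0⟩,
  ⟨⟨-39, -28, -17, -10, -33, 50, 18, -36, -37⟩, (.cons (nat_lit 11938) (nat_lit 7334) (nat_lit 15443) (nat_lit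
 1) (.cons (nat_lit 3292) (nat_lit 1112) (nat_lit 2661) (nat_lit 1) .nil)), (nat_lit 38), (nat_lit 0), (nat_lit
 0), (nat_lit 0), (5, 4, 14), [10129, 104], 0⟩,
  ⟨⟨39, -28, -56, -10, 33, -40, -18, -36, -19⟩, (.cons (nat_lit 29790) (nat_lit 17372) (nat_lit 476) (nat_lit
 1) (.cons (nat_lit 5040) (nat_lit 1579) (nat_lit 4834) (nat_lit 1) .nil)), (nat_lit 50), (nat_lit 0), (nat_lit
 0), (nat_lit 0), (49, 35, 10), [5468, 2761], 0⟩,
  mz,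
  ⟨⟨-13, -48, 40, -30, -17, -30, 30, -36, -23⟩, (.cons (nat_lit 29790) (nat_lit 23808) (nat_lit 19108) (nat_lit
 1) (.cons (nat_lit 5040) (nat_lit 4381) (nat_lit 2618) (nat_lit 1) .nil)), (nat_lit 52), (nat_lit 0), (nat_lit
 0), (nat_lit 0), (45, 6, 47), [25522, 2781], 0⟩]

/-- Moves. -/
noncomputable def t4_4 : List Mv := [
  mz,
  mz,
  mz,
  mz,
  ⟨⟨-53, 0, 0, -10, 47, 30, -2, 20, -47⟩, (.cons (nat_lit 29790) (nat_lit 1349) (nat_lit 14299) (nat_lit 1)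
 (.cons (nat_lit 5040) (nat_lit 29) (nat_lit 2113) (nat_lit 1) .nil)), (nat_lit 4), (nat_lit 0), (nat_lit 0),
 (nat_lit 0), (0, 14, 24), [2091, 3711], 0⟩,
  ⟨⟨51, -20, -47, -10, -47, 30, -2, -20, -47⟩, (.cons (nat_lit 26768) (nat_lit 13221) (nat_lit 278) (nat_lit 1)
 (.cons (nat_lit 886) (nat_lit 2219) (nat_lit 649) (nat_lit 1) .nil)), (nat_lit 12), (nat_lit 0), (nat_lit 0),
 (nat_lit 0), (12, 7, 12), [23662, 427], 0⟩,
  ⟨⟨15, 56, -11, 28, -5, 36, 40, 8, -47⟩, (.cons (nat_lit 18937) (nat_lit 29087) (nat_lit 1) (nat_lit 12152)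
 (.cons (nat_lit 2042) (nat_lit 4069) (nat_lit 2720) (nat_lit 1) .nil)), (nat_lit 37), (nat_lit 0), (nat_lit
 0), (nat_lit 0), (1, 16, 38), [1011, 1208], 0⟩,
  mz,
  mz,
  ⟨⟨-33, -20, -32, 8, 45, -34, 24, -24, -49⟩, (.cons (nat_lit 23216) (nat_lit 14564) (nat_lit 14233) (nat_lit
 1) (.cons (nat_lit 756) (nat_lit 1401) (nat_lit 2441) (nat_lit 1) .nil)), (nat_lit 18), (nat_lit 0), (nat_lit
 0), (nat_lit 0), (35, 14, 42), [24952, 2363], 0⟩,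
  ⟨⟨-25, 48, -11, 28, -5, -64, -40, -8, -7⟩, (.cons (nat_lit 15996) (nat_lit 16527) (nat_lit 3678) (nat_lit 1)
 (.cons (nat_lit 2723) (nat_lit 1140) (nat_lit 507) (nat_lit 1) .nil)), (nat_lit 36), (nat_lit 0), (nat_lit 0),
 (nat_lit 0), (52, 52, 9), [27535, 4388], 0⟩,
  ⟨⟨15, -32, 44, 50, 17, -30, 14, -44, -19⟩, (.cons (nat_lit 2341) (nat_lit 8739) (nat_lit 29772) (nat_lit 1)
 (.cons (nat_lit 1712) (nat_lit 3542) (nat_lit 1130) (nat_lit 1) .nil)), (nat_lit 41), (nat_lit 0), (nat_lit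
 0), (nat_lit 0), (29, 26, 20), [13054, 61], 0⟩,
  ⟨⟨53, 0, -53, -10, -47, -20, 2, 20, -49⟩, (.cons (nat_lit 5361) (nat_lit 24799) (nat_lit 28983) (nat_lit 1)
 (.cons (nat_lit 165) (nat_lit 1858) (nat_lit 3817) (nat_lit 1) .nil)), (nat_lit 5), (nat_lit 0), (nat_lit 0),
 (nat_lit 0), (0, 25, 48), [18822, 529], 0⟩,
  mz,
  mz,
  ⟨⟨-51, -20, 4, -10, 47, -20, 2, -20, -49⟩, (.cons (nat_lit 29790) (nat_lit 4096) (nat_lit 18508) (nat_lit 1)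
 (.cons (nat_lit 5040) (nat_lit 3207) (nat_lit 4071) (nat_lit 1) .nil)), (nat_lit 15), (nat_lit 0), (nat_lit
 0), (nat_lit 0), (36, 32, 36), [17622, 871], 0⟩,
  ⟨⟨31, -48, -27, 10, 17, -60, 46, 4, -11⟩, (.cons (nat_lit 10654) (nat_lit 25276) (nat_lit 5123) (nat_lit 1)
 (.cons (nat_lit 2388) (nat_lit 812) (nat_lit 3102) (nat_lit 1) .nil)), (nat_lit 43), (nat_lit 0), (nat_lit 0),
 (nat_lit 0), (39, 16, 10), [7268, 3670], 0⟩,
  ⟨⟨31, -48, -4, -10, -17, -50, 46, 4, -35⟩, (.cons (nat_lit 14779) (nat_lit 14187) (nat_lit 916) (nat_lit 1)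
 (.cons (nat_lit 2680) (nat_lit 4865) (nat_lit 1472) (nat_lit 1) .nil)), (nat_lit 11), (nat_lit 0), (nat_lit
 0), (nat_lit 0), (18, 13, 25), [26165, 24], 0⟩,
  ⟨⟨-57, -4, 40, -8, 45, -26, -24, -24, -25⟩, (.cons (nat_lit 17494) (nat_lit 19807) (nat_lit 1076) (nat_lit 1)
 (.cons (nat_lit 3354) (nat_lit 4299) (nat_lit 4511) (nat_lit 1) .nil)), (nat_lit 9), (nat_lit 0), (nat_lit 0),
 (nat_lit 0), (12, 24, 19), [5621, 3082], 0⟩,
  mz,
  mz,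
  ⟨⟨57, 4, -17, -8, 45, 34, 24, 24, -49⟩, (.cons (nat_lit 29790) (nat_lit 27512) (nat_lit 22222) (nat_lit 1)
 (.cons (nat_lit 5040) (nat_lit 4120) (nat_lit 36) (nat_lit 1) .nil)), (nat_lit 21), (nat_lit 0), (nat_lit 0),
 (nat_lit 0), (20, 13, 14), [10648, 2094], 0⟩,
  ⟨⟨45, 28, -49, 28, -45, -14, 0, 0, -53⟩, (.cons (nat_lit 29790) (nat_lit 7041) (nat_lit 11447) (nat_lit 1)
 (.cons (nat_lit 5040) (nat_lit 4392) (nat_lit 1801) (nat_lit 1) .nil)), (nat_lit 22), (nat_lit 0), (nat_lit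
 0), (nat_lit 0), (24, 22, 0), [20106, 95], 0⟩,
  mz,
  ⟨⟨-13, 48, -27, 30, -17, -60, 30, 36, -7⟩, (.cons (nat_lit 3202) (nat_lit 4810) (nat_lit 5280) (nat_lit 1)
 (.cons (nat_lit 3124) (nat_lit 1604) (nat_lit 4236) (nat_lit 1) .nil)), (nat_lit 29), (nat_lit 0), (nat_lit
 0), (nat_lit 0), (11, 48, 48), [22478, 2737], 0⟩,
  mz,
  ⟨⟨-25, -48, -11, -28, -5, 64, -40, 8, -7⟩, (.cons (nat_lit 16546) (nat_lit 22254) (nat_lit 14367) (nat_lit 1)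
 (.cons (nat_lit 4194) (nat_lit 4966) (nat_lit 956) (nat_lit 1) .nil)), (nat_lit 40), (nat_lit 0), (nat_lit 0),
 (nat_lit 0), (2, 51, 35), [11782, 4705], 0⟩,
  mz,
  ⟨⟨-1, -48, 37, 52, 5, -16, 8, -40, -31⟩, (.cons (nat_lit 25848) (nat_lit 19626) (nat_lit 5825) (nat_lit 1)
 (.cons (nat_lit 2755) (nat_lit 57) (nat_lit 1762) (nat_lit 1) .nil)), (nat_lit 6), (nat_lit 0), (nat_lit 0),
 (nat_lit 0), (29, 29, 33), [24548, 4921], 0⟩,
  ⟨⟨43, -12, -63, -30, 17, -30, 30, 36, -23⟩, (.cons (nat_lit 9369) (nat_lit 8893) (nat_lit 14531) (nat_lit 1)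
 (.cons (nat_lit 2843) (nat_lit 1933) (nat_lit 1) (nat_lit 4331) .nil)), (nat_lit 24), (nat_lit 0), (nat_lit
 0), (nat_lit 0), (16, 48, 5), [29520, 1424], 0⟩,
  mz,
  ⟨⟨-45, 28, -4, -28, -45, 14, 0, 0, -53⟩, (.cons (nat_lit 25607) (nat_lit 6365) (nat_lit 14674) (nat_lit 1)
 (.cons (nat_lit 2060) (nat_lit 62) (nat_lit 1567) (nat_lit 1) .nil)), (nat_lit 22), (nat_lit 0), (nat_lit 0),
 (nat_lit 0), (14, 4, 0), [22021, 4023], 0⟩,
  mz,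
  ⟨⟨-39, 28, -17, 10, -33, -50, 18, 36, -37⟩, (.cons (nat_lit 10876) (nat_lit 19420) (nat_lit 20457) (nat_lit
 1) (.cons (nat_lit 2490) (nat_lit 3254) (nat_lit 1437) (nat_lit 1) .nil)), (nat_lit 50), (nat_lit 0), (nat_lit
 0), (nat_lit 0), (43, 8, 25), [27396, 1348], 0⟩,
  mz,
  mz,
  ⟨⟨-9, 8, -59, 52, -5, -36, -8, -40, -23⟩, (.cons (nat_lit 26057) (nat_lit 14657) (nat_lit 1) (nat_lit 1891)
 (.cons (nat_lit 4456) (nat_lit 1488) (nat_lit 4217) (nat_lit 1) .nil)), (nat_lit 10), (nat_lit 0), (nat_lit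
 0), (nat_lit 0), (2, 12, 43), [29396, 4687], 0⟩,
  ⟨⟨-1, 48, 37, 52, -5, -16, 8, 40, -31⟩, (.cons (nat_lit 15221) (nat_lit 8256) (nat_lit 27071) (nat_lit 1)
 (.cons (nat_lit 4214) (nat_lit 2716) (nat_lit 1154) (nat_lit 1) .nil)), (nat_lit 6), (nat_lit 0), (nat_lit 0),
 (nat_lit 0), (26, 26, 4), [7075, 1619], 0⟩,
  ⟨⟨39, 28, -56, -10, -33, -40, -18, 36, -19⟩, (.cons (nat_lit 20112) (nat_lit 24219) (nat_lit 23893) (nat_lit
 1) (.cons (nat_lit 3329) (nat_lit 719) (nat_lit 936) (nat_lit 1) .nil)), (nat_lit 50), (nat_lit 0), (nat_lit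
 0), (nat_lit 0), (34, 47, 21), [10089, 1966], 0⟩,
  ⟨⟨25, 48, -36, 28, 5, 36, 40, -8, -47⟩, (.cons (nat_lit 25611) (nat_lit 19897) (nat_lit 26155) (nat_lit 1)
 (.cons (nat_lit 4338) (nat_lit 2128) (nat_lit 2075) (nat_lit 1) .nil)), (nat_lit 40), (nat_lit 0), (nat_lit
 0), (nat_lit 0), (34, 19, 12), [17627, 4694], 0⟩,
  ⟨⟨1, 48, 36, 52, 5, -36, -8, 40, -23⟩, (.cons (nat_lit 9201) (nat_lit 23189) (nat_lit 29334) (nat_lit 1)
 (.cons (nat_lit 4747) (nat_lit 548) (nat_lit 89) (nat_lit 1) .nil)), (nat_lit 39), (nat_lit 0), (nat_lit 0),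
 (nat_lit 0), (38, 15, 14), [22043, 658], 0⟩,
  ⟨⟨31, 48, -4, 10, -17, 50, 46, -4, -35⟩, (.cons (nat_lit 7717) (nat_lit 15216) (nat_lit 27508) (nat_lit 1)
 (.cons (nat_lit 2457) (nat_lit 2543) (nat_lit 2813) (nat_lit 1) .nil)), (nat_lit 43), (nat_lit 0), (nat_lit
 0), (nat_lit 0), (15, 51, 12), [28911, 4479], 0⟩,
  ⟨⟨-57, 4, 40, -8, -45, -26, -24, 24, -25⟩, (.cons (nat_lit 6404) (nat_lit 14823) (nat_lit 12534) (nat_lit 1)
 (.cons (nat_lit 348) (nat_lit 2647) (nat_lit 1936) (nat_lit 1) .nil)), (nat_lit 9), (nat_lit 0), (nat_lit 0),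
 (nat_lit 0), (25, 50, 44), [28232, 1057], 0⟩,
  ⟨⟨-1, 12, -63, -50, 17, 30, 14, 44, -19⟩, (.cons (nat_lit 18412) (nat_lit 24391) (nat_lit 211) (nat_lit 1)
 (.cons (nat_lit 857) (nat_lit 2656) (nat_lit 153) (nat_lit 1) .nil)), (nat_lit 48), (nat_lit 0), (nat_lit 0),
 (nat_lit 0), (30, 16, 4), [24367, 2741], 0⟩,
  ⟨⟨-15, 32, 59, 50, 17, -20, -14, 44, -5⟩, (.cons (nat_lit 10658) (nat_lit 10560) (nat_lit 16967) (nat_lit 1)
 (.cons (nat_lit 1965) (nat_lit 4275) (nat_lit 2635) (nat_lit 1) .nil)), (nat_lit 17), (nat_lit 0), (nat_lit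
 0), (nat_lit 0), (6, 33, 48), [27863, 3994], 0⟩,
  mz,
  ⟨⟨43, 12, 20, -30, -17, 60, 30, -36, -7⟩, (.cons (nat_lit 14553) (nat_lit 4490) (nat_lit 14970) (nat_lit 1)
 (.cons (nat_lit 4556) (nat_lit 2737) (nat_lit 5021) (nat_lit 1) .nil)), (nat_lit 24), (nat_lit 0), (nat_lit
 0), (nat_lit 0), (23, 16, 37), [23414, 2145], 0⟩,
  ⟨⟨-15, -32, 59, 50, -17, -20, -14, -44, -5⟩, (.cons (nat_lit 6841) (nat_lit 3352) (nat_lit 27891) (nat_lit 1)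
 (.cons (nat_lit 4092) (nat_lit 1139) (nat_lit 317) (nat_lit 1) .nil)), (nat_lit 17), (nat_lit 0), (nat_lit 0),
 (nat_lit 0), (8, 44, 11), [10340, 590], 0⟩,
  ⟨⟨15, -52, 16, 10, -17, -60, 46, -4, -11⟩, (.cons (nat_lit 14772) (nat_lit 8965) (nat_lit 20485) (nat_lit 1)
 (.cons (nat_lit 1570) (nat_lit 2105) (nat_lit 1384) (nat_lit 1) .nil)), (nat_lit 44), (nat_lit 0), (nat_lit
 0), (nat_lit 0), (14, 27, 50), [8336, 2424], 0⟩,
  ⟨⟨57, -8, -20, -10, -33, 50, 18, -36, -37⟩, (.cons (nat_lit 2564) (nat_lit 1669) (nat_lit 12358) (nat_lit 1)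
 (.cons (nat_lit 3186) (nat_lit 4783) (nat_lit 1820) (nat_lit 1) .nil)), (nat_lit 33), (nat_lit 0), (nat_lit
 0), (nat_lit 0), (9, 4, 14), [16076, 1768], 0⟩,
  ⟨⟨39, -28, -56, -10, 33, -40, -18, -36, -19⟩, (.cons (nat_lit 29790) (nat_lit 17372) (nat_lit 476) (nat_lit
 1) (.cons (nat_lit 5040) (nat_lit 1579) (nat_lit 4834) (nat_lit 1) .nil)), (nat_lit 50), (nat_lit 0), (nat_lit
 0), (nat_lit 0), (49, 35, 10), [5468, 2761], 0⟩,
  mz,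
  ⟨⟨43, 12, -63, -30, -17, -30, 30, -36, -23⟩, (.cons (nat_lit 26264) (nat_lit 17128) (nat_lit 21680) (nat_lit
 1) (.cons (nat_lit 3841) (nat_lit 3024) (nat_lit 2274) (nat_lit 1) .nil)), (nat_lit 24), (nat_lit 0), (nat_lit
 0), (nat_lit 0), (2, 6, 47), [26348, 2377], 0⟩]

/-- Moves. -/
noncomputable def t4_6 : List Mv := [
  mz,
  mz,
  mz,
  mz,
  ⟨⟨-53, 0, 0, -10, 47, 30, -2, 20, -47⟩, (.cons (nat_lit 29790) (nat_lit 1349) (nat_lit 14299) (nat_lit 1)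
 (.cons (nat_lit 5040) (nat_lit 29) (nat_lit 2113) (nat_lit 1) .nil)), (nat_lit 4), (nat_lit 0), (nat_lit 0),
 (nat_lit 0), (0, 14, 24), [2091, 3711], 0⟩,
  ⟨⟨51, -20, -47, 10, 47, -30, -2, -20, -47⟩, (.cons (nat_lit 25165) (nat_lit 9726) (nat_lit 16368) (nat_lit 1)
 (.cons (nat_lit 4465) (nat_lit 1185) (nat_lit 3043) (nat_lit 1) .nil)), (nat_lit 15), (nat_lit 0), (nat_lit
 0), (nat_lit 0), (12, 46, 12), [3316, 1505], 0⟩,
  ⟨⟨15, 56, -11, -28, 5, -36, 40, 8, -47⟩, (.cons (nat_lit 17861) (nat_lit 10711) (nat_lit 19638) (nat_lit 1)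
 (.cons (nat_lit 1709) (nat_lit 3407) (nat_lit 3260) (nat_lit 1) .nil)), (nat_lit 28), (nat_lit 0), (nat_lit
 0), (nat_lit 0), (1, 37, 38), [15741, 3887], 0⟩,
  mz,
  mz,
  ⟨⟨-33, -20, -32, 8, 45, -34, 24, -24, -49⟩, (.cons (nat_lit 23216) (nat_lit 14564) (nat_lit 14233) (nat_lit
 1) (.cons (nat_lit 756) (nat_lit 1401) (nat_lit 2441) (nat_lit 1) .nil)), (nat_lit 18), (nat_lit 0), (nat_lit
 0), (nat_lit 0), (35, 14, 42), [24952, 2363], 0⟩,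
  ⟨⟨-25, 48, -11, 28, -5, -64, -40, -8, -7⟩, (.cons (nat_lit 15996) (nat_lit 16527) (nat_lit 3678) (nat_lit 1)
 (.cons (nat_lit 2723) (nat_lit 1140) (nat_lit 507) (nat_lit 1) .nil)), (nat_lit 36), (nat_lit 0), (nat_lit 0),
 (nat_lit 0), (52, 52, 9), [27535, 4388], 0⟩,
  ⟨⟨15, -32, 44, 50, 17, -30, 14, -44, -19⟩, (.cons (nat_lit 2341) (nat_lit 8739) (nat_lit 29772) (nat_lit 1)
 (.cons (nat_lit 1712) (nat_lit 3542) (nat_lit 1130) (nat_lit 1) .nil)), (nat_lit 41), (nat_lit 0), (nat_lit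
 0), (nat_lit 0), (29, 26, 20), [13054, 61], 0⟩,
  ⟨⟨53, 0, -53, -10, -47, -20, 2, 20, -49⟩, (.cons (nat_lit 5361) (nat_lit 24799) (nat_lit 28983) (nat_lit 1)
 (.cons (nat_lit 165) (nat_lit 1858) (nat_lit 3817) (nat_lit 1) .nil)), (nat_lit 5), (nat_lit 0), (nat_lit 0),
 (nat_lit 0), (0, 25, 48), [18822, 529], 0⟩,
  mz,
  mz,
  ⟨⟨-51, -20, 4, 10, -47, 20, 2, -20, -49⟩, (.cons (nat_lit 27869) (nat_lit 15731) (nat_lit 10327) (nat_lit 1)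
 (.cons (nat_lit 593) (nat_lit 3459) (nat_lit 4657) (nat_lit 1) .nil)), (nat_lit 12), (nat_lit 0), (nat_lit 0),
 (nat_lit 0), (36, 21, 36), [798, 3855], 0⟩,
  ⟨⟨15, 52, 16, 10, 17, -60, 46, 4, -11⟩, (.cons (nat_lit 21510) (nat_lit 16433) (nat_lit 25270) (nat_lit 1)
 (.cons (nat_lit 4895) (nat_lit 3399) (nat_lit 4500) (nat_lit 1) .nil)), (nat_lit 44), (nat_lit 0), (nat_lit
 0), (nat_lit 0), (24, 16, 10), [27233, 823], 0⟩,
  ⟨⟨15, 52, -31, 10, 17, 50, 46, 4, -35⟩, (.cons (nat_lit 19938) (nat_lit 17508) (nat_lit 18550) (nat_lit 1)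
 (.cons (nat_lit 1883) (nat_lit 652) (nat_lit 3680) (nat_lit 1) .nil)), (nat_lit 44), (nat_lit 0), (nat_lit 0),
 (nat_lit 0), (7, 40, 25), [25301, 2206], 0⟩,
  ⟨⟨-57, -4, 40, -8, 45, -26, -24, -24, -25⟩, (.cons (nat_lit 17494) (nat_lit 19807) (nat_lit 1076) (nat_lit 1)
 (.cons (nat_lit 3354) (nat_lit 4299) (nat_lit 4511) (nat_lit 1) .nil)), (nat_lit 9), (nat_lit 0), (nat_lit 0),
 (nat_lit 0), (12, 24, 19), [5621, 3082], 0⟩,
  mz,
  mz,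
  ⟨⟨-33, 20, -32, -8, 45, 34, 24, 24, -49⟩, (.cons (nat_lit 11188) (nat_lit 22880) (nat_lit 10621) (nat_lit 1)
 (.cons (nat_lit 2176) (nat_lit 77) (nat_lit 4352) (nat_lit 1) .nil)), (nat_lit 42), (nat_lit 0), (nat_lit 0),
 (nat_lit 0), (47, 13, 14), [1361, 3357], 0⟩,
  ⟨⟨45, 28, -49, -28, 45, 14, 0, 0, -53⟩, (.cons (nat_lit 19128) (nat_lit 22768) (nat_lit 902) (nat_lit 1)
 (.cons (nat_lit 1279) (nat_lit 2854) (nat_lit 2209) (nat_lit 1) .nil)), (nat_lit 31), (nat_lit 0), (nat_lit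
 0), (nat_lit 0), (24, 31, 0), [2142, 2901], 0⟩,
  mz,
  ⟨⟨-13, 48, -27, 30, -17, -60, 30, 36, -7⟩, (.cons (nat_lit 3202) (nat_lit 4810) (nat_lit 5280) (nat_lit 1)
 (.cons (nat_lit 3124) (nat_lit 1604) (nat_lit 4236) (nat_lit 1) .nil)), (nat_lit 29), (nat_lit 0), (nat_lit
 0), (nat_lit 0), (11, 48, 48), [22478, 2737], 0⟩,
  mz,
  ⟨⟨-15, 56, 4, 28, 5, -64, -40, 8, -7⟩, (.cons (nat_lit 23151) (nat_lit 28772) (nat_lit 21361) (nat_lit 1)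
 (.cons (nat_lit 4250) (nat_lit 2205) (nat_lit 4738) (nat_lit 1) .nil)), (nat_lit 28), (nat_lit 0), (nat_lit
 0), (nat_lit 0), (33, 2, 35), [22415, 516], 0⟩,
  mz,
  ⟨⟨9, 8, -68, -52, -5, 16, 8, -40, -31⟩, (.cons (nat_lit 18399) (nat_lit 12064) (nat_lit 22814) (nat_lit 1)
 (.cons (nat_lit 827) (nat_lit 1411) (nat_lit 2699) (nat_lit 1) .nil)), (nat_lit 10), (nat_lit 0), (nat_lit 0),
 (nat_lit 0), (4, 24, 33), [23267, 4256], 0⟩,
  ⟨⟨43, -12, -63, -30, 17, -30, 30, 36, -23⟩, (.cons (nat_lit 9369) (nat_lit 8893) (nat_lit 14531) (nat_lit 1)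
 (.cons (nat_lit 2843) (nat_lit 1933) (nat_lit 1) (nat_lit 4331) .nil)), (nat_lit 24), (nat_lit 0), (nat_lit
 0), (nat_lit 0), (16, 48, 5), [29520, 1424], 0⟩,
  mz,
  ⟨⟨45, -28, -49, -28, -45, 14, 0, 0, -53⟩, (.cons (nat_lit 29790) (nat_lit 3605) (nat_lit 3366) (nat_lit 1)
 (.cons (nat_lit 5040) (nat_lit 3865) (nat_lit 2518) (nat_lit 1) .nil)), (nat_lit 31), (nat_lit 0), (nat_lit
 0), (nat_lit 0), (39, 4, 0), [3265, 398], 0⟩,
  mz,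
  ⟨⟨57, 8, -20, 10, -33, -50, 18, 36, -37⟩, (.cons (nat_lit 6007) (nat_lit 13884) (nat_lit 4666) (nat_lit 1)
 (.cons (nat_lit 2761) (nat_lit 1557) (nat_lit 857) (nat_lit 1) .nil)), (nat_lit 49), (nat_lit 0), (nat_lit 0),
 (nat_lit 0), (35, 8, 25), [7361, 4877], 0⟩,
  mz,
  mz,
  ⟨⟨-9, 8, -59, 52, -5, -36, -8, -40, -23⟩, (.cons (nat_lit 26057) (nat_lit 14657) (nat_lit 1) (nat_lit 1891)
 (.cons (nat_lit 4456) (nat_lit 1488) (nat_lit 4217) (nat_lit 1) .nil)), (nat_lit 10), (nat_lit 0), (nat_lit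
 0), (nat_lit 0), (2, 12, 43), [29396, 4687], 0⟩,
  ⟨⟨-1, 48, 37, 52, -5, -16, 8, 40, -31⟩, (.cons (nat_lit 15221) (nat_lit 8256) (nat_lit 27071) (nat_lit 1)
 (.cons (nat_lit 4214) (nat_lit 2716) (nat_lit 1154) (nat_lit 1) .nil)), (nat_lit 6), (nat_lit 0), (nat_lit 0),
 (nat_lit 0), (26, 26, 4), [7075, 1619], 0⟩,
  ⟨⟨39, 28, -56, -10, -33, -40, -18, 36, -19⟩, (.cons (nat_lit 20112) (nat_lit 24219) (nat_lit 23893) (nat_lit
 1) (.cons (nat_lit 3329) (nat_lit 719) (nat_lit 936) (nat_lit 1) .nil)), (nat_lit 50), (nat_lit 0), (nat_lit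
 0), (nat_lit 0), (34, 47, 21), [10089, 1966], 0⟩,
  ⟨⟨15, -56, -11, 28, 5, 36, 40, -8, -47⟩, (.cons (nat_lit 12104) (nat_lit 11271) (nat_lit 187) (nat_lit 1)
 (.cons (nat_lit 4920) (nat_lit 2166) (nat_lit 3824) (nat_lit 1) .nil)), (nat_lit 37), (nat_lit 0), (nat_lit
 0), (nat_lit 0), (31, 19, 12), [4521, 3521], 0⟩,
  ⟨⟨-9, -8, -59, 52, 5, -36, -8, 40, -23⟩, (.cons (nat_lit 15319) (nat_lit 18902) (nat_lit 10727) (nat_lit 1)
 (.cons (nat_lit 3058) (nat_lit 3454) (nat_lit 3510) (nat_lit 1) .nil)), (nat_lit 10), (nat_lit 0), (nat_lit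
 0), (nat_lit 0), (29, 15, 14), [6937, 834], 0⟩,
  ⟨⟨31, 48, -4, -10, 17, -50, 46, -4, -35⟩, (.cons (nat_lit 21392) (nat_lit 23628) (nat_lit 19165) (nat_lit 1)
 (.cons (nat_lit 2494) (nat_lit 3125) (nat_lit 4740) (nat_lit 1) .nil)), (nat_lit 11), (nat_lit 0), (nat_lit
 0), (nat_lit 0), (15, 2, 12), [4259, 1249], 0⟩,
  ⟨⟨-57, 4, 40, -8, -45, -26, -24, 24, -25⟩, (.cons (nat_lit 6404) (nat_lit 14823) (nat_lit 12534) (nat_lit 1)
 (.cons (nat_lit 348) (nat_lit 2647) (nat_lit 1936) (nat_lit 1) .nil)), (nat_lit 9), (nat_lit 0), (nat_lit 0),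
 (nat_lit 0), (25, 50, 44), [28232, 1057], 0⟩,
  ⟨⟨15, 32, 44, -50, 17, 30, 14, 44, -19⟩, (.cons (nat_lit 7527) (nat_lit 24560) (nat_lit 5749) (nat_lit 1)
 (.cons (nat_lit 2604) (nat_lit 479) (nat_lit 1010) (nat_lit 1) .nil)), (nat_lit 17), (nat_lit 0), (nat_lit 0),
 (nat_lit 0), (27, 16, 4), [26218, 439], 0⟩,
  ⟨⟨-15, 32, 59, 50, 17, -20, -14, 44, -5⟩, (.cons (nat_lit 10658) (nat_lit 10560) (nat_lit 16967) (nat_lit 1)
 (.cons (nat_lit 1965) (nat_lit 4275) (nat_lit 2635) (nat_lit 1) .nil)), (nat_lit 17), (nat_lit 0), (nat_lit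
 0), (nat_lit 0), (6, 33, 48), [27863, 3994], 0⟩,
  mz,
  ⟨⟨-13, -48, -27, 30, 17, -60, 30, -36, -7⟩, (.cons (nat_lit 19012) (nat_lit 11715) (nat_lit 11275) (nat_lit
 1) (.cons (nat_lit 1907) (nat_lit 3941) (nat_lit 2245) (nat_lit 1) .nil)), (nat_lit 29), (nat_lit 0), (nat_lit
 0), (nat_lit 0), (14, 37, 37), [20498, 4268], 0⟩,
  ⟨⟨-15, -32, 59, 50, -17, -20, -14, -44, -5⟩, (.cons (nat_lit 6841) (nat_lit 3352) (nat_lit 27891) (nat_lit 1)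
 (.cons (nat_lit 4092) (nat_lit 1139) (nat_lit 317) (nat_lit 1) .nil)), (nat_lit 17), (nat_lit 0), (nat_lit 0),
 (nat_lit 0), (8, 44, 11), [10340, 590], 0⟩,
  ⟨⟨31, 48, -27, 10, -17, -60, 46, -4, -11⟩, (.cons (nat_lit 18460) (nat_lit 3314) (nat_lit 7561) (nat_lit 1)
 (.cons (nat_lit 3394) (nat_lit 3885) (nat_lit 4982) (nat_lit 1) .nil)), (nat_lit 43), (nat_lit 0), (nat_lit
 0), (nat_lit 0), (36, 27, 50), [10687, 2009], 0⟩,
  ⟨⟨-39, -28, -17, 10, 33, -50, 18, -36, -37⟩, (.cons (nat_lit 5489) (nat_lit 17636) (nat_lit 15198) (nat_lit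
 1) (.cons (nat_lit 4844) (nat_lit 1261) (nat_lit 4175) (nat_lit 1) .nil)), (nat_lit 50), (nat_lit 0), (nat_lit
 0), (nat_lit 0), (5, 49, 14), [20009, 1298], 0⟩,
  ⟨⟨39, -28, -56, 10, -33, 40, -18, -36, -19⟩, (.cons (nat_lit 5571) (nat_lit 29181) (nat_lit 28076) (nat_lit
 1) (.cons (nat_lit 2547) (nat_lit 3631) (nat_lit 401) (nat_lit 1) .nil)), (nat_lit 38), (nat_lit 0), (nat_lit
 0), (nat_lit 0), (49, 18, 10), [22245, 1910], 0⟩,
  mz,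
  ⟨⟨43, 12, -63, 30, 17, 30, 30, -36, -23⟩, (.cons (nat_lit 16281) (nat_lit 20383) (nat_lit 1) (nat_lit 1643)
 (.cons (nat_lit 906) (nat_lit 1769) (nat_lit 470) (nat_lit 1) .nil)), (nat_lit 46), (nat_lit 0), (nat_lit 0),
 (nat_lit 0), (2, 47, 47), [1477, 240], 0⟩]

/-- Moves. -/
noncomputable def t4_8 : List Mv := [
  mz,
  mz,
  mz,
  mz,
  ⟨⟨-53, 0, 0, 10, -47, -30, -2, 20, -47⟩, (.cons (nat_lit 12452) (nat_lit 12885) (nat_lit 1) (nat_lit 25823)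
 (.cons (nat_lit 4527) (nat_lit 2123) (nat_lit 3653) (nat_lit 1) .nil)), (nat_lit 5), (nat_lit 0), (nat_lit 0),
 (nat_lit 0), (0, 39, 24), [14638, 886], 0⟩,
  ⟨⟨-53, 0, 0, -10, -47, 30, -2, -20, -47⟩, (.cons (nat_lit 1550) (nat_lit 9643) (nat_lit 6352) (nat_lit 1)
 (.cons (nat_lit 3717) (nat_lit 3015) (nat_lit 2253) (nat_lit 1) .nil)), (nat_lit 4), (nat_lit 0), (nat_lit 0),
 (nat_lit 0), (0, 7, 12), [25970, 4636], 0⟩,
  ⟨⟨15, 56, -11, 28, -5, 36, 40, 8, -47⟩, (.cons (nat_lit 18937) (nat_lit 29087) (nat_lit 1) (nat_lit 12152)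
 (.cons (nat_lit 2042) (nat_lit 4069) (nat_lit 2720) (nat_lit 1) .nil)), (nat_lit 37), (nat_lit 0), (nat_lit
 0), (nat_lit 0), (1, 16, 38), [1011, 1208], 0⟩,
  mz,
  mz,
  ⟨⟨-33, -20, -32, 8, 45, -34, 24, -24, -49⟩, (.cons (nat_lit 23216) (nat_lit 14564) (nat_lit 14233) (nat_lit
 1) (.cons (nat_lit 756) (nat_lit 1401) (nat_lit 2441) (nat_lit 1) .nil)), (nat_lit 18), (nat_lit 0), (nat_lit
 0), (nat_lit 0), (35, 14, 42), [24952, 2363], 0⟩,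
  ⟨⟨-25, 48, -11, 28, -5, -64, -40, -8, -7⟩, (.cons (nat_lit 15996) (nat_lit 16527) (nat_lit 3678) (nat_lit 1)
 (.cons (nat_lit 2723) (nat_lit 1140) (nat_lit 507) (nat_lit 1) .nil)), (nat_lit 36), (nat_lit 0), (nat_lit 0),
 (nat_lit 0), (52, 52, 9), [27535, 4388], 0⟩,
  ⟨⟨15, -32, 44, 50, 17, -30, 14, -44, -19⟩, (.cons (nat_lit 2341) (nat_lit 8739) (nat_lit 29772) (nat_lit 1)
 (.cons (nat_lit 1712) (nat_lit 3542) (nat_lit 1130) (nat_lit 1) .nil)), (nat_lit 41), (nat_lit 0), (nat_lit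
 0), (nat_lit 0), (29, 26, 20), [13054, 61], 0⟩,
  ⟨⟨-51, 20, 4, -10, -47, -20, 2, 20, -49⟩, (.cons (nat_lit 27613) (nat_lit 2468) (nat_lit 1) (nat_lit 15376)
 (.cons (nat_lit 5024) (nat_lit 3352) (nat_lit 3554) (nat_lit 1) .nil)), (nat_lit 15), (nat_lit 0), (nat_lit
 0), (nat_lit 0), (48, 25, 48), [6835, 34], 0⟩,
  mz,
  mz,
  ⟨⟨-51, -20, 4, -10, 47, -20, 2, -20, -49⟩, (.cons (nat_lit 29790) (nat_lit 4096) (nat_lit 18508) (nat_lit 1)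
 (.cons (nat_lit 5040) (nat_lit 3207) (nat_lit 4071) (nat_lit 1) .nil)), (nat_lit 15), (nat_lit 0), (nat_lit
 0), (nat_lit 0), (36, 32, 36), [17622, 871], 0⟩,
  ⟨⟨31, -48, -27, 10, 17, -60, 46, 4, -11⟩, (.cons (nat_lit 10654) (nat_lit 25276) (nat_lit 5123) (nat_lit 1)
 (.cons (nat_lit 2388) (nat_lit 812) (nat_lit 3102) (nat_lit 1) .nil)), (nat_lit 43), (nat_lit 0), (nat_lit 0),
 (nat_lit 0), (39, 16, 10), [7268, 3670], 0⟩,
  ⟨⟨31, -48, -4, -10, -17, -50, 46, 4, -35⟩, (.cons (nat_lit 14779) (nat_lit 14187) (nat_lit 916) (nat_lit 1)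
 (.cons (nat_lit 2680) (nat_lit 4865) (nat_lit 1472) (nat_lit 1) .nil)), (nat_lit 11), (nat_lit 0), (nat_lit
 0), (nat_lit 0), (18, 13, 25), [26165, 24], 0⟩,
  ⟨⟨-57, -4, 40, -8, 45, -26, -24, -24, -25⟩, (.cons (nat_lit 17494) (nat_lit 19807) (nat_lit 1076) (nat_lit 1)
 (.cons (nat_lit 3354) (nat_lit 4299) (nat_lit 4511) (nat_lit 1) .nil)), (nat_lit 9), (nat_lit 0), (nat_lit 0),
 (nat_lit 0), (12, 24, 19), [5621, 3082], 0⟩,
  mz,
  mz,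
  ⟨⟨-33, 20, -32, 8, -45, -34, 24, 24, -49⟩, (.cons (nat_lit 21633) (nat_lit 20182) (nat_lit 26662) (nat_lit 1)
 (.cons (nat_lit 3901) (nat_lit 4749) (nat_lit 674) (nat_lit 1) .nil)), (nat_lit 18), (nat_lit 0), (nat_lit 0),
 (nat_lit 0), (47, 40, 14), [22443, 3974], 0⟩,
  ⟨⟨45, 28, -49, 28, -45, -14, 0, 0, -53⟩, (.cons (nat_lit 29790) (nat_lit 7041) (nat_lit 11447) (nat_lit 1)
 (.cons (nat_lit 5040) (nat_lit 4392) (nat_lit 1801) (nat_lit 1) .nil)), (nat_lit 22), (nat_lit 0), (nat_lit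
 0), (nat_lit 0), (24, 22, 0), [20106, 95], 0⟩,
  mz,
  ⟨⟨43, -12, 20, -30, 17, 60, 30, 36, -7⟩, (.cons (nat_lit 29790) (nat_lit 11101) (nat_lit 1992) (nat_lit 1)
 (.cons (nat_lit 5040) (nat_lit 3553) (nat_lit 0) (nat_lit 1) .nil)), (nat_lit 24), (nat_lit 0), (nat_lit 0),
 (nat_lit 0), (37, 5, 48), [21289, 53], 0⟩,
  mz,
  ⟨⟨-25, -48, -11, 28, 5, -64, -40, 8, -7⟩, (.cons (nat_lit 5817) (nat_lit 14157) (nat_lit 117) (nat_lit 1)
 (.cons (nat_lit 1464) (nat_lit 3490) (nat_lit 3948) (nat_lit 1) .nil)), (nat_lit 36), (nat_lit 0), (nat_lit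
 0), (nat_lit 0), (2, 2, 35), [12880, 159], 0⟩,
  mz,
  ⟨⟨-1, -48, 37, 52, 5, -16, 8, -40, -31⟩, (.cons (nat_lit 25848) (nat_lit 19626) (nat_lit 5825) (nat_lit 1)
 (.cons (nat_lit 2755) (nat_lit 57) (nat_lit 1762) (nat_lit 1) .nil)), (nat_lit 6), (nat_lit 0), (nat_lit 0),
 (nat_lit 0), (29, 29, 33), [24548, 4921], 0⟩,
  ⟨⟨43, -12, -63, -30, 17, -30, 30, 36, -23⟩, (.cons (nat_lit 9369) (nat_lit 8893) (nat_lit 14531) (nat_lit 1)
 (.cons (nat_lit 2843) (nat_lit 1933) (nat_lit 1) (nat_lit 4331) .nil)), (nat_lit 24), (nat_lit 0), (nat_lit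
 0), (nat_lit 0), (16, 48, 5), [29520, 1424], 0⟩,
  mz,
  ⟨⟨45, -28, -49, 28, 45, -14, 0, 0, -53⟩, (.cons (nat_lit 19314) (nat_lit 3799) (nat_lit 6507) (nat_lit 1)
 (.cons (nat_lit 3764) (nat_lit 4956) (nat_lit 2974) (nat_lit 1) .nil)), (nat_lit 22), (nat_lit 0), (nat_lit
 0), (nat_lit 0), (39, 49, 0), [5583, 3256], 0⟩,
  mz,
  ⟨⟨57, 8, -20, 10, -33, -50, 18, 36, -37⟩, (.cons (nat_lit 6007) (nat_lit 13884) (nat_lit 4666) (nat_lit 1)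
 (.cons (nat_lit 2761) (nat_lit 1557) (nat_lit 857) (nat_lit 1) .nil)), (nat_lit 49), (nat_lit 0), (nat_lit 0),
 (nat_lit 0), (35, 8, 25), [7361, 4877], 0⟩,
  mz,
  mz,
  ⟨⟨-9, 8, -59, -52, 5, 36, -8, -40, -23⟩, (.cons (nat_lit 18862) (nat_lit 17190) (nat_lit 27471) (nat_lit 1)
 (.cons (nat_lit 4707) (nat_lit 1189) (nat_lit 2931) (nat_lit 1) .nil)), (nat_lit 26), (nat_lit 0), (nat_lit
 0), (nat_lit 0), (2, 41, 43), [2258, 3166], 0⟩,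
  ⟨⟨-1, 48, 37, -52, 5, 16, 8, 40, -31⟩, (.cons (nat_lit 8607) (nat_lit 19790) (nat_lit 28996) (nat_lit 1)
 (.cons (nat_lit 2458) (nat_lit 4309) (nat_lit 2073) (nat_lit 1) .nil)), (nat_lit 39), (nat_lit 0), (nat_lit
 0), (nat_lit 0), (26, 27, 4), [18925, 798], 0⟩,
  ⟨⟨39, 28, -56, -10, -33, -40, -18, 36, -19⟩, (.cons (nat_lit 20112) (nat_lit 24219) (nat_lit 23893) (nat_lit
 1) (.cons (nat_lit 3329) (nat_lit 719) (nat_lit 936) (nat_lit 1) .nil)), (nat_lit 50), (nat_lit 0), (nat_lit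
 0), (nat_lit 0), (34, 47, 21), [10089, 1966], 0⟩,
  ⟨⟨15, -56, -11, -28, -5, -36, 40, -8, -47⟩, (.cons (nat_lit 22347) (nat_lit 19000) (nat_lit 27248) (nat_lit
 1) (.cons (nat_lit 1264) (nat_lit 860) (nat_lit 1026) (nat_lit 1) .nil)), (nat_lit 28), (nat_lit 0), (nat_lit
 0), (nat_lit 0), (31, 34, 12), [18973, 1736], 0⟩,
  ⟨⟨-9, -8, -59, 52, 5, -36, -8, 40, -23⟩, (.cons (nat_lit 15319) (nat_lit 18902) (nat_lit 10727) (nat_lit 1)
 (.cons (nat_lit 3058) (nat_lit 3454) (nat_lit 3510) (nat_lit 1) .nil)), (nat_lit 10), (nat_lit 0), (nat_lit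
 0), (nat_lit 0), (29, 15, 14), [6937, 834], 0⟩,
  ⟨⟨31, 48, -4, -10, 17, -50, 46, -4, -35⟩, (.cons (nat_lit 21392) (nat_lit 23628) (nat_lit 19165) (nat_lit 1)
 (.cons (nat_lit 2494) (nat_lit 3125) (nat_lit 4740) (nat_lit 1) .nil)), (nat_lit 11), (nat_lit 0), (nat_lit
 0), (nat_lit 0), (15, 2, 12), [4259, 1249], 0⟩,
  ⟨⟨-57, 4, 40, -8, -45, -26, -24, 24, -25⟩, (.cons (nat_lit 6404) (nat_lit 14823) (nat_lit 12534) (nat_lit 1)
 (.cons (nat_lit 348) (nat_lit 2647) (nat_lit 1936) (nat_lit 1) .nil)), (nat_lit 9), (nat_lit 0), (nat_lit 0),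
 (nat_lit 0), (25, 50, 44), [28232, 1057], 0⟩,
  ⟨⟨-1, 12, -63, 50, -17, -30, 14, 44, -19⟩, (.cons (nat_lit 29050) (nat_lit 20768) (nat_lit 12686) (nat_lit 1)
 (.cons (nat_lit 3367) (nat_lit 3259) (nat_lit 518) (nat_lit 1) .nil)), (nat_lit 16), (nat_lit 0), (nat_lit 0),
 (nat_lit 0), (30, 37, 4), [22070, 2902], 0⟩,
  ⟨⟨1, 12, -64, 50, 17, -20, -14, 44, -5⟩, (.cons (nat_lit 4342) (nat_lit 10807) (nat_lit 10056) (nat_lit 1)
 (.cons (nat_lit 3914) (nat_lit 3065) (nat_lit 2099) (nat_lit 1) .nil)), (nat_lit 48), (nat_lit 0), (nat_lit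
 0), (nat_lit 0), (42, 33, 48), [1438, 3095], 0⟩,
  mz,
  ⟨⟨-13, -48, -27, -30, -17, 60, 30, -36, -7⟩, (.cons (nat_lit 19654) (nat_lit 10403) (nat_lit 21674) (nat_lit
 1) (.cons (nat_lit 3433) (nat_lit 1428) (nat_lit 4651) (nat_lit 1) .nil)), (nat_lit 52), (nat_lit 0), (nat_lit
 0), (nat_lit 0), (14, 16, 37), [2786, 2863], 0⟩,
  ⟨⟨-15, -32, 59, 50, -17, -20, -14, -44, -5⟩, (.cons (nat_lit 6841) (nat_lit 3352) (nat_lit 27891) (nat_lit 1)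
 (.cons (nat_lit 4092) (nat_lit 1139) (nat_lit 317) (nat_lit 1) .nil)), (nat_lit 17), (nat_lit 0), (nat_lit 0),
 (nat_lit 0), (8, 44, 11), [10340, 590], 0⟩,
  ⟨⟨15, -52, 16, 10, -17, -60, 46, -4, -11⟩, (.cons (nat_lit 14772) (nat_lit 8965) (nat_lit 20485) (nat_lit 1)
 (.cons (nat_lit 1570) (nat_lit 2105) (nat_lit 1384) (nat_lit 1) .nil)), (nat_lit 44), (nat_lit 0), (nat_lit
 0), (nat_lit 0), (14, 27, 50), [8336, 2424], 0⟩,
  ⟨⟨57, -8, -20, 10, 33, -50, 18, -36, -37⟩, (.cons (nat_lit 29790) (nat_lit 2393) (nat_lit 26996) (nat_lit 1)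
 (.cons (nat_lit 5040) (nat_lit 261) (nat_lit 3685) (nat_lit 1) .nil)), (nat_lit 49), (nat_lit 0), (nat_lit 0),
 (nat_lit 0), (9, 49, 14), [25898, 66], 0⟩,
  ⟨⟨39, -28, -56, -10, 33, -40, -18, -36, -19⟩, (.cons (nat_lit 29790) (nat_lit 17372) (nat_lit 476) (nat_lit
 1) (.cons (nat_lit 5040) (nat_lit 1579) (nat_lit 4834) (nat_lit 1) .nil)), (nat_lit 50), (nat_lit 0), (nat_lit
 0), (nat_lit 0), (49, 35, 10), [5468, 2761], 0⟩,
  mz,
  ⟨⟨43, 12, -63, 30, 17, 30, 30, -36, -23⟩, (.cons (nat_lit 16281) (nat_lit 20383) (nat_lit 1) (nat_lit 1643)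
 (.cons (nat_lit 906) (nat_lit 1769) (nat_lit 470) (nat_lit 1) .nil)), (nat_lit 46), (nat_lit 0), (nat_lit 0),
 (nat_lit 0), (2, 47, 47), [1477, 240], 0⟩]

/-- Moves. -/
noncomputable def t4_19 : List Mv := [
  mz,
  mz,
  mz,
  mz,
  ⟨⟨51, 20, -47, 10, -47, -30, -2, 20, -47⟩, (.cons (nat_lit 10625) (nat_lit 23156) (nat_lit 23961) (nat_lit 1)
 (.cons (nat_lit 4169) (nat_lit 3973) (nat_lit 4779) (nat_lit 1) .nil)), (nat_lit 15), (nat_lit 0), (nat_lit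
 0), (nat_lit 0), (24, 39, 24), [5484, 4568], 0⟩,
  ⟨⟨51, -20, -47, -10, -47, 30, -2, -20, -47⟩, (.cons (nat_lit 26768) (nat_lit 13221) (nat_lit 278) (nat_lit 1)
 (.cons (nat_lit 886) (nat_lit 2219) (nat_lit 649) (nat_lit 1) .nil)), (nat_lit 12), (nat_lit 0), (nat_lit 0),
 (nat_lit 0), (12, 7, 12), [23662, 427], 0⟩,
  ⟨⟨15, 56, -11, -28, 5, -36, 40, 8, -47⟩, (.cons (nat_lit 17861) (nat_lit 10711) (nat_lit 19638) (nat_lit 1)
 (.cons (nat_lit 1709) (nat_lit 3407) (nat_lit 3260) (nat_lit 1) .nil)), (nat_lit 28), (nat_lit 0), (nat_lit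
 0), (nat_lit 0), (1, 37, 38), [15741, 3887], 0⟩,
  mz,
  mz,
  ⟨⟨-33, -20, -32, -8, -45, 34, 24, -24, -49⟩, (.cons (nat_lit 19580) (nat_lit 19373) (nat_lit 2538) (nat_lit
 1) (.cons (nat_lit 507) (nat_lit 3918) (nat_lit 1443) (nat_lit 1) .nil)), (nat_lit 42), (nat_lit 0), (nat_lit
 0), (nat_lit 0), (35, 39, 42), [6733, 975], 0⟩,
  ⟨⟨-15, -56, 4, 28, -5, -64, -40, -8, -7⟩, (.cons (nat_lit 22508) (nat_lit 8453) (nat_lit 9955) (nat_lit 1)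
 (.cons (nat_lit 2999) (nat_lit 2851) (nat_lit 1545) (nat_lit 1) .nil)), (nat_lit 28), (nat_lit 0), (nat_lit
 0), (nat_lit 0), (10, 52, 9), [7074, 2749], 0⟩,
  ⟨⟨15, -32, 44, 50, 17, -30, 14, -44, -19⟩, (.cons (nat_lit 2341) (nat_lit 8739) (nat_lit 29772) (nat_lit 1)
 (.cons (nat_lit 1712) (nat_lit 3542) (nat_lit 1130) (nat_lit 1) .nil)), (nat_lit 41), (nat_lit 0), (nat_lit
 0), (nat_lit 0), (29, 26, 20), [13054, 61], 0⟩,
  ⟨⟨-51, 20, 4, 10, 47, 20, 2, 20, -49⟩, (.cons (nat_lit 29790) (nat_lit 10339) (nat_lit 14510) (nat_lit 1)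
 (.cons (nat_lit 5040) (nat_lit 2318) (nat_lit 138) (nat_lit 1) .nil)), (nat_lit 12), (nat_lit 0), (nat_lit 0),
 (nat_lit 0), (48, 28, 48), [8140, 4019], 0⟩,
  mz,
  mz,
  ⟨⟨-51, -20, 4, -10, 47, -20, 2, -20, -49⟩, (.cons (nat_lit 29790) (nat_lit 4096) (nat_lit 18508) (nat_lit 1)
 (.cons (nat_lit 5040) (nat_lit 3207) (nat_lit 4071) (nat_lit 1) .nil)), (nat_lit 15), (nat_lit 0), (nat_lit
 0), (nat_lit 0), (36, 32, 36), [17622, 871], 0⟩,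
  ⟨⟨15, 52, 16, 10, 17, -60, 46, 4, -11⟩, (.cons (nat_lit 21510) (nat_lit 16433) (nat_lit 25270) (nat_lit 1)
 (.cons (nat_lit 4895) (nat_lit 3399) (nat_lit 4500) (nat_lit 1) .nil)), (nat_lit 44), (nat_lit 0), (nat_lit
 0), (nat_lit 0), (24, 16, 10), [27233, 823], 0⟩,
  ⟨⟨31, -48, -4, 10, 17, 50, 46, 4, -35⟩, (.cons (nat_lit 21333) (nat_lit 25628) (nat_lit 6130) (nat_lit 1)
 (.cons (nat_lit 4226) (nat_lit 2228) (nat_lit 1467) (nat_lit 1) .nil)), (nat_lit 43), (nat_lit 0), (nat_lit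
 0), (nat_lit 0), (18, 40, 25), [25530, 3171], 0⟩,
  ⟨⟨-57, -4, 40, -8, 45, -26, -24, -24, -25⟩, (.cons (nat_lit 17494) (nat_lit 19807) (nat_lit 1076) (nat_lit 1)
 (.cons (nat_lit 3354) (nat_lit 4299) (nat_lit 4511) (nat_lit 1) .nil)), (nat_lit 9), (nat_lit 0), (nat_lit 0),
 (nat_lit 0), (12, 24, 19), [5621, 3082], 0⟩,
  mz,
  mz,
  ⟨⟨57, 4, -17, -8, 45, 34, 24, 24, -49⟩, (.cons (nat_lit 29790) (nat_lit 27512) (nat_lit 22222) (nat_lit 1)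
 (.cons (nat_lit 5040) (nat_lit 4120) (nat_lit 36) (nat_lit 1) .nil)), (nat_lit 21), (nat_lit 0), (nat_lit 0),
 (nat_lit 0), (20, 13, 14), [10648, 2094], 0⟩,
  ⟨⟨-45, -28, -4, 28, -45, -14, 0, 0, -53⟩, (.cons (nat_lit 1303) (nat_lit 18094) (nat_lit 5600) (nat_lit 1)
 (.cons (nat_lit 2983) (nat_lit 1571) (nat_lit 3687) (nat_lit 1) .nil)), (nat_lit 31), (nat_lit 0), (nat_lit
 0), (nat_lit 0), (29, 22, 0), [15108, 2035], 0⟩,
  mz,
  ⟨⟨43, -12, 20, -30, 17, 60, 30, 36, -7⟩, (.cons (nat_lit 29790) (nat_lit 11101) (nat_lit 1992) (nat_lit 1)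
 (.cons (nat_lit 5040) (nat_lit 3553) (nat_lit 0) (nat_lit 1) .nil)), (nat_lit 24), (nat_lit 0), (nat_lit 0),
 (nat_lit 0), (37, 5, 48), [21289, 53], 0⟩,
  mz,
  ⟨⟨-25, -48, -11, 28, 5, -64, -40, 8, -7⟩, (.cons (nat_lit 5817) (nat_lit 14157) (nat_lit 117) (nat_lit 1)
 (.cons (nat_lit 1464) (nat_lit 3490) (nat_lit 3948) (nat_lit 1) .nil)), (nat_lit 36), (nat_lit 0), (nat_lit
 0), (nat_lit 0), (2, 2, 35), [12880, 159], 0⟩,
  mz,
  ⟨⟨9, 8, -68, 52, 5, -16, 8, -40, -31⟩, (.cons (nat_lit 5523) (nat_lit 27229) (nat_lit 25348) (nat_lit 1)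
 (.cons (nat_lit 3486) (nat_lit 895) (nat_lit 2689) (nat_lit 1) .nil)), (nat_lit 26), (nat_lit 0), (nat_lit 0),
 (nat_lit 0), (4, 29, 33), [24943, 2990], 0⟩,
  ⟨⟨43, -12, -63, -30, 17, -30, 30, 36, -23⟩, (.cons (nat_lit 9369) (nat_lit 8893) (nat_lit 14531) (nat_lit 1)
 (.cons (nat_lit 2843) (nat_lit 1933) (nat_lit 1) (nat_lit 4331) .nil)), (nat_lit 24), (nat_lit 0), (nat_lit
 0), (nat_lit 0), (16, 48, 5), [29520, 1424], 0⟩,
  mz,
  ⟨⟨45, -28, -49, 28, 45, -14, 0, 0, -53⟩, (.cons (nat_lit 19314) (nat_lit 3799) (nat_lit 6507) (nat_lit 1)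
 (.cons (nat_lit 3764) (nat_lit 4956) (nat_lit 2974) (nat_lit 1) .nil)), (nat_lit 22), (nat_lit 0), (nat_lit
 0), (nat_lit 0), (39, 49, 0), [5583, 3256], 0⟩,
  mz,
  ⟨⟨-39, 28, -17, -10, 33, 50, 18, 36, -37⟩, (.cons (nat_lit 374) (nat_lit 26168) (nat_lit 15060) (nat_lit 1)
 (.cons (nat_lit 1578) (nat_lit 3681) (nat_lit 1237) (nat_lit 1) .nil)), (nat_lit 38), (nat_lit 0), (nat_lit
 0), (nat_lit 0), (43, 45, 25), [13592, 730], 0⟩,
  mz,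
  mz,
  ⟨⟨-9, 8, -59, -52, 5, 36, -8, -40, -23⟩, (.cons (nat_lit 18862) (nat_lit 17190) (nat_lit 27471) (nat_lit 1)
 (.cons (nat_lit 4707) (nat_lit 1189) (nat_lit 2931) (nat_lit 1) .nil)), (nat_lit 26), (nat_lit 0), (nat_lit
 0), (nat_lit 0), (2, 41, 43), [2258, 3166], 0⟩,
  ⟨⟨-1, 48, 37, -52, 5, 16, 8, 40, -31⟩, (.cons (nat_lit 8607) (nat_lit 19790) (nat_lit 28996) (nat_lit 1)
 (.cons (nat_lit 2458) (nat_lit 4309) (nat_lit 2073) (nat_lit 1) .nil)), (nat_lit 39), (nat_lit 0), (nat_lit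
 0), (nat_lit 0), (26, 27, 4), [18925, 798], 0⟩,
  ⟨⟨-57, 8, 37, -10, -33, -40, -18, 36, -19⟩, (.cons (nat_lit 3586) (nat_lit 5729) (nat_lit 2871) (nat_lit 1)
 (.cons (nat_lit 1248) (nat_lit 3540) (nat_lit 1091) (nat_lit 1) .nil)), (nat_lit 49), (nat_lit 0), (nat_lit
 0), (nat_lit 0), (40, 47, 21), [16064, 3004], 0⟩,
  ⟨⟨15, -56, -11, 28, 5, 36, 40, -8, -47⟩, (.cons (nat_lit 12104) (nat_lit 11271) (nat_lit 187) (nat_lit 1)
 (.cons (nat_lit 4920) (nat_lit 2166) (nat_lit 3824) (nat_lit 1) .nil)), (nat_lit 37), (nat_lit 0), (nat_lit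
 0), (nat_lit 0), (31, 19, 12), [4521, 3521], 0⟩,
  ⟨⟨-9, -8, -59, 52, 5, -36, -8, 40, -23⟩, (.cons (nat_lit 15319) (nat_lit 18902) (nat_lit 10727) (nat_lit 1)
 (.cons (nat_lit 3058) (nat_lit 3454) (nat_lit 3510) (nat_lit 1) .nil)), (nat_lit 10), (nat_lit 0), (nat_lit
 0), (nat_lit 0), (29, 15, 14), [6937, 834], 0⟩,
  ⟨⟨15, -52, -31, -10, 17, -50, 46, -4, -35⟩, (.cons (nat_lit 1982) (nat_lit 26037) (nat_lit 18650) (nat_lit 1)
 (.cons (nat_lit 786) (nat_lit 34) (nat_lit 4071) (nat_lit 1) .nil)), (nat_lit 47), (nat_lit 0), (nat_lit 0),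
 (nat_lit 0), (50, 2, 12), [9177, 43], 0⟩,
  ⟨⟨-57, 4, 40, 8, 45, 26, -24, 24, -25⟩, (.cons (nat_lit 28654) (nat_lit 7017) (nat_lit 10722) (nat_lit 1)
 (.cons (nat_lit 1295) (nat_lit 1105) (nat_lit 5039) (nat_lit 1) .nil)), (nat_lit 21), (nat_lit 0), (nat_lit
 0), (nat_lit 0), (25, 3, 44), [2149, 4289], 0⟩,
  ⟨⟨15, 32, 44, 50, -17, -30, 14, 44, -19⟩, (.cons (nat_lit 16569) (nat_lit 7329) (nat_lit 22248) (nat_lit 1)
 (.cons (nat_lit 1032) (nat_lit 1985) (nat_lit 600) (nat_lit 1) .nil)), (nat_lit 41), (nat_lit 0), (nat_lit 0),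
 (nat_lit 0), (27, 37, 4), [19868, 4688], 0⟩,
  ⟨⟨-15, 32, 59, 50, 17, -20, -14, 44, -5⟩, (.cons (nat_lit 10658) (nat_lit 10560) (nat_lit 16967) (nat_lit 1)
 (.cons (nat_lit 1965) (nat_lit 4275) (nat_lit 2635) (nat_lit 1) .nil)), (nat_lit 17), (nat_lit 0), (nat_lit
 0), (nat_lit 0), (6, 33, 48), [27863, 3994], 0⟩,
  mz,
  ⟨⟨-13, -48, -27, -30, -17, 60, 30, -36, -7⟩, (.cons (nat_lit 19654) (nat_lit 10403) (nat_lit 21674) (nat_lit
 1) (.cons (nat_lit 3433) (nat_lit 1428) (nat_lit 4651) (nat_lit 1) .nil)), (nat_lit 52), (nat_lit 0), (nat_lit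
 0), (nat_lit 0), (14, 16, 37), [2786, 2863], 0⟩,
  ⟨⟨-15, -32, 59, 50, -17, -20, -14, -44, -5⟩, (.cons (nat_lit 6841) (nat_lit 3352) (nat_lit 27891) (nat_lit 1)
 (.cons (nat_lit 4092) (nat_lit 1139) (nat_lit 317) (nat_lit 1) .nil)), (nat_lit 17), (nat_lit 0), (nat_lit 0),
 (nat_lit 0), (8, 44, 11), [10340, 590], 0⟩,
  ⟨⟨15, -52, 16, 10, -17, -60, 46, -4, -11⟩, (.cons (nat_lit 14772) (nat_lit 8965) (nat_lit 20485) (nat_lit 1)
 (.cons (nat_lit 1570) (nat_lit 2105) (nat_lit 1384) (nat_lit 1) .nil)), (nat_lit 44), (nat_lit 0), (nat_lit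
 0), (nat_lit 0), (14, 27, 50), [8336, 2424], 0⟩,
  ⟨⟨57, -8, -20, -10, -33, 50, 18, -36, -37⟩, (.cons (nat_lit 2564) (nat_lit 1669) (nat_lit 12358) (nat_lit 1)
 (.cons (nat_lit 3186) (nat_lit 4783) (nat_lit 1820) (nat_lit 1) .nil)), (nat_lit 33), (nat_lit 0), (nat_lit
 0), (nat_lit 0), (9, 4, 14), [16076, 1768], 0⟩,
  ⟨⟨39, -28, -56, -10, 33, -40, -18, -36, -19⟩, (.cons (nat_lit 29790) (nat_lit 17372) (nat_lit 476) (nat_lit
 1) (.cons (nat_lit 5040) (nat_lit 1579) (nat_lit 4834) (nat_lit 1) .nil)), (nat_lit 50), (nat_lit 0), (nat_lit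
 0), (nat_lit 0), (49, 35, 10), [5468, 2761], 0⟩,
  mz,
  ⟨⟨-13, -48, 40, -30, -17, -30, 30, -36, -23⟩, (.cons (nat_lit 29790) (nat_lit 23808) (nat_lit 19108) (nat_lit
 1) (.cons (nat_lit 5040) (nat_lit 4381) (nat_lit 2618) (nat_lit 1) .nil)), (nat_lit 52), (nat_lit 0), (nat_lit
 0), (nat_lit 0), (45, 6, 47), [25522, 2781], 0⟩]

/-- All the moves. -/
noncomputable def tabs : List (List (List Mv)) := [[[], t0_1, [], [], t0_4, [], t0_6, [], t0_8, [], [], [], [],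
 [], [], [], [], [], [], t0_19], [[], t1_1, [], [], t1_4, [], t1_6, [], t1_8, [], [], [], [], [], [], [], [],
 [], [], t1_19], [], [], [[], t4_1, [], [], t4_4, [], t4_6, [], t4_8, [], [], [], [], [], [], [], [], [], [],
 t4_19]]

/-- Subtrie. -/
noncomputable def T1 : Tr := (.ev (nat_lit 20) (nat_lit 70996080432240) (.nd (nat_lit 33) (.br (nat_lit 39)
 (.br (nat_lit 19) (.br (nat_lit 8) (.br (nat_lit 4) (.br (nat_lit 3) (.ch (nat_lit 1) (.ev (nat_lit 52)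
 (nat_lit 4789884984231936) (.ev (nat_lit 532) (nat_lit 562949953421312) (.ev (nat_lit 768) (nat_lit
 1296326964806144) .dd)))) (.ch (nat_lit 3) (.ev (nat_lit 52) (nat_lit 4945603859581440) (.ev (nat_lit 468)
 (nat_lit 1125899906842624) (.ev (nat_lit 500) (nat_lit 67108864) (.nd (nat_lit 3424) (.br (nat_lit 18) (.br
 (nat_lit 13) (.ch (nat_lit 9) (.ev (nat_lit 3440) (nat_lit 573122583461888) (.ev (nat_lit 3456) (nat_lit
 137438953472) (.ev (nat_lit 3469) (nat_lit 4398046511104) .dd)))) (.br (nat_lit 15) (.ch (nat_lit 13) (.ev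
 (nat_lit 3440) (nat_lit 568724536950784) (.ev (nat_lit 3508) (nat_lit 137438953472) (.ev (nat_lit 3517)
 (nat_lit 8796093022208) .dd)))) (.ch (nat_lit 15) (.ev (nat_lit 3440) (nat_lit 573260022415360) (.ev (nat_lit
 3453) (nat_lit 4398046511104) .dd))))) (.br (nat_lit 26) (.br (nat_lit 25) (.ch (nat_lit 18) (.ev (nat_lit
 3440) (nat_lit 14705968021504) (.ev (nat_lit 3520) (nat_lit 2147483648) (.ev (nat_lit 3533) (nat_lit
 562949953421312) .dd)))) (.ch (nat_lit 25) (.ev (nat_lit 3440) (nat_lit 9210557366272) (.ev (nat_lit 3508)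
 (nat_lit 1099511627776) (.ev (nat_lit 3668) (nat_lit 562949953421312) (.ev (nat_lit 3677) (nat_lit
 4398046511104) .dd)))))) (.br (nat_lit 28) (.ch (nat_lit 26) (.ev (nat_lit 3440) (nat_lit 14295798644736) (.ev
 (nat_lit 3680) (nat_lit 137438953472) (.ev (nat_lit 3696) (nat_lit 274877906944) (.ev (nat_lit 3709) (nat_lit
 562949953421312) .dd))))) (.ch (nat_lit 28) (.ev (nat_lit 3440) (nat_lit 576283679391744) (.ev (nat_lit 3668)
 (nat_lit 274877906944) (.ev (nat_lit 3677) (nat_lit 1099511627776) .dd))))))))))))) (.br (nat_lit 5) (.ch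
 (nat_lit 4) (.ev (nat_lit 52) (nat_lit 5791540127465984) (.ev (nat_lit 884) (nat_lit 8796093022208) (.ev
 (nat_lit 1236) (nat_lit 4194304) (.ev (nat_lit 2000) (nat_lit 848825677776896) .dd))))) (.br (nat_lit 7) (.ch
 (nat_lit 5) (.ev (nat_lit 52) (nat_lit 1567216990420992) (.ev (nat_lit 180) (nat_lit 4398046511104) (.ev
 (nat_lit 1668) (nat_lit 2048) (.ev (nat_lit 2084) (nat_lit 4194304) (.ev (nat_lit 2340) (nat_lit
 2199023255552) (.nd (nat_lit 3424) (.br (nat_lit 13) (.br (nat_lit 8) (.br (nat_lit 7) (.ch (nat_lit 4) (.ev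
 (nat_lit 3440) (nat_lit 5075347838075392) .dd)) (.ch (nat_lit 7) (.ev (nat_lit 3440) (nat_lit 8796109799936)
 (.ev (nat_lit 3680) (nat_lit 562949953421312) (.fin (nat_lit 576484391777682006)))))) (.br (nat_lit 9) (.ch
 (nat_lit 8) (.ev (nat_lit 3440) (nat_lit 5075347821297664) (.ev (nat_lit 3600) (nat_lit 16777216) (.ev
 (nat_lit 3613) (nat_lit 512) .dd)))) (.br (nat_lit 11) (.ch (nat_lit 9) (.ev (nat_lit 3440) (nat_lit
 5075345690591744) (.ev (nat_lit 3453) (nat_lit 2147483648) .dd))) (.ch (nat_lit 11) (.ev (nat_lit 3440)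
 (nat_lit 562952100905472) (.ev (nat_lit 3668) (nat_lit 4503599627370496) (.ev (nat_lit 3696) (nat_lit
 16777216) (.ev (nat_lit 3709) (nat_lit 8796093022208) .dd)))))))) (.br (nat_lit 20) (.br (nat_lit 16) (.ch
 (nat_lit 13) (.ev (nat_lit 3440) (nat_lit 5075347838075392) .dd)) (.br (nat_lit 19) (.ch (nat_lit 16) (.ev
 (nat_lit 3440) (nat_lit 5075347838075392) .dd)) (.ch (nat_lit 19) (.ev (nat_lit 3440) (nat_lit
 4503601791631872) (.ev (nat_lit 3668) (nat_lit 562949953421312) (.ev (nat_lit 3677) (nat_lit 8796093022208)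
 .dd)))))) (.br (nat_lit 23) (.ch (nat_lit 20) (.ev (nat_lit 3440) (nat_lit 4503599644148224) (.ev (nat_lit
 3520) (nat_lit 562952100904960) (.ev (nat_lit 3533) (nat_lit 8796093022208) .dd)))) (.br (nat_lit 28) (.ch
 (nat_lit 23) (.ev (nat_lit 3440) (nat_lit 5066551728275968) (.ev (nat_lit 3520) (nat_lit 16777216) (.ev
 (nat_lit 3533) (nat_lit 8796093022208) .dd)))) (.ch (nat_lit 28) (.ev (nat_lit 3440) (nat_lit 571748210704384)
 (.ev (nat_lit 3668) (nat_lit 512) (.ev (nat_lit 3677) (nat_lit 4503599627370496) .dd))))))))))))))) (.ch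
 (nat_lit 7) (.ev (nat_lit 52) (nat_lit 6334424463443968) (.ev (nat_lit 532) (nat_lit 2147483648) (.ev (nat_lit
 1312) (nat_lit 314735291531776) .dd))))))) (.br (nat_lit 15) (.br (nat_lit 11) (.ch (nat_lit 8) (.ev (nat_lit
 52) (nat_lit 4531364531535872) (.ev (nat_lit 212) (nat_lit 4398046511104) (.ev (nat_lit 788) (nat_lit 512)
 (.ev (nat_lit 1856) (nat_lit 2113399324411904) .dd))))) (.br (nat_lit 12) (.ch (nat_lit 11) (.ev (nat_lit 52)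
 (nat_lit 575182037059584) (.ev (nat_lit 116) (nat_lit 1125899906842624) (.ev (nat_lit 244) (nat_lit
 4503599627370496) (.ev (nat_lit 468) (nat_lit 67108864) (.ev (nat_lit 564) (nat_lit 140737488355328) (.ev
 (nat_lit 660) (nat_lit 274877906944) (.ev (nat_lit 2224) (nat_lit 303467897815552) .dd)))))))) (.ch (nat_lit
 12) (.ev (nat_lit 52) (nat_lit 4802669541591552) (.ev (nat_lit 212) (nat_lit 562949953421312) (.ev (nat_lit
 244) (nat_lit 1125899906842624) (.ev (nat_lit 532) (nat_lit 4398046511104) (.ev (nat_lit 1604) (nat_lit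
 4194304) (.ev (nat_lit 2372) (nat_lit 16777216) (.nd (nat_lit 3424) (.br (nat_lit 19) (.br (nat_lit 8) (.br
 (nat_lit 7) (.ch (nat_lit 4) (.ev (nat_lit 3440) (nat_lit 12369505812480) (.ev (nat_lit 3600) (nat_lit
 140737488355328) (.ev (nat_lit 3613) (nat_lit 137438953472) .dd)))) (.ch (nat_lit 7) (.ev (nat_lit 3440)
 (nat_lit 153244433121280) .dd))) (.br (nat_lit 11) (.ch (nat_lit 8) (.ev (nat_lit 3440) (nat_lit
 153244433121280) .dd)) (.br (nat_lit 16) (.ch (nat_lit 11) (.ev (nat_lit 3440) (nat_lit 152144921493504) (.ev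
 (nat_lit 3453) (nat_lit 1099511627776) .dd))) (.ch (nat_lit 16) (.ev (nat_lit 3440) (nat_lit 10307921510400)
 (.ev (nat_lit 3520) (nat_lit 140737488355328) (.ev (nat_lit 3533) (nat_lit 2199023255552) .dd))))))) (.br
 (nat_lit 26) (.br (nat_lit 20) (.ch (nat_lit 19) (.ev (nat_lit 3440) (nat_lit 150770531958784) (.ev (nat_lit
 3668) (nat_lit 274877906944) (.ev (nat_lit 3677) (nat_lit 2199023255552) .dd)))) (.br (nat_lit 25) (.ch
 (nat_lit 20) (.ev (nat_lit 3440) (nat_lit 144310901145600) (.ev (nat_lit 3668) (nat_lit 137438953472) (.ev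
 (nat_lit 3677) (nat_lit 8796093022208) .dd)))) (.ch (nat_lit 25) (.ev (nat_lit 3440) (nat_lit 1511828488192)
 (.ev (nat_lit 3668) (nat_lit 8796093022208) (.ev (nat_lit 3696) (nat_lit 140737488355328) (.ev (nat_lit 3709)
 (nat_lit 2199023255552) .dd))))))) (.br (nat_lit 28) (.ch (nat_lit 26) (.ev (nat_lit 3440) (nat_lit
 149671020331008) (.ev (nat_lit 3520) (nat_lit 1374389534720) (.ev (nat_lit 3533) (nat_lit 2199023255552)
 .dd)))) (.br (nat_lit 29) (.ch (nat_lit 28) (.ev (nat_lit 3440) (nat_lit 143073950564352) (.ev (nat_lit 3680)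
 (nat_lit 274877906944) (.fin (nat_lit 576464600599839261))))) (.ch (nat_lit 29) (.ev (nat_lit 3440) (nat_lit
 153244433121280) .dd)))))))))))))))) (.br (nat_lit 16) (.ch (nat_lit 15) (.ev (nat_lit 52) (nat_lit
 433207669424640) (.ev (nat_lit 84) (nat_lit 2147483648) (.ev (nat_lit 372) (nat_lit 4503599627370496) (.ev
 (nat_lit 436) (nat_lit 562949953421312) (.ev (nat_lit 628) (nat_lit 274877906944) (.ev (nat_lit 1364) (nat_lit
 137438953472) (.ev (nat_lit 2996) (nat_lit 2048) (.nd (nat_lit 3424) (.br (nat_lit 15) (.br (nat_lit 9) (.br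
 (nat_lit 7) (.ch (nat_lit 0) (.ev (nat_lit 3440) (nat_lit 1100048498688) (.ev (nat_lit 3764) (nat_lit
 17592186044416) (.nd (nat_lit 3776) (.br (nat_lit 18) (.ch (nat_lit 12) (.fin (nat_lit 576429416217264673)))
 (.ch (nat_lit 18) (.ev (nat_lit 3792) (nat_lit 1130297953353728) .dd))))))) (.br (nat_lit 8) (.ch (nat_lit 7)
 (.ev (nat_lit 3440) (nat_lit 1148990187896832) .dd)) (.ch (nat_lit 8) (.ev (nat_lit 3440) (nat_lit
 1148989651025920) (.ev (nat_lit 3453) (nat_lit 536870912) .dd))))) (.br (nat_lit 11) (.ch (nat_lit 9) (.ev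
 (nat_lit 3440) (nat_lit 1148990187896832) .dd)) (.br (nat_lit 13) (.ch (nat_lit 11) (.ev (nat_lit 3440)
 (nat_lit 21990769426432) (.ev (nat_lit 3520) (nat_lit 1099511627776) (.ev (nat_lit 3533) (nat_lit
 1125899906842624) .dd)))) (.ch (nat_lit 13) (.ev (nat_lit 3440) (nat_lit 1148989651025920) (.ev (nat_lit 3453)
 (nat_lit 536870912) .dd)))))) (.br (nat_lit 21) (.br (nat_lit 18) (.ch (nat_lit 15) (.ev (nat_lit 3440)
 (nat_lit 1147890676269056) (.ev (nat_lit 3453) (nat_lit 1099511627776) .dd))) (.br (nat_lit 20) (.ch (nat_lit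
 18) (.ev (nat_lit 3440) (nat_lit 1148990187896832) .dd)) (.ch (nat_lit 20) (.ev (nat_lit 3440) (nat_lit
 1148990187896832) .dd)))) (.br (nat_lit 25) (.br (nat_lit 23) (.ch (nat_lit 21) (.ev (nat_lit 3440) (nat_lit
 1126999418470400) (.ev (nat_lit 3508) (nat_lit 17592186044416) (.ev (nat_lit 3568) (nat_lit 4398046511104)
 (.ev (nat_lit 3581) (nat_lit 536870912) .dd))))) (.ch (nat_lit 23) (.ev (nat_lit 3440) (nat_lit
 1148989651025920) (.ev (nat_lit 3453) (nat_lit 536870912) .dd)))) (.br (nat_lit 28) (.ch (nat_lit 25) (.ev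
 (nat_lit 3440) (nat_lit 536870912) (.ev (nat_lit 3508) (nat_lit 17592186044416) (.ev (nat_lit 3520) (nat_lit
 1125899906842624) (.ev (nat_lit 3668) (nat_lit 4398046511104) (.ev (nat_lit 3677) (nat_lit 1099511627776)
 .dd)))))) (.ch (nat_lit 28) (.ev (nat_lit 3440) (nat_lit 1148990187896832) .dd))))))))))))))) (.br (nat_lit
 18) (.ch (nat_lit 16) (.ev (nat_lit 52) (nat_lit 6202482535434240) (.ev (nat_lit 960) (nat_lit
 446679367025152) .dd))) (.ch (nat_lit 18) (.ev (nat_lit 52) (nat_lit 5656300214026240) (.ev (nat_lit 436)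
 (nat_lit 140737488355328) (.ev (nat_lit 468) (nat_lit 4398046511104) (.ev (nat_lit 660) (nat_lit 2147483648)
 (.ev (nat_lit 852) (nat_lit 1099511627776) (.ev (nat_lit 1908) (nat_lit 512) (.ev (nat_lit 2276) (nat_lit
 281474976710656) (.nd (nat_lit 3424) (.br (nat_lit 11) (.br (nat_lit 7) (.br (nat_lit 4) (.ch (nat_lit 0) (.ev
 (nat_lit 3440) (nat_lit 562950494488576) (.ev (nat_lit 3453) (nat_lit 2199023255552) .dd))) (.ch (nat_lit 4)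
 (.ev (nat_lit 3440) (nat_lit 565148980873216) (.ev (nat_lit 3453) (nat_lit 536870912) .dd)))) (.br (nat_lit 8)
 (.ch (nat_lit 7) (.ev (nat_lit 3440) (nat_lit 565149517744128) .dd)) (.br (nat_lit 9) (.ch (nat_lit 8) (.ev
 (nat_lit 3440) (nat_lit 565149517744128) .dd)) (.ch (nat_lit 9) (.ev (nat_lit 3440) (nat_lit 562950494486528)
 (.ev (nat_lit 3668) (nat_lit 2048) (.ev (nat_lit 3677) (nat_lit 2199023255552) .dd))))))) (.br (nat_lit 20)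
 (.br (nat_lit 15) (.ch (nat_lit 11) (.ev (nat_lit 3440) (nat_lit 562949957615616) (.ev (nat_lit 3600) (nat_lit
 2199023255552) (.ev (nat_lit 3732) (nat_lit 2048) (.ev (nat_lit 3741) (nat_lit 536870912) .dd))))) (.br
 (nat_lit 18) (.ch (nat_lit 15) (.ev (nat_lit 3440) (nat_lit 565149513547776) (.ev (nat_lit 3668) (nat_lit
 4194304) (.ev (nat_lit 3677) (nat_lit 2048) .dd)))) (.ch (nat_lit 18) (.ev (nat_lit 3440) (nat_lit
 2199560128512) (.ev (nat_lit 3680) (nat_lit 4194304) (.ev (nat_lit 3693) (nat_lit 562949953421312) .dd))))))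
 (.br (nat_lit 25) (.ch (nat_lit 20) (.ev (nat_lit 3440) (nat_lit 565148980873216) (.ev (nat_lit 3453) (nat_lit
 536870912) .dd))) (.br (nat_lit 26) (.ch (nat_lit 25) (.ev (nat_lit 3440) (nat_lit 2199564322816) (.ev
 (nat_lit 3453) (nat_lit 562949953421312) .dd))) (.ch (nat_lit 26) (.ev (nat_lit 3440) (nat_lit 2199560126464)
 (.ev (nat_lit 3568) (nat_lit 2048) (.ev (nat_lit 3668) (nat_lit 562949953421312) (.ev (nat_lit 3677) (nat_lit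
 4194304) .dd)))))))))))))))))))))) (.br (nat_lit 29) (.br (nat_lit 23) (.br (nat_lit 22) (.ch (nat_lit 19)
 (.ev (nat_lit 52) (nat_lit 591812670523392) (.ev (nat_lit 180) (nat_lit 4503599627370496) (.ev (nat_lit 212)
 (nat_lit 1266637395197952) (.ev (nat_lit 500) (nat_lit 4398046511104) (.ev (nat_lit 1748) (nat_lit
 137438953472) (.ev (nat_lit 2644) (nat_lit 4194304) (.nd (nat_lit 3424) (.br (nat_lit 18) (.br (nat_lit 9)
 (.br (nat_lit 8) (.ch (nat_lit 4) (.ev (nat_lit 3440) (nat_lit 2231370240) (.fin (nat_lit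
 576474496213926468)))) (.ch (nat_lit 8) (.ev (nat_lit 3440) (nat_lit 281477140972032) (.ev (nat_lit 3616)
 (nat_lit 1099511627776) (.ev (nat_lit 3629) (nat_lit 67108864) .dd))))) (.br (nat_lit 11) (.ch (nat_lit 9)
 (.ev (nat_lit 3440) (nat_lit 282574572225024) (.ev (nat_lit 3453) (nat_lit 2147483648) .dd))) (.ch (nat_lit
 11) (.ev (nat_lit 3440) (nat_lit 2214593024) (.ev (nat_lit 3508) (nat_lit 281474993487872) (.ev (nat_lit 3517)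
 (nat_lit 1099511627776) .dd)))))) (.br (nat_lit 26) (.br (nat_lit 21) (.ch (nat_lit 18) (.ev (nat_lit 3440)
 (nat_lit 282576652599296) (.ev (nat_lit 3568) (nat_lit 67108864) (.ev (nat_lit 3581) (nat_lit 512) .dd))))
 (.ch (nat_lit 21) (.ev (nat_lit 3440) (nat_lit 1101675889152) (.ev (nat_lit 3520) (nat_lit 67108864) (.ev
 (nat_lit 3533) (nat_lit 281474976710656) .dd))))) (.br (nat_lit 28) (.ch (nat_lit 26) (.ev (nat_lit 3440)
 (nat_lit 1101742998016) (.ev (nat_lit 3453) (nat_lit 281474976710656) .dd))) (.br (nat_lit 29) (.ch (nat_lit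
 28) (.ev (nat_lit 3440) (nat_lit 282576702931456) (.ev (nat_lit 3453) (nat_lit 16777216) .dd))) (.ch (nat_lit
 29) (.ev (nat_lit 3440) (nat_lit 281477208080384) (.ev (nat_lit 3568) (nat_lit 1099511627776) (.ev (nat_lit
 3581) (nat_lit 512) .dd)))))))))))))))) (.ch (nat_lit 22) (.ev (nat_lit 52) (nat_lit 2136490695983616) (.ev
 (nat_lit 148) (nat_lit 67108864) (.ev (nat_lit 564) (nat_lit 274877906944) (.nd (nat_lit 3424) (.br (nat_lit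
 20) (.br (nat_lit 16) (.br (nat_lit 7) (.ch (nat_lit 0) (.ev (nat_lit 3440) (nat_lit 4512396261459968) .dd))
 (.ch (nat_lit 7) (.ev (nat_lit 3440) (nat_lit 8796634087424) (.ev (nat_lit 3668) (nat_lit 2048) (.ev (nat_lit
 3677) (nat_lit 4503599627370496) .dd))))) (.br (nat_lit 18) (.ch (nat_lit 16) (.ev (nat_lit 3440) (nat_lit
 4512396261459968) .dd)) (.ch (nat_lit 18) (.ev (nat_lit 3440) (nat_lit 4512396257265664) (.ev (nat_lit 3453)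
 (nat_lit 4194304) .dd))))) (.br (nat_lit 25) (.br (nat_lit 23) (.ch (nat_lit 20) (.ev (nat_lit 3440) (nat_lit
 4503599631566848) (.ev (nat_lit 3668) (nat_lit 8796093022208) (.ev (nat_lit 3677) (nat_lit 536870912) .dd))))
 (.ch (nat_lit 23) (.ev (nat_lit 3440) (nat_lit 8796097218560) (.ev (nat_lit 3536) (nat_lit 536870912) (.ev
 (nat_lit 3549) (nat_lit 4503599627370496) .dd))))) (.br (nat_lit 26) (.ch (nat_lit 25) (.ev (nat_lit 3440)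
 (nat_lit 541067264) (.ev (nat_lit 3508) (nat_lit 4503599627370496) (.ev (nat_lit 3517) (nat_lit 8796093022208)
 .dd)))) (.br (nat_lit 28) (.ch (nat_lit 26) (.ev (nat_lit 3440) (nat_lit 8796634089472) (.ev (nat_lit 3453)
 (nat_lit 4503599627370496) .dd))) (.ch (nat_lit 28) (.ev (nat_lit 3440) (nat_lit 4503600168437760) (.ev
 (nat_lit 3453) (nat_lit 8796093022208) .dd))))))))))))) (.br (nat_lit 24) (.ch (nat_lit 23) (.ev (nat_lit 52)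
 (nat_lit 6067242601024000) (.ev (nat_lit 468) (nat_lit 274877906944) (.ev (nat_lit 500) (nat_lit 2147483648)
 (.ev (nat_lit 1012) (nat_lit 4194304) (.ev (nat_lit 2656) (nat_lit 581642271850496) .dd)))))) (.br (nat_lit
 26) (.ch (nat_lit 24) (.ev (nat_lit 52) (nat_lit 1581097720742400) (.ev (nat_lit 84) (nat_lit
 4503599627370496) (.ev (nat_lit 372) (nat_lit 67108864) (.ev (nat_lit 500) (nat_lit 274877906944) (.ev
 (nat_lit 628) (nat_lit 2147483648) (.ev (nat_lit 884) (nat_lit 16777216) (.ev (nat_lit 2500) (nat_lit 4194304)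
 (.nd (nat_lit 3424) (.br (nat_lit 16) (.br (nat_lit 8) (.br (nat_lit 7) (.ch (nat_lit 4) (.ev (nat_lit 3440)
 (nat_lit 564050001922048) (.ev (nat_lit 3453) (nat_lit 137438953472) .dd))) (.ch (nat_lit 7) (.ev (nat_lit
 3440) (nat_lit 1237487454208) (.ev (nat_lit 3453) (nat_lit 562949953421312) .dd)))) (.br (nat_lit 13) (.ch
 (nat_lit 8) (.ev (nat_lit 3440) (nat_lit 564186904004608) (.ev (nat_lit 3453) (nat_lit 536870912) .dd))) (.br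
 (nat_lit 15) (.ch (nat_lit 13) (.ev (nat_lit 3440) (nat_lit 564187440875520) .dd)) (.ch (nat_lit 15) (.ev
 (nat_lit 3440) (nat_lit 564187440875520) .dd))))) (.br (nat_lit 21) (.br (nat_lit 18) (.ch (nat_lit 16) (.ev
 (nat_lit 3440) (nat_lit 564186904004608) (.ev (nat_lit 3453) (nat_lit 536870912) .dd))) (.br (nat_lit 20) (.ch
 (nat_lit 18) (.ev (nat_lit 3440) (nat_lit 564187440875520) .dd)) (.ch (nat_lit 20) (.ev (nat_lit 3440)
 (nat_lit 562950490294272) (.ev (nat_lit 3732) (nat_lit 137438953472) (.ev (nat_lit 3741) (nat_lit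
 1099511627776) .dd)))))) (.br (nat_lit 23) (.ch (nat_lit 21) (.ev (nat_lit 3440) (nat_lit 564186904004608)
 (.ev (nat_lit 3453) (nat_lit 536870912) .dd))) (.br (nat_lit 29) (.ch (nat_lit 23) (.ev (nat_lit 3440)
 (nat_lit 564186904004608) (.ev (nat_lit 3453) (nat_lit 536870912) .dd))) (.ch (nat_lit 29) (.ev (nat_lit 3440)
 (nat_lit 536870912) (.ev (nat_lit 3668) (nat_lit 562949953423360) (.ev (nat_lit 3732) (nat_lit 137438953472)
 (.ev (nat_lit 3741) (nat_lit 1099511627776) .dd)))))))))))))))))) (.ch (nat_lit 26) (.ev (nat_lit 52) (nat_lit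
 5212924754788352) (.ev (nat_lit 180) (nat_lit 1125899906842624) (.ev (nat_lit 724) (nat_lit 512) (.ev (nat_lit
 788) (nat_lit 2048) (.ev (nat_lit 852) (nat_lit 16777216) (.ev (nat_lit 1876) (nat_lit 2199023255552) (.ev
 (nat_lit 2372) (nat_lit 17592186044416) (.nd (nat_lit 3424) (.br (nat_lit 16) (.br (nat_lit 7) (.br (nat_lit
 1) (.ch (nat_lit 0) (.ev (nat_lit 3440) (nat_lit 281749921726464) (.ev (nat_lit 3453) (nat_lit 8796093022208)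
 .dd))) (.ch (nat_lit 1) (.ev (nat_lit 3440) (nat_lit 290546014748672) .dd))) (.br (nat_lit 9) (.ch (nat_lit 7)
 (.ev (nat_lit 3440) (nat_lit 290546014748672) .dd)) (.ch (nat_lit 9) (.ev (nat_lit 3440) (nat_lit
 290546014748672) .dd)))) (.br (nat_lit 19) (.br (nat_lit 18) (.ch (nat_lit 16) (.ev (nat_lit 3440) (nat_lit
 290271069732864) (.ev (nat_lit 3520) (nat_lit 274877906944) (.ev (nat_lit 3533) (nat_lit 67108864) .dd))))
 (.ch (nat_lit 18) (.ev (nat_lit 3440) (nat_lit 274945015808) (.ev (nat_lit 3536) (nat_lit 290271069732864)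
 .dd)))) (.br (nat_lit 21) (.ch (nat_lit 19) (.ev (nat_lit 3440) (nat_lit 290545947639808) (.ev (nat_lit 3453)
 (nat_lit 67108864) .dd))) (.br (nat_lit 25) (.ch (nat_lit 21) (.ev (nat_lit 3440) (nat_lit 290271136841728)
 (.ev (nat_lit 3453) (nat_lit 274877906944) .dd))) (.ch (nat_lit 25) (.ev (nat_lit 3440) (nat_lit
 9071038038016) (.ev (nat_lit 3453) (nat_lit 281474976710656) .dd))))))))))))))))))) (.br (nat_lit 34) (.br
 (nat_lit 31) (.ch (nat_lit 29) (.ev (nat_lit 52) (nat_lit 4802667415076864) (.ev (nat_lit 84) (nat_lit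
 562949953421312) (.ev (nat_lit 308) (nat_lit 274877906944) (.ev (nat_lit 340) (nat_lit 2147483648) (.ev
 (nat_lit 532) (nat_lit 140737488355328) (.ev (nat_lit 596) (nat_lit 4398046511104) (.ev (nat_lit 2084)
 (nat_lit 8796093022208) (.ev (nat_lit 2116) (nat_lit 137438953472) (.nd (nat_lit 3424) (.br (nat_lit 15) (.br
 (nat_lit 8) (.br (nat_lit 7) (.ch (nat_lit 4) (.ev (nat_lit 3440) (nat_lit 1128098930100736) (.ev (nat_lit
 3453) (nat_lit 1099511627776) .dd))) (.ch (nat_lit 7) (.ev (nat_lit 3440) (nat_lit 1129198441726464) (.ev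
 (nat_lit 3453) (nat_lit 2048) .dd)))) (.br (nat_lit 9) (.ch (nat_lit 8) (.ev (nat_lit 3440) (nat_lit
 1128098930100224) (.ev (nat_lit 3668) (nat_lit 512) (.ev (nat_lit 3677) (nat_lit 1099511627776) .dd)))) (.ch
 (nat_lit 9) (.ev (nat_lit 3440) (nat_lit 1129198441728512) .dd)))) (.br (nat_lit 23) (.br (nat_lit 21) (.ch
 (nat_lit 15) (.ev (nat_lit 3440) (nat_lit 1099511630336) (.ev (nat_lit 3568) (nat_lit 1128098930098176) .dd)))
 (.ch (nat_lit 21) (.ev (nat_lit 3440) (nat_lit 1129198441728512) .dd))) (.br (nat_lit 26) (.ch (nat_lit 23)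
 (.ev (nat_lit 3440) (nat_lit 1129198441728512) .dd)) (.br (nat_lit 29) (.ch (nat_lit 26) (.ev (nat_lit 3440)
 (nat_lit 1128098930100224) (.ev (nat_lit 3508) (nat_lit 512) (.ev (nat_lit 3517) (nat_lit 1099511627776)
 .dd)))) (.ch (nat_lit 29) (.ev (nat_lit 3440) (nat_lit 1129198441726464) (.ev (nat_lit 3453) (nat_lit 2048)
 .dd))))))))))))))))) (.br (nat_lit 33) (.ch (nat_lit 31) (.ev (nat_lit 52) (nat_lit 1417547513594368) (.ev
 (nat_lit 340) (nat_lit 140737488355328) (.ev (nat_lit 596) (nat_lit 562949953421312) (.ev (nat_lit 1012)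
 (nat_lit 16777216) (.ev (nat_lit 2820) (nat_lit 536870912) (.ev (nat_lit 2964) (nat_lit 2048) (.nd (nat_lit
 3424) (.br (nat_lit 15) (.br (nat_lit 8) (.br (nat_lit 4) (.ch (nat_lit 0) (.ev (nat_lit 3440) (nat_lit
 4508135179943936) (.ev (nat_lit 3508) (nat_lit 2199023255552) (.ev (nat_lit 3668) (nat_lit 4194304) (.ev
 (nat_lit 3677) (nat_lit 17592186044416) .dd))))) (.br (nat_lit 7) (.ch (nat_lit 4) (.ev (nat_lit 3440)
 (nat_lit 4503737137627136) (.ev (nat_lit 3508) (nat_lit 17592186044416) (.ev (nat_lit 3520) (nat_lit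
 4398046511104) (.ev (nat_lit 3533) (nat_lit 2199023255552) .dd))))) (.ch (nat_lit 7) (.ev (nat_lit 3440)
 (nat_lit 24189327114240) (.ev (nat_lit 3456) (nat_lit 137438953472) (.ev (nat_lit 3469) (nat_lit
 4503599627370496) .dd)))))) (.br (nat_lit 9) (.ch (nat_lit 8) (.ev (nat_lit 3440) (nat_lit 4527926326329344)
 (.ev (nat_lit 3453) (nat_lit 67108864) .dd))) (.br (nat_lit 13) (.ch (nat_lit 9) (.ev (nat_lit 3440) (nat_lit
 4523390907973632) (.ev (nat_lit 3508) (nat_lit 137438953472) (.ev (nat_lit 3517) (nat_lit 4398046511104)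
 .dd)))) (.ch (nat_lit 13) (.ev (nat_lit 3440) (nat_lit 4527788954484736) (.ev (nat_lit 3453) (nat_lit
 137438953472) .dd)))))) (.br (nat_lit 21) (.br (nat_lit 16) (.ch (nat_lit 15) (.ev (nat_lit 3440) (nat_lit
 4523528342732800) (.ev (nat_lit 3456) (nat_lit 4398046511104) (.ev (nat_lit 3469) (nat_lit 4194304) .dd))))
 (.br (nat_lit 19) (.ch (nat_lit 16) (.ev (nat_lit 3440) (nat_lit 4527788954484736) (.ev (nat_lit 3453)
 (nat_lit 137438953472) .dd))) (.ch (nat_lit 19) (.ev (nat_lit 3440) (nat_lit 4523528279818240) (.ev (nat_lit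
 3456) (nat_lit 4398046511104) (.ev (nat_lit 3469) (nat_lit 67108864) .dd)))))) (.br (nat_lit 28) (.br (nat_lit
 25) (.ch (nat_lit 21) (.ev (nat_lit 3440) (nat_lit 4527926389243904) (.ev (nat_lit 3453) (nat_lit 4194304)
 .dd))) (.ch (nat_lit 25) (.ev (nat_lit 3440) (nat_lit 4535556767744) (.ev (nat_lit 3668) (nat_lit
 4505798650626048) (.ev (nat_lit 3677) (nat_lit 17592186044416) .dd))))) (.br (nat_lit 29) (.ch (nat_lit 28)
 (.ev (nat_lit 3440) (nat_lit 24326766067712) (.ev (nat_lit 3453) (nat_lit 4503599627370496) .dd))) (.ch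
 (nat_lit 29) (.ev (nat_lit 3440) (nat_lit 4527926393438208) .dd)))))))))))))) (.ch (nat_lit 33) (.ev (nat_lit
 52) (nat_lit 5098710916661248) (.ev (nat_lit 404) (nat_lit 2147483648) (.ev (nat_lit 916) (nat_lit
 2199023255552) (.ev (nat_lit 980) (nat_lit 2048) (.ev (nat_lit 2704) (nat_lit 1548249815056896) .dd))))))))
 (.br (nat_lit 36) (.ch (nat_lit 34) (.ev (nat_lit 52) (nat_lit 4926911687950336) (.ev (nat_lit 148) (nat_lit
 4398046511104) (.ev (nat_lit 372) (nat_lit 274877906944) (.ev (nat_lit 468) (nat_lit 562949953421312) (.ev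
 (nat_lit 980) (nat_lit 512) (.ev (nat_lit 1012) (nat_lit 17592186044416) (.ev (nat_lit 1140) (nat_lit
 2147483648) (.ev (nat_lit 1236) (nat_lit 8796093022208) (.ev (nat_lit 1940) (nat_lit 137438953472) (.nd
 (nat_lit 3424) (.br (nat_lit 15) (.br (nat_lit 11) (.br (nat_lit 9) (.ch (nat_lit 0) (.ev (nat_lit 3440)
 (nat_lit 2199564320768) (.ev (nat_lit 3456) (nat_lit 1125899906842624) (.ev (nat_lit 3469) (nat_lit 2048)
 .dd)))) (.ch (nat_lit 9) (.ev (nat_lit 3440) (nat_lit 1128099466971136) (.ev (nat_lit 3453) (nat_lit 4194304)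
 .dd)))) (.br (nat_lit 13) (.ch (nat_lit 11) (.ev (nat_lit 3440) (nat_lit 1128099471165440) .dd)) (.ch (nat_lit
 13) (.ev (nat_lit 3440) (nat_lit 541067264) (.ev (nat_lit 3508) (nat_lit 2199023255552) (.ev (nat_lit 3517)
 (nat_lit 1125899906842624) .dd)))))) (.br (nat_lit 21) (.br (nat_lit 16) (.ch (nat_lit 15) (.ev (nat_lit 3440)
 (nat_lit 536870912) (.ev (nat_lit 3508) (nat_lit 2199023257600) (.ev (nat_lit 3552) (nat_lit 1125899906842624)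
 (.ev (nat_lit 3565) (nat_lit 4194304) .dd))))) (.ch (nat_lit 16) (.ev (nat_lit 3440) (nat_lit
 1128099471165440) .dd))) (.br (nat_lit 28) (.ch (nat_lit 21) (.ev (nat_lit 3440) (nat_lit 1128099471165440)
 .dd)) (.br (nat_lit 29) (.ch (nat_lit 28) (.ev (nat_lit 3440) (nat_lit 2199564322816) (.ev (nat_lit 3453)
 (nat_lit 1125899906842624) .dd))) (.ch (nat_lit 29) (.ev (nat_lit 3440) (nat_lit 1128098934294528) (.ev
 (nat_lit 3453) (nat_lit 536870912) .dd)))))))))))))))))) (.br (nat_lit 38) (.ch (nat_lit 36) (.ev (nat_lit 52)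
 (nat_lit 1834125589744128) (.ev (nat_lit 532) (nat_lit 4503599627370496) (.ev (nat_lit 1812) (nat_lit
 8796093022208) (.ev (nat_lit 2020) (nat_lit 2199023255552) (.nd (nat_lit 3424) (.br (nat_lit 20) (.br (nat_lit
 8) (.br (nat_lit 4) (.ch (nat_lit 1) (.ev (nat_lit 3440) (nat_lit 300441569067008) .dd)) (.ch (nat_lit 4) (.ev
 (nat_lit 3440) (nat_lit 17867080728576) (.fin (nat_lit 576474496213926468))))) (.br (nat_lit 11) (.ch (nat_lit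
 8) (.ev (nat_lit 3440) (nat_lit 274894684160) (.ev (nat_lit 3584) (nat_lit 1099511627776) (.ev (nat_lit 3668)
 (nat_lit 281474976710656) (.ev (nat_lit 3677) (nat_lit 17592186044416) .dd))))) (.br (nat_lit 16) (.ch
 (nat_lit 11) (.ev (nat_lit 3440) (nat_lit 299067179532288) (.ev (nat_lit 3508) (nat_lit 274877906944) (.ev
 (nat_lit 3517) (nat_lit 1099511627776) .dd)))) (.ch (nat_lit 16) (.ev (nat_lit 3440) (nat_lit 282849383022592)
 (.ev (nat_lit 3453) (nat_lit 17592186044416) .dd)))))) (.br (nat_lit 26) (.br (nat_lit 21) (.ch (nat_lit 20)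
 (.ev (nat_lit 3440) (nat_lit 17867063951360) (.ev (nat_lit 3508) (nat_lit 16777216) (.ev (nat_lit 3600)
 (nat_lit 1099511627776) (.ev (nat_lit 3613) (nat_lit 281474976710656) .dd))))) (.ch (nat_lit 21) (.ev (nat_lit
 3440) (nat_lit 1099528404992) (.ev (nat_lit 3508) (nat_lit 274877906944) (.ev (nat_lit 3668) (nat_lit
 17592186044416) (.ev (nat_lit 3677) (nat_lit 281474976710656) .dd)))))) (.br (nat_lit 28) (.ch (nat_lit 26)
 (.ev (nat_lit 3440) (nat_lit 1374406311936) (.ev (nat_lit 3508) (nat_lit 17592186044416) (.ev (nat_lit 3517)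
 (nat_lit 281474976710656) .dd)))) (.br (nat_lit 29) (.ch (nat_lit 28) (.ev (nat_lit 3440) (nat_lit
 300441552289792) (.ev (nat_lit 3453) (nat_lit 16777216) .dd))) (.ch (nat_lit 29) (.ev (nat_lit 3440) (nat_lit
 300441569067008) .dd)))))))))))) (.ch (nat_lit 38) (.ev (nat_lit 52) (nat_lit 297145768872448) (.ev (nat_lit
 852) (nat_lit 17592186044416) (.ev (nat_lit 1140) (nat_lit 140737488355328) (.ev (nat_lit 1172) (nat_lit
 1099515822080) (.nd (nat_lit 3424) (.br (nat_lit 19) (.br (nat_lit 7) (.br (nat_lit 4) (.ch (nat_lit 0) (.ev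
 (nat_lit 3440) (nat_lit 1688987315994624) (.ev (nat_lit 3453) (nat_lit 4503599627370496) .dd))) (.ch (nat_lit
 4) (.ev (nat_lit 3440) (nat_lit 6192586943365120) .dd))) (.br (nat_lit 16) (.ch (nat_lit 7) (.ev (nat_lit
 3440) (nat_lit 5629499534213120) (.ev (nat_lit 3456) (nat_lit 16777216) (.ev (nat_lit 3680) (nat_lit
 562949953421312) (.ev (nat_lit 3693) (nat_lit 137438953472) .dd))))) (.ch (nat_lit 16) (.ev (nat_lit 3440)
 (nat_lit 6192586943365120) .dd)))) (.br (nat_lit 21) (.br (nat_lit 20) (.ch (nat_lit 19) (.ev (nat_lit 3440)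
 (nat_lit 6192586943365120) .dd)) (.ch (nat_lit 20) (.ev (nat_lit 3440) (nat_lit 137455730688) (.ev (nat_lit
 3508) (nat_lit 1125899906842624) (.ev (nat_lit 3668) (nat_lit 4503599627370496) (.ev (nat_lit 3677) (nat_lit
 562949953421312) .dd)))))) (.br (nat_lit 23) (.ch (nat_lit 21) (.ev (nat_lit 3440) (nat_lit 6192586943365120)
 .dd)) (.br (nat_lit 26) (.ch (nat_lit 23) (.ev (nat_lit 3440) (nat_lit 1688987299217408) (.ev (nat_lit 3508)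
 (nat_lit 16777216) (.ev (nat_lit 3517) (nat_lit 4503599627370496) .dd)))) (.ch (nat_lit 26) (.ev (nat_lit
 3440) (nat_lit 4503737083101184) (.ev (nat_lit 3456) (nat_lit 562949953421312) (.ev (nat_lit 3469) (nat_lit
 1125899906842624) .dd))))))))))))))))))) (.br (nat_lit 54) (.br (nat_lit 47) (.br (nat_lit 43) (.br (nat_lit
 42) (.ch (nat_lit 39) (.ev (nat_lit 52) (nat_lit 4534800438264320) (.ev (nat_lit 148) (nat_lit
 703687441776640) (.ev (nat_lit 308) (nat_lit 67108864) (.ev (nat_lit 2148) (nat_lit 536870912) (.ev (nat_lit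
 2944) (nat_lit 1410673418438656) .dd)))))) (.ch (nat_lit 42) (.ev (nat_lit 52) (nat_lit 314460883388416) (.ev
 (nat_lit 148) (nat_lit 1125899906842624) (.ev (nat_lit 596) (nat_lit 140737488355328) (.ev (nat_lit 884)
 (nat_lit 1099511627776) (.ev (nat_lit 1044) (nat_lit 137438953472) (.ev (nat_lit 2244) (nat_lit 512) (.ev
 (nat_lit 3328) (nat_lit 562949953421312) (.nd (nat_lit 3424) (.br (nat_lit 11) (.br (nat_lit 7) (.br (nat_lit
 4) (.ch (nat_lit 1) (.ev (nat_lit 3440) (nat_lit 4503874572386304) (.ev (nat_lit 3453) (nat_lit 2147483648)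
 .dd))) (.ch (nat_lit 4) (.ev (nat_lit 3440) (nat_lit 4503874572386304) (.ev (nat_lit 3453) (nat_lit
 2147483648) .dd)))) (.br (nat_lit 8) (.ch (nat_lit 7) (.ev (nat_lit 3440) (nat_lit 274945015808) (.fin
 (nat_lit 576484391777682006)))) (.br (nat_lit 9) (.ch (nat_lit 8) (.ev (nat_lit 3440) (nat_lit 277092499456)
 (.ev (nat_lit 3453) (nat_lit 4503599627370496) .dd))) (.ch (nat_lit 9) (.ev (nat_lit 3440) (nat_lit
 4503876719869952) .dd))))) (.br (nat_lit 18) (.br (nat_lit 15) (.ch (nat_lit 11) (.ev (nat_lit 3440) (nat_lit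
 4503876719869952) .dd)) (.ch (nat_lit 15) (.ev (nat_lit 3440) (nat_lit 4503876719869952) .dd))) (.br (nat_lit
 20) (.ch (nat_lit 18) (.ev (nat_lit 3440) (nat_lit 4503876719869952) .dd)) (.br (nat_lit 21) (.ch (nat_lit 20)
 (.ev (nat_lit 3440) (nat_lit 4503874572386304) (.ev (nat_lit 3453) (nat_lit 2147483648) .dd))) (.ch (nat_lit
 21) (.ev (nat_lit 3440) (nat_lit 4503601774854144) (.ev (nat_lit 3508) (nat_lit 67108864) (.ev (nat_lit 3517)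
 (nat_lit 274877906944) .dd)))))))))))))))))) (.br (nat_lit 44) (.ch (nat_lit 43) (.ev (nat_lit 52) (nat_lit
 5213886353506304) (.ev (nat_lit 2372) (nat_lit 536870912) (.ev (nat_lit 2500) (nat_lit 16777216) (.ev (nat_lit
 2724) (nat_lit 512) (.nd (nat_lit 3424) (.br (nat_lit 18) (.br (nat_lit 11) (.ch (nat_lit 1) (.ev (nat_lit
 3440) (nat_lit 1127411739527168) (.ev (nat_lit 3668) (nat_lit 26388279066624) (.ev (nat_lit 3677) (nat_lit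
 281474976710656) .dd)))) (.br (nat_lit 16) (.ch (nat_lit 11) (.ev (nat_lit 3440) (nat_lit 307863259973632)
 (.ev (nat_lit 3520) (nat_lit 274877906944) (.ev (nat_lit 3616) (nat_lit 137438953472) (.ev (nat_lit 3668)
 (nat_lit 1099511627776) (.ev (nat_lit 3677) (nat_lit 1125899906842624) .dd)))))) (.ch (nat_lit 16) (.ev
 (nat_lit 3440) (nat_lit 1417682809257984) (.ev (nat_lit 3456) (nat_lit 17592186044416) (.ev (nat_lit 3469)
 (nat_lit 2048) .dd)))))) (.br (nat_lit 26) (.br (nat_lit 19) (.ch (nat_lit 18) (.ev (nat_lit 3440) (nat_lit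
 300578991245312) (.ev (nat_lit 3508) (nat_lit 4194304) (.ev (nat_lit 3536) (nat_lit 1125899906842624) (.ev
 (nat_lit 3549) (nat_lit 8796093022208) .dd))))) (.ch (nat_lit 19) (.ev (nat_lit 3440) (nat_lit
 309375088461824) (.ev (nat_lit 3453) (nat_lit 1125899906842624) .dd)))) (.br (nat_lit 28) (.ch (nat_lit 26)
 (.ev (nat_lit 3440) (nat_lit 1416583293437952) (.ev (nat_lit 3520) (nat_lit 17592186044416) (.ev (nat_lit
 3536) (nat_lit 1099511627776) (.ev (nat_lit 3549) (nat_lit 4194304) .dd))))) (.ch (nat_lit 28) (.ev (nat_lit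
 3440) (nat_lit 1425379390652416) (.ev (nat_lit 3508) (nat_lit 2048) (.fin (nat_lit
 576464600599839261)))))))))))))) (.br (nat_lit 46) (.ch (nat_lit 44) (.ev (nat_lit 52) (nat_lit
 1004129077954560) (.ev (nat_lit 340) (nat_lit 4398046511104) (.ev (nat_lit 372) (nat_lit 2147483648) (.ev
 (nat_lit 628) (nat_lit 1125899906842624) (.ev (nat_lit 884) (nat_lit 4194304) (.ev (nat_lit 1604) (nat_lit
 536870912) (.ev (nat_lit 1668) (nat_lit 512) (.ev (nat_lit 1700) (nat_lit 8796093022208) (.nd (nat_lit 3424)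
 (.br (nat_lit 20) (.br (nat_lit 15) (.br (nat_lit 11) (.ch (nat_lit 1) (.ev (nat_lit 3440) (nat_lit
 4505936089579520) .dd)) (.ch (nat_lit 11) (.ev (nat_lit 3440) (nat_lit 4503599627370496) (.ev (nat_lit 3508)
 (nat_lit 137438953472) (.ev (nat_lit 3517) (nat_lit 2199023255552) .dd))))) (.br (nat_lit 16) (.ch (nat_lit
 15) (.ev (nat_lit 3440) (nat_lit 4505936089579520) .dd)) (.ch (nat_lit 16) (.ev (nat_lit 3440) (nat_lit
 4505798650626048) (.ev (nat_lit 3453) (nat_lit 137438953472) .dd))))) (.br (nat_lit 23) (.br (nat_lit 21) (.ch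
 (nat_lit 20) (.ev (nat_lit 3440) (nat_lit 4505936089579520) .dd)) (.ch (nat_lit 21) (.ev (nat_lit 3440)
 (nat_lit 4505936089579520) .dd))) (.br (nat_lit 28) (.ch (nat_lit 23) (.ev (nat_lit 3440) (nat_lit
 4505936089579520) .dd)) (.br (nat_lit 29) (.ch (nat_lit 28) (.ev (nat_lit 3440) (nat_lit 2336462209024) (.ev
 (nat_lit 3453) (nat_lit 4503599627370496) .dd))) (.ch (nat_lit 29) (.ev (nat_lit 3440) (nat_lit
 4503737066323968) (.ev (nat_lit 3453) (nat_lit 2199023255552) .dd))))))))))))))))) (.ch (nat_lit 46) (.ev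
 (nat_lit 52) (nat_lit 25290931701760) (.ev (nat_lit 500) (nat_lit 1125899906842624) (.ev (nat_lit 628)
 (nat_lit 67108864) (.ev (nat_lit 1012) (nat_lit 536870912) (.ev (nat_lit 1376) (nat_lit 5497970459935232)
 .dd))))))))) (.br (nat_lit 50) (.br (nat_lit 48) (.ch (nat_lit 47) (.ev (nat_lit 52) (nat_lit
 1411087903754752) (.ev (nat_lit 116) (nat_lit 67108864) (.ev (nat_lit 404) (nat_lit 140737488355328) (.ev
 (nat_lit 500) (nat_lit 562949953421312) (.ev (nat_lit 852) (nat_lit 536870912) (.ev (nat_lit 1012) (nat_lit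
 8796093022208) (.ev (nat_lit 1140) (nat_lit 4398046511104) (.ev (nat_lit 1700) (nat_lit 17592186044416) (.ev
 (nat_lit 1709) (nat_lit 4503599627370496) .dd)))))))))) (.br (nat_lit 49) (.ch (nat_lit 48) (.ev (nat_lit 52)
 (nat_lit 5372216501862400) (.ev (nat_lit 84) (nat_lit 67108864) (.ev (nat_lit 372) (nat_lit 140737488355328)
 (.ev (nat_lit 1888) (nat_lit 1136207845132800) .dd))))) (.ch (nat_lit 49) (.ev (nat_lit 52) (nat_lit
 1831099730758144) (.ev (nat_lit 340) (nat_lit 4503599627370496) (.ev (nat_lit 1172) (nat_lit 17592186044416)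
 (.ev (nat_lit 1476) (nat_lit 281474976710656) (.ev (nat_lit 2548) (nat_lit 67108864) (.ev (nat_lit 2976)
 (nat_lit 15395314466816) .dd))))))))) (.br (nat_lit 51) (.ch (nat_lit 50) (.ev (nat_lit 52) (nat_lit
 4672927169511936) (.ev (nat_lit 212) (nat_lit 274877906944) (.ev (nat_lit 1204) (nat_lit 4194304) (.ev
 (nat_lit 1332) (nat_lit 2048) (.ev (nat_lit 2276) (nat_lit 137438953472) (.ev (nat_lit 2820) (nat_lit
 1099511627776) (.ev (nat_lit 3392) (nat_lit 16777216) (.nd (nat_lit 3424) (.br (nat_lit 13) (.br (nat_lit 4)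
 (.br (nat_lit 1) (.ch (nat_lit 0) (.ev (nat_lit 3440) (nat_lit 844424930131968) (.fin (nat_lit
 576429416217264673)))) (.ch (nat_lit 1) (.ev (nat_lit 3440) (nat_lit 1974722883485696) .dd))) (.br (nat_lit 7)
 (.ch (nat_lit 4) (.ev (nat_lit 3440) (nat_lit 848822976643072) (.ev (nat_lit 3453) (nat_lit 1125899906842624)
 .dd))) (.br (nat_lit 8) (.ch (nat_lit 7) (.ev (nat_lit 3440) (nat_lit 1970324836974592) (.ev (nat_lit 3453)
 (nat_lit 4398046511104) .dd))) (.ch (nat_lit 8) (.ev (nat_lit 3440) (nat_lit 1974722883485696) .dd))))) (.br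
 (nat_lit 19) (.br (nat_lit 16) (.ch (nat_lit 13) (.ev (nat_lit 3440) (nat_lit 1974722883485696) .dd)) (.ch
 (nat_lit 16) (.ev (nat_lit 3440) (nat_lit 1974722883485696) .dd))) (.br (nat_lit 21) (.ch (nat_lit 19) (.ev
 (nat_lit 3440) (nat_lit 1970324836974592) (.ev (nat_lit 3453) (nat_lit 4398046511104) .dd))) (.br (nat_lit 25)
 (.ch (nat_lit 21) (.ev (nat_lit 3440) (nat_lit 1970324836974592) (.ev (nat_lit 3453) (nat_lit 4398046511104)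
 .dd))) (.ch (nat_lit 25) (.ev (nat_lit 3440) (nat_lit 1130297953353728) (.ev (nat_lit 3508) (nat_lit
 562949953421312) (.ev (nat_lit 3517) (nat_lit 281474976710656) .dd))))))))))))))))) (.br (nat_lit 53) (.ch
 (nat_lit 51) (.ev (nat_lit 52) (nat_lit 4941343235244032) (.ev (nat_lit 116) (nat_lit 2147483648) (.ev
 (nat_lit 180) (nat_lit 562949953421312) (.ev (nat_lit 308) (nat_lit 1125899906842624) (.ev (nat_lit 1876)
 (nat_lit 2048) (.ev (nat_lit 1972) (nat_lit 1099511627776) (.ev (nat_lit 3008) (nat_lit 17867147837952)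
 .dd)))))))) (.ch (nat_lit 53) (.ev (nat_lit 52) (nat_lit 4512398488633856) (.ev (nat_lit 116) (nat_lit
 140737488355328) (.ev (nat_lit 180) (nat_lit 274877906944) (.ev (nat_lit 276) (nat_lit 562949953421312) (.ev
 (nat_lit 308) (nat_lit 4398046511104) (.ev (nat_lit 404) (nat_lit 1125899906842624) (.ev (nat_lit 2032)
 (nat_lit 302503140788224) .dd)))))))))))) (.br (nat_lit 64) (.br (nat_lit 57) (.br (nat_lit 55) (.ch (nat_lit
 54) (.ev (nat_lit 52) (nat_lit 1134973046227456) (.ev (nat_lit 84) (nat_lit 4398046511104) (.ev (nat_lit 564)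
 (nat_lit 562949953421312) (.ev (nat_lit 1604) (nat_lit 17592186044416) (.ev (nat_lit 1780) (nat_lit
 137438953472) (.ev (nat_lit 2612) (nat_lit 281474976710656) (.ev (nat_lit 2644) (nat_lit 1099511627776) (.nd
 (nat_lit 3424) (.br (nat_lit 15) (.br (nat_lit 1) (.ch (nat_lit 0) (.ev (nat_lit 3440) (nat_lit
 142937048483840) (.ev (nat_lit 3668) (nat_lit 67108864) (.ev (nat_lit 3677) (nat_lit 4503599627370496) .dd))))
 (.br (nat_lit 13) (.ch (nat_lit 1) (.ev (nat_lit 3440) (nat_lit 4505798717734912) (.ev (nat_lit 3668) (nat_lit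
 536872960) (.ev (nat_lit 3677) (nat_lit 140737488355328) .dd)))) (.ch (nat_lit 13) (.ev (nat_lit 3440)
 (nat_lit 4644337182836736) (.ev (nat_lit 3508) (nat_lit 536870912) (.ev (nat_lit 3517) (nat_lit 2199023255552)
 .dd)))))) (.br (nat_lit 21) (.br (nat_lit 19) (.ch (nat_lit 15) (.ev (nat_lit 3440) (nat_lit 4646536675852288)
 (.ev (nat_lit 3508) (nat_lit 67108864) (.ev (nat_lit 3517) (nat_lit 2048) .dd)))) (.ch (nat_lit 19) (.ev
 (nat_lit 3440) (nat_lit 4646536742961152) (.ev (nat_lit 3453) (nat_lit 2048) .dd)))) (.br (nat_lit 28) (.ch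
 (nat_lit 21) (.ev (nat_lit 3440) (nat_lit 4646536138983424) (.ev (nat_lit 3456) (nat_lit 536870912) (.ev
 (nat_lit 3469) (nat_lit 67108864) .dd)))) (.ch (nat_lit 28) (.ev (nat_lit 3440) (nat_lit 142937115592704) (.ev
 (nat_lit 3453) (nat_lit 4503599627370496) .dd))))))))))))))) (.ch (nat_lit 55) (.ev (nat_lit 52) (nat_lit
 582879205655040) (.ev (nat_lit 340) (nat_lit 274877906944) (.ev (nat_lit 896) (nat_lit 6066007818897408)
 .dd))))) (.br (nat_lit 58) (.ch (nat_lit 57) (.ev (nat_lit 52) (nat_lit 1412047828945408) (.ev (nat_lit 116)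
 (nat_lit 562949953421312) (.ev (nat_lit 180) (nat_lit 67108864) (.ev (nat_lit 724) (nat_lit 2199023255552)
 (.ev (nat_lit 1204) (nat_lit 1099511627776) (.ev (nat_lit 2160) (nat_lit 4670865518100480) .dd))))))) (.br
 (nat_lit 62) (.ch (nat_lit 58) (.ev (nat_lit 52) (nat_lit 1137995071619072) (.ev (nat_lit 436) (nat_lit
 4398046511104) (.ev (nat_lit 596) (nat_lit 2147483648) (.ev (nat_lit 704) (nat_lit 5506766636845568) .dd)))))
 (.ch (nat_lit 62) (.ev (nat_lit 52) (nat_lit 587277256360448) (.ev (nat_lit 276) (nat_lit 2147483648) (.ev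
 (nat_lit 404) (nat_lit 274877906944) (.ev (nat_lit 1572) (nat_lit 140737488355328) (.ev (nat_lit 2320)
 (nat_lit 5920870132353024) .dd))))))))) (.br (nat_lit 68) (.br (nat_lit 65) (.ch (nat_lit 64) (.ev (nat_lit
 52) (nat_lit 4649974813949952) (.ev (nat_lit 276) (nat_lit 67108864) (.ev (nat_lit 628) (nat_lit
 562949953421312) (.ev (nat_lit 1908) (nat_lit 2199023255552) (.ev (nat_lit 2052) (nat_lit 2048) (.ev (nat_lit
 2468) (nat_lit 281474976710656) (.ev (nat_lit 3028) (nat_lit 512) (.nd (nat_lit 3424) (.br (nat_lit 21) (.br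
 (nat_lit 13) (.br (nat_lit 11) (.ch (nat_lit 9) (.ev (nat_lit 3440) (nat_lit 1152563068010496) .dd)) (.ch
 (nat_lit 11) (.ev (nat_lit 3440) (nat_lit 1152288190103552) (.ev (nat_lit 3453) (nat_lit 274877906944) .dd))))
 (.br (nat_lit 15) (.ch (nat_lit 13) (.ev (nat_lit 3440) (nat_lit 17867068145664) (.ev (nat_lit 3456) (nat_lit
 8796093022208) (.ev (nat_lit 3469) (nat_lit 1125899906842624) .dd)))) (.ch (nat_lit 15) (.ev (nat_lit 3440)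
 (nat_lit 26663156973568) (.ev (nat_lit 3520) (nat_lit 4194304) (.ev (nat_lit 3533) (nat_lit 1125899906842624)
 .dd)))))) (.br (nat_lit 25) (.br (nat_lit 23) (.ch (nat_lit 21) (.ev (nat_lit 3440) (nat_lit 1134970877771776)
 (.ev (nat_lit 3552) (nat_lit 17592186044416) (.ev (nat_lit 3565) (nat_lit 4194304) .dd)))) (.ch (nat_lit 23)
 (.ev (nat_lit 3440) (nat_lit 1152563068010496) .dd))) (.br (nat_lit 28) (.ch (nat_lit 25) (.ev (nat_lit 3440)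
 (nat_lit 9070975123456) (.ev (nat_lit 3456) (nat_lit 1125899906842624) (.ev (nat_lit 3469) (nat_lit
 17592186044416) .dd)))) (.br (nat_lit 29) (.ch (nat_lit 28) (.ev (nat_lit 3440) (nat_lit 17592190238720) (.ev
 (nat_lit 3552) (nat_lit 1125899906842624) (.ev (nat_lit 3668) (nat_lit 274877906944) (.ev (nat_lit 3677)
 (nat_lit 8796093022208) .dd))))) (.ch (nat_lit 29) (.ev (nat_lit 3440) (nat_lit 1152288185909248) (.ev
 (nat_lit 3668) (nat_lit 4194304) (.ev (nat_lit 3677) (nat_lit 274877906944) .dd))))))))))))))))) (.br (nat_lit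
 67) (.ch (nat_lit 65) (.ev (nat_lit 52) (nat_lit 4939008463341568) (.ev (nat_lit 1204) (nat_lit 536870912)
 (.ev (nat_lit 1236) (nat_lit 17592186044416) (.ev (nat_lit 1648) (nat_lit 1692560716202496) .dd))))) (.ch
 (nat_lit 67) (.ev (nat_lit 52) (nat_lit 858856020248576) (.ev (nat_lit 84) (nat_lit 274877906944) (.ev
 (nat_lit 500) (nat_lit 140737488355328) (.ev (nat_lit 532) (nat_lit 1125899906842624) (.ev (nat_lit 564)
 (nat_lit 4503599627370496) (.ev (nat_lit 1172) (nat_lit 536870912) (.ev (nat_lit 1396) (nat_lit 512) (.ev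
 (nat_lit 2052) (nat_lit 2199023255552) (.nd (nat_lit 3424) (.br (nat_lit 15) (.br (nat_lit 4) (.br (nat_lit 1)
 (.ch (nat_lit 0) (.ev (nat_lit 3440) (nat_lit 17594417414144) (.ev (nat_lit 3453) (nat_lit 4194304) .dd)))
 (.ch (nat_lit 1) (.ev (nat_lit 3440) (nat_lit 17594404831232) (.ev (nat_lit 3453) (nat_lit 16777216) .dd))))
 (.br (nat_lit 7) (.ch (nat_lit 4) (.ev (nat_lit 3440) (nat_lit 83886080) (.ev (nat_lit 3536) (nat_lit
 17592186044416) (.ev (nat_lit 3584) (nat_lit 2147483648) (.ev (nat_lit 3597) (nat_lit 4194304) .dd))))) (.br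
 (nat_lit 8) (.ch (nat_lit 7) (.ev (nat_lit 3440) (nat_lit 17594404831232) (.ev (nat_lit 3453) (nat_lit
 16777216) .dd))) (.ch (nat_lit 8) (.ev (nat_lit 3440) (nat_lit 17594337722368) (.ev (nat_lit 3680) (nat_lit
 67108864) (.ev (nat_lit 3693) (nat_lit 16777216) .dd))))))) (.br (nat_lit 18) (.br (nat_lit 16) (.ch (nat_lit
 15) (.ev (nat_lit 3440) (nat_lit 17594417414144) (.ev (nat_lit 3453) (nat_lit 4194304) .dd))) (.ch (nat_lit
 16) (.ev (nat_lit 3440) (nat_lit 2235564032) (.ev (nat_lit 3453) (nat_lit 17592186044416) .dd)))) (.br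
 (nat_lit 20) (.ch (nat_lit 18) (.ev (nat_lit 3440) (nat_lit 17592202821632) (.ev (nat_lit 3508) (nat_lit
 67108864) (.ev (nat_lit 3668) (nat_lit 2147483648) (.ev (nat_lit 3677) (nat_lit 4194304) .dd))))) (.br
 (nat_lit 23) (.ch (nat_lit 20) (.ev (nat_lit 3440) (nat_lit 17592257347584) (.ev (nat_lit 3668) (nat_lit
 2147483648) (.ev (nat_lit 3677) (nat_lit 16777216) .dd)))) (.ch (nat_lit 23) (.ev (nat_lit 3440) (nat_lit
 17592269930496) (.ev (nat_lit 3668) (nat_lit 2147483648) (.ev (nat_lit 3677) (nat_lit 4194304)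
 .dd)))))))))))))))))))) (.br (nat_lit 69) (.ch (nat_lit 68) (.ev (nat_lit 52) (nat_lit 4507036226160640) (.ev
 (nat_lit 1332) (nat_lit 512) (.ev (nat_lit 1616) (nat_lit 2142125676298240) .dd)))) (.br (nat_lit 70) (.ch
 (nat_lit 69) (.ev (nat_lit 52) (nat_lit 1830689615906816) (.ev (nat_lit 404) (nat_lit 4398046511104) (.ev
 (nat_lit 436) (nat_lit 274877906944) (.ev (nat_lit 1972) (nat_lit 17592186044416) (.ev (nat_lit 2148) (nat_lit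
 8796093022208) (.ev (nat_lit 2212) (nat_lit 281474976710656) (.nd (nat_lit 3424) (.br (nat_lit 18) (.br
 (nat_lit 8) (.br (nat_lit 7) (.ch (nat_lit 0) (.ev (nat_lit 3440) (nat_lit 4505936106356736) (.ev (nat_lit
 3453) (nat_lit 512) .dd))) (.ch (nat_lit 7) (.ev (nat_lit 3440) (nat_lit 2336462209536) (.ev (nat_lit 3508)
 (nat_lit 16777216) (.ev (nat_lit 3517) (nat_lit 4503599627370496) .dd))))) (.br (nat_lit 9) (.ch (nat_lit 8)
 (.ev (nat_lit 3440) (nat_lit 2336478986752) (.ev (nat_lit 3453) (nat_lit 4503599627370496) .dd))) (.br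
 (nat_lit 13) (.ch (nat_lit 9) (.ev (nat_lit 3440) (nat_lit 4505798667403776) (.ev (nat_lit 3453) (nat_lit
 137438953472) .dd))) (.ch (nat_lit 13) (.ev (nat_lit 3440) (nat_lit 4505936106357248) .dd))))) (.br (nat_lit
 23) (.br (nat_lit 20) (.ch (nat_lit 18) (.ev (nat_lit 3440) (nat_lit 4503737083101184) (.ev (nat_lit 3508)
 (nat_lit 2199023255552) (.ev (nat_lit 3517) (nat_lit 512) .dd)))) (.ch (nat_lit 20) (.ev (nat_lit 3440)
 (nat_lit 2199040033280) (.ev (nat_lit 3508) (nat_lit 137438953472) (.ev (nat_lit 3517) (nat_lit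
 4503599627370496) .dd))))) (.br (nat_lit 25) (.ch (nat_lit 23) (.ev (nat_lit 3440) (nat_lit 2199023256064)
 (.ev (nat_lit 3668) (nat_lit 16777216) (.fin (nat_lit 576466799624143425))))) (.br (nat_lit 26) (.ch (nat_lit
 25) (.ev (nat_lit 3440) (nat_lit 4503737066324480) (.ev (nat_lit 3488) (nat_lit 2199023255552) (.ev (nat_lit
 3501) (nat_lit 16777216) .dd)))) (.ch (nat_lit 26) (.ev (nat_lit 3440) (nat_lit 2199040033280) (.ev (nat_lit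
 3508) (nat_lit 137438953472) (.ev (nat_lit 3517) (nat_lit 4503599627370496) .dd)))))))))))))))) (.ch (nat_lit
 70) (.ev (nat_lit 52) (nat_lit 158604556500992) (.ev (nat_lit 116) (nat_lit 4398046511104) (.ev (nat_lit 244)
 (nat_lit 2147483648) (.ev (nat_lit 308) (nat_lit 562949953421312) (.ev (nat_lit 436) (nat_lit 67108864) (.ev
 (nat_lit 1572) (nat_lit 1125899906842624) (.ev (nat_lit 2964) (nat_lit 2199023255552) (.nd (nat_lit 3424) (.br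
 (nat_lit 18) (.br (nat_lit 11) (.br (nat_lit 8) (.ch (nat_lit 4) (.ev (nat_lit 3440) (nat_lit
 4793871250754048) (.ev (nat_lit 3508) (nat_lit 1099511627776) (.ev (nat_lit 3517) (nat_lit 137438953472)
 .dd)))) (.ch (nat_lit 8) (.ev (nat_lit 3440) (nat_lit 4795108184557568) (.ev (nat_lit 3508) (nat_lit 512) (.ev
 (nat_lit 3517) (nat_lit 16777216) .dd))))) (.br (nat_lit 16) (.ch (nat_lit 11) (.ev (nat_lit 3440) (nat_lit
 4512396257266176) (.ev (nat_lit 3668) (nat_lit 281612415664128) (.ev (nat_lit 3680) (nat_lit 1099528404992)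
 .dd)))) (.ch (nat_lit 16) (.ev (nat_lit 3440) (nat_lit 4794970225508864) (.ev (nat_lit 3520) (nat_lit
 137438953472) (.ev (nat_lit 3680) (nat_lit 2048) (.ev (nat_lit 3693) (nat_lit 536870912) .dd))))))) (.br
 (nat_lit 23) (.br (nat_lit 19) (.ch (nat_lit 18) (.ev (nat_lit 3440) (nat_lit 4795108201334784) (.ev (nat_lit
 3453) (nat_lit 512) .dd))) (.ch (nat_lit 19) (.ev (nat_lit 3440) (nat_lit 4786312108311040) (.ev (nat_lit
 3508) (nat_lit 2048) (.ev (nat_lit 3517) (nat_lit 8796093022208) .dd))))) (.br (nat_lit 25) (.ch (nat_lit 23)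
 (.ev (nat_lit 3440) (nat_lit 291371135011328) (.fin (nat_lit 576466799624143425)))) (.br (nat_lit 28) (.ch
 (nat_lit 25) (.ev (nat_lit 3440) (nat_lit 4512533712994816) (.ev (nat_lit 3508) (nat_lit 281474976710656) (.ev
 (nat_lit 3536) (nat_lit 1099511627776) (.ev (nat_lit 3549) (nat_lit 2048) .dd))))) (.ch (nat_lit 28) (.ev
 (nat_lit 3440) (nat_lit 4795108201335296) .dd)))))))))))))))))))))))

/-- Subtrie. -/
noncomputable def T4 : Tr := (.ev (nat_lit 20) (nat_lit 5792717691063296) (.nd (nat_lit 33) (.br (nat_lit 39)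
 (.br (nat_lit 19) (.br (nat_lit 8) (.br (nat_lit 4) (.br (nat_lit 3) (.ch (nat_lit 1) (.ev (nat_lit 52)
 (nat_lit 282024749305952) (.ev (nat_lit 756) (nat_lit 8796093022208) (.ev (nat_lit 980) (nat_lit
 70368744177664) (.ev (nat_lit 1396) (nat_lit 2147483648) (.ev (nat_lit 1572) (nat_lit 512) (.ev (nat_lit 1812)
 (nat_lit 1099511627776) (.ev (nat_lit 2532) (nat_lit 562949953421312) (.ev (nat_lit 2676) (nat_lit 67108864)
 (.nd (nat_lit 3424) (.br (nat_lit 21) (.br (nat_lit 5) (.br (nat_lit 4) (.ch (nat_lit 1) (.ev (nat_lit 3440)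
 (nat_lit 2424848) (.ev (nat_lit 3453) (nat_lit 2199023255552) .dd))) (.ch (nat_lit 4) (.ev (nat_lit 3440)
 (nat_lit 2199025680384) (.ev (nat_lit 3453) (nat_lit 16) .dd)))) (.br (nat_lit 6) (.ch (nat_lit 5) (.ev
 (nat_lit 3440) (nat_lit 2199023321088) (.ev (nat_lit 3520) (nat_lit 16) (.ev (nat_lit 3668) (nat_lit 2097152)
 (.ev (nat_lit 3677) (nat_lit 262144) .dd))))) (.ch (nat_lit 6) (.ev (nat_lit 3440) (nat_lit 2199025614864)
 (.ev (nat_lit 3453) (nat_lit 65536) .dd))))) (.br (nat_lit 27) (.br (nat_lit 25) (.ch (nat_lit 21) (.ev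
 (nat_lit 3440) (nat_lit 2199025680400) .dd)) (.ch (nat_lit 25) (.ev (nat_lit 3440) (nat_lit 2199025614848)
 (.ev (nat_lit 3680) (nat_lit 16) (.ev (nat_lit 3693) (nat_lit 65536) .dd))))) (.br (nat_lit 28) (.ch (nat_lit
 27) (.ev (nat_lit 3440) (nat_lit 2199025680400) .dd)) (.br (nat_lit 29) (.ch (nat_lit 28) (.ev (nat_lit 3440)
 (nat_lit 2199025680400) .dd)) (.ch (nat_lit 29) (.ev (nat_lit 3440) (nat_lit 2199023583248) (.ev (nat_lit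
 3453) (nat_lit 2097152) .dd))))))))))))))))) (.ch (nat_lit 3) (.ev (nat_lit 52) (nat_lit 283674018845248) (.ev
 (nat_lit 864) (nat_lit 643766272983088) .dd)))) (.br (nat_lit 5) (.ch (nat_lit 4) (.ev (nat_lit 52) (nat_lit
 3298602058272) (.ev (nat_lit 148) (nat_lit 4096) (.ev (nat_lit 276) (nat_lit 2097152) (.ev (nat_lit 980)
 (nat_lit 16777216) (.ev (nat_lit 1076) (nat_lit 16) (.ev (nat_lit 1428) (nat_lit 64) (.ev (nat_lit 2372)
 (nat_lit 549755813888) (.ev (nat_lit 2756) (nat_lit 562949953421312) (.ev (nat_lit 2884) (nat_lit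
 8796093022208) (.nd (nat_lit 3424) (.br (nat_lit 12) (.br (nat_lit 2) (.br (nat_lit 1) (.ch (nat_lit 0) (.ev
 (nat_lit 3440) (nat_lit 351845868371968) (.ev (nat_lit 3453) (nat_lit 262144) .dd))) (.ch (nat_lit 1) (.ev
 (nat_lit 3440) (nat_lit 351845868634112) .dd))) (.br (nat_lit 4) (.ch (nat_lit 2) (.ev (nat_lit 3440) (nat_lit
 351843720888320) (.ev (nat_lit 3668) (nat_lit 2147483648) (.ev (nat_lit 3677) (nat_lit 262144) .dd)))) (.br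
 (nat_lit 6) (.ch (nat_lit 4) (.ev (nat_lit 3440) (nat_lit 281477124456448) (.ev (nat_lit 3453) (nat_lit
 70368744177664) .dd))) (.ch (nat_lit 6) (.ev (nat_lit 3440) (nat_lit 351845868634112) .dd))))) (.br (nat_lit
 26) (.br (nat_lit 13) (.ch (nat_lit 12) (.ev (nat_lit 3440) (nat_lit 281477124456448) (.ev (nat_lit 3453)
 (nat_lit 70368744177664) .dd))) (.br (nat_lit 21) (.ch (nat_lit 13) (.ev (nat_lit 3440) (nat_lit
 351845868634112) .dd)) (.ch (nat_lit 21) (.ev (nat_lit 3440) (nat_lit 70370891923456) (.ev (nat_lit 3453)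
 (nat_lit 281474976710656) .dd))))) (.br (nat_lit 28) (.ch (nat_lit 26) (.ev (nat_lit 3440) (nat_lit
 351845868634112) .dd)) (.br (nat_lit 29) (.ch (nat_lit 28) (.ev (nat_lit 3440) (nat_lit 70368744439808) (.ev
 (nat_lit 3584) (nat_lit 281474976710656) (.ev (nat_lit 3597) (nat_lit 2147483648) .dd)))) (.ch (nat_lit 29)
 (.ev (nat_lit 3440) (nat_lit 281474976972800) (.ev (nat_lit 3520) (nat_lit 2147483648) (.ev (nat_lit 3533)
 (nat_lit 70368744177664) .dd))))))))))))))))))) (.br (nat_lit 7) (.ch (nat_lit 5) (.ev (nat_lit 52) (nat_lit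
 282574557544464) (.ev (nat_lit 276) (nat_lit 4096) (.ev (nat_lit 692) (nat_lit 262144) (.ev (nat_lit 1636)
 (nat_lit 65536) (.ev (nat_lit 1700) (nat_lit 549755813888) (.ev (nat_lit 1876) (nat_lit 16777216) (.ev
 (nat_lit 2788) (nat_lit 64) (.ev (nat_lit 2996) (nat_lit 2147483648) (.ev (nat_lit 3156) (nat_lit
 8796093022208) (.nd (nat_lit 3424) (.br (nat_lit 18) (.br (nat_lit 5) (.br (nat_lit 1) (.ch (nat_lit 0) (.ev
 (nat_lit 3440) (nat_lit 635517720855072) .dd)) (.ch (nat_lit 1) (.ev (nat_lit 3440) (nat_lit 70368744178176)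
 (.ev (nat_lit 3488) (nat_lit 2199023255552) (.ev (nat_lit 3668) (nat_lit 32) (.ev (nat_lit 3677) (nat_lit
 562949953421312) .dd)))))) (.br (nat_lit 12) (.ch (nat_lit 5) (.ev (nat_lit 3440) (nat_lit 635517720854560)
 (.ev (nat_lit 3453) (nat_lit 512) .dd))) (.br (nat_lit 15) (.ch (nat_lit 12) (.ev (nat_lit 3440) (nat_lit
 635517720855072) .dd)) (.ch (nat_lit 15) (.ev (nat_lit 3440) (nat_lit 565148976677408) (.ev (nat_lit 3453)
 (nat_lit 70368744177664) .dd)))))) (.br (nat_lit 21) (.br (nat_lit 20) (.ch (nat_lit 18) (.ev (nat_lit 3440)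
 (nat_lit 635517720855072) .dd)) (.ch (nat_lit 20) (.ev (nat_lit 3440) (nat_lit 633318697599008) (.ev (nat_lit
 3508) (nat_lit 512) (.ev (nat_lit 3517) (nat_lit 2199023255552) .dd))))) (.br (nat_lit 24) (.ch (nat_lit 21)
 (.ev (nat_lit 3440) (nat_lit 635517720855040) (.ev (nat_lit 3453) (nat_lit 32) .dd))) (.br (nat_lit 28) (.ch
 (nat_lit 24) (.ev (nat_lit 3440) (nat_lit 565148976677376) (.ev (nat_lit 3680) (nat_lit 70368744177664) (.ev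
 (nat_lit 3693) (nat_lit 32) .dd)))) (.ch (nat_lit 28) (.ev (nat_lit 3440) (nat_lit 635517720855040) (.ev
 (nat_lit 3453) (nat_lit 32) .dd)))))))))))))))))) (.ch (nat_lit 7) (.ev (nat_lit 52) (nat_lit 634967965302832)
 (.ev (nat_lit 820) (nat_lit 8796093022208) (.ev (nat_lit 980) (nat_lit 281474976710656) (.ev (nat_lit 1396)
 (nat_lit 65536) (.ev (nat_lit 2020) (nat_lit 16777216) (.ev (nat_lit 2964) (nat_lit 67108864) (.nd (nat_lit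
 3424) (.br (nat_lit 19) (.br (nat_lit 2) (.br (nat_lit 1) (.ch (nat_lit 0) (.ev (nat_lit 3440) (nat_lit
 2101312) (.ev (nat_lit 3568) (nat_lit 512) (.ev (nat_lit 3668) (nat_lit 2199023255552) (.ev (nat_lit 3677)
 (nat_lit 2147483648) .dd))))) (.ch (nat_lit 1) (.ev (nat_lit 3440) (nat_lit 2097728) (.ev (nat_lit 3600)
 (nat_lit 2199023255552) (.ev (nat_lit 3668) (nat_lit 2147483648) (.ev (nat_lit 3677) (nat_lit 4096) .dd))))))
 (.br (nat_lit 4) (.ch (nat_lit 2) (.ev (nat_lit 3440) (nat_lit 2201172836416) (.ev (nat_lit 3508) (nat_lit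
 512) (.ev (nat_lit 3517) (nat_lit 4096) .dd)))) (.br (nat_lit 5) (.ch (nat_lit 4) (.ev (nat_lit 3440) (nat_lit
 2201172841024) .dd)) (.ch (nat_lit 5) (.ev (nat_lit 3440) (nat_lit 2201170743360) (.ev (nat_lit 3508) (nat_lit
 2097152) (.ev (nat_lit 3517) (nat_lit 512) .dd))))))) (.br (nat_lit 25) (.br (nat_lit 24) (.ch (nat_lit 19)
 (.ev (nat_lit 3440) (nat_lit 2199023260224) (.ev (nat_lit 3508) (nat_lit 2097152) (.ev (nat_lit 3517) (nat_lit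
 2147483648) .dd)))) (.ch (nat_lit 24) (.ev (nat_lit 3440) (nat_lit 4672) (.ev (nat_lit 3520) (nat_lit 2097152)
 (.ev (nat_lit 3732) (nat_lit 2147483648) (.ev (nat_lit 3741) (nat_lit 2199023255552) .dd)))))) (.br (nat_lit
 28) (.ch (nat_lit 25) (.ev (nat_lit 3440) (nat_lit 2149585408) (.ev (nat_lit 3680) (nat_lit 2199023255552)
 (.ev (nat_lit 3693) (nat_lit 64) .dd)))) (.br (nat_lit 29) (.ch (nat_lit 28) (.ev (nat_lit 3440) (nat_lit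
 2201172840960) (.ev (nat_lit 3453) (nat_lit 64) .dd))) (.ch (nat_lit 29) (.ev (nat_lit 3440) (nat_lit
 2199023260224) (.ev (nat_lit 3508) (nat_lit 2147483648) (.ev (nat_lit 3517) (nat_lit 2097152)
 .dd))))))))))))))))))) (.br (nat_lit 15) (.br (nat_lit 11) (.ch (nat_lit 8) (.ev (nat_lit 52) (nat_lit
 10447594196992) (.ev (nat_lit 116) (nat_lit 512) (.ev (nat_lit 724) (nat_lit 281474976710656) (.ev (nat_lit
 1428) (nat_lit 32) (.ev (nat_lit 2180) (nat_lit 65536) (.ev (nat_lit 2308) (nat_lit 64) (.nd (nat_lit 3424)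
 (.br (nat_lit 18) (.br (nat_lit 13) (.br (nat_lit 12) (.ch (nat_lit 6) (.ev (nat_lit 3440) (nat_lit
 635517720854544) .dd)) (.ch (nat_lit 12) (.ev (nat_lit 3440) (nat_lit 565148976676864) (.ev (nat_lit 3520)
 (nat_lit 70368744177680) .dd)))) (.br (nat_lit 15) (.ch (nat_lit 13) (.ev (nat_lit 3440) (nat_lit
 72567767433232) (.ev (nat_lit 3453) (nat_lit 562949953421312) .dd))) (.ch (nat_lit 15) (.ev (nat_lit 3440)
 (nat_lit 72567767433216) (.ev (nat_lit 3508) (nat_lit 16) (.ev (nat_lit 3517) (nat_lit 562949953421312)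
 .dd)))))) (.br (nat_lit 26) (.br (nat_lit 19) (.ch (nat_lit 18) (.ev (nat_lit 3440) (nat_lit 635517720854528)
 (.ev (nat_lit 3453) (nat_lit 16) .dd))) (.ch (nat_lit 19) (.ev (nat_lit 3440) (nat_lit 635517720854544) .dd)))
 (.br (nat_lit 27) (.ch (nat_lit 26) (.ev (nat_lit 3440) (nat_lit 633318697598992) (.ev (nat_lit 3453) (nat_lit
 2199023255552) .dd))) (.br (nat_lit 29) (.ch (nat_lit 27) (.ev (nat_lit 3440) (nat_lit 635517720854544) .dd))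
 (.ch (nat_lit 29) (.ev (nat_lit 3440) (nat_lit 565148976676880) (.ev (nat_lit 3453) (nat_lit 70368744177664)
 .dd))))))))))))))) (.br (nat_lit 12) (.ch (nat_lit 11) (.ev (nat_lit 52) (nat_lit 575594354245696) (.ev
 (nat_lit 628) (nat_lit 512) (.ev (nat_lit 1076) (nat_lit 32) (.ev (nat_lit 1300) (nat_lit 16) (.ev (nat_lit
 1332) (nat_lit 70368744177664) (.ev (nat_lit 2052) (nat_lit 67108864) (.ev (nat_lit 2180) (nat_lit
 281474976710656) (.ev (nat_lit 2724) (nat_lit 2147483648) (.nd (nat_lit 3424) (.br (nat_lit 15) (.br (nat_lit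
 2) (.br (nat_lit 1) (.ch (nat_lit 0) (.ev (nat_lit 3440) (nat_lit 2101248) .dd)) (.ch (nat_lit 1) (.ev
 (nat_lit 3440) (nat_lit 2101248) .dd))) (.br (nat_lit 6) (.ch (nat_lit 2) (.ev (nat_lit 3440) (nat_lit
 2101248) .dd)) (.br (nat_lit 12) (.ch (nat_lit 6) (.ev (nat_lit 3440) (nat_lit 2101248) .dd)) (.ch (nat_lit
 12) (.nd (nat_lit 3776) (.br (nat_lit 15) (.ch (nat_lit 12) (.ev (nat_lit 3792) (nat_lit 2101248) .dd)) (.ch
 (nat_lit 15) (.fin (nat_lit 576456904004813368))))))))) (.br (nat_lit 21) (.br (nat_lit 18) (.ch (nat_lit 15)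
 (.ev (nat_lit 3440) (nat_lit 2101248) .dd)) (.br (nat_lit 20) (.ch (nat_lit 18) (.ev (nat_lit 3440) (nat_lit
 2101248) .dd)) (.ch (nat_lit 20) (.ev (nat_lit 3440) (nat_lit 2101248) .dd)))) (.br (nat_lit 25) (.ch (nat_lit
 21) (.ev (nat_lit 3648) (nat_lit 2097152) (.ev (nat_lit 3661) (nat_lit 4096) .dd))) (.br (nat_lit 28) (.ch
 (nat_lit 25) (.ev (nat_lit 3440) (nat_lit 2101248) .dd)) (.ch (nat_lit 28) (.ev (nat_lit 3440) (nat_lit 4096)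
 (.ev (nat_lit 3453) (nat_lit 2097152) .dd))))))))))))))))) (.ch (nat_lit 12) (.ev (nat_lit 52) (nat_lit
 281477191631456) (.ev (nat_lit 212) (nat_lit 2097152) (.ev (nat_lit 884) (nat_lit 549755813888) (.ev (nat_lit
 2180) (nat_lit 16777216) (.ev (nat_lit 2580) (nat_lit 16) (.ev (nat_lit 2676) (nat_lit 70368744177664) (.nd
 (nat_lit 3424) (.br (nat_lit 19) (.br (nat_lit 12) (.br (nat_lit 6) (.ch (nat_lit 1) (.ev (nat_lit 3440)
 (nat_lit 571746046443520) (.ev (nat_lit 3536) (nat_lit 2199023255552) (.ev (nat_lit 3584) (nat_lit 4096) (.ev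
 (nat_lit 3597) (nat_lit 1099511627776) .dd))))) (.ch (nat_lit 6) (.ev (nat_lit 3440) (nat_lit 566248488308736)
 (.ev (nat_lit 3453) (nat_lit 8796093022208) .dd)))) (.br (nat_lit 15) (.ch (nat_lit 12) (.ev (nat_lit 3440)
 (nat_lit 572845558075392) (.ev (nat_lit 3453) (nat_lit 2199023255552) .dd))) (.br (nat_lit 18) (.ch (nat_lit
 15) (.ev (nat_lit 3440) (nat_lit 3298534887424) (.ev (nat_lit 3680) (nat_lit 562949953421312) (.ev (nat_lit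
 3693) (nat_lit 8796093022208) .dd)))) (.ch (nat_lit 18) (.ev (nat_lit 3440) (nat_lit 573945069703168) (.ev
 (nat_lit 3453) (nat_lit 1099511627776) .dd)))))) (.br (nat_lit 24) (.br (nat_lit 21) (.ch (nat_lit 19) (.ev
 (nat_lit 3440) (nat_lit 10995116277760) (.ev (nat_lit 3508) (nat_lit 562949953421312) (.ev (nat_lit 3668)
 (nat_lit 4096) (.ev (nat_lit 3677) (nat_lit 1099511627776) .dd))))) (.ch (nat_lit 21) (.ev (nat_lit 3440)
 (nat_lit 573945069699072) (.ev (nat_lit 3668) (nat_lit 4096) (.ev (nat_lit 3677) (nat_lit 1099511627776)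
 .dd))))) (.br (nat_lit 26) (.ch (nat_lit 24) (.ev (nat_lit 3440) (nat_lit 573945069703168) (.ev (nat_lit 3453)
 (nat_lit 1099511627776) .dd))) (.br (nat_lit 27) (.ch (nat_lit 26) (.ev (nat_lit 3440) (nat_lit
 566248488304640) (.ev (nat_lit 3668) (nat_lit 4096) (.ev (nat_lit 3677) (nat_lit 8796093022208) .dd)))) (.ch
 (nat_lit 27) (.ev (nat_lit 3440) (nat_lit 566248488308736) (.ev (nat_lit 3453) (nat_lit 8796093022208)
 .dd))))))))))))))))) (.br (nat_lit 16) (.ch (nat_lit 15) (.ev (nat_lit 52) (nat_lit 362838921314912) (.ev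
 (nat_lit 724) (nat_lit 2147483648) (.ev (nat_lit 756) (nat_lit 16) (.ev (nat_lit 1012) (nat_lit 549755813888)
 (.ev (nat_lit 1204) (nat_lit 1099511627776) (.ev (nat_lit 1508) (nat_lit 562949953421312) (.ev (nat_lit 2996)
 (nat_lit 65536) (.nd (nat_lit 3424) (.br (nat_lit 18) (.br (nat_lit 4) (.br (nat_lit 1) (.ch (nat_lit 0) (.ev
 (nat_lit 3440) (nat_lit 2101248) .dd)) (.ch (nat_lit 1) (.ev (nat_lit 3440) (nat_lit 2101248) .dd))) (.br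
 (nat_lit 12) (.ch (nat_lit 4) (.ev (nat_lit 3440) (nat_lit 2101248) .dd)) (.br (nat_lit 13) (.ch (nat_lit 12)
 (.nd (nat_lit 3776) (.br (nat_lit 23) (.ch (nat_lit 15) (.fin (nat_lit 576456904004813368))) (.ch (nat_lit 23)
 (.ev (nat_lit 3792) (nat_lit 2101248) .dd))))) (.ch (nat_lit 13) (.ev (nat_lit 3440) (nat_lit 2101248)
 .dd))))) (.br (nat_lit 27) (.br (nat_lit 19) (.ch (nat_lit 18) (.ev (nat_lit 3440) (nat_lit 2101248) .dd))
 (.br (nat_lit 21) (.ch (nat_lit 19) (.ev (nat_lit 3648) (nat_lit 2097152) (.ev (nat_lit 3661) (nat_lit 4096)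
 .dd))) (.ch (nat_lit 21) (.ev (nat_lit 3440) (nat_lit 4096) (.ev (nat_lit 3453) (nat_lit 2097152) .dd)))))
 (.br (nat_lit 28) (.ch (nat_lit 27) (.ev (nat_lit 3440) (nat_lit 2101248) .dd)) (.br (nat_lit 29) (.ch
 (nat_lit 28) (.ev (nat_lit 3440) (nat_lit 2101248) .dd)) (.ch (nat_lit 29) (.ev (nat_lit 3440) (nat_lit
 2101248) .dd))))))))))))))) (.br (nat_lit 18) (.ch (nat_lit 16) (.ev (nat_lit 52) (nat_lit 572845560496160)
 (.ev (nat_lit 404) (nat_lit 512) (.ev (nat_lit 596) (nat_lit 2199023255552) (.ev (nat_lit 1268) (nat_lit 16)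
 (.ev (nat_lit 1844) (nat_lit 64) (.ev (nat_lit 2148) (nat_lit 549755813888) (.nd (nat_lit 3424) (.br (nat_lit
 13) (.br (nat_lit 4) (.br (nat_lit 2) (.ch (nat_lit 0) (.ev (nat_lit 3440) (nat_lit 351843788001280) (.ev
 (nat_lit 3508) (nat_lit 16777216) (.ev (nat_lit 3517) (nat_lit 2147483648) .dd)))) (.ch (nat_lit 2) (.ev
 (nat_lit 3440) (nat_lit 351845885153280) (.ev (nat_lit 3453) (nat_lit 67108864) .dd)))) (.br (nat_lit 12) (.ch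
 (nat_lit 4) (.ev (nat_lit 3440) (nat_lit 351845952262144) .dd)) (.ch (nat_lit 12) (.ev (nat_lit 3440) (nat_lit
 70370908438528) (.ev (nat_lit 3456) (nat_lit 4096) (.ev (nat_lit 3680) (nat_lit 281475043819520) .dd))))))
 (.br (nat_lit 27) (.br (nat_lit 20) (.ch (nat_lit 13) (.ev (nat_lit 3440) (nat_lit 281477208080384) (.ev
 (nat_lit 3508) (nat_lit 4096) (.ev (nat_lit 3517) (nat_lit 70368744177664) .dd)))) (.ch (nat_lit 20) (.ev
 (nat_lit 3440) (nat_lit 281477208084480) (.ev (nat_lit 3453) (nat_lit 70368744177664) .dd)))) (.br (nat_lit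
 28) (.ch (nat_lit 27) (.ev (nat_lit 3440) (nat_lit 70370975551488) (.ev (nat_lit 3453) (nat_lit
 281474976710656) .dd))) (.br (nat_lit 29) (.ch (nat_lit 28) (.ev (nat_lit 3440) (nat_lit 70370908442624) (.ev
 (nat_lit 3508) (nat_lit 67108864) (.ev (nat_lit 3517) (nat_lit 281474976710656) .dd)))) (.ch (nat_lit 29) (.ev
 (nat_lit 3440) (nat_lit 70370975551488) (.ev (nat_lit 3453) (nat_lit 281474976710656) .dd))))))))))))))) (.ch
 (nat_lit 18) (.ev (nat_lit 52) (nat_lit 79164923187280) (.ev (nat_lit 1216) (nat_lit 848275368641056)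
 .dd))))))) (.br (nat_lit 29) (.br (nat_lit 23) (.br (nat_lit 22) (.ch (nat_lit 19) (.ev (nat_lit 52) (nat_lit
 574494827937792) (.ev (nat_lit 340) (nat_lit 4096) (.ev (nat_lit 532) (nat_lit 512) (.ev (nat_lit 788)
 (nat_lit 16777216) (.ev (nat_lit 1700) (nat_lit 1099511627776) (.ev (nat_lit 2308) (nat_lit 32) (.ev (nat_lit
 3028) (nat_lit 70368744177664) (.nd (nat_lit 3424) (.br (nat_lit 13) (.br (nat_lit 2) (.br (nat_lit 1) (.ch
 (nat_lit 0) (.ev (nat_lit 3440) (nat_lit 281475043819600) (.ev (nat_lit 3453) (nat_lit 2147483648) .dd))) (.ch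
 (nat_lit 1) (.ev (nat_lit 3440) (nat_lit 281477191303248) .dd))) (.br (nat_lit 4) (.ch (nat_lit 2) (.ev
 (nat_lit 3440) (nat_lit 281477191303232) (.ev (nat_lit 3453) (nat_lit 16) .dd))) (.br (nat_lit 5) (.ch
 (nat_lit 4) (.ev (nat_lit 3440) (nat_lit 281477191303232) (.ev (nat_lit 3453) (nat_lit 16) .dd))) (.ch
 (nat_lit 5) (.ev (nat_lit 3440) (nat_lit 281477191303232) (.ev (nat_lit 3453) (nat_lit 16) .dd)))))) (.br
 (nat_lit 24) (.br (nat_lit 19) (.ch (nat_lit 13) (.ev (nat_lit 3440) (nat_lit 281477191303248) .dd)) (.br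
 (nat_lit 21) (.ch (nat_lit 19) (.ev (nat_lit 3440) (nat_lit 2214592592) (.ev (nat_lit 3453) (nat_lit
 281474976710656) .dd))) (.ch (nat_lit 21) (.ev (nat_lit 3440) (nat_lit 2147483728) (.ev (nat_lit 3732)
 (nat_lit 281474976710656) (.ev (nat_lit 3741) (nat_lit 67108864) .dd)))))) (.br (nat_lit 25) (.ch (nat_lit 24)
 (.ev (nat_lit 3440) (nat_lit 281477191303248) .dd)) (.br (nat_lit 26) (.ch (nat_lit 25) (.ev (nat_lit 3440)
 (nat_lit 281477191303232) (.ev (nat_lit 3453) (nat_lit 16) .dd))) (.ch (nat_lit 26) (.ev (nat_lit 3440)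
 (nat_lit 16) (.ev (nat_lit 3668) (nat_lit 2147483712) (.ev (nat_lit 3732) (nat_lit 281474976710656) (.ev
 (nat_lit 3741) (nat_lit 67108864) .dd)))))))))))))))))) (.ch (nat_lit 22) (.ev (nat_lit 52) (nat_lit
 848275385090560) (.ev (nat_lit 84) (nat_lit 4096) (.ev (nat_lit 1332) (nat_lit 65536) (.ev (nat_lit 1908)
 (nat_lit 67108864) (.ev (nat_lit 2020) (nat_lit 70368744177664) (.nd (nat_lit 3424) (.br (nat_lit 15) (.br
 (nat_lit 5) (.br (nat_lit 4) (.ch (nat_lit 0) (.ev (nat_lit 3440) (nat_lit 8796093022320) (.ev (nat_lit 3508)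
 (nat_lit 262144) (.ev (nat_lit 3517) (nat_lit 2097152) .dd)))) (.ch (nat_lit 4) (.ev (nat_lit 3440) (nat_lit
 2359392) (.ev (nat_lit 3508) (nat_lit 16) (.ev (nat_lit 3517) (nat_lit 8796093022208) .dd))))) (.br (nat_lit
 13) (.ch (nat_lit 5) (.ev (nat_lit 3440) (nat_lit 8796095381616) .dd)) (.ch (nat_lit 13) (.ev (nat_lit 3440)
 (nat_lit 2359408) (.ev (nat_lit 3453) (nat_lit 8796093022208) .dd))))) (.br (nat_lit 24) (.br (nat_lit 18)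
 (.ch (nat_lit 15) (.ev (nat_lit 3440) (nat_lit 2359328) (.ev (nat_lit 3456) (nat_lit 64) (.ev (nat_lit 3680)
 (nat_lit 8796093022224) .dd)))) (.ch (nat_lit 18) (.ev (nat_lit 3440) (nat_lit 8796095381600) (.ev (nat_lit
 3453) (nat_lit 16) .dd)))) (.br (nat_lit 25) (.ch (nat_lit 24) (.ev (nat_lit 3440) (nat_lit 8796095381520)
 (.ev (nat_lit 3508) (nat_lit 32) (.ev (nat_lit 3517) (nat_lit 64) .dd)))) (.br (nat_lit 26) (.ch (nat_lit 25)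
 (.ev (nat_lit 3440) (nat_lit 8796095381584) (.ev (nat_lit 3453) (nat_lit 32) .dd))) (.ch (nat_lit 26) (.ev
 (nat_lit 3440) (nat_lit 2359408) (.ev (nat_lit 3453) (nat_lit 8796093022208) .dd))))))))))))))) (.br (nat_lit
 24) (.ch (nat_lit 23) (.ev (nat_lit 52) (nat_lit 292470092993088) (.ev (nat_lit 660) (nat_lit 2097152) (.ev
 (nat_lit 916) (nat_lit 70368744177664) (.ev (nat_lit 1604) (nat_lit 1099511627776) (.ev (nat_lit 1668)
 (nat_lit 2147483648) (.ev (nat_lit 2340) (nat_lit 65536) (.ev (nat_lit 2500) (nat_lit 549755813888) (.ev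
 (nat_lit 2532) (nat_lit 32) (.nd (nat_lit 3424) (.br (nat_lit 15) (.br (nat_lit 2) (.br (nat_lit 1) (.ch
 (nat_lit 0) (.ev (nat_lit 3440) (nat_lit 17039376) (.ev (nat_lit 3520) (nat_lit 562950020530176) .dd))) (.ch
 (nat_lit 1) (.ev (nat_lit 3440) (nat_lit 562950037569552) .dd))) (.br (nat_lit 5) (.ch (nat_lit 2) (.ev
 (nat_lit 3440) (nat_lit 562950037307392) (.ev (nat_lit 3508) (nat_lit 16) (.ev (nat_lit 3517) (nat_lit 262144)
 .dd)))) (.br (nat_lit 6) (.ch (nat_lit 5) (.ev (nat_lit 3440) (nat_lit 562950020792336) (.ev (nat_lit 3453)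
 (nat_lit 16777216) .dd))) (.ch (nat_lit 6) (.ev (nat_lit 3440) (nat_lit 16777232) (.ev (nat_lit 3732) (nat_lit
 67108864) (.fin (nat_lit 576488789876621902)))))))) (.br (nat_lit 21) (.br (nat_lit 18) (.ch (nat_lit 15) (.ev
 (nat_lit 3440) (nat_lit 562949970460672) (.ev (nat_lit 3508) (nat_lit 67108864) (.ev (nat_lit 3517) (nat_lit
 16) .dd)))) (.br (nat_lit 20) (.ch (nat_lit 18) (.ev (nat_lit 3440) (nat_lit 562950020792320) (.ev (nat_lit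
 3508) (nat_lit 16) (.ev (nat_lit 3517) (nat_lit 16777216) .dd)))) (.ch (nat_lit 20) (.ev (nat_lit 3440)
 (nat_lit 562950037307392) (.ev (nat_lit 3668) (nat_lit 262144) (.ev (nat_lit 3677) (nat_lit 16) .dd)))))) (.br
 (nat_lit 24) (.ch (nat_lit 21) (.ev (nat_lit 3440) (nat_lit 562950037569552) .dd)) (.br (nat_lit 29) (.ch
 (nat_lit 24) (.ev (nat_lit 3440) (nat_lit 562950020792336) (.ev (nat_lit 3453) (nat_lit 16777216) .dd))) (.ch
 (nat_lit 29) (.ev (nat_lit 3440) (nat_lit 67371024) (.ev (nat_lit 3508) (nat_lit 16777216) (.ev (nat_lit 3517)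
 (nat_lit 562949953421312) .dd)))))))))))))))))) (.br (nat_lit 26) (.ch (nat_lit 24) (.ev (nat_lit 52) (nat_lit
 362838837232160) (.ev (nat_lit 180) (nat_lit 2097152) (.ev (nat_lit 1184) (nat_lit 564601452499024) .dd))))
 (.ch (nat_lit 26) (.ev (nat_lit 52) (nat_lit 564051612860432) (.ev (nat_lit 564) (nat_lit 2199023255552) (.ev
 (nat_lit 832) (nat_lit 361189655712352) .dd))))))) (.br (nat_lit 34) (.br (nat_lit 31) (.ch (nat_lit 29) (.ev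
 (nat_lit 52) (nat_lit 352393560850512) (.ev (nat_lit 564) (nat_lit 512) (.ev (nat_lit 1172) (nat_lit
 1099511627776) (.ev (nat_lit 1540) (nat_lit 8796093022208) (.ev (nat_lit 2064) (nat_lit 565151126327328)
 .dd)))))) (.br (nat_lit 33) (.ch (nat_lit 31) (.ev (nat_lit 52) (nat_lit 362291231261296) (.ev (nat_lit 2800)
 (nat_lit 565149060567040) .dd))) (.ch (nat_lit 33) (.ev (nat_lit 52) (nat_lit 572845641961584) (.ev (nat_lit
 116) (nat_lit 2199023255552) (.ev (nat_lit 788) (nat_lit 2147483648) (.ev (nat_lit 1300) (nat_lit 262144) (.ev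
 (nat_lit 3028) (nat_lit 281474976710656) (.nd (nat_lit 3424) (.br (nat_lit 20) (.br (nat_lit 12) (.br (nat_lit
 1) (.ch (nat_lit 0) (.ev (nat_lit 3440) (nat_lit 70918502154752) .dd)) (.ch (nat_lit 1) (.ev (nat_lit 3440)
 (nat_lit 70918502154752) .dd))) (.br (nat_lit 15) (.ch (nat_lit 12) (.ev (nat_lit 3440) (nat_lit 549757977088)
 (.ev (nat_lit 3453) (nat_lit 70368744177664) .dd))) (.br (nat_lit 19) (.ch (nat_lit 15) (.ev (nat_lit 3440)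
 (nat_lit 549757911552) (.ev (nat_lit 3668) (nat_lit 65536) (.ev (nat_lit 3677) (nat_lit 70368744177664)
 .dd)))) (.ch (nat_lit 19) (.ev (nat_lit 3440) (nat_lit 70918499992064) (.ev (nat_lit 3584) (nat_lit 2097152)
 (.ev (nat_lit 3597) (nat_lit 65536) .dd))))))) (.br (nat_lit 25) (.br (nat_lit 21) (.ch (nat_lit 20) (.ev
 (nat_lit 3440) (nat_lit 2162688) (.ev (nat_lit 3712) (nat_lit 512) (.ev (nat_lit 3732) (nat_lit 549755813888)
 (.ev (nat_lit 3741) (nat_lit 70368744177664) .dd))))) (.br (nat_lit 24) (.ch (nat_lit 21) (.ev (nat_lit 3440)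
 (nat_lit 70918500057600) (.ev (nat_lit 3453) (nat_lit 2097152) .dd))) (.ch (nat_lit 24) (.ev (nat_lit 3440)
 (nat_lit 70918502154752) .dd)))) (.br (nat_lit 26) (.ch (nat_lit 25) (.ev (nat_lit 3440) (nat_lit 2097664)
 (.ev (nat_lit 3508) (nat_lit 549755879424) (.ev (nat_lit 3517) (nat_lit 70368744177664) .dd)))) (.br (nat_lit
 27) (.ch (nat_lit 26) (.ev (nat_lit 3440) (nat_lit 70918502154752) .dd)) (.ch (nat_lit 27) (.ev (nat_lit 3440)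
 (nat_lit 70918502154752) .dd))))))))))))))) (.br (nat_lit 36) (.ch (nat_lit 34) (.ev (nat_lit 52) (nat_lit
 282574574321680) (.ev (nat_lit 244) (nat_lit 4096) (.ev (nat_lit 1172) (nat_lit 549755813888) (.ev (nat_lit
 1300) (nat_lit 32) (.ev (nat_lit 1540) (nat_lit 562949953421312) (.ev (nat_lit 1908) (nat_lit 65536) (.ev
 (nat_lit 3092) (nat_lit 262144) (.nd (nat_lit 3424) (.br (nat_lit 13) (.br (nat_lit 5) (.br (nat_lit 2) (.ch
 (nat_lit 0) (.ev (nat_lit 3440) (nat_lit 79164837200448) (.ev (nat_lit 3732) (nat_lit 2147483648) (.ev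
 (nat_lit 3741) (nat_lit 2199023255552) .dd)))) (.br (nat_lit 4) (.ch (nat_lit 2) (.ev (nat_lit 3440) (nat_lit
 81366007939648) .dd)) (.ch (nat_lit 4) (.ev (nat_lit 3440) (nat_lit 81366007939072) (.ev (nat_lit 3456)
 (nat_lit 64) (.ev (nat_lit 3469) (nat_lit 512) .dd)))))) (.br (nat_lit 6) (.ch (nat_lit 5) (.ev (nat_lit 3440)
 (nat_lit 81366007939648) .dd)) (.br (nat_lit 12) (.ch (nat_lit 6) (.ev (nat_lit 3440) (nat_lit 72569914917440)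
 (.ev (nat_lit 3453) (nat_lit 8796093022208) .dd))) (.ch (nat_lit 12) (.ev (nat_lit 3440) (nat_lit
 70370891661824) (.ev (nat_lit 3508) (nat_lit 2199023255616) (.ev (nat_lit 3517) (nat_lit 8796093022208)
 .dd))))))) (.br (nat_lit 24) (.br (nat_lit 20) (.ch (nat_lit 13) (.ev (nat_lit 3440) (nat_lit 10997263761984)
 (.ev (nat_lit 3453) (nat_lit 70368744177664) .dd))) (.br (nat_lit 21) (.ch (nat_lit 20) (.ev (nat_lit 3440)
 (nat_lit 81366007939136) (.ev (nat_lit 3453) (nat_lit 512) .dd))) (.ch (nat_lit 21) (.ev (nat_lit 3440)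
 (nat_lit 81366007939072) (.ev (nat_lit 3668) (nat_lit 64) (.ev (nat_lit 3677) (nat_lit 512) .dd)))))) (.br
 (nat_lit 27) (.br (nat_lit 26) (.ch (nat_lit 24) (.ev (nat_lit 3440) (nat_lit 10997263761984) (.ev (nat_lit
 3453) (nat_lit 70368744177664) .dd))) (.ch (nat_lit 26) (.ev (nat_lit 3440) (nat_lit 70368744178176) (.ev
 (nat_lit 3508) (nat_lit 8796093022208) (.ev (nat_lit 3520) (nat_lit 2199023255552) (.ev (nat_lit 3668)
 (nat_lit 64) (.ev (nat_lit 3677) (nat_lit 2147483648) .dd))))))) (.br (nat_lit 29) (.ch (nat_lit 27) (.ev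
 (nat_lit 3440) (nat_lit 72569914917440) (.ev (nat_lit 3453) (nat_lit 8796093022208) .dd))) (.ch (nat_lit 29)
 (.ev (nat_lit 3440) (nat_lit 81363860455488) (.ev (nat_lit 3584) (nat_lit 2147483648) (.ev (nat_lit 3597)
 (nat_lit 512) .dd))))))))))))))))) (.br (nat_lit 38) (.ch (nat_lit 36) (.ev (nat_lit 52) (nat_lit
 633320912196160) (.ev (nat_lit 84) (nat_lit 2097152) (.ev (nat_lit 340) (nat_lit 2199023255552) (.ev (nat_lit
 916) (nat_lit 65536) (.ev (nat_lit 1428) (nat_lit 262144) (.ev (nat_lit 1844) (nat_lit 8796093022208) (.nd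
 (nat_lit 3424) (.br (nat_lit 24) (.br (nat_lit 15) (.br (nat_lit 1) (.ch (nat_lit 0) (.ev (nat_lit 3440)
 (nat_lit 283124260929584) .dd)) (.ch (nat_lit 1) (.ev (nat_lit 3440) (nat_lit 1649284218912) (.ev (nat_lit
 3508) (nat_lit 16) (.ev (nat_lit 3517) (nat_lit 281474976710656) .dd))))) (.br (nat_lit 20) (.ch (nat_lit 15)
 (.ev (nat_lit 3440) (nat_lit 282574505115680) (.ev (nat_lit 3508) (nat_lit 16) (.ev (nat_lit 3517) (nat_lit
 549755813888) .dd)))) (.br (nat_lit 21) (.ch (nat_lit 20) (.ev (nat_lit 3440) (nat_lit 282574505115648) (.ev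
 (nat_lit 3520) (nat_lit 16) (.ev (nat_lit 3732) (nat_lit 32) (.ev (nat_lit 3741) (nat_lit 549755813888)
 .dd))))) (.ch (nat_lit 21) (.ev (nat_lit 3440) (nat_lit 282024749301776) (.ev (nat_lit 3680) (nat_lit 32) (.ev
 (nat_lit 3693) (nat_lit 1099511627776) .dd))))))) (.br (nat_lit 27) (.br (nat_lit 25) (.ch (nat_lit 24) (.ev
 (nat_lit 3440) (nat_lit 282024749301808) (.ev (nat_lit 3453) (nat_lit 1099511627776) .dd))) (.ch (nat_lit 25)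
 (.ev (nat_lit 3440) (nat_lit 282574505115680) (.ev (nat_lit 3508) (nat_lit 549755813888) (.ev (nat_lit 3517)
 (nat_lit 16) .dd))))) (.br (nat_lit 28) (.ch (nat_lit 27) (.ev (nat_lit 3440) (nat_lit 1099528405008) (.ev
 (nat_lit 3568) (nat_lit 281474976710656) (.ev (nat_lit 3668) (nat_lit 32) (.ev (nat_lit 3677) (nat_lit
 549755813888) .dd))))) (.br (nat_lit 29) (.ch (nat_lit 28) (.ev (nat_lit 3440) (nat_lit 282574488338448) (.ev
 (nat_lit 3600) (nat_lit 32) (.ev (nat_lit 3668) (nat_lit 549755813888) (.ev (nat_lit 3677) (nat_lit 16777216)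
 .dd))))) (.ch (nat_lit 29) (.ev (nat_lit 3440) (nat_lit 1649267441712) (.ev (nat_lit 3508) (nat_lit
 281474976710656) (.ev (nat_lit 3517) (nat_lit 16777216) .dd)))))))))))))))) (.ch (nat_lit 38) (.ev (nat_lit
 52) (nat_lit 292472307581456) (.ev (nat_lit 724) (nat_lit 70368744177664) (.ev (nat_lit 820) (nat_lit 262208)
 (.ev (nat_lit 1140) (nat_lit 4096) (.ev (nat_lit 2128) (nat_lit 564599239802912) .dd))))))))))) (.br (nat_lit
 54) (.br (nat_lit 47) (.br (nat_lit 43) (.br (nat_lit 42) (.ch (nat_lit 39) (.ev (nat_lit 52) (nat_lit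
 9348013097584) (.ev (nat_lit 628) (nat_lit 4096) (.ev (nat_lit 1236) (nat_lit 1099511627776) (.ev (nat_lit
 1268) (nat_lit 262144) (.nd (nat_lit 3424) (.br (nat_lit 19) (.br (nat_lit 4) (.br (nat_lit 2) (.ch (nat_lit
 0) (.ev (nat_lit 3440) (nat_lit 914793676472320) (.ev (nat_lit 3508) (nat_lit 67108864) (.ev (nat_lit 3517)
 (nat_lit 2199023255552) .dd)))) (.ch (nat_lit 2) (.ev (nat_lit 3440) (nat_lit 914793676472320) (.ev (nat_lit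
 3568) (nat_lit 2199023255552) (.ev (nat_lit 3581) (nat_lit 67108864) .dd))))) (.br (nat_lit 15) (.ch (nat_lit
 4) (.ev (nat_lit 3440) (nat_lit 916992766836736) .dd)) (.ch (nat_lit 15) (.ev (nat_lit 3440) (nat_lit
 846624022593536) (.ev (nat_lit 3568) (nat_lit 70368744243200) .dd))))) (.br (nat_lit 25) (.br (nat_lit 24)
 (.ch (nat_lit 19) (.ev (nat_lit 3440) (nat_lit 635517790060544) (.ev (nat_lit 3668) (nat_lit 281474976710656)
 (.ev (nat_lit 3677) (nat_lit 65536) .dd)))) (.ch (nat_lit 24) (.ev (nat_lit 3440) (nat_lit 844424999403520)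
 (.ev (nat_lit 3668) (nat_lit 2199023255552) (.ev (nat_lit 3677) (nat_lit 70368744177664) .dd))))) (.br
 (nat_lit 27) (.ch (nat_lit 25) (.ev (nat_lit 3440) (nat_lit 351843722985472) (.ev (nat_lit 3668) (nat_lit
 565148976676864) (.fin (nat_lit 576468998679904834))))) (.br (nat_lit 29) (.ch (nat_lit 27) (.ev (nat_lit
 3440) (nat_lit 916992766836736) .dd)) (.ch (nat_lit 29) (.ev (nat_lit 3440) (nat_lit 2199090429952) (.ev
 (nat_lit 3472) (nat_lit 2097152) (.ev (nat_lit 3508) (nat_lit 844424930131968) (.ev (nat_lit 3517) (nat_lit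
 70368744177664) .dd))))))))))))))) (.ch (nat_lit 42) (.ev (nat_lit 52) (nat_lit 362838854271088) (.ev (nat_lit
 212) (nat_lit 4096) (.ev (nat_lit 660) (nat_lit 512) (.ev (nat_lit 2624) (nat_lit 564601437552640) .dd))))))
 (.br (nat_lit 44) (.ch (nat_lit 43) (.ev (nat_lit 52) (nat_lit 565151193632768) (.ev (nat_lit 788) (nat_lit
 65536) (.ev (nat_lit 948) (nat_lit 8796093022208) (.ev (nat_lit 1140) (nat_lit 512) (.ev (nat_lit 1508)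
 (nat_lit 16) (.ev (nat_lit 2352) (nat_lit 353493005107296) .dd))))))) (.br (nat_lit 46) (.ch (nat_lit 44) (.ev
 (nat_lit 52) (nat_lit 845524528070672) (.ev (nat_lit 308) (nat_lit 4096) (.ev (nat_lit 948) (nat_lit 32) (.ev
 (nat_lit 1204) (nat_lit 549755813888) (.ev (nat_lit 3408) (nat_lit 70368744177664) (.nd (nat_lit 3424) (.br
 (nat_lit 20) (.br (nat_lit 18) (.br (nat_lit 2) (.ch (nat_lit 0) (.ev (nat_lit 3440) (nat_lit 8798240505920)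
 (.ev (nat_lit 3680) (nat_lit 2199023255552) (.ev (nat_lit 3693) (nat_lit 512) .dd)))) (.ch (nat_lit 2) (.ev
 (nat_lit 3440) (nat_lit 2199023256128) (.ev (nat_lit 3456) (nat_lit 2147483648) (.ev (nat_lit 3469) (nat_lit
 8796093022208) .dd))))) (.br (nat_lit 19) (.ch (nat_lit 18) (.ev (nat_lit 3440) (nat_lit 2201170739776) (.ev
 (nat_lit 3453) (nat_lit 8796093022208) .dd))) (.ch (nat_lit 19) (.ev (nat_lit 3440) (nat_lit 8796093022720)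
 (.ev (nat_lit 3508) (nat_lit 64) (.ev (nat_lit 3520) (nat_lit 2199023255552) (.ev (nat_lit 3533) (nat_lit
 2147483648) .dd))))))) (.br (nat_lit 24) (.br (nat_lit 21) (.ch (nat_lit 20) (.ev (nat_lit 3440) (nat_lit
 10997263761472) (.ev (nat_lit 3453) (nat_lit 512) .dd))) (.ch (nat_lit 21) (.ev (nat_lit 3440) (nat_lit
 10997263761984) .dd))) (.br (nat_lit 27) (.ch (nat_lit 24) (.ev (nat_lit 3440) (nat_lit 8798240506368) (.ev
 (nat_lit 3456) (nat_lit 2199023255552) (.ev (nat_lit 3469) (nat_lit 64) .dd)))) (.br (nat_lit 29) (.ch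
 (nat_lit 27) (.ev (nat_lit 3440) (nat_lit 2201170739776) (.ev (nat_lit 3453) (nat_lit 8796093022208) .dd)))
 (.ch (nat_lit 29) (.ev (nat_lit 3440) (nat_lit 10995116278336) (.ev (nat_lit 3453) (nat_lit 2147483648)
 .dd)))))))))))))) (.ch (nat_lit 46) (.ev (nat_lit 52) (nat_lit 74219201302544) (.ev (nat_lit 340) (nat_lit
 512) (.ev (nat_lit 1332) (nat_lit 281474976710656) (.ev (nat_lit 1540) (nat_lit 262144) (.ev (nat_lit 2308)
 (nat_lit 562949953421312) (.nd (nat_lit 3424) (.br (nat_lit 13) (.br (nat_lit 4) (.br (nat_lit 1) (.ch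
 (nat_lit 0) (.ev (nat_lit 3440) (nat_lit 8796160131168) .dd)) (.ch (nat_lit 1) (.ev (nat_lit 3440) (nat_lit
 8796160131168) .dd))) (.br (nat_lit 5) (.ch (nat_lit 4) (.ev (nat_lit 3440) (nat_lit 8796160131104) (.ev
 (nat_lit 3453) (nat_lit 64) .dd))) (.br (nat_lit 6) (.ch (nat_lit 5) (.ev (nat_lit 3440) (nat_lit
 8796160131168) .dd)) (.ch (nat_lit 6) (.ev (nat_lit 3440) (nat_lit 8796093022304) (.ev (nat_lit 3453) (nat_lit
 67108864) .dd)))))) (.br (nat_lit 24) (.br (nat_lit 18) (.ch (nat_lit 13) (.ev (nat_lit 3440) (nat_lit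
 67108960) (.ev (nat_lit 3453) (nat_lit 8796093022208) .dd))) (.br (nat_lit 21) (.ch (nat_lit 18) (.ev (nat_lit
 3440) (nat_lit 67108928) (.ev (nat_lit 3520) (nat_lit 32) (.ev (nat_lit 3533) (nat_lit 8796093022208) .dd))))
 (.ch (nat_lit 21) (.ev (nat_lit 3440) (nat_lit 8796160131168) .dd)))) (.br (nat_lit 25) (.ch (nat_lit 24) (.ev
 (nat_lit 3440) (nat_lit 8796160131072) (.ev (nat_lit 3584) (nat_lit 64) (.ev (nat_lit 3597) (nat_lit 32)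
 .dd)))) (.br (nat_lit 27) (.ch (nat_lit 25) (.ev (nat_lit 3440) (nat_lit 8796093022272) (.ev (nat_lit 3668)
 (nat_lit 32) (.ev (nat_lit 3677) (nat_lit 67108864) .dd)))) (.ch (nat_lit 27) (.ev (nat_lit 3440) (nat_lit
 67108960) (.ev (nat_lit 3453) (nat_lit 8796093022208) .dd))))))))))))))))) (.br (nat_lit 50) (.br (nat_lit 48)
 (.ch (nat_lit 47) (.ev (nat_lit 52) (nat_lit 355144422134272) (.ev (nat_lit 916) (nat_lit 67108864) (.ev
 (nat_lit 1792) (nat_lit 572295802585200) .dd)))) (.br (nat_lit 49) (.ch (nat_lit 48) (.ev (nat_lit 52)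
 (nat_lit 846626101133344) (.ev (nat_lit 116) (nat_lit 4096) (.ev (nat_lit 404) (nat_lit 2097152) (.ev (nat_lit
 692) (nat_lit 64) (.ev (nat_lit 788) (nat_lit 67108864) (.ev (nat_lit 948) (nat_lit 16) (.ev (nat_lit 1604)
 (nat_lit 549755813888) (.ev (nat_lit 1908) (nat_lit 70368744177664) (.ev (nat_lit 2148) (nat_lit
 1099511627776) (.nd (nat_lit 3424) (.br (nat_lit 13) (.br (nat_lit 4) (.br (nat_lit 1) (.ch (nat_lit 0) (.ev
 (nat_lit 3440) (nat_lit 8796109864960) (.ev (nat_lit 3453) (nat_lit 512) .dd))) (.ch (nat_lit 1) (.ev (nat_lit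
 3440) (nat_lit 66048) (.ev (nat_lit 3508) (nat_lit 8796093022208) (.ev (nat_lit 3517) (nat_lit 16777216)
 .dd))))) (.br (nat_lit 5) (.ch (nat_lit 4) (.ev (nat_lit 3440) (nat_lit 16843264) (.ev (nat_lit 3453) (nat_lit
 8796093022208) .dd))) (.br (nat_lit 6) (.ch (nat_lit 5) (.ev (nat_lit 3440) (nat_lit 8796093088256) (.ev
 (nat_lit 3453) (nat_lit 16777216) .dd))) (.ch (nat_lit 6) (.ev (nat_lit 3440) (nat_lit 8796109864960) (.ev
 (nat_lit 3453) (nat_lit 512) .dd)))))) (.br (nat_lit 19) (.br (nat_lit 18) (.ch (nat_lit 13) (.ev (nat_lit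
 3440) (nat_lit 16843264) (.ev (nat_lit 3453) (nat_lit 8796093022208) .dd))) (.ch (nat_lit 18) (.ev (nat_lit
 3440) (nat_lit 8796093088256) (.ev (nat_lit 3453) (nat_lit 16777216) .dd)))) (.br (nat_lit 21) (.ch (nat_lit
 19) (.ev (nat_lit 3440) (nat_lit 8796109864960) (.ev (nat_lit 3453) (nat_lit 512) .dd))) (.br (nat_lit 26)
 (.ch (nat_lit 21) (.ev (nat_lit 3440) (nat_lit 8796109864960) (.ev (nat_lit 3453) (nat_lit 512) .dd))) (.ch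
 (nat_lit 26) (.ev (nat_lit 3440) (nat_lit 16777728) (.ev (nat_lit 3668) (nat_lit 65536) (.ev (nat_lit 3677)
 (nat_lit 8796093022208) .dd))))))))))))))))))) (.ch (nat_lit 49) (.ev (nat_lit 52) (nat_lit 634967981822496)
 (.ev (nat_lit 148) (nat_lit 2097152) (.ev (nat_lit 692) (nat_lit 8796093022208) (.ev (nat_lit 788) (nat_lit
 281474976710656) (.ev (nat_lit 820) (nat_lit 16) (.ev (nat_lit 916) (nat_lit 2147483648) (.ev (nat_lit 3092)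
 (nat_lit 64) (.nd (nat_lit 3424) (.br (nat_lit 13) (.br (nat_lit 6) (.br (nat_lit 5) (.ch (nat_lit 0) (.ev
 (nat_lit 3440) (nat_lit 327680) (.ev (nat_lit 3508) (nat_lit 2199023255552) (.ev (nat_lit 3517) (nat_lit
 67108864) .dd)))) (.ch (nat_lit 5) (.ev (nat_lit 3440) (nat_lit 2199090429952) (.ev (nat_lit 3453) (nat_lit
 262144) .dd)))) (.br (nat_lit 12) (.ch (nat_lit 6) (.ev (nat_lit 3440) (nat_lit 2199090364416) (.ev (nat_lit
 3552) (nat_lit 65536) (.ev (nat_lit 3565) (nat_lit 262144) .dd)))) (.ch (nat_lit 12) (.ev (nat_lit 3440)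
 (nat_lit 65536) (.ev (nat_lit 3520) (nat_lit 262144) (.ev (nat_lit 3668) (nat_lit 2199023255552) (.ev (nat_lit
 3677) (nat_lit 67108864) .dd))))))) (.br (nat_lit 20) (.br (nat_lit 18) (.ch (nat_lit 13) (.ev (nat_lit 3440)
 (nat_lit 2199090692096) .dd)) (.ch (nat_lit 18) (.ev (nat_lit 3440) (nat_lit 2199090692096) .dd))) (.br
 (nat_lit 26) (.ch (nat_lit 20) (.ev (nat_lit 3440) (nat_lit 2199090692096) .dd)) (.br (nat_lit 28) (.ch
 (nat_lit 26) (.ev (nat_lit 3440) (nat_lit 327680) (.ev (nat_lit 3508) (nat_lit 2199023255552) (.ev (nat_lit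
 3517) (nat_lit 67108864) .dd)))) (.ch (nat_lit 28) (.ev (nat_lit 3440) (nat_lit 2199023321088) (.fin (nat_lit
 576465700110418480))))))))))))))))))) (.br (nat_lit 51) (.ch (nat_lit 50) (.ev (nat_lit 52) (nat_lit
 81915833029120) (.ev (nat_lit 948) (nat_lit 262144) (.ev (nat_lit 1300) (nat_lit 64) (.ev (nat_lit 1540)
 (nat_lit 16) (.ev (nat_lit 1844) (nat_lit 562949953421312) (.ev (nat_lit 2244) (nat_lit 281474976710656) (.ev
 (nat_lit 2372) (nat_lit 1099511627776) (.ev (nat_lit 2676) (nat_lit 16777216) (.ev (nat_lit 2685) (nat_lit 32)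
 .dd)))))))))) (.br (nat_lit 53) (.ch (nat_lit 51) (.ev (nat_lit 52) (nat_lit 293019850969104) (.ev (nat_lit
 468) (nat_lit 512) (.ev (nat_lit 852) (nat_lit 1099511627776) (.ev (nat_lit 2340) (nat_lit 70368811286528)
 (.ev (nat_lit 2884) (nat_lit 562949953421312) (.nd (nat_lit 3424) (.br (nat_lit 20) (.br (nat_lit 12) (.br
 (nat_lit 4) (.ch (nat_lit 1) (.ev (nat_lit 3440) (nat_lit 2164523104) .dd)) (.br (nat_lit 6) (.ch (nat_lit 4)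
 (.ev (nat_lit 3440) (nat_lit 2164523072) (.ev (nat_lit 3453) (nat_lit 32) .dd))) (.ch (nat_lit 6) (.ev
 (nat_lit 3440) (nat_lit 2147745888) (.ev (nat_lit 3453) (nat_lit 16777216) .dd))))) (.br (nat_lit 15) (.ch
 (nat_lit 12) (.ev (nat_lit 3440) (nat_lit 2164260896) (.ev (nat_lit 3668) (nat_lit 262144) (.ev (nat_lit 3677)
 (nat_lit 64) .dd)))) (.br (nat_lit 18) (.ch (nat_lit 15) (.ev (nat_lit 3440) (nat_lit 2164523104) .dd)) (.ch
 (nat_lit 18) (.ev (nat_lit 3440) (nat_lit 2147745888) (.ev (nat_lit 3453) (nat_lit 16777216) .dd)))))) (.br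
 (nat_lit 25) (.br (nat_lit 21) (.ch (nat_lit 20) (.ev (nat_lit 3440) (nat_lit 2164260864) (.ev (nat_lit 3456)
 (nat_lit 64) (.ev (nat_lit 3632) (nat_lit 262144) (.ev (nat_lit 3645) (nat_lit 32) .dd))))) (.br (nat_lit 24)
 (.ch (nat_lit 21) (.ev (nat_lit 3440) (nat_lit 2164523008) (.ev (nat_lit 3536) (nat_lit 64) (.ev (nat_lit
 3549) (nat_lit 32) .dd)))) (.ch (nat_lit 24) (.ev (nat_lit 3440) (nat_lit 2147745888) (.ev (nat_lit 3453)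
 (nat_lit 16777216) .dd))))) (.br (nat_lit 27) (.br (nat_lit 26) (.ch (nat_lit 25) (.ev (nat_lit 3440) (nat_lit
 17039456) (.ev (nat_lit 3453) (nat_lit 2147483648) .dd))) (.ch (nat_lit 26) (.ev (nat_lit 3440) (nat_lit
 2164523040) (.ev (nat_lit 3453) (nat_lit 64) .dd)))) (.br (nat_lit 29) (.ch (nat_lit 27) (.ev (nat_lit 3440)
 (nat_lit 2164523072) (.ev (nat_lit 3453) (nat_lit 32) .dd))) (.ch (nat_lit 29) (.ev (nat_lit 3440) (nat_lit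
 262240) (.ev (nat_lit 3508) (nat_lit 16777216) (.ev (nat_lit 3517) (nat_lit 2147483648) .dd)))))))))))))))
 (.ch (nat_lit 53) (.ev (nat_lit 52) (nat_lit 79167068574304) (.ev (nat_lit 212) (nat_lit 2199023255552) (.ev
 (nat_lit 1680) (nat_lit 846074199998480) .dd)))))))) (.br (nat_lit 64) (.br (nat_lit 57) (.br (nat_lit 55)
 (.ch (nat_lit 54) (.ev (nat_lit 52) (nat_lit 79167003623936) (.ev (nat_lit 532) (nat_lit 4096) (.ev (nat_lit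
 884) (nat_lit 1099511627776) (.ev (nat_lit 1236) (nat_lit 549755813888) (.ev (nat_lit 1952) (nat_lit
 846624020758640) .dd)))))) (.ch (nat_lit 55) (.ev (nat_lit 52) (nat_lit 635517788033568) (.ev (nat_lit 244)
 (nat_lit 2097152) (.ev (nat_lit 1584) (nat_lit 291922501697616) .dd))))) (.br (nat_lit 58) (.ch (nat_lit 57)
 (.ev (nat_lit 52) (nat_lit 282024751465072) (.ev (nat_lit 404) (nat_lit 2199023255552) (.ev (nat_lit 1268)
 (nat_lit 562949953421312) (.ev (nat_lit 1668) (nat_lit 67108864) (.ev (nat_lit 2480) (nat_lit 80266496577536)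
 .dd)))))) (.br (nat_lit 62) (.ch (nat_lit 58) (.ev (nat_lit 52) (nat_lit 83013128224848) (.ev (nat_lit 564)
 (nat_lit 2097152) (.ev (nat_lit 1332) (nat_lit 2147483648) (.ev (nat_lit 1508) (nat_lit 32) (.ev (nat_lit
 1636) (nat_lit 281474976710656) (.nd (nat_lit 3424) (.br (nat_lit 15) (.br (nat_lit 5) (.br (nat_lit 1) (.ch
 (nat_lit 0) (.ev (nat_lit 3440) (nat_lit 16781824) (.ev (nat_lit 3680) (nat_lit 67108864) (.ev (nat_lit 3693)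
 (nat_lit 562949953421312) .dd)))) (.ch (nat_lit 1) (.ev (nat_lit 3440) (nat_lit 562950037307904) (.ev (nat_lit
 3453) (nat_lit 4096) .dd)))) (.br (nat_lit 6) (.ch (nat_lit 5) (.ev (nat_lit 3440) (nat_lit 562950037311488)
 (.ev (nat_lit 3453) (nat_lit 512) .dd))) (.ch (nat_lit 6) (.ev (nat_lit 3440) (nat_lit 562949953425408) (.ev
 (nat_lit 3520) (nat_lit 67108864) (.ev (nat_lit 3668) (nat_lit 512) (.ev (nat_lit 3677) (nat_lit 16777216)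
 .dd))))))) (.br (nat_lit 26) (.br (nat_lit 18) (.ch (nat_lit 15) (.ev (nat_lit 3440) (nat_lit 83890688) (.ev
 (nat_lit 3453) (nat_lit 562949953421312) .dd))) (.ch (nat_lit 18) (.ev (nat_lit 3440) (nat_lit
 562950037312000) .dd))) (.br (nat_lit 27) (.ch (nat_lit 26) (.ev (nat_lit 3440) (nat_lit 562950037312000)
 .dd)) (.br (nat_lit 28) (.ch (nat_lit 27) (.ev (nat_lit 3440) (nat_lit 562950037312000) .dd)) (.ch (nat_lit
 28) (.ev (nat_lit 3440) (nat_lit 562949970203136) (.ev (nat_lit 3453) (nat_lit 67108864) .dd))))))))))))))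
 (.ch (nat_lit 62) (.ev (nat_lit 52) (nat_lit 565149044052480) (.ev (nat_lit 596) (nat_lit 2097152) (.ev
 (nat_lit 992) (nat_lit 362291245678704) .dd))))))) (.br (nat_lit 68) (.br (nat_lit 65) (.ch (nat_lit 64) (.ev
 (nat_lit 52) (nat_lit 72020175949920) (.ev (nat_lit 148) (nat_lit 2199023255552) (.ev (nat_lit 1572) (nat_lit
 2097152) (.ev (nat_lit 2052) (nat_lit 281474976710656) (.ev (nat_lit 2756) (nat_lit 8796093022208) (.ev
 (nat_lit 2884) (nat_lit 16) (.nd (nat_lit 3424) (.br (nat_lit 21) (.br (nat_lit 6) (.br (nat_lit 5) (.ch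
 (nat_lit 0) (.ev (nat_lit 3440) (nat_lit 512) (.ev (nat_lit 3584) (nat_lit 67108864) (.ev (nat_lit 3668)
 (nat_lit 262144) (.ev (nat_lit 3677) (nat_lit 562949953421312) .dd))))) (.ch (nat_lit 5) (.ev (nat_lit 3440)
 (nat_lit 562950020530176) (.ev (nat_lit 3668) (nat_lit 512) (.ev (nat_lit 3677) (nat_lit 262144) .dd))))) (.br
 (nat_lit 12) (.ch (nat_lit 6) (.ev (nat_lit 3440) (nat_lit 562950020530176) (.ev (nat_lit 3508) (nat_lit 512)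
 (.ev (nat_lit 3517) (nat_lit 262144) .dd)))) (.br (nat_lit 13) (.ch (nat_lit 12) (.ev (nat_lit 3440) (nat_lit
 562949953683456) (.ev (nat_lit 3508) (nat_lit 512) (.ev (nat_lit 3517) (nat_lit 67108864) .dd)))) (.ch
 (nat_lit 13) (.ev (nat_lit 3440) (nat_lit 562950020792832) .dd))))) (.br (nat_lit 26) (.br (nat_lit 24) (.ch
 (nat_lit 21) (.ev (nat_lit 3440) (nat_lit 562949953421824) (.ev (nat_lit 3600) (nat_lit 67108864) (.ev
 (nat_lit 3613) (nat_lit 262144) .dd)))) (.ch (nat_lit 24) (.ev (nat_lit 3440) (nat_lit 562950020792832) .dd)))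
 (.br (nat_lit 28) (.ch (nat_lit 26) (.ev (nat_lit 3440) (nat_lit 67371520) (.ev (nat_lit 3453) (nat_lit
 562949953421312) .dd))) (.br (nat_lit 29) (.ch (nat_lit 28) (.ev (nat_lit 3440) (nat_lit 562949953421824)
 (.fin (nat_lit 576465700110418480)))) (.ch (nat_lit 29) (.ev (nat_lit 3440) (nat_lit 67371520) (.ev (nat_lit
 3453) (nat_lit 562949953421312) .dd))))))))))))))) (.br (nat_lit 67) (.ch (nat_lit 65) (.ev (nat_lit 52)
 (nat_lit 361191801421872) (.ev (nat_lit 276) (nat_lit 512) (.ev (nat_lit 532) (nat_lit 2097152) (.ev (nat_lit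
 564) (nat_lit 4096) (.ev (nat_lit 660) (nat_lit 2199023255552) (.ev (nat_lit 1012) (nat_lit 1099511627776)
 (.ev (nat_lit 1428) (nat_lit 562949953421312) (.ev (nat_lit 1437) (nat_lit 64) .dd))))))))) (.ch (nat_lit 67)
 (.ev (nat_lit 52) (nat_lit 925239034777664) (.ev (nat_lit 308) (nat_lit 512) (.ev (nat_lit 468) (nat_lit
 2199023255552) (.ev (nat_lit 500) (nat_lit 2097152) (.ev (nat_lit 1844) (nat_lit 32) (.ev (nat_lit 2052)
 (nat_lit 2147483648) (.nd (nat_lit 3424) (.br (nat_lit 15) (.br (nat_lit 4) (.br (nat_lit 1) (.ch (nat_lit 0)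
 (.ev (nat_lit 3440) (nat_lit 16842768) (.ev (nat_lit 3520) (nat_lit 262144) (.ev (nat_lit 3533) (nat_lit
 67108864) .dd)))) (.br (nat_lit 2) (.ch (nat_lit 1) (.ev (nat_lit 3440) (nat_lit 84213776) .dd)) (.ch (nat_lit
 2) (.ev (nat_lit 3440) (nat_lit 16) (.ev (nat_lit 3508) (nat_lit 16777216) (.ev (nat_lit 3520) (nat_lit
 67108864) (.ev (nat_lit 3668) (nat_lit 65536) (.ev (nat_lit 3677) (nat_lit 262144) .dd)))))))) (.br (nat_lit
 5) (.ch (nat_lit 4) (.ev (nat_lit 3440) (nat_lit 84213760) (.ev (nat_lit 3453) (nat_lit 16) .dd))) (.br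
 (nat_lit 13) (.ch (nat_lit 5) (.ev (nat_lit 3440) (nat_lit 83951632) (.ev (nat_lit 3453) (nat_lit 262144)
 .dd))) (.ch (nat_lit 13) (.ev (nat_lit 3440) (nat_lit 84213776) .dd))))) (.br (nat_lit 25) (.br (nat_lit 18)
 (.ch (nat_lit 15) (.ev (nat_lit 3440) (nat_lit 84213760) (.ev (nat_lit 3453) (nat_lit 16) .dd))) (.br (nat_lit
 19) (.ch (nat_lit 18) (.ev (nat_lit 3440) (nat_lit 84213760) (.ev (nat_lit 3453) (nat_lit 16) .dd))) (.ch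
 (nat_lit 19) (.ev (nat_lit 3440) (nat_lit 84213776) .dd)))) (.br (nat_lit 28) (.br (nat_lit 26) (.ch (nat_lit
 25) (.ev (nat_lit 3440) (nat_lit 262160) (.ev (nat_lit 3764) (nat_lit 16777216) (.nd (nat_lit 3776) (.br
 (nat_lit 28) (.ch (nat_lit 20) (.ev (nat_lit 3792) (nat_lit 67174400) .dd)) (.ch (nat_lit 28) (.fin (nat_lit
 576468998679904834)))))))) (.ch (nat_lit 26) (.ev (nat_lit 3440) (nat_lit 84213776) .dd))) (.br (nat_lit 29)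
 (.ch (nat_lit 28) (.ev (nat_lit 3440) (nat_lit 67371008) (.ev (nat_lit 3508) (nat_lit 16777216) (.ev (nat_lit
 3568) (nat_lit 65536) (.ev (nat_lit 3581) (nat_lit 16) .dd))))) (.ch (nat_lit 29) (.ev (nat_lit 3440) (nat_lit
 84213776) .dd)))))))))))))))) (.br (nat_lit 69) (.ch (nat_lit 68) (.ev (nat_lit 52) (nat_lit 74217120858128)
 (.ev (nat_lit 1076) (nat_lit 64) (.ev (nat_lit 2244) (nat_lit 2147483648) (.ev (nat_lit 2676) (nat_lit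
 281474976710656) (.nd (nat_lit 3424) (.br (nat_lit 13) (.br (nat_lit 2) (.br (nat_lit 1) (.ch (nat_lit 0) (.ev
 (nat_lit 3440) (nat_lit 8796093354528) (.ev (nat_lit 3453) (nat_lit 562949953421312) .dd))) (.ch (nat_lit 1)
 (.ev (nat_lit 3440) (nat_lit 8796093350400) (.ev (nat_lit 3668) (nat_lit 562949953425408) (.ev (nat_lit 3677)
 (nat_lit 32) .dd))))) (.br (nat_lit 4) (.ch (nat_lit 2) (.ev (nat_lit 3440) (nat_lit 562949953688096) (.ev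
 (nat_lit 3668) (nat_lit 65536) (.ev (nat_lit 3677) (nat_lit 8796093022208) .dd)))) (.br (nat_lit 6) (.ch
 (nat_lit 4) (.ev (nat_lit 3440) (nat_lit 571746046709792) (.ev (nat_lit 3508) (nat_lit 65536) (.ev (nat_lit
 3517) (nat_lit 512) .dd)))) (.ch (nat_lit 6) (.ev (nat_lit 3440) (nat_lit 8796093092384) (.fin (nat_lit
 576488789876621902))))))) (.br (nat_lit 21) (.br (nat_lit 19) (.ch (nat_lit 13) (.ev (nat_lit 3440) (nat_lit
 562949953749536) (.ev (nat_lit 3508) (nat_lit 8796093022208) (.ev (nat_lit 3517) (nat_lit 4096) .dd)))) (.ch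
 (nat_lit 19) (.ev (nat_lit 3440) (nat_lit 8796093354016) (.ev (nat_lit 3600) (nat_lit 512) (.ev (nat_lit 3613)
 (nat_lit 562949953421312) .dd))))) (.br (nat_lit 27) (.ch (nat_lit 21) (.ev (nat_lit 3440) (nat_lit
 571746046513184) (.ev (nat_lit 3584) (nat_lit 512) (.ev (nat_lit 3597) (nat_lit 262144) .dd)))) (.br (nat_lit
 29) (.ch (nat_lit 27) (.ev (nat_lit 3440) (nat_lit 571746046775840) .dd)) (.ch (nat_lit 29) (.ev (nat_lit
 3440) (nat_lit 562949953753120) (.ev (nat_lit 3508) (nat_lit 8796093022208) (.ev (nat_lit 3517) (nat_lit 512)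
 .dd)))))))))))))) (.br (nat_lit 70) (.ch (nat_lit 69) (.ev (nat_lit 52) (nat_lit 634970181992560) (.ev
 (nat_lit 468) (nat_lit 4096) (.ev (nat_lit 2244) (nat_lit 16777216) (.nd (nat_lit 3424) (.br (nat_lit 20) (.br
 (nat_lit 5) (.br (nat_lit 1) (.ch (nat_lit 0) (.ev (nat_lit 3440) (nat_lit 290271069798400) (.ev (nat_lit
 3680) (nat_lit 2199023255552) (.ev (nat_lit 3693) (nat_lit 512) .dd)))) (.ch (nat_lit 1) (.ev (nat_lit 3440)
 (nat_lit 292470093054464) .dd))) (.br (nat_lit 15) (.ch (nat_lit 5) (.ev (nat_lit 3440) (nat_lit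
 292470093053952) (.ev (nat_lit 3453) (nat_lit 512) .dd))) (.br (nat_lit 19) (.ch (nat_lit 15) (.ev (nat_lit
 3440) (nat_lit 292470093054464) .dd)) (.ch (nat_lit 19) (.ev (nat_lit 3440) (nat_lit 290271069732864) (.ev
 (nat_lit 3568) (nat_lit 65536) (.ev (nat_lit 3668) (nat_lit 512) (.ev (nat_lit 3677) (nat_lit 2199023255552)
 .dd)))))))) (.br (nat_lit 27) (.br (nat_lit 21) (.ch (nat_lit 20) (.ev (nat_lit 3440) (nat_lit
 290271069733376) (.ev (nat_lit 3668) (nat_lit 2199023255552) (.ev (nat_lit 3677) (nat_lit 65536) .dd)))) (.br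
 (nat_lit 26) (.ch (nat_lit 21) (.ev (nat_lit 3440) (nat_lit 10995116343808) (.ev (nat_lit 3453) (nat_lit
 281474976710656) .dd))) (.ch (nat_lit 26) (.ev (nat_lit 3440) (nat_lit 2199023256064) (.ev (nat_lit 3600)
 (nat_lit 8796093022208) (.ev (nat_lit 3732) (nat_lit 65536) (.ev (nat_lit 3741) (nat_lit 281474976710656)
 .dd))))))) (.br (nat_lit 28) (.ch (nat_lit 27) (.ev (nat_lit 3440) (nat_lit 283674000032256) (.ev (nat_lit
 3453) (nat_lit 8796093022208) .dd))) (.br (nat_lit 29) (.ch (nat_lit 28) (.ev (nat_lit 3440) (nat_lit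
 10995116343808) (.ev (nat_lit 3453) (nat_lit 281474976710656) .dd))) (.ch (nat_lit 29) (.ev (nat_lit 3440)
 (nat_lit 283673999966720) (.ev (nat_lit 3668) (nat_lit 65536) (.ev (nat_lit 3677) (nat_lit 8796093022208)
 .dd))))))))))))) (.ch (nat_lit 70) (.ev (nat_lit 52) (nat_lit 70368746606656) (.ev (nat_lit 244) (nat_lit 512)
 (.ev (nat_lit 692) (nat_lit 562949953421312) (.ev (nat_lit 1152) (nat_lit 294121591799856) .dd)))))))))))))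

/-- Subtrie. -/
noncomputable def T6 : Tr := (.ev (nat_lit 20) (nat_lit 799414226848800) (.nd (nat_lit 33) (.br (nat_lit 39)
 (.br (nat_lit 19) (.br (nat_lit 8) (.br (nat_lit 4) (.br (nat_lit 3) (.ch (nat_lit 1) (.ev (nat_lit 52)
 (nat_lit 4786036676890688) (.ev (nat_lit 372) (nat_lit 8796093022208) (.ev (nat_lit 1248) (nat_lit
 1125910986129936) .dd)))) (.ch (nat_lit 3) (.ev (nat_lit 52) (nat_lit 4785074610541120) (.ev (nat_lit 628)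
 (nat_lit 268435456) (.ev (nat_lit 1812) (nat_lit 8589934592) (.ev (nat_lit 2372) (nat_lit 137438953472) (.ev
 (nat_lit 2580) (nat_lit 2147483648) (.nd (nat_lit 3424) (.br (nat_lit 11) (.br (nat_lit 6) (.br (nat_lit 5)
 (.ch (nat_lit 2) (.ev (nat_lit 3440) (nat_lit 1135245822787600) (.ev (nat_lit 3453) (nat_lit 274877906944)
 .dd))) (.ch (nat_lit 5) (.ev (nat_lit 3440) (nat_lit 1134695999864832) (.ev (nat_lit 3668) (nat_lit
 824633720848) (.ev (nat_lit 3677) (nat_lit 67108864) .dd))))) (.br (nat_lit 9) (.ch (nat_lit 6) (.ev (nat_lit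
 3440) (nat_lit 1135520700694544) .dd)) (.ch (nat_lit 9) (.ev (nat_lit 3440) (nat_lit 1135520700694528) (.ev
 (nat_lit 3453) (nat_lit 16) .dd))))) (.br (nat_lit 16) (.br (nat_lit 13) (.ch (nat_lit 11) (.ev (nat_lit 3440)
 (nat_lit 9620726743056) (.ev (nat_lit 3552) (nat_lit 1125899973951488) .dd))) (.ch (nat_lit 13) (.ev (nat_lit
 3440) (nat_lit 1135520700694528) (.ev (nat_lit 3453) (nat_lit 16) .dd)))) (.br (nat_lit 18) (.ch (nat_lit 16)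
 (.ev (nat_lit 3440) (nat_lit 1134970944880656) (.ev (nat_lit 3453) (nat_lit 549755813888) .dd))) (.br (nat_lit
 26) (.ch (nat_lit 18) (.ev (nat_lit 3440) (nat_lit 1126724607672336) (.ev (nat_lit 3453) (nat_lit
 8796093022208) .dd))) (.ch (nat_lit 26) (.ev (nat_lit 3440) (nat_lit 9071038038032) (.ev (nat_lit 3508)
 (nat_lit 549755813888) (.ev (nat_lit 3517) (nat_lit 1125899906842624) .dd)))))))))))))))) (.br (nat_lit 5)
 (.ch (nat_lit 4) (.ev (nat_lit 52) (nat_lit 5629912186618368) (.ev (nat_lit 180) (nat_lit 8796093022208) (.ev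
 (nat_lit 596) (nat_lit 4194304) (.ev (nat_lit 852) (nat_lit 4096) (.ev (nat_lit 1204) (nat_lit 16) (.ev
 (nat_lit 1748) (nat_lit 32768) (.ev (nat_lit 3124) (nat_lit 64) (.nd (nat_lit 3424) (.br (nat_lit 7) (.br
 (nat_lit 2) (.br (nat_lit 1) (.ch (nat_lit 0) (.ev (nat_lit 3440) (nat_lit 560495460352) (.ev (nat_lit 3453)
 (nat_lit 281474976710656) .dd))) (.ch (nat_lit 1) (.ev (nat_lit 3440) (nat_lit 281477126291456) (.ev (nat_lit
 3552) (nat_lit 8589934592) (.ev (nat_lit 3668) (nat_lit 131072) (.ev (nat_lit 3677) (nat_lit 549755813888)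
 .dd)))))) (.br (nat_lit 5) (.ch (nat_lit 2) (.ev (nat_lit 3440) (nat_lit 282033322590208) (.ev (nat_lit 3568)
 (nat_lit 2097152) (.ev (nat_lit 3581) (nat_lit 2147483648) .dd)))) (.br (nat_lit 6) (.ch (nat_lit 5) (.ev
 (nat_lit 3440) (nat_lit 281485716357120) (.ev (nat_lit 3453) (nat_lit 549755813888) .dd))) (.ch (nat_lit 6)
 (.ev (nat_lit 3440) (nat_lit 560495460352) (.ev (nat_lit 3453) (nat_lit 281474976710656) .dd)))))) (.br
 (nat_lit 23) (.br (nat_lit 15) (.ch (nat_lit 7) (.ev (nat_lit 3440) (nat_lit 281485714128896) (.ev (nat_lit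
 3744) (nat_lit 2097152) (.nd (nat_lit 3776) (.br (nat_lit 12) (.ch (nat_lit 4) (.ev (nat_lit 3792) (nat_lit
 549755944960) .dd)) (.ch (nat_lit 12) (.fin (nat_lit 576468998604407365)))))))) (.br (nat_lit 19) (.ch
 (nat_lit 15) (.ev (nat_lit 3440) (nat_lit 282035472171008) .dd)) (.ch (nat_lit 19) (.ev (nat_lit 3440)
 (nat_lit 282035472171008) .dd)))) (.br (nat_lit 24) (.ch (nat_lit 23) (.ev (nat_lit 3440) (nat_lit
 560493363200) (.ev (nat_lit 3668) (nat_lit 2097152) (.ev (nat_lit 3677) (nat_lit 281474976710656) .dd)))) (.br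
 (nat_lit 26) (.ch (nat_lit 24) (.ev (nat_lit 3440) (nat_lit 282033322590208) (.ev (nat_lit 3520) (nat_lit
 2147483648) (.ev (nat_lit 3533) (nat_lit 2097152) .dd)))) (.ch (nat_lit 26) (.ev (nat_lit 3440) (nat_lit
 281483568873472) (.ev (nat_lit 3508) (nat_lit 2147483648) (.ev (nat_lit 3517) (nat_lit 549755813888)
 .dd))))))))))))))))) (.br (nat_lit 7) (.ch (nat_lit 5) (.ev (nat_lit 52) (nat_lit 1407787538186256) (.ev
 (nat_lit 212) (nat_lit 549755813888) (.ev (nat_lit 468) (nat_lit 4194304) (.ev (nat_lit 1204) (nat_lit 512)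
 (.ev (nat_lit 1940) (nat_lit 32768) (.ev (nat_lit 2512) (nat_lit 4512406457815104) .dd))))))) (.ch (nat_lit 7)
 (.ev (nat_lit 52) (nat_lit 5630195318947856) (.ev (nat_lit 116) (nat_lit 4194304) (.ev (nat_lit 244) (nat_lit
 8796093022208) (.ev (nat_lit 372) (nat_lit 2097152) (.ev (nat_lit 404) (nat_lit 131072) (.ev (nat_lit 564)
 (nat_lit 67108864) (.ev (nat_lit 756) (nat_lit 274877906944) (.ev (nat_lit 2532) (nat_lit 2147483648) (.nd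
 (nat_lit 3424) (.br (nat_lit 16) (.br (nat_lit 5) (.br (nat_lit 1) (.ch (nat_lit 0) (.ev (nat_lit 3440)
 (nat_lit 268440128) (.ev (nat_lit 3453) (nat_lit 281474976710656) .dd))) (.ch (nat_lit 1) (.ev (nat_lit 3440)
 (nat_lit 268439616) (.ev (nat_lit 3508) (nat_lit 281474976710656) (.ev (nat_lit 3517) (nat_lit 512) .dd)))))
 (.br (nat_lit 14) (.ch (nat_lit 5) (.ev (nat_lit 3440) (nat_lit 281475245150208) (.fin (nat_lit
 576465700110418516)))) (.br (nat_lit 15) (.ch (nat_lit 14) (.ev (nat_lit 3440) (nat_lit 281475245150784) .dd))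
 (.ch (nat_lit 15) (.ev (nat_lit 3440) (nat_lit 281474976715264) (.ev (nat_lit 3508) (nat_lit 268435456) (.ev
 (nat_lit 3517) (nat_lit 64) .dd))))))) (.br (nat_lit 23) (.br (nat_lit 19) (.ch (nat_lit 16) (.ev (nat_lit
 3440) (nat_lit 4160) (.ev (nat_lit 3508) (nat_lit 268435456) (.ev (nat_lit 3668) (nat_lit 512) (.ev (nat_lit
 3677) (nat_lit 281474976710656) .dd))))) (.ch (nat_lit 19) (.ev (nat_lit 3440) (nat_lit 281475245146112) (.ev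
 (nat_lit 3508) (nat_lit 4096) (.ev (nat_lit 3600) (nat_lit 64) (.ev (nat_lit 3613) (nat_lit 512) .dd))))))
 (.br (nat_lit 24) (.ch (nat_lit 23) (.ev (nat_lit 3440) (nat_lit 281475245150784) .dd)) (.br (nat_lit 26) (.ch
 (nat_lit 24) (.ev (nat_lit 3440) (nat_lit 268439552) (.ev (nat_lit 3584) (nat_lit 64) (.ev (nat_lit 3668)
 (nat_lit 512) (.ev (nat_lit 3677) (nat_lit 281474976710656) .dd))))) (.ch (nat_lit 26) (.ev (nat_lit 3440)
 (nat_lit 281475245146688) (.ev (nat_lit 3453) (nat_lit 4096) .dd)))))))))))))))))))) (.br (nat_lit 15) (.br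
 (nat_lit 11) (.ch (nat_lit 8) (.ev (nat_lit 52) (nat_lit 4513231433404416) (.ev (nat_lit 532) (nat_lit 131072)
 (.ev (nat_lit 884) (nat_lit 16) (.ev (nat_lit 1604) (nat_lit 281474976710656) (.ev (nat_lit 3072) (nat_lit
 1126037345796672) .dd)))))) (.br (nat_lit 12) (.ch (nat_lit 11) (.ev (nat_lit 52) (nat_lit 9492146192448) (.ev
 (nat_lit 212) (nat_lit 4194304) (.ev (nat_lit 928) (nat_lit 5911251605656080) .dd)))) (.ch (nat_lit 12) (.ev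
 (nat_lit 52) (nat_lit 4785077087273536) (.ev (nat_lit 404) (nat_lit 4194304) (.ev (nat_lit 500) (nat_lit
 549755813888) (.ev (nat_lit 564) (nat_lit 8796093022208) (.ev (nat_lit 884) (nat_lit 8589934592) (.ev (nat_lit
 2372) (nat_lit 4096) (.nd (nat_lit 3424) (.br (nat_lit 15) (.br (nat_lit 5) (.br (nat_lit 2) (.ch (nat_lit 0)
 (.ev (nat_lit 3440) (nat_lit 1126312225800208) .dd)) (.ch (nat_lit 2) (.ev (nat_lit 3440) (nat_lit
 1126312225800192) (.ev (nat_lit 3453) (nat_lit 16) .dd)))) (.br (nat_lit 9) (.ch (nat_lit 5) (.ev (nat_lit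
 3440) (nat_lit 1126312225800208) .dd)) (.br (nat_lit 13) (.ch (nat_lit 9) (.ev (nat_lit 3440) (nat_lit
 1126037345796096) (.ev (nat_lit 3488) (nat_lit 2097152) (.ev (nat_lit 3668) (nat_lit 16) (.ev (nat_lit 3677)
 (nat_lit 274877906944) .dd))))) (.ch (nat_lit 13) (.ev (nat_lit 3440) (nat_lit 1126312225800192) (.ev (nat_lit
 3453) (nat_lit 16) .dd)))))) (.br (nat_lit 18) (.br (nat_lit 16) (.ch (nat_lit 15) (.ev (nat_lit 3440)
 (nat_lit 1126312225800208) .dd)) (.ch (nat_lit 16) (.ev (nat_lit 3440) (nat_lit 1126174786846736) (.ev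
 (nat_lit 3453) (nat_lit 137438953472) .dd)))) (.br (nat_lit 19) (.ch (nat_lit 18) (.ev (nat_lit 3440) (nat_lit
 412318957584) (.ev (nat_lit 3453) (nat_lit 1125899906842624) .dd))) (.br (nat_lit 26) (.ch (nat_lit 19) (.ev
 (nat_lit 3440) (nat_lit 1126174784749584) (.ev (nat_lit 3508) (nat_lit 137438953472) (.ev (nat_lit 3517)
 (nat_lit 2097152) .dd)))) (.ch (nat_lit 26) (.ev (nat_lit 3440) (nat_lit 412318957568) (.ev (nat_lit 3680)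
 (nat_lit 1125899906842624) (.ev (nat_lit 3693) (nat_lit 16) .dd)))))))))))))))))) (.br (nat_lit 16) (.ch
 (nat_lit 15) (.ev (nat_lit 52) (nat_lit 290271141200448) (.ev (nat_lit 372) (nat_lit 549755813888) (.ev
 (nat_lit 660) (nat_lit 2097152) (.ev (nat_lit 1012) (nat_lit 16) (.ev (nat_lit 1428) (nat_lit
 1125899906842624) (.ev (nat_lit 2288) (nat_lit 4504022950088704) .dd))))))) (.br (nat_lit 18) (.ch (nat_lit
 16) (.ev (nat_lit 52) (nat_lit 5638433072611328) (.ev (nat_lit 404) (nat_lit 268435456) (.ev (nat_lit 468)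
 (nat_lit 67108864) (.ev (nat_lit 1012) (nat_lit 4096) (.nd (nat_lit 3424) (.br (nat_lit 12) (.br (nat_lit 6)
 (.br (nat_lit 1) (.ch (nat_lit 0) (.ev (nat_lit 3440) (nat_lit 282033322492496) (.ev (nat_lit 3508) (nat_lit
 2147483648) (.ev (nat_lit 3517) (nat_lit 274877906944) .dd)))) (.ch (nat_lit 1) (.ev (nat_lit 3440) (nat_lit
 285615358032) (.ev (nat_lit 3520) (nat_lit 549755813888) (.ev (nat_lit 3680) (nat_lit 281474976710656) (.ev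
 (nat_lit 3693) (nat_lit 512) .dd)))))) (.br (nat_lit 9) (.ch (nat_lit 6) (.ev (nat_lit 3440) (nat_lit
 826781237824) (.ev (nat_lit 3508) (nat_lit 8589934592) (.ev (nat_lit 3536) (nat_lit 16) (.ev (nat_lit 3549)
 (nat_lit 281474976710656) .dd))))) (.ch (nat_lit 9) (.ev (nat_lit 3440) (nat_lit 282308200399440) (.ev
 (nat_lit 3453) (nat_lit 2147483648) .dd))))) (.br (nat_lit 15) (.br (nat_lit 13) (.ch (nat_lit 12) (.ev
 (nat_lit 3440) (nat_lit 281477124227648) (.ev (nat_lit 3668) (nat_lit 558345748480) (.ev (nat_lit 3680)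
 (nat_lit 274877906960) .dd)))) (.ch (nat_lit 13) (.ev (nat_lit 3440) (nat_lit 835371172368) (.ev (nat_lit
 3508) (nat_lit 281474976710656) (.ev (nat_lit 3517) (nat_lit 64) .dd))))) (.br (nat_lit 18) (.ch (nat_lit 15)
 (.ev (nat_lit 3440) (nat_lit 281760592069184) (.ev (nat_lit 3508) (nat_lit 16) (.ev (nat_lit 3517) (nat_lit
 549755813888) .dd)))) (.br (nat_lit 29) (.ch (nat_lit 18) (.ev (nat_lit 3440) (nat_lit 282310347883088) .dd))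
 (.ch (nat_lit 29) (.ev (nat_lit 3440) (nat_lit 281760592036432) (.fin (nat_lit
 576460202548085304)))))))))))))) (.ch (nat_lit 18) (.ev (nat_lit 52) (nat_lit 5638716871708752) (.ev (nat_lit
 84) (nat_lit 4194304) (.ev (nat_lit 308) (nat_lit 131072) (.ev (nat_lit 884) (nat_lit 281474976710656) (.ev
 (nat_lit 948) (nat_lit 2147483648) (.ev (nat_lit 1972) (nat_lit 512) (.ev (nat_lit 1981) (nat_lit
 549755813888) .dd)))))))))))) (.br (nat_lit 29) (.br (nat_lit 23) (.br (nat_lit 22) (.ch (nat_lit 19) (.ev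
 (nat_lit 52) (nat_lit 9620997439488) (.ev (nat_lit 276) (nat_lit 67108864) (.ev (nat_lit 1012) (nat_lit
 281474976710656) (.ev (nat_lit 1044) (nat_lit 64) (.ev (nat_lit 1204) (nat_lit 137438953472) (.ev (nat_lit
 1540) (nat_lit 1125899906842624) (.ev (nat_lit 2644) (nat_lit 8589934592) (.ev (nat_lit 2788) (nat_lit
 2147483648) (.nd (nat_lit 3424) (.br (nat_lit 16) (.br (nat_lit 9) (.br (nat_lit 1) (.ch (nat_lit 0) (.ev
 (nat_lit 3440) (nat_lit 4503599631569424) .dd)) (.ch (nat_lit 1) (.ev (nat_lit 3440) (nat_lit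
 4503599631564816) (.ev (nat_lit 3508) (nat_lit 512) (.ev (nat_lit 3517) (nat_lit 4096) .dd))))) (.br (nat_lit
 13) (.ch (nat_lit 9) (.ev (nat_lit 3440) (nat_lit 4198912) (.ev (nat_lit 3508) (nat_lit 16) (.ev (nat_lit
 3517) (nat_lit 4503599627370496) .dd)))) (.br (nat_lit 15) (.ch (nat_lit 13) (.ev (nat_lit 3440) (nat_lit
 4503599631569408) (.ev (nat_lit 3453) (nat_lit 16) .dd))) (.ch (nat_lit 15) (.ev (nat_lit 3440) (nat_lit
 4503599631569408) (.ev (nat_lit 3453) (nat_lit 16) .dd)))))) (.br (nat_lit 24) (.br (nat_lit 18) (.ch (nat_lit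
 16) (.ev (nat_lit 3440) (nat_lit 4503599631565312) (.ev (nat_lit 3508) (nat_lit 4096) (.ev (nat_lit 3517)
 (nat_lit 16) .dd)))) (.br (nat_lit 19) (.ch (nat_lit 18) (.ev (nat_lit 3440) (nat_lit 4112) (.ev (nat_lit
 3732) (nat_lit 512) (.fin (nat_lit 576484391788167778))))) (.ch (nat_lit 19) (.ev (nat_lit 3440) (nat_lit
 4198416) (.ev (nat_lit 3520) (nat_lit 4503599627371008) .dd))))) (.br (nat_lit 26) (.ch (nat_lit 24) (.ev
 (nat_lit 3440) (nat_lit 4503599631569424) .dd)) (.br (nat_lit 29) (.ch (nat_lit 26) (.ev (nat_lit 3440)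
 (nat_lit 4503599627371024) (.ev (nat_lit 3668) (nat_lit 4194304) (.ev (nat_lit 3677) (nat_lit 4096) .dd))))
 (.ch (nat_lit 29) (.ev (nat_lit 3440) (nat_lit 4503599627371024) (.ev (nat_lit 3508) (nat_lit 4096) (.ev
 (nat_lit 3517) (nat_lit 4194304) .dd)))))))))))))))))) (.ch (nat_lit 22) (.ev (nat_lit 52) (nat_lit
 1408064225837568) (.ev (nat_lit 404) (nat_lit 4503599627370496) (.ev (nat_lit 436) (nat_lit 2097152) (.ev
 (nat_lit 564) (nat_lit 131072) (.ev (nat_lit 1488) (nat_lit 9079900606544) .dd))))))) (.br (nat_lit 24) (.ch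
 (nat_lit 23) (.ev (nat_lit 52) (nat_lit 5919916632969792) (.ev (nat_lit 276) (nat_lit 268435456) (.ev (nat_lit
 308) (nat_lit 67108864) (.ev (nat_lit 1428) (nat_lit 274877906944) (.ev (nat_lit 2560) (nat_lit 551909621776)
 .dd)))))) (.br (nat_lit 26) (.ch (nat_lit 24) (.ev (nat_lit 52) (nat_lit 1416179566510592) (.ev (nat_lit 84)
 (nat_lit 268435456) (.ev (nat_lit 116) (nat_lit 4503599627370496) (.ev (nat_lit 372) (nat_lit 131072) (.ev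
 (nat_lit 628) (nat_lit 2097152) (.ev (nat_lit 1056) (nat_lit 964291498064) .dd))))))) (.ch (nat_lit 26) (.ev
 (nat_lit 52) (nat_lit 4503747808067600) (.ev (nat_lit 212) (nat_lit 8796093022208) (.ev (nat_lit 500) (nat_lit
 268435456) (.ev (nat_lit 596) (nat_lit 69206016) (.ev (nat_lit 1172) (nat_lit 281474976710656) (.ev (nat_lit
 1476) (nat_lit 64) (.ev (nat_lit 1604) (nat_lit 512) (.ev (nat_lit 1972) (nat_lit 4096) (.ev (nat_lit 3092)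
 (nat_lit 274877906944) (.nd (nat_lit 3424) (.br (nat_lit 14) (.br (nat_lit 9) (.br (nat_lit 6) (.ch (nat_lit
 5) (.ev (nat_lit 3440) (nat_lit 1125899906875392) (.ev (nat_lit 3453) (nat_lit 549755813888) .dd))) (.br
 (nat_lit 7) (.ch (nat_lit 6) (.ev (nat_lit 3440) (nat_lit 1126449662689280) .dd)) (.ch (nat_lit 7) (.ev
 (nat_lit 3440) (nat_lit 1126449662689280) .dd)))) (.br (nat_lit 11) (.ch (nat_lit 9) (.ev (nat_lit 3440)
 (nat_lit 1126449662689280) .dd)) (.br (nat_lit 12) (.ch (nat_lit 11) (.ev (nat_lit 3440) (nat_lit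
 549755846656) (.ev (nat_lit 3453) (nat_lit 1125899906842624) .dd))) (.ch (nat_lit 12) (.ev (nat_lit 3440)
 (nat_lit 1125899906875392) (.ev (nat_lit 3453) (nat_lit 549755813888) .dd)))))) (.br (nat_lit 23) (.br
 (nat_lit 15) (.ch (nat_lit 14) (.ev (nat_lit 3440) (nat_lit 1125899906842624) (.ev (nat_lit 3584) (nat_lit
 32768) (.ev (nat_lit 3597) (nat_lit 549755813888) .dd)))) (.br (nat_lit 18) (.ch (nat_lit 15) (.ev (nat_lit
 3440) (nat_lit 549755846656) (.ev (nat_lit 3453) (nat_lit 1125899906842624) .dd))) (.ch (nat_lit 18) (.ev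
 (nat_lit 3440) (nat_lit 1126449662689280) .dd)))) (.br (nat_lit 26) (.br (nat_lit 24) (.ch (nat_lit 23) (.ev
 (nat_lit 3440) (nat_lit 549755813888) (.ev (nat_lit 3508) (nat_lit 32768) (.ev (nat_lit 3517) (nat_lit
 1125899906842624) .dd)))) (.ch (nat_lit 24) (.ev (nat_lit 3440) (nat_lit 549755846656) (.ev (nat_lit 3453)
 (nat_lit 1125899906842624) .dd)))) (.br (nat_lit 29) (.ch (nat_lit 26) (.ev (nat_lit 3440) (nat_lit
 1125899906875392) (.ev (nat_lit 3453) (nat_lit 549755813888) .dd))) (.ch (nat_lit 29) (.ev (nat_lit 3440)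
 (nat_lit 1126449662656512) (.ev (nat_lit 3453) (nat_lit 32768) .dd))))))))))))))))))))) (.br (nat_lit 34) (.br
 (nat_lit 31) (.ch (nat_lit 29) (.ev (nat_lit 52) (nat_lit 4785624699666512) (.ev (nat_lit 468) (nat_lit
 8796093022208) (.ev (nat_lit 1408) (nat_lit 1126322963354112) .dd)))) (.br (nat_lit 33) (.ch (nat_lit 31) (.ev
 (nat_lit 52) (nat_lit 1416997759877712) (.ev (nat_lit 116) (nat_lit 131072) (.ev (nat_lit 308) (nat_lit
 4503599627370496) (.ev (nat_lit 500) (nat_lit 67108864) (.ev (nat_lit 1780) (nat_lit 32768) (.nd (nat_lit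
 3424) (.br (nat_lit 18) (.br (nat_lit 12) (.br (nat_lit 7) (.ch (nat_lit 6) (.ev (nat_lit 3440) (nat_lit
 146033082368) (.ev (nat_lit 3520) (nat_lit 4096) (.ev (nat_lit 3533) (nat_lit 268435456) .dd)))) (.ch (nat_lit
 7) (.ev (nat_lit 3440) (nat_lit 8594132992) (.ev (nat_lit 3456) (nat_lit 268435456) (.ev (nat_lit 3469)
 (nat_lit 137438953472) .dd))))) (.br (nat_lit 13) (.ch (nat_lit 12) (.ev (nat_lit 3440) (nat_lit 137443151872)
 (.ev (nat_lit 3456) (nat_lit 8589934592) (.ev (nat_lit 3469) (nat_lit 268435456) .dd)))) (.ch (nat_lit 13)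
 (.ev (nat_lit 3440) (nat_lit 146301521920) .dd)))) (.br (nat_lit 24) (.br (nat_lit 19) (.ch (nat_lit 18) (.ev
 (nat_lit 3440) (nat_lit 146297327616) (.ev (nat_lit 3453) (nat_lit 4194304) .dd))) (.ch (nat_lit 19) (.ev
 (nat_lit 3440) (nat_lit 8862564352) (.ev (nat_lit 3552) (nat_lit 137438953472) (.ev (nat_lit 3565) (nat_lit
 4096) .dd))))) (.br (nat_lit 26) (.ch (nat_lit 24) (.ev (nat_lit 3440) (nat_lit 146301521920) .dd)) (.br
 (nat_lit 29) (.ch (nat_lit 26) (.ev (nat_lit 3440) (nat_lit 146297323520) (.ev (nat_lit 3668) (nat_lit 4096)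
 (.ev (nat_lit 3677) (nat_lit 4194304) .dd)))) (.ch (nat_lit 29) (.ev (nat_lit 3440) (nat_lit 137438957568)
 (.ev (nat_lit 3552) (nat_lit 268435456) (.ev (nat_lit 3668) (nat_lit 4194304) (.ev (nat_lit 3677) (nat_lit
 8589934592) .dd)))))))))))))))) (.ch (nat_lit 33) (.ev (nat_lit 52) (nat_lit 4512679523782736) (.ev (nat_lit
 212) (nat_lit 2097152) (.ev (nat_lit 340) (nat_lit 4194304) (.ev (nat_lit 500) (nat_lit 131072) (.ev (nat_lit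
 1812) (nat_lit 137438953472) (.ev (nat_lit 2500) (nat_lit 512) (.nd (nat_lit 3424) (.br (nat_lit 15) (.br
 (nat_lit 6) (.br (nat_lit 1) (.ch (nat_lit 0) (.ev (nat_lit 3440) (nat_lit 1126449662689280) (.ev (nat_lit
 3488) (nat_lit 2147483648) (.ev (nat_lit 3501) (nat_lit 281474976710656) .dd)))) (.ch (nat_lit 1) (.ev
 (nat_lit 3440) (nat_lit 1407377031036928) (.ev (nat_lit 3508) (nat_lit 549755813888) (.ev (nat_lit 3517)
 (nat_lit 32768) .dd))))) (.br (nat_lit 13) (.ch (nat_lit 6) (.ev (nat_lit 3440) (nat_lit 282026880040960) (.ev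
 (nat_lit 3453) (nat_lit 1125899906842624) .dd))) (.br (nat_lit 14) (.ch (nat_lit 13) (.ev (nat_lit 3440)
 (nat_lit 1126451810140160) (.ev (nat_lit 3508) (nat_lit 281474976710656) (.ev (nat_lit 3517) (nat_lit 32768)
 .dd)))) (.ch (nat_lit 14) (.ev (nat_lit 3440) (nat_lit 1407926786850816) (.ev (nat_lit 3453) (nat_lit 32768)
 .dd)))))) (.br (nat_lit 24) (.br (nat_lit 19) (.ch (nat_lit 15) (.ev (nat_lit 3440) (nat_lit 1407377031069696)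
 (.ev (nat_lit 3453) (nat_lit 549755813888) .dd))) (.ch (nat_lit 19) (.ev (nat_lit 3440) (nat_lit
 1407926786883584) .dd))) (.br (nat_lit 26) (.ch (nat_lit 24) (.ev (nat_lit 3440) (nat_lit 282024732557312)
 (.ev (nat_lit 3508) (nat_lit 2147483648) (.ev (nat_lit 3517) (nat_lit 1125899906842624) .dd)))) (.br (nat_lit
 29) (.ch (nat_lit 26) (.ev (nat_lit 3440) (nat_lit 1407377031036928) (.ev (nat_lit 3508) (nat_lit 32768) (.ev
 (nat_lit 3517) (nat_lit 549755813888) .dd)))) (.ch (nat_lit 29) (.ev (nat_lit 3440) (nat_lit 1125902054326272)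
 (.ev (nat_lit 3668) (nat_lit 281474976710656) (.fin (nat_lit 576460202548085304))))))))))))))))))) (.br
 (nat_lit 36) (.ch (nat_lit 34) (.ev (nat_lit 52) (nat_lit 4785083531821072) (.ev (nat_lit 244) (nat_lit
 549755813888) (.ev (nat_lit 596) (nat_lit 8796093022208) (.ev (nat_lit 1748) (nat_lit 64) (.ev (nat_lit 1972)
 (nat_lit 137438953472) (.ev (nat_lit 2148) (nat_lit 4096) (.nd (nat_lit 3424) (.br (nat_lit 15) (.br (nat_lit
 9) (.br (nat_lit 5) (.ch (nat_lit 0) (.ev (nat_lit 3440) (nat_lit 1126176936428032) .dd)) (.ch (nat_lit 5)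
 (.ev (nat_lit 3440) (nat_lit 1126176932233728) (.ev (nat_lit 3453) (nat_lit 4194304) .dd)))) (.br (nat_lit 12)
 (.ch (nat_lit 9) (.ev (nat_lit 3440) (nat_lit 512) (.ev (nat_lit 3508) (nat_lit 277025390592) (.ev (nat_lit
 3552) (nat_lit 4194304) (.ev (nat_lit 3565) (nat_lit 1125899906842624) .dd))))) (.ch (nat_lit 12) (.ev
 (nat_lit 3440) (nat_lit 1125902054326784) (.ev (nat_lit 3508) (nat_lit 274877906944) (.ev (nat_lit 3517)
 (nat_lit 4194304) .dd)))))) (.br (nat_lit 18) (.br (nat_lit 16) (.ch (nat_lit 15) (.ev (nat_lit 3440) (nat_lit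
 1126176936428032) .dd)) (.ch (nat_lit 16) (.ev (nat_lit 3440) (nat_lit 1126174784750080) (.ev (nat_lit 3456)
 (nat_lit 4194304) (.ev (nat_lit 3469) (nat_lit 2147483648) .dd))))) (.br (nat_lit 19) (.ch (nat_lit 18) (.ev
 (nat_lit 3440) (nat_lit 277029585408) (.ev (nat_lit 3453) (nat_lit 1125899906842624) .dd))) (.br (nat_lit 23)
 (.ch (nat_lit 19) (.ev (nat_lit 3440) (nat_lit 1126176936427520) (.ev (nat_lit 3453) (nat_lit 512) .dd))) (.ch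
 (nat_lit 23) (.ev (nat_lit 3440) (nat_lit 1126176936428032) .dd)))))))))))))) (.br (nat_lit 38) (.ch (nat_lit
 36) (.ev (nat_lit 52) (nat_lit 1126039564620352) (.ev (nat_lit 660) (nat_lit 4503599627370496) (.ev (nat_lit
 1300) (nat_lit 274877906944) (.ev (nat_lit 1700) (nat_lit 16) (.ev (nat_lit 2148) (nat_lit 8589934592) (.ev
 (nat_lit 2500) (nat_lit 281474976710656) (.nd (nat_lit 3424) (.br (nat_lit 7) (.br (nat_lit 2) (.ch (nat_lit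
 1) (.ev (nat_lit 3440) (nat_lit 9346117402624) (.ev (nat_lit 3453) (nat_lit 2097152) .dd))) (.br (nat_lit 5)
 (.ch (nat_lit 2) (.ev (nat_lit 3440) (nat_lit 9346117271552) (.ev (nat_lit 3508) (nat_lit 2097152) (.ev
 (nat_lit 3517) (nat_lit 131072) .dd)))) (.ch (nat_lit 5) (.ev (nat_lit 3440) (nat_lit 8796363685888) (.ev
 (nat_lit 3453) (nat_lit 549755813888) .dd))))) (.br (nat_lit 14) (.br (nat_lit 11) (.ch (nat_lit 7) (.ev
 (nat_lit 3440) (nat_lit 270532608) (.ev (nat_lit 3508) (nat_lit 8796093022208) (.fin (nat_lit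
 576468998604407365))))) (.ch (nat_lit 11) (.ev (nat_lit 3440) (nat_lit 9345848836096) (.ev (nat_lit 3536)
 (nat_lit 131072) (.ev (nat_lit 3668) (nat_lit 2097152) (.ev (nat_lit 3677) (nat_lit 268435456) .dd)))))) (.br
 (nat_lit 18) (.ch (nat_lit 14) (.ev (nat_lit 3440) (nat_lit 8796363685888) (.ev (nat_lit 3453) (nat_lit
 549755813888) .dd))) (.ch (nat_lit 18) (.ev (nat_lit 3440) (nat_lit 550024380416) (.ev (nat_lit 3508) (nat_lit
 2097152) (.ev (nat_lit 3517) (nat_lit 8796093022208) .dd))))))))))))))) (.ch (nat_lit 38) (.ev (nat_lit 52)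
 (nat_lit 290557020602896) (.ev (nat_lit 84) (nat_lit 2097152) (.ev (nat_lit 340) (nat_lit 4503599627370496)
 (.ev (nat_lit 436) (nat_lit 4194304) (.ev (nat_lit 1236) (nat_lit 4096) (.ev (nat_lit 1604) (nat_lit
 137438953472) (.ev (nat_lit 2896) (nat_lit 1126449662820416) .dd))))))))))))) (.br (nat_lit 54) (.br (nat_lit
 47) (.br (nat_lit 43) (.br (nat_lit 42) (.ch (nat_lit 39) (.ev (nat_lit 52) (nat_lit 4513368534680144) (.ev
 (nat_lit 84) (nat_lit 131072) (.ev (nat_lit 468) (nat_lit 2097152) (.ev (nat_lit 1140) (nat_lit 268435456)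
 (.ev (nat_lit 1508) (nat_lit 1125899906842624) (.ev (nat_lit 2692) (nat_lit 4096) (.ev (nat_lit 3136) (nat_lit
 281475043852288) .dd)))))))) (.ch (nat_lit 42) (.ev (nat_lit 52) (nat_lit 290271073927248) (.ev (nat_lit 148)
 (nat_lit 67108864) (.ev (nat_lit 628) (nat_lit 549755813888) (.ev (nat_lit 692) (nat_lit 274877906944) (.ev
 (nat_lit 1012) (nat_lit 137438953472) (.ev (nat_lit 1076) (nat_lit 2147483648) (.ev (nat_lit 1300) (nat_lit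
 1125899906842624) (.ev (nat_lit 2084) (nat_lit 4096) (.nd (nat_lit 3424) (.br (nat_lit 18) (.br (nat_lit 12)
 (.ch (nat_lit 11) (.ev (nat_lit 3440) (nat_lit 4503608485773824) (.ev (nat_lit 3520) (nat_lit 2097152) (.ev
 (nat_lit 3533) (nat_lit 131072) .dd)))) (.br (nat_lit 14) (.ch (nat_lit 12) (.ev (nat_lit 3440) (nat_lit
 4503608219566592) (.ev (nat_lit 3453) (nat_lit 268435456) .dd))) (.ch (nat_lit 14) (.ev (nat_lit 3440)
 (nat_lit 4503599629632000) (.ev (nat_lit 3456) (nat_lit 8589934592) (.ev (nat_lit 3469) (nat_lit 268435456)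
 .dd)))))) (.br (nat_lit 23) (.br (nat_lit 19) (.ch (nat_lit 18) (.ev (nat_lit 3440) (nat_lit 8860631040) (.ev
 (nat_lit 3668) (nat_lit 4503599627370496) (.ev (nat_lit 3677) (nat_lit 512) .dd)))) (.ch (nat_lit 19) (.ev
 (nat_lit 3440) (nat_lit 4503608219435008) (.ev (nat_lit 3508) (nat_lit 512) (.ev (nat_lit 3668) (nat_lit
 131072) (.ev (nat_lit 3677) (nat_lit 268435456) .dd)))))) (.br (nat_lit 29) (.ch (nat_lit 23) (.ev (nat_lit
 3440) (nat_lit 4503599898034688) (.ev (nat_lit 3508) (nat_lit 8589934592) (.ev (nat_lit 3517) (nat_lit 32768)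
 .dd)))) (.ch (nat_lit 29) (.ev (nat_lit 3440) (nat_lit 270565888) (.ev (nat_lit 3680) (nat_lit 8589934592)
 (.ev (nat_lit 3696) (nat_lit 4503599627370496) (.ev (nat_lit 3709) (nat_lit 131072) .dd)))))))))))))))))))
 (.br (nat_lit 44) (.ch (nat_lit 43) (.ev (nat_lit 52) (nat_lit 4503610702598144) (.ev (nat_lit 180) (nat_lit
 549755813888) (.ev (nat_lit 660) (nat_lit 8796093022208) (.ev (nat_lit 1236) (nat_lit 512) (.ev (nat_lit 1812)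
 (nat_lit 281474976710656) (.ev (nat_lit 2436) (nat_lit 64) (.nd (nat_lit 3424) (.br (nat_lit 14) (.br (nat_lit
 9) (.br (nat_lit 5) (.ch (nat_lit 2) (.ev (nat_lit 3440) (nat_lit 1126312227897360) .dd)) (.ch (nat_lit 5)
 (.ev (nat_lit 3440) (nat_lit 1126312227897360) .dd))) (.br (nat_lit 13) (.ch (nat_lit 9) (.ev (nat_lit 3440)
 (nat_lit 1126037349990400) (.ev (nat_lit 3668) (nat_lit 274877906944) (.ev (nat_lit 3677) (nat_lit 16) .dd))))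
 (.ch (nat_lit 13) (.ev (nat_lit 3440) (nat_lit 1126037349990400) (.ev (nat_lit 3508) (nat_lit 16) (.ev
 (nat_lit 3517) (nat_lit 274877906944) .dd)))))) (.br (nat_lit 23) (.br (nat_lit 15) (.ch (nat_lit 14) (.ev
 (nat_lit 3440) (nat_lit 1126174784749584) (.ev (nat_lit 3568) (nat_lit 137443147776) .dd))) (.ch (nat_lit 15)
 (.ev (nat_lit 3440) (nat_lit 1126312227897344) (.ev (nat_lit 3453) (nat_lit 16) .dd)))) (.br (nat_lit 24) (.ch
 (nat_lit 23) (.ev (nat_lit 3440) (nat_lit 1126312227897360) .dd)) (.br (nat_lit 26) (.ch (nat_lit 24) (.ev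
 (nat_lit 3440) (nat_lit 412321054736) (.ev (nat_lit 3453) (nat_lit 1125899906842624) .dd))) (.ch (nat_lit 26)
 (.ev (nat_lit 3440) (nat_lit 412321054736) (.ev (nat_lit 3453) (nat_lit 1125899906842624) .dd)))))))))))))))
 (.br (nat_lit 46) (.ch (nat_lit 44) (.ev (nat_lit 52) (nat_lit 281749923954704) (.ev (nat_lit 180) (nat_lit
 4194304) (.ev (nat_lit 212) (nat_lit 268435456) (.ev (nat_lit 756) (nat_lit 2147483648) (.ev (nat_lit 884)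
 (nat_lit 512) (.ev (nat_lit 1700) (nat_lit 8589934592) (.ev (nat_lit 3060) (nat_lit 64) (.ev (nat_lit 3232)
 (nat_lit 549755813888) (.nd (nat_lit 3424) (.br (nat_lit 13) (.br (nat_lit 9) (.br (nat_lit 7) (.ch (nat_lit
 5) (.ev (nat_lit 3440) (nat_lit 5638433066221568) (.ev (nat_lit 3453) (nat_lit 4096) .dd))) (.ch (nat_lit 7)
 (.ev (nat_lit 3440) (nat_lit 5638295627272192) (.ev (nat_lit 3453) (nat_lit 137438953472) .dd)))) (.br
 (nat_lit 11) (.ch (nat_lit 9) (.ev (nat_lit 3440) (nat_lit 137438957568) (.ev (nat_lit 3508) (nat_lit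
 5629499534213120) (.ev (nat_lit 3668) (nat_lit 32768) (.ev (nat_lit 3677) (nat_lit 8796093022208) .dd)))))
 (.ch (nat_lit 11) (.ev (nat_lit 3440) (nat_lit 4512395720425472) (.ev (nat_lit 3508) (nat_lit 4096) (.ev
 (nat_lit 3552) (nat_lit 137438953472) (.ev (nat_lit 3565) (nat_lit 1125899906842624) .dd))))))) (.br (nat_lit
 16) (.br (nat_lit 14) (.ch (nat_lit 13) (.ev (nat_lit 3440) (nat_lit 5638433066225664) .dd)) (.ch (nat_lit 14)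
 (.ev (nat_lit 3440) (nat_lit 5638295627239424) (.ev (nat_lit 3568) (nat_lit 32768) (.ev (nat_lit 3581)
 (nat_lit 137438953472) .dd))))) (.br (nat_lit 18) (.ch (nat_lit 16) (.ev (nat_lit 3440) (nat_lit
 1134833438851072) (.ev (nat_lit 3668) (nat_lit 4096) (.ev (nat_lit 3677) (nat_lit 4503599627370496) .dd))))
 (.br (nat_lit 23) (.ch (nat_lit 18) (.ev (nat_lit 3440) (nat_lit 5638295627272192) (.ev (nat_lit 3453)
 (nat_lit 137438953472) .dd))) (.ch (nat_lit 23) (.ev (nat_lit 3440) (nat_lit 5638433066188800) (.ev (nat_lit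
 3668) (nat_lit 4096) (.ev (nat_lit 3677) (nat_lit 32768) .dd)))))))))))))))))) (.ch (nat_lit 46) (.ev (nat_lit
 52) (nat_lit 551905529872) (.ev (nat_lit 180) (nat_lit 67108864) (.ev (nat_lit 672) (nat_lit 5920191783404096)
 .dd))))))) (.br (nat_lit 50) (.br (nat_lit 48) (.ch (nat_lit 47) (.ev (nat_lit 52) (nat_lit 1407789354193408)
 (.ev (nat_lit 116) (nat_lit 549755813888) (.ev (nat_lit 148) (nat_lit 4503599627370496) (.ev (nat_lit 244)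
 (nat_lit 131072) (.ev (nat_lit 404) (nat_lit 67108864) (.ev (nat_lit 1812) (nat_lit 16) (.ev (nat_lit 2116)
 (nat_lit 32768) (.nd (nat_lit 3424) (.br (nat_lit 13) (.br (nat_lit 9) (.br (nat_lit 6) (.ch (nat_lit 0) (.ev
 (nat_lit 3440) (nat_lit 8804951392256) (.ev (nat_lit 3453) (nat_lit 64) .dd))) (.ch (nat_lit 6) (.ev (nat_lit
 3440) (nat_lit 8804951392320) .dd))) (.br (nat_lit 11) (.ch (nat_lit 9) (.ev (nat_lit 3440) (nat_lit
 8858370112) (.ev (nat_lit 3453) (nat_lit 8796093022208) .dd))) (.ch (nat_lit 11) (.ev (nat_lit 3440) (nat_lit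
 8796361457664) (.ev (nat_lit 3520) (nat_lit 64) (.ev (nat_lit 3533) (nat_lit 8589934592) .dd)))))) (.br
 (nat_lit 16) (.br (nat_lit 14) (.ch (nat_lit 13) (.ev (nat_lit 3440) (nat_lit 8804951392320) .dd)) (.ch
 (nat_lit 14) (.ev (nat_lit 3440) (nat_lit 8804951392320) .dd))) (.br (nat_lit 19) (.ch (nat_lit 16) (.ev
 (nat_lit 3440) (nat_lit 8804682956864) (.ev (nat_lit 3453) (nat_lit 268435456) .dd))) (.br (nat_lit 23) (.ch
 (nat_lit 19) (.ev (nat_lit 3440) (nat_lit 8589934656) (.ev (nat_lit 3536) (nat_lit 8796361457664) .dd))) (.ch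
 (nat_lit 23) (.ev (nat_lit 3440) (nat_lit 8796361457728) (.ev (nat_lit 3453) (nat_lit 8589934592)
 .dd)))))))))))))))) (.br (nat_lit 49) (.ch (nat_lit 48) (.ev (nat_lit 52) (nat_lit 4785085614129152) (.ev
 (nat_lit 84) (nat_lit 9345848836096) (.ev (nat_lit 116) (nat_lit 2097152) (.ev (nat_lit 1280) (nat_lit
 1126312290980432) .dd))))) (.ch (nat_lit 49) (.ev (nat_lit 52) (nat_lit 1126862247989760) (.ev (nat_lit 308)
 (nat_lit 8796093022208) (.ev (nat_lit 436) (nat_lit 131072) (.ev (nat_lit 1172) (nat_lit 16) (.ev (nat_lit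
 1572) (nat_lit 67108864) (.ev (nat_lit 2756) (nat_lit 2147483648) (.ev (nat_lit 2820) (nat_lit 8589934592)
 (.nd (nat_lit 3424) (.br (nat_lit 12) (.br (nat_lit 2) (.ch (nat_lit 1) (.ev (nat_lit 3440) (nat_lit
 4503599633662016) (.ev (nat_lit 3453) (nat_lit 281474976710656) .dd))) (.br (nat_lit 9) (.ch (nat_lit 2) (.ev
 (nat_lit 3440) (nat_lit 4785074606178368) (.ev (nat_lit 3453) (nat_lit 4194304) .dd))) (.ch (nat_lit 9) (.ev
 (nat_lit 3440) (nat_lit 6291520) (.ev (nat_lit 3508) (nat_lit 281474976710656) (.ev (nat_lit 3517) (nat_lit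
 4503599627370496) .dd)))))) (.br (nat_lit 18) (.br (nat_lit 13) (.ch (nat_lit 12) (.ev (nat_lit 3440) (nat_lit
 4785074606178368) (.ev (nat_lit 3453) (nat_lit 4194304) .dd))) (.ch (nat_lit 13) (.ev (nat_lit 3440) (nat_lit
 4503599631564864) (.ev (nat_lit 3508) (nat_lit 281474976710656) (.ev (nat_lit 3517) (nat_lit 2097152) .dd)))))
 (.br (nat_lit 19) (.ch (nat_lit 18) (.ev (nat_lit 3440) (nat_lit 281474976710720) (.ev (nat_lit 3508) (nat_lit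
 2097152) (.fin (nat_lit 576484391788167778))))) (.ch (nat_lit 19) (.ev (nat_lit 3440) (nat_lit 6291456) (.ev
 (nat_lit 3536) (nat_lit 4503599627370496) (.ev (nat_lit 3668) (nat_lit 64) (.ev (nat_lit 3677) (nat_lit
 281474976710656) .dd))))))))))))))))))) (.br (nat_lit 51) (.ch (nat_lit 50) (.ev (nat_lit 52) (nat_lit
 4512947693064704) (.ev (nat_lit 276) (nat_lit 4194304) (.ev (nat_lit 372) (nat_lit 268435456) (.ev (nat_lit
 1076) (nat_lit 1125899906842624) (.ev (nat_lit 1444) (nat_lit 137438953472) (.ev (nat_lit 2864) (nat_lit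
 281758444552272) .dd))))))) (.br (nat_lit 53) (.ch (nat_lit 51) (.ev (nat_lit 52) (nat_lit 4794557898166288)
 (.ev (nat_lit 596) (nat_lit 131072) (.ev (nat_lit 1268) (nat_lit 2147483648) (.ev (nat_lit 2404) (nat_lit 64)
 (.ev (nat_lit 2916) (nat_lit 274877906944) (.nd (nat_lit 3424) (.br (nat_lit 14) (.br (nat_lit 2) (.br
 (nat_lit 1) (.ch (nat_lit 0) (.ev (nat_lit 3440) (nat_lit 1125908832354816) .dd)) (.ch (nat_lit 1) (.ev
 (nat_lit 3440) (nat_lit 1125900242387456) (.ev (nat_lit 3508) (nat_lit 32768) (.ev (nat_lit 3517) (nat_lit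
 8589934592) .dd))))) (.br (nat_lit 5) (.ch (nat_lit 2) (.ev (nat_lit 3440) (nat_lit 1125908563886592) (.ev
 (nat_lit 3568) (nat_lit 268435456) (.ev (nat_lit 3581) (nat_lit 32768) .dd)))) (.br (nat_lit 7) (.ch (nat_lit
 5) (.ev (nat_lit 3440) (nat_lit 1125908496810496) (.ev (nat_lit 3668) (nat_lit 268435456) (.ev (nat_lit 3677)
 (nat_lit 67108864) .dd)))) (.ch (nat_lit 7) (.ev (nat_lit 3440) (nat_lit 1125908765245952) (.ev (nat_lit 3453)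
 (nat_lit 67108864) .dd)))))) (.br (nat_lit 24) (.br (nat_lit 15) (.ch (nat_lit 14) (.ev (nat_lit 3440)
 (nat_lit 1125908563886592) (.ev (nat_lit 3520) (nat_lit 32768) (.ev (nat_lit 3533) (nat_lit 268435456) .dd))))
 (.br (nat_lit 16) (.ch (nat_lit 15) (.ev (nat_lit 3440) (nat_lit 1125908765245952) (.ev (nat_lit 3453)
 (nat_lit 67108864) .dd))) (.ch (nat_lit 16) (.ev (nat_lit 3440) (nat_lit 1125899973984256) (.ev (nat_lit 3744)
 (nat_lit 268435456) (.nd (nat_lit 3776) (.br (nat_lit 11) (.ch (nat_lit 1) (.ev (nat_lit 3792) (nat_lit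
 8589935104) .dd)) (.ch (nat_lit 11) (.fin (nat_lit 576493187891675710)))))))))) (.br (nat_lit 26) (.ch
 (nat_lit 24) (.ev (nat_lit 3440) (nat_lit 335577088) (.ev (nat_lit 3552) (nat_lit 1125899906842624) (.ev
 (nat_lit 3668) (nat_lit 512) (.ev (nat_lit 3677) (nat_lit 8589934592) .dd))))) (.br (nat_lit 29) (.ch (nat_lit
 26) (.ev (nat_lit 3440) (nat_lit 1125908832354816) .dd)) (.ch (nat_lit 29) (.ev (nat_lit 3440) (nat_lit
 1125900242420224) (.ev (nat_lit 3453) (nat_lit 8589934592) .dd)))))))))))))) (.ch (nat_lit 53) (.ev (nat_lit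
 52) (nat_lit 4512398203556416) (.ev (nat_lit 660) (nat_lit 4194304) (.ev (nat_lit 852) (nat_lit
 281474976710656) (.ev (nat_lit 1140) (nat_lit 2097152) (.ev (nat_lit 2404) (nat_lit 32768) (.ev (nat_lit 2756)
 (nat_lit 1125899906842624) (.nd (nat_lit 3424) (.br (nat_lit 19) (.br (nat_lit 11) (.br (nat_lit 9) (.ch
 (nat_lit 5) (.ev (nat_lit 3440) (nat_lit 146028888080) (.ev (nat_lit 3536) (nat_lit 549755813888) (.ev
 (nat_lit 3549) (nat_lit 274877906944) .dd)))) (.ch (nat_lit 9) (.ev (nat_lit 3440) (nat_lit 970662608896) (.ev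
 (nat_lit 3453) (nat_lit 16) .dd)))) (.br (nat_lit 12) (.ch (nat_lit 11) (.ev (nat_lit 3440) (nat_lit
 970662608896) (.ev (nat_lit 3453) (nat_lit 16) .dd))) (.ch (nat_lit 12) (.ev (nat_lit 3440) (nat_lit
 137438953472) (.ev (nat_lit 3520) (nat_lit 274877906944) (.ev (nat_lit 3668) (nat_lit 16) (.ev (nat_lit 3696)
 (nat_lit 558345748480) .dd))))))) (.br (nat_lit 24) (.br (nat_lit 23) (.ch (nat_lit 19) (.ev (nat_lit 3440)
 (nat_lit 833223655440) (.ev (nat_lit 3453) (nat_lit 137438953472) .dd))) (.ch (nat_lit 23) (.ev (nat_lit 3440)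
 (nat_lit 970662608912) .dd))) (.br (nat_lit 26) (.ch (nat_lit 24) (.ev (nat_lit 3440) (nat_lit 962072674320)
 (.ev (nat_lit 3453) (nat_lit 8589934592) .dd))) (.br (nat_lit 29) (.ch (nat_lit 26) (.ev (nat_lit 3440)
 (nat_lit 283467841536) (.ev (nat_lit 3508) (nat_lit 549755813888) (.ev (nat_lit 3520) (nat_lit 137438953488)
 .dd)))) (.ch (nat_lit 29) (.ev (nat_lit 3440) (nat_lit 970662608912) .dd)))))))))))))))))) (.br (nat_lit 64)
 (.br (nat_lit 57) (.br (nat_lit 55) (.ch (nat_lit 54) (.ev (nat_lit 52) (nat_lit 1134973300146688) (.ev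
 (nat_lit 1604) (nat_lit 16) (.ev (nat_lit 1824) (nat_lit 4785770455896128) .dd)))) (.ch (nat_lit 55) (.ev
 (nat_lit 52) (nat_lit 137506066944) (.ev (nat_lit 148) (nat_lit 268435456) (.ev (nat_lit 244) (nat_lit
 4503599627370496) (.ev (nat_lit 468) (nat_lit 131072) (.ev (nat_lit 756) (nat_lit 1125899906842624) (.ev
 (nat_lit 948) (nat_lit 274877906944) (.ev (nat_lit 1572) (nat_lit 8796093022208) (.ev (nat_lit 1780) (nat_lit
 64) (.ev (nat_lit 1972) (nat_lit 16) (.ev (nat_lit 2084) (nat_lit 8589934592) (.ev (nat_lit 2308) (nat_lit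
 2147483648) (.nd (nat_lit 3424) (.br (nat_lit 7) (.br (nat_lit 2) (.br (nat_lit 1) (.ch (nat_lit 0) (.ev
 (nat_lit 3440) (nat_lit 549762138112) (.ev (nat_lit 3453) (nat_lit 281474976710656) .dd))) (.ch (nat_lit 1)
 (.ev (nat_lit 3440) (nat_lit 6291456) (.ev (nat_lit 3696) (nat_lit 549755846656) (.ev (nat_lit 3709) (nat_lit
 281474976710656) .dd))))) (.br (nat_lit 5) (.ch (nat_lit 2) (.ev (nat_lit 3440) (nat_lit 282024732557312) (.ev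
 (nat_lit 3508) (nat_lit 4194304) (.ev (nat_lit 3517) (nat_lit 2097152) .dd)))) (.ch (nat_lit 5) (.ev (nat_lit
 3440) (nat_lit 281474978840576) (.ev (nat_lit 3520) (nat_lit 549755813888) (.ev (nat_lit 3533) (nat_lit
 4194304) .dd)))))) (.br (nat_lit 15) (.br (nat_lit 11) (.ch (nat_lit 7) (.ev (nat_lit 3440) (nat_lit
 282024738848768) .dd)) (.ch (nat_lit 11) (.ev (nat_lit 3440) (nat_lit 549762138112) (.ev (nat_lit 3453)
 (nat_lit 281474976710656) .dd)))) (.br (nat_lit 16) (.ch (nat_lit 15) (.ev (nat_lit 3440) (nat_lit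
 282024738848768) .dd)) (.br (nat_lit 23) (.ch (nat_lit 16) (.ev (nat_lit 3440) (nat_lit 549757943808) (.ev
 (nat_lit 3508) (nat_lit 281474976710656) (.ev (nat_lit 3517) (nat_lit 4194304) .dd)))) (.ch (nat_lit 23) (.ev
 (nat_lit 3440) (nat_lit 281474983034880) (.ev (nat_lit 3453) (nat_lit 549755813888) .dd)))))))))))))))))))))
 (.br (nat_lit 58) (.ch (nat_lit 57) (.ev (nat_lit 52) (nat_lit 1408199523566160) (.ev (nat_lit 148) (nat_lit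
 131072) (.ev (nat_lit 628) (nat_lit 67108864) (.ev (nat_lit 1108) (nat_lit 32768) (.ev (nat_lit 1172) (nat_lit
 4096) (.ev (nat_lit 1236) (nat_lit 8589934592) (.ev (nat_lit 2768) (nat_lit 4512535575265280) .dd)))))))) (.br
 (nat_lit 62) (.ch (nat_lit 58) (.ev (nat_lit 52) (nat_lit 1135246024147024) (.ev (nat_lit 276) (nat_lit
 4503599627370496) (.ev (nat_lit 308) (nat_lit 4194304) (.ev (nat_lit 436) (nat_lit 67108864) (.ev (nat_lit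
 852) (nat_lit 137438953472) (.ev (nat_lit 1812) (nat_lit 4608) (.ev (nat_lit 2736) (nat_lit 281760594264064)
 .dd)))))))) (.ch (nat_lit 62) (.ev (nat_lit 52) (nat_lit 146100359680) (.ev (nat_lit 736) (nat_lit
 5920597655683152) .dd)))))) (.br (nat_lit 68) (.br (nat_lit 65) (.ch (nat_lit 64) (.ev (nat_lit 52) (nat_lit
 4504288969625664) (.ev (nat_lit 276) (nat_lit 131072) (.ev (nat_lit 532) (nat_lit 272629760) (.ev (nat_lit
 692) (nat_lit 1125899906842624) (.ev (nat_lit 1520) (nat_lit 290554606813712) .dd)))))) (.br (nat_lit 67) (.ch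
 (nat_lit 65) (.ev (nat_lit 52) (nat_lit 4794422667640848) (.ev (nat_lit 340) (nat_lit 2097152) (.ev (nat_lit
 2308) (nat_lit 1125899906842624) (.nd (nat_lit 3424) (.br (nat_lit 14) (.br (nat_lit 9) (.br (nat_lit 6) (.ch
 (nat_lit 5) (.ev (nat_lit 3440) (nat_lit 146301518400) (.ev (nat_lit 3508) (nat_lit 274877939712) (.ev
 (nat_lit 3517) (nat_lit 4096) .dd)))) (.ch (nat_lit 6) (.ev (nat_lit 3440) (nat_lit 421179462208) .dd))) (.br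
 (nat_lit 11) (.ch (nat_lit 9) (.ev (nat_lit 3440) (nat_lit 146301554752) (.ev (nat_lit 3508) (nat_lit
 274877906944) (.ev (nat_lit 3517) (nat_lit 512) .dd)))) (.ch (nat_lit 11) (.ev (nat_lit 3440) (nat_lit
 8862601728) (.ev (nat_lit 3508) (nat_lit 274877906944) (.ev (nat_lit 3668) (nat_lit 137438953472) (.ev
 (nat_lit 3677) (nat_lit 64) .dd))))))) (.br (nat_lit 18) (.br (nat_lit 16) (.ch (nat_lit 14) (.ev (nat_lit
 3440) (nat_lit 283467846208) (.ev (nat_lit 3456) (nat_lit 4194304) (.ev (nat_lit 3508) (nat_lit 137438986240)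
 (.ev (nat_lit 3517) (nat_lit 268435456) .dd))))) (.ch (nat_lit 16) (.ev (nat_lit 3440) (nat_lit 412589522944)
 (.ev (nat_lit 3616) (nat_lit 4096) (.ev (nat_lit 3668) (nat_lit 64) (.fin (nat_lit 576493187891675710)))))))
 (.br (nat_lit 23) (.ch (nat_lit 18) (.ev (nat_lit 3440) (nat_lit 283736313920) (.ev (nat_lit 3568) (nat_lit
 512) (.ev (nat_lit 3680) (nat_lit 137443147776) .dd)))) (.br (nat_lit 29) (.ch (nat_lit 23) (.ev (nat_lit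
 3440) (nat_lit 137711616576) (.ev (nat_lit 3668) (nat_lit 283467841536) (.ev (nat_lit 3677) (nat_lit 4096)
 .dd)))) (.ch (nat_lit 29) (.ev (nat_lit 3440) (nat_lit 274882134592) (.ev (nat_lit 3456) (nat_lit
 137438953472) (.ev (nat_lit 3568) (nat_lit 4096) (.ev (nat_lit 3600) (nat_lit 8589934592) (.ev (nat_lit 3613)
 (nat_lit 268435456) .dd))))))))))))))) (.ch (nat_lit 67) (.ev (nat_lit 52) (nat_lit 290967123005504) (.ev
 (nat_lit 372) (nat_lit 67108864) (.ev (nat_lit 948) (nat_lit 1125899906842624) (.ev (nat_lit 1140) (nat_lit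
 4194304) (.ev (nat_lit 1428) (nat_lit 2147483648) (.ev (nat_lit 1572) (nat_lit 4503599627370496) (.nd (nat_lit
 3424) (.br (nat_lit 12) (.br (nat_lit 5) (.br (nat_lit 1) (.ch (nat_lit 0) (.ev (nat_lit 3440) (nat_lit
 2130448) (.ev (nat_lit 3453) (nat_lit 274877906944) .dd))) (.br (nat_lit 2) (.ch (nat_lit 1) (.ev (nat_lit
 3440) (nat_lit 274880004624) (.ev (nat_lit 3453) (nat_lit 32768) .dd))) (.ch (nat_lit 2) (.ev (nat_lit 3440)
 (nat_lit 2130432) (.ev (nat_lit 3508) (nat_lit 16) (.ev (nat_lit 3517) (nat_lit 274877906944) .dd)))))) (.br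
 (nat_lit 6) (.ch (nat_lit 5) (.ev (nat_lit 3440) (nat_lit 274880004624) (.ev (nat_lit 3453) (nat_lit 32768)
 .dd))) (.br (nat_lit 9) (.ch (nat_lit 6) (.ev (nat_lit 3440) (nat_lit 274880037376) (.ev (nat_lit 3453)
 (nat_lit 16) .dd))) (.ch (nat_lit 9) (.ev (nat_lit 3440) (nat_lit 274877939728) (.ev (nat_lit 3668) (nat_lit
 512) (.ev (nat_lit 3677) (nat_lit 2097152) .dd))))))) (.br (nat_lit 16) (.br (nat_lit 13) (.ch (nat_lit 12)
 (.ev (nat_lit 3440) (nat_lit 274880037376) (.ev (nat_lit 3453) (nat_lit 16) .dd))) (.br (nat_lit 15) (.ch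
 (nat_lit 13) (.ev (nat_lit 3440) (nat_lit 274877906960) (.ev (nat_lit 3456) (nat_lit 2097152) (.ev (nat_lit
 3632) (nat_lit 512) (.ev (nat_lit 3645) (nat_lit 32768) .dd))))) (.ch (nat_lit 15) (.ev (nat_lit 3440)
 (nat_lit 274880037376) (.ev (nat_lit 3453) (nat_lit 16) .dd))))) (.br (nat_lit 26) (.br (nat_lit 19) (.ch
 (nat_lit 16) (.ev (nat_lit 3440) (nat_lit 274877940240) (.ev (nat_lit 3453) (nat_lit 2097152) .dd))) (.ch
 (nat_lit 19) (.ev (nat_lit 3440) (nat_lit 274880037392) .dd))) (.br (nat_lit 29) (.ch (nat_lit 26) (.ev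
 (nat_lit 3440) (nat_lit 274880037392) .dd)) (.ch (nat_lit 29) (.ev (nat_lit 3440) (nat_lit 274877907472) (.ev
 (nat_lit 3536) (nat_lit 2097152) (.ev (nat_lit 3549) (nat_lit 32768) .dd)))))))))))))))))) (.br (nat_lit 69)
 (.ch (nat_lit 68) (.ev (nat_lit 52) (nat_lit 4504286895570960) (.ev (nat_lit 244) (nat_lit 268435456) (.ev
 (nat_lit 884) (nat_lit 4096) (.ev (nat_lit 1204) (nat_lit 8589934592) (.ev (nat_lit 1268) (nat_lit
 274877906944) (.ev (nat_lit 2884) (nat_lit 1125899906842624) (.nd (nat_lit 3424) (.br (nat_lit 14) (.br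
 (nat_lit 7) (.br (nat_lit 1) (.ch (nat_lit 0) (.ev (nat_lit 3440) (nat_lit 290273217348160) .dd)) (.br
 (nat_lit 5) (.ch (nat_lit 1) (.ev (nat_lit 3440) (nat_lit 290273217347648) (.ev (nat_lit 3453) (nat_lit 512)
 .dd))) (.ch (nat_lit 5) (.ev (nat_lit 3440) (nat_lit 290273217347584) (.fin (nat_lit 576465700110418516))))))
 (.br (nat_lit 11) (.ch (nat_lit 7) (.ev (nat_lit 3440) (nat_lit 290271069733440) (.ev (nat_lit 3536) (nat_lit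
 131072) (.ev (nat_lit 3549) (nat_lit 2147483648) .dd)))) (.br (nat_lit 13) (.ch (nat_lit 11) (.ev (nat_lit
 3440) (nat_lit 290273217348096) (.ev (nat_lit 3453) (nat_lit 64) .dd))) (.ch (nat_lit 13) (.ev (nat_lit 3440)
 (nat_lit 8798240636992) (.ev (nat_lit 3508) (nat_lit 281474976710656) (.ev (nat_lit 3517) (nat_lit 512)
 .dd))))))) (.br (nat_lit 18) (.br (nat_lit 15) (.ch (nat_lit 14) (.ev (nat_lit 3440) (nat_lit 290271069864512)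
 (.ev (nat_lit 3453) (nat_lit 2147483648) .dd))) (.br (nat_lit 16) (.ch (nat_lit 15) (.ev (nat_lit 3440)
 (nat_lit 290273217217024) (.ev (nat_lit 3508) (nat_lit 64) (.ev (nat_lit 3517) (nat_lit 131072) .dd)))) (.ch
 (nat_lit 16) (.ev (nat_lit 3440) (nat_lit 290271069864000) (.ev (nat_lit 3520) (nat_lit 2147483648) (.ev
 (nat_lit 3533) (nat_lit 512) .dd)))))) (.br (nat_lit 24) (.br (nat_lit 23) (.ch (nat_lit 18) (.ev (nat_lit
 3440) (nat_lit 290273217348160) .dd)) (.ch (nat_lit 23) (.ev (nat_lit 3440) (nat_lit 8798240637504) (.ev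
 (nat_lit 3453) (nat_lit 281474976710656) .dd)))) (.br (nat_lit 29) (.ch (nat_lit 24) (.ev (nat_lit 3440)
 (nat_lit 281477124194816) (.ev (nat_lit 3668) (nat_lit 64) (.ev (nat_lit 3680) (nat_lit 131072) (.ev (nat_lit
 3693) (nat_lit 8796093022208) .dd))))) (.ch (nat_lit 29) (.ev (nat_lit 3440) (nat_lit 2147484224) (.ev
 (nat_lit 3508) (nat_lit 281474976710656) (.ev (nat_lit 3668) (nat_lit 131072) (.ev (nat_lit 3677) (nat_lit
 8796093022208) .dd))))))))))))))))) (.br (nat_lit 70) (.ch (nat_lit 69) (.ev (nat_lit 52) (nat_lit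
 1126452151976016) (.ev (nat_lit 436) (nat_lit 4503599627370496) (.ev (nat_lit 820) (nat_lit 274877906944) (.ev
 (nat_lit 1700) (nat_lit 512) (.ev (nat_lit 1972) (nat_lit 8589934592) (.ev (nat_lit 2276) (nat_lit 32768) (.nd
 (nat_lit 3424) (.br (nat_lit 14) (.br (nat_lit 6) (.br (nat_lit 1) (.ch (nat_lit 0) (.ev (nat_lit 3440)
 (nat_lit 290408508821504) .dd)) (.ch (nat_lit 1) (.ev (nat_lit 3440) (nat_lit 8796093153280) (.ev (nat_lit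
 3712) (nat_lit 4096) (.ev (nat_lit 3732) (nat_lit 137438953472) (.ev (nat_lit 3741) (nat_lit 281474976710656)
 .dd)))))) (.br (nat_lit 9) (.ch (nat_lit 6) (.ev (nat_lit 3440) (nat_lit 290408508821504) .dd)) (.br (nat_lit
 13) (.ch (nat_lit 9) (.ev (nat_lit 3440) (nat_lit 135168) (.ev (nat_lit 3508) (nat_lit 8933531975680) (.ev
 (nat_lit 3517) (nat_lit 281474976710656) .dd)))) (.ch (nat_lit 13) (.ev (nat_lit 3440) (nat_lit 8933532110848)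
 (.ev (nat_lit 3453) (nat_lit 281474976710656) .dd)))))) (.br (nat_lit 23) (.br (nat_lit 15) (.ch (nat_lit 14)
 (.ev (nat_lit 3440) (nat_lit 290408508821504) .dd)) (.br (nat_lit 18) (.ch (nat_lit 15) (.ev (nat_lit 3440)
 (nat_lit 290408508690432) (.ev (nat_lit 3453) (nat_lit 131072) .dd))) (.ch (nat_lit 18) (.ev (nat_lit 3440)
 (nat_lit 281612415668224) (.ev (nat_lit 3584) (nat_lit 131072) (.ev (nat_lit 3597) (nat_lit 8796093022208)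
 .dd)))))) (.br (nat_lit 24) (.ch (nat_lit 23) (.ev (nat_lit 3440) (nat_lit 290408508821504) .dd)) (.br
 (nat_lit 26) (.ch (nat_lit 24) (.ev (nat_lit 3440) (nat_lit 137439088640) (.ev (nat_lit 3668) (nat_lit
 8796093022208) (.ev (nat_lit 3677) (nat_lit 281474976710656) .dd)))) (.ch (nat_lit 26) (.ev (nat_lit 3440)
 (nat_lit 290408508821504) .dd)))))))))))))) (.ch (nat_lit 70) (.ev (nat_lit 52) (nat_lit 283742703680) (.ev
 (nat_lit 800) (nat_lit 5920460013339152) .dd)))))))))))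

/-- Subtrie. -/
noncomputable def T8 : Tr := (.ev (nat_lit 20) (nat_lit 1554437321950720) (.nd (nat_lit 33) (.br (nat_lit 39)
 (.br (nat_lit 19) (.br (nat_lit 8) (.br (nat_lit 4) (.br (nat_lit 3) (.ch (nat_lit 1) (.ev (nat_lit 52)
 (nat_lit 4503805802584160) (.ev (nat_lit 1456) (nat_lit 661914858356752) .dd))) (.ch (nat_lit 3) (.ev (nat_lit
 52) (nat_lit 4523390853453888) (.ev (nat_lit 372) (nat_lit 68719476736) (.ev (nat_lit 2116) (nat_lit 65536)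
 (.ev (nat_lit 3060) (nat_lit 562949953421312) (.ev (nat_lit 3124) (nat_lit 32) (.nd (nat_lit 3424) (.br
 (nat_lit 9) (.br (nat_lit 6) (.br (nat_lit 4) (.ch (nat_lit 1) (.ev (nat_lit 3440) (nat_lit 70515041501200)
 (.ev (nat_lit 3453) (nat_lit 8796093022208) .dd))) (.ch (nat_lit 4) (.ev (nat_lit 3440) (nat_lit
 8942390345744) (.ev (nat_lit 3453) (nat_lit 70368744177664) .dd)))) (.br (nat_lit 7) (.ch (nat_lit 6) (.ev
 (nat_lit 3440) (nat_lit 79311134523392) (.ev (nat_lit 3453) (nat_lit 16) .dd))) (.ch (nat_lit 7) (.ev (nat_lit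
 3440) (nat_lit 79165105635344) (.ev (nat_lit 3508) (nat_lit 8589934592) (.ev (nat_lit 3517) (nat_lit
 137438953472) .dd)))))) (.br (nat_lit 17) (.br (nat_lit 16) (.ch (nat_lit 9) (.ev (nat_lit 3440) (nat_lit
 79173427134480) (.ev (nat_lit 3552) (nat_lit 137707388928) .dd))) (.ch (nat_lit 16) (.ev (nat_lit 3440)
 (nat_lit 137438953488) (.ev (nat_lit 3668) (nat_lit 79173427134464) (.ev (nat_lit 3677) (nat_lit 268435456)
 .dd))))) (.br (nat_lit 20) (.ch (nat_lit 17) (.ev (nat_lit 3440) (nat_lit 70515041501200) (.ev (nat_lit 3453)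
 (nat_lit 8796093022208) .dd))) (.br (nat_lit 29) (.ch (nat_lit 20) (.ev (nat_lit 3440) (nat_lit
 79311134523408) .dd)) (.ch (nat_lit 29) (.ev (nat_lit 3440) (nat_lit 79302544588816) (.ev (nat_lit 3453)
 (nat_lit 8589934592) .dd))))))))))))))) (.br (nat_lit 5) (.ch (nat_lit 4) (.ev (nat_lit 52) (nat_lit
 4523597263601696) (.ev (nat_lit 340) (nat_lit 8589934592) (.ev (nat_lit 1476) (nat_lit 562949953421312) (.ev
 (nat_lit 2096) (nat_lit 79164853983312) .dd))))) (.br (nat_lit 7) (.ch (nat_lit 5) (.ev (nat_lit 52) (nat_lit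
 17798612910096) (.ev (nat_lit 404) (nat_lit 8589934592) (.ev (nat_lit 1044) (nat_lit 2199023255552) (.ev
 (nat_lit 1748) (nat_lit 32) (.ev (nat_lit 2180) (nat_lit 64) (.ev (nat_lit 2276) (nat_lit 2048) (.ev (nat_lit
 2612) (nat_lit 8796093022208) (.ev (nat_lit 3188) (nat_lit 4503599627370496) (.nd (nat_lit 3424) (.br (nat_lit
 13) (.br (nat_lit 8) (.br (nat_lit 3) (.ch (nat_lit 1) (.ev (nat_lit 3440) (nat_lit 70368744243200) (.ev
 (nat_lit 3508) (nat_lit 16777216) (.ev (nat_lit 3696) (nat_lit 4096) (.ev (nat_lit 3709) (nat_lit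
 562949953421312) .dd))))) (.ch (nat_lit 3) (.ev (nat_lit 3440) (nat_lit 633318714380288) (.ev (nat_lit 3453)
 (nat_lit 65536) .dd)))) (.br (nat_lit 9) (.ch (nat_lit 8) (.ev (nat_lit 3440) (nat_lit 70368744247296) (.ev
 (nat_lit 3668) (nat_lit 562949953421312) (.ev (nat_lit 3677) (nat_lit 16777216) .dd)))) (.br (nat_lit 11) (.ch
 (nat_lit 9) (.ev (nat_lit 3440) (nat_lit 70368761020416) (.ev (nat_lit 3568) (nat_lit 562949953421312) (.ev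
 (nat_lit 3581) (nat_lit 4096) .dd)))) (.ch (nat_lit 11) (.ev (nat_lit 3440) (nat_lit 562949970202624) (.ev
 (nat_lit 3508) (nat_lit 65536) (.ev (nat_lit 3517) (nat_lit 70368744177664) .dd))))))) (.br (nat_lit 17) (.br
 (nat_lit 15) (.ch (nat_lit 13) (.ev (nat_lit 3440) (nat_lit 633318697603072) (.ev (nat_lit 3456) (nat_lit
 16777216) (.ev (nat_lit 3469) (nat_lit 65536) .dd)))) (.br (nat_lit 16) (.ch (nat_lit 15) (.ev (nat_lit 3440)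
 (nat_lit 562949970264064) (.ev (nat_lit 3536) (nat_lit 70368744177664) (.ev (nat_lit 3549) (nat_lit 4096)
 .dd)))) (.ch (nat_lit 16) (.ev (nat_lit 3440) (nat_lit 16846848) (.ev (nat_lit 3696) (nat_lit 562949953421312)
 (.ev (nat_lit 3709) (nat_lit 70368744177664) .dd)))))) (.br (nat_lit 18) (.ch (nat_lit 17) (.ev (nat_lit 3440)
 (nat_lit 633318714445824) .dd)) (.br (nat_lit 22) (.ch (nat_lit 18) (.ev (nat_lit 3440) (nat_lit
 633318714380288) (.ev (nat_lit 3453) (nat_lit 65536) .dd))) (.ch (nat_lit 22) (.ev (nat_lit 3440) (nat_lit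
 633318714445824) .dd)))))))))))))))) (.ch (nat_lit 7) (.ev (nat_lit 52) (nat_lit 5137133073336368) (.ev
 (nat_lit 532) (nat_lit 16777216) (.ev (nat_lit 1396) (nat_lit 17592186044416) (.ev (nat_lit 2436) (nat_lit
 2199023255552) (.nd (nat_lit 3424) (.br (nat_lit 16) (.br (nat_lit 12) (.br (nat_lit 4) (.ch (nat_lit 2) (.ev
 (nat_lit 3440) (nat_lit 8796361523200) (.fin (nat_lit 576462401571340872)))) (.ch (nat_lit 4) (.ev (nat_lit
 3440) (nat_lit 8796361461824) (.ev (nat_lit 3453) (nat_lit 65536) .dd)))) (.br (nat_lit 13) (.ch (nat_lit 12)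
 (.ev (nat_lit 3440) (nat_lit 8796361461760) (.ev (nat_lit 3508) (nat_lit 64) (.ev (nat_lit 3517) (nat_lit
 65536) .dd)))) (.ch (nat_lit 13) (.ev (nat_lit 3440) (nat_lit 8796361527296) (.ev (nat_lit 3453) (nat_lit 64)
 .dd))))) (.br (nat_lit 19) (.br (nat_lit 17) (.ch (nat_lit 16) (.ev (nat_lit 3440) (nat_lit 69696) (.ev
 (nat_lit 3668) (nat_lit 268435456) (.ev (nat_lit 3677) (nat_lit 8796093022208) .dd)))) (.ch (nat_lit 17) (.ev
 (nat_lit 3440) (nat_lit 268505152) (.ev (nat_lit 3453) (nat_lit 8796093022208) .dd)))) (.br (nat_lit 22) (.ch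
 (nat_lit 19) (.ev (nat_lit 3440) (nat_lit 4160) (.ev (nat_lit 3508) (nat_lit 268435456) (.ev (nat_lit 3696)
 (nat_lit 8796093087744) .dd)))) (.br (nat_lit 29) (.ch (nat_lit 22) (.ev (nat_lit 3440) (nat_lit
 8796361527296) (.ev (nat_lit 3453) (nat_lit 64) .dd))) (.ch (nat_lit 29) (.ev (nat_lit 3440) (nat_lit
 8796361527360) .dd))))))))))))))) (.br (nat_lit 15) (.br (nat_lit 11) (.ch (nat_lit 8) (.ev (nat_lit 52)
 (nat_lit 4529996781588480) (.ev (nat_lit 1140) (nat_lit 137438953472) (.ev (nat_lit 1344) (nat_lit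
 635586440398960) .dd)))) (.br (nat_lit 12) (.ch (nat_lit 11) (.ev (nat_lit 52) (nat_lit 574160103344192) (.ev
 (nat_lit 2580) (nat_lit 4096) (.nd (nat_lit 3424) (.br (nat_lit 18) (.br (nat_lit 12) (.br (nat_lit 9) (.ch
 (nat_lit 4) (.ev (nat_lit 3440) (nat_lit 4591560557592624) .dd)) (.ch (nat_lit 9) (.ev (nat_lit 3440) (nat_lit
 4591560557592592) (.ev (nat_lit 3453) (nat_lit 32) .dd)))) (.br (nat_lit 15) (.ch (nat_lit 12) (.ev (nat_lit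
 3440) (nat_lit 4591560557592608) (.ev (nat_lit 3453) (nat_lit 16) .dd))) (.br (nat_lit 17) (.ch (nat_lit 15)
 (.ev (nat_lit 3440) (nat_lit 4591560557592576) (.ev (nat_lit 3536) (nat_lit 32) (.ev (nat_lit 3549) (nat_lit
 16) .dd)))) (.ch (nat_lit 17) (.ev (nat_lit 3440) (nat_lit 4591560557592608) (.ev (nat_lit 3453) (nat_lit 16)
 .dd)))))) (.br (nat_lit 20) (.br (nat_lit 19) (.ch (nat_lit 18) (.ev (nat_lit 3440) (nat_lit 87960930222128)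
 (.ev (nat_lit 3453) (nat_lit 4503599627370496) .dd))) (.ch (nat_lit 19) (.ev (nat_lit 3440) (nat_lit
 87960930222128) (.ev (nat_lit 3453) (nat_lit 4503599627370496) .dd)))) (.br (nat_lit 22) (.ch (nat_lit 20)
 (.ev (nat_lit 3440) (nat_lit 4503599627370544) (.ev (nat_lit 3508) (nat_lit 70368744177664) (.ev (nat_lit
 3517) (nat_lit 17592186044416) .dd)))) (.br (nat_lit 29) (.ch (nat_lit 22) (.ev (nat_lit 3440) (nat_lit
 4591560557592624) .dd)) (.ch (nat_lit 29) (.ev (nat_lit 3440) (nat_lit 4591560557592624) .dd)))))))))) (.ch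
 (nat_lit 12) (.ev (nat_lit 52) (nat_lit 4521192081918048) (.ev (nat_lit 1088) (nat_lit 644528579022864)
 .dd))))) (.br (nat_lit 16) (.ch (nat_lit 15) (.ev (nat_lit 52) (nat_lit 81432596709472) (.ev (nat_lit 564)
 (nat_lit 137438953472) (.ev (nat_lit 1076) (nat_lit 4096) (.ev (nat_lit 1300) (nat_lit 268435456) (.ev
 (nat_lit 2192) (nat_lit 5084150356838416) .dd)))))) (.br (nat_lit 18) (.ch (nat_lit 16) (.ev (nat_lit 52)
 (nat_lit 5075483112835104) (.ev (nat_lit 84) (nat_lit 16777216) (.ev (nat_lit 1332) (nat_lit 17592186044416)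
 (.ev (nat_lit 1760) (nat_lit 72645345284176) .dd))))) (.ch (nat_lit 18) (.ev (nat_lit 52) (nat_lit
 4600571684196432) (.ev (nat_lit 1108) (nat_lit 2048) (.ev (nat_lit 2852) (nat_lit 2199023255584) (.ev (nat_lit
 3200) (nat_lit 562949953486848) .dd))))))))) (.br (nat_lit 29) (.br (nat_lit 23) (.br (nat_lit 22) (.ch
 (nat_lit 19) (.ev (nat_lit 52) (nat_lit 591537524246528) (.ev (nat_lit 180) (nat_lit 8589934592) (.ev (nat_lit
 404) (nat_lit 68719476736) (.ev (nat_lit 1108) (nat_lit 32) (.ev (nat_lit 3360) (nat_lit 137438953472) (.nd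
 (nat_lit 3424) (.br (nat_lit 16) (.br (nat_lit 12) (.br (nat_lit 2) (.ch (nat_lit 1) (.ev (nat_lit 3440)
 (nat_lit 4573968371552336) (.ev (nat_lit 3453) (nat_lit 16777216) .dd))) (.ch (nat_lit 2) (.ev (nat_lit 3440)
 (nat_lit 4573968388325440) (.ev (nat_lit 3668) (nat_lit 16) (.ev (nat_lit 3677) (nat_lit 4096) .dd))))) (.br
 (nat_lit 15) (.ch (nat_lit 12) (.ev (nat_lit 3440) (nat_lit 4573968388329552) .dd)) (.ch (nat_lit 15) (.ev
 (nat_lit 3440) (nat_lit 16781312) (.ev (nat_lit 3508) (nat_lit 4503599627370512) (.ev (nat_lit 3668) (nat_lit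
 70368744177664) (.ev (nat_lit 3677) (nat_lit 64) .dd))))))) (.br (nat_lit 19) (.br (nat_lit 18) (.ch (nat_lit
 16) (.ev (nat_lit 3440) (nat_lit 4573968371552336) (.ev (nat_lit 3453) (nat_lit 16777216) .dd))) (.ch (nat_lit
 18) (.ev (nat_lit 3440) (nat_lit 4573968388325456) (.ev (nat_lit 3453) (nat_lit 4096) .dd)))) (.br (nat_lit
 20) (.ch (nat_lit 19) (.ev (nat_lit 3440) (nat_lit 4503599627374672) (.ev (nat_lit 3568) (nat_lit
 70368744177664) (.ev (nat_lit 3581) (nat_lit 16777216) .dd)))) (.br (nat_lit 29) (.ch (nat_lit 20) (.ev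
 (nat_lit 3440) (nat_lit 4503599644147792) (.ev (nat_lit 3668) (nat_lit 4096) (.ev (nat_lit 3677) (nat_lit
 70368744177664) .dd)))) (.ch (nat_lit 29) (.ev (nat_lit 3440) (nat_lit 70368744177744) (.ev (nat_lit 3508)
 (nat_lit 4096) (.ev (nat_lit 3552) (nat_lit 16777216) (.ev (nat_lit 3565) (nat_lit 4503599627370496)
 .dd)))))))))))))))) (.ch (nat_lit 22) (.ev (nat_lit 52) (nat_lit 582878618451968) (.ev (nat_lit 84) (nat_lit
 68719476736) (.ev (nat_lit 1044) (nat_lit 16) (.ev (nat_lit 1476) (nat_lit 4503599627370496) (.ev (nat_lit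
 1940) (nat_lit 2048) (.ev (nat_lit 2052) (nat_lit 64) (.ev (nat_lit 2916) (nat_lit 268435456) (.ev (nat_lit
 3188) (nat_lit 8796093022208) (.nd (nat_lit 3424) (.br (nat_lit 11) (.br (nat_lit 6) (.br (nat_lit 3) (.ch
 (nat_lit 2) (.ev (nat_lit 3440) (nat_lit 70377334181920) .dd)) (.ch (nat_lit 3) (.ev (nat_lit 3440) (nat_lit
 8589938720) (.ev (nat_lit 3456) (nat_lit 65536) (.ev (nat_lit 3469) (nat_lit 70368744177664) .dd))))) (.br
 (nat_lit 7) (.ch (nat_lit 6) (.ev (nat_lit 3440) (nat_lit 70377334181920) .dd)) (.ch (nat_lit 7) (.ev (nat_lit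
 3440) (nat_lit 70368744247296) (.ev (nat_lit 3508) (nat_lit 32) (.ev (nat_lit 3517) (nat_lit 8589934592)
 .dd)))))) (.br (nat_lit 18) (.br (nat_lit 17) (.ch (nat_lit 11) (.ev (nat_lit 3440) (nat_lit 4128) (.ev
 (nat_lit 3508) (nat_lit 70368744177664) (.ev (nat_lit 3668) (nat_lit 8589934592) (.ev (nat_lit 3677) (nat_lit
 65536) .dd))))) (.ch (nat_lit 17) (.ev (nat_lit 3440) (nat_lit 70368744247328) (.ev (nat_lit 3453) (nat_lit
 8589934592) .dd)))) (.br (nat_lit 20) (.ch (nat_lit 18) (.ev (nat_lit 3440) (nat_lit 70377334112256) (.ev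
 (nat_lit 3456) (nat_lit 32) (.ev (nat_lit 3680) (nat_lit 65536) (.ev (nat_lit 3693) (nat_lit 4096) .dd)))))
 (.br (nat_lit 22) (.ch (nat_lit 20) (.ev (nat_lit 3440) (nat_lit 70377334181920) .dd)) (.ch (nat_lit 22) (.ev
 (nat_lit 3440) (nat_lit 70377334181920) .dd))))))))))))))))) (.br (nat_lit 24) (.ch (nat_lit 23) (.ev (nat_lit
 52) (nat_lit 4514740772542528) (.ev (nat_lit 308) (nat_lit 16777216) (.ev (nat_lit 1044) (nat_lit 65536) (.ev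
 (nat_lit 1076) (nat_lit 268435456) (.ev (nat_lit 1636) (nat_lit 17592186044416) (.ev (nat_lit 2404) (nat_lit
 562949953421312) (.ev (nat_lit 3060) (nat_lit 16) (.nd (nat_lit 3424) (.br (nat_lit 11) (.br (nat_lit 6) (.br
 (nat_lit 3) (.ch (nat_lit 2) (.ev (nat_lit 3440) (nat_lit 70437463654432) .dd)) (.ch (nat_lit 3) (.ev (nat_lit
 3440) (nat_lit 70437463654432) .dd))) (.br (nat_lit 8) (.ch (nat_lit 6) (.ev (nat_lit 3440) (nat_lit
 70437463654400) (.ev (nat_lit 3453) (nat_lit 32) .dd))) (.ch (nat_lit 8) (.ev (nat_lit 3440) (nat_lit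
 70437463654432) .dd)))) (.br (nat_lit 13) (.br (nat_lit 12) (.ch (nat_lit 11) (.ev (nat_lit 3440) (nat_lit 32)
 (.ev (nat_lit 3508) (nat_lit 68719476736) (.ev (nat_lit 3517) (nat_lit 70368744177664) .dd)))) (.ch (nat_lit
 12) (.ev (nat_lit 3440) (nat_lit 70437463654432) .dd))) (.br (nat_lit 15) (.ch (nat_lit 13) (.ev (nat_lit
 3440) (nat_lit 70368744177696) (.ev (nat_lit 3453) (nat_lit 68719476736) .dd))) (.br (nat_lit 19) (.ch
 (nat_lit 15) (.ev (nat_lit 3440) (nat_lit 68719476768) (.ev (nat_lit 3453) (nat_lit 70368744177664) .dd)))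
 (.ch (nat_lit 19) (.ev (nat_lit 3440) (nat_lit 70437463654432) .dd))))))))))))))) (.br (nat_lit 26) (.ch
 (nat_lit 24) (.ev (nat_lit 52) (nat_lit 99033355976736) (.ev (nat_lit 628) (nat_lit 16777216) (.ev (nat_lit
 1728) (nat_lit 5066687288186960) .dd)))) (.ch (nat_lit 26) (.ev (nat_lit 52) (nat_lit 5066695609745424) (.ev
 (nat_lit 724) (nat_lit 64) (.ev (nat_lit 1300) (nat_lit 4096) (.ev (nat_lit 1364) (nat_lit 2199023255552) (.ev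
 (nat_lit 1476) (nat_lit 2048) (.ev (nat_lit 2884) (nat_lit 268435456) (.nd (nat_lit 3424) (.br (nat_lit 9)
 (.br (nat_lit 4) (.ch (nat_lit 3) (.ev (nat_lit 3440) (nat_lit 96825742721056) (.ev (nat_lit 3453) (nat_lit
 16777216) .dd))) (.br (nat_lit 8) (.ch (nat_lit 4) (.ev (nat_lit 3440) (nat_lit 26388295843872) (.ev (nat_lit
 3508) (nat_lit 70368744177664) (.ev (nat_lit 3517) (nat_lit 68719476736) .dd)))) (.ch (nat_lit 8) (.ev
 (nat_lit 3440) (nat_lit 88029666476032) (.ev (nat_lit 3508) (nat_lit 32) (.ev (nat_lit 3517) (nat_lit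
 8796093022208) .dd)))))) (.br (nat_lit 16) (.br (nat_lit 11) (.ch (nat_lit 9) (.ev (nat_lit 3440) (nat_lit
 96825742721024) (.ev (nat_lit 3668) (nat_lit 32) (.ev (nat_lit 3677) (nat_lit 16777216) .dd)))) (.ch (nat_lit
 11) (.ev (nat_lit 3440) (nat_lit 68736253984) (.ev (nat_lit 3668) (nat_lit 79164837199872) (.ev (nat_lit 3677)
 (nat_lit 17592186044416) .dd))))) (.br (nat_lit 20) (.ch (nat_lit 16) (.ev (nat_lit 3440) (nat_lit
 88029666476064) (.ev (nat_lit 3453) (nat_lit 8796093022208) .dd))) (.ch (nat_lit 20) (.ev (nat_lit 3440)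
 (nat_lit 26457015320576) (.ev (nat_lit 3456) (nat_lit 70368744177664) (.ev (nat_lit 3469) (nat_lit 32)
 .dd)))))))))))))))))) (.br (nat_lit 34) (.br (nat_lit 31) (.ch (nat_lit 29) (.ev (nat_lit 52) (nat_lit
 4591629562282064) (.ev (nat_lit 340) (nat_lit 137438953472) (.ev (nat_lit 500) (nat_lit 8589934592) (.ev
 (nat_lit 1748) (nat_lit 2199023255552) (.ev (nat_lit 2436) (nat_lit 32) (.ev (nat_lit 3156) (nat_lit 4096)
 (.ev (nat_lit 3248) (nat_lit 2048) (.nd (nat_lit 3424) (.br (nat_lit 9) (.br (nat_lit 6) (.br (nat_lit 3) (.ch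
 (nat_lit 2) (.ev (nat_lit 3440) (nat_lit 8796093087744) (.ev (nat_lit 3453) (nat_lit 562949953421312) .dd)))
 (.ch (nat_lit 3) (.ev (nat_lit 3440) (nat_lit 571746046509056) .dd))) (.br (nat_lit 7) (.ch (nat_lit 6) (.ev
 (nat_lit 3440) (nat_lit 562949953486848) (.ev (nat_lit 3453) (nat_lit 8796093022208) .dd))) (.ch (nat_lit 7)
 (.ev (nat_lit 3440) (nat_lit 571746046509056) .dd)))) (.br (nat_lit 13) (.br (nat_lit 11) (.ch (nat_lit 9)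
 (.ev (nat_lit 3440) (nat_lit 8796093087744) (.ev (nat_lit 3453) (nat_lit 562949953421312) .dd))) (.ch (nat_lit
 11) (.ev (nat_lit 3440) (nat_lit 571746046509056) .dd))) (.br (nat_lit 19) (.ch (nat_lit 13) (.ev (nat_lit
 3440) (nat_lit 571746046509056) .dd)) (.br (nat_lit 29) (.ch (nat_lit 19) (.ev (nat_lit 3440) (nat_lit
 8796093087744) (.ev (nat_lit 3453) (nat_lit 562949953421312) .dd))) (.ch (nat_lit 29) (.ev (nat_lit 3440)
 (nat_lit 571746046443520) (.ev (nat_lit 3453) (nat_lit 65536) .dd)))))))))))))))) (.br (nat_lit 33) (.ch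
 (nat_lit 31) (.ev (nat_lit 52) (nat_lit 79164837265520) (.ev (nat_lit 84) (nat_lit 8589934592) (.ev (nat_lit
 1940) (nat_lit 2199023255552) (.ev (nat_lit 2532) (nat_lit 268435456) (.ev (nat_lit 3060) (nat_lit
 4503599627370496) (.ev (nat_lit 3220) (nat_lit 562949953421312) (.nd (nat_lit 3424) (.br (nat_lit 12) (.br
 (nat_lit 7) (.br (nat_lit 3) (.ch (nat_lit 1) (.ev (nat_lit 3440) (nat_lit 206158436352) (.ev (nat_lit 3508)
 (nat_lit 16777216) (.ev (nat_lit 3517) (nat_lit 17592186044416) .dd)))) (.br (nat_lit 4) (.ch (nat_lit 3) (.ev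
 (nat_lit 3440) (nat_lit 68719482880) (.ev (nat_lit 3668) (nat_lit 17592186044416) (.ev (nat_lit 3680) (nat_lit
 16777216) (.ev (nat_lit 3693) (nat_lit 137438953472) .dd))))) (.ch (nat_lit 4) (.ev (nat_lit 3440) (nat_lit
 17729641779200) (.ev (nat_lit 3508) (nat_lit 68719476736) (.ev (nat_lit 3517) (nat_lit 2048) .dd)))))) (.br
 (nat_lit 8) (.ch (nat_lit 7) (.ev (nat_lit 3440) (nat_lit 206175213568) (.ev (nat_lit 3453) (nat_lit
 17592186044416) .dd))) (.br (nat_lit 11) (.ch (nat_lit 8) (.ev (nat_lit 3440) (nat_lit 17798361257984) .dd))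
 (.ch (nat_lit 11) (.ev (nat_lit 3440) (nat_lit 17592186050560) (.ev (nat_lit 3508) (nat_lit 68719476736) (.ev
 (nat_lit 3668) (nat_lit 16777216) (.ev (nat_lit 3677) (nat_lit 137438953472) .dd)))))))) (.br (nat_lit 16)
 (.br (nat_lit 13) (.ch (nat_lit 12) (.ev (nat_lit 3440) (nat_lit 17798361257984) .dd)) (.br (nat_lit 15) (.ch
 (nat_lit 13) (.ev (nat_lit 3440) (nat_lit 17798344476672) (.ev (nat_lit 3536) (nat_lit 16777216) (.ev (nat_lit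
 3549) (nat_lit 4096) .dd)))) (.ch (nat_lit 15) (.ev (nat_lit 3440) (nat_lit 17798361251840) (.ev (nat_lit
 3520) (nat_lit 4096) (.ev (nat_lit 3533) (nat_lit 2048) .dd)))))) (.br (nat_lit 20) (.br (nat_lit 18) (.ch
 (nat_lit 16) (.ev (nat_lit 3440) (nat_lit 206175211520) (.fin (nat_lit 576461302078587464)))) (.ch (nat_lit
 18) (.ev (nat_lit 3440) (nat_lit 17798361253888) (.ev (nat_lit 3453) (nat_lit 4096) .dd)))) (.br (nat_lit 22)
 (.ch (nat_lit 20) (.ev (nat_lit 3440) (nat_lit 17729641781248) (.ev (nat_lit 3453) (nat_lit 68719476736)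
 .dd))) (.ch (nat_lit 22) (.ev (nat_lit 3440) (nat_lit 17798361255936) (.ev (nat_lit 3453) (nat_lit 2048)
 .dd))))))))))))))) (.ch (nat_lit 33) (.ev (nat_lit 52) (nat_lit 5093015454486640) (.ev (nat_lit 1780) (nat_lit
 2048) (.ev (nat_lit 2932) (nat_lit 137438953472) (.ev (nat_lit 3168) (nat_lit 72567767498752) .dd))))))) (.br
 (nat_lit 36) (.ch (nat_lit 34) (.ev (nat_lit 52) (nat_lit 4503608502517776) (.ev (nat_lit 820) (nat_lit 4096)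
 (.ev (nat_lit 1748) (nat_lit 70368744177664) (.ev (nat_lit 1940) (nat_lit 32) (.ev (nat_lit 2340) (nat_lit
 17592186044416) (.ev (nat_lit 2612) (nat_lit 2048) (.ev (nat_lit 3220) (nat_lit 8796093022208) (.ev (nat_lit
 3264) (nat_lit 2199023255552) (.nd (nat_lit 3424) (.br (nat_lit 15) (.br (nat_lit 9) (.br (nat_lit 8) (.ch
 (nat_lit 7) (.ev (nat_lit 3440) (nat_lit 563156111851520) (.ev (nat_lit 3508) (nat_lit 64) (.ev (nat_lit 3517)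
 (nat_lit 65536) .dd)))) (.ch (nat_lit 8) (.ev (nat_lit 3440) (nat_lit 206158495808) (.ev (nat_lit 3453)
 (nat_lit 562949953421312) .dd)))) (.br (nat_lit 12) (.ch (nat_lit 9) (.ev (nat_lit 3440) (nat_lit
 563156111917120) .dd)) (.ch (nat_lit 12) (.ev (nat_lit 3440) (nat_lit 562949953486912) (.fin (nat_lit
 576461302061810235)))))) (.br (nat_lit 17) (.br (nat_lit 16) (.ch (nat_lit 15) (.ev (nat_lit 3440) (nat_lit
 206158495744) (.ev (nat_lit 3456) (nat_lit 64) (.ev (nat_lit 3469) (nat_lit 562949953421312) .dd)))) (.ch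
 (nat_lit 16) (.ev (nat_lit 3440) (nat_lit 563156111917120) .dd))) (.br (nat_lit 22) (.ch (nat_lit 17) (.ev
 (nat_lit 3440) (nat_lit 563156111917120) .dd)) (.br (nat_lit 29) (.ch (nat_lit 22) (.ev (nat_lit 3440)
 (nat_lit 563156111851584) (.ev (nat_lit 3453) (nat_lit 65536) .dd))) (.ch (nat_lit 29) (.ev (nat_lit 3440)
 (nat_lit 206158430272) (.ev (nat_lit 3508) (nat_lit 562949953421312) (.ev (nat_lit 3517) (nat_lit 65536)
 .dd)))))))))))))))))) (.br (nat_lit 38) (.ch (nat_lit 36) (.ev (nat_lit 52) (nat_lit 633524856035392) (.ev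
 (nat_lit 244) (nat_lit 8606711808) (.ev (nat_lit 980) (nat_lit 17592186044416) (.ev (nat_lit 2116) (nat_lit
 4505798650626048) (.nd (nat_lit 3424) (.br (nat_lit 12) (.br (nat_lit 6) (.br (nat_lit 3) (.ch (nat_lit 2)
 (.ev (nat_lit 3440) (nat_lit 8796361523232) (.ev (nat_lit 3453) (nat_lit 16) .dd))) (.ch (nat_lit 3) (.ev
 (nat_lit 3440) (nat_lit 268501040) (.ev (nat_lit 3453) (nat_lit 8796093022208) .dd)))) (.br (nat_lit 9) (.ch
 (nat_lit 6) (.ev (nat_lit 3440) (nat_lit 8796361523200) (.ev (nat_lit 3508) (nat_lit 16) (.ev (nat_lit 3517)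
 (nat_lit 32) .dd)))) (.br (nat_lit 11) (.ch (nat_lit 9) (.ev (nat_lit 3440) (nat_lit 8796361523248) .dd)) (.ch
 (nat_lit 11) (.ev (nat_lit 3440) (nat_lit 48) (.ev (nat_lit 3508) (nat_lit 8796093022208) (.ev (nat_lit 3600)
 (nat_lit 65536) (.ev (nat_lit 3613) (nat_lit 268435456) .dd)))))))) (.br (nat_lit 17) (.br (nat_lit 15) (.ch
 (nat_lit 12) (.ev (nat_lit 3440) (nat_lit 8796361457696) (.ev (nat_lit 3668) (nat_lit 16) (.ev (nat_lit 3677)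
 (nat_lit 65536) .dd)))) (.br (nat_lit 16) (.ch (nat_lit 15) (.ev (nat_lit 3440) (nat_lit 8796361523248) .dd))
 (.ch (nat_lit 16) (.ev (nat_lit 3440) (nat_lit 268501040) (.ev (nat_lit 3453) (nat_lit 8796093022208) .dd)))))
 (.br (nat_lit 18) (.ch (nat_lit 17) (.ev (nat_lit 3440) (nat_lit 268501024) (.ev (nat_lit 3508) (nat_lit
 8796093022208) (.ev (nat_lit 3517) (nat_lit 16) .dd)))) (.br (nat_lit 22) (.ch (nat_lit 18) (.ev (nat_lit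
 3440) (nat_lit 8796361523248) .dd)) (.ch (nat_lit 22) (.ev (nat_lit 3440) (nat_lit 8796361457712) (.ev
 (nat_lit 3453) (nat_lit 65536) .dd))))))))))))) (.ch (nat_lit 38) (.ev (nat_lit 52) (nat_lit 11072694126608)
 (.ev (nat_lit 116) (nat_lit 137438953472) (.ev (nat_lit 564) (nat_lit 16777216) (.ev (nat_lit 1364) (nat_lit
 562949953421312) (.ev (nat_lit 1476) (nat_lit 32) (.ev (nat_lit 2612) (nat_lit 65536) (.nd (nat_lit 3424) (.br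
 (nat_lit 16) (.br (nat_lit 7) (.br (nat_lit 2) (.ch (nat_lit 1) (.ev (nat_lit 3440) (nat_lit 4591560557596736)
 .dd)) (.ch (nat_lit 2) (.ev (nat_lit 3440) (nat_lit 87960930222080) (.ev (nat_lit 3668) (nat_lit
 4503599627370496) (.fin (nat_lit 576462401571340872)))))) (.br (nat_lit 9) (.ch (nat_lit 7) (.ev (nat_lit
 3440) (nat_lit 4521191813419008) (.ev (nat_lit 3520) (nat_lit 70368744177664) (.ev (nat_lit 3533) (nat_lit 64)
 .dd)))) (.br (nat_lit 15) (.ch (nat_lit 9) (.ev (nat_lit 3440) (nat_lit 4591560557596736) .dd)) (.ch (nat_lit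
 15) (.ev (nat_lit 3440) (nat_lit 4591560557592576) (.ev (nat_lit 3508) (nat_lit 4096) (.ev (nat_lit 3517)
 (nat_lit 64) .dd))))))) (.br (nat_lit 18) (.br (nat_lit 17) (.ch (nat_lit 16) (.ev (nat_lit 3440) (nat_lit
 4591560557596736) .dd)) (.ch (nat_lit 17) (.ev (nat_lit 3440) (nat_lit 4591560557592640) (.ev (nat_lit 3453)
 (nat_lit 4096) .dd)))) (.br (nat_lit 20) (.ch (nat_lit 18) (.ev (nat_lit 3440) (nat_lit 87960930222144) (.ev
 (nat_lit 3668) (nat_lit 4096) (.ev (nat_lit 3677) (nat_lit 4503599627370496) .dd)))) (.br (nat_lit 29) (.ch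
 (nat_lit 20) (.ev (nat_lit 3440) (nat_lit 4573968371548160) (.ev (nat_lit 3508) (nat_lit 17592186044416) (.ev
 (nat_lit 3520) (nat_lit 64) (.ev (nat_lit 3533) (nat_lit 4096) .dd))))) (.ch (nat_lit 29) (.ev (nat_lit 3440)
 (nat_lit 70368744181824) (.ev (nat_lit 3668) (nat_lit 17592186044416) (.ev (nat_lit 3677) (nat_lit
 4503599627370496) .dd))))))))))))))))))))) (.br (nat_lit 54) (.br (nat_lit 47) (.br (nat_lit 43) (.br (nat_lit
 42) (.ch (nat_lit 39) (.ev (nat_lit 52) (nat_lit 4530202671579248) (.ev (nat_lit 1108) (nat_lit 65536) (.ev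
 (nat_lit 1940) (nat_lit 562949953421312) (.ev (nat_lit 2852) (nat_lit 2048) (.nd (nat_lit 3424) (.br (nat_lit
 11) (.br (nat_lit 7) (.br (nat_lit 4) (.ch (nat_lit 1) (.ev (nat_lit 3440) (nat_lit 70369012613120) (.ev
 (nat_lit 3552) (nat_lit 4096) (.ev (nat_lit 3565) (nat_lit 2199023255552) .dd)))) (.ch (nat_lit 4) (.ev
 (nat_lit 3440) (nat_lit 4096) (.ev (nat_lit 3520) (nat_lit 2199023255552) (.ev (nat_lit 3668) (nat_lit
 70368744177664) (.ev (nat_lit 3677) (nat_lit 268435456) .dd)))))) (.br (nat_lit 8) (.ch (nat_lit 7) (.ev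
 (nat_lit 3440) (nat_lit 72568035872768) .dd)) (.ch (nat_lit 8) (.ev (nat_lit 3440) (nat_lit 72568035872768)
 .dd)))) (.br (nat_lit 16) (.br (nat_lit 12) (.ch (nat_lit 11) (.ev (nat_lit 3440) (nat_lit 2199023259648) (.ev
 (nat_lit 3508) (nat_lit 70368744177664) (.ev (nat_lit 3517) (nat_lit 268435456) .dd)))) (.ch (nat_lit 12) (.ev
 (nat_lit 3440) (nat_lit 70368744181760) (.fin (nat_lit 576474496186663496))))) (.br (nat_lit 20) (.ch (nat_lit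
 16) (.ev (nat_lit 3440) (nat_lit 70369012617216) (.ev (nat_lit 3453) (nat_lit 2199023255552) .dd))) (.br
 (nat_lit 29) (.ch (nat_lit 20) (.ev (nat_lit 3440) (nat_lit 72568035872768) .dd)) (.ch (nat_lit 29) (.ev
 (nat_lit 3440) (nat_lit 2199023259648) (.ev (nat_lit 3508) (nat_lit 70368744177664) (.ev (nat_lit 3517)
 (nat_lit 268435456) .dd)))))))))))))) (.ch (nat_lit 42) (.ev (nat_lit 52) (nat_lit 98956063344752) (.ev
 (nat_lit 2384) (nat_lit 5066764597596160) .dd)))) (.br (nat_lit 44) (.ch (nat_lit 43) (.ev (nat_lit 52)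
 (nat_lit 5068757462421504) (.ev (nat_lit 276) (nat_lit 137438953472) (.ev (nat_lit 308) (nat_lit 68719476736)
 (.ev (nat_lit 372) (nat_lit 16777216) (.ev (nat_lit 1476) (nat_lit 65536) (.ev (nat_lit 2212) (nat_lit
 70368744177696) (.ev (nat_lit 2852) (nat_lit 16) (.nd (nat_lit 3424) (.br (nat_lit 15) (.br (nat_lit 3) (.br
 (nat_lit 2) (.ch (nat_lit 1) (.ev (nat_lit 3440) (nat_lit 2112) (.ev (nat_lit 3668) (nat_lit 8796093022208)
 (.ev (nat_lit 3677) (nat_lit 17592186044416) .dd)))) (.ch (nat_lit 2) (.ev (nat_lit 3440) (nat_lit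
 8796093022272) (.ev (nat_lit 3600) (nat_lit 2048) (.ev (nat_lit 3613) (nat_lit 17592186044416) .dd))))) (.br
 (nat_lit 8) (.ch (nat_lit 3) (.ev (nat_lit 3440) (nat_lit 2112) (.ev (nat_lit 3508) (nat_lit 8796093022208)
 (.ev (nat_lit 3517) (nat_lit 17592186044416) .dd)))) (.br (nat_lit 12) (.ch (nat_lit 8) (.ev (nat_lit 3440)
 (nat_lit 26388279068736) .dd)) (.ch (nat_lit 12) (.ev (nat_lit 3440) (nat_lit 26388279068672) (.ev (nat_lit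
 3453) (nat_lit 64) .dd)))))) (.br (nat_lit 17) (.br (nat_lit 16) (.ch (nat_lit 15) (.ev (nat_lit 3440)
 (nat_lit 17592186044480) (.ev (nat_lit 3508) (nat_lit 8796093022208) (.ev (nat_lit 3517) (nat_lit 2048)
 .dd)))) (.ch (nat_lit 16) (.ev (nat_lit 3440) (nat_lit 8796093022272) (.fin (nat_lit 576461302078587464)))))
 (.br (nat_lit 18) (.ch (nat_lit 17) (.ev (nat_lit 3440) (nat_lit 26388279068736) .dd)) (.br (nat_lit 22) (.ch
 (nat_lit 18) (.ev (nat_lit 3440) (nat_lit 26388279068672) (.ev (nat_lit 3453) (nat_lit 64) .dd))) (.ch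
 (nat_lit 22) (.ev (nat_lit 3440) (nat_lit 8796093022208) (.ev (nat_lit 3584) (nat_lit 2048) (.ev (nat_lit
 3668) (nat_lit 17592186044416) (.ev (nat_lit 3677) (nat_lit 64) .dd)))))))))))))))))) (.br (nat_lit 46) (.ch
 (nat_lit 44) (.ev (nat_lit 52) (nat_lit 580542156310544) (.ev (nat_lit 692) (nat_lit 4096) (.ev (nat_lit 1108)
 (nat_lit 4503599627370496) (.ev (nat_lit 2116) (nat_lit 32) (.ev (nat_lit 2404) (nat_lit 70368744177664) (.ev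
 (nat_lit 2468) (nat_lit 8796093022208) (.nd (nat_lit 3424) (.br (nat_lit 12) (.br (nat_lit 6) (.br (nat_lit 4)
 (.ch (nat_lit 1) (.ev (nat_lit 3440) (nat_lit 146297323584) (.ev (nat_lit 3616) (nat_lit 2199023255552) (.ev
 (nat_lit 3629) (nat_lit 68719476736) .dd)))) (.ch (nat_lit 4) (.ev (nat_lit 3440) (nat_lit 2345052143680) (.ev
 (nat_lit 3520) (nat_lit 68719476736) (.ev (nat_lit 3533) (nat_lit 268435456) .dd))))) (.br (nat_lit 8) (.ch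
 (nat_lit 6) (.ev (nat_lit 3440) (nat_lit 2405450121280) (.ev (nat_lit 3453) (nat_lit 8589934592) .dd))) (.ch
 (nat_lit 8) (.ev (nat_lit 3440) (nat_lit 2276601102400) (.ev (nat_lit 3453) (nat_lit 137438953472) .dd)))))
 (.br (nat_lit 16) (.br (nat_lit 13) (.ch (nat_lit 12) (.ev (nat_lit 3440) (nat_lit 214748364864) (.fin
 (nat_lit 576474496186663496)))) (.ch (nat_lit 13) (.ev (nat_lit 3440) (nat_lit 215016800256) (.ev (nat_lit
 3568) (nat_lit 2199023255552) (.ev (nat_lit 3581) (nat_lit 64) .dd))))) (.br (nat_lit 20) (.ch (nat_lit 16)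
 (.ev (nat_lit 3440) (nat_lit 77309411392) (.ev (nat_lit 3508) (nat_lit 137707388928) (.ev (nat_lit 3517)
 (nat_lit 2199023255552) .dd)))) (.br (nat_lit 29) (.ch (nat_lit 20) (.ev (nat_lit 3440) (nat_lit
 2345320579072) (.ev (nat_lit 3568) (nat_lit 68719476736) (.ev (nat_lit 3581) (nat_lit 64) .dd)))) (.ch
 (nat_lit 29) (.ev (nat_lit 3440) (nat_lit 2413771620416) (.ev (nat_lit 3453) (nat_lit 268435456)
 .dd))))))))))))))) (.ch (nat_lit 46) (.ev (nat_lit 52) (nat_lit 90159970326544) (.ev (nat_lit 148) (nat_lit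
 137438953472) (.ev (nat_lit 276) (nat_lit 68719476736) (.ev (nat_lit 1044) (nat_lit 32) (.ev (nat_lit 3092)
 (nat_lit 268435456) (.nd (nat_lit 3424) (.br (nat_lit 13) (.br (nat_lit 7) (.br (nat_lit 4) (.ch (nat_lit 2)
 (.ev (nat_lit 3440) (nat_lit 8804682956864) (.ev (nat_lit 3568) (nat_lit 562949953421312) (.ev (nat_lit 3581)
 (nat_lit 4503599627370496) .dd)))) (.ch (nat_lit 4) (.ev (nat_lit 3440) (nat_lit 4512395720392768) (.ev
 (nat_lit 3696) (nat_lit 562949953421312) (.ev (nat_lit 3709) (nat_lit 8589934592) .dd))))) (.br (nat_lit 9)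
 (.ch (nat_lit 7) (.ev (nat_lit 3440) (nat_lit 5075345673814016) (.ev (nat_lit 3508) (nat_lit 64) (.ev (nat_lit
 3517) (nat_lit 8589934592) .dd)))) (.br (nat_lit 12) (.ch (nat_lit 9) (.ev (nat_lit 3440) (nat_lit
 5075354263748608) (.ev (nat_lit 3453) (nat_lit 64) .dd))) (.ch (nat_lit 12) (.ev (nat_lit 3440) (nat_lit
 5066558170726400) (.ev (nat_lit 3456) (nat_lit 8796093022208) (.ev (nat_lit 3469) (nat_lit 64) .dd))))))) (.br
 (nat_lit 18) (.br (nat_lit 15) (.ch (nat_lit 13) (.ev (nat_lit 3440) (nat_lit 8589934656) (.ev (nat_lit 3508)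
 (nat_lit 8796093022208) (.ev (nat_lit 3696) (nat_lit 4503599627370496) (.ev (nat_lit 3709) (nat_lit
 562949953421312) .dd))))) (.br (nat_lit 17) (.ch (nat_lit 15) (.ev (nat_lit 3440) (nat_lit 4503608217305152)
 (.ev (nat_lit 3668) (nat_lit 562949953421312) (.ev (nat_lit 3677) (nat_lit 8796093022208) .dd)))) (.ch
 (nat_lit 17) (.ev (nat_lit 3440) (nat_lit 571746046443584) (.ev (nat_lit 3536) (nat_lit 8589934592) (.ev
 (nat_lit 3549) (nat_lit 4503599627370496) .dd)))))) (.br (nat_lit 19) (.ch (nat_lit 18) (.ev (nat_lit 3440)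
 (nat_lit 5075354263748608) (.ev (nat_lit 3453) (nat_lit 64) .dd))) (.br (nat_lit 22) (.ch (nat_lit 19) (.ev
 (nat_lit 3440) (nat_lit 5075354263748672) .dd)) (.ch (nat_lit 22) (.ev (nat_lit 3440) (nat_lit
 5075354263748672) .dd)))))))))))))))) (.br (nat_lit 50) (.br (nat_lit 48) (.ch (nat_lit 47) (.ev (nat_lit 52)
 (nat_lit 72705223170048) (.ev (nat_lit 180) (nat_lit 68719476736) (.ev (nat_lit 1044) (nat_lit 8796093022208)
 (.ev (nat_lit 1572) (nat_lit 8589934592) (.ev (nat_lit 1940) (nat_lit 16) (.ev (nat_lit 2052) (nat_lit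
 17592186044416) (.ev (nat_lit 2436) (nat_lit 562949953421312) (.ev (nat_lit 2724) (nat_lit 64) (.nd (nat_lit
 3424) (.br (nat_lit 13) (.br (nat_lit 8) (.br (nat_lit 7) (.ch (nat_lit 3) (.ev (nat_lit 3440) (nat_lit
 4503599895805984) (.ev (nat_lit 3453) (nat_lit 65536) .dd))) (.ch (nat_lit 7) (.ev (nat_lit 3440) (nat_lit
 4503599627436032) (.ev (nat_lit 3668) (nat_lit 268435456) (.ev (nat_lit 3677) (nat_lit 32) .dd))))) (.br
 (nat_lit 9) (.ch (nat_lit 8) (.ev (nat_lit 3440) (nat_lit 4503599895871488) (.ev (nat_lit 3453) (nat_lit 32)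
 .dd))) (.br (nat_lit 11) (.ch (nat_lit 9) (.ev (nat_lit 3440) (nat_lit 4503599895871488) (.ev (nat_lit 3453)
 (nat_lit 32) .dd))) (.ch (nat_lit 11) (.ev (nat_lit 3440) (nat_lit 4503599895805984) (.ev (nat_lit 3453)
 (nat_lit 65536) .dd)))))) (.br (nat_lit 18) (.br (nat_lit 15) (.ch (nat_lit 13) (.ev (nat_lit 3440) (nat_lit
 268501024) (.ev (nat_lit 3453) (nat_lit 4503599627370496) .dd))) (.ch (nat_lit 15) (.ev (nat_lit 3440)
 (nat_lit 268501024) (.ev (nat_lit 3453) (nat_lit 4503599627370496) .dd)))) (.br (nat_lit 20) (.ch (nat_lit 18)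
 (.ev (nat_lit 3440) (nat_lit 268500992) (.ev (nat_lit 3508) (nat_lit 32) (.ev (nat_lit 3517) (nat_lit
 4503599627370496) .dd)))) (.br (nat_lit 22) (.ch (nat_lit 20) (.ev (nat_lit 3440) (nat_lit 4503599895805984)
 (.ev (nat_lit 3453) (nat_lit 65536) .dd))) (.ch (nat_lit 22) (.ev (nat_lit 3440) (nat_lit 4503599895805984)
 (.ev (nat_lit 3453) (nat_lit 65536) .dd))))))))))))))))) (.br (nat_lit 49) (.ch (nat_lit 48) (.ev (nat_lit 52)
 (nat_lit 5086418367938592) (.ev (nat_lit 148) (nat_lit 16777216) (.ev (nat_lit 1268) (nat_lit 4096) (.ev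
 (nat_lit 1396) (nat_lit 64) (.ev (nat_lit 1940) (nat_lit 70368744177664) (.ev (nat_lit 2852) (nat_lit 65536)
 (.ev (nat_lit 3124) (nat_lit 2048) (.nd (nat_lit 3424) (.br (nat_lit 13) (.br (nat_lit 6) (.br (nat_lit 2)
 (.ch (nat_lit 1) (.ev (nat_lit 3440) (nat_lit 137438953488) (.ev (nat_lit 3453) (nat_lit 8796093022208) .dd)))
 (.br (nat_lit 3) (.ch (nat_lit 2) (.ev (nat_lit 3440) (nat_lit 8933531975680) (.ev (nat_lit 3453) (nat_lit 16)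
 .dd))) (.ch (nat_lit 3) (.ev (nat_lit 3440) (nat_lit 16) (.ev (nat_lit 3508) (nat_lit 8796093022208) (.ev
 (nat_lit 3517) (nat_lit 137438953472) .dd)))))) (.br (nat_lit 7) (.ch (nat_lit 6) (.ev (nat_lit 3440) (nat_lit
 137438953472) (.ev (nat_lit 3584) (nat_lit 8796093022208) (.ev (nat_lit 3597) (nat_lit 16) .dd)))) (.br
 (nat_lit 9) (.ch (nat_lit 7) (.ev (nat_lit 3440) (nat_lit 8796093022224) (.ev (nat_lit 3453) (nat_lit
 137438953472) .dd))) (.ch (nat_lit 9) (.ev (nat_lit 3440) (nat_lit 8933531975680) (.ev (nat_lit 3453) (nat_lit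
 16) .dd)))))) (.br (nat_lit 17) (.br (nat_lit 15) (.ch (nat_lit 13) (.ev (nat_lit 3440) (nat_lit
 8796093022224) (.ev (nat_lit 3453) (nat_lit 137438953472) .dd))) (.br (nat_lit 16) (.ch (nat_lit 15) (.ev
 (nat_lit 3440) (nat_lit 8933531975696) .dd)) (.ch (nat_lit 16) (.ev (nat_lit 3440) (nat_lit 8796093022224)
 (.ev (nat_lit 3453) (nat_lit 137438953472) .dd))))) (.br (nat_lit 19) (.br (nat_lit 18) (.ch (nat_lit 17) (.ev
 (nat_lit 3440) (nat_lit 8933531975680) (.ev (nat_lit 3453) (nat_lit 16) .dd))) (.ch (nat_lit 18) (.ev (nat_lit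
 3440) (nat_lit 8933531975696) .dd))) (.br (nat_lit 29) (.ch (nat_lit 19) (.ev (nat_lit 3440) (nat_lit
 8933531975696) .dd)) (.ch (nat_lit 29) (.ev (nat_lit 3440) (nat_lit 8933531975696) .dd))))))))))))))) (.ch
 (nat_lit 49) (.ev (nat_lit 52) (nat_lit 633456421771296) (.ev (nat_lit 148) (nat_lit 68719476736) (.ev
 (nat_lit 372) (nat_lit 8589934592) (.ev (nat_lit 1876) (nat_lit 64) (.ev (nat_lit 2212) (nat_lit
 10995116277760) (.nd (nat_lit 3424) (.br (nat_lit 12) (.br (nat_lit 9) (.br (nat_lit 7) (.ch (nat_lit 3) (.ev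
 (nat_lit 3440) (nat_lit 4521191813414928) (.ev (nat_lit 3453) (nat_lit 65536) .dd))) (.ch (nat_lit 7) (.ev
 (nat_lit 3440) (nat_lit 4503599627370512) (.ev (nat_lit 3508) (nat_lit 65536) (.ev (nat_lit 3517) (nat_lit
 17592186044416) .dd))))) (.br (nat_lit 11) (.ch (nat_lit 9) (.ev (nat_lit 3440) (nat_lit 4521191813480448)
 (.ev (nat_lit 3453) (nat_lit 16) .dd))) (.ch (nat_lit 11) (.ev (nat_lit 3440) (nat_lit 4521191813414912) (.ev
 (nat_lit 3520) (nat_lit 65552) .dd))))) (.br (nat_lit 19) (.br (nat_lit 13) (.ch (nat_lit 12) (.ev (nat_lit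
 3440) (nat_lit 4521191813480464) .dd)) (.ch (nat_lit 13) (.ev (nat_lit 3440) (nat_lit 17592186109968) (.ev
 (nat_lit 3453) (nat_lit 4503599627370496) .dd)))) (.br (nat_lit 20) (.ch (nat_lit 19) (.ev (nat_lit 3440)
 (nat_lit 4521191813480464) .dd)) (.br (nat_lit 22) (.ch (nat_lit 20) (.ev (nat_lit 3440) (nat_lit
 4503599627436048) (.ev (nat_lit 3453) (nat_lit 17592186044416) .dd))) (.ch (nat_lit 22) (.ev (nat_lit 3440)
 (nat_lit 4521191813480464) .dd))))))))))))))) (.br (nat_lit 51) (.ch (nat_lit 50) (.ev (nat_lit 52) (nat_lit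
 4602555673939968) (.ev (nat_lit 180) (nat_lit 137438953472) (.ev (nat_lit 308) (nat_lit 8589934592) (.ev
 (nat_lit 1364) (nat_lit 32) (.ev (nat_lit 1908) (nat_lit 64) (.ev (nat_lit 2416) (nat_lit 563018958112784)
 .dd))))))) (.br (nat_lit 53) (.ch (nat_lit 51) (.ev (nat_lit 52) (nat_lit 4514732182671376) (.ev (nat_lit 276)
 (nat_lit 16777216) (.ev (nat_lit 468) (nat_lit 8589934592) (.ev (nat_lit 1364) (nat_lit 2048) (.ev (nat_lit
 1572) (nat_lit 68719476736) (.ev (nat_lit 1668) (nat_lit 64) (.ev (nat_lit 2724) (nat_lit 17592186044416) (.ev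
 (nat_lit 3040) (nat_lit 633318966034464) .dd))))))))) (.ch (nat_lit 53) (.ev (nat_lit 52) (nat_lit
 4582833469263968) (.ev (nat_lit 1364) (nat_lit 16) (.ev (nat_lit 1748) (nat_lit 562949953421312) (.ev (nat_lit
 2448) (nat_lit 19937238255616) .dd))))))))) (.br (nat_lit 64) (.br (nat_lit 57) (.br (nat_lit 55) (.ch
 (nat_lit 54) (.ev (nat_lit 52) (nat_lit 79233841954816) (.ev (nat_lit 244) (nat_lit 137438953472) (.ev
 (nat_lit 628) (nat_lit 8589934592) (.ev (nat_lit 916) (nat_lit 17592186044416) (.ev (nat_lit 1920) (nat_lit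
 5068748604053616) .dd)))))) (.ch (nat_lit 55) (.ev (nat_lit 52) (nat_lit 653316065398816) (.ev (nat_lit 212)
 (nat_lit 8589934592) (.ev (nat_lit 1844) (nat_lit 268435456) (.ev (nat_lit 3188) (nat_lit 2048) (.nd (nat_lit
 3424) (.br (nat_lit 11) (.br (nat_lit 4) (.br (nat_lit 3) (.ch (nat_lit 1) (.ev (nat_lit 3440) (nat_lit
 4512395720392784) (.ev (nat_lit 3453) (nat_lit 16777216) .dd))) (.ch (nat_lit 3) (.ev (nat_lit 3440) (nat_lit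
 16777296) (.ev (nat_lit 3508) (nat_lit 8796093022208) (.ev (nat_lit 3517) (nat_lit 4503599627370496) .dd)))))
 (.br (nat_lit 9) (.ch (nat_lit 4) (.ev (nat_lit 3440) (nat_lit 4512395737170000) .dd)) (.ch (nat_lit 9) (.ev
 (nat_lit 3440) (nat_lit 4512395720392704) (.ev (nat_lit 3696) (nat_lit 16777280) (.ev (nat_lit 3709) (nat_lit
 16) .dd)))))) (.br (nat_lit 15) (.br (nat_lit 12) (.ch (nat_lit 11) (.ev (nat_lit 3440) (nat_lit
 4512395737169984) (.ev (nat_lit 3453) (nat_lit 16) .dd))) (.ch (nat_lit 12) (.ev (nat_lit 3440) (nat_lit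
 4503599644147776) (.ev (nat_lit 3508) (nat_lit 16) (.ev (nat_lit 3517) (nat_lit 8796093022208) .dd))))) (.br
 (nat_lit 16) (.ch (nat_lit 15) (.ev (nat_lit 3440) (nat_lit 4512395737169984) (.ev (nat_lit 3453) (nat_lit 16)
 .dd))) (.br (nat_lit 18) (.ch (nat_lit 16) (.ev (nat_lit 3440) (nat_lit 4503599627370576) (.ev (nat_lit 3520)
 (nat_lit 16777216) (.ev (nat_lit 3533) (nat_lit 8796093022208) .dd)))) (.ch (nat_lit 18) (.ev (nat_lit 3440)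
 (nat_lit 4512395737170000) .dd))))))))))))) (.br (nat_lit 58) (.ch (nat_lit 57) (.ev (nat_lit 52) (nat_lit
 68736321648) (.ev (nat_lit 660) (nat_lit 137438953472) (.ev (nat_lit 692) (nat_lit 268435456) (.ev (nat_lit
 1140) (nat_lit 8589934592) (.ev (nat_lit 1364) (nat_lit 8796093022208) (.ev (nat_lit 2244) (nat_lit
 17592186044416) (.ev (nat_lit 2916) (nat_lit 4096) (.ev (nat_lit 3280) (nat_lit 562949953421312) (.nd (nat_lit
 3424) (.br (nat_lit 9) (.br (nat_lit 4) (.br (nat_lit 3) (.ch (nat_lit 1) (.ev (nat_lit 3440) (nat_lit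
 4573968371548160) (.ev (nat_lit 3453) (nat_lit 2199023255552) .dd))) (.ch (nat_lit 3) (.ev (nat_lit 3440)
 (nat_lit 4573968371548160) (.ev (nat_lit 3453) (nat_lit 2199023255552) .dd)))) (.br (nat_lit 8) (.ch (nat_lit
 4) (.ev (nat_lit 3440) (nat_lit 4573968371548160) (.ev (nat_lit 3453) (nat_lit 2199023255552) .dd))) (.ch
 (nat_lit 8) (.ev (nat_lit 3440) (nat_lit 72567767433216) (.ev (nat_lit 3453) (nat_lit 4503599627370496)
 .dd))))) (.br (nat_lit 17) (.br (nat_lit 12) (.ch (nat_lit 9) (.ev (nat_lit 3440) (nat_lit 4576167394803712)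
 .dd)) (.ch (nat_lit 12) (.ev (nat_lit 3440) (nat_lit 4576167394803712) .dd))) (.br (nat_lit 22) (.ch (nat_lit
 17) (.ev (nat_lit 3440) (nat_lit 4576167394803712) .dd)) (.br (nat_lit 29) (.ch (nat_lit 22) (.ev (nat_lit
 3440) (nat_lit 4576167394803712) .dd)) (.ch (nat_lit 29) (.ev (nat_lit 3440) (nat_lit 4505798650626048) (.ev
 (nat_lit 3453) (nat_lit 70368744177664) .dd))))))))))))))))) (.br (nat_lit 62) (.ch (nat_lit 58) (.ev (nat_lit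
 52) (nat_lit 81364128956496) (.ev (nat_lit 436) (nat_lit 16777216) (.ev (nat_lit 660) (nat_lit 8589934592)
 (.ev (nat_lit 1780) (nat_lit 32) (.ev (nat_lit 1876) (nat_lit 17592186044416) (.ev (nat_lit 3296) (nat_lit
 562949953421312) (.nd (nat_lit 3424) (.br (nat_lit 12) (.br (nat_lit 4) (.br (nat_lit 2) (.ch (nat_lit 1) (.ev
 (nat_lit 3440) (nat_lit 4503805785802752) (.ev (nat_lit 3453) (nat_lit 4096) .dd))) (.ch (nat_lit 2) (.ev
 (nat_lit 3440) (nat_lit 206158432256) (.ev (nat_lit 3508) (nat_lit 4096) (.ev (nat_lit 3517) (nat_lit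
 4503599627370496) .dd))))) (.br (nat_lit 6) (.ch (nat_lit 4) (.ev (nat_lit 3440) (nat_lit 4503805785804800)
 (.ev (nat_lit 3453) (nat_lit 2048) .dd))) (.ch (nat_lit 6) (.ev (nat_lit 3440) (nat_lit 4503805785806848)
 .dd)))) (.br (nat_lit 18) (.br (nat_lit 15) (.ch (nat_lit 12) (.ev (nat_lit 3440) (nat_lit 4503599627376640)
 (.fin (nat_lit 576461302061810235)))) (.ch (nat_lit 15) (.ev (nat_lit 3440) (nat_lit 4503805785800704) (.ev
 (nat_lit 3508) (nat_lit 2048) (.ev (nat_lit 3517) (nat_lit 4096) .dd))))) (.br (nat_lit 20) (.ch (nat_lit 18)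
 (.ev (nat_lit 3440) (nat_lit 206158434304) (.ev (nat_lit 3456) (nat_lit 4503599627370496) (.ev (nat_lit 3469)
 (nat_lit 2048) .dd)))) (.br (nat_lit 22) (.ch (nat_lit 20) (.ev (nat_lit 3440) (nat_lit 4503805785806848)
 .dd)) (.ch (nat_lit 22) (.ev (nat_lit 3440) (nat_lit 4503805785806848) .dd)))))))))))))) (.ch (nat_lit 62)
 (.ev (nat_lit 52) (nat_lit 582887191613440) (.ev (nat_lit 532) (nat_lit 68719476736) (.ev (nat_lit 1024)
 (nat_lit 4582764749850736) .dd))))))) (.br (nat_lit 68) (.br (nat_lit 65) (.ch (nat_lit 64) (.ev (nat_lit 52)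
 (nat_lit 4574105827348576) (.ev (nat_lit 116) (nat_lit 8589934592) (.ev (nat_lit 436) (nat_lit 68719476736)
 (.ev (nat_lit 1476) (nat_lit 8796093022208) (.ev (nat_lit 2020) (nat_lit 17592186044416) (.ev (nat_lit 2276)
 (nat_lit 562949953421312) (.ev (nat_lit 2468) (nat_lit 2048) (.ev (nat_lit 3104) (nat_lit 2199291691024)
 .dd))))))))) (.br (nat_lit 67) (.ch (nat_lit 65) (.ev (nat_lit 52) (nat_lit 4582764481415216) (.ev (nat_lit
 276) (nat_lit 8589934592) (.ev (nat_lit 756) (nat_lit 268435456) (.ev (nat_lit 2256) (nat_lit 582947321155648)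
 .dd))))) (.ch (nat_lit 67) (.ev (nat_lit 52) (nat_lit 642329807427648) (.ev (nat_lit 596) (nat_lit 16777216)
 (.ev (nat_lit 2468) (nat_lit 2199023255552) (.ev (nat_lit 2964) (nat_lit 17592186044416) (.nd (nat_lit 3424)
 (.br (nat_lit 15) (.br (nat_lit 6) (.br (nat_lit 4) (.ch (nat_lit 1) (.ev (nat_lit 3440) (nat_lit
 4503599627436080) .dd)) (.ch (nat_lit 4) (.ev (nat_lit 3440) (nat_lit 4503599627436080) .dd))) (.br (nat_lit
 7) (.ch (nat_lit 6) (.ev (nat_lit 3440) (nat_lit 4503599627436032) (.ev (nat_lit 3508) (nat_lit 16) (.ev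
 (nat_lit 3517) (nat_lit 32) .dd)))) (.br (nat_lit 8) (.ch (nat_lit 7) (.ev (nat_lit 3440) (nat_lit
 4503599627370512) (.ev (nat_lit 3508) (nat_lit 32) (.ev (nat_lit 3517) (nat_lit 65536) .dd)))) (.ch (nat_lit
 8) (.ev (nat_lit 3440) (nat_lit 65584) (.ev (nat_lit 3453) (nat_lit 4503599627370496) .dd)))))) (.br (nat_lit
 19) (.br (nat_lit 17) (.ch (nat_lit 15) (.ev (nat_lit 3440) (nat_lit 65552) (.ev (nat_lit 3508) (nat_lit 32)
 (.ev (nat_lit 3517) (nat_lit 4503599627370496) .dd)))) (.br (nat_lit 18) (.ch (nat_lit 17) (.ev (nat_lit 3440)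
 (nat_lit 4503599627436080) .dd)) (.ch (nat_lit 18) (.ev (nat_lit 3440) (nat_lit 65584) (.ev (nat_lit 3453)
 (nat_lit 4503599627370496) .dd))))) (.br (nat_lit 20) (.ch (nat_lit 19) (.ev (nat_lit 3440) (nat_lit
 4503599627370544) (.ev (nat_lit 3453) (nat_lit 65536) .dd))) (.br (nat_lit 22) (.ch (nat_lit 20) (.ev (nat_lit
 3440) (nat_lit 4503599627436048) (.ev (nat_lit 3453) (nat_lit 32) .dd))) (.ch (nat_lit 22) (.ev (nat_lit 3440)
 (nat_lit 4503599627370544) (.ev (nat_lit 3453) (nat_lit 65536) .dd))))))))))))))) (.br (nat_lit 69) (.ch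
 (nat_lit 68) (.ev (nat_lit 52) (nat_lit 4576304850536464) (.ev (nat_lit 724) (nat_lit 17592186044416) (.ev
 (nat_lit 1108) (nat_lit 562949953421312) (.ev (nat_lit 1508) (nat_lit 268435456) (.nd (nat_lit 3424) (.br
 (nat_lit 15) (.br (nat_lit 11) (.br (nat_lit 6) (.ch (nat_lit 4) (.ev (nat_lit 3440) (nat_lit 8864812568672)
 (.ev (nat_lit 3453) (nat_lit 8589934592) .dd))) (.br (nat_lit 8) (.ch (nat_lit 6) (.ev (nat_lit 3440) (nat_lit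
 8864812568640) (.ev (nat_lit 3456) (nat_lit 32) (.ev (nat_lit 3469) (nat_lit 8589934592) .dd)))) (.ch (nat_lit
 8) (.ev (nat_lit 3440) (nat_lit 77309481024) (.ev (nat_lit 3508) (nat_lit 8796093022208) (.ev (nat_lit 3517)
 (nat_lit 32) .dd)))))) (.br (nat_lit 12) (.ch (nat_lit 11) (.ev (nat_lit 3440) (nat_lit 8864812503072) (.ev
 (nat_lit 3508) (nat_lit 65536) (.ev (nat_lit 3668) (nat_lit 8589934592) (.ev (nat_lit 3677) (nat_lit 64)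
 .dd))))) (.br (nat_lit 13) (.ch (nat_lit 12) (.ev (nat_lit 3440) (nat_lit 8804683026528) (.ev (nat_lit 3453)
 (nat_lit 68719476736) .dd))) (.ch (nat_lit 13) (.ev (nat_lit 3440) (nat_lit 8804682960928) (.ev (nat_lit 3668)
 (nat_lit 68719542272) (.ev (nat_lit 3677) (nat_lit 64) .dd))))))) (.br (nat_lit 19) (.br (nat_lit 16) (.ch
 (nat_lit 15) (.ev (nat_lit 3440) (nat_lit 8873402499136) (.ev (nat_lit 3456) (nat_lit 32) (.ev (nat_lit 3469)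
 (nat_lit 4096) .dd)))) (.br (nat_lit 17) (.ch (nat_lit 16) (.ev (nat_lit 3440) (nat_lit 77309481056) (.ev
 (nat_lit 3453) (nat_lit 8796093022208) .dd))) (.ch (nat_lit 17) (.ev (nat_lit 3440) (nat_lit 77309481056) (.ev
 (nat_lit 3453) (nat_lit 8796093022208) .dd))))) (.br (nat_lit 22) (.br (nat_lit 20) (.ch (nat_lit 19) (.ev
 (nat_lit 3440) (nat_lit 8590004320) (.ev (nat_lit 3456) (nat_lit 8796093022208) (.ev (nat_lit 3469) (nat_lit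
 68719476736) .dd)))) (.ch (nat_lit 20) (.ev (nat_lit 3440) (nat_lit 8873402437632) (.ev (nat_lit 3508)
 (nat_lit 64) (.ev (nat_lit 3520) (nat_lit 32) (.ev (nat_lit 3533) (nat_lit 65536) .dd)))))) (.br (nat_lit 29)
 (.ch (nat_lit 22) (.ev (nat_lit 3440) (nat_lit 8873402503264) .dd)) (.ch (nat_lit 29) (.ev (nat_lit 3440)
 (nat_lit 8873402499168) (.ev (nat_lit 3453) (nat_lit 4096) .dd))))))))))))) (.br (nat_lit 70) (.ch (nat_lit
 69) (.ev (nat_lit 52) (nat_lit 633318966036592) (.ev (nat_lit 340) (nat_lit 16777216) (.ev (nat_lit 596)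
 (nat_lit 68719476736) (.ev (nat_lit 1540) (nat_lit 4096) (.ev (nat_lit 1780) (nat_lit 4503599627370496) (.ev
 (nat_lit 2592) (nat_lit 28733331275776) .dd))))))) (.ch (nat_lit 70) (.ev (nat_lit 52) (nat_lit
 88038508138560) (.ev (nat_lit 436) (nat_lit 137438953472) (.ev (nat_lit 660) (nat_lit 16777216) (.ev (nat_lit
 1364) (nat_lit 4503599627370496) (.ev (nat_lit 2212) (nat_lit 562949953421312) (.ev (nat_lit 2832) (nat_lit
 10995116279856) .dd)))))))))))))))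

/-- Subtrie. -/
noncomputable def T19 : Tr := (.ev (nat_lit 20) (nat_lit 423312513665104) (.nd (nat_lit 33) (.br (nat_lit 39)
 (.br (nat_lit 19) (.br (nat_lit 8) (.br (nat_lit 4) (.br (nat_lit 3) (.ch (nat_lit 1) (.ev (nat_lit 52)
 (nat_lit 4509028482945056) (.ev (nat_lit 384) (nat_lit 1787816986281472) .dd))) (.ch (nat_lit 3) (.ev (nat_lit
 52) (nat_lit 4523390859875840) (.ev (nat_lit 756) (nat_lit 137438953472) (.ev (nat_lit 1108) (nat_lit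
 562949953421312) (.ev (nat_lit 1636) (nat_lit 1125899906842624) (.ev (nat_lit 1908) (nat_lit 8589934592) (.ev
 (nat_lit 2276) (nat_lit 67108864) (.ev (nat_lit 2676) (nat_lit 274877906944) (.nd (nat_lit 3424) (.br (nat_lit
 18) (.br (nat_lit 14) (.br (nat_lit 10) (.ch (nat_lit 4) (.ev (nat_lit 3440) (nat_lit 79717008932864) (.ev
 (nat_lit 3456) (nat_lit 262144) (.ev (nat_lit 3508) (nat_lit 4466765987840) (.ev (nat_lit 3517) (nat_lit 32)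
 .dd))))) (.ch (nat_lit 10) (.ev (nat_lit 3440) (nat_lit 83631871885344) (.ev (nat_lit 3508) (nat_lit
 549755813888) (.ev (nat_lit 3517) (nat_lit 2147483648) .dd))))) (.br (nat_lit 17) (.ch (nat_lit 14) (.ev
 (nat_lit 3440) (nat_lit 5016522063904) (.ev (nat_lit 3616) (nat_lit 8796093022208) (.ev (nat_lit 3668)
 (nat_lit 268435456) (.fin (nat_lit 576484391832207935)))))) (.ch (nat_lit 17) (.ev (nat_lit 3440) (nat_lit
 620891471872) (.ev (nat_lit 3456) (nat_lit 4398046511104) (.ev (nat_lit 3568) (nat_lit 8796093022208) (.ev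
 (nat_lit 3600) (nat_lit 70368744177664) (.ev (nat_lit 3613) (nat_lit 32) .dd)))))))) (.br (nat_lit 21) (.br
 (nat_lit 20) (.ch (nat_lit 18) (.ev (nat_lit 3440) (nat_lit 4469182169120) (.ev (nat_lit 3668) (nat_lit
 70918499991552) (.ev (nat_lit 3677) (nat_lit 8796093022208) .dd)))) (.ch (nat_lit 20) (.ev (nat_lit 3440)
 (nat_lit 79235704422432) (.ev (nat_lit 3508) (nat_lit 549755813888) (.ev (nat_lit 3668) (nat_lit
 4398046511104) (.ev (nat_lit 3677) (nat_lit 268435456) .dd)))))) (.br (nat_lit 24) (.ch (nat_lit 21) (.ev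
 (nat_lit 3440) (nat_lit 74769206870048) (.ev (nat_lit 3508) (nat_lit 618475290624) (.ev (nat_lit 3517)
 (nat_lit 8796093022208) .dd)))) (.br (nat_lit 26) (.ch (nat_lit 24) (.ev (nat_lit 3440) (nat_lit
 79783580925984) (.ev (nat_lit 3568) (nat_lit 2147483648) (.ev (nat_lit 3680) (nat_lit 4398046773248) .dd))))
 (.ch (nat_lit 26) (.ev (nat_lit 3440) (nat_lit 84183775182880) .dd)))))))))))))))) (.br (nat_lit 5) (.ch
 (nat_lit 4) (.ev (nat_lit 52) (nat_lit 5649772115396128) (.ev (nat_lit 640) (nat_lit 647073353830400) .dd)))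
 (.br (nat_lit 7) (.ch (nat_lit 5) (.ev (nat_lit 52) (nat_lit 1143973466997760) (.ev (nat_lit 320) (nat_lit
 5152872002228768) .dd))) (.ch (nat_lit 7) (.ev (nat_lit 52) (nat_lit 6263582736253984) (.ev (nat_lit 244)
 (nat_lit 4096) (.ev (nat_lit 576) (nat_lit 33262732968448) .dd))))))) (.br (nat_lit 15) (.br (nat_lit 11) (.ch
 (nat_lit 8) (.ev (nat_lit 52) (nat_lit 4530823636456448) (.ev (nat_lit 820) (nat_lit 70368744177664) (.ev
 (nat_lit 916) (nat_lit 512) (.ev (nat_lit 1396) (nat_lit 2199023255552) (.ev (nat_lit 1540) (nat_lit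
 4398046511104) (.ev (nat_lit 1780) (nat_lit 562949953421312) (.ev (nat_lit 1908) (nat_lit 1125899906842624)
 (.ev (nat_lit 1988) (nat_lit 137438953472) (.ev (nat_lit 2084) (nat_lit 32) (.ev (nat_lit 2532) (nat_lit
 131072) (.ev (nat_lit 2541) (nat_lit 68719476736) .dd)))))))))))) (.br (nat_lit 12) (.ch (nat_lit 11) (.ev
 (nat_lit 52) (nat_lit 574709859352576) (.ev (nat_lit 1204) (nat_lit 32) (.ev (nat_lit 1636) (nat_lit 4194304)
 (.ev (nat_lit 2580) (nat_lit 4398046511104) (.nd (nat_lit 3424) (.br (nat_lit 15) (.br (nat_lit 12) (.br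
 (nat_lit 7) (.ch (nat_lit 4) (.ev (nat_lit 3440) (nat_lit 5717737559036416) (.ev (nat_lit 3680) (nat_lit 1024)
 (.ev (nat_lit 3693) (nat_lit 131072) .dd)))) (.br (nat_lit 10) (.ch (nat_lit 7) (.ev (nat_lit 3440) (nat_lit
 5699870495216128) (.ev (nat_lit 3520) (nat_lit 274877906944) (.ev (nat_lit 3536) (nat_lit 1024) (.ev (nat_lit
 3549) (nat_lit 17592186044416) .dd))))) (.ch (nat_lit 10) (.ev (nat_lit 3440) (nat_lit 5699870493119488) (.ev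
 (nat_lit 3508) (nat_lit 2097152) (.ev (nat_lit 3732) (nat_lit 17592186044928) (.ev (nat_lit 3741) (nat_lit
 274877906944) .dd))))))) (.br (nat_lit 13) (.ch (nat_lit 12) (.ev (nat_lit 3440) (nat_lit 4591562707310080)
 (.ev (nat_lit 3456) (nat_lit 1125899906842624) (.ev (nat_lit 3584) (nat_lit 274877906944) (.ev (nat_lit 3597)
 (nat_lit 67108864) .dd))))) (.br (nat_lit 14) (.ch (nat_lit 13) (.ev (nat_lit 3440) (nat_lit 4591837585217024)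
 (.ev (nat_lit 3508) (nat_lit 67108864) (.ev (nat_lit 3517) (nat_lit 1125899906842624) .dd)))) (.ch (nat_lit
 14) (.ev (nat_lit 3440) (nat_lit 5647366667503104) (.ev (nat_lit 3680) (nat_lit 4096) (.fin (nat_lit
 576484391832207935)))))))) (.br (nat_lit 19) (.br (nat_lit 17) (.ch (nat_lit 15) (.ev (nat_lit 3440) (nat_lit
 5717737557070848) (.ev (nat_lit 3508) (nat_lit 512) (.ev (nat_lit 3517) (nat_lit 2097152) .dd)))) (.br
 (nat_lit 18) (.ch (nat_lit 17) (.ev (nat_lit 3440) (nat_lit 4503874505408512) (.ev (nat_lit 3508) (nat_lit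
 2214594048) (.ev (nat_lit 3520) (nat_lit 70368744177664) (.ev (nat_lit 3668) (nat_lit 1143492092887040) (.nd
 (nat_lit 3776) (.br (nat_lit 12) (.ch (nat_lit 5) (.fin (nat_lit 576456904004813368))) (.ch (nat_lit 12) (.ev
 (nat_lit 3792) (nat_lit 2101248) .dd))))))))) (.ch (nat_lit 18) (.ev (nat_lit 3440) (nat_lit 4521468908148224)
 (.ev (nat_lit 3508) (nat_lit 1125899906842624) (.ev (nat_lit 3517) (nat_lit 70368744177664) .dd)))))) (.br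
 (nat_lit 22) (.br (nat_lit 20) (.ch (nat_lit 19) (.ev (nat_lit 3440) (nat_lit 1214137931665920) (.ev (nat_lit
 3456) (nat_lit 1024) (.ev (nat_lit 3508) (nat_lit 4503599627370496) (.ev (nat_lit 3517) (nat_lit 131072)
 .dd))))) (.ch (nat_lit 20) (.ev (nat_lit 3440) (nat_lit 5717737559168512) .dd))) (.br (nat_lit 24) (.ch
 (nat_lit 22) (.ev (nat_lit 3440) (nat_lit 1214135784310272) (.ev (nat_lit 3508) (nat_lit 2147483648) (.ev
 (nat_lit 3584) (nat_lit 4503599627370496) (.ev (nat_lit 3597) (nat_lit 4096) .dd))))) (.ch (nat_lit 24) (.ev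
 (nat_lit 3440) (nat_lit 1214137931798016) (.ev (nat_lit 3453) (nat_lit 4503599627370496) .dd))))))))))))) (.ch
 (nat_lit 12) (.ev (nat_lit 52) (nat_lit 4521194296836640) (.ev (nat_lit 372) (nat_lit 4096) (.ev (nat_lit 916)
 (nat_lit 4194304) (.ev (nat_lit 948) (nat_lit 4398046511104) (.ev (nat_lit 1044) (nat_lit 16777216) (.ev
 (nat_lit 1076) (nat_lit 137438953472) (.ev (nat_lit 1396) (nat_lit 274877906944) (.ev (nat_lit 2084) (nat_lit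
 2097152) (.ev (nat_lit 2276) (nat_lit 549755813888) (.ev (nat_lit 2468) (nat_lit 562949953421312) (.ev
 (nat_lit 2724) (nat_lit 2199023255552) (.ev (nat_lit 2788) (nat_lit 1024) (.nd (nat_lit 3424) (.br (nat_lit
 16) (.br (nat_lit 10) (.br (nat_lit 8) (.ch (nat_lit 3) (.ev (nat_lit 3440) (nat_lit 79242146611200) (.ev
 (nat_lit 3453) (nat_lit 1125899906842624) .dd))) (.ch (nat_lit 8) (.ev (nat_lit 3440) (nat_lit
 1134704589799424) (.ev (nat_lit 3536) (nat_lit 70368744177664) (.ev (nat_lit 3549) (nat_lit 68719476736)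
 .dd))))) (.br (nat_lit 13) (.ch (nat_lit 10) (.ev (nat_lit 3440) (nat_lit 1196337370497024) (.ev (nat_lit
 3508) (nat_lit 8796093022208) (.ev (nat_lit 3517) (nat_lit 8589934592) .dd)))) (.br (nat_lit 15) (.ch (nat_lit
 13) (.ev (nat_lit 3440) (nat_lit 1205073333977088) (.ev (nat_lit 3453) (nat_lit 68719476736) .dd))) (.ch
 (nat_lit 15) (.ev (nat_lit 3440) (nat_lit 1205073333977088) (.ev (nat_lit 3453) (nat_lit 68719476736)
 .dd)))))) (.br (nat_lit 18) (.br (nat_lit 17) (.ch (nat_lit 16) (.ev (nat_lit 3440) (nat_lit 1205142053453824)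
 .dd)) (.ch (nat_lit 17) (.ev (nat_lit 3440) (nat_lit 1205142053453824) .dd))) (.br (nat_lit 22) (.ch (nat_lit
 18) (.ev (nat_lit 3440) (nat_lit 1134773309276160) (.ev (nat_lit 3453) (nat_lit 70368744177664) .dd))) (.br
 (nat_lit 26) (.ch (nat_lit 22) (.ev (nat_lit 3440) (nat_lit 79242146611200) (.ev (nat_lit 3453) (nat_lit
 1125899906842624) .dd))) (.ch (nat_lit 26) (.ev (nat_lit 3440) (nat_lit 1205142053453824)
 .dd)))))))))))))))))))))) (.br (nat_lit 16) (.ch (nat_lit 15) (.ev (nat_lit 52) (nat_lit 81432668406304) (.ev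
 (nat_lit 1428) (nat_lit 4398046511104) (.ev (nat_lit 1844) (nat_lit 268435456) (.nd (nat_lit 3424) (.br
 (nat_lit 15) (.br (nat_lit 10) (.br (nat_lit 5) (.ch (nat_lit 3) (.ev (nat_lit 3440) (nat_lit
 1707412711019520) (.ev (nat_lit 3508) (nat_lit 4503599627370496) (.ev (nat_lit 3517) (nat_lit 2147483648)
 .dd)))) (.br (nat_lit 8) (.ch (nat_lit 5) (.ev (nat_lit 3440) (nat_lit 6193420152345600) (.ev (nat_lit 3508)
 (nat_lit 2147483648) (.ev (nat_lit 3517) (nat_lit 17592186044416) .dd)))) (.ch (nat_lit 8) (.ev (nat_lit 3440)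
 (nat_lit 6210731015933952) (.ev (nat_lit 3508) (nat_lit 2097152) (.ev (nat_lit 3732) (nat_lit 274877907968)
 (.ev (nat_lit 3741) (nat_lit 8589934592) .dd))))))) (.br (nat_lit 12) (.ch (nat_lit 10) (.ev (nat_lit 3440)
 (nat_lit 6211014483775488) (.ev (nat_lit 3508) (nat_lit 1024) (.ev (nat_lit 3517) (nat_lit 2097152) .dd))))
 (.br (nat_lit 13) (.ch (nat_lit 12) (.ev (nat_lit 3440) (nat_lit 6211014485873664) .dd)) (.ch (nat_lit 13)
 (.ev (nat_lit 3440) (nat_lit 5084831111189504) (.ev (nat_lit 3520) (nat_lit 8589934592) (.ev (nat_lit 3536)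
 (nat_lit 1125899906842624) (.ev (nat_lit 3549) (nat_lit 274877906944) .dd)))))))) (.br (nat_lit 19) (.br
 (nat_lit 17) (.ch (nat_lit 15) (.ev (nat_lit 3440) (nat_lit 1707404121084928) (.ev (nat_lit 3456) (nat_lit
 2147483648) (.ev (nat_lit 3584) (nat_lit 8589934592) (.ev (nat_lit 3597) (nat_lit 4503599627370496) .dd)))))
 (.br (nat_lit 18) (.ch (nat_lit 17) (.ev (nat_lit 3440) (nat_lit 563508299169792) (.ev (nat_lit 3508) (nat_lit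
 5629636973167616) (.ev (nat_lit 3520) (nat_lit 17592186044416) (.ev (nat_lit 3668) (nat_lit 277025390592) (.nd
 (nat_lit 3776) (.br (nat_lit 14) (.ch (nat_lit 5) (.fin (nat_lit 576456904004813368))) (.ch (nat_lit 14) (.ev
 (nat_lit 3792) (nat_lit 2101248) .dd))))))))) (.ch (nat_lit 18) (.ev (nat_lit 3440) (nat_lit 5084564823217152)
 (.ev (nat_lit 3680) (nat_lit 1125899906842624) (.ev (nat_lit 3693) (nat_lit 549755813888) .dd)))))) (.br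
 (nat_lit 24) (.br (nat_lit 22) (.ch (nat_lit 19) (.ev (nat_lit 3440) (nat_lit 5647927093494784) (.ev (nat_lit
 3508) (nat_lit 137438953472) (.ev (nat_lit 3584) (nat_lit 562949953421312) (.ev (nat_lit 3597) (nat_lit 4096)
 .dd))))) (.ch (nat_lit 22) (.ev (nat_lit 3440) (nat_lit 6193284860871680) (.ev (nat_lit 3680) (nat_lit 4096)
 (.fin (nat_lit 576458003521683994)))))) (.br (nat_lit 26) (.ch (nat_lit 24) (.ev (nat_lit 3440) (nat_lit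
 4521614869795840) (.ev (nat_lit 3456) (nat_lit 1125899906842624) (.ev (nat_lit 3508) (nat_lit 562949953421312)
 (.ev (nat_lit 3517) (nat_lit 549755813888) .dd))))) (.ch (nat_lit 26) (.ev (nat_lit 3440) (nat_lit
 5648064532452352) (.ev (nat_lit 3453) (nat_lit 562949953421312) .dd)))))))))))) (.br (nat_lit 18) (.ch
 (nat_lit 16) (.ev (nat_lit 52) (nat_lit 6201383026295840) (.ev (nat_lit 416) (nat_lit 95462442930688) .dd)))
 (.ch (nat_lit 18) (.ev (nat_lit 52) (nat_lit 5726746538151936) (.ev (nat_lit 692) (nat_lit 131072) (.ev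
 (nat_lit 1120) (nat_lit 570098930943520) .dd)))))))) (.br (nat_lit 29) (.br (nat_lit 23) (.br (nat_lit 22)
 (.ch (nat_lit 19) (.ev (nat_lit 52) (nat_lit 592362160390144) (.ev (nat_lit 692) (nat_lit 70368744177664) (.ev
 (nat_lit 788) (nat_lit 68719476736) (.ev (nat_lit 2244) (nat_lit 512) (.ev (nat_lit 3312) (nat_lit
 137438953472) (.nd (nat_lit 3424) (.br (nat_lit 13) (.br (nat_lit 7) (.br (nat_lit 5) (.ch (nat_lit 3) (.ev
 (nat_lit 3440) (nat_lit 1130308774662176) (.ev (nat_lit 3696) (nat_lit 1024) (.fin (nat_lit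
 576438212333355550))))) (.ch (nat_lit 5) (.ev (nat_lit 3440) (nat_lit 5629510338745376) (.ev (nat_lit 3456)
 (nat_lit 16777216) (.ev (nat_lit 3508) (nat_lit 4194304) (.ev (nat_lit 3517) (nat_lit 4398046511104) .dd))))))
 (.br (nat_lit 8) (.ch (nat_lit 7) (.ev (nat_lit 3440) (nat_lit 5633908406228000) .dd)) (.br (nat_lit 10) (.ch
 (nat_lit 8) (.ev (nat_lit 3440) (nat_lit 5633899749184544) (.ev (nat_lit 3600) (nat_lit 67108864) (.ev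
 (nat_lit 3613) (nat_lit 8589934592) .dd)))) (.ch (nat_lit 10) (.ev (nat_lit 3440) (nat_lit 5633906191634464)
 (.ev (nat_lit 3568) (nat_lit 1024) (.ev (nat_lit 3668) (nat_lit 67108864) (.ev (nat_lit 3677) (nat_lit
 2147483648) .dd)))))))) (.br (nat_lit 21) (.br (nat_lit 14) (.ch (nat_lit 13) (.ev (nat_lit 3440) (nat_lit
 4507999909446656) (.ev (nat_lit 3520) (nat_lit 1125899906842624) (.ev (nat_lit 3648) (nat_lit 4096) (.ev
 (nat_lit 3668) (nat_lit 32) (.ev (nat_lit 3677) (nat_lit 8589934592) .dd)))))) (.br (nat_lit 18) (.ch (nat_lit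
 14) (.ev (nat_lit 3440) (nat_lit 1130306627179552) (.ev (nat_lit 3508) (nat_lit 2151677952) (.ev (nat_lit
 3517) (nat_lit 4503599627370496) .dd)))) (.ch (nat_lit 18) (.ev (nat_lit 3440) (nat_lit 5633908406223872)
 (.fin (nat_lit 576461302072295996)))))) (.br (nat_lit 24) (.ch (nat_lit 21) (.ev (nat_lit 3440) (nat_lit
 5633908389445664) (.ev (nat_lit 3668) (nat_lit 1024) (.ev (nat_lit 3696) (nat_lit 16781312) .dd)))) (.br
 (nat_lit 26) (.ch (nat_lit 24) (.ev (nat_lit 3440) (nat_lit 5633906254550048) (.ev (nat_lit 3508) (nat_lit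
 4194304) (.ev (nat_lit 3517) (nat_lit 2147483648) .dd)))) (.ch (nat_lit 26) (.ev (nat_lit 3440) (nat_lit
 5633908322340896) (.ev (nat_lit 3508) (nat_lit 16777216) (.ev (nat_lit 3520) (nat_lit 67108864) (.ev (nat_lit
 3533) (nat_lit 1024) .dd)))))))))))))))) (.ch (nat_lit 22) (.ev (nat_lit 52) (nat_lit 1713728475103744) (.ev
 (nat_lit 116) (nat_lit 4096) (.ev (nat_lit 724) (nat_lit 68719476736) (.ev (nat_lit 820) (nat_lit 268435456)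
 (.ev (nat_lit 916) (nat_lit 4503599627370496) (.ev (nat_lit 948) (nat_lit 70368744177664) (.ev (nat_lit 980)
 (nat_lit 4194304) (.ev (nat_lit 1236) (nat_lit 8796093022208) (.ev (nat_lit 1508) (nat_lit 1024) (.ev (nat_lit
 1876) (nat_lit 274877906944) (.ev (nat_lit 3028) (nat_lit 8589934592) (.nd (nat_lit 3424) (.br (nat_lit 16)
 (.br (nat_lit 7) (.br (nat_lit 4) (.ch (nat_lit 3) (.ev (nat_lit 3440) (nat_lit 69337088) (.ev (nat_lit 3536)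
 (nat_lit 32) (.ev (nat_lit 3549) (nat_lit 262144) .dd)))) (.ch (nat_lit 4) (.ev (nat_lit 3440) (nat_lit
 69206048) (.ev (nat_lit 3508) (nat_lit 262144) (.ev (nat_lit 3517) (nat_lit 131072) .dd))))) (.br (nat_lit 15)
 (.ch (nat_lit 7) (.ev (nat_lit 3440) (nat_lit 69599264) .dd)) (.ch (nat_lit 15) (.ev (nat_lit 3440) (nat_lit
 69599264) .dd)))) (.br (nat_lit 20) (.br (nat_lit 17) (.ch (nat_lit 16) (.ev (nat_lit 3440) (nat_lit 67502112)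
 (.ev (nat_lit 3453) (nat_lit 2097152) .dd))) (.ch (nat_lit 17) (.ev (nat_lit 3440) (nat_lit 69468160) (.ev
 (nat_lit 3668) (nat_lit 131072) (.ev (nat_lit 3677) (nat_lit 32) .dd))))) (.br (nat_lit 21) (.ch (nat_lit 20)
 (.ev (nat_lit 3440) (nat_lit 69337120) (.ev (nat_lit 3453) (nat_lit 262144) .dd))) (.br (nat_lit 26) (.ch
 (nat_lit 21) (.ev (nat_lit 3440) (nat_lit 69468192) (.ev (nat_lit 3453) (nat_lit 131072) .dd))) (.ch (nat_lit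
 26) (.ev (nat_lit 3440) (nat_lit 2228256) (.ev (nat_lit 3668) (nat_lit 262144) (.ev (nat_lit 3677) (nat_lit
 67108864) .dd)))))))))))))))))))))) (.br (nat_lit 24) (.ch (nat_lit 23) (.ev (nat_lit 52) (nat_lit
 5645038726025728) (.ev (nat_lit 256) (nat_lit 651806743200800) .dd))) (.br (nat_lit 26) (.ch (nat_lit 24) (.ev
 (nat_lit 52) (nat_lit 1229331309266464) (.ev (nat_lit 340) (nat_lit 4096) (.ev (nat_lit 724) (nat_lit
 4503599627370496) (.ev (nat_lit 756) (nat_lit 131072) (.ev (nat_lit 1108) (nat_lit 549755813888) (.ev (nat_lit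
 1268) (nat_lit 268435456) (.ev (nat_lit 2180) (nat_lit 4194304) (.ev (nat_lit 2436) (nat_lit 16777216) (.ev
 (nat_lit 2644) (nat_lit 2097152) (.ev (nat_lit 3344) (nat_lit 274877906944) (.nd (nat_lit 3424) (.br (nat_lit
 16) (.br (nat_lit 13) (.br (nat_lit 8) (.ch (nat_lit 4) (.ev (nat_lit 3440) (nat_lit 562952168013824) (.ev
 (nat_lit 3456) (nat_lit 137438953472) (.ev (nat_lit 3469) (nat_lit 262144) .dd)))) (.ch (nat_lit 8) (.ev
 (nat_lit 3440) (nat_lit 139586699264) (.ev (nat_lit 3456) (nat_lit 562949953421312) (.ev (nat_lit 3469)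
 (nat_lit 67108864) .dd))))) (.br (nat_lit 14) (.ch (nat_lit 13) (.ev (nat_lit 3440) (nat_lit 563089607229440)
 .dd)) (.ch (nat_lit 14) (.ev (nat_lit 3440) (nat_lit 562950020792320) (.ev (nat_lit 3680) (nat_lit
 137438953472) (.ev (nat_lit 3693) (nat_lit 2147483648) .dd)))))) (.br (nat_lit 20) (.br (nat_lit 19) (.ch
 (nat_lit 16) (.ev (nat_lit 3440) (nat_lit 563087459745792) (.ev (nat_lit 3453) (nat_lit 2147483648) .dd)))
 (.ch (nat_lit 19) (.ev (nat_lit 3440) (nat_lit 2214592512) (.ev (nat_lit 3508) (nat_lit 262144) (.ev (nat_lit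
 3520) (nat_lit 137438953472) (.ev (nat_lit 3533) (nat_lit 562949953421312) .dd)))))) (.br (nat_lit 22) (.ch
 (nat_lit 20) (.ev (nat_lit 3440) (nat_lit 139653808128) (.ev (nat_lit 3453) (nat_lit 562949953421312) .dd)))
 (.br (nat_lit 26) (.ch (nat_lit 22) (.ev (nat_lit 3440) (nat_lit 563089540120576) (.ev (nat_lit 3453) (nat_lit
 67108864) .dd))) (.ch (nat_lit 26) (.ev (nat_lit 3440) (nat_lit 563089540120576) (.ev (nat_lit 3453) (nat_lit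
 67108864) .dd))))))))))))))))))) (.ch (nat_lit 26) (.ev (nat_lit 52) (nat_lit 5071095808262144) (.ev (nat_lit
 128) (nat_lit 1225749660964384) .dd)))))) (.br (nat_lit 34) (.br (nat_lit 31) (.ch (nat_lit 29) (.ev (nat_lit
 52) (nat_lit 4592179389661184) (.ev (nat_lit 192) (nat_lit 1704666079565344) .dd))) (.br (nat_lit 33) (.ch
 (nat_lit 31) (.ev (nat_lit 52) (nat_lit 1205891527606816) (.ev (nat_lit 352) (nat_lit 5090953941619712) .dd)))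
 (.ch (nat_lit 33) (.ev (nat_lit 52) (nat_lit 5097688446013472) (.ev (nat_lit 724) (nat_lit 2199023255552) (.ev
 (nat_lit 1700) (nat_lit 2097152) (.ev (nat_lit 1844) (nat_lit 137438953472) (.ev (nat_lit 2244) (nat_lit
 4194304) (.ev (nat_lit 2340) (nat_lit 1125899906842624) (.ev (nat_lit 2532) (nat_lit 70368744177664) (.ev
 (nat_lit 2612) (nat_lit 549755813888) (.nd (nat_lit 3424) (.br (nat_lit 15) (.br (nat_lit 8) (.br (nat_lit 5)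
 (.ch (nat_lit 3) (.ev (nat_lit 3440) (nat_lit 2147615744) (.ev (nat_lit 3508) (nat_lit 262144) (.ev (nat_lit
 3517) (nat_lit 512) .dd)))) (.ch (nat_lit 5) (.ev (nat_lit 3440) (nat_lit 131584) (.ev (nat_lit 3508) (nat_lit
 262144) (.ev (nat_lit 3600) (nat_lit 2147483648) (.ev (nat_lit 3613) (nat_lit 1024) .dd)))))) (.br (nat_lit
 13) (.ch (nat_lit 8) (.ev (nat_lit 3440) (nat_lit 2147877888) (.ev (nat_lit 3453) (nat_lit 512) .dd))) (.br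
 (nat_lit 14) (.ch (nat_lit 13) (.ev (nat_lit 3440) (nat_lit 2147878400) .dd)) (.ch (nat_lit 14) (.ev (nat_lit
 3440) (nat_lit 2147878400) .dd))))) (.br (nat_lit 18) (.br (nat_lit 16) (.ch (nat_lit 15) (.ev (nat_lit 3440)
 (nat_lit 394240) (.ev (nat_lit 3668) (nat_lit 512) (.ev (nat_lit 3677) (nat_lit 2147483648) .dd)))) (.br
 (nat_lit 17) (.ch (nat_lit 16) (.ev (nat_lit 3440) (nat_lit 2147878400) .dd)) (.ch (nat_lit 17) (.ev (nat_lit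
 3440) (nat_lit 2147746816) (.ev (nat_lit 3508) (nat_lit 512) (.ev (nat_lit 3517) (nat_lit 131072) .dd))))))
 (.br (nat_lit 22) (.ch (nat_lit 18) (.ev (nat_lit 3440) (nat_lit 2147616256) (.ev (nat_lit 3453) (nat_lit
 262144) .dd))) (.br (nat_lit 24) (.ch (nat_lit 22) (.ev (nat_lit 3440) (nat_lit 394752) (.ev (nat_lit 3453)
 (nat_lit 2147483648) .dd))) (.ch (nat_lit 24) (.ev (nat_lit 3440) (nat_lit 2147616256) (.ev (nat_lit 3453)
 (nat_lit 262144) .dd))))))))))))))))))) (.br (nat_lit 36) (.ch (nat_lit 34) (.ev (nat_lit 52) (nat_lit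
 4503608571855872) (.ev (nat_lit 96) (nat_lit 1793236897370656) .dd))) (.br (nat_lit 38) (.ch (nat_lit 36) (.ev
 (nat_lit 52) (nat_lit 1763825028175360) (.ev (nat_lit 544) (nat_lit 4533020441051168) .dd))) (.ch (nat_lit 38)
 (.ev (nat_lit 52) (nat_lit 15747833135616) (.ev (nat_lit 224) (nat_lit 6281097636090912) .dd)))))))) (.br
 (nat_lit 54) (.br (nat_lit 47) (.br (nat_lit 43) (.br (nat_lit 42) (.ch (nat_lit 39) (.ev (nat_lit 52)
 (nat_lit 4535427503490592) (.ev (nat_lit 500) (nat_lit 4096) (.ev (nat_lit 1552) (nat_lit 1761417965731840)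
 .dd)))) (.ch (nat_lit 42) (.ev (nat_lit 52) (nat_lit 103354114245664) (.ev (nat_lit 160) (nat_lit
 6193491354980864) .dd)))) (.br (nat_lit 44) (.ch (nat_lit 43) (.ev (nat_lit 52) (nat_lit 5073157726016512)
 (.ev (nat_lit 916) (nat_lit 1125899906842624) (.ev (nat_lit 2308) (nat_lit 70368744177664) (.ev (nat_lit 2404)
 (nat_lit 549755813888) (.ev (nat_lit 2580) (nat_lit 137438953472) (.ev (nat_lit 2996) (nat_lit 512) (.ev
 (nat_lit 3028) (nat_lit 68719476736) (.nd (nat_lit 3424) (.br (nat_lit 16) (.br (nat_lit 12) (.br (nat_lit 8)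
 (.ch (nat_lit 3) (.ev (nat_lit 3440) (nat_lit 17867068145696) (.ev (nat_lit 3584) (nat_lit 16777216) (.ev
 (nat_lit 3597) (nat_lit 8796093022208) .dd)))) (.ch (nat_lit 8) (.ev (nat_lit 3440) (nat_lit 26388300038144)
 (.ev (nat_lit 3616) (nat_lit 32) (.ev (nat_lit 3629) (nat_lit 274877906944) .dd))))) (.br (nat_lit 13) (.ch
 (nat_lit 12) (.ev (nat_lit 3440) (nat_lit 9070975123488) (.ev (nat_lit 3508) (nat_lit 17592186044416) (.ev
 (nat_lit 3517) (nat_lit 16777216) .dd)))) (.ch (nat_lit 13) (.ev (nat_lit 3440) (nat_lit 26388300038144) (.ev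
 (nat_lit 3508) (nat_lit 274877906944) (.ev (nat_lit 3517) (nat_lit 32) .dd)))))) (.br (nat_lit 20) (.br
 (nat_lit 17) (.ch (nat_lit 16) (.ev (nat_lit 3440) (nat_lit 9070991900672) (.ev (nat_lit 3552) (nat_lit
 17592186044416) (.ev (nat_lit 3565) (nat_lit 32) .dd)))) (.ch (nat_lit 17) (.ev (nat_lit 3440) (nat_lit
 17592190238720) (.ev (nat_lit 3536) (nat_lit 8796093022208) (.ev (nat_lit 3552) (nat_lit 16777216) (.ev
 (nat_lit 3668) (nat_lit 32) (.ev (nat_lit 3677) (nat_lit 274877906944) .dd))))))) (.br (nat_lit 22) (.ch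
 (nat_lit 20) (.ev (nat_lit 3440) (nat_lit 26663173750816) (.ev (nat_lit 3453) (nat_lit 4194304) .dd))) (.br
 (nat_lit 26) (.ch (nat_lit 22) (.ev (nat_lit 3440) (nat_lit 26663177945120) .dd)) (.ch (nat_lit 26) (.ev
 (nat_lit 3440) (nat_lit 26663161167904) (.ev (nat_lit 3453) (nat_lit 16777216) .dd)))))))))))))))) (.br
 (nat_lit 46) (.ch (nat_lit 44) (.ev (nat_lit 52) (nat_lit 580817103749120) (.ev (nat_lit 756) (nat_lit 1024)
 (.ev (nat_lit 1396) (nat_lit 4503599627370496) (.ev (nat_lit 1540) (nat_lit 268435456) (.ev (nat_lit 2084)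
 (nat_lit 8796093022208) (.ev (nat_lit 2180) (nat_lit 2199023255552) (.ev (nat_lit 3376) (nat_lit 549755813888)
 (.nd (nat_lit 3424) (.br (nat_lit 15) (.br (nat_lit 12) (.br (nat_lit 8) (.ch (nat_lit 4) (.ev (nat_lit 3440)
 (nat_lit 74975100801056) (.ev (nat_lit 3508) (nat_lit 8589935104) (.ev (nat_lit 3517) (nat_lit
 1125899906842624) .dd)))) (.ch (nat_lit 8) (.ev (nat_lit 3440) (nat_lit 1200875007643680) (.ev (nat_lit 3508)
 (nat_lit 512) (.ev (nat_lit 3517) (nat_lit 8589934592) .dd))))) (.br (nat_lit 13) (.ch (nat_lit 12) (.ev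
 (nat_lit 3440) (nat_lit 70585644224544) (.ev (nat_lit 3696) (nat_lit 4398046511104) (.fin (nat_lit
 576488789876621899))))) (.br (nat_lit 14) (.ch (nat_lit 13) (.ev (nat_lit 3440) (nat_lit 1196348112110112)
 (.ev (nat_lit 3668) (nat_lit 4398046511104) (.ev (nat_lit 3696) (nat_lit 137438957568) .dd)))) (.ch (nat_lit
 14) (.ev (nat_lit 3440) (nat_lit 1130446133924384) (.ev (nat_lit 3600) (nat_lit 68719476736) (.ev (nat_lit
 3613) (nat_lit 70368744177664) .dd))))))) (.br (nat_lit 19) (.br (nat_lit 16) (.ch (nat_lit 15) (.ev (nat_lit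
 3440) (nat_lit 1196279392637472) (.ev (nat_lit 3508) (nat_lit 137438953472) (.ev (nat_lit 3520) (nat_lit
 68719476736) (.ev (nat_lit 3533) (nat_lit 4398046511104) .dd))))) (.br (nat_lit 18) (.ch (nat_lit 16) (.ev
 (nat_lit 3440) (nat_lit 1130512705913344) (.ev (nat_lit 3520) (nat_lit 2147483648) (.ev (nat_lit 3648)
 (nat_lit 4096) (.ev (nat_lit 3668) (nat_lit 32) (.ev (nat_lit 3677) (nat_lit 70368744177664) .dd)))))) (.ch
 (nat_lit 18) (.ev (nat_lit 3440) (nat_lit 1200883597574656) (.fin (nat_lit 576461302072295996)))))) (.br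
 (nat_lit 21) (.ch (nat_lit 19) (.ev (nat_lit 3440) (nat_lit 1200746154430496) (.ev (nat_lit 3456) (nat_lit
 137438953472) (.ev (nat_lit 3508) (nat_lit 512) (.ev (nat_lit 3517) (nat_lit 4194304) .dd))))) (.br (nat_lit
 26) (.ch (nat_lit 21) (.ev (nat_lit 3440) (nat_lit 1196408241656352) (.ev (nat_lit 3568) (nat_lit
 4398046511104) (.ev (nat_lit 3668) (nat_lit 68719476736) (.ev (nat_lit 3677) (nat_lit 8589934592) .dd)))))
 (.ch (nat_lit 26) (.ev (nat_lit 3440) (nat_lit 1200883597578784) .dd))))))))))))))) (.ch (nat_lit 46) (.ev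
 (nat_lit 52) (nat_lit 95109922296832) (.ev (nat_lit 788) (nat_lit 4194304) (.ev (nat_lit 980) (nat_lit
 8589934592) (.ev (nat_lit 1636) (nat_lit 274877906944) (.ev (nat_lit 1668) (nat_lit 1125899906842624) (.ev
 (nat_lit 2020) (nat_lit 512) (.ev (nat_lit 2212) (nat_lit 562949953421312) (.ev (nat_lit 2436) (nat_lit
 67108864) (.ev (nat_lit 2676) (nat_lit 68719476736) (.ev (nat_lit 2820) (nat_lit 32) (.ev (nat_lit 3156)
 (nat_lit 268435456) (.nd (nat_lit 3424) (.br (nat_lit 13) (.br (nat_lit 8) (.br (nat_lit 7) (.ch (nat_lit 4)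
 (.ev (nat_lit 3440) (nat_lit 4503599627632640) (.ev (nat_lit 3508) (nat_lit 137438953472) (.ev (nat_lit 3517)
 (nat_lit 8796093022208) .dd)))) (.ch (nat_lit 7) (.ev (nat_lit 3440) (nat_lit 4512533159608320) .dd))) (.br
 (nat_lit 10) (.ch (nat_lit 8) (.ev (nat_lit 3440) (nat_lit 4512533159608320) .dd)) (.br (nat_lit 12) (.ch
 (nat_lit 10) (.ev (nat_lit 3440) (nat_lit 4503737066586112) (.ev (nat_lit 3453) (nat_lit 8796093022208) .dd)))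
 (.ch (nat_lit 12) (.ev (nat_lit 3440) (nat_lit 4512533159346176) (.ev (nat_lit 3453) (nat_lit 262144)
 .dd)))))) (.br (nat_lit 18) (.br (nat_lit 14) (.ch (nat_lit 13) (.ev (nat_lit 3440) (nat_lit 4512533159608320)
 .dd)) (.br (nat_lit 17) (.ch (nat_lit 14) (.ev (nat_lit 3440) (nat_lit 4512395720654848) (.ev (nat_lit 3453)
 (nat_lit 137438953472) .dd))) (.ch (nat_lit 17) (.ev (nat_lit 3440) (nat_lit 8796093284352) (.ev (nat_lit
 3508) (nat_lit 4503599627370496) (.ev (nat_lit 3517) (nat_lit 137438953472) .dd)))))) (.br (nat_lit 19) (.ch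
 (nat_lit 18) (.ev (nat_lit 3440) (nat_lit 4512533159346176) (.ev (nat_lit 3453) (nat_lit 262144) .dd))) (.br
 (nat_lit 21) (.ch (nat_lit 19) (.ev (nat_lit 3440) (nat_lit 4512395720392704) (.ev (nat_lit 3508) (nat_lit
 137438953472) (.ev (nat_lit 3517) (nat_lit 262144) .dd)))) (.ch (nat_lit 21) (.ev (nat_lit 3440) (nat_lit
 4503737066586112) (.ev (nat_lit 3453) (nat_lit 8796093022208) .dd))))))))))))))))))))))) (.br (nat_lit 50)
 (.br (nat_lit 48) (.ch (nat_lit 47) (.ev (nat_lit 52) (nat_lit 1198882161693184) (.ev (nat_lit 820) (nat_lit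
 131072) (.ev (nat_lit 1428) (nat_lit 17592186044416) (.ev (nat_lit 1508) (nat_lit 268435456) (.ev (nat_lit
 2308) (nat_lit 1024) (.ev (nat_lit 2820) (nat_lit 8796093022208) (.nd (nat_lit 3424) (.br (nat_lit 16) (.br
 (nat_lit 10) (.br (nat_lit 4) (.ch (nat_lit 3) (.ev (nat_lit 3440) (nat_lit 4508624806477856) (.ev (nat_lit
 3453) (nat_lit 562949953421312) .dd))) (.ch (nat_lit 4) (.ev (nat_lit 3440) (nat_lit 5071566169964576) (.ev
 (nat_lit 3453) (nat_lit 8589934592) .dd)))) (.br (nat_lit 15) (.ch (nat_lit 10) (.ev (nat_lit 3440) (nat_lit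
 5071566169964576) (.ev (nat_lit 3453) (nat_lit 8589934592) .dd))) (.ch (nat_lit 15) (.ev (nat_lit 3440)
 (nat_lit 5071506040422432) (.ev (nat_lit 3453) (nat_lit 68719476736) .dd))))) (.br (nat_lit 18) (.br (nat_lit
 17) (.ch (nat_lit 16) (.ev (nat_lit 3440) (nat_lit 5067176713388064) (.ev (nat_lit 3453) (nat_lit
 4398046511104) .dd))) (.ch (nat_lit 17) (.ev (nat_lit 3440) (nat_lit 563027263094784) (.ev (nat_lit 3456)
 (nat_lit 4503599627370496) (.ev (nat_lit 3508) (nat_lit 32) (.ev (nat_lit 3536) (nat_lit 4398046511104) (.fin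
 (nat_lit 576461302055518783)))))))) (.br (nat_lit 19) (.ch (nat_lit 18) (.ev (nat_lit 3440) (nat_lit
 4508624806215712) (.ev (nat_lit 3520) (nat_lit 562949953421312) (.ev (nat_lit 3533) (nat_lit 262144) .dd))))
 (.br (nat_lit 26) (.ch (nat_lit 19) (.ev (nat_lit 3440) (nat_lit 567975132266528) (.ev (nat_lit 3508) (nat_lit
 262144) (.ev (nat_lit 3517) (nat_lit 4503599627370496) .dd)))) (.ch (nat_lit 26) (.ev (nat_lit 3440) (nat_lit
 4508624806477856) (.ev (nat_lit 3453) (nat_lit 562949953421312) .dd))))))))))))))) (.br (nat_lit 49) (.ch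
 (nat_lit 48) (.ev (nat_lit 52) (nat_lit 5090818566389792) (.ev (nat_lit 84) (nat_lit 4096) (.ev (nat_lit 1332)
 (nat_lit 512) (.ev (nat_lit 1844) (nat_lit 70368744177664) (.ev (nat_lit 1876) (nat_lit 1125899906842624) (.nd
 (nat_lit 3424) (.br (nat_lit 17) (.br (nat_lit 13) (.br (nat_lit 4) (.ch (nat_lit 3) (.ev (nat_lit 3440)
 (nat_lit 9758251810816) (.ev (nat_lit 3453) (nat_lit 1024) .dd))) (.ch (nat_lit 4) (.ev (nat_lit 3440)
 (nat_lit 9620812858368) (.ev (nat_lit 3453) (nat_lit 137438953472) .dd)))) (.br (nat_lit 15) (.ch (nat_lit 13)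
 (.ev (nat_lit 3440) (nat_lit 9483373904896) (.ev (nat_lit 3453) (nat_lit 274877906944) .dd))) (.ch (nat_lit
 15) (.ev (nat_lit 3440) (nat_lit 9758251680768) (.ev (nat_lit 3453) (nat_lit 131072) .dd))))) (.br (nat_lit
 20) (.br (nat_lit 19) (.ch (nat_lit 17) (.ev (nat_lit 3440) (nat_lit 412318958592) (.ev (nat_lit 3456)
 (nat_lit 16777216) (.ev (nat_lit 3508) (nat_lit 8796093022208) (.ev (nat_lit 3536) (nat_lit 131072) (.fin
 (nat_lit 576461302055518783))))))) (.ch (nat_lit 19) (.ev (nat_lit 3440) (nat_lit 9620810761216) (.ev (nat_lit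
 3520) (nat_lit 137438953472) (.ev (nat_lit 3533) (nat_lit 2097152) .dd))))) (.br (nat_lit 21) (.ch (nat_lit
 20) (.ev (nat_lit 3440) (nat_lit 9620812858368) (.ev (nat_lit 3453) (nat_lit 137438953472) .dd))) (.br
 (nat_lit 22) (.ch (nat_lit 21) (.ev (nat_lit 3440) (nat_lit 9758232937472) (.ev (nat_lit 3508) (nat_lit
 2097152) (.ev (nat_lit 3517) (nat_lit 16777216) .dd)))) (.ch (nat_lit 22) (.ev (nat_lit 3440) (nat_lit
 9758251810816) (.ev (nat_lit 3453) (nat_lit 1024) .dd)))))))))))))) (.ch (nat_lit 49) (.ev (nat_lit 52)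
 (nat_lit 1760180962334240) (.ev (nat_lit 756) (nat_lit 4398046511104) (.ev (nat_lit 852) (nat_lit 2097152)
 (.ev (nat_lit 1268) (nat_lit 2147483648) (.ev (nat_lit 1364) (nat_lit 67108864) (.ev (nat_lit 1508) (nat_lit
 131072) (.ev (nat_lit 2916) (nat_lit 17592186044416) (.nd (nat_lit 3424) (.br (nat_lit 17) (.br (nat_lit 5)
 (.br (nat_lit 4) (.ch (nat_lit 3) (.ev (nat_lit 3440) (nat_lit 11003706212352) (.ev (nat_lit 3668) (nat_lit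
 68719738880) (.fin (nat_lit 576438212333355550))))) (.ch (nat_lit 4) (.ev (nat_lit 3440) (nat_lit
 4503599631826944) (.ev (nat_lit 3472) (nat_lit 8589934592) (.ev (nat_lit 3508) (nat_lit 8864812498944) (.ev
 (nat_lit 3517) (nat_lit 2199023255552) .dd)))))) (.br (nat_lit 16) (.ch (nat_lit 5) (.ev (nat_lit 3440)
 (nat_lit 4514672053059584) (.ev (nat_lit 3568) (nat_lit 262144) (.ev (nat_lit 3581) (nat_lit 4194304) .dd))))
 (.ch (nat_lit 16) (.ev (nat_lit 3440) (nat_lit 8873406889984) (.ev (nat_lit 3568) (nat_lit 4505798650626048)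
 .dd))))) (.br (nat_lit 20) (.br (nat_lit 19) (.ch (nat_lit 17) (.ev (nat_lit 3440) (nat_lit 2276337123328)
 (.ev (nat_lit 3668) (nat_lit 8796093022208) (.ev (nat_lit 3677) (nat_lit 4503599627370496) .dd)))) (.ch
 (nat_lit 19) (.ev (nat_lit 3440) (nat_lit 4514672057516032) .dd))) (.br (nat_lit 21) (.ch (nat_lit 20) (.ev
 (nat_lit 3440) (nat_lit 4514672053059584) (.ev (nat_lit 3508) (nat_lit 4194304) (.ev (nat_lit 3517) (nat_lit
 262144) .dd)))) (.br (nat_lit 26) (.ch (nat_lit 21) (.ev (nat_lit 3440) (nat_lit 4514672057516032) .dd)) (.ch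
 (nat_lit 26) (.ev (nat_lit 3440) (nat_lit 4512473033998336) (.ev (nat_lit 3668) (nat_lit 262144) (.ev (nat_lit
 3677) (nat_lit 2199023255552) .dd))))))))))))))))))) (.br (nat_lit 51) (.ch (nat_lit 50) (.ev (nat_lit 52)
 (nat_lit 4603107646509568) (.ev (nat_lit 608) (nat_lit 1693737822716960) .dd))) (.br (nat_lit 53) (.ch
 (nat_lit 51) (.ev (nat_lit 52) (nat_lit 4519679991223296) (.ev (nat_lit 288) (nat_lit 1777165478003232) .dd)))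
 (.ch (nat_lit 53) (.ev (nat_lit 52) (nat_lit 4582835683989024) (.ev (nat_lit 788) (nat_lit 1125899906842624)
 (.ev (nat_lit 820) (nat_lit 137438953472) (.ev (nat_lit 1396) (nat_lit 8589934592) (.ev (nat_lit 1636)
 (nat_lit 2199023255552) (.ev (nat_lit 1668) (nat_lit 274877906944) (.ev (nat_lit 1748) (nat_lit 549755813888)
 (.nd (nat_lit 3424) (.br (nat_lit 15) (.br (nat_lit 10) (.br (nat_lit 7) (.ch (nat_lit 5) (.ev (nat_lit 3440)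
 (nat_lit 584940188073984) (.ev (nat_lit 3616) (nat_lit 4194304) (.ev (nat_lit 3629) (nat_lit 262144) .dd))))
 (.ch (nat_lit 7) (.ev (nat_lit 3440) (nat_lit 584940192530432) .dd))) (.br (nat_lit 12) (.ch (nat_lit 10) (.ev
 (nat_lit 3440) (nat_lit 567348004388864) (.ev (nat_lit 3508) (nat_lit 2097152) (.ev (nat_lit 3517) (nat_lit
 17592186044416) .dd)))) (.ch (nat_lit 12) (.ev (nat_lit 3440) (nat_lit 567348006486016) (.ev (nat_lit 3453)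
 (nat_lit 17592186044416) .dd))))) (.br (nat_lit 20) (.br (nat_lit 19) (.ch (nat_lit 15) (.ev (nat_lit 3440)
 (nat_lit 584940186238976) (.ev (nat_lit 3552) (nat_lit 2097152) (.ev (nat_lit 3565) (nat_lit 4194304) .dd))))
 (.ch (nat_lit 19) (.ev (nat_lit 3440) (nat_lit 584940188073984) (.ev (nat_lit 3508) (nat_lit 262144) (.ev
 (nat_lit 3517) (nat_lit 4194304) .dd))))) (.br (nat_lit 22) (.ch (nat_lit 20) (.ev (nat_lit 3440) (nat_lit
 21990239109120) (.ev (nat_lit 3453) (nat_lit 562949953421312) .dd))) (.br (nat_lit 24) (.ch (nat_lit 22) (.ev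
 (nat_lit 3440) (nat_lit 562949959974912) (.ev (nat_lit 3584) (nat_lit 17592186044416) (.ev (nat_lit 3597)
 (nat_lit 4398046511104) .dd)))) (.ch (nat_lit 24) (.ev (nat_lit 3440) (nat_lit 562949955518464) (.ev (nat_lit
 3536) (nat_lit 4398046511104) (.ev (nat_lit 3552) (nat_lit 17592186044416) (.ev (nat_lit 3668) (nat_lit
 4194304) (.ev (nat_lit 3677) (nat_lit 262144) .dd))))))))))))))))))))))) (.br (nat_lit 64) (.br (nat_lit 57)
 (.br (nat_lit 55) (.ch (nat_lit 54) (.ev (nat_lit 52) (nat_lit 1205410780545536) (.ev (nat_lit 660) (nat_lit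
 4096) (.ev (nat_lit 852) (nat_lit 32) (.ev (nat_lit 980) (nat_lit 2199023255552) (.ev (nat_lit 1108) (nat_lit
 67108864) (.ev (nat_lit 1236) (nat_lit 262144) (.ev (nat_lit 1268) (nat_lit 4398046512128) (.ev (nat_lit 1668)
 (nat_lit 8589934592) (.ev (nat_lit 1716) (nat_lit 4503599627370496) (.ev (nat_lit 2612) (nat_lit
 562949953421312) (.ev (nat_lit 2756) (nat_lit 17592186044416) (.ev (nat_lit 2916) (nat_lit 137438953472) (.ev
 (nat_lit 2925) (nat_lit 549755813888) .dd)))))))))))))) (.ch (nat_lit 55) (.ev (nat_lit 52) (nat_lit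
 653316132443680) (.ev (nat_lit 692) (nat_lit 2147483648) (.ev (nat_lit 852) (nat_lit 262144) (.ev (nat_lit
 1300) (nat_lit 268435456) (.ev (nat_lit 1540) (nat_lit 131072) (.ev (nat_lit 1636) (nat_lit 8589934592) (.ev
 (nat_lit 2020) (nat_lit 274877906944) (.ev (nat_lit 2148) (nat_lit 2097152) (.ev (nat_lit 2996) (nat_lit
 4194304) (.nd (nat_lit 3424) (.br (nat_lit 14) (.br (nat_lit 7) (.br (nat_lit 4) (.ch (nat_lit 3) (.ev
 (nat_lit 3440) (nat_lit 1130847725944832) (.ev (nat_lit 3584) (nat_lit 8796093022208) (.ev (nat_lit 3597)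
 (nat_lit 4503599627370496) .dd)))) (.br (nat_lit 5) (.ch (nat_lit 4) (.ev (nat_lit 3440) (nat_lit
 5643243446337536) .dd)) (.ch (nat_lit 5) (.ev (nat_lit 3440) (nat_lit 4512945476206592) (.ev (nat_lit 3508)
 (nat_lit 1125899923619840) (.ev (nat_lit 3517) (nat_lit 4398046511104) .dd)))))) (.br (nat_lit 8) (.ch
 (nat_lit 7) (.ev (nat_lit 3440) (nat_lit 4504149383184384) (.ev (nat_lit 3508) (nat_lit 4398046511104) (.ev
 (nat_lit 3520) (nat_lit 1125899906842624) (.ev (nat_lit 3668) (nat_lit 16777216) (.ev (nat_lit 3677) (nat_lit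
 8796093022208) .dd)))))) (.br (nat_lit 13) (.ch (nat_lit 8) (.ev (nat_lit 3440) (nat_lit 5643243446337536)
 .dd)) (.ch (nat_lit 13) (.ev (nat_lit 3440) (nat_lit 5638845399826432) (.ev (nat_lit 3453) (nat_lit
 4398046511104) .dd)))))) (.br (nat_lit 20) (.br (nat_lit 15) (.ch (nat_lit 14) (.ev (nat_lit 3440) (nat_lit
 5642693690523648) (.ev (nat_lit 3453) (nat_lit 549755813888) .dd))) (.br (nat_lit 16) (.ch (nat_lit 15) (.ev
 (nat_lit 3440) (nat_lit 1139643818967040) (.ev (nat_lit 3453) (nat_lit 4503599627370496) .dd))) (.ch (nat_lit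
 16) (.ev (nat_lit 3440) (nat_lit 5638845399826432) (.ev (nat_lit 3453) (nat_lit 4398046511104) .dd))))) (.br
 (nat_lit 24) (.br (nat_lit 21) (.ch (nat_lit 20) (.ev (nat_lit 3440) (nat_lit 5642693690523648) (.ev (nat_lit
 3453) (nat_lit 549755813888) .dd))) (.ch (nat_lit 21) (.ev (nat_lit 3440) (nat_lit 4508547446472704) (.ev
 (nat_lit 3732) (nat_lit 8796093022208) (.ev (nat_lit 3741) (nat_lit 1125899906842624) .dd))))) (.br (nat_lit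
 26) (.ch (nat_lit 24) (.ev (nat_lit 3440) (nat_lit 1139643802189824) (.ev (nat_lit 3668) (nat_lit 16777216)
 (.ev (nat_lit 3677) (nat_lit 4503599627370496) .dd)))) (.ch (nat_lit 26) (.ev (nat_lit 3440) (nat_lit
 1139643802189824) (.ev (nat_lit 3456) (nat_lit 16777216) (.ev (nat_lit 3469) (nat_lit 4503599627370496)
 .dd)))))))))))))))))))) (.br (nat_lit 58) (.ch (nat_lit 57) (.ev (nat_lit 52) (nat_lit 1131191329620512) (.ev
 (nat_lit 436) (nat_lit 4096) (.ev (nat_lit 916) (nat_lit 2199023255552) (.ev (nat_lit 1332) (nat_lit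
 8589934592) (.ev (nat_lit 1476) (nat_lit 562949953421312) (.ev (nat_lit 2340) (nat_lit 4503599627370496) (.ev
 (nat_lit 2404) (nat_lit 67108864) (.ev (nat_lit 2580) (nat_lit 2147483648) (.ev (nat_lit 2788) (nat_lit
 70368744177664) (.nd (nat_lit 3424) (.br (nat_lit 18) (.br (nat_lit 13) (.br (nat_lit 10) (.ch (nat_lit 4)
 (.ev (nat_lit 3440) (nat_lit 26388547633152) (.ev (nat_lit 3668) (nat_lit 137438954496) (.ev (nat_lit 3677)
 (nat_lit 262144) .dd)))) (.ch (nat_lit 10) (.ev (nat_lit 3440) (nat_lit 26525718413312) (.ev (nat_lit 3508)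
 (nat_lit 268435456) (.ev (nat_lit 3517) (nat_lit 1024) .dd))))) (.br (nat_lit 14) (.ch (nat_lit 13) (.ev
 (nat_lit 3440) (nat_lit 17592454874112) (.ev (nat_lit 3600) (nat_lit 8796093022208) (.ev (nat_lit 3613)
 (nat_lit 137438953472) .dd)))) (.br (nat_lit 17) (.ch (nat_lit 14) (.ev (nat_lit 3440) (nat_lit 137707783168)
 (.ev (nat_lit 3584) (nat_lit 8796093022208) (.ev (nat_lit 3597) (nat_lit 17592186044416) .dd)))) (.ch (nat_lit
 17) (.ev (nat_lit 3440) (nat_lit 26525986849792) .dd))))) (.br (nat_lit 20) (.br (nat_lit 19) (.ch (nat_lit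
 18) (.ev (nat_lit 3440) (nat_lit 17729625392128) (.ev (nat_lit 3508) (nat_lit 268435456) (.ev (nat_lit 3517)
 (nat_lit 8796093022208) .dd)))) (.ch (nat_lit 19) (.ev (nat_lit 3440) (nat_lit 26388547896320) (.ev (nat_lit
 3453) (nat_lit 137438953472) .dd)))) (.br (nat_lit 21) (.ch (nat_lit 20) (.ev (nat_lit 3440) (nat_lit
 26525718283264) (.ev (nat_lit 3668) (nat_lit 131072) (.ev (nat_lit 3677) (nat_lit 268435456) .dd)))) (.br
 (nat_lit 22) (.ch (nat_lit 21) (.ev (nat_lit 3440) (nat_lit 17729893696512) (.ev (nat_lit 3508) (nat_lit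
 131072) (.ev (nat_lit 3517) (nat_lit 8796093022208) .dd)))) (.ch (nat_lit 22) (.ev (nat_lit 3440) (nat_lit
 8796361851904) (.fin (nat_lit 576458003521683994))))))))))))))))))) (.br (nat_lit 62) (.ch (nat_lit 58) (.ev
 (nat_lit 52) (nat_lit 1207813791809536) (.ev (nat_lit 64) (nat_lit 5089031677416992) .dd))) (.ch (nat_lit 62)
 (.ev (nat_lit 52) (nat_lit 587285309822464) (.ev (nat_lit 724) (nat_lit 274877906944) (.ev (nat_lit 756)
 (nat_lit 70368744177664) (.ev (nat_lit 1076) (nat_lit 2415919104) (.ev (nat_lit 1108) (nat_lit 16777216) (.ev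
 (nat_lit 2180) (nat_lit 4503599627370496) (.ev (nat_lit 2724) (nat_lit 1125899906842624) (.nd (nat_lit 3424)
 (.br (nat_lit 15) (.br (nat_lit 12) (.br (nat_lit 7) (.ch (nat_lit 4) (.ev (nat_lit 3440) (nat_lit
 9414570409984) (.ev (nat_lit 3453) (nat_lit 32) .dd))) (.ch (nat_lit 7) (.ev (nat_lit 3440) (nat_lit
 68721573920) (.ev (nat_lit 3536) (nat_lit 8796093022208) (.ev (nat_lit 3549) (nat_lit 549755813888) .dd)))))
 (.br (nat_lit 14) (.ch (nat_lit 12) (.ev (nat_lit 3440) (nat_lit 9414570410016) .dd)) (.ch (nat_lit 14) (.ev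
 (nat_lit 3440) (nat_lit 9345850933280) (.ev (nat_lit 3453) (nat_lit 68719476736) .dd))))) (.br (nat_lit 19)
 (.br (nat_lit 18) (.ch (nat_lit 15) (.ev (nat_lit 3440) (nat_lit 9414568312864) (.ev (nat_lit 3453) (nat_lit
 2097152) .dd))) (.ch (nat_lit 18) (.ev (nat_lit 3440) (nat_lit 618475290624) (.ev (nat_lit 3508) (nat_lit
 8796093022208) (.ev (nat_lit 3520) (nat_lit 2097184) .dd))))) (.br (nat_lit 21) (.ch (nat_lit 19) (.ev
 (nat_lit 3440) (nat_lit 9414568312864) (.ev (nat_lit 3453) (nat_lit 2097152) .dd))) (.br (nat_lit 24) (.ch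
 (nat_lit 21) (.ev (nat_lit 3440) (nat_lit 32) (.ev (nat_lit 3520) (nat_lit 549755813888) (.ev (nat_lit 3668)
 (nat_lit 2097152) (.ev (nat_lit 3696) (nat_lit 8864812498944) .dd))))) (.ch (nat_lit 24) (.ev (nat_lit 3440)
 (nat_lit 9414570410016) .dd)))))))))))))))))) (.br (nat_lit 68) (.br (nat_lit 65) (.ch (nat_lit 64) (.ev
 (nat_lit 52) (nat_lit 4579055777092640) (.ev (nat_lit 724) (nat_lit 8589934592) (.ev (nat_lit 948) (nat_lit
 17592454479872) (.ev (nat_lit 980) (nat_lit 68719476736) (.ev (nat_lit 2020) (nat_lit 4194304) (.ev (nat_lit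
 2404) (nat_lit 562949953421312) (.nd (nat_lit 3424) (.br (nat_lit 19) (.br (nat_lit 10) (.ch (nat_lit 4) (.ev
 (nat_lit 3440) (nat_lit 1128373877604864) (.ev (nat_lit 3453) (nat_lit 8796093022208) .dd))) (.br (nat_lit 12)
 (.ch (nat_lit 10) (.ev (nat_lit 3440) (nat_lit 1128098999697408) (.ev (nat_lit 3508) (nat_lit 274877906944)
 (.ev (nat_lit 3536) (nat_lit 8796093022208) (.ev (nat_lit 3549) (nat_lit 512) .dd))))) (.ch (nat_lit 12) (.ev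
 (nat_lit 3440) (nat_lit 11269996675072) (.ev (nat_lit 3508) (nat_lit 67108864) (.fin (nat_lit
 576488789876621899))))))) (.br (nat_lit 22) (.br (nat_lit 21) (.ch (nat_lit 19) (.ev (nat_lit 3440) (nat_lit
 1134970947108864) (.ev (nat_lit 3668) (nat_lit 262656) (.ev (nat_lit 3677) (nat_lit 2199023255552) .dd))))
 (.ch (nat_lit 21) (.ev (nat_lit 3440) (nat_lit 2473968534016) (.ev (nat_lit 3520) (nat_lit 2097152) (.ev
 (nat_lit 3616) (nat_lit 131072) (.ev (nat_lit 3668) (nat_lit 1125899906842624) (.ev (nat_lit 3677) (nat_lit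
 8796093022208) .dd))))))) (.br (nat_lit 24) (.ch (nat_lit 22) (.ev (nat_lit 3440) (nat_lit 1137169903256064)
 (.ev (nat_lit 3456) (nat_lit 262144) (.ev (nat_lit 3469) (nat_lit 67108864) .dd)))) (.ch (nat_lit 24) (.ev
 (nat_lit 3440) (nat_lit 10995185615360) (.ev (nat_lit 3520) (nat_lit 262144) (.ev (nat_lit 3536) (nat_lit
 1125899906842624) (.ev (nat_lit 3549) (nat_lit 274877906944) .dd)))))))))))))))) (.br (nat_lit 67) (.ch
 (nat_lit 65) (.ev (nat_lit 52) (nat_lit 4587714498658336) (.ev (nat_lit 480) (nat_lit 1709130970568192) .dd)))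
 (.ch (nat_lit 67) (.ev (nat_lit 52) (nat_lit 647277609881600) (.ev (nat_lit 512) (nat_lit 5649567859344928)
 .dd))))) (.br (nat_lit 69) (.ch (nat_lit 68) (.ev (nat_lit 52) (nat_lit 4576854679749632) (.ev (nat_lit 180)
 (nat_lit 4096) (.ev (nat_lit 448) (nat_lit 1719990789472800) .dd)))) (.br (nat_lit 70) (.ch (nat_lit 69) (.ev
 (nat_lit 52) (nat_lit 1759770849837088) (.ev (nat_lit 212) (nat_lit 4096) (.ev (nat_lit 692) (nat_lit 1024)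
 (.ev (nat_lit 788) (nat_lit 2199023255552) (.ev (nat_lit 1172) (nat_lit 8796093022208) (.ev (nat_lit 1300)
 (nat_lit 17592186044416) (.ev (nat_lit 1332) (nat_lit 68719476736) (.ev (nat_lit 1636) (nat_lit 512) (.ev
 (nat_lit 2756) (nat_lit 4398046511104) (.ev (nat_lit 2788) (nat_lit 131072) (.nd (nat_lit 3424) (.br (nat_lit
 10) (.br (nat_lit 7) (.br (nat_lit 4) (.ch (nat_lit 3) (.ev (nat_lit 3440) (nat_lit 4503883095212032) (.ev
 (nat_lit 3508) (nat_lit 16777216) (.ev (nat_lit 3517) (nat_lit 137438953472) .dd)))) (.ch (nat_lit 4) (.ev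
 (nat_lit 3440) (nat_lit 4503883111989248) (.ev (nat_lit 3453) (nat_lit 137438953472) .dd)))) (.br (nat_lit 8)
 (.ch (nat_lit 7) (.ev (nat_lit 3440) (nat_lit 4503737083101184) (.ev (nat_lit 3668) (nat_lit 8589934592) (.ev
 (nat_lit 3677) (nat_lit 274877906944) .dd)))) (.ch (nat_lit 8) (.ev (nat_lit 3440) (nat_lit 4503745673035776)
 (.ev (nat_lit 3453) (nat_lit 274877906944) .dd))))) (.br (nat_lit 20) (.br (nat_lit 13) (.ch (nat_lit 10) (.ev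
 (nat_lit 3440) (nat_lit 4503737066323968) (.ev (nat_lit 3508) (nat_lit 8589934592) (.ev (nat_lit 3696)
 (nat_lit 274894684160) .dd)))) (.ch (nat_lit 13) (.ev (nat_lit 3440) (nat_lit 4503883111989248) (.ev (nat_lit
 3453) (nat_lit 137438953472) .dd)))) (.br (nat_lit 24) (.ch (nat_lit 20) (.ev (nat_lit 3440) (nat_lit
 4504020550942720) .dd)) (.br (nat_lit 26) (.ch (nat_lit 24) (.ev (nat_lit 3440) (nat_lit 283484618752) (.fin
 (nat_lit 576455804497379903)))) (.ch (nat_lit 26) (.ev (nat_lit 3440) (nat_lit 4504020534165504) (.ev (nat_lit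
 3453) (nat_lit 16777216) .dd))))))))))))))))))) (.ch (nat_lit 70) (.ev (nat_lit 52) (nat_lit 88313392664576)
 (.ev (nat_lit 980) (nat_lit 512) (.ev (nat_lit 1508) (nat_lit 2147483648) (.ev (nat_lit 1780) (nat_lit
 67108864) (.ev (nat_lit 1876) (nat_lit 2199023255552) (.ev (nat_lit 1972) (nat_lit 8796093022208) (.ev
 (nat_lit 2116) (nat_lit 16777216) (.ev (nat_lit 2468) (nat_lit 549755813888) (.ev (nat_lit 2500) (nat_lit 32)
 (.ev (nat_lit 2964) (nat_lit 1125899906842624) (.nd (nat_lit 3424) (.br (nat_lit 20) (.br (nat_lit 13) (.br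
 (nat_lit 8) (.ch (nat_lit 3) (.ev (nat_lit 3440) (nat_lit 567347999932416) (.ev (nat_lit 3508) (nat_lit 1024)
 (.ev (nat_lit 3520) (nat_lit 137438953472) (.ev (nat_lit 3533) (nat_lit 4503599627370496) .dd))))) (.ch
 (nat_lit 8) (.ev (nat_lit 3440) (nat_lit 4508135112835072) (.ev (nat_lit 3668) (nat_lit 1024) (.ev (nat_lit
 3677) (nat_lit 562949953421312) .dd))))) (.br (nat_lit 14) (.ch (nat_lit 13) (.ev (nat_lit 3440) (nat_lit
 5066549580792832) (.ev (nat_lit 3520) (nat_lit 4398046511104) (.ev (nat_lit 3533) (nat_lit 137438953472)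
 .dd)))) (.br (nat_lit 18) (.ch (nat_lit 14) (.ev (nat_lit 3440) (nat_lit 567347999933440) (.ev (nat_lit 3508)
 (nat_lit 4503599627370496) (.ev (nat_lit 3517) (nat_lit 137438953472) .dd)))) (.ch (nat_lit 18) (.ev (nat_lit
 3440) (nat_lit 5071085066257408) .dd))))) (.br (nat_lit 22) (.br (nat_lit 21) (.ch (nat_lit 20) (.ev (nat_lit
 3440) (nat_lit 5071085066257408) .dd)) (.ch (nat_lit 21) (.ev (nat_lit 3440) (nat_lit 5071085066257408) .dd)))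
 (.br (nat_lit 24) (.ch (nat_lit 22) (.ev (nat_lit 3440) (nat_lit 567485438886912) (.ev (nat_lit 3453) (nat_lit
 4503599627370496) .dd))) (.br (nat_lit 26) (.ch (nat_lit 24) (.ev (nat_lit 3440) (nat_lit 4398046512128) (.ev
 (nat_lit 3668) (nat_lit 562949953421312) (.fin (nat_lit 576455804497379903))))) (.ch (nat_lit 26) (.ev
 (nat_lit 3440) (nat_lit 4535485465600) (.ev (nat_lit 3668) (nat_lit 562949953421312) (.ev (nat_lit 3677)
 (nat_lit 4503599627370496) .dd))))))))))))))))))))))))))))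

/-- The trie. -/
noncomputable def T : Tr := .nd (nat_lit 1000000) (.br (nat_lit 9) (.br (nat_lit 5) (.br (nat_lit 3) (.br
 (nat_lit 1) (.ch (nat_lit 0) (.ev (nat_lit 0) (nat_lit 9007199254740991) .dd)) (.ch (nat_lit 1) T1)) (.br
 (nat_lit 4) (.ch (nat_lit 3) (.ev (nat_lit 0) (nat_lit 9007199254740991) .dd)) (.ch (nat_lit 4) T4))) (.br
 (nat_lit 7) (.br (nat_lit 6) (.ch (nat_lit 5) (.ev (nat_lit 0) (nat_lit 9007199254740991) .dd)) (.ch (nat_lit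
 6) T6)) (.br (nat_lit 8) (.ch (nat_lit 7) (.ev (nat_lit 0) (nat_lit 9007199254740991) .dd)) (.ch (nat_lit 8)
 T8)))) (.br (nat_lit 16) (.br (nat_lit 11) (.br (nat_lit 10) (.ch (nat_lit 9) (.ev (nat_lit 0) (nat_lit
 9007199254740991) .dd)) (.ch (nat_lit 10) (.ev (nat_lit 0) (nat_lit 9007199254740991) .dd))) (.br (nat_lit 12)
 (.ch (nat_lit 11) (.ev (nat_lit 0) (nat_lit 9007199254740991) .dd)) (.ch (nat_lit 12) (.ev (nat_lit 0)
 (nat_lit 9007199254740991) .dd)))) (.br (nat_lit 19) (.br (nat_lit 17) (.ch (nat_lit 16) (.ev (nat_lit 0)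
 (nat_lit 9007199254740991) .dd)) (.ch (nat_lit 17) (.ev (nat_lit 0) (nat_lit 9007199254740991) .dd))) (.br
 (nat_lit 30) (.ch (nat_lit 19) T19) (.ch (nat_lit 30) (.ev (nat_lit 0) (nat_lit 9007199254740991) .dd))))))

/-- The possible values. -/
noncomputable def oks : List ℕ := [52, 117, 274, 706, 2719]

/-- The parameters. -/
noncomputable def S : Pr := ⟨fun i l e => lget mz (lget [] (lget [] tabs i) l) e, oks, [(nat_lit 0), (nat_lit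
 1), (nat_lit 0), (nat_lit 0)], T, (nat_lit 9007199254740991), (nat_lit 2287041271849359), (nat_lit 53),
 [(nat_lit 1073946281), (nat_lit 87122173451996128837)], [(nat_lit 29791), (nat_lit 5041)]⟩

/-- Nothing known. -/
noncomputable def cs0 : Cs := (.cons (nat_lit 31) (nat_lit 0) (nat_lit 1) (.cons (nat_lit 71) (nat_lit 0) (nat_lit 1) .nil))

theorem part_1 : part S cs0 (nat_lit 1) = true := by decide +kernel

theorem part_4 : part S cs0 (nat_lit 4) = true := by decide +kernel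

theorem part_6 : part S cs0 (nat_lit 6) = true := by decide +kernel

theorem part_8 : part S cs0 (nat_lit 8) = true := by decide +kernel

theorem part_19 : part S cs0 (nat_lit 19) = true := by decide +kernel

/-- Data of a prime. -/
noncomputable def D0 : PD := ⟨(nat_lit 31), (nat_lit 3), (16772, 8, 13), (22384, 27737, 22381), (13159, 15341, 21428)⟩

theorem D0_ok : D0.Ok := pdb_sound (s := 3) (C := ⟨⟨11, 26, -43, -19, 34, 32, -12, -3, -1⟩, (11, 12, 19)⟩) (by show Nat.Prime 31; norm_num) (by decide +kernel)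

/-- Lines of the first type. -/
noncomputable def Cl0 : List C1 := [⟨⟨-11, -26, -32, 19, -34, 13, 12, 3, -13⟩, (22, 24, 7)⟩,
  ⟨⟨0, 0, 0, 0, 0, 0, 0, 0, 0⟩, (0, 0, 0)⟩,
  ⟨⟨0, 0, 0, 0, 0, 0, 0, 0, 0⟩, (0, 0, 0)⟩,
  ⟨⟨29, 26, -37, 21, 6, 32, 8, -11, -7⟩, (2, 10, 23)⟩,
  ⟨⟨0, 0, 0, 0, 0, 0, 0, 0, 0⟩, (0, 0, 0)⟩,
  ⟨⟨21, 6, -53, 29, 26, 8, 8, -11, -1⟩, (6, 26, 20)⟩,
  ⟨⟨0, 0, 0, 0, 0, 0, 0, 0, 0⟩, (0, 0, 0)⟩,
  ⟨⟨29, -26, -37, 21, -6, 32, 8, 11, -7⟩, (27, 11, 16)⟩,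
  ⟨⟨0, 0, 0, 0, 0, 0, 0, 0, 0⟩, (0, 0, 0)⟩,
  ⟨⟨-9, -6, -43, -41, 14, 28, 4, 13, -5⟩, (4, 1, 12)⟩,
  ⟨⟨9, -6, -52, -41, -14, 13, -4, 13, -1⟩, (29, 16, 25)⟩,
  ⟨⟨21, -6, -53, 29, -26, 8, 8, 11, -1⟩, (7, 20, 13)⟩,
  ⟨⟨9, 6, -52, -41, 14, 13, -4, -13, -1⟩, (28, 24, 22)⟩,
  ⟨⟨0, 0, 0, 0, 0, 0, 0, 0, 0⟩, (0, 0, 0)⟩,
  ⟨⟨0, 0, 0, 0, 0, 0, 0, 0, 0⟩, (0, 0, 0)⟩,
  ⟨⟨0, 0, 0, 0, 0, 0, 0, 0, 0⟩, (0, 0, 0)⟩,
  ⟨⟨11, -26, -43, -19, -34, 32, -12, 3, -1⟩, (25, 16, 15)⟩,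
  ⟨⟨-9, 6, -43, -41, -14, 28, 4, -13, -5⟩, (3, 24, 9)⟩,
  ⟨⟨0, 0, 0, 0, 0, 0, 0, 0, 0⟩, (0, 0, 0)⟩,
  ⟨⟨0, 0, 0, 0, 0, 0, 0, 0, 0⟩, (0, 0, 0)⟩,
  ⟨⟨0, 0, 0, 0, 0, 0, 0, 0, 0⟩, (0, 0, 0)⟩,
  ⟨⟨0, 0, 0, 0, 0, 0, 0, 0, 0⟩, (0, 0, 0)⟩,
  ⟨⟨0, 0, 0, 0, 0, 0, 0, 0, 0⟩, (0, 0, 0)⟩,
  ⟨⟨0, 0, 0, 0, 0, 0, 0, 0, 0⟩, (0, 0, 0)⟩,
  ⟨⟨0, 0, 0, 0, 0, 0, 0, 0, 0⟩, (0, 0, 0)⟩,
  ⟨⟨0, 0, 0, 0, 0, 0, 0, 0, 0⟩, (0, 0, 0)⟩,
  ⟨⟨0, 0, 0, 0, 0, 0, 0, 0, 0⟩, (0, 0, 0)⟩,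
  ⟨⟨0, 0, 0, 0, 0, 0, 0, 0, 0⟩, (0, 0, 0)⟩,
  ⟨⟨0, 0, 0, 0, 0, 0, 0, 0, 0⟩, (0, 0, 0)⟩,
  ⟨⟨0, 0, 0, 0, 0, 0, 0, 0, 0⟩, (0, 0, 0)⟩,
  ⟨⟨-11, 26, -32, 19, 34, 13, 12, -3, -13⟩, (28, 8, 23)⟩]

/-- Data of a prime. -/
noncomputable def D1 : PD := ⟨(nat_lit 71), (nat_lit 2), (72, 9, 33), (3977, 4536, 3372), (4173, 4400, 3526)⟩

theorem D1_ok : D1.Ok := pdb_sound (s := 11) (C := ⟨⟨59, 34, -112, -29, 94, 37, -24, -3, -11⟩, (59, 42, 47)⟩) (by show Nat.Prime 71; norm_num) (by decide +kernel)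

/-- Lines of the first type. -/
noncomputable def Cl1 : List C1 := [⟨⟨-59, -34, -53, 29, -94, 8, 24, 3, -35⟩, (17, 47, 34)⟩,
  ⟨⟨0, 0, 0, 0, 0, 0, 0, 0, 0⟩, (0, 0, 0)⟩,
  ⟨⟨49, -74, -77, 79, 14, 28, 12, 21, -29⟩, (59, 56, 13)⟩,
  ⟨⟨0, 0, 0, 0, 0, 0, 0, 0, 0⟩, (0, 0, 0)⟩,
  ⟨⟨0, 0, 0, 0, 0, 0, 0, 0, 0⟩, (0, 0, 0)⟩,
  ⟨⟨0, 0, 0, 0, 0, 0, 0, 0, 0⟩, (0, 0, 0)⟩,
  ⟨⟨79, -14, -107, 49, 74, 28, -12, 21, -17⟩, (44, 21, 5)⟩,
  ⟨⟨0, 0, 0, 0, 0, 0, 0, 0, 0⟩, (0, 0, 0)⟩,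
  ⟨⟨0, 0, 0, 0, 0, 0, 0, 0, 0⟩, (0, 0, 0)⟩,
  ⟨⟨39, 66, -92, -89, 46, 37, -8, -19, -23⟩, (13, 65, 21)⟩,
  ⟨⟨19, 46, -107, -91, -26, 8, 12, -27, -19⟩, (7, 30, 53)⟩,
  ⟨⟨0, 0, 0, 0, 0, 0, 0, 0, 0⟩, (0, 0, 0)⟩,
  ⟨⟨0, 0, 0, 0, 0, 0, 0, 0, 0⟩, (0, 0, 0)⟩,
  ⟨⟨99, 6, -67, 11, -94, 32, -4, -11, -31⟩, (13, 33, 59)⟩,
  ⟨⟨-39, -66, -53, -89, 46, 52, 8, 19, -31⟩, (17, 57, 22)⟩,
  ⟨⟨0, 0, 0, 0, 0, 0, 0, 0, 0⟩, (0, 0, 0)⟩,
  ⟨⟨0, 0, 0, 0, 0, 0, 0, 0, 0⟩, (0, 0, 0)⟩,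
  ⟨⟨19, -46, -107, -91, 26, 8, 12, 27, -19⟩, (15, 44, 2)⟩,
  ⟨⟨0, 0, 0, 0, 0, 0, 0, 0, 0⟩, (0, 0, 0)⟩,
  ⟨⟨0, 0, 0, 0, 0, 0, 0, 0, 0⟩, (0, 0, 0)⟩,
  ⟨⟨51, 66, -88, -59, 74, 67, -20, -5, -17⟩, (59, 64, 59)⟩,
  ⟨⟨49, 74, -77, 79, -14, 28, 12, -21, -29⟩, (6, 43, 29)⟩,
  ⟨⟨0, 0, 0, 0, 0, 0, 0, 0, 0⟩, (0, 0, 0)⟩,
  ⟨⟨0, 0, 0, 0, 0, 0, 0, 0, 0⟩, (0, 0, 0)⟩,
  ⟨⟨0, 0, 0, 0, 0, 0, 0, 0, 0⟩, (0, 0, 0)⟩,
  ⟨⟨31, 74, -83, -81, 54, 68, -16, -13, -19⟩, (8, 2, 60)⟩,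
  ⟨⟨0, 0, 0, 0, 0, 0, 0, 0, 0⟩, (0, 0, 0)⟩,
  ⟨⟨11, 94, -43, -99, 6, 32, 4, -11, -35⟩, (69, 18, 38)⟩,
  ⟨⟨-51, 66, -37, 59, 74, 8, 20, -5, -37⟩, (25, 56, 25)⟩,
  ⟨⟨0, 0, 0, 0, 0, 0, 0, 0, 0⟩, (0, 0, 0)⟩,
  ⟨⟨39, -66, -92, -89, -46, 37, -8, 19, -23⟩, (43, 2, 64)⟩,
  ⟨⟨0, 0, 0, 0, 0, 0, 0, 0, 0⟩, (0, 0, 0)⟩,
  ⟨⟨59, -34, -112, -29, -94, 37, -24, 3, -11⟩, (9, 4, 18)⟩,
  ⟨⟨0, 0, 0, 0, 0, 0, 0, 0, 0⟩, (0, 0, 0)⟩,
  ⟨⟨0, 0, 0, 0, 0, 0, 0, 0, 0⟩, (0, 0, 0)⟩,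
  ⟨⟨-59, 34, -53, 29, 94, 8, 24, -3, -35⟩, (8, 43, 16)⟩,
  ⟨⟨0, 0, 0, 0, 0, 0, 0, 0, 0⟩, (0, 0, 0)⟩,
  ⟨⟨11, -94, -43, -99, -6, 32, 4, 11, -35⟩, (2, 53, 33)⟩,
  ⟨⟨0, 0, 0, 0, 0, 0, 0, 0, 0⟩, (0, 0, 0)⟩,
  ⟨⟨0, 0, 0, 0, 0, 0, 0, 0, 0⟩, (0, 0, 0)⟩,
  ⟨⟨51, -66, -88, -59, -74, 67, -20, 5, -17⟩, (18, 46, 18)⟩,
  ⟨⟨-19, -46, -88, -91, -26, 83, -12, 27, -7⟩, (26, 61, 65)⟩,
  ⟨⟨0, 0, 0, 0, 0, 0, 0, 0, 0⟩, (0, 0, 0)⟩,
  ⟨⟨0, 0, 0, 0, 0, 0, 0, 0, 0⟩, (0, 0, 0)⟩,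
  ⟨⟨0, 0, 0, 0, 0, 0, 0, 0, 0⟩, (0, 0, 0)⟩,
  ⟨⟨-19, 46, -88, -91, 26, 83, -12, -27, -7⟩, (18, 4, 45)⟩,
  ⟨⟨0, 0, 0, 0, 0, 0, 0, 0, 0⟩, (0, 0, 0)⟩,
  ⟨⟨0, 0, 0, 0, 0, 0, 0, 0, 0⟩, (0, 0, 0)⟩,
  ⟨⟨0, 0, 0, 0, 0, 0, 0, 0, 0⟩, (0, 0, 0)⟩,
  ⟨⟨0, 0, 0, 0, 0, 0, 0, 0, 0⟩, (0, 0, 0)⟩,
  ⟨⟨0, 0, 0, 0, 0, 0, 0, 0, 0⟩, (0, 0, 0)⟩,
  ⟨⟨0, 0, 0, 0, 0, 0, 0, 0, 0⟩, (0, 0, 0)⟩,
  ⟨⟨99, -6, -67, 11, 94, 32, -4, 11, -31⟩, (48, 29, 54)⟩,
  ⟨⟨0, 0, 0, 0, 0, 0, 0, 0, 0⟩, (0, 0, 0)⟩,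
  ⟨⟨0, 0, 0, 0, 0, 0, 0, 0, 0⟩, (0, 0, 0)⟩,
  ⟨⟨0, 0, 0, 0, 0, 0, 0, 0, 0⟩, (0, 0, 0)⟩,
  ⟨⟨-51, -66, -37, 59, -74, 8, 20, 5, -37⟩, (55, 38, 55)⟩,
  ⟨⟨0, 0, 0, 0, 0, 0, 0, 0, 0⟩, (0, 0, 0)⟩,
  ⟨⟨0, 0, 0, 0, 0, 0, 0, 0, 0⟩, (0, 0, 0)⟩,
  ⟨⟨-31, -74, -52, -81, 54, 13, 16, 13, -35⟩, (64, 55, 54)⟩,
  ⟨⟨-31, 74, -52, -81, -54, 13, 16, -13, -35⟩, (11, 15, 47)⟩,
  ⟨⟨-39, 66, -53, -89, -46, 52, 8, -19, -31⟩, (58, 65, 50)⟩,
  ⟨⟨0, 0, 0, 0, 0, 0, 0, 0, 0⟩, (0, 0, 0)⟩,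
  ⟨⟨79, 14, -107, 49, -74, 28, -12, -21, -17⟩, (57, 3, 21)⟩,
  ⟨⟨0, 0, 0, 0, 0, 0, 0, 0, 0⟩, (0, 0, 0)⟩,
  ⟨⟨0, 0, 0, 0, 0, 0, 0, 0, 0⟩, (0, 0, 0)⟩,
  ⟨⟨31, -74, -83, -81, -54, 68, -16, 13, -19⟩, (61, 33, 67)⟩,
  ⟨⟨0, 0, 0, 0, 0, 0, 0, 0, 0⟩, (0, 0, 0)⟩,
  ⟨⟨0, 0, 0, 0, 0, 0, 0, 0, 0⟩, (0, 0, 0)⟩,
  ⟨⟨0, 0, 0, 0, 0, 0, 0, 0, 0⟩, (0, 0, 0)⟩,
  ⟨⟨0, 0, 0, 0, 0, 0, 0, 0, 0⟩, (0, 0, 0)⟩]

/-- Data of a prime. -/
noncomputable def Dm : PD := ⟨(nat_lit 53), (nat_lit 2), (2545, 8, 14), (2610, 800, 1557), (1968, 957, 2439)⟩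

theorem Dm_ok : Dm.Ok := pdb_sound (s := 12) (C := ⟨⟨-13, 2, -76, -47, -58, 31, 18, -15, -13⟩, (40, 6, 18)⟩) (by show Nat.Prime 53; norm_num) (by decide +kernel)

/-- Lines of the first type. -/
noncomputable def Clm : List C1 := [⟨⟨13, -2, -89, -47, -58, 16, 18, -15, -5⟩, (17, 16, 48)⟩,
  ⟨⟨-23, 38, -56, 43, 58, 1, 18, -9, -23⟩, (9, 50, 16)⟩,
  ⟨⟨-23, -38, -56, 43, -58, 1, 18, 9, -23⟩, (18, 47, 32)⟩,
  ⟨⟨-13, -2, -76, -47, 58, 31, 18, 15, -13⟩, (20, 3, 9)⟩,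
  ⟨⟨0, 0, 0, 0, 0, 0, 0, 0, 0⟩, (0, 0, 0)⟩,
  ⟨⟨0, 0, 0, 0, 0, 0, 0, 0, 0⟩, (0, 0, 0)⟩,
  ⟨⟨0, 0, 0, 0, 0, 0, 0, 0, 0⟩, (0, 0, 0)⟩,
  ⟨⟨23, -38, -79, -43, -58, 44, -18, 9, -5⟩, (29, 8, 28)⟩,
  ⟨⟨33, -18, -89, 67, 2, 4, 2, 23, -7⟩, (12, 34, 20)⟩,
  ⟨⟨0, 0, 0, 0, 0, 0, 0, 0, 0⟩, (0, 0, 0)⟩,
  ⟨⟨0, 0, 0, 0, 0, 0, 0, 0, 0⟩, (0, 0, 0)⟩,
  ⟨⟨0, 0, 0, 0, 0, 0, 0, 0, 0⟩, (0, 0, 0)⟩,
  ⟨⟨0, 0, 0, 0, 0, 0, 0, 0, 0⟩, (0, 0, 0)⟩,
  ⟨⟨27, 42, -76, 7, 58, 49, 22, -7, -5⟩, (1, 14, 44)⟩,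
  ⟨⟨33, 18, -89, 67, -2, 4, 2, -23, -7⟩, (44, 1, 38)⟩,
  ⟨⟨0, 0, 0, 0, 0, 0, 0, 0, 0⟩, (0, 0, 0)⟩,
  ⟨⟨0, 0, 0, 0, 0, 0, 0, 0, 0⟩, (0, 0, 0)⟩,
  ⟨⟨0, 0, 0, 0, 0, 0, 0, 0, 0⟩, (0, 0, 0)⟩,
  ⟨⟨0, 0, 0, 0, 0, 0, 0, 0, 0⟩, (0, 0, 0)⟩,
  ⟨⟨57, 42, -56, -37, 62, 41, -10, 1, -19⟩, (20, 27, 3)⟩,
  ⟨⟨13, 2, -89, -47, 58, 16, 18, 15, -5⟩, (50, 19, 4)⟩,
  ⟨⟨0, 0, 0, 0, 0, 0, 0, 0, 0⟩, (0, 0, 0)⟩,
  ⟨⟨0, 0, 0, 0, 0, 0, 0, 0, 0⟩, (0, 0, 0)⟩,
  ⟨⟨57, -42, -56, -37, -62, 41, -10, -1, -19⟩, (16, 11, 13)⟩,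
  ⟨⟨0, 0, 0, 0, 0, 0, 0, 0, 0⟩, (0, 0, 0)⟩,
  ⟨⟨7, 58, -56, 27, 42, 49, 22, -7, -17⟩, (20, 9, 25)⟩,
  ⟨⟨0, 0, 0, 0, 0, 0, 0, 0, 0⟩, (0, 0, 0)⟩,
  ⟨⟨67, -2, -71, 33, 18, 56, -2, 23, -5⟩, (28, 13, 49)⟩,
  ⟨⟨0, 0, 0, 0, 0, 0, 0, 0, 0⟩, (0, 0, 0)⟩,
  ⟨⟨0, 0, 0, 0, 0, 0, 0, 0, 0⟩, (0, 0, 0)⟩,
  ⟨⟨23, 38, -79, -43, 58, 44, -18, -9, -5⟩, (20, 11, 12)⟩,
  ⟨⟨0, 0, 0, 0, 0, 0, 0, 0, 0⟩, (0, 0, 0)⟩,
  ⟨⟨7, -58, -56, 27, -42, 49, 22, 7, -17⟩, (17, 5, 8)⟩,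
  ⟨⟨0, 0, 0, 0, 0, 0, 0, 0, 0⟩, (0, 0, 0)⟩,
  ⟨⟨67, 2, -71, 33, -18, 56, -2, -23, -5⟩, (8, 34, 14)⟩,
  ⟨⟨27, -42, -76, 7, -58, 49, 22, 7, -5⟩, (50, 11, 27)⟩,
  ⟨⟨0, 0, 0, 0, 0, 0, 0, 0, 0⟩, (0, 0, 0)⟩,
  ⟨⟨0, 0, 0, 0, 0, 0, 0, 0, 0⟩, (0, 0, 0)⟩,
  ⟨⟨0, 0, 0, 0, 0, 0, 0, 0, 0⟩, (0, 0, 0)⟩,
  ⟨⟨0, 0, 0, 0, 0, 0, 0, 0, 0⟩, (0, 0, 0)⟩,
  ⟨⟨0, 0, 0, 0, 0, 0, 0, 0, 0⟩, (0, 0, 0)⟩,
  ⟨⟨0, 0, 0, 0, 0, 0, 0, 0, 0⟩, (0, 0, 0)⟩,
  ⟨⟨0, 0, 0, 0, 0, 0, 0, 0, 0⟩, (0, 0, 0)⟩,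
  ⟨⟨0, 0, 0, 0, 0, 0, 0, 0, 0⟩, (0, 0, 0)⟩,
  ⟨⟨0, 0, 0, 0, 0, 0, 0, 0, 0⟩, (0, 0, 0)⟩,
  ⟨⟨-37, 62, -4, -57, -42, 1, 10, -1, -29⟩, (22, 21, 27)⟩,
  ⟨⟨0, 0, 0, 0, 0, 0, 0, 0, 0⟩, (0, 0, 0)⟩,
  ⟨⟨0, 0, 0, 0, 0, 0, 0, 0, 0⟩, (0, 0, 0)⟩,
  ⟨⟨0, 0, 0, 0, 0, 0, 0, 0, 0⟩, (0, 0, 0)⟩,
  ⟨⟨0, 0, 0, 0, 0, 0, 0, 0, 0⟩, (0, 0, 0)⟩,
  ⟨⟨0, 0, 0, 0, 0, 0, 0, 0, 0⟩, (0, 0, 0)⟩,
  ⟨⟨-37, -62, -4, -57, 42, 1, 10, 1, -29⟩, (6, 25, 17)⟩,
  ⟨⟨0, 0, 0, 0, 0, 0, 0, 0, 0⟩, (0, 0, 0)⟩]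

/-- Unit moves. -/
noncomputable def U : List Mv := [mz,
  mz,
  ⟨⟨1, 0, 0, 0, -1, 0, 0, 0, 1⟩, .nil, (nat_lit 30), (nat_lit 30), (nat_lit 29), (nat_lit 1), (0, 0, 0), [], 3⟩,
  mz,
  mz,
  mz,
  mz,
  mz,
  mz,
  mz,
  mz,
  mz,
  mz,
  ⟨⟨1, 0, 0, 0, -1, 0, 0, 0, 1⟩, .nil, (nat_lit 30), (nat_lit 30), (nat_lit 29), (nat_lit 1), (0, 0, 0), [], 3⟩,
  ⟨⟨1, 0, 0, 0, -1, 0, 0, 0, 1⟩, .nil, (nat_lit 30), (nat_lit 30), (nat_lit 29), (nat_lit 1), (0, 0, 0), [], 3⟩,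
  ⟨⟨-1, 0, 1, 0, -1, 0, 0, 0, 1⟩, .nil, (nat_lit 0), (nat_lit 15), (nat_lit 1), (nat_lit 0), (0, 0, 0), [], 16⟩,
  mz,
  mz,
  ⟨⟨-1, 0, 1, 0, -1, 0, 0, 0, 1⟩, .nil, (nat_lit 0), (nat_lit 15), (nat_lit 1), (nat_lit 0), (0, 0, 0), [], 16⟩,
  mz,
  ⟨⟨-1, 0, 1, 0, 1, 0, 0, 0, 1⟩, .nil, (nat_lit 30), (nat_lit 16), (nat_lit 1), (nat_lit 1), (0, 0, 0), [], 17⟩,
  ⟨⟨-1, 0, 1, 0, 1, 0, 0, 0, 1⟩, .nil, (nat_lit 30), (nat_lit 16), (nat_lit 1), (nat_lit 1), (0, 0, 0), [], 17⟩,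
  ⟨⟨-1, 0, 1, 0, -1, 0, 0, 0, 1⟩, .nil, (nat_lit 0), (nat_lit 15), (nat_lit 1), (nat_lit 0), (0, 0, 0), [], 16⟩,
  ⟨⟨-1, 0, 1, 0, 1, 0, 0, 0, 1⟩, .nil, (nat_lit 30), (nat_lit 16), (nat_lit 1), (nat_lit 1), (0, 0, 0), [], 17⟩,
  ⟨⟨1, 0, 0, 0, -1, 0, 0, 0, 1⟩, .nil, (nat_lit 30), (nat_lit 30), (nat_lit 29), (nat_lit 1), (0, 0, 0), [], 3⟩,
  ⟨⟨-1, 0, 1, 0, 1, 0, 0, 0, 1⟩, .nil, (nat_lit 30), (nat_lit 16), (nat_lit 1), (nat_lit 1), (0, 0, 0), [], 17⟩,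
  ⟨⟨1, 0, 0, 0, -1, 0, 0, 0, 1⟩, .nil, (nat_lit 30), (nat_lit 30), (nat_lit 29), (nat_lit 1), (0, 0, 0), [], 3⟩,
  ⟨⟨-1, 0, 1, 0, -1, 0, 0, 0, 1⟩, .nil, (nat_lit 0), (nat_lit 15), (nat_lit 1), (nat_lit 0), (0, 0, 0), [], 16⟩,
  ⟨⟨-1, 0, 1, 0, 1, 0, 0, 0, 1⟩, .nil, (nat_lit 30), (nat_lit 16), (nat_lit 1), (nat_lit 1), (0, 0, 0), [], 17⟩,
  ⟨⟨-1, 0, 1, 0, -1, 0, 0, 0, 1⟩, .nil, (nat_lit 0), (nat_lit 15), (nat_lit 1), (nat_lit 0), (0, 0, 0), [], 16⟩,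
  mz]

theorem v_ty : tyb Dm S.ty1 Clm = true := by decide +kernel

theorem v_ty0 : tyb D0 (S.tys.getD 0 0) Cl0 = true := by decide +kernel

theorem v_ty1 : tyb D1 (S.tys.getD 1 0) Cl1 = true := by decide +kernel

theorem v_msc : mscb S D0 [D1] Dm (nat_lit 524626) = true := by decide +kernel

theorem v_mv0 : mvsn (nat_lit 421845594679) S D0 [D1] Dm (nat_lit 524626) 0 D0 = true := by decide +kernel

theorem v_mv1 : mvsn (nat_lit 421845594679) S D0 [D1] Dm (nat_lit 524626) 1 D1 = true := by decide +kernel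

theorem v_mm : mmsn (nat_lit 421845594679) S D0 [D1] Dm (nat_lit 524626) = true := by decide +kernel

theorem v_un : unb S D0 (nat_lit 524626) U = true := by decide +kernel

theorem v_ok : okb S.oks [(0, 0, 0), (6, 9, 0), (0, 0, 0), (0, 0, 0), (0, 0, 0)] = true := by decide +kernel

theorem v_part : ∀ d < D0.p, (nat_lit 524626).testBit d = true → part S (zc (D0 :: [D1])) d = true := by
  intro d hd h
  have h1 : ∀ d < 31, (nat_lit 524626).testBit d = true → d = 1 ∨ d = 4 ∨ d = 6 ∨ d = 8 ∨ d = 19 := by decide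
  rcases h1 d hd h with rfl | rfl | rfl | rfl | rfl
  · exact part_1
  · exact part_4
  · exact part_6
  · exact part_8
  · exact part_19

theorem main (n : ℕ) (ho : Odd n) (hr : ¬ Rep n) (h0 : Split 31 n) (h1 : Split 71 n) (hm : Split 53 n) :
    n ∈ EE := by
  refine concln (W := nat_lit 421845594679) (S := S) (P0 := D0) (Pl := [D1]) (Pm := Dm) (cn := nat_lit 524626) ?_ Dm_ok v_ty ?_ ?_ v_msc ?_ v_mm v_un v_part v_ok
    n ho hr ?_ hm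
  · simp only [List.forall_mem_cons]
    exact ⟨D0_ok, D1_ok, fun _ h => absurd h (by simp)⟩
  · exact all2 (φ := fun j P => ∃ L, tyb P (S.tys.getD j 0) L = true) ⟨_, v_ty0⟩ ⟨_, v_ty1⟩
  · exact all2 (φ := fun j P => Nat.ble (S.pks.getD j 0) (Nat.pow P.p P.K) = true) (by decide +kernel) (by decide +kernel)
  · exact all2 (φ := fun i P => mvsn (nat_lit 421845594679) S D0 [D1] Dm (nat_lit 524626) i P = true) v_mv0 v_mv1
  · simp only [List.forall_mem_cons]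
    exact ⟨h0, h1, fun _ h => absurd h (by simp)⟩

end Pool.Agent.Work.MP_9954fe_nt.P31_71_53

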