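import Pool.Agent.Work.MP_9954fe_nt.Fast

/-!
Certificates for the sets {7, 11}, {7, 31, 43}, {11, 43, 47}, {17, 53}, {19, 31, 37}, {19, 37, 53} of split primes.
-/

set_option autoImplicit false
set_option linter.all false
set_option maxRecDepth 100000

namespace Pool.Agent.Work.MP_9954fe_nt.P7_11

/-- Dummy move. -/
noncomputable def mz : Mv := ⟨⟨0, 0, 0, 0, 0, 0, 0, 0, 0⟩, .nil, (nat_lit 0), (nat_lit 0), (nat_lit 0), (nat_lit 0), (0, 0, 0), [], 0⟩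

/-- Moves. -/
noncomputable def t0_1 : List Mv := [
  ⟨⟨-3, 4, -5, 2, -5, -6, 4, 4, -5⟩, (.cons (nat_lit 11870394) (nat_lit 28783777) (nat_lit 28481682) (nat_lit 1) .nil), (nat_lit 5), (nat_lit 5), (nat_lit 1), (nat_lit 0), (3, 5, 3), [10048865], 2⟩,
  ⟨⟨-3, 4, -5, -2, 5, 6, 4, 4, -5⟩, (.cons (nat_lit 37305656) (nat_lit 7036773) (nat_lit 31813562) (nat_lit 1) .nil), (nat_lit 6), (nat_lit 5), (nat_lit 0), (nat_lit 1), (3, 2, 3), [5604076], 9⟩,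
  ⟨⟨7, 0, 0, 2, -5, -6, 4, 4, -5⟩, (.cons (nat_lit 23697019) (nat_lit 11044809) (nat_lit 25792226) (nat_lit 1) .nil), (nat_lit 0), (nat_lit 10), (nat_lit 10), (nat_lit 1), (0, 5, 3), [9064028], 4⟩,
  ⟨⟨-3, 4, -5, 2, -5, -6, 4, 4, -5⟩, (.cons (nat_lit 11870394) (nat_lit 28783777) (nat_lit 28481682) (nat_lit 1) .nil), (nat_lit 5), (nat_lit 5), (nat_lit 1), (nat_lit 0), (3, 5, 3), [10048865], 2⟩,
  ⟨⟨-3, 4, -5, 2, -5, -6, 4, 4, -5⟩, (.cons (nat_lit 11870394) (nat_lit 28783777) (nat_lit 28481682) (nat_lit 1) .nil), (nat_lit 5), (nat_lit 5), (nat_lit 1), (nat_lit 0), (3, 5, 3), [10048865], 2⟩,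
  ⟨⟨-3, 4, -5, 2, -5, -6, 4, 4, -5⟩, (.cons (nat_lit 11870394) (nat_lit 28783777) (nat_lit 28481682) (nat_lit 1) .nil), (nat_lit 5), (nat_lit 5), (nat_lit 1), (nat_lit 0), (3, 5, 3), [10048865], 2⟩,
  ⟨⟨7, 0, 0, 2, -5, -6, 4, 4, -5⟩, (.cons (nat_lit 23697019) (nat_lit 11044809) (nat_lit 25792226) (nat_lit 1) .nil), (nat_lit 0), (nat_lit 10), (nat_lit 10), (nat_lit 1), (0, 5, 3), [9064028], 4⟩]

/-- Moves. -/
noncomputable def t0_3 : List Mv := [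
  ⟨⟨1, 0, -9, 0, -7, 0, 6, 0, -5⟩, (.cons (nat_lit 25004503) (nat_lit 30625764) (nat_lit 38675796) (nat_lit 1) .nil), (nat_lit 4), (nat_lit 7), (nat_lit 8), (nat_lit 1), (2, 0, 5), [37099950], 1⟩,
  ⟨⟨1, 0, -9, 0, -7, 0, 6, 0, -5⟩, (.cons (nat_lit 25004503) (nat_lit 30625764) (nat_lit 38675796) (nat_lit 1) .nil), (nat_lit 4), (nat_lit 7), (nat_lit 8), (nat_lit 1), (2, 0, 5), [37099950], 1⟩,
  ⟨⟨5, 0, 4, 0, 7, 0, 6, 0, -5⟩, (.cons (nat_lit 23707674) (nat_lit 19696108) (nat_lit 34804965) (nat_lit 1) .nil), (nat_lit 10), (nat_lit 4), (nat_lit 10), (nat_lit 1), (3, 0, 5), [11878172], 1⟩,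
  ⟨⟨5, 0, 4, 0, -7, 0, 6, 0, -5⟩, (.cons (nat_lit 26597705) (nat_lit 27856828) (nat_lit 8865904) (nat_lit 1) .nil), (nat_lit 10), (nat_lit 8), (nat_lit 7), (nat_lit 1), (3, 0, 5), [2605651], 8⟩,
  ⟨⟨1, 0, -9, 0, -7, 0, 6, 0, -5⟩, (.cons (nat_lit 25004503) (nat_lit 30625764) (nat_lit 38675796) (nat_lit 1) .nil), (nat_lit 4), (nat_lit 7), (nat_lit 8), (nat_lit 1), (2, 0, 5), [37099950], 1⟩,
  ⟨⟨1, 0, -9, 0, 7, 0, 6, 0, -5⟩, (.cons (nat_lit 17043897) (nat_lit 16716079) (nat_lit 24805227) (nat_lit 1) .nil), (nat_lit 8), (nat_lit 9), (nat_lit 4), (nat_lit 1), (2, 0, 5), [27270990], 2⟩,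
  ⟨⟨1, 0, -9, 0, -7, 0, 6, 0, -5⟩, (.cons (nat_lit 25004503) (nat_lit 30625764) (nat_lit 38675796) (nat_lit 1) .nil), (nat_lit 4), (nat_lit 7), (nat_lit 8), (nat_lit 1), (2, 0, 5), [37099950], 1⟩]

/-- Moves. -/
noncomputable def t4_1 : List Mv := [
  mz,
  ⟨⟨1, -12, 0, -10, -1, 0, 4, -4, -11⟩, (.cons (nat_lit 40353606) (nat_lit 39535737) (nat_lit 37357088) (nat_lit 1) .nil), (nat_lit 1), (nat_lit 0), (nat_lit 0), (nat_lit 0), (5, 5, 9), [35984544], 0⟩,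
  ⟨⟨-1, -12, 1, -10, 1, 10, -4, -4, -7⟩, (.cons (nat_lit 2783280) (nat_lit 40250521) (nat_lit 32491695) (nat_lit 1) .nil), (nat_lit 3), (nat_lit 0), (nat_lit 0), (nat_lit 0), (7, 4, 6), [6163375], 0⟩,
  ⟨⟨3, -8, -11, -10, 1, 0, 4, 4, -11⟩, (.cons (nat_lit 16777423) (nat_lit 2184965) (nat_lit 38973693) (nat_lit 1) .nil), (nat_lit 2), (nat_lit 0), (nat_lit 0), (nat_lit 0), (8, 10, 7), [23399996], 0⟩,
  ⟨⟨-11, 0, 0, 4, -5, -12, -2, 8, -5⟩, (.cons (nat_lit 19038274) (nat_lit 19222964) (nat_lit 1) (nat_lit 27486277) .nil), (nat_lit 8), (nat_lit 0), (nat_lit 0), (nat_lit 0), (0, 6, 8), [1881998], 0⟩,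
  mz,
  ⟨⟨-3, -8, -8, 10, 1, -10, -4, 4, -7⟩, (.cons (nat_lit 19326981) (nat_lit 3403126) (nat_lit 8924822) (nat_lit 1) .nil), (nat_lit 2), (nat_lit 0), (nat_lit 0), (nat_lit 0), (3, 1, 4), [1008599], 0⟩,
  ⟨⟨-9, -8, 4, -4, 5, -8, 2, -8, -7⟩, (.cons (nat_lit 40353606) (nat_lit 18035763) (nat_lit 31446079) (nat_lit 1) .nil), (nat_lit 7), (nat_lit 0), (nat_lit 0), (nat_lit 0), (8, 6, 8), [6578169], 0⟩,
  ⟨⟨-11, 0, 0, -4, -5, 12, -2, -8, -5⟩, (.cons (nat_lit 3698429) (nat_lit 5381085) (nat_lit 17080121) (nat_lit 1) .nil), (nat_lit 4), (nat_lit 0), (nat_lit 0), (nat_lit 0), (0, 2, 1), [23557831], 0⟩,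
  ⟨⟨-9, 8, 4, 4, 5, 8, 2, 8, -7⟩, (.cons (nat_lit 40353606) (nat_lit 17270281) (nat_lit 13482929) (nat_lit 1) .nil), (nat_lit 9), (nat_lit 0), (nat_lit 0), (nat_lit 0), (4, 8, 4), [15258918], 0⟩]

/-- Moves. -/
noncomputable def t4_3 : List Mv := [
  mz,
  ⟨⟨1, -12, 0, -10, -1, 0, 4, -4, -11⟩, (.cons (nat_lit 40353606) (nat_lit 39535737) (nat_lit 37357088) (nat_lit 1) .nil), (nat_lit 1), (nat_lit 0), (nat_lit 0), (nat_lit 0), (5, 5, 9), [35984544], 0⟩,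
  ⟨⟨-3, 8, -8, -10, 1, 10, -4, -4, -7⟩, (.cons (nat_lit 5075431) (nat_lit 21438869) (nat_lit 9145288) (nat_lit 1) .nil), (nat_lit 6), (nat_lit 0), (nat_lit 0), (nat_lit 0), (10, 4, 6), [15243509], 0⟩,
  ⟨⟨1, 12, 0, -10, 1, 0, 4, 4, -11⟩, (.cons (nat_lit 23435603) (nat_lit 36470806) (nat_lit 11790838) (nat_lit 1) .nil), (nat_lit 1), (nat_lit 0), (nat_lit 0), (nat_lit 0), (10, 10, 7), [39947093], 0⟩,
  ⟨⟨9, 8, -5, 4, -5, -12, -2, 8, -5⟩, (.cons (nat_lit 24599712) (nat_lit 38969380) (nat_lit 1) (nat_lit 10421943) .nil), (nat_lit 7), (nat_lit 0), (nat_lit 0), (nat_lit 0), (8, 6, 8), [20572761], 0⟩,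
  mz,
  ⟨⟨-3, -8, -8, -10, -1, 10, -4, 4, -7⟩, (.cons (nat_lit 40353606) (nat_lit 14068962) (nat_lit 21898791) (nat_lit 1) .nil), (nat_lit 6), (nat_lit 0), (nat_lit 0), (nat_lit 0), (3, 10, 4), [11800167], 0⟩,
  ⟨⟨-9, -8, 4, -4, 5, -8, 2, -8, -7⟩, (.cons (nat_lit 40353606) (nat_lit 18035763) (nat_lit 31446079) (nat_lit 1) .nil), (nat_lit 7), (nat_lit 0), (nat_lit 0), (nat_lit 0), (8, 6, 8), [6578169], 0⟩,
  ⟨⟨9, -8, -5, 4, 5, -12, -2, -8, -5⟩, (.cons (nat_lit 10588775) (nat_lit 15826969) (nat_lit 4989089) (nat_lit 1) .nil), (nat_lit 7), (nat_lit 0), (nat_lit 0), (nat_lit 0), (1, 9, 1), [22837349], 0⟩,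
  ⟨⟨-9, 8, 4, -4, -5, -8, 2, 8, -7⟩, (.cons (nat_lit 23600077) (nat_lit 21536030) (nat_lit 1) (nat_lit 20609589) .nil), (nat_lit 7), (nat_lit 0), (nat_lit 0), (nat_lit 0), (4, 3, 4), [36351398], 0⟩]

/-- All the moves. -/
noncomputable def tabs : List (List (List Mv)) := [[[], t0_1, [], t0_3], [], [], [], [[], t4_1, [], t4_3]]

/-- Subtrie. -/
noncomputable def T1 : Tr := (.ev (nat_lit 20) (nat_lit 2) (.nd (nat_lit 32) (.br (nat_lit 2) (.br (nat_lit 1)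
 (.ch (nat_lit 0) (.ev (nat_lit 48) (nat_lit 128) (.nd (nat_lit 96) (.br (nat_lit 4) (.br (nat_lit 1) (.ch
 (nat_lit 0) (.ev (nat_lit 112) (nat_lit 256) (.nd (nat_lit 480) (.br (nat_lit 4) (.br (nat_lit 1) (.ch
 (nat_lit 0) (.ev (nat_lit 496) (nat_lit 20) (.ev (nat_lit 692) (nat_lit 64) (.nd (nat_lit 1104) (.br (nat_lit
 4) (.br (nat_lit 1) (.ch (nat_lit 0) (.ev (nat_lit 1156) (nat_lit 512) (.ev (nat_lit 1165) (nat_lit 8) .dd)))
 (.ch (nat_lit 1) (.nd (nat_lit 3072) (.br (nat_lit 5) (.ch (nat_lit 2) (.ev (nat_lit 3108) (nat_lit 8) (.ev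
 (nat_lit 3117) (nat_lit 512) .dd))) (.ch (nat_lit 5) (.fin (nat_lit 576468998594970144))))))) (.br (nat_lit 5)
 (.ch (nat_lit 4) (.ev (nat_lit 1364) (nat_lit 512) (.ev (nat_lit 1373) (nat_lit 8) .dd))) (.ch (nat_lit 5)
 (.ev (nat_lit 1156) (nat_lit 512) (.ev (nat_lit 1165) (nat_lit 8) .dd))))))))) (.ch (nat_lit 1) (.ev (nat_lit
 496) (nat_lit 584) (.nd (nat_lit 832) (.br (nat_lit 5) (.br (nat_lit 4) (.ch (nat_lit 3) (.nd (nat_lit 2144)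
 (.br (nat_lit 4) (.ch (nat_lit 2) (.ev (nat_lit 3012) (nat_lit 4) (.ev (nat_lit 3021) (nat_lit 16) .dd))) (.br
 (nat_lit 6) (.ch (nat_lit 4) (.ev (nat_lit 3604) (nat_lit 16) (.ev (nat_lit 3613) (nat_lit 4) .dd))) (.ch
 (nat_lit 6) (.fin (nat_lit 576514077701391406))))))) (.ch (nat_lit 4) (.ev (nat_lit 848) (nat_lit 16) (.ev
 (nat_lit 861) (nat_lit 4) .dd)))) (.br (nat_lit 6) (.ch (nat_lit 5) (.nd (nat_lit 2144) (.br (nat_lit 5) (.ch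
 (nat_lit 1) (.ev (nat_lit 2180) (nat_lit 16) (.ev (nat_lit 2189) (nat_lit 4) .dd))) (.ch (nat_lit 5) (.fin
 (nat_lit 576478894210105828)))))) (.ch (nat_lit 6) (.ev (nat_lit 1220) (nat_lit 16) (.ev (nat_lit 1229)
 (nat_lit 4) .dd))))))))) (.br (nat_lit 5) (.ch (nat_lit 4) (.ev (nat_lit 496) (nat_lit 4) (.ev (nat_lit 612)
 (nat_lit 512) (.nd (nat_lit 832) (.br (nat_lit 2) (.br (nat_lit 1) (.ch (nat_lit 0) (.ev (nat_lit 848)
 (nat_lit 16) (.ev (nat_lit 1236) (nat_lit 8) (.ev (nat_lit 1245) (nat_lit 64) .dd)))) (.ch (nat_lit 1) (.nd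
 (nat_lit 2144) (.br (nat_lit 5) (.br (nat_lit 2) (.ch (nat_lit 0) (.ev (nat_lit 2160) (nat_lit 8) (.ev
 (nat_lit 2740) (nat_lit 64) (.ev (nat_lit 2749) (nat_lit 16) .dd)))) (.ch (nat_lit 2) (.ev (nat_lit 2740)
 (nat_lit 64) (.ev (nat_lit 3620) (nat_lit 8) (.ev (nat_lit 3629) (nat_lit 16) .dd))))) (.br (nat_lit 6) (.ch
 (nat_lit 5) (.ev (nat_lit 2160) (nat_lit 64) (.ev (nat_lit 2996) (nat_lit 16) (.ev (nat_lit 3005) (nat_lit 8)
 .dd)))) (.ch (nat_lit 6) (.ev (nat_lit 2160) (nat_lit 64) (.fin (nat_lit 576580048808003026))))))))) (.br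
 (nat_lit 3) (.ch (nat_lit 2) (.ev (nat_lit 848) (nat_lit 72) (.ev (nat_lit 861) (nat_lit 16) .dd))) (.br
 (nat_lit 5) (.ch (nat_lit 3) (.ev (nat_lit 848) (nat_lit 64) (.ev (nat_lit 868) (nat_lit 8) (.ev (nat_lit 877)
 (nat_lit 16) .dd)))) (.ch (nat_lit 5) (.ev (nat_lit 1364) (nat_lit 64) (.nd (nat_lit 2304) (.br (nat_lit 2)
 (.ch (nat_lit 1) (.ev (nat_lit 2372) (nat_lit 8) (.ev (nat_lit 2381) (nat_lit 16) .dd))) (.br (nat_lit 6) (.ch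
 (nat_lit 2) (.fin (nat_lit 576421719542546960))) (.ch (nat_lit 6) (.ev (nat_lit 2320) (nat_lit 8) (.ev
 (nat_lit 2333) (nat_lit 16) .dd))))))))))))))) (.br (nat_lit 6) (.ch (nat_lit 5) (.ev (nat_lit 496) (nat_lit
 512) (.nd (nat_lit 992) (.br (nat_lit 2) (.br (nat_lit 1) (.ch (nat_lit 0) (.ev (nat_lit 1008) (nat_lit 8)
 (.ev (nat_lit 1220) (nat_lit 16) (.fin (nat_lit 576440411305230860))))) (.ch (nat_lit 1) (.ev (nat_lit 1008)
 (nat_lit 16) (.ev (nat_lit 1348) (nat_lit 64) (.nd (nat_lit 3072) (.br (nat_lit 4) (.ch (nat_lit 3) (.fin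
 (nat_lit 576461302061810239))) (.br (nat_lit 5) (.ch (nat_lit 4) (.ev (nat_lit 3088) (nat_lit 8) (.ev (nat_lit
 3101) (nat_lit 4) .dd))) (.ch (nat_lit 5) (.ev (nat_lit 3088) (nat_lit 4) (.ev (nat_lit 3101) (nat_lit 8)
 .dd)))))))))) (.br (nat_lit 5) (.ch (nat_lit 2) (.ev (nat_lit 1008) (nat_lit 20) (.ev (nat_lit 1348) (nat_lit
 64) (.ev (nat_lit 1357) (nat_lit 8) .dd)))) (.br (nat_lit 6) (.ch (nat_lit 5) (.ev (nat_lit 1008) (nat_lit 24)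
 (.ev (nat_lit 1348) (nat_lit 64) (.ev (nat_lit 1357) (nat_lit 4) .dd)))) (.ch (nat_lit 6) (.ev (nat_lit 1008)
 (nat_lit 68) (.fin (nat_lit 576508581089067623)))))))))) (.ch (nat_lit 6) (.ev (nat_lit 496) (nat_lit 8) (.ev
 (nat_lit 660) (nat_lit 64) (.nd (nat_lit 992) (.br (nat_lit 4) (.br (nat_lit 3) (.ch (nat_lit 1) (.ev (nat_lit
 1008) (nat_lit 512) (.nd (nat_lit 3072) (.br (nat_lit 4) (.ch (nat_lit 2) (.fin (nat_lit 576422819180003921)))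
 (.br (nat_lit 5) (.ch (nat_lit 4) (.ev (nat_lit 3088) (nat_lit 16) (.ev (nat_lit 3101) (nat_lit 4) .dd))) (.ch
 (nat_lit 5) (.ev (nat_lit 3088) (nat_lit 20) .dd))))))) (.ch (nat_lit 3) (.ev (nat_lit 1188) (nat_lit 4) (.ev
 (nat_lit 2692) (nat_lit 16) (.ev (nat_lit 2701) (nat_lit 512) .dd))))) (.br (nat_lit 6) (.ch (nat_lit 4) (.ev
 (nat_lit 1008) (nat_lit 512) (.ev (nat_lit 1188) (nat_lit 4) (.ev (nat_lit 1197) (nat_lit 16) .dd)))) (.ch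
 (nat_lit 6) (.ev (nat_lit 1364) (nat_lit 512) (.ev (nat_lit 1396) (nat_lit 4) (.ev (nat_lit 1405) (nat_lit 16)
 .dd)))))))))))))))) (.ch (nat_lit 1) (.ev (nat_lit 112) (nat_lit 4) (.nd (nat_lit 320) (.br (nat_lit 3) (.br
 (nat_lit 2) (.ch (nat_lit 0) (.ev (nat_lit 336) (nat_lit 256) (.nd (nat_lit 624) (.br (nat_lit 4) (.br
 (nat_lit 3) (.ch (nat_lit 0) (.ev (nat_lit 640) (nat_lit 72) (.nd (nat_lit 1520) (.br (nat_lit 3) (.ch
 (nat_lit 1) (.ev (nat_lit 1536) (nat_lit 512) (.ev (nat_lit 1549) (nat_lit 16) .dd))) (.br (nat_lit 4) (.ch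
 (nat_lit 3) (.ev (nat_lit 1684) (nat_lit 512) (.ev (nat_lit 1693) (nat_lit 16) .dd))) (.ch (nat_lit 4) (.ev
 (nat_lit 1536) (nat_lit 16) (.ev (nat_lit 1549) (nat_lit 512) .dd)))))))) (.ch (nat_lit 3) (.ev (nat_lit 640)
 (nat_lit 16) (.nd (nat_lit 1584) (.br (nat_lit 5) (.ch (nat_lit 1) (.ev (nat_lit 1600) (nat_lit 576) (.ev
 (nat_lit 1613) (nat_lit 8) .dd))) (.br (nat_lit 6) (.ch (nat_lit 5) (.ev (nat_lit 1600) (nat_lit 512) (.ev
 (nat_lit 2196) (nat_lit 8) (.ev (nat_lit 2205) (nat_lit 64) .dd)))) (.ch (nat_lit 6) (.ev (nat_lit 1600)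
 (nat_lit 64) (.nd (nat_lit 4976) (.br (nat_lit 3) (.ch (nat_lit 2) (.fin (nat_lit 576399729498735160))) (.ch
 (nat_lit 3) (.ev (nat_lit 4992) (nat_lit 8) (.ev (nat_lit 5005) (nat_lit 512) .dd))))))))))))) (.br (nat_lit
 6) (.ch (nat_lit 4) (.ev (nat_lit 640) (nat_lit 16) (.ev (nat_lit 1028) (nat_lit 64) (.ev (nat_lit 2532)
 (nat_lit 8) (.ev (nat_lit 2541) (nat_lit 512) .dd))))) (.ch (nat_lit 6) (.ev (nat_lit 640) (nat_lit 8) (.nd
 (nat_lit 1312) (.br (nat_lit 3) (.ch (nat_lit 1) (.ev (nat_lit 1328) (nat_lit 512) (.ev (nat_lit 2052)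
 (nat_lit 16) (.ev (nat_lit 2061) (nat_lit 64) .dd)))) (.br (nat_lit 5) (.ch (nat_lit 3) (.nd (nat_lit 4384)
 (.ch (nat_lit 2) (.ev (nat_lit 4548) (nat_lit 512) (.nd (nat_lit 5776) (.br (nat_lit 3) (.ch (nat_lit 2) (.ev
 (nat_lit 5792) (nat_lit 16) (.ev (nat_lit 5805) (nat_lit 64) .dd))) (.br (nat_lit 4) (.ch (nat_lit 3) (.fin
 (nat_lit 576442610344215113))) (.ch (nat_lit 4) (.ev (nat_lit 5792) (nat_lit 16) (.ev (nat_lit 5805) (nat_lit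
 64) .dd)))))))))) (.ch (nat_lit 5) (.ev (nat_lit 2180) (nat_lit 64) (.nd (nat_lit 4624) (.br (nat_lit 4) (.ch
 (nat_lit 0) (.fin (nat_lit 576439311835546144))) (.ch (nat_lit 4) (.ev (nat_lit 4640) (nat_lit 512) (.ev
 (nat_lit 4653) (nat_lit 16) .dd))))))))))))))))) (.ch (nat_lit 2) (.ev (nat_lit 336) (nat_lit 16) (.nd
 (nat_lit 896) (.br (nat_lit 3) (.br (nat_lit 1) (.ch (nat_lit 0) (.ev (nat_lit 912) (nat_lit 576) (.nd
 (nat_lit 2592) (.br (nat_lit 5) (.ch (nat_lit 1) (.fin (nat_lit 576460202559619649))) (.br (nat_lit 6) (.ch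
 (nat_lit 5) (.ev (nat_lit 2900) (nat_lit 8) (.ev (nat_lit 2909) (nat_lit 256) .dd))) (.ch (nat_lit 6) (.ev
 (nat_lit 2608) (nat_lit 8) (.ev (nat_lit 2621) (nat_lit 256) .dd)))))))) (.ch (nat_lit 1) (.ev (nat_lit 912)
 (nat_lit 520) (.ev (nat_lit 1156) (nat_lit 256) (.ev (nat_lit 1165) (nat_lit 64) .dd))))) (.br (nat_lit 5)
 (.ch (nat_lit 3) (.ev (nat_lit 912) (nat_lit 8) (.ev (nat_lit 1156) (nat_lit 64) (.nd (nat_lit 2592) (.br
 (nat_lit 3) (.ch (nat_lit 2) (.ev (nat_lit 3764) (nat_lit 512) (.ev (nat_lit 3773) (nat_lit 256) .dd))) (.br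
 (nat_lit 5) (.ch (nat_lit 3) (.ev (nat_lit 2660) (nat_lit 256) (.ev (nat_lit 2669) (nat_lit 512) .dd))) (.ch
 (nat_lit 5) (.ev (nat_lit 2608) (nat_lit 768) .dd)))))))) (.br (nat_lit 6) (.ch (nat_lit 5) (.ev (nat_lit 912)
 (nat_lit 264) (.ev (nat_lit 2452) (nat_lit 512) (.ev (nat_lit 2461) (nat_lit 64) .dd)))) (.ch (nat_lit 6) (.ev
 (nat_lit 912) (nat_lit 256) (.ev (nat_lit 1364) (nat_lit 8) (.ev (nat_lit 1956) (nat_lit 512) (.ev (nat_lit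
 1965) (nat_lit 64) .dd)))))))))))) (.br (nat_lit 4) (.ch (nat_lit 3) (.ev (nat_lit 336) (nat_lit 24) (.nd
 (nat_lit 832) (.br (nat_lit 3) (.br (nat_lit 2) (.ch (nat_lit 0) (.ev (nat_lit 848) (nat_lit 512) (.nd
 (nat_lit 2304) (.ch (nat_lit 0) (.nd (nat_lit 5088) (.br (nat_lit 2) (.ch (nat_lit 0) (.ev (nat_lit 5172)
 (nat_lit 256) (.ev (nat_lit 5181) (nat_lit 64) .dd))) (.ch (nat_lit 2) (.fin (nat_lit
 576448107913888312))))))))) (.ch (nat_lit 2) (.nd (nat_lit 1744) (.br (nat_lit 2) (.ch (nat_lit 1) (.ev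
 (nat_lit 2068) (nat_lit 512) (.ev (nat_lit 2516) (nat_lit 64) (.ev (nat_lit 2525) (nat_lit 256) .dd)))) (.br
 (nat_lit 5) (.ch (nat_lit 2) (.ev (nat_lit 1760) (nat_lit 64) (.ev (nat_lit 4676) (nat_lit 256) (.ev (nat_lit
 4685) (nat_lit 512) .dd)))) (.ch (nat_lit 5) (.ev (nat_lit 2372) (nat_lit 64) (.nd (nat_lit 4624) (.br
 (nat_lit 4) (.ch (nat_lit 3) (.nd (nat_lit 5808) (.br (nat_lit 2) (.ch (nat_lit 0) (.ev (nat_lit 5824)
 (nat_lit 256) (.ev (nat_lit 5837) (nat_lit 512) .dd))) (.br (nat_lit 5) (.ch (nat_lit 2) (.fin (nat_lit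
 576521775156249177))) (.ch (nat_lit 5) (.ev (nat_lit 5956) (nat_lit 256) (.ev (nat_lit 5965) (nat_lit 512)
 .dd))))))) (.ch (nat_lit 4) (.ev (nat_lit 4640) (nat_lit 512) (.ev (nat_lit 4653) (nat_lit 256)
 .dd)))))))))))) (.br (nat_lit 5) (.ch (nat_lit 3) (.ev (nat_lit 848) (nat_lit 256) (.nd (nat_lit 2144) (.ch
 (nat_lit 0) (.ev (nat_lit 2420) (nat_lit 64) (.ev (nat_lit 2429) (nat_lit 512) .dd)))))) (.ch (nat_lit 5) (.ev
 (nat_lit 848) (nat_lit 64) (.nd (nat_lit 2000) (.br (nat_lit 6) (.ch (nat_lit 5) (.ev (nat_lit 2180) (nat_lit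
 256) (.ev (nat_lit 2189) (nat_lit 512) .dd))) (.ch (nat_lit 6) (.ev (nat_lit 2372) (nat_lit 512) (.ev (nat_lit
 2381) (nat_lit 256) .dd)))))))))))) (.br (nat_lit 5) (.ch (nat_lit 4) (.ev (nat_lit 336) (nat_lit 256) (.nd
 (nat_lit 624) (.br (nat_lit 3) (.br (nat_lit 2) (.ch (nat_lit 1) (.ev (nat_lit 640) (nat_lit 8) (.nd (nat_lit
 1312) (.br (nat_lit 5) (.br (nat_lit 2) (.ch (nat_lit 1) (.ev (nat_lit 1328) (nat_lit 16) (.ev (nat_lit 1652)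
 (nat_lit 512) (.ev (nat_lit 1661) (nat_lit 64) .dd)))) (.ch (nat_lit 2) (.ev (nat_lit 1328) (nat_lit 512)
 (.fin (nat_lit 576447008380240374))))) (.br (nat_lit 6) (.ch (nat_lit 5) (.ev (nat_lit 1328) (nat_lit 64) (.ev
 (nat_lit 1652) (nat_lit 16) (.ev (nat_lit 1661) (nat_lit 512) .dd)))) (.ch (nat_lit 6) (.nd (nat_lit 3168)
 (.br (nat_lit 1) (.ch (nat_lit 0) (.nd (nat_lit 5488) (.br (nat_lit 5) (.ch (nat_lit 3) (.ev (nat_lit 5504)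
 (nat_lit 64) (.fin (nat_lit 576505282591932979)))) (.ch (nat_lit 5) (.ev (nat_lit 5504) (nat_lit 512) (.fin
 (nat_lit 576346952835744058))))))) (.br (nat_lit 6) (.ch (nat_lit 1) (.ev (nat_lit 3184) (nat_lit 64) (.ev
 (nat_lit 3892) (nat_lit 16) (.ev (nat_lit 3901) (nat_lit 512) .dd)))) (.ch (nat_lit 6) (.ev (nat_lit 3296)
 (nat_lit 512) (.ev (nat_lit 4084) (nat_lit 16) (.ev (nat_lit 4093) (nat_lit 64) .dd))))))))))))) (.ch (nat_lit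
 2) (.ev (nat_lit 640) (nat_lit 16) (.nd (nat_lit 1520) (.br (nat_lit 4) (.br (nat_lit 3) (.ch (nat_lit 2) (.ev
 (nat_lit 1536) (nat_lit 8) (.ev (nat_lit 1796) (nat_lit 512) (.ev (nat_lit 1805) (nat_lit 64) .dd)))) (.ch
 (nat_lit 3) (.nd (nat_lit 3168) (.br (nat_lit 5) (.ch (nat_lit 0) (.ev (nat_lit 3184) (nat_lit 64) (.fin
 (nat_lit 576646020554243926)))) (.ch (nat_lit 5) (.ev (nat_lit 3184) (nat_lit 512) (.ev (nat_lit 4228)
 (nat_lit 8) (.ev (nat_lit 4237) (nat_lit 64) .dd)))))))) (.br (nat_lit 5) (.ch (nat_lit 4) (.ev (nat_lit 1536)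
 (nat_lit 64) (.nd (nat_lit 3168) (.br (nat_lit 5) (.ch (nat_lit 3) (.ev (nat_lit 3252) (nat_lit 512) (.ev
 (nat_lit 3261) (nat_lit 8) .dd))) (.ch (nat_lit 5) (.ev (nat_lit 4228) (nat_lit 512) (.ev (nat_lit 4237)
 (nat_lit 8) .dd))))))) (.ch (nat_lit 5) (.ev (nat_lit 2372) (nat_lit 64) (.ev (nat_lit 4292) (nat_lit 8) (.ev
 (nat_lit 4301) (nat_lit 512) .dd)))))))))) (.br (nat_lit 5) (.ch (nat_lit 3) (.ev (nat_lit 640) (nat_lit 16)
 (.nd (nat_lit 1744) (.br (nat_lit 5) (.br (nat_lit 3) (.ch (nat_lit 0) (.ev (nat_lit 1760) (nat_lit 8) (.fin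
 (nat_lit 576447008420086322)))) (.ch (nat_lit 3) (.ev (nat_lit 1760) (nat_lit 8) (.ev (nat_lit 2948) (nat_lit
 64) (.ev (nat_lit 2957) (nat_lit 512) .dd))))) (.br (nat_lit 6) (.ch (nat_lit 5) (.ev (nat_lit 2960) (nat_lit
 512) (.ev (nat_lit 3924) (nat_lit 64) (.ev (nat_lit 3933) (nat_lit 8) .dd)))) (.ch (nat_lit 6) (.ev (nat_lit
 1760) (nat_lit 8) (.ev (nat_lit 2928) (nat_lit 64) (.ev (nat_lit 2941) (nat_lit 512) .dd))))))))) (.br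
 (nat_lit 6) (.ch (nat_lit 5) (.ev (nat_lit 640) (nat_lit 592) (.ev (nat_lit 653) (nat_lit 8) .dd))) (.ch
 (nat_lit 6) (.nd (nat_lit 1312) (.br (nat_lit 2) (.br (nat_lit 1) (.ch (nat_lit 0) (.ev (nat_lit 1328)
 (nat_lit 16) (.ev (nat_lit 2068) (nat_lit 512) (.ev (nat_lit 2212) (nat_lit 8) (.ev (nat_lit 2221) (nat_lit
 64) .dd))))) (.ch (nat_lit 1) (.ev (nat_lit 2276) (nat_lit 16) (.nd (nat_lit 3312) (.br (nat_lit 1) (.ch
 (nat_lit 0) (.ev (nat_lit 3328) (nat_lit 512) (.ev (nat_lit 3988) (nat_lit 8) (.ev (nat_lit 3997) (nat_lit 64)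
 .dd)))) (.br (nat_lit 3) (.ch (nat_lit 1) (.ev (nat_lit 3988) (nat_lit 8) (.fin (nat_lit
 576472297159213735)))) (.ch (nat_lit 3) (.ev (nat_lit 3328) (nat_lit 64) (.ev (nat_lit 3988) (nat_lit 8) (.ev
 (nat_lit 3997) (nat_lit 512) .dd)))))))))) (.br (nat_lit 4) (.ch (nat_lit 2) (.ev (nat_lit 1328) (nat_lit 576)
 (.fin (nat_lit 576463501085065769)))) (.br (nat_lit 5) (.ch (nat_lit 4) (.ev (nat_lit 1328) (nat_lit 520) (.ev
 (nat_lit 3780) (nat_lit 64) (.ev (nat_lit 3789) (nat_lit 16) .dd)))) (.ch (nat_lit 5) (.ev (nat_lit 1328)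
 (nat_lit 24) (.ev (nat_lit 3764) (nat_lit 512) (.ev (nat_lit 3773) (nat_lit 64) .dd))))))))))))))) (.ch
 (nat_lit 5) (.ev (nat_lit 336) (nat_lit 832) (.nd (nat_lit 896) (.br (nat_lit 4) (.br (nat_lit 3) (.ch
 (nat_lit 2) (.nd (nat_lit 2304) (.br (nat_lit 4) (.ch (nat_lit 0) (.fin (nat_lit 576456904092893729))) (.ch
 (nat_lit 4) (.ev (nat_lit 2320) (nat_lit 8) (.ev (nat_lit 2333) (nat_lit 16) .dd)))))) (.ch (nat_lit 3) (.fin
 (nat_lit 576567954814484947)))) (.br (nat_lit 5) (.ch (nat_lit 4) (.ev (nat_lit 912) (nat_lit 8) (.ev (nat_lit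
 925) (nat_lit 16) .dd))) (.ch (nat_lit 5) (.ev (nat_lit 1252) (nat_lit 16) (.ev (nat_lit 1261) (nat_lit 8)
 .dd))))))))))))))) (.br (nat_lit 5) (.ch (nat_lit 4) (.ev (nat_lit 112) (nat_lit 280) (.nd (nat_lit 400) (.br
 (nat_lit 5) (.br (nat_lit 4) (.ch (nat_lit 3) (.nd (nat_lit 832) (.br (nat_lit 4) (.br (nat_lit 2) (.ch
 (nat_lit 1) (.ev (nat_lit 848) (nat_lit 512) (.nd (nat_lit 2832) (.ch (nat_lit 0) (.fin (nat_lit
 576359047594721642)))))) (.ch (nat_lit 2) (.ev (nat_lit 848) (nat_lit 512) (.ev (nat_lit 1268) (nat_lit 4)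
 (.ev (nat_lit 1277) (nat_lit 64) .dd))))) (.br (nat_lit 6) (.ch (nat_lit 4) (.nd (nat_lit 1744) (.br (nat_lit
 5) (.br (nat_lit 2) (.ch (nat_lit 1) (.ev (nat_lit 1760) (nat_lit 64) (.fin (nat_lit 576439311791506043))))
 (.ch (nat_lit 2) (.ev (nat_lit 1760) (nat_lit 4) (.ev (nat_lit 3556) (nat_lit 64) (.ev (nat_lit 3565) (nat_lit
 512) .dd))))) (.br (nat_lit 6) (.ch (nat_lit 5) (.ev (nat_lit 1760) (nat_lit 4) (.fin (nat_lit
 575616877639188542)))) (.ch (nat_lit 6) (.ev (nat_lit 1760) (nat_lit 4) (.ev (nat_lit 3044) (nat_lit 512) (.ev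
 (nat_lit 3053) (nat_lit 64) .dd)))))))) (.ch (nat_lit 6) (.ev (nat_lit 848) (nat_lit 4) (.ev (nat_lit 1252)
 (nat_lit 64) (.ev (nat_lit 1261) (nat_lit 512) .dd)))))))) (.ch (nat_lit 4) (.ev (nat_lit 416) (nat_lit 64)
 (.nd (nat_lit 768) (.br (nat_lit 5) (.ch (nat_lit 1) (.nd (nat_lit 2144) (.br (nat_lit 6) (.ch (nat_lit 3)
 (.fin (nat_lit 576368943068299848))) (.ch (nat_lit 6) (.ev (nat_lit 2180) (nat_lit 512) (.ev (nat_lit 2189)
 (nat_lit 4) .dd)))))) (.ch (nat_lit 5) (.nd (nat_lit 2304) (.br (nat_lit 6) (.ch (nat_lit 1) (.ev (nat_lit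
 2516) (nat_lit 512) (.ev (nat_lit 2525) (nat_lit 4) .dd))) (.ch (nat_lit 6) (.ev (nat_lit 2516) (nat_lit 512)
 (.ev (nat_lit 2525) (nat_lit 4) .dd))))))))))) (.br (nat_lit 6) (.ch (nat_lit 5) (.ev (nat_lit 416) (nat_lit
 512) (.nd (nat_lit 992) (.br (nat_lit 3) (.ch (nat_lit 0) (.nd (nat_lit 2832) (.br (nat_lit 2) (.ch (nat_lit
 0) (.fin (nat_lit 576455804502622790))) (.ch (nat_lit 2) (.ev (nat_lit 2868) (nat_lit 64) (.ev (nat_lit 2877)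
 (nat_lit 4) .dd)))))) (.ch (nat_lit 3) (.ev (nat_lit 1348) (nat_lit 64) (.ev (nat_lit 1357) (nat_lit 4)
 .dd))))))) (.ch (nat_lit 6) (.nd (nat_lit 768) (.br (nat_lit 3) (.br (nat_lit 2) (.ch (nat_lit 0) (.ev
 (nat_lit 1348) (nat_lit 64) (.nd (nat_lit 1584) (.br (nat_lit 1) (.ch (nat_lit 0) (.ev (nat_lit 2196) (nat_lit
 512) (.ev (nat_lit 2205) (nat_lit 4) .dd))) (.br (nat_lit 4) (.ch (nat_lit 1) (.fin (nat_lit
 576472297155019337))) (.ch (nat_lit 4) (.ev (nat_lit 3972) (nat_lit 512) (.ev (nat_lit 3981) (nat_lit 4)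
 .dd)))))))) (.ch (nat_lit 2) (.ev (nat_lit 784) (nat_lit 64) (.ev (nat_lit 4196) (nat_lit 512) (.ev (nat_lit
 4205) (nat_lit 4) .dd))))) (.br (nat_lit 5) (.ch (nat_lit 3) (.ev (nat_lit 784) (nat_lit 64) (.ev (nat_lit
 804) (nat_lit 4) (.ev (nat_lit 813) (nat_lit 512) .dd)))) (.ch (nat_lit 5) (.nd (nat_lit 1520) (.br (nat_lit
 3) (.ch (nat_lit 0) (.ev (nat_lit 2900) (nat_lit 64) (.ev (nat_lit 4292) (nat_lit 4) (.ev (nat_lit 4301)
 (nat_lit 512) .dd)))) (.br (nat_lit 4) (.ch (nat_lit 3) (.nd (nat_lit 3216) (.br (nat_lit 4) (.ch (nat_lit 3)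
 (.ev (nat_lit 3232) (nat_lit 512) (.ev (nat_lit 4196) (nat_lit 64) (.ev (nat_lit 4205) (nat_lit 4) .dd))))
 (.ch (nat_lit 4) (.ev (nat_lit 3232) (nat_lit 64) (.fin (nat_lit 576184225890778966))))))) (.ch (nat_lit 4)
 (.ev (nat_lit 1536) (nat_lit 64) (.ev (nat_lit 4272) (nat_lit 516) .dd)))))))))))))))) (.br (nat_lit 6) (.ch
 (nat_lit 5) (.ev (nat_lit 112) (nat_lit 580) (.nd (nat_lit 400) (.br (nat_lit 3) (.br (nat_lit 1) (.ch
 (nat_lit 0) (.ev (nat_lit 416) (nat_lit 16) (.nd (nat_lit 720) (.br (nat_lit 3) (.br (nat_lit 2) (.ch (nat_lit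
 0) (.fin (nat_lit 576407426008826415))) (.ch (nat_lit 2) (.nd (nat_lit 2592) (.br (nat_lit 6) (.ch (nat_lit 5)
 (.ev (nat_lit 2628) (nat_lit 8) (.ev (nat_lit 2637) (nat_lit 256) .dd))) (.ch (nat_lit 6) (.ev (nat_lit 2608)
 (nat_lit 256) (.ev (nat_lit 2621) (nat_lit 8) .dd))))))) (.br (nat_lit 4) (.ch (nat_lit 3) (.nd (nat_lit 2832)
 (.br (nat_lit 4) (.ch (nat_lit 3) (.ev (nat_lit 2868) (nat_lit 8) (.ev (nat_lit 2877) (nat_lit 256) .dd)))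
 (.ch (nat_lit 4) (.fin (nat_lit 576459103046943309)))))) (.ch (nat_lit 4) (.ev (nat_lit 932) (nat_lit 256)
 (.ev (nat_lit 941) (nat_lit 8) .dd)))))))) (.ch (nat_lit 1) (.nd (nat_lit 896) (.br (nat_lit 5) (.br (nat_lit
 4) (.ch (nat_lit 3) (.ev (nat_lit 912) (nat_lit 16) (.ev (nat_lit 1376) (nat_lit 256) (.ev (nat_lit 1389)
 (nat_lit 8) .dd)))) (.ch (nat_lit 4) (.ev (nat_lit 912) (nat_lit 256) (.nd (nat_lit 2000) (.br (nat_lit 5)
 (.ch (nat_lit 3) (.ev (nat_lit 2276) (nat_lit 8) (.ev (nat_lit 2285) (nat_lit 16) .dd))) (.ch (nat_lit 5)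
 (.fin (nat_lit 576462401578680879)))))))) (.br (nat_lit 6) (.ch (nat_lit 5) (.ev (nat_lit 1428) (nat_lit 256)
 (.nd (nat_lit 2000) (.br (nat_lit 4) (.ch (nat_lit 1) (.ev (nat_lit 2036) (nat_lit 8) (.ev (nat_lit 2045)
 (nat_lit 16) .dd))) (.br (nat_lit 6) (.ch (nat_lit 4) (.nd (nat_lit 4448) (.br (nat_lit 4) (.ch (nat_lit 1)
 (.ev (nat_lit 4708) (nat_lit 16) (.ev (nat_lit 4717) (nat_lit 8) .dd))) (.ch (nat_lit 4) (.ev (nat_lit 4512)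
 (nat_lit 8) (.ev (nat_lit 4525) (nat_lit 16) .dd)))))) (.ch (nat_lit 6) (.ev (nat_lit 2036) (nat_lit 8) (.ev
 (nat_lit 2045) (nat_lit 16) .dd)))))))) (.ch (nat_lit 6) (.ev (nat_lit 912) (nat_lit 16) (.nd (nat_lit 2304)
 (.br (nat_lit 5) (.ch (nat_lit 2) (.ev (nat_lit 2868) (nat_lit 256) (.ev (nat_lit 2877) (nat_lit 8) .dd)))
 (.ch (nat_lit 5) (.ev (nat_lit 2880) (nat_lit 8) (.ev (nat_lit 2893) (nat_lit 256) .dd)))))))))))) (.br
 (nat_lit 4) (.ch (nat_lit 3) (.nd (nat_lit 720) (.br (nat_lit 2) (.br (nat_lit 1) (.ch (nat_lit 0) (.ev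
 (nat_lit 1188) (nat_lit 16) (.nd (nat_lit 2832) (.br (nat_lit 2) (.ch (nat_lit 0) (.ev (nat_lit 2848) (nat_lit
 8) (.ev (nat_lit 2861) (nat_lit 256) .dd))) (.br (nat_lit 5) (.ch (nat_lit 2) (.fin (nat_lit
 576365644654002531))) (.ch (nat_lit 5) (.ev (nat_lit 2848) (nat_lit 256) (.ev (nat_lit 2861) (nat_lit 8)
 .dd)))))))) (.ch (nat_lit 1) (.ev (nat_lit 736) (nat_lit 8) (.ev (nat_lit 932) (nat_lit 16) (.ev (nat_lit 941)
 (nat_lit 256) .dd))))) (.br (nat_lit 6) (.ch (nat_lit 2) (.ev (nat_lit 1028) (nat_lit 256) (.nd (nat_lit 2592)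
 (.br (nat_lit 6) (.ch (nat_lit 2) (.ev (nat_lit 2608) (nat_lit 8) (.ev (nat_lit 2621) (nat_lit 16) .dd))) (.ch
 (nat_lit 6) (.ev (nat_lit 2628) (nat_lit 16) (.ev (nat_lit 2637) (nat_lit 8) .dd))))))) (.ch (nat_lit 6) (.ev
 (nat_lit 1028) (nat_lit 256) (.ev (nat_lit 1460) (nat_lit 16) (.ev (nat_lit 1469) (nat_lit 8) .dd)))))))) (.ch
 (nat_lit 4) (.nd (nat_lit 720) (.br (nat_lit 2) (.br (nat_lit 1) (.ch (nat_lit 0) (.nd (nat_lit 1584) (.br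
 (nat_lit 4) (.br (nat_lit 3) (.ch (nat_lit 0) (.ev (nat_lit 1876) (nat_lit 8) (.ev (nat_lit 2036) (nat_lit
 256) (.ev (nat_lit 2045) (nat_lit 16) .dd)))) (.ch (nat_lit 3) (.nd (nat_lit 3216) (.br (nat_lit 3) (.ch
 (nat_lit 2) (.ev (nat_lit 3252) (nat_lit 16) (.ev (nat_lit 3860) (nat_lit 8) (.ev (nat_lit 3869) (nat_lit 256)
 .dd)))) (.br (nat_lit 4) (.ch (nat_lit 3) (.ev (nat_lit 4020) (nat_lit 16) (.ev (nat_lit 4068) (nat_lit 256)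
 (.ev (nat_lit 4077) (nat_lit 8) .dd)))) (.ch (nat_lit 4) (.ev (nat_lit 3232) (nat_lit 256) (.fin (nat_lit
 576450306962309789))))))))) (.br (nat_lit 5) (.ch (nat_lit 4) (.ev (nat_lit 1636) (nat_lit 8) (.ev (nat_lit
 2036) (nat_lit 256) (.ev (nat_lit 2045) (nat_lit 16) .dd)))) (.ch (nat_lit 5) (.ev (nat_lit 1600) (nat_lit 16)
 (.ev (nat_lit 2452) (nat_lit 256) (.ev (nat_lit 2461) (nat_lit 8) .dd)))))))) (.ch (nat_lit 1) (.ev (nat_lit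
 736) (nat_lit 16) (.nd (nat_lit 2144) (.br (nat_lit 2) (.ch (nat_lit 1) (.ev (nat_lit 2180) (nat_lit 8) (.ev
 (nat_lit 2189) (nat_lit 256) .dd))) (.ch (nat_lit 2) (.ev (nat_lit 3924) (nat_lit 8) (.ev (nat_lit 3933)
 (nat_lit 256) .dd)))))))) (.br (nat_lit 4) (.ch (nat_lit 2) (.nd (nat_lit 1584) (.br (nat_lit 3) (.br (nat_lit
 1) (.ch (nat_lit 0) (.ev (nat_lit 1600) (nat_lit 8) (.ev (nat_lit 1636) (nat_lit 16) (.ev (nat_lit 1645)
 (nat_lit 256) .dd)))) (.ch (nat_lit 1) (.ev (nat_lit 2052) (nat_lit 8) (.ev (nat_lit 4176) (nat_lit 272)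
 .dd)))) (.br (nat_lit 5) (.ch (nat_lit 3) (.ev (nat_lit 1600) (nat_lit 16) (.ev (nat_lit 4128) (nat_lit 264)
 .dd))) (.ch (nat_lit 5) (.ev (nat_lit 1600) (nat_lit 8) (.nd (nat_lit 4624) (.ch (nat_lit 5) (.fin (nat_lit
 576804349976987222)))))))))) (.ch (nat_lit 4) (.ev (nat_lit 736) (nat_lit 16) (.ev (nat_lit 868) (nat_lit 256)
 (.ev (nat_lit 877) (nat_lit 8) .dd))))))))))))) (.ch (nat_lit 6) (.ev (nat_lit 112) (nat_lit 8) (.nd (nat_lit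
 320) (.br (nat_lit 2) (.br (nat_lit 1) (.ch (nat_lit 0) (.ev (nat_lit 336) (nat_lit 64) (.nd (nat_lit 624)
 (.br (nat_lit 3) (.br (nat_lit 2) (.ch (nat_lit 0) (.ev (nat_lit 640) (nat_lit 256) (.nd (nat_lit 2000) (.br
 (nat_lit 4) (.br (nat_lit 2) (.ch (nat_lit 1) (.ev (nat_lit 2016) (nat_lit 4) (.fin (nat_lit
 576465700110418498)))) (.ch (nat_lit 2) (.ev (nat_lit 2016) (nat_lit 16) (.ev (nat_lit 3908) (nat_lit 512)
 (.ev (nat_lit 3917) (nat_lit 4) .dd))))) (.br (nat_lit 5) (.ch (nat_lit 4) (.ev (nat_lit 2016) (nat_lit 4)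
 (.ev (nat_lit 3140) (nat_lit 512) (.ev (nat_lit 3149) (nat_lit 16) .dd)))) (.ch (nat_lit 5) (.ev (nat_lit
 2016) (nat_lit 512) (.ev (nat_lit 2036) (nat_lit 16) (.ev (nat_lit 2045) (nat_lit 4) .dd))))))))) (.ch
 (nat_lit 2) (.ev (nat_lit 640) (nat_lit 516) (.nd (nat_lit 1744) (.br (nat_lit 4) (.ch (nat_lit 3) (.ev
 (nat_lit 1796) (nat_lit 256) (.ev (nat_lit 1805) (nat_lit 16) .dd))) (.br (nat_lit 5) (.ch (nat_lit 4) (.fin
 (nat_lit 576511879514899069))) (.ch (nat_lit 5) (.ev (nat_lit 1760) (nat_lit 16) (.ev (nat_lit 1773) (nat_lit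
 256) .dd))))))))) (.br (nat_lit 4) (.ch (nat_lit 3) (.nd (nat_lit 1584) (.br (nat_lit 2) (.br (nat_lit 1) (.ch
 (nat_lit 0) (.nd (nat_lit 3168) (.br (nat_lit 4) (.br (nat_lit 3) (.ch (nat_lit 2) (.ev (nat_lit 3184)
 (nat_lit 528) (.ev (nat_lit 3844) (nat_lit 256) (.ev (nat_lit 3853) (nat_lit 4) .dd)))) (.ch (nat_lit 3) (.ev
 (nat_lit 3184) (nat_lit 256) (.ev (nat_lit 3392) (nat_lit 16) (.fin (nat_lit 576516277555118679)))))) (.br
 (nat_lit 6) (.ch (nat_lit 4) (.ev (nat_lit 3184) (nat_lit 20) (.ev (nat_lit 4356) (nat_lit 512) (.ev (nat_lit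
 4365) (nat_lit 256) .dd)))) (.ch (nat_lit 6) (.ev (nat_lit 3184) (nat_lit 768) (.ev (nat_lit 4084) (nat_lit 4)
 (.ev (nat_lit 4093) (nat_lit 16) .dd)))))))) (.ch (nat_lit 1) (.ev (nat_lit 1664) (nat_lit 256) (.ev (nat_lit
 1780) (nat_lit 512) (.ev (nat_lit 2484) (nat_lit 4) (.ev (nat_lit 2493) (nat_lit 16) .dd)))))) (.br (nat_lit
 4) (.ch (nat_lit 2) (.ev (nat_lit 1600) (nat_lit 272) (.ev (nat_lit 1860) (nat_lit 512) (.ev (nat_lit 1869)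
 (nat_lit 4) .dd)))) (.br (nat_lit 5) (.ch (nat_lit 4) (.ev (nat_lit 1600) (nat_lit 528) (.ev (nat_lit 1616)
 (nat_lit 260) .dd))) (.ch (nat_lit 5) (.ev (nat_lit 1600) (nat_lit 516) (.ev (nat_lit 1636) (nat_lit 16) (.ev
 (nat_lit 1645) (nat_lit 256) .dd))))))))) (.br (nat_lit 5) (.ch (nat_lit 4) (.ev (nat_lit 640) (nat_lit 272)
 (.nd (nat_lit 1584) (.br (nat_lit 4) (.ch (nat_lit 3) (.ev (nat_lit 2036) (nat_lit 512) (.ev (nat_lit 2045)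
 (nat_lit 4) .dd))) (.ch (nat_lit 4) (.ev (nat_lit 4196) (nat_lit 4) (.ev (nat_lit 4205) (nat_lit 512)
 .dd))))))) (.ch (nat_lit 5) (.ev (nat_lit 640) (nat_lit 512) (.ev (nat_lit 884) (nat_lit 4) (.ev (nat_lit
 1220) (nat_lit 256) (.ev (nat_lit 1229) (nat_lit 16) .dd))))))))))) (.ch (nat_lit 1) (.ev (nat_lit 336)
 (nat_lit 836) (.ev (nat_lit 349) (nat_lit 16) .dd)))) (.br (nat_lit 3) (.ch (nat_lit 2) (.ev (nat_lit 336)
 (nat_lit 256) (.ev (nat_lit 612) (nat_lit 64) (.nd (nat_lit 832) (.br (nat_lit 3) (.br (nat_lit 2) (.ch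
 (nat_lit 1) (.ev (nat_lit 848) (nat_lit 516) (.ev (nat_lit 861) (nat_lit 16) .dd))) (.ch (nat_lit 2) (.nd
 (nat_lit 1584) (.br (nat_lit 3) (.br (nat_lit 2) (.ch (nat_lit 1) (.ev (nat_lit 1600) (nat_lit 4) (.ev
 (nat_lit 2212) (nat_lit 16) (.ev (nat_lit 2221) (nat_lit 512) .dd)))) (.ch (nat_lit 2) (.ev (nat_lit 1600)
 (nat_lit 512) (.ev (nat_lit 2260) (nat_lit 16) (.ev (nat_lit 2269) (nat_lit 4) .dd))))) (.br (nat_lit 4) (.ch
 (nat_lit 3) (.ev (nat_lit 1600) (nat_lit 16) (.fin (nat_lit 576466799602123338)))) (.ch (nat_lit 4) (.ev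
 (nat_lit 1600) (nat_lit 516) (.ev (nat_lit 1613) (nat_lit 16) .dd)))))))) (.br (nat_lit 5) (.ch (nat_lit 3)
 (.nd (nat_lit 1520) (.br (nat_lit 2) (.br (nat_lit 1) (.ch (nat_lit 0) (.ev (nat_lit 1536) (nat_lit 512) (.ev
 (nat_lit 2900) (nat_lit 4) (.ev (nat_lit 2909) (nat_lit 16) .dd)))) (.ch (nat_lit 1) (.ev (nat_lit 1536)
 (nat_lit 4) (.nd (nat_lit 3216) (.br (nat_lit 1) (.ch (nat_lit 0) (.ev (nat_lit 4208) (nat_lit 528) .dd)) (.br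
 (nat_lit 6) (.ch (nat_lit 1) (.ev (nat_lit 3232) (nat_lit 512) (.ev (nat_lit 3245) (nat_lit 16) .dd))) (.ch
 (nat_lit 6) (.ev (nat_lit 4324) (nat_lit 512) (.ev (nat_lit 4333) (nat_lit 16) .dd))))))))) (.br (nat_lit 5)
 (.ch (nat_lit 2) (.ev (nat_lit 1536) (nat_lit 512) (.ev (nat_lit 2900) (nat_lit 4) (.ev (nat_lit 2909)
 (nat_lit 16) .dd)))) (.ch (nat_lit 5) (.ev (nat_lit 1536) (nat_lit 4) (.nd (nat_lit 3168) (.br (nat_lit 4)
 (.ch (nat_lit 1) (.ev (nat_lit 3184) (nat_lit 512) (.ev (nat_lit 3197) (nat_lit 16) .dd))) (.ch (nat_lit 4)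
 (.fin (nat_lit 576426117744247267))))))))))) (.br (nat_lit 6) (.ch (nat_lit 5) (.ev (nat_lit 848) (nat_lit 16)
 (.ev (nat_lit 1396) (nat_lit 4) (.ev (nat_lit 1405) (nat_lit 512) .dd)))) (.ch (nat_lit 6) (.ev (nat_lit 848)
 (nat_lit 512) (.nd (nat_lit 1520) (.br (nat_lit 4) (.br (nat_lit 2) (.ch (nat_lit 1) (.ev (nat_lit 1536)
 (nat_lit 4) (.ev (nat_lit 1549) (nat_lit 16) .dd))) (.ch (nat_lit 2) (.ev (nat_lit 1536) (nat_lit 4) (.ev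
 (nat_lit 1549) (nat_lit 16) .dd)))) (.br (nat_lit 5) (.ch (nat_lit 4) (.nd (nat_lit 4384) (.br (nat_lit 2)
 (.ch (nat_lit 0) (.ev (nat_lit 4532) (nat_lit 4) (.ev (nat_lit 4541) (nat_lit 16) .dd))) (.ch (nat_lit 2) (.ev
 (nat_lit 4724) (nat_lit 4) (.ev (nat_lit 4733) (nat_lit 16) .dd)))))) (.br (nat_lit 6) (.ch (nat_lit 5) (.ev
 (nat_lit 1664) (nat_lit 16) (.ev (nat_lit 1677) (nat_lit 4) .dd))) (.ch (nat_lit 6) (.ev (nat_lit 1536)
 (nat_lit 16) (.ev (nat_lit 1549) (nat_lit 4) .dd)))))))))))))))) (.br (nat_lit 5) (.ch (nat_lit 3) (.ev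
 (nat_lit 336) (nat_lit 16) (.nd (nat_lit 624) (.br (nat_lit 5) (.br (nat_lit 4) (.ch (nat_lit 0) (.ev (nat_lit
 932) (nat_lit 64) (.ev (nat_lit 1476) (nat_lit 4) (.nd (nat_lit 1584) (.br (nat_lit 3) (.ch (nat_lit 0) (.ev
 (nat_lit 1600) (nat_lit 512) (.ev (nat_lit 1613) (nat_lit 256) .dd))) (.br (nat_lit 5) (.ch (nat_lit 3) (.ev
 (nat_lit 1716) (nat_lit 512) (.ev (nat_lit 1725) (nat_lit 256) .dd))) (.ch (nat_lit 5) (.nd (nat_lit 4448)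
 (.br (nat_lit 3) (.ch (nat_lit 0) (.fin (nat_lit 576473396718027326))) (.ch (nat_lit 3) (.ev (nat_lit 4756)
 (nat_lit 512) (.ev (nat_lit 4765) (nat_lit 256) .dd)))))))))))) (.ch (nat_lit 4) (.ev (nat_lit 804) (nat_lit
 256) (.ev (nat_lit 932) (nat_lit 64) (.nd (nat_lit 1744) (.br (nat_lit 3) (.ch (nat_lit 1) (.ev (nat_lit 1760)
 (nat_lit 512) (.ev (nat_lit 1773) (nat_lit 4) .dd))) (.br (nat_lit 5) (.ch (nat_lit 3) (.fin (nat_lit
 576508581280956946))) (.ch (nat_lit 5) (.ev (nat_lit 1760) (nat_lit 4) (.ev (nat_lit 1773) (nat_lit 512)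
 .dd)))))))))) (.br (nat_lit 6) (.ch (nat_lit 5) (.ev (nat_lit 640) (nat_lit 512) (.nd (nat_lit 1312) (.br
 (nat_lit 4) (.ch (nat_lit 2) (.ev (nat_lit 2660) (nat_lit 4) (.ev (nat_lit 3844) (nat_lit 256) (.ev (nat_lit
 3853) (nat_lit 64) .dd)))) (.br (nat_lit 6) (.ch (nat_lit 4) (.ev (nat_lit 1328) (nat_lit 4) (.ev (nat_lit
 1572) (nat_lit 256) (.ev (nat_lit 1581) (nat_lit 64) .dd)))) (.ch (nat_lit 6) (.ev (nat_lit 1328) (nat_lit 4)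
 (.ev (nat_lit 2180) (nat_lit 64) (.ev (nat_lit 2189) (nat_lit 256) .dd))))))))) (.ch (nat_lit 6) (.ev (nat_lit
 640) (nat_lit 4) (.nd (nat_lit 1520) (.br (nat_lit 4) (.ch (nat_lit 1) (.ev (nat_lit 1536) (nat_lit 256) (.nd
 (nat_lit 3216) (.br (nat_lit 6) (.ch (nat_lit 2) (.ev (nat_lit 3412) (nat_lit 512) (.ev (nat_lit 3421)
 (nat_lit 64) .dd))) (.ch (nat_lit 6) (.ev (nat_lit 3252) (nat_lit 512) (.ev (nat_lit 3261) (nat_lit 64)
 .dd))))))) (.br (nat_lit 6) (.ch (nat_lit 4) (.ev (nat_lit 2532) (nat_lit 64) (.nd (nat_lit 3216) (.br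
 (nat_lit 5) (.ch (nat_lit 2) (.ev (nat_lit 3232) (nat_lit 512) (.ev (nat_lit 3245) (nat_lit 256) .dd))) (.br
 (nat_lit 6) (.ch (nat_lit 5) (.nd (nat_lit 5744) (.ch (nat_lit 0) (.nd (nat_lit 6176) (.br (nat_lit 4) (.ch
 (nat_lit 0) (.fin (nat_lit 576654815997149938))) (.ch (nat_lit 4) (.ev (nat_lit 6192) (nat_lit 256) (.ev
 (nat_lit 6205) (nat_lit 512) .dd)))))))) (.ch (nat_lit 6) (.ev (nat_lit 3232) (nat_lit 256) (.ev (nat_lit
 3245) (nat_lit 512) .dd)))))))) (.ch (nat_lit 6) (.ev (nat_lit 1536) (nat_lit 512) (.nd (nat_lit 3216) (.br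
 (nat_lit 6) (.ch (nat_lit 4) (.ev (nat_lit 4292) (nat_lit 256) (.ev (nat_lit 4301) (nat_lit 64) .dd))) (.ch
 (nat_lit 6) (.fin (nat_lit 576478894237368925))))))))))))))))) (.ch (nat_lit 5) (.ev (nat_lit 336) (nat_lit
 256) (.nd (nat_lit 624) (.br (nat_lit 3) (.br (nat_lit 2) (.ch (nat_lit 1) (.ev (nat_lit 640) (nat_lit 80)
 (.fin (nat_lit 576515178148348512)))) (.ch (nat_lit 2) (.ev (nat_lit 640) (nat_lit 64) (.ev (nat_lit 660)
 (nat_lit 512) (.nd (nat_lit 2304) (.br (nat_lit 6) (.ch (nat_lit 3) (.ev (nat_lit 2628) (nat_lit 4) (.ev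
 (nat_lit 2637) (nat_lit 16) .dd))) (.ch (nat_lit 6) (.ev (nat_lit 2320) (nat_lit 16) (.ev (nat_lit 2333)
 (nat_lit 4) .dd))))))))) (.br (nat_lit 5) (.ch (nat_lit 3) (.ev (nat_lit 640) (nat_lit 64) (.ev (nat_lit 756)
 (nat_lit 16) (.ev (nat_lit 948) (nat_lit 4) (.ev (nat_lit 957) (nat_lit 512) .dd))))) (.br (nat_lit 6) (.ch
 (nat_lit 5) (.ev (nat_lit 640) (nat_lit 516) (.nd (nat_lit 2592) (.br (nat_lit 4) (.br (nat_lit 2) (.ch
 (nat_lit 1) (.ev (nat_lit 2628) (nat_lit 16) (.ev (nat_lit 2637) (nat_lit 64) .dd))) (.ch (nat_lit 2) (.ev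
 (nat_lit 2608) (nat_lit 16) (.ev (nat_lit 2621) (nat_lit 64) .dd)))) (.br (nat_lit 6) (.ch (nat_lit 4) (.ev
 (nat_lit 4228) (nat_lit 16) (.ev (nat_lit 4237) (nat_lit 64) .dd))) (.ch (nat_lit 6) (.ev (nat_lit 2628)
 (nat_lit 16) (.ev (nat_lit 2637) (nat_lit 64) .dd)))))))) (.ch (nat_lit 6) (.ev (nat_lit 640) (nat_lit 16)
 (.ev (nat_lit 692) (nat_lit 512) (.nd (nat_lit 2592) (.br (nat_lit 3) (.br (nat_lit 2) (.ch (nat_lit 0) (.fin
 (nat_lit 576450306956018241))) (.ch (nat_lit 2) (.ev (nat_lit 2608) (nat_lit 4) (.ev (nat_lit 2621) (nat_lit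
 64) .dd)))) (.br (nat_lit 6) (.ch (nat_lit 3) (.ev (nat_lit 2608) (nat_lit 64) (.ev (nat_lit 2621) (nat_lit 4)
 .dd))) (.ch (nat_lit 6) (.ev (nat_lit 2608) (nat_lit 4) (.ev (nat_lit 2621) (nat_lit 64)
 .dd))))))))))))))))))))))))))) (.ch (nat_lit 1) (.ev (nat_lit 48) (nat_lit 8) (.nd (nat_lit 64) (.br (nat_lit
 3) (.br (nat_lit 1) (.ch (nat_lit 0) (.ev (nat_lit 80) (nat_lit 404) (.nd (nat_lit 576) (.br (nat_lit 4) (.br
 (nat_lit 3) (.ch (nat_lit 1) (.ev (nat_lit 592) (nat_lit 512) (.ev (nat_lit 605) (nat_lit 64) .dd))) (.ch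
 (nat_lit 3) (.nd (nat_lit 1104) (.br (nat_lit 4) (.br (nat_lit 1) (.ch (nat_lit 0) (.ev (nat_lit 1120)
 (nat_lit 64) (.ev (nat_lit 1133) (nat_lit 512) .dd))) (.ch (nat_lit 1) (.ev (nat_lit 1348) (nat_lit 64) (.ev
 (nat_lit 1357) (nat_lit 512) .dd)))) (.br (nat_lit 5) (.ch (nat_lit 4) (.nd (nat_lit 3072) (.br (nat_lit 5)
 (.ch (nat_lit 1) (.ev (nat_lit 3108) (nat_lit 64) (.ev (nat_lit 3117) (nat_lit 512) .dd))) (.ch (nat_lit 5)
 (.fin (nat_lit 576414023032455740)))))) (.ch (nat_lit 5) (.ev (nat_lit 1120) (nat_lit 64) (.ev (nat_lit 1133)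
 (nat_lit 512) .dd)))))))) (.br (nat_lit 6) (.ch (nat_lit 4) (.nd (nat_lit 1104) (.br (nat_lit 4) (.br (nat_lit
 3) (.ch (nat_lit 0) (.ev (nat_lit 1348) (nat_lit 64) (.ev (nat_lit 1357) (nat_lit 512) .dd))) (.ch (nat_lit 3)
 (.nd (nat_lit 2592) (.br (nat_lit 4) (.ch (nat_lit 3) (.ev (nat_lit 2708) (nat_lit 512) (.ev (nat_lit 2717)
 (nat_lit 64) .dd))) (.br (nat_lit 5) (.ch (nat_lit 4) (.ev (nat_lit 2708) (nat_lit 512) (.ev (nat_lit 2717)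
 (nat_lit 64) .dd))) (.ch (nat_lit 5) (.ev (nat_lit 2708) (nat_lit 512) (.ev (nat_lit 2717) (nat_lit 64)
 .dd)))))))) (.br (nat_lit 6) (.ch (nat_lit 4) (.ev (nat_lit 1120) (nat_lit 512) (.ev (nat_lit 1133) (nat_lit
 64) .dd))) (.ch (nat_lit 6) (.ev (nat_lit 1120) (nat_lit 512) (.ev (nat_lit 1133) (nat_lit 64) .dd))))))) (.ch
 (nat_lit 6) (.ev (nat_lit 592) (nat_lit 64) (.ev (nat_lit 605) (nat_lit 512) .dd)))))))) (.ch (nat_lit 1) (.ev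
 (nat_lit 80) (nat_lit 16) (.nd (nat_lit 352) (.br (nat_lit 2) (.br (nat_lit 1) (.ch (nat_lit 0) (.ev (nat_lit
 368) (nat_lit 704) (.nd (nat_lit 720) (.br (nat_lit 3) (.br (nat_lit 1) (.ch (nat_lit 0) (.nd (nat_lit 2592)
 (.br (nat_lit 3) (.ch (nat_lit 0) (.ev (nat_lit 2608) (nat_lit 4) (.ev (nat_lit 2621) (nat_lit 256) .dd)))
 (.br (nat_lit 4) (.ch (nat_lit 3) (.ev (nat_lit 4196) (nat_lit 4) (.ev (nat_lit 4205) (nat_lit 256) .dd)))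
 (.ch (nat_lit 4) (.ev (nat_lit 2608) (nat_lit 4) (.ev (nat_lit 2621) (nat_lit 256) .dd))))))) (.ch (nat_lit 1)
 (.nd (nat_lit 2144) (.br (nat_lit 5) (.ch (nat_lit 4) (.ev (nat_lit 2660) (nat_lit 256) (.ev (nat_lit 2669)
 (nat_lit 4) .dd))) (.ch (nat_lit 5) (.ev (nat_lit 2160) (nat_lit 256) (.ev (nat_lit 2173) (nat_lit 4)
 .dd))))))) (.br (nat_lit 5) (.ch (nat_lit 3) (.ev (nat_lit 736) (nat_lit 4) (.ev (nat_lit 749) (nat_lit 256)
 .dd))) (.ch (nat_lit 5) (.ev (nat_lit 736) (nat_lit 256) (.ev (nat_lit 749) (nat_lit 4) .dd)))))))) (.ch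
 (nat_lit 1) (.ev (nat_lit 612) (nat_lit 64) (.nd (nat_lit 768) (.br (nat_lit 4) (.br (nat_lit 2) (.ch (nat_lit
 1) (.ev (nat_lit 784) (nat_lit 260) (.nd (nat_lit 1520) (.br (nat_lit 4) (.ch (nat_lit 2) (.ev (nat_lit 1780)
 (nat_lit 512) (.ev (nat_lit 1789) (nat_lit 128) .dd))) (.ch (nat_lit 4) (.fin (nat_lit
 576589945036555022))))))) (.ch (nat_lit 2) (.ev (nat_lit 784) (nat_lit 512) (.ev (nat_lit 868) (nat_lit 256)
 (.nd (nat_lit 1584) (.br (nat_lit 4) (.br (nat_lit 1) (.ch (nat_lit 0) (.ev (nat_lit 1600) (nat_lit 132) .dd))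
 (.ch (nat_lit 1) (.ev (nat_lit 1600) (nat_lit 4) (.ev (nat_lit 1613) (nat_lit 128) .dd)))) (.br (nat_lit 6)
 (.ch (nat_lit 4) (.ev (nat_lit 1600) (nat_lit 128) (.ev (nat_lit 1613) (nat_lit 4) .dd))) (.ch (nat_lit 6)
 (.ev (nat_lit 1600) (nat_lit 128) (.ev (nat_lit 1613) (nat_lit 4) .dd)))))))))) (.br (nat_lit 5) (.ch (nat_lit
 4) (.ev (nat_lit 784) (nat_lit 640) (.nd (nat_lit 1744) (.br (nat_lit 5) (.br (nat_lit 2) (.ch (nat_lit 1)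
 (.ev (nat_lit 2244) (nat_lit 4) (.ev (nat_lit 2253) (nat_lit 256) .dd))) (.ch (nat_lit 2) (.ev (nat_lit 1760)
 (nat_lit 256) (.ev (nat_lit 1773) (nat_lit 4) .dd)))) (.br (nat_lit 6) (.ch (nat_lit 5) (.ev (nat_lit 1760)
 (nat_lit 4) (.ev (nat_lit 1773) (nat_lit 256) .dd))) (.ch (nat_lit 6) (.ev (nat_lit 2196) (nat_lit 4) (.ev
 (nat_lit 2205) (nat_lit 256) .dd)))))))) (.br (nat_lit 6) (.ch (nat_lit 5) (.nd (nat_lit 1312) (.br (nat_lit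
 5) (.br (nat_lit 4) (.ch (nat_lit 3) (.ev (nat_lit 1328) (nat_lit 128) (.nd (nat_lit 4032) (.br (nat_lit 6)
 (.ch (nat_lit 3) (.ev (nat_lit 4048) (nat_lit 4) (.ev (nat_lit 4740) (nat_lit 256) (.ev (nat_lit 4749)
 (nat_lit 512) .dd)))) (.ch (nat_lit 6) (.ev (nat_lit 4548) (nat_lit 256) (.fin (nat_lit
 576447008388629030)))))))) (.ch (nat_lit 4) (.ev (nat_lit 1328) (nat_lit 512) (.ev (nat_lit 1556) (nat_lit
 256) (.ev (nat_lit 1652) (nat_lit 128) (.ev (nat_lit 1661) (nat_lit 4) .dd)))))) (.br (nat_lit 6) (.ch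
 (nat_lit 5) (.ev (nat_lit 1328) (nat_lit 132) (.ev (nat_lit 1684) (nat_lit 256) (.ev (nat_lit 1693) (nat_lit
 512) .dd)))) (.ch (nat_lit 6) (.ev (nat_lit 1328) (nat_lit 516) (.ev (nat_lit 1556) (nat_lit 256) (.ev
 (nat_lit 1565) (nat_lit 128) .dd)))))))) (.ch (nat_lit 6) (.nd (nat_lit 1312) (.br (nat_lit 2) (.br (nat_lit
 1) (.ch (nat_lit 0) (.ev (nat_lit 1328) (nat_lit 512) (.ev (nat_lit 2084) (nat_lit 4) (.nd (nat_lit 3312) (.br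
 (nat_lit 2) (.ch (nat_lit 0) (.ev (nat_lit 4356) (nat_lit 256) (.ev (nat_lit 4365) (nat_lit 128) .dd))) (.br
 (nat_lit 4) (.ch (nat_lit 2) (.ev (nat_lit 4228) (nat_lit 256) (.ev (nat_lit 4237) (nat_lit 128) .dd))) (.ch
 (nat_lit 4) (.ev (nat_lit 3348) (nat_lit 256) (.ev (nat_lit 3357) (nat_lit 128) .dd))))))))) (.ch (nat_lit 1)
 (.ev (nat_lit 2484) (nat_lit 128) (.nd (nat_lit 3216) (.br (nat_lit 2) (.br (nat_lit 1) (.ch (nat_lit 0) (.ev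
 (nat_lit 3232) (nat_lit 256) (.ev (nat_lit 3380) (nat_lit 4) (.ev (nat_lit 3389) (nat_lit 512) .dd)))) (.ch
 (nat_lit 1) (.ev (nat_lit 3232) (nat_lit 512) (.fin (nat_lit 576384336270934499))))) (.br (nat_lit 3) (.ch
 (nat_lit 2) (.ev (nat_lit 3232) (nat_lit 512) (.ev (nat_lit 3252) (nat_lit 256) (.ev (nat_lit 3261) (nat_lit
 4) .dd)))) (.ch (nat_lit 3) (.ev (nat_lit 3232) (nat_lit 260) (.ev (nat_lit 3245) (nat_lit 512) .dd)))))))))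
 (.br (nat_lit 5) (.ch (nat_lit 2) (.ev (nat_lit 1328) (nat_lit 512) (.ev (nat_lit 2916) (nat_lit 256) (.nd
 (nat_lit 3312) (.br (nat_lit 5) (.ch (nat_lit 2) (.ev (nat_lit 3328) (nat_lit 128) (.ev (nat_lit 3341)
 (nat_lit 4) .dd))) (.ch (nat_lit 5) (.ev (nat_lit 3844) (nat_lit 128) (.ev (nat_lit 3853) (nat_lit 4)
 .dd)))))))) (.ch (nat_lit 5) (.ev (nat_lit 1328) (nat_lit 128) (.ev (nat_lit 2916) (nat_lit 256) (.nd (nat_lit
 3312) (.br (nat_lit 4) (.ch (nat_lit 3) (.ev (nat_lit 3348) (nat_lit 512) (.ev (nat_lit 3357) (nat_lit 4)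
 .dd))) (.ch (nat_lit 4) (.nd (nat_lit 5760) (.ch (nat_lit 1) (.nd (nat_lit 6208) (.br (nat_lit 4) (.ch
 (nat_lit 1) (.fin (nat_lit 576632825722651358))) (.ch (nat_lit 4) (.ev (nat_lit 6224) (nat_lit 4) (.ev
 (nat_lit 6237) (nat_lit 512) .dd)))))))))))))))))))))))) (.br (nat_lit 4) (.ch (nat_lit 2) (.ev (nat_lit 368)
 (nat_lit 260) (.nd (nat_lit 720) (.br (nat_lit 4) (.br (nat_lit 3) (.ch (nat_lit 2) (.ev (nat_lit 1156)
 (nat_lit 64) (.ev (nat_lit 1428) (nat_lit 512) (.ev (nat_lit 1437) (nat_lit 128) .dd)))) (.ch (nat_lit 3) (.ev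
 (nat_lit 736) (nat_lit 512) (.nd (nat_lit 2000) (.br (nat_lit 2) (.ch (nat_lit 1) (.fin (nat_lit
 576459103046943281))) (.br (nat_lit 6) (.ch (nat_lit 2) (.ev (nat_lit 2660) (nat_lit 64) (.ev (nat_lit 2669)
 (nat_lit 128) .dd))) (.ch (nat_lit 6) (.ev (nat_lit 2640) (nat_lit 192) .dd)))))))) (.br (nat_lit 5) (.ch
 (nat_lit 4) (.nd (nat_lit 2000) (.br (nat_lit 2) (.ch (nat_lit 0) (.ev (nat_lit 2676) (nat_lit 64) (.fin
 (nat_lit 576415122606997977)))) (.br (nat_lit 4) (.ch (nat_lit 2) (.ev (nat_lit 2016) (nat_lit 512) (.ev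
 (nat_lit 2676) (nat_lit 64) (.ev (nat_lit 2685) (nat_lit 128) .dd)))) (.ch (nat_lit 4) (.ev (nat_lit 2660)
 (nat_lit 128) (.ev (nat_lit 4308) (nat_lit 64) (.ev (nat_lit 4317) (nat_lit 512) .dd)))))))) (.ch (nat_lit 5)
 (.ev (nat_lit 1156) (nat_lit 64) (.nd (nat_lit 2000) (.br (nat_lit 4) (.ch (nat_lit 1) (.ev (nat_lit 2016)
 (nat_lit 512) (.ev (nat_lit 2029) (nat_lit 128) .dd))) (.br (nat_lit 6) (.ch (nat_lit 4) (.fin (nat_lit
 576475595711922770))) (.ch (nat_lit 6) (.ev (nat_lit 2228) (nat_lit 512) (.ev (nat_lit 2237) (nat_lit 128)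
 .dd))))))))))))) (.br (nat_lit 6) (.ch (nat_lit 4) (.ev (nat_lit 368) (nat_lit 128) (.nd (nat_lit 624) (.br
 (nat_lit 3) (.br (nat_lit 1) (.ch (nat_lit 0) (.ev (nat_lit 640) (nat_lit 64) (.ev (nat_lit 1236) (nat_lit
 256) (.nd (nat_lit 2000) (.br (nat_lit 5) (.br (nat_lit 1) (.ch (nat_lit 0) (.ev (nat_lit 2016) (nat_lit 4)
 (.ev (nat_lit 2029) (nat_lit 512) .dd))) (.ch (nat_lit 1) (.ev (nat_lit 2016) (nat_lit 512) (.ev (nat_lit
 2029) (nat_lit 4) .dd)))) (.br (nat_lit 6) (.ch (nat_lit 5) (.ev (nat_lit 2016) (nat_lit 516) .dd)) (.ch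
 (nat_lit 6) (.ev (nat_lit 4228) (nat_lit 512) (.ev (nat_lit 4237) (nat_lit 4) .dd))))))))) (.ch (nat_lit 1)
 (.ev (nat_lit 640) (nat_lit 68) (.nd (nat_lit 1744) (.br (nat_lit 4) (.ch (nat_lit 3) (.ev (nat_lit 1828)
 (nat_lit 256) (.ev (nat_lit 1837) (nat_lit 512) .dd))) (.br (nat_lit 5) (.ch (nat_lit 4) (.ev (nat_lit 1760)
 (nat_lit 256) (.ev (nat_lit 1773) (nat_lit 512) .dd))) (.ch (nat_lit 5) (.nd (nat_lit 4032) (.br (nat_lit 4)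
 (.ch (nat_lit 3) (.ev (nat_lit 4336) (nat_lit 768) .dd)) (.ch (nat_lit 4) (.fin (nat_lit
 576558059076665981)))))))))))) (.br (nat_lit 4) (.ch (nat_lit 3) (.ev (nat_lit 640) (nat_lit 512) (.nd
 (nat_lit 1584) (.br (nat_lit 3) (.br (nat_lit 1) (.ch (nat_lit 0) (.ev (nat_lit 1600) (nat_lit 4) (.ev
 (nat_lit 2500) (nat_lit 256) (.ev (nat_lit 2509) (nat_lit 64) .dd)))) (.ch (nat_lit 1) (.ev (nat_lit 1600)
 (nat_lit 68) (.ev (nat_lit 1613) (nat_lit 256) .dd)))) (.br (nat_lit 5) (.ch (nat_lit 3) (.ev (nat_lit 1600)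
 (nat_lit 256) (.ev (nat_lit 3460) (nat_lit 64) (.ev (nat_lit 3469) (nat_lit 4) .dd)))) (.ch (nat_lit 5) (.nd
 (nat_lit 3312) (.br (nat_lit 3) (.ch (nat_lit 0) (.ev (nat_lit 3328) (nat_lit 64) (.ev (nat_lit 3424) (nat_lit
 260) .dd))) (.br (nat_lit 6) (.ch (nat_lit 3) (.ev (nat_lit 3328) (nat_lit 256) (.fin (nat_lit
 576434913793229363)))) (.ch (nat_lit 6) (.ev (nat_lit 3328) (nat_lit 4) (.ev (nat_lit 4196) (nat_lit 256) (.ev
 (nat_lit 4205) (nat_lit 64) .dd))))))))))))) (.ch (nat_lit 4) (.ev (nat_lit 640) (nat_lit 4) (.nd (nat_lit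
 2000) (.br (nat_lit 3) (.br (nat_lit 2) (.ch (nat_lit 0) (.ev (nat_lit 2016) (nat_lit 256) (.ev (nat_lit 3124)
 (nat_lit 64) (.ev (nat_lit 3133) (nat_lit 512) .dd)))) (.ch (nat_lit 2) (.ev (nat_lit 3156) (nat_lit 256) (.ev
 (nat_lit 3892) (nat_lit 64) (.ev (nat_lit 3901) (nat_lit 512) .dd))))) (.br (nat_lit 4) (.ch (nat_lit 3) (.ev
 (nat_lit 2016) (nat_lit 64) (.fin (nat_lit 576461302055518782)))) (.ch (nat_lit 4) (.ev (nat_lit 2016)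
 (nat_lit 576) (.ev (nat_lit 2029) (nat_lit 256) .dd))))))))))))) (.ch (nat_lit 6) (.ev (nat_lit 368) (nat_lit
 64) (.ev (nat_lit 388) (nat_lit 256) (.nd (nat_lit 624) (.br (nat_lit 4) (.br (nat_lit 3) (.ch (nat_lit 1)
 (.ev (nat_lit 640) (nat_lit 128) (.ev (nat_lit 672) (nat_lit 4) (.ev (nat_lit 685) (nat_lit 512) .dd)))) (.ch
 (nat_lit 3) (.ev (nat_lit 640) (nat_lit 512) (.ev (nat_lit 704) (nat_lit 4) (.ev (nat_lit 717) (nat_lit 128)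
 .dd))))) (.br (nat_lit 5) (.ch (nat_lit 4) (.ev (nat_lit 964) (nat_lit 512) (.ev (nat_lit 1028) (nat_lit 128)
 (.ev (nat_lit 1037) (nat_lit 4) .dd)))) (.br (nat_lit 6) (.ch (nat_lit 5) (.ev (nat_lit 640) (nat_lit 132)
 (.ev (nat_lit 653) (nat_lit 512) .dd))) (.ch (nat_lit 6) (.ev (nat_lit 1076) (nat_lit 4) (.nd (nat_lit 2832)
 (.br (nat_lit 2) (.ch (nat_lit 0) (.ev (nat_lit 2848) (nat_lit 640) .dd)) (.br (nat_lit 5) (.ch (nat_lit 2)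
 (.ev (nat_lit 2848) (nat_lit 512) (.ev (nat_lit 2861) (nat_lit 128) .dd))) (.ch (nat_lit 5) (.fin (nat_lit
 576447008467272260)))))))))))))))))))))) (.br (nat_lit 5) (.ch (nat_lit 3) (.ev (nat_lit 80) (nat_lit 128)
 (.nd (nat_lit 432) (.br (nat_lit 4) (.br (nat_lit 2) (.ch (nat_lit 1) (.ev (nat_lit 448) (nat_lit 512) (.nd
 (nat_lit 720) (.br (nat_lit 3) (.br (nat_lit 1) (.ch (nat_lit 0) (.ev (nat_lit 736) (nat_lit 16) (.ev (nat_lit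
 1428) (nat_lit 256) (.nd (nat_lit 2000) (.br (nat_lit 4) (.br (nat_lit 3) (.ch (nat_lit 2) (.ev (nat_lit 4196)
 (nat_lit 64) (.ev (nat_lit 4205) (nat_lit 4) .dd))) (.ch (nat_lit 3) (.ev (nat_lit 2016) (nat_lit 68) .dd)))
 (.br (nat_lit 5) (.ch (nat_lit 4) (.ev (nat_lit 2036) (nat_lit 4) (.ev (nat_lit 2045) (nat_lit 64) .dd))) (.ch
 (nat_lit 5) (.ev (nat_lit 2016) (nat_lit 4) (.ev (nat_lit 2029) (nat_lit 64) .dd))))))))) (.ch (nat_lit 1)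
 (.ev (nat_lit 736) (nat_lit 4) (.ev (nat_lit 1156) (nat_lit 64) (.ev (nat_lit 2676) (nat_lit 16) (.ev (nat_lit
 2685) (nat_lit 256) .dd)))))) (.br (nat_lit 4) (.ch (nat_lit 3) (.ev (nat_lit 736) (nat_lit 64) (.ev (nat_lit
 1220) (nat_lit 256) (.nd (nat_lit 2832) (.br (nat_lit 3) (.ch (nat_lit 0) (.ev (nat_lit 2848) (nat_lit 4) (.ev
 (nat_lit 2861) (nat_lit 16) .dd))) (.br (nat_lit 5) (.ch (nat_lit 3) (.fin (nat_lit 576476695224599117))) (.ch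
 (nat_lit 5) (.ev (nat_lit 2868) (nat_lit 16) (.ev (nat_lit 2877) (nat_lit 4) .dd))))))))) (.br (nat_lit 6)
 (.ch (nat_lit 4) (.ev (nat_lit 736) (nat_lit 68) (.fin (nat_lit 576495386955825711)))) (.ch (nat_lit 6) (.ev
 (nat_lit 736) (nat_lit 276) (.ev (nat_lit 749) (nat_lit 64) .dd))))))))) (.ch (nat_lit 2) (.ev (nat_lit 448)
 (nat_lit 260) (.nd (nat_lit 768) (.br (nat_lit 4) (.br (nat_lit 3) (.ch (nat_lit 1) (.ev (nat_lit 784)
 (nat_lit 64) (.nd (nat_lit 1744) (.br (nat_lit 2) (.ch (nat_lit 1) (.ev (nat_lit 4228) (nat_lit 16) (.ev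
 (nat_lit 4237) (nat_lit 512) .dd))) (.br (nat_lit 5) (.ch (nat_lit 2) (.nd (nat_lit 4384) (.br (nat_lit 5)
 (.ch (nat_lit 2) (.fin (nat_lit 575854371773300266))) (.ch (nat_lit 5) (.ev (nat_lit 4400) (nat_lit 512) (.ev
 (nat_lit 4413) (nat_lit 16) .dd)))))) (.ch (nat_lit 5) (.ev (nat_lit 4228) (nat_lit 16) (.ev (nat_lit 4237)
 (nat_lit 512) .dd)))))))) (.ch (nat_lit 3) (.ev (nat_lit 820) (nat_lit 512) (.nd (nat_lit 1744) (.br (nat_lit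
 3) (.ch (nat_lit 0) (.ev (nat_lit 1760) (nat_lit 64) (.ev (nat_lit 1773) (nat_lit 16) .dd))) (.br (nat_lit 6)
 (.ch (nat_lit 3) (.ev (nat_lit 1760) (nat_lit 16) (.ev (nat_lit 1773) (nat_lit 64) .dd))) (.ch (nat_lit 6)
 (.fin (nat_lit 576516277626421793))))))))) (.br (nat_lit 6) (.ch (nat_lit 4) (.nd (nat_lit 2000) (.br (nat_lit
 5) (.ch (nat_lit 1) (.ev (nat_lit 2016) (nat_lit 64) (.ev (nat_lit 4084) (nat_lit 16) (.ev (nat_lit 4093)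
 (nat_lit 512) .dd)))) (.ch (nat_lit 5) (.ev (nat_lit 2016) (nat_lit 512) (.ev (nat_lit 2372) (nat_lit 64) (.ev
 (nat_lit 2381) (nat_lit 16) .dd))))))) (.ch (nat_lit 6) (.nd (nat_lit 1520) (.br (nat_lit 1) (.ch (nat_lit 0)
 (.ev (nat_lit 1536) (nat_lit 16) (.fin (nat_lit 576483292292268627)))) (.br (nat_lit 4) (.ch (nat_lit 1) (.ev
 (nat_lit 2036) (nat_lit 64) (.ev (nat_lit 2180) (nat_lit 16) (.ev (nat_lit 2189) (nat_lit 512) .dd)))) (.ch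
 (nat_lit 4) (.ev (nat_lit 1536) (nat_lit 64) (.ev (nat_lit 3956) (nat_lit 16) (.ev (nat_lit 3965) (nat_lit
 512) .dd)))))))))))))) (.br (nat_lit 5) (.ch (nat_lit 4) (.ev (nat_lit 448) (nat_lit 16) (.nd (nat_lit 720)
 (.br (nat_lit 3) (.br (nat_lit 2) (.ch (nat_lit 1) (.ev (nat_lit 736) (nat_lit 512) (.nd (nat_lit 2000) (.br
 (nat_lit 3) (.br (nat_lit 1) (.ch (nat_lit 0) (.nd (nat_lit 3168) (.br (nat_lit 1) (.ch (nat_lit 0) (.ev
 (nat_lit 3184) (nat_lit 64) (.ev (nat_lit 3636) (nat_lit 256) (.ev (nat_lit 3645) (nat_lit 4) .dd)))) (.ch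
 (nat_lit 1) (.ev (nat_lit 3184) (nat_lit 4) (.ev (nat_lit 3636) (nat_lit 256) (.ev (nat_lit 3645) (nat_lit 64)
 .dd))))))) (.ch (nat_lit 1) (.ev (nat_lit 4308) (nat_lit 4) (.fin (nat_lit 577085824209208786))))) (.br
 (nat_lit 6) (.ch (nat_lit 3) (.ev (nat_lit 2016) (nat_lit 64) (.ev (nat_lit 2756) (nat_lit 256) (.ev (nat_lit
 2765) (nat_lit 4) .dd)))) (.ch (nat_lit 6) (.ev (nat_lit 2016) (nat_lit 64) (.ev (nat_lit 2980) (nat_lit 4)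
 (.ev (nat_lit 2989) (nat_lit 256) .dd))))))))) (.ch (nat_lit 2) (.ev (nat_lit 736) (nat_lit 64) (.nd (nat_lit
 2000) (.br (nat_lit 4) (.br (nat_lit 3) (.ch (nat_lit 2) (.ev (nat_lit 2016) (nat_lit 260) (.ev (nat_lit 2029)
 (nat_lit 512) .dd))) (.ch (nat_lit 3) (.ev (nat_lit 2016) (nat_lit 512) (.ev (nat_lit 2420) (nat_lit 256) (.ev
 (nat_lit 2429) (nat_lit 4) .dd))))) (.br (nat_lit 5) (.ch (nat_lit 4) (.ev (nat_lit 2016) (nat_lit 768) (.ev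
 (nat_lit 2029) (nat_lit 4) .dd))) (.br (nat_lit 6) (.ch (nat_lit 5) (.ev (nat_lit 2016) (nat_lit 4) (.fin
 (nat_lit 576412923617297008)))) (.ch (nat_lit 6) (.ev (nat_lit 2016) (nat_lit 516) (.ev (nat_lit 2029)
 (nat_lit 256) .dd)))))))))) (.br (nat_lit 4) (.ch (nat_lit 3) (.ev (nat_lit 736) (nat_lit 512) (.ev (nat_lit
 868) (nat_lit 256) (.nd (nat_lit 1312) (.br (nat_lit 4) (.br (nat_lit 2) (.ch (nat_lit 0) (.ev (nat_lit 1828)
 (nat_lit 64) (.ev (nat_lit 1837) (nat_lit 4) .dd))) (.ch (nat_lit 2) (.ev (nat_lit 1328) (nat_lit 68) .dd)))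
 (.br (nat_lit 5) (.ch (nat_lit 4) (.ev (nat_lit 1860) (nat_lit 64) (.ev (nat_lit 1869) (nat_lit 4) .dd))) (.ch
 (nat_lit 5) (.ev (nat_lit 1328) (nat_lit 64) (.ev (nat_lit 1341) (nat_lit 4) .dd))))))))) (.br (nat_lit 5)
 (.ch (nat_lit 4) (.ev (nat_lit 736) (nat_lit 772) (.ev (nat_lit 749) (nat_lit 64) .dd))) (.ch (nat_lit 5) (.ev
 (nat_lit 736) (nat_lit 64) (.ev (nat_lit 884) (nat_lit 256) (.ev (nat_lit 2500) (nat_lit 4) (.ev (nat_lit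
 2509) (nat_lit 512) .dd))))))))))) (.br (nat_lit 6) (.ch (nat_lit 5) (.ev (nat_lit 448) (nat_lit 16) (.nd
 (nat_lit 720) (.br (nat_lit 2) (.br (nat_lit 1) (.ch (nat_lit 0) (.ev (nat_lit 736) (nat_lit 512) (.ev
 (nat_lit 932) (nat_lit 64) (.ev (nat_lit 1188) (nat_lit 4) (.ev (nat_lit 1197) (nat_lit 256) .dd))))) (.ch
 (nat_lit 1) (.ev (nat_lit 736) (nat_lit 64) (.nd (nat_lit 1584) (.br (nat_lit 4) (.br (nat_lit 1) (.ch
 (nat_lit 0) (.ev (nat_lit 2384) (nat_lit 4) (.ev (nat_lit 3028) (nat_lit 256) (.ev (nat_lit 3037) (nat_lit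
 512) .dd)))) (.ch (nat_lit 1) (.ev (nat_lit 1600) (nat_lit 4) (.fin (nat_lit 577283736207836206))))) (.br
 (nat_lit 5) (.ch (nat_lit 4) (.ev (nat_lit 2452) (nat_lit 4) (.ev (nat_lit 3572) (nat_lit 512) (.ev (nat_lit
 3581) (nat_lit 256) .dd)))) (.ch (nat_lit 5) (.ev (nat_lit 1600) (nat_lit 256) (.fin (nat_lit
 576463501093454481)))))))))) (.br (nat_lit 5) (.ch (nat_lit 2) (.ev (nat_lit 736) (nat_lit 772) (.ev (nat_lit
 749) (nat_lit 64) .dd))) (.br (nat_lit 6) (.ch (nat_lit 5) (.ev (nat_lit 736) (nat_lit 512) (.nd (nat_lit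
 1744) (.br (nat_lit 3) (.br (nat_lit 1) (.ch (nat_lit 0) (.ev (nat_lit 1760) (nat_lit 68) (.ev (nat_lit 1773)
 (nat_lit 256) .dd))) (.ch (nat_lit 1) (.ev (nat_lit 1760) (nat_lit 4) (.fin (nat_lit 576478894283506148)))))
 (.br (nat_lit 6) (.ch (nat_lit 3) (.ev (nat_lit 1760) (nat_lit 320) (.ev (nat_lit 1773) (nat_lit 4) .dd)))
 (.ch (nat_lit 6) (.ev (nat_lit 1760) (nat_lit 256) (.nd (nat_lit 3216) (.br (nat_lit 6) (.ch (nat_lit 4) (.ev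
 (nat_lit 3648) (nat_lit 68) .dd)) (.ch (nat_lit 6) (.fin (nat_lit 575524518442254566)))))))))))) (.ch (nat_lit
 6) (.ev (nat_lit 736) (nat_lit 256) (.ev (nat_lit 932) (nat_lit 64) (.ev (nat_lit 1268) (nat_lit 512) (.ev
 (nat_lit 1277) (nat_lit 4) .dd))))))))))) (.ch (nat_lit 6) (.ev (nat_lit 448) (nat_lit 592) (.nd (nat_lit
 1104) (.br (nat_lit 5) (.ch (nat_lit 0) (.ev (nat_lit 1188) (nat_lit 4) (.ev (nat_lit 1197) (nat_lit 256)
 .dd))) (.ch (nat_lit 5) (.fin (nat_lit 576453605432181273))))))))))))) (.br (nat_lit 6) (.ch (nat_lit 5) (.ev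
 (nat_lit 80) (nat_lit 576) (.nd (nat_lit 352) (.br (nat_lit 5) (.br (nat_lit 4) (.ch (nat_lit 0) (.nd (nat_lit
 832) (.br (nat_lit 5) (.br (nat_lit 3) (.ch (nat_lit 1) (.ev (nat_lit 848) (nat_lit 128) (.ev (nat_lit 1236)
 (nat_lit 16) (.fin (nat_lit 576530571083596461))))) (.ch (nat_lit 3) (.ev (nat_lit 932) (nat_lit 256) (.ev
 (nat_lit 1028) (nat_lit 16) (.nd (nat_lit 2592) (.br (nat_lit 1) (.ch (nat_lit 0) (.ev (nat_lit 2608) (nat_lit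
 4) (.ev (nat_lit 2621) (nat_lit 128) .dd))) (.br (nat_lit 4) (.ch (nat_lit 1) (.fin (nat_lit
 576474496205537852))) (.ch (nat_lit 4) (.ev (nat_lit 2608) (nat_lit 128) (.ev (nat_lit 2621) (nat_lit 4)
 .dd)))))))))) (.br (nat_lit 6) (.ch (nat_lit 5) (.ev (nat_lit 848) (nat_lit 4) (.ev (nat_lit 1156) (nat_lit
 16) (.ev (nat_lit 1236) (nat_lit 128) (.ev (nat_lit 1245) (nat_lit 256) .dd))))) (.ch (nat_lit 6) (.ev
 (nat_lit 848) (nat_lit 4) (.nd (nat_lit 2144) (.br (nat_lit 6) (.ch (nat_lit 5) (.ev (nat_lit 2160) (nat_lit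
 16) (.fin (nat_lit 576393132382831137)))) (.ch (nat_lit 6) (.ev (nat_lit 2160) (nat_lit 128) (.ev (nat_lit
 2372) (nat_lit 256) (.ev (nat_lit 2381) (nat_lit 16) .dd)))))))))))) (.ch (nat_lit 4) (.nd (nat_lit 720) (.br
 (nat_lit 4) (.br (nat_lit 2) (.ch (nat_lit 0) (.ev (nat_lit 884) (nat_lit 16) (.ev (nat_lit 1188) (nat_lit 4)
 (.nd (nat_lit 1584) (.br (nat_lit 3) (.ch (nat_lit 0) (.nd (nat_lit 4624) (.ch (nat_lit 0) (.fin (nat_lit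
 576468998610698825))))) (.br (nat_lit 4) (.ch (nat_lit 3) (.ev (nat_lit 2036) (nat_lit 128) (.ev (nat_lit
 2045) (nat_lit 256) .dd))) (.ch (nat_lit 4) (.nd (nat_lit 4592) (.br (nat_lit 6) (.ch (nat_lit 5) (.fin
 (nat_lit 576483292300657248))) (.ch (nat_lit 6) (.ev (nat_lit 4608) (nat_lit 128) (.ev (nat_lit 4621) (nat_lit
 256) .dd)))))))))))) (.ch (nat_lit 2) (.ev (nat_lit 736) (nat_lit 16) (.ev (nat_lit 1428) (nat_lit 4) (.ev
 (nat_lit 1716) (nat_lit 256) (.ev (nat_lit 1725) (nat_lit 128) .dd)))))) (.br (nat_lit 5) (.ch (nat_lit 4)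
 (.ev (nat_lit 736) (nat_lit 256) (.ev (nat_lit 868) (nat_lit 16) (.ev (nat_lit 932) (nat_lit 128) (.ev
 (nat_lit 941) (nat_lit 4) .dd))))) (.ch (nat_lit 5) (.ev (nat_lit 736) (nat_lit 256) (.nd (nat_lit 1520) (.br
 (nat_lit 1) (.ch (nat_lit 0) (.ev (nat_lit 1536) (nat_lit 4) (.fin (nat_lit 576412923527119516)))) (.ch
 (nat_lit 1) (.ev (nat_lit 2180) (nat_lit 16) (.ev (nat_lit 2880) (nat_lit 128) (.ev (nat_lit 2893) (nat_lit 4)
 .dd))))))))))))) (.br (nat_lit 6) (.ch (nat_lit 5) (.ev (nat_lit 368) (nat_lit 4) (.nd (nat_lit 720) (.br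
 (nat_lit 2) (.br (nat_lit 1) (.ch (nat_lit 0) (.ev (nat_lit 736) (nat_lit 256) (.nd (nat_lit 1584) (.br
 (nat_lit 5) (.ch (nat_lit 0) (.ev (nat_lit 4292) (nat_lit 128) (.ev (nat_lit 4301) (nat_lit 16) .dd))) (.ch
 (nat_lit 5) (.nd (nat_lit 3312) (.br (nat_lit 1) (.ch (nat_lit 0) (.ev (nat_lit 3488) (nat_lit 144) .dd)) (.ch
 (nat_lit 1) (.fin (nat_lit 576461302061810211)))))))))) (.ch (nat_lit 1) (.ev (nat_lit 736) (nat_lit 256) (.ev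
 (nat_lit 1060) (nat_lit 16) (.ev (nat_lit 1069) (nat_lit 128) .dd))))) (.br (nat_lit 5) (.ch (nat_lit 2) (.nd
 (nat_lit 1312) (.br (nat_lit 3) (.br (nat_lit 2) (.ch (nat_lit 1) (.ev (nat_lit 1572) (nat_lit 16) (.ev
 (nat_lit 1636) (nat_lit 128) (.ev (nat_lit 1645) (nat_lit 256) .dd)))) (.ch (nat_lit 2) (.ev (nat_lit 1636)
 (nat_lit 128) (.fin (nat_lit 576462401572389366))))) (.br (nat_lit 6) (.ch (nat_lit 3) (.nd (nat_lit 3168)
 (.br (nat_lit 2) (.ch (nat_lit 0) (.nd (nat_lit 5520) (.br (nat_lit 4) (.ch (nat_lit 1) (.ev (nat_lit 5536)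
 (nat_lit 16) (.fin (nat_lit 576368943057813818)))) (.ch (nat_lit 4) (.ev (nat_lit 5536) (nat_lit 128) (.fin
 (nat_lit 576428316792668723))))))) (.br (nat_lit 5) (.ch (nat_lit 2) (.ev (nat_lit 3380) (nat_lit 16) (.ev
 (nat_lit 3872) (nat_lit 128) (.ev (nat_lit 3885) (nat_lit 256) .dd)))) (.ch (nat_lit 5) (.ev (nat_lit 3184)
 (nat_lit 16) (.ev (nat_lit 4068) (nat_lit 128) (.ev (nat_lit 4077) (nat_lit 256) .dd)))))))) (.ch (nat_lit 6)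
 (.ev (nat_lit 1328) (nat_lit 256) (.fin (nat_lit 576473396659307070)))))))) (.ch (nat_lit 5) (.ev (nat_lit
 1028) (nat_lit 128) (.nd (nat_lit 1520) (.br (nat_lit 5) (.br (nat_lit 2) (.ch (nat_lit 1) (.fin (nat_lit
 576456904025784873))) (.ch (nat_lit 2) (.ev (nat_lit 1536) (nat_lit 256) (.ev (nat_lit 1549) (nat_lit 16)
 .dd)))) (.br (nat_lit 6) (.ch (nat_lit 5) (.ev (nat_lit 3796) (nat_lit 256) (.ev (nat_lit 3805) (nat_lit 16)
 .dd))) (.ch (nat_lit 6) (.ev (nat_lit 2260) (nat_lit 16) (.ev (nat_lit 2269) (nat_lit 256) .dd)))))))))))))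
 (.ch (nat_lit 6) (.ev (nat_lit 368) (nat_lit 256) (.nd (nat_lit 832) (.br (nat_lit 4) (.br (nat_lit 3) (.ch
 (nat_lit 2) (.ev (nat_lit 848) (nat_lit 4) (.nd (nat_lit 2000) (.br (nat_lit 3) (.ch (nat_lit 0) (.ev (nat_lit
 2452) (nat_lit 128) (.ev (nat_lit 2461) (nat_lit 16) .dd))) (.br (nat_lit 5) (.ch (nat_lit 3) (.ev (nat_lit
 4228) (nat_lit 128) (.ev (nat_lit 4237) (nat_lit 16) .dd))) (.ch (nat_lit 5) (.ev (nat_lit 2052) (nat_lit 16)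
 (.ev (nat_lit 2061) (nat_lit 128) .dd)))))))) (.ch (nat_lit 3) (.ev (nat_lit 848) (nat_lit 4) (.ev (nat_lit
 1156) (nat_lit 128) (.ev (nat_lit 1165) (nat_lit 16) .dd))))) (.br (nat_lit 6) (.ch (nat_lit 4) (.ev (nat_lit
 848) (nat_lit 4) (.nd (nat_lit 1744) (.br (nat_lit 6) (.ch (nat_lit 4) (.ev (nat_lit 1796) (nat_lit 16) (.ev
 (nat_lit 1805) (nat_lit 128) .dd))) (.ch (nat_lit 6) (.ev (nat_lit 4228) (nat_lit 128) (.ev (nat_lit 4237)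
 (nat_lit 16) .dd))))))) (.ch (nat_lit 6) (.nd (nat_lit 2000) (.br (nat_lit 2) (.ch (nat_lit 0) (.ev (nat_lit
 2016) (nat_lit 16) (.fin (nat_lit 576489889441727057)))) (.ch (nat_lit 2) (.ev (nat_lit 2660) (nat_lit 4) (.nd
 (nat_lit 4448) (.br (nat_lit 6) (.ch (nat_lit 3) (.fin (nat_lit 576316166436767186))) (.ch (nat_lit 6) (.ev
 (nat_lit 4464) (nat_lit 128) (.ev (nat_lit 4477) (nat_lit 16) .dd)))))))))))))))))))) (.ch (nat_lit 6) (.ev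
 (nat_lit 308) (nat_lit 128) (.nd (nat_lit 432) (.br (nat_lit 3) (.br (nat_lit 1) (.ch (nat_lit 0) (.ev
 (nat_lit 448) (nat_lit 256) (.nd (nat_lit 720) (.br (nat_lit 2) (.br (nat_lit 1) (.ch (nat_lit 0) (.ev
 (nat_lit 736) (nat_lit 576) (.nd (nat_lit 2000) (.br (nat_lit 4) (.br (nat_lit 1) (.ch (nat_lit 0) (.ev
 (nat_lit 2068) (nat_lit 16) (.ev (nat_lit 2077) (nat_lit 4) .dd))) (.ch (nat_lit 1) (.ev (nat_lit 2016)
 (nat_lit 4) (.ev (nat_lit 2029) (nat_lit 16) .dd)))) (.br (nat_lit 5) (.ch (nat_lit 4) (.ev (nat_lit 2372)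
 (nat_lit 16) (.ev (nat_lit 2381) (nat_lit 4) .dd))) (.ch (nat_lit 5) (.ev (nat_lit 2212) (nat_lit 4) (.ev
 (nat_lit 2221) (nat_lit 16) .dd)))))))) (.ch (nat_lit 1) (.nd (nat_lit 1312) (.br (nat_lit 4) (.ch (nat_lit 0)
 (.ev (nat_lit 1328) (nat_lit 64) (.ev (nat_lit 1636) (nat_lit 4) (.ev (nat_lit 1652) (nat_lit 16) (.ev
 (nat_lit 1661) (nat_lit 512) .dd))))) (.br (nat_lit 6) (.ch (nat_lit 4) (.ev (nat_lit 1328) (nat_lit 512) (.ev
 (nat_lit 1556) (nat_lit 16) (.nd (nat_lit 4448) (.br (nat_lit 2) (.ch (nat_lit 1) (.ev (nat_lit 4464) (nat_lit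
 64) (.ev (nat_lit 4477) (nat_lit 4) .dd))) (.br (nat_lit 6) (.ch (nat_lit 2) (.ev (nat_lit 4932) (nat_lit 64)
 (.ev (nat_lit 4941) (nat_lit 4) .dd))) (.ch (nat_lit 6) (.fin (nat_lit 576460202526065193))))))))) (.ch
 (nat_lit 6) (.ev (nat_lit 1556) (nat_lit 512) (.ev (nat_lit 1652) (nat_lit 16) (.ev (nat_lit 2084) (nat_lit
 64) (.ev (nat_lit 2093) (nat_lit 4) .dd)))))))))) (.br (nat_lit 4) (.ch (nat_lit 2) (.ev (nat_lit 736)
 (nat_lit 16) (.ev (nat_lit 1156) (nat_lit 64) (.nd (nat_lit 1584) (.br (nat_lit 4) (.br (nat_lit 1) (.ch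
 (nat_lit 0) (.ev (nat_lit 1600) (nat_lit 512) (.ev (nat_lit 1613) (nat_lit 4) .dd))) (.ch (nat_lit 1) (.nd
 (nat_lit 4384) (.br (nat_lit 1) (.ch (nat_lit 0) (.ev (nat_lit 4532) (nat_lit 4) (.ev (nat_lit 4541) (nat_lit
 512) .dd))) (.ch (nat_lit 1) (.ev (nat_lit 4400) (nat_lit 512) (.ev (nat_lit 4413) (nat_lit 4) .dd))))))) (.br
 (nat_lit 6) (.ch (nat_lit 4) (.ev (nat_lit 1600) (nat_lit 512) (.ev (nat_lit 1613) (nat_lit 4) .dd))) (.ch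
 (nat_lit 6) (.fin (nat_lit 576448107945345576))))))))) (.br (nat_lit 5) (.ch (nat_lit 4) (.ev (nat_lit 736)
 (nat_lit 20) (.ev (nat_lit 2548) (nat_lit 512) (.ev (nat_lit 2557) (nat_lit 64) .dd)))) (.ch (nat_lit 5) (.ev
 (nat_lit 736) (nat_lit 64) (.ev (nat_lit 976) (nat_lit 4) (.nd (nat_lit 2144) (.ch (nat_lit 4) (.nd (nat_lit
 5040) (.br (nat_lit 6) (.ch (nat_lit 0) (.fin (nat_lit 576566855171785328))) (.ch (nat_lit 6) (.ev (nat_lit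
 5076) (nat_lit 512) (.ev (nat_lit 5085) (nat_lit 16) .dd)))))))))))))))) (.ch (nat_lit 1) (.ev (nat_lit 448)
 (nat_lit 592) (.nd (nat_lit 896) (.br (nat_lit 4) (.br (nat_lit 3) (.ch (nat_lit 1) (.ev (nat_lit 912)
 (nat_lit 4) (.ev (nat_lit 925) (nat_lit 256) .dd))) (.ch (nat_lit 3) (.nd (nat_lit 2592) (.br (nat_lit 5) (.ch
 (nat_lit 4) (.ev (nat_lit 2628) (nat_lit 256) (.ev (nat_lit 2637) (nat_lit 4) .dd))) (.ch (nat_lit 5) (.ev
 (nat_lit 2608) (nat_lit 4) (.ev (nat_lit 2621) (nat_lit 256) .dd))))))) (.br (nat_lit 6) (.ch (nat_lit 4) (.ev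
 (nat_lit 1440) (nat_lit 4) (.ev (nat_lit 1453) (nat_lit 256) .dd))) (.ch (nat_lit 6) (.ev (nat_lit 1168)
 (nat_lit 260) .dd)))))))) (.br (nat_lit 4) (.ch (nat_lit 3) (.ev (nat_lit 448) (nat_lit 16) (.nd (nat_lit 720)
 (.br (nat_lit 4) (.br (nat_lit 3) (.ch (nat_lit 0) (.ev (nat_lit 736) (nat_lit 4) (.nd (nat_lit 1520) (.br
 (nat_lit 3) (.br (nat_lit 2) (.ch (nat_lit 1) (.ev (nat_lit 2244) (nat_lit 64) (.nd (nat_lit 3216) (.br
 (nat_lit 3) (.ch (nat_lit 1) (.ev (nat_lit 3232) (nat_lit 512) (.ev (nat_lit 3245) (nat_lit 256) .dd))) (.br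
 (nat_lit 5) (.ch (nat_lit 3) (.ev (nat_lit 4004) (nat_lit 512) (.ev (nat_lit 4013) (nat_lit 256) .dd))) (.ch
 (nat_lit 5) (.fin (nat_lit 576461302021964445)))))))) (.ch (nat_lit 2) (.ev (nat_lit 1536) (nat_lit 64) (.ev
 (nat_lit 2052) (nat_lit 256) (.ev (nat_lit 2061) (nat_lit 512) .dd))))) (.br (nat_lit 4) (.ch (nat_lit 3) (.ev
 (nat_lit 1536) (nat_lit 512) (.ev (nat_lit 2052) (nat_lit 256) (.ev (nat_lit 2061) (nat_lit 64) .dd)))) (.ch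
 (nat_lit 4) (.ev (nat_lit 1536) (nat_lit 256) (.ev (nat_lit 3748) (nat_lit 64) (.ev (nat_lit 3757) (nat_lit
 512) .dd))))))))) (.ch (nat_lit 3) (.ev (nat_lit 736) (nat_lit 256) (.nd (nat_lit 1584) (.br (nat_lit 3) (.br
 (nat_lit 2) (.ch (nat_lit 1) (.ev (nat_lit 1600) (nat_lit 4) (.fin (nat_lit 576447008420086322)))) (.ch
 (nat_lit 2) (.ev (nat_lit 2948) (nat_lit 512) (.fin (nat_lit 576342554816496172))))) (.br (nat_lit 5) (.ch
 (nat_lit 3) (.ev (nat_lit 2928) (nat_lit 512) (.ev (nat_lit 3892) (nat_lit 4) (.ev (nat_lit 3901) (nat_lit 64)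
 .dd)))) (.ch (nat_lit 5) (.ev (nat_lit 1600) (nat_lit 4) (.ev (nat_lit 2948) (nat_lit 64) (.ev (nat_lit 2957)
 (nat_lit 512) .dd)))))))))) (.br (nat_lit 5) (.ch (nat_lit 4) (.ev (nat_lit 736) (nat_lit 4) (.nd (nat_lit
 1312) (.br (nat_lit 4) (.br (nat_lit 1) (.ch (nat_lit 0) (.ev (nat_lit 1328) (nat_lit 64) (.fin (nat_lit
 576316166436765226)))) (.ch (nat_lit 1) (.ev (nat_lit 1328) (nat_lit 256) (.ev (nat_lit 1780) (nat_lit 64)
 (.ev (nat_lit 1789) (nat_lit 512) .dd))))) (.br (nat_lit 5) (.ch (nat_lit 4) (.ev (nat_lit 1328) (nat_lit 576)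
 (.ev (nat_lit 1341) (nat_lit 256) .dd))) (.br (nat_lit 6) (.ch (nat_lit 5) (.ev (nat_lit 1328) (nat_lit 256)
 (.ev (nat_lit 4308) (nat_lit 512) (.ev (nat_lit 4317) (nat_lit 64) .dd)))) (.ch (nat_lit 6) (.ev (nat_lit
 1860) (nat_lit 64) (.nd (nat_lit 3216) (.br (nat_lit 5) (.ch (nat_lit 3) (.ev (nat_lit 4196) (nat_lit 256)
 (.ev (nat_lit 4205) (nat_lit 512) .dd))) (.br (nat_lit 6) (.ch (nat_lit 5) (.ev (nat_lit 3232) (nat_lit 256)
 (.ev (nat_lit 3245) (nat_lit 512) .dd))) (.ch (nat_lit 6) (.ev (nat_lit 3232) (nat_lit 768) .dd)))))))))))))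
 (.br (nat_lit 6) (.ch (nat_lit 5) (.ev (nat_lit 736) (nat_lit 256) (.nd (nat_lit 1520) (.br (nat_lit 4) (.br
 (nat_lit 2) (.ch (nat_lit 0) (.ev (nat_lit 1536) (nat_lit 4) (.ev (nat_lit 1684) (nat_lit 512) (.ev (nat_lit
 1693) (nat_lit 64) .dd)))) (.ch (nat_lit 2) (.ev (nat_lit 1536) (nat_lit 516) (.ev (nat_lit 1549) (nat_lit 64)
 .dd)))) (.br (nat_lit 6) (.ch (nat_lit 4) (.ev (nat_lit 1536) (nat_lit 4) (.ev (nat_lit 1636) (nat_lit 64)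
 (.ev (nat_lit 1645) (nat_lit 512) .dd)))) (.ch (nat_lit 6) (.ev (nat_lit 2900) (nat_lit 4) (.nd (nat_lit 3312)
 (.br (nat_lit 5) (.ch (nat_lit 0) (.ev (nat_lit 3328) (nat_lit 64) (.ev (nat_lit 3341) (nat_lit 512) .dd)))
 (.br (nat_lit 6) (.ch (nat_lit 5) (.ev (nat_lit 3908) (nat_lit 512) (.ev (nat_lit 3917) (nat_lit 64) .dd)))
 (.ch (nat_lit 6) (.fin (nat_lit 576481093325636231))))))))))))) (.ch (nat_lit 6) (.ev (nat_lit 736) (nat_lit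
 832) (.ev (nat_lit 749) (nat_lit 4) .dd))))))))) (.br (nat_lit 5) (.ch (nat_lit 4) (.ev (nat_lit 448) (nat_lit
 16) (.nd (nat_lit 768) (.br (nat_lit 5) (.br (nat_lit 4) (.ch (nat_lit 3) (.ev (nat_lit 784) (nat_lit 256)
 (.ev (nat_lit 1188) (nat_lit 4) (.nd (nat_lit 2304) (.br (nat_lit 1) (.ch (nat_lit 0) (.ev (nat_lit 2320)
 (nat_lit 64) (.ev (nat_lit 2333) (nat_lit 512) .dd))) (.br (nat_lit 6) (.ch (nat_lit 1) (.ev (nat_lit 2320)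
 (nat_lit 64) (.ev (nat_lit 2333) (nat_lit 512) .dd))) (.ch (nat_lit 6) (.ev (nat_lit 2320) (nat_lit 512) (.ev
 (nat_lit 2333) (nat_lit 64) .dd))))))))) (.ch (nat_lit 4) (.ev (nat_lit 784) (nat_lit 512) (.nd (nat_lit 1744)
 (.br (nat_lit 4) (.ch (nat_lit 0) (.ev (nat_lit 2180) (nat_lit 4) (.ev (nat_lit 2292) (nat_lit 256) (.ev
 (nat_lit 2301) (nat_lit 64) .dd)))) (.br (nat_lit 5) (.ch (nat_lit 4) (.ev (nat_lit 1760) (nat_lit 64) (.fin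
 (nat_lit 576453605489852975)))) (.ch (nat_lit 5) (.ev (nat_lit 1760) (nat_lit 256) (.ev (nat_lit 2484)
 (nat_lit 4) (.ev (nat_lit 2493) (nat_lit 64) .dd)))))))))) (.br (nat_lit 6) (.ch (nat_lit 5) (.ev (nat_lit
 784) (nat_lit 256) (.ev (nat_lit 1028) (nat_lit 64) (.nd (nat_lit 1744) (.br (nat_lit 3) (.ch (nat_lit 1) (.ev
 (nat_lit 1760) (nat_lit 512) (.ev (nat_lit 1773) (nat_lit 4) .dd))) (.ch (nat_lit 3) (.ev (nat_lit 2452)
 (nat_lit 512) (.ev (nat_lit 2461) (nat_lit 4) .dd)))))))) (.ch (nat_lit 6) (.ev (nat_lit 784) (nat_lit 4) (.nd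
 (nat_lit 1520) (.br (nat_lit 3) (.ch (nat_lit 0) (.ev (nat_lit 2052) (nat_lit 256) (.nd (nat_lit 4448) (.ch
 (nat_lit 3) (.nd (nat_lit 5856) (.br (nat_lit 4) (.ch (nat_lit 1) (.ev (nat_lit 5972) (nat_lit 512) (.ev
 (nat_lit 5981) (nat_lit 64) .dd))) (.br (nat_lit 6) (.ch (nat_lit 4) (.fin (nat_lit 576528372238598751))) (.ch
 (nat_lit 6) (.ev (nat_lit 5872) (nat_lit 64) (.ev (nat_lit 5885) (nat_lit 512) .dd)))))))))) (.br (nat_lit 4)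
 (.ch (nat_lit 3) (.ev (nat_lit 2180) (nat_lit 64) (.ev (nat_lit 4692) (nat_lit 512) (.ev (nat_lit 4701)
 (nat_lit 256) .dd)))) (.ch (nat_lit 4) (.ev (nat_lit 1536) (nat_lit 64) (.ev (nat_lit 2052) (nat_lit 256) (.ev
 (nat_lit 2061) (nat_lit 512) .dd)))))))))))))) (.ch (nat_lit 5) (.ev (nat_lit 448) (nat_lit 260) (.nd (nat_lit
 896) (.br (nat_lit 4) (.br (nat_lit 1) (.ch (nat_lit 0) (.ev (nat_lit 1988) (nat_lit 64) (.nd (nat_lit 2832)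
 (.br (nat_lit 3) (.ch (nat_lit 2) (.ev (nat_lit 2848) (nat_lit 512) (.ev (nat_lit 2861) (nat_lit 16) .dd)))
 (.br (nat_lit 4) (.ch (nat_lit 3) (.ev (nat_lit 2868) (nat_lit 16) (.ev (nat_lit 2877) (nat_lit 512) .dd)))
 (.ch (nat_lit 4) (.ev (nat_lit 3748) (nat_lit 16) (.ev (nat_lit 3757) (nat_lit 512) .dd)))))))) (.ch (nat_lit
 1) (.ev (nat_lit 912) (nat_lit 512) (.nd (nat_lit 2832) (.ch (nat_lit 1) (.fin (nat_lit
 576421719678861920))))))) (.br (nat_lit 5) (.ch (nat_lit 4) (.ev (nat_lit 912) (nat_lit 64) (.ev (nat_lit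
 1940) (nat_lit 16) (.ev (nat_lit 1949) (nat_lit 512) .dd)))) (.ch (nat_lit 5) (.ev (nat_lit 912) (nat_lit 16)
 (.nd (nat_lit 2144) (.ch (nat_lit 3) (.ev (nat_lit 2420) (nat_lit 64) (.ev (nat_lit 2429) (nat_lit 512)
 .dd)))))))))))))))))))))))) (.br (nat_lit 3) (.ch (nat_lit 2) (.ev (nat_lit 48) (nat_lit 276) (.nd (nat_lit
 128) (.br (nat_lit 4) (.br (nat_lit 1) (.ch (nat_lit 0) (.nd (nat_lit 432) (.br (nat_lit 2) (.br (nat_lit 1)
 (.ch (nat_lit 0) (.nd (nat_lit 768) (.br (nat_lit 2) (.br (nat_lit 1) (.ch (nat_lit 0) (.ev (nat_lit 1156)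
 (nat_lit 64) (.ev (nat_lit 1508) (nat_lit 128) (.nd (nat_lit 1584) (.br (nat_lit 1) (.ch (nat_lit 0) (.ev
 (nat_lit 1600) (nat_lit 512) (.ev (nat_lit 1613) (nat_lit 8) .dd))) (.br (nat_lit 5) (.ch (nat_lit 1) (.nd
 (nat_lit 4592) (.br (nat_lit 5) (.ch (nat_lit 3) (.ev (nat_lit 4608) (nat_lit 512) (.ev (nat_lit 4621)
 (nat_lit 8) .dd))) (.br (nat_lit 6) (.ch (nat_lit 5) (.ev (nat_lit 4948) (nat_lit 8) (.ev (nat_lit 4957)
 (nat_lit 512) .dd))) (.ch (nat_lit 6) (.fin (nat_lit 576442610344215078))))))) (.ch (nat_lit 5) (.ev (nat_lit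
 2100) (nat_lit 8) (.ev (nat_lit 2109) (nat_lit 512) .dd))))))))) (.ch (nat_lit 1) (.ev (nat_lit 784) (nat_lit
 640) (.ev (nat_lit 1088) (nat_lit 72) .dd)))) (.br (nat_lit 3) (.ch (nat_lit 2) (.ev (nat_lit 784) (nat_lit
 128) (.nd (nat_lit 1520) (.br (nat_lit 5) (.br (nat_lit 3) (.ch (nat_lit 0) (.nd (nat_lit 3312) (.br (nat_lit
 2) (.ch (nat_lit 0) (.ev (nat_lit 3328) (nat_lit 512) (.ev (nat_lit 4500) (nat_lit 64) (.ev (nat_lit 4509)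
 (nat_lit 8) .dd)))) (.ch (nat_lit 2) (.ev (nat_lit 4420) (nat_lit 8) (.fin (nat_lit 576373341215474164)))))))
 (.ch (nat_lit 3) (.ev (nat_lit 1780) (nat_lit 64) (.nd (nat_lit 4592) (.br (nat_lit 6) (.ch (nat_lit 0) (.ev
 (nat_lit 4608) (nat_lit 8) (.ev (nat_lit 4621) (nat_lit 512) .dd))) (.ch (nat_lit 6) (.fin (nat_lit
 576470098167415336)))))))) (.br (nat_lit 6) (.ch (nat_lit 5) (.ev (nat_lit 1536) (nat_lit 512) (.ev (nat_lit
 1636) (nat_lit 8) (.ev (nat_lit 1645) (nat_lit 64) .dd)))) (.ch (nat_lit 6) (.ev (nat_lit 1636) (nat_lit 8)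
 (.ev (nat_lit 1732) (nat_lit 512) (.ev (nat_lit 1741) (nat_lit 64) .dd))))))))) (.br (nat_lit 5) (.ch (nat_lit
 3) (.ev (nat_lit 784) (nat_lit 72) (.ev (nat_lit 964) (nat_lit 512) (.ev (nat_lit 973) (nat_lit 128) .dd))))
 (.ch (nat_lit 5) (.ev (nat_lit 784) (nat_lit 128) (.nd (nat_lit 1744) (.br (nat_lit 4) (.br (nat_lit 2) (.ch
 (nat_lit 1) (.ev (nat_lit 2084) (nat_lit 8) (.ev (nat_lit 2548) (nat_lit 64) (.ev (nat_lit 2557) (nat_lit 512)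
 .dd)))) (.ch (nat_lit 2) (.ev (nat_lit 2420) (nat_lit 8) (.ev (nat_lit 3844) (nat_lit 512) (.ev (nat_lit 3853)
 (nat_lit 64) .dd))))) (.br (nat_lit 5) (.ch (nat_lit 4) (.ev (nat_lit 1760) (nat_lit 512) (.ev (nat_lit 2196)
 (nat_lit 64) (.ev (nat_lit 2205) (nat_lit 8) .dd)))) (.ch (nat_lit 5) (.ev (nat_lit 1760) (nat_lit 8) (.ev
 (nat_lit 2180) (nat_lit 64) (.ev (nat_lit 2189) (nat_lit 512) .dd)))))))))))))) (.ch (nat_lit 1) (.ev (nat_lit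
 448) (nat_lit 128) (.nd (nat_lit 832) (.br (nat_lit 5) (.br (nat_lit 4) (.ch (nat_lit 1) (.ev (nat_lit 1428)
 (nat_lit 64) (.nd (nat_lit 2000) (.br (nat_lit 5) (.ch (nat_lit 2) (.ev (nat_lit 2484) (nat_lit 8) (.ev
 (nat_lit 2493) (nat_lit 512) .dd))) (.ch (nat_lit 5) (.ev (nat_lit 2036) (nat_lit 8) (.ev (nat_lit 2045)
 (nat_lit 512) .dd))))))) (.ch (nat_lit 4) (.ev (nat_lit 848) (nat_lit 512) (.ev (nat_lit 1156) (nat_lit 64)
 (.ev (nat_lit 1165) (nat_lit 8) .dd))))) (.br (nat_lit 6) (.ch (nat_lit 5) (.ev (nat_lit 848) (nat_lit 8) (.ev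
 (nat_lit 1156) (nat_lit 64) (.ev (nat_lit 1165) (nat_lit 512) .dd)))) (.ch (nat_lit 6) (.ev (nat_lit 1156)
 (nat_lit 64) (.nd (nat_lit 2144) (.br (nat_lit 4) (.br (nat_lit 2) (.ch (nat_lit 0) (.ev (nat_lit 2452)
 (nat_lit 512) (.ev (nat_lit 2461) (nat_lit 8) .dd))) (.ch (nat_lit 2) (.ev (nat_lit 2160) (nat_lit 8) (.ev
 (nat_lit 2173) (nat_lit 512) .dd)))) (.br (nat_lit 5) (.ch (nat_lit 4) (.ev (nat_lit 2160) (nat_lit 512) (.ev
 (nat_lit 2173) (nat_lit 8) .dd))) (.ch (nat_lit 5) (.fin (nat_lit 576453605468881482)))))))))))))) (.br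
 (nat_lit 6) (.ch (nat_lit 2) (.ev (nat_lit 448) (nat_lit 512) (.nd (nat_lit 896) (.br (nat_lit 4) (.br
 (nat_lit 2) (.ch (nat_lit 1) (.ev (nat_lit 912) (nat_lit 128) (.ev (nat_lit 1188) (nat_lit 8) (.ev (nat_lit
 1197) (nat_lit 64) .dd)))) (.ch (nat_lit 2) (.ev (nat_lit 912) (nat_lit 128) (.ev (nat_lit 2660) (nat_lit 8)
 (.ev (nat_lit 2669) (nat_lit 64) .dd))))) (.br (nat_lit 6) (.ch (nat_lit 4) (.ev (nat_lit 912) (nat_lit 128)
 (.ev (nat_lit 1460) (nat_lit 8) (.ev (nat_lit 1469) (nat_lit 64) .dd)))) (.ch (nat_lit 6) (.ev (nat_lit 912)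
 (nat_lit 8) (.ev (nat_lit 1364) (nat_lit 64) (.ev (nat_lit 1373) (nat_lit 128) .dd))))))))) (.ch (nat_lit 6)
 (.ev (nat_lit 448) (nat_lit 512) (.nd (nat_lit 896) (.br (nat_lit 4) (.br (nat_lit 2) (.ch (nat_lit 1) (.ev
 (nat_lit 912) (nat_lit 8) (.ev (nat_lit 1396) (nat_lit 64) (.ev (nat_lit 1405) (nat_lit 128) .dd)))) (.ch
 (nat_lit 2) (.nd (nat_lit 2304) (.br (nat_lit 1) (.ch (nat_lit 0) (.ev (nat_lit 2320) (nat_lit 128) (.ev
 (nat_lit 2868) (nat_lit 64) (.ev (nat_lit 2877) (nat_lit 8) .dd)))) (.ch (nat_lit 1) (.ev (nat_lit 2320)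
 (nat_lit 8) (.fin (nat_lit 576462401573438018)))))))) (.br (nat_lit 5) (.ch (nat_lit 4) (.ev (nat_lit 932)
 (nat_lit 8) (.ev (nat_lit 1396) (nat_lit 128) (.ev (nat_lit 1405) (nat_lit 64) .dd)))) (.ch (nat_lit 5) (.ev
 (nat_lit 912) (nat_lit 64) (.nd (nat_lit 1584) (.br (nat_lit 4) (.ch (nat_lit 2) (.fin (nat_lit
 576540466815124012))) (.ch (nat_lit 4) (.ev (nat_lit 3860) (nat_lit 128) (.ev (nat_lit 3869) (nat_lit 8)
 .dd)))))))))))))))) (.ch (nat_lit 1) (.ev (nat_lit 144) (nat_lit 512) (.nd (nat_lit 528) (.br (nat_lit 3) (.br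
 (nat_lit 1) (.ch (nat_lit 0) (.ev (nat_lit 544) (nat_lit 64) (.nd (nat_lit 992) (.br (nat_lit 6) (.ch (nat_lit
 0) (.nd (nat_lit 1520) (.br (nat_lit 6) (.ch (nat_lit 3) (.ev (nat_lit 1780) (nat_lit 128) (.ev (nat_lit 1789)
 (nat_lit 8) .dd))) (.ch (nat_lit 6) (.ev (nat_lit 4228) (nat_lit 8) (.ev (nat_lit 4237) (nat_lit 128)
 .dd)))))) (.ch (nat_lit 6) (.nd (nat_lit 2000) (.br (nat_lit 6) (.ch (nat_lit 2) (.fin (nat_lit
 576476695222501953))) (.ch (nat_lit 6) (.ev (nat_lit 2868) (nat_lit 128) (.ev (nat_lit 2877) (nat_lit 8)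
 .dd)))))))))) (.ch (nat_lit 1) (.nd (nat_lit 768) (.br (nat_lit 3) (.br (nat_lit 2) (.ch (nat_lit 0) (.ev
 (nat_lit 784) (nat_lit 128) (.ev (nat_lit 1156) (nat_lit 64) (.ev (nat_lit 1165) (nat_lit 8) .dd)))) (.ch
 (nat_lit 2) (.nd (nat_lit 1520) (.br (nat_lit 4) (.br (nat_lit 2) (.ch (nat_lit 1) (.ev (nat_lit 1536)
 (nat_lit 128) (.ev (nat_lit 2420) (nat_lit 64) (.ev (nat_lit 2429) (nat_lit 8) .dd)))) (.ch (nat_lit 2) (.ev
 (nat_lit 1536) (nat_lit 128) (.ev (nat_lit 2420) (nat_lit 64) (.ev (nat_lit 2429) (nat_lit 8) .dd))))) (.br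
 (nat_lit 5) (.ch (nat_lit 4) (.ev (nat_lit 1536) (nat_lit 128) (.fin (nat_lit 576498685530554961)))) (.ch
 (nat_lit 5) (.ev (nat_lit 1536) (nat_lit 8) (.ev (nat_lit 1652) (nat_lit 128) (.ev (nat_lit 1661) (nat_lit 64)
 .dd))))))))) (.br (nat_lit 5) (.ch (nat_lit 3) (.nd (nat_lit 1584) (.br (nat_lit 4) (.ch (nat_lit 0) (.ev
 (nat_lit 1600) (nat_lit 128) (.ev (nat_lit 1780) (nat_lit 8) (.ev (nat_lit 1789) (nat_lit 64) .dd)))) (.br
 (nat_lit 6) (.ch (nat_lit 4) (.ev (nat_lit 1600) (nat_lit 8) (.fin (nat_lit 576414023280968302)))) (.ch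
 (nat_lit 6) (.ev (nat_lit 2660) (nat_lit 64) (.fin (nat_lit 577085824209207526)))))))) (.ch (nat_lit 5) (.ev
 (nat_lit 784) (nat_lit 64) (.ev (nat_lit 1284) (nat_lit 8) (.ev (nat_lit 1293) (nat_lit 128) .dd))))))))) (.br
 (nat_lit 6) (.ch (nat_lit 3) (.ev (nat_lit 544) (nat_lit 64) (.nd (nat_lit 1104) (.br (nat_lit 5) (.ch
 (nat_lit 1) (.fin (nat_lit 576499784993948276))) (.ch (nat_lit 5) (.ev (nat_lit 1156) (nat_lit 128) (.ev
 (nat_lit 1165) (nat_lit 8) .dd))))))) (.ch (nat_lit 6) (.ev (nat_lit 660) (nat_lit 64) (.nd (nat_lit 896) (.br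
 (nat_lit 4) (.br (nat_lit 3) (.ch (nat_lit 0) (.ev (nat_lit 1876) (nat_lit 8) (.ev (nat_lit 1885) (nat_lit
 128) .dd))) (.ch (nat_lit 3) (.nd (nat_lit 2304) (.br (nat_lit 4) (.br (nat_lit 3) (.ch (nat_lit 2) (.ev
 (nat_lit 2948) (nat_lit 128) (.ev (nat_lit 2957) (nat_lit 8) .dd))) (.ch (nat_lit 3) (.ev (nat_lit 2772)
 (nat_lit 8) (.ev (nat_lit 2781) (nat_lit 128) .dd)))) (.br (nat_lit 6) (.ch (nat_lit 4) (.ev (nat_lit 3668)
 (nat_lit 8) (.ev (nat_lit 3677) (nat_lit 128) .dd))) (.ch (nat_lit 6) (.ev (nat_lit 4292) (nat_lit 128) (.ev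
 (nat_lit 4301) (nat_lit 8) .dd)))))))) (.br (nat_lit 5) (.ch (nat_lit 4) (.ev (nat_lit 2484) (nat_lit 128)
 (.ev (nat_lit 2493) (nat_lit 8) .dd))) (.ch (nat_lit 5) (.ev (nat_lit 2484) (nat_lit 128) (.ev (nat_lit 2493)
 (nat_lit 8) .dd)))))))))))))) (.br (nat_lit 5) (.ch (nat_lit 4) (.ev (nat_lit 144) (nat_lit 64) (.nd (nat_lit
 480) (.br (nat_lit 3) (.br (nat_lit 2) (.ch (nat_lit 1) (.nd (nat_lit 896) (.br (nat_lit 4) (.br (nat_lit 2)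
 (.ch (nat_lit 1) (.nd (nat_lit 1744) (.br (nat_lit 1) (.ch (nat_lit 0) (.ev (nat_lit 1760) (nat_lit 8) (.ev
 (nat_lit 1840) (nat_lit 640) .dd))) (.br (nat_lit 3) (.ch (nat_lit 1) (.ev (nat_lit 2676) (nat_lit 8) (.ev
 (nat_lit 4160) (nat_lit 512) (.ev (nat_lit 4173) (nat_lit 128) .dd)))) (.ch (nat_lit 3) (.ev (nat_lit 1760)
 (nat_lit 128) (.ev (nat_lit 2180) (nat_lit 8) (.ev (nat_lit 2189) (nat_lit 512) .dd)))))))) (.ch (nat_lit 2)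
 (.ev (nat_lit 932) (nat_lit 8) (.nd (nat_lit 1744) (.br (nat_lit 4) (.br (nat_lit 3) (.ch (nat_lit 0) (.ev
 (nat_lit 2212) (nat_lit 128) (.ev (nat_lit 2221) (nat_lit 512) .dd))) (.ch (nat_lit 3) (.ev (nat_lit 1760)
 (nat_lit 128) (.ev (nat_lit 1773) (nat_lit 512) .dd)))) (.br (nat_lit 6) (.ch (nat_lit 4) (.ev (nat_lit 2036)
 (nat_lit 128) (.ev (nat_lit 2045) (nat_lit 512) .dd))) (.ch (nat_lit 6) (.fin (nat_lit
 576456904025784915))))))))) (.br (nat_lit 6) (.ch (nat_lit 4) (.ev (nat_lit 912) (nat_lit 8) (.nd (nat_lit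
 2304) (.ch (nat_lit 0) (.nd (nat_lit 4592) (.br (nat_lit 6) (.ch (nat_lit 5) (.ev (nat_lit 4884) (nat_lit 512)
 (.ev (nat_lit 4893) (nat_lit 128) .dd))) (.ch (nat_lit 6) (.fin (nat_lit 577046242073722942))))))))) (.ch
 (nat_lit 6) (.ev (nat_lit 912) (nat_lit 512) (.ev (nat_lit 4112) (nat_lit 136) .dd))))))) (.ch (nat_lit 2)
 (.ev (nat_lit 496) (nat_lit 512) (.nd (nat_lit 832) (.br (nat_lit 6) (.ch (nat_lit 5) (.nd (nat_lit 1744) (.br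
 (nat_lit 4) (.ch (nat_lit 1) (.fin (nat_lit 576478894237368883))) (.ch (nat_lit 4) (.ev (nat_lit 3476)
 (nat_lit 8) (.ev (nat_lit 3485) (nat_lit 128) .dd)))))) (.ch (nat_lit 6) (.nd (nat_lit 1520) (.br (nat_lit 5)
 (.ch (nat_lit 1) (.ev (nat_lit 4292) (nat_lit 8) (.ev (nat_lit 4301) (nat_lit 128) .dd))) (.ch (nat_lit 5)
 (.ev (nat_lit 1780) (nat_lit 128) (.ev (nat_lit 1789) (nat_lit 8) .dd))))))))))) (.br (nat_lit 6) (.ch
 (nat_lit 3) (.nd (nat_lit 832) (.br (nat_lit 2) (.br (nat_lit 1) (.ch (nat_lit 0) (.ev (nat_lit 848) (nat_lit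
 512) (.nd (nat_lit 1520) (.br (nat_lit 5) (.ch (nat_lit 0) (.ev (nat_lit 1652) (nat_lit 128) (.ev (nat_lit
 1661) (nat_lit 8) .dd))) (.ch (nat_lit 5) (.fin (nat_lit 576433814259581481))))))) (.ch (nat_lit 1) (.nd
 (nat_lit 1312) (.br (nat_lit 3) (.ch (nat_lit 2) (.ev (nat_lit 1328) (nat_lit 512) (.ev (nat_lit 1636)
 (nat_lit 8) (.ev (nat_lit 1645) (nat_lit 128) .dd)))) (.br (nat_lit 5) (.ch (nat_lit 3) (.ev (nat_lit 1328)
 (nat_lit 8) (.ev (nat_lit 2384) (nat_lit 640) .dd))) (.ch (nat_lit 5) (.ev (nat_lit 1556) (nat_lit 128) (.ev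
 (nat_lit 1636) (nat_lit 8) (.ev (nat_lit 1645) (nat_lit 512) .dd))))))))) (.br (nat_lit 5) (.ch (nat_lit 2)
 (.nd (nat_lit 1520) (.br (nat_lit 4) (.br (nat_lit 1) (.ch (nat_lit 0) (.nd (nat_lit 3168) (.br (nat_lit 5)
 (.ch (nat_lit 0) (.ev (nat_lit 3184) (nat_lit 128) (.fin (nat_lit 576575651285778850)))) (.ch (nat_lit 5) (.ev
 (nat_lit 3380) (nat_lit 8) (.nd (nat_lit 5584) (.br (nat_lit 5) (.ch (nat_lit 4) (.fin (nat_lit
 576525073769775751))) (.ch (nat_lit 5) (.ev (nat_lit 5600) (nat_lit 128) (.ev (nat_lit 5613) (nat_lit 512)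
 .dd)))))))))) (.ch (nat_lit 1) (.nd (nat_lit 3216) (.br (nat_lit 1) (.ch (nat_lit 0) (.ev (nat_lit 3232)
 (nat_lit 512) (.ev (nat_lit 3860) (nat_lit 8) (.ev (nat_lit 3869) (nat_lit 128) .dd)))) (.br (nat_lit 4) (.ch
 (nat_lit 1) (.ev (nat_lit 3232) (nat_lit 512) (.ev (nat_lit 3348) (nat_lit 8) (.ev (nat_lit 3357) (nat_lit
 128) .dd)))) (.ch (nat_lit 4) (.ev (nat_lit 3232) (nat_lit 8) (.fin (nat_lit 576527272769962484))))))))) (.br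
 (nat_lit 6) (.ch (nat_lit 4) (.ev (nat_lit 1536) (nat_lit 512) (.ev (nat_lit 2068) (nat_lit 128) (.ev (nat_lit
 2077) (nat_lit 8) .dd)))) (.ch (nat_lit 6) (.ev (nat_lit 2580) (nat_lit 128) (.nd (nat_lit 3216) (.br (nat_lit
 2) (.ch (nat_lit 0) (.fin (nat_lit 576538267898823209))) (.br (nat_lit 5) (.ch (nat_lit 2) (.ev (nat_lit 3268)
 (nat_lit 8) (.ev (nat_lit 3277) (nat_lit 512) .dd))) (.ch (nat_lit 5) (.ev (nat_lit 3360) (nat_lit 8) (.ev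
 (nat_lit 3373) (nat_lit 512) .dd)))))))))))) (.ch (nat_lit 5) (.nd (nat_lit 1744) (.br (nat_lit 4) (.ch
 (nat_lit 2) (.ev (nat_lit 1760) (nat_lit 512) (.ev (nat_lit 2228) (nat_lit 128) (.ev (nat_lit 2237) (nat_lit
 8) .dd)))) (.br (nat_lit 5) (.ch (nat_lit 4) (.ev (nat_lit 1780) (nat_lit 8) (.nd (nat_lit 4784) (.br (nat_lit
 6) (.ch (nat_lit 3) (.ev (nat_lit 4800) (nat_lit 128) (.ev (nat_lit 4813) (nat_lit 512) .dd))) (.ch (nat_lit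
 6) (.fin (nat_lit 576414023083835999))))))) (.ch (nat_lit 5) (.ev (nat_lit 1760) (nat_lit 512) (.ev (nat_lit
 2180) (nat_lit 128) (.ev (nat_lit 2189) (nat_lit 8) .dd)))))))))))) (.ch (nat_lit 6) (.ev (nat_lit 496)
 (nat_lit 512) (.nd (nat_lit 768) (.br (nat_lit 3) (.ch (nat_lit 0) (.ev (nat_lit 1060) (nat_lit 128) (.ev
 (nat_lit 1069) (nat_lit 8) .dd))) (.ch (nat_lit 3) (.ev (nat_lit 1060) (nat_lit 8) (.ev (nat_lit 1069)
 (nat_lit 128) .dd)))))))))))) (.ch (nat_lit 5) (.nd (nat_lit 528) (.br (nat_lit 2) (.br (nat_lit 1) (.ch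
 (nat_lit 0) (.ev (nat_lit 544) (nat_lit 8) (.nd (nat_lit 896) (.br (nat_lit 4) (.br (nat_lit 1) (.ch (nat_lit
 0) (.ev (nat_lit 912) (nat_lit 128) (.ev (nat_lit 1156) (nat_lit 512) (.ev (nat_lit 1165) (nat_lit 64) .dd))))
 (.ch (nat_lit 1) (.ev (nat_lit 912) (nat_lit 64) (.ev (nat_lit 1156) (nat_lit 128) (.ev (nat_lit 1165)
 (nat_lit 512) .dd))))) (.br (nat_lit 6) (.ch (nat_lit 4) (.ev (nat_lit 1156) (nat_lit 128) (.nd (nat_lit 2144)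
 (.br (nat_lit 6) (.ch (nat_lit 3) (.nd (nat_lit 5184) (.br (nat_lit 5) (.ch (nat_lit 1) (.ev (nat_lit 5200)
 (nat_lit 64) (.ev (nat_lit 5213) (nat_lit 512) .dd))) (.ch (nat_lit 5) (.fin (nat_lit 576354649307038066))))))
 (.ch (nat_lit 6) (.ev (nat_lit 2160) (nat_lit 512) (.ev (nat_lit 2173) (nat_lit 64) .dd))))))) (.ch (nat_lit
 6) (.ev (nat_lit 1156) (nat_lit 512) (.ev (nat_lit 1476) (nat_lit 128) (.ev (nat_lit 1485) (nat_lit 64)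
 .dd))))))))) (.ch (nat_lit 1) (.nd (nat_lit 896) (.br (nat_lit 2) (.br (nat_lit 1) (.ch (nat_lit 0) (.ev
 (nat_lit 912) (nat_lit 8) (.ev (nat_lit 1156) (nat_lit 128) (.ev (nat_lit 1188) (nat_lit 512) (.ev (nat_lit
 1197) (nat_lit 64) .dd))))) (.ch (nat_lit 1) (.ev (nat_lit 912) (nat_lit 72) (.ev (nat_lit 1040) (nat_lit 640)
 .dd)))) (.br (nat_lit 4) (.ch (nat_lit 2) (.ev (nat_lit 1028) (nat_lit 64) (.ev (nat_lit 1156) (nat_lit 512)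
 (.nd (nat_lit 2592) (.br (nat_lit 3) (.ch (nat_lit 2) (.nd (nat_lit 5280) (.br (nat_lit 4) (.ch (nat_lit 0)
 (.fin (nat_lit 576453605416452886))) (.br (nat_lit 5) (.ch (nat_lit 4) (.ev (nat_lit 5296) (nat_lit 8) (.ev
 (nat_lit 5309) (nat_lit 128) .dd))) (.ch (nat_lit 5) (.ev (nat_lit 5296) (nat_lit 8) (.ev (nat_lit 5309)
 (nat_lit 128) .dd))))))) (.br (nat_lit 5) (.ch (nat_lit 3) (.ev (nat_lit 2608) (nat_lit 8) (.ev (nat_lit 2621)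
 (nat_lit 128) .dd))) (.ch (nat_lit 5) (.ev (nat_lit 2608) (nat_lit 8) (.ev (nat_lit 2621) (nat_lit 128)
 .dd))))))))) (.br (nat_lit 6) (.ch (nat_lit 4) (.ev (nat_lit 912) (nat_lit 8) (.ev (nat_lit 1188) (nat_lit
 512) (.nd (nat_lit 2304) (.br (nat_lit 5) (.br (nat_lit 2) (.ch (nat_lit 1) (.ev (nat_lit 2432) (nat_lit 128)
 (.ev (nat_lit 2445) (nat_lit 64) .dd))) (.ch (nat_lit 2) (.nd (nat_lit 4832) (.br (nat_lit 4) (.ch (nat_lit 0)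
 (.fin (nat_lit 576439311864906363))) (.ch (nat_lit 4) (.ev (nat_lit 4848) (nat_lit 128) (.ev (nat_lit 4861)
 (nat_lit 64) .dd))))))) (.br (nat_lit 6) (.ch (nat_lit 5) (.ev (nat_lit 2320) (nat_lit 128) (.ev (nat_lit
 2333) (nat_lit 64) .dd))) (.ch (nat_lit 6) (.ev (nat_lit 2320) (nat_lit 64) (.ev (nat_lit 2333) (nat_lit 128)
 .dd))))))))) (.ch (nat_lit 6) (.ev (nat_lit 912) (nat_lit 640) (.nd (nat_lit 2592) (.br (nat_lit 6) (.ch
 (nat_lit 0) (.fin (nat_lit 576470098138055236))) (.ch (nat_lit 6) (.ev (nat_lit 2628) (nat_lit 8) (.ev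
 (nat_lit 2637) (nat_lit 64) .dd))))))))))))) (.br (nat_lit 6) (.ch (nat_lit 2) (.ev (nat_lit 544) (nat_lit 64)
 (.nd (nat_lit 896) (.br (nat_lit 3) (.br (nat_lit 1) (.ch (nat_lit 0) (.ev (nat_lit 912) (nat_lit 512) (.ev
 (nat_lit 1156) (nat_lit 128) (.ev (nat_lit 1165) (nat_lit 8) .dd)))) (.ch (nat_lit 1) (.ev (nat_lit 948)
 (nat_lit 8) (.ev (nat_lit 1156) (nat_lit 128) (.ev (nat_lit 1165) (nat_lit 512) .dd))))) (.br (nat_lit 4) (.ch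
 (nat_lit 3) (.ev (nat_lit 1156) (nat_lit 128) (.nd (nat_lit 2832) (.br (nat_lit 5) (.ch (nat_lit 4) (.ev
 (nat_lit 2900) (nat_lit 8) (.ev (nat_lit 2909) (nat_lit 512) .dd))) (.ch (nat_lit 5) (.ev (nat_lit 2848)
 (nat_lit 8) (.ev (nat_lit 2861) (nat_lit 512) .dd))))))) (.ch (nat_lit 4) (.ev (nat_lit 912) (nat_lit 128)
 (.ev (nat_lit 1396) (nat_lit 512) (.ev (nat_lit 1405) (nat_lit 8) .dd))))))))) (.ch (nat_lit 6) (.ev (nat_lit
 544) (nat_lit 64) (.nd (nat_lit 1104) (.br (nat_lit 5) (.br (nat_lit 3) (.ch (nat_lit 1) (.ev (nat_lit 1120)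
 (nat_lit 128) (.nd (nat_lit 2304) (.br (nat_lit 4) (.ch (nat_lit 1) (.ev (nat_lit 2628) (nat_lit 512) (.ev
 (nat_lit 2637) (nat_lit 8) .dd))) (.ch (nat_lit 4) (.fin (nat_lit 576516277626421905))))))) (.ch (nat_lit 3)
 (.ev (nat_lit 1120) (nat_lit 8) (.ev (nat_lit 1364) (nat_lit 128) (.ev (nat_lit 1373) (nat_lit 512) .dd)))))
 (.br (nat_lit 6) (.ch (nat_lit 5) (.ev (nat_lit 1120) (nat_lit 8) (.fin (nat_lit 576466799618900545)))) (.ch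
 (nat_lit 6) (.ev (nat_lit 1120) (nat_lit 8) (.ev (nat_lit 1136) (nat_lit 640) .dd))))))))))))))))) (.br
 (nat_lit 6) (.ch (nat_lit 3) (.ev (nat_lit 48) (nat_lit 712) (.nd (nat_lit 192) (.br (nat_lit 5) (.br (nat_lit
 1) (.ch (nat_lit 0) (.ev (nat_lit 208) (nat_lit 16) (.nd (nat_lit 480) (.br (nat_lit 2) (.br (nat_lit 1) (.ch
 (nat_lit 0) (.nd (nat_lit 992) (.br (nat_lit 4) (.br (nat_lit 3) (.ch (nat_lit 2) (.nd (nat_lit 2304) (.br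
 (nat_lit 3) (.br (nat_lit 1) (.ch (nat_lit 0) (.ev (nat_lit 2320) (nat_lit 256) (.ev (nat_lit 2333) (nat_lit
 4) .dd))) (.ch (nat_lit 1) (.ev (nat_lit 2820) (nat_lit 4) (.ev (nat_lit 2829) (nat_lit 256) .dd)))) (.br
 (nat_lit 6) (.ch (nat_lit 3) (.ev (nat_lit 3728) (nat_lit 4) (.ev (nat_lit 3741) (nat_lit 256) .dd))) (.ch
 (nat_lit 6) (.ev (nat_lit 2868) (nat_lit 256) (.ev (nat_lit 2877) (nat_lit 4) .dd))))))) (.ch (nat_lit 3) (.ev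
 (nat_lit 1924) (nat_lit 4) (.ev (nat_lit 1933) (nat_lit 256) .dd)))) (.br (nat_lit 6) (.ch (nat_lit 4) (.fin
 (nat_lit 576500884516061728))) (.ch (nat_lit 6) (.ev (nat_lit 1008) (nat_lit 256) (.ev (nat_lit 1021) (nat_lit
 4) .dd))))))) (.ch (nat_lit 1) (.ev (nat_lit 496) (nat_lit 256) (.ev (nat_lit 509) (nat_lit 4) .dd)))) (.br
 (nat_lit 4) (.ch (nat_lit 2) (.ev (nat_lit 496) (nat_lit 256) (.ev (nat_lit 509) (nat_lit 4) .dd))) (.ch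
 (nat_lit 4) (.nd (nat_lit 768) (.br (nat_lit 3) (.br (nat_lit 1) (.ch (nat_lit 0) (.ev (nat_lit 784) (nat_lit
 256) (.ev (nat_lit 797) (nat_lit 4) .dd))) (.ch (nat_lit 1) (.nd (nat_lit 1744) (.br (nat_lit 3) (.br (nat_lit
 2) (.ch (nat_lit 1) (.ev (nat_lit 2052) (nat_lit 4) (.ev (nat_lit 2061) (nat_lit 256) .dd))) (.ch (nat_lit 2)
 (.ev (nat_lit 2336) (nat_lit 260) .dd))) (.br (nat_lit 4) (.ch (nat_lit 3) (.ev (nat_lit 1760) (nat_lit 4)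
 (.ev (nat_lit 1773) (nat_lit 256) .dd))) (.ch (nat_lit 4) (.ev (nat_lit 2228) (nat_lit 256) (.ev (nat_lit
 2237) (nat_lit 4) .dd)))))))) (.br (nat_lit 4) (.ch (nat_lit 3) (.nd (nat_lit 1520) (.br (nat_lit 5) (.ch
 (nat_lit 3) (.ev (nat_lit 1636) (nat_lit 4) (.ev (nat_lit 1645) (nat_lit 256) .dd))) (.br (nat_lit 6) (.ch
 (nat_lit 5) (.ev (nat_lit 1636) (nat_lit 4) (.ev (nat_lit 1645) (nat_lit 256) .dd))) (.ch (nat_lit 6) (.ev
 (nat_lit 1536) (nat_lit 4) (.ev (nat_lit 1549) (nat_lit 256) .dd))))))) (.ch (nat_lit 4) (.nd (nat_lit 2304)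
 (.ch (nat_lit 2) (.nd (nat_lit 5088) (.br (nat_lit 6) (.ch (nat_lit 4) (.ev (nat_lit 5124) (nat_lit 4) (.ev
 (nat_lit 5133) (nat_lit 256) .dd))) (.ch (nat_lit 6) (.fin (nat_lit 576522874801046128))))))))))))))))) (.ch
 (nat_lit 1) (.nd (nat_lit 528) (.br (nat_lit 4) (.br (nat_lit 2) (.ch (nat_lit 0) (.ev (nat_lit 544) (nat_lit
 4) (.nd (nat_lit 896) (.br (nat_lit 5) (.br (nat_lit 3) (.ch (nat_lit 0) (.ev (nat_lit 912) (nat_lit 256) (.ev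
 (nat_lit 925) (nat_lit 16) .dd))) (.ch (nat_lit 3) (.nd (nat_lit 2592) (.br (nat_lit 4) (.br (nat_lit 3) (.ch
 (nat_lit 0) (.ev (nat_lit 2608) (nat_lit 16) (.ev (nat_lit 2621) (nat_lit 256) .dd))) (.ch (nat_lit 3) (.fin
 (nat_lit 576470098165318221)))) (.br (nat_lit 6) (.ch (nat_lit 4) (.ev (nat_lit 2608) (nat_lit 16) (.ev
 (nat_lit 2621) (nat_lit 256) .dd))) (.ch (nat_lit 6) (.ev (nat_lit 2608) (nat_lit 256) (.ev (nat_lit 2621)
 (nat_lit 16) .dd)))))))) (.br (nat_lit 6) (.ch (nat_lit 5) (.fin (nat_lit 576475595654251089))) (.ch (nat_lit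
 6) (.nd (nat_lit 2592) (.br (nat_lit 2) (.ch (nat_lit 1) (.ev (nat_lit 2608) (nat_lit 16) (.ev (nat_lit 2621)
 (nat_lit 256) .dd))) (.ch (nat_lit 2) (.ev (nat_lit 2660) (nat_lit 16) (.ev (nat_lit 2669) (nat_lit 256)
 .dd))))))))))) (.ch (nat_lit 2) (.nd (nat_lit 832) (.br (nat_lit 3) (.br (nat_lit 2) (.ch (nat_lit 0) (.ev
 (nat_lit 848) (nat_lit 16) (.nd (nat_lit 2304) (.br (nat_lit 4) (.ch (nat_lit 2) (.fin (nat_lit
 576492088448205345))) (.ch (nat_lit 4) (.ev (nat_lit 2372) (nat_lit 256) (.ev (nat_lit 2381) (nat_lit 4)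
 .dd))))))) (.ch (nat_lit 2) (.ev (nat_lit 848) (nat_lit 4) (.nd (nat_lit 2000) (.br (nat_lit 4) (.br (nat_lit
 3) (.ch (nat_lit 0) (.ev (nat_lit 2016) (nat_lit 256) (.ev (nat_lit 2029) (nat_lit 16) .dd))) (.ch (nat_lit 3)
 (.nd (nat_lit 4032) (.br (nat_lit 5) (.ch (nat_lit 2) (.ev (nat_lit 4048) (nat_lit 256) (.ev (nat_lit 4061)
 (nat_lit 16) .dd))) (.ch (nat_lit 5) (.ev (nat_lit 4068) (nat_lit 16) (.ev (nat_lit 4077) (nat_lit 256)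
 .dd))))))) (.br (nat_lit 5) (.ch (nat_lit 4) (.ev (nat_lit 2420) (nat_lit 256) (.ev (nat_lit 2429) (nat_lit
 16) .dd))) (.ch (nat_lit 5) (.ev (nat_lit 2016) (nat_lit 256) (.ev (nat_lit 2029) (nat_lit 16) .dd)))))))))
 (.br (nat_lit 4) (.ch (nat_lit 3) (.ev (nat_lit 848) (nat_lit 4) (.nd (nat_lit 2000) (.br (nat_lit 5) (.br
 (nat_lit 4) (.ch (nat_lit 0) (.ev (nat_lit 2016) (nat_lit 256) (.ev (nat_lit 2029) (nat_lit 16) .dd))) (.ch
 (nat_lit 4) (.ev (nat_lit 4196) (nat_lit 16) (.ev (nat_lit 4205) (nat_lit 256) .dd)))) (.br (nat_lit 6) (.ch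
 (nat_lit 5) (.ev (nat_lit 4196) (nat_lit 16) (.ev (nat_lit 4205) (nat_lit 256) .dd))) (.ch (nat_lit 6) (.nd
 (nat_lit 4624) (.br (nat_lit 3) (.ch (nat_lit 2) (.ev (nat_lit 4640) (nat_lit 16) (.ev (nat_lit 4653) (nat_lit
 256) .dd))) (.ch (nat_lit 3) (.fin (nat_lit 577046242419754582))))))))))) (.br (nat_lit 6) (.ch (nat_lit 4)
 (.ev (nat_lit 848) (nat_lit 260) (.ev (nat_lit 861) (nat_lit 16) .dd))) (.ch (nat_lit 6) (.ev (nat_lit 1428)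
 (nat_lit 4) (.nd (nat_lit 2144) (.br (nat_lit 4) (.ch (nat_lit 3) (.ev (nat_lit 3940) (nat_lit 16) (.ev
 (nat_lit 3949) (nat_lit 256) .dd))) (.br (nat_lit 6) (.ch (nat_lit 4) (.ev (nat_lit 2160) (nat_lit 16) (.ev
 (nat_lit 2173) (nat_lit 256) .dd))) (.ch (nat_lit 6) (.ev (nat_lit 2160) (nat_lit 256) (.ev (nat_lit 2173)
 (nat_lit 16) .dd)))))))))))))) (.br (nat_lit 5) (.ch (nat_lit 4) (.ev (nat_lit 544) (nat_lit 256) (.nd
 (nat_lit 992) (.br (nat_lit 5) (.br (nat_lit 1) (.ch (nat_lit 0) (.ev (nat_lit 1396) (nat_lit 16) (.ev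
 (nat_lit 1405) (nat_lit 4) .dd))) (.ch (nat_lit 1) (.ev (nat_lit 1396) (nat_lit 4) (.ev (nat_lit 1405)
 (nat_lit 16) .dd)))) (.br (nat_lit 6) (.ch (nat_lit 5) (.nd (nat_lit 2832) (.br (nat_lit 4) (.ch (nat_lit 2)
 (.ev (nat_lit 2900) (nat_lit 16) (.ev (nat_lit 2909) (nat_lit 4) .dd))) (.ch (nat_lit 4) (.ev (nat_lit 2848)
 (nat_lit 4) (.ev (nat_lit 2861) (nat_lit 16) .dd)))))) (.ch (nat_lit 6) (.ev (nat_lit 1008) (nat_lit 16) (.ev
 (nat_lit 1021) (nat_lit 4) .dd)))))))) (.ch (nat_lit 5) (.ev (nat_lit 544) (nat_lit 256) (.nd (nat_lit 992)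
 (.br (nat_lit 4) (.br (nat_lit 1) (.ch (nat_lit 0) (.ev (nat_lit 1008) (nat_lit 4) (.ev (nat_lit 1021)
 (nat_lit 16) .dd))) (.ch (nat_lit 1) (.ev (nat_lit 1008) (nat_lit 4) (.ev (nat_lit 1021) (nat_lit 16) .dd))))
 (.br (nat_lit 5) (.ch (nat_lit 4) (.nd (nat_lit 2592) (.br (nat_lit 3) (.ch (nat_lit 2) (.ev (nat_lit 2868)
 (nat_lit 4) (.ev (nat_lit 2877) (nat_lit 16) .dd))) (.ch (nat_lit 3) (.fin (nat_lit 576468998579241757))))))
 (.ch (nat_lit 5) (.ev (nat_lit 1008) (nat_lit 4) (.ev (nat_lit 1021) (nat_lit 16) .dd))))))))))))) (.br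
 (nat_lit 6) (.ch (nat_lit 5) (.nd (nat_lit 480) (.br (nat_lit 4) (.br (nat_lit 2) (.ch (nat_lit 0) (.ev
 (nat_lit 496) (nat_lit 16) (.nd (nat_lit 832) (.br (nat_lit 3) (.br (nat_lit 2) (.ch (nat_lit 1) (.ev (nat_lit
 868) (nat_lit 4) (.ev (nat_lit 877) (nat_lit 256) .dd))) (.ch (nat_lit 2) (.ev (nat_lit 848) (nat_lit 4) (.ev
 (nat_lit 861) (nat_lit 256) .dd)))) (.br (nat_lit 4) (.ch (nat_lit 3) (.ev (nat_lit 848) (nat_lit 256) (.ev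
 (nat_lit 861) (nat_lit 4) .dd))) (.ch (nat_lit 4) (.nd (nat_lit 2144) (.br (nat_lit 6) (.ch (nat_lit 1) (.ev
 (nat_lit 2160) (nat_lit 4) (.ev (nat_lit 2173) (nat_lit 256) .dd))) (.ch (nat_lit 6) (.fin (nat_lit
 576474496104874652))))))))))) (.ch (nat_lit 2) (.nd (nat_lit 768) (.br (nat_lit 2) (.br (nat_lit 1) (.ch
 (nat_lit 0) (.ev (nat_lit 784) (nat_lit 16) (.ev (nat_lit 1040) (nat_lit 260) .dd))) (.ch (nat_lit 1) (.nd
 (nat_lit 1312) (.br (nat_lit 2) (.br (nat_lit 1) (.ch (nat_lit 0) (.ev (nat_lit 1328) (nat_lit 16) (.fin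
 (nat_lit 576445908907409961)))) (.ch (nat_lit 1) (.ev (nat_lit 2068) (nat_lit 4) (.ev (nat_lit 3812) (nat_lit
 256) (.ev (nat_lit 3821) (nat_lit 16) .dd))))) (.br (nat_lit 3) (.ch (nat_lit 2) (.ev (nat_lit 1328) (nat_lit
 4) (.ev (nat_lit 1556) (nat_lit 256) (.ev (nat_lit 1565) (nat_lit 16) .dd)))) (.ch (nat_lit 3) (.ev (nat_lit
 2196) (nat_lit 16) (.ev (nat_lit 2244) (nat_lit 4) (.ev (nat_lit 2253) (nat_lit 256) .dd))))))))) (.br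
 (nat_lit 4) (.ch (nat_lit 2) (.nd (nat_lit 1312) (.br (nat_lit 4) (.br (nat_lit 3) (.ch (nat_lit 1) (.ev
 (nat_lit 1328) (nat_lit 16) (.ev (nat_lit 1556) (nat_lit 4) (.ev (nat_lit 1565) (nat_lit 256) .dd)))) (.ch
 (nat_lit 3) (.ev (nat_lit 1732) (nat_lit 16) (.fin (nat_lit 576447008438960630))))) (.br (nat_lit 5) (.ch
 (nat_lit 4) (.nd (nat_lit 3312) (.br (nat_lit 2) (.ch (nat_lit 0) (.ev (nat_lit 3328) (nat_lit 256) (.ev
 (nat_lit 4772) (nat_lit 16) (.ev (nat_lit 4781) (nat_lit 4) .dd)))) (.ch (nat_lit 2) (.ev (nat_lit 3328)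
 (nat_lit 4) (.fin (nat_lit 576488789851456062))))))) (.ch (nat_lit 5) (.ev (nat_lit 1636) (nat_lit 16) (.nd
 (nat_lit 3312) (.br (nat_lit 5) (.ch (nat_lit 1) (.fin (nat_lit 576540466890621517))) (.ch (nat_lit 5) (.ev
 (nat_lit 3348) (nat_lit 4) (.ev (nat_lit 3357) (nat_lit 256) .dd))))))))))) (.br (nat_lit 5) (.ch (nat_lit 4)
 (.ev (nat_lit 784) (nat_lit 260) (.ev (nat_lit 797) (nat_lit 16) .dd))) (.ch (nat_lit 5) (.nd (nat_lit 1520)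
 (.br (nat_lit 4) (.ch (nat_lit 0) (.nd (nat_lit 3168) (.br (nat_lit 1) (.ch (nat_lit 0) (.ev (nat_lit 3184)
 (nat_lit 256) (.ev (nat_lit 4228) (nat_lit 4) (.ev (nat_lit 4237) (nat_lit 16) .dd)))) (.br (nat_lit 6) (.ch
 (nat_lit 1) (.ev (nat_lit 3184) (nat_lit 4) (.fin (nat_lit 576467899118994013)))) (.ch (nat_lit 6) (.ev
 (nat_lit 3184) (nat_lit 16) (.ev (nat_lit 3508) (nat_lit 256) (.ev (nat_lit 3517) (nat_lit 4) .dd)))))))) (.br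
 (nat_lit 6) (.ch (nat_lit 4) (.ev (nat_lit 1536) (nat_lit 16) (.ev (nat_lit 4308) (nat_lit 256) (.ev (nat_lit
 4317) (nat_lit 4) .dd)))) (.ch (nat_lit 6) (.ev (nat_lit 1536) (nat_lit 256) (.nd (nat_lit 3168) (.br (nat_lit
 3) (.ch (nat_lit 1) (.fin (nat_lit 576421719825662350))) (.br (nat_lit 4) (.ch (nat_lit 3) (.ev (nat_lit 3252)
 (nat_lit 16) (.ev (nat_lit 3261) (nat_lit 4) .dd))) (.ch (nat_lit 4) (.ev (nat_lit 3184) (nat_lit 16) (.ev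
 (nat_lit 3197) (nat_lit 4) .dd)))))))))))))))))) (.br (nat_lit 6) (.ch (nat_lit 4) (.nd (nat_lit 832) (.br
 (nat_lit 3) (.br (nat_lit 1) (.ch (nat_lit 0) (.nd (nat_lit 1744) (.br (nat_lit 6) (.ch (nat_lit 5) (.ev
 (nat_lit 1780) (nat_lit 16) (.nd (nat_lit 3312) (.br (nat_lit 3) (.ch (nat_lit 2) (.ev (nat_lit 3328) (nat_lit
 4) (.ev (nat_lit 3341) (nat_lit 256) .dd))) (.ch (nat_lit 3) (.fin (nat_lit 576646019474212306))))))) (.ch
 (nat_lit 6) (.ev (nat_lit 1760) (nat_lit 256) (.nd (nat_lit 3312) (.br (nat_lit 6) (.ch (nat_lit 0) (.ev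
 (nat_lit 4372) (nat_lit 4) (.ev (nat_lit 4381) (nat_lit 16) .dd))) (.ch (nat_lit 6) (.ev (nat_lit 3824)
 (nat_lit 20) .dd))))))))) (.ch (nat_lit 1) (.ev (nat_lit 848) (nat_lit 4) (.ev (nat_lit 1188) (nat_lit 256)
 (.ev (nat_lit 1197) (nat_lit 16) .dd))))) (.br (nat_lit 6) (.ch (nat_lit 3) (.nd (nat_lit 1584) (.br (nat_lit
 4) (.br (nat_lit 3) (.ch (nat_lit 0) (.ev (nat_lit 1600) (nat_lit 4) (.ev (nat_lit 1780) (nat_lit 16) (.ev
 (nat_lit 1789) (nat_lit 256) .dd)))) (.ch (nat_lit 3) (.ev (nat_lit 1600) (nat_lit 256) (.fin (nat_lit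
 576487690405888515))))) (.br (nat_lit 6) (.ch (nat_lit 4) (.ev (nat_lit 1600) (nat_lit 16) (.ev (nat_lit 4292)
 (nat_lit 256) (.ev (nat_lit 4301) (nat_lit 4) .dd)))) (.ch (nat_lit 6) (.ev (nat_lit 1600) (nat_lit 256) (.ev
 (nat_lit 1780) (nat_lit 4) (.ev (nat_lit 1789) (nat_lit 16) .dd)))))))) (.ch (nat_lit 6) (.ev (nat_lit 848)
 (nat_lit 16) (.nd (nat_lit 2000) (.br (nat_lit 3) (.ch (nat_lit 0) (.ev (nat_lit 2036) (nat_lit 4) (.ev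
 (nat_lit 2045) (nat_lit 256) .dd))) (.br (nat_lit 4) (.ch (nat_lit 3) (.ev (nat_lit 4256) (nat_lit 260) .dd))
 (.ch (nat_lit 4) (.ev (nat_lit 2452) (nat_lit 4) (.ev (nat_lit 2461) (nat_lit 256) .dd)))))))))))) (.ch
 (nat_lit 6) (.ev (nat_lit 496) (nat_lit 16) (.nd (nat_lit 992) (.br (nat_lit 3) (.br (nat_lit 2) (.ch (nat_lit
 0) (.ev (nat_lit 1136) (nat_lit 260) .dd)) (.ch (nat_lit 2) (.ev (nat_lit 2708) (nat_lit 4) (.ev (nat_lit
 2717) (nat_lit 256) .dd)))) (.br (nat_lit 6) (.ch (nat_lit 3) (.ev (nat_lit 1008) (nat_lit 4) (.ev (nat_lit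
 1021) (nat_lit 256) .dd))) (.ch (nat_lit 6) (.ev (nat_lit 1220) (nat_lit 4) (.ev (nat_lit 1229) (nat_lit 256)
 .dd)))))))))))) (.ch (nat_lit 6) (.ev (nat_lit 208) (nat_lit 256) (.nd (nat_lit 432) (.br (nat_lit 5) (.br
 (nat_lit 3) (.ch (nat_lit 0) (.nd (nat_lit 992) (.br (nat_lit 5) (.br (nat_lit 4) (.ch (nat_lit 2) (.ev
 (nat_lit 1008) (nat_lit 16) (.ev (nat_lit 1021) (nat_lit 4) .dd))) (.ch (nat_lit 4) (.nd (nat_lit 2144) (.br
 (nat_lit 4) (.ch (nat_lit 1) (.ev (nat_lit 2420) (nat_lit 16) (.ev (nat_lit 2429) (nat_lit 4) .dd))) (.ch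
 (nat_lit 4) (.ev (nat_lit 2160) (nat_lit 4) (.ev (nat_lit 2173) (nat_lit 16) .dd))))))) (.br (nat_lit 6) (.ch
 (nat_lit 5) (.nd (nat_lit 2304) (.br (nat_lit 5) (.ch (nat_lit 3) (.nd (nat_lit 5136) (.br (nat_lit 3) (.ch
 (nat_lit 2) (.ev (nat_lit 5152) (nat_lit 4) (.ev (nat_lit 5165) (nat_lit 16) .dd))) (.ch (nat_lit 3) (.fin
 (nat_lit 576448107928568376)))))) (.br (nat_lit 6) (.ch (nat_lit 5) (.ev (nat_lit 2320) (nat_lit 16) (.ev
 (nat_lit 2333) (nat_lit 4) .dd))) (.ch (nat_lit 6) (.ev (nat_lit 2320) (nat_lit 16) (.ev (nat_lit 2333)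
 (nat_lit 4) .dd))))))) (.ch (nat_lit 6) (.nd (nat_lit 2000) (.br (nat_lit 5) (.br (nat_lit 4) (.ch (nat_lit 2)
 (.ev (nat_lit 2532) (nat_lit 16) (.ev (nat_lit 2541) (nat_lit 4) .dd))) (.ch (nat_lit 4) (.nd (nat_lit 3312)
 (.br (nat_lit 3) (.ch (nat_lit 0) (.ev (nat_lit 4676) (nat_lit 16) (.ev (nat_lit 4685) (nat_lit 4) .dd))) (.ch
 (nat_lit 3) (.nd (nat_lit 5920) (.br (nat_lit 5) (.ch (nat_lit 0) (.fin (nat_lit 576460202475733593))) (.ch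
 (nat_lit 5) (.ev (nat_lit 5936) (nat_lit 4) (.ev (nat_lit 5949) (nat_lit 16) .dd)))))))))) (.br (nat_lit 6)
 (.ch (nat_lit 5) (.ev (nat_lit 2016) (nat_lit 16) (.ev (nat_lit 2029) (nat_lit 4) .dd))) (.ch (nat_lit 6) (.nd
 (nat_lit 4624) (.br (nat_lit 1) (.ch (nat_lit 0) (.ev (nat_lit 4640) (nat_lit 4) (.ev (nat_lit 4653) (nat_lit
 16) .dd))) (.ch (nat_lit 1) (.ev (nat_lit 4640) (nat_lit 16) (.ev (nat_lit 4653) (nat_lit 4) .dd))))))))))))))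
 (.ch (nat_lit 3) (.nd (nat_lit 1104) (.br (nat_lit 4) (.br (nat_lit 1) (.ch (nat_lit 0) (.nd (nat_lit 3072)
 (.br (nat_lit 2) (.ch (nat_lit 0) (.fin (nat_lit 576468998648447553))) (.br (nat_lit 6) (.ch (nat_lit 2) (.ev
 (nat_lit 3088) (nat_lit 4) (.ev (nat_lit 3101) (nat_lit 16) .dd))) (.ch (nat_lit 6) (.ev (nat_lit 3088)
 (nat_lit 4) (.ev (nat_lit 3101) (nat_lit 16) .dd))))))) (.ch (nat_lit 1) (.ev (nat_lit 1120) (nat_lit 16) (.ev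
 (nat_lit 1133) (nat_lit 4) .dd)))) (.br (nat_lit 5) (.ch (nat_lit 4) (.ev (nat_lit 1120) (nat_lit 4) (.ev
 (nat_lit 1133) (nat_lit 16) .dd))) (.ch (nat_lit 5) (.nd (nat_lit 2592) (.br (nat_lit 3) (.ch (nat_lit 0) (.ev
 (nat_lit 2628) (nat_lit 4) (.ev (nat_lit 2637) (nat_lit 16) .dd))) (.ch (nat_lit 3) (.ev (nat_lit 3780)
 (nat_lit 16) (.ev (nat_lit 3789) (nat_lit 4) .dd))))))))))) (.br (nat_lit 6) (.ch (nat_lit 5) (.ev (nat_lit
 448) (nat_lit 16) (.ev (nat_lit 461) (nat_lit 4) .dd))) (.ch (nat_lit 6) (.ev (nat_lit 448) (nat_lit 16) (.ev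
 (nat_lit 461) (nat_lit 4) .dd))))))))))))) (.ch (nat_lit 6) (.ev (nat_lit 48) (nat_lit 4) (.nd (nat_lit 160)
 (.br (nat_lit 3) (.br (nat_lit 1) (.ch (nat_lit 0) (.ev (nat_lit 176) (nat_lit 584) (.nd (nat_lit 400) (.br
 (nat_lit 3) (.br (nat_lit 1) (.ch (nat_lit 0) (.ev (nat_lit 564) (nat_lit 128) (.nd (nat_lit 896) (.br
 (nat_lit 5) (.br (nat_lit 3) (.ch (nat_lit 2) (.ev (nat_lit 932) (nat_lit 16) (.ev (nat_lit 941) (nat_lit 256)
 .dd))) (.ch (nat_lit 3) (.ev (nat_lit 912) (nat_lit 256) (.ev (nat_lit 925) (nat_lit 16) .dd)))) (.br (nat_lit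
 6) (.ch (nat_lit 5) (.ev (nat_lit 912) (nat_lit 256) (.ev (nat_lit 925) (nat_lit 16) .dd))) (.ch (nat_lit 6)
 (.nd (nat_lit 2000) (.br (nat_lit 5) (.br (nat_lit 4) (.ch (nat_lit 3) (.ev (nat_lit 3780) (nat_lit 16) (.ev
 (nat_lit 3789) (nat_lit 256) .dd))) (.ch (nat_lit 4) (.ev (nat_lit 2372) (nat_lit 16) (.ev (nat_lit 2381)
 (nat_lit 256) .dd)))) (.br (nat_lit 6) (.ch (nat_lit 5) (.ev (nat_lit 4324) (nat_lit 16) (.ev (nat_lit 4333)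
 (nat_lit 256) .dd))) (.ch (nat_lit 6) (.ev (nat_lit 2016) (nat_lit 16) (.ev (nat_lit 2029) (nat_lit 256)
 .dd)))))))))))) (.ch (nat_lit 1) (.nd (nat_lit 768) (.br (nat_lit 4) (.br (nat_lit 1) (.ch (nat_lit 0) (.ev
 (nat_lit 784) (nat_lit 16) (.fin (nat_lit 576566855228408476)))) (.ch (nat_lit 1) (.nd (nat_lit 1520) (.br
 (nat_lit 5) (.ch (nat_lit 4) (.ev (nat_lit 1536) (nat_lit 16) (.ev (nat_lit 3796) (nat_lit 128) (.ev (nat_lit
 3805) (nat_lit 256) .dd)))) (.br (nat_lit 6) (.ch (nat_lit 5) (.ev (nat_lit 2212) (nat_lit 256) (.nd (nat_lit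
 3312) (.br (nat_lit 5) (.ch (nat_lit 0) (.ev (nat_lit 3328) (nat_lit 16) (.ev (nat_lit 3341) (nat_lit 128)
 .dd))) (.ch (nat_lit 5) (.fin (nat_lit 576364545030177283))))))) (.ch (nat_lit 6) (.ev (nat_lit 2580) (nat_lit
 256) (.nd (nat_lit 3312) (.br (nat_lit 5) (.ch (nat_lit 0) (.ev (nat_lit 3700) (nat_lit 16) (.ev (nat_lit
 3709) (nat_lit 128) .dd))) (.ch (nat_lit 5) (.ev (nat_lit 3328) (nat_lit 16) (.ev (nat_lit 3341) (nat_lit 128)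
 .dd)))))))))))) (.br (nat_lit 5) (.ch (nat_lit 4) (.nd (nat_lit 1520) (.br (nat_lit 5) (.ch (nat_lit 0) (.nd
 (nat_lit 3216) (.br (nat_lit 4) (.ch (nat_lit 1) (.ev (nat_lit 3232) (nat_lit 16) (.fin (nat_lit
 576417321661710925)))) (.br (nat_lit 6) (.ch (nat_lit 4) (.ev (nat_lit 3232) (nat_lit 16) (.fin (nat_lit
 576407425980514806)))) (.ch (nat_lit 6) (.ev (nat_lit 3940) (nat_lit 128) (.fin (nat_lit
 576440411362902590)))))))) (.br (nat_lit 6) (.ch (nat_lit 5) (.ev (nat_lit 1636) (nat_lit 128) (.ev (nat_lit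
 2052) (nat_lit 16) (.ev (nat_lit 2061) (nat_lit 256) .dd)))) (.ch (nat_lit 6) (.ev (nat_lit 2132) (nat_lit
 256) (.nd (nat_lit 3216) (.br (nat_lit 2) (.ch (nat_lit 1) (.ev (nat_lit 3252) (nat_lit 16) (.ev (nat_lit
 3261) (nat_lit 128) .dd))) (.br (nat_lit 6) (.ch (nat_lit 2) (.ev (nat_lit 3232) (nat_lit 16) (.ev (nat_lit
 3245) (nat_lit 128) .dd))) (.ch (nat_lit 6) (.fin (nat_lit 576654816217350898)))))))))))) (.ch (nat_lit 5)
 (.ev (nat_lit 784) (nat_lit 16) (.ev (nat_lit 932) (nat_lit 128) (.ev (nat_lit 941) (nat_lit 256) .dd)))))))))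
 (.br (nat_lit 5) (.ch (nat_lit 3) (.ev (nat_lit 416) (nat_lit 256) (.nd (nat_lit 896) (.br (nat_lit 1) (.ch
 (nat_lit 0) (.ev (nat_lit 1028) (nat_lit 128) (.ev (nat_lit 1037) (nat_lit 16) .dd))) (.ch (nat_lit 1) (.nd
 (nat_lit 2144) (.br (nat_lit 4) (.ch (nat_lit 1) (.nd (nat_lit 4592) (.br (nat_lit 4) (.ch (nat_lit 1) (.ev
 (nat_lit 4656) (nat_lit 144) .dd)) (.ch (nat_lit 4) (.fin (nat_lit 576521775244329561)))))) (.br (nat_lit 6)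
 (.ch (nat_lit 4) (.ev (nat_lit 2180) (nat_lit 128) (.ev (nat_lit 2189) (nat_lit 16) .dd))) (.ch (nat_lit 6)
 (.fin (nat_lit 576461302047130168))))))))))) (.ch (nat_lit 5) (.ev (nat_lit 416) (nat_lit 16) (.nd (nat_lit
 992) (.br (nat_lit 1) (.ch (nat_lit 0) (.nd (nat_lit 2592) (.br (nat_lit 5) (.ch (nat_lit 2) (.fin (nat_lit
 576531670789210720))) (.ch (nat_lit 5) (.ev (nat_lit 3108) (nat_lit 128) (.ev (nat_lit 3117) (nat_lit 256)
 .dd)))))) (.ch (nat_lit 1) (.nd (nat_lit 2144) (.br (nat_lit 1) (.ch (nat_lit 0) (.ev (nat_lit 2372) (nat_lit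
 128) (.ev (nat_lit 2381) (nat_lit 256) .dd))) (.ch (nat_lit 1) (.ev (nat_lit 2352) (nat_lit 384)
 .dd)))))))))))))) (.ch (nat_lit 1) (.ev (nat_lit 176) (nat_lit 512) (.nd (nat_lit 352) (.br (nat_lit 3) (.br
 (nat_lit 1) (.ch (nat_lit 0) (.ev (nat_lit 368) (nat_lit 128) (.nd (nat_lit 768) (.br (nat_lit 2) (.br
 (nat_lit 1) (.ch (nat_lit 0) (.ev (nat_lit 784) (nat_lit 16) (.nd (nat_lit 1744) (.br (nat_lit 3) (.br
 (nat_lit 1) (.ch (nat_lit 0) (.ev (nat_lit 1760) (nat_lit 8) (.ev (nat_lit 2196) (nat_lit 256) (.ev (nat_lit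
 2205) (nat_lit 64) .dd)))) (.ch (nat_lit 1) (.ev (nat_lit 2372) (nat_lit 8) (.nd (nat_lit 5840) (.ch (nat_lit
 5) (.fin (nat_lit 576460202622534233))))))) (.br (nat_lit 4) (.ch (nat_lit 3) (.ev (nat_lit 1760) (nat_lit
 256) (.ev (nat_lit 2180) (nat_lit 64) (.ev (nat_lit 2189) (nat_lit 8) .dd)))) (.ch (nat_lit 4) (.ev (nat_lit
 1760) (nat_lit 64) (.nd (nat_lit 5136) (.ch (nat_lit 2) (.fin (nat_lit 576470098150638136))))))))))) (.ch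
 (nat_lit 1) (.ev (nat_lit 784) (nat_lit 256) (.ev (nat_lit 1028) (nat_lit 8) (.nd (nat_lit 1584) (.br (nat_lit
 2) (.br (nat_lit 1) (.ch (nat_lit 0) (.ev (nat_lit 1600) (nat_lit 16) (.ev (nat_lit 1613) (nat_lit 64) .dd)))
 (.ch (nat_lit 1) (.ev (nat_lit 1696) (nat_lit 80) .dd))) (.br (nat_lit 6) (.ch (nat_lit 2) (.ev (nat_lit 1600)
 (nat_lit 16) (.ev (nat_lit 1613) (nat_lit 64) .dd))) (.ch (nat_lit 6) (.nd (nat_lit 4448) (.br (nat_lit 5)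
 (.ch (nat_lit 1) (.ev (nat_lit 4560) (nat_lit 64) (.ev (nat_lit 4573) (nat_lit 16) .dd))) (.ch (nat_lit 5)
 (.fin (nat_lit 576452505954107936))))))))))))) (.br (nat_lit 4) (.ch (nat_lit 2) (.ev (nat_lit 784) (nat_lit
 256) (.nd (nat_lit 1584) (.br (nat_lit 5) (.br (nat_lit 4) (.ch (nat_lit 2) (.nd (nat_lit 3168) (.br (nat_lit
 3) (.ch (nat_lit 2) (.ev (nat_lit 3184) (nat_lit 64) (.fin (nat_lit 576442610394546678)))) (.ch (nat_lit 3)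
 (.ev (nat_lit 4692) (nat_lit 8) (.nd (nat_lit 5712) (.ch (nat_lit 5) (.nd (nat_lit 6112) (.br (nat_lit 5) (.ch
 (nat_lit 1) (.fin (nat_lit 576382137216221747))) (.ch (nat_lit 5) (.ev (nat_lit 6128) (nat_lit 64) (.ev
 (nat_lit 6141) (nat_lit 16) .dd)))))))))))) (.ch (nat_lit 4) (.ev (nat_lit 1600) (nat_lit 16) (.ev (nat_lit
 2036) (nat_lit 8) (.ev (nat_lit 2045) (nat_lit 64) .dd))))) (.br (nat_lit 6) (.ch (nat_lit 5) (.ev (nat_lit
 2084) (nat_lit 16) (.ev (nat_lit 2548) (nat_lit 8) (.ev (nat_lit 2557) (nat_lit 64) .dd)))) (.ch (nat_lit 6)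
 (.ev (nat_lit 1600) (nat_lit 16) (.ev (nat_lit 4676) (nat_lit 8) (.ev (nat_lit 4685) (nat_lit 64) .dd)))))))))
 (.br (nat_lit 5) (.ch (nat_lit 4) (.ev (nat_lit 784) (nat_lit 328) (.ev (nat_lit 797) (nat_lit 16) .dd))) (.ch
 (nat_lit 5) (.ev (nat_lit 784) (nat_lit 16) (.ev (nat_lit 1060) (nat_lit 256) (.nd (nat_lit 1744) (.br
 (nat_lit 5) (.br (nat_lit 3) (.ch (nat_lit 0) (.ev (nat_lit 1760) (nat_lit 72) .dd)) (.ch (nat_lit 3) (.ev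
 (nat_lit 2452) (nat_lit 8) (.ev (nat_lit 2461) (nat_lit 64) .dd)))) (.br (nat_lit 6) (.ch (nat_lit 5) (.ev
 (nat_lit 1780) (nat_lit 64) (.ev (nat_lit 1789) (nat_lit 8) .dd))) (.ch (nat_lit 6) (.ev (nat_lit 1760)
 (nat_lit 8) (.ev (nat_lit 1773) (nat_lit 64) .dd))))))))))))))) (.ch (nat_lit 1) (.ev (nat_lit 368) (nat_lit
 200) (.nd (nat_lit 832) (.br (nat_lit 2) (.br (nat_lit 1) (.ch (nat_lit 0) (.ev (nat_lit 848) (nat_lit 16)
 (.ev (nat_lit 861) (nat_lit 256) .dd))) (.ch (nat_lit 1) (.nd (nat_lit 2304) (.br (nat_lit 4) (.ch (nat_lit 2)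
 (.ev (nat_lit 3764) (nat_lit 16) (.ev (nat_lit 3773) (nat_lit 256) .dd))) (.br (nat_lit 6) (.ch (nat_lit 4)
 (.ev (nat_lit 2320) (nat_lit 16) (.ev (nat_lit 2333) (nat_lit 256) .dd))) (.ch (nat_lit 6) (.ev (nat_lit 4308)
 (nat_lit 16) (.ev (nat_lit 4317) (nat_lit 256) .dd)))))))) (.br (nat_lit 6) (.ch (nat_lit 2) (.ev (nat_lit
 932) (nat_lit 256) (.ev (nat_lit 941) (nat_lit 16) .dd))) (.ch (nat_lit 6) (.ev (nat_lit 868) (nat_lit 16)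
 (.ev (nat_lit 877) (nat_lit 256) .dd))))))))) (.br (nat_lit 5) (.ch (nat_lit 3) (.ev (nat_lit 468) (nat_lit 8)
 (.nd (nat_lit 768) (.br (nat_lit 3) (.br (nat_lit 2) (.ch (nat_lit 0) (.ev (nat_lit 784) (nat_lit 256) (.nd
 (nat_lit 1312) (.br (nat_lit 4) (.br (nat_lit 3) (.ch (nat_lit 2) (.ev (nat_lit 1328) (nat_lit 16) (.ev
 (nat_lit 1408) (nat_lit 192) .dd))) (.ch (nat_lit 3) (.ev (nat_lit 1348) (nat_lit 16) (.ev (nat_lit 1780)
 (nat_lit 64) (.ev (nat_lit 1789) (nat_lit 128) .dd))))) (.br (nat_lit 5) (.ch (nat_lit 4) (.ev (nat_lit 1328)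
 (nat_lit 64) (.ev (nat_lit 1796) (nat_lit 16) (.ev (nat_lit 1805) (nat_lit 128) .dd)))) (.ch (nat_lit 5) (.ev
 (nat_lit 1556) (nat_lit 128) (.nd (nat_lit 3216) (.br (nat_lit 2) (.ch (nat_lit 1) (.ev (nat_lit 4324)
 (nat_lit 16) (.ev (nat_lit 4333) (nat_lit 64) .dd))) (.ch (nat_lit 2) (.ev (nat_lit 4068) (nat_lit 64) (.ev
 (nat_lit 4077) (nat_lit 16) .dd)))))))))))) (.ch (nat_lit 2) (.ev (nat_lit 784) (nat_lit 16) (.nd (nat_lit
 1312) (.br (nat_lit 3) (.br (nat_lit 2) (.ch (nat_lit 0) (.ev (nat_lit 1328) (nat_lit 128) (.nd (nat_lit 3168)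
 (.br (nat_lit 3) (.ch (nat_lit 2) (.fin (nat_lit 576500884662862578))) (.br (nat_lit 6) (.ch (nat_lit 3) (.ev
 (nat_lit 3184) (nat_lit 256) (.ev (nat_lit 3197) (nat_lit 64) .dd))) (.ch (nat_lit 6) (.ev (nat_lit 3184)
 (nat_lit 64) (.ev (nat_lit 3197) (nat_lit 256) .dd)))))))) (.ch (nat_lit 2) (.ev (nat_lit 1488) (nat_lit 128)
 (.nd (nat_lit 4592) (.ch (nat_lit 5) (.fin (nat_lit 576433814259581502))))))) (.br (nat_lit 5) (.ch (nat_lit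
 3) (.ev (nat_lit 1328) (nat_lit 256) (.fin (nat_lit 576266688397787666)))) (.ch (nat_lit 5) (.ev (nat_lit
 1328) (nat_lit 64) (.ev (nat_lit 2036) (nat_lit 128) (.ev (nat_lit 2045) (nat_lit 256) .dd)))))))))) (.br
 (nat_lit 6) (.ch (nat_lit 3) (.nd (nat_lit 1520) (.br (nat_lit 5) (.br (nat_lit 3) (.ch (nat_lit 0) (.ev
 (nat_lit 1536) (nat_lit 272) (.ev (nat_lit 4208) (nat_lit 192) .dd))) (.ch (nat_lit 3) (.ev (nat_lit 1536)
 (nat_lit 192) (.fin (nat_lit 576511879676379773))))) (.br (nat_lit 6) (.ch (nat_lit 5) (.ev (nat_lit 1780)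
 (nat_lit 80) (.nd (nat_lit 3216) (.ch (nat_lit 2) (.ev (nat_lit 3684) (nat_lit 128) (.ev (nat_lit 3693)
 (nat_lit 256) .dd)))))) (.ch (nat_lit 6) (.ev (nat_lit 1536) (nat_lit 256) (.ev (nat_lit 2724) (nat_lit 16)
 (.ev (nat_lit 3524) (nat_lit 64) (.ev (nat_lit 3533) (nat_lit 128) .dd))))))))) (.ch (nat_lit 6) (.ev (nat_lit
 784) (nat_lit 256) (.ev (nat_lit 868) (nat_lit 16) (.ev (nat_lit 1220) (nat_lit 64) (.ev (nat_lit 1229)
 (nat_lit 128) .dd)))))))))) (.br (nat_lit 6) (.ch (nat_lit 5) (.ev (nat_lit 368) (nat_lit 256) (.ev (nat_lit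
 468) (nat_lit 8) (.nd (nat_lit 720) (.br (nat_lit 4) (.br (nat_lit 2) (.ch (nat_lit 0) (.ev (nat_lit 736)
 (nat_lit 64) (.ev (nat_lit 756) (nat_lit 16) (.ev (nat_lit 765) (nat_lit 128) .dd)))) (.ch (nat_lit 2) (.ev
 (nat_lit 932) (nat_lit 128) (.ev (nat_lit 964) (nat_lit 16) (.ev (nat_lit 973) (nat_lit 64) .dd))))) (.br
 (nat_lit 5) (.ch (nat_lit 4) (.ev (nat_lit 736) (nat_lit 144) (.ev (nat_lit 749) (nat_lit 64) .dd))) (.br
 (nat_lit 6) (.ch (nat_lit 5) (.ev (nat_lit 736) (nat_lit 192) (.ev (nat_lit 749) (nat_lit 16) .dd))) (.ch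
 (nat_lit 6) (.ev (nat_lit 736) (nat_lit 64) (.nd (nat_lit 2000) (.br (nat_lit 5) (.ch (nat_lit 2) (.fin
 (nat_lit 576412923617296868))) (.ch (nat_lit 5) (.fin (nat_lit 577283737308841006)))))))))))))) (.ch (nat_lit
 6) (.ev (nat_lit 368) (nat_lit 272) (.nd (nat_lit 896) (.br (nat_lit 4) (.br (nat_lit 2) (.ch (nat_lit 1) (.ev
 (nat_lit 1156) (nat_lit 8) (.nd (nat_lit 2144) (.br (nat_lit 5) (.ch (nat_lit 2) (.fin (nat_lit
 576472297199059529))) (.br (nat_lit 6) (.ch (nat_lit 5) (.ev (nat_lit 2180) (nat_lit 64) (.ev (nat_lit 2189)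
 (nat_lit 128) .dd))) (.ch (nat_lit 6) (.ev (nat_lit 2180) (nat_lit 128) (.ev (nat_lit 2189) (nat_lit 64)
 .dd)))))))) (.ch (nat_lit 2) (.nd (nat_lit 2144) (.br (nat_lit 1) (.ch (nat_lit 0) (.ev (nat_lit 3796)
 (nat_lit 8) (.nd (nat_lit 5008) (.br (nat_lit 1) (.ch (nat_lit 0) (.fin (nat_lit 576536068842013307))) (.ch
 (nat_lit 1) (.ev (nat_lit 5024) (nat_lit 128) (.ev (nat_lit 5037) (nat_lit 64) .dd))))))) (.ch (nat_lit 1)
 (.ev (nat_lit 2160) (nat_lit 64) (.ev (nat_lit 2420) (nat_lit 128) (.ev (nat_lit 2429) (nat_lit 8) .dd))))))))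
 (.br (nat_lit 6) (.ch (nat_lit 4) (.ev (nat_lit 912) (nat_lit 8) (.nd (nat_lit 2144) (.br (nat_lit 5) (.ch
 (nat_lit 4) (.ev (nat_lit 2372) (nat_lit 128) (.ev (nat_lit 2381) (nat_lit 64) .dd))) (.ch (nat_lit 5) (.ev
 (nat_lit 2372) (nat_lit 128) (.ev (nat_lit 2381) (nat_lit 64) .dd))))))) (.ch (nat_lit 6) (.ev (nat_lit 912)
 (nat_lit 64) (.fin (nat_lit 576468998635864646)))))))))))))))) (.br (nat_lit 5) (.ch (nat_lit 3) (.ev (nat_lit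
 260) (nat_lit 128) (.nd (nat_lit 400) (.br (nat_lit 3) (.br (nat_lit 2) (.ch (nat_lit 1) (.ev (nat_lit 416)
 (nat_lit 512) (.nd (nat_lit 720) (.br (nat_lit 4) (.br (nat_lit 1) (.ch (nat_lit 0) (.ev (nat_lit 736)
 (nat_lit 88) (.ev (nat_lit 749) (nat_lit 256) .dd))) (.ch (nat_lit 1) (.ev (nat_lit 736) (nat_lit 256) (.ev
 (nat_lit 2484) (nat_lit 64) (.nd (nat_lit 3072) (.br (nat_lit 6) (.ch (nat_lit 4) (.ev (nat_lit 3088) (nat_lit
 8) (.ev (nat_lit 3101) (nat_lit 16) .dd))) (.ch (nat_lit 6) (.fin (nat_lit 576487690271670880))))))))) (.br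
 (nat_lit 5) (.ch (nat_lit 4) (.ev (nat_lit 736) (nat_lit 16) (.nd (nat_lit 2144) (.br (nat_lit 4) (.br
 (nat_lit 3) (.ch (nat_lit 2) (.ev (nat_lit 2160) (nat_lit 256) (.ev (nat_lit 2900) (nat_lit 8) (.ev (nat_lit
 2909) (nat_lit 64) .dd)))) (.ch (nat_lit 3) (.ev (nat_lit 3700) (nat_lit 64) (.ev (nat_lit 3748) (nat_lit 8)
 (.ev (nat_lit 3757) (nat_lit 256) .dd))))) (.br (nat_lit 6) (.ch (nat_lit 4) (.ev (nat_lit 2372) (nat_lit 8)
 (.ev (nat_lit 4292) (nat_lit 64) (.ev (nat_lit 4301) (nat_lit 256) .dd)))) (.ch (nat_lit 6) (.ev (nat_lit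
 2160) (nat_lit 256) (.ev (nat_lit 2804) (nat_lit 64) (.ev (nat_lit 2813) (nat_lit 8) .dd))))))))) (.br
 (nat_lit 6) (.ch (nat_lit 5) (.ev (nat_lit 736) (nat_lit 256) (.ev (nat_lit 1028) (nat_lit 8) (.nd (nat_lit
 2304) (.br (nat_lit 4) (.br (nat_lit 3) (.ch (nat_lit 2) (.ev (nat_lit 2320) (nat_lit 64) (.ev (nat_lit 2333)
 (nat_lit 16) .dd))) (.ch (nat_lit 3) (.ev (nat_lit 2320) (nat_lit 16) (.ev (nat_lit 2333) (nat_lit 64) .dd))))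
 (.br (nat_lit 5) (.ch (nat_lit 4) (.ev (nat_lit 2320) (nat_lit 80) .dd)) (.br (nat_lit 6) (.ch (nat_lit 5)
 (.ev (nat_lit 2420) (nat_lit 16) (.ev (nat_lit 2429) (nat_lit 64) .dd))) (.ch (nat_lit 6) (.ev (nat_lit 2320)
 (nat_lit 16) (.ev (nat_lit 2333) (nat_lit 64) .dd)))))))))) (.ch (nat_lit 6) (.ev (nat_lit 736) (nat_lit 16)
 (.ev (nat_lit 948) (nat_lit 256) (.ev (nat_lit 1908) (nat_lit 64) (.ev (nat_lit 1917) (nat_lit 8)
 .dd))))))))))) (.ch (nat_lit 2) (.ev (nat_lit 416) (nat_lit 512) (.nd (nat_lit 624) (.br (nat_lit 2) (.br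
 (nat_lit 1) (.ch (nat_lit 0) (.ev (nat_lit 640) (nat_lit 16) (.nd (nat_lit 1584) (.br (nat_lit 4) (.ch
 (nat_lit 3) (.ev (nat_lit 1600) (nat_lit 8) (.nd (nat_lit 3312) (.br (nat_lit 2) (.ch (nat_lit 1) (.ev
 (nat_lit 3584) (nat_lit 320) .dd)) (.br (nat_lit 3) (.ch (nat_lit 2) (.fin (nat_lit 576514079536399406))) (.ch
 (nat_lit 3) (.ev (nat_lit 3328) (nat_lit 256) (.ev (nat_lit 3341) (nat_lit 64) .dd)))))))) (.ch (nat_lit 4)
 (.ev (nat_lit 1600) (nat_lit 64) (.nd (nat_lit 5008) (.br (nat_lit 6) (.ch (nat_lit 3) (.fin (nat_lit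
 576553661021766300))) (.ch (nat_lit 6) (.ev (nat_lit 5024) (nat_lit 256) (.ev (nat_lit 5037) (nat_lit 8)
 .dd))))))))))) (.ch (nat_lit 1) (.ev (nat_lit 640) (nat_lit 256) (.nd (nat_lit 1312) (.br (nat_lit 5) (.br
 (nat_lit 2) (.ch (nat_lit 1) (.ev (nat_lit 2372) (nat_lit 8) (.ev (nat_lit 3796) (nat_lit 16) (.ev (nat_lit
 3805) (nat_lit 64) .dd)))) (.ch (nat_lit 2) (.ev (nat_lit 1328) (nat_lit 8) (.ev (nat_lit 4356) (nat_lit 16)
 (.ev (nat_lit 4365) (nat_lit 64) .dd))))) (.br (nat_lit 6) (.ch (nat_lit 5) (.ev (nat_lit 2244) (nat_lit 8)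
 (.ev (nat_lit 2420) (nat_lit 16) (.ev (nat_lit 2429) (nat_lit 64) .dd)))) (.ch (nat_lit 6) (.ev (nat_lit 1328)
 (nat_lit 64) (.ev (nat_lit 2036) (nat_lit 16) (.ev (nat_lit 2045) (nat_lit 8) .dd)))))))))) (.br (nat_lit 5)
 (.ch (nat_lit 2) (.ev (nat_lit 640) (nat_lit 88) (.ev (nat_lit 653) (nat_lit 256) .dd))) (.br (nat_lit 6) (.ch
 (nat_lit 5) (.ev (nat_lit 640) (nat_lit 16) (.ev (nat_lit 756) (nat_lit 256) (.nd (nat_lit 1584) (.br (nat_lit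
 4) (.br (nat_lit 3) (.ch (nat_lit 2) (.ev (nat_lit 1600) (nat_lit 64) (.ev (nat_lit 1613) (nat_lit 8) .dd)))
 (.ch (nat_lit 3) (.ev (nat_lit 1600) (nat_lit 8) (.ev (nat_lit 1613) (nat_lit 64) .dd)))) (.br (nat_lit 6)
 (.ch (nat_lit 4) (.ev (nat_lit 1600) (nat_lit 8) (.ev (nat_lit 1613) (nat_lit 64) .dd))) (.ch (nat_lit 6) (.ev
 (nat_lit 1600) (nat_lit 64) (.ev (nat_lit 1613) (nat_lit 8) .dd))))))))) (.ch (nat_lit 6) (.ev (nat_lit 640)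
 (nat_lit 64) (.ev (nat_lit 804) (nat_lit 8) (.ev (nat_lit 948) (nat_lit 16) (.ev (nat_lit 957) (nat_lit 256)
 .dd)))))))))))) (.br (nat_lit 5) (.ch (nat_lit 3) (.ev (nat_lit 416) (nat_lit 784) (.ev (nat_lit 516) (nat_lit
 8) (.ev (nat_lit 525) (nat_lit 64) .dd)))) (.br (nat_lit 6) (.ch (nat_lit 5) (.ev (nat_lit 416) (nat_lit 16)
 (.ev (nat_lit 516) (nat_lit 8) (.nd (nat_lit 832) (.br (nat_lit 3) (.br (nat_lit 1) (.ch (nat_lit 0) (.ev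
 (nat_lit 848) (nat_lit 256) (.nd (nat_lit 2000) (.br (nat_lit 3) (.ch (nat_lit 0) (.fin (nat_lit
 576462401578680914))) (.br (nat_lit 5) (.ch (nat_lit 3) (.ev (nat_lit 2016) (nat_lit 64) (.ev (nat_lit 2029)
 (nat_lit 512) .dd))) (.ch (nat_lit 5) (.ev (nat_lit 2420) (nat_lit 64) (.ev (nat_lit 2429) (nat_lit 512)
 .dd)))))))) (.ch (nat_lit 1) (.ev (nat_lit 848) (nat_lit 256) (.ev (nat_lit 1188) (nat_lit 512) (.ev (nat_lit
 1197) (nat_lit 64) .dd))))) (.br (nat_lit 4) (.ch (nat_lit 3) (.ev (nat_lit 848) (nat_lit 576) (.ev (nat_lit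
 861) (nat_lit 256) .dd))) (.br (nat_lit 5) (.ch (nat_lit 4) (.ev (nat_lit 848) (nat_lit 512) (.nd (nat_lit
 1744) (.br (nat_lit 5) (.br (nat_lit 4) (.ch (nat_lit 3) (.ev (nat_lit 1760) (nat_lit 64) (.ev (nat_lit 1773)
 (nat_lit 256) .dd))) (.ch (nat_lit 4) (.ev (nat_lit 1760) (nat_lit 256) (.ev (nat_lit 1773) (nat_lit 64)
 .dd)))) (.br (nat_lit 6) (.ch (nat_lit 5) (.ev (nat_lit 2708) (nat_lit 64) (.ev (nat_lit 2717) (nat_lit 256)
 .dd))) (.ch (nat_lit 6) (.fin (nat_lit 576434913847755389)))))))) (.ch (nat_lit 5) (.nd (nat_lit 1312) (.br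
 (nat_lit 4) (.br (nat_lit 1) (.ch (nat_lit 0) (.ev (nat_lit 1328) (nat_lit 320) (.ev (nat_lit 1341) (nat_lit
 512) .dd))) (.ch (nat_lit 1) (.ev (nat_lit 2500) (nat_lit 512) (.ev (nat_lit 4308) (nat_lit 64) (.ev (nat_lit
 4317) (nat_lit 256) .dd))))) (.br (nat_lit 5) (.ch (nat_lit 4) (.ev (nat_lit 1328) (nat_lit 576) (.ev (nat_lit
 1341) (nat_lit 256) .dd))) (.br (nat_lit 6) (.ch (nat_lit 5) (.ev (nat_lit 1328) (nat_lit 256) (.ev (nat_lit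
 1780) (nat_lit 64) (.ev (nat_lit 1789) (nat_lit 512) .dd)))) (.ch (nat_lit 6) (.ev (nat_lit 1664) (nat_lit
 512) (.ev (nat_lit 1780) (nat_lit 64) (.ev (nat_lit 1789) (nat_lit 256) .dd)))))))))))))))) (.ch (nat_lit 6)
 (.ev (nat_lit 416) (nat_lit 72) (.nd (nat_lit 768) (.br (nat_lit 4) (.br (nat_lit 2) (.ch (nat_lit 0) (.nd
 (nat_lit 1520) (.br (nat_lit 3) (.ch (nat_lit 2) (.ev (nat_lit 1536) (nat_lit 512) (.ev (nat_lit 2068)
 (nat_lit 16) (.ev (nat_lit 2077) (nat_lit 256) .dd)))) (.br (nat_lit 6) (.ch (nat_lit 3) (.nd (nat_lit 3216)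
 (.br (nat_lit 1) (.ch (nat_lit 0) (.ev (nat_lit 3232) (nat_lit 512) (.fin (nat_lit 576414023083835894)))) (.br
 (nat_lit 2) (.ch (nat_lit 1) (.ev (nat_lit 3232) (nat_lit 256) (.fin (nat_lit 576468998673613374)))) (.ch
 (nat_lit 2) (.ev (nat_lit 4964) (nat_lit 512) (.nd (nat_lit 5728) (.ch (nat_lit 0) (.nd (nat_lit 6144) (.br
 (nat_lit 4) (.ch (nat_lit 3) (.fin (nat_lit 576428316631188019))) (.ch (nat_lit 4) (.ev (nat_lit 6160)
 (nat_lit 16) (.ev (nat_lit 6173) (nat_lit 256) .dd))))))))))))) (.ch (nat_lit 6) (.ev (nat_lit 1536) (nat_lit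
 256) (.ev (nat_lit 2116) (nat_lit 512) (.ev (nat_lit 2125) (nat_lit 16) .dd)))))))) (.ch (nat_lit 2) (.ev
 (nat_lit 784) (nat_lit 256) (.nd (nat_lit 1584) (.br (nat_lit 3) (.ch (nat_lit 0) (.ev (nat_lit 2196) (nat_lit
 512) (.ev (nat_lit 2205) (nat_lit 16) .dd))) (.br (nat_lit 4) (.ch (nat_lit 3) (.ev (nat_lit 3812) (nat_lit
 16) (.ev (nat_lit 3821) (nat_lit 512) .dd))) (.ch (nat_lit 4) (.ev (nat_lit 2564) (nat_lit 512) (.ev (nat_lit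
 2573) (nat_lit 16) .dd))))))))) (.br (nat_lit 5) (.ch (nat_lit 4) (.ev (nat_lit 804) (nat_lit 256) (.ev
 (nat_lit 948) (nat_lit 16) (.ev (nat_lit 957) (nat_lit 512) .dd)))) (.ch (nat_lit 5) (.nd (nat_lit 1312) (.br
 (nat_lit 2) (.ch (nat_lit 1) (.ev (nat_lit 1328) (nat_lit 256) (.fin (nat_lit 576566855125648028)))) (.br
 (nat_lit 5) (.ch (nat_lit 2) (.ev (nat_lit 1328) (nat_lit 16) (.ev (nat_lit 1716) (nat_lit 256) (.ev (nat_lit
 1725) (nat_lit 512) .dd)))) (.ch (nat_lit 5) (.ev (nat_lit 1328) (nat_lit 16) (.nd (nat_lit 4384) (.br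
 (nat_lit 6) (.ch (nat_lit 0) (.fin (nat_lit 576461302063907424))) (.ch (nat_lit 6) (.ev (nat_lit 4580)
 (nat_lit 256) (.ev (nat_lit 4589) (nat_lit 512) .dd)))))))))))))))))))))) (.br (nat_lit 6) (.ch (nat_lit 5)
 (.ev (nat_lit 176) (nat_lit 400) (.nd (nat_lit 576) (.br (nat_lit 5) (.br (nat_lit 1) (.ch (nat_lit 0) (.ev
 (nat_lit 592) (nat_lit 64) (.nd (nat_lit 1104) (.br (nat_lit 5) (.br (nat_lit 2) (.ch (nat_lit 0) (.ev
 (nat_lit 1120) (nat_lit 8) (.ev (nat_lit 1133) (nat_lit 512) .dd))) (.ch (nat_lit 2) (.nd (nat_lit 2832) (.br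
 (nat_lit 6) (.ch (nat_lit 4) (.ev (nat_lit 2848) (nat_lit 512) (.ev (nat_lit 2861) (nat_lit 8) .dd))) (.ch
 (nat_lit 6) (.nd (nat_lit 5216) (.br (nat_lit 6) (.ch (nat_lit 2) (.fin (nat_lit 576392032618496622))) (.ch
 (nat_lit 6) (.ev (nat_lit 5232) (nat_lit 8) (.ev (nat_lit 5245) (nat_lit 512) .dd)))))))))) (.br (nat_lit 6)
 (.ch (nat_lit 5) (.ev (nat_lit 1120) (nat_lit 8) (.ev (nat_lit 1133) (nat_lit 512) .dd))) (.ch (nat_lit 6)
 (.ev (nat_lit 1120) (nat_lit 8) (.ev (nat_lit 1133) (nat_lit 512) .dd)))))))) (.ch (nat_lit 1) (.nd (nat_lit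
 1104) (.br (nat_lit 3) (.br (nat_lit 1) (.ch (nat_lit 0) (.ev (nat_lit 1120) (nat_lit 8) (.ev (nat_lit 1156)
 (nat_lit 512) (.ev (nat_lit 1165) (nat_lit 64) .dd)))) (.ch (nat_lit 1) (.ev (nat_lit 1120) (nat_lit 8) (.nd
 (nat_lit 2832) (.br (nat_lit 3) (.ch (nat_lit 2) (.ev (nat_lit 2848) (nat_lit 512) (.ev (nat_lit 2861)
 (nat_lit 64) .dd))) (.ch (nat_lit 3) (.fin (nat_lit 576464600591450687)))))))) (.br (nat_lit 5) (.ch (nat_lit
 3) (.ev (nat_lit 1348) (nat_lit 64) (.ev (nat_lit 1396) (nat_lit 512) (.ev (nat_lit 1405) (nat_lit 8) .dd))))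
 (.ch (nat_lit 5) (.ev (nat_lit 1200) (nat_lit 64) (.nd (nat_lit 2592) (.br (nat_lit 3) (.ch (nat_lit 0) (.fin
 (nat_lit 576492088324473467))) (.br (nat_lit 4) (.ch (nat_lit 3) (.ev (nat_lit 2608) (nat_lit 8) (.ev (nat_lit
 2621) (nat_lit 512) .dd))) (.ch (nat_lit 4) (.ev (nat_lit 2608) (nat_lit 512) (.ev (nat_lit 2621) (nat_lit 8)
 .dd))))))))))))) (.br (nat_lit 6) (.ch (nat_lit 5) (.nd (nat_lit 992) (.br (nat_lit 4) (.br (nat_lit 2) (.ch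
 (nat_lit 0) (.ev (nat_lit 1008) (nat_lit 64) (.nd (nat_lit 2592) (.br (nat_lit 6) (.ch (nat_lit 5) (.ev
 (nat_lit 2608) (nat_lit 8) (.ev (nat_lit 2621) (nat_lit 512) .dd))) (.ch (nat_lit 6) (.ev (nat_lit 2916)
 (nat_lit 8) (.ev (nat_lit 2925) (nat_lit 512) .dd))))))) (.ch (nat_lit 2) (.ev (nat_lit 1028) (nat_lit 8) (.ev
 (nat_lit 1156) (nat_lit 64) (.ev (nat_lit 1165) (nat_lit 512) .dd))))) (.br (nat_lit 6) (.ch (nat_lit 4) (.ev
 (nat_lit 1008) (nat_lit 512) (.ev (nat_lit 1428) (nat_lit 8) (.ev (nat_lit 1437) (nat_lit 64) .dd)))) (.ch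
 (nat_lit 6) (.ev (nat_lit 1008) (nat_lit 64) (.ev (nat_lit 1376) (nat_lit 512) (.ev (nat_lit 1389) (nat_lit 8)
 .dd)))))))) (.ch (nat_lit 6) (.ev (nat_lit 592) (nat_lit 8) (.nd (nat_lit 1104) (.br (nat_lit 2) (.ch (nat_lit
 0) (.ev (nat_lit 1156) (nat_lit 64) (.ev (nat_lit 1165) (nat_lit 512) .dd))) (.br (nat_lit 4) (.ch (nat_lit 2)
 (.ev (nat_lit 1120) (nat_lit 64) (.ev (nat_lit 1133) (nat_lit 512) .dd))) (.ch (nat_lit 4) (.ev (nat_lit 1156)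
 (nat_lit 64) (.ev (nat_lit 1165) (nat_lit 512) .dd))))))))))))) (.ch (nat_lit 6) (.ev (nat_lit 176) (nat_lit
 128) (.nd (nat_lit 480) (.br (nat_lit 3) (.br (nat_lit 1) (.ch (nat_lit 0) (.ev (nat_lit 496) (nat_lit 64)
 (.nd (nat_lit 768) (.br (nat_lit 3) (.br (nat_lit 2) (.ch (nat_lit 0) (.ev (nat_lit 784) (nat_lit 512) (.nd
 (nat_lit 1520) (.br (nat_lit 5) (.br (nat_lit 4) (.ch (nat_lit 2) (.ev (nat_lit 1536) (nat_lit 16) (.nd
 (nat_lit 4032) (.br (nat_lit 5) (.ch (nat_lit 4) (.ev (nat_lit 4048) (nat_lit 8) (.ev (nat_lit 4061) (nat_lit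
 256) .dd))) (.ch (nat_lit 5) (.fin (nat_lit 576433814209249881))))))) (.ch (nat_lit 4) (.ev (nat_lit 1536)
 (nat_lit 256) (.fin (nat_lit 576421719727096160))))) (.br (nat_lit 6) (.ch (nat_lit 5) (.ev (nat_lit 1536)
 (nat_lit 272) (.ev (nat_lit 1549) (nat_lit 8) .dd))) (.ch (nat_lit 6) (.ev (nat_lit 1536) (nat_lit 256) (.nd
 (nat_lit 3216) (.br (nat_lit 6) (.ch (nat_lit 5) (.nd (nat_lit 5680) (.br (nat_lit 5) (.ch (nat_lit 0) (.fin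
 (nat_lit 576514078563320371))) (.ch (nat_lit 5) (.ev (nat_lit 5696) (nat_lit 8) (.ev (nat_lit 5709) (nat_lit
 16) .dd)))))) (.ch (nat_lit 6) (.ev (nat_lit 3232) (nat_lit 16) (.ev (nat_lit 3245) (nat_lit 8)
 .dd)))))))))))) (.ch (nat_lit 2) (.ev (nat_lit 784) (nat_lit 520) (.nd (nat_lit 2592) (.ch (nat_lit 3) (.ev
 (nat_lit 4308) (nat_lit 16) (.ev (nat_lit 4317) (nat_lit 256) .dd))))))) (.br (nat_lit 5) (.ch (nat_lit 3)
 (.ev (nat_lit 784) (nat_lit 256) (.ev (nat_lit 976) (nat_lit 8) (.nd (nat_lit 2144) (.ch (nat_lit 3) (.nd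
 (nat_lit 4832) (.br (nat_lit 2) (.ch (nat_lit 1) (.fin (nat_lit 575854371773301806))) (.ch (nat_lit 2) (.ev
 (nat_lit 4868) (nat_lit 16) (.ev (nat_lit 4877) (nat_lit 512) .dd)))))))))) (.br (nat_lit 6) (.ch (nat_lit 5)
 (.ev (nat_lit 784) (nat_lit 272) (.nd (nat_lit 1520) (.br (nat_lit 5) (.br (nat_lit 2) (.ch (nat_lit 1) (.ev
 (nat_lit 2052) (nat_lit 512) (.ev (nat_lit 2061) (nat_lit 8) .dd))) (.ch (nat_lit 2) (.ev (nat_lit 1536)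
 (nat_lit 8) (.ev (nat_lit 1549) (nat_lit 512) .dd)))) (.br (nat_lit 6) (.ch (nat_lit 5) (.ev (nat_lit 2228)
 (nat_lit 512) (.ev (nat_lit 2237) (nat_lit 8) .dd))) (.ch (nat_lit 6) (.fin (nat_lit
 576445908888535625)))))))) (.ch (nat_lit 6) (.nd (nat_lit 1520) (.br (nat_lit 5) (.ch (nat_lit 3) (.ev
 (nat_lit 1536) (nat_lit 16) (.ev (nat_lit 2196) (nat_lit 512) (.nd (nat_lit 3312) (.br (nat_lit 1) (.ch
 (nat_lit 0) (.ev (nat_lit 3328) (nat_lit 256) (.ev (nat_lit 3341) (nat_lit 8) .dd))) (.br (nat_lit 5) (.ch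
 (nat_lit 1) (.fin (nat_lit 576434913629651698))) (.ch (nat_lit 5) (.ev (nat_lit 3348) (nat_lit 8) (.ev
 (nat_lit 3357) (nat_lit 256) .dd))))))))) (.br (nat_lit 6) (.ch (nat_lit 5) (.nd (nat_lit 3168) (.br (nat_lit
 5) (.br (nat_lit 3) (.ch (nat_lit 0) (.ev (nat_lit 3184) (nat_lit 272) (.ev (nat_lit 4196) (nat_lit 512) (.ev
 (nat_lit 4205) (nat_lit 8) .dd)))) (.ch (nat_lit 3) (.ev (nat_lit 3184) (nat_lit 24) (.ev (nat_lit 3412)
 (nat_lit 256) (.ev (nat_lit 3421) (nat_lit 512) .dd))))) (.br (nat_lit 6) (.ch (nat_lit 5) (.ev (nat_lit 3184)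
 (nat_lit 272) (.ev (nat_lit 3524) (nat_lit 8) (.ev (nat_lit 3533) (nat_lit 512) .dd)))) (.ch (nat_lit 6) (.ev
 (nat_lit 3184) (nat_lit 520) (.fin (nat_lit 576507481583731203)))))))) (.ch (nat_lit 6) (.ev (nat_lit 1536)
 (nat_lit 256) (.ev (nat_lit 1808) (nat_lit 512) (.nd (nat_lit 4032) (.ch (nat_lit 5) (.ev (nat_lit 4324)
 (nat_lit 8) (.ev (nat_lit 4333) (nat_lit 16) .dd))))))))))))))))) (.ch (nat_lit 1) (.ev (nat_lit 496) (nat_lit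
 784) (.nd (nat_lit 992) (.br (nat_lit 4) (.br (nat_lit 2) (.ch (nat_lit 0) (.ev (nat_lit 1188) (nat_lit 64)
 (.ev (nat_lit 1197) (nat_lit 8) .dd))) (.ch (nat_lit 2) (.ev (nat_lit 1156) (nat_lit 8) (.ev (nat_lit 1165)
 (nat_lit 64) .dd)))) (.br (nat_lit 6) (.ch (nat_lit 4) (.ev (nat_lit 1008) (nat_lit 8) (.ev (nat_lit 1021)
 (nat_lit 64) .dd))) (.ch (nat_lit 6) (.ev (nat_lit 2692) (nat_lit 64) (.ev (nat_lit 2701) (nat_lit 8)
 .dd))))))))) (.br (nat_lit 4) (.ch (nat_lit 3) (.ev (nat_lit 496) (nat_lit 512) (.nd (nat_lit 768) (.br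
 (nat_lit 4) (.br (nat_lit 3) (.ch (nat_lit 2) (.ev (nat_lit 784) (nat_lit 64) (.ev (nat_lit 868) (nat_lit 8)
 (.nd (nat_lit 2144) (.br (nat_lit 5) (.br (nat_lit 4) (.ch (nat_lit 1) (.ev (nat_lit 2948) (nat_lit 256) (.ev
 (nat_lit 2957) (nat_lit 16) .dd))) (.ch (nat_lit 4) (.fin (nat_lit 576462401572389443)))) (.br (nat_lit 6)
 (.ch (nat_lit 5) (.ev (nat_lit 2948) (nat_lit 16) (.ev (nat_lit 2957) (nat_lit 256) .dd))) (.ch (nat_lit 6)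
 (.ev (nat_lit 2928) (nat_lit 16) (.ev (nat_lit 2941) (nat_lit 256) .dd))))))))) (.ch (nat_lit 3) (.ev (nat_lit
 784) (nat_lit 8) (.nd (nat_lit 2000) (.br (nat_lit 2) (.br (nat_lit 1) (.ch (nat_lit 0) (.ev (nat_lit 2036)
 (nat_lit 16) (.nd (nat_lit 3312) (.br (nat_lit 4) (.ch (nat_lit 2) (.ev (nat_lit 3892) (nat_lit 64) (.ev
 (nat_lit 3901) (nat_lit 256) .dd))) (.br (nat_lit 5) (.ch (nat_lit 4) (.ev (nat_lit 3328) (nat_lit 320) .dd))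
 (.ch (nat_lit 5) (.ev (nat_lit 3328) (nat_lit 64) (.ev (nat_lit 3341) (nat_lit 256) .dd)))))))) (.ch (nat_lit
 1) (.ev (nat_lit 2016) (nat_lit 256) (.ev (nat_lit 2516) (nat_lit 16) (.ev (nat_lit 2525) (nat_lit 64)
 .dd))))) (.br (nat_lit 5) (.ch (nat_lit 2) (.ev (nat_lit 2016) (nat_lit 64) (.ev (nat_lit 2916) (nat_lit 256)
 (.ev (nat_lit 2925) (nat_lit 16) .dd)))) (.br (nat_lit 6) (.ch (nat_lit 5) (.ev (nat_lit 2016) (nat_lit 272)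
 (.ev (nat_lit 2029) (nat_lit 64) .dd))) (.ch (nat_lit 6) (.ev (nat_lit 2016) (nat_lit 64) (.ev (nat_lit 2452)
 (nat_lit 16) (.ev (nat_lit 2461) (nat_lit 256) .dd))))))))))) (.br (nat_lit 5) (.ch (nat_lit 4) (.ev (nat_lit
 784) (nat_lit 64) (.nd (nat_lit 1744) (.br (nat_lit 5) (.br (nat_lit 3) (.ch (nat_lit 1) (.ev (nat_lit 1760)
 (nat_lit 24) (.ev (nat_lit 1773) (nat_lit 256) .dd))) (.ch (nat_lit 3) (.ev (nat_lit 1760) (nat_lit 8) (.ev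
 (nat_lit 2500) (nat_lit 16) (.ev (nat_lit 2509) (nat_lit 256) .dd))))) (.br (nat_lit 6) (.ch (nat_lit 5) (.ev
 (nat_lit 2948) (nat_lit 256) (.nd (nat_lit 4384) (.br (nat_lit 6) (.ch (nat_lit 5) (.fin (nat_lit
 576452505882804892))) (.ch (nat_lit 6) (.ev (nat_lit 4400) (nat_lit 8) (.ev (nat_lit 4413) (nat_lit 16)
 .dd))))))) (.ch (nat_lit 6) (.ev (nat_lit 1760) (nat_lit 8) (.ev (nat_lit 2420) (nat_lit 16) (.ev (nat_lit
 2429) (nat_lit 256) .dd))))))))) (.br (nat_lit 6) (.ch (nat_lit 5) (.ev (nat_lit 784) (nat_lit 336) (.ev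
 (nat_lit 797) (nat_lit 8) .dd))) (.ch (nat_lit 6) (.ev (nat_lit 784) (nat_lit 8) (.nd (nat_lit 2000) (.br
 (nat_lit 4) (.br (nat_lit 3) (.ch (nat_lit 2) (.nd (nat_lit 3216) (.br (nat_lit 4) (.ch (nat_lit 2) (.ev
 (nat_lit 3232) (nat_lit 16) (.fin (nat_lit 576540466815124124)))) (.br (nat_lit 6) (.ch (nat_lit 4) (.ev
 (nat_lit 3348) (nat_lit 16) (.ev (nat_lit 4420) (nat_lit 256) (.ev (nat_lit 4429) (nat_lit 64) .dd)))) (.ch
 (nat_lit 6) (.ev (nat_lit 3296) (nat_lit 256) (.ev (nat_lit 3908) (nat_lit 16) (.ev (nat_lit 3917) (nat_lit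
 64) .dd)))))))) (.ch (nat_lit 3) (.ev (nat_lit 2016) (nat_lit 256) (.ev (nat_lit 2900) (nat_lit 64) (.ev
 (nat_lit 2909) (nat_lit 16) .dd))))) (.br (nat_lit 5) (.ch (nat_lit 4) (.ev (nat_lit 2016) (nat_lit 16) (.ev
 (nat_lit 2400) (nat_lit 320) .dd))) (.ch (nat_lit 5) (.ev (nat_lit 2016) (nat_lit 64) (.ev (nat_lit 2484)
 (nat_lit 16) (.ev (nat_lit 2493) (nat_lit 256) .dd))))))))))))))) (.br (nat_lit 5) (.ch (nat_lit 4) (.ev
 (nat_lit 496) (nat_lit 512) (.nd (nat_lit 832) (.br (nat_lit 2) (.br (nat_lit 1) (.ch (nat_lit 0) (.ev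
 (nat_lit 848) (nat_lit 64) (.nd (nat_lit 1744) (.br (nat_lit 4) (.br (nat_lit 3) (.ch (nat_lit 0) (.ev
 (nat_lit 1760) (nat_lit 272) (.ev (nat_lit 1773) (nat_lit 8) .dd))) (.ch (nat_lit 3) (.ev (nat_lit 1760)
 (nat_lit 16) (.ev (nat_lit 4292) (nat_lit 8) (.ev (nat_lit 4301) (nat_lit 256) .dd))))) (.br (nat_lit 5) (.ch
 (nat_lit 4) (.ev (nat_lit 1760) (nat_lit 256) (.ev (nat_lit 1780) (nat_lit 16) (.ev (nat_lit 1789) (nat_lit 8)
 .dd)))) (.ch (nat_lit 5) (.ev (nat_lit 1760) (nat_lit 256) (.ev (nat_lit 2420) (nat_lit 16) (.ev (nat_lit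
 2429) (nat_lit 8) .dd))))))))) (.ch (nat_lit 1) (.ev (nat_lit 848) (nat_lit 16) (.ev (nat_lit 1460) (nat_lit
 64) (.nd (nat_lit 1744) (.br (nat_lit 2) (.ch (nat_lit 0) (.fin (nat_lit 576478894159774333))) (.br (nat_lit
 6) (.ch (nat_lit 2) (.ev (nat_lit 4308) (nat_lit 8) (.ev (nat_lit 4317) (nat_lit 256) .dd))) (.ch (nat_lit 6)
 (.ev (nat_lit 1760) (nat_lit 256) (.ev (nat_lit 1773) (nat_lit 8) .dd)))))))))) (.br (nat_lit 3) (.ch (nat_lit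
 2) (.ev (nat_lit 848) (nat_lit 64) (.nd (nat_lit 1744) (.br (nat_lit 3) (.ch (nat_lit 1) (.ev (nat_lit 1760)
 (nat_lit 16) (.nd (nat_lit 3216) (.br (nat_lit 2) (.ch (nat_lit 0) (.fin (nat_lit 576184224370345006))) (.ch
 (nat_lit 2) (.ev (nat_lit 3232) (nat_lit 8) (.ev (nat_lit 3245) (nat_lit 256) .dd))))))) (.ch (nat_lit 3) (.ev
 (nat_lit 1760) (nat_lit 256) (.ev (nat_lit 4356) (nat_lit 16) (.ev (nat_lit 4365) (nat_lit 8) .dd)))))))) (.ch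
 (nat_lit 3) (.ev (nat_lit 848) (nat_lit 8) (.nd (nat_lit 1520) (.br (nat_lit 2) (.ch (nat_lit 1) (.nd (nat_lit
 4032) (.br (nat_lit 4) (.ch (nat_lit 3) (.ev (nat_lit 4048) (nat_lit 256) (.fin (nat_lit
 576474496295715484)))) (.ch (nat_lit 4) (.ev (nat_lit 4048) (nat_lit 16) (.ev (nat_lit 4820) (nat_lit 64) (.ev
 (nat_lit 4829) (nat_lit 256) .dd))))))) (.br (nat_lit 5) (.ch (nat_lit 2) (.ev (nat_lit 1536) (nat_lit 256)
 (.ev (nat_lit 3824) (nat_lit 80) .dd))) (.ch (nat_lit 5) (.ev (nat_lit 2036) (nat_lit 64) (.nd (nat_lit 4032)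
 (.ch (nat_lit 3) (.nd (nat_lit 5632) (.br (nat_lit 4) (.ch (nat_lit 1) (.fin (nat_lit 576525073769775667)))
 (.br (nat_lit 6) (.ch (nat_lit 4) (.ev (nat_lit 5668) (nat_lit 16) (.ev (nat_lit 5677) (nat_lit 256) .dd)))
 (.ch (nat_lit 6) (.ev (nat_lit 5648) (nat_lit 256) (.ev (nat_lit 5661) (nat_lit 16) .dd))))))))))))))))))))
 (.ch (nat_lit 5) (.ev (nat_lit 496) (nat_lit 72) (.nd (nat_lit 832) (.br (nat_lit 3) (.br (nat_lit 2) (.ch
 (nat_lit 0) (.ev (nat_lit 848) (nat_lit 512) (.nd (nat_lit 2144) (.ch (nat_lit 2) (.ev (nat_lit 4324) (nat_lit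
 16) (.ev (nat_lit 4333) (nat_lit 256) .dd)))))) (.ch (nat_lit 2) (.nd (nat_lit 1584) (.br (nat_lit 4) (.ch
 (nat_lit 3) (.ev (nat_lit 1600) (nat_lit 16) (.fin (nat_lit 576412923571159708)))) (.br (nat_lit 5) (.ch
 (nat_lit 4) (.nd (nat_lit 3168) (.br (nat_lit 6) (.ch (nat_lit 1) (.ev (nat_lit 3380) (nat_lit 16) (.nd
 (nat_lit 5552) (.br (nat_lit 3) (.ch (nat_lit 2) (.ev (nat_lit 5620) (nat_lit 512) (.ev (nat_lit 5629)
 (nat_lit 256) .dd))) (.br (nat_lit 6) (.ch (nat_lit 3) (.fin (nat_lit 576461301973729869))) (.ch (nat_lit 6)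
 (.ev (nat_lit 5568) (nat_lit 512) (.ev (nat_lit 5581) (nat_lit 256) .dd)))))))) (.ch (nat_lit 6) (.ev (nat_lit
 3184) (nat_lit 256) (.fin (nat_lit 576368943110243058))))))) (.ch (nat_lit 5) (.nd (nat_lit 3168) (.br
 (nat_lit 4) (.ch (nat_lit 1) (.ev (nat_lit 3184) (nat_lit 256) (.ev (nat_lit 3380) (nat_lit 512) (.ev (nat_lit
 3389) (nat_lit 16) .dd)))) (.br (nat_lit 6) (.ch (nat_lit 4) (.ev (nat_lit 3184) (nat_lit 16) (.ev (nat_lit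
 3284) (nat_lit 512) (.ev (nat_lit 3293) (nat_lit 256) .dd)))) (.ch (nat_lit 6) (.ev (nat_lit 3184) (nat_lit
 256) (.fin (nat_lit 576496486377275907))))))))))))) (.br (nat_lit 6) (.ch (nat_lit 3) (.ev (nat_lit 848)
 (nat_lit 16) (.nd (nat_lit 1584) (.br (nat_lit 2) (.ch (nat_lit 0) (.ev (nat_lit 1652) (nat_lit 512) (.ev
 (nat_lit 1661) (nat_lit 256) .dd))) (.ch (nat_lit 2) (.ev (nat_lit 2384) (nat_lit 768) .dd)))))) (.ch (nat_lit
 6) (.ev (nat_lit 848) (nat_lit 256) (.nd (nat_lit 2304) (.ch (nat_lit 3) (.nd (nat_lit 5040) (.br (nat_lit 4)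
 (.ch (nat_lit 0) (.ev (nat_lit 5076) (nat_lit 16) (.ev (nat_lit 5085) (nat_lit 512) .dd))) (.ch (nat_lit 4)
 (.fin (nat_lit 576407426001486425)))))))))))))))))))))))))))))))

/-- Subtrie. -/
noncomputable def T3 : Tr := (.ev (nat_lit 20) (nat_lit 282) (.nd (nat_lit 32) (.br (nat_lit 3) (.br (nat_lit
 2) (.ch (nat_lit 0) (.ev (nat_lit 48) (nat_lit 128) (.nd (nat_lit 320) (.br (nat_lit 4) (.br (nat_lit 3) (.ch
 (nat_lit 2) (.nd (nat_lit 576) (.br (nat_lit 4) (.br (nat_lit 3) (.ch (nat_lit 1) (.nd (nat_lit 1104) (.br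
 (nat_lit 4) (.br (nat_lit 3) (.ch (nat_lit 0) (.ev (nat_lit 1188) (nat_lit 4) (.ev (nat_lit 2420) (nat_lit
 512) (.ev (nat_lit 2429) (nat_lit 64) .dd)))) (.ch (nat_lit 3) (.ev (nat_lit 1120) (nat_lit 576) (.ev (nat_lit
 1133) (nat_lit 4) .dd)))) (.br (nat_lit 6) (.ch (nat_lit 4) (.ev (nat_lit 1120) (nat_lit 512) (.ev (nat_lit
 1972) (nat_lit 4) (.ev (nat_lit 1981) (nat_lit 64) .dd)))) (.ch (nat_lit 6) (.ev (nat_lit 2484) (nat_lit 4)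
 (.nd (nat_lit 3168) (.br (nat_lit 5) (.ch (nat_lit 1) (.ev (nat_lit 3184) (nat_lit 64) (.ev (nat_lit 3197)
 (nat_lit 512) .dd))) (.ch (nat_lit 5) (.fin (nat_lit 576434913849852488))))))))))) (.ch (nat_lit 3) (.ev
 (nat_lit 592) (nat_lit 68) (.ev (nat_lit 605) (nat_lit 512) .dd)))) (.br (nat_lit 5) (.ch (nat_lit 4) (.nd
 (nat_lit 992) (.br (nat_lit 3) (.br (nat_lit 2) (.ch (nat_lit 0) (.ev (nat_lit 1008) (nat_lit 68) (.ev
 (nat_lit 1021) (nat_lit 512) .dd))) (.ch (nat_lit 2) (.nd (nat_lit 2304) (.br (nat_lit 5) (.br (nat_lit 2)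
 (.ch (nat_lit 0) (.ev (nat_lit 2948) (nat_lit 4) (.fin (nat_lit 576373341215474164)))) (.ch (nat_lit 2) (.ev
 (nat_lit 2320) (nat_lit 512) (.ev (nat_lit 3908) (nat_lit 64) (.ev (nat_lit 3917) (nat_lit 4) .dd))))) (.br
 (nat_lit 6) (.ch (nat_lit 5) (.ev (nat_lit 2320) (nat_lit 512) (.fin (nat_lit 576442610363089466)))) (.ch
 (nat_lit 6) (.ev (nat_lit 2320) (nat_lit 512) (.ev (nat_lit 2928) (nat_lit 64) (.ev (nat_lit 2941) (nat_lit 4)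
 .dd))))))))) (.br (nat_lit 4) (.ch (nat_lit 3) (.nd (nat_lit 1584) (.br (nat_lit 3) (.br (nat_lit 2) (.ch
 (nat_lit 1) (.ev (nat_lit 2068) (nat_lit 64) (.ev (nat_lit 3780) (nat_lit 4) (.ev (nat_lit 3789) (nat_lit 512)
 .dd)))) (.ch (nat_lit 2) (.ev (nat_lit 1600) (nat_lit 64) (.nd (nat_lit 4032) (.br (nat_lit 5) (.ch (nat_lit
 3) (.fin (nat_lit 576406326566404649))) (.ch (nat_lit 5) (.ev (nat_lit 4068) (nat_lit 4) (.ev (nat_lit 4077)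
 (nat_lit 512) .dd)))))))) (.br (nat_lit 4) (.ch (nat_lit 3) (.ev (nat_lit 3716) (nat_lit 512) (.ev (nat_lit
 3764) (nat_lit 64) (.ev (nat_lit 3773) (nat_lit 4) .dd)))) (.ch (nat_lit 4) (.ev (nat_lit 1600) (nat_lit 512)
 (.ev (nat_lit 2228) (nat_lit 4) (.ev (nat_lit 2237) (nat_lit 64) .dd)))))))) (.br (nat_lit 6) (.ch (nat_lit 4)
 (.ev (nat_lit 1008) (nat_lit 512) (.nd (nat_lit 2304) (.br (nat_lit 5) (.br (nat_lit 2) (.ch (nat_lit 1) (.ev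
 (nat_lit 2372) (nat_lit 4) (.ev (nat_lit 2381) (nat_lit 64) .dd))) (.ch (nat_lit 2) (.ev (nat_lit 2320)
 (nat_lit 64) (.ev (nat_lit 2333) (nat_lit 4) .dd)))) (.br (nat_lit 6) (.ch (nat_lit 5) (.ev (nat_lit 2320)
 (nat_lit 4) (.ev (nat_lit 2333) (nat_lit 64) .dd))) (.ch (nat_lit 6) (.ev (nat_lit 4324) (nat_lit 64) (.ev
 (nat_lit 4333) (nat_lit 4) .dd)))))))) (.ch (nat_lit 6) (.nd (nat_lit 2144) (.br (nat_lit 3) (.br (nat_lit 1)
 (.ch (nat_lit 0) (.ev (nat_lit 2180) (nat_lit 64) (.nd (nat_lit 4384) (.br (nat_lit 6) (.ch (nat_lit 4) (.fin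
 (nat_lit 576289778398871970))) (.ch (nat_lit 6) (.ev (nat_lit 4400) (nat_lit 512) (.ev (nat_lit 4413) (nat_lit
 4) .dd))))))) (.ch (nat_lit 1) (.nd (nat_lit 5040) (.br (nat_lit 2) (.ch (nat_lit 0) (.ev (nat_lit 5056)
 (nat_lit 64) (.fin (nat_lit 576433814330884622)))) (.br (nat_lit 4) (.ch (nat_lit 2) (.ev (nat_lit 5056)
 (nat_lit 4) (.ev (nat_lit 5076) (nat_lit 64) (.ev (nat_lit 5085) (nat_lit 512) .dd)))) (.ch (nat_lit 4) (.ev
 (nat_lit 5056) (nat_lit 4) (.fin (nat_lit 576481093325636231))))))))) (.br (nat_lit 4) (.ch (nat_lit 3) (.ev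
 (nat_lit 2160) (nat_lit 512) (.ev (nat_lit 2180) (nat_lit 4) (.ev (nat_lit 2189) (nat_lit 64) .dd)))) (.br
 (nat_lit 6) (.ch (nat_lit 4) (.ev (nat_lit 2160) (nat_lit 516) (.ev (nat_lit 2173) (nat_lit 64) .dd))) (.ch
 (nat_lit 6) (.ev (nat_lit 2160) (nat_lit 68) (.ev (nat_lit 2173) (nat_lit 512) .dd))))))))))))) (.br (nat_lit
 6) (.ch (nat_lit 5) (.ev (nat_lit 592) (nat_lit 512) (.nd (nat_lit 992) (.br (nat_lit 4) (.br (nat_lit 3) (.ch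
 (nat_lit 1) (.ev (nat_lit 1008) (nat_lit 64) (.ev (nat_lit 1021) (nat_lit 4) .dd))) (.ch (nat_lit 3) (.ev
 (nat_lit 2564) (nat_lit 64) (.ev (nat_lit 2573) (nat_lit 4) .dd)))) (.br (nat_lit 6) (.ch (nat_lit 4) (.nd
 (nat_lit 2144) (.br (nat_lit 2) (.ch (nat_lit 1) (.ev (nat_lit 2160) (nat_lit 64) (.ev (nat_lit 2173) (nat_lit
 4) .dd))) (.br (nat_lit 5) (.ch (nat_lit 2) (.ev (nat_lit 2180) (nat_lit 4) (.ev (nat_lit 2189) (nat_lit 64)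
 .dd))) (.ch (nat_lit 5) (.nd (nat_lit 4896) (.br (nat_lit 2) (.ch (nat_lit 1) (.ev (nat_lit 4912) (nat_lit 4)
 (.ev (nat_lit 4925) (nat_lit 64) .dd))) (.ch (nat_lit 2) (.nd (nat_lit 6016) (.br (nat_lit 2) (.ch (nat_lit 0)
 (.ev (nat_lit 6032) (nat_lit 64) (.ev (nat_lit 6045) (nat_lit 4) .dd))) (.br (nat_lit 4) (.ch (nat_lit 2)
 (.fin (nat_lit 576460202526065193))) (.ch (nat_lit 4) (.ev (nat_lit 6032) (nat_lit 64) (.ev (nat_lit 6045)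
 (nat_lit 4) .dd)))))))))))))) (.ch (nat_lit 6) (.ev (nat_lit 1008) (nat_lit 4) (.ev (nat_lit 1021) (nat_lit
 64) .dd)))))))) (.ch (nat_lit 6) (.nd (nat_lit 1104) (.br (nat_lit 2) (.br (nat_lit 1) (.ch (nat_lit 0) (.ev
 (nat_lit 1120) (nat_lit 68) (.ev (nat_lit 1133) (nat_lit 512) .dd))) (.ch (nat_lit 1) (.nd (nat_lit 3072) (.br
 (nat_lit 1) (.ch (nat_lit 0) (.ev (nat_lit 3088) (nat_lit 516) (.ev (nat_lit 3101) (nat_lit 64) .dd))) (.br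
 (nat_lit 6) (.ch (nat_lit 1) (.ev (nat_lit 3088) (nat_lit 4) (.nd (nat_lit 5344) (.ch (nat_lit 5) (.nd
 (nat_lit 6080) (.br (nat_lit 1) (.ch (nat_lit 0) (.fin (nat_lit 576528372238598751))) (.ch (nat_lit 1) (.ev
 (nat_lit 6096) (nat_lit 512) (.ev (nat_lit 6109) (nat_lit 64) .dd))))))))) (.ch (nat_lit 6) (.ev (nat_lit
 3088) (nat_lit 64) (.nd (nat_lit 5184) (.br (nat_lit 3) (.ch (nat_lit 0) (.ev (nat_lit 5200) (nat_lit 512)
 (.ev (nat_lit 5213) (nat_lit 4) .dd))) (.ch (nat_lit 3) (.fin (nat_lit 576470098156929616)))))))))))) (.br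
 (nat_lit 4) (.ch (nat_lit 2) (.ev (nat_lit 1120) (nat_lit 512) (.ev (nat_lit 2372) (nat_lit 64) (.ev (nat_lit
 2381) (nat_lit 4) .dd)))) (.br (nat_lit 6) (.ch (nat_lit 4) (.ev (nat_lit 1120) (nat_lit 512) (.nd (nat_lit
 2304) (.br (nat_lit 2) (.ch (nat_lit 0) (.ev (nat_lit 2320) (nat_lit 4) (.ev (nat_lit 2333) (nat_lit 64)
 .dd))) (.br (nat_lit 3) (.ch (nat_lit 2) (.ev (nat_lit 2320) (nat_lit 64) (.ev (nat_lit 2333) (nat_lit 4)
 .dd))) (.ch (nat_lit 3) (.ev (nat_lit 2500) (nat_lit 64) (.ev (nat_lit 2509) (nat_lit 4) .dd)))))))) (.ch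
 (nat_lit 6) (.ev (nat_lit 1120) (nat_lit 516) (.ev (nat_lit 1133) (nat_lit 64) .dd))))))))))))) (.ch (nat_lit
 3) (.nd (nat_lit 624) (.br (nat_lit 4) (.br (nat_lit 1) (.ch (nat_lit 0) (.ev (nat_lit 640) (nat_lit 4) (.nd
 (nat_lit 1312) (.br (nat_lit 3) (.br (nat_lit 2) (.ch (nat_lit 1) (.nd (nat_lit 3168) (.br (nat_lit 4) (.ch
 (nat_lit 1) (.fin (nat_lit 576500884578976308))) (.ch (nat_lit 4) (.fin (nat_lit 575616877639188542)))))) (.ch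
 (nat_lit 2) (.ev (nat_lit 1348) (nat_lit 64) (.ev (nat_lit 1357) (nat_lit 512) .dd)))) (.br (nat_lit 4) (.ch
 (nat_lit 3) (.ev (nat_lit 1328) (nat_lit 512) (.ev (nat_lit 1341) (nat_lit 64) .dd))) (.br (nat_lit 5) (.ch
 (nat_lit 4) (.ev (nat_lit 1328) (nat_lit 64) (.ev (nat_lit 1341) (nat_lit 512) .dd))) (.ch (nat_lit 5) (.ev
 (nat_lit 1328) (nat_lit 512) (.ev (nat_lit 1341) (nat_lit 64) .dd))))))))) (.ch (nat_lit 1) (.nd (nat_lit
 1312) (.br (nat_lit 2) (.br (nat_lit 1) (.ch (nat_lit 0) (.ev (nat_lit 1328) (nat_lit 64) (.nd (nat_lit 2832)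
 (.br (nat_lit 5) (.ch (nat_lit 1) (.ev (nat_lit 2848) (nat_lit 512) (.ev (nat_lit 2861) (nat_lit 4) .dd)))
 (.ch (nat_lit 5) (.fin (nat_lit 576460202538648126))))))) (.ch (nat_lit 1) (.ev (nat_lit 1328) (nat_lit 576)
 (.ev (nat_lit 1341) (nat_lit 4) .dd)))) (.br (nat_lit 3) (.ch (nat_lit 2) (.ev (nat_lit 1328) (nat_lit 4) (.nd
 (nat_lit 2832) (.br (nat_lit 3) (.br (nat_lit 2) (.ch (nat_lit 1) (.ev (nat_lit 2848) (nat_lit 512) (.ev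
 (nat_lit 2861) (nat_lit 64) .dd))) (.ch (nat_lit 2) (.ev (nat_lit 2848) (nat_lit 64) (.ev (nat_lit 2861)
 (nat_lit 512) .dd)))) (.br (nat_lit 6) (.ch (nat_lit 3) (.ev (nat_lit 2848) (nat_lit 64) (.ev (nat_lit 2861)
 (nat_lit 512) .dd))) (.ch (nat_lit 6) (.nd (nat_lit 5392) (.br (nat_lit 1) (.ch (nat_lit 0) (.ev (nat_lit
 5408) (nat_lit 576) .dd)) (.ch (nat_lit 1) (.fin (nat_lit 576483292292268627))))))))))) (.br (nat_lit 5) (.ch
 (nat_lit 3) (.ev (nat_lit 1328) (nat_lit 4) (.nd (nat_lit 3072) (.br (nat_lit 4) (.ch (nat_lit 3) (.fin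
 (nat_lit 576489889284440657))) (.ch (nat_lit 4) (.ev (nat_lit 3108) (nat_lit 64) (.ev (nat_lit 3117) (nat_lit
 512) .dd))))))) (.ch (nat_lit 5) (.ev (nat_lit 1328) (nat_lit 4) (.ev (nat_lit 2420) (nat_lit 512) (.ev
 (nat_lit 2429) (nat_lit 64) .dd)))))))))) (.br (nat_lit 5) (.ch (nat_lit 4) (.ev (nat_lit 640) (nat_lit 580)
 .dd)) (.br (nat_lit 6) (.ch (nat_lit 5) (.nd (nat_lit 1104) (.br (nat_lit 5) (.br (nat_lit 3) (.ch (nat_lit 2)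
 (.ev (nat_lit 1120) (nat_lit 64) (.ev (nat_lit 1236) (nat_lit 512) (.ev (nat_lit 1245) (nat_lit 4) .dd))))
 (.ch (nat_lit 3) (.ev (nat_lit 1284) (nat_lit 4) (.ev (nat_lit 1876) (nat_lit 64) (.ev (nat_lit 1885) (nat_lit
 512) .dd))))) (.br (nat_lit 6) (.ch (nat_lit 5) (.ev (nat_lit 1156) (nat_lit 64) (.fin (nat_lit
 576655915514020462)))) (.ch (nat_lit 6) (.nd (nat_lit 2304) (.br (nat_lit 5) (.ch (nat_lit 4) (.ev (nat_lit
 3060) (nat_lit 4) (.ev (nat_lit 3668) (nat_lit 64) (.ev (nat_lit 3677) (nat_lit 512) .dd)))) (.br (nat_lit 6)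
 (.ch (nat_lit 5) (.ev (nat_lit 2320) (nat_lit 64) (.ev (nat_lit 3540) (nat_lit 512) (.ev (nat_lit 3549)
 (nat_lit 4) .dd)))) (.ch (nat_lit 6) (.ev (nat_lit 4144) (nat_lit 512) (.fin (nat_lit
 575524517865537766)))))))))))) (.ch (nat_lit 6) (.ev (nat_lit 640) (nat_lit 512) (.nd (nat_lit 1312) (.br
 (nat_lit 5) (.br (nat_lit 3) (.ch (nat_lit 1) (.ev (nat_lit 1328) (nat_lit 4) (.ev (nat_lit 1341) (nat_lit 64)
 .dd))) (.ch (nat_lit 3) (.nd (nat_lit 2832) (.br (nat_lit 2) (.br (nat_lit 1) (.ch (nat_lit 0) (.ev (nat_lit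
 2868) (nat_lit 64) (.ev (nat_lit 2877) (nat_lit 4) .dd))) (.ch (nat_lit 1) (.ev (nat_lit 4096) (nat_lit 64)
 (.ev (nat_lit 4109) (nat_lit 4) .dd)))) (.br (nat_lit 5) (.ch (nat_lit 2) (.ev (nat_lit 2848) (nat_lit 68)
 .dd)) (.ch (nat_lit 5) (.ev (nat_lit 2848) (nat_lit 4) (.ev (nat_lit 2861) (nat_lit 64) .dd)))))))) (.br
 (nat_lit 6) (.ch (nat_lit 5) (.ev (nat_lit 1328) (nat_lit 4) (.ev (nat_lit 1341) (nat_lit 64) .dd))) (.ch
 (nat_lit 6) (.ev (nat_lit 1328) (nat_lit 64) (.ev (nat_lit 1341) (nat_lit 4) .dd)))))))))))))) (.br (nat_lit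
 5) (.ch (nat_lit 4) (.ev (nat_lit 336) (nat_lit 512) (.nd (nat_lit 624) (.br (nat_lit 4) (.br (nat_lit 2) (.ch
 (nat_lit 0) (.ev (nat_lit 640) (nat_lit 64) (.ev (nat_lit 653) (nat_lit 4) .dd))) (.ch (nat_lit 2) (.nd
 (nat_lit 1312) (.br (nat_lit 2) (.br (nat_lit 1) (.ch (nat_lit 0) (.ev (nat_lit 1328) (nat_lit 64) (.ev
 (nat_lit 1341) (nat_lit 4) .dd))) (.ch (nat_lit 1) (.ev (nat_lit 1328) (nat_lit 64) (.ev (nat_lit 1341)
 (nat_lit 4) .dd)))) (.br (nat_lit 4) (.ch (nat_lit 2) (.ev (nat_lit 1328) (nat_lit 64) (.ev (nat_lit 1341)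
 (nat_lit 4) .dd))) (.br (nat_lit 5) (.ch (nat_lit 4) (.nd (nat_lit 3072) (.br (nat_lit 3) (.ch (nat_lit 2)
 (.ev (nat_lit 3088) (nat_lit 4) (.ev (nat_lit 3101) (nat_lit 64) .dd))) (.br (nat_lit 6) (.ch (nat_lit 3)
 (.fin (nat_lit 576482192747086452))) (.ch (nat_lit 6) (.ev (nat_lit 3088) (nat_lit 68) .dd)))))) (.ch (nat_lit
 5) (.ev (nat_lit 1328) (nat_lit 4) (.ev (nat_lit 1341) (nat_lit 64) .dd))))))))) (.br (nat_lit 5) (.ch
 (nat_lit 4) (.nd (nat_lit 1312) (.br (nat_lit 3) (.br (nat_lit 2) (.ch (nat_lit 1) (.ev (nat_lit 1348)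
 (nat_lit 64) (.ev (nat_lit 1357) (nat_lit 4) .dd))) (.ch (nat_lit 2) (.ev (nat_lit 2724) (nat_lit 64) (.ev
 (nat_lit 2733) (nat_lit 4) .dd)))) (.br (nat_lit 4) (.ch (nat_lit 3) (.ev (nat_lit 1328) (nat_lit 4) (.ev
 (nat_lit 1341) (nat_lit 64) .dd))) (.ch (nat_lit 4) (.ev (nat_lit 1348) (nat_lit 4) (.ev (nat_lit 1357)
 (nat_lit 64) .dd))))))) (.br (nat_lit 6) (.ch (nat_lit 5) (.ev (nat_lit 660) (nat_lit 64) (.ev (nat_lit 669)
 (nat_lit 4) .dd))) (.ch (nat_lit 6) (.ev (nat_lit 640) (nat_lit 68) .dd)))))))) (.br (nat_lit 6) (.ch (nat_lit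
 5) (.ev (nat_lit 336) (nat_lit 68) (.ev (nat_lit 349) (nat_lit 512) .dd))) (.ch (nat_lit 6) (.ev (nat_lit 336)
 (nat_lit 512) (.nd (nat_lit 576) (.br (nat_lit 5) (.br (nat_lit 4) (.ch (nat_lit 0) (.nd (nat_lit 1104) (.br
 (nat_lit 5) (.br (nat_lit 3) (.ch (nat_lit 1) (.nd (nat_lit 3072) (.br (nat_lit 5) (.ch (nat_lit 0) (.ev
 (nat_lit 3108) (nat_lit 4) (.ev (nat_lit 3117) (nat_lit 64) .dd))) (.ch (nat_lit 5) (.fin (nat_lit
 576450306932949569)))))) (.ch (nat_lit 3) (.nd (nat_lit 3072) (.br (nat_lit 3) (.br (nat_lit 1) (.ch (nat_lit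
 0) (.ev (nat_lit 3108) (nat_lit 4) (.ev (nat_lit 3117) (nat_lit 64) .dd))) (.ch (nat_lit 1) (.ev (nat_lit
 3088) (nat_lit 64) (.ev (nat_lit 3101) (nat_lit 4) .dd)))) (.br (nat_lit 4) (.ch (nat_lit 3) (.ev (nat_lit
 3108) (nat_lit 4) (.ev (nat_lit 3117) (nat_lit 64) .dd))) (.ch (nat_lit 4) (.ev (nat_lit 4292) (nat_lit 4)
 (.ev (nat_lit 4301) (nat_lit 64) .dd)))))))) (.br (nat_lit 6) (.ch (nat_lit 5) (.ev (nat_lit 1120) (nat_lit 4)
 (.ev (nat_lit 1133) (nat_lit 64) .dd))) (.ch (nat_lit 6) (.ev (nat_lit 1120) (nat_lit 4) (.ev (nat_lit 1133)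
 (nat_lit 64) .dd))))))) (.ch (nat_lit 4) (.nd (nat_lit 896) (.br (nat_lit 5) (.br (nat_lit 3) (.ch (nat_lit 1)
 (.nd (nat_lit 2304) (.br (nat_lit 3) (.ch (nat_lit 0) (.ev (nat_lit 2516) (nat_lit 64) (.ev (nat_lit 2525)
 (nat_lit 4) .dd))) (.br (nat_lit 6) (.ch (nat_lit 3) (.nd (nat_lit 4832) (.br (nat_lit 3) (.ch (nat_lit 2)
 (.ev (nat_lit 4848) (nat_lit 4) (.ev (nat_lit 4861) (nat_lit 64) .dd))) (.ch (nat_lit 3) (.fin (nat_lit
 576434913793229363)))))) (.ch (nat_lit 6) (.ev (nat_lit 3444) (nat_lit 4) (.ev (nat_lit 3453) (nat_lit 64)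
 .dd))))))) (.ch (nat_lit 3) (.nd (nat_lit 2144) (.br (nat_lit 3) (.ch (nat_lit 0) (.ev (nat_lit 2180) (nat_lit
 4) (.ev (nat_lit 2189) (nat_lit 64) .dd))) (.br (nat_lit 4) (.ch (nat_lit 3) (.ev (nat_lit 2160) (nat_lit 64)
 (.ev (nat_lit 2173) (nat_lit 4) .dd))) (.ch (nat_lit 4) (.ev (nat_lit 3860) (nat_lit 4) (.ev (nat_lit 3869)
 (nat_lit 64) .dd)))))))) (.br (nat_lit 6) (.ch (nat_lit 5) (.ev (nat_lit 912) (nat_lit 64) (.ev (nat_lit 925)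
 (nat_lit 4) .dd))) (.ch (nat_lit 6) (.ev (nat_lit 912) (nat_lit 64) (.ev (nat_lit 925) (nat_lit 4) .dd))))))))
 (.br (nat_lit 6) (.ch (nat_lit 5) (.ev (nat_lit 592) (nat_lit 4) (.ev (nat_lit 605) (nat_lit 64) .dd))) (.ch
 (nat_lit 6) (.ev (nat_lit 592) (nat_lit 64) (.ev (nat_lit 605) (nat_lit 4) .dd)))))))))))))) (.ch (nat_lit 2)
 (.nd (nat_lit 272) (.br (nat_lit 3) (.br (nat_lit 2) (.ch (nat_lit 0) (.ev (nat_lit 288) (nat_lit 512) (.nd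
 (nat_lit 576) (.br (nat_lit 4) (.br (nat_lit 3) (.ch (nat_lit 1) (.ev (nat_lit 592) (nat_lit 4) (.nd (nat_lit
 1312) (.br (nat_lit 4) (.br (nat_lit 3) (.ch (nat_lit 2) (.ev (nat_lit 1328) (nat_lit 128) (.ev (nat_lit 1341)
 (nat_lit 64) .dd))) (.ch (nat_lit 3) (.ev (nat_lit 1396) (nat_lit 128) (.ev (nat_lit 1405) (nat_lit 64)
 .dd)))) (.br (nat_lit 6) (.ch (nat_lit 4) (.ev (nat_lit 1328) (nat_lit 128) (.ev (nat_lit 1341) (nat_lit 64)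
 .dd))) (.ch (nat_lit 6) (.ev (nat_lit 1328) (nat_lit 128) (.ev (nat_lit 1341) (nat_lit 64) .dd)))))))) (.ch
 (nat_lit 3) (.nd (nat_lit 1104) (.br (nat_lit 4) (.br (nat_lit 2) (.ch (nat_lit 1) (.ev (nat_lit 1156)
 (nat_lit 4) (.ev (nat_lit 1476) (nat_lit 64) (.ev (nat_lit 1485) (nat_lit 128) .dd)))) (.ch (nat_lit 2) (.ev
 (nat_lit 1120) (nat_lit 128) (.ev (nat_lit 1168) (nat_lit 64) (.ev (nat_lit 1181) (nat_lit 4) .dd))))) (.br
 (nat_lit 5) (.ch (nat_lit 4) (.ev (nat_lit 1120) (nat_lit 128) (.ev (nat_lit 2676) (nat_lit 64) (.ev (nat_lit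
 2685) (nat_lit 4) .dd)))) (.ch (nat_lit 5) (.ev (nat_lit 1156) (nat_lit 128) (.ev (nat_lit 1188) (nat_lit 4)
 (.ev (nat_lit 1197) (nat_lit 64) .dd))))))))) (.br (nat_lit 6) (.ch (nat_lit 4) (.nd (nat_lit 992) (.br
 (nat_lit 5) (.br (nat_lit 2) (.ch (nat_lit 1) (.ev (nat_lit 1008) (nat_lit 4) (.nd (nat_lit 2832) (.br
 (nat_lit 6) (.ch (nat_lit 4) (.ev (nat_lit 2848) (nat_lit 128) (.ev (nat_lit 2861) (nat_lit 64) .dd))) (.ch
 (nat_lit 6) (.fin (nat_lit 576462401573438018))))))) (.ch (nat_lit 2) (.ev (nat_lit 1008) (nat_lit 64) (.ev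
 (nat_lit 1428) (nat_lit 128) (.ev (nat_lit 1437) (nat_lit 4) .dd))))) (.br (nat_lit 6) (.ch (nat_lit 5) (.ev
 (nat_lit 1428) (nat_lit 64) (.nd (nat_lit 2000) (.br (nat_lit 1) (.ch (nat_lit 0) (.ev (nat_lit 3844) (nat_lit
 4) (.ev (nat_lit 3853) (nat_lit 128) .dd))) (.br (nat_lit 2) (.ch (nat_lit 1) (.ev (nat_lit 2016) (nat_lit
 128) (.ev (nat_lit 2029) (nat_lit 4) .dd))) (.ch (nat_lit 2) (.nd (nat_lit 4784) (.br (nat_lit 5) (.ch
 (nat_lit 0) (.fin (nat_lit 576452506052674012))) (.ch (nat_lit 5) (.ev (nat_lit 4800) (nat_lit 128) (.ev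
 (nat_lit 4813) (nat_lit 4) .dd))))))))))) (.ch (nat_lit 6) (.ev (nat_lit 1008) (nat_lit 4) (.ev (nat_lit 1376)
 (nat_lit 64) (.ev (nat_lit 1389) (nat_lit 128) .dd)))))))) (.ch (nat_lit 6) (.ev (nat_lit 592) (nat_lit 128)
 (.nd (nat_lit 1312) (.br (nat_lit 4) (.ch (nat_lit 1) (.ev (nat_lit 1328) (nat_lit 4) (.ev (nat_lit 1341)
 (nat_lit 64) .dd))) (.br (nat_lit 5) (.ch (nat_lit 4) (.nd (nat_lit 2832) (.br (nat_lit 2) (.br (nat_lit 1)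
 (.ch (nat_lit 0) (.ev (nat_lit 2868) (nat_lit 4) (.ev (nat_lit 2877) (nat_lit 64) .dd))) (.ch (nat_lit 1) (.ev
 (nat_lit 2848) (nat_lit 4) (.ev (nat_lit 2861) (nat_lit 64) .dd)))) (.br (nat_lit 6) (.ch (nat_lit 2) (.ev
 (nat_lit 3860) (nat_lit 64) (.ev (nat_lit 3869) (nat_lit 4) .dd))) (.ch (nat_lit 6) (.ev (nat_lit 2868)
 (nat_lit 4) (.ev (nat_lit 2877) (nat_lit 64) .dd))))))) (.ch (nat_lit 5) (.nd (nat_lit 2832) (.br (nat_lit 5)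
 (.ch (nat_lit 0) (.nd (nat_lit 4032) (.br (nat_lit 5) (.ch (nat_lit 2) (.ev (nat_lit 4436) (nat_lit 4) (.ev
 (nat_lit 4445) (nat_lit 64) .dd))) (.br (nat_lit 6) (.ch (nat_lit 5) (.ev (nat_lit 4048) (nat_lit 64) (.ev
 (nat_lit 4061) (nat_lit 4) .dd))) (.ch (nat_lit 6) (.fin (nat_lit 576342554816496172))))))) (.br (nat_lit 6)
 (.ch (nat_lit 5) (.ev (nat_lit 2868) (nat_lit 64) (.ev (nat_lit 2877) (nat_lit 4) .dd))) (.ch (nat_lit 6) (.ev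
 (nat_lit 2848) (nat_lit 4) (.ev (nat_lit 2861) (nat_lit 64) .dd))))))))))))))))) (.ch (nat_lit 2) (.ev
 (nat_lit 288) (nat_lit 512) (.nd (nat_lit 576) (.br (nat_lit 2) (.br (nat_lit 1) (.ch (nat_lit 0) (.ev
 (nat_lit 592) (nat_lit 4) (.nd (nat_lit 1104) (.br (nat_lit 4) (.br (nat_lit 1) (.ch (nat_lit 0) (.ev (nat_lit
 1120) (nat_lit 128) (.ev (nat_lit 1133) (nat_lit 64) .dd))) (.ch (nat_lit 1) (.ev (nat_lit 1120) (nat_lit 64)
 (.ev (nat_lit 1133) (nat_lit 128) .dd)))) (.br (nat_lit 5) (.ch (nat_lit 4) (.nd (nat_lit 2832) (.br (nat_lit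
 4) (.ch (nat_lit 2) (.fin (nat_lit 576463501074580113))) (.br (nat_lit 5) (.ch (nat_lit 4) (.ev (nat_lit 2848)
 (nat_lit 128) (.ev (nat_lit 2861) (nat_lit 64) .dd))) (.ch (nat_lit 5) (.ev (nat_lit 2868) (nat_lit 64) (.ev
 (nat_lit 2877) (nat_lit 128) .dd))))))) (.br (nat_lit 6) (.ch (nat_lit 5) (.ev (nat_lit 1120) (nat_lit 192)
 .dd)) (.ch (nat_lit 6) (.nd (nat_lit 2832) (.br (nat_lit 1) (.ch (nat_lit 0) (.ev (nat_lit 2848) (nat_lit 64)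
 (.ev (nat_lit 2861) (nat_lit 128) .dd))) (.br (nat_lit 5) (.ch (nat_lit 1) (.nd (nat_lit 5312) (.br (nat_lit
 2) (.ch (nat_lit 1) (.ev (nat_lit 5328) (nat_lit 64) (.ev (nat_lit 5341) (nat_lit 128) .dd))) (.br (nat_lit 6)
 (.ch (nat_lit 2) (.ev (nat_lit 5328) (nat_lit 64) (.ev (nat_lit 5341) (nat_lit 128) .dd))) (.ch (nat_lit 6)
 (.fin (nat_lit 576556959467520442))))))) (.ch (nat_lit 5) (.ev (nat_lit 2868) (nat_lit 128) (.ev (nat_lit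
 2877) (nat_lit 64) .dd))))))))))))) (.ch (nat_lit 1) (.ev (nat_lit 592) (nat_lit 64) (.nd (nat_lit 1104) (.br
 (nat_lit 3) (.br (nat_lit 2) (.ch (nat_lit 0) (.ev (nat_lit 1120) (nat_lit 4) (.ev (nat_lit 1133) (nat_lit
 128) .dd))) (.ch (nat_lit 2) (.ev (nat_lit 1120) (nat_lit 128) (.ev (nat_lit 1133) (nat_lit 4) .dd)))) (.br
 (nat_lit 5) (.ch (nat_lit 3) (.ev (nat_lit 1120) (nat_lit 4) (.ev (nat_lit 1133) (nat_lit 128) .dd))) (.ch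
 (nat_lit 5) (.ev (nat_lit 1460) (nat_lit 4) (.ev (nat_lit 1469) (nat_lit 128) .dd))))))))) (.br (nat_lit 3)
 (.ch (nat_lit 2) (.ev (nat_lit 592) (nat_lit 64) (.nd (nat_lit 1312) (.br (nat_lit 3) (.ch (nat_lit 1) (.nd
 (nat_lit 3072) (.br (nat_lit 2) (.ch (nat_lit 0) (.fin (nat_lit 576458003521684033))) (.ch (nat_lit 2) (.ev
 (nat_lit 3088) (nat_lit 128) (.ev (nat_lit 3101) (nat_lit 4) .dd)))))) (.br (nat_lit 4) (.ch (nat_lit 3) (.ev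
 (nat_lit 1348) (nat_lit 4) (.ev (nat_lit 1357) (nat_lit 128) .dd))) (.ch (nat_lit 4) (.ev (nat_lit 1328)
 (nat_lit 128) (.ev (nat_lit 1341) (nat_lit 4) .dd)))))))) (.br (nat_lit 6) (.ch (nat_lit 3) (.ev (nat_lit 592)
 (nat_lit 132) (.ev (nat_lit 605) (nat_lit 64) .dd))) (.ch (nat_lit 6) (.ev (nat_lit 592) (nat_lit 64) (.nd
 (nat_lit 1104) (.br (nat_lit 4) (.br (nat_lit 3) (.ch (nat_lit 1) (.ev (nat_lit 1120) (nat_lit 4) (.ev
 (nat_lit 1133) (nat_lit 128) .dd))) (.ch (nat_lit 3) (.ev (nat_lit 1120) (nat_lit 4) (.ev (nat_lit 1133)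
 (nat_lit 128) .dd)))) (.br (nat_lit 5) (.ch (nat_lit 4) (.ev (nat_lit 1120) (nat_lit 4) (.ev (nat_lit 1133)
 (nat_lit 128) .dd))) (.br (nat_lit 6) (.ch (nat_lit 5) (.ev (nat_lit 1120) (nat_lit 128) (.ev (nat_lit 1133)
 (nat_lit 4) .dd))) (.ch (nat_lit 6) (.ev (nat_lit 1120) (nat_lit 128) (.ev (nat_lit 1133) (nat_lit 4)
 .dd)))))))))))))))) (.br (nat_lit 4) (.ch (nat_lit 3) (.nd (nat_lit 528) (.br (nat_lit 3) (.br (nat_lit 2)
 (.ch (nat_lit 1) (.ev (nat_lit 544) (nat_lit 64) (.nd (nat_lit 896) (.br (nat_lit 3) (.br (nat_lit 1) (.ch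
 (nat_lit 0) (.ev (nat_lit 912) (nat_lit 512) (.nd (nat_lit 1520) (.br (nat_lit 3) (.br (nat_lit 2) (.ch
 (nat_lit 0) (.ev (nat_lit 1536) (nat_lit 4) (.ev (nat_lit 1549) (nat_lit 128) .dd))) (.ch (nat_lit 2) (.ev
 (nat_lit 2420) (nat_lit 128) (.ev (nat_lit 2429) (nat_lit 4) .dd)))) (.br (nat_lit 5) (.ch (nat_lit 3) (.ev
 (nat_lit 1652) (nat_lit 128) (.ev (nat_lit 1661) (nat_lit 4) .dd))) (.ch (nat_lit 5) (.ev (nat_lit 1536)
 (nat_lit 128) (.ev (nat_lit 1549) (nat_lit 4) .dd)))))))) (.ch (nat_lit 1) (.nd (nat_lit 1584) (.br (nat_lit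
 3) (.br (nat_lit 1) (.ch (nat_lit 0) (.ev (nat_lit 1600) (nat_lit 128) (.fin (nat_lit 576448107945345576))))
 (.ch (nat_lit 1) (.ev (nat_lit 1600) (nat_lit 512) (.ev (nat_lit 1636) (nat_lit 4) (.ev (nat_lit 1645)
 (nat_lit 128) .dd))))) (.br (nat_lit 5) (.ch (nat_lit 3) (.ev (nat_lit 1664) (nat_lit 4) (.nd (nat_lit 4784)
 (.ch (nat_lit 0) (.fin (nat_lit 576440411316765231)))))) (.br (nat_lit 6) (.ch (nat_lit 5) (.ev (nat_lit 1600)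
 (nat_lit 640) (.ev (nat_lit 1613) (nat_lit 4) .dd))) (.ch (nat_lit 6) (.ev (nat_lit 1600) (nat_lit 132) (.ev
 (nat_lit 1613) (nat_lit 512) .dd))))))))) (.br (nat_lit 5) (.ch (nat_lit 3) (.ev (nat_lit 1732) (nat_lit 512)
 (.nd (nat_lit 2144) (.br (nat_lit 4) (.br (nat_lit 2) (.ch (nat_lit 1) (.ev (nat_lit 2160) (nat_lit 4) (.ev
 (nat_lit 2173) (nat_lit 128) .dd))) (.ch (nat_lit 2) (.nd (nat_lit 5888) (.ch (nat_lit 1) (.fin (nat_lit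
 576442610331632249)))))) (.br (nat_lit 5) (.ch (nat_lit 4) (.ev (nat_lit 2212) (nat_lit 4) (.ev (nat_lit 2221)
 (nat_lit 128) .dd))) (.ch (nat_lit 5) (.ev (nat_lit 2160) (nat_lit 128) (.ev (nat_lit 2173) (nat_lit 4)
 .dd)))))))) (.br (nat_lit 6) (.ch (nat_lit 5) (.ev (nat_lit 912) (nat_lit 132) (.ev (nat_lit 925) (nat_lit
 512) .dd))) (.ch (nat_lit 6) (.nd (nat_lit 1584) (.br (nat_lit 2) (.br (nat_lit 1) (.ch (nat_lit 0) (.nd
 (nat_lit 3312) (.br (nat_lit 1) (.ch (nat_lit 0) (.ev (nat_lit 3328) (nat_lit 512) (.ev (nat_lit 3380)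
 (nat_lit 128) (.ev (nat_lit 3389) (nat_lit 4) .dd)))) (.br (nat_lit 4) (.ch (nat_lit 1) (.ev (nat_lit 3328)
 (nat_lit 4) (.ev (nat_lit 3892) (nat_lit 128) (.ev (nat_lit 3901) (nat_lit 512) .dd)))) (.ch (nat_lit 4) (.ev
 (nat_lit 3328) (nat_lit 4) (.fin (nat_lit 576527272769962484)))))))) (.ch (nat_lit 1) (.ev (nat_lit 2900)
 (nat_lit 512) (.fin (nat_lit 576514078674469501))))) (.br (nat_lit 4) (.ch (nat_lit 2) (.ev (nat_lit 1600)
 (nat_lit 512) (.ev (nat_lit 2564) (nat_lit 4) (.ev (nat_lit 2573) (nat_lit 128) .dd)))) (.ch (nat_lit 4) (.ev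
 (nat_lit 1600) (nat_lit 512) (.ev (nat_lit 2052) (nat_lit 4) (.ev (nat_lit 2061) (nat_lit 128)
 .dd)))))))))))))) (.ch (nat_lit 2) (.nd (nat_lit 992) (.br (nat_lit 4) (.br (nat_lit 1) (.ch (nat_lit 0) (.ev
 (nat_lit 1008) (nat_lit 128) (.ev (nat_lit 1076) (nat_lit 512) (.ev (nat_lit 1188) (nat_lit 64) (.ev (nat_lit
 1197) (nat_lit 4) .dd))))) (.ch (nat_lit 1) (.ev (nat_lit 1008) (nat_lit 128) (.nd (nat_lit 2000) (.br
 (nat_lit 5) (.br (nat_lit 2) (.ch (nat_lit 0) (.ev (nat_lit 2016) (nat_lit 512) (.fin (nat_lit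
 576563556757488406)))) (.ch (nat_lit 2) (.ev (nat_lit 2016) (nat_lit 64) (.fin (nat_lit
 576447008388629030))))) (.br (nat_lit 6) (.ch (nat_lit 5) (.ev (nat_lit 2016) (nat_lit 68) (.ev (nat_lit 2029)
 (nat_lit 512) .dd))) (.ch (nat_lit 6) (.ev (nat_lit 2180) (nat_lit 64) (.nd (nat_lit 4784) (.br (nat_lit 6)
 (.ch (nat_lit 1) (.fin (nat_lit 576487690187784970))) (.ch (nat_lit 6) (.ev (nat_lit 4800) (nat_lit 4) (.ev
 (nat_lit 4813) (nat_lit 512) .dd))))))))))))) (.br (nat_lit 5) (.ch (nat_lit 4) (.ev (nat_lit 1008) (nat_lit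
 196) (.ev (nat_lit 1021) (nat_lit 512) .dd))) (.br (nat_lit 6) (.ch (nat_lit 5) (.ev (nat_lit 1008) (nat_lit
 512) (.ev (nat_lit 1508) (nat_lit 64) (.nd (nat_lit 1744) (.br (nat_lit 4) (.ch (nat_lit 1) (.nd (nat_lit
 4032) (.br (nat_lit 5) (.ch (nat_lit 0) (.ev (nat_lit 4308) (nat_lit 128) (.ev (nat_lit 4317) (nat_lit 4)
 .dd))) (.ch (nat_lit 5) (.ev (nat_lit 4048) (nat_lit 128) (.ev (nat_lit 4061) (nat_lit 4) .dd)))))) (.br
 (nat_lit 5) (.ch (nat_lit 4) (.ev (nat_lit 1760) (nat_lit 4) (.ev (nat_lit 1773) (nat_lit 128) .dd))) (.ch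
 (nat_lit 5) (.ev (nat_lit 1760) (nat_lit 128) (.ev (nat_lit 1773) (nat_lit 4) .dd))))))))) (.ch (nat_lit 6)
 (.ev (nat_lit 1008) (nat_lit 64) (.nd (nat_lit 1744) (.br (nat_lit 4) (.br (nat_lit 3) (.ch (nat_lit 1) (.ev
 (nat_lit 1760) (nat_lit 512) (.ev (nat_lit 3508) (nat_lit 128) (.ev (nat_lit 3517) (nat_lit 4) .dd)))) (.ch
 (nat_lit 3) (.ev (nat_lit 1760) (nat_lit 640) (.ev (nat_lit 1773) (nat_lit 4) .dd)))) (.br (nat_lit 6) (.ch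
 (nat_lit 4) (.ev (nat_lit 1760) (nat_lit 4) (.fin (nat_lit 576467899142062633)))) (.ch (nat_lit 6) (.ev
 (nat_lit 1760) (nat_lit 128) (.ev (nat_lit 4228) (nat_lit 4) (.ev (nat_lit 4237) (nat_lit 512)
 .dd))))))))))))))) (.br (nat_lit 4) (.ch (nat_lit 3) (.ev (nat_lit 544) (nat_lit 64) (.nd (nat_lit 992) (.br
 (nat_lit 3) (.br (nat_lit 1) (.ch (nat_lit 0) (.ev (nat_lit 1008) (nat_lit 132) (.ev (nat_lit 1021) (nat_lit
 512) .dd))) (.ch (nat_lit 1) (.ev (nat_lit 1008) (nat_lit 4) (.nd (nat_lit 2832) (.br (nat_lit 2) (.ch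
 (nat_lit 0) (.ev (nat_lit 2848) (nat_lit 128) (.ev (nat_lit 2861) (nat_lit 512) .dd))) (.br (nat_lit 4) (.ch
 (nat_lit 2) (.ev (nat_lit 4196) (nat_lit 128) (.ev (nat_lit 4205) (nat_lit 512) .dd))) (.ch (nat_lit 4) (.ev
 (nat_lit 2848) (nat_lit 640) .dd)))))))) (.br (nat_lit 5) (.ch (nat_lit 3) (.nd (nat_lit 2304) (.br (nat_lit
 6) (.ch (nat_lit 1) (.ev (nat_lit 2320) (nat_lit 4) (.nd (nat_lit 4896) (.br (nat_lit 4) (.ch (nat_lit 3)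
 (.fin (nat_lit 576804349976985442))) (.ch (nat_lit 4) (.ev (nat_lit 4912) (nat_lit 512) (.ev (nat_lit 4925)
 (nat_lit 128) .dd))))))) (.ch (nat_lit 6) (.ev (nat_lit 2320) (nat_lit 128) (.nd (nat_lit 4976) (.br (nat_lit
 5) (.ch (nat_lit 3) (.ev (nat_lit 4992) (nat_lit 512) (.ev (nat_lit 5005) (nat_lit 4) .dd))) (.ch (nat_lit 5)
 (.fin (nat_lit 576536068860887675)))))))))) (.br (nat_lit 6) (.ch (nat_lit 5) (.ev (nat_lit 1008) (nat_lit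
 512) (.nd (nat_lit 2000) (.br (nat_lit 2) (.br (nat_lit 1) (.ch (nat_lit 0) (.ev (nat_lit 2196) (nat_lit 4)
 (.ev (nat_lit 2205) (nat_lit 128) .dd))) (.ch (nat_lit 1) (.fin (nat_lit 576463501082968665)))) (.br (nat_lit
 3) (.ch (nat_lit 2) (.ev (nat_lit 2016) (nat_lit 128) (.ev (nat_lit 2029) (nat_lit 4) .dd))) (.ch (nat_lit 3)
 (.ev (nat_lit 2016) (nat_lit 4) (.ev (nat_lit 2029) (nat_lit 128) .dd)))))))) (.ch (nat_lit 6) (.nd (nat_lit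
 2304) (.br (nat_lit 4) (.ch (nat_lit 2) (.ev (nat_lit 2320) (nat_lit 4) (.ev (nat_lit 4196) (nat_lit 128) (.ev
 (nat_lit 4205) (nat_lit 512) .dd)))) (.br (nat_lit 6) (.ch (nat_lit 4) (.ev (nat_lit 2320) (nat_lit 128) (.ev
 (nat_lit 2372) (nat_lit 512) (.ev (nat_lit 2381) (nat_lit 4) .dd)))) (.ch (nat_lit 6) (.ev (nat_lit 2320)
 (nat_lit 128) (.ev (nat_lit 2420) (nat_lit 4) (.ev (nat_lit 2429) (nat_lit 512) .dd)))))))))))))) (.br
 (nat_lit 5) (.ch (nat_lit 4) (.ev (nat_lit 544) (nat_lit 132) (.nd (nat_lit 1312) (.br (nat_lit 4) (.br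
 (nat_lit 3) (.ch (nat_lit 0) (.nd (nat_lit 3168) (.br (nat_lit 2) (.ch (nat_lit 1) (.ev (nat_lit 3184)
 (nat_lit 512) (.ev (nat_lit 3197) (nat_lit 64) .dd))) (.br (nat_lit 3) (.ch (nat_lit 2) (.ev (nat_lit 3184)
 (nat_lit 512) (.ev (nat_lit 3197) (nat_lit 64) .dd))) (.ch (nat_lit 3) (.nd (nat_lit 5456) (.br (nat_lit 6)
 (.ch (nat_lit 0) (.ev (nat_lit 5472) (nat_lit 512) (.ev (nat_lit 5485) (nat_lit 64) .dd))) (.ch (nat_lit 6)
 (.fin (nat_lit 576456904092893787)))))))))) (.ch (nat_lit 3) (.ev (nat_lit 1328) (nat_lit 512) (.ev (nat_lit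
 1341) (nat_lit 64) .dd)))) (.br (nat_lit 6) (.ch (nat_lit 4) (.nd (nat_lit 3168) (.br (nat_lit 3) (.ch
 (nat_lit 2) (.ev (nat_lit 3184) (nat_lit 512) (.ev (nat_lit 3197) (nat_lit 64) .dd))) (.br (nat_lit 4) (.ch
 (nat_lit 3) (.ev (nat_lit 3184) (nat_lit 64) (.ev (nat_lit 3197) (nat_lit 512) .dd))) (.ch (nat_lit 4) (.fin
 (nat_lit 576448107926471236))))))) (.ch (nat_lit 6) (.ev (nat_lit 1348) (nat_lit 64) (.ev (nat_lit 1357)
 (nat_lit 512) .dd)))))))) (.ch (nat_lit 5) (.ev (nat_lit 544) (nat_lit 576) (.nd (nat_lit 992) (.br (nat_lit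
 5) (.ch (nat_lit 2) (.ev (nat_lit 1028) (nat_lit 4) (.ev (nat_lit 1037) (nat_lit 128) .dd))) (.ch (nat_lit 5)
 (.ev (nat_lit 1028) (nat_lit 4) (.ev (nat_lit 1037) (nat_lit 128) .dd)))))))))))) (.br (nat_lit 6) (.ch
 (nat_lit 4) (.ev (nat_lit 288) (nat_lit 196) (.ev (nat_lit 301) (nat_lit 512) .dd))) (.ch (nat_lit 6) (.ev
 (nat_lit 288) (nat_lit 64) (.nd (nat_lit 528) (.br (nat_lit 3) (.br (nat_lit 2) (.ch (nat_lit 0) (.ev (nat_lit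
 544) (nat_lit 512) (.nd (nat_lit 992) (.br (nat_lit 4) (.br (nat_lit 1) (.ch (nat_lit 0) (.ev (nat_lit 2464)
 (nat_lit 128) (.ev (nat_lit 2477) (nat_lit 4) .dd))) (.ch (nat_lit 1) (.nd (nat_lit 2592) (.br (nat_lit 5)
 (.br (nat_lit 3) (.ch (nat_lit 0) (.ev (nat_lit 2916) (nat_lit 4) (.ev (nat_lit 2925) (nat_lit 128) .dd)))
 (.ch (nat_lit 3) (.ev (nat_lit 4240) (nat_lit 128) (.ev (nat_lit 4253) (nat_lit 4) .dd)))) (.br (nat_lit 6)
 (.ch (nat_lit 5) (.ev (nat_lit 3684) (nat_lit 128) (.ev (nat_lit 3693) (nat_lit 4) .dd))) (.ch (nat_lit 6)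
 (.ev (nat_lit 2788) (nat_lit 128) (.ev (nat_lit 2797) (nat_lit 4) .dd)))))))) (.br (nat_lit 5) (.ch (nat_lit
 4) (.ev (nat_lit 1892) (nat_lit 128) (.ev (nat_lit 1901) (nat_lit 4) .dd))) (.br (nat_lit 6) (.ch (nat_lit 5)
 (.ev (nat_lit 1008) (nat_lit 132) .dd)) (.ch (nat_lit 6) (.ev (nat_lit 2452) (nat_lit 4) (.ev (nat_lit 2461)
 (nat_lit 128) .dd))))))))) (.ch (nat_lit 2) (.ev (nat_lit 544) (nat_lit 644) .dd))) (.br (nat_lit 5) (.ch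
 (nat_lit 3) (.ev (nat_lit 564) (nat_lit 4) (.nd (nat_lit 1104) (.br (nat_lit 3) (.br (nat_lit 2) (.ch (nat_lit
 1) (.ev (nat_lit 1120) (nat_lit 512) (.ev (nat_lit 1133) (nat_lit 128) .dd))) (.ch (nat_lit 2) (.ev (nat_lit
 1120) (nat_lit 128) (.ev (nat_lit 1133) (nat_lit 512) .dd)))) (.br (nat_lit 5) (.ch (nat_lit 3) (.ev (nat_lit
 1120) (nat_lit 128) (.ev (nat_lit 1133) (nat_lit 512) .dd))) (.br (nat_lit 6) (.ch (nat_lit 5) (.nd (nat_lit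
 3072) (.br (nat_lit 4) (.ch (nat_lit 1) (.fin (nat_lit 576427217165697552))) (.br (nat_lit 5) (.ch (nat_lit 4)
 (.ev (nat_lit 3088) (nat_lit 640) .dd)) (.ch (nat_lit 5) (.ev (nat_lit 3088) (nat_lit 128) (.ev (nat_lit 3101)
 (nat_lit 512) .dd))))))) (.ch (nat_lit 6) (.ev (nat_lit 1120) (nat_lit 640) .dd)))))))) (.br (nat_lit 6) (.ch
 (nat_lit 5) (.nd (nat_lit 832) (.br (nat_lit 3) (.br (nat_lit 2) (.ch (nat_lit 0) (.ev (nat_lit 1300) (nat_lit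
 128) (.nd (nat_lit 2144) (.br (nat_lit 4) (.ch (nat_lit 3) (.ev (nat_lit 4372) (nat_lit 4) (.ev (nat_lit 4381)
 (nat_lit 512) .dd))) (.br (nat_lit 5) (.ch (nat_lit 4) (.ev (nat_lit 2452) (nat_lit 4) (.ev (nat_lit 2461)
 (nat_lit 512) .dd))) (.ch (nat_lit 5) (.ev (nat_lit 3812) (nat_lit 4) (.ev (nat_lit 3821) (nat_lit 512)
 .dd)))))))) (.ch (nat_lit 2) (.nd (nat_lit 2144) (.br (nat_lit 2) (.ch (nat_lit 0) (.ev (nat_lit 2180)
 (nat_lit 512) (.nd (nat_lit 4032) (.br (nat_lit 5) (.ch (nat_lit 3) (.ev (nat_lit 4048) (nat_lit 128) (.ev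
 (nat_lit 4061) (nat_lit 4) .dd))) (.ch (nat_lit 5) (.fin (nat_lit 576580049825120026))))))) (.ch (nat_lit 2)
 (.ev (nat_lit 2160) (nat_lit 4) (.fin (nat_lit 576332659315655026)))))))) (.br (nat_lit 6) (.ch (nat_lit 3)
 (.ev (nat_lit 848) (nat_lit 4) (.ev (nat_lit 1636) (nat_lit 512) (.ev (nat_lit 1645) (nat_lit 128) .dd))))
 (.ch (nat_lit 6) (.ev (nat_lit 848) (nat_lit 128) (.ev (nat_lit 1636) (nat_lit 4) (.ev (nat_lit 1645) (nat_lit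
 512) .dd)))))))) (.ch (nat_lit 6) (.nd (nat_lit 1104) (.br (nat_lit 3) (.br (nat_lit 2) (.ch (nat_lit 1) (.ev
 (nat_lit 1460) (nat_lit 512) (.nd (nat_lit 1744) (.br (nat_lit 5) (.br (nat_lit 2) (.ch (nat_lit 1) (.ev
 (nat_lit 1760) (nat_lit 128) (.ev (nat_lit 1773) (nat_lit 4) .dd))) (.ch (nat_lit 2) (.ev (nat_lit 4292)
 (nat_lit 128) (.ev (nat_lit 4301) (nat_lit 4) .dd)))) (.br (nat_lit 6) (.ch (nat_lit 5) (.ev (nat_lit 1760)
 (nat_lit 4) (.ev (nat_lit 1773) (nat_lit 128) .dd))) (.ch (nat_lit 6) (.ev (nat_lit 1760) (nat_lit 128) (.ev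
 (nat_lit 1773) (nat_lit 4) .dd)))))))) (.ch (nat_lit 2) (.ev (nat_lit 1220) (nat_lit 4) (.nd (nat_lit 2832)
 (.br (nat_lit 2) (.ch (nat_lit 1) (.fin (nat_lit 576470098165318203))) (.br (nat_lit 4) (.ch (nat_lit 2) (.ev
 (nat_lit 2848) (nat_lit 128) (.ev (nat_lit 2861) (nat_lit 512) .dd))) (.ch (nat_lit 4) (.ev (nat_lit 2848)
 (nat_lit 512) (.ev (nat_lit 2861) (nat_lit 128) .dd))))))))) (.br (nat_lit 4) (.ch (nat_lit 3) (.ev (nat_lit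
 1120) (nat_lit 128) (.nd (nat_lit 2592) (.br (nat_lit 2) (.br (nat_lit 1) (.ch (nat_lit 0) (.ev (nat_lit 2692)
 (nat_lit 512) (.ev (nat_lit 2701) (nat_lit 4) .dd))) (.ch (nat_lit 1) (.ev (nat_lit 2608) (nat_lit 516) .dd)))
 (.br (nat_lit 5) (.ch (nat_lit 2) (.ev (nat_lit 2628) (nat_lit 4) (.ev (nat_lit 2637) (nat_lit 512) .dd)))
 (.ch (nat_lit 5) (.fin (nat_lit 576443709787685485)))))))) (.ch (nat_lit 4) (.ev (nat_lit 1120) (nat_lit 128)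
 (.nd (nat_lit 2304) (.br (nat_lit 2) (.ch (nat_lit 0) (.fin (nat_lit 576466799602123338))) (.br (nat_lit 4)
 (.ch (nat_lit 2) (.ev (nat_lit 2320) (nat_lit 4) (.ev (nat_lit 2333) (nat_lit 512) .dd))) (.ch (nat_lit 4)
 (.ev (nat_lit 2372) (nat_lit 512) (.ev (nat_lit 2381) (nat_lit 4) .dd)))))))))))))))))))))))) (.br (nat_lit 5)
 (.ch (nat_lit 3) (.nd (nat_lit 272) (.br (nat_lit 4) (.br (nat_lit 2) (.ch (nat_lit 1) (.ev (nat_lit 288)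
 (nat_lit 128) (.nd (nat_lit 624) (.br (nat_lit 3) (.br (nat_lit 1) (.ch (nat_lit 0) (.nd (nat_lit 1104) (.br
 (nat_lit 4) (.br (nat_lit 1) (.ch (nat_lit 0) (.ev (nat_lit 1120) (nat_lit 64) (.ev (nat_lit 1376) (nat_lit 4)
 (.ev (nat_lit 1389) (nat_lit 512) .dd)))) (.ch (nat_lit 1) (.ev (nat_lit 1428) (nat_lit 4) (.nd (nat_lit 3072)
 (.br (nat_lit 1) (.ch (nat_lit 0) (.ev (nat_lit 3088) (nat_lit 512) (.ev (nat_lit 3101) (nat_lit 64) .dd)))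
 (.br (nat_lit 6) (.ch (nat_lit 1) (.ev (nat_lit 3844) (nat_lit 64) (.ev (nat_lit 3853) (nat_lit 512) .dd)))
 (.ch (nat_lit 6) (.nd (nat_lit 5424) (.br (nat_lit 6) (.ch (nat_lit 4) (.fin (nat_lit 576452505882804700)))
 (.ch (nat_lit 6) (.ev (nat_lit 5440) (nat_lit 512) (.ev (nat_lit 5453) (nat_lit 64) .dd)))))))))))) (.br
 (nat_lit 5) (.ch (nat_lit 4) (.ev (nat_lit 1120) (nat_lit 4) (.ev (nat_lit 1428) (nat_lit 512) (.ev (nat_lit
 1437) (nat_lit 64) .dd)))) (.ch (nat_lit 5) (.ev (nat_lit 1120) (nat_lit 64) (.nd (nat_lit 2832) (.br (nat_lit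
 3) (.ch (nat_lit 1) (.fin (nat_lit 576462401571340866))) (.ch (nat_lit 3) (.ev (nat_lit 2848) (nat_lit 512)
 (.ev (nat_lit 2861) (nat_lit 4) .dd))))))))))) (.ch (nat_lit 1) (.nd (nat_lit 1312) (.br (nat_lit 3) (.br
 (nat_lit 2) (.ch (nat_lit 0) (.ev (nat_lit 1328) (nat_lit 512) (.ev (nat_lit 2676) (nat_lit 4) (.ev (nat_lit
 2685) (nat_lit 64) .dd)))) (.ch (nat_lit 2) (.ev (nat_lit 1328) (nat_lit 516) (.ev (nat_lit 1341) (nat_lit 64)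
 .dd)))) (.br (nat_lit 6) (.ch (nat_lit 3) (.ev (nat_lit 1348) (nat_lit 64) (.ev (nat_lit 1476) (nat_lit 4)
 (.ev (nat_lit 1485) (nat_lit 512) .dd)))) (.ch (nat_lit 6) (.ev (nat_lit 1328) (nat_lit 64) (.ev (nat_lit
 1348) (nat_lit 512) (.ev (nat_lit 1357) (nat_lit 4) .dd))))))))) (.br (nat_lit 5) (.ch (nat_lit 3) (.ev
 (nat_lit 640) (nat_lit 64) (.nd (nat_lit 1104) (.br (nat_lit 4) (.br (nat_lit 3) (.ch (nat_lit 1) (.ev
 (nat_lit 1120) (nat_lit 512) (.ev (nat_lit 1133) (nat_lit 4) .dd))) (.ch (nat_lit 3) (.ev (nat_lit 1120)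
 (nat_lit 512) (.ev (nat_lit 1133) (nat_lit 4) .dd)))) (.br (nat_lit 5) (.ch (nat_lit 4) (.ev (nat_lit 1396)
 (nat_lit 512) (.ev (nat_lit 1405) (nat_lit 4) .dd))) (.ch (nat_lit 5) (.ev (nat_lit 1120) (nat_lit 512) (.ev
 (nat_lit 1133) (nat_lit 4) .dd)))))))) (.ch (nat_lit 5) (.ev (nat_lit 640) (nat_lit 512) (.nd (nat_lit 1104)
 (.br (nat_lit 4) (.ch (nat_lit 1) (.ev (nat_lit 1120) (nat_lit 64) (.ev (nat_lit 1133) (nat_lit 4) .dd))) (.br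
 (nat_lit 5) (.ch (nat_lit 4) (.nd (nat_lit 1744) (.br (nat_lit 2) (.br (nat_lit 1) (.ch (nat_lit 0) (.nd
 (nat_lit 4448) (.br (nat_lit 2) (.ch (nat_lit 1) (.fin (nat_lit 576342554793427500))) (.br (nat_lit 5) (.ch
 (nat_lit 2) (.ev (nat_lit 4464) (nat_lit 4) (.ev (nat_lit 4477) (nat_lit 64) .dd))) (.ch (nat_lit 5) (.ev
 (nat_lit 4484) (nat_lit 64) (.ev (nat_lit 4493) (nat_lit 4) .dd))))))) (.ch (nat_lit 1) (.ev (nat_lit 1760)
 (nat_lit 64) (.ev (nat_lit 1773) (nat_lit 4) .dd)))) (.br (nat_lit 4) (.ch (nat_lit 2) (.ev (nat_lit 1780)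
 (nat_lit 4) (.ev (nat_lit 1789) (nat_lit 64) .dd))) (.ch (nat_lit 4) (.ev (nat_lit 1780) (nat_lit 4) (.ev
 (nat_lit 1789) (nat_lit 64) .dd))))))) (.ch (nat_lit 5) (.nd (nat_lit 2144) (.br (nat_lit 5) (.br (nat_lit 4)
 (.ch (nat_lit 3) (.ev (nat_lit 3860) (nat_lit 4) (.ev (nat_lit 3869) (nat_lit 64) .dd))) (.ch (nat_lit 4) (.ev
 (nat_lit 2160) (nat_lit 64) (.ev (nat_lit 2173) (nat_lit 4) .dd)))) (.br (nat_lit 6) (.ch (nat_lit 5) (.ev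
 (nat_lit 2532) (nat_lit 64) (.ev (nat_lit 2541) (nat_lit 4) .dd))) (.ch (nat_lit 6) (.ev (nat_lit 2180)
 (nat_lit 64) (.ev (nat_lit 2189) (nat_lit 4) .dd))))))))))))))))) (.ch (nat_lit 2) (.ev (nat_lit 288) (nat_lit
 4) (.nd (nat_lit 576) (.br (nat_lit 3) (.br (nat_lit 2) (.ch (nat_lit 1) (.ev (nat_lit 592) (nat_lit 128) (.nd
 (nat_lit 1312) (.br (nat_lit 3) (.br (nat_lit 2) (.ch (nat_lit 1) (.nd (nat_lit 3168) (.br (nat_lit 3) (.br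
 (nat_lit 1) (.ch (nat_lit 0) (.ev (nat_lit 3204) (nat_lit 64) (.ev (nat_lit 3213) (nat_lit 512) .dd))) (.ch
 (nat_lit 1) (.ev (nat_lit 3684) (nat_lit 512) (.ev (nat_lit 3693) (nat_lit 64) .dd)))) (.br (nat_lit 6) (.ch
 (nat_lit 3) (.ev (nat_lit 4240) (nat_lit 512) (.ev (nat_lit 4253) (nat_lit 64) .dd))) (.ch (nat_lit 6) (.ev
 (nat_lit 3204) (nat_lit 64) (.ev (nat_lit 3213) (nat_lit 512) .dd))))))) (.ch (nat_lit 2) (.ev (nat_lit 2464)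
 (nat_lit 512) (.ev (nat_lit 2477) (nat_lit 64) .dd)))) (.br (nat_lit 4) (.ch (nat_lit 3) (.ev (nat_lit 2452)
 (nat_lit 64) (.ev (nat_lit 2461) (nat_lit 512) .dd))) (.br (nat_lit 5) (.ch (nat_lit 4) (.ev (nat_lit 1328)
 (nat_lit 576) .dd)) (.ch (nat_lit 5) (.ev (nat_lit 1892) (nat_lit 512) (.ev (nat_lit 1901) (nat_lit 64)
 .dd))))))))) (.ch (nat_lit 2) (.nd (nat_lit 1104) (.br (nat_lit 4) (.br (nat_lit 3) (.ch (nat_lit 2) (.ev
 (nat_lit 1120) (nat_lit 512) (.nd (nat_lit 2592) (.br (nat_lit 4) (.ch (nat_lit 2) (.ev (nat_lit 2628)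
 (nat_lit 64) (.ev (nat_lit 2637) (nat_lit 128) .dd))) (.br (nat_lit 6) (.ch (nat_lit 4) (.ev (nat_lit 2608)
 (nat_lit 64) (.ev (nat_lit 2621) (nat_lit 128) .dd))) (.ch (nat_lit 6) (.fin (nat_lit
 576466799635677770)))))))) (.ch (nat_lit 3) (.ev (nat_lit 1120) (nat_lit 512) (.nd (nat_lit 2592) (.br
 (nat_lit 4) (.br (nat_lit 3) (.ch (nat_lit 2) (.ev (nat_lit 2628) (nat_lit 64) (.ev (nat_lit 2637) (nat_lit
 128) .dd))) (.ch (nat_lit 3) (.ev (nat_lit 2608) (nat_lit 192) .dd))) (.br (nat_lit 6) (.ch (nat_lit 4) (.ev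
 (nat_lit 2692) (nat_lit 128) (.ev (nat_lit 2701) (nat_lit 64) .dd))) (.ch (nat_lit 6) (.fin (nat_lit
 576443709961749101))))))))) (.br (nat_lit 5) (.ch (nat_lit 4) (.ev (nat_lit 1220) (nat_lit 64) (.nd (nat_lit
 2832) (.br (nat_lit 1) (.ch (nat_lit 0) (.ev (nat_lit 2848) (nat_lit 512) (.ev (nat_lit 2861) (nat_lit 128)
 .dd))) (.br (nat_lit 5) (.ch (nat_lit 1) (.fin (nat_lit 576470098142249531))) (.ch (nat_lit 5) (.ev (nat_lit
 2848) (nat_lit 128) (.ev (nat_lit 2861) (nat_lit 512) .dd)))))))) (.ch (nat_lit 5) (.ev (nat_lit 1460)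
 (nat_lit 128) (.nd (nat_lit 3072) (.br (nat_lit 5) (.br (nat_lit 2) (.ch (nat_lit 1) (.ev (nat_lit 3088)
 (nat_lit 512) (.ev (nat_lit 3101) (nat_lit 64) .dd))) (.ch (nat_lit 2) (.ev (nat_lit 3088) (nat_lit 64) (.ev
 (nat_lit 3101) (nat_lit 512) .dd)))) (.br (nat_lit 6) (.ch (nat_lit 5) (.ev (nat_lit 4292) (nat_lit 512) (.ev
 (nat_lit 4301) (nat_lit 64) .dd))) (.ch (nat_lit 6) (.ev (nat_lit 3088) (nat_lit 512) (.ev (nat_lit 3101)
 (nat_lit 64) .dd))))))))))))) (.br (nat_lit 5) (.ch (nat_lit 3) (.nd (nat_lit 992) (.br (nat_lit 4) (.br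
 (nat_lit 2) (.ch (nat_lit 1) (.ev (nat_lit 1008) (nat_lit 64) (.ev (nat_lit 1636) (nat_lit 128) (.ev (nat_lit
 1645) (nat_lit 512) .dd)))) (.ch (nat_lit 2) (.nd (nat_lit 2832) (.br (nat_lit 2) (.ch (nat_lit 0) (.ev
 (nat_lit 2848) (nat_lit 64) (.fin (nat_lit 576332659084968306)))) (.ch (nat_lit 2) (.ev (nat_lit 2868)
 (nat_lit 128) (.nd (nat_lit 5360) (.br (nat_lit 2) (.ch (nat_lit 0) (.fin (nat_lit 576580048808001306))) (.ch
 (nat_lit 2) (.ev (nat_lit 5376) (nat_lit 512) (.ev (nat_lit 5389) (nat_lit 64) .dd))))))))))) (.br (nat_lit 5)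
 (.ch (nat_lit 4) (.ev (nat_lit 1300) (nat_lit 512) (.nd (nat_lit 2144) (.br (nat_lit 1) (.ch (nat_lit 0) (.ev
 (nat_lit 3812) (nat_lit 64) (.ev (nat_lit 3821) (nat_lit 128) .dd))) (.br (nat_lit 2) (.ch (nat_lit 1) (.ev
 (nat_lit 2452) (nat_lit 64) (.ev (nat_lit 2461) (nat_lit 128) .dd))) (.ch (nat_lit 2) (.ev (nat_lit 4372)
 (nat_lit 64) (.ev (nat_lit 4381) (nat_lit 128) .dd)))))))) (.ch (nat_lit 5) (.ev (nat_lit 1008) (nat_lit 512)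
 (.ev (nat_lit 1636) (nat_lit 64) (.ev (nat_lit 1645) (nat_lit 128) .dd)))))))) (.br (nat_lit 6) (.ch (nat_lit
 5) (.ev (nat_lit 612) (nat_lit 64) (.nd (nat_lit 992) (.br (nat_lit 4) (.br (nat_lit 2) (.ch (nat_lit 1) (.ev
 (nat_lit 1008) (nat_lit 640) .dd)) (.ch (nat_lit 2) (.nd (nat_lit 3072) (.br (nat_lit 3) (.ch (nat_lit 2) (.ev
 (nat_lit 3088) (nat_lit 512) (.ev (nat_lit 3101) (nat_lit 128) .dd))) (.br (nat_lit 6) (.ch (nat_lit 3) (.ev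
 (nat_lit 3088) (nat_lit 640) .dd)) (.ch (nat_lit 6) (.fin (nat_lit 576427217234903568)))))))) (.br (nat_lit 5)
 (.ch (nat_lit 4) (.ev (nat_lit 1008) (nat_lit 512) (.ev (nat_lit 1021) (nat_lit 128) .dd))) (.br (nat_lit 6)
 (.ch (nat_lit 5) (.ev (nat_lit 1008) (nat_lit 512) (.ev (nat_lit 1021) (nat_lit 128) .dd))) (.ch (nat_lit 6)
 (.ev (nat_lit 1008) (nat_lit 128) (.ev (nat_lit 1021) (nat_lit 512) .dd))))))))) (.ch (nat_lit 6) (.ev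
 (nat_lit 592) (nat_lit 704) .dd))))))))) (.br (nat_lit 5) (.ch (nat_lit 4) (.ev (nat_lit 288) (nat_lit 580)
 (.ev (nat_lit 301) (nat_lit 128) .dd))) (.br (nat_lit 6) (.ch (nat_lit 5) (.nd (nat_lit 576) (.br (nat_lit 4)
 (.br (nat_lit 1) (.ch (nat_lit 0) (.nd (nat_lit 992) (.br (nat_lit 2) (.br (nat_lit 1) (.ch (nat_lit 0) (.ev
 (nat_lit 1008) (nat_lit 512) (.nd (nat_lit 1584) (.br (nat_lit 4) (.br (nat_lit 2) (.ch (nat_lit 0) (.ev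
 (nat_lit 1600) (nat_lit 64) (.ev (nat_lit 1616) (nat_lit 132) .dd))) (.ch (nat_lit 2) (.ev (nat_lit 1664)
 (nat_lit 4) (.fin (nat_lit 576447008430572070))))) (.br (nat_lit 5) (.ch (nat_lit 4) (.ev (nat_lit 1600)
 (nat_lit 128) (.fin (nat_lit 576563556526801686)))) (.br (nat_lit 6) (.ch (nat_lit 5) (.ev (nat_lit 2180)
 (nat_lit 4) (.nd (nat_lit 4032) (.br (nat_lit 2) (.ch (nat_lit 0) (.fin (nat_lit 576487690491872010))) (.br
 (nat_lit 6) (.ch (nat_lit 2) (.ev (nat_lit 4048) (nat_lit 64) (.ev (nat_lit 4061) (nat_lit 128) .dd))) (.ch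
 (nat_lit 6) (.ev (nat_lit 4048) (nat_lit 192) .dd))))))) (.ch (nat_lit 6) (.ev (nat_lit 1600) (nat_lit 68)
 (.ev (nat_lit 1613) (nat_lit 128) .dd))))))))) (.ch (nat_lit 1) (.ev (nat_lit 1008) (nat_lit 512) (.ev
 (nat_lit 1076) (nat_lit 128) (.ev (nat_lit 1188) (nat_lit 4) (.ev (nat_lit 1197) (nat_lit 64) .dd)))))) (.br
 (nat_lit 3) (.ch (nat_lit 2) (.ev (nat_lit 1008) (nat_lit 4) (.nd (nat_lit 2304) (.br (nat_lit 3) (.br
 (nat_lit 2) (.ch (nat_lit 0) (.ev (nat_lit 2320) (nat_lit 512) (.ev (nat_lit 4228) (nat_lit 64) (.ev (nat_lit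
 4237) (nat_lit 128) .dd)))) (.ch (nat_lit 2) (.ev (nat_lit 2320) (nat_lit 64) (.fin (nat_lit
 576467899118993961))))) (.br (nat_lit 5) (.ch (nat_lit 3) (.ev (nat_lit 2320) (nat_lit 640) (.ev (nat_lit
 2333) (nat_lit 64) .dd))) (.ch (nat_lit 5) (.ev (nat_lit 2320) (nat_lit 128) (.ev (nat_lit 3508) (nat_lit 512)
 (.ev (nat_lit 3517) (nat_lit 64) .dd))))))))) (.br (nat_lit 4) (.ch (nat_lit 3) (.ev (nat_lit 1008) (nat_lit
 128) (.ev (nat_lit 1508) (nat_lit 4) (.nd (nat_lit 3072) (.br (nat_lit 3) (.ch (nat_lit 0) (.ev (nat_lit 3088)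
 (nat_lit 64) (.ev (nat_lit 3101) (nat_lit 512) .dd))) (.br (nat_lit 6) (.ch (nat_lit 3) (.ev (nat_lit 4308)
 (nat_lit 512) (.ev (nat_lit 4317) (nat_lit 64) .dd))) (.ch (nat_lit 6) (.ev (nat_lit 3088) (nat_lit 512) (.ev
 (nat_lit 3101) (nat_lit 64) .dd))))))))) (.ch (nat_lit 4) (.ev (nat_lit 1008) (nat_lit 580) (.ev (nat_lit
 1021) (nat_lit 128) .dd)))))))) (.ch (nat_lit 1) (.ev (nat_lit 592) (nat_lit 4) (.nd (nat_lit 896) (.br
 (nat_lit 3) (.br (nat_lit 1) (.ch (nat_lit 0) (.nd (nat_lit 2304) (.br (nat_lit 4) (.br (nat_lit 1) (.ch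
 (nat_lit 0) (.ev (nat_lit 2900) (nat_lit 128) (.fin (nat_lit 576514078563320445)))) (.ch (nat_lit 1) (.ev
 (nat_lit 4692) (nat_lit 64) (.nd (nat_lit 5248) (.br (nat_lit 4) (.ch (nat_lit 1) (.ev (nat_lit 5264) (nat_lit
 128) (.ev (nat_lit 5277) (nat_lit 512) .dd))) (.ch (nat_lit 4) (.fin (nat_lit 576527272746893812)))))))) (.br
 (nat_lit 6) (.ch (nat_lit 4) (.ev (nat_lit 2320) (nat_lit 128) (.ev (nat_lit 2372) (nat_lit 64) (.ev (nat_lit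
 2381) (nat_lit 512) .dd)))) (.ch (nat_lit 6) (.ev (nat_lit 2320) (nat_lit 128) (.ev (nat_lit 2564) (nat_lit
 64) (.ev (nat_lit 2573) (nat_lit 512) .dd)))))))) (.ch (nat_lit 1) (.ev (nat_lit 912) (nat_lit 576) (.ev
 (nat_lit 925) (nat_lit 128) .dd)))) (.br (nat_lit 5) (.ch (nat_lit 3) (.ev (nat_lit 1732) (nat_lit 128) (.nd
 (nat_lit 3072) (.br (nat_lit 1) (.ch (nat_lit 0) (.nd (nat_lit 5904) (.ch (nat_lit 2) (.fin (nat_lit
 576442610394546809))))) (.ch (nat_lit 1) (.ev (nat_lit 3088) (nat_lit 576) .dd)))))) (.br (nat_lit 6) (.ch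
 (nat_lit 5) (.nd (nat_lit 2000) (.br (nat_lit 4) (.br (nat_lit 2) (.ch (nat_lit 0) (.ev (nat_lit 2016)
 (nat_lit 640) (.ev (nat_lit 2029) (nat_lit 64) .dd))) (.ch (nat_lit 2) (.ev (nat_lit 2016) (nat_lit 64) (.nd
 (nat_lit 4896) (.ch (nat_lit 1) (.fin (nat_lit 576440411362902575))))))) (.br (nat_lit 5) (.ch (nat_lit 4)
 (.ev (nat_lit 2016) (nat_lit 128) (.ev (nat_lit 2036) (nat_lit 64) (.ev (nat_lit 2045) (nat_lit 512) .dd))))
 (.br (nat_lit 6) (.ch (nat_lit 5) (.ev (nat_lit 2016) (nat_lit 512) (.fin (nat_lit 576448107897111080)))) (.ch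
 (nat_lit 6) (.ev (nat_lit 2016) (nat_lit 576) (.ev (nat_lit 2029) (nat_lit 128) .dd)))))))) (.ch (nat_lit 6)
 (.ev (nat_lit 912) (nat_lit 128) (.ev (nat_lit 2420) (nat_lit 512) (.ev (nat_lit 2429) (nat_lit 64)
 .dd))))))))))) (.br (nat_lit 5) (.ch (nat_lit 4) (.ev (nat_lit 592) (nat_lit 132) (.ev (nat_lit 1076) (nat_lit
 512) (.ev (nat_lit 1085) (nat_lit 64) .dd)))) (.br (nat_lit 6) (.ch (nat_lit 5) (.ev (nat_lit 592) (nat_lit
 576) (.nd (nat_lit 992) (.br (nat_lit 4) (.br (nat_lit 1) (.ch (nat_lit 0) (.nd (nat_lit 2592) (.br (nat_lit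
 3) (.ch (nat_lit 2) (.fin (nat_lit 576448107915985476))) (.br (nat_lit 4) (.ch (nat_lit 3) (.ev (nat_lit 2608)
 (nat_lit 4) (.ev (nat_lit 2621) (nat_lit 128) .dd))) (.ch (nat_lit 4) (.ev (nat_lit 2608) (nat_lit 128) (.ev
 (nat_lit 2621) (nat_lit 4) .dd))))))) (.ch (nat_lit 1) (.ev (nat_lit 1008) (nat_lit 128) (.ev (nat_lit 1021)
 (nat_lit 4) .dd)))) (.br (nat_lit 5) (.ch (nat_lit 4) (.nd (nat_lit 2592) (.br (nat_lit 3) (.ch (nat_lit 2)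
 (.nd (nat_lit 5008) (.br (nat_lit 4) (.ch (nat_lit 3) (.ev (nat_lit 5024) (nat_lit 128) (.ev (nat_lit 5037)
 (nat_lit 4) .dd))) (.ch (nat_lit 4) (.fin (nat_lit 576456903935607387)))))) (.br (nat_lit 4) (.ch (nat_lit 3)
 (.ev (nat_lit 2608) (nat_lit 128) (.ev (nat_lit 2621) (nat_lit 4) .dd))) (.ch (nat_lit 4) (.ev (nat_lit 2608)
 (nat_lit 128) (.ev (nat_lit 2621) (nat_lit 4) .dd))))))) (.ch (nat_lit 5) (.ev (nat_lit 1220) (nat_lit 4) (.ev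
 (nat_lit 1229) (nat_lit 128) .dd)))))))) (.ch (nat_lit 6) (.ev (nat_lit 592) (nat_lit 4) (.nd (nat_lit 1104)
 (.br (nat_lit 3) (.br (nat_lit 2) (.ch (nat_lit 1) (.ev (nat_lit 1120) (nat_lit 64) (.nd (nat_lit 2592) (.br
 (nat_lit 3) (.br (nat_lit 2) (.ch (nat_lit 0) (.ev (nat_lit 4196) (nat_lit 512) (.ev (nat_lit 4205) (nat_lit
 128) .dd))) (.ch (nat_lit 2) (.ev (nat_lit 2608) (nat_lit 512) (.ev (nat_lit 2621) (nat_lit 128) .dd)))) (.br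
 (nat_lit 5) (.ch (nat_lit 3) (.ev (nat_lit 2608) (nat_lit 640) .dd)) (.ch (nat_lit 5) (.ev (nat_lit 2608)
 (nat_lit 640) .dd))))))) (.ch (nat_lit 2) (.ev (nat_lit 1120) (nat_lit 576) (.ev (nat_lit 1133) (nat_lit 128)
 .dd)))) (.br (nat_lit 4) (.ch (nat_lit 3) (.nd (nat_lit 2304) (.br (nat_lit 2) (.ch (nat_lit 0) (.ev (nat_lit
 2320) (nat_lit 512) (.ev (nat_lit 2372) (nat_lit 128) (.ev (nat_lit 2381) (nat_lit 64) .dd)))) (.br (nat_lit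
 5) (.ch (nat_lit 2) (.ev (nat_lit 2320) (nat_lit 64) (.ev (nat_lit 4196) (nat_lit 512) (.ev (nat_lit 4205)
 (nat_lit 128) .dd)))) (.ch (nat_lit 5) (.ev (nat_lit 2320) (nat_lit 512) (.ev (nat_lit 2420) (nat_lit 64) (.ev
 (nat_lit 2429) (nat_lit 128) .dd)))))))) (.br (nat_lit 6) (.ch (nat_lit 4) (.ev (nat_lit 1120) (nat_lit 128)
 (.nd (nat_lit 2832) (.br (nat_lit 2) (.br (nat_lit 1) (.ch (nat_lit 0) (.ev (nat_lit 2848) (nat_lit 512) (.ev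
 (nat_lit 2861) (nat_lit 64) .dd))) (.ch (nat_lit 1) (.fin (nat_lit 576463501085065817)))) (.br (nat_lit 6)
 (.ch (nat_lit 2) (.ev (nat_lit 2848) (nat_lit 512) (.ev (nat_lit 2861) (nat_lit 64) .dd))) (.ch (nat_lit 6)
 (.ev (nat_lit 2848) (nat_lit 64) (.ev (nat_lit 2861) (nat_lit 512) .dd)))))))) (.ch (nat_lit 6) (.nd (nat_lit
 2304) (.br (nat_lit 6) (.ch (nat_lit 4) (.ev (nat_lit 2320) (nat_lit 64) (.nd (nat_lit 4832) (.br (nat_lit 4)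
 (.ch (nat_lit 3) (.ev (nat_lit 4848) (nat_lit 128) (.ev (nat_lit 4861) (nat_lit 512) .dd))) (.ch (nat_lit 4)
 (.fin (nat_lit 576804349400268642))))))) (.ch (nat_lit 6) (.ev (nat_lit 2320) (nat_lit 512) (.nd (nat_lit
 5248) (.br (nat_lit 6) (.ch (nat_lit 4) (.fin (nat_lit 576536068842013307))) (.ch (nat_lit 6) (.ev (nat_lit
 5264) (nat_lit 128) (.ev (nat_lit 5277) (nat_lit 64) .dd))))))))))))))))))))) (.ch (nat_lit 6) (.ev (nat_lit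
 288) (nat_lit 128) (.nd (nat_lit 624) (.br (nat_lit 4) (.br (nat_lit 1) (.ch (nat_lit 0) (.ev (nat_lit 640)
 (nat_lit 64) (.nd (nat_lit 1104) (.br (nat_lit 4) (.br (nat_lit 3) (.ch (nat_lit 0) (.nd (nat_lit 2144) (.br
 (nat_lit 5) (.br (nat_lit 4) (.ch (nat_lit 3) (.ev (nat_lit 2372) (nat_lit 512) (.ev (nat_lit 2381) (nat_lit
 4) .dd))) (.ch (nat_lit 4) (.ev (nat_lit 2160) (nat_lit 512) (.ev (nat_lit 2173) (nat_lit 4) .dd)))) (.br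
 (nat_lit 6) (.ch (nat_lit 5) (.ev (nat_lit 2384) (nat_lit 516) .dd)) (.ch (nat_lit 6) (.fin (nat_lit
 576463501093454481))))))) (.ch (nat_lit 3) (.ev (nat_lit 1120) (nat_lit 4) (.ev (nat_lit 1133) (nat_lit 512)
 .dd)))) (.br (nat_lit 5) (.ch (nat_lit 4) (.ev (nat_lit 1120) (nat_lit 512) (.ev (nat_lit 1133) (nat_lit 4)
 .dd))) (.br (nat_lit 6) (.ch (nat_lit 5) (.nd (nat_lit 2592) (.br (nat_lit 4) (.ch (nat_lit 3) (.nd (nat_lit
 5280) (.br (nat_lit 1) (.ch (nat_lit 0) (.ev (nat_lit 5296) (nat_lit 4) (.ev (nat_lit 5309) (nat_lit 512)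
 .dd))) (.br (nat_lit 3) (.ch (nat_lit 1) (.ev (nat_lit 5296) (nat_lit 4) (.ev (nat_lit 5309) (nat_lit 512)
 .dd))) (.ch (nat_lit 3) (.fin (nat_lit 576556959677235642))))))) (.br (nat_lit 6) (.ch (nat_lit 4) (.ev
 (nat_lit 2608) (nat_lit 4) (.ev (nat_lit 2621) (nat_lit 512) .dd))) (.ch (nat_lit 6) (.ev (nat_lit 2628)
 (nat_lit 512) (.ev (nat_lit 2637) (nat_lit 4) .dd))))))) (.ch (nat_lit 6) (.ev (nat_lit 1120) (nat_lit 516)
 .dd)))))))) (.ch (nat_lit 1) (.ev (nat_lit 640) (nat_lit 4) (.ev (nat_lit 1188) (nat_lit 64) (.ev (nat_lit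
 1197) (nat_lit 512) .dd))))) (.br (nat_lit 5) (.ch (nat_lit 4) (.ev (nat_lit 640) (nat_lit 576) (.ev (nat_lit
 653) (nat_lit 4) .dd))) (.br (nat_lit 6) (.ch (nat_lit 5) (.ev (nat_lit 640) (nat_lit 4) (.nd (nat_lit 1312)
 (.br (nat_lit 4) (.ch (nat_lit 3) (.ev (nat_lit 1328) (nat_lit 512) (.ev (nat_lit 1341) (nat_lit 64) .dd)))
 (.br (nat_lit 6) (.ch (nat_lit 4) (.ev (nat_lit 1348) (nat_lit 64) (.ev (nat_lit 1357) (nat_lit 512) .dd)))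
 (.ch (nat_lit 6) (.nd (nat_lit 3168) (.br (nat_lit 6) (.ch (nat_lit 4) (.ev (nat_lit 3184) (nat_lit 512) (.ev
 (nat_lit 3197) (nat_lit 64) .dd))) (.ch (nat_lit 6) (.fin (nat_lit 576458003530072641))))))))))) (.ch (nat_lit
 6) (.ev (nat_lit 640) (nat_lit 4) (.nd (nat_lit 1312) (.br (nat_lit 3) (.br (nat_lit 2) (.ch (nat_lit 0) (.ev
 (nat_lit 1460) (nat_lit 64) (.ev (nat_lit 1469) (nat_lit 512) .dd))) (.ch (nat_lit 2) (.ev (nat_lit 1328)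
 (nat_lit 64) (.ev (nat_lit 1341) (nat_lit 512) .dd)))) (.br (nat_lit 5) (.ch (nat_lit 3) (.ev (nat_lit 1328)
 (nat_lit 512) (.ev (nat_lit 1341) (nat_lit 64) .dd))) (.ch (nat_lit 5) (.ev (nat_lit 1328) (nat_lit 64) (.ev
 (nat_lit 1341) (nat_lit 512) .dd))))))))))))))))))) (.br (nat_lit 6) (.ch (nat_lit 5) (.ev (nat_lit 48)
 (nat_lit 512) (.nd (nat_lit 224) (.br (nat_lit 4) (.br (nat_lit 1) (.ch (nat_lit 0) (.nd (nat_lit 528) (.br
 (nat_lit 2) (.br (nat_lit 1) (.ch (nat_lit 0) (.ev (nat_lit 544) (nat_lit 64) (.nd (nat_lit 896) (.br (nat_lit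
 2) (.br (nat_lit 1) (.ch (nat_lit 0) (.ev (nat_lit 912) (nat_lit 128) (.ev (nat_lit 925) (nat_lit 4) .dd)))
 (.ch (nat_lit 1) (.ev (nat_lit 912) (nat_lit 4) (.ev (nat_lit 925) (nat_lit 128) .dd)))) (.br (nat_lit 3) (.ch
 (nat_lit 2) (.ev (nat_lit 912) (nat_lit 128) (.ev (nat_lit 925) (nat_lit 4) .dd))) (.br (nat_lit 4) (.ch
 (nat_lit 3) (.ev (nat_lit 932) (nat_lit 4) (.ev (nat_lit 941) (nat_lit 128) .dd))) (.ch (nat_lit 4) (.nd
 (nat_lit 2144) (.br (nat_lit 4) (.ch (nat_lit 0) (.fin (nat_lit 576500884379746868))) (.ch (nat_lit 4) (.fin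
 (nat_lit 575616876622069822)))))))))))) (.ch (nat_lit 1) (.ev (nat_lit 544) (nat_lit 128) (.nd (nat_lit 1104)
 (.br (nat_lit 3) (.br (nat_lit 2) (.ch (nat_lit 0) (.ev (nat_lit 1120) (nat_lit 64) (.ev (nat_lit 1133)
 (nat_lit 4) .dd))) (.ch (nat_lit 2) (.ev (nat_lit 1120) (nat_lit 4) (.ev (nat_lit 1133) (nat_lit 64) .dd))))
 (.br (nat_lit 5) (.ch (nat_lit 3) (.ev (nat_lit 1120) (nat_lit 64) (.ev (nat_lit 1133) (nat_lit 4) .dd))) (.ch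
 (nat_lit 5) (.nd (nat_lit 2832) (.br (nat_lit 5) (.br (nat_lit 2) (.ch (nat_lit 0) (.ev (nat_lit 2868)
 (nat_lit 4) (.ev (nat_lit 2877) (nat_lit 64) .dd))) (.ch (nat_lit 2) (.ev (nat_lit 2848) (nat_lit 64) (.ev
 (nat_lit 2861) (nat_lit 4) .dd)))) (.br (nat_lit 6) (.ch (nat_lit 5) (.ev (nat_lit 2848) (nat_lit 68) .dd))
 (.ch (nat_lit 6) (.ev (nat_lit 4096) (nat_lit 4) (.ev (nat_lit 4109) (nat_lit 64) .dd))))))))))))) (.br
 (nat_lit 3) (.ch (nat_lit 2) (.nd (nat_lit 896) (.br (nat_lit 3) (.br (nat_lit 2) (.ch (nat_lit 0) (.ev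
 (nat_lit 932) (nat_lit 4) (.nd (nat_lit 2000) (.br (nat_lit 6) (.ch (nat_lit 1) (.fin (nat_lit
 576655915723735662))) (.ch (nat_lit 6) (.ev (nat_lit 2016) (nat_lit 64) (.ev (nat_lit 2029) (nat_lit 128)
 .dd))))))) (.ch (nat_lit 2) (.ev (nat_lit 1284) (nat_lit 64) (.nd (nat_lit 1520) (.br (nat_lit 5) (.ch
 (nat_lit 0) (.ev (nat_lit 1796) (nat_lit 128) (.ev (nat_lit 1805) (nat_lit 4) .dd))) (.br (nat_lit 6) (.ch
 (nat_lit 5) (.ev (nat_lit 1536) (nat_lit 4) (.ev (nat_lit 1549) (nat_lit 128) .dd))) (.ch (nat_lit 6) (.ev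
 (nat_lit 1828) (nat_lit 128) (.ev (nat_lit 1837) (nat_lit 4) .dd))))))))) (.br (nat_lit 6) (.ch (nat_lit 3)
 (.ev (nat_lit 912) (nat_lit 4) (.ev (nat_lit 1236) (nat_lit 128) (.ev (nat_lit 1245) (nat_lit 64) .dd)))) (.ch
 (nat_lit 6) (.nd (nat_lit 1744) (.br (nat_lit 1) (.ch (nat_lit 0) (.ev (nat_lit 4144) (nat_lit 128) (.fin
 (nat_lit 575524518442254566)))) (.br (nat_lit 2) (.ch (nat_lit 1) (.ev (nat_lit 1760) (nat_lit 4) (.ev
 (nat_lit 3540) (nat_lit 128) (.ev (nat_lit 3549) (nat_lit 64) .dd)))) (.ch (nat_lit 2) (.ev (nat_lit 3060)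
 (nat_lit 64) (.ev (nat_lit 3668) (nat_lit 4) (.ev (nat_lit 3677) (nat_lit 128) .dd)))))))))))) (.br (nat_lit
 6) (.ch (nat_lit 3) (.ev (nat_lit 544) (nat_lit 196) .dd)) (.ch (nat_lit 6) (.nd (nat_lit 992) (.br (nat_lit
 4) (.br (nat_lit 2) (.ch (nat_lit 0) (.ev (nat_lit 1008) (nat_lit 4) (.nd (nat_lit 3072) (.br (nat_lit 3) (.ch
 (nat_lit 0) (.ev (nat_lit 3088) (nat_lit 128) (.ev (nat_lit 3101) (nat_lit 64) .dd))) (.ch (nat_lit 3) (.fin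
 (nat_lit 576460202559619646))))))) (.ch (nat_lit 2) (.ev (nat_lit 1008) (nat_lit 64) (.nd (nat_lit 2304) (.br
 (nat_lit 2) (.ch (nat_lit 0) (.ev (nat_lit 2320) (nat_lit 128) (.ev (nat_lit 2333) (nat_lit 4) .dd))) (.br
 (nat_lit 3) (.ch (nat_lit 2) (.ev (nat_lit 2320) (nat_lit 4) (.ev (nat_lit 2333) (nat_lit 128) .dd))) (.ch
 (nat_lit 3) (.ev (nat_lit 2320) (nat_lit 4) (.ev (nat_lit 2333) (nat_lit 128) .dd))))))))) (.br (nat_lit 5)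
 (.ch (nat_lit 4) (.ev (nat_lit 1008) (nat_lit 64) (.nd (nat_lit 2304) (.br (nat_lit 6) (.ch (nat_lit 5) (.ev
 (nat_lit 2372) (nat_lit 4) (.ev (nat_lit 2381) (nat_lit 128) .dd))) (.ch (nat_lit 6) (.fin (nat_lit
 576489889441727057))))))) (.br (nat_lit 6) (.ch (nat_lit 5) (.ev (nat_lit 1008) (nat_lit 64) (.nd (nat_lit
 2000) (.br (nat_lit 4) (.br (nat_lit 3) (.ch (nat_lit 0) (.nd (nat_lit 5216) (.br (nat_lit 3) (.ch (nat_lit 2)
 (.fin (nat_lit 576483292294365779))) (.ch (nat_lit 3) (.ev (nat_lit 5232) (nat_lit 132) .dd))))) (.ch (nat_lit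
 3) (.ev (nat_lit 2016) (nat_lit 4) (.ev (nat_lit 2029) (nat_lit 128) .dd)))) (.br (nat_lit 5) (.ch (nat_lit 4)
 (.ev (nat_lit 2016) (nat_lit 4) (.ev (nat_lit 2029) (nat_lit 128) .dd))) (.ch (nat_lit 5) (.ev (nat_lit 2016)
 (nat_lit 128) (.ev (nat_lit 2029) (nat_lit 4) .dd)))))))) (.ch (nat_lit 6) (.ev (nat_lit 1008) (nat_lit 132)
 (.ev (nat_lit 1021) (nat_lit 64) .dd))))))))))))) (.ch (nat_lit 1) (.nd (nat_lit 528) (.br (nat_lit 3) (.br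
 (nat_lit 1) (.ch (nat_lit 0) (.nd (nat_lit 896) (.br (nat_lit 3) (.br (nat_lit 2) (.ch (nat_lit 1) (.ev
 (nat_lit 912) (nat_lit 128) (.nd (nat_lit 1744) (.br (nat_lit 4) (.br (nat_lit 1) (.ch (nat_lit 0) (.ev
 (nat_lit 4324) (nat_lit 4) (.ev (nat_lit 4333) (nat_lit 64) .dd))) (.ch (nat_lit 1) (.ev (nat_lit 1760)
 (nat_lit 64) (.ev (nat_lit 1773) (nat_lit 4) .dd)))) (.br (nat_lit 5) (.ch (nat_lit 4) (.ev (nat_lit 1760)
 (nat_lit 4) (.ev (nat_lit 1773) (nat_lit 64) .dd))) (.ch (nat_lit 5) (.ev (nat_lit 1828) (nat_lit 64) (.ev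
 (nat_lit 1837) (nat_lit 4) .dd)))))))) (.ch (nat_lit 2) (.nd (nat_lit 1744) (.br (nat_lit 2) (.br (nat_lit 1)
 (.ch (nat_lit 0) (.nd (nat_lit 3312) (.br (nat_lit 6) (.ch (nat_lit 4) (.ev (nat_lit 3328) (nat_lit 64) (.ev
 (nat_lit 3716) (nat_lit 128) (.ev (nat_lit 3725) (nat_lit 4) .dd)))) (.ch (nat_lit 6) (.ev (nat_lit 3328)
 (nat_lit 4) (.ev (nat_lit 3348) (nat_lit 128) (.ev (nat_lit 3357) (nat_lit 64) .dd))))))) (.ch (nat_lit 1)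
 (.ev (nat_lit 1760) (nat_lit 4) (.fin (nat_lit 576406326392341033))))) (.br (nat_lit 6) (.ch (nat_lit 2) (.ev
 (nat_lit 2068) (nat_lit 4) (.ev (nat_lit 3780) (nat_lit 64) (.ev (nat_lit 3789) (nat_lit 128) .dd)))) (.ch
 (nat_lit 6) (.ev (nat_lit 1760) (nat_lit 128) (.ev (nat_lit 2228) (nat_lit 64) (.ev (nat_lit 2237) (nat_lit 4)
 .dd))))))))) (.br (nat_lit 5) (.ch (nat_lit 3) (.nd (nat_lit 2000) (.br (nat_lit 2) (.br (nat_lit 1) (.ch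
 (nat_lit 0) (.ev (nat_lit 2948) (nat_lit 64) (.fin (nat_lit 576373341045604852)))) (.ch (nat_lit 1) (.ev
 (nat_lit 2016) (nat_lit 128) (.ev (nat_lit 2928) (nat_lit 4) (.ev (nat_lit 2941) (nat_lit 64) .dd))))) (.br
 (nat_lit 5) (.ch (nat_lit 2) (.ev (nat_lit 2016) (nat_lit 128) (.fin (nat_lit 576442610363089466)))) (.ch
 (nat_lit 5) (.ev (nat_lit 2016) (nat_lit 128) (.ev (nat_lit 3908) (nat_lit 4) (.ev (nat_lit 3917) (nat_lit 64)
 .dd)))))))) (.br (nat_lit 6) (.ch (nat_lit 5) (.ev (nat_lit 912) (nat_lit 68) (.ev (nat_lit 925) (nat_lit 128)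
 .dd))) (.ch (nat_lit 6) (.nd (nat_lit 1584) (.br (nat_lit 3) (.br (nat_lit 1) (.ch (nat_lit 0) (.ev (nat_lit
 1600) (nat_lit 192) (.ev (nat_lit 1613) (nat_lit 4) .dd))) (.ch (nat_lit 1) (.ev (nat_lit 1600) (nat_lit 128)
 (.ev (nat_lit 1684) (nat_lit 64) (.ev (nat_lit 1693) (nat_lit 4) .dd))))) (.br (nat_lit 4) (.ch (nat_lit 3)
 (.nd (nat_lit 3312) (.br (nat_lit 3) (.ch (nat_lit 0) (.ev (nat_lit 3328) (nat_lit 4) (.fin (nat_lit
 576433814209249806)))) (.br (nat_lit 5) (.ch (nat_lit 3) (.ev (nat_lit 3328) (nat_lit 64) (.fin (nat_lit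
 576481093214487175)))) (.ch (nat_lit 5) (.ev (nat_lit 3328) (nat_lit 64) (.ev (nat_lit 3924) (nat_lit 4) (.ev
 (nat_lit 3933) (nat_lit 128) .dd)))))))) (.br (nat_lit 5) (.ch (nat_lit 4) (.ev (nat_lit 1636) (nat_lit 4)
 (.nd (nat_lit 4032) (.br (nat_lit 4) (.ch (nat_lit 0) (.fin (nat_lit 576289778094784930))) (.br (nat_lit 5)
 (.ch (nat_lit 4) (.ev (nat_lit 4048) (nat_lit 64) (.ev (nat_lit 4061) (nat_lit 128) .dd))) (.ch (nat_lit 5)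
 (.ev (nat_lit 4068) (nat_lit 128) (.ev (nat_lit 4077) (nat_lit 64) .dd)))))))) (.ch (nat_lit 5) (.ev (nat_lit
 1600) (nat_lit 68) (.ev (nat_lit 1613) (nat_lit 128) .dd))))))))))))) (.ch (nat_lit 1) (.ev (nat_lit 544)
 (nat_lit 68) (.ev (nat_lit 557) (nat_lit 128) .dd)))) (.br (nat_lit 5) (.ch (nat_lit 3) (.nd (nat_lit 1104)
 (.br (nat_lit 4) (.br (nat_lit 3) (.ch (nat_lit 0) (.ev (nat_lit 1120) (nat_lit 132) (.ev (nat_lit 1133)
 (nat_lit 64) .dd))) (.ch (nat_lit 3) (.ev (nat_lit 1188) (nat_lit 64) (.nd (nat_lit 2304) (.br (nat_lit 6)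
 (.ch (nat_lit 0) (.ev (nat_lit 2320) (nat_lit 4) (.ev (nat_lit 2333) (nat_lit 128) .dd))) (.ch (nat_lit 6)
 (.ev (nat_lit 2372) (nat_lit 128) (.ev (nat_lit 2381) (nat_lit 4) .dd)))))))) (.br (nat_lit 6) (.ch (nat_lit
 4) (.ev (nat_lit 2484) (nat_lit 64) (.nd (nat_lit 3072) (.br (nat_lit 5) (.ch (nat_lit 1) (.fin (nat_lit
 576434913713537608))) (.ch (nat_lit 5) (.ev (nat_lit 3088) (nat_lit 4) (.ev (nat_lit 3101) (nat_lit 128)
 .dd))))))) (.ch (nat_lit 6) (.ev (nat_lit 1120) (nat_lit 128) (.ev (nat_lit 1972) (nat_lit 64) (.ev (nat_lit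
 1981) (nat_lit 4) .dd)))))))) (.br (nat_lit 6) (.ch (nat_lit 5) (.nd (nat_lit 992) (.br (nat_lit 3) (.br
 (nat_lit 2) (.ch (nat_lit 1) (.ev (nat_lit 1008) (nat_lit 128) (.ev (nat_lit 2372) (nat_lit 4) (.ev (nat_lit
 2381) (nat_lit 64) .dd)))) (.ch (nat_lit 2) (.nd (nat_lit 2144) (.br (nat_lit 4) (.br (nat_lit 3) (.ch
 (nat_lit 2) (.ev (nat_lit 2160) (nat_lit 64) (.nd (nat_lit 4784) (.ch (nat_lit 6) (.nd (nat_lit 5984) (.br
 (nat_lit 3) (.ch (nat_lit 2) (.ev (nat_lit 6000) (nat_lit 128) (.ev (nat_lit 6013) (nat_lit 4) .dd))) (.ch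
 (nat_lit 3) (.fin (nat_lit 576528372301513311))))))))) (.ch (nat_lit 3) (.ev (nat_lit 2160) (nat_lit 192) (.ev
 (nat_lit 2173) (nat_lit 4) .dd)))) (.br (nat_lit 6) (.ch (nat_lit 4) (.ev (nat_lit 2160) (nat_lit 4) (.nd
 (nat_lit 5088) (.br (nat_lit 4) (.ch (nat_lit 1) (.fin (nat_lit 576470098150638160))) (.ch (nat_lit 4) (.ev
 (nat_lit 5104) (nat_lit 128) (.ev (nat_lit 5117) (nat_lit 64) .dd))))))) (.ch (nat_lit 6) (.ev (nat_lit 2160)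
 (nat_lit 68) (.ev (nat_lit 2173) (nat_lit 128) .dd)))))))) (.br (nat_lit 4) (.ch (nat_lit 3) (.ev (nat_lit
 1008) (nat_lit 68) (.ev (nat_lit 1021) (nat_lit 128) .dd))) (.br (nat_lit 6) (.ch (nat_lit 4) (.ev (nat_lit
 1008) (nat_lit 192) (.ev (nat_lit 1021) (nat_lit 4) .dd))) (.ch (nat_lit 6) (.ev (nat_lit 1008) (nat_lit 128)
 (.nd (nat_lit 2304) (.br (nat_lit 2) (.ch (nat_lit 1) (.ev (nat_lit 2500) (nat_lit 4) (.ev (nat_lit 2509)
 (nat_lit 64) .dd))) (.br (nat_lit 4) (.ch (nat_lit 2) (.ev (nat_lit 2320) (nat_lit 4) (.ev (nat_lit 2333)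
 (nat_lit 64) .dd))) (.ch (nat_lit 4) (.ev (nat_lit 2320) (nat_lit 64) (.ev (nat_lit 2333) (nat_lit 4)
 .dd))))))))))))) (.ch (nat_lit 6) (.ev (nat_lit 544) (nat_lit 128) (.nd (nat_lit 1104) (.br (nat_lit 4) (.br
 (nat_lit 3) (.ch (nat_lit 1) (.ev (nat_lit 1120) (nat_lit 64) (.ev (nat_lit 1133) (nat_lit 4) .dd))) (.ch
 (nat_lit 3) (.nd (nat_lit 1584) (.br (nat_lit 3) (.ch (nat_lit 0) (.nd (nat_lit 4896) (.br (nat_lit 4) (.ch
 (nat_lit 3) (.nd (nat_lit 6048) (.br (nat_lit 4) (.ch (nat_lit 1) (.ev (nat_lit 6064) (nat_lit 4) (.ev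
 (nat_lit 6077) (nat_lit 64) .dd))) (.br (nat_lit 6) (.ch (nat_lit 4) (.ev (nat_lit 6064) (nat_lit 4) (.ev
 (nat_lit 6077) (nat_lit 64) .dd))) (.ch (nat_lit 6) (.fin (nat_lit 576460202572202537))))))) (.ch (nat_lit 4)
 (.ev (nat_lit 4912) (nat_lit 64) (.ev (nat_lit 4925) (nat_lit 4) .dd)))))) (.br (nat_lit 4) (.ch (nat_lit 3)
 (.ev (nat_lit 2068) (nat_lit 64) (.ev (nat_lit 2077) (nat_lit 4) .dd))) (.ch (nat_lit 4) (.ev (nat_lit 1600)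
 (nat_lit 4) (.ev (nat_lit 1613) (nat_lit 64) .dd)))))))) (.br (nat_lit 6) (.ch (nat_lit 4) (.ev (nat_lit 2564)
 (nat_lit 4) (.ev (nat_lit 2573) (nat_lit 64) .dd))) (.ch (nat_lit 6) (.ev (nat_lit 1120) (nat_lit 4) (.ev
 (nat_lit 1133) (nat_lit 64) .dd)))))))))))))) (.br (nat_lit 5) (.ch (nat_lit 4) (.ev (nat_lit 240) (nat_lit
 128) (.nd (nat_lit 576) (.br (nat_lit 3) (.br (nat_lit 2) (.ch (nat_lit 1) (.nd (nat_lit 1104) (.br (nat_lit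
 3) (.br (nat_lit 2) (.ch (nat_lit 0) (.nd (nat_lit 2592) (.br (nat_lit 4) (.ch (nat_lit 0) (.fin (nat_lit
 576450306956018241))) (.br (nat_lit 5) (.ch (nat_lit 4) (.ev (nat_lit 2628) (nat_lit 64) (.ev (nat_lit 2637)
 (nat_lit 4) .dd))) (.ch (nat_lit 5) (.ev (nat_lit 2628) (nat_lit 64) (.ev (nat_lit 2637) (nat_lit 4)
 .dd))))))) (.ch (nat_lit 2) (.ev (nat_lit 1120) (nat_lit 64) (.ev (nat_lit 1133) (nat_lit 4) .dd)))) (.br
 (nat_lit 5) (.ch (nat_lit 3) (.ev (nat_lit 1120) (nat_lit 64) (.ev (nat_lit 1133) (nat_lit 4) .dd))) (.ch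
 (nat_lit 5) (.nd (nat_lit 2304) (.br (nat_lit 3) (.br (nat_lit 2) (.ch (nat_lit 0) (.ev (nat_lit 2660)
 (nat_lit 64) (.ev (nat_lit 2669) (nat_lit 4) .dd))) (.ch (nat_lit 2) (.ev (nat_lit 2320) (nat_lit 4) (.ev
 (nat_lit 2333) (nat_lit 64) .dd)))) (.br (nat_lit 6) (.ch (nat_lit 3) (.ev (nat_lit 2660) (nat_lit 64) (.ev
 (nat_lit 2669) (nat_lit 4) .dd))) (.ch (nat_lit 6) (.ev (nat_lit 4292) (nat_lit 64) (.ev (nat_lit 4301)
 (nat_lit 4) .dd))))))))))) (.ch (nat_lit 2) (.ev (nat_lit 592) (nat_lit 4) (.ev (nat_lit 605) (nat_lit 64)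
 .dd)))) (.br (nat_lit 4) (.ch (nat_lit 3) (.ev (nat_lit 592) (nat_lit 64) (.ev (nat_lit 605) (nat_lit 4)
 .dd))) (.ch (nat_lit 4) (.nd (nat_lit 1312) (.br (nat_lit 4) (.br (nat_lit 2) (.ch (nat_lit 0) (.ev (nat_lit
 1328) (nat_lit 4) (.ev (nat_lit 1341) (nat_lit 64) .dd))) (.ch (nat_lit 2) (.nd (nat_lit 3072) (.br (nat_lit
 3) (.ch (nat_lit 0) (.ev (nat_lit 3108) (nat_lit 64) (.ev (nat_lit 3117) (nat_lit 4) .dd))) (.br (nat_lit 4)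
 (.ch (nat_lit 3) (.ev (nat_lit 3860) (nat_lit 64) (.ev (nat_lit 3869) (nat_lit 4) .dd))) (.ch (nat_lit 4) (.ev
 (nat_lit 3088) (nat_lit 4) (.ev (nat_lit 3101) (nat_lit 64) .dd)))))))) (.br (nat_lit 6) (.ch (nat_lit 4) (.nd
 (nat_lit 2592) (.br (nat_lit 2) (.ch (nat_lit 1) (.ev (nat_lit 2628) (nat_lit 4) (.ev (nat_lit 2637) (nat_lit
 64) .dd))) (.br (nat_lit 5) (.ch (nat_lit 2) (.ev (nat_lit 3444) (nat_lit 64) (.ev (nat_lit 3453) (nat_lit 4)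
 .dd))) (.ch (nat_lit 5) (.nd (nat_lit 4976) (.br (nat_lit 6) (.ch (nat_lit 0) (.ev (nat_lit 4992) (nat_lit 64)
 (.ev (nat_lit 5005) (nat_lit 4) .dd))) (.ch (nat_lit 6) (.fin (nat_lit 576434913770160691)))))))))) (.ch
 (nat_lit 6) (.ev (nat_lit 1328) (nat_lit 4) (.ev (nat_lit 1341) (nat_lit 64) .dd)))))))))))) (.br (nat_lit 6)
 (.ch (nat_lit 5) (.ev (nat_lit 240) (nat_lit 68) (.ev (nat_lit 253) (nat_lit 128) .dd))) (.ch (nat_lit 6) (.ev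
 (nat_lit 240) (nat_lit 128) (.nd (nat_lit 624) (.br (nat_lit 3) (.br (nat_lit 2) (.ch (nat_lit 0) (.nd
 (nat_lit 1312) (.br (nat_lit 3) (.br (nat_lit 2) (.ch (nat_lit 0) (.nd (nat_lit 3072) (.br (nat_lit 3) (.ch
 (nat_lit 0) (.ev (nat_lit 3088) (nat_lit 68) .dd)) (.br (nat_lit 4) (.ch (nat_lit 3) (.fin (nat_lit
 576482192816292468))) (.ch (nat_lit 4) (.ev (nat_lit 3088) (nat_lit 64) (.ev (nat_lit 3101) (nat_lit 4)
 .dd))))))) (.ch (nat_lit 2) (.ev (nat_lit 1328) (nat_lit 4) (.ev (nat_lit 1341) (nat_lit 64) .dd)))) (.br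
 (nat_lit 4) (.ch (nat_lit 3) (.ev (nat_lit 1328) (nat_lit 4) (.ev (nat_lit 1341) (nat_lit 64) .dd))) (.br
 (nat_lit 6) (.ch (nat_lit 4) (.ev (nat_lit 1328) (nat_lit 4) (.ev (nat_lit 1341) (nat_lit 64) .dd))) (.ch
 (nat_lit 6) (.ev (nat_lit 1328) (nat_lit 64) (.ev (nat_lit 1341) (nat_lit 4) .dd)))))))) (.ch (nat_lit 2) (.ev
 (nat_lit 640) (nat_lit 4) (.ev (nat_lit 653) (nat_lit 64) .dd)))) (.br (nat_lit 4) (.ch (nat_lit 3) (.ev
 (nat_lit 640) (nat_lit 68) .dd)) (.br (nat_lit 5) (.ch (nat_lit 4) (.ev (nat_lit 660) (nat_lit 4) (.ev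
 (nat_lit 669) (nat_lit 64) .dd))) (.ch (nat_lit 5) (.nd (nat_lit 1312) (.br (nat_lit 5) (.br (nat_lit 1) (.ch
 (nat_lit 0) (.ev (nat_lit 2724) (nat_lit 4) (.ev (nat_lit 2733) (nat_lit 64) .dd))) (.ch (nat_lit 1) (.ev
 (nat_lit 1348) (nat_lit 4) (.ev (nat_lit 1357) (nat_lit 64) .dd)))) (.br (nat_lit 6) (.ch (nat_lit 5) (.ev
 (nat_lit 1348) (nat_lit 4) (.ev (nat_lit 1357) (nat_lit 64) .dd))) (.ch (nat_lit 6) (.ev (nat_lit 1328)
 (nat_lit 64) (.ev (nat_lit 1341) (nat_lit 4) .dd))))))))))))))))))) (.ch (nat_lit 6) (.ev (nat_lit 48)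
 (nat_lit 708) .dd)))))))

/-- The trie. -/
noncomputable def T : Tr := .nd (nat_lit 1000000) (.br (nat_lit 1) (.ch (nat_lit 0) (.ev (nat_lit 0) (nat_lit 2047) .dd)) (.br (nat_lit 3) (.ch (nat_lit 1) T1) (.ch (nat_lit 3) T3)))

/-- The possible values. -/
noncomputable def oks : List ℕ := [4, 9, 15, 58, 67, 207, 466, 564, 610, 687, 735, 1164, 1684, 1983, 2066, 6693, 10690, 11103, 12972, 14116, 20036, 23090, 31714, 101234, 101935, 115690, 1978810]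

/-- The parameters. -/
noncomputable def S : Pr := ⟨fun i l e => lget mz (lget [] (lget [] tabs i) l) e, oks, [(nat_lit 0), (nat_lit
 0), (nat_lit 0), (nat_lit 0), (nat_lit 0), (nat_lit 0), (nat_lit 0), (nat_lit 0), (nat_lit 0)], T, (nat_lit
 2047), (nat_lit 1057), (nat_lit 11), [(nat_lit 1)], [(nat_lit 40353607)]⟩

/-- Nothing known. -/
noncomputable def cs0 : Cs := (.cons (nat_lit 7) (nat_lit 0) (nat_lit 1) .nil)

theorem part_1 : part S cs0 (nat_lit 1) = true := by decide +kernel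

theorem part_3 : part S cs0 (nat_lit 3) = true := by decide +kernel

/-- Data of a prime. -/
noncomputable def D0 : PD := ⟨(nat_lit 7), (nat_lit 9), (1562932, 1, 2), (36264346, 14618947, 12267798), (17529001, 32002150, 38949929)⟩

theorem D0_ok : D0.Ok := pdb_sound (s := 1) (C := ⟨⟨7, -2, -11, 7, 2, 4, 0, 3, -1⟩, (5, 2, 3)⟩) (by show Nat.Prime 7; norm_num) (by decide +kernel)

/-- Lines of the first type. -/
noncomputable def Cl0 : List C1 := [⟨⟨7, 2, -11, 7, -2, 4, 0, -3, -1⟩, (6, 1, 5)⟩,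
  ⟨⟨0, 0, 0, 0, 0, 0, 0, 0, 0⟩, (0, 0, 0)⟩,
  ⟨⟨0, 0, 0, 0, 0, 0, 0, 0, 0⟩, (0, 0, 0)⟩,
  ⟨⟨0, 0, 0, 0, 0, 0, 0, 0, 0⟩, (0, 0, 0)⟩,
  ⟨⟨0, 0, 0, 0, 0, 0, 0, 0, 0⟩, (0, 0, 0)⟩,
  ⟨⟨0, 0, 0, 0, 0, 0, 0, 0, 0⟩, (0, 0, 0)⟩,
  ⟨⟨0, 0, 0, 0, 0, 0, 0, 0, 0⟩, (0, 0, 0)⟩]

/-- Data of a prime. -/
noncomputable def Dm : PD := ⟨(nat_lit 11), (nat_lit 2), (12, 3, 3), (46, 69, 43), (105, 106, 86)⟩

theorem Dm_ok : Dm.Ok := pdb_sound (s := 1) (C := ⟨⟨9, -6, -17, -1, -14, 8, -4, -1, -1⟩, (9, 10, 7)⟩) (by show Nat.Prime 11; norm_num) (by decide +kernel)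

/-- Lines of the first type. -/
noncomputable def Clm : List C1 := [⟨⟨-9, 6, -8, 1, 14, 7, 4, 1, -5⟩, (4, 2, 8)⟩,
  ⟨⟨0, 0, 0, 0, 0, 0, 0, 0, 0⟩, (0, 0, 0)⟩,
  ⟨⟨0, 0, 0, 0, 0, 0, 0, 0, 0⟩, (0, 0, 0)⟩,
  ⟨⟨0, 0, 0, 0, 0, 0, 0, 0, 0⟩, (0, 0, 0)⟩,
  ⟨⟨0, 0, 0, 0, 0, 0, 0, 0, 0⟩, (0, 0, 0)⟩,
  ⟨⟨9, 6, -17, -1, 14, 8, -4, 1, -1⟩, (8, 4, 5)⟩,
  ⟨⟨0, 0, 0, 0, 0, 0, 0, 0, 0⟩, (0, 0, 0)⟩,
  ⟨⟨0, 0, 0, 0, 0, 0, 0, 0, 0⟩, (0, 0, 0)⟩,
  ⟨⟨0, 0, 0, 0, 0, 0, 0, 0, 0⟩, (0, 0, 0)⟩,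
  ⟨⟨0, 0, 0, 0, 0, 0, 0, 0, 0⟩, (0, 0, 0)⟩,
  ⟨⟨-9, -6, -8, 1, -14, 7, 4, -1, -5⟩, (7, 9, 3)⟩]

/-- Unit moves. -/
noncomputable def U : List Mv := [mz,
  mz,
  ⟨⟨1, 0, 0, 0, -1, 0, 0, 0, 1⟩, .nil, (nat_lit 0), (nat_lit 2), (nat_lit 1), (nat_lit 0), (0, 0, 0), [], 2⟩,
  mz,
  ⟨⟨-1, 0, 1, 0, 1, 0, 0, 0, 1⟩, .nil, (nat_lit 6), (nat_lit 0), (nat_lit 0), (nat_lit 1), (0, 0, 0), [], 1⟩,
  ⟨⟨-1, 0, 1, 0, -1, 0, 0, 0, 1⟩, .nil, (nat_lit 0), (nat_lit 5), (nat_lit 1), (nat_lit 0), (0, 0, 0), [], 2⟩,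
  ⟨⟨-1, 0, 1, 0, 1, 0, 0, 0, 1⟩, .nil, (nat_lit 6), (nat_lit 0), (nat_lit 0), (nat_lit 1), (0, 0, 0), [], 1⟩]

theorem v_ty : tyb Dm S.ty1 Clm = true := by decide +kernel

theorem v_ty0 : tyb D0 (S.tys.getD 0 0) Cl0 = true := by decide +kernel

theorem v_msc : mscb S D0 [] Dm (nat_lit 10) = true := by decide +kernel

theorem v_mv0 : mvsn (nat_lit 4882786447) S D0 [] Dm (nat_lit 10) 0 D0 = true := by decide +kernel

theorem v_mm : mmsn (nat_lit 4882786447) S D0 [] Dm (nat_lit 10) = true := by decide +kernel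

theorem v_un : unb S D0 (nat_lit 10) U = true := by decide +kernel

theorem v_ok : okb S.oks [(0, 0, 0), (0, 3, 0), (1, 2, 1), (0, 0, 0), (0, 0, 0), (1, 14, 1), (0, 0, 0), (0, 0,
 0), (0, 0, 0), (1, 26, 1), (7, 26, 1), (0, 0, 0), (0, 0, 0), (23, 38, 1), (0, 0, 0), (53, 62, 2), (0, 0, 0),
 (22, 103, 1), (0, 0, 0), (0, 0, 0), (0, 0, 0), (0, 0, 0), (0, 0, 0), (0, 0, 0), (57, 314, 3), (0, 0, 0), (0,
 0, 0)] = true := by decide +kernel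

theorem v_part : ∀ d < D0.p, (nat_lit 10).testBit d = true → part S (zc (D0 :: [])) d = true := by
  intro d hd h
  have h1 : ∀ d < 7, (nat_lit 10).testBit d = true → d = 1 ∨ d = 3 := by decide
  rcases h1 d hd h with rfl | rfl
  · exact part_1
  · exact part_3

theorem main (n : ℕ) (ho : Odd n) (hr : ¬ Rep n) (h0 : Split 7 n) (hm : Split 11 n) :
    n ∈ EE := by
  refine concln (W := nat_lit 4882786447) (S := S) (P0 := D0) (Pl := []) (Pm := Dm) (cn := nat_lit 10) ?_ Dm_ok v_ty ?_ ?_ v_msc ?_ v_mm v_un v_part v_ok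
    n ho hr ?_ hm
  · simp only [List.forall_mem_cons]
    exact ⟨D0_ok, fun _ h => absurd h (by simp)⟩
  · exact all1 (φ := fun j P => ∃ L, tyb P (S.tys.getD j 0) L = true) ⟨_, v_ty0⟩
  · exact all1 (φ := fun j P => Nat.ble (S.pks.getD j 0) (Nat.pow P.p P.K) = true) (by decide +kernel)
  · exact all1 (φ := fun i P => mvsn (nat_lit 4882786447) S D0 [] Dm (nat_lit 10) i P = true) v_mv0
  · simp only [List.forall_mem_cons]
    exact ⟨h0, fun _ h => absurd h (by simp)⟩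

end Pool.Agent.Work.MP_9954fe_nt.P7_11

namespace Pool.Agent.Work.MP_9954fe_nt.P7_31_43

/-- Dummy move. -/
noncomputable def mz : Mv := ⟨⟨0, 0, 0, 0, 0, 0, 0, 0, 0⟩, .nil, (nat_lit 0), (nat_lit 0), (nat_lit 0), (nat_lit 0), (0, 0, 0), [], 0⟩

/-- Moves. -/
noncomputable def t0_1 : List Mv := [
  ⟨⟨-3, 4, -5, 2, -5, -6, 4, 4, -5⟩, (.cons (nat_lit 11870394) (nat_lit 28783777) (nat_lit 28481682) (nat_lit
 1) (.cons (nat_lit 900535) (nat_lit 755607) (nat_lit 497018) (nat_lit 1) .nil)), (nat_lit 12), (nat_lit 28),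
 (nat_lit 3), (nat_lit 1), (3, 5, 3), [10048865, 647271], 31⟩,
  ⟨⟨-3, 4, -5, -2, 5, 6, 4, 4, -5⟩, (.cons (nat_lit 37305656) (nat_lit 7036773) (nat_lit 31813562) (nat_lit 1)
 (.cons (nat_lit 659332) (nat_lit 610398) (nat_lit 613024) (nat_lit 1) .nil)), (nat_lit 1), (nat_lit 29),
 (nat_lit 25), (nat_lit 1), (3, 2, 3), [5604076, 369248], 6⟩,
  ⟨⟨7, 0, 0, 2, -5, -6, 4, 4, -5⟩, (.cons (nat_lit 23697019) (nat_lit 11044809) (nat_lit 25792226) (nat_lit 1)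
 (.cons (nat_lit 853959) (nat_lit 549225) (nat_lit 581470) (nat_lit 1) .nil)), (nat_lit 31), (nat_lit 15),
 (nat_lit 3), (nat_lit 1), (0, 5, 3), [9064028, 820130], 31⟩,
  ⟨⟨-3, 4, -5, 2, -5, -6, 4, 4, -5⟩, (.cons (nat_lit 11870394) (nat_lit 28783777) (nat_lit 28481682) (nat_lit
 1) (.cons (nat_lit 900535) (nat_lit 755607) (nat_lit 497018) (nat_lit 1) .nil)), (nat_lit 12), (nat_lit 28),
 (nat_lit 3), (nat_lit 1), (3, 5, 3), [10048865, 647271], 31⟩,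
  ⟨⟨-3, 4, -5, 2, -5, -6, 4, 4, -5⟩, (.cons (nat_lit 11870394) (nat_lit 28783777) (nat_lit 28481682) (nat_lit
 1) (.cons (nat_lit 900535) (nat_lit 755607) (nat_lit 497018) (nat_lit 1) .nil)), (nat_lit 12), (nat_lit 28),
 (nat_lit 3), (nat_lit 1), (3, 5, 3), [10048865, 647271], 31⟩,
  ⟨⟨-3, 4, -5, 2, -5, -6, 4, 4, -5⟩, (.cons (nat_lit 11870394) (nat_lit 28783777) (nat_lit 28481682) (nat_lit
 1) (.cons (nat_lit 900535) (nat_lit 755607) (nat_lit 497018) (nat_lit 1) .nil)), (nat_lit 12), (nat_lit 28),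
 (nat_lit 3), (nat_lit 1), (3, 5, 3), [10048865, 647271], 31⟩,
  ⟨⟨7, 0, 0, 2, -5, -6, 4, 4, -5⟩, (.cons (nat_lit 23697019) (nat_lit 11044809) (nat_lit 25792226) (nat_lit 1)
 (.cons (nat_lit 853959) (nat_lit 549225) (nat_lit 581470) (nat_lit 1) .nil)), (nat_lit 31), (nat_lit 15),
 (nat_lit 3), (nat_lit 1), (0, 5, 3), [9064028, 820130], 31⟩]

/-- Moves. -/
noncomputable def t0_3 : List Mv := [
  ⟨⟨1, 0, -9, 0, -7, 0, 6, 0, -5⟩, (.cons (nat_lit 25004503) (nat_lit 30625764) (nat_lit 38675796) (nat_lit 1)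
 (.cons (nat_lit 806494) (nat_lit 451188) (nat_lit 207356) (nat_lit 1) .nil)), (nat_lit 1), (nat_lit 16),
 (nat_lit 14), (nat_lit 1), (2, 0, 5), [37099950, 144955], 13⟩,
  ⟨⟨1, 0, -9, 0, -7, 0, 6, 0, -5⟩, (.cons (nat_lit 25004503) (nat_lit 30625764) (nat_lit 38675796) (nat_lit 1)
 (.cons (nat_lit 806494) (nat_lit 451188) (nat_lit 207356) (nat_lit 1) .nil)), (nat_lit 1), (nat_lit 16),
 (nat_lit 14), (nat_lit 1), (2, 0, 5), [37099950, 144955], 13⟩,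
  ⟨⟨5, 0, 4, 0, 7, 0, 6, 0, -5⟩, (.cons (nat_lit 23707674) (nat_lit 19696108) (nat_lit 34804965) (nat_lit 1)
 (.cons (nat_lit 923520) (nat_lit 886156) (nat_lit 821770) (nat_lit 1) .nil)), (nat_lit 42), (nat_lit 3),
 (nat_lit 35), (nat_lit 1), (3, 0, 5), [11878172, 378155], 11⟩,
  ⟨⟨5, 0, 4, 0, -7, 0, 6, 0, -5⟩, (.cons (nat_lit 26597705) (nat_lit 27856828) (nat_lit 8865904) (nat_lit 1)
 (.cons (nat_lit 923520) (nat_lit 393727) (nat_lit 465165) (nat_lit 1) .nil)), (nat_lit 42), (nat_lit 27),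
 (nat_lit 14), (nat_lit 1), (3, 0, 5), [2605651, 330113], 13⟩,
  ⟨⟨1, 0, -9, 0, -7, 0, 6, 0, -5⟩, (.cons (nat_lit 25004503) (nat_lit 30625764) (nat_lit 38675796) (nat_lit 1)
 (.cons (nat_lit 806494) (nat_lit 451188) (nat_lit 207356) (nat_lit 1) .nil)), (nat_lit 1), (nat_lit 16),
 (nat_lit 14), (nat_lit 1), (2, 0, 5), [37099950, 144955], 13⟩,
  ⟨⟨1, 0, -9, 0, 7, 0, 6, 0, -5⟩, (.cons (nat_lit 17043897) (nat_lit 16716079) (nat_lit 24805227) (nat_lit 1)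
 (.cons (nat_lit 311404) (nat_lit 880745) (nat_lit 534231) (nat_lit 1) .nil)), (nat_lit 1), (nat_lit 40),
 (nat_lit 35), (nat_lit 1), (2, 0, 5), [27270990, 346605], 11⟩,
  ⟨⟨1, 0, -9, 0, -7, 0, 6, 0, -5⟩, (.cons (nat_lit 25004503) (nat_lit 30625764) (nat_lit 38675796) (nat_lit 1)
 (.cons (nat_lit 806494) (nat_lit 451188) (nat_lit 207356) (nat_lit 1) .nil)), (nat_lit 1), (nat_lit 16),
 (nat_lit 14), (nat_lit 1), (2, 0, 5), [37099950, 144955], 13⟩]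

/-- Moves. -/
noncomputable def t1_1 : List Mv := [
  mz,
  ⟨⟨3, 20, 29, -4, 25, -18, 26, 8, -7⟩, (.cons (nat_lit 32164367) (nat_lit 32102896) (nat_lit 2529029) (nat_lit
 1) (.cons (nat_lit 874268) (nat_lit 408568) (nat_lit 660332) (nat_lit 1) .nil)), (nat_lit 5), (nat_lit 14),
 (nat_lit 36), (nat_lit 1), (26, 17, 29), [25479085, 537057], 32⟩,
  ⟨⟨23, 12, -36, -4, -25, -18, 26, -8, -7⟩, (.cons (nat_lit 36484861) (nat_lit 24878627) (nat_lit 39166361)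
 (nat_lit 1) (.cons (nat_lit 98452) (nat_lit 25101) (nat_lit 204002) (nat_lit 1) .nil)), (nat_lit 34), (nat_lit
 13), (nat_lit 16), (nat_lit 1), (1, 16, 20), [576178, 555326], 19⟩,
  mz,
  ⟨⟨27, 16, -28, -4, -15, -28, -6, 24, -11⟩, (.cons (nat_lit 20261629) (nat_lit 31133041) (nat_lit 8771062)
 (nat_lit 1) (.cons (nat_lit 287127) (nat_lit 339787) (nat_lit 502393) (nat_lit 1) .nil)), (nat_lit 8),
 (nat_lit 6), (nat_lit 27), (nat_lit 1), (15, 15, 7), [38016924, 69039], 42⟩,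
  mz,
  ⟨⟨1, -12, 35, -16, -25, -2, 22, -16, -5⟩, (.cons (nat_lit 9271775) (nat_lit 10667315) (nat_lit 1) (nat_lit
 28054047) (.cons (nat_lit 376541) (nat_lit 474676) (nat_lit 547793) (nat_lit 1) .nil)), (nat_lit 24), (nat_lit
 11), (nat_lit 3), (nat_lit 1), (1, 15, 22), [40101793, 912191], 22⟩,
  mz,
  ⟨⟨-31, 0, 0, -10, -19, 30, -4, -20, -19⟩, (.cons (nat_lit 12164646) (nat_lit 5259980) (nat_lit 2726627)
 (nat_lit 1) (.cons (nat_lit 405997) (nat_lit 648594) (nat_lit 94709) (nat_lit 1) .nil)), (nat_lit 18),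
 (nat_lit 30), (nat_lit 6), (nat_lit 1), (0, 26, 29), [14611719, 207355], 34⟩,
  mz,
  mz,
  mz,
  mz,
  ⟨⟨-31, 0, 0, 10, -19, -30, -4, 20, -19⟩, (.cons (nat_lit 32776578) (nat_lit 23167512) (nat_lit 16736214)
 (nat_lit 1) (.cons (nat_lit 246939) (nat_lit 726531) (nat_lit 744623) (nat_lit 1) .nil)), (nat_lit 12),
 (nat_lit 27), (nat_lit 14), (nat_lit 1), (0, 3, 5), [17799591, 232242], 37⟩,
  ⟨⟨-33, -8, 17, -4, 15, -28, -6, -24, -11⟩, (.cons (nat_lit 14116796) (nat_lit 19533125) (nat_lit 38364224)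
 (nat_lit 1) (.cons (nat_lit 82435) (nat_lit 41748) (nat_lit 172095) (nat_lit 1) .nil)), (nat_lit 1), (nat_lit
 22), (nat_lit 7), (nat_lit 1), (14, 28, 11), [5269835, 453755], 30⟩,
  ⟨⟨3, 20, -32, 4, -25, -22, 26, 8, -19⟩, (.cons (nat_lit 14217572) (nat_lit 13654861) (nat_lit 22070972)
 (nat_lit 1) (.cons (nat_lit 895430) (nat_lit 254775) (nat_lit 314062) (nat_lit 1) .nil)), (nat_lit 17),
 (nat_lit 7), (nat_lit 4), (nat_lit 1), (10, 3, 4), [11537028, 391180], 40⟩,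
  mz,
  mz,
  ⟨⟨21, -4, 19, 16, 25, -18, 22, -16, -17⟩, (.cons (nat_lit 37556785) (nat_lit 14293012) (nat_lit 34870043)
 (nat_lit 1) (.cons (nat_lit 693619) (nat_lit 817906) (nat_lit 656852) (nat_lit 1) .nil)), (nat_lit 9),
 (nat_lit 6), (nat_lit 37), (nat_lit 1), (7, 26, 28), [7407119, 779921], 24⟩,
  ⟨⟨-9, 8, -31, -10, -29, 0, 20, -4, -31⟩, (.cons (nat_lit 19128614) (nat_lit 5587998) (nat_lit 36008619)
 (nat_lit 1) (.cons (nat_lit 528090) (nat_lit 14735) (nat_lit 903999) (nat_lit 1) .nil)), (nat_lit 1), (nat_lit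
 20), (nat_lit 38), (nat_lit 1), (2, 16, 30), [39465156, 877313], 8⟩,
  ⟨⟨-29, -12, 29, 10, -29, -10, -20, -4, -11⟩, (.cons (nat_lit 22264677) (nat_lit 1913587) (nat_lit 11974169)
 (nat_lit 1) (.cons (nat_lit 439750) (nat_lit 186813) (nat_lit 889908) (nat_lit 1) .nil)), (nat_lit 1),
 (nat_lit 23), (nat_lit 5), (nat_lit 1), (6, 30, 2), [7258331, 157681], 8⟩,
  ⟨⟨-27, 16, -1, 4, -15, -32, 6, 24, -17⟩, (.cons (nat_lit 9159805) (nat_lit 16918148) (nat_lit 34594148)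
 (nat_lit 1) (.cons (nat_lit 254432) (nat_lit 459002) (nat_lit 345733) (nat_lit 1) .nil)), (nat_lit 35),
 (nat_lit 6), (nat_lit 16), (nat_lit 1), (2, 2, 3), [13204395, 500041], 42⟩,
  ⟨⟨-29, 12, 29, 10, 29, -10, -20, 4, -11⟩, (.cons (nat_lit 8237471) (nat_lit 12306891) (nat_lit 12265037)
 (nat_lit 1) (.cons (nat_lit 913652) (nat_lit 728419) (nat_lit 27113) (nat_lit 1) .nil)), (nat_lit 18),
 (nat_lit 26), (nat_lit 12), (nat_lit 1), (4, 20, 22), [22965998, 785890], 2⟩,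
  ⟨⟨23, 12, 13, 4, 25, -22, 26, -8, -19⟩, (.cons (nat_lit 14378396) (nat_lit 3358856) (nat_lit 1) (nat_lit
 7847840) (.cons (nat_lit 535619) (nat_lit 553425) (nat_lit 395176) (nat_lit 1) .nil)), (nat_lit 24), (nat_lit
 28), (nat_lit 15), (nat_lit 1), (23, 4, 26), [32001240, 734171], 21⟩,
  ⟨⟨-9, -8, -31, -10, 29, 0, 20, 4, -31⟩, (.cons (nat_lit 13481465) (nat_lit 161208) (nat_lit 40278818)
 (nat_lit 1) (.cons (nat_lit 95614) (nat_lit 833963) (nat_lit 512229) (nat_lit 1) .nil)), (nat_lit 18),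
 (nat_lit 17), (nat_lit 31), (nat_lit 1), (24, 6, 19), [13419783, 241763], 2⟩,
  ⟨⟨31, 0, -31, -10, 19, -20, 4, -20, -23⟩, (.cons (nat_lit 30921157) (nat_lit 9947874) (nat_lit 31851388)
 (nat_lit 1) (.cons (nat_lit 406746) (nat_lit 119749) (nat_lit 770485) (nat_lit 1) .nil)), (nat_lit 1),
 (nat_lit 7), (nat_lit 8), (nat_lit 1), (0, 22, 16), [9131316, 36014], 28⟩,
  ⟨⟨21, 4, -40, -16, 25, -2, 22, 16, -5⟩, (.cons (nat_lit 31425334) (nat_lit 26997003) (nat_lit 1555995)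
 (nat_lit 1) (.cons (nat_lit 326565) (nat_lit 62027) (nat_lit 790013) (nat_lit 1) .nil)), (nat_lit 38),
 (nat_lit 35), (nat_lit 20), (nat_lit 1), (10, 16, 9), [39973600, 214474], 32⟩,
  ⟨⟨-27, -16, -1, 4, 15, -32, 6, -24, -17⟩, (.cons (nat_lit 4768149) (nat_lit 885301) (nat_lit 34639826)
 (nat_lit 1) (.cons (nat_lit 286393) (nat_lit 216402) (nat_lit 490286) (nat_lit 1) .nil)), (nat_lit 1),
 (nat_lit 21), (nat_lit 36), (nat_lit 1), (15, 15, 7), [35263869, 125506], 30⟩,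
  ⟨⟨1, 12, -36, -16, 25, 18, 22, 16, -17⟩, (.cons (nat_lit 29035491) (nat_lit 29503774) (nat_lit 1) (nat_lit
 24118976) (.cons (nat_lit 787215) (nat_lit 635244) (nat_lit 225138) (nat_lit 1) .nil)), (nat_lit 19), (nat_lit
 11), (nat_lit 40), (nat_lit 1), (19, 6, 15), [2994883, 609124], 21⟩,
  ⟨⟨31, 0, -31, -10, -19, -20, 4, 20, -23⟩, (.cons (nat_lit 12294980) (nat_lit 23752341) (nat_lit 18281174)
 (nat_lit 1) (.cons (nat_lit 631852) (nat_lit 333647) (nat_lit 847766) (nat_lit 1) .nil)), (nat_lit 31),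
 (nat_lit 27), (nat_lit 29), (nat_lit 1), (0, 20, 23), [38772893, 214088], 37⟩]

/-- Moves. -/
noncomputable def t1_3 : List Mv := [
  mz,
  ⟨⟨3, 20, 29, -4, 25, -18, 26, 8, -7⟩, (.cons (nat_lit 32164367) (nat_lit 32102896) (nat_lit 2529029) (nat_lit
 1) (.cons (nat_lit 874268) (nat_lit 408568) (nat_lit 660332) (nat_lit 1) .nil)), (nat_lit 5), (nat_lit 14),
 (nat_lit 36), (nat_lit 1), (26, 17, 29), [25479085, 537057], 32⟩,
  ⟨⟨3, -20, 29, -4, -25, -18, 26, -8, -7⟩, (.cons (nat_lit 11553871) (nat_lit 20145716) (nat_lit 34800251)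
 (nat_lit 1) (.cons (nat_lit 270570) (nat_lit 619249) (nat_lit 839408) (nat_lit 1) .nil)), (nat_lit 9),
 (nat_lit 30), (nat_lit 16), (nat_lit 1), (19, 16, 20), [13168156, 577307], 19⟩,
  mz,
  ⟨⟨-33, 8, 17, 4, 15, 28, -6, 24, -11⟩, (.cons (nat_lit 15479605) (nat_lit 2038868) (nat_lit 14434936)
 (nat_lit 1) (.cons (nat_lit 784049) (nat_lit 406848) (nat_lit 368240) (nat_lit 1) .nil)), (nat_lit 1),
 (nat_lit 8), (nat_lit 30), (nat_lit 1), (23, 16, 7), [10489497, 347233], 30⟩,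
  mz,
  ⟨⟨1, -12, 35, -16, -25, -2, 22, -16, -5⟩, (.cons (nat_lit 9271775) (nat_lit 10667315) (nat_lit 1) (nat_lit
 28054047) (.cons (nat_lit 376541) (nat_lit 474676) (nat_lit 547793) (nat_lit 1) .nil)), (nat_lit 24), (nat_lit
 11), (nat_lit 3), (nat_lit 1), (1, 15, 22), [40101793, 912191], 22⟩,
  mz,
  ⟨⟨27, -20, -19, -10, -19, 30, -4, -20, -19⟩, (.cons (nat_lit 15846134) (nat_lit 35561325) (nat_lit 21446300)
 (nat_lit 1) (.cons (nat_lit 4112) (nat_lit 599309) (nat_lit 228553) (nat_lit 1) .nil)), (nat_lit 25), (nat_lit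
 13), (nat_lit 6), (nat_lit 1), (29, 26, 29), [4953147, 921913], 34⟩,
  mz,
  mz,
  mz,
  mz,
  ⟨⟨27, 20, -19, -10, 19, 30, -4, 20, -19⟩, (.cons (nat_lit 3666244) (nat_lit 18421602) (nat_lit 30855787)
 (nat_lit 1) (.cons (nat_lit 410815) (nat_lit 135285) (nat_lit 597632) (nat_lit 1) .nil)), (nat_lit 1),
 (nat_lit 40), (nat_lit 10), (nat_lit 1), (5, 28, 5), [6716029, 588360], 28⟩,
  ⟨⟨-33, -8, 17, 4, -15, 28, -6, -24, -11⟩, (.cons (nat_lit 30173607) (nat_lit 13534027) (nat_lit 36780973)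
 (nat_lit 1) (.cons (nat_lit 114464) (nat_lit 166490) (nat_lit 257987) (nat_lit 1) .nil)), (nat_lit 16),
 (nat_lit 33), (nat_lit 2), (nat_lit 1), (14, 3, 11), [4101017, 102977], 2⟩,
  ⟨⟨23, -12, 13, 4, -25, -22, 26, 8, -19⟩, (.cons (nat_lit 33496171) (nat_lit 563819) (nat_lit 6418279)
 (nat_lit 1) (.cons (nat_lit 264240) (nat_lit 675967) (nat_lit 592768) (nat_lit 1) .nil)), (nat_lit 26),
 (nat_lit 36), (nat_lit 4), (nat_lit 1), (25, 3, 4), [23662673, 407938], 40⟩,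
  mz,
  mz,
  ⟨⟨21, -4, 19, 16, 25, -18, 22, -16, -17⟩, (.cons (nat_lit 37556785) (nat_lit 14293012) (nat_lit 34870043)
 (nat_lit 1) (.cons (nat_lit 693619) (nat_lit 817906) (nat_lit 656852) (nat_lit 1) .nil)), (nat_lit 9),
 (nat_lit 6), (nat_lit 37), (nat_lit 1), (7, 26, 28), [7407119, 779921], 24⟩,
  ⟨⟨-9, 8, -31, 10, 29, 0, 20, -4, -31⟩, (.cons (nat_lit 4118522) (nat_lit 27444462) (nat_lit 13455146)
 (nat_lit 1) (.cons (nat_lit 318883) (nat_lit 474188) (nat_lit 28556) (nat_lit 1) .nil)), (nat_lit 12),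
 (nat_lit 32), (nat_lit 28), (nat_lit 1), (2, 15, 30), [21158182, 71257], 30⟩,
  ⟨⟨9, 8, -40, 10, -29, -10, -20, -4, -11⟩, (.cons (nat_lit 40353606) (nat_lit 7352761) (nat_lit 22472867)
 (nat_lit 1) (.cons (nat_lit 187224) (nat_lit 918287) (nat_lit 240243) (nat_lit 1) .nil)), (nat_lit 42),
 (nat_lit 20), (nat_lit 5), (nat_lit 1), (27, 30, 2), [34539249, 707005], 8⟩,
  ⟨⟨33, 8, -16, 4, -15, -32, 6, 24, -17⟩, (.cons (nat_lit 30795201) (nat_lit 5175700) (nat_lit 22564781)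
 (nat_lit 1) (.cons (nat_lit 142473) (nat_lit 67177) (nat_lit 919577) (nat_lit 1) .nil)), (nat_lit 8), (nat_lit
 37), (nat_lit 16), (nat_lit 1), (1, 2, 3), [9196321, 38034], 42⟩,
  ⟨⟨9, -8, -40, 10, 29, -10, -20, 4, -11⟩, (.cons (nat_lit 36006064) (nat_lit 29911502) (nat_lit 16598338)
 (nat_lit 1) (.cons (nat_lit 907802) (nat_lit 142896) (nat_lit 623847) (nat_lit 1) .nil)), (nat_lit 25),
 (nat_lit 17), (nat_lit 12), (nat_lit 1), (18, 20, 22), [36200331, 545064], 2⟩,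
  ⟨⟨23, 12, 13, 4, 25, -22, 26, -8, -19⟩, (.cons (nat_lit 14378396) (nat_lit 3358856) (nat_lit 1) (nat_lit
 7847840) (.cons (nat_lit 535619) (nat_lit 553425) (nat_lit 395176) (nat_lit 1) .nil)), (nat_lit 24), (nat_lit
 28), (nat_lit 15), (nat_lit 1), (23, 4, 26), [32001240, 734171], 21⟩,
  ⟨⟨-9, -8, -31, 10, -29, 0, 20, 4, -31⟩, (.cons (nat_lit 19756815) (nat_lit 7107519) (nat_lit 21451554)
 (nat_lit 1) (.cons (nat_lit 743127) (nat_lit 734578) (nat_lit 333781) (nat_lit 1) .nil)), (nat_lit 1),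
 (nat_lit 25), (nat_lit 39), (nat_lit 1), (24, 25, 19), [28350647, 922480], 8⟩,
  ⟨⟨31, 0, -31, -10, 19, -20, 4, -20, -23⟩, (.cons (nat_lit 30921157) (nat_lit 9947874) (nat_lit 31851388)
 (nat_lit 1) (.cons (nat_lit 406746) (nat_lit 119749) (nat_lit 770485) (nat_lit 1) .nil)), (nat_lit 1),
 (nat_lit 7), (nat_lit 8), (nat_lit 1), (0, 22, 16), [9131316, 36014], 28⟩,
  ⟨⟨1, 12, 35, -16, 25, -2, 22, 16, -5⟩, (.cons (nat_lit 30028303) (nat_lit 7822439) (nat_lit 9435223) (nat_lit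
 1) (.cons (nat_lit 919023) (nat_lit 560928) (nat_lit 363179) (nat_lit 1) .nil)), (nat_lit 5), (nat_lit 8),
 (nat_lit 20), (nat_lit 1), (30, 16, 9), [20606343, 547783], 32⟩,
  ⟨⟨33, -8, -16, 4, 15, -32, 6, -24, -17⟩, (.cons (nat_lit 40353606) (nat_lit 36726371) (nat_lit 6005654)
 (nat_lit 1) (.cons (nat_lit 447658) (nat_lit 403458) (nat_lit 153399) (nat_lit 1) .nil)), (nat_lit 42),
 (nat_lit 22), (nat_lit 36), (nat_lit 1), (23, 15, 7), [17307602, 769790], 30⟩,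
  ⟨⟨21, 4, 19, 16, -25, -18, 22, 16, -17⟩, (.cons (nat_lit 36491422) (nat_lit 5241866) (nat_lit 11162450)
 (nat_lit 1) (.cons (nat_lit 598704) (nat_lit 263564) (nat_lit 50619) (nat_lit 1) .nil)), (nat_lit 26),
 (nat_lit 20), (nat_lit 33), (nat_lit 1), (27, 25, 15), [14914423, 436954], 40⟩,
  ⟨⟨31, 0, -31, -10, -19, -20, 4, 20, -23⟩, (.cons (nat_lit 12294980) (nat_lit 23752341) (nat_lit 18281174)
 (nat_lit 1) (.cons (nat_lit 631852) (nat_lit 333647) (nat_lit 847766) (nat_lit 1) .nil)), (nat_lit 31),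
 (nat_lit 27), (nat_lit 29), (nat_lit 1), (0, 20, 23), [38772893, 214088], 37⟩]

/-- Moves. -/
noncomputable def t4_1 : List Mv := [
  mz,
  ⟨⟨3, 44, -20, 2, 15, 44, 36, 12, -25⟩, (.cons (nat_lit 23645503) (nat_lit 5080619) (nat_lit 8957519) (nat_lit
 1) (.cons (nat_lit 53638) (nat_lit 67822) (nat_lit 90208) (nat_lit 1) .nil)), (nat_lit 22), (nat_lit 0),
 (nat_lit 0), (nat_lit 0), (36, 24, 2), [10019549, 605568], 0⟩,
  mz,
  mz,
  ⟨⟨19, 36, -36, -20, -13, -30, 34, -8, -35⟩, (.cons (nat_lit 7975196) (nat_lit 39875985) (nat_lit 20293004)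
 (nat_lit 1) (.cons (nat_lit 124362) (nat_lit 897774) (nat_lit 90949) (nat_lit 1) .nil)), (nat_lit 18),
 (nat_lit 0), (nat_lit 0), (nat_lit 0), (14, 26, 16), [36212942, 140361], 0⟩,
  ⟨⟨33, -32, -28, 2, 15, -46, 36, 12, -11⟩, (.cons (nat_lit 1448942) (nat_lit 13254724) (nat_lit 10447807)
 (nat_lit 1) (.cons (nat_lit 830617) (nat_lit 737628) (nat_lit 770238) (nat_lit 1) .nil)), (nat_lit 21),
 (nat_lit 0), (nat_lit 0), (nat_lit 0), (19, 22, 9), [24164159, 377894], 0⟩,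
  ⟨⟨-37, -24, 0, -20, 37, 0, 2, -8, -43⟩, (.cons (nat_lit 40353606) (nat_lit 33972044) (nat_lit 28124752)
 (nat_lit 1) (.cons (nat_lit 923520) (nat_lit 630067) (nat_lit 7952) (nat_lit 1) .nil)), (nat_lit 6), (nat_lit
 0), (nat_lit 0), (nat_lit 0), (12, 3, 4), [17030651, 83209], 0⟩,
  ⟨⟨-3, -32, 40, -20, -27, -20, 30, -24, -13⟩, (.cons (nat_lit 40353606) (nat_lit 7344389) (nat_lit 31982203)
 (nat_lit 1) (.cons (nat_lit 923520) (nat_lit 513291) (nat_lit 240691) (nat_lit 1) .nil)), (nat_lit 7),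
 (nat_lit 0), (nat_lit 0), (nat_lit 0), (1, 21, 33), [34259186, 565303], 0⟩,
  ⟨⟨37, 24, -37, -20, 37, 20, -2, 8, -41⟩, (.cons (nat_lit 28220823) (nat_lit 34437379) (nat_lit 7242855)
 (nat_lit 1) (.cons (nat_lit 141621) (nat_lit 385665) (nat_lit 780275) (nat_lit 1) .nil)), (nat_lit 35),
 (nat_lit 0), (nat_lit 0), (nat_lit 0), (34, 13, 40), [27796399, 82471], 0⟩,
  ⟨⟨-29, 0, -27, 0, -43, 0, 18, 0, -47⟩, (.cons (nat_lit 18855173) (nat_lit 32139953) (nat_lit 14073041)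
 (nat_lit 1) (.cons (nat_lit 649420) (nat_lit 98627) (nat_lit 1) (nat_lit 179955) .nil)), (nat_lit 34),
 (nat_lit 0), (nat_lit 0), (nat_lit 0), (33, 0, 24), [34953047, 8624], 0⟩,
  ⟨⟨21, -20, 31, 38, 15, -34, 12, -36, -13⟩, (.cons (nat_lit 37435293) (nat_lit 9343970) (nat_lit 17789190)
 (nat_lit 1) (.cons (nat_lit 188282) (nat_lit 380110) (nat_lit 1) (nat_lit 297104) .nil)), (nat_lit 38),
 (nat_lit 0), (nat_lit 0), (nat_lit 0), (8, 37, 23), [13237365, 16596], 0⟩,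
  mz,
  ⟨⟨-15, 44, 16, 20, 13, -50, -34, 8, -1⟩, (.cons (nat_lit 17526322) (nat_lit 9234117) (nat_lit 11127241)
 (nat_lit 1) (.cons (nat_lit 47267) (nat_lit 854189) (nat_lit 335949) (nat_lit 1) .nil)), (nat_lit 25),
 (nat_lit 0), (nat_lit 0), (nat_lit 0), (28, 20, 9), [20859754, 198905], 0⟩,
  ⟨⟨-3, -32, -37, 20, 27, -40, 30, -24, -17⟩, (.cons (nat_lit 7843207) (nat_lit 2852211) (nat_lit 1326722)
 (nat_lit 1) (.cons (nat_lit 48245) (nat_lit 813801) (nat_lit 624378) (nat_lit 1) .nil)), (nat_lit 30),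
 (nat_lit 0), (nat_lit 0), (nat_lit 0), (27, 35, 31), [10421303, 628875], 0⟩,
  mz,
  mz,
  mz,
  ⟨⟨9, -4, -56, 40, -13, -10, 14, 32, -25⟩, (.cons (nat_lit 26718361) (nat_lit 37174649) (nat_lit 7101326)
 (nat_lit 1) (.cons (nat_lit 55449) (nat_lit 548403) (nat_lit 449311) (nat_lit 1) .nil)), (nat_lit 12),
 (nat_lit 0), (nat_lit 0), (nat_lit 0), (19, 8, 20), [40118368, 412758], 0⟩,
  ⟨⟨-9, 4, -47, 40, -13, -30, -14, -32, -11⟩, (.cons (nat_lit 947867) (nat_lit 24530596) (nat_lit 14490793)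
 (nat_lit 1) (.cons (nat_lit 390908) (nat_lit 171046) (nat_lit 784230) (nat_lit 1) .nil)), (nat_lit 39),
 (nat_lit 0), (nat_lit 0), (nat_lit 0), (37, 41, 5), [8126649, 263502], 0⟩,
  mz,
  mz,
  ⟨⟨21, 20, 31, 38, -15, -34, 12, 36, -13⟩, (.cons (nat_lit 16148409) (nat_lit 38010238) (nat_lit 12091131)
 (nat_lit 1) (.cons (nat_lit 511526) (nat_lit 490575) (nat_lit 757021) (nat_lit 1) .nil)), (nat_lit 38),
 (nat_lit 0), (nat_lit 0), (nat_lit 0), (12, 34, 13), [28366363, 199363], 0⟩,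
  ⟨⟨-21, 20, 52, 38, 15, -4, -12, 36, -1⟩, (.cons (nat_lit 2945976) (nat_lit 13318798) (nat_lit 1) (nat_lit
 1931209) (.cons (nat_lit 609247) (nat_lit 750069) (nat_lit 704855) (nat_lit 1) .nil)), (nat_lit 1), (nat_lit
 0), (nat_lit 0), (nat_lit 0), (12, 9, 13), [26213303, 658943], 0⟩,
  mz,
  mz,
  ⟨⟨5, -36, 31, 40, 13, -10, 14, -32, -25⟩, (.cons (nat_lit 2367844) (nat_lit 24387253) (nat_lit 15720940)
 (nat_lit 1) (.cons (nat_lit 8114) (nat_lit 322072) (nat_lit 225490) (nat_lit 1) .nil)), (nat_lit 31), (nat_lit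
 0), (nat_lit 0), (nat_lit 0), (11, 2, 5), [6082907, 534377], 0⟩,
  ⟨⟨-5, 36, 36, 40, 13, -30, -14, 32, -11⟩, (.cons (nat_lit 13212495) (nat_lit 4111994) (nat_lit 22823999)
 (nat_lit 1) (.cons (nat_lit 846013) (nat_lit 855694) (nat_lit 125580) (nat_lit 1) .nil)), (nat_lit 4),
 (nat_lit 0), (nat_lit 0), (nat_lit 0), (1, 35, 20), [12417782, 127667], 0⟩,
  mz,
  mz,
  mz,
  ⟨⟨33, -8, -53, 20, -27, 20, 30, 24, -13⟩, (.cons (nat_lit 27225556) (nat_lit 20949889) (nat_lit 11639910)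
 (nat_lit 1) (.cons (nat_lit 262422) (nat_lit 327623) (nat_lit 572304) (nat_lit 1) .nil)), (nat_lit 13),
 (nat_lit 0), (nat_lit 0), (nat_lit 0), (39, 8, 12), [23506171, 618350], 0⟩,
  ⟨⟨15, 44, 1, -20, 13, -30, 34, 8, -35⟩, (.cons (nat_lit 34084769) (nat_lit 17495300) (nat_lit 3162643)
 (nat_lit 1) (.cons (nat_lit 307423) (nat_lit 192996) (nat_lit 521032) (nat_lit 1) .nil)), (nat_lit 25),
 (nat_lit 0), (nat_lit 0), (nat_lit 0), (28, 20, 9), [37227917, 709450], 0⟩,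
  mz,
  ⟨⟨-21, -20, 52, 38, -15, -4, -12, -36, -1⟩, (.cons (nat_lit 19238987) (nat_lit 25842409) (nat_lit 29998339)
 (nat_lit 1) (.cons (nat_lit 127134) (nat_lit 645395) (nat_lit 197498) (nat_lit 1) .nil)), (nat_lit 1),
 (nat_lit 0), (nat_lit 0), (nat_lit 0), (8, 6, 23), [3507828, 230481], 0⟩,
  ⟨⟨29, 0, -56, 0, -43, 0, -18, 0, -29⟩, (.cons (nat_lit 40353606) (nat_lit 10890354) (nat_lit 26367870)
 (nat_lit 1) (.cons (nat_lit 923520) (nat_lit 197038) (nat_lit 496339) (nat_lit 1) .nil)), (nat_lit 34),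
 (nat_lit 0), (nat_lit 0), (nat_lit 0), (33, 0, 24), [9863836, 362581], 0⟩,
  ⟨⟨39, -16, -43, 20, 37, 0, 2, 8, -43⟩, (.cons (nat_lit 9791174) (nat_lit 21995312) (nat_lit 3357392) (nat_lit
 1) (.cons (nat_lit 591957) (nat_lit 65358) (nat_lit 544765) (nat_lit 1) .nil)), (nat_lit 8), (nat_lit 0),
 (nat_lit 0), (nat_lit 0), (6, 13, 40), [4859877, 813257], 0⟩,
  ⟨⟨33, -8, 20, 20, -27, -40, 30, 24, -17⟩, (.cons (nat_lit 19990344) (nat_lit 6152248) (nat_lit 4023647)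
 (nat_lit 1) (.cons (nat_lit 902701) (nat_lit 770496) (nat_lit 117869) (nat_lit 1) .nil)), (nat_lit 13),
 (nat_lit 0), (nat_lit 0), (nat_lit 0), (11, 21, 10), [22440562, 99821], 0⟩,
  ⟨⟨37, -24, -37, 20, 37, -20, -2, -8, -41⟩, (.cons (nat_lit 13042807) (nat_lit 28446629) (nat_lit 12446590)
 (nat_lit 1) (.cons (nat_lit 365379) (nat_lit 588770) (nat_lit 564746) (nat_lit 1) .nil)), (nat_lit 6),
 (nat_lit 0), (nat_lit 0), (nat_lit 0), (12, 3, 4), [24709819, 574534], 0⟩,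
  ⟨⟨33, 32, -5, 2, -15, 44, 36, -12, -25⟩, (.cons (nat_lit 18018996) (nat_lit 30052078) (nat_lit 11201485)
 (nat_lit 1) (.cons (nat_lit 165050) (nat_lit 299925) (nat_lit 534124) (nat_lit 1) .nil)), (nat_lit 21),
 (nat_lit 0), (nat_lit 0), (nat_lit 0), (24, 21, 34), [28942321, 227891], 0⟩,
  ⟨⟨-19, 36, -17, 20, -13, -50, -34, -8, -1⟩, (.cons (nat_lit 38540420) (nat_lit 5061912) (nat_lit 1494342)
 (nat_lit 1) (.cons (nat_lit 339527) (nat_lit 882843) (nat_lit 468468) (nat_lit 1) .nil)), (nat_lit 18),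
 (nat_lit 0), (nat_lit 0), (nat_lit 0), (14, 26, 16), [26877938, 786517], 0⟩,
  mz,
  mz,
  ⟨⟨3, -44, 17, 2, -15, -46, 36, -12, -11⟩, (.cons (nat_lit 28990556) (nat_lit 6581265) (nat_lit 38572908)
 (nat_lit 1) (.cons (nat_lit 447811) (nat_lit 5972) (nat_lit 1) (nat_lit 177134) .nil)), (nat_lit 22), (nat_lit
 0), (nat_lit 0), (nat_lit 0), (7, 19, 41), [17965989, 812735], 0⟩]

/-- Moves. -/
noncomputable def t4_3 : List Mv := [
  mz,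
  ⟨⟨3, 44, -20, -2, -15, -44, 36, 12, -25⟩, (.cons (nat_lit 32947680) (nat_lit 5666107) (nat_lit 16732177)
 (nat_lit 1) (.cons (nat_lit 803045) (nat_lit 604467) (nat_lit 174004) (nat_lit 1) .nil)), (nat_lit 33),
 (nat_lit 0), (nat_lit 0), (nat_lit 0), (36, 19, 2), [29276412, 478643], 0⟩,
  mz,
  mz,
  ⟨⟨15, -44, 1, -20, -13, -30, 34, -8, -35⟩, (.cons (nat_lit 9782712) (nat_lit 32977012) (nat_lit 23272274)
 (nat_lit 1) (.cons (nat_lit 213358) (nat_lit 761542) (nat_lit 332536) (nat_lit 1) .nil)), (nat_lit 25),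
 (nat_lit 0), (nat_lit 0), (nat_lit 0), (2, 26, 16), [37269662, 19705], 0⟩,
  ⟨⟨33, -32, -28, 2, 15, -46, 36, 12, -11⟩, (.cons (nat_lit 1448942) (nat_lit 13254724) (nat_lit 10447807)
 (nat_lit 1) (.cons (nat_lit 830617) (nat_lit 737628) (nat_lit 770238) (nat_lit 1) .nil)), (nat_lit 21),
 (nat_lit 0), (nat_lit 0), (nat_lit 0), (19, 22, 9), [24164159, 377894], 0⟩,
  ⟨⟨39, 16, -43, -20, 37, 0, 2, -8, -43⟩, (.cons (nat_lit 23940680) (nat_lit 1574873) (nat_lit 2893126)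
 (nat_lit 1) (.cons (nat_lit 416311) (nat_lit 281140) (nat_lit 4174) (nat_lit 1) .nil)), (nat_lit 37), (nat_lit
 0), (nat_lit 0), (nat_lit 0), (35, 3, 4), [18205293, 798129], 0⟩,
  ⟨⟨33, 8, -53, -20, -27, -20, 30, -24, -13⟩, (.cons (nat_lit 1708869) (nat_lit 30420163) (nat_lit 24310399)
 (nat_lit 1) (.cons (nat_lit 587054) (nat_lit 187200) (nat_lit 315827) (nat_lit 1) .nil)), (nat_lit 36),
 (nat_lit 0), (nat_lit 0), (nat_lit 0), (32, 21, 33), [16088152, 96372], 0⟩,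
  ⟨⟨-39, -16, -4, 20, -37, -20, -2, 8, -41⟩, (.cons (nat_lit 5916874) (nat_lit 28751649) (nat_lit 17804901)
 (nat_lit 1) (.cons (nat_lit 241493) (nat_lit 188183) (nat_lit 34847) (nat_lit 1) .nil)), (nat_lit 37),
 (nat_lit 0), (nat_lit 0), (nat_lit 0), (6, 30, 40), [17980201, 313687], 0⟩,
  ⟨⟨-29, 0, -27, 0, -43, 0, 18, 0, -47⟩, (.cons (nat_lit 18855173) (nat_lit 32139953) (nat_lit 14073041)
 (nat_lit 1) (.cons (nat_lit 649420) (nat_lit 98627) (nat_lit 1) (nat_lit 179955) .nil)), (nat_lit 34),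
 (nat_lit 0), (nat_lit 0), (nat_lit 0), (33, 0, 24), [34953047, 8624], 0⟩,
  ⟨⟨-9, -16, -44, 38, 15, -34, 12, -36, -13⟩, (.cons (nat_lit 15369928) (nat_lit 30082620) (nat_lit 39172601)
 (nat_lit 1) (.cons (nat_lit 802691) (nat_lit 543119) (nat_lit 707005) (nat_lit 1) .nil)), (nat_lit 5),
 (nat_lit 0), (nat_lit 0), (nat_lit 0), (15, 37, 23), [11616676, 586844], 0⟩,
  mz,
  ⟨⟨-15, 44, 16, -20, -13, 50, -34, 8, -1⟩, (.cons (nat_lit 2744052) (nat_lit 27186233) (nat_lit 26178492)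
 (nat_lit 1) (.cons (nat_lit 301478) (nat_lit 60349) (nat_lit 61017) (nat_lit 1) .nil)), (nat_lit 17), (nat_lit
 0), (nat_lit 0), (nat_lit 0), (28, 23, 9), [33654515, 908888], 0⟩,
  ⟨⟨33, 8, 20, 20, 27, -40, 30, -24, -17⟩, (.cons (nat_lit 40353606) (nat_lit 32116289) (nat_lit 12046130)
 (nat_lit 1) (.cons (nat_lit 923520) (nat_lit 612083) (nat_lit 382216) (nat_lit 1) .nil)), (nat_lit 13),
 (nat_lit 0), (nat_lit 0), (nat_lit 0), (4, 35, 31), [27353827, 359954], 0⟩,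
  mz,
  mz,
  mz,
  ⟨⟨5, 36, 31, 40, -13, -10, 14, 32, -25⟩, (.cons (nat_lit 23580419) (nat_lit 21233022) (nat_lit 5986940)
 (nat_lit 1) (.cons (nat_lit 132974) (nat_lit 164577) (nat_lit 330634) (nat_lit 1) .nil)), (nat_lit 31),
 (nat_lit 0), (nat_lit 0), (nat_lit 0), (1, 8, 20), [22940970, 501224], 0⟩,
  ⟨⟨-5, -36, 36, 40, -13, -30, -14, -32, -11⟩, (.cons (nat_lit 9905507) (nat_lit 31179674) (nat_lit 1243111)
 (nat_lit 1) (.cons (nat_lit 392401) (nat_lit 752328) (nat_lit 66975) (nat_lit 1) .nil)), (nat_lit 4), (nat_lit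
 0), (nat_lit 0), (nat_lit 0), (11, 41, 5), [35953616, 282502], 0⟩,
  mz,
  mz,
  ⟨⟨-9, 16, -44, 38, -15, -34, 12, 36, -13⟩, (.cons (nat_lit 21636387) (nat_lit 30527700) (nat_lit 40139291)
 (nat_lit 1) (.cons (nat_lit 184905) (nat_lit 17066) (nat_lit 857146) (nat_lit 1) .nil)), (nat_lit 5), (nat_lit
 0), (nat_lit 0), (nat_lit 0), (1, 34, 13), [31978986, 208106], 0⟩,
  ⟨⟨9, 16, -53, 38, 15, -4, -12, 36, -1⟩, (.cons (nat_lit 10578262) (nat_lit 20163826) (nat_lit 1) (nat_lit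
 39280752) (.cons (nat_lit 582025) (nat_lit 549962) (nat_lit 121022) (nat_lit 1) .nil)), (nat_lit 42), (nat_lit
 0), (nat_lit 0), (nat_lit 0), (1, 9, 13), [12279159, 272985], 0⟩,
  mz,
  mz,
  ⟨⟨5, -36, 31, 40, 13, -10, 14, -32, -25⟩, (.cons (nat_lit 2367844) (nat_lit 24387253) (nat_lit 15720940)
 (nat_lit 1) (.cons (nat_lit 8114) (nat_lit 322072) (nat_lit 225490) (nat_lit 1) .nil)), (nat_lit 31), (nat_lit
 0), (nat_lit 0), (nat_lit 0), (11, 2, 5), [6082907, 534377], 0⟩,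
  ⟨⟨-5, 36, 36, 40, 13, -30, -14, 32, -11⟩, (.cons (nat_lit 13212495) (nat_lit 4111994) (nat_lit 22823999)
 (nat_lit 1) (.cons (nat_lit 846013) (nat_lit 855694) (nat_lit 125580) (nat_lit 1) .nil)), (nat_lit 4),
 (nat_lit 0), (nat_lit 0), (nat_lit 0), (1, 35, 20), [12417782, 127667], 0⟩,
  mz,
  mz,
  mz,
  ⟨⟨33, -8, -53, -20, 27, -20, 30, 24, -13⟩, (.cons (nat_lit 4872863) (nat_lit 221159) (nat_lit 22245948)
 (nat_lit 1) (.cons (nat_lit 524324) (nat_lit 227036) (nat_lit 890335) (nat_lit 1) .nil)), (nat_lit 36),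
 (nat_lit 0), (nat_lit 0), (nat_lit 0), (39, 35, 12), [26862771, 820867], 0⟩,
  ⟨⟨15, 44, 1, -20, 13, -30, 34, 8, -35⟩, (.cons (nat_lit 34084769) (nat_lit 17495300) (nat_lit 3162643)
 (nat_lit 1) (.cons (nat_lit 307423) (nat_lit 192996) (nat_lit 521032) (nat_lit 1) .nil)), (nat_lit 25),
 (nat_lit 0), (nat_lit 0), (nat_lit 0), (28, 20, 9), [37227917, 709450], 0⟩,
  mz,
  ⟨⟨9, -16, -53, 38, -15, -4, -12, -36, -1⟩, (.cons (nat_lit 1305411) (nat_lit 9788718) (nat_lit 28337204)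
 (nat_lit 1) (.cons (nat_lit 420025) (nat_lit 761202) (nat_lit 778441) (nat_lit 1) .nil)), (nat_lit 42),
 (nat_lit 0), (nat_lit 0), (nat_lit 0), (15, 6, 23), [5003938, 860291], 0⟩,
  ⟨⟨-47, 0, 27, 0, -43, 0, -18, 0, -29⟩, (.cons (nat_lit 27114473) (nat_lit 5919404) (nat_lit 12265502)
 (nat_lit 1) (.cons (nat_lit 621054) (nat_lit 56466) (nat_lit 810866) (nat_lit 1) .nil)), (nat_lit 9), (nat_lit
 0), (nat_lit 0), (nat_lit 0), (34, 0, 24), [20681132, 676240], 0⟩,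
  ⟨⟨39, -16, -43, -20, -37, 0, 2, 8, -43⟩, (.cons (nat_lit 29747230) (nat_lit 24490735) (nat_lit 33905856)
 (nat_lit 1) (.cons (nat_lit 331425) (nat_lit 130677) (nat_lit 577988) (nat_lit 1) .nil)), (nat_lit 37),
 (nat_lit 0), (nat_lit 0), (nat_lit 0), (6, 30, 40), [26675167, 293727], 0⟩,
  ⟨⟨33, -8, 20, 20, -27, -40, 30, 24, -17⟩, (.cons (nat_lit 19990344) (nat_lit 6152248) (nat_lit 4023647)
 (nat_lit 1) (.cons (nat_lit 902701) (nat_lit 770496) (nat_lit 117869) (nat_lit 1) .nil)), (nat_lit 13),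
 (nat_lit 0), (nat_lit 0), (nat_lit 0), (11, 21, 10), [22440562, 99821], 0⟩,
  ⟨⟨-39, 16, -4, 20, 37, -20, -2, -8, -41⟩, (.cons (nat_lit 40353606) (nat_lit 864597) (nat_lit 36413134)
 (nat_lit 1) (.cons (nat_lit 923520) (nat_lit 623746) (nat_lit 589824) (nat_lit 1) .nil)), (nat_lit 37),
 (nat_lit 0), (nat_lit 0), (nat_lit 0), (35, 3, 4), [12666711, 662670], 0⟩,
  ⟨⟨3, -44, -20, -2, 15, -44, 36, -12, -25⟩, (.cons (nat_lit 27043078) (nat_lit 14975596) (nat_lit 1) (nat_lit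
 5312601) (.cons (nat_lit 83344) (nat_lit 191443) (nat_lit 1) (nat_lit 242110) .nil)), (nat_lit 33), (nat_lit
 0), (nat_lit 0), (nat_lit 0), (10, 22, 34), [1593040, 893235], 0⟩,
  ⟨⟨-15, -44, 16, -20, 13, 50, -34, -8, -1⟩, (.cons (nat_lit 1774875) (nat_lit 7063552) (nat_lit 1614334)
 (nat_lit 1) (.cons (nat_lit 156157) (nat_lit 764721) (nat_lit 35601) (nat_lit 1) .nil)), (nat_lit 17),
 (nat_lit 0), (nat_lit 0), (nat_lit 0), (2, 17, 16), [18986553, 609195], 0⟩,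
  mz,
  mz,
  ⟨⟨33, 32, -28, 2, -15, -46, 36, -12, -11⟩, (.cons (nat_lit 33025916) (nat_lit 24236445) (nat_lit 39472261)
 (nat_lit 1) (.cons (nat_lit 841836) (nat_lit 561781) (nat_lit 342757) (nat_lit 1) .nil)), (nat_lit 21),
 (nat_lit 0), (nat_lit 0), (nat_lit 0), (34, 19, 41), [33190464, 53471], 0⟩]

/-- All the moves. -/
noncomputable def tabs : List (List (List Mv)) := [[[], t0_1, [], t0_3], [[], t1_1, [], t1_3], [], [], [[], t4_1, [], t4_3]]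

/-- Subtrie. -/
noncomputable def T1 : Tr := (.ev (nat_lit 20) (nat_lit 68786591344) (.nd (nat_lit 33) (.br (nat_lit 20) (.br
 (nat_lit 13) (.br (nat_lit 4) (.br (nat_lit 2) (.ch (nat_lit 1) (.ev (nat_lit 52) (nat_lit 4838284853376) (.ev
 (nat_lit 192) (nat_lit 585225347330) .dd))) (.ch (nat_lit 2) (.ev (nat_lit 52) (nat_lit 28997591298) (.ev
 (nat_lit 148) (nat_lit 4398046511104) (.ev (nat_lit 212) (nat_lit 549755813888) (.ev (nat_lit 340) (nat_lit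
 131072) (.ev (nat_lit 372) (nat_lit 137438953472) (.ev (nat_lit 560) (nat_lit 33554560) (.nd (nat_lit 608)
 (.br (nat_lit 2) (.br (nat_lit 1) (.ch (nat_lit 0) (.ev (nat_lit 624) (nat_lit 34359738368) (.ev (nat_lit 637)
 (nat_lit 274877906944) .dd))) (.ch (nat_lit 1) (.ev (nat_lit 624) (nat_lit 34359738368) (.ev (nat_lit 637)
 (nat_lit 274877906944) .dd)))) (.br (nat_lit 6) (.ch (nat_lit 2) (.ev (nat_lit 624) (nat_lit 274877906944)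
 (.ev (nat_lit 637) (nat_lit 34359738368) .dd))) (.ch (nat_lit 6) (.ev (nat_lit 624) (nat_lit 309237645312)
 .dd))))))))))))) (.br (nat_lit 6) (.ch (nat_lit 4) (.ev (nat_lit 52) (nat_lit 310311657472) (.ev (nat_lit 64)
 (nat_lit 5113198543234) .dd))) (.br (nat_lit 8) (.ch (nat_lit 6) (.ev (nat_lit 52) (nat_lit 4538709049730)
 (.ev (nat_lit 212) (nat_lit 8192) (.ev (nat_lit 372) (nat_lit 131072) (.nd (nat_lit 608) (.br (nat_lit 1) (.ch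
 (nat_lit 0) (.ev (nat_lit 624) (nat_lit 292095524864) (.ev (nat_lit 660) (nat_lit 8589934592) (.nd (nat_lit
 960) (.br (nat_lit 6) (.ch (nat_lit 5) (.ev (nat_lit 976) (nat_lit 584115552256) .dd)) (.ch (nat_lit 6) (.fin
 (nat_lit 576476695253959245)))))))) (.br (nat_lit 3) (.ch (nat_lit 1) (.ev (nat_lit 624) (nat_lit 60129542144)
 (.ev (nat_lit 660) (nat_lit 824633720832) (.nd (nat_lit 1008) (.br (nat_lit 5) (.ch (nat_lit 1) (.fin (nat_lit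
 576459103015485989))) (.ch (nat_lit 5) (.ev (nat_lit 1024) (nat_lit 37748736) .dd))))))) (.ch (nat_lit 3) (.ev
 (nat_lit 624) (nat_lit 558383497216) (.nd (nat_lit 960) (.br (nat_lit 6) (.ch (nat_lit 0) (.ev (nat_lit 976)
 (nat_lit 309237645312) (.ev (nat_lit 989) (nat_lit 17179869184) .dd))) (.ch (nat_lit 6) (.ev (nat_lit 976)
 (nat_lit 17179869184) (.nd (nat_lit 1137) (.ch (nat_lit 0) (.nd (nat_lit 1200) (.br (nat_lit 6) (.ch (nat_lit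
 5) (.fin (nat_lit 576476695218307625))) (.ch (nat_lit 6) (.ev (nat_lit 1216) (nat_lit 34359738368) (.ev
 (nat_lit 1229) (nat_lit 274877906944) .dd)))))))))))))))))))) (.ch (nat_lit 8) (.ev (nat_lit 52) (nat_lit
 4947838108032) (.ev (nat_lit 180) (nat_lit 8589934592) (.ev (nat_lit 308) (nat_lit 8192) (.ev (nat_lit 436)
 (nat_lit 1073741824) (.ev (nat_lit 448) (nat_lit 51539607552) (.nd (nat_lit 608) (.br (nat_lit 2) (.ch
 (nat_lit 1) (.ev (nat_lit 624) (nat_lit 274882101248) (.ev (nat_lit 660) (nat_lit 262146) (.nd (nat_lit 1008)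
 (.br (nat_lit 6) (.ch (nat_lit 1) (.ev (nat_lit 1024) (nat_lit 139586437120) .dd)) (.ch (nat_lit 6) (.fin
 (nat_lit 576476695193141825)))))))) (.br (nat_lit 6) (.ch (nat_lit 2) (.ev (nat_lit 624) (nat_lit
 139586699264) (.ev (nat_lit 660) (nat_lit 274877906944) (.nd (nat_lit 1040) (.br (nat_lit 4) (.ch (nat_lit 1)
 (.nd (nat_lit 1169) (.br (nat_lit 15) (.ch (nat_lit 7) (.ev (nat_lit 1185) (nat_lit 4194306) .dd)) (.br
 (nat_lit 29) (.ch (nat_lit 15) (.nd (nat_lit 1392) (.br (nat_lit 3) (.ch (nat_lit 0) (.ev (nat_lit 1408)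
 (nat_lit 4194304) (.ev (nat_lit 1421) (nat_lit 2) .dd))) (.ch (nat_lit 3) (.fin (nat_lit
 576450306911978049)))))) (.ch (nat_lit 29) (.ev (nat_lit 1185) (nat_lit 4194306) .dd)))))) (.ch (nat_lit 4)
 (.ev (nat_lit 1056) (nat_lit 4194306) .dd))))))) (.ch (nat_lit 6) (.ev (nat_lit 624) (nat_lit 414464344066)
 (.ev (nat_lit 660) (nat_lit 262144) (.ev (nat_lit 669) (nat_lit 4194304) .dd)))))))))))))))) (.br (nat_lit 15)
 (.br (nat_lit 14) (.ch (nat_lit 13) (.ev (nat_lit 52) (nat_lit 175053864960) (.ev (nat_lit 212) (nat_lit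
 274877906944) (.ev (nat_lit 244) (nat_lit 8589934592) (.ev (nat_lit 436) (nat_lit 17179869184) (.ev (nat_lit
 464) (nat_lit 549755814016) (.nd (nat_lit 608) (.br (nat_lit 2) (.ch (nat_lit 0) (.ev (nat_lit 624) (nat_lit
 6291458) (.ev (nat_lit 660) (nat_lit 256) (.nd (nat_lit 960) (.br (nat_lit 1) (.ch (nat_lit 0) (.nd (nat_lit
 1169) (.br (nat_lit 21) (.ch (nat_lit 19) (.ev (nat_lit 1185) (nat_lit 4398046519296) .dd)) (.br (nat_lit 27)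
 (.ch (nat_lit 21) (.ev (nat_lit 1185) (nat_lit 4398046519296) .dd)) (.ch (nat_lit 27) (.nd (nat_lit 1328) (.br
 (nat_lit 6) (.ch (nat_lit 5) (.ev (nat_lit 1344) (nat_lit 4398046511104) (.ev (nat_lit 1357) (nat_lit 8192)
 .dd))) (.ch (nat_lit 6) (.fin (nat_lit 576432714749002305)))))))))) (.ch (nat_lit 1) (.ev (nat_lit 976)
 (nat_lit 4398046519296) .dd))))))) (.br (nat_lit 6) (.ch (nat_lit 2) (.ev (nat_lit 624) (nat_lit
 4398046511360) (.ev (nat_lit 660) (nat_lit 2105344) (.nd (nat_lit 1072) (.br (nat_lit 4) (.ch (nat_lit 1)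
 (.fin (nat_lit 576472297209545279))) (.ch (nat_lit 4) (.ev (nat_lit 1088) (nat_lit 4194306) .dd))))))) (.ch
 (nat_lit 6) (.ev (nat_lit 624) (nat_lit 4202754) (.ev (nat_lit 660) (nat_lit 2097152) (.ev (nat_lit 669)
 (nat_lit 4398046511104) .dd))))))))))))) (.ch (nat_lit 14) (.ev (nat_lit 52) (nat_lit 551905656962) (.ev
 (nat_lit 84) (nat_lit 34363932672) (.ev (nat_lit 340) (nat_lit 8589934592) (.ev (nat_lit 404) (nat_lit 131072)
 (.ev (nat_lit 528) (nat_lit 17179869440) (.nd (nat_lit 608) (.br (nat_lit 2) (.br (nat_lit 1) (.ch (nat_lit 0)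
 (.ev (nat_lit 624) (nat_lit 1107296256) (.ev (nat_lit 672) (nat_lit 274877906944) (.nd (nat_lit 960) (.br
 (nat_lit 4) (.ch (nat_lit 0) (.ev (nat_lit 976) (nat_lit 137438953472) (.fin (nat_lit 576432714749002305))))
 (.br (nat_lit 6) (.ch (nat_lit 4) (.ev (nat_lit 976) (nat_lit 8192) (.fin (nat_lit 576476695228793445)))) (.ch
 (nat_lit 6) (.ev (nat_lit 976) (nat_lit 4535485472768) .dd)))))))) (.ch (nat_lit 1) (.ev (nat_lit 624)
 (nat_lit 4535485472768) (.ev (nat_lit 726) (nat_lit 274877906944) (.nd (nat_lit 1008) (.br (nat_lit 6) (.ch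
 (nat_lit 0) (.fin (nat_lit 576443709854794275))) (.ch (nat_lit 6) (.ev (nat_lit 1024) (nat_lit 1107296256)
 .dd)))))))) (.br (nat_lit 6) (.ch (nat_lit 2) (.ev (nat_lit 624) (nat_lit 4535519019008) (.ev (nat_lit 640)
 (nat_lit 274877906944) (.fin (nat_lit 576470098138055236))))) (.ch (nat_lit 6) (.ev (nat_lit 624) (nat_lit
 4811470675968) .dd)))))))))))) (.br (nat_lit 18) (.ch (nat_lit 15) (.ev (nat_lit 52) (nat_lit 5275333435392)
 (.ev (nat_lit 84) (nat_lit 262144) (.ev (nat_lit 148) (nat_lit 137438953472) (.nd (nat_lit 608) (.br (nat_lit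
 3) (.br (nat_lit 1) (.ch (nat_lit 0) (.ev (nat_lit 624) (nat_lit 10737418626) (.ev (nat_lit 637) (nat_lit
 131072) .dd))) (.ch (nat_lit 1) (.ev (nat_lit 624) (nat_lit 8590065792) (.ev (nat_lit 912) (nat_lit 2) (.nd
 (nat_lit 1040) (.br (nat_lit 3) (.ch (nat_lit 1) (.ev (nat_lit 1056) (nat_lit 2147483904) .dd)) (.ch (nat_lit
 3) (.nd (nat_lit 1105) (.ch (nat_lit 28) (.nd (nat_lit 1424) (.br (nat_lit 4) (.ch (nat_lit 2) (.ev (nat_lit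
 1440) (nat_lit 2147483648) (.ev (nat_lit 1453) (nat_lit 256) .dd))) (.br (nat_lit 6) (.ch (nat_lit 4) (.ev
 (nat_lit 1440) (nat_lit 2147483904) .dd)) (.ch (nat_lit 6) (.fin (nat_lit 576452506000245299)))))))))))))))
 (.br (nat_lit 6) (.ch (nat_lit 3) (.ev (nat_lit 624) (nat_lit 10737549440) (.ev (nat_lit 640) (nat_lit 2) (.ev
 (nat_lit 653) (nat_lit 256) .dd)))) (.ch (nat_lit 6) (.ev (nat_lit 624) (nat_lit 2147483904) (.ev (nat_lit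
 660) (nat_lit 2) (.nd (nat_lit 960) (.br (nat_lit 1) (.ch (nat_lit 0) (.ev (nat_lit 976) (nat_lit 8590065664)
 (.ev (nat_lit 989) (nat_lit 128) .dd))) (.br (nat_lit 3) (.ch (nat_lit 1) (.ev (nat_lit 976) (nat_lit
 8590065792) .dd)) (.ch (nat_lit 3) (.ev (nat_lit 976) (nat_lit 128) (.fin (nat_lit
 576459103059526181))))))))))))))))) (.br (nat_lit 19) (.ch (nat_lit 18) (.ev (nat_lit 52) (nat_lit
 867587727618) (.ev (nat_lit 84) (nat_lit 17179869184) (.ev (nat_lit 544) (nat_lit 262272) (.nd (nat_lit 608)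
 (.br (nat_lit 1) (.ch (nat_lit 0) (.ev (nat_lit 624) (nat_lit 3254779904) (.ev (nat_lit 896) (nat_lit 2097152)
 (.nd (nat_lit 1040) (.ch (nat_lit 4) (.nd (nat_lit 1169) (.br (nat_lit 7) (.ch (nat_lit 2) (.nd (nat_lit 1264)
 (.br (nat_lit 5) (.ch (nat_lit 4) (.ev (nat_lit 1280) (nat_lit 4535485464576) .dd)) (.ch (nat_lit 5) (.fin
 (nat_lit 576476695228793445)))))) (.br (nat_lit 23) (.ch (nat_lit 7) (.ev (nat_lit 1185) (nat_lit
 4535485464576) .dd)) (.ch (nat_lit 23) (.ev (nat_lit 1185) (nat_lit 4535485464576) .dd)))))))))) (.br (nat_lit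
 2) (.ch (nat_lit 1) (.ev (nat_lit 624) (nat_lit 4398048608256) (.nd (nat_lit 960) (.br (nat_lit 5) (.ch
 (nat_lit 0) (.ev (nat_lit 976) (nat_lit 139586437120) (.nd (nat_lit 1073) (.ch (nat_lit 7) (.nd (nat_lit 1296)
 (.br (nat_lit 6) (.ch (nat_lit 3) (.fin (nat_lit 576478894266729053))) (.ch (nat_lit 6) (.ev (nat_lit 1312)
 (nat_lit 33554432) (.ev (nat_lit 1325) (nat_lit 1073741824) .dd))))))))) (.br (nat_lit 6) (.ch (nat_lit 5)
 (.ev (nat_lit 976) (nat_lit 138512695296) (.fin (nat_lit 576474496205537852)))) (.ch (nat_lit 6) (.ev (nat_lit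
 976) (nat_lit 1107296256) (.fin (nat_lit 576476695193141825))))))))) (.ch (nat_lit 2) (.ev (nat_lit 624)
 (nat_lit 4537668599808) (.ev (nat_lit 637) (nat_lit 1073741824) .dd)))))))))) (.ch (nat_lit 19) (.ev (nat_lit
 52) (nat_lit 825714155650) (.ev (nat_lit 148) (nat_lit 8589934592) (.ev (nat_lit 212) (nat_lit 2147483648)
 (.ev (nat_lit 308) (nat_lit 33554432) (.ev (nat_lit 340) (nat_lit 137438953472) (.ev (nat_lit 592) (nat_lit
 17179869440) (.nd (nat_lit 608) (.br (nat_lit 3) (.ch (nat_lit 1) (.ev (nat_lit 624) (nat_lit 4432406249472)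
 .dd)) (.br (nat_lit 6) (.ch (nat_lit 3) (.ev (nat_lit 864) (nat_lit 34359738368) (.ev (nat_lit 877) (nat_lit
 4398046511104) .dd))) (.ch (nat_lit 6) (.ev (nat_lit 624) (nat_lit 34359738368) (.ev (nat_lit 637) (nat_lit
 4398046511104) .dd))))))))))))))))) (.br (nat_lit 25) (.br (nat_lit 22) (.br (nat_lit 21) (.ch (nat_lit 20)
 (.ev (nat_lit 52) (nat_lit 4418487590912) (.ev (nat_lit 84) (nat_lit 2) (.ev (nat_lit 308) (nat_lit
 34359738368) (.ev (nat_lit 404) (nat_lit 8589934592) (.ev (nat_lit 436) (nat_lit 274877907200) (.ev (nat_lit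
 480) (nat_lit 262272) (.nd (nat_lit 608) (.br (nat_lit 1) (.ch (nat_lit 0) (.ev (nat_lit 752) (nat_lit
 549755813888) (.ev (nat_lit 765) (nat_lit 137438953472) .dd))) (.br (nat_lit 2) (.ch (nat_lit 1) (.ev (nat_lit
 624) (nat_lit 687194767360) .dd)) (.ch (nat_lit 2) (.ev (nat_lit 624) (nat_lit 137438953472) (.ev (nat_lit
 637) (nat_lit 549755813888) .dd))))))))))))) (.ch (nat_lit 21) (.ev (nat_lit 52) (nat_lit 578780537088) (.ev
 (nat_lit 84) (nat_lit 128) (.ev (nat_lit 180) (nat_lit 137438953472) (.nd (nat_lit 608) (.br (nat_lit 3) (.ch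
 (nat_lit 0) (.ev (nat_lit 624) (nat_lit 309242101762) (.ev (nat_lit 880) (nat_lit 4398048608256) .dd))) (.br
 (nat_lit 6) (.ch (nat_lit 3) (.ev (nat_lit 624) (nat_lit 2097152) (.ev (nat_lit 852) (nat_lit 4398046773248)
 (.nd (nat_lit 1008) (.br (nat_lit 6) (.ch (nat_lit 0) (.ev (nat_lit 1024) (nat_lit 309237645312) (.fin
 (nat_lit 576464600600887876)))) (.ch (nat_lit 6) (.ev (nat_lit 1024) (nat_lit 4194306) (.fin (nat_lit
 576476695218307625))))))))) (.ch (nat_lit 6) (.ev (nat_lit 624) (nat_lit 4707290447874) (.ev (nat_lit 637)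
 (nat_lit 262144) .dd))))))))))) (.br (nat_lit 23) (.ch (nat_lit 22) (.ev (nat_lit 52) (nat_lit 4425997754496)
 (.ev (nat_lit 308) (nat_lit 1073741824) (.ev (nat_lit 436) (nat_lit 34359738368) (.nd (nat_lit 608) (.br
 (nat_lit 3) (.ch (nat_lit 0) (.ev (nat_lit 624) (nat_lit 274882101506) (.ev (nat_lit 736) (nat_lit
 137438953472) (.nd (nat_lit 1040) (.br (nat_lit 5) (.ch (nat_lit 0) (.nd (nat_lit 1169) (.br (nat_lit 16) (.ch
 (nat_lit 9) (.ev (nat_lit 1185) (nat_lit 549757911040) .dd)) (.br (nat_lit 25) (.ch (nat_lit 16) (.nd (nat_lit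
 1232) (.br (nat_lit 5) (.ch (nat_lit 1) (.fin (nat_lit 576432714774168105))) (.ch (nat_lit 5) (.ev (nat_lit
 1248) (nat_lit 549755813888) (.ev (nat_lit 1261) (nat_lit 2097152) .dd)))))) (.ch (nat_lit 25) (.ev (nat_lit
 1185) (nat_lit 549757911040) .dd)))))) (.br (nat_lit 6) (.ch (nat_lit 5) (.ev (nat_lit 1056) (nat_lit
 549757911040) .dd)) (.ch (nat_lit 6) (.ev (nat_lit 1056) (nat_lit 549757911040) .dd)))))))) (.br (nat_lit 6)
 (.ch (nat_lit 3) (.ev (nat_lit 624) (nat_lit 687196864512) (.ev (nat_lit 768) (nat_lit 274877906944) (.ev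
 (nat_lit 784) (nat_lit 256) (.nd (nat_lit 1040) (.ch (nat_lit 0) (.nd (nat_lit 1201) (.br (nat_lit 3) (.ch
 (nat_lit 1) (.nd (nat_lit 1264) (.br (nat_lit 4) (.ch (nat_lit 2) (.fin (nat_lit 576464600600887876))) (.ch
 (nat_lit 4) (.ev (nat_lit 1280) (nat_lit 4194306) .dd))))) (.br (nat_lit 25) (.ch (nat_lit 3) (.ev (nat_lit
 1217) (nat_lit 4194306) .dd)) (.ch (nat_lit 25) (.ev (nat_lit 1217) (nat_lit 4194306) .dd))))))))))) (.ch
 (nat_lit 6) (.ev (nat_lit 624) (nat_lit 962076868866) (.ev (nat_lit 637) (nat_lit 2097152) .dd)))))))))) (.br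
 (nat_lit 24) (.ch (nat_lit 23) (.ev (nat_lit 52) (nat_lit 575527846018) (.ev (nat_lit 212) (nat_lit
 1073741824) (.ev (nat_lit 244) (nat_lit 4398046511104) (.ev (nat_lit 276) (nat_lit 137438953472) (.ev (nat_lit
 496) (nat_lit 34359746560) (.nd (nat_lit 608) (.br (nat_lit 3) (.ch (nat_lit 1) (.ev (nat_lit 624) (nat_lit
 274878169088) (.nd (nat_lit 960) (.br (nat_lit 3) (.ch (nat_lit 1) (.ev (nat_lit 976) (nat_lit 2147483904)
 (.nd (nat_lit 1073) (.ch (nat_lit 20) (.nd (nat_lit 1328) (.br (nat_lit 6) (.ch (nat_lit 0) (.ev (nat_lit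
 1344) (nat_lit 33554432) (.ev (nat_lit 1357) (nat_lit 4194304) .dd))) (.ch (nat_lit 6) (.fin (nat_lit
 576459103015485989))))))))) (.br (nat_lit 5) (.ch (nat_lit 3) (.ev (nat_lit 976) (nat_lit 37748736) (.fin
 (nat_lit 576470098121278029)))) (.ch (nat_lit 5) (.ev (nat_lit 976) (nat_lit 4194560) (.fin (nat_lit
 576474496205537852))))))))) (.br (nat_lit 6) (.ch (nat_lit 3) (.ev (nat_lit 624) (nat_lit 2185232384) (.ev
 (nat_lit 816) (nat_lit 274877906944) (.nd (nat_lit 1040) (.ch (nat_lit 6) (.nd (nat_lit 1105) (.ch (nat_lit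
 20) (.nd (nat_lit 1200) (.br (nat_lit 5) (.ch (nat_lit 3) (.fin (nat_lit 576478894262534753))) (.ch (nat_lit
 5) (.ev (nat_lit 1216) (nat_lit 262400) .dd))))))))))) (.ch (nat_lit 6) (.ev (nat_lit 624) (nat_lit
 277059207424) (.ev (nat_lit 637) (nat_lit 4194304) .dd)))))))))))) (.ch (nat_lit 24) (.ev (nat_lit 52)
 (nat_lit 834331213954) (.ev (nat_lit 84) (nat_lit 2147483648) (.ev (nat_lit 404) (nat_lit 4398046511104) (.ev
 (nat_lit 416) (nat_lit 188984992000) .dd)))))))) (.br (nat_lit 27) (.br (nat_lit 26) (.ch (nat_lit 25) (.ev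
 (nat_lit 52) (nat_lit 738738962434) (.ev (nat_lit 288) (nat_lit 4684771238272) .dd))) (.ch (nat_lit 26) (.ev
 (nat_lit 52) (nat_lit 5395554763136) (.ev (nat_lit 84) (nat_lit 33554432) (.ev (nat_lit 308) (nat_lit
 2147483648) (.ev (nat_lit 436) (nat_lit 2) (.nd (nat_lit 608) (.br (nat_lit 3) (.br (nat_lit 2) (.ch (nat_lit
 1) (.ev (nat_lit 624) (nat_lit 25774137344) (.ev (nat_lit 637) (nat_lit 262144) .dd))) (.ch (nat_lit 2) (.ev
 (nat_lit 624) (nat_lit 17180270592) (.ev (nat_lit 640) (nat_lit 4194304) (.ev (nat_lit 653) (nat_lit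
 8589934592) .dd))))) (.br (nat_lit 6) (.ch (nat_lit 3) (.ev (nat_lit 624) (nat_lit 8590065664) (.ev (nat_lit
 660) (nat_lit 4194304) (.nd (nat_lit 960) (.br (nat_lit 1) (.ch (nat_lit 0) (.ev (nat_lit 976) (nat_lit
 270336) (.ev (nat_lit 989) (nat_lit 17179869184) .dd))) (.br (nat_lit 5) (.ch (nat_lit 1) (.ev (nat_lit 976)
 (nat_lit 17179869184) (.fin (nat_lit 576443709854794317)))) (.ch (nat_lit 5) (.ev (nat_lit 976) (nat_lit
 17180139520) .dd)))))))) (.ch (nat_lit 6) (.ev (nat_lit 624) (nat_lit 17180139520) (.ev (nat_lit 832) (nat_lit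
 4194304) (.nd (nat_lit 1008) (.br (nat_lit 3) (.ch (nat_lit 0) (.ev (nat_lit 1024) (nat_lit 8590065664) .dd))
 (.ch (nat_lit 3) (.nd (nat_lit 1105) (.ch (nat_lit 19) (.nd (nat_lit 1328) (.br (nat_lit 5) (.ch (nat_lit 2)
 (.ev (nat_lit 1344) (nat_lit 8590065664) .dd)) (.br (nat_lit 6) (.ch (nat_lit 5) (.fin (nat_lit
 576459103059526181))) (.ch (nat_lit 6) (.ev (nat_lit 1344) (nat_lit 131072) (.ev (nat_lit 1357) (nat_lit
 8589934592) .dd))))))))))))))))))))))) (.br (nat_lit 28) (.ch (nat_lit 27) (.ev (nat_lit 52) (nat_lit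
 4552703213696) (.ev (nat_lit 84) (nat_lit 274877906944) (.ev (nat_lit 212) (nat_lit 34359738368) (.ev (nat_lit
 372) (nat_lit 8589934592) (.ev (nat_lit 576) (nat_lit 551903297536) (.nd (nat_lit 608) (.br (nat_lit 3) (.br
 (nat_lit 2) (.ch (nat_lit 0) (.ev (nat_lit 624) (nat_lit 1076109570) .dd)) (.ch (nat_lit 2) (.ev (nat_lit 624)
 (nat_lit 262402) (.ev (nat_lit 640) (nat_lit 2097152) (.fin (nat_lit 576470098138055236)))))) (.br (nat_lit 6)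
 (.ch (nat_lit 3) (.ev (nat_lit 624) (nat_lit 1073741826) (.ev (nat_lit 672) (nat_lit 2097152) (.nd (nat_lit
 960) (.br (nat_lit 5) (.ch (nat_lit 1) (.ev (nat_lit 976) (nat_lit 256) (.fin (nat_lit 576478894266729011))))
 (.br (nat_lit 6) (.ch (nat_lit 5) (.ev (nat_lit 976) (nat_lit 270592) .dd)) (.ch (nat_lit 6) (.ev (nat_lit
 976) (nat_lit 8192) (.fin (nat_lit 576478894262534753)))))))))) (.ch (nat_lit 6) (.ev (nat_lit 624) (nat_lit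
 270592) (.ev (nat_lit 928) (nat_lit 2097152) (.nd (nat_lit 1040) (.br (nat_lit 6) (.ch (nat_lit 3) (.ev
 (nat_lit 1056) (nat_lit 1073741826) .dd)) (.ch (nat_lit 6) (.fin (nat_lit 576432714749002277)))))))))))))))))
 (.br (nat_lit 29) (.ch (nat_lit 28) (.ev (nat_lit 52) (nat_lit 4855498285058) (.ev (nat_lit 148) (nat_lit
 131072) (.ev (nat_lit 212) (nat_lit 262400) (.ev (nat_lit 308) (nat_lit 128) (.ev (nat_lit 512) (nat_lit
 18253611008) (.nd (nat_lit 608) (.br (nat_lit 2) (.br (nat_lit 1) (.ch (nat_lit 0) (.ev (nat_lit 624) (nat_lit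
 549757911040) .dd)) (.ch (nat_lit 1) (.ev (nat_lit 624) (nat_lit 2097152) (.ev (nat_lit 637) (nat_lit
 549755813888) .dd)))) (.br (nat_lit 3) (.ch (nat_lit 2) (.ev (nat_lit 624) (nat_lit 2097152) (.ev (nat_lit
 637) (nat_lit 549755813888) .dd))) (.ch (nat_lit 3) (.ev (nat_lit 624) (nat_lit 549755813888) (.ev (nat_lit
 637) (nat_lit 2097152) .dd)))))))))))) (.ch (nat_lit 29) (.ev (nat_lit 52) (nat_lit 302829019392) (.ev
 (nat_lit 116) (nat_lit 4398046511104) (.ev (nat_lit 212) (nat_lit 4194304) (.ev (nat_lit 404) (nat_lit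
 137438953472) (.nd (nat_lit 608) (.br (nat_lit 3) (.br (nat_lit 1) (.ch (nat_lit 0) (.ev (nat_lit 624)
 (nat_lit 1073741954) (.ev (nat_lit 912) (nat_lit 131072) (.nd (nat_lit 1008) (.br (nat_lit 6) (.ch (nat_lit 0)
 (.ev (nat_lit 1024) (nat_lit 34359738368) (.fin (nat_lit 576432714774168105)))) (.ch (nat_lit 6) (.ev (nat_lit
 1024) (nat_lit 2097152) (.nd (nat_lit 1137) (.ch (nat_lit 23) (.nd (nat_lit 1360) (.br (nat_lit 3) (.ch
 (nat_lit 2) (.fin (nat_lit 576476695253959245))) (.ch (nat_lit 3) (.ev (nat_lit 1376) (nat_lit 549755813888)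
 (.ev (nat_lit 1389) (nat_lit 34359738368) .dd)))))))))))))) (.ch (nat_lit 1) (.ev (nat_lit 624) (nat_lit
 585191522432) (.ev (nat_lit 637) (nat_lit 2) .dd)))) (.br (nat_lit 6) (.ch (nat_lit 3) (.ev (nat_lit 624)
 (nat_lit 550831652994) (.ev (nat_lit 640) (nat_lit 131072) (.ev (nat_lit 653) (nat_lit 34359738368) .dd))))
 (.ch (nat_lit 6) (.ev (nat_lit 624) (nat_lit 584117649408) (.ev (nat_lit 708) (nat_lit 131072) (.nd (nat_lit
 960) (.br (nat_lit 6) (.ch (nat_lit 0) (.ev (nat_lit 976) (nat_lit 1073741826) (.ev (nat_lit 989) (nat_lit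
 128) .dd))) (.ch (nat_lit 6) (.ev (nat_lit 976) (nat_lit 128) (.fin (nat_lit
 576432714749002277))))))))))))))))))))))))

/-- Subtrie. -/
noncomputable def T3 : Tr := (.ev (nat_lit 20) (nat_lit 138580066688) (.nd (nat_lit 33) (.br (nat_lit 20) (.br
 (nat_lit 13) (.br (nat_lit 4) (.br (nat_lit 2) (.ch (nat_lit 1) (.ev (nat_lit 52) (nat_lit 4769565378064) (.ev
 (nat_lit 180) (nat_lit 131072) (.ev (nat_lit 244) (nat_lit 2097152) (.ev (nat_lit 308) (nat_lit 2) (.nd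
 (nat_lit 608) (.br (nat_lit 3) (.ch (nat_lit 2) (.ev (nat_lit 624) (nat_lit 549789376576) (.ev (nat_lit 660)
 (nat_lit 32) (.nd (nat_lit 1104) (.br (nat_lit 6) (.ch (nat_lit 0) (.fin (nat_lit 576452506000245317))) (.ch
 (nat_lit 6) (.ev (nat_lit 1120) (nat_lit 34359742464) .dd))))))) (.br (nat_lit 5) (.ch (nat_lit 3) (.ev
 (nat_lit 624) (nat_lit 34359746592) (.ev (nat_lit 660) (nat_lit 33558528) (.nd (nat_lit 1008) (.br (nat_lit 5)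
 (.ch (nat_lit 1) (.fin (nat_lit 576470098186289723))) (.ch (nat_lit 5) (.ev (nat_lit 1024) (nat_lit
 549755813952) .dd))))))) (.ch (nat_lit 5) (.ev (nat_lit 624) (nat_lit 549755818080) (.nd (nat_lit 960) (.br
 (nat_lit 1) (.ch (nat_lit 0) (.ev (nat_lit 976) (nat_lit 8192) (.nd (nat_lit 1201) (.br (nat_lit 7) (.ch
 (nat_lit 4) (.nd (nat_lit 1232) (.ch (nat_lit 0) (.fin (nat_lit 576478894262534703))))) (.br (nat_lit 18) (.ch
 (nat_lit 7) (.ev (nat_lit 1217) (nat_lit 34393292800) .dd)) (.ch (nat_lit 18) (.ev (nat_lit 1217) (nat_lit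
 34393292800) .dd))))))) (.ch (nat_lit 1) (.ev (nat_lit 976) (nat_lit 34393292800) (.ev (nat_lit 989) (nat_lit
 8192) .dd))))))))))))))) (.ch (nat_lit 2) (.ev (nat_lit 52) (nat_lit 27923587634) (.ev (nat_lit 180) (nat_lit
 33554432) (.ev (nat_lit 244) (nat_lit 1024) (.ev (nat_lit 308) (nat_lit 274877906944) (.nd (nat_lit 608) (.br
 (nat_lit 2) (.ch (nat_lit 0) (.ev (nat_lit 624) (nat_lit 4982162067456) (.ev (nat_lit 992) (nat_lit
 68719476736) (.nd (nat_lit 1104) (.br (nat_lit 3) (.ch (nat_lit 2) (.ev (nat_lit 1120) (nat_lit 131136) .dd))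
 (.ch (nat_lit 3) (.nd (nat_lit 1265) (.br (nat_lit 4) (.ch (nat_lit 2) (.ev (nat_lit 1281) (nat_lit 131136)
 .dd)) (.br (nat_lit 13) (.ch (nat_lit 4) (.ev (nat_lit 1281) (nat_lit 131136) .dd)) (.ch (nat_lit 13) (.nd
 (nat_lit 1296) (.ch (nat_lit 0) (.fin (nat_lit 576478894231077423)))))))))))))) (.br (nat_lit 3) (.ch (nat_lit
 2) (.ev (nat_lit 624) (nat_lit 4466765987904) (.ev (nat_lit 660) (nat_lit 549755944960) (.nd (nat_lit 1136)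
 (.br (nat_lit 3) (.ch (nat_lit 0) (.fin (nat_lit 576470098121278011))) (.ch (nat_lit 3) (.ev (nat_lit 1152)
 (nat_lit 34359742464) .dd))))))) (.ch (nat_lit 3) (.ev (nat_lit 624) (nat_lit 103079350272) (.ev (nat_lit 660)
 (nat_lit 4398046511104) (.nd (nat_lit 1040) (.br (nat_lit 2) (.ch (nat_lit 1) (.fin (nat_lit
 576452505935233605))) (.ch (nat_lit 2) (.ev (nat_lit 1056) (nat_lit 549755813952) .dd)))))))))))))))) (.br
 (nat_lit 6) (.ch (nat_lit 4) (.ev (nat_lit 52) (nat_lit 309237659152) (.ev (nat_lit 84) (nat_lit 2) (.ev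
 (nat_lit 148) (nat_lit 19327352832) (.ev (nat_lit 180) (nat_lit 68719476736) (.ev (nat_lit 212) (nat_lit
 549755813888) (.ev (nat_lit 244) (nat_lit 32) (.nd (nat_lit 608) (.br (nat_lit 2) (.ch (nat_lit 0) (.ev
 (nat_lit 624) (nat_lit 33554432) (.ev (nat_lit 752) (nat_lit 4194304) (.ev (nat_lit 800) (nat_lit 8589934592)
 (.nd (nat_lit 1008) (.br (nat_lit 6) (.ch (nat_lit 3) (.ev (nat_lit 1024) (nat_lit 4398048608256) (.fin
 (nat_lit 576478894231077423)))) (.ch (nat_lit 6) (.ev (nat_lit 1024) (nat_lit 131136) (.fin (nat_lit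
 576458003520635457)))))))))) (.br (nat_lit 5) (.ch (nat_lit 2) (.ev (nat_lit 624) (nat_lit 4406672228416) (.ev
 (nat_lit 637) (nat_lit 4194304) .dd))) (.ch (nat_lit 5) (.ev (nat_lit 624) (nat_lit 4398052933696) (.ev
 (nat_lit 768) (nat_lit 8623489024) .dd))))))))))))) (.br (nat_lit 8) (.ch (nat_lit 6) (.ev (nat_lit 52)
 (nat_lit 4400196097122) (.ev (nat_lit 96) (nat_lit 953520628240) .dd))) (.ch (nat_lit 8) (.ev (nat_lit 52)
 (nat_lit 4947838108240) (.ev (nat_lit 148) (nat_lit 68719476736) (.ev (nat_lit 276) (nat_lit 32) (.ev (nat_lit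
 340) (nat_lit 17179869184) (.ev (nat_lit 436) (nat_lit 34359742464) (.nd (nat_lit 608) (.br (nat_lit 5) (.br
 (nat_lit 2) (.ch (nat_lit 0) (.ev (nat_lit 624) (nat_lit 4202498) (.ev (nat_lit 832) (nat_lit 1024) (.nd
 (nat_lit 1072) (.br (nat_lit 6) (.ch (nat_lit 4) (.ev (nat_lit 1088) (nat_lit 2147483648) (.nd (nat_lit 1233)
 (.ch (nat_lit 8) (.nd (nat_lit 1472) (.br (nat_lit 4) (.ch (nat_lit 2) (.fin (nat_lit 576450306976989761)))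
 (.ch (nat_lit 4) (.ev (nat_lit 1488) (nat_lit 8589934592) (.ev (nat_lit 1501) (nat_lit 274877906944)
 .dd))))))))) (.ch (nat_lit 6) (.ev (nat_lit 1088) (nat_lit 274877906944) (.fin (nat_lit
 576432714742710845))))))))) (.ch (nat_lit 2) (.ev (nat_lit 624) (nat_lit 285615334402) (.ev (nat_lit 637)
 (nat_lit 4194304) .dd)))) (.br (nat_lit 6) (.ch (nat_lit 5) (.ev (nat_lit 624) (nat_lit 285615325184) (.ev
 (nat_lit 708) (nat_lit 1024) (.ev (nat_lit 992) (nat_lit 8192) (.nd (nat_lit 1136) (.br (nat_lit 6) (.ch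
 (nat_lit 1) (.ev (nat_lit 1152) (nat_lit 4194306) .dd)) (.ch (nat_lit 6) (.fin (nat_lit
 576472297209545279))))))))) (.ch (nat_lit 6) (.ev (nat_lit 624) (nat_lit 10741620738) (.ev (nat_lit 640)
 (nat_lit 1024) (.ev (nat_lit 653) (nat_lit 274877906944) .dd)))))))))))))))) (.br (nat_lit 15) (.br (nat_lit
 14) (.ch (nat_lit 13) (.ev (nat_lit 52) (nat_lit 36540913184) (.ev (nat_lit 148) (nat_lit 8192) (.ev (nat_lit
 276) (nat_lit 4398046511104) (.ev (nat_lit 404) (nat_lit 17179869184) (.ev (nat_lit 436) (nat_lit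
 549755813952) (.nd (nat_lit 608) (.br (nat_lit 5) (.br (nat_lit 3) (.ch (nat_lit 0) (.ev (nat_lit 624)
 (nat_lit 4194322) (.ev (nat_lit 708) (nat_lit 2097152) (.ev (nat_lit 992) (nat_lit 68719476736) (.nd (nat_lit
 1104) (.br (nat_lit 4) (.ch (nat_lit 2) (.ev (nat_lit 1120) (nat_lit 283467841536) .dd)) (.ch (nat_lit 4)
 (.fin (nat_lit 576472297144533567))))))))) (.ch (nat_lit 3) (.ev (nat_lit 624) (nat_lit 343603675154) (.ev
 (nat_lit 637) (nat_lit 8589934592) .dd)))) (.br (nat_lit 6) (.ch (nat_lit 5) (.ev (nat_lit 624) (nat_lit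
 352187318272) (.ev (nat_lit 832) (nat_lit 2097152) (.nd (nat_lit 1072) (.br (nat_lit 6) (.ch (nat_lit 4) (.ev
 (nat_lit 1088) (nat_lit 2) (.fin (nat_lit 576432714774168125)))) (.ch (nat_lit 6) (.ev (nat_lit 1088) (nat_lit
 16) (.nd (nat_lit 1137) (.ch (nat_lit 3) (.nd (nat_lit 1360) (.br (nat_lit 5) (.ch (nat_lit 0) (.fin (nat_lit
 576450306911978049))) (.ch (nat_lit 5) (.ev (nat_lit 1376) (nat_lit 4194304) (.ev (nat_lit 1389) (nat_lit 2)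
 .dd)))))))))))))) (.ch (nat_lit 6) (.ev (nat_lit 624) (nat_lit 352191512592) (.ev (nat_lit 640) (nat_lit
 2097152) (.ev (nat_lit 653) (nat_lit 2) .dd))))))))))))) (.ch (nat_lit 14) (.ev (nat_lit 52) (nat_lit
 620624872002) (.ev (nat_lit 84) (nat_lit 274877906944) (.ev (nat_lit 116) (nat_lit 17179869184) (.ev (nat_lit
 148) (nat_lit 16) (.ev (nat_lit 180) (nat_lit 8192) (.ev (nat_lit 212) (nat_lit 4096) (.ev (nat_lit 244)
 (nat_lit 4398046511104) (.nd (nat_lit 608) (.br (nat_lit 3) (.ch (nat_lit 0) (.ev (nat_lit 624) (nat_lit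
 42983228448) (.ev (nat_lit 768) (nat_lit 4325376) .dd))) (.br (nat_lit 5) (.ch (nat_lit 3) (.ev (nat_lit 624)
 (nat_lit 34397619232) (.ev (nat_lit 637) (nat_lit 8589934592) .dd))) (.ch (nat_lit 5) (.ev (nat_lit 624)
 (nat_lit 131072) (.ev (nat_lit 752) (nat_lit 8589934592) (.ev (nat_lit 800) (nat_lit 4194304) (.nd (nat_lit
 1008) (.br (nat_lit 4) (.ch (nat_lit 0) (.ev (nat_lit 1024) (nat_lit 1056) (.fin (nat_lit
 576478894262534703)))) (.ch (nat_lit 4) (.ev (nat_lit 1024) (nat_lit 34393292800) (.fin (nat_lit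
 576464600590402111)))))))))))))))))))))) (.br (nat_lit 18) (.ch (nat_lit 15) (.ev (nat_lit 52) (nat_lit
 5274259699200) (.ev (nat_lit 84) (nat_lit 64) (.ev (nat_lit 116) (nat_lit 70866960384) (.ev (nat_lit 308)
 (nat_lit 8589934592) (.nd (nat_lit 608) (.br (nat_lit 3) (.br (nat_lit 2) (.ch (nat_lit 0) (.ev (nat_lit 624)
 (nat_lit 18) (.ev (nat_lit 660) (nat_lit 32) (.ev (nat_lit 669) (nat_lit 131072) .dd)))) (.ch (nat_lit 2) (.ev
 (nat_lit 624) (nat_lit 2) (.ev (nat_lit 912) (nat_lit 32) (.nd (nat_lit 1168) (.br (nat_lit 6) (.ch (nat_lit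
 3) (.nd (nat_lit 1457) (.ch (nat_lit 13) (.nd (nat_lit 1552) (.br (nat_lit 4) (.ch (nat_lit 1) (.ev (nat_lit
 1568) (nat_lit 16) (.ev (nat_lit 1581) (nat_lit 131072) .dd))) (.ch (nat_lit 4) (.fin (nat_lit
 576448107926471236)))))))) (.ch (nat_lit 6) (.ev (nat_lit 1184) (nat_lit 131088) .dd)))))))) (.br (nat_lit 5)
 (.ch (nat_lit 3) (.ev (nat_lit 624) (nat_lit 131120) (.ev (nat_lit 637) (nat_lit 2) .dd))) (.ch (nat_lit 5)
 (.ev (nat_lit 624) (nat_lit 131074) (.ev (nat_lit 692) (nat_lit 16) (.ev (nat_lit 701) (nat_lit 32)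
 .dd)))))))))))) (.br (nat_lit 19) (.ch (nat_lit 18) (.ev (nat_lit 52) (nat_lit 936307204210) (.ev (nat_lit
 148) (nat_lit 512) (.ev (nat_lit 276) (nat_lit 1024) (.ev (nat_lit 372) (nat_lit 17179869184) (.ev (nat_lit
 404) (nat_lit 4398046511104) (.nd (nat_lit 608) (.br (nat_lit 5) (.br (nat_lit 3) (.ch (nat_lit 2) (.ev
 (nat_lit 624) (nat_lit 35651584) (.ev (nat_lit 692) (nat_lit 2147483648) (.ev (nat_lit 701) (nat_lit 4096)
 .dd)))) (.ch (nat_lit 3) (.ev (nat_lit 624) (nat_lit 2097152) (.ev (nat_lit 832) (nat_lit 4096) (.nd (nat_lit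
 1072) (.br (nat_lit 5) (.ch (nat_lit 4) (.ev (nat_lit 1088) (nat_lit 2181038080) .dd)) (.ch (nat_lit 5) (.nd
 (nat_lit 1169) (.ch (nat_lit 27) (.nd (nat_lit 1232) (.br (nat_lit 6) (.ch (nat_lit 5) (.fin (nat_lit
 576448107915985476))) (.ch (nat_lit 6) (.ev (nat_lit 1248) (nat_lit 2147483648) (.ev (nat_lit 1261) (nat_lit
 33554432) .dd)))))))))))))) (.br (nat_lit 6) (.ch (nat_lit 5) (.ev (nat_lit 624) (nat_lit 2181042176) (.ev
 (nat_lit 637) (nat_lit 2097152) .dd))) (.ch (nat_lit 6) (.ev (nat_lit 624) (nat_lit 2149580800) (.ev (nat_lit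
 660) (nat_lit 4096) (.ev (nat_lit 669) (nat_lit 33554432) .dd))))))))))))) (.ch (nat_lit 19) (.ev (nat_lit 52)
 (nat_lit 824640156162) (.ev (nat_lit 276) (nat_lit 85932900352) (.ev (nat_lit 372) (nat_lit 4398046511104)
 (.nd (nat_lit 608) (.br (nat_lit 3) (.ch (nat_lit 0) (.ev (nat_lit 624) (nat_lit 34359739440) (.ev (nat_lit
 944) (nat_lit 64) (.nd (nat_lit 1104) (.br (nat_lit 5) (.ch (nat_lit 2) (.ev (nat_lit 1120) (nat_lit
 10737418240) .dd)) (.br (nat_lit 6) (.ch (nat_lit 5) (.ev (nat_lit 1120) (nat_lit 10737418240) .dd)) (.ch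
 (nat_lit 6) (.nd (nat_lit 1201) (.br (nat_lit 19) (.ch (nat_lit 14) (.ev (nat_lit 1217) (nat_lit 10737418240)
 .dd)) (.br (nat_lit 20) (.ch (nat_lit 19) (.nd (nat_lit 1264) (.br (nat_lit 5) (.ch (nat_lit 0) (.ev (nat_lit
 1280) (nat_lit 8589934592) (.ev (nat_lit 1293) (nat_lit 2147483648) .dd))) (.ch (nat_lit 5) (.fin (nat_lit
 576432714742710845)))))) (.ch (nat_lit 20) (.ev (nat_lit 1217) (nat_lit 10737418240) .dd)))))))))))) (.br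
 (nat_lit 5) (.ch (nat_lit 3) (.ev (nat_lit 624) (nat_lit 42949674096) (.ev (nat_lit 637) (nat_lit 2147483648)
 .dd))) (.ch (nat_lit 5) (.ev (nat_lit 624) (nat_lit 10737418304) (.ev (nat_lit 852) (nat_lit 34359738384) (.nd
 (nat_lit 1040) (.ch (nat_lit 4) (.nd (nat_lit 1105) (.ch (nat_lit 8) (.nd (nat_lit 1200) (.br (nat_lit 3) (.ch
 (nat_lit 2) (.fin (nat_lit 576464600590402111))) (.ch (nat_lit 3) (.ev (nat_lit 1216) (nat_lit 1056)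
 .dd)))))))))))))))))))))) (.br (nat_lit 25) (.br (nat_lit 22) (.br (nat_lit 21) (.ch (nat_lit 20) (.ev
 (nat_lit 52) (nat_lit 4486133325872) (.ev (nat_lit 320) (nat_lit 867583399490) .dd))) (.ch (nat_lit 21) (.ev
 (nat_lit 52) (nat_lit 577706795040) (.ev (nat_lit 84) (nat_lit 4194304) (.ev (nat_lit 180) (nat_lit
 4398046512128) (.ev (nat_lit 352) (nat_lit 377959223890) .dd)))))) (.br (nat_lit 23) (.ch (nat_lit 22) (.ev
 (nat_lit 52) (nat_lit 4494716970032) (.ev (nat_lit 384) (nat_lit 858999755330) .dd))) (.br (nat_lit 24) (.ch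
 (nat_lit 23) (.ev (nat_lit 52) (nat_lit 644247328354) (.ev (nat_lit 84) (nat_lit 34359738368) (.ev (nat_lit
 116) (nat_lit 8208) (.ev (nat_lit 308) (nat_lit 4194304) (.nd (nat_lit 608) (.br (nat_lit 3) (.br (nat_lit 2)
 (.ch (nat_lit 0) (.ev (nat_lit 624) (nat_lit 274911461376) (.ev (nat_lit 692) (nat_lit 2147483648) (.ev
 (nat_lit 701) (nat_lit 4398046511104) .dd)))) (.ch (nat_lit 2) (.ev (nat_lit 624) (nat_lit 4400227549184) (.ev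
 (nat_lit 637) (nat_lit 274877906944) .dd)))) (.br (nat_lit 5) (.ch (nat_lit 3) (.ev (nat_lit 624) (nat_lit
 274877906944) (.ev (nat_lit 912) (nat_lit 4398046511104) (.nd (nat_lit 1072) (.br (nat_lit 5) (.ch (nat_lit 2)
 (.ev (nat_lit 1088) (nat_lit 2181038080) .dd)) (.ch (nat_lit 5) (.nd (nat_lit 1169) (.ch (nat_lit 26) (.nd
 (nat_lit 1232) (.br (nat_lit 5) (.ch (nat_lit 1) (.ev (nat_lit 1248) (nat_lit 2147483648) (.ev (nat_lit 1261)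
 (nat_lit 33554432) .dd))) (.ch (nat_lit 5) (.fin (nat_lit 576448107915985476))))))))))))) (.ch (nat_lit 5)
 (.ev (nat_lit 624) (nat_lit 277025390592) (.ev (nat_lit 660) (nat_lit 4398046511104) (.ev (nat_lit 669)
 (nat_lit 33554432) .dd)))))))))))) (.ch (nat_lit 24) (.ev (nat_lit 52) (nat_lit 901976692226) (.ev (nat_lit
 244) (nat_lit 17179869184) (.ev (nat_lit 276) (nat_lit 139264) (.ev (nat_lit 372) (nat_lit 32) (.nd (nat_lit
 608) (.br (nat_lit 2) (.ch (nat_lit 0) (.ev (nat_lit 624) (nat_lit 34363932688) (.ev (nat_lit 852) (nat_lit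
 2147483712) (.nd (nat_lit 1072) (.ch (nat_lit 6) (.nd (nat_lit 1137) (.ch (nat_lit 28) (.nd (nat_lit 1200)
 (.br (nat_lit 6) (.ch (nat_lit 5) (.ev (nat_lit 1216) (nat_lit 4398048608256) .dd)) (.ch (nat_lit 6) (.fin
 (nat_lit 576458003520635457)))))))))))) (.br (nat_lit 5) (.ch (nat_lit 2) (.ev (nat_lit 624) (nat_lit
 4434560024640) (.ev (nat_lit 637) (nat_lit 16) .dd))) (.ch (nat_lit 5) (.ev (nat_lit 624) (nat_lit
 4400196091968) (.ev (nat_lit 944) (nat_lit 34359738368) (.nd (nat_lit 1136) (.br (nat_lit 4) (.ch (nat_lit 1)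
 (.ev (nat_lit 1152) (nat_lit 4194320) .dd)) (.br (nat_lit 5) (.ch (nat_lit 4) (.nd (nat_lit 1233) (.br
 (nat_lit 12) (.ch (nat_lit 9) (.nd (nat_lit 1296) (.br (nat_lit 3) (.ch (nat_lit 1) (.ev (nat_lit 1312)
 (nat_lit 4194304) (.ev (nat_lit 1325) (nat_lit 16) .dd))) (.ch (nat_lit 3) (.fin (nat_lit
 576432714774168125)))))) (.br (nat_lit 27) (.ch (nat_lit 12) (.ev (nat_lit 1249) (nat_lit 4194320) .dd)) (.ch
 (nat_lit 27) (.ev (nat_lit 1249) (nat_lit 4194320) .dd)))))) (.ch (nat_lit 5) (.ev (nat_lit 1152) (nat_lit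
 4194320) .dd))))))))))))))))))) (.br (nat_lit 27) (.br (nat_lit 26) (.ch (nat_lit 25) (.ev (nat_lit 52)
 (nat_lit 670019223570) (.ev (nat_lit 84) (nat_lit 4096) (.ev (nat_lit 148) (nat_lit 33554432) (.ev (nat_lit
 256) (nat_lit 4683663943264) .dd))))) (.ch (nat_lit 26) (.ev (nat_lit 52) (nat_lit 5257042068528) (.ev
 (nat_lit 128) (nat_lit 96674656834) .dd)))) (.br (nat_lit 28) (.ch (nat_lit 27) (.ev (nat_lit 52) (nat_lit
 4483983740944) (.ev (nat_lit 84) (nat_lit 8589934592) (.ev (nat_lit 160) (nat_lit 861143049826) .dd)))) (.br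
 (nat_lit 29) (.ch (nat_lit 28) (.ev (nat_lit 52) (nat_lit 4786778812482) (.ev (nat_lit 116) (nat_lit 512) (.ev
 (nat_lit 180) (nat_lit 17179869184) (.ev (nat_lit 276) (nat_lit 2097152) (.ev (nat_lit 404) (nat_lit 32) (.nd
 (nat_lit 608) (.br (nat_lit 3) (.br (nat_lit 2) (.ch (nat_lit 0) (.ev (nat_lit 624) (nat_lit 549755944976)
 (.ev (nat_lit 637) (nat_lit 1024) .dd))) (.ch (nat_lit 2) (.ev (nat_lit 624) (nat_lit 1024) (.ev (nat_lit 832)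
 (nat_lit 549755813888) (.nd (nat_lit 1504) (.br (nat_lit 4) (.ch (nat_lit 3) (.nd (nat_lit 1537) (.ch (nat_lit
 24) (.nd (nat_lit 1584) (.br (nat_lit 4) (.ch (nat_lit 3) (.ev (nat_lit 1600) (nat_lit 16) (.ev (nat_lit 1613)
 (nat_lit 131072) .dd))) (.ch (nat_lit 4) (.fin (nat_lit 576448107926471236)))))))) (.ch (nat_lit 4) (.ev
 (nat_lit 1520) (nat_lit 131088) .dd)))))))) (.br (nat_lit 6) (.ch (nat_lit 3) (.ev (nat_lit 624) (nat_lit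
 132096) (.ev (nat_lit 692) (nat_lit 16) (.ev (nat_lit 701) (nat_lit 549755813888) .dd)))) (.ch (nat_lit 6)
 (.ev (nat_lit 624) (nat_lit 1040) (.ev (nat_lit 660) (nat_lit 549755813888) (.ev (nat_lit 669) (nat_lit
 131072) .dd))))))))))))) (.ch (nat_lit 29) (.ev (nat_lit 52) (nat_lit 302828761152) (.ev (nat_lit 84) (nat_lit
 549755813888) (.ev (nat_lit 148) (nat_lit 131072) (.ev (nat_lit 224) (nat_lit 4501132019250) .dd))))))))))))

/-- The trie. -/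
noncomputable def T : Tr := .nd (nat_lit 1000000) (.br (nat_lit 1) (.ch (nat_lit 0) (.ev (nat_lit 0) (nat_lit 8796093022207) .dd)) (.br (nat_lit 3) (.ch (nat_lit 1) T1) (.ch (nat_lit 3) T3)))

/-- The possible values. -/
noncomputable def oks : List ℕ := [85, 610, 2244, 2340]

/-- The parameters. -/
noncomputable def S : Pr := ⟨fun i l e => lget mz (lget [] (lget [] tabs i) l) e, oks, [(nat_lit 0), (nat_lit
 1), (nat_lit 0), (nat_lit 0), (nat_lit 1), (nat_lit 0)], T, (nat_lit 8796093022207), (nat_lit 3303796230157),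
 (nat_lit 43), [(nat_lit 1), (nat_lit 1073946281)], [(nat_lit 40353607), (nat_lit 923521)]⟩

/-- Nothing known. -/
noncomputable def cs0 : Cs := (.cons (nat_lit 7) (nat_lit 0) (nat_lit 1) (.cons (nat_lit 31) (nat_lit 0) (nat_lit 1) .nil))

theorem part_1 : part S cs0 (nat_lit 1) = true := by decide +kernel

theorem part_3 : part S cs0 (nat_lit 3) = true := by decide +kernel

/-- Data of a prime. -/
noncomputable def D0 : PD := ⟨(nat_lit 7), (nat_lit 9), (1562932, 1, 2), (36264346, 14618947, 12267798), (17529001, 32002150, 38949929)⟩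

theorem D0_ok : D0.Ok := pdb_sound (s := 1) (C := ⟨⟨7, -2, -11, 7, 2, 4, 0, 3, -1⟩, (5, 2, 3)⟩) (by show Nat.Prime 7; norm_num) (by decide +kernel)

/-- Lines of the first type. -/
noncomputable def Cl0 : List C1 := [⟨⟨7, 2, -11, 7, -2, 4, 0, -3, -1⟩, (6, 1, 5)⟩,
  ⟨⟨0, 0, 0, 0, 0, 0, 0, 0, 0⟩, (0, 0, 0)⟩,
  ⟨⟨0, 0, 0, 0, 0, 0, 0, 0, 0⟩, (0, 0, 0)⟩,
  ⟨⟨0, 0, 0, 0, 0, 0, 0, 0, 0⟩, (0, 0, 0)⟩,
  ⟨⟨0, 0, 0, 0, 0, 0, 0, 0, 0⟩, (0, 0, 0)⟩,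
  ⟨⟨0, 0, 0, 0, 0, 0, 0, 0, 0⟩, (0, 0, 0)⟩,
  ⟨⟨0, 0, 0, 0, 0, 0, 0, 0, 0⟩, (0, 0, 0)⟩]

/-- Data of a prime. -/
noncomputable def D1 : PD := ⟨(nat_lit 31), (nat_lit 4), (701965, 8, 13), (856532, 861885, 201127), (191905, 134505, 170383)⟩

theorem D1_ok : D1.Ok := pdb_sound (s := 3) (C := ⟨⟨11, 26, -43, -19, 34, 32, -12, -3, -1⟩, (11, 12, 19)⟩) (by show Nat.Prime 31; norm_num) (by decide +kernel)

/-- Lines of the first type. -/
noncomputable def Cl1 : List C1 := [⟨⟨-11, -26, -32, 19, -34, 13, 12, 3, -13⟩, (22, 24, 7)⟩,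
  ⟨⟨0, 0, 0, 0, 0, 0, 0, 0, 0⟩, (0, 0, 0)⟩,
  ⟨⟨0, 0, 0, 0, 0, 0, 0, 0, 0⟩, (0, 0, 0)⟩,
  ⟨⟨29, 26, -37, 21, 6, 32, 8, -11, -7⟩, (2, 10, 23)⟩,
  ⟨⟨0, 0, 0, 0, 0, 0, 0, 0, 0⟩, (0, 0, 0)⟩,
  ⟨⟨21, 6, -53, 29, 26, 8, 8, -11, -1⟩, (6, 26, 20)⟩,
  ⟨⟨0, 0, 0, 0, 0, 0, 0, 0, 0⟩, (0, 0, 0)⟩,
  ⟨⟨29, -26, -37, 21, -6, 32, 8, 11, -7⟩, (27, 11, 16)⟩,
  ⟨⟨0, 0, 0, 0, 0, 0, 0, 0, 0⟩, (0, 0, 0)⟩,
  ⟨⟨-9, -6, -43, -41, 14, 28, 4, 13, -5⟩, (4, 1, 12)⟩,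
  ⟨⟨9, -6, -52, -41, -14, 13, -4, 13, -1⟩, (29, 16, 25)⟩,
  ⟨⟨21, -6, -53, 29, -26, 8, 8, 11, -1⟩, (7, 20, 13)⟩,
  ⟨⟨9, 6, -52, -41, 14, 13, -4, -13, -1⟩, (28, 24, 22)⟩,
  ⟨⟨0, 0, 0, 0, 0, 0, 0, 0, 0⟩, (0, 0, 0)⟩,
  ⟨⟨0, 0, 0, 0, 0, 0, 0, 0, 0⟩, (0, 0, 0)⟩,
  ⟨⟨0, 0, 0, 0, 0, 0, 0, 0, 0⟩, (0, 0, 0)⟩,
  ⟨⟨11, -26, -43, -19, -34, 32, -12, 3, -1⟩, (25, 16, 15)⟩,
  ⟨⟨-9, 6, -43, -41, -14, 28, 4, -13, -5⟩, (3, 24, 9)⟩,
  ⟨⟨0, 0, 0, 0, 0, 0, 0, 0, 0⟩, (0, 0, 0)⟩,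
  ⟨⟨0, 0, 0, 0, 0, 0, 0, 0, 0⟩, (0, 0, 0)⟩,
  ⟨⟨0, 0, 0, 0, 0, 0, 0, 0, 0⟩, (0, 0, 0)⟩,
  ⟨⟨0, 0, 0, 0, 0, 0, 0, 0, 0⟩, (0, 0, 0)⟩,
  ⟨⟨0, 0, 0, 0, 0, 0, 0, 0, 0⟩, (0, 0, 0)⟩,
  ⟨⟨0, 0, 0, 0, 0, 0, 0, 0, 0⟩, (0, 0, 0)⟩,
  ⟨⟨0, 0, 0, 0, 0, 0, 0, 0, 0⟩, (0, 0, 0)⟩,
  ⟨⟨0, 0, 0, 0, 0, 0, 0, 0, 0⟩, (0, 0, 0)⟩,
  ⟨⟨0, 0, 0, 0, 0, 0, 0, 0, 0⟩, (0, 0, 0)⟩,
  ⟨⟨0, 0, 0, 0, 0, 0, 0, 0, 0⟩, (0, 0, 0)⟩,
  ⟨⟨0, 0, 0, 0, 0, 0, 0, 0, 0⟩, (0, 0, 0)⟩,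
  ⟨⟨0, 0, 0, 0, 0, 0, 0, 0, 0⟩, (0, 0, 0)⟩,
  ⟨⟨-11, 26, -32, 19, 34, 13, 12, -3, -13⟩, (28, 8, 23)⟩]

/-- Data of a prime. -/
noncomputable def Dm : PD := ⟨(nat_lit 43), (nat_lit 2), (989, 1, 17), (1652, 774, 636), (172, 5, 130)⟩

theorem Dm_ok : Dm.Ok := pdb_sound (s := 1) (C := ⟨⟨43, -38, -44, 43, 38, 1, 0, 9, -19⟩, (5, 38, 9)⟩) (by show Nat.Prime 43; norm_num) (by decide +kernel)

/-- Lines of the first type. -/
noncomputable def Clm : List C1 := [⟨⟨43, 38, -44, 43, -38, 1, 0, -9, -19⟩, (42, 1, 24)⟩,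
  ⟨⟨0, 0, 0, 0, 0, 0, 0, 0, 0⟩, (0, 0, 0)⟩,
  ⟨⟨57, -18, -16, -17, -58, 1, 4, 1, -23⟩, (41, 27, 24)⟩,
  ⟨⟨7, -38, -56, -33, -42, 49, -16, 7, -1⟩, (28, 40, 22)⟩,
  ⟨⟨0, 0, 0, 0, 0, 0, 0, 0, 0⟩, (0, 0, 0)⟩,
  ⟨⟨0, 0, 0, 0, 0, 0, 0, 0, 0⟩, (0, 0, 0)⟩,
  ⟨⟨0, 0, 0, 0, 0, 0, 0, 0, 0⟩, (0, 0, 0)⟩,
  ⟨⟨0, 0, 0, 0, 0, 0, 0, 0, 0⟩, (0, 0, 0)⟩,
  ⟨⟨0, 0, 0, 0, 0, 0, 0, 0, 0⟩, (0, 0, 0)⟩,
  ⟨⟨0, 0, 0, 0, 0, 0, 0, 0, 0⟩, (0, 0, 0)⟩,
  ⟨⟨0, 0, 0, 0, 0, 0, 0, 0, 0⟩, (0, 0, 0)⟩,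
  ⟨⟨27, -18, -71, -53, -22, 4, -4, 17, -7⟩, (6, 36, 23)⟩,
  ⟨⟨0, 0, 0, 0, 0, 0, 0, 0, 0⟩, (0, 0, 0)⟩,
  ⟨⟨0, 0, 0, 0, 0, 0, 0, 0, 0⟩, (0, 0, 0)⟩,
  ⟨⟨-7, -2, -64, -47, -38, 31, 12, -15, -7⟩, (37, 15, 41)⟩,
  ⟨⟨-7, 2, -64, -47, 38, 31, 12, 15, -7⟩, (3, 14, 1)⟩,
  ⟨⟨-7, 38, -49, 33, 42, 16, 16, -7, -17⟩, (27, 14, 12)⟩,
  ⟨⟨0, 0, 0, 0, 0, 0, 0, 0, 0⟩, (0, 0, 0)⟩,
  ⟨⟨0, 0, 0, 0, 0, 0, 0, 0, 0⟩, (0, 0, 0)⟩,
  ⟨⟨57, 18, -16, -17, 58, 1, 4, -1, -23⟩, (36, 30, 41)⟩,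
  ⟨⟨53, 22, -49, 27, -18, 44, 4, -17, -11⟩, (6, 42, 11)⟩,
  ⟨⟨0, 0, 0, 0, 0, 0, 0, 0, 0⟩, (0, 0, 0)⟩,
  ⟨⟨0, 0, 0, 0, 0, 0, 0, 0, 0⟩, (0, 0, 0)⟩,
  ⟨⟨27, 18, -71, -53, 22, 4, -4, -17, -7⟩, (1, 6, 11)⟩,
  ⟨⟨57, -18, -41, -17, -58, 16, -4, -1, -19⟩, (7, 13, 41)⟩,
  ⟨⟨0, 0, 0, 0, 0, 0, 0, 0, 0⟩, (0, 0, 0)⟩,
  ⟨⟨0, 0, 0, 0, 0, 0, 0, 0, 0⟩, (0, 0, 0)⟩,
  ⟨⟨7, 38, -56, -33, 42, 49, -16, -7, -1⟩, (27, 14, 12)⟩,
  ⟨⟨7, 2, -71, -47, -38, 16, 12, -15, -5⟩, (3, 29, 42)⟩,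
  ⟨⟨7, -2, -71, -47, 38, 16, 12, 15, -5⟩, (37, 28, 2)⟩,
  ⟨⟨0, 0, 0, 0, 0, 0, 0, 0, 0⟩, (0, 0, 0)⟩,
  ⟨⟨0, 0, 0, 0, 0, 0, 0, 0, 0⟩, (0, 0, 0)⟩,
  ⟨⟨53, -22, -49, 27, 18, 44, 4, 17, -11⟩, (36, 37, 23)⟩,
  ⟨⟨0, 0, 0, 0, 0, 0, 0, 0, 0⟩, (0, 0, 0)⟩,
  ⟨⟨0, 0, 0, 0, 0, 0, 0, 0, 0⟩, (0, 0, 0)⟩,
  ⟨⟨0, 0, 0, 0, 0, 0, 0, 0, 0⟩, (0, 0, 0)⟩,
  ⟨⟨0, 0, 0, 0, 0, 0, 0, 0, 0⟩, (0, 0, 0)⟩,
  ⟨⟨0, 0, 0, 0, 0, 0, 0, 0, 0⟩, (0, 0, 0)⟩,
  ⟨⟨0, 0, 0, 0, 0, 0, 0, 0, 0⟩, (0, 0, 0)⟩,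
  ⟨⟨0, 0, 0, 0, 0, 0, 0, 0, 0⟩, (0, 0, 0)⟩,
  ⟨⟨-7, -38, -49, 33, -42, 16, 16, 7, -17⟩, (28, 40, 22)⟩,
  ⟨⟨57, 18, -41, -17, 58, 16, -4, 1, -19⟩, (2, 16, 24)⟩,
  ⟨⟨0, 0, 0, 0, 0, 0, 0, 0, 0⟩, (0, 0, 0)⟩]

/-- Unit moves. -/
noncomputable def U : List Mv := [mz,
  mz,
  ⟨⟨1, 0, 0, 0, -1, 0, 0, 0, 1⟩, .nil, (nat_lit 0), (nat_lit 2), (nat_lit 1), (nat_lit 0), (0, 0, 0), [], 2⟩,
  mz,
  ⟨⟨-1, 0, 1, 0, 1, 0, 0, 0, 1⟩, .nil, (nat_lit 6), (nat_lit 0), (nat_lit 0), (nat_lit 1), (0, 0, 0), [], 1⟩,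
  ⟨⟨-1, 0, 1, 0, -1, 0, 0, 0, 1⟩, .nil, (nat_lit 0), (nat_lit 5), (nat_lit 1), (nat_lit 0), (0, 0, 0), [], 2⟩,
  ⟨⟨-1, 0, 1, 0, 1, 0, 0, 0, 1⟩, .nil, (nat_lit 6), (nat_lit 0), (nat_lit 0), (nat_lit 1), (0, 0, 0), [], 1⟩]

theorem v_ty : tyb Dm S.ty1 Clm = true := by decide +kernel

theorem v_ty0 : tyb D0 (S.tys.getD 0 0) Cl0 = true := by decide +kernel

theorem v_ty1 : tyb D1 (S.tys.getD 1 0) Cl1 = true := by decide +kernel

theorem v_msc : mscb S D0 [D1] Dm (nat_lit 10) = true := by decide +kernel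

theorem v_mv0 : mvsn (nat_lit 68907429053466703) S D0 [D1] Dm (nat_lit 10) 0 D0 = true := by decide +kernel

theorem v_mv1 : mvsn (nat_lit 68907429053466703) S D0 [D1] Dm (nat_lit 10) 1 D1 = true := by decide +kernel

theorem v_mm : mmsn (nat_lit 68907429053466703) S D0 [D1] Dm (nat_lit 10) = true := by decide +kernel

theorem v_un : unb S D0 (nat_lit 10) U = true := by decide +kernel

theorem v_ok : okb S.oks [(2, 9, 0), (0, 0, 0), (0, 0, 0), (0, 0, 0)] = true := by decide +kernel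

theorem v_part : ∀ d < D0.p, (nat_lit 10).testBit d = true → part S (zc (D0 :: [D1])) d = true := by
  intro d hd h
  have h1 : ∀ d < 7, (nat_lit 10).testBit d = true → d = 1 ∨ d = 3 := by decide
  rcases h1 d hd h with rfl | rfl
  · exact part_1
  · exact part_3

theorem main (n : ℕ) (ho : Odd n) (hr : ¬ Rep n) (h0 : Split 7 n) (h1 : Split 31 n) (hm : Split 43 n) :
    n ∈ EE := by
  refine concln (W := nat_lit 68907429053466703) (S := S) (P0 := D0) (Pl := [D1]) (Pm := Dm) (cn := nat_lit 10) ?_ Dm_ok v_ty ?_ ?_ v_msc ?_ v_mm v_un v_part v_ok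
    n ho hr ?_ hm
  · simp only [List.forall_mem_cons]
    exact ⟨D0_ok, D1_ok, fun _ h => absurd h (by simp)⟩
  · exact all2 (φ := fun j P => ∃ L, tyb P (S.tys.getD j 0) L = true) ⟨_, v_ty0⟩ ⟨_, v_ty1⟩
  · exact all2 (φ := fun j P => Nat.ble (S.pks.getD j 0) (Nat.pow P.p P.K) = true) (by decide +kernel) (by decide +kernel)
  · exact all2 (φ := fun i P => mvsn (nat_lit 68907429053466703) S D0 [D1] Dm (nat_lit 10) i P = true) v_mv0 v_mv1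
  · simp only [List.forall_mem_cons]
    exact ⟨h0, h1, fun _ h => absurd h (by simp)⟩

end Pool.Agent.Work.MP_9954fe_nt.P7_31_43

namespace Pool.Agent.Work.MP_9954fe_nt.P11_43_47

/-- Dummy move. -/
noncomputable def mz : Mv := ⟨⟨0, 0, 0, 0, 0, 0, 0, 0, 0⟩, .nil, (nat_lit 0), (nat_lit 0), (nat_lit 0), (nat_lit 0), (0, 0, 0), [], 0⟩

/-- Moves. -/
noncomputable def t0_1 : List Mv := [
  ⟨⟨3, 8, -11, -10, -1, 0, 4, -4, -11⟩, (.cons (nat_lit 205) (nat_lit 45) (nat_lit 482) (nat_lit 1) (.cons (nat_lit 1) (nat_lit 827) (nat_lit 165) (nat_lit 1) .nil)), (nat_lit 1), (nat_lit 30), (nat_lit 15), (nat_lit 1), (4, 5, 9), [189, 1455], 4⟩,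
  ⟨⟨3, 8, -11, 10, 1, 0, 4, -4, -11⟩, (.cons (nat_lit 123) (nat_lit 960) (nat_lit 136) (nat_lit 1) (.cons (nat_lit 197) (nat_lit 967) (nat_lit 13) (nat_lit 1) .nil)), (nat_lit 21), (nat_lit 39), (nat_lit 11), (nat_lit 1), (4, 6, 9), [1, 712], 24⟩,
  ⟨⟨1, -12, 0, 10, 1, 0, 4, -4, -11⟩, (.cons (nat_lit 1209) (nat_lit 831) (nat_lit 832) (nat_lit 1) (.cons (nat_lit 749) (nat_lit 839) (nat_lit 701) (nat_lit 1) .nil)), (nat_lit 26), (nat_lit 8), (nat_lit 11), (nat_lit 1), (5, 6, 9), [725, 884], 24⟩,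
  ⟨⟨1, -12, 0, -10, -1, 0, 4, -4, -11⟩, (.cons (nat_lit 162) (nat_lit 200) (nat_lit 173) (nat_lit 1) (.cons
 (nat_lit 1848) (nat_lit 76) (nat_lit 982) (nat_lit 1) .nil)), (nat_lit 46), (nat_lit 17), (nat_lit 15),
 (nat_lit 1), (5, 5, 9), [168, 1842], 4⟩,
  ⟨⟨1, -12, 0, -10, -1, 0, 4, -4, -11⟩, (.cons (nat_lit 162) (nat_lit 200) (nat_lit 173) (nat_lit 1) (.cons
 (nat_lit 1848) (nat_lit 76) (nat_lit 982) (nat_lit 1) .nil)), (nat_lit 46), (nat_lit 17), (nat_lit 15),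
 (nat_lit 1), (5, 5, 9), [168, 1842], 4⟩,
  ⟨⟨1, -12, 0, 10, 1, 0, 4, -4, -11⟩, (.cons (nat_lit 1209) (nat_lit 831) (nat_lit 832) (nat_lit 1) (.cons (nat_lit 749) (nat_lit 839) (nat_lit 701) (nat_lit 1) .nil)), (nat_lit 26), (nat_lit 8), (nat_lit 11), (nat_lit 1), (5, 6, 9), [725, 884], 24⟩,
  ⟨⟨1, -12, 0, -10, -1, 0, 4, -4, -11⟩, (.cons (nat_lit 162) (nat_lit 200) (nat_lit 173) (nat_lit 1) (.cons
 (nat_lit 1848) (nat_lit 76) (nat_lit 982) (nat_lit 1) .nil)), (nat_lit 46), (nat_lit 17), (nat_lit 15),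
 (nat_lit 1), (5, 5, 9), [168, 1842], 4⟩,
  ⟨⟨3, 8, -11, 10, 1, 0, 4, -4, -11⟩, (.cons (nat_lit 123) (nat_lit 960) (nat_lit 136) (nat_lit 1) (.cons (nat_lit 197) (nat_lit 967) (nat_lit 13) (nat_lit 1) .nil)), (nat_lit 21), (nat_lit 39), (nat_lit 11), (nat_lit 1), (4, 6, 9), [1, 712], 24⟩,
  ⟨⟨1, -12, 0, -10, -1, 0, 4, -4, -11⟩, (.cons (nat_lit 162) (nat_lit 200) (nat_lit 173) (nat_lit 1) (.cons
 (nat_lit 1848) (nat_lit 76) (nat_lit 982) (nat_lit 1) .nil)), (nat_lit 46), (nat_lit 17), (nat_lit 15),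
 (nat_lit 1), (5, 5, 9), [168, 1842], 4⟩,
  ⟨⟨3, 8, -11, -10, -1, 0, 4, -4, -11⟩, (.cons (nat_lit 205) (nat_lit 45) (nat_lit 482) (nat_lit 1) (.cons (nat_lit 1) (nat_lit 827) (nat_lit 165) (nat_lit 1) .nil)), (nat_lit 1), (nat_lit 30), (nat_lit 15), (nat_lit 1), (4, 5, 9), [189, 1455], 4⟩,
  ⟨⟨1, -12, 0, -10, -1, 0, 4, -4, -11⟩, (.cons (nat_lit 162) (nat_lit 200) (nat_lit 173) (nat_lit 1) (.cons
 (nat_lit 1848) (nat_lit 76) (nat_lit 982) (nat_lit 1) .nil)), (nat_lit 46), (nat_lit 17), (nat_lit 15),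
 (nat_lit 1), (5, 5, 9), [168, 1842], 4⟩]

/-- Moves. -/
noncomputable def t0_4 : List Mv := [
  ⟨⟨-11, 0, 0, -4, 5, 12, -2, 8, -5⟩, (.cons (nat_lit 567) (nat_lit 375) (nat_lit 810) (nat_lit 1) (.cons
 (nat_lit 1848) (nat_lit 1517) (nat_lit 679) (nat_lit 1) .nil)), (nat_lit 46), (nat_lit 30), (nat_lit 43),
 (nat_lit 1), (0, 5, 8), [285, 188], 40⟩,
  ⟨⟨9, 8, -5, 4, -5, -12, -2, 8, -5⟩, (.cons (nat_lit 449) (nat_lit 666) (nat_lit 424) (nat_lit 1) (.cons (nat_lit 308) (nat_lit 520) (nat_lit 1057) (nat_lit 1) .nil)), (nat_lit 15), (nat_lit 8), (nat_lit 36), (nat_lit 1), (8, 6, 8), [237, 1729], 5⟩,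
  ⟨⟨9, 8, -5, 4, -5, -12, -2, 8, -5⟩, (.cons (nat_lit 449) (nat_lit 666) (nat_lit 424) (nat_lit 1) (.cons (nat_lit 308) (nat_lit 520) (nat_lit 1057) (nat_lit 1) .nil)), (nat_lit 15), (nat_lit 8), (nat_lit 36), (nat_lit 1), (8, 6, 8), [237, 1729], 5⟩,
  ⟨⟨9, 8, -5, 4, -5, -12, -2, 8, -5⟩, (.cons (nat_lit 449) (nat_lit 666) (nat_lit 424) (nat_lit 1) (.cons (nat_lit 308) (nat_lit 520) (nat_lit 1057) (nat_lit 1) .nil)), (nat_lit 15), (nat_lit 8), (nat_lit 36), (nat_lit 1), (8, 6, 8), [237, 1729], 5⟩,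
  ⟨⟨9, 8, -5, -4, 5, 12, -2, 8, -5⟩, (.cons (nat_lit 64) (nat_lit 1278) (nat_lit 716) (nat_lit 1) (.cons (nat_lit 87) (nat_lit 934) (nat_lit 1754) (nat_lit 1) .nil)), (nat_lit 1), (nat_lit 17), (nat_lit 43), (nat_lit 1), (8, 5, 8), [587, 1134], 40⟩,
  ⟨⟨-11, 0, 0, 4, -5, -12, -2, 8, -5⟩, (.cons (nat_lit 850) (nat_lit 1279) (nat_lit 109) (nat_lit 1) (.cons
 (nat_lit 853) (nat_lit 1630) (nat_lit 1315) (nat_lit 1) .nil)), (nat_lit 32), (nat_lit 39), (nat_lit 36),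
 (nat_lit 1), (0, 6, 8), [137, 1213], 5⟩,
  ⟨⟨9, 8, -5, 4, -5, -12, -2, 8, -5⟩, (.cons (nat_lit 449) (nat_lit 666) (nat_lit 424) (nat_lit 1) (.cons (nat_lit 308) (nat_lit 520) (nat_lit 1057) (nat_lit 1) .nil)), (nat_lit 15), (nat_lit 8), (nat_lit 36), (nat_lit 1), (8, 6, 8), [237, 1729], 5⟩,
  ⟨⟨9, 8, -5, -4, 5, 12, -2, 8, -5⟩, (.cons (nat_lit 64) (nat_lit 1278) (nat_lit 716) (nat_lit 1) (.cons (nat_lit 87) (nat_lit 934) (nat_lit 1754) (nat_lit 1) .nil)), (nat_lit 1), (nat_lit 17), (nat_lit 43), (nat_lit 1), (8, 5, 8), [587, 1134], 40⟩,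
  ⟨⟨-11, 0, 0, 4, -5, -12, -2, 8, -5⟩, (.cons (nat_lit 850) (nat_lit 1279) (nat_lit 109) (nat_lit 1) (.cons
 (nat_lit 853) (nat_lit 1630) (nat_lit 1315) (nat_lit 1) .nil)), (nat_lit 32), (nat_lit 39), (nat_lit 36),
 (nat_lit 1), (0, 6, 8), [137, 1213], 5⟩,
  ⟨⟨9, 8, -5, 4, -5, -12, -2, 8, -5⟩, (.cons (nat_lit 449) (nat_lit 666) (nat_lit 424) (nat_lit 1) (.cons (nat_lit 308) (nat_lit 520) (nat_lit 1057) (nat_lit 1) .nil)), (nat_lit 15), (nat_lit 8), (nat_lit 36), (nat_lit 1), (8, 6, 8), [237, 1729], 5⟩,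
  ⟨⟨9, 8, -5, 4, -5, -12, -2, 8, -5⟩, (.cons (nat_lit 449) (nat_lit 666) (nat_lit 424) (nat_lit 1) (.cons (nat_lit 308) (nat_lit 520) (nat_lit 1057) (nat_lit 1) .nil)), (nat_lit 15), (nat_lit 8), (nat_lit 36), (nat_lit 1), (8, 6, 8), [237, 1729], 5⟩]

/-- Moves. -/
noncomputable def t1_1 : List Mv := [
  mz,
  ⟨⟨3, 44, -20, 2, 15, 44, 36, 12, -25⟩, (.cons (nat_lit 1049) (nat_lit 102) (nat_lit 1010) (nat_lit 1) (.cons
 (nat_lit 1146) (nat_lit 1615) (nat_lit 185) (nat_lit 1) .nil)), (nat_lit 8), (nat_lit 19), (nat_lit 38),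
 (nat_lit 1), (36, 24, 2), [892, 60], 36⟩,
  mz,
  mz,
  ⟨⟨19, 36, -36, 20, 13, 30, 34, -8, -35⟩, (.cons (nat_lit 1248) (nat_lit 1219) (nat_lit 442) (nat_lit 1)
 (.cons (nat_lit 1439) (nat_lit 321) (nat_lit 745) (nat_lit 1) .nil)), (nat_lit 34), (nat_lit 11), (nat_lit
 42), (nat_lit 1), (14, 17, 16), [827, 815], 20⟩,
  ⟨⟨33, -32, -28, 2, 15, -46, 36, 12, -11⟩, (.cons (nat_lit 794) (nat_lit 664) (nat_lit 730) (nat_lit 1) (.cons
 (nat_lit 667) (nat_lit 738) (nat_lit 1461) (nat_lit 1) .nil)), (nat_lit 14), (nat_lit 27), (nat_lit 24),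
 (nat_lit 1), (19, 22, 9), [36, 416], 45⟩,
  ⟨⟨-37, -24, 0, 20, -37, 0, 2, -8, -43⟩, (.cons (nat_lit 839) (nat_lit 1192) (nat_lit 1205) (nat_lit 1) (.cons
 (nat_lit 1242) (nat_lit 735) (nat_lit 952) (nat_lit 1) .nil)), (nat_lit 5), (nat_lit 37), (nat_lit 45),
 (nat_lit 1), (12, 40, 4), [947, 1405], 34⟩,
  ⟨⟨33, 8, -53, -20, -27, -20, 30, -24, -13⟩, (.cons (nat_lit 667) (nat_lit 579) (nat_lit 629) (nat_lit 1)
 (.cons (nat_lit 1484) (nat_lit 81) (nat_lit 949) (nat_lit 1) .nil)), (nat_lit 1), (nat_lit 45), (nat_lit 36),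
 (nat_lit 1), (32, 21, 33), [268, 1425], 10⟩,
  ⟨⟨-39, -16, -4, 20, -37, -20, -2, 8, -41⟩, (.cons (nat_lit 158) (nat_lit 254) (nat_lit 516) (nat_lit 1)
 (.cons (nat_lit 962) (nat_lit 777) (nat_lit 1488) (nat_lit 1) .nil)), (nat_lit 19), (nat_lit 45), (nat_lit 9),
 (nat_lit 1), (6, 30, 40), [159, 1438], 7⟩,
  ⟨⟨47, 0, -20, 0, -43, 0, 18, 0, -47⟩, (.cons (nat_lit 1330) (nat_lit 1315) (nat_lit 1015) (nat_lit 1) (.cons
 (nat_lit 1119) (nat_lit 1347) (nat_lit 540) (nat_lit 1) .nil)), (nat_lit 46), (nat_lit 36), (nat_lit 26),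
 (nat_lit 1), (34, 0, 24), [833, 396], 35⟩,
  ⟨⟨21, -20, 31, 38, 15, -34, 12, -36, -13⟩, (.cons (nat_lit 302) (nat_lit 1256) (nat_lit 1264) (nat_lit 1)
 (.cons (nat_lit 1841) (nat_lit 1697) (nat_lit 681) (nat_lit 1) .nil)), (nat_lit 39), (nat_lit 2), (nat_lit
 15), (nat_lit 1), (8, 37, 23), [777, 40], 36⟩,
  mz,
  ⟨⟨-19, -36, -17, 20, 13, -50, -34, 8, -1⟩, (.cons (nat_lit 1157) (nat_lit 994) (nat_lit 698) (nat_lit 1)
 (.cons (nat_lit 754) (nat_lit 1541) (nat_lit 147) (nat_lit 1) .nil)), (nat_lit 29), (nat_lit 27), (nat_lit 2),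
 (nat_lit 1), (24, 20, 9), [378, 195], 41⟩,
  ⟨⟨33, 8, 20, 20, 27, -40, 30, -24, -17⟩, (.cons (nat_lit 1330) (nat_lit 997) (nat_lit 17) (nat_lit 1) (.cons
 (nat_lit 290) (nat_lit 1037) (nat_lit 879) (nat_lit 1) .nil)), (nat_lit 46), (nat_lit 8), (nat_lit 9),
 (nat_lit 1), (4, 35, 31), [793, 1525], 37⟩,
  mz,
  mz,
  mz,
  ⟨⟨5, 36, 31, -40, 13, 10, 14, 32, -25⟩, (.cons (nat_lit 695) (nat_lit 509) (nat_lit 234) (nat_lit 1) (.cons
 (nat_lit 1700) (nat_lit 954) (nat_lit 124) (nat_lit 1) .nil)), (nat_lit 29), (nat_lit 37), (nat_lit 4),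
 (nat_lit 1), (1, 35, 20), [598, 109], 41⟩,
  ⟨⟨-9, 4, -47, -40, 13, 30, -14, -32, -11⟩, (.cons (nat_lit 589) (nat_lit 174) (nat_lit 157) (nat_lit 1)
 (.cons (nat_lit 1592) (nat_lit 1062) (nat_lit 1523) (nat_lit 1) .nil)), (nat_lit 13), (nat_lit 25), (nat_lit
 21), (nat_lit 1), (37, 2, 5), [694, 1657], 20⟩,
  mz,
  mz,
  ⟨⟨21, 20, 31, -38, 15, 34, 12, 36, -13⟩, (.cons (nat_lit 1282) (nat_lit 855) (nat_lit 624) (nat_lit 1) (.cons
 (nat_lit 658) (nat_lit 343) (nat_lit 701) (nat_lit 1) .nil)), (nat_lit 41), (nat_lit 27), (nat_lit 40),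
 (nat_lit 1), (12, 9, 13), [1020, 1264], 27⟩,
  ⟨⟨9, 16, -53, -38, -15, 4, -12, 36, -1⟩, (.cons (nat_lit 799) (nat_lit 1235) (nat_lit 876) (nat_lit 1) (.cons
 (nat_lit 778) (nat_lit 957) (nat_lit 1480) (nat_lit 1) .nil)), (nat_lit 10), (nat_lit 35), (nat_lit 42),
 (nat_lit 1), (1, 34, 13), [883, 752], 12⟩,
  mz,
  mz,
  ⟨⟨9, 4, -56, -40, -13, 10, 14, -32, -25⟩, (.cons (nat_lit 1274) (nat_lit 1199) (nat_lit 921) (nat_lit 1)
 (.cons (nat_lit 562) (nat_lit 738) (nat_lit 1644) (nat_lit 1) .nil)), (nat_lit 23), (nat_lit 28), (nat_lit 7),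
 (nat_lit 1), (37, 41, 5), [361, 1615], 13⟩,
  ⟨⟨-5, 36, 36, 40, 13, -30, -14, 32, -11⟩, (.cons (nat_lit 449) (nat_lit 1041) (nat_lit 1192) (nat_lit 1)
 (.cons (nat_lit 1289) (nat_lit 967) (nat_lit 677) (nat_lit 1) .nil)), (nat_lit 18), (nat_lit 37), (nat_lit
 43), (nat_lit 1), (1, 35, 20), [305, 1176], 41⟩,
  mz,
  mz,
  mz,
  ⟨⟨33, -8, -53, -20, 27, -20, 30, 24, -13⟩, (.cons (nat_lit 598) (nat_lit 462) (nat_lit 429) (nat_lit 1)
 (.cons (nat_lit 210) (nat_lit 822) (nat_lit 830) (nat_lit 1) .nil)), (nat_lit 35), (nat_lit 17), (nat_lit 6),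
 (nat_lit 1), (39, 35, 12), [304, 231], 33⟩,
  ⟨⟨19, -36, -36, -20, 13, -30, 34, 8, -35⟩, (.cons (nat_lit 1238) (nat_lit 207) (nat_lit 1176) (nat_lit 1)
 (.cons (nat_lit 732) (nat_lit 1769) (nat_lit 1001) (nat_lit 1) .nil)), (nat_lit 18), (nat_lit 27), (nat_lit
 45), (nat_lit 1), (24, 20, 9), [733, 1305], 41⟩,
  mz,
  ⟨⟨-21, -20, 52, 38, -15, -4, -12, -36, -1⟩, (.cons (nat_lit 1168) (nat_lit 999) (nat_lit 762) (nat_lit 1)
 (.cons (nat_lit 269) (nat_lit 445) (nat_lit 1731) (nat_lit 1) .nil)), (nat_lit 14), (nat_lit 21), (nat_lit 4),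
 (nat_lit 1), (8, 6, 23), [305, 842], 2⟩,
  ⟨⟨-47, 0, 27, 0, -43, 0, -18, 0, -29⟩, (.cons (nat_lit 888) (nat_lit 812) (nat_lit 961) (nat_lit 1) (.cons
 (nat_lit 203) (nat_lit 1746) (nat_lit 787) (nat_lit 1) .nil)), (nat_lit 1), (nat_lit 36), (nat_lit 21),
 (nat_lit 1), (34, 0, 24), [181, 92], 35⟩,
  ⟨⟨-37, 24, 0, -20, -37, 0, 2, 8, -43⟩, (.cons (nat_lit 257) (nat_lit 1117) (nat_lit 438) (nat_lit 1) (.cons
 (nat_lit 1602) (nat_lit 1529) (nat_lit 740) (nat_lit 1) .nil)), (nat_lit 19), (nat_lit 2), (nat_lit 38),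
 (nat_lit 1), (34, 30, 40), [720, 119], 7⟩,
  ⟨⟨-3, 32, -37, -20, 27, 40, 30, 24, -17⟩, (.cons (nat_lit 888) (nat_lit 945) (nat_lit 468) (nat_lit 1) (.cons
 (nat_lit 1353) (nat_lit 1819) (nat_lit 740) (nat_lit 1) .nil)), (nat_lit 1), (nat_lit 2), (nat_lit 11),
 (nat_lit 1), (42, 22, 10), [1064, 1365], 37⟩,
  ⟨⟨-39, 16, -4, 20, 37, -20, -2, -8, -41⟩, (.cons (nat_lit 1330) (nat_lit 972) (nat_lit 557) (nat_lit 1)
 (.cons (nat_lit 1716) (nat_lit 1629) (nat_lit 1047) (nat_lit 1) .nil)), (nat_lit 46), (nat_lit 23), (nat_lit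
 24), (nat_lit 1), (35, 3, 4), [106, 931], 3⟩,
  ⟨⟨3, -44, -20, -2, 15, -44, 36, -12, -25⟩, (.cons (nat_lit 588) (nat_lit 1263) (nat_lit 778) (nat_lit 1)
 (.cons (nat_lit 1151) (nat_lit 538) (nat_lit 1) (nat_lit 989) .nil)), (nat_lit 6), (nat_lit 35), (nat_lit 43),
 (nat_lit 1), (10, 22, 34), [188, 666], 27⟩,
  ⟨⟨-15, -44, 16, 20, -13, -50, -34, -8, -1⟩, (.cons (nat_lit 467) (nat_lit 418) (nat_lit 1137) (nat_lit 1)
 (.cons (nat_lit 752) (nat_lit 324) (nat_lit 608) (nat_lit 1) .nil)), (nat_lit 45), (nat_lit 9), (nat_lit 14),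
 (nat_lit 1), (2, 26, 16), [148, 246], 5⟩,
  mz,
  mz,
  ⟨⟨33, 32, -28, 2, -15, -46, 36, -12, -11⟩, (.cons (nat_lit 680) (nat_lit 597) (nat_lit 1174) (nat_lit 1)
 (.cons (nat_lit 610) (nat_lit 1464) (nat_lit 758) (nat_lit 1) .nil)), (nat_lit 8), (nat_lit 28), (nat_lit 9),
 (nat_lit 1), (34, 19, 41), [1294, 1551], 11⟩]

/-- Moves. -/
noncomputable def t1_4 : List Mv := [
  mz,
  ⟨⟨33, -32, -5, 2, 15, 44, 36, 12, -25⟩, (.cons (nat_lit 1168) (nat_lit 941) (nat_lit 556) (nat_lit 1) (.cons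
 (nat_lit 1778) (nat_lit 234) (nat_lit 615) (nat_lit 1) .nil)), (nat_lit 39), (nat_lit 28), (nat_lit 38),
 (nat_lit 1), (9, 24, 2), [1220, 1608], 36⟩,
  mz,
  mz,
  ⟨⟨15, -44, 1, 20, 13, 30, 34, -8, -35⟩, (.cons (nat_lit 1128) (nat_lit 840) (nat_lit 917) (nat_lit 1) (.cons
 (nat_lit 1571) (nat_lit 883) (nat_lit 1347) (nat_lit 1) .nil)), (nat_lit 13), (nat_lit 36), (nat_lit 42),
 (nat_lit 1), (2, 17, 16), [848, 772], 20⟩,
  ⟨⟨3, 44, 17, 2, 15, -46, 36, 12, -11⟩, (.cons (nat_lit 668) (nat_lit 240) (nat_lit 472) (nat_lit 1) (.cons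
 (nat_lit 1483) (nat_lit 724) (nat_lit 128) (nat_lit 1) .nil)), (nat_lit 33), (nat_lit 20), (nat_lit 24),
 (nat_lit 1), (33, 22, 9), [138, 588], 45⟩,
  ⟨⟨39, 16, -43, 20, -37, 0, 2, -8, -43⟩, (.cons (nat_lit 12) (nat_lit 1120) (nat_lit 1181) (nat_lit 1) (.cons
 (nat_lit 349) (nat_lit 1415) (nat_lit 436) (nat_lit 1) .nil)), (nat_lit 42), (nat_lit 10), (nat_lit 45),
 (nat_lit 1), (35, 40, 4), [1179, 975], 34⟩,
  ⟨⟨33, 8, -53, -20, -27, -20, 30, -24, -13⟩, (.cons (nat_lit 667) (nat_lit 579) (nat_lit 629) (nat_lit 1)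
 (.cons (nat_lit 1484) (nat_lit 81) (nat_lit 949) (nat_lit 1) .nil)), (nat_lit 1), (nat_lit 45), (nat_lit 36),
 (nat_lit 1), (32, 21, 33), [268, 1425], 10⟩,
  ⟨⟨37, 24, -37, 20, -37, -20, -2, 8, -41⟩, (.cons (nat_lit 111) (nat_lit 794) (nat_lit 678) (nat_lit 1) (.cons
 (nat_lit 1145) (nat_lit 1631) (nat_lit 1660) (nat_lit 1) .nil)), (nat_lit 28), (nat_lit 2), (nat_lit 9),
 (nat_lit 1), (34, 30, 40), [1256, 621], 7⟩,
  ⟨⟨47, 0, -20, 0, -43, 0, 18, 0, -47⟩, (.cons (nat_lit 1330) (nat_lit 1315) (nat_lit 1015) (nat_lit 1) (.cons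
 (nat_lit 1119) (nat_lit 1347) (nat_lit 540) (nat_lit 1) .nil)), (nat_lit 46), (nat_lit 36), (nat_lit 26),
 (nat_lit 1), (34, 0, 24), [833, 396], 35⟩,
  ⟨⟨21, -20, 31, 38, 15, -34, 12, -36, -13⟩, (.cons (nat_lit 302) (nat_lit 1256) (nat_lit 1264) (nat_lit 1)
 (.cons (nat_lit 1841) (nat_lit 1697) (nat_lit 681) (nat_lit 1) .nil)), (nat_lit 39), (nat_lit 2), (nat_lit
 15), (nat_lit 1), (8, 37, 23), [777, 40], 36⟩,
  mz,
  ⟨⟨-15, 44, 16, 20, 13, -50, -34, 8, -1⟩, (.cons (nat_lit 988) (nat_lit 1274) (nat_lit 547) (nat_lit 1) (.cons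
 (nat_lit 1138) (nat_lit 1770) (nat_lit 1523) (nat_lit 1) .nil)), (nat_lit 18), (nat_lit 20), (nat_lit 2),
 (nat_lit 1), (28, 20, 9), [272, 1270], 41⟩,
  ⟨⟨33, 8, 20, 20, 27, -40, 30, -24, -17⟩, (.cons (nat_lit 1330) (nat_lit 997) (nat_lit 17) (nat_lit 1) (.cons
 (nat_lit 290) (nat_lit 1037) (nat_lit 879) (nat_lit 1) .nil)), (nat_lit 46), (nat_lit 8), (nat_lit 9),
 (nat_lit 1), (4, 35, 31), [793, 1525], 37⟩,
  mz,
  mz,
  mz,
  ⟨⟨9, -4, -56, 40, -13, -10, 14, 32, -25⟩, (.cons (nat_lit 1139) (nat_lit 541) (nat_lit 19) (nat_lit 1) (.cons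
 (nat_lit 658) (nat_lit 1296) (nat_lit 148) (nat_lit 1) .nil)), (nat_lit 45), (nat_lit 23), (nat_lit 30),
 (nat_lit 1), (19, 8, 20), [375, 703], 5⟩,
  ⟨⟨-5, -36, 36, 40, -13, -30, -14, -32, -11⟩, (.cons (nat_lit 266) (nat_lit 437) (nat_lit 1064) (nat_lit 1)
 (.cons (nat_lit 1809) (nat_lit 208) (nat_lit 807) (nat_lit 1) .nil)), (nat_lit 23), (nat_lit 19), (nat_lit
 40), (nat_lit 1), (11, 41, 5), [1214, 1486], 13⟩,
  mz,
  mz,
  ⟨⟨21, 20, 31, 38, -15, -34, 12, 36, -13⟩, (.cons (nat_lit 313) (nat_lit 1159) (nat_lit 1228) (nat_lit 1)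
 (.cons (nat_lit 581) (nat_lit 1424) (nat_lit 1449) (nat_lit 1) .nil)), (nat_lit 10), (nat_lit 12), (nat_lit
 5), (nat_lit 1), (12, 34, 13), [1024, 689], 12⟩,
  ⟨⟨-21, 20, 52, 38, 15, -4, -12, 36, -1⟩, (.cons (nat_lit 1213) (nat_lit 57) (nat_lit 721) (nat_lit 1) (.cons
 (nat_lit 59) (nat_lit 1353) (nat_lit 1392) (nat_lit 1) .nil)), (nat_lit 6), (nat_lit 27), (nat_lit 7),
 (nat_lit 1), (12, 9, 13), [647, 814], 27⟩,
  mz,
  mz,
  ⟨⟨9, 4, -56, 40, 13, -10, 14, -32, -25⟩, (.cons (nat_lit 357) (nat_lit 384) (nat_lit 378) (nat_lit 1) (.cons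
 (nat_lit 1461) (nat_lit 632) (nat_lit 1659) (nat_lit 1) .nil)), (nat_lit 34), (nat_lit 25), (nat_lit 26),
 (nat_lit 1), (37, 2, 5), [233, 1356], 20⟩,
  ⟨⟨-9, -4, -47, 40, 13, -30, -14, 32, -11⟩, (.cons (nat_lit 231) (nat_lit 217) (nat_lit 91) (nat_lit 1) (.cons
 (nat_lit 517) (nat_lit 839) (nat_lit 1709) (nat_lit 1) .nil)), (nat_lit 29), (nat_lit 10), (nat_lit 43),
 (nat_lit 1), (19, 35, 20), [658, 359], 41⟩,
  mz,
  mz,
  mz,
  ⟨⟨33, -8, -53, -20, 27, -20, 30, 24, -13⟩, (.cons (nat_lit 598) (nat_lit 462) (nat_lit 429) (nat_lit 1)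
 (.cons (nat_lit 210) (nat_lit 822) (nat_lit 830) (nat_lit 1) .nil)), (nat_lit 35), (nat_lit 17), (nat_lit 6),
 (nat_lit 1), (39, 35, 12), [304, 231], 33⟩,
  ⟨⟨19, -36, -36, -20, 13, -30, 34, 8, -35⟩, (.cons (nat_lit 1238) (nat_lit 207) (nat_lit 1176) (nat_lit 1)
 (.cons (nat_lit 732) (nat_lit 1769) (nat_lit 1001) (nat_lit 1) .nil)), (nat_lit 18), (nat_lit 27), (nat_lit
 45), (nat_lit 1), (24, 20, 9), [733, 1305], 41⟩,
  mz,
  ⟨⟨-21, -20, 52, -38, 15, 4, -12, -36, -1⟩, (.cons (nat_lit 790) (nat_lit 480) (nat_lit 302) (nat_lit 1)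
 (.cons (nat_lit 1229) (nat_lit 1562) (nat_lit 81) (nat_lit 1) .nil)), (nat_lit 8), (nat_lit 2), (nat_lit 32),
 (nat_lit 1), (8, 37, 23), [488, 439], 36⟩,
  ⟨⟨-47, 0, 27, 0, -43, 0, -18, 0, -29⟩, (.cons (nat_lit 888) (nat_lit 812) (nat_lit 961) (nat_lit 1) (.cons
 (nat_lit 203) (nat_lit 1746) (nat_lit 787) (nat_lit 1) .nil)), (nat_lit 1), (nat_lit 36), (nat_lit 21),
 (nat_lit 1), (34, 0, 24), [181, 92], 35⟩,
  ⟨⟨-37, 24, 0, -20, -37, 0, 2, 8, -43⟩, (.cons (nat_lit 257) (nat_lit 1117) (nat_lit 438) (nat_lit 1) (.cons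
 (nat_lit 1602) (nat_lit 1529) (nat_lit 740) (nat_lit 1) .nil)), (nat_lit 19), (nat_lit 2), (nat_lit 38),
 (nat_lit 1), (34, 30, 40), [720, 119], 7⟩,
  ⟨⟨-3, 32, -37, 20, -27, -40, 30, 24, -17⟩, (.cons (nat_lit 69) (nat_lit 66) (nat_lit 1012) (nat_lit 1) (.cons
 (nat_lit 1356) (nat_lit 509) (nat_lit 200) (nat_lit 1) .nil)), (nat_lit 43), (nat_lit 21), (nat_lit 24),
 (nat_lit 1), (42, 21, 10), [784, 598], 36⟩,
  ⟨⟨-39, 16, -4, 20, 37, -20, -2, -8, -41⟩, (.cons (nat_lit 1330) (nat_lit 972) (nat_lit 557) (nat_lit 1)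
 (.cons (nat_lit 1716) (nat_lit 1629) (nat_lit 1047) (nat_lit 1) .nil)), (nat_lit 46), (nat_lit 23), (nat_lit
 24), (nat_lit 1), (35, 3, 4), [106, 931], 3⟩,
  ⟨⟨3, -44, -20, -2, 15, -44, 36, -12, -25⟩, (.cons (nat_lit 588) (nat_lit 1263) (nat_lit 778) (nat_lit 1)
 (.cons (nat_lit 1151) (nat_lit 538) (nat_lit 1) (nat_lit 989) .nil)), (nat_lit 6), (nat_lit 35), (nat_lit 43),
 (nat_lit 1), (10, 22, 34), [188, 666], 27⟩,
  ⟨⟨-19, 36, -17, -20, 13, 50, -34, -8, -1⟩, (.cons (nat_lit 117) (nat_lit 1231) (nat_lit 1) (nat_lit 407)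
 (.cons (nat_lit 1482) (nat_lit 1408) (nat_lit 960) (nat_lit 1) .nil)), (nat_lit 13), (nat_lit 11), (nat_lit
 5), (nat_lit 1), (14, 17, 16), [485, 428], 20⟩,
  mz,
  mz,
  ⟨⟨33, 32, -28, 2, -15, -46, 36, -12, -11⟩, (.cons (nat_lit 680) (nat_lit 597) (nat_lit 1174) (nat_lit 1)
 (.cons (nat_lit 610) (nat_lit 1464) (nat_lit 758) (nat_lit 1) .nil)), (nat_lit 8), (nat_lit 28), (nat_lit 9),
 (nat_lit 1), (34, 19, 41), [1294, 1551], 11⟩]

/-- Moves. -/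
noncomputable def t4_1 : List Mv := [
  mz,
  ⟨⟨-25, 12, -36, 22, -35, -36, 20, 28, -37⟩, (.cons (nat_lit 407) (nat_lit 204) (nat_lit 225) (nat_lit 1)
 (.cons (nat_lit 834) (nat_lit 1628) (nat_lit 1475) (nat_lit 1) .nil)), (nat_lit 2), (nat_lit 0), (nat_lit 0),
 (nat_lit 0), (2, 2, 36), [585, 1469], 0⟩,
  ⟨⟨-49, 12, 36, -2, -35, 36, -28, -20, -13⟩, (.cons (nat_lit 420) (nat_lit 835) (nat_lit 1) (nat_lit 572)
 (.cons (nat_lit 1328) (nat_lit 1346) (nat_lit 1140) (nat_lit 1) .nil)), (nat_lit 1), (nat_lit 0), (nat_lit 0),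
 (nat_lit 0), (17, 17, 3), [239, 734], 0⟩,
  ⟨⟨-51, 4, 19, -2, -45, -14, -12, 12, -37⟩, (.cons (nat_lit 162) (nat_lit 126) (nat_lit 947) (nat_lit 1)
 (.cons (nat_lit 785) (nat_lit 170) (nat_lit 52) (nat_lit 1) .nil)), (nat_lit 33), (nat_lit 0), (nat_lit 0),
 (nat_lit 0), (7, 27, 21), [1003, 1389], 0⟩,
  mz,
  ⟨⟨25, -12, -61, 22, -35, 14, -20, -28, -17⟩, (.cons (nat_lit 831) (nat_lit 98) (nat_lit 25) (nat_lit 1)
 (.cons (nat_lit 1553) (nat_lit 282) (nat_lit 1167) (nat_lit 1) .nil)), (nat_lit 21), (nat_lit 0), (nat_lit 0),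
 (nat_lit 0), (9, 38, 21), [1105, 347], 0⟩,
  mz,
  mz,
  mz,
  ⟨⟨-17, -48, 0, 40, -17, 0, 10, -16, -47⟩, (.cons (nat_lit 1212) (nat_lit 849) (nat_lit 377) (nat_lit 1)
 (.cons (nat_lit 757) (nat_lit 1550) (nat_lit 224) (nat_lit 1) .nil)), (nat_lit 36), (nat_lit 0), (nat_lit 0),
 (nat_lit 0), (6, 8, 2), [738, 527], 0⟩,
  mz,
  ⟨⟨17, 48, -17, 40, -17, -40, -10, 16, -37⟩, (.cons (nat_lit 799) (nat_lit 1115) (nat_lit 1136) (nat_lit 1)
 (.cons (nat_lit 339) (nat_lit 1409) (nat_lit 776) (nat_lit 1) .nil)), (nat_lit 9), (nat_lit 0), (nat_lit 0),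
 (nat_lit 0), (25, 45, 24), [1173, 1350], 0⟩,
  ⟨⟨17, -36, -45, -20, 23, -30, 38, 8, -37⟩, (.cons (nat_lit 1191) (nat_lit 1307) (nat_lit 899) (nat_lit 1)
 (.cons (nat_lit 28) (nat_lit 13) (nat_lit 149) (nat_lit 1) .nil)), (nat_lit 32), (nat_lit 0), (nat_lit 0),
 (nat_lit 0), (19, 44, 1), [1256, 878], 0⟩,
  mz,
  ⟨⟨-51, -4, 19, -2, 45, -14, -12, -12, -37⟩, (.cons (nat_lit 35) (nat_lit 888) (nat_lit 1) (nat_lit 418)
 (.cons (nat_lit 259) (nat_lit 1812) (nat_lit 322) (nat_lit 1) .nil)), (nat_lit 33), (nat_lit 0), (nat_lit 0),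
 (nat_lit 0), (25, 36, 28), [339, 790], 0⟩,
  ⟨⟨9, 4, -61, 40, 23, -10, 22, -32, -29⟩, (.cons (nat_lit 403) (nat_lit 1091) (nat_lit 400) (nat_lit 1) (.cons
 (nat_lit 1181) (nat_lit 475) (nat_lit 443) (nat_lit 1) .nil)), (nat_lit 35), (nat_lit 0), (nat_lit 0),
 (nat_lit 0), (18, 33, 44), [217, 363], 0⟩,
  ⟨⟨-13, 36, 45, 40, 23, -30, -22, 32, -7⟩, (.cons (nat_lit 789) (nat_lit 984) (nat_lit 296) (nat_lit 1) (.cons
 (nat_lit 1533) (nat_lit 444) (nat_lit 37) (nat_lit 1) .nil)), (nat_lit 27), (nat_lit 0), (nat_lit 0), (nat_lit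
 0), (5, 28, 41), [1073, 706], 0⟩,
  mz,
  ⟨⟨19, 0, -63, 0, -47, 0, 42, 0, -23⟩, (.cons (nat_lit 1006) (nat_lit 860) (nat_lit 172) (nat_lit 1) (.cons
 (nat_lit 861) (nat_lit 1716) (nat_lit 1136) (nat_lit 1) .nil)), (nat_lit 29), (nat_lit 0), (nat_lit 0),
 (nat_lit 0), (16, 0, 23), [1061, 1084], 0⟩,
  ⟨⟨-39, 32, 8, -20, -33, -20, 6, 24, -41⟩, (.cons (nat_lit 585) (nat_lit 593) (nat_lit 184) (nat_lit 1) (.cons
 (nat_lit 1127) (nat_lit 1699) (nat_lit 830) (nat_lit 1) .nil)), (nat_lit 22), (nat_lit 0), (nat_lit 0),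
 (nat_lit 0), (25, 8, 7), [377, 1237], 0⟩,
  ⟨⟨17, -36, 28, -20, 23, 50, 38, 8, -1⟩, (.cons (nat_lit 1039) (nat_lit 1187) (nat_lit 1279) (nat_lit 1)
 (.cons (nat_lit 90) (nat_lit 1214) (nat_lit 1029) (nat_lit 1) .nil)), (nat_lit 32), (nat_lit 0), (nat_lit 0),
 (nat_lit 0), (2, 17, 10), [966, 853], 0⟩,
  ⟨⟨21, 32, -49, -2, 35, 36, -28, 20, -13⟩, (.cons (nat_lit 740) (nat_lit 1205) (nat_lit 290) (nat_lit 1)
 (.cons (nat_lit 1708) (nat_lit 96) (nat_lit 1625) (nat_lit 1) .nil)), (nat_lit 46), (nat_lit 0), (nat_lit 0),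
 (nat_lit 0), (30, 24, 7), [767, 1795], 0⟩,
  ⟨⟨45, 8, -49, -20, 33, -20, 6, -24, -41⟩, (.cons (nat_lit 172) (nat_lit 232) (nat_lit 1123) (nat_lit 1)
 (.cons (nat_lit 216) (nat_lit 1028) (nat_lit 815) (nat_lit 1) .nil)), (nat_lit 25), (nat_lit 0), (nat_lit 0),
 (nat_lit 0), (40, 24, 21), [1225, 329], 0⟩,
  mz,
  mz,
  ⟨⟨-45, 8, -4, 20, 33, -40, -6, -24, -35⟩, (.cons (nat_lit 1330) (nat_lit 1150) (nat_lit 154) (nat_lit 1)
 (.cons (nat_lit 1848) (nat_lit 340) (nat_lit 862) (nat_lit 1) .nil)), (nat_lit 25), (nat_lit 0), (nat_lit 0),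
 (nat_lit 0), (40, 24, 21), [327, 243], 0⟩,
  ⟨⟨-21, 32, -28, -2, -35, -34, 28, 20, -41⟩, (.cons (nat_lit 187) (nat_lit 1246) (nat_lit 351) (nat_lit 1)
 (.cons (nat_lit 1092) (nat_lit 1010) (nat_lit 199) (nat_lit 1) .nil)), (nat_lit 5), (nat_lit 0), (nat_lit 0),
 (nat_lit 0), (30, 23, 7), [1157, 437], 0⟩,
  ⟨⟨21, -44, 8, 20, 23, 30, 38, -8, -37⟩, (.cons (nat_lit 599) (nat_lit 1005) (nat_lit 965) (nat_lit 1) (.cons
 (nat_lit 625) (nat_lit 1828) (nat_lit 1496) (nat_lit 1) .nil)), (nat_lit 31), (nat_lit 0), (nat_lit 0),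
 (nat_lit 0), (39, 17, 37), [147, 1008], 0⟩,
  ⟨⟨-45, -8, -4, -20, 33, 40, -6, 24, -35⟩, (.cons (nat_lit 1330) (nat_lit 1318) (nat_lit 722) (nat_lit 1)
 (.cons (nat_lit 1848) (nat_lit 1429) (nat_lit 1057) (nat_lit 1) .nil)), (nat_lit 28), (nat_lit 0), (nat_lit
 0), (nat_lit 0), (29, 39, 7), [534, 1017], 0⟩,
  ⟨⟨19, 0, 44, 0, -47, 0, 42, 0, -19⟩, (.cons (nat_lit 1330) (nat_lit 953) (nat_lit 555) (nat_lit 1) (.cons
 (nat_lit 1848) (nat_lit 55) (nat_lit 1645) (nat_lit 1) .nil)), (nat_lit 29), (nat_lit 0), (nat_lit 0),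
 (nat_lit 0), (31, 0, 24), [35, 328], 0⟩,
  mz,
  ⟨⟨13, 36, 32, -40, 23, 10, 22, 32, -29⟩, (.cons (nat_lit 20) (nat_lit 1196) (nat_lit 665) (nat_lit 1) (.cons
 (nat_lit 1778) (nat_lit 358) (nat_lit 823) (nat_lit 1) .nil)), (nat_lit 27), (nat_lit 0), (nat_lit 0),
 (nat_lit 0), (5, 28, 41), [236, 276], 0⟩,
  ⟨⟨-9, 4, -52, 40, -23, -30, -22, -32, -7⟩, (.cons (nat_lit 196) (nat_lit 273) (nat_lit 875) (nat_lit 1)
 (.cons (nat_lit 226) (nat_lit 1137) (nat_lit 420) (nat_lit 1) .nil)), (nat_lit 20), (nat_lit 0), (nat_lit 0),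
 (nat_lit 0), (18, 14, 44), [1086, 159], 0⟩,
  ⟨⟨-39, -8, -17, -2, -45, 16, 12, -12, -49⟩, (.cons (nat_lit 304) (nat_lit 295) (nat_lit 939) (nat_lit 1)
 (.cons (nat_lit 391) (nat_lit 94) (nat_lit 7) (nat_lit 1) .nil)), (nat_lit 3), (nat_lit 0), (nat_lit 0),
 (nat_lit 0), (3, 11, 28), [1077, 1455], 0⟩,
  mz,
  ⟨⟨17, 36, 28, 20, 23, -50, 38, -8, -1⟩, (.cons (nat_lit 1145) (nat_lit 1090) (nat_lit 434) (nat_lit 1) (.cons
 (nat_lit 484) (nat_lit 1197) (nat_lit 1569) (nat_lit 1) .nil)), (nat_lit 16), (nat_lit 0), (nat_lit 0),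
 (nat_lit 0), (28, 44, 46), [221, 400], 0⟩,
  ⟨⟨-17, 48, 0, -40, -17, 0, 10, 16, -47⟩, (.cons (nat_lit 1029) (nat_lit 846) (nat_lit 719) (nat_lit 1) (.cons
 (nat_lit 1424) (nat_lit 506) (nat_lit 901) (nat_lit 1) .nil)), (nat_lit 9), (nat_lit 0), (nat_lit 0), (nat_lit
 0), (25, 45, 24), [1213, 1006], 0⟩,
  mz,
  ⟨⟨17, -48, -17, -40, -17, 40, -10, -16, -37⟩, (.cons (nat_lit 1254) (nat_lit 64) (nat_lit 785) (nat_lit 1)
 (.cons (nat_lit 1565) (nat_lit 1808) (nat_lit 1625) (nat_lit 1) .nil)), (nat_lit 36), (nat_lit 0), (nat_lit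
 0), (nat_lit 0), (6, 8, 2), [288, 613], 0⟩,
  mz,
  mz,
  mz,
  ⟨⟨45, -16, -1, 22, 35, -36, 20, -28, -37⟩, (.cons (nat_lit 168) (nat_lit 911) (nat_lit 351) (nat_lit 1)
 (.cons (nat_lit 1321) (nat_lit 1808) (nat_lit 471) (nat_lit 1) .nil)), (nat_lit 45), (nat_lit 0), (nat_lit 0),
 (nat_lit 0), (12, 9, 21), [536, 1021], 0⟩,
  mz,
  ⟨⟨-39, 8, -17, -2, 45, 16, 12, 12, -49⟩, (.cons (nat_lit 803) (nat_lit 575) (nat_lit 646) (nat_lit 1) (.cons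
 (nat_lit 1162) (nat_lit 19) (nat_lit 1274) (nat_lit 1) .nil)), (nat_lit 3), (nat_lit 0), (nat_lit 0), (nat_lit
 0), (14, 20, 21), [1050, 446], 0⟩,
  ⟨⟨-21, -32, -28, -2, 35, -34, 28, -20, -41⟩, (.cons (nat_lit 454) (nat_lit 1151) (nat_lit 909) (nat_lit 1)
 (.cons (nat_lit 663) (nat_lit 394) (nat_lit 1039) (nat_lit 1) .nil)), (nat_lit 5), (nat_lit 0), (nat_lit 0),
 (nat_lit 0), (33, 30, 3), [995, 220], 0⟩,
  ⟨⟨-45, 16, 44, -22, -35, -14, -20, 28, -17⟩, (.cons (nat_lit 1324) (nat_lit 1108) (nat_lit 1252) (nat_lit 1)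
 (.cons (nat_lit 533) (nat_lit 221) (nat_lit 374) (nat_lit 1) .nil)), (nat_lit 45), (nat_lit 0), (nat_lit 0),
 (nat_lit 0), (34, 2, 36), [446, 824], 0⟩]

/-- Moves. -/
noncomputable def t4_4 : List Mv := [
  mz,
  ⟨⟨45, 16, -1, 22, -35, -36, 20, 28, -37⟩, (.cons (nat_lit 1014) (nat_lit 454) (nat_lit 909) (nat_lit 1)
 (.cons (nat_lit 241) (nat_lit 49) (nat_lit 615) (nat_lit 1) .nil)), (nat_lit 45), (nat_lit 0), (nat_lit 0),
 (nat_lit 0), (34, 2, 36), [163, 222], 0⟩,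
  ⟨⟨21, -32, -49, 2, 35, -36, -28, -20, -13⟩, (.cons (nat_lit 687) (nat_lit 154) (nat_lit 1252) (nat_lit 1)
 (.cons (nat_lit 369) (nat_lit 781) (nat_lit 1627) (nat_lit 1) .nil)), (nat_lit 5), (nat_lit 0), (nat_lit 0),
 (nat_lit 0), (33, 30, 3), [183, 736], 0⟩,
  ⟨⟨-51, 4, 19, 2, 45, 14, -12, 12, -37⟩, (.cons (nat_lit 785) (nat_lit 1165) (nat_lit 1) (nat_lit 792) (.cons
 (nat_lit 689) (nat_lit 1701) (nat_lit 489) (nat_lit 1) .nil)), (nat_lit 44), (nat_lit 0), (nat_lit 0),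
 (nat_lit 0), (7, 20, 21), [1213, 274], 0⟩,
  mz,
  ⟨⟨-45, -16, 44, -22, 35, -14, -20, -28, -17⟩, (.cons (nat_lit 730) (nat_lit 962) (nat_lit 599) (nat_lit 1)
 (.cons (nat_lit 700) (nat_lit 1550) (nat_lit 1206) (nat_lit 1) .nil)), (nat_lit 45), (nat_lit 0), (nat_lit 0),
 (nat_lit 0), (12, 9, 21), [1037, 1451], 0⟩,
  mz,
  mz,
  mz,
  ⟨⟨27, 32, -47, -40, 17, 0, 10, -16, -47⟩, (.cons (nat_lit 1109) (nat_lit 47) (nat_lit 529) (nat_lit 1) (.cons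
 (nat_lit 130) (nat_lit 282) (nat_lit 400) (nat_lit 1) .nil)), (nat_lit 38), (nat_lit 0), (nat_lit 0), (nat_lit
 0), (43, 39, 2), [1060, 1803], 0⟩,
  mz,
  ⟨⟨17, 48, -17, 40, -17, -40, -10, 16, -37⟩, (.cons (nat_lit 799) (nat_lit 1115) (nat_lit 1136) (nat_lit 1)
 (.cons (nat_lit 339) (nat_lit 1409) (nat_lit 776) (nat_lit 1) .nil)), (nat_lit 9), (nat_lit 0), (nat_lit 0),
 (nat_lit 0), (25, 45, 24), [1173, 1350], 0⟩,
  ⟨⟨17, -36, -45, -20, 23, -30, 38, 8, -37⟩, (.cons (nat_lit 1191) (nat_lit 1307) (nat_lit 899) (nat_lit 1)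
 (.cons (nat_lit 28) (nat_lit 13) (nat_lit 149) (nat_lit 1) .nil)), (nat_lit 32), (nat_lit 0), (nat_lit 0),
 (nat_lit 0), (19, 44, 1), [1256, 878], 0⟩,
  mz,
  ⟨⟨-51, -4, 19, -2, 45, -14, -12, -12, -37⟩, (.cons (nat_lit 35) (nat_lit 888) (nat_lit 1) (nat_lit 418)
 (.cons (nat_lit 259) (nat_lit 1812) (nat_lit 322) (nat_lit 1) .nil)), (nat_lit 33), (nat_lit 0), (nat_lit 0),
 (nat_lit 0), (25, 36, 28), [339, 790], 0⟩,
  ⟨⟨9, 4, -61, 40, 23, -10, 22, -32, -29⟩, (.cons (nat_lit 403) (nat_lit 1091) (nat_lit 400) (nat_lit 1) (.cons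
 (nat_lit 1181) (nat_lit 475) (nat_lit 443) (nat_lit 1) .nil)), (nat_lit 35), (nat_lit 0), (nat_lit 0),
 (nat_lit 0), (18, 33, 44), [217, 363], 0⟩,
  ⟨⟨-9, -4, -52, -40, -23, 30, -22, 32, -7⟩, (.cons (nat_lit 551) (nat_lit 1022) (nat_lit 446) (nat_lit 1)
 (.cons (nat_lit 1509) (nat_lit 200) (nat_lit 948) (nat_lit 1) .nil)), (nat_lit 35), (nat_lit 0), (nat_lit 0),
 (nat_lit 0), (36, 19, 41), [1220, 1641], 0⟩,
  mz,
  ⟨⟨19, 0, -63, 0, -47, 0, 42, 0, -23⟩, (.cons (nat_lit 1006) (nat_lit 860) (nat_lit 172) (nat_lit 1) (.cons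
 (nat_lit 861) (nat_lit 1716) (nat_lit 1136) (nat_lit 1) .nil)), (nat_lit 29), (nat_lit 0), (nat_lit 0),
 (nat_lit 0), (16, 0, 23), [1061, 1084], 0⟩,
  ⟨⟨-39, 32, 8, -20, -33, -20, 6, 24, -41⟩, (.cons (nat_lit 585) (nat_lit 593) (nat_lit 184) (nat_lit 1) (.cons
 (nat_lit 1127) (nat_lit 1699) (nat_lit 830) (nat_lit 1) .nil)), (nat_lit 22), (nat_lit 0), (nat_lit 0),
 (nat_lit 0), (25, 8, 7), [377, 1237], 0⟩,
  ⟨⟨17, -36, 28, -20, 23, 50, 38, 8, -1⟩, (.cons (nat_lit 1039) (nat_lit 1187) (nat_lit 1279) (nat_lit 1)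
 (.cons (nat_lit 90) (nat_lit 1214) (nat_lit 1029) (nat_lit 1) .nil)), (nat_lit 32), (nat_lit 0), (nat_lit 0),
 (nat_lit 0), (2, 17, 10), [966, 853], 0⟩,
  ⟨⟨21, 32, -49, 2, -35, -36, -28, 20, -13⟩, (.cons (nat_lit 189) (nat_lit 112) (nat_lit 599) (nat_lit 1)
 (.cons (nat_lit 456) (nat_lit 838) (nat_lit 360) (nat_lit 1) .nil)), (nat_lit 5), (nat_lit 0), (nat_lit 0),
 (nat_lit 0), (30, 23, 7), [900, 265], 0⟩,
  ⟨⟨45, 8, -49, 20, -33, 20, 6, -24, -41⟩, (.cons (nat_lit 287) (nat_lit 80) (nat_lit 940) (nat_lit 1) (.cons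
 (nat_lit 922) (nat_lit 1560) (nat_lit 1322) (nat_lit 1) .nil)), (nat_lit 28), (nat_lit 0), (nat_lit 0),
 (nat_lit 0), (40, 23, 21), [915, 45], 0⟩,
  mz,
  mz,
  ⟨⟨39, -32, -31, 20, 33, -40, -6, -24, -35⟩, (.cons (nat_lit 503) (nat_lit 432) (nat_lit 806) (nat_lit 1)
 (.cons (nat_lit 1635) (nat_lit 1810) (nat_lit 604) (nat_lit 1) .nil)), (nat_lit 22), (nat_lit 0), (nat_lit 0),
 (nat_lit 0), (28, 24, 21), [696, 1232], 0⟩,
  ⟨⟨-21, 32, -28, -2, -35, -34, 28, 20, -41⟩, (.cons (nat_lit 187) (nat_lit 1246) (nat_lit 351) (nat_lit 1)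
 (.cons (nat_lit 1092) (nat_lit 1010) (nat_lit 199) (nat_lit 1) .nil)), (nat_lit 5), (nat_lit 0), (nat_lit 0),
 (nat_lit 0), (30, 23, 7), [1157, 437], 0⟩,
  ⟨⟨17, 36, -45, -20, -23, -30, 38, -8, -37⟩, (.cons (nat_lit 991) (nat_lit 898) (nat_lit 1159) (nat_lit 1)
 (.cons (nat_lit 211) (nat_lit 1386) (nat_lit 347) (nat_lit 1) .nil)), (nat_lit 32), (nat_lit 0), (nat_lit 0),
 (nat_lit 0), (45, 30, 37), [1181, 1426], 0⟩,
  ⟨⟨39, 32, -31, 20, -33, -40, -6, 24, -35⟩, (.cons (nat_lit 320) (nat_lit 1020) (nat_lit 6) (nat_lit 1) (.cons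
 (nat_lit 1109) (nat_lit 624) (nat_lit 159) (nat_lit 1) .nil)), (nat_lit 22), (nat_lit 0), (nat_lit 0),
 (nat_lit 0), (25, 8, 7), [255, 377], 0⟩,
  ⟨⟨19, 0, 44, 0, 47, 0, 42, 0, -19⟩, (.cons (nat_lit 1330) (nat_lit 658) (nat_lit 614) (nat_lit 1) (.cons
 (nat_lit 1848) (nat_lit 1759) (nat_lit 1616) (nat_lit 1) .nil)), (nat_lit 29), (nat_lit 0), (nat_lit 0),
 (nat_lit 0), (31, 0, 24), [565, 120], 0⟩,
  mz,
  ⟨⟨9, -4, -61, 40, -23, -10, 22, 32, -29⟩, (.cons (nat_lit 276) (nat_lit 515) (nat_lit 129) (nat_lit 1) (.cons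
 (nat_lit 1415) (nat_lit 372) (nat_lit 729) (nat_lit 1) .nil)), (nat_lit 35), (nat_lit 0), (nat_lit 0),
 (nat_lit 0), (36, 19, 41), [257, 738], 0⟩,
  ⟨⟨-9, 4, -52, 40, -23, -30, -22, -32, -7⟩, (.cons (nat_lit 196) (nat_lit 273) (nat_lit 875) (nat_lit 1)
 (.cons (nat_lit 226) (nat_lit 1137) (nat_lit 420) (nat_lit 1) .nil)), (nat_lit 20), (nat_lit 0), (nat_lit 0),
 (nat_lit 0), (18, 14, 44), [1086, 159], 0⟩,
  ⟨⟨-39, -8, -17, 2, 45, -16, 12, -12, -49⟩, (.cons (nat_lit 88) (nat_lit 469) (nat_lit 38) (nat_lit 1) (.cons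
 (nat_lit 1592) (nat_lit 1585) (nat_lit 1398) (nat_lit 1) .nil)), (nat_lit 14), (nat_lit 0), (nat_lit 0),
 (nat_lit 0), (3, 36, 28), [1039, 1779], 0⟩,
  mz,
  ⟨⟨21, -44, -29, -20, -23, 50, 38, -8, -1⟩, (.cons (nat_lit 360) (nat_lit 1216) (nat_lit 1079) (nat_lit 1)
 (.cons (nat_lit 501) (nat_lit 546) (nat_lit 1786) (nat_lit 1) .nil)), (nat_lit 15), (nat_lit 0), (nat_lit 0),
 (nat_lit 0), (18, 3, 46), [830, 1659], 0⟩,
  ⟨⟨27, -32, -47, -40, -17, 0, 10, 16, -47⟩, (.cons (nat_lit 646) (nat_lit 1248) (nat_lit 1) (nat_lit 836)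
 (.cons (nat_lit 1543) (nat_lit 397) (nat_lit 1718) (nat_lit 1) .nil)), (nat_lit 38), (nat_lit 0), (nat_lit 0),
 (nat_lit 0), (46, 45, 24), [370, 361], 0⟩,
  mz,
  ⟨⟨-27, 32, -20, 40, 17, -40, -10, -16, -37⟩, (.cons (nat_lit 1330) (nat_lit 360) (nat_lit 616) (nat_lit 1)
 (.cons (nat_lit 1848) (nat_lit 884) (nat_lit 589) (nat_lit 1) .nil)), (nat_lit 38), (nat_lit 0), (nat_lit 0),
 (nat_lit 0), (43, 39, 2), [294, 1545], 0⟩,
  mz,
  mz,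
  mz,
  ⟨⟨45, -16, -1, 22, 35, -36, 20, -28, -37⟩, (.cons (nat_lit 168) (nat_lit 911) (nat_lit 351) (nat_lit 1)
 (.cons (nat_lit 1321) (nat_lit 1808) (nat_lit 471) (nat_lit 1) .nil)), (nat_lit 45), (nat_lit 0), (nat_lit 0),
 (nat_lit 0), (12, 9, 21), [536, 1021], 0⟩,
  mz,
  ⟨⟨51, 4, -32, 2, -45, -16, 12, 12, -49⟩, (.cons (nat_lit 764) (nat_lit 255) (nat_lit 869) (nat_lit 1) (.cons
 (nat_lit 1623) (nat_lit 643) (nat_lit 1797) (nat_lit 1) .nil)), (nat_lit 33), (nat_lit 0), (nat_lit 0),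
 (nat_lit 0), (7, 27, 21), [81, 314], 0⟩,
  ⟨⟨49, 12, -13, -2, 35, -34, 28, -20, -41⟩, (.cons (nat_lit 103) (nat_lit 668) (nat_lit 1115) (nat_lit 1)
 (.cons (nat_lit 928) (nat_lit 1068) (nat_lit 1125) (nat_lit 1) .nil)), (nat_lit 42), (nat_lit 0), (nat_lit 0),
 (nat_lit 0), (17, 30, 3), [392, 951], 0⟩,
  ⟨⟨25, 12, -61, 22, 35, 14, -20, 28, -17⟩, (.cons (nat_lit 268) (nat_lit 493) (nat_lit 809) (nat_lit 1) (.cons
 (nat_lit 1272) (nat_lit 1771) (nat_lit 182) (nat_lit 1) .nil)), (nat_lit 21), (nat_lit 0), (nat_lit 0),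
 (nat_lit 0), (2, 45, 36), [249, 1510], 0⟩]

/-- All the moves. -/
noncomputable def tabs : List (List (List Mv)) := [[[], t0_1, [], [], t0_4], [[], t1_1, [], [], t1_4], [], [], [[], t4_1, [], [], t4_4]]

/-- Subtrie. -/
noncomputable def T1 : Tr := (.ev (nat_lit 20) (nat_lit 74766892226560) (.nd (nat_lit 33) (.br (nat_lit 22)
 (.br (nat_lit 9) (.br (nat_lit 6) (.br (nat_lit 4) (.ch (nat_lit 1) (.ev (nat_lit 52) (nat_lit 290319270432)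
 (.ev (nat_lit 84) (nat_lit 4) (.ev (nat_lit 244) (nat_lit 8) (.ev (nat_lit 404) (nat_lit 35184372088832) (.ev
 (nat_lit 468) (nat_lit 2) (.ev (nat_lit 692) (nat_lit 68719476736) (.ev (nat_lit 800) (nat_lit 17626545782784)
 (.nd (nat_lit 1248) (.br (nat_lit 5) (.ch (nat_lit 2) (.ev (nat_lit 1264) (nat_lit 537919488) .dd)) (.br
 (nat_lit 10) (.ch (nat_lit 5) (.fin (nat_lit 576468998619087435))) (.ch (nat_lit 10) (.ev (nat_lit 1264)
 (nat_lit 537919488) .dd))))))))))))) (.br (nat_lit 5) (.ch (nat_lit 4) (.ev (nat_lit 52) (nat_lit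
 285619520002) (.ev (nat_lit 372) (nat_lit 32768) (.ev (nat_lit 692) (nat_lit 4294967296) (.ev (nat_lit 724)
 (nat_lit 32) (.ev (nat_lit 768) (nat_lit 69258444800) (.ev (nat_lit 1040) (nat_lit 17626545782788) (.nd
 (nat_lit 1248) (.br (nat_lit 2) (.br (nat_lit 1) (.ch (nat_lit 0) (.ev (nat_lit 1264) (nat_lit 35184775790600)
 .dd)) (.ch (nat_lit 1) (.ev (nat_lit 1264) (nat_lit 35184640524288) (.ev (nat_lit 1280) (nat_lit 8) (.fin
 (nat_lit 576465700097835586)))))) (.br (nat_lit 10) (.ch (nat_lit 2) (.ev (nat_lit 1264) (nat_lit 135266312)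
 (.fin (nat_lit 576473396701250135)))) (.ch (nat_lit 10) (.ev (nat_lit 1264) (nat_lit 35184774742016) (.ev
 (nat_lit 1280) (nat_lit 8) (.ev (nat_lit 1293) (nat_lit 1048576) .dd)))))))))))))) (.ch (nat_lit 5) (.ev
 (nat_lit 52) (nat_lit 52886889299982) (.ev (nat_lit 116) (nat_lit 2097152) (.ev (nat_lit 340) (nat_lit 32)
 (.ev (nat_lit 436) (nat_lit 32768) (.ev (nat_lit 672) (nat_lit 283603108352) .dd)))))))) (.br (nat_lit 7) (.ch
 (nat_lit 6) (.ev (nat_lit 52) (nat_lit 53062847692804) (.ev (nat_lit 84) (nat_lit 8) (.ev (nat_lit 180)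
 (nat_lit 268435456) (.ev (nat_lit 372) (nat_lit 32) (.ev (nat_lit 532) (nat_lit 34363932672) (.ev (nat_lit
 880) (nat_lit 4295000066) (.nd (nat_lit 1248) (.br (nat_lit 5) (.ch (nat_lit 2) (.fin (nat_lit
 576462401572389440))) (.br (nat_lit 9) (.ch (nat_lit 5) (.ev (nat_lit 1264) (nat_lit 68719477248) .dd)) (.ch
 (nat_lit 9) (.ev (nat_lit 1264) (nat_lit 68719477248) .dd)))))))))))) (.br (nat_lit 8) (.ch (nat_lit 7) (.ev
 (nat_lit 52) (nat_lit 53087944311332) (.ev (nat_lit 148) (nat_lit 536870912) (.ev (nat_lit 180) (nat_lit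
 68719476736) (.ev (nat_lit 212) (nat_lit 8589934592) (.ev (nat_lit 276) (nat_lit 32768) (.ev (nat_lit 660)
 (nat_lit 268435456) (.nd (nat_lit 1248) (.br (nat_lit 5) (.br (nat_lit 2) (.ch (nat_lit 1) (.ev (nat_lit 1264)
 (nat_lit 4429185026) (.ev (nat_lit 1296) (nat_lit 8) (.nd (nat_lit 1408) (.br (nat_lit 5) (.ch (nat_lit 2)
 (.ev (nat_lit 1424) (nat_lit 6291456) .dd)) (.ch (nat_lit 5) (.fin (nat_lit 576473396676084276)))))))) (.ch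
 (nat_lit 2) (.ev (nat_lit 1264) (nat_lit 140509194) (.ev (nat_lit 1277) (nat_lit 4294967296) .dd)))) (.br
 (nat_lit 7) (.ch (nat_lit 5) (.ev (nat_lit 1264) (nat_lit 140509192) (.ev (nat_lit 1296) (nat_lit 2) (.ev
 (nat_lit 1309) (nat_lit 4294967296) .dd)))) (.ch (nat_lit 7) (.ev (nat_lit 1264) (nat_lit 4301258760) (.ev
 (nat_lit 1296) (nat_lit 134217730) .dd))))))))))))) (.ch (nat_lit 8) (.ev (nat_lit 52) (nat_lit
 35291749416972) (.ev (nat_lit 84) (nat_lit 2) (.ev (nat_lit 160) (nat_lit 17878745121312) .dd))))))) (.br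
 (nat_lit 13) (.br (nat_lit 10) (.ch (nat_lit 9) (.ev (nat_lit 52) (nat_lit 17706005856774) (.ev (nat_lit 84)
 (nat_lit 536870912) (.ev (nat_lit 180) (nat_lit 8) (.ev (nat_lit 244) (nat_lit 134217728) (.ev (nat_lit 276)
 (nat_lit 32) (.ev (nat_lit 436) (nat_lit 4194304) (.ev (nat_lit 1168) (nat_lit 35459249995776) (.nd (nat_lit
 1248) (.br (nat_lit 7) (.ch (nat_lit 2) (.fin (nat_lit 576455804511011367))) (.br (nat_lit 10) (.ch (nat_lit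
 7) (.ev (nat_lit 1264) (nat_lit 4563402752) .dd)) (.ch (nat_lit 10) (.ev (nat_lit 1264) (nat_lit 268435456)
 (.ev (nat_lit 1277) (nat_lit 4294967296) .dd)))))))))))))) (.br (nat_lit 12) (.ch (nat_lit 10) (.ev (nat_lit
 52) (nat_lit 17983971819552) (.ev (nat_lit 448) (nat_lit 35186522718734) .dd))) (.ch (nat_lit 12) (.ev
 (nat_lit 52) (nat_lit 73819783724) (.ev (nat_lit 148) (nat_lit 134217728) (.ev (nat_lit 308) (nat_lit
 34359738368) (.ev (nat_lit 340) (nat_lit 17592186044416) (.ev (nat_lit 436) (nat_lit 274877906944) (.ev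
 (nat_lit 532) (nat_lit 35184372088832) (.ev (nat_lit 992) (nat_lit 8589934594) (.nd (nat_lit 1248) (.br
 (nat_lit 2) (.br (nat_lit 1) (.ch (nat_lit 0) (.ev (nat_lit 1264) (nat_lit 6291456) (.ev (nat_lit 1312)
 (nat_lit 2148532224) .dd))) (.ch (nat_lit 1) (.ev (nat_lit 1264) (nat_lit 2147483648) (.ev (nat_lit 1280)
 (nat_lit 1048576) (.fin (nat_lit 576449207445439052)))))) (.br (nat_lit 7) (.ch (nat_lit 2) (.ev (nat_lit
 1264) (nat_lit 2150629376) (.ev (nat_lit 1277) (nat_lit 4194304) .dd))) (.br (nat_lit 9) (.ch (nat_lit 7) (.ev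
 (nat_lit 1264) (nat_lit 7340032) (.ev (nat_lit 1277) (nat_lit 2147483648) .dd))) (.ch (nat_lit 9) (.ev
 (nat_lit 1264) (nat_lit 2154823680) .dd)))))))))))))))) (.br (nat_lit 18) (.br (nat_lit 17) (.ch (nat_lit 13)
 (.ev (nat_lit 52) (nat_lit 73687663110) (.ev (nat_lit 308) (nat_lit 32) (.ev (nat_lit 404) (nat_lit
 34359738368) (.ev (nat_lit 468) (nat_lit 8589934592) (.ev (nat_lit 564) (nat_lit 274877906944) (.ev (nat_lit
 816) (nat_lit 17592190238728) (.nd (nat_lit 1248) (.br (nat_lit 5) (.ch (nat_lit 2) (.ev (nat_lit 1264)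
 (nat_lit 2148532224) (.fin (nat_lit 576473396701250135)))) (.br (nat_lit 9) (.ch (nat_lit 5) (.ev (nat_lit
 1264) (nat_lit 2415919104) (.ev (nat_lit 1280) (nat_lit 35184373137408) .dd))) (.ch (nat_lit 9) (.ev (nat_lit
 1264) (nat_lit 35184641572864) (.ev (nat_lit 1277) (nat_lit 2147483648) .dd))))))))))))) (.ch (nat_lit 17)
 (.ev (nat_lit 52) (nat_lit 17700237606952) (.ev (nat_lit 84) (nat_lit 268435456) (.ev (nat_lit 244) (nat_lit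
 2147483648) (.ev (nat_lit 340) (nat_lit 274877906944) (.ev (nat_lit 500) (nat_lit 32768) (.ev (nat_lit 960)
 (nat_lit 35184372089348) (.nd (nat_lit 1248) (.br (nat_lit 7) (.ch (nat_lit 0) (.ev (nat_lit 1264) (nat_lit
 8589934594) (.ev (nat_lit 1277) (nat_lit 1048576) .dd))) (.br (nat_lit 9) (.ch (nat_lit 7) (.ev (nat_lit 1264)
 (nat_lit 1048576) (.ev (nat_lit 1280) (nat_lit 8589934592) (.ev (nat_lit 1293) (nat_lit 2) .dd)))) (.ch
 (nat_lit 9) (.ev (nat_lit 1264) (nat_lit 8590983168) (.ev (nat_lit 1277) (nat_lit 2) .dd)))))))))))))) (.br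
 (nat_lit 21) (.ch (nat_lit 18) (.ev (nat_lit 52) (nat_lit 35504749806082) (.ev (nat_lit 244) (nat_lit 4) (.ev
 (nat_lit 308) (nat_lit 17592186044416) (.ev (nat_lit 372) (nat_lit 4194304) (.ev (nat_lit 468) (nat_lit
 68719476736) (.ev (nat_lit 724) (nat_lit 32768) (.ev (nat_lit 1024) (nat_lit 2097160) (.nd (nat_lit 1248) (.br
 (nat_lit 2) (.br (nat_lit 1) (.ch (nat_lit 0) (.ev (nat_lit 1264) (nat_lit 537919488) (.ev (nat_lit 1312)
 (nat_lit 4294967328) .dd))) (.ch (nat_lit 1) (.ev (nat_lit 1264) (nat_lit 4832886816) .dd))) (.br (nat_lit 5)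
 (.ch (nat_lit 2) (.ev (nat_lit 1264) (nat_lit 4832886784) (.ev (nat_lit 1277) (nat_lit 32) .dd))) (.br
 (nat_lit 10) (.ch (nat_lit 5) (.ev (nat_lit 1264) (nat_lit 32) (.ev (nat_lit 1280) (nat_lit 4294967296) (.fin
 (nat_lit 576453605502435893))))) (.ch (nat_lit 10) (.ev (nat_lit 1264) (nat_lit 4831838240) (.ev (nat_lit
 1277) (nat_lit 1048576) .dd))))))))))))))) (.ch (nat_lit 21) (.ev (nat_lit 52) (nat_lit 17603864035872) (.ev
 (nat_lit 308) (nat_lit 35184372088832) (.ev (nat_lit 340) (nat_lit 32768) (.ev (nat_lit 372) (nat_lit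
 274877906944) (.ev (nat_lit 404) (nat_lit 4194304) (.ev (nat_lit 756) (nat_lit 2097152) (.ev (nat_lit 1072)
 (nat_lit 68719476740) (.ev (nat_lit 1222) (nat_lit 34359738368) (.nd (nat_lit 1248) (.br (nat_lit 2) (.br
 (nat_lit 1) (.ch (nat_lit 0) (.ev (nat_lit 1264) (nat_lit 4294967306) .dd)) (.ch (nat_lit 1) (.ev (nat_lit
 1264) (nat_lit 4294967304) (.ev (nat_lit 1277) (nat_lit 2) .dd)))) (.br (nat_lit 9) (.ch (nat_lit 2) (.ev
 (nat_lit 1264) (nat_lit 10) (.ev (nat_lit 1277) (nat_lit 4294967296) .dd))) (.ch (nat_lit 9) (.ev (nat_lit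
 1264) (nat_lit 4294967298) (.ev (nat_lit 1277) (nat_lit 8) .dd))))))))))))))))))) (.br (nat_lit 34) (.br
 (nat_lit 30) (.br (nat_lit 25) (.ch (nat_lit 22) (.ev (nat_lit 52) (nat_lit 381049372682) (.ev (nat_lit 84)
 (nat_lit 512) (.ev (nat_lit 468) (nat_lit 4294967296) (.ev (nat_lit 500) (nat_lit 32) (.ev (nat_lit 564)
 (nat_lit 35184372088832) (.ev (nat_lit 724) (nat_lit 17592186044416) (.nd (nat_lit 1248) (.br (nat_lit 2) (.br
 (nat_lit 1) (.ch (nat_lit 0) (.ev (nat_lit 1264) (nat_lit 8592064512) (.ev (nat_lit 1277) (nat_lit 4) .dd)))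
 (.ch (nat_lit 1) (.ev (nat_lit 1264) (nat_lit 32772) (.ev (nat_lit 1312) (nat_lit 8589934592) (.ev (nat_lit
 1325) (nat_lit 2097152) .dd))))) (.br (nat_lit 7) (.ch (nat_lit 2) (.ev (nat_lit 1264) (nat_lit 8592064512)
 (.ev (nat_lit 1277) (nat_lit 4) .dd))) (.br (nat_lit 9) (.ch (nat_lit 7) (.ev (nat_lit 1264) (nat_lit
 8592064516) .dd)) (.ch (nat_lit 9) (.ev (nat_lit 1264) (nat_lit 8589934596) (.ev (nat_lit 1296) (nat_lit
 32768) (.ev (nat_lit 1309) (nat_lit 2097152) .dd))))))))))))))) (.br (nat_lit 26) (.ch (nat_lit 25) (.ev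
 (nat_lit 52) (nat_lit 284005761574) (.ev (nat_lit 84) (nat_lit 134217728) (.ev (nat_lit 148) (nat_lit
 268435456) (.ev (nat_lit 244) (nat_lit 68719476736) (.ev (nat_lit 308) (nat_lit 4194304) (.ev (nat_lit 436)
 (nat_lit 17592186044416) (.ev (nat_lit 564) (nat_lit 2097152) (.nd (nat_lit 1248) (.br (nat_lit 9) (.br
 (nat_lit 2) (.ch (nat_lit 0) (.ev (nat_lit 1264) (nat_lit 35218731859976) (.nd (nat_lit 1408) (.br (nat_lit 7)
 (.ch (nat_lit 1) (.ev (nat_lit 1424) (nat_lit 6442450944) .dd)) (.ch (nat_lit 7) (.fin (nat_lit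
 576461302061810230))))))) (.ch (nat_lit 2) (.ev (nat_lit 1264) (nat_lit 40802222088) (.ev (nat_lit 1277)
 (nat_lit 35184372088832) .dd)))) (.br (nat_lit 10) (.ch (nat_lit 9) (.ev (nat_lit 1264) (nat_lit
 35225174310912) (.ev (nat_lit 1277) (nat_lit 8) .dd))) (.ch (nat_lit 10) (.ev (nat_lit 1264) (nat_lit
 2147483656) (.ev (nat_lit 1280) (nat_lit 34359738368) (.ev (nat_lit 1332) (nat_lit 4294967296) (.ev (nat_lit
 1350) (nat_lit 35184372121600) .dd)))))))))))))))) (.ch (nat_lit 26) (.ev (nat_lit 52) (nat_lit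
 17660906602538) (.ev (nat_lit 212) (nat_lit 134217728) (.ev (nat_lit 500) (nat_lit 2097152) (.ev (nat_lit 784)
 (nat_lit 35459518431232) (.ev (nat_lit 1008) (nat_lit 8594129408) (.nd (nat_lit 1248) (.br (nat_lit 9) (.br
 (nat_lit 1) (.ch (nat_lit 0) (.ev (nat_lit 1264) (nat_lit 34896609280) (.ev (nat_lit 1280) (nat_lit 4) (.fin
 (nat_lit 576461302061810230))))) (.ch (nat_lit 1) (.ev (nat_lit 1264) (nat_lit 6442450948) (.fin (nat_lit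
 576468998665224779))))) (.br (nat_lit 10) (.ch (nat_lit 9) (.ev (nat_lit 1264) (nat_lit 39191576576) (.ev
 (nat_lit 1280) (nat_lit 4) (.ev (nat_lit 1293) (nat_lit 2147483648) .dd)))) (.ch (nat_lit 10) (.ev (nat_lit
 1264) (nat_lit 41339060228) .dd))))))))))))) (.br (nat_lit 31) (.ch (nat_lit 30) (.ev (nat_lit 52) (nat_lit
 35575217291266) (.ev (nat_lit 148) (nat_lit 512) (.ev (nat_lit 180) (nat_lit 536870912) (.ev (nat_lit 212)
 (nat_lit 2415919104) (.ev (nat_lit 660) (nat_lit 134217728) (.ev (nat_lit 756) (nat_lit 17592186044416) (.ev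
 (nat_lit 848) (nat_lit 4194312) (.nd (nat_lit 1248) (.br (nat_lit 5) (.ch (nat_lit 0) (.ev (nat_lit 1264)
 (nat_lit 4) (.ev (nat_lit 1277) (nat_lit 32) .dd))) (.br (nat_lit 10) (.ch (nat_lit 5) (.ev (nat_lit 1264)
 (nat_lit 32) (.ev (nat_lit 1277) (nat_lit 4) .dd))) (.ch (nat_lit 10) (.ev (nat_lit 1264) (nat_lit 36)
 .dd))))))))))))) (.br (nat_lit 33) (.ch (nat_lit 31) (.ev (nat_lit 52) (nat_lit 53124723146784) (.ev (nat_lit
 148) (nat_lit 4) (.ev (nat_lit 224) (nat_lit 45771391498) .dd)))) (.ch (nat_lit 33) (.ev (nat_lit 52) (nat_lit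
 39196852746) (.ev (nat_lit 84) (nat_lit 68719476736) (.ev (nat_lit 116) (nat_lit 17592186044448) (.ev (nat_lit
 244) (nat_lit 8589934592) (.ev (nat_lit 308) (nat_lit 274877906944) (.ev (nat_lit 468) (nat_lit 134217728)
 (.ev (nat_lit 640) (nat_lit 35186790105092) .dd))))))))))) (.br (nat_lit 37) (.br (nat_lit 35) (.ch (nat_lit
 34) (.ev (nat_lit 52) (nat_lit 35463679180840) (.ev (nat_lit 64) (nat_lit 17706815357446) .dd))) (.br (nat_lit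
 36) (.ch (nat_lit 35) (.ev (nat_lit 52) (nat_lit 52820449460228) (.ev (nat_lit 116) (nat_lit 274877906944)
 (.ev (nat_lit 148) (nat_lit 8) (.ev (nat_lit 244) (nat_lit 4294967296) (.ev (nat_lit 628) (nat_lit 4194304)
 (.ev (nat_lit 692) (nat_lit 2147483648) (.ev (nat_lit 912) (nat_lit 1048610) (.nd (nat_lit 1248) (.br (nat_lit
 7) (.ch (nat_lit 2) (.fin (nat_lit 576462401572389440))) (.br (nat_lit 10) (.ch (nat_lit 7) (.ev (nat_lit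
 1264) (nat_lit 68719477248) .dd)) (.ch (nat_lit 10) (.ev (nat_lit 1264) (nat_lit 68719477248) .dd)))))))))))))
 (.ch (nat_lit 36) (.ev (nat_lit 52) (nat_lit 35530790142508) (.ev (nat_lit 212) (nat_lit 2) (.ev (nat_lit 596)
 (nat_lit 17626545782784) (.nd (nat_lit 1248) (.br (nat_lit 2) (.br (nat_lit 1) (.ch (nat_lit 0) (.ev (nat_lit
 1264) (nat_lit 13157564416) (.ev (nat_lit 1277) (nat_lit 1048576) .dd))) (.ch (nat_lit 1) (.ev (nat_lit 1264)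
 (nat_lit 4568645632) (.ev (nat_lit 1296) (nat_lit 8589967360) .dd)))) (.br (nat_lit 5) (.ch (nat_lit 2) (.ev
 (nat_lit 1264) (nat_lit 8591015936) (.ev (nat_lit 1296) (nat_lit 4194304) (.nd (nat_lit 1408) (.br (nat_lit 7)
 (.ch (nat_lit 1) (.fin (nat_lit 576466799610511961))) (.ch (nat_lit 7) (.ev (nat_lit 1424) (nat_lit
 4563402752) .dd))))))) (.ch (nat_lit 5) (.ev (nat_lit 1264) (nat_lit 4567629824) (.ev (nat_lit 1296) (nat_lit
 8589934592) (.ev (nat_lit 1309) (nat_lit 1048576) .dd))))))))))))) (.br (nat_lit 39) (.br (nat_lit 38) (.ch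
 (nat_lit 37) (.ev (nat_lit 52) (nat_lit 35218873385484) (.ev (nat_lit 128) (nat_lit 17951621152802) .dd)))
 (.ch (nat_lit 38) (.ev (nat_lit 52) (nat_lit 52847693561900) (.ev (nat_lit 116) (nat_lit 4194304) (.ev
 (nat_lit 148) (nat_lit 1048576) (.ev (nat_lit 212) (nat_lit 512) (.ev (nat_lit 660) (nat_lit 2) (.ev (nat_lit
 1152) (nat_lit 8589934592) (.ev (nat_lit 1200) (nat_lit 2097152) (.nd (nat_lit 1248) (.br (nat_lit 2) (.br
 (nat_lit 1) (.ch (nat_lit 0) (.ev (nat_lit 1264) (nat_lit 279843962880) (.ev (nat_lit 1277) (nat_lit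
 34359738368) .dd))) (.ch (nat_lit 1) (.ev (nat_lit 1264) (nat_lit 279172874240) (.ev (nat_lit 1312) (nat_lit
 134217728) (.fin (nat_lit 576453605456298549)))))) (.br (nat_lit 5) (.ch (nat_lit 2) (.ev (nat_lit 1264)
 (nat_lit 39191576576) (.ev (nat_lit 1312) (nat_lit 275012124672) .dd))) (.br (nat_lit 10) (.ch (nat_lit 5)
 (.ev (nat_lit 1264) (nat_lit 309908733952) (.ev (nat_lit 1277) (nat_lit 4294967296) .dd))) (.ch (nat_lit 10)
 (.ev (nat_lit 1264) (nat_lit 314203701248) .dd))))))))))))))) (.br (nat_lit 42) (.ch (nat_lit 39) (.ev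
 (nat_lit 52) (nat_lit 346556465666) (.ev (nat_lit 84) (nat_lit 4294967296) (.ev (nat_lit 404) (nat_lit
 17592186044416) (.ev (nat_lit 468) (nat_lit 4) (.ev (nat_lit 692) (nat_lit 8) (.ev (nat_lit 756) (nat_lit
 32768) (.nd (nat_lit 1248) (.br (nat_lit 2) (.br (nat_lit 1) (.ch (nat_lit 0) (.ev (nat_lit 1264) (nat_lit
 35227457028096) (.ev (nat_lit 1277) (nat_lit 32) .dd))) (.ch (nat_lit 1) (.ev (nat_lit 1264) (nat_lit
 35227321761824) (.nd (nat_lit 1408) (.br (nat_lit 10) (.ch (nat_lit 2) (.ev (nat_lit 1424) (nat_lit 135266304)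
 .dd)) (.ch (nat_lit 10) (.fin (nat_lit 576456904023687742)))))))) (.br (nat_lit 7) (.ch (nat_lit 2) (.ev
 (nat_lit 1264) (nat_lit 43084939296) (.ev (nat_lit 1277) (nat_lit 35184372088832) .dd))) (.ch (nat_lit 7) (.ev
 (nat_lit 1264) (nat_lit 35184373137408) (.ev (nat_lit 1280) (nat_lit 8589934592) (.ev (nat_lit 1332) (nat_lit
 134217728) (.ev (nat_lit 1382) (nat_lit 34359738400) .dd))))))))))))))) (.ch (nat_lit 42) (.ev (nat_lit 52)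
 (nat_lit 288307053058) (.ev (nat_lit 192) (nat_lit 52882187485228) .dd))))))))))

/-- Subtrie. -/
noncomputable def T4 : Tr := (.ev (nat_lit 20) (nat_lit 17594535680518) (.nd (nat_lit 33) (.br (nat_lit 22)
 (.br (nat_lit 9) (.br (nat_lit 6) (.br (nat_lit 4) (.ch (nat_lit 1) (.ev (nat_lit 52) (nat_lit 70656815284256)
 (.ev (nat_lit 308) (nat_lit 536870912) (.ev (nat_lit 596) (nat_lit 4398046511104) (.ev (nat_lit 1056) (nat_lit
 34359738376) (.nd (nat_lit 1248) (.br (nat_lit 4) (.br (nat_lit 2) (.ch (nat_lit 0) (.ev (nat_lit 1264)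
 (nat_lit 35184373202944) (.ev (nat_lit 1277) (nat_lit 68719476736) .dd))) (.ch (nat_lit 2) (.ev (nat_lit 1264)
 (nat_lit 35253091631104) (.ev (nat_lit 1277) (nat_lit 1048576) .dd)))) (.br (nat_lit 7) (.ch (nat_lit 4) (.ev
 (nat_lit 1264) (nat_lit 68720590848) (.ev (nat_lit 1277) (nat_lit 35184372088832) .dd))) (.ch (nat_lit 7) (.ev
 (nat_lit 1264) (nat_lit 35253092614144) (.ev (nat_lit 1277) (nat_lit 65536) .dd))))))))))) (.br (nat_lit 5)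
 (.ch (nat_lit 4) (.ev (nat_lit 52) (nat_lit 70652249833472) (.ev (nat_lit 180) (nat_lit 34359738368) (.ev
 (nat_lit 340) (nat_lit 35184372088832) (.ev (nat_lit 372) (nat_lit 268435456) (.ev (nat_lit 436) (nat_lit
 4398047559680) (.ev (nat_lit 724) (nat_lit 536870912) (.ev (nat_lit 832) (nat_lit 68721573896) (.nd (nat_lit
 1248) (.br (nat_lit 5) (.ch (nat_lit 0) (.ev (nat_lit 1264) (nat_lit 16416) (.ev (nat_lit 1277) (nat_lit
 4294967296) .dd))) (.br (nat_lit 6) (.ch (nat_lit 5) (.ev (nat_lit 1264) (nat_lit 16384) (.ev (nat_lit 1280)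
 (nat_lit 32) (.ev (nat_lit 1293) (nat_lit 4294967296) .dd)))) (.ch (nat_lit 6) (.ev (nat_lit 1264) (nat_lit
 4294967328) (.ev (nat_lit 1277) (nat_lit 16384) .dd)))))))))))))) (.ch (nat_lit 5) (.ev (nat_lit 52) (nat_lit
 39690602348552) (.ev (nat_lit 116) (nat_lit 16384) (.ev (nat_lit 276) (nat_lit 274877906944) (.ev (nat_lit
 500) (nat_lit 8589934592) (.ev (nat_lit 660) (nat_lit 32) (.nd (nat_lit 1248) (.br (nat_lit 4) (.br (nat_lit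
 2) (.ch (nat_lit 0) (.ev (nat_lit 1264) (nat_lit 70368779829248) (.ev (nat_lit 1277) (nat_lit 1048576) .dd)))
 (.ch (nat_lit 2) (.ev (nat_lit 1264) (nat_lit 70368780877824) .dd))) (.br (nat_lit 5) (.ch (nat_lit 4) (.ev
 (nat_lit 1264) (nat_lit 3145728) (.ev (nat_lit 1312) (nat_lit 33554432) (.ev (nat_lit 1325) (nat_lit
 70368744177664) .dd)))) (.br (nat_lit 8) (.ch (nat_lit 5) (.ev (nat_lit 1264) (nat_lit 34603008) (.ev (nat_lit
 1296) (nat_lit 2097152) (.ev (nat_lit 1309) (nat_lit 70368744177664) .dd)))) (.ch (nat_lit 8) (.ev (nat_lit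
 1264) (nat_lit 70368779829248) (.ev (nat_lit 1277) (nat_lit 1048576) .dd))))))))))))))) (.br (nat_lit 7) (.ch
 (nat_lit 6) (.ev (nat_lit 52) (nat_lit 35468413501440) (.ev (nat_lit 84) (nat_lit 8) (.ev (nat_lit 148)
 (nat_lit 103079215104) (.ev (nat_lit 532) (nat_lit 4294967296) (.ev (nat_lit 564) (nat_lit 16384) (.ev
 (nat_lit 864) (nat_lit 74766790688768) (.ev (nat_lit 1104) (nat_lit 65568) (.nd (nat_lit 1248) (.br (nat_lit
 4) (.ch (nat_lit 2) (.ev (nat_lit 1264) (nat_lit 272629760) .dd)) (.br (nat_lit 6) (.ch (nat_lit 4) (.ev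
 (nat_lit 1264) (nat_lit 272629760) .dd)) (.ch (nat_lit 6) (.fin (nat_lit 576461302059713084)))))))))))))) (.br
 (nat_lit 8) (.ch (nat_lit 7) (.ev (nat_lit 52) (nat_lit 39891657359392) (.ev (nat_lit 96) (nat_lit
 70451193724936) .dd))) (.ch (nat_lit 8) (.ev (nat_lit 52) (nat_lit 35291749433352) (.ev (nat_lit 116) (nat_lit
 536870912) (.ev (nat_lit 468) (nat_lit 70368744177664) (.ev (nat_lit 500) (nat_lit 4398046511104) (.ev
 (nat_lit 564) (nat_lit 274877906944) (.ev (nat_lit 896) (nat_lit 65568) (.ev (nat_lit 1120) (nat_lit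
 8623489024) (.nd (nat_lit 1248) (.br (nat_lit 5) (.ch (nat_lit 0) (.ev (nat_lit 1264) (nat_lit 272629760)
 .dd)) (.br (nat_lit 6) (.ch (nat_lit 5) (.ev (nat_lit 1264) (nat_lit 272629760) .dd)) (.ch (nat_lit 6) (.fin
 (nat_lit 576461302059713084))))))))))))))))) (.br (nat_lit 13) (.br (nat_lit 10) (.ch (nat_lit 9) (.ev
 (nat_lit 52) (nat_lit 4509718806528) (.ev (nat_lit 148) (nat_lit 8) (.ev (nat_lit 212) (nat_lit 32) (.ev
 (nat_lit 308) (nat_lit 4294967296) (.ev (nat_lit 340) (nat_lit 274877906944) (.ev (nat_lit 372) (nat_lit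
 536870912) (.ev (nat_lit 500) (nat_lit 268435456) (.ev (nat_lit 564) (nat_lit 35184372088832) (.ev (nat_lit
 628) (nat_lit 4194304) (.ev (nat_lit 1136) (nat_lit 70368744194048) (.nd (nat_lit 1248) (.br (nat_lit 4) (.ch
 (nat_lit 0) (.ev (nat_lit 1264) (nat_lit 33619968) .dd)) (.br (nat_lit 8) (.ch (nat_lit 4) (.ev (nat_lit 1264)
 (nat_lit 65536) (.ev (nat_lit 1277) (nat_lit 33554432) .dd))) (.ch (nat_lit 8) (.fin (nat_lit
 576466799627289177))))))))))))))))) (.br (nat_lit 12) (.ch (nat_lit 10) (.ev (nat_lit 52) (nat_lit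
 70760429256736) (.ev (nat_lit 148) (nat_lit 2097152) (.ev (nat_lit 576) (nat_lit 39582419730440) .dd)))) (.ch
 (nat_lit 12) (.ev (nat_lit 52) (nat_lit 4471899815976) (.ev (nat_lit 84) (nat_lit 65536) (.ev (nat_lit 116)
 (nat_lit 8589934592) (.ev (nat_lit 308) (nat_lit 1048576) (.ev (nat_lit 480) (nat_lit 105862360219648)
 .dd)))))))) (.br (nat_lit 18) (.br (nat_lit 17) (.ch (nat_lit 13) (.ev (nat_lit 52) (nat_lit 70442297606144)
 (.ev (nat_lit 340) (nat_lit 8590983168) (.ev (nat_lit 404) (nat_lit 268435456) (.ev (nat_lit 532) (nat_lit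
 274877906944) (.ev (nat_lit 596) (nat_lit 35184372088832) (.ev (nat_lit 928) (nat_lit 40) (.ev (nat_lit 1184)
 (nat_lit 4194304) (.nd (nat_lit 1248) (.br (nat_lit 5) (.ch (nat_lit 2) (.ev (nat_lit 1264) (nat_lit
 34393292800) (.ev (nat_lit 1280) (nat_lit 4398046576640) .dd))) (.br (nat_lit 8) (.ch (nat_lit 5) (.ev
 (nat_lit 1264) (nat_lit 4398080131072) (.ev (nat_lit 1277) (nat_lit 34359738368) .dd))) (.ch (nat_lit 8) (.ev
 (nat_lit 1264) (nat_lit 4432406249472) (.fin (nat_lit 576455804494234151))))))))))))))) (.ch (nat_lit 17) (.ev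
 (nat_lit 52) (nat_lit 74874708033576) (.ev (nat_lit 244) (nat_lit 65536) (.ev (nat_lit 276) (nat_lit 1048576)
 (.ev (nat_lit 404) (nat_lit 35184372088832) (.ev (nat_lit 608) (nat_lit 283769847808) .dd))))))) (.br (nat_lit
 21) (.ch (nat_lit 18) (.ev (nat_lit 52) (nat_lit 110269258809344) (.ev (nat_lit 288) (nat_lit 73592274984)
 .dd))) (.ch (nat_lit 21) (.ev (nat_lit 52) (nat_lit 70378174087200) (.ev (nat_lit 116) (nat_lit 4194304) (.ev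
 (nat_lit 320) (nat_lit 39964672802824) .dd)))))))) (.br (nat_lit 34) (.br (nat_lit 30) (.br (nat_lit 25) (.ch
 (nat_lit 22) (.ev (nat_lit 52) (nat_lit 4776814264328) (.ev (nat_lit 212) (nat_lit 2097152) (.ev (nat_lit 404)
 (nat_lit 8589934592) (.ev (nat_lit 596) (nat_lit 4294967296) (.ev (nat_lit 944) (nat_lit 35184405643264) (.nd
 (nat_lit 1248) (.br (nat_lit 5) (.ch (nat_lit 0) (.ev (nat_lit 1264) (nat_lit 70368744177696) .dd)) (.br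
 (nat_lit 8) (.ch (nat_lit 5) (.fin (nat_lit 576462401572389465))) (.ch (nat_lit 8) (.ev (nat_lit 1264)
 (nat_lit 70368744177696) .dd))))))))))) (.br (nat_lit 26) (.ch (nat_lit 25) (.ev (nat_lit 52) (nat_lit
 70652750020640) (.ev (nat_lit 180) (nat_lit 2097152) (.ev (nat_lit 340) (nat_lit 4398046511104) (.ev (nat_lit
 416) (nat_lit 35292052455432) .dd))))) (.ch (nat_lit 26) (.ev (nat_lit 52) (nat_lit 4466800590888) (.ev
 (nat_lit 84) (nat_lit 34359738368) (.ev (nat_lit 276) (nat_lit 536870912) (.ev (nat_lit 436) (nat_lit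
 268435456) (.ev (nat_lit 500) (nat_lit 274877906944) (.ev (nat_lit 532) (nat_lit 35184372088832) (.ev (nat_lit
 564) (nat_lit 4194304) (.ev (nat_lit 660) (nat_lit 70368744177664) (.nd (nat_lit 1248) (.br (nat_lit 5) (.br
 (nat_lit 4) (.ch (nat_lit 0) (.ev (nat_lit 1264) (nat_lit 8589934592) (.ev (nat_lit 1280) (nat_lit 16384) (.ev
 (nat_lit 1332) (nat_lit 4294967296) (.ev (nat_lit 1392) (nat_lit 2162688) .dd))))) (.ch (nat_lit 4) (.ev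
 (nat_lit 1264) (nat_lit 8592113664) (.ev (nat_lit 1277) (nat_lit 4294967296) .dd)))) (.br (nat_lit 7) (.ch
 (nat_lit 5) (.ev (nat_lit 1264) (nat_lit 12884983808) (.ev (nat_lit 1277) (nat_lit 2097152) .dd))) (.ch
 (nat_lit 7) (.ev (nat_lit 1264) (nat_lit 4297146368) (.ev (nat_lit 1277) (nat_lit 8589934592)
 .dd))))))))))))))))) (.br (nat_lit 31) (.ch (nat_lit 30) (.ev (nat_lit 52) (nat_lit 105943961436160) (.ev
 (nat_lit 276) (nat_lit 268435456) (.ev (nat_lit 384) (nat_lit 4398621212712) .dd)))) (.br (nat_lit 33) (.ch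
 (nat_lit 31) (.ev (nat_lit 52) (nat_lit 39930583580704) (.ev (nat_lit 84) (nat_lit 33554432) (.ev (nat_lit
 212) (nat_lit 65536) (.ev (nat_lit 244) (nat_lit 70368744177664) (.ev (nat_lit 276) (nat_lit 8589934592) (.ev
 (nat_lit 532) (nat_lit 1048576) (.ev (nat_lit 704) (nat_lit 34898722824) .dd)))))))) (.ch (nat_lit 33) (.ev
 (nat_lit 52) (nat_lit 4437276901384) (.ev (nat_lit 276) (nat_lit 35184372088832) (.ev (nat_lit 628) (nat_lit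
 274877906944) (.ev (nat_lit 1088) (nat_lit 68987912192) (.ev (nat_lit 1238) (nat_lit 65536) (.nd (nat_lit
 1248) (.br (nat_lit 4) (.br (nat_lit 2) (.ch (nat_lit 0) (.ev (nat_lit 1264) (nat_lit 70377336209440) .dd))
 (.ch (nat_lit 2) (.ev (nat_lit 1264) (nat_lit 70377334112288) (.ev (nat_lit 1277) (nat_lit 2097152) .dd))))
 (.br (nat_lit 5) (.ch (nat_lit 4) (.ev (nat_lit 1264) (nat_lit 70368746274848) (.ev (nat_lit 1277) (nat_lit
 8589934592) .dd))) (.br (nat_lit 8) (.ch (nat_lit 5) (.ev (nat_lit 1264) (nat_lit 8589934592) (.ev (nat_lit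
 1312) (nat_lit 2097152) (.fin (nat_lit 576460202549133863))))) (.ch (nat_lit 8) (.ev (nat_lit 1264) (nat_lit
 70377336209408) (.ev (nat_lit 1277) (nat_lit 32) .dd)))))))))))))))) (.br (nat_lit 37) (.br (nat_lit 35) (.ch
 (nat_lit 34) (.ev (nat_lit 52) (nat_lit 105832289222696) (.ev (nat_lit 308) (nat_lit 268435456) (.ev (nat_lit
 352) (nat_lit 4510293426176) .dd)))) (.br (nat_lit 36) (.ch (nat_lit 35) (.ev (nat_lit 52) (nat_lit
 35228129165312) (.ev (nat_lit 84) (nat_lit 70368744177664) (.ev (nat_lit 180) (nat_lit 68719476744) (.ev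
 (nat_lit 372) (nat_lit 16384) (.ev (nat_lit 436) (nat_lit 4194304) (.ev (nat_lit 512) (nat_lit 4677254053920)
 .dd))))))) (.ch (nat_lit 36) (.ev (nat_lit 52) (nat_lit 39926555017256) (.ev (nat_lit 116) (nat_lit 269484032)
 (.ev (nat_lit 276) (nat_lit 16384) (.ev (nat_lit 724) (nat_lit 8589934592) (.ev (nat_lit 756) (nat_lit
 4194304) (.ev (nat_lit 976) (nat_lit 70368777732096) (.nd (nat_lit 1248) (.br (nat_lit 4) (.ch (nat_lit 2)
 (.ev (nat_lit 1264) (nat_lit 38654705664) .dd)) (.br (nat_lit 6) (.ch (nat_lit 4) (.ev (nat_lit 1264) (nat_lit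
 34359738368) (.ev (nat_lit 1277) (nat_lit 4294967296) .dd))) (.ch (nat_lit 6) (.ev (nat_lit 1264) (nat_lit
 4294967296) (.ev (nat_lit 1277) (nat_lit 34359738368) .dd))))))))))))))) (.br (nat_lit 39) (.br (nat_lit 38)
 (.ch (nat_lit 37) (.ev (nat_lit 52) (nat_lit 35218739249160) (.ev (nat_lit 180) (nat_lit 33554432) (.ev
 (nat_lit 276) (nat_lit 4294967296) (.ev (nat_lit 404) (nat_lit 536870912) (.ev (nat_lit 544) (nat_lit
 75119246442528) .dd)))))) (.ch (nat_lit 38) (.ev (nat_lit 52) (nat_lit 105622137798696) (.ev (nat_lit 256)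
 (nat_lit 4720713285632) .dd)))) (.br (nat_lit 42) (.ch (nat_lit 39) (.ev (nat_lit 52) (nat_lit 70713186795520)
 (.ev (nat_lit 212) (nat_lit 8) (.ev (nat_lit 372) (nat_lit 4294967296) (.ev (nat_lit 596) (nat_lit 8589934592)
 (.nd (nat_lit 1248) (.br (nat_lit 4) (.br (nat_lit 2) (.ch (nat_lit 0) (.ev (nat_lit 1264) (nat_lit
 39616778338336) (.ev (nat_lit 1277) (nat_lit 1048576) .dd))) (.ch (nat_lit 2) (.ev (nat_lit 1264) (nat_lit
 35184372088832) (.ev (nat_lit 1280) (nat_lit 4398046511104) (.ev (nat_lit 1332) (nat_lit 1048576) (.ev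
 (nat_lit 1360) (nat_lit 34359738400) .dd)))))) (.br (nat_lit 5) (.ch (nat_lit 4) (.ev (nat_lit 1264) (nat_lit
 4432407298080) (.ev (nat_lit 1277) (nat_lit 35184372088832) .dd))) (.ch (nat_lit 5) (.ev (nat_lit 1264)
 (nat_lit 39616779386880) (.ev (nat_lit 1277) (nat_lit 32) .dd))))))))))) (.ch (nat_lit 42) (.ev (nat_lit 52)
 (nat_lit 4686387167232) (.ev (nat_lit 372) (nat_lit 35184372088832) (.ev (nat_lit 468) (nat_lit 32) (.ev
 (nat_lit 692) (nat_lit 68719476736) (.ev (nat_lit 736) (nat_lit 70403372351496) .dd)))))))))))))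

/-- The trie. -/
noncomputable def T : Tr := .nd (nat_lit 1000000) (.br (nat_lit 4) (.br (nat_lit 1) (.ch (nat_lit 0) (.ev
 (nat_lit 0) (nat_lit 140737488355327) .dd)) (.ch (nat_lit 1) T1)) (.br (nat_lit 5) (.ch (nat_lit 4) T4) (.br
 (nat_lit 10) (.ch (nat_lit 5) (.ev (nat_lit 0) (nat_lit 140737488355327) .dd)) (.ch (nat_lit 10) (.ev (nat_lit
 0) (nat_lit 140737488355327) .dd)))))

/-- The possible values. -/
noncomputable def oks : List ℕ := [3, 34, 202, 1203]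

/-- The parameters. -/
noncomputable def S : Pr := ⟨fun i l e => lget mz (lget [] (lget [] tabs i) l) e, oks, [(nat_lit 0), (nat_lit
 1), (nat_lit 0), (nat_lit 0)], T, (nat_lit 140737488355327), (nat_lit 12800101590481), (nat_lit 47), [(nat_lit
 1057), (nat_lit 3303796230157)], [(nat_lit 1331), (nat_lit 1849)]⟩

/-- Nothing known. -/
noncomputable def cs0 : Cs := (.cons (nat_lit 11) (nat_lit 0) (nat_lit 1) (.cons (nat_lit 43) (nat_lit 0) (nat_lit 1) .nil))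

theorem part_1 : part S cs0 (nat_lit 1) = true := by decide +kernel

theorem part_4 : part S cs0 (nat_lit 4) = true := by decide +kernel

/-- Data of a prime. -/
noncomputable def D0 : PD := ⟨(nat_lit 11), (nat_lit 3), (133, 3, 3), (288, 795, 527), (226, 1316, 1296)⟩

theorem D0_ok : D0.Ok := pdb_sound (s := 1) (C := ⟨⟨9, -6, -17, -1, -14, 8, -4, -1, -1⟩, (9, 10, 7)⟩) (by show Nat.Prime 11; norm_num) (by decide +kernel)

/-- Lines of the first type. -/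
noncomputable def Cl0 : List C1 := [⟨⟨-9, 6, -8, 1, 14, 7, 4, 1, -5⟩, (4, 2, 8)⟩,
  ⟨⟨0, 0, 0, 0, 0, 0, 0, 0, 0⟩, (0, 0, 0)⟩,
  ⟨⟨0, 0, 0, 0, 0, 0, 0, 0, 0⟩, (0, 0, 0)⟩,
  ⟨⟨0, 0, 0, 0, 0, 0, 0, 0, 0⟩, (0, 0, 0)⟩,
  ⟨⟨0, 0, 0, 0, 0, 0, 0, 0, 0⟩, (0, 0, 0)⟩,
  ⟨⟨9, 6, -17, -1, 14, 8, -4, 1, -1⟩, (8, 4, 5)⟩,
  ⟨⟨0, 0, 0, 0, 0, 0, 0, 0, 0⟩, (0, 0, 0)⟩,
  ⟨⟨0, 0, 0, 0, 0, 0, 0, 0, 0⟩, (0, 0, 0)⟩,
  ⟨⟨0, 0, 0, 0, 0, 0, 0, 0, 0⟩, (0, 0, 0)⟩,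
  ⟨⟨0, 0, 0, 0, 0, 0, 0, 0, 0⟩, (0, 0, 0)⟩,
  ⟨⟨-9, -6, -8, 1, -14, 7, 4, -1, -5⟩, (7, 9, 3)⟩]

/-- Data of a prime. -/
noncomputable def D1 : PD := ⟨(nat_lit 43), (nat_lit 2), (989, 1, 17), (1652, 774, 636), (172, 5, 130)⟩

theorem D1_ok : D1.Ok := pdb_sound (s := 1) (C := ⟨⟨43, -38, -44, 43, 38, 1, 0, 9, -19⟩, (5, 38, 9)⟩) (by show Nat.Prime 43; norm_num) (by decide +kernel)

/-- Lines of the first type. -/
noncomputable def Cl1 : List C1 := [⟨⟨43, 38, -44, 43, -38, 1, 0, -9, -19⟩, (42, 1, 24)⟩,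
  ⟨⟨0, 0, 0, 0, 0, 0, 0, 0, 0⟩, (0, 0, 0)⟩,
  ⟨⟨57, -18, -16, -17, -58, 1, 4, 1, -23⟩, (41, 27, 24)⟩,
  ⟨⟨7, -38, -56, -33, -42, 49, -16, 7, -1⟩, (28, 40, 22)⟩,
  ⟨⟨0, 0, 0, 0, 0, 0, 0, 0, 0⟩, (0, 0, 0)⟩,
  ⟨⟨0, 0, 0, 0, 0, 0, 0, 0, 0⟩, (0, 0, 0)⟩,
  ⟨⟨0, 0, 0, 0, 0, 0, 0, 0, 0⟩, (0, 0, 0)⟩,
  ⟨⟨0, 0, 0, 0, 0, 0, 0, 0, 0⟩, (0, 0, 0)⟩,
  ⟨⟨0, 0, 0, 0, 0, 0, 0, 0, 0⟩, (0, 0, 0)⟩,
  ⟨⟨0, 0, 0, 0, 0, 0, 0, 0, 0⟩, (0, 0, 0)⟩,
  ⟨⟨0, 0, 0, 0, 0, 0, 0, 0, 0⟩, (0, 0, 0)⟩,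
  ⟨⟨27, -18, -71, -53, -22, 4, -4, 17, -7⟩, (6, 36, 23)⟩,
  ⟨⟨0, 0, 0, 0, 0, 0, 0, 0, 0⟩, (0, 0, 0)⟩,
  ⟨⟨0, 0, 0, 0, 0, 0, 0, 0, 0⟩, (0, 0, 0)⟩,
  ⟨⟨-7, -2, -64, -47, -38, 31, 12, -15, -7⟩, (37, 15, 41)⟩,
  ⟨⟨-7, 2, -64, -47, 38, 31, 12, 15, -7⟩, (3, 14, 1)⟩,
  ⟨⟨-7, 38, -49, 33, 42, 16, 16, -7, -17⟩, (27, 14, 12)⟩,
  ⟨⟨0, 0, 0, 0, 0, 0, 0, 0, 0⟩, (0, 0, 0)⟩,
  ⟨⟨0, 0, 0, 0, 0, 0, 0, 0, 0⟩, (0, 0, 0)⟩,
  ⟨⟨57, 18, -16, -17, 58, 1, 4, -1, -23⟩, (36, 30, 41)⟩,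
  ⟨⟨53, 22, -49, 27, -18, 44, 4, -17, -11⟩, (6, 42, 11)⟩,
  ⟨⟨0, 0, 0, 0, 0, 0, 0, 0, 0⟩, (0, 0, 0)⟩,
  ⟨⟨0, 0, 0, 0, 0, 0, 0, 0, 0⟩, (0, 0, 0)⟩,
  ⟨⟨27, 18, -71, -53, 22, 4, -4, -17, -7⟩, (1, 6, 11)⟩,
  ⟨⟨57, -18, -41, -17, -58, 16, -4, -1, -19⟩, (7, 13, 41)⟩,
  ⟨⟨0, 0, 0, 0, 0, 0, 0, 0, 0⟩, (0, 0, 0)⟩,
  ⟨⟨0, 0, 0, 0, 0, 0, 0, 0, 0⟩, (0, 0, 0)⟩,
  ⟨⟨7, 38, -56, -33, 42, 49, -16, -7, -1⟩, (27, 14, 12)⟩,
  ⟨⟨7, 2, -71, -47, -38, 16, 12, -15, -5⟩, (3, 29, 42)⟩,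
  ⟨⟨7, -2, -71, -47, 38, 16, 12, 15, -5⟩, (37, 28, 2)⟩,
  ⟨⟨0, 0, 0, 0, 0, 0, 0, 0, 0⟩, (0, 0, 0)⟩,
  ⟨⟨0, 0, 0, 0, 0, 0, 0, 0, 0⟩, (0, 0, 0)⟩,
  ⟨⟨53, -22, -49, 27, 18, 44, 4, 17, -11⟩, (36, 37, 23)⟩,
  ⟨⟨0, 0, 0, 0, 0, 0, 0, 0, 0⟩, (0, 0, 0)⟩,
  ⟨⟨0, 0, 0, 0, 0, 0, 0, 0, 0⟩, (0, 0, 0)⟩,
  ⟨⟨0, 0, 0, 0, 0, 0, 0, 0, 0⟩, (0, 0, 0)⟩,
  ⟨⟨0, 0, 0, 0, 0, 0, 0, 0, 0⟩, (0, 0, 0)⟩,
  ⟨⟨0, 0, 0, 0, 0, 0, 0, 0, 0⟩, (0, 0, 0)⟩,
  ⟨⟨0, 0, 0, 0, 0, 0, 0, 0, 0⟩, (0, 0, 0)⟩,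
  ⟨⟨0, 0, 0, 0, 0, 0, 0, 0, 0⟩, (0, 0, 0)⟩,
  ⟨⟨-7, -38, -49, 33, -42, 16, 16, 7, -17⟩, (28, 40, 22)⟩,
  ⟨⟨57, 18, -41, -17, 58, 16, -4, 1, -19⟩, (2, 16, 24)⟩,
  ⟨⟨0, 0, 0, 0, 0, 0, 0, 0, 0⟩, (0, 0, 0)⟩]

/-- Data of a prime. -/
noncomputable def Dm : PD := ⟨(nat_lit 47), (nat_lit 2), (1034, 1, 9), (105, 517, 2039), (987, 5, 190)⟩

theorem Dm_ok : Dm.Ok := pdb_sound (s := 1) (C := ⟨⟨47, 2, -76, 47, -2, 29, 0, -21, -1⟩, (2, 45, 26)⟩) (by show Nat.Prime 47; norm_num) (by decide +kernel)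

/-- Lines of the first type. -/
noncomputable def Clm : List C1 := [⟨⟨47, -2, -76, 47, 2, 29, 0, 21, -1⟩, (9, 38, 23)⟩,
  ⟨⟨0, 0, 0, 0, 0, 0, 0, 0, 0⟩, (0, 0, 0)⟩,
  ⟨⟨0, 0, 0, 0, 0, 0, 0, 0, 0⟩, (0, 0, 0)⟩,
  ⟨⟨0, 0, 0, 0, 0, 0, 0, 0, 0⟩, (0, 0, 0)⟩,
  ⟨⟨17, 22, -76, -63, 18, 19, -4, -19, -7⟩, (10, 21, 17)⟩,
  ⟨⟨0, 0, 0, 0, 0, 0, 0, 0, 0⟩, (0, 0, 0)⟩,
  ⟨⟨57, -18, -61, -23, -62, 4, -8, 5, -17⟩, (3, 26, 7)⟩,
  ⟨⟨57, 18, -61, -23, 62, 4, -8, -5, -17⟩, (16, 29, 6)⟩,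
  ⟨⟨53, -22, -64, -13, -62, 29, -12, -3, -13⟩, (46, 10, 2)⟩,
  ⟨⟨0, 0, 0, 0, 0, 0, 0, 0, 0⟩, (0, 0, 0)⟩,
  ⟨⟨43, -38, -59, 3, -42, 56, -16, -11, -1⟩, (35, 9, 46)⟩,
  ⟨⟨0, 0, 0, 0, 0, 0, 0, 0, 0⟩, (0, 0, 0)⟩,
  ⟨⟨0, 0, 0, 0, 0, 0, 0, 0, 0⟩, (0, 0, 0)⟩,
  ⟨⟨-17, -22, -59, -63, 18, 44, 4, 19, -11⟩, (15, 39, 2)⟩,
  ⟨⟨0, 0, 0, 0, 0, 0, 0, 0, 0⟩, (0, 0, 0)⟩,
  ⟨⟨0, 0, 0, 0, 0, 0, 0, 0, 0⟩, (0, 0, 0)⟩,
  ⟨⟨0, 0, 0, 0, 0, 0, 0, 0, 0⟩, (0, 0, 0)⟩,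
  ⟨⟨53, 22, -64, -13, 62, 29, -12, 3, -13⟩, (41, 13, 12)⟩,
  ⟨⟨0, 0, 0, 0, 0, 0, 0, 0, 0⟩, (0, 0, 0)⟩,
  ⟨⟨0, 0, 0, 0, 0, 0, 0, 0, 0⟩, (0, 0, 0)⟩,
  ⟨⟨0, 0, 0, 0, 0, 0, 0, 0, 0⟩, (0, 0, 0)⟩,
  ⟨⟨0, 0, 0, 0, 0, 0, 0, 0, 0⟩, (0, 0, 0)⟩,
  ⟨⟨0, 0, 0, 0, 0, 0, 0, 0, 0⟩, (0, 0, 0)⟩,
  ⟨⟨43, 38, -59, 3, 42, 56, -16, 11, -1⟩, (5, 8, 20)⟩,
  ⟨⟨3, -42, -59, 43, -38, 16, 16, 11, -17⟩, (39, 42, 20)⟩,
  ⟨⟨0, 0, 0, 0, 0, 0, 0, 0, 0⟩, (0, 0, 0)⟩,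
  ⟨⟨0, 0, 0, 0, 0, 0, 0, 0, 0⟩, (0, 0, 0)⟩,
  ⟨⟨0, 0, 0, 0, 0, 0, 0, 0, 0⟩, (0, 0, 0)⟩,
  ⟨⟨0, 0, 0, 0, 0, 0, 0, 0, 0⟩, (0, 0, 0)⟩,
  ⟨⟨0, 0, 0, 0, 0, 0, 0, 0, 0⟩, (0, 0, 0)⟩,
  ⟨⟨-13, -62, -16, 53, -22, 11, 12, 3, -25⟩, (34, 6, 12)⟩,
  ⟨⟨0, 0, 0, 0, 0, 0, 0, 0, 0⟩, (0, 0, 0)⟩,
  ⟨⟨0, 0, 0, 0, 0, 0, 0, 0, 0⟩, (0, 0, 0)⟩,
  ⟨⟨0, 0, 0, 0, 0, 0, 0, 0, 0⟩, (0, 0, 0)⟩,
  ⟨⟨17, -22, -76, -63, -18, 19, -4, 19, -7⟩, (15, 8, 2)⟩,
  ⟨⟨0, 0, 0, 0, 0, 0, 0, 0, 0⟩, (0, 0, 0)⟩,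
  ⟨⟨0, 0, 0, 0, 0, 0, 0, 0, 0⟩, (0, 0, 0)⟩,
  ⟨⟨3, 42, -59, 43, 38, 16, 16, -11, -17⟩, (38, 12, 46)⟩,
  ⟨⟨0, 0, 0, 0, 0, 0, 0, 0, 0⟩, (0, 0, 0)⟩,
  ⟨⟨-13, 62, -16, 53, 22, 11, 12, -3, -25⟩, (37, 1, 2)⟩,
  ⟨⟨23, 62, -19, 57, -18, 4, 8, -5, -25⟩, (29, 31, 6)⟩,
  ⟨⟨23, -62, -19, 57, 18, 4, 8, 5, -25⟩, (26, 44, 7)⟩,
  ⟨⟨0, 0, 0, 0, 0, 0, 0, 0, 0⟩, (0, 0, 0)⟩,
  ⟨⟨-17, 22, -59, -63, -18, 44, 4, -19, -11⟩, (10, 26, 17)⟩,
  ⟨⟨0, 0, 0, 0, 0, 0, 0, 0, 0⟩, (0, 0, 0)⟩,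
  ⟨⟨0, 0, 0, 0, 0, 0, 0, 0, 0⟩, (0, 0, 0)⟩,
  ⟨⟨0, 0, 0, 0, 0, 0, 0, 0, 0⟩, (0, 0, 0)⟩]

/-- Unit moves. -/
noncomputable def U : List Mv := [mz,
  mz,
  ⟨⟨-1, 0, 1, 0, 1, 0, 0, 0, 1⟩, .nil, (nat_lit 10), (nat_lit 5), (nat_lit 1), (nat_lit 1), (0, 0, 0), [], 6⟩,
  ⟨⟨1, 0, 0, 0, -1, 0, 0, 0, 1⟩, .nil, (nat_lit 10), (nat_lit 10), (nat_lit 2), (nat_lit 1), (0, 0, 0), [], 10⟩,
  mz,
  mz,
  ⟨⟨-1, 0, 1, 0, -1, 0, 0, 0, 1⟩, .nil, (nat_lit 0), (nat_lit 6), (nat_lit 1), (nat_lit 0), (0, 0, 0), [], 5⟩,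
  ⟨⟨-1, 0, 1, 0, -1, 0, 0, 0, 1⟩, .nil, (nat_lit 0), (nat_lit 6), (nat_lit 1), (nat_lit 0), (0, 0, 0), [], 5⟩,
  ⟨⟨1, 0, 0, 0, -1, 0, 0, 0, 1⟩, .nil, (nat_lit 10), (nat_lit 10), (nat_lit 2), (nat_lit 1), (0, 0, 0), [], 10⟩,
  ⟨⟨-1, 0, 1, 0, 1, 0, 0, 0, 1⟩, .nil, (nat_lit 10), (nat_lit 5), (nat_lit 1), (nat_lit 1), (0, 0, 0), [], 6⟩,
  mz]

theorem v_ty : tyb Dm S.ty1 Clm = true := by decide +kernel

theorem v_ty0 : tyb D0 (S.tys.getD 0 0) Cl0 = true := by decide +kernel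

theorem v_ty1 : tyb D1 (S.tys.getD 1 0) Cl1 = true := by decide +kernel

theorem v_msc : mscb S D0 [D1] Dm (nat_lit 18) = true := by decide +kernel

theorem v_mv0 : mvsn (nat_lit 5436390971) S D0 [D1] Dm (nat_lit 18) 0 D0 = true := by decide +kernel

theorem v_mv1 : mvsn (nat_lit 5436390971) S D0 [D1] Dm (nat_lit 18) 1 D1 = true := by decide +kernel

theorem v_mm : mmsn (nat_lit 5436390971) S D0 [D1] Dm (nat_lit 18) = true := by decide +kernel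

theorem v_un : unb S D0 (nat_lit 18) U = true := by decide +kernel

theorem v_ok : okb S.oks [(0, 0, 0), (0, 0, 0), (0, 0, 0), (13, 32, 1)] = true := by decide +kernel

theorem v_part : ∀ d < D0.p, (nat_lit 18).testBit d = true → part S (zc (D0 :: [D1])) d = true := by
  intro d hd h
  have h1 : ∀ d < 11, (nat_lit 18).testBit d = true → d = 1 ∨ d = 4 := by decide
  rcases h1 d hd h with rfl | rfl
  · exact part_1
  · exact part_4

theorem main (n : ℕ) (ho : Odd n) (hr : ¬ Rep n) (h0 : Split 11 n) (h1 : Split 43 n) (hm : Split 47 n) :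
    n ∈ EE := by
  refine concln (W := nat_lit 5436390971) (S := S) (P0 := D0) (Pl := [D1]) (Pm := Dm) (cn := nat_lit 18) ?_ Dm_ok v_ty ?_ ?_ v_msc ?_ v_mm v_un v_part v_ok
    n ho hr ?_ hm
  · simp only [List.forall_mem_cons]
    exact ⟨D0_ok, D1_ok, fun _ h => absurd h (by simp)⟩
  · exact all2 (φ := fun j P => ∃ L, tyb P (S.tys.getD j 0) L = true) ⟨_, v_ty0⟩ ⟨_, v_ty1⟩
  · exact all2 (φ := fun j P => Nat.ble (S.pks.getD j 0) (Nat.pow P.p P.K) = true) (by decide +kernel) (by decide +kernel)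
  · exact all2 (φ := fun i P => mvsn (nat_lit 5436390971) S D0 [D1] Dm (nat_lit 18) i P = true) v_mv0 v_mv1
  · simp only [List.forall_mem_cons]
    exact ⟨h0, h1, fun _ h => absurd h (by simp)⟩

end Pool.Agent.Work.MP_9954fe_nt.P11_43_47

namespace Pool.Agent.Work.MP_9954fe_nt.P17_53

/-- Dummy move. -/
noncomputable def mz : Mv := ⟨⟨0, 0, 0, 0, 0, 0, 0, 0, 0⟩, .nil, (nat_lit 0), (nat_lit 0), (nat_lit 0), (nat_lit 0), (0, 0, 0), [], 0⟩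

/-- Moves. -/
noncomputable def t0_3 : List Mv := [
  ⟨⟨13, -12, 0, -10, -13, 0, 10, -4, -17⟩, (.cons (nat_lit 21166033) (nat_lit 6056983) (nat_lit 7055350) (nat_lit 1) .nil), (nat_lit 52), (nat_lit 15), (nat_lit 18), (nat_lit 1), (15, 12, 5), [3817343], 4⟩,
  ⟨⟨-3, 8, -17, -10, -13, 0, 10, -4, -17⟩, (.cons (nat_lit 10550802) (nat_lit 18770371) (nat_lit 9712546) (nat_lit 1) .nil), (nat_lit 8), (nat_lit 5), (nat_lit 51), (nat_lit 1), (7, 12, 5), [15625320], 12⟩,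
  ⟨⟨13, -12, 0, -10, -13, 0, 10, -4, -17⟩, (.cons (nat_lit 21166033) (nat_lit 6056983) (nat_lit 7055350) (nat_lit 1) .nil), (nat_lit 52), (nat_lit 15), (nat_lit 18), (nat_lit 1), (15, 12, 5), [3817343], 4⟩,
  ⟨⟨13, -12, 0, -10, -13, 0, 10, -4, -17⟩, (.cons (nat_lit 21166033) (nat_lit 6056983) (nat_lit 7055350) (nat_lit 1) .nil), (nat_lit 52), (nat_lit 15), (nat_lit 18), (nat_lit 1), (15, 12, 5), [3817343], 4⟩,
  ⟨⟨13, -12, 0, -10, -13, 0, 10, -4, -17⟩, (.cons (nat_lit 21166033) (nat_lit 6056983) (nat_lit 7055350) (nat_lit 1) .nil), (nat_lit 52), (nat_lit 15), (nat_lit 18), (nat_lit 1), (15, 12, 5), [3817343], 4⟩,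
  ⟨⟨13, -12, 0, -10, -13, 0, 10, -4, -17⟩, (.cons (nat_lit 21166033) (nat_lit 6056983) (nat_lit 7055350) (nat_lit 1) .nil), (nat_lit 52), (nat_lit 15), (nat_lit 18), (nat_lit 1), (15, 12, 5), [3817343], 4⟩,
  ⟨⟨13, -12, 0, -10, -13, 0, 10, -4, -17⟩, (.cons (nat_lit 21166033) (nat_lit 6056983) (nat_lit 7055350) (nat_lit 1) .nil), (nat_lit 52), (nat_lit 15), (nat_lit 18), (nat_lit 1), (15, 12, 5), [3817343], 4⟩,
  ⟨⟨-3, 8, -17, -10, -13, 0, 10, -4, -17⟩, (.cons (nat_lit 10550802) (nat_lit 18770371) (nat_lit 9712546) (nat_lit 1) .nil), (nat_lit 8), (nat_lit 5), (nat_lit 51), (nat_lit 1), (7, 12, 5), [15625320], 12⟩,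
  ⟨⟨13, -12, 0, -10, -13, 0, 10, -4, -17⟩, (.cons (nat_lit 21166033) (nat_lit 6056983) (nat_lit 7055350) (nat_lit 1) .nil), (nat_lit 52), (nat_lit 15), (nat_lit 18), (nat_lit 1), (15, 12, 5), [3817343], 4⟩,
  ⟨⟨13, -12, 0, -10, -13, 0, 10, -4, -17⟩, (.cons (nat_lit 21166033) (nat_lit 6056983) (nat_lit 7055350) (nat_lit 1) .nil), (nat_lit 52), (nat_lit 15), (nat_lit 18), (nat_lit 1), (15, 12, 5), [3817343], 4⟩,
  ⟨⟨13, -12, 0, -10, -13, 0, 10, -4, -17⟩, (.cons (nat_lit 21166033) (nat_lit 6056983) (nat_lit 7055350) (nat_lit 1) .nil), (nat_lit 52), (nat_lit 15), (nat_lit 18), (nat_lit 1), (15, 12, 5), [3817343], 4⟩,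
  ⟨⟨13, -12, 0, -10, -13, 0, 10, -4, -17⟩, (.cons (nat_lit 21166033) (nat_lit 6056983) (nat_lit 7055350) (nat_lit 1) .nil), (nat_lit 52), (nat_lit 15), (nat_lit 18), (nat_lit 1), (15, 12, 5), [3817343], 4⟩,
  ⟨⟨13, -12, 0, 10, 13, 0, 10, -4, -17⟩, (.cons (nat_lit 111434) (nat_lit 10224314) (nat_lit 8284035) (nat_lit 1) .nil), (nat_lit 29), (nat_lit 12), (nat_lit 44), (nat_lit 1), (15, 5, 5), [14257539], 3⟩,
  ⟨⟨13, -12, 0, 10, 13, 0, 10, -4, -17⟩, (.cons (nat_lit 111434) (nat_lit 10224314) (nat_lit 8284035) (nat_lit 1) .nil), (nat_lit 29), (nat_lit 12), (nat_lit 44), (nat_lit 1), (15, 5, 5), [14257539], 3⟩,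
  ⟨⟨-3, 8, -17, 10, 13, 0, 10, -4, -17⟩, (.cons (nat_lit 14585888) (nat_lit 3606022) (nat_lit 12868590) (nat_lit 1) .nil), (nat_lit 19), (nat_lit 4), (nat_lit 7), (nat_lit 1), (7, 5, 5), [24064270], 6⟩,
  ⟨⟨13, -12, 0, 10, 13, 0, 10, -4, -17⟩, (.cons (nat_lit 111434) (nat_lit 10224314) (nat_lit 8284035) (nat_lit 1) .nil), (nat_lit 29), (nat_lit 12), (nat_lit 44), (nat_lit 1), (15, 5, 5), [14257539], 3⟩,
  ⟨⟨-3, 8, -17, 10, 13, 0, 10, -4, -17⟩, (.cons (nat_lit 14585888) (nat_lit 3606022) (nat_lit 12868590) (nat_lit 1) .nil), (nat_lit 19), (nat_lit 4), (nat_lit 7), (nat_lit 1), (7, 5, 5), [24064270], 6⟩]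

/-- Moves. -/
noncomputable def t0_7 : List Mv := [
  ⟨⟨15, -8, -16, 8, 15, -4, 0, 0, -17⟩, (.cons (nat_lit 11766583) (nat_lit 2885277) (nat_lit 454466) (nat_lit 1) .nil), (nat_lit 1), (nat_lit 10), (nat_lit 9), (nat_lit 1), (7, 6, 0), [23369712], 29⟩,
  ⟨⟨-15, 8, -1, 8, 15, -4, 0, 0, -17⟩, (.cons (nat_lit 6943683) (nat_lit 23410621) (nat_lit 21681302) (nat_lit 1) .nil), (nat_lit 52), (nat_lit 39), (nat_lit 2), (nat_lit 1), (10, 6, 0), [5227342], 35⟩,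
  ⟨⟨-15, 8, -1, 8, 15, -4, 0, 0, -17⟩, (.cons (nat_lit 6943683) (nat_lit 23410621) (nat_lit 21681302) (nat_lit 1) .nil), (nat_lit 52), (nat_lit 39), (nat_lit 2), (nat_lit 1), (10, 6, 0), [5227342], 35⟩,
  ⟨⟨15, -8, -16, 8, 15, -4, 0, 0, -17⟩, (.cons (nat_lit 11766583) (nat_lit 2885277) (nat_lit 454466) (nat_lit 1) .nil), (nat_lit 1), (nat_lit 10), (nat_lit 9), (nat_lit 1), (7, 6, 0), [23369712], 29⟩,
  ⟨⟨15, -8, -16, 8, 15, -4, 0, 0, -17⟩, (.cons (nat_lit 11766583) (nat_lit 2885277) (nat_lit 454466) (nat_lit 1) .nil), (nat_lit 1), (nat_lit 10), (nat_lit 9), (nat_lit 1), (7, 6, 0), [23369712], 29⟩,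
  ⟨⟨-15, 8, -1, -8, -15, 4, 0, 0, -17⟩, (.cons (nat_lit 7588434) (nat_lit 3540918) (nat_lit 17226043) (nat_lit 1) .nil), (nat_lit 1), (nat_lit 6), (nat_lit 16), (nat_lit 1), (10, 11, 0), [23350074], 25⟩,
  ⟨⟨15, -8, -16, 8, 15, -4, 0, 0, -17⟩, (.cons (nat_lit 11766583) (nat_lit 2885277) (nat_lit 454466) (nat_lit 1) .nil), (nat_lit 1), (nat_lit 10), (nat_lit 9), (nat_lit 1), (7, 6, 0), [23369712], 29⟩,
  ⟨⟨15, -8, -16, 8, 15, -4, 0, 0, -17⟩, (.cons (nat_lit 11766583) (nat_lit 2885277) (nat_lit 454466) (nat_lit 1) .nil), (nat_lit 1), (nat_lit 10), (nat_lit 9), (nat_lit 1), (7, 6, 0), [23369712], 29⟩,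
  ⟨⟨15, -8, -16, 8, 15, -4, 0, 0, -17⟩, (.cons (nat_lit 11766583) (nat_lit 2885277) (nat_lit 454466) (nat_lit 1) .nil), (nat_lit 1), (nat_lit 10), (nat_lit 9), (nat_lit 1), (7, 6, 0), [23369712], 29⟩,
  ⟨⟨15, -8, -16, 8, 15, -4, 0, 0, -17⟩, (.cons (nat_lit 11766583) (nat_lit 2885277) (nat_lit 454466) (nat_lit 1) .nil), (nat_lit 1), (nat_lit 10), (nat_lit 9), (nat_lit 1), (7, 6, 0), [23369712], 29⟩,
  ⟨⟨15, -8, -16, 8, 15, -4, 0, 0, -17⟩, (.cons (nat_lit 11766583) (nat_lit 2885277) (nat_lit 454466) (nat_lit 1) .nil), (nat_lit 1), (nat_lit 10), (nat_lit 9), (nat_lit 1), (7, 6, 0), [23369712], 29⟩,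
  ⟨⟨15, -8, -16, -8, -15, 4, 0, 0, -17⟩, (.cons (nat_lit 19142200) (nat_lit 10860631) (nat_lit 16527499) (nat_lit 1) .nil), (nat_lit 52), (nat_lit 26), (nat_lit 19), (nat_lit 1), (7, 11, 0), [7156400], 12⟩,
  ⟨⟨15, -8, -16, -8, -15, 4, 0, 0, -17⟩, (.cons (nat_lit 19142200) (nat_lit 10860631) (nat_lit 16527499) (nat_lit 1) .nil), (nat_lit 52), (nat_lit 26), (nat_lit 19), (nat_lit 1), (7, 11, 0), [7156400], 12⟩,
  ⟨⟨-15, 8, -1, -8, -15, 4, 0, 0, -17⟩, (.cons (nat_lit 7588434) (nat_lit 3540918) (nat_lit 17226043) (nat_lit 1) .nil), (nat_lit 1), (nat_lit 6), (nat_lit 16), (nat_lit 1), (10, 11, 0), [23350074], 25⟩,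
  ⟨⟨15, -8, -16, 8, 15, -4, 0, 0, -17⟩, (.cons (nat_lit 11766583) (nat_lit 2885277) (nat_lit 454466) (nat_lit 1) .nil), (nat_lit 1), (nat_lit 10), (nat_lit 9), (nat_lit 1), (7, 6, 0), [23369712], 29⟩,
  ⟨⟨15, -8, -16, 8, 15, -4, 0, 0, -17⟩, (.cons (nat_lit 11766583) (nat_lit 2885277) (nat_lit 454466) (nat_lit 1) .nil), (nat_lit 1), (nat_lit 10), (nat_lit 9), (nat_lit 1), (7, 6, 0), [23369712], 29⟩,
  ⟨⟨15, -8, -16, 8, 15, -4, 0, 0, -17⟩, (.cons (nat_lit 11766583) (nat_lit 2885277) (nat_lit 454466) (nat_lit 1) .nil), (nat_lit 1), (nat_lit 10), (nat_lit 9), (nat_lit 1), (7, 6, 0), [23369712], 29⟩]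

/-- Moves. -/
noncomputable def t0_9 : List Mv := [
  ⟨⟨9, -16, -1, 10, 3, -20, -6, -12, -5⟩, (.cons (nat_lit 2649515) (nat_lit 8649654) (nat_lit 6035001) (nat_lit 1) .nil), (nat_lit 42), (nat_lit 42), (nat_lit 2), (nat_lit 1), (2, 6, 10), [12906100], 25⟩,
  ⟨⟨9, -16, -1, 10, 3, -20, -6, -12, -5⟩, (.cons (nat_lit 2649515) (nat_lit 8649654) (nat_lit 6035001) (nat_lit 1) .nil), (nat_lit 42), (nat_lit 42), (nat_lit 2), (nat_lit 1), (2, 6, 10), [12906100], 25⟩,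
  ⟨⟨9, -16, -1, 10, 3, -20, -6, -12, -5⟩, (.cons (nat_lit 2649515) (nat_lit 8649654) (nat_lit 6035001) (nat_lit 1) .nil), (nat_lit 42), (nat_lit 42), (nat_lit 2), (nat_lit 1), (2, 6, 10), [12906100], 25⟩,
  ⟨⟨9, -16, -1, 10, 3, -20, -6, -12, -5⟩, (.cons (nat_lit 2649515) (nat_lit 8649654) (nat_lit 6035001) (nat_lit 1) .nil), (nat_lit 42), (nat_lit 42), (nat_lit 2), (nat_lit 1), (2, 6, 10), [12906100], 25⟩,
  ⟨⟨-15, 4, -4, -10, -3, 20, -6, -12, -5⟩, (.cons (nat_lit 19143280) (nat_lit 21029396) (nat_lit 22468049) (nat_lit 1) .nil), (nat_lit 18), (nat_lit 9), (nat_lit 1), (nat_lit 1), (8, 11, 10), [19122491], 6⟩,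
  ⟨⟨9, -16, -1, 10, 3, -20, -6, -12, -5⟩, (.cons (nat_lit 2649515) (nat_lit 8649654) (nat_lit 6035001) (nat_lit 1) .nil), (nat_lit 42), (nat_lit 42), (nat_lit 2), (nat_lit 1), (2, 6, 10), [12906100], 25⟩,
  ⟨⟨9, -16, -1, -10, -3, 20, -6, -12, -5⟩, (.cons (nat_lit 12361898) (nat_lit 20985542) (nat_lit 11286757) (nat_lit 1) .nil), (nat_lit 45), (nat_lit 18), (nat_lit 5), (nat_lit 1), (2, 11, 10), [5319789], 30⟩,
  ⟨⟨9, -16, -1, 10, 3, -20, -6, -12, -5⟩, (.cons (nat_lit 2649515) (nat_lit 8649654) (nat_lit 6035001) (nat_lit 1) .nil), (nat_lit 42), (nat_lit 42), (nat_lit 2), (nat_lit 1), (2, 6, 10), [12906100], 25⟩,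
  ⟨⟨9, -16, -1, 10, 3, -20, -6, -12, -5⟩, (.cons (nat_lit 2649515) (nat_lit 8649654) (nat_lit 6035001) (nat_lit 1) .nil), (nat_lit 42), (nat_lit 42), (nat_lit 2), (nat_lit 1), (2, 6, 10), [12906100], 25⟩,
  ⟨⟨9, -16, -1, 10, 3, -20, -6, -12, -5⟩, (.cons (nat_lit 2649515) (nat_lit 8649654) (nat_lit 6035001) (nat_lit 1) .nil), (nat_lit 42), (nat_lit 42), (nat_lit 2), (nat_lit 1), (2, 6, 10), [12906100], 25⟩,
  ⟨⟨-15, 4, -4, -10, -3, 20, -6, -12, -5⟩, (.cons (nat_lit 19143280) (nat_lit 21029396) (nat_lit 22468049) (nat_lit 1) .nil), (nat_lit 18), (nat_lit 9), (nat_lit 1), (nat_lit 1), (8, 11, 10), [19122491], 6⟩,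
  ⟨⟨-15, 4, -4, 10, 3, -20, -6, -12, -5⟩, (.cons (nat_lit 23380411) (nat_lit 23863569) (nat_lit 18689538) (nat_lit 1) .nil), (nat_lit 52), (nat_lit 21), (nat_lit 29), (nat_lit 1), (8, 6, 10), [2566078], 18⟩,
  ⟨⟨9, -16, -1, 10, 3, -20, -6, -12, -5⟩, (.cons (nat_lit 2649515) (nat_lit 8649654) (nat_lit 6035001) (nat_lit 1) .nil), (nat_lit 42), (nat_lit 42), (nat_lit 2), (nat_lit 1), (2, 6, 10), [12906100], 25⟩,
  ⟨⟨9, -16, -1, -10, -3, 20, -6, -12, -5⟩, (.cons (nat_lit 12361898) (nat_lit 20985542) (nat_lit 11286757) (nat_lit 1) .nil), (nat_lit 45), (nat_lit 18), (nat_lit 5), (nat_lit 1), (2, 11, 10), [5319789], 30⟩,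
  ⟨⟨9, -16, -1, -10, -3, 20, -6, -12, -5⟩, (.cons (nat_lit 12361898) (nat_lit 20985542) (nat_lit 11286757) (nat_lit 1) .nil), (nat_lit 45), (nat_lit 18), (nat_lit 5), (nat_lit 1), (2, 11, 10), [5319789], 30⟩,
  ⟨⟨9, -16, -1, 10, 3, -20, -6, -12, -5⟩, (.cons (nat_lit 2649515) (nat_lit 8649654) (nat_lit 6035001) (nat_lit 1) .nil), (nat_lit 42), (nat_lit 42), (nat_lit 2), (nat_lit 1), (2, 6, 10), [12906100], 25⟩,
  ⟨⟨9, -16, -1, 10, 3, -20, -6, -12, -5⟩, (.cons (nat_lit 2649515) (nat_lit 8649654) (nat_lit 6035001) (nat_lit 1) .nil), (nat_lit 42), (nat_lit 42), (nat_lit 2), (nat_lit 1), (2, 6, 10), [12906100], 25⟩]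

/-- Moves. -/
noncomputable def t4_3 : List Mv := [
  mz,
  mz,
  mz,
  mz,
  ⟨⟨51, 20, -47, 10, -47, -30, -2, 20, -47⟩, (.cons (nat_lit 5600237) (nat_lit 17644540) (nat_lit 18450067) (nat_lit 1) .nil), (nat_lit 15), (nat_lit 0), (nat_lit 0), (nat_lit 0), (24, 39, 24), [19628866], 0⟩,
  ⟨⟨-53, 0, 0, 10, 47, -30, -2, -20, -47⟩, (.cons (nat_lit 24137568) (nat_lit 20849780) (nat_lit 17203869) (nat_lit 1) .nil), (nat_lit 5), (nat_lit 0), (nat_lit 0), (nat_lit 0), (0, 46, 12), [280252], 0⟩,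
  ⟨⟨15, 56, -11, -28, 5, -36, 40, 8, -47⟩, (.cons (nat_lit 4094565) (nat_lit 1117764) (nat_lit 11700266) (nat_lit 1) .nil), (nat_lit 28), (nat_lit 0), (nat_lit 0), (nat_lit 0), (1, 37, 38), [802159], 0⟩,
  mz,
  mz,
  ⟨⟨57, -4, -17, -8, -45, 34, 24, -24, -49⟩, (.cons (nat_lit 21388669) (nat_lit 21232428) (nat_lit 10907002) (nat_lit 1) .nil), (nat_lit 21), (nat_lit 0), (nat_lit 0), (nat_lit 0), (7, 39, 42), [20808047], 0⟩,
  ⟨⟨-25, 48, -11, 28, -5, -64, -40, -8, -7⟩, (.cons (nat_lit 5784687) (nat_lit 910961) (nat_lit 2908078) (nat_lit 1) .nil), (nat_lit 36), (nat_lit 0), (nat_lit 0), (nat_lit 0), (52, 52, 9), [12648735], 0⟩,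
  ⟨⟨-1, -12, -63, 50, 17, -30, 14, -44, -19⟩, (.cons (nat_lit 2986470) (nat_lit 16128063) (nat_lit 23638229) (nat_lit 1) .nil), (nat_lit 16), (nat_lit 0), (nat_lit 0), (nat_lit 0), (44, 26, 20), [14897818], 0⟩,
  ⟨⟨53, 0, -53, 10, 47, 20, 2, 20, -49⟩, (.cons (nat_lit 16142463) (nat_lit 7583639) (nat_lit 13487271) (nat_lit 1) .nil), (nat_lit 4), (nat_lit 0), (nat_lit 0), (nat_lit 0), (0, 28, 48), [15679084], 0⟩,
  mz,
  mz,
  ⟨⟨-51, -20, 4, -10, 47, -20, 2, -20, -49⟩, (.cons (nat_lit 24137568) (nat_lit 17448948) (nat_lit 21833686) (nat_lit 1) .nil), (nat_lit 15), (nat_lit 0), (nat_lit 0), (nat_lit 0), (36, 32, 36), [847562], 0⟩,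
  ⟨⟨31, -48, -27, -10, -17, 60, 46, 4, -11⟩, (.cons (nat_lit 18696406) (nat_lit 4848385) (nat_lit 6846927) (nat_lit 1) .nil), (nat_lit 11), (nat_lit 0), (nat_lit 0), (nat_lit 0), (39, 37, 10), [7046032], 0⟩,
  ⟨⟨31, -48, -4, -10, -17, -50, 46, 4, -35⟩, (.cons (nat_lit 5137888) (nat_lit 21780518) (nat_lit 12392768) (nat_lit 1) .nil), (nat_lit 11), (nat_lit 0), (nat_lit 0), (nat_lit 0), (18, 13, 25), [13409653], 0⟩,
  ⟨⟨-57, -4, 40, -8, 45, -26, -24, -24, -25⟩, (.cons (nat_lit 20289746) (nat_lit 12200115) (nat_lit 9899066) (nat_lit 1) .nil), (nat_lit 9), (nat_lit 0), (nat_lit 0), (nat_lit 0), (12, 24, 19), [22791933], 0⟩,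
  mz,
  mz,
  ⟨⟨57, 4, -17, 8, -45, -34, 24, 24, -49⟩, (.cons (nat_lit 23316925) (nat_lit 5296895) (nat_lit 1) (nat_lit 19367998) .nil), (nat_lit 9), (nat_lit 0), (nat_lit 0), (nat_lit 0), (20, 40, 14), [2082923], 0⟩,
  ⟨⟨45, 28, -49, 28, -45, -14, 0, 0, -53⟩, (.cons (nat_lit 24137568) (nat_lit 11782889) (nat_lit 9542611) (nat_lit 1) .nil), (nat_lit 22), (nat_lit 0), (nat_lit 0), (nat_lit 0), (24, 22, 0), [2454573], 0⟩,
  mz,
  ⟨⟨-13, 48, -27, -30, 17, 60, 30, 36, -7⟩, (.cons (nat_lit 22996433) (nat_lit 19873228) (nat_lit 2091639) (nat_lit 1) .nil), (nat_lit 52), (nat_lit 0), (nat_lit 0), (nat_lit 0), (11, 5, 48), [6105150], 0⟩,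
  mz,
  ⟨⟨-25, -48, -11, 28, 5, -64, -40, 8, -7⟩, (.cons (nat_lit 9031379) (nat_lit 15735453) (nat_lit 13167008) (nat_lit 1) .nil), (nat_lit 36), (nat_lit 0), (nat_lit 0), (nat_lit 0), (2, 2, 35), [13468544], 0⟩,
  mz,
  ⟨⟨-1, -48, 37, -52, -5, 16, 8, -40, -31⟩, (.cons (nat_lit 10002492) (nat_lit 12418968) (nat_lit 8191807) (nat_lit 1) .nil), (nat_lit 39), (nat_lit 0), (nat_lit 0), (nat_lit 0), (29, 24, 33), [17384995], 0⟩,
  ⟨⟨43, -12, -63, -30, 17, -30, 30, 36, -23⟩, (.cons (nat_lit 2994970) (nat_lit 6993595) (nat_lit 14597619) (nat_lit 1) .nil), (nat_lit 24), (nat_lit 0), (nat_lit 0), (nat_lit 0), (16, 48, 5), [18321399], 0⟩,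
  mz,
  ⟨⟨45, -28, -49, -28, -45, 14, 0, 0, -53⟩, (.cons (nat_lit 24137568) (nat_lit 4439088) (nat_lit 21448278) (nat_lit 1) .nil), (nat_lit 31), (nat_lit 0), (nat_lit 0), (nat_lit 0), (39, 4, 0), [24015039], 0⟩,
  mz,
  ⟨⟨-39, 28, -17, 10, -33, -50, 18, 36, -37⟩, (.cons (nat_lit 4758351) (nat_lit 104468) (nat_lit 15005383) (nat_lit 1) .nil), (nat_lit 50), (nat_lit 0), (nat_lit 0), (nat_lit 0), (43, 8, 25), [3375053], 0⟩,
  mz,
  mz,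
  ⟨⟨-9, 8, -59, 52, -5, -36, -8, -40, -23⟩, (.cons (nat_lit 18919174) (nat_lit 4938459) (nat_lit 16963958) (nat_lit 1) .nil), (nat_lit 10), (nat_lit 0), (nat_lit 0), (nat_lit 0), (2, 12, 43), [9742403], 0⟩,
  ⟨⟨-1, 48, 37, 52, -5, -16, 8, 40, -31⟩, (.cons (nat_lit 11025056) (nat_lit 8143252) (nat_lit 8713545) (nat_lit 1) .nil), (nat_lit 6), (nat_lit 0), (nat_lit 0), (nat_lit 0), (26, 26, 4), [640921], 0⟩,
  ⟨⟨39, 28, -56, -10, -33, -40, -18, 36, -19⟩, (.cons (nat_lit 11065712) (nat_lit 15995206) (nat_lit 20527010) (nat_lit 1) .nil), (nat_lit 50), (nat_lit 0), (nat_lit 0), (nat_lit 0), (34, 47, 21), [4477794], 0⟩,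
  ⟨⟨15, -56, -11, -28, -5, -36, 40, -8, -47⟩, (.cons (nat_lit 14365416) (nat_lit 3239023) (nat_lit 19613903) (nat_lit 1) .nil), (nat_lit 28), (nat_lit 0), (nat_lit 0), (nat_lit 0), (31, 34, 12), [18697568], 0⟩,
  ⟨⟨-9, -8, -59, 52, 5, -36, -8, 40, -23⟩, (.cons (nat_lit 3454022) (nat_lit 2012526) (nat_lit 19209820) (nat_lit 1) .nil), (nat_lit 10), (nat_lit 0), (nat_lit 0), (nat_lit 0), (29, 15, 14), [15223599], 0⟩,
  ⟨⟨15, -52, -31, 10, -17, 50, 46, -4, -35⟩, (.cons (nat_lit 9616333) (nat_lit 18375429) (nat_lit 5186253) (nat_lit 1) .nil), (nat_lit 44), (nat_lit 0), (nat_lit 0), (nat_lit 0), (50, 51, 12), [18002334], 0⟩,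
  ⟨⟨-57, 4, 40, -8, -45, -26, -24, 24, -25⟩, (.cons (nat_lit 789390) (nat_lit 10830817) (nat_lit 12982576) (nat_lit 1) .nil), (nat_lit 9), (nat_lit 0), (nat_lit 0), (nat_lit 0), (25, 50, 44), [6212613], 0⟩,
  ⟨⟨-1, 12, -63, 50, -17, -30, 14, 44, -19⟩, (.cons (nat_lit 18472188) (nat_lit 16801709) (nat_lit 12457857) (nat_lit 1) .nil), (nat_lit 16), (nat_lit 0), (nat_lit 0), (nat_lit 0), (30, 37, 4), [14267024], 0⟩,
  ⟨⟨-15, 32, 59, -50, -17, 20, -14, 44, -5⟩, (.cons (nat_lit 21670203) (nat_lit 9468588) (nat_lit 21077231) (nat_lit 1) .nil), (nat_lit 41), (nat_lit 0), (nat_lit 0), (nat_lit 0), (6, 20, 48), [8199719], 0⟩,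
  mz,
  ⟨⟨-13, -48, -27, 30, 17, -60, 30, -36, -7⟩, (.cons (nat_lit 21382606) (nat_lit 6120734) (nat_lit 22935919) (nat_lit 1) .nil), (nat_lit 29), (nat_lit 0), (nat_lit 0), (nat_lit 0), (14, 37, 37), [20623031], 0⟩,
  ⟨⟨-15, -32, 59, 50, -17, -20, -14, -44, -5⟩, (.cons (nat_lit 18173160) (nat_lit 12876384) (nat_lit 1964012) (nat_lit 1) .nil), (nat_lit 17), (nat_lit 0), (nat_lit 0), (nat_lit 0), (8, 44, 11), [20540243], 0⟩,
  ⟨⟨15, -52, 16, 10, -17, -60, 46, -4, -11⟩, (.cons (nat_lit 20738267) (nat_lit 23683762) (nat_lit 16166298) (nat_lit 1) .nil), (nat_lit 44), (nat_lit 0), (nat_lit 0), (nat_lit 0), (14, 27, 50), [18166758], 0⟩,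
  ⟨⟨57, -8, -20, 10, 33, -50, 18, -36, -37⟩, (.cons (nat_lit 24137568) (nat_lit 15560331) (nat_lit 19142705) (nat_lit 1) .nil), (nat_lit 49), (nat_lit 0), (nat_lit 0), (nat_lit 0), (9, 49, 14), [20171342], 0⟩,
  ⟨⟨39, -28, -56, -10, 33, -40, -18, -36, -19⟩, (.cons (nat_lit 24137568) (nat_lit 4617540) (nat_lit 20221256) (nat_lit 1) .nil), (nat_lit 50), (nat_lit 0), (nat_lit 0), (nat_lit 0), (49, 35, 10), [21950538], 0⟩,
  mz,
  ⟨⟨43, 12, -63, -30, -17, -30, 30, -36, -23⟩, (.cons (nat_lit 16241548) (nat_lit 3366183) (nat_lit 769118) (nat_lit 1) .nil), (nat_lit 24), (nat_lit 0), (nat_lit 0), (nat_lit 0), (2, 6, 47), [4390654], 0⟩]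

/-- Moves. -/
noncomputable def t4_7 : List Mv := [
  mz,
  mz,
  mz,
  mz,
  ⟨⟨51, 20, -47, 10, -47, -30, -2, 20, -47⟩, (.cons (nat_lit 5600237) (nat_lit 17644540) (nat_lit 18450067) (nat_lit 1) .nil), (nat_lit 15), (nat_lit 0), (nat_lit 0), (nat_lit 0), (24, 39, 24), [19628866], 0⟩,
  ⟨⟨51, -20, -47, 10, 47, -30, -2, -20, -47⟩, (.cons (nat_lit 2630356) (nat_lit 15083918) (nat_lit 17290039) (nat_lit 1) .nil), (nat_lit 15), (nat_lit 0), (nat_lit 0), (nat_lit 0), (12, 46, 12), [11080337], 0⟩,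
  ⟨⟨15, 56, -11, -28, 5, -36, 40, 8, -47⟩, (.cons (nat_lit 4094565) (nat_lit 1117764) (nat_lit 11700266) (nat_lit 1) .nil), (nat_lit 28), (nat_lit 0), (nat_lit 0), (nat_lit 0), (1, 37, 38), [802159], 0⟩,
  mz,
  mz,
  ⟨⟨57, -4, -17, 8, 45, -34, 24, -24, -49⟩, (.cons (nat_lit 24137568) (nat_lit 5765929) (nat_lit 10604167) (nat_lit 1) .nil), (nat_lit 9), (nat_lit 0), (nat_lit 0), (nat_lit 0), (7, 14, 42), [14276777], 0⟩,
  ⟨⟨-25, 48, -11, 28, -5, -64, -40, -8, -7⟩, (.cons (nat_lit 5784687) (nat_lit 910961) (nat_lit 2908078) (nat_lit 1) .nil), (nat_lit 36), (nat_lit 0), (nat_lit 0), (nat_lit 0), (52, 52, 9), [12648735], 0⟩,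
  ⟨⟨15, -32, 44, 50, 17, -30, 14, -44, -19⟩, (.cons (nat_lit 4013854) (nat_lit 3964135) (nat_lit 23801143) (nat_lit 1) .nil), (nat_lit 41), (nat_lit 0), (nat_lit 0), (nat_lit 0), (29, 26, 20), [1888737], 0⟩,
  ⟨⟨-51, 20, 4, -10, -47, -20, 2, 20, -49⟩, (.cons (nat_lit 6236623) (nat_lit 15890043) (nat_lit 4130341) (nat_lit 1) .nil), (nat_lit 15), (nat_lit 0), (nat_lit 0), (nat_lit 0), (48, 25, 48), [4130302], 0⟩,
  mz,
  mz,
  ⟨⟨-51, -20, 4, -10, 47, -20, 2, -20, -49⟩, (.cons (nat_lit 24137568) (nat_lit 17448948) (nat_lit 21833686) (nat_lit 1) .nil), (nat_lit 15), (nat_lit 0), (nat_lit 0), (nat_lit 0), (36, 32, 36), [847562], 0⟩,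
  ⟨⟨15, 52, 16, 10, 17, -60, 46, 4, -11⟩, (.cons (nat_lit 20189023) (nat_lit 12690159) (nat_lit 14443970) (nat_lit 1) .nil), (nat_lit 44), (nat_lit 0), (nat_lit 0), (nat_lit 0), (24, 16, 10), [16219704], 0⟩,
  ⟨⟨15, 52, -31, 10, 17, 50, 46, 4, -35⟩, (.cons (nat_lit 14688964) (nat_lit 1530971) (nat_lit 9749267) (nat_lit 1) .nil), (nat_lit 44), (nat_lit 0), (nat_lit 0), (nat_lit 0), (7, 40, 25), [12081190], 0⟩,
  ⟨⟨-57, -4, 40, -8, 45, -26, -24, -24, -25⟩, (.cons (nat_lit 20289746) (nat_lit 12200115) (nat_lit 9899066) (nat_lit 1) .nil), (nat_lit 9), (nat_lit 0), (nat_lit 0), (nat_lit 0), (12, 24, 19), [22791933], 0⟩,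
  mz,
  mz,
  ⟨⟨-33, 20, -32, 8, -45, -34, 24, 24, -49⟩, (.cons (nat_lit 15736330) (nat_lit 3694336) (nat_lit 23458401) (nat_lit 1) .nil), (nat_lit 18), (nat_lit 0), (nat_lit 0), (nat_lit 0), (47, 40, 14), [10855967], 0⟩,
  ⟨⟨45, 28, -49, -28, 45, 14, 0, 0, -53⟩, (.cons (nat_lit 8868187) (nat_lit 17792799) (nat_lit 20452358) (nat_lit 1) .nil), (nat_lit 31), (nat_lit 0), (nat_lit 0), (nat_lit 0), (24, 31, 0), [9926877], 0⟩,
  mz,
  ⟨⟨43, -12, 20, 30, -17, -60, 30, 36, -7⟩, (.cons (nat_lit 17472262) (nat_lit 11348833) (nat_lit 17342580) (nat_lit 1) .nil), (nat_lit 46), (nat_lit 0), (nat_lit 0), (nat_lit 0), (37, 48, 48), [4479781], 0⟩,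
  mz,
  ⟨⟨-25, -48, -11, 28, 5, -64, -40, 8, -7⟩, (.cons (nat_lit 9031379) (nat_lit 15735453) (nat_lit 13167008) (nat_lit 1) .nil), (nat_lit 36), (nat_lit 0), (nat_lit 0), (nat_lit 0), (2, 2, 35), [13468544], 0⟩,
  mz,
  ⟨⟨-1, -48, 37, 52, 5, -16, 8, -40, -31⟩, (.cons (nat_lit 17699027) (nat_lit 9437324) (nat_lit 1192673) (nat_lit 1) .nil), (nat_lit 6), (nat_lit 0), (nat_lit 0), (nat_lit 0), (29, 29, 33), [17284549], 0⟩,
  ⟨⟨43, -12, -63, 30, -17, 30, 30, 36, -23⟩, (.cons (nat_lit 24051943) (nat_lit 19071356) (nat_lit 5973747) (nat_lit 1) .nil), (nat_lit 46), (nat_lit 0), (nat_lit 0), (nat_lit 0), (16, 5, 5), [3975888], 0⟩,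
  mz,
  ⟨⟨45, -28, -49, 28, 45, -14, 0, 0, -53⟩, (.cons (nat_lit 4023238) (nat_lit 2632293) (nat_lit 3312537) (nat_lit 1) .nil), (nat_lit 22), (nat_lit 0), (nat_lit 0), (nat_lit 0), (39, 49, 0), [6211357], 0⟩,
  mz,
  ⟨⟨-39, 28, -17, 10, -33, -50, 18, 36, -37⟩, (.cons (nat_lit 4758351) (nat_lit 104468) (nat_lit 15005383) (nat_lit 1) .nil), (nat_lit 50), (nat_lit 0), (nat_lit 0), (nat_lit 0), (43, 8, 25), [3375053], 0⟩,
  mz,
  mz,
  ⟨⟨-9, 8, -59, 52, -5, -36, -8, -40, -23⟩, (.cons (nat_lit 18919174) (nat_lit 4938459) (nat_lit 16963958) (nat_lit 1) .nil), (nat_lit 10), (nat_lit 0), (nat_lit 0), (nat_lit 0), (2, 12, 43), [9742403], 0⟩,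
  ⟨⟨9, -8, -68, -52, 5, 16, 8, 40, -31⟩, (.cons (nat_lit 15838571) (nat_lit 14537953) (nat_lit 1234060) (nat_lit 1) .nil), (nat_lit 10), (nat_lit 0), (nat_lit 0), (nat_lit 0), (31, 27, 4), [20805041], 0⟩,
  ⟨⟨-57, 8, 37, -10, -33, -40, -18, 36, -19⟩, (.cons (nat_lit 2963331) (nat_lit 413986) (nat_lit 16554312) (nat_lit 1) .nil), (nat_lit 49), (nat_lit 0), (nat_lit 0), (nat_lit 0), (40, 47, 21), [14548108], 0⟩,
  ⟨⟨15, -56, -11, -28, -5, -36, 40, -8, -47⟩, (.cons (nat_lit 14365416) (nat_lit 3239023) (nat_lit 19613903) (nat_lit 1) .nil), (nat_lit 28), (nat_lit 0), (nat_lit 0), (nat_lit 0), (31, 34, 12), [18697568], 0⟩,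
  ⟨⟨1, 48, 36, -52, -5, 36, -8, 40, -23⟩, (.cons (nat_lit 14491929) (nat_lit 21784838) (nat_lit 13805413) (nat_lit 1) .nil), (nat_lit 6), (nat_lit 0), (nat_lit 0), (nat_lit 0), (38, 38, 14), [10145743], 0⟩,
  ⟨⟨31, 48, -4, -10, 17, -50, 46, -4, -35⟩, (.cons (nat_lit 12758841) (nat_lit 21502358) (nat_lit 21946996) (nat_lit 1) .nil), (nat_lit 11), (nat_lit 0), (nat_lit 0), (nat_lit 0), (15, 2, 12), [20061176], 0⟩,
  ⟨⟨-57, 4, 40, -8, -45, -26, -24, 24, -25⟩, (.cons (nat_lit 789390) (nat_lit 10830817) (nat_lit 12982576) (nat_lit 1) .nil), (nat_lit 9), (nat_lit 0), (nat_lit 0), (nat_lit 0), (25, 50, 44), [6212613], 0⟩,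
  ⟨⟨15, 32, 44, 50, -17, -30, 14, 44, -19⟩, (.cons (nat_lit 19761690) (nat_lit 18203099) (nat_lit 14469847) (nat_lit 1) .nil), (nat_lit 41), (nat_lit 0), (nat_lit 0), (nat_lit 0), (27, 37, 4), [19161503], 0⟩,
  ⟨⟨-15, 32, 59, 50, 17, -20, -14, 44, -5⟩, (.cons (nat_lit 18623323) (nat_lit 11817547) (nat_lit 11166519) (nat_lit 1) .nil), (nat_lit 17), (nat_lit 0), (nat_lit 0), (nat_lit 0), (6, 33, 48), [17673192], 0⟩,
  mz,
  ⟨⟨-13, -48, -27, 30, 17, -60, 30, -36, -7⟩, (.cons (nat_lit 21382606) (nat_lit 6120734) (nat_lit 22935919) (nat_lit 1) .nil), (nat_lit 29), (nat_lit 0), (nat_lit 0), (nat_lit 0), (14, 37, 37), [20623031], 0⟩,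
  ⟨⟨-15, -32, 59, 50, -17, -20, -14, -44, -5⟩, (.cons (nat_lit 18173160) (nat_lit 12876384) (nat_lit 1964012) (nat_lit 1) .nil), (nat_lit 17), (nat_lit 0), (nat_lit 0), (nat_lit 0), (8, 44, 11), [20540243], 0⟩,
  ⟨⟨15, -52, 16, 10, -17, -60, 46, -4, -11⟩, (.cons (nat_lit 20738267) (nat_lit 23683762) (nat_lit 16166298) (nat_lit 1) .nil), (nat_lit 44), (nat_lit 0), (nat_lit 0), (nat_lit 0), (14, 27, 50), [18166758], 0⟩,
  ⟨⟨57, -8, -20, 10, 33, -50, 18, -36, -37⟩, (.cons (nat_lit 24137568) (nat_lit 15560331) (nat_lit 19142705) (nat_lit 1) .nil), (nat_lit 49), (nat_lit 0), (nat_lit 0), (nat_lit 0), (9, 49, 14), [20171342], 0⟩,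
  ⟨⟨39, -28, -56, -10, 33, -40, -18, -36, -19⟩, (.cons (nat_lit 24137568) (nat_lit 4617540) (nat_lit 20221256) (nat_lit 1) .nil), (nat_lit 50), (nat_lit 0), (nat_lit 0), (nat_lit 0), (49, 35, 10), [21950538], 0⟩,
  mz,
  ⟨⟨43, 12, -63, -30, -17, -30, 30, -36, -23⟩, (.cons (nat_lit 16241548) (nat_lit 3366183) (nat_lit 769118) (nat_lit 1) .nil), (nat_lit 24), (nat_lit 0), (nat_lit 0), (nat_lit 0), (2, 6, 47), [4390654], 0⟩]

/-- Moves. -/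
noncomputable def t4_9 : List Mv := [
  mz,
  mz,
  mz,
  mz,
  ⟨⟨51, 20, -47, -10, 47, 30, -2, 20, -47⟩, (.cons (nat_lit 6364508) (nat_lit 3602151) (nat_lit 13155376) (nat_lit 1) .nil), (nat_lit 12), (nat_lit 0), (nat_lit 0), (nat_lit 0), (24, 14, 24), [12172332], 0⟩,
  ⟨⟨-53, 0, 0, 10, 47, -30, -2, -20, -47⟩, (.cons (nat_lit 24137568) (nat_lit 20849780) (nat_lit 17203869) (nat_lit 1) .nil), (nat_lit 5), (nat_lit 0), (nat_lit 0), (nat_lit 0), (0, 46, 12), [280252], 0⟩,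
  ⟨⟨15, 56, -11, -28, 5, -36, 40, 8, -47⟩, (.cons (nat_lit 4094565) (nat_lit 1117764) (nat_lit 11700266) (nat_lit 1) .nil), (nat_lit 28), (nat_lit 0), (nat_lit 0), (nat_lit 0), (1, 37, 38), [802159], 0⟩,
  mz,
  mz,
  ⟨⟨-33, -20, -32, -8, -45, 34, 24, -24, -49⟩, (.cons (nat_lit 6172098) (nat_lit 12713589) (nat_lit 21958111) (nat_lit 1) .nil), (nat_lit 42), (nat_lit 0), (nat_lit 0), (nat_lit 0), (35, 39, 42), [11282192], 0⟩,
  ⟨⟨-25, 48, -11, 28, -5, -64, -40, -8, -7⟩, (.cons (nat_lit 5784687) (nat_lit 910961) (nat_lit 2908078) (nat_lit 1) .nil), (nat_lit 36), (nat_lit 0), (nat_lit 0), (nat_lit 0), (52, 52, 9), [12648735], 0⟩,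
  ⟨⟨15, -32, 44, -50, -17, 30, 14, -44, -19⟩, (.cons (nat_lit 4241986) (nat_lit 23861278) (nat_lit 11432491) (nat_lit 1) .nil), (nat_lit 17), (nat_lit 0), (nat_lit 0), (nat_lit 0), (29, 27, 20), [16755944], 0⟩,
  ⟨⟨-51, 20, 4, -10, -47, -20, 2, 20, -49⟩, (.cons (nat_lit 6236623) (nat_lit 15890043) (nat_lit 4130341) (nat_lit 1) .nil), (nat_lit 15), (nat_lit 0), (nat_lit 0), (nat_lit 0), (48, 25, 48), [4130302], 0⟩,
  mz,
  mz,
  ⟨⟨-51, -20, 4, -10, 47, -20, 2, -20, -49⟩, (.cons (nat_lit 24137568) (nat_lit 17448948) (nat_lit 21833686) (nat_lit 1) .nil), (nat_lit 15), (nat_lit 0), (nat_lit 0), (nat_lit 0), (36, 32, 36), [847562], 0⟩,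
  ⟨⟨31, -48, -27, 10, 17, -60, 46, 4, -11⟩, (.cons (nat_lit 13179087) (nat_lit 18276721) (nat_lit 7937354) (nat_lit 1) .nil), (nat_lit 43), (nat_lit 0), (nat_lit 0), (nat_lit 0), (39, 16, 10), [20394533], 0⟩,
  ⟨⟨15, 52, -31, -10, -17, -50, 46, 4, -35⟩, (.cons (nat_lit 23218656) (nat_lit 16189223) (nat_lit 14262395) (nat_lit 1) .nil), (nat_lit 47), (nat_lit 0), (nat_lit 0), (nat_lit 0), (7, 13, 25), [4089906], 0⟩,
  ⟨⟨-57, -4, 40, -8, 45, -26, -24, -24, -25⟩, (.cons (nat_lit 20289746) (nat_lit 12200115) (nat_lit 9899066) (nat_lit 1) .nil), (nat_lit 9), (nat_lit 0), (nat_lit 0), (nat_lit 0), (12, 24, 19), [22791933], 0⟩,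
  mz,
  mz,
  ⟨⟨-33, 20, -32, 8, -45, -34, 24, 24, -49⟩, (.cons (nat_lit 15736330) (nat_lit 3694336) (nat_lit 23458401) (nat_lit 1) .nil), (nat_lit 18), (nat_lit 0), (nat_lit 0), (nat_lit 0), (47, 40, 14), [10855967], 0⟩,
  ⟨⟨45, 28, -49, 28, -45, -14, 0, 0, -53⟩, (.cons (nat_lit 24137568) (nat_lit 11782889) (nat_lit 9542611) (nat_lit 1) .nil), (nat_lit 22), (nat_lit 0), (nat_lit 0), (nat_lit 0), (24, 22, 0), [2454573], 0⟩,
  mz,
  ⟨⟨43, -12, 20, 30, -17, -60, 30, 36, -7⟩, (.cons (nat_lit 17472262) (nat_lit 11348833) (nat_lit 17342580) (nat_lit 1) .nil), (nat_lit 46), (nat_lit 0), (nat_lit 0), (nat_lit 0), (37, 48, 48), [4479781], 0⟩,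
  mz,
  ⟨⟨-25, -48, -11, 28, 5, -64, -40, 8, -7⟩, (.cons (nat_lit 9031379) (nat_lit 15735453) (nat_lit 13167008) (nat_lit 1) .nil), (nat_lit 36), (nat_lit 0), (nat_lit 0), (nat_lit 0), (2, 2, 35), [13468544], 0⟩,
  mz,
  ⟨⟨-1, -48, 37, 52, 5, -16, 8, -40, -31⟩, (.cons (nat_lit 17699027) (nat_lit 9437324) (nat_lit 1192673) (nat_lit 1) .nil), (nat_lit 6), (nat_lit 0), (nat_lit 0), (nat_lit 0), (29, 29, 33), [17284549], 0⟩,
  ⟨⟨43, -12, -63, -30, 17, -30, 30, 36, -23⟩, (.cons (nat_lit 2994970) (nat_lit 6993595) (nat_lit 14597619) (nat_lit 1) .nil), (nat_lit 24), (nat_lit 0), (nat_lit 0), (nat_lit 0), (16, 48, 5), [18321399], 0⟩,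
  mz,
  ⟨⟨45, -28, -49, -28, -45, 14, 0, 0, -53⟩, (.cons (nat_lit 24137568) (nat_lit 4439088) (nat_lit 21448278) (nat_lit 1) .nil), (nat_lit 31), (nat_lit 0), (nat_lit 0), (nat_lit 0), (39, 4, 0), [24015039], 0⟩,
  mz,
  ⟨⟨-39, 28, -17, 10, -33, -50, 18, 36, -37⟩, (.cons (nat_lit 4758351) (nat_lit 104468) (nat_lit 15005383) (nat_lit 1) .nil), (nat_lit 50), (nat_lit 0), (nat_lit 0), (nat_lit 0), (43, 8, 25), [3375053], 0⟩,
  mz,
  mz,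
  ⟨⟨-9, 8, -59, 52, -5, -36, -8, -40, -23⟩, (.cons (nat_lit 18919174) (nat_lit 4938459) (nat_lit 16963958) (nat_lit 1) .nil), (nat_lit 10), (nat_lit 0), (nat_lit 0), (nat_lit 0), (2, 12, 43), [9742403], 0⟩,
  ⟨⟨-1, 48, 37, 52, -5, -16, 8, 40, -31⟩, (.cons (nat_lit 11025056) (nat_lit 8143252) (nat_lit 8713545) (nat_lit 1) .nil), (nat_lit 6), (nat_lit 0), (nat_lit 0), (nat_lit 0), (26, 26, 4), [640921], 0⟩,
  ⟨⟨39, 28, -56, -10, -33, -40, -18, 36, -19⟩, (.cons (nat_lit 11065712) (nat_lit 15995206) (nat_lit 20527010) (nat_lit 1) .nil), (nat_lit 50), (nat_lit 0), (nat_lit 0), (nat_lit 0), (34, 47, 21), [4477794], 0⟩,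
  ⟨⟨15, -56, -11, -28, -5, -36, 40, -8, -47⟩, (.cons (nat_lit 14365416) (nat_lit 3239023) (nat_lit 19613903) (nat_lit 1) .nil), (nat_lit 28), (nat_lit 0), (nat_lit 0), (nat_lit 0), (31, 34, 12), [18697568], 0⟩,
  ⟨⟨-9, -8, -59, 52, 5, -36, -8, 40, -23⟩, (.cons (nat_lit 3454022) (nat_lit 2012526) (nat_lit 19209820) (nat_lit 1) .nil), (nat_lit 10), (nat_lit 0), (nat_lit 0), (nat_lit 0), (29, 15, 14), [15223599], 0⟩,
  ⟨⟨31, 48, -4, -10, 17, -50, 46, -4, -35⟩, (.cons (nat_lit 12758841) (nat_lit 21502358) (nat_lit 21946996) (nat_lit 1) .nil), (nat_lit 11), (nat_lit 0), (nat_lit 0), (nat_lit 0), (15, 2, 12), [20061176], 0⟩,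
  ⟨⟨-57, 4, 40, -8, -45, -26, -24, 24, -25⟩, (.cons (nat_lit 789390) (nat_lit 10830817) (nat_lit 12982576) (nat_lit 1) .nil), (nat_lit 9), (nat_lit 0), (nat_lit 0), (nat_lit 0), (25, 50, 44), [6212613], 0⟩,
  ⟨⟨15, 32, 44, 50, -17, -30, 14, 44, -19⟩, (.cons (nat_lit 19761690) (nat_lit 18203099) (nat_lit 14469847) (nat_lit 1) .nil), (nat_lit 41), (nat_lit 0), (nat_lit 0), (nat_lit 0), (27, 37, 4), [19161503], 0⟩,
  ⟨⟨-15, 32, 59, 50, 17, -20, -14, 44, -5⟩, (.cons (nat_lit 18623323) (nat_lit 11817547) (nat_lit 11166519) (nat_lit 1) .nil), (nat_lit 17), (nat_lit 0), (nat_lit 0), (nat_lit 0), (6, 33, 48), [17673192], 0⟩,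
  mz,
  ⟨⟨43, 12, 20, -30, -17, 60, 30, -36, -7⟩, (.cons (nat_lit 4884415) (nat_lit 23959754) (nat_lit 2620331) (nat_lit 1) .nil), (nat_lit 24), (nat_lit 0), (nat_lit 0), (nat_lit 0), (23, 16, 37), [8539744], 0⟩,
  ⟨⟨-15, -32, 59, 50, -17, -20, -14, -44, -5⟩, (.cons (nat_lit 18173160) (nat_lit 12876384) (nat_lit 1964012) (nat_lit 1) .nil), (nat_lit 17), (nat_lit 0), (nat_lit 0), (nat_lit 0), (8, 44, 11), [20540243], 0⟩,
  ⟨⟨15, -52, 16, 10, -17, -60, 46, -4, -11⟩, (.cons (nat_lit 20738267) (nat_lit 23683762) (nat_lit 16166298) (nat_lit 1) .nil), (nat_lit 44), (nat_lit 0), (nat_lit 0), (nat_lit 0), (14, 27, 50), [18166758], 0⟩,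
  ⟨⟨-39, -28, -17, -10, -33, 50, 18, -36, -37⟩, (.cons (nat_lit 8143862) (nat_lit 18371281) (nat_lit 14454136) (nat_lit 1) .nil), (nat_lit 38), (nat_lit 0), (nat_lit 0), (nat_lit 0), (5, 4, 14), [7652473], 0⟩,
  ⟨⟨-57, -8, 37, 10, -33, 40, -18, -36, -19⟩, (.cons (nat_lit 3030612) (nat_lit 10518157) (nat_lit 1) (nat_lit 14692590) .nil), (nat_lit 33), (nat_lit 0), (nat_lit 0), (nat_lit 0), (14, 18, 10), [22588312], 0⟩,
  mz,
  ⟨⟨43, 12, -63, -30, -17, -30, 30, -36, -23⟩, (.cons (nat_lit 16241548) (nat_lit 3366183) (nat_lit 769118) (nat_lit 1) .nil), (nat_lit 24), (nat_lit 0), (nat_lit 0), (nat_lit 0), (2, 6, 47), [4390654], 0⟩]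

/-- All the moves. -/
noncomputable def tabs : List (List (List Mv)) := [[[], [], [], t0_3, [], [], [], t0_7, [], t0_9], [], [], [], [[], [], [], t4_3, [], [], [], t4_7, [], t4_9]]

/-- Subtrie. -/
noncomputable def T3 : Tr := (.ev (nat_lit 20) (nat_lit 1554031445311568) (.nd (nat_lit 32) (.br (nat_lit 12)
 (.br (nat_lit 3) (.br (nat_lit 2) (.ch (nat_lit 1) (.ev (nat_lit 48) (nat_lit 572364790367264) (.nd (nat_lit
 336) (.br (nat_lit 8) (.br (nat_lit 5) (.br (nat_lit 4) (.ch (nat_lit 0) (.ev (nat_lit 352) (nat_lit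
 4573970521131520) (.nd (nat_lit 736) (.br (nat_lit 9) (.br (nat_lit 5) (.br (nat_lit 3) (.ch (nat_lit 2) (.ev
 (nat_lit 752) (nat_lit 19791209299968) (.ev (nat_lit 2884) (nat_lit 16777216) (.ev (nat_lit 2893) (nat_lit
 4096) .dd)))) (.ch (nat_lit 3) (.ev (nat_lit 752) (nat_lit 4096) (.ev (nat_lit 772) (nat_lit 17592186044416)
 (.ev (nat_lit 1028) (nat_lit 2199023255552) (.ev (nat_lit 1037) (nat_lit 16777216) .dd)))))) (.br (nat_lit 6)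
 (.ch (nat_lit 5) (.ev (nat_lit 752) (nat_lit 16781312) (.ev (nat_lit 1540) (nat_lit 2199023255552) (.ev
 (nat_lit 1549) (nat_lit 17592186044416) .dd)))) (.ch (nat_lit 6) (.ev (nat_lit 752) (nat_lit 4096) (.ev
 (nat_lit 2292) (nat_lit 16777216) (.ev (nat_lit 3988) (nat_lit 2199023255552) (.ev (nat_lit 3997) (nat_lit
 17592186044416) .dd))))))) (.br (nat_lit 13) (.br (nat_lit 12) (.ch (nat_lit 9) (.ev (nat_lit 752) (nat_lit
 17592202821632) (.fin (nat_lit 576474496199246386)))) (.ch (nat_lit 12) (.ev (nat_lit 752) (nat_lit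
 19791209304064) (.ev (nat_lit 765) (nat_lit 16777216) .dd)))) (.br (nat_lit 15) (.ch (nat_lit 13) (.ev
 (nat_lit 752) (nat_lit 2199023255552) (.ev (nat_lit 3620) (nat_lit 4096) (.ev (nat_lit 3840) (nat_lit
 17592186044416) (.ev (nat_lit 3853) (nat_lit 16777216) .dd))))) (.ch (nat_lit 15) (.ev (nat_lit 752) (nat_lit
 16781312) (.ev (nat_lit 1028) (nat_lit 2199023255552) (.ev (nat_lit 1037) (nat_lit 17592186044416)
 .dd)))))))))) (.ch (nat_lit 4) (.ev (nat_lit 352) (nat_lit 72567784214528) (.ev (nat_lit 452) (nat_lit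
 2147483648) (.nd (nat_lit 736) (.br (nat_lit 11) (.br (nat_lit 5) (.br (nat_lit 3) (.ch (nat_lit 2) (.ev
 (nat_lit 752) (nat_lit 4521191815512064) (.ev (nat_lit 916) (nat_lit 512) (.ev (nat_lit 925) (nat_lit 2048)
 .dd)))) (.ch (nat_lit 3) (.ev (nat_lit 752) (nat_lit 2560) (.ev (nat_lit 3828) (nat_lit 4521191813414912) (.ev
 (nat_lit 3837) (nat_lit 2097152) .dd))))) (.br (nat_lit 10) (.ch (nat_lit 5) (.ev (nat_lit 752) (nat_lit
 17592188142080) (.ev (nat_lit 1876) (nat_lit 2048) (.ev (nat_lit 1885) (nat_lit 4503599627370496) .dd)))) (.ch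
 (nat_lit 10) (.ev (nat_lit 752) (nat_lit 4521191813417472) (.ev (nat_lit 765) (nat_lit 2097152) .dd))))) (.br
 (nat_lit 13) (.br (nat_lit 12) (.ch (nat_lit 11) (.ev (nat_lit 752) (nat_lit 17592188144128) (.ev (nat_lit
 765) (nat_lit 4503599627370496) .dd))) (.ch (nat_lit 12) (.ev (nat_lit 752) (nat_lit 4521191813416960) (.ev
 (nat_lit 1280) (nat_lit 512) (.ev (nat_lit 1293) (nat_lit 2097152) .dd))))) (.br (nat_lit 14) (.ch (nat_lit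
 13) (.ev (nat_lit 752) (nat_lit 2097664) (.ev (nat_lit 1028) (nat_lit 2048) (.ev (nat_lit 3620) (nat_lit
 4503599627370496) (.ev (nat_lit 3629) (nat_lit 17592186044416) .dd))))) (.br (nat_lit 15) (.ch (nat_lit 14)
 (.ev (nat_lit 752) (nat_lit 2048) (.ev (nat_lit 772) (nat_lit 4503599627370496) (.ev (nat_lit 916) (nat_lit
 512) (.ev (nat_lit 1028) (nat_lit 2097152) (.ev (nat_lit 1037) (nat_lit 17592186044416) .dd)))))) (.ch
 (nat_lit 15) (.ev (nat_lit 752) (nat_lit 4521191815514624) .dd))))))))))) (.br (nat_lit 6) (.ch (nat_lit 5)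
 (.ev (nat_lit 352) (nat_lit 90159972358144) (.nd (nat_lit 880) (.br (nat_lit 6) (.br (nat_lit 4) (.br (nat_lit
 3) (.ch (nat_lit 2) (.ev (nat_lit 896) (nat_lit 4503599627371008) (.ev (nat_lit 909) (nat_lit 2147483648)
 .dd))) (.ch (nat_lit 3) (.ev (nat_lit 896) (nat_lit 4503601774854656) .dd))) (.br (nat_lit 5) (.ch (nat_lit 4)
 (.ev (nat_lit 896) (nat_lit 4503599627370496) (.fin (nat_lit 576399729273291225)))) (.ch (nat_lit 5) (.ev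
 (nat_lit 896) (nat_lit 2147483648) (.ev (nat_lit 1492) (nat_lit 512) (.ev (nat_lit 1501) (nat_lit
 4503599627370496) .dd)))))) (.br (nat_lit 12) (.br (nat_lit 7) (.ch (nat_lit 6) (.ev (nat_lit 896) (nat_lit
 4503599627370496) (.ev (nat_lit 1172) (nat_lit 512) (.ev (nat_lit 1181) (nat_lit 2147483648) .dd)))) (.ch
 (nat_lit 7) (.ev (nat_lit 896) (nat_lit 512) (.ev (nat_lit 2128) (nat_lit 2147483648) (.ev (nat_lit 2141)
 (nat_lit 4503599627370496) .dd))))) (.br (nat_lit 15) (.ch (nat_lit 12) (.ev (nat_lit 896) (nat_lit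
 2147483648) (.ev (nat_lit 1172) (nat_lit 512) (.ev (nat_lit 1181) (nat_lit 4503599627370496) .dd)))) (.ch
 (nat_lit 15) (.ev (nat_lit 896) (nat_lit 4503601774854144) (.ev (nat_lit 909) (nat_lit 512) .dd))))))))) (.ch
 (nat_lit 6) (.ev (nat_lit 352) (nat_lit 90162103058944) (.nd (nat_lit 976) (.br (nat_lit 5) (.br (nat_lit 3)
 (.br (nat_lit 1) (.ch (nat_lit 0) (.ev (nat_lit 992) (nat_lit 16783360) (.ev (nat_lit 1005) (nat_lit
 4503599627370496) .dd))) (.ch (nat_lit 1) (.ev (nat_lit 992) (nat_lit 4503599627370496) (.ev (nat_lit 1028)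
 (nat_lit 6144) (.ev (nat_lit 1037) (nat_lit 16777216) .dd))))) (.br (nat_lit 4) (.ch (nat_lit 3) (.ev (nat_lit
 992) (nat_lit 6144) (.fin (nat_lit 576465700112515650)))) (.ch (nat_lit 4) (.ev (nat_lit 992) (nat_lit
 16783360) (.ev (nat_lit 1005) (nat_lit 4503599627370496) .dd))))) (.br (nat_lit 14) (.br (nat_lit 9) (.ch
 (nat_lit 5) (.ev (nat_lit 992) (nat_lit 16779264) (.ev (nat_lit 3620) (nat_lit 4503599627370496) (.ev (nat_lit
 3629) (nat_lit 4096) .dd)))) (.ch (nat_lit 9) (.ev (nat_lit 992) (nat_lit 4503599627370496) (.ev (nat_lit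
 1028) (nat_lit 16779264) (.ev (nat_lit 1037) (nat_lit 4096) .dd))))) (.br (nat_lit 15) (.ch (nat_lit 14) (.ev
 (nat_lit 992) (nat_lit 16779264) (.ev (nat_lit 1028) (nat_lit 4503599627370496) (.ev (nat_lit 1037) (nat_lit
 4096) .dd)))) (.br (nat_lit 16) (.ch (nat_lit 15) (.ev (nat_lit 992) (nat_lit 4503599627376640) (.ev (nat_lit
 1005) (nat_lit 16777216) .dd))) (.ch (nat_lit 16) (.ev (nat_lit 992) (nat_lit 4503599627370496) (.ev (nat_lit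
 1700) (nat_lit 4096) (.ev (nat_lit 3568) (nat_lit 2048) (.ev (nat_lit 3581) (nat_lit 16777216)
 .dd)))))))))))))) (.br (nat_lit 10) (.br (nat_lit 9) (.ch (nat_lit 8) (.ev (nat_lit 352) (nat_lit
 4573970519035904) (.nd (nat_lit 608) (.br (nat_lit 8) (.br (nat_lit 4) (.br (nat_lit 3) (.ch (nat_lit 1) (.ev
 (nat_lit 624) (nat_lit 2199040035328) (.ev (nat_lit 2420) (nat_lit 2097152) (.ev (nat_lit 2429) (nat_lit
 17592186044416) .dd)))) (.ch (nat_lit 3) (.ev (nat_lit 624) (nat_lit 16779776) (.ev (nat_lit 1732) (nat_lit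
 2097152) (.ev (nat_lit 3892) (nat_lit 2199023255552) (.ev (nat_lit 3901) (nat_lit 17592186044416) .dd))))))
 (.br (nat_lit 6) (.ch (nat_lit 4) (.ev (nat_lit 624) (nat_lit 17592202821632) (.ev (nat_lit 916) (nat_lit
 2199023255552) (.ev (nat_lit 3460) (nat_lit 512) (.ev (nat_lit 3732) (nat_lit 2097152) (.ev (nat_lit 3741)
 (nat_lit 2048) .dd)))))) (.ch (nat_lit 6) (.ev (nat_lit 624) (nat_lit 17592204919296) (.ev (nat_lit 1444)
 (nat_lit 2199023255552) (.ev (nat_lit 1453) (nat_lit 2048) .dd)))))) (.br (nat_lit 12) (.br (nat_lit 9) (.ch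
 (nat_lit 8) (.ev (nat_lit 624) (nat_lit 2199042131968) (.ev (nat_lit 1060) (nat_lit 512) (.ev (nat_lit 1069)
 (nat_lit 17592186044416) .dd)))) (.ch (nat_lit 9) (.ev (nat_lit 624) (nat_lit 17592186044928) (.ev (nat_lit
 916) (nat_lit 2199023255552) (.ev (nat_lit 2228) (nat_lit 16777216) (.ev (nat_lit 2308) (nat_lit 2048) (.ev
 (nat_lit 2317) (nat_lit 2097152) .dd))))))) (.br (nat_lit 13) (.ch (nat_lit 12) (.ev (nat_lit 624) (nat_lit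
 2199042132480) (.ev (nat_lit 637) (nat_lit 17592186044416) .dd))) (.br (nat_lit 16) (.ch (nat_lit 13) (.ev
 (nat_lit 624) (nat_lit 17592188142080) (.ev (nat_lit 1540) (nat_lit 16777216) (.ev (nat_lit 2964) (nat_lit
 2199023255552) (.ev (nat_lit 2973) (nat_lit 2048) .dd))))) (.ch (nat_lit 16) (.ev (nat_lit 624) (nat_lit
 2199023255552) (.ev (nat_lit 1204) (nat_lit 18874368) (.ev (nat_lit 2160) (nat_lit 512) (.fin (nat_lit
 576461302056567355))))))))))))) (.ch (nat_lit 9) (.ev (nat_lit 352) (nat_lit 19793373561344) (.nd (nat_lit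
 672) (.br (nat_lit 6) (.br (nat_lit 3) (.br (nat_lit 2) (.ch (nat_lit 0) (.ev (nat_lit 688) (nat_lit
 4573968371548160) (.ev (nat_lit 1028) (nat_lit 2097152) (.ev (nat_lit 3620) (nat_lit 4096) (.ev (nat_lit 3629)
 (nat_lit 2048) .dd))))) (.ch (nat_lit 2) (.ev (nat_lit 688) (nat_lit 4573968373649408) (.ev (nat_lit 701)
 (nat_lit 2048) .dd)))) (.br (nat_lit 5) (.ch (nat_lit 3) (.ev (nat_lit 688) (nat_lit 70368744177664) (.ev
 (nat_lit 772) (nat_lit 4503599627370496) (.ev (nat_lit 1028) (nat_lit 2097152) (.ev (nat_lit 1268) (nat_lit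
 2048) (.ev (nat_lit 1277) (nat_lit 4096) .dd)))))) (.ch (nat_lit 5) (.ev (nat_lit 688) (nat_lit
 4573968371554304) (.ev (nat_lit 701) (nat_lit 2097152) .dd))))) (.br (nat_lit 11) (.br (nat_lit 8) (.ch
 (nat_lit 6) (.ev (nat_lit 688) (nat_lit 2101248) (.ev (nat_lit 708) (nat_lit 2048) (.ev (nat_lit 2228)
 (nat_lit 70368744177664) (.ev (nat_lit 2237) (nat_lit 4503599627370496) .dd))))) (.ch (nat_lit 8) (.ev
 (nat_lit 688) (nat_lit 2048) (.ev (nat_lit 1444) (nat_lit 2097152) (.ev (nat_lit 1568) (nat_lit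
 70368744177664) (.ev (nat_lit 2868) (nat_lit 4096) (.ev (nat_lit 2877) (nat_lit 4503599627370496) .dd)))))))
 (.br (nat_lit 12) (.ch (nat_lit 11) (.ev (nat_lit 688) (nat_lit 70368746276864) (.ev (nat_lit 3892) (nat_lit
 4503599627370496) (.ev (nat_lit 3901) (nat_lit 4096) .dd)))) (.br (nat_lit 16) (.ch (nat_lit 12) (.ev (nat_lit
 688) (nat_lit 4503599629469696) (.ev (nat_lit 1184) (nat_lit 4096) (.ev (nat_lit 1197) (nat_lit
 70368744177664) .dd)))) (.ch (nat_lit 16) (.ev (nat_lit 688) (nat_lit 2101248) (.ev (nat_lit 1060) (nat_lit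
 4503599627370496) (.ev (nat_lit 1520) (nat_lit 70368744177664) (.ev (nat_lit 1533) (nat_lit 2048)
 .dd))))))))))))) (.br (nat_lit 11) (.ch (nat_lit 10) (.ev (nat_lit 352) (nat_lit 4573970521133056) (.nd
 (nat_lit 672) (.br (nat_lit 10) (.br (nat_lit 5) (.br (nat_lit 3) (.ch (nat_lit 2) (.ev (nat_lit 688) (nat_lit
 16777728) (.ev (nat_lit 1060) (nat_lit 2199023255552) (.ev (nat_lit 3940) (nat_lit 2048) (.ev (nat_lit 3949)
 (nat_lit 17592186044416) .dd))))) (.ch (nat_lit 3) (.ev (nat_lit 688) (nat_lit 17592202824192) (.ev (nat_lit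
 701) (nat_lit 2199023255552) .dd)))) (.br (nat_lit 9) (.ch (nat_lit 5) (.ev (nat_lit 688) (nat_lit 16779264)
 (.ev (nat_lit 1204) (nat_lit 2199023255552) (.ev (nat_lit 3524) (nat_lit 17592186044416) (.ev (nat_lit 3533)
 (nat_lit 512) .dd))))) (.ch (nat_lit 9) (.ev (nat_lit 688) (nat_lit 19791209302528) (.ev (nat_lit 701)
 (nat_lit 16777216) .dd))))) (.br (nat_lit 14) (.br (nat_lit 11) (.ch (nat_lit 10) (.ev (nat_lit 688) (nat_lit
 19791209302016) (.ev (nat_lit 1908) (nat_lit 16777216) (.ev (nat_lit 1917) (nat_lit 512) .dd)))) (.ch (nat_lit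
 11) (.ev (nat_lit 688) (nat_lit 17592186044416) (.nd (nat_lit 2496) (.br (nat_lit 12) (.br (nat_lit 9) (.ch
 (nat_lit 3) (.ev (nat_lit 2788) (nat_lit 2560) (.ev (nat_lit 3380) (nat_lit 2199023255552) (.ev (nat_lit 3389)
 (nat_lit 16777216) .dd)))) (.br (nat_lit 11) (.ch (nat_lit 9) (.ev (nat_lit 2512) (nat_lit 2199023256064) (.ev
 (nat_lit 2548) (nat_lit 2048) (.ev (nat_lit 2557) (nat_lit 16777216) .dd)))) (.ch (nat_lit 11) (.ev (nat_lit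
 2512) (nat_lit 16777728) (.ev (nat_lit 3552) (nat_lit 2199023257600) .dd))))) (.br (nat_lit 14) (.br (nat_lit
 13) (.ch (nat_lit 12) (.ev (nat_lit 2512) (nat_lit 2199023258112) (.ev (nat_lit 2525) (nat_lit 16777216)
 .dd))) (.ch (nat_lit 13) (.ev (nat_lit 2512) (nat_lit 2199023258112) (.ev (nat_lit 2525) (nat_lit 16777216)
 .dd)))) (.br (nat_lit 15) (.ch (nat_lit 14) (.ev (nat_lit 2512) (nat_lit 2560) (.ev (nat_lit 2628) (nat_lit
 2199023255552) (.ev (nat_lit 2637) (nat_lit 16777216) .dd)))) (.ch (nat_lit 15) (.ev (nat_lit 2512) (nat_lit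
 2199040032768) (.ev (nat_lit 2788) (nat_lit 512) (.ev (nat_lit 2797) (nat_lit 2048) .dd))))))))))) (.br
 (nat_lit 15) (.ch (nat_lit 14) (.ev (nat_lit 688) (nat_lit 19791209300480) (.nd (nat_lit 3120) (.br (nat_lit
 13) (.br (nat_lit 11) (.ch (nat_lit 10) (.ev (nat_lit 3136) (nat_lit 2048) (.ev (nat_lit 3149) (nat_lit
 16777216) .dd))) (.ch (nat_lit 11) (.ev (nat_lit 3136) (nat_lit 16779264) .dd))) (.br (nat_lit 15) (.ch
 (nat_lit 13) (.ev (nat_lit 3332) (nat_lit 2048) (.ev (nat_lit 3341) (nat_lit 16777216) .dd))) (.br (nat_lit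
 16) (.ch (nat_lit 15) (.ev (nat_lit 3136) (nat_lit 16777216) (.ev (nat_lit 3149) (nat_lit 2048) .dd))) (.ch
 (nat_lit 16) (.ev (nat_lit 3744) (nat_lit 16779264) .dd)))))))) (.ch (nat_lit 15) (.ev (nat_lit 688) (nat_lit
 2560) (.ev (nat_lit 772) (nat_lit 16777216) (.ev (nat_lit 2788) (nat_lit 17592186044416) (.ev (nat_lit 2797)
 (nat_lit 2199023255552) .dd))))))))))) (.br (nat_lit 12) (.ch (nat_lit 11) (.ev (nat_lit 352) (nat_lit
 4523392984156160) (.nd (nat_lit 800) (.br (nat_lit 9) (.br (nat_lit 5) (.br (nat_lit 3) (.ch (nat_lit 0) (.ev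
 (nat_lit 816) (nat_lit 16781312) (.ev (nat_lit 1028) (nat_lit 512) (.nd (nat_lit 4320) (.ch (nat_lit 0) (.nd
 (nat_lit 5632) (.br (nat_lit 9) (.ch (nat_lit 0) (.fin (nat_lit 576135846503596785))) (.ch (nat_lit 9) (.ev
 (nat_lit 5648) (nat_lit 70368744177664) (.ev (nat_lit 5661) (nat_lit 2097152) .dd)))))))))) (.ch (nat_lit 3)
 (.ev (nat_lit 816) (nat_lit 70368746274816) (.ev (nat_lit 1028) (nat_lit 512) (.ev (nat_lit 1840) (nat_lit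
 4096) (.ev (nat_lit 1853) (nat_lit 16777216) .dd)))))) (.br (nat_lit 8) (.ch (nat_lit 5) (.ev (nat_lit 816)
 (nat_lit 18878976) (.ev (nat_lit 829) (nat_lit 70368744177664) .dd))) (.ch (nat_lit 8) (.ev (nat_lit 816)
 (nat_lit 18878464) (.ev (nat_lit 1540) (nat_lit 512) (.ev (nat_lit 1549) (nat_lit 70368744177664) .dd))))))
 (.br (nat_lit 11) (.br (nat_lit 10) (.ch (nat_lit 9) (.ev (nat_lit 816) (nat_lit 70368760959488) (.ev (nat_lit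
 829) (nat_lit 2097152) .dd))) (.ch (nat_lit 10) (.ev (nat_lit 816) (nat_lit 70368744177664) (.ev (nat_lit
 1172) (nat_lit 2097152) (.ev (nat_lit 2272) (nat_lit 512) (.ev (nat_lit 3332) (nat_lit 16777216) (.ev (nat_lit
 3341) (nat_lit 4096) .dd))))))) (.br (nat_lit 12) (.ch (nat_lit 11) (.ev (nat_lit 816) (nat_lit
 70368746275328) (.ev (nat_lit 836) (nat_lit 4096) (.ev (nat_lit 845) (nat_lit 16777216) .dd)))) (.ch (nat_lit
 12) (.ev (nat_lit 816) (nat_lit 70368763056128) (.ev (nat_lit 829) (nat_lit 512) .dd))))))))) (.ch (nat_lit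
 12) (.ev (nat_lit 352) (nat_lit 2199040035328) (.nd (nat_lit 736) (.br (nat_lit 10) (.br (nat_lit 6) (.br
 (nat_lit 3) (.ch (nat_lit 1) (.ev (nat_lit 752) (nat_lit 4521193962999808) (.ev (nat_lit 765) (nat_lit
 70368744177664) .dd))) (.ch (nat_lit 3) (.ev (nat_lit 752) (nat_lit 87963079802880) (.ev (nat_lit 1876)
 (nat_lit 4503599627370496) (.ev (nat_lit 1885) (nat_lit 4096) .dd))))) (.br (nat_lit 8) (.ch (nat_lit 6) (.ev
 (nat_lit 752) (nat_lit 4521193960902656) (.fin (nat_lit 576421719553032700)))) (.ch (nat_lit 8) (.ev (nat_lit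
 752) (nat_lit 70370891665408) (.nd (nat_lit 2496) (.br (nat_lit 13) (.br (nat_lit 6) (.ch (nat_lit 4) (.ev
 (nat_lit 3204) (nat_lit 2097152) (.ev (nat_lit 3280) (nat_lit 17592186044416) (.ev (nat_lit 3293) (nat_lit
 4503599627370496) .dd)))) (.ch (nat_lit 6) (.ev (nat_lit 2512) (nat_lit 17592188141568) (.ev (nat_lit 2525)
 (nat_lit 4503599627370496) .dd)))) (.br (nat_lit 15) (.ch (nat_lit 13) (.ev (nat_lit 2512) (nat_lit
 4503599629467648) (.ev (nat_lit 2525) (nat_lit 17592186044416) .dd))) (.ch (nat_lit 15) (.ev (nat_lit 2512)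
 (nat_lit 17592188141568) (.ev (nat_lit 2525) (nat_lit 4503599627370496) .dd)))))))))) (.br (nat_lit 12) (.br
 (nat_lit 11) (.ch (nat_lit 10) (.ev (nat_lit 752) (nat_lit 4591560559689728) (.ev (nat_lit 2788) (nat_lit
 2147483648) (.ev (nat_lit 2797) (nat_lit 4096) .dd)))) (.ch (nat_lit 11) (.ev (nat_lit 752) (nat_lit
 4573968371552256) (.ev (nat_lit 868) (nat_lit 2097152) (.ev (nat_lit 1204) (nat_lit 17592186044416) (.ev
 (nat_lit 1213) (nat_lit 2147483648) .dd)))))) (.br (nat_lit 16) (.ch (nat_lit 12) (.ev (nat_lit 752) (nat_lit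
 4573970519031808) (.ev (nat_lit 1540) (nat_lit 17592186044416) (.ev (nat_lit 1764) (nat_lit 4096) (.ev
 (nat_lit 1773) (nat_lit 2097152) .dd))))) (.ch (nat_lit 16) (.ev (nat_lit 752) (nat_lit 17592186048512) (.ev
 (nat_lit 852) (nat_lit 4503599629467648) (.ev (nat_lit 1028) (nat_lit 2147483648) (.ev (nat_lit 1037) (nat_lit
 70368744177664) .dd)))))))))))))))))) (.ch (nat_lit 2) (.ev (nat_lit 48) (nat_lit 99505821389824) (.nd
 (nat_lit 256) (.br (nat_lit 12) (.br (nat_lit 7) (.br (nat_lit 4) (.ch (nat_lit 0) (.ev (nat_lit 272) (nat_lit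
 4503668346849312) (.nd (nat_lit 736) (.br (nat_lit 10) (.br (nat_lit 4) (.ch (nat_lit 3) (.ev (nat_lit 752)
 (nat_lit 2415919616) (.ev (nat_lit 765) (nat_lit 562949953421312) .dd))) (.br (nat_lit 5) (.ch (nat_lit 4)
 (.ev (nat_lit 752) (nat_lit 562949953421312) (.ev (nat_lit 1236) (nat_lit 2147483648) (.ev (nat_lit 1540)
 (nat_lit 268435456) (.ev (nat_lit 1549) (nat_lit 512) .dd))))) (.ch (nat_lit 5) (.ev (nat_lit 752) (nat_lit
 562952369340416) (.ev (nat_lit 765) (nat_lit 512) .dd))))) (.br (nat_lit 12) (.br (nat_lit 11) (.ch (nat_lit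
 10) (.ev (nat_lit 752) (nat_lit 562950221857280) (.ev (nat_lit 765) (nat_lit 2147483648) .dd))) (.ch (nat_lit
 11) (.ev (nat_lit 752) (nat_lit 268435456) (.ev (nat_lit 1568) (nat_lit 562949953421312) (.ev (nat_lit 4036)
 (nat_lit 512) (.ev (nat_lit 4045) (nat_lit 2147483648) .dd)))))) (.br (nat_lit 15) (.ch (nat_lit 12) (.ev
 (nat_lit 752) (nat_lit 2147484160) (.ev (nat_lit 836) (nat_lit 268435456) (.ev (nat_lit 845) (nat_lit
 562949953421312) .dd)))) (.ch (nat_lit 15) (.ev (nat_lit 752) (nat_lit 512) (.ev (nat_lit 1456) (nat_lit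
 268435456) (.ev (nat_lit 1664) (nat_lit 562952100904960) .dd)))))))))) (.ch (nat_lit 4) (.ev (nat_lit 272)
 (nat_lit 4503599895808512) (.nd (nat_lit 976) (.br (nat_lit 11) (.br (nat_lit 4) (.ch (nat_lit 1) (.ev
 (nat_lit 992) (nat_lit 32) (.ev (nat_lit 1444) (nat_lit 68719476736) (.fin (nat_lit 576014900193083725)))))
 (.br (nat_lit 8) (.ch (nat_lit 4) (.ev (nat_lit 992) (nat_lit 563018672898048) (.ev (nat_lit 1908) (nat_lit
 32) (.ev (nat_lit 1917) (nat_lit 2147483648) .dd)))) (.ch (nat_lit 8) (.ev (nat_lit 992) (nat_lit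
 563018672898048) (.nd (nat_lit 4320) (.br (nat_lit 10) (.ch (nat_lit 2) (.nd (nat_lit 5664) (.br (nat_lit 11)
 (.ch (nat_lit 1) (.ev (nat_lit 5680) (nat_lit 32) (.ev (nat_lit 5693) (nat_lit 2147483648) .dd))) (.ch
 (nat_lit 11) (.fin (nat_lit 576459103023874748)))))) (.br (nat_lit 14) (.ch (nat_lit 10) (.ev (nat_lit 4336)
 (nat_lit 2147483648) (.ev (nat_lit 4349) (nat_lit 32) .dd))) (.ch (nat_lit 14) (.ev (nat_lit 4336) (nat_lit
 2147483680) .dd))))))))) (.br (nat_lit 14) (.br (nat_lit 13) (.ch (nat_lit 11) (.ev (nat_lit 992) (nat_lit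
 563020820381696) (.ev (nat_lit 1005) (nat_lit 32) .dd))) (.ch (nat_lit 13) (.ev (nat_lit 992) (nat_lit
 562952100904960) (.ev (nat_lit 1444) (nat_lit 68719476736) (.ev (nat_lit 1453) (nat_lit 32) .dd))))) (.br
 (nat_lit 16) (.ch (nat_lit 14) (.ev (nat_lit 992) (nat_lit 563020820381728) .dd)) (.ch (nat_lit 16) (.ev
 (nat_lit 992) (nat_lit 70866960416) (.ev (nat_lit 1005) (nat_lit 562949953421312) .dd)))))))))) (.br (nat_lit
 11) (.ch (nat_lit 7) (.ev (nat_lit 272) (nat_lit 562950221856800) (.nd (nat_lit 672) (.br (nat_lit 5) (.br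
 (nat_lit 2) (.ch (nat_lit 0) (.ev (nat_lit 688) (nat_lit 4503599627372544) (.ev (nat_lit 1412) (nat_lit
 68719476736) (.ev (nat_lit 1492) (nat_lit 2147483648) (.ev (nat_lit 1501) (nat_lit 512) .dd))))) (.br (nat_lit
 4) (.ch (nat_lit 2) (.ev (nat_lit 688) (nat_lit 4503668346849280) (.ev (nat_lit 724) (nat_lit 2147483648) (.ev
 (nat_lit 733) (nat_lit 512) .dd)))) (.ch (nat_lit 4) (.ev (nat_lit 688) (nat_lit 68719479296) (.ev (nat_lit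
 708) (nat_lit 2147483648) (.ev (nat_lit 717) (nat_lit 4503599627370496) .dd)))))) (.br (nat_lit 10) (.br
 (nat_lit 7) (.ch (nat_lit 5) (.ev (nat_lit 688) (nat_lit 512) (.ev (nat_lit 772) (nat_lit 2048) (.ev (nat_lit
 1552) (nat_lit 68719476736) (.ev (nat_lit 2144) (nat_lit 4503601774854144) .dd))))) (.ch (nat_lit 7) (.ev
 (nat_lit 688) (nat_lit 4503670494330880) (.ev (nat_lit 1956) (nat_lit 512) (.ev (nat_lit 1965) (nat_lit 2048)
 .dd))))) (.br (nat_lit 14) (.ch (nat_lit 10) (.ev (nat_lit 688) (nat_lit 68719476736) (.ev (nat_lit 3380)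
 (nat_lit 4503599627370496) (.ev (nat_lit 3460) (nat_lit 2147483648) (.ev (nat_lit 3828) (nat_lit 2048) (.ev
 (nat_lit 3837) (nat_lit 512) .dd)))))) (.ch (nat_lit 14) (.ev (nat_lit 688) (nat_lit 4503670494330880) (.ev
 (nat_lit 1908) (nat_lit 2048) (.ev (nat_lit 1917) (nat_lit 512) .dd)))))))))) (.ch (nat_lit 11) (.ev (nat_lit
 272) (nat_lit 5066620716189728) (.ev (nat_lit 285) (nat_lit 512) .dd))))) (.br (nat_lit 14) (.br (nat_lit 13)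
 (.ch (nat_lit 12) (.ev (nat_lit 272) (nat_lit 68719476768) (.nd (nat_lit 560) (.br (nat_lit 6) (.br (nat_lit
 4) (.br (nat_lit 3) (.ch (nat_lit 2) (.ev (nat_lit 576) (nat_lit 5066551996710912) (.ev (nat_lit 2704)
 (nat_lit 2560) .dd))) (.ch (nat_lit 3) (.ev (nat_lit 576) (nat_lit 268438016) (.ev (nat_lit 596) (nat_lit
 4503599627370496) (.nd (nat_lit 2560) (.br (nat_lit 15) (.ch (nat_lit 6) (.ev (nat_lit 2640) (nat_lit
 562952100904960) .dd)) (.ch (nat_lit 15) (.ev (nat_lit 3268) (nat_lit 2147483648) (.ev (nat_lit 3277) (nat_lit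
 562949953421312) .dd))))))))) (.br (nat_lit 5) (.ch (nat_lit 4) (.ev (nat_lit 576) (nat_lit 562950221858816)
 (.nd (nat_lit 3232) (.br (nat_lit 15) (.ch (nat_lit 9) (.ev (nat_lit 3248) (nat_lit 512) (.fin (nat_lit
 576417321589359169)))) (.ch (nat_lit 15) (.ev (nat_lit 3248) (nat_lit 2147483648) (.ev (nat_lit 3524) (nat_lit
 512) (.ev (nat_lit 3533) (nat_lit 4503599627370496) .dd)))))))) (.ch (nat_lit 5) (.ev (nat_lit 576) (nat_lit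
 5066551728278016) (.ev (nat_lit 589) (nat_lit 268435456) .dd))))) (.br (nat_lit 9) (.br (nat_lit 8) (.ch
 (nat_lit 6) (.ev (nat_lit 576) (nat_lit 562950221858816) (.ev (nat_lit 596) (nat_lit 2147483648) (.ev (nat_lit
 2176) (nat_lit 4503599627370496) (.ev (nat_lit 2189) (nat_lit 512) .dd))))) (.ch (nat_lit 8) (.ev (nat_lit
 576) (nat_lit 4503599895808512) (.ev (nat_lit 2240) (nat_lit 2147483648) (.ev (nat_lit 2253) (nat_lit
 562949953421312) .dd))))) (.br (nat_lit 10) (.ch (nat_lit 9) (.ev (nat_lit 576) (nat_lit 2147484160) (.ev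
 (nat_lit 1092) (nat_lit 4503599627370496) (.ev (nat_lit 1540) (nat_lit 2048) (.ev (nat_lit 2116) (nat_lit
 562949953421312) (.ev (nat_lit 2125) (nat_lit 268435456) .dd)))))) (.br (nat_lit 14) (.ch (nat_lit 10) (.ev
 (nat_lit 576) (nat_lit 562952100904960) (.ev (nat_lit 788) (nat_lit 268435456) (.ev (nat_lit 1028) (nat_lit
 2048) (.ev (nat_lit 3696) (nat_lit 512) (.ev (nat_lit 3709) (nat_lit 4503599627370496) .dd)))))) (.ch (nat_lit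
 14) (.ev (nat_lit 576) (nat_lit 5066549580793856) (.ev (nat_lit 1060) (nat_lit 268435456) (.ev (nat_lit 3856)
 (nat_lit 512) (.ev (nat_lit 3869) (nat_lit 2147483648) .dd)))))))))))) (.ch (nat_lit 13) (.ev (nat_lit 272)
 (nat_lit 5066551728278048) (.nd (nat_lit 1344) (.br (nat_lit 10) (.br (nat_lit 6) (.ch (nat_lit 0) (.ev
 (nat_lit 1360) (nat_lit 68719476736) (.ev (nat_lit 1373) (nat_lit 268435456) .dd))) (.br (nat_lit 8) (.ch
 (nat_lit 6) (.ev (nat_lit 1360) (nat_lit 268435456) (.ev (nat_lit 1373) (nat_lit 68719476736) .dd))) (.ch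
 (nat_lit 8) (.ev (nat_lit 1360) (nat_lit 68719476736) (.ev (nat_lit 1373) (nat_lit 268435456) .dd))))) (.br
 (nat_lit 12) (.ch (nat_lit 10) (.ev (nat_lit 1360) (nat_lit 68719476736) (.ev (nat_lit 1373) (nat_lit
 268435456) .dd))) (.br (nat_lit 15) (.ch (nat_lit 12) (.ev (nat_lit 1588) (nat_lit 268435456) (.ev (nat_lit
 1597) (nat_lit 68719476736) .dd))) (.ch (nat_lit 15) (.ev (nat_lit 1360) (nat_lit 268435456) (.ev (nat_lit
 1373) (nat_lit 68719476736) .dd)))))))))) (.br (nat_lit 15) (.ch (nat_lit 14) (.ev (nat_lit 272) (nat_lit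
 562952369340928) (.nd (nat_lit 800) (.br (nat_lit 10) (.br (nat_lit 2) (.br (nat_lit 1) (.ch (nat_lit 0) (.ev
 (nat_lit 1060) (nat_lit 4503599627370496) (.ev (nat_lit 1812) (nat_lit 2048) (.ev (nat_lit 2176) (nat_lit
 68719476736) (.ev (nat_lit 2189) (nat_lit 32) .dd))))) (.ch (nat_lit 1) (.ev (nat_lit 816) (nat_lit
 68719478784) (.ev (nat_lit 1796) (nat_lit 4503599627370496) (.ev (nat_lit 1805) (nat_lit 32) .dd))))) (.br
 (nat_lit 6) (.ch (nat_lit 2) (.ev (nat_lit 816) (nat_lit 4503599627370528) (.ev (nat_lit 1412) (nat_lit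
 68719476736) (.ev (nat_lit 1421) (nat_lit 2048) .dd)))) (.ch (nat_lit 6) (.ev (nat_lit 816) (nat_lit
 4503599627372576) (.ev (nat_lit 829) (nat_lit 68719476736) .dd))))) (.br (nat_lit 12) (.br (nat_lit 11) (.ch
 (nat_lit 10) (.ev (nat_lit 816) (nat_lit 4503599627372544) (.ev (nat_lit 1204) (nat_lit 32) (.ev (nat_lit
 1213) (nat_lit 68719476736) .dd)))) (.ch (nat_lit 11) (.ev (nat_lit 816) (nat_lit 68719476768) (.ev (nat_lit
 4004) (nat_lit 2048) (.ev (nat_lit 4013) (nat_lit 4503599627370496) .dd))))) (.br (nat_lit 14) (.ch (nat_lit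
 12) (.ev (nat_lit 816) (nat_lit 4503599627370496) (.ev (nat_lit 1204) (nat_lit 32) (.ev (nat_lit 2176)
 (nat_lit 68719476736) (.ev (nat_lit 2189) (nat_lit 2048) .dd))))) (.br (nat_lit 15) (.ch (nat_lit 14) (.ev
 (nat_lit 816) (nat_lit 68719476768) (.ev (nat_lit 3684) (nat_lit 4503599627370496) (.ev (nat_lit 3693)
 (nat_lit 2048) .dd)))) (.ch (nat_lit 15) (.ev (nat_lit 816) (nat_lit 68719478784) (.fin (nat_lit
 576423918612988613))))))))))) (.br (nat_lit 16) (.ch (nat_lit 15) (.ev (nat_lit 272) (nat_lit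
 5066549580794400) (.nd (nat_lit 1136) (.br (nat_lit 8) (.br (nat_lit 3) (.ch (nat_lit 1) (.ev (nat_lit 1152)
 (nat_lit 68987912192) (.ev (nat_lit 1165) (nat_lit 2147483648) .dd))) (.br (nat_lit 6) (.ch (nat_lit 3) (.ev
 (nat_lit 1152) (nat_lit 268435456) (.ev (nat_lit 1204) (nat_lit 2147483648) (.ev (nat_lit 1213) (nat_lit
 68719476736) .dd)))) (.ch (nat_lit 6) (.ev (nat_lit 1152) (nat_lit 2147483648) (.ev (nat_lit 1172) (nat_lit
 268435456) (.ev (nat_lit 1181) (nat_lit 68719476736) .dd)))))) (.br (nat_lit 10) (.ch (nat_lit 8) (.ev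
 (nat_lit 1152) (nat_lit 70866960384) (.ev (nat_lit 1165) (nat_lit 268435456) .dd))) (.br (nat_lit 12) (.ch
 (nat_lit 10) (.ev (nat_lit 1152) (nat_lit 68987912192) (.ev (nat_lit 1165) (nat_lit 2147483648) .dd))) (.ch
 (nat_lit 12) (.ev (nat_lit 1172) (nat_lit 2147483648) (.fin (nat_lit 576489889530856013)))))))))) (.ch
 (nat_lit 16) (.ev (nat_lit 272) (nat_lit 5066620716189696) (.nd (nat_lit 1136) (.br (nat_lit 11) (.br (nat_lit
 9) (.br (nat_lit 5) (.ch (nat_lit 0) (.ev (nat_lit 1152) (nat_lit 512) (.ev (nat_lit 1165) (nat_lit 32) .dd)))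
 (.ch (nat_lit 5) (.ev (nat_lit 1152) (nat_lit 544) .dd))) (.br (nat_lit 10) (.ch (nat_lit 9) (.ev (nat_lit
 1152) (nat_lit 32) (.ev (nat_lit 1165) (nat_lit 512) .dd))) (.ch (nat_lit 10) (.ev (nat_lit 1152) (nat_lit
 512) (.ev (nat_lit 1165) (nat_lit 32) .dd))))) (.br (nat_lit 14) (.br (nat_lit 13) (.ch (nat_lit 11) (.ev
 (nat_lit 1152) (nat_lit 544) .dd)) (.ch (nat_lit 13) (.ev (nat_lit 1152) (nat_lit 32) (.ev (nat_lit 1165)
 (nat_lit 512) .dd)))) (.br (nat_lit 15) (.ch (nat_lit 14) (.ev (nat_lit 1152) (nat_lit 32) (.ev (nat_lit 1165)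
 (nat_lit 512) .dd))) (.br (nat_lit 16) (.ch (nat_lit 15) (.ev (nat_lit 1152) (nat_lit 544) .dd)) (.ch (nat_lit
 16) (.ev (nat_lit 1152) (nat_lit 544) .dd))))))))))))))))) (.br (nat_lit 7) (.ch (nat_lit 3) (.ev (nat_lit 48)
 (nat_lit 26940201243136) (.nd (nat_lit 96) (.br (nat_lit 6) (.br (nat_lit 4) (.br (nat_lit 3) (.ch (nat_lit 2)
 (.ev (nat_lit 112) (nat_lit 5139186067770368) (.ev (nat_lit 324) (nat_lit 268435456) (.nd (nat_lit 880) (.br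
 (nat_lit 9) (.br (nat_lit 4) (.ch (nat_lit 2) (.ev (nat_lit 896) (nat_lit 32) (.ev (nat_lit 909) (nat_lit
 131072) .dd))) (.br (nat_lit 8) (.ch (nat_lit 4) (.ev (nat_lit 896) (nat_lit 32) (.ev (nat_lit 909) (nat_lit
 131072) .dd))) (.ch (nat_lit 8) (.ev (nat_lit 1172) (nat_lit 32) (.ev (nat_lit 1181) (nat_lit 131072) .dd)))))
 (.br (nat_lit 10) (.ch (nat_lit 9) (.ev (nat_lit 896) (nat_lit 131072) (.ev (nat_lit 909) (nat_lit 32) .dd)))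
 (.br (nat_lit 13) (.ch (nat_lit 10) (.ev (nat_lit 896) (nat_lit 32) (.ev (nat_lit 909) (nat_lit 131072) .dd)))
 (.ch (nat_lit 13) (.fin (nat_lit 576404127440388666)))))))))) (.ch (nat_lit 3) (.ev (nat_lit 112) (nat_lit
 2199023257632) (.nd (nat_lit 512) (.br (nat_lit 8) (.br (nat_lit 5) (.br (nat_lit 4) (.ch (nat_lit 1) (.ev
 (nat_lit 528) (nat_lit 633318697600000) (.ev (nat_lit 1092) (nat_lit 68719476736) (.ev (nat_lit 1172) (nat_lit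
 4503599627370496) (.ev (nat_lit 1204) (nat_lit 65536) (.ev (nat_lit 1444) (nat_lit 268435456) (.ev (nat_lit
 1453) (nat_lit 131072) .dd))))))) (.ch (nat_lit 4) (.ev (nat_lit 528) (nat_lit 5136918593537024) (.nd (nat_lit
 3232) (.br (nat_lit 11) (.ch (nat_lit 8) (.ev (nat_lit 3248) (nat_lit 68719476736) (.ev (nat_lit 3261)
 (nat_lit 65536) .dd))) (.br (nat_lit 15) (.ch (nat_lit 11) (.ev (nat_lit 3248) (nat_lit 68719476736) (.ev
 (nat_lit 3261) (nat_lit 65536) .dd))) (.ch (nat_lit 15) (.ev (nat_lit 3392) (nat_lit 68719542272) .dd))))))))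
 (.br (nat_lit 6) (.ch (nat_lit 5) (.ev (nat_lit 528) (nat_lit 5136918325167104) (.ev (nat_lit 548) (nat_lit
 68719476736) (.ev (nat_lit 557) (nat_lit 268435456) .dd)))) (.ch (nat_lit 6) (.ev (nat_lit 528) (nat_lit
 563018941399040) (.ev (nat_lit 1028) (nat_lit 70368744177664) (.ev (nat_lit 1172) (nat_lit 4503599627370496)
 (.ev (nat_lit 1412) (nat_lit 1024) (.ev (nat_lit 1421) (nat_lit 131072) .dd)))))))) (.br (nat_lit 11) (.br
 (nat_lit 10) (.ch (nat_lit 8) (.ev (nat_lit 528) (nat_lit 5136987044642816) (.ev (nat_lit 1412) (nat_lit 1024)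
 (.ev (nat_lit 1421) (nat_lit 268435456) .dd)))) (.ch (nat_lit 10) (.ev (nat_lit 528) (nat_lit
 4503599896002560) (.ev (nat_lit 1412) (nat_lit 1024) (.nd (nat_lit 3120) (.br (nat_lit 5) (.br (nat_lit 4)
 (.ch (nat_lit 2) (.ev (nat_lit 3136) (nat_lit 70368744177664) (.fin (nat_lit 576786757764727273)))) (.ch
 (nat_lit 4) (.ev (nat_lit 3136) (nat_lit 68719476736) (.ev (nat_lit 3280) (nat_lit 562949953421312) (.ev
 (nat_lit 3293) (nat_lit 70368744177664) .dd))))) (.br (nat_lit 7) (.ch (nat_lit 5) (.ev (nat_lit 3136)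
 (nat_lit 562949953421312) (.fin (nat_lit 576375540180009410)))) (.br (nat_lit 13) (.ch (nat_lit 7) (.ev
 (nat_lit 3136) (nat_lit 563018672898048) (.ev (nat_lit 3149) (nat_lit 70368744177664) .dd))) (.ch (nat_lit 13)
 (.ev (nat_lit 3136) (nat_lit 633387417075712) .dd)))))))))) (.br (nat_lit 12) (.ch (nat_lit 11) (.ev (nat_lit
 528) (nat_lit 5136918593404928) (.ev (nat_lit 1412) (nat_lit 1024) (.nd (nat_lit 3120) (.br (nat_lit 4) (.ch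
 (nat_lit 1) (.ev (nat_lit 3136) (nat_lit 65536) (.ev (nat_lit 3872) (nat_lit 68719607808) .dd))) (.br (nat_lit
 6) (.ch (nat_lit 4) (.ev (nat_lit 3892) (nat_lit 68719476736) (.nd (nat_lit 5856) (.br (nat_lit 4) (.ch
 (nat_lit 0) (.fin (nat_lit 576461302051324490))) (.ch (nat_lit 4) (.ev (nat_lit 5872) (nat_lit 196608)
 .dd)))))) (.ch (nat_lit 6) (.ev (nat_lit 3136) (nat_lit 196608) (.ev (nat_lit 3149) (nat_lit 68719476736)
 .dd))))))))) (.br (nat_lit 16) (.ch (nat_lit 12) (.ev (nat_lit 528) (nat_lit 4503668346848256) (.ev (nat_lit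
 1028) (nat_lit 562949953421312) (.ev (nat_lit 1236) (nat_lit 131072) (.ev (nat_lit 2292) (nat_lit 65536) (.nd
 (nat_lit 4224) (.ch (nat_lit 3) (.nd (nat_lit 5600) (.br (nat_lit 10) (.ch (nat_lit 2) (.fin (nat_lit
 576226006152987193))) (.ch (nat_lit 10) (.ev (nat_lit 5616) (nat_lit 268435456) (.ev (nat_lit 5629) (nat_lit
 70368744177664) .dd)))))))))))) (.ch (nat_lit 16) (.ev (nat_lit 528) (nat_lit 633387685511168) (.ev (nat_lit
 1412) (nat_lit 1024) (.ev (nat_lit 1764) (nat_lit 131072) (.ev (nat_lit 3380) (nat_lit 65536) (.ev (nat_lit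
 3389) (nat_lit 4503599627370496) .dd)))))))))))))) (.br (nat_lit 5) (.ch (nat_lit 4) (.ev (nat_lit 112)
 (nat_lit 563018941336576) (.nd (nat_lit 560) (.br (nat_lit 8) (.br (nat_lit 3) (.br (nat_lit 2) (.ch (nat_lit
 0) (.ev (nat_lit 576) (nat_lit 2199023452192) (.nd (nat_lit 3232) (.br (nat_lit 15) (.ch (nat_lit 13) (.fin
 (nat_lit 576461302012527187))) (.ch (nat_lit 15) (.ev (nat_lit 3248) (nat_lit 4503599627370496) (.ev (nat_lit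
 3261) (nat_lit 70368744177664) .dd))))))) (.ch (nat_lit 2) (.ev (nat_lit 576) (nat_lit 4576167394934784) (.ev
 (nat_lit 644) (nat_lit 65536) (.ev (nat_lit 653) (nat_lit 32) .dd))))) (.br (nat_lit 5) (.ch (nat_lit 3) (.ev
 (nat_lit 576) (nat_lit 70368744374304) (.nd (nat_lit 3232) (.br (nat_lit 10) (.ch (nat_lit 4) (.ev (nat_lit
 3248) (nat_lit 2199023255552) (.ev (nat_lit 3261) (nat_lit 4503599627370496) .dd))) (.br (nat_lit 14) (.ch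
 (nat_lit 10) (.ev (nat_lit 3620) (nat_lit 4503599627370496) (.ev (nat_lit 3629) (nat_lit 2199023255552) .dd)))
 (.ch (nat_lit 14) (.ev (nat_lit 3248) (nat_lit 2199023255552) (.ev (nat_lit 3261) (nat_lit 4503599627370496)
 .dd)))))))) (.ch (nat_lit 5) (.ev (nat_lit 576) (nat_lit 70368744177696) (.ev (nat_lit 644) (nat_lit
 2199023255552) (.ev (nat_lit 1492) (nat_lit 131072) (.ev (nat_lit 2788) (nat_lit 4503599627370496) (.ev
 (nat_lit 2797) (nat_lit 65536) .dd)))))))) (.br (nat_lit 14) (.br (nat_lit 13) (.ch (nat_lit 8) (.ev (nat_lit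
 576) (nat_lit 4573968371744768) (.ev (nat_lit 1764) (nat_lit 32) (.ev (nat_lit 1773) (nat_lit 2199023255552)
 .dd)))) (.ch (nat_lit 13) (.ev (nat_lit 576) (nat_lit 70368744177696) (.nd (nat_lit 2496) (.br (nat_lit 14)
 (.br (nat_lit 9) (.ch (nat_lit 4) (.ev (nat_lit 2512) (nat_lit 4505798650691584) (.ev (nat_lit 2525) (nat_lit
 131072) .dd))) (.ch (nat_lit 9) (.ev (nat_lit 2512) (nat_lit 131072) (.ev (nat_lit 2528) (nat_lit 65536) (.ev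
 (nat_lit 2608) (nat_lit 4505798650626048) .dd))))) (.br (nat_lit 16) (.ch (nat_lit 14) (.ev (nat_lit 2512)
 (nat_lit 2199023255552) (.ev (nat_lit 2628) (nat_lit 4503599627370496) (.ev (nat_lit 3344) (nat_lit 65536)
 (.ev (nat_lit 3357) (nat_lit 131072) .dd))))) (.ch (nat_lit 16) (.ev (nat_lit 2512) (nat_lit 131072) (.ev
 (nat_lit 3920) (nat_lit 65536) (.fin (nat_lit 576463500989645425))))))))))) (.br (nat_lit 15) (.ch (nat_lit
 14) (.ev (nat_lit 576) (nat_lit 2199023255584) (.nd (nat_lit 2496) (.br (nat_lit 8) (.br (nat_lit 6) (.ch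
 (nat_lit 1) (.ev (nat_lit 2512) (nat_lit 70368744243200) (.ev (nat_lit 3268) (nat_lit 131072) (.ev (nat_lit
 3277) (nat_lit 4503599627370496) .dd)))) (.br (nat_lit 7) (.ch (nat_lit 6) (.ev (nat_lit 2512) (nat_lit
 4573968371548160) (.ev (nat_lit 3828) (nat_lit 131072) (.ev (nat_lit 3837) (nat_lit 65536) .dd)))) (.ch
 (nat_lit 7) (.ev (nat_lit 2512) (nat_lit 70368744308736) (.ev (nat_lit 3620) (nat_lit 4503599627370496) (.ev
 (nat_lit 3629) (nat_lit 65536) .dd)))))) (.br (nat_lit 13) (.ch (nat_lit 8) (.ev (nat_lit 2788) (nat_lit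
 70368744177664) (.ev (nat_lit 2800) (nat_lit 65536) (.ev (nat_lit 3172) (nat_lit 4503599627370496) (.ev
 (nat_lit 3181) (nat_lit 131072) .dd))))) (.br (nat_lit 16) (.ch (nat_lit 13) (.ev (nat_lit 2512) (nat_lit
 4573968371613696) (.ev (nat_lit 2525) (nat_lit 131072) .dd))) (.ch (nat_lit 16) (.ev (nat_lit 2512) (nat_lit
 4573968371679232) (.ev (nat_lit 2525) (nat_lit 65536) .dd))))))))) (.br (nat_lit 16) (.ch (nat_lit 15) (.ev
 (nat_lit 576) (nat_lit 4576167394803712) (.ev (nat_lit 1268) (nat_lit 65536) (.ev (nat_lit 1412) (nat_lit 32)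
 (.ev (nat_lit 1421) (nat_lit 131072) .dd))))) (.ch (nat_lit 16) (.ev (nat_lit 576) (nat_lit 4503599627436064)
 (.ev (nat_lit 3620) (nat_lit 70368744177664) (.fin (nat_lit 576504183014244945)))))))))))) (.ch (nat_lit 5)
 (.ev (nat_lit 112) (nat_lit 5139117616857088) (.nd (nat_lit 800) (.br (nat_lit 6) (.br (nat_lit 3) (.br
 (nat_lit 2) (.ch (nat_lit 0) (.ev (nat_lit 816) (nat_lit 68719476736) (.ev (nat_lit 836) (nat_lit 2048) (.ev
 (nat_lit 1172) (nat_lit 32) (.ev (nat_lit 1181) (nat_lit 1024) .dd))))) (.ch (nat_lit 2) (.ev (nat_lit 816)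
 (nat_lit 68719479808) (.ev (nat_lit 829) (nat_lit 32) .dd)))) (.br (nat_lit 4) (.ch (nat_lit 3) (.ev (nat_lit
 816) (nat_lit 32) (.ev (nat_lit 836) (nat_lit 68719476736) (.ev (nat_lit 3060) (nat_lit 1024) (.ev (nat_lit
 3069) (nat_lit 2048) .dd))))) (.ch (nat_lit 4) (.ev (nat_lit 816) (nat_lit 68719477760) (.ev (nat_lit 1204)
 (nat_lit 32) (.ev (nat_lit 1213) (nat_lit 2048) .dd)))))) (.br (nat_lit 15) (.br (nat_lit 11) (.ch (nat_lit 6)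
 (.ev (nat_lit 816) (nat_lit 32) (.ev (nat_lit 1236) (nat_lit 1024) (.ev (nat_lit 1268) (nat_lit 2048) (.ev
 (nat_lit 1277) (nat_lit 68719476736) .dd))))) (.ch (nat_lit 11) (.ev (nat_lit 816) (nat_lit 68719477792) (.ev
 (nat_lit 829) (nat_lit 2048) .dd)))) (.br (nat_lit 16) (.ch (nat_lit 15) (.ev (nat_lit 816) (nat_lit
 68719478784) (.ev (nat_lit 1204) (nat_lit 32) (.ev (nat_lit 1213) (nat_lit 1024) .dd)))) (.ch (nat_lit 16)
 (.ev (nat_lit 816) (nat_lit 68719478784) (.ev (nat_lit 1940) (nat_lit 1024) (.ev (nat_lit 1949) (nat_lit 32)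
 .dd)))))))))))) (.br (nat_lit 12) (.br (nat_lit 7) (.ch (nat_lit 6) (.ev (nat_lit 112) (nat_lit
 565217964788768) (.nd (nat_lit 880) (.br (nat_lit 10) (.br (nat_lit 7) (.ch (nat_lit 6) (.ev (nat_lit 896)
 (nat_lit 4503599627370496) (.ev (nat_lit 909) (nat_lit 70368744177664) .dd))) (.br (nat_lit 8) (.ch (nat_lit
 7) (.ev (nat_lit 1060) (nat_lit 4503599627370496) (.ev (nat_lit 1069) (nat_lit 70368744177664) .dd))) (.ch
 (nat_lit 8) (.ev (nat_lit 896) (nat_lit 70368744177664) (.ev (nat_lit 909) (nat_lit 4503599627370496) .dd)))))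
 (.br (nat_lit 13) (.ch (nat_lit 10) (.ev (nat_lit 916) (nat_lit 70368744177664) (.ev (nat_lit 925) (nat_lit
 4503599627370496) .dd))) (.br (nat_lit 14) (.ch (nat_lit 13) (.ev (nat_lit 896) (nat_lit 4503599627370496)
 (.ev (nat_lit 909) (nat_lit 70368744177664) .dd))) (.ch (nat_lit 14) (.ev (nat_lit 896) (nat_lit
 4503599627370496) (.ev (nat_lit 909) (nat_lit 70368744177664) .dd))))))))) (.ch (nat_lit 7) (.ev (nat_lit 112)
 (nat_lit 4505867370301472) (.nd (nat_lit 880) (.br (nat_lit 4) (.br (nat_lit 2) (.ch (nat_lit 0) (.ev (nat_lit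
 896) (nat_lit 70368744177664) (.ev (nat_lit 1700) (nat_lit 562949953422336) (.ev (nat_lit 1709) (nat_lit
 268435456) .dd)))) (.br (nat_lit 3) (.ch (nat_lit 2) (.ev (nat_lit 896) (nat_lit 562949953422336) (.ev
 (nat_lit 1492) (nat_lit 268435456) (.ev (nat_lit 1501) (nat_lit 70368744177664) .dd)))) (.ch (nat_lit 3) (.ev
 (nat_lit 896) (nat_lit 70368744178688) (.ev (nat_lit 916) (nat_lit 562949953421312) (.ev (nat_lit 925)
 (nat_lit 268435456) .dd)))))) (.br (nat_lit 12) (.br (nat_lit 8) (.ch (nat_lit 4) (.ev (nat_lit 896) (nat_lit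
 268436480) (.ev (nat_lit 1616) (nat_lit 633318697598976) .dd))) (.ch (nat_lit 8) (.ev (nat_lit 896) (nat_lit
 562950221856768) (.ev (nat_lit 1412) (nat_lit 1024) (.ev (nat_lit 1421) (nat_lit 70368744177664) .dd))))) (.br
 (nat_lit 14) (.ch (nat_lit 12) (.ev (nat_lit 896) (nat_lit 268436480) (.ev (nat_lit 916) (nat_lit
 562949953421312) (.ev (nat_lit 925) (nat_lit 70368744177664) .dd)))) (.ch (nat_lit 14) (.ev (nat_lit 896)
 (nat_lit 562950221856768) (.ev (nat_lit 1072) (nat_lit 70368744177664) (.ev (nat_lit 1085) (nat_lit 1024)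
 .dd))))))))))) (.br (nat_lit 14) (.ch (nat_lit 12) (.ev (nat_lit 112) (nat_lit 70437732155392) (.ev (nat_lit
 500) (nat_lit 1024) (.nd (nat_lit 608) (.br (nat_lit 8) (.br (nat_lit 4) (.br (nat_lit 3) (.ch (nat_lit 1)
 (.ev (nat_lit 624) (nat_lit 5068748604178464) (.ev (nat_lit 637) (nat_lit 2048) .dd))) (.ch (nat_lit 3) (.ev
 (nat_lit 624) (nat_lit 5068748604178464) (.ev (nat_lit 637) (nat_lit 2048) .dd)))) (.br (nat_lit 6) (.ch
 (nat_lit 4) (.ev (nat_lit 624) (nat_lit 5066549580922880) (.ev (nat_lit 1172) (nat_lit 32) (.ev (nat_lit 1876)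
 (nat_lit 2199023255552) (.ev (nat_lit 1885) (nat_lit 2048) .dd))))) (.ch (nat_lit 6) (.ev (nat_lit 624)
 (nat_lit 562949953554432) (.ev (nat_lit 1008) (nat_lit 2199023255552) (.ev (nat_lit 1204) (nat_lit 32) (.ev
 (nat_lit 1213) (nat_lit 4503599627370496) .dd))))))) (.br (nat_lit 11) (.br (nat_lit 10) (.ch (nat_lit 8) (.ev
 (nat_lit 624) (nat_lit 565148976676896) (.nd (nat_lit 3120) (.br (nat_lit 8) (.br (nat_lit 2) (.ch (nat_lit 0)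
 (.ev (nat_lit 3136) (nat_lit 4503599627370496) (.ev (nat_lit 3732) (nat_lit 131072) (.ev (nat_lit 3741)
 (nat_lit 2048) .dd)))) (.ch (nat_lit 2) (.ev (nat_lit 3136) (nat_lit 4503599627501568) (.ev (nat_lit 3149)
 (nat_lit 2048) .dd)))) (.br (nat_lit 9) (.ch (nat_lit 8) (.ev (nat_lit 3136) (nat_lit 2048) (.ev (nat_lit
 3472) (nat_lit 4503599627501568) .dd))) (.br (nat_lit 10) (.ch (nat_lit 9) (.ev (nat_lit 3136) (nat_lit
 4503599627372544) (.ev (nat_lit 3149) (nat_lit 131072) .dd))) (.ch (nat_lit 10) (.ev (nat_lit 3136) (nat_lit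
 131072) (.ev (nat_lit 3744) (nat_lit 4503599627372544) .dd))))))))) (.ch (nat_lit 10) (.ev (nat_lit 624)
 (nat_lit 4503599627503616) (.ev (nat_lit 1204) (nat_lit 2199023255552) (.ev (nat_lit 2100) (nat_lit 32) (.ev
 (nat_lit 2109) (nat_lit 562949953421312) .dd)))))) (.br (nat_lit 12) (.ch (nat_lit 11) (.ev (nat_lit 624)
 (nat_lit 2199023257600) (.ev (nat_lit 2100) (nat_lit 32) (.ev (nat_lit 2292) (nat_lit 562949953421312) (.nd
 (nat_lit 4416) (.br (nat_lit 2) (.ch (nat_lit 0) (.ev (nat_lit 4432) (nat_lit 131072) (.ev (nat_lit 4445)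
 (nat_lit 4503599627370496) .dd))) (.br (nat_lit 14) (.ch (nat_lit 2) (.ev (nat_lit 4432) (nat_lit
 4503599627501568) .dd)) (.ch (nat_lit 14) (.fin (nat_lit 576518476737757706)))))))))) (.br (nat_lit 16) (.ch
 (nat_lit 12) (.ev (nat_lit 624) (nat_lit 565148976676896) (.ev (nat_lit 788) (nat_lit 4503599627370496) (.ev
 (nat_lit 3632) (nat_lit 2048) (.ev (nat_lit 3645) (nat_lit 131072) .dd))))) (.ch (nat_lit 16) (.ev (nat_lit
 624) (nat_lit 2199023388672) (.ev (nat_lit 1172) (nat_lit 32) (.ev (nat_lit 3312) (nat_lit 562949953421312)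
 (.ev (nat_lit 3325) (nat_lit 4503599627370496) .dd))))))))))))) (.br (nat_lit 15) (.ch (nat_lit 14) (.ev
 (nat_lit 112) (nat_lit 635586440462336) (.nd (nat_lit 512) (.br (nat_lit 8) (.br (nat_lit 5) (.br (nat_lit 3)
 (.ch (nat_lit 1) (.ev (nat_lit 528) (nat_lit 4503599895808032) (.nd (nat_lit 4192) (.ch (nat_lit 9) (.nd
 (nat_lit 5376) (.br (nat_lit 8) (.ch (nat_lit 7) (.ev (nat_lit 5392) (nat_lit 65536) (.ev (nat_lit 5405)
 (nat_lit 1024) .dd))) (.ch (nat_lit 8) (.fin (nat_lit 576764767327699678))))))))) (.ch (nat_lit 3) (.ev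
 (nat_lit 528) (nat_lit 4503599627437088) (.ev (nat_lit 1028) (nat_lit 268435456) (.ev (nat_lit 1037) (nat_lit
 2048) .dd))))) (.br (nat_lit 6) (.ch (nat_lit 5) (.ev (nat_lit 528) (nat_lit 268503072) (.ev (nat_lit 596)
 (nat_lit 4503599627370496) (.ev (nat_lit 605) (nat_lit 1024) .dd)))) (.ch (nat_lit 6) (.ev (nat_lit 528)
 (nat_lit 268435488) (.nd (nat_lit 2496) (.br (nat_lit 11) (.br (nat_lit 4) (.ch (nat_lit 0) (.ev (nat_lit
 2512) (nat_lit 4503599627371520) (.fin (nat_lit 576468998663127624)))) (.ch (nat_lit 4) (.ev (nat_lit 2512)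
 (nat_lit 4503599627372544) (.ev (nat_lit 3204) (nat_lit 65536) (.ev (nat_lit 3213) (nat_lit 1024) .dd)))))
 (.br (nat_lit 15) (.ch (nat_lit 11) (.ev (nat_lit 2512) (nat_lit 65536) (.ev (nat_lit 4084) (nat_lit 2048)
 (.nd (nat_lit 5472) (.br (nat_lit 15) (.ch (nat_lit 2) (.ev (nat_lit 5488) (nat_lit 1024) (.ev (nat_lit 5501)
 (nat_lit 4503599627370496) .dd))) (.ch (nat_lit 15) (.fin (nat_lit 576709791961269363)))))))) (.ch (nat_lit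
 15) (.ev (nat_lit 2512) (nat_lit 65536) (.ev (nat_lit 2628) (nat_lit 4503599627370496) (.ev (nat_lit 3792)
 (nat_lit 3072) .dd))))))))))) (.br (nat_lit 12) (.br (nat_lit 9) (.ch (nat_lit 8) (.ev (nat_lit 528) (nat_lit
 4503599627371520) (.ev (nat_lit 1028) (nat_lit 268435456) (.ev (nat_lit 1412) (nat_lit 32) (.ev (nat_lit 1492)
 (nat_lit 65536) (.ev (nat_lit 1501) (nat_lit 2048) .dd)))))) (.ch (nat_lit 9) (.ev (nat_lit 528) (nat_lit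
 268436480) (.ev (nat_lit 1412) (nat_lit 32) (.ev (nat_lit 3732) (nat_lit 65536) (.ev (nat_lit 3828) (nat_lit
 2048) (.ev (nat_lit 3837) (nat_lit 4503599627370496) .dd))))))) (.br (nat_lit 15) (.ch (nat_lit 12) (.ev
 (nat_lit 528) (nat_lit 4503599627372576) (.ev (nat_lit 1060) (nat_lit 268435456) (.ev (nat_lit 1204) (nat_lit
 1024) (.ev (nat_lit 1213) (nat_lit 65536) .dd))))) (.br (nat_lit 16) (.ch (nat_lit 15) (.ev (nat_lit 528)
 (nat_lit 68640) (.ev (nat_lit 1392) (nat_lit 4503599895805952) .dd))) (.ch (nat_lit 16) (.ev (nat_lit 528)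
 (nat_lit 268501024) (.ev (nat_lit 1204) (nat_lit 1024) (.ev (nat_lit 3460) (nat_lit 4503599627370496) (.ev
 (nat_lit 3469) (nat_lit 2048) .dd)))))))))))) (.ch (nat_lit 15) (.ev (nat_lit 112) (nat_lit 5066549849295904)
 (.nd (nat_lit 560) (.br (nat_lit 9) (.br (nat_lit 2) (.br (nat_lit 1) (.ch (nat_lit 0) (.ev (nat_lit 576)
 (nat_lit 131072) (.ev (nat_lit 1172) (nat_lit 70368744177664) (.nd (nat_lit 4272) (.br (nat_lit 11) (.ch
 (nat_lit 9) (.fin (nat_lit 576470098150638136))) (.ch (nat_lit 11) (.ev (nat_lit 4288) (nat_lit 68719476736)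
 (.ev (nat_lit 4301) (nat_lit 2199023255552) .dd)))))))) (.ch (nat_lit 1) (.ev (nat_lit 576) (nat_lit
 70368744177664) (.nd (nat_lit 2560) (.br (nat_lit 9) (.ch (nat_lit 1) (.ev (nat_lit 2576) (nat_lit 131072)
 (.ev (nat_lit 3504) (nat_lit 2267742732288) .dd))) (.br (nat_lit 15) (.ch (nat_lit 9) (.ev (nat_lit 2576)
 (nat_lit 2199023255552) (.ev (nat_lit 3216) (nat_lit 68719476736) (.ev (nat_lit 3229) (nat_lit 131072) .dd))))
 (.ch (nat_lit 15) (.ev (nat_lit 2576) (nat_lit 131072) (.ev (nat_lit 2800) (nat_lit 2199023255552) (.ev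
 (nat_lit 2813) (nat_lit 68719476736) .dd)))))))))) (.br (nat_lit 3) (.ch (nat_lit 2) (.ev (nat_lit 576)
 (nat_lit 2199023386624) (.ev (nat_lit 2240) (nat_lit 70368744177664) (.ev (nat_lit 2253) (nat_lit 68719476736)
 .dd)))) (.ch (nat_lit 3) (.ev (nat_lit 576) (nat_lit 70437463785472) (.ev (nat_lit 589) (nat_lit
 2199023255552) .dd))))) (.br (nat_lit 12) (.br (nat_lit 11) (.ch (nat_lit 9) (.ev (nat_lit 576) (nat_lit
 72636486909952) (.ev (nat_lit 589) (nat_lit 131072) .dd))) (.ch (nat_lit 11) (.ev (nat_lit 576) (nat_lit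
 72567767564288) (.ev (nat_lit 589) (nat_lit 68719476736) .dd)))) (.br (nat_lit 16) (.ch (nat_lit 12) (.ev
 (nat_lit 1236) (nat_lit 2199023255552) (.ev (nat_lit 1876) (nat_lit 70368744177664) (.nd (nat_lit 4640) (.br
 (nat_lit 13) (.ch (nat_lit 1) (.fin (nat_lit 576375540219855320))) (.ch (nat_lit 13) (.ev (nat_lit 4656)
 (nat_lit 68719607808) .dd))))))) (.ch (nat_lit 16) (.ev (nat_lit 576) (nat_lit 72636487041024)
 .dd))))))))))))))) (.ch (nat_lit 7) (.ev (nat_lit 48) (nat_lit 4576788286148128) (.nd (nat_lit 384) (.br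
 (nat_lit 8) (.br (nat_lit 5) (.br (nat_lit 3) (.ch (nat_lit 2) (.ev (nat_lit 400) (nat_lit 580542139465728)
 (.nd (nat_lit 736) (.br (nat_lit 9) (.br (nat_lit 4) (.br (nat_lit 3) (.ch (nat_lit 1) (.ev (nat_lit 752)
 (nat_lit 8796093091840) (.ev (nat_lit 2660) (nat_lit 16777216) (.ev (nat_lit 2669) (nat_lit 2097152) .dd))))
 (.ch (nat_lit 3) (.ev (nat_lit 752) (nat_lit 2162688) (.ev (nat_lit 1216) (nat_lit 4096) (.ev (nat_lit 3988)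
 (nat_lit 16777216) (.ev (nat_lit 3997) (nat_lit 8796093022208) .dd)))))) (.br (nat_lit 7) (.ch (nat_lit 4)
 (.ev (nat_lit 752) (nat_lit 8796109864960) (.ev (nat_lit 3620) (nat_lit 2097152) (.ev (nat_lit 3629) (nat_lit
 4096) .dd)))) (.ch (nat_lit 7) (.ev (nat_lit 752) (nat_lit 8796111900672) (.ev (nat_lit 765) (nat_lit 65536)
 .dd))))) (.br (nat_lit 11) (.br (nat_lit 10) (.ch (nat_lit 9) (.ev (nat_lit 752) (nat_lit 2097152) (.nd
 (nat_lit 2560) (.br (nat_lit 12) (.br (nat_lit 11) (.ch (nat_lit 7) (.ev (nat_lit 2576) (nat_lit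
 8796109864960) (.ev (nat_lit 2589) (nat_lit 4096) .dd))) (.ch (nat_lit 11) (.ev (nat_lit 2576) (nat_lit
 8796093022208) (.ev (nat_lit 4308) (nat_lit 16777216) (.nd (nat_lit 5760) (.br (nat_lit 14) (.ch (nat_lit 3)
 (.ev (nat_lit 5776) (nat_lit 65536) (.ev (nat_lit 5789) (nat_lit 4096) .dd))) (.ch (nat_lit 14) (.fin (nat_lit
 576685602584871750))))))))) (.br (nat_lit 16) (.ch (nat_lit 12) (.ev (nat_lit 2576) (nat_lit 69632) (.fin
 (nat_lit 576544864880509602)))) (.ch (nat_lit 16) (.ev (nat_lit 2576) (nat_lit 69632) (.ev (nat_lit 3344)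
 (nat_lit 8796109799424) .dd)))))))) (.ch (nat_lit 10) (.ev (nat_lit 752) (nat_lit 8796093091840) (.ev (nat_lit
 1924) (nat_lit 2097152) (.ev (nat_lit 1933) (nat_lit 16777216) .dd))))) (.br (nat_lit 12) (.ch (nat_lit 11)
 (.ev (nat_lit 752) (nat_lit 18874368) (.nd (nat_lit 2560) (.br (nat_lit 15) (.br (nat_lit 14) (.ch (nat_lit 8)
 (.ev (nat_lit 2576) (nat_lit 8796093087744) (.ev (nat_lit 2589) (nat_lit 4096) .dd))) (.ch (nat_lit 14) (.ev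
 (nat_lit 2576) (nat_lit 4096) (.ev (nat_lit 2788) (nat_lit 8796093022208) (.ev (nat_lit 2797) (nat_lit 65536)
 .dd))))) (.br (nat_lit 16) (.ch (nat_lit 15) (.ev (nat_lit 2788) (nat_lit 8796093022208) (.ev (nat_lit 3620)
 (nat_lit 4096) (.ev (nat_lit 3629) (nat_lit 65536) .dd)))) (.ch (nat_lit 16) (.ev (nat_lit 2576) (nat_lit
 4096) (.ev (nat_lit 2788) (nat_lit 8796093022208) (.ev (nat_lit 2797) (nat_lit 65536) .dd))))))))) (.br
 (nat_lit 13) (.ch (nat_lit 12) (.ev (nat_lit 752) (nat_lit 8796111900672) (.ev (nat_lit 765) (nat_lit 65536)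
 .dd))) (.ch (nat_lit 13) (.ev (nat_lit 752) (nat_lit 8796095119360) (.ev (nat_lit 3828) (nat_lit 69632) (.ev
 (nat_lit 3837) (nat_lit 16777216) .dd))))))))))) (.ch (nat_lit 3) (.ev (nat_lit 400) (nat_lit 17592202821632)
 (.nd (nat_lit 800) (.br (nat_lit 9) (.br (nat_lit 4) (.br (nat_lit 2) (.ch (nat_lit 1) (.ev (nat_lit 816)
 (nat_lit 571746046509056) (.ev (nat_lit 3408) (nat_lit 2097152) (.ev (nat_lit 3421) (nat_lit 4096) .dd))))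
 (.ch (nat_lit 2) (.ev (nat_lit 816) (nat_lit 2101248) (.ev (nat_lit 916) (nat_lit 571746046443520) (.ev
 (nat_lit 925) (nat_lit 65536) .dd))))) (.br (nat_lit 8) (.ch (nat_lit 4) (.ev (nat_lit 816) (nat_lit
 562949955588096) (.ev (nat_lit 829) (nat_lit 8796093022208) .dd))) (.ch (nat_lit 8) (.ev (nat_lit 816)
 (nat_lit 2101248) (.nd (nat_lit 3120) (.br (nat_lit 6) (.ch (nat_lit 2) (.ev (nat_lit 3136) (nat_lit 65536)
 (.ev (nat_lit 3460) (nat_lit 8796093022208) (.ev (nat_lit 3469) (nat_lit 562949953421312) .dd)))) (.ch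
 (nat_lit 6) (.ev (nat_lit 3136) (nat_lit 562949953421312) (.ev (nat_lit 3460) (nat_lit 8796093022208) (.ev
 (nat_lit 3469) (nat_lit 65536) .dd)))))))))) (.br (nat_lit 15) (.br (nat_lit 12) (.ch (nat_lit 9) (.ev
 (nat_lit 816) (nat_lit 8796095184896) (.ev (nat_lit 948) (nat_lit 562949953421312) (.ev (nat_lit 957) (nat_lit
 4096) .dd)))) (.ch (nat_lit 12) (.ev (nat_lit 816) (nat_lit 562949953425408) (.ev (nat_lit 2240) (nat_lit
 2097152) (.fin (nat_lit 576443709840114322)))))) (.br (nat_lit 16) (.ch (nat_lit 15) (.ev (nat_lit 816)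
 (nat_lit 562949955584000) (.ev (nat_lit 1028) (nat_lit 4096) (.ev (nat_lit 1037) (nat_lit 8796093022208)
 .dd)))) (.ch (nat_lit 16) (.ev (nat_lit 816) (nat_lit 8796093087744) (.ev (nat_lit 916) (nat_lit
 562949953421312) (.ev (nat_lit 1028) (nat_lit 4096) (.ev (nat_lit 1037) (nat_lit 2097152) .dd)))))))))))) (.br
 (nat_lit 6) (.ch (nat_lit 5) (.ev (nat_lit 400) (nat_lit 580542139469824) (.nd (nat_lit 880) (.br (nat_lit 9)
 (.br (nat_lit 6) (.br (nat_lit 5) (.ch (nat_lit 1) (.ev (nat_lit 896) (nat_lit 18939904) (.ev (nat_lit 909)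
 (nat_lit 8796093022208) .dd))) (.ch (nat_lit 5) (.ev (nat_lit 896) (nat_lit 2097152) (.ev (nat_lit 1028)
 (nat_lit 8796093022208) (.ev (nat_lit 1204) (nat_lit 65536) (.ev (nat_lit 1213) (nat_lit 16777216) .dd))))))
 (.br (nat_lit 7) (.ch (nat_lit 6) (.ev (nat_lit 896) (nat_lit 8796109864960) (.ev (nat_lit 909) (nat_lit
 2097152) .dd))) (.ch (nat_lit 7) (.ev (nat_lit 896) (nat_lit 8796093087744) (.ev (nat_lit 1300) (nat_lit
 2097152) (.ev (nat_lit 1309) (nat_lit 16777216) .dd)))))) (.br (nat_lit 11) (.br (nat_lit 10) (.ch (nat_lit 9)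
 (.ev (nat_lit 896) (nat_lit 18874368) (.ev (nat_lit 1172) (nat_lit 65536) (.ev (nat_lit 1181) (nat_lit
 8796093022208) .dd)))) (.ch (nat_lit 10) (.ev (nat_lit 896) (nat_lit 8796111896576) (.ev (nat_lit 909)
 (nat_lit 65536) .dd)))) (.br (nat_lit 12) (.ch (nat_lit 11) (.ev (nat_lit 896) (nat_lit 2162688) (.ev (nat_lit
 2788) (nat_lit 8796093022208) (.ev (nat_lit 2797) (nat_lit 16777216) .dd)))) (.br (nat_lit 13) (.ch (nat_lit
 12) (.ev (nat_lit 896) (nat_lit 8796109864960) (.ev (nat_lit 909) (nat_lit 2097152) .dd))) (.ch (nat_lit 13)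
 (.ev (nat_lit 896) (nat_lit 18939904) (.ev (nat_lit 909) (nat_lit 8796093022208) .dd)))))))))) (.ch (nat_lit
 6) (.ev (nat_lit 400) (nat_lit 8796095188992) (.nd (nat_lit 880) (.br (nat_lit 8) (.br (nat_lit 6) (.br
 (nat_lit 2) (.ch (nat_lit 0) (.ev (nat_lit 896) (nat_lit 562949970198528) (.ev (nat_lit 909) (nat_lit
 17592186044416) .dd))) (.ch (nat_lit 2) (.ev (nat_lit 896) (nat_lit 562949970198528) (.ev (nat_lit 909)
 (nat_lit 17592186044416) .dd)))) (.br (nat_lit 7) (.ch (nat_lit 6) (.ev (nat_lit 896) (nat_lit 17592202821632)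
 (.ev (nat_lit 909) (nat_lit 562949953421312) .dd))) (.ch (nat_lit 7) (.ev (nat_lit 896) (nat_lit
 580542156242944) .dd)))) (.br (nat_lit 12) (.br (nat_lit 11) (.ch (nat_lit 8) (.ev (nat_lit 1124) (nat_lit
 16777216) (.ev (nat_lit 1412) (nat_lit 562949953421312) (.ev (nat_lit 1421) (nat_lit 17592186044416) .dd))))
 (.ch (nat_lit 11) (.ev (nat_lit 896) (nat_lit 580542139465728) (.ev (nat_lit 909) (nat_lit 16777216) .dd))))
 (.br (nat_lit 15) (.ch (nat_lit 12) (.ev (nat_lit 1412) (nat_lit 562949953421312) (.ev (nat_lit 2948) (nat_lit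
 16777216) (.ev (nat_lit 2957) (nat_lit 17592186044416) .dd)))) (.br (nat_lit 16) (.ch (nat_lit 15) (.ev
 (nat_lit 896) (nat_lit 580542139465728) (.ev (nat_lit 909) (nat_lit 16777216) .dd))) (.ch (nat_lit 16) (.ev
 (nat_lit 896) (nat_lit 562949953421312) (.ev (nat_lit 3840) (nat_lit 17592186044416) (.ev (nat_lit 3853)
 (nat_lit 16777216) .dd))))))))))))) (.br (nat_lit 12) (.br (nat_lit 10) (.ch (nat_lit 8) (.ev (nat_lit 400)
 (nat_lit 589338251431936) .dd)) (.ch (nat_lit 10) (.ev (nat_lit 400) (nat_lit 580542156247040) (.nd (nat_lit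
 976) (.br (nat_lit 7) (.br (nat_lit 5) (.ch (nat_lit 2) (.ev (nat_lit 992) (nat_lit 8796093087744) (.ev
 (nat_lit 1005) (nat_lit 2097152) .dd))) (.br (nat_lit 6) (.ch (nat_lit 5) (.ev (nat_lit 992) (nat_lit
 8796095184896) .dd)) (.ch (nat_lit 6) (.ev (nat_lit 992) (nat_lit 65536) (.ev (nat_lit 1028) (nat_lit 2097152)
 (.ev (nat_lit 1037) (nat_lit 8796093022208) .dd)))))) (.br (nat_lit 12) (.br (nat_lit 8) (.ch (nat_lit 7) (.ev
 (nat_lit 2192) (nat_lit 2097152) (.ev (nat_lit 2308) (nat_lit 8796093022208) (.ev (nat_lit 2317) (nat_lit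
 65536) .dd)))) (.ch (nat_lit 8) (.ev (nat_lit 992) (nat_lit 8796093022208) (.ev (nat_lit 1504) (nat_lit
 2162688) .dd)))) (.br (nat_lit 14) (.ch (nat_lit 12) (.ev (nat_lit 992) (nat_lit 8796093087744) (.ev (nat_lit
 1005) (nat_lit 2097152) .dd))) (.ch (nat_lit 14) (.ev (nat_lit 992) (nat_lit 2162688) (.ev (nat_lit 1005)
 (nat_lit 8796093022208) .dd)))))))))) (.br (nat_lit 13) (.ch (nat_lit 12) (.ev (nat_lit 400) (nat_lit
 8796095119360) (.nd (nat_lit 736) (.br (nat_lit 8) (.br (nat_lit 4) (.br (nat_lit 3) (.ch (nat_lit 1) (.ev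
 (nat_lit 752) (nat_lit 17592186114048) (.nd (nat_lit 4384) (.br (nat_lit 14) (.ch (nat_lit 5) (.fin (nat_lit
 576448107919131189))) (.br (nat_lit 16) (.ch (nat_lit 14) (.ev (nat_lit 4400) (nat_lit 562949953421312) (.ev
 (nat_lit 4413) (nat_lit 16777216) .dd))) (.ch (nat_lit 16) (.ev (nat_lit 4400) (nat_lit 16777216) (.ev
 (nat_lit 4413) (nat_lit 562949953421312) .dd)))))))) (.ch (nat_lit 3) (.ev (nat_lit 752) (nat_lit
 580542139469824) (.ev (nat_lit 3732) (nat_lit 65536) (.ev (nat_lit 3741) (nat_lit 16777216) .dd))))) (.br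
 (nat_lit 5) (.ch (nat_lit 4) (.ev (nat_lit 752) (nat_lit 17592202821632) (.ev (nat_lit 788) (nat_lit
 562949953421312) (.ev (nat_lit 1456) (nat_lit 4096) (.ev (nat_lit 1469) (nat_lit 65536) .dd))))) (.ch (nat_lit
 5) (.ev (nat_lit 752) (nat_lit 562949970264064) (.ev (nat_lit 1028) (nat_lit 4096) (.ev (nat_lit 1037)
 (nat_lit 17592186044416) .dd)))))) (.br (nat_lit 14) (.br (nat_lit 10) (.ch (nat_lit 8) (.ev (nat_lit 752)
 (nat_lit 16781312) (.ev (nat_lit 772) (nat_lit 17592186044416) (.ev (nat_lit 1028) (nat_lit 65536) (.ev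
 (nat_lit 1037) (nat_lit 562949953421312) .dd))))) (.ch (nat_lit 10) (.ev (nat_lit 752) (nat_lit
 562949953425408) (.ev (nat_lit 2820) (nat_lit 17592186044416) (.ev (nat_lit 3744) (nat_lit 16777216) (.ev
 (nat_lit 3757) (nat_lit 65536) .dd)))))) (.br (nat_lit 15) (.ch (nat_lit 14) (.ev (nat_lit 752) (nat_lit
 16846848) (.ev (nat_lit 1184) (nat_lit 580542139465728) .dd))) (.br (nat_lit 16) (.ch (nat_lit 15) (.ev
 (nat_lit 752) (nat_lit 562949953425408) (.nd (nat_lit 2560) (.br (nat_lit 9) (.br (nat_lit 5) (.ch (nat_lit 4)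
 (.ev (nat_lit 2576) (nat_lit 16842752) (.ev (nat_lit 2589) (nat_lit 17592186044416) .dd))) (.ch (nat_lit 5)
 (.ev (nat_lit 2800) (nat_lit 16777216) (.ev (nat_lit 3344) (nat_lit 17592186109952) .dd)))) (.br (nat_lit 12)
 (.ch (nat_lit 9) (.ev (nat_lit 2576) (nat_lit 17592202821632) (.ev (nat_lit 2589) (nat_lit 65536) .dd))) (.ch
 (nat_lit 12) (.ev (nat_lit 3620) (nat_lit 17592186044416) (.ev (nat_lit 3828) (nat_lit 65536) (.ev (nat_lit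
 3837) (nat_lit 16777216) .dd))))))))) (.ch (nat_lit 16) (.ev (nat_lit 752) (nat_lit 580542139531264) (.ev
 (nat_lit 772) (nat_lit 16777216) (.ev (nat_lit 781) (nat_lit 4096) .dd))))))))))) (.br (nat_lit 16) (.ch
 (nat_lit 13) (.ev (nat_lit 400) (nat_lit 26388279136256) (.nd (nat_lit 1136) (.br (nat_lit 8) (.br (nat_lit 5)
 (.ch (nat_lit 4) (.ev (nat_lit 1152) (nat_lit 562949970198528) (.ev (nat_lit 1165) (nat_lit 2097152) .dd)))
 (.br (nat_lit 7) (.ch (nat_lit 5) (.ev (nat_lit 1152) (nat_lit 562949955518464) (.ev (nat_lit 1165) (nat_lit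
 16777216) .dd))) (.ch (nat_lit 7) (.ev (nat_lit 1152) (nat_lit 562949970198528) (.ev (nat_lit 1165) (nat_lit
 2097152) .dd))))) (.br (nat_lit 11) (.ch (nat_lit 8) (.ev (nat_lit 1316) (nat_lit 16777216) (.fin (nat_lit
 576531670899311085)))) (.br (nat_lit 16) (.ch (nat_lit 11) (.ev (nat_lit 1152) (nat_lit 16777216) (.ev
 (nat_lit 1172) (nat_lit 2097152) (.ev (nat_lit 1181) (nat_lit 562949953421312) .dd)))) (.ch (nat_lit 16) (.ev
 (nat_lit 1152) (nat_lit 562949953421312) (.ev (nat_lit 1444) (nat_lit 16777216) (.ev (nat_lit 1453) (nat_lit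
 2097152) .dd)))))))))) (.ch (nat_lit 16) (.ev (nat_lit 400) (nat_lit 562949972365312) (.nd (nat_lit 976) (.br
 (nat_lit 12) (.br (nat_lit 4) (.br (nat_lit 2) (.ch (nat_lit 1) (.ev (nat_lit 1492) (nat_lit 8796093022208)
 (.ev (nat_lit 1501) (nat_lit 17592186044416) .dd))) (.ch (nat_lit 2) (.ev (nat_lit 992) (nat_lit
 17592186044416) (.ev (nat_lit 1005) (nat_lit 8796093022208) .dd)))) (.br (nat_lit 7) (.ch (nat_lit 4) (.ev
 (nat_lit 3940) (nat_lit 8796093022208) (.ev (nat_lit 3949) (nat_lit 17592186044416) .dd))) (.ch (nat_lit 7)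
 (.ev (nat_lit 992) (nat_lit 17592186044416) (.ev (nat_lit 1005) (nat_lit 8796093022208) .dd))))) (.br (nat_lit
 14) (.br (nat_lit 13) (.ch (nat_lit 12) (.ev (nat_lit 992) (nat_lit 8796093022208) (.ev (nat_lit 1005)
 (nat_lit 17592186044416) .dd))) (.ch (nat_lit 13) (.fin (nat_lit 576439311837643318)))) (.br (nat_lit 16) (.ch
 (nat_lit 14) (.ev (nat_lit 992) (nat_lit 8796093022208) (.ev (nat_lit 1005) (nat_lit 17592186044416) .dd)))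
 (.ch (nat_lit 16) (.ev (nat_lit 992) (nat_lit 26388279066624) .dd))))))))))))))))) (.br (nat_lit 14) (.br
 (nat_lit 13) (.ch (nat_lit 12) (.ev (nat_lit 48) (nat_lit 644384699845120) (.nd (nat_lit 128) (.br (nat_lit 9)
 (.br (nat_lit 7) (.br (nat_lit 3) (.ch (nat_lit 1) (.ev (nat_lit 144) (nat_lit 4521192081916960) (.nd (nat_lit
 976) (.br (nat_lit 6) (.br (nat_lit 3) (.br (nat_lit 1) (.ch (nat_lit 0) (.ev (nat_lit 1764) (nat_lit 4096)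
 (.ev (nat_lit 1773) (nat_lit 549755813888) .dd))) (.ch (nat_lit 1) (.ev (nat_lit 992) (nat_lit 549755817984)
 .dd))) (.br (nat_lit 5) (.ch (nat_lit 3) (.ev (nat_lit 992) (nat_lit 549755813888) (.ev (nat_lit 1005)
 (nat_lit 4096) .dd))) (.ch (nat_lit 5) (.ev (nat_lit 992) (nat_lit 549755817984) .dd)))) (.br (nat_lit 14)
 (.br (nat_lit 7) (.ch (nat_lit 6) (.ev (nat_lit 992) (nat_lit 549755817984) .dd)) (.ch (nat_lit 7) (.ev
 (nat_lit 2720) (nat_lit 4096) (.ev (nat_lit 2733) (nat_lit 549755813888) .dd)))) (.br (nat_lit 16) (.ch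
 (nat_lit 14) (.ev (nat_lit 992) (nat_lit 4096) (.ev (nat_lit 1005) (nat_lit 549755813888) .dd))) (.ch (nat_lit
 16) (.ev (nat_lit 992) (nat_lit 4096) (.ev (nat_lit 1005) (nat_lit 549755813888) .dd))))))))) (.ch (nat_lit 3)
 (.ev (nat_lit 144) (nat_lit 17592186109952) (.nd (nat_lit 512) (.br (nat_lit 7) (.br (nat_lit 4) (.br (nat_lit
 2) (.ch (nat_lit 0) (.ev (nat_lit 528) (nat_lit 549755819040) (.fin (nat_lit 576434913755480528)))) (.ch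
 (nat_lit 2) (.ev (nat_lit 528) (nat_lit 4128) (.ev (nat_lit 852) (nat_lit 549755813888) (.ev (nat_lit 916)
 (nat_lit 268435456) (.nd (nat_lit 2560) (.br (nat_lit 10) (.ch (nat_lit 7) (.ev (nat_lit 2576) (nat_lit
 4503599627370496) (.ev (nat_lit 2589) (nat_lit 1024) .dd))) (.ch (nat_lit 10) (.ev (nat_lit 2576) (nat_lit
 1024) (.ev (nat_lit 2589) (nat_lit 4503599627370496) .dd)))))))))) (.br (nat_lit 6) (.ch (nat_lit 4) (.ev
 (nat_lit 528) (nat_lit 4503599895805952) (.nd (nat_lit 2016) (.br (nat_lit 11) (.br (nat_lit 3) (.ch (nat_lit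
 2) (.ev (nat_lit 2324) (nat_lit 1024) (.ev (nat_lit 2788) (nat_lit 549755813888) (.ev (nat_lit 3268) (nat_lit
 4096) (.ev (nat_lit 3277) (nat_lit 32) .dd))))) (.ch (nat_lit 3) (.ev (nat_lit 2032) (nat_lit 549755814944)
 (.ev (nat_lit 2045) (nat_lit 4096) .dd)))) (.br (nat_lit 13) (.ch (nat_lit 11) (.ev (nat_lit 2032) (nat_lit
 549755819008) (.ev (nat_lit 2045) (nat_lit 32) .dd))) (.br (nat_lit 14) (.ch (nat_lit 13) (.ev (nat_lit 2032)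
 (nat_lit 549755813920) (.ev (nat_lit 2324) (nat_lit 1024) (.ev (nat_lit 2333) (nat_lit 4096) .dd)))) (.ch
 (nat_lit 14) (.ev (nat_lit 2032) (nat_lit 5152) (.ev (nat_lit 2045) (nat_lit 549755813888) .dd))))))))) (.ch
 (nat_lit 6) (.ev (nat_lit 528) (nat_lit 549755814944) (.ev (nat_lit 916) (nat_lit 268435456) (.ev (nat_lit
 1796) (nat_lit 4503599627370496) (.ev (nat_lit 1805) (nat_lit 4096) .dd))))))) (.br (nat_lit 12) (.br (nat_lit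
 8) (.ch (nat_lit 7) (.ev (nat_lit 528) (nat_lit 4504149651623936) (.ev (nat_lit 1204) (nat_lit 1024) (.ev
 (nat_lit 1213) (nat_lit 32) .dd)))) (.ch (nat_lit 8) (.ev (nat_lit 528) (nat_lit 4503599627370496) (.ev
 (nat_lit 836) (nat_lit 32) (.ev (nat_lit 1268) (nat_lit 549755813888) (.ev (nat_lit 2084) (nat_lit 268435456)
 (.ev (nat_lit 2228) (nat_lit 1024) (.ev (nat_lit 2237) (nat_lit 4096) .dd)))))))) (.br (nat_lit 14) (.ch
 (nat_lit 12) (.ev (nat_lit 528) (nat_lit 4504149651619872) (.ev (nat_lit 916) (nat_lit 1024) (.ev (nat_lit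
 925) (nat_lit 4096) .dd)))) (.br (nat_lit 16) (.ch (nat_lit 14) (.ev (nat_lit 528) (nat_lit 4503599895811104)
 (.ev (nat_lit 541) (nat_lit 549755813888) .dd))) (.ch (nat_lit 16) (.ev (nat_lit 528) (nat_lit
 4503599627371552) (.ev (nat_lit 548) (nat_lit 4096) (.ev (nat_lit 916) (nat_lit 268435456) (.ev (nat_lit 925)
 (nat_lit 549755813888) .dd))))))))))))) (.br (nat_lit 8) (.ch (nat_lit 7) (.ev (nat_lit 144) (nat_lit
 4504149651619840) (.nd (nat_lit 512) (.br (nat_lit 8) (.br (nat_lit 4) (.br (nat_lit 1) (.ch (nat_lit 0) (.ev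
 (nat_lit 528) (nat_lit 17592186049536) (.ev (nat_lit 1540) (nat_lit 65536) (.ev (nat_lit 1549) (nat_lit 32)
 .dd)))) (.ch (nat_lit 1) (.ev (nat_lit 528) (nat_lit 4096) (.ev (nat_lit 1444) (nat_lit 1024) (.ev (nat_lit
 3524) (nat_lit 65536) (.ev (nat_lit 3732) (nat_lit 17592186044416) (.ev (nat_lit 3741) (nat_lit 32) .dd)))))))
 (.br (nat_lit 7) (.ch (nat_lit 4) (.ev (nat_lit 528) (nat_lit 17592186045440) (.nd (nat_lit 2016) (.br
 (nat_lit 13) (.br (nat_lit 8) (.ch (nat_lit 0) (.ev (nat_lit 2032) (nat_lit 4096) (.ev (nat_lit 3792) (nat_lit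
 65568) .dd))) (.ch (nat_lit 8) (.ev (nat_lit 2032) (nat_lit 32) (.ev (nat_lit 4068) (nat_lit 4096) (.ev
 (nat_lit 4077) (nat_lit 65536) .dd))))) (.br (nat_lit 16) (.ch (nat_lit 13) (.ev (nat_lit 2032) (nat_lit 32)
 (.fin (nat_lit 576479993747948109)))) (.ch (nat_lit 16) (.ev (nat_lit 2032) (nat_lit 65536) (.ev (nat_lit
 3696) (nat_lit 4128) .dd)))))))) (.ch (nat_lit 7) (.ev (nat_lit 528) (nat_lit 69632) (.ev (nat_lit 1588)
 (nat_lit 1024) (.ev (nat_lit 3360) (nat_lit 17592186044416) (.ev (nat_lit 3373) (nat_lit 32) .dd))))))) (.br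
 (nat_lit 11) (.br (nat_lit 10) (.ch (nat_lit 8) (.ev (nat_lit 528) (nat_lit 17592186115104) .dd)) (.ch
 (nat_lit 10) (.ev (nat_lit 528) (nat_lit 17592186044416) (.ev (nat_lit 1060) (nat_lit 65536) (.ev (nat_lit
 2228) (nat_lit 1024) (.ev (nat_lit 3332) (nat_lit 32) (.ev (nat_lit 3341) (nat_lit 4096) .dd))))))) (.br
 (nat_lit 15) (.ch (nat_lit 11) (.ev (nat_lit 528) (nat_lit 66592) (.ev (nat_lit 1204) (nat_lit 4096) (.ev
 (nat_lit 1213) (nat_lit 17592186044416) .dd)))) (.br (nat_lit 16) (.ch (nat_lit 15) (.ev (nat_lit 528)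
 (nat_lit 5152) (.nd (nat_lit 2560) (.br (nat_lit 13) (.br (nat_lit 10) (.ch (nat_lit 4) (.ev (nat_lit 2576)
 (nat_lit 17592186044416) (.ev (nat_lit 2589) (nat_lit 65536) .dd))) (.ch (nat_lit 10) (.ev (nat_lit 3732)
 (nat_lit 17592186044416) (.ev (nat_lit 3741) (nat_lit 65536) .dd)))) (.br (nat_lit 15) (.ch (nat_lit 13) (.ev
 (nat_lit 2576) (nat_lit 17592186044416) (.ev (nat_lit 2589) (nat_lit 65536) .dd))) (.br (nat_lit 16) (.ch
 (nat_lit 15) (.ev (nat_lit 2576) (nat_lit 17592186044416) (.ev (nat_lit 2589) (nat_lit 65536) .dd))) (.ch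
 (nat_lit 16) (.ev (nat_lit 3696) (nat_lit 17592186109952) .dd)))))))) (.ch (nat_lit 16) (.ev (nat_lit 528)
 (nat_lit 70688) (.ev (nat_lit 541) (nat_lit 17592186044416) .dd)))))))))) (.ch (nat_lit 8) (.ev (nat_lit 144)
 (nat_lit 4521741569232928) (.nd (nat_lit 800) (.br (nat_lit 8) (.br (nat_lit 5) (.br (nat_lit 3) (.ch (nat_lit
 0) (.ev (nat_lit 816) (nat_lit 268436480) (.ev (nat_lit 829) (nat_lit 65536) .dd))) (.ch (nat_lit 3) (.ev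
 (nat_lit 816) (nat_lit 268500992) (.ev (nat_lit 829) (nat_lit 1024) .dd)))) (.br (nat_lit 6) (.ch (nat_lit 5)
 (.ev (nat_lit 932) (nat_lit 268435456) (.ev (nat_lit 1236) (nat_lit 1024) (.ev (nat_lit 1245) (nat_lit 65536)
 .dd)))) (.ch (nat_lit 6) (.ev (nat_lit 816) (nat_lit 65536) (.ev (nat_lit 836) (nat_lit 268435456) (.ev
 (nat_lit 845) (nat_lit 1024) .dd)))))) (.br (nat_lit 11) (.br (nat_lit 9) (.ch (nat_lit 8) (.ev (nat_lit 816)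
 (nat_lit 268500992) (.ev (nat_lit 829) (nat_lit 1024) .dd))) (.ch (nat_lit 9) (.ev (nat_lit 816) (nat_lit
 1024) (.ev (nat_lit 1236) (nat_lit 65536) (.ev (nat_lit 1245) (nat_lit 268435456) .dd))))) (.br (nat_lit 12)
 (.ch (nat_lit 11) (.nd (nat_lit 2496) (.br (nat_lit 6) (.br (nat_lit 2) (.ch (nat_lit 1) (.ev (nat_lit 2512)
 (nat_lit 268435456) (.ev (nat_lit 3076) (nat_lit 65536) (.ev (nat_lit 3085) (nat_lit 1024) .dd)))) (.br
 (nat_lit 5) (.ch (nat_lit 2) (.ev (nat_lit 2512) (nat_lit 268436480) (.ev (nat_lit 2525) (nat_lit 65536)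
 .dd))) (.ch (nat_lit 5) (.ev (nat_lit 2512) (nat_lit 65536) (.ev (nat_lit 2672) (nat_lit 268436480) .dd)))))
 (.br (nat_lit 15) (.ch (nat_lit 6) (.ev (nat_lit 2512) (nat_lit 268435456) (.ev (nat_lit 3076) (nat_lit 65536)
 (.ev (nat_lit 3085) (nat_lit 1024) .dd)))) (.br (nat_lit 16) (.ch (nat_lit 15) (.ev (nat_lit 2512) (nat_lit
 268500992) (.ev (nat_lit 2525) (nat_lit 1024) .dd))) (.ch (nat_lit 16) (.ev (nat_lit 2512) (nat_lit 66560)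
 (.ev (nat_lit 2525) (nat_lit 268435456) .dd)))))))) (.ch (nat_lit 12) (.ev (nat_lit 816) (nat_lit 1024) (.ev
 (nat_lit 836) (nat_lit 65536) (.ev (nat_lit 845) (nat_lit 268435456) .dd)))))))))))) (.br (nat_lit 13) (.br
 (nat_lit 11) (.ch (nat_lit 9) (.ev (nat_lit 144) (nat_lit 4504149383255040) (.nd (nat_lit 880) (.br (nat_lit
 9) (.br (nat_lit 5) (.br (nat_lit 4) (.ch (nat_lit 3) (.ev (nat_lit 1028) (nat_lit 268435456) (.ev (nat_lit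
 3892) (nat_lit 17592186044416) (.ev (nat_lit 3901) (nat_lit 32) .dd)))) (.ch (nat_lit 4) (.ev (nat_lit 896)
 (nat_lit 32) (.ev (nat_lit 1028) (nat_lit 268435456) (.ev (nat_lit 1037) (nat_lit 17592186044416) .dd)))))
 (.br (nat_lit 6) (.ch (nat_lit 5) (.ev (nat_lit 896) (nat_lit 17592454479872) (.ev (nat_lit 909) (nat_lit 32)
 .dd))) (.ch (nat_lit 6) (.ev (nat_lit 896) (nat_lit 17592454479904) .dd)))) (.br (nat_lit 14) (.br (nat_lit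
 11) (.ch (nat_lit 9) (.ev (nat_lit 896) (nat_lit 17592454479904) .dd)) (.ch (nat_lit 11) (.ev (nat_lit 916)
 (nat_lit 32) (.ev (nat_lit 1780) (nat_lit 268435456) (.ev (nat_lit 1789) (nat_lit 17592186044416) .dd)))))
 (.br (nat_lit 15) (.ch (nat_lit 14) (.ev (nat_lit 896) (nat_lit 268435456) (.ev (nat_lit 3892) (nat_lit 32)
 (.ev (nat_lit 3901) (nat_lit 17592186044416) .dd)))) (.br (nat_lit 16) (.ch (nat_lit 15) (.ev (nat_lit 896)
 (nat_lit 17592454479904) .dd)) (.ch (nat_lit 16) (.ev (nat_lit 2788) (nat_lit 268435456) (.ev (nat_lit 3940)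
 (nat_lit 32) (.ev (nat_lit 3949) (nat_lit 17592186044416) .dd))))))))))) (.ch (nat_lit 11) (.ev (nat_lit 144)
 (nat_lit 18142210293760) (.nd (nat_lit 512) (.br (nat_lit 9) (.br (nat_lit 7) (.br (nat_lit 5) (.ch (nat_lit
 0) (.ev (nat_lit 528) (nat_lit 4503599627370528) (.ev (nat_lit 1040) (nat_lit 1024) (.ev (nat_lit 3828)
 (nat_lit 65536) (.ev (nat_lit 3837) (nat_lit 4096) .dd))))) (.ch (nat_lit 5) (.ev (nat_lit 528) (nat_lit
 4503599627440160) (.ev (nat_lit 541) (nat_lit 1024) .dd)))) (.br (nat_lit 8) (.ch (nat_lit 7) (.ev (nat_lit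
 528) (nat_lit 65568) (.ev (nat_lit 1908) (nat_lit 1024) (.ev (nat_lit 3892) (nat_lit 4503599627370496) (.ev
 (nat_lit 3901) (nat_lit 4096) .dd))))) (.ch (nat_lit 8) (.ev (nat_lit 528) (nat_lit 1024) (.ev (nat_lit 644)
 (nat_lit 32) (.ev (nat_lit 1908) (nat_lit 65536) (.ev (nat_lit 2324) (nat_lit 4503599627370496) (.ev (nat_lit
 2333) (nat_lit 4096) .dd)))))))) (.br (nat_lit 14) (.br (nat_lit 10) (.ch (nat_lit 9) (.ev (nat_lit 528)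
 (nat_lit 4096) (.nd (nat_lit 2496) (.br (nat_lit 8) (.br (nat_lit 6) (.ch (nat_lit 2) (.ev (nat_lit 2512)
 (nat_lit 4503599627436032) (.ev (nat_lit 3380) (nat_lit 32) (.ev (nat_lit 3389) (nat_lit 1024) .dd)))) (.br
 (nat_lit 7) (.ch (nat_lit 6) (.ev (nat_lit 2512) (nat_lit 4503599627371520) (.ev (nat_lit 2628) (nat_lit 32)
 (.ev (nat_lit 2637) (nat_lit 65536) .dd)))) (.ch (nat_lit 7) (.ev (nat_lit 2512) (nat_lit 4503599627370496)
 (.ev (nat_lit 3172) (nat_lit 32) (.ev (nat_lit 3268) (nat_lit 1024) (.ev (nat_lit 3277) (nat_lit 65536)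
 .dd))))))) (.br (nat_lit 12) (.br (nat_lit 10) (.ch (nat_lit 8) (.ev (nat_lit 2512) (nat_lit 65568) (.fin
 (nat_lit 576375540143309389)))) (.ch (nat_lit 10) (.ev (nat_lit 2512) (nat_lit 65568) (.ev (nat_lit 2672)
 (nat_lit 4503599627371520) .dd)))) (.br (nat_lit 14) (.ch (nat_lit 12) (.ev (nat_lit 2512) (nat_lit
 4503599627370528) (.ev (nat_lit 3268) (nat_lit 1024) (.ev (nat_lit 3277) (nat_lit 65536) .dd)))) (.ch (nat_lit
 14) (.ev (nat_lit 2512) (nat_lit 66560) (.ev (nat_lit 3684) (nat_lit 32) (.ev (nat_lit 3693) (nat_lit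
 4503599627370496) .dd)))))))))) (.ch (nat_lit 10) (.ev (nat_lit 528) (nat_lit 4503599627371552) (.ev (nat_lit
 644) (nat_lit 65536) (.ev (nat_lit 653) (nat_lit 4096) .dd))))) (.br (nat_lit 15) (.ch (nat_lit 14) (.ev
 (nat_lit 528) (nat_lit 5152) (.ev (nat_lit 644) (nat_lit 65536) (.ev (nat_lit 653) (nat_lit 4503599627370496)
 .dd)))) (.ch (nat_lit 15) (.ev (nat_lit 528) (nat_lit 65536) (.ev (nat_lit 596) (nat_lit 4096) (.ev (nat_lit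
 1060) (nat_lit 1024) (.ev (nat_lit 2820) (nat_lit 4503599627370496) (.ev (nat_lit 2829) (nat_lit 32)
 .dd))))))))))))) (.br (nat_lit 15) (.ch (nat_lit 13) (.ev (nat_lit 144) (nat_lit 4521192081920032) (.nd
 (nat_lit 880) (.br (nat_lit 10) (.br (nat_lit 7) (.br (nat_lit 6) (.ch (nat_lit 0) (.ev (nat_lit 896) (nat_lit
 1024) (.ev (nat_lit 909) (nat_lit 549755813888) .dd))) (.ch (nat_lit 6) (.ev (nat_lit 896) (nat_lit
 549755814912) .dd))) (.br (nat_lit 8) (.ch (nat_lit 7) (.ev (nat_lit 896) (nat_lit 549755814912) .dd)) (.ch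
 (nat_lit 8) (.ev (nat_lit 896) (nat_lit 1024) (.ev (nat_lit 909) (nat_lit 549755813888) .dd))))) (.br (nat_lit
 13) (.br (nat_lit 12) (.ch (nat_lit 10) (.ev (nat_lit 896) (nat_lit 549755813888) (.ev (nat_lit 909) (nat_lit
 1024) .dd))) (.ch (nat_lit 12) (.nd (nat_lit 4480) (.br (nat_lit 11) (.ch (nat_lit 2) (.ev (nat_lit 4496)
 (nat_lit 549755814912) .dd)) (.ch (nat_lit 11) (.fin (nat_lit 576478894356906568))))))) (.br (nat_lit 14) (.ch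
 (nat_lit 13) (.ev (nat_lit 2052) (nat_lit 1024) (.ev (nat_lit 2061) (nat_lit 549755813888) .dd))) (.ch
 (nat_lit 14) (.ev (nat_lit 896) (nat_lit 1024) (.ev (nat_lit 909) (nat_lit 549755813888) .dd))))))))) (.br
 (nat_lit 16) (.ch (nat_lit 15) (.ev (nat_lit 144) (nat_lit 4521741837734944) .dd)) (.ch (nat_lit 16) (.ev
 (nat_lit 144) (nat_lit 550024315904) (.nd (nat_lit 672) (.br (nat_lit 5) (.br (nat_lit 3) (.br (nat_lit 1)
 (.ch (nat_lit 0) (.ev (nat_lit 688) (nat_lit 4521191813414944) (.ev (nat_lit 701) (nat_lit 4096) .dd))) (.ch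
 (nat_lit 1) (.ev (nat_lit 688) (nat_lit 4521191813414944) (.ev (nat_lit 701) (nat_lit 4096) .dd)))) (.br
 (nat_lit 4) (.ch (nat_lit 3) (.ev (nat_lit 688) (nat_lit 4096) (.nd (nat_lit 3120) (.br (nat_lit 9) (.br
 (nat_lit 5) (.ch (nat_lit 3) (.ev (nat_lit 3136) (nat_lit 17592186044448) (.ev (nat_lit 3149) (nat_lit
 4503599627370496) .dd))) (.ch (nat_lit 5) (.ev (nat_lit 3620) (nat_lit 4503599627370496) (.fin (nat_lit
 576429416213070413))))) (.br (nat_lit 11) (.ch (nat_lit 9) (.ev (nat_lit 3136) (nat_lit 4503599627370528) (.ev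
 (nat_lit 3149) (nat_lit 17592186044416) .dd))) (.br (nat_lit 14) (.ch (nat_lit 11) (.ev (nat_lit 3136)
 (nat_lit 4503599627370496) (.ev (nat_lit 3360) (nat_lit 17592186044416) (.ev (nat_lit 3373) (nat_lit 32)
 .dd)))) (.ch (nat_lit 14) (.ev (nat_lit 3136) (nat_lit 4521191813414912) (.ev (nat_lit 3149) (nat_lit 32)
 .dd))))))))) (.ch (nat_lit 4) (.ev (nat_lit 688) (nat_lit 4503599627370496) (.ev (nat_lit 1876) (nat_lit 32)
 (.ev (nat_lit 3460) (nat_lit 4096) (.ev (nat_lit 3469) (nat_lit 17592186044416) .dd))))))) (.br (nat_lit 14)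
 (.br (nat_lit 7) (.ch (nat_lit 5) (.ev (nat_lit 688) (nat_lit 4128) (.nd (nat_lit 3120) (.br (nat_lit 11) (.br
 (nat_lit 10) (.ch (nat_lit 3) (.ev (nat_lit 3136) (nat_lit 4521191813414912) .dd)) (.ch (nat_lit 10) (.ev
 (nat_lit 3136) (nat_lit 4521191813414912) .dd))) (.br (nat_lit 13) (.ch (nat_lit 11) (.ev (nat_lit 3136)
 (nat_lit 17592186044416) (.ev (nat_lit 3149) (nat_lit 4503599627370496) .dd))) (.br (nat_lit 15) (.ch (nat_lit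
 13) (.ev (nat_lit 3136) (nat_lit 4503599627370496) (.ev (nat_lit 3149) (nat_lit 17592186044416) .dd))) (.ch
 (nat_lit 15) (.ev (nat_lit 3136) (nat_lit 17592186044416) (.ev (nat_lit 3149) (nat_lit 4503599627370496)
 .dd))))))))) (.ch (nat_lit 7) (.ev (nat_lit 688) (nat_lit 4503599627374624) (.ev (nat_lit 701) (nat_lit
 17592186044416) .dd)))) (.br (nat_lit 15) (.ch (nat_lit 14) (.ev (nat_lit 688) (nat_lit 17592186048544) (.ev
 (nat_lit 701) (nat_lit 4503599627370496) .dd))) (.br (nat_lit 16) (.ch (nat_lit 15) (.ev (nat_lit 688)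
 (nat_lit 4096) (.ev (nat_lit 2256) (nat_lit 4503599627370496) (.ev (nat_lit 3620) (nat_lit 17592186044416)
 (.ev (nat_lit 3629) (nat_lit 32) .dd))))) (.ch (nat_lit 16) (.ev (nat_lit 688) (nat_lit 17592186048544) (.ev
 (nat_lit 701) (nat_lit 4503599627370496) .dd))))))))))))))))) (.ch (nat_lit 13) (.ev (nat_lit 48) (nat_lit
 5147913711982624) (.nd (nat_lit 288) (.br (nat_lit 7) (.br (nat_lit 5) (.br (nat_lit 4) (.ch (nat_lit 1) (.ev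
 (nat_lit 304) (nat_lit 17663069783552) (.ev (nat_lit 317) (nat_lit 549755813888) .dd))) (.ch (nat_lit 4) (.ev
 (nat_lit 304) (nat_lit 18141958636544) (.nd (nat_lit 976) (.br (nat_lit 9) (.br (nat_lit 2) (.ch (nat_lit 1)
 (.ev (nat_lit 992) (nat_lit 2147483648) (.ev (nat_lit 1028) (nat_lit 512) (.ev (nat_lit 1037) (nat_lit
 68719476736) .dd)))) (.br (nat_lit 3) (.ch (nat_lit 2) (.ev (nat_lit 992) (nat_lit 512) (.ev (nat_lit 1028)
 (nat_lit 68719476736) (.ev (nat_lit 1037) (nat_lit 2147483648) .dd)))) (.ch (nat_lit 3) (.ev (nat_lit 992)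
 (nat_lit 70866960896) .dd)))) (.br (nat_lit 14) (.br (nat_lit 10) (.ch (nat_lit 9) (.ev (nat_lit 992) (nat_lit
 70866960896) .dd)) (.ch (nat_lit 10) (.ev (nat_lit 992) (nat_lit 70866960384) (.ev (nat_lit 1005) (nat_lit
 512) .dd)))) (.br (nat_lit 15) (.ch (nat_lit 14) (.ev (nat_lit 992) (nat_lit 68719476736) (.ev (nat_lit 1300)
 (nat_lit 512) (.ev (nat_lit 1309) (nat_lit 2147483648) .dd)))) (.ch (nat_lit 15) (.ev (nat_lit 992) (nat_lit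
 68719476736) (.ev (nat_lit 3892) (nat_lit 512) (.ev (nat_lit 3901) (nat_lit 2147483648) .dd))))))))))) (.br
 (nat_lit 6) (.ch (nat_lit 5) (.ev (nat_lit 304) (nat_lit 618475291648) (.nd (nat_lit 800) (.br (nat_lit 6)
 (.br (nat_lit 4) (.ch (nat_lit 3) (.nd (nat_lit 2496) (.br (nat_lit 7) (.ch (nat_lit 1) (.ev (nat_lit 2512)
 (nat_lit 16777728) (.fin (nat_lit 576474496192954948)))) (.br (nat_lit 15) (.ch (nat_lit 7) (.ev (nat_lit
 2512) (nat_lit 2147484160) (.ev (nat_lit 2628) (nat_lit 16777216) (.ev (nat_lit 2637) (nat_lit 17592186044416)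
 .dd)))) (.ch (nat_lit 15) (.ev (nat_lit 2512) (nat_lit 17592202821632) (.ev (nat_lit 3172) (nat_lit
 2147483648) (.ev (nat_lit 3181) (nat_lit 512) .dd)))))))) (.br (nat_lit 5) (.ch (nat_lit 4) (.ev (nat_lit 816)
 (nat_lit 17592202821632) (.ev (nat_lit 836) (nat_lit 2147483648) (.ev (nat_lit 845) (nat_lit 512) .dd)))) (.ch
 (nat_lit 5) (.ev (nat_lit 816) (nat_lit 16777728) (.ev (nat_lit 1204) (nat_lit 2147483648) (.ev (nat_lit 1213)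
 (nat_lit 17592186044416) .dd)))))) (.br (nat_lit 12) (.br (nat_lit 7) (.ch (nat_lit 6) (.ev (nat_lit 816)
 (nat_lit 16777728) (.ev (nat_lit 3524) (nat_lit 17592186044416) (.ev (nat_lit 3533) (nat_lit 2147483648)
 .dd)))) (.ch (nat_lit 7) (.ev (nat_lit 816) (nat_lit 17594333528064) (.fin (nat_lit 576421719731290620)))))
 (.br (nat_lit 14) (.ch (nat_lit 12) (.ev (nat_lit 816) (nat_lit 2147483648) (.ev (nat_lit 836) (nat_lit
 17592186044416) (.ev (nat_lit 1780) (nat_lit 512) (.ev (nat_lit 1789) (nat_lit 16777216) .dd))))) (.ch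
 (nat_lit 14) (.ev (nat_lit 816) (nat_lit 17592202821632) (.ev (nat_lit 852) (nat_lit 2147483648) (.ev (nat_lit
 861) (nat_lit 512) .dd)))))))))) (.ch (nat_lit 6) (.ev (nat_lit 304) (nat_lit 551903298048) (.nd (nat_lit 608)
 (.br (nat_lit 7) (.br (nat_lit 4) (.br (nat_lit 2) (.ch (nat_lit 0) (.ev (nat_lit 624) (nat_lit 68719477760)
 (.nd (nat_lit 4128) (.br (nat_lit 10) (.ch (nat_lit 5) (.fin (nat_lit 576514078660838053))) (.ch (nat_lit 10)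
 (.ev (nat_lit 4144) (nat_lit 17592186044416) (.ev (nat_lit 4157) (nat_lit 16777216) .dd))))))) (.ch (nat_lit
 2) (.ev (nat_lit 1280) (nat_lit 68719476736) (.ev (nat_lit 1780) (nat_lit 17592186044416) (.ev (nat_lit 2308)
 (nat_lit 1024) (.ev (nat_lit 2317) (nat_lit 16777216) .dd)))))) (.br (nat_lit 5) (.ch (nat_lit 4) (.ev
 (nat_lit 2256) (nat_lit 68719476736) (.ev (nat_lit 3684) (nat_lit 17592186044416) (.ev (nat_lit 3828) (nat_lit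
 1024) (.ev (nat_lit 3837) (nat_lit 16777216) .dd))))) (.ch (nat_lit 5) (.ev (nat_lit 624) (nat_lit
 17592186044416) (.ev (nat_lit 2256) (nat_lit 68719476736) (.ev (nat_lit 2788) (nat_lit 1024) (.ev (nat_lit
 2797) (nat_lit 16777216) .dd))))))) (.br (nat_lit 10) (.br (nat_lit 9) (.ch (nat_lit 7) (.ev (nat_lit 624)
 (nat_lit 17592186044416) (.ev (nat_lit 660) (nat_lit 16777216) (.ev (nat_lit 1268) (nat_lit 68719476736) (.ev
 (nat_lit 1277) (nat_lit 1024) .dd))))) (.ch (nat_lit 9) (.ev (nat_lit 624) (nat_lit 68736253952) (.nd (nat_lit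
 4352) (.br (nat_lit 16) (.ch (nat_lit 4) (.ev (nat_lit 4368) (nat_lit 17592186044416) (.ev (nat_lit 4381)
 (nat_lit 1024) .dd))) (.ch (nat_lit 16) (.fin (nat_lit 576473396646724178)))))))) (.br (nat_lit 13) (.ch
 (nat_lit 10) (.ev (nat_lit 624) (nat_lit 68736254976) (.ev (nat_lit 637) (nat_lit 17592186044416) .dd))) (.br
 (nat_lit 16) (.ch (nat_lit 13) (.ev (nat_lit 624) (nat_lit 17592202822656) (.ev (nat_lit 637) (nat_lit
 68719476736) .dd))) (.ch (nat_lit 16) (.ev (nat_lit 624) (nat_lit 17660922299392) .dd))))))))))) (.br (nat_lit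
 11) (.br (nat_lit 8) (.ch (nat_lit 7) (.ev (nat_lit 304) (nat_lit 18212825595904) (.nd (nat_lit 1136) (.br
 (nat_lit 13) (.br (nat_lit 6) (.ch (nat_lit 0) (.nd (nat_lit 4512) (.br (nat_lit 8) (.ch (nat_lit 5) (.ev
 (nat_lit 4528) (nat_lit 1536) .dd)) (.br (nat_lit 16) (.ch (nat_lit 8) (.ev (nat_lit 4528) (nat_lit 1536)
 .dd)) (.ch (nat_lit 16) (.nd (nat_lit 5888) (.br (nat_lit 2) (.ch (nat_lit 1) (.ev (nat_lit 5904) (nat_lit
 1024) (.ev (nat_lit 5917) (nat_lit 512) .dd))) (.ch (nat_lit 2) (.fin (nat_lit 576127050200858923))))))))))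
 (.br (nat_lit 8) (.ch (nat_lit 6) (.ev (nat_lit 1152) (nat_lit 1536) .dd)) (.ch (nat_lit 8) (.ev (nat_lit
 1152) (nat_lit 512) (.ev (nat_lit 1165) (nat_lit 1024) .dd))))) (.br (nat_lit 15) (.br (nat_lit 14) (.ch
 (nat_lit 13) (.ev (nat_lit 1152) (nat_lit 512) (.ev (nat_lit 1165) (nat_lit 1024) .dd))) (.ch (nat_lit 14)
 (.ev (nat_lit 1152) (nat_lit 1024) (.ev (nat_lit 1165) (nat_lit 512) .dd)))) (.br (nat_lit 16) (.ch (nat_lit
 15) (.ev (nat_lit 1152) (nat_lit 1536) .dd)) (.ch (nat_lit 16) (.ev (nat_lit 1152) (nat_lit 1024) (.ev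
 (nat_lit 1165) (nat_lit 512) .dd))))))))) (.ch (nat_lit 8) (.ev (nat_lit 304) (nat_lit 17592202823168) (.nd
 (nat_lit 1136) (.br (nat_lit 5) (.br (nat_lit 1) (.ch (nat_lit 0) (.ev (nat_lit 1152) (nat_lit 549755813888)
 (.ev (nat_lit 1540) (nat_lit 68719476736) (.ev (nat_lit 1549) (nat_lit 2147483648) .dd)))) (.br (nat_lit 4)
 (.ch (nat_lit 1) (.ev (nat_lit 1152) (nat_lit 2147483648) (.ev (nat_lit 1456) (nat_lit 549755813888) (.ev
 (nat_lit 1469) (nat_lit 68719476736) .dd)))) (.ch (nat_lit 4) (.ev (nat_lit 1152) (nat_lit 618475290624) (.ev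
 (nat_lit 1165) (nat_lit 2147483648) .dd))))) (.br (nat_lit 10) (.br (nat_lit 9) (.ch (nat_lit 5) (.ev (nat_lit
 1152) (nat_lit 68719476736) (.ev (nat_lit 1732) (nat_lit 549755813888) (.ev (nat_lit 1741) (nat_lit
 2147483648) .dd)))) (.ch (nat_lit 9) (.ev (nat_lit 1152) (nat_lit 618475290624) (.ev (nat_lit 1165) (nat_lit
 2147483648) .dd)))) (.br (nat_lit 16) (.ch (nat_lit 10) (.ev (nat_lit 1152) (nat_lit 618475290624) (.ev
 (nat_lit 1165) (nat_lit 2147483648) .dd))) (.ch (nat_lit 16) (.ev (nat_lit 1152) (nat_lit 70866960384) (.ev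
 (nat_lit 1165) (nat_lit 549755813888) .dd)))))))))) (.br (nat_lit 13) (.ch (nat_lit 11) (.ev (nat_lit 304)
 (nat_lit 17663069783040) (.nd (nat_lit 976) (.br (nat_lit 11) (.br (nat_lit 4) (.ch (nat_lit 3) (.ev (nat_lit
 1028) (nat_lit 512) (.ev (nat_lit 1037) (nat_lit 549755813888) .dd))) (.br (nat_lit 7) (.ch (nat_lit 4) (.ev
 (nat_lit 992) (nat_lit 512) (.ev (nat_lit 1005) (nat_lit 549755813888) .dd))) (.ch (nat_lit 7) (.ev (nat_lit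
 992) (nat_lit 549755813888) (.ev (nat_lit 1005) (nat_lit 512) .dd))))) (.br (nat_lit 13) (.ch (nat_lit 11)
 (.ev (nat_lit 992) (nat_lit 512) (.ev (nat_lit 1005) (nat_lit 549755813888) .dd))) (.br (nat_lit 14) (.ch
 (nat_lit 13) (.ev (nat_lit 992) (nat_lit 549755813888) (.ev (nat_lit 1005) (nat_lit 512) .dd))) (.ch (nat_lit
 14) (.ev (nat_lit 1412) (nat_lit 549755813888) (.ev (nat_lit 1421) (nat_lit 512) .dd))))))))) (.br (nat_lit
 16) (.ch (nat_lit 13) (.ev (nat_lit 304) (nat_lit 549755814912) (.nd (nat_lit 672) (.br (nat_lit 6) (.br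
 (nat_lit 3) (.br (nat_lit 1) (.ch (nat_lit 0) (.ev (nat_lit 688) (nat_lit 68736254464) (.ev (nat_lit 1828)
 (nat_lit 2147483648) (.ev (nat_lit 1837) (nat_lit 17592186044416) .dd)))) (.ch (nat_lit 1) (.ev (nat_lit 688)
 (nat_lit 2147484160) (.ev (nat_lit 708) (nat_lit 16777216) (.ev (nat_lit 1172) (nat_lit 68719476736) (.ev
 (nat_lit 1181) (nat_lit 17592186044416) .dd)))))) (.br (nat_lit 5) (.ch (nat_lit 3) (.ev (nat_lit 688)
 (nat_lit 17660905521152) (.ev (nat_lit 2176) (nat_lit 16777216) (.ev (nat_lit 3684) (nat_lit 2147483648) (.ev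
 (nat_lit 3693) (nat_lit 512) .dd))))) (.ch (nat_lit 5) (.ev (nat_lit 688) (nat_lit 17594333528064) (.ev
 (nat_lit 708) (nat_lit 16777216) (.ev (nat_lit 1700) (nat_lit 68719476736) (.ev (nat_lit 1709) (nat_lit 512)
 .dd))))))) (.br (nat_lit 10) (.br (nat_lit 9) (.ch (nat_lit 6) (.ev (nat_lit 688) (nat_lit 68719477248) (.ev
 (nat_lit 1040) (nat_lit 17592186044416) (.ev (nat_lit 3172) (nat_lit 16777216) (.ev (nat_lit 3181) (nat_lit
 2147483648) .dd))))) (.ch (nat_lit 9) (.ev (nat_lit 688) (nat_lit 17660922298368) (.ev (nat_lit 2404) (nat_lit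
 2147483648) (.ev (nat_lit 2413) (nat_lit 512) .dd))))) (.br (nat_lit 13) (.ch (nat_lit 10) (.ev (nat_lit 688)
 (nat_lit 17660905521152) (.ev (nat_lit 2324) (nat_lit 512) (.ev (nat_lit 3524) (nat_lit 2147483648) (.ev
 (nat_lit 3533) (nat_lit 16777216) .dd))))) (.br (nat_lit 15) (.ch (nat_lit 13) (.ev (nat_lit 688) (nat_lit
 17594350305280) (.ev (nat_lit 1172) (nat_lit 68719476736) (.ev (nat_lit 1181) (nat_lit 512) .dd)))) (.ch
 (nat_lit 15) (.ev (nat_lit 688) (nat_lit 17663069782528) .dd))))))))) (.ch (nat_lit 16) (.ev (nat_lit 304)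
 (nat_lit 17592202822144) (.nd (nat_lit 976) (.br (nat_lit 7) (.br (nat_lit 3) (.br (nat_lit 2) (.ch (nat_lit
 0) (.ev (nat_lit 992) (nat_lit 618475290624) (.ev (nat_lit 1588) (nat_lit 2147483648) (.ev (nat_lit 1597)
 (nat_lit 1024) .dd)))) (.ch (nat_lit 2) (.ev (nat_lit 992) (nat_lit 2147483648) (.ev (nat_lit 1104) (nat_lit
 1024) (.ev (nat_lit 1412) (nat_lit 68719476736) (.ev (nat_lit 1421) (nat_lit 549755813888) .dd)))))) (.br
 (nat_lit 5) (.ch (nat_lit 3) (.ev (nat_lit 992) (nat_lit 620622775296) .dd)) (.ch (nat_lit 5) (.ev (nat_lit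
 992) (nat_lit 68719477760) (.ev (nat_lit 1444) (nat_lit 549755813888) (.ev (nat_lit 1453) (nat_lit 2147483648)
 .dd)))))) (.br (nat_lit 11) (.br (nat_lit 10) (.ch (nat_lit 7) (.ev (nat_lit 992) (nat_lit 551903298560) (.ev
 (nat_lit 1005) (nat_lit 68719476736) .dd))) (.ch (nat_lit 10) (.ev (nat_lit 992) (nat_lit 620622774272) (.ev
 (nat_lit 1005) (nat_lit 1024) .dd)))) (.br (nat_lit 14) (.ch (nat_lit 11) (.ev (nat_lit 992) (nat_lit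
 70866961408) (.ev (nat_lit 1005) (nat_lit 549755813888) .dd))) (.br (nat_lit 15) (.ch (nat_lit 14) (.ev
 (nat_lit 992) (nat_lit 68719476736) (.nd (nat_lit 2496) (.br (nat_lit 8) (.ch (nat_lit 0) (.ev (nat_lit 2832)
 (nat_lit 2147483648) (.fin (nat_lit 576929693993222933)))) (.br (nat_lit 12) (.ch (nat_lit 8) (.ev (nat_lit
 2512) (nat_lit 549755813888) (.fin (nat_lit 576463501026345650)))) (.ch (nat_lit 12) (.ev (nat_lit 2512)
 (nat_lit 549755814912) (.ev (nat_lit 2525) (nat_lit 2147483648) .dd)))))))) (.ch (nat_lit 15) (.ev (nat_lit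
 992) (nat_lit 551903297536) (.ev (nat_lit 1552) (nat_lit 68719476736) (.ev (nat_lit 1565) (nat_lit 1024)
 .dd))))))))))))))))))) (.br (nat_lit 15) (.ch (nat_lit 14) (.ev (nat_lit 48) (nat_lit 5084693940798976) (.nd
 (nat_lit 224) (.br (nat_lit 8) (.br (nat_lit 4) (.br (nat_lit 3) (.ch (nat_lit 0) (.ev (nat_lit 240) (nat_lit
 81432596781088) .dd)) (.ch (nat_lit 3) (.ev (nat_lit 240) (nat_lit 72636486909952) (.nd (nat_lit 608) (.br
 (nat_lit 12) (.br (nat_lit 3) (.br (nat_lit 2) (.ch (nat_lit 1) (.ev (nat_lit 624) (nat_lit 8796093087776)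
 (.ev (nat_lit 916) (nat_lit 16777216) (.ev (nat_lit 3732) (nat_lit 4096) (.ev (nat_lit 3741) (nat_lit 2048)
 .dd))))) (.ch (nat_lit 2) (.ev (nat_lit 624) (nat_lit 8796109871104) (.ev (nat_lit 637) (nat_lit 32) .dd))))
 (.br (nat_lit 7) (.ch (nat_lit 3) (.ev (nat_lit 624) (nat_lit 8796093089792) (.ev (nat_lit 836) (nat_lit 32)
 (.ev (nat_lit 1028) (nat_lit 4096) (.ev (nat_lit 1037) (nat_lit 16777216) .dd))))) (.ch (nat_lit 7) (.ev
 (nat_lit 624) (nat_lit 16846880) (.ev (nat_lit 3696) (nat_lit 2048) (.ev (nat_lit 3709) (nat_lit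
 8796093022208) .dd)))))) (.br (nat_lit 14) (.br (nat_lit 13) (.ch (nat_lit 12) (.ev (nat_lit 624) (nat_lit
 8796109803520) (.ev (nat_lit 2788) (nat_lit 65536) (.ev (nat_lit 3828) (nat_lit 2048) (.ev (nat_lit 3837)
 (nat_lit 32) .dd))))) (.ch (nat_lit 13) (.ev (nat_lit 624) (nat_lit 8796109803552) (.ev (nat_lit 1008)
 (nat_lit 65536) (.ev (nat_lit 1021) (nat_lit 2048) .dd))))) (.br (nat_lit 15) (.ch (nat_lit 14) (.ev (nat_lit
 624) (nat_lit 67584) (.ev (nat_lit 932) (nat_lit 16777216) (.ev (nat_lit 3904) (nat_lit 4096) (.fin (nat_lit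
 576463501090308671)))))) (.br (nat_lit 16) (.ch (nat_lit 15) (.ev (nat_lit 624) (nat_lit 8796109799456) (.ev
 (nat_lit 1456) (nat_lit 65536) (.ev (nat_lit 1492) (nat_lit 2048) (.ev (nat_lit 1501) (nat_lit 4096) .dd)))))
 (.ch (nat_lit 16) (.ev (nat_lit 624) (nat_lit 16844800) (.ev (nat_lit 836) (nat_lit 4096) (.nd (nat_lit 3232)
 (.br (nat_lit 13) (.br (nat_lit 9) (.ch (nat_lit 1) (.ev (nat_lit 3248) (nat_lit 32) (.ev (nat_lit 3261)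
 (nat_lit 8796093022208) .dd))) (.ch (nat_lit 9) (.ev (nat_lit 3524) (nat_lit 32) (.ev (nat_lit 3533) (nat_lit
 8796093022208) .dd)))) (.br (nat_lit 16) (.ch (nat_lit 13) (.ev (nat_lit 3248) (nat_lit 8796093022208) (.ev
 (nat_lit 3261) (nat_lit 32) .dd))) (.ch (nat_lit 16) (.ev (nat_lit 3524) (nat_lit 32) (.ev (nat_lit 3533)
 (nat_lit 8796093022208) .dd))))))))))))))))) (.br (nat_lit 7) (.ch (nat_lit 4) (.ev (nat_lit 240) (nat_lit
 8864812568576) (.nd (nat_lit 560) (.br (nat_lit 10) (.br (nat_lit 5) (.br (nat_lit 2) (.ch (nat_lit 0) (.ev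
 (nat_lit 576) (nat_lit 72567767435296) (.ev (nat_lit 589) (nat_lit 16777216) .dd))) (.ch (nat_lit 2) (.ev
 (nat_lit 576) (nat_lit 16777216) (.ev (nat_lit 1092) (nat_lit 32) (.ev (nat_lit 1236) (nat_lit 2199023255552)
 (.ev (nat_lit 2308) (nat_lit 70368744177664) (.ev (nat_lit 2317) (nat_lit 2048) .dd))))))) (.br (nat_lit 9)
 (.ch (nat_lit 5) (.ev (nat_lit 576) (nat_lit 72567784212512) .dd)) (.ch (nat_lit 9) (.ev (nat_lit 576)
 (nat_lit 2048) (.ev (nat_lit 1028) (nat_lit 70368744177664) (.nd (nat_lit 3232) (.br (nat_lit 8) (.br (nat_lit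
 7) (.ch (nat_lit 5) (.ev (nat_lit 3248) (nat_lit 2199023255552) (.ev (nat_lit 3684) (nat_lit 32) (.ev (nat_lit
 3693) (nat_lit 16777216) .dd)))) (.ch (nat_lit 7) (.ev (nat_lit 3248) (nat_lit 2199023255552) (.ev (nat_lit
 3684) (nat_lit 32) (.ev (nat_lit 3693) (nat_lit 16777216) .dd))))) (.br (nat_lit 10) (.ch (nat_lit 8) (.ev
 (nat_lit 3248) (nat_lit 16777216) (.ev (nat_lit 3684) (nat_lit 32) (.ev (nat_lit 3693) (nat_lit 2199023255552)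
 .dd)))) (.ch (nat_lit 10) (.ev (nat_lit 3248) (nat_lit 32) (.ev (nat_lit 3732) (nat_lit 2199023255552) (.ev
 (nat_lit 3741) (nat_lit 16777216) .dd)))))))))))) (.br (nat_lit 14) (.br (nat_lit 12) (.ch (nat_lit 10) (.ev
 (nat_lit 576) (nat_lit 16777216) (.ev (nat_lit 1412) (nat_lit 70368744177664) (.ev (nat_lit 1540) (nat_lit
 2048) (.ev (nat_lit 3684) (nat_lit 32) (.ev (nat_lit 3693) (nat_lit 2199023255552) .dd)))))) (.ch (nat_lit 12)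
 (.ev (nat_lit 576) (nat_lit 70368744179744) (.nd (nat_lit 2496) (.br (nat_lit 16) (.ch (nat_lit 2) (.ev
 (nat_lit 3008) (nat_lit 2199040032768) .dd)) (.ch (nat_lit 16) (.ev (nat_lit 3380) (nat_lit 2199023255552)
 (.ev (nat_lit 3389) (nat_lit 16777216) .dd)))))))) (.br (nat_lit 15) (.ch (nat_lit 14) (.ev (nat_lit 576)
 (nat_lit 2199023257600) (.ev (nat_lit 1412) (nat_lit 16777216) (.ev (nat_lit 3684) (nat_lit 70368744177664)
 (.ev (nat_lit 3693) (nat_lit 32) .dd))))) (.br (nat_lit 16) (.ch (nat_lit 15) (.ev (nat_lit 576) (nat_lit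
 2080) (.ev (nat_lit 596) (nat_lit 2199023255552) (.nd (nat_lit 2560) (.br (nat_lit 11) (.ch (nat_lit 2) (.nd
 (nat_lit 5280) (.br (nat_lit 16) (.ch (nat_lit 7) (.fin (nat_lit 576509680016638775))) (.ch (nat_lit 16) (.ev
 (nat_lit 5296) (nat_lit 70368744177664) (.ev (nat_lit 5309) (nat_lit 16777216) .dd)))))) (.ch (nat_lit 11)
 (.ev (nat_lit 2576) (nat_lit 70368744177664) (.ev (nat_lit 2589) (nat_lit 16777216) .dd)))))))) (.ch (nat_lit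
 16) (.ev (nat_lit 576) (nat_lit 72567784212480) (.ev (nat_lit 589) (nat_lit 32) .dd)))))))))) (.ch (nat_lit 7)
 (.ev (nat_lit 240) (nat_lit 67616) (.nd (nat_lit 608) (.br (nat_lit 5) (.br (nat_lit 2) (.br (nat_lit 1) (.ch
 (nat_lit 0) (.ev (nat_lit 624) (nat_lit 11063835758592) (.nd (nat_lit 2496) (.br (nat_lit 13) (.ch (nat_lit 1)
 (.ev (nat_lit 2512) (nat_lit 70368744177664) (.ev (nat_lit 2525) (nat_lit 16777216) .dd))) (.br (nat_lit 14)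
 (.ch (nat_lit 13) (.ev (nat_lit 2660) (nat_lit 70368744177664) (.ev (nat_lit 2669) (nat_lit 16777216) .dd)))
 (.ch (nat_lit 14) (.ev (nat_lit 2512) (nat_lit 70368744177664) (.ev (nat_lit 2525) (nat_lit 16777216)
 .dd)))))))) (.ch (nat_lit 1) (.ev (nat_lit 624) (nat_lit 10995116281856) (.ev (nat_lit 708) (nat_lit
 68719476736) (.nd (nat_lit 2560) (.br (nat_lit 12) (.br (nat_lit 3) (.ch (nat_lit 2) (.ev (nat_lit 2576)
 (nat_lit 70368760954880) .dd)) (.ch (nat_lit 3) (.ev (nat_lit 2576) (nat_lit 70368744177664) (.ev (nat_lit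
 2589) (nat_lit 16777216) .dd)))) (.br (nat_lit 13) (.ch (nat_lit 12) (.ev (nat_lit 2576) (nat_lit
 70368760954880) .dd)) (.br (nat_lit 16) (.ch (nat_lit 13) (.ev (nat_lit 2628) (nat_lit 16777216) (.ev (nat_lit
 2637) (nat_lit 70368744177664) .dd))) (.ch (nat_lit 16) (.fin (nat_lit 576558059084005969))))))))))) (.br
 (nat_lit 4) (.ch (nat_lit 2) (.ev (nat_lit 624) (nat_lit 70437480435712) (.ev (nat_lit 3536) (nat_lit
 8796093022208) (.ev (nat_lit 3549) (nat_lit 2199023255552) .dd)))) (.ch (nat_lit 4) (.ev (nat_lit 624)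
 (nat_lit 70437463658496) (.ev (nat_lit 772) (nat_lit 8796093022208) (.ev (nat_lit 3524) (nat_lit
 2199023255552) (.ev (nat_lit 3533) (nat_lit 16777216) .dd))))))) (.br (nat_lit 10) (.br (nat_lit 7) (.ch
 (nat_lit 5) (.ev (nat_lit 624) (nat_lit 70368760954880) (.ev (nat_lit 708) (nat_lit 2267742732288) (.ev
 (nat_lit 1028) (nat_lit 4096) (.ev (nat_lit 1037) (nat_lit 8796093022208) .dd))))) (.ch (nat_lit 7) (.ev
 (nat_lit 624) (nat_lit 10995133054976) (.ev (nat_lit 708) (nat_lit 68719476736) (.ev (nat_lit 868) (nat_lit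
 70368744177664) (.ev (nat_lit 877) (nat_lit 4096) .dd)))))) (.br (nat_lit 15) (.ch (nat_lit 10) (.ev (nat_lit
 624) (nat_lit 70368744177664) (.ev (nat_lit 1028) (nat_lit 4096) (.nd (nat_lit 2560) (.br (nat_lit 4) (.ch
 (nat_lit 3) (.ev (nat_lit 3172) (nat_lit 2199023255552) (.ev (nat_lit 3380) (nat_lit 8796093022208) (.nd
 (nat_lit 5312) (.br (nat_lit 8) (.ch (nat_lit 6) (.ev (nat_lit 5328) (nat_lit 68736253952) .dd)) (.ch (nat_lit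
 8) (.fin (nat_lit 576415122568200763)))))))) (.br (nat_lit 10) (.ch (nat_lit 4) (.ev (nat_lit 2576) (nat_lit
 10995133054976) (.ev (nat_lit 2589) (nat_lit 68719476736) .dd))) (.ch (nat_lit 10) (.ev (nat_lit 2576)
 (nat_lit 2199040032768) (.ev (nat_lit 3268) (nat_lit 68719476736) (.ev (nat_lit 3277) (nat_lit 8796093022208)
 .dd)))))))))) (.br (nat_lit 16) (.ch (nat_lit 15) (.ev (nat_lit 624) (nat_lit 8796109803520) (.nd (nat_lit
 2560) (.br (nat_lit 11) (.ch (nat_lit 1) (.ev (nat_lit 2576) (nat_lit 68719476736) (.ev (nat_lit 3172)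
 (nat_lit 2199023255552) (.ev (nat_lit 3181) (nat_lit 70368744177664) .dd)))) (.br (nat_lit 13) (.ch (nat_lit
 11) (.ev (nat_lit 2576) (nat_lit 68719476736) (.fin (nat_lit 576471197686383210)))) (.ch (nat_lit 13) (.ev
 (nat_lit 2576) (nat_lit 70368744177664) (.ev (nat_lit 3380) (nat_lit 2199023255552) (.ev (nat_lit 3389)
 (nat_lit 68719476736) .dd))))))))) (.ch (nat_lit 16) (.ev (nat_lit 624) (nat_lit 2267742736384) (.ev (nat_lit
 836) (nat_lit 70368744177664) (.nd (nat_lit 3120) (.br (nat_lit 9) (.ch (nat_lit 6) (.ev (nat_lit 3332)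
 (nat_lit 16777216) (.ev (nat_lit 3341) (nat_lit 8796093022208) .dd))) (.br (nat_lit 11) (.ch (nat_lit 9) (.ev
 (nat_lit 3136) (nat_lit 8796093022208) (.ev (nat_lit 3149) (nat_lit 16777216) .dd))) (.ch (nat_lit 11) (.ev
 (nat_lit 3600) (nat_lit 8796109799424) .dd))))))))))))))))) (.br (nat_lit 13) (.br (nat_lit 9) (.ch (nat_lit
 8) (.ev (nat_lit 240) (nat_lit 10995116347392) (.nd (nat_lit 560) (.br (nat_lit 7) (.br (nat_lit 5) (.br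
 (nat_lit 4) (.ch (nat_lit 2) (.ev (nat_lit 576) (nat_lit 68736256000) (.ev (nat_lit 2228) (nat_lit 32) (.ev
 (nat_lit 2237) (nat_lit 70368744177664) .dd)))) (.ch (nat_lit 4) (.ev (nat_lit 576) (nat_lit 70437463654432)
 (.ev (nat_lit 3776) (nat_lit 16779264) .dd)))) (.br (nat_lit 6) (.ch (nat_lit 5) (.ev (nat_lit 576) (nat_lit
 70437463654400) (.nd (nat_lit 3120) (.br (nat_lit 7) (.ch (nat_lit 2) (.ev (nat_lit 3136) (nat_lit 16777248)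
 (.ev (nat_lit 3149) (nat_lit 2048) .dd))) (.br (nat_lit 11) (.ch (nat_lit 7) (.ev (nat_lit 3136) (nat_lit
 16779264) (.ev (nat_lit 3149) (nat_lit 32) .dd))) (.ch (nat_lit 11) (.ev (nat_lit 3332) (nat_lit 16777216)
 (.ev (nat_lit 3648) (nat_lit 2048) (.ev (nat_lit 3661) (nat_lit 32) .dd))))))))) (.ch (nat_lit 6) (.ev
 (nat_lit 576) (nat_lit 68736253984) (.fin (nat_lit 576676806481363438)))))) (.br (nat_lit 13) (.br (nat_lit 8)
 (.ch (nat_lit 7) (.ev (nat_lit 576) (nat_lit 68736253952) (.ev (nat_lit 772) (nat_lit 2048) (.nd (nat_lit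
 3120) (.br (nat_lit 6) (.ch (nat_lit 4) (.ev (nat_lit 3136) (nat_lit 70368744177664) (.ev (nat_lit 3149)
 (nat_lit 32) .dd))) (.ch (nat_lit 6) (.ev (nat_lit 3524) (nat_lit 32) (.ev (nat_lit 3533) (nat_lit
 70368744177664) .dd)))))))) (.ch (nat_lit 8) (.ev (nat_lit 576) (nat_lit 70368744179712) (.ev (nat_lit 1236)
 (nat_lit 16777216) (.ev (nat_lit 2752) (nat_lit 68719476768) .dd))))) (.br (nat_lit 15) (.ch (nat_lit 13) (.ev
 (nat_lit 576) (nat_lit 70437463654432) (.ev (nat_lit 772) (nat_lit 2048) (.ev (nat_lit 781) (nat_lit 16777216)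
 .dd)))) (.ch (nat_lit 15) (.ev (nat_lit 576) (nat_lit 70368744179712) (.ev (nat_lit 1540) (nat_lit
 68719476736) (.nd (nat_lit 4384) (.br (nat_lit 7) (.ch (nat_lit 4) (.fin (nat_lit 576351350875963878))) (.br
 (nat_lit 15) (.ch (nat_lit 7) (.ev (nat_lit 4400) (nat_lit 16777248) .dd)) (.ch (nat_lit 15) (.ev (nat_lit
 4400) (nat_lit 32) (.ev (nat_lit 4413) (nat_lit 16777216) .dd))))))))))))))) (.ch (nat_lit 9) (.ev (nat_lit
 240) (nat_lit 81432579999776) (.nd (nat_lit 1136) (.br (nat_lit 6) (.br (nat_lit 2) (.ch (nat_lit 0) (.ev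
 (nat_lit 3460) (nat_lit 16777216) (.ev (nat_lit 3469) (nat_lit 4096) .dd))) (.br (nat_lit 3) (.ch (nat_lit 2)
 (.ev (nat_lit 1152) (nat_lit 16781312) .dd)) (.ch (nat_lit 3) (.ev (nat_lit 1152) (nat_lit 4096) (.ev (nat_lit
 1165) (nat_lit 16777216) .dd))))) (.br (nat_lit 14) (.br (nat_lit 13) (.ch (nat_lit 6) (.ev (nat_lit 1152)
 (nat_lit 16781312) .dd)) (.ch (nat_lit 13) (.ev (nat_lit 1152) (nat_lit 4096) (.ev (nat_lit 1165) (nat_lit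
 16777216) .dd)))) (.br (nat_lit 15) (.ch (nat_lit 14) (.ev (nat_lit 1152) (nat_lit 16777216) (.ev (nat_lit
 1165) (nat_lit 4096) .dd))) (.ch (nat_lit 15) (.ev (nat_lit 1152) (nat_lit 16781312) .dd))))))))) (.br
 (nat_lit 15) (.ch (nat_lit 13) (.ev (nat_lit 240) (nat_lit 2199040034848) (.nd (nat_lit 736) (.br (nat_lit 10)
 (.br (nat_lit 7) (.br (nat_lit 2) (.ch (nat_lit 1) (.ev (nat_lit 752) (nat_lit 8796093026304) (.ev (nat_lit
 3732) (nat_lit 70437463654400) (.ev (nat_lit 3741) (nat_lit 65536) .dd)))) (.ch (nat_lit 2) (.ev (nat_lit 752)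
 (nat_lit 79164837265408) (.ev (nat_lit 836) (nat_lit 68719476736) (.ev (nat_lit 845) (nat_lit 4096) .dd)))))
 (.br (nat_lit 9) (.ch (nat_lit 7) (.ev (nat_lit 752) (nat_lit 70368744181760) (.ev (nat_lit 1204) (nat_lit
 8796093022208) (.ev (nat_lit 1972) (nat_lit 65536) (.ev (nat_lit 1981) (nat_lit 68719476736) .dd))))) (.ch
 (nat_lit 9) (.ev (nat_lit 752) (nat_lit 79233556746240) .dd)))) (.br (nat_lit 14) (.br (nat_lit 11) (.ch
 (nat_lit 10) (.ev (nat_lit 752) (nat_lit 4096) (.ev (nat_lit 1172) (nat_lit 8796093022208) (.ev (nat_lit 1412)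
 (nat_lit 70368744177664) (.ev (nat_lit 1876) (nat_lit 68719476736) (.ev (nat_lit 1885) (nat_lit 65536)
 .dd)))))) (.ch (nat_lit 11) (.ev (nat_lit 752) (nat_lit 79233556680704) (.ev (nat_lit 765) (nat_lit 65536)
 .dd)))) (.br (nat_lit 15) (.ch (nat_lit 14) (.ev (nat_lit 752) (nat_lit 70437463719936) (.ev (nat_lit 1172)
 (nat_lit 8796093022208) (.ev (nat_lit 1181) (nat_lit 4096) .dd)))) (.ch (nat_lit 15) (.ev (nat_lit 752)
 (nat_lit 8796093087744) (.ev (nat_lit 836) (nat_lit 68719476736) (.fin (nat_lit 576423918717845913)))))))))))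
 (.br (nat_lit 16) (.ch (nat_lit 15) (.ev (nat_lit 240) (nat_lit 72636503756832) (.nd (nat_lit 1136) (.br
 (nat_lit 12) (.br (nat_lit 2) (.ch (nat_lit 1) (.ev (nat_lit 1172) (nat_lit 2048) (.ev (nat_lit 1181) (nat_lit
 8796093022208) .dd))) (.br (nat_lit 10) (.ch (nat_lit 2) (.ev (nat_lit 1152) (nat_lit 2048) (.ev (nat_lit
 1165) (nat_lit 8796093022208) .dd))) (.ch (nat_lit 10) (.ev (nat_lit 1152) (nat_lit 8796093022208) (.ev
 (nat_lit 1165) (nat_lit 2048) .dd))))) (.br (nat_lit 15) (.ch (nat_lit 12) (.ev (nat_lit 1172) (nat_lit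
 8796093022208) (.ev (nat_lit 1181) (nat_lit 2048) .dd))) (.br (nat_lit 16) (.ch (nat_lit 15) (.ev (nat_lit
 1152) (nat_lit 2048) (.ev (nat_lit 1165) (nat_lit 8796093022208) .dd))) (.ch (nat_lit 16) (.ev (nat_lit 1152)
 (nat_lit 2048) (.ev (nat_lit 1165) (nat_lit 8796093022208) .dd))))))))) (.ch (nat_lit 16) (.ev (nat_lit 240)
 (nat_lit 68736253984) (.nd (nat_lit 800) (.br (nat_lit 9) (.br (nat_lit 6) (.br (nat_lit 5) (.ch (nat_lit 2)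
 (.ev (nat_lit 816) (nat_lit 10995116277760) (.ev (nat_lit 932) (nat_lit 2048) (.ev (nat_lit 1300) (nat_lit
 4096) (.ev (nat_lit 3732) (nat_lit 65536) (.ev (nat_lit 3741) (nat_lit 70368744177664) .dd)))))) (.ch (nat_lit
 5) (.ev (nat_lit 816) (nat_lit 71680) (.ev (nat_lit 1060) (nat_lit 2199023255552) (.ev (nat_lit 3648) (nat_lit
 70368744177664) (.ev (nat_lit 3661) (nat_lit 8796093022208) .dd)))))) (.br (nat_lit 8) (.ch (nat_lit 6) (.ev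
 (nat_lit 816) (nat_lit 72567767439360) (.ev (nat_lit 2228) (nat_lit 65536) (.ev (nat_lit 2237) (nat_lit
 8796093022208) .dd)))) (.ch (nat_lit 8) (.ev (nat_lit 816) (nat_lit 10995116279808) (.ev (nat_lit 1172)
 (nat_lit 70368744177664) (.ev (nat_lit 3988) (nat_lit 4096) (.ev (nat_lit 3997) (nat_lit 65536) .dd)))))))
 (.br (nat_lit 14) (.br (nat_lit 13) (.ch (nat_lit 9) (.ev (nat_lit 816) (nat_lit 70368744183808) (.ev (nat_lit
 1216) (nat_lit 65536) (.ev (nat_lit 3952) (nat_lit 8796093022208) (.ev (nat_lit 3965) (nat_lit 2199023255552)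
 .dd))))) (.ch (nat_lit 13) (.ev (nat_lit 816) (nat_lit 70368744179712) (.ev (nat_lit 916) (nat_lit
 8796093022208) (.ev (nat_lit 1204) (nat_lit 4096) (.ev (nat_lit 1796) (nat_lit 2199023255552) (.ev (nat_lit
 1805) (nat_lit 65536) .dd))))))) (.br (nat_lit 15) (.ch (nat_lit 14) (.ev (nat_lit 816) (nat_lit
 70368744243200) (.nd (nat_lit 2560) (.br (nat_lit 10) (.ch (nat_lit 0) (.ev (nat_lit 2576) (nat_lit
 8796093026304) (.ev (nat_lit 3840) (nat_lit 2199023257600) .dd))) (.br (nat_lit 15) (.ch (nat_lit 10) (.ev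
 (nat_lit 2576) (nat_lit 10995116277760) (.fin (nat_lit 576382137247678954)))) (.ch (nat_lit 15) (.ev (nat_lit
 2576) (nat_lit 2199023257600) (.ev (nat_lit 2820) (nat_lit 8796093022208) (.ev (nat_lit 2829) (nat_lit 4096)
 .dd))))))))) (.br (nat_lit 16) (.ch (nat_lit 15) (.ev (nat_lit 816) (nat_lit 10995116349440) (.ev (nat_lit
 829) (nat_lit 70368744177664) .dd))) (.ch (nat_lit 16) (.ev (nat_lit 816) (nat_lit 8796093087744) (.ev
 (nat_lit 1236) (nat_lit 4096) (.ev (nat_lit 3524) (nat_lit 2048) (.ev (nat_lit 3856) (nat_lit 72567767433216)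
 .dd))))))))))))))))))) (.br (nat_lit 16) (.ch (nat_lit 15) (.ev (nat_lit 48) (nat_lit 79235989441056) (.nd
 (nat_lit 336) (.br (nat_lit 6) (.br (nat_lit 3) (.br (nat_lit 2) (.ch (nat_lit 0) (.ev (nat_lit 352) (nat_lit
 565148976807936) (.ev (nat_lit 372) (nat_lit 2097152) (.nd (nat_lit 976) (.br (nat_lit 11) (.br (nat_lit 6)
 (.br (nat_lit 5) (.ch (nat_lit 3) (.ev (nat_lit 992) (nat_lit 18141941862400) (.ev (nat_lit 1028) (nat_lit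
 4503599627370496) (.ev (nat_lit 1037) (nat_lit 1024) .dd)))) (.ch (nat_lit 5) (.ev (nat_lit 992) (nat_lit
 18141941862400) (.ev (nat_lit 1028) (nat_lit 4503599627370496) (.ev (nat_lit 1037) (nat_lit 1024) .dd)))))
 (.br (nat_lit 10) (.ch (nat_lit 6) (.ev (nat_lit 992) (nat_lit 4503599627371520) (.ev (nat_lit 1540) (nat_lit
 17592186044416) (.ev (nat_lit 1552) (nat_lit 549755813888) (.ev (nat_lit 1565) (nat_lit 4096) .dd))))) (.ch
 (nat_lit 10) (.ev (nat_lit 992) (nat_lit 4521191813420032) (.ev (nat_lit 1005) (nat_lit 549755813888) .dd)))))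
 (.br (nat_lit 13) (.br (nat_lit 12) (.ch (nat_lit 11) (.ev (nat_lit 992) (nat_lit 18141941858304) (.ev
 (nat_lit 1444) (nat_lit 1024) (.ev (nat_lit 3892) (nat_lit 4096) (.ev (nat_lit 3901) (nat_lit
 4503599627370496) .dd))))) (.ch (nat_lit 12) (.ev (nat_lit 992) (nat_lit 4504149383184384) (.ev (nat_lit 1444)
 (nat_lit 1024) (.ev (nat_lit 3828) (nat_lit 4096) (.ev (nat_lit 3837) (nat_lit 17592186044416) .dd)))))) (.br
 (nat_lit 14) (.ch (nat_lit 13) (.ev (nat_lit 992) (nat_lit 17592186045440) (.ev (nat_lit 1412) (nat_lit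
 549755813888) (.ev (nat_lit 2932) (nat_lit 4096) (.ev (nat_lit 2941) (nat_lit 4503599627370496) .dd))))) (.br
 (nat_lit 15) (.ch (nat_lit 14) (.ev (nat_lit 992) (nat_lit 4521191813419008) (.ev (nat_lit 1392) (nat_lit
 549755814912) .dd))) (.ch (nat_lit 15) (.ev (nat_lit 992) (nat_lit 18141941859328) (.ev (nat_lit 1092)
 (nat_lit 4096) (.ev (nat_lit 1101) (nat_lit 4503599627370496) .dd)))))))))))) (.ch (nat_lit 2) (.ev (nat_lit
 352) (nat_lit 580542139465728) (.ev (nat_lit 500) (nat_lit 1024) (.nd (nat_lit 736) (.br (nat_lit 7) (.br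
 (nat_lit 4) (.br (nat_lit 2) (.ch (nat_lit 0) (.ev (nat_lit 752) (nat_lit 4506348406439936) (.ev (nat_lit
 1924) (nat_lit 2097152) (.ev (nat_lit 3296) (nat_lit 131072) (.ev (nat_lit 3309) (nat_lit 4096) .dd))))) (.ch
 (nat_lit 2) (.ev (nat_lit 752) (nat_lit 2748779204608) (.ev (nat_lit 3892) (nat_lit 2097152) (.ev (nat_lit
 3901) (nat_lit 4503599627370496) .dd))))) (.br (nat_lit 6) (.ch (nat_lit 4) (.ev (nat_lit 752) (nat_lit
 2748781166592) (.ev (nat_lit 772) (nat_lit 131072) (.nd (nat_lit 4272) (.br (nat_lit 9) (.ch (nat_lit 0) (.nd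
 (nat_lit 5984) (.br (nat_lit 10) (.ch (nat_lit 9) (.ev (nat_lit 6000) (nat_lit 4503599627374592) .dd)) (.ch
 (nat_lit 10) (.fin (nat_lit 576456904002716342)))))) (.ch (nat_lit 9) (.ev (nat_lit 4288) (nat_lit 4096) (.ev
 (nat_lit 4301) (nat_lit 4503599627370496) .dd)))))))) (.ch (nat_lit 6) (.ev (nat_lit 752) (nat_lit
 4503599627505664) (.ev (nat_lit 772) (nat_lit 2097152) (.ev (nat_lit 1028) (nat_lit 2199023255552) (.ev
 (nat_lit 1037) (nat_lit 549755813888) .dd))))))) (.br (nat_lit 12) (.br (nat_lit 8) (.ch (nat_lit 7) (.ev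
 (nat_lit 752) (nat_lit 2199023259648) (.ev (nat_lit 772) (nat_lit 549755813888) (.ev (nat_lit 1540) (nat_lit
 2097152) (.ev (nat_lit 3952) (nat_lit 4503599627501568) .dd))))) (.ch (nat_lit 8) (.ev (nat_lit 752) (nat_lit
 549757911040) (.ev (nat_lit 1204) (nat_lit 2199023255552) (.ev (nat_lit 1444) (nat_lit 4096) (.ev (nat_lit
 2628) (nat_lit 131072) (.ev (nat_lit 2637) (nat_lit 4503599627370496) .dd))))))) (.br (nat_lit 14) (.ch
 (nat_lit 12) (.ev (nat_lit 752) (nat_lit 2748779204608) (.ev (nat_lit 1940) (nat_lit 4503599627370496) (.ev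
 (nat_lit 1949) (nat_lit 2097152) .dd)))) (.br (nat_lit 16) (.ch (nat_lit 14) (.ev (nat_lit 752) (nat_lit
 4505798652854272) (.ev (nat_lit 772) (nat_lit 4096) (.ev (nat_lit 781) (nat_lit 549755813888) .dd)))) (.ch
 (nat_lit 16) (.ev (nat_lit 752) (nat_lit 4503599629467648) (.ev (nat_lit 772) (nat_lit 4096) (.ev (nat_lit
 1028) (nat_lit 2199023255552) (.ev (nat_lit 2228) (nat_lit 549755813888) (.ev (nat_lit 2237) (nat_lit 131072)
 .dd))))))))))))))) (.br (nat_lit 5) (.ch (nat_lit 3) (.ev (nat_lit 352) (nat_lit 4523940594716672) (.nd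
 (nat_lit 1344) (.br (nat_lit 14) (.br (nat_lit 5) (.ch (nat_lit 3) (.ev (nat_lit 1376) (nat_lit
 562949953422336) .dd)) (.br (nat_lit 8) (.ch (nat_lit 5) (.ev (nat_lit 1360) (nat_lit 1024) (.ev (nat_lit
 1373) (nat_lit 562949953421312) .dd))) (.ch (nat_lit 8) (.ev (nat_lit 1360) (nat_lit 562949953422336) .dd))))
 (.br (nat_lit 15) (.ch (nat_lit 14) (.ev (nat_lit 1360) (nat_lit 562949953422336) .dd)) (.br (nat_lit 16) (.ch
 (nat_lit 15) (.ev (nat_lit 1360) (nat_lit 562949953421312) (.ev (nat_lit 1373) (nat_lit 1024) .dd))) (.ch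
 (nat_lit 16) (.ev (nat_lit 1360) (nat_lit 1024) (.ev (nat_lit 1373) (nat_lit 562949953421312) .dd)))))))))
 (.ch (nat_lit 5) (.ev (nat_lit 352) (nat_lit 563499711467520) (.nd (nat_lit 976) (.br (nat_lit 7) (.br
 (nat_lit 4) (.br (nat_lit 2) (.ch (nat_lit 1) (.ev (nat_lit 992) (nat_lit 17592186045440) (.ev (nat_lit 1300)
 (nat_lit 2199023255552) (.ev (nat_lit 1309) (nat_lit 4503599627370496) .dd)))) (.ch (nat_lit 2) (.ev (nat_lit
 992) (nat_lit 4505798650626048) (.ev (nat_lit 1280) (nat_lit 17592186045440) .dd)))) (.br (nat_lit 6) (.ch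
 (nat_lit 4) (.ev (nat_lit 992) (nat_lit 4521191813414912) (.ev (nat_lit 1412) (nat_lit 1024) (.ev (nat_lit
 1421) (nat_lit 2199023255552) .dd)))) (.ch (nat_lit 6) (.ev (nat_lit 992) (nat_lit 4523390836671488) .dd))))
 (.br (nat_lit 11) (.br (nat_lit 9) (.ch (nat_lit 7) (.ev (nat_lit 992) (nat_lit 4505798650627072) (.ev
 (nat_lit 1005) (nat_lit 17592186044416) .dd))) (.ch (nat_lit 9) (.ev (nat_lit 992) (nat_lit 4503599627371520)
 (.fin (nat_lit 576456904019493442))))) (.br (nat_lit 14) (.ch (nat_lit 11) (.ev (nat_lit 1172) (nat_lit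
 4503599627370496) (.ev (nat_lit 1412) (nat_lit 1024) (.ev (nat_lit 1444) (nat_lit 17592186044416) (.ev
 (nat_lit 1453) (nat_lit 2199023255552) .dd))))) (.br (nat_lit 15) (.ch (nat_lit 14) (.ev (nat_lit 992)
 (nat_lit 17592186044416) (.ev (nat_lit 1028) (nat_lit 2199023255552) (.ev (nat_lit 1412) (nat_lit 1024) (.ev
 (nat_lit 1421) (nat_lit 4503599627370496) .dd))))) (.ch (nat_lit 15) (.ev (nat_lit 992) (nat_lit
 4505798650626048) (.ev (nat_lit 1492) (nat_lit 17592186044416) (.ev (nat_lit 1501) (nat_lit 1024)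
 .dd))))))))))))) (.br (nat_lit 9) (.br (nat_lit 8) (.ch (nat_lit 6) (.ev (nat_lit 352) (nat_lit
 4521741569233920) (.nd (nat_lit 880) (.br (nat_lit 10) (.br (nat_lit 4) (.br (nat_lit 2) (.ch (nat_lit 1) (.ev
 (nat_lit 896) (nat_lit 562949955518464) (.ev (nat_lit 3892) (nat_lit 131072) (.ev (nat_lit 3901) (nat_lit
 2199023255552) .dd)))) (.ch (nat_lit 2) (.ev (nat_lit 896) (nat_lit 2199025483776) (.ev (nat_lit 909) (nat_lit
 562949953421312) .dd)))) (.br (nat_lit 9) (.ch (nat_lit 4) (.ev (nat_lit 896) (nat_lit 565148976676864) (.ev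
 (nat_lit 1172) (nat_lit 2097152) (.ev (nat_lit 1181) (nat_lit 131072) .dd)))) (.ch (nat_lit 9) (.ev (nat_lit
 896) (nat_lit 2199025352704) (.ev (nat_lit 932) (nat_lit 131072) (.ev (nat_lit 941) (nat_lit 562949953421312)
 .dd)))))) (.br (nat_lit 15) (.br (nat_lit 13) (.ch (nat_lit 10) (.ev (nat_lit 896) (nat_lit 2097152) (.ev
 (nat_lit 2884) (nat_lit 2199023255552) (.ev (nat_lit 3524) (nat_lit 562949953421312) (.ev (nat_lit 3533)
 (nat_lit 131072) .dd))))) (.ch (nat_lit 13) (.ev (nat_lit 896) (nat_lit 562949953421312) (.ev (nat_lit 916)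
 (nat_lit 131072) (.ev (nat_lit 1172) (nat_lit 2097152) (.ev (nat_lit 1181) (nat_lit 2199023255552) .dd))))))
 (.br (nat_lit 16) (.ch (nat_lit 15) (.ev (nat_lit 896) (nat_lit 565148976807936) (.ev (nat_lit 909) (nat_lit
 2097152) .dd))) (.ch (nat_lit 16) (.ev (nat_lit 896) (nat_lit 2199025483776) (.ev (nat_lit 909) (nat_lit
 562949953421312) .dd))))))))) (.ch (nat_lit 8) (.ev (nat_lit 352) (nat_lit 5067099336605696) (.nd (nat_lit
 672) (.br (nat_lit 4) (.br (nat_lit 2) (.br (nat_lit 1) (.ch (nat_lit 0) (.ev (nat_lit 688) (nat_lit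
 17592188272640) (.ev (nat_lit 3620) (nat_lit 1024) (.ev (nat_lit 3828) (nat_lit 2199023255552) (.ev (nat_lit
 3837) (nat_lit 4096) .dd))))) (.ch (nat_lit 1) (.ev (nat_lit 688) (nat_lit 19791211533312) .dd))) (.br
 (nat_lit 3) (.ch (nat_lit 2) (.ev (nat_lit 688) (nat_lit 132096) (.ev (nat_lit 772) (nat_lit 4096) (.nd
 (nat_lit 3232) (.br (nat_lit 14) (.ch (nat_lit 1) (.ev (nat_lit 3248) (nat_lit 19791209299968) (.ev (nat_lit
 3261) (nat_lit 2097152) .dd))) (.ch (nat_lit 14) (.ev (nat_lit 3248) (nat_lit 2097152) (.ev (nat_lit 3940)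
 (nat_lit 2199023255552) (.ev (nat_lit 3949) (nat_lit 17592186044416) .dd))))))))) (.ch (nat_lit 3) (.ev
 (nat_lit 688) (nat_lit 19791211397120) (.ev (nat_lit 1412) (nat_lit 1024) (.fin (nat_lit
 576465700111467077))))))) (.br (nat_lit 7) (.br (nat_lit 6) (.ch (nat_lit 4) (.ev (nat_lit 688) (nat_lit 5120)
 (.ev (nat_lit 1204) (nat_lit 17592186044416) (.ev (nat_lit 3712) (nat_lit 2199023255552) (.ev (nat_lit 3732)
 (nat_lit 2097152) (.ev (nat_lit 3741) (nat_lit 131072) .dd)))))) (.ch (nat_lit 6) (.ev (nat_lit 688) (nat_lit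
 19791209431040) (.ev (nat_lit 1412) (nat_lit 1024) (.ev (nat_lit 2228) (nat_lit 2097152) (.ev (nat_lit 2237)
 (nat_lit 4096) .dd)))))) (.br (nat_lit 8) (.ch (nat_lit 7) (.ev (nat_lit 688) (nat_lit 19791209435136) (.ev
 (nat_lit 3488) (nat_lit 2097152) (.ev (nat_lit 3501) (nat_lit 1024) .dd)))) (.br (nat_lit 12) (.ch (nat_lit 8)
 (.ev (nat_lit 688) (nat_lit 17592186048512) (.ev (nat_lit 1412) (nat_lit 1024) (.ev (nat_lit 2788) (nat_lit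
 2097152) (.ev (nat_lit 4004) (nat_lit 131072) (.ev (nat_lit 4013) (nat_lit 2199023255552) .dd)))))) (.ch
 (nat_lit 12) (.ev (nat_lit 688) (nat_lit 2229248) (.ev (nat_lit 788) (nat_lit 4096) (.ev (nat_lit 2868)
 (nat_lit 2199023255552) (.ev (nat_lit 2877) (nat_lit 17592186044416) .dd))))))))))))) (.br (nat_lit 13) (.ch
 (nat_lit 9) (.ev (nat_lit 352) (nat_lit 580542141568000) (.nd (nat_lit 800) (.br (nat_lit 7) (.br (nat_lit 4)
 (.ch (nat_lit 2) (.ev (nat_lit 816) (nat_lit 4503599627501568) (.ev (nat_lit 1504) (nat_lit 2748779069440)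
 .dd))) (.br (nat_lit 6) (.ch (nat_lit 4) (.ev (nat_lit 816) (nat_lit 549755813888) (.ev (nat_lit 2820)
 (nat_lit 4503599627370496) (.ev (nat_lit 3892) (nat_lit 131072) (.ev (nat_lit 3901) (nat_lit 2199023255552)
 .dd))))) (.ch (nat_lit 6) (.ev (nat_lit 816) (nat_lit 2748779069440) (.ev (nat_lit 1316) (nat_lit
 4503599627370496) (.ev (nat_lit 1325) (nat_lit 131072) .dd)))))) (.br (nat_lit 11) (.br (nat_lit 8) (.ch
 (nat_lit 7) (.ev (nat_lit 816) (nat_lit 2199023255552) (.ev (nat_lit 1236) (nat_lit 4503599627370496) (.ev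
 (nat_lit 1504) (nat_lit 131072) (.ev (nat_lit 1517) (nat_lit 549755813888) .dd))))) (.ch (nat_lit 8) (.ev
 (nat_lit 816) (nat_lit 4505798650757120) (.ev (nat_lit 829) (nat_lit 549755813888) .dd)))) (.br (nat_lit 14)
 (.ch (nat_lit 11) (.ev (nat_lit 816) (nat_lit 4506348406571008) .dd)) (.ch (nat_lit 14) (.ev (nat_lit 816)
 (nat_lit 4506348406571008) .dd)))))))) (.br (nat_lit 14) (.ch (nat_lit 13) (.ev (nat_lit 352) (nat_lit
 4505798652859392) (.nd (nat_lit 976) (.br (nat_lit 12) (.br (nat_lit 9) (.ch (nat_lit 5) (.ev (nat_lit 992)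
 (nat_lit 562949953421312) (.ev (nat_lit 1172) (nat_lit 549755813888) (.ev (nat_lit 1181) (nat_lit
 17592186044416) .dd)))) (.br (nat_lit 11) (.ch (nat_lit 9) (.ev (nat_lit 992) (nat_lit 580542139465728) (.ev
 (nat_lit 1005) (nat_lit 549755813888) .dd))) (.ch (nat_lit 11) (.ev (nat_lit 992) (nat_lit 18141941858304)
 (.ev (nat_lit 1005) (nat_lit 562949953421312) .dd))))) (.br (nat_lit 14) (.ch (nat_lit 12) (.ev (nat_lit 992)
 (nat_lit 563499709235200) (.ev (nat_lit 1005) (nat_lit 17592186044416) .dd))) (.br (nat_lit 16) (.ch (nat_lit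
 14) (.ev (nat_lit 992) (nat_lit 17592186044416) (.fin (nat_lit 576313967481668033)))) (.ch (nat_lit 16) (.ev
 (nat_lit 992) (nat_lit 563499709235200) (.ev (nat_lit 1005) (nat_lit 17592186044416) .dd))))))))) (.ch
 (nat_lit 14) (.ev (nat_lit 352) (nat_lit 2748779074560) (.nd (nat_lit 736) (.br (nat_lit 11) (.br (nat_lit 6)
 (.br (nat_lit 5) (.ch (nat_lit 1) (.ev (nat_lit 752) (nat_lit 5066549580791808) (.ev (nat_lit 1588) (nat_lit
 2097152) (.ev (nat_lit 2832) (nat_lit 131072) (.ev (nat_lit 2845) (nat_lit 17592186044416) .dd))))) (.ch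
 (nat_lit 5) (.ev (nat_lit 752) (nat_lit 2228224) (.ev (nat_lit 1060) (nat_lit 562949953421312) (.ev (nat_lit
 3892) (nat_lit 4503599627370496) (.ev (nat_lit 3901) (nat_lit 17592186044416) .dd)))))) (.br (nat_lit 9) (.ch
 (nat_lit 6) (.ev (nat_lit 752) (nat_lit 5066549580791808) (.ev (nat_lit 3684) (nat_lit 131072) (.ev (nat_lit
 4020) (nat_lit 17592186044416) (.ev (nat_lit 4029) (nat_lit 2097152) .dd))))) (.ch (nat_lit 9) (.ev (nat_lit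
 752) (nat_lit 4521191813545984) (.ev (nat_lit 772) (nat_lit 2097152) (.ev (nat_lit 781) (nat_lit
 562949953421312) .dd)))))) (.br (nat_lit 13) (.br (nat_lit 12) (.ch (nat_lit 11) (.ev (nat_lit 752) (nat_lit
 562949955518464) (.ev (nat_lit 3648) (nat_lit 17592186044416) (.ev (nat_lit 3828) (nat_lit 4503599627370496)
 (.ev (nat_lit 3837) (nat_lit 131072) .dd))))) (.ch (nat_lit 12) (.ev (nat_lit 752) (nat_lit 17592188141568)
 (.ev (nat_lit 3684) (nat_lit 131072) (.nd (nat_lit 5024) (.br (nat_lit 9) (.ch (nat_lit 5) (.fin (nat_lit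
 576454704982606407))) (.br (nat_lit 11) (.ch (nat_lit 9) (.ev (nat_lit 5040) (nat_lit 562949953421312) (.ev
 (nat_lit 5053) (nat_lit 4503599627370496) .dd))) (.ch (nat_lit 11) (.ev (nat_lit 5040) (nat_lit
 4503599627370496) (.ev (nat_lit 5053) (nat_lit 562949953421312) .dd)))))))))) (.br (nat_lit 16) (.ch (nat_lit
 13) (.ev (nat_lit 752) (nat_lit 580542141693952) (.ev (nat_lit 765) (nat_lit 4503599627370496) .dd))) (.ch
 (nat_lit 16) (.ev (nat_lit 752) (nat_lit 2097152) (.ev (nat_lit 772) (nat_lit 131072) (.ev (nat_lit 1184)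
 (nat_lit 562949953421312) (.ev (nat_lit 3776) (nat_lit 4521191813414912) .dd)))))))))))))))))) (.ch (nat_lit
 16) (.ev (nat_lit 48) (nat_lit 5155062684848640) (.nd (nat_lit 160) (.br (nat_lit 8) (.br (nat_lit 4) (.br
 (nat_lit 2) (.ch (nat_lit 0) (.ev (nat_lit 176) (nat_lit 2267759511552) (.nd (nat_lit 560) (.br (nat_lit 9)
 (.br (nat_lit 3) (.br (nat_lit 1) (.ch (nat_lit 0) (.ev (nat_lit 576) (nat_lit 65568) (.ev (nat_lit 1764)
 (nat_lit 131072) (.ev (nat_lit 3280) (nat_lit 8796093022208) (.ev (nat_lit 3293) (nat_lit 1024) .dd))))) (.ch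
 (nat_lit 1) (.ev (nat_lit 576) (nat_lit 8796093219872) .dd))) (.br (nat_lit 4) (.ch (nat_lit 3) (.ev (nat_lit
 576) (nat_lit 32) (.ev (nat_lit 644) (nat_lit 131072) (.nd (nat_lit 2496) (.br (nat_lit 13) (.br (nat_lit 6)
 (.ch (nat_lit 1) (.ev (nat_lit 2512) (nat_lit 8796093023232) (.ev (nat_lit 2525) (nat_lit 65536) .dd))) (.ch
 (nat_lit 6) (.ev (nat_lit 2660) (nat_lit 1024) (.ev (nat_lit 2820) (nat_lit 65536) (.ev (nat_lit 2829)
 (nat_lit 8796093022208) .dd))))) (.br (nat_lit 14) (.ch (nat_lit 13) (.ev (nat_lit 2512) (nat_lit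
 8796093022208) (.ev (nat_lit 2660) (nat_lit 1024) (.ev (nat_lit 2669) (nat_lit 65536) .dd)))) (.ch (nat_lit
 14) (.ev (nat_lit 2512) (nat_lit 1024) (.ev (nat_lit 3620) (nat_lit 65536) (.ev (nat_lit 3629) (nat_lit
 8796093022208) .dd)))))))))) (.ch (nat_lit 4) (.ev (nat_lit 576) (nat_lit 132128) (.ev (nat_lit 3892) (nat_lit
 8796093022208) (.ev (nat_lit 3901) (nat_lit 65536) .dd)))))) (.br (nat_lit 11) (.br (nat_lit 10) (.ch (nat_lit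
 9) (.ev (nat_lit 576) (nat_lit 8796093219840) (.ev (nat_lit 589) (nat_lit 32) .dd))) (.ch (nat_lit 10) (.ev
 (nat_lit 576) (nat_lit 8796093088800) (.ev (nat_lit 589) (nat_lit 131072) .dd)))) (.br (nat_lit 14) (.ch
 (nat_lit 11) (.ev (nat_lit 576) (nat_lit 65536) (.ev (nat_lit 1492) (nat_lit 1024) (.ev (nat_lit 3172)
 (nat_lit 32) (.ev (nat_lit 3684) (nat_lit 8796093022208) (.ev (nat_lit 3693) (nat_lit 131072) .dd)))))) (.ch
 (nat_lit 14) (.ev (nat_lit 576) (nat_lit 1024) (.nd (nat_lit 2496) (.br (nat_lit 5) (.br (nat_lit 3) (.ch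
 (nat_lit 1) (.ev (nat_lit 2512) (nat_lit 65536) (.ev (nat_lit 3808) (nat_lit 8796093022208) (.fin (nat_lit
 576479993768919620))))) (.ch (nat_lit 3) (.ev (nat_lit 2512) (nat_lit 131104) (.ev (nat_lit 3268) (nat_lit
 8796093022208) (.ev (nat_lit 3277) (nat_lit 65536) .dd))))) (.br (nat_lit 14) (.ch (nat_lit 5) (.ev (nat_lit
 2512) (nat_lit 65568) (.ev (nat_lit 3332) (nat_lit 8796093022208) (.ev (nat_lit 3341) (nat_lit 131072) .dd))))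
 (.br (nat_lit 16) (.ch (nat_lit 14) (.ev (nat_lit 2512) (nat_lit 8796093153280) (.ev (nat_lit 3744) (nat_lit
 65568) .dd))) (.ch (nat_lit 16) (.ev (nat_lit 2512) (nat_lit 131072) (.ev (nat_lit 2628) (nat_lit 32) (.ev
 (nat_lit 3172) (nat_lit 65536) (.ev (nat_lit 3181) (nat_lit 8796093022208) .dd))))))))))))))))) (.ch (nat_lit
 2) (.ev (nat_lit 176) (nat_lit 11063852531744) (.nd (nat_lit 608) (.br (nat_lit 10) (.br (nat_lit 4) (.br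
 (nat_lit 2) (.ch (nat_lit 1) (.ev (nat_lit 624) (nat_lit 196608) (.ev (nat_lit 1236) (nat_lit 1024) (.ev
 (nat_lit 1245) (nat_lit 2048) .dd)))) (.ch (nat_lit 2) (.ev (nat_lit 624) (nat_lit 65536) (.ev (nat_lit 1204)
 (nat_lit 1024) (.ev (nat_lit 3968) (nat_lit 2048) (.ev (nat_lit 3981) (nat_lit 131072) .dd)))))) (.br (nat_lit
 6) (.ch (nat_lit 4) (.ev (nat_lit 624) (nat_lit 133120) (.ev (nat_lit 1236) (nat_lit 1024) (.ev (nat_lit 1245)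
 (nat_lit 65536) .dd)))) (.ch (nat_lit 6) (.ev (nat_lit 624) (nat_lit 1024) (.ev (nat_lit 708) (nat_lit 65536)
 (.ev (nat_lit 2820) (nat_lit 2048) (.ev (nat_lit 2829) (nat_lit 131072) .dd))))))) (.br (nat_lit 14) (.br
 (nat_lit 12) (.ch (nat_lit 10) (.ev (nat_lit 624) (nat_lit 131072) (.nd (nat_lit 2560) (.br (nat_lit 9) (.br
 (nat_lit 5) (.ch (nat_lit 4) (.ev (nat_lit 2576) (nat_lit 1024) (.ev (nat_lit 3684) (nat_lit 2048) (.ev
 (nat_lit 3693) (nat_lit 65536) .dd)))) (.br (nat_lit 8) (.ch (nat_lit 5) (.ev (nat_lit 2576) (nat_lit 2048)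
 (.ev (nat_lit 3684) (nat_lit 65536) (.ev (nat_lit 3693) (nat_lit 1024) .dd)))) (.ch (nat_lit 8) (.ev (nat_lit
 2576) (nat_lit 65536) (.ev (nat_lit 2628) (nat_lit 2048) (.ev (nat_lit 2637) (nat_lit 1024) .dd)))))) (.br
 (nat_lit 12) (.ch (nat_lit 9) (.ev (nat_lit 2576) (nat_lit 2048) (.ev (nat_lit 3684) (nat_lit 65536) (.ev
 (nat_lit 3693) (nat_lit 1024) .dd)))) (.br (nat_lit 13) (.ch (nat_lit 12) (.ev (nat_lit 2576) (nat_lit 1024)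
 (.ev (nat_lit 2848) (nat_lit 67584) .dd))) (.ch (nat_lit 13) (.ev (nat_lit 3664) (nat_lit 65536) (.ev (nat_lit
 3840) (nat_lit 3072) .dd))))))))) (.ch (nat_lit 12) (.ev (nat_lit 624) (nat_lit 2048) (.ev (nat_lit 1236)
 (nat_lit 1024) (.ev (nat_lit 1540) (nat_lit 65536) (.ev (nat_lit 1549) (nat_lit 131072) .dd)))))) (.br
 (nat_lit 15) (.ch (nat_lit 14) (.ev (nat_lit 624) (nat_lit 199680) .dd)) (.br (nat_lit 16) (.ch (nat_lit 15)
 (.ev (nat_lit 624) (nat_lit 134144) (.ev (nat_lit 637) (nat_lit 65536) .dd))) (.ch (nat_lit 16) (.ev (nat_lit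
 624) (nat_lit 197632) (.ev (nat_lit 637) (nat_lit 2048) .dd))))))))))) (.br (nat_lit 7) (.ch (nat_lit 4) (.ev
 (nat_lit 176) (nat_lit 8796093024288) (.nd (nat_lit 560) (.br (nat_lit 9) (.br (nat_lit 4) (.br (nat_lit 3)
 (.ch (nat_lit 0) (.ev (nat_lit 576) (nat_lit 68736385024) (.ev (nat_lit 1092) (nat_lit 2199023255552) (.ev
 (nat_lit 1492) (nat_lit 65536) (.ev (nat_lit 1501) (nat_lit 1024) .dd))))) (.ch (nat_lit 3) (.ev (nat_lit 576)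
 (nat_lit 2267759510528) (.ev (nat_lit 2980) (nat_lit 65536) (.ev (nat_lit 2989) (nat_lit 131072) .dd))))) (.br
 (nat_lit 7) (.ch (nat_lit 4) (.ev (nat_lit 576) (nat_lit 68736386048) (.ev (nat_lit 3828) (nat_lit 65536) (.ev
 (nat_lit 3837) (nat_lit 2199023255552) .dd)))) (.ch (nat_lit 7) (.ev (nat_lit 576) (nat_lit 68736319488) (.ev
 (nat_lit 644) (nat_lit 2199023255552) (.ev (nat_lit 772) (nat_lit 131072) (.ev (nat_lit 781) (nat_lit 1024)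
 .dd))))))) (.br (nat_lit 12) (.br (nat_lit 11) (.ch (nat_lit 9) (.ev (nat_lit 576) (nat_lit 68719542272) (.ev
 (nat_lit 1028) (nat_lit 1024) (.ev (nat_lit 2228) (nat_lit 16777216) (.ev (nat_lit 2436) (nat_lit
 2199023255552) (.ev (nat_lit 2445) (nat_lit 131072) .dd)))))) (.ch (nat_lit 11) (.ev (nat_lit 576) (nat_lit
 2199023255552) (.ev (nat_lit 724) (nat_lit 16777216) (.ev (nat_lit 772) (nat_lit 131072) (.ev (nat_lit 1268)
 (nat_lit 68719476736) (.ev (nat_lit 2292) (nat_lit 1024) (.ev (nat_lit 2301) (nat_lit 65536) .dd)))))))) (.br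
 (nat_lit 14) (.ch (nat_lit 12) (.ev (nat_lit 576) (nat_lit 2199040229376) (.ev (nat_lit 2144) (nat_lit 1024)
 (.ev (nat_lit 2157) (nat_lit 68719476736) .dd)))) (.br (nat_lit 16) (.ch (nat_lit 14) (.ev (nat_lit 576)
 (nat_lit 68736386048) (.nd (nat_lit 2496) (.br (nat_lit 6) (.br (nat_lit 4) (.ch (nat_lit 3) (.ev (nat_lit
 2512) (nat_lit 2199023255552) (.ev (nat_lit 2525) (nat_lit 65536) .dd))) (.ch (nat_lit 4) (.ev (nat_lit 2512)
 (nat_lit 65536) (.ev (nat_lit 2525) (nat_lit 2199023255552) .dd)))) (.br (nat_lit 15) (.ch (nat_lit 6) (.fin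
 (nat_lit 576459103043797567))) (.ch (nat_lit 15) (.ev (nat_lit 2512) (nat_lit 65536) (.ev (nat_lit 2525)
 (nat_lit 2199023255552) .dd)))))))) (.ch (nat_lit 16) (.ev (nat_lit 576) (nat_lit 2267742798848) (.ev (nat_lit
 3344) (nat_lit 131072) (.ev (nat_lit 3357) (nat_lit 16777216) .dd))))))))))) (.ch (nat_lit 7) (.ev (nat_lit
 176) (nat_lit 68719545344) (.nd (nat_lit 608) (.br (nat_lit 9) (.br (nat_lit 5) (.br (nat_lit 1) (.ch (nat_lit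
 0) (.ev (nat_lit 624) (nat_lit 8796093022208) (.ev (nat_lit 1588) (nat_lit 2199023255552) (.ev (nat_lit 2084)
 (nat_lit 131072) (.ev (nat_lit 3620) (nat_lit 32) (.ev (nat_lit 3629) (nat_lit 16777216) .dd)))))) (.ch
 (nat_lit 1) (.ev (nat_lit 624) (nat_lit 10995133055008) (.ev (nat_lit 637) (nat_lit 131072) .dd)))) (.br
 (nat_lit 6) (.ch (nat_lit 5) (.ev (nat_lit 624) (nat_lit 8796109930528) (.ev (nat_lit 637) (nat_lit
 2199023255552) .dd))) (.ch (nat_lit 6) (.ev (nat_lit 624) (nat_lit 131104) (.ev (nat_lit 2484) (nat_lit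
 8796093022208) (.ev (nat_lit 4004) (nat_lit 2199023255552) (.ev (nat_lit 4013) (nat_lit 16777216) .dd)))))))
 (.br (nat_lit 14) (.br (nat_lit 11) (.ch (nat_lit 9) (.ev (nat_lit 624) (nat_lit 131104) (.ev (nat_lit 1060)
 (nat_lit 2199023255552) (.ev (nat_lit 1780) (nat_lit 8796093022208) (.ev (nat_lit 1789) (nat_lit 16777216)
 .dd))))) (.ch (nat_lit 11) (.ev (nat_lit 624) (nat_lit 10995116277792) (.ev (nat_lit 1028) (nat_lit 131072)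
 (.ev (nat_lit 1037) (nat_lit 16777216) .dd))))) (.br (nat_lit 15) (.ch (nat_lit 14) (.ev (nat_lit 624)
 (nat_lit 16777216) (.ev (nat_lit 2084) (nat_lit 131072) (.ev (nat_lit 2800) (nat_lit 32) (.ev (nat_lit 3840)
 (nat_lit 2199023255552) (.ev (nat_lit 3853) (nat_lit 8796093022208) .dd)))))) (.ch (nat_lit 15) (.ev (nat_lit
 624) (nat_lit 10995116277760) (.ev (nat_lit 3524) (nat_lit 32) (.fin (nat_lit 576597641460662985)))))))))))))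
 (.br (nat_lit 12) (.br (nat_lit 11) (.ch (nat_lit 8) (.ev (nat_lit 176) (nat_lit 11063852534784) (.nd (nat_lit
 672) (.br (nat_lit 12) (.br (nat_lit 2) (.br (nat_lit 1) (.ch (nat_lit 0) (.ev (nat_lit 688) (nat_lit 65536)
 (.nd (nat_lit 4160) (.ch (nat_lit 10) (.nd (nat_lit 5344) (.br (nat_lit 12) (.ch (nat_lit 7) (.ev (nat_lit
 5360) (nat_lit 131104) .dd)) (.ch (nat_lit 12) (.fin (nat_lit 576237001840738938))))))))) (.ch (nat_lit 1)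
 (.ev (nat_lit 1472) (nat_lit 131072) (.ev (nat_lit 3620) (nat_lit 65536) (.ev (nat_lit 3629) (nat_lit 32)
 .dd))))) (.br (nat_lit 11) (.ch (nat_lit 2) (.ev (nat_lit 688) (nat_lit 196608) (.ev (nat_lit 701) (nat_lit
 32) .dd))) (.ch (nat_lit 11) (.ev (nat_lit 688) (nat_lit 196608) (.ev (nat_lit 701) (nat_lit 32) .dd))))) (.br
 (nat_lit 14) (.br (nat_lit 13) (.ch (nat_lit 12) (.ev (nat_lit 688) (nat_lit 65536) (.ev (nat_lit 3424)
 (nat_lit 131072) (.ev (nat_lit 3437) (nat_lit 32) .dd)))) (.ch (nat_lit 13) (.ev (nat_lit 688) (nat_lit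
 196640) .dd))) (.br (nat_lit 15) (.ch (nat_lit 14) (.ev (nat_lit 688) (nat_lit 131104) (.ev (nat_lit 701)
 (nat_lit 65536) .dd))) (.ch (nat_lit 15) (.ev (nat_lit 688) (nat_lit 131104) (.ev (nat_lit 701) (nat_lit
 65536) .dd))))))))) (.ch (nat_lit 11) (.ev (nat_lit 176) (nat_lit 68719673344) (.nd (nat_lit 512) (.br
 (nat_lit 7) (.br (nat_lit 5) (.br (nat_lit 1) (.ch (nat_lit 0) (.ev (nat_lit 528) (nat_lit 16780320) (.ev
 (nat_lit 1172) (nat_lit 8796093022208) (.ev (nat_lit 1181) (nat_lit 2199023255552) .dd)))) (.ch (nat_lit 1)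
 (.ev (nat_lit 528) (nat_lit 10995116278816) (.ev (nat_lit 2228) (nat_lit 16777216) (.ev (nat_lit 2237)
 (nat_lit 2048) .dd))))) (.br (nat_lit 6) (.ch (nat_lit 5) (.ev (nat_lit 528) (nat_lit 2199023255552) (.ev
 (nat_lit 1172) (nat_lit 8796093022208) (.ev (nat_lit 3460) (nat_lit 2048) (.ev (nat_lit 3892) (nat_lit 32)
 (.nd (nat_lit 4640) (.br (nat_lit 12) (.ch (nat_lit 0) (.ev (nat_lit 4656) (nat_lit 16778240) .dd)) (.br
 (nat_lit 15) (.ch (nat_lit 12) (.fin (nat_lit 576437112779784721))) (.ch (nat_lit 15) (.ev (nat_lit 4656)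
 (nat_lit 16777216) (.ev (nat_lit 4669) (nat_lit 1024) .dd))))))))))) (.ch (nat_lit 6) (.ev (nat_lit 528)
 (nat_lit 16779264) (.ev (nat_lit 1172) (nat_lit 1024) (.ev (nat_lit 1412) (nat_lit 8796093022208) (.ev
 (nat_lit 1492) (nat_lit 32) (.ev (nat_lit 1501) (nat_lit 2199023255552) .dd)))))))) (.br (nat_lit 12) (.br
 (nat_lit 10) (.ch (nat_lit 7) (.ev (nat_lit 528) (nat_lit 10995116280864) (.ev (nat_lit 541) (nat_lit
 16777216) .dd))) (.ch (nat_lit 10) (.ev (nat_lit 528) (nat_lit 10995116277760) (.ev (nat_lit 1172) (nat_lit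
 1024) (.nd (nat_lit 2560) (.br (nat_lit 10) (.br (nat_lit 5) (.ch (nat_lit 2) (.ev (nat_lit 2576) (nat_lit
 16779264) (.ev (nat_lit 2589) (nat_lit 32) .dd))) (.ch (nat_lit 5) (.ev (nat_lit 2576) (nat_lit 2080) (.ev
 (nat_lit 2589) (nat_lit 16777216) .dd)))) (.br (nat_lit 11) (.ch (nat_lit 10) (.ev (nat_lit 2576) (nat_lit
 16777216) (.fin (nat_lit 576452505966690866)))) (.br (nat_lit 15) (.ch (nat_lit 11) (.ev (nat_lit 2576)
 (nat_lit 16779264) (.ev (nat_lit 2589) (nat_lit 32) .dd))) (.ch (nat_lit 15) (.ev (nat_lit 2576) (nat_lit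
 2080) (.ev (nat_lit 2589) (nat_lit 16777216) .dd))))))))))) (.br (nat_lit 15) (.ch (nat_lit 12) (.ev (nat_lit
 528) (nat_lit 10995116279840) (.ev (nat_lit 1072) (nat_lit 16778240) .dd))) (.br (nat_lit 16) (.ch (nat_lit
 15) (.ev (nat_lit 528) (nat_lit 2199040033824) (.ev (nat_lit 1172) (nat_lit 8796093022208) (.ev (nat_lit 1181)
 (nat_lit 2048) .dd)))) (.ch (nat_lit 16) (.ev (nat_lit 528) (nat_lit 16777248) (.ev (nat_lit 1764) (nat_lit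
 8796093022208) (.ev (nat_lit 2788) (nat_lit 1024) (.ev (nat_lit 3332) (nat_lit 2199023255552) (.ev (nat_lit
 3341) (nat_lit 2048) .dd)))))))))))))) (.br (nat_lit 14) (.ch (nat_lit 12) (.ev (nat_lit 176) (nat_lit
 10995133189152) (.nd (nat_lit 976) (.br (nat_lit 10) (.br (nat_lit 4) (.br (nat_lit 3) (.ch (nat_lit 1) (.ev
 (nat_lit 992) (nat_lit 65536) (.ev (nat_lit 1005) (nat_lit 68719476736) .dd))) (.ch (nat_lit 3) (.ev (nat_lit
 992) (nat_lit 68719542272) .dd))) (.br (nat_lit 6) (.ch (nat_lit 4) (.ev (nat_lit 992) (nat_lit 65536) (.ev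
 (nat_lit 1005) (nat_lit 68719476736) .dd))) (.ch (nat_lit 6) (.ev (nat_lit 992) (nat_lit 68719542272) .dd))))
 (.br (nat_lit 12) (.br (nat_lit 11) (.ch (nat_lit 10) (.ev (nat_lit 1840) (nat_lit 65536) (.ev (nat_lit 1853)
 (nat_lit 68719476736) .dd))) (.ch (nat_lit 11) (.ev (nat_lit 992) (nat_lit 68719476736) (.ev (nat_lit 1005)
 (nat_lit 65536) .dd)))) (.br (nat_lit 16) (.ch (nat_lit 12) (.ev (nat_lit 992) (nat_lit 65536) (.ev (nat_lit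
 1005) (nat_lit 68719476736) .dd))) (.ch (nat_lit 16) (.ev (nat_lit 1028) (nat_lit 65536) (.ev (nat_lit 1037)
 (nat_lit 68719476736) .dd))))))))) (.br (nat_lit 16) (.ch (nat_lit 14) (.ev (nat_lit 176) (nat_lit
 68736451584) (.nd (nat_lit 560) (.br (nat_lit 5) (.br (nat_lit 3) (.br (nat_lit 2) (.ch (nat_lit 0) (.ev
 (nat_lit 576) (nat_lit 2199023255552) (.nd (nat_lit 3120) (.br (nat_lit 10) (.ch (nat_lit 2) (.ev (nat_lit
 3136) (nat_lit 32) (.fin (nat_lit 576553661315367390)))) (.br (nat_lit 14) (.ch (nat_lit 10) (.ev (nat_lit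
 3136) (nat_lit 32) (.ev (nat_lit 3440) (nat_lit 8796093024256) .dd))) (.ch (nat_lit 14) (.ev (nat_lit 3136)
 (nat_lit 2048) (.ev (nat_lit 3268) (nat_lit 8796093022208) (.ev (nat_lit 3277) (nat_lit 32) .dd))))))))) (.ch
 (nat_lit 2) (.ev (nat_lit 576) (nat_lit 2080) (.ev (nat_lit 1060) (nat_lit 2199023255552) (.ev (nat_lit 1069)
 (nat_lit 8796093022208) .dd))))) (.br (nat_lit 4) (.ch (nat_lit 3) (.ev (nat_lit 576) (nat_lit 10995116277760)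
 (.ev (nat_lit 1236) (nat_lit 2048) (.ev (nat_lit 1245) (nat_lit 32) .dd)))) (.ch (nat_lit 4) (.ev (nat_lit
 576) (nat_lit 2080) (.ev (nat_lit 3776) (nat_lit 8796093022208) (.ev (nat_lit 3789) (nat_lit 2199023255552)
 .dd)))))) (.br (nat_lit 11) (.br (nat_lit 6) (.ch (nat_lit 5) (.ev (nat_lit 576) (nat_lit 2199023255584) (.ev
 (nat_lit 1444) (nat_lit 8796093022208) (.ev (nat_lit 1453) (nat_lit 2048) .dd)))) (.ch (nat_lit 6) (.ev
 (nat_lit 576) (nat_lit 2199023255552) (.nd (nat_lit 2496) (.br (nat_lit 11) (.br (nat_lit 10) (.ch (nat_lit 9)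
 (.ev (nat_lit 2512) (nat_lit 32) (.ev (nat_lit 3184) (nat_lit 8796093022208) (.ev (nat_lit 3197) (nat_lit
 2048) .dd)))) (.ch (nat_lit 10) (.ev (nat_lit 2512) (nat_lit 8796093024256) (.ev (nat_lit 2525) (nat_lit 32)
 .dd)))) (.br (nat_lit 13) (.ch (nat_lit 11) (.ev (nat_lit 3760) (nat_lit 32) (.fin (nat_lit
 576453605479367249)))) (.br (nat_lit 15) (.ch (nat_lit 13) (.ev (nat_lit 2512) (nat_lit 8796093024288) .dd))
 (.ch (nat_lit 15) (.ev (nat_lit 2512) (nat_lit 8796093024256) (.ev (nat_lit 2525) (nat_lit 32) .dd))))))))))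
 (.br (nat_lit 13) (.ch (nat_lit 11) (.ev (nat_lit 576) (nat_lit 10995116279840) .dd)) (.br (nat_lit 14) (.ch
 (nat_lit 13) (.ev (nat_lit 576) (nat_lit 8796093022208) (.ev (nat_lit 1124) (nat_lit 32) (.ev (nat_lit 3684)
 (nat_lit 2199023255552) (.ev (nat_lit 3693) (nat_lit 2048) .dd))))) (.ch (nat_lit 14) (.ev (nat_lit 576)
 (nat_lit 10995116279808) (.ev (nat_lit 589) (nat_lit 32) .dd)))))))))) (.ch (nat_lit 16) (.ev (nat_lit 176)
 (nat_lit 16975904) (.nd (nat_lit 736) (.br (nat_lit 13) (.br (nat_lit 7) (.br (nat_lit 4) (.ch (nat_lit 2)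
 (.ev (nat_lit 752) (nat_lit 11063835755520) .dd)) (.ch (nat_lit 4) (.ev (nat_lit 752) (nat_lit 2267742733312)
 (.ev (nat_lit 765) (nat_lit 8796093022208) .dd)))) (.br (nat_lit 9) (.ch (nat_lit 7) (.ev (nat_lit 752)
 (nat_lit 8796093022208) (.ev (nat_lit 1028) (nat_lit 1024) (.ev (nat_lit 2720) (nat_lit 2199023255552) (.ev
 (nat_lit 2733) (nat_lit 68719476736) .dd))))) (.ch (nat_lit 9) (.ev (nat_lit 752) (nat_lit 10995116278784)
 (.ev (nat_lit 765) (nat_lit 68719476736) .dd))))) (.br (nat_lit 15) (.br (nat_lit 14) (.ch (nat_lit 13) (.ev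
 (nat_lit 752) (nat_lit 2199023256576) (.ev (nat_lit 1492) (nat_lit 8796093022208) (.ev (nat_lit 1501) (nat_lit
 68719476736) .dd)))) (.ch (nat_lit 14) (.ev (nat_lit 752) (nat_lit 68719476736) (.ev (nat_lit 3988) (nat_lit
 2199023255552) (.fin (nat_lit 576377739239965085)))))) (.br (nat_lit 16) (.ch (nat_lit 15) (.ev (nat_lit 752)
 (nat_lit 8796093022208) (.ev (nat_lit 3380) (nat_lit 1024) (.ev (nat_lit 3472) (nat_lit 68719476736) (.ev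
 (nat_lit 3485) (nat_lit 2199023255552) .dd))))) (.ch (nat_lit 16) (.ev (nat_lit 752) (nat_lit 10995116278784)
 (.ev (nat_lit 765) (nat_lit 68719476736) .dd))))))))))))))))))))))

/-- Subtrie. -/
noncomputable def T7 : Tr := (.ev (nat_lit 20) (nat_lit 6151226461035632) (.nd (nat_lit 32) (.br (nat_lit 8)
 (.br (nat_lit 2) (.br (nat_lit 1) (.ch (nat_lit 0) (.ev (nat_lit 48) (nat_lit 568448052756992) (.nd (nat_lit
 416) (.br (nat_lit 5) (.br (nat_lit 3) (.br (nat_lit 2) (.ch (nat_lit 1) (.ev (nat_lit 432) (nat_lit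
 414732845056) (.nd (nat_lit 2016) (.br (nat_lit 10) (.br (nat_lit 5) (.br (nat_lit 3) (.ch (nat_lit 1) (.ev
 (nat_lit 2032) (nat_lit 16777216) (.ev (nat_lit 2045) (nat_lit 68719476736) .dd))) (.ch (nat_lit 3) (.ev
 (nat_lit 2032) (nat_lit 68736253952) .dd))) (.br (nat_lit 9) (.ch (nat_lit 5) (.fin (nat_lit
 576487690366042600))) (.ch (nat_lit 9) (.ev (nat_lit 2032) (nat_lit 68736253952) .dd)))) (.br (nat_lit 13)
 (.br (nat_lit 11) (.ch (nat_lit 10) (.ev (nat_lit 2032) (nat_lit 68719476736) (.ev (nat_lit 2045) (nat_lit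
 16777216) .dd))) (.ch (nat_lit 11) (.ev (nat_lit 2032) (nat_lit 68719476736) (.ev (nat_lit 2045) (nat_lit
 16777216) .dd)))) (.br (nat_lit 15) (.ch (nat_lit 13) (.ev (nat_lit 2032) (nat_lit 16777216) (.ev (nat_lit
 2045) (nat_lit 68719476736) .dd))) (.ch (nat_lit 15) (.ev (nat_lit 2032) (nat_lit 68736253952) .dd))))))))
 (.ch (nat_lit 2) (.ev (nat_lit 432) (nat_lit 481321549824) (.ev (nat_lit 452) (nat_lit 65536) (.ev (nat_lit
 461) (nat_lit 2147483648) .dd))))) (.br (nat_lit 4) (.ch (nat_lit 3) (.ev (nat_lit 432) (nat_lit 345761644544)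
 (.nd (nat_lit 1344) (.br (nat_lit 6) (.br (nat_lit 1) (.ch (nat_lit 0) (.ev (nat_lit 3524) (nat_lit 65536)
 (.nd (nat_lit 5152) (.br (nat_lit 4) (.ch (nat_lit 1) (.fin (nat_lit 576451406456111718))) (.br (nat_lit 13)
 (.ch (nat_lit 4) (.ev (nat_lit 5168) (nat_lit 268435456) (.ev (nat_lit 5181) (nat_lit 137438953472) .dd)))
 (.ch (nat_lit 13) (.ev (nat_lit 5168) (nat_lit 137707388928) .dd))))))) (.br (nat_lit 2) (.ch (nat_lit 1) (.ev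
 (nat_lit 1360) (nat_lit 268435456) (.ev (nat_lit 2768) (nat_lit 65536) (.ev (nat_lit 2781) (nat_lit
 137438953472) .dd)))) (.ch (nat_lit 2) (.ev (nat_lit 1360) (nat_lit 137707454464) .dd)))) (.br (nat_lit 13)
 (.br (nat_lit 9) (.ch (nat_lit 6) (.ev (nat_lit 1360) (nat_lit 268435456) (.ev (nat_lit 2292) (nat_lit 65536)
 (.ev (nat_lit 2301) (nat_lit 137438953472) .dd)))) (.ch (nat_lit 9) (.ev (nat_lit 1360) (nat_lit 65536) (.ev
 (nat_lit 1412) (nat_lit 137438953472) (.ev (nat_lit 1421) (nat_lit 268435456) .dd))))) (.br (nat_lit 14) (.ch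
 (nat_lit 13) (.ev (nat_lit 1360) (nat_lit 137707454464) .dd)) (.ch (nat_lit 14) (.ev (nat_lit 1360) (nat_lit
 65536) (.ev (nat_lit 3744) (nat_lit 268435456) (.ev (nat_lit 3757) (nat_lit 137438953472) .dd)))))))))) (.ch
 (nat_lit 4) (.ev (nat_lit 432) (nat_lit 139603279872) (.nd (nat_lit 976) (.br (nat_lit 8) (.br (nat_lit 3)
 (.br (nat_lit 1) (.ch (nat_lit 0) (.ev (nat_lit 992) (nat_lit 274877906944) (.ev (nat_lit 1028) (nat_lit
 68719476736) (.ev (nat_lit 1037) (nat_lit 268435456) .dd)))) (.ch (nat_lit 1) (.ev (nat_lit 992) (nat_lit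
 68719476736) (.ev (nat_lit 1028) (nat_lit 274877906944) (.ev (nat_lit 1037) (nat_lit 268435456) .dd))))) (.br
 (nat_lit 4) (.ch (nat_lit 3) (.ev (nat_lit 992) (nat_lit 68719476736) (.ev (nat_lit 3744) (nat_lit
 274877906944) (.ev (nat_lit 3757) (nat_lit 268435456) .dd)))) (.ch (nat_lit 4) (.ev (nat_lit 992) (nat_lit
 274877906944) (.ev (nat_lit 1204) (nat_lit 268435456) (.ev (nat_lit 1213) (nat_lit 68719476736) .dd)))))) (.br
 (nat_lit 12) (.br (nat_lit 9) (.ch (nat_lit 8) (.ev (nat_lit 992) (nat_lit 343865819136) .dd)) (.ch (nat_lit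
 9) (.ev (nat_lit 992) (nat_lit 268435456) (.ev (nat_lit 1028) (nat_lit 68719476736) (.ev (nat_lit 1037)
 (nat_lit 274877906944) .dd))))) (.br (nat_lit 14) (.ch (nat_lit 12) (.ev (nat_lit 992) (nat_lit 275146342400)
 (.ev (nat_lit 1005) (nat_lit 68719476736) .dd))) (.br (nat_lit 15) (.ch (nat_lit 14) (.ev (nat_lit 1204)
 (nat_lit 268435456) (.ev (nat_lit 3092) (nat_lit 68719476736) (.ev (nat_lit 3101) (nat_lit 274877906944)
 .dd)))) (.ch (nat_lit 15) (.ev (nat_lit 992) (nat_lit 343865819136) .dd))))))))))) (.br (nat_lit 8) (.br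
 (nat_lit 7) (.ch (nat_lit 5) (.ev (nat_lit 432) (nat_lit 483200598016) (.nd (nat_lit 1344) (.br (nat_lit 7)
 (.br (nat_lit 4) (.br (nat_lit 2) (.ch (nat_lit 1) (.ev (nat_lit 1360) (nat_lit 65536) (.ev (nat_lit 1373)
 (nat_lit 268435456) .dd))) (.ch (nat_lit 2) (.ev (nat_lit 1360) (nat_lit 268435456) (.ev (nat_lit 1373)
 (nat_lit 65536) .dd)))) (.br (nat_lit 6) (.ch (nat_lit 4) (.ev (nat_lit 1360) (nat_lit 65536) (.ev (nat_lit
 1373) (nat_lit 268435456) .dd))) (.ch (nat_lit 6) (.ev (nat_lit 3488) (nat_lit 65536) (.ev (nat_lit 3501)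
 (nat_lit 268435456) .dd))))) (.br (nat_lit 11) (.br (nat_lit 9) (.ch (nat_lit 7) (.ev (nat_lit 1360) (nat_lit
 268500992) .dd)) (.ch (nat_lit 9) (.ev (nat_lit 1360) (nat_lit 268500992) .dd))) (.br (nat_lit 14) (.ch
 (nat_lit 11) (.ev (nat_lit 1412) (nat_lit 65536) (.ev (nat_lit 1421) (nat_lit 268435456) .dd))) (.br (nat_lit
 15) (.ch (nat_lit 14) (.ev (nat_lit 1360) (nat_lit 65536) (.ev (nat_lit 1373) (nat_lit 268435456) .dd))) (.ch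
 (nat_lit 15) (.ev (nat_lit 1360) (nat_lit 268500992) .dd))))))))) (.ch (nat_lit 7) (.ev (nat_lit 432) (nat_lit
 16842752) (.nd (nat_lit 880) (.br (nat_lit 4) (.br (nat_lit 2) (.br (nat_lit 1) (.ch (nat_lit 0) (.ev (nat_lit
 896) (nat_lit 208305913856) (.ev (nat_lit 3620) (nat_lit 274877906944) (.ev (nat_lit 3629) (nat_lit 268435456)
 .dd)))) (.ch (nat_lit 1) (.ev (nat_lit 896) (nat_lit 2415919104) (.ev (nat_lit 916) (nat_lit 274877906944)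
 (.ev (nat_lit 1172) (nat_lit 137438953472) (.ev (nat_lit 1181) (nat_lit 68719476736) .dd)))))) (.br (nat_lit
 3) (.ch (nat_lit 2) (.ev (nat_lit 896) (nat_lit 483183820800) (.ev (nat_lit 909) (nat_lit 268435456) .dd)))
 (.ch (nat_lit 3) (.ev (nat_lit 896) (nat_lit 71135395840) (.fin (nat_lit 576786757240439743)))))) (.br
 (nat_lit 13) (.br (nat_lit 9) (.ch (nat_lit 4) (.ev (nat_lit 896) (nat_lit 268435456) (.ev (nat_lit 1172)
 (nat_lit 137438953472) (.ev (nat_lit 1444) (nat_lit 2147483648) (.ev (nat_lit 2628) (nat_lit 68719476736) (.ev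
 (nat_lit 2637) (nat_lit 274877906944) .dd)))))) (.ch (nat_lit 9) (.ev (nat_lit 896) (nat_lit 483183820800)
 (.ev (nat_lit 909) (nat_lit 268435456) .dd)))) (.br (nat_lit 14) (.ch (nat_lit 13) (.ev (nat_lit 896) (nat_lit
 139854872576) (.ev (nat_lit 2308) (nat_lit 274877906944) (.ev (nat_lit 2317) (nat_lit 68719476736) .dd))))
 (.br (nat_lit 15) (.ch (nat_lit 14) (.ev (nat_lit 896) (nat_lit 412585295872) (.ev (nat_lit 2144) (nat_lit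
 68719476736) (.ev (nat_lit 2157) (nat_lit 2147483648) .dd)))) (.ch (nat_lit 15) (.ev (nat_lit 896) (nat_lit
 414732779520) (.ev (nat_lit 909) (nat_lit 68719476736) .dd))))))))))) (.br (nat_lit 9) (.ch (nat_lit 8) (.ev
 (nat_lit 432) (nat_lit 412585295872) (.nd (nat_lit 1344) (.br (nat_lit 12) (.br (nat_lit 4) (.ch (nat_lit 0)
 (.ev (nat_lit 1360) (nat_lit 68719542272) (.ev (nat_lit 1540) (nat_lit 16777216) (.ev (nat_lit 1549) (nat_lit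
 2147483648) .dd)))) (.br (nat_lit 7) (.ch (nat_lit 4) (.ev (nat_lit 1360) (nat_lit 68736253952) (.ev (nat_lit
 1412) (nat_lit 65536) (.ev (nat_lit 1421) (nat_lit 2147483648) .dd)))) (.ch (nat_lit 7) (.ev (nat_lit 1360)
 (nat_lit 16777216) (.ev (nat_lit 1412) (nat_lit 2147483648) (.ev (nat_lit 1568) (nat_lit 65536) (.ev (nat_lit
 1581) (nat_lit 68719476736) .dd))))))) (.br (nat_lit 14) (.br (nat_lit 13) (.ch (nat_lit 12) (.ev (nat_lit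
 1360) (nat_lit 65536) (.ev (nat_lit 1412) (nat_lit 2147483648) (.ev (nat_lit 2128) (nat_lit 16777216) (.ev
 (nat_lit 2141) (nat_lit 68719476736) .dd))))) (.ch (nat_lit 13) (.ev (nat_lit 1360) (nat_lit 70866960384) (.ev
 (nat_lit 1600) (nat_lit 16842752) .dd)))) (.br (nat_lit 15) (.ch (nat_lit 14) (.ev (nat_lit 1360) (nat_lit
 2164260864) (.ev (nat_lit 1412) (nat_lit 65536) (.ev (nat_lit 1421) (nat_lit 68719476736) .dd)))) (.ch
 (nat_lit 15) (.ev (nat_lit 1360) (nat_lit 70866960384) (.ev (nat_lit 1412) (nat_lit 65536) (.ev (nat_lit 1421)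
 (nat_lit 16777216) .dd)))))))))) (.br (nat_lit 13) (.ch (nat_lit 9) (.ev (nat_lit 432) (nat_lit 277025390592)
 (.nd (nat_lit 976) (.br (nat_lit 7) (.br (nat_lit 5) (.br (nat_lit 4) (.ch (nat_lit 3) (.ev (nat_lit 992)
 (nat_lit 206443708416) .dd)) (.ch (nat_lit 4) (.ev (nat_lit 992) (nat_lit 268435456) (.ev (nat_lit 1028)
 (nat_lit 68719476736) (.nd (nat_lit 5216) (.br (nat_lit 5) (.ch (nat_lit 4) (.ev (nat_lit 5232) (nat_lit
 16777216) (.nd (nat_lit 6048) (.br (nat_lit 15) (.ch (nat_lit 1) (.fin (nat_lit 576547064033788454))) (.ch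
 (nat_lit 15) (.ev (nat_lit 6064) (nat_lit 137438953472) (.ev (nat_lit 6077) (nat_lit 65536) .dd))))))) (.br
 (nat_lit 6) (.ch (nat_lit 5) (.ev (nat_lit 5232) (nat_lit 137455796224) .dd)) (.ch (nat_lit 6) (.ev (nat_lit
 5232) (nat_lit 65536) (.fin (nat_lit 576696597129675335))))))))))) (.br (nat_lit 6) (.ch (nat_lit 5) (.ev
 (nat_lit 992) (nat_lit 16842752) (.ev (nat_lit 1028) (nat_lit 137438953472) (.nd (nat_lit 3232) (.br (nat_lit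
 13) (.br (nat_lit 3) (.ch (nat_lit 0) (.ev (nat_lit 3248) (nat_lit 268435456) (.ev (nat_lit 3261) (nat_lit
 68719476736) .dd))) (.ch (nat_lit 3) (.ev (nat_lit 3460) (nat_lit 68719476736) (.ev (nat_lit 3469) (nat_lit
 268435456) .dd)))) (.br (nat_lit 14) (.ch (nat_lit 13) (.fin (nat_lit 576459102930551359))) (.br (nat_lit 16)
 (.ch (nat_lit 14) (.ev (nat_lit 3248) (nat_lit 268435456) (.ev (nat_lit 3261) (nat_lit 68719476736) .dd)))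
 (.ch (nat_lit 16) (.ev (nat_lit 3248) (nat_lit 68719476736) (.ev (nat_lit 3261) (nat_lit 268435456)
 .dd)))))))))) (.ch (nat_lit 6) (.ev (nat_lit 992) (nat_lit 206443642880) (.ev (nat_lit 1005) (nat_lit 65536)
 .dd))))) (.br (nat_lit 13) (.br (nat_lit 8) (.ch (nat_lit 7) (.ev (nat_lit 992) (nat_lit 285278208) (.ev
 (nat_lit 1072) (nat_lit 206158430208) .dd))) (.ch (nat_lit 8) (.ev (nat_lit 992) (nat_lit 68987977728) (.ev
 (nat_lit 1588) (nat_lit 16777216) (.ev (nat_lit 1597) (nat_lit 137438953472) .dd))))) (.br (nat_lit 15) (.ch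
 (nat_lit 13) (.ev (nat_lit 992) (nat_lit 137455796224) (.ev (nat_lit 1888) (nat_lit 268435456) (.ev (nat_lit
 1901) (nat_lit 68719476736) .dd)))) (.br (nat_lit 16) (.ch (nat_lit 15) (.ev (nat_lit 992) (nat_lit
 137707454464) (.ev (nat_lit 1028) (nat_lit 16777216) (.ev (nat_lit 1037) (nat_lit 68719476736) .dd)))) (.ch
 (nat_lit 16) (.ev (nat_lit 992) (nat_lit 68736253952) (.ev (nat_lit 1700) (nat_lit 137438953472) (.nd (nat_lit
 4544) (.br (nat_lit 15) (.ch (nat_lit 10) (.ev (nat_lit 4560) (nat_lit 268435456) (.ev (nat_lit 4573) (nat_lit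
 65536) .dd))) (.ch (nat_lit 15) (.fin (nat_lit 576452505970885168))))))))))))))) (.ch (nat_lit 13) (.ev
 (nat_lit 432) (nat_lit 208591192064) (.ev (nat_lit 445) (nat_lit 274877906944) .dd)))))))))) (.ch (nat_lit 1)
 (.ev (nat_lit 48) (nat_lit 4813047857152) (.nd (nat_lit 416) (.br (nat_lit 8) (.br (nat_lit 6) (.br (nat_lit
 3) (.ch (nat_lit 0) (.ev (nat_lit 432) (nat_lit 1099796906496) (.nd (nat_lit 976) (.br (nat_lit 8) (.br
 (nat_lit 3) (.br (nat_lit 2) (.ch (nat_lit 0) (.ev (nat_lit 992) (nat_lit 4194304) (.ev (nat_lit 2228)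
 (nat_lit 562949953421312) (.ev (nat_lit 2237) (nat_lit 68719476736) .dd)))) (.ch (nat_lit 2) (.ev (nat_lit
 992) (nat_lit 68723671040) (.ev (nat_lit 1005) (nat_lit 562949953421312) .dd)))) (.br (nat_lit 7) (.ch
 (nat_lit 3) (.ev (nat_lit 992) (nat_lit 563018677092352) .dd)) (.ch (nat_lit 7) (.ev (nat_lit 992) (nat_lit
 563018672898048) (.ev (nat_lit 1005) (nat_lit 4194304) .dd))))) (.br (nat_lit 10) (.br (nat_lit 9) (.ch
 (nat_lit 8) (.ev (nat_lit 992) (nat_lit 562949957615616) (.ev (nat_lit 1005) (nat_lit 68719476736) .dd))) (.ch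
 (nat_lit 9) (.ev (nat_lit 992) (nat_lit 68719476736) (.fin (nat_lit 576522874554630753))))) (.br (nat_lit 13)
 (.ch (nat_lit 10) (.ev (nat_lit 992) (nat_lit 4194304) (.ev (nat_lit 1540) (nat_lit 68719476736) (.ev (nat_lit
 1549) (nat_lit 562949953421312) .dd)))) (.br (nat_lit 16) (.ch (nat_lit 13) (.ev (nat_lit 992) (nat_lit
 4194304) (.ev (nat_lit 2228) (nat_lit 68719476736) (.ev (nat_lit 2237) (nat_lit 562949953421312) .dd)))) (.ch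
 (nat_lit 16) (.ev (nat_lit 992) (nat_lit 562949957615616) (.ev (nat_lit 1005) (nat_lit 68719476736)
 .dd)))))))))) (.ch (nat_lit 3) (.ev (nat_lit 432) (nat_lit 562949957681664) (.nd (nat_lit 976) (.br (nat_lit
 5) (.br (nat_lit 3) (.br (nat_lit 2) (.ch (nat_lit 1) (.ev (nat_lit 992) (nat_lit 1168516317184) .dd)) (.ch
 (nat_lit 2) (.ev (nat_lit 992) (nat_lit 68736253952) (.ev (nat_lit 3684) (nat_lit 268435456) (.ev (nat_lit
 3693) (nat_lit 1099511627776) .dd))))) (.br (nat_lit 4) (.ch (nat_lit 3) (.ev (nat_lit 992) (nat_lit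
 285212672) (.fin (nat_lit 576324962618917293)))) (.ch (nat_lit 4) (.ev (nat_lit 992) (nat_lit 1168231104512)
 (.ev (nat_lit 1856) (nat_lit 285212672) .dd))))) (.br (nat_lit 14) (.br (nat_lit 10) (.ch (nat_lit 5) (.ev
 (nat_lit 992) (nat_lit 68736253952) (.ev (nat_lit 1700) (nat_lit 268435456) (.ev (nat_lit 1709) (nat_lit
 1099511627776) .dd)))) (.ch (nat_lit 10) (.ev (nat_lit 992) (nat_lit 68736253952) (.ev (nat_lit 1732) (nat_lit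
 1099511627776) (.ev (nat_lit 1741) (nat_lit 268435456) .dd))))) (.br (nat_lit 15) (.ch (nat_lit 14) (.ev
 (nat_lit 992) (nat_lit 1099796840448) (.ev (nat_lit 1005) (nat_lit 68719476736) .dd))) (.br (nat_lit 16) (.ch
 (nat_lit 15) (.ev (nat_lit 992) (nat_lit 1168499539968) (.ev (nat_lit 1005) (nat_lit 16777216) .dd))) (.ch
 (nat_lit 16) (.ev (nat_lit 1028) (nat_lit 1099511627776) (.ev (nat_lit 2160) (nat_lit 16777216) (.ev (nat_lit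
 3360) (nat_lit 68719476736) (.ev (nat_lit 3373) (nat_lit 268435456) .dd))))))))))))) (.br (nat_lit 7) (.ch
 (nat_lit 6) (.ev (nat_lit 432) (nat_lit 564049469309440) (.nd (nat_lit 1136) (.br (nat_lit 12) (.br (nat_lit
 4) (.br (nat_lit 3) (.ch (nat_lit 2) (.ev (nat_lit 1152) (nat_lit 68736253952) (.ev (nat_lit 1165) (nat_lit
 268435456) .dd))) (.ch (nat_lit 3) (.ev (nat_lit 1152) (nat_lit 285212672) (.ev (nat_lit 1165) (nat_lit
 68719476736) .dd)))) (.br (nat_lit 7) (.ch (nat_lit 4) (.ev (nat_lit 1152) (nat_lit 285212672) (.ev (nat_lit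
 1165) (nat_lit 68719476736) .dd))) (.ch (nat_lit 7) (.ev (nat_lit 1152) (nat_lit 268435456) (.nd (nat_lit
 4352) (.br (nat_lit 9) (.ch (nat_lit 8) (.fin (nat_lit 576507481553322565))) (.br (nat_lit 13) (.ch (nat_lit
 9) (.ev (nat_lit 4368) (nat_lit 68736253952) .dd)) (.ch (nat_lit 13) (.ev (nat_lit 4368) (nat_lit 16777216)
 (.ev (nat_lit 4381) (nat_lit 68719476736) .dd)))))))))) (.br (nat_lit 14) (.br (nat_lit 13) (.ch (nat_lit 12)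
 (.ev (nat_lit 1152) (nat_lit 69004689408) .dd)) (.ch (nat_lit 13) (.ev (nat_lit 1152) (nat_lit 68736253952)
 (.ev (nat_lit 1165) (nat_lit 268435456) .dd)))) (.br (nat_lit 15) (.ch (nat_lit 14) (.ev (nat_lit 1152)
 (nat_lit 268435456) (.ev (nat_lit 2768) (nat_lit 16777216) (.ev (nat_lit 2781) (nat_lit 68719476736) .dd))))
 (.ch (nat_lit 15) (.ev (nat_lit 1152) (nat_lit 68719476736) (.ev (nat_lit 3524) (nat_lit 268435456) (.ev
 (nat_lit 3533) (nat_lit 16777216) .dd)))))))))) (.ch (nat_lit 7) (.ev (nat_lit 432) (nat_lit 1168499539968)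
 (.ev (nat_lit 1092) (nat_lit 16777216) (.nd (nat_lit 2016) (.br (nat_lit 5) (.br (nat_lit 3) (.ch (nat_lit 1)
 (.ev (nat_lit 2032) (nat_lit 562949957681664) .dd)) (.br (nat_lit 4) (.ch (nat_lit 3) (.ev (nat_lit 2032)
 (nat_lit 66048) (.ev (nat_lit 2052) (nat_lit 4194304) (.ev (nat_lit 2061) (nat_lit 562949953421312) .dd))))
 (.ch (nat_lit 4) (.ev (nat_lit 2052) (nat_lit 65536) (.ev (nat_lit 3172) (nat_lit 512) (.ev (nat_lit 3620)
 (nat_lit 4194304) (.ev (nat_lit 3629) (nat_lit 562949953421312) .dd))))))) (.br (nat_lit 8) (.ch (nat_lit 5)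
 (.ev (nat_lit 2032) (nat_lit 66048) (.ev (nat_lit 2052) (nat_lit 4194304) (.ev (nat_lit 2061) (nat_lit
 562949953421312) .dd)))) (.br (nat_lit 16) (.ch (nat_lit 8) (.ev (nat_lit 2032) (nat_lit 562949957616128) (.ev
 (nat_lit 2045) (nat_lit 65536) .dd))) (.ch (nat_lit 16) (.ev (nat_lit 2032) (nat_lit 562949953486848) (.ev
 (nat_lit 3460) (nat_lit 512) (.ev (nat_lit 3469) (nat_lit 4194304) .dd))))))))))))) (.br (nat_lit 13) (.br
 (nat_lit 9) (.ch (nat_lit 8) (.ev (nat_lit 432) (nat_lit 564049486086144) (.nd (nat_lit 1136) (.br (nat_lit 8)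
 (.br (nat_lit 4) (.br (nat_lit 3) (.ch (nat_lit 1) (.ev (nat_lit 3840) (nat_lit 268435456) (.ev (nat_lit 3892)
 (nat_lit 512) (.ev (nat_lit 3901) (nat_lit 68719476736) .dd)))) (.ch (nat_lit 3) (.ev (nat_lit 1152) (nat_lit
 512) (.ev (nat_lit 1204) (nat_lit 268435456) (.ev (nat_lit 1213) (nat_lit 68719476736) .dd))))) (.br (nat_lit
 6) (.ch (nat_lit 4) (.ev (nat_lit 1152) (nat_lit 68719477248) (.ev (nat_lit 1165) (nat_lit 268435456) .dd)))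
 (.ch (nat_lit 6) (.ev (nat_lit 1152) (nat_lit 68719476736) (.ev (nat_lit 1988) (nat_lit 512) (.ev (nat_lit
 1997) (nat_lit 268435456) .dd)))))) (.br (nat_lit 12) (.br (nat_lit 10) (.ch (nat_lit 8) (.ev (nat_lit 1152)
 (nat_lit 268435456) (.ev (nat_lit 1204) (nat_lit 512) (.ev (nat_lit 1213) (nat_lit 68719476736) .dd)))) (.ch
 (nat_lit 10) (.ev (nat_lit 1152) (nat_lit 268435456) (.ev (nat_lit 1204) (nat_lit 512) (.ev (nat_lit 1213)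
 (nat_lit 68719476736) .dd))))) (.br (nat_lit 16) (.ch (nat_lit 12) (.ev (nat_lit 1152) (nat_lit 68987912704)
 .dd)) (.ch (nat_lit 16) (.ev (nat_lit 1152) (nat_lit 512) (.ev (nat_lit 1172) (nat_lit 268435456) (.ev
 (nat_lit 1181) (nat_lit 68719476736) .dd)))))))))) (.ch (nat_lit 9) (.ev (nat_lit 432) (nat_lit
 564118205497856) (.nd (nat_lit 1344) (.br (nat_lit 8) (.br (nat_lit 3) (.br (nat_lit 2) (.ch (nat_lit 0) (.ev
 (nat_lit 1360) (nat_lit 268500992) .dd)) (.ch (nat_lit 2) (.ev (nat_lit 1360) (nat_lit 65536) (.ev (nat_lit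
 1373) (nat_lit 268435456) .dd)))) (.br (nat_lit 5) (.ch (nat_lit 3) (.ev (nat_lit 1360) (nat_lit 268500992)
 .dd)) (.ch (nat_lit 5) (.ev (nat_lit 1360) (nat_lit 268435456) (.ev (nat_lit 1373) (nat_lit 65536) .dd)))))
 (.br (nat_lit 15) (.br (nat_lit 14) (.ch (nat_lit 8) (.ev (nat_lit 1360) (nat_lit 65536) (.ev (nat_lit 1373)
 (nat_lit 268435456) .dd))) (.ch (nat_lit 14) (.ev (nat_lit 1360) (nat_lit 268435456) (.ev (nat_lit 1373)
 (nat_lit 65536) .dd)))) (.br (nat_lit 16) (.ch (nat_lit 15) (.ev (nat_lit 2688) (nat_lit 65536) (.ev (nat_lit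
 2701) (nat_lit 268435456) .dd))) (.ch (nat_lit 16) (.ev (nat_lit 1360) (nat_lit 268500992) .dd))))))))) (.br
 (nat_lit 14) (.ch (nat_lit 13) (.ev (nat_lit 432) (nat_lit 563018962370560) (.nd (nat_lit 2016) (.br (nat_lit
 9) (.br (nat_lit 5) (.br (nat_lit 4) (.ch (nat_lit 0) (.ev (nat_lit 2372) (nat_lit 512) (.ev (nat_lit 2381)
 (nat_lit 1099511627776) .dd))) (.ch (nat_lit 4) (.ev (nat_lit 2032) (nat_lit 512) (.ev (nat_lit 2045) (nat_lit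
 1099511627776) .dd)))) (.br (nat_lit 6) (.ch (nat_lit 5) (.ev (nat_lit 3684) (nat_lit 1099511627776) (.ev
 (nat_lit 3693) (nat_lit 512) .dd))) (.ch (nat_lit 6) (.ev (nat_lit 2032) (nat_lit 512) (.ev (nat_lit 2045)
 (nat_lit 1099511627776) .dd))))) (.br (nat_lit 14) (.br (nat_lit 10) (.ch (nat_lit 9) (.ev (nat_lit 2032)
 (nat_lit 1099511628288) .dd)) (.ch (nat_lit 10) (.ev (nat_lit 2032) (nat_lit 1099511628288) .dd))) (.br
 (nat_lit 15) (.ch (nat_lit 14) (.ev (nat_lit 2032) (nat_lit 512) (.ev (nat_lit 2045) (nat_lit 1099511627776)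
 .dd))) (.ch (nat_lit 15) (.ev (nat_lit 2032) (nat_lit 1099511627776) (.ev (nat_lit 2045) (nat_lit 512)
 .dd))))))))) (.br (nat_lit 16) (.ch (nat_lit 14) (.ev (nat_lit 432) (nat_lit 563018677092352) (.ev (nat_lit
 1300) (nat_lit 65536) (.nd (nat_lit 2016) (.br (nat_lit 10) (.br (nat_lit 1) (.ch (nat_lit 0) (.ev (nat_lit
 2032) (nat_lit 268435968) (.nd (nat_lit 4960) (.br (nat_lit 5) (.ch (nat_lit 4) (.fin (nat_lit
 576547063993942718))) (.ch (nat_lit 5) (.ev (nat_lit 4976) (nat_lit 1099511627776) (.ev (nat_lit 4989)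
 (nat_lit 16777216) .dd))))))) (.br (nat_lit 8) (.ch (nat_lit 1) (.ev (nat_lit 2052) (nat_lit 268435456) (.ev
 (nat_lit 2820) (nat_lit 1099511627776) (.nd (nat_lit 4992) (.br (nat_lit 9) (.ch (nat_lit 6) (.ev (nat_lit
 5008) (nat_lit 16777728) .dd)) (.br (nat_lit 16) (.ch (nat_lit 9) (.nd (nat_lit 6080) (.br (nat_lit 7) (.ch
 (nat_lit 3) (.fin (nat_lit 576135846734283505))) (.ch (nat_lit 7) (.ev (nat_lit 6096) (nat_lit 512) (.ev
 (nat_lit 6109) (nat_lit 16777216) .dd)))))) (.ch (nat_lit 16) (.ev (nat_lit 5008) (nat_lit 16777728)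
 .dd)))))))) (.ch (nat_lit 8) (.ev (nat_lit 2032) (nat_lit 16777728) (.ev (nat_lit 3684) (nat_lit
 1099511627776) (.ev (nat_lit 3693) (nat_lit 268435456) .dd)))))) (.br (nat_lit 13) (.br (nat_lit 11) (.ch
 (nat_lit 10) (.ev (nat_lit 2032) (nat_lit 1099528405504) (.ev (nat_lit 2045) (nat_lit 268435456) .dd))) (.ch
 (nat_lit 11) (.ev (nat_lit 2032) (nat_lit 285213184) (.ev (nat_lit 2045) (nat_lit 1099511627776) .dd)))) (.br
 (nat_lit 15) (.ch (nat_lit 13) (.ev (nat_lit 2032) (nat_lit 285212672) (.ev (nat_lit 2052) (nat_lit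
 1099511627776) (.ev (nat_lit 2061) (nat_lit 512) .dd)))) (.ch (nat_lit 15) (.ev (nat_lit 2032) (nat_lit
 1099796840960) .dd))))))))) (.ch (nat_lit 16) (.ev (nat_lit 432) (nat_lit 1099780129280) (.nd (nat_lit 1136)
 (.br (nat_lit 11) (.br (nat_lit 8) (.br (nat_lit 4) (.ch (nat_lit 1) (.ev (nat_lit 1152) (nat_lit 68740448256)
 (.ev (nat_lit 1165) (nat_lit 562949953421312) .dd))) (.ch (nat_lit 4) (.ev (nat_lit 1152) (nat_lit 16777216)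
 (.ev (nat_lit 1412) (nat_lit 4194304) (.ev (nat_lit 3332) (nat_lit 68719476736) (.ev (nat_lit 3341) (nat_lit
 562949953421312) .dd)))))) (.br (nat_lit 9) (.ch (nat_lit 8) (.ev (nat_lit 1152) (nat_lit 563018672898048)
 (.ev (nat_lit 1540) (nat_lit 16777216) (.ev (nat_lit 1549) (nat_lit 4194304) .dd)))) (.ch (nat_lit 9) (.ev
 (nat_lit 1412) (nat_lit 4194304) (.ev (nat_lit 1700) (nat_lit 16777216) (.ev (nat_lit 2628) (nat_lit
 562949953421312) (.ev (nat_lit 2637) (nat_lit 68719476736) .dd))))))) (.br (nat_lit 13) (.br (nat_lit 12) (.ch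
 (nat_lit 11) (.ev (nat_lit 1152) (nat_lit 562949957615616) (.ev (nat_lit 1444) (nat_lit 16777216) (.ev
 (nat_lit 1453) (nat_lit 68719476736) .dd)))) (.ch (nat_lit 12) (.ev (nat_lit 1152) (nat_lit 68740448256) (.ev
 (nat_lit 1165) (nat_lit 562949953421312) .dd)))) (.br (nat_lit 14) (.ch (nat_lit 13) (.ev (nat_lit 1152)
 (nat_lit 563018672898048) (.ev (nat_lit 1172) (nat_lit 16777216) (.ev (nat_lit 1181) (nat_lit 4194304) .dd))))
 (.ch (nat_lit 14) (.ev (nat_lit 1152) (nat_lit 68736253952) (.ev (nat_lit 1492) (nat_lit 4194304) (.ev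
 (nat_lit 1501) (nat_lit 562949953421312) .dd)))))))))))))))))) (.br (nat_lit 5) (.ch (nat_lit 2) (.ev (nat_lit
 48) (nat_lit 4813064699904) (.nd (nat_lit 464) (.br (nat_lit 5) (.br (nat_lit 3) (.br (nat_lit 2) (.ch
 (nat_lit 1) (.ev (nat_lit 480) (nat_lit 1168503734272) (.nd (nat_lit 2016) (.br (nat_lit 10) (.ch (nat_lit 4)
 (.fin (nat_lit 576465700104127054))) (.br (nat_lit 16) (.ch (nat_lit 10) (.ev (nat_lit 2032) (nat_lit
 562949953421824) .dd)) (.ch (nat_lit 16) (.ev (nat_lit 2032) (nat_lit 562949953421824) .dd))))))) (.ch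
 (nat_lit 2) (.ev (nat_lit 480) (nat_lit 564049737679360) (.ev (nat_lit 493) (nat_lit 68719476736) .dd)))) (.br
 (nat_lit 4) (.ch (nat_lit 3) (.ev (nat_lit 480) (nat_lit 563018672898560) (.nd (nat_lit 1344) (.br (nat_lit
 10) (.br (nat_lit 7) (.br (nat_lit 6) (.ch (nat_lit 4) (.ev (nat_lit 1360) (nat_lit 1099511627776) (.ev
 (nat_lit 1412) (nat_lit 268435456) (.ev (nat_lit 1421) (nat_lit 4194304) .dd)))) (.ch (nat_lit 6) (.ev
 (nat_lit 1360) (nat_lit 4194304) (.ev (nat_lit 3380) (nat_lit 1099511627776) (.ev (nat_lit 3389) (nat_lit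
 268435456) .dd))))) (.br (nat_lit 8) (.ch (nat_lit 7) (.ev (nat_lit 1360) (nat_lit 1099511627776) (.ev
 (nat_lit 2228) (nat_lit 4194304) (.ev (nat_lit 2237) (nat_lit 268435456) .dd)))) (.ch (nat_lit 8) (.ev
 (nat_lit 1360) (nat_lit 272629760) (.ev (nat_lit 1373) (nat_lit 1099511627776) .dd))))) (.br (nat_lit 12) (.br
 (nat_lit 11) (.ch (nat_lit 10) (.ev (nat_lit 1360) (nat_lit 4194304) (.ev (nat_lit 1412) (nat_lit 268435456)
 (.ev (nat_lit 1421) (nat_lit 1099511627776) .dd)))) (.ch (nat_lit 11) (.ev (nat_lit 1360) (nat_lit 272629760)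
 (.ev (nat_lit 1373) (nat_lit 1099511627776) .dd)))) (.br (nat_lit 16) (.ch (nat_lit 12) (.ev (nat_lit 1360)
 (nat_lit 272629760) (.ev (nat_lit 1373) (nat_lit 1099511627776) .dd))) (.ch (nat_lit 16) (.ev (nat_lit 1360)
 (nat_lit 1099515822080) (.ev (nat_lit 1373) (nat_lit 268435456) .dd))))))))) (.ch (nat_lit 4) (.ev (nat_lit
 480) (nat_lit 562950226051584) (.nd (nat_lit 1344) (.br (nat_lit 7) (.br (nat_lit 4) (.br (nat_lit 3) (.ch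
 (nat_lit 1) (.ev (nat_lit 1360) (nat_lit 1099511627776) (.ev (nat_lit 1373) (nat_lit 68719476736) .dd))) (.ch
 (nat_lit 3) (.ev (nat_lit 1360) (nat_lit 1099511627776) (.ev (nat_lit 1373) (nat_lit 68719476736) .dd)))) (.br
 (nat_lit 6) (.ch (nat_lit 4) (.ev (nat_lit 1360) (nat_lit 68719476736) (.ev (nat_lit 1373) (nat_lit
 1099511627776) .dd))) (.ch (nat_lit 6) (.ev (nat_lit 1360) (nat_lit 1099511627776) (.ev (nat_lit 1373)
 (nat_lit 68719476736) .dd))))) (.br (nat_lit 9) (.br (nat_lit 8) (.ch (nat_lit 7) (.ev (nat_lit 1360) (nat_lit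
 1168231104512) .dd)) (.ch (nat_lit 8) (.ev (nat_lit 1360) (nat_lit 68719476736) (.ev (nat_lit 1373) (nat_lit
 1099511627776) .dd)))) (.br (nat_lit 10) (.ch (nat_lit 9) (.ev (nat_lit 1360) (nat_lit 1099511627776) (.ev
 (nat_lit 1373) (nat_lit 68719476736) .dd))) (.br (nat_lit 15) (.ch (nat_lit 10) (.ev (nat_lit 1360) (nat_lit
 1099511627776) (.ev (nat_lit 1373) (nat_lit 68719476736) .dd))) (.ch (nat_lit 15) (.ev (nat_lit 1360) (nat_lit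
 68719476736) (.ev (nat_lit 1373) (nat_lit 1099511627776) .dd)))))))))))) (.br (nat_lit 10) (.br (nat_lit 6)
 (.ch (nat_lit 5) (.ev (nat_lit 480) (nat_lit 1099780063232) (.nd (nat_lit 1344) (.br (nat_lit 10) (.br
 (nat_lit 5) (.br (nat_lit 3) (.ch (nat_lit 0) (.ev (nat_lit 1360) (nat_lit 563018672898560) (.ev (nat_lit
 1373) (nat_lit 4194304) .dd))) (.ch (nat_lit 3) (.ev (nat_lit 1360) (nat_lit 512) (.ev (nat_lit 1588) (nat_lit
 4194304) (.ev (nat_lit 1648) (nat_lit 68719476736) (.ev (nat_lit 1661) (nat_lit 562949953421312) .dd))))))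
 (.br (nat_lit 9) (.ch (nat_lit 5) (.ev (nat_lit 1360) (nat_lit 562949957616128) (.ev (nat_lit 1373) (nat_lit
 68719476736) .dd))) (.ch (nat_lit 9) (.ev (nat_lit 1360) (nat_lit 68723671040) (.ev (nat_lit 1412) (nat_lit
 512) (.ev (nat_lit 1421) (nat_lit 562949953421312) .dd)))))) (.br (nat_lit 13) (.br (nat_lit 11) (.ch (nat_lit
 10) (.ev (nat_lit 1360) (nat_lit 563018672898560) (.ev (nat_lit 1373) (nat_lit 4194304) .dd))) (.ch (nat_lit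
 11) (.ev (nat_lit 1360) (nat_lit 563018672898048) (.ev (nat_lit 1444) (nat_lit 4194304) (.ev (nat_lit 1453)
 (nat_lit 512) .dd))))) (.br (nat_lit 15) (.ch (nat_lit 13) (.ev (nat_lit 1360) (nat_lit 68723671552) (.ev
 (nat_lit 1373) (nat_lit 562949953421312) .dd))) (.br (nat_lit 16) (.ch (nat_lit 15) (.ev (nat_lit 1360)
 (nat_lit 562949957616128) (.ev (nat_lit 1373) (nat_lit 68719476736) .dd))) (.ch (nat_lit 16) (.ev (nat_lit
 1360) (nat_lit 68723671552) (.ev (nat_lit 1373) (nat_lit 562949953421312) .dd)))))))))) (.ch (nat_lit 6) (.ev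
 (nat_lit 480) (nat_lit 68992107008) (.ev (nat_lit 1700) (nat_lit 562949953421312) (.ev (nat_lit 1709) (nat_lit
 1099511627776) .dd))))) (.br (nat_lit 11) (.ch (nat_lit 10) (.ev (nat_lit 480) (nat_lit 564118452961792) (.ev
 (nat_lit 493) (nat_lit 4194304) .dd))) (.br (nat_lit 13) (.ch (nat_lit 11) (.ev (nat_lit 480) (nat_lit
 4194816) (.nd (nat_lit 1136) (.br (nat_lit 8) (.br (nat_lit 4) (.br (nat_lit 1) (.ch (nat_lit 0) (.ev (nat_lit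
 1152) (nat_lit 564049465049088) (.ev (nat_lit 1172) (nat_lit 268435456) (.ev (nat_lit 1181) (nat_lit
 68719476736) .dd)))) (.ch (nat_lit 1) (.ev (nat_lit 1152) (nat_lit 1099780063232) (.ev (nat_lit 1172) (nat_lit
 562949953421312) (.ev (nat_lit 1181) (nat_lit 68719476736) .dd))))) (.br (nat_lit 7) (.ch (nat_lit 4) (.ev
 (nat_lit 1152) (nat_lit 1168499539968) (.ev (nat_lit 1165) (nat_lit 562949953421312) .dd))) (.ch (nat_lit 7)
 (.ev (nat_lit 1152) (nat_lit 562949953421312) (.ev (nat_lit 1172) (nat_lit 268435456) (.fin (nat_lit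
 577004460804883085))))))) (.br (nat_lit 11) (.br (nat_lit 10) (.ch (nat_lit 8) (.ev (nat_lit 1152) (nat_lit
 68719476736) (.ev (nat_lit 1172) (nat_lit 1099511627776) (.ev (nat_lit 1552) (nat_lit 562949953421312) (.ev
 (nat_lit 1565) (nat_lit 268435456) .dd))))) (.ch (nat_lit 10) (.ev (nat_lit 1152) (nat_lit 564049465049088)
 (.nd (nat_lit 4512) (.br (nat_lit 14) (.ch (nat_lit 3) (.nd (nat_lit 5792) (.br (nat_lit 13) (.ch (nat_lit 0)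
 (.ev (nat_lit 5808) (nat_lit 268435456) (.ev (nat_lit 5821) (nat_lit 68719476736) .dd))) (.ch (nat_lit 13)
 (.fin (nat_lit 576280981886419438)))))) (.ch (nat_lit 14) (.ev (nat_lit 4528) (nat_lit 68719476736) (.ev
 (nat_lit 4541) (nat_lit 268435456) .dd)))))))) (.br (nat_lit 13) (.ch (nat_lit 11) (.ev (nat_lit 1152)
 (nat_lit 564049733484544) (.ev (nat_lit 1165) (nat_lit 68719476736) .dd))) (.br (nat_lit 15) (.ch (nat_lit 13)
 (.ev (nat_lit 1152) (nat_lit 1168231104512) (.ev (nat_lit 1172) (nat_lit 562949953421312) (.ev (nat_lit 1181)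
 (nat_lit 268435456) .dd)))) (.ch (nat_lit 15) (.ev (nat_lit 1152) (nat_lit 564118452961280) .dd))))))))) (.ch
 (nat_lit 13) (.ev (nat_lit 480) (nat_lit 562949957615616) (.nd (nat_lit 1136) (.br (nat_lit 7) (.br (nat_lit
 4) (.br (nat_lit 2) (.ch (nat_lit 0) (.ev (nat_lit 1152) (nat_lit 1099511628288) (.ev (nat_lit 1236) (nat_lit
 68719476736) (.ev (nat_lit 1245) (nat_lit 268435456) .dd)))) (.ch (nat_lit 2) (.ev (nat_lit 1152) (nat_lit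
 268435968) (.ev (nat_lit 1204) (nat_lit 1099511627776) (.ev (nat_lit 1213) (nat_lit 68719476736) .dd))))) (.br
 (nat_lit 5) (.ch (nat_lit 4) (.ev (nat_lit 1152) (nat_lit 68719477248) (.ev (nat_lit 3940) (nat_lit
 1099511627776) (.ev (nat_lit 3949) (nat_lit 268435456) .dd)))) (.ch (nat_lit 5) (.ev (nat_lit 1152) (nat_lit
 1168231105024) (.ev (nat_lit 1165) (nat_lit 268435456) .dd))))) (.br (nat_lit 13) (.br (nat_lit 9) (.ch
 (nat_lit 7) (.ev (nat_lit 1152) (nat_lit 1168231105024) (.ev (nat_lit 1165) (nat_lit 268435456) .dd))) (.ch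
 (nat_lit 9) (.ev (nat_lit 1152) (nat_lit 268435456) (.ev (nat_lit 1204) (nat_lit 68719476736) (.ev (nat_lit
 1732) (nat_lit 512) (.ev (nat_lit 1741) (nat_lit 1099511627776) .dd)))))) (.br (nat_lit 14) (.ch (nat_lit 13)
 (.ev (nat_lit 1152) (nat_lit 1099511628288) (.ev (nat_lit 1924) (nat_lit 268435456) (.ev (nat_lit 1933)
 (nat_lit 68719476736) .dd)))) (.br (nat_lit 15) (.ch (nat_lit 14) (.ev (nat_lit 1152) (nat_lit 268435456) (.ev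
 (nat_lit 1172) (nat_lit 512) (.ev (nat_lit 3044) (nat_lit 1099511627776) (.ev (nat_lit 3053) (nat_lit
 68719476736) .dd))))) (.ch (nat_lit 15) (.ev (nat_lit 1152) (nat_lit 68987912192) (.ev (nat_lit 1732) (nat_lit
 512) (.ev (nat_lit 1741) (nat_lit 1099511627776) .dd)))))))))))))))))) (.ch (nat_lit 5) (.ev (nat_lit 48)
 (nat_lit 564462608384000) (.nd (nat_lit 464) (.br (nat_lit 6) (.br (nat_lit 3) (.br (nat_lit 1) (.ch (nat_lit
 0) (.ev (nat_lit 480) (nat_lit 4398046511616) (.nd (nat_lit 1344) (.br (nat_lit 8) (.br (nat_lit 2) (.br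
 (nat_lit 1) (.ch (nat_lit 0) (.ev (nat_lit 1360) (nat_lit 70866960384) .dd)) (.ch (nat_lit 1) (.ev (nat_lit
 1360) (nat_lit 2147483648) (.ev (nat_lit 1373) (nat_lit 68719476736) .dd)))) (.br (nat_lit 6) (.ch (nat_lit 2)
 (.ev (nat_lit 3524) (nat_lit 68719476736) (.ev (nat_lit 3533) (nat_lit 2147483648) .dd))) (.ch (nat_lit 6)
 (.ev (nat_lit 1360) (nat_lit 2147483648) (.ev (nat_lit 1373) (nat_lit 68719476736) .dd))))) (.br (nat_lit 11)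
 (.br (nat_lit 10) (.ch (nat_lit 8) (.ev (nat_lit 1360) (nat_lit 70866960384) .dd)) (.ch (nat_lit 10) (.ev
 (nat_lit 1360) (nat_lit 68719476736) (.ev (nat_lit 1373) (nat_lit 2147483648) .dd)))) (.br (nat_lit 13) (.ch
 (nat_lit 11) (.ev (nat_lit 1360) (nat_lit 68719476736) (.ev (nat_lit 1373) (nat_lit 2147483648) .dd))) (.br
 (nat_lit 15) (.ch (nat_lit 13) (.ev (nat_lit 3524) (nat_lit 2147483648) (.ev (nat_lit 3533) (nat_lit
 68719476736) .dd))) (.ch (nat_lit 15) (.ev (nat_lit 1360) (nat_lit 2147483648) (.ev (nat_lit 1373) (nat_lit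
 68719476736) .dd)))))))))) (.ch (nat_lit 1) (.ev (nat_lit 480) (nat_lit 70866960384) (.ev (nat_lit 1712)
 (nat_lit 512) (.ev (nat_lit 1725) (nat_lit 4398046511104) .dd))))) (.br (nat_lit 4) (.ch (nat_lit 3) (.ev
 (nat_lit 480) (nat_lit 2147484160) (.nd (nat_lit 1344) (.br (nat_lit 8) (.br (nat_lit 4) (.ch (nat_lit 1) (.ev
 (nat_lit 1360) (nat_lit 4466765987840) .dd)) (.br (nat_lit 6) (.ch (nat_lit 4) (.ev (nat_lit 1360) (nat_lit
 4466765987840) .dd)) (.ch (nat_lit 6) (.ev (nat_lit 1360) (nat_lit 68719476736) (.ev (nat_lit 1373) (nat_lit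
 4398046511104) .dd))))) (.br (nat_lit 11) (.ch (nat_lit 8) (.ev (nat_lit 1360) (nat_lit 4398046511104) (.ev
 (nat_lit 1373) (nat_lit 68719476736) .dd))) (.br (nat_lit 12) (.ch (nat_lit 11) (.ev (nat_lit 1360) (nat_lit
 4398046511104) (.ev (nat_lit 1373) (nat_lit 68719476736) .dd))) (.ch (nat_lit 12) (.ev (nat_lit 1360) (nat_lit
 68719476736) (.ev (nat_lit 1373) (nat_lit 4398046511104) .dd))))))))) (.ch (nat_lit 4) (.ev (nat_lit 480)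
 (nat_lit 68719476736) (.nd (nat_lit 1344) (.br (nat_lit 9) (.br (nat_lit 1) (.ch (nat_lit 0) (.ev (nat_lit
 1360) (nat_lit 2147484160) (.ev (nat_lit 1373) (nat_lit 4398046511104) .dd))) (.br (nat_lit 3) (.ch (nat_lit
 1) (.ev (nat_lit 1412) (nat_lit 2147484160) (.ev (nat_lit 1421) (nat_lit 4398046511104) .dd))) (.ch (nat_lit
 3) (.ev (nat_lit 1360) (nat_lit 4398046511616) (.ev (nat_lit 1373) (nat_lit 2147483648) .dd))))) (.br (nat_lit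
 14) (.br (nat_lit 12) (.ch (nat_lit 9) (.ev (nat_lit 1360) (nat_lit 4398046511104) (.ev (nat_lit 1444)
 (nat_lit 512) (.ev (nat_lit 1453) (nat_lit 2147483648) .dd)))) (.ch (nat_lit 12) (.ev (nat_lit 1360) (nat_lit
 512) (.ev (nat_lit 1588) (nat_lit 2147483648) (.ev (nat_lit 1597) (nat_lit 4398046511104) .dd))))) (.br
 (nat_lit 15) (.ch (nat_lit 14) (.ev (nat_lit 1360) (nat_lit 4398046511616) (.ev (nat_lit 1373) (nat_lit
 2147483648) .dd))) (.ch (nat_lit 15) (.ev (nat_lit 1360) (nat_lit 4400193994752) (.ev (nat_lit 1373) (nat_lit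
 512) .dd))))))))))) (.br (nat_lit 11) (.br (nat_lit 7) (.ch (nat_lit 6) (.ev (nat_lit 480) (nat_lit
 4468913472000) .dd)) (.ch (nat_lit 7) (.ev (nat_lit 480) (nat_lit 4400193995264) (.ev (nat_lit 493) (nat_lit
 68719476736) .dd)))) (.br (nat_lit 12) (.ch (nat_lit 11) (.ev (nat_lit 480) (nat_lit 4468913471488) (.ev
 (nat_lit 493) (nat_lit 512) .dd))) (.br (nat_lit 15) (.ch (nat_lit 12) (.ev (nat_lit 480) (nat_lit
 4398046511104) (.nd (nat_lit 1344) (.br (nat_lit 10) (.br (nat_lit 5) (.br (nat_lit 4) (.ch (nat_lit 0) (.ev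
 (nat_lit 1360) (nat_lit 70866960896) .dd)) (.ch (nat_lit 4) (.ev (nat_lit 1360) (nat_lit 2147484160) (.ev
 (nat_lit 1373) (nat_lit 68719476736) .dd)))) (.br (nat_lit 8) (.ch (nat_lit 5) (.ev (nat_lit 1360) (nat_lit
 70866960896) .dd)) (.ch (nat_lit 8) (.ev (nat_lit 1360) (nat_lit 70866960384) (.ev (nat_lit 1373) (nat_lit
 512) .dd))))) (.br (nat_lit 12) (.br (nat_lit 11) (.ch (nat_lit 10) (.ev (nat_lit 1360) (nat_lit 2147484160)
 (.ev (nat_lit 1373) (nat_lit 68719476736) .dd))) (.ch (nat_lit 11) (.ev (nat_lit 1540) (nat_lit 68719476736)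
 (.nd (nat_lit 5120) (.br (nat_lit 12) (.ch (nat_lit 8) (.ev (nat_lit 5136) (nat_lit 2147483648) (.ev (nat_lit
 5149) (nat_lit 512) .dd))) (.br (nat_lit 14) (.ch (nat_lit 12) (.ev (nat_lit 5136) (nat_lit 2147484160) .dd))
 (.ch (nat_lit 14) (.fin (nat_lit 576399729273291225))))))))) (.br (nat_lit 15) (.ch (nat_lit 12) (.ev (nat_lit
 1360) (nat_lit 68719477248) (.ev (nat_lit 1373) (nat_lit 2147483648) .dd))) (.ch (nat_lit 15) (.ev (nat_lit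
 1360) (nat_lit 2147484160) (.ev (nat_lit 1373) (nat_lit 68719476736) .dd))))))))) (.ch (nat_lit 15) (.ev
 (nat_lit 480) (nat_lit 2147484160) (.ev (nat_lit 1412) (nat_lit 4398046511104) (.ev (nat_lit 1421) (nat_lit
 68719476736) .dd))))))))))))) (.br (nat_lit 12) (.br (nat_lit 11) (.ch (nat_lit 8) (.ev (nat_lit 48) (nat_lit
 564393888907264) (.nd (nat_lit 464) (.br (nat_lit 10) (.br (nat_lit 5) (.br (nat_lit 4) (.ch (nat_lit 1) (.ev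
 (nat_lit 480) (nat_lit 4400193994752) (.ev (nat_lit 1412) (nat_lit 512) (.ev (nat_lit 1421) (nat_lit
 137438953472) .dd)))) (.ch (nat_lit 4) (.ev (nat_lit 480) (nat_lit 512) (.nd (nat_lit 1344) (.br (nat_lit 10)
 (.br (nat_lit 5) (.br (nat_lit 1) (.ch (nat_lit 0) (.ev (nat_lit 1360) (nat_lit 4537632948224) .dd)) (.ch
 (nat_lit 1) (.ev (nat_lit 1360) (nat_lit 4400193994752) (.ev (nat_lit 1373) (nat_lit 137438953472) .dd))))
 (.br (nat_lit 7) (.ch (nat_lit 5) (.ev (nat_lit 1360) (nat_lit 4537632948224) .dd)) (.ch (nat_lit 7) (.ev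
 (nat_lit 1360) (nat_lit 4400193994752) (.ev (nat_lit 1373) (nat_lit 137438953472) .dd))))) (.br (nat_lit 12)
 (.br (nat_lit 11) (.ch (nat_lit 10) (.ev (nat_lit 1360) (nat_lit 4535485464576) (.ev (nat_lit 1373) (nat_lit
 2147483648) .dd))) (.ch (nat_lit 11) (.ev (nat_lit 1540) (nat_lit 137438953472) (.nd (nat_lit 4864) (.br
 (nat_lit 5) (.ch (nat_lit 3) (.fin (nat_lit 576399729545921135))) (.br (nat_lit 9) (.ch (nat_lit 5) (.ev
 (nat_lit 4880) (nat_lit 4400193994752) .dd)) (.ch (nat_lit 9) (.ev (nat_lit 4880) (nat_lit 2147483648) (.ev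
 (nat_lit 4893) (nat_lit 4398046511104) .dd))))))))) (.br (nat_lit 14) (.ch (nat_lit 12) (.ev (nat_lit 1360)
 (nat_lit 4400193994752) (.ev (nat_lit 1373) (nat_lit 137438953472) .dd))) (.ch (nat_lit 14) (.ev (nat_lit
 1360) (nat_lit 139586437120) (.ev (nat_lit 1373) (nat_lit 4398046511104) .dd)))))))))) (.br (nat_lit 9) (.ch
 (nat_lit 5) (.ev (nat_lit 480) (nat_lit 139586437632) (.ev (nat_lit 493) (nat_lit 4398046511104) .dd))) (.ch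
 (nat_lit 9) (.ev (nat_lit 480) (nat_lit 4400193995264) (.ev (nat_lit 493) (nat_lit 137438953472) .dd))))) (.br
 (nat_lit 13) (.br (nat_lit 12) (.ch (nat_lit 10) (.ev (nat_lit 480) (nat_lit 4537632948736) .dd)) (.ch
 (nat_lit 12) (.ev (nat_lit 480) (nat_lit 137438953472) (.ev (nat_lit 1764) (nat_lit 4398046511104) (.nd
 (nat_lit 2016) (.br (nat_lit 9) (.br (nat_lit 5) (.ch (nat_lit 3) (.ev (nat_lit 2032) (nat_lit 512) (.ev
 (nat_lit 2045) (nat_lit 2147483648) .dd))) (.br (nat_lit 6) (.ch (nat_lit 5) (.ev (nat_lit 2052) (nat_lit 512)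
 (.ev (nat_lit 2061) (nat_lit 2147483648) .dd))) (.ch (nat_lit 6) (.ev (nat_lit 2032) (nat_lit 2147483648) (.ev
 (nat_lit 2045) (nat_lit 512) .dd))))) (.br (nat_lit 11) (.ch (nat_lit 9) (.ev (nat_lit 2032) (nat_lit 512)
 (.ev (nat_lit 2045) (nat_lit 2147483648) .dd))) (.br (nat_lit 14) (.ch (nat_lit 11) (.ev (nat_lit 2032)
 (nat_lit 2147484160) .dd)) (.ch (nat_lit 14) (.ev (nat_lit 2032) (nat_lit 512) (.ev (nat_lit 2045) (nat_lit
 2147483648) .dd))))))))))) (.br (nat_lit 15) (.ch (nat_lit 13) (.ev (nat_lit 480) (nat_lit 4400193994752) (.ev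
 (nat_lit 1412) (nat_lit 137438953472) (.ev (nat_lit 1421) (nat_lit 512) .dd)))) (.br (nat_lit 16) (.ch
 (nat_lit 15) (.ev (nat_lit 480) (nat_lit 139586437120) (.ev (nat_lit 1712) (nat_lit 4398046511104) (.ev
 (nat_lit 1725) (nat_lit 512) .dd)))) (.ch (nat_lit 16) (.ev (nat_lit 480) (nat_lit 4398046511616) (.nd
 (nat_lit 1344) (.br (nat_lit 7) (.br (nat_lit 4) (.br (nat_lit 2) (.ch (nat_lit 0) (.ev (nat_lit 1360)
 (nat_lit 2147483648) (.ev (nat_lit 1373) (nat_lit 137438953472) .dd))) (.ch (nat_lit 2) (.ev (nat_lit 3524)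
 (nat_lit 2147483648) (.ev (nat_lit 3533) (nat_lit 137438953472) .dd)))) (.br (nat_lit 5) (.ch (nat_lit 4) (.ev
 (nat_lit 1360) (nat_lit 137438953472) (.ev (nat_lit 1373) (nat_lit 2147483648) .dd))) (.ch (nat_lit 5) (.ev
 (nat_lit 1360) (nat_lit 137438953472) (.ev (nat_lit 1373) (nat_lit 2147483648) .dd))))) (.br (nat_lit 13) (.br
 (nat_lit 9) (.ch (nat_lit 7) (.ev (nat_lit 1360) (nat_lit 139586437120) .dd)) (.ch (nat_lit 9) (.ev (nat_lit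
 1360) (nat_lit 2147483648) (.ev (nat_lit 1373) (nat_lit 137438953472) .dd)))) (.br (nat_lit 14) (.ch (nat_lit
 13) (.ev (nat_lit 3524) (nat_lit 137438953472) (.ev (nat_lit 3533) (nat_lit 2147483648) .dd))) (.br (nat_lit
 15) (.ch (nat_lit 14) (.ev (nat_lit 1360) (nat_lit 2147483648) (.ev (nat_lit 1373) (nat_lit 137438953472)
 .dd))) (.ch (nat_lit 15) (.ev (nat_lit 1360) (nat_lit 139586437120) .dd)))))))))))))))) (.ch (nat_lit 11) (.ev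
 (nat_lit 48) (nat_lit 563021374226944) (.nd (nat_lit 464) (.br (nat_lit 8) (.br (nat_lit 2) (.br (nat_lit 1)
 (.ch (nat_lit 0) (.ev (nat_lit 480) (nat_lit 5772440240128) (.nd (nat_lit 2016) (.br (nat_lit 6) (.br (nat_lit
 4) (.br (nat_lit 3) (.ch (nat_lit 2) (.ev (nat_lit 2032) (nat_lit 268435456) (.ev (nat_lit 2045) (nat_lit
 137438953472) .dd))) (.ch (nat_lit 3) (.ev (nat_lit 2032) (nat_lit 268435456) (.ev (nat_lit 2045) (nat_lit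
 137438953472) .dd)))) (.br (nat_lit 5) (.ch (nat_lit 4) (.ev (nat_lit 2032) (nat_lit 137438953472) (.ev
 (nat_lit 2045) (nat_lit 268435456) .dd))) (.ch (nat_lit 5) (.ev (nat_lit 2032) (nat_lit 137707388928) .dd))))
 (.br (nat_lit 9) (.br (nat_lit 8) (.ch (nat_lit 6) (.ev (nat_lit 2032) (nat_lit 268435456) (.ev (nat_lit 2045)
 (nat_lit 137438953472) .dd))) (.ch (nat_lit 8) (.ev (nat_lit 2032) (nat_lit 137438953472) (.ev (nat_lit 2045)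
 (nat_lit 268435456) .dd)))) (.br (nat_lit 11) (.ch (nat_lit 9) (.ev (nat_lit 2032) (nat_lit 268435456) (.ev
 (nat_lit 2045) (nat_lit 137438953472) .dd))) (.br (nat_lit 14) (.ch (nat_lit 11) (.ev (nat_lit 2032) (nat_lit
 268435456) (.ev (nat_lit 2045) (nat_lit 137438953472) .dd))) (.ch (nat_lit 14) (.ev (nat_lit 2032) (nat_lit
 137438953472) (.ev (nat_lit 2045) (nat_lit 268435456) .dd)))))))))) (.ch (nat_lit 1) (.ev (nat_lit 480)
 (nat_lit 4810363371520) (.nd (nat_lit 1344) (.br (nat_lit 12) (.br (nat_lit 7) (.br (nat_lit 2) (.ch (nat_lit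
 0) (.ev (nat_lit 1360) (nat_lit 4194304) (.ev (nat_lit 3380) (nat_lit 268435456) (.ev (nat_lit 3389) (nat_lit
 1099511627776) .dd)))) (.ch (nat_lit 2) (.ev (nat_lit 1360) (nat_lit 268435456) (.ev (nat_lit 1412) (nat_lit
 1099511627776) (.ev (nat_lit 1421) (nat_lit 4194304) .dd))))) (.br (nat_lit 11) (.ch (nat_lit 7) (.ev (nat_lit
 1360) (nat_lit 272629760) (.ev (nat_lit 1373) (nat_lit 1099511627776) .dd))) (.ch (nat_lit 11) (.ev (nat_lit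
 1360) (nat_lit 1099515822080) (.ev (nat_lit 1373) (nat_lit 268435456) .dd))))) (.br (nat_lit 15) (.br (nat_lit
 13) (.ch (nat_lit 12) (.ev (nat_lit 1360) (nat_lit 1099515822080) (.ev (nat_lit 1373) (nat_lit 268435456)
 .dd))) (.ch (nat_lit 13) (.ev (nat_lit 1360) (nat_lit 4194304) (.ev (nat_lit 1412) (nat_lit 1099511627776)
 (.ev (nat_lit 1421) (nat_lit 268435456) .dd))))) (.br (nat_lit 16) (.ch (nat_lit 15) (.ev (nat_lit 1360)
 (nat_lit 1099515822080) (.ev (nat_lit 1373) (nat_lit 268435456) .dd))) (.ch (nat_lit 16) (.ev (nat_lit 1360)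
 (nat_lit 268435456) (.ev (nat_lit 2228) (nat_lit 4194304) (.ev (nat_lit 2237) (nat_lit 1099511627776)
 .dd))))))))))) (.br (nat_lit 3) (.ch (nat_lit 2) (.ev (nat_lit 480) (nat_lit 5772708675584) (.ev (nat_lit 493)
 (nat_lit 137438953472) .dd))) (.ch (nat_lit 3) (.ev (nat_lit 480) (nat_lit 1237223211008) (.nd (nat_lit 2016)
 (.br (nat_lit 7) (.ch (nat_lit 1) (.ev (nat_lit 2032) (nat_lit 4672924418048) .dd)) (.br (nat_lit 12) (.ch
 (nat_lit 7) (.fin (nat_lit 576465700110418486))) (.ch (nat_lit 12) (.ev (nat_lit 2032) (nat_lit 4672924418048)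
 .dd))))))))) (.br (nat_lit 11) (.br (nat_lit 10) (.ch (nat_lit 8) (.ev (nat_lit 480) (nat_lit 274882101248)
 (.nd (nat_lit 1344) (.br (nat_lit 10) (.br (nat_lit 1) (.ch (nat_lit 0) (.ev (nat_lit 1360) (nat_lit
 1099511627776) (.ev (nat_lit 1412) (nat_lit 4398046511104) (.ev (nat_lit 3044) (nat_lit 268435456) (.ev
 (nat_lit 3053) (nat_lit 137438953472) .dd))))) (.br (nat_lit 5) (.ch (nat_lit 1) (.ev (nat_lit 1360) (nat_lit
 4398314946560) (.ev (nat_lit 1924) (nat_lit 1099511627776) (.ev (nat_lit 1933) (nat_lit 137438953472) .dd))))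
 (.ch (nat_lit 5) (.ev (nat_lit 1360) (nat_lit 1099511627776) (.ev (nat_lit 1412) (nat_lit 137438953472) (.ev
 (nat_lit 1732) (nat_lit 4398046511104) (.ev (nat_lit 1741) (nat_lit 268435456) .dd))))))) (.br (nat_lit 14)
 (.ch (nat_lit 10) (.ev (nat_lit 1360) (nat_lit 4535485464576) (.ev (nat_lit 3940) (nat_lit 268435456) (.ev
 (nat_lit 3949) (nat_lit 1099511627776) .dd)))) (.br (nat_lit 16) (.ch (nat_lit 14) (.ev (nat_lit 1360)
 (nat_lit 4398314946560) (.ev (nat_lit 1412) (nat_lit 137438953472) (.ev (nat_lit 1421) (nat_lit 1099511627776)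
 .dd)))) (.ch (nat_lit 16) (.ev (nat_lit 1360) (nat_lit 1236950581248) (.ev (nat_lit 1732) (nat_lit
 4398046511104) (.ev (nat_lit 1741) (nat_lit 268435456) .dd)))))))))) (.ch (nat_lit 10) (.ev (nat_lit 480)
 (nat_lit 4398050705408) (.ev (nat_lit 1700) (nat_lit 274877906944) (.nd (nat_lit 2016) (.br (nat_lit 9) (.br
 (nat_lit 4) (.ch (nat_lit 2) (.ev (nat_lit 2032) (nat_lit 268435456) (.ev (nat_lit 2052) (nat_lit
 137438953472) (.ev (nat_lit 2061) (nat_lit 1099511627776) .dd)))) (.br (nat_lit 8) (.ch (nat_lit 4) (.ev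
 (nat_lit 2032) (nat_lit 1237219016704) .dd)) (.ch (nat_lit 8) (.ev (nat_lit 2032) (nat_lit 1099780063232) (.ev
 (nat_lit 2045) (nat_lit 137438953472) .dd))))) (.br (nat_lit 12) (.br (nat_lit 11) (.ch (nat_lit 9) (.ev
 (nat_lit 2032) (nat_lit 268435456) (.nd (nat_lit 5184) (.br (nat_lit 11) (.ch (nat_lit 0) (.ev (nat_lit 5200)
 (nat_lit 137438953472) (.ev (nat_lit 5213) (nat_lit 1099511627776) .dd))) (.ch (nat_lit 11) (.nd (nat_lit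
 6112) (.br (nat_lit 16) (.ch (nat_lit 12) (.ev (nat_lit 6128) (nat_lit 1099511627776) (.ev (nat_lit 6141)
 (nat_lit 137438953472) .dd))) (.ch (nat_lit 16) (.fin (nat_lit 576280982421193198)))))))))) (.ch (nat_lit 11)
 (.ev (nat_lit 2032) (nat_lit 137707388928) (.ev (nat_lit 2045) (nat_lit 1099511627776) .dd)))) (.br (nat_lit
 15) (.ch (nat_lit 12) (.ev (nat_lit 2052) (nat_lit 1099511627776) (.fin (nat_lit 577004460804883425)))) (.ch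
 (nat_lit 15) (.ev (nat_lit 2032) (nat_lit 1237219016704) .dd)))))))))) (.br (nat_lit 15) (.ch (nat_lit 11)
 (.ev (nat_lit 480) (nat_lit 5910143434752) (.ev (nat_lit 493) (nat_lit 4194304) .dd))) (.br (nat_lit 16) (.ch
 (nat_lit 15) (.ev (nat_lit 480) (nat_lit 5635001286656) (.ev (nat_lit 1700) (nat_lit 274877906944) (.ev
 (nat_lit 1709) (nat_lit 268435456) .dd)))) (.ch (nat_lit 16) (.ev (nat_lit 480) (nat_lit 1099780063232) (.nd
 (nat_lit 1344) (.br (nat_lit 6) (.br (nat_lit 2) (.br (nat_lit 1) (.ch (nat_lit 0) (.ev (nat_lit 1360)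
 (nat_lit 4810363371520) (.ev (nat_lit 1373) (nat_lit 4194304) .dd))) (.ch (nat_lit 1) (.ev (nat_lit 1360)
 (nat_lit 4535489658880) (.ev (nat_lit 1373) (nat_lit 274877906944) .dd)))) (.br (nat_lit 4) (.ch (nat_lit 2)
 (.ev (nat_lit 1360) (nat_lit 4672928612352) (.ev (nat_lit 1373) (nat_lit 137438953472) .dd))) (.ch (nat_lit 4)
 (.ev (nat_lit 1360) (nat_lit 4535489658880) (.ev (nat_lit 1373) (nat_lit 274877906944) .dd))))) (.br (nat_lit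
 8) (.br (nat_lit 7) (.ch (nat_lit 6) (.ev (nat_lit 1360) (nat_lit 412316860416) (.ev (nat_lit 1444) (nat_lit
 4194304) (.ev (nat_lit 1453) (nat_lit 4398046511104) .dd)))) (.ch (nat_lit 7) (.ev (nat_lit 1360) (nat_lit
 4810363371520) (.ev (nat_lit 1373) (nat_lit 4194304) .dd)))) (.br (nat_lit 12) (.ch (nat_lit 8) (.ev (nat_lit
 1360) (nat_lit 137443147776) (.ev (nat_lit 1412) (nat_lit 4398046511104) (.ev (nat_lit 1421) (nat_lit
 274877906944) .dd)))) (.br (nat_lit 14) (.ch (nat_lit 12) (.ev (nat_lit 1360) (nat_lit 4672928612352) (.ev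
 (nat_lit 1373) (nat_lit 137438953472) .dd))) (.ch (nat_lit 14) (.ev (nat_lit 1360) (nat_lit 4398046511104)
 (.ev (nat_lit 1588) (nat_lit 4194304) (.ev (nat_lit 1648) (nat_lit 137438953472) (.ev (nat_lit 1661) (nat_lit
 274877906944) .dd)))))))))))))))))))) (.br (nat_lit 13) (.ch (nat_lit 12) (.ev (nat_lit 48) (nat_lit
 563020837224960) (.nd (nat_lit 384) (.br (nat_lit 7) (.br (nat_lit 4) (.br (nat_lit 3) (.ch (nat_lit 0) (.ev
 (nat_lit 400) (nat_lit 4672928743424) (.nd (nat_lit 1136) (.br (nat_lit 8) (.br (nat_lit 3) (.br (nat_lit 2)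
 (.ch (nat_lit 0) (.ev (nat_lit 1152) (nat_lit 1237755887616) .dd)) (.ch (nat_lit 2) (.ev (nat_lit 1172)
 (nat_lit 268435456) (.ev (nat_lit 2160) (nat_lit 536870912) (.ev (nat_lit 3360) (nat_lit 137438953472) (.ev
 (nat_lit 3373) (nat_lit 1099511627776) .dd)))))) (.br (nat_lit 4) (.ch (nat_lit 3) (.ev (nat_lit 1152)
 (nat_lit 1237219016704) (.ev (nat_lit 1165) (nat_lit 536870912) .dd))) (.ch (nat_lit 4) (.ev (nat_lit 1152)
 (nat_lit 1100316934144) (.ev (nat_lit 1165) (nat_lit 137438953472) .dd))))) (.br (nat_lit 14) (.br (nat_lit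
 13) (.ch (nat_lit 8) (.ev (nat_lit 1152) (nat_lit 137975824384) (.ev (nat_lit 1732) (nat_lit 268435456) (.ev
 (nat_lit 1741) (nat_lit 1099511627776) .dd)))) (.ch (nat_lit 13) (.ev (nat_lit 1152) (nat_lit 137975824384)
 (.ev (nat_lit 1700) (nat_lit 1099511627776) (.ev (nat_lit 1709) (nat_lit 268435456) .dd))))) (.br (nat_lit 15)
 (.ch (nat_lit 14) (.ev (nat_lit 1152) (nat_lit 137707388928) (.ev (nat_lit 1856) (nat_lit 1100048498688)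
 .dd))) (.br (nat_lit 16) (.ch (nat_lit 15) (.ev (nat_lit 1152) (nat_lit 1100048498688) (.fin (nat_lit
 576324962618917463)))) (.ch (nat_lit 16) (.ev (nat_lit 1152) (nat_lit 137975824384) (.ev (nat_lit 3684)
 (nat_lit 1099511627776) (.ev (nat_lit 3693) (nat_lit 268435456) .dd))))))))))) (.ch (nat_lit 3) (.ev (nat_lit
 400) (nat_lit 5498363576320) (.nd (nat_lit 1136) (.br (nat_lit 6) (.br (nat_lit 4) (.br (nat_lit 3) (.ch
 (nat_lit 0) (.ev (nat_lit 1152) (nat_lit 4194304) (.ev (nat_lit 2228) (nat_lit 137438953472) (.ev (nat_lit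
 2237) (nat_lit 274877906944) .dd)))) (.ch (nat_lit 3) (.ev (nat_lit 1152) (nat_lit 4194304) (.ev (nat_lit
 1540) (nat_lit 137438953472) (.ev (nat_lit 1549) (nat_lit 274877906944) .dd))))) (.br (nat_lit 5) (.ch
 (nat_lit 4) (.ev (nat_lit 1152) (nat_lit 137438953472) (.fin (nat_lit 576522874869203543)))) (.ch (nat_lit 5)
 (.ev (nat_lit 1152) (nat_lit 274882101248) (.ev (nat_lit 1165) (nat_lit 137438953472) .dd))))) (.br (nat_lit
 11) (.br (nat_lit 10) (.ch (nat_lit 6) (.ev (nat_lit 1152) (nat_lit 412316860416) (.ev (nat_lit 1165) (nat_lit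
 4194304) .dd))) (.ch (nat_lit 10) (.ev (nat_lit 1152) (nat_lit 412321054720) .dd))) (.br (nat_lit 13) (.ch
 (nat_lit 11) (.ev (nat_lit 1152) (nat_lit 137443147776) (.ev (nat_lit 1165) (nat_lit 274877906944) .dd))) (.br
 (nat_lit 14) (.ch (nat_lit 13) (.ev (nat_lit 1152) (nat_lit 4194304) (.ev (nat_lit 2228) (nat_lit
 274877906944) (.ev (nat_lit 2237) (nat_lit 137438953472) .dd)))) (.ch (nat_lit 14) (.ev (nat_lit 1152)
 (nat_lit 274882101248) (.ev (nat_lit 1165) (nat_lit 137438953472) .dd))))))))))) (.br (nat_lit 6) (.ch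
 (nat_lit 4) (.ev (nat_lit 400) (nat_lit 5497826705408) (.nd (nat_lit 1136) (.br (nat_lit 7) (.br (nat_lit 4)
 (.br (nat_lit 3) (.ch (nat_lit 2) (.ev (nat_lit 1152) (nat_lit 137975824384) (.ev (nat_lit 2052) (nat_lit
 4194304) (.ev (nat_lit 2061) (nat_lit 274877906944) .dd)))) (.ch (nat_lit 3) (.ev (nat_lit 1152) (nat_lit
 412316860416) (.ev (nat_lit 1172) (nat_lit 536870912) (.ev (nat_lit 1181) (nat_lit 4194304) .dd))))) (.br
 (nat_lit 5) (.ch (nat_lit 4) (.ev (nat_lit 1152) (nat_lit 137980018688) (.ev (nat_lit 1165) (nat_lit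
 274877906944) .dd))) (.ch (nat_lit 5) (.ev (nat_lit 1152) (nat_lit 274882101248) (.ev (nat_lit 1444) (nat_lit
 536870912) (.ev (nat_lit 1453) (nat_lit 137438953472) .dd)))))) (.br (nat_lit 12) (.br (nat_lit 8) (.ch
 (nat_lit 7) (.ev (nat_lit 1700) (nat_lit 536870912) (.ev (nat_lit 2052) (nat_lit 4194304) (.ev (nat_lit 2628)
 (nat_lit 274877906944) (.ev (nat_lit 2637) (nat_lit 137438953472) .dd))))) (.ch (nat_lit 8) (.ev (nat_lit
 1152) (nat_lit 412316860416) (.ev (nat_lit 1540) (nat_lit 536870912) (.ev (nat_lit 1549) (nat_lit 4194304)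
 .dd))))) (.br (nat_lit 15) (.ch (nat_lit 12) (.ev (nat_lit 1152) (nat_lit 536870912) (.ev (nat_lit 2052)
 (nat_lit 4194304) (.ev (nat_lit 3332) (nat_lit 137438953472) (.ev (nat_lit 3341) (nat_lit 274877906944)
 .dd))))) (.ch (nat_lit 15) (.ev (nat_lit 1152) (nat_lit 137980018688) (.ev (nat_lit 1165) (nat_lit
 274877906944) .dd))))))))) (.ch (nat_lit 6) (.ev (nat_lit 400) (nat_lit 412321054720) (.nd (nat_lit 976) (.br
 (nat_lit 11) (.br (nat_lit 7) (.br (nat_lit 6) (.ch (nat_lit 2) (.ev (nat_lit 992) (nat_lit 5498363576320)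
 .dd)) (.ch (nat_lit 6) (.ev (nat_lit 1028) (nat_lit 131072) (.ev (nat_lit 1236) (nat_lit 1099511627776) (.ev
 (nat_lit 2820) (nat_lit 268435456) (.nd (nat_lit 4832) (.br (nat_lit 9) (.ch (nat_lit 2) (.ev (nat_lit 4848)
 (nat_lit 4398583382016) .dd)) (.br (nat_lit 16) (.ch (nat_lit 9) (.ev (nat_lit 4848) (nat_lit 4398583382016)
 .dd)) (.ch (nat_lit 16) (.nd (nat_lit 5824) (.br (nat_lit 7) (.ch (nat_lit 3) (.ev (nat_lit 5840) (nat_lit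
 4398046511104) (.ev (nat_lit 5853) (nat_lit 536870912) .dd))) (.ch (nat_lit 7) (.fin (nat_lit
 576135846503596135)))))))))))))) (.br (nat_lit 9) (.ch (nat_lit 7) (.ev (nat_lit 992) (nat_lit 5497558269952)
 (.nd (nat_lit 4240) (.br (nat_lit 8) (.ch (nat_lit 7) (.ev (nat_lit 4256) (nat_lit 268435456) (.ev (nat_lit
 4269) (nat_lit 536870912) .dd))) (.ch (nat_lit 8) (.fin (nat_lit 576547063941513744))))))) (.ch (nat_lit 9)
 (.ev (nat_lit 992) (nat_lit 5497826705408) (.ev (nat_lit 1005) (nat_lit 536870912) .dd))))) (.br (nat_lit 13)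
 (.br (nat_lit 12) (.ch (nat_lit 11) (.ev (nat_lit 992) (nat_lit 1100048629760) (.ev (nat_lit 1028) (nat_lit
 268435456) (.ev (nat_lit 1037) (nat_lit 4398046511104) .dd)))) (.ch (nat_lit 12) (.ev (nat_lit 992) (nat_lit
 1100316934144) (.ev (nat_lit 1028) (nat_lit 131072) (.ev (nat_lit 1037) (nat_lit 4398046511104) .dd))))) (.br
 (nat_lit 14) (.ch (nat_lit 13) (.ev (nat_lit 992) (nat_lit 5498095140864) (.ev (nat_lit 1005) (nat_lit
 268435456) .dd))) (.br (nat_lit 16) (.ch (nat_lit 14) (.ev (nat_lit 992) (nat_lit 4398851817472) (.ev (nat_lit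
 1028) (nat_lit 131072) (.ev (nat_lit 1037) (nat_lit 1099511627776) .dd)))) (.ch (nat_lit 16) (.ev (nat_lit
 992) (nat_lit 4398583513088) (.ev (nat_lit 3684) (nat_lit 268435456) (.ev (nat_lit 3693) (nat_lit
 1099511627776) .dd))))))))))))) (.br (nat_lit 12) (.br (nat_lit 11) (.ch (nat_lit 7) (.ev (nat_lit 400)
 (nat_lit 1512369684480) (.nd (nat_lit 1136) (.br (nat_lit 7) (.br (nat_lit 5) (.br (nat_lit 2) (.ch (nat_lit
 1) (.ev (nat_lit 1152) (nat_lit 4398314946560) .dd)) (.ch (nat_lit 2) (.ev (nat_lit 1152) (nat_lit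
 4398314946560) .dd))) (.br (nat_lit 6) (.ch (nat_lit 5) (.ev (nat_lit 1152) (nat_lit 4398046511104) (.ev
 (nat_lit 1165) (nat_lit 268435456) .dd))) (.ch (nat_lit 6) (.ev (nat_lit 3684) (nat_lit 268435456) (.ev
 (nat_lit 3693) (nat_lit 4398046511104) .dd))))) (.br (nat_lit 13) (.br (nat_lit 11) (.ch (nat_lit 7) (.ev
 (nat_lit 1152) (nat_lit 4398046511104) (.ev (nat_lit 1165) (nat_lit 268435456) .dd))) (.ch (nat_lit 11) (.ev
 (nat_lit 2372) (nat_lit 4398046511104) (.ev (nat_lit 2381) (nat_lit 268435456) .dd)))) (.br (nat_lit 14) (.ch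
 (nat_lit 13) (.ev (nat_lit 1152) (nat_lit 268435456) (.ev (nat_lit 1165) (nat_lit 4398046511104) .dd))) (.br
 (nat_lit 15) (.ch (nat_lit 14) (.ev (nat_lit 1152) (nat_lit 4398046511104) (.ev (nat_lit 1165) (nat_lit
 268435456) .dd))) (.ch (nat_lit 15) (.ev (nat_lit 1152) (nat_lit 268435456) (.ev (nat_lit 1165) (nat_lit
 4398046511104) .dd)))))))))) (.ch (nat_lit 11) (.ev (nat_lit 400) (nat_lit 4811172872192) (.nd (nat_lit 2016)
 (.br (nat_lit 10) (.br (nat_lit 7) (.br (nat_lit 5) (.ch (nat_lit 2) (.ev (nat_lit 2032) (nat_lit 131072) (.ev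
 (nat_lit 2045) (nat_lit 1099511627776) .dd))) (.ch (nat_lit 5) (.ev (nat_lit 2032) (nat_lit 1099511627776)
 (.ev (nat_lit 2045) (nat_lit 131072) .dd)))) (.br (nat_lit 8) (.ch (nat_lit 7) (.ev (nat_lit 2032) (nat_lit
 1099511758848) .dd)) (.ch (nat_lit 8) (.ev (nat_lit 2032) (nat_lit 131072) (.ev (nat_lit 2045) (nat_lit
 1099511627776) .dd))))) (.br (nat_lit 12) (.br (nat_lit 11) (.ch (nat_lit 10) (.ev (nat_lit 2032) (nat_lit
 1099511758848) .dd)) (.ch (nat_lit 11) (.ev (nat_lit 2032) (nat_lit 1099511758848) .dd))) (.br (nat_lit 13)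
 (.ch (nat_lit 12) (.ev (nat_lit 2688) (nat_lit 131072) (.ev (nat_lit 2701) (nat_lit 1099511627776) .dd))) (.ch
 (nat_lit 13) (.ev (nat_lit 2032) (nat_lit 1099511627776) (.ev (nat_lit 2045) (nat_lit 131072) .dd))))))))))
 (.br (nat_lit 13) (.ch (nat_lit 12) (.ev (nat_lit 400) (nat_lit 275687538688) (.nd (nat_lit 1344) (.br
 (nat_lit 10) (.br (nat_lit 6) (.br (nat_lit 4) (.ch (nat_lit 2) (.ev (nat_lit 1360) (nat_lit 5634997092352)
 .dd)) (.ch (nat_lit 4) (.ev (nat_lit 1360) (nat_lit 1099511627776) (.ev (nat_lit 1412) (nat_lit 4398046511104)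
 (.ev (nat_lit 1421) (nat_lit 137438953472) .dd))))) (.br (nat_lit 8) (.ch (nat_lit 6) (.ev (nat_lit 1360)
 (nat_lit 1099511627776) (.ev (nat_lit 1412) (nat_lit 137438953472) (.ev (nat_lit 1421) (nat_lit 4398046511104)
 .dd)))) (.ch (nat_lit 8) (.ev (nat_lit 1360) (nat_lit 137438953472) (.ev (nat_lit 1988) (nat_lit
 4398046511104) (.ev (nat_lit 1997) (nat_lit 1099511627776) .dd)))))) (.br (nat_lit 13) (.br (nat_lit 11) (.ch
 (nat_lit 10) (.ev (nat_lit 1360) (nat_lit 4535485464576) (.ev (nat_lit 1373) (nat_lit 1099511627776) .dd)))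
 (.ch (nat_lit 11) (.ev (nat_lit 1360) (nat_lit 5497558138880) (.ev (nat_lit 1373) (nat_lit 137438953472)
 .dd)))) (.br (nat_lit 15) (.ch (nat_lit 13) (.ev (nat_lit 3840) (nat_lit 1099511627776) (.ev (nat_lit 3892)
 (nat_lit 137438953472) (.ev (nat_lit 3901) (nat_lit 4398046511104) .dd)))) (.ch (nat_lit 15) (.ev (nat_lit
 1360) (nat_lit 4398046511104) (.ev (nat_lit 1412) (nat_lit 1099511627776) (.ev (nat_lit 1421) (nat_lit
 137438953472) .dd)))))))))) (.br (nat_lit 14) (.ch (nat_lit 13) (.ev (nat_lit 400) (nat_lit 1237219016704)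
 (.nd (nat_lit 880) (.br (nat_lit 10) (.br (nat_lit 3) (.br (nat_lit 2) (.ch (nat_lit 0) (.ev (nat_lit 896)
 (nat_lit 4672928743424) (.ev (nat_lit 909) (nat_lit 536870912) .dd))) (.ch (nat_lit 2) (.ev (nat_lit 896)
 (nat_lit 274878038016) (.ev (nat_lit 916) (nat_lit 536870912) (.ev (nat_lit 3460) (nat_lit 4398046511104) (.ev
 (nat_lit 3469) (nat_lit 4194304) .dd)))))) (.br (nat_lit 7) (.ch (nat_lit 3) (.ev (nat_lit 896) (nat_lit
 4398587707392) (.ev (nat_lit 909) (nat_lit 274877906944) .dd))) (.ch (nat_lit 7) (.ev (nat_lit 896) (nat_lit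
 4672928612352) (.ev (nat_lit 916) (nat_lit 536870912) (.ev (nat_lit 925) (nat_lit 131072) .dd)))))) (.br
 (nat_lit 14) (.br (nat_lit 13) (.ch (nat_lit 10) (.ev (nat_lit 896) (nat_lit 4672924418048) (.ev (nat_lit
 1092) (nat_lit 536870912) (.ev (nat_lit 1204) (nat_lit 131072) (.ev (nat_lit 1213) (nat_lit 4194304) .dd)))))
 (.ch (nat_lit 13) (.ev (nat_lit 896) (nat_lit 536870912) (.ev (nat_lit 964) (nat_lit 131072) (.ev (nat_lit
 1412) (nat_lit 4194304) (.ev (nat_lit 1680) (nat_lit 4398046511104) (.ev (nat_lit 1693) (nat_lit 274877906944)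
 .dd))))))) (.br (nat_lit 15) (.ch (nat_lit 14) (.ev (nat_lit 896) (nat_lit 536870912) (.ev (nat_lit 1492)
 (nat_lit 131072) (.ev (nat_lit 3172) (nat_lit 4398046511104) (.ev (nat_lit 3620) (nat_lit 4194304) (.ev
 (nat_lit 3629) (nat_lit 274877906944) .dd)))))) (.ch (nat_lit 15) (.ev (nat_lit 896) (nat_lit 4398046642176)
 (.ev (nat_lit 916) (nat_lit 536870912) (.ev (nat_lit 1412) (nat_lit 4194304) (.ev (nat_lit 1421) (nat_lit
 274877906944) .dd))))))))))) (.ch (nat_lit 14) (.ev (nat_lit 400) (nat_lit 4673197178880) (.nd (nat_lit 1344)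
 (.br (nat_lit 7) (.br (nat_lit 2) (.ch (nat_lit 1) (.ev (nat_lit 1360) (nat_lit 1100048498688) (.ev (nat_lit
 1373) (nat_lit 137438953472) .dd))) (.br (nat_lit 3) (.ch (nat_lit 2) (.ev (nat_lit 1360) (nat_lit
 1100048498688) (.ev (nat_lit 1373) (nat_lit 137438953472) .dd))) (.ch (nat_lit 3) (.ev (nat_lit 1360) (nat_lit
 137975824384) (.ev (nat_lit 1373) (nat_lit 1099511627776) .dd))))) (.br (nat_lit 9) (.br (nat_lit 8) (.ch
 (nat_lit 7) (.ev (nat_lit 1360) (nat_lit 137438953472) (.ev (nat_lit 3524) (nat_lit 1099511627776) (.ev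
 (nat_lit 3533) (nat_lit 536870912) .dd)))) (.ch (nat_lit 8) (.ev (nat_lit 1360) (nat_lit 1099511627776) (.ev
 (nat_lit 2768) (nat_lit 536870912) (.ev (nat_lit 2781) (nat_lit 137438953472) .dd))))) (.br (nat_lit 15) (.ch
 (nat_lit 9) (.ev (nat_lit 1360) (nat_lit 137975824384) (.ev (nat_lit 1373) (nat_lit 1099511627776) .dd))) (.ch
 (nat_lit 15) (.ev (nat_lit 1360) (nat_lit 1099511627776) (.nd (nat_lit 4928) (.br (nat_lit 4) (.ch (nat_lit 0)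
 (.ev (nat_lit 4944) (nat_lit 536870912) (.ev (nat_lit 4957) (nat_lit 137438953472) .dd))) (.br (nat_lit 5)
 (.ch (nat_lit 4) (.ev (nat_lit 4944) (nat_lit 137975824384) .dd)) (.ch (nat_lit 5) (.fin (nat_lit
 576507481544933989))))))))))))))))))))) (.br (nat_lit 15) (.ch (nat_lit 13) (.ev (nat_lit 48) (nat_lit
 4673213891072) (.nd (nat_lit 464) (.br (nat_lit 8) (.br (nat_lit 5) (.br (nat_lit 4) (.ch (nat_lit 3) (.ev
 (nat_lit 480) (nat_lit 562952100904960) (.nd (nat_lit 1136) (.br (nat_lit 11) (.br (nat_lit 4) (.br (nat_lit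
 2) (.ch (nat_lit 1) (.ev (nat_lit 1152) (nat_lit 137975824384) (.ev (nat_lit 1700) (nat_lit 68719476736) (.nd
 (nat_lit 4608) (.br (nat_lit 13) (.ch (nat_lit 8) (.fin (nat_lit 576452505964593736))) (.ch (nat_lit 13) (.ev
 (nat_lit 4624) (nat_lit 1099511627776) (.ev (nat_lit 4637) (nat_lit 131072) .dd)))))))) (.ch (nat_lit 2) (.ev
 (nat_lit 1152) (nat_lit 1168231235584) (.ev (nat_lit 1172) (nat_lit 536870912) (.ev (nat_lit 1181) (nat_lit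
 137438953472) .dd))))) (.br (nat_lit 9) (.ch (nat_lit 4) (.ev (nat_lit 1152) (nat_lit 69256478720) (.ev
 (nat_lit 1888) (nat_lit 1099511627776) (.ev (nat_lit 1901) (nat_lit 137438953472) .dd)))) (.ch (nat_lit 9)
 (.ev (nat_lit 1152) (nat_lit 1236950712320) (.ev (nat_lit 1588) (nat_lit 536870912) (.ev (nat_lit 1597)
 (nat_lit 68719476736) .dd)))))) (.br (nat_lit 13) (.br (nat_lit 12) (.ch (nat_lit 11) (.ev (nat_lit 1152)
 (nat_lit 1306206928896) (.ev (nat_lit 1165) (nat_lit 131072) .dd))) (.ch (nat_lit 12) (.ev (nat_lit 1152)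
 (nat_lit 537001984) (.ev (nat_lit 1172) (nat_lit 68719476736) (.nd (nat_lit 4896) (.br (nat_lit 8) (.ch
 (nat_lit 7) (.ev (nat_lit 4912) (nat_lit 1099511627776) (.ev (nat_lit 4925) (nat_lit 137438953472) .dd))) (.br
 (nat_lit 11) (.ch (nat_lit 8) (.ev (nat_lit 4912) (nat_lit 137438953472) (.ev (nat_lit 4925) (nat_lit
 1099511627776) .dd))) (.ch (nat_lit 11) (.fin (nat_lit 576459103144460863)))))))))) (.br (nat_lit 14) (.ch
 (nat_lit 13) (.ev (nat_lit 1152) (nat_lit 1099511627776) (.ev (nat_lit 1172) (nat_lit 137438953472) (.nd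
 (nat_lit 4192) (.br (nat_lit 15) (.ch (nat_lit 0) (.ev (nat_lit 4208) (nat_lit 536870912) (.nd (nat_lit 5408)
 (.br (nat_lit 5) (.ch (nat_lit 2) (.fin (nat_lit 576547063901668008))) (.ch (nat_lit 5) (.ev (nat_lit 5424)
 (nat_lit 68719476736) (.ev (nat_lit 5437) (nat_lit 131072) .dd))))))) (.br (nat_lit 16) (.ch (nat_lit 15) (.ev
 (nat_lit 4208) (nat_lit 131072) (.fin (nat_lit 576696597968536335)))) (.ch (nat_lit 16) (.ev (nat_lit 4208)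
 (nat_lit 69256478720) .dd)))))))) (.ch (nat_lit 14) (.ev (nat_lit 1152) (nat_lit 1306207059968) .dd))))))))
 (.ch (nat_lit 4) (.ev (nat_lit 480) (nat_lit 564118184525824) (.nd (nat_lit 1136) (.br (nat_lit 10) (.br
 (nat_lit 2) (.br (nat_lit 1) (.ch (nat_lit 0) (.ev (nat_lit 1152) (nat_lit 2684354560) (.ev (nat_lit 1412)
 (nat_lit 131072) (.ev (nat_lit 1421) (nat_lit 137438953472) .dd)))) (.ch (nat_lit 1) (.ev (nat_lit 1152)
 (nat_lit 139586437120) (.ev (nat_lit 1600) (nat_lit 537001984) .dd)))) (.br (nat_lit 7) (.ch (nat_lit 2) (.ev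
 (nat_lit 1152) (nat_lit 131072) (.ev (nat_lit 1412) (nat_lit 2147483648) (.ev (nat_lit 2128) (nat_lit
 536870912) (.ev (nat_lit 2141) (nat_lit 137438953472) .dd))))) (.ch (nat_lit 7) (.ev (nat_lit 1152) (nat_lit
 536870912) (.ev (nat_lit 1412) (nat_lit 2147483648) (.ev (nat_lit 1568) (nat_lit 131072) (.ev (nat_lit 1581)
 (nat_lit 137438953472) .dd))))))) (.br (nat_lit 15) (.br (nat_lit 14) (.ch (nat_lit 10) (.ev (nat_lit 1152)
 (nat_lit 137975824384) (.ev (nat_lit 1412) (nat_lit 131072) (.ev (nat_lit 1421) (nat_lit 2147483648) .dd))))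
 (.ch (nat_lit 14) (.ev (nat_lit 1152) (nat_lit 137439084544) (.ev (nat_lit 1540) (nat_lit 536870912) (.ev
 (nat_lit 1549) (nat_lit 2147483648) .dd))))) (.br (nat_lit 16) (.ch (nat_lit 15) (.ev (nat_lit 1152) (nat_lit
 140123439104) .dd)) (.ch (nat_lit 16) (.ev (nat_lit 1152) (nat_lit 137438953472) (.ev (nat_lit 1204) (nat_lit
 536870912) (.ev (nat_lit 1216) (nat_lit 2147483648) (.ev (nat_lit 1229) (nat_lit 131072) .dd)))))))))))) (.br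
 (nat_lit 7) (.ch (nat_lit 5) (.ev (nat_lit 480) (nat_lit 537001984) (.nd (nat_lit 2016) (.br (nat_lit 10) (.br
 (nat_lit 8) (.br (nat_lit 7) (.ch (nat_lit 2) (.ev (nat_lit 2032) (nat_lit 563158259335168) (.ev (nat_lit
 2045) (nat_lit 1099511627776) .dd))) (.ch (nat_lit 7) (.ev (nat_lit 2032) (nat_lit 1099511627776) (.ev
 (nat_lit 2052) (nat_lit 70866960384) (.ev (nat_lit 2628) (nat_lit 137438953472) (.ev (nat_lit 2637) (nat_lit
 562949953421312) .dd)))))) (.br (nat_lit 9) (.ch (nat_lit 8) (.ev (nat_lit 2032) (nat_lit 1239098064896) (.fin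
 (nat_lit 576786757764727273)))) (.ch (nat_lit 9) (.ev (nat_lit 2032) (nat_lit 563158259335168) (.ev (nat_lit
 2045) (nat_lit 1099511627776) .dd))))) (.br (nat_lit 13) (.br (nat_lit 11) (.ch (nat_lit 10) (.ev (nat_lit
 2032) (nat_lit 564051612532736) (.ev (nat_lit 2052) (nat_lit 68719476736) (.ev (nat_lit 2061) (nat_lit
 137438953472) .dd)))) (.ch (nat_lit 11) (.ev (nat_lit 2032) (nat_lit 208305913856) (.ev (nat_lit 3620)
 (nat_lit 562949953421312) (.ev (nat_lit 3629) (nat_lit 1099511627776) .dd))))) (.br (nat_lit 14) (.ch (nat_lit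
 13) (.ev (nat_lit 2032) (nat_lit 564120332009472) (.ev (nat_lit 2045) (nat_lit 137438953472) .dd))) (.br
 (nat_lit 15) (.ch (nat_lit 14) (.ev (nat_lit 2032) (nat_lit 564118184525824) (.ev (nat_lit 2144) (nat_lit
 137438953472) (.ev (nat_lit 2157) (nat_lit 2147483648) .dd)))) (.ch (nat_lit 15) (.ev (nat_lit 2032) (nat_lit
 1170378588160) (.ev (nat_lit 2308) (nat_lit 562949953421312) (.ev (nat_lit 2317) (nat_lit 137438953472)
 .dd))))))))))) (.ch (nat_lit 7) (.ev (nat_lit 480) (nat_lit 563158796206080) (.nd (nat_lit 1344) (.br (nat_lit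
 8) (.br (nat_lit 4) (.br (nat_lit 3) (.ch (nat_lit 1) (.ev (nat_lit 1360) (nat_lit 131072) (.ev (nat_lit 1373)
 (nat_lit 1099511627776) .dd))) (.ch (nat_lit 3) (.ev (nat_lit 1360) (nat_lit 1099511627776) (.ev (nat_lit
 1373) (nat_lit 131072) .dd)))) (.br (nat_lit 7) (.ch (nat_lit 4) (.ev (nat_lit 1360) (nat_lit 131072) (.ev
 (nat_lit 1373) (nat_lit 1099511627776) .dd))) (.ch (nat_lit 7) (.ev (nat_lit 1360) (nat_lit 1099511758848)
 .dd)))) (.br (nat_lit 13) (.br (nat_lit 11) (.ch (nat_lit 8) (.ev (nat_lit 1360) (nat_lit 131072) (.ev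
 (nat_lit 1373) (nat_lit 1099511627776) .dd))) (.ch (nat_lit 11) (.ev (nat_lit 1412) (nat_lit 131072) (.ev
 (nat_lit 1421) (nat_lit 1099511627776) .dd)))) (.br (nat_lit 15) (.ch (nat_lit 13) (.ev (nat_lit 1360)
 (nat_lit 1099511758848) .dd)) (.br (nat_lit 16) (.ch (nat_lit 15) (.ev (nat_lit 1360) (nat_lit 1099511758848)
 .dd)) (.ch (nat_lit 16) (.ev (nat_lit 3488) (nat_lit 131072) (.ev (nat_lit 3501) (nat_lit 1099511627776)
 .dd)))))))))))) (.br (nat_lit 10) (.br (nat_lit 9) (.ch (nat_lit 8) (.ev (nat_lit 480) (nat_lit 71403962368)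
 (.nd (nat_lit 2016) (.br (nat_lit 10) (.br (nat_lit 5) (.br (nat_lit 2) (.ch (nat_lit 1) (.ev (nat_lit 2032)
 (nat_lit 563087392374784) (.ev (nat_lit 2045) (nat_lit 1099511627776) .dd))) (.ch (nat_lit 2) (.ev (nat_lit
 2032) (nat_lit 563087392374784) (.ev (nat_lit 2045) (nat_lit 1099511627776) .dd)))) (.br (nat_lit 7) (.ch
 (nat_lit 5) (.ev (nat_lit 2032) (nat_lit 1099511627776) (.ev (nat_lit 3092) (nat_lit 137438953472) (.ev
 (nat_lit 3101) (nat_lit 562949953421312) .dd)))) (.ch (nat_lit 7) (.ev (nat_lit 2032) (nat_lit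
 564049465049088) (.ev (nat_lit 2045) (nat_lit 137438953472) .dd))))) (.br (nat_lit 15) (.br (nat_lit 11) (.ch
 (nat_lit 10) (.ev (nat_lit 2032) (nat_lit 1099511627776) (.ev (nat_lit 2052) (nat_lit 137438953472) (.ev
 (nat_lit 2061) (nat_lit 562949953421312) .dd)))) (.ch (nat_lit 11) (.ev (nat_lit 2032) (nat_lit
 564186904002560) .dd))) (.br (nat_lit 16) (.ch (nat_lit 15) (.ev (nat_lit 2032) (nat_lit 562949953421312) (.ev
 (nat_lit 2052) (nat_lit 137438953472) (.ev (nat_lit 2061) (nat_lit 1099511627776) .dd)))) (.ch (nat_lit 16)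
 (.ev (nat_lit 2032) (nat_lit 137438953472) (.ev (nat_lit 3744) (nat_lit 562949953421312) (.ev (nat_lit 3757)
 (nat_lit 1099511627776) .dd)))))))))) (.ch (nat_lit 9) (.ev (nat_lit 480) (nat_lit 563090076729344) (.nd
 (nat_lit 1136) (.br (nat_lit 10) (.br (nat_lit 7) (.br (nat_lit 3) (.ch (nat_lit 2) (.ev (nat_lit 1152)
 (nat_lit 131072) (.ev (nat_lit 3744) (nat_lit 1099511627776) (.ev (nat_lit 3757) (nat_lit 68719476736) .dd))))
 (.ch (nat_lit 3) (.ev (nat_lit 1152) (nat_lit 1168231235584) .dd))) (.br (nat_lit 8) (.ch (nat_lit 7) (.ev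
 (nat_lit 1152) (nat_lit 131072) (.ev (nat_lit 1300) (nat_lit 68719476736) (.ev (nat_lit 1309) (nat_lit
 1099511627776) .dd)))) (.ch (nat_lit 8) (.ev (nat_lit 1152) (nat_lit 1168231235584) .dd)))) (.br (nat_lit 15)
 (.br (nat_lit 14) (.ch (nat_lit 10) (.ev (nat_lit 1152) (nat_lit 1099511627776) (.ev (nat_lit 2292) (nat_lit
 131072) (.ev (nat_lit 2301) (nat_lit 68719476736) .dd)))) (.ch (nat_lit 14) (.ev (nat_lit 1152) (nat_lit
 1168231235584) .dd))) (.br (nat_lit 16) (.ch (nat_lit 15) (.ev (nat_lit 1152) (nat_lit 1099511627776) (.ev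
 (nat_lit 2768) (nat_lit 131072) (.ev (nat_lit 2781) (nat_lit 68719476736) .dd)))) (.ch (nat_lit 16) (.ev
 (nat_lit 3524) (nat_lit 131072) (.nd (nat_lit 5056) (.br (nat_lit 11) (.ch (nat_lit 8) (.ev (nat_lit 5072)
 (nat_lit 1099511627776) (.ev (nat_lit 5085) (nat_lit 68719476736) .dd))) (.br (nat_lit 16) (.ch (nat_lit 11)
 (.fin (nat_lit 576451406456111633))) (.ch (nat_lit 16) (.ev (nat_lit 5072) (nat_lit 1168231104512)
 .dd)))))))))))))) (.br (nat_lit 11) (.ch (nat_lit 10) (.ev (nat_lit 480) (nat_lit 564256160350208) (.ev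
 (nat_lit 500) (nat_lit 131072) (.ev (nat_lit 509) (nat_lit 2147483648) .dd)))) (.br (nat_lit 16) (.ch (nat_lit
 11) (.ev (nat_lit 480) (nat_lit 564120332140544) (.nd (nat_lit 2016) (.br (nat_lit 9) (.br (nat_lit 5) (.br
 (nat_lit 1) (.ch (nat_lit 0) (.ev (nat_lit 2032) (nat_lit 137438953472) (.ev (nat_lit 2045) (nat_lit
 536870912) .dd))) (.ch (nat_lit 1) (.ev (nat_lit 2032) (nat_lit 137975824384) .dd))) (.br (nat_lit 7) (.ch
 (nat_lit 5) (.fin (nat_lit 576434913807909328))) (.ch (nat_lit 7) (.ev (nat_lit 2032) (nat_lit 137975824384)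
 .dd)))) (.br (nat_lit 14) (.br (nat_lit 12) (.ch (nat_lit 9) (.ev (nat_lit 2032) (nat_lit 536870912) (.ev
 (nat_lit 2045) (nat_lit 137438953472) .dd))) (.ch (nat_lit 12) (.ev (nat_lit 2032) (nat_lit 137975824384)
 .dd))) (.br (nat_lit 16) (.ch (nat_lit 14) (.ev (nat_lit 2032) (nat_lit 536870912) (.ev (nat_lit 2045)
 (nat_lit 137438953472) .dd))) (.ch (nat_lit 16) (.ev (nat_lit 2032) (nat_lit 137438953472) (.ev (nat_lit 2045)
 (nat_lit 536870912) .dd))))))))) (.ch (nat_lit 16) (.ev (nat_lit 480) (nat_lit 1308354543616) (.ev (nat_lit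
 493) (nat_lit 562949953421312) .dd)))))))))) (.ch (nat_lit 15) (.ev (nat_lit 48) (nat_lit 568928816333312)
 (.nd (nat_lit 464) (.br (nat_lit 10) (.br (nat_lit 5) (.br (nat_lit 4) (.ch (nat_lit 3) (.ev (nat_lit 480)
 (nat_lit 2147549184) (.nd (nat_lit 880) (.br (nat_lit 8) (.br (nat_lit 5) (.ch (nat_lit 3) (.ev (nat_lit 896)
 (nat_lit 541065216) (.ev (nat_lit 1444) (nat_lit 131072) (.ev (nat_lit 1453) (nat_lit 16777216) .dd)))) (.br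
 (nat_lit 7) (.ch (nat_lit 5) (.ev (nat_lit 896) (nat_lit 4194304) (.ev (nat_lit 2820) (nat_lit 131072) (.ev
 (nat_lit 3620) (nat_lit 536870912) (.ev (nat_lit 3629) (nat_lit 16777216) .dd))))) (.ch (nat_lit 7) (.ev
 (nat_lit 896) (nat_lit 553648128) (.ev (nat_lit 916) (nat_lit 131072) (.ev (nat_lit 925) (nat_lit 4194304)
 .dd)))))) (.br (nat_lit 14) (.br (nat_lit 11) (.ch (nat_lit 8) (.ev (nat_lit 896) (nat_lit 557973504) .dd))
 (.ch (nat_lit 11) (.ev (nat_lit 896) (nat_lit 541196288) (.ev (nat_lit 909) (nat_lit 16777216) .dd)))) (.br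
 (nat_lit 16) (.ch (nat_lit 14) (.ev (nat_lit 896) (nat_lit 4194304) (.nd (nat_lit 4448) (.br (nat_lit 8) (.ch
 (nat_lit 3) (.ev (nat_lit 4464) (nat_lit 16777216) (.fin (nat_lit 576641622203646730)))) (.ch (nat_lit 8) (.ev
 (nat_lit 4464) (nat_lit 536870912) (.fin (nat_lit 575918143232754143)))))))) (.ch (nat_lit 16) (.ev (nat_lit
 896) (nat_lit 131072) (.ev (nat_lit 2240) (nat_lit 4194304) (.ev (nat_lit 2292) (nat_lit 536870912) (.ev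
 (nat_lit 2301) (nat_lit 16777216) .dd))))))))))) (.ch (nat_lit 4) (.ev (nat_lit 480) (nat_lit 553844736) (.nd
 (nat_lit 2016) (.br (nat_lit 8) (.br (nat_lit 4) (.br (nat_lit 3) (.ch (nat_lit 2) (.ev (nat_lit 2032)
 (nat_lit 2147483648) (.ev (nat_lit 2045) (nat_lit 4194304) .dd))) (.ch (nat_lit 3) (.ev (nat_lit 2032)
 (nat_lit 2147483648) (.ev (nat_lit 2045) (nat_lit 4194304) .dd)))) (.br (nat_lit 6) (.ch (nat_lit 4) (.ev
 (nat_lit 2032) (nat_lit 4194304) (.ev (nat_lit 2045) (nat_lit 2147483648) .dd))) (.ch (nat_lit 6) (.fin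
 (nat_lit 576463501084017217))))) (.br (nat_lit 10) (.br (nat_lit 9) (.ch (nat_lit 8) (.ev (nat_lit 2032)
 (nat_lit 4194304) (.ev (nat_lit 2045) (nat_lit 2147483648) .dd))) (.ch (nat_lit 9) (.ev (nat_lit 2032)
 (nat_lit 2151677952) .dd))) (.br (nat_lit 16) (.ch (nat_lit 10) (.ev (nat_lit 2032) (nat_lit 2147483648) (.ev
 (nat_lit 2045) (nat_lit 4194304) .dd))) (.ch (nat_lit 16) (.ev (nat_lit 2032) (nat_lit 4194304) (.ev (nat_lit
 2045) (nat_lit 2147483648) .dd)))))))))) (.br (nat_lit 9) (.ch (nat_lit 5) (.ev (nat_lit 480) (nat_lit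
 2147614720) (.nd (nat_lit 976) (.br (nat_lit 7) (.br (nat_lit 4) (.ch (nat_lit 1) (.ev (nat_lit 992) (nat_lit
 21037056) (.ev (nat_lit 1005) (nat_lit 536870912) .dd))) (.br (nat_lit 5) (.ch (nat_lit 4) (.ev (nat_lit 992)
 (nat_lit 557907968) .dd)) (.ch (nat_lit 5) (.ev (nat_lit 992) (nat_lit 553648128) (.ev (nat_lit 1028) (nat_lit
 65536) (.ev (nat_lit 1037) (nat_lit 4194304) .dd)))))) (.br (nat_lit 13) (.br (nat_lit 9) (.ch (nat_lit 7)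
 (.ev (nat_lit 992) (nat_lit 4194304) (.ev (nat_lit 2820) (nat_lit 65536) (.ev (nat_lit 3620) (nat_lit
 16777216) (.ev (nat_lit 3629) (nat_lit 536870912) .dd))))) (.ch (nat_lit 9) (.ev (nat_lit 992) (nat_lit
 20971520) (.ev (nat_lit 1376) (nat_lit 536936448) .dd)))) (.br (nat_lit 15) (.ch (nat_lit 13) (.ev (nat_lit
 992) (nat_lit 65536) (.ev (nat_lit 2240) (nat_lit 4194304) (.ev (nat_lit 2292) (nat_lit 16777216) (.ev
 (nat_lit 2301) (nat_lit 536870912) .dd))))) (.ch (nat_lit 15) (.ev (nat_lit 992) (nat_lit 4194304) (.nd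
 (nat_lit 4736) (.br (nat_lit 10) (.ch (nat_lit 5) (.ev (nat_lit 4752) (nat_lit 16777216) (.fin (nat_lit
 575918143400526003)))) (.ch (nat_lit 10) (.ev (nat_lit 4752) (nat_lit 536870912) (.fin (nat_lit
 576641621731787290)))))))))))))) (.ch (nat_lit 9) (.ev (nat_lit 480) (nat_lit 2147614720) (.nd (nat_lit 1344)
 (.br (nat_lit 10) (.br (nat_lit 5) (.br (nat_lit 1) (.ch (nat_lit 0) (.ev (nat_lit 1360) (nat_lit 4194304)
 (.ev (nat_lit 3684) (nat_lit 16777216) (.fin (nat_lit 576597641544548915))))) (.ch (nat_lit 1) (.ev (nat_lit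
 1360) (nat_lit 553713664) (.ev (nat_lit 1373) (nat_lit 4194304) .dd)))) (.br (nat_lit 7) (.ch (nat_lit 5) (.ev
 (nat_lit 1360) (nat_lit 541065216) (.ev (nat_lit 1412) (nat_lit 65536) (.ev (nat_lit 1421) (nat_lit 16777216)
 .dd)))) (.ch (nat_lit 7) (.ev (nat_lit 1360) (nat_lit 4259840) (.ev (nat_lit 3696) (nat_lit 16777216) (.ev
 (nat_lit 3709) (nat_lit 536870912) .dd)))))) (.br (nat_lit 12) (.br (nat_lit 11) (.ch (nat_lit 10) (.ev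
 (nat_lit 1360) (nat_lit 541130752) (.ev (nat_lit 1373) (nat_lit 16777216) .dd))) (.ch (nat_lit 11) (.ev
 (nat_lit 1360) (nat_lit 21037056) (.ev (nat_lit 1373) (nat_lit 536870912) .dd)))) (.br (nat_lit 14) (.ch
 (nat_lit 12) (.ev (nat_lit 1360) (nat_lit 553648128) (.ev (nat_lit 2052) (nat_lit 4194304) (.ev (nat_lit 2061)
 (nat_lit 65536) .dd)))) (.br (nat_lit 16) (.ch (nat_lit 14) (.ev (nat_lit 1360) (nat_lit 541065216) (.ev
 (nat_lit 3828) (nat_lit 65536) (.ev (nat_lit 3837) (nat_lit 16777216) .dd)))) (.ch (nat_lit 16) (.ev (nat_lit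
 1360) (nat_lit 553648128) (.ev (nat_lit 1552) (nat_lit 4194304) (.ev (nat_lit 1565) (nat_lit 65536)
 .dd))))))))))))) (.br (nat_lit 13) (.br (nat_lit 12) (.ch (nat_lit 10) (.ev (nat_lit 480) (nat_lit 557973504)
 (.nd (nat_lit 2016) (.br (nat_lit 16) (.ch (nat_lit 13) (.ev (nat_lit 2052) (nat_lit 2147483648) (.ev (nat_lit
 2061) (nat_lit 65536) .dd))) (.ch (nat_lit 16) (.ev (nat_lit 2032) (nat_lit 65536) (.ev (nat_lit 2045)
 (nat_lit 2147483648) .dd))))))) (.ch (nat_lit 12) (.ev (nat_lit 480) (nat_lit 20971520) (.nd (nat_lit 800)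
 (.br (nat_lit 8) (.br (nat_lit 4) (.ch (nat_lit 3) (.ev (nat_lit 836) (nat_lit 65536) (.ev (nat_lit 2160)
 (nat_lit 2147483648) (.ev (nat_lit 2628) (nat_lit 131072) (.ev (nat_lit 2637) (nat_lit 536870912) .dd)))))
 (.br (nat_lit 7) (.ch (nat_lit 4) (.ev (nat_lit 816) (nat_lit 2147614720) (.fin (nat_lit
 576471197686383135)))) (.ch (nat_lit 7) (.ev (nat_lit 816) (nat_lit 536936448) (.ev (nat_lit 1060) (nat_lit
 2147483648) (.ev (nat_lit 1069) (nat_lit 131072) .dd)))))) (.br (nat_lit 12) (.br (nat_lit 11) (.ch (nat_lit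
 8) (.ev (nat_lit 816) (nat_lit 2147549184) (.ev (nat_lit 852) (nat_lit 131072) (.ev (nat_lit 861) (nat_lit
 536870912) .dd)))) (.ch (nat_lit 11) (.ev (nat_lit 816) (nat_lit 2147483648) (.ev (nat_lit 2004) (nat_lit
 65536) (.nd (nat_lit 4416) (.br (nat_lit 11) (.ch (nat_lit 8) (.ev (nat_lit 4432) (nat_lit 131072) (.ev
 (nat_lit 4445) (nat_lit 536870912) .dd))) (.br (nat_lit 15) (.ch (nat_lit 11) (.ev (nat_lit 4432) (nat_lit
 537001984) .dd)) (.ch (nat_lit 15) (.fin (nat_lit 576463501178389105)))))))))) (.br (nat_lit 13) (.ch (nat_lit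
 12) (.ev (nat_lit 816) (nat_lit 2147680256) (.ev (nat_lit 829) (nat_lit 536870912) .dd))) (.ch (nat_lit 13)
 (.ev (nat_lit 816) (nat_lit 2684420096) (.ev (nat_lit 829) (nat_lit 131072) .dd)))))))))) (.br (nat_lit 15)
 (.ch (nat_lit 13) (.ev (nat_lit 480) (nat_lit 541065216) (.nd (nat_lit 1344) (.br (nat_lit 7) (.br (nat_lit 3)
 (.ch (nat_lit 0) (.ev (nat_lit 1360) (nat_lit 2147483648) (.ev (nat_lit 2004) (nat_lit 131072) (.nd (nat_lit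
 5248) (.br (nat_lit 12) (.ch (nat_lit 8) (.fin (nat_lit 576463500989645329))) (.br (nat_lit 15) (.ch (nat_lit
 12) (.ev (nat_lit 5264) (nat_lit 16842752) .dd)) (.ch (nat_lit 15) (.ev (nat_lit 5264) (nat_lit 65536) (.ev
 (nat_lit 5277) (nat_lit 16777216) .dd))))))))) (.br (nat_lit 4) (.ch (nat_lit 3) (.ev (nat_lit 1360) (nat_lit
 2147614720) (.ev (nat_lit 1412) (nat_lit 65536) (.ev (nat_lit 1421) (nat_lit 16777216) .dd)))) (.ch (nat_lit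
 4) (.ev (nat_lit 1360) (nat_lit 16908288) (.ev (nat_lit 1412) (nat_lit 2147483648) (.ev (nat_lit 1421)
 (nat_lit 65536) .dd)))))) (.br (nat_lit 15) (.br (nat_lit 8) (.ch (nat_lit 7) (.ev (nat_lit 1360) (nat_lit
 2147549184) (.fin (nat_lit 576471197644440170)))) (.ch (nat_lit 8) (.ev (nat_lit 1412) (nat_lit 131072) (.ev
 (nat_lit 2160) (nat_lit 2147483648) (.ev (nat_lit 2628) (nat_lit 65536) (.ev (nat_lit 2637) (nat_lit 16777216)
 .dd)))))) (.br (nat_lit 16) (.ch (nat_lit 15) (.ev (nat_lit 1360) (nat_lit 2164391936) (.ev (nat_lit 1373)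
 (nat_lit 65536) .dd))) (.ch (nat_lit 16) (.ev (nat_lit 1360) (nat_lit 2147680256) (.ev (nat_lit 1373) (nat_lit
 16777216) .dd))))))))) (.br (nat_lit 16) (.ch (nat_lit 15) (.ev (nat_lit 480) (nat_lit 557907968) (.nd
 (nat_lit 1136) (.br (nat_lit 12) (.br (nat_lit 7) (.ch (nat_lit 2) (.ev (nat_lit 1152) (nat_lit 2147614720)
 .dd)) (.br (nat_lit 10) (.ch (nat_lit 7) (.ev (nat_lit 1152) (nat_lit 2147483648) (.ev (nat_lit 1165) (nat_lit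
 131072) .dd))) (.ch (nat_lit 10) (.ev (nat_lit 1152) (nat_lit 2147483648) (.ev (nat_lit 1165) (nat_lit 131072)
 .dd))))) (.br (nat_lit 14) (.ch (nat_lit 12) (.ev (nat_lit 1236) (nat_lit 131072) (.ev (nat_lit 1245) (nat_lit
 2147483648) .dd))) (.br (nat_lit 15) (.ch (nat_lit 14) (.ev (nat_lit 1152) (nat_lit 131072) (.ev (nat_lit
 1165) (nat_lit 2147483648) .dd))) (.ch (nat_lit 15) (.ev (nat_lit 1172) (nat_lit 2147483648) (.ev (nat_lit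
 1181) (nat_lit 131072) .dd))))))))) (.ch (nat_lit 16) (.ev (nat_lit 480) (nat_lit 2147549184) (.nd (nat_lit
 1136) (.br (nat_lit 10) (.br (nat_lit 4) (.br (nat_lit 1) (.ch (nat_lit 0) (.ev (nat_lit 1152) (nat_lit
 541196288) (.ev (nat_lit 1165) (nat_lit 16777216) .dd))) (.ch (nat_lit 1) (.ev (nat_lit 1152) (nat_lit
 21102592) (.ev (nat_lit 1165) (nat_lit 536870912) .dd)))) (.br (nat_lit 6) (.ch (nat_lit 4) (.ev (nat_lit
 1152) (nat_lit 4325376) (.ev (nat_lit 3696) (nat_lit 536870912) (.ev (nat_lit 3709) (nat_lit 16777216) .dd))))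
 (.ch (nat_lit 6) (.ev (nat_lit 1152) (nat_lit 20971520) (.ev (nat_lit 1172) (nat_lit 536870912) (.ev (nat_lit
 1181) (nat_lit 131072) .dd)))))) (.br (nat_lit 12) (.br (nat_lit 11) (.ch (nat_lit 10) (.ev (nat_lit 1152)
 (nat_lit 553779200) (.ev (nat_lit 1165) (nat_lit 4194304) .dd))) (.ch (nat_lit 11) (.ev (nat_lit 1152)
 (nat_lit 4194304) (.ev (nat_lit 3684) (nat_lit 536870912) (.fin (nat_lit 576597641460662985)))))) (.br
 (nat_lit 14) (.ch (nat_lit 12) (.ev (nat_lit 1152) (nat_lit 553648128) (.ev (nat_lit 1172) (nat_lit 4194304)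
 (.ev (nat_lit 1181) (nat_lit 131072) .dd)))) (.br (nat_lit 16) (.ch (nat_lit 14) (.ev (nat_lit 1152) (nat_lit
 20971520) (.ev (nat_lit 3828) (nat_lit 131072) (.ev (nat_lit 3837) (nat_lit 536870912) .dd)))) (.ch (nat_lit
 16) (.ev (nat_lit 1152) (nat_lit 553648128) (.ev (nat_lit 1268) (nat_lit 4194304) (.ev (nat_lit 1277) (nat_lit
 131072) .dd))))))))))))))))))))))))

/-- Subtrie. -/
noncomputable def T9 : Tr := (.ev (nat_lit 20) (nat_lit 4802598949654528) (.nd (nat_lit 32) (.br (nat_lit 8)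
 (.br (nat_lit 4) (.br (nat_lit 3) (.ch (nat_lit 0) (.ev (nat_lit 48) (nat_lit 1847179551444512) (.nd (nat_lit
 416) (.br (nat_lit 8) (.br (nat_lit 5) (.br (nat_lit 4) (.ch (nat_lit 2) (.ev (nat_lit 432) (nat_lit 131136)
 (.nd (nat_lit 736) (.br (nat_lit 9) (.br (nat_lit 3) (.br (nat_lit 1) (.ch (nat_lit 0) (.ev (nat_lit 752)
 (nat_lit 70370891726848) (.ev (nat_lit 3524) (nat_lit 8589934592) (.ev (nat_lit 3533) (nat_lit 16) .dd))))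
 (.ch (nat_lit 1) (.ev (nat_lit 752) (nat_lit 8589934608) (.ev (nat_lit 1204) (nat_lit 2147483648) (.ev
 (nat_lit 2660) (nat_lit 70368744177664) (.ev (nat_lit 2669) (nat_lit 65536) .dd)))))) (.br (nat_lit 8) (.ch
 (nat_lit 3) (.ev (nat_lit 752) (nat_lit 10737483776) (.ev (nat_lit 1300) (nat_lit 16) (.ev (nat_lit 1309)
 (nat_lit 70368744177664) .dd)))) (.ch (nat_lit 8) (.ev (nat_lit 752) (nat_lit 8590000128) (.ev (nat_lit 916)
 (nat_lit 2147483648) (.ev (nat_lit 2820) (nat_lit 70368744177664) (.ev (nat_lit 2829) (nat_lit 16) .dd)))))))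
 (.br (nat_lit 11) (.br (nat_lit 10) (.ch (nat_lit 9) (.ev (nat_lit 752) (nat_lit 70370891726864) (.ev (nat_lit
 765) (nat_lit 8589934592) .dd))) (.ch (nat_lit 10) (.ev (nat_lit 752) (nat_lit 2147549200) (.fin (nat_lit
 576474496198197835))))) (.br (nat_lit 12) (.ch (nat_lit 11) (.ev (nat_lit 752) (nat_lit 70379481595904) (.ev
 (nat_lit 3940) (nat_lit 16) (.ev (nat_lit 3949) (nat_lit 65536) .dd)))) (.br (nat_lit 13) (.ch (nat_lit 12)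
 (.ev (nat_lit 752) (nat_lit 8589934592) (.ev (nat_lit 1204) (nat_lit 16) (.ev (nat_lit 2228) (nat_lit
 2147483648) (.fin (nat_lit 576518476593054378)))))) (.ch (nat_lit 13) (.ev (nat_lit 752) (nat_lit
 70368744243216) (.fin (nat_lit 576522874869203553))))))))))) (.ch (nat_lit 4) (.ev (nat_lit 432) (nat_lit
 2147549248) (.nd (nat_lit 800) (.br (nat_lit 9) (.br (nat_lit 5) (.br (nat_lit 2) (.ch (nat_lit 1) (.ev
 (nat_lit 1172) (nat_lit 8589934592) (.ev (nat_lit 1876) (nat_lit 16) (.ev (nat_lit 3760) (nat_lit 131072) (.ev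
 (nat_lit 3773) (nat_lit 70368744177664) .dd))))) (.ch (nat_lit 2) (.ev (nat_lit 816) (nat_lit 8590065680) (.ev
 (nat_lit 829) (nat_lit 70368744177664) .dd)))) (.br (nat_lit 8) (.ch (nat_lit 5) (.ev (nat_lit 816) (nat_lit
 70377334112272) (.ev (nat_lit 829) (nat_lit 131072) .dd))) (.ch (nat_lit 8) (.ev (nat_lit 816) (nat_lit
 8590065664) (.nd (nat_lit 2560) (.br (nat_lit 8) (.br (nat_lit 2) (.ch (nat_lit 0) (.ev (nat_lit 2576)
 (nat_lit 16) (.ev (nat_lit 2589) (nat_lit 70368744177664) .dd))) (.br (nat_lit 3) (.ch (nat_lit 2) (.ev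
 (nat_lit 2576) (nat_lit 16) (.ev (nat_lit 2589) (nat_lit 70368744177664) .dd))) (.ch (nat_lit 3) (.ev (nat_lit
 2576) (nat_lit 70368744177664) (.ev (nat_lit 2589) (nat_lit 16) .dd))))) (.br (nat_lit 9) (.ch (nat_lit 8)
 (.ev (nat_lit 3380) (nat_lit 16) (.ev (nat_lit 3389) (nat_lit 70368744177664) .dd))) (.br (nat_lit 12) (.ch
 (nat_lit 9) (.ev (nat_lit 2576) (nat_lit 16) (.ev (nat_lit 2589) (nat_lit 70368744177664) .dd))) (.ch (nat_lit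
 12) (.ev (nat_lit 3380) (nat_lit 16) (.ev (nat_lit 3389) (nat_lit 70368744177664) .dd))))))))))) (.br (nat_lit
 12) (.br (nat_lit 11) (.ch (nat_lit 9) (.ev (nat_lit 816) (nat_lit 70377334243328) (.ev (nat_lit 829) (nat_lit
 16) .dd))) (.ch (nat_lit 11) (.ev (nat_lit 816) (nat_lit 131088) (.ev (nat_lit 836) (nat_lit 70368744177664)
 (.ev (nat_lit 845) (nat_lit 8589934592) .dd))))) (.br (nat_lit 14) (.ch (nat_lit 12) (.ev (nat_lit 816)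
 (nat_lit 8589934608) (.ev (nat_lit 2884) (nat_lit 131072) (.ev (nat_lit 2893) (nat_lit 70368744177664) .dd))))
 (.br (nat_lit 16) (.ch (nat_lit 14) (.ev (nat_lit 816) (nat_lit 70377334243344) .dd)) (.ch (nat_lit 16) (.ev
 (nat_lit 816) (nat_lit 70368744308752) (.ev (nat_lit 829) (nat_lit 8589934592) .dd))))))))))) (.br (nat_lit 7)
 (.ch (nat_lit 5) (.ev (nat_lit 432) (nat_lit 70379481595904) (.nd (nat_lit 880) (.br (nat_lit 11) (.br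
 (nat_lit 9) (.br (nat_lit 7) (.ch (nat_lit 0) (.ev (nat_lit 896) (nat_lit 131072) (.ev (nat_lit 916) (nat_lit
 65536) (.ev (nat_lit 1908) (nat_lit 16) (.ev (nat_lit 1917) (nat_lit 64) .dd))))) (.ch (nat_lit 7) (.ev
 (nat_lit 2820) (nat_lit 16) (.ev (nat_lit 3968) (nat_lit 64) (.fin (nat_lit 576461302162473546)))))) (.br
 (nat_lit 10) (.ch (nat_lit 9) (.ev (nat_lit 896) (nat_lit 65600) (.ev (nat_lit 1732) (nat_lit 131072) (.ev
 (nat_lit 1741) (nat_lit 16) .dd)))) (.ch (nat_lit 10) (.ev (nat_lit 896) (nat_lit 65552) (.ev (nat_lit 1172)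
 (nat_lit 64) (.ev (nat_lit 1181) (nat_lit 131072) .dd)))))) (.br (nat_lit 14) (.br (nat_lit 12) (.ch (nat_lit
 11) (.ev (nat_lit 896) (nat_lit 131152) (.ev (nat_lit 909) (nat_lit 65536) .dd))) (.ch (nat_lit 12) (.ev
 (nat_lit 896) (nat_lit 16) (.ev (nat_lit 1268) (nat_lit 64) (.ev (nat_lit 3380) (nat_lit 131072) (.ev (nat_lit
 3389) (nat_lit 65536) .dd)))))) (.br (nat_lit 16) (.ch (nat_lit 14) (.ev (nat_lit 896) (nat_lit 65616) (.ev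
 (nat_lit 909) (nat_lit 131072) .dd))) (.ch (nat_lit 16) (.ev (nat_lit 896) (nat_lit 131088) (.ev (nat_lit
 1060) (nat_lit 65536) (.ev (nat_lit 1069) (nat_lit 64) .dd)))))))))) (.ch (nat_lit 7) (.ev (nat_lit 432)
 (nat_lit 2147549264) (.nd (nat_lit 976) (.br (nat_lit 10) (.br (nat_lit 6) (.br (nat_lit 4) (.ch (nat_lit 1)
 (.ev (nat_lit 992) (nat_lit 70368744308736) (.ev (nat_lit 1005) (nat_lit 8589934592) .dd))) (.ch (nat_lit 4)
 (.ev (nat_lit 992) (nat_lit 70377334243328) .dd))) (.br (nat_lit 7) (.ch (nat_lit 6) (.ev (nat_lit 992)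
 (nat_lit 70368744308736) (.ev (nat_lit 1005) (nat_lit 8589934592) .dd))) (.ch (nat_lit 7) (.ev (nat_lit 992)
 (nat_lit 70377334243328) .dd)))) (.br (nat_lit 14) (.br (nat_lit 13) (.ch (nat_lit 10) (.ev (nat_lit 992)
 (nat_lit 8589934592) (.ev (nat_lit 3940) (nat_lit 70368744177664) (.ev (nat_lit 3949) (nat_lit 131072) .dd))))
 (.ch (nat_lit 13) (.ev (nat_lit 992) (nat_lit 70377334243328) .dd))) (.br (nat_lit 16) (.ch (nat_lit 14) (.ev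
 (nat_lit 992) (nat_lit 8589934592) (.ev (nat_lit 1236) (nat_lit 131072) (.ev (nat_lit 1245) (nat_lit
 70368744177664) .dd)))) (.ch (nat_lit 16) (.ev (nat_lit 1204) (nat_lit 8589934592) (.ev (nat_lit 2720)
 (nat_lit 131072) (.ev (nat_lit 2733) (nat_lit 70368744177664) .dd)))))))))))) (.br (nat_lit 10) (.br (nat_lit
 9) (.ch (nat_lit 8) (.ev (nat_lit 432) (nat_lit 70377334308944) (.ev (nat_lit 445) (nat_lit 2147483648) .dd)))
 (.ch (nat_lit 9) (.ev (nat_lit 432) (nat_lit 70370891792400) (.nd (nat_lit 976) (.br (nat_lit 7) (.br (nat_lit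
 5) (.br (nat_lit 2) (.ch (nat_lit 1) (.ev (nat_lit 992) (nat_lit 64) (.ev (nat_lit 1028) (nat_lit 65536) (.ev
 (nat_lit 1037) (nat_lit 8589934592) .dd)))) (.ch (nat_lit 2) (.ev (nat_lit 992) (nat_lit 65600) (.ev (nat_lit
 1005) (nat_lit 8589934592) .dd)))) (.br (nat_lit 6) (.ch (nat_lit 5) (.ev (nat_lit 992) (nat_lit 8590000128)
 (.ev (nat_lit 1005) (nat_lit 64) .dd))) (.ch (nat_lit 6) (.ev (nat_lit 992) (nat_lit 8590000128) (.ev (nat_lit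
 1005) (nat_lit 64) .dd))))) (.br (nat_lit 14) (.br (nat_lit 11) (.ch (nat_lit 7) (.ev (nat_lit 992) (nat_lit
 8590000128) (.ev (nat_lit 1005) (nat_lit 64) .dd))) (.ch (nat_lit 11) (.ev (nat_lit 1060) (nat_lit 65536) (.ev
 (nat_lit 3460) (nat_lit 64) (.ev (nat_lit 3469) (nat_lit 8589934592) .dd))))) (.br (nat_lit 15) (.ch (nat_lit
 14) (.ev (nat_lit 992) (nat_lit 8589934592) (.ev (nat_lit 2292) (nat_lit 64) (.ev (nat_lit 2301) (nat_lit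
 65536) .dd)))) (.ch (nat_lit 15) (.ev (nat_lit 992) (nat_lit 65600) (.ev (nat_lit 1005) (nat_lit 8589934592)
 .dd)))))))))) (.br (nat_lit 11) (.ch (nat_lit 10) (.ev (nat_lit 432) (nat_lit 10737418304) (.nd (nat_lit 880)
 (.br (nat_lit 5) (.br (nat_lit 2) (.br (nat_lit 1) (.ch (nat_lit 0) (.ev (nat_lit 896) (nat_lit
 70368744308736) (.fin (nat_lit 576474496199246426)))) (.ch (nat_lit 1) (.ev (nat_lit 896) (nat_lit
 70368744308752) (.ev (nat_lit 909) (nat_lit 65536) .dd)))) (.br (nat_lit 4) (.ch (nat_lit 2) (.ev (nat_lit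
 896) (nat_lit 196624) (.ev (nat_lit 909) (nat_lit 70368744177664) .dd))) (.ch (nat_lit 4) (.ev (nat_lit 896)
 (nat_lit 70368744243200) (.ev (nat_lit 3568) (nat_lit 16) (.ev (nat_lit 3581) (nat_lit 131072) .dd)))))) (.br
 (nat_lit 10) (.br (nat_lit 7) (.ch (nat_lit 5) (.ev (nat_lit 896) (nat_lit 65552) (.ev (nat_lit 916) (nat_lit
 131072) (.ev (nat_lit 925) (nat_lit 70368744177664) .dd)))) (.ch (nat_lit 7) (.ev (nat_lit 896) (nat_lit 16)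
 (.ev (nat_lit 3632) (nat_lit 131072) (.ev (nat_lit 3892) (nat_lit 70368744177664) (.ev (nat_lit 3901) (nat_lit
 65536) .dd)))))) (.br (nat_lit 15) (.ch (nat_lit 10) (.ev (nat_lit 896) (nat_lit 70368744243200) (.ev (nat_lit
 2900) (nat_lit 16) (.ev (nat_lit 2909) (nat_lit 131072) .dd)))) (.br (nat_lit 16) (.ch (nat_lit 15) (.ev
 (nat_lit 896) (nat_lit 131088) (.ev (nat_lit 1444) (nat_lit 70368744177664) (.ev (nat_lit 1453) (nat_lit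
 65536) .dd)))) (.ch (nat_lit 16) (.ev (nat_lit 896) (nat_lit 16) (.ev (nat_lit 916) (nat_lit 70368744177664)
 (.ev (nat_lit 1028) (nat_lit 65536) (.ev (nat_lit 1037) (nat_lit 131072) .dd)))))))))))) (.br (nat_lit 16)
 (.ch (nat_lit 11) (.ev (nat_lit 432) (nat_lit 8590065744) (.nd (nat_lit 976) (.br (nat_lit 9) (.br (nat_lit 6)
 (.br (nat_lit 4) (.ch (nat_lit 3) (.ev (nat_lit 992) (nat_lit 70370891726848) .dd)) (.ch (nat_lit 4) (.ev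
 (nat_lit 1204) (nat_lit 65536) (.ev (nat_lit 1236) (nat_lit 2147483648) (.ev (nat_lit 1245) (nat_lit
 70368744177664) .dd))))) (.br (nat_lit 8) (.ch (nat_lit 6) (.ev (nat_lit 992) (nat_lit 70370891726848) .dd))
 (.ch (nat_lit 8) (.ev (nat_lit 992) (nat_lit 70368744243200) (.ev (nat_lit 1005) (nat_lit 2147483648) .dd)))))
 (.br (nat_lit 14) (.br (nat_lit 10) (.ch (nat_lit 9) (.ev (nat_lit 992) (nat_lit 70370891661312) (.ev (nat_lit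
 1005) (nat_lit 65536) .dd))) (.ch (nat_lit 10) (.ev (nat_lit 992) (nat_lit 70368744177664) (.ev (nat_lit 2736)
 (nat_lit 2147549184) .dd)))) (.br (nat_lit 16) (.ch (nat_lit 14) (.ev (nat_lit 992) (nat_lit 2147483648) (.ev
 (nat_lit 1028) (nat_lit 65536) (.ev (nat_lit 1037) (nat_lit 70368744177664) .dd)))) (.ch (nat_lit 16) (.ev
 (nat_lit 992) (nat_lit 2147483648) (.ev (nat_lit 1028) (nat_lit 65536) (.ev (nat_lit 1037) (nat_lit
 70368744177664) .dd)))))))))) (.ch (nat_lit 16) (.ev (nat_lit 432) (nat_lit 70379481661440) (.nd (nat_lit 976)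
 (.br (nat_lit 9) (.br (nat_lit 7) (.br (nat_lit 3) (.ch (nat_lit 1) (.ev (nat_lit 992) (nat_lit 131072) (.ev
 (nat_lit 1588) (nat_lit 64) (.ev (nat_lit 1597) (nat_lit 16) .dd)))) (.ch (nat_lit 3) (.ev (nat_lit 992)
 (nat_lit 131136) (.ev (nat_lit 1005) (nat_lit 16) .dd)))) (.br (nat_lit 8) (.ch (nat_lit 7) (.ev (nat_lit
 3684) (nat_lit 16) (.nd (nat_lit 4544) (.br (nat_lit 5) (.ch (nat_lit 4) (.ev (nat_lit 4580) (nat_lit 64) (.ev
 (nat_lit 4589) (nat_lit 131072) .dd))) (.ch (nat_lit 5) (.fin (nat_lit 576157836909167050))))))) (.ch (nat_lit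
 8) (.ev (nat_lit 992) (nat_lit 131152) .dd)))) (.br (nat_lit 13) (.br (nat_lit 11) (.ch (nat_lit 9) (.ev
 (nat_lit 992) (nat_lit 80) (.ev (nat_lit 1005) (nat_lit 131072) .dd))) (.ch (nat_lit 11) (.ev (nat_lit 992)
 (nat_lit 131072) (.ev (nat_lit 1060) (nat_lit 16) (.ev (nat_lit 1069) (nat_lit 64) .dd))))) (.br (nat_lit 15)
 (.ch (nat_lit 13) (.ev (nat_lit 992) (nat_lit 131152) .dd)) (.br (nat_lit 16) (.ch (nat_lit 15) (.ev (nat_lit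
 992) (nat_lit 131088) (.ev (nat_lit 1005) (nat_lit 64) .dd))) (.ch (nat_lit 16) (.ev (nat_lit 1060) (nat_lit
 16) (.ev (nat_lit 1204) (nat_lit 64) (.ev (nat_lit 1213) (nat_lit 131072) .dd)))))))))))))))))) (.ch (nat_lit
 3) (.ev (nat_lit 48) (nat_lit 791650519681648) (.nd (nat_lit 464) (.br (nat_lit 10) (.br (nat_lit 7) (.br
 (nat_lit 6) (.ch (nat_lit 2) (.ev (nat_lit 480) (nat_lit 1125908496777216) (.nd (nat_lit 1344) (.br (nat_lit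
 8) (.br (nat_lit 6) (.br (nat_lit 4) (.ch (nat_lit 3) (.ev (nat_lit 2228) (nat_lit 1024) (.ev (nat_lit 2237)
 (nat_lit 16777216) .dd))) (.ch (nat_lit 4) (.ev (nat_lit 1412) (nat_lit 1024) (.ev (nat_lit 1421) (nat_lit
 16777216) .dd)))) (.br (nat_lit 7) (.ch (nat_lit 6) (.ev (nat_lit 1360) (nat_lit 16777216) (.ev (nat_lit 1373)
 (nat_lit 1024) .dd))) (.ch (nat_lit 7) (.ev (nat_lit 1360) (nat_lit 16778240) .dd)))) (.br (nat_lit 13) (.br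
 (nat_lit 9) (.ch (nat_lit 8) (.ev (nat_lit 1360) (nat_lit 1024) (.ev (nat_lit 1373) (nat_lit 16777216) .dd)))
 (.ch (nat_lit 9) (.ev (nat_lit 2228) (nat_lit 1024) (.ev (nat_lit 2237) (nat_lit 16777216) .dd)))) (.br
 (nat_lit 16) (.ch (nat_lit 13) (.ev (nat_lit 1360) (nat_lit 1024) (.ev (nat_lit 1373) (nat_lit 16777216)
 .dd))) (.ch (nat_lit 16) (.ev (nat_lit 1360) (nat_lit 16778240) .dd)))))))) (.ch (nat_lit 6) (.ev (nat_lit
 480) (nat_lit 1125908513555456) .dd))) (.br (nat_lit 8) (.ch (nat_lit 7) (.ev (nat_lit 480) (nat_lit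
 8606711808) (.ev (nat_lit 1412) (nat_lit 1125899906842624) (.ev (nat_lit 1421) (nat_lit 1024) .dd)))) (.ch
 (nat_lit 8) (.ev (nat_lit 480) (nat_lit 8606712832) (.ev (nat_lit 493) (nat_lit 1125899906842624) .dd)))))
 (.br (nat_lit 13) (.br (nat_lit 11) (.ch (nat_lit 10) (.ev (nat_lit 480) (nat_lit 8589934592) (.ev (nat_lit
 1316) (nat_lit 16777216) (.nd (nat_lit 2016) (.br (nat_lit 7) (.br (nat_lit 3) (.br (nat_lit 1) (.ch (nat_lit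
 0) (.ev (nat_lit 2032) (nat_lit 1125899906843648) .dd)) (.ch (nat_lit 1) (.ev (nat_lit 2032) (nat_lit
 1125899906843648) .dd))) (.br (nat_lit 4) (.ch (nat_lit 3) (.ev (nat_lit 2032) (nat_lit 1125899906843648)
 .dd)) (.ch (nat_lit 4) (.ev (nat_lit 2052) (nat_lit 1024) (.ev (nat_lit 2061) (nat_lit 1125899906842624)
 .dd))))) (.br (nat_lit 11) (.br (nat_lit 8) (.ch (nat_lit 7) (.ev (nat_lit 2032) (nat_lit 1125899906843648)
 .dd)) (.ch (nat_lit 8) (.fin (nat_lit 576313967481668153)))) (.br (nat_lit 15) (.ch (nat_lit 11) (.ev (nat_lit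
 2052) (nat_lit 1024) (.ev (nat_lit 2061) (nat_lit 1125899906842624) .dd))) (.br (nat_lit 16) (.ch (nat_lit 15)
 (.ev (nat_lit 2032) (nat_lit 1125899906843648) .dd)) (.ch (nat_lit 16) (.ev (nat_lit 2032) (nat_lit
 1125899906843648) .dd)))))))))) (.ch (nat_lit 11) (.ev (nat_lit 480) (nat_lit 1125899923619840) (.ev (nat_lit
 1700) (nat_lit 1024) (.ev (nat_lit 1709) (nat_lit 8589934592) .dd))))) (.br (nat_lit 14) (.ch (nat_lit 13)
 (.ev (nat_lit 480) (nat_lit 1125899906843648) (.nd (nat_lit 1344) (.br (nat_lit 10) (.br (nat_lit 5) (.ch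
 (nat_lit 0) (.ev (nat_lit 1360) (nat_lit 8589934592) (.ev (nat_lit 1373) (nat_lit 16777216) .dd))) (.br
 (nat_lit 8) (.ch (nat_lit 5) (.ev (nat_lit 1360) (nat_lit 8606711808) .dd)) (.ch (nat_lit 8) (.ev (nat_lit
 1360) (nat_lit 16777216) (.ev (nat_lit 1373) (nat_lit 8589934592) .dd))))) (.br (nat_lit 13) (.br (nat_lit 11)
 (.ch (nat_lit 10) (.ev (nat_lit 1360) (nat_lit 8589934592) (.ev (nat_lit 1373) (nat_lit 16777216) .dd))) (.ch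
 (nat_lit 11) (.ev (nat_lit 1360) (nat_lit 8606711808) .dd))) (.br (nat_lit 16) (.ch (nat_lit 13) (.ev (nat_lit
 1360) (nat_lit 8589934592) (.ev (nat_lit 1373) (nat_lit 16777216) .dd))) (.ch (nat_lit 16) (.ev (nat_lit 1360)
 (nat_lit 16777216) (.ev (nat_lit 1373) (nat_lit 8589934592) .dd))))))))) (.br (nat_lit 15) (.ch (nat_lit 14)
 (.ev (nat_lit 480) (nat_lit 1125899923619840) (.nd (nat_lit 1344) (.br (nat_lit 10) (.br (nat_lit 4) (.ch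
 (nat_lit 0) (.ev (nat_lit 1360) (nat_lit 8589935616) .dd)) (.br (nat_lit 7) (.ch (nat_lit 4) (.ev (nat_lit
 1360) (nat_lit 8589934592) (.ev (nat_lit 1373) (nat_lit 1024) .dd))) (.ch (nat_lit 7) (.ev (nat_lit 1360)
 (nat_lit 8589935616) .dd)))) (.br (nat_lit 13) (.br (nat_lit 11) (.ch (nat_lit 10) (.ev (nat_lit 1600)
 (nat_lit 1024) (.ev (nat_lit 1613) (nat_lit 8589934592) .dd))) (.ch (nat_lit 11) (.ev (nat_lit 1360) (nat_lit
 1024) (.ev (nat_lit 1373) (nat_lit 8589934592) .dd)))) (.br (nat_lit 15) (.ch (nat_lit 13) (.ev (nat_lit 1360)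
 (nat_lit 1024) (.ev (nat_lit 1373) (nat_lit 8589934592) .dd))) (.ch (nat_lit 15) (.ev (nat_lit 1360) (nat_lit
 1024) (.ev (nat_lit 1373) (nat_lit 8589934592) .dd))))))))) (.ch (nat_lit 15) (.ev (nat_lit 480) (nat_lit
 1125908513555456) .dd)))))))))) (.br (nat_lit 6) (.ch (nat_lit 4) (.ev (nat_lit 48) (nat_lit 10737421904) (.nd
 (nat_lit 288) (.br (nat_lit 9) (.br (nat_lit 7) (.br (nat_lit 4) (.ch (nat_lit 2) (.ev (nat_lit 304) (nat_lit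
 1706442046439424) (.nd (nat_lit 800) (.br (nat_lit 8) (.br (nat_lit 5) (.br (nat_lit 3) (.ch (nat_lit 1) (.ev
 (nat_lit 816) (nat_lit 211106232598560) (.ev (nat_lit 829) (nat_lit 16777216) .dd))) (.ch (nat_lit 3) (.ev
 (nat_lit 816) (nat_lit 211106249375744) (.ev (nat_lit 829) (nat_lit 32) .dd)))) (.br (nat_lit 6) (.ch (nat_lit
 5) (.ev (nat_lit 816) (nat_lit 32) (.ev (nat_lit 2292) (nat_lit 70368744177664) (.ev (nat_lit 2900) (nat_lit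
 16777216) (.ev (nat_lit 3620) (nat_lit 65536) (.ev (nat_lit 3629) (nat_lit 140737488355328) .dd)))))) (.ch
 (nat_lit 6) (.ev (nat_lit 816) (nat_lit 65536) (.ev (nat_lit 1412) (nat_lit 70368744177664) (.ev (nat_lit
 2308) (nat_lit 140737488355328) (.ev (nat_lit 3460) (nat_lit 16777216) (.ev (nat_lit 3469) (nat_lit 32)
 .dd)))))))) (.br (nat_lit 12) (.br (nat_lit 9) (.ch (nat_lit 8) (.ev (nat_lit 816) (nat_lit 140737505198080)
 (.ev (nat_lit 836) (nat_lit 32) (.ev (nat_lit 845) (nat_lit 70368744177664) .dd)))) (.ch (nat_lit 9) (.ev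
 (nat_lit 816) (nat_lit 16842752) (.ev (nat_lit 1412) (nat_lit 70368744177664) (.ev (nat_lit 3892) (nat_lit 32)
 (.ev (nat_lit 3901) (nat_lit 140737488355328) .dd)))))) (.br (nat_lit 16) (.ch (nat_lit 12) (.ev (nat_lit 816)
 (nat_lit 140737488355360) (.ev (nat_lit 2292) (nat_lit 70368744177664) (.ev (nat_lit 3732) (nat_lit 65536)
 (.ev (nat_lit 3741) (nat_lit 16777216) .dd))))) (.ch (nat_lit 16) (.ev (nat_lit 816) (nat_lit 211106232532992)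
 (.ev (nat_lit 836) (nat_lit 16777216) (.fin (nat_lit 576456904018444865))))))))))) (.ch (nat_lit 4) (.ev
 (nat_lit 304) (nat_lit 580542156374048) (.nd (nat_lit 1136) (.br (nat_lit 10) (.br (nat_lit 6) (.br (nat_lit
 2) (.ch (nat_lit 1) (.ev (nat_lit 1152) (nat_lit 1125899906842624) (.ev (nat_lit 1172) (nat_lit
 140737488420864) (.ev (nat_lit 1181) (nat_lit 70368744177664) .dd)))) (.ch (nat_lit 2) (.ev (nat_lit 1152)
 (nat_lit 140737488420864) (.ev (nat_lit 1172) (nat_lit 1125899906842624) (.ev (nat_lit 1181) (nat_lit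
 70368744177664) .dd))))) (.br (nat_lit 7) (.ch (nat_lit 6) (.ev (nat_lit 1152) (nat_lit 1337006139375616) (.ev
 (nat_lit 1165) (nat_lit 65536) .dd))) (.ch (nat_lit 7) (.ev (nat_lit 1152) (nat_lit 1337006139375616) (.ev
 (nat_lit 1165) (nat_lit 65536) .dd))))) (.br (nat_lit 15) (.br (nat_lit 12) (.ch (nat_lit 10) (.ev (nat_lit
 1152) (nat_lit 1337006139375616) (.ev (nat_lit 1165) (nat_lit 65536) .dd))) (.ch (nat_lit 12) (.ev (nat_lit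
 1152) (nat_lit 140737488420864) (.ev (nat_lit 1172) (nat_lit 1125899906842624) (.ev (nat_lit 1181) (nat_lit
 70368744177664) .dd))))) (.br (nat_lit 16) (.ch (nat_lit 15) (.ev (nat_lit 1152) (nat_lit 70368744177664) (.ev
 (nat_lit 1172) (nat_lit 140737488420864) (.ev (nat_lit 1181) (nat_lit 1125899906842624) .dd)))) (.ch (nat_lit
 16) (.ev (nat_lit 1152) (nat_lit 1125899906908160) (.ev (nat_lit 1300) (nat_lit 140737488355328) (.ev (nat_lit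
 1309) (nat_lit 70368744177664) .dd))))))))))) (.br (nat_lit 8) (.ch (nat_lit 7) (.ev (nat_lit 304) (nat_lit
 1899956109574176) (.nd (nat_lit 880) (.br (nat_lit 10) (.br (nat_lit 5) (.br (nat_lit 3) (.ch (nat_lit 0) (.ev
 (nat_lit 896) (nat_lit 17592186175488) (.ev (nat_lit 909) (nat_lit 65536) .dd))) (.ch (nat_lit 3) (.ev
 (nat_lit 896) (nat_lit 131072) (.ev (nat_lit 2788) (nat_lit 17592186044416) (.ev (nat_lit 2797) (nat_lit
 65536) .dd))))) (.br (nat_lit 8) (.ch (nat_lit 5) (.ev (nat_lit 896) (nat_lit 17592186044416) (.ev (nat_lit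
 3940) (nat_lit 131072) (.ev (nat_lit 3949) (nat_lit 65536) .dd)))) (.ch (nat_lit 8) (.ev (nat_lit 896)
 (nat_lit 196608) (.ev (nat_lit 909) (nat_lit 17592186044416) .dd))))) (.br (nat_lit 13) (.br (nat_lit 12) (.ch
 (nat_lit 10) (.ev (nat_lit 896) (nat_lit 17592186044416) (.ev (nat_lit 3684) (nat_lit 65536) (.ev (nat_lit
 3693) (nat_lit 131072) .dd)))) (.ch (nat_lit 12) (.ev (nat_lit 896) (nat_lit 196608) (.ev (nat_lit 909)
 (nat_lit 17592186044416) .dd)))) (.br (nat_lit 16) (.ch (nat_lit 13) (.ev (nat_lit 896) (nat_lit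
 17592186044416) (.ev (nat_lit 2292) (nat_lit 65536) (.ev (nat_lit 2301) (nat_lit 131072) .dd)))) (.ch (nat_lit
 16) (.ev (nat_lit 896) (nat_lit 17592186241024) .dd)))))))) (.ch (nat_lit 8) (.ev (nat_lit 304) (nat_lit
 70368761020448) (.nd (nat_lit 800) (.br (nat_lit 6) (.br (nat_lit 3) (.br (nat_lit 2) (.ch (nat_lit 1) (.ev
 (nat_lit 816) (nat_lit 1125899906973696) (.ev (nat_lit 1204) (nat_lit 140737488355328) (.ev (nat_lit 1444)
 (nat_lit 562949953421312) (.ev (nat_lit 1453) (nat_lit 17592186044416) .dd))))) (.ch (nat_lit 2) (.ev (nat_lit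
 816) (nat_lit 1706442046308352) (.fin (nat_lit 576465700112515646))))) (.br (nat_lit 5) (.ch (nat_lit 3) (.ev
 (nat_lit 816) (nat_lit 1143492092887040) (.ev (nat_lit 1732) (nat_lit 140737488355328) (.ev (nat_lit 3620)
 (nat_lit 131072) (.ev (nat_lit 3629) (nat_lit 562949953421312) .dd))))) (.ch (nat_lit 5) (.ev (nat_lit 816)
 (nat_lit 158329674399744) (.ev (nat_lit 1060) (nat_lit 1125899906842624) (.ev (nat_lit 1700) (nat_lit
 562949953421312) (.ev (nat_lit 1709) (nat_lit 131072) .dd))))))) (.br (nat_lit 8) (.br (nat_lit 7) (.ch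
 (nat_lit 6) (.ev (nat_lit 816) (nat_lit 1829587348619264) (.ev (nat_lit 932) (nat_lit 17592186044416) (.ev
 (nat_lit 941) (nat_lit 131072) .dd)))) (.ch (nat_lit 7) (.ev (nat_lit 816) (nat_lit 721279627952128) (.ev
 (nat_lit 829) (nat_lit 1125899906842624) .dd)))) (.br (nat_lit 9) (.ch (nat_lit 8) (.ev (nat_lit 816) (nat_lit
 17592186175488) (.ev (nat_lit 916) (nat_lit 562949953421312) (.ev (nat_lit 3524) (nat_lit 1125899906842624)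
 (.ev (nat_lit 3533) (nat_lit 140737488355328) .dd))))) (.br (nat_lit 16) (.ch (nat_lit 9) (.ev (nat_lit 816)
 (nat_lit 1688849860395008) (.ev (nat_lit 948) (nat_lit 140737488355328) (.ev (nat_lit 957) (nat_lit
 17592186044416) .dd)))) (.ch (nat_lit 16) (.ev (nat_lit 816) (nat_lit 703687441776640) (.ev (nat_lit 1028)
 (nat_lit 1125899906842624) (.ev (nat_lit 1184) (nat_lit 131072) (.ev (nat_lit 1197) (nat_lit 17592186044416)
 .dd)))))))))))))) (.br (nat_lit 13) (.br (nat_lit 11) (.ch (nat_lit 9) (.ev (nat_lit 304) (nat_lit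
 1143492092952608) (.nd (nat_lit 800) (.br (nat_lit 8) (.br (nat_lit 3) (.br (nat_lit 2) (.ch (nat_lit 1) (.ev
 (nat_lit 816) (nat_lit 774056186085376) (.ev (nat_lit 829) (nat_lit 16777216) .dd))) (.ch (nat_lit 2) (.ev
 (nat_lit 816) (nat_lit 140737505263616) (.ev (nat_lit 1172) (nat_lit 562949953421312) (.ev (nat_lit 1181)
 (nat_lit 70368744177664) .dd))))) (.br (nat_lit 6) (.ch (nat_lit 3) (.ev (nat_lit 816) (nat_lit
 140737505132544) (.ev (nat_lit 1412) (nat_lit 70368744177664) (.ev (nat_lit 3296) (nat_lit 131072) (.ev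
 (nat_lit 3309) (nat_lit 562949953421312) .dd))))) (.ch (nat_lit 6) (.ev (nat_lit 816) (nat_lit
 211106249310208) (.ev (nat_lit 2084) (nat_lit 562949953421312) (.ev (nat_lit 2093) (nat_lit 131072) .dd))))))
 (.br (nat_lit 13) (.br (nat_lit 12) (.ch (nat_lit 8) (.ev (nat_lit 816) (nat_lit 633318697598976) (.ev
 (nat_lit 932) (nat_lit 16777216) (.ev (nat_lit 3568) (nat_lit 140737488355328) (.ev (nat_lit 3581) (nat_lit
 131072) .dd))))) (.ch (nat_lit 12) (.ev (nat_lit 816) (nat_lit 774056202862592) .dd))) (.br (nat_lit 14) (.ch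
 (nat_lit 13) (.ev (nat_lit 816) (nat_lit 70368744177664) (.ev (nat_lit 916) (nat_lit 16777216) (.ev (nat_lit
 1300) (nat_lit 131072) (.nd (nat_lit 2560) (.br (nat_lit 14) (.br (nat_lit 11) (.ch (nat_lit 5) (.ev (nat_lit
 2576) (nat_lit 562949953421312) (.ev (nat_lit 2589) (nat_lit 140737488355328) .dd))) (.ch (nat_lit 11) (.ev
 (nat_lit 2576) (nat_lit 140737488355328) (.ev (nat_lit 2589) (nat_lit 562949953421312) .dd)))) (.br (nat_lit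
 15) (.ch (nat_lit 14) (.ev (nat_lit 2576) (nat_lit 562949953421312) (.ev (nat_lit 2589) (nat_lit
 140737488355328) .dd))) (.ch (nat_lit 15) (.ev (nat_lit 2576) (nat_lit 703687441776640) .dd))))))))) (.br
 (nat_lit 16) (.ch (nat_lit 14) (.ev (nat_lit 816) (nat_lit 140737488486400) (.ev (nat_lit 1172) (nat_lit
 562949953421312) (.ev (nat_lit 1412) (nat_lit 70368744177664) (.ev (nat_lit 1421) (nat_lit 16777216) .dd)))))
 (.ch (nat_lit 16) (.ev (nat_lit 816) (nat_lit 633318697598976) (.ev (nat_lit 3732) (nat_lit 140737488355328)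
 (.ev (nat_lit 3856) (nat_lit 16777216) (.ev (nat_lit 3869) (nat_lit 131072) .dd)))))))))))) (.ch (nat_lit 11)
 (.ev (nat_lit 304) (nat_lit 228698418642944) (.nd (nat_lit 672) (.br (nat_lit 9) (.br (nat_lit 3) (.br
 (nat_lit 1) (.ch (nat_lit 0) (.ev (nat_lit 688) (nat_lit 16908288) (.ev (nat_lit 2292) (nat_lit
 562949953421312) (.ev (nat_lit 3472) (nat_lit 1125899906842624) (.ev (nat_lit 3485) (nat_lit 32) .dd))))) (.ch
 (nat_lit 1) (.ev (nat_lit 688) (nat_lit 562949953421344) (.ev (nat_lit 772) (nat_lit 1125899906842624) (.nd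
 (nat_lit 2560) (.br (nat_lit 8) (.ch (nat_lit 1) (.ev (nat_lit 2628) (nat_lit 131072) (.ev (nat_lit 2637)
 (nat_lit 16777216) .dd))) (.ch (nat_lit 8) (.ev (nat_lit 2628) (nat_lit 131072) (.ev (nat_lit 2637) (nat_lit
 16777216) .dd))))))))) (.br (nat_lit 8) (.ch (nat_lit 3) (.ev (nat_lit 688) (nat_lit 562949953421344) (.ev
 (nat_lit 3620) (nat_lit 131072) (.fin (nat_lit 576467899138916941))))) (.ch (nat_lit 8) (.ev (nat_lit 688)
 (nat_lit 1125899923750912) (.ev (nat_lit 2208) (nat_lit 562949953421312) (.ev (nat_lit 2221) (nat_lit 32)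
 .dd)))))) (.br (nat_lit 11) (.br (nat_lit 10) (.ch (nat_lit 9) (.ev (nat_lit 688) (nat_lit 131104) (.ev
 (nat_lit 1316) (nat_lit 16777216) (.fin (nat_lit 576542665774416485))))) (.ch (nat_lit 10) (.ev (nat_lit 688)
 (nat_lit 1688849877041152) (.ev (nat_lit 3684) (nat_lit 32) (.ev (nat_lit 3693) (nat_lit 131072) .dd))))) (.br
 (nat_lit 12) (.ch (nat_lit 11) (.ev (nat_lit 688) (nat_lit 1125899906973696) (.ev (nat_lit 1588) (nat_lit
 562949953421312) (.nd (nat_lit 4448) (.ch (nat_lit 6) (.nd (nat_lit 6016) (.br (nat_lit 12) (.ch (nat_lit 6)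
 (.ev (nat_lit 6032) (nat_lit 16777248) .dd)) (.ch (nat_lit 12) (.fin (nat_lit 576351350875963878))))))))))
 (.ch (nat_lit 12) (.ev (nat_lit 688) (nat_lit 1125899906973696) (.ev (nat_lit 1172) (nat_lit 562949953421312)
 (.ev (nat_lit 2788) (nat_lit 32) (.ev (nat_lit 2797) (nat_lit 16777216) .dd)))))))))))) (.br (nat_lit 14) (.ch
 (nat_lit 13) (.ev (nat_lit 304) (nat_lit 1899956092862496) (.nd (nat_lit 976) (.br (nat_lit 9) (.br (nat_lit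
 6) (.br (nat_lit 4) (.ch (nat_lit 3) (.ev (nat_lit 992) (nat_lit 17592202952704) .dd)) (.ch (nat_lit 4) (.ev
 (nat_lit 992) (nat_lit 17592202952704) .dd))) (.br (nat_lit 7) (.ch (nat_lit 6) (.ev (nat_lit 992) (nat_lit
 17592186044416) (.ev (nat_lit 1060) (nat_lit 16777216) (.ev (nat_lit 1069) (nat_lit 131072) .dd)))) (.ch
 (nat_lit 7) (.ev (nat_lit 992) (nat_lit 16908288) (.ev (nat_lit 1005) (nat_lit 17592186044416) .dd))))) (.br
 (nat_lit 11) (.br (nat_lit 10) (.ch (nat_lit 9) (.ev (nat_lit 992) (nat_lit 17592186044416) (.ev (nat_lit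
 1268) (nat_lit 16777216) (.ev (nat_lit 1277) (nat_lit 131072) .dd)))) (.ch (nat_lit 10) (.ev (nat_lit 992)
 (nat_lit 16908288) (.ev (nat_lit 1005) (nat_lit 17592186044416) .dd)))) (.br (nat_lit 15) (.ch (nat_lit 11)
 (.ev (nat_lit 992) (nat_lit 16908288) (.ev (nat_lit 1005) (nat_lit 17592186044416) .dd))) (.ch (nat_lit 15)
 (.ev (nat_lit 992) (nat_lit 17592186044416) (.ev (nat_lit 1060) (nat_lit 16777216) (.ev (nat_lit 1069)
 (nat_lit 131072) .dd)))))))))) (.br (nat_lit 15) (.ch (nat_lit 14) (.ev (nat_lit 304) (nat_lit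
 1776810790617088) (.nd (nat_lit 736) (.br (nat_lit 8) (.br (nat_lit 3) (.br (nat_lit 2) (.ch (nat_lit 1) (.ev
 (nat_lit 752) (nat_lit 140737505132576) (.ev (nat_lit 765) (nat_lit 65536) .dd))) (.ch (nat_lit 2) (.ev
 (nat_lit 772) (nat_lit 32) (.ev (nat_lit 2788) (nat_lit 16777216) (.ev (nat_lit 3332) (nat_lit
 140737488355328) (.ev (nat_lit 3341) (nat_lit 65536) .dd)))))) (.br (nat_lit 4) (.ch (nat_lit 3) (.ev (nat_lit
 752) (nat_lit 16777216) (.ev (nat_lit 2100) (nat_lit 140737488355328) (.ev (nat_lit 3620) (nat_lit 65536) (.ev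
 (nat_lit 3629) (nat_lit 32) .dd))))) (.ch (nat_lit 4) (.ev (nat_lit 752) (nat_lit 140737505132544) (.ev
 (nat_lit 1060) (nat_lit 65536) (.ev (nat_lit 1069) (nat_lit 32) .dd)))))) (.br (nat_lit 12) (.br (nat_lit 11)
 (.ch (nat_lit 8) (.ev (nat_lit 752) (nat_lit 140737505198112) .dd)) (.ch (nat_lit 11) (.ev (nat_lit 752)
 (nat_lit 65568) (.ev (nat_lit 1268) (nat_lit 16777216) (.ev (nat_lit 1277) (nat_lit 140737488355328) .dd)))))
 (.br (nat_lit 15) (.ch (nat_lit 12) (.ev (nat_lit 3620) (nat_lit 65536) (.ev (nat_lit 3732) (nat_lit 32) (.ev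
 (nat_lit 3892) (nat_lit 140737488355328) (.ev (nat_lit 3901) (nat_lit 16777216) .dd))))) (.br (nat_lit 16)
 (.ch (nat_lit 15) (.ev (nat_lit 752) (nat_lit 16842752) (.ev (nat_lit 3620) (nat_lit 140737488355328) (.ev
 (nat_lit 3629) (nat_lit 32) .dd)))) (.ch (nat_lit 16) (.ev (nat_lit 752) (nat_lit 140737505198112)
 .dd))))))))) (.ch (nat_lit 15) (.ev (nat_lit 304) (nat_lit 791648388907040) (.nd (nat_lit 1136) (.br (nat_lit
 8) (.br (nat_lit 5) (.br (nat_lit 1) (.ch (nat_lit 0) (.ev (nat_lit 1152) (nat_lit 1125899906842624) (.ev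
 (nat_lit 1165) (nat_lit 65536) .dd))) (.ch (nat_lit 1) (.ev (nat_lit 1152) (nat_lit 65536) (.ev (nat_lit 1165)
 (nat_lit 1125899906842624) .dd)))) (.br (nat_lit 6) (.ch (nat_lit 5) (.ev (nat_lit 1152) (nat_lit 65536) (.ev
 (nat_lit 1165) (nat_lit 1125899906842624) .dd))) (.ch (nat_lit 6) (.ev (nat_lit 1152) (nat_lit
 1125899906908160) .dd)))) (.br (nat_lit 11) (.br (nat_lit 9) (.ch (nat_lit 8) (.ev (nat_lit 1172) (nat_lit
 1125899906842624) (.ev (nat_lit 1181) (nat_lit 65536) .dd))) (.ch (nat_lit 9) (.ev (nat_lit 1152) (nat_lit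
 1125899906908160) .dd))) (.br (nat_lit 12) (.ch (nat_lit 11) (.ev (nat_lit 1152) (nat_lit 1125899906908160)
 .dd)) (.ch (nat_lit 12) (.ev (nat_lit 1152) (nat_lit 1125899906842624) (.ev (nat_lit 1165) (nat_lit 65536)
 .dd)))))))))))))))) (.ch (nat_lit 6) (.ev (nat_lit 48) (nat_lit 1143502847281248) (.nd (nat_lit 416) (.br
 (nat_lit 10) (.br (nat_lit 5) (.br (nat_lit 2) (.ch (nat_lit 0) (.ev (nat_lit 432) (nat_lit 211106232533520)
 (.nd (nat_lit 1136) (.br (nat_lit 8) (.br (nat_lit 1) (.ch (nat_lit 0) (.ev (nat_lit 1152) (nat_lit 1024) (.ev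
 (nat_lit 1165) (nat_lit 562949953421312) .dd))) (.br (nat_lit 4) (.ch (nat_lit 1) (.ev (nat_lit 1152) (nat_lit
 1024) (.ev (nat_lit 1165) (nat_lit 562949953421312) .dd))) (.ch (nat_lit 4) (.ev (nat_lit 1152) (nat_lit
 562949953421312) (.ev (nat_lit 1165) (nat_lit 1024) .dd))))) (.br (nat_lit 10) (.ch (nat_lit 8) (.ev (nat_lit
 1600) (nat_lit 562949953422336) .dd)) (.br (nat_lit 11) (.ch (nat_lit 10) (.ev (nat_lit 1152) (nat_lit
 562949953421312) (.ev (nat_lit 1165) (nat_lit 1024) .dd))) (.ch (nat_lit 11) (.ev (nat_lit 1152) (nat_lit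
 1024) (.ev (nat_lit 1165) (nat_lit 562949953421312) .dd))))))))) (.ch (nat_lit 2) (.ev (nat_lit 432) (nat_lit
 633318697600528) (.ev (nat_lit 445) (nat_lit 140737488355328) .dd)))) (.br (nat_lit 7) (.ch (nat_lit 5) (.ev
 (nat_lit 432) (nat_lit 140737488356352) (.nd (nat_lit 976) (.br (nat_lit 8) (.br (nat_lit 5) (.br (nat_lit 3)
 (.ch (nat_lit 2) (.ev (nat_lit 992) (nat_lit 512) (.ev (nat_lit 1028) (nat_lit 16) (.ev (nat_lit 1444)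
 (nat_lit 562949953421312) (.ev (nat_lit 1453) (nat_lit 70368744177664) .dd))))) (.ch (nat_lit 3) (.ev (nat_lit
 992) (nat_lit 562949953421328) (.ev (nat_lit 1712) (nat_lit 70368744177664) (.ev (nat_lit 1725) (nat_lit 512)
 .dd))))) (.br (nat_lit 7) (.ch (nat_lit 5) (.ev (nat_lit 992) (nat_lit 562949953421840) (.ev (nat_lit 1005)
 (nat_lit 70368744177664) .dd))) (.ch (nat_lit 7) (.ev (nat_lit 1028) (nat_lit 70368744177664) (.ev (nat_lit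
 1492) (nat_lit 16) (.ev (nat_lit 1700) (nat_lit 562949953421312) (.ev (nat_lit 1709) (nat_lit 512) .dd)))))))
 (.br (nat_lit 12) (.br (nat_lit 10) (.ch (nat_lit 8) (.ev (nat_lit 992) (nat_lit 633318697599488) (.ev
 (nat_lit 1005) (nat_lit 16) .dd))) (.ch (nat_lit 10) (.ev (nat_lit 992) (nat_lit 70368744178192) (.ev (nat_lit
 1005) (nat_lit 562949953421312) .dd)))) (.br (nat_lit 15) (.ch (nat_lit 12) (.ev (nat_lit 992) (nat_lit
 633318697598992) (.ev (nat_lit 1005) (nat_lit 512) .dd))) (.br (nat_lit 16) (.ch (nat_lit 15) (.ev (nat_lit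
 992) (nat_lit 562949953421840) (.ev (nat_lit 1005) (nat_lit 70368744177664) .dd))) (.ch (nat_lit 16) (.ev
 (nat_lit 992) (nat_lit 70368744178192) (.ev (nat_lit 1005) (nat_lit 562949953421312) .dd)))))))))) (.ch
 (nat_lit 7) (.ev (nat_lit 432) (nat_lit 211106232533520) (.nd (nat_lit 1344) (.br (nat_lit 9) (.br (nat_lit 3)
 (.ch (nat_lit 2) (.ev (nat_lit 1360) (nat_lit 562949953422336) .dd)) (.br (nat_lit 5) (.ch (nat_lit 3) (.ev
 (nat_lit 1360) (nat_lit 562949953421312) (.ev (nat_lit 1373) (nat_lit 1024) .dd))) (.ch (nat_lit 5) (.ev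
 (nat_lit 1588) (nat_lit 1024) (.ev (nat_lit 1597) (nat_lit 562949953421312) .dd))))) (.br (nat_lit 12) (.ch
 (nat_lit 9) (.ev (nat_lit 1412) (nat_lit 1024) (.ev (nat_lit 1421) (nat_lit 562949953421312) .dd))) (.br
 (nat_lit 13) (.ch (nat_lit 12) (.ev (nat_lit 1360) (nat_lit 1024) (.ev (nat_lit 1373) (nat_lit
 562949953421312) .dd))) (.ch (nat_lit 13) (.ev (nat_lit 1360) (nat_lit 562949953422336) .dd)))))))))) (.br
 (nat_lit 12) (.br (nat_lit 11) (.ch (nat_lit 10) (.ev (nat_lit 432) (nat_lit 774056185955856) .dd)) (.ch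
 (nat_lit 11) (.ev (nat_lit 432) (nat_lit 633318697598992) (.nd (nat_lit 1136) (.br (nat_lit 5) (.br (nat_lit
 3) (.ch (nat_lit 2) (.ev (nat_lit 1152) (nat_lit 1536) (.ev (nat_lit 1165) (nat_lit 140737488355328) .dd)))
 (.br (nat_lit 4) (.ch (nat_lit 3) (.ev (nat_lit 1152) (nat_lit 140737488355328) (.ev (nat_lit 1492) (nat_lit
 512) (.ev (nat_lit 1501) (nat_lit 1024) .dd)))) (.ch (nat_lit 4) (.ev (nat_lit 1152) (nat_lit 1536) (.ev
 (nat_lit 1165) (nat_lit 140737488355328) .dd))))) (.br (nat_lit 11) (.br (nat_lit 6) (.ch (nat_lit 5) (.ev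
 (nat_lit 1152) (nat_lit 1536) (.ev (nat_lit 1165) (nat_lit 140737488355328) .dd))) (.ch (nat_lit 6) (.ev
 (nat_lit 1152) (nat_lit 140737488356864) .dd))) (.br (nat_lit 13) (.ch (nat_lit 11) (.ev (nat_lit 1152)
 (nat_lit 512) (.ev (nat_lit 1492) (nat_lit 1024) (.ev (nat_lit 1501) (nat_lit 140737488355328) .dd)))) (.ch
 (nat_lit 13) (.ev (nat_lit 1152) (nat_lit 140737488356352) (.ev (nat_lit 1165) (nat_lit 512) .dd))))))))))
 (.br (nat_lit 13) (.ch (nat_lit 12) (.ev (nat_lit 432) (nat_lit 562949953421824) (.nd (nat_lit 672) (.br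
 (nat_lit 6) (.br (nat_lit 3) (.br (nat_lit 1) (.ch (nat_lit 0) (.ev (nat_lit 688) (nat_lit 1040) (.nd (nat_lit
 4768) (.ch (nat_lit 0) (.nd (nat_lit 5952) (.br (nat_lit 12) (.ch (nat_lit 6) (.fin (nat_lit
 576720787339690743))) (.ch (nat_lit 12) (.ev (nat_lit 5968) (nat_lit 70368744177664) (.ev (nat_lit 5981)
 (nat_lit 140737488355328) .dd))))))))) (.ch (nat_lit 1) (.ev (nat_lit 688) (nat_lit 140737488356352) (.nd
 (nat_lit 4480) (.ch (nat_lit 8) (.nd (nat_lit 5728) (.br (nat_lit 12) (.ch (nat_lit 6) (.fin (nat_lit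
 576597641235218950))) (.ch (nat_lit 12) (.ev (nat_lit 5744) (nat_lit 70368744177664) (.ev (nat_lit 5757)
 (nat_lit 16) .dd)))))))))) (.br (nat_lit 5) (.ch (nat_lit 3) (.ev (nat_lit 688) (nat_lit 140737488356352) (.ev
 (nat_lit 3524) (nat_lit 70368744177664) (.ev (nat_lit 3533) (nat_lit 16) .dd)))) (.ch (nat_lit 5) (.ev
 (nat_lit 2176) (nat_lit 1024) (.ev (nat_lit 3460) (nat_lit 70368744177664) (.ev (nat_lit 3732) (nat_lit
 140737488355328) (.ev (nat_lit 3741) (nat_lit 16) .dd))))))) (.br (nat_lit 12) (.br (nat_lit 9) (.ch (nat_lit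
 6) (.ev (nat_lit 688) (nat_lit 70368744177680) (.ev (nat_lit 2064) (nat_lit 140737488356352) .dd))) (.ch
 (nat_lit 9) (.ev (nat_lit 688) (nat_lit 211106232533008) (.ev (nat_lit 701) (nat_lit 1024) .dd)))) (.br
 (nat_lit 13) (.ch (nat_lit 12) (.ev (nat_lit 688) (nat_lit 211106232532992) (.ev (nat_lit 1248) (nat_lit 1040)
 .dd))) (.br (nat_lit 15) (.ch (nat_lit 13) (.ev (nat_lit 688) (nat_lit 70368744177664) (.ev (nat_lit 2176)
 (nat_lit 1024) (.ev (nat_lit 3684) (nat_lit 16) (.ev (nat_lit 3693) (nat_lit 140737488355328) .dd))))) (.ch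
 (nat_lit 15) (.ev (nat_lit 688) (nat_lit 1040) (.ev (nat_lit 1700) (nat_lit 140737488355328) (.ev (nat_lit
 1709) (nat_lit 70368744177664) .dd))))))))))) (.br (nat_lit 14) (.ch (nat_lit 13) (.ev (nat_lit 432) (nat_lit
 703687441777152) (.nd (nat_lit 976) (.br (nat_lit 8) (.br (nat_lit 2) (.ch (nat_lit 0) (.ev (nat_lit 992)
 (nat_lit 70368744178704) .dd)) (.br (nat_lit 7) (.ch (nat_lit 2) (.ev (nat_lit 1028) (nat_lit 16) (.ev
 (nat_lit 1060) (nat_lit 1024) (.ev (nat_lit 1069) (nat_lit 70368744177664) .dd)))) (.ch (nat_lit 7) (.ev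
 (nat_lit 992) (nat_lit 1040) (.ev (nat_lit 1005) (nat_lit 70368744177664) .dd))))) (.br (nat_lit 10) (.br
 (nat_lit 9) (.ch (nat_lit 8) (.ev (nat_lit 992) (nat_lit 70368744178688) (.ev (nat_lit 1005) (nat_lit 16)
 .dd))) (.ch (nat_lit 9) (.ev (nat_lit 992) (nat_lit 70368744178688) (.ev (nat_lit 1005) (nat_lit 16) .dd))))
 (.br (nat_lit 11) (.ch (nat_lit 10) (.ev (nat_lit 992) (nat_lit 70368744177680) (.ev (nat_lit 1005) (nat_lit
 1024) .dd))) (.ch (nat_lit 11) (.ev (nat_lit 992) (nat_lit 1024) (.ev (nat_lit 3380) (nat_lit 70368744177664)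
 (.ev (nat_lit 3389) (nat_lit 16) .dd)))))))))) (.ch (nat_lit 14) (.ev (nat_lit 432) (nat_lit 211106232534032)
 (.nd (nat_lit 2016) (.br (nat_lit 10) (.br (nat_lit 9) (.ch (nat_lit 2) (.ev (nat_lit 2032) (nat_lit
 562949953421824) .dd)) (.ch (nat_lit 9) (.fin (nat_lit 576456904017396274)))) (.br (nat_lit 14) (.ch (nat_lit
 10) (.ev (nat_lit 2032) (nat_lit 562949953421824) .dd)) (.br (nat_lit 15) (.ch (nat_lit 14) (.ev (nat_lit
 2032) (nat_lit 562949953421824) .dd)) (.ch (nat_lit 15) (.ev (nat_lit 2032) (nat_lit 562949953421824)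
 .dd))))))))))))))))) (.br (nat_lit 11) (.br (nat_lit 10) (.ch (nat_lit 8) (.ev (nat_lit 48) (nat_lit
 1917550443170896) (.nd (nat_lit 416) (.br (nat_lit 11) (.br (nat_lit 8) (.br (nat_lit 1) (.ch (nat_lit 0) (.ev
 (nat_lit 432) (nat_lit 8590065664) (.nd (nat_lit 1344) (.br (nat_lit 5) (.br (nat_lit 2) (.ch (nat_lit 1) (.ev
 (nat_lit 1360) (nat_lit 544) .dd)) (.br (nat_lit 3) (.ch (nat_lit 2) (.ev (nat_lit 1412) (nat_lit 32) (.ev
 (nat_lit 1421) (nat_lit 512) .dd))) (.ch (nat_lit 3) (.ev (nat_lit 1360) (nat_lit 544) .dd)))) (.br (nat_lit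
 7) (.br (nat_lit 6) (.ch (nat_lit 5) (.ev (nat_lit 1360) (nat_lit 512) (.ev (nat_lit 1373) (nat_lit 32) .dd)))
 (.ch (nat_lit 6) (.ev (nat_lit 1744) (nat_lit 512) (.ev (nat_lit 1757) (nat_lit 32) .dd)))) (.br (nat_lit 8)
 (.ch (nat_lit 7) (.ev (nat_lit 1360) (nat_lit 544) .dd)) (.ch (nat_lit 8) (.ev (nat_lit 1360) (nat_lit 32)
 (.ev (nat_lit 1373) (nat_lit 512) .dd))))))))) (.ch (nat_lit 1) (.ev (nat_lit 432) (nat_lit 131584) (.nd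
 (nat_lit 1344) (.br (nat_lit 6) (.br (nat_lit 2) (.ch (nat_lit 1) (.ev (nat_lit 1360) (nat_lit 32) (.ev
 (nat_lit 1373) (nat_lit 8589934592) .dd))) (.br (nat_lit 3) (.ch (nat_lit 2) (.ev (nat_lit 1360) (nat_lit 32)
 (.ev (nat_lit 1373) (nat_lit 8589934592) .dd))) (.ch (nat_lit 3) (.ev (nat_lit 1360) (nat_lit 32) (.ev
 (nat_lit 1373) (nat_lit 8589934592) .dd))))) (.br (nat_lit 12) (.br (nat_lit 11) (.ch (nat_lit 6) (.ev
 (nat_lit 1360) (nat_lit 8589934624) .dd)) (.ch (nat_lit 11) (.ev (nat_lit 1360) (nat_lit 8589934592) (.ev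
 (nat_lit 1373) (nat_lit 32) .dd)))) (.br (nat_lit 16) (.ch (nat_lit 12) (.ev (nat_lit 1360) (nat_lit 32) (.ev
 (nat_lit 1373) (nat_lit 8589934592) .dd))) (.ch (nat_lit 16) (.ev (nat_lit 1360) (nat_lit 8589934592) (.ev
 (nat_lit 1373) (nat_lit 32) .dd)))))))))) (.br (nat_lit 10) (.ch (nat_lit 8) (.ev (nat_lit 432) (nat_lit
 8590066208) .dd)) (.ch (nat_lit 10) (.ev (nat_lit 432) (nat_lit 512) (.ev (nat_lit 500) (nat_lit 8589934592)
 (.nd (nat_lit 1136) (.br (nat_lit 9) (.br (nat_lit 5) (.br (nat_lit 2) (.ch (nat_lit 0) (.ev (nat_lit 1152)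
 (nat_lit 131072) (.ev (nat_lit 1165) (nat_lit 32) .dd))) (.ch (nat_lit 2) (.ev (nat_lit 1152) (nat_lit 131104)
 .dd))) (.br (nat_lit 6) (.ch (nat_lit 5) (.ev (nat_lit 1152) (nat_lit 32) (.ev (nat_lit 1165) (nat_lit 131072)
 .dd))) (.ch (nat_lit 6) (.ev (nat_lit 1152) (nat_lit 131104) .dd)))) (.br (nat_lit 12) (.br (nat_lit 10) (.ch
 (nat_lit 9) (.nd (nat_lit 5088) (.br (nat_lit 11) (.ch (nat_lit 3) (.fin (nat_lit 576518476681134662))) (.ch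
 (nat_lit 11) (.ev (nat_lit 5104) (nat_lit 131104) .dd))))) (.ch (nat_lit 10) (.ev (nat_lit 1152) (nat_lit
 131104) .dd))) (.br (nat_lit 14) (.ch (nat_lit 12) (.ev (nat_lit 1172) (nat_lit 32) (.ev (nat_lit 1181)
 (nat_lit 131072) .dd))) (.br (nat_lit 15) (.ch (nat_lit 14) (.ev (nat_lit 1152) (nat_lit 32) (.ev (nat_lit
 1165) (nat_lit 131072) .dd))) (.ch (nat_lit 15) (.ev (nat_lit 1152) (nat_lit 32) (.ev (nat_lit 1165) (nat_lit
 131072) .dd))))))))))))) (.br (nat_lit 14) (.br (nat_lit 12) (.ch (nat_lit 11) (.ev (nat_lit 432) (nat_lit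
 131072) (.nd (nat_lit 1136) (.br (nat_lit 5) (.br (nat_lit 3) (.br (nat_lit 2) (.ch (nat_lit 0) (.ev (nat_lit
 1412) (nat_lit 512) (.ev (nat_lit 2084) (nat_lit 8589934592) (.ev (nat_lit 2093) (nat_lit 32) .dd)))) (.ch
 (nat_lit 2) (.ev (nat_lit 1152) (nat_lit 32) (.nd (nat_lit 4608) (.br (nat_lit 10) (.ch (nat_lit 4) (.ev
 (nat_lit 4624) (nat_lit 8589935104) .dd)) (.br (nat_lit 14) (.ch (nat_lit 10) (.ev (nat_lit 4624) (nat_lit
 8589934592) (.ev (nat_lit 4637) (nat_lit 512) .dd))) (.ch (nat_lit 14) (.fin (nat_lit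
 576531670710567405))))))))) (.br (nat_lit 4) (.ch (nat_lit 3) (.ev (nat_lit 1152) (nat_lit 8589934592) (.ev
 (nat_lit 1184) (nat_lit 512) (.ev (nat_lit 1197) (nat_lit 32) .dd)))) (.ch (nat_lit 4) (.ev (nat_lit 1152)
 (nat_lit 8589935104) (.ev (nat_lit 1165) (nat_lit 32) .dd))))) (.br (nat_lit 12) (.br (nat_lit 9) (.ch
 (nat_lit 5) (.ev (nat_lit 1152) (nat_lit 8589935136) .dd)) (.ch (nat_lit 9) (.ev (nat_lit 1152) (nat_lit
 8589935136) .dd))) (.br (nat_lit 13) (.ch (nat_lit 12) (.ev (nat_lit 1152) (nat_lit 512) (.ev (nat_lit 2084)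
 (nat_lit 8589934592) (.ev (nat_lit 2093) (nat_lit 32) .dd)))) (.br (nat_lit 16) (.ch (nat_lit 13) (.ev
 (nat_lit 1152) (nat_lit 8589935104) (.ev (nat_lit 1165) (nat_lit 32) .dd))) (.ch (nat_lit 16) (.ev (nat_lit
 1152) (nat_lit 8589934624) (.ev (nat_lit 1165) (nat_lit 512) .dd)))))))))) (.ch (nat_lit 12) (.ev (nat_lit
 432) (nat_lit 8589935104) (.nd (nat_lit 1136) (.br (nat_lit 9) (.br (nat_lit 7) (.br (nat_lit 4) (.ch (nat_lit
 2) (.ev (nat_lit 1956) (nat_lit 32) (.ev (nat_lit 1965) (nat_lit 131072) .dd))) (.ch (nat_lit 4) (.ev (nat_lit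
 1152) (nat_lit 131072) (.ev (nat_lit 1165) (nat_lit 32) .dd)))) (.br (nat_lit 8) (.ch (nat_lit 7) (.ev
 (nat_lit 1172) (nat_lit 131072) (.ev (nat_lit 1181) (nat_lit 32) .dd))) (.ch (nat_lit 8) (.ev (nat_lit 1152)
 (nat_lit 32) (.ev (nat_lit 1165) (nat_lit 131072) .dd))))) (.br (nat_lit 13) (.br (nat_lit 11) (.ch (nat_lit
 9) (.ev (nat_lit 1152) (nat_lit 32) (.ev (nat_lit 1165) (nat_lit 131072) .dd))) (.ch (nat_lit 11) (.ev
 (nat_lit 1172) (nat_lit 131072) (.ev (nat_lit 1181) (nat_lit 32) .dd)))) (.br (nat_lit 14) (.ch (nat_lit 13)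
 (.ev (nat_lit 1152) (nat_lit 131104) .dd)) (.br (nat_lit 15) (.ch (nat_lit 14) (.ev (nat_lit 1152) (nat_lit
 131072) (.ev (nat_lit 1165) (nat_lit 32) .dd))) (.ch (nat_lit 15) (.ev (nat_lit 1152) (nat_lit 131104)
 .dd)))))))))) (.br (nat_lit 15) (.ch (nat_lit 14) (.ev (nat_lit 432) (nat_lit 8590066208) .dd)) (.br (nat_lit
 16) (.ch (nat_lit 15) (.ev (nat_lit 432) (nat_lit 8589934624) (.nd (nat_lit 1136) (.br (nat_lit 10) (.br
 (nat_lit 5) (.br (nat_lit 4) (.ch (nat_lit 0) (.ev (nat_lit 1712) (nat_lit 512) (.ev (nat_lit 1725) (nat_lit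
 131072) .dd))) (.ch (nat_lit 4) (.ev (nat_lit 1152) (nat_lit 131584) .dd))) (.br (nat_lit 8) (.ch (nat_lit 5)
 (.ev (nat_lit 1152) (nat_lit 512) (.ev (nat_lit 1165) (nat_lit 131072) .dd))) (.ch (nat_lit 8) (.ev (nat_lit
 1152) (nat_lit 131584) .dd)))) (.br (nat_lit 13) (.br (nat_lit 11) (.ch (nat_lit 10) (.ev (nat_lit 1424)
 (nat_lit 512) (.ev (nat_lit 1437) (nat_lit 131072) .dd))) (.ch (nat_lit 11) (.ev (nat_lit 1152) (nat_lit
 131584) .dd))) (.br (nat_lit 14) (.ch (nat_lit 13) (.ev (nat_lit 1152) (nat_lit 131072) (.ev (nat_lit 1165)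
 (nat_lit 512) .dd))) (.br (nat_lit 16) (.ch (nat_lit 14) (.ev (nat_lit 1152) (nat_lit 512) (.ev (nat_lit 1165)
 (nat_lit 131072) .dd))) (.ch (nat_lit 16) (.ev (nat_lit 1152) (nat_lit 512) (.ev (nat_lit 1165) (nat_lit
 131072) .dd)))))))))) (.ch (nat_lit 16) (.ev (nat_lit 432) (nat_lit 8590065696) (.ev (nat_lit 445) (nat_lit
 512) .dd)))))))))) (.ch (nat_lit 10) (.ev (nat_lit 48) (nat_lit 721290365240368) (.nd (nat_lit 384) (.br
 (nat_lit 8) (.br (nat_lit 5) (.br (nat_lit 1) (.ch (nat_lit 0) (.ev (nat_lit 400) (nat_lit 1125899923816512)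
 (.nd (nat_lit 736) (.br (nat_lit 6) (.br (nat_lit 4) (.br (nat_lit 3) (.ch (nat_lit 1) (.ev (nat_lit 752)
 (nat_lit 70368744179712) (.ev (nat_lit 765) (nat_lit 512) .dd))) (.ch (nat_lit 3) (.ev (nat_lit 1184) (nat_lit
 512) (.ev (nat_lit 3380) (nat_lit 2048) (.ev (nat_lit 3389) (nat_lit 70368744177664) .dd))))) (.br (nat_lit 5)
 (.ch (nat_lit 4) (.ev (nat_lit 752) (nat_lit 512) (.ev (nat_lit 2996) (nat_lit 2048) (.ev (nat_lit 3005)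
 (nat_lit 70368744177664) .dd)))) (.ch (nat_lit 5) (.ev (nat_lit 752) (nat_lit 70368744178176) (.ev (nat_lit
 765) (nat_lit 2048) .dd))))) (.br (nat_lit 12) (.br (nat_lit 7) (.ch (nat_lit 6) (.ev (nat_lit 752) (nat_lit
 70368744178176) (.ev (nat_lit 765) (nat_lit 2048) .dd))) (.ch (nat_lit 7) (.ev (nat_lit 752) (nat_lit 2560)
 (.ev (nat_lit 765) (nat_lit 70368744177664) .dd)))) (.br (nat_lit 14) (.ch (nat_lit 12) (.ev (nat_lit 752)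
 (nat_lit 2048) (.ev (nat_lit 1216) (nat_lit 512) (.ev (nat_lit 1229) (nat_lit 70368744177664) .dd)))) (.ch
 (nat_lit 14) (.ev (nat_lit 1412) (nat_lit 512) (.ev (nat_lit 2452) (nat_lit 2048) (.ev (nat_lit 2461) (nat_lit
 70368744177664) .dd)))))))))) (.ch (nat_lit 1) (.ev (nat_lit 400) (nat_lit 16974336) (.nd (nat_lit 880) (.br
 (nat_lit 9) (.br (nat_lit 7) (.ch (nat_lit 0) (.ev (nat_lit 896) (nat_lit 70368744179776) (.ev (nat_lit 909)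
 (nat_lit 1125899906842624) .dd))) (.br (nat_lit 8) (.ch (nat_lit 7) (.ev (nat_lit 896) (nat_lit 64) (.ev
 (nat_lit 1504) (nat_lit 2048) (.ev (nat_lit 1700) (nat_lit 1125899906842624) (.ev (nat_lit 1709) (nat_lit
 70368744177664) .dd))))) (.ch (nat_lit 8) (.ev (nat_lit 896) (nat_lit 1196268651022336) (.ev (nat_lit 909)
 (nat_lit 64) .dd))))) (.br (nat_lit 13) (.br (nat_lit 11) (.ch (nat_lit 9) (.ev (nat_lit 896) (nat_lit
 70368744179776) (.ev (nat_lit 909) (nat_lit 1125899906842624) .dd))) (.ch (nat_lit 11) (.ev (nat_lit 896)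
 (nat_lit 1125899906842624) (.nd (nat_lit 4096) (.br (nat_lit 14) (.ch (nat_lit 0) (.ev (nat_lit 4112) (nat_lit
 64) (.fin (nat_lit 576245797640159890)))) (.ch (nat_lit 14) (.ev (nat_lit 4112) (nat_lit 2048) (.fin (nat_lit
 576709791416008943))))))))) (.br (nat_lit 14) (.ch (nat_lit 13) (.ev (nat_lit 896) (nat_lit 70368744179776)
 (.ev (nat_lit 909) (nat_lit 1125899906842624) .dd))) (.ch (nat_lit 14) (.ev (nat_lit 896) (nat_lit
 1125899906842688) (.ev (nat_lit 3392) (nat_lit 70368744179712) .dd)))))))))) (.br (nat_lit 7) (.ch (nat_lit 5)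
 (.ev (nat_lit 400) (nat_lit 1196268667797504) (.nd (nat_lit 880) (.br (nat_lit 7) (.br (nat_lit 3) (.br
 (nat_lit 2) (.ch (nat_lit 0) (.ev (nat_lit 896) (nat_lit 2112) (.ev (nat_lit 1172) (nat_lit 131072) (.ev
 (nat_lit 1444) (nat_lit 512) (.ev (nat_lit 1453) (nat_lit 65536) .dd))))) (.ch (nat_lit 2) (.ev (nat_lit 896)
 (nat_lit 196672) (.ev (nat_lit 1008) (nat_lit 2560) .dd)))) (.br (nat_lit 4) (.ch (nat_lit 3) (.ev (nat_lit
 896) (nat_lit 576) (.ev (nat_lit 1172) (nat_lit 131072) (.fin (nat_lit 576498685319791275))))) (.ch (nat_lit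
 4) (.ev (nat_lit 896) (nat_lit 67648) (.ev (nat_lit 1540) (nat_lit 131072) (.ev (nat_lit 1549) (nat_lit 512)
 .dd)))))) (.br (nat_lit 11) (.br (nat_lit 8) (.ch (nat_lit 7) (.ev (nat_lit 896) (nat_lit 131584) (.ev
 (nat_lit 916) (nat_lit 65536) (.ev (nat_lit 2052) (nat_lit 64) (.ev (nat_lit 2061) (nat_lit 2048) .dd)))))
 (.ch (nat_lit 8) (.ev (nat_lit 896) (nat_lit 197120) (.ev (nat_lit 916) (nat_lit 2048) (.ev (nat_lit 925)
 (nat_lit 64) .dd))))) (.br (nat_lit 12) (.ch (nat_lit 11) (.ev (nat_lit 896) (nat_lit 68160) (.ev (nat_lit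
 909) (nat_lit 131072) .dd))) (.ch (nat_lit 12) (.ev (nat_lit 896) (nat_lit 196608) (.ev (nat_lit 1412)
 (nat_lit 512) (.ev (nat_lit 2052) (nat_lit 64) (.ev (nat_lit 2061) (nat_lit 2048) .dd))))))))))) (.ch (nat_lit
 7) (.ev (nat_lit 400) (nat_lit 1196268667930688) (.nd (nat_lit 1136) (.br (nat_lit 8) (.br (nat_lit 4) (.ch
 (nat_lit 2) (.ev (nat_lit 1152) (nat_lit 66048) .dd)) (.br (nat_lit 7) (.ch (nat_lit 4) (.ev (nat_lit 1152)
 (nat_lit 512) (.ev (nat_lit 1165) (nat_lit 65536) .dd))) (.ch (nat_lit 7) (.ev (nat_lit 1732) (nat_lit 512)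
 (.ev (nat_lit 1741) (nat_lit 65536) .dd))))) (.br (nat_lit 10) (.ch (nat_lit 8) (.ev (nat_lit 1152) (nat_lit
 512) (.ev (nat_lit 1165) (nat_lit 65536) .dd))) (.br (nat_lit 11) (.ch (nat_lit 10) (.ev (nat_lit 1152)
 (nat_lit 512) (.ev (nat_lit 1165) (nat_lit 65536) .dd))) (.ch (nat_lit 11) (.ev (nat_lit 1376) (nat_lit 66048)
 .dd)))))))))) (.br (nat_lit 12) (.br (nat_lit 9) (.ch (nat_lit 8) (.ev (nat_lit 400) (nat_lit
 1196268651020800) (.nd (nat_lit 672) (.br (nat_lit 8) (.br (nat_lit 4) (.br (nat_lit 1) (.ch (nat_lit 0) (.ev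
 (nat_lit 688) (nat_lit 198720) (.ev (nat_lit 701) (nat_lit 16777216) .dd))) (.ch (nat_lit 1) (.ev (nat_lit
 688) (nat_lit 16975872) (.ev (nat_lit 701) (nat_lit 64) .dd)))) (.br (nat_lit 7) (.ch (nat_lit 4) (.ev
 (nat_lit 688) (nat_lit 16842752) (.ev (nat_lit 1444) (nat_lit 64) (.ev (nat_lit 1588) (nat_lit 2048) (.ev
 (nat_lit 1597) (nat_lit 131072) .dd))))) (.ch (nat_lit 7) (.ev (nat_lit 688) (nat_lit 133184) (.nd (nat_lit
 3232) (.br (nat_lit 10) (.br (nat_lit 5) (.ch (nat_lit 0) (.ev (nat_lit 3248) (nat_lit 16777216) (.ev (nat_lit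
 3261) (nat_lit 65536) .dd))) (.br (nat_lit 6) (.ch (nat_lit 5) (.ev (nat_lit 3248) (nat_lit 16777216) (.ev
 (nat_lit 3261) (nat_lit 65536) .dd))) (.ch (nat_lit 6) (.ev (nat_lit 3312) (nat_lit 16842752) .dd)))) (.br
 (nat_lit 11) (.ch (nat_lit 10) (.ev (nat_lit 3248) (nat_lit 16842752) .dd)) (.br (nat_lit 14) (.ch (nat_lit
 11) (.ev (nat_lit 3828) (nat_lit 16777216) (.ev (nat_lit 3837) (nat_lit 65536) .dd))) (.ch (nat_lit 14) (.ev
 (nat_lit 3248) (nat_lit 65536) (.ev (nat_lit 3261) (nat_lit 16777216) .dd))))))))))) (.br (nat_lit 11) (.br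
 (nat_lit 10) (.ch (nat_lit 8) (.ev (nat_lit 688) (nat_lit 16779328) (.ev (nat_lit 3684) (nat_lit 65536) (.ev
 (nat_lit 3693) (nat_lit 131072) .dd)))) (.ch (nat_lit 10) (.ev (nat_lit 688) (nat_lit 65536) (.ev (nat_lit
 1412) (nat_lit 64) (.ev (nat_lit 3988) (nat_lit 2048) (.nd (nat_lit 4784) (.br (nat_lit 6) (.ch (nat_lit 3)
 (.ev (nat_lit 4800) (nat_lit 131072) (.ev (nat_lit 4813) (nat_lit 16777216) .dd))) (.ch (nat_lit 6) (.nd
 (nat_lit 5920) (.br (nat_lit 2) (.ch (nat_lit 1) (.fin (nat_lit 575918143232754143))) (.ch (nat_lit 2) (.ev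
 (nat_lit 5936) (nat_lit 16777216) (.ev (nat_lit 5949) (nat_lit 131072) .dd))))))))))))) (.br (nat_lit 15) (.ch
 (nat_lit 11) (.ev (nat_lit 688) (nat_lit 64) (.ev (nat_lit 1216) (nat_lit 131072) (.ev (nat_lit 2868) (nat_lit
 2048) (.ev (nat_lit 3828) (nat_lit 16777216) (.ev (nat_lit 3837) (nat_lit 65536) .dd)))))) (.br (nat_lit 16)
 (.ch (nat_lit 15) (.ev (nat_lit 688) (nat_lit 2048) (.ev (nat_lit 1412) (nat_lit 64) (.ev (nat_lit 1444)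
 (nat_lit 16777216) (.ev (nat_lit 3632) (nat_lit 65536) (.ev (nat_lit 3645) (nat_lit 131072) .dd)))))) (.ch
 (nat_lit 16) (.ev (nat_lit 688) (nat_lit 16910336) (.ev (nat_lit 3332) (nat_lit 65536) (.ev (nat_lit 3341)
 (nat_lit 64) .dd))))))))))) (.ch (nat_lit 9) (.ev (nat_lit 400) (nat_lit 1196268651219008) (.nd (nat_lit 1136)
 (.br (nat_lit 7) (.br (nat_lit 4) (.ch (nat_lit 3) (.ev (nat_lit 1152) (nat_lit 16777728) .dd)) (.br (nat_lit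
 5) (.ch (nat_lit 4) (.ev (nat_lit 1376) (nat_lit 16777728) .dd)) (.ch (nat_lit 5) (.ev (nat_lit 1152) (nat_lit
 512) (.ev (nat_lit 1165) (nat_lit 16777216) .dd))))) (.br (nat_lit 12) (.ch (nat_lit 7) (.ev (nat_lit 1152)
 (nat_lit 16777216) (.ev (nat_lit 1165) (nat_lit 512) .dd))) (.br (nat_lit 15) (.ch (nat_lit 12) (.ev (nat_lit
 1152) (nat_lit 512) (.ev (nat_lit 1165) (nat_lit 16777216) .dd))) (.ch (nat_lit 15) (.ev (nat_lit 1152)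
 (nat_lit 16777216) (.ev (nat_lit 1165) (nat_lit 512) .dd)))))))))) (.br (nat_lit 13) (.ch (nat_lit 12) (.ev
 (nat_lit 400) (nat_lit 2560) (.ev (nat_lit 452) (nat_lit 131072) (.nd (nat_lit 880) (.br (nat_lit 8) (.br
 (nat_lit 6) (.br (nat_lit 5) (.ch (nat_lit 4) (.ev (nat_lit 896) (nat_lit 1196268667863104) .dd)) (.ch
 (nat_lit 5) (.ev (nat_lit 896) (nat_lit 1196268651085888) (.ev (nat_lit 909) (nat_lit 16777216) .dd)))) (.br
 (nat_lit 7) (.ch (nat_lit 6) (.ev (nat_lit 896) (nat_lit 1125899906842624) (.ev (nat_lit 1172) (nat_lit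
 70368744177664) (.ev (nat_lit 3460) (nat_lit 16777216) (.ev (nat_lit 3892) (nat_lit 65536) (.ev (nat_lit 3901)
 (nat_lit 64) .dd)))))) (.ch (nat_lit 7) (.ev (nat_lit 896) (nat_lit 70368761020416) (.ev (nat_lit 1732)
 (nat_lit 1125899906842624) (.ev (nat_lit 1741) (nat_lit 64) .dd)))))) (.br (nat_lit 11) (.br (nat_lit 10) (.ch
 (nat_lit 8) (.ev (nat_lit 896) (nat_lit 1196268651020288) (.ev (nat_lit 1236) (nat_lit 16777216) (.ev (nat_lit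
 1764) (nat_lit 64) (.ev (nat_lit 1773) (nat_lit 65536) .dd))))) (.ch (nat_lit 10) (.ev (nat_lit 896) (nat_lit
 65536) (.ev (nat_lit 1412) (nat_lit 70368744177664) (.ev (nat_lit 1732) (nat_lit 1125899906842624) (.ev
 (nat_lit 3028) (nat_lit 16777216) (.ev (nat_lit 3037) (nat_lit 64) .dd))))))) (.br (nat_lit 12) (.ch (nat_lit
 11) (.ev (nat_lit 896) (nat_lit 1196268667863104) .dd)) (.br (nat_lit 16) (.ch (nat_lit 12) (.ev (nat_lit 896)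
 (nat_lit 1125899923685376) (.ev (nat_lit 1172) (nat_lit 70368744177664) (.ev (nat_lit 1181) (nat_lit 64)
 .dd)))) (.ch (nat_lit 16) (.ev (nat_lit 896) (nat_lit 70368744177728) (.ev (nat_lit 1732) (nat_lit
 1125899906842624) (.ev (nat_lit 2468) (nat_lit 16777216) (.ev (nat_lit 2477) (nat_lit 65536) .dd)))))))))))))
 (.br (nat_lit 16) (.ch (nat_lit 13) (.ev (nat_lit 400) (nat_lit 1125899907041856) (.nd (nat_lit 2016) (.br
 (nat_lit 5) (.br (nat_lit 1) (.ch (nat_lit 0) (.ev (nat_lit 2032) (nat_lit 70368744177664) (.ev (nat_lit 2045)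
 (nat_lit 16777216) .dd))) (.br (nat_lit 3) (.ch (nat_lit 1) (.ev (nat_lit 2032) (nat_lit 16777216) (.ev
 (nat_lit 2045) (nat_lit 70368744177664) .dd))) (.ch (nat_lit 3) (.fin (nat_lit 576462401572389442))))) (.br
 (nat_lit 13) (.br (nat_lit 12) (.ch (nat_lit 5) (.ev (nat_lit 2032) (nat_lit 70368744177664) (.ev (nat_lit
 2045) (nat_lit 16777216) .dd))) (.ch (nat_lit 12) (.ev (nat_lit 2052) (nat_lit 16777216) (.ev (nat_lit 2061)
 (nat_lit 70368744177664) .dd)))) (.br (nat_lit 15) (.ch (nat_lit 13) (.ev (nat_lit 2032) (nat_lit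
 70368760954880) .dd)) (.ch (nat_lit 15) (.ev (nat_lit 2032) (nat_lit 16777216) (.ev (nat_lit 2045) (nat_lit
 70368744177664) .dd))))))))) (.ch (nat_lit 16) (.ev (nat_lit 400) (nat_lit 131584) (.nd (nat_lit 608) (.br
 (nat_lit 10) (.br (nat_lit 8) (.br (nat_lit 3) (.ch (nat_lit 0) (.ev (nat_lit 624) (nat_lit 1196268667865088)
 (.ev (nat_lit 637) (nat_lit 64) .dd))) (.ch (nat_lit 3) (.ev (nat_lit 624) (nat_lit 1125899923619840) (.ev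
 (nat_lit 708) (nat_lit 70368744177664) (.ev (nat_lit 1092) (nat_lit 65536) (.ev (nat_lit 1732) (nat_lit 64)
 (.ev (nat_lit 1741) (nat_lit 2048) .dd))))))) (.br (nat_lit 9) (.ch (nat_lit 8) (.ev (nat_lit 624) (nat_lit
 1196268667863104) (.ev (nat_lit 637) (nat_lit 2048) .dd))) (.ch (nat_lit 9) (.ev (nat_lit 624) (nat_lit
 1125899906844736) (.ev (nat_lit 3344) (nat_lit 16777216) (.ev (nat_lit 3776) (nat_lit 70368744243200)
 .dd)))))) (.br (nat_lit 12) (.br (nat_lit 11) (.ch (nat_lit 10) (.ev (nat_lit 624) (nat_lit 1125899923685440)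
 (.nd (nat_lit 3120) (.br (nat_lit 1) (.ch (nat_lit 0) (.ev (nat_lit 3136) (nat_lit 2048) (.ev (nat_lit 3149)
 (nat_lit 70368744177664) .dd))) (.br (nat_lit 5) (.ch (nat_lit 1) (.ev (nat_lit 3732) (nat_lit 2048) (.ev
 (nat_lit 3741) (nat_lit 70368744177664) .dd))) (.ch (nat_lit 5) (.ev (nat_lit 3732) (nat_lit 2048) (.ev
 (nat_lit 3741) (nat_lit 70368744177664) .dd)))))))) (.ch (nat_lit 11) (.ev (nat_lit 624) (nat_lit 16844864)
 (.ev (nat_lit 1412) (nat_lit 1125899906842624) (.ev (nat_lit 1421) (nat_lit 70368744177664) .dd))))) (.br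
 (nat_lit 14) (.ch (nat_lit 12) (.ev (nat_lit 624) (nat_lit 70368760956992) (.ev (nat_lit 1412) (nat_lit
 1125899906842624) (.ev (nat_lit 1421) (nat_lit 65536) .dd)))) (.br (nat_lit 15) (.ch (nat_lit 14) (.ev
 (nat_lit 624) (nat_lit 1125899906842688) (.ev (nat_lit 644) (nat_lit 2048) (.nd (nat_lit 3232) (.br (nat_lit
 6) (.br (nat_lit 4) (.ch (nat_lit 1) (.ev (nat_lit 3248) (nat_lit 70368760954880) (.ev (nat_lit 3261) (nat_lit
 65536) .dd))) (.ch (nat_lit 4) (.ev (nat_lit 3248) (nat_lit 65536) (.fin (nat_lit 576509680016638775))))) (.br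
 (nat_lit 13) (.ch (nat_lit 6) (.ev (nat_lit 3248) (nat_lit 70368744177664) (.ev (nat_lit 3460) (nat_lit 65536)
 (.ev (nat_lit 3469) (nat_lit 16777216) .dd)))) (.br (nat_lit 16) (.ch (nat_lit 13) (.ev (nat_lit 3248)
 (nat_lit 65536) (.ev (nat_lit 3392) (nat_lit 70368760954880) .dd))) (.ch (nat_lit 16) (.ev (nat_lit 4820)
 (nat_lit 70368744177664) (.nd (nat_lit 5504) (.br (nat_lit 14) (.ch (nat_lit 4) (.fin (nat_lit
 576641621731787290))) (.ch (nat_lit 14) (.ev (nat_lit 5520) (nat_lit 16842752) .dd))))))))))))) (.ch (nat_lit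
 15) (.ev (nat_lit 624) (nat_lit 1196268651020288) (.ev (nat_lit 1648) (nat_lit 16777216) (.ev (nat_lit 1732)
 (nat_lit 64) (.nd (nat_lit 4128) (.br (nat_lit 16) (.ch (nat_lit 1) (.fin (nat_lit 576453605458395704))) (.ch
 (nat_lit 16) (.ev (nat_lit 4144) (nat_lit 67584) .dd))))))))))))))))))))))) (.br (nat_lit 13) (.ch (nat_lit
 11) (.ev (nat_lit 48) (nat_lit 1143500683018240) (.nd (nat_lit 64) (.br (nat_lit 8) (.br (nat_lit 6) (.br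
 (nat_lit 5) (.ch (nat_lit 4) (.ev (nat_lit 80) (nat_lit 774056202733088) (.nd (nat_lit 608) (.br (nat_lit 8)
 (.br (nat_lit 5) (.br (nat_lit 4) (.ch (nat_lit 0) (.ev (nat_lit 624) (nat_lit 80) (.ev (nat_lit 1444)
 (nat_lit 2048) (.ev (nat_lit 1453) (nat_lit 2147483648) .dd)))) (.ch (nat_lit 4) (.ev (nat_lit 708) (nat_lit
 16) (.ev (nat_lit 2228) (nat_lit 2147483648) (.nd (nat_lit 3232) (.br (nat_lit 8) (.br (nat_lit 5) (.ch
 (nat_lit 2) (.ev (nat_lit 3248) (nat_lit 64) (.ev (nat_lit 3261) (nat_lit 2048) .dd))) (.ch (nat_lit 5) (.ev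
 (nat_lit 3268) (nat_lit 2048) (.ev (nat_lit 3277) (nat_lit 64) .dd)))) (.br (nat_lit 13) (.ch (nat_lit 8) (.ev
 (nat_lit 3248) (nat_lit 64) (.ev (nat_lit 3261) (nat_lit 2048) .dd))) (.br (nat_lit 16) (.ch (nat_lit 13) (.ev
 (nat_lit 3248) (nat_lit 2048) (.ev (nat_lit 3261) (nat_lit 64) .dd))) (.ch (nat_lit 16) (.ev (nat_lit 3744)
 (nat_lit 2112) .dd)))))))))) (.br (nat_lit 6) (.ch (nat_lit 5) (.ev (nat_lit 624) (nat_lit 2112) (.ev (nat_lit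
 708) (nat_lit 16) (.ev (nat_lit 717) (nat_lit 2147483648) .dd)))) (.ch (nat_lit 6) (.ev (nat_lit 624) (nat_lit
 2147483664) (.ev (nat_lit 1444) (nat_lit 64) (.ev (nat_lit 1453) (nat_lit 2048) .dd)))))) (.br (nat_lit 13)
 (.br (nat_lit 10) (.ch (nat_lit 8) (.ev (nat_lit 624) (nat_lit 64) (.nd (nat_lit 3120) (.br (nat_lit 8) (.ch
 (nat_lit 6) (.ev (nat_lit 3136) (nat_lit 2147485712) .dd)) (.br (nat_lit 16) (.ch (nat_lit 8) (.ev (nat_lit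
 3280) (nat_lit 16) (.ev (nat_lit 3380) (nat_lit 2048) (.ev (nat_lit 3389) (nat_lit 2147483648) .dd)))) (.ch
 (nat_lit 16) (.ev (nat_lit 3136) (nat_lit 2147485696) (.ev (nat_lit 3149) (nat_lit 16) .dd)))))))) (.ch
 (nat_lit 10) (.ev (nat_lit 624) (nat_lit 2128) (.ev (nat_lit 637) (nat_lit 2147483648) .dd)))) (.br (nat_lit
 15) (.ch (nat_lit 13) (.ev (nat_lit 624) (nat_lit 2147483664) (.fin (nat_lit 576473396730610233)))) (.ch
 (nat_lit 15) (.ev (nat_lit 624) (nat_lit 2147485776) .dd)))))))) (.ch (nat_lit 5) (.ev (nat_lit 80) (nat_lit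
 140737505135152) (.nd (nat_lit 560) (.br (nat_lit 4) (.br (nat_lit 2) (.br (nat_lit 1) (.ch (nat_lit 0) (.ev
 (nat_lit 576) (nat_lit 70370891661376) (.ev (nat_lit 2292) (nat_lit 1024) (.ev (nat_lit 2301) (nat_lit
 562949953421312) .dd)))) (.ch (nat_lit 1) (.ev (nat_lit 576) (nat_lit 2147483648) (.nd (nat_lit 2016) (.br
 (nat_lit 15) (.ch (nat_lit 12) (.ev (nat_lit 2628) (nat_lit 70368744177664) (.ev (nat_lit 2660) (nat_lit
 562949953421312) (.fin (nat_lit 576461302047130168))))) (.br (nat_lit 16) (.ch (nat_lit 15) (.ev (nat_lit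
 2032) (nat_lit 633318697598976) (.ev (nat_lit 3536) (nat_lit 1088) .dd))) (.ch (nat_lit 16) (.ev (nat_lit
 2032) (nat_lit 1088) (.ev (nat_lit 2548) (nat_lit 70368744177664) (.ev (nat_lit 2557) (nat_lit
 562949953421312) .dd)))))))))) (.br (nat_lit 3) (.ch (nat_lit 2) (.ev (nat_lit 576) (nat_lit 562949953422336)
 (.ev (nat_lit 1924) (nat_lit 2147483648) (.nd (nat_lit 4096) (.br (nat_lit 11) (.ch (nat_lit 3) (.ev (nat_lit
 4112) (nat_lit 70368744177664) (.ev (nat_lit 4125) (nat_lit 64) .dd))) (.ch (nat_lit 11) (.fin (nat_lit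
 576375540164280805)))))))) (.ch (nat_lit 3) (.ev (nat_lit 576) (nat_lit 70368744178752) (.fin (nat_lit
 576907703928439603)))))) (.br (nat_lit 9) (.br (nat_lit 7) (.ch (nat_lit 4) (.ev (nat_lit 576) (nat_lit
 633320845082688) (.ev (nat_lit 589) (nat_lit 1024) .dd))) (.ch (nat_lit 7) (.ev (nat_lit 576) (nat_lit
 70370891662400) (.ev (nat_lit 589) (nat_lit 562949953421312) .dd)))) (.br (nat_lit 12) (.ch (nat_lit 9) (.ev
 (nat_lit 576) (nat_lit 2147483648) (.ev (nat_lit 1840) (nat_lit 64) (.nd (nat_lit 3232) (.br (nat_lit 11) (.ch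
 (nat_lit 1) (.ev (nat_lit 3248) (nat_lit 562949953421312) (.ev (nat_lit 3524) (nat_lit 1024) (.ev (nat_lit
 3533) (nat_lit 70368744177664) .dd)))) (.ch (nat_lit 11) (.ev (nat_lit 3248) (nat_lit 70368744177664) (.ev
 (nat_lit 3268) (nat_lit 1024) (.ev (nat_lit 3277) (nat_lit 562949953421312) .dd))))))))) (.ch (nat_lit 12)
 (.ev (nat_lit 576) (nat_lit 633318697599040) (.nd (nat_lit 3232) (.ch (nat_lit 11) (.nd (nat_lit 5536) (.br
 (nat_lit 10) (.ch (nat_lit 2) (.ev (nat_lit 5552) (nat_lit 1024) (.ev (nat_lit 5565) (nat_lit 2147483648)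
 .dd))) (.ch (nat_lit 10) (.fin (nat_lit 576459103095177678)))))))))))))))) (.br (nat_lit 7) (.ch (nat_lit 6)
 (.ev (nat_lit 80) (nat_lit 703689589261888) (.nd (nat_lit 512) (.br (nat_lit 9) (.br (nat_lit 5) (.br (nat_lit
 4) (.ch (nat_lit 0) (.ev (nat_lit 528) (nat_lit 70368744179712) (.ev (nat_lit 1028) (nat_lit 16) (.ev (nat_lit
 3460) (nat_lit 32) (.ev (nat_lit 3469) (nat_lit 16777216) .dd))))) (.ch (nat_lit 4) (.ev (nat_lit 528)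
 (nat_lit 16777216) (.ev (nat_lit 708) (nat_lit 70368744177664) (.ev (nat_lit 2788) (nat_lit 16) (.ev (nat_lit
 3684) (nat_lit 32) (.ev (nat_lit 3693) (nat_lit 2048) .dd))))))) (.br (nat_lit 8) (.ch (nat_lit 5) (.ev
 (nat_lit 528) (nat_lit 16) (.ev (nat_lit 708) (nat_lit 32) (.ev (nat_lit 3684) (nat_lit 2048) (.fin (nat_lit
 576762568246771935)))))) (.ch (nat_lit 8) (.ev (nat_lit 528) (nat_lit 2096) (.ev (nat_lit 3380) (nat_lit
 70368744177664) (.ev (nat_lit 3389) (nat_lit 16777216) .dd)))))) (.br (nat_lit 14) (.br (nat_lit 10) (.ch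
 (nat_lit 9) (.ev (nat_lit 528) (nat_lit 16) (.nd (nat_lit 2496) (.br (nat_lit 6) (.br (nat_lit 4) (.ch
 (nat_lit 3) (.ev (nat_lit 2512) (nat_lit 16779264) (.ev (nat_lit 3792) (nat_lit 70368744177696) .dd))) (.br
 (nat_lit 5) (.ch (nat_lit 4) (.ev (nat_lit 2512) (nat_lit 16777216) (.ev (nat_lit 3344) (nat_lit
 70368744177664) (.ev (nat_lit 3664) (nat_lit 2080) .dd)))) (.ch (nat_lit 5) (.ev (nat_lit 2512) (nat_lit
 70368744179712) (.fin (nat_lit 576597641769992710)))))) (.br (nat_lit 7) (.ch (nat_lit 6) (.ev (nat_lit 2512)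
 (nat_lit 70368744177696) (.ev (nat_lit 3536) (nat_lit 16779264) .dd))) (.br (nat_lit 14) (.ch (nat_lit 7) (.ev
 (nat_lit 2512) (nat_lit 70368760954912) (.ev (nat_lit 2525) (nat_lit 2048) .dd))) (.ch (nat_lit 14) (.ev
 (nat_lit 2512) (nat_lit 16777248) (.fin (nat_lit 576544865008435874)))))))))) (.ch (nat_lit 10) (.ev (nat_lit
 528) (nat_lit 16779312) (.ev (nat_lit 541) (nat_lit 70368744177664) .dd)))) (.br (nat_lit 16) (.ch (nat_lit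
 14) (.ev (nat_lit 528) (nat_lit 70368744179744) (.ev (nat_lit 1732) (nat_lit 16777216) (.ev (nat_lit 1741)
 (nat_lit 16) .dd)))) (.ch (nat_lit 16) (.ev (nat_lit 528) (nat_lit 70368760956944) (.ev (nat_lit 541) (nat_lit
 32) .dd))))))))) (.ch (nat_lit 7) (.ev (nat_lit 80) (nat_lit 633318714379312) (.nd (nat_lit 880) (.br (nat_lit
 8) (.br (nat_lit 3) (.br (nat_lit 1) (.ch (nat_lit 0) (.ev (nat_lit 896) (nat_lit 140737488355840) (.ev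
 (nat_lit 1060) (nat_lit 64) (.ev (nat_lit 1069) (nat_lit 2147483648) .dd)))) (.ch (nat_lit 1) (.ev (nat_lit
 896) (nat_lit 2147483712) (.ev (nat_lit 1972) (nat_lit 140737488355328) (.ev (nat_lit 1981) (nat_lit 512)
 .dd))))) (.br (nat_lit 4) (.ch (nat_lit 3) (.ev (nat_lit 896) (nat_lit 512) (.ev (nat_lit 1060) (nat_lit 64)
 (.ev (nat_lit 1172) (nat_lit 140737488355328) (.ev (nat_lit 1181) (nat_lit 2147483648) .dd))))) (.ch (nat_lit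
 4) (.ev (nat_lit 896) (nat_lit 2147484224) (.ev (nat_lit 909) (nat_lit 140737488355328) .dd))))) (.br (nat_lit
 12) (.br (nat_lit 9) (.ch (nat_lit 8) (.ev (nat_lit 896) (nat_lit 140739635838976) (.ev (nat_lit 1184)
 (nat_lit 64) (.ev (nat_lit 1197) (nat_lit 512) .dd)))) (.ch (nat_lit 9) (.ev (nat_lit 896) (nat_lit
 2147483648) (.ev (nat_lit 1172) (nat_lit 140737488355328) (.ev (nat_lit 3828) (nat_lit 64) (.ev (nat_lit 3837)
 (nat_lit 512) .dd)))))) (.br (nat_lit 14) (.ch (nat_lit 12) (.ev (nat_lit 896) (nat_lit 140737488355840) (.ev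
 (nat_lit 1172) (nat_lit 2147483648) (.ev (nat_lit 1181) (nat_lit 64) .dd)))) (.br (nat_lit 15) (.ch (nat_lit
 14) (.ev (nat_lit 896) (nat_lit 2147484224) (.ev (nat_lit 909) (nat_lit 140737488355328) .dd))) (.ch (nat_lit
 15) (.ev (nat_lit 896) (nat_lit 140737488355392) (.ev (nat_lit 1172) (nat_lit 2147483648) (.ev (nat_lit 1181)
 (nat_lit 512) .dd))))))))))))) (.br (nat_lit 11) (.br (nat_lit 10) (.ch (nat_lit 8) (.ev (nat_lit 80) (nat_lit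
 562949970200128) (.nd (nat_lit 512) (.br (nat_lit 9) (.br (nat_lit 6) (.br (nat_lit 3) (.ch (nat_lit 2) (.ev
 (nat_lit 528) (nat_lit 2147483696) (.ev (nat_lit 1172) (nat_lit 140737488355328) (.ev (nat_lit 1204) (nat_lit
 70368744177664) (.ev (nat_lit 1213) (nat_lit 2048) .dd))))) (.ch (nat_lit 3) (.ev (nat_lit 528) (nat_lit
 70370891661344) (.ev (nat_lit 932) (nat_lit 16) (.ev (nat_lit 1732) (nat_lit 140737488355328) (.ev (nat_lit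
 1741) (nat_lit 2048) .dd)))))) (.br (nat_lit 7) (.ch (nat_lit 6) (.ev (nat_lit 528) (nat_lit 140737488355344)
 (.nd (nat_lit 2496) (.br (nat_lit 8) (.ch (nat_lit 3) (.ev (nat_lit 2628) (nat_lit 32) (.ev (nat_lit 3892)
 (nat_lit 2048) (.fin (nat_lit 576505282519581289))))) (.br (nat_lit 14) (.ch (nat_lit 8) (.ev (nat_lit 2512)
 (nat_lit 2147483648) (.ev (nat_lit 2592) (nat_lit 70368744177664) (.fin (nat_lit 576470098154832462))))) (.ch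
 (nat_lit 14) (.ev (nat_lit 2512) (nat_lit 70368744179712) (.ev (nat_lit 2628) (nat_lit 32) (.ev (nat_lit 2637)
 (nat_lit 2147483648) .dd))))))))) (.ch (nat_lit 7) (.ev (nat_lit 528) (nat_lit 211108380018720) (.ev (nat_lit
 541) (nat_lit 16) .dd))))) (.br (nat_lit 12) (.br (nat_lit 11) (.ch (nat_lit 9) (.ev (nat_lit 528) (nat_lit
 211108380016656) (.ev (nat_lit 1444) (nat_lit 2048) (.ev (nat_lit 1453) (nat_lit 32) .dd)))) (.ch (nat_lit 11)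
 (.ev (nat_lit 528) (nat_lit 211106232535088) (.ev (nat_lit 541) (nat_lit 2147483648) .dd)))) (.br (nat_lit 14)
 (.ch (nat_lit 12) (.ev (nat_lit 528) (nat_lit 70368744177696) (.ev (nat_lit 1444) (nat_lit 140737488355328)
 (.ev (nat_lit 1492) (nat_lit 2048) (.nd (nat_lit 3232) (.br (nat_lit 9) (.br (nat_lit 2) (.ch (nat_lit 1) (.ev
 (nat_lit 3248) (nat_lit 2147483648) (.ev (nat_lit 3261) (nat_lit 16) .dd))) (.ch (nat_lit 2) (.ev (nat_lit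
 3248) (nat_lit 2147483648) (.ev (nat_lit 3261) (nat_lit 16) .dd)))) (.br (nat_lit 12) (.ch (nat_lit 9) (.ev
 (nat_lit 3248) (nat_lit 2147483664) .dd)) (.br (nat_lit 15) (.ch (nat_lit 12) (.ev (nat_lit 3248) (nat_lit
 2147483648) (.ev (nat_lit 3261) (nat_lit 16) .dd))) (.ch (nat_lit 15) (.ev (nat_lit 3248) (nat_lit 16) (.ev
 (nat_lit 3261) (nat_lit 2147483648) .dd))))))))))) (.br (nat_lit 16) (.ch (nat_lit 14) (.ev (nat_lit 528)
 (nat_lit 70368744179712) (.ev (nat_lit 1172) (nat_lit 140737488355328) (.ev (nat_lit 1812) (nat_lit 16) (.ev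
 (nat_lit 3856) (nat_lit 2147483648) (.ev (nat_lit 3869) (nat_lit 32) .dd)))))) (.ch (nat_lit 16) (.ev (nat_lit
 528) (nat_lit 2080) (.ev (nat_lit 1172) (nat_lit 140737488355328) (.ev (nat_lit 2292) (nat_lit 2147483664)
 (.ev (nat_lit 2301) (nat_lit 70368744177664) .dd)))))))))))) (.ch (nat_lit 10) (.ev (nat_lit 80) (nat_lit
 140739635841552) (.ev (nat_lit 452) (nat_lit 562949953421312) (.nd (nat_lit 672) (.br (nat_lit 5) (.br
 (nat_lit 3) (.br (nat_lit 1) (.ch (nat_lit 0) (.ev (nat_lit 688) (nat_lit 70368760954976) (.ev (nat_lit 701)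
 (nat_lit 1024) .dd))) (.ch (nat_lit 1) (.ev (nat_lit 688) (nat_lit 16778304) (.ev (nat_lit 3584) (nat_lit 32)
 (.ev (nat_lit 3597) (nat_lit 70368744177664) .dd))))) (.br (nat_lit 4) (.ch (nat_lit 3) (.ev (nat_lit 688)
 (nat_lit 16778240) (.ev (nat_lit 1268) (nat_lit 32) (.ev (nat_lit 1444) (nat_lit 64) (.ev (nat_lit 1453)
 (nat_lit 70368744177664) .dd))))) (.ch (nat_lit 4) (.ev (nat_lit 688) (nat_lit 70368744178752) (.ev (nat_lit
 1092) (nat_lit 16777216) (.ev (nat_lit 1101) (nat_lit 32) .dd)))))) (.br (nat_lit 7) (.br (nat_lit 6) (.ch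
 (nat_lit 5) (.ev (nat_lit 688) (nat_lit 16778240) (.ev (nat_lit 3524) (nat_lit 64) (.ev (nat_lit 3760)
 (nat_lit 70368744177664) (.ev (nat_lit 3773) (nat_lit 32) .dd))))) (.ch (nat_lit 6) (.ev (nat_lit 688)
 (nat_lit 1120) (.ev (nat_lit 3332) (nat_lit 70368744177664) (.ev (nat_lit 3341) (nat_lit 16777216) .dd)))))
 (.br (nat_lit 12) (.ch (nat_lit 7) (.ev (nat_lit 688) (nat_lit 70368744177696) (.ev (nat_lit 1028) (nat_lit
 16777216) (.ev (nat_lit 1300) (nat_lit 1024) (.ev (nat_lit 1309) (nat_lit 64) .dd))))) (.br (nat_lit 16) (.ch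
 (nat_lit 12) (.ev (nat_lit 688) (nat_lit 16778272) (.ev (nat_lit 1412) (nat_lit 64) (.ev (nat_lit 1421)
 (nat_lit 70368744177664) .dd)))) (.ch (nat_lit 16) (.ev (nat_lit 688) (nat_lit 70368760955904) (.ev (nat_lit
 708) (nat_lit 32) (.ev (nat_lit 717) (nat_lit 64) .dd))))))))))))) (.br (nat_lit 12) (.ch (nat_lit 11) (.ev
 (nat_lit 80) (nat_lit 211108396793936) (.nd (nat_lit 512) (.br (nat_lit 10) (.br (nat_lit 8) (.br (nat_lit 3)
 (.ch (nat_lit 0) (.ev (nat_lit 528) (nat_lit 562949953421344) (.nd (nat_lit 2496) (.br (nat_lit 8) (.ch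
 (nat_lit 1) (.ev (nat_lit 2512) (nat_lit 2048) (.fin (nat_lit 576795553920664405)))) (.ch (nat_lit 8) (.ev
 (nat_lit 2512) (nat_lit 512) (.fin (nat_lit 576423918741963216)))))))) (.ch (nat_lit 3) (.ev (nat_lit 528)
 (nat_lit 2560) (.ev (nat_lit 3108) (nat_lit 562949953421312) (.ev (nat_lit 3460) (nat_lit 1024) (.ev (nat_lit
 3469) (nat_lit 32) .dd)))))) (.br (nat_lit 9) (.ch (nat_lit 8) (.ev (nat_lit 528) (nat_lit 2048) (.ev (nat_lit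
 1060) (nat_lit 512) (.ev (nat_lit 2720) (nat_lit 32) (.ev (nat_lit 3828) (nat_lit 562949953421312) (.ev
 (nat_lit 3837) (nat_lit 1024) .dd)))))) (.ch (nat_lit 9) (.ev (nat_lit 528) (nat_lit 562949953424928) .dd))))
 (.br (nat_lit 12) (.br (nat_lit 11) (.ch (nat_lit 10) (.ev (nat_lit 528) (nat_lit 562949953422848) (.ev
 (nat_lit 3524) (nat_lit 2048) (.ev (nat_lit 3533) (nat_lit 32) .dd)))) (.ch (nat_lit 11) (.ev (nat_lit 528)
 (nat_lit 562949953423904) (.ev (nat_lit 541) (nat_lit 1024) .dd)))) (.br (nat_lit 13) (.ch (nat_lit 12) (.ev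
 (nat_lit 528) (nat_lit 1568) (.ev (nat_lit 596) (nat_lit 2048) (.ev (nat_lit 605) (nat_lit 562949953421312)
 .dd)))) (.ch (nat_lit 13) (.ev (nat_lit 528) (nat_lit 2080) (.ev (nat_lit 1060) (nat_lit 562949953421824) (.ev
 (nat_lit 1069) (nat_lit 1024) .dd)))))))))) (.br (nat_lit 16) (.ch (nat_lit 12) (.ev (nat_lit 80) (nat_lit
 633318697600064) (.nd (nat_lit 512) (.br (nat_lit 7) (.br (nat_lit 5) (.br (nat_lit 1) (.ch (nat_lit 0) (.ev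
 (nat_lit 528) (nat_lit 140737505133056) (.ev (nat_lit 916) (nat_lit 2048) (.nd (nat_lit 2560) (.br (nat_lit 9)
 (.br (nat_lit 6) (.ch (nat_lit 1) (.ev (nat_lit 2576) (nat_lit 32) (.ev (nat_lit 4052) (nat_lit 2147483648)
 (.ev (nat_lit 4061) (nat_lit 16) .dd)))) (.ch (nat_lit 6) (.ev (nat_lit 4052) (nat_lit 2147483648) (.nd
 (nat_lit 5696) (.br (nat_lit 16) (.ch (nat_lit 10) (.ev (nat_lit 5712) (nat_lit 48) .dd)) (.ch (nat_lit 16)
 (.fin (nat_lit 576482192781689412)))))))) (.br (nat_lit 16) (.ch (nat_lit 9) (.ev (nat_lit 2576) (nat_lit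
 2147483648) (.ev (nat_lit 3732) (nat_lit 16) (.ev (nat_lit 3741) (nat_lit 32) .dd)))) (.ch (nat_lit 16) (.ev
 (nat_lit 2576) (nat_lit 2147483664) (.ev (nat_lit 2589) (nat_lit 32) .dd))))))))) (.ch (nat_lit 1) (.ev
 (nat_lit 528) (nat_lit 2147486256) (.ev (nat_lit 1028) (nat_lit 16777216) (.ev (nat_lit 1037) (nat_lit
 140737488355328) .dd))))) (.br (nat_lit 6) (.ch (nat_lit 5) (.ev (nat_lit 528) (nat_lit 2164261424) (.fin
 (nat_lit 576492088444011086)))) (.ch (nat_lit 6) (.ev (nat_lit 528) (nat_lit 2080) (.ev (nat_lit 772) (nat_lit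
 2147483648) (.ev (nat_lit 1204) (nat_lit 140737488355328) (.ev (nat_lit 1492) (nat_lit 16777216) (.ev (nat_lit
 3380) (nat_lit 16) (.ev (nat_lit 3389) (nat_lit 512) .dd))))))))) (.br (nat_lit 9) (.br (nat_lit 8) (.ch
 (nat_lit 7) (.ev (nat_lit 528) (nat_lit 2147484192) (.ev (nat_lit 916) (nat_lit 2048) (.ev (nat_lit 1028)
 (nat_lit 16777216) (.ev (nat_lit 1172) (nat_lit 140737488355328) (.ev (nat_lit 1181) (nat_lit 16) .dd))))))
 (.ch (nat_lit 8) (.ev (nat_lit 528) (nat_lit 140737505133072) (.ev (nat_lit 596) (nat_lit 32) (.ev (nat_lit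
 1204) (nat_lit 2048) (.ev (nat_lit 1213) (nat_lit 2147483648) .dd)))))) (.br (nat_lit 10) (.ch (nat_lit 9)
 (.ev (nat_lit 528) (nat_lit 140739635841584) (.ev (nat_lit 541) (nat_lit 16777216) .dd))) (.br (nat_lit 15)
 (.ch (nat_lit 10) (.ev (nat_lit 528) (nat_lit 140737488357424) (.ev (nat_lit 1632) (nat_lit 16777216) (.ev
 (nat_lit 1700) (nat_lit 512) (.ev (nat_lit 1709) (nat_lit 2147483648) .dd))))) (.ch (nat_lit 15) (.ev (nat_lit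
 528) (nat_lit 2164260880) (.ev (nat_lit 916) (nat_lit 2048) (.ev (nat_lit 1172) (nat_lit 140737488355328) (.nd
 (nat_lit 3120) (.br (nat_lit 8) (.br (nat_lit 7) (.ch (nat_lit 4) (.ev (nat_lit 3136) (nat_lit 512) (.ev
 (nat_lit 3149) (nat_lit 32) .dd))) (.ch (nat_lit 7) (.ev (nat_lit 3136) (nat_lit 544) .dd))) (.br (nat_lit 12)
 (.ch (nat_lit 8) (.ev (nat_lit 3136) (nat_lit 512) (.ev (nat_lit 3149) (nat_lit 32) .dd))) (.ch (nat_lit 12)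
 (.ev (nat_lit 3136) (nat_lit 32) (.ev (nat_lit 3149) (nat_lit 512) .dd))))))))))))))))) (.ch (nat_lit 16) (.ev
 (nat_lit 80) (nat_lit 703689606040608) (.nd (nat_lit 560) (.br (nat_lit 9) (.br (nat_lit 5) (.br (nat_lit 2)
 (.ch (nat_lit 1) (.ev (nat_lit 916) (nat_lit 64) (.nd (nat_lit 3232) (.br (nat_lit 10) (.br (nat_lit 3) (.ch
 (nat_lit 1) (.ev (nat_lit 3248) (nat_lit 16) (.ev (nat_lit 3732) (nat_lit 512) (.ev (nat_lit 3741) (nat_lit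
 70368744177664) .dd)))) (.ch (nat_lit 3) (.ev (nat_lit 3248) (nat_lit 512) (.ev (nat_lit 3744) (nat_lit
 70368744177680) .dd)))) (.br (nat_lit 15) (.ch (nat_lit 10) (.ev (nat_lit 3248) (nat_lit 512) (.ev (nat_lit
 3760) (nat_lit 70368744177680) .dd))) (.ch (nat_lit 15) (.ev (nat_lit 3248) (nat_lit 512) (.ev (nat_lit 3840)
 (nat_lit 70368744177680) .dd)))))))) (.ch (nat_lit 2) (.ev (nat_lit 576) (nat_lit 80) (.ev (nat_lit 1172)
 (nat_lit 512) (.ev (nat_lit 1181) (nat_lit 70368744177664) .dd))))) (.br (nat_lit 8) (.ch (nat_lit 5) (.ev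
 (nat_lit 576) (nat_lit 70368744178192) (.ev (nat_lit 589) (nat_lit 64) .dd))) (.ch (nat_lit 8) (.ev (nat_lit
 576) (nat_lit 576) (.ev (nat_lit 3940) (nat_lit 16) (.ev (nat_lit 3949) (nat_lit 70368744177664) .dd))))))
 (.br (nat_lit 12) (.br (nat_lit 11) (.ch (nat_lit 9) (.ev (nat_lit 576) (nat_lit 70368744177728) (.ev (nat_lit
 2356) (nat_lit 16) (.ev (nat_lit 2365) (nat_lit 512) .dd)))) (.ch (nat_lit 11) (.ev (nat_lit 576) (nat_lit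
 576) (.ev (nat_lit 660) (nat_lit 16) (.ev (nat_lit 669) (nat_lit 70368744177664) .dd))))) (.br (nat_lit 16)
 (.ch (nat_lit 12) (.ev (nat_lit 576) (nat_lit 16) (.ev (nat_lit 1172) (nat_lit 512) (.ev (nat_lit 3684)
 (nat_lit 64) (.ev (nat_lit 3693) (nat_lit 70368744177664) .dd))))) (.ch (nat_lit 16) (.ev (nat_lit 576)
 (nat_lit 70368744178240) (.ev (nat_lit 589) (nat_lit 16) .dd)))))))))))))))) (.br (nat_lit 14) (.ch (nat_lit
 13) (.ev (nat_lit 48) (nat_lit 633318714575360) (.nd (nat_lit 256) (.br (nat_lit 7) (.br (nat_lit 4) (.br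
 (nat_lit 3) (.ch (nat_lit 1) (.ev (nat_lit 272) (nat_lit 1284231728727136) (.nd (nat_lit 976) (.br (nat_lit
 11) (.br (nat_lit 7) (.ch (nat_lit 6) (.ev (nat_lit 992) (nat_lit 8589934592) (.ev (nat_lit 1005) (nat_lit 16)
 .dd))) (.br (nat_lit 8) (.ch (nat_lit 7) (.ev (nat_lit 992) (nat_lit 16) (.ev (nat_lit 1005) (nat_lit
 8589934592) .dd))) (.ch (nat_lit 8) (.ev (nat_lit 992) (nat_lit 8589934592) (.ev (nat_lit 1005) (nat_lit 16)
 .dd))))) (.br (nat_lit 13) (.ch (nat_lit 11) (.ev (nat_lit 992) (nat_lit 8589934592) (.ev (nat_lit 1005)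
 (nat_lit 16) .dd))) (.br (nat_lit 14) (.ch (nat_lit 13) (.ev (nat_lit 992) (nat_lit 8589934608) .dd)) (.ch
 (nat_lit 14) (.ev (nat_lit 992) (nat_lit 16) (.ev (nat_lit 1005) (nat_lit 8589934592) .dd))))))))) (.ch
 (nat_lit 3) (.ev (nat_lit 272) (nat_lit 17600775980064) (.nd (nat_lit 976) (.br (nat_lit 7) (.br (nat_lit 3)
 (.br (nat_lit 2) (.ch (nat_lit 1) (.ev (nat_lit 992) (nat_lit 1125902054326352) (.ev (nat_lit 1005) (nat_lit
 140737488355328) .dd))) (.ch (nat_lit 2) (.ev (nat_lit 992) (nat_lit 1125899906842624) (.ev (nat_lit 1588)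
 (nat_lit 2147483648) (.ev (nat_lit 3524) (nat_lit 16) (.ev (nat_lit 3732) (nat_lit 64) (.ev (nat_lit 3741)
 (nat_lit 140737488355328) .dd))))))) (.br (nat_lit 6) (.ch (nat_lit 3) (.ev (nat_lit 992) (nat_lit
 1266639542681680) .dd)) (.ch (nat_lit 6) (.ev (nat_lit 992) (nat_lit 80) (.ev (nat_lit 1700) (nat_lit
 140737488355328) (.ev (nat_lit 1732) (nat_lit 1125899906842624) (.ev (nat_lit 1741) (nat_lit 2147483648)
 .dd))))))) (.br (nat_lit 11) (.br (nat_lit 10) (.ch (nat_lit 7) (.ev (nat_lit 992) (nat_lit 1266639542681680)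
 .dd)) (.ch (nat_lit 10) (.ev (nat_lit 992) (nat_lit 16) (.ev (nat_lit 1172) (nat_lit 2147483648) (.ev (nat_lit
 1412) (nat_lit 1125899906842624) (.ev (nat_lit 1732) (nat_lit 64) (.ev (nat_lit 1741) (nat_lit
 140737488355328) .dd))))))) (.br (nat_lit 12) (.ch (nat_lit 11) (.ev (nat_lit 992) (nat_lit 1266639542681616)
 (.ev (nat_lit 1005) (nat_lit 64) .dd))) (.br (nat_lit 16) (.ch (nat_lit 12) (.ev (nat_lit 992) (nat_lit
 140737488355344) (.ev (nat_lit 1172) (nat_lit 2147483648) (.ev (nat_lit 1700) (nat_lit 1125899906842624) (.ev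
 (nat_lit 1709) (nat_lit 64) .dd))))) (.ch (nat_lit 16) (.ev (nat_lit 992) (nat_lit 1125899906842624) (.ev
 (nat_lit 1172) (nat_lit 2147483664) (.fin (nat_lit 576377739114136215))))))))))))) (.br (nat_lit 6) (.ch
 (nat_lit 4) (.ev (nat_lit 272) (nat_lit 1266645985132592) (.nd (nat_lit 800) (.br (nat_lit 6) (.br (nat_lit 4)
 (.br (nat_lit 3) (.ch (nat_lit 2) (.ev (nat_lit 816) (nat_lit 17592186044416) (.ev (nat_lit 3392) (nat_lit
 1024) (.ev (nat_lit 3620) (nat_lit 2147483648) (.ev (nat_lit 3629) (nat_lit 64) .dd))))) (.ch (nat_lit 3) (.ev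
 (nat_lit 816) (nat_lit 64) (.ev (nat_lit 1540) (nat_lit 1024) (.nd (nat_lit 3120) (.br (nat_lit 10) (.br
 (nat_lit 4) (.ch (nat_lit 1) (.ev (nat_lit 3136) (nat_lit 2147483648) (.ev (nat_lit 3149) (nat_lit
 17592186044416) .dd))) (.ch (nat_lit 4) (.ev (nat_lit 3136) (nat_lit 2147483648) (.ev (nat_lit 3149) (nat_lit
 17592186044416) .dd)))) (.br (nat_lit 11) (.ch (nat_lit 10) (.fin (nat_lit 576448107928568380))) (.br (nat_lit
 12) (.ch (nat_lit 11) (.ev (nat_lit 3136) (nat_lit 17592186044416) (.ev (nat_lit 3149) (nat_lit 2147483648)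
 .dd))) (.ch (nat_lit 12) (.ev (nat_lit 3136) (nat_lit 17594333528064) .dd)))))))))) (.br (nat_lit 5) (.ch
 (nat_lit 4) (.ev (nat_lit 816) (nat_lit 17594333529088) (.ev (nat_lit 829) (nat_lit 64) .dd))) (.ch (nat_lit
 5) (.ev (nat_lit 816) (nat_lit 17592186044480) (.ev (nat_lit 836) (nat_lit 1024) (.ev (nat_lit 845) (nat_lit
 2147483648) .dd)))))) (.br (nat_lit 9) (.br (nat_lit 8) (.ch (nat_lit 6) (.ev (nat_lit 816) (nat_lit
 17594333528064) (.ev (nat_lit 2788) (nat_lit 1024) (.ev (nat_lit 2797) (nat_lit 64) .dd)))) (.ch (nat_lit 8)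
 (.ev (nat_lit 816) (nat_lit 1088) (.ev (nat_lit 1172) (nat_lit 17592186044416) (.ev (nat_lit 1181) (nat_lit
 2147483648) .dd))))) (.br (nat_lit 10) (.ch (nat_lit 9) (.ev (nat_lit 816) (nat_lit 2147484672) (.nd (nat_lit
 4224) (.ch (nat_lit 9) (.nd (nat_lit 5440) (.br (nat_lit 11) (.ch (nat_lit 1) (.fin (nat_lit
 576498685532652018))) (.ch (nat_lit 11) (.ev (nat_lit 5456) (nat_lit 64) (.ev (nat_lit 5469) (nat_lit
 17592186044416) .dd))))))))) (.br (nat_lit 14) (.ch (nat_lit 10) (.ev (nat_lit 816) (nat_lit 17594333528064)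
 (.ev (nat_lit 836) (nat_lit 1024) (.ev (nat_lit 845) (nat_lit 64) .dd)))) (.ch (nat_lit 14) (.ev (nat_lit 816)
 (nat_lit 17592186045504) (.ev (nat_lit 829) (nat_lit 2147483648) .dd)))))))))) (.ch (nat_lit 6) (.ev (nat_lit
 272) (nat_lit 140737488355408) (.nd (nat_lit 880) (.br (nat_lit 6) (.br (nat_lit 3) (.br (nat_lit 2) (.ch
 (nat_lit 0) (.ev (nat_lit 896) (nat_lit 1143494240371744) (.ev (nat_lit 909) (nat_lit 8589934592) .dd))) (.ch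
 (nat_lit 2) (.ev (nat_lit 896) (nat_lit 17600775979040) (.ev (nat_lit 1028) (nat_lit 1024) (.ev (nat_lit 1540)
 (nat_lit 1125899906842624) (.ev (nat_lit 1549) (nat_lit 2147483648) .dd)))))) (.br (nat_lit 5) (.ch (nat_lit
 3) (.ev (nat_lit 896) (nat_lit 1125908496777216) (.ev (nat_lit 1060) (nat_lit 1024) (.ev (nat_lit 3408)
 (nat_lit 17592186044416) (.nd (nat_lit 4672) (.br (nat_lit 10) (.ch (nat_lit 4) (.ev (nat_lit 4688) (nat_lit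
 2147483648) (.ev (nat_lit 4701) (nat_lit 32) .dd))) (.ch (nat_lit 10) (.fin (nat_lit
 576463501097648580))))))))) (.ch (nat_lit 5) (.ev (nat_lit 896) (nat_lit 2147483648) (.ev (nat_lit 1028)
 (nat_lit 1056) (.ev (nat_lit 1412) (nat_lit 17592186044416) (.nd (nat_lit 4704) (.br (nat_lit 8) (.ch (nat_lit
 6) (.ev (nat_lit 4720) (nat_lit 1125908496777216) .dd)) (.ch (nat_lit 8) (.fin (nat_lit
 576461302061810238))))))))))) (.br (nat_lit 12) (.br (nat_lit 9) (.ch (nat_lit 6) (.ev (nat_lit 896) (nat_lit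
 1143500682821632) (.ev (nat_lit 1492) (nat_lit 2147483648) (.ev (nat_lit 1876) (nat_lit 1024) (.ev (nat_lit
 1885) (nat_lit 32) .dd))))) (.ch (nat_lit 9) (.ev (nat_lit 896) (nat_lit 1125902054326304) (.ev (nat_lit 916)
 (nat_lit 8589934592) (.ev (nat_lit 1028) (nat_lit 1024) (.ev (nat_lit 1037) (nat_lit 17592186044416) .dd))))))
 (.br (nat_lit 13) (.ch (nat_lit 12) (.ev (nat_lit 896) (nat_lit 17594333529088) (.ev (nat_lit 916) (nat_lit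
 1125899906842624) (.ev (nat_lit 1492) (nat_lit 32) (.ev (nat_lit 1501) (nat_lit 8589934592) .dd))))) (.ch
 (nat_lit 13) (.ev (nat_lit 896) (nat_lit 17602923463712) (.ev (nat_lit 909) (nat_lit 1125899906842624)
 .dd))))))))))) (.br (nat_lit 13) (.br (nat_lit 10) (.ch (nat_lit 7) (.ev (nat_lit 272) (nat_lit
 1266645985133568) (.nd (nat_lit 800) (.br (nat_lit 4) (.br (nat_lit 2) (.br (nat_lit 1) (.ch (nat_lit 0) (.ev
 (nat_lit 816) (nat_lit 17594333528080) (.ev (nat_lit 1172) (nat_lit 64) (.ev (nat_lit 1181) (nat_lit 32)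
 .dd)))) (.ch (nat_lit 1) (.ev (nat_lit 816) (nat_lit 17592186044448) (.ev (nat_lit 1204) (nat_lit 16) (.ev
 (nat_lit 2388) (nat_lit 64) (.ev (nat_lit 2397) (nat_lit 2147483648) .dd)))))) (.br (nat_lit 3) (.ch (nat_lit
 2) (.ev (nat_lit 816) (nat_lit 17592186044480) (.ev (nat_lit 3204) (nat_lit 2147483648) (.fin (nat_lit
 576509680572383675))))) (.ch (nat_lit 3) (.ev (nat_lit 816) (nat_lit 48) (.ev (nat_lit 2788) (nat_lit
 17592186044416) (.ev (nat_lit 3648) (nat_lit 2147483648) (.ev (nat_lit 3661) (nat_lit 64) .dd))))))) (.br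
 (nat_lit 9) (.br (nat_lit 6) (.ch (nat_lit 4) (.ev (nat_lit 816) (nat_lit 17592186044496) (.ev (nat_lit 1812)
 (nat_lit 32) (.ev (nat_lit 1821) (nat_lit 2147483648) .dd)))) (.ch (nat_lit 6) (.ev (nat_lit 816) (nat_lit
 17594333528096) (.ev (nat_lit 852) (nat_lit 16) (.ev (nat_lit 861) (nat_lit 64) .dd))))) (.br (nat_lit 10)
 (.ch (nat_lit 9) (.ev (nat_lit 816) (nat_lit 2147483728) (.ev (nat_lit 2228) (nat_lit 32) (.ev (nat_lit 2237)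
 (nat_lit 17592186044416) .dd)))) (.br (nat_lit 12) (.ch (nat_lit 10) (.ev (nat_lit 816) (nat_lit
 17594333528080) (.ev (nat_lit 1172) (nat_lit 64) (.ev (nat_lit 1181) (nat_lit 32) .dd)))) (.ch (nat_lit 12)
 (.ev (nat_lit 816) (nat_lit 112) (.ev (nat_lit 3488) (nat_lit 2147483648) (.ev (nat_lit 3501) (nat_lit
 17592186044416) .dd))))))))))) (.ch (nat_lit 10) (.ev (nat_lit 272) (nat_lit 1143492092887136) (.nd (nat_lit
 736) (.br (nat_lit 11) (.br (nat_lit 8) (.br (nat_lit 5) (.ch (nat_lit 0) (.ev (nat_lit 752) (nat_lit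
 10737418256) (.ev (nat_lit 1236) (nat_lit 140737488355328) (.ev (nat_lit 1245) (nat_lit 1024) .dd)))) (.ch
 (nat_lit 5) (.ev (nat_lit 752) (nat_lit 140746078290944) (.ev (nat_lit 3940) (nat_lit 2147483648) (.ev
 (nat_lit 3949) (nat_lit 16) .dd))))) (.br (nat_lit 10) (.ch (nat_lit 8) (.ev (nat_lit 752) (nat_lit
 2147483664) (.ev (nat_lit 2228) (nat_lit 1024) (.ev (nat_lit 3732) (nat_lit 8589934592) (.ev (nat_lit 3741)
 (nat_lit 140737488355328) .dd))))) (.ch (nat_lit 10) (.ev (nat_lit 752) (nat_lit 140739635840000) (.ev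
 (nat_lit 1184) (nat_lit 8589934592) (.ev (nat_lit 1197) (nat_lit 16) .dd)))))) (.br (nat_lit 15) (.br (nat_lit
 13) (.ch (nat_lit 11) (.ev (nat_lit 752) (nat_lit 8589935616) (.ev (nat_lit 1316) (nat_lit 2147483648) (.fin
 (nat_lit 576540466873844274))))) (.ch (nat_lit 13) (.ev (nat_lit 752) (nat_lit 140739635840000) (.ev (nat_lit
 1204) (nat_lit 8589934592) (.ev (nat_lit 1213) (nat_lit 16) .dd))))) (.br (nat_lit 16) (.ch (nat_lit 15) (.ev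
 (nat_lit 752) (nat_lit 1040) (.ev (nat_lit 1060) (nat_lit 2147483648) (.ev (nat_lit 1588) (nat_lit 8589934592)
 (.ev (nat_lit 1597) (nat_lit 140737488355328) .dd))))) (.ch (nat_lit 16) (.ev (nat_lit 752) (nat_lit
 10737419264) (.ev (nat_lit 1268) (nat_lit 140737488355328) (.ev (nat_lit 1277) (nat_lit 16) .dd)))))))))))
 (.br (nat_lit 14) (.ch (nat_lit 13) (.ev (nat_lit 272) (nat_lit 140739635840112) (.ev (nat_lit 1028) (nat_lit
 1125899906842624) (.nd (nat_lit 1344) (.br (nat_lit 9) (.br (nat_lit 6) (.ch (nat_lit 3) (.ev (nat_lit 1360)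
 (nat_lit 8589934592) (.ev (nat_lit 1373) (nat_lit 17592186044416) .dd))) (.br (nat_lit 7) (.ch (nat_lit 6)
 (.ev (nat_lit 1360) (nat_lit 8589934592) (.ev (nat_lit 1373) (nat_lit 17592186044416) .dd))) (.ch (nat_lit 7)
 (.ev (nat_lit 1700) (nat_lit 17592186044416) (.ev (nat_lit 1709) (nat_lit 8589934592) .dd))))) (.br (nat_lit
 10) (.ch (nat_lit 9) (.ev (nat_lit 1360) (nat_lit 17592186044416) (.ev (nat_lit 1373) (nat_lit 8589934592)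
 .dd))) (.br (nat_lit 15) (.ch (nat_lit 10) (.ev (nat_lit 1588) (nat_lit 17592186044416) (.ev (nat_lit 1597)
 (nat_lit 8589934592) .dd))) (.ch (nat_lit 15) (.ev (nat_lit 1360) (nat_lit 8589934592) (.ev (nat_lit 1373)
 (nat_lit 17592186044416) .dd)))))))))) (.br (nat_lit 16) (.ch (nat_lit 14) (.ev (nat_lit 272) (nat_lit
 17602923463744) (.nd (nat_lit 800) (.br (nat_lit 9) (.br (nat_lit 3) (.br (nat_lit 2) (.ch (nat_lit 1) (.ev
 (nat_lit 816) (nat_lit 1266637395197952) (.ev (nat_lit 1008) (nat_lit 32) (.ev (nat_lit 1021) (nat_lit 16)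
 .dd)))) (.ch (nat_lit 2) (.ev (nat_lit 816) (nat_lit 1125899906842672) (.ev (nat_lit 829) (nat_lit
 140737488355328) .dd)))) (.br (nat_lit 7) (.ch (nat_lit 3) (.ev (nat_lit 816) (nat_lit 48) (.ev (nat_lit 1184)
 (nat_lit 1266637395197952) .dd))) (.ch (nat_lit 7) (.ev (nat_lit 816) (nat_lit 1125899906842672) (.ev (nat_lit
 829) (nat_lit 140737488355328) .dd))))) (.br (nat_lit 13) (.br (nat_lit 12) (.ch (nat_lit 9) (.ev (nat_lit
 816) (nat_lit 48) (.ev (nat_lit 1184) (nat_lit 1266637395197952) .dd))) (.ch (nat_lit 12) (.ev (nat_lit 816)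
 (nat_lit 1125899906842624) (.ev (nat_lit 1172) (nat_lit 32) (.ev (nat_lit 3952) (nat_lit 140737488355344)
 .dd))))) (.br (nat_lit 14) (.ch (nat_lit 13) (.ev (nat_lit 816) (nat_lit 140737488355328) (.ev (nat_lit 1172)
 (nat_lit 32) (.ev (nat_lit 1540) (nat_lit 16) (.ev (nat_lit 1549) (nat_lit 1125899906842624) .dd))))) (.br
 (nat_lit 16) (.ch (nat_lit 14) (.ev (nat_lit 816) (nat_lit 1266637395197984) (.ev (nat_lit 829) (nat_lit 16)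
 .dd))) (.ch (nat_lit 16) (.ev (nat_lit 816) (nat_lit 140737488355360) (.ev (nat_lit 3696) (nat_lit 16) (.ev
 (nat_lit 3709) (nat_lit 1125899906842624) .dd))))))))))) (.ch (nat_lit 16) (.ev (nat_lit 272) (nat_lit
 1266648132617328) (.ev (nat_lit 285) (nat_lit 17592186044416) .dd)))))))))) (.ch (nat_lit 14) (.ev (nat_lit
 48) (nat_lit 1759229341925888) (.nd (nat_lit 192) (.br (nat_lit 8) (.br (nat_lit 6) (.br (nat_lit 5) (.ch
 (nat_lit 4) (.ev (nat_lit 208) (nat_lit 132176) (.nd (nat_lit 608) (.br (nat_lit 12) (.br (nat_lit 7) (.br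
 (nat_lit 1) (.ch (nat_lit 0) (.ev (nat_lit 624) (nat_lit 32) (.nd (nat_lit 2016) (.br (nat_lit 7) (.br
 (nat_lit 4) (.ch (nat_lit 3) (.ev (nat_lit 2032) (nat_lit 158329674399744) (.ev (nat_lit 3904) (nat_lit
 16779264) .dd))) (.ch (nat_lit 4) (.ev (nat_lit 2032) (nat_lit 2048) (.ev (nat_lit 3280) (nat_lit
 140737488355328) (.fin (nat_lit 576514078660838053)))))) (.br (nat_lit 8) (.ch (nat_lit 7) (.ev (nat_lit 2032)
 (nat_lit 158329674401792) (.ev (nat_lit 2045) (nat_lit 16777216) .dd))) (.br (nat_lit 12) (.ch (nat_lit 8)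
 (.ev (nat_lit 2032) (nat_lit 17592202821632) (.ev (nat_lit 3828) (nat_lit 140737488355328) (.ev (nat_lit 3837)
 (nat_lit 2048) .dd)))) (.ch (nat_lit 12) (.ev (nat_lit 2032) (nat_lit 158329674399744) (.ev (nat_lit 2336)
 (nat_lit 16779264) .dd))))))))) (.ch (nat_lit 1) (.ev (nat_lit 624) (nat_lit 140737505134624) (.ev (nat_lit
 637) (nat_lit 17592186044416) .dd)))) (.br (nat_lit 11) (.ch (nat_lit 7) (.ev (nat_lit 624) (nat_lit 16779296)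
 (.ev (nat_lit 836) (nat_lit 140737488355328) (.ev (nat_lit 845) (nat_lit 17592186044416) .dd)))) (.ch (nat_lit
 11) (.ev (nat_lit 624) (nat_lit 158329674399744) (.nd (nat_lit 2560) (.br (nat_lit 13) (.br (nat_lit 5) (.ch
 (nat_lit 2) (.ev (nat_lit 2576) (nat_lit 16779264) (.ev (nat_lit 2589) (nat_lit 32) .dd))) (.ch (nat_lit 5)
 (.ev (nat_lit 2576) (nat_lit 16777216) (.ev (nat_lit 3332) (nat_lit 2048) (.ev (nat_lit 3341) (nat_lit 32)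
 .dd))))) (.br (nat_lit 14) (.ch (nat_lit 13) (.ev (nat_lit 2576) (nat_lit 2048) (.ev (nat_lit 3620) (nat_lit
 16777216) (.ev (nat_lit 3629) (nat_lit 32) .dd)))) (.ch (nat_lit 14) (.ev (nat_lit 2576) (nat_lit 2048) (.ev
 (nat_lit 3152) (nat_lit 16777248) .dd)))))))))) (.br (nat_lit 15) (.br (nat_lit 13) (.ch (nat_lit 12) (.ev
 (nat_lit 624) (nat_lit 158329691176992) (.ev (nat_lit 637) (nat_lit 2048) .dd))) (.ch (nat_lit 13) (.ev
 (nat_lit 624) (nat_lit 140737488355360) (.nd (nat_lit 2496) (.br (nat_lit 5) (.ch (nat_lit 4) (.ev (nat_lit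
 2512) (nat_lit 17592186046464) (.ev (nat_lit 2525) (nat_lit 16777216) .dd))) (.br (nat_lit 6) (.ch (nat_lit 5)
 (.ev (nat_lit 2512) (nat_lit 2048) (.ev (nat_lit 2592) (nat_lit 17592202821632) .dd))) (.ch (nat_lit 6) (.ev
 (nat_lit 2512) (nat_lit 17592202821632) (.ev (nat_lit 2525) (nat_lit 2048) .dd))))))))) (.br (nat_lit 16) (.ch
 (nat_lit 15) (.ev (nat_lit 624) (nat_lit 16777216) (.ev (nat_lit 1092) (nat_lit 17592186044416) (.ev (nat_lit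
 2292) (nat_lit 2048) (.ev (nat_lit 2868) (nat_lit 32) (.ev (nat_lit 2877) (nat_lit 140737488355328) .dd))))))
 (.ch (nat_lit 16) (.ev (nat_lit 624) (nat_lit 158329691179008) (.ev (nat_lit 637) (nat_lit 32) .dd)))))))))
 (.ch (nat_lit 5) (.ev (nat_lit 208) (nat_lit 17592202822704) (.nd (nat_lit 880) (.br (nat_lit 10) (.br
 (nat_lit 6) (.br (nat_lit 2) (.ch (nat_lit 0) (.ev (nat_lit 896) (nat_lit 140737488488448) (.ev (nat_lit 909)
 (nat_lit 64) .dd))) (.ch (nat_lit 2) (.ev (nat_lit 896) (nat_lit 140737488488448) (.ev (nat_lit 909) (nat_lit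
 64) .dd)))) (.br (nat_lit 8) (.ch (nat_lit 6) (.ev (nat_lit 2004) (nat_lit 64) (.ev (nat_lit 3620) (nat_lit
 2048) (.ev (nat_lit 3968) (nat_lit 131072) (.ev (nat_lit 3981) (nat_lit 140737488355328) .dd))))) (.ch
 (nat_lit 8) (.ev (nat_lit 916) (nat_lit 131072) (.ev (nat_lit 2788) (nat_lit 140737488355328) (.ev (nat_lit
 3840) (nat_lit 64) (.ev (nat_lit 3853) (nat_lit 2048) .dd))))))) (.br (nat_lit 13) (.br (nat_lit 11) (.ch
 (nat_lit 10) (.ev (nat_lit 896) (nat_lit 140737488355392) (.ev (nat_lit 916) (nat_lit 131072) (.ev (nat_lit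
 925) (nat_lit 2048) .dd)))) (.ch (nat_lit 11) (.ev (nat_lit 896) (nat_lit 140737488486464) (.ev (nat_lit 909)
 (nat_lit 2048) .dd)))) (.br (nat_lit 14) (.ch (nat_lit 13) (.ev (nat_lit 896) (nat_lit 64) (.ev (nat_lit 1204)
 (nat_lit 133120) (.ev (nat_lit 1213) (nat_lit 140737488355328) .dd)))) (.ch (nat_lit 14) (.ev (nat_lit 896)
 (nat_lit 140737488357376) (.ev (nat_lit 1184) (nat_lit 131136) .dd)))))))))) (.br (nat_lit 7) (.ch (nat_lit 6)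
 (.ev (nat_lit 208) (nat_lit 16780320) (.nd (nat_lit 880) (.br (nat_lit 9) (.br (nat_lit 7) (.br (nat_lit 4)
 (.ch (nat_lit 2) (.ev (nat_lit 896) (nat_lit 158329674399808) (.ev (nat_lit 1588) (nat_lit 16) (.ev (nat_lit
 1597) (nat_lit 131072) .dd)))) (.ch (nat_lit 4) (.ev (nat_lit 896) (nat_lit 140737488355344) (.ev (nat_lit
 1028) (nat_lit 131072) (.ev (nat_lit 1204) (nat_lit 17592186044416) (.ev (nat_lit 1213) (nat_lit 64) .dd))))))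
 (.br (nat_lit 8) (.ch (nat_lit 7) (.ev (nat_lit 896) (nat_lit 64) (.ev (nat_lit 1204) (nat_lit 17592186044416)
 (.ev (nat_lit 3620) (nat_lit 140737488355328) (.ev (nat_lit 3828) (nat_lit 131072) (.ev (nat_lit 3837)
 (nat_lit 16) .dd)))))) (.ch (nat_lit 8) (.ev (nat_lit 896) (nat_lit 131072) (.nd (nat_lit 3120) (.br (nat_lit
 5) (.ch (nat_lit 1) (.ev (nat_lit 3136) (nat_lit 158329674399744) (.ev (nat_lit 3732) (nat_lit 64) (.ev
 (nat_lit 3741) (nat_lit 16) .dd)))) (.ch (nat_lit 5) (.ev (nat_lit 3136) (nat_lit 16) (.ev (nat_lit 3696)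
 (nat_lit 140737488355328) (.ev (nat_lit 3732) (nat_lit 64) (.ev (nat_lit 3741) (nat_lit 17592186044416)
 .dd))))))))))) (.br (nat_lit 13) (.br (nat_lit 11) (.ch (nat_lit 9) (.ev (nat_lit 896) (nat_lit 131136) (.ev
 (nat_lit 1300) (nat_lit 17592186044416) (.ev (nat_lit 2916) (nat_lit 140737488355328) (.ev (nat_lit 2925)
 (nat_lit 16) .dd))))) (.ch (nat_lit 11) (.ev (nat_lit 896) (nat_lit 17592186175552) (.ev (nat_lit 1060)
 (nat_lit 140737488355328) (.ev (nat_lit 1069) (nat_lit 16) .dd))))) (.br (nat_lit 14) (.ch (nat_lit 13) (.ev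
 (nat_lit 896) (nat_lit 17592186175568) (.ev (nat_lit 909) (nat_lit 140737488355328) .dd))) (.br (nat_lit 15)
 (.ch (nat_lit 14) (.ev (nat_lit 896) (nat_lit 158329674399760) (.ev (nat_lit 1764) (nat_lit 131072) (.ev
 (nat_lit 1773) (nat_lit 64) .dd)))) (.ch (nat_lit 15) (.ev (nat_lit 896) (nat_lit 140737488355408) (.fin
 (nat_lit 576498685592420855))))))))))) (.ch (nat_lit 7) (.ev (nat_lit 208) (nat_lit 158329674530832) (.nd
 (nat_lit 608) (.br (nat_lit 7) (.br (nat_lit 4) (.br (nat_lit 1) (.ch (nat_lit 0) (.ev (nat_lit 624) (nat_lit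
 1056) (.ev (nat_lit 1444) (nat_lit 16777216) (.ev (nat_lit 3632) (nat_lit 64) (.ev (nat_lit 3645) (nat_lit
 2048) .dd))))) (.ch (nat_lit 1) (.ev (nat_lit 624) (nat_lit 16778336) (.ev (nat_lit 637) (nat_lit 2048)
 .dd)))) (.br (nat_lit 6) (.ch (nat_lit 4) (.ev (nat_lit 624) (nat_lit 16778304) (.ev (nat_lit 3828) (nat_lit
 32) (.ev (nat_lit 3837) (nat_lit 2048) .dd)))) (.ch (nat_lit 6) (.ev (nat_lit 624) (nat_lit 3072) (.ev
 (nat_lit 1876) (nat_lit 64) (.ev (nat_lit 3828) (nat_lit 16777216) (.ev (nat_lit 3837) (nat_lit 32) .dd)))))))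
 (.br (nat_lit 9) (.br (nat_lit 8) (.ch (nat_lit 7) (.ev (nat_lit 624) (nat_lit 1056) (.ev (nat_lit 1764)
 (nat_lit 64) (.ev (nat_lit 3620) (nat_lit 16777216) (.ev (nat_lit 3629) (nat_lit 2048) .dd))))) (.ch (nat_lit
 8) (.ev (nat_lit 624) (nat_lit 16780288) (.nd (nat_lit 2496) (.br (nat_lit 14) (.br (nat_lit 8) (.ch (nat_lit
 4) (.ev (nat_lit 2512) (nat_lit 32) (.ev (nat_lit 2525) (nat_lit 64) .dd))) (.ch (nat_lit 8) (.ev (nat_lit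
 2512) (nat_lit 32) (.ev (nat_lit 2525) (nat_lit 64) .dd)))) (.br (nat_lit 16) (.ch (nat_lit 14) (.ev (nat_lit
 3380) (nat_lit 32) (.ev (nat_lit 3389) (nat_lit 64) .dd))) (.ch (nat_lit 16) (.ev (nat_lit 2512) (nat_lit 64)
 (.ev (nat_lit 2525) (nat_lit 32) .dd))))))))) (.br (nat_lit 10) (.ch (nat_lit 9) (.ev (nat_lit 624) (nat_lit
 16780288) (.ev (nat_lit 1588) (nat_lit 32) (.ev (nat_lit 1597) (nat_lit 64) .dd)))) (.br (nat_lit 15) (.ch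
 (nat_lit 10) (.ev (nat_lit 624) (nat_lit 64) (.nd (nat_lit 2016) (.br (nat_lit 2) (.ch (nat_lit 1) (.ev
 (nat_lit 2032) (nat_lit 16780320) .dd)) (.br (nat_lit 3) (.ch (nat_lit 2) (.ev (nat_lit 2032) (nat_lit 3072)
 (.ev (nat_lit 3296) (nat_lit 16777248) .dd))) (.ch (nat_lit 3) (.ev (nat_lit 2032) (nat_lit 16777248) (.ev
 (nat_lit 2788) (nat_lit 1024) (.ev (nat_lit 2797) (nat_lit 2048) .dd))))))))) (.ch (nat_lit 15) (.ev (nat_lit
 624) (nat_lit 2144) (.ev (nat_lit 1492) (nat_lit 16777216) (.ev (nat_lit 1501) (nat_lit 1024) .dd)))))))))))))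
 (.br (nat_lit 13) (.br (nat_lit 10) (.ch (nat_lit 8) (.ev (nat_lit 208) (nat_lit 134176) (.nd (nat_lit 672)
 (.br (nat_lit 8) (.br (nat_lit 2) (.br (nat_lit 1) (.ch (nat_lit 0) (.ev (nat_lit 688) (nat_lit 64) (.ev
 (nat_lit 708) (nat_lit 16777216) (.ev (nat_lit 1236) (nat_lit 140737488355328) (.ev (nat_lit 1424) (nat_lit
 17592186044416) (.ev (nat_lit 1437) (nat_lit 16) .dd)))))) (.ch (nat_lit 1) (.ev (nat_lit 688) (nat_lit
 140737505132560) (.ev (nat_lit 2788) (nat_lit 64) (.ev (nat_lit 2797) (nat_lit 17592186044416) .dd))))) (.br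
 (nat_lit 6) (.ch (nat_lit 2) (.ev (nat_lit 688) (nat_lit 140737505132624) (.ev (nat_lit 701) (nat_lit
 17592186044416) .dd))) (.ch (nat_lit 6) (.ev (nat_lit 688) (nat_lit 158329691177024) (.ev (nat_lit 701)
 (nat_lit 16) .dd))))) (.br (nat_lit 10) (.br (nat_lit 9) (.ch (nat_lit 8) (.ev (nat_lit 688) (nat_lit
 158329691177024) (.ev (nat_lit 701) (nat_lit 16) .dd))) (.ch (nat_lit 9) (.ev (nat_lit 688) (nat_lit
 17592186044480) (.ev (nat_lit 1028) (nat_lit 140737488355328) (.ev (nat_lit 3332) (nat_lit 16) (.ev (nat_lit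
 3341) (nat_lit 16777216) .dd)))))) (.br (nat_lit 13) (.ch (nat_lit 10) (.ev (nat_lit 688) (nat_lit
 158329674399824) (.ev (nat_lit 701) (nat_lit 16777216) .dd))) (.br (nat_lit 14) (.ch (nat_lit 13) (.ev
 (nat_lit 688) (nat_lit 158329674399744) (.ev (nat_lit 1412) (nat_lit 64) (.fin (nat_lit
 576456904002716102))))) (.ch (nat_lit 14) (.ev (nat_lit 688) (nat_lit 16) (.ev (nat_lit 1412) (nat_lit 64)
 (.nd (nat_lit 4160) (.br (nat_lit 14) (.ch (nat_lit 3) (.ev (nat_lit 4176) (nat_lit 16777216) (.fin (nat_lit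
 576368942806155658)))) (.ch (nat_lit 14) (.ev (nat_lit 4596) (nat_lit 140737488355328) (.nd (nat_lit 5568)
 (.br (nat_lit 9) (.ch (nat_lit 6) (.fin (nat_lit 576720786270143223))) (.ch (nat_lit 9) (.ev (nat_lit 5584)
 (nat_lit 17592202821632) .dd)))))))))))))))))) (.ch (nat_lit 10) (.ev (nat_lit 208) (nat_lit 17592202822736)
 (.nd (nat_lit 800) (.br (nat_lit 10) (.br (nat_lit 7) (.br (nat_lit 5) (.ch (nat_lit 2) (.ev (nat_lit 816)
 (nat_lit 140737488488480) .dd)) (.ch (nat_lit 5) (.ev (nat_lit 816) (nat_lit 32) (.ev (nat_lit 916) (nat_lit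
 140737488355328) (.ev (nat_lit 3828) (nat_lit 131072) (.ev (nat_lit 3837) (nat_lit 2048) .dd)))))) (.br
 (nat_lit 9) (.ch (nat_lit 7) (.ev (nat_lit 816) (nat_lit 140737488488448) (.ev (nat_lit 829) (nat_lit 32)
 .dd))) (.ch (nat_lit 9) (.ev (nat_lit 816) (nat_lit 2080) (.ev (nat_lit 1700) (nat_lit 131072) (.ev (nat_lit
 1709) (nat_lit 140737488355328) .dd)))))) (.br (nat_lit 14) (.br (nat_lit 12) (.ch (nat_lit 10) (.ev (nat_lit
 816) (nat_lit 131072) (.ev (nat_lit 1472) (nat_lit 2048) (.ev (nat_lit 3332) (nat_lit 32) (.ev (nat_lit 3341)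
 (nat_lit 140737488355328) .dd))))) (.ch (nat_lit 12) (.ev (nat_lit 816) (nat_lit 140737488357376) (.ev
 (nat_lit 1236) (nat_lit 32) (.ev (nat_lit 1245) (nat_lit 131072) .dd))))) (.br (nat_lit 15) (.ch (nat_lit 14)
 (.ev (nat_lit 816) (nat_lit 32) (.ev (nat_lit 1332) (nat_lit 2048) (.fin (nat_lit 576478894212203170))))) (.ch
 (nat_lit 15) (.ev (nat_lit 816) (nat_lit 2080) (.ev (nat_lit 1204) (nat_lit 140737488355328) (.ev (nat_lit
 1213) (nat_lit 131072) .dd))))))))))) (.br (nat_lit 14) (.ch (nat_lit 13) (.ev (nat_lit 208) (nat_lit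
 140737505265744) (.nd (nat_lit 800) (.br (nat_lit 9) (.br (nat_lit 6) (.br (nat_lit 5) (.ch (nat_lit 2) (.ev
 (nat_lit 816) (nat_lit 32) (.ev (nat_lit 1988) (nat_lit 1024) (.ev (nat_lit 1997) (nat_lit 17592186044416)
 .dd)))) (.ch (nat_lit 5) (.ev (nat_lit 816) (nat_lit 17592186044416) (.ev (nat_lit 3684) (nat_lit 32) (.ev
 (nat_lit 3693) (nat_lit 1024) .dd))))) (.br (nat_lit 8) (.ch (nat_lit 6) (.ev (nat_lit 816) (nat_lit 1056)
 (.ev (nat_lit 829) (nat_lit 17592186044416) .dd))) (.ch (nat_lit 8) (.ev (nat_lit 816) (nat_lit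
 17592186045472) .dd)))) (.br (nat_lit 14) (.br (nat_lit 13) (.ch (nat_lit 9) (.ev (nat_lit 816) (nat_lit
 17592186044416) (.ev (nat_lit 1840) (nat_lit 32) (.ev (nat_lit 1853) (nat_lit 1024) .dd)))) (.ch (nat_lit 13)
 (.ev (nat_lit 816) (nat_lit 17592186044448) (.ev (nat_lit 829) (nat_lit 1024) .dd)))) (.br (nat_lit 15) (.ch
 (nat_lit 14) (.ev (nat_lit 816) (nat_lit 1024) (.nd (nat_lit 4240) (.br (nat_lit 15) (.ch (nat_lit 11) (.fin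
 (nat_lit 576429416213070413))) (.ch (nat_lit 15) (.ev (nat_lit 4256) (nat_lit 17592186044416) (.ev (nat_lit
 4269) (nat_lit 32) .dd))))))) (.ch (nat_lit 15) (.ev (nat_lit 816) (nat_lit 17592186044448) (.ev (nat_lit 829)
 (nat_lit 1024) .dd))))))))) (.br (nat_lit 16) (.ch (nat_lit 14) (.ev (nat_lit 208) (nat_lit 140737488487488)
 (.nd (nat_lit 736) (.br (nat_lit 9) (.br (nat_lit 6) (.br (nat_lit 3) (.ch (nat_lit 0) (.ev (nat_lit 752)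
 (nat_lit 16777216) (.ev (nat_lit 1204) (nat_lit 17592186044416) (.ev (nat_lit 3940) (nat_lit 32) (.fin
 (nat_lit 576459103043797569)))))) (.ch (nat_lit 3) (.ev (nat_lit 752) (nat_lit 17592186046464) (.ev (nat_lit
 2292) (nat_lit 16) (.ev (nat_lit 3892) (nat_lit 16777216) (.ev (nat_lit 3901) (nat_lit 32) .dd)))))) (.br
 (nat_lit 7) (.ch (nat_lit 6) (.ev (nat_lit 752) (nat_lit 16779312) (.ev (nat_lit 765) (nat_lit 17592186044416)
 .dd))) (.ch (nat_lit 7) (.ev (nat_lit 752) (nat_lit 2064) (.ev (nat_lit 916) (nat_lit 32) (.ev (nat_lit 1204)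
 (nat_lit 16777216) (.ev (nat_lit 1213) (nat_lit 17592186044416) .dd))))))) (.br (nat_lit 13) (.br (nat_lit 11)
 (.ch (nat_lit 9) (.ev (nat_lit 752) (nat_lit 17592186046496) (.ev (nat_lit 772) (nat_lit 16777216) (.ev
 (nat_lit 781) (nat_lit 16) .dd)))) (.ch (nat_lit 11) (.ev (nat_lit 752) (nat_lit 17592202823696) (.ev (nat_lit
 765) (nat_lit 32) .dd)))) (.br (nat_lit 14) (.ch (nat_lit 13) (.ev (nat_lit 752) (nat_lit 16) (.ev (nat_lit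
 1172) (nat_lit 17592186044416) (.ev (nat_lit 3732) (nat_lit 16777216) (.ev (nat_lit 3828) (nat_lit 2048) (.ev
 (nat_lit 3837) (nat_lit 32) .dd)))))) (.br (nat_lit 16) (.ch (nat_lit 14) (.ev (nat_lit 752) (nat_lit
 17592186044448) (.ev (nat_lit 3892) (nat_lit 16) (.ev (nat_lit 3988) (nat_lit 16777216) (.ev (nat_lit 3997)
 (nat_lit 2048) .dd))))) (.ch (nat_lit 16) (.ev (nat_lit 752) (nat_lit 17592202823712) (.ev (nat_lit 765)
 (nat_lit 16) .dd)))))))))) (.ch (nat_lit 16) (.ev (nat_lit 208) (nat_lit 158329674532912) (.nd (nat_lit 672)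
 (.br (nat_lit 11) (.br (nat_lit 6) (.br (nat_lit 5) (.ch (nat_lit 1) (.ev (nat_lit 688) (nat_lit 16777280)
 (.ev (nat_lit 701) (nat_lit 1024) .dd))) (.ch (nat_lit 5) (.ev (nat_lit 1172) (nat_lit 64) (.nd (nat_lit 3232)
 (.br (nat_lit 14) (.br (nat_lit 11) (.ch (nat_lit 2) (.ev (nat_lit 3248) (nat_lit 16777216) (.ev (nat_lit
 3261) (nat_lit 1024) .dd))) (.ch (nat_lit 11) (.fin (nat_lit 576485491341738607)))) (.br (nat_lit 16) (.ch
 (nat_lit 14) (.ev (nat_lit 3248) (nat_lit 1024) (.ev (nat_lit 3261) (nat_lit 16777216) .dd))) (.ch (nat_lit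
 16) (.ev (nat_lit 3248) (nat_lit 16777216) (.ev (nat_lit 3261) (nat_lit 1024) .dd))))))))) (.br (nat_lit 7)
 (.ch (nat_lit 6) (.ev (nat_lit 688) (nat_lit 1024) (.ev (nat_lit 1172) (nat_lit 64) (.ev (nat_lit 1181)
 (nat_lit 16777216) .dd)))) (.ch (nat_lit 7) (.ev (nat_lit 688) (nat_lit 16778304) .dd)))) (.br (nat_lit 15)
 (.br (nat_lit 14) (.ch (nat_lit 11) (.ev (nat_lit 2308) (nat_lit 16777216) (.ev (nat_lit 3472) (nat_lit 1024)
 (.ev (nat_lit 3485) (nat_lit 64) .dd)))) (.ch (nat_lit 14) (.ev (nat_lit 688) (nat_lit 16778304) .dd))) (.br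
 (nat_lit 16) (.ch (nat_lit 15) (.ev (nat_lit 688) (nat_lit 16777280) (.ev (nat_lit 701) (nat_lit 1024) .dd)))
 (.ch (nat_lit 16) (.ev (nat_lit 688) (nat_lit 16777280) (.ev (nat_lit 701) (nat_lit 1024)
 .dd))))))))))))))))))))))

/-- The trie. -/
noncomputable def T : Tr := .nd (nat_lit 1000000) (.br (nat_lit 7) (.br (nat_lit 2) (.br (nat_lit 1) (.ch
 (nat_lit 0) (.ev (nat_lit 0) (nat_lit 9007199254740991) .dd)) (.ch (nat_lit 1) (.ev (nat_lit 0) (nat_lit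
 9007199254740991) .dd))) (.br (nat_lit 3) (.ch (nat_lit 2) (.ev (nat_lit 0) (nat_lit 9007199254740991) .dd))
 (.br (nat_lit 4) (.ch (nat_lit 3) T3) (.ch (nat_lit 4) (.ev (nat_lit 0) (nat_lit 9007199254740991) .dd)))))
 (.br (nat_lit 9) (.br (nat_lit 8) (.ch (nat_lit 7) T7) (.ch (nat_lit 8) (.ev (nat_lit 0) (nat_lit
 9007199254740991) .dd))) (.br (nat_lit 15) (.ch (nat_lit 9) T9) (.br (nat_lit 16) (.ch (nat_lit 15) (.ev
 (nat_lit 0) (nat_lit 9007199254740991) .dd)) (.ch (nat_lit 16) (.ev (nat_lit 0) (nat_lit 9007199254740991)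
 .dd))))))

/-- The possible values. -/
noncomputable def oks : List ℕ := [7, 10, 82, 90, 122, 346, 362, 418, 466, 963, 1162, 3815, 4954, 8010, 19018, 20818, 22690, 29082, 31598, 52890, 197290, 454490, 667890]

/-- The parameters. -/
noncomputable def S : Pr := ⟨fun i l e => lget mz (lget [] (lget [] tabs i) l) e, oks, [(nat_lit 0), (nat_lit
 0), (nat_lit 0), (nat_lit 0), (nat_lit 0), (nat_lit 0)], T, (nat_lit 9007199254740991), (nat_lit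
 2287041271849359), (nat_lit 53), [(nat_lit 98583)], [(nat_lit 24137569)]⟩

/-- Nothing known. -/
noncomputable def cs0 : Cs := (.cons (nat_lit 17) (nat_lit 0) (nat_lit 1) .nil)

theorem part_3 : part S cs0 (nat_lit 3) = true := by decide +kernel

theorem part_7 : part S cs0 (nat_lit 7) = true := by decide +kernel

theorem part_9 : part S cs0 (nat_lit 9) = true := by decide +kernel

/-- Data of a prime. -/
noncomputable def D0 : PD := ⟨(nat_lit 17), (nat_lit 6), (12458655, 6, 5), (17892079, 9049853, 18736650), (19385948, 23138178, 18282424)⟩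

theorem D0_ok : D0.Ok := pdb_sound (s := 3) (C := ⟨⟨3, 18, -19, -23, -2, 4, 2, -5, -7⟩, (3, 11, 2)⟩) (by show Nat.Prime 17; norm_num) (by decide +kernel)

/-- Lines of the first type. -/
noncomputable def Cl0 : List C1 := [⟨⟨23, 2, -19, 3, 18, 16, -2, 5, -5⟩, (14, 7, 1)⟩,
  ⟨⟨3, -18, -19, -23, 2, 4, 2, 5, -7⟩, (1, 15, 12)⟩,
  ⟨⟨-13, 2, -16, -7, 22, 11, 6, 3, -7⟩, (14, 1, 4)⟩,
  ⟨⟨0, 0, 0, 0, 0, 0, 0, 0, 0⟩, (0, 0, 0)⟩,
  ⟨⟨-13, -2, -16, -7, -22, 11, 6, -3, -7⟩, (16, 6, 7)⟩,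
  ⟨⟨0, 0, 0, 0, 0, 0, 0, 0, 0⟩, (0, 0, 0)⟩,
  ⟨⟨0, 0, 0, 0, 0, 0, 0, 0, 0⟩, (0, 0, 0)⟩,
  ⟨⟨0, 0, 0, 0, 0, 0, 0, 0, 0⟩, (0, 0, 0)⟩,
  ⟨⟨13, 2, -29, 7, 22, 4, -6, 3, -1⟩, (9, 14, 5)⟩,
  ⟨⟨0, 0, 0, 0, 0, 0, 0, 0, 0⟩, (0, 0, 0)⟩,
  ⟨⟨0, 0, 0, 0, 0, 0, 0, 0, 0⟩, (0, 0, 0)⟩,
  ⟨⟨0, 0, 0, 0, 0, 0, 0, 0, 0⟩, (0, 0, 0)⟩,
  ⟨⟨0, 0, 0, 0, 0, 0, 0, 0, 0⟩, (0, 0, 0)⟩,
  ⟨⟨0, 0, 0, 0, 0, 0, 0, 0, 0⟩, (0, 0, 0)⟩,
  ⟨⟨0, 0, 0, 0, 0, 0, 0, 0, 0⟩, (0, 0, 0)⟩,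
  ⟨⟨23, -2, -19, 3, -18, 16, -2, -5, -5⟩, (16, 8, 6)⟩,
  ⟨⟨13, -2, -29, 7, -22, 4, -6, -3, -1⟩, (11, 2, 8)⟩]

/-- Data of a prime. -/
noncomputable def Dm : PD := ⟨(nat_lit 53), (nat_lit 2), (2545, 8, 14), (2610, 800, 1557), (1968, 957, 2439)⟩

theorem Dm_ok : Dm.Ok := pdb_sound (s := 12) (C := ⟨⟨-13, 2, -76, -47, -58, 31, 18, -15, -13⟩, (40, 6, 18)⟩) (by show Nat.Prime 53; norm_num) (by decide +kernel)

/-- Lines of the first type. -/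
noncomputable def Clm : List C1 := [⟨⟨13, -2, -89, -47, -58, 16, 18, -15, -5⟩, (17, 16, 48)⟩,
  ⟨⟨-23, 38, -56, 43, 58, 1, 18, -9, -23⟩, (9, 50, 16)⟩,
  ⟨⟨-23, -38, -56, 43, -58, 1, 18, 9, -23⟩, (18, 47, 32)⟩,
  ⟨⟨-13, -2, -76, -47, 58, 31, 18, 15, -13⟩, (20, 3, 9)⟩,
  ⟨⟨0, 0, 0, 0, 0, 0, 0, 0, 0⟩, (0, 0, 0)⟩,
  ⟨⟨0, 0, 0, 0, 0, 0, 0, 0, 0⟩, (0, 0, 0)⟩,
  ⟨⟨0, 0, 0, 0, 0, 0, 0, 0, 0⟩, (0, 0, 0)⟩,
  ⟨⟨23, -38, -79, -43, -58, 44, -18, 9, -5⟩, (29, 8, 28)⟩,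
  ⟨⟨33, -18, -89, 67, 2, 4, 2, 23, -7⟩, (12, 34, 20)⟩,
  ⟨⟨0, 0, 0, 0, 0, 0, 0, 0, 0⟩, (0, 0, 0)⟩,
  ⟨⟨0, 0, 0, 0, 0, 0, 0, 0, 0⟩, (0, 0, 0)⟩,
  ⟨⟨0, 0, 0, 0, 0, 0, 0, 0, 0⟩, (0, 0, 0)⟩,
  ⟨⟨0, 0, 0, 0, 0, 0, 0, 0, 0⟩, (0, 0, 0)⟩,
  ⟨⟨27, 42, -76, 7, 58, 49, 22, -7, -5⟩, (1, 14, 44)⟩,
  ⟨⟨33, 18, -89, 67, -2, 4, 2, -23, -7⟩, (44, 1, 38)⟩,
  ⟨⟨0, 0, 0, 0, 0, 0, 0, 0, 0⟩, (0, 0, 0)⟩,
  ⟨⟨0, 0, 0, 0, 0, 0, 0, 0, 0⟩, (0, 0, 0)⟩,
  ⟨⟨0, 0, 0, 0, 0, 0, 0, 0, 0⟩, (0, 0, 0)⟩,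
  ⟨⟨0, 0, 0, 0, 0, 0, 0, 0, 0⟩, (0, 0, 0)⟩,
  ⟨⟨57, 42, -56, -37, 62, 41, -10, 1, -19⟩, (20, 27, 3)⟩,
  ⟨⟨13, 2, -89, -47, 58, 16, 18, 15, -5⟩, (50, 19, 4)⟩,
  ⟨⟨0, 0, 0, 0, 0, 0, 0, 0, 0⟩, (0, 0, 0)⟩,
  ⟨⟨0, 0, 0, 0, 0, 0, 0, 0, 0⟩, (0, 0, 0)⟩,
  ⟨⟨57, -42, -56, -37, -62, 41, -10, -1, -19⟩, (16, 11, 13)⟩,
  ⟨⟨0, 0, 0, 0, 0, 0, 0, 0, 0⟩, (0, 0, 0)⟩,
  ⟨⟨7, 58, -56, 27, 42, 49, 22, -7, -17⟩, (20, 9, 25)⟩,
  ⟨⟨0, 0, 0, 0, 0, 0, 0, 0, 0⟩, (0, 0, 0)⟩,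
  ⟨⟨67, -2, -71, 33, 18, 56, -2, 23, -5⟩, (28, 13, 49)⟩,
  ⟨⟨0, 0, 0, 0, 0, 0, 0, 0, 0⟩, (0, 0, 0)⟩,
  ⟨⟨0, 0, 0, 0, 0, 0, 0, 0, 0⟩, (0, 0, 0)⟩,
  ⟨⟨23, 38, -79, -43, 58, 44, -18, -9, -5⟩, (20, 11, 12)⟩,
  ⟨⟨0, 0, 0, 0, 0, 0, 0, 0, 0⟩, (0, 0, 0)⟩,
  ⟨⟨7, -58, -56, 27, -42, 49, 22, 7, -17⟩, (17, 5, 8)⟩,
  ⟨⟨0, 0, 0, 0, 0, 0, 0, 0, 0⟩, (0, 0, 0)⟩,
  ⟨⟨67, 2, -71, 33, -18, 56, -2, -23, -5⟩, (8, 34, 14)⟩,
  ⟨⟨27, -42, -76, 7, -58, 49, 22, 7, -5⟩, (50, 11, 27)⟩,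
  ⟨⟨0, 0, 0, 0, 0, 0, 0, 0, 0⟩, (0, 0, 0)⟩,
  ⟨⟨0, 0, 0, 0, 0, 0, 0, 0, 0⟩, (0, 0, 0)⟩,
  ⟨⟨0, 0, 0, 0, 0, 0, 0, 0, 0⟩, (0, 0, 0)⟩,
  ⟨⟨0, 0, 0, 0, 0, 0, 0, 0, 0⟩, (0, 0, 0)⟩,
  ⟨⟨0, 0, 0, 0, 0, 0, 0, 0, 0⟩, (0, 0, 0)⟩,
  ⟨⟨0, 0, 0, 0, 0, 0, 0, 0, 0⟩, (0, 0, 0)⟩,
  ⟨⟨0, 0, 0, 0, 0, 0, 0, 0, 0⟩, (0, 0, 0)⟩,
  ⟨⟨0, 0, 0, 0, 0, 0, 0, 0, 0⟩, (0, 0, 0)⟩,
  ⟨⟨0, 0, 0, 0, 0, 0, 0, 0, 0⟩, (0, 0, 0)⟩,
  ⟨⟨-37, 62, -4, -57, -42, 1, 10, -1, -29⟩, (22, 21, 27)⟩,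
  ⟨⟨0, 0, 0, 0, 0, 0, 0, 0, 0⟩, (0, 0, 0)⟩,
  ⟨⟨0, 0, 0, 0, 0, 0, 0, 0, 0⟩, (0, 0, 0)⟩,
  ⟨⟨0, 0, 0, 0, 0, 0, 0, 0, 0⟩, (0, 0, 0)⟩,
  ⟨⟨0, 0, 0, 0, 0, 0, 0, 0, 0⟩, (0, 0, 0)⟩,
  ⟨⟨0, 0, 0, 0, 0, 0, 0, 0, 0⟩, (0, 0, 0)⟩,
  ⟨⟨-37, -62, -4, -57, 42, 1, 10, 1, -29⟩, (6, 25, 17)⟩,
  ⟨⟨0, 0, 0, 0, 0, 0, 0, 0, 0⟩, (0, 0, 0)⟩]

/-- Unit moves. -/
noncomputable def U : List Mv := [mz,
  mz,
  mz,
  mz,
  mz,
  ⟨⟨-1, 0, 1, 0, -1, 0, 0, 0, 1⟩, .nil, (nat_lit 0), (nat_lit 15), (nat_lit 1), (nat_lit 0), (0, 0, 0), [], 2⟩,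
  ⟨⟨-1, 0, 1, 0, 1, 0, 0, 0, 1⟩, .nil, (nat_lit 16), (nat_lit 1), (nat_lit 9), (nat_lit 1), (0, 0, 0), [], 10⟩,
  mz,
  mz,
  mz,
  ⟨⟨1, 0, 0, 0, -1, 0, 0, 0, 1⟩, .nil, (nat_lit 16), (nat_lit 15), (nat_lit 16), (nat_lit 1), (0, 0, 0), [], 3⟩,
  ⟨⟨1, 0, 0, 0, -1, 0, 0, 0, 1⟩, .nil, (nat_lit 16), (nat_lit 15), (nat_lit 16), (nat_lit 1), (0, 0, 0), [], 3⟩,
  ⟨⟨1, 0, 0, 0, -1, 0, 0, 0, 1⟩, .nil, (nat_lit 16), (nat_lit 15), (nat_lit 16), (nat_lit 1), (0, 0, 0), [], 3⟩,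
  ⟨⟨-1, 0, 1, 0, -1, 0, 0, 0, 1⟩, .nil, (nat_lit 0), (nat_lit 15), (nat_lit 1), (nat_lit 0), (0, 0, 0), [], 2⟩,
  ⟨⟨-1, 0, 1, 0, 1, 0, 0, 0, 1⟩, .nil, (nat_lit 16), (nat_lit 1), (nat_lit 9), (nat_lit 1), (0, 0, 0), [], 10⟩,
  mz,
  mz]

theorem v_ty : tyb Dm S.ty1 Clm = true := by decide +kernel

theorem v_ty0 : tyb D0 (S.tys.getD 0 0) Cl0 = true := by decide +kernel

theorem v_msc : mscb S D0 [] Dm (nat_lit 648) = true := by decide +kernel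

theorem v_mv0 : mvsn (nat_lit 67802431321) S D0 [] Dm (nat_lit 648) 0 D0 = true := by decide +kernel

theorem v_mm : mmsn (nat_lit 67802431321) S D0 [] Dm (nat_lit 648) = true := by decide +kernel

theorem v_un : unb S D0 (nat_lit 648) U = true := by decide +kernel

theorem v_ok : okb S.oks [(0, 0, 0), (0, 0, 0), (0, 0, 0), (0, 0, 0), (0, 0, 0), (0, 0, 0), (0, 0, 0), (0, 0,
 0), (0, 0, 0), (13, 28, 1), (0, 0, 0), (18, 59, 1), (0, 0, 0), (0, 0, 0), (0, 0, 0), (0, 0, 0), (0, 0, 0), (0,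
 0, 0), (0, 0, 0), (0, 0, 0), (0, 0, 0), (0, 0, 0), (0, 0, 0)] = true := by decide +kernel

theorem v_part : ∀ d < D0.p, (nat_lit 648).testBit d = true → part S (zc (D0 :: [])) d = true := by
  intro d hd h
  have h1 : ∀ d < 17, (nat_lit 648).testBit d = true → d = 3 ∨ d = 7 ∨ d = 9 := by decide
  rcases h1 d hd h with rfl | rfl | rfl
  · exact part_3
  · exact part_7
  · exact part_9

theorem main (n : ℕ) (ho : Odd n) (hr : ¬ Rep n) (h0 : Split 17 n) (hm : Split 53 n) :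
    n ∈ EE := by
  refine concln (W := nat_lit 67802431321) (S := S) (P0 := D0) (Pl := []) (Pm := Dm) (cn := nat_lit 648) ?_ Dm_ok v_ty ?_ ?_ v_msc ?_ v_mm v_un v_part v_ok
    n ho hr ?_ hm
  · simp only [List.forall_mem_cons]
    exact ⟨D0_ok, fun _ h => absurd h (by simp)⟩
  · exact all1 (φ := fun j P => ∃ L, tyb P (S.tys.getD j 0) L = true) ⟨_, v_ty0⟩
  · exact all1 (φ := fun j P => Nat.ble (S.pks.getD j 0) (Nat.pow P.p P.K) = true) (by decide +kernel)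
  · exact all1 (φ := fun i P => mvsn (nat_lit 67802431321) S D0 [] Dm (nat_lit 648) i P = true) v_mv0
  · simp only [List.forall_mem_cons]
    exact ⟨h0, fun _ h => absurd h (by simp)⟩

end Pool.Agent.Work.MP_9954fe_nt.P17_53

namespace Pool.Agent.Work.MP_9954fe_nt.P19_37_31

/-- Dummy move. -/
noncomputable def mz : Mv := ⟨⟨0, 0, 0, 0, 0, 0, 0, 0, 0⟩, .nil, (nat_lit 0), (nat_lit 0), (nat_lit 0), (nat_lit 0), (0, 0, 0), [], 0⟩

/-- Moves. -/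
noncomputable def t0_1 : List Mv := [
  ⟨⟨15, -4, -23, -10, 9, -10, 12, 12, -7⟩, (.cons (nat_lit 1532261) (nat_lit 367811) (nat_lit 1571310) (nat_lit
 1) (.cons (nat_lit 1531543) (nat_lit 748935) (nat_lit 522834) (nat_lit 1) .nil)), (nat_lit 19), (nat_lit 28),
 (nat_lit 25), (nat_lit 1), (18, 7, 3), [221342, 478084], 19⟩,
  ⟨⟨15, -4, -23, 10, -9, 10, 12, 12, -7⟩, (.cons (nat_lit 92011) (nat_lit 1913232) (nat_lit 1) (nat_lit
 1286072) (.cons (nat_lit 93230) (nat_lit 807611) (nat_lit 348096) (nat_lit 1) .nil)), (nat_lit 7), (nat_lit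
 18), (nat_lit 7), (nat_lit 1), (18, 12, 3), [1913650, 784035], 29⟩,
  ⟨⟨15, -4, -23, -10, 9, -10, 12, 12, -7⟩, (.cons (nat_lit 1532261) (nat_lit 367811) (nat_lit 1571310) (nat_lit
 1) (.cons (nat_lit 1531543) (nat_lit 748935) (nat_lit 522834) (nat_lit 1) .nil)), (nat_lit 19), (nat_lit 28),
 (nat_lit 25), (nat_lit 1), (18, 7, 3), [221342, 478084], 19⟩,
  ⟨⟨15, -4, -23, -10, 9, -10, 12, 12, -7⟩, (.cons (nat_lit 1532261) (nat_lit 367811) (nat_lit 1571310) (nat_lit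
 1) (.cons (nat_lit 1531543) (nat_lit 748935) (nat_lit 522834) (nat_lit 1) .nil)), (nat_lit 19), (nat_lit 28),
 (nat_lit 25), (nat_lit 1), (18, 7, 3), [221342, 478084], 19⟩,
  ⟨⟨-3, 16, 16, 10, -9, 10, 12, 12, -7⟩, (.cons (nat_lit 463037) (nat_lit 1963987) (nat_lit 463056) (nat_lit 1)
 (.cons (nat_lit 1874160) (nat_lit 1828930) (nat_lit 789613) (nat_lit 1) .nil)), (nat_lit 30), (nat_lit 26),
 (nat_lit 4), (nat_lit 1), (4, 12, 3), [996079, 1630685], 20⟩,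
  ⟨⟨15, -4, -23, -10, 9, -10, 12, 12, -7⟩, (.cons (nat_lit 1532261) (nat_lit 367811) (nat_lit 1571310) (nat_lit
 1) (.cons (nat_lit 1531543) (nat_lit 748935) (nat_lit 522834) (nat_lit 1) .nil)), (nat_lit 19), (nat_lit 28),
 (nat_lit 25), (nat_lit 1), (18, 7, 3), [221342, 478084], 19⟩,
  ⟨⟨15, -4, -23, 10, -9, 10, 12, 12, -7⟩, (.cons (nat_lit 92011) (nat_lit 1913232) (nat_lit 1) (nat_lit
 1286072) (.cons (nat_lit 93230) (nat_lit 807611) (nat_lit 348096) (nat_lit 1) .nil)), (nat_lit 7), (nat_lit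
 18), (nat_lit 7), (nat_lit 1), (18, 12, 3), [1913650, 784035], 29⟩,
  ⟨⟨-3, 16, 16, -10, 9, -10, 12, 12, -7⟩, (.cons (nat_lit 1612883) (nat_lit 2472926) (nat_lit 960815) (nat_lit
 1) (.cons (nat_lit 1241868) (nat_lit 1031664) (nat_lit 1597801) (nat_lit 1) .nil)), (nat_lit 11), (nat_lit 6),
 (nat_lit 9), (nat_lit 1), (4, 7, 3), [275090, 1237656], 11⟩,
  ⟨⟨15, -4, -23, -10, 9, -10, 12, 12, -7⟩, (.cons (nat_lit 1532261) (nat_lit 367811) (nat_lit 1571310) (nat_lit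
 1) (.cons (nat_lit 1531543) (nat_lit 748935) (nat_lit 522834) (nat_lit 1) .nil)), (nat_lit 19), (nat_lit 28),
 (nat_lit 25), (nat_lit 1), (18, 7, 3), [221342, 478084], 19⟩,
  ⟨⟨15, -4, -23, -10, 9, -10, 12, 12, -7⟩, (.cons (nat_lit 1532261) (nat_lit 367811) (nat_lit 1571310) (nat_lit
 1) (.cons (nat_lit 1531543) (nat_lit 748935) (nat_lit 522834) (nat_lit 1) .nil)), (nat_lit 19), (nat_lit 28),
 (nat_lit 25), (nat_lit 1), (18, 7, 3), [221342, 478084], 19⟩,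
  ⟨⟨15, -4, -23, -10, 9, -10, 12, 12, -7⟩, (.cons (nat_lit 1532261) (nat_lit 367811) (nat_lit 1571310) (nat_lit
 1) (.cons (nat_lit 1531543) (nat_lit 748935) (nat_lit 522834) (nat_lit 1) .nil)), (nat_lit 19), (nat_lit 28),
 (nat_lit 25), (nat_lit 1), (18, 7, 3), [221342, 478084], 19⟩,
  ⟨⟨-3, 16, 16, -10, 9, -10, 12, 12, -7⟩, (.cons (nat_lit 1612883) (nat_lit 2472926) (nat_lit 960815) (nat_lit
 1) (.cons (nat_lit 1241868) (nat_lit 1031664) (nat_lit 1597801) (nat_lit 1) .nil)), (nat_lit 11), (nat_lit 6),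
 (nat_lit 9), (nat_lit 1), (4, 7, 3), [275090, 1237656], 11⟩,
  ⟨⟨15, -4, -23, 10, -9, 10, 12, 12, -7⟩, (.cons (nat_lit 92011) (nat_lit 1913232) (nat_lit 1) (nat_lit
 1286072) (.cons (nat_lit 93230) (nat_lit 807611) (nat_lit 348096) (nat_lit 1) .nil)), (nat_lit 7), (nat_lit
 18), (nat_lit 7), (nat_lit 1), (18, 12, 3), [1913650, 784035], 29⟩,
  ⟨⟨15, -4, -23, -10, 9, -10, 12, 12, -7⟩, (.cons (nat_lit 1532261) (nat_lit 367811) (nat_lit 1571310) (nat_lit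
 1) (.cons (nat_lit 1531543) (nat_lit 748935) (nat_lit 522834) (nat_lit 1) .nil)), (nat_lit 19), (nat_lit 28),
 (nat_lit 25), (nat_lit 1), (18, 7, 3), [221342, 478084], 19⟩,
  ⟨⟨15, -4, -23, -10, 9, -10, 12, 12, -7⟩, (.cons (nat_lit 1532261) (nat_lit 367811) (nat_lit 1571310) (nat_lit
 1) (.cons (nat_lit 1531543) (nat_lit 748935) (nat_lit 522834) (nat_lit 1) .nil)), (nat_lit 19), (nat_lit 28),
 (nat_lit 25), (nat_lit 1), (18, 7, 3), [221342, 478084], 19⟩,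
  ⟨⟨-3, 16, 16, -10, 9, -10, 12, 12, -7⟩, (.cons (nat_lit 1612883) (nat_lit 2472926) (nat_lit 960815) (nat_lit
 1) (.cons (nat_lit 1241868) (nat_lit 1031664) (nat_lit 1597801) (nat_lit 1) .nil)), (nat_lit 11), (nat_lit 6),
 (nat_lit 9), (nat_lit 1), (4, 7, 3), [275090, 1237656], 11⟩,
  ⟨⟨15, -4, -23, -10, 9, -10, 12, 12, -7⟩, (.cons (nat_lit 1532261) (nat_lit 367811) (nat_lit 1571310) (nat_lit
 1) (.cons (nat_lit 1531543) (nat_lit 748935) (nat_lit 522834) (nat_lit 1) .nil)), (nat_lit 19), (nat_lit 28),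
 (nat_lit 25), (nat_lit 1), (18, 7, 3), [221342, 478084], 19⟩,
  ⟨⟨15, -4, -23, -10, 9, -10, 12, 12, -7⟩, (.cons (nat_lit 1532261) (nat_lit 367811) (nat_lit 1571310) (nat_lit
 1) (.cons (nat_lit 1531543) (nat_lit 748935) (nat_lit 522834) (nat_lit 1) .nil)), (nat_lit 19), (nat_lit 28),
 (nat_lit 25), (nat_lit 1), (18, 7, 3), [221342, 478084], 19⟩,
  ⟨⟨-3, 16, 16, 10, -9, 10, 12, 12, -7⟩, (.cons (nat_lit 463037) (nat_lit 1963987) (nat_lit 463056) (nat_lit 1)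
 (.cons (nat_lit 1874160) (nat_lit 1828930) (nat_lit 789613) (nat_lit 1) .nil)), (nat_lit 30), (nat_lit 26),
 (nat_lit 4), (nat_lit 1), (4, 12, 3), [996079, 1630685], 20⟩]

/-- Moves. -/
noncomputable def t0_2 : List Mv := [
  ⟨⟨-11, 12, 20, 16, 5, 2, -2, 16, -5⟩, (.cons (nat_lit 1479509) (nat_lit 1461482) (nat_lit 59807) (nat_lit 1)
 (.cons (nat_lit 1328036) (nat_lit 456596) (nat_lit 674246) (nat_lit 1) .nil)), (nat_lit 19), (nat_lit 20),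
 (nat_lit 17), (nat_lit 1), (15, 11, 1), [920235, 1697912], 8⟩,
  ⟨⟨9, 4, -25, -16, -5, -2, -2, 16, -5⟩, (.cons (nat_lit 1526221) (nat_lit 1108922) (nat_lit 1015758) (nat_lit
 1) (.cons (nat_lit 1280180) (nat_lit 869837) (nat_lit 670812) (nat_lit 1) .nil)), (nat_lit 5), (nat_lit 24),
 (nat_lit 18), (nat_lit 1), (5, 8, 1), [2377237, 818389], 9⟩,
  ⟨⟨9, 4, -25, 16, 5, 2, -2, 16, -5⟩, (.cons (nat_lit 433875) (nat_lit 294752) (nat_lit 1551813) (nat_lit 1)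
 (.cons (nat_lit 1299018) (nat_lit 1525552) (nat_lit 451102) (nat_lit 1) .nil)), (nat_lit 15), (nat_lit 19),
 (nat_lit 15), (nat_lit 1), (5, 11, 1), [2163726, 970013], 15⟩,
  ⟨⟨9, 4, -25, -16, -5, -2, -2, 16, -5⟩, (.cons (nat_lit 1526221) (nat_lit 1108922) (nat_lit 1015758) (nat_lit
 1) (.cons (nat_lit 1280180) (nat_lit 869837) (nat_lit 670812) (nat_lit 1) .nil)), (nat_lit 5), (nat_lit 24),
 (nat_lit 18), (nat_lit 1), (5, 8, 1), [2377237, 818389], 9⟩,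
  ⟨⟨9, 4, -25, -16, -5, -2, -2, 16, -5⟩, (.cons (nat_lit 1526221) (nat_lit 1108922) (nat_lit 1015758) (nat_lit
 1) (.cons (nat_lit 1280180) (nat_lit 869837) (nat_lit 670812) (nat_lit 1) .nil)), (nat_lit 5), (nat_lit 24),
 (nat_lit 18), (nat_lit 1), (5, 8, 1), [2377237, 818389], 9⟩,
  ⟨⟨9, 4, -25, 16, 5, 2, -2, 16, -5⟩, (.cons (nat_lit 433875) (nat_lit 294752) (nat_lit 1551813) (nat_lit 1)
 (.cons (nat_lit 1299018) (nat_lit 1525552) (nat_lit 451102) (nat_lit 1) .nil)), (nat_lit 15), (nat_lit 19),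
 (nat_lit 15), (nat_lit 1), (5, 11, 1), [2163726, 970013], 15⟩,
  ⟨⟨-11, 12, 20, 16, 5, 2, -2, 16, -5⟩, (.cons (nat_lit 1479509) (nat_lit 1461482) (nat_lit 59807) (nat_lit 1)
 (.cons (nat_lit 1328036) (nat_lit 456596) (nat_lit 674246) (nat_lit 1) .nil)), (nat_lit 19), (nat_lit 20),
 (nat_lit 17), (nat_lit 1), (15, 11, 1), [920235, 1697912], 8⟩,
  ⟨⟨-11, 12, 20, -16, -5, -2, -2, 16, -5⟩, (.cons (nat_lit 522114) (nat_lit 541092) (nat_lit 108720) (nat_lit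
 1) (.cons (nat_lit 1037595) (nat_lit 573942) (nat_lit 350017) (nat_lit 1) .nil)), (nat_lit 20), (nat_lit 22),
 (nat_lit 22), (nat_lit 1), (15, 8, 1), [2316183, 1159581], 12⟩,
  ⟨⟨9, 4, -25, -16, -5, -2, -2, 16, -5⟩, (.cons (nat_lit 1526221) (nat_lit 1108922) (nat_lit 1015758) (nat_lit
 1) (.cons (nat_lit 1280180) (nat_lit 869837) (nat_lit 670812) (nat_lit 1) .nil)), (nat_lit 5), (nat_lit 24),
 (nat_lit 18), (nat_lit 1), (5, 8, 1), [2377237, 818389], 9⟩,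
  ⟨⟨9, 4, -25, -16, -5, -2, -2, 16, -5⟩, (.cons (nat_lit 1526221) (nat_lit 1108922) (nat_lit 1015758) (nat_lit
 1) (.cons (nat_lit 1280180) (nat_lit 869837) (nat_lit 670812) (nat_lit 1) .nil)), (nat_lit 5), (nat_lit 24),
 (nat_lit 18), (nat_lit 1), (5, 8, 1), [2377237, 818389], 9⟩,
  ⟨⟨9, 4, -25, -16, -5, -2, -2, 16, -5⟩, (.cons (nat_lit 1526221) (nat_lit 1108922) (nat_lit 1015758) (nat_lit
 1) (.cons (nat_lit 1280180) (nat_lit 869837) (nat_lit 670812) (nat_lit 1) .nil)), (nat_lit 5), (nat_lit 24),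
 (nat_lit 18), (nat_lit 1), (5, 8, 1), [2377237, 818389], 9⟩,
  ⟨⟨9, 4, -25, -16, -5, -2, -2, 16, -5⟩, (.cons (nat_lit 1526221) (nat_lit 1108922) (nat_lit 1015758) (nat_lit
 1) (.cons (nat_lit 1280180) (nat_lit 869837) (nat_lit 670812) (nat_lit 1) .nil)), (nat_lit 5), (nat_lit 24),
 (nat_lit 18), (nat_lit 1), (5, 8, 1), [2377237, 818389], 9⟩,
  ⟨⟨9, 4, -25, -16, -5, -2, -2, 16, -5⟩, (.cons (nat_lit 1526221) (nat_lit 1108922) (nat_lit 1015758) (nat_lit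
 1) (.cons (nat_lit 1280180) (nat_lit 869837) (nat_lit 670812) (nat_lit 1) .nil)), (nat_lit 5), (nat_lit 24),
 (nat_lit 18), (nat_lit 1), (5, 8, 1), [2377237, 818389], 9⟩,
  ⟨⟨-11, 12, 20, -16, -5, -2, -2, 16, -5⟩, (.cons (nat_lit 522114) (nat_lit 541092) (nat_lit 108720) (nat_lit
 1) (.cons (nat_lit 1037595) (nat_lit 573942) (nat_lit 350017) (nat_lit 1) .nil)), (nat_lit 20), (nat_lit 22),
 (nat_lit 22), (nat_lit 1), (15, 8, 1), [2316183, 1159581], 12⟩,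
  ⟨⟨9, 4, -25, -16, -5, -2, -2, 16, -5⟩, (.cons (nat_lit 1526221) (nat_lit 1108922) (nat_lit 1015758) (nat_lit
 1) (.cons (nat_lit 1280180) (nat_lit 869837) (nat_lit 670812) (nat_lit 1) .nil)), (nat_lit 5), (nat_lit 24),
 (nat_lit 18), (nat_lit 1), (5, 8, 1), [2377237, 818389], 9⟩,
  ⟨⟨9, 4, -25, 16, 5, 2, -2, 16, -5⟩, (.cons (nat_lit 433875) (nat_lit 294752) (nat_lit 1551813) (nat_lit 1)
 (.cons (nat_lit 1299018) (nat_lit 1525552) (nat_lit 451102) (nat_lit 1) .nil)), (nat_lit 15), (nat_lit 19),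
 (nat_lit 15), (nat_lit 1), (5, 11, 1), [2163726, 970013], 15⟩,
  ⟨⟨-11, 12, 20, -16, -5, -2, -2, 16, -5⟩, (.cons (nat_lit 522114) (nat_lit 541092) (nat_lit 108720) (nat_lit
 1) (.cons (nat_lit 1037595) (nat_lit 573942) (nat_lit 350017) (nat_lit 1) .nil)), (nat_lit 20), (nat_lit 22),
 (nat_lit 22), (nat_lit 1), (15, 8, 1), [2316183, 1159581], 12⟩,
  ⟨⟨9, 4, -25, -16, -5, -2, -2, 16, -5⟩, (.cons (nat_lit 1526221) (nat_lit 1108922) (nat_lit 1015758) (nat_lit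
 1) (.cons (nat_lit 1280180) (nat_lit 869837) (nat_lit 670812) (nat_lit 1) .nil)), (nat_lit 5), (nat_lit 24),
 (nat_lit 18), (nat_lit 1), (5, 8, 1), [2377237, 818389], 9⟩,
  ⟨⟨9, 4, -25, -16, -5, -2, -2, 16, -5⟩, (.cons (nat_lit 1526221) (nat_lit 1108922) (nat_lit 1015758) (nat_lit
 1) (.cons (nat_lit 1280180) (nat_lit 869837) (nat_lit 670812) (nat_lit 1) .nil)), (nat_lit 5), (nat_lit 24),
 (nat_lit 18), (nat_lit 1), (5, 8, 1), [2377237, 818389], 9⟩]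

/-- Moves. -/
noncomputable def t0_8 : List Mv := [
  ⟨⟨17, -12, -9, -4, -5, -18, 14, 8, -13⟩, (.cons (nat_lit 1946579) (nat_lit 1445197) (nat_lit 1166019)
 (nat_lit 1) (.cons (nat_lit 1198114) (nat_lit 846247) (nat_lit 651008) (nat_lit 1) .nil)), (nat_lit 5),
 (nat_lit 9), (nat_lit 17), (nat_lit 1), (9, 18, 13), [1292979, 361180], 9⟩,
  ⟨⟨17, -12, -9, -4, -5, -18, 14, 8, -13⟩, (.cons (nat_lit 1946579) (nat_lit 1445197) (nat_lit 1166019)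
 (nat_lit 1) (.cons (nat_lit 1198114) (nat_lit 846247) (nat_lit 651008) (nat_lit 1) .nil)), (nat_lit 5),
 (nat_lit 9), (nat_lit 17), (nat_lit 1), (9, 18, 13), [1292979, 361180], 9⟩,
  ⟨⟨17, -12, -9, -4, -5, -18, 14, 8, -13⟩, (.cons (nat_lit 1946579) (nat_lit 1445197) (nat_lit 1166019)
 (nat_lit 1) (.cons (nat_lit 1198114) (nat_lit 846247) (nat_lit 651008) (nat_lit 1) .nil)), (nat_lit 5),
 (nat_lit 9), (nat_lit 17), (nat_lit 1), (9, 18, 13), [1292979, 361180], 9⟩,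
  ⟨⟨-3, 20, -4, -4, -5, -18, 14, 8, -13⟩, (.cons (nat_lit 1175155) (nat_lit 227420) (nat_lit 1232996) (nat_lit
 1) (.cons (nat_lit 1818638) (nat_lit 1445047) (nat_lit 403167) (nat_lit 1) .nil)), (nat_lit 5), (nat_lit 10),
 (nat_lit 27), (nat_lit 1), (4, 18, 13), [943910, 807793], 13⟩,
  ⟨⟨-3, 20, -4, 4, 5, 18, 14, 8, -13⟩, (.cons (nat_lit 793917) (nat_lit 1538720) (nat_lit 1) (nat_lit 1447173)
 (.cons (nat_lit 1787307) (nat_lit 1816385) (nat_lit 927478) (nat_lit 1) .nil)), (nat_lit 18), (nat_lit 12),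
 (nat_lit 4), (nat_lit 1), (4, 1, 13), [1487030, 1292800], 19⟩,
  ⟨⟨17, -12, -9, -4, -5, -18, 14, 8, -13⟩, (.cons (nat_lit 1946579) (nat_lit 1445197) (nat_lit 1166019)
 (nat_lit 1) (.cons (nat_lit 1198114) (nat_lit 846247) (nat_lit 651008) (nat_lit 1) .nil)), (nat_lit 5),
 (nat_lit 9), (nat_lit 17), (nat_lit 1), (9, 18, 13), [1292979, 361180], 9⟩,
  ⟨⟨17, -12, -9, -4, -5, -18, 14, 8, -13⟩, (.cons (nat_lit 1946579) (nat_lit 1445197) (nat_lit 1166019)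
 (nat_lit 1) (.cons (nat_lit 1198114) (nat_lit 846247) (nat_lit 651008) (nat_lit 1) .nil)), (nat_lit 5),
 (nat_lit 9), (nat_lit 17), (nat_lit 1), (9, 18, 13), [1292979, 361180], 9⟩,
  ⟨⟨17, -12, -9, -4, -5, -18, 14, 8, -13⟩, (.cons (nat_lit 1946579) (nat_lit 1445197) (nat_lit 1166019)
 (nat_lit 1) (.cons (nat_lit 1198114) (nat_lit 846247) (nat_lit 651008) (nat_lit 1) .nil)), (nat_lit 5),
 (nat_lit 9), (nat_lit 17), (nat_lit 1), (9, 18, 13), [1292979, 361180], 9⟩,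
  ⟨⟨17, -12, -9, 4, 5, 18, 14, 8, -13⟩, (.cons (nat_lit 234562) (nat_lit 2098260) (nat_lit 2402388) (nat_lit 1)
 (.cons (nat_lit 1552822) (nat_lit 965878) (nat_lit 466121) (nat_lit 1) .nil)), (nat_lit 25), (nat_lit 17),
 (nat_lit 16), (nat_lit 1), (9, 1, 13), [1970514, 1113289], 12⟩,
  ⟨⟨17, -12, -9, -4, -5, -18, 14, 8, -13⟩, (.cons (nat_lit 1946579) (nat_lit 1445197) (nat_lit 1166019)
 (nat_lit 1) (.cons (nat_lit 1198114) (nat_lit 846247) (nat_lit 651008) (nat_lit 1) .nil)), (nat_lit 5),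
 (nat_lit 9), (nat_lit 17), (nat_lit 1), (9, 18, 13), [1292979, 361180], 9⟩,
  ⟨⟨17, -12, -9, -4, -5, -18, 14, 8, -13⟩, (.cons (nat_lit 1946579) (nat_lit 1445197) (nat_lit 1166019)
 (nat_lit 1) (.cons (nat_lit 1198114) (nat_lit 846247) (nat_lit 651008) (nat_lit 1) .nil)), (nat_lit 5),
 (nat_lit 9), (nat_lit 17), (nat_lit 1), (9, 18, 13), [1292979, 361180], 9⟩,
  ⟨⟨17, -12, -9, -4, -5, -18, 14, 8, -13⟩, (.cons (nat_lit 1946579) (nat_lit 1445197) (nat_lit 1166019)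
 (nat_lit 1) (.cons (nat_lit 1198114) (nat_lit 846247) (nat_lit 651008) (nat_lit 1) .nil)), (nat_lit 5),
 (nat_lit 9), (nat_lit 17), (nat_lit 1), (9, 18, 13), [1292979, 361180], 9⟩,
  ⟨⟨17, -12, -9, -4, -5, -18, 14, 8, -13⟩, (.cons (nat_lit 1946579) (nat_lit 1445197) (nat_lit 1166019)
 (nat_lit 1) (.cons (nat_lit 1198114) (nat_lit 846247) (nat_lit 651008) (nat_lit 1) .nil)), (nat_lit 5),
 (nat_lit 9), (nat_lit 17), (nat_lit 1), (9, 18, 13), [1292979, 361180], 9⟩,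
  ⟨⟨-3, 20, -4, -4, -5, -18, 14, 8, -13⟩, (.cons (nat_lit 1175155) (nat_lit 227420) (nat_lit 1232996) (nat_lit
 1) (.cons (nat_lit 1818638) (nat_lit 1445047) (nat_lit 403167) (nat_lit 1) .nil)), (nat_lit 5), (nat_lit 10),
 (nat_lit 27), (nat_lit 1), (4, 18, 13), [943910, 807793], 13⟩,
  ⟨⟨-3, 20, -4, 4, 5, 18, 14, 8, -13⟩, (.cons (nat_lit 793917) (nat_lit 1538720) (nat_lit 1) (nat_lit 1447173)
 (.cons (nat_lit 1787307) (nat_lit 1816385) (nat_lit 927478) (nat_lit 1) .nil)), (nat_lit 18), (nat_lit 12),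
 (nat_lit 4), (nat_lit 1), (4, 1, 13), [1487030, 1292800], 19⟩,
  ⟨⟨17, -12, -9, 4, 5, 18, 14, 8, -13⟩, (.cons (nat_lit 234562) (nat_lit 2098260) (nat_lit 2402388) (nat_lit 1)
 (.cons (nat_lit 1552822) (nat_lit 965878) (nat_lit 466121) (nat_lit 1) .nil)), (nat_lit 25), (nat_lit 17),
 (nat_lit 16), (nat_lit 1), (9, 1, 13), [1970514, 1113289], 12⟩,
  ⟨⟨17, -12, -9, 4, 5, 18, 14, 8, -13⟩, (.cons (nat_lit 234562) (nat_lit 2098260) (nat_lit 2402388) (nat_lit 1)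
 (.cons (nat_lit 1552822) (nat_lit 965878) (nat_lit 466121) (nat_lit 1) .nil)), (nat_lit 25), (nat_lit 17),
 (nat_lit 16), (nat_lit 1), (9, 1, 13), [1970514, 1113289], 12⟩,
  ⟨⟨17, -12, -9, -4, -5, -18, 14, 8, -13⟩, (.cons (nat_lit 1946579) (nat_lit 1445197) (nat_lit 1166019)
 (nat_lit 1) (.cons (nat_lit 1198114) (nat_lit 846247) (nat_lit 651008) (nat_lit 1) .nil)), (nat_lit 5),
 (nat_lit 9), (nat_lit 17), (nat_lit 1), (9, 18, 13), [1292979, 361180], 9⟩,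
  ⟨⟨-3, 20, -4, -4, -5, -18, 14, 8, -13⟩, (.cons (nat_lit 1175155) (nat_lit 227420) (nat_lit 1232996) (nat_lit
 1) (.cons (nat_lit 1818638) (nat_lit 1445047) (nat_lit 403167) (nat_lit 1) .nil)), (nat_lit 5), (nat_lit 10),
 (nat_lit 27), (nat_lit 1), (4, 18, 13), [943910, 807793], 13⟩]

/-- Moves. -/
noncomputable def t1_1 : List Mv := [
  mz,
  ⟨⟨3, -16, -43, 10, 33, -20, 30, -12, -23⟩, (.cons (nat_lit 2336446) (nat_lit 423645) (nat_lit 647601)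
 (nat_lit 1) (.cons (nat_lit 613252) (nat_lit 1059658) (nat_lit 579005) (nat_lit 1) .nil)), (nat_lit 9),
 (nat_lit 12), (nat_lit 23), (nat_lit 1), (25, 34, 28), [1566354, 1167854], 10⟩,
  mz,
  mz,
  ⟨⟨21, 4, 28, 8, 35, -14, 32, -8, -19⟩, (.cons (nat_lit 2476098) (nat_lit 1135118) (nat_lit 1812851) (nat_lit
 1) (.cons (nat_lit 1425476) (nat_lit 1018043) (nat_lit 1761999) (nat_lit 1) .nil)), (nat_lit 30), (nat_lit 7),
 (nat_lit 16), (nat_lit 1), (33, 2, 8), [1872616, 1716966], 27⟩,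
  ⟨⟨11, 12, -47, 8, -35, -14, 32, 8, -19⟩, (.cons (nat_lit 1972401) (nat_lit 1369610) (nat_lit 2043091)
 (nat_lit 1) (.cons (nat_lit 1138918) (nat_lit 226903) (nat_lit 1747111) (nat_lit 1) .nil)), (nat_lit 26),
 (nat_lit 0), (nat_lit 0), (nat_lit 1), (29, 11, 7), [961079, 1053595], 30⟩,
  mz,
  ⟨⟨-17, 36, 17, -30, -17, 30, -18, 12, -19⟩, (.cons (nat_lit 2234728) (nat_lit 2444300) (nat_lit 316056)
 (nat_lit 1) (.cons (nat_lit 1733113) (nat_lit 1233933) (nat_lit 457472) (nat_lit 1) .nil)), (nat_lit 13),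
 (nat_lit 4), (nat_lit 16), (nat_lit 1), (36, 20, 12), [2254722, 141868], 27⟩,
  ⟨⟨-35, 12, -1, 12, 35, -6, 0, 0, -37⟩, (.cons (nat_lit 2476098) (nat_lit 1216266) (nat_lit 366947) (nat_lit
 1) (.cons (nat_lit 353825) (nat_lit 423693) (nat_lit 512773) (nat_lit 1) .nil)), (nat_lit 30), (nat_lit 5),
 (nat_lit 10), (nat_lit 1), (3, 18, 0), [1498113, 388739], 4⟩,
  mz,
  ⟨⟨-1, 24, -36, 30, -17, -30, -18, -12, -19⟩, (.cons (nat_lit 2476098) (nat_lit 71175) (nat_lit 1802349)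
 (nat_lit 1) (.cons (nat_lit 313047) (nat_lit 906125) (nat_lit 1155805) (nat_lit 1) .nil)), (nat_lit 30),
 (nat_lit 25), (nat_lit 23), (nat_lit 1), (10, 33, 32), [568585, 164154], 16⟩,
  ⟨⟨3, 16, -43, -10, 33, 20, 30, 12, -23⟩, (.cons (nat_lit 2150778) (nat_lit 1714614) (nat_lit 1216649)
 (nat_lit 1) (.cons (nat_lit 209222) (nat_lit 1476997) (nat_lit 265110) (nat_lit 1) .nil)), (nat_lit 9),
 (nat_lit 27), (nat_lit 24), (nat_lit 1), (23, 22, 8), [1014784, 118121], 10⟩,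
  ⟨⟨39, -4, -8, 10, 17, -40, 14, -28, -19⟩, (.cons (nat_lit 2476098) (nat_lit 926503) (nat_lit 368225) (nat_lit
 1) (.cons (nat_lit 1554850) (nat_lit 1613946) (nat_lit 285754) (nat_lit 1) .nil)), (nat_lit 30), (nat_lit 24),
 (nat_lit 21), (nat_lit 1), (11, 18, 3), [1086541, 179876], 23⟩,
  ⟨⟨39, 8, -28, 8, -5, 36, 8, 32, -1⟩, (.cons (nat_lit 1531125) (nat_lit 1311046) (nat_lit 1115118) (nat_lit 1)
 (.cons (nat_lit 561018) (nat_lit 663195) (nat_lit 10159) (nat_lit 1) .nil)), (nat_lit 8), (nat_lit 9),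
 (nat_lit 27), (nat_lit 1), (21, 10, 10), [1446815, 1102353], 15⟩,
  mz,
  ⟨⟨-13, -24, -27, 32, 5, -36, -16, 16, -19⟩, (.cons (nat_lit 2185765) (nat_lit 2403838) (nat_lit 1989499)
 (nat_lit 1) (.cons (nat_lit 796793) (nat_lit 623440) (nat_lit 327247) (nat_lit 1) .nil)), (nat_lit 8),
 (nat_lit 19), (nat_lit 17), (nat_lit 1), (6, 8, 33), [493186, 654749], 30⟩,
  ⟨⟨21, 4, -49, -8, -35, -6, 32, -8, -13⟩, (.cons (nat_lit 1614083) (nat_lit 861270) (nat_lit 761646) (nat_lit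
 1) (.cons (nat_lit 269102) (nat_lit 1406390) (nat_lit 1191970) (nat_lit 1) .nil)), (nat_lit 25), (nat_lit 25),
 (nat_lit 29), (nat_lit 1), (36, 18, 2), [1463204, 1126172], 15⟩,
  ⟨⟨39, -8, -11, -8, -5, 44, 8, -32, -7⟩, (.cons (nat_lit 1403314) (nat_lit 2200850) (nat_lit 421123) (nat_lit
 1) (.cons (nat_lit 460752) (nat_lit 665154) (nat_lit 1172797) (nat_lit 1) .nil)), (nat_lit 14), (nat_lit 28),
 (nat_lit 24), (nat_lit 1), (5, 17, 20), [2223719, 1248849], 20⟩,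
  ⟨⟨39, 4, -8, -10, 17, 40, 14, 28, -19⟩, (.cons (nat_lit 2476098) (nat_lit 1752553) (nat_lit 2163984) (nat_lit
 1) (.cons (nat_lit 448528) (nat_lit 502940) (nat_lit 1378481) (nat_lit 1) .nil)), (nat_lit 30), (nat_lit 20),
 (nat_lit 26), (nat_lit 1), (29, 3, 18), [1068906, 1274331], 26⟩,
  ⟨⟨39, -8, -28, -8, -5, -36, 8, -32, -1⟩, (.cons (nat_lit 2186169) (nat_lit 833909) (nat_lit 1509106) (nat_lit
 1) (.cons (nat_lit 1371082) (nat_lit 881345) (nat_lit 452127) (nat_lit 1) .nil)), (nat_lit 8), (nat_lit 29),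
 (nat_lit 18), (nat_lit 1), (22, 23, 14), [2149359, 10396], 15⟩,
  ⟨⟨-39, -4, 31, -10, 17, -30, -14, -28, -5⟩, (.cons (nat_lit 648675) (nat_lit 2178333) (nat_lit 2447264)
 (nat_lit 1) (.cons (nat_lit 1696794) (nat_lit 1439871) (nat_lit 1621085) (nat_lit 1) .nil)), (nat_lit 17),
 (nat_lit 29), (nat_lit 5), (nat_lit 1), (22, 36, 6), [161214, 1618438], 7⟩,
  ⟨⟨13, -24, -40, -32, 5, -4, 16, 16, -35⟩, (.cons (nat_lit 2316296) (nat_lit 1040887) (nat_lit 1003595)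
 (nat_lit 1) (.cons (nat_lit 790175) (nat_lit 546003) (nat_lit 1464450) (nat_lit 1) .nil)), (nat_lit 24),
 (nat_lit 22), (nat_lit 13), (nat_lit 1), (27, 36, 19), [439937, 620026], 9⟩,
  ⟨⟨39, 8, -11, 8, -5, -44, 8, 32, -7⟩, (.cons (nat_lit 655603) (nat_lit 927225) (nat_lit 488529) (nat_lit 1)
 (.cons (nat_lit 425268) (nat_lit 1360462) (nat_lit 1420042) (nat_lit 1) .nil)), (nat_lit 20), (nat_lit 29),
 (nat_lit 16), (nat_lit 1), (4, 16, 16), [1140834, 517079], 2⟩,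
  mz,
  ⟨⟨13, 24, -40, -32, -5, -4, 16, -16, -35⟩, (.cons (nat_lit 1774987) (nat_lit 1735811) (nat_lit 1099286)
 (nat_lit 1) (.cons (nat_lit 1860152) (nat_lit 1054636) (nat_lit 705457) (nat_lit 1) .nil)), (nat_lit 16),
 (nat_lit 26), (nat_lit 9), (nat_lit 1), (24, 32, 21), [128515, 1551364], 6⟩,
  ⟨⟨1, 24, -37, 30, 17, 0, 18, -12, -37⟩, (.cons (nat_lit 2097731) (nat_lit 1390065) (nat_lit 1190910) (nat_lit
 1) (.cons (nat_lit 946131) (nat_lit 1605321) (nat_lit 295916) (nat_lit 1) .nil)), (nat_lit 12), (nat_lit 18),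
 (nat_lit 5), (nat_lit 1), (23, 24, 7), [377586, 617443], 28⟩,
  ⟨⟨3, 16, 40, -10, 33, -10, 30, 12, -7⟩, (.cons (nat_lit 1848730) (nat_lit 806207) (nat_lit 244311) (nat_lit
 1) (.cons (nat_lit 1234046) (nat_lit 1538614) (nat_lit 1559607) (nat_lit 1) .nil)), (nat_lit 21), (nat_lit
 12), (nat_lit 18), (nat_lit 1), (14, 15, 29), [744535, 1166116], 23⟩,
  ⟨⟨3, -16, 40, 10, 33, 10, 30, -12, -7⟩, (.cons (nat_lit 776651) (nat_lit 2061868) (nat_lit 1560008) (nat_lit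
 1) (.cons (nat_lit 467981) (nat_lit 691966) (nat_lit 1571107) (nat_lit 1) .nil)), (nat_lit 3), (nat_lit 26),
 (nat_lit 8), (nat_lit 1), (16, 4, 12), [1357694, 90467], 21⟩,
  mz,
  ⟨⟨-35, -12, -1, 12, -35, -6, 0, 0, -37⟩, (.cons (nat_lit 1125846) (nat_lit 623262) (nat_lit 1807016) (nat_lit
 1) (.cons (nat_lit 1066550) (nat_lit 1394035) (nat_lit 434693) (nat_lit 1) .nil)), (nat_lit 1), (nat_lit 20),
 (nat_lit 22), (nat_lit 1), (23, 27, 0), [852597, 1839414], 30⟩,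
  ⟨⟨-39, 4, 31, -10, -17, -30, -14, 28, -5⟩, (.cons (nat_lit 1040309) (nat_lit 249979) (nat_lit 768886)
 (nat_lit 1) (.cons (nat_lit 603834) (nat_lit 328847) (nat_lit 657138) (nat_lit 1) .nil)), (nat_lit 11),
 (nat_lit 28), (nat_lit 25), (nat_lit 1), (3, 15, 21), [216027, 870269], 11⟩,
  mz,
  mz,
  ⟨⟨-3, -40, 8, -32, 5, 36, -16, -16, -19⟩, (.cons (nat_lit 2350468) (nat_lit 2410408) (nat_lit 2158464)
 (nat_lit 1) (.cons (nat_lit 10120) (nat_lit 1414793) (nat_lit 811351) (nat_lit 1) .nil)), (nat_lit 22),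
 (nat_lit 12), (nat_lit 24), (nat_lit 1), (32, 33, 35), [2442511, 1794862], 16⟩,
  mz,
  ⟨⟨21, -4, -49, -8, 35, -6, 32, 8, -13⟩, (.cons (nat_lit 832473) (nat_lit 1008802) (nat_lit 1928562) (nat_lit
 1) (.cons (nat_lit 1467484) (nat_lit 742414) (nat_lit 558328) (nat_lit 1) .nil)), (nat_lit 6), (nat_lit 0),
 (nat_lit 0), (nat_lit 1), (18, 9, 1), [2344635, 1006223], 5⟩,
  ⟨⟨17, 36, 0, 30, -17, 0, 18, 12, -37⟩, (.cons (nat_lit 2476098) (nat_lit 577017) (nat_lit 1190209) (nat_lit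
 1) (.cons (nat_lit 998928) (nat_lit 183848) (nat_lit 1849850) (nat_lit 1) .nil)), (nat_lit 30), (nat_lit 27),
 (nat_lit 19), (nat_lit 1), (35, 3, 24), [2183281, 653671], 16⟩]

/-- Moves. -/
noncomputable def t1_2 : List Mv := [
  mz,
  ⟨⟨3, -16, -43, -10, -33, 20, 30, -12, -23⟩, (.cons (nat_lit 1625666) (nat_lit 1590215) (nat_lit 343744)
 (nat_lit 1) (.cons (nat_lit 298279) (nat_lit 1817436) (nat_lit 1785048) (nat_lit 1) .nil)), (nat_lit 27),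
 (nat_lit 10), (nat_lit 20), (nat_lit 1), (25, 3, 28), [663622, 24429], 15⟩,
  mz,
  mz,
  ⟨⟨21, 4, 28, 8, 35, -14, 32, -8, -19⟩, (.cons (nat_lit 2476098) (nat_lit 1135118) (nat_lit 1812851) (nat_lit
 1) (.cons (nat_lit 1425476) (nat_lit 1018043) (nat_lit 1761999) (nat_lit 1) .nil)), (nat_lit 30), (nat_lit 7),
 (nat_lit 16), (nat_lit 1), (33, 2, 8), [1872616, 1716966], 27⟩,
  ⟨⟨21, -4, 28, -8, 35, 14, 32, 8, -19⟩, (.cons (nat_lit 2476098) (nat_lit 677530) (nat_lit 2266789) (nat_lit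
 1) (.cons (nat_lit 1028292) (nat_lit 691621) (nat_lit 580498) (nat_lit 1) .nil)), (nat_lit 0), (nat_lit 28),
 (nat_lit 1), (nat_lit 0), (15, 26, 7), [536233, 809546], 13⟩,
  mz,
  ⟨⟨-1, -24, -36, 30, 17, -30, -18, 12, -19⟩, (.cons (nat_lit 1071305) (nat_lit 1808001) (nat_lit 1888655)
 (nat_lit 1) (.cons (nat_lit 1499386) (nat_lit 885095) (nat_lit 110208) (nat_lit 1) .nil)), (nat_lit 29),
 (nat_lit 27), (nat_lit 11), (nat_lit 1), (13, 17, 12), [1381269, 466968], 27⟩,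
  ⟨⟨-35, 12, -1, -12, -35, 6, 0, 0, -37⟩, (.cons (nat_lit 252093) (nat_lit 874679) (nat_lit 1752938) (nat_lit
 1) (.cons (nat_lit 799824) (nat_lit 112697) (nat_lit 541824) (nat_lit 1) .nil)), (nat_lit 1), (nat_lit 11),
 (nat_lit 9), (nat_lit 1), (3, 19, 0), [707589, 974124], 30⟩,
  mz,
  ⟨⟨-1, 24, -36, 30, -17, -30, -18, -12, -19⟩, (.cons (nat_lit 2476098) (nat_lit 71175) (nat_lit 1802349)
 (nat_lit 1) (.cons (nat_lit 313047) (nat_lit 906125) (nat_lit 1155805) (nat_lit 1) .nil)), (nat_lit 30),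
 (nat_lit 25), (nat_lit 23), (nat_lit 1), (10, 33, 32), [568585, 164154], 16⟩,
  ⟨⟨27, -4, 20, -10, 33, 20, 30, 12, -23⟩, (.cons (nat_lit 2476098) (nat_lit 2192877) (nat_lit 12831) (nat_lit
 1) (.cons (nat_lit 1222104) (nat_lit 935258) (nat_lit 281482) (nat_lit 1) .nil)), (nat_lit 30), (nat_lit 14),
 (nat_lit 20), (nat_lit 1), (22, 22, 8), [809200, 1171226], 12⟩,
  ⟨⟨39, -4, -8, 10, 17, -40, 14, -28, -19⟩, (.cons (nat_lit 2476098) (nat_lit 926503) (nat_lit 368225) (nat_lit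
 1) (.cons (nat_lit 1554850) (nat_lit 1613946) (nat_lit 285754) (nat_lit 1) .nil)), (nat_lit 30), (nat_lit 24),
 (nat_lit 21), (nat_lit 1), (11, 18, 3), [1086541, 179876], 23⟩,
  ⟨⟨-31, 24, 27, 8, -5, 36, 8, 32, -1⟩, (.cons (nat_lit 2476098) (nat_lit 1176191) (nat_lit 1932222) (nat_lit
 1) (.cons (nat_lit 384092) (nat_lit 900727) (nat_lit 1038712) (nat_lit 1) .nil)), (nat_lit 30), (nat_lit 10),
 (nat_lit 19), (nat_lit 1), (26, 10, 10), [1642217, 604956], 1⟩,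
  mz,
  ⟨⟨-3, 40, 8, 32, 5, -36, -16, 16, -19⟩, (.cons (nat_lit 1915884) (nat_lit 1745728) (nat_lit 714412) (nat_lit
 1) (.cons (nat_lit 798622) (nat_lit 669341) (nat_lit 1419928) (nat_lit 1) .nil)), (nat_lit 7), (nat_lit 20),
 (nat_lit 9), (nat_lit 1), (27, 8, 33), [1838232, 1800850], 16⟩,
  ⟨⟨11, -12, 36, 8, 35, 6, 32, -8, -13⟩, (.cons (nat_lit 936200) (nat_lit 761073) (nat_lit 1) (nat_lit 379240)
 (.cons (nat_lit 1621980) (nat_lit 49080) (nat_lit 836361) (nat_lit 1) .nil)), (nat_lit 5), (nat_lit 13),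
 (nat_lit 1), (nat_lit 1), (3, 19, 2), [979232, 975839], 17⟩,
  ⟨⟨-31, -24, 4, 8, 5, -44, 8, -32, -7⟩, (.cons (nat_lit 986843) (nat_lit 2301207) (nat_lit 1333898) (nat_lit
 1) (.cons (nat_lit 1364433) (nat_lit 834607) (nat_lit 929046) (nat_lit 1) .nil)), (nat_lit 4), (nat_lit 26),
 (nat_lit 16), (nat_lit 1), (15, 20, 20), [2312288, 329236], 8⟩,
  ⟨⟨39, 4, -8, 10, -17, -40, 14, 28, -19⟩, (.cons (nat_lit 1684716) (nat_lit 2203367) (nat_lit 1085501)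
 (nat_lit 1) (.cons (nat_lit 101959) (nat_lit 470110) (nat_lit 1640323) (nat_lit 1) .nil)), (nat_lit 7),
 (nat_lit 22), (nat_lit 12), (nat_lit 1), (29, 34, 18), [1548347, 770684], 8⟩,
  ⟨⟨39, -8, -28, -8, -5, -36, 8, -32, -1⟩, (.cons (nat_lit 2186169) (nat_lit 833909) (nat_lit 1509106) (nat_lit
 1) (.cons (nat_lit 1371082) (nat_lit 881345) (nat_lit 452127) (nat_lit 1) .nil)), (nat_lit 8), (nat_lit 29),
 (nat_lit 18), (nat_lit 1), (22, 23, 14), [2149359, 10396], 15⟩,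
  ⟨⟨25, -24, -36, 10, -17, 30, -14, -28, -5⟩, (.cons (nat_lit 1551943) (nat_lit 1378874) (nat_lit 1640097)
 (nat_lit 1) (.cons (nat_lit 519200) (nat_lit 1049435) (nat_lit 1448368) (nat_lit 1) .nil)), (nat_lit 9),
 (nat_lit 8), (nat_lit 7), (nat_lit 1), (21, 1, 6), [1348243, 1382213], 28⟩,
  ⟨⟨3, 40, 5, -32, 5, -4, 16, 16, -35⟩, (.cons (nat_lit 1723362) (nat_lit 2386159) (nat_lit 857274) (nat_lit 1)
 (.cons (nat_lit 149043) (nat_lit 1528479) (nat_lit 979583) (nat_lit 1) .nil)), (nat_lit 8), (nat_lit 24),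
 (nat_lit 7), (nat_lit 1), (29, 36, 19), [1472617, 923992], 30⟩,
  ⟨⟨39, 8, -11, 8, -5, -44, 8, 32, -7⟩, (.cons (nat_lit 655603) (nat_lit 927225) (nat_lit 488529) (nat_lit 1)
 (.cons (nat_lit 425268) (nat_lit 1360462) (nat_lit 1420042) (nat_lit 1) .nil)), (nat_lit 20), (nat_lit 29),
 (nat_lit 16), (nat_lit 1), (4, 16, 16), [1140834, 517079], 2⟩,
  mz,
  ⟨⟨3, -40, 5, 32, 5, 4, 16, -16, -35⟩, (.cons (nat_lit 1998614) (nat_lit 460156) (nat_lit 1645804) (nat_lit 1)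
 (.cons (nat_lit 1633914) (nat_lit 1478712) (nat_lit 1474048) (nat_lit 1) .nil)), (nat_lit 4), (nat_lit 28),
 (nat_lit 3), (nat_lit 1), (34, 5, 21), [149065, 357720], 15⟩,
  ⟨⟨1, 24, -37, -30, -17, 0, 18, -12, -37⟩, (.cons (nat_lit 680014) (nat_lit 808797) (nat_lit 2419152) (nat_lit
 1) (.cons (nat_lit 331579) (nat_lit 1579701) (nat_lit 232118) (nat_lit 1) .nil)), (nat_lit 12), (nat_lit 28),
 (nat_lit 28), (nat_lit 1), (23, 13, 7), [486842, 853811], 13⟩,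
  ⟨⟨27, -4, -47, -10, 33, -10, 30, 12, -7⟩, (.cons (nat_lit 370388) (nat_lit 800245) (nat_lit 2327533) (nat_lit
 1) (.cons (nat_lit 274365) (nat_lit 283126) (nat_lit 1229669) (nat_lit 1) .nil)), (nat_lit 11), (nat_lit 17),
 (nat_lit 3), (nat_lit 1), (15, 15, 29), [376696, 653075], 8⟩,
  ⟨⟨27, 4, -47, 10, 33, 10, 30, -12, -7⟩, (.cons (nat_lit 503682) (nat_lit 880692) (nat_lit 1081068) (nat_lit
 1) (.cons (nat_lit 699829) (nat_lit 70715) (nat_lit 1699014) (nat_lit 1) .nil)), (nat_lit 23), (nat_lit 18),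
 (nat_lit 5), (nat_lit 1), (33, 4, 12), [39153, 1764046], 1⟩,
  mz,
  ⟨⟨-35, -12, -1, 12, -35, -6, 0, 0, -37⟩, (.cons (nat_lit 1125846) (nat_lit 623262) (nat_lit 1807016) (nat_lit
 1) (.cons (nat_lit 1066550) (nat_lit 1394035) (nat_lit 434693) (nat_lit 1) .nil)), (nat_lit 1), (nat_lit 20),
 (nat_lit 22), (nat_lit 1), (23, 27, 0), [852597, 1839414], 30⟩,
  ⟨⟨-39, 4, 31, -10, -17, -30, -14, 28, -5⟩, (.cons (nat_lit 1040309) (nat_lit 249979) (nat_lit 768886)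
 (nat_lit 1) (.cons (nat_lit 603834) (nat_lit 328847) (nat_lit 657138) (nat_lit 1) .nil)), (nat_lit 11),
 (nat_lit 28), (nat_lit 25), (nat_lit 1), (3, 15, 21), [216027, 870269], 11⟩,
  mz,
  mz,
  ⟨⟨-13, 24, -27, -32, 5, 36, -16, -16, -19⟩, (.cons (nat_lit 1126685) (nat_lit 1249665) (nat_lit 1937014)
 (nat_lit 1) (.cons (nat_lit 737369) (nat_lit 187808) (nat_lit 514428) (nat_lit 1) .nil)), (nat_lit 4),
 (nat_lit 17), (nat_lit 25), (nat_lit 1), (3, 33, 35), [828372, 1831066], 15⟩,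
  mz,
  ⟨⟨21, -4, -49, -8, 35, -6, 32, 8, -13⟩, (.cons (nat_lit 832473) (nat_lit 1008802) (nat_lit 1928562) (nat_lit
 1) (.cons (nat_lit 1467484) (nat_lit 742414) (nat_lit 558328) (nat_lit 1) .nil)), (nat_lit 6), (nat_lit 0),
 (nat_lit 0), (nat_lit 1), (18, 9, 1), [2344635, 1006223], 5⟩,
  ⟨⟨17, 36, 0, 30, -17, 0, 18, 12, -37⟩, (.cons (nat_lit 2476098) (nat_lit 577017) (nat_lit 1190209) (nat_lit
 1) (.cons (nat_lit 998928) (nat_lit 183848) (nat_lit 1849850) (nat_lit 1) .nil)), (nat_lit 30), (nat_lit 27),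
 (nat_lit 19), (nat_lit 1), (35, 3, 24), [2183281, 653671], 16⟩]

/-- Moves. -/
noncomputable def t1_8 : List Mv := [
  mz,
  ⟨⟨3, -16, -43, 10, 33, -20, 30, -12, -23⟩, (.cons (nat_lit 2336446) (nat_lit 423645) (nat_lit 647601)
 (nat_lit 1) (.cons (nat_lit 613252) (nat_lit 1059658) (nat_lit 579005) (nat_lit 1) .nil)), (nat_lit 9),
 (nat_lit 12), (nat_lit 23), (nat_lit 1), (25, 34, 28), [1566354, 1167854], 10⟩,
  mz,
  mz,
  ⟨⟨21, 4, 28, 8, 35, -14, 32, -8, -19⟩, (.cons (nat_lit 2476098) (nat_lit 1135118) (nat_lit 1812851) (nat_lit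
 1) (.cons (nat_lit 1425476) (nat_lit 1018043) (nat_lit 1761999) (nat_lit 1) .nil)), (nat_lit 30), (nat_lit 7),
 (nat_lit 16), (nat_lit 1), (33, 2, 8), [1872616, 1716966], 27⟩,
  ⟨⟨21, -4, 28, -8, 35, 14, 32, 8, -19⟩, (.cons (nat_lit 2476098) (nat_lit 677530) (nat_lit 2266789) (nat_lit
 1) (.cons (nat_lit 1028292) (nat_lit 691621) (nat_lit 580498) (nat_lit 1) .nil)), (nat_lit 0), (nat_lit 28),
 (nat_lit 1), (nat_lit 0), (15, 26, 7), [536233, 809546], 13⟩,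
  mz,
  ⟨⟨-17, 36, 17, 30, 17, -30, -18, 12, -19⟩, (.cons (nat_lit 1846885) (nat_lit 1052546) (nat_lit 356568)
 (nat_lit 1) (.cons (nat_lit 1077690) (nat_lit 505820) (nat_lit 768019) (nat_lit 1) .nil)), (nat_lit 13),
 (nat_lit 14), (nat_lit 28), (nat_lit 1), (36, 17, 12), [633018, 1547512], 20⟩,
  ⟨⟨35, -12, -36, -12, -35, 6, 0, 0, -37⟩, (.cons (nat_lit 832371) (nat_lit 943376) (nat_lit 1) (nat_lit
 1643728) (.cons (nat_lit 731556) (nat_lit 1867561) (nat_lit 1731340) (nat_lit 1) .nil)), (nat_lit 30),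
 (nat_lit 3), (nat_lit 6), (nat_lit 1), (34, 19, 0), [2074123, 815939], 10⟩,
  mz,
  ⟨⟨-17, -36, 17, 30, -17, -30, -18, -12, -19⟩, (.cons (nat_lit 2008115) (nat_lit 133811) (nat_lit 2444788)
 (nat_lit 1) (.cons (nat_lit 1058738) (nat_lit 929056) (nat_lit 756525) (nat_lit 1) .nil)), (nat_lit 13),
 (nat_lit 8), (nat_lit 8), (nat_lit 1), (22, 33, 32), [132631, 1425120], 27⟩,
  ⟨⟨27, -4, 20, -10, 33, 20, 30, 12, -23⟩, (.cons (nat_lit 2476098) (nat_lit 2192877) (nat_lit 12831) (nat_lit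
 1) (.cons (nat_lit 1222104) (nat_lit 935258) (nat_lit 281482) (nat_lit 1) .nil)), (nat_lit 30), (nat_lit 14),
 (nat_lit 20), (nat_lit 1), (22, 22, 8), [809200, 1171226], 12⟩,
  ⟨⟨-25, -24, -11, -10, -17, 40, 14, -28, -19⟩, (.cons (nat_lit 65997) (nat_lit 383574) (nat_lit 1003564)
 (nat_lit 1) (.cons (nat_lit 390234) (nat_lit 1118274) (nat_lit 1469609) (nat_lit 1) .nil)), (nat_lit 17),
 (nat_lit 20), (nat_lit 9), (nat_lit 1), (29, 19, 3), [590562, 1476147], 17⟩,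
  ⟨⟨-31, 24, 27, -8, 5, -36, 8, 32, -1⟩, (.cons (nat_lit 117261) (nat_lit 363538) (nat_lit 397885) (nat_lit 1)
 (.cons (nat_lit 1807938) (nat_lit 868563) (nat_lit 57845) (nat_lit 1) .nil)), (nat_lit 14), (nat_lit 12),
 (nat_lit 25), (nat_lit 1), (26, 27, 10), [2161880, 1459031], 11⟩,
  mz,
  ⟨⟨-3, 40, 8, 32, 5, -36, -16, 16, -19⟩, (.cons (nat_lit 1915884) (nat_lit 1745728) (nat_lit 714412) (nat_lit
 1) (.cons (nat_lit 798622) (nat_lit 669341) (nat_lit 1419928) (nat_lit 1) .nil)), (nat_lit 7), (nat_lit 20),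
 (nat_lit 9), (nat_lit 1), (27, 8, 33), [1838232, 1800850], 16⟩,
  ⟨⟨21, 4, -49, -8, -35, -6, 32, -8, -13⟩, (.cons (nat_lit 1614083) (nat_lit 861270) (nat_lit 761646) (nat_lit
 1) (.cons (nat_lit 269102) (nat_lit 1406390) (nat_lit 1191970) (nat_lit 1) .nil)), (nat_lit 25), (nat_lit 25),
 (nat_lit 29), (nat_lit 1), (36, 18, 2), [1463204, 1126172], 15⟩,
  ⟨⟨39, -8, -11, 8, 5, -44, 8, -32, -7⟩, (.cons (nat_lit 2476098) (nat_lit 874835) (nat_lit 2164817) (nat_lit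
 1) (.cons (nat_lit 275039) (nat_lit 1783885) (nat_lit 457160) (nat_lit 1) .nil)), (nat_lit 30), (nat_lit 18),
 (nat_lit 26), (nat_lit 1), (5, 20, 20), [1578001, 48182], 24⟩,
  ⟨⟨39, 4, -8, -10, 17, 40, 14, 28, -19⟩, (.cons (nat_lit 2476098) (nat_lit 1752553) (nat_lit 2163984) (nat_lit
 1) (.cons (nat_lit 448528) (nat_lit 502940) (nat_lit 1378481) (nat_lit 1) .nil)), (nat_lit 30), (nat_lit 20),
 (nat_lit 26), (nat_lit 1), (29, 3, 18), [1068906, 1274331], 26⟩,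
  ⟨⟨-31, -24, 27, 8, 5, 36, 8, -32, -1⟩, (.cons (nat_lit 1480241) (nat_lit 1790814) (nat_lit 1693954) (nat_lit
 1) (.cons (nat_lit 19414) (nat_lit 553370) (nat_lit 1403079) (nat_lit 1) .nil)), (nat_lit 20), (nat_lit 8),
 (nat_lit 27), (nat_lit 1), (29, 14, 14), [1676942, 10219], 29⟩,
  ⟨⟨-39, -4, 31, -10, 17, -30, -14, -28, -5⟩, (.cons (nat_lit 648675) (nat_lit 2178333) (nat_lit 2447264)
 (nat_lit 1) (.cons (nat_lit 1696794) (nat_lit 1439871) (nat_lit 1621085) (nat_lit 1) .nil)), (nat_lit 17),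
 (nat_lit 29), (nat_lit 5), (nat_lit 1), (22, 36, 6), [161214, 1618438], 7⟩,
  ⟨⟨3, 40, 5, 32, -5, 4, 16, 16, -35⟩, (.cons (nat_lit 2476098) (nat_lit 1798051) (nat_lit 1962731) (nat_lit 1)
 (.cons (nat_lit 423658) (nat_lit 1295162) (nat_lit 377159) (nat_lit 1) .nil)), (nat_lit 30), (nat_lit 19),
 (nat_lit 18), (nat_lit 1), (29, 1, 19), [1660262, 1616101], 19⟩,
  ⟨⟨-31, 24, 4, -8, 5, 44, 8, 32, -7⟩, (.cons (nat_lit 1006299) (nat_lit 538804) (nat_lit 1942897) (nat_lit 1)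
 (.cons (nat_lit 461521) (nat_lit 1176936) (nat_lit 1089616) (nat_lit 1) .nil)), (nat_lit 4), (nat_lit 8),
 (nat_lit 21), (nat_lit 1), (12, 21, 16), [1690228, 1822483], 8⟩,
  mz,
  ⟨⟨13, 24, -40, -32, -5, -4, 16, -16, -35⟩, (.cons (nat_lit 1774987) (nat_lit 1735811) (nat_lit 1099286)
 (nat_lit 1) (.cons (nat_lit 1860152) (nat_lit 1054636) (nat_lit 705457) (nat_lit 1) .nil)), (nat_lit 16),
 (nat_lit 26), (nat_lit 9), (nat_lit 1), (24, 32, 21), [128515, 1551364], 6⟩,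
  ⟨⟨1, 24, -37, -30, -17, 0, 18, -12, -37⟩, (.cons (nat_lit 680014) (nat_lit 808797) (nat_lit 2419152) (nat_lit
 1) (.cons (nat_lit 331579) (nat_lit 1579701) (nat_lit 232118) (nat_lit 1) .nil)), (nat_lit 12), (nat_lit 28),
 (nat_lit 28), (nat_lit 1), (23, 13, 7), [486842, 853811], 13⟩,
  ⟨⟨27, -4, -47, -10, 33, -10, 30, 12, -7⟩, (.cons (nat_lit 370388) (nat_lit 800245) (nat_lit 2327533) (nat_lit
 1) (.cons (nat_lit 274365) (nat_lit 283126) (nat_lit 1229669) (nat_lit 1) .nil)), (nat_lit 11), (nat_lit 17),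
 (nat_lit 3), (nat_lit 1), (15, 15, 29), [376696, 653075], 8⟩,
  ⟨⟨27, 4, -47, -10, -33, -10, 30, -12, -7⟩, (.cons (nat_lit 2328456) (nat_lit 1821339) (nat_lit 1106352)
 (nat_lit 1) (.cons (nat_lit 3966) (nat_lit 12424) (nat_lit 414996) (nat_lit 1) .nil)), (nat_lit 7), (nat_lit
 28), (nat_lit 18), (nat_lit 1), (33, 33, 12), [2009219, 89427], 6⟩,
  mz,
  ⟨⟨-35, -12, -1, 12, -35, -6, 0, 0, -37⟩, (.cons (nat_lit 1125846) (nat_lit 623262) (nat_lit 1807016) (nat_lit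
 1) (.cons (nat_lit 1066550) (nat_lit 1394035) (nat_lit 434693) (nat_lit 1) .nil)), (nat_lit 1), (nat_lit 20),
 (nat_lit 22), (nat_lit 1), (23, 27, 0), [852597, 1839414], 30⟩,
  ⟨⟨25, 24, -36, -10, -17, -30, -14, 28, -5⟩, (.cons (nat_lit 1849674) (nat_lit 1246389) (nat_lit 2385650)
 (nat_lit 1) (.cons (nat_lit 1440652) (nat_lit 1870662) (nat_lit 1) (nat_lit 305546) .nil)), (nat_lit 7),
 (nat_lit 6), (nat_lit 13), (nat_lit 1), (18, 15, 21), [1312500, 1265421], 8⟩,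
  mz,
  mz,
  ⟨⟨-3, -40, 8, 32, -5, -36, -16, -16, -19⟩, (.cons (nat_lit 1304950) (nat_lit 1181245) (nat_lit 2309455)
 (nat_lit 1) (.cons (nat_lit 1782129) (nat_lit 882841) (nat_lit 1226847) (nat_lit 1) .nil)), (nat_lit 2),
 (nat_lit 10), (nat_lit 13), (nat_lit 1), (32, 4, 35), [1335807, 1421722], 24⟩,
  mz,
  ⟨⟨11, 12, 36, -8, 35, -6, 32, 8, -13⟩, (.cons (nat_lit 1984265) (nat_lit 2353978) (nat_lit 1037568) (nat_lit
 1) (.cons (nat_lit 1213719) (nat_lit 643017) (nat_lit 1869) (nat_lit 1) .nil)), (nat_lit 25), (nat_lit 16),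
 (nat_lit 6), (nat_lit 1), (20, 9, 1), [2235136, 1122014], 23⟩,
  ⟨⟨1, -24, -37, 30, -17, 0, 18, 12, -37⟩, (.cons (nat_lit 1832041) (nat_lit 1890586) (nat_lit 772557) (nat_lit
 1) (.cons (nat_lit 614875) (nat_lit 167559) (nat_lit 862688) (nat_lit 1) .nil)), (nat_lit 12), (nat_lit 14),
 (nat_lit 25), (nat_lit 1), (26, 3, 24), [205053, 234109], 13⟩]

/-- Moves. -/
noncomputable def t4_1 : List Mv := [
  mz,
  ⟨⟨3, 20, 29, -4, 25, -18, 26, 8, -7⟩, (.cons (nat_lit 2146925) (nat_lit 2328311) (nat_lit 1079067) (nat_lit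
 1) (.cons (nat_lit 1309101) (nat_lit 735049) (nat_lit 1482783) (nat_lit 1) .nil)), (nat_lit 6), (nat_lit 0),
 (nat_lit 0), (nat_lit 0), (26, 17, 29), [371267, 1058221], 0⟩,
  ⟨⟨23, 12, -36, 4, 25, 18, 26, -8, -7⟩, (.cons (nat_lit 283787) (nat_lit 724481) (nat_lit 348000) (nat_lit 1)
 (.cons (nat_lit 267387) (nat_lit 644342) (nat_lit 629507) (nat_lit 1) .nil)), (nat_lit 18), (nat_lit 0),
 (nat_lit 0), (nat_lit 0), (1, 15, 20), [362343, 1853076], 0⟩,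
  mz,
  ⟨⟨27, 16, -28, 4, 15, 28, -6, 24, -11⟩, (.cons (nat_lit 2476098) (nat_lit 421500) (nat_lit 1742088) (nat_lit
 1) (.cons (nat_lit 1874160) (nat_lit 367892) (nat_lit 35024) (nat_lit 1) .nil)), (nat_lit 4), (nat_lit 0),
 (nat_lit 0), (nat_lit 0), (15, 16, 7), [1800517, 346071], 0⟩,
  mz,
  ⟨⟨1, -12, 35, -16, -25, -2, 22, -16, -5⟩, (.cons (nat_lit 1490205) (nat_lit 1513184) (nat_lit 637095)
 (nat_lit 1) (.cons (nat_lit 93845) (nat_lit 844256) (nat_lit 384529) (nat_lit 1) .nil)), (nat_lit 2), (nat_lit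
 0), (nat_lit 0), (nat_lit 0), (1, 15, 22), [17084, 520529], 0⟩,
  mz,
  ⟨⟨-31, 0, 0, 10, 19, -30, -4, -20, -19⟩, (.cons (nat_lit 2476098) (nat_lit 1775461) (nat_lit 179729) (nat_lit
 1) (.cons (nat_lit 1874160) (nat_lit 961501) (nat_lit 400) (nat_lit 1) .nil)), (nat_lit 8), (nat_lit 0),
 (nat_lit 0), (nat_lit 0), (0, 5, 29), [2386572, 799851], 0⟩,
  mz,
  mz,
  mz,
  mz,
  ⟨⟨-31, 0, 0, 10, -19, -30, -4, 20, -19⟩, (.cons (nat_lit 1302171) (nat_lit 1347431) (nat_lit 2421556)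
 (nat_lit 1) (.cons (nat_lit 7197) (nat_lit 1834472) (nat_lit 232268) (nat_lit 1) .nil)), (nat_lit 8), (nat_lit
 0), (nat_lit 0), (nat_lit 0), (0, 3, 5), [1901150, 696122], 0⟩,
  ⟨⟨27, -16, -28, -4, 15, -28, -6, -24, -11⟩, (.cons (nat_lit 2476098) (nat_lit 2333132) (nat_lit 1523590)
 (nat_lit 1) (.cons (nat_lit 1874160) (nat_lit 1646261) (nat_lit 967866) (nat_lit 1) .nil)), (nat_lit 14),
 (nat_lit 0), (nat_lit 0), (nat_lit 0), (28, 28, 11), [1747422, 1779292], 0⟩,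
  ⟨⟨23, -12, 13, 4, -25, -22, 26, 8, -19⟩, (.cons (nat_lit 66938) (nat_lit 489972) (nat_lit 1059240) (nat_lit
 1) (.cons (nat_lit 490870) (nat_lit 1470323) (nat_lit 826664) (nat_lit 1) .nil)), (nat_lit 18), (nat_lit 0),
 (nat_lit 0), (nat_lit 0), (25, 3, 4), [1987203, 928183], 0⟩,
  mz,
  mz,
  ⟨⟨1, -12, -36, 16, 25, -18, 22, -16, -17⟩, (.cons (nat_lit 2277137) (nat_lit 1206949) (nat_lit 1) (nat_lit
 2040486) (.cons (nat_lit 1813412) (nat_lit 516358) (nat_lit 280140) (nat_lit 1) .nil)), (nat_lit 1), (nat_lit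
 0), (nat_lit 0), (nat_lit 0), (21, 26, 28), [335339, 1615482], 0⟩,
  ⟨⟨-9, 8, -31, -10, -29, 0, 20, -4, -31⟩, (.cons (nat_lit 966097) (nat_lit 1343264) (nat_lit 1566674) (nat_lit
 1) (.cons (nat_lit 1858184) (nat_lit 1795458) (nat_lit 1039876) (nat_lit 1) .nil)), (nat_lit 20), (nat_lit 0),
 (nat_lit 0), (nat_lit 0), (2, 16, 30), [870050, 41895], 0⟩,
  ⟨⟨-29, -12, 29, -10, 29, 10, -20, -4, -11⟩, (.cons (nat_lit 455659) (nat_lit 2263762) (nat_lit 1) (nat_lit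
 81016) (.cons (nat_lit 520407) (nat_lit 1850470) (nat_lit 608845) (nat_lit 1) .nil)), (nat_lit 24), (nat_lit
 0), (nat_lit 0), (nat_lit 0), (6, 1, 2), [1282986, 1116728], 0⟩,
  ⟨⟨33, 8, -16, 4, -15, -32, 6, 24, -17⟩, (.cons (nat_lit 1785474) (nat_lit 2453711) (nat_lit 769318) (nat_lit
 1) (.cons (nat_lit 654040) (nat_lit 1414913) (nat_lit 431632) (nat_lit 1) .nil)), (nat_lit 27), (nat_lit 0),
 (nat_lit 0), (nat_lit 0), (1, 2, 3), [452753, 1316680], 0⟩,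
  ⟨⟨9, -8, -40, 10, 29, -10, -20, 4, -11⟩, (.cons (nat_lit 621826) (nat_lit 75704) (nat_lit 2403022) (nat_lit
 1) (.cons (nat_lit 795842) (nat_lit 1071400) (nat_lit 350138) (nat_lit 1) .nil)), (nat_lit 20), (nat_lit 0),
 (nat_lit 0), (nat_lit 0), (18, 20, 22), [1243676, 1058336], 0⟩,
  ⟨⟨3, -20, -32, 4, 25, -22, 26, -8, -19⟩, (.cons (nat_lit 1343830) (nat_lit 648420) (nat_lit 1547633) (nat_lit
 1) (.cons (nat_lit 1566465) (nat_lit 1520103) (nat_lit 1) (nat_lit 1287156) .nil)), (nat_lit 26), (nat_lit 0),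
 (nat_lit 0), (nat_lit 0), (3, 4, 26), [2303271, 608620], 0⟩,
  ⟨⟨-9, -8, -31, -10, 29, 0, 20, 4, -31⟩, (.cons (nat_lit 618184) (nat_lit 1647844) (nat_lit 1883412) (nat_lit
 1) (.cons (nat_lit 1400099) (nat_lit 844031) (nat_lit 113585) (nat_lit 1) .nil)), (nat_lit 20), (nat_lit 0),
 (nat_lit 0), (nat_lit 0), (24, 6, 19), [1857109, 259609], 0⟩,
  ⟨⟨-27, -20, 8, -10, 19, -20, 4, -20, -23⟩, (.cons (nat_lit 2476098) (nat_lit 1024455) (nat_lit 335298)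
 (nat_lit 1) (.cons (nat_lit 1874160) (nat_lit 1073988) (nat_lit 475030) (nat_lit 1) .nil)), (nat_lit 25),
 (nat_lit 0), (nat_lit 0), (nat_lit 0), (16, 22, 16), [2469892, 951024], 0⟩,
  ⟨⟨1, 12, 35, -16, 25, -2, 22, 16, -5⟩, (.cons (nat_lit 2391048) (nat_lit 1089591) (nat_lit 1090608) (nat_lit
 1) (.cons (nat_lit 746218) (nat_lit 194961) (nat_lit 612979) (nat_lit 1) .nil)), (nat_lit 2), (nat_lit 0),
 (nat_lit 0), (nat_lit 0), (30, 16, 9), [443010, 424550], 0⟩,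
  ⟨⟨-27, -16, -1, 4, 15, -32, 6, -24, -17⟩, (.cons (nat_lit 182137) (nat_lit 1708625) (nat_lit 1900833)
 (nat_lit 1) (.cons (nat_lit 880871) (nat_lit 938176) (nat_lit 1856170) (nat_lit 1) .nil)), (nat_lit 14),
 (nat_lit 0), (nat_lit 0), (nat_lit 0), (15, 15, 7), [1088579, 138536], 0⟩,
  ⟨⟨1, 12, -36, 16, -25, -18, 22, 16, -17⟩, (.cons (nat_lit 2217532) (nat_lit 1582221) (nat_lit 4241) (nat_lit
 1) (.cons (nat_lit 511448) (nat_lit 1862799) (nat_lit 984797) (nat_lit 1) .nil)), (nat_lit 1), (nat_lit 0),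
 (nat_lit 0), (nat_lit 0), (19, 25, 15), [2163480, 1687346], 0⟩,
  ⟨⟨31, 0, -31, 10, 19, 20, 4, 20, -23⟩, (.cons (nat_lit 2366999) (nat_lit 798516) (nat_lit 2222897) (nat_lit
 1) (.cons (nat_lit 318538) (nat_lit 72962) (nat_lit 594209) (nat_lit 1) .nil)), (nat_lit 13), (nat_lit 0),
 (nat_lit 0), (nat_lit 0), (0, 11, 23), [1390004, 1771088], 0⟩]

/-- Moves. -/
noncomputable def t4_2 : List Mv := [
  mz,
  ⟨⟨23, -12, -36, -4, 25, -18, 26, 8, -7⟩, (.cons (nat_lit 1893203) (nat_lit 173585) (nat_lit 915134) (nat_lit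
 1) (.cons (nat_lit 1226229) (nat_lit 1775185) (nat_lit 887422) (nat_lit 1) .nil)), (nat_lit 28), (nat_lit 0),
 (nat_lit 0), (nat_lit 0), (3, 17, 29), [404829, 1080281], 0⟩,
  ⟨⟨3, -20, 29, -4, -25, -18, 26, -8, -7⟩, (.cons (nat_lit 355705) (nat_lit 2333702) (nat_lit 2131802) (nat_lit
 1) (.cons (nat_lit 1819421) (nat_lit 1511502) (nat_lit 415269) (nat_lit 1) .nil)), (nat_lit 6), (nat_lit 0),
 (nat_lit 0), (nat_lit 0), (19, 16, 20), [507579, 1792411], 0⟩,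
  mz,
  ⟨⟨-33, 8, 17, -4, -15, -28, -6, 24, -11⟩, (.cons (nat_lit 1502169) (nat_lit 321559) (nat_lit 1314947)
 (nat_lit 1) (.cons (nat_lit 1140527) (nat_lit 416166) (nat_lit 1402780) (nat_lit 1) .nil)), (nat_lit 27),
 (nat_lit 0), (nat_lit 0), (nat_lit 0), (23, 15, 7), [471945, 1477658], 0⟩,
  mz,
  ⟨⟨1, -12, 35, 16, 25, 2, 22, -16, -5⟩, (.cons (nat_lit 407874) (nat_lit 728656) (nat_lit 747593) (nat_lit 1)
 (.cons (nat_lit 1571677) (nat_lit 1345642) (nat_lit 1419096) (nat_lit 1) .nil)), (nat_lit 1), (nat_lit 0),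
 (nat_lit 0), (nat_lit 0), (1, 16, 22), [332203, 693564], 0⟩,
  mz,
  ⟨⟨-31, 0, 0, -10, -19, 30, -4, -20, -19⟩, (.cons (nat_lit 1094872) (nat_lit 262566) (nat_lit 1523913)
 (nat_lit 1) (.cons (nat_lit 554410) (nat_lit 1328350) (nat_lit 26269) (nat_lit 1) .nil)), (nat_lit 13),
 (nat_lit 0), (nat_lit 0), (nat_lit 0), (0, 26, 29), [2173728, 519570], 0⟩,
  mz,
  mz,
  mz,
  mz,
  ⟨⟨-31, 0, 0, 10, -19, -30, -4, 20, -19⟩, (.cons (nat_lit 1302171) (nat_lit 1347431) (nat_lit 2421556)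
 (nat_lit 1) (.cons (nat_lit 7197) (nat_lit 1834472) (nat_lit 232268) (nat_lit 1) .nil)), (nat_lit 8), (nat_lit
 0), (nat_lit 0), (nat_lit 0), (0, 3, 5), [1901150, 696122], 0⟩,
  ⟨⟨-33, -8, 17, -4, 15, -28, -6, -24, -11⟩, (.cons (nat_lit 1570610) (nat_lit 204455) (nat_lit 2387655)
 (nat_lit 1) (.cons (nat_lit 1256776) (nat_lit 710227) (nat_lit 778712) (nat_lit 1) .nil)), (nat_lit 27),
 (nat_lit 0), (nat_lit 0), (nat_lit 0), (14, 28, 11), [2472940, 341508], 0⟩,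
  ⟨⟨3, 20, -32, 4, -25, -22, 26, 8, -19⟩, (.cons (nat_lit 1146787) (nat_lit 928824) (nat_lit 1371452) (nat_lit
 1) (.cons (nat_lit 1557660) (nat_lit 747968) (nat_lit 1745545) (nat_lit 1) .nil)), (nat_lit 26), (nat_lit 0),
 (nat_lit 0), (nat_lit 0), (10, 3, 4), [2059531, 1427828], 0⟩,
  mz,
  mz,
  ⟨⟨21, -4, 19, -16, -25, 18, 22, -16, -17⟩, (.cons (nat_lit 456875) (nat_lit 724793) (nat_lit 894055) (nat_lit
 1) (.cons (nat_lit 1352613) (nat_lit 1060278) (nat_lit 1714466) (nat_lit 1) .nil)), (nat_lit 15), (nat_lit 0),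
 (nat_lit 0), (nat_lit 0), (7, 5, 28), [773844, 1309076], 0⟩,
  ⟨⟨29, -12, 0, -10, -29, 0, 20, -4, -31⟩, (.cons (nat_lit 2476098) (nat_lit 1434828) (nat_lit 1513412)
 (nat_lit 1) (.cons (nat_lit 1874160) (nat_lit 726815) (nat_lit 1736151) (nat_lit 1) .nil)), (nat_lit 19),
 (nat_lit 0), (nat_lit 0), (nat_lit 0), (28, 16, 30), [1028215, 1295376], 0⟩,
  ⟨⟨9, 8, -40, 10, -29, -10, -20, -4, -11⟩, (.cons (nat_lit 2476098) (nat_lit 988418) (nat_lit 803901) (nat_lit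
 1) (.cons (nat_lit 1874160) (nat_lit 996125) (nat_lit 1220058) (nat_lit 1) .nil)), (nat_lit 20), (nat_lit 0),
 (nat_lit 0), (nat_lit 0), (27, 30, 2), [453385, 506635], 0⟩,
  ⟨⟨33, 8, -16, -4, 15, 32, 6, 24, -17⟩, (.cons (nat_lit 2476098) (nat_lit 1801611) (nat_lit 2289018) (nat_lit
 1) (.cons (nat_lit 1874160) (nat_lit 1534035) (nat_lit 585342) (nat_lit 1) .nil)), (nat_lit 21), (nat_lit 0),
 (nat_lit 0), (nat_lit 0), (1, 29, 3), [1468882, 1066635], 0⟩,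
  ⟨⟨9, -8, -40, -10, -29, 10, -20, 4, -11⟩, (.cons (nat_lit 2476098) (nat_lit 264135) (nat_lit 1868249)
 (nat_lit 1) (.cons (nat_lit 1874160) (nat_lit 454545) (nat_lit 1108700) (nat_lit 1) .nil)), (nat_lit 22),
 (nat_lit 0), (nat_lit 0), (nat_lit 0), (18, 11, 22), [1461111, 1626600], 0⟩,
  ⟨⟨3, -20, -32, 4, 25, -22, 26, -8, -19⟩, (.cons (nat_lit 1343830) (nat_lit 648420) (nat_lit 1547633) (nat_lit
 1) (.cons (nat_lit 1566465) (nat_lit 1520103) (nat_lit 1) (nat_lit 1287156) .nil)), (nat_lit 26), (nat_lit 0),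
 (nat_lit 0), (nat_lit 0), (3, 4, 26), [2303271, 608620], 0⟩,
  ⟨⟨-9, -8, -31, -10, 29, 0, 20, 4, -31⟩, (.cons (nat_lit 618184) (nat_lit 1647844) (nat_lit 1883412) (nat_lit
 1) (.cons (nat_lit 1400099) (nat_lit 844031) (nat_lit 113585) (nat_lit 1) .nil)), (nat_lit 20), (nat_lit 0),
 (nat_lit 0), (nat_lit 0), (24, 6, 19), [1857109, 259609], 0⟩,
  ⟨⟨-27, -20, 8, -10, 19, -20, 4, -20, -23⟩, (.cons (nat_lit 2476098) (nat_lit 1024455) (nat_lit 335298)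
 (nat_lit 1) (.cons (nat_lit 1874160) (nat_lit 1073988) (nat_lit 475030) (nat_lit 1) .nil)), (nat_lit 25),
 (nat_lit 0), (nat_lit 0), (nat_lit 0), (16, 22, 16), [2469892, 951024], 0⟩,
  ⟨⟨1, 12, 35, -16, 25, -2, 22, 16, -5⟩, (.cons (nat_lit 2391048) (nat_lit 1089591) (nat_lit 1090608) (nat_lit
 1) (.cons (nat_lit 746218) (nat_lit 194961) (nat_lit 612979) (nat_lit 1) .nil)), (nat_lit 2), (nat_lit 0),
 (nat_lit 0), (nat_lit 0), (30, 16, 9), [443010, 424550], 0⟩,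
  ⟨⟨33, -8, -16, 4, 15, -32, 6, -24, -17⟩, (.cons (nat_lit 2476098) (nat_lit 1543539) (nat_lit 489085) (nat_lit
 1) (.cons (nat_lit 1874160) (nat_lit 1257554) (nat_lit 1862791) (nat_lit 1) .nil)), (nat_lit 27), (nat_lit 0),
 (nat_lit 0), (nat_lit 0), (23, 15, 7), [74785, 263117], 0⟩,
  ⟨⟨21, 4, 19, -16, 25, 18, 22, 16, -17⟩, (.cons (nat_lit 2234654) (nat_lit 1875259) (nat_lit 439108) (nat_lit
 1) (.cons (nat_lit 1290108) (nat_lit 1165787) (nat_lit 854886) (nat_lit 1) .nil)), (nat_lit 15), (nat_lit 0),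
 (nat_lit 0), (nat_lit 0), (27, 6, 15), [1584761, 1482152], 0⟩,
  ⟨⟨31, 0, -31, -10, -19, -20, 4, 20, -23⟩, (.cons (nat_lit 989032) (nat_lit 145775) (nat_lit 2458601) (nat_lit
 1) (.cons (nat_lit 435513) (nat_lit 1850201) (nat_lit 1539616) (nat_lit 1) .nil)), (nat_lit 8), (nat_lit 0),
 (nat_lit 0), (nat_lit 0), (0, 20, 23), [624689, 1247922], 0⟩]

/-- Moves. -/
noncomputable def t4_8 : List Mv := [
  mz,
  ⟨⟨3, 20, 29, -4, 25, -18, 26, 8, -7⟩, (.cons (nat_lit 2146925) (nat_lit 2328311) (nat_lit 1079067) (nat_lit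
 1) (.cons (nat_lit 1309101) (nat_lit 735049) (nat_lit 1482783) (nat_lit 1) .nil)), (nat_lit 6), (nat_lit 0),
 (nat_lit 0), (nat_lit 0), (26, 17, 29), [371267, 1058221], 0⟩,
  ⟨⟨3, -20, 29, 4, 25, 18, 26, -8, -7⟩, (.cons (nat_lit 2437233) (nat_lit 1798708) (nat_lit 1707846) (nat_lit
 1) (.cons (nat_lit 872368) (nat_lit 498941) (nat_lit 1723053) (nat_lit 1) .nil)), (nat_lit 26), (nat_lit 0),
 (nat_lit 0), (nat_lit 0), (19, 15, 20), [2147403, 1500131], 0⟩,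
  mz,
  ⟨⟨27, 16, -28, 4, 15, 28, -6, 24, -11⟩, (.cons (nat_lit 2476098) (nat_lit 421500) (nat_lit 1742088) (nat_lit
 1) (.cons (nat_lit 1874160) (nat_lit 367892) (nat_lit 35024) (nat_lit 1) .nil)), (nat_lit 4), (nat_lit 0),
 (nat_lit 0), (nat_lit 0), (15, 16, 7), [1800517, 346071], 0⟩,
  mz,
  ⟨⟨1, -12, 35, -16, -25, -2, 22, -16, -5⟩, (.cons (nat_lit 1490205) (nat_lit 1513184) (nat_lit 637095)
 (nat_lit 1) (.cons (nat_lit 93845) (nat_lit 844256) (nat_lit 384529) (nat_lit 1) .nil)), (nat_lit 2), (nat_lit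
 0), (nat_lit 0), (nat_lit 0), (1, 15, 22), [17084, 520529], 0⟩,
  mz,
  ⟨⟨-31, 0, 0, 10, 19, -30, -4, -20, -19⟩, (.cons (nat_lit 2476098) (nat_lit 1775461) (nat_lit 179729) (nat_lit
 1) (.cons (nat_lit 1874160) (nat_lit 961501) (nat_lit 400) (nat_lit 1) .nil)), (nat_lit 8), (nat_lit 0),
 (nat_lit 0), (nat_lit 0), (0, 5, 29), [2386572, 799851], 0⟩,
  mz,
  mz,
  mz,
  mz,
  ⟨⟨27, 20, -19, -10, 19, 30, -4, 20, -19⟩, (.cons (nat_lit 2283163) (nat_lit 2079295) (nat_lit 1652198)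
 (nat_lit 1) (.cons (nat_lit 654619) (nat_lit 681607) (nat_lit 1614179) (nat_lit 1) .nil)), (nat_lit 29),
 (nat_lit 0), (nat_lit 0), (nat_lit 0), (5, 28, 5), [2075570, 287998], 0⟩,
  ⟨⟨27, -16, -28, -4, 15, -28, -6, -24, -11⟩, (.cons (nat_lit 2476098) (nat_lit 2333132) (nat_lit 1523590)
 (nat_lit 1) (.cons (nat_lit 1874160) (nat_lit 1646261) (nat_lit 967866) (nat_lit 1) .nil)), (nat_lit 14),
 (nat_lit 0), (nat_lit 0), (nat_lit 0), (28, 28, 11), [1747422, 1779292], 0⟩,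
  ⟨⟨23, -12, 13, -4, 25, 22, 26, 8, -19⟩, (.cons (nat_lit 2400148) (nat_lit 105730) (nat_lit 114277) (nat_lit
 1) (.cons (nat_lit 1051341) (nat_lit 1650481) (nat_lit 1569517) (nat_lit 1) .nil)), (nat_lit 28), (nat_lit 0),
 (nat_lit 0), (nat_lit 0), (25, 28, 4), [582261, 174595], 0⟩,
  mz,
  mz,
  ⟨⟨1, -12, -36, -16, -25, 18, 22, -16, -17⟩, (.cons (nat_lit 1324826) (nat_lit 1466163) (nat_lit 281404)
 (nat_lit 1) (.cons (nat_lit 598478) (nat_lit 981723) (nat_lit 1502196) (nat_lit 1) .nil)), (nat_lit 2),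
 (nat_lit 0), (nat_lit 0), (nat_lit 0), (21, 5, 28), [513216, 558211], 0⟩,
  ⟨⟨-9, 8, -31, -10, -29, 0, 20, -4, -31⟩, (.cons (nat_lit 966097) (nat_lit 1343264) (nat_lit 1566674) (nat_lit
 1) (.cons (nat_lit 1858184) (nat_lit 1795458) (nat_lit 1039876) (nat_lit 1) .nil)), (nat_lit 20), (nat_lit 0),
 (nat_lit 0), (nat_lit 0), (2, 16, 30), [870050, 41895], 0⟩,
  ⟨⟨9, 8, -40, 10, -29, -10, -20, -4, -11⟩, (.cons (nat_lit 2476098) (nat_lit 988418) (nat_lit 803901) (nat_lit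
 1) (.cons (nat_lit 1874160) (nat_lit 996125) (nat_lit 1220058) (nat_lit 1) .nil)), (nat_lit 20), (nat_lit 0),
 (nat_lit 0), (nat_lit 0), (27, 30, 2), [453385, 506635], 0⟩,
  ⟨⟨33, 8, -16, -4, 15, 32, 6, 24, -17⟩, (.cons (nat_lit 2476098) (nat_lit 1801611) (nat_lit 2289018) (nat_lit
 1) (.cons (nat_lit 1874160) (nat_lit 1534035) (nat_lit 585342) (nat_lit 1) .nil)), (nat_lit 21), (nat_lit 0),
 (nat_lit 0), (nat_lit 0), (1, 29, 3), [1468882, 1066635], 0⟩,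
  ⟨⟨9, -8, -40, -10, -29, 10, -20, 4, -11⟩, (.cons (nat_lit 2476098) (nat_lit 264135) (nat_lit 1868249)
 (nat_lit 1) (.cons (nat_lit 1874160) (nat_lit 454545) (nat_lit 1108700) (nat_lit 1) .nil)), (nat_lit 22),
 (nat_lit 0), (nat_lit 0), (nat_lit 0), (18, 11, 22), [1461111, 1626600], 0⟩,
  ⟨⟨3, -20, -32, 4, 25, -22, 26, -8, -19⟩, (.cons (nat_lit 1343830) (nat_lit 648420) (nat_lit 1547633) (nat_lit
 1) (.cons (nat_lit 1566465) (nat_lit 1520103) (nat_lit 1) (nat_lit 1287156) .nil)), (nat_lit 26), (nat_lit 0),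
 (nat_lit 0), (nat_lit 0), (3, 4, 26), [2303271, 608620], 0⟩,
  ⟨⟨-9, -8, -31, -10, 29, 0, 20, 4, -31⟩, (.cons (nat_lit 618184) (nat_lit 1647844) (nat_lit 1883412) (nat_lit
 1) (.cons (nat_lit 1400099) (nat_lit 844031) (nat_lit 113585) (nat_lit 1) .nil)), (nat_lit 20), (nat_lit 0),
 (nat_lit 0), (nat_lit 0), (24, 6, 19), [1857109, 259609], 0⟩,
  ⟨⟨-27, -20, 8, -10, 19, -20, 4, -20, -23⟩, (.cons (nat_lit 2476098) (nat_lit 1024455) (nat_lit 335298)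
 (nat_lit 1) (.cons (nat_lit 1874160) (nat_lit 1073988) (nat_lit 475030) (nat_lit 1) .nil)), (nat_lit 25),
 (nat_lit 0), (nat_lit 0), (nat_lit 0), (16, 22, 16), [2469892, 951024], 0⟩,
  ⟨⟨1, 12, 35, -16, 25, -2, 22, 16, -5⟩, (.cons (nat_lit 2391048) (nat_lit 1089591) (nat_lit 1090608) (nat_lit
 1) (.cons (nat_lit 746218) (nat_lit 194961) (nat_lit 612979) (nat_lit 1) .nil)), (nat_lit 2), (nat_lit 0),
 (nat_lit 0), (nat_lit 0), (30, 16, 9), [443010, 424550], 0⟩,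
  ⟨⟨-27, -16, -1, -4, -15, 32, 6, -24, -17⟩, (.cons (nat_lit 1808061) (nat_lit 2138596) (nat_lit 1302251)
 (nat_lit 1) (.cons (nat_lit 8862) (nat_lit 285756) (nat_lit 1747714) (nat_lit 1) .nil)), (nat_lit 4), (nat_lit
 0), (nat_lit 0), (nat_lit 0), (15, 16, 7), [1634567, 1250773], 0⟩,
  ⟨⟨1, 12, -36, 16, -25, -18, 22, 16, -17⟩, (.cons (nat_lit 2217532) (nat_lit 1582221) (nat_lit 4241) (nat_lit
 1) (.cons (nat_lit 511448) (nat_lit 1862799) (nat_lit 984797) (nat_lit 1) .nil)), (nat_lit 1), (nat_lit 0),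
 (nat_lit 0), (nat_lit 0), (19, 25, 15), [2163480, 1687346], 0⟩,
  ⟨⟨31, 0, -31, -10, -19, -20, 4, 20, -23⟩, (.cons (nat_lit 989032) (nat_lit 145775) (nat_lit 2458601) (nat_lit
 1) (.cons (nat_lit 435513) (nat_lit 1850201) (nat_lit 1539616) (nat_lit 1) .nil)), (nat_lit 8), (nat_lit 0),
 (nat_lit 0), (nat_lit 0), (0, 20, 23), [624689, 1247922], 0⟩]

/-- All the moves. -/
noncomputable def tabs : List (List (List Mv)) := [[[], t0_1, t0_2, [], [], [], [], [], t0_8], [[], t1_1, t1_2, [], [], [], [], [], t1_8], [], [], [[], t4_1, t4_2, [], [], [], [], [], t4_8]]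

/-- Subtrie. -/
noncomputable def T1 : Tr := (.ev (nat_lit 20) (nat_lit 367804738) (.nd (nat_lit 33) (.br (nat_lit 19) (.br
 (nat_lit 11) (.br (nat_lit 7) (.br (nat_lit 4) (.ch (nat_lit 1) (.ev (nat_lit 52) (nat_lit 32784) (.ev
 (nat_lit 308) (nat_lit 1048576) (.ev (nat_lit 500) (nat_lit 536870912) (.ev (nat_lit 672) (nat_lit 167780356)
 .dd))))) (.br (nat_lit 5) (.ch (nat_lit 4) (.ev (nat_lit 52) (nat_lit 570458112) (.ev (nat_lit 116) (nat_lit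
 4) (.ev (nat_lit 340) (nat_lit 134217728) (.ev (nat_lit 832) (nat_lit 1056784) .dd))))) (.ch (nat_lit 5) (.ev
 (nat_lit 52) (nat_lit 570425360) (.ev (nat_lit 276) (nat_lit 1048576) (.ev (nat_lit 468) (nat_lit 134217728)
 (.ev (nat_lit 1152) (nat_lit 32768) (.nd (nat_lit 1216) (.br (nat_lit 6) (.br (nat_lit 2) (.ch (nat_lit 1)
 (.ev (nat_lit 1232) (nat_lit 8196) .dd)) (.br (nat_lit 4) (.ch (nat_lit 2) (.ev (nat_lit 1232) (nat_lit 8192)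
 (.ev (nat_lit 1245) (nat_lit 4) .dd))) (.ch (nat_lit 4) (.ev (nat_lit 1232) (nat_lit 8192) (.ev (nat_lit 1245)
 (nat_lit 4) .dd))))) (.br (nat_lit 12) (.br (nat_lit 9) (.ch (nat_lit 6) (.ev (nat_lit 1232) (nat_lit 4) (.ev
 (nat_lit 1245) (nat_lit 8192) .dd))) (.ch (nat_lit 9) (.ev (nat_lit 1232) (nat_lit 8196) .dd))) (.br (nat_lit
 15) (.ch (nat_lit 12) (.ev (nat_lit 1232) (nat_lit 8192) (.ev (nat_lit 1245) (nat_lit 4) .dd))) (.ch (nat_lit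
 15) (.ev (nat_lit 1232) (nat_lit 8196) .dd))))))))))))) (.br (nat_lit 8) (.ch (nat_lit 7) (.ev (nat_lit 52)
 (nat_lit 671121408) (.ev (nat_lit 180) (nat_lit 16) (.ev (nat_lit 532) (nat_lit 33554432) (.nd (nat_lit 1216)
 (.br (nat_lit 9) (.br (nat_lit 4) (.ch (nat_lit 1) (.ev (nat_lit 1232) (nat_lit 1056772) .dd)) (.br (nat_lit
 7) (.ch (nat_lit 4) (.ev (nat_lit 1264) (nat_lit 4) (.ev (nat_lit 1444) (nat_lit 8192) (.ev (nat_lit 1453)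
 (nat_lit 1048576) .dd)))) (.ch (nat_lit 7) (.ev (nat_lit 1232) (nat_lit 1056768) (.ev (nat_lit 1245) (nat_lit
 4) .dd))))) (.br (nat_lit 10) (.ch (nat_lit 9) (.ev (nat_lit 1232) (nat_lit 8192) (.ev (nat_lit 1476) (nat_lit
 4) (.ev (nat_lit 1485) (nat_lit 1048576) .dd)))) (.br (nat_lit 18) (.ch (nat_lit 10) (.ev (nat_lit 1232)
 (nat_lit 1056772) .dd)) (.ch (nat_lit 18) (.ev (nat_lit 1232) (nat_lit 1056772) .dd)))))))))) (.br (nat_lit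
 10) (.ch (nat_lit 8) (.ev (nat_lit 52) (nat_lit 1048580) (.ev (nat_lit 212) (nat_lit 16) (.ev (nat_lit 404)
 (nat_lit 536870912) (.ev (nat_lit 564) (nat_lit 8192) (.ev (nat_lit 800) (nat_lit 167804928) .dd)))))) (.ch
 (nat_lit 10) (.ev (nat_lit 52) (nat_lit 167780368) (.ev (nat_lit 212) (nat_lit 536870912) (.ev (nat_lit 372)
 (nat_lit 4) (.ev (nat_lit 960) (nat_lit 1081344) .dd)))))))) (.br (nat_lit 15) (.br (nat_lit 12) (.ch (nat_lit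
 11) (.ev (nat_lit 52) (nat_lit 1089536) (.ev (nat_lit 84) (nat_lit 134217728) (.ev (nat_lit 500) (nat_lit 16)
 (.nd (nat_lit 1216) (.br (nat_lit 9) (.br (nat_lit 6) (.br (nat_lit 2) (.ch (nat_lit 1) (.ev (nat_lit 1232)
 (nat_lit 4) (.ev (nat_lit 1444) (nat_lit 33554432) (.ev (nat_lit 1453) (nat_lit 536870912) .dd)))) (.ch
 (nat_lit 2) (.ev (nat_lit 1232) (nat_lit 536870916) (.ev (nat_lit 1245) (nat_lit 33554432) .dd)))) (.br
 (nat_lit 7) (.ch (nat_lit 6) (.ev (nat_lit 1232) (nat_lit 536870916) (.ev (nat_lit 1245) (nat_lit 33554432)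
 .dd))) (.ch (nat_lit 7) (.ev (nat_lit 1248) (nat_lit 33554432) (.ev (nat_lit 1344) (nat_lit 536870916)
 .dd))))) (.br (nat_lit 15) (.br (nat_lit 12) (.ch (nat_lit 9) (.ev (nat_lit 1232) (nat_lit 33554436) (.ev
 (nat_lit 1245) (nat_lit 536870912) .dd))) (.ch (nat_lit 12) (.ev (nat_lit 1232) (nat_lit 570425348) .dd)))
 (.br (nat_lit 18) (.ch (nat_lit 15) (.ev (nat_lit 1232) (nat_lit 33554436) (.ev (nat_lit 1245) (nat_lit
 536870912) .dd))) (.ch (nat_lit 18) (.ev (nat_lit 1232) (nat_lit 570425348) .dd)))))))))) (.br (nat_lit 13)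
 (.ch (nat_lit 12) (.ev (nat_lit 52) (nat_lit 671121412) (.ev (nat_lit 148) (nat_lit 8192) (.ev (nat_lit 276)
 (nat_lit 16) (.ev (nat_lit 928) (nat_lit 34603008) .dd))))) (.ch (nat_lit 13) (.ev (nat_lit 52) (nat_lit
 40960) (.ev (nat_lit 180) (nat_lit 4) (.ev (nat_lit 276) (nat_lit 536870912) (.ev (nat_lit 372) (nat_lit 16)
 (.nd (nat_lit 1216) (.br (nat_lit 10) (.br (nat_lit 6) (.ch (nat_lit 4) (.ev (nat_lit 1232) (nat_lit
 168820736) .dd)) (.ch (nat_lit 6) (.ev (nat_lit 1232) (nat_lit 134217728) (.ev (nat_lit 1296) (nat_lit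
 1048576) (.ev (nat_lit 1309) (nat_lit 33554432) .dd))))) (.br (nat_lit 12) (.ch (nat_lit 10) (.ev (nat_lit
 1232) (nat_lit 34603008) (.ev (nat_lit 1245) (nat_lit 134217728) .dd))) (.br (nat_lit 15) (.ch (nat_lit 12)
 (.ev (nat_lit 1232) (nat_lit 33554432) (.ev (nat_lit 1280) (nat_lit 1048576) (.ev (nat_lit 1293) (nat_lit
 134217728) .dd)))) (.ch (nat_lit 15) (.ev (nat_lit 1232) (nat_lit 34603008) (.ev (nat_lit 1245) (nat_lit
 134217728) .dd)))))))))))))) (.br (nat_lit 17) (.br (nat_lit 16) (.ch (nat_lit 15) (.ev (nat_lit 52) (nat_lit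
 1048576) (.ev (nat_lit 148) (nat_lit 134217728) (.ev (nat_lit 628) (nat_lit 32768) (.ev (nat_lit 660) (nat_lit
 33554432) (.nd (nat_lit 1216) (.br (nat_lit 7) (.br (nat_lit 4) (.ch (nat_lit 2) (.ev (nat_lit 1232) (nat_lit
 536879108) (.ev (nat_lit 1245) (nat_lit 16) .dd))) (.br (nat_lit 6) (.ch (nat_lit 4) (.ev (nat_lit 1232)
 (nat_lit 536870928) (.ev (nat_lit 1360) (nat_lit 4) (.ev (nat_lit 1373) (nat_lit 8192) .dd)))) (.ch (nat_lit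
 6) (.ev (nat_lit 1232) (nat_lit 536870932) (.ev (nat_lit 1245) (nat_lit 8192) .dd))))) (.br (nat_lit 11) (.br
 (nat_lit 9) (.ch (nat_lit 7) (.ev (nat_lit 1232) (nat_lit 8212) (.ev (nat_lit 1245) (nat_lit 536870912) .dd)))
 (.ch (nat_lit 9) (.ev (nat_lit 1232) (nat_lit 8196) (.fin (nat_lit 576470098154832458))))) (.br (nat_lit 15)
 (.ch (nat_lit 11) (.ev (nat_lit 1232) (nat_lit 536879108) (.ev (nat_lit 1245) (nat_lit 16) .dd))) (.ch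
 (nat_lit 15) (.ev (nat_lit 1232) (nat_lit 8212) (.ev (nat_lit 1245) (nat_lit 536870912) .dd)))))))))))) (.ch
 (nat_lit 16) (.ev (nat_lit 52) (nat_lit 8192) (.ev (nat_lit 416) (nat_lit 705724436) .dd)))) (.br (nat_lit 18)
 (.ch (nat_lit 17) (.ev (nat_lit 52) (nat_lit 570425348) (.ev (nat_lit 244) (nat_lit 1048576) (.ev (nat_lit
 532) (nat_lit 32768) (.nd (nat_lit 1216) (.br (nat_lit 6) (.br (nat_lit 2) (.ch (nat_lit 1) (.ev (nat_lit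
 1232) (nat_lit 134225920) (.ev (nat_lit 1245) (nat_lit 16) .dd))) (.br (nat_lit 4) (.ch (nat_lit 2) (.ev
 (nat_lit 1232) (nat_lit 134225936) .dd)) (.ch (nat_lit 4) (.ev (nat_lit 1232) (nat_lit 134217728) (.ev
 (nat_lit 1328) (nat_lit 16) (.ev (nat_lit 1341) (nat_lit 8192) .dd)))))) (.br (nat_lit 12) (.br (nat_lit 7)
 (.ch (nat_lit 6) (.ev (nat_lit 1232) (nat_lit 8208) (.ev (nat_lit 1245) (nat_lit 134217728) .dd))) (.ch
 (nat_lit 7) (.ev (nat_lit 1232) (nat_lit 134217744) (.ev (nat_lit 1245) (nat_lit 8192) .dd)))) (.br (nat_lit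
 18) (.ch (nat_lit 12) (.ev (nat_lit 1232) (nat_lit 134225936) .dd)) (.ch (nat_lit 18) (.ev (nat_lit 1232)
 (nat_lit 134225920) (.ev (nat_lit 1245) (nat_lit 16) .dd))))))))))) (.ch (nat_lit 18) (.ev (nat_lit 52)
 (nat_lit 168828928) (.ev (nat_lit 308) (nat_lit 4) (.ev (nat_lit 1136) (nat_lit 16) (.nd (nat_lit 1216) (.br
 (nat_lit 11) (.br (nat_lit 9) (.br (nat_lit 4) (.ch (nat_lit 1) (.ev (nat_lit 1232) (nat_lit 536903680) .dd))
 (.ch (nat_lit 4) (.ev (nat_lit 1232) (nat_lit 536903680) .dd))) (.br (nat_lit 10) (.ch (nat_lit 9) (.ev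
 (nat_lit 1232) (nat_lit 536870912) (.ev (nat_lit 1245) (nat_lit 32768) .dd))) (.ch (nat_lit 10) (.ev (nat_lit
 1232) (nat_lit 536903680) .dd)))) (.br (nat_lit 15) (.br (nat_lit 12) (.ch (nat_lit 11) (.ev (nat_lit 1232)
 (nat_lit 536903680) .dd)) (.ch (nat_lit 12) (.ev (nat_lit 1232) (nat_lit 536903680) .dd))) (.br (nat_lit 18)
 (.ch (nat_lit 15) (.ev (nat_lit 1232) (nat_lit 32768) (.ev (nat_lit 1245) (nat_lit 536870912) .dd))) (.ch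
 (nat_lit 18) (.ev (nat_lit 1232) (nat_lit 536903680) .dd)))))))))))))) (.br (nat_lit 26) (.br (nat_lit 22)
 (.br (nat_lit 20) (.ch (nat_lit 19) (.ev (nat_lit 52) (nat_lit 1056768) (.ev (nat_lit 116) (nat_lit 536870912)
 (.ev (nat_lit 148) (nat_lit 33554432) (.ev (nat_lit 404) (nat_lit 16) (.ev (nat_lit 500) (nat_lit 4) (.nd
 (nat_lit 1216) (.br (nat_lit 11) (.br (nat_lit 6) (.ch (nat_lit 4) (.ev (nat_lit 1232) (nat_lit 134250496)
 .dd)) (.br (nat_lit 9) (.ch (nat_lit 6) (.ev (nat_lit 1232) (nat_lit 32768) (.ev (nat_lit 1245) (nat_lit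
 134217728) .dd))) (.ch (nat_lit 9) (.ev (nat_lit 1232) (nat_lit 134217728) (.ev (nat_lit 1245) (nat_lit 32768)
 .dd))))) (.br (nat_lit 15) (.br (nat_lit 12) (.ch (nat_lit 11) (.ev (nat_lit 1232) (nat_lit 32768) (.ev
 (nat_lit 1245) (nat_lit 134217728) .dd))) (.ch (nat_lit 12) (.ev (nat_lit 1232) (nat_lit 32768) (.ev (nat_lit
 1245) (nat_lit 134217728) .dd)))) (.br (nat_lit 18) (.ch (nat_lit 15) (.ev (nat_lit 1232) (nat_lit 134250496)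
 .dd)) (.ch (nat_lit 18) (.ev (nat_lit 1232) (nat_lit 134250496) .dd)))))))))))) (.br (nat_lit 21) (.ch
 (nat_lit 20) (.ev (nat_lit 52) (nat_lit 33595412) (.ev (nat_lit 864) (nat_lit 672137216) .dd))) (.ch (nat_lit
 21) (.ev (nat_lit 52) (nat_lit 1048592) (.ev (nat_lit 84) (nat_lit 32768) (.ev (nat_lit 244) (nat_lit
 536870912) (.ev (nat_lit 628) (nat_lit 8192) (.nd (nat_lit 1216) (.br (nat_lit 10) (.br (nat_lit 2) (.ch
 (nat_lit 1) (.ev (nat_lit 1232) (nat_lit 134217732) (.ev (nat_lit 1245) (nat_lit 33554432) .dd))) (.br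
 (nat_lit 9) (.ch (nat_lit 2) (.ev (nat_lit 1232) (nat_lit 134217728) (.ev (nat_lit 1444) (nat_lit 4) (.ev
 (nat_lit 1453) (nat_lit 33554432) .dd)))) (.ch (nat_lit 9) (.ev (nat_lit 1232) (nat_lit 134217728) (.ev
 (nat_lit 1408) (nat_lit 33554436) .dd))))) (.br (nat_lit 11) (.ch (nat_lit 10) (.ev (nat_lit 1232) (nat_lit
 33554432) (.ev (nat_lit 1444) (nat_lit 4) (.ev (nat_lit 1453) (nat_lit 134217728) .dd)))) (.br (nat_lit 18)
 (.ch (nat_lit 11) (.ev (nat_lit 1232) (nat_lit 167772164) .dd)) (.ch (nat_lit 18) (.ev (nat_lit 1232) (nat_lit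
 167772164) .dd))))))))))))) (.br (nat_lit 24) (.ch (nat_lit 22) (.ev (nat_lit 52) (nat_lit 570425344) (.ev
 (nat_lit 116) (nat_lit 1048592) (.ev (nat_lit 704) (nat_lit 134258692) .dd)))) (.br (nat_lit 25) (.ch (nat_lit
 24) (.ev (nat_lit 52) (nat_lit 1081344) (.ev (nat_lit 276) (nat_lit 4) (.ev (nat_lit 372) (nat_lit 536870912)
 (.ev (nat_lit 628) (nat_lit 134217728) (.ev (nat_lit 768) (nat_lit 33562640) .dd)))))) (.ch (nat_lit 25) (.ev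
 (nat_lit 52) (nat_lit 537919504) (.ev (nat_lit 340) (nat_lit 32768) (.nd (nat_lit 1216) (.br (nat_lit 10) (.br
 (nat_lit 6) (.ch (nat_lit 1) (.ev (nat_lit 1232) (nat_lit 134225924) (.ev (nat_lit 1245) (nat_lit 33554432)
 .dd))) (.br (nat_lit 7) (.ch (nat_lit 6) (.ev (nat_lit 1232) (nat_lit 4) (.ev (nat_lit 1444) (nat_lit
 167772160) (.ev (nat_lit 1453) (nat_lit 8192) .dd)))) (.ch (nat_lit 7) (.ev (nat_lit 1232) (nat_lit 4) (.ev
 (nat_lit 1376) (nat_lit 8192) (.fin (nat_lit 576465700116709958))))))) (.br (nat_lit 11) (.ch (nat_lit 10)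
 (.ev (nat_lit 1232) (nat_lit 33562624) (.ev (nat_lit 1248) (nat_lit 134217728) (.ev (nat_lit 1261) (nat_lit 4)
 .dd)))) (.br (nat_lit 12) (.ch (nat_lit 11) (.ev (nat_lit 1232) (nat_lit 167780356) .dd)) (.ch (nat_lit 12)
 (.ev (nat_lit 1232) (nat_lit 167780356) .dd)))))))))))) (.br (nat_lit 30) (.br (nat_lit 27) (.ch (nat_lit 26)
 (.ev (nat_lit 52) (nat_lit 34603012) (.ev (nat_lit 180) (nat_lit 536870912) (.ev (nat_lit 532) (nat_lit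
 134225920) (.nd (nat_lit 1216) (.br (nat_lit 10) (.br (nat_lit 4) (.ch (nat_lit 1) (.ev (nat_lit 1296)
 (nat_lit 16) (.ev (nat_lit 1309) (nat_lit 32768) .dd))) (.br (nat_lit 6) (.ch (nat_lit 4) (.ev (nat_lit 1232)
 (nat_lit 32784) .dd)) (.ch (nat_lit 6) (.ev (nat_lit 1232) (nat_lit 32784) .dd)))) (.br (nat_lit 12) (.br
 (nat_lit 11) (.ch (nat_lit 10) (.ev (nat_lit 1232) (nat_lit 32784) .dd)) (.ch (nat_lit 11) (.ev (nat_lit 1232)
 (nat_lit 32784) .dd))) (.br (nat_lit 18) (.ch (nat_lit 12) (.ev (nat_lit 1232) (nat_lit 32784) .dd)) (.ch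
 (nat_lit 18) (.ev (nat_lit 1232) (nat_lit 32784) .dd)))))))))) (.br (nat_lit 29) (.ch (nat_lit 27) (.ev
 (nat_lit 52) (nat_lit 671088644) (.ev (nat_lit 308) (nat_lit 16) (.ev (nat_lit 340) (nat_lit 8192) (.ev
 (nat_lit 468) (nat_lit 32768) (.nd (nat_lit 1216) (.br (nat_lit 9) (.br (nat_lit 2) (.ch (nat_lit 1) (.ev
 (nat_lit 1232) (nat_lit 34603008) .dd)) (.br (nat_lit 7) (.ch (nat_lit 2) (.ev (nat_lit 1232) (nat_lit
 34603008) .dd)) (.ch (nat_lit 7) (.ev (nat_lit 1232) (nat_lit 34603008) .dd)))) (.br (nat_lit 11) (.br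
 (nat_lit 10) (.ch (nat_lit 9) (.ev (nat_lit 1296) (nat_lit 1048576) (.ev (nat_lit 1309) (nat_lit 33554432)
 .dd))) (.ch (nat_lit 10) (.ev (nat_lit 1232) (nat_lit 34603008) .dd))) (.br (nat_lit 15) (.ch (nat_lit 11)
 (.ev (nat_lit 1232) (nat_lit 34603008) .dd)) (.ch (nat_lit 15) (.ev (nat_lit 1232) (nat_lit 34603008)
 .dd))))))))))) (.ch (nat_lit 29) (.ev (nat_lit 52) (nat_lit 32768) (.ev (nat_lit 84) (nat_lit 33554432) (.ev
 (nat_lit 564) (nat_lit 134217728) (.nd (nat_lit 1216) (.br (nat_lit 7) (.br (nat_lit 6) (.ch (nat_lit 4) (.ev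
 (nat_lit 1232) (nat_lit 536870932) (.ev (nat_lit 1248) (nat_lit 1048576) (.ev (nat_lit 1261) (nat_lit 8192)
 .dd)))) (.ch (nat_lit 6) (.ev (nat_lit 1232) (nat_lit 536879124) (.ev (nat_lit 1245) (nat_lit 1048576) .dd))))
 (.br (nat_lit 9) (.ch (nat_lit 7) (.ev (nat_lit 1232) (nat_lit 537927696) (.ev (nat_lit 1245) (nat_lit 4)
 .dd))) (.br (nat_lit 12) (.ch (nat_lit 9) (.ev (nat_lit 1232) (nat_lit 8192) (.ev (nat_lit 1632) (nat_lit
 1048580) (.fin (nat_lit 576470098154832458))))) (.ch (nat_lit 12) (.ev (nat_lit 1232) (nat_lit 537919504) (.ev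
 (nat_lit 1248) (nat_lit 8196) .dd))))))))))))) (.br (nat_lit 35) (.br (nat_lit 33) (.ch (nat_lit 30) (.ev
 (nat_lit 52) (nat_lit 537919504) (.nd (nat_lit 1216) (.br (nat_lit 6) (.br (nat_lit 2) (.ch (nat_lit 1) (.ev
 (nat_lit 1232) (nat_lit 167780356) (.ev (nat_lit 1245) (nat_lit 32768) .dd))) (.ch (nat_lit 2) (.ev (nat_lit
 1232) (nat_lit 167813124) .dd))) (.br (nat_lit 7) (.ch (nat_lit 6) (.ev (nat_lit 1232) (nat_lit 167813124)
 .dd)) (.br (nat_lit 15) (.ch (nat_lit 7) (.ev (nat_lit 1232) (nat_lit 40960) (.ev (nat_lit 1264) (nat_lit 4)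
 (.fin (nat_lit 576465700116709958))))) (.ch (nat_lit 15) (.ev (nat_lit 1232) (nat_lit 167772164) (.ev (nat_lit
 1494) (nat_lit 40960) .dd))))))))) (.ch (nat_lit 33) (.ev (nat_lit 52) (nat_lit 135266308) (.ev (nat_lit 148)
 (nat_lit 32768) (.ev (nat_lit 596) (nat_lit 33554432) (.nd (nat_lit 1216) (.br (nat_lit 10) (.br (nat_lit 4)
 (.ch (nat_lit 2) (.ev (nat_lit 1232) (nat_lit 8192) (.ev (nat_lit 1444) (nat_lit 16) (.ev (nat_lit 1453)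
 (nat_lit 536870912) .dd)))) (.br (nat_lit 7) (.ch (nat_lit 4) (.ev (nat_lit 1232) (nat_lit 8192) (.ev (nat_lit
 1408) (nat_lit 536870928) .dd))) (.ch (nat_lit 7) (.ev (nat_lit 1232) (nat_lit 16) (.ev (nat_lit 1444)
 (nat_lit 8192) (.ev (nat_lit 1453) (nat_lit 536870912) .dd)))))) (.br (nat_lit 12) (.ch (nat_lit 10) (.ev
 (nat_lit 1232) (nat_lit 536879120) .dd)) (.br (nat_lit 18) (.ch (nat_lit 12) (.ev (nat_lit 1232) (nat_lit
 536879120) .dd)) (.ch (nat_lit 18) (.ev (nat_lit 1232) (nat_lit 536879104) (.ev (nat_lit 1245) (nat_lit 16)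
 .dd)))))))))))) (.br (nat_lit 36) (.ch (nat_lit 35) (.ev (nat_lit 52) (nat_lit 134225924) (.ev (nat_lit 468)
 (nat_lit 33554432) (.ev (nat_lit 736) (nat_lit 537952272) .dd)))) (.ch (nat_lit 36) (.ev (nat_lit 52) (nat_lit
 167780372) (.ev (nat_lit 1012) (nat_lit 32768) (.nd (nat_lit 1216) (.br (nat_lit 7) (.br (nat_lit 4) (.br
 (nat_lit 2) (.ch (nat_lit 1) (.ev (nat_lit 1232) (nat_lit 1048576) (.ev (nat_lit 1245) (nat_lit 536870912)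
 .dd))) (.ch (nat_lit 2) (.ev (nat_lit 1232) (nat_lit 1048576) (.ev (nat_lit 1245) (nat_lit 536870912) .dd))))
 (.br (nat_lit 6) (.ch (nat_lit 4) (.ev (nat_lit 1232) (nat_lit 537919488) .dd)) (.ch (nat_lit 6) (.ev (nat_lit
 1232) (nat_lit 537919488) .dd)))) (.br (nat_lit 11) (.br (nat_lit 10) (.ch (nat_lit 7) (.ev (nat_lit 1232)
 (nat_lit 1048576) (.ev (nat_lit 1245) (nat_lit 536870912) .dd))) (.ch (nat_lit 10) (.ev (nat_lit 1232)
 (nat_lit 536870912) (.ev (nat_lit 1245) (nat_lit 1048576) .dd)))) (.br (nat_lit 15) (.ch (nat_lit 11) (.ev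
 (nat_lit 1232) (nat_lit 537919488) .dd)) (.ch (nat_lit 15) (.ev (nat_lit 1232) (nat_lit 1048576) (.ev (nat_lit
 1245) (nat_lit 536870912) .dd)))))))))))))))))

/-- Subtrie. -/
noncomputable def T2 : Tr := (.ev (nat_lit 20) (nat_lit 697344004) (.nd (nat_lit 33) (.br (nat_lit 19) (.br
 (nat_lit 11) (.br (nat_lit 7) (.br (nat_lit 4) (.ch (nat_lit 1) (.ev (nat_lit 52) (nat_lit 4981008) (.ev
 (nat_lit 404) (nat_lit 2097152) (.ev (nat_lit 692) (nat_lit 33554432) (.ev (nat_lit 916) (nat_lit 64) (.nd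
 (nat_lit 1216) (.br (nat_lit 10) (.br (nat_lit 6) (.ch (nat_lit 2) (.ev (nat_lit 1232) (nat_lit 16386) (.fin
 (nat_lit 576461302055518782)))) (.br (nat_lit 7) (.ch (nat_lit 6) (.ev (nat_lit 1232) (nat_lit 268435458) (.ev
 (nat_lit 1264) (nat_lit 67108864) (.ev (nat_lit 1277) (nat_lit 16384) .dd)))) (.ch (nat_lit 7) (.ev (nat_lit
 1232) (nat_lit 335560706) .dd)))) (.br (nat_lit 13) (.br (nat_lit 12) (.ch (nat_lit 10) (.ev (nat_lit 1232)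
 (nat_lit 335560706) .dd)) (.ch (nat_lit 12) (.ev (nat_lit 1232) (nat_lit 67125250) (.ev (nat_lit 1245)
 (nat_lit 268435456) .dd)))) (.br (nat_lit 16) (.ch (nat_lit 13) (.ev (nat_lit 1232) (nat_lit 335560706) .dd))
 (.ch (nat_lit 16) (.ev (nat_lit 1232) (nat_lit 335560704) (.ev (nat_lit 1245) (nat_lit 2) .dd)))))))))))) (.br
 (nat_lit 5) (.ch (nat_lit 4) (.ev (nat_lit 52) (nat_lit 302006272) (.ev (nat_lit 308) (nat_lit 67108864) (.ev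
 (nat_lit 756) (nat_lit 262144) (.ev (nat_lit 1024) (nat_lit 18) (.nd (nat_lit 1216) (.br (nat_lit 11) (.br
 (nat_lit 5) (.ch (nat_lit 0) (.ev (nat_lit 1232) (nat_lit 6291776) (.ev (nat_lit 1245) (nat_lit 524288) .dd)))
 (.ch (nat_lit 5) (.ev (nat_lit 1232) (nat_lit 4718912) (.ev (nat_lit 1245) (nat_lit 2097152) .dd)))) (.br
 (nat_lit 12) (.ch (nat_lit 11) (.ev (nat_lit 1232) (nat_lit 524352) (.ev (nat_lit 1476) (nat_lit 2097152) (.ev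
 (nat_lit 1520) (nat_lit 4194560) .dd)))) (.br (nat_lit 13) (.ch (nat_lit 12) (.ev (nat_lit 1232) (nat_lit
 6816064) .dd)) (.ch (nat_lit 13) (.ev (nat_lit 1232) (nat_lit 2097408) (.ev (nat_lit 1476) (nat_lit 524288)
 (.ev (nat_lit 1574) (nat_lit 4194368) .dd))))))))))))) (.ch (nat_lit 5) (.ev (nat_lit 52) (nat_lit 33816592)
 (.ev (nat_lit 84) (nat_lit 524288) (.ev (nat_lit 724) (nat_lit 256) (.nd (nat_lit 1216) (.br (nat_lit 12) (.br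
 (nat_lit 6) (.ch (nat_lit 0) (.ev (nat_lit 1232) (nat_lit 335560704) (.ev (nat_lit 1444) (nat_lit 66) (.nd
 (nat_lit 1649) (.ch (nat_lit 15) (.nd (nat_lit 1664) (.br (nat_lit 18) (.ch (nat_lit 10) (.ev (nat_lit 1680)
 (nat_lit 6291456) .dd)) (.ch (nat_lit 18) (.fin (nat_lit 576464600600887876)))))))))) (.br (nat_lit 11) (.ch
 (nat_lit 6) (.ev (nat_lit 1232) (nat_lit 274726978) (.ev (nat_lit 1248) (nat_lit 67125248) .dd))) (.ch
 (nat_lit 11) (.ev (nat_lit 1232) (nat_lit 341852226) .dd)))) (.br (nat_lit 15) (.ch (nat_lit 12) (.ev (nat_lit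
 1232) (nat_lit 73400322) (.ev (nat_lit 1444) (nat_lit 16384) (.fin (nat_lit 576470098156929604))))) (.br
 (nat_lit 16) (.ch (nat_lit 15) (.ev (nat_lit 1232) (nat_lit 341852224) (.ev (nat_lit 1245) (nat_lit 2) .dd)))
 (.ch (nat_lit 16) (.ev (nat_lit 1232) (nat_lit 341835842) (.ev (nat_lit 1245) (nat_lit 16384) .dd)))))))))))))
 (.br (nat_lit 8) (.ch (nat_lit 7) (.ev (nat_lit 52) (nat_lit 2376000) (.ev (nat_lit 180) (nat_lit 268435456)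
 (.ev (nat_lit 212) (nat_lit 16) (.ev (nat_lit 640) (nat_lit 105381890) .dd))))) (.br (nat_lit 10) (.ch
 (nat_lit 8) (.ev (nat_lit 116) (nat_lit 4194304) (.ev (nat_lit 180) (nat_lit 16) (.ev (nat_lit 212) (nat_lit
 67108864) (.ev (nat_lit 276) (nat_lit 2) (.ev (nat_lit 500) (nat_lit 268435456) (.ev (nat_lit 820) (nat_lit
 262144) (.ev (nat_lit 916) (nat_lit 2097152) (.nd (nat_lit 1216) (.br (nat_lit 12) (.br (nat_lit 10) (.ch
 (nat_lit 7) (.ev (nat_lit 1232) (nat_lit 34095104) (.ev (nat_lit 1248) (nat_lit 320) .dd))) (.ch (nat_lit 10)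
 (.ev (nat_lit 1232) (nat_lit 256) (.ev (nat_lit 1504) (nat_lit 524352) (.fin (nat_lit 576470098152735306))))))
 (.br (nat_lit 13) (.ch (nat_lit 12) (.ev (nat_lit 1232) (nat_lit 34095360) (.ev (nat_lit 1245) (nat_lit 64)
 .dd))) (.br (nat_lit 15) (.ch (nat_lit 13) (.ev (nat_lit 1232) (nat_lit 33571136) (.ev (nat_lit 1245) (nat_lit
 524288) .dd))) (.ch (nat_lit 15) (.ev (nat_lit 1232) (nat_lit 33570880) (.ev (nat_lit 1248) (nat_lit 524288)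
 (.ev (nat_lit 1261) (nat_lit 256) .dd)))))))))))))))) (.ch (nat_lit 10) (.ev (nat_lit 52) (nat_lit 371720208)
 (.ev (nat_lit 404) (nat_lit 64) (.ev (nat_lit 608) (nat_lit 4473090) .dd))))))) (.br (nat_lit 15) (.br
 (nat_lit 12) (.ch (nat_lit 11) (.ev (nat_lit 52) (nat_lit 268451840) (.ev (nat_lit 212) (nat_lit 2) (.ev
 (nat_lit 980) (nat_lit 262144) (.nd (nat_lit 1216) (.br (nat_lit 6) (.br (nat_lit 2) (.ch (nat_lit 0) (.ev
 (nat_lit 1232) (nat_lit 67109200) (.ev (nat_lit 1328) (nat_lit 33554432) (.ev (nat_lit 1344) (nat_lit 524288)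
 (.fin (nat_lit 576464600600887876)))))) (.br (nat_lit 5) (.ch (nat_lit 2) (.ev (nat_lit 1232) (nat_lit
 73924944) (.ev (nat_lit 1245) (nat_lit 33554432) .dd))) (.ch (nat_lit 5) (.ev (nat_lit 1232) (nat_lit
 107479376) .dd)))) (.br (nat_lit 15) (.br (nat_lit 10) (.ch (nat_lit 6) (.ev (nat_lit 1232) (nat_lit 39846224)
 (.ev (nat_lit 1360) (nat_lit 67108864) (.ev (nat_lit 1373) (nat_lit 524288) .dd)))) (.ch (nat_lit 10) (.ev
 (nat_lit 1232) (nat_lit 107479296) (.ev (nat_lit 1312) (nat_lit 80) .dd)))) (.br (nat_lit 16) (.ch (nat_lit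
 15) (.ev (nat_lit 1232) (nat_lit 106954832) (.ev (nat_lit 1280) (nat_lit 524288) (.ev (nat_lit 1293) (nat_lit
 256) .dd)))) (.ch (nat_lit 16) (.ev (nat_lit 1232) (nat_lit 6815824) (.ev (nat_lit 1248) (nat_lit 67108864)
 (.ev (nat_lit 1280) (nat_lit 33554432) (.ev (nat_lit 1293) (nat_lit 256) .dd))))))))))))) (.br (nat_lit 13)
 (.ch (nat_lit 12) (.ev (nat_lit 52) (nat_lit 341836032) (.ev (nat_lit 276) (nat_lit 16) (.ev (nat_lit 448)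
 (nat_lit 34357314) .dd)))) (.ch (nat_lit 13) (.ev (nat_lit 52) (nat_lit 71303488) (.ev (nat_lit 180) (nat_lit
 2) (.ev (nat_lit 436) (nat_lit 33816576) (.nd (nat_lit 1216) (.br (nat_lit 10) (.br (nat_lit 5) (.ch (nat_lit
 0) (.ev (nat_lit 1232) (nat_lit 268451856) (.ev (nat_lit 1248) (nat_lit 2097152) (.ev (nat_lit 1261) (nat_lit
 524288) .dd)))) (.br (nat_lit 6) (.ch (nat_lit 5) (.ev (nat_lit 1232) (nat_lit 524304) (.ev (nat_lit 1376)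
 (nat_lit 268435456) (.ev (nat_lit 1444) (nat_lit 16384) (.ev (nat_lit 1453) (nat_lit 2097152) .dd))))) (.ch
 (nat_lit 6) (.ev (nat_lit 1232) (nat_lit 270548992) (.ev (nat_lit 1444) (nat_lit 16) (.ev (nat_lit 1453)
 (nat_lit 524288) .dd)))))) (.br (nat_lit 11) (.ch (nat_lit 10) (.ev (nat_lit 1232) (nat_lit 270548992) (.ev
 (nat_lit 1444) (nat_lit 524288) (.ev (nat_lit 1453) (nat_lit 16) .dd)))) (.br (nat_lit 16) (.ch (nat_lit 11)
 (.ev (nat_lit 1232) (nat_lit 524304) (.ev (nat_lit 1376) (nat_lit 268435456) (.ev (nat_lit 1444) (nat_lit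
 16384) (.ev (nat_lit 1453) (nat_lit 2097152) .dd))))) (.ch (nat_lit 16) (.ev (nat_lit 1232) (nat_lit
 271056896) (.ev (nat_lit 1248) (nat_lit 16384) (.ev (nat_lit 1261) (nat_lit 16) .dd)))))))))))))) (.br
 (nat_lit 17) (.br (nat_lit 16) (.ch (nat_lit 15) (.ev (nat_lit 52) (nat_lit 6815810) (.ev (nat_lit 244)
 (nat_lit 67108864) (.ev (nat_lit 512) (nat_lit 302268688) .dd)))) (.ch (nat_lit 16) (.ev (nat_lit 52) (nat_lit
 69206274) (.ev (nat_lit 244) (nat_lit 16) (.ev (nat_lit 884) (nat_lit 16384) (.ev (nat_lit 1040) (nat_lit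
 4194304) (.nd (nat_lit 1216) (.br (nat_lit 12) (.br (nat_lit 10) (.ch (nat_lit 0) (.ev (nat_lit 1232) (nat_lit
 302776384) .dd)) (.br (nat_lit 11) (.ch (nat_lit 10) (.ev (nat_lit 1232) (nat_lit 302252096) (.ev (nat_lit
 1245) (nat_lit 524288) .dd))) (.ch (nat_lit 11) (.ev (nat_lit 1232) (nat_lit 34340928) (.ev (nat_lit 1245)
 (nat_lit 268435456) .dd))))) (.br (nat_lit 15) (.ch (nat_lit 12) (.ev (nat_lit 1232) (nat_lit 33816576) (.ev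
 (nat_lit 1264) (nat_lit 524288) (.nd (nat_lit 1649) (.ch (nat_lit 16) (.nd (nat_lit 1664) (.ch (nat_lit 13)
 (.fin (nat_lit 576452505964593724))))))))) (.br (nat_lit 16) (.ch (nat_lit 15) (.ev (nat_lit 1232) (nat_lit
 268435520) (.ev (nat_lit 1444) (nat_lit 33554432) (.ev (nat_lit 1536) (nat_lit 524288) (.ev (nat_lit 1549)
 (nat_lit 262144) .dd))))) (.ch (nat_lit 16) (.ev (nat_lit 1232) (nat_lit 302514240) (.ev (nat_lit 1245)
 (nat_lit 262144) .dd))))))))))))) (.br (nat_lit 18) (.ch (nat_lit 17) (.ev (nat_lit 52) (nat_lit 302252032)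
 (.ev (nat_lit 244) (nat_lit 2097152) (.ev (nat_lit 404) (nat_lit 16) (.ev (nat_lit 436) (nat_lit 16384) (.ev
 (nat_lit 500) (nat_lit 64) (.ev (nat_lit 660) (nat_lit 524288) (.ev (nat_lit 852) (nat_lit 256) (.nd (nat_lit
 1216) (.br (nat_lit 6) (.br (nat_lit 5) (.ch (nat_lit 2) (.ev (nat_lit 1232) (nat_lit 4194306) (.ev (nat_lit
 1245) (nat_lit 67108864) .dd))) (.ch (nat_lit 5) (.ev (nat_lit 1232) (nat_lit 4194306) (.ev (nat_lit 1245)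
 (nat_lit 67108864) .dd)))) (.br (nat_lit 7) (.ch (nat_lit 6) (.ev (nat_lit 1232) (nat_lit 71303170) .dd)) (.br
 (nat_lit 11) (.ch (nat_lit 7) (.ev (nat_lit 1232) (nat_lit 4194304) (.ev (nat_lit 1280) (nat_lit 2) (.ev
 (nat_lit 1293) (nat_lit 67108864) .dd)))) (.ch (nat_lit 11) (.ev (nat_lit 1232) (nat_lit 67108864) (.ev
 (nat_lit 1296) (nat_lit 2) (.ev (nat_lit 1309) (nat_lit 4194304) .dd)))))))))))))))) (.ch (nat_lit 18) (.ev
 (nat_lit 52) (nat_lit 36438082) (.ev (nat_lit 308) (nat_lit 4194304) (.ev (nat_lit 544) (nat_lit 335560976)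
 .dd)))))))) (.br (nat_lit 26) (.br (nat_lit 22) (.br (nat_lit 20) (.ch (nat_lit 19) (.ev (nat_lit 52) (nat_lit
 67109184) (.ev (nat_lit 64) (nat_lit 309084178) .dd))) (.br (nat_lit 21) (.ch (nat_lit 20) (.ev (nat_lit 52)
 (nat_lit 38027344) (.ev (nat_lit 372) (nat_lit 2) (.ev (nat_lit 1200) (nat_lit 2097152) (.nd (nat_lit 1216)
 (.br (nat_lit 6) (.br (nat_lit 5) (.ch (nat_lit 2) (.ev (nat_lit 1232) (nat_lit 67633408) (.ev (nat_lit 1245)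
 (nat_lit 268435456) .dd))) (.ch (nat_lit 5) (.ev (nat_lit 1232) (nat_lit 268960000) (.ev (nat_lit 1245)
 (nat_lit 67108864) .dd)))) (.br (nat_lit 12) (.ch (nat_lit 6) (.ev (nat_lit 1232) (nat_lit 256) (.ev (nat_lit
 1280) (nat_lit 67108864) (.ev (nat_lit 1444) (nat_lit 524288) (.ev (nat_lit 1453) (nat_lit 268435456) .dd)))))
 (.br (nat_lit 16) (.ch (nat_lit 12) (.ev (nat_lit 1232) (nat_lit 67109120) (.ev (nat_lit 1444) (nat_lit
 268435456) (.ev (nat_lit 1453) (nat_lit 524288) .dd)))) (.ch (nat_lit 16) (.ev (nat_lit 1232) (nat_lit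
 336068608) (.ev (nat_lit 1245) (nat_lit 256) .dd))))))))))) (.ch (nat_lit 21) (.ev (nat_lit 52) (nat_lit
 273154064) (.ev (nat_lit 820) (nat_lit 16384) (.nd (nat_lit 1216) (.br (nat_lit 11) (.br (nat_lit 7) (.br
 (nat_lit 6) (.ch (nat_lit 2) (.ev (nat_lit 1232) (nat_lit 69468482) (.ev (nat_lit 1245) (nat_lit 33554432)
 .dd))) (.ch (nat_lit 6) (.ev (nat_lit 1232) (nat_lit 103022914) .dd))) (.br (nat_lit 10) (.ch (nat_lit 7) (.ev
 (nat_lit 1232) (nat_lit 35913728) (.ev (nat_lit 1424) (nat_lit 2) (.ev (nat_lit 1456) (nat_lit 256) (.fin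
 (nat_lit 576470098153783871)))))) (.ch (nat_lit 10) (.ev (nat_lit 1232) (nat_lit 69468482) (.ev (nat_lit 1245)
 (nat_lit 33554432) .dd))))) (.br (nat_lit 15) (.br (nat_lit 13) (.ch (nat_lit 11) (.ev (nat_lit 1232) (nat_lit
 103022912) (.ev (nat_lit 1245) (nat_lit 2) .dd))) (.ch (nat_lit 13) (.ev (nat_lit 1232) (nat_lit 100925762)
 (.ev (nat_lit 1245) (nat_lit 2097152) .dd)))) (.br (nat_lit 16) (.ch (nat_lit 15) (.ev (nat_lit 1232) (nat_lit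
 69468482) (.ev (nat_lit 1245) (nat_lit 33554432) .dd))) (.ch (nat_lit 16) (.ev (nat_lit 1232) (nat_lit
 69206082) (.ev (nat_lit 1392) (nat_lit 256) (.ev (nat_lit 1444) (nat_lit 262144) (.ev (nat_lit 1453) (nat_lit
 33554432) .dd)))))))))))))) (.br (nat_lit 24) (.ch (nat_lit 22) (.ev (nat_lit 52) (nat_lit 302776322) (.ev
 (nat_lit 116) (nat_lit 64) (.ev (nat_lit 180) (nat_lit 67108864) (.ev (nat_lit 308) (nat_lit 16) (.ev (nat_lit
 372) (nat_lit 4194304) (.nd (nat_lit 1216) (.br (nat_lit 6) (.br (nat_lit 2) (.ch (nat_lit 0) (.ev (nat_lit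
 1232) (nat_lit 2113536) (.ev (nat_lit 1245) (nat_lit 256) .dd))) (.br (nat_lit 5) (.ch (nat_lit 2) (.ev
 (nat_lit 1232) (nat_lit 16640) (.ev (nat_lit 1245) (nat_lit 2097152) .dd))) (.ch (nat_lit 5) (.ev (nat_lit
 1232) (nat_lit 2097408) (.ev (nat_lit 1245) (nat_lit 16384) .dd))))) (.br (nat_lit 13) (.br (nat_lit 11) (.ch
 (nat_lit 6) (.ev (nat_lit 1232) (nat_lit 2113792) .dd)) (.ch (nat_lit 11) (.ev (nat_lit 1232) (nat_lit 16640)
 (.ev (nat_lit 1245) (nat_lit 2097152) .dd)))) (.br (nat_lit 15) (.ch (nat_lit 13) (.ev (nat_lit 1232) (nat_lit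
 2113792) .dd)) (.ch (nat_lit 15) (.ev (nat_lit 1232) (nat_lit 16384) (.ev (nat_lit 1328) (nat_lit 2097152)
 (.ev (nat_lit 1341) (nat_lit 256) .dd)))))))))))))) (.br (nat_lit 25) (.ch (nat_lit 24) (.ev (nat_lit 52)
 (nat_lit 4997120) (.ev (nat_lit 372) (nat_lit 268435456) (.nd (nat_lit 1216) (.br (nat_lit 11) (.br (nat_lit
 6) (.br (nat_lit 5) (.ch (nat_lit 0) (.ev (nat_lit 1232) (nat_lit 67109200) (.ev (nat_lit 1392) (nat_lit 2)
 (.ev (nat_lit 1444) (nat_lit 2097152) (.ev (nat_lit 1453) (nat_lit 33554432) .dd))))) (.ch (nat_lit 5) (.ev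
 (nat_lit 1232) (nat_lit 100663634) (.ev (nat_lit 1245) (nat_lit 2097152) .dd)))) (.br (nat_lit 7) (.ch
 (nat_lit 6) (.ev (nat_lit 1232) (nat_lit 102760770) (.ev (nat_lit 1245) (nat_lit 16) .dd))) (.ch (nat_lit 7)
 (.ev (nat_lit 1232) (nat_lit 35651840) (.ev (nat_lit 1424) (nat_lit 16) (.ev (nat_lit 1456) (nat_lit 2) (.fin
 (nat_lit 576470098153783871)))))))) (.br (nat_lit 13) (.br (nat_lit 12) (.ch (nat_lit 11) (.ev (nat_lit 1232)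
 (nat_lit 100663634) (.ev (nat_lit 1245) (nat_lit 2097152) .dd))) (.ch (nat_lit 12) (.ev (nat_lit 1232)
 (nat_lit 102760786) .dd))) (.br (nat_lit 15) (.ch (nat_lit 13) (.ev (nat_lit 1232) (nat_lit 100663634) (.ev
 (nat_lit 1245) (nat_lit 2097152) .dd))) (.ch (nat_lit 15) (.ev (nat_lit 1232) (nat_lit 102760530) (.ev
 (nat_lit 1245) (nat_lit 256) .dd)))))))))) (.ch (nat_lit 25) (.ev (nat_lit 52) (nat_lit 2376018) (.ev (nat_lit
 576) (nat_lit 373817344) .dd)))))) (.br (nat_lit 30) (.br (nat_lit 27) (.ch (nat_lit 26) (.ev (nat_lit 52)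
 (nat_lit 102760450) (.ev (nat_lit 320) (nat_lit 273432912) .dd))) (.br (nat_lit 29) (.ch (nat_lit 27) (.ev
 (nat_lit 52) (nat_lit 4718658) (.ev (nat_lit 116) (nat_lit 16) (.ev (nat_lit 212) (nat_lit 2097152) (.ev
 (nat_lit 724) (nat_lit 16384) (.ev (nat_lit 788) (nat_lit 33554432) (.nd (nat_lit 1216) (.br (nat_lit 10) (.br
 (nat_lit 5) (.ch (nat_lit 2) (.ev (nat_lit 1232) (nat_lit 262400) (.fin (nat_lit 576461302055518782)))) (.br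
 (nat_lit 7) (.ch (nat_lit 5) (.ev (nat_lit 1232) (nat_lit 67371264) (.ev (nat_lit 1245) (nat_lit 268435456)
 .dd))) (.ch (nat_lit 7) (.ev (nat_lit 1232) (nat_lit 268697600) (.ev (nat_lit 1264) (nat_lit 67108864) (.ev
 (nat_lit 1277) (nat_lit 256) .dd)))))) (.br (nat_lit 12) (.br (nat_lit 11) (.ch (nat_lit 10) (.ev (nat_lit
 1232) (nat_lit 335544576) (.ev (nat_lit 1245) (nat_lit 262144) .dd))) (.ch (nat_lit 11) (.ev (nat_lit 1232)
 (nat_lit 335806720) .dd))) (.br (nat_lit 13) (.ch (nat_lit 12) (.ev (nat_lit 1232) (nat_lit 335806720) .dd))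
 (.ch (nat_lit 13) (.ev (nat_lit 1232) (nat_lit 335806720) .dd)))))))))))) (.ch (nat_lit 29) (.ev (nat_lit 52)
 (nat_lit 4718594) (.ev (nat_lit 128) (nat_lit 371474768) .dd))))) (.br (nat_lit 35) (.br (nat_lit 33) (.ch
 (nat_lit 30) (.ev (nat_lit 52) (nat_lit 336085266) (.ev (nat_lit 116) (nat_lit 2097152) (.ev (nat_lit 244)
 (nat_lit 64) (.ev (nat_lit 820) (nat_lit 33554432) (.ev (nat_lit 992) (nat_lit 4456448) .dd)))))) (.ch
 (nat_lit 33) (.ev (nat_lit 52) (nat_lit 71827456) (.ev (nat_lit 276) (nat_lit 2097152) (.ev (nat_lit 372)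
 (nat_lit 16) (.ev (nat_lit 404) (nat_lit 268435456) (.ev (nat_lit 692) (nat_lit 256) (.ev (nat_lit 724)
 (nat_lit 262144) (.nd (nat_lit 1216) (.br (nat_lit 7) (.br (nat_lit 5) (.ch (nat_lit 2) (.ev (nat_lit 1232)
 (nat_lit 16450) (.ev (nat_lit 1245) (nat_lit 33554432) .dd))) (.br (nat_lit 6) (.ch (nat_lit 5) (.ev (nat_lit
 1232) (nat_lit 33554498) (.ev (nat_lit 1245) (nat_lit 16384) .dd))) (.ch (nat_lit 6) (.ev (nat_lit 1232)
 (nat_lit 33554498) (.ev (nat_lit 1245) (nat_lit 16384) .dd))))) (.br (nat_lit 12) (.br (nat_lit 10) (.ch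
 (nat_lit 7) (.ev (nat_lit 1232) (nat_lit 33570816) (.ev (nat_lit 1360) (nat_lit 2) (.ev (nat_lit 1373)
 (nat_lit 64) .dd)))) (.ch (nat_lit 10) (.ev (nat_lit 1232) (nat_lit 66) (.fin (nat_lit 576470098152735306)))))
 (.br (nat_lit 15) (.ch (nat_lit 12) (.ev (nat_lit 1232) (nat_lit 33570818) (.ev (nat_lit 1245) (nat_lit 64)
 .dd))) (.ch (nat_lit 15) (.ev (nat_lit 1232) (nat_lit 16450) (.ev (nat_lit 1245) (nat_lit 33554432)
 .dd))))))))))))))) (.br (nat_lit 36) (.ch (nat_lit 35) (.ev (nat_lit 52) (nat_lit 320) (.ev (nat_lit 116)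
 (nat_lit 67108864) (.ev (nat_lit 308) (nat_lit 2) (.ev (nat_lit 340) (nat_lit 524288) (.ev (nat_lit 404)
 (nat_lit 4194304) (.ev (nat_lit 692) (nat_lit 16384) (.ev (nat_lit 916) (nat_lit 16) (.ev (nat_lit 948)
 (nat_lit 33554432) (.ev (nat_lit 1168) (nat_lit 262144) (.nd (nat_lit 1216) (.br (nat_lit 6) (.br (nat_lit 2)
 (.ch (nat_lit 0) (.ev (nat_lit 1232) (nat_lit 268435456) (.ev (nat_lit 1245) (nat_lit 2097152) .dd))) (.br
 (nat_lit 5) (.ch (nat_lit 2) (.ev (nat_lit 1232) (nat_lit 268435456) (.ev (nat_lit 1245) (nat_lit 2097152)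
 .dd))) (.ch (nat_lit 5) (.ev (nat_lit 1232) (nat_lit 2097152) (.ev (nat_lit 1245) (nat_lit 268435456) .dd)))))
 (.br (nat_lit 12) (.br (nat_lit 7) (.ch (nat_lit 6) (.ev (nat_lit 1232) (nat_lit 270532608) .dd)) (.ch
 (nat_lit 7) (.ev (nat_lit 1232) (nat_lit 270532608) .dd))) (.br (nat_lit 13) (.ch (nat_lit 12) (.ev (nat_lit
 1232) (nat_lit 270532608) .dd)) (.ch (nat_lit 13) (.ev (nat_lit 1232) (nat_lit 268435456) (.ev (nat_lit 1245)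
 (nat_lit 2097152) .dd))))))))))))))))) (.ch (nat_lit 36) (.ev (nat_lit 52) (nat_lit 373309456) (.ev (nat_lit
 212) (nat_lit 64) (.ev (nat_lit 244) (nat_lit 2) (.ev (nat_lit 596) (nat_lit 524288) (.ev (nat_lit 788)
 (nat_lit 256) (.nd (nat_lit 1216) (.br (nat_lit 11) (.br (nat_lit 5) (.br (nat_lit 2) (.ch (nat_lit 0) (.ev
 (nat_lit 1232) (nat_lit 262144) (.ev (nat_lit 1245) (nat_lit 2097152) .dd))) (.ch (nat_lit 2) (.ev (nat_lit
 1232) (nat_lit 262144) (.ev (nat_lit 1245) (nat_lit 2097152) .dd)))) (.br (nat_lit 10) (.ch (nat_lit 5) (.ev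
 (nat_lit 1232) (nat_lit 2359296) .dd)) (.ch (nat_lit 10) (.ev (nat_lit 1232) (nat_lit 2097152) (.ev (nat_lit
 1245) (nat_lit 262144) .dd))))) (.br (nat_lit 13) (.br (nat_lit 12) (.ch (nat_lit 11) (.ev (nat_lit 1232)
 (nat_lit 262144) (.ev (nat_lit 1245) (nat_lit 2097152) .dd))) (.ch (nat_lit 12) (.ev (nat_lit 1232) (nat_lit
 2359296) .dd))) (.br (nat_lit 16) (.ch (nat_lit 13) (.ev (nat_lit 1232) (nat_lit 262144) (.ev (nat_lit 1245)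
 (nat_lit 2097152) .dd))) (.ch (nat_lit 16) (.ev (nat_lit 1232) (nat_lit 2359296) .dd)))))))))))))))))))

/-- Subtrie. -/
noncomputable def T8 : Tr := (.ev (nat_lit 20) (nat_lit 613957952) (.nd (nat_lit 33) (.br (nat_lit 19) (.br
 (nat_lit 11) (.br (nat_lit 7) (.br (nat_lit 4) (.ch (nat_lit 1) (.ev (nat_lit 52) (nat_lit 4489232) (.ev
 (nat_lit 224) (nat_lit 455090182) .dd))) (.br (nat_lit 5) (.ch (nat_lit 4) (.ev (nat_lit 52) (nat_lit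
 302022656) (.ev (nat_lit 96) (nat_lit 157556758) .dd))) (.ch (nat_lit 5) (.ev (nat_lit 52) (nat_lit 33816592)
 (.ev (nat_lit 564) (nat_lit 134217728) (.ev (nat_lit 948) (nat_lit 16777216) (.nd (nat_lit 1216) (.br (nat_lit
 8) (.br (nat_lit 4) (.ch (nat_lit 3) (.ev (nat_lit 1232) (nat_lit 274767874) (.ev (nat_lit 1245) (nat_lit 4)
 .dd))) (.br (nat_lit 6) (.ch (nat_lit 4) (.ev (nat_lit 1232) (nat_lit 8198) (.ev (nat_lit 1444) (nat_lit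
 268468224) (.nd (nat_lit 1649) (.ch (nat_lit 15) (.nd (nat_lit 1664) (.br (nat_lit 10) (.ch (nat_lit 0) (.fin
 (nat_lit 576464600600887876))) (.ch (nat_lit 10) (.ev (nat_lit 1680) (nat_lit 6291456) .dd))))))))) (.ch
 (nat_lit 6) (.ev (nat_lit 1232) (nat_lit 274759682) (.ev (nat_lit 1248) (nat_lit 8196) .dd))))) (.br (nat_lit
 9) (.ch (nat_lit 8) (.ev (nat_lit 1232) (nat_lit 274735104) (.ev (nat_lit 1444) (nat_lit 4) (.fin (nat_lit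
 576461302055518776))))) (.br (nat_lit 14) (.ch (nat_lit 9) (.ev (nat_lit 1232) (nat_lit 6332422) (.ev (nat_lit
 1245) (nat_lit 268435456) .dd))) (.ch (nat_lit 14) (.ev (nat_lit 1232) (nat_lit 274767878) .dd))))))))))))
 (.br (nat_lit 8) (.ch (nat_lit 7) (.ev (nat_lit 52) (nat_lit 153387008) (.ev (nat_lit 180) (nat_lit 33554432)
 (.ev (nat_lit 564) (nat_lit 4) (.ev (nat_lit 628) (nat_lit 4194304) (.nd (nat_lit 1216) (.br (nat_lit 10) (.br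
 (nat_lit 8) (.ch (nat_lit 6) (.ev (nat_lit 1232) (nat_lit 268435472) (.ev (nat_lit 1248) (nat_lit 8192) (.ev
 (nat_lit 1261) (nat_lit 2) .dd)))) (.br (nat_lit 9) (.ch (nat_lit 8) (.ev (nat_lit 1232) (nat_lit 268443650)
 (.ev (nat_lit 1245) (nat_lit 16) .dd))) (.ch (nat_lit 9) (.ev (nat_lit 1232) (nat_lit 2) (.ev (nat_lit 1444)
 (nat_lit 8208) (.ev (nat_lit 1453) (nat_lit 268435456) .dd)))))) (.br (nat_lit 13) (.ch (nat_lit 10) (.ev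
 (nat_lit 1232) (nat_lit 268443666) .dd)) (.br (nat_lit 14) (.ch (nat_lit 13) (.ev (nat_lit 1232) (nat_lit 2)
 (.ev (nat_lit 1376) (nat_lit 268435456) (.fin (nat_lit 576465700097835582))))) (.ch (nat_lit 14) (.ev (nat_lit
 1232) (nat_lit 268443666) .dd))))))))))) (.br (nat_lit 10) (.ch (nat_lit 8) (.ev (nat_lit 52) (nat_lit
 16777220) (.ev (nat_lit 148) (nat_lit 32768) (.ev (nat_lit 788) (nat_lit 16) (.ev (nat_lit 884) (nat_lit 8192)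
 (.ev (nat_lit 1120) (nat_lit 35651584) (.nd (nat_lit 1216) (.br (nat_lit 13) (.br (nat_lit 6) (.ch (nat_lit 3)
 (.ev (nat_lit 1232) (nat_lit 272891904) (.ev (nat_lit 1264) (nat_lit 2) (.ev (nat_lit 1277) (nat_lit
 134217728) .dd)))) (.br (nat_lit 8) (.ch (nat_lit 6) (.ev (nat_lit 1232) (nat_lit 402915328) (.ev (nat_lit
 1552) (nat_lit 4194306) .dd))) (.ch (nat_lit 8) (.ev (nat_lit 1232) (nat_lit 272891904) (.ev (nat_lit 1248)
 (nat_lit 134217730) .dd))))) (.br (nat_lit 15) (.ch (nat_lit 13) (.ev (nat_lit 1232) (nat_lit 138412034) (.ev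
 (nat_lit 1248) (nat_lit 268697600) .dd))) (.br (nat_lit 18) (.ch (nat_lit 15) (.ev (nat_lit 1232) (nat_lit
 402653186) (.ev (nat_lit 1600) (nat_lit 4456448) .dd))) (.ch (nat_lit 18) (.ev (nat_lit 1232) (nat_lit
 138412034) (.ev (nat_lit 1264) (nat_lit 262144) (.ev (nat_lit 1277) (nat_lit 268435456) .dd)))))))))))))) (.ch
 (nat_lit 10) (.ev (nat_lit 52) (nat_lit 438312976) (.ev (nat_lit 468) (nat_lit 2) (.ev (nat_lit 660) (nat_lit
 4194304) (.nd (nat_lit 1216) (.br (nat_lit 13) (.br (nat_lit 6) (.ch (nat_lit 4) (.ev (nat_lit 1232) (nat_lit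
 294916) (.ev (nat_lit 1245) (nat_lit 16777216) .dd))) (.br (nat_lit 8) (.ch (nat_lit 6) (.ev (nat_lit 1232)
 (nat_lit 17039360) (.fin (nat_lit 576456904011104830)))) (.ch (nat_lit 8) (.ev (nat_lit 1232) (nat_lit 4) (.ev
 (nat_lit 1328) (nat_lit 32768) (.ev (nat_lit 1344) (nat_lit 262144) (.ev (nat_lit 1357) (nat_lit 16777216)
 .dd))))))) (.br (nat_lit 15) (.br (nat_lit 14) (.ch (nat_lit 13) (.ev (nat_lit 1232) (nat_lit 17072132) .dd))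
 (.ch (nat_lit 14) (.ev (nat_lit 1232) (nat_lit 17072132) .dd))) (.br (nat_lit 16) (.ch (nat_lit 15) (.ev
 (nat_lit 1232) (nat_lit 16809984) (.ev (nat_lit 1328) (nat_lit 262148) .dd))) (.ch (nat_lit 16) (.ev (nat_lit
 1232) (nat_lit 16809988) (.ev (nat_lit 1245) (nat_lit 262144) .dd)))))))))))))) (.br (nat_lit 15) (.br
 (nat_lit 12) (.ch (nat_lit 11) (.ev (nat_lit 52) (nat_lit 285253632) (.nd (nat_lit 1216) (.br (nat_lit 10)
 (.br (nat_lit 4) (.ch (nat_lit 3) (.ev (nat_lit 1232) (nat_lit 40108052) (.ev (nat_lit 1280) (nat_lit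
 134217728) (.ev (nat_lit 1293) (nat_lit 2) .dd)))) (.br (nat_lit 8) (.ch (nat_lit 4) (.ev (nat_lit 1232)
 (nat_lit 33816582) (.ev (nat_lit 1328) (nat_lit 16) (.ev (nat_lit 1344) (nat_lit 134217728) (.fin (nat_lit
 576464600600887876)))))) (.ch (nat_lit 8) (.ev (nat_lit 1232) (nat_lit 174325760) (.ev (nat_lit 1248) (nat_lit
 4) (.ev (nat_lit 1280) (nat_lit 16) (.ev (nat_lit 1293) (nat_lit 2) .dd))))))) (.br (nat_lit 15) (.br (nat_lit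
 14) (.ch (nat_lit 10) (.ev (nat_lit 1232) (nat_lit 174325782) .dd)) (.ch (nat_lit 14) (.ev (nat_lit 1232)
 (nat_lit 174325766) (.ev (nat_lit 1245) (nat_lit 16) .dd)))) (.br (nat_lit 16) (.ch (nat_lit 15) (.ev (nat_lit
 1232) (nat_lit 40108050) (.ev (nat_lit 1360) (nat_lit 4) (.ev (nat_lit 1373) (nat_lit 134217728) .dd)))) (.ch
 (nat_lit 16) (.ev (nat_lit 1232) (nat_lit 140509206) (.ev (nat_lit 1312) (nat_lit 33816576) .dd))))))))) (.br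
 (nat_lit 13) (.ch (nat_lit 12) (.ev (nat_lit 52) (nat_lit 425754628) (.nd (nat_lit 1216) (.br (nat_lit 9) (.br
 (nat_lit 6) (.ch (nat_lit 4) (.ev (nat_lit 1232) (nat_lit 33824786) .dd)) (.ch (nat_lit 6) (.ev (nat_lit 1232)
 (nat_lit 33824786) .dd))) (.br (nat_lit 13) (.ch (nat_lit 9) (.ev (nat_lit 1232) (nat_lit 270352) (.ev
 (nat_lit 1616) (nat_lit 33554434) .dd))) (.br (nat_lit 16) (.ch (nat_lit 13) (.ev (nat_lit 1232) (nat_lit
 33554434) (.ev (nat_lit 1264) (nat_lit 262144) (.fin (nat_lit 576465700097835582))))) (.ch (nat_lit 16) (.ev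
 (nat_lit 1232) (nat_lit 270354) (.ev (nat_lit 1245) (nat_lit 33554432) .dd))))))))) (.ch (nat_lit 13) (.ev
 (nat_lit 52) (nat_lit 4235264) (.ev (nat_lit 308) (nat_lit 33554432) (.ev (nat_lit 436) (nat_lit 16777216)
 (.ev (nat_lit 1088) (nat_lit 134217728) (.nd (nat_lit 1216) (.br (nat_lit 13) (.br (nat_lit 8) (.ch (nat_lit
 3) (.ev (nat_lit 1232) (nat_lit 270794768) (.fin (nat_lit 576459103037506121)))) (.br (nat_lit 10) (.ch
 (nat_lit 8) (.ev (nat_lit 1232) (nat_lit 270532630) (.ev (nat_lit 1245) (nat_lit 262144) .dd))) (.ch (nat_lit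
 10) (.ev (nat_lit 1232) (nat_lit 270532614) (.ev (nat_lit 1376) (nat_lit 16) (.ev (nat_lit 1389) (nat_lit
 262144) .dd)))))) (.br (nat_lit 16) (.ch (nat_lit 13) (.ev (nat_lit 1232) (nat_lit 262166) (.ev (nat_lit 1444)
 (nat_lit 2097152) (.ev (nat_lit 1453) (nat_lit 268435456) .dd)))) (.br (nat_lit 18) (.ch (nat_lit 16) (.ev
 (nat_lit 1232) (nat_lit 268697622) (.ev (nat_lit 1245) (nat_lit 2097152) .dd))) (.ch (nat_lit 18) (.ev
 (nat_lit 1232) (nat_lit 268435478) (.ev (nat_lit 1408) (nat_lit 2097152) (.ev (nat_lit 1421) (nat_lit 262144)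
 .dd))))))))))))))) (.br (nat_lit 17) (.br (nat_lit 16) (.ch (nat_lit 15) (.ev (nat_lit 52) (nat_lit 23068674)
 (.ev (nat_lit 160) (nat_lit 436510740) .dd))) (.ch (nat_lit 16) (.ev (nat_lit 52) (nat_lit 2105346) (.ev
 (nat_lit 84) (nat_lit 32768) (.ev (nat_lit 288) (nat_lit 457441300) .dd))))) (.br (nat_lit 18) (.ch (nat_lit
 17) (.ev (nat_lit 52) (nat_lit 319029252) (.ev (nat_lit 384) (nat_lit 140550162) .dd))) (.ch (nat_lit 18) (.ev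
 (nat_lit 52) (nat_lit 170139650) (.ev (nat_lit 340) (nat_lit 32768) (.ev (nat_lit 756) (nat_lit 16) (.ev
 (nat_lit 884) (nat_lit 16777216) (.ev (nat_lit 1056) (nat_lit 4194304) (.nd (nat_lit 1216) (.br (nat_lit 14)
 (.br (nat_lit 9) (.br (nat_lit 8) (.ch (nat_lit 3) (.ev (nat_lit 1232) (nat_lit 268435460) .dd)) (.ch (nat_lit
 8) (.ev (nat_lit 1232) (nat_lit 268435460) .dd))) (.br (nat_lit 10) (.ch (nat_lit 9) (.ev (nat_lit 1232)
 (nat_lit 268435460) .dd)) (.ch (nat_lit 10) (.ev (nat_lit 1232) (nat_lit 4) (.ev (nat_lit 1245) (nat_lit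
 268435456) .dd))))) (.br (nat_lit 16) (.br (nat_lit 15) (.ch (nat_lit 14) (.ev (nat_lit 1232) (nat_lit
 268435460) .dd)) (.ch (nat_lit 15) (.ev (nat_lit 1232) (nat_lit 268435456) (.ev (nat_lit 1245) (nat_lit 4)
 .dd)))) (.br (nat_lit 18) (.ch (nat_lit 16) (.ev (nat_lit 1232) (nat_lit 268435460) .dd)) (.ch (nat_lit 18)
 (.ev (nat_lit 1232) (nat_lit 268435460) .dd)))))))))))))))) (.br (nat_lit 26) (.br (nat_lit 22) (.br (nat_lit
 20) (.ch (nat_lit 19) (.ev (nat_lit 52) (nat_lit 8192) (.ev (nat_lit 84) (nat_lit 134217728) (.ev (nat_lit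
 276) (nat_lit 33554432) (.ev (nat_lit 596) (nat_lit 4227072) (.ev (nat_lit 1072) (nat_lit 268435456) (.nd
 (nat_lit 1216) (.br (nat_lit 10) (.br (nat_lit 4) (.ch (nat_lit 3) (.ev (nat_lit 1232) (nat_lit 19136528)
 (.fin (nat_lit 576459103037506121)))) (.br (nat_lit 6) (.ch (nat_lit 4) (.ev (nat_lit 1232) (nat_lit 17039366)
 (.ev (nat_lit 1408) (nat_lit 16) (.ev (nat_lit 1421) (nat_lit 2097152) .dd)))) (.ch (nat_lit 6) (.ev (nat_lit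
 1232) (nat_lit 262166) (.ev (nat_lit 1376) (nat_lit 16777216) (.ev (nat_lit 1389) (nat_lit 2097152) .dd))))))
 (.br (nat_lit 14) (.ch (nat_lit 10) (.ev (nat_lit 1232) (nat_lit 18874374) (.ev (nat_lit 1444) (nat_lit 16)
 (.ev (nat_lit 1453) (nat_lit 262144) .dd)))) (.br (nat_lit 16) (.ch (nat_lit 14) (.ev (nat_lit 1232) (nat_lit
 19136518) (.ev (nat_lit 1245) (nat_lit 16) .dd))) (.ch (nat_lit 16) (.ev (nat_lit 1232) (nat_lit 17039382)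
 (.ev (nat_lit 1245) (nat_lit 2097152) .dd))))))))))))) (.br (nat_lit 21) (.ch (nat_lit 20) (.ev (nat_lit 52)
 (nat_lit 54829076) (.ev (nat_lit 628) (nat_lit 268435456) (.ev (nat_lit 896) (nat_lit 136314882) .dd)))) (.ch
 (nat_lit 21) (.ev (nat_lit 52) (nat_lit 289406992) (.ev (nat_lit 148) (nat_lit 2) (.ev (nat_lit 596) (nat_lit
 4) (.ev (nat_lit 692) (nat_lit 262144) (.nd (nat_lit 1216) (.br (nat_lit 13) (.br (nat_lit 8) (.br (nat_lit 6)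
 (.ch (nat_lit 4) (.ev (nat_lit 1232) (nat_lit 33562624) (.ev (nat_lit 1392) (nat_lit 134217728) (.ev (nat_lit
 1444) (nat_lit 2097152) (.ev (nat_lit 1453) (nat_lit 32768) .dd))))) (.ch (nat_lit 6) (.ev (nat_lit 1232)
 (nat_lit 167804928) (.ev (nat_lit 1248) (nat_lit 2097152) (.ev (nat_lit 1261) (nat_lit 8192) .dd))))) (.br
 (nat_lit 9) (.ch (nat_lit 8) (.ev (nat_lit 1232) (nat_lit 169910272) .dd)) (.ch (nat_lit 9) (.ev (nat_lit
 1232) (nat_lit 169902080) (.ev (nat_lit 1245) (nat_lit 8192) .dd))))) (.br (nat_lit 16) (.br (nat_lit 14) (.ch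
 (nat_lit 13) (.ev (nat_lit 1232) (nat_lit 167813120) (.ev (nat_lit 1245) (nat_lit 2097152) .dd))) (.ch
 (nat_lit 14) (.ev (nat_lit 1232) (nat_lit 169910272) .dd))) (.br (nat_lit 18) (.ch (nat_lit 16) (.ev (nat_lit
 1232) (nat_lit 167804928) (.ev (nat_lit 1248) (nat_lit 8192) (.ev (nat_lit 1261) (nat_lit 2097152) .dd))))
 (.ch (nat_lit 18) (.ev (nat_lit 1232) (nat_lit 136314880) (.ev (nat_lit 1392) (nat_lit 33554432) (.ev (nat_lit
 1444) (nat_lit 8192) (.ev (nat_lit 1453) (nat_lit 32768) .dd)))))))))))))))) (.br (nat_lit 24) (.ch (nat_lit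
 22) (.ev (nat_lit 52) (nat_lit 302252034) (.ev (nat_lit 340) (nat_lit 138412032) (.ev (nat_lit 532) (nat_lit
 32768) (.ev (nat_lit 660) (nat_lit 4) (.ev (nat_lit 756) (nat_lit 8192) (.ev (nat_lit 852) (nat_lit 16) (.nd
 (nat_lit 1216) (.br (nat_lit 14) (.br (nat_lit 9) (.ch (nat_lit 4) (.ev (nat_lit 1232) (nat_lit 16777216) (.ev
 (nat_lit 1245) (nat_lit 2097152) .dd))) (.br (nat_lit 13) (.ch (nat_lit 9) (.ev (nat_lit 1232) (nat_lit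
 18874368) .dd)) (.ch (nat_lit 13) (.ev (nat_lit 1232) (nat_lit 16777216) (.ev (nat_lit 1245) (nat_lit 2097152)
 .dd))))) (.br (nat_lit 16) (.br (nat_lit 15) (.ch (nat_lit 14) (.ev (nat_lit 1232) (nat_lit 18874368) .dd))
 (.ch (nat_lit 15) (.ev (nat_lit 1232) (nat_lit 16777216) (.ev (nat_lit 1245) (nat_lit 2097152) .dd)))) (.br
 (nat_lit 18) (.ch (nat_lit 16) (.ev (nat_lit 1232) (nat_lit 18874368) .dd)) (.ch (nat_lit 18) (.ev (nat_lit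
 1232) (nat_lit 2097152) (.ev (nat_lit 1245) (nat_lit 16777216) .dd)))))))))))))) (.br (nat_lit 25) (.ch
 (nat_lit 24) (.ev (nat_lit 52) (nat_lit 21266432) (.ev (nat_lit 192) (nat_lit 438312982) .dd))) (.ch (nat_lit
 25) (.ev (nat_lit 52) (nat_lit 2359314) (.ev (nat_lit 84) (nat_lit 4194304) (.ev (nat_lit 500) (nat_lit
 33554432) (.ev (nat_lit 532) (nat_lit 134217728) (.ev (nat_lit 980) (nat_lit 16777216) (.nd (nat_lit 1216)
 (.br (nat_lit 10) (.br (nat_lit 6) (.ch (nat_lit 3) (.ev (nat_lit 1232) (nat_lit 268468224) (.ev (nat_lit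
 1328) (nat_lit 8196) .dd))) (.br (nat_lit 9) (.ch (nat_lit 6) (.ev (nat_lit 1232) (nat_lit 268443648) (.fin
 (nat_lit 576456904011104830)))) (.ch (nat_lit 9) (.ev (nat_lit 1232) (nat_lit 268468228) (.ev (nat_lit 1245)
 (nat_lit 8192) .dd))))) (.br (nat_lit 16) (.br (nat_lit 13) (.ch (nat_lit 10) (.ev (nat_lit 1232) (nat_lit
 268476420) .dd)) (.ch (nat_lit 13) (.ev (nat_lit 1232) (nat_lit 40964) (.ev (nat_lit 1245) (nat_lit 268435456)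
 .dd)))) (.br (nat_lit 18) (.ch (nat_lit 16) (.ev (nat_lit 1232) (nat_lit 268476420) .dd)) (.ch (nat_lit 18)
 (.ev (nat_lit 1232) (nat_lit 4) (.ev (nat_lit 1328) (nat_lit 32768) (.ev (nat_lit 1344) (nat_lit 8192) (.ev
 (nat_lit 1357) (nat_lit 268435456) .dd)))))))))))))))))) (.br (nat_lit 30) (.br (nat_lit 27) (.ch (nat_lit 26)
 (.ev (nat_lit 52) (nat_lit 52428806) (.ev (nat_lit 352) (nat_lit 407150608) .dd))) (.br (nat_lit 29) (.ch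
 (nat_lit 27) (.ev (nat_lit 52) (nat_lit 138412038) (.ev (nat_lit 212) (nat_lit 33554432) (.ev (nat_lit 436)
 (nat_lit 16) (.ev (nat_lit 564) (nat_lit 32768) (.ev (nat_lit 660) (nat_lit 268435456) (.ev (nat_lit 852)
 (nat_lit 16777216) (.nd (nat_lit 1216) (.br (nat_lit 10) (.br (nat_lit 6) (.br (nat_lit 4) (.ch (nat_lit 3)
 (.ev (nat_lit 1232) (nat_lit 2367488) .dd)) (.ch (nat_lit 4) (.ev (nat_lit 1232) (nat_lit 270336) (.ev
 (nat_lit 1245) (nat_lit 2097152) .dd)))) (.br (nat_lit 9) (.ch (nat_lit 6) (.ev (nat_lit 1232) (nat_lit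
 262144) (.ev (nat_lit 1444) (nat_lit 8192) (.ev (nat_lit 1453) (nat_lit 2097152) .dd)))) (.ch (nat_lit 9) (.ev
 (nat_lit 1232) (nat_lit 2359296) (.ev (nat_lit 1245) (nat_lit 8192) .dd))))) (.br (nat_lit 15) (.br (nat_lit
 13) (.ch (nat_lit 10) (.ev (nat_lit 1232) (nat_lit 2367488) .dd)) (.ch (nat_lit 13) (.ev (nat_lit 1248)
 (nat_lit 2097152) (.ev (nat_lit 1344) (nat_lit 270336) .dd)))) (.br (nat_lit 16) (.ch (nat_lit 15) (.ev
 (nat_lit 1232) (nat_lit 270336) (.ev (nat_lit 1245) (nat_lit 2097152) .dd))) (.ch (nat_lit 16) (.ev (nat_lit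
 1232) (nat_lit 2359296) (.ev (nat_lit 1245) (nat_lit 8192) .dd)))))))))))))) (.ch (nat_lit 29) (.ev (nat_lit
 52) (nat_lit 4227074) (.ev (nat_lit 148) (nat_lit 4) (.ev (nat_lit 256) (nat_lit 455352336) .dd)))))) (.br
 (nat_lit 35) (.br (nat_lit 33) (.ch (nat_lit 30) (.ev (nat_lit 52) (nat_lit 268435474) (.ev (nat_lit 148)
 (nat_lit 134217728) (.ev (nat_lit 436) (nat_lit 8192) (.ev (nat_lit 756) (nat_lit 16777216) (.ev (nat_lit
 1012) (nat_lit 4194304) (.ev (nat_lit 1184) (nat_lit 33554432) (.nd (nat_lit 1216) (.br (nat_lit 13) (.br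
 (nat_lit 10) (.ch (nat_lit 9) (.ev (nat_lit 1232) (nat_lit 2392064) (.ev (nat_lit 1245) (nat_lit 4) .dd)))
 (.ch (nat_lit 10) (.ev (nat_lit 1232) (nat_lit 2129924) (.ev (nat_lit 1245) (nat_lit 262144) .dd)))) (.br
 (nat_lit 15) (.ch (nat_lit 13) (.ev (nat_lit 1232) (nat_lit 32772) (.ev (nat_lit 1444) (nat_lit 262144) (.ev
 (nat_lit 1453) (nat_lit 2097152) .dd)))) (.br (nat_lit 18) (.ch (nat_lit 15) (.ev (nat_lit 1232) (nat_lit
 32768) (.ev (nat_lit 1280) (nat_lit 4) (.ev (nat_lit 1444) (nat_lit 2097152) (.ev (nat_lit 1453) (nat_lit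
 262144) .dd))))) (.ch (nat_lit 18) (.ev (nat_lit 1232) (nat_lit 2359300) (.ev (nat_lit 1245) (nat_lit 32768)
 .dd)))))))))))))) (.ch (nat_lit 33) (.ev (nat_lit 52) (nat_lit 155189252) (.ev (nat_lit 84) (nat_lit
 268435456) (.ev (nat_lit 148) (nat_lit 2097152) (.ev (nat_lit 480) (nat_lit 33857554) .dd)))))) (.br (nat_lit
 36) (.ch (nat_lit 35) (.ev (nat_lit 52) (nat_lit 134225924) (.ev (nat_lit 84) (nat_lit 2097152) (.ev (nat_lit
 436) (nat_lit 262144) (.ev (nat_lit 468) (nat_lit 268435456) (.ev (nat_lit 1104) (nat_lit 16) (.nd (nat_lit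
 1216) (.br (nat_lit 15) (.br (nat_lit 6) (.ch (nat_lit 3) (.ev (nat_lit 1232) (nat_lit 37781506) (.ev (nat_lit
 1245) (nat_lit 16777216) .dd))) (.br (nat_lit 8) (.ch (nat_lit 6) (.ev (nat_lit 1232) (nat_lit 32770) (.ev
 (nat_lit 1444) (nat_lit 4194304) (.ev (nat_lit 1584) (nat_lit 50331648) .dd)))) (.ch (nat_lit 8) (.ev (nat_lit
 1232) (nat_lit 37748736) (.ev (nat_lit 1264) (nat_lit 16777216) (.nd (nat_lit 1649) (.ch (nat_lit 2) (.nd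
 (nat_lit 1664) (.ch (nat_lit 16) (.fin (nat_lit 576461302055518776))))))))))) (.br (nat_lit 16) (.ch (nat_lit
 15) (.ev (nat_lit 1232) (nat_lit 54558720) (.ev (nat_lit 1245) (nat_lit 2) .dd))) (.br (nat_lit 18) (.ch
 (nat_lit 16) (.ev (nat_lit 1232) (nat_lit 54558722) .dd)) (.ch (nat_lit 18) (.ev (nat_lit 1232) (nat_lit
 21004290) (.ev (nat_lit 1245) (nat_lit 33554432) .dd))))))))))))) (.ch (nat_lit 36) (.ev (nat_lit 52) (nat_lit
 440410132) (.ev (nat_lit 340) (nat_lit 2) (.ev (nat_lit 724) (nat_lit 262144) (.nd (nat_lit 1216) (.br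
 (nat_lit 8) (.br (nat_lit 4) (.ch (nat_lit 3) (.ev (nat_lit 1232) (nat_lit 2097152) (.ev (nat_lit 1476)
 (nat_lit 32768) (.ev (nat_lit 1485) (nat_lit 16777216) .dd)))) (.br (nat_lit 6) (.ch (nat_lit 4) (.ev (nat_lit
 1232) (nat_lit 18907136) .dd)) (.ch (nat_lit 6) (.ev (nat_lit 1264) (nat_lit 32768) (.ev (nat_lit 1444)
 (nat_lit 2097152) (.ev (nat_lit 1453) (nat_lit 16777216) .dd)))))) (.br (nat_lit 9) (.ch (nat_lit 8) (.ev
 (nat_lit 1232) (nat_lit 18874368) (.ev (nat_lit 1245) (nat_lit 32768) .dd))) (.br (nat_lit 10) (.ch (nat_lit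
 9) (.ev (nat_lit 1232) (nat_lit 18907136) .dd)) (.ch (nat_lit 10) (.ev (nat_lit 1232) (nat_lit 18907136)
 .dd)))))))))))))))))

/-- The trie. -/
noncomputable def T : Tr := .nd (nat_lit 1000000) (.br (nat_lit 7) (.br (nat_lit 2) (.br (nat_lit 1) (.ch
 (nat_lit 0) (.ev (nat_lit 0) (nat_lit 2147483647) .dd)) (.ch (nat_lit 1) T1)) (.br (nat_lit 3) (.ch (nat_lit
 2) T2) (.br (nat_lit 4) (.ch (nat_lit 3) (.ev (nat_lit 0) (nat_lit 2147483647) .dd)) (.ch (nat_lit 4) (.ev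
 (nat_lit 0) (nat_lit 2147483647) .dd))))) (.br (nat_lit 9) (.br (nat_lit 8) (.ch (nat_lit 7) (.ev (nat_lit 0)
 (nat_lit 2147483647) .dd)) (.ch (nat_lit 8) T8)) (.br (nat_lit 14) (.ch (nat_lit 9) (.ev (nat_lit 0) (nat_lit
 2147483647) .dd)) (.br (nat_lit 18) (.ch (nat_lit 14) (.ev (nat_lit 0) (nat_lit 2147483647) .dd)) (.ch
 (nat_lit 18) (.ev (nat_lit 0) (nat_lit 2147483647) .dd))))))

/-- The possible values. -/
noncomputable def oks : List ℕ := [58, 85, 178, 210, 234]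

/-- The parameters. -/
noncomputable def S : Pr := ⟨fun i l e => lget mz (lget [] (lget [] tabs i) l) e, oks, [(nat_lit 0), (nat_lit
 1), (nat_lit 0), (nat_lit 1), (nat_lit 0)], T, (nat_lit 2147483647), (nat_lit 1073946281), (nat_lit 31),
 [(nat_lit 279193), (nat_lit 23899161165)], [(nat_lit 2476099), (nat_lit 1874161)]⟩

/-- Nothing known. -/
noncomputable def cs0 : Cs := (.cons (nat_lit 19) (nat_lit 0) (nat_lit 1) (.cons (nat_lit 37) (nat_lit 0) (nat_lit 1) .nil))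

theorem part_1 : part S cs0 (nat_lit 1) = true := by decide +kernel

theorem part_2 : part S cs0 (nat_lit 2) = true := by decide +kernel

theorem part_8 : part S cs0 (nat_lit 8) = true := by decide +kernel

/-- Data of a prime. -/
noncomputable def D0 : PD := ⟨(nat_lit 19), (nat_lit 5), (921843, 3, 5), (283452, 1051786, 1625863), (861529, 1144748, 833743)⟩

theorem D0_ok : D0.Ok := pdb_sound (s := 9) (C := ⟨⟨21, 6, -28, 11, 14, 17, -4, 7, -1⟩, (2, 11, 15)⟩) (by show Nat.Prime 19; norm_num) (by decide +kernel)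

/-- Lines of the first type. -/
noncomputable def Cl0 : List C1 := [⟨⟨11, 14, -28, 21, 6, 7, 4, -7, -5⟩, (12, 16, 13)⟩,
  ⟨⟨0, 0, 0, 0, 0, 0, 0, 0, 0⟩, (0, 0, 0)⟩,
  ⟨⟨0, 0, 0, 0, 0, 0, 0, 0, 0⟩, (0, 0, 0)⟩,
  ⟨⟨9, 6, -32, 1, 26, 7, 8, -1, -1⟩, (8, 3, 5)⟩,
  ⟨⟨-9, -6, -23, -1, -26, 8, 8, -1, -7⟩, (13, 12, 18)⟩,
  ⟨⟨0, 0, 0, 0, 0, 0, 0, 0, 0⟩, (0, 0, 0)⟩,
  ⟨⟨0, 0, 0, 0, 0, 0, 0, 0, 0⟩, (0, 0, 0)⟩,
  ⟨⟨9, -6, -32, 1, -26, 7, 8, 1, -1⟩, (5, 9, 15)⟩,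
  ⟨⟨0, 0, 0, 0, 0, 0, 0, 0, 0⟩, (0, 0, 0)⟩,
  ⟨⟨21, -6, -28, 11, -14, 17, -4, -7, -1⟩, (16, 12, 6)⟩,
  ⟨⟨0, 0, 0, 0, 0, 0, 0, 0, 0⟩, (0, 0, 0)⟩,
  ⟨⟨0, 0, 0, 0, 0, 0, 0, 0, 0⟩, (0, 0, 0)⟩,
  ⟨⟨0, 0, 0, 0, 0, 0, 0, 0, 0⟩, (0, 0, 0)⟩,
  ⟨⟨0, 0, 0, 0, 0, 0, 0, 0, 0⟩, (0, 0, 0)⟩,
  ⟨⟨11, -14, -28, 21, -6, 7, 4, 7, -5⟩, (5, 13, 7)⟩,
  ⟨⟨0, 0, 0, 0, 0, 0, 0, 0, 0⟩, (0, 0, 0)⟩,
  ⟨⟨0, 0, 0, 0, 0, 0, 0, 0, 0⟩, (0, 0, 0)⟩,
  ⟨⟨0, 0, 0, 0, 0, 0, 0, 0, 0⟩, (0, 0, 0)⟩,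
  ⟨⟨-9, 6, -23, -1, 26, 8, 8, 1, -7⟩, (16, 6, 9)⟩]

/-- Data of a prime. -/
noncomputable def D1 : PD := ⟨(nat_lit 37), (nat_lit 4), (1164206, 16, 5), (290098, 1020852, 1005947), (112988, 1391410, 1055966)⟩

theorem D1_ok : D1.Ok := pdb_sound (s := 2) (C := ⟨⟨43, 22, -44, 23, -2, 41, 6, -15, -7⟩, (6, 23, 6)⟩) (by show Nat.Prime 37; norm_num) (by decide +kernel)

/-- Lines of the first type. -/
noncomputable def Cl1 : List C1 := [⟨⟨23, -2, -64, 43, 22, 1, -6, 15, -1⟩, (31, 29, 8)⟩,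
  ⟨⟨0, 0, 0, 0, 0, 0, 0, 0, 0⟩, (0, 0, 0)⟩,
  ⟨⟨-7, 22, -49, 27, 42, 4, 14, -7, -13⟩, (1, 12, 35)⟩,
  ⟨⟨-13, 38, -31, -47, -22, 16, 6, -9, -17⟩, (20, 4, 5)⟩,
  ⟨⟨0, 0, 0, 0, 0, 0, 0, 0, 0⟩, (0, 0, 0)⟩,
  ⟨⟨0, 0, 0, 0, 0, 0, 0, 0, 0⟩, (0, 0, 0)⟩,
  ⟨⟨7, 22, -56, -27, 42, 31, 14, 7, -1⟩, (18, 31, 36)⟩,
  ⟨⟨0, 0, 0, 0, 0, 0, 0, 0, 0⟩, (0, 0, 0)⟩,
  ⟨⟨0, 0, 0, 0, 0, 0, 0, 0, 0⟩, (0, 0, 0)⟩,
  ⟨⟨13, -38, -44, -47, -22, 31, -6, 9, -11⟩, (18, 26, 23)⟩,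
  ⟨⟨0, 0, 0, 0, 0, 0, 0, 0, 0⟩, (0, 0, 0)⟩,
  ⟨⟨0, 0, 0, 0, 0, 0, 0, 0, 0⟩, (0, 0, 0)⟩,
  ⟨⟨0, 0, 0, 0, 0, 0, 0, 0, 0⟩, (0, 0, 0)⟩,
  ⟨⟨0, 0, 0, 0, 0, 0, 0, 0, 0⟩, (0, 0, 0)⟩,
  ⟨⟨13, 38, -44, -47, 22, 31, -6, -9, -11⟩, (4, 14, 1)⟩,
  ⟨⟨0, 0, 0, 0, 0, 0, 0, 0, 0⟩, (0, 0, 0)⟩,
  ⟨⟨0, 0, 0, 0, 0, 0, 0, 0, 0⟩, (0, 0, 0)⟩,
  ⟨⟨0, 0, 0, 0, 0, 0, 0, 0, 0⟩, (0, 0, 0)⟩,
  ⟨⟨0, 0, 0, 0, 0, 0, 0, 0, 0⟩, (0, 0, 0)⟩,
  ⟨⟨0, 0, 0, 0, 0, 0, 0, 0, 0⟩, (0, 0, 0)⟩,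
  ⟨⟨0, 0, 0, 0, 0, 0, 0, 0, 0⟩, (0, 0, 0)⟩,
  ⟨⟨0, 0, 0, 0, 0, 0, 0, 0, 0⟩, (0, 0, 0)⟩,
  ⟨⟨0, 0, 0, 0, 0, 0, 0, 0, 0⟩, (0, 0, 0)⟩,
  ⟨⟨-7, -22, -49, 27, -42, 4, 14, 7, -13⟩, (13, 8, 11)⟩,
  ⟨⟨0, 0, 0, 0, 0, 0, 0, 0, 0⟩, (0, 0, 0)⟩,
  ⟨⟨0, 0, 0, 0, 0, 0, 0, 0, 0⟩, (0, 0, 0)⟩,
  ⟨⟨0, 0, 0, 0, 0, 0, 0, 0, 0⟩, (0, 0, 0)⟩,
  ⟨⟨0, 0, 0, 0, 0, 0, 0, 0, 0⟩, (0, 0, 0)⟩,
  ⟨⟨23, 2, -64, 43, -22, 1, -6, -15, -1⟩, (3, 4, 33)⟩,
  ⟨⟨0, 0, 0, 0, 0, 0, 0, 0, 0⟩, (0, 0, 0)⟩,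
  ⟨⟨0, 0, 0, 0, 0, 0, 0, 0, 0⟩, (0, 0, 0)⟩,
  ⟨⟨-13, -38, -31, -47, 22, 16, 6, 9, -17⟩, (34, 29, 27)⟩,
  ⟨⟨7, -22, -56, -27, -42, 31, 14, -7, -1⟩, (30, 27, 23)⟩,
  ⟨⟨0, 0, 0, 0, 0, 0, 0, 0, 0⟩, (0, 0, 0)⟩,
  ⟨⟨43, -22, -44, 23, 2, 41, 6, 15, -7⟩, (12, 9, 12)⟩,
  ⟨⟨0, 0, 0, 0, 0, 0, 0, 0, 0⟩, (0, 0, 0)⟩,
  ⟨⟨0, 0, 0, 0, 0, 0, 0, 0, 0⟩, (0, 0, 0)⟩]

/-- Data of a prime. -/
noncomputable def Dm : PD := ⟨(nat_lit 31), (nat_lit 2), (435, 8, 13), (281, 829, 278), (666, 926, 286)⟩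

theorem Dm_ok : Dm.Ok := pdb_sound (s := 3) (C := ⟨⟨11, 26, -43, -19, 34, 32, -12, -3, -1⟩, (11, 12, 19)⟩) (by show Nat.Prime 31; norm_num) (by decide +kernel)

/-- Lines of the first type. -/
noncomputable def Clm : List C1 := [⟨⟨-11, -26, -32, 19, -34, 13, 12, 3, -13⟩, (22, 24, 7)⟩,
  ⟨⟨0, 0, 0, 0, 0, 0, 0, 0, 0⟩, (0, 0, 0)⟩,
  ⟨⟨0, 0, 0, 0, 0, 0, 0, 0, 0⟩, (0, 0, 0)⟩,
  ⟨⟨29, 26, -37, 21, 6, 32, 8, -11, -7⟩, (2, 10, 23)⟩,
  ⟨⟨0, 0, 0, 0, 0, 0, 0, 0, 0⟩, (0, 0, 0)⟩,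
  ⟨⟨21, 6, -53, 29, 26, 8, 8, -11, -1⟩, (6, 26, 20)⟩,
  ⟨⟨0, 0, 0, 0, 0, 0, 0, 0, 0⟩, (0, 0, 0)⟩,
  ⟨⟨29, -26, -37, 21, -6, 32, 8, 11, -7⟩, (27, 11, 16)⟩,
  ⟨⟨0, 0, 0, 0, 0, 0, 0, 0, 0⟩, (0, 0, 0)⟩,
  ⟨⟨-9, -6, -43, -41, 14, 28, 4, 13, -5⟩, (4, 1, 12)⟩,
  ⟨⟨9, -6, -52, -41, -14, 13, -4, 13, -1⟩, (29, 16, 25)⟩,
  ⟨⟨21, -6, -53, 29, -26, 8, 8, 11, -1⟩, (7, 20, 13)⟩,
  ⟨⟨9, 6, -52, -41, 14, 13, -4, -13, -1⟩, (28, 24, 22)⟩,
  ⟨⟨0, 0, 0, 0, 0, 0, 0, 0, 0⟩, (0, 0, 0)⟩,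
  ⟨⟨0, 0, 0, 0, 0, 0, 0, 0, 0⟩, (0, 0, 0)⟩,
  ⟨⟨0, 0, 0, 0, 0, 0, 0, 0, 0⟩, (0, 0, 0)⟩,
  ⟨⟨11, -26, -43, -19, -34, 32, -12, 3, -1⟩, (25, 16, 15)⟩,
  ⟨⟨-9, 6, -43, -41, -14, 28, 4, -13, -5⟩, (3, 24, 9)⟩,
  ⟨⟨0, 0, 0, 0, 0, 0, 0, 0, 0⟩, (0, 0, 0)⟩,
  ⟨⟨0, 0, 0, 0, 0, 0, 0, 0, 0⟩, (0, 0, 0)⟩,
  ⟨⟨0, 0, 0, 0, 0, 0, 0, 0, 0⟩, (0, 0, 0)⟩,
  ⟨⟨0, 0, 0, 0, 0, 0, 0, 0, 0⟩, (0, 0, 0)⟩,
  ⟨⟨0, 0, 0, 0, 0, 0, 0, 0, 0⟩, (0, 0, 0)⟩,
  ⟨⟨0, 0, 0, 0, 0, 0, 0, 0, 0⟩, (0, 0, 0)⟩,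
  ⟨⟨0, 0, 0, 0, 0, 0, 0, 0, 0⟩, (0, 0, 0)⟩,
  ⟨⟨0, 0, 0, 0, 0, 0, 0, 0, 0⟩, (0, 0, 0)⟩,
  ⟨⟨0, 0, 0, 0, 0, 0, 0, 0, 0⟩, (0, 0, 0)⟩,
  ⟨⟨0, 0, 0, 0, 0, 0, 0, 0, 0⟩, (0, 0, 0)⟩,
  ⟨⟨0, 0, 0, 0, 0, 0, 0, 0, 0⟩, (0, 0, 0)⟩,
  ⟨⟨0, 0, 0, 0, 0, 0, 0, 0, 0⟩, (0, 0, 0)⟩,
  ⟨⟨-11, 26, -32, 19, 34, 13, 12, -3, -13⟩, (28, 8, 23)⟩]

/-- Unit moves. -/
noncomputable def U : List Mv := [mz,
  mz,
  mz,
  mz,
  mz,
  ⟨⟨-1, 0, 1, 0, 1, 0, 0, 0, 1⟩, .nil, (nat_lit 18), (nat_lit 9), (nat_lit 4), (nat_lit 1), (0, 0, 0), [], 18⟩,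
  ⟨⟨-1, 0, 1, 0, -1, 0, 0, 0, 1⟩, .nil, (nat_lit 0), (nat_lit 12), (nat_lit 1), (nat_lit 0), (0, 0, 0), [], 7⟩,
  mz,
  mz,
  mz,
  ⟨⟨1, 0, 0, 0, -1, 0, 0, 0, 1⟩, .nil, (nat_lit 18), (nat_lit 14), (nat_lit 2), (nat_lit 1), (0, 0, 0), [], 10⟩,
  ⟨⟨-1, 0, 1, 0, -1, 0, 0, 0, 1⟩, .nil, (nat_lit 0), (nat_lit 12), (nat_lit 1), (nat_lit 0), (0, 0, 0), [], 7⟩,
  ⟨⟨-1, 0, 1, 0, -1, 0, 0, 0, 1⟩, .nil, (nat_lit 0), (nat_lit 12), (nat_lit 1), (nat_lit 0), (0, 0, 0), [], 7⟩,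
  ⟨⟨-1, 0, 1, 0, 1, 0, 0, 0, 1⟩, .nil, (nat_lit 18), (nat_lit 9), (nat_lit 4), (nat_lit 1), (0, 0, 0), [], 18⟩,
  mz,
  ⟨⟨-1, 0, 1, 0, 1, 0, 0, 0, 1⟩, .nil, (nat_lit 18), (nat_lit 9), (nat_lit 4), (nat_lit 1), (0, 0, 0), [], 18⟩,
  ⟨⟨1, 0, 0, 0, -1, 0, 0, 0, 1⟩, .nil, (nat_lit 18), (nat_lit 14), (nat_lit 2), (nat_lit 1), (0, 0, 0), [], 10⟩,
  ⟨⟨1, 0, 0, 0, -1, 0, 0, 0, 1⟩, .nil, (nat_lit 18), (nat_lit 14), (nat_lit 2), (nat_lit 1), (0, 0, 0), [], 10⟩,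
  mz]

theorem v_ty : tyb Dm S.ty1 Clm = true := by decide +kernel

theorem v_ty0 : tyb D0 (S.tys.getD 0 0) Cl0 = true := by decide +kernel

theorem v_ty1 : tyb D1 (S.tys.getD 1 0) Cl1 = true := by decide +kernel

theorem v_msc : mscb S D0 [D1] Dm (nat_lit 262) = true := by decide +kernel

theorem v_mv0 : mvsn (nat_lit 4459624458999379) S D0 [D1] Dm (nat_lit 262) 0 D0 = true := by decide +kernel

theorem v_mv1 : mvsn (nat_lit 4459624458999379) S D0 [D1] Dm (nat_lit 262) 1 D1 = true := by decide +kernel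

theorem v_mm : mmsn (nat_lit 4459624458999379) S D0 [D1] Dm (nat_lit 262) = true := by decide +kernel

theorem v_un : unb S D0 (nat_lit 262) U = true := by decide +kernel

theorem v_ok : okb S.oks [(0, 0, 0), (2, 9, 0), (0, 0, 0), (0, 0, 0), (0, 0, 0)] = true := by decide +kernel

theorem v_part : ∀ d < D0.p, (nat_lit 262).testBit d = true → part S (zc (D0 :: [D1])) d = true := by
  intro d hd h
  have h1 : ∀ d < 19, (nat_lit 262).testBit d = true → d = 1 ∨ d = 2 ∨ d = 8 := by decide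
  rcases h1 d hd h with rfl | rfl | rfl
  · exact part_1
  · exact part_2
  · exact part_8

theorem main (n : ℕ) (ho : Odd n) (hr : ¬ Rep n) (h0 : Split 19 n) (h1 : Split 37 n) (hm : Split 31 n) :
    n ∈ EE := by
  refine concln (W := nat_lit 4459624458999379) (S := S) (P0 := D0) (Pl := [D1]) (Pm := Dm) (cn := nat_lit 262) ?_ Dm_ok v_ty ?_ ?_ v_msc ?_ v_mm v_un v_part v_ok
    n ho hr ?_ hm
  · simp only [List.forall_mem_cons]
    exact ⟨D0_ok, D1_ok, fun _ h => absurd h (by simp)⟩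
  · exact all2 (φ := fun j P => ∃ L, tyb P (S.tys.getD j 0) L = true) ⟨_, v_ty0⟩ ⟨_, v_ty1⟩
  · exact all2 (φ := fun j P => Nat.ble (S.pks.getD j 0) (Nat.pow P.p P.K) = true) (by decide +kernel) (by decide +kernel)
  · exact all2 (φ := fun i P => mvsn (nat_lit 4459624458999379) S D0 [D1] Dm (nat_lit 262) i P = true) v_mv0 v_mv1
  · simp only [List.forall_mem_cons]
    exact ⟨h0, h1, fun _ h => absurd h (by simp)⟩

end Pool.Agent.Work.MP_9954fe_nt.P19_37_31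

namespace Pool.Agent.Work.MP_9954fe_nt.P19_37_53

/-- Dummy move. -/
noncomputable def mz : Mv := ⟨⟨0, 0, 0, 0, 0, 0, 0, 0, 0⟩, .nil, (nat_lit 0), (nat_lit 0), (nat_lit 0), (nat_lit 0), (0, 0, 0), [], 0⟩

/-- Moves. -/
noncomputable def t0_1 : List Mv := [
  ⟨⟨15, -4, -23, -10, 9, -10, 12, 12, -7⟩, (.cons (nat_lit 2704) (nat_lit 4284) (nat_lit 599) (nat_lit 1)
 (.cons (nat_lit 1001) (nat_lit 92) (nat_lit 1245) (nat_lit 1) .nil)), (nat_lit 41), (nat_lit 20), (nat_lit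
 35), (nat_lit 1), (18, 7, 3), [1854, 303], 40⟩,
  ⟨⟨15, -4, -23, 10, -9, 10, 12, 12, -7⟩, (.cons (nat_lit 2844) (nat_lit 6430) (nat_lit 1) (nat_lit 3439)
 (.cons (nat_lit 138) (nat_lit 1270) (nat_lit 370) (nat_lit 1) .nil)), (nat_lit 24), (nat_lit 0), (nat_lit 43),
 (nat_lit 1), (18, 12, 3), [6848, 967], 21⟩,
  ⟨⟨15, -4, -23, -10, 9, -10, 12, 12, -7⟩, (.cons (nat_lit 2704) (nat_lit 4284) (nat_lit 599) (nat_lit 1)
 (.cons (nat_lit 1001) (nat_lit 92) (nat_lit 1245) (nat_lit 1) .nil)), (nat_lit 41), (nat_lit 20), (nat_lit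
 35), (nat_lit 1), (18, 7, 3), [1854, 303], 40⟩,
  ⟨⟨15, -4, -23, -10, 9, -10, 12, 12, -7⟩, (.cons (nat_lit 2704) (nat_lit 4284) (nat_lit 599) (nat_lit 1)
 (.cons (nat_lit 1001) (nat_lit 92) (nat_lit 1245) (nat_lit 1) .nil)), (nat_lit 41), (nat_lit 20), (nat_lit
 35), (nat_lit 1), (18, 7, 3), [1854, 303], 40⟩,
  ⟨⟨-3, 16, 16, 10, -9, 10, 12, 12, -7⟩, (.cons (nat_lit 3484) (nat_lit 2313) (nat_lit 3503) (nat_lit 1) (.cons
 (nat_lit 1368) (nat_lit 1315) (nat_lit 1069) (nat_lit 1) .nil)), (nat_lit 52), (nat_lit 3), (nat_lit 10),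
 (nat_lit 1), (4, 12, 3), [1524, 206], 47⟩,
  ⟨⟨15, -4, -23, -10, 9, -10, 12, 12, -7⟩, (.cons (nat_lit 2704) (nat_lit 4284) (nat_lit 599) (nat_lit 1)
 (.cons (nat_lit 1001) (nat_lit 92) (nat_lit 1245) (nat_lit 1) .nil)), (nat_lit 41), (nat_lit 20), (nat_lit
 35), (nat_lit 1), (18, 7, 3), [1854, 303], 40⟩,
  ⟨⟨15, -4, -23, 10, -9, 10, 12, 12, -7⟩, (.cons (nat_lit 2844) (nat_lit 6430) (nat_lit 1) (nat_lit 3439)
 (.cons (nat_lit 138) (nat_lit 1270) (nat_lit 370) (nat_lit 1) .nil)), (nat_lit 24), (nat_lit 0), (nat_lit 43),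
 (nat_lit 1), (18, 12, 3), [6848, 967], 21⟩,
  ⟨⟨-3, 16, 16, -10, 9, -10, 12, 12, -7⟩, (.cons (nat_lit 1018) (nat_lit 3686) (nat_lit 555) (nat_lit 1) (.cons
 (nat_lit 185) (nat_lit 807) (nat_lit 178) (nat_lit 1) .nil)), (nat_lit 28), (nat_lit 29), (nat_lit 1),
 (nat_lit 0), (4, 7, 3), [730, 80], 21⟩,
  ⟨⟨15, -4, -23, -10, 9, -10, 12, 12, -7⟩, (.cons (nat_lit 2704) (nat_lit 4284) (nat_lit 599) (nat_lit 1)
 (.cons (nat_lit 1001) (nat_lit 92) (nat_lit 1245) (nat_lit 1) .nil)), (nat_lit 41), (nat_lit 20), (nat_lit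
 35), (nat_lit 1), (18, 7, 3), [1854, 303], 40⟩,
  ⟨⟨15, -4, -23, -10, 9, -10, 12, 12, -7⟩, (.cons (nat_lit 2704) (nat_lit 4284) (nat_lit 599) (nat_lit 1)
 (.cons (nat_lit 1001) (nat_lit 92) (nat_lit 1245) (nat_lit 1) .nil)), (nat_lit 41), (nat_lit 20), (nat_lit
 35), (nat_lit 1), (18, 7, 3), [1854, 303], 40⟩,
  ⟨⟨15, -4, -23, -10, 9, -10, 12, 12, -7⟩, (.cons (nat_lit 2704) (nat_lit 4284) (nat_lit 599) (nat_lit 1)
 (.cons (nat_lit 1001) (nat_lit 92) (nat_lit 1245) (nat_lit 1) .nil)), (nat_lit 41), (nat_lit 20), (nat_lit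
 35), (nat_lit 1), (18, 7, 3), [1854, 303], 40⟩,
  ⟨⟨-3, 16, 16, -10, 9, -10, 12, 12, -7⟩, (.cons (nat_lit 1018) (nat_lit 3686) (nat_lit 555) (nat_lit 1) (.cons
 (nat_lit 185) (nat_lit 807) (nat_lit 178) (nat_lit 1) .nil)), (nat_lit 28), (nat_lit 29), (nat_lit 1),
 (nat_lit 0), (4, 7, 3), [730, 80], 21⟩,
  ⟨⟨15, -4, -23, 10, -9, 10, 12, 12, -7⟩, (.cons (nat_lit 2844) (nat_lit 6430) (nat_lit 1) (nat_lit 3439)
 (.cons (nat_lit 138) (nat_lit 1270) (nat_lit 370) (nat_lit 1) .nil)), (nat_lit 24), (nat_lit 0), (nat_lit 43),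
 (nat_lit 1), (18, 12, 3), [6848, 967], 21⟩,
  ⟨⟨15, -4, -23, -10, 9, -10, 12, 12, -7⟩, (.cons (nat_lit 2704) (nat_lit 4284) (nat_lit 599) (nat_lit 1)
 (.cons (nat_lit 1001) (nat_lit 92) (nat_lit 1245) (nat_lit 1) .nil)), (nat_lit 41), (nat_lit 20), (nat_lit
 35), (nat_lit 1), (18, 7, 3), [1854, 303], 40⟩,
  ⟨⟨15, -4, -23, -10, 9, -10, 12, 12, -7⟩, (.cons (nat_lit 2704) (nat_lit 4284) (nat_lit 599) (nat_lit 1)
 (.cons (nat_lit 1001) (nat_lit 92) (nat_lit 1245) (nat_lit 1) .nil)), (nat_lit 41), (nat_lit 20), (nat_lit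
 35), (nat_lit 1), (18, 7, 3), [1854, 303], 40⟩,
  ⟨⟨-3, 16, 16, -10, 9, -10, 12, 12, -7⟩, (.cons (nat_lit 1018) (nat_lit 3686) (nat_lit 555) (nat_lit 1) (.cons
 (nat_lit 185) (nat_lit 807) (nat_lit 178) (nat_lit 1) .nil)), (nat_lit 28), (nat_lit 29), (nat_lit 1),
 (nat_lit 0), (4, 7, 3), [730, 80], 21⟩,
  ⟨⟨15, -4, -23, -10, 9, -10, 12, 12, -7⟩, (.cons (nat_lit 2704) (nat_lit 4284) (nat_lit 599) (nat_lit 1)
 (.cons (nat_lit 1001) (nat_lit 92) (nat_lit 1245) (nat_lit 1) .nil)), (nat_lit 41), (nat_lit 20), (nat_lit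
 35), (nat_lit 1), (18, 7, 3), [1854, 303], 40⟩,
  ⟨⟨15, -4, -23, -10, 9, -10, 12, 12, -7⟩, (.cons (nat_lit 2704) (nat_lit 4284) (nat_lit 599) (nat_lit 1)
 (.cons (nat_lit 1001) (nat_lit 92) (nat_lit 1245) (nat_lit 1) .nil)), (nat_lit 41), (nat_lit 20), (nat_lit
 35), (nat_lit 1), (18, 7, 3), [1854, 303], 40⟩,
  ⟨⟨-3, 16, 16, 10, -9, 10, 12, 12, -7⟩, (.cons (nat_lit 3484) (nat_lit 2313) (nat_lit 3503) (nat_lit 1) (.cons
 (nat_lit 1368) (nat_lit 1315) (nat_lit 1069) (nat_lit 1) .nil)), (nat_lit 52), (nat_lit 3), (nat_lit 10),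
 (nat_lit 1), (4, 12, 3), [1524, 206], 47⟩]

/-- Moves. -/
noncomputable def t0_2 : List Mv := [
  ⟨⟨-11, 12, 20, 16, 5, 2, -2, 16, -5⟩, (.cons (nat_lit 4824) (nat_lit 515) (nat_lit 4935) (nat_lit 1) (.cons
 (nat_lit 106) (nat_lit 719) (nat_lit 698) (nat_lit 1) .nil)), (nat_lit 41), (nat_lit 32), (nat_lit 7),
 (nat_lit 1), (15, 11, 1), [1129, 352], 21⟩,
  ⟨⟨9, 4, -25, -16, -5, -2, -2, 16, -5⟩, (.cons (nat_lit 3523) (nat_lit 4623) (nat_lit 626) (nat_lit 1) (.cons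
 (nat_lit 165) (nat_lit 522) (nat_lit 2) (nat_lit 1) .nil)), (nat_lit 33), (nat_lit 35), (nat_lit 46), (nat_lit
 1), (5, 8, 1), [4023, 1096], 35⟩,
  ⟨⟨9, 4, -25, 16, 5, 2, -2, 16, -5⟩, (.cons (nat_lit 1758) (nat_lit 6674) (nat_lit 1679) (nat_lit 1) (.cons
 (nat_lit 1206) (nat_lit 486) (nat_lit 701) (nat_lit 1) .nil)), (nat_lit 51), (nat_lit 13), (nat_lit 5),
 (nat_lit 1), (5, 11, 1), [3141, 761], 1⟩,
  ⟨⟨9, 4, -25, -16, -5, -2, -2, 16, -5⟩, (.cons (nat_lit 3523) (nat_lit 4623) (nat_lit 626) (nat_lit 1) (.cons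
 (nat_lit 165) (nat_lit 522) (nat_lit 2) (nat_lit 1) .nil)), (nat_lit 33), (nat_lit 35), (nat_lit 46), (nat_lit
 1), (5, 8, 1), [4023, 1096], 35⟩,
  ⟨⟨9, 4, -25, -16, -5, -2, -2, 16, -5⟩, (.cons (nat_lit 3523) (nat_lit 4623) (nat_lit 626) (nat_lit 1) (.cons
 (nat_lit 165) (nat_lit 522) (nat_lit 2) (nat_lit 1) .nil)), (nat_lit 33), (nat_lit 35), (nat_lit 46), (nat_lit
 1), (5, 8, 1), [4023, 1096], 35⟩,
  ⟨⟨9, 4, -25, 16, 5, 2, -2, 16, -5⟩, (.cons (nat_lit 1758) (nat_lit 6674) (nat_lit 1679) (nat_lit 1) (.cons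
 (nat_lit 1206) (nat_lit 486) (nat_lit 701) (nat_lit 1) .nil)), (nat_lit 51), (nat_lit 13), (nat_lit 5),
 (nat_lit 1), (5, 11, 1), [3141, 761], 1⟩,
  ⟨⟨-11, 12, 20, 16, 5, 2, -2, 16, -5⟩, (.cons (nat_lit 4824) (nat_lit 515) (nat_lit 4935) (nat_lit 1) (.cons
 (nat_lit 106) (nat_lit 719) (nat_lit 698) (nat_lit 1) .nil)), (nat_lit 41), (nat_lit 32), (nat_lit 7),
 (nat_lit 1), (15, 11, 1), [1129, 352], 21⟩,
  ⟨⟨-11, 12, 20, -16, -5, -2, -2, 16, -5⟩, (.cons (nat_lit 830) (nat_lit 6090) (nat_lit 5835) (nat_lit 1)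
 (.cons (nat_lit 1262) (nat_lit 331) (nat_lit 922) (nat_lit 1) .nil)), (nat_lit 19), (nat_lit 25), (nat_lit 8),
 (nat_lit 1), (15, 8, 1), [4700, 38], 47⟩,
  ⟨⟨9, 4, -25, -16, -5, -2, -2, 16, -5⟩, (.cons (nat_lit 3523) (nat_lit 4623) (nat_lit 626) (nat_lit 1) (.cons
 (nat_lit 165) (nat_lit 522) (nat_lit 2) (nat_lit 1) .nil)), (nat_lit 33), (nat_lit 35), (nat_lit 46), (nat_lit
 1), (5, 8, 1), [4023, 1096], 35⟩,
  ⟨⟨9, 4, -25, -16, -5, -2, -2, 16, -5⟩, (.cons (nat_lit 3523) (nat_lit 4623) (nat_lit 626) (nat_lit 1) (.cons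
 (nat_lit 165) (nat_lit 522) (nat_lit 2) (nat_lit 1) .nil)), (nat_lit 33), (nat_lit 35), (nat_lit 46), (nat_lit
 1), (5, 8, 1), [4023, 1096], 35⟩,
  ⟨⟨9, 4, -25, -16, -5, -2, -2, 16, -5⟩, (.cons (nat_lit 3523) (nat_lit 4623) (nat_lit 626) (nat_lit 1) (.cons
 (nat_lit 165) (nat_lit 522) (nat_lit 2) (nat_lit 1) .nil)), (nat_lit 33), (nat_lit 35), (nat_lit 46), (nat_lit
 1), (5, 8, 1), [4023, 1096], 35⟩,
  ⟨⟨9, 4, -25, -16, -5, -2, -2, 16, -5⟩, (.cons (nat_lit 3523) (nat_lit 4623) (nat_lit 626) (nat_lit 1) (.cons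
 (nat_lit 165) (nat_lit 522) (nat_lit 2) (nat_lit 1) .nil)), (nat_lit 33), (nat_lit 35), (nat_lit 46), (nat_lit
 1), (5, 8, 1), [4023, 1096], 35⟩,
  ⟨⟨9, 4, -25, -16, -5, -2, -2, 16, -5⟩, (.cons (nat_lit 3523) (nat_lit 4623) (nat_lit 626) (nat_lit 1) (.cons
 (nat_lit 165) (nat_lit 522) (nat_lit 2) (nat_lit 1) .nil)), (nat_lit 33), (nat_lit 35), (nat_lit 46), (nat_lit
 1), (5, 8, 1), [4023, 1096], 35⟩,
  ⟨⟨-11, 12, 20, -16, -5, -2, -2, 16, -5⟩, (.cons (nat_lit 830) (nat_lit 6090) (nat_lit 5835) (nat_lit 1)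
 (.cons (nat_lit 1262) (nat_lit 331) (nat_lit 922) (nat_lit 1) .nil)), (nat_lit 19), (nat_lit 25), (nat_lit 8),
 (nat_lit 1), (15, 8, 1), [4700, 38], 47⟩,
  ⟨⟨9, 4, -25, -16, -5, -2, -2, 16, -5⟩, (.cons (nat_lit 3523) (nat_lit 4623) (nat_lit 626) (nat_lit 1) (.cons
 (nat_lit 165) (nat_lit 522) (nat_lit 2) (nat_lit 1) .nil)), (nat_lit 33), (nat_lit 35), (nat_lit 46), (nat_lit
 1), (5, 8, 1), [4023, 1096], 35⟩,
  ⟨⟨9, 4, -25, 16, 5, 2, -2, 16, -5⟩, (.cons (nat_lit 1758) (nat_lit 6674) (nat_lit 1679) (nat_lit 1) (.cons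
 (nat_lit 1206) (nat_lit 486) (nat_lit 701) (nat_lit 1) .nil)), (nat_lit 51), (nat_lit 13), (nat_lit 5),
 (nat_lit 1), (5, 11, 1), [3141, 761], 1⟩,
  ⟨⟨-11, 12, 20, -16, -5, -2, -2, 16, -5⟩, (.cons (nat_lit 830) (nat_lit 6090) (nat_lit 5835) (nat_lit 1)
 (.cons (nat_lit 1262) (nat_lit 331) (nat_lit 922) (nat_lit 1) .nil)), (nat_lit 19), (nat_lit 25), (nat_lit 8),
 (nat_lit 1), (15, 8, 1), [4700, 38], 47⟩,
  ⟨⟨9, 4, -25, -16, -5, -2, -2, 16, -5⟩, (.cons (nat_lit 3523) (nat_lit 4623) (nat_lit 626) (nat_lit 1) (.cons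
 (nat_lit 165) (nat_lit 522) (nat_lit 2) (nat_lit 1) .nil)), (nat_lit 33), (nat_lit 35), (nat_lit 46), (nat_lit
 1), (5, 8, 1), [4023, 1096], 35⟩,
  ⟨⟨9, 4, -25, -16, -5, -2, -2, 16, -5⟩, (.cons (nat_lit 3523) (nat_lit 4623) (nat_lit 626) (nat_lit 1) (.cons
 (nat_lit 165) (nat_lit 522) (nat_lit 2) (nat_lit 1) .nil)), (nat_lit 33), (nat_lit 35), (nat_lit 46), (nat_lit
 1), (5, 8, 1), [4023, 1096], 35⟩]

/-- Moves. -/
noncomputable def t0_8 : List Mv := [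
  ⟨⟨17, -12, -9, -4, -5, -18, 14, 8, -13⟩, (.cons (nat_lit 5482) (nat_lit 4807) (nat_lit 6848) (nat_lit 1)
 (.cons (nat_lit 239) (nat_lit 205) (nat_lit 733) (nat_lit 1) .nil)), (nat_lit 33), (nat_lit 49), (nat_lit 48),
 (nat_lit 1), (9, 18, 13), [3487, 1133], 35⟩,
  ⟨⟨17, -12, -9, -4, -5, -18, 14, 8, -13⟩, (.cons (nat_lit 5482) (nat_lit 4807) (nat_lit 6848) (nat_lit 1)
 (.cons (nat_lit 239) (nat_lit 205) (nat_lit 733) (nat_lit 1) .nil)), (nat_lit 33), (nat_lit 49), (nat_lit 48),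
 (nat_lit 1), (9, 18, 13), [3487, 1133], 35⟩,
  ⟨⟨17, -12, -9, -4, -5, -18, 14, 8, -13⟩, (.cons (nat_lit 5482) (nat_lit 4807) (nat_lit 6848) (nat_lit 1)
 (.cons (nat_lit 239) (nat_lit 205) (nat_lit 733) (nat_lit 1) .nil)), (nat_lit 33), (nat_lit 49), (nat_lit 48),
 (nat_lit 1), (9, 18, 13), [3487, 1133], 35⟩,
  ⟨⟨-3, 20, -4, -4, -5, -18, 14, 8, -13⟩, (.cons (nat_lit 2266) (nat_lit 1073) (nat_lit 5235) (nat_lit 1)
 (.cons (nat_lit 606) (nat_lit 752) (nat_lit 681) (nat_lit 1) .nil)), (nat_lit 13), (nat_lit 50), (nat_lit 32),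
 (nat_lit 1), (4, 18, 13), [4227, 83], 49⟩,
  ⟨⟨-3, 20, -4, 4, 5, 18, 14, 8, -13⟩, (.cons (nat_lit 5132) (nat_lit 2304) (nat_lit 1) (nat_lit 6783) (.cons
 (nat_lit 762) (nat_lit 1091) (nat_lit 665) (nat_lit 1) .nil)), (nat_lit 22), (nat_lit 38), (nat_lit 5),
 (nat_lit 1), (4, 1, 13), [5486, 464], 41⟩,
  ⟨⟨17, -12, -9, -4, -5, -18, 14, 8, -13⟩, (.cons (nat_lit 5482) (nat_lit 4807) (nat_lit 6848) (nat_lit 1)
 (.cons (nat_lit 239) (nat_lit 205) (nat_lit 733) (nat_lit 1) .nil)), (nat_lit 33), (nat_lit 49), (nat_lit 48),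
 (nat_lit 1), (9, 18, 13), [3487, 1133], 35⟩,
  ⟨⟨17, -12, -9, -4, -5, -18, 14, 8, -13⟩, (.cons (nat_lit 5482) (nat_lit 4807) (nat_lit 6848) (nat_lit 1)
 (.cons (nat_lit 239) (nat_lit 205) (nat_lit 733) (nat_lit 1) .nil)), (nat_lit 33), (nat_lit 49), (nat_lit 48),
 (nat_lit 1), (9, 18, 13), [3487, 1133], 35⟩,
  ⟨⟨17, -12, -9, -4, -5, -18, 14, 8, -13⟩, (.cons (nat_lit 5482) (nat_lit 4807) (nat_lit 6848) (nat_lit 1)
 (.cons (nat_lit 239) (nat_lit 205) (nat_lit 733) (nat_lit 1) .nil)), (nat_lit 33), (nat_lit 49), (nat_lit 48),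
 (nat_lit 1), (9, 18, 13), [3487, 1133], 35⟩,
  ⟨⟨17, -12, -9, 4, 5, 18, 14, 8, -13⟩, (.cons (nat_lit 1356) (nat_lit 6265) (nat_lit 1738) (nat_lit 1) (.cons
 (nat_lit 376) (nat_lit 733) (nat_lit 661) (nat_lit 1) .nil)), (nat_lit 49), (nat_lit 33), (nat_lit 31),
 (nat_lit 1), (9, 1, 13), [1981, 292], 9⟩,
  ⟨⟨17, -12, -9, -4, -5, -18, 14, 8, -13⟩, (.cons (nat_lit 5482) (nat_lit 4807) (nat_lit 6848) (nat_lit 1)
 (.cons (nat_lit 239) (nat_lit 205) (nat_lit 733) (nat_lit 1) .nil)), (nat_lit 33), (nat_lit 49), (nat_lit 48),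
 (nat_lit 1), (9, 18, 13), [3487, 1133], 35⟩,
  ⟨⟨17, -12, -9, -4, -5, -18, 14, 8, -13⟩, (.cons (nat_lit 5482) (nat_lit 4807) (nat_lit 6848) (nat_lit 1)
 (.cons (nat_lit 239) (nat_lit 205) (nat_lit 733) (nat_lit 1) .nil)), (nat_lit 33), (nat_lit 49), (nat_lit 48),
 (nat_lit 1), (9, 18, 13), [3487, 1133], 35⟩,
  ⟨⟨17, -12, -9, -4, -5, -18, 14, 8, -13⟩, (.cons (nat_lit 5482) (nat_lit 4807) (nat_lit 6848) (nat_lit 1)
 (.cons (nat_lit 239) (nat_lit 205) (nat_lit 733) (nat_lit 1) .nil)), (nat_lit 33), (nat_lit 49), (nat_lit 48),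
 (nat_lit 1), (9, 18, 13), [3487, 1133], 35⟩,
  ⟨⟨17, -12, -9, -4, -5, -18, 14, 8, -13⟩, (.cons (nat_lit 5482) (nat_lit 4807) (nat_lit 6848) (nat_lit 1)
 (.cons (nat_lit 239) (nat_lit 205) (nat_lit 733) (nat_lit 1) .nil)), (nat_lit 33), (nat_lit 49), (nat_lit 48),
 (nat_lit 1), (9, 18, 13), [3487, 1133], 35⟩,
  ⟨⟨-3, 20, -4, -4, -5, -18, 14, 8, -13⟩, (.cons (nat_lit 2266) (nat_lit 1073) (nat_lit 5235) (nat_lit 1)
 (.cons (nat_lit 606) (nat_lit 752) (nat_lit 681) (nat_lit 1) .nil)), (nat_lit 13), (nat_lit 50), (nat_lit 32),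
 (nat_lit 1), (4, 18, 13), [4227, 83], 49⟩,
  ⟨⟨-3, 20, -4, 4, 5, 18, 14, 8, -13⟩, (.cons (nat_lit 5132) (nat_lit 2304) (nat_lit 1) (nat_lit 6783) (.cons
 (nat_lit 762) (nat_lit 1091) (nat_lit 665) (nat_lit 1) .nil)), (nat_lit 22), (nat_lit 38), (nat_lit 5),
 (nat_lit 1), (4, 1, 13), [5486, 464], 41⟩,
  ⟨⟨17, -12, -9, 4, 5, 18, 14, 8, -13⟩, (.cons (nat_lit 1356) (nat_lit 6265) (nat_lit 1738) (nat_lit 1) (.cons
 (nat_lit 376) (nat_lit 733) (nat_lit 661) (nat_lit 1) .nil)), (nat_lit 49), (nat_lit 33), (nat_lit 31),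
 (nat_lit 1), (9, 1, 13), [1981, 292], 9⟩,
  ⟨⟨17, -12, -9, 4, 5, 18, 14, 8, -13⟩, (.cons (nat_lit 1356) (nat_lit 6265) (nat_lit 1738) (nat_lit 1) (.cons
 (nat_lit 376) (nat_lit 733) (nat_lit 661) (nat_lit 1) .nil)), (nat_lit 49), (nat_lit 33), (nat_lit 31),
 (nat_lit 1), (9, 1, 13), [1981, 292], 9⟩,
  ⟨⟨17, -12, -9, -4, -5, -18, 14, 8, -13⟩, (.cons (nat_lit 5482) (nat_lit 4807) (nat_lit 6848) (nat_lit 1)
 (.cons (nat_lit 239) (nat_lit 205) (nat_lit 733) (nat_lit 1) .nil)), (nat_lit 33), (nat_lit 49), (nat_lit 48),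
 (nat_lit 1), (9, 18, 13), [3487, 1133], 35⟩,
  ⟨⟨-3, 20, -4, -4, -5, -18, 14, 8, -13⟩, (.cons (nat_lit 2266) (nat_lit 1073) (nat_lit 5235) (nat_lit 1)
 (.cons (nat_lit 606) (nat_lit 752) (nat_lit 681) (nat_lit 1) .nil)), (nat_lit 13), (nat_lit 50), (nat_lit 32),
 (nat_lit 1), (4, 18, 13), [4227, 83], 49⟩]

/-- Moves. -/
noncomputable def t1_1 : List Mv := [
  mz,
  ⟨⟨3, -16, -43, 10, 33, -20, 30, -12, -23⟩, (.cons (nat_lit 4386) (nat_lit 5246) (nat_lit 2855) (nat_lit 1)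
 (.cons (nat_lit 1309) (nat_lit 52) (nat_lit 1287) (nat_lit 1) .nil)), (nat_lit 42), (nat_lit 19), (nat_lit
 29), (nat_lit 1), (25, 34, 28), [2502, 97], 35⟩,
  mz,
  mz,
  ⟨⟨21, 4, 28, 8, 35, -14, 32, -8, -19⟩, (.cons (nat_lit 6858) (nat_lit 3383) (nat_lit 2075) (nat_lit 1) (.cons
 (nat_lit 347) (nat_lit 876) (nat_lit 96) (nat_lit 1) .nil)), (nat_lit 52), (nat_lit 20), (nat_lit 3), (nat_lit
 1), (33, 2, 8), [109, 240], 31⟩,
  ⟨⟨11, 12, -47, 8, -35, -14, 32, 8, -19⟩, (.cons (nat_lit 3868) (nat_lit 4669) (nat_lit 5968) (nat_lit 1)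
 (.cons (nat_lit 1279) (nat_lit 1018) (nat_lit 267) (nat_lit 1) .nil)), (nat_lit 37), (nat_lit 3), (nat_lit
 45), (nat_lit 1), (29, 11, 7), [819, 834], 22⟩,
  mz,
  ⟨⟨-17, 36, 17, -30, -17, 30, -18, 12, -19⟩, (.cons (nat_lit 5553) (nat_lit 2496) (nat_lit 542) (nat_lit 1)
 (.cons (nat_lit 1328) (nat_lit 464) (nat_lit 226) (nat_lit 1) .nil)), (nat_lit 20), (nat_lit 31), (nat_lit
 36), (nat_lit 1), (36, 20, 12), [4970, 861], 7⟩,
  ⟨⟨-35, 12, -1, 12, 35, -6, 0, 0, -37⟩, (.cons (nat_lit 6858) (nat_lit 2223) (nat_lit 3420) (nat_lit 1) (.cons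
 (nat_lit 623) (nat_lit 672) (nat_lit 767) (nat_lit 1) .nil)), (nat_lit 52), (nat_lit 5), (nat_lit 22),
 (nat_lit 1), (3, 18, 0), [2851, 1312], 27⟩,
  mz,
  ⟨⟨-1, 24, -36, 30, -17, -30, -18, -12, -19⟩, (.cons (nat_lit 6858) (nat_lit 2585) (nat_lit 5291) (nat_lit 1)
 (.cons (nat_lit 915) (nat_lit 1216) (nat_lit 369) (nat_lit 1) .nil)), (nat_lit 52), (nat_lit 32), (nat_lit
 31), (nat_lit 1), (10, 33, 32), [6147, 1243], 41⟩,
  ⟨⟨3, 16, -43, -10, 33, 20, 30, 12, -23⟩, (.cons (nat_lit 3911) (nat_lit 6723) (nat_lit 2606) (nat_lit 1)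
 (.cons (nat_lit 1134) (nat_lit 1215) (nat_lit 893) (nat_lit 1) .nil)), (nat_lit 42), (nat_lit 9), (nat_lit
 20), (nat_lit 1), (23, 22, 8), [6511, 387], 35⟩,
  ⟨⟨39, -4, -8, 10, 17, -40, 14, -28, -19⟩, (.cons (nat_lit 6858) (nat_lit 538) (nat_lit 4698) (nat_lit 1)
 (.cons (nat_lit 1035) (nat_lit 1264) (nat_lit 1002) (nat_lit 1) .nil)), (nat_lit 52), (nat_lit 36), (nat_lit
 23), (nat_lit 1), (11, 18, 3), [2819, 537], 39⟩,
  ⟨⟨39, 8, -28, 8, -5, 36, 8, 32, -1⟩, (.cons (nat_lit 1568) (nat_lit 977) (nat_lit 3960) (nat_lit 1) (.cons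
 (nat_lit 1097) (nat_lit 599) (nat_lit 576) (nat_lit 1) .nil)), (nat_lit 10), (nat_lit 18), (nat_lit 51),
 (nat_lit 1), (21, 10, 10), [6425, 308], 47⟩,
  mz,
  ⟨⟨-13, -24, -27, 32, 5, -36, -16, 16, -19⟩, (.cons (nat_lit 4603) (nat_lit 3188) (nat_lit 389) (nat_lit 1)
 (.cons (nat_lit 35) (nat_lit 545) (nat_lit 56) (nat_lit 1) .nil)), (nat_lit 10), (nat_lit 40), (nat_lit 2),
 (nat_lit 1), (6, 8, 33), [6197, 367], 46⟩,
  ⟨⟨21, 4, -49, -8, -35, -6, 32, -8, -13⟩, (.cons (nat_lit 2218) (nat_lit 3895) (nat_lit 297) (nat_lit 1)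
 (.cons (nat_lit 778) (nat_lit 427) (nat_lit 940) (nat_lit 1) .nil)), (nat_lit 0), (nat_lit 13), (nat_lit 52),
 (nat_lit 1), (36, 18, 2), [2237, 854], 49⟩,
  ⟨⟨39, -8, -11, -8, -5, 44, 8, -32, -7⟩, (.cons (nat_lit 4078) (nat_lit 5970) (nat_lit 2724) (nat_lit 1)
 (.cons (nat_lit 768) (nat_lit 1189) (nat_lit 933) (nat_lit 1) .nil)), (nat_lit 11), (nat_lit 2), (nat_lit 50),
 (nat_lit 1), (5, 17, 20), [1403, 321], 46⟩,
  ⟨⟨39, 4, -8, -10, 17, 40, 14, 28, -19⟩, (.cons (nat_lit 6858) (nat_lit 3508) (nat_lit 3399) (nat_lit 1)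
 (.cons (nat_lit 865) (nat_lit 517) (nat_lit 1267) (nat_lit 1) .nil)), (nat_lit 52), (nat_lit 29), (nat_lit
 15), (nat_lit 1), (29, 3, 18), [5761, 1161], 20⟩,
  ⟨⟨39, -8, -28, -8, -5, -36, 8, -32, -1⟩, (.cons (nat_lit 5007) (nat_lit 3970) (nat_lit 126) (nat_lit 1)
 (.cons (nat_lit 713) (nat_lit 1078) (nat_lit 357) (nat_lit 1) .nil)), (nat_lit 10), (nat_lit 14), (nat_lit 5),
 (nat_lit 1), (22, 23, 14), [2492, 813], 47⟩,
  ⟨⟨-39, -4, 31, -10, 17, -30, -14, -28, -5⟩, (.cons (nat_lit 3929) (nat_lit 4030) (nat_lit 5460) (nat_lit 1)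
 (.cons (nat_lit 603) (nat_lit 1052) (nat_lit 189) (nat_lit 1) .nil)), (nat_lit 33), (nat_lit 30), (nat_lit
 20), (nat_lit 1), (22, 36, 6), [3457, 280], 9⟩,
  ⟨⟨13, -24, -40, -32, 5, -4, 16, 16, -35⟩, (.cons (nat_lit 4813) (nat_lit 5178) (nat_lit 2181) (nat_lit 1)
 (.cons (nat_lit 262) (nat_lit 1141) (nat_lit 989) (nat_lit 1) .nil)), (nat_lit 21), (nat_lit 10), (nat_lit
 44), (nat_lit 1), (27, 36, 19), [961, 1238], 26⟩,
  ⟨⟨39, 8, -11, 8, -5, -44, 8, 32, -7⟩, (.cons (nat_lit 3998) (nat_lit 1260) (nat_lit 1540) (nat_lit 1) (.cons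
 (nat_lit 878) (nat_lit 1045) (nat_lit 389) (nat_lit 1) .nil)), (nat_lit 29), (nat_lit 48), (nat_lit 34),
 (nat_lit 1), (4, 16, 16), [2240, 966], 49⟩,
  mz,
  ⟨⟨13, 24, -40, -32, -5, -4, 16, -16, -35⟩, (.cons (nat_lit 5365) (nat_lit 484) (nat_lit 1846) (nat_lit 1)
 (.cons (nat_lit 1050) (nat_lit 506) (nat_lit 422) (nat_lit 1) .nil)), (nat_lit 18), (nat_lit 5), (nat_lit 19),
 (nat_lit 1), (24, 32, 21), [5053, 287], 40⟩,
  ⟨⟨1, 24, -37, 30, 17, 0, 18, -12, -37⟩, (.cons (nat_lit 5736) (nat_lit 4547) (nat_lit 4303) (nat_lit 1)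
 (.cons (nat_lit 152) (nat_lit 853) (nat_lit 212) (nat_lit 1) .nil)), (nat_lit 12), (nat_lit 1), (nat_lit 15),
 (nat_lit 1), (23, 24, 7), [341, 24], 48⟩,
  ⟨⟨3, 16, 40, -10, 33, -10, 30, 12, -7⟩, (.cons (nat_lit 3659) (nat_lit 3704) (nat_lit 4246) (nat_lit 1)
 (.cons (nat_lit 577) (nat_lit 1227) (nat_lit 316) (nat_lit 1) .nil)), (nat_lit 33), (nat_lit 18), (nat_lit
 39), (nat_lit 1), (14, 15, 29), [3763, 1097], 2⟩,
  ⟨⟨3, -16, 40, 10, 33, 10, 30, -12, -7⟩, (.cons (nat_lit 1584) (nat_lit 4168) (nat_lit 3015) (nat_lit 1)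
 (.cons (nat_lit 1152) (nat_lit 621) (nat_lit 864) (nat_lit 1) .nil)), (nat_lit 45), (nat_lit 38), (nat_lit
 47), (nat_lit 1), (16, 4, 12), [6471, 113], 22⟩,
  mz,
  ⟨⟨-35, -12, -1, 12, -35, -6, 0, 0, -37⟩, (.cons (nat_lit 970) (nat_lit 5952) (nat_lit 3099) (nat_lit 1)
 (.cons (nat_lit 99) (nat_lit 393) (nat_lit 720) (nat_lit 1) .nil)), (nat_lit 1), (nat_lit 49), (nat_lit 7),
 (nat_lit 1), (23, 27, 0), [2081, 847], 40⟩,
  ⟨⟨-39, 4, 31, -10, -17, -30, -14, 28, -5⟩, (.cons (nat_lit 4600) (nat_lit 3055) (nat_lit 678) (nat_lit 1)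
 (.cons (nat_lit 105) (nat_lit 287) (nat_lit 18) (nat_lit 1) .nil)), (nat_lit 18), (nat_lit 23), (nat_lit 27),
 (nat_lit 1), (3, 15, 21), [3398, 954], 51⟩,
  mz,
  mz,
  ⟨⟨-3, -40, 8, -32, 5, 36, -16, -16, -19⟩, (.cons (nat_lit 4690) (nat_lit 2899) (nat_lit 4738) (nat_lit 1)
 (.cons (nat_lit 537) (nat_lit 616) (nat_lit 903) (nat_lit 1) .nil)), (nat_lit 48), (nat_lit 50), (nat_lit 8),
 (nat_lit 1), (32, 33, 35), [707, 103], 14⟩,
  mz,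
  ⟨⟨21, -4, -49, -8, 35, -6, 32, 8, -13⟩, (.cons (nat_lit 2534) (nat_lit 529) (nat_lit 1183) (nat_lit 1) (.cons
 (nat_lit 1285) (nat_lit 416) (nat_lit 1145) (nat_lit 1) .nil)), (nat_lit 43), (nat_lit 30), (nat_lit 26),
 (nat_lit 1), (18, 9, 1), [5716, 8], 26⟩,
  ⟨⟨17, 36, 0, 30, -17, 0, 18, 12, -37⟩, (.cons (nat_lit 6858) (nat_lit 861) (nat_lit 3602) (nat_lit 1) (.cons
 (nat_lit 927) (nat_lit 402) (nat_lit 331) (nat_lit 1) .nil)), (nat_lit 52), (nat_lit 48), (nat_lit 3),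
 (nat_lit 1), (35, 3, 24), [2119, 658], 41⟩]

/-- Moves. -/
noncomputable def t1_2 : List Mv := [
  mz,
  ⟨⟨3, -16, -43, -10, -33, 20, 30, -12, -23⟩, (.cons (nat_lit 83) (nat_lit 5786) (nat_lit 794) (nat_lit 1)
 (.cons (nat_lit 1206) (nat_lit 773) (nat_lit 1241) (nat_lit 1) .nil)), (nat_lit 25), (nat_lit 23), (nat_lit
 27), (nat_lit 1), (25, 3, 28), [5158, 1156], 4⟩,
  mz,
  mz,
  ⟨⟨21, 4, 28, 8, 35, -14, 32, -8, -19⟩, (.cons (nat_lit 6858) (nat_lit 3383) (nat_lit 2075) (nat_lit 1) (.cons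
 (nat_lit 347) (nat_lit 876) (nat_lit 96) (nat_lit 1) .nil)), (nat_lit 52), (nat_lit 20), (nat_lit 3), (nat_lit
 1), (33, 2, 8), [109, 240], 31⟩,
  ⟨⟨21, -4, 28, -8, 35, 14, 32, 8, -19⟩, (.cons (nat_lit 6858) (nat_lit 5348) (nat_lit 3319) (nat_lit 1) (.cons
 (nat_lit 173) (nat_lit 276) (nat_lit 42) (nat_lit 1) .nil)), (nat_lit 52), (nat_lit 20), (nat_lit 30),
 (nat_lit 1), (15, 26, 7), [1231, 467], 30⟩,
  mz,
  ⟨⟨-1, -24, -36, 30, 17, -30, -18, 12, -19⟩, (.cons (nat_lit 1301) (nat_lit 4084) (nat_lit 2430) (nat_lit 1)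
 (.cons (nat_lit 331) (nat_lit 721) (nat_lit 688) (nat_lit 1) .nil)), (nat_lit 3), (nat_lit 31), (nat_lit 28),
 (nat_lit 1), (13, 17, 12), [2610, 139], 46⟩,
  ⟨⟨-35, 12, -1, -12, -35, 6, 0, 0, -37⟩, (.cons (nat_lit 5169) (nat_lit 3586) (nat_lit 3893) (nat_lit 1)
 (.cons (nat_lit 328) (nat_lit 439) (nat_lit 1069) (nat_lit 1) .nil)), (nat_lit 1), (nat_lit 4), (nat_lit 46),
 (nat_lit 1), (3, 19, 0), [1112, 765], 40⟩,
  mz,
  ⟨⟨-1, 24, -36, 30, -17, -30, -18, -12, -19⟩, (.cons (nat_lit 6858) (nat_lit 2585) (nat_lit 5291) (nat_lit 1)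
 (.cons (nat_lit 915) (nat_lit 1216) (nat_lit 369) (nat_lit 1) .nil)), (nat_lit 52), (nat_lit 32), (nat_lit
 31), (nat_lit 1), (10, 33, 32), [6147, 1243], 41⟩,
  ⟨⟨27, -4, 20, -10, 33, 20, 30, 12, -23⟩, (.cons (nat_lit 6858) (nat_lit 4856) (nat_lit 5972) (nat_lit 1)
 (.cons (nat_lit 956) (nat_lit 231) (nat_lit 837) (nat_lit 1) .nil)), (nat_lit 52), (nat_lit 18), (nat_lit 47),
 (nat_lit 1), (22, 22, 8), [6697, 731], 16⟩,
  ⟨⟨39, -4, -8, 10, 17, -40, 14, -28, -19⟩, (.cons (nat_lit 6858) (nat_lit 538) (nat_lit 4698) (nat_lit 1)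
 (.cons (nat_lit 1035) (nat_lit 1264) (nat_lit 1002) (nat_lit 1) .nil)), (nat_lit 52), (nat_lit 36), (nat_lit
 23), (nat_lit 1), (11, 18, 3), [2819, 537], 39⟩,
  ⟨⟨-31, 24, 27, 8, -5, 36, 8, 32, -1⟩, (.cons (nat_lit 6858) (nat_lit 3302) (nat_lit 4843) (nat_lit 1) (.cons
 (nat_lit 772) (nat_lit 1294) (nat_lit 1010) (nat_lit 1) .nil)), (nat_lit 52), (nat_lit 9), (nat_lit 28),
 (nat_lit 1), (26, 10, 10), [2916, 1227], 20⟩,
  mz,
  ⟨⟨-3, 40, 8, 32, 5, -36, -16, 16, -19⟩, (.cons (nat_lit 2223) (nat_lit 3542) (nat_lit 1076) (nat_lit 1)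
 (.cons (nat_lit 495) (nat_lit 1269) (nat_lit 275) (nat_lit 1) .nil)), (nat_lit 4), (nat_lit 37), (nat_lit 25),
 (nat_lit 1), (27, 8, 33), [20, 615], 2⟩,
  ⟨⟨11, -12, 36, 8, 35, 6, 32, -8, -13⟩, (.cons (nat_lit 3376) (nat_lit 6583) (nat_lit 1) (nat_lit 1995) (.cons
 (nat_lit 1084) (nat_lit 1165) (nat_lit 1271) (nat_lit 1) .nil)), (nat_lit 28), (nat_lit 25), (nat_lit 0),
 (nat_lit 1), (3, 19, 2), [5254, 1111], 24⟩,
  ⟨⟨-31, -24, 4, 8, 5, -44, 8, -32, -7⟩, (.cons (nat_lit 6006) (nat_lit 3442) (nat_lit 3252) (nat_lit 1) (.cons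
 (nat_lit 909) (nat_lit 886) (nat_lit 864) (nat_lit 1) .nil)), (nat_lit 16), (nat_lit 30), (nat_lit 32),
 (nat_lit 1), (15, 20, 20), [805, 676], 52⟩,
  ⟨⟨39, 4, -8, 10, -17, -40, 14, 28, -19⟩, (.cons (nat_lit 4261) (nat_lit 1628) (nat_lit 1779) (nat_lit 1)
 (.cons (nat_lit 653) (nat_lit 543) (nat_lit 261) (nat_lit 1) .nil)), (nat_lit 4), (nat_lit 52), (nat_lit 39),
 (nat_lit 1), (29, 34, 18), [5072, 1306], 1⟩,
  ⟨⟨39, -8, -28, -8, -5, -36, 8, -32, -1⟩, (.cons (nat_lit 5007) (nat_lit 3970) (nat_lit 126) (nat_lit 1)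
 (.cons (nat_lit 713) (nat_lit 1078) (nat_lit 357) (nat_lit 1) .nil)), (nat_lit 10), (nat_lit 14), (nat_lit 5),
 (nat_lit 1), (22, 23, 14), [2492, 813], 47⟩,
  ⟨⟨25, -24, -36, 10, -17, 30, -14, -28, -5⟩, (.cons (nat_lit 1809) (nat_lit 215) (nat_lit 796) (nat_lit 1)
 (.cons (nat_lit 349) (nat_lit 781) (nat_lit 1335) (nat_lit 1) .nil)), (nat_lit 40), (nat_lit 2), (nat_lit 17),
 (nat_lit 1), (21, 1, 6), [3879, 892], 10⟩,
  ⟨⟨3, 40, 5, -32, 5, -4, 16, 16, -35⟩, (.cons (nat_lit 1753) (nat_lit 6086) (nat_lit 6758) (nat_lit 1) (.cons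
 (nat_lit 1191) (nat_lit 675) (nat_lit 748) (nat_lit 1) .nil)), (nat_lit 10), (nat_lit 39), (nat_lit 17),
 (nat_lit 1), (29, 36, 19), [4791, 1286], 46⟩,
  ⟨⟨39, 8, -11, 8, -5, -44, 8, 32, -7⟩, (.cons (nat_lit 3998) (nat_lit 1260) (nat_lit 1540) (nat_lit 1) (.cons
 (nat_lit 878) (nat_lit 1045) (nat_lit 389) (nat_lit 1) .nil)), (nat_lit 29), (nat_lit 48), (nat_lit 34),
 (nat_lit 1), (4, 16, 16), [2240, 966], 49⟩,
  mz,
  ⟨⟨3, -40, 5, 32, 5, 4, 16, -16, -35⟩, (.cons (nat_lit 2645) (nat_lit 603) (nat_lit 6503) (nat_lit 1) (.cons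
 (nat_lit 697) (nat_lit 192) (nat_lit 1004) (nat_lit 1) .nil)), (nat_lit 16), (nat_lit 12), (nat_lit 46),
 (nat_lit 1), (34, 5, 21), [5026, 411], 10⟩,
  ⟨⟨1, 24, -37, -30, -17, 0, 18, -12, -37⟩, (.cons (nat_lit 973) (nat_lit 6294) (nat_lit 4784) (nat_lit 1)
 (.cons (nat_lit 281) (nat_lit 1244) (nat_lit 757) (nat_lit 1) .nil)), (nat_lit 8), (nat_lit 2), (nat_lit 43),
 (nat_lit 1), (23, 13, 7), [6712, 924], 24⟩,
  ⟨⟨27, -4, -47, -10, 33, -10, 30, 12, -7⟩, (.cons (nat_lit 2) (nat_lit 4601) (nat_lit 2332) (nat_lit 1) (.cons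
 (nat_lit 565) (nat_lit 1112) (nat_lit 307) (nat_lit 1) .nil)), (nat_lit 45), (nat_lit 9), (nat_lit 29),
 (nat_lit 1), (15, 15, 29), [6310, 62], 11⟩,
  ⟨⟨27, 4, -47, 10, 33, 10, 30, -12, -7⟩, (.cons (nat_lit 2975) (nat_lit 2740) (nat_lit 4205) (nat_lit 1)
 (.cons (nat_lit 270) (nat_lit 896) (nat_lit 85) (nat_lit 1) .nil)), (nat_lit 17), (nat_lit 33), (nat_lit 18),
 (nat_lit 1), (33, 4, 12), [4858, 774], 10⟩,
  mz,
  ⟨⟨-35, -12, -1, 12, -35, -6, 0, 0, -37⟩, (.cons (nat_lit 970) (nat_lit 5952) (nat_lit 3099) (nat_lit 1)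
 (.cons (nat_lit 99) (nat_lit 393) (nat_lit 720) (nat_lit 1) .nil)), (nat_lit 1), (nat_lit 49), (nat_lit 7),
 (nat_lit 1), (23, 27, 0), [2081, 847], 40⟩,
  ⟨⟨-39, 4, 31, -10, -17, -30, -14, 28, -5⟩, (.cons (nat_lit 4600) (nat_lit 3055) (nat_lit 678) (nat_lit 1)
 (.cons (nat_lit 105) (nat_lit 287) (nat_lit 18) (nat_lit 1) .nil)), (nat_lit 18), (nat_lit 23), (nat_lit 27),
 (nat_lit 1), (3, 15, 21), [3398, 954], 51⟩,
  mz,
  mz,
  ⟨⟨-13, 24, -27, -32, 5, 36, -16, -16, -19⟩, (.cons (nat_lit 1809) (nat_lit 1327) (nat_lit 2776) (nat_lit 1)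
 (.cons (nat_lit 847) (nat_lit 255) (nat_lit 1053) (nat_lit 1) .nil)), (nat_lit 16), (nat_lit 49), (nat_lit
 21), (nat_lit 1), (3, 33, 35), [5292, 713], 10⟩,
  mz,
  ⟨⟨21, -4, -49, -8, 35, -6, 32, 8, -13⟩, (.cons (nat_lit 2534) (nat_lit 529) (nat_lit 1183) (nat_lit 1) (.cons
 (nat_lit 1285) (nat_lit 416) (nat_lit 1145) (nat_lit 1) .nil)), (nat_lit 43), (nat_lit 30), (nat_lit 26),
 (nat_lit 1), (18, 9, 1), [5716, 8], 26⟩,
  ⟨⟨17, 36, 0, 30, -17, 0, 18, 12, -37⟩, (.cons (nat_lit 6858) (nat_lit 861) (nat_lit 3602) (nat_lit 1) (.cons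
 (nat_lit 927) (nat_lit 402) (nat_lit 331) (nat_lit 1) .nil)), (nat_lit 52), (nat_lit 48), (nat_lit 3),
 (nat_lit 1), (35, 3, 24), [2119, 658], 41⟩]

/-- Moves. -/
noncomputable def t1_8 : List Mv := [
  mz,
  ⟨⟨3, -16, -43, 10, 33, -20, 30, -12, -23⟩, (.cons (nat_lit 4386) (nat_lit 5246) (nat_lit 2855) (nat_lit 1)
 (.cons (nat_lit 1309) (nat_lit 52) (nat_lit 1287) (nat_lit 1) .nil)), (nat_lit 42), (nat_lit 19), (nat_lit
 29), (nat_lit 1), (25, 34, 28), [2502, 97], 35⟩,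
  mz,
  mz,
  ⟨⟨21, 4, 28, 8, 35, -14, 32, -8, -19⟩, (.cons (nat_lit 6858) (nat_lit 3383) (nat_lit 2075) (nat_lit 1) (.cons
 (nat_lit 347) (nat_lit 876) (nat_lit 96) (nat_lit 1) .nil)), (nat_lit 52), (nat_lit 20), (nat_lit 3), (nat_lit
 1), (33, 2, 8), [109, 240], 31⟩,
  ⟨⟨21, -4, 28, -8, 35, 14, 32, 8, -19⟩, (.cons (nat_lit 6858) (nat_lit 5348) (nat_lit 3319) (nat_lit 1) (.cons
 (nat_lit 173) (nat_lit 276) (nat_lit 42) (nat_lit 1) .nil)), (nat_lit 52), (nat_lit 20), (nat_lit 30),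
 (nat_lit 1), (15, 26, 7), [1231, 467], 30⟩,
  mz,
  ⟨⟨-17, 36, 17, 30, 17, -30, -18, 12, -19⟩, (.cons (nat_lit 1814) (nat_lit 3119) (nat_lit 6759) (nat_lit 1)
 (.cons (nat_lit 287) (nat_lit 659) (nat_lit 10) (nat_lit 1) .nil)), (nat_lit 31), (nat_lit 22), (nat_lit 12),
 (nat_lit 1), (36, 17, 12), [1990, 542], 18⟩,
  ⟨⟨35, -12, -36, -12, -35, 6, 0, 0, -37⟩, (.cons (nat_lit 2432) (nat_lit 3693) (nat_lit 1) (nat_lit 4427)
 (.cons (nat_lit 510) (nat_lit 245) (nat_lit 924) (nat_lit 1) .nil)), (nat_lit 52), (nat_lit 12), (nat_lit 21),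
 (nat_lit 1), (34, 19, 0), [2705, 15], 20⟩,
  mz,
  ⟨⟨-17, -36, 17, 30, -17, -30, -18, -12, -19⟩, (.cons (nat_lit 5287) (nat_lit 3490) (nat_lit 2984) (nat_lit 1)
 (.cons (nat_lit 501) (nat_lit 874) (nat_lit 837) (nat_lit 1) .nil)), (nat_lit 20), (nat_lit 13), (nat_lit 41),
 (nat_lit 1), (22, 33, 32), [2310, 1360], 7⟩,
  ⟨⟨27, -4, 20, -10, 33, 20, 30, 12, -23⟩, (.cons (nat_lit 6858) (nat_lit 4856) (nat_lit 5972) (nat_lit 1)
 (.cons (nat_lit 956) (nat_lit 231) (nat_lit 837) (nat_lit 1) .nil)), (nat_lit 52), (nat_lit 18), (nat_lit 47),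
 (nat_lit 1), (22, 22, 8), [6697, 731], 16⟩,
  ⟨⟨-25, -24, -11, -10, -17, 40, 14, -28, -19⟩, (.cons (nat_lit 4266) (nat_lit 6329) (nat_lit 2150) (nat_lit 1)
 (.cons (nat_lit 69) (nat_lit 1170) (nat_lit 672) (nat_lit 1) .nil)), (nat_lit 3), (nat_lit 37), (nat_lit 25),
 (nat_lit 1), (29, 19, 3), [688, 365], 35⟩,
  ⟨⟨-31, 24, 27, -8, 5, -36, 8, 32, -1⟩, (.cons (nat_lit 658) (nat_lit 11) (nat_lit 63) (nat_lit 1) (.cons
 (nat_lit 858) (nat_lit 617) (nat_lit 347) (nat_lit 1) .nil)), (nat_lit 11), (nat_lit 21), (nat_lit 30),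
 (nat_lit 1), (26, 27, 10), [1295, 1046], 7⟩,
  mz,
  ⟨⟨-3, 40, 8, 32, 5, -36, -16, 16, -19⟩, (.cons (nat_lit 2223) (nat_lit 3542) (nat_lit 1076) (nat_lit 1)
 (.cons (nat_lit 495) (nat_lit 1269) (nat_lit 275) (nat_lit 1) .nil)), (nat_lit 4), (nat_lit 37), (nat_lit 25),
 (nat_lit 1), (27, 8, 33), [20, 615], 2⟩,
  ⟨⟨21, 4, -49, -8, -35, -6, 32, -8, -13⟩, (.cons (nat_lit 2218) (nat_lit 3895) (nat_lit 297) (nat_lit 1)
 (.cons (nat_lit 778) (nat_lit 427) (nat_lit 940) (nat_lit 1) .nil)), (nat_lit 0), (nat_lit 13), (nat_lit 52),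
 (nat_lit 1), (36, 18, 2), [2237, 854], 49⟩,
  ⟨⟨39, -8, -11, 8, 5, -44, 8, -32, -7⟩, (.cons (nat_lit 6858) (nat_lit 3742) (nat_lit 4232) (nat_lit 1) (.cons
 (nat_lit 1239) (nat_lit 78) (nat_lit 1283) (nat_lit 1) .nil)), (nat_lit 52), (nat_lit 1), (nat_lit 33),
 (nat_lit 1), (5, 20, 20), [431, 267], 39⟩,
  ⟨⟨39, 4, -8, -10, 17, 40, 14, 28, -19⟩, (.cons (nat_lit 6858) (nat_lit 3508) (nat_lit 3399) (nat_lit 1)
 (.cons (nat_lit 865) (nat_lit 517) (nat_lit 1267) (nat_lit 1) .nil)), (nat_lit 52), (nat_lit 29), (nat_lit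
 15), (nat_lit 1), (29, 3, 18), [5761, 1161], 20⟩,
  ⟨⟨-31, -24, 27, 8, 5, 36, 8, -32, -1⟩, (.cons (nat_lit 5556) (nat_lit 615) (nat_lit 6640) (nat_lit 1) (.cons
 (nat_lit 248) (nat_lit 294) (nat_lit 1223) (nat_lit 1) .nil)), (nat_lit 29), (nat_lit 27), (nat_lit 31),
 (nat_lit 1), (29, 14, 14), [3346, 636], 4⟩,
  ⟨⟨-39, -4, 31, -10, 17, -30, -14, -28, -5⟩, (.cons (nat_lit 3929) (nat_lit 4030) (nat_lit 5460) (nat_lit 1)
 (.cons (nat_lit 603) (nat_lit 1052) (nat_lit 189) (nat_lit 1) .nil)), (nat_lit 33), (nat_lit 30), (nat_lit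
 20), (nat_lit 1), (22, 36, 6), [3457, 280], 9⟩,
  ⟨⟨3, 40, 5, 32, -5, 4, 16, 16, -35⟩, (.cons (nat_lit 6858) (nat_lit 993) (nat_lit 1057) (nat_lit 1) (.cons
 (nat_lit 637) (nat_lit 88) (nat_lit 684) (nat_lit 1) .nil)), (nat_lit 52), (nat_lit 6), (nat_lit 18), (nat_lit
 1), (29, 1, 19), [384, 681], 48⟩,
  ⟨⟨-31, 24, 4, -8, 5, 44, 8, 32, -7⟩, (.cons (nat_lit 4885) (nat_lit 3802) (nat_lit 1800) (nat_lit 1) (.cons
 (nat_lit 168) (nat_lit 965) (nat_lit 1261) (nat_lit 1) .nil)), (nat_lit 16), (nat_lit 41), (nat_lit 26),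
 (nat_lit 1), (12, 21, 16), [2914, 344], 52⟩,
  mz,
  ⟨⟨13, 24, -40, -32, -5, -4, 16, -16, -35⟩, (.cons (nat_lit 5365) (nat_lit 484) (nat_lit 1846) (nat_lit 1)
 (.cons (nat_lit 1050) (nat_lit 506) (nat_lit 422) (nat_lit 1) .nil)), (nat_lit 18), (nat_lit 5), (nat_lit 19),
 (nat_lit 1), (24, 32, 21), [5053, 287], 40⟩,
  ⟨⟨1, 24, -37, -30, -17, 0, 18, -12, -37⟩, (.cons (nat_lit 973) (nat_lit 6294) (nat_lit 4784) (nat_lit 1)
 (.cons (nat_lit 281) (nat_lit 1244) (nat_lit 757) (nat_lit 1) .nil)), (nat_lit 8), (nat_lit 2), (nat_lit 43),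
 (nat_lit 1), (23, 13, 7), [6712, 924], 24⟩,
  ⟨⟨27, -4, -47, -10, 33, -10, 30, 12, -7⟩, (.cons (nat_lit 2) (nat_lit 4601) (nat_lit 2332) (nat_lit 1) (.cons
 (nat_lit 565) (nat_lit 1112) (nat_lit 307) (nat_lit 1) .nil)), (nat_lit 45), (nat_lit 9), (nat_lit 29),
 (nat_lit 1), (15, 15, 29), [6310, 62], 11⟩,
  ⟨⟨27, 4, -47, -10, -33, -10, 30, -12, -7⟩, (.cons (nat_lit 3255) (nat_lit 3704) (nat_lit 2053) (nat_lit 1)
 (.cons (nat_lit 1228) (nat_lit 103) (nat_lit 189) (nat_lit 1) .nil)), (nat_lit 24), (nat_lit 49), (nat_lit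
 50), (nat_lit 1), (33, 33, 12), [6391, 442], 33⟩,
  mz,
  ⟨⟨-35, -12, -1, 12, -35, -6, 0, 0, -37⟩, (.cons (nat_lit 970) (nat_lit 5952) (nat_lit 3099) (nat_lit 1)
 (.cons (nat_lit 99) (nat_lit 393) (nat_lit 720) (nat_lit 1) .nil)), (nat_lit 1), (nat_lit 49), (nat_lit 7),
 (nat_lit 1), (23, 27, 0), [2081, 847], 40⟩,
  ⟨⟨25, 24, -36, -10, -17, -30, -14, 28, -5⟩, (.cons (nat_lit 4603) (nat_lit 4910) (nat_lit 5577) (nat_lit 1)
 (.cons (nat_lit 464) (nat_lit 608) (nat_lit 1) (nat_lit 259) .nil)), (nat_lit 4), (nat_lit 45), (nat_lit 38),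
 (nat_lit 1), (18, 15, 21), [2431, 465], 1⟩,
  mz,
  mz,
  ⟨⟨-3, -40, 8, 32, -5, -36, -16, -16, -19⟩, (.cons (nat_lit 1740) (nat_lit 1497) (nat_lit 4831) (nat_lit 1)
 (.cons (nat_lit 1060) (nat_lit 1205) (nat_lit 223) (nat_lit 1) .nil)), (nat_lit 3), (nat_lit 38), (nat_lit
 49), (nat_lit 1), (32, 4, 35), [5161, 700], 42⟩,
  mz,
  ⟨⟨11, 12, 36, -8, 35, -6, 32, 8, -13⟩, (.cons (nat_lit 2014) (nat_lit 1341) (nat_lit 1859) (nat_lit 1) (.cons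
 (nat_lit 785) (nat_lit 956) (nat_lit 500) (nat_lit 1) .nil)), (nat_lit 36), (nat_lit 1), (nat_lit 0), (nat_lit
 1), (20, 9, 1), [5961, 803], 46⟩,
  ⟨⟨1, -24, -37, 30, -17, 0, 18, 12, -37⟩, (.cons (nat_lit 688) (nat_lit 4361) (nat_lit 4349) (nat_lit 1)
 (.cons (nat_lit 194) (nat_lit 541) (nat_lit 218) (nat_lit 1) .nil)), (nat_lit 8), (nat_lit 17), (nat_lit 30),
 (nat_lit 1), (26, 3, 24), [6142, 10], 24⟩]

/-- Moves. -/
noncomputable def t4_1 : List Mv := [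
  mz,
  mz,
  mz,
  mz,
  ⟨⟨-53, 0, 0, 10, -47, -30, -2, 20, -47⟩, (.cons (nat_lit 1539) (nat_lit 2020) (nat_lit 3985) (nat_lit 1)
 (.cons (nat_lit 1264) (nat_lit 324) (nat_lit 1216) (nat_lit 1) .nil)), (nat_lit 5), (nat_lit 0), (nat_lit 0),
 (nat_lit 0), (0, 39, 24), [5041, 1253], 0⟩,
  ⟨⟨51, -20, -47, 10, 47, -30, -2, -20, -47⟩, (.cons (nat_lit 4341) (nat_lit 1406) (nat_lit 744) (nat_lit 1)
 (.cons (nat_lit 644) (nat_lit 1128) (nat_lit 847) (nat_lit 1) .nil)), (nat_lit 15), (nat_lit 0), (nat_lit 0),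
 (nat_lit 0), (12, 46, 12), [3228, 569], 0⟩,
  ⟨⟨15, 56, -11, -28, 5, -36, 40, 8, -47⟩, (.cons (nat_lit 4972) (nat_lit 3838) (nat_lit 1105) (nat_lit 1)
 (.cons (nat_lit 939) (nat_lit 387) (nat_lit 255) (nat_lit 1) .nil)), (nat_lit 28), (nat_lit 0), (nat_lit 0),
 (nat_lit 0), (1, 37, 38), [166, 242], 0⟩,
  mz,
  mz,
  ⟨⟨-33, -20, -32, 8, 45, -34, 24, -24, -49⟩, (.cons (nat_lit 1034) (nat_lit 6637) (nat_lit 1877) (nat_lit 1)
 (.cons (nat_lit 629) (nat_lit 175) (nat_lit 433) (nat_lit 1) .nil)), (nat_lit 18), (nat_lit 0), (nat_lit 0),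
 (nat_lit 0), (35, 14, 42), [5591, 1052], 0⟩,
  ⟨⟨-25, 48, -11, 28, -5, -64, -40, -8, -7⟩, (.cons (nat_lit 4961) (nat_lit 2976) (nat_lit 1592) (nat_lit 1)
 (.cons (nat_lit 830) (nat_lit 465) (nat_lit 764) (nat_lit 1) .nil)), (nat_lit 36), (nat_lit 0), (nat_lit 0),
 (nat_lit 0), (52, 52, 9), [446, 628], 0⟩,
  ⟨⟨15, -32, 44, -50, -17, 30, 14, -44, -19⟩, (.cons (nat_lit 6234) (nat_lit 1969) (nat_lit 1393) (nat_lit 1)
 (.cons (nat_lit 1213) (nat_lit 232) (nat_lit 1301) (nat_lit 1) .nil)), (nat_lit 17), (nat_lit 0), (nat_lit 0),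
 (nat_lit 0), (29, 27, 20), [1515, 984], 0⟩,
  ⟨⟨53, 0, -53, 10, 47, 20, 2, 20, -49⟩, (.cons (nat_lit 150) (nat_lit 175) (nat_lit 5700) (nat_lit 1) (.cons
 (nat_lit 671) (nat_lit 570) (nat_lit 250) (nat_lit 1) .nil)), (nat_lit 4), (nat_lit 0), (nat_lit 0), (nat_lit
 0), (0, 28, 48), [4096, 1127], 0⟩,
  mz,
  mz,
  ⟨⟨53, 0, -53, 10, -47, 20, 2, -20, -49⟩, (.cons (nat_lit 5159) (nat_lit 584) (nat_lit 4486) (nat_lit 1)
 (.cons (nat_lit 888) (nat_lit 172) (nat_lit 69) (nat_lit 1) .nil)), (nat_lit 4), (nat_lit 0), (nat_lit 0),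
 (nat_lit 0), (0, 21, 36), [1991, 1254], 0⟩,
  ⟨⟨15, 52, 16, 10, 17, -60, 46, 4, -11⟩, (.cons (nat_lit 3764) (nat_lit 1828) (nat_lit 37) (nat_lit 1) (.cons
 (nat_lit 1028) (nat_lit 652) (nat_lit 889) (nat_lit 1) .nil)), (nat_lit 44), (nat_lit 0), (nat_lit 0),
 (nat_lit 0), (24, 16, 10), [3729, 200], 0⟩,
  ⟨⟨31, -48, -4, 10, 17, 50, 46, 4, -35⟩, (.cons (nat_lit 193) (nat_lit 1418) (nat_lit 3928) (nat_lit 1) (.cons
 (nat_lit 1348) (nat_lit 785) (nat_lit 1166) (nat_lit 1) .nil)), (nat_lit 43), (nat_lit 0), (nat_lit 0),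
 (nat_lit 0), (18, 40, 25), [3900, 659], 0⟩,
  ⟨⟨-57, -4, 40, 8, -45, 26, -24, -24, -25⟩, (.cons (nat_lit 2347) (nat_lit 1310) (nat_lit 1585) (nat_lit 1)
 (.cons (nat_lit 821) (nat_lit 404) (nat_lit 884) (nat_lit 1) .nil)), (nat_lit 21), (nat_lit 0), (nat_lit 0),
 (nat_lit 0), (12, 29, 19), [6684, 709], 0⟩,
  mz,
  mz,
  ⟨⟨-33, 20, -32, 8, -45, -34, 24, 24, -49⟩, (.cons (nat_lit 4334) (nat_lit 1712) (nat_lit 3328) (nat_lit 1)
 (.cons (nat_lit 682) (nat_lit 1010) (nat_lit 841) (nat_lit 1) .nil)), (nat_lit 18), (nat_lit 0), (nat_lit 0),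
 (nat_lit 0), (47, 40, 14), [5437, 1351], 0⟩,
  ⟨⟨45, 28, -49, 28, -45, -14, 0, 0, -53⟩, (.cons (nat_lit 2147) (nat_lit 1166) (nat_lit 1) (nat_lit 4712)
 (.cons (nat_lit 1368) (nat_lit 1095) (nat_lit 609) (nat_lit 1) .nil)), (nat_lit 22), (nat_lit 0), (nat_lit 0),
 (nat_lit 0), (24, 22, 0), [1377, 105], 0⟩,
  mz,
  ⟨⟨-13, 48, -27, 30, -17, -60, 30, 36, -7⟩, (.cons (nat_lit 6488) (nat_lit 3188) (nat_lit 5181) (nat_lit 1)
 (.cons (nat_lit 1173) (nat_lit 148) (nat_lit 999) (nat_lit 1) .nil)), (nat_lit 29), (nat_lit 0), (nat_lit 0),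
 (nat_lit 0), (11, 48, 48), [1118, 805], 0⟩,
  mz,
  ⟨⟨-25, -48, -11, 28, 5, -64, -40, 8, -7⟩, (.cons (nat_lit 4020) (nat_lit 1939) (nat_lit 2416) (nat_lit 1)
 (.cons (nat_lit 1151) (nat_lit 807) (nat_lit 645) (nat_lit 1) .nil)), (nat_lit 36), (nat_lit 0), (nat_lit 0),
 (nat_lit 0), (2, 2, 35), [2559, 1178], 0⟩,
  mz,
  ⟨⟨-1, -48, 37, 52, 5, -16, 8, -40, -31⟩, (.cons (nat_lit 1105) (nat_lit 4731) (nat_lit 6736) (nat_lit 1)
 (.cons (nat_lit 156) (nat_lit 1233) (nat_lit 1290) (nat_lit 1) .nil)), (nat_lit 6), (nat_lit 0), (nat_lit 0),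
 (nat_lit 0), (29, 29, 33), [6700, 1243], 0⟩,
  ⟨⟨-13, 48, 40, -30, 17, -30, 30, 36, -23⟩, (.cons (nat_lit 639) (nat_lit 16) (nat_lit 6107) (nat_lit 1)
 (.cons (nat_lit 1100) (nat_lit 1033) (nat_lit 959) (nat_lit 1) .nil)), (nat_lit 52), (nat_lit 0), (nat_lit 0),
 (nat_lit 0), (42, 48, 5), [619, 970], 0⟩,
  mz,
  ⟨⟨-45, 28, -4, -28, -45, 14, 0, 0, -53⟩, (.cons (nat_lit 4219) (nat_lit 5268) (nat_lit 876) (nat_lit 1)
 (.cons (nat_lit 1037) (nat_lit 536) (nat_lit 568) (nat_lit 1) .nil)), (nat_lit 22), (nat_lit 0), (nat_lit 0),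
 (nat_lit 0), (14, 4, 0), [363, 509], 0⟩,
  mz,
  ⟨⟨-39, 28, -17, 10, -33, -50, 18, 36, -37⟩, (.cons (nat_lit 4719) (nat_lit 3456) (nat_lit 966) (nat_lit 1)
 (.cons (nat_lit 1045) (nat_lit 672) (nat_lit 1303) (nat_lit 1) .nil)), (nat_lit 50), (nat_lit 0), (nat_lit 0),
 (nat_lit 0), (43, 8, 25), [2341, 661], 0⟩,
  mz,
  mz,
  ⟨⟨-9, 8, -59, 52, -5, -36, -8, -40, -23⟩, (.cons (nat_lit 2461) (nat_lit 1476) (nat_lit 5436) (nat_lit 1)
 (.cons (nat_lit 414) (nat_lit 519) (nat_lit 1312) (nat_lit 1) .nil)), (nat_lit 10), (nat_lit 0), (nat_lit 0),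
 (nat_lit 0), (2, 12, 43), [3845, 432], 0⟩,
  ⟨⟨-1, 48, 37, 52, -5, -16, 8, 40, -31⟩, (.cons (nat_lit 1275) (nat_lit 5862) (nat_lit 1652) (nat_lit 1)
 (.cons (nat_lit 275) (nat_lit 647) (nat_lit 990) (nat_lit 1) .nil)), (nat_lit 6), (nat_lit 0), (nat_lit 0),
 (nat_lit 0), (26, 26, 4), [4683, 1257], 0⟩,
  ⟨⟨39, 28, -56, -10, -33, -40, -18, 36, -19⟩, (.cons (nat_lit 4858) (nat_lit 2274) (nat_lit 6117) (nat_lit 1)
 (.cons (nat_lit 476) (nat_lit 1238) (nat_lit 570) (nat_lit 1) .nil)), (nat_lit 50), (nat_lit 0), (nat_lit 0),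
 (nat_lit 0), (34, 47, 21), [3373, 317], 0⟩,
  ⟨⟨15, -56, -11, -28, -5, -36, 40, -8, -47⟩, (.cons (nat_lit 1601) (nat_lit 1735) (nat_lit 528) (nat_lit 1)
 (.cons (nat_lit 351) (nat_lit 453) (nat_lit 1) (nat_lit 333) .nil)), (nat_lit 28), (nat_lit 0), (nat_lit 0),
 (nat_lit 0), (31, 34, 12), [5166, 707], 0⟩,
  ⟨⟨1, 48, 36, 52, 5, -36, -8, 40, -23⟩, (.cons (nat_lit 6562) (nat_lit 6750) (nat_lit 5577) (nat_lit 1) (.cons
 (nat_lit 321) (nat_lit 777) (nat_lit 320) (nat_lit 1) .nil)), (nat_lit 39), (nat_lit 0), (nat_lit 0), (nat_lit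
 0), (38, 15, 14), [6442, 659], 0⟩,
  ⟨⟨31, 48, -4, -10, 17, -50, 46, -4, -35⟩, (.cons (nat_lit 3858) (nat_lit 6827) (nat_lit 1721) (nat_lit 1)
 (.cons (nat_lit 930) (nat_lit 964) (nat_lit 961) (nat_lit 1) .nil)), (nat_lit 11), (nat_lit 0), (nat_lit 0),
 (nat_lit 0), (15, 2, 12), [4414, 221], 0⟩,
  ⟨⟨-57, 4, 40, -8, -45, -26, -24, 24, -25⟩, (.cons (nat_lit 1795) (nat_lit 5712) (nat_lit 949) (nat_lit 1)
 (.cons (nat_lit 696) (nat_lit 1033) (nat_lit 1365) (nat_lit 1) .nil)), (nat_lit 9), (nat_lit 0), (nat_lit 0),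
 (nat_lit 0), (25, 50, 44), [1281, 119], 0⟩,
  ⟨⟨15, 32, 44, -50, 17, 30, 14, 44, -19⟩, (.cons (nat_lit 6397) (nat_lit 3511) (nat_lit 3960) (nat_lit 1)
 (.cons (nat_lit 1043) (nat_lit 1276) (nat_lit 903) (nat_lit 1) .nil)), (nat_lit 17), (nat_lit 0), (nat_lit 0),
 (nat_lit 0), (27, 16, 4), [2783, 582], 0⟩,
  ⟨⟨-15, 32, 59, 50, 17, -20, -14, 44, -5⟩, (.cons (nat_lit 4310) (nat_lit 2027) (nat_lit 4232) (nat_lit 1)
 (.cons (nat_lit 1264) (nat_lit 1306) (nat_lit 600) (nat_lit 1) .nil)), (nat_lit 17), (nat_lit 0), (nat_lit 0),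
 (nat_lit 0), (6, 33, 48), [2906, 464], 0⟩,
  mz,
  ⟨⟨-13, -48, -27, -30, -17, 60, 30, -36, -7⟩, (.cons (nat_lit 3808) (nat_lit 4259) (nat_lit 2826) (nat_lit 1)
 (.cons (nat_lit 609) (nat_lit 1109) (nat_lit 1343) (nat_lit 1) .nil)), (nat_lit 52), (nat_lit 0), (nat_lit 0),
 (nat_lit 0), (14, 16, 37), [871, 181], 0⟩,
  ⟨⟨-15, -32, 59, 50, -17, -20, -14, -44, -5⟩, (.cons (nat_lit 4556) (nat_lit 1258) (nat_lit 1540) (nat_lit 1)
 (.cons (nat_lit 65) (nat_lit 109) (nat_lit 1017) (nat_lit 1) .nil)), (nat_lit 17), (nat_lit 0), (nat_lit 0),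
 (nat_lit 0), (8, 44, 11), [4186, 123], 0⟩,
  ⟨⟨15, -52, 16, 10, -17, -60, 46, -4, -11⟩, (.cons (nat_lit 6138) (nat_lit 5110) (nat_lit 3354) (nat_lit 1)
 (.cons (nat_lit 977) (nat_lit 1075) (nat_lit 700) (nat_lit 1) .nil)), (nat_lit 44), (nat_lit 0), (nat_lit 0),
 (nat_lit 0), (14, 27, 50), [3927, 336], 0⟩,
  ⟨⟨-39, -28, -17, 10, 33, -50, 18, -36, -37⟩, (.cons (nat_lit 3981) (nat_lit 4984) (nat_lit 2158) (nat_lit 1)
 (.cons (nat_lit 861) (nat_lit 937) (nat_lit 869) (nat_lit 1) .nil)), (nat_lit 50), (nat_lit 0), (nat_lit 0),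
 (nat_lit 0), (5, 49, 14), [2979, 34], 0⟩,
  ⟨⟨39, -28, -56, -10, 33, -40, -18, -36, -19⟩, (.cons (nat_lit 6858) (nat_lit 1980) (nat_lit 4874) (nat_lit 1)
 (.cons (nat_lit 1368) (nat_lit 644) (nat_lit 1116) (nat_lit 1) .nil)), (nat_lit 50), (nat_lit 0), (nat_lit 0),
 (nat_lit 0), (49, 35, 10), [1983, 309], 0⟩,
  mz,
  ⟨⟨-13, -48, 40, 30, 17, 30, 30, -36, -23⟩, (.cons (nat_lit 5689) (nat_lit 5002) (nat_lit 4971) (nat_lit 1)
 (.cons (nat_lit 1084) (nat_lit 70) (nat_lit 884) (nat_lit 1) .nil)), (nat_lit 29), (nat_lit 0), (nat_lit 0),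
 (nat_lit 0), (45, 47, 47), [1958, 931], 0⟩]

/-- Moves. -/
noncomputable def t4_2 : List Mv := [
  mz,
  mz,
  mz,
  mz,
  ⟨⟨51, 20, -47, -10, 47, 30, -2, 20, -47⟩, (.cons (nat_lit 503) (nat_lit 1142) (nat_lit 6821) (nat_lit 1)
 (.cons (nat_lit 1014) (nat_lit 1107) (nat_lit 1134) (nat_lit 1) .nil)), (nat_lit 12), (nat_lit 0), (nat_lit
 0), (nat_lit 0), (24, 14, 24), [5413, 532], 0⟩,
  ⟨⟨51, -20, -47, 10, 47, -30, -2, -20, -47⟩, (.cons (nat_lit 4341) (nat_lit 1406) (nat_lit 744) (nat_lit 1)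
 (.cons (nat_lit 644) (nat_lit 1128) (nat_lit 847) (nat_lit 1) .nil)), (nat_lit 15), (nat_lit 0), (nat_lit 0),
 (nat_lit 0), (12, 46, 12), [3228, 569], 0⟩,
  ⟨⟨15, 56, -11, -28, 5, -36, 40, 8, -47⟩, (.cons (nat_lit 4972) (nat_lit 3838) (nat_lit 1105) (nat_lit 1)
 (.cons (nat_lit 939) (nat_lit 387) (nat_lit 255) (nat_lit 1) .nil)), (nat_lit 28), (nat_lit 0), (nat_lit 0),
 (nat_lit 0), (1, 37, 38), [166, 242], 0⟩,
  mz,
  mz,
  ⟨⟨57, -4, -17, 8, 45, -34, 24, -24, -49⟩, (.cons (nat_lit 6858) (nat_lit 1473) (nat_lit 1265) (nat_lit 1)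
 (.cons (nat_lit 1368) (nat_lit 714) (nat_lit 1061) (nat_lit 1) .nil)), (nat_lit 9), (nat_lit 0), (nat_lit 0),
 (nat_lit 0), (7, 14, 42), [1456, 383], 0⟩,
  ⟨⟨-25, 48, -11, 28, -5, -64, -40, -8, -7⟩, (.cons (nat_lit 4961) (nat_lit 2976) (nat_lit 1592) (nat_lit 1)
 (.cons (nat_lit 830) (nat_lit 465) (nat_lit 764) (nat_lit 1) .nil)), (nat_lit 36), (nat_lit 0), (nat_lit 0),
 (nat_lit 0), (52, 52, 9), [446, 628], 0⟩,
  ⟨⟨15, -32, 44, 50, 17, -30, 14, -44, -19⟩, (.cons (nat_lit 2281) (nat_lit 4402) (nat_lit 4606) (nat_lit 1)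
 (.cons (nat_lit 237) (nat_lit 155) (nat_lit 866) (nat_lit 1) .nil)), (nat_lit 41), (nat_lit 0), (nat_lit 0),
 (nat_lit 0), (29, 26, 20), [3616, 626], 0⟩,
  ⟨⟨-51, 20, 4, -10, -47, -20, 2, 20, -49⟩, (.cons (nat_lit 2223) (nat_lit 6615) (nat_lit 5139) (nat_lit 1)
 (.cons (nat_lit 154) (nat_lit 1023) (nat_lit 1246) (nat_lit 1) .nil)), (nat_lit 15), (nat_lit 0), (nat_lit 0),
 (nat_lit 0), (48, 25, 48), [4946, 883], 0⟩,
  mz,
  mz,
  ⟨⟨-51, -20, 4, -10, 47, -20, 2, -20, -49⟩, (.cons (nat_lit 6858) (nat_lit 6659) (nat_lit 5280) (nat_lit 1)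
 (.cons (nat_lit 1368) (nat_lit 1273) (nat_lit 370) (nat_lit 1) .nil)), (nat_lit 15), (nat_lit 0), (nat_lit 0),
 (nat_lit 0), (36, 32, 36), [5366, 132], 0⟩,
  ⟨⟨31, -48, -27, -10, -17, 60, 46, 4, -11⟩, (.cons (nat_lit 472) (nat_lit 6007) (nat_lit 770) (nat_lit 1)
 (.cons (nat_lit 561) (nat_lit 1042) (nat_lit 1137) (nat_lit 1) .nil)), (nat_lit 11), (nat_lit 0), (nat_lit 0),
 (nat_lit 0), (39, 37, 10), [571, 424], 0⟩,
  ⟨⟨31, -48, -4, -10, -17, -50, 46, 4, -35⟩, (.cons (nat_lit 428) (nat_lit 925) (nat_lit 529) (nat_lit 1)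
 (.cons (nat_lit 430) (nat_lit 177) (nat_lit 491) (nat_lit 1) .nil)), (nat_lit 11), (nat_lit 0), (nat_lit 0),
 (nat_lit 0), (18, 13, 25), [1761, 131], 0⟩,
  ⟨⟨-57, -4, 40, -8, 45, -26, -24, -24, -25⟩, (.cons (nat_lit 1665) (nat_lit 6103) (nat_lit 2499) (nat_lit 1)
 (.cons (nat_lit 841) (nat_lit 677) (nat_lit 1) (nat_lit 555) .nil)), (nat_lit 9), (nat_lit 0), (nat_lit 0),
 (nat_lit 0), (12, 24, 19), [1328, 1267], 0⟩,
  mz,
  mz,
  ⟨⟨-33, 20, -32, 8, -45, -34, 24, 24, -49⟩, (.cons (nat_lit 4334) (nat_lit 1712) (nat_lit 3328) (nat_lit 1)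
 (.cons (nat_lit 682) (nat_lit 1010) (nat_lit 841) (nat_lit 1) .nil)), (nat_lit 18), (nat_lit 0), (nat_lit 0),
 (nat_lit 0), (47, 40, 14), [5437, 1351], 0⟩,
  ⟨⟨-45, -28, -4, 28, -45, -14, 0, 0, -53⟩, (.cons (nat_lit 1920) (nat_lit 2465) (nat_lit 5394) (nat_lit 1)
 (.cons (nat_lit 334) (nat_lit 315) (nat_lit 579) (nat_lit 1) .nil)), (nat_lit 31), (nat_lit 0), (nat_lit 0),
 (nat_lit 0), (29, 22, 0), [6595, 1360], 0⟩,
  mz,
  ⟨⟨-13, 48, -27, -30, 17, 60, 30, 36, -7⟩, (.cons (nat_lit 4158) (nat_lit 2576) (nat_lit 1768) (nat_lit 1)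
 (.cons (nat_lit 1158) (nat_lit 1064) (nat_lit 724) (nat_lit 1) .nil)), (nat_lit 52), (nat_lit 0), (nat_lit 0),
 (nat_lit 0), (11, 5, 48), [1310, 1017], 0⟩,
  mz,
  ⟨⟨-15, 56, 4, -28, -5, 64, -40, 8, -7⟩, (.cons (nat_lit 17) (nat_lit 4268) (nat_lit 1246) (nat_lit 1) (.cons
 (nat_lit 1302) (nat_lit 1270) (nat_lit 491) (nat_lit 1) .nil)), (nat_lit 37), (nat_lit 0), (nat_lit 0),
 (nat_lit 0), (33, 51, 35), [6114, 994], 0⟩,
  mz,
  ⟨⟨-1, -48, 37, 52, 5, -16, 8, -40, -31⟩, (.cons (nat_lit 1105) (nat_lit 4731) (nat_lit 6736) (nat_lit 1)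
 (.cons (nat_lit 156) (nat_lit 1233) (nat_lit 1290) (nat_lit 1) .nil)), (nat_lit 6), (nat_lit 0), (nat_lit 0),
 (nat_lit 0), (29, 29, 33), [6700, 1243], 0⟩,
  ⟨⟨43, -12, -63, -30, 17, -30, 30, 36, -23⟩, (.cons (nat_lit 758) (nat_lit 4723) (nat_lit 3009) (nat_lit 1)
 (.cons (nat_lit 454) (nat_lit 1258) (nat_lit 962) (nat_lit 1) .nil)), (nat_lit 24), (nat_lit 0), (nat_lit 0),
 (nat_lit 0), (16, 48, 5), [3375, 789], 0⟩,
  mz,
  ⟨⟨45, -28, -49, 28, 45, -14, 0, 0, -53⟩, (.cons (nat_lit 5910) (nat_lit 3126) (nat_lit 1676) (nat_lit 1)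
 (.cons (nat_lit 1000) (nat_lit 1278) (nat_lit 1293) (nat_lit 1) .nil)), (nat_lit 22), (nat_lit 0), (nat_lit
 0), (nat_lit 0), (39, 49, 0), [5715, 47], 0⟩,
  mz,
  ⟨⟨-39, 28, -17, 10, -33, -50, 18, 36, -37⟩, (.cons (nat_lit 4719) (nat_lit 3456) (nat_lit 966) (nat_lit 1)
 (.cons (nat_lit 1045) (nat_lit 672) (nat_lit 1303) (nat_lit 1) .nil)), (nat_lit 50), (nat_lit 0), (nat_lit 0),
 (nat_lit 0), (43, 8, 25), [2341, 661], 0⟩,
  mz,
  mz,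
  ⟨⟨-9, 8, -59, 52, -5, -36, -8, -40, -23⟩, (.cons (nat_lit 2461) (nat_lit 1476) (nat_lit 5436) (nat_lit 1)
 (.cons (nat_lit 414) (nat_lit 519) (nat_lit 1312) (nat_lit 1) .nil)), (nat_lit 10), (nat_lit 0), (nat_lit 0),
 (nat_lit 0), (2, 12, 43), [3845, 432], 0⟩,
  ⟨⟨9, -8, -68, 52, -5, -16, 8, 40, -31⟩, (.cons (nat_lit 807) (nat_lit 5801) (nat_lit 2751) (nat_lit 1) (.cons
 (nat_lit 756) (nat_lit 918) (nat_lit 1172) (nat_lit 1) .nil)), (nat_lit 26), (nat_lit 0), (nat_lit 0),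
 (nat_lit 0), (31, 26, 4), [4578, 533], 0⟩,
  ⟨⟨39, 28, -56, -10, -33, -40, -18, 36, -19⟩, (.cons (nat_lit 4858) (nat_lit 2274) (nat_lit 6117) (nat_lit 1)
 (.cons (nat_lit 476) (nat_lit 1238) (nat_lit 570) (nat_lit 1) .nil)), (nat_lit 50), (nat_lit 0), (nat_lit 0),
 (nat_lit 0), (34, 47, 21), [3373, 317], 0⟩,
  ⟨⟨15, -56, -11, -28, -5, -36, 40, -8, -47⟩, (.cons (nat_lit 1601) (nat_lit 1735) (nat_lit 528) (nat_lit 1)
 (.cons (nat_lit 351) (nat_lit 453) (nat_lit 1) (nat_lit 333) .nil)), (nat_lit 28), (nat_lit 0), (nat_lit 0),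
 (nat_lit 0), (31, 34, 12), [5166, 707], 0⟩,
  ⟨⟨-9, -8, -59, 52, 5, -36, -8, 40, -23⟩, (.cons (nat_lit 5447) (nat_lit 1978) (nat_lit 6327) (nat_lit 1)
 (.cons (nat_lit 976) (nat_lit 441) (nat_lit 183) (nat_lit 1) .nil)), (nat_lit 10), (nat_lit 0), (nat_lit 0),
 (nat_lit 0), (29, 15, 14), [5087, 797], 0⟩,
  ⟨⟨31, 48, -4, -10, 17, -50, 46, -4, -35⟩, (.cons (nat_lit 3858) (nat_lit 6827) (nat_lit 1721) (nat_lit 1)
 (.cons (nat_lit 930) (nat_lit 964) (nat_lit 961) (nat_lit 1) .nil)), (nat_lit 11), (nat_lit 0), (nat_lit 0),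
 (nat_lit 0), (15, 2, 12), [4414, 221], 0⟩,
  ⟨⟨-57, 4, 40, -8, -45, -26, -24, 24, -25⟩, (.cons (nat_lit 1795) (nat_lit 5712) (nat_lit 949) (nat_lit 1)
 (.cons (nat_lit 696) (nat_lit 1033) (nat_lit 1365) (nat_lit 1) .nil)), (nat_lit 9), (nat_lit 0), (nat_lit 0),
 (nat_lit 0), (25, 50, 44), [1281, 119], 0⟩,
  ⟨⟨15, 32, 44, -50, 17, 30, 14, 44, -19⟩, (.cons (nat_lit 6397) (nat_lit 3511) (nat_lit 3960) (nat_lit 1)
 (.cons (nat_lit 1043) (nat_lit 1276) (nat_lit 903) (nat_lit 1) .nil)), (nat_lit 17), (nat_lit 0), (nat_lit 0),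
 (nat_lit 0), (27, 16, 4), [2783, 582], 0⟩,
  ⟨⟨-15, 32, 59, 50, 17, -20, -14, 44, -5⟩, (.cons (nat_lit 4310) (nat_lit 2027) (nat_lit 4232) (nat_lit 1)
 (.cons (nat_lit 1264) (nat_lit 1306) (nat_lit 600) (nat_lit 1) .nil)), (nat_lit 17), (nat_lit 0), (nat_lit 0),
 (nat_lit 0), (6, 33, 48), [2906, 464], 0⟩,
  mz,
  ⟨⟨-13, -48, -27, 30, 17, -60, 30, -36, -7⟩, (.cons (nat_lit 5583) (nat_lit 6448) (nat_lit 349) (nat_lit 1)
 (.cons (nat_lit 122) (nat_lit 469) (nat_lit 1135) (nat_lit 1) .nil)), (nat_lit 29), (nat_lit 0), (nat_lit 0),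
 (nat_lit 0), (14, 37, 37), [3457, 647], 0⟩,
  ⟨⟨1, -12, -64, 50, -17, -20, -14, -44, -5⟩, (.cons (nat_lit 2986) (nat_lit 6144) (nat_lit 6857) (nat_lit 1)
 (.cons (nat_lit 365) (nat_lit 152) (nat_lit 746) (nat_lit 1) .nil)), (nat_lit 48), (nat_lit 0), (nat_lit 0),
 (nat_lit 0), (3, 44, 11), [160, 313], 0⟩,
  ⟨⟨15, -52, 16, -10, 17, 60, 46, -4, -11⟩, (.cons (nat_lit 5846) (nat_lit 2759) (nat_lit 4833) (nat_lit 1)
 (.cons (nat_lit 1354) (nat_lit 911) (nat_lit 238) (nat_lit 1) .nil)), (nat_lit 47), (nat_lit 0), (nat_lit 0),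
 (nat_lit 0), (14, 26, 50), [3702, 763], 0⟩,
  ⟨⟨-39, -28, -17, -10, -33, 50, 18, -36, -37⟩, (.cons (nat_lit 812) (nat_lit 1620) (nat_lit 4558) (nat_lit 1)
 (.cons (nat_lit 1268) (nat_lit 832) (nat_lit 24) (nat_lit 1) .nil)), (nat_lit 38), (nat_lit 0), (nat_lit 0),
 (nat_lit 0), (5, 4, 14), [894, 1313], 0⟩,
  ⟨⟨39, -28, -56, -10, 33, -40, -18, -36, -19⟩, (.cons (nat_lit 6858) (nat_lit 1980) (nat_lit 4874) (nat_lit 1)
 (.cons (nat_lit 1368) (nat_lit 644) (nat_lit 1116) (nat_lit 1) .nil)), (nat_lit 50), (nat_lit 0), (nat_lit 0),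
 (nat_lit 0), (49, 35, 10), [1983, 309], 0⟩,
  mz,
  ⟨⟨43, 12, -63, 30, 17, 30, 30, -36, -23⟩, (.cons (nat_lit 3280) (nat_lit 2263) (nat_lit 4088) (nat_lit 1)
 (.cons (nat_lit 1097) (nat_lit 468) (nat_lit 1142) (nat_lit 1) .nil)), (nat_lit 46), (nat_lit 0), (nat_lit 0),
 (nat_lit 0), (2, 47, 47), [489, 454], 0⟩]

/-- Moves. -/
noncomputable def t4_8 : List Mv := [
  mz,
  mz,
  mz,
  mz,
  ⟨⟨51, 20, -47, 10, -47, -30, -2, 20, -47⟩, (.cons (nat_lit 4999) (nat_lit 2518) (nat_lit 3416) (nat_lit 1)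
 (.cons (nat_lit 496) (nat_lit 935) (nat_lit 1) (nat_lit 999) .nil)), (nat_lit 15), (nat_lit 0), (nat_lit 0),
 (nat_lit 0), (24, 39, 24), [2017, 1283], 0⟩,
  ⟨⟨-53, 0, 0, -10, -47, 30, -2, -20, -47⟩, (.cons (nat_lit 1315) (nat_lit 4992) (nat_lit 1) (nat_lit 380)
 (.cons (nat_lit 1030) (nat_lit 316) (nat_lit 155) (nat_lit 1) .nil)), (nat_lit 4), (nat_lit 0), (nat_lit 0),
 (nat_lit 0), (0, 7, 12), [2433, 486], 0⟩,
  ⟨⟨25, -48, -36, 28, -5, 36, 40, 8, -47⟩, (.cons (nat_lit 3034) (nat_lit 5907) (nat_lit 1) (nat_lit 3116)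
 (.cons (nat_lit 664) (nat_lit 1055) (nat_lit 632) (nat_lit 1) .nil)), (nat_lit 40), (nat_lit 0), (nat_lit 0),
 (nat_lit 0), (37, 16, 38), [2193, 685], 0⟩,
  mz,
  mz,
  ⟨⟨-33, -20, -32, -8, -45, 34, 24, -24, -49⟩, (.cons (nat_lit 5812) (nat_lit 6275) (nat_lit 5907) (nat_lit 1)
 (.cons (nat_lit 1131) (nat_lit 803) (nat_lit 417) (nat_lit 1) .nil)), (nat_lit 42), (nat_lit 0), (nat_lit 0),
 (nat_lit 0), (35, 39, 42), [659, 1049], 0⟩,
  ⟨⟨-25, 48, -11, 28, -5, -64, -40, -8, -7⟩, (.cons (nat_lit 4961) (nat_lit 2976) (nat_lit 1592) (nat_lit 1)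
 (.cons (nat_lit 830) (nat_lit 465) (nat_lit 764) (nat_lit 1) .nil)), (nat_lit 36), (nat_lit 0), (nat_lit 0),
 (nat_lit 0), (52, 52, 9), [446, 628], 0⟩,
  ⟨⟨-1, -12, -63, 50, 17, -30, 14, -44, -19⟩, (.cons (nat_lit 2514) (nat_lit 1920) (nat_lit 5317) (nat_lit 1)
 (.cons (nat_lit 327) (nat_lit 147) (nat_lit 569) (nat_lit 1) .nil)), (nat_lit 16), (nat_lit 0), (nat_lit 0),
 (nat_lit 0), (44, 26, 20), [3498, 646], 0⟩,
  ⟨⟨-51, 20, 4, -10, -47, -20, 2, 20, -49⟩, (.cons (nat_lit 2223) (nat_lit 6615) (nat_lit 5139) (nat_lit 1)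
 (.cons (nat_lit 154) (nat_lit 1023) (nat_lit 1246) (nat_lit 1) .nil)), (nat_lit 15), (nat_lit 0), (nat_lit 0),
 (nat_lit 0), (48, 25, 48), [4946, 883], 0⟩,
  mz,
  mz,
  ⟨⟨53, 0, -53, -10, 47, -20, 2, -20, -49⟩, (.cons (nat_lit 2487) (nat_lit 1368) (nat_lit 1602) (nat_lit 1)
 (.cons (nat_lit 338) (nat_lit 687) (nat_lit 1204) (nat_lit 1) .nil)), (nat_lit 5), (nat_lit 0), (nat_lit 0),
 (nat_lit 0), (0, 32, 36), [6471, 609], 0⟩,
  ⟨⟨15, 52, 16, 10, 17, -60, 46, 4, -11⟩, (.cons (nat_lit 3764) (nat_lit 1828) (nat_lit 37) (nat_lit 1) (.cons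
 (nat_lit 1028) (nat_lit 652) (nat_lit 889) (nat_lit 1) .nil)), (nat_lit 44), (nat_lit 0), (nat_lit 0),
 (nat_lit 0), (24, 16, 10), [3729, 200], 0⟩,
  ⟨⟨31, -48, -4, 10, 17, 50, 46, 4, -35⟩, (.cons (nat_lit 193) (nat_lit 1418) (nat_lit 3928) (nat_lit 1) (.cons
 (nat_lit 1348) (nat_lit 785) (nat_lit 1166) (nat_lit 1) .nil)), (nat_lit 43), (nat_lit 0), (nat_lit 0),
 (nat_lit 0), (18, 40, 25), [3900, 659], 0⟩,
  ⟨⟨-57, -4, 40, -8, 45, -26, -24, -24, -25⟩, (.cons (nat_lit 1665) (nat_lit 6103) (nat_lit 2499) (nat_lit 1)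
 (.cons (nat_lit 841) (nat_lit 677) (nat_lit 1) (nat_lit 555) .nil)), (nat_lit 9), (nat_lit 0), (nat_lit 0),
 (nat_lit 0), (12, 24, 19), [1328, 1267], 0⟩,
  mz,
  mz,
  ⟨⟨-33, 20, -32, 8, -45, -34, 24, 24, -49⟩, (.cons (nat_lit 4334) (nat_lit 1712) (nat_lit 3328) (nat_lit 1)
 (.cons (nat_lit 682) (nat_lit 1010) (nat_lit 841) (nat_lit 1) .nil)), (nat_lit 18), (nat_lit 0), (nat_lit 0),
 (nat_lit 0), (47, 40, 14), [5437, 1351], 0⟩,
  ⟨⟨45, 28, -49, 28, -45, -14, 0, 0, -53⟩, (.cons (nat_lit 2147) (nat_lit 1166) (nat_lit 1) (nat_lit 4712)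
 (.cons (nat_lit 1368) (nat_lit 1095) (nat_lit 609) (nat_lit 1) .nil)), (nat_lit 22), (nat_lit 0), (nat_lit 0),
 (nat_lit 0), (24, 22, 0), [1377, 105], 0⟩,
  mz,
  ⟨⟨-13, 48, -27, 30, -17, -60, 30, 36, -7⟩, (.cons (nat_lit 6488) (nat_lit 3188) (nat_lit 5181) (nat_lit 1)
 (.cons (nat_lit 1173) (nat_lit 148) (nat_lit 999) (nat_lit 1) .nil)), (nat_lit 29), (nat_lit 0), (nat_lit 0),
 (nat_lit 0), (11, 48, 48), [1118, 805], 0⟩,
  mz,
  ⟨⟨-25, -48, -11, 28, 5, -64, -40, 8, -7⟩, (.cons (nat_lit 4020) (nat_lit 1939) (nat_lit 2416) (nat_lit 1)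
 (.cons (nat_lit 1151) (nat_lit 807) (nat_lit 645) (nat_lit 1) .nil)), (nat_lit 36), (nat_lit 0), (nat_lit 0),
 (nat_lit 0), (2, 2, 35), [2559, 1178], 0⟩,
  mz,
  ⟨⟨-1, -48, 37, 52, 5, -16, 8, -40, -31⟩, (.cons (nat_lit 1105) (nat_lit 4731) (nat_lit 6736) (nat_lit 1)
 (.cons (nat_lit 156) (nat_lit 1233) (nat_lit 1290) (nat_lit 1) .nil)), (nat_lit 6), (nat_lit 0), (nat_lit 0),
 (nat_lit 0), (29, 29, 33), [6700, 1243], 0⟩,
  ⟨⟨43, -12, -63, -30, 17, -30, 30, 36, -23⟩, (.cons (nat_lit 758) (nat_lit 4723) (nat_lit 3009) (nat_lit 1)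
 (.cons (nat_lit 454) (nat_lit 1258) (nat_lit 962) (nat_lit 1) .nil)), (nat_lit 24), (nat_lit 0), (nat_lit 0),
 (nat_lit 0), (16, 48, 5), [3375, 789], 0⟩,
  mz,
  ⟨⟨45, -28, -49, 28, 45, -14, 0, 0, -53⟩, (.cons (nat_lit 5910) (nat_lit 3126) (nat_lit 1676) (nat_lit 1)
 (.cons (nat_lit 1000) (nat_lit 1278) (nat_lit 1293) (nat_lit 1) .nil)), (nat_lit 22), (nat_lit 0), (nat_lit
 0), (nat_lit 0), (39, 49, 0), [5715, 47], 0⟩,
  mz,
  ⟨⟨57, 8, -20, 10, -33, -50, 18, 36, -37⟩, (.cons (nat_lit 6245) (nat_lit 6833) (nat_lit 2138) (nat_lit 1)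
 (.cons (nat_lit 1290) (nat_lit 150) (nat_lit 664) (nat_lit 1) .nil)), (nat_lit 49), (nat_lit 0), (nat_lit 0),
 (nat_lit 0), (35, 8, 25), [5406, 1353], 0⟩,
  mz,
  mz,
  ⟨⟨-9, 8, -59, 52, -5, -36, -8, -40, -23⟩, (.cons (nat_lit 2461) (nat_lit 1476) (nat_lit 5436) (nat_lit 1)
 (.cons (nat_lit 414) (nat_lit 519) (nat_lit 1312) (nat_lit 1) .nil)), (nat_lit 10), (nat_lit 0), (nat_lit 0),
 (nat_lit 0), (2, 12, 43), [3845, 432], 0⟩,
  ⟨⟨-1, 48, 37, 52, -5, -16, 8, 40, -31⟩, (.cons (nat_lit 1275) (nat_lit 5862) (nat_lit 1652) (nat_lit 1)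
 (.cons (nat_lit 275) (nat_lit 647) (nat_lit 990) (nat_lit 1) .nil)), (nat_lit 6), (nat_lit 0), (nat_lit 0),
 (nat_lit 0), (26, 26, 4), [4683, 1257], 0⟩,
  ⟨⟨-57, 8, 37, -10, -33, -40, -18, 36, -19⟩, (.cons (nat_lit 718) (nat_lit 2870) (nat_lit 5958) (nat_lit 1)
 (.cons (nat_lit 1247) (nat_lit 198) (nat_lit 190) (nat_lit 1) .nil)), (nat_lit 49), (nat_lit 0), (nat_lit 0),
 (nat_lit 0), (40, 47, 21), [1669, 217], 0⟩,
  ⟨⟨25, 48, -36, 28, 5, 36, 40, -8, -47⟩, (.cons (nat_lit 5635) (nat_lit 3764) (nat_lit 1543) (nat_lit 1)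
 (.cons (nat_lit 1224) (nat_lit 407) (nat_lit 1223) (nat_lit 1) .nil)), (nat_lit 40), (nat_lit 0), (nat_lit 0),
 (nat_lit 0), (34, 19, 12), [5764, 1195], 0⟩,
  ⟨⟨1, 48, 36, -52, -5, 36, -8, 40, -23⟩, (.cons (nat_lit 5377) (nat_lit 6371) (nat_lit 3113) (nat_lit 1)
 (.cons (nat_lit 1202) (nat_lit 953) (nat_lit 131) (nat_lit 1) .nil)), (nat_lit 6), (nat_lit 0), (nat_lit 0),
 (nat_lit 0), (38, 38, 14), [6266, 939], 0⟩,
  ⟨⟨31, 48, -4, -10, 17, -50, 46, -4, -35⟩, (.cons (nat_lit 3858) (nat_lit 6827) (nat_lit 1721) (nat_lit 1)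
 (.cons (nat_lit 930) (nat_lit 964) (nat_lit 961) (nat_lit 1) .nil)), (nat_lit 11), (nat_lit 0), (nat_lit 0),
 (nat_lit 0), (15, 2, 12), [4414, 221], 0⟩,
  ⟨⟨-57, 4, 40, -8, -45, -26, -24, 24, -25⟩, (.cons (nat_lit 1795) (nat_lit 5712) (nat_lit 949) (nat_lit 1)
 (.cons (nat_lit 696) (nat_lit 1033) (nat_lit 1365) (nat_lit 1) .nil)), (nat_lit 9), (nat_lit 0), (nat_lit 0),
 (nat_lit 0), (25, 50, 44), [1281, 119], 0⟩,
  ⟨⟨15, 32, 44, 50, -17, -30, 14, 44, -19⟩, (.cons (nat_lit 6606) (nat_lit 6680) (nat_lit 3597) (nat_lit 1)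
 (.cons (nat_lit 614) (nat_lit 1011) (nat_lit 672) (nat_lit 1) .nil)), (nat_lit 41), (nat_lit 0), (nat_lit 0),
 (nat_lit 0), (27, 37, 4), [1523, 717], 0⟩,
  ⟨⟨1, 12, -64, -50, -17, 20, -14, 44, -5⟩, (.cons (nat_lit 1948) (nat_lit 5736) (nat_lit 3373) (nat_lit 1)
 (.cons (nat_lit 1096) (nat_lit 26) (nat_lit 384) (nat_lit 1) .nil)), (nat_lit 16), (nat_lit 0), (nat_lit 0),
 (nat_lit 0), (42, 20, 48), [1875, 1241], 0⟩,
  mz,
  ⟨⟨-13, -48, -27, 30, 17, -60, 30, -36, -7⟩, (.cons (nat_lit 5583) (nat_lit 6448) (nat_lit 349) (nat_lit 1)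
 (.cons (nat_lit 122) (nat_lit 469) (nat_lit 1135) (nat_lit 1) .nil)), (nat_lit 29), (nat_lit 0), (nat_lit 0),
 (nat_lit 0), (14, 37, 37), [3457, 647], 0⟩,
  ⟨⟨-15, -32, 59, 50, -17, -20, -14, -44, -5⟩, (.cons (nat_lit 4556) (nat_lit 1258) (nat_lit 1540) (nat_lit 1)
 (.cons (nat_lit 65) (nat_lit 109) (nat_lit 1017) (nat_lit 1) .nil)), (nat_lit 17), (nat_lit 0), (nat_lit 0),
 (nat_lit 0), (8, 44, 11), [4186, 123], 0⟩,
  ⟨⟨15, -52, 16, 10, -17, -60, 46, -4, -11⟩, (.cons (nat_lit 6138) (nat_lit 5110) (nat_lit 3354) (nat_lit 1)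
 (.cons (nat_lit 977) (nat_lit 1075) (nat_lit 700) (nat_lit 1) .nil)), (nat_lit 44), (nat_lit 0), (nat_lit 0),
 (nat_lit 0), (14, 27, 50), [3927, 336], 0⟩,
  ⟨⟨57, -8, -20, -10, -33, 50, 18, -36, -37⟩, (.cons (nat_lit 3005) (nat_lit 2681) (nat_lit 2193) (nat_lit 1)
 (.cons (nat_lit 1317) (nat_lit 955) (nat_lit 303) (nat_lit 1) .nil)), (nat_lit 33), (nat_lit 0), (nat_lit 0),
 (nat_lit 0), (9, 4, 14), [2788, 544], 0⟩,
  ⟨⟨39, -28, -56, -10, 33, -40, -18, -36, -19⟩, (.cons (nat_lit 6858) (nat_lit 1980) (nat_lit 4874) (nat_lit 1)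
 (.cons (nat_lit 1368) (nat_lit 644) (nat_lit 1116) (nat_lit 1) .nil)), (nat_lit 50), (nat_lit 0), (nat_lit 0),
 (nat_lit 0), (49, 35, 10), [1983, 309], 0⟩,
  mz,
  ⟨⟨43, 12, -63, -30, -17, -30, 30, -36, -23⟩, (.cons (nat_lit 3027) (nat_lit 1131) (nat_lit 5143) (nat_lit 1)
 (.cons (nat_lit 545) (nat_lit 576) (nat_lit 1061) (nat_lit 1) .nil)), (nat_lit 24), (nat_lit 0), (nat_lit 0),
 (nat_lit 0), (2, 6, 47), [6420, 901], 0⟩]

/-- All the moves. -/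
noncomputable def tabs : List (List (List Mv)) := [[[], t0_1, t0_2, [], [], [], [], [], t0_8], [[], t1_1, t1_2, [], [], [], [], [], t1_8], [], [], [[], t4_1, t4_2, [], [], [], [], [], t4_8]]

/-- Subtrie. -/
noncomputable def T1 : Tr := (.ev (nat_lit 20) (nat_lit 1010391144529952) (.nd (nat_lit 33) (.br (nat_lit 19)
 (.br (nat_lit 11) (.br (nat_lit 7) (.br (nat_lit 4) (.ch (nat_lit 1) (.ev (nat_lit 52) (nat_lit
 1125900177411136) (.ev (nat_lit 96) (nat_lit 4583866660950544) .dd))) (.br (nat_lit 5) (.ch (nat_lit 4) (.ev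
 (nat_lit 52) (nat_lit 1102464681472) (.ev (nat_lit 84) (nat_lit 4503599627370496) (.ev (nat_lit 116) (nat_lit
 163840) (.ev (nat_lit 192) (nat_lit 1205064746145872) .dd))))) (.ch (nat_lit 5) (.ev (nat_lit 52) (nat_lit
 5630599047938048) (.ev (nat_lit 148) (nat_lit 266240) (.ev (nat_lit 180) (nat_lit 8796093022208) (.ev (nat_lit
 212) (nat_lit 131072) (.nd (nat_lit 544) (.br (nat_lit 6) (.br (nat_lit 2) (.ch (nat_lit 1) (.ev (nat_lit 560)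
 (nat_lit 70371428568128) (.ev (nat_lit 628) (nat_lit 512) (.ev (nat_lit 692) (nat_lit 16) (.ev (nat_lit 701)
 (nat_lit 268435456) .dd))))) (.br (nat_lit 4) (.ch (nat_lit 2) (.ev (nat_lit 560) (nat_lit 2415955536) (.ev
 (nat_lit 720) (nat_lit 70369281048576) .dd))) (.ch (nat_lit 4) (.ev (nat_lit 560) (nat_lit 805340752) (.ev
 (nat_lit 628) (nat_lit 70368744179712) (.ev (nat_lit 637) (nat_lit 2147483648) .dd)))))) (.br (nat_lit 12)
 (.br (nat_lit 9) (.ch (nat_lit 6) (.ev (nat_lit 560) (nat_lit 70371696970320) (.fin (nat_lit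
 576466799626240583)))) (.ch (nat_lit 9) (.ev (nat_lit 560) (nat_lit 70369549487120) (.ev (nat_lit 852)
 (nat_lit 512) (.ev (nat_lit 976) (nat_lit 32832) (.ev (nat_lit 989) (nat_lit 2147483648) .dd)))))) (.br
 (nat_lit 15) (.ch (nat_lit 12) (.ev (nat_lit 560) (nat_lit 70369549520400) (.ev (nat_lit 896) (nat_lit 64)
 (.ev (nat_lit 909) (nat_lit 2147483648) .dd)))) (.ch (nat_lit 15) (.ev (nat_lit 560) (nat_lit 70371697003088)
 (.ev (nat_lit 573) (nat_lit 1024) .dd)))))))))))))) (.br (nat_lit 8) (.ch (nat_lit 7) (.ev (nat_lit 52)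
 (nat_lit 8796095251456) (.ev (nat_lit 116) (nat_lit 536870912) (.ev (nat_lit 148) (nat_lit 1125899906842624)
 (.ev (nat_lit 180) (nat_lit 262144) (.ev (nat_lit 276) (nat_lit 1099511627776) (.nd (nat_lit 544) (.br
 (nat_lit 9) (.br (nat_lit 4) (.ch (nat_lit 1) (.ev (nat_lit 560) (nat_lit 4503601774893120) (.ev (nat_lit 916)
 (nat_lit 512) (.ev (nat_lit 1108) (nat_lit 16) (.ev (nat_lit 1168) (nat_lit 70369012613120) .dd))))) (.br
 (nat_lit 7) (.ch (nat_lit 4) (.ev (nat_lit 560) (nat_lit 4573968640022608) (.ev (nat_lit 576) (nat_lit 512)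
 (.ev (nat_lit 589) (nat_lit 2147483648) .dd)))) (.ch (nat_lit 7) (.ev (nat_lit 560) (nat_lit 70371160103504)
 (.ev (nat_lit 736) (nat_lit 4503599627403264) .dd))))) (.br (nat_lit 10) (.ch (nat_lit 9) (.ev (nat_lit 560)
 (nat_lit 4573970787502160) (.ev (nat_lit 628) (nat_lit 4096) (.ev (nat_lit 637) (nat_lit 512) .dd)))) (.br
 (nat_lit 18) (.ch (nat_lit 10) (.ev (nat_lit 560) (nat_lit 4573970519065104) (.ev (nat_lit 736) (nat_lit 2048)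
 (.ev (nat_lit 852) (nat_lit 64) (.fin (nat_lit 576468998645301833)))))) (.ch (nat_lit 18) (.ev (nat_lit 560)
 (nat_lit 4503602043329104) (.ev (nat_lit 573) (nat_lit 70368744177664) .dd))))))))))))) (.br (nat_lit 10) (.ch
 (nat_lit 8) (.ev (nat_lit 52) (nat_lit 4582765001448512) (.ev (nat_lit 116) (nat_lit 2097152) (.ev (nat_lit
 160) (nat_lit 1127001834816016) .dd)))) (.ch (nat_lit 10) (.ev (nat_lit 52) (nat_lit 70370891795008) (.ev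
 (nat_lit 84) (nat_lit 262144) (.ev (nat_lit 116) (nat_lit 536870912) (.ev (nat_lit 128) (nat_lit
 5639395409433616) .dd)))))))) (.br (nat_lit 15) (.br (nat_lit 12) (.ch (nat_lit 11) (.ev (nat_lit 52) (nat_lit
 8798240904704) (.ev (nat_lit 84) (nat_lit 32768) (.ev (nat_lit 116) (nat_lit 2097168) (.ev (nat_lit 180)
 (nat_lit 1126999418470400) (.nd (nat_lit 544) (.br (nat_lit 9) (.br (nat_lit 6) (.br (nat_lit 2) (.ch (nat_lit
 1) (.ev (nat_lit 560) (nat_lit 4573969176856640) .dd)) (.ch (nat_lit 2) (.ev (nat_lit 560) (nat_lit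
 4503599895808000) (.ev (nat_lit 768) (nat_lit 536870912) (.ev (nat_lit 884) (nat_lit 70368744177664) (.ev
 (nat_lit 893) (nat_lit 64) .dd)))))) (.br (nat_lit 7) (.ch (nat_lit 6) (.ev (nat_lit 560) (nat_lit
 4573968908419136) (.ev (nat_lit 640) (nat_lit 268435456) (.ev (nat_lit 653) (nat_lit 2048) .dd)))) (.ch
 (nat_lit 7) (.ev (nat_lit 560) (nat_lit 70369549486080) (.ev (nat_lit 916) (nat_lit 64) (.ev (nat_lit 925)
 (nat_lit 4503599627370496) .dd)))))) (.br (nat_lit 15) (.br (nat_lit 12) (.ch (nat_lit 9) (.ev (nat_lit 560)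
 (nat_lit 4573969176856640) .dd)) (.ch (nat_lit 12) (.ev (nat_lit 560) (nat_lit 4573969176854592) (.ev (nat_lit
 573) (nat_lit 2048) .dd)))) (.br (nat_lit 18) (.ch (nat_lit 15) (.ev (nat_lit 560) (nat_lit 805308480) (.ev
 (nat_lit 852) (nat_lit 70368744177664) (.ev (nat_lit 861) (nat_lit 4503599627370496) .dd)))) (.ch (nat_lit 18)
 (.ev (nat_lit 560) (nat_lit 4573969176856640) .dd))))))))))) (.br (nat_lit 13) (.ch (nat_lit 12) (.ev (nat_lit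
 52) (nat_lit 5629502218866752) (.ev (nat_lit 84) (nat_lit 2048) (.ev (nat_lit 160) (nat_lit 80264619492880)
 .dd)))) (.ch (nat_lit 13) (.ev (nat_lit 52) (nat_lit 2261504) (.ev (nat_lit 84) (nat_lit 4573969176854528)
 (.ev (nat_lit 148) (nat_lit 1134698147348480) (.ev (nat_lit 180) (nat_lit 1024) (.nd (nat_lit 544) (.br
 (nat_lit 10) (.br (nat_lit 6) (.ch (nat_lit 4) (.ev (nat_lit 560) (nat_lit 1099511896144) .dd)) (.ch (nat_lit
 6) (.ev (nat_lit 560) (nat_lit 264272) (.nd (nat_lit 1264) (.br (nat_lit 15) (.ch (nat_lit 8) (.fin (nat_lit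
 576437112793416251))) (.ch (nat_lit 15) (.ev (nat_lit 1280) (nat_lit 1099511631872) .dd))))))) (.br (nat_lit
 12) (.ch (nat_lit 10) (.ev (nat_lit 560) (nat_lit 1099511894032) (.ev (nat_lit 720) (nat_lit 2112) .dd))) (.br
 (nat_lit 15) (.ch (nat_lit 12) (.ev (nat_lit 560) (nat_lit 1099511894096) (.ev (nat_lit 573) (nat_lit 2048)
 .dd))) (.ch (nat_lit 15) (.ev (nat_lit 560) (nat_lit 1099511633984) (.ev (nat_lit 628) (nat_lit 262144) (.ev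
 (nat_lit 637) (nat_lit 16) .dd))))))))))))))) (.br (nat_lit 17) (.br (nat_lit 16) (.ch (nat_lit 15) (.ev
 (nat_lit 52) (nat_lit 5638298580058128) (.ev (nat_lit 180) (nat_lit 71468257902592) (.ev (nat_lit 276)
 (nat_lit 512) (.nd (nat_lit 544) (.br (nat_lit 7) (.br (nat_lit 4) (.ch (nat_lit 2) (.ev (nat_lit 560)
 (nat_lit 396288) (.ev (nat_lit 752) (nat_lit 64) (.ev (nat_lit 765) (nat_lit 4096) .dd)))) (.br (nat_lit 6)
 (.ch (nat_lit 4) (.ev (nat_lit 560) (nat_lit 400448) .dd)) (.ch (nat_lit 6) (.ev (nat_lit 560) (nat_lit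
 267328) (.ev (nat_lit 692) (nat_lit 2048) (.ev (nat_lit 701) (nat_lit 131072) .dd)))))) (.br (nat_lit 11) (.br
 (nat_lit 9) (.ch (nat_lit 7) (.ev (nat_lit 560) (nat_lit 269376) (.ev (nat_lit 573) (nat_lit 131072) .dd)))
 (.ch (nat_lit 9) (.ev (nat_lit 560) (nat_lit 134208) (.ev (nat_lit 628) (nat_lit 4096) (.ev (nat_lit 637)
 (nat_lit 262144) .dd))))) (.br (nat_lit 15) (.ch (nat_lit 11) (.ev (nat_lit 560) (nat_lit 398400) (.ev
 (nat_lit 573) (nat_lit 2048) .dd))) (.ch (nat_lit 15) (.ev (nat_lit 560) (nat_lit 6208) (.ev (nat_lit 628)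
 (nat_lit 263168) (.ev (nat_lit 637) (nat_lit 131072) .dd)))))))))))) (.ch (nat_lit 16) (.ev (nat_lit 52)
 (nat_lit 1101929644096) (.ev (nat_lit 84) (nat_lit 7168) (.ev (nat_lit 116) (nat_lit 8796093022208) (.ev
 (nat_lit 128) (nat_lit 5699868815688208) .dd)))))) (.br (nat_lit 18) (.ch (nat_lit 17) (.ev (nat_lit 52)
 (nat_lit 1127001834651648) (.ev (nat_lit 84) (nat_lit 5120) (.ev (nat_lit 116) (nat_lit 16) (.ev (nat_lit 148)
 (nat_lit 8796095250432) (.ev (nat_lit 212) (nat_lit 2048) (.nd (nat_lit 544) (.br (nat_lit 6) (.br (nat_lit 2)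
 (.ch (nat_lit 1) (.ev (nat_lit 560) (nat_lit 4573968371580992) (.ev (nat_lit 1040) (nat_lit 536870912) (.ev
 (nat_lit 1053) (nat_lit 512) .dd)))) (.br (nat_lit 4) (.ch (nat_lit 2) (.ev (nat_lit 560) (nat_lit
 4503600164274688) (.ev (nat_lit 884) (nat_lit 64) (.ev (nat_lit 893) (nat_lit 70368744177664) .dd)))) (.ch
 (nat_lit 4) (.ev (nat_lit 560) (nat_lit 4573968908419136) (.ev (nat_lit 692) (nat_lit 512) (.ev (nat_lit 701)
 (nat_lit 32768) .dd)))))) (.br (nat_lit 12) (.br (nat_lit 7) (.ch (nat_lit 6) (.ev (nat_lit 560) (nat_lit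
 4573968908452416) .dd)) (.ch (nat_lit 7) (.ev (nat_lit 560) (nat_lit 70369281048576) (.ev (nat_lit 672)
 (nat_lit 512) (.ev (nat_lit 816) (nat_lit 4503599627370496) (.ev (nat_lit 852) (nat_lit 64) (.ev (nat_lit 861)
 (nat_lit 32768) .dd))))))) (.br (nat_lit 18) (.ch (nat_lit 12) (.ev (nat_lit 560) (nat_lit 4573968908452352)
 (.ev (nat_lit 573) (nat_lit 64) .dd))) (.ch (nat_lit 18) (.ev (nat_lit 560) (nat_lit 4503599627403840) (.ev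
 (nat_lit 916) (nat_lit 70368744177664) (.ev (nat_lit 925) (nat_lit 536870912) .dd)))))))))))))) (.ch (nat_lit
 18) (.ev (nat_lit 52) (nat_lit 4504699944472656) (.ev (nat_lit 148) (nat_lit 2048) (.ev (nat_lit 180) (nat_lit
 8796093022208) (.ev (nat_lit 212) (nat_lit 262144) (.nd (nat_lit 544) (.br (nat_lit 11) (.br (nat_lit 9) (.br
 (nat_lit 4) (.ch (nat_lit 1) (.ev (nat_lit 560) (nat_lit 1196270800601088) (.ev (nat_lit 736) (nat_lit 1024)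
 (.ev (nat_lit 749) (nat_lit 512) .dd)))) (.ch (nat_lit 4) (.ev (nat_lit 560) (nat_lit 1125899906843648) (.ev
 (nat_lit 640) (nat_lit 2147483648) (.ev (nat_lit 692) (nat_lit 2097664) (.ev (nat_lit 701) (nat_lit
 70368744177664) .dd)))))) (.br (nat_lit 10) (.ch (nat_lit 9) (.ev (nat_lit 560) (nat_lit 1196270800601088)
 (.ev (nat_lit 608) (nat_lit 1024) (.ev (nat_lit 621) (nat_lit 512) .dd)))) (.ch (nat_lit 10) (.ev (nat_lit
 560) (nat_lit 1196270800602624) .dd)))) (.br (nat_lit 15) (.br (nat_lit 12) (.ch (nat_lit 11) (.ev (nat_lit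
 560) (nat_lit 1196270800601088) (.ev (nat_lit 608) (nat_lit 512) (.ev (nat_lit 621) (nat_lit 1024) .dd))))
 (.ch (nat_lit 12) (.ev (nat_lit 560) (nat_lit 1196270798505472) (.ev (nat_lit 573) (nat_lit 2097152) .dd))))
 (.br (nat_lit 18) (.ch (nat_lit 15) (.ev (nat_lit 560) (nat_lit 70370893758976) (.fin (nat_lit
 576459103028068901)))) (.ch (nat_lit 18) (.ev (nat_lit 560) (nat_lit 1125902056424960) (.ev (nat_lit 573)
 (nat_lit 70368744177664) .dd)))))))))))))))) (.br (nat_lit 26) (.br (nat_lit 22) (.br (nat_lit 20) (.ch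
 (nat_lit 19) (.ev (nat_lit 52) (nat_lit 1101929648640) (.ev (nat_lit 84) (nat_lit 131072) (.ev (nat_lit 116)
 (nat_lit 16) (.ev (nat_lit 148) (nat_lit 536870912) (.nd (nat_lit 544) (.br (nat_lit 11) (.br (nat_lit 6) (.ch
 (nat_lit 4) (.ev (nat_lit 560) (nat_lit 5629499534476352) (.ev (nat_lit 592) (nat_lit 8796093022208) (.ev
 (nat_lit 628) (nat_lit 32768) (.ev (nat_lit 752) (nat_lit 70368744177664) (.ev (nat_lit 765) (nat_lit 2048)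
 .dd)))))) (.br (nat_lit 9) (.ch (nat_lit 6) (.ev (nat_lit 560) (nat_lit 5708664371707968) (.ev (nat_lit 720)
 (nat_lit 3072) .dd))) (.ch (nat_lit 9) (.ev (nat_lit 560) (nat_lit 4582764464573440) (.ev (nat_lit 628)
 (nat_lit 262144) (.ev (nat_lit 692) (nat_lit 32768) (.ev (nat_lit 800) (nat_lit 64) (.ev (nat_lit 813)
 (nat_lit 1125899906842624) .dd)))))))) (.br (nat_lit 15) (.br (nat_lit 12) (.ch (nat_lit 11) (.ev (nat_lit
 560) (nat_lit 5708664371446848) (.ev (nat_lit 628) (nat_lit 2048) (.ev (nat_lit 637) (nat_lit 262144) .dd))))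
 (.ch (nat_lit 12) (.ev (nat_lit 560) (nat_lit 1205064744339520) (.ev (nat_lit 932) (nat_lit 4503599627370496)
 (.ev (nat_lit 941) (nat_lit 1024) .dd))))) (.br (nat_lit 18) (.ch (nat_lit 15) (.ev (nat_lit 560) (nat_lit
 79164837496896) (.ev (nat_lit 976) (nat_lit 4503599627370496) (.fin (nat_lit 576459103028068901))))) (.ch
 (nat_lit 18) (.ev (nat_lit 560) (nat_lit 5708664371711040) .dd))))))))))) (.br (nat_lit 21) (.ch (nat_lit 20)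
 (.ev (nat_lit 52) (nat_lit 80264617297424) (.ev (nat_lit 84) (nat_lit 2147483648) (.ev (nat_lit 128) (nat_lit
 5629500073580608) .dd)))) (.ch (nat_lit 21) (.ev (nat_lit 52) (nat_lit 1196268919623744) (.ev (nat_lit 116)
 (nat_lit 1024) (.ev (nat_lit 148) (nat_lit 4503600164241408) (.ev (nat_lit 180) (nat_lit 2147483648) (.ev
 (nat_lit 244) (nat_lit 512) (.ev (nat_lit 336) (nat_lit 2048) (.nd (nat_lit 544) (.br (nat_lit 10) (.br
 (nat_lit 2) (.ch (nat_lit 1) (.ev (nat_lit 560) (nat_lit 1099513987072) (.ev (nat_lit 640) (nat_lit 16) (.ev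
 (nat_lit 653) (nat_lit 8796093022208) .dd)))) (.br (nat_lit 9) (.ch (nat_lit 2) (.ev (nat_lit 560) (nat_lit
 9895604650000) (.fin (nat_lit 576461302061810239)))) (.ch (nat_lit 9) (.ev (nat_lit 560) (nat_lit 2359312)
 (.ev (nat_lit 656) (nat_lit 9895604649984) .dd))))) (.br (nat_lit 11) (.ch (nat_lit 10) (.ev (nat_lit 560)
 (nat_lit 1099513987088) (.ev (nat_lit 573) (nat_lit 8796093022208) .dd))) (.br (nat_lit 18) (.ch (nat_lit 11)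
 (.ev (nat_lit 560) (nat_lit 9895607009296) .dd)) (.ch (nat_lit 18) (.ev (nat_lit 560) (nat_lit 1099513987088)
 (.ev (nat_lit 573) (nat_lit 8796093022208) .dd)))))))))))))))) (.br (nat_lit 24) (.ch (nat_lit 22) (.ev
 (nat_lit 52) (nat_lit 262160) (.ev (nat_lit 64) (nat_lit 5709766838099520) .dd))) (.br (nat_lit 25) (.ch
 (nat_lit 24) (.ev (nat_lit 52) (nat_lit 1197370310168592) (.ev (nat_lit 96) (nat_lit 4512396528193088) .dd)))
 (.ch (nat_lit 25) (.ev (nat_lit 52) (nat_lit 1125900443977792) (.ev (nat_lit 84) (nat_lit 1099511758848) (.ev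
 (nat_lit 116) (nat_lit 4503602043322368) (.ev (nat_lit 244) (nat_lit 16) (.nd (nat_lit 544) (.br (nat_lit 10)
 (.br (nat_lit 6) (.ch (nat_lit 1) (.ev (nat_lit 560) (nat_lit 4096) (.ev (nat_lit 628) (nat_lit 2097152) (.ev
 (nat_lit 640) (nat_lit 512) (.ev (nat_lit 704) (nat_lit 79164837199872) (.ev (nat_lit 717) (nat_lit 1024)
 .dd)))))) (.br (nat_lit 7) (.ch (nat_lit 6) (.ev (nat_lit 560) (nat_lit 79164837200384) (.ev (nat_lit 576)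
 (nat_lit 2101248) (.ev (nat_lit 589) (nat_lit 1024) .dd)))) (.ch (nat_lit 7) (.ev (nat_lit 560) (nat_lit
 79164837201408) (.ev (nat_lit 628) (nat_lit 4096) (.ev (nat_lit 637) (nat_lit 2097152) .dd)))))) (.br (nat_lit
 11) (.ch (nat_lit 10) (.ev (nat_lit 560) (nat_lit 79164839297536) (.ev (nat_lit 628) (nat_lit 4096) (.ev
 (nat_lit 637) (nat_lit 1024) .dd)))) (.br (nat_lit 12) (.ch (nat_lit 11) (.ev (nat_lit 560) (nat_lit
 79164839302656) .dd)) (.ch (nat_lit 12) (.ev (nat_lit 560) (nat_lit 79164839301632) (.ev (nat_lit 573)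
 (nat_lit 1024) .dd))))))))))))))) (.br (nat_lit 30) (.br (nat_lit 27) (.ch (nat_lit 26) (.ev (nat_lit 52)
 (nat_lit 8798242603072) (.ev (nat_lit 84) (nat_lit 1125899906846720) (.ev (nat_lit 116) (nat_lit
 1099511630336) (.ev (nat_lit 212) (nat_lit 70368744177664) (.ev (nat_lit 352) (nat_lit 262144) (.nd (nat_lit
 544) (.br (nat_lit 10) (.br (nat_lit 4) (.ch (nat_lit 1) (.ev (nat_lit 560) (nat_lit 4503600164405248) (.ev
 (nat_lit 852) (nat_lit 268435456) (.ev (nat_lit 1060) (nat_lit 16) (.ev (nat_lit 1069) (nat_lit 1024) .dd)))))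
 (.br (nat_lit 6) (.ch (nat_lit 4) (.ev (nat_lit 560) (nat_lit 4503599895938064) (.ev (nat_lit 852) (nat_lit
 536870912) (.ev (nat_lit 861) (nat_lit 32768) .dd)))) (.ch (nat_lit 6) (.ev (nat_lit 560) (nat_lit
 4503600164372496) (.ev (nat_lit 692) (nat_lit 268435456) (.nd (nat_lit 1264) (.br (nat_lit 16) (.ch (nat_lit
 13) (.fin (nat_lit 576466799626240583))) (.ch (nat_lit 16) (.ev (nat_lit 1280) (nat_lit 33792) .dd)))))))))
 (.br (nat_lit 12) (.br (nat_lit 11) (.ch (nat_lit 10) (.ev (nat_lit 560) (nat_lit 536904720) (.ev (nat_lit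
 628) (nat_lit 268435456) (.ev (nat_lit 768) (nat_lit 131072) (.ev (nat_lit 781) (nat_lit 4503599627370496)
 .dd))))) (.ch (nat_lit 11) (.ev (nat_lit 560) (nat_lit 268599312) (.ev (nat_lit 1252) (nat_lit 1024) (.nd
 (nat_lit 1264) (.br (nat_lit 16) (.ch (nat_lit 2) (.fin (nat_lit 576462401572389439))) (.ch (nat_lit 16) (.ev
 (nat_lit 1280) (nat_lit 4503600164241408) .dd)))))))) (.br (nat_lit 18) (.ch (nat_lit 12) (.ev (nat_lit 560)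
 (nat_lit 805471248) (.ev (nat_lit 573) (nat_lit 4503599627370496) .dd))) (.ch (nat_lit 18) (.ev (nat_lit 560)
 (nat_lit 4503599895970832) (.ev (nat_lit 573) (nat_lit 536870912) .dd))))))))))))) (.br (nat_lit 29) (.ch
 (nat_lit 27) (.ev (nat_lit 52) (nat_lit 1126999418736208) (.ev (nat_lit 84) (nat_lit 70368744177664) (.ev
 (nat_lit 116) (nat_lit 131072) (.ev (nat_lit 432) (nat_lit 2097152) (.nd (nat_lit 544) (.br (nat_lit 9) (.br
 (nat_lit 2) (.ch (nat_lit 1) (.ev (nat_lit 560) (nat_lit 4512398136348672) (.ev (nat_lit 573) (nat_lit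
 536870912) .dd))) (.br (nat_lit 7) (.ch (nat_lit 2) (.ev (nat_lit 560) (nat_lit 4512398136344576) (.ev
 (nat_lit 852) (nat_lit 536870912) (.ev (nat_lit 861) (nat_lit 4096) .dd)))) (.ch (nat_lit 7) (.ev (nat_lit
 560) (nat_lit 2952794112) (.ev (nat_lit 628) (nat_lit 8796093022208) (.ev (nat_lit 768) (nat_lit 32768) (.ev
 (nat_lit 781) (nat_lit 4503599627370496) .dd))))))) (.br (nat_lit 11) (.br (nat_lit 10) (.ch (nat_lit 9) (.ev
 (nat_lit 560) (nat_lit 4503600164278272) (.ev (nat_lit 852) (nat_lit 8796093022208) (.ev (nat_lit 1076)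
 (nat_lit 268435456) (.ev (nat_lit 1085) (nat_lit 2147483648) .dd))))) (.ch (nat_lit 10) (.ev (nat_lit 560)
 (nat_lit 4503602311757824) (.ev (nat_lit 692) (nat_lit 8796093022208) (.nd (nat_lit 1264) (.br (nat_lit 12)
 (.ch (nat_lit 0) (.fin (nat_lit 576468998645301833))) (.ch (nat_lit 12) (.ev (nat_lit 1280) (nat_lit
 268439552) .dd)))))))) (.br (nat_lit 15) (.ch (nat_lit 11) (.ev (nat_lit 560) (nat_lit 8798240542720) (.ev
 (nat_lit 1076) (nat_lit 268435456) (.nd (nat_lit 1264) (.br (nat_lit 2) (.ch (nat_lit 1) (.ev (nat_lit 1280)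
 (nat_lit 4503600164241408) .dd)) (.ch (nat_lit 2) (.fin (nat_lit 576462401572389439)))))))) (.ch (nat_lit 15)
 (.ev (nat_lit 560) (nat_lit 8799045849088) (.ev (nat_lit 573) (nat_lit 4503599627370496) .dd)))))))))))) (.ch
 (nat_lit 29) (.ev (nat_lit 52) (nat_lit 5708664908449808) (.ev (nat_lit 116) (nat_lit 263680) (.ev (nat_lit
 212) (nat_lit 2147487744) (.ev (nat_lit 276) (nat_lit 64) (.nd (nat_lit 544) (.br (nat_lit 7) (.br (nat_lit 6)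
 (.ch (nat_lit 4) (.ev (nat_lit 560) (nat_lit 1099782160384) .dd)) (.ch (nat_lit 6) (.ev (nat_lit 560) (nat_lit
 2097152) (.ev (nat_lit 628) (nat_lit 1099511627776) (.ev (nat_lit 637) (nat_lit 268435456) .dd))))) (.br
 (nat_lit 9) (.ch (nat_lit 7) (.ev (nat_lit 560) (nat_lit 1099780063232) (.ev (nat_lit 573) (nat_lit 2097152)
 .dd))) (.br (nat_lit 12) (.ch (nat_lit 9) (.ev (nat_lit 560) (nat_lit 1099782160384) .dd)) (.ch (nat_lit 12)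
 (.ev (nat_lit 560) (nat_lit 1099780063232) (.ev (nat_lit 573) (nat_lit 2097152) .dd)))))))))))))) (.br
 (nat_lit 35) (.br (nat_lit 33) (.ch (nat_lit 30) (.ev (nat_lit 52) (nat_lit 70370893765648) (.ev (nat_lit 84)
 (nat_lit 9896409956864) (.ev (nat_lit 116) (nat_lit 4503599627370560) (.ev (nat_lit 180) (nat_lit 131072) (.nd
 (nat_lit 544) (.br (nat_lit 6) (.br (nat_lit 2) (.ch (nat_lit 1) (.ev (nat_lit 560) (nat_lit 32768) (.ev
 (nat_lit 576) (nat_lit 1125899906842624) (.ev (nat_lit 589) (nat_lit 262144) .dd)))) (.ch (nat_lit 2) (.ev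
 (nat_lit 560) (nat_lit 262144) (.ev (nat_lit 640) (nat_lit 1125899906875392) .dd)))) (.br (nat_lit 7) (.ch
 (nat_lit 6) (.ev (nat_lit 560) (nat_lit 1125899907104768) (.ev (nat_lit 573) (nat_lit 32768) .dd))) (.br
 (nat_lit 15) (.ch (nat_lit 7) (.ev (nat_lit 560) (nat_lit 1125899906842624) (.ev (nat_lit 576) (nat_lit 32768)
 (.ev (nat_lit 589) (nat_lit 262144) .dd)))) (.ch (nat_lit 15) (.ev (nat_lit 560) (nat_lit 32768) (.ev (nat_lit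
 592) (nat_lit 1125899907104768) .dd)))))))))))) (.ch (nat_lit 33) (.ev (nat_lit 52) (nat_lit 4504699675876368)
 (.ev (nat_lit 84) (nat_lit 32768) (.ev (nat_lit 116) (nat_lit 8796093022272) (.ev (nat_lit 148) (nat_lit
 70368744177664) (.ev (nat_lit 212) (nat_lit 268435456) (.ev (nat_lit 480) (nat_lit 1125899906842624) (.nd
 (nat_lit 544) (.br (nat_lit 10) (.br (nat_lit 4) (.ch (nat_lit 2) (.ev (nat_lit 560) (nat_lit 2147615232)
 (.fin (nat_lit 576461302061810239)))) (.br (nat_lit 7) (.ch (nat_lit 4) (.ev (nat_lit 560) (nat_lit 2490368)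
 (.ev (nat_lit 656) (nat_lit 2147484160) .dd))) (.ch (nat_lit 7) (.ev (nat_lit 560) (nat_lit 2490880) (.ev
 (nat_lit 573) (nat_lit 2147483648) .dd))))) (.br (nat_lit 12) (.ch (nat_lit 10) (.ev (nat_lit 560) (nat_lit
 2149974528) .dd)) (.br (nat_lit 18) (.ch (nat_lit 12) (.ev (nat_lit 560) (nat_lit 2490880) (.ev (nat_lit 573)
 (nat_lit 2147483648) .dd))) (.ch (nat_lit 18) (.ev (nat_lit 560) (nat_lit 2359808) (.ev (nat_lit 640) (nat_lit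
 131072) (.ev (nat_lit 653) (nat_lit 2147483648) .dd)))))))))))))))) (.br (nat_lit 36) (.ch (nat_lit 35) (.ev
 (nat_lit 52) (nat_lit 70369013006848) (.ev (nat_lit 64) (nat_lit 5639397825354832) .dd))) (.ch (nat_lit 36)
 (.ev (nat_lit 52) (nat_lit 4512397867877376) (.ev (nat_lit 84) (nat_lit 1125899907104784) (.ev (nat_lit 116)
 (nat_lit 32768) (.ev (nat_lit 148) (nat_lit 2048) (.ev (nat_lit 464) (nat_lit 512) (.nd (nat_lit 544) (.br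
 (nat_lit 7) (.br (nat_lit 4) (.br (nat_lit 2) (.ch (nat_lit 1) (.ev (nat_lit 560) (nat_lit 70369014845504)
 (.ev (nat_lit 852) (nat_lit 1099511627776) (.ev (nat_lit 861) (nat_lit 536870912) .dd)))) (.ch (nat_lit 2)
 (.ev (nat_lit 560) (nat_lit 71468526469120) (.ev (nat_lit 832) (nat_lit 64) (.ev (nat_lit 884) (nat_lit 4096)
 (.ev (nat_lit 893) (nat_lit 536870912) .dd)))))) (.br (nat_lit 6) (.ch (nat_lit 4) (.ev (nat_lit 560) (nat_lit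
 1100050731072) (.ev (nat_lit 784) (nat_lit 70368744177664) (.ev (nat_lit 797) (nat_lit 268435456) .dd)))) (.ch
 (nat_lit 6) (.ev (nat_lit 560) (nat_lit 70369283145792) (.ev (nat_lit 608) (nat_lit 268435456) (.ev (nat_lit
 692) (nat_lit 131072) (.fin (nat_lit 576485491328107077)))))))) (.br (nat_lit 11) (.br (nat_lit 10) (.ch
 (nat_lit 7) (.ev (nat_lit 560) (nat_lit 71469061247040) (.ev (nat_lit 573) (nat_lit 2097152) .dd))) (.ch
 (nat_lit 10) (.ev (nat_lit 560) (nat_lit 71468794777664) (.ev (nat_lit 692) (nat_lit 131072) (.ev (nat_lit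
 701) (nat_lit 268435456) .dd))))) (.br (nat_lit 15) (.ch (nat_lit 11) (.ev (nat_lit 560) (nat_lit
 71468794777664) (.ev (nat_lit 628) (nat_lit 131072) (.ev (nat_lit 637) (nat_lit 268435456) .dd)))) (.ch
 (nat_lit 15) (.ev (nat_lit 560) (nat_lit 71469063213120) (.ev (nat_lit 573) (nat_lit 131072)
 .dd))))))))))))))))))))

/-- Subtrie. -/
noncomputable def T2 : Tr := (.ev (nat_lit 20) (nat_lit 89965340169216) (.nd (nat_lit 33) (.br (nat_lit 19)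
 (.br (nat_lit 11) (.br (nat_lit 7) (.br (nat_lit 4) (.ch (nat_lit 1) (.ev (nat_lit 52) (nat_lit
 1132497047914560) (.ev (nat_lit 84) (nat_lit 281474976841728) (.ev (nat_lit 116) (nat_lit 32) (.ev (nat_lit
 148) (nat_lit 512) (.nd (nat_lit 544) (.br (nat_lit 10) (.br (nat_lit 6) (.ch (nat_lit 2) (.ev (nat_lit 560)
 (nat_lit 5216220601188352) (.ev (nat_lit 864) (nat_lit 16) (.ev (nat_lit 877) (nat_lit 16777216) .dd)))) (.br
 (nat_lit 7) (.ch (nat_lit 6) (.ev (nat_lit 560) (nat_lit 5216220617965584) .dd)) (.ch (nat_lit 7) (.ev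
 (nat_lit 560) (nat_lit 5216083179012112) (.ev (nat_lit 573) (nat_lit 137438953472) .dd))))) (.br (nat_lit 13)
 (.br (nat_lit 12) (.ch (nat_lit 10) (.ev (nat_lit 560) (nat_lit 4512395737169936) (.ev (nat_lit 752) (nat_lit
 140737488355328) (.ev (nat_lit 1120) (nat_lit 65536) (.ev (nat_lit 1184) (nat_lit 562949953421312) (.ev
 (nat_lit 1197) (nat_lit 137438953472) .dd)))))) (.ch (nat_lit 12) (.ev (nat_lit 560) (nat_lit
 5207424524877840) (.ev (nat_lit 656) (nat_lit 8796093022208) (.ev (nat_lit 669) (nat_lit 65536) .dd))))) (.br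
 (nat_lit 16) (.ch (nat_lit 13) (.ev (nat_lit 560) (nat_lit 4653270664478720) (.ev (nat_lit 692) (nat_lit
 562949953421312) (.fin (nat_lit 576443709894640175))))) (.ch (nat_lit 16) (.ev (nat_lit 560) (nat_lit
 563087392440336) (.ev (nat_lit 576) (nat_lit 8796093022208) (.ev (nat_lit 628) (nat_lit 140737488355328) (.ev
 (nat_lit 800) (nat_lit 4503599627370496) (.ev (nat_lit 813) (nat_lit 16777216) .dd))))))))))))))) (.br
 (nat_lit 5) (.ch (nat_lit 4) (.ev (nat_lit 52) (nat_lit 281474976711168) (.ev (nat_lit 84) (nat_lit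
 562949953421344) (.ev (nat_lit 116) (nat_lit 4194304) (.ev (nat_lit 148) (nat_lit 140737488355328) (.ev
 (nat_lit 180) (nat_lit 83886080) (.ev (nat_lit 212) (nat_lit 2048) (.ev (nat_lit 288) (nat_lit
 1136895023251456) (.nd (nat_lit 544) (.br (nat_lit 11) (.br (nat_lit 5) (.ch (nat_lit 0) (.ev (nat_lit 560)
 (nat_lit 4503737066389584) (.ev (nat_lit 573) (nat_lit 4398046511104) .dd))) (.ch (nat_lit 5) (.ev (nat_lit
 560) (nat_lit 4508135112900672) (.ev (nat_lit 573) (nat_lit 16) .dd)))) (.br (nat_lit 12) (.ch (nat_lit 11)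
 (.ev (nat_lit 560) (nat_lit 4503737066389568) (.ev (nat_lit 576) (nat_lit 16) (.ev (nat_lit 589) (nat_lit
 4398046511104) .dd)))) (.br (nat_lit 13) (.ch (nat_lit 12) (.ev (nat_lit 560) (nat_lit 4398046511120) (.ev
 (nat_lit 720) (nat_lit 4503737066389568) .dd))) (.ch (nat_lit 13) (.ev (nat_lit 560) (nat_lit
 4503737066389568) (.ev (nat_lit 576) (nat_lit 4398046511104) (.ev (nat_lit 589) (nat_lit 16)
 .dd)))))))))))))))) (.ch (nat_lit 5) (.ev (nat_lit 52) (nat_lit 5634035091046400) (.ev (nat_lit 84) (nat_lit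
 281474976710672) (.ev (nat_lit 148) (nat_lit 512) (.ev (nat_lit 244) (nat_lit 562949953421312) (.ev (nat_lit
 304) (nat_lit 2199023257600) (.nd (nat_lit 544) (.br (nat_lit 12) (.br (nat_lit 6) (.ch (nat_lit 0) (.ev
 (nat_lit 560) (nat_lit 140737505263712) (.ev (nat_lit 573) (nat_lit 8796093022208) .dd))) (.br (nat_lit 11)
 (.ch (nat_lit 6) (.ev (nat_lit 560) (nat_lit 149533598285824) (.ev (nat_lit 628) (nat_lit 32) (.ev (nat_lit
 637) (nat_lit 64) .dd)))) (.ch (nat_lit 11) (.ev (nat_lit 560) (nat_lit 16908384) (.ev (nat_lit 628) (nat_lit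
 8796093022208) (.ev (nat_lit 637) (nat_lit 140737488355328) .dd)))))) (.br (nat_lit 15) (.ch (nat_lit 12) (.ev
 (nat_lit 560) (nat_lit 131136) (.ev (nat_lit 640) (nat_lit 16777216) (.ev (nat_lit 884) (nat_lit
 149533581377536) (.ev (nat_lit 893) (nat_lit 32) .dd))))) (.br (nat_lit 16) (.ch (nat_lit 15) (.ev (nat_lit
 560) (nat_lit 140737505263680) (.ev (nat_lit 692) (nat_lit 32) (.ev (nat_lit 701) (nat_lit 8796093022208)
 .dd)))) (.ch (nat_lit 16) (.ev (nat_lit 560) (nat_lit 149533598154848) (.ev (nat_lit 573) (nat_lit 131072)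
 .dd))))))))))))))) (.br (nat_lit 8) (.ch (nat_lit 7) (.ev (nat_lit 52) (nat_lit 10995137380352) (.ev (nat_lit
 64) (nat_lit 6619197505342064) .dd))) (.br (nat_lit 10) (.ch (nat_lit 8) (.ev (nat_lit 52) (nat_lit
 5499757178914912) (.ev (nat_lit 116) (nat_lit 67174400) (.ev (nat_lit 148) (nat_lit 1125899906842640) (.ev
 (nat_lit 180) (nat_lit 4194304) (.ev (nat_lit 212) (nat_lit 131072) (.nd (nat_lit 544) (.br (nat_lit 12) (.br
 (nat_lit 10) (.ch (nat_lit 7) (.ev (nat_lit 560) (nat_lit 4398046511616) (.ev (nat_lit 573) (nat_lit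
 137438953472) .dd))) (.ch (nat_lit 10) (.ev (nat_lit 560) (nat_lit 4535485465088) .dd))) (.br (nat_lit 13)
 (.ch (nat_lit 12) (.ev (nat_lit 560) (nat_lit 4398046511616) (.ev (nat_lit 573) (nat_lit 137438953472) .dd)))
 (.br (nat_lit 15) (.ch (nat_lit 13) (.ev (nat_lit 560) (nat_lit 137438953472) (.ev (nat_lit 628) (nat_lit
 4398046511104) (.ev (nat_lit 637) (nat_lit 512) .dd)))) (.ch (nat_lit 15) (.ev (nat_lit 560) (nat_lit
 4535485465088) .dd)))))))))))) (.ch (nat_lit 10) (.ev (nat_lit 52) (nat_lit 705886532274752) (.ev (nat_lit 84)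
 (nat_lit 8796093022224) (.ev (nat_lit 116) (nat_lit 65536) (.ev (nat_lit 160) (nat_lit 5915510017359904)
 .dd)))))))) (.br (nat_lit 15) (.br (nat_lit 12) (.ch (nat_lit 11) (.ev (nat_lit 52) (nat_lit 712621040992768)
 (.ev (nat_lit 116) (nat_lit 4398063288320) (.ev (nat_lit 148) (nat_lit 1125899906844672) (.nd (nat_lit 544)
 (.br (nat_lit 6) (.br (nat_lit 2) (.ch (nat_lit 0) (.ev (nat_lit 560) (nat_lit 4505798650691632) (.ev (nat_lit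
 1060) (nat_lit 281474980904960) (.ev (nat_lit 1069) (nat_lit 64) .dd)))) (.br (nat_lit 5) (.ch (nat_lit 2)
 (.ev (nat_lit 560) (nat_lit 4785074608341088) (.ev (nat_lit 884) (nat_lit 16) (.ev (nat_lit 893) (nat_lit
 2199023255552) .dd)))) (.ch (nat_lit 5) (.ev (nat_lit 560) (nat_lit 4787273627402272) (.ev (nat_lit 692)
 (nat_lit 4194304) (.nd (nat_lit 1264) (.br (nat_lit 15) (.ch (nat_lit 8) (.ev (nat_lit 1280) (nat_lit 80)
 .dd)) (.ch (nat_lit 15) (.fin (nat_lit 576466799611560510)))))))))) (.br (nat_lit 15) (.br (nat_lit 10) (.ch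
 (nat_lit 6) (.ev (nat_lit 560) (nat_lit 283674004226128) (.ev (nat_lit 628) (nat_lit 4503599627370496) (.ev
 (nat_lit 637) (nat_lit 32) .dd)))) (.ch (nat_lit 10) (.ev (nat_lit 560) (nat_lit 4505798654820400) (.ev
 (nat_lit 692) (nat_lit 281474976710656) (.ev (nat_lit 1060) (nat_lit 65536) (.ev (nat_lit 1069) (nat_lit 64)
 .dd)))))) (.br (nat_lit 16) (.ch (nat_lit 15) (.ev (nat_lit 560) (nat_lit 4505798654885968) (.fin (nat_lit
 576478894266729041)))) (.ch (nat_lit 16) (.ev (nat_lit 560) (nat_lit 281474976776272) (.ev (nat_lit 672)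
 (nat_lit 32) (.ev (nat_lit 916) (nat_lit 4194304) (.ev (nat_lit 1200) (nat_lit 4505798650626048)
 .dd))))))))))))) (.br (nat_lit 13) (.ch (nat_lit 12) (.ev (nat_lit 52) (nat_lit 5631835996422240) (.ev
 (nat_lit 64) (nat_lit 998356646300176) .dd))) (.ch (nat_lit 13) (.ev (nat_lit 52) (nat_lit 563087396700672)
 (.ev (nat_lit 84) (nat_lit 67108864) (.ev (nat_lit 116) (nat_lit 16779264) (.ev (nat_lit 148) (nat_lit 16)
 (.ev (nat_lit 180) (nat_lit 149533581443072) (.ev (nat_lit 212) (nat_lit 4503599627370496) (.ev (nat_lit 496)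
 (nat_lit 2199023255584) (.nd (nat_lit 544) (.br (nat_lit 10) (.br (nat_lit 5) (.ch (nat_lit 0) (.ev (nat_lit
 560) (nat_lit 1125899906842624) (.ev (nat_lit 656) (nat_lit 4398046511104) (.ev (nat_lit 692) (nat_lit 64)
 (.ev (nat_lit 701) (nat_lit 281474976710656) .dd))))) (.br (nat_lit 6) (.ch (nat_lit 5) (.ev (nat_lit 560)
 (nat_lit 281474976710656) (.ev (nat_lit 628) (nat_lit 1130297953353728) (.ev (nat_lit 637) (nat_lit 64)
 .dd)))) (.ch (nat_lit 6) (.ev (nat_lit 560) (nat_lit 1411772930064384) (.ev (nat_lit 573) (nat_lit 64)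
 .dd))))) (.br (nat_lit 11) (.ch (nat_lit 10) (.ev (nat_lit 560) (nat_lit 1130297953353792) (.ev (nat_lit 573)
 (nat_lit 281474976710656) .dd))) (.br (nat_lit 16) (.ch (nat_lit 11) (.ev (nat_lit 560) (nat_lit 64) (.ev
 (nat_lit 628) (nat_lit 1130297953353728) (.ev (nat_lit 637) (nat_lit 281474976710656) .dd)))) (.ch (nat_lit
 16) (.ev (nat_lit 560) (nat_lit 4398046511104) (.ev (nat_lit 656) (nat_lit 1125899906842624) (.ev (nat_lit
 692) (nat_lit 281474976710656) (.ev (nat_lit 701) (nat_lit 64) .dd))))))))))))))))))) (.br (nat_lit 17) (.br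
 (nat_lit 16) (.ch (nat_lit 15) (.ev (nat_lit 52) (nat_lit 6482720624476208) (.ev (nat_lit 96) (nat_lit
 147472018246208) .dd))) (.ch (nat_lit 16) (.ev (nat_lit 52) (nat_lit 569684478918720) (.ev (nat_lit 84)
 (nat_lit 4503599627502080) (.ev (nat_lit 116) (nat_lit 8796093022224) (.ev (nat_lit 180) (nat_lit
 1125899906842624) (.ev (nat_lit 528) (nat_lit 2048) (.nd (nat_lit 544) (.br (nat_lit 12) (.br (nat_lit 10)
 (.ch (nat_lit 0) (.ev (nat_lit 560) (nat_lit 140737488420864) (.ev (nat_lit 640) (nat_lit 281474976710656)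
 (.ev (nat_lit 1108) (nat_lit 4194304) (.ev (nat_lit 1152) (nat_lit 32) (.ev (nat_lit 1165) (nat_lit 67108864)
 .dd)))))) (.br (nat_lit 11) (.ch (nat_lit 10) (.ev (nat_lit 560) (nat_lit 281474980904992) (.ev (nat_lit 628)
 (nat_lit 140737555464192) (.ev (nat_lit 637) (nat_lit 65536) .dd)))) (.ch (nat_lit 11) (.ev (nat_lit 560)
 (nat_lit 140737559724064) (.ev (nat_lit 573) (nat_lit 281474976710656) .dd))))) (.br (nat_lit 15) (.ch
 (nat_lit 12) (.ev (nat_lit 560) (nat_lit 281475048013824) (.ev (nat_lit 576) (nat_lit 140737488355328) (.ev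
 (nat_lit 628) (nat_lit 65536) (.ev (nat_lit 637) (nat_lit 32) .dd))))) (.br (nat_lit 16) (.ch (nat_lit 15)
 (.ev (nat_lit 560) (nat_lit 422212536434720) .dd)) (.ch (nat_lit 16) (.ev (nat_lit 560) (nat_lit 71368736)
 (.fin (nat_lit 576462401571340863))))))))))))))) (.br (nat_lit 18) (.ch (nat_lit 17) (.ev (nat_lit 52)
 (nat_lit 1411772930064416) (.ev (nat_lit 84) (nat_lit 8933548818432) (.ev (nat_lit 148) (nat_lit
 4503599627370560) (.ev (nat_lit 180) (nat_lit 562949953421312) (.ev (nat_lit 212) (nat_lit 67109376) (.nd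
 (nat_lit 544) (.br (nat_lit 6) (.br (nat_lit 5) (.ch (nat_lit 2) (.ev (nat_lit 560) (nat_lit 142936515807232)
 (.ev (nat_lit 720) (nat_lit 131088) .dd))) (.ch (nat_lit 5) (.ev (nat_lit 560) (nat_lit 142936511741968) (.ev
 (nat_lit 628) (nat_lit 2048) (.ev (nat_lit 637) (nat_lit 4194304) .dd))))) (.br (nat_lit 7) (.ch (nat_lit 6)
 (.ev (nat_lit 560) (nat_lit 142936515938320) .dd)) (.br (nat_lit 11) (.ch (nat_lit 7) (.ev (nat_lit 560)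
 (nat_lit 142936515938304) (.ev (nat_lit 573) (nat_lit 16) .dd))) (.ch (nat_lit 11) (.ev (nat_lit 560) (nat_lit
 4327440) (.nd (nat_lit 1264) (.br (nat_lit 14) (.ch (nat_lit 3) (.ev (nat_lit 1280) (nat_lit 142936511610880)
 .dd)) (.ch (nat_lit 14) (.fin (nat_lit 576472297199059511))))))))))))))))) (.ch (nat_lit 18) (.ev (nat_lit 52)
 (nat_lit 4648735166562384) (.ev (nat_lit 84) (nat_lit 2336462209024) (.ev (nat_lit 128) (nat_lit
 1979121013951008) .dd)))))))) (.br (nat_lit 26) (.br (nat_lit 22) (.br (nat_lit 20) (.ch (nat_lit 19) (.ev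
 (nat_lit 52) (nat_lit 2199023256064) (.ev (nat_lit 64) (nat_lit 6627993619466352) .dd))) (.br (nat_lit 21)
 (.ch (nat_lit 20) (.ev (nat_lit 52) (nat_lit 571746134590000) (.ev (nat_lit 84) (nat_lit 64) (.ev (nat_lit
 148) (nat_lit 2199023255552) (.ev (nat_lit 448) (nat_lit 137438953472) (.nd (nat_lit 544) (.br (nat_lit 6)
 (.br (nat_lit 5) (.ch (nat_lit 2) (.ev (nat_lit 560) (nat_lit 1548112372041728) (.ev (nat_lit 704) (nat_lit
 4398046511104) (.ev (nat_lit 717) (nat_lit 4503599627370496) .dd)))) (.ch (nat_lit 5) (.ev (nat_lit 560)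
 (nat_lit 4930210138947584) (.ev (nat_lit 752) (nat_lit 131072) (.fin (nat_lit 576478894247854643)))))) (.br
 (nat_lit 12) (.ch (nat_lit 6) (.ev (nat_lit 560) (nat_lit 6056110045792256) (.ev (nat_lit 573) (nat_lit
 131072) .dd))) (.br (nat_lit 16) (.ch (nat_lit 12) (.ev (nat_lit 560) (nat_lit 1552510418552832) (.ev (nat_lit
 573) (nat_lit 4503599627370496) .dd))) (.ch (nat_lit 16) (.ev (nat_lit 560) (nat_lit 5633897580726272) (.ev
 (nat_lit 720) (nat_lit 131072) (.nd (nat_lit 1264) (.br (nat_lit 9) (.ch (nat_lit 5) (.fin (nat_lit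
 576462401571340863))) (.ch (nat_lit 9) (.ev (nat_lit 1280) (nat_lit 422212465065984) .dd)))))))))))))))) (.ch
 (nat_lit 21) (.ev (nat_lit 52) (nat_lit 1688849881366624) (.ev (nat_lit 116) (nat_lit 2199023255552) (.ev
 (nat_lit 148) (nat_lit 137438953472) (.ev (nat_lit 180) (nat_lit 4503599627370496) (.ev (nat_lit 244) (nat_lit
 4398046511104) (.ev (nat_lit 368) (nat_lit 2048) (.nd (nat_lit 544) (.br (nat_lit 11) (.br (nat_lit 7) (.br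
 (nat_lit 6) (.ch (nat_lit 2) (.ev (nat_lit 560) (nat_lit 431008625197584) (.ev (nat_lit 573) (nat_lit 65536)
 .dd))) (.ch (nat_lit 6) (.ev (nat_lit 560) (nat_lit 431008558088720) (.ev (nat_lit 692) (nat_lit 65536) (.ev
 (nat_lit 701) (nat_lit 67108864) .dd))))) (.br (nat_lit 10) (.ch (nat_lit 7) (.ev (nat_lit 560) (nat_lit
 431008625263120) .dd)) (.ch (nat_lit 10) (.ev (nat_lit 560) (nat_lit 431008625263120) .dd)))) (.br (nat_lit
 15) (.br (nat_lit 13) (.ch (nat_lit 11) (.ev (nat_lit 560) (nat_lit 8796160131088) (.ev (nat_lit 628) (nat_lit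
 140737488355328) (.ev (nat_lit 640) (nat_lit 512) (.ev (nat_lit 692) (nat_lit 65536) (.ev (nat_lit 701)
 (nat_lit 281474976710656) .dd)))))) (.ch (nat_lit 13) (.ev (nat_lit 560) (nat_lit 431008625197568) (.fin
 (nat_lit 576478894226883153))))) (.br (nat_lit 16) (.ch (nat_lit 15) (.ev (nat_lit 560) (nat_lit
 281475043885584) (.ev (nat_lit 628) (nat_lit 8796093022208) (.ev (nat_lit 637) (nat_lit 140737488355328)
 .dd)))) (.ch (nat_lit 16) (.ev (nat_lit 560) (nat_lit 149533648552464) (.ev (nat_lit 573) (nat_lit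
 281474976710656) .dd)))))))))))))))) (.br (nat_lit 24) (.ch (nat_lit 22) (.ev (nat_lit 52) (nat_lit
 4535489724432) (.ev (nat_lit 84) (nat_lit 1268836485562880) (.ev (nat_lit 148) (nat_lit 131072) (.ev (nat_lit
 180) (nat_lit 64) (.ev (nat_lit 276) (nat_lit 32) (.nd (nat_lit 544) (.br (nat_lit 6) (.br (nat_lit 2) (.ch
 (nat_lit 0) (.ev (nat_lit 560) (nat_lit 4503599644147712) (.ev (nat_lit 672) (nat_lit 8796093022208) (.ev
 (nat_lit 816) (nat_lit 2048) (.ev (nat_lit 852) (nat_lit 562949953421312) (.ev (nat_lit 861) (nat_lit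
 281474976710656) .dd)))))) (.br (nat_lit 5) (.ch (nat_lit 2) (.ev (nat_lit 560) (nat_lit 853221023156224) (.ev
 (nat_lit 916) (nat_lit 4503599627370496) (.ev (nat_lit 925) (nat_lit 16777216) .dd)))) (.ch (nat_lit 5) (.ev
 (nat_lit 560) (nat_lit 5356820667303936) .dd)))) (.br (nat_lit 13) (.br (nat_lit 11) (.ch (nat_lit 6) (.ev
 (nat_lit 560) (nat_lit 290271086512128) (.ev (nat_lit 884) (nat_lit 562949953421312) (.ev (nat_lit 893)
 (nat_lit 4503599627370496) .dd)))) (.ch (nat_lit 11) (.ev (nat_lit 560) (nat_lit 5348024557504512) (.ev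
 (nat_lit 1060) (nat_lit 8796093022208) (.ev (nat_lit 1069) (nat_lit 16777216) .dd))))) (.br (nat_lit 15) (.ch
 (nat_lit 13) (.ev (nat_lit 560) (nat_lit 4793870713882624) (.ev (nat_lit 573) (nat_lit 562949953421312) .dd)))
 (.ch (nat_lit 15) (.ev (nat_lit 560) (nat_lit 5066549597571072) (.ev (nat_lit 692) (nat_lit 8796093022208)
 (.ev (nat_lit 701) (nat_lit 281474976710656) .dd)))))))))))))) (.br (nat_lit 25) (.ch (nat_lit 24) (.ev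
 (nat_lit 52) (nat_lit 1268973874184208) (.ev (nat_lit 116) (nat_lit 13194139599360) (.ev (nat_lit 212)
 (nat_lit 2048) (.ev (nat_lit 384) (nat_lit 562949953421312) (.nd (nat_lit 544) (.br (nat_lit 11) (.br (nat_lit
 6) (.br (nat_lit 5) (.ch (nat_lit 0) (.ev (nat_lit 560) (nat_lit 4785074608406624) (.ev (nat_lit 573) (nat_lit
 67108864) .dd))) (.ch (nat_lit 5) (.ev (nat_lit 560) (nat_lit 4785074671190112) (.ev (nat_lit 628) (nat_lit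
 4194304) (.ev (nat_lit 637) (nat_lit 131072) .dd))))) (.br (nat_lit 7) (.ch (nat_lit 6) (.ev (nat_lit 560)
 (nat_lit 4785074608275456) (.ev (nat_lit 628) (nat_lit 131072) (.ev (nat_lit 640) (nat_lit 64) (.ev (nat_lit
 692) (nat_lit 32) (.ev (nat_lit 701) (nat_lit 67108864) .dd)))))) (.ch (nat_lit 7) (.ev (nat_lit 560) (nat_lit
 4785074675515488) .dd)))) (.br (nat_lit 13) (.br (nat_lit 12) (.ch (nat_lit 11) (.ev (nat_lit 560) (nat_lit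
 4785074675515488) .dd)) (.ch (nat_lit 12) (.ev (nat_lit 560) (nat_lit 281475048144960) (.ev (nat_lit 692)
 (nat_lit 32) (.ev (nat_lit 701) (nat_lit 4503599627370496) .dd))))) (.br (nat_lit 15) (.ch (nat_lit 13) (.ev
 (nat_lit 560) (nat_lit 4785074675515456) (.ev (nat_lit 573) (nat_lit 32) .dd))) (.ch (nat_lit 15) (.ev
 (nat_lit 560) (nat_lit 4503599698804800) (.fin (nat_lit 576478894266729041))))))))))))) (.ch (nat_lit 25) (.ev
 (nat_lit 52) (nat_lit 1548112443279424) (.ev (nat_lit 84) (nat_lit 4398046511104) (.ev (nat_lit 116) (nat_lit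
 571746063220736) (.ev (nat_lit 192) (nat_lit 4505936089711152) .dd)))))))) (.br (nat_lit 30) (.br (nat_lit 27)
 (.ch (nat_lit 26) (.ev (nat_lit 52) (nat_lit 716881648484448) (.ev (nat_lit 84) (nat_lit 4194304) (.ev
 (nat_lit 116) (nat_lit 4503599627370496) (.ev (nat_lit 128) (nat_lit 1409711362673168) .dd))))) (.br (nat_lit
 29) (.ch (nat_lit 27) (.ev (nat_lit 52) (nat_lit 1407374887750224) (.ev (nat_lit 116) (nat_lit 4398046511136)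
 (.ev (nat_lit 148) (nat_lit 67108864) (.ev (nat_lit 180) (nat_lit 8796093022208) (.nd (nat_lit 544) (.br
 (nat_lit 10) (.br (nat_lit 5) (.ch (nat_lit 2) (.ev (nat_lit 560) (nat_lit 703824897703936) (.ev (nat_lit 864)
 (nat_lit 2199023255552) (.ev (nat_lit 877) (nat_lit 4503599627370496) .dd)))) (.br (nat_lit 7) (.ch (nat_lit
 5) (.ev (nat_lit 560) (nat_lit 5068886059843584) (.ev (nat_lit 656) (nat_lit 131072) (.ev (nat_lit 669)
 (nat_lit 140737488355328) .dd)))) (.ch (nat_lit 7) (.ev (nat_lit 560) (nat_lit 5209623548329984) .dd)))) (.br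
 (nat_lit 12) (.br (nat_lit 11) (.ch (nat_lit 10) (.ev (nat_lit 560) (nat_lit 142936528453632) (.ev (nat_lit
 576) (nat_lit 131072) (.ev (nat_lit 628) (nat_lit 137438953472) (.ev (nat_lit 800) (nat_lit 562949953421312)
 (.ev (nat_lit 813) (nat_lit 4503599627370496) .dd)))))) (.ch (nat_lit 11) (.ev (nat_lit 560) (nat_lit
 5066687019941888) (.ev (nat_lit 692) (nat_lit 16777216) (.fin (nat_lit 576472297199059511)))))) (.br (nat_lit
 13) (.ch (nat_lit 12) (.ev (nat_lit 560) (nat_lit 5068748604178432) (.ev (nat_lit 752) (nat_lit 137438953472)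
 (.ev (nat_lit 1024) (nat_lit 140737505132544) (.ev (nat_lit 1037) (nat_lit 65536) .dd))))) (.ch (nat_lit 13)
 (.ev (nat_lit 560) (nat_lit 5209623548264448) (.ev (nat_lit 573) (nat_lit 65536) .dd)))))))))))) (.ch (nat_lit
 29) (.ev (nat_lit 52) (nat_lit 5779033199675408) (.ev (nat_lit 84) (nat_lit 137438953472) (.ev (nat_lit 192)
 (nat_lit 851022004093536) .dd)))))) (.br (nat_lit 35) (.br (nat_lit 33) (.ch (nat_lit 30) (.ev (nat_lit 52)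
 (nat_lit 281612499552304) (.ev (nat_lit 84) (nat_lit 2199023255552) (.ev (nat_lit 116) (nat_lit 64) (.ev
 (nat_lit 128) (nat_lit 6346381119914496) .dd))))) (.ch (nat_lit 33) (.ev (nat_lit 52) (nat_lit
 5066687024007216) (.ev (nat_lit 84) (nat_lit 140737488355328) (.ev (nat_lit 116) (nat_lit 8796093022208) (.ev
 (nat_lit 148) (nat_lit 2199023255552) (.ev (nat_lit 212) (nat_lit 1125899906843136) (.nd (nat_lit 544) (.br
 (nat_lit 7) (.br (nat_lit 5) (.ch (nat_lit 2) (.ev (nat_lit 560) (nat_lit 285873090330688) (.ev (nat_lit 752)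
 (nat_lit 16777216) (.ev (nat_lit 765) (nat_lit 131072) .dd)))) (.br (nat_lit 6) (.ch (nat_lit 5) (.ev (nat_lit
 560) (nat_lit 285873107238912) (.ev (nat_lit 573) (nat_lit 64) .dd))) (.ch (nat_lit 6) (.ev (nat_lit 560)
 (nat_lit 281474993618944) (.ev (nat_lit 628) (nat_lit 4398113619968) (.ev (nat_lit 637) (nat_lit 64) .dd))))))
 (.br (nat_lit 12) (.br (nat_lit 10) (.ch (nat_lit 7) (.ev (nat_lit 560) (nat_lit 285873107238976) .dd)) (.ch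
 (nat_lit 10) (.ev (nat_lit 560) (nat_lit 285873039999040) (.ev (nat_lit 628) (nat_lit 131072) (.ev (nat_lit
 637) (nat_lit 67108864) .dd))))) (.br (nat_lit 15) (.ch (nat_lit 12) (.ev (nat_lit 560) (nat_lit
 4398130528256) (.ev (nat_lit 692) (nat_lit 281474976710656) (.ev (nat_lit 701) (nat_lit 64) .dd)))) (.ch
 (nat_lit 15) (.ev (nat_lit 560) (nat_lit 4398130528320) (.ev (nat_lit 573) (nat_lit 281474976710656)
 .dd)))))))))))))) (.br (nat_lit 36) (.ch (nat_lit 35) (.ev (nat_lit 52) (nat_lit 137443279360) (.ev (nat_lit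
 84) (nat_lit 1125899923619840) (.ev (nat_lit 116) (nat_lit 281474976710656) (.ev (nat_lit 180) (nat_lit
 562949953421312) (.ev (nat_lit 212) (nat_lit 140737488355328) (.nd (nat_lit 544) (.br (nat_lit 6) (.br
 (nat_lit 2) (.ch (nat_lit 0) (.ev (nat_lit 560) (nat_lit 4518992857333840) (.ev (nat_lit 896) (nat_lit 2048)
 (.ev (nat_lit 909) (nat_lit 32) .dd)))) (.br (nat_lit 5) (.ch (nat_lit 2) (.ev (nat_lit 560) (nat_lit
 4512395787569264) (.ev (nat_lit 720) (nat_lit 6597069766656) .dd))) (.ch (nat_lit 5) (.ev (nat_lit 560)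
 (nat_lit 4518992857335840) (.fin (nat_lit 576466799611560510)))))) (.br (nat_lit 12) (.br (nat_lit 7) (.ch
 (nat_lit 6) (.ev (nat_lit 560) (nat_lit 6597069834352) (.ev (nat_lit 628) (nat_lit 4503599627370496) (.ev
 (nat_lit 692) (nat_lit 8796093022208) (.ev (nat_lit 701) (nat_lit 67108864) .dd))))) (.ch (nat_lit 7) (.ev
 (nat_lit 560) (nat_lit 4518992857335904) (.ev (nat_lit 573) (nat_lit 16) .dd)))) (.br (nat_lit 13) (.ch
 (nat_lit 12) (.ev (nat_lit 560) (nat_lit 15393229963280) (.ev (nat_lit 852) (nat_lit 4503599627370496) (.ev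
 (nat_lit 1142) (nat_lit 2144) .dd)))) (.ch (nat_lit 13) (.ev (nat_lit 560) (nat_lit 4514594810759248) (.ev
 (nat_lit 628) (nat_lit 4398046576640) (.ev (nat_lit 637) (nat_lit 32) .dd)))))))))))))) (.ch (nat_lit 36) (.ev
 (nat_lit 52) (nat_lit 4798268743680000) (.ev (nat_lit 116) (nat_lit 16908288) (.ev (nat_lit 148) (nat_lit 512)
 (.ev (nat_lit 180) (nat_lit 64) (.ev (nat_lit 212) (nat_lit 16) (.ev (nat_lit 400) (nat_lit 67108864) (.nd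
 (nat_lit 544) (.br (nat_lit 11) (.br (nat_lit 5) (.br (nat_lit 2) (.ch (nat_lit 0) (.ev (nat_lit 560) (nat_lit
 1268973861601280) (.ev (nat_lit 832) (nat_lit 32) (.ev (nat_lit 884) (nat_lit 2048) (.ev (nat_lit 893)
 (nat_lit 562949953421312) .dd))))) (.ch (nat_lit 2) (.ev (nat_lit 560) (nat_lit 1831923810830368) (.ev
 (nat_lit 573) (nat_lit 4194304) .dd)))) (.br (nat_lit 10) (.ch (nat_lit 5) (.ev (nat_lit 560) (nat_lit
 565286415630368) (.ev (nat_lit 608) (nat_lit 140737488355328) (.ev (nat_lit 692) (nat_lit 4194304) (.fin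
 (nat_lit 576478894247854643)))))) (.ch (nat_lit 10) (.ev (nat_lit 560) (nat_lit 1691186322475040) (.ev
 (nat_lit 692) (nat_lit 4194304) (.ev (nat_lit 701) (nat_lit 140737488355328) .dd)))))) (.br (nat_lit 13) (.br
 (nat_lit 12) (.ch (nat_lit 11) (.ev (nat_lit 560) (nat_lit 1829724791769120) (.ev (nat_lit 573) (nat_lit
 2199023255552) .dd))) (.ch (nat_lit 12) (.ev (nat_lit 560) (nat_lit 1691048887715872) (.ev (nat_lit 784)
 (nat_lit 137438953472) (.ev (nat_lit 797) (nat_lit 140737488355328) .dd))))) (.br (nat_lit 16) (.ch (nat_lit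
 13) (.ev (nat_lit 560) (nat_lit 143073954760736) (.ev (nat_lit 852) (nat_lit 1125899906842624) (.ev (nat_lit
 861) (nat_lit 562949953421312) .dd)))) (.ch (nat_lit 16) (.ev (nat_lit 560) (nat_lit 1691186322475040) (.ev
 (nat_lit 628) (nat_lit 4194304) (.ev (nat_lit 637) (nat_lit 140737488355328) .dd))))))))))))))))))))))

/-- Subtrie. -/
noncomputable def T8 : Tr := (.ev (nat_lit 20) (nat_lit 1634014488171520) (.nd (nat_lit 33) (.br (nat_lit 19)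
 (.br (nat_lit 11) (.br (nat_lit 7) (.br (nat_lit 4) (.ch (nat_lit 1) (.ev (nat_lit 52) (nat_lit
 17601048643648) (.ev (nat_lit 96) (nat_lit 5068542446076464) .dd))) (.br (nat_lit 5) (.ch (nat_lit 4) (.ev
 (nat_lit 52) (nat_lit 1443377709568) (.ev (nat_lit 84) (nat_lit 17592186044416) (.ev (nat_lit 96) (nat_lit
 5067107930966128) .dd)))) (.ch (nat_lit 5) (.ev (nat_lit 52) (nat_lit 4504767862734848) (.ev (nat_lit 84)
 (nat_lit 549755814400) (.ev (nat_lit 116) (nat_lit 64) (.ev (nat_lit 148) (nat_lit 32) (.ev (nat_lit 212)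
 (nat_lit 268468224) (.ev (nat_lit 320) (nat_lit 274878038016) (.nd (nat_lit 544) (.br (nat_lit 8) (.br
 (nat_lit 4) (.ch (nat_lit 3) (.ev (nat_lit 560) (nat_lit 580550729662480) (.ev (nat_lit 573) (nat_lit 2048)
 .dd))) (.br (nat_lit 6) (.ch (nat_lit 4) (.ev (nat_lit 560) (nat_lit 17600776243216) (.ev (nat_lit 573)
 (nat_lit 562949953421312) .dd))) (.ch (nat_lit 6) (.ev (nat_lit 560) (nat_lit 562958543357968) (.ev (nat_lit
 628) (nat_lit 262144) (.ev (nat_lit 637) (nat_lit 17592186044416) .dd)))))) (.br (nat_lit 9) (.ch (nat_lit 8)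
 (.ev (nat_lit 560) (nat_lit 17592186046464) (.ev (nat_lit 640) (nat_lit 8589934592) (.ev (nat_lit 884)
 (nat_lit 562949953421328) (.ev (nat_lit 893) (nat_lit 262144) .dd))))) (.br (nat_lit 14) (.ch (nat_lit 9) (.ev
 (nat_lit 560) (nat_lit 17600775981072) (.ev (nat_lit 692) (nat_lit 262144) (.ev (nat_lit 701) (nat_lit
 562949953421312) .dd)))) (.ch (nat_lit 14) (.ev (nat_lit 560) (nat_lit 17600776243200) (.ev (nat_lit 628)
 (nat_lit 562949953421312) (.ev (nat_lit 637) (nat_lit 16) .dd))))))))))))))))) (.br (nat_lit 8) (.ch (nat_lit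
 7) (.ev (nat_lit 52) (nat_lit 18150536118272) (.ev (nat_lit 84) (nat_lit 563018941335552) (.ev (nat_lit 148)
 (nat_lit 4503599627370496) (.ev (nat_lit 180) (nat_lit 1099511627776) (.ev (nat_lit 212) (nat_lit 32800) (.nd
 (nat_lit 544) (.br (nat_lit 10) (.br (nat_lit 8) (.ch (nat_lit 6) (.ev (nat_lit 560) (nat_lit 274877972560)
 (.ev (nat_lit 628) (nat_lit 512) (.ev (nat_lit 637) (nat_lit 262144) .dd)))) (.br (nat_lit 9) (.ch (nat_lit 8)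
 (.ev (nat_lit 560) (nat_lit 512) (.ev (nat_lit 628) (nat_lit 64) (.ev (nat_lit 640) (nat_lit 65536) (.ev
 (nat_lit 704) (nat_lit 274877906960) (.ev (nat_lit 717) (nat_lit 262144) .dd)))))) (.ch (nat_lit 9) (.ev
 (nat_lit 560) (nat_lit 274877972496) (.ev (nat_lit 576) (nat_lit 576) (.ev (nat_lit 589) (nat_lit 262144)
 .dd)))))) (.br (nat_lit 13) (.ch (nat_lit 10) (.ev (nat_lit 560) (nat_lit 274878235216) .dd)) (.br (nat_lit
 14) (.ch (nat_lit 13) (.ev (nat_lit 560) (nat_lit 274878234640) (.ev (nat_lit 628) (nat_lit 64) (.ev (nat_lit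
 637) (nat_lit 512) .dd)))) (.ch (nat_lit 14) (.ev (nat_lit 560) (nat_lit 274877973072) (.ev (nat_lit 573)
 (nat_lit 262144) .dd))))))))))))) (.br (nat_lit 10) (.ch (nat_lit 8) (.ev (nat_lit 52) (nat_lit
 5084416644745312) (.ev (nat_lit 84) (nat_lit 65536) (.ev (nat_lit 244) (nat_lit 4194304) (.nd (nat_lit 544)
 (.br (nat_lit 13) (.br (nat_lit 6) (.ch (nat_lit 3) (.ev (nat_lit 560) (nat_lit 1649536303632) (.ev (nat_lit
 576) (nat_lit 8589934592) (.ev (nat_lit 589) (nat_lit 68719476736) .dd)))) (.br (nat_lit 8) (.ch (nat_lit 6)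
 (.ev (nat_lit 560) (nat_lit 1718255387152) (.ev (nat_lit 640) (nat_lit 262144) (.ev (nat_lit 852) (nat_lit
 131072) (.ev (nat_lit 861) (nat_lit 8589934592) .dd))))) (.ch (nat_lit 8) (.ev (nat_lit 560) (nat_lit
 1718255747584) (.ev (nat_lit 628) (nat_lit 8589934592) (.ev (nat_lit 704) (nat_lit 16) (.ev (nat_lit 717)
 (nat_lit 32768) .dd))))))) (.br (nat_lit 15) (.ch (nat_lit 13) (.ev (nat_lit 560) (nat_lit 627065520656) (.ev
 (nat_lit 628) (nat_lit 131072) (.ev (nat_lit 704) (nat_lit 1099511627776) (.ev (nat_lit 717) (nat_lit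
 268435456) .dd))))) (.br (nat_lit 18) (.ch (nat_lit 15) (.ev (nat_lit 560) (nat_lit 1168499835408) (.ev
 (nat_lit 640) (nat_lit 549755813888) (.ev (nat_lit 852) (nat_lit 8589934592) (.ev (nat_lit 861) (nat_lit
 131072) .dd))))) (.ch (nat_lit 18) (.ev (nat_lit 560) (nat_lit 1726845583376) (.ev (nat_lit 576) (nat_lit
 131072) (.ev (nat_lit 589) (nat_lit 512) .dd)))))))))))) (.ch (nat_lit 10) (.ev (nat_lit 52) (nat_lit
 562949953555008) (.ev (nat_lit 116) (nat_lit 68719476768) (.ev (nat_lit 148) (nat_lit 16) (.ev (nat_lit 180)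
 (nat_lit 549760073728) (.nd (nat_lit 544) (.br (nat_lit 13) (.br (nat_lit 6) (.ch (nat_lit 4) (.ev (nat_lit
 560) (nat_lit 18975165513728) (.ev (nat_lit 656) (nat_lit 294912) (.ev (nat_lit 784) (nat_lit
 4503599627370496) (.ev (nat_lit 797) (nat_lit 268435456) .dd))))) (.br (nat_lit 8) (.ch (nat_lit 6) (.ev
 (nat_lit 560) (nat_lit 4504982875308032) (.ev (nat_lit 672) (nat_lit 17592186044416) (.ev (nat_lit 685)
 (nat_lit 262144) .dd)))) (.ch (nat_lit 8) (.ev (nat_lit 560) (nat_lit 4522291593478144) (.ev (nat_lit 948)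
 (nat_lit 8589934592) (.ev (nat_lit 1060) (nat_lit 262144) (.ev (nat_lit 1216) (nat_lit 274877939712)
 .dd))))))) (.br (nat_lit 15) (.br (nat_lit 14) (.ch (nat_lit 13) (.ev (nat_lit 560) (nat_lit 4521466691616768)
 (.ev (nat_lit 784) (nat_lit 8589934592) (.ev (nat_lit 852) (nat_lit 1099511627776) (.ev (nat_lit 861) (nat_lit
 268435456) .dd))))) (.ch (nat_lit 14) (.ev (nat_lit 560) (nat_lit 4522574793179136) (.ev (nat_lit 573)
 (nat_lit 268435456) .dd)))) (.br (nat_lit 16) (.ch (nat_lit 15) (.ev (nat_lit 560) (nat_lit 4504974285635584)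
 (.nd (nat_lit 1264) (.br (nat_lit 13) (.ch (nat_lit 8) (.ev (nat_lit 1280) (nat_lit 17600775979008) .dd)) (.ch
 (nat_lit 13) (.fin (nat_lit 576443709875765795))))))) (.ch (nat_lit 16) (.ev (nat_lit 560) (nat_lit
 4504707997663232) (.ev (nat_lit 656) (nat_lit 17592186044416) (.ev (nat_lit 669) (nat_lit 274877906944)
 .dd)))))))))))))))) (.br (nat_lit 15) (.br (nat_lit 12) (.ch (nat_lit 11) (.ev (nat_lit 52) (nat_lit
 563774587535872) (.ev (nat_lit 84) (nat_lit 4194304) (.ev (nat_lit 116) (nat_lit 17592186044480) (.ev (nat_lit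
 180) (nat_lit 4503599627370496) (.ev (nat_lit 276) (nat_lit 1099511627776) (.nd (nat_lit 544) (.br (nat_lit
 10) (.br (nat_lit 4) (.ch (nat_lit 3) (.ev (nat_lit 560) (nat_lit 77577879600) (.fin (nat_lit
 576450306922463789)))) (.br (nat_lit 8) (.ch (nat_lit 4) (.ev (nat_lit 560) (nat_lit 8858435632) (.ev (nat_lit
 1088) (nat_lit 2048) (.ev (nat_lit 1236) (nat_lit 32768) (.ev (nat_lit 1245) (nat_lit 68719476736) .dd)))))
 (.ch (nat_lit 8) (.ev (nat_lit 560) (nat_lit 68719478832) (.ev (nat_lit 672) (nat_lit 65536) (.ev (nat_lit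
 916) (nat_lit 32768) (.ev (nat_lit 1040) (nat_lit 8858370048) .dd))))))) (.br (nat_lit 15) (.br (nat_lit 14)
 (.ch (nat_lit 10) (.ev (nat_lit 560) (nat_lit 8858437664) (.ev (nat_lit 692) (nat_lit 32768) (.nd (nat_lit
 1264) (.br (nat_lit 4) (.ch (nat_lit 1) (.fin (nat_lit 576468998645301822))) (.ch (nat_lit 4) (.ev (nat_lit
 1280) (nat_lit 68719476752) .dd))))))) (.ch (nat_lit 14) (.ev (nat_lit 560) (nat_lit 77309511712) (.ev
 (nat_lit 884) (nat_lit 16) (.ev (nat_lit 893) (nat_lit 268435456) .dd))))) (.br (nat_lit 16) (.ch (nat_lit 15)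
 (.ev (nat_lit 560) (nat_lit 68987947056) (.ev (nat_lit 628) (nat_lit 8589934592) (.ev (nat_lit 637) (nat_lit
 65536) .dd)))) (.ch (nat_lit 16) (.ev (nat_lit 560) (nat_lit 8858468368) (.ev (nat_lit 692) (nat_lit 2048)
 (.ev (nat_lit 1076) (nat_lit 68719476736) (.ev (nat_lit 1085) (nat_lit 32) .dd))))))))))))))) (.br (nat_lit
 13) (.ch (nat_lit 12) (.ev (nat_lit 52) (nat_lit 4521810289000544) (.ev (nat_lit 84) (nat_lit 283736277008)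
 (.ev (nat_lit 148) (nat_lit 133120) (.ev (nat_lit 180) (nat_lit 562949953486848) (.nd (nat_lit 544) (.br
 (nat_lit 9) (.br (nat_lit 6) (.ch (nat_lit 4) (.ev (nat_lit 560) (nat_lit 1099511628288) (.ev (nat_lit 573)
 (nat_lit 4194304) .dd))) (.ch (nat_lit 6) (.ev (nat_lit 560) (nat_lit 1099511627776) (.ev (nat_lit 640)
 (nat_lit 4194816) .dd)))) (.br (nat_lit 13) (.ch (nat_lit 9) (.ev (nat_lit 560) (nat_lit 4194304) (.ev
 (nat_lit 592) (nat_lit 1099511628288) .dd))) (.br (nat_lit 16) (.ch (nat_lit 13) (.ev (nat_lit 560) (nat_lit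
 512) (.ev (nat_lit 576) (nat_lit 4194304) (.ev (nat_lit 589) (nat_lit 1099511627776) .dd)))) (.ch (nat_lit 16)
 (.ev (nat_lit 560) (nat_lit 4194304) (.ev (nat_lit 576) (nat_lit 512) (.ev (nat_lit 589) (nat_lit
 1099511627776) .dd))))))))))))) (.ch (nat_lit 13) (.ev (nat_lit 52) (nat_lit 563018677256704) (.ev (nat_lit
 84) (nat_lit 824633720832) (.ev (nat_lit 116) (nat_lit 17600775979008) (.ev (nat_lit 180) (nat_lit
 1099511627776) (.nd (nat_lit 544) (.br (nat_lit 13) (.br (nat_lit 8) (.ch (nat_lit 3) (.ev (nat_lit 560)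
 (nat_lit 4503599896068208) (.fin (nat_lit 576472297199059539)))) (.br (nat_lit 10) (.ch (nat_lit 8) (.ev
 (nat_lit 560) (nat_lit 4503599627372576) (.ev (nat_lit 628) (nat_lit 16) (.ev (nat_lit 704) (nat_lit 262208)
 (.ev (nat_lit 768) (nat_lit 268500992) .dd))))) (.ch (nat_lit 10) (.ev (nat_lit 560) (nat_lit
 4503599896133728) (.ev (nat_lit 628) (nat_lit 16) (.ev (nat_lit 637) (nat_lit 2048) .dd)))))) (.br (nat_lit
 16) (.ch (nat_lit 13) (.ev (nat_lit 560) (nat_lit 4503599896133744) (.ev (nat_lit 573) (nat_lit 2048) .dd)))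
 (.br (nat_lit 18) (.ch (nat_lit 16) (.ev (nat_lit 560) (nat_lit 4503599896070224) (.ev (nat_lit 628) (nat_lit
 65536) (.ev (nat_lit 637) (nat_lit 32) .dd)))) (.ch (nat_lit 18) (.ev (nat_lit 560) (nat_lit 268697696) (.ev
 (nat_lit 576) (nat_lit 16) (.ev (nat_lit 628) (nat_lit 65536) (.ev (nat_lit 656) (nat_lit 4503599627372544)
 .dd)))))))))))))))) (.br (nat_lit 17) (.br (nat_lit 16) (.ch (nat_lit 15) (.ev (nat_lit 52) (nat_lit
 5066627158671408) (.ev (nat_lit 116) (nat_lit 68096) (.ev (nat_lit 160) (nat_lit 19516335980608) .dd)))) (.ch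
 (nat_lit 16) (.ev (nat_lit 52) (nat_lit 564049733484608) (.ev (nat_lit 64) (nat_lit 4522093761235504) .dd))))
 (.br (nat_lit 18) (.ch (nat_lit 17) (.ev (nat_lit 52) (nat_lit 1099780325408) (.ev (nat_lit 64) (nat_lit
 5085043714394704) .dd))) (.ch (nat_lit 18) (.ev (nat_lit 52) (nat_lit 4505524045512784) (.ev (nat_lit 84)
 (nat_lit 67584) (.ev (nat_lit 180) (nat_lit 512) (.nd (nat_lit 544) (.br (nat_lit 14) (.br (nat_lit 9) (.br
 (nat_lit 8) (.ch (nat_lit 3) (.ev (nat_lit 560) (nat_lit 17669495717920) (.ev (nat_lit 573) (nat_lit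
 562949953421312) .dd))) (.ch (nat_lit 8) (.ev (nat_lit 560) (nat_lit 580619448877088) (.ev (nat_lit 573)
 (nat_lit 262144) .dd)))) (.br (nat_lit 10) (.ch (nat_lit 9) (.ev (nat_lit 560) (nat_lit 17600775979008) (.ev
 (nat_lit 640) (nat_lit 32) (.ev (nat_lit 692) (nat_lit 563018672898048) (.ev (nat_lit 701) (nat_lit 262144)
 .dd))))) (.ch (nat_lit 10) (.ev (nat_lit 560) (nat_lit 562958543618080) (.ev (nat_lit 608) (nat_lit
 17592186044416) (.ev (nat_lit 621) (nat_lit 68719476736) .dd)))))) (.br (nat_lit 16) (.br (nat_lit 15) (.ch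
 (nat_lit 14) (.ev (nat_lit 560) (nat_lit 580619449139232) .dd)) (.ch (nat_lit 15) (.ev (nat_lit 560) (nat_lit
 563018673160224) (.fin (nat_lit 576478894245757533))))) (.br (nat_lit 18) (.ch (nat_lit 16) (.ev (nat_lit 560)
 (nat_lit 562958543618080) (.ev (nat_lit 736) (nat_lit 17592186044416) (.ev (nat_lit 749) (nat_lit 68719476736)
 .dd)))) (.ch (nat_lit 18) (.ev (nat_lit 560) (nat_lit 562958543618080) (.ev (nat_lit 608) (nat_lit
 68719476736) (.ev (nat_lit 621) (nat_lit 17592186044416) .dd)))))))))))))))) (.br (nat_lit 26) (.br (nat_lit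
 22) (.br (nat_lit 20) (.ch (nat_lit 19) (.ev (nat_lit 52) (nat_lit 1108369998336) (.ev (nat_lit 84) (nat_lit
 4503599627370512) (.ev (nat_lit 148) (nat_lit 824633722880) (.ev (nat_lit 180) (nat_lit 262176) (.nd (nat_lit
 544) (.br (nat_lit 10) (.br (nat_lit 4) (.ch (nat_lit 3) (.ev (nat_lit 560) (nat_lit 580542143856704) (.fin
 (nat_lit 576437112816484923)))) (.br (nat_lit 6) (.ch (nat_lit 4) (.ev (nat_lit 560) (nat_lit 17592186241088)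
 (.ev (nat_lit 576) (nat_lit 4194304) (.ev (nat_lit 628) (nat_lit 68719476736) (.ev (nat_lit 656) (nat_lit
 562949953454080) .dd))))) (.ch (nat_lit 6) (.ev (nat_lit 560) (nat_lit 580610859139136) (.ev (nat_lit 628)
 (nat_lit 4194304) (.ev (nat_lit 637) (nat_lit 32768) .dd)))))) (.br (nat_lit 14) (.ch (nat_lit 10) (.ev
 (nat_lit 560) (nat_lit 580610863333440) (.ev (nat_lit 573) (nat_lit 32768) .dd))) (.br (nat_lit 16) (.ch
 (nat_lit 14) (.ev (nat_lit 560) (nat_lit 580542143758400) (.ev (nat_lit 628) (nat_lit 68719476736) (.ev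
 (nat_lit 637) (nat_lit 131072) .dd)))) (.ch (nat_lit 16) (.ev (nat_lit 560) (nat_lit 562949953585152) (.ev
 (nat_lit 628) (nat_lit 4194304) (.ev (nat_lit 704) (nat_lit 17592186109952) (.ev (nat_lit 768) (nat_lit
 68719476800) .dd)))))))))))))) (.br (nat_lit 21) (.ch (nat_lit 20) (.ev (nat_lit 52) (nat_lit 564049737777712)
 (.ev (nat_lit 84) (nat_lit 262144) (.ev (nat_lit 160) (nat_lit 4522093756680256) .dd)))) (.ch (nat_lit 21)
 (.ev (nat_lit 52) (nat_lit 580886009643104) (.ev (nat_lit 116) (nat_lit 262144) (.ev (nat_lit 148) (nat_lit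
 4503599627370496) (.ev (nat_lit 244) (nat_lit 1099511627776) (.nd (nat_lit 544) (.br (nat_lit 13) (.br
 (nat_lit 8) (.br (nat_lit 6) (.ch (nat_lit 4) (.ev (nat_lit 560) (nat_lit 558345814528) (.ev (nat_lit 640)
 (nat_lit 2048) (.ev (nat_lit 653) (nat_lit 16) .dd)))) (.ch (nat_lit 6) (.ev (nat_lit 560) (nat_lit
 549755882000) (.ev (nat_lit 573) (nat_lit 8589934592) .dd)))) (.br (nat_lit 9) (.ch (nat_lit 8) (.ev (nat_lit
 560) (nat_lit 558345751056) (.ev (nat_lit 573) (nat_lit 65536) .dd))) (.ch (nat_lit 9) (.ev (nat_lit 560)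
 (nat_lit 8590002704) (.ev (nat_lit 573) (nat_lit 549755813888) .dd))))) (.br (nat_lit 16) (.br (nat_lit 14)
 (.ch (nat_lit 13) (.ev (nat_lit 560) (nat_lit 558345816080) (.ev (nat_lit 573) (nat_lit 512) .dd))) (.ch
 (nat_lit 14) (.ev (nat_lit 560) (nat_lit 558345816576) (.ev (nat_lit 573) (nat_lit 16) .dd)))) (.br (nat_lit
 18) (.ch (nat_lit 16) (.ev (nat_lit 560) (nat_lit 558345814544) (.ev (nat_lit 573) (nat_lit 2048) .dd))) (.ch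
 (nat_lit 18) (.ev (nat_lit 560) (nat_lit 549755816464) (.ev (nat_lit 640) (nat_lit 8589934592) (.ev (nat_lit
 653) (nat_lit 65536) .dd))))))))))))))) (.br (nat_lit 24) (.ch (nat_lit 22) (.ev (nat_lit 52) (nat_lit
 343601905680) (.ev (nat_lit 148) (nat_lit 268599808) (.nd (nat_lit 544) (.br (nat_lit 14) (.br (nat_lit 9)
 (.ch (nat_lit 4) (.ev (nat_lit 560) (nat_lit 19250043422816) (.ev (nat_lit 932) (nat_lit 4503599627370496)
 (.ev (nat_lit 941) (nat_lit 562949953421312) .dd)))) (.br (nat_lit 13) (.ch (nat_lit 9) (.ev (nat_lit 560)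
 (nat_lit 18700287608928) (.ev (nat_lit 1076) (nat_lit 4503599627370496) (.fin (nat_lit 576463501093454375)))))
 (.ch (nat_lit 13) (.ev (nat_lit 560) (nat_lit 4522849670793248) (.ev (nat_lit 720) (nat_lit 562949953421376)
 .dd))))) (.br (nat_lit 16) (.br (nat_lit 15) (.ch (nat_lit 14) (.ev (nat_lit 560) (nat_lit 5085799624214624)
 .dd)) (.ch (nat_lit 15) (.ev (nat_lit 560) (nat_lit 5085791034279968) (.ev (nat_lit 628) (nat_lit 64) (.ev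
 (nat_lit 637) (nat_lit 8589934592) .dd))))) (.br (nat_lit 18) (.ch (nat_lit 16) (.ev (nat_lit 560) (nat_lit
 5068207438168064) (.ev (nat_lit 592) (nat_lit 32) (.ev (nat_lit 628) (nat_lit 17592186044416) (.ev (nat_lit
 752) (nat_lit 2048) (.ev (nat_lit 765) (nat_lit 64) .dd)))))) (.ch (nat_lit 18) (.ev (nat_lit 560) (nat_lit
 5066549580793952) (.ev (nat_lit 628) (nat_lit 8589934592) (.ev (nat_lit 692) (nat_lit 17592186044416) (.ev
 (nat_lit 800) (nat_lit 1099511627776) (.ev (nat_lit 813) (nat_lit 549755813888) .dd))))))))))))) (.br (nat_lit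
 25) (.ch (nat_lit 24) (.ev (nat_lit 52) (nat_lit 1932735315984) (.ev (nat_lit 84) (nat_lit 562949953421312)
 (.ev (nat_lit 96) (nat_lit 4521260805982816) .dd)))) (.ch (nat_lit 25) (.ev (nat_lit 52) (nat_lit 4524096)
 (.ev (nat_lit 84) (nat_lit 544) (.ev (nat_lit 116) (nat_lit 562958543355904) (.ev (nat_lit 180) (nat_lit
 549755813904) (.nd (nat_lit 544) (.br (nat_lit 10) (.br (nat_lit 6) (.ch (nat_lit 3) (.ev (nat_lit 560)
 (nat_lit 4522566471516160) (.nd (nat_lit 1264) (.br (nat_lit 16) (.ch (nat_lit 8) (.fin (nat_lit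
 576437112816484923))) (.ch (nat_lit 16) (.ev (nat_lit 1280) (nat_lit 68719509504) .dd)))))) (.br (nat_lit 9)
 (.ch (nat_lit 6) (.ev (nat_lit 560) (nat_lit 4522635190861824) (.ev (nat_lit 672) (nat_lit 32768) (.ev
 (nat_lit 685) (nat_lit 131072) .dd)))) (.ch (nat_lit 9) (.ev (nat_lit 560) (nat_lit 19035563622400) (.ev
 (nat_lit 656) (nat_lit 32768) (.ev (nat_lit 669) (nat_lit 4503599627370496) .dd)))))) (.br (nat_lit 16) (.br
 (nat_lit 13) (.ch (nat_lit 10) (.ev (nat_lit 560) (nat_lit 4504699407597568) (.ev (nat_lit 784) (nat_lit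
 68719476736) (.ev (nat_lit 852) (nat_lit 17592186044416) (.ev (nat_lit 861) (nat_lit 274877906944) .dd)))))
 (.ch (nat_lit 13) (.ev (nat_lit 560) (nat_lit 4521260532924416) (.ev (nat_lit 656) (nat_lit 1099511758848)
 (.ev (nat_lit 784) (nat_lit 268435456) (.ev (nat_lit 797) (nat_lit 274877906944) .dd)))))) (.br (nat_lit 18)
 (.ch (nat_lit 16) (.ev (nat_lit 560) (nat_lit 4522360313118720) (.ev (nat_lit 573) (nat_lit 274877906944)
 .dd))) (.ch (nat_lit 18) (.ev (nat_lit 560) (nat_lit 17867332419584) (.ev (nat_lit 948) (nat_lit 68719476736)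
 (.ev (nat_lit 966) (nat_lit 4504699139129344) .dd)))))))))))))))) (.br (nat_lit 30) (.br (nat_lit 27) (.ch
 (nat_lit 26) (.ev (nat_lit 52) (nat_lit 563843306684512) (.ev (nat_lit 96) (nat_lit 4522300188035600) .dd)))
 (.br (nat_lit 29) (.ch (nat_lit 27) (.ev (nat_lit 52) (nat_lit 19250047879760) (.ev (nat_lit 84) (nat_lit
 68719476736) (.ev (nat_lit 148) (nat_lit 32) (.ev (nat_lit 180) (nat_lit 32768) (.nd (nat_lit 544) (.br
 (nat_lit 10) (.br (nat_lit 6) (.br (nat_lit 4) (.ch (nat_lit 3) (.ev (nat_lit 560) (nat_lit 5066824727199744)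
 (.ev (nat_lit 573) (nat_lit 131072) .dd))) (.ch (nat_lit 4) (.ev (nat_lit 560) (nat_lit 274878103552) (.ev
 (nat_lit 768) (nat_lit 562949953421312) (.ev (nat_lit 884) (nat_lit 4503599627370496) (.ev (nat_lit 893)
 (nat_lit 268435456) .dd)))))) (.br (nat_lit 9) (.ch (nat_lit 6) (.ev (nat_lit 560) (nat_lit 5066824727330816)
 .dd)) (.ch (nat_lit 9) (.ev (nat_lit 560) (nat_lit 5066824727330816) .dd)))) (.br (nat_lit 15) (.br (nat_lit
 13) (.ch (nat_lit 10) (.ev (nat_lit 560) (nat_lit 5066824727330816) .dd)) (.ch (nat_lit 13) (.ev (nat_lit 560)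
 (nat_lit 5066549580988416) (.ev (nat_lit 916) (nat_lit 268435456) (.ev (nat_lit 925) (nat_lit 274877906944)
 .dd))))) (.br (nat_lit 16) (.ch (nat_lit 15) (.ev (nat_lit 560) (nat_lit 5066824727134208) (.ev (nat_lit 640)
 (nat_lit 65536) (.ev (nat_lit 653) (nat_lit 131072) .dd)))) (.ch (nat_lit 16) (.ev (nat_lit 560) (nat_lit
 562950222053376) (.ev (nat_lit 852) (nat_lit 4503599627370496) (.ev (nat_lit 861) (nat_lit 274877906944)
 .dd))))))))))))) (.ch (nat_lit 29) (.ev (nat_lit 52) (nat_lit 4521750159394832) (.ev (nat_lit 116) (nat_lit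
 564049733484544) (.ev (nat_lit 148) (nat_lit 68719476736) (.ev (nat_lit 224) (nat_lit 274882364000) .dd)))))))
 (.br (nat_lit 35) (.br (nat_lit 33) (.ch (nat_lit 30) (.ev (nat_lit 52) (nat_lit 77309413424) (.ev (nat_lit
 84) (nat_lit 4358144) (.ev (nat_lit 116) (nat_lit 4503599627370496) (.ev (nat_lit 148) (nat_lit 274877906944)
 (.ev (nat_lit 180) (nat_lit 64) (.ev (nat_lit 416) (nat_lit 262144) (.nd (nat_lit 544) (.br (nat_lit 13) (.br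
 (nat_lit 10) (.ch (nat_lit 9) (.ev (nat_lit 560) (nat_lit 17592454545920) (.ev (nat_lit 752) (nat_lit
 1099511627776) (.fin (nat_lit 576459103028068953))))) (.ch (nat_lit 10) (.ev (nat_lit 560) (nat_lit
 582191406972928) (.ev (nat_lit 704) (nat_lit 268435456) (.ev (nat_lit 717) (nat_lit 512) .dd))))) (.br
 (nat_lit 15) (.ch (nat_lit 13) (.ev (nat_lit 560) (nat_lit 582191675408384) (.ev (nat_lit 573) (nat_lit 512)
 .dd))) (.br (nat_lit 18) (.ch (nat_lit 15) (.ev (nat_lit 560) (nat_lit 581092163781120) (.ev (nat_lit 573)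
 (nat_lit 1099511627776) .dd))) (.ch (nat_lit 18) (.ev (nat_lit 560) (nat_lit 563499977671168) (.ev (nat_lit
 720) (nat_lit 1099511627776) (.nd (nat_lit 1264) (.br (nat_lit 14) (.ch (nat_lit 0) (.ev (nat_lit 1280)
 (nat_lit 17592186109952) .dd)) (.ch (nat_lit 14) (.fin (nat_lit 576462401573438015))))))))))))))))))) (.ch
 (nat_lit 33) (.ev (nat_lit 52) (nat_lit 5067932564523056) (.ev (nat_lit 84) (nat_lit 17592186175488) (.ev
 (nat_lit 180) (nat_lit 68719476736) (.ev (nat_lit 212) (nat_lit 512) (.ev (nat_lit 256) (nat_lit 550024544320)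
 .dd))))))) (.br (nat_lit 36) (.ch (nat_lit 35) (.ev (nat_lit 52) (nat_lit 627338248704) (.ev (nat_lit 84)
 (nat_lit 4503599627370496) (.ev (nat_lit 116) (nat_lit 1099511627776) (.ev (nat_lit 148) (nat_lit 16) (.ev
 (nat_lit 212) (nat_lit 274877906944) (.ev (nat_lit 512) (nat_lit 32768) (.nd (nat_lit 544) (.br (nat_lit 15)
 (.br (nat_lit 6) (.ch (nat_lit 3) (.ev (nat_lit 560) (nat_lit 17592186044512) (.ev (nat_lit 628) (nat_lit
 67584) (.ev (nat_lit 637) (nat_lit 562949953421312) .dd)))) (.br (nat_lit 8) (.ch (nat_lit 6) (.ev (nat_lit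
 560) (nat_lit 580542139533408) .dd)) (.ch (nat_lit 8) (.ev (nat_lit 560) (nat_lit 17592186046496) (.ev
 (nat_lit 576) (nat_lit 65536) (.ev (nat_lit 628) (nat_lit 562949953421312) (.ev (nat_lit 637) (nat_lit 64)
 .dd))))))) (.br (nat_lit 16) (.ch (nat_lit 15) (.ev (nat_lit 560) (nat_lit 562949953488992) (.ev (nat_lit 573)
 (nat_lit 17592186044416) .dd))) (.br (nat_lit 18) (.ch (nat_lit 16) (.ev (nat_lit 560) (nat_lit
 562949953486848) (.ev (nat_lit 640) (nat_lit 17592186044416) (.ev (nat_lit 992) (nat_lit 96) (.ev (nat_lit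
 1005) (nat_lit 2048) .dd))))) (.ch (nat_lit 18) (.ev (nat_lit 560) (nat_lit 562949953423456) (.fin (nat_lit
 576462401573438015))))))))))))))) (.ch (nat_lit 36) (.ev (nat_lit 52) (nat_lit 4522016447201280) (.ev (nat_lit
 84) (nat_lit 1099511627776) (.ev (nat_lit 116) (nat_lit 4194304) (.ev (nat_lit 148) (nat_lit 262144) (.ev
 (nat_lit 180) (nat_lit 32) (.nd (nat_lit 544) (.br (nat_lit 8) (.br (nat_lit 4) (.ch (nat_lit 3) (.ev (nat_lit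
 560) (nat_lit 562958811925072) (.ev (nat_lit 628) (nat_lit 68719476736) (.ev (nat_lit 637) (nat_lit 32768)
 .dd)))) (.br (nat_lit 6) (.ch (nat_lit 4) (.ev (nat_lit 560) (nat_lit 77577978432) (.ev (nat_lit 916) (nat_lit
 32768) (.ev (nat_lit 1008) (nat_lit 562949953423376) .dd)))) (.ch (nat_lit 6) (.ev (nat_lit 560) (nat_lit
 563027531270736) (.ev (nat_lit 576) (nat_lit 32768) (.ev (nat_lit 589) (nat_lit 131072) .dd)))))) (.br
 (nat_lit 9) (.ch (nat_lit 8) (.ev (nat_lit 560) (nat_lit 563018941499920) (.ev (nat_lit 736) (nat_lit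
 8589934656) .dd))) (.br (nat_lit 10) (.ch (nat_lit 9) (.ev (nat_lit 560) (nat_lit 77578013264) (.ev (nat_lit
 573) (nat_lit 562949953421312) .dd))) (.ch (nat_lit 10) (.ev (nat_lit 560) (nat_lit 562958543521856) (.ev
 (nat_lit 736) (nat_lit 268435456) (.ev (nat_lit 852) (nat_lit 512) (.fin (nat_lit
 576468998645301822)))))))))))))))))))))))

/-- The trie. -/
noncomputable def T : Tr := .nd (nat_lit 1000000) (.br (nat_lit 7) (.br (nat_lit 2) (.br (nat_lit 1) (.ch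
 (nat_lit 0) (.ev (nat_lit 0) (nat_lit 9007199254740991) .dd)) (.ch (nat_lit 1) T1)) (.br (nat_lit 3) (.ch
 (nat_lit 2) T2) (.br (nat_lit 4) (.ch (nat_lit 3) (.ev (nat_lit 0) (nat_lit 9007199254740991) .dd)) (.ch
 (nat_lit 4) (.ev (nat_lit 0) (nat_lit 9007199254740991) .dd))))) (.br (nat_lit 9) (.br (nat_lit 8) (.ch
 (nat_lit 7) (.ev (nat_lit 0) (nat_lit 9007199254740991) .dd)) (.ch (nat_lit 8) T8)) (.br (nat_lit 14) (.ch
 (nat_lit 9) (.ev (nat_lit 0) (nat_lit 9007199254740991) .dd)) (.br (nat_lit 18) (.ch (nat_lit 14) (.ev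
 (nat_lit 0) (nat_lit 9007199254740991) .dd)) (.ch (nat_lit 18) (.ev (nat_lit 0) (nat_lit 9007199254740991)
 .dd))))))

/-- The possible values. -/
noncomputable def oks : List ℕ := [4, 7, 9, 201, 1524]

/-- The parameters. -/
noncomputable def S : Pr := ⟨fun i l e => lget mz (lget [] (lget [] tabs i) l) e, oks, [(nat_lit 0), (nat_lit
 1), (nat_lit 0), (nat_lit 0)], T, (nat_lit 9007199254740991), (nat_lit 2287041271849359), (nat_lit 53),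
 [(nat_lit 279193), (nat_lit 23899161165)], [(nat_lit 6859), (nat_lit 1369)]⟩

/-- Nothing known. -/
noncomputable def cs0 : Cs := (.cons (nat_lit 19) (nat_lit 0) (nat_lit 1) (.cons (nat_lit 37) (nat_lit 0) (nat_lit 1) .nil))

theorem part_1 : part S cs0 (nat_lit 1) = true := by decide +kernel

theorem part_2 : part S cs0 (nat_lit 2) = true := by decide +kernel

theorem part_8 : part S cs0 (nat_lit 8) = true := by decide +kernel

/-- Data of a prime. -/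
noncomputable def D0 : PD := ⟨(nat_lit 19), (nat_lit 3), (2737, 3, 5), (2233, 2359, 280), (4154, 6154, 3804)⟩

theorem D0_ok : D0.Ok := pdb_sound (s := 9) (C := ⟨⟨21, 6, -28, 11, 14, 17, -4, 7, -1⟩, (2, 11, 15)⟩) (by show Nat.Prime 19; norm_num) (by decide +kernel)

/-- Lines of the first type. -/
noncomputable def Cl0 : List C1 := [⟨⟨11, 14, -28, 21, 6, 7, 4, -7, -5⟩, (12, 16, 13)⟩,
  ⟨⟨0, 0, 0, 0, 0, 0, 0, 0, 0⟩, (0, 0, 0)⟩,
  ⟨⟨0, 0, 0, 0, 0, 0, 0, 0, 0⟩, (0, 0, 0)⟩,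
  ⟨⟨9, 6, -32, 1, 26, 7, 8, -1, -1⟩, (8, 3, 5)⟩,
  ⟨⟨-9, -6, -23, -1, -26, 8, 8, -1, -7⟩, (13, 12, 18)⟩,
  ⟨⟨0, 0, 0, 0, 0, 0, 0, 0, 0⟩, (0, 0, 0)⟩,
  ⟨⟨0, 0, 0, 0, 0, 0, 0, 0, 0⟩, (0, 0, 0)⟩,
  ⟨⟨9, -6, -32, 1, -26, 7, 8, 1, -1⟩, (5, 9, 15)⟩,
  ⟨⟨0, 0, 0, 0, 0, 0, 0, 0, 0⟩, (0, 0, 0)⟩,
  ⟨⟨21, -6, -28, 11, -14, 17, -4, -7, -1⟩, (16, 12, 6)⟩,
  ⟨⟨0, 0, 0, 0, 0, 0, 0, 0, 0⟩, (0, 0, 0)⟩,
  ⟨⟨0, 0, 0, 0, 0, 0, 0, 0, 0⟩, (0, 0, 0)⟩,
  ⟨⟨0, 0, 0, 0, 0, 0, 0, 0, 0⟩, (0, 0, 0)⟩,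
  ⟨⟨0, 0, 0, 0, 0, 0, 0, 0, 0⟩, (0, 0, 0)⟩,
  ⟨⟨11, -14, -28, 21, -6, 7, 4, 7, -5⟩, (5, 13, 7)⟩,
  ⟨⟨0, 0, 0, 0, 0, 0, 0, 0, 0⟩, (0, 0, 0)⟩,
  ⟨⟨0, 0, 0, 0, 0, 0, 0, 0, 0⟩, (0, 0, 0)⟩,
  ⟨⟨0, 0, 0, 0, 0, 0, 0, 0, 0⟩, (0, 0, 0)⟩,
  ⟨⟨-9, 6, -23, -1, 26, 8, 8, 1, -7⟩, (16, 6, 9)⟩]

/-- Data of a prime. -/
noncomputable def D1 : PD := ⟨(nat_lit 37), (nat_lit 2), (556, 16, 5), (1239, 947, 1101), (730, 506, 467)⟩

theorem D1_ok : D1.Ok := pdb_sound (s := 2) (C := ⟨⟨43, 22, -44, 23, -2, 41, 6, -15, -7⟩, (6, 23, 6)⟩) (by show Nat.Prime 37; norm_num) (by decide +kernel)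

/-- Lines of the first type. -/
noncomputable def Cl1 : List C1 := [⟨⟨23, -2, -64, 43, 22, 1, -6, 15, -1⟩, (31, 29, 8)⟩,
  ⟨⟨0, 0, 0, 0, 0, 0, 0, 0, 0⟩, (0, 0, 0)⟩,
  ⟨⟨-7, 22, -49, 27, 42, 4, 14, -7, -13⟩, (1, 12, 35)⟩,
  ⟨⟨-13, 38, -31, -47, -22, 16, 6, -9, -17⟩, (20, 4, 5)⟩,
  ⟨⟨0, 0, 0, 0, 0, 0, 0, 0, 0⟩, (0, 0, 0)⟩,
  ⟨⟨0, 0, 0, 0, 0, 0, 0, 0, 0⟩, (0, 0, 0)⟩,
  ⟨⟨7, 22, -56, -27, 42, 31, 14, 7, -1⟩, (18, 31, 36)⟩,
  ⟨⟨0, 0, 0, 0, 0, 0, 0, 0, 0⟩, (0, 0, 0)⟩,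
  ⟨⟨0, 0, 0, 0, 0, 0, 0, 0, 0⟩, (0, 0, 0)⟩,
  ⟨⟨13, -38, -44, -47, -22, 31, -6, 9, -11⟩, (18, 26, 23)⟩,
  ⟨⟨0, 0, 0, 0, 0, 0, 0, 0, 0⟩, (0, 0, 0)⟩,
  ⟨⟨0, 0, 0, 0, 0, 0, 0, 0, 0⟩, (0, 0, 0)⟩,
  ⟨⟨0, 0, 0, 0, 0, 0, 0, 0, 0⟩, (0, 0, 0)⟩,
  ⟨⟨0, 0, 0, 0, 0, 0, 0, 0, 0⟩, (0, 0, 0)⟩,
  ⟨⟨13, 38, -44, -47, 22, 31, -6, -9, -11⟩, (4, 14, 1)⟩,
  ⟨⟨0, 0, 0, 0, 0, 0, 0, 0, 0⟩, (0, 0, 0)⟩,
  ⟨⟨0, 0, 0, 0, 0, 0, 0, 0, 0⟩, (0, 0, 0)⟩,
  ⟨⟨0, 0, 0, 0, 0, 0, 0, 0, 0⟩, (0, 0, 0)⟩,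
  ⟨⟨0, 0, 0, 0, 0, 0, 0, 0, 0⟩, (0, 0, 0)⟩,
  ⟨⟨0, 0, 0, 0, 0, 0, 0, 0, 0⟩, (0, 0, 0)⟩,
  ⟨⟨0, 0, 0, 0, 0, 0, 0, 0, 0⟩, (0, 0, 0)⟩,
  ⟨⟨0, 0, 0, 0, 0, 0, 0, 0, 0⟩, (0, 0, 0)⟩,
  ⟨⟨0, 0, 0, 0, 0, 0, 0, 0, 0⟩, (0, 0, 0)⟩,
  ⟨⟨-7, -22, -49, 27, -42, 4, 14, 7, -13⟩, (13, 8, 11)⟩,
  ⟨⟨0, 0, 0, 0, 0, 0, 0, 0, 0⟩, (0, 0, 0)⟩,
  ⟨⟨0, 0, 0, 0, 0, 0, 0, 0, 0⟩, (0, 0, 0)⟩,
  ⟨⟨0, 0, 0, 0, 0, 0, 0, 0, 0⟩, (0, 0, 0)⟩,
  ⟨⟨0, 0, 0, 0, 0, 0, 0, 0, 0⟩, (0, 0, 0)⟩,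
  ⟨⟨23, 2, -64, 43, -22, 1, -6, -15, -1⟩, (3, 4, 33)⟩,
  ⟨⟨0, 0, 0, 0, 0, 0, 0, 0, 0⟩, (0, 0, 0)⟩,
  ⟨⟨0, 0, 0, 0, 0, 0, 0, 0, 0⟩, (0, 0, 0)⟩,
  ⟨⟨-13, -38, -31, -47, 22, 16, 6, 9, -17⟩, (34, 29, 27)⟩,
  ⟨⟨7, -22, -56, -27, -42, 31, 14, -7, -1⟩, (30, 27, 23)⟩,
  ⟨⟨0, 0, 0, 0, 0, 0, 0, 0, 0⟩, (0, 0, 0)⟩,
  ⟨⟨43, -22, -44, 23, 2, 41, 6, 15, -7⟩, (12, 9, 12)⟩,
  ⟨⟨0, 0, 0, 0, 0, 0, 0, 0, 0⟩, (0, 0, 0)⟩,
  ⟨⟨0, 0, 0, 0, 0, 0, 0, 0, 0⟩, (0, 0, 0)⟩]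

/-- Data of a prime. -/
noncomputable def Dm : PD := ⟨(nat_lit 53), (nat_lit 2), (2545, 8, 14), (2610, 800, 1557), (1968, 957, 2439)⟩

theorem Dm_ok : Dm.Ok := pdb_sound (s := 12) (C := ⟨⟨-13, 2, -76, -47, -58, 31, 18, -15, -13⟩, (40, 6, 18)⟩) (by show Nat.Prime 53; norm_num) (by decide +kernel)

/-- Lines of the first type. -/
noncomputable def Clm : List C1 := [⟨⟨13, -2, -89, -47, -58, 16, 18, -15, -5⟩, (17, 16, 48)⟩,
  ⟨⟨-23, 38, -56, 43, 58, 1, 18, -9, -23⟩, (9, 50, 16)⟩,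
  ⟨⟨-23, -38, -56, 43, -58, 1, 18, 9, -23⟩, (18, 47, 32)⟩,
  ⟨⟨-13, -2, -76, -47, 58, 31, 18, 15, -13⟩, (20, 3, 9)⟩,
  ⟨⟨0, 0, 0, 0, 0, 0, 0, 0, 0⟩, (0, 0, 0)⟩,
  ⟨⟨0, 0, 0, 0, 0, 0, 0, 0, 0⟩, (0, 0, 0)⟩,
  ⟨⟨0, 0, 0, 0, 0, 0, 0, 0, 0⟩, (0, 0, 0)⟩,
  ⟨⟨23, -38, -79, -43, -58, 44, -18, 9, -5⟩, (29, 8, 28)⟩,
  ⟨⟨33, -18, -89, 67, 2, 4, 2, 23, -7⟩, (12, 34, 20)⟩,
  ⟨⟨0, 0, 0, 0, 0, 0, 0, 0, 0⟩, (0, 0, 0)⟩,
  ⟨⟨0, 0, 0, 0, 0, 0, 0, 0, 0⟩, (0, 0, 0)⟩,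
  ⟨⟨0, 0, 0, 0, 0, 0, 0, 0, 0⟩, (0, 0, 0)⟩,
  ⟨⟨0, 0, 0, 0, 0, 0, 0, 0, 0⟩, (0, 0, 0)⟩,
  ⟨⟨27, 42, -76, 7, 58, 49, 22, -7, -5⟩, (1, 14, 44)⟩,
  ⟨⟨33, 18, -89, 67, -2, 4, 2, -23, -7⟩, (44, 1, 38)⟩,
  ⟨⟨0, 0, 0, 0, 0, 0, 0, 0, 0⟩, (0, 0, 0)⟩,
  ⟨⟨0, 0, 0, 0, 0, 0, 0, 0, 0⟩, (0, 0, 0)⟩,
  ⟨⟨0, 0, 0, 0, 0, 0, 0, 0, 0⟩, (0, 0, 0)⟩,
  ⟨⟨0, 0, 0, 0, 0, 0, 0, 0, 0⟩, (0, 0, 0)⟩,
  ⟨⟨57, 42, -56, -37, 62, 41, -10, 1, -19⟩, (20, 27, 3)⟩,
  ⟨⟨13, 2, -89, -47, 58, 16, 18, 15, -5⟩, (50, 19, 4)⟩,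
  ⟨⟨0, 0, 0, 0, 0, 0, 0, 0, 0⟩, (0, 0, 0)⟩,
  ⟨⟨0, 0, 0, 0, 0, 0, 0, 0, 0⟩, (0, 0, 0)⟩,
  ⟨⟨57, -42, -56, -37, -62, 41, -10, -1, -19⟩, (16, 11, 13)⟩,
  ⟨⟨0, 0, 0, 0, 0, 0, 0, 0, 0⟩, (0, 0, 0)⟩,
  ⟨⟨7, 58, -56, 27, 42, 49, 22, -7, -17⟩, (20, 9, 25)⟩,
  ⟨⟨0, 0, 0, 0, 0, 0, 0, 0, 0⟩, (0, 0, 0)⟩,
  ⟨⟨67, -2, -71, 33, 18, 56, -2, 23, -5⟩, (28, 13, 49)⟩,
  ⟨⟨0, 0, 0, 0, 0, 0, 0, 0, 0⟩, (0, 0, 0)⟩,
  ⟨⟨0, 0, 0, 0, 0, 0, 0, 0, 0⟩, (0, 0, 0)⟩,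
  ⟨⟨23, 38, -79, -43, 58, 44, -18, -9, -5⟩, (20, 11, 12)⟩,
  ⟨⟨0, 0, 0, 0, 0, 0, 0, 0, 0⟩, (0, 0, 0)⟩,
  ⟨⟨7, -58, -56, 27, -42, 49, 22, 7, -17⟩, (17, 5, 8)⟩,
  ⟨⟨0, 0, 0, 0, 0, 0, 0, 0, 0⟩, (0, 0, 0)⟩,
  ⟨⟨67, 2, -71, 33, -18, 56, -2, -23, -5⟩, (8, 34, 14)⟩,
  ⟨⟨27, -42, -76, 7, -58, 49, 22, 7, -5⟩, (50, 11, 27)⟩,
  ⟨⟨0, 0, 0, 0, 0, 0, 0, 0, 0⟩, (0, 0, 0)⟩,
  ⟨⟨0, 0, 0, 0, 0, 0, 0, 0, 0⟩, (0, 0, 0)⟩,
  ⟨⟨0, 0, 0, 0, 0, 0, 0, 0, 0⟩, (0, 0, 0)⟩,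
  ⟨⟨0, 0, 0, 0, 0, 0, 0, 0, 0⟩, (0, 0, 0)⟩,
  ⟨⟨0, 0, 0, 0, 0, 0, 0, 0, 0⟩, (0, 0, 0)⟩,
  ⟨⟨0, 0, 0, 0, 0, 0, 0, 0, 0⟩, (0, 0, 0)⟩,
  ⟨⟨0, 0, 0, 0, 0, 0, 0, 0, 0⟩, (0, 0, 0)⟩,
  ⟨⟨0, 0, 0, 0, 0, 0, 0, 0, 0⟩, (0, 0, 0)⟩,
  ⟨⟨0, 0, 0, 0, 0, 0, 0, 0, 0⟩, (0, 0, 0)⟩,
  ⟨⟨-37, 62, -4, -57, -42, 1, 10, -1, -29⟩, (22, 21, 27)⟩,
  ⟨⟨0, 0, 0, 0, 0, 0, 0, 0, 0⟩, (0, 0, 0)⟩,
  ⟨⟨0, 0, 0, 0, 0, 0, 0, 0, 0⟩, (0, 0, 0)⟩,
  ⟨⟨0, 0, 0, 0, 0, 0, 0, 0, 0⟩, (0, 0, 0)⟩,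
  ⟨⟨0, 0, 0, 0, 0, 0, 0, 0, 0⟩, (0, 0, 0)⟩,
  ⟨⟨0, 0, 0, 0, 0, 0, 0, 0, 0⟩, (0, 0, 0)⟩,
  ⟨⟨-37, -62, -4, -57, 42, 1, 10, 1, -29⟩, (6, 25, 17)⟩,
  ⟨⟨0, 0, 0, 0, 0, 0, 0, 0, 0⟩, (0, 0, 0)⟩]

/-- Unit moves. -/
noncomputable def U : List Mv := [mz,
  mz,
  mz,
  mz,
  mz,
  ⟨⟨-1, 0, 1, 0, 1, 0, 0, 0, 1⟩, .nil, (nat_lit 18), (nat_lit 9), (nat_lit 4), (nat_lit 1), (0, 0, 0), [], 18⟩,
  ⟨⟨-1, 0, 1, 0, -1, 0, 0, 0, 1⟩, .nil, (nat_lit 0), (nat_lit 12), (nat_lit 1), (nat_lit 0), (0, 0, 0), [], 7⟩,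
  mz,
  mz,
  mz,
  ⟨⟨1, 0, 0, 0, -1, 0, 0, 0, 1⟩, .nil, (nat_lit 18), (nat_lit 14), (nat_lit 2), (nat_lit 1), (0, 0, 0), [], 10⟩,
  ⟨⟨-1, 0, 1, 0, -1, 0, 0, 0, 1⟩, .nil, (nat_lit 0), (nat_lit 12), (nat_lit 1), (nat_lit 0), (0, 0, 0), [], 7⟩,
  ⟨⟨-1, 0, 1, 0, -1, 0, 0, 0, 1⟩, .nil, (nat_lit 0), (nat_lit 12), (nat_lit 1), (nat_lit 0), (0, 0, 0), [], 7⟩,
  ⟨⟨-1, 0, 1, 0, 1, 0, 0, 0, 1⟩, .nil, (nat_lit 18), (nat_lit 9), (nat_lit 4), (nat_lit 1), (0, 0, 0), [], 18⟩,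
  mz,
  ⟨⟨-1, 0, 1, 0, 1, 0, 0, 0, 1⟩, .nil, (nat_lit 18), (nat_lit 9), (nat_lit 4), (nat_lit 1), (0, 0, 0), [], 18⟩,
  ⟨⟨1, 0, 0, 0, -1, 0, 0, 0, 1⟩, .nil, (nat_lit 18), (nat_lit 14), (nat_lit 2), (nat_lit 1), (0, 0, 0), [], 10⟩,
  ⟨⟨1, 0, 0, 0, -1, 0, 0, 0, 1⟩, .nil, (nat_lit 18), (nat_lit 14), (nat_lit 2), (nat_lit 1), (0, 0, 0), [], 10⟩,
  mz]

theorem v_ty : tyb Dm S.ty1 Clm = true := by decide +kernel

theorem v_ty0 : tyb D0 (S.tys.getD 0 0) Cl0 = true := by decide +kernel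

theorem v_ty1 : tyb D1 (S.tys.getD 1 0) Cl1 = true := by decide +kernel

theorem v_msc : mscb S D0 [D1] Dm (nat_lit 262) = true := by decide +kernel

theorem v_mv0 : mvsn (nat_lit 26376428539) S D0 [D1] Dm (nat_lit 262) 0 D0 = true := by decide +kernel

theorem v_mv1 : mvsn (nat_lit 26376428539) S D0 [D1] Dm (nat_lit 262) 1 D1 = true := by decide +kernel

theorem v_mm : mmsn (nat_lit 26376428539) S D0 [D1] Dm (nat_lit 262) = true := by decide +kernel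

theorem v_un : unb S D0 (nat_lit 262) U = true := by decide +kernel

theorem v_ok : okb S.oks [(0, 0, 0), (0, 0, 0), (0, 3, 0), (4, 5, 4), (0, 0, 0)] = true := by decide +kernel

theorem v_part : ∀ d < D0.p, (nat_lit 262).testBit d = true → part S (zc (D0 :: [D1])) d = true := by
  intro d hd h
  have h1 : ∀ d < 19, (nat_lit 262).testBit d = true → d = 1 ∨ d = 2 ∨ d = 8 := by decide
  rcases h1 d hd h with rfl | rfl | rfl
  · exact part_1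
  · exact part_2
  · exact part_8

theorem main (n : ℕ) (ho : Odd n) (hr : ¬ Rep n) (h0 : Split 19 n) (h1 : Split 37 n) (hm : Split 53 n) :
    n ∈ EE := by
  refine concln (W := nat_lit 26376428539) (S := S) (P0 := D0) (Pl := [D1]) (Pm := Dm) (cn := nat_lit 262) ?_ Dm_ok v_ty ?_ ?_ v_msc ?_ v_mm v_un v_part v_ok
    n ho hr ?_ hm
  · simp only [List.forall_mem_cons]
    exact ⟨D0_ok, D1_ok, fun _ h => absurd h (by simp)⟩
  · exact all2 (φ := fun j P => ∃ L, tyb P (S.tys.getD j 0) L = true) ⟨_, v_ty0⟩ ⟨_, v_ty1⟩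
  · exact all2 (φ := fun j P => Nat.ble (S.pks.getD j 0) (Nat.pow P.p P.K) = true) (by decide +kernel) (by decide +kernel)
  · exact all2 (φ := fun i P => mvsn (nat_lit 26376428539) S D0 [D1] Dm (nat_lit 262) i P = true) v_mv0 v_mv1
  · simp only [List.forall_mem_cons]
    exact ⟨h0, h1, fun _ h => absurd h (by simp)⟩

end Pool.Agent.Work.MP_9954fe_nt.P19_37_53

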