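import Pool.Agent.Work.MP_9954fe_nt.Fast

/-!
Certificates for the sets {7, 17}, {7, 31, 37}, {13, 47, 71}, {17, 71}, {19, 31, 53}, {19, 31, 71}, {19, 47, 71} of split primes.
-/

set_option autoImplicit false
set_option linter.all false
set_option maxRecDepth 100000

namespace Pool.Agent.Work.MP_9954fe_nt.P7_17

/-- Dummy move. -/
noncomputable def mz : Mv := ⟨⟨0, 0, 0, 0, 0, 0, 0, 0, 0⟩, .nil, (nat_lit 0), (nat_lit 0), (nat_lit 0), (nat_lit 0), (0, 0, 0), [], 0⟩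

/-- Moves. -/
noncomputable def t0_1 : List Mv := [
  ⟨⟨-3, 4, -5, 2, -5, -6, 4, 4, -5⟩, (.cons (nat_lit 4652) (nat_lit 10193) (nat_lit 10624) (nat_lit 1) .nil), (nat_lit 4), (nat_lit 4), (nat_lit 2), (nat_lit 1), (3, 5, 3), [15086], 11⟩,
  ⟨⟨-3, 4, -5, -2, 5, 6, 4, 4, -5⟩, (.cons (nat_lit 10923) (nat_lit 11447) (nat_lit 14718) (nat_lit 1) .nil), (nat_lit 14), (nat_lit 2), (nat_lit 12), (nat_lit 1), (3, 2, 3), [7345], 15⟩,
  ⟨⟨7, 0, 0, 2, -5, -6, 4, 4, -5⟩, (.cons (nat_lit 15956) (nat_lit 2610) (nat_lit 10288) (nat_lit 1) .nil), (nat_lit 5), (nat_lit 16), (nat_lit 7), (nat_lit 1), (0, 5, 3), [5055], 16⟩,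
  ⟨⟨-3, 4, -5, 2, -5, -6, 4, 4, -5⟩, (.cons (nat_lit 4652) (nat_lit 10193) (nat_lit 10624) (nat_lit 1) .nil), (nat_lit 4), (nat_lit 4), (nat_lit 2), (nat_lit 1), (3, 5, 3), [15086], 11⟩,
  ⟨⟨-3, 4, -5, 2, -5, -6, 4, 4, -5⟩, (.cons (nat_lit 4652) (nat_lit 10193) (nat_lit 10624) (nat_lit 1) .nil), (nat_lit 4), (nat_lit 4), (nat_lit 2), (nat_lit 1), (3, 5, 3), [15086], 11⟩,
  ⟨⟨-3, 4, -5, 2, -5, -6, 4, 4, -5⟩, (.cons (nat_lit 4652) (nat_lit 10193) (nat_lit 10624) (nat_lit 1) .nil), (nat_lit 4), (nat_lit 4), (nat_lit 2), (nat_lit 1), (3, 5, 3), [15086], 11⟩,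
  ⟨⟨7, 0, 0, 2, -5, -6, 4, 4, -5⟩, (.cons (nat_lit 15956) (nat_lit 2610) (nat_lit 10288) (nat_lit 1) .nil), (nat_lit 5), (nat_lit 16), (nat_lit 7), (nat_lit 1), (0, 5, 3), [5055], 16⟩]

/-- Moves. -/
noncomputable def t0_3 : List Mv := [
  ⟨⟨1, 0, -9, 0, -7, 0, 6, 0, -5⟩, (.cons (nat_lit 12494) (nat_lit 3410) (nat_lit 2889) (nat_lit 1) .nil), (nat_lit 7), (nat_lit 6), (nat_lit 3), (nat_lit 1), (2, 0, 5), [6901], 9⟩,
  ⟨⟨1, 0, -9, 0, -7, 0, 6, 0, -5⟩, (.cons (nat_lit 12494) (nat_lit 3410) (nat_lit 2889) (nat_lit 1) .nil), (nat_lit 7), (nat_lit 6), (nat_lit 3), (nat_lit 1), (2, 0, 5), [6901], 9⟩,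
  ⟨⟨5, 0, 4, 0, 7, 0, 6, 0, -5⟩, (.cons (nat_lit 9804) (nat_lit 15111) (nat_lit 14475) (nat_lit 1) .nil), (nat_lit 16), (nat_lit 11), (nat_lit 4), (nat_lit 1), (3, 0, 5), [12430], 9⟩,
  ⟨⟨5, 0, 4, 0, -7, 0, 6, 0, -5⟩, (.cons (nat_lit 9031) (nat_lit 7629) (nat_lit 8615) (nat_lit 1) .nil), (nat_lit 16), (nat_lit 3), (nat_lit 8), (nat_lit 1), (3, 0, 5), [566], 12⟩,
  ⟨⟨1, 0, -9, 0, -7, 0, 6, 0, -5⟩, (.cons (nat_lit 12494) (nat_lit 3410) (nat_lit 2889) (nat_lit 1) .nil), (nat_lit 7), (nat_lit 6), (nat_lit 3), (nat_lit 1), (2, 0, 5), [6901], 9⟩,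
  ⟨⟨1, 0, -9, 0, 7, 0, 6, 0, -5⟩, (.cons (nat_lit 1599) (nat_lit 9921) (nat_lit 14902) (nat_lit 1) .nil), (nat_lit 6), (nat_lit 5), (nat_lit 11), (nat_lit 1), (2, 0, 5), [10036], 14⟩,
  ⟨⟨1, 0, -9, 0, -7, 0, 6, 0, -5⟩, (.cons (nat_lit 12494) (nat_lit 3410) (nat_lit 2889) (nat_lit 1) .nil), (nat_lit 7), (nat_lit 6), (nat_lit 3), (nat_lit 1), (2, 0, 5), [6901], 9⟩]

/-- Moves. -/
noncomputable def t4_1 : List Mv := [
  mz,
  mz,
  mz,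
  ⟨⟨-3, 8, -17, 10, 13, 0, 10, -4, -17⟩, (.cons (nat_lit 16378) (nat_lit 8035) (nat_lit 13667) (nat_lit 1) .nil), (nat_lit 5), (nat_lit 0), (nat_lit 0), (nat_lit 0), (7, 5, 5), [3174], 0⟩,
  mz,
  ⟨⟨-13, 12, 13, 10, 13, -10, -10, 4, -7⟩, (.cons (nat_lit 6856) (nat_lit 5386) (nat_lit 14880) (nat_lit 1) .nil), (nat_lit 3), (nat_lit 0), (nat_lit 0), (nat_lit 0), (8, 3, 14), [15798], 0⟩,
  ⟨⟨3, 8, -20, 10, -13, -10, -10, -4, -7⟩, (.cons (nat_lit 16806) (nat_lit 15482) (nat_lit 13291) (nat_lit 1) .nil), (nat_lit 6), (nat_lit 0), (nat_lit 0), (nat_lit 0), (15, 16, 1), [13474], 0⟩,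
  ⟨⟨15, -8, -16, 8, 15, -4, 0, 0, -17⟩, (.cons (nat_lit 9276) (nat_lit 5189) (nat_lit 7202) (nat_lit 1) .nil), (nat_lit 10), (nat_lit 0), (nat_lit 0), (nat_lit 0), (7, 6, 0), [15804], 0⟩,
  mz,
  ⟨⟨9, -16, -1, 10, 3, -20, -6, -12, -5⟩, (.cons (nat_lit 4089) (nat_lit 5234) (nat_lit 1237) (nat_lit 1) .nil), (nat_lit 14), (nat_lit 0), (nat_lit 0), (nat_lit 0), (2, 6, 10), [11265], 0⟩,
  ⟨⟨15, 8, -16, 8, -15, -4, 0, 0, -17⟩, (.cons (nat_lit 16806) (nat_lit 9974) (nat_lit 1942) (nat_lit 1) .nil), (nat_lit 10), (nat_lit 0), (nat_lit 0), (nat_lit 0), (16, 4, 0), [1091], 0⟩,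
  ⟨⟨13, 12, 0, -10, 13, 0, 10, 4, -17⟩, (.cons (nat_lit 6178) (nat_lit 1606) (nat_lit 240) (nat_lit 1) .nil), (nat_lit 3), (nat_lit 0), (nat_lit 0), (nat_lit 0), (3, 16, 1), [10373], 0⟩,
  ⟨⟨9, 16, -1, 10, -3, -20, -6, 12, -5⟩, (.cons (nat_lit 2055) (nat_lit 9726) (nat_lit 4478) (nat_lit 1) .nil), (nat_lit 14), (nat_lit 0), (nat_lit 0), (nat_lit 0), (3, 9, 15), [15423], 0⟩,
  ⟨⟨-9, 16, 8, 10, 3, 10, 6, 12, -11⟩, (.cons (nat_lit 16806) (nat_lit 16320) (nat_lit 9374) (nat_lit 1) .nil), (nat_lit 13), (nat_lit 0), (nat_lit 0), (nat_lit 0), (13, 12, 14), [9410], 0⟩,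
  ⟨⟨15, 4, -19, -10, 3, -10, 6, -12, -11⟩, (.cons (nat_lit 16248) (nat_lit 1388) (nat_lit 2396) (nat_lit 1) .nil), (nat_lit 9), (nat_lit 0), (nat_lit 0), (nat_lit 0), (14, 2, 9), [6771], 0⟩]

/-- Moves. -/
noncomputable def t4_3 : List Mv := [
  mz,
  mz,
  mz,
  ⟨⟨13, -12, 0, -10, -13, 0, 10, -4, -17⟩, (.cons (nat_lit 16806) (nat_lit 16123) (nat_lit 5077) (nat_lit 1) .nil), (nat_lit 3), (nat_lit 0), (nat_lit 0), (nat_lit 0), (15, 12, 5), [9155], 0⟩,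
  mz,
  ⟨⟨3, -8, -20, 10, 13, -10, -10, 4, -7⟩, (.cons (nat_lit 9013) (nat_lit 8047) (nat_lit 3400) (nat_lit 1) .nil), (nat_lit 6), (nat_lit 0), (nat_lit 0), (nat_lit 0), (6, 3, 14), [14531], 0⟩,
  ⟨⟨3, 8, -20, 10, -13, -10, -10, -4, -7⟩, (.cons (nat_lit 16806) (nat_lit 15482) (nat_lit 13291) (nat_lit 1) .nil), (nat_lit 6), (nat_lit 0), (nat_lit 0), (nat_lit 0), (15, 16, 1), [13474], 0⟩,
  ⟨⟨15, -8, -16, 8, 15, -4, 0, 0, -17⟩, (.cons (nat_lit 9276) (nat_lit 5189) (nat_lit 7202) (nat_lit 1) .nil), (nat_lit 10), (nat_lit 0), (nat_lit 0), (nat_lit 0), (7, 6, 0), [15804], 0⟩,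
  mz,
  ⟨⟨-15, 4, -4, 10, 3, -20, -6, -12, -5⟩, (.cons (nat_lit 16806) (nat_lit 10439) (nat_lit 13753) (nat_lit 1) .nil), (nat_lit 9), (nat_lit 0), (nat_lit 0), (nat_lit 0), (8, 6, 10), [13463], 0⟩,
  ⟨⟨15, 8, -16, 8, -15, -4, 0, 0, -17⟩, (.cons (nat_lit 16806) (nat_lit 9974) (nat_lit 1942) (nat_lit 1) .nil), (nat_lit 10), (nat_lit 0), (nat_lit 0), (nat_lit 0), (16, 4, 0), [1091], 0⟩,
  ⟨⟨13, 12, 0, -10, 13, 0, 10, 4, -17⟩, (.cons (nat_lit 6178) (nat_lit 1606) (nat_lit 240) (nat_lit 1) .nil), (nat_lit 3), (nat_lit 0), (nat_lit 0), (nat_lit 0), (3, 16, 1), [10373], 0⟩,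
  ⟨⟨-15, -4, -4, 10, -3, -20, -6, 12, -5⟩, (.cons (nat_lit 8550) (nat_lit 1845) (nat_lit 4849) (nat_lit 1) .nil), (nat_lit 9), (nat_lit 0), (nat_lit 0), (nat_lit 0), (12, 9, 15), [8255], 0⟩,
  ⟨⟨-9, 16, 8, -10, -3, -10, 6, 12, -11⟩, (.cons (nat_lit 990) (nat_lit 16110) (nat_lit 13190) (nat_lit 1) .nil), (nat_lit 14), (nat_lit 0), (nat_lit 0), (nat_lit 0), (13, 5, 14), [16767], 0⟩,
  ⟨⟨-9, -16, 8, -10, 3, -10, 6, -12, -11⟩, (.cons (nat_lit 16806) (nat_lit 5661) (nat_lit 12217) (nat_lit 1) .nil), (nat_lit 14), (nat_lit 0), (nat_lit 0), (nat_lit 0), (12, 2, 9), [6239], 0⟩]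

/-- All the moves. -/
noncomputable def tabs : List (List (List Mv)) := [[[], t0_1, [], t0_3], [], [], [], [[], t4_1, [], t4_3]]

/-- Subtrie. -/
noncomputable def T1 : Tr := (.ev (nat_lit 20) (nat_lit 6272) (.nd (nat_lit 32) (.br (nat_lit 2) (.br (nat_lit
 1) (.ch (nat_lit 0) (.ev (nat_lit 48) (nat_lit 1032) (.nd (nat_lit 64) (.br (nat_lit 4) (.br (nat_lit 1) (.ch
 (nat_lit 0) (.ev (nat_lit 80) (nat_lit 576) (.ev (nat_lit 164) (nat_lit 32) (.nd (nat_lit 320) (.br (nat_lit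
 5) (.br (nat_lit 4) (.ch (nat_lit 0) (.ev (nat_lit 336) (nat_lit 24576) .dd)) (.ch (nat_lit 4) (.nd (nat_lit
 704) (.br (nat_lit 3) (.ch (nat_lit 2) (.ev (nat_lit 720) (nat_lit 8192) (.ev (nat_lit 733) (nat_lit 16384)
 .dd))) (.ch (nat_lit 3) (.fin (nat_lit 576447008409600572))))))) (.br (nat_lit 6) (.ch (nat_lit 5) (.ev
 (nat_lit 336) (nat_lit 24576) .dd)) (.ch (nat_lit 6) (.ev (nat_lit 336) (nat_lit 16384) (.ev (nat_lit 349)
 (nat_lit 8192) .dd))))))))) (.ch (nat_lit 1) (.ev (nat_lit 80) (nat_lit 16384) (.ev (nat_lit 212) (nat_lit 64)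
 (.nd (nat_lit 240) (.br (nat_lit 3) (.br (nat_lit 2) (.ch (nat_lit 0) (.ev (nat_lit 256) (nat_lit 8704) (.ev
 (nat_lit 269) (nat_lit 32) .dd))) (.ch (nat_lit 2) (.ev (nat_lit 256) (nat_lit 8192) (.nd (nat_lit 672) (.br
 (nat_lit 6) (.ch (nat_lit 1) (.fin (nat_lit 576468998652641867))) (.ch (nat_lit 6) (.ev (nat_lit 688) (nat_lit
 32) (.ev (nat_lit 701) (nat_lit 512) .dd)))))))) (.br (nat_lit 5) (.ch (nat_lit 3) (.ev (nat_lit 272) (nat_lit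
 512) (.fin (nat_lit 576448107913888312)))) (.ch (nat_lit 5) (.ev (nat_lit 256) (nat_lit 544) (.ev (nat_lit
 269) (nat_lit 8192) .dd)))))))))) (.br (nat_lit 5) (.ch (nat_lit 4) (.ev (nat_lit 80) (nat_lit 24640) (.nd
 (nat_lit 240) (.br (nat_lit 5) (.ch (nat_lit 4) (.ev (nat_lit 292) (nat_lit 32) (.ev (nat_lit 301) (nat_lit
 512) .dd))) (.br (nat_lit 6) (.ch (nat_lit 5) (.ev (nat_lit 256) (nat_lit 544) .dd)) (.ch (nat_lit 6) (.ev
 (nat_lit 256) (nat_lit 32) (.ev (nat_lit 269) (nat_lit 512) .dd)))))))) (.br (nat_lit 6) (.ch (nat_lit 5) (.ev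
 (nat_lit 80) (nat_lit 544) (.ev (nat_lit 308) (nat_lit 16384) (.nd (nat_lit 320) (.br (nat_lit 3) (.br
 (nat_lit 2) (.ch (nat_lit 1) (.ev (nat_lit 336) (nat_lit 64) (.ev (nat_lit 349) (nat_lit 8192) .dd))) (.ch
 (nat_lit 2) (.ev (nat_lit 484) (nat_lit 8192) (.ev (nat_lit 493) (nat_lit 64) .dd)))) (.br (nat_lit 4) (.ch
 (nat_lit 3) (.ev (nat_lit 336) (nat_lit 8192) (.ev (nat_lit 349) (nat_lit 64) .dd))) (.ch (nat_lit 4) (.ev
 (nat_lit 336) (nat_lit 64) (.ev (nat_lit 349) (nat_lit 8192) .dd))))))))) (.ch (nat_lit 6) (.ev (nat_lit 80)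
 (nat_lit 8224) (.nd (nat_lit 368) (.br (nat_lit 3) (.br (nat_lit 1) (.ch (nat_lit 0) (.ev (nat_lit 384)
 (nat_lit 64) (.fin (nat_lit 576456904011104830)))) (.ch (nat_lit 1) (.ev (nat_lit 384) (nat_lit 16896) (.ev
 (nat_lit 397) (nat_lit 64) .dd)))) (.br (nat_lit 5) (.ch (nat_lit 3) (.ev (nat_lit 384) (nat_lit 16448) (.ev
 (nat_lit 397) (nat_lit 512) .dd))) (.ch (nat_lit 5) (.ev (nat_lit 384) (nat_lit 512) (.ev (nat_lit 404)
 (nat_lit 16384) (.ev (nat_lit 413) (nat_lit 64) .dd))))))))))))))) (.ch (nat_lit 1) (.ev (nat_lit 48) (nat_lit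
 8768) (.nd (nat_lit 64) (.br (nat_lit 3) (.br (nat_lit 1) (.ch (nat_lit 0) (.ev (nat_lit 80) (nat_lit 8) (.nd
 (nat_lit 240) (.br (nat_lit 4) (.ch (nat_lit 1) (.ev (nat_lit 256) (nat_lit 16416) (.ev (nat_lit 269) (nat_lit
 1024) .dd))) (.br (nat_lit 6) (.ch (nat_lit 4) (.ev (nat_lit 356) (nat_lit 32) (.nd (nat_lit 672) (.br
 (nat_lit 6) (.ch (nat_lit 4) (.ev (nat_lit 688) (nat_lit 16384) (.ev (nat_lit 701) (nat_lit 1024) .dd))) (.ch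
 (nat_lit 6) (.fin (nat_lit 576481093264818741))))))) (.ch (nat_lit 6) (.ev (nat_lit 256) (nat_lit 1024) (.ev
 (nat_lit 356) (nat_lit 32) (.ev (nat_lit 365) (nat_lit 16384) .dd))))))))) (.ch (nat_lit 1) (.ev (nat_lit 80)
 (nat_lit 1024) (.nd (nat_lit 320) (.br (nat_lit 4) (.br (nat_lit 2) (.ch (nat_lit 1) (.ev (nat_lit 336)
 (nat_lit 16416) (.ev (nat_lit 349) (nat_lit 8) .dd))) (.ch (nat_lit 2) (.ev (nat_lit 336) (nat_lit 40) (.ev
 (nat_lit 349) (nat_lit 16384) .dd)))) (.br (nat_lit 6) (.ch (nat_lit 4) (.ev (nat_lit 416) (nat_lit 16384)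
 (.fin (nat_lit 576461302055518782)))) (.ch (nat_lit 6) (.ev (nat_lit 336) (nat_lit 16392) (.ev (nat_lit 349)
 (nat_lit 32) .dd))))))))) (.br (nat_lit 5) (.ch (nat_lit 3) (.ev (nat_lit 80) (nat_lit 16392) (.nd (nat_lit
 368) (.br (nat_lit 5) (.br (nat_lit 2) (.ch (nat_lit 1) (.ev (nat_lit 404) (nat_lit 32) (.ev (nat_lit 413)
 (nat_lit 1024) .dd))) (.ch (nat_lit 2) (.fin (nat_lit 576460202555425342)))) (.br (nat_lit 6) (.ch (nat_lit 5)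
 (.ev (nat_lit 384) (nat_lit 1056) .dd)) (.ch (nat_lit 6) (.ev (nat_lit 384) (nat_lit 1024) (.ev (nat_lit 397)
 (nat_lit 32) .dd)))))))) (.br (nat_lit 6) (.ch (nat_lit 5) (.ev (nat_lit 80) (nat_lit 1056) (.nd (nat_lit 320)
 (.br (nat_lit 4) (.br (nat_lit 2) (.ch (nat_lit 0) (.ev (nat_lit 336) (nat_lit 8) (.ev (nat_lit 349) (nat_lit
 16384) .dd))) (.ch (nat_lit 2) (.ev (nat_lit 336) (nat_lit 16384) (.ev (nat_lit 349) (nat_lit 8) .dd)))) (.br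
 (nat_lit 5) (.ch (nat_lit 4) (.fin (nat_lit 576464600599839301))) (.ch (nat_lit 5) (.ev (nat_lit 356) (nat_lit
 16384) (.ev (nat_lit 365) (nat_lit 8) .dd)))))))) (.ch (nat_lit 6) (.ev (nat_lit 80) (nat_lit 16416) (.nd
 (nat_lit 320) (.br (nat_lit 4) (.br (nat_lit 1) (.ch (nat_lit 0) (.ev (nat_lit 336) (nat_lit 8) (.ev (nat_lit
 349) (nat_lit 1024) .dd))) (.ch (nat_lit 1) (.ev (nat_lit 336) (nat_lit 1024) (.ev (nat_lit 349) (nat_lit 8)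
 .dd)))) (.br (nat_lit 5) (.ch (nat_lit 4) (.ev (nat_lit 336) (nat_lit 1032) .dd)) (.ch (nat_lit 5) (.ev
 (nat_lit 336) (nat_lit 1024) (.ev (nat_lit 349) (nat_lit 8) .dd))))))))))))))) (.br (nat_lit 3) (.ch (nat_lit
 2) (.ev (nat_lit 48) (nat_lit 24584) (.nd (nat_lit 96) (.br (nat_lit 4) (.br (nat_lit 1) (.ch (nat_lit 0) (.ev
 (nat_lit 112) (nat_lit 1056) (.nd (nat_lit 320) (.br (nat_lit 2) (.br (nat_lit 1) (.ch (nat_lit 0) (.fin
 (nat_lit 576464600599839294))) (.ch (nat_lit 1) (.ev (nat_lit 336) (nat_lit 512) (.ev (nat_lit 349) (nat_lit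
 64) .dd)))) (.br (nat_lit 6) (.ch (nat_lit 2) (.ev (nat_lit 336) (nat_lit 64) (.ev (nat_lit 349) (nat_lit 512)
 .dd))) (.ch (nat_lit 6) (.ev (nat_lit 356) (nat_lit 512) (.ev (nat_lit 365) (nat_lit 64) .dd)))))))) (.ch
 (nat_lit 1) (.ev (nat_lit 112) (nat_lit 576) (.ev (nat_lit 212) (nat_lit 1024) (.ev (nat_lit 221) (nat_lit 32)
 .dd))))) (.br (nat_lit 5) (.ch (nat_lit 4) (.ev (nat_lit 112) (nat_lit 1024) (.nd (nat_lit 368) (.br (nat_lit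
 3) (.br (nat_lit 2) (.ch (nat_lit 1) (.ev (nat_lit 384) (nat_lit 576) (.ev (nat_lit 397) (nat_lit 32) .dd)))
 (.ch (nat_lit 2) (.ev (nat_lit 384) (nat_lit 512) (.nd (nat_lit 704) (.br (nat_lit 5) (.ch (nat_lit 1) (.ev
 (nat_lit 720) (nat_lit 32) (.ev (nat_lit 733) (nat_lit 64) .dd))) (.ch (nat_lit 5) (.fin (nat_lit
 576451406456111688)))))))) (.br (nat_lit 6) (.ch (nat_lit 3) (.ev (nat_lit 384) (nat_lit 32) (.ev (nat_lit
 404) (nat_lit 512) (.ev (nat_lit 413) (nat_lit 64) .dd)))) (.ch (nat_lit 6) (.ev (nat_lit 496) (nat_lit 64)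
 (.fin (nat_lit 576474496205537887))))))))) (.br (nat_lit 6) (.ch (nat_lit 5) (.ev (nat_lit 112) (nat_lit 512)
 (.nd (nat_lit 368) (.br (nat_lit 2) (.br (nat_lit 1) (.ch (nat_lit 0) (.ev (nat_lit 384) (nat_lit 1024) (.ev
 (nat_lit 436) (nat_lit 32) (.ev (nat_lit 445) (nat_lit 64) .dd)))) (.ch (nat_lit 1) (.ev (nat_lit 384)
 (nat_lit 96) (.ev (nat_lit 397) (nat_lit 1024) .dd)))) (.br (nat_lit 6) (.ch (nat_lit 2) (.ev (nat_lit 404)
 (nat_lit 32) (.nd (nat_lit 704) (.br (nat_lit 1) (.ch (nat_lit 0) (.ev (nat_lit 720) (nat_lit 1024) (.ev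
 (nat_lit 733) (nat_lit 64) .dd))) (.ch (nat_lit 1) (.fin (nat_lit 576458003515392577))))))) (.ch (nat_lit 6)
 (.ev (nat_lit 384) (nat_lit 64) (.ev (nat_lit 788) (nat_lit 32) (.ev (nat_lit 797) (nat_lit 1024) .dd)))))))))
 (.ch (nat_lit 6) (.ev (nat_lit 112) (nat_lit 96) (.nd (nat_lit 240) (.br (nat_lit 6) (.ch (nat_lit 3) (.ev
 (nat_lit 516) (nat_lit 1024) (.ev (nat_lit 525) (nat_lit 512) .dd))) (.ch (nat_lit 6) (.ev (nat_lit 356)
 (nat_lit 512) (.ev (nat_lit 365) (nat_lit 1024) .dd))))))))))))) (.br (nat_lit 6) (.ch (nat_lit 3) (.ev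
 (nat_lit 48) (nat_lit 1568) (.nd (nat_lit 96) (.br (nat_lit 3) (.br (nat_lit 1) (.ch (nat_lit 0) (.ev (nat_lit
 112) (nat_lit 16448) (.nd (nat_lit 368) (.br (nat_lit 2) (.br (nat_lit 1) (.ch (nat_lit 0) (.ev (nat_lit 384)
 (nat_lit 8) (.ev (nat_lit 397) (nat_lit 8192) .dd))) (.ch (nat_lit 1) (.ev (nat_lit 384) (nat_lit 8192) (.ev
 (nat_lit 397) (nat_lit 8) .dd)))) (.br (nat_lit 4) (.ch (nat_lit 2) (.nd (nat_lit 736) (.br (nat_lit 6) (.ch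
 (nat_lit 0) (.ev (nat_lit 752) (nat_lit 8) (.ev (nat_lit 765) (nat_lit 8192) .dd))) (.ch (nat_lit 6) (.ev
 (nat_lit 752) (nat_lit 8192) (.ev (nat_lit 765) (nat_lit 8) .dd)))))) (.ch (nat_lit 4) (.ev (nat_lit 404)
 (nat_lit 8192) (.ev (nat_lit 413) (nat_lit 8) .dd)))))))) (.ch (nat_lit 1) (.ev (nat_lit 112) (nat_lit 16392)
 (.ev (nat_lit 212) (nat_lit 64) (.ev (nat_lit 221) (nat_lit 8192) .dd))))) (.br (nat_lit 5) (.ch (nat_lit 3)
 (.ev (nat_lit 112) (nat_lit 8264) (.ev (nat_lit 125) (nat_lit 16384) .dd))) (.br (nat_lit 6) (.ch (nat_lit 5)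
 (.ev (nat_lit 112) (nat_lit 8192) (.nd (nat_lit 448) (.br (nat_lit 4) (.br (nat_lit 2) (.ch (nat_lit 0) (.nd
 (nat_lit 736) (.br (nat_lit 3) (.ch (nat_lit 1) (.ev (nat_lit 752) (nat_lit 72) (.ev (nat_lit 765) (nat_lit
 16384) .dd))) (.ch (nat_lit 3) (.ev (nat_lit 752) (nat_lit 16384) (.fin (nat_lit 576437112820679221)))))))
 (.ch (nat_lit 2) (.ev (nat_lit 464) (nat_lit 8) (.ev (nat_lit 580) (nat_lit 16384) (.ev (nat_lit 589) (nat_lit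
 64) .dd))))) (.br (nat_lit 6) (.ch (nat_lit 4) (.ev (nat_lit 464) (nat_lit 16448) (.ev (nat_lit 477) (nat_lit
 8) .dd))) (.ch (nat_lit 6) (.ev (nat_lit 464) (nat_lit 64) (.fin (nat_lit 576460202559619635))))))))) (.ch
 (nat_lit 6) (.ev (nat_lit 228) (nat_lit 8200) (.nd (nat_lit 448) (.br (nat_lit 5) (.br (nat_lit 3) (.ch
 (nat_lit 0) (.fin (nat_lit 576448107928568376))) (.ch (nat_lit 3) (.ev (nat_lit 464) (nat_lit 16448) .dd)))
 (.br (nat_lit 6) (.ch (nat_lit 5) (.ev (nat_lit 464) (nat_lit 16384) (.ev (nat_lit 477) (nat_lit 64) .dd)))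
 (.ch (nat_lit 6) (.ev (nat_lit 484) (nat_lit 16384) (.ev (nat_lit 493) (nat_lit 64) .dd)))))))))))))) (.ch
 (nat_lit 6) (.ev (nat_lit 48) (nat_lit 16480) (.nd (nat_lit 128) (.br (nat_lit 3) (.br (nat_lit 1) (.ch
 (nat_lit 0) (.ev (nat_lit 144) (nat_lit 1024) (.nd (nat_lit 240) (.br (nat_lit 3) (.ch (nat_lit 1) (.ev
 (nat_lit 256) (nat_lit 8) (.ev (nat_lit 292) (nat_lit 8192) (.ev (nat_lit 301) (nat_lit 512) .dd)))) (.br
 (nat_lit 5) (.ch (nat_lit 3) (.ev (nat_lit 256) (nat_lit 8) (.fin (nat_lit 576461302047130168)))) (.ch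
 (nat_lit 5) (.ev (nat_lit 256) (nat_lit 8704) (.ev (nat_lit 269) (nat_lit 8) .dd)))))))) (.ch (nat_lit 1) (.ev
 (nat_lit 164) (nat_lit 512) (.nd (nat_lit 448) (.br (nat_lit 3) (.br (nat_lit 1) (.ch (nat_lit 0) (.ev
 (nat_lit 464) (nat_lit 8192) (.nd (nat_lit 816) (.br (nat_lit 5) (.ch (nat_lit 0) (.fin (nat_lit
 576470098150638136))) (.ch (nat_lit 5) (.ev (nat_lit 832) (nat_lit 8) (.ev (nat_lit 845) (nat_lit 1024)
 .dd))))))) (.ch (nat_lit 1) (.ev (nat_lit 464) (nat_lit 9216) (.ev (nat_lit 477) (nat_lit 8) .dd)))) (.br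
 (nat_lit 5) (.ch (nat_lit 3) (.ev (nat_lit 464) (nat_lit 1032) (.ev (nat_lit 477) (nat_lit 8192) .dd))) (.ch
 (nat_lit 5) (.ev (nat_lit 464) (nat_lit 1024) (.fin (nat_lit 576468998631670332)))))))))) (.br (nat_lit 5)
 (.ch (nat_lit 3) (.ev (nat_lit 144) (nat_lit 520) (.nd (nat_lit 448) (.br (nat_lit 5) (.br (nat_lit 3) (.ch
 (nat_lit 2) (.ev (nat_lit 464) (nat_lit 8192) (.ev (nat_lit 477) (nat_lit 1024) .dd))) (.ch (nat_lit 3) (.ev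
 (nat_lit 464) (nat_lit 1024) (.ev (nat_lit 477) (nat_lit 8192) .dd)))) (.br (nat_lit 6) (.ch (nat_lit 5) (.ev
 (nat_lit 464) (nat_lit 8192) (.ev (nat_lit 477) (nat_lit 1024) .dd))) (.ch (nat_lit 6) (.ev (nat_lit 464)
 (nat_lit 1024) (.ev (nat_lit 477) (nat_lit 8192) .dd)))))))) (.br (nat_lit 6) (.ch (nat_lit 5) (.ev (nat_lit
 144) (nat_lit 8200) (.nd (nat_lit 544) (.br (nat_lit 5) (.ch (nat_lit 1) (.ev (nat_lit 788) (nat_lit 1024)
 (.ev (nat_lit 797) (nat_lit 512) .dd))) (.br (nat_lit 6) (.ch (nat_lit 5) (.ev (nat_lit 560) (nat_lit 1024)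
 (.ev (nat_lit 573) (nat_lit 512) .dd))) (.ch (nat_lit 6) (.nd (nat_lit 848) (.br (nat_lit 3) (.ch (nat_lit 2)
 (.fin (nat_lit 576473396678181448))) (.ch (nat_lit 3) (.ev (nat_lit 864) (nat_lit 512) (.ev (nat_lit 877)
 (nat_lit 1024) .dd))))))))))) (.ch (nat_lit 6) (.ev (nat_lit 144) (nat_lit 9728) (.ev (nat_lit 157) (nat_lit
 8) .dd))))))))))))))

/-- Subtrie. -/
noncomputable def T3 : Tr := (.ev (nat_lit 20) (nat_lit 26632) (.nd (nat_lit 32) (.br (nat_lit 3) (.br (nat_lit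
 2) (.ch (nat_lit 0) (.ev (nat_lit 48) (nat_lit 192) (.nd (nat_lit 128) (.br (nat_lit 4) (.br (nat_lit 3) (.ch
 (nat_lit 2) (.ev (nat_lit 144) (nat_lit 512) (.ev (nat_lit 532) (nat_lit 4096) (.nd (nat_lit 544) (.br
 (nat_lit 5) (.ch (nat_lit 3) (.ev (nat_lit 560) (nat_lit 1024) (.ev (nat_lit 573) (nat_lit 32) .dd))) (.br
 (nat_lit 6) (.ch (nat_lit 5) (.ev (nat_lit 560) (nat_lit 1056) .dd)) (.ch (nat_lit 6) (.nd (nat_lit 880) (.br
 (nat_lit 6) (.ch (nat_lit 1) (.fin (nat_lit 576470098156929616))) (.ch (nat_lit 6) (.ev (nat_lit 896) (nat_lit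
 32) (.ev (nat_lit 909) (nat_lit 1024) .dd)))))))))))) (.ch (nat_lit 3) (.ev (nat_lit 144) (nat_lit 1056) (.ev
 (nat_lit 516) (nat_lit 512) (.ev (nat_lit 525) (nat_lit 4096) .dd))))) (.br (nat_lit 5) (.ch (nat_lit 4) (.ev
 (nat_lit 144) (nat_lit 4096) (.ev (nat_lit 484) (nat_lit 1024) (.nd (nat_lit 640) (.br (nat_lit 4) (.br
 (nat_lit 2) (.ch (nat_lit 0) (.ev (nat_lit 656) (nat_lit 544) .dd)) (.ch (nat_lit 2) (.ev (nat_lit 656)
 (nat_lit 512) (.ev (nat_lit 669) (nat_lit 32) .dd)))) (.br (nat_lit 6) (.ch (nat_lit 4) (.ev (nat_lit 656)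
 (nat_lit 32) (.ev (nat_lit 669) (nat_lit 512) .dd))) (.ch (nat_lit 6) (.fin (nat_lit
 576474496205537887))))))))) (.br (nat_lit 6) (.ch (nat_lit 5) (.ev (nat_lit 144) (nat_lit 5632) (.ev (nat_lit
 157) (nat_lit 32) .dd))) (.ch (nat_lit 6) (.ev (nat_lit 144) (nat_lit 32) (.nd (nat_lit 240) (.br (nat_lit 5)
 (.ch (nat_lit 4) (.ev (nat_lit 256) (nat_lit 4096) (.nd (nat_lit 672) (.br (nat_lit 6) (.ch (nat_lit 5) (.fin
 (nat_lit 576473396678181448))) (.ch (nat_lit 6) (.ev (nat_lit 768) (nat_lit 512) (.ev (nat_lit 781) (nat_lit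
 1024) .dd))))))) (.br (nat_lit 6) (.ch (nat_lit 5) (.ev (nat_lit 256) (nat_lit 5120) (.ev (nat_lit 269)
 (nat_lit 512) .dd))) (.ch (nat_lit 6) (.ev (nat_lit 256) (nat_lit 512) (.ev (nat_lit 768) (nat_lit 5120)
 .dd)))))))))))))) (.ch (nat_lit 2) (.ev (nat_lit 48) (nat_lit 576) (.nd (nat_lit 176) (.br (nat_lit 3) (.br
 (nat_lit 2) (.ch (nat_lit 0) (.nd (nat_lit 544) (.br (nat_lit 4) (.ch (nat_lit 3) (.ev (nat_lit 560) (nat_lit
 4096) (.ev (nat_lit 580) (nat_lit 1024) (.fin (nat_lit 576464600585159231))))) (.br (nat_lit 6) (.ch (nat_lit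
 4) (.ev (nat_lit 560) (nat_lit 1056) (.ev (nat_lit 580) (nat_lit 128) (.ev (nat_lit 589) (nat_lit 4096)
 .dd)))) (.ch (nat_lit 6) (.ev (nat_lit 560) (nat_lit 32) (.ev (nat_lit 804) (nat_lit 128) (.nd (nat_lit 912)
 (.br (nat_lit 3) (.ch (nat_lit 1) (.ev (nat_lit 928) (nat_lit 4096) (.ev (nat_lit 941) (nat_lit 1024) .dd)))
 (.ch (nat_lit 3) (.fin (nat_lit 576481093275304541)))))))))))) (.ch (nat_lit 2) (.ev (nat_lit 192) (nat_lit
 1152) (.nd (nat_lit 592) (.br (nat_lit 2) (.ch (nat_lit 0) (.ev (nat_lit 608) (nat_lit 4096) (.ev (nat_lit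
 621) (nat_lit 32) .dd))) (.br (nat_lit 3) (.ch (nat_lit 2) (.fin (nat_lit 576460202538648140))) (.ch (nat_lit
 3) (.ev (nat_lit 608) (nat_lit 32) (.ev (nat_lit 621) (nat_lit 4096) .dd))))))))) (.br (nat_lit 4) (.ch
 (nat_lit 3) (.ev (nat_lit 192) (nat_lit 4224) (.nd (nat_lit 640) (.br (nat_lit 4) (.br (nat_lit 3) (.ch
 (nat_lit 2) (.ev (nat_lit 656) (nat_lit 32) (.ev (nat_lit 669) (nat_lit 1024) .dd))) (.ch (nat_lit 3) (.fin
 (nat_lit 576460202555425342)))) (.br (nat_lit 5) (.ch (nat_lit 4) (.ev (nat_lit 656) (nat_lit 1056) .dd)) (.ch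
 (nat_lit 5) (.ev (nat_lit 656) (nat_lit 1024) (.ev (nat_lit 669) (nat_lit 32) .dd)))))))) (.br (nat_lit 6)
 (.ch (nat_lit 4) (.ev (nat_lit 192) (nat_lit 5152) (.ev (nat_lit 205) (nat_lit 128) .dd))) (.ch (nat_lit 6)
 (.ev (nat_lit 192) (nat_lit 32) (.ev (nat_lit 356) (nat_lit 1024) (.ev (nat_lit 496) (nat_lit 128) (.ev
 (nat_lit 509) (nat_lit 4096) .dd)))))))))))) (.br (nat_lit 5) (.ch (nat_lit 3) (.ev (nat_lit 48) (nat_lit
 4128) (.nd (nat_lit 176) (.br (nat_lit 4) (.br (nat_lit 2) (.ch (nat_lit 1) (.nd (nat_lit 592) (.br (nat_lit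
 1) (.ch (nat_lit 0) (.ev (nat_lit 608) (nat_lit 192) (.ev (nat_lit 628) (nat_lit 1024) (.ev (nat_lit 637)
 (nat_lit 512) .dd)))) (.br (nat_lit 5) (.ch (nat_lit 1) (.ev (nat_lit 608) (nat_lit 512) (.ev (nat_lit 628)
 (nat_lit 128) (.fin (nat_lit 576464600606130751))))) (.ch (nat_lit 5) (.ev (nat_lit 608) (nat_lit 64) (.ev
 (nat_lit 804) (nat_lit 1024) (.nd (nat_lit 944) (.br (nat_lit 6) (.ch (nat_lit 1) (.ev (nat_lit 960) (nat_lit
 512) (.ev (nat_lit 973) (nat_lit 128) .dd))) (.ch (nat_lit 6) (.fin (nat_lit 576481093264818781))))))))))))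
 (.ch (nat_lit 2) (.ev (nat_lit 192) (nat_lit 64) (.ev (nat_lit 356) (nat_lit 128) (.ev (nat_lit 496) (nat_lit
 1024) (.ev (nat_lit 509) (nat_lit 512) .dd)))))) (.br (nat_lit 5) (.ch (nat_lit 4) (.ev (nat_lit 192) (nat_lit
 704) (.ev (nat_lit 205) (nat_lit 1024) .dd))) (.br (nat_lit 6) (.ch (nat_lit 5) (.ev (nat_lit 192) (nat_lit
 1536) (.nd (nat_lit 640) (.br (nat_lit 5) (.br (nat_lit 4) (.ch (nat_lit 0) (.ev (nat_lit 656) (nat_lit 64)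
 (.ev (nat_lit 669) (nat_lit 128) .dd))) (.ch (nat_lit 4) (.ev (nat_lit 656) (nat_lit 128) (.ev (nat_lit 669)
 (nat_lit 64) .dd)))) (.br (nat_lit 6) (.ch (nat_lit 5) (.ev (nat_lit 656) (nat_lit 192) .dd)) (.ch (nat_lit 6)
 (.fin (nat_lit 576460202542842430)))))))) (.ch (nat_lit 6) (.ev (nat_lit 192) (nat_lit 1152) (.nd (nat_lit
 592) (.br (nat_lit 4) (.ch (nat_lit 0) (.ev (nat_lit 608) (nat_lit 512) (.ev (nat_lit 621) (nat_lit 64) .dd)))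
 (.br (nat_lit 5) (.ch (nat_lit 4) (.ev (nat_lit 608) (nat_lit 64) (.ev (nat_lit 621) (nat_lit 512) .dd))) (.ch
 (nat_lit 5) (.fin (nat_lit 576460202559619660)))))))))))))) (.br (nat_lit 6) (.ch (nat_lit 5) (.ev (nat_lit
 48) (nat_lit 1056) (.nd (nat_lit 176) (.br (nat_lit 4) (.br (nat_lit 1) (.ch (nat_lit 0) (.ev (nat_lit 192)
 (nat_lit 192) (.ev (nat_lit 516) (nat_lit 4096) (.ev (nat_lit 525) (nat_lit 512) .dd)))) (.ch (nat_lit 1) (.ev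
 (nat_lit 192) (nat_lit 4096) (.ev (nat_lit 532) (nat_lit 512) (.nd (nat_lit 592) (.br (nat_lit 5) (.ch
 (nat_lit 1) (.ev (nat_lit 608) (nat_lit 128) (.ev (nat_lit 621) (nat_lit 64) .dd))) (.br (nat_lit 6) (.ch
 (nat_lit 5) (.nd (nat_lit 976) (.br (nat_lit 4) (.ch (nat_lit 2) (.fin (nat_lit 576470098150638160))) (.ch
 (nat_lit 4) (.ev (nat_lit 992) (nat_lit 64) (.ev (nat_lit 1005) (nat_lit 128) .dd)))))) (.ch (nat_lit 6) (.ev
 (nat_lit 608) (nat_lit 192) .dd))))))))) (.br (nat_lit 5) (.ch (nat_lit 4) (.ev (nat_lit 192) (nat_lit 64)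
 (.nd (nat_lit 240) (.br (nat_lit 3) (.ch (nat_lit 2) (.ev (nat_lit 256) (nat_lit 4096) (.ev (nat_lit 768)
 (nat_lit 640) .dd))) (.br (nat_lit 4) (.ch (nat_lit 3) (.ev (nat_lit 256) (nat_lit 640) (.ev (nat_lit 269)
 (nat_lit 4096) .dd))) (.ch (nat_lit 4) (.ev (nat_lit 256) (nat_lit 512) (.nd (nat_lit 672) (.br (nat_lit 6)
 (.ch (nat_lit 0) (.fin (nat_lit 576473396699152968))) (.ch (nat_lit 6) (.ev (nat_lit 768) (nat_lit 4096) (.ev
 (nat_lit 781) (nat_lit 128) .dd)))))))))))) (.br (nat_lit 6) (.ch (nat_lit 5) (.ev (nat_lit 192) (nat_lit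
 4736) (.ev (nat_lit 205) (nat_lit 64) .dd))) (.ch (nat_lit 6) (.ev (nat_lit 192) (nat_lit 512) (.ev (nat_lit
 484) (nat_lit 128) (.nd (nat_lit 640) (.br (nat_lit 3) (.br (nat_lit 2) (.ch (nat_lit 0) (.ev (nat_lit 656)
 (nat_lit 4096) (.ev (nat_lit 669) (nat_lit 64) .dd))) (.ch (nat_lit 2) (.ev (nat_lit 656) (nat_lit 4160)
 .dd))) (.br (nat_lit 5) (.ch (nat_lit 3) (.fin (nat_lit 576474496195052127))) (.ch (nat_lit 5) (.ev (nat_lit
 656) (nat_lit 64) (.ev (nat_lit 669) (nat_lit 4096) .dd))))))))))))))) (.ch (nat_lit 6) (.ev (nat_lit 48)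
 (nat_lit 5760) (.nd (nat_lit 176) (.br (nat_lit 2) (.br (nat_lit 1) (.ch (nat_lit 0) (.ev (nat_lit 192)
 (nat_lit 32) (.ev (nat_lit 205) (nat_lit 64) .dd))) (.ch (nat_lit 1) (.ev (nat_lit 516) (nat_lit 64) (.ev
 (nat_lit 525) (nat_lit 32) .dd)))) (.br (nat_lit 3) (.ch (nat_lit 2) (.ev (nat_lit 192) (nat_lit 96) .dd))
 (.br (nat_lit 4) (.ch (nat_lit 3) (.ev (nat_lit 516) (nat_lit 32) (.ev (nat_lit 525) (nat_lit 64) .dd))) (.ch
 (nat_lit 4) (.ev (nat_lit 192) (nat_lit 64) (.ev (nat_lit 205) (nat_lit 32) .dd))))))))))))))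

/-- The trie. -/
noncomputable def T : Tr := .nd (nat_lit 1000000) (.br (nat_lit 1) (.ch (nat_lit 0) (.ev (nat_lit 0) (nat_lit 131071) .dd)) (.br (nat_lit 3) (.ch (nat_lit 1) T1) (.ch (nat_lit 3) T3)))

/-- The possible values. -/
noncomputable def oks : List ℕ := [58, 79, 235, 435, 466, 515, 1660]

/-- The parameters. -/
noncomputable def S : Pr := ⟨fun i l e => lget mz (lget [] (lget [] tabs i) l) e, oks, [(nat_lit 0), (nat_lit 0), (nat_lit 0), (nat_lit 0), (nat_lit 0)], T, (nat_lit 131071), (nat_lit 98583), (nat_lit 17), [(nat_lit 1)], [(nat_lit 16807)]⟩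

/-- Nothing known. -/
noncomputable def cs0 : Cs := (.cons (nat_lit 7) (nat_lit 0) (nat_lit 1) .nil)

theorem part_1 : part S cs0 (nat_lit 1) = true := by decide +kernel

theorem part_3 : part S cs0 (nat_lit 3) = true := by decide +kernel

/-- Data of a prime. -/
noncomputable def D0 : PD := ⟨(nat_lit 7), (nat_lit 5), (16688, 1, 2), (11647, 13664, 15495), (16107, 1622, 8110)⟩

theorem D0_ok : D0.Ok := pdb_sound (s := 1) (C := ⟨⟨7, -2, -11, 7, 2, 4, 0, 3, -1⟩, (5, 2, 3)⟩) (by show Nat.Prime 7; norm_num) (by decide +kernel)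

/-- Lines of the first type. -/
noncomputable def Cl0 : List C1 := [⟨⟨7, 2, -11, 7, -2, 4, 0, -3, -1⟩, (6, 1, 5)⟩,
  ⟨⟨0, 0, 0, 0, 0, 0, 0, 0, 0⟩, (0, 0, 0)⟩,
  ⟨⟨0, 0, 0, 0, 0, 0, 0, 0, 0⟩, (0, 0, 0)⟩,
  ⟨⟨0, 0, 0, 0, 0, 0, 0, 0, 0⟩, (0, 0, 0)⟩,
  ⟨⟨0, 0, 0, 0, 0, 0, 0, 0, 0⟩, (0, 0, 0)⟩,
  ⟨⟨0, 0, 0, 0, 0, 0, 0, 0, 0⟩, (0, 0, 0)⟩,
  ⟨⟨0, 0, 0, 0, 0, 0, 0, 0, 0⟩, (0, 0, 0)⟩]

/-- Data of a prime. -/
noncomputable def Dm : PD := ⟨(nat_lit 17), (nat_lit 2), (154, 6, 5), (89, 107, 202), (117, 260, 284)⟩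

theorem Dm_ok : Dm.Ok := pdb_sound (s := 3) (C := ⟨⟨3, 18, -19, -23, -2, 4, 2, -5, -7⟩, (3, 11, 2)⟩) (by show Nat.Prime 17; norm_num) (by decide +kernel)

/-- Lines of the first type. -/
noncomputable def Clm : List C1 := [⟨⟨23, 2, -19, 3, 18, 16, -2, 5, -5⟩, (14, 7, 1)⟩,
  ⟨⟨3, -18, -19, -23, 2, 4, 2, 5, -7⟩, (1, 15, 12)⟩,
  ⟨⟨-13, 2, -16, -7, 22, 11, 6, 3, -7⟩, (14, 1, 4)⟩,
  ⟨⟨0, 0, 0, 0, 0, 0, 0, 0, 0⟩, (0, 0, 0)⟩,
  ⟨⟨-13, -2, -16, -7, -22, 11, 6, -3, -7⟩, (16, 6, 7)⟩,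
  ⟨⟨0, 0, 0, 0, 0, 0, 0, 0, 0⟩, (0, 0, 0)⟩,
  ⟨⟨0, 0, 0, 0, 0, 0, 0, 0, 0⟩, (0, 0, 0)⟩,
  ⟨⟨0, 0, 0, 0, 0, 0, 0, 0, 0⟩, (0, 0, 0)⟩,
  ⟨⟨13, 2, -29, 7, 22, 4, -6, 3, -1⟩, (9, 14, 5)⟩,
  ⟨⟨0, 0, 0, 0, 0, 0, 0, 0, 0⟩, (0, 0, 0)⟩,
  ⟨⟨0, 0, 0, 0, 0, 0, 0, 0, 0⟩, (0, 0, 0)⟩,
  ⟨⟨0, 0, 0, 0, 0, 0, 0, 0, 0⟩, (0, 0, 0)⟩,
  ⟨⟨0, 0, 0, 0, 0, 0, 0, 0, 0⟩, (0, 0, 0)⟩,
  ⟨⟨0, 0, 0, 0, 0, 0, 0, 0, 0⟩, (0, 0, 0)⟩,
  ⟨⟨0, 0, 0, 0, 0, 0, 0, 0, 0⟩, (0, 0, 0)⟩,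
  ⟨⟨23, -2, -19, 3, -18, 16, -2, -5, -5⟩, (16, 8, 6)⟩,
  ⟨⟨13, -2, -29, 7, -22, 4, -6, -3, -1⟩, (11, 2, 8)⟩]

/-- Unit moves. -/
noncomputable def U : List Mv := [mz,
  mz,
  ⟨⟨1, 0, 0, 0, -1, 0, 0, 0, 1⟩, .nil, (nat_lit 0), (nat_lit 2), (nat_lit 1), (nat_lit 0), (0, 0, 0), [], 2⟩,
  mz,
  ⟨⟨-1, 0, 1, 0, 1, 0, 0, 0, 1⟩, .nil, (nat_lit 6), (nat_lit 0), (nat_lit 0), (nat_lit 1), (0, 0, 0), [], 1⟩,
  ⟨⟨-1, 0, 1, 0, -1, 0, 0, 0, 1⟩, .nil, (nat_lit 0), (nat_lit 5), (nat_lit 1), (nat_lit 0), (0, 0, 0), [], 2⟩,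
  ⟨⟨-1, 0, 1, 0, 1, 0, 0, 0, 1⟩, .nil, (nat_lit 6), (nat_lit 0), (nat_lit 0), (nat_lit 1), (0, 0, 0), [], 1⟩]

theorem v_ty : tyb Dm S.ty1 Clm = true := by decide +kernel

theorem v_ty0 : tyb D0 (S.tys.getD 0 0) Cl0 = true := by decide +kernel

theorem v_msc : mscb S D0 [] Dm (nat_lit 10) = true := by decide +kernel

theorem v_mv0 : mvsn (nat_lit 4857223) S D0 [] Dm (nat_lit 10) 0 D0 = true := by decide +kernel

theorem v_mm : mmsn (nat_lit 4857223) S D0 [] Dm (nat_lit 10) = true := by decide +kernel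

theorem v_un : unb S D0 (nat_lit 10) U = true := by decide +kernel

theorem v_ok : okb S.oks [(0, 0, 0), (0, 0, 0), (0, 15, 1), (5, 20, 1), (0, 0, 0), (8, 21, 1), (0, 0, 0)] = true := by decide +kernel

theorem v_part : ∀ d < D0.p, (nat_lit 10).testBit d = true → part S (zc (D0 :: [])) d = true := by
  intro d hd h
  have h1 : ∀ d < 7, (nat_lit 10).testBit d = true → d = 1 ∨ d = 3 := by decide
  rcases h1 d hd h with rfl | rfl
  · exact part_1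
  · exact part_3

theorem main (n : ℕ) (ho : Odd n) (hr : ¬ Rep n) (h0 : Split 7 n) (hm : Split 17 n) :
    n ∈ EE := by
  refine concln (W := nat_lit 4857223) (S := S) (P0 := D0) (Pl := []) (Pm := Dm) (cn := nat_lit 10) ?_ Dm_ok v_ty ?_ ?_ v_msc ?_ v_mm v_un v_part v_ok
    n ho hr ?_ hm
  · simp only [List.forall_mem_cons]
    exact ⟨D0_ok, fun _ h => absurd h (by simp)⟩
  · exact all1 (φ := fun j P => ∃ L, tyb P (S.tys.getD j 0) L = true) ⟨_, v_ty0⟩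
  · exact all1 (φ := fun j P => Nat.ble (S.pks.getD j 0) (Nat.pow P.p P.K) = true) (by decide +kernel)
  · exact all1 (φ := fun i P => mvsn (nat_lit 4857223) S D0 [] Dm (nat_lit 10) i P = true) v_mv0
  · simp only [List.forall_mem_cons]
    exact ⟨h0, fun _ h => absurd h (by simp)⟩

end Pool.Agent.Work.MP_9954fe_nt.P7_17

namespace Pool.Agent.Work.MP_9954fe_nt.P7_37_31

/-- Dummy move. -/
noncomputable def mz : Mv := ⟨⟨0, 0, 0, 0, 0, 0, 0, 0, 0⟩, .nil, (nat_lit 0), (nat_lit 0), (nat_lit 0), (nat_lit 0), (0, 0, 0), [], 0⟩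

/-- Moves. -/
noncomputable def t0_1 : List Mv := [
  ⟨⟨-3, 4, -5, 2, -5, -6, 4, 4, -5⟩, (.cons (nat_lit 4652) (nat_lit 10193) (nat_lit 10624) (nat_lit 1) (.cons
 (nat_lit 272) (nat_lit 808) (nat_lit 399) (nat_lit 1) .nil)), (nat_lit 16), (nat_lit 13), (nat_lit 26),
 (nat_lit 1), (3, 5, 3), [15086, 97], 22⟩,
  ⟨⟨-3, 4, -5, -2, 5, 6, 4, 4, -5⟩, (.cons (nat_lit 10923) (nat_lit 11447) (nat_lit 14718) (nat_lit 1) (.cons
 (nat_lit 126) (nat_lit 1335) (nat_lit 756) (nat_lit 1) .nil)), (nat_lit 24), (nat_lit 8), (nat_lit 30),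
 (nat_lit 1), (3, 2, 3), [7345, 102], 7⟩,
  ⟨⟨7, 0, 0, 2, -5, -6, 4, 4, -5⟩, (.cons (nat_lit 15956) (nat_lit 2610) (nat_lit 10288) (nat_lit 1) (.cons
 (nat_lit 1180) (nat_lit 1304) (nat_lit 449) (nat_lit 1) .nil)), (nat_lit 2), (nat_lit 29), (nat_lit 3),
 (nat_lit 1), (0, 5, 3), [5055, 360], 25⟩,
  ⟨⟨-3, 4, -5, 2, -5, -6, 4, 4, -5⟩, (.cons (nat_lit 4652) (nat_lit 10193) (nat_lit 10624) (nat_lit 1) (.cons
 (nat_lit 272) (nat_lit 808) (nat_lit 399) (nat_lit 1) .nil)), (nat_lit 16), (nat_lit 13), (nat_lit 26),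
 (nat_lit 1), (3, 5, 3), [15086, 97], 22⟩,
  ⟨⟨-3, 4, -5, 2, -5, -6, 4, 4, -5⟩, (.cons (nat_lit 4652) (nat_lit 10193) (nat_lit 10624) (nat_lit 1) (.cons
 (nat_lit 272) (nat_lit 808) (nat_lit 399) (nat_lit 1) .nil)), (nat_lit 16), (nat_lit 13), (nat_lit 26),
 (nat_lit 1), (3, 5, 3), [15086, 97], 22⟩,
  ⟨⟨-3, 4, -5, 2, -5, -6, 4, 4, -5⟩, (.cons (nat_lit 4652) (nat_lit 10193) (nat_lit 10624) (nat_lit 1) (.cons
 (nat_lit 272) (nat_lit 808) (nat_lit 399) (nat_lit 1) .nil)), (nat_lit 16), (nat_lit 13), (nat_lit 26),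
 (nat_lit 1), (3, 5, 3), [15086, 97], 22⟩,
  ⟨⟨7, 0, 0, 2, -5, -6, 4, 4, -5⟩, (.cons (nat_lit 15956) (nat_lit 2610) (nat_lit 10288) (nat_lit 1) (.cons
 (nat_lit 1180) (nat_lit 1304) (nat_lit 449) (nat_lit 1) .nil)), (nat_lit 2), (nat_lit 29), (nat_lit 3),
 (nat_lit 1), (0, 5, 3), [5055, 360], 25⟩]

/-- Moves. -/
noncomputable def t0_3 : List Mv := [
  ⟨⟨1, 0, -9, 0, -7, 0, 6, 0, -5⟩, (.cons (nat_lit 12494) (nat_lit 3410) (nat_lit 2889) (nat_lit 1) (.cons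
 (nat_lit 102) (nat_lit 917) (nat_lit 458) (nat_lit 1) .nil)), (nat_lit 29), (nat_lit 14), (nat_lit 28),
 (nat_lit 1), (2, 0, 5), [6901, 1314], 30⟩,
  ⟨⟨1, 0, -9, 0, -7, 0, 6, 0, -5⟩, (.cons (nat_lit 12494) (nat_lit 3410) (nat_lit 2889) (nat_lit 1) (.cons
 (nat_lit 102) (nat_lit 917) (nat_lit 458) (nat_lit 1) .nil)), (nat_lit 29), (nat_lit 14), (nat_lit 28),
 (nat_lit 1), (2, 0, 5), [6901, 1314], 30⟩,
  ⟨⟨5, 0, 4, 0, 7, 0, 6, 0, -5⟩, (.cons (nat_lit 9804) (nat_lit 15111) (nat_lit 14475) (nat_lit 1) (.cons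
 (nat_lit 1368) (nat_lit 1176) (nat_lit 940) (nat_lit 1) .nil)), (nat_lit 30), (nat_lit 21), (nat_lit 22),
 (nat_lit 1), (3, 0, 5), [12430, 499], 17⟩,
  ⟨⟨5, 0, 4, 0, -7, 0, 6, 0, -5⟩, (.cons (nat_lit 9031) (nat_lit 7629) (nat_lit 8615) (nat_lit 1) (.cons
 (nat_lit 1368) (nat_lit 1340) (nat_lit 561) (nat_lit 1) .nil)), (nat_lit 30), (nat_lit 27), (nat_lit 10),
 (nat_lit 1), (3, 0, 5), [566, 249], 25⟩,
  ⟨⟨1, 0, -9, 0, -7, 0, 6, 0, -5⟩, (.cons (nat_lit 12494) (nat_lit 3410) (nat_lit 2889) (nat_lit 1) (.cons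
 (nat_lit 102) (nat_lit 917) (nat_lit 458) (nat_lit 1) .nil)), (nat_lit 29), (nat_lit 14), (nat_lit 28),
 (nat_lit 1), (2, 0, 5), [6901, 1314], 30⟩,
  ⟨⟨1, 0, -9, 0, 7, 0, 6, 0, -5⟩, (.cons (nat_lit 1599) (nat_lit 9921) (nat_lit 14902) (nat_lit 1) (.cons
 (nat_lit 640) (nat_lit 1044) (nat_lit 1244) (nat_lit 1) .nil)), (nat_lit 9), (nat_lit 4), (nat_lit 8),
 (nat_lit 1), (2, 0, 5), [10036, 750], 25⟩,
  ⟨⟨1, 0, -9, 0, -7, 0, 6, 0, -5⟩, (.cons (nat_lit 12494) (nat_lit 3410) (nat_lit 2889) (nat_lit 1) (.cons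
 (nat_lit 102) (nat_lit 917) (nat_lit 458) (nat_lit 1) .nil)), (nat_lit 29), (nat_lit 14), (nat_lit 28),
 (nat_lit 1), (2, 0, 5), [6901, 1314], 30⟩]

/-- Moves. -/
noncomputable def t1_1 : List Mv := [
  mz,
  ⟨⟨3, -16, -43, -10, -33, 20, 30, -12, -23⟩, (.cons (nat_lit 13552) (nat_lit 4167) (nat_lit 3193) (nat_lit 1)
 (.cons (nat_lit 1206) (nat_lit 773) (nat_lit 1241) (nat_lit 1) .nil)), (nat_lit 27), (nat_lit 10), (nat_lit
 20), (nat_lit 1), (25, 3, 28), [2496, 1156], 15⟩,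
  mz,
  mz,
  ⟨⟨21, 4, 28, 8, 35, -14, 32, -8, -19⟩, (.cons (nat_lit 16806) (nat_lit 12257) (nat_lit 16633) (nat_lit 1)
 (.cons (nat_lit 347) (nat_lit 876) (nat_lit 96) (nat_lit 1) .nil)), (nat_lit 30), (nat_lit 7), (nat_lit 16),
 (nat_lit 1), (33, 2, 8), [15143, 240], 27⟩,
  ⟨⟨11, 12, -47, 8, -35, -14, 32, 8, -19⟩, (.cons (nat_lit 5117) (nat_lit 2458) (nat_lit 1908) (nat_lit 1)
 (.cons (nat_lit 1279) (nat_lit 1018) (nat_lit 267) (nat_lit 1) .nil)), (nat_lit 26), (nat_lit 0), (nat_lit 0),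
 (nat_lit 1), (29, 11, 7), [5048, 834], 30⟩,
  mz,
  ⟨⟨-17, 36, 17, 30, 17, -30, -18, 12, -19⟩, (.cons (nat_lit 3112) (nat_lit 2459) (nat_lit 16290) (nat_lit 1)
 (.cons (nat_lit 287) (nat_lit 659) (nat_lit 10) (nat_lit 1) .nil)), (nat_lit 13), (nat_lit 14), (nat_lit 28),
 (nat_lit 1), (36, 17, 12), [9720, 542], 20⟩,
  ⟨⟨-35, 12, -1, 12, 35, -6, 0, 0, -37⟩, (.cons (nat_lit 16806) (nat_lit 7060) (nat_lit 6631) (nat_lit 1)
 (.cons (nat_lit 623) (nat_lit 672) (nat_lit 767) (nat_lit 1) .nil)), (nat_lit 30), (nat_lit 5), (nat_lit 10),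
 (nat_lit 1), (3, 18, 0), [13177, 1312], 4⟩,
  mz,
  ⟨⟨-17, -36, 17, 30, -17, -30, -18, -12, -19⟩, (.cons (nat_lit 13091) (nat_lit 4771) (nat_lit 14823) (nat_lit
 1) (.cons (nat_lit 501) (nat_lit 874) (nat_lit 837) (nat_lit 1) .nil)), (nat_lit 13), (nat_lit 8), (nat_lit
 8), (nat_lit 1), (22, 33, 32), [14541, 1360], 27⟩,
  ⟨⟨3, 16, -43, 10, -33, -20, 30, 12, -23⟩, (.cons (nat_lit 16556) (nat_lit 12203) (nat_lit 1) (nat_lit 15358)
 (.cons (nat_lit 624) (nat_lit 780) (nat_lit 209) (nat_lit 1) .nil)), (nat_lit 17), (nat_lit 21), (nat_lit 11),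
 (nat_lit 1), (23, 15, 8), [3266, 854], 13⟩,
  ⟨⟨39, -4, -8, 10, 17, -40, 14, -28, -19⟩, (.cons (nat_lit 16806) (nat_lit 2115) (nat_lit 5555) (nat_lit 1)
 (.cons (nat_lit 1035) (nat_lit 1264) (nat_lit 1002) (nat_lit 1) .nil)), (nat_lit 30), (nat_lit 24), (nat_lit
 21), (nat_lit 1), (11, 18, 3), [10314, 537], 23⟩,
  ⟨⟨-31, 24, 27, -8, 5, -36, 8, 32, -1⟩, (.cons (nat_lit 5849) (nat_lit 11334) (nat_lit 4616) (nat_lit 1)
 (.cons (nat_lit 858) (nat_lit 617) (nat_lit 347) (nat_lit 1) .nil)), (nat_lit 14), (nat_lit 12), (nat_lit 25),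
 (nat_lit 1), (26, 27, 10), [12381, 1046], 11⟩,
  mz,
  ⟨⟨-3, 40, 8, 32, 5, -36, -16, 16, -19⟩, (.cons (nat_lit 6805) (nat_lit 1717) (nat_lit 1) (nat_lit 14994)
 (.cons (nat_lit 495) (nat_lit 1269) (nat_lit 275) (nat_lit 1) .nil)), (nat_lit 7), (nat_lit 20), (nat_lit 9),
 (nat_lit 1), (27, 8, 33), [12421, 615], 16⟩,
  ⟨⟨11, -12, 36, -8, -35, -6, 32, -8, -13⟩, (.cons (nat_lit 16806) (nat_lit 2046) (nat_lit 14539) (nat_lit 1)
 (.cons (nat_lit 579) (nat_lit 308) (nat_lit 723) (nat_lit 1) .nil)), (nat_lit 30), (nat_lit 8), (nat_lit 14),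
 (nat_lit 1), (3, 18, 2), [8594, 1042], 4⟩,
  ⟨⟨39, -8, -11, 8, 5, -44, 8, -32, -7⟩, (.cons (nat_lit 16806) (nat_lit 9637) (nat_lit 6303) (nat_lit 1)
 (.cons (nat_lit 1239) (nat_lit 78) (nat_lit 1283) (nat_lit 1) .nil)), (nat_lit 30), (nat_lit 18), (nat_lit
 26), (nat_lit 1), (5, 20, 20), [5597, 267], 24⟩,
  ⟨⟨39, 4, -8, 10, -17, -40, 14, 28, -19⟩, (.cons (nat_lit 15779) (nat_lit 3904) (nat_lit 9787) (nat_lit 1)
 (.cons (nat_lit 653) (nat_lit 543) (nat_lit 261) (nat_lit 1) .nil)), (nat_lit 7), (nat_lit 22), (nat_lit 12),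
 (nat_lit 1), (29, 34, 18), [3807, 1306], 8⟩,
  ⟨⟨39, -8, -28, -8, -5, -36, 8, -32, -1⟩, (.cons (nat_lit 13056) (nat_lit 13686) (nat_lit 15147) (nat_lit 1)
 (.cons (nat_lit 713) (nat_lit 1078) (nat_lit 357) (nat_lit 1) .nil)), (nat_lit 8), (nat_lit 29), (nat_lit 18),
 (nat_lit 1), (22, 23, 14), [12316, 813], 15⟩,
  ⟨⟨25, -24, -36, -10, 17, -30, -14, -28, -5⟩, (.cons (nat_lit 16806) (nat_lit 11773) (nat_lit 8753) (nat_lit
 1) (.cons (nat_lit 785) (nat_lit 190) (nat_lit 178) (nat_lit 1) .nil)), (nat_lit 30), (nat_lit 13), (nat_lit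
 9), (nat_lit 1), (21, 36, 6), [13184, 179], 26⟩,
  ⟨⟨13, -24, -40, -32, 5, -4, 16, 16, -35⟩, (.cons (nat_lit 9659) (nat_lit 821) (nat_lit 1) (nat_lit 5334)
 (.cons (nat_lit 262) (nat_lit 1141) (nat_lit 989) (nat_lit 1) .nil)), (nat_lit 24), (nat_lit 22), (nat_lit
 13), (nat_lit 1), (27, 36, 19), [605, 1238], 9⟩,
  ⟨⟨39, 8, -11, 8, -5, -44, 8, 32, -7⟩, (.cons (nat_lit 8794) (nat_lit 1143) (nat_lit 3282) (nat_lit 1) (.cons
 (nat_lit 878) (nat_lit 1045) (nat_lit 389) (nat_lit 1) .nil)), (nat_lit 20), (nat_lit 29), (nat_lit 16),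
 (nat_lit 1), (4, 16, 16), [15996, 966], 2⟩,
  mz,
  ⟨⟨13, 24, -40, -32, -5, -4, 16, -16, -35⟩, (.cons (nat_lit 10151) (nat_lit 3996) (nat_lit 10521) (nat_lit 1)
 (.cons (nat_lit 1050) (nat_lit 506) (nat_lit 422) (nat_lit 1) .nil)), (nat_lit 16), (nat_lit 26), (nat_lit 9),
 (nat_lit 1), (24, 32, 21), [6788, 287], 6⟩,
  ⟨⟨1, 24, -37, -30, -17, 0, 18, -12, -37⟩, (.cons (nat_lit 16115) (nat_lit 7360) (nat_lit 5246) (nat_lit 1)
 (.cons (nat_lit 281) (nat_lit 1244) (nat_lit 757) (nat_lit 1) .nil)), (nat_lit 12), (nat_lit 28), (nat_lit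
 28), (nat_lit 1), (23, 13, 7), [4517, 924], 13⟩,
  ⟨⟨27, -4, -47, -10, 33, -10, 30, 12, -7⟩, (.cons (nat_lit 11389) (nat_lit 9490) (nat_lit 15133) (nat_lit 1)
 (.cons (nat_lit 565) (nat_lit 1112) (nat_lit 307) (nat_lit 1) .nil)), (nat_lit 11), (nat_lit 17), (nat_lit 3),
 (nat_lit 1), (15, 15, 29), [1627, 62], 8⟩,
  ⟨⟨27, 4, -47, 10, 33, 10, 30, -12, -7⟩, (.cons (nat_lit 11717) (nat_lit 16403) (nat_lit 1) (nat_lit 13055)
 (.cons (nat_lit 270) (nat_lit 896) (nat_lit 85) (nat_lit 1) .nil)), (nat_lit 23), (nat_lit 18), (nat_lit 5),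
 (nat_lit 1), (33, 4, 12), [12407, 774], 1⟩,
  mz,
  ⟨⟨35, 12, -36, 12, -35, -6, 0, 0, -37⟩, (.cons (nat_lit 16806) (nat_lit 12947) (nat_lit 15332) (nat_lit 1)
 (.cons (nat_lit 677) (nat_lit 1105) (nat_lit 1252) (nat_lit 1) .nil)), (nat_lit 30), (nat_lit 19), (nat_lit
 7), (nat_lit 1), (14, 27, 0), [16208, 1276], 2⟩,
  ⟨⟨-39, 4, 31, -10, -17, -30, -14, 28, -5⟩, (.cons (nat_lit 16253) (nat_lit 12297) (nat_lit 13355) (nat_lit 1)
 (.cons (nat_lit 105) (nat_lit 287) (nat_lit 18) (nat_lit 1) .nil)), (nat_lit 11), (nat_lit 28), (nat_lit 25),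
 (nat_lit 1), (3, 15, 21), [12620, 954], 11⟩,
  mz,
  mz,
  ⟨⟨-3, -40, 8, -32, 5, 36, -16, -16, -19⟩, (.cons (nat_lit 13237) (nat_lit 247) (nat_lit 5937) (nat_lit 1)
 (.cons (nat_lit 537) (nat_lit 616) (nat_lit 903) (nat_lit 1) .nil)), (nat_lit 22), (nat_lit 12), (nat_lit 24),
 (nat_lit 1), (32, 33, 35), [13926, 103], 16⟩,
  mz,
  ⟨⟨21, -4, -49, -8, 35, -6, 32, 8, -13⟩, (.cons (nat_lit 1013) (nat_lit 14289) (nat_lit 1) (nat_lit 6965)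
 (.cons (nat_lit 1285) (nat_lit 416) (nat_lit 1145) (nat_lit 1) .nil)), (nat_lit 6), (nat_lit 0), (nat_lit 0),
 (nat_lit 1), (18, 9, 1), [1165, 8], 5⟩,
  ⟨⟨1, -24, -37, -30, 17, 0, 18, 12, -37⟩, (.cons (nat_lit 14053) (nat_lit 922) (nat_lit 12893) (nat_lit 1)
 (.cons (nat_lit 1365) (nat_lit 409) (nat_lit 81) (nat_lit 1) .nil)), (nat_lit 14), (nat_lit 4), (nat_lit 8),
 (nat_lit 1), (26, 34, 24), [6332, 1092], 16⟩]

/-- Moves. -/
noncomputable def t1_3 : List Mv := [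
  mz,
  ⟨⟨27, 4, 20, 10, 33, -20, 30, -12, -23⟩, (.cons (nat_lit 16806) (nat_lit 4801) (nat_lit 140) (nat_lit 1)
 (.cons (nat_lit 124) (nat_lit 502) (nat_lit 161) (nat_lit 1) .nil)), (nat_lit 30), (nat_lit 17), (nat_lit 12),
 (nat_lit 1), (3, 34, 28), [11664, 1296], 21⟩,
  mz,
  mz,
  ⟨⟨21, 4, 28, 8, 35, -14, 32, -8, -19⟩, (.cons (nat_lit 16806) (nat_lit 12257) (nat_lit 16633) (nat_lit 1)
 (.cons (nat_lit 347) (nat_lit 876) (nat_lit 96) (nat_lit 1) .nil)), (nat_lit 30), (nat_lit 7), (nat_lit 16),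
 (nat_lit 1), (33, 2, 8), [15143, 240], 27⟩,
  ⟨⟨21, -4, 28, 8, -35, -14, 32, 8, -19⟩, (.cons (nat_lit 12411) (nat_lit 15049) (nat_lit 3847) (nat_lit 1)
 (.cons (nat_lit 896) (nat_lit 170) (nat_lit 1223) (nat_lit 1) .nil)), (nat_lit 5), (nat_lit 16), (nat_lit 26),
 (nat_lit 1), (15, 11, 7), [14764, 1074], 14⟩,
  mz,
  ⟨⟨-1, -24, -36, 30, 17, -30, -18, 12, -19⟩, (.cons (nat_lit 7976) (nat_lit 327) (nat_lit 7701) (nat_lit 1)
 (.cons (nat_lit 331) (nat_lit 721) (nat_lit 688) (nat_lit 1) .nil)), (nat_lit 29), (nat_lit 27), (nat_lit 11),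
 (nat_lit 1), (13, 17, 12), [3805, 139], 27⟩,
  ⟨⟨-35, 12, -1, 12, 35, -6, 0, 0, -37⟩, (.cons (nat_lit 16806) (nat_lit 7060) (nat_lit 6631) (nat_lit 1)
 (.cons (nat_lit 623) (nat_lit 672) (nat_lit 767) (nat_lit 1) .nil)), (nat_lit 30), (nat_lit 5), (nat_lit 10),
 (nat_lit 1), (3, 18, 0), [13177, 1312], 4⟩,
  mz,
  ⟨⟨-1, 24, -36, 30, -17, -30, -18, -12, -19⟩, (.cons (nat_lit 16806) (nat_lit 7584) (nat_lit 4393) (nat_lit 1)
 (.cons (nat_lit 915) (nat_lit 1216) (nat_lit 369) (nat_lit 1) .nil)), (nat_lit 30), (nat_lit 25), (nat_lit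
 23), (nat_lit 1), (10, 33, 32), [15241, 1243], 16⟩,
  ⟨⟨27, -4, 20, 10, -33, -20, 30, 12, -23⟩, (.cons (nat_lit 461) (nat_lit 16693) (nat_lit 1) (nat_lit 11620)
 (.cons (nat_lit 810) (nat_lit 717) (nat_lit 847) (nat_lit 1) .nil)), (nat_lit 3), (nat_lit 4), (nat_lit 21),
 (nat_lit 1), (22, 15, 8), [1607, 1347], 10⟩,
  ⟨⟨39, -4, -8, -10, -17, 40, 14, -28, -19⟩, (.cons (nat_lit 1030) (nat_lit 12560) (nat_lit 3590) (nat_lit 1)
 (.cons (nat_lit 608) (nat_lit 1179) (nat_lit 153) (nat_lit 1) .nil)), (nat_lit 9), (nat_lit 19), (nat_lit 16),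
 (nat_lit 1), (11, 19, 3), [6551, 929], 28⟩,
  ⟨⟨-31, 24, 27, 8, -5, 36, 8, 32, -1⟩, (.cons (nat_lit 16806) (nat_lit 13575) (nat_lit 10917) (nat_lit 1)
 (.cons (nat_lit 772) (nat_lit 1294) (nat_lit 1010) (nat_lit 1) .nil)), (nat_lit 30), (nat_lit 10), (nat_lit
 19), (nat_lit 1), (26, 10, 10), [14766, 1227], 1⟩,
  mz,
  ⟨⟨-13, -24, -27, 32, 5, -36, -16, 16, -19⟩, (.cons (nat_lit 14671) (nat_lit 5472) (nat_lit 1) (nat_lit 5278)
 (.cons (nat_lit 35) (nat_lit 545) (nat_lit 56) (nat_lit 1) .nil)), (nat_lit 8), (nat_lit 19), (nat_lit 17),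
 (nat_lit 1), (6, 8, 33), [15550, 367], 30⟩,
  ⟨⟨21, 4, -49, -8, -35, -6, 32, -8, -13⟩, (.cons (nat_lit 14911) (nat_lit 1328) (nat_lit 15477) (nat_lit 1)
 (.cons (nat_lit 778) (nat_lit 427) (nat_lit 940) (nat_lit 1) .nil)), (nat_lit 25), (nat_lit 25), (nat_lit 29),
 (nat_lit 1), (36, 18, 2), [14467, 854], 15⟩,
  ⟨⟨39, -8, -11, 8, 5, -44, 8, -32, -7⟩, (.cons (nat_lit 16806) (nat_lit 9637) (nat_lit 6303) (nat_lit 1)
 (.cons (nat_lit 1239) (nat_lit 78) (nat_lit 1283) (nat_lit 1) .nil)), (nat_lit 30), (nat_lit 18), (nat_lit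
 26), (nat_lit 1), (5, 20, 20), [5597, 267], 24⟩,
  ⟨⟨39, 4, -8, -10, 17, 40, 14, 28, -19⟩, (.cons (nat_lit 16806) (nat_lit 15315) (nat_lit 16341) (nat_lit 1)
 (.cons (nat_lit 865) (nat_lit 517) (nat_lit 1267) (nat_lit 1) .nil)), (nat_lit 30), (nat_lit 20), (nat_lit
 26), (nat_lit 1), (29, 3, 18), [10391, 1161], 26⟩,
  ⟨⟨-31, -24, 27, 8, 5, 36, 8, -32, -1⟩, (.cons (nat_lit 6155) (nat_lit 5087) (nat_lit 9157) (nat_lit 1) (.cons
 (nat_lit 248) (nat_lit 294) (nat_lit 1223) (nat_lit 1) .nil)), (nat_lit 20), (nat_lit 8), (nat_lit 27),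
 (nat_lit 1), (29, 14, 14), [4710, 636], 29⟩,
  ⟨⟨25, -24, -36, -10, 17, -30, -14, -28, -5⟩, (.cons (nat_lit 16806) (nat_lit 11773) (nat_lit 8753) (nat_lit
 1) (.cons (nat_lit 785) (nat_lit 190) (nat_lit 178) (nat_lit 1) .nil)), (nat_lit 30), (nat_lit 13), (nat_lit
 9), (nat_lit 1), (21, 36, 6), [13184, 179], 26⟩,
  ⟨⟨13, -24, -40, 32, -5, 4, 16, 16, -35⟩, (.cons (nat_lit 64) (nat_lit 5509) (nat_lit 7115) (nat_lit 1) (.cons
 (nat_lit 1208) (nat_lit 632) (nat_lit 9) (nat_lit 1) .nil)), (nat_lit 16), (nat_lit 20), (nat_lit 21),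
 (nat_lit 1), (27, 1, 19), [10204, 373], 6⟩,
  ⟨⟨39, 8, -11, 8, -5, -44, 8, 32, -7⟩, (.cons (nat_lit 8794) (nat_lit 1143) (nat_lit 3282) (nat_lit 1) (.cons
 (nat_lit 878) (nat_lit 1045) (nat_lit 389) (nat_lit 1) .nil)), (nat_lit 20), (nat_lit 29), (nat_lit 16),
 (nat_lit 1), (4, 16, 16), [15996, 966], 2⟩,
  mz,
  ⟨⟨13, 24, -40, 32, 5, 4, 16, -16, -35⟩, (.cons (nat_lit 9506) (nat_lit 14537) (nat_lit 5725) (nat_lit 1)
 (.cons (nat_lit 321) (nat_lit 813) (nat_lit 902) (nat_lit 1) .nil)), (nat_lit 9), (nat_lit 6), (nat_lit 12),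
 (nat_lit 1), (24, 5, 21), [10062, 779], 25⟩,
  ⟨⟨1, 24, -37, 30, 17, 0, 18, -12, -37⟩, (.cons (nat_lit 9165) (nat_lit 1452) (nat_lit 15538) (nat_lit 1)
 (.cons (nat_lit 152) (nat_lit 853) (nat_lit 212) (nat_lit 1) .nil)), (nat_lit 12), (nat_lit 18), (nat_lit 5),
 (nat_lit 1), (23, 24, 7), [9529, 24], 28⟩,
  ⟨⟨27, -4, -47, -10, 33, -10, 30, 12, -7⟩, (.cons (nat_lit 11389) (nat_lit 9490) (nat_lit 15133) (nat_lit 1)
 (.cons (nat_lit 565) (nat_lit 1112) (nat_lit 307) (nat_lit 1) .nil)), (nat_lit 11), (nat_lit 17), (nat_lit 3),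
 (nat_lit 1), (15, 15, 29), [1627, 62], 8⟩,
  ⟨⟨27, 4, -47, -10, -33, -10, 30, -12, -7⟩, (.cons (nat_lit 5013) (nat_lit 11956) (nat_lit 8242) (nat_lit 1)
 (.cons (nat_lit 1228) (nat_lit 103) (nat_lit 189) (nat_lit 1) .nil)), (nat_lit 7), (nat_lit 28), (nat_lit 18),
 (nat_lit 1), (33, 33, 12), [2875, 442], 6⟩,
  mz,
  ⟨⟨-35, -12, -1, 12, -35, -6, 0, 0, -37⟩, (.cons (nat_lit 11537) (nat_lit 4602) (nat_lit 1626) (nat_lit 1)
 (.cons (nat_lit 99) (nat_lit 393) (nat_lit 720) (nat_lit 1) .nil)), (nat_lit 1), (nat_lit 20), (nat_lit 22),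
 (nat_lit 1), (23, 27, 0), [13926, 847], 30⟩,
  ⟨⟨25, 24, -36, -10, -17, -30, -14, 28, -5⟩, (.cons (nat_lit 16150) (nat_lit 8717) (nat_lit 5585) (nat_lit 1)
 (.cons (nat_lit 464) (nat_lit 608) (nat_lit 1) (nat_lit 259) .nil)), (nat_lit 7), (nat_lit 6), (nat_lit 13),
 (nat_lit 1), (18, 15, 21), [8679, 465], 8⟩,
  mz,
  mz,
  ⟨⟨-13, 24, -27, 32, -5, -36, -16, -16, -19⟩, (.cons (nat_lit 16806) (nat_lit 6614) (nat_lit 15883) (nat_lit
 1) (.cons (nat_lit 1298) (nat_lit 311) (nat_lit 1285) (nat_lit 1) .nil)), (nat_lit 30), (nat_lit 9), (nat_lit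
 7), (nat_lit 1), (3, 4, 35), [14824, 42], 19⟩,
  mz,
  ⟨⟨21, -4, -49, -8, 35, -6, 32, 8, -13⟩, (.cons (nat_lit 1013) (nat_lit 14289) (nat_lit 1) (nat_lit 6965)
 (.cons (nat_lit 1285) (nat_lit 416) (nat_lit 1145) (nat_lit 1) .nil)), (nat_lit 6), (nat_lit 0), (nat_lit 0),
 (nat_lit 1), (18, 9, 1), [1165, 8], 5⟩,
  ⟨⟨1, -24, -37, 30, -17, 0, 18, 12, -37⟩, (.cons (nat_lit 8443) (nat_lit 16610) (nat_lit 3162) (nat_lit 1)
 (.cons (nat_lit 194) (nat_lit 541) (nat_lit 218) (nat_lit 1) .nil)), (nat_lit 12), (nat_lit 14), (nat_lit 25),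
 (nat_lit 1), (26, 3, 24), [1521, 10], 13⟩]

/-- Moves. -/
noncomputable def t4_1 : List Mv := [
  mz,
  ⟨⟨3, 20, 29, -4, 25, -18, 26, 8, -7⟩, (.cons (nat_lit 12576) (nat_lit 1526) (nat_lit 7979) (nat_lit 1) (.cons
 (nat_lit 337) (nat_lit 1265) (nat_lit 156) (nat_lit 1) .nil)), (nat_lit 6), (nat_lit 0), (nat_lit 0), (nat_lit
 0), (26, 17, 29), [16480, 1353], 0⟩,
  ⟨⟨23, 12, -36, -4, -25, -18, 26, -8, -7⟩, (.cons (nat_lit 13671) (nat_lit 4267) (nat_lit 6051) (nat_lit 1)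
 (.cons (nat_lit 148) (nat_lit 1094) (nat_lit 97) (nat_lit 1) .nil)), (nat_lit 28), (nat_lit 0), (nat_lit 0),
 (nat_lit 0), (1, 16, 20), [4740, 839], 0⟩,
  mz,
  ⟨⟨27, 16, -28, -4, -15, -28, -6, 24, -11⟩, (.cons (nat_lit 9194) (nat_lit 6477) (nat_lit 14615) (nat_lit 1)
 (.cons (nat_lit 768) (nat_lit 1121) (nat_lit 266) (nat_lit 1) .nil)), (nat_lit 14), (nat_lit 0), (nat_lit 0),
 (nat_lit 0), (15, 15, 7), [16297, 257], 0⟩,
  mz,
  ⟨⟨1, -12, 35, -16, -25, -2, 22, -16, -5⟩, (.cons (nat_lit 11118) (nat_lit 11677) (nat_lit 1) (nat_lit 3164)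
 (.cons (nat_lit 753) (nat_lit 952) (nat_lit 1209) (nat_lit 1) .nil)), (nat_lit 2), (nat_lit 0), (nat_lit 0),
 (nat_lit 0), (1, 15, 22), [291, 309], 0⟩,
  mz,
  ⟨⟨-31, 0, 0, -10, -19, 30, -4, -20, -19⟩, (.cons (nat_lit 13185) (nat_lit 16196) (nat_lit 3893) (nat_lit 1)
 (.cons (nat_lit 1334) (nat_lit 420) (nat_lit 258) (nat_lit 1) .nil)), (nat_lit 13), (nat_lit 0), (nat_lit 0),
 (nat_lit 0), (0, 26, 29), [6436, 719], 0⟩,
  mz,
  mz,
  mz,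
  mz,
  ⟨⟨-31, 0, 0, 10, -19, -30, -4, 20, -19⟩, (.cons (nat_lit 2928) (nat_lit 7466) (nat_lit 13249) (nat_lit 1)
 (.cons (nat_lit 352) (nat_lit 12) (nat_lit 907) (nat_lit 1) .nil)), (nat_lit 8), (nat_lit 0), (nat_lit 0),
 (nat_lit 0), (0, 3, 5), [978, 670], 0⟩,
  ⟨⟨-33, -8, 17, -4, 15, -28, -6, -24, -11⟩, (.cons (nat_lit 15723) (nat_lit 3391) (nat_lit 10650) (nat_lit 1)
 (.cons (nat_lit 34) (nat_lit 1085) (nat_lit 1120) (nat_lit 1) .nil)), (nat_lit 27), (nat_lit 0), (nat_lit 0),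
 (nat_lit 0), (14, 28, 11), [9244, 627], 0⟩,
  ⟨⟨3, 20, -32, 4, -25, -22, 26, 8, -19⟩, (.cons (nat_lit 15657) (nat_lit 7577) (nat_lit 3381) (nat_lit 1)
 (.cons (nat_lit 1107) (nat_lit 494) (nat_lit 70) (nat_lit 1) .nil)), (nat_lit 26), (nat_lit 0), (nat_lit 0),
 (nat_lit 0), (10, 3, 4), [7426, 1330], 0⟩,
  mz,
  mz,
  ⟨⟨21, -4, 19, 16, 25, -18, 22, -16, -17⟩, (.cons (nat_lit 9947) (nat_lit 7062) (nat_lit 12325) (nat_lit 1)
 (.cons (nat_lit 1167) (nat_lit 439) (nat_lit 427) (nat_lit 1) .nil)), (nat_lit 23), (nat_lit 0), (nat_lit 0),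
 (nat_lit 0), (7, 26, 28), [12039, 424], 0⟩,
  ⟨⟨-9, 8, -31, -10, -29, 0, 20, -4, -31⟩, (.cons (nat_lit 2248) (nat_lit 8074) (nat_lit 8025) (nat_lit 1)
 (.cons (nat_lit 451) (nat_lit 699) (nat_lit 805) (nat_lit 1) .nil)), (nat_lit 20), (nat_lit 0), (nat_lit 0),
 (nat_lit 0), (2, 16, 30), [2320, 825], 0⟩,
  ⟨⟨-29, -12, 29, 10, -29, -10, -20, -4, -11⟩, (.cons (nat_lit 12209) (nat_lit 14396) (nat_lit 7585) (nat_lit
 1) (.cons (nat_lit 941) (nat_lit 730) (nat_lit 921) (nat_lit 1) .nil)), (nat_lit 19), (nat_lit 0), (nat_lit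
 0), (nat_lit 0), (6, 30, 2), [14514, 152], 0⟩,
  ⟨⟨-27, 16, -1, 4, -15, -32, 6, 24, -17⟩, (.cons (nat_lit 16797) (nat_lit 10306) (nat_lit 5342) (nat_lit 1)
 (.cons (nat_lit 973) (nat_lit 727) (nat_lit 1253) (nat_lit 1) .nil)), (nat_lit 14), (nat_lit 0), (nat_lit 0),
 (nat_lit 0), (2, 2, 3), [10900, 453], 0⟩,
  ⟨⟨-29, 12, 29, 10, 29, -10, -20, 4, -11⟩, (.cons (nat_lit 2041) (nat_lit 4167) (nat_lit 12734) (nat_lit 1)
 (.cons (nat_lit 468) (nat_lit 787) (nat_lit 1) (nat_lit 740) .nil)), (nat_lit 19), (nat_lit 0), (nat_lit 0),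
 (nat_lit 0), (4, 20, 22), [7636, 467], 0⟩,
  ⟨⟨23, 12, 13, 4, 25, -22, 26, -8, -19⟩, (.cons (nat_lit 8411) (nat_lit 14263) (nat_lit 1) (nat_lit 15778)
 (.cons (nat_lit 1308) (nat_lit 768) (nat_lit 36) (nat_lit 1) .nil)), (nat_lit 18), (nat_lit 0), (nat_lit 0),
 (nat_lit 0), (23, 4, 26), [712, 616], 0⟩,
  ⟨⟨-9, -8, -31, -10, 29, 0, 20, 4, -31⟩, (.cons (nat_lit 2251) (nat_lit 9945) (nat_lit 9246) (nat_lit 1)
 (.cons (nat_lit 981) (nat_lit 727) (nat_lit 1327) (nat_lit 1) .nil)), (nat_lit 20), (nat_lit 0), (nat_lit 0),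
 (nat_lit 0), (24, 6, 19), [7797, 868], 0⟩,
  ⟨⟨31, 0, -31, -10, 19, -20, 4, -20, -23⟩, (.cons (nat_lit 13084) (nat_lit 14937) (nat_lit 2123) (nat_lit 1)
 (.cons (nat_lit 79) (nat_lit 1148) (nat_lit 540) (nat_lit 1) .nil)), (nat_lit 8), (nat_lit 0), (nat_lit 0),
 (nat_lit 0), (0, 22, 16), [5115, 1156], 0⟩,
  ⟨⟨21, 4, -40, -16, 25, -2, 22, 16, -5⟩, (.cons (nat_lit 13051) (nat_lit 4961) (nat_lit 9751) (nat_lit 1)
 (.cons (nat_lit 789) (nat_lit 399) (nat_lit 899) (nat_lit 1) .nil)), (nat_lit 15), (nat_lit 0), (nat_lit 0),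
 (nat_lit 0), (10, 16, 9), [6554, 473], 0⟩,
  ⟨⟨-27, -16, -1, 4, 15, -32, 6, -24, -17⟩, (.cons (nat_lit 11768) (nat_lit 11337) (nat_lit 599) (nat_lit 1)
 (.cons (nat_lit 604) (nat_lit 411) (nat_lit 1175) (nat_lit 1) .nil)), (nat_lit 14), (nat_lit 0), (nat_lit 0),
 (nat_lit 0), (15, 15, 7), [2783, 267], 0⟩,
  ⟨⟨1, 12, -36, -16, 25, 18, 22, 16, -17⟩, (.cons (nat_lit 9802) (nat_lit 7489) (nat_lit 1) (nat_lit 931)
 (.cons (nat_lit 748) (nat_lit 350) (nat_lit 1) (nat_lit 1184) .nil)), (nat_lit 2), (nat_lit 0), (nat_lit 0),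
 (nat_lit 0), (19, 6, 15), [3237, 768], 0⟩,
  ⟨⟨31, 0, -31, -10, -19, -20, 4, 20, -23⟩, (.cons (nat_lit 9063) (nat_lit 4050) (nat_lit 11965) (nat_lit 1)
 (.cons (nat_lit 171) (nat_lit 682) (nat_lit 860) (nat_lit 1) .nil)), (nat_lit 8), (nat_lit 0), (nat_lit 0),
 (nat_lit 0), (0, 20, 23), [15951, 763], 0⟩]

/-- Moves. -/
noncomputable def t4_3 : List Mv := [
  mz,
  ⟨⟨3, 20, 29, -4, 25, -18, 26, 8, -7⟩, (.cons (nat_lit 12576) (nat_lit 1526) (nat_lit 7979) (nat_lit 1) (.cons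
 (nat_lit 337) (nat_lit 1265) (nat_lit 156) (nat_lit 1) .nil)), (nat_lit 6), (nat_lit 0), (nat_lit 0), (nat_lit
 0), (26, 17, 29), [16480, 1353], 0⟩,
  ⟨⟨3, -20, 29, -4, -25, -18, 26, -8, -7⟩, (.cons (nat_lit 7462) (nat_lit 10930) (nat_lit 9761) (nat_lit 1)
 (.cons (nat_lit 20) (nat_lit 126) (nat_lit 462) (nat_lit 1) .nil)), (nat_lit 6), (nat_lit 0), (nat_lit 0),
 (nat_lit 0), (19, 16, 20), [8275, 390], 0⟩,
  mz,
  ⟨⟨-33, 8, 17, 4, 15, 28, -6, 24, -11⟩, (.cons (nat_lit 358) (nat_lit 5221) (nat_lit 14530) (nat_lit 1) (.cons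
 (nat_lit 293) (nat_lit 1210) (nat_lit 460) (nat_lit 1) .nil)), (nat_lit 21), (nat_lit 0), (nat_lit 0),
 (nat_lit 0), (23, 16, 7), [1929, 1145], 0⟩,
  mz,
  ⟨⟨1, -12, 35, -16, -25, -2, 22, -16, -5⟩, (.cons (nat_lit 11118) (nat_lit 11677) (nat_lit 1) (nat_lit 3164)
 (.cons (nat_lit 753) (nat_lit 952) (nat_lit 1209) (nat_lit 1) .nil)), (nat_lit 2), (nat_lit 0), (nat_lit 0),
 (nat_lit 0), (1, 15, 22), [291, 309], 0⟩,
  mz,
  ⟨⟨27, -20, -19, -10, -19, 30, -4, -20, -19⟩, (.cons (nat_lit 13940) (nat_lit 14520) (nat_lit 568) (nat_lit 1)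
 (.cons (nat_lit 1361) (nat_lit 1349) (nat_lit 35) (nat_lit 1) .nil)), (nat_lit 29), (nat_lit 0), (nat_lit 0),
 (nat_lit 0), (29, 26, 29), [11889, 917], 0⟩,
  mz,
  mz,
  mz,
  mz,
  ⟨⟨27, 20, -19, -10, 19, 30, -4, 20, -19⟩, (.cons (nat_lit 2318) (nat_lit 1130) (nat_lit 14942) (nat_lit 1)
 (.cons (nat_lit 237) (nat_lit 1214) (nat_lit 128) (nat_lit 1) .nil)), (nat_lit 29), (nat_lit 0), (nat_lit 0),
 (nat_lit 0), (5, 28, 5), [10036, 508], 0⟩,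
  ⟨⟨-33, -8, 17, 4, -15, 28, -6, -24, -11⟩, (.cons (nat_lit 5042) (nat_lit 4392) (nat_lit 7257) (nat_lit 1)
 (.cons (nat_lit 1248) (nat_lit 351) (nat_lit 1023) (nat_lit 1) .nil)), (nat_lit 21), (nat_lit 0), (nat_lit 0),
 (nat_lit 0), (14, 3, 11), [109, 937], 0⟩,
  ⟨⟨23, -12, 13, 4, -25, -22, 26, 8, -19⟩, (.cons (nat_lit 16627) (nat_lit 9188) (nat_lit 14812) (nat_lit 1)
 (.cons (nat_lit 768) (nat_lit 17) (nat_lit 1157) (nat_lit 1) .nil)), (nat_lit 18), (nat_lit 0), (nat_lit 0),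
 (nat_lit 0), (25, 3, 4), [15224, 1], 0⟩,
  mz,
  mz,
  ⟨⟨21, -4, 19, 16, 25, -18, 22, -16, -17⟩, (.cons (nat_lit 9947) (nat_lit 7062) (nat_lit 12325) (nat_lit 1)
 (.cons (nat_lit 1167) (nat_lit 439) (nat_lit 427) (nat_lit 1) .nil)), (nat_lit 23), (nat_lit 0), (nat_lit 0),
 (nat_lit 0), (7, 26, 28), [12039, 424], 0⟩,
  ⟨⟨-9, 8, -31, 10, 29, 0, 20, -4, -31⟩, (.cons (nat_lit 807) (nat_lit 15438) (nat_lit 9546) (nat_lit 1) (.cons
 (nat_lit 259) (nat_lit 89) (nat_lit 1056) (nat_lit 1) .nil)), (nat_lit 22), (nat_lit 0), (nat_lit 0), (nat_lit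
 0), (2, 15, 30), [14976, 912], 0⟩,
  ⟨⟨9, 8, -40, 10, -29, -10, -20, -4, -11⟩, (.cons (nat_lit 16806) (nat_lit 8102) (nat_lit 1908) (nat_lit 1)
 (.cons (nat_lit 1368) (nat_lit 862) (nat_lit 279) (nat_lit 1) .nil)), (nat_lit 20), (nat_lit 0), (nat_lit 0),
 (nat_lit 0), (27, 30, 2), [864, 105], 0⟩,
  ⟨⟨33, 8, -16, 4, -15, -32, 6, 24, -17⟩, (.cons (nat_lit 4777) (nat_lit 15951) (nat_lit 9787) (nat_lit 1)
 (.cons (nat_lit 1027) (nat_lit 736) (nat_lit 397) (nat_lit 1) .nil)), (nat_lit 27), (nat_lit 0), (nat_lit 0),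
 (nat_lit 0), (1, 2, 3), [2892, 1071], 0⟩,
  ⟨⟨9, -8, -40, 10, 29, -10, -20, 4, -11⟩, (.cons (nat_lit 5470) (nat_lit 11849) (nat_lit 9829) (nat_lit 1)
 (.cons (nat_lit 453) (nat_lit 842) (nat_lit 1043) (nat_lit 1) .nil)), (nat_lit 20), (nat_lit 0), (nat_lit 0),
 (nat_lit 0), (18, 20, 22), [14860, 99], 0⟩,
  ⟨⟨23, 12, 13, 4, 25, -22, 26, -8, -19⟩, (.cons (nat_lit 8411) (nat_lit 14263) (nat_lit 1) (nat_lit 15778)
 (.cons (nat_lit 1308) (nat_lit 768) (nat_lit 36) (nat_lit 1) .nil)), (nat_lit 18), (nat_lit 0), (nat_lit 0),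
 (nat_lit 0), (23, 4, 26), [712, 616], 0⟩,
  ⟨⟨-9, -8, -31, 10, -29, 0, 20, 4, -31⟩, (.cons (nat_lit 8590) (nat_lit 14965) (nat_lit 5822) (nat_lit 1)
 (.cons (nat_lit 1339) (nat_lit 650) (nat_lit 858) (nat_lit 1) .nil)), (nat_lit 22), (nat_lit 0), (nat_lit 0),
 (nat_lit 0), (24, 25, 19), [14045, 529], 0⟩,
  ⟨⟨31, 0, -31, -10, 19, -20, 4, -20, -23⟩, (.cons (nat_lit 13084) (nat_lit 14937) (nat_lit 2123) (nat_lit 1)
 (.cons (nat_lit 79) (nat_lit 1148) (nat_lit 540) (nat_lit 1) .nil)), (nat_lit 8), (nat_lit 0), (nat_lit 0),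
 (nat_lit 0), (0, 22, 16), [5115, 1156], 0⟩,
  ⟨⟨1, 12, 35, -16, 25, -2, 22, 16, -5⟩, (.cons (nat_lit 11001) (nat_lit 7184) (nat_lit 6496) (nat_lit 1)
 (.cons (nat_lit 113) (nat_lit 563) (nat_lit 1036) (nat_lit 1) .nil)), (nat_lit 2), (nat_lit 0), (nat_lit 0),
 (nat_lit 0), (30, 16, 9), [961, 160], 0⟩,
  ⟨⟨33, -8, -16, 4, 15, -32, 6, -24, -17⟩, (.cons (nat_lit 16806) (nat_lit 3076) (nat_lit 5555) (nat_lit 1)
 (.cons (nat_lit 1368) (nat_lit 812) (nat_lit 951) (nat_lit 1) .nil)), (nat_lit 27), (nat_lit 0), (nat_lit 0),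
 (nat_lit 0), (23, 15, 7), [13199, 269], 0⟩,
  ⟨⟨21, 4, 19, 16, -25, -18, 22, 16, -17⟩, (.cons (nat_lit 3425) (nat_lit 14889) (nat_lit 2602) (nat_lit 1)
 (.cons (nat_lit 944) (nat_lit 0) (nat_lit 747) (nat_lit 1) .nil)), (nat_lit 23), (nat_lit 0), (nat_lit 0),
 (nat_lit 0), (27, 25, 15), [6614, 515], 0⟩,
  ⟨⟨31, 0, -31, -10, -19, -20, 4, 20, -23⟩, (.cons (nat_lit 9063) (nat_lit 4050) (nat_lit 11965) (nat_lit 1)
 (.cons (nat_lit 171) (nat_lit 682) (nat_lit 860) (nat_lit 1) .nil)), (nat_lit 8), (nat_lit 0), (nat_lit 0),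
 (nat_lit 0), (0, 20, 23), [15951, 763], 0⟩]

/-- All the moves. -/
noncomputable def tabs : List (List (List Mv)) := [[[], t0_1, [], t0_3], [[], t1_1, [], t1_3], [], [], [[], t4_1, [], t4_3]]

/-- Subtrie. -/
noncomputable def T1 : Tr := (.ev (nat_lit 20) (nat_lit 50331666) (.nd (nat_lit 33) (.br (nat_lit 19) (.br
 (nat_lit 11) (.br (nat_lit 7) (.br (nat_lit 4) (.ch (nat_lit 1) (.ev (nat_lit 52) (nat_lit 13402368) (.ev
 (nat_lit 148) (nat_lit 135266304) (.ev (nat_lit 340) (nat_lit 4) (.ev (nat_lit 624) (nat_lit 8192) (.nd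
 (nat_lit 688) (.br (nat_lit 3) (.ch (nat_lit 1) (.ev (nat_lit 704) (nat_lit 538968064) (.ev (nat_lit 1092)
 (nat_lit 16384) (.ev (nat_lit 1492) (nat_lit 64) (.nd (nat_lit 1680) (.br (nat_lit 3) (.ch (nat_lit 1) (.fin
 (nat_lit 576461302055518782))) (.br (nat_lit 5) (.ch (nat_lit 3) (.ev (nat_lit 1696) (nat_lit 67108864) (.ev
 (nat_lit 1709) (nat_lit 268435456) .dd))) (.ch (nat_lit 5) (.ev (nat_lit 1696) (nat_lit 268435456) (.ev
 (nat_lit 1709) (nat_lit 67108864) .dd)))))))))) (.br (nat_lit 6) (.ch (nat_lit 3) (.ev (nat_lit 704) (nat_lit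
 69222400) (.nd (nat_lit 1296) (.br (nat_lit 6) (.ch (nat_lit 3) (.ev (nat_lit 1312) (nat_lit 268435456) (.ev
 (nat_lit 1492) (nat_lit 536870912) (.ev (nat_lit 1501) (nat_lit 64) .dd)))) (.ch (nat_lit 6) (.ev (nat_lit
 1312) (nat_lit 536870912) (.nd (nat_lit 1888) (.br (nat_lit 6) (.ch (nat_lit 0) (.ev (nat_lit 1904) (nat_lit
 64) (.ev (nat_lit 1917) (nat_lit 268435456) .dd))) (.ch (nat_lit 6) (.fin (nat_lit
 576474496383796092))))))))))) (.ch (nat_lit 6) (.ev (nat_lit 704) (nat_lit 805306432) (.nd (nat_lit 1296) (.br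
 (nat_lit 3) (.ch (nat_lit 0) (.ev (nat_lit 1312) (nat_lit 69206016) (.ev (nat_lit 1325) (nat_lit 16384) .dd)))
 (.ch (nat_lit 3) (.ev (nat_lit 1444) (nat_lit 16384) (.nd (nat_lit 1920) (.br (nat_lit 2) (.ch (nat_lit 1)
 (.ev (nat_lit 1936) (nat_lit 2097152) (.ev (nat_lit 1949) (nat_lit 67108864) .dd))) (.ch (nat_lit 2) (.fin
 (nat_lit 576474496213926508))))))))))))))))))) (.br (nat_lit 5) (.ch (nat_lit 4) (.ev (nat_lit 52) (nat_lit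
 805355520) (.ev (nat_lit 116) (nat_lit 135266304) (.ev (nat_lit 148) (nat_lit 8388608) (.ev (nat_lit 276)
 (nat_lit 4194304) (.ev (nat_lit 308) (nat_lit 256) (.ev (nat_lit 436) (nat_lit 524288) (.ev (nat_lit 672)
 (nat_lit 262144) (.nd (nat_lit 688) (.br (nat_lit 2) (.ch (nat_lit 0) (.ev (nat_lit 704) (nat_lit 69214208)
 (.ev (nat_lit 848) (nat_lit 64) (.ev (nat_lit 861) (nat_lit 4) .dd)))) (.br (nat_lit 3) (.ch (nat_lit 2) (.ev
 (nat_lit 704) (nat_lit 2097216) (.ev (nat_lit 1024) (nat_lit 8192) (.nd (nat_lit 1600) (.br (nat_lit 5) (.ch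
 (nat_lit 4) (.ev (nat_lit 1616) (nat_lit 67108864) (.ev (nat_lit 1629) (nat_lit 4) .dd))) (.ch (nat_lit 5)
 (.fin (nat_lit 576463501099745854)))))))) (.ch (nat_lit 3) (.ev (nat_lit 704) (nat_lit 8196) (.nd (nat_lit
 1296) (.br (nat_lit 1) (.ch (nat_lit 0) (.ev (nat_lit 1312) (nat_lit 2097152) (.fin (nat_lit
 576646020176757136)))) (.br (nat_lit 6) (.ch (nat_lit 1) (.ev (nat_lit 1312) (nat_lit 64) (.ev (nat_lit 1472)
 (nat_lit 69206016) .dd))) (.ch (nat_lit 6) (.ev (nat_lit 1312) (nat_lit 67108864) (.fin (nat_lit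
 576476695218307625)))))))))))))))))))) (.ch (nat_lit 5) (.ev (nat_lit 52) (nat_lit 545521664) (.ev (nat_lit
 84) (nat_lit 524544) (.ev (nat_lit 180) (nat_lit 4) (.ev (nat_lit 308) (nat_lit 67108864) (.ev (nat_lit 436)
 (nat_lit 134217728) (.nd (nat_lit 688) (.br (nat_lit 3) (.br (nat_lit 2) (.ch (nat_lit 1) (.ev (nat_lit 704)
 (nat_lit 6332480) (.ev (nat_lit 868) (nat_lit 268435456) (.nd (nat_lit 1296) (.br (nat_lit 3) (.ch (nat_lit 1)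
 (.ev (nat_lit 1312) (nat_lit 1064960) .dd)) (.br (nat_lit 5) (.ch (nat_lit 3) (.ev (nat_lit 1312) (nat_lit
 1048576) (.ev (nat_lit 1325) (nat_lit 16384) .dd))) (.ch (nat_lit 5) (.fin (nat_lit
 576465700110418456))))))))) (.ch (nat_lit 2) (.ev (nat_lit 704) (nat_lit 275824704) (.ev (nat_lit 717)
 (nat_lit 8192) .dd)))) (.br (nat_lit 6) (.ch (nat_lit 3) (.ev (nat_lit 704) (nat_lit 1073152) (.ev (nat_lit
 1200) (nat_lit 64) (.nd (nat_lit 1600) (.br (nat_lit 5) (.ch (nat_lit 0) (.ev (nat_lit 1616) (nat_lit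
 268468224) (.fin (nat_lit 576464600600887876)))) (.br (nat_lit 6) (.ch (nat_lit 5) (.ev (nat_lit 1616)
 (nat_lit 6324224) (.ev (nat_lit 1629) (nat_lit 268435456) .dd))) (.ch (nat_lit 6) (.ev (nat_lit 1616) (nat_lit
 6291456) (.fin (nat_lit 576454704977363522)))))))))) (.ch (nat_lit 6) (.ev (nat_lit 704) (nat_lit 275783744)
 (.nd (nat_lit 1296) (.br (nat_lit 3) (.ch (nat_lit 0) (.fin (nat_lit 576540466683003772))) (.br (nat_lit 6)
 (.ch (nat_lit 3) (.ev (nat_lit 1492) (nat_lit 32768) (.ev (nat_lit 1501) (nat_lit 16384) .dd))) (.ch (nat_lit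
 6) (.ev (nat_lit 1312) (nat_lit 49152) .dd)))))))))))))))))) (.br (nat_lit 8) (.ch (nat_lit 7) (.ev (nat_lit
 52) (nat_lit 673497408) (.ev (nat_lit 180) (nat_lit 67108864) (.ev (nat_lit 340) (nat_lit 8192) (.ev (nat_lit
 480) (nat_lit 4194304) (.nd (nat_lit 688) (.br (nat_lit 2) (.ch (nat_lit 1) (.ev (nat_lit 704) (nat_lit
 524288) (.ev (nat_lit 752) (nat_lit 4) (.nd (nat_lit 1296) (.br (nat_lit 3) (.ch (nat_lit 1) (.ev (nat_lit
 1312) (nat_lit 276824064) (.ev (nat_lit 1325) (nat_lit 1048576) .dd))) (.br (nat_lit 6) (.ch (nat_lit 3) (.ev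
 (nat_lit 1312) (nat_lit 268435456) (.nd (nat_lit 1888) (.br (nat_lit 2) (.ch (nat_lit 1) (.ev (nat_lit 1904)
 (nat_lit 9437184) .dd)) (.ch (nat_lit 2) (.fin (nat_lit 576487690332488300))))))) (.ch (nat_lit 6) (.ev
 (nat_lit 1312) (nat_lit 1048576) (.nd (nat_lit 1888) (.br (nat_lit 5) (.ch (nat_lit 4) (.ev (nat_lit 1904)
 (nat_lit 276824064) .dd)) (.ch (nat_lit 5) (.fin (nat_lit 576799951657845556))))))))))))) (.br (nat_lit 3)
 (.ch (nat_lit 2) (.ev (nat_lit 704) (nat_lit 278396928) (.ev (nat_lit 717) (nat_lit 4) .dd))) (.ch (nat_lit 3)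
 (.ev (nat_lit 704) (nat_lit 9437188) (.nd (nat_lit 1296) (.br (nat_lit 1) (.ch (nat_lit 0) (.ev (nat_lit 1392)
 (nat_lit 268959744) .dd)) (.ch (nat_lit 1) (.ev (nat_lit 1312) (nat_lit 268959744) .dd)))))))))))))) (.br
 (nat_lit 10) (.ch (nat_lit 8) (.ev (nat_lit 52) (nat_lit 9437188) (.ev (nat_lit 212) (nat_lit 64) (.ev
 (nat_lit 308) (nat_lit 16384) (.ev (nat_lit 340) (nat_lit 268435456) (.ev (nat_lit 448) (nat_lit 2105344) (.nd
 (nat_lit 688) (.br (nat_lit 2) (.ch (nat_lit 1) (.ev (nat_lit 704) (nat_lit 138445056) (.ev (nat_lit 784)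
 (nat_lit 536870912) (.nd (nat_lit 1296) (.br (nat_lit 6) (.ch (nat_lit 1) (.ev (nat_lit 1312) (nat_lit 524288)
 (.fin (nat_lit 576448108104728836)))) (.ch (nat_lit 6) (.ev (nat_lit 1360) (nat_lit 67108864) (.fin (nat_lit
 576487690322002536))))))))) (.br (nat_lit 3) (.ch (nat_lit 2) (.ev (nat_lit 704) (nat_lit 541884416) (.ev
 (nat_lit 720) (nat_lit 256) (.ev (nat_lit 1126) (nat_lit 67108864) (.ev (nat_lit 1133) (nat_lit 134217728)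
 .dd))))) (.ch (nat_lit 3) (.ev (nat_lit 704) (nat_lit 67895552) (.ev (nat_lit 784) (nat_lit 536870912) (.nd
 (nat_lit 1296) (.br (nat_lit 6) (.ch (nat_lit 1) (.ev (nat_lit 1444) (nat_lit 134217728) (.fin (nat_lit
 576487690347168364)))) (.ch (nat_lit 6) (.ev (nat_lit 1312) (nat_lit 4194304) (.fin (nat_lit
 576448107853070556)))))))))))))))))) (.ch (nat_lit 10) (.ev (nat_lit 52) (nat_lit 480780288) (.ev (nat_lit
 244) (nat_lit 1048576) (.ev (nat_lit 340) (nat_lit 16384) (.nd (nat_lit 688) (.br (nat_lit 3) (.br (nat_lit 2)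
 (.ch (nat_lit 0) (.ev (nat_lit 704) (nat_lit 541065472) (.nd (nat_lit 1296) (.br (nat_lit 5) (.ch (nat_lit 0)
 (.ev (nat_lit 1312) (nat_lit 68) (.ev (nat_lit 1424) (nat_lit 262144) (.ev (nat_lit 1437) (nat_lit 32768)
 .dd)))) (.br (nat_lit 6) (.ch (nat_lit 5) (.ev (nat_lit 1312) (nat_lit 294912) (.ev (nat_lit 1348) (nat_lit 4)
 (.ev (nat_lit 1357) (nat_lit 64) .dd)))) (.ch (nat_lit 6) (.ev (nat_lit 1312) (nat_lit 262144) (.ev (nat_lit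
 1456) (nat_lit 64) (.fin (nat_lit 576456904011104830)))))))))) (.ch (nat_lit 2) (.ev (nat_lit 704) (nat_lit
 541360196) (.ev (nat_lit 717) (nat_lit 256) .dd)))) (.br (nat_lit 6) (.ch (nat_lit 3) (.ev (nat_lit 704)
 (nat_lit 262468) (.nd (nat_lit 1296) (.br (nat_lit 1) (.ch (nat_lit 0) (.ev (nat_lit 1312) (nat_lit 4227072)
 (.ev (nat_lit 1325) (nat_lit 536870912) .dd))) (.br (nat_lit 6) (.ch (nat_lit 1) (.ev (nat_lit 1312) (nat_lit
 536870912) (.nd (nat_lit 1888) (.br (nat_lit 2) (.ch (nat_lit 0) (.ev (nat_lit 1904) (nat_lit 4194304) (.ev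
 (nat_lit 1917) (nat_lit 32768) .dd))) (.ch (nat_lit 2) (.fin (nat_lit 576434913774354964))))))) (.ch (nat_lit
 6) (.ev (nat_lit 1312) (nat_lit 536903680) (.ev (nat_lit 1325) (nat_lit 4194304) .dd)))))))) (.ch (nat_lit 6)
 (.ev (nat_lit 704) (nat_lit 4489280) (.ev (nat_lit 1092) (nat_lit 256) (.nd (nat_lit 1600) (.br (nat_lit 3)
 (.ch (nat_lit 0) (.ev (nat_lit 1616) (nat_lit 536870916) .dd)) (.br (nat_lit 5) (.ch (nat_lit 3) (.nd (nat_lit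
 1952) (.br (nat_lit 5) (.ch (nat_lit 1) (.ev (nat_lit 1968) (nat_lit 536870912) (.ev (nat_lit 1981) (nat_lit
 4) .dd))) (.ch (nat_lit 5) (.fin (nat_lit 576760369270702972)))))) (.ch (nat_lit 5) (.ev (nat_lit 1616)
 (nat_lit 4) (.ev (nat_lit 1629) (nat_lit 536870912) .dd))))))))))))))))))) (.br (nat_lit 15) (.br (nat_lit 12)
 (.ch (nat_lit 11) (.ev (nat_lit 52) (nat_lit 277929984) (.ev (nat_lit 180) (nat_lit 134217728) (.ev (nat_lit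
 372) (nat_lit 64) (.nd (nat_lit 688) (.br (nat_lit 3) (.br (nat_lit 2) (.ch (nat_lit 1) (.ev (nat_lit 704)
 (nat_lit 6291460) (.ev (nat_lit 868) (nat_lit 256) (.ev (nat_lit 982) (nat_lit 536870912) (.nd (nat_lit 1600)
 (.br (nat_lit 3) (.ch (nat_lit 1) (.ev (nat_lit 1616) (nat_lit 524288) (.nd (nat_lit 1920) (.br (nat_lit 4)
 (.br (nat_lit 2) (.ch (nat_lit 0) (.ev (nat_lit 1936) (nat_lit 67371008) .dd)) (.ch (nat_lit 2) (.fin (nat_lit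
 576474496016794492)))) (.br (nat_lit 6) (.ch (nat_lit 4) (.ev (nat_lit 1936) (nat_lit 67371008) .dd)) (.ch
 (nat_lit 6) (.ev (nat_lit 1936) (nat_lit 67371008) .dd))))))) (.br (nat_lit 6) (.ch (nat_lit 3) (.ev (nat_lit
 1616) (nat_lit 67371008) (.ev (nat_lit 1629) (nat_lit 524288) .dd))) (.ch (nat_lit 6) (.ev (nat_lit 1814)
 (nat_lit 67108864) (.nd (nat_lit 1920) (.br (nat_lit 5) (.ch (nat_lit 4) (.ev (nat_lit 1936) (nat_lit 786432)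
 .dd)) (.ch (nat_lit 5) (.fin (nat_lit 576487690322002536)))))))))))))) (.ch (nat_lit 2) (.ev (nat_lit 704)
 (nat_lit 543948800) (.ev (nat_lit 1540) (nat_lit 256) (.nd (nat_lit 1824) (.br (nat_lit 5) (.ch (nat_lit 1)
 (.ev (nat_lit 1840) (nat_lit 4) (.ev (nat_lit 1853) (nat_lit 67108864) .dd))) (.ch (nat_lit 5) (.fin (nat_lit
 576463501099745854))))))))) (.br (nat_lit 6) (.ch (nat_lit 3) (.ev (nat_lit 704) (nat_lit 262404) (.ev
 (nat_lit 836) (nat_lit 536870912) (.ev (nat_lit 1008) (nat_lit 67108864) (.ev (nat_lit 1348) (nat_lit 524288)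
 (.nd (nat_lit 1680) (.br (nat_lit 5) (.ch (nat_lit 0) (.nd (nat_lit 1984) (.br (nat_lit 5) (.ch (nat_lit 2)
 (.fin (nat_lit 576458003520635452))) (.ch (nat_lit 5) (.ev (nat_lit 2000) (nat_lit 6291456) .dd))))) (.br
 (nat_lit 6) (.ch (nat_lit 5) (.ev (nat_lit 1696) (nat_lit 6291456) .dd)) (.ch (nat_lit 6) (.ev (nat_lit 1696)
 (nat_lit 6291456) .dd)))))))))) (.ch (nat_lit 6) (.ev (nat_lit 704) (nat_lit 74187012) (.ev (nat_lit 717)
 (nat_lit 536870912) .dd)))))))))) (.br (nat_lit 13) (.ch (nat_lit 12) (.ev (nat_lit 52) (nat_lit 1012957444)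
 (.ev (nat_lit 116) (nat_lit 262144) (.ev (nat_lit 404) (nat_lit 64) (.ev (nat_lit 416) (nat_lit 9986048)
 .dd))))) (.ch (nat_lit 13) (.ev (nat_lit 52) (nat_lit 71344448) (.ev (nat_lit 148) (nat_lit 262144) (.ev
 (nat_lit 180) (nat_lit 16384) (.ev (nat_lit 244) (nat_lit 8388608) (.ev (nat_lit 276) (nat_lit 536870912) (.nd
 (nat_lit 688) (.br (nat_lit 3) (.ch (nat_lit 0) (.ev (nat_lit 704) (nat_lit 268959744) (.ev (nat_lit 836)
 (nat_lit 2097152) (.ev (nat_lit 1444) (nat_lit 1048576) (.nd (nat_lit 1680) (.br (nat_lit 5) (.ch (nat_lit 0)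
 (.ev (nat_lit 1696) (nat_lit 4) (.ev (nat_lit 1709) (nat_lit 134217728) .dd))) (.br (nat_lit 6) (.ch (nat_lit
 5) (.fin (nat_lit 576382137438520116))) (.ch (nat_lit 6) (.ev (nat_lit 1696) (nat_lit 134217732) .dd)))))))))
 (.br (nat_lit 6) (.ch (nat_lit 3) (.ev (nat_lit 704) (nat_lit 135790596) (.ev (nat_lit 768) (nat_lit
 268435456) (.ev (nat_lit 781) (nat_lit 2097152) .dd)))) (.ch (nat_lit 6) (.ev (nat_lit 704) (nat_lit
 271581184) (.nd (nat_lit 1296) (.br (nat_lit 1) (.ch (nat_lit 0) (.ev (nat_lit 1312) (nat_lit 4) (.fin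
 (nat_lit 576456904011104788)))) (.br (nat_lit 6) (.ch (nat_lit 1) (.ev (nat_lit 1312) (nat_lit 524288) (.ev
 (nat_lit 1348) (nat_lit 134217728) (.ev (nat_lit 1357) (nat_lit 4) .dd)))) (.ch (nat_lit 6) (.ev (nat_lit
 1312) (nat_lit 134742020) .dd)))))))))))))))))) (.br (nat_lit 17) (.br (nat_lit 16) (.ch (nat_lit 15) (.ev
 (nat_lit 52) (nat_lit 7864384) (.ev (nat_lit 84) (nat_lit 262144) (.ev (nat_lit 116) (nat_lit 67125504) (.ev
 (nat_lit 180) (nat_lit 268435456) (.ev (nat_lit 372) (nat_lit 536870912) (.nd (nat_lit 688) (.br (nat_lit 2)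
 (.ch (nat_lit 0) (.ev (nat_lit 704) (nat_lit 142606340) (.ev (nat_lit 1526) (nat_lit 40960) .dd))) (.br
 (nat_lit 3) (.ch (nat_lit 2) (.ev (nat_lit 704) (nat_lit 8421376) (.ev (nat_lit 836) (nat_lit 4) (.ev (nat_lit
 848) (nat_lit 134217728) (.ev (nat_lit 861) (nat_lit 8192) .dd))))) (.ch (nat_lit 3) (.ev (nat_lit 704)
 (nat_lit 8196) (.nd (nat_lit 1296) (.br (nat_lit 6) (.ch (nat_lit 1) (.ev (nat_lit 1312) (nat_lit 142606336)
 (.ev (nat_lit 1325) (nat_lit 32768) .dd))) (.ch (nat_lit 6) (.nd (nat_lit 1888) (.br (nat_lit 3) (.ch (nat_lit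
 0) (.ev (nat_lit 1904) (nat_lit 8388608) (.fin (nat_lit 576474496268452772)))) (.ch (nat_lit 3) (.ev (nat_lit
 1904) (nat_lit 32768) (.fin (nat_lit 576478894262534753)))))))))))))))))))) (.ch (nat_lit 16) (.ev (nat_lit
 52) (nat_lit 69214464) (.ev (nat_lit 180) (nat_lit 1048576) (.ev (nat_lit 464) (nat_lit 8388672) (.nd (nat_lit
 688) (.br (nat_lit 1) (.ch (nat_lit 0) (.ev (nat_lit 704) (nat_lit 524288) (.nd (nat_lit 1296) (.br (nat_lit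
 5) (.br (nat_lit 4) (.ch (nat_lit 0) (.ev (nat_lit 1312) (nat_lit 268746756) (.ev (nat_lit 1766) (nat_lit
 134217728) (.nd (nat_lit 1984) (.ch (nat_lit 1) (.nd (nat_lit 2160) (.br (nat_lit 5) (.ch (nat_lit 4) (.fin
 (nat_lit 576432714774168105))) (.ch (nat_lit 5) (.ev (nat_lit 2176) (nat_lit 536870912) (.ev (nat_lit 2189)
 (nat_lit 4194304) .dd)))))))))) (.ch (nat_lit 4) (.ev (nat_lit 1312) (nat_lit 943718404) (.ev (nat_lit 1750)
 (nat_lit 32768) (.nd (nat_lit 2016) (.ch (nat_lit 5) (.nd (nat_lit 2160) (.br (nat_lit 5) (.ch (nat_lit 4)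
 (.ev (nat_lit 2176) (nat_lit 262144) (.ev (nat_lit 2189) (nat_lit 16384) .dd))) (.ch (nat_lit 5) (.fin
 (nat_lit 576445908892729883))))))))))) (.br (nat_lit 6) (.ch (nat_lit 5) (.ev (nat_lit 1312) (nat_lit
 809811968) (.nd (nat_lit 1952) (.br (nat_lit 3) (.ch (nat_lit 0) (.ev (nat_lit 1968) (nat_lit 134217728) (.ev
 (nat_lit 1981) (nat_lit 4) .dd))) (.ch (nat_lit 3) (.fin (nat_lit 576540466683003212))))))) (.ch (nat_lit 6)
 (.ev (nat_lit 1312) (nat_lit 675561476) (.nd (nat_lit 1888) (.br (nat_lit 5) (.ch (nat_lit 2) (.fin (nat_lit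
 576672408046879232))) (.ch (nat_lit 5) (.ev (nat_lit 1904) (nat_lit 32768) (.ev (nat_lit 1917) (nat_lit
 268435456) .dd)))))))))))) (.br (nat_lit 6) (.ch (nat_lit 1) (.ev (nat_lit 704) (nat_lit 675282948) (.ev
 (nat_lit 900) (nat_lit 16384) (.nd (nat_lit 1296) (.br (nat_lit 3) (.ch (nat_lit 0) (.ev (nat_lit 1312)
 (nat_lit 557056) (.nd (nat_lit 1888) (.br (nat_lit 6) (.ch (nat_lit 3) (.ev (nat_lit 1904) (nat_lit 262144)
 (.ev (nat_lit 1917) (nat_lit 268435456) .dd))) (.ch (nat_lit 6) (.fin (nat_lit 576646019851699096))))))) (.ch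
 (nat_lit 3) (.ev (nat_lit 1312) (nat_lit 268697600) (.nd (nat_lit 1888) (.br (nat_lit 4) (.ch (nat_lit 1) (.ev
 (nat_lit 1904) (nat_lit 524288) (.ev (nat_lit 1917) (nat_lit 32768) .dd))) (.ch (nat_lit 4) (.fin (nat_lit
 576500884465730128)))))))))))) (.ch (nat_lit 6) (.ev (nat_lit 704) (nat_lit 268746752) (.nd (nat_lit 1296)
 (.br (nat_lit 3) (.ch (nat_lit 0) (.ev (nat_lit 1312) (nat_lit 536870916) (.ev (nat_lit 1492) (nat_lit
 4194304) (.nd (nat_lit 1888) (.br (nat_lit 3) (.ch (nat_lit 0) (.fin (nat_lit 576456904011104788))) (.ch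
 (nat_lit 3) (.ev (nat_lit 1904) (nat_lit 524288) (.ev (nat_lit 1917) (nat_lit 134217728) .dd)))))))) (.ch
 (nat_lit 3) (.ev (nat_lit 1312) (nat_lit 138936320) (.nd (nat_lit 1920) (.br (nat_lit 5) (.ch (nat_lit 1) (.ev
 (nat_lit 1936) (nat_lit 536870912) (.ev (nat_lit 1949) (nat_lit 4) .dd))) (.ch (nat_lit 5) (.fin (nat_lit
 576162234850820356))))))))))))))))))) (.br (nat_lit 18) (.ch (nat_lit 17) (.ev (nat_lit 52) (nat_lit
 805568516) (.ev (nat_lit 84) (nat_lit 134217728) (.ev (nat_lit 244) (nat_lit 524288) (.nd (nat_lit 688) (.br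
 (nat_lit 1) (.ch (nat_lit 0) (.ev (nat_lit 704) (nat_lit 79741184) (.ev (nat_lit 736) (nat_lit 64) (.ev
 (nat_lit 800) (nat_lit 8192) (.nd (nat_lit 1296) (.br (nat_lit 6) (.ch (nat_lit 4) (.ev (nat_lit 1312)
 (nat_lit 2097152) (.ev (nat_lit 1325) (nat_lit 1048576) .dd))) (.ch (nat_lit 6) (.ev (nat_lit 1312) (nat_lit
 1048576) (.ev (nat_lit 1325) (nat_lit 2097152) .dd))))))))) (.br (nat_lit 6) (.ch (nat_lit 1) (.ev (nat_lit
 704) (nat_lit 6299712) (.ev (nat_lit 1056) (nat_lit 256) (.ev (nat_lit 1092) (nat_lit 32768) (.nd (nat_lit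
 1600) (.br (nat_lit 3) (.br (nat_lit 1) (.ch (nat_lit 0) (.ev (nat_lit 1616) (nat_lit 76562432) .dd)) (.ch
 (nat_lit 1) (.ev (nat_lit 1616) (nat_lit 1064960) (.nd (nat_lit 1920) (.ch (nat_lit 0) (.nd (nat_lit 2256)
 (.br (nat_lit 5) (.ch (nat_lit 3) (.fin (nat_lit 576206215410303196))) (.ch (nat_lit 5) (.ev (nat_lit 2272)
 (nat_lit 67108864) (.ev (nat_lit 2285) (nat_lit 8388608) .dd)))))))))) (.br (nat_lit 5) (.ch (nat_lit 3) (.ev
 (nat_lit 1616) (nat_lit 75513856) (.ev (nat_lit 1629) (nat_lit 1048576) .dd))) (.ch (nat_lit 5) (.ev (nat_lit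
 1616) (nat_lit 8388608) (.ev (nat_lit 1654) (nat_lit 67108864) (.nd (nat_lit 1888) (.br (nat_lit 6) (.ch
 (nat_lit 0) (.ev (nat_lit 1904) (nat_lit 1048576) (.ev (nat_lit 1917) (nat_lit 16384) .dd))) (.ch (nat_lit 6)
 (.fin (nat_lit 576465700110418456))))))))))))))) (.ch (nat_lit 6) (.ev (nat_lit 704) (nat_lit 1057088) (.ev
 (nat_lit 1264) (nat_lit 4194304) (.nd (nat_lit 1600) (.br (nat_lit 3) (.br (nat_lit 1) (.ch (nat_lit 0) (.ev
 (nat_lit 1616) (nat_lit 69206016) (.ev (nat_lit 1670) (nat_lit 8388608) (.nd (nat_lit 1920) (.ch (nat_lit 3)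
 (.nd (nat_lit 2224) (.br (nat_lit 6) (.ch (nat_lit 4) (.ev (nat_lit 2240) (nat_lit 16384) (.ev (nat_lit 2253)
 (nat_lit 32768) .dd))) (.ch (nat_lit 6) (.fin (nat_lit 576382137438519556)))))))))) (.ch (nat_lit 1) (.ev
 (nat_lit 1616) (nat_lit 77643776) .dd))) (.br (nat_lit 5) (.ch (nat_lit 3) (.ev (nat_lit 1616) (nat_lit
 8421376) (.ev (nat_lit 1798) (nat_lit 16384) (.nd (nat_lit 1920) (.br (nat_lit 2) (.ch (nat_lit 1) (.ev
 (nat_lit 1936) (nat_lit 2097152) (.ev (nat_lit 1949) (nat_lit 67108864) .dd))) (.ch (nat_lit 2) (.fin (nat_lit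
 576448107907596820)))))))) (.ch (nat_lit 5) (.ev (nat_lit 1616) (nat_lit 75546624) (.ev (nat_lit 1629)
 (nat_lit 2097152) .dd)))))))))))))))) (.ch (nat_lit 18) (.ev (nat_lit 52) (nat_lit 146546752) (.ev (nat_lit
 148) (nat_lit 4) (.ev (nat_lit 244) (nat_lit 67108864) (.ev (nat_lit 496) (nat_lit 256) (.nd (nat_lit 688)
 (.br (nat_lit 3) (.br (nat_lit 2) (.ch (nat_lit 0) (.ev (nat_lit 704) (nat_lit 268451840) (.nd (nat_lit 1296)
 (.br (nat_lit 1) (.ch (nat_lit 0) (.ev (nat_lit 1878) (nat_lit 32768) (.nd (nat_lit 1952) (.br (nat_lit 5)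
 (.br (nat_lit 1) (.ch (nat_lit 0) (.ev (nat_lit 1968) (nat_lit 541065216) .dd)) (.ch (nat_lit 1) (.fin
 (nat_lit 576489889347355223)))) (.br (nat_lit 6) (.ch (nat_lit 5) (.ev (nat_lit 1968) (nat_lit 541065216)
 .dd)) (.ch (nat_lit 6) (.ev (nat_lit 1968) (nat_lit 541065216) .dd))))))) (.br (nat_lit 6) (.ch (nat_lit 1)
 (.ev (nat_lit 1312) (nat_lit 541097984) .dd)) (.ch (nat_lit 6) (.ev (nat_lit 1312) (nat_lit 4194304) (.nd
 (nat_lit 1888) (.br (nat_lit 5) (.ch (nat_lit 1) (.fin (nat_lit 576316166845710736))) (.ch (nat_lit 5) (.ev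
 (nat_lit 1904) (nat_lit 536903680) .dd))))))))))) (.ch (nat_lit 2) (.ev (nat_lit 704) (nat_lit 809533440) (.ev
 (nat_lit 717) (nat_lit 16384) .dd)))) (.br (nat_lit 6) (.ch (nat_lit 3) (.ev (nat_lit 704) (nat_lit 4210688)
 (.ev (nat_lit 720) (nat_lit 536870912) (.nd (nat_lit 1600) (.br (nat_lit 1) (.ch (nat_lit 0) (.ev (nat_lit
 1616) (nat_lit 268468224) .dd)) (.br (nat_lit 6) (.ch (nat_lit 1) (.ev (nat_lit 1616) (nat_lit 268435456) (.ev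
 (nat_lit 1629) (nat_lit 32768) .dd))) (.ch (nat_lit 6) (.nd (nat_lit 1920) (.br (nat_lit 5) (.ch (nat_lit 2)
 (.fin (nat_lit 576454704977363522))) (.ch (nat_lit 5) (.ev (nat_lit 1936) (nat_lit 268468224) .dd)))))))))))
 (.ch (nat_lit 6) (.ev (nat_lit 704) (nat_lit 809500672) (.ev (nat_lit 1216) (nat_lit 32768) (.ev (nat_lit
 1229) (nat_lit 16384) .dd)))))))))))))))) (.br (nat_lit 26) (.br (nat_lit 22) (.br (nat_lit 20) (.ch (nat_lit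
 19) (.ev (nat_lit 52) (nat_lit 76554560) (.ev (nat_lit 160) (nat_lit 946651140) .dd))) (.br (nat_lit 21) (.ch
 (nat_lit 20) (.ev (nat_lit 52) (nat_lit 4513860) (.ev (nat_lit 148) (nat_lit 524288) (.ev (nat_lit 212)
 (nat_lit 536870912) (.ev (nat_lit 276) (nat_lit 2097152) (.ev (nat_lit 436) (nat_lit 1048576) (.nd (nat_lit
 688) (.br (nat_lit 3) (.br (nat_lit 2) (.ch (nat_lit 1) (.ev (nat_lit 704) (nat_lit 402653184) (.ev (nat_lit
 836) (nat_lit 256) (.nd (nat_lit 1296) (.br (nat_lit 1) (.ch (nat_lit 0) (.ev (nat_lit 1312) (nat_lit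
 75497472) .dd)) (.br (nat_lit 5) (.ch (nat_lit 1) (.fin (nat_lit 576716388711220132))) (.ch (nat_lit 5) (.ev
 (nat_lit 1312) (nat_lit 8388608) (.ev (nat_lit 1325) (nat_lit 67108864) .dd))))))))) (.ch (nat_lit 2) (.ev
 (nat_lit 704) (nat_lit 209715456) (.ev (nat_lit 717) (nat_lit 268435456) .dd)))) (.br (nat_lit 6) (.ch
 (nat_lit 3) (.ev (nat_lit 704) (nat_lit 67109120) (.ev (nat_lit 836) (nat_lit 268435456) (.nd (nat_lit 2080)
 (.ch (nat_lit 6) (.nd (nat_lit 2128) (.ch (nat_lit 3) (.nd (nat_lit 2192) (.br (nat_lit 4) (.ch (nat_lit 1)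
 (.ev (nat_lit 2208) (nat_lit 8388608) (.ev (nat_lit 2221) (nat_lit 134217728) .dd))) (.ch (nat_lit 4) (.fin
 (nat_lit 576443709858988575)))))))))))) (.ch (nat_lit 6) (.ev (nat_lit 704) (nat_lit 276824320) (.ev (nat_lit
 886) (nat_lit 67108864) (.ev (nat_lit 893) (nat_lit 134217728) .dd))))))))))))) (.ch (nat_lit 21) (.ev
 (nat_lit 52) (nat_lit 282591232) (.ev (nat_lit 84) (nat_lit 32768) (.ev (nat_lit 372) (nat_lit 2097152) (.ev
 (nat_lit 512) (nat_lit 262144) (.nd (nat_lit 688) (.br (nat_lit 3) (.br (nat_lit 2) (.ch (nat_lit 0) (.ev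
 (nat_lit 704) (nat_lit 603980032) (.ev (nat_lit 836) (nat_lit 8192) (.nd (nat_lit 1296) (.br (nat_lit 4) (.ch
 (nat_lit 0) (.ev (nat_lit 1312) (nat_lit 68) (.ev (nat_lit 1360) (nat_lit 16384) (.ev (nat_lit 1373) (nat_lit
 134217728) .dd)))) (.br (nat_lit 5) (.ch (nat_lit 4) (.ev (nat_lit 1312) (nat_lit 134217792) (.fin (nat_lit
 576474496268452072)))) (.ch (nat_lit 5) (.ev (nat_lit 1312) (nat_lit 16388) (.ev (nat_lit 1348) (nat_lit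
 134217728) (.ev (nat_lit 1357) (nat_lit 64) .dd)))))))))) (.ch (nat_lit 2) (.ev (nat_lit 704) (nat_lit
 738205760) (.ev (nat_lit 1140) (nat_lit 16384) (.ev (nat_lit 1444) (nat_lit 4) (.ev (nat_lit 1453) (nat_lit
 256) .dd)))))) (.br (nat_lit 6) (.ch (nat_lit 3) (.ev (nat_lit 704) (nat_lit 134242564) (.ev (nat_lit 836)
 (nat_lit 536870912) (.nd (nat_lit 1296) (.br (nat_lit 3) (.ch (nat_lit 0) (.nd (nat_lit 1952) (.ch (nat_lit 4)
 (.nd (nat_lit 2320) (.br (nat_lit 4) (.ch (nat_lit 0) (.fin (nat_lit 576276583944766192))) (.ch (nat_lit 4)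
 (.ev (nat_lit 2336) (nat_lit 64) (.ev (nat_lit 2349) (nat_lit 67108864) .dd)))))))) (.ch (nat_lit 3) (.ev
 (nat_lit 1312) (nat_lit 67108864) (.ev (nat_lit 1325) (nat_lit 64) .dd)))))))) (.ch (nat_lit 6) (.ev (nat_lit
 704) (nat_lit 536887620) (.ev (nat_lit 1078) (nat_lit 201326592) (.ev (nat_lit 1085) (nat_lit 8192)
 .dd)))))))))))))) (.br (nat_lit 24) (.ch (nat_lit 22) (.ev (nat_lit 52) (nat_lit 806092800) (.ev (nat_lit 64)
 (nat_lit 217112900) .dd))) (.br (nat_lit 25) (.ch (nat_lit 24) (.ev (nat_lit 52) (nat_lit 6078464) (.ev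
 (nat_lit 84) (nat_lit 67108864) (.ev (nat_lit 180) (nat_lit 8388608) (.ev (nat_lit 244) (nat_lit 8192) (.ev
 (nat_lit 320) (nat_lit 941621572) .dd)))))) (.ch (nat_lit 25) (.ev (nat_lit 52) (nat_lit 540295488) (.ev
 (nat_lit 84) (nat_lit 268435456) (.ev (nat_lit 308) (nat_lit 8388608) (.nd (nat_lit 688) (.br (nat_lit 2) (.br
 (nat_lit 1) (.ch (nat_lit 0) (.ev (nat_lit 704) (nat_lit 201850880) (.nd (nat_lit 1296) (.br (nat_lit 4) (.ch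
 (nat_lit 1) (.ev (nat_lit 1312) (nat_lit 40960) (.ev (nat_lit 1444) (nat_lit 4194304) (.ev (nat_lit 1453)
 (nat_lit 4) .dd)))) (.br (nat_lit 6) (.ch (nat_lit 4) (.ev (nat_lit 1312) (nat_lit 4194308) (.ev (nat_lit
 1492) (nat_lit 8192) (.ev (nat_lit 1501) (nat_lit 32768) .dd)))) (.ch (nat_lit 6) (.ev (nat_lit 1312) (nat_lit
 4202496) (.fin (nat_lit 576465700110418498))))))))) (.ch (nat_lit 1) (.ev (nat_lit 704) (nat_lit 138420228)
 (.nd (nat_lit 1296) (.br (nat_lit 3) (.ch (nat_lit 0) (.ev (nat_lit 1312) (nat_lit 67141632) (.ev (nat_lit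
 1325) (nat_lit 524288) .dd))) (.br (nat_lit 5) (.ch (nat_lit 3) (.ev (nat_lit 1312) (nat_lit 67108864) (.nd
 (nat_lit 1888) (.br (nat_lit 4) (.ch (nat_lit 1) (.ev (nat_lit 1904) (nat_lit 524288) (.ev (nat_lit 1917)
 (nat_lit 32768) .dd))) (.ch (nat_lit 4) (.fin (nat_lit 576421719655793200))))))) (.ch (nat_lit 5) (.ev
 (nat_lit 1312) (nat_lit 557056) (.ev (nat_lit 1325) (nat_lit 67108864) .dd))))))))) (.br (nat_lit 3) (.ch
 (nat_lit 2) (.ev (nat_lit 704) (nat_lit 4759552) (.ev (nat_lit 1110) (nat_lit 134217728) (.nd (nat_lit 1680)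
 (.br (nat_lit 4) (.ch (nat_lit 1) (.ev (nat_lit 1696) (nat_lit 4) (.ev (nat_lit 1709) (nat_lit 67108864)
 .dd))) (.br (nat_lit 5) (.ch (nat_lit 4) (.ev (nat_lit 1696) (nat_lit 67108868) .dd)) (.ch (nat_lit 5) (.nd
 (nat_lit 1984) (.br (nat_lit 1) (.ch (nat_lit 0) (.fin (nat_lit 576799951626388096))) (.ch (nat_lit 1) (.ev
 (nat_lit 2000) (nat_lit 67108864) (.ev (nat_lit 2013) (nat_lit 4) .dd)))))))))))) (.ch (nat_lit 3) (.ev
 (nat_lit 704) (nat_lit 71868420) (.ev (nat_lit 717) (nat_lit 134217728) .dd))))))))))))) (.br (nat_lit 30)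
 (.br (nat_lit 27) (.ch (nat_lit 26) (.ev (nat_lit 52) (nat_lit 70254596) (.ev (nat_lit 96) (nat_lit 952951104)
 .dd))) (.br (nat_lit 29) (.ch (nat_lit 27) (.ev (nat_lit 52) (nat_lit 675807300) (.ev (nat_lit 84) (nat_lit
 16384) (.ev (nat_lit 116) (nat_lit 8192) (.ev (nat_lit 436) (nat_lit 262144) (.ev (nat_lit 528) (nat_lit
 8388608) (.nd (nat_lit 688) (.br (nat_lit 1) (.ch (nat_lit 0) (.ev (nat_lit 704) (nat_lit 68157696) (.ev
 (nat_lit 1408) (nat_lit 2097152) (.nd (nat_lit 1680) (.ch (nat_lit 6) (.nd (nat_lit 1952) (.br (nat_lit 5)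
 (.ch (nat_lit 2) (.fin (nat_lit 576250196074644096))) (.ch (nat_lit 5) (.ev (nat_lit 1968) (nat_lit 32768)
 (.ev (nat_lit 1981) (nat_lit 268435456) .dd)))))))))) (.br (nat_lit 2) (.ch (nat_lit 1) (.ev (nat_lit 704)
 (nat_lit 3145728) (.ev (nat_lit 900) (nat_lit 32768) (.nd (nat_lit 1296) (.br (nat_lit 1) (.ch (nat_lit 0)
 (.ev (nat_lit 1312) (nat_lit 67108864) (.ev (nat_lit 1328) (nat_lit 256) (.ev (nat_lit 1341) (nat_lit
 268435456) .dd)))) (.br (nat_lit 6) (.ch (nat_lit 1) (.ev (nat_lit 1312) (nat_lit 256) (.fin (nat_lit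
 576461302055518782)))) (.ch (nat_lit 6) (.ev (nat_lit 1312) (nat_lit 268435456) (.ev (nat_lit 1444) (nat_lit
 67108864) (.ev (nat_lit 1453) (nat_lit 256) .dd)))))))))) (.ch (nat_lit 2) (.ev (nat_lit 704) (nat_lit
 270565376) (.nd (nat_lit 1296) (.br (nat_lit 6) (.ch (nat_lit 1) (.ev (nat_lit 1444) (nat_lit 256) (.nd
 (nat_lit 1952) (.br (nat_lit 6) (.ch (nat_lit 3) (.ev (nat_lit 1968) (nat_lit 1048576) (.ev (nat_lit 1981)
 (nat_lit 67108864) .dd))) (.ch (nat_lit 6) (.fin (nat_lit 576434913799520848))))))) (.ch (nat_lit 6) (.ev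
 (nat_lit 1312) (nat_lit 68157440) (.ev (nat_lit 1325) (nat_lit 256) .dd)))))))))))))))) (.ch (nat_lit 29) (.ev
 (nat_lit 52) (nat_lit 4751360) (.ev (nat_lit 84) (nat_lit 8192) (.ev (nat_lit 436) (nat_lit 256) (.nd (nat_lit
 688) (.br (nat_lit 2) (.br (nat_lit 1) (.ch (nat_lit 0) (.ev (nat_lit 704) (nat_lit 883949632) (.ev (nat_lit
 1252) (nat_lit 134217728) (.nd (nat_lit 1600) (.br (nat_lit 5) (.ch (nat_lit 4) (.nd (nat_lit 1824) (.br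
 (nat_lit 5) (.ch (nat_lit 4) (.ev (nat_lit 1840) (nat_lit 262144) (.fin (nat_lit 576448107853071256)))) (.ch
 (nat_lit 5) (.ev (nat_lit 1840) (nat_lit 4) (.fin (nat_lit 576476695228793445))))))) (.ch (nat_lit 5) (.ev
 (nat_lit 1616) (nat_lit 278528) (.ev (nat_lit 1629) (nat_lit 4) .dd)))))))) (.ch (nat_lit 1) (.ev (nat_lit
 704) (nat_lit 203702272) (.ev (nat_lit 720) (nat_lit 64) (.ev (nat_lit 836) (nat_lit 536870912) (.ev (nat_lit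
 1158) (nat_lit 4) (.nd (nat_lit 1600) (.br (nat_lit 3) (.ch (nat_lit 0) (.ev (nat_lit 1616) (nat_lit 9437184)
 (.ev (nat_lit 1629) (nat_lit 268435456) .dd))) (.br (nat_lit 6) (.ch (nat_lit 3) (.ev (nat_lit 1616) (nat_lit
 268435456) (.fin (nat_lit 576434913789035028)))) (.ch (nat_lit 6) (.ev (nat_lit 1616) (nat_lit 1048576) (.fin
 (nat_lit 576122652463677772))))))))))))) (.br (nat_lit 3) (.ch (nat_lit 2) (.ev (nat_lit 704) (nat_lit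
 547618880) (.ev (nat_lit 720) (nat_lit 16384) (.ev (nat_lit 836) (nat_lit 134217728) (.ev (nat_lit 1008)
 (nat_lit 268435456) (.nd (nat_lit 1600) (.br (nat_lit 4) (.ch (nat_lit 1) (.ev (nat_lit 1616) (nat_lit 4)
 (.fin (nat_lit 576487690322002480)))) (.br (nat_lit 5) (.ch (nat_lit 4) (.ev (nat_lit 1616) (nat_lit 68157440)
 (.ev (nat_lit 1629) (nat_lit 4) .dd))) (.ch (nat_lit 5) (.ev (nat_lit 1616) (nat_lit 1048576) (.fin (nat_lit
 576122652495135232)))))))))))) (.ch (nat_lit 3) (.ev (nat_lit 704) (nat_lit 211042308) (.ev (nat_lit 1044)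
 (nat_lit 536870912) (.nd (nat_lit 1296) (.br (nat_lit 6) (.ch (nat_lit 5) (.ev (nat_lit 1312) (nat_lit
 2097216) (.ev (nat_lit 1325) (nat_lit 268435456) .dd))) (.ch (nat_lit 6) (.nd (nat_lit 1888) (.br (nat_lit 6)
 (.ch (nat_lit 5) (.ev (nat_lit 1904) (nat_lit 268435456) (.fin (nat_lit 576445908903215703)))) (.ch (nat_lit
 6) (.ev (nat_lit 1904) (nat_lit 2097152) (.fin (nat_lit 576448107737727236))))))))))))))))))))) (.br (nat_lit
 35) (.br (nat_lit 33) (.ch (nat_lit 30) (.ev (nat_lit 52) (nat_lit 882393344) (.ev (nat_lit 116) (nat_lit 4)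
 (.ev (nat_lit 288) (nat_lit 140812352) .dd)))) (.ch (nat_lit 33) (.ev (nat_lit 52) (nat_lit 207093764) (.ev
 (nat_lit 212) (nat_lit 2097152) (.ev (nat_lit 608) (nat_lit 256) (.nd (nat_lit 688) (.br (nat_lit 2) (.br
 (nat_lit 1) (.ch (nat_lit 0) (.ev (nat_lit 704) (nat_lit 8650816) (.ev (nat_lit 836) (nat_lit 16384) (.nd
 (nat_lit 1296) (.br (nat_lit 5) (.br (nat_lit 4) (.ch (nat_lit 0) (.ev (nat_lit 1312) (nat_lit 805306368) (.ev
 (nat_lit 1360) (nat_lit 32768) (.ev (nat_lit 1373) (nat_lit 8192) .dd)))) (.ch (nat_lit 4) (.ev (nat_lit 1312)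
 (nat_lit 536903680) (.ev (nat_lit 1348) (nat_lit 8192) (.ev (nat_lit 1357) (nat_lit 268435456) .dd))))) (.br
 (nat_lit 6) (.ch (nat_lit 5) (.ev (nat_lit 1312) (nat_lit 268476416) (.ev (nat_lit 1325) (nat_lit 536870912)
 .dd))) (.ch (nat_lit 6) (.ev (nat_lit 1312) (nat_lit 268443648) (.fin (nat_lit 576606437275812592))))))))))
 (.ch (nat_lit 1) (.ev (nat_lit 704) (nat_lit 545316864) (.ev (nat_lit 836) (nat_lit 64) (.nd (nat_lit 1296)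
 (.br (nat_lit 1) (.ch (nat_lit 0) (.nd (nat_lit 1952) (.ch (nat_lit 6) (.nd (nat_lit 2288) (.br (nat_lit 1)
 (.ch (nat_lit 0) (.ev (nat_lit 2304) (nat_lit 268435456) (.ev (nat_lit 2317) (nat_lit 262144) .dd))) (.ch
 (nat_lit 1) (.fin (nat_lit 576276584269824232)))))))) (.ch (nat_lit 1) (.ev (nat_lit 1312) (nat_lit 262144)
 (.ev (nat_lit 1325) (nat_lit 268435456) .dd))))))))) (.br (nat_lit 3) (.ch (nat_lit 2) (.ev (nat_lit 704)
 (nat_lit 813727808) (.ev (nat_lit 1174) (nat_lit 16384) (.nd (nat_lit 2080) (.ch (nat_lit 1) (.ev (nat_lit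
 2116) (nat_lit 8192) (.ev (nat_lit 2125) (nat_lit 262144) .dd))))))) (.ch (nat_lit 3) (.ev (nat_lit 704)
 (nat_lit 268722240) (.ev (nat_lit 1140) (nat_lit 32768) (.ev (nat_lit 1472) (nat_lit 545259520)
 .dd)))))))))))) (.br (nat_lit 36) (.ch (nat_lit 35) (.ev (nat_lit 52) (nat_lit 134226244) (.ev (nat_lit 128)
 (nat_lit 888979456) .dd))) (.ch (nat_lit 36) (.ev (nat_lit 52) (nat_lit 473980932) (.ev (nat_lit 116) (nat_lit
 8388608) (.ev (nat_lit 224) (nat_lit 540836160) .dd)))))))))))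

/-- Subtrie. -/
noncomputable def T3 : Tr := (.ev (nat_lit 20) (nat_lit 779092032) (.nd (nat_lit 33) (.br (nat_lit 19) (.br
 (nat_lit 11) (.br (nat_lit 7) (.br (nat_lit 4) (.ch (nat_lit 1) (.ev (nat_lit 52) (nat_lit 9208080) (.ev
 (nat_lit 84) (nat_lit 16777216) (.ev (nat_lit 308) (nat_lit 2) (.ev (nat_lit 340) (nat_lit 16384) (.ev
 (nat_lit 404) (nat_lit 268435456) (.nd (nat_lit 688) (.br (nat_lit 5) (.br (nat_lit 3) (.ch (nat_lit 2) (.ev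
 (nat_lit 704) (nat_lit 8192) (.ev (nat_lit 717) (nat_lit 4) .dd))) (.ch (nat_lit 3) (.ev (nat_lit 704)
 (nat_lit 8196) .dd))) (.br (nat_lit 6) (.ch (nat_lit 5) (.ev (nat_lit 704) (nat_lit 8196) .dd)) (.ch (nat_lit
 6) (.ev (nat_lit 704) (nat_lit 4) (.ev (nat_lit 717) (nat_lit 8192) .dd)))))))))))) (.br (nat_lit 5) (.ch
 (nat_lit 4) (.ev (nat_lit 52) (nat_lit 268484608) (.ev (nat_lit 84) (nat_lit 2) (.ev (nat_lit 180) (nat_lit
 8208) (.ev (nat_lit 640) (nat_lit 4) (.nd (nat_lit 688) (.br (nat_lit 2) (.ch (nat_lit 0) (.ev (nat_lit 704)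
 (nat_lit 17039360) (.nd (nat_lit 1600) (.br (nat_lit 6) (.ch (nat_lit 4) (.ev (nat_lit 1616) (nat_lit 524288)
 (.fin (nat_lit 576162234945192556)))) (.ch (nat_lit 6) (.ev (nat_lit 1616) (nat_lit 8388608) (.fin (nat_lit
 576489889378812483)))))))) (.br (nat_lit 6) (.ch (nat_lit 2) (.ev (nat_lit 704) (nat_lit 524544) (.ev (nat_lit
 1232) (nat_lit 16777216) (.nd (nat_lit 1680) (.br (nat_lit 6) (.ch (nat_lit 4) (.fin (nat_lit
 576467899116896830))) (.ch (nat_lit 6) (.ev (nat_lit 1696) (nat_lit 8388608) (.ev (nat_lit 1709) (nat_lit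
 262144) .dd)))))))) (.ch (nat_lit 6) (.ev (nat_lit 704) (nat_lit 25690112) (.ev (nat_lit 848) (nat_lit 256)
 (.ev (nat_lit 861) (nat_lit 262144) .dd)))))))))))) (.ch (nat_lit 5) (.ev (nat_lit 52) (nat_lit 8650768) (.ev
 (nat_lit 84) (nat_lit 4) (.ev (nat_lit 180) (nat_lit 16640) (.ev (nat_lit 656) (nat_lit 2) (.nd (nat_lit 688)
 (.br (nat_lit 5) (.ch (nat_lit 3) (.ev (nat_lit 704) (nat_lit 16785408) (.ev (nat_lit 1232) (nat_lit 524288)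
 (.nd (nat_lit 1824) (.br (nat_lit 4) (.ch (nat_lit 2) (.ev (nat_lit 1840) (nat_lit 32768) (.ev (nat_lit 1853)
 (nat_lit 268435456) .dd))) (.ch (nat_lit 4) (.fin (nat_lit 576467899144159806)))))))) (.br (nat_lit 6) (.ch
 (nat_lit 5) (.ev (nat_lit 704) (nat_lit 268959744) (.nd (nat_lit 1824) (.br (nat_lit 6) (.ch (nat_lit 4) (.ev
 (nat_lit 1840) (nat_lit 32768) (.fin (nat_lit 576489889347355203)))) (.ch (nat_lit 6) (.ev (nat_lit 1840)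
 (nat_lit 16777216) (.fin (nat_lit 576162234850820716)))))))) (.ch (nat_lit 6) (.ev (nat_lit 704) (nat_lit
 17334272) (.ev (nat_lit 848) (nat_lit 8192) (.ev (nat_lit 861) (nat_lit 268435456) .dd)))))))))))))) (.br
 (nat_lit 8) (.ch (nat_lit 7) (.ev (nat_lit 52) (nat_lit 17088768) (.ev (nat_lit 180) (nat_lit 524288) (.ev
 (nat_lit 384) (nat_lit 276832278) .dd)))) (.br (nat_lit 10) (.ch (nat_lit 8) (.ev (nat_lit 52) (nat_lit
 25165828) (.ev (nat_lit 212) (nat_lit 262144) (.ev (nat_lit 256) (nat_lit 269017362) .dd)))) (.ch (nat_lit 10)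
 (.ev (nat_lit 52) (nat_lit 277356560) (.ev (nat_lit 180) (nat_lit 16777216) (.ev (nat_lit 352) (nat_lit
 311558) .dd))))))) (.br (nat_lit 15) (.br (nat_lit 12) (.ch (nat_lit 11) (.ev (nat_lit 52) (nat_lit 293658624)
 (.ev (nat_lit 84) (nat_lit 524288) (.ev (nat_lit 308) (nat_lit 4) (.ev (nat_lit 340) (nat_lit 16) (.ev
 (nat_lit 404) (nat_lit 262144) (.nd (nat_lit 688) (.br (nat_lit 3) (.br (nat_lit 2) (.ch (nat_lit 0) (.ev
 (nat_lit 704) (nat_lit 258) .dd)) (.ch (nat_lit 2) (.ev (nat_lit 704) (nat_lit 258) .dd))) (.br (nat_lit 6)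
 (.ch (nat_lit 3) (.ev (nat_lit 704) (nat_lit 256) (.ev (nat_lit 717) (nat_lit 2) .dd))) (.ch (nat_lit 6) (.ev
 (nat_lit 704) (nat_lit 2) (.ev (nat_lit 717) (nat_lit 256) .dd)))))))))))) (.br (nat_lit 13) (.ch (nat_lit 12)
 (.ev (nat_lit 52) (nat_lit 285245700) (.ev (nat_lit 308) (nat_lit 524288) (.ev (nat_lit 544) (nat_lit 16) (.nd
 (nat_lit 688) (.br (nat_lit 5) (.br (nat_lit 3) (.ch (nat_lit 2) (.ev (nat_lit 704) (nat_lit 24576) (.ev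
 (nat_lit 720) (nat_lit 2) (.nd (nat_lit 1600) (.br (nat_lit 3) (.ch (nat_lit 2) (.ev (nat_lit 1616) (nat_lit
 8388608) (.ev (nat_lit 1629) (nat_lit 262144) .dd))) (.br (nat_lit 4) (.ch (nat_lit 3) (.ev (nat_lit 1616)
 (nat_lit 8650752) .dd)) (.ch (nat_lit 4) (.nd (nat_lit 2048) (.br (nat_lit 6) (.ch (nat_lit 2) (.fin (nat_lit
 576467899116896830))) (.ch (nat_lit 6) (.ev (nat_lit 2064) (nat_lit 8650752) .dd))))))))))) (.ch (nat_lit 3)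
 (.ev (nat_lit 704) (nat_lit 8667138) (.ev (nat_lit 717) (nat_lit 8192) .dd)))) (.br (nat_lit 6) (.ch (nat_lit
 5) (.ev (nat_lit 704) (nat_lit 8396800) (.nd (nat_lit 1600) (.br (nat_lit 1) (.ch (nat_lit 0) (.ev (nat_lit
 1782) (nat_lit 262144) (.nd (nat_lit 1984) (.br (nat_lit 2) (.br (nat_lit 1) (.ch (nat_lit 0) (.fin (nat_lit
 576478894262534703))) (.ch (nat_lit 1) (.ev (nat_lit 2000) (nat_lit 16386) .dd))) (.br (nat_lit 3) (.ch
 (nat_lit 2) (.ev (nat_lit 2000) (nat_lit 16386) .dd)) (.ch (nat_lit 3) (.ev (nat_lit 2000) (nat_lit 16386)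
 .dd))))))) (.br (nat_lit 6) (.ch (nat_lit 1) (.ev (nat_lit 1616) (nat_lit 16384) (.nd (nat_lit 1984) (.br
 (nat_lit 6) (.ch (nat_lit 3) (.fin (nat_lit 576716388711219652))) (.ch (nat_lit 6) (.ev (nat_lit 2000)
 (nat_lit 262146) .dd)))))) (.ch (nat_lit 6) (.ev (nat_lit 1616) (nat_lit 278530) .dd))))))) (.ch (nat_lit 6)
 (.ev (nat_lit 704) (nat_lit 8404994) (.ev (nat_lit 1008) (nat_lit 262144) (.ev (nat_lit 1021) (nat_lit 8192)
 .dd))))))))))) (.ch (nat_lit 13) (.ev (nat_lit 52) (nat_lit 41216) (.ev (nat_lit 116) (nat_lit 524288) (.ev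
 (nat_lit 148) (nat_lit 16777216) (.ev (nat_lit 340) (nat_lit 4) (.nd (nat_lit 688) (.br (nat_lit 2) (.ch
 (nat_lit 0) (.ev (nat_lit 704) (nat_lit 8650770) (.ev (nat_lit 768) (nat_lit 268435456) (.ev (nat_lit 781)
 (nat_lit 16384) .dd)))) (.br (nat_lit 5) (.ch (nat_lit 2) (.ev (nat_lit 704) (nat_lit 276840448) (.ev (nat_lit
 1504) (nat_lit 2) (.nd (nat_lit 1824) (.br (nat_lit 3) (.ch (nat_lit 0) (.ev (nat_lit 1840) (nat_lit 262160)
 .dd)) (.br (nat_lit 6) (.ch (nat_lit 3) (.fin (nat_lit 576474496213926432))) (.ch (nat_lit 6) (.ev (nat_lit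
 1840) (nat_lit 16) (.ev (nat_lit 1853) (nat_lit 262144) .dd))))))))) (.ch (nat_lit 5) (.ev (nat_lit 704)
 (nat_lit 268435472) (.ev (nat_lit 836) (nat_lit 16384) (.ev (nat_lit 1472) (nat_lit 8388608) (.nd (nat_lit
 1680) (.br (nat_lit 1) (.ch (nat_lit 0) (.ev (nat_lit 1696) (nat_lit 2) (.ev (nat_lit 1709) (nat_lit 262144)
 .dd))) (.br (nat_lit 4) (.ch (nat_lit 1) (.fin (nat_lit 576206215410303676))) (.ch (nat_lit 4) (.ev (nat_lit
 1696) (nat_lit 262146) .dd))))))))))))))))))) (.br (nat_lit 17) (.br (nat_lit 16) (.ch (nat_lit 15) (.ev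
 (nat_lit 52) (nat_lit 17301506) (.ev (nat_lit 116) (nat_lit 8192) (.ev (nat_lit 212) (nat_lit 8388608) (.ev
 (nat_lit 244) (nat_lit 16) (.ev (nat_lit 372) (nat_lit 32768) (.nd (nat_lit 688) (.br (nat_lit 3) (.ch
 (nat_lit 0) (.ev (nat_lit 704) (nat_lit 262404) (.ev (nat_lit 1456) (nat_lit 16384) (.ev (nat_lit 1469)
 (nat_lit 268435456) .dd)))) (.br (nat_lit 6) (.ch (nat_lit 3) (.ev (nat_lit 704) (nat_lit 16640) (.ev (nat_lit
 816) (nat_lit 4) (.ev (nat_lit 918) (nat_lit 268435456) (.ev (nat_lit 925) (nat_lit 262144) .dd))))) (.ch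
 (nat_lit 6) (.ev (nat_lit 704) (nat_lit 268451844) (.ev (nat_lit 1444) (nat_lit 262144) (.ev (nat_lit 1453)
 (nat_lit 256) .dd))))))))))))) (.ch (nat_lit 16) (.ev (nat_lit 52) (nat_lit 8450) (.ev (nat_lit 308) (nat_lit
 16384) (.nd (nat_lit 688) (.br (nat_lit 5) (.br (nat_lit 3) (.ch (nat_lit 0) (.ev (nat_lit 704) (nat_lit
 819200) (.ev (nat_lit 992) (nat_lit 4) (.nd (nat_lit 1680) (.br (nat_lit 5) (.ch (nat_lit 4) (.ev (nat_lit
 1696) (nat_lit 285212688) (.ev (nat_lit 1709) (nat_lit 8388608) .dd))) (.br (nat_lit 6) (.ch (nat_lit 5) (.ev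
 (nat_lit 1696) (nat_lit 16777232) (.fin (nat_lit 576459103053234748)))) (.ch (nat_lit 6) (.ev (nat_lit 1696)
 (nat_lit 276824064) (.fin (nat_lit 576464600600887871)))))))))) (.ch (nat_lit 3) (.ev (nat_lit 704) (nat_lit
 25952276) (.nd (nat_lit 1824) (.br (nat_lit 2) (.ch (nat_lit 1) (.ev (nat_lit 1840) (nat_lit 268468224) .dd))
 (.br (nat_lit 5) (.ch (nat_lit 2) (.fin (nat_lit 576672408046879232))) (.ch (nat_lit 5) (.ev (nat_lit 1840)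
 (nat_lit 268435456) (.ev (nat_lit 1853) (nat_lit 32768) .dd))))))))) (.br (nat_lit 6) (.ch (nat_lit 5) (.ev
 (nat_lit 704) (nat_lit 285474836) (.ev (nat_lit 868) (nat_lit 8388608) (.nd (nat_lit 1680) (.br (nat_lit 4)
 (.ch (nat_lit 1) (.fin (nat_lit 576421719655793200))) (.br (nat_lit 6) (.ch (nat_lit 4) (.ev (nat_lit 1696)
 (nat_lit 557056) .dd)) (.ch (nat_lit 6) (.ev (nat_lit 1696) (nat_lit 524288) (.ev (nat_lit 1709) (nat_lit
 32768) .dd))))))))) (.ch (nat_lit 6) (.ev (nat_lit 704) (nat_lit 294158356) (.ev (nat_lit 717) (nat_lit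
 262144) .dd)))))))))) (.br (nat_lit 18) (.ch (nat_lit 17) (.ev (nat_lit 52) (nat_lit 285474820) (.ev (nat_lit
 84) (nat_lit 16) (.ev (nat_lit 148) (nat_lit 16640) (.nd (nat_lit 688) (.br (nat_lit 3) (.br (nat_lit 2) (.ch
 (nat_lit 0) (.ev (nat_lit 704) (nat_lit 8194) (.ev (nat_lit 964) (nat_lit 8388608) (.ev (nat_lit 1376)
 (nat_lit 524288) (.ev (nat_lit 1389) (nat_lit 32768) .dd))))) (.ch (nat_lit 2) (.ev (nat_lit 704) (nat_lit
 532480) (.ev (nat_lit 932) (nat_lit 32768) (.ev (nat_lit 1492) (nat_lit 8388608) (.ev (nat_lit 1501) (nat_lit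
 2) .dd)))))) (.br (nat_lit 6) (.ch (nat_lit 3) (.ev (nat_lit 704) (nat_lit 8945666) (.ev (nat_lit 717)
 (nat_lit 8192) .dd))) (.ch (nat_lit 6) (.ev (nat_lit 704) (nat_lit 8945666) (.ev (nat_lit 717) (nat_lit 8192)
 .dd)))))))))) (.ch (nat_lit 18) (.ev (nat_lit 52) (nat_lit 9183234) (.ev (nat_lit 308) (nat_lit 16777216) (.ev
 (nat_lit 560) (nat_lit 16384) (.nd (nat_lit 688) (.br (nat_lit 3) (.br (nat_lit 2) (.ch (nat_lit 0) (.ev
 (nat_lit 704) (nat_lit 33024) (.nd (nat_lit 1680) (.br (nat_lit 3) (.ch (nat_lit 2) (.ev (nat_lit 1696)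
 (nat_lit 16) (.nd (nat_lit 2016) (.br (nat_lit 5) (.ch (nat_lit 1) (.fin (nat_lit 576716388805591492))) (.ch
 (nat_lit 5) (.ev (nat_lit 2032) (nat_lit 268435460) .dd)))))) (.br (nat_lit 4) (.ch (nat_lit 3) (.ev (nat_lit
 1734) (nat_lit 268435456) (.nd (nat_lit 1984) (.br (nat_lit 5) (.br (nat_lit 4) (.ch (nat_lit 0) (.fin
 (nat_lit 576478894231077423))) (.ch (nat_lit 4) (.ev (nat_lit 2000) (nat_lit 20) .dd))) (.br (nat_lit 6) (.ch
 (nat_lit 5) (.ev (nat_lit 2000) (nat_lit 20) .dd)) (.ch (nat_lit 6) (.ev (nat_lit 2000) (nat_lit 20)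
 .dd))))))) (.ch (nat_lit 4) (.ev (nat_lit 1696) (nat_lit 268435476) .dd))))))) (.ch (nat_lit 2) (.ev (nat_lit
 704) (nat_lit 268468244) (.ev (nat_lit 717) (nat_lit 256) .dd)))) (.br (nat_lit 6) (.ch (nat_lit 3) (.ev
 (nat_lit 704) (nat_lit 272) (.ev (nat_lit 720) (nat_lit 4) (.nd (nat_lit 1824) (.br (nat_lit 5) (.ch (nat_lit
 4) (.nd (nat_lit 2128) (.br (nat_lit 5) (.ch (nat_lit 2) (.fin (nat_lit 576467899144159806))) (.ch (nat_lit 5)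
 (.ev (nat_lit 2144) (nat_lit 268468224) .dd))))) (.br (nat_lit 6) (.ch (nat_lit 5) (.ev (nat_lit 1840)
 (nat_lit 268468224) .dd)) (.ch (nat_lit 6) (.ev (nat_lit 1840) (nat_lit 32768) (.ev (nat_lit 1853) (nat_lit
 268435456) .dd))))))))) (.ch (nat_lit 6) (.ev (nat_lit 704) (nat_lit 32788) (.ev (nat_lit 1008) (nat_lit
 268435456) (.ev (nat_lit 1021) (nat_lit 256) .dd))))))))))))))) (.br (nat_lit 26) (.br (nat_lit 22) (.br
 (nat_lit 20) (.ch (nat_lit 19) (.ev (nat_lit 52) (nat_lit 8397056) (.ev (nat_lit 116) (nat_lit 16777216) (.ev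
 (nat_lit 148) (nat_lit 524288) (.ev (nat_lit 340) (nat_lit 2) (.nd (nat_lit 688) (.br (nat_lit 3) (.ch
 (nat_lit 0) (.ev (nat_lit 704) (nat_lit 278528) (.ev (nat_lit 836) (nat_lit 16) (.ev (nat_lit 1472) (nat_lit
 32768) (.nd (nat_lit 1824) (.br (nat_lit 3) (.ch (nat_lit 2) (.fin (nat_lit 576206215315931836))) (.br
 (nat_lit 6) (.ch (nat_lit 3) (.ev (nat_lit 1840) (nat_lit 4) (.ev (nat_lit 1853) (nat_lit 268435456) .dd)))
 (.ch (nat_lit 6) (.ev (nat_lit 1840) (nat_lit 268435460) .dd))))))))) (.br (nat_lit 5) (.ch (nat_lit 3) (.ev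
 (nat_lit 704) (nat_lit 294928) (.ev (nat_lit 1504) (nat_lit 4) (.nd (nat_lit 1824) (.br (nat_lit 2) (.ch
 (nat_lit 1) (.ev (nat_lit 1840) (nat_lit 268451840) .dd)) (.br (nat_lit 5) (.ch (nat_lit 2) (.ev (nat_lit
 1840) (nat_lit 16384) (.ev (nat_lit 1853) (nat_lit 268435456) .dd))) (.ch (nat_lit 5) (.fin (nat_lit
 576474496186663456))))))))) (.ch (nat_lit 5) (.ev (nat_lit 704) (nat_lit 268484612) (.ev (nat_lit 768)
 (nat_lit 262144) (.ev (nat_lit 781) (nat_lit 16) .dd)))))))))))) (.br (nat_lit 21) (.ch (nat_lit 20) (.ev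
 (nat_lit 52) (nat_lit 17096724) (.nd (nat_lit 688) (.br (nat_lit 5) (.br (nat_lit 3) (.ch (nat_lit 0) (.ev
 (nat_lit 704) (nat_lit 8388610) (.ev (nat_lit 836) (nat_lit 268435456) (.nd (nat_lit 1920) (.ch (nat_lit 6)
 (.nd (nat_lit 2048) (.ch (nat_lit 5) (.nd (nat_lit 2192) (.br (nat_lit 5) (.ch (nat_lit 2) (.ev (nat_lit 2208)
 (nat_lit 256) (.ev (nat_lit 2221) (nat_lit 524288) .dd))) (.ch (nat_lit 5) (.fin (nat_lit
 576432714742710845)))))))))))) (.ch (nat_lit 3) (.ev (nat_lit 704) (nat_lit 276824320) (.ev (nat_lit 1456)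
 (nat_lit 2) (.ev (nat_lit 1469) (nat_lit 524288) .dd))))) (.br (nat_lit 6) (.ch (nat_lit 5) (.ev (nat_lit 704)
 (nat_lit 268959744) (.ev (nat_lit 836) (nat_lit 8388608) (.nd (nat_lit 1824) (.br (nat_lit 5) (.ch (nat_lit 0)
 (.fin (nat_lit 576316166206079596))) (.br (nat_lit 6) (.ch (nat_lit 5) (.ev (nat_lit 1840) (nat_lit 258) .dd))
 (.ch (nat_lit 6) (.ev (nat_lit 1840) (nat_lit 258) .dd)))))))) (.ch (nat_lit 6) (.ev (nat_lit 704) (nat_lit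
 8913154) (.ev (nat_lit 717) (nat_lit 268435456) .dd)))))))) (.ch (nat_lit 21) (.ev (nat_lit 52) (nat_lit
 294125584) (.ev (nat_lit 244) (nat_lit 8196) (.nd (nat_lit 688) (.br (nat_lit 5) (.ch (nat_lit 3) (.ev
 (nat_lit 704) (nat_lit 16640) (.ev (nat_lit 836) (nat_lit 32768) (.ev (nat_lit 848) (nat_lit 2) (.ev (nat_lit
 861) (nat_lit 262144) .dd))))) (.br (nat_lit 6) (.ch (nat_lit 5) (.ev (nat_lit 704) (nat_lit 294912) (.nd
 (nat_lit 1680) (.br (nat_lit 4) (.ch (nat_lit 0) (.nd (nat_lit 1920) (.br (nat_lit 1) (.ch (nat_lit 0) (.ev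
 (nat_lit 1936) (nat_lit 256) (.fin (nat_lit 576443709858988625)))) (.ch (nat_lit 1) (.ev (nat_lit 1936)
 (nat_lit 16384) (.fin (nat_lit 576606437915443732))))))) (.ch (nat_lit 4) (.ev (nat_lit 1696) (nat_lit 16386)
 (.ev (nat_lit 1709) (nat_lit 256) .dd))))))) (.ch (nat_lit 6) (.ev (nat_lit 704) (nat_lit 49154) (.ev (nat_lit
 1558) (nat_lit 262144) (.ev (nat_lit 1565) (nat_lit 256) .dd)))))))))))) (.br (nat_lit 24) (.ch (nat_lit 22)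
 (.ev (nat_lit 52) (nat_lit 269221890) (.ev (nat_lit 84) (nat_lit 16384) (.ev (nat_lit 148) (nat_lit 8208) (.nd
 (nat_lit 688) (.br (nat_lit 5) (.br (nat_lit 3) (.ch (nat_lit 2) (.ev (nat_lit 704) (nat_lit 25198596) (.ev
 (nat_lit 717) (nat_lit 256) .dd))) (.ch (nat_lit 3) (.ev (nat_lit 704) (nat_lit 16777472) (.ev (nat_lit 932)
 (nat_lit 8388608) (.ev (nat_lit 1492) (nat_lit 32768) (.ev (nat_lit 1501) (nat_lit 4) .dd)))))) (.br (nat_lit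
 6) (.ch (nat_lit 5) (.ev (nat_lit 704) (nat_lit 260) (.ev (nat_lit 964) (nat_lit 32768) (.ev (nat_lit 1376)
 (nat_lit 16777216) (.ev (nat_lit 1389) (nat_lit 8388608) .dd))))) (.ch (nat_lit 6) (.ev (nat_lit 704) (nat_lit
 25198596) (.ev (nat_lit 717) (nat_lit 256) .dd)))))))))) (.br (nat_lit 25) (.ch (nat_lit 24) (.ev (nat_lit 52)
 (nat_lit 17612800) (.ev (nat_lit 244) (nat_lit 258) (.nd (nat_lit 688) (.br (nat_lit 2) (.ch (nat_lit 0) (.ev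
 (nat_lit 704) (nat_lit 276824064) (.nd (nat_lit 1680) (.br (nat_lit 6) (.ch (nat_lit 3) (.nd (nat_lit 2048)
 (.br (nat_lit 6) (.ch (nat_lit 0) (.ev (nat_lit 2064) (nat_lit 8192) (.fin (nat_lit 576443709890445905))))
 (.ch (nat_lit 6) (.ev (nat_lit 2064) (nat_lit 16) (.fin (nat_lit 576606437275812372))))))) (.ch (nat_lit 6)
 (.ev (nat_lit 1696) (nat_lit 20) (.ev (nat_lit 1709) (nat_lit 8192) .dd))))))) (.br (nat_lit 6) (.ch (nat_lit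
 2) (.ev (nat_lit 704) (nat_lit 8208) (.ev (nat_lit 836) (nat_lit 8388608) (.ev (nat_lit 848) (nat_lit 4) (.ev
 (nat_lit 861) (nat_lit 268435456) .dd))))) (.ch (nat_lit 6) (.ev (nat_lit 704) (nat_lit 8388628) (.ev (nat_lit
 1590) (nat_lit 268435456) (.ev (nat_lit 1597) (nat_lit 8192) .dd)))))))))) (.ch (nat_lit 25) (.ev (nat_lit 52)
 (nat_lit 278802) (.ev (nat_lit 116) (nat_lit 4) (.ev (nat_lit 576) (nat_lit 16777216) (.nd (nat_lit 688) (.br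
 (nat_lit 5) (.ch (nat_lit 2) (.ev (nat_lit 704) (nat_lit 269000704) (.ev (nat_lit 717) (nat_lit 8388608)
 .dd))) (.br (nat_lit 6) (.ch (nat_lit 5) (.ev (nat_lit 704) (nat_lit 268435456) (.ev (nat_lit 752) (nat_lit
 8388608) (.nd (nat_lit 1680) (.br (nat_lit 6) (.ch (nat_lit 1) (.ev (nat_lit 1696) (nat_lit 8192) (.nd
 (nat_lit 2016) (.br (nat_lit 6) (.ch (nat_lit 3) (.fin (nat_lit 576500884465730128))) (.ch (nat_lit 6) (.ev
 (nat_lit 2032) (nat_lit 557056) .dd)))))) (.ch (nat_lit 6) (.ev (nat_lit 1696) (nat_lit 524288) (.nd (nat_lit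
 2128) (.br (nat_lit 5) (.ch (nat_lit 2) (.fin (nat_lit 576760369270702612))) (.ch (nat_lit 5) (.ev (nat_lit
 2144) (nat_lit 40960) .dd))))))))))) (.ch (nat_lit 6) (.ev (nat_lit 704) (nat_lit 8945664) (.ev (nat_lit 1492)
 (nat_lit 8192) (.ev (nat_lit 1501) (nat_lit 268435456) .dd)))))))))))))) (.br (nat_lit 30) (.br (nat_lit 27)
 (.ch (nat_lit 26) (.ev (nat_lit 52) (nat_lit 16777222) (.ev (nat_lit 340) (nat_lit 8192) (.nd (nat_lit 688)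
 (.br (nat_lit 5) (.br (nat_lit 2) (.ch (nat_lit 0) (.ev (nat_lit 704) (nat_lit 803088) (.ev (nat_lit 1572)
 (nat_lit 32768) (.nd (nat_lit 1824) (.br (nat_lit 6) (.ch (nat_lit 5) (.fin (nat_lit 576459103053234748)))
 (.ch (nat_lit 6) (.ev (nat_lit 1840) (nat_lit 268435456) (.ev (nat_lit 1853) (nat_lit 8388608) .dd))))))))
 (.ch (nat_lit 2) (.ev (nat_lit 704) (nat_lit 268976128) (.ev (nat_lit 868) (nat_lit 32768) (.ev (nat_lit 1190)
 (nat_lit 256) (.nd (nat_lit 1680) (.br (nat_lit 3) (.ch (nat_lit 2) (.ev (nat_lit 1696) (nat_lit 8650752) (.ev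
 (nat_lit 1709) (nat_lit 16) .dd))) (.br (nat_lit 6) (.ch (nat_lit 3) (.ev (nat_lit 1718) (nat_lit 8388608)
 (.nd (nat_lit 2016) (.br (nat_lit 5) (.ch (nat_lit 3) (.fin (nat_lit 576448107907596896))) (.ch (nat_lit 5)
 (.ev (nat_lit 2032) (nat_lit 262160) .dd)))))) (.ch (nat_lit 6) (.ev (nat_lit 1696) (nat_lit 16) (.nd (nat_lit
 1952) (.br (nat_lit 5) (.br (nat_lit 3) (.ch (nat_lit 2) (.ev (nat_lit 1968) (nat_lit 8650752) .dd)) (.ch
 (nat_lit 3) (.ev (nat_lit 1968) (nat_lit 8650752) .dd))) (.br (nat_lit 6) (.ch (nat_lit 5) (.ev (nat_lit 1968)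
 (nat_lit 8650752) .dd)) (.ch (nat_lit 6) (.fin (nat_lit 576250195581813376)))))))))))))))) (.br (nat_lit 6)
 (.ch (nat_lit 5) (.ev (nat_lit 704) (nat_lit 268730368) (.ev (nat_lit 836) (nat_lit 256) (.ev (nat_lit 1044)
 (nat_lit 8388608) (.ev (nat_lit 1348) (nat_lit 16) (.nd (nat_lit 1824) (.br (nat_lit 4) (.ch (nat_lit 1) (.ev
 (nat_lit 1840) (nat_lit 540672) .dd)) (.br (nat_lit 6) (.ch (nat_lit 4) (.nd (nat_lit 2048) (.br (nat_lit 3)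
 (.ch (nat_lit 2) (.fin (nat_lit 576464600590402111))) (.ch (nat_lit 3) (.ev (nat_lit 2064) (nat_lit 540672)
 .dd))))) (.ch (nat_lit 6) (.ev (nat_lit 1840) (nat_lit 540672) .dd)))))))))) (.ch (nat_lit 6) (.ev (nat_lit
 704) (nat_lit 277659664) (.ev (nat_lit 717) (nat_lit 256) .dd))))))))) (.br (nat_lit 29) (.ch (nat_lit 27)
 (.ev (nat_lit 52) (nat_lit 524294) (.ev (nat_lit 340) (nat_lit 256) (.nd (nat_lit 688) (.br (nat_lit 5) (.br
 (nat_lit 3) (.ch (nat_lit 0) (.ev (nat_lit 704) (nat_lit 277086208) (.ev (nat_lit 836) (nat_lit 8192) (.ev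
 (nat_lit 1044) (nat_lit 32768) (.ev (nat_lit 1348) (nat_lit 16384) (.nd (nat_lit 1824) (.br (nat_lit 4) (.ch
 (nat_lit 2) (.ev (nat_lit 1840) (nat_lit 16777232) .dd)) (.br (nat_lit 6) (.ch (nat_lit 4) (.ev (nat_lit 1840)
 (nat_lit 16777232) .dd)) (.ch (nat_lit 6) (.nd (nat_lit 2160) (.br (nat_lit 6) (.ch (nat_lit 5) (.ev (nat_lit
 2176) (nat_lit 16777232) .dd)) (.ch (nat_lit 6) (.fin (nat_lit 576458003520635457)))))))))))))) (.ch (nat_lit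
 3) (.ev (nat_lit 704) (nat_lit 17039376) (.ev (nat_lit 868) (nat_lit 8388608) (.ev (nat_lit 1286) (nat_lit
 8192) (.nd (nat_lit 1824) (.br (nat_lit 5) (.ch (nat_lit 2) (.ev (nat_lit 1840) (nat_lit 16384) (.nd (nat_lit
 2080) (.br (nat_lit 5) (.br (nat_lit 3) (.ch (nat_lit 2) (.fin (nat_lit 576250196074644096))) (.ch (nat_lit 3)
 (.ev (nat_lit 2096) (nat_lit 268468224) .dd))) (.br (nat_lit 6) (.ch (nat_lit 5) (.ev (nat_lit 2096) (nat_lit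
 268468224) .dd)) (.ch (nat_lit 6) (.ev (nat_lit 2096) (nat_lit 268468224) .dd))))))) (.br (nat_lit 6) (.ch
 (nat_lit 5) (.ev (nat_lit 1862) (nat_lit 32768) (.nd (nat_lit 2016) (.br (nat_lit 6) (.ch (nat_lit 4) (.ev
 (nat_lit 2032) (nat_lit 268451840) .dd)) (.ch (nat_lit 6) (.fin (nat_lit 576448107934859872))))))) (.ch
 (nat_lit 6) (.ev (nat_lit 1840) (nat_lit 268468224) (.ev (nat_lit 1853) (nat_lit 16384) .dd))))))))))) (.br
 (nat_lit 6) (.ch (nat_lit 5) (.ev (nat_lit 704) (nat_lit 285237264) (.ev (nat_lit 1572) (nat_lit 8388608) (.nd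
 (nat_lit 1824) (.br (nat_lit 5) (.ch (nat_lit 4) (.ev (nat_lit 1840) (nat_lit 262144) (.ev (nat_lit 1853)
 (nat_lit 32768) .dd))) (.ch (nat_lit 5) (.fin (nat_lit 576463501099745860)))))))) (.ch (nat_lit 6) (.ev
 (nat_lit 704) (nat_lit 293912592) (.ev (nat_lit 717) (nat_lit 8192) .dd))))))))) (.ch (nat_lit 29) (.ev
 (nat_lit 52) (nat_lit 557058) (.ev (nat_lit 192) (nat_lit 293888276) .dd))))) (.br (nat_lit 35) (.br (nat_lit
 33) (.ch (nat_lit 30) (.ev (nat_lit 52) (nat_lit 277365010) (.nd (nat_lit 688) (.br (nat_lit 5) (.br (nat_lit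
 2) (.ch (nat_lit 0) (.ev (nat_lit 704) (nat_lit 17039360) (.ev (nat_lit 836) (nat_lit 32768) (.nd (nat_lit
 1680) (.br (nat_lit 4) (.ch (nat_lit 3) (.fin (nat_lit 576316166845710956))) (.br (nat_lit 5) (.ch (nat_lit 4)
 (.ev (nat_lit 1696) (nat_lit 8196) .dd)) (.ch (nat_lit 5) (.ev (nat_lit 1696) (nat_lit 8196) .dd)))))))) (.ch
 (nat_lit 2) (.ev (nat_lit 704) (nat_lit 303104) (.ev (nat_lit 1456) (nat_lit 4) (.ev (nat_lit 1469) (nat_lit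
 16777216) .dd))))) (.br (nat_lit 6) (.ch (nat_lit 5) (.ev (nat_lit 704) (nat_lit 32772) (.ev (nat_lit 836)
 (nat_lit 262144) (.nd (nat_lit 1920) (.ch (nat_lit 4) (.nd (nat_lit 2080) (.ch (nat_lit 3) (.nd (nat_lit 2352)
 (.br (nat_lit 6) (.ch (nat_lit 3) (.fin (nat_lit 576432714774168125))) (.ch (nat_lit 6) (.ev (nat_lit 2368)
 (nat_lit 8192) (.ev (nat_lit 2381) (nat_lit 16777216) .dd)))))))))))) (.ch (nat_lit 6) (.ev (nat_lit 704)
 (nat_lit 16818180) (.ev (nat_lit 717) (nat_lit 262144) .dd)))))))) (.ch (nat_lit 33) (.ev (nat_lit 52)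
 (nat_lit 17301508) (.ev (nat_lit 116) (nat_lit 256) (.ev (nat_lit 212) (nat_lit 32768) (.ev (nat_lit 244)
 (nat_lit 16384) (.ev (nat_lit 372) (nat_lit 8388608) (.nd (nat_lit 688) (.br (nat_lit 5) (.ch (nat_lit 2) (.ev
 (nat_lit 704) (nat_lit 8208) (.ev (nat_lit 816) (nat_lit 2) (.ev (nat_lit 950) (nat_lit 262144) (.ev (nat_lit
 957) (nat_lit 268435456) .dd))))) (.br (nat_lit 6) (.ch (nat_lit 5) (.ev (nat_lit 704) (nat_lit 268443650)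
 (.ev (nat_lit 1456) (nat_lit 16) (.ev (nat_lit 1469) (nat_lit 262144) .dd)))) (.ch (nat_lit 6) (.ev (nat_lit
 704) (nat_lit 262162) (.ev (nat_lit 1444) (nat_lit 268435456) (.ev (nat_lit 1453) (nat_lit 8192)
 .dd)))))))))))))) (.br (nat_lit 36) (.ch (nat_lit 35) (.ev (nat_lit 52) (nat_lit 8452) (.ev (nat_lit 308)
 (nat_lit 16) (.nd (nat_lit 688) (.br (nat_lit 5) (.br (nat_lit 2) (.ch (nat_lit 0) (.ev (nat_lit 704) (nat_lit
 269238274) (.ev (nat_lit 868) (nat_lit 32768) (.nd (nat_lit 1680) (.br (nat_lit 4) (.ch (nat_lit 2) (.fin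
 (nat_lit 576421719628530224))) (.br (nat_lit 6) (.ch (nat_lit 4) (.ev (nat_lit 1696) (nat_lit 16777216) (.ev
 (nat_lit 1709) (nat_lit 8388608) .dd))) (.ch (nat_lit 6) (.ev (nat_lit 1696) (nat_lit 25165824) .dd))))))))
 (.ch (nat_lit 2) (.ev (nat_lit 704) (nat_lit 285786114) (.nd (nat_lit 1600) (.br (nat_lit 3) (.ch (nat_lit 0)
 (.ev (nat_lit 1616) (nat_lit 8650752) .dd)) (.br (nat_lit 6) (.ch (nat_lit 3) (.ev (nat_lit 1616) (nat_lit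
 262144) (.ev (nat_lit 1629) (nat_lit 8388608) .dd))) (.ch (nat_lit 6) (.fin (nat_lit
 576672408539709952))))))))) (.br (nat_lit 6) (.ch (nat_lit 5) (.ev (nat_lit 704) (nat_lit 293601280) (.ev
 (nat_lit 992) (nat_lit 2) (.nd (nat_lit 1680) (.br (nat_lit 5) (.ch (nat_lit 4) (.ev (nat_lit 1696) (nat_lit
 294912) (.fin (nat_lit 576464600590402111)))) (.br (nat_lit 6) (.ch (nat_lit 5) (.ev (nat_lit 1696) (nat_lit
 540672) (.fin (nat_lit 576463501099745860)))) (.ch (nat_lit 6) (.ev (nat_lit 1696) (nat_lit 802816) (.ev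
 (nat_lit 1709) (nat_lit 32768) .dd))))))))) (.ch (nat_lit 6) (.ev (nat_lit 704) (nat_lit 26001410) (.ev
 (nat_lit 717) (nat_lit 268435456) .dd))))))))) (.ch (nat_lit 36) (.ev (nat_lit 52) (nat_lit 268460052) (.ev
 (nat_lit 116) (nat_lit 2) (.ev (nat_lit 592) (nat_lit 524288) (.nd (nat_lit 688) (.br (nat_lit 3) (.ch
 (nat_lit 0) (.ev (nat_lit 704) (nat_lit 262144) (.ev (nat_lit 752) (nat_lit 32768) (.nd (nat_lit 1600) (.br
 (nat_lit 4) (.ch (nat_lit 2) (.ev (nat_lit 1636) (nat_lit 256) (.nd (nat_lit 1952) (.br (nat_lit 5) (.ch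
 (nat_lit 1) (.fin (nat_lit 576500884492993104))) (.ch (nat_lit 5) (.ev (nat_lit 1968) (nat_lit 25165824)
 .dd)))))) (.ch (nat_lit 4) (.ev (nat_lit 1616) (nat_lit 16777216) (.nd (nat_lit 1984) (.br (nat_lit 4) (.ch
 (nat_lit 0) (.fin (nat_lit 576760369176330772))) (.ch (nat_lit 4) (.ev (nat_lit 2000) (nat_lit 8388864)
 .dd))))))))))) (.br (nat_lit 6) (.ch (nat_lit 3) (.ev (nat_lit 704) (nat_lit 25428224) (.ev (nat_lit 717)
 (nat_lit 32768) .dd))) (.ch (nat_lit 6) (.ev (nat_lit 704) (nat_lit 25198592) (.ev (nat_lit 1492) (nat_lit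
 256) (.ev (nat_lit 1501) (nat_lit 262144) .dd))))))))))))))))))

/-- The trie. -/
noncomputable def T : Tr := .nd (nat_lit 1000000) (.br (nat_lit 1) (.ch (nat_lit 0) (.ev (nat_lit 0) (nat_lit 2147483647) .dd)) (.br (nat_lit 3) (.ch (nat_lit 1) T1) (.ch (nat_lit 3) T3)))

/-- The possible values. -/
noncomputable def oks : List ℕ := [58, 85, 478, 2340, 3586, 253810]

/-- The parameters. -/
noncomputable def S : Pr := ⟨fun i l e => lget mz (lget [] (lget [] tabs i) l) e, oks, [(nat_lit 0), (nat_lit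
 1), (nat_lit 0), (nat_lit 0), (nat_lit 0), (nat_lit 0)], T, (nat_lit 2147483647), (nat_lit 1073946281),
 (nat_lit 31), [(nat_lit 1), (nat_lit 23899161165)], [(nat_lit 16807), (nat_lit 1369)]⟩

/-- Nothing known. -/
noncomputable def cs0 : Cs := (.cons (nat_lit 7) (nat_lit 0) (nat_lit 1) (.cons (nat_lit 37) (nat_lit 0) (nat_lit 1) .nil))

theorem part_1 : part S cs0 (nat_lit 1) = true := by decide +kernel

theorem part_3 : part S cs0 (nat_lit 3) = true := by decide +kernel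

/-- Data of a prime. -/
noncomputable def D0 : PD := ⟨(nat_lit 7), (nat_lit 5), (16688, 1, 2), (11647, 13664, 15495), (16107, 1622, 8110)⟩

theorem D0_ok : D0.Ok := pdb_sound (s := 1) (C := ⟨⟨7, -2, -11, 7, 2, 4, 0, 3, -1⟩, (5, 2, 3)⟩) (by show Nat.Prime 7; norm_num) (by decide +kernel)

/-- Lines of the first type. -/
noncomputable def Cl0 : List C1 := [⟨⟨7, 2, -11, 7, -2, 4, 0, -3, -1⟩, (6, 1, 5)⟩,
  ⟨⟨0, 0, 0, 0, 0, 0, 0, 0, 0⟩, (0, 0, 0)⟩,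
  ⟨⟨0, 0, 0, 0, 0, 0, 0, 0, 0⟩, (0, 0, 0)⟩,
  ⟨⟨0, 0, 0, 0, 0, 0, 0, 0, 0⟩, (0, 0, 0)⟩,
  ⟨⟨0, 0, 0, 0, 0, 0, 0, 0, 0⟩, (0, 0, 0)⟩,
  ⟨⟨0, 0, 0, 0, 0, 0, 0, 0, 0⟩, (0, 0, 0)⟩,
  ⟨⟨0, 0, 0, 0, 0, 0, 0, 0, 0⟩, (0, 0, 0)⟩]

/-- Data of a prime. -/
noncomputable def D1 : PD := ⟨(nat_lit 37), (nat_lit 2), (556, 16, 5), (1239, 947, 1101), (730, 506, 467)⟩

theorem D1_ok : D1.Ok := pdb_sound (s := 2) (C := ⟨⟨43, 22, -44, 23, -2, 41, 6, -15, -7⟩, (6, 23, 6)⟩) (by show Nat.Prime 37; norm_num) (by decide +kernel)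

/-- Lines of the first type. -/
noncomputable def Cl1 : List C1 := [⟨⟨23, -2, -64, 43, 22, 1, -6, 15, -1⟩, (31, 29, 8)⟩,
  ⟨⟨0, 0, 0, 0, 0, 0, 0, 0, 0⟩, (0, 0, 0)⟩,
  ⟨⟨-7, 22, -49, 27, 42, 4, 14, -7, -13⟩, (1, 12, 35)⟩,
  ⟨⟨-13, 38, -31, -47, -22, 16, 6, -9, -17⟩, (20, 4, 5)⟩,
  ⟨⟨0, 0, 0, 0, 0, 0, 0, 0, 0⟩, (0, 0, 0)⟩,
  ⟨⟨0, 0, 0, 0, 0, 0, 0, 0, 0⟩, (0, 0, 0)⟩,
  ⟨⟨7, 22, -56, -27, 42, 31, 14, 7, -1⟩, (18, 31, 36)⟩,
  ⟨⟨0, 0, 0, 0, 0, 0, 0, 0, 0⟩, (0, 0, 0)⟩,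
  ⟨⟨0, 0, 0, 0, 0, 0, 0, 0, 0⟩, (0, 0, 0)⟩,
  ⟨⟨13, -38, -44, -47, -22, 31, -6, 9, -11⟩, (18, 26, 23)⟩,
  ⟨⟨0, 0, 0, 0, 0, 0, 0, 0, 0⟩, (0, 0, 0)⟩,
  ⟨⟨0, 0, 0, 0, 0, 0, 0, 0, 0⟩, (0, 0, 0)⟩,
  ⟨⟨0, 0, 0, 0, 0, 0, 0, 0, 0⟩, (0, 0, 0)⟩,
  ⟨⟨0, 0, 0, 0, 0, 0, 0, 0, 0⟩, (0, 0, 0)⟩,
  ⟨⟨13, 38, -44, -47, 22, 31, -6, -9, -11⟩, (4, 14, 1)⟩,
  ⟨⟨0, 0, 0, 0, 0, 0, 0, 0, 0⟩, (0, 0, 0)⟩,
  ⟨⟨0, 0, 0, 0, 0, 0, 0, 0, 0⟩, (0, 0, 0)⟩,
  ⟨⟨0, 0, 0, 0, 0, 0, 0, 0, 0⟩, (0, 0, 0)⟩,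
  ⟨⟨0, 0, 0, 0, 0, 0, 0, 0, 0⟩, (0, 0, 0)⟩,
  ⟨⟨0, 0, 0, 0, 0, 0, 0, 0, 0⟩, (0, 0, 0)⟩,
  ⟨⟨0, 0, 0, 0, 0, 0, 0, 0, 0⟩, (0, 0, 0)⟩,
  ⟨⟨0, 0, 0, 0, 0, 0, 0, 0, 0⟩, (0, 0, 0)⟩,
  ⟨⟨0, 0, 0, 0, 0, 0, 0, 0, 0⟩, (0, 0, 0)⟩,
  ⟨⟨-7, -22, -49, 27, -42, 4, 14, 7, -13⟩, (13, 8, 11)⟩,
  ⟨⟨0, 0, 0, 0, 0, 0, 0, 0, 0⟩, (0, 0, 0)⟩,
  ⟨⟨0, 0, 0, 0, 0, 0, 0, 0, 0⟩, (0, 0, 0)⟩,
  ⟨⟨0, 0, 0, 0, 0, 0, 0, 0, 0⟩, (0, 0, 0)⟩,
  ⟨⟨0, 0, 0, 0, 0, 0, 0, 0, 0⟩, (0, 0, 0)⟩,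
  ⟨⟨23, 2, -64, 43, -22, 1, -6, -15, -1⟩, (3, 4, 33)⟩,
  ⟨⟨0, 0, 0, 0, 0, 0, 0, 0, 0⟩, (0, 0, 0)⟩,
  ⟨⟨0, 0, 0, 0, 0, 0, 0, 0, 0⟩, (0, 0, 0)⟩,
  ⟨⟨-13, -38, -31, -47, 22, 16, 6, 9, -17⟩, (34, 29, 27)⟩,
  ⟨⟨7, -22, -56, -27, -42, 31, 14, -7, -1⟩, (30, 27, 23)⟩,
  ⟨⟨0, 0, 0, 0, 0, 0, 0, 0, 0⟩, (0, 0, 0)⟩,
  ⟨⟨43, -22, -44, 23, 2, 41, 6, 15, -7⟩, (12, 9, 12)⟩,
  ⟨⟨0, 0, 0, 0, 0, 0, 0, 0, 0⟩, (0, 0, 0)⟩,
  ⟨⟨0, 0, 0, 0, 0, 0, 0, 0, 0⟩, (0, 0, 0)⟩]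

/-- Data of a prime. -/
noncomputable def Dm : PD := ⟨(nat_lit 31), (nat_lit 2), (435, 8, 13), (281, 829, 278), (666, 926, 286)⟩

theorem Dm_ok : Dm.Ok := pdb_sound (s := 3) (C := ⟨⟨11, 26, -43, -19, 34, 32, -12, -3, -1⟩, (11, 12, 19)⟩) (by show Nat.Prime 31; norm_num) (by decide +kernel)

/-- Lines of the first type. -/
noncomputable def Clm : List C1 := [⟨⟨-11, -26, -32, 19, -34, 13, 12, 3, -13⟩, (22, 24, 7)⟩,
  ⟨⟨0, 0, 0, 0, 0, 0, 0, 0, 0⟩, (0, 0, 0)⟩,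
  ⟨⟨0, 0, 0, 0, 0, 0, 0, 0, 0⟩, (0, 0, 0)⟩,
  ⟨⟨29, 26, -37, 21, 6, 32, 8, -11, -7⟩, (2, 10, 23)⟩,
  ⟨⟨0, 0, 0, 0, 0, 0, 0, 0, 0⟩, (0, 0, 0)⟩,
  ⟨⟨21, 6, -53, 29, 26, 8, 8, -11, -1⟩, (6, 26, 20)⟩,
  ⟨⟨0, 0, 0, 0, 0, 0, 0, 0, 0⟩, (0, 0, 0)⟩,
  ⟨⟨29, -26, -37, 21, -6, 32, 8, 11, -7⟩, (27, 11, 16)⟩,
  ⟨⟨0, 0, 0, 0, 0, 0, 0, 0, 0⟩, (0, 0, 0)⟩,
  ⟨⟨-9, -6, -43, -41, 14, 28, 4, 13, -5⟩, (4, 1, 12)⟩,
  ⟨⟨9, -6, -52, -41, -14, 13, -4, 13, -1⟩, (29, 16, 25)⟩,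
  ⟨⟨21, -6, -53, 29, -26, 8, 8, 11, -1⟩, (7, 20, 13)⟩,
  ⟨⟨9, 6, -52, -41, 14, 13, -4, -13, -1⟩, (28, 24, 22)⟩,
  ⟨⟨0, 0, 0, 0, 0, 0, 0, 0, 0⟩, (0, 0, 0)⟩,
  ⟨⟨0, 0, 0, 0, 0, 0, 0, 0, 0⟩, (0, 0, 0)⟩,
  ⟨⟨0, 0, 0, 0, 0, 0, 0, 0, 0⟩, (0, 0, 0)⟩,
  ⟨⟨11, -26, -43, -19, -34, 32, -12, 3, -1⟩, (25, 16, 15)⟩,
  ⟨⟨-9, 6, -43, -41, -14, 28, 4, -13, -5⟩, (3, 24, 9)⟩,
  ⟨⟨0, 0, 0, 0, 0, 0, 0, 0, 0⟩, (0, 0, 0)⟩,
  ⟨⟨0, 0, 0, 0, 0, 0, 0, 0, 0⟩, (0, 0, 0)⟩,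
  ⟨⟨0, 0, 0, 0, 0, 0, 0, 0, 0⟩, (0, 0, 0)⟩,
  ⟨⟨0, 0, 0, 0, 0, 0, 0, 0, 0⟩, (0, 0, 0)⟩,
  ⟨⟨0, 0, 0, 0, 0, 0, 0, 0, 0⟩, (0, 0, 0)⟩,
  ⟨⟨0, 0, 0, 0, 0, 0, 0, 0, 0⟩, (0, 0, 0)⟩,
  ⟨⟨0, 0, 0, 0, 0, 0, 0, 0, 0⟩, (0, 0, 0)⟩,
  ⟨⟨0, 0, 0, 0, 0, 0, 0, 0, 0⟩, (0, 0, 0)⟩,
  ⟨⟨0, 0, 0, 0, 0, 0, 0, 0, 0⟩, (0, 0, 0)⟩,
  ⟨⟨0, 0, 0, 0, 0, 0, 0, 0, 0⟩, (0, 0, 0)⟩,
  ⟨⟨0, 0, 0, 0, 0, 0, 0, 0, 0⟩, (0, 0, 0)⟩,
  ⟨⟨0, 0, 0, 0, 0, 0, 0, 0, 0⟩, (0, 0, 0)⟩,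
  ⟨⟨-11, 26, -32, 19, 34, 13, 12, -3, -13⟩, (28, 8, 23)⟩]

/-- Unit moves. -/
noncomputable def U : List Mv := [mz,
  mz,
  ⟨⟨1, 0, 0, 0, -1, 0, 0, 0, 1⟩, .nil, (nat_lit 0), (nat_lit 2), (nat_lit 1), (nat_lit 0), (0, 0, 0), [], 2⟩,
  mz,
  ⟨⟨-1, 0, 1, 0, 1, 0, 0, 0, 1⟩, .nil, (nat_lit 6), (nat_lit 0), (nat_lit 0), (nat_lit 1), (0, 0, 0), [], 1⟩,
  ⟨⟨-1, 0, 1, 0, -1, 0, 0, 0, 1⟩, .nil, (nat_lit 0), (nat_lit 5), (nat_lit 1), (nat_lit 0), (0, 0, 0), [], 2⟩,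
  ⟨⟨-1, 0, 1, 0, 1, 0, 0, 0, 1⟩, .nil, (nat_lit 6), (nat_lit 0), (nat_lit 0), (nat_lit 1), (0, 0, 0), [], 1⟩]

theorem v_ty : tyb Dm S.ty1 Clm = true := by decide +kernel

theorem v_ty0 : tyb D0 (S.tys.getD 0 0) Cl0 = true := by decide +kernel

theorem v_ty1 : tyb D1 (S.tys.getD 1 0) Cl1 = true := by decide +kernel

theorem v_msc : mscb S D0 [D1] Dm (nat_lit 10) = true := by decide +kernel

theorem v_mv0 : mvsn (nat_lit 22111440463) S D0 [D1] Dm (nat_lit 10) 0 D0 = true := by decide +kernel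

theorem v_mv1 : mvsn (nat_lit 22111440463) S D0 [D1] Dm (nat_lit 10) 1 D1 = true := by decide +kernel

theorem v_mm : mmsn (nat_lit 22111440463) S D0 [D1] Dm (nat_lit 10) = true := by decide +kernel

theorem v_un : unb S D0 (nat_lit 10) U = true := by decide +kernel

theorem v_ok : okb S.oks [(0, 0, 0), (2, 9, 0), (0, 0, 0), (0, 0, 0), (0, 0, 0), (0, 0, 0)] = true := by decide +kernel

theorem v_part : ∀ d < D0.p, (nat_lit 10).testBit d = true → part S (zc (D0 :: [D1])) d = true := by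
  intro d hd h
  have h1 : ∀ d < 7, (nat_lit 10).testBit d = true → d = 1 ∨ d = 3 := by decide
  rcases h1 d hd h with rfl | rfl
  · exact part_1
  · exact part_3

theorem main (n : ℕ) (ho : Odd n) (hr : ¬ Rep n) (h0 : Split 7 n) (h1 : Split 37 n) (hm : Split 31 n) :
    n ∈ EE := by
  refine concln (W := nat_lit 22111440463) (S := S) (P0 := D0) (Pl := [D1]) (Pm := Dm) (cn := nat_lit 10) ?_ Dm_ok v_ty ?_ ?_ v_msc ?_ v_mm v_un v_part v_ok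
    n ho hr ?_ hm
  · simp only [List.forall_mem_cons]
    exact ⟨D0_ok, D1_ok, fun _ h => absurd h (by simp)⟩
  · exact all2 (φ := fun j P => ∃ L, tyb P (S.tys.getD j 0) L = true) ⟨_, v_ty0⟩ ⟨_, v_ty1⟩
  · exact all2 (φ := fun j P => Nat.ble (S.pks.getD j 0) (Nat.pow P.p P.K) = true) (by decide +kernel) (by decide +kernel)
  · exact all2 (φ := fun i P => mvsn (nat_lit 22111440463) S D0 [D1] Dm (nat_lit 10) i P = true) v_mv0 v_mv1
  · simp only [List.forall_mem_cons]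
    exact ⟨h0, h1, fun _ h => absurd h (by simp)⟩

end Pool.Agent.Work.MP_9954fe_nt.P7_37_31

namespace Pool.Agent.Work.MP_9954fe_nt.P13_71_47

/-- Dummy move. -/
noncomputable def mz : Mv := ⟨⟨0, 0, 0, 0, 0, 0, 0, 0, 0⟩, .nil, (nat_lit 0), (nat_lit 0), (nat_lit 0), (nat_lit 0), (0, 0, 0), [], 0⟩

/-- Moves. -/
noncomputable def t0_2 : List Mv := [
  ⟨⟨-1, -12, 9, 8, 5, 6, 8, -8, -7⟩, (.cons (nat_lit 1798270) (nat_lit 3794392) (nat_lit 2144058) (nat_lit 1)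
 (.cons (nat_lit 24495929) (nat_lit 1402937) (nat_lit 22719277) (nat_lit 1) .nil)), (nat_lit 18), (nat_lit 30),
 (nat_lit 6), (nat_lit 1), (8, 1, 1), [1227326, 1736493], 38⟩,
  ⟨⟨9, 4, -16, -8, -5, -6, 8, -8, -7⟩, (.cons (nat_lit 2919685) (nat_lit 4270751) (nat_lit 1481163) (nat_lit 1)
 (.cons (nat_lit 14351471) (nat_lit 3752255) (nat_lit 18724981) (nat_lit 1) .nil)), (nat_lit 1), (nat_lit 8),
 (nat_lit 10), (nat_lit 1), (6, 12, 1), [2271767, 19056565], 40⟩,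
  ⟨⟨9, 4, -16, -8, -5, -6, 8, -8, -7⟩, (.cons (nat_lit 2919685) (nat_lit 4270751) (nat_lit 1481163) (nat_lit 1)
 (.cons (nat_lit 14351471) (nat_lit 3752255) (nat_lit 18724981) (nat_lit 1) .nil)), (nat_lit 1), (nat_lit 8),
 (nat_lit 10), (nat_lit 1), (6, 12, 1), [2271767, 19056565], 40⟩,
  ⟨⟨-1, -12, 9, -8, -5, -6, 8, -8, -7⟩, (.cons (nat_lit 495919) (nat_lit 4756839) (nat_lit 247966) (nat_lit 1)
 (.cons (nat_lit 25411680) (nat_lit 11472277) (nat_lit 23060427) (nat_lit 1) .nil)), (nat_lit 46), (nat_lit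
 39), (nat_lit 10), (nat_lit 1), (8, 12, 1), [3125393, 22027076], 40⟩,
  ⟨⟨-1, -12, 9, 8, 5, 6, 8, -8, -7⟩, (.cons (nat_lit 1798270) (nat_lit 3794392) (nat_lit 2144058) (nat_lit 1)
 (.cons (nat_lit 24495929) (nat_lit 1402937) (nat_lit 22719277) (nat_lit 1) .nil)), (nat_lit 18), (nat_lit 30),
 (nat_lit 6), (nat_lit 1), (8, 1, 1), [1227326, 1736493], 38⟩,
  ⟨⟨9, 4, -16, 8, 5, 6, 8, -8, -7⟩, (.cons (nat_lit 2843227) (nat_lit 1868486) (nat_lit 1840382) (nat_lit 1)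
 (.cons (nat_lit 22816511) (nat_lit 2985604) (nat_lit 1294005) (nat_lit 1) .nil)), (nat_lit 29), (nat_lit 17),
 (nat_lit 6), (nat_lit 1), (6, 1, 1), [4589782, 20037507], 38⟩,
  ⟨⟨9, 4, -16, 8, 5, 6, 8, -8, -7⟩, (.cons (nat_lit 2843227) (nat_lit 1868486) (nat_lit 1840382) (nat_lit 1)
 (.cons (nat_lit 22816511) (nat_lit 2985604) (nat_lit 1294005) (nat_lit 1) .nil)), (nat_lit 29), (nat_lit 17),
 (nat_lit 6), (nat_lit 1), (6, 1, 1), [4589782, 20037507], 38⟩,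
  ⟨⟨-1, -12, 9, -8, -5, -6, 8, -8, -7⟩, (.cons (nat_lit 495919) (nat_lit 4756839) (nat_lit 247966) (nat_lit 1)
 (.cons (nat_lit 25411680) (nat_lit 11472277) (nat_lit 23060427) (nat_lit 1) .nil)), (nat_lit 46), (nat_lit
 39), (nat_lit 10), (nat_lit 1), (8, 12, 1), [3125393, 22027076], 40⟩,
  ⟨⟨-1, -12, 9, -8, -5, -6, 8, -8, -7⟩, (.cons (nat_lit 495919) (nat_lit 4756839) (nat_lit 247966) (nat_lit 1)
 (.cons (nat_lit 25411680) (nat_lit 11472277) (nat_lit 23060427) (nat_lit 1) .nil)), (nat_lit 46), (nat_lit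
 39), (nat_lit 10), (nat_lit 1), (8, 12, 1), [3125393, 22027076], 40⟩,
  ⟨⟨-1, -12, 9, -8, -5, -6, 8, -8, -7⟩, (.cons (nat_lit 495919) (nat_lit 4756839) (nat_lit 247966) (nat_lit 1)
 (.cons (nat_lit 25411680) (nat_lit 11472277) (nat_lit 23060427) (nat_lit 1) .nil)), (nat_lit 46), (nat_lit
 39), (nat_lit 10), (nat_lit 1), (8, 12, 1), [3125393, 22027076], 40⟩,
  ⟨⟨-1, -12, 9, 8, 5, 6, 8, -8, -7⟩, (.cons (nat_lit 1798270) (nat_lit 3794392) (nat_lit 2144058) (nat_lit 1)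
 (.cons (nat_lit 24495929) (nat_lit 1402937) (nat_lit 22719277) (nat_lit 1) .nil)), (nat_lit 18), (nat_lit 30),
 (nat_lit 6), (nat_lit 1), (8, 1, 1), [1227326, 1736493], 38⟩,
  ⟨⟨-1, -12, 9, -8, -5, -6, 8, -8, -7⟩, (.cons (nat_lit 495919) (nat_lit 4756839) (nat_lit 247966) (nat_lit 1)
 (.cons (nat_lit 25411680) (nat_lit 11472277) (nat_lit 23060427) (nat_lit 1) .nil)), (nat_lit 46), (nat_lit
 39), (nat_lit 10), (nat_lit 1), (8, 12, 1), [3125393, 22027076], 40⟩,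
  ⟨⟨-1, -12, 9, -8, -5, -6, 8, -8, -7⟩, (.cons (nat_lit 495919) (nat_lit 4756839) (nat_lit 247966) (nat_lit 1)
 (.cons (nat_lit 25411680) (nat_lit 11472277) (nat_lit 23060427) (nat_lit 1) .nil)), (nat_lit 46), (nat_lit
 39), (nat_lit 10), (nat_lit 1), (8, 12, 1), [3125393, 22027076], 40⟩]

/-- Moves. -/
noncomputable def t0_4 : List Mv := [
  ⟨⟨5, 12, -9, -12, 5, 6, 0, 0, -13⟩, (.cons (nat_lit 2595001) (nat_lit 3104467) (nat_lit 3422489) (nat_lit 1)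
 (.cons (nat_lit 3636550) (nat_lit 23327340) (nat_lit 11874439) (nat_lit 1) .nil)), (nat_lit 1), (nat_lit 20),
 (nat_lit 4), (nat_lit 1), (12, 5, 0), [2732539, 17031420], 40⟩,
  ⟨⟨-5, -12, -4, -12, 5, 6, 0, 0, -13⟩, (.cons (nat_lit 273335) (nat_lit 1209881) (nat_lit 68337) (nat_lit 1)
 (.cons (nat_lit 25411680) (nat_lit 14290882) (nat_lit 17329831) (nat_lit 1) .nil)), (nat_lit 46), (nat_lit
 27), (nat_lit 4), (nat_lit 1), (1, 5, 0), [3873608, 2077142], 40⟩,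
  ⟨⟨-5, -12, -4, -12, 5, 6, 0, 0, -13⟩, (.cons (nat_lit 273335) (nat_lit 1209881) (nat_lit 68337) (nat_lit 1)
 (.cons (nat_lit 25411680) (nat_lit 14290882) (nat_lit 17329831) (nat_lit 1) .nil)), (nat_lit 46), (nat_lit
 27), (nat_lit 4), (nat_lit 1), (1, 5, 0), [3873608, 2077142], 40⟩,
  ⟨⟨-5, -12, -4, 12, -5, -6, 0, 0, -13⟩, (.cons (nat_lit 3834156) (nat_lit 4555975) (nat_lit 1642618) (nat_lit
 1) (.cons (nat_lit 23190518) (nat_lit 4508379) (nat_lit 12295) (nat_lit 1) .nil)), (nat_lit 1), (nat_lit 12),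
 (nat_lit 40), (nat_lit 1), (1, 8, 0), [1521153, 1182786], 23⟩,
  ⟨⟨5, 12, -9, 12, -5, -6, 0, 0, -13⟩, (.cons (nat_lit 2272170) (nat_lit 4691530) (nat_lit 1774748) (nat_lit 1)
 (.cons (nat_lit 25411680) (nat_lit 14383953) (nat_lit 19282144) (nat_lit 1) .nil)), (nat_lit 46), (nat_lit
 35), (nat_lit 40), (nat_lit 1), (12, 8, 0), [2927202, 17739995], 23⟩,
  ⟨⟨5, 12, -9, 12, -5, -6, 0, 0, -13⟩, (.cons (nat_lit 2272170) (nat_lit 4691530) (nat_lit 1774748) (nat_lit 1)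
 (.cons (nat_lit 25411680) (nat_lit 14383953) (nat_lit 19282144) (nat_lit 1) .nil)), (nat_lit 46), (nat_lit
 35), (nat_lit 40), (nat_lit 1), (12, 8, 0), [2927202, 17739995], 23⟩,
  ⟨⟨5, 12, -9, -12, 5, 6, 0, 0, -13⟩, (.cons (nat_lit 2595001) (nat_lit 3104467) (nat_lit 3422489) (nat_lit 1)
 (.cons (nat_lit 3636550) (nat_lit 23327340) (nat_lit 11874439) (nat_lit 1) .nil)), (nat_lit 1), (nat_lit 20),
 (nat_lit 4), (nat_lit 1), (12, 5, 0), [2732539, 17031420], 40⟩,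
  ⟨⟨5, 12, -9, 12, -5, -6, 0, 0, -13⟩, (.cons (nat_lit 2272170) (nat_lit 4691530) (nat_lit 1774748) (nat_lit 1)
 (.cons (nat_lit 25411680) (nat_lit 14383953) (nat_lit 19282144) (nat_lit 1) .nil)), (nat_lit 46), (nat_lit
 35), (nat_lit 40), (nat_lit 1), (12, 8, 0), [2927202, 17739995], 23⟩,
  ⟨⟨5, 12, -9, 12, -5, -6, 0, 0, -13⟩, (.cons (nat_lit 2272170) (nat_lit 4691530) (nat_lit 1774748) (nat_lit 1)
 (.cons (nat_lit 25411680) (nat_lit 14383953) (nat_lit 19282144) (nat_lit 1) .nil)), (nat_lit 46), (nat_lit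
 35), (nat_lit 40), (nat_lit 1), (12, 8, 0), [2927202, 17739995], 23⟩,
  ⟨⟨-5, -12, -4, 12, -5, -6, 0, 0, -13⟩, (.cons (nat_lit 3834156) (nat_lit 4555975) (nat_lit 1642618) (nat_lit
 1) (.cons (nat_lit 23190518) (nat_lit 4508379) (nat_lit 12295) (nat_lit 1) .nil)), (nat_lit 1), (nat_lit 12),
 (nat_lit 40), (nat_lit 1), (1, 8, 0), [1521153, 1182786], 23⟩,
  ⟨⟨5, 12, -9, 12, -5, -6, 0, 0, -13⟩, (.cons (nat_lit 2272170) (nat_lit 4691530) (nat_lit 1774748) (nat_lit 1)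
 (.cons (nat_lit 25411680) (nat_lit 14383953) (nat_lit 19282144) (nat_lit 1) .nil)), (nat_lit 46), (nat_lit
 35), (nat_lit 40), (nat_lit 1), (12, 8, 0), [2927202, 17739995], 23⟩,
  ⟨⟨5, 12, -9, -12, 5, 6, 0, 0, -13⟩, (.cons (nat_lit 2595001) (nat_lit 3104467) (nat_lit 3422489) (nat_lit 1)
 (.cons (nat_lit 3636550) (nat_lit 23327340) (nat_lit 11874439) (nat_lit 1) .nil)), (nat_lit 1), (nat_lit 20),
 (nat_lit 4), (nat_lit 1), (12, 5, 0), [2732539, 17031420], 40⟩,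
  ⟨⟨5, 12, -9, 12, -5, -6, 0, 0, -13⟩, (.cons (nat_lit 2272170) (nat_lit 4691530) (nat_lit 1774748) (nat_lit 1)
 (.cons (nat_lit 25411680) (nat_lit 14383953) (nat_lit 19282144) (nat_lit 1) .nil)), (nat_lit 46), (nat_lit
 35), (nat_lit 40), (nat_lit 1), (12, 8, 0), [2927202, 17739995], 23⟩]

/-- Moves. -/
noncomputable def t0_5 : List Mv := [
  ⟨⟨9, 8, -13, 10, -7, 0, 2, -4, -13⟩, (.cons (nat_lit 2315812) (nat_lit 843964) (nat_lit 1453495) (nat_lit 1)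
 (.cons (nat_lit 12139777) (nat_lit 20582993) (nat_lit 19857521) (nat_lit 1) .nil)), (nat_lit 7), (nat_lit 27),
 (nat_lit 4), (nat_lit 1), (2, 8, 12), [4581319, 13069842], 3⟩,
  ⟨⟨9, 8, -13, -10, 7, 0, 2, -4, -13⟩, (.cons (nat_lit 4177513) (nat_lit 3253428) (nat_lit 1218083) (nat_lit 1)
 (.cons (nat_lit 11331862) (nat_lit 20845812) (nat_lit 20386165) (nat_lit 1) .nil)), (nat_lit 1), (nat_lit 12),
 (nat_lit 2), (nat_lit 1), (2, 5, 12), [648168, 16956073], 17⟩,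
  ⟨⟨9, 8, -13, -10, 7, 0, 2, -4, -13⟩, (.cons (nat_lit 4177513) (nat_lit 3253428) (nat_lit 1218083) (nat_lit 1)
 (.cons (nat_lit 11331862) (nat_lit 20845812) (nat_lit 20386165) (nat_lit 1) .nil)), (nat_lit 1), (nat_lit 12),
 (nat_lit 2), (nat_lit 1), (2, 5, 12), [648168, 16956073], 17⟩,
  ⟨⟨9, 8, -13, -10, 7, 0, 2, -4, -13⟩, (.cons (nat_lit 4177513) (nat_lit 3253428) (nat_lit 1218083) (nat_lit 1)
 (.cons (nat_lit 11331862) (nat_lit 20845812) (nat_lit 20386165) (nat_lit 1) .nil)), (nat_lit 1), (nat_lit 12),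
 (nat_lit 2), (nat_lit 1), (2, 5, 12), [648168, 16956073], 17⟩,
  ⟨⟨-7, -12, 0, 10, -7, 0, 2, -4, -13⟩, (.cons (nat_lit 3289575) (nat_lit 183543) (nat_lit 32948) (nat_lit 1)
 (.cons (nat_lit 16760711) (nat_lit 20278681) (nat_lit 2764407) (nat_lit 1) .nil)), (nat_lit 40), (nat_lit 20),
 (nat_lit 4), (nat_lit 1), (10, 8, 12), [920321, 7541753], 3⟩,
  ⟨⟨9, 8, -13, 10, -7, 0, 2, -4, -13⟩, (.cons (nat_lit 2315812) (nat_lit 843964) (nat_lit 1453495) (nat_lit 1)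
 (.cons (nat_lit 12139777) (nat_lit 20582993) (nat_lit 19857521) (nat_lit 1) .nil)), (nat_lit 7), (nat_lit 27),
 (nat_lit 4), (nat_lit 1), (2, 8, 12), [4581319, 13069842], 3⟩,
  ⟨⟨9, 8, -13, 10, -7, 0, 2, -4, -13⟩, (.cons (nat_lit 2315812) (nat_lit 843964) (nat_lit 1453495) (nat_lit 1)
 (.cons (nat_lit 12139777) (nat_lit 20582993) (nat_lit 19857521) (nat_lit 1) .nil)), (nat_lit 7), (nat_lit 27),
 (nat_lit 4), (nat_lit 1), (2, 8, 12), [4581319, 13069842], 3⟩,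
  ⟨⟨9, 8, -13, -10, 7, 0, 2, -4, -13⟩, (.cons (nat_lit 4177513) (nat_lit 3253428) (nat_lit 1218083) (nat_lit 1)
 (.cons (nat_lit 11331862) (nat_lit 20845812) (nat_lit 20386165) (nat_lit 1) .nil)), (nat_lit 1), (nat_lit 12),
 (nat_lit 2), (nat_lit 1), (2, 5, 12), [648168, 16956073], 17⟩,
  ⟨⟨-7, -12, 0, 10, -7, 0, 2, -4, -13⟩, (.cons (nat_lit 3289575) (nat_lit 183543) (nat_lit 32948) (nat_lit 1)
 (.cons (nat_lit 16760711) (nat_lit 20278681) (nat_lit 2764407) (nat_lit 1) .nil)), (nat_lit 40), (nat_lit 20),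
 (nat_lit 4), (nat_lit 1), (10, 8, 12), [920321, 7541753], 3⟩,
  ⟨⟨-7, -12, 0, -10, 7, 0, 2, -4, -13⟩, (.cons (nat_lit 4676545) (nat_lit 3073074) (nat_lit 3831397) (nat_lit
 1) (.cons (nat_lit 25411680) (nat_lit 2521958) (nat_lit 6609286) (nat_lit 1) .nil)), (nat_lit 46), (nat_lit
 35), (nat_lit 2), (nat_lit 1), (10, 5, 12), [3689710, 11162863], 17⟩,
  ⟨⟨9, 8, -13, -10, 7, 0, 2, -4, -13⟩, (.cons (nat_lit 4177513) (nat_lit 3253428) (nat_lit 1218083) (nat_lit 1)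
 (.cons (nat_lit 11331862) (nat_lit 20845812) (nat_lit 20386165) (nat_lit 1) .nil)), (nat_lit 1), (nat_lit 12),
 (nat_lit 2), (nat_lit 1), (2, 5, 12), [648168, 16956073], 17⟩,
  ⟨⟨9, 8, -13, -10, 7, 0, 2, -4, -13⟩, (.cons (nat_lit 4177513) (nat_lit 3253428) (nat_lit 1218083) (nat_lit 1)
 (.cons (nat_lit 11331862) (nat_lit 20845812) (nat_lit 20386165) (nat_lit 1) .nil)), (nat_lit 1), (nat_lit 12),
 (nat_lit 2), (nat_lit 1), (2, 5, 12), [648168, 16956073], 17⟩,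
  ⟨⟨9, 8, -13, -10, 7, 0, 2, -4, -13⟩, (.cons (nat_lit 4177513) (nat_lit 3253428) (nat_lit 1218083) (nat_lit 1)
 (.cons (nat_lit 11331862) (nat_lit 20845812) (nat_lit 20386165) (nat_lit 1) .nil)), (nat_lit 1), (nat_lit 12),
 (nat_lit 2), (nat_lit 1), (2, 5, 12), [648168, 16956073], 17⟩]

/-- Moves. -/
noncomputable def t1_2 : List Mv := [
  mz,
  ⟨⟨-75, 20, 43, -10, -21, -70, -12, 60, -13⟩, (.cons (nat_lit 4682214) (nat_lit 409142) (nat_lit 421146)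
 (nat_lit 1) (.cons (nat_lit 9958158) (nat_lit 14218708) (nat_lit 17738934) (nat_lit 1) .nil)), (nat_lit 8),
 (nat_lit 22), (nat_lit 5), (nat_lit 1), (51, 21, 11), [706233, 5763012], 4⟩,
  mz,
  ⟨⟨65, -24, -72, -4, 55, -48, -10, -40, -49⟩, (.cons (nat_lit 4826808) (nat_lit 2255262) (nat_lit 1189622)
 (nat_lit 1) (.cons (nat_lit 19071543) (nat_lit 14234576) (nat_lit 14827765) (nat_lit 1) .nil)), (nat_lit 46),
 (nat_lit 44), (nat_lit 0), (nat_lit 1), (37, 1, 38), [3295568, 22101516], 24⟩,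
  ⟨⟨27, 68, 16, 64, -15, -62, -6, 48, -43⟩, (.cons (nat_lit 899485) (nat_lit 591795) (nat_lit 713635) (nat_lit
 1) (.cons (nat_lit 2338641) (nat_lit 3232467) (nat_lit 10640152) (nat_lit 1) .nil)), (nat_lit 33), (nat_lit
 39), (nat_lit 25), (nat_lit 1), (60, 16, 34), [3929379, 10006727], 46⟩,
  ⟨⟨27, -68, 16, -64, -15, 62, -6, -48, -43⟩, (.cons (nat_lit 3998805) (nat_lit 1575508) (nat_lit 4732861)
 (nat_lit 1) (.cons (nat_lit 4762656) (nat_lit 22874515) (nat_lit 19542933) (nat_lit 1) .nil)), (nat_lit 10),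
 (nat_lit 19), (nat_lit 16), (nat_lit 1), (7, 36, 30), [1122728, 16768119], 41⟩,
  mz,
  ⟨⟨-9, -56, -55, 56, 25, -68, -38, 16, -35⟩, (.cons (nat_lit 917628) (nat_lit 3363939) (nat_lit 2451517)
 (nat_lit 1) (.cons (nat_lit 17849842) (nat_lit 7328955) (nat_lit 23156756) (nat_lit 1) .nil)), (nat_lit 43),
 (nat_lit 35), (nat_lit 35), (nat_lit 1), (69, 44, 31), [3991794, 21741685], 27⟩,
  ⟨⟨3, 40, -76, -64, -25, 12, 26, -32, -67⟩, (.cons (nat_lit 1454743) (nat_lit 4105675) (nat_lit 1) (nat_lit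
 3518788) (.cons (nat_lit 8567285) (nat_lit 23733055) (nat_lit 15919663) (nat_lit 1) .nil)), (nat_lit 5),
 (nat_lit 33), (nat_lit 43), (nat_lit 1), (14, 9, 3), [3883931, 9066087], 2⟩,
  mz,
  mz,
  ⟨⟨33, -20, -92, 64, 15, -2, 6, 48, -49⟩, (.cons (nat_lit 285331) (nat_lit 605870) (nat_lit 2836271) (nat_lit
 1) (.cons (nat_lit 18710210) (nat_lit 6171651) (nat_lit 15890191) (nat_lit 1) .nil)), (nat_lit 45), (nat_lit
 17), (nat_lit 10), (nat_lit 1), (67, 3, 38), [3834877, 11384974], 39⟩,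
  ⟨⟨9, 76, -20, -44, 15, 82, -42, 24, -25⟩, (.cons (nat_lit 1821250) (nat_lit 1587563) (nat_lit 723679)
 (nat_lit 1) (.cons (nat_lit 21817829) (nat_lit 13562732) (nat_lit 23698931) (nat_lit 1) .nil)), (nat_lit 23),
 (nat_lit 32), (nat_lit 5), (nat_lit 1), (31, 22, 21), [2456001, 14313382], 45⟩,
  mz,
  mz,
  ⟨⟨-9, 76, -11, -44, -15, -38, 42, 24, -67⟩, (.cons (nat_lit 3830828) (nat_lit 4672940) (nat_lit 4215331)
 (nat_lit 1) (.cons (nat_lit 4715657) (nat_lit 1928413) (nat_lit 21356184) (nat_lit 1) .nil)), (nat_lit 14),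
 (nat_lit 16), (nat_lit 36), (nat_lit 1), (25, 67, 49), [4287818, 21092642], 46⟩,
  ⟨⟨17, 24, -89, 36, 55, 12, 54, -24, -53⟩, (.cons (nat_lit 575781) (nat_lit 3275884) (nat_lit 1279490)
 (nat_lit 1) (.cons (nat_lit 20414142) (nat_lit 16851743) (nat_lit 20892664) (nat_lit 1) .nil)), (nat_lit 43),
 (nat_lit 28), (nat_lit 32), (nat_lit 1), (7, 19, 64), [2479870, 14476869], 20⟩,
  mz,
  ⟨⟨9, 56, -64, -56, -25, -12, 38, -16, -73⟩, (.cons (nat_lit 2076251) (nat_lit 2592940) (nat_lit 1203062)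
 (nat_lit 1) (.cons (nat_lit 13624382) (nat_lit 3901849) (nat_lit 14862921) (nat_lit 1) .nil)), (nat_lit 19),
 (nat_lit 16), (nat_lit 18), (nat_lit 1), (56, 46, 55), [594151, 24020974], 17⟩,
  ⟨⟨39, 40, -80, -44, 55, 32, -22, -8, -55⟩, (.cons (nat_lit 2096273) (nat_lit 4181390) (nat_lit 799691)
 (nat_lit 1) (.cons (nat_lit 10664811) (nat_lit 17912237) (nat_lit 5417271) (nat_lit 1) .nil)), (nat_lit 25),
 (nat_lit 38), (nat_lit 17), (nat_lit 1), (28, 3, 37), [2186082, 12661400], 5⟩,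
  mz,
  mz,
  ⟨⟨37, 48, -73, 36, -55, -48, 54, 24, -1⟩, (.cons (nat_lit 1387887) (nat_lit 1740810) (nat_lit 22020) (nat_lit
 1) (.cons (nat_lit 12433037) (nat_lit 20083888) (nat_lit 13767999) (nat_lit 1) .nil)), (nat_lit 43), (nat_lit
 19), (nat_lit 15), (nat_lit 1), (15, 5, 43), [4431326, 17716865], 27⟩,
  ⟨⟨39, -40, -80, 44, 55, -32, -22, 8, -55⟩, (.cons (nat_lit 4314626) (nat_lit 1028306) (nat_lit 4430949)
 (nat_lit 1) (.cons (nat_lit 18124959) (nat_lit 15648998) (nat_lit 21296286) (nat_lit 1) .nil)), (nat_lit 32),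
 (nat_lit 6), (nat_lit 20), (nat_lit 1), (1, 43, 14), [1496540, 13376371], 44⟩,
  ⟨⟨-39, 40, -41, 44, 55, -12, 22, -8, -77⟩, (.cons (nat_lit 4787888) (nat_lit 436379) (nat_lit 3125596)
 (nat_lit 1) (.cons (nat_lit 14495468) (nat_lit 9396165) (nat_lit 2244716) (nat_lit 1) .nil)), (nat_lit 22),
 (nat_lit 38), (nat_lit 30), (nat_lit 1), (2, 56, 28), [2212058, 13223009], 5⟩,
  mz,
  ⟨⟨51, -4, 40, 10, -69, -20, 60, 12, -49⟩, (.cons (nat_lit 3844780) (nat_lit 3020279) (nat_lit 1026187)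
 (nat_lit 1) (.cons (nat_lit 19362272) (nat_lit 17138793) (nat_lit 21029141) (nat_lit 1) .nil)), (nat_lit 11),
 (nat_lit 24), (nat_lit 33), (nat_lit 1), (60, 41, 33), [529481, 25123588], 9⟩,
  mz,
  mz,
  ⟨⟨-13, -72, 36, 70, -11, -30, -4, -44, -49⟩, (.cons (nat_lit 4216353) (nat_lit 1277741) (nat_lit 649110)
 (nat_lit 1) (.cons (nat_lit 15855782) (nat_lit 18995683) (nat_lit 1) (nat_lit 2553941) .nil)), (nat_lit 23),
 (nat_lit 29), (nat_lit 38), (nat_lit 1), (29, 35, 69), [4372631, 20693009], 46⟩,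
  mz,
  ⟨⟨-11, 72, -25, 50, -11, -80, -44, 4, -29⟩, (.cons (nat_lit 375082) (nat_lit 3619643) (nat_lit 3152750)
 (nat_lit 1) (.cons (nat_lit 12407002) (nat_lit 24376873) (nat_lit 14098317) (nat_lit 1) .nil)), (nat_lit 2),
 (nat_lit 11), (nat_lit 18), (nat_lit 1), (44, 13, 34), [2963706, 14269590], 43⟩,
  mz,
  ⟨⟨-29, -72, 20, -56, 25, 68, -38, -16, -35⟩, (.cons (nat_lit 1743865) (nat_lit 401477) (nat_lit 1862876)
 (nat_lit 1) (.cons (nat_lit 23585245) (nat_lit 22731201) (nat_lit 2745648) (nat_lit 1) .nil)), (nat_lit 12),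
 (nat_lit 15), (nat_lit 37), (nat_lit 1), (27, 35, 6), [4400937, 23320108], 34⟩,
  ⟨⟨75, 20, -32, 10, -21, -80, 12, 60, -25⟩, (.cons (nat_lit 53098) (nat_lit 1379667) (nat_lit 132568) (nat_lit
 1) (.cons (nat_lit 10392680) (nat_lit 18212453) (nat_lit 8524758) (nat_lit 1) .nil)), (nat_lit 39), (nat_lit
 22), (nat_lit 42), (nat_lit 1), (30, 4, 19), [3430467, 12331447], 4⟩,
  mz,
  ⟨⟨3, -40, -76, -64, 25, 12, 26, 32, -67⟩, (.cons (nat_lit 2343027) (nat_lit 1221086) (nat_lit 3596441)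
 (nat_lit 1) (.cons (nat_lit 11498147) (nat_lit 9235268) (nat_lit 8778192) (nat_lit 1) .nil)), (nat_lit 4),
 (nat_lit 34), (nat_lit 40), (nat_lit 1), (58, 17, 53), [857460, 10429235], 27⟩,
  mz,
  ⟨⟨17, -24, -89, -36, 55, -12, 54, 24, -53⟩, (.cons (nat_lit 4606201) (nat_lit 1208013) (nat_lit 2018306)
 (nat_lit 1) (.cons (nat_lit 4460429) (nat_lit 21182247) (nat_lit 18504917) (nat_lit 1) .nil)), (nat_lit 35),
 (nat_lit 40), (nat_lit 39), (nat_lit 1), (5, 27, 66), [1560235, 20333912], 13⟩,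
  ⟨⟨-3, 40, -73, -64, 25, 52, -26, -32, -41⟩, (.cons (nat_lit 512412) (nat_lit 3185167) (nat_lit 4793673)
 (nat_lit 1) (.cons (nat_lit 17482981) (nat_lit 5789245) (nat_lit 4748289) (nat_lit 1) .nil)), (nat_lit 35),
 (nat_lit 44), (nat_lit 44), (nat_lit 1), (12, 43, 33), [1644932, 6593798], 34⟩,
  mz,
  mz,
  ⟨⟨-65, 24, -7, -4, 55, 52, 10, 40, -59⟩, (.cons (nat_lit 1804534) (nat_lit 3810164) (nat_lit 1156754)
 (nat_lit 1) (.cons (nat_lit 17346011) (nat_lit 5792644) (nat_lit 4291906) (nat_lit 1) .nil)), (nat_lit 1),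
 (nat_lit 0), (nat_lit 10), (nat_lit 1), (43, 66, 48), [3097765, 1089535], 24⟩,
  ⟨⟨11, -72, -36, -50, 11, -30, 44, -4, -73⟩, (.cons (nat_lit 2034178) (nat_lit 2710476) (nat_lit 1031644)
 (nat_lit 1) (.cons (nat_lit 11361759) (nat_lit 10080610) (nat_lit 23614597) (nat_lit 1) .nil)), (nat_lit 9),
 (nat_lit 21), (nat_lit 35), (nat_lit 1), (69, 22, 63), [1073288, 6446590], 13⟩,
  ⟨⟨-39, -40, -41, -44, 55, 12, 22, 8, -77⟩, (.cons (nat_lit 2253061) (nat_lit 1461196) (nat_lit 2864352)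
 (nat_lit 1) (.cons (nat_lit 3914650) (nat_lit 11224922) (nat_lit 14987655) (nat_lit 1) .nil)), (nat_lit 15),
 (nat_lit 6), (nat_lit 27), (nat_lit 1), (46, 61, 5), [3357403, 9764011], 44⟩,
  mz,
  ⟨⟨51, 52, -56, -44, 15, -38, 42, -24, -67⟩, (.cons (nat_lit 766916) (nat_lit 3223466) (nat_lit 4192819)
 (nat_lit 1) (.cons (nat_lit 8736094) (nat_lit 17176897) (nat_lit 20721628) (nat_lit 1) .nil)), (nat_lit 45),
 (nat_lit 44), (nat_lit 6), (nat_lit 1), (52, 15, 47), [319521, 2474823], 39⟩,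
  ⟨⟨9, -16, 80, 10, 69, 10, 60, -12, -11⟩, (.cons (nat_lit 3997153) (nat_lit 3703084) (nat_lit 3226946)
 (nat_lit 1) (.cons (nat_lit 6196689) (nat_lit 12327543) (nat_lit 12126569) (nat_lit 1) .nil)), (nat_lit 11),
 (nat_lit 23), (nat_lit 14), (nat_lit 1), (33, 13, 7), [180761, 24897080], 38⟩,
  ⟨⟨51, 4, 40, 10, 69, -20, 60, -12, -49⟩, (.cons (nat_lit 4826808) (nat_lit 1244527) (nat_lit 1015223)
 (nat_lit 1) (.cons (nat_lit 16195517) (nat_lit 6927046) (nat_lit 23631449) (nat_lit 1) .nil)), (nat_lit 46),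
 (nat_lit 16), (nat_lit 45), (nat_lit 1), (13, 29, 32), [3150713, 15405491], 8⟩,
  ⟨⟨29, 72, -9, 56, -25, 12, 38, 16, -73⟩, (.cons (nat_lit 1021687) (nat_lit 1040003) (nat_lit 156752) (nat_lit
 1) (.cons (nat_lit 23303751) (nat_lit 12485044) (nat_lit 16358733) (nat_lit 1) .nil)), (nat_lit 42), (nat_lit
 27), (nat_lit 31), (nat_lit 1), (5, 17, 9), [168904, 21486448], 2⟩,
  ⟨⟨65, 24, -72, -4, -55, -48, -10, 40, -49⟩, (.cons (nat_lit 2905324) (nat_lit 4189369) (nat_lit 3443009)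
 (nat_lit 1) (.cons (nat_lit 19741089) (nat_lit 2187581) (nat_lit 17965284) (nat_lit 1) .nil)), (nat_lit 44),
 (nat_lit 5), (nat_lit 1), (nat_lit 0), (39, 26, 65), [4629971, 17288678], 21⟩,
  ⟨⟨-51, 52, -5, 44, 15, -82, -42, -24, -25⟩, (.cons (nat_lit 1035746) (nat_lit 2061843) (nat_lit 1890393)
 (nat_lit 1) (.cons (nat_lit 987317) (nat_lit 25157370) (nat_lit 24352771) (nat_lit 1) .nil)), (nat_lit 2),
 (nat_lit 44), (nat_lit 41), (nat_lit 1), (18, 68, 19), [3834705, 21521545], 39⟩,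
  mz,
  ⟨⟨13, -72, 23, 70, 11, -40, 4, -44, -53⟩, (.cons (nat_lit 4095353) (nat_lit 1556275) (nat_lit 1) (nat_lit
 2081495) (.cons (nat_lit 24463773) (nat_lit 4140411) (nat_lit 17011242) (nat_lit 1) .nil)), (nat_lit 26),
 (nat_lit 29), (nat_lit 30), (nat_lit 1), (14, 59, 48), [348852, 3632351], 46⟩,
  ⟨⟨9, 16, 80, 10, -69, 10, 60, 12, -11⟩, (.cons (nat_lit 4826808) (nat_lit 4283129) (nat_lit 1725005) (nat_lit
 1) (.cons (nat_lit 4557118) (nat_lit 14637901) (nat_lit 1) (nat_lit 23915853) .nil)), (nat_lit 46), (nat_lit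
 31), (nat_lit 2), (nat_lit 1), (58, 25, 8), [2138404, 4086645], 39⟩,
  ⟨⟨75, -20, -32, -10, -21, 80, 12, -60, -25⟩, (.cons (nat_lit 3281172) (nat_lit 4280724) (nat_lit 3963766)
 (nat_lit 1) (.cons (nat_lit 22990953) (nat_lit 15417494) (nat_lit 17216542) (nat_lit 1) .nil)), (nat_lit 41),
 (nat_lit 38), (nat_lit 17), (nat_lit 1), (52, 12, 14), [3322128, 25073035], 3⟩,
  mz,
  ⟨⟨-11, -72, -25, -50, -11, 80, -44, -4, -29⟩, (.cons (nat_lit 3254097) (nat_lit 1014942) (nat_lit 1870977)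
 (nat_lit 1) (.cons (nat_lit 19307294) (nat_lit 17388099) (nat_lit 2725703) (nat_lit 1) .nil)), (nat_lit 24),
 (nat_lit 2), (nat_lit 13), (nat_lit 1), (38, 63, 10), [54143, 18286496], 46⟩,
  ⟨⟨-75, -20, 43, -10, 21, -70, -12, -60, -13⟩, (.cons (nat_lit 1949157) (nat_lit 759147) (nat_lit 800025)
 (nat_lit 1) (.cons (nat_lit 10341591) (nat_lit 3383064) (nat_lit 24842300) (nat_lit 1) .nil)), (nat_lit 1),
 (nat_lit 11), (nat_lit 15), (nat_lit 1), (2, 5, 6), [2879386, 6461813], 12⟩,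
  mz,
  mz,
  mz,
  ⟨⟨11, 72, -36, 50, 11, 30, 44, 4, -73⟩, (.cons (nat_lit 2971508) (nat_lit 3213672) (nat_lit 1596945) (nat_lit
 1) (.cons (nat_lit 19620) (nat_lit 22872879) (nat_lit 9533623) (nat_lit 1) .nil)), (nat_lit 21), (nat_lit 38),
 (nat_lit 34), (nat_lit 1), (4, 44, 16), [2633936, 15710472], 46⟩,
  mz,
  ⟨⟨9, -28, -85, -70, -11, 30, -4, 44, -49⟩, (.cons (nat_lit 221813) (nat_lit 4695532) (nat_lit 2016519)
 (nat_lit 1) (.cons (nat_lit 6068427) (nat_lit 16390685) (nat_lit 21261874) (nat_lit 1) .nil)), (nat_lit 2),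
 (nat_lit 43), (nat_lit 21), (nat_lit 1), (14, 41, 49), [3555818, 9467572], 43⟩,
  ⟨⟨75, -16, -52, 4, 55, -52, 10, -40, -59⟩, (.cons (nat_lit 4826808) (nat_lit 1255750) (nat_lit 4141536)
 (nat_lit 1) (.cons (nat_lit 11266956) (nat_lit 24683539) (nat_lit 24803122) (nat_lit 1) .nil)), (nat_lit 46),
 (nat_lit 3), (nat_lit 0), (nat_lit 1), (51, 51, 21), [2043012, 2618825], 24⟩,
  mz,
  ⟨⟨-27, -68, 43, 64, -15, -2, 6, -48, -49⟩, (.cons (nat_lit 2790763) (nat_lit 4502980) (nat_lit 816618)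
 (nat_lit 1) (.cons (nat_lit 10253048) (nat_lit 24260685) (nat_lit 19286469) (nat_lit 1) .nil)), (nat_lit 37),
 (nat_lit 19), (nat_lit 31), (nat_lit 1), (60, 55, 34), [1657593, 19951550], 41⟩,
  ⟨⟨13, 72, 23, -70, 11, 40, 4, 44, -53⟩, (.cons (nat_lit 2008420) (nat_lit 4206146) (nat_lit 2116600) (nat_lit
 1) (.cons (nat_lit 21177378) (nat_lit 10662998) (nat_lit 22641869) (nat_lit 1) .nil)), (nat_lit 38), (nat_lit
 34), (nat_lit 24), (nat_lit 1), (20, 7, 28), [4477794, 1955048], 13⟩,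
  ⟨⟨-23, 72, 32, 64, 25, -52, -26, 32, -41⟩, (.cons (nat_lit 2971529) (nat_lit 3673796) (nat_lit 826714)
 (nat_lit 1) (.cons (nat_lit 9047709) (nat_lit 17368815) (nat_lit 11049736) (nat_lit 1) .nil)), (nat_lit 4),
 (nat_lit 13), (nat_lit 7), (nat_lit 1), (27, 36, 12), [4515656, 20008534], 27⟩,
  ⟨⟨17, 24, 72, -36, -55, 48, 54, -24, -1⟩, (.cons (nat_lit 1715015) (nat_lit 1041506) (nat_lit 1938066)
 (nat_lit 1) (.cons (nat_lit 4643605) (nat_lit 16030596) (nat_lit 10069807) (nat_lit 1) .nil)), (nat_lit 12),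
 (nat_lit 40), (nat_lit 8), (nat_lit 1), (30, 20, 41), [4519637, 6742947], 34⟩]

/-- Moves. -/
noncomputable def t1_4 : List Mv := [
  mz,
  ⟨⟨63, 40, -56, 10, 21, 70, -12, 60, -13⟩, (.cons (nat_lit 4826808) (nat_lit 2684416) (nat_lit 720335)
 (nat_lit 1) (.cons (nat_lit 13358189) (nat_lit 609709) (nat_lit 13358260) (nat_lit 1) .nil)), (nat_lit 46),
 (nat_lit 28), (nat_lit 26), (nat_lit 1), (31, 50, 11), [2594210, 16345884], 12⟩,
  mz,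
  ⟨⟨65, -24, -72, 4, -55, 48, -10, -40, -49⟩, (.cons (nat_lit 463214) (nat_lit 745203) (nat_lit 124809)
 (nat_lit 1) (.cons (nat_lit 1813402) (nat_lit 5132470) (nat_lit 5103024) (nat_lit 1) .nil)), (nat_lit 0),
 (nat_lit 33), (nat_lit 16), (nat_lit 1), (37, 70, 38), [46741, 17715435], 18⟩,
  ⟨⟨27, 68, 16, 64, -15, -62, -6, 48, -43⟩, (.cons (nat_lit 899485) (nat_lit 591795) (nat_lit 713635) (nat_lit
 1) (.cons (nat_lit 2338641) (nat_lit 3232467) (nat_lit 10640152) (nat_lit 1) .nil)), (nat_lit 33), (nat_lit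
 39), (nat_lit 25), (nat_lit 1), (60, 16, 34), [3929379, 10006727], 46⟩,
  ⟨⟨27, -68, 16, 64, 15, -62, -6, -48, -43⟩, (.cons (nat_lit 4745210) (nat_lit 4299297) (nat_lit 788852)
 (nat_lit 1) (.cons (nat_lit 14436313) (nat_lit 12335421) (nat_lit 13733103) (nat_lit 1) .nil)), (nat_lit 23),
 (nat_lit 22), (nat_lit 3), (nat_lit 1), (7, 35, 30), [3044693, 1072123], 45⟩,
  mz,
  ⟨⟨-29, 72, 20, 56, 25, -68, -38, 16, -35⟩, (.cons (nat_lit 1261743) (nat_lit 2955769) (nat_lit 3455137)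
 (nat_lit 1) (.cons (nat_lit 10822884) (nat_lit 1507447) (nat_lit 12237693) (nat_lit 1) .nil)), (nat_lit 4),
 (nat_lit 12), (nat_lit 35), (nat_lit 1), (33, 44, 31), [1624950, 23280106], 27⟩,
  ⟨⟨23, -72, 9, 64, 25, -12, 26, -32, -67⟩, (.cons (nat_lit 2287891) (nat_lit 4045067) (nat_lit 4215083)
 (nat_lit 1) (.cons (nat_lit 1500478) (nat_lit 4023338) (nat_lit 4932604) (nat_lit 1) .nil)), (nat_lit 35),
 (nat_lit 3), (nat_lit 3), (nat_lit 1), (60, 62, 3), [3089610, 25217914], 34⟩,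
  mz,
  mz,
  ⟨⟨33, -20, -92, 64, 15, -2, 6, 48, -49⟩, (.cons (nat_lit 285331) (nat_lit 605870) (nat_lit 2836271) (nat_lit
 1) (.cons (nat_lit 18710210) (nat_lit 6171651) (nat_lit 15890191) (nat_lit 1) .nil)), (nat_lit 45), (nat_lit
 17), (nat_lit 10), (nat_lit 1), (67, 3, 38), [3834877, 11384974], 39⟩,
  ⟨⟨9, 76, -20, 44, -15, -82, -42, 24, -25⟩, (.cons (nat_lit 521744) (nat_lit 4605497) (nat_lit 366545)
 (nat_lit 1) (.cons (nat_lit 8602149) (nat_lit 22875120) (nat_lit 14551059) (nat_lit 1) .nil)), (nat_lit 33),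
 (nat_lit 16), (nat_lit 11), (nat_lit 1), (31, 49, 21), [370369, 3891540], 46⟩,
  mz,
  mz,
  ⟨⟨51, -52, -56, -44, -15, -38, 42, 24, -67⟩, (.cons (nat_lit 2685704) (nat_lit 1570083) (nat_lit 4732535)
 (nat_lit 1) (.cons (nat_lit 22459808) (nat_lit 20579095) (nat_lit 7179908) (nat_lit 1) .nil)), (nat_lit 33),
 (nat_lit 31), (nat_lit 36), (nat_lit 1), (24, 67, 49), [4691067, 4105919], 46⟩,
  ⟨⟨37, -48, 36, -36, -55, -12, 54, -24, -53⟩, (.cons (nat_lit 4826808) (nat_lit 2571377) (nat_lit 3855239)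
 (nat_lit 1) (.cons (nat_lit 20124520) (nat_lit 12963851) (nat_lit 2846017) (nat_lit 1) .nil)), (nat_lit 46),
 (nat_lit 22), (nat_lit 20), (nat_lit 1), (57, 52, 64), [2332789, 1083677], 38⟩,
  mz,
  ⟨⟨9, 56, -64, -56, -25, -12, 38, -16, -73⟩, (.cons (nat_lit 2076251) (nat_lit 2592940) (nat_lit 1203062)
 (nat_lit 1) (.cons (nat_lit 13624382) (nat_lit 3901849) (nat_lit 14862921) (nat_lit 1) .nil)), (nat_lit 19),
 (nat_lit 16), (nat_lit 18), (nat_lit 1), (56, 46, 55), [594151, 24020974], 17⟩,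
  ⟨⟨-61, -48, 25, -44, 55, 32, -22, -8, -55⟩, (.cons (nat_lit 655702) (nat_lit 2793290) (nat_lit 3141695)
 (nat_lit 1) (.cons (nat_lit 6271889) (nat_lit 7686182) (nat_lit 16540640) (nat_lit 1) .nil)), (nat_lit 22),
 (nat_lit 9), (nat_lit 17), (nat_lit 1), (9, 3, 37), [2939407, 22761599], 5⟩,
  mz,
  mz,
  ⟨⟨17, -24, 72, 36, -55, -48, 54, 24, -1⟩, (.cons (nat_lit 234685) (nat_lit 3772150) (nat_lit 19669) (nat_lit
 1) (.cons (nat_lit 8656205) (nat_lit 4264002) (nat_lit 8449541) (nat_lit 1) .nil)), (nat_lit 4), (nat_lit 28),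
 (nat_lit 15), (nat_lit 1), (28, 5, 43), [4056834, 8136690], 27⟩,
  ⟨⟨-61, 48, 25, 44, 55, -32, -22, 8, -55⟩, (.cons (nat_lit 2425372) (nat_lit 2655060) (nat_lit 2199620)
 (nat_lit 1) (.cons (nat_lit 3652723) (nat_lit 12157983) (nat_lit 4018629) (nat_lit 1) .nil)), (nat_lit 15),
 (nat_lit 41), (nat_lit 20), (nat_lit 1), (13, 43, 14), [617283, 9765772], 44⟩,
  ⟨⟨-39, 40, -41, 44, 55, -12, 22, -8, -77⟩, (.cons (nat_lit 4787888) (nat_lit 436379) (nat_lit 3125596)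
 (nat_lit 1) (.cons (nat_lit 14495468) (nat_lit 9396165) (nat_lit 2244716) (nat_lit 1) .nil)), (nat_lit 22),
 (nat_lit 38), (nat_lit 30), (nat_lit 1), (2, 56, 28), [2212058, 13223009], 5⟩,
  mz,
  ⟨⟨9, 16, -89, -10, 69, 20, 60, 12, -49⟩, (.cons (nat_lit 1490927) (nat_lit 3618298) (nat_lit 2587847)
 (nat_lit 1) (.cons (nat_lit 19960156) (nat_lit 25219661) (nat_lit 13239166) (nat_lit 1) .nil)), (nat_lit 1),
 (nat_lit 10), (nat_lit 22), (nat_lit 1), (44, 30, 33), [4792811, 20048236], 8⟩,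
  mz,
  mz,
  ⟨⟨-13, -72, 36, 70, -11, -30, -4, -44, -49⟩, (.cons (nat_lit 4216353) (nat_lit 1277741) (nat_lit 649110)
 (nat_lit 1) (.cons (nat_lit 15855782) (nat_lit 18995683) (nat_lit 1) (nat_lit 2553941) .nil)), (nat_lit 23),
 (nat_lit 29), (nat_lit 38), (nat_lit 1), (29, 35, 69), [4372631, 20693009], 46⟩,
  mz,
  ⟨⟨-11, 72, -25, 50, -11, -80, -44, 4, -29⟩, (.cons (nat_lit 375082) (nat_lit 3619643) (nat_lit 3152750)
 (nat_lit 1) (.cons (nat_lit 12407002) (nat_lit 24376873) (nat_lit 14098317) (nat_lit 1) .nil)), (nat_lit 2),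
 (nat_lit 11), (nat_lit 18), (nat_lit 1), (44, 13, 34), [2963706, 14269590], 43⟩,
  mz,
  ⟨⟨-29, -72, 20, 56, -25, -68, -38, -16, -35⟩, (.cons (nat_lit 7657) (nat_lit 1415524) (nat_lit 3372996)
 (nat_lit 1) (.cons (nat_lit 16218424) (nat_lit 14318191) (nat_lit 18958389) (nat_lit 1) .nil)), (nat_lit 19),
 (nat_lit 31), (nat_lit 29), (nat_lit 1), (27, 36, 6), [2070982, 5865947], 17⟩,
  ⟨⟨75, 20, -32, -10, 21, 80, 12, 60, -25⟩, (.cons (nat_lit 4826808) (nat_lit 4130763) (nat_lit 1123700)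
 (nat_lit 1) (.cons (nat_lit 15359465) (nat_lit 9745398) (nat_lit 19884213) (nat_lit 1) .nil)), (nat_lit 46),
 (nat_lit 19), (nat_lit 21), (nat_lit 1), (30, 67, 19), [3514062, 10903580], 12⟩,
  mz,
  ⟨⟨23, 72, 9, -64, 25, 12, 26, 32, -67⟩, (.cons (nat_lit 2494723) (nat_lit 3307919) (nat_lit 2533637) (nat_lit
 1) (.cons (nat_lit 5300019) (nat_lit 1340226) (nat_lit 1506309) (nat_lit 1) .nil)), (nat_lit 43), (nat_lit
 13), (nat_lit 40), (nat_lit 1), (66, 17, 53), [1266175, 9012132], 27⟩,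
  mz,
  ⟨⟨17, -24, -89, 36, -55, 12, 54, 24, -53⟩, (.cons (nat_lit 4317708) (nat_lit 1220870) (nat_lit 1) (nat_lit
 2252042) (.cons (nat_lit 12534630) (nat_lit 900075) (nat_lit 21681832) (nat_lit 1) .nil)), (nat_lit 1),
 (nat_lit 41), (nat_lit 42), (nat_lit 1), (5, 44, 66), [4461281, 6215286], 38⟩,
  ⟨⟨-23, -72, 32, 64, -25, -52, -26, -32, -41⟩, (.cons (nat_lit 4538721) (nat_lit 2764689) (nat_lit 3532020)
 (nat_lit 1) (.cons (nat_lit 11744953) (nat_lit 12433497) (nat_lit 9872230) (nat_lit 1) .nil)), (nat_lit 5),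
 (nat_lit 14), (nat_lit 4), (nat_lit 1), (21, 28, 33), [4650387, 8080566], 2⟩,
  mz,
  mz,
  ⟨⟨-65, 24, -7, -4, 55, 52, 10, 40, -59⟩, (.cons (nat_lit 1804534) (nat_lit 3810164) (nat_lit 1156754)
 (nat_lit 1) (.cons (nat_lit 17346011) (nat_lit 5792644) (nat_lit 4291906) (nat_lit 1) .nil)), (nat_lit 1),
 (nat_lit 0), (nat_lit 10), (nat_lit 1), (43, 66, 48), [3097765, 1089535], 24⟩,
  ⟨⟨11, -72, -36, -50, 11, -30, 44, -4, -73⟩, (.cons (nat_lit 2034178) (nat_lit 2710476) (nat_lit 1031644)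
 (nat_lit 1) (.cons (nat_lit 11361759) (nat_lit 10080610) (nat_lit 23614597) (nat_lit 1) .nil)), (nat_lit 9),
 (nat_lit 21), (nat_lit 35), (nat_lit 1), (69, 22, 63), [1073288, 6446590], 13⟩,
  ⟨⟨61, 48, -36, 44, -55, -12, 22, 8, -77⟩, (.cons (nat_lit 4826808) (nat_lit 928313) (nat_lit 3226095)
 (nat_lit 1) (.cons (nat_lit 12815531) (nat_lit 8499939) (nat_lit 15307257) (nat_lit 1) .nil)), (nat_lit 46),
 (nat_lit 40), (nat_lit 26), (nat_lit 1), (30, 10, 5), [592569, 16533204], 20⟩,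
  mz,
  ⟨⟨51, 52, -56, 44, -15, 38, 42, -24, -67⟩, (.cons (nat_lit 1855393) (nat_lit 4691312) (nat_lit 2380898)
 (nat_lit 1) (.cons (nat_lit 21917181) (nat_lit 6843152) (nat_lit 14696249) (nat_lit 1) .nil)), (nat_lit 10),
 (nat_lit 33), (nat_lit 32), (nat_lit 1), (52, 56, 47), [1264591, 15025589], 41⟩,
  ⟨⟨9, -16, 80, -10, -69, -10, 60, -12, -11⟩, (.cons (nat_lit 4826808) (nat_lit 3863090) (nat_lit 4288588)
 (nat_lit 1) (.cons (nat_lit 13312123) (nat_lit 11384614) (nat_lit 7312001) (nat_lit 1) .nil)), (nat_lit 46),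
 (nat_lit 10), (nat_lit 25), (nat_lit 1), (33, 58, 7), [3835097, 506377], 39⟩,
  ⟨⟨51, 4, 40, 10, 69, -20, 60, -12, -49⟩, (.cons (nat_lit 4826808) (nat_lit 1244527) (nat_lit 1015223)
 (nat_lit 1) (.cons (nat_lit 16195517) (nat_lit 6927046) (nat_lit 23631449) (nat_lit 1) .nil)), (nat_lit 46),
 (nat_lit 16), (nat_lit 45), (nat_lit 1), (13, 29, 32), [3150713, 15405491], 8⟩,
  ⟨⟨9, -56, -64, -56, 25, -12, 38, 16, -73⟩, (.cons (nat_lit 3916456) (nat_lit 4339986) (nat_lit 373240)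
 (nat_lit 1) (.cons (nat_lit 23653989) (nat_lit 24861180) (nat_lit 21281576) (nat_lit 1) .nil)), (nat_lit 4),
 (nat_lit 35), (nat_lit 12), (nat_lit 1), (4, 54, 9), [2292478, 5232135], 27⟩,
  ⟨⟨65, 24, -72, -4, -55, -48, -10, 40, -49⟩, (.cons (nat_lit 2905324) (nat_lit 4189369) (nat_lit 3443009)
 (nat_lit 1) (.cons (nat_lit 19741089) (nat_lit 2187581) (nat_lit 17965284) (nat_lit 1) .nil)), (nat_lit 44),
 (nat_lit 5), (nat_lit 1), (nat_lit 0), (39, 26, 65), [4629971, 17288678], 21⟩,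
  ⟨⟨9, -76, -20, 44, 15, -82, -42, -24, -25⟩, (.cons (nat_lit 4242105) (nat_lit 644354) (nat_lit 3668304)
 (nat_lit 1) (.cons (nat_lit 23868292) (nat_lit 390859) (nat_lit 12737451) (nat_lit 1) .nil)), (nat_lit 45),
 (nat_lit 3), (nat_lit 41), (nat_lit 1), (1, 68, 19), [47409, 19420683], 39⟩,
  mz,
  ⟨⟨-9, 28, -76, 70, 11, -40, 4, -44, -53⟩, (.cons (nat_lit 3775961) (nat_lit 1310663) (nat_lit 4084979)
 (nat_lit 1) (.cons (nat_lit 23018024) (nat_lit 1574902) (nat_lit 19231458) (nat_lit 1) .nil)), (nat_lit 21),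
 (nat_lit 18), (nat_lit 30), (nat_lit 1), (34, 59, 48), [1098844, 10289507], 46⟩,
  ⟨⟨9, 16, 80, -10, 69, -10, 60, 12, -11⟩, (.cons (nat_lit 2794386) (nat_lit 2198428) (nat_lit 832037) (nat_lit
 1) (.cons (nat_lit 7016208) (nat_lit 2447189) (nat_lit 7473851) (nat_lit 1) .nil)), (nat_lit 30), (nat_lit
 15), (nat_lit 3), (nat_lit 1), (58, 46, 8), [3235105, 14008967], 31⟩,
  ⟨⟨-63, -40, 7, -10, -21, 80, 12, -60, -25⟩, (.cons (nat_lit 3269692) (nat_lit 1097322) (nat_lit 3325342)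
 (nat_lit 1) (.cons (nat_lit 2873988) (nat_lit 1451496) (nat_lit 4754636) (nat_lit 1) .nil)), (nat_lit 6),
 (nat_lit 9), (nat_lit 17), (nat_lit 1), (33, 12, 14), [4526711, 2523807], 3⟩,
  mz,
  ⟨⟨-33, 68, -4, -50, -11, 80, -44, -4, -29⟩, (.cons (nat_lit 4047483) (nat_lit 2888852) (nat_lit 388493)
 (nat_lit 1) (.cons (nat_lit 16678252) (nat_lit 2456643) (nat_lit 16898285) (nat_lit 1) .nil)), (nat_lit 23),
 (nat_lit 45), (nat_lit 13), (nat_lit 1), (43, 63, 10), [3354809, 6563783], 46⟩,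
  ⟨⟨-75, -20, 43, 10, -21, 70, -12, -60, -13⟩, (.cons (nat_lit 773240) (nat_lit 1540580) (nat_lit 3394048)
 (nat_lit 1) (.cons (nat_lit 11799607) (nat_lit 13948617) (nat_lit 23252280) (nat_lit 1) .nil)), (nat_lit 6),
 (nat_lit 38), (nat_lit 30), (nat_lit 1), (2, 66, 6), [4616565, 24896405], 3⟩,
  mz,
  mz,
  mz,
  ⟨⟨33, -68, -37, 50, 11, 30, 44, 4, -73⟩, (.cons (nat_lit 4749738) (nat_lit 3385926) (nat_lit 1641636)
 (nat_lit 1) (.cons (nat_lit 15723608) (nat_lit 21702876) (nat_lit 23244376) (nat_lit 1) .nil)), (nat_lit 26),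
 (nat_lit 9), (nat_lit 34), (nat_lit 1), (12, 44, 16), [1712697, 21402], 46⟩,
  mz,
  ⟨⟨9, -28, -85, -70, -11, 30, -4, 44, -49⟩, (.cons (nat_lit 221813) (nat_lit 4695532) (nat_lit 2016519)
 (nat_lit 1) (.cons (nat_lit 6068427) (nat_lit 16390685) (nat_lit 21261874) (nat_lit 1) .nil)), (nat_lit 2),
 (nat_lit 43), (nat_lit 21), (nat_lit 1), (14, 41, 49), [3555818, 9467572], 43⟩,
  ⟨⟨75, -16, -52, 4, 55, -52, 10, -40, -59⟩, (.cons (nat_lit 4826808) (nat_lit 1255750) (nat_lit 4141536)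
 (nat_lit 1) (.cons (nat_lit 11266956) (nat_lit 24683539) (nat_lit 24803122) (nat_lit 1) .nil)), (nat_lit 46),
 (nat_lit 3), (nat_lit 0), (nat_lit 1), (51, 51, 21), [2043012, 2618825], 24⟩,
  mz,
  ⟨⟨33, 20, -92, 64, -15, -2, 6, -48, -49⟩, (.cons (nat_lit 1812727) (nat_lit 2834598) (nat_lit 2855107)
 (nat_lit 1) (.cons (nat_lit 2157815) (nat_lit 4824277) (nat_lit 22079549) (nat_lit 1) .nil)), (nat_lit 10),
 (nat_lit 28), (nat_lit 31), (nat_lit 1), (45, 55, 34), [3897299, 5465951], 41⟩,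
  ⟨⟨13, 72, 23, -70, 11, 40, 4, 44, -53⟩, (.cons (nat_lit 2008420) (nat_lit 4206146) (nat_lit 2116600) (nat_lit
 1) (.cons (nat_lit 21177378) (nat_lit 10662998) (nat_lit 22641869) (nat_lit 1) .nil)), (nat_lit 38), (nat_lit
 34), (nat_lit 24), (nat_lit 1), (20, 7, 28), [4477794, 1955048], 13⟩,
  ⟨⟨-23, 72, 32, -64, -25, 52, -26, 32, -41⟩, (.cons (nat_lit 4469205) (nat_lit 3771928) (nat_lit 362828)
 (nat_lit 1) (.cons (nat_lit 1127756) (nat_lit 5350195) (nat_lit 21410883) (nat_lit 1) .nil)), (nat_lit 19),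
 (nat_lit 43), (nat_lit 22), (nat_lit 1), (27, 35, 12), [3282127, 21496726], 17⟩,
  ⟨⟨37, -48, -73, -36, -55, 48, 54, -24, -1⟩, (.cons (nat_lit 3890295) (nat_lit 1081594) (nat_lit 136801)
 (nat_lit 1) (.cons (nat_lit 5723611) (nat_lit 13948938) (nat_lit 12221839) (nat_lit 1) .nil)), (nat_lit 35),
 (nat_lit 7), (nat_lit 8), (nat_lit 1), (11, 20, 41), [1063357, 11945700], 34⟩]

/-- Moves. -/
noncomputable def t1_5 : List Mv := [
  mz,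
  ⟨⟨-75, 20, 43, -10, -21, -70, -12, 60, -13⟩, (.cons (nat_lit 4682214) (nat_lit 409142) (nat_lit 421146)
 (nat_lit 1) (.cons (nat_lit 9958158) (nat_lit 14218708) (nat_lit 17738934) (nat_lit 1) .nil)), (nat_lit 8),
 (nat_lit 22), (nat_lit 5), (nat_lit 1), (51, 21, 11), [706233, 5763012], 4⟩,
  mz,
  ⟨⟨65, -24, -72, -4, 55, -48, -10, -40, -49⟩, (.cons (nat_lit 4826808) (nat_lit 2255262) (nat_lit 1189622)
 (nat_lit 1) (.cons (nat_lit 19071543) (nat_lit 14234576) (nat_lit 14827765) (nat_lit 1) .nil)), (nat_lit 46),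
 (nat_lit 44), (nat_lit 0), (nat_lit 1), (37, 1, 38), [3295568, 22101516], 24⟩,
  ⟨⟨-33, -20, -59, 64, -15, -62, -6, 48, -43⟩, (.cons (nat_lit 4004144) (nat_lit 1879830) (nat_lit 2621576)
 (nat_lit 1) (.cons (nat_lit 13395830) (nat_lit 9405980) (nat_lit 22751369) (nat_lit 1) .nil)), (nat_lit 14),
 (nat_lit 8), (nat_lit 25), (nat_lit 1), (45, 16, 34), [1734241, 2007429], 46⟩,
  ⟨⟨-33, 20, -59, 64, 15, -62, -6, -48, -43⟩, (.cons (nat_lit 1434515) (nat_lit 3173830) (nat_lit 717985)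
 (nat_lit 1) (.cons (nat_lit 24180357) (nat_lit 8731198) (nat_lit 13633983) (nat_lit 1) .nil)), (nat_lit 24),
 (nat_lit 25), (nat_lit 3), (nat_lit 1), (23, 35, 30), [2615846, 13311542], 45⟩,
  mz,
  ⟨⟨-29, 72, 20, 56, 25, -68, -38, 16, -35⟩, (.cons (nat_lit 1261743) (nat_lit 2955769) (nat_lit 3455137)
 (nat_lit 1) (.cons (nat_lit 10822884) (nat_lit 1507447) (nat_lit 12237693) (nat_lit 1) .nil)), (nat_lit 4),
 (nat_lit 12), (nat_lit 35), (nat_lit 1), (33, 44, 31), [1624950, 23280106], 27⟩,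
  ⟨⟨3, 40, -76, 64, 25, -12, 26, -32, -67⟩, (.cons (nat_lit 4775310) (nat_lit 899107) (nat_lit 613387) (nat_lit
 1) (.cons (nat_lit 17133532) (nat_lit 17207597) (nat_lit 20508952) (nat_lit 1) .nil)), (nat_lit 12), (nat_lit
 44), (nat_lit 3), (nat_lit 1), (14, 62, 3), [4404277, 13037207], 34⟩,
  mz,
  mz,
  ⟨⟨33, -20, -92, 64, 15, -2, 6, 48, -49⟩, (.cons (nat_lit 285331) (nat_lit 605870) (nat_lit 2836271) (nat_lit
 1) (.cons (nat_lit 18710210) (nat_lit 6171651) (nat_lit 15890191) (nat_lit 1) .nil)), (nat_lit 45), (nat_lit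
 17), (nat_lit 10), (nat_lit 1), (67, 3, 38), [3834877, 11384974], 39⟩,
  ⟨⟨9, 76, -20, 44, -15, -82, -42, 24, -25⟩, (.cons (nat_lit 521744) (nat_lit 4605497) (nat_lit 366545)
 (nat_lit 1) (.cons (nat_lit 8602149) (nat_lit 22875120) (nat_lit 14551059) (nat_lit 1) .nil)), (nat_lit 33),
 (nat_lit 16), (nat_lit 11), (nat_lit 1), (31, 49, 21), [370369, 3891540], 46⟩,
  mz,
  mz,
  ⟨⟨51, -52, -56, -44, -15, -38, 42, 24, -67⟩, (.cons (nat_lit 2685704) (nat_lit 1570083) (nat_lit 4732535)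
 (nat_lit 1) (.cons (nat_lit 22459808) (nat_lit 20579095) (nat_lit 7179908) (nat_lit 1) .nil)), (nat_lit 33),
 (nat_lit 31), (nat_lit 36), (nat_lit 1), (24, 67, 49), [4691067, 4105919], 46⟩,
  ⟨⟨17, 24, -89, -36, -55, -12, 54, -24, -53⟩, (.cons (nat_lit 4110442) (nat_lit 2375369) (nat_lit 1) (nat_lit
 1438034) (.cons (nat_lit 4333107) (nat_lit 13499443) (nat_lit 3248065) (nat_lit 1) .nil)), (nat_lit 1),
 (nat_lit 25), (nat_lit 20), (nat_lit 1), (7, 52, 64), [1363663, 21602980], 38⟩,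
  mz,
  ⟨⟨9, 56, -64, -56, -25, -12, 38, -16, -73⟩, (.cons (nat_lit 2076251) (nat_lit 2592940) (nat_lit 1203062)
 (nat_lit 1) (.cons (nat_lit 13624382) (nat_lit 3901849) (nat_lit 14862921) (nat_lit 1) .nil)), (nat_lit 19),
 (nat_lit 16), (nat_lit 18), (nat_lit 1), (56, 46, 55), [594151, 24020974], 17⟩,
  ⟨⟨-61, -48, 25, -44, 55, 32, -22, -8, -55⟩, (.cons (nat_lit 655702) (nat_lit 2793290) (nat_lit 3141695)
 (nat_lit 1) (.cons (nat_lit 6271889) (nat_lit 7686182) (nat_lit 16540640) (nat_lit 1) .nil)), (nat_lit 22),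
 (nat_lit 9), (nat_lit 17), (nat_lit 1), (9, 3, 37), [2939407, 22761599], 5⟩,
  mz,
  mz,
  ⟨⟨37, 48, -73, -36, 55, 48, 54, 24, -1⟩, (.cons (nat_lit 565045) (nat_lit 1052881) (nat_lit 2170136) (nat_lit
 1) (.cons (nat_lit 1983276) (nat_lit 1040204) (nat_lit 20575771) (nat_lit 1) .nil)), (nat_lit 1), (nat_lit
 22), (nat_lit 27), (nat_lit 1), (15, 66, 43), [3740379, 16419923], 9⟩,
  ⟨⟨-61, 48, 25, 44, 55, -32, -22, 8, -55⟩, (.cons (nat_lit 2425372) (nat_lit 2655060) (nat_lit 2199620)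
 (nat_lit 1) (.cons (nat_lit 3652723) (nat_lit 12157983) (nat_lit 4018629) (nat_lit 1) .nil)), (nat_lit 15),
 (nat_lit 41), (nat_lit 20), (nat_lit 1), (13, 43, 14), [617283, 9765772], 44⟩,
  ⟨⟨-39, 40, -41, 44, 55, -12, 22, -8, -77⟩, (.cons (nat_lit 4787888) (nat_lit 436379) (nat_lit 3125596)
 (nat_lit 1) (.cons (nat_lit 14495468) (nat_lit 9396165) (nat_lit 2244716) (nat_lit 1) .nil)), (nat_lit 22),
 (nat_lit 38), (nat_lit 30), (nat_lit 1), (2, 56, 28), [2212058, 13223009], 5⟩,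
  mz,
  ⟨⟨51, -4, 40, -10, 69, 20, 60, 12, -49⟩, (.cons (nat_lit 4826808) (nat_lit 3911543) (nat_lit 889094) (nat_lit
 1) (.cons (nat_lit 8161405) (nat_lit 5738787) (nat_lit 1) (nat_lit 2748339) .nil)), (nat_lit 46), (nat_lit
 37), (nat_lit 22), (nat_lit 1), (60, 30, 33), [4747371, 4432529], 8⟩,
  mz,
  mz,
  ⟨⟨-13, -72, 36, 70, -11, -30, -4, -44, -49⟩, (.cons (nat_lit 4216353) (nat_lit 1277741) (nat_lit 649110)
 (nat_lit 1) (.cons (nat_lit 15855782) (nat_lit 18995683) (nat_lit 1) (nat_lit 2553941) .nil)), (nat_lit 23),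
 (nat_lit 29), (nat_lit 38), (nat_lit 1), (29, 35, 69), [4372631, 20693009], 46⟩,
  mz,
  ⟨⟨-33, -68, -4, 50, -11, -80, -44, 4, -29⟩, (.cons (nat_lit 2150501) (nat_lit 2813265) (nat_lit 3619754)
 (nat_lit 1) (.cons (nat_lit 14749038) (nat_lit 1995709) (nat_lit 21234913) (nat_lit 1) .nil)), (nat_lit 45),
 (nat_lit 36), (nat_lit 18), (nat_lit 1), (61, 13, 34), [984751, 13010794], 43⟩,
  mz,
  ⟨⟨-29, -72, 20, 56, -25, -68, -38, -16, -35⟩, (.cons (nat_lit 7657) (nat_lit 1415524) (nat_lit 3372996)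
 (nat_lit 1) (.cons (nat_lit 16218424) (nat_lit 14318191) (nat_lit 18958389) (nat_lit 1) .nil)), (nat_lit 19),
 (nat_lit 31), (nat_lit 29), (nat_lit 1), (27, 36, 6), [2070982, 5865947], 17⟩,
  ⟨⟨75, 20, -32, 10, -21, -80, 12, 60, -25⟩, (.cons (nat_lit 53098) (nat_lit 1379667) (nat_lit 132568) (nat_lit
 1) (.cons (nat_lit 10392680) (nat_lit 18212453) (nat_lit 8524758) (nat_lit 1) .nil)), (nat_lit 39), (nat_lit
 22), (nat_lit 42), (nat_lit 1), (30, 4, 19), [3430467, 12331447], 4⟩,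
  mz,
  ⟨⟨23, 72, 9, 64, -25, -12, 26, 32, -67⟩, (.cons (nat_lit 679650) (nat_lit 4697819) (nat_lit 831448) (nat_lit
 1) (.cons (nat_lit 4368812) (nat_lit 6388092) (nat_lit 4348064) (nat_lit 1) .nil)), (nat_lit 28), (nat_lit
 43), (nat_lit 25), (nat_lit 1), (66, 54, 53), [3163232, 2845078], 17⟩,
  mz,
  ⟨⟨17, -24, -89, -36, 55, -12, 54, 24, -53⟩, (.cons (nat_lit 4606201) (nat_lit 1208013) (nat_lit 2018306)
 (nat_lit 1) (.cons (nat_lit 4460429) (nat_lit 21182247) (nat_lit 18504917) (nat_lit 1) .nil)), (nat_lit 35),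
 (nat_lit 40), (nat_lit 39), (nat_lit 1), (5, 27, 66), [1560235, 20333912], 13⟩,
  ⟨⟨-23, -72, 32, 64, -25, -52, -26, -32, -41⟩, (.cons (nat_lit 4538721) (nat_lit 2764689) (nat_lit 3532020)
 (nat_lit 1) (.cons (nat_lit 11744953) (nat_lit 12433497) (nat_lit 9872230) (nat_lit 1) .nil)), (nat_lit 5),
 (nat_lit 14), (nat_lit 4), (nat_lit 1), (21, 28, 33), [4650387, 8080566], 2⟩,
  mz,
  mz,
  ⟨⟨75, 16, -52, 4, -55, -52, 10, 40, -59⟩, (.cons (nat_lit 2751755) (nat_lit 3768563) (nat_lit 4768057)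
 (nat_lit 1) (.cons (nat_lit 14668271) (nat_lit 20528607) (nat_lit 9658954) (nat_lit 1) .nil)), (nat_lit 3),
 (nat_lit 5), (nat_lit 1), (nat_lit 0), (5, 5, 48), [1574763, 469455], 21⟩,
  ⟨⟨33, 68, -37, -50, 11, -30, 44, -4, -73⟩, (.cons (nat_lit 2014610) (nat_lit 4061899) (nat_lit 4486774)
 (nat_lit 1) (.cons (nat_lit 20879688) (nat_lit 1409577) (nat_lit 1706311) (nat_lit 1) .nil)), (nat_lit 38),
 (nat_lit 26), (nat_lit 35), (nat_lit 1), (65, 22, 63), [4163727, 16489152], 13⟩,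
  ⟨⟨-39, -40, -41, -44, 55, 12, 22, 8, -77⟩, (.cons (nat_lit 2253061) (nat_lit 1461196) (nat_lit 2864352)
 (nat_lit 1) (.cons (nat_lit 3914650) (nat_lit 11224922) (nat_lit 14987655) (nat_lit 1) .nil)), (nat_lit 15),
 (nat_lit 6), (nat_lit 27), (nat_lit 1), (46, 61, 5), [3357403, 9764011], 44⟩,
  mz,
  ⟨⟨-9, -76, -11, -44, 15, -38, 42, -24, -67⟩, (.cons (nat_lit 471991) (nat_lit 2366671) (nat_lit 4824440)
 (nat_lit 1) (.cons (nat_lit 22517634) (nat_lit 9532521) (nat_lit 18463696) (nat_lit 1) .nil)), (nat_lit 2),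
 (nat_lit 3), (nat_lit 6), (nat_lit 1), (66, 15, 47), [4480997, 24428426], 39⟩,
  ⟨⟨9, -16, 80, -10, -69, -10, 60, -12, -11⟩, (.cons (nat_lit 4826808) (nat_lit 3863090) (nat_lit 4288588)
 (nat_lit 1) (.cons (nat_lit 13312123) (nat_lit 11384614) (nat_lit 7312001) (nat_lit 1) .nil)), (nat_lit 46),
 (nat_lit 10), (nat_lit 25), (nat_lit 1), (33, 58, 7), [3835097, 506377], 39⟩,
  ⟨⟨51, 4, 40, 10, 69, -20, 60, -12, -49⟩, (.cons (nat_lit 4826808) (nat_lit 1244527) (nat_lit 1015223)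
 (nat_lit 1) (.cons (nat_lit 16195517) (nat_lit 6927046) (nat_lit 23631449) (nat_lit 1) .nil)), (nat_lit 46),
 (nat_lit 16), (nat_lit 45), (nat_lit 1), (13, 29, 32), [3150713, 15405491], 8⟩,
  ⟨⟨9, -56, -64, 56, -25, 12, 38, 16, -73⟩, (.cons (nat_lit 480422) (nat_lit 2055636) (nat_lit 1) (nat_lit
 4610658) (.cons (nat_lit 119131) (nat_lit 18170114) (nat_lit 19640130) (nat_lit 1) .nil)), (nat_lit 5),
 (nat_lit 20), (nat_lit 31), (nat_lit 1), (4, 17, 9), [1062738, 23990328], 2⟩,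
  ⟨⟨-75, 16, 23, 4, 55, 48, -10, 40, -49⟩, (.cons (nat_lit 1814303) (nat_lit 4589411) (nat_lit 3954356)
 (nat_lit 1) (.cons (nat_lit 4039374) (nat_lit 13313178) (nat_lit 1) (nat_lit 25319097) .nil)), (nat_lit 1),
 (nat_lit 0), (nat_lit 37), (nat_lit 1), (26, 45, 65), [1958522, 14405364], 24⟩,
  ⟨⟨-51, 52, -5, -44, -15, 82, -42, -24, -25⟩, (.cons (nat_lit 3152163) (nat_lit 133571) (nat_lit 2116573)
 (nat_lit 1) (.cons (nat_lit 13564630) (nat_lit 19448600) (nat_lit 22963976) (nat_lit 1) .nil)), (nat_lit 37),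
 (nat_lit 33), (nat_lit 15), (nat_lit 1), (18, 3, 19), [1258740, 15340100], 41⟩,
  mz,
  ⟨⟨-9, 28, -76, -70, -11, 40, 4, -44, -53⟩, (.cons (nat_lit 872385) (nat_lit 3597542) (nat_lit 24735) (nat_lit
 1) (.cons (nat_lit 2658701) (nat_lit 9136079) (nat_lit 10225428) (nat_lit 1) .nil)), (nat_lit 23), (nat_lit
 18), (nat_lit 9), (nat_lit 1), (34, 12, 48), [4655700, 13201517], 46⟩,
  ⟨⟨9, 16, 80, 10, -69, 10, 60, 12, -11⟩, (.cons (nat_lit 4826808) (nat_lit 4283129) (nat_lit 1725005) (nat_lit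
 1) (.cons (nat_lit 4557118) (nat_lit 14637901) (nat_lit 1) (nat_lit 23915853) .nil)), (nat_lit 46), (nat_lit
 31), (nat_lit 2), (nat_lit 1), (58, 25, 8), [2138404, 4086645], 39⟩,
  ⟨⟨-63, -40, 7, 10, 21, -80, 12, -60, -25⟩, (.cons (nat_lit 4581402) (nat_lit 4467665) (nat_lit 1279100)
 (nat_lit 1) (.cons (nat_lit 18324066) (nat_lit 11794227) (nat_lit 9240593) (nat_lit 1) .nil)), (nat_lit 1),
 (nat_lit 36), (nat_lit 32), (nat_lit 1), (33, 59, 14), [2823500, 9751936], 12⟩,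
  mz,
  ⟨⟨-11, -72, -25, -50, -11, 80, -44, -4, -29⟩, (.cons (nat_lit 3254097) (nat_lit 1014942) (nat_lit 1870977)
 (nat_lit 1) (.cons (nat_lit 19307294) (nat_lit 17388099) (nat_lit 2725703) (nat_lit 1) .nil)), (nat_lit 24),
 (nat_lit 2), (nat_lit 13), (nat_lit 1), (38, 63, 10), [54143, 18286496], 46⟩,
  ⟨⟨-75, -20, 43, -10, 21, -70, -12, -60, -13⟩, (.cons (nat_lit 1949157) (nat_lit 759147) (nat_lit 800025)
 (nat_lit 1) (.cons (nat_lit 10341591) (nat_lit 3383064) (nat_lit 24842300) (nat_lit 1) .nil)), (nat_lit 1),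
 (nat_lit 11), (nat_lit 15), (nat_lit 1), (2, 5, 6), [2879386, 6461813], 12⟩,
  mz,
  mz,
  mz,
  ⟨⟨11, 72, -36, -50, -11, -30, 44, 4, -73⟩, (.cons (nat_lit 1126898) (nat_lit 1615372) (nat_lit 2835934)
 (nat_lit 1) (.cons (nat_lit 6435578) (nat_lit 6376974) (nat_lit 4168498) (nat_lit 1) .nil)), (nat_lit 45),
 (nat_lit 11), (nat_lit 29), (nat_lit 1), (4, 27, 16), [1098673, 25197485], 43⟩,
  mz,
  ⟨⟨-13, 72, 36, 70, 11, -30, -4, 44, -49⟩, (.cons (nat_lit 2147056) (nat_lit 4196295) (nat_lit 3082848)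
 (nat_lit 1) (.cons (nat_lit 10591511) (nat_lit 23391675) (nat_lit 21523246) (nat_lit 1) .nil)), (nat_lit 9),
 (nat_lit 34), (nat_lit 23), (nat_lit 1), (35, 30, 49), [2611685, 22922958], 13⟩,
  ⟨⟨75, -16, -52, -4, -55, 52, 10, -40, -59⟩, (.cons (nat_lit 1951727) (nat_lit 1239315) (nat_lit 2190100)
 (nat_lit 1) (.cons (nat_lit 13486898) (nat_lit 17457890) (nat_lit 11624604) (nat_lit 1) .nil)), (nat_lit 0),
 (nat_lit 14), (nat_lit 31), (nat_lit 1), (51, 20, 21), [886801, 19780911], 18⟩,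
  mz,
  ⟨⟨-27, -68, 43, -64, 15, 2, 6, -48, -49⟩, (.cons (nat_lit 2709859) (nat_lit 2621248) (nat_lit 1) (nat_lit
 1903213) (.cons (nat_lit 21537337) (nat_lit 5614637) (nat_lit 4996779) (nat_lit 1) .nil)), (nat_lit 24),
 (nat_lit 22), (nat_lit 44), (nat_lit 1), (60, 16, 34), [1203764, 1575777], 45⟩,
  ⟨⟨13, 72, 23, 70, -11, -40, 4, 44, -53⟩, (.cons (nat_lit 1180913) (nat_lit 127950) (nat_lit 1870977) (nat_lit
 1) (.cons (nat_lit 8221869) (nat_lit 18203907) (nat_lit 7691922) (nat_lit 1) .nil)), (nat_lit 2), (nat_lit 4),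
 (nat_lit 26), (nat_lit 1), (20, 64, 28), [1771008, 13541919], 43⟩,
  ⟨⟨-23, 72, 32, 64, 25, -52, -26, 32, -41⟩, (.cons (nat_lit 2971529) (nat_lit 3673796) (nat_lit 826714)
 (nat_lit 1) (.cons (nat_lit 9047709) (nat_lit 17368815) (nat_lit 11049736) (nat_lit 1) .nil)), (nat_lit 4),
 (nat_lit 13), (nat_lit 7), (nat_lit 1), (27, 36, 12), [4515656, 20008534], 27⟩,
  ⟨⟨17, 24, 72, 36, 55, -48, 54, -24, -1⟩, (.cons (nat_lit 4826808) (nat_lit 2591751) (nat_lit 1795143)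
 (nat_lit 1) (.cons (nat_lit 18432159) (nat_lit 4681861) (nat_lit 11154038) (nat_lit 1) .nil)), (nat_lit 46),
 (nat_lit 41), (nat_lit 5), (nat_lit 1), (30, 51, 41), [1625750, 22737215], 9⟩]

/-- Moves. -/
noncomputable def t4_2 : List Mv := [
  mz,
  ⟨⟨-25, 12, -36, 22, -35, -36, 20, 28, -37⟩, (.cons (nat_lit 4710101) (nat_lit 2359939) (nat_lit 2795432)
 (nat_lit 1) (.cons (nat_lit 20393278) (nat_lit 497273) (nat_lit 11900853) (nat_lit 1) .nil)), (nat_lit 2),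
 (nat_lit 0), (nat_lit 0), (nat_lit 0), (2, 2, 36), [322189, 8908829], 0⟩,
  ⟨⟨21, -32, -49, 2, 35, -36, -28, -20, -13⟩, (.cons (nat_lit 2888389) (nat_lit 3041161) (nat_lit 3819214)
 (nat_lit 1) (.cons (nat_lit 22849274) (nat_lit 21181525) (nat_lit 300485) (nat_lit 1) .nil)), (nat_lit 5),
 (nat_lit 0), (nat_lit 0), (nat_lit 0), (33, 30, 3), [4064763, 9639016], 0⟩,
  ⟨⟨-51, 4, 19, -2, -45, -14, -12, 12, -37⟩, (.cons (nat_lit 421574) (nat_lit 2109832) (nat_lit 1) (nat_lit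
 1853592) (.cons (nat_lit 17313497) (nat_lit 8612858) (nat_lit 21705365) (nat_lit 1) .nil)), (nat_lit 33),
 (nat_lit 0), (nat_lit 0), (nat_lit 0), (7, 27, 21), [1913251, 9620044], 0⟩,
  mz,
  ⟨⟨25, -12, -61, 22, -35, 14, -20, -28, -17⟩, (.cons (nat_lit 277376) (nat_lit 791946) (nat_lit 1129636)
 (nat_lit 1) (.cons (nat_lit 15055317) (nat_lit 11840029) (nat_lit 3358704) (nat_lit 1) .nil)), (nat_lit 21),
 (nat_lit 0), (nat_lit 0), (nat_lit 0), (9, 38, 21), [4798515, 17229544], 0⟩,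
  mz,
  mz,
  mz,
  ⟨⟨27, 32, -47, -40, 17, 0, 10, -16, -47⟩, (.cons (nat_lit 3798357) (nat_lit 3143530) (nat_lit 3885196)
 (nat_lit 1) (.cons (nat_lit 16602760) (nat_lit 17515517) (nat_lit 16633640) (nat_lit 1) .nil)), (nat_lit 38),
 (nat_lit 0), (nat_lit 0), (nat_lit 0), (43, 39, 2), [2082529, 6545871], 0⟩,
  mz,
  ⟨⟨-27, -32, -20, -40, 17, 40, -10, 16, -37⟩, (.cons (nat_lit 4826808) (nat_lit 1575426) (nat_lit 3004954)
 (nat_lit 1) (.cons (nat_lit 25411680) (nat_lit 18726960) (nat_lit 652766) (nat_lit 1) .nil)), (nat_lit 11),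
 (nat_lit 0), (nat_lit 0), (nat_lit 0), (46, 2, 24), [2461247, 20499286], 0⟩,
  ⟨⟨17, -36, -45, 20, -23, 30, 38, 8, -37⟩, (.cons (nat_lit 3836874) (nat_lit 989934) (nat_lit 3871735)
 (nat_lit 1) (.cons (nat_lit 9670146) (nat_lit 16112857) (nat_lit 25025580) (nat_lit 1) .nil)), (nat_lit 16),
 (nat_lit 0), (nat_lit 0), (nat_lit 0), (19, 3, 1), [4269529, 13278377], 0⟩,
  mz,
  ⟨⟨-51, -4, 19, -2, 45, -14, -12, -12, -37⟩, (.cons (nat_lit 2815217) (nat_lit 2000774) (nat_lit 33648)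
 (nat_lit 1) (.cons (nat_lit 8098581) (nat_lit 2607550) (nat_lit 13125975) (nat_lit 1) .nil)), (nat_lit 33),
 (nat_lit 0), (nat_lit 0), (nat_lit 0), (25, 36, 28), [3355418, 8048182], 0⟩,
  ⟨⟨9, 4, -61, 40, 23, -10, 22, -32, -29⟩, (.cons (nat_lit 2601503) (nat_lit 2283662) (nat_lit 1846642)
 (nat_lit 1) (.cons (nat_lit 12843795) (nat_lit 18825669) (nat_lit 23194170) (nat_lit 1) .nil)), (nat_lit 35),
 (nat_lit 0), (nat_lit 0), (nat_lit 0), (18, 33, 44), [3581196, 3626610], 0⟩,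
  ⟨⟨-13, 36, 45, 40, 23, -30, -22, 32, -7⟩, (.cons (nat_lit 3502361) (nat_lit 3719336) (nat_lit 1061825)
 (nat_lit 1) (.cons (nat_lit 16150347) (nat_lit 23790883) (nat_lit 24124891) (nat_lit 1) .nil)), (nat_lit 27),
 (nat_lit 0), (nat_lit 0), (nat_lit 0), (5, 28, 41), [4457289, 10525356], 0⟩,
  mz,
  ⟨⟨23, 0, 40, 0, -47, 0, 42, 0, -23⟩, (.cons (nat_lit 4826808) (nat_lit 270099) (nat_lit 1928358) (nat_lit 1)
 (.cons (nat_lit 25411680) (nat_lit 6191510) (nat_lit 15451546) (nat_lit 1) .nil)), (nat_lit 18), (nat_lit 0),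
 (nat_lit 0), (nat_lit 0), (7, 0, 23), [1926939, 4255968], 0⟩,
  ⟨⟨45, -8, -49, 20, 33, 20, 6, 24, -41⟩, (.cons (nat_lit 4123083) (nat_lit 4286192) (nat_lit 4495255) (nat_lit
 1) (.cons (nat_lit 2836173) (nat_lit 13655119) (nat_lit 10969351) (nat_lit 1) .nil)), (nat_lit 28), (nat_lit
 0), (nat_lit 0), (nat_lit 0), (29, 39, 7), [2760991, 16312994], 0⟩,
  ⟨⟨17, -36, 28, 20, -23, -50, 38, 8, -1⟩, (.cons (nat_lit 1093803) (nat_lit 2649213) (nat_lit 336515) (nat_lit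
 1) (.cons (nat_lit 7157508) (nat_lit 14216135) (nat_lit 20585919) (nat_lit 1) .nil)), (nat_lit 16), (nat_lit
 0), (nat_lit 0), (nat_lit 0), (2, 30, 10), [3235860, 19336481], 0⟩,
  ⟨⟨21, 32, -49, -2, 35, 36, -28, 20, -13⟩, (.cons (nat_lit 1733841) (nat_lit 4288265) (nat_lit 2065540)
 (nat_lit 1) (.cons (nat_lit 24394592) (nat_lit 715571) (nat_lit 14079468) (nat_lit 1) .nil)), (nat_lit 46),
 (nat_lit 0), (nat_lit 0), (nat_lit 0), (30, 24, 7), [3936097, 2980171], 0⟩,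
  ⟨⟨-39, -32, 8, -20, 33, -20, 6, -24, -41⟩, (.cons (nat_lit 4826808) (nat_lit 693035) (nat_lit 896607)
 (nat_lit 1) (.cons (nat_lit 25411680) (nat_lit 1149291) (nat_lit 8757204) (nat_lit 1) .nil)), (nat_lit 22),
 (nat_lit 0), (nat_lit 0), (nat_lit 0), (28, 24, 21), [2159815, 2170272], 0⟩,
  mz,
  mz,
  ⟨⟨-45, 8, -4, 20, 33, -40, -6, -24, -35⟩, (.cons (nat_lit 4826808) (nat_lit 855355) (nat_lit 2244489)
 (nat_lit 1) (.cons (nat_lit 25411680) (nat_lit 911733) (nat_lit 1809432) (nat_lit 1) .nil)), (nat_lit 25),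
 (nat_lit 0), (nat_lit 0), (nat_lit 0), (40, 24, 21), [2184954, 20496708], 0⟩,
  ⟨⟨-21, 32, -28, -2, -35, -34, 28, 20, -41⟩, (.cons (nat_lit 4332815) (nat_lit 2657607) (nat_lit 97098)
 (nat_lit 1) (.cons (nat_lit 9938173) (nat_lit 3738744) (nat_lit 8231442) (nat_lit 1) .nil)), (nat_lit 5),
 (nat_lit 0), (nat_lit 0), (nat_lit 0), (30, 23, 7), [455114, 23614704], 0⟩,
  ⟨⟨17, 36, -45, 20, 23, 30, 38, -8, -37⟩, (.cons (nat_lit 535088) (nat_lit 3344885) (nat_lit 3525408) (nat_lit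
 1) (.cons (nat_lit 2455998) (nat_lit 13052797) (nat_lit 4547174) (nat_lit 1) .nil)), (nat_lit 16), (nat_lit
 0), (nat_lit 0), (nat_lit 0), (45, 17, 37), [2910981, 23347357], 0⟩,
  ⟨⟨39, 32, -31, -20, 33, 40, -6, 24, -35⟩, (.cons (nat_lit 2164535) (nat_lit 1804989) (nat_lit 621652)
 (nat_lit 1) (.cons (nat_lit 5327759) (nat_lit 20033303) (nat_lit 4977882) (nat_lit 1) .nil)), (nat_lit 19),
 (nat_lit 0), (nat_lit 0), (nat_lit 0), (25, 39, 7), [3594120, 12597096], 0⟩,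
  ⟨⟨19, 0, 44, 0, -47, 0, 42, 0, -19⟩, (.cons (nat_lit 4826808) (nat_lit 2995105) (nat_lit 1323489) (nat_lit 1)
 (.cons (nat_lit 25411680) (nat_lit 16648238) (nat_lit 4770351) (nat_lit 1) .nil)), (nat_lit 29), (nat_lit 0),
 (nat_lit 0), (nat_lit 0), (31, 0, 24), [1186204, 24323291], 0⟩,
  mz,
  ⟨⟨9, -4, -61, 40, -23, -10, 22, 32, -29⟩, (.cons (nat_lit 3314437) (nat_lit 603868) (nat_lit 4738927)
 (nat_lit 1) (.cons (nat_lit 8579682) (nat_lit 22552395) (nat_lit 6312107) (nat_lit 1) .nil)), (nat_lit 35),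
 (nat_lit 0), (nat_lit 0), (nat_lit 0), (36, 19, 41), [3234027, 7921323], 0⟩,
  ⟨⟨-9, 4, -52, 40, -23, -30, -22, -32, -7⟩, (.cons (nat_lit 3900706) (nat_lit 773629) (nat_lit 3460140)
 (nat_lit 1) (.cons (nat_lit 25206289) (nat_lit 3941736) (nat_lit 14006506) (nat_lit 1) .nil)), (nat_lit 20),
 (nat_lit 0), (nat_lit 0), (nat_lit 0), (18, 14, 44), [1188894, 22719647], 0⟩,
  ⟨⟨-39, -8, -17, -2, -45, 16, 12, -12, -49⟩, (.cons (nat_lit 4736225) (nat_lit 3625088) (nat_lit 1460715)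
 (nat_lit 1) (.cons (nat_lit 23692189) (nat_lit 16034784) (nat_lit 14766518) (nat_lit 1) .nil)), (nat_lit 3),
 (nat_lit 0), (nat_lit 0), (nat_lit 0), (3, 11, 28), [4403002, 11341198], 0⟩,
  mz,
  ⟨⟨17, 36, 28, 20, 23, -50, 38, -8, -1⟩, (.cons (nat_lit 834087) (nat_lit 2545303) (nat_lit 1507028) (nat_lit
 1) (.cons (nat_lit 11132149) (nat_lit 809121) (nat_lit 4788225) (nat_lit 1) .nil)), (nat_lit 16), (nat_lit 0),
 (nat_lit 0), (nat_lit 0), (28, 44, 46), [2357584, 4282954], 0⟩,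
  ⟨⟨27, -32, -47, -40, -17, 0, 10, 16, -47⟩, (.cons (nat_lit 1110834) (nat_lit 789850) (nat_lit 4117045)
 (nat_lit 1) (.cons (nat_lit 3810016) (nat_lit 4732334) (nat_lit 16714654) (nat_lit 1) .nil)), (nat_lit 38),
 (nat_lit 0), (nat_lit 0), (nat_lit 0), (46, 45, 24), [723798, 4363627], 0⟩,
  mz,
  ⟨⟨17, -48, -17, -40, -17, 40, -10, -16, -37⟩, (.cons (nat_lit 2751714) (nat_lit 3214474) (nat_lit 636635)
 (nat_lit 1) (.cons (nat_lit 4505939) (nat_lit 19310861) (nat_lit 5052737) (nat_lit 1) .nil)), (nat_lit 36),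
 (nat_lit 0), (nat_lit 0), (nat_lit 0), (6, 8, 2), [3780846, 24429707], 0⟩,
  mz,
  mz,
  mz,
  ⟨⟨45, -16, -1, -22, -35, 36, 20, -28, -37⟩, (.cons (nat_lit 3834942) (nat_lit 1302680) (nat_lit 2312562)
 (nat_lit 1) (.cons (nat_lit 24163898) (nat_lit 22869327) (nat_lit 13996357) (nat_lit 1) .nil)), (nat_lit 26),
 (nat_lit 0), (nat_lit 0), (nat_lit 0), (12, 38, 21), [1576954, 21002071], 0⟩,
  mz,
  ⟨⟨-39, 8, -17, -2, 45, 16, 12, 12, -49⟩, (.cons (nat_lit 3103120) (nat_lit 2822410) (nat_lit 1006468)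
 (nat_lit 1) (.cons (nat_lit 4315215) (nat_lit 14517195) (nat_lit 10551511) (nat_lit 1) .nil)), (nat_lit 3),
 (nat_lit 0), (nat_lit 0), (nat_lit 0), (14, 20, 21), [4283250, 15483654], 0⟩,
  ⟨⟨-21, -32, -28, -2, 35, -34, 28, -20, -41⟩, (.cons (nat_lit 2996114) (nat_lit 1319486) (nat_lit 406217)
 (nat_lit 1) (.cons (nat_lit 17821616) (nat_lit 8716002) (nat_lit 6964336) (nat_lit 1) .nil)), (nat_lit 5),
 (nat_lit 0), (nat_lit 0), (nat_lit 0), (33, 30, 3), [10623, 12876001], 0⟩,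
  ⟨⟨-45, 16, 44, -22, -35, -14, -20, 28, -17⟩, (.cons (nat_lit 2190242) (nat_lit 24280) (nat_lit 2251299)
 (nat_lit 1) (.cons (nat_lit 15204575) (nat_lit 1632905) (nat_lit 6308819) (nat_lit 1) .nil)), (nat_lit 45),
 (nat_lit 0), (nat_lit 0), (nat_lit 0), (34, 2, 36), [2390969, 5048206], 0⟩]

/-- Moves. -/
noncomputable def t4_4 : List Mv := [
  mz,
  ⟨⟨45, 16, -1, 22, -35, -36, 20, 28, -37⟩, (.cons (nat_lit 2565815) (nat_lit 1268477) (nat_lit 496503)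
 (nat_lit 1) (.cons (nat_lit 52366) (nat_lit 17366483) (nat_lit 737260) (nat_lit 1) .nil)), (nat_lit 45),
 (nat_lit 0), (nat_lit 0), (nat_lit 0), (34, 2, 36), [796217, 4235577], 0⟩,
  ⟨⟨21, -32, -49, 2, 35, -36, -28, -20, -13⟩, (.cons (nat_lit 2888389) (nat_lit 3041161) (nat_lit 3819214)
 (nat_lit 1) (.cons (nat_lit 22849274) (nat_lit 21181525) (nat_lit 300485) (nat_lit 1) .nil)), (nat_lit 5),
 (nat_lit 0), (nat_lit 0), (nat_lit 0), (33, 30, 3), [4064763, 9639016], 0⟩,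
  ⟨⟨39, 8, -56, -2, -45, -14, -12, 12, -37⟩, (.cons (nat_lit 2490375) (nat_lit 32594) (nat_lit 3241747)
 (nat_lit 1) (.cons (nat_lit 3537950) (nat_lit 6084496) (nat_lit 17977867) (nat_lit 1) .nil)), (nat_lit 14),
 (nat_lit 0), (nat_lit 0), (nat_lit 0), (14, 27, 21), [2023967, 4763065], 0⟩,
  mz,
  ⟨⟨-45, -16, 44, -22, 35, -14, -20, -28, -17⟩, (.cons (nat_lit 1223999) (nat_lit 746886) (nat_lit 393307)
 (nat_lit 1) (.cons (nat_lit 10724729) (nat_lit 7498318) (nat_lit 6410600) (nat_lit 1) .nil)), (nat_lit 45),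
 (nat_lit 0), (nat_lit 0), (nat_lit 0), (12, 9, 21), [4236380, 22456770], 0⟩,
  mz,
  mz,
  mz,
  ⟨⟨27, 32, -47, -40, 17, 0, 10, -16, -47⟩, (.cons (nat_lit 3798357) (nat_lit 3143530) (nat_lit 3885196)
 (nat_lit 1) (.cons (nat_lit 16602760) (nat_lit 17515517) (nat_lit 16633640) (nat_lit 1) .nil)), (nat_lit 38),
 (nat_lit 0), (nat_lit 0), (nat_lit 0), (43, 39, 2), [2082529, 6545871], 0⟩,
  mz,
  ⟨⟨17, 48, -17, 40, -17, -40, -10, 16, -37⟩, (.cons (nat_lit 1229015) (nat_lit 4497677) (nat_lit 2795658)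
 (nat_lit 1) (.cons (nat_lit 23069405) (nat_lit 4284014) (nat_lit 1) (nat_lit 24918728) .nil)), (nat_lit 9),
 (nat_lit 0), (nat_lit 0), (nat_lit 0), (25, 45, 24), [2445626, 18398685], 0⟩,
  ⟨⟨17, -36, -45, -20, 23, -30, 38, 8, -37⟩, (.cons (nat_lit 4066446) (nat_lit 3070413) (nat_lit 4071953)
 (nat_lit 1) (.cons (nat_lit 18437001) (nat_lit 126253) (nat_lit 18806838) (nat_lit 1) .nil)), (nat_lit 32),
 (nat_lit 0), (nat_lit 0), (nat_lit 0), (19, 44, 1), [2340617, 10781387], 0⟩,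
  mz,
  ⟨⟨-51, -4, 19, -2, 45, -14, -12, -12, -37⟩, (.cons (nat_lit 2815217) (nat_lit 2000774) (nat_lit 33648)
 (nat_lit 1) (.cons (nat_lit 8098581) (nat_lit 2607550) (nat_lit 13125975) (nat_lit 1) .nil)), (nat_lit 33),
 (nat_lit 0), (nat_lit 0), (nat_lit 0), (25, 36, 28), [3355418, 8048182], 0⟩,
  ⟨⟨13, -36, 32, -40, -23, 10, 22, -32, -29⟩, (.cons (nat_lit 3886279) (nat_lit 1689991) (nat_lit 2938977)
 (nat_lit 1) (.cons (nat_lit 22710829) (nat_lit 4536305) (nat_lit 20942999) (nat_lit 1) .nil)), (nat_lit 27),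
 (nat_lit 0), (nat_lit 0), (nat_lit 0), (26, 14, 44), [4608154, 24562500], 0⟩,
  ⟨⟨-13, 36, 45, 40, 23, -30, -22, 32, -7⟩, (.cons (nat_lit 3502361) (nat_lit 3719336) (nat_lit 1061825)
 (nat_lit 1) (.cons (nat_lit 16150347) (nat_lit 23790883) (nat_lit 24124891) (nat_lit 1) .nil)), (nat_lit 27),
 (nat_lit 0), (nat_lit 0), (nat_lit 0), (5, 28, 41), [4457289, 10525356], 0⟩,
  mz,
  ⟨⟨19, 0, -63, 0, -47, 0, 42, 0, -23⟩, (.cons (nat_lit 1461673) (nat_lit 1121946) (nat_lit 3039753) (nat_lit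
 1) (.cons (nat_lit 20884626) (nat_lit 7169627) (nat_lit 9303306) (nat_lit 1) .nil)), (nat_lit 29), (nat_lit
 0), (nat_lit 0), (nat_lit 0), (16, 0, 23), [209554, 5864722], 0⟩,
  ⟨⟨-39, 32, 8, -20, -33, -20, 6, 24, -41⟩, (.cons (nat_lit 627868) (nat_lit 3798577) (nat_lit 2581140)
 (nat_lit 1) (.cons (nat_lit 1980909) (nat_lit 8512280) (nat_lit 24591636) (nat_lit 1) .nil)), (nat_lit 22),
 (nat_lit 0), (nat_lit 0), (nat_lit 0), (25, 8, 7), [252957, 2351089], 0⟩,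
  ⟨⟨17, -36, 28, -20, 23, 50, 38, 8, -1⟩, (.cons (nat_lit 2871658) (nat_lit 3683885) (nat_lit 4798246) (nat_lit
 1) (.cons (nat_lit 659319) (nat_lit 16589767) (nat_lit 1816072) (nat_lit 1) .nil)), (nat_lit 32), (nat_lit 0),
 (nat_lit 0), (nat_lit 0), (2, 17, 10), [4341006, 1440110], 0⟩,
  ⟨⟨-49, -12, 36, -2, 35, 36, -28, 20, -13⟩, (.cons (nat_lit 4198854) (nat_lit 2352478) (nat_lit 3622217)
 (nat_lit 1) (.cons (nat_lit 21472922) (nat_lit 2036298) (nat_lit 5084772) (nat_lit 1) .nil)), (nat_lit 1),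
 (nat_lit 0), (nat_lit 0), (nat_lit 0), (24, 24, 7), [2095748, 19161518], 0⟩,
  ⟨⟨-39, -32, 8, 20, -33, 20, 6, -24, -41⟩, (.cons (nat_lit 3710098) (nat_lit 1954440) (nat_lit 514482)
 (nat_lit 1) (.cons (nat_lit 3002385) (nat_lit 21085925) (nat_lit 3858597) (nat_lit 1) .nil)), (nat_lit 19),
 (nat_lit 0), (nat_lit 0), (nat_lit 0), (28, 23, 21), [2345030, 8987357], 0⟩,
  mz,
  mz,
  ⟨⟨-45, 8, -4, 20, 33, -40, -6, -24, -35⟩, (.cons (nat_lit 4826808) (nat_lit 855355) (nat_lit 2244489)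
 (nat_lit 1) (.cons (nat_lit 25411680) (nat_lit 911733) (nat_lit 1809432) (nat_lit 1) .nil)), (nat_lit 25),
 (nat_lit 0), (nat_lit 0), (nat_lit 0), (40, 24, 21), [2184954, 20496708], 0⟩,
  ⟨⟨-21, 32, -28, -2, -35, -34, 28, 20, -41⟩, (.cons (nat_lit 4332815) (nat_lit 2657607) (nat_lit 97098)
 (nat_lit 1) (.cons (nat_lit 9938173) (nat_lit 3738744) (nat_lit 8231442) (nat_lit 1) .nil)), (nat_lit 5),
 (nat_lit 0), (nat_lit 0), (nat_lit 0), (30, 23, 7), [455114, 23614704], 0⟩,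
  ⟨⟨17, 36, -45, -20, -23, -30, 38, -8, -37⟩, (.cons (nat_lit 825665) (nat_lit 4255517) (nat_lit 1893379)
 (nat_lit 1) (.cons (nat_lit 9975684) (nat_lit 11709082) (nat_lit 1197887) (nat_lit 1) .nil)), (nat_lit 32),
 (nat_lit 0), (nat_lit 0), (nat_lit 0), (45, 30, 37), [331153, 1618866], 0⟩,
  ⟨⟨39, 32, -31, -20, 33, 40, -6, 24, -35⟩, (.cons (nat_lit 2164535) (nat_lit 1804989) (nat_lit 621652)
 (nat_lit 1) (.cons (nat_lit 5327759) (nat_lit 20033303) (nat_lit 4977882) (nat_lit 1) .nil)), (nat_lit 19),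
 (nat_lit 0), (nat_lit 0), (nat_lit 0), (25, 39, 7), [3594120, 12597096], 0⟩,
  ⟨⟨19, 0, 44, 0, -47, 0, 42, 0, -19⟩, (.cons (nat_lit 4826808) (nat_lit 2995105) (nat_lit 1323489) (nat_lit 1)
 (.cons (nat_lit 25411680) (nat_lit 16648238) (nat_lit 4770351) (nat_lit 1) .nil)), (nat_lit 29), (nat_lit 0),
 (nat_lit 0), (nat_lit 0), (31, 0, 24), [1186204, 24323291], 0⟩,
  mz,
  ⟨⟨9, -4, -61, -40, 23, 10, 22, 32, -29⟩, (.cons (nat_lit 874335) (nat_lit 1000253) (nat_lit 3080837) (nat_lit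
 1) (.cons (nat_lit 14598315) (nat_lit 2078431) (nat_lit 5783976) (nat_lit 1) .nil)), (nat_lit 20), (nat_lit
 0), (nat_lit 0), (nat_lit 0), (36, 28, 41), [1728018, 13303165], 0⟩,
  ⟨⟨-13, -36, 45, -40, 23, 30, -22, -32, -7⟩, (.cons (nat_lit 888058) (nat_lit 3017427) (nat_lit 3848919)
 (nat_lit 1) (.cons (nat_lit 17289338) (nat_lit 7195705) (nat_lit 2745399) (nat_lit 1) .nil)), (nat_lit 12),
 (nat_lit 0), (nat_lit 0), (nat_lit 0), (26, 33, 44), [1079856, 1712104], 0⟩,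
  ⟨⟨-39, -8, -17, 2, 45, -16, 12, -12, -49⟩, (.cons (nat_lit 932159) (nat_lit 892062) (nat_lit 4145659)
 (nat_lit 1) (.cons (nat_lit 231792) (nat_lit 7602985) (nat_lit 19157249) (nat_lit 1) .nil)), (nat_lit 14),
 (nat_lit 0), (nat_lit 0), (nat_lit 0), (3, 36, 28), [2505487, 15598177], 0⟩,
  mz,
  ⟨⟨17, 36, 28, 20, 23, -50, 38, -8, -1⟩, (.cons (nat_lit 834087) (nat_lit 2545303) (nat_lit 1507028) (nat_lit
 1) (.cons (nat_lit 11132149) (nat_lit 809121) (nat_lit 4788225) (nat_lit 1) .nil)), (nat_lit 16), (nat_lit 0),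
 (nat_lit 0), (nat_lit 0), (28, 44, 46), [2357584, 4282954], 0⟩,
  ⟨⟨27, -32, -47, -40, -17, 0, 10, 16, -47⟩, (.cons (nat_lit 1110834) (nat_lit 789850) (nat_lit 4117045)
 (nat_lit 1) (.cons (nat_lit 3810016) (nat_lit 4732334) (nat_lit 16714654) (nat_lit 1) .nil)), (nat_lit 38),
 (nat_lit 0), (nat_lit 0), (nat_lit 0), (46, 45, 24), [723798, 4363627], 0⟩,
  mz,
  ⟨⟨-27, 32, -20, 40, 17, -40, -10, -16, -37⟩, (.cons (nat_lit 4826808) (nat_lit 4592771) (nat_lit 4276490)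
 (nat_lit 1) (.cons (nat_lit 25411680) (nat_lit 17211991) (nat_lit 7757438) (nat_lit 1) .nil)), (nat_lit 38),
 (nat_lit 0), (nat_lit 0), (nat_lit 0), (43, 39, 2), [1644490, 17177149], 0⟩,
  mz,
  mz,
  mz,
  ⟨⟨45, -16, -1, 22, 35, -36, 20, -28, -37⟩, (.cons (nat_lit 2306517) (nat_lit 2703089) (nat_lit 4235597)
 (nat_lit 1) (.cons (nat_lit 483638) (nat_lit 24944420) (nat_lit 4769254) (nat_lit 1) .nil)), (nat_lit 45),
 (nat_lit 0), (nat_lit 0), (nat_lit 0), (12, 9, 21), [2000345, 10363319], 0⟩,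
  mz,
  ⟨⟨51, 4, -32, 2, -45, -16, 12, 12, -49⟩, (.cons (nat_lit 3004317) (nat_lit 4050222) (nat_lit 4007782)
 (nat_lit 1) (.cons (nat_lit 12561198) (nat_lit 4803101) (nat_lit 10201569) (nat_lit 1) .nil)), (nat_lit 33),
 (nat_lit 0), (nat_lit 0), (nat_lit 0), (7, 27, 21), [3653348, 23377632], 0⟩,
  ⟨⟨49, 12, -13, 2, -35, 34, 28, -20, -41⟩, (.cons (nat_lit 2245420) (nat_lit 2577897) (nat_lit 4788897)
 (nat_lit 1) (.cons (nat_lit 2171586) (nat_lit 3716356) (nat_lit 14055364) (nat_lit 1) .nil)), (nat_lit 1),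
 (nat_lit 0), (nat_lit 0), (nat_lit 0), (17, 17, 3), [4286055, 7998408], 0⟩,
  ⟨⟨-45, 16, 44, -22, -35, -14, -20, 28, -17⟩, (.cons (nat_lit 2190242) (nat_lit 24280) (nat_lit 2251299)
 (nat_lit 1) (.cons (nat_lit 15204575) (nat_lit 1632905) (nat_lit 6308819) (nat_lit 1) .nil)), (nat_lit 45),
 (nat_lit 0), (nat_lit 0), (nat_lit 0), (34, 2, 36), [2390969, 5048206], 0⟩]

/-- Moves. -/
noncomputable def t4_5 : List Mv := [
  mz,
  ⟨⟨45, 16, -1, 22, -35, -36, 20, 28, -37⟩, (.cons (nat_lit 2565815) (nat_lit 1268477) (nat_lit 496503)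
 (nat_lit 1) (.cons (nat_lit 52366) (nat_lit 17366483) (nat_lit 737260) (nat_lit 1) .nil)), (nat_lit 45),
 (nat_lit 0), (nat_lit 0), (nat_lit 0), (34, 2, 36), [796217, 4235577], 0⟩,
  ⟨⟨-49, 12, 36, -2, -35, 36, -28, -20, -13⟩, (.cons (nat_lit 2475731) (nat_lit 3025978) (nat_lit 3831925)
 (nat_lit 1) (.cons (nat_lit 3172863) (nat_lit 6759010) (nat_lit 25114424) (nat_lit 1) .nil)), (nat_lit 1),
 (nat_lit 0), (nat_lit 0), (nat_lit 0), (17, 17, 3), [4580655, 11266889], 0⟩,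
  ⟨⟨-51, 4, 19, 2, 45, 14, -12, 12, -37⟩, (.cons (nat_lit 1607595) (nat_lit 4792230) (nat_lit 1720430) (nat_lit
 1) (.cons (nat_lit 9173095) (nat_lit 18360685) (nat_lit 5319054) (nat_lit 1) .nil)), (nat_lit 44), (nat_lit
 0), (nat_lit 0), (nat_lit 0), (7, 20, 21), [4092518, 22558949], 0⟩,
  mz,
  ⟨⟨-45, -16, 44, -22, 35, -14, -20, -28, -17⟩, (.cons (nat_lit 1223999) (nat_lit 746886) (nat_lit 393307)
 (nat_lit 1) (.cons (nat_lit 10724729) (nat_lit 7498318) (nat_lit 6410600) (nat_lit 1) .nil)), (nat_lit 45),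
 (nat_lit 0), (nat_lit 0), (nat_lit 0), (12, 9, 21), [4236380, 22456770], 0⟩,
  mz,
  mz,
  mz,
  ⟨⟨-17, -48, 0, 40, -17, 0, 10, -16, -47⟩, (.cons (nat_lit 1696564) (nat_lit 2790649) (nat_lit 1) (nat_lit
 3492229) (.cons (nat_lit 3668059) (nat_lit 4116996) (nat_lit 7576201) (nat_lit 1) .nil)), (nat_lit 36),
 (nat_lit 0), (nat_lit 0), (nat_lit 0), (6, 8, 2), [3011287, 23402437], 0⟩,
  mz,
  ⟨⟨-27, -32, -20, -40, 17, 40, -10, 16, -37⟩, (.cons (nat_lit 4826808) (nat_lit 1575426) (nat_lit 3004954)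
 (nat_lit 1) (.cons (nat_lit 25411680) (nat_lit 18726960) (nat_lit 652766) (nat_lit 1) .nil)), (nat_lit 11),
 (nat_lit 0), (nat_lit 0), (nat_lit 0), (46, 2, 24), [2461247, 20499286], 0⟩,
  ⟨⟨21, 44, 8, 20, -23, 30, 38, 8, -37⟩, (.cons (nat_lit 2741587) (nat_lit 2336713) (nat_lit 2511115) (nat_lit
 1) (.cons (nat_lit 3019215) (nat_lit 4836784) (nat_lit 8153096) (nat_lit 1) .nil)), (nat_lit 31), (nat_lit 0),
 (nat_lit 0), (nat_lit 0), (29, 3, 1), [1924655, 6216549], 0⟩,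
  mz,
  ⟨⟨-51, -4, 19, -2, 45, -14, -12, -12, -37⟩, (.cons (nat_lit 2815217) (nat_lit 2000774) (nat_lit 33648)
 (nat_lit 1) (.cons (nat_lit 8098581) (nat_lit 2607550) (nat_lit 13125975) (nat_lit 1) .nil)), (nat_lit 33),
 (nat_lit 0), (nat_lit 0), (nat_lit 0), (25, 36, 28), [3355418, 8048182], 0⟩,
  ⟨⟨9, 4, -61, 40, 23, -10, 22, -32, -29⟩, (.cons (nat_lit 2601503) (nat_lit 2283662) (nat_lit 1846642)
 (nat_lit 1) (.cons (nat_lit 12843795) (nat_lit 18825669) (nat_lit 23194170) (nat_lit 1) .nil)), (nat_lit 35),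
 (nat_lit 0), (nat_lit 0), (nat_lit 0), (18, 33, 44), [3581196, 3626610], 0⟩,
  ⟨⟨-13, 36, 45, -40, -23, 30, -22, 32, -7⟩, (.cons (nat_lit 1328113) (nat_lit 1328114) (nat_lit 4231443)
 (nat_lit 1) (.cons (nat_lit 20229650) (nat_lit 4217982) (nat_lit 1352404) (nat_lit 1) .nil)), (nat_lit 12),
 (nat_lit 0), (nat_lit 0), (nat_lit 0), (5, 19, 41), [3448823, 12774141], 0⟩,
  mz,
  ⟨⟨23, 0, 40, 0, -47, 0, 42, 0, -23⟩, (.cons (nat_lit 4826808) (nat_lit 270099) (nat_lit 1928358) (nat_lit 1)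
 (.cons (nat_lit 25411680) (nat_lit 6191510) (nat_lit 15451546) (nat_lit 1) .nil)), (nat_lit 18), (nat_lit 0),
 (nat_lit 0), (nat_lit 0), (7, 0, 23), [1926939, 4255968], 0⟩,
  ⟨⟨-39, 32, 8, -20, -33, -20, 6, 24, -41⟩, (.cons (nat_lit 627868) (nat_lit 3798577) (nat_lit 2581140)
 (nat_lit 1) (.cons (nat_lit 1980909) (nat_lit 8512280) (nat_lit 24591636) (nat_lit 1) .nil)), (nat_lit 22),
 (nat_lit 0), (nat_lit 0), (nat_lit 0), (25, 8, 7), [252957, 2351089], 0⟩,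
  ⟨⟨17, -36, 28, -20, 23, 50, 38, 8, -1⟩, (.cons (nat_lit 2871658) (nat_lit 3683885) (nat_lit 4798246) (nat_lit
 1) (.cons (nat_lit 659319) (nat_lit 16589767) (nat_lit 1816072) (nat_lit 1) .nil)), (nat_lit 32), (nat_lit 0),
 (nat_lit 0), (nat_lit 0), (2, 17, 10), [4341006, 1440110], 0⟩,
  ⟨⟨21, 32, -49, 2, -35, -36, -28, 20, -13⟩, (.cons (nat_lit 2153754) (nat_lit 2284664) (nat_lit 4676524)
 (nat_lit 1) (.cons (nat_lit 24462592) (nat_lit 18063614) (nat_lit 16932654) (nat_lit 1) .nil)), (nat_lit 5),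
 (nat_lit 0), (nat_lit 0), (nat_lit 0), (30, 23, 7), [3954411, 2848379], 0⟩,
  ⟨⟨-39, -32, 8, -20, 33, -20, 6, -24, -41⟩, (.cons (nat_lit 4826808) (nat_lit 693035) (nat_lit 896607)
 (nat_lit 1) (.cons (nat_lit 25411680) (nat_lit 1149291) (nat_lit 8757204) (nat_lit 1) .nil)), (nat_lit 22),
 (nat_lit 0), (nat_lit 0), (nat_lit 0), (28, 24, 21), [2159815, 2170272], 0⟩,
  mz,
  mz,
  ⟨⟨-45, 8, -4, 20, 33, -40, -6, -24, -35⟩, (.cons (nat_lit 4826808) (nat_lit 855355) (nat_lit 2244489)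
 (nat_lit 1) (.cons (nat_lit 25411680) (nat_lit 911733) (nat_lit 1809432) (nat_lit 1) .nil)), (nat_lit 25),
 (nat_lit 0), (nat_lit 0), (nat_lit 0), (40, 24, 21), [2184954, 20496708], 0⟩,
  ⟨⟨49, -12, -13, -2, -35, -34, 28, 20, -41⟩, (.cons (nat_lit 507535) (nat_lit 1295784) (nat_lit 29006)
 (nat_lit 1) (.cons (nat_lit 17522609) (nat_lit 16177468) (nat_lit 16298167) (nat_lit 1) .nil)), (nat_lit 42),
 (nat_lit 0), (nat_lit 0), (nat_lit 0), (24, 23, 7), [1101641, 9645448], 0⟩,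
  ⟨⟨17, 36, -45, 20, 23, 30, 38, -8, -37⟩, (.cons (nat_lit 535088) (nat_lit 3344885) (nat_lit 3525408) (nat_lit
 1) (.cons (nat_lit 2455998) (nat_lit 13052797) (nat_lit 4547174) (nat_lit 1) .nil)), (nat_lit 16), (nat_lit
 0), (nat_lit 0), (nat_lit 0), (45, 17, 37), [2910981, 23347357], 0⟩,
  ⟨⟨-45, -8, -4, 20, -33, -40, -6, 24, -35⟩, (.cons (nat_lit 4609378) (nat_lit 4440193) (nat_lit 2834363)
 (nat_lit 1) (.cons (nat_lit 24208595) (nat_lit 14715327) (nat_lit 1110916) (nat_lit 1) .nil)), (nat_lit 25),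
 (nat_lit 0), (nat_lit 0), (nat_lit 0), (29, 8, 7), [1855571, 3155732], 0⟩,
  ⟨⟨19, 0, 44, 0, -47, 0, 42, 0, -19⟩, (.cons (nat_lit 4826808) (nat_lit 2995105) (nat_lit 1323489) (nat_lit 1)
 (.cons (nat_lit 25411680) (nat_lit 16648238) (nat_lit 4770351) (nat_lit 1) .nil)), (nat_lit 29), (nat_lit 0),
 (nat_lit 0), (nat_lit 0), (31, 0, 24), [1186204, 24323291], 0⟩,
  mz,
  ⟨⟨13, 36, 32, 40, -23, -10, 22, 32, -29⟩, (.cons (nat_lit 1217187) (nat_lit 4650964) (nat_lit 3036801)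
 (nat_lit 1) (.cons (nat_lit 748779) (nat_lit 15901065) (nat_lit 9761975) (nat_lit 1) .nil)), (nat_lit 12),
 (nat_lit 0), (nat_lit 0), (nat_lit 0), (5, 19, 41), [2255675, 8459917], 0⟩,
  ⟨⟨-13, -36, 45, 40, -23, -30, -22, -32, -7⟩, (.cons (nat_lit 3710177) (nat_lit 2629323) (nat_lit 2489011)
 (nat_lit 1) (.cons (nat_lit 19068563) (nat_lit 21919883) (nat_lit 17267537) (nat_lit 1) .nil)), (nat_lit 27),
 (nat_lit 0), (nat_lit 0), (nat_lit 0), (26, 14, 44), [3438978, 24962316], 0⟩,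
  ⟨⟨51, -4, -32, 2, 45, -16, 12, -12, -49⟩, (.cons (nat_lit 4826808) (nat_lit 1495478) (nat_lit 3827876)
 (nat_lit 1) (.cons (nat_lit 25411680) (nat_lit 25069737) (nat_lit 3490282) (nat_lit 1) .nil)), (nat_lit 33),
 (nat_lit 0), (nat_lit 0), (nat_lit 0), (25, 36, 28), [3130655, 11135266], 0⟩,
  mz,
  ⟨⟨17, 36, 28, 20, 23, -50, 38, -8, -1⟩, (.cons (nat_lit 834087) (nat_lit 2545303) (nat_lit 1507028) (nat_lit
 1) (.cons (nat_lit 11132149) (nat_lit 809121) (nat_lit 4788225) (nat_lit 1) .nil)), (nat_lit 16), (nat_lit 0),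
 (nat_lit 0), (nat_lit 0), (28, 44, 46), [2357584, 4282954], 0⟩,
  ⟨⟨-17, 48, 0, -40, -17, 0, 10, 16, -47⟩, (.cons (nat_lit 3149640) (nat_lit 219548) (nat_lit 1710424) (nat_lit
 1) (.cons (nat_lit 12818629) (nat_lit 23255248) (nat_lit 22956339) (nat_lit 1) .nil)), (nat_lit 9), (nat_lit
 0), (nat_lit 0), (nat_lit 0), (25, 45, 24), [368829, 5456898], 0⟩,
  mz,
  ⟨⟨17, -48, -17, -40, -17, 40, -10, -16, -37⟩, (.cons (nat_lit 2751714) (nat_lit 3214474) (nat_lit 636635)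
 (nat_lit 1) (.cons (nat_lit 4505939) (nat_lit 19310861) (nat_lit 5052737) (nat_lit 1) .nil)), (nat_lit 36),
 (nat_lit 0), (nat_lit 0), (nat_lit 0), (6, 8, 2), [3780846, 24429707], 0⟩,
  mz,
  mz,
  mz,
  ⟨⟨45, -16, -1, 22, 35, -36, 20, -28, -37⟩, (.cons (nat_lit 2306517) (nat_lit 2703089) (nat_lit 4235597)
 (nat_lit 1) (.cons (nat_lit 483638) (nat_lit 24944420) (nat_lit 4769254) (nat_lit 1) .nil)), (nat_lit 45),
 (nat_lit 0), (nat_lit 0), (nat_lit 0), (12, 9, 21), [2000345, 10363319], 0⟩,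
  mz,
  ⟨⟨51, 4, -32, 2, -45, -16, 12, 12, -49⟩, (.cons (nat_lit 3004317) (nat_lit 4050222) (nat_lit 4007782)
 (nat_lit 1) (.cons (nat_lit 12561198) (nat_lit 4803101) (nat_lit 10201569) (nat_lit 1) .nil)), (nat_lit 33),
 (nat_lit 0), (nat_lit 0), (nat_lit 0), (7, 27, 21), [3653348, 23377632], 0⟩,
  ⟨⟨-21, -32, -28, 2, -35, 34, 28, -20, -41⟩, (.cons (nat_lit 1637357) (nat_lit 3397773) (nat_lit 761658)
 (nat_lit 1) (.cons (nat_lit 23480605) (nat_lit 4395533) (nat_lit 17089267) (nat_lit 1) .nil)), (nat_lit 46),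
 (nat_lit 0), (nat_lit 0), (nat_lit 0), (33, 17, 3), [201564, 15545856], 0⟩,
  ⟨⟨25, 12, -61, 22, 35, 14, -20, 28, -17⟩, (.cons (nat_lit 4189609) (nat_lit 1749055) (nat_lit 2290307)
 (nat_lit 1) (.cons (nat_lit 25034037) (nat_lit 3278970) (nat_lit 13539357) (nat_lit 1) .nil)), (nat_lit 21),
 (nat_lit 0), (nat_lit 0), (nat_lit 0), (2, 45, 36), [280115, 22689682], 0⟩]

/-- All the moves. -/
noncomputable def tabs : List (List (List Mv)) := [[[], [], t0_2, [], t0_4, t0_5], [[], [], t1_2, [], t1_4, t1_5], [], [], [[], [], t4_2, [], t4_4, t4_5]]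

/-- Subtrie. -/
noncomputable def T2 : Tr := (.ev (nat_lit 20) (nat_lit 105589691695620) (.nd (nat_lit 33) (.br (nat_lit 39)
 (.br (nat_lit 19) (.br (nat_lit 8) (.br (nat_lit 4) (.br (nat_lit 3) (.ch (nat_lit 1) (.ev (nat_lit 52)
 (nat_lit 77748504608) (.ev (nat_lit 724) (nat_lit 17592186044416) (.ev (nat_lit 820) (nat_lit 2) (.ev (nat_lit
 980) (nat_lit 8) (.nd (nat_lit 1600) (.br (nat_lit 6) (.br (nat_lit 4) (.ch (nat_lit 1) (.ev (nat_lit 1616)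
 (nat_lit 4677756321792) (.ev (nat_lit 1684) (nat_lit 4194304) (.ev (nat_lit 1693) (nat_lit 4096) .dd)))) (.br
 (nat_lit 5) (.ch (nat_lit 4) (.ev (nat_lit 1616) (nat_lit 4677223649280) (.ev (nat_lit 1629) (nat_lit
 536870912) .dd))) (.ch (nat_lit 5) (.ev (nat_lit 1616) (nat_lit 4677760520192) .dd)))) (.br (nat_lit 9) (.ch
 (nat_lit 6) (.ev (nat_lit 1616) (nat_lit 274877976576) (.ev (nat_lit 2086) (nat_lit 536870912) (.ev (nat_lit
 2544) (nat_lit 4294967296) (.ev (nat_lit 3012) (nat_lit 4194304) (.ev (nat_lit 3021) (nat_lit 4398046511104)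
 .dd)))))) (.br (nat_lit 12) (.ch (nat_lit 9) (.ev (nat_lit 1616) (nat_lit 4836032512) (.ev (nat_lit 2148)
 (nat_lit 4398046511104) (.ev (nat_lit 3012) (nat_lit 4096) (.nd (nat_lit 3952) (.br (nat_lit 11) (.ch (nat_lit
 10) (.ev (nat_lit 3968) (nat_lit 274877972480) .dd)) (.ch (nat_lit 11) (.fin (nat_lit
 576421719655793178))))))))) (.ch (nat_lit 12) (.ev (nat_lit 1616) (nat_lit 4677760520192) .dd))))))))))) (.ch
 (nat_lit 3) (.ev (nat_lit 52) (nat_lit 17935919743018) (.ev (nat_lit 160) (nat_lit 4411775326208) .dd)))) (.br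
 (nat_lit 5) (.ch (nat_lit 4) (.ev (nat_lit 52) (nat_lit 4480456724522) (.ev (nat_lit 692) (nat_lit 2097152)
 (.ev (nat_lit 992) (nat_lit 17867236247552) .dd)))) (.br (nat_lit 7) (.ch (nat_lit 5) (.ev (nat_lit 52)
 (nat_lit 22059660935170) (.ev (nat_lit 116) (nat_lit 268435456) (.ev (nat_lit 308) (nat_lit 262144) (.ev
 (nat_lit 468) (nat_lit 524288) (.nd (nat_lit 1600) (.br (nat_lit 5) (.br (nat_lit 1) (.ch (nat_lit 0) (.ev
 (nat_lit 1616) (nat_lit 8589936680) (.ev (nat_lit 1684) (nat_lit 274877906944) (.ev (nat_lit 1780) (nat_lit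
 2097152) (.ev (nat_lit 2912) (nat_lit 4294967296) (.ev (nat_lit 2925) (nat_lit 4096) .dd)))))) (.br (nat_lit
 2) (.ch (nat_lit 1) (.ev (nat_lit 1616) (nat_lit 287762810920) (.ev (nat_lit 1830) (nat_lit 2097152) (.ev
 (nat_lit 1837) (nat_lit 4096) .dd)))) (.ch (nat_lit 2) (.ev (nat_lit 1616) (nat_lit 287764912168) .dd)))) (.br
 (nat_lit 10) (.ch (nat_lit 5) (.ev (nat_lit 1616) (nat_lit 279174975488) (.ev (nat_lit 2678) (nat_lit 2048)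
 (.ev (nat_lit 2944) (nat_lit 40) (.ev (nat_lit 2957) (nat_lit 8589934592) .dd))))) (.br (nat_lit 12) (.ch
 (nat_lit 10) (.ev (nat_lit 1616) (nat_lit 12884903944) (.ev (nat_lit 2228) (nat_lit 274877906944) (.ev
 (nat_lit 3024) (nat_lit 4096) (.fin (nat_lit 576465700154458678)))))) (.ch (nat_lit 12) (.ev (nat_lit 1616)
 (nat_lit 287764912160) (.ev (nat_lit 1629) (nat_lit 8) .dd)))))))))))) (.ch (nat_lit 7) (.ev (nat_lit 52)
 (nat_lit 17660945698850) (.ev (nat_lit 148) (nat_lit 4398046511104) (.ev (nat_lit 404) (nat_lit 8) (.ev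
 (nat_lit 692) (nat_lit 4294967296) (.ev (nat_lit 980) (nat_lit 8589934592) (.nd (nat_lit 1600) (.br (nat_lit
 6) (.br (nat_lit 1) (.ch (nat_lit 0) (.ev (nat_lit 1616) (nat_lit 275683739648) (.ev (nat_lit 1629) (nat_lit
 134217728) .dd))) (.br (nat_lit 2) (.ch (nat_lit 1) (.ev (nat_lit 1616) (nat_lit 275012648960) (.ev (nat_lit
 2896) (nat_lit 536870912) (.ev (nat_lit 3024) (nat_lit 268435456) (.ev (nat_lit 3037) (nat_lit 2048) .dd)))))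
 (.ch (nat_lit 2) (.ev (nat_lit 1616) (nat_lit 275549521920) (.ev (nat_lit 1629) (nat_lit 268435456) .dd)))))
 (.br (nat_lit 10) (.br (nat_lit 9) (.ch (nat_lit 6) (.ev (nat_lit 1616) (nat_lit 275280562176) (.nd (nat_lit
 3760) (.br (nat_lit 11) (.ch (nat_lit 1) (.ev (nat_lit 3776) (nat_lit 524288) (.ev (nat_lit 3789) (nat_lit
 536870912) .dd))) (.ch (nat_lit 11) (.fin (nat_lit 576492088318181996))))))) (.ch (nat_lit 9) (.ev (nat_lit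
 1616) (nat_lit 671088640) (.ev (nat_lit 1780) (nat_lit 274877906944) (.ev (nat_lit 1892) (nat_lit 524288) (.ev
 (nat_lit 3024) (nat_lit 2048) (.ev (nat_lit 3037) (nat_lit 268435456) .dd))))))) (.br (nat_lit 12) (.ch
 (nat_lit 10) (.ev (nat_lit 1616) (nat_lit 268437504) (.ev (nat_lit 3040) (nat_lit 274877906944) (.ev (nat_lit
 3380) (nat_lit 536870912) (.nd (nat_lit 3824) (.br (nat_lit 9) (.ch (nat_lit 3) (.ev (nat_lit 3840) (nat_lit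
 134742016) .dd)) (.ch (nat_lit 9) (.fin (nat_lit 576448107957928478))))))))) (.ch (nat_lit 12) (.ev (nat_lit
 1616) (nat_lit 275280560128) (.ev (nat_lit 2928) (nat_lit 2048) (.ev (nat_lit 3012) (nat_lit 524288) (.ev
 (nat_lit 3021) (nat_lit 536870912) .dd)))))))))))))))))) (.br (nat_lit 15) (.br (nat_lit 11) (.ch (nat_lit 8)
 (.ev (nat_lit 52) (nat_lit 845221928) (.ev (nat_lit 84) (nat_lit 2048) (.ev (nat_lit 212) (nat_lit 524288)
 (.ev (nat_lit 372) (nat_lit 17592186044416) (.ev (nat_lit 532) (nat_lit 4294967296) (.nd (nat_lit 1600) (.br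
 (nat_lit 9) (.br (nat_lit 5) (.ch (nat_lit 0) (.ev (nat_lit 1616) (nat_lit 77309411330) (.ev (nat_lit 2784)
 (nat_lit 274877906944) (.ev (nat_lit 3152) (nat_lit 134479872) (.ev (nat_lit 3165) (nat_lit 4398046511104)
 .dd))))) (.br (nat_lit 6) (.ch (nat_lit 5) (.ev (nat_lit 1616) (nat_lit 4741778112512) (.ev (nat_lit 2582)
 (nat_lit 8589934592) (.ev (nat_lit 3184) (nat_lit 2) (.ev (nat_lit 3197) (nat_lit 262144) .dd))))) (.ch
 (nat_lit 6) (.ev (nat_lit 1616) (nat_lit 134479874) (.ev (nat_lit 2896) (nat_lit 68719476736) (.ev (nat_lit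
 3172) (nat_lit 4672924418048) (.ev (nat_lit 3181) (nat_lit 8589934592) .dd))))))) (.br (nat_lit 10) (.ch
 (nat_lit 9) (.ev (nat_lit 1616) (nat_lit 77309673474) (.ev (nat_lit 1684) (nat_lit 274877906944) (.fin
 (nat_lit 576474496186663492))))) (.br (nat_lit 12) (.ch (nat_lit 10) (.ev (nat_lit 1616) (nat_lit
 352321536002) (.fin (nat_lit 576606437521179420)))) (.ch (nat_lit 12) (.ev (nat_lit 1616) (nat_lit
 4681648832512) (.ev (nat_lit 1684) (nat_lit 2) (.ev (nat_lit 1693) (nat_lit 68719476736) .dd))))))))))))))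
 (.br (nat_lit 12) (.ch (nat_lit 11) (.ev (nat_lit 52) (nat_lit 22269674653728) (.ev (nat_lit 384) (nat_lit
 78020415498) .dd))) (.ch (nat_lit 12) (.ev (nat_lit 52) (nat_lit 17592495112226) (.ev (nat_lit 244) (nat_lit
 4294967296) (.ev (nat_lit 276) (nat_lit 4096) (.nd (nat_lit 1600) (.br (nat_lit 6) (.br (nat_lit 2) (.ch
 (nat_lit 0) (.ev (nat_lit 1616) (nat_lit 77980502024) (.ev (nat_lit 2752) (nat_lit 4398046511104) (.ev
 (nat_lit 3172) (nat_lit 65536) (.ev (nat_lit 3181) (nat_lit 274877906944) .dd))))) (.br (nat_lit 5) (.ch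
 (nat_lit 2) (.ev (nat_lit 1616) (nat_lit 4476027078664) (.ev (nat_lit 1629) (nat_lit 274877906944) .dd))) (.ch
 (nat_lit 5) (.ev (nat_lit 1616) (nat_lit 77980565512) (.ev (nat_lit 1632) (nat_lit 2048) (.ev (nat_lit 3040)
 (nat_lit 4398046511104) (.ev (nat_lit 3053) (nat_lit 274877906944) .dd))))))) (.br (nat_lit 9) (.ch (nat_lit
 6) (.ev (nat_lit 1616) (nat_lit 77443696640) (.ev (nat_lit 1728) (nat_lit 4398046511104) (.ev (nat_lit 3172)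
 (nat_lit 274877906952) (.ev (nat_lit 3181) (nat_lit 536870912) .dd))))) (.br (nat_lit 12) (.ch (nat_lit 9)
 (.ev (nat_lit 1616) (nat_lit 4742314985472) (.ev (nat_lit 3552) (nat_lit 8) (.fin (nat_lit
 576496486662488692))))) (.ch (nat_lit 12) (.ev (nat_lit 1616) (nat_lit 4672924485640) (.ev (nat_lit 2976)
 (nat_lit 536870912) (.ev (nat_lit 3184) (nat_lit 8589934592) (.fin (nat_lit 576496486429704754))))))))))))))))
 (.br (nat_lit 16) (.ch (nat_lit 15) (.ev (nat_lit 52) (nat_lit 4678197248008) (.ev (nat_lit 404) (nat_lit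
 8589934592) (.ev (nat_lit 500) (nat_lit 2097152) (.ev (nat_lit 532) (nat_lit 2048) (.ev (nat_lit 564) (nat_lit
 4096) (.ev (nat_lit 692) (nat_lit 17592186044416) (.nd (nat_lit 1600) (.br (nat_lit 5) (.br (nat_lit 2) (.ch
 (nat_lit 1) (.ev (nat_lit 1616) (nat_lit 34) (.ev (nat_lit 2816) (nat_lit 68719476736) (.ev (nat_lit 2829)
 (nat_lit 262144) .dd)))) (.br (nat_lit 4) (.ch (nat_lit 2) (.ev (nat_lit 1616) (nat_lit 68719476770) (.ev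
 (nat_lit 1629) (nat_lit 262144) .dd))) (.ch (nat_lit 4) (.ev (nat_lit 1616) (nat_lit 262144) (.ev (nat_lit
 1648) (nat_lit 32) (.ev (nat_lit 3024) (nat_lit 2) (.ev (nat_lit 3037) (nat_lit 68719476736) .dd))))))) (.br
 (nat_lit 9) (.ch (nat_lit 5) (.ev (nat_lit 1616) (nat_lit 68719738882) (.ev (nat_lit 1629) (nat_lit 32) .dd)))
 (.br (nat_lit 12) (.ch (nat_lit 9) (.ev (nat_lit 1616) (nat_lit 68719738912) (.ev (nat_lit 1629) (nat_lit 2)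
 .dd))) (.ch (nat_lit 12) (.ev (nat_lit 1616) (nat_lit 262178) (.ev (nat_lit 1629) (nat_lit 68719476736)
 .dd)))))))))))))) (.br (nat_lit 18) (.ch (nat_lit 16) (.ev (nat_lit 52) (nat_lit 22265788628992) (.ev (nat_lit
 244) (nat_lit 2) (.ev (nat_lit 468) (nat_lit 268435456) (.ev (nat_lit 724) (nat_lit 33554432) (.ev (nat_lit
 948) (nat_lit 68719476736) (.ev (nat_lit 1012) (nat_lit 65536) (.nd (nat_lit 1600) (.br (nat_lit 6) (.br
 (nat_lit 5) (.ch (nat_lit 2) (.ev (nat_lit 1616) (nat_lit 8589940776) (.ev (nat_lit 1629) (nat_lit 4294967296)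
 .dd))) (.ch (nat_lit 5) (.ev (nat_lit 1616) (nat_lit 12884905992) (.nd (nat_lit 2864) (.br (nat_lit 12) (.ch
 (nat_lit 9) (.ev (nat_lit 2880) (nat_lit 2048) (.ev (nat_lit 2893) (nat_lit 32) .dd))) (.ch (nat_lit 12) (.ev
 (nat_lit 2880) (nat_lit 32) (.ev (nat_lit 2893) (nat_lit 2048) .dd)))))))) (.br (nat_lit 9) (.ch (nat_lit 6)
 (.ev (nat_lit 1616) (nat_lit 8589940768) (.ev (nat_lit 3268) (nat_lit 8) (.ev (nat_lit 3277) (nat_lit
 4294967296) .dd)))) (.br (nat_lit 12) (.ch (nat_lit 9) (.ev (nat_lit 1616) (nat_lit 4294967328) (.ev (nat_lit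
 1684) (nat_lit 8589934592) (.ev (nat_lit 2598) (nat_lit 8) (.ev (nat_lit 2896) (nat_lit 2048) (.ev (nat_lit
 2909) (nat_lit 4096) .dd)))))) (.ch (nat_lit 12) (.ev (nat_lit 1616) (nat_lit 4294971400) (.ev (nat_lit 1684)
 (nat_lit 8589934624) (.ev (nat_lit 1693) (nat_lit 2048) .dd))))))))))))))) (.ch (nat_lit 18) (.ev (nat_lit 52)
 (nat_lit 275685904418) (.ev (nat_lit 404) (nat_lit 134217728) (.ev (nat_lit 468) (nat_lit 4194304) (.ev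
 (nat_lit 500) (nat_lit 4294967296) (.ev (nat_lit 724) (nat_lit 2048) (.ev (nat_lit 756) (nat_lit 68719476736)
 (.nd (nat_lit 1600) (.br (nat_lit 5) (.br (nat_lit 2) (.ch (nat_lit 1) (.ev (nat_lit 1616) (nat_lit
 21998856044552) (.ev (nat_lit 1629) (nat_lit 262144) .dd))) (.br (nat_lit 4) (.ch (nat_lit 2) (.ev (nat_lit
 1616) (nat_lit 8) (.ev (nat_lit 3012) (nat_lit 8589934592) (.ev (nat_lit 3172) (nat_lit 33554432) (.ev
 (nat_lit 3268) (nat_lit 4398046511104) (.ev (nat_lit 3588) (nat_lit 262144) (.ev (nat_lit 3597) (nat_lit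
 17592186044416) .dd))))))) (.ch (nat_lit 4) (.ev (nat_lit 1616) (nat_lit 21990266372104) (.ev (nat_lit 1629)
 (nat_lit 8589934592) .dd))))) (.br (nat_lit 6) (.ch (nat_lit 5) (.ev (nat_lit 1616) (nat_lit 17600809533440)
 (.ev (nat_lit 1684) (nat_lit 262152) (.ev (nat_lit 1693) (nat_lit 4398046511104) .dd)))) (.br (nat_lit 10)
 (.ch (nat_lit 6) (.ev (nat_lit 1616) (nat_lit 8623751176) (.ev (nat_lit 3316) (nat_lit 4398046511104) (.ev
 (nat_lit 3325) (nat_lit 17592186044416) .dd)))) (.ch (nat_lit 10) (.ev (nat_lit 1616) (nat_lit 17600776241152)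
 (.ev (nat_lit 2438) (nat_lit 33554432) (.ev (nat_lit 3268) (nat_lit 4398046511104) (.ev (nat_lit 3277)
 (nat_lit 8) .dd)))))))))))))))))))) (.br (nat_lit 29) (.br (nat_lit 23) (.br (nat_lit 22) (.ch (nat_lit 19)
 (.ev (nat_lit 52) (nat_lit 4677225678848) (.ev (nat_lit 340) (nat_lit 8858370048) (.ev (nat_lit 596) (nat_lit
 32) (.ev (nat_lit 788) (nat_lit 68719476736) (.ev (nat_lit 852) (nat_lit 65536) (.nd (nat_lit 1600) (.br
 (nat_lit 9) (.br (nat_lit 4) (.ch (nat_lit 0) (.ev (nat_lit 1616) (nat_lit 17592757256202) (.ev (nat_lit 3172)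
 (nat_lit 4096) (.ev (nat_lit 3181) (nat_lit 134217728) .dd)))) (.br (nat_lit 6) (.ch (nat_lit 4) (.ev (nat_lit
 1616) (nat_lit 671354890) (.ev (nat_lit 3268) (nat_lit 524288) (.nd (nat_lit 3984) (.br (nat_lit 8) (.ch
 (nat_lit 4) (.ev (nat_lit 4000) (nat_lit 17592219598848) .dd)) (.ch (nat_lit 8) (.fin (nat_lit
 576342554982171060)))))))) (.ch (nat_lit 6) (.ev (nat_lit 1616) (nat_lit 17592354078730) (.ev (nat_lit 2912)
 (nat_lit 4096) (.nd (nat_lit 3920) (.br (nat_lit 11) (.ch (nat_lit 10) (.ev (nat_lit 3936) (nat_lit 536870912)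
 (.ev (nat_lit 3949) (nat_lit 524288) .dd))) (.ch (nat_lit 11) (.fin (nat_lit 576430515803341332)))))))))) (.br
 (nat_lit 10) (.ch (nat_lit 9) (.ev (nat_lit 1616) (nat_lit 704905218) (.ev (nat_lit 1684) (nat_lit 4096) (.nd
 (nat_lit 2864) (.br (nat_lit 8) (.ch (nat_lit 3) (.ev (nat_lit 2880) (nat_lit 524288) (.ev (nat_lit 3472)
 (nat_lit 8) (.ev (nat_lit 3485) (nat_lit 17592186044416) .dd)))) (.br (nat_lit 11) (.ch (nat_lit 8) (.ev
 (nat_lit 2880) (nat_lit 524296) (.ev (nat_lit 2893) (nat_lit 17592186044416) .dd))) (.ch (nat_lit 11) (.ev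
 (nat_lit 2880) (nat_lit 17592186044424) (.ev (nat_lit 2893) (nat_lit 524288) .dd))))))))) (.br (nat_lit 12)
 (.ch (nat_lit 10) (.ev (nat_lit 1616) (nat_lit 671612936) (.ev (nat_lit 3012) (nat_lit 262144) (.ev (nat_lit
 3172) (nat_lit 33554432) (.ev (nat_lit 3716) (nat_lit 17592186044416) (.nd (nat_lit 3856) (.br (nat_lit 6)
 (.ch (nat_lit 2) (.ev (nat_lit 3872) (nat_lit 2) (.ev (nat_lit 3885) (nat_lit 4096) .dd))) (.ch (nat_lit 6)
 (.fin (nat_lit 576448107907596860)))))))))) (.ch (nat_lit 12) (.ev (nat_lit 1616) (nat_lit 17592186310658)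
 (.ev (nat_lit 1812) (nat_lit 524288) (.ev (nat_lit 3024) (nat_lit 8) (.ev (nat_lit 3172) (nat_lit 134217728)
 (.ev (nat_lit 3268) (nat_lit 33554432) (.ev (nat_lit 3277) (nat_lit 536870912) .dd))))))))))))))))) (.ch
 (nat_lit 22) (.ev (nat_lit 52) (nat_lit 9563275304) (.ev (nat_lit 84) (nat_lit 4098) (.ev (nat_lit 148)
 (nat_lit 4294967296) (.ev (nat_lit 436) (nat_lit 2048) (.ev (nat_lit 564) (nat_lit 17592186044416) (.ev
 (nat_lit 820) (nat_lit 4398046511104) (.nd (nat_lit 1600) (.br (nat_lit 6) (.br (nat_lit 2) (.ch (nat_lit 1)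
 (.ev (nat_lit 1616) (nat_lit 274882101248) (.ev (nat_lit 1684) (nat_lit 65536) (.ev (nat_lit 1760) (nat_lit
 2097152) (.ev (nat_lit 3184) (nat_lit 524288) (.ev (nat_lit 3197) (nat_lit 68719476736) .dd)))))) (.br
 (nat_lit 4) (.ch (nat_lit 2) (.ev (nat_lit 1616) (nat_lit 4784128) (.ev (nat_lit 1684) (nat_lit 68719476736)
 (.ev (nat_lit 2192) (nat_lit 2097152) (.ev (nat_lit 2205) (nat_lit 274877906944) .dd))))) (.ch (nat_lit 4)
 (.ev (nat_lit 1616) (nat_lit 274884263936) (.ev (nat_lit 3012) (nat_lit 524288) (.ev (nat_lit 3021) (nat_lit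
 68719476736) .dd)))))) (.br (nat_lit 9) (.ch (nat_lit 6) (.ev (nat_lit 1616) (nat_lit 68722163712) (.ev
 (nat_lit 3012) (nat_lit 274877906944) (.ev (nat_lit 3021) (nat_lit 4194304) .dd)))) (.br (nat_lit 10) (.ch
 (nat_lit 9) (.ev (nat_lit 1616) (nat_lit 68725768192) (.ev (nat_lit 3136) (nat_lit 524288) (.nd (nat_lit 3888)
 (.br (nat_lit 11) (.ch (nat_lit 9) (.ev (nat_lit 3904) (nat_lit 274877972480) .dd)) (.ch (nat_lit 11) (.fin
 (nat_lit 576421719655793178)))))))) (.ch (nat_lit 10) (.ev (nat_lit 1616) (nat_lit 2686976) (.ev (nat_lit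
 3172) (nat_lit 68719476736) (.nd (nat_lit 3824) (.ch (nat_lit 2) (.nd (nat_lit 4561) (.ch (nat_lit 42) (.nd
 (nat_lit 4736) (.br (nat_lit 7) (.ch (nat_lit 0) (.fin (nat_lit 576518476649677452))) (.br (nat_lit 12) (.ch
 (nat_lit 7) (.ev (nat_lit 4752) (nat_lit 274882101248) .dd)) (.ch (nat_lit 12) (.ev (nat_lit 4752) (nat_lit
 274882101248) .dd)))))))))))))))))))))))) (.br (nat_lit 24) (.ch (nat_lit 23) (.ev (nat_lit 52) (nat_lit
 343600072738) (.ev (nat_lit 212) (nat_lit 8) (.ev (nat_lit 436) (nat_lit 17592186044416) (.ev (nat_lit 820)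
 (nat_lit 33554432) (.nd (nat_lit 1600) (.br (nat_lit 6) (.br (nat_lit 4) (.ch (nat_lit 2) (.ev (nat_lit 1616)
 (nat_lit 4398449168384) (.ev (nat_lit 3172) (nat_lit 536870912) (.ev (nat_lit 3268) (nat_lit 4295229440) (.ev
 (nat_lit 3508) (nat_lit 8589934592) (.ev (nat_lit 3517) (nat_lit 4194304) .dd)))))) (.br (nat_lit 5) (.ch
 (nat_lit 4) (.ev (nat_lit 1616) (nat_lit 4402480156672) (.ev (nat_lit 3172) (nat_lit 536870912) (.nd (nat_lit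
 3952) (.br (nat_lit 12) (.ch (nat_lit 11) (.fin (nat_lit 576342554627752372))) (.ch (nat_lit 12) (.ev (nat_lit
 3968) (nat_lit 8858370048) .dd))))))) (.ch (nat_lit 5) (.ev (nat_lit 1616) (nat_lit 13828624384) (.nd (nat_lit
 2864) (.br (nat_lit 11) (.ch (nat_lit 9) (.ev (nat_lit 2880) (nat_lit 262144) (.ev (nat_lit 2893) (nat_lit
 4398046511104) .dd))) (.br (nat_lit 12) (.ch (nat_lit 11) (.ev (nat_lit 2880) (nat_lit 262144) (.ev (nat_lit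
 2893) (nat_lit 4398046511104) .dd))) (.ch (nat_lit 12) (.ev (nat_lit 2896) (nat_lit 4398046511104) (.ev
 (nat_lit 2909) (nat_lit 262144) .dd)))))))))) (.br (nat_lit 9) (.ch (nat_lit 6) (.ev (nat_lit 1616) (nat_lit
 8728612864) (.ev (nat_lit 1684) (nat_lit 4398046511104) (.ev (nat_lit 3184) (nat_lit 4294967296) (.ev (nat_lit
 3328) (nat_lit 536870912) (.ev (nat_lit 3341) (nat_lit 268435456) .dd)))))) (.br (nat_lit 10) (.ch (nat_lit 9)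
 (.ev (nat_lit 1616) (nat_lit 4836294656) (.nd (nat_lit 2864) (.br (nat_lit 6) (.br (nat_lit 5) (.ch (nat_lit
 0) (.ev (nat_lit 2880) (nat_lit 8589938688) (.ev (nat_lit 3136) (nat_lit 4398449164288) .dd))) (.ch (nat_lit
 5) (.ev (nat_lit 2880) (nat_lit 4398180728832) (.ev (nat_lit 3040) (nat_lit 8589934592) (.ev (nat_lit 3268)
 (nat_lit 4096) (.ev (nat_lit 3277) (nat_lit 268435456) .dd)))))) (.br (nat_lit 9) (.ch (nat_lit 6) (.ev
 (nat_lit 2880) (nat_lit 8992587776) (.ev (nat_lit 2896) (nat_lit 4398046511104) (.ev (nat_lit 2909) (nat_lit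
 4096) .dd)))) (.br (nat_lit 10) (.ch (nat_lit 9) (.ev (nat_lit 2880) (nat_lit 8858374144) (.fin (nat_lit
 576474496186663492)))) (.ch (nat_lit 10) (.ev (nat_lit 2880) (nat_lit 8724156416) (.ev (nat_lit 3684) (nat_lit
 268435456) (.ev (nat_lit 3693) (nat_lit 4398046511104) .dd)))))))))) (.ch (nat_lit 10) (.ev (nat_lit 1616)
 (nat_lit 13287821312) (.ev (nat_lit 3040) (nat_lit 4398046511104) (.nd (nat_lit 3824) (.br (nat_lit 5) (.ch
 (nat_lit 2) (.ev (nat_lit 3840) (nat_lit 4194304) (.ev (nat_lit 3853) (nat_lit 536870912) .dd))) (.ch (nat_lit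
 5) (.fin (nat_lit 576430515667026452))))))))))))))))) (.br (nat_lit 26) (.ch (nat_lit 24) (.ev (nat_lit 52)
 (nat_lit 348060127266) (.ev (nat_lit 192) (nat_lit 21999634941960) .dd))) (.ch (nat_lit 26) (.ev (nat_lit 52)
 (nat_lit 82275733536) (.ev (nat_lit 148) (nat_lit 2097152) (.ev (nat_lit 340) (nat_lit 8) (.ev (nat_lit 436)
 (nat_lit 33554432) (.ev (nat_lit 928) (nat_lit 22265383684098) .dd))))))))) (.br (nat_lit 34) (.br (nat_lit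
 31) (.ch (nat_lit 29) (.ev (nat_lit 52) (nat_lit 4742182930434) (.ev (nat_lit 180) (nat_lit 8) (.ev (nat_lit
 448) (nat_lit 17605512138784) .dd)))) (.br (nat_lit 33) (.ch (nat_lit 31) (.ev (nat_lit 52) (nat_lit
 17673958457384) (.ev (nat_lit 84) (nat_lit 4398046511104) (.ev (nat_lit 276) (nat_lit 2048) (.ev (nat_lit 768)
 (nat_lit 275690098690) .dd))))) (.ch (nat_lit 33) (.ev (nat_lit 52) (nat_lit 4411336949760) (.ev (nat_lit 148)
 (nat_lit 4096) (.ev (nat_lit 404) (nat_lit 274877906944) (.ev (nat_lit 692) (nat_lit 2048) (.nd (nat_lit 1600)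
 (.br (nat_lit 2) (.br (nat_lit 1) (.ch (nat_lit 0) (.ev (nat_lit 1616) (nat_lit 17661480140810) (.ev (nat_lit
 3040) (nat_lit 32) (.ev (nat_lit 3053) (nat_lit 65536) .dd)))) (.ch (nat_lit 1) (.ev (nat_lit 1616) (nat_lit
 17661476012066) (.ev (nat_lit 3172) (nat_lit 4194304) (.ev (nat_lit 3181) (nat_lit 8) .dd))))) (.br (nat_lit
 4) (.ch (nat_lit 2) (.ev (nat_lit 1616) (nat_lit 17661446651946) (.ev (nat_lit 1629) (nat_lit 33554432) .dd)))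
 (.br (nat_lit 10) (.ch (nat_lit 4) (.ev (nat_lit 1616) (nat_lit 17592223858698) (.ev (nat_lit 2228) (nat_lit
 68719476736) (.ev (nat_lit 3316) (nat_lit 536870912) (.ev (nat_lit 3325) (nat_lit 32) .dd))))) (.ch (nat_lit
 10) (.ev (nat_lit 1616) (nat_lit 32) (.ev (nat_lit 3012) (nat_lit 17592186044416) (.ev (nat_lit 3184) (nat_lit
 2) (.nd (nat_lit 3792) (.br (nat_lit 2) (.ch (nat_lit 0) (.ev (nat_lit 3808) (nat_lit 574685184) (.fin
 (nat_lit 576544865155236508)))) (.br (nat_lit 5) (.ch (nat_lit 2) (.ev (nat_lit 3808) (nat_lit 69260541960)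
 (.fin (nat_lit 576456904017396268)))) (.ch (nat_lit 5) (.ev (nat_lit 3808) (nat_lit 68753096712) (.fin
 (nat_lit 576492088454496876)))))))))))))))))))))) (.br (nat_lit 36) (.ch (nat_lit 34) (.ev (nat_lit 52)
 (nat_lit 4746750986240) (.ev (nat_lit 532) (nat_lit 17592186044416) (.ev (nat_lit 960) (nat_lit 8758038570)
 .dd)))) (.br (nat_lit 38) (.ch (nat_lit 36) (.ev (nat_lit 52) (nat_lit 73988046856) (.ev (nat_lit 372)
 (nat_lit 2099200) (.ev (nat_lit 532) (nat_lit 32) (.nd (nat_lit 1600) (.br (nat_lit 9) (.br (nat_lit 6) (.ch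
 (nat_lit 5) (.ev (nat_lit 1616) (nat_lit 22265110532098) (.ev (nat_lit 3172) (nat_lit 262144) (.ev (nat_lit
 3524) (nat_lit 4194304) (.ev (nat_lit 3533) (nat_lit 8589934592) .dd))))) (.ch (nat_lit 6) (.ev (nat_lit 1616)
 (nat_lit 22265114984450) (.ev (nat_lit 3040) (nat_lit 8589934592) (.ev (nat_lit 3053) (nat_lit 4096) .dd)))))
 (.br (nat_lit 10) (.ch (nat_lit 9) (.ev (nat_lit 1616) (nat_lit 17600780505090) (.ev (nat_lit 1862) (nat_lit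
 4398046511104) (.ev (nat_lit 1869) (nat_lit 274877906944) .dd)))) (.br (nat_lit 12) (.ch (nat_lit 10) (.ev
 (nat_lit 1616) (nat_lit 8589934592) (.ev (nat_lit 3172) (nat_lit 65536) (.ev (nat_lit 3268) (nat_lit
 17592186044416) (.nd (nat_lit 3792) (.br (nat_lit 2) (.ch (nat_lit 0) (.ev (nat_lit 3808) (nat_lit
 274882105346) (.fin (nat_lit 576316166600343908)))) (.br (nat_lit 6) (.ch (nat_lit 2) (.ev (nat_lit 3808)
 (nat_lit 4398046777346) (.fin (nat_lit 576404127471845876)))) (.ch (nat_lit 6) (.ev (nat_lit 3808) (nat_lit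
 4672928874496) (.fin (nat_lit 576448107907596860))))))))))) (.ch (nat_lit 12) (.ev (nat_lit 1616) (nat_lit
 22273704923136) (.ev (nat_lit 1629) (nat_lit 2) .dd))))))))))) (.ch (nat_lit 38) (.ev (nat_lit 52) (nat_lit
 9131792394) (.ev (nat_lit 308) (nat_lit 4398046511104) (.ev (nat_lit 596) (nat_lit 17592219598848) (.ev
 (nat_lit 788) (nat_lit 134217728) (.ev (nat_lit 1172) (nat_lit 274877906944) (.nd (nat_lit 1600) (.br (nat_lit
 5) (.br (nat_lit 1) (.ch (nat_lit 0) (.ev (nat_lit 1616) (nat_lit 68987912192) (.ev (nat_lit 1684) (nat_lit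
 65536) (.ev (nat_lit 1760) (nat_lit 32) (.ev (nat_lit 3172) (nat_lit 4294967296) (.ev (nat_lit 3181) (nat_lit
 2097152) .dd)))))) (.br (nat_lit 2) (.ch (nat_lit 1) (.ev (nat_lit 1616) (nat_lit 73014444064) (.ev (nat_lit
 3136) (nat_lit 2097152) (.nd (nat_lit 4080) (.br (nat_lit 9) (.ch (nat_lit 6) (.fin (nat_lit
 576487690345071142))) (.ch (nat_lit 9) (.ev (nat_lit 4096) (nat_lit 268500992) .dd))))))) (.ch (nat_lit 2)
 (.ev (nat_lit 1616) (nat_lit 68987977760) (.ev (nat_lit 2912) (nat_lit 2097152) (.ev (nat_lit 2925) (nat_lit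
 4294967296) .dd)))))) (.br (nat_lit 6) (.ch (nat_lit 5) (.ev (nat_lit 1616) (nat_lit 68721639424) (.ev
 (nat_lit 1684) (nat_lit 4294967296) (.nd (nat_lit 2864) (.br (nat_lit 4) (.ch (nat_lit 3) (.ev (nat_lit 2880)
 (nat_lit 268435456) (.ev (nat_lit 2893) (nat_lit 32) .dd))) (.br (nat_lit 10) (.ch (nat_lit 4) (.ev (nat_lit
 2880) (nat_lit 32) (.ev (nat_lit 2893) (nat_lit 268435456) .dd))) (.ch (nat_lit 10) (.ev (nat_lit 2880)
 (nat_lit 268435488) .dd)))))))) (.br (nat_lit 12) (.ch (nat_lit 6) (.ev (nat_lit 1616) (nat_lit 2162720) (.ev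
 (nat_lit 3268) (nat_lit 4294967296) (.nd (nat_lit 4048) (.ch (nat_lit 6) (.nd (nat_lit 4673) (.br (nat_lit 34)
 (.br (nat_lit 11) (.ch (nat_lit 0) (.nd (nat_lit 4864) (.br (nat_lit 9) (.ch (nat_lit 1) (.fin (nat_lit
 576518476681134632))) (.br (nat_lit 10) (.ch (nat_lit 9) (.ev (nat_lit 4880) (nat_lit 68987912192) .dd)) (.ch
 (nat_lit 10) (.ev (nat_lit 4880) (nat_lit 68987912192) .dd)))))) (.br (nat_lit 33) (.ch (nat_lit 11) (.ev
 (nat_lit 4689) (nat_lit 68987912192) .dd)) (.ch (nat_lit 33) (.ev (nat_lit 4689) (nat_lit 68987912192) .dd))))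
 (.br (nat_lit 53) (.ch (nat_lit 34) (.ev (nat_lit 4689) (nat_lit 68987912192) .dd)) (.br (nat_lit 66) (.ch
 (nat_lit 53) (.ev (nat_lit 4689) (nat_lit 68987912192) .dd)) (.ch (nat_lit 66) (.ev (nat_lit 4689) (nat_lit
 68987912192) .dd))))))))))) (.ch (nat_lit 12) (.ev (nat_lit 1616) (nat_lit 4297130016) (.ev (nat_lit 1876)
 (nat_lit 68719476736) (.ev (nat_lit 1885) (nat_lit 268435456) .dd))))))))))))))))))) (.br (nat_lit 54) (.br
 (nat_lit 47) (.br (nat_lit 43) (.br (nat_lit 42) (.ch (nat_lit 39) (.ev (nat_lit 52) (nat_lit 22273741099008)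
 (.ev (nat_lit 500) (nat_lit 2) (.ev (nat_lit 756) (nat_lit 536870912) (.ev (nat_lit 1172) (nat_lit 8) (.nd
 (nat_lit 1600) (.br (nat_lit 5) (.br (nat_lit 2) (.ch (nat_lit 0) (.ev (nat_lit 1616) (nat_lit 73417099264)
 (.ev (nat_lit 1629) (nat_lit 32) .dd))) (.br (nat_lit 4) (.ch (nat_lit 2) (.ev (nat_lit 1616) (nat_lit
 134219808) (.ev (nat_lit 2228) (nat_lit 68719476736) (.ev (nat_lit 3172) (nat_lit 4294967296) (.ev (nat_lit
 3181) (nat_lit 268435456) .dd))))) (.ch (nat_lit 4) (.ev (nat_lit 1616) (nat_lit 402653184) (.ev (nat_lit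
 1780) (nat_lit 2048) (.ev (nat_lit 2228) (nat_lit 4294967296) (.ev (nat_lit 2896) (nat_lit 68719476736) (.ev
 (nat_lit 2909) (nat_lit 32) .dd)))))))) (.br (nat_lit 10) (.br (nat_lit 6) (.ch (nat_lit 5) (.ev (nat_lit
 1616) (nat_lit 68853696512) (.ev (nat_lit 1798) (nat_lit 4563402752) (.ev (nat_lit 1805) (nat_lit 32) .dd))))
 (.ch (nat_lit 6) (.ev (nat_lit 1616) (nat_lit 4429187104) (.nd (nat_lit 3792) (.br (nat_lit 6) (.ch (nat_lit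
 4) (.ev (nat_lit 3808) (nat_lit 68719476736) (.ev (nat_lit 3821) (nat_lit 268435456) .dd))) (.ch (nat_lit 6)
 (.fin (nat_lit 576404127440388696)))))))) (.br (nat_lit 12) (.ch (nat_lit 10) (.ev (nat_lit 1616) (nat_lit
 73282881568) (.ev (nat_lit 1629) (nat_lit 134217728) .dd))) (.ch (nat_lit 12) (.ev (nat_lit 1616) (nat_lit
 4294967328) (.ev (nat_lit 3088) (nat_lit 2048) (.ev (nat_lit 3424) (nat_lit 268435456) (.nd (nat_lit 4144)
 (.br (nat_lit 9) (.ch (nat_lit 0) (.ev (nat_lit 4160) (nat_lit 68853694464) .dd)) (.ch (nat_lit 9) (.fin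
 (nat_lit 576426117691818574)))))))))))))))))) (.ch (nat_lit 42) (.ev (nat_lit 52) (nat_lit 17948668334114)
 (.ev (nat_lit 116) (nat_lit 524288) (.ev (nat_lit 276) (nat_lit 35651584) (.ev (nat_lit 404) (nat_lit 4259840)
 (.ev (nat_lit 1568) (nat_lit 536870912) (.nd (nat_lit 1600) (.br (nat_lit 9) (.br (nat_lit 5) (.ch (nat_lit 0)
 (.ev (nat_lit 1616) (nat_lit 268699656) (.ev (nat_lit 3040) (nat_lit 4398180728832) .dd))) (.ch (nat_lit 5)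
 (.ev (nat_lit 1616) (nat_lit 134217736) (.ev (nat_lit 3012) (nat_lit 4398314946560) (.ev (nat_lit 3056)
 (nat_lit 262144) (.ev (nat_lit 3069) (nat_lit 2048) .dd)))))) (.br (nat_lit 10) (.ch (nat_lit 9) (.ev (nat_lit
 1616) (nat_lit 402915336) (.ev (nat_lit 3280) (nat_lit 4398046513152) .dd))) (.br (nat_lit 12) (.ch (nat_lit
 10) (.ev (nat_lit 1616) (nat_lit 4398449166344) (.ev (nat_lit 1629) (nat_lit 262144) .dd))) (.ch (nat_lit 12)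
 (.ev (nat_lit 1616) (nat_lit 4398315210752) (.fin (nat_lit 576593243593458424))))))))))))))) (.br (nat_lit 44)
 (.ch (nat_lit 43) (.ev (nat_lit 52) (nat_lit 17880486318090) (.ev (nat_lit 212) (nat_lit 4194304) (.ev
 (nat_lit 832) (nat_lit 4467204556832) .dd)))) (.br (nat_lit 46) (.ch (nat_lit 44) (.ev (nat_lit 52) (nat_lit
 4467168712704) (.ev (nat_lit 308) (nat_lit 17592186044416) (.ev (nat_lit 404) (nat_lit 536870912) (.ev
 (nat_lit 564) (nat_lit 33554432) (.ev (nat_lit 724) (nat_lit 262144) (.ev (nat_lit 788) (nat_lit 524288) (.ev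
 (nat_lit 852) (nat_lit 274877906944) (.ev (nat_lit 948) (nat_lit 4194304) (.nd (nat_lit 1600) (.br (nat_lit 6)
 (.br (nat_lit 1) (.ch (nat_lit 0) (.ev (nat_lit 1616) (nat_lit 8592031754) (.ev (nat_lit 3040) (nat_lit
 4294967296) (.ev (nat_lit 3053) (nat_lit 32) .dd)))) (.br (nat_lit 2) (.ch (nat_lit 1) (.ev (nat_lit 1616)
 (nat_lit 12884901922) (.ev (nat_lit 1664) (nat_lit 8) (.ev (nat_lit 1677) (nat_lit 2097152) .dd)))) (.ch
 (nat_lit 2) (.ev (nat_lit 1616) (nat_lit 12884901930) (.ev (nat_lit 1629) (nat_lit 2097152) .dd))))) (.br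
 (nat_lit 10) (.br (nat_lit 9) (.ch (nat_lit 6) (.ev (nat_lit 1616) (nat_lit 12886999082) .dd)) (.ch (nat_lit
 9) (.ev (nat_lit 1616) (nat_lit 4294967336) (.ev (nat_lit 1664) (nat_lit 2) (.ev (nat_lit 3024) (nat_lit
 2097152) (.ev (nat_lit 3037) (nat_lit 8589934592) .dd)))))) (.br (nat_lit 12) (.ch (nat_lit 10) (.ev (nat_lit
 1616) (nat_lit 12886999050) (.ev (nat_lit 1629) (nat_lit 32) .dd))) (.ch (nat_lit 12) (.ev (nat_lit 1616)
 (nat_lit 12886999072) (.ev (nat_lit 1684) (nat_lit 2) (.ev (nat_lit 1693) (nat_lit 8) .dd)))))))))))))))))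
 (.ch (nat_lit 46) (.ev (nat_lit 52) (nat_lit 5138618402) (.ev (nat_lit 564) (nat_lit 4398046511104) (.ev
 (nat_lit 756) (nat_lit 134217728) (.ev (nat_lit 1152) (nat_lit 17944375721992) .dd)))))))) (.br (nat_lit 50)
 (.br (nat_lit 48) (.ch (nat_lit 47) (.ev (nat_lit 52) (nat_lit 4673463719938) (.ev (nat_lit 212) (nat_lit
 134217728) (.ev (nat_lit 308) (nat_lit 33554432) (.ev (nat_lit 340) (nat_lit 524288) (.ev (nat_lit 596)
 (nat_lit 4294967296) (.ev (nat_lit 820) (nat_lit 17592186044416) (.ev (nat_lit 948) (nat_lit 268435456) (.ev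
 (nat_lit 1488) (nat_lit 4194304) (.nd (nat_lit 1600) (.br (nat_lit 4) (.br (nat_lit 1) (.ch (nat_lit 0) (.ev
 (nat_lit 1616) (nat_lit 77309411368) .dd)) (.br (nat_lit 2) (.ch (nat_lit 1) (.ev (nat_lit 1616) (nat_lit
 77309411360) (.ev (nat_lit 1629) (nat_lit 8) .dd))) (.ch (nat_lit 2) (.ev (nat_lit 1616) (nat_lit 8589934632)
 (.ev (nat_lit 1629) (nat_lit 68719476736) .dd))))) (.br (nat_lit 10) (.ch (nat_lit 4) (.ev (nat_lit 1616)
 (nat_lit 8) (.ev (nat_lit 1780) (nat_lit 8589934592) (.ev (nat_lit 3620) (nat_lit 32) (.ev (nat_lit 3629)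
 (nat_lit 68719476736) .dd))))) (.br (nat_lit 12) (.ch (nat_lit 10) (.ev (nat_lit 1616) (nat_lit 8589934592)
 (.ev (nat_lit 3748) (nat_lit 32) (.nd (nat_lit 3888) (.br (nat_lit 2) (.ch (nat_lit 0) (.fin (nat_lit
 576377738966286820))) (.ch (nat_lit 2) (.ev (nat_lit 3904) (nat_lit 8) (.ev (nat_lit 3917) (nat_lit
 68719476736) .dd)))))))) (.ch (nat_lit 12) (.ev (nat_lit 1684) (nat_lit 8589934592) (.ev (nat_lit 2564)
 (nat_lit 68719476736) (.ev (nat_lit 3152) (nat_lit 40) .dd))))))))))))))))) (.br (nat_lit 49) (.ch (nat_lit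
 48) (.ev (nat_lit 52) (nat_lit 17661579038752) (.ev (nat_lit 320) (nat_lit 4686116030474) .dd))) (.ch (nat_lit
 49) (.ev (nat_lit 52) (nat_lit 4403052414984) (.ev (nat_lit 84) (nat_lit 32) (.ev (nat_lit 244) (nat_lit
 262144) (.ev (nat_lit 980) (nat_lit 65536) (.ev (nat_lit 1172) (nat_lit 8589934592) (.nd (nat_lit 1600) (.br
 (nat_lit 6) (.br (nat_lit 4) (.ch (nat_lit 1) (.ev (nat_lit 1616) (nat_lit 17867332915202) (.ev (nat_lit 1629)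
 (nat_lit 68719476736) .dd))) (.br (nat_lit 5) (.ch (nat_lit 4) (.ev (nat_lit 1616) (nat_lit 343597912064) (.ev
 (nat_lit 3172) (nat_lit 2) (.ev (nat_lit 3316) (nat_lit 17592186044416) (.ev (nat_lit 3325) (nat_lit
 268435456) .dd))))) (.ch (nat_lit 5) (.ev (nat_lit 1616) (nat_lit 17661173960704) (.nd (nat_lit 2864) (.br
 (nat_lit 9) (.br (nat_lit 8) (.ch (nat_lit 4) (.ev (nat_lit 2880) (nat_lit 274878431234) .dd)) (.ch (nat_lit
 8) (.ev (nat_lit 2880) (nat_lit 2) (.fin (nat_lit 576448108079563488))))) (.br (nat_lit 11) (.ch (nat_lit 9)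
 (.ev (nat_lit 2880) (nat_lit 524288) (.ev (nat_lit 3088) (nat_lit 274877906944) (.ev (nat_lit 3101) (nat_lit
 2) .dd)))) (.br (nat_lit 12) (.ch (nat_lit 11) (.ev (nat_lit 2880) (nat_lit 274878431232) (.ev (nat_lit 2893)
 (nat_lit 2) .dd))) (.ch (nat_lit 12) (.ev (nat_lit 2880) (nat_lit 2) (.ev (nat_lit 3056) (nat_lit
 274878431232) .dd))))))))))) (.br (nat_lit 9) (.ch (nat_lit 6) (.ev (nat_lit 1616) (nat_lit 268959746) (.ev
 (nat_lit 1696) (nat_lit 4096) (.ev (nat_lit 2116) (nat_lit 17592186044416) (.ev (nat_lit 2182) (nat_lit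
 68719476736) (.ev (nat_lit 2189) (nat_lit 274877906944) .dd)))))) (.br (nat_lit 12) (.ch (nat_lit 9) (.ev
 (nat_lit 1616) (nat_lit 17935783432194) (.ev (nat_lit 1684) (nat_lit 524288) (.ev (nat_lit 1693) (nat_lit
 268435456) .dd)))) (.ch (nat_lit 12) (.ev (nat_lit 1616) (nat_lit 17935783956482) (.ev (nat_lit 1629) (nat_lit
 268435456) .dd))))))))))))))) (.br (nat_lit 51) (.ch (nat_lit 50) (.ev (nat_lit 52) (nat_lit 4406636451848)
 (.ev (nat_lit 116) (nat_lit 4194304) (.ev (nat_lit 180) (nat_lit 268435456) (.ev (nat_lit 276) (nat_lit 2)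
 (.ev (nat_lit 1012) (nat_lit 68719476736) (.ev (nat_lit 1044) (nat_lit 17592186306560) (.nd (nat_lit 1600)
 (.br (nat_lit 5) (.br (nat_lit 2) (.ch (nat_lit 0) (.ev (nat_lit 1616) (nat_lit 570949664) (.ev (nat_lit 1684)
 (nat_lit 4294967296) (.ev (nat_lit 3412) (nat_lit 2097152) (.ev (nat_lit 3684) (nat_lit 274877906944) (.nd
 (nat_lit 4144) (.br (nat_lit 7) (.ch (nat_lit 0) (.fin (nat_lit 576456903998521908))) (.ch (nat_lit 7) (.ev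
 (nat_lit 4160) (nat_lit 134283264) .dd))))))))) (.br (nat_lit 4) (.ch (nat_lit 2) (.ev (nat_lit 1616) (nat_lit
 4966645792) (.ev (nat_lit 2896) (nat_lit 33554432) (.ev (nat_lit 3172) (nat_lit 274877906944) (.ev (nat_lit
 3181) (nat_lit 2097152) .dd))))) (.ch (nat_lit 4) (.ev (nat_lit 1616) (nat_lit 275012714528) (.ev (nat_lit
 1780) (nat_lit 2097152) (.ev (nat_lit 2420) (nat_lit 4294967296) (.ev (nat_lit 2896) (nat_lit 33554432) (.ev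
 (nat_lit 2909) (nat_lit 536870912) .dd)))))))) (.br (nat_lit 10) (.br (nat_lit 6) (.ch (nat_lit 5) (.ev
 (nat_lit 1616) (nat_lit 673775648) (.ev (nat_lit 2240) (nat_lit 33554432) (.ev (nat_lit 2896) (nat_lit
 274877906944) (.ev (nat_lit 2909) (nat_lit 4294967296) .dd))))) (.ch (nat_lit 6) (.ev (nat_lit 1616) (nat_lit
 279880204320) .dd))) (.br (nat_lit 12) (.ch (nat_lit 10) (.ev (nat_lit 1616) (nat_lit 4463329280) (.ev
 (nat_lit 3200) (nat_lit 536870912) (.ev (nat_lit 3652) (nat_lit 274877906944) (.nd (nat_lit 3856) (.br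
 (nat_lit 6) (.ch (nat_lit 2) (.ev (nat_lit 3872) (nat_lit 32) (.ev (nat_lit 3885) (nat_lit 2097152) .dd)))
 (.ch (nat_lit 6) (.fin (nat_lit 576465700154458678))))))))) (.ch (nat_lit 12) (.ev (nat_lit 1616) (nat_lit
 279879680000) (.ev (nat_lit 2912) (nat_lit 524288) (.ev (nat_lit 2925) (nat_lit 32) .dd))))))))))))))) (.br
 (nat_lit 53) (.ch (nat_lit 51) (.ev (nat_lit 52) (nat_lit 4475664990208) (.ev (nat_lit 180) (nat_lit
 671088640) (.ev (nat_lit 500) (nat_lit 4096) (.ev (nat_lit 756) (nat_lit 274877906944) (.nd (nat_lit 1600)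
 (.br (nat_lit 6) (.br (nat_lit 2) (.ch (nat_lit 0) (.ev (nat_lit 1616) (nat_lit 17592186046506) (.ev (nat_lit
 3268) (nat_lit 65536) (.ev (nat_lit 3277) (nat_lit 4294967296) .dd)))) (.br (nat_lit 4) (.ch (nat_lit 2) (.ev
 (nat_lit 1616) (nat_lit 17596481079338) .dd)) (.ch (nat_lit 4) (.ev (nat_lit 1616) (nat_lit 67594) (.ev
 (nat_lit 2976) (nat_lit 17592186044416) (.ev (nat_lit 3316) (nat_lit 4294967296) (.ev (nat_lit 3325) (nat_lit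
 32) .dd))))))) (.br (nat_lit 9) (.ch (nat_lit 6) (.ev (nat_lit 1616) (nat_lit 4295034922) (.ev (nat_lit 1629)
 (nat_lit 17592186044416) .dd))) (.br (nat_lit 12) (.ch (nat_lit 9) (.ev (nat_lit 1616) (nat_lit
 17596481011744) (.nd (nat_lit 2864) (.br (nat_lit 11) (.ch (nat_lit 9) (.ev (nat_lit 2880) (nat_lit 65546)
 (.ev (nat_lit 2893) (nat_lit 2048) .dd))) (.br (nat_lit 12) (.ch (nat_lit 11) (.ev (nat_lit 2880) (nat_lit
 2048) (.ev (nat_lit 3012) (nat_lit 10) (.ev (nat_lit 3021) (nat_lit 65536) .dd)))) (.ch (nat_lit 12) (.ev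
 (nat_lit 2880) (nat_lit 65544) (.ev (nat_lit 3012) (nat_lit 2048) (.ev (nat_lit 3021) (nat_lit 2) .dd)))))))))
 (.ch (nat_lit 12) (.ev (nat_lit 1616) (nat_lit 17596481077258) (.ev (nat_lit 3172) (nat_lit 32) (.ev (nat_lit
 3181) (nat_lit 2048) .dd))))))))))))) (.ch (nat_lit 53) (.ev (nat_lit 52) (nat_lit 348028930082) (.ev (nat_lit
 116) (nat_lit 536870912) (.ev (nat_lit 212) (nat_lit 8589934592) (.ev (nat_lit 596) (nat_lit 4398046511104)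
 (.ev (nat_lit 788) (nat_lit 4194304) (.nd (nat_lit 1600) (.br (nat_lit 9) (.br (nat_lit 2) (.ch (nat_lit 0)
 (.ev (nat_lit 1616) (nat_lit 17592488624136) (.ev (nat_lit 1629) (nat_lit 4096) .dd))) (.br (nat_lit 4) (.ch
 (nat_lit 2) (.ev (nat_lit 1616) (nat_lit 17592186638344) (.ev (nat_lit 2912) (nat_lit 33554432) (.ev (nat_lit
 2925) (nat_lit 268435456) .dd)))) (.ch (nat_lit 4) (.ev (nat_lit 1616) (nat_lit 268505096) (.ev (nat_lit 1712)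
 (nat_lit 524288) (.fin (nat_lit 576580049139352268))))))) (.br (nat_lit 10) (.ch (nat_lit 9) (.ev (nat_lit
 1616) (nat_lit 34144264) (.ev (nat_lit 3136) (nat_lit 268435456) (.ev (nat_lit 3268) (nat_lit 17592186044416)
 (.ev (nat_lit 3277) (nat_lit 4096) .dd))))) (.br (nat_lit 12) (.ch (nat_lit 10) (.ev (nat_lit 1616) (nat_lit
 268959744) (.ev (nat_lit 3172) (nat_lit 8) (.ev (nat_lit 3380) (nat_lit 4096) (.ev (nat_lit 3412) (nat_lit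
 17592186044416) (.nd (nat_lit 3856) (.ch (nat_lit 2) (.nd (nat_lit 4609) (.br (nat_lit 44) (.ch (nat_lit 30)
 (.nd (nat_lit 4800) (.br (nat_lit 9) (.ch (nat_lit 7) (.ev (nat_lit 4816) (nat_lit 33619968) .dd)) (.br
 (nat_lit 12) (.ch (nat_lit 9) (.fin (nat_lit 576456904017396268))) (.ch (nat_lit 12) (.ev (nat_lit 4816)
 (nat_lit 33619968) .dd)))))) (.br (nat_lit 53) (.ch (nat_lit 44) (.ev (nat_lit 4625) (nat_lit 33619968) .dd))
 (.ch (nat_lit 53) (.ev (nat_lit 4625) (nat_lit 33619968) .dd)))))))))))) (.ch (nat_lit 12) (.ev (nat_lit 1616)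
 (nat_lit 17592186114056) (.ev (nat_lit 1684) (nat_lit 524288) (.ev (nat_lit 3172) (nat_lit 33554432) (.ev
 (nat_lit 3181) (nat_lit 268435456) .dd))))))))))))))))))) (.br (nat_lit 64) (.br (nat_lit 57) (.br (nat_lit
 55) (.ch (nat_lit 54) (.ev (nat_lit 52) (nat_lit 4677890738186) (.ev (nat_lit 212) (nat_lit 268435456) (.ev
 (nat_lit 244) (nat_lit 4128) (.ev (nat_lit 948) (nat_lit 524288) (.ev (nat_lit 1504) (nat_lit 4194304) (.nd
 (nat_lit 1600) (.br (nat_lit 4) (.br (nat_lit 2) (.ch (nat_lit 1) (.ev (nat_lit 1616) (nat_lit 17600809533440)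
 (.ev (nat_lit 3024) (nat_lit 68719476736) (.ev (nat_lit 3268) (nat_lit 65536) (.ev (nat_lit 3277) (nat_lit
 2097152) .dd))))) (.ch (nat_lit 2) (.ev (nat_lit 1616) (nat_lit 8592097280) (.ev (nat_lit 2928) (nat_lit
 68719476736) (.ev (nat_lit 3216) (nat_lit 17592186044416) (.ev (nat_lit 3229) (nat_lit 33554432) .dd))))))
 (.br (nat_lit 9) (.ch (nat_lit 4) (.ev (nat_lit 1616) (nat_lit 68719476736) (.ev (nat_lit 1684) (nat_lit
 17592186044416) (.ev (nat_lit 2896) (nat_lit 65536) (.ev (nat_lit 3120) (nat_lit 8589934592) (.ev (nat_lit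
 3268) (nat_lit 33554432) (.ev (nat_lit 3277) (nat_lit 2097152) .dd))))))) (.br (nat_lit 12) (.ch (nat_lit 9)
 (.ev (nat_lit 1616) (nat_lit 17660939075584) (.ev (nat_lit 2656) (nat_lit 2097152) (.nd (nat_lit 3792) (.br
 (nat_lit 12) (.ch (nat_lit 5) (.fin (nat_lit 576426117459034636))) (.ch (nat_lit 12) (.ev (nat_lit 3808)
 (nat_lit 8590000128) .dd))))))) (.ch (nat_lit 12) (.ev (nat_lit 1616) (nat_lit 17592221761536) (.ev (nat_lit
 1684) (nat_lit 8589934592) (.ev (nat_lit 1693) (nat_lit 68719476736) .dd)))))))))))))) (.ch (nat_lit 55) (.ev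
 (nat_lit 52) (nat_lit 275453118474) (.ev (nat_lit 372) (nat_lit 4398046511104) (.ev (nat_lit 500) (nat_lit
 17592186044416) (.ev (nat_lit 788) (nat_lit 268435456) (.ev (nat_lit 1172) (nat_lit 68719476736) (.nd (nat_lit
 1600) (.br (nat_lit 6) (.br (nat_lit 1) (.ch (nat_lit 0) (.ev (nat_lit 1616) (nat_lit 13021216768) (.ev
 (nat_lit 3232) (nat_lit 4096) (.ev (nat_lit 3268) (nat_lit 262144) (.ev (nat_lit 3277) (nat_lit 32) .dd)))))
 (.br (nat_lit 5) (.ch (nat_lit 1) (.ev (nat_lit 1616) (nat_lit 13021220896) (.ev (nat_lit 1629) (nat_lit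
 262144) .dd))) (.ch (nat_lit 5) (.ev (nat_lit 1616) (nat_lit 134483968) (.nd (nat_lit 2864) (.br (nat_lit 4)
 (.ch (nat_lit 3) (.ev (nat_lit 2880) (nat_lit 12884901920) (.ev (nat_lit 2893) (nat_lit 2097152) .dd))) (.br
 (nat_lit 10) (.ch (nat_lit 4) (.ev (nat_lit 2880) (nat_lit 12884901920) (.ev (nat_lit 2893) (nat_lit 2097152)
 .dd))) (.ch (nat_lit 10) (.ev (nat_lit 2880) (nat_lit 2097152) (.ev (nat_lit 2912) (nat_lit 8589934592) (.ev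
 (nat_lit 3012) (nat_lit 32) (.ev (nat_lit 3021) (nat_lit 4294967296) .dd)))))))))))) (.br (nat_lit 9) (.ch
 (nat_lit 6) (.ev (nat_lit 1616) (nat_lit 8726511648) (.ev (nat_lit 1664) (nat_lit 4096) (.ev (nat_lit 1677)
 (nat_lit 4294967296) .dd)))) (.br (nat_lit 10) (.ch (nat_lit 9) (.ev (nat_lit 1616) (nat_lit 12885168160) (.ev
 (nat_lit 3012) (nat_lit 2097152) (.ev (nat_lit 3021) (nat_lit 134217728) .dd)))) (.ch (nat_lit 10) (.ev
 (nat_lit 1616) (nat_lit 13019119616) (.ev (nat_lit 3056) (nat_lit 4096) (.ev (nat_lit 3184) (nat_lit 2097152)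
 (.ev (nat_lit 3268) (nat_lit 32) (.ev (nat_lit 3277) (nat_lit 262144) .dd))))))))))))))))) (.br (nat_lit 58)
 (.ch (nat_lit 57) (.ev (nat_lit 52) (nat_lit 17601044746248) (.ev (nat_lit 84) (nat_lit 4294967296) (.ev
 (nat_lit 116) (nat_lit 274877906944) (.ev (nat_lit 244) (nat_lit 2048) (.ev (nat_lit 276) (nat_lit
 4398046511104) (.ev (nat_lit 340) (nat_lit 68719476736) (.ev (nat_lit 564) (nat_lit 2097152) (.nd (nat_lit
 1600) (.br (nat_lit 6) (.br (nat_lit 1) (.ch (nat_lit 0) (.ev (nat_lit 1616) (nat_lit 709361698) .dd)) (.br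
 (nat_lit 5) (.ch (nat_lit 1) (.ev (nat_lit 1616) (nat_lit 570949666) (.ev (nat_lit 2944) (nat_lit 134217728)
 (.ev (nat_lit 2957) (nat_lit 4194304) .dd)))) (.ch (nat_lit 5) (.ev (nat_lit 1616) (nat_lit 675282944) (.ev
 (nat_lit 1684) (nat_lit 32) (.ev (nat_lit 2260) (nat_lit 33554432) (.ev (nat_lit 2912) (nat_lit 2) (.ev
 (nat_lit 2925) (nat_lit 524288) .dd)))))))) (.br (nat_lit 10) (.ch (nat_lit 6) (.ev (nat_lit 1616) (nat_lit
 705167394) (.ev (nat_lit 1629) (nat_lit 4194304) .dd))) (.br (nat_lit 12) (.ch (nat_lit 10) (.ev (nat_lit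
 1616) (nat_lit 4194338) (.ev (nat_lit 2454) (nat_lit 536870912) (.ev (nat_lit 3232) (nat_lit 33554432) (.fin
 (nat_lit 576474496163594850)))))) (.ch (nat_lit 12) (.ev (nat_lit 1616) (nat_lit 138412034) (.ev (nat_lit
 1684) (nat_lit 536870944) (.ev (nat_lit 3380) (nat_lit 33554432) (.ev (nat_lit 3389) (nat_lit 524288)
 .dd))))))))))))))))) (.br (nat_lit 62) (.ch (nat_lit 58) (.ev (nat_lit 52) (nat_lit 17936089878528) (.ev
 (nat_lit 436) (nat_lit 4398046511104) (.ev (nat_lit 468) (nat_lit 65536) (.ev (nat_lit 788) (nat_lit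
 536870912) (.ev (nat_lit 1012) (nat_lit 134217728) (.nd (nat_lit 1600) (.br (nat_lit 4) (.br (nat_lit 1) (.ch
 (nat_lit 0) (.ev (nat_lit 1616) (nat_lit 12885428266) (.ev (nat_lit 1629) (nat_lit 2097152) .dd))) (.br
 (nat_lit 2) (.ch (nat_lit 1) (.ev (nat_lit 1616) (nat_lit 12886999082) (.ev (nat_lit 1712) (nat_lit 524288)
 (.ev (nat_lit 1725) (nat_lit 2048) .dd)))) (.ch (nat_lit 2) (.ev (nat_lit 1616) (nat_lit 4297590826) (.ev
 (nat_lit 1629) (nat_lit 8589934592) .dd))))) (.br (nat_lit 5) (.ch (nat_lit 4) (.ev (nat_lit 1616) (nat_lit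
 8592031752) (.ev (nat_lit 1780) (nat_lit 2) (.ev (nat_lit 1972) (nat_lit 2048) (.ev (nat_lit 2944) (nat_lit
 32) (.ev (nat_lit 3172) (nat_lit 524288) (.ev (nat_lit 3181) (nat_lit 4294967296) .dd))))))) (.br (nat_lit 9)
 (.ch (nat_lit 5) (.ev (nat_lit 1616) (nat_lit 8590458920) (.ev (nat_lit 2388) (nat_lit 2097152) (.ev (nat_lit
 3216) (nat_lit 2) (.nd (nat_lit 3952) (.br (nat_lit 10) (.ch (nat_lit 4) (.ev (nat_lit 3968) (nat_lit
 4294969344) .dd)) (.ch (nat_lit 10) (.fin (nat_lit 576500884492993126))))))))) (.ch (nat_lit 9) (.ev (nat_lit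
 1616) (nat_lit 4295493664) (.ev (nat_lit 2726) (nat_lit 2) (.ev (nat_lit 3172) (nat_lit 8) (.ev (nat_lit 3296)
 (nat_lit 8592031744) .dd))))))))))))))) (.ch (nat_lit 62) (.ev (nat_lit 52) (nat_lit 22003792807944) (.ev
 (nat_lit 148) (nat_lit 32) (.ev (nat_lit 244) (nat_lit 2097152) (.ev (nat_lit 1044) (nat_lit 33554432) (.nd
 (nat_lit 1600) (.br (nat_lit 6) (.br (nat_lit 2) (.ch (nat_lit 1) (.ev (nat_lit 1616) (nat_lit 275146346498)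
 (.ev (nat_lit 1684) (nat_lit 262144) (.ev (nat_lit 3670) (nat_lit 68720001024) .dd)))) (.br (nat_lit 5) (.ch
 (nat_lit 2) (.ev (nat_lit 1616) (nat_lit 790530) (.ev (nat_lit 1684) (nat_lit 274877906944) (.ev (nat_lit
 3040) (nat_lit 268435456) (.ev (nat_lit 3053) (nat_lit 68719476736) .dd))))) (.ch (nat_lit 5) (.ev (nat_lit
 1616) (nat_lit 68988178432) (.ev (nat_lit 1940) (nat_lit 2) (.nd (nat_lit 3760) (.br (nat_lit 12) (.ch
 (nat_lit 8) (.fin (nat_lit 576474496041959840))) (.ch (nat_lit 12) (.ev (nat_lit 3776) (nat_lit 524288) (.ev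
 (nat_lit 3789) (nat_lit 274877906944) .dd)))))))))) (.br (nat_lit 9) (.ch (nat_lit 6) (.ev (nat_lit 1616)
 (nat_lit 268697602) (.ev (nat_lit 3328) (nat_lit 4096) (.ev (nat_lit 3380) (nat_lit 524288) (.ev (nat_lit
 3636) (nat_lit 274877906944) (.ev (nat_lit 3645) (nat_lit 68719476736) .dd)))))) (.br (nat_lit 10) (.ch
 (nat_lit 9) (.ev (nat_lit 1616) (nat_lit 68720267264) (.ev (nat_lit 1760) (nat_lit 268435456) (.ev (nat_lit
 2528) (nat_lit 2) (.ev (nat_lit 2541) (nat_lit 274877906944) .dd))))) (.ch (nat_lit 10) (.ev (nat_lit 1616)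
 (nat_lit 275146866690) (.ev (nat_lit 2470) (nat_lit 4096) (.ev (nat_lit 3012) (nat_lit 262144) (.ev (nat_lit
 3021) (nat_lit 68719476736) .dd))))))))))))))))) (.br (nat_lit 68) (.br (nat_lit 65) (.ch (nat_lit 64) (.ev
 (nat_lit 52) (nat_lit 4746475735074) (.ev (nat_lit 84) (nat_lit 17592186044416) (.ev (nat_lit 276) (nat_lit
 262144) (.ev (nat_lit 532) (nat_lit 4096) (.nd (nat_lit 1600) (.br (nat_lit 5) (.br (nat_lit 2) (.ch (nat_lit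
 1) (.ev (nat_lit 1616) (nat_lit 8629780488) (.ev (nat_lit 3024) (nat_lit 134217728) (.ev (nat_lit 3172)
 (nat_lit 524288) (.fin (nat_lit 576487690345071142)))))) (.br (nat_lit 4) (.ch (nat_lit 2) (.ev (nat_lit 1616)
 (nat_lit 8993177608) (.ev (nat_lit 1664) (nat_lit 33554432) (.ev (nat_lit 2832) (nat_lit 4194304) (.ev
 (nat_lit 2845) (nat_lit 2097152) .dd))))) (.ch (nat_lit 4) (.ev (nat_lit 1616) (nat_lit 171966472) (.ev
 (nat_lit 1684) (nat_lit 524288) (.ev (nat_lit 2944) (nat_lit 8589934592) (.ev (nat_lit 3012) (nat_lit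
 268500992) (.ev (nat_lit 3021) (nat_lit 2097152) .dd)))))))) (.br (nat_lit 10) (.ch (nat_lit 5) (.ev (nat_lit
 1616) (nat_lit 170459136) (.nd (nat_lit 2864) (.br (nat_lit 3) (.ch (nat_lit 0) (.ev (nat_lit 2880) (nat_lit
 8594128896) (.ev (nat_lit 3392) (nat_lit 8) (.ev (nat_lit 3405) (nat_lit 268435456) .dd)))) (.br (nat_lit 4)
 (.ch (nat_lit 3) (.ev (nat_lit 2880) (nat_lit 8858370056) (.ev (nat_lit 2893) (nat_lit 4194304) .dd))) (.ch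
 (nat_lit 4) (.ev (nat_lit 2880) (nat_lit 4194304) (.ev (nat_lit 3280) (nat_lit 268435456) (.ev (nat_lit 3446)
 (nat_lit 8589934600) .dd))))))))) (.br (nat_lit 12) (.ch (nat_lit 10) (.ev (nat_lit 1616) (nat_lit 8864727040)
 (.ev (nat_lit 2992) (nat_lit 8) (.ev (nat_lit 3024) (nat_lit 33554432) (.ev (nat_lit 3172) (nat_lit 524288)
 (.ev (nat_lit 3181) (nat_lit 134217728) .dd)))))) (.ch (nat_lit 12) (.ev (nat_lit 1616) (nat_lit 8865251328)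
 (.ev (nat_lit 3232) (nat_lit 33554432) (.fin (nat_lit 576329360528064904)))))))))))))) (.br (nat_lit 67) (.ch
 (nat_lit 65) (.ev (nat_lit 52) (nat_lit 21998956775432) (.ev (nat_lit 96) (nat_lit 348738293794) .dd))) (.ch
 (nat_lit 67) (.ev (nat_lit 52) (nat_lit 283508017194) (.ev (nat_lit 116) (nat_lit 68719476736) (.ev (nat_lit
 180) (nat_lit 524288) (.ev (nat_lit 212) (nat_lit 536870912) (.ev (nat_lit 532) (nat_lit 4398046511104) (.ev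
 (nat_lit 948) (nat_lit 134217728) (.nd (nat_lit 1600) (.br (nat_lit 5) (.br (nat_lit 2) (.ch (nat_lit 0) (.ev
 (nat_lit 1616) (nat_lit 17592454483968) (.ev (nat_lit 1629) (nat_lit 4294967296) .dd))) (.br (nat_lit 4) (.ch
 (nat_lit 2) (.ev (nat_lit 1616) (nat_lit 4096) (.ev (nat_lit 1648) (nat_lit 268435456) (.ev (nat_lit 3056)
 (nat_lit 4294967296) (.ev (nat_lit 3069) (nat_lit 17592186044416) .dd))))) (.ch (nat_lit 4) (.ev (nat_lit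
 1616) (nat_lit 4563406848) (.ev (nat_lit 1629) (nat_lit 17592186044416) .dd))))) (.br (nat_lit 6) (.ch
 (nat_lit 5) (.ev (nat_lit 1616) (nat_lit 17596481015808) (.ev (nat_lit 1629) (nat_lit 268435456) .dd))) (.br
 (nat_lit 9) (.ch (nat_lit 6) (.ev (nat_lit 1616) (nat_lit 17592454479872) (.ev (nat_lit 1910) (nat_lit 4096)
 (.ev (nat_lit 1917) (nat_lit 4294967296) .dd)))) (.ch (nat_lit 9) (.ev (nat_lit 1616) (nat_lit 17596749447168)
 (.ev (nat_lit 1629) (nat_lit 4096) .dd)))))))))))))))) (.br (nat_lit 69) (.ch (nat_lit 68) (.ev (nat_lit 52)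
 (nat_lit 4741644228640) (.ev (nat_lit 148) (nat_lit 33554432) (.ev (nat_lit 244) (nat_lit 17592186044416) (.ev
 (nat_lit 308) (nat_lit 2097152) (.ev (nat_lit 852) (nat_lit 524288) (.ev (nat_lit 980) (nat_lit 134217728)
 (.ev (nat_lit 1012) (nat_lit 4194304) (.ev (nat_lit 1044) (nat_lit 2) (.ev (nat_lit 1440) (nat_lit 4831838208)
 (.nd (nat_lit 1600) (.br (nat_lit 4) (.br (nat_lit 1) (.ch (nat_lit 0) (.ev (nat_lit 1616) (nat_lit
 8858370056) .dd)) (.ch (nat_lit 1) (.ev (nat_lit 1616) (nat_lit 8858370048) (.ev (nat_lit 1629) (nat_lit 8)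
 .dd)))) (.br (nat_lit 10) (.ch (nat_lit 4) (.ev (nat_lit 1616) (nat_lit 8) (.fin (nat_lit
 576580049493770956)))) (.br (nat_lit 12) (.ch (nat_lit 10) (.ev (nat_lit 1616) (nat_lit 8858370048) (.ev
 (nat_lit 1629) (nat_lit 8) .dd))) (.ch (nat_lit 12) (.ev (nat_lit 1616) (nat_lit 8589934600) (.ev (nat_lit
 1629) (nat_lit 268435456) .dd))))))))))))))))) (.br (nat_lit 70) (.ch (nat_lit 69) (.ev (nat_lit 52) (nat_lit
 17605480679426) (.ev (nat_lit 736) (nat_lit 4742214389800) .dd))) (.ch (nat_lit 70) (.ev (nat_lit 52) (nat_lit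
 17661744648192) (.ev (nat_lit 436) (nat_lit 2) (.ev (nat_lit 468) (nat_lit 8) (.ev (nat_lit 724) (nat_lit
 2097152) (.ev (nat_lit 756) (nat_lit 8589934592) (.nd (nat_lit 1600) (.br (nat_lit 2) (.br (nat_lit 1) (.ch
 (nat_lit 0) (.ev (nat_lit 1616) (nat_lit 4299687936) (.ev (nat_lit 2912) (nat_lit 274877906944) (.ev (nat_lit
 3088) (nat_lit 32) (.ev (nat_lit 3172) (nat_lit 4398046511104) (.nd (nat_lit 4080) (.br (nat_lit 10) (.ch
 (nat_lit 0) (.fin (nat_lit 576456903998521908))) (.ch (nat_lit 10) (.ev (nat_lit 4096) (nat_lit 134283264)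
 .dd))))))))) (.ch (nat_lit 1) (.ev (nat_lit 1616) (nat_lit 4677357864992) (.ev (nat_lit 1629) (nat_lit 524288)
 .dd)))) (.br (nat_lit 5) (.ch (nat_lit 2) (.ev (nat_lit 1616) (nat_lit 4398181320736) (.ev (nat_lit 2388)
 (nat_lit 4294967296) (.ev (nat_lit 3024) (nat_lit 274877906944) (.ev (nat_lit 3037) (nat_lit 4194304) .dd)))))
 (.br (nat_lit 9) (.ch (nat_lit 5) (.ev (nat_lit 1616) (nat_lit 4673058701344) (.ev (nat_lit 2852) (nat_lit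
 4194304) (.ev (nat_lit 3380) (nat_lit 524288) (.nd (nat_lit 4112) (.br (nat_lit 10) (.ch (nat_lit 2) (.ev
 (nat_lit 4128) (nat_lit 4294969344) .dd)) (.ch (nat_lit 10) (.fin (nat_lit 576421719628530202))))))))) (.ch
 (nat_lit 9) (.ev (nat_lit 1616) (nat_lit 4402479958048) (.ev (nat_lit 1684) (nat_lit 524288) (.ev (nat_lit
 1693) (nat_lit 274877906944) .dd))))))))))))))))))))))

/-- Subtrie. -/
noncomputable def T4 : Tr := (.ev (nat_lit 20) (nat_lit 17627318340134) (.nd (nat_lit 33) (.br (nat_lit 39)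
 (.br (nat_lit 19) (.br (nat_lit 8) (.br (nat_lit 4) (.br (nat_lit 3) (.ch (nat_lit 1) (.ev (nat_lit 52)
 (nat_lit 77579976704) (.ev (nat_lit 372) (nat_lit 65536) (.ev (nat_lit 500) (nat_lit 8) (.ev (nat_lit 1236)
 (nat_lit 4096) (.ev (nat_lit 1300) (nat_lit 1048576) (.nd (nat_lit 1600) (.br (nat_lit 7) (.br (nat_lit 1)
 (.ch (nat_lit 0) (.ev (nat_lit 1616) (nat_lit 110232487329792) .dd)) (.br (nat_lit 2) (.ch (nat_lit 1) (.ev
 (nat_lit 1616) (nat_lit 6446645248) (.ev (nat_lit 2896) (nat_lit 70368744177664) (.ev (nat_lit 3748) (nat_lit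
 274877906944) (.nd (nat_lit 4240) (.br (nat_lit 8) (.ch (nat_lit 4) (.ev (nat_lit 4256) (nat_lit
 39582418599936) .dd)) (.ch (nat_lit 8) (.fin (nat_lit 576487690301030978))))))))) (.ch (nat_lit 2) (.ev
 (nat_lit 1616) (nat_lit 109951162777600) (.ev (nat_lit 3104) (nat_lit 4194304) (.ev (nat_lit 3172) (nat_lit
 4294967296) (.ev (nat_lit 3184) (nat_lit 2147483648) (.ev (nat_lit 3197) (nat_lit 274877906944) .dd))))))))
 (.br (nat_lit 8) (.ch (nat_lit 7) (.ev (nat_lit 1616) (nat_lit 110230339846144) (.ev (nat_lit 1629) (nat_lit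
 2147483648) .dd))) (.br (nat_lit 11) (.ch (nat_lit 8) (.ev (nat_lit 1616) (nat_lit 39859448184832) (.ev
 (nat_lit 1684) (nat_lit 4294967296) (.ev (nat_lit 1693) (nat_lit 70368744177664) .dd)))) (.ch (nat_lit 11)
 (.ev (nat_lit 1616) (nat_lit 110232487329792) .dd)))))))))))) (.ch (nat_lit 3) (.ev (nat_lit 52) (nat_lit
 345748013064) (.ev (nat_lit 276) (nat_lit 70368744177664) (.nd (nat_lit 1600) (.br (nat_lit 7) (.br (nat_lit
 1) (.ch (nat_lit 0) (.ev (nat_lit 1616) (nat_lit 35184376381440) (.ev (nat_lit 1684) (nat_lit 268435456) (.ev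
 (nat_lit 3380) (nat_lit 4398046511104) (.ev (nat_lit 3716) (nat_lit 8589934592) (.nd (nat_lit 4176) (.br
 (nat_lit 4) (.ch (nat_lit 2) (.fin (nat_lit 576465700091544140))) (.ch (nat_lit 4) (.ev (nat_lit 4192)
 (nat_lit 4294971392) .dd))))))))) (.br (nat_lit 3) (.ch (nat_lit 1) (.ev (nat_lit 1616) (nat_lit 4567666688)
 (.ev (nat_lit 3172) (nat_lit 32768) (.ev (nat_lit 3588) (nat_lit 8589934592) (.nd (nat_lit 4272) (.br (nat_lit
 8) (.ch (nat_lit 5) (.ev (nat_lit 4288) (nat_lit 35184372088832) (.ev (nat_lit 4301) (nat_lit 4398046511104)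
 .dd))) (.ch (nat_lit 8) (.fin (nat_lit 576434913820492350))))))))) (.ch (nat_lit 3) (.ev (nat_lit 1616)
 (nat_lit 35197261189120) (.ev (nat_lit 1780) (nat_lit 4398046511104) (.ev (nat_lit 2944) (nat_lit 32768) (.ev
 (nat_lit 3072) (nat_lit 65536) (.ev (nat_lit 3085) (nat_lit 268435456) .dd)))))))) (.br (nat_lit 9) (.br
 (nat_lit 8) (.ch (nat_lit 7) (.ev (nat_lit 1616) (nat_lit 39586717798400) (.ev (nat_lit 2292) (nat_lit 65536)
 (.ev (nat_lit 3172) (nat_lit 268435456) (.ev (nat_lit 3181) (nat_lit 8589934592) .dd))))) (.ch (nat_lit 8)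
 (.ev (nat_lit 1616) (nat_lit 35188939722752) (.ev (nat_lit 2208) (nat_lit 65536) (.ev (nat_lit 3268) (nat_lit
 8589934592) (.ev (nat_lit 3277) (nat_lit 4398046511104) .dd)))))) (.br (nat_lit 11) (.ch (nat_lit 9) (.ev
 (nat_lit 1616) (nat_lit 4411199950848) (.ev (nat_lit 2896) (nat_lit 4194304) (.ev (nat_lit 2909) (nat_lit
 35184372088832) .dd)))) (.ch (nat_lit 11) (.ev (nat_lit 1616) (nat_lit 39595576233984) .dd)))))))))) (.br
 (nat_lit 5) (.ch (nat_lit 4) (.ev (nat_lit 52) (nat_lit 39664291450888) (.ev (nat_lit 500) (nat_lit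
 70368744177664) (.ev (nat_lit 532) (nat_lit 65536) (.ev (nat_lit 884) (nat_lit 1048576) (.ev (nat_lit 1332)
 (nat_lit 2147483648) (.nd (nat_lit 1600) (.br (nat_lit 6) (.br (nat_lit 2) (.ch (nat_lit 0) (.ev (nat_lit
 2388) (nat_lit 2097152) (.ev (nat_lit 2992) (nat_lit 274877906944) (.ev (nat_lit 3005) (nat_lit 4194304)
 .dd)))) (.br (nat_lit 3) (.ch (nat_lit 2) (.ev (nat_lit 1616) (nat_lit 6291456) (.ev (nat_lit 1629) (nat_lit
 274877906944) .dd))) (.ch (nat_lit 3) (.ev (nat_lit 1616) (nat_lit 274882101248) (.ev (nat_lit 1629) (nat_lit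
 2097152) .dd))))) (.br (nat_lit 8) (.ch (nat_lit 6) (.ev (nat_lit 1616) (nat_lit 274884198400) .dd)) (.br
 (nat_lit 9) (.ch (nat_lit 8) (.ev (nat_lit 3056) (nat_lit 4194304) (.nd (nat_lit 4464) (.br (nat_lit 12) (.ch
 (nat_lit 6) (.ev (nat_lit 4480) (nat_lit 274880004096) .dd)) (.ch (nat_lit 12) (.fin (nat_lit
 576426117635195656))))))) (.ch (nat_lit 9) (.ev (nat_lit 1616) (nat_lit 274880004096) (.ev (nat_lit 1629)
 (nat_lit 4194304) .dd))))))))))))) (.br (nat_lit 7) (.ch (nat_lit 5) (.ev (nat_lit 52) (nat_lit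
 74837661908992) (.ev (nat_lit 372) (nat_lit 8589934592) (.ev (nat_lit 532) (nat_lit 2097152) (.ev (nat_lit
 724) (nat_lit 32768) (.ev (nat_lit 1216) (nat_lit 35463814451208) .dd)))))) (.ch (nat_lit 7) (.ev (nat_lit 52)
 (nat_lit 35253099008000) (.ev (nat_lit 564) (nat_lit 274877906944) (.ev (nat_lit 1248) (nat_lit
 74782091509768) .dd))))))) (.br (nat_lit 15) (.br (nat_lit 11) (.ch (nat_lit 8) (.ev (nat_lit 52) (nat_lit
 35186794369032) (.ev (nat_lit 148) (nat_lit 8589934592) (.nd (nat_lit 1600) (.br (nat_lit 6) (.br (nat_lit 1)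
 (.ch (nat_lit 0) (.ev (nat_lit 1616) (nat_lit 343598465024) (.ev (nat_lit 3172) (nat_lit 4398046511104) (.ev
 (nat_lit 3248) (nat_lit 70368744177664) (.ev (nat_lit 3261) (nat_lit 4294967296) .dd))))) (.br (nat_lit 3)
 (.ch (nat_lit 1) (.ev (nat_lit 1616) (nat_lit 70373040226304) (.ev (nat_lit 1632) (nat_lit 274877906944) (.ev
 (nat_lit 2228) (nat_lit 4398046511104) (.ev (nat_lit 2237) (nat_lit 68719476736) .dd))))) (.ch (nat_lit 3)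
 (.ev (nat_lit 1616) (nat_lit 73014444032) (.ev (nat_lit 1684) (nat_lit 1048576) (.ev (nat_lit 1744) (nat_lit
 32768) (.ev (nat_lit 3040) (nat_lit 70368744177664) (.ev (nat_lit 3072) (nat_lit 274877906944) (.ev (nat_lit
 3085) (nat_lit 4398046511104) .dd))))))))) (.br (nat_lit 9) (.ch (nat_lit 6) (.ev (nat_lit 1616) (nat_lit
 75041669677056) (.ev (nat_lit 1684) (nat_lit 4294967296) (.ev (nat_lit 1693) (nat_lit 68719476736) .dd))))
 (.br (nat_lit 11) (.ch (nat_lit 9) (.ev (nat_lit 1616) (nat_lit 279172907008) (.ev (nat_lit 1684) (nat_lit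
 70368744177664) (.ev (nat_lit 3172) (nat_lit 4466765987840) (.ev (nat_lit 3181) (nat_lit 1048576) .dd)))))
 (.ch (nat_lit 11) (.ev (nat_lit 1616) (nat_lit 75114684121088) .dd))))))))) (.br (nat_lit 12) (.ch (nat_lit
 11) (.ev (nat_lit 52) (nat_lit 75046232031232) (.ev (nat_lit 372) (nat_lit 8) (.ev (nat_lit 532) (nat_lit
 35184372088832) (.ev (nat_lit 724) (nat_lit 65536) (.ev (nat_lit 1088) (nat_lit 79464239104) .dd)))))) (.ch
 (nat_lit 12) (.ev (nat_lit 52) (nat_lit 2423291904) (.ev (nat_lit 148) (nat_lit 274877906944) (.ev (nat_lit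
 436) (nat_lit 35184372088832) (.ev (nat_lit 500) (nat_lit 68719476736) (.ev (nat_lit 564) (nat_lit 8) (.ev
 (nat_lit 660) (nat_lit 4294967296) (.ev (nat_lit 692) (nat_lit 70368744177664) (.ev (nat_lit 916) (nat_lit
 4096) (.nd (nat_lit 1600) (.br (nat_lit 3) (.br (nat_lit 1) (.ch (nat_lit 0) (.ev (nat_lit 1616) (nat_lit
 4398046576640) (.ev (nat_lit 1629) (nat_lit 8589934592) .dd))) (.br (nat_lit 2) (.ch (nat_lit 1) (.ev (nat_lit
 1616) (nat_lit 8590000128) (.ev (nat_lit 1629) (nat_lit 4398046511104) .dd))) (.ch (nat_lit 2) (.ev (nat_lit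
 1616) (nat_lit 4406636445696) (.ev (nat_lit 1629) (nat_lit 65536) .dd))))) (.br (nat_lit 6) (.ch (nat_lit 3)
 (.ev (nat_lit 3216) (nat_lit 4398046511104) (.nd (nat_lit 4016) (.br (nat_lit 12) (.ch (nat_lit 0) (.fin
 (nat_lit 576496486662488692))) (.ch (nat_lit 12) (.ev (nat_lit 4032) (nat_lit 8590000128) .dd)))))) (.br
 (nat_lit 7) (.ch (nat_lit 6) (.ev (nat_lit 2816) (nat_lit 4398046511104) (.ev (nat_lit 3040) (nat_lit 65536)
 (.ev (nat_lit 3053) (nat_lit 8589934592) .dd)))) (.ch (nat_lit 7) (.ev (nat_lit 1616) (nat_lit 4406636511232)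
 .dd))))))))))))))))) (.br (nat_lit 16) (.ch (nat_lit 15) (.ev (nat_lit 52) (nat_lit 110230608347144) (.ev
 (nat_lit 916) (nat_lit 2147483648) (.ev (nat_lit 1344) (nat_lit 77312593920) .dd)))) (.br (nat_lit 18) (.ch
 (nat_lit 16) (.ev (nat_lit 52) (nat_lit 4672931758080) (.ev (nat_lit 84) (nat_lit 32768) (.ev (nat_lit 148)
 (nat_lit 70368744177664) (.ev (nat_lit 692) (nat_lit 8) (.ev (nat_lit 1044) (nat_lit 268435456) (.ev (nat_lit
 1332) (nat_lit 4294967296) (.nd (nat_lit 1600) (.br (nat_lit 7) (.br (nat_lit 2) (.ch (nat_lit 1) (.ev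
 (nat_lit 1616) (nat_lit 35261681569792) (.ev (nat_lit 1629) (nat_lit 2147483648) .dd))) (.ch (nat_lit 2) (.ev
 (nat_lit 1616) (nat_lit 70866960384) (.ev (nat_lit 1684) (nat_lit 4096) (.ev (nat_lit 3012) (nat_lit 65536)
 (.ev (nat_lit 3172) (nat_lit 8589934592) (.ev (nat_lit 3181) (nat_lit 35184372088832) .dd))))))) (.br (nat_lit
 8) (.ch (nat_lit 7) (.ev (nat_lit 1616) (nat_lit 35195109511168) (.ev (nat_lit 2896) (nat_lit 65536) (.ev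
 (nat_lit 2909) (nat_lit 68719476736) .dd)))) (.br (nat_lit 9) (.ch (nat_lit 8) (.ev (nat_lit 1616) (nat_lit
 35195109507072) (.ev (nat_lit 1684) (nat_lit 68719480832) (.ev (nat_lit 1693) (nat_lit 65536) .dd)))) (.ch
 (nat_lit 9) (.ev (nat_lit 1616) (nat_lit 77309480960) (.ev (nat_lit 3172) (nat_lit 35184372088832) (.ev
 (nat_lit 3181) (nat_lit 2147483648) .dd))))))))))))))) (.ch (nat_lit 18) (.ev (nat_lit 52) (nat_lit
 35459521679360) (.ev (nat_lit 564) (nat_lit 68719476736) (.ev (nat_lit 1280) (nat_lit 74781827268616)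
 .dd)))))))) (.br (nat_lit 29) (.br (nat_lit 23) (.br (nat_lit 22) (.ch (nat_lit 19) (.ev (nat_lit 52) (nat_lit
 75045970935808) (.ev (nat_lit 436) (nat_lit 268435456) (.ev (nat_lit 596) (nat_lit 8) (.nd (nat_lit 1600) (.br
 (nat_lit 6) (.br (nat_lit 1) (.ch (nat_lit 0) (.ev (nat_lit 1616) (nat_lit 35263829049344) (.ev (nat_lit 1629)
 (nat_lit 4096) .dd))) (.br (nat_lit 2) (.ch (nat_lit 1) (.ev (nat_lit 1616) (nat_lit 35192962093056) (.ev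
 (nat_lit 1684) (nat_lit 68719476736) (.ev (nat_lit 1693) (nat_lit 2147483648) .dd)))) (.ch (nat_lit 2) (.ev
 (nat_lit 1616) (nat_lit 77309480960) (.ev (nat_lit 1664) (nat_lit 2147483648) (.ev (nat_lit 1677) (nat_lit
 35184372088832) .dd)))))) (.br (nat_lit 9) (.br (nat_lit 8) (.ch (nat_lit 6) (.ev (nat_lit 1616) (nat_lit
 10737422336) (.ev (nat_lit 1664) (nat_lit 68719476736) (.ev (nat_lit 3024) (nat_lit 35184372088832) (.ev
 (nat_lit 3037) (nat_lit 65536) .dd))))) (.ch (nat_lit 8) (.ev (nat_lit 1616) (nat_lit 35255239114752) (.ev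
 (nat_lit 3040) (nat_lit 8589934592) (.ev (nat_lit 3053) (nat_lit 4096) .dd))))) (.br (nat_lit 11) (.ch
 (nat_lit 9) (.ev (nat_lit 1616) (nat_lit 79456964608) (.ev (nat_lit 1629) (nat_lit 35184372088832) .dd))) (.ch
 (nat_lit 11) (.ev (nat_lit 1616) (nat_lit 35263829053440) .dd)))))))))) (.ch (nat_lit 22) (.ev (nat_lit 52)
 (nat_lit 8859418632) (.ev (nat_lit 372) (nat_lit 68719476736) (.ev (nat_lit 692) (nat_lit 65536) (.ev (nat_lit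
 1108) (nat_lit 2147483648) (.nd (nat_lit 1600) (.br (nat_lit 2) (.br (nat_lit 1) (.ch (nat_lit 0) (.ev
 (nat_lit 1616) (nat_lit 35459254222848) (.ev (nat_lit 2912) (nat_lit 70368746274816) (.ev (nat_lit 2928)
 (nat_lit 4398046511104) (.nd (nat_lit 4048) (.br (nat_lit 6) (.ch (nat_lit 2) (.fin (nat_lit
 576465700091544140))) (.ch (nat_lit 6) (.ev (nat_lit 4064) (nat_lit 4294971392) .dd)))))))) (.ch (nat_lit 1)
 (.ev (nat_lit 1616) (nat_lit 105557417562112) (.ev (nat_lit 1684) (nat_lit 274877906944) (.ev (nat_lit 1693)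
 (nat_lit 4398046511104) .dd))))) (.br (nat_lit 3) (.ch (nat_lit 2) (.ev (nat_lit 1616) (nat_lit
 74771087757312) (.ev (nat_lit 1940) (nat_lit 35184372088832) (.ev (nat_lit 3412) (nat_lit 274877906944) (.nd
 (nat_lit 4400) (.br (nat_lit 5) (.ch (nat_lit 3) (.fin (nat_lit 576434913786937870))) (.ch (nat_lit 5) (.ev
 (nat_lit 4416) (nat_lit 4227072) .dd)))))))) (.br (nat_lit 6) (.ch (nat_lit 3) (.ev (nat_lit 1616) (nat_lit
 109955464073216) (.ev (nat_lit 1629) (nat_lit 274877906944) .dd))) (.ch (nat_lit 6) (.ev (nat_lit 1616)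
 (nat_lit 70647923347456) (.ev (nat_lit 3024) (nat_lit 4398046511104) (.ev (nat_lit 3072) (nat_lit
 35184372088832) (.ev (nat_lit 3085) (nat_lit 32768) .dd))))))))))))))) (.br (nat_lit 24) (.ch (nat_lit 23)
 (.ev (nat_lit 52) (nat_lit 345748078592) (.ev (nat_lit 640) (nat_lit 109964320346120) .dd))) (.br (nat_lit 26)
 (.ch (nat_lit 24) (.ev (nat_lit 52) (nat_lit 35532264476672) (.ev (nat_lit 608) (nat_lit 74777803948040)
 .dd))) (.ch (nat_lit 26) (.ev (nat_lit 52) (nat_lit 70452496044032) (.ev (nat_lit 84) (nat_lit 274880004096)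
 (.ev (nat_lit 244) (nat_lit 4194304) (.ev (nat_lit 372) (nat_lit 4398046511104) (.ev (nat_lit 500) (nat_lit
 35184372088832) (.ev (nat_lit 1456) (nat_lit 268435456) (.nd (nat_lit 1600) (.br (nat_lit 6) (.br (nat_lit 2)
 (.ch (nat_lit 1) (.ev (nat_lit 1616) (nat_lit 1146888) .dd)) (.br (nat_lit 3) (.ch (nat_lit 2) (.ev (nat_lit
 1616) (nat_lit 1114120) (.ev (nat_lit 1629) (nat_lit 32768) .dd))) (.ch (nat_lit 3) (.ev (nat_lit 1616)
 (nat_lit 8) (.ev (nat_lit 1780) (nat_lit 1048576) (.ev (nat_lit 3268) (nat_lit 65536) (.ev (nat_lit 3277)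
 (nat_lit 32768) .dd))))))) (.br (nat_lit 7) (.ch (nat_lit 6) (.ev (nat_lit 1616) (nat_lit 1048576) (.ev
 (nat_lit 2148) (nat_lit 65536) (.nd (nat_lit 3856) (.br (nat_lit 2) (.ch (nat_lit 1) (.fin (nat_lit
 576426117918310996))) (.ch (nat_lit 2) (.ev (nat_lit 3872) (nat_lit 8) (.ev (nat_lit 3885) (nat_lit 32768)
 .dd)))))))) (.br (nat_lit 8) (.ch (nat_lit 7) (.ev (nat_lit 1684) (nat_lit 1048576) (.ev (nat_lit 3120)
 (nat_lit 32776) (.ev (nat_lit 3133) (nat_lit 65536) .dd)))) (.ch (nat_lit 8) (.ev (nat_lit 1616) (nat_lit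
 1146880) (.ev (nat_lit 1629) (nat_lit 8) .dd))))))))))))))))) (.br (nat_lit 34) (.br (nat_lit 31) (.ch
 (nat_lit 29) (.ev (nat_lit 52) (nat_lit 75110391316480) (.ev (nat_lit 1140) (nat_lit 4294967296) (.nd (nat_lit
 1600) (.br (nat_lit 8) (.br (nat_lit 6) (.ch (nat_lit 0) (.ev (nat_lit 1616) (nat_lit 35195377942536) (.ev
 (nat_lit 3172) (nat_lit 4096) (.ev (nat_lit 3181) (nat_lit 4194304) .dd)))) (.br (nat_lit 7) (.ch (nat_lit 6)
 (.ev (nat_lit 1616) (nat_lit 2415923208) (.ev (nat_lit 1712) (nat_lit 8589934592) (.ev (nat_lit 2324) (nat_lit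
 35184372088832) (.ev (nat_lit 2333) (nat_lit 4194304) .dd))))) (.ch (nat_lit 7) (.ev (nat_lit 1616) (nat_lit
 35192966221824) (.ev (nat_lit 2742) (nat_lit 268435456) (.ev (nat_lit 3136) (nat_lit 8) (.ev (nat_lit 3149)
 (nat_lit 2147483648) .dd))))))) (.br (nat_lit 9) (.ch (nat_lit 8) (.ev (nat_lit 1616) (nat_lit 35186788012032)
 (.ev (nat_lit 1684) (nat_lit 8589934592) (.ev (nat_lit 2912) (nat_lit 8) (.ev (nat_lit 2925) (nat_lit 4194304)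
 .dd))))) (.br (nat_lit 11) (.ch (nat_lit 9) (.ev (nat_lit 1616) (nat_lit 8858374144) (.ev (nat_lit 1684)
 (nat_lit 2147483648) (.ev (nat_lit 2912) (nat_lit 4194304) (.ev (nat_lit 3104) (nat_lit 8) (.ev (nat_lit 3117)
 (nat_lit 35184372088832) .dd)))))) (.ch (nat_lit 11) (.ev (nat_lit 1616) (nat_lit 35195382136840) (.ev
 (nat_lit 1629) (nat_lit 4096) .dd)))))))))) (.br (nat_lit 33) (.ch (nat_lit 31) (.ev (nat_lit 52) (nat_lit
 83752943624) (.ev (nat_lit 148) (nat_lit 65536) (.ev (nat_lit 596) (nat_lit 4194304) (.ev (nat_lit 1120)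
 (nat_lit 110226311221248) .dd))))) (.ch (nat_lit 33) (.ev (nat_lit 52) (nat_lit 109966465695744) (.ev (nat_lit
 84) (nat_lit 4194304) (.ev (nat_lit 1312) (nat_lit 343598534664) .dd)))))) (.br (nat_lit 36) (.ch (nat_lit 34)
 (.ev (nat_lit 52) (nat_lit 4746214637568) (.ev (nat_lit 532) (nat_lit 8589934592) (.ev (nat_lit 596) (nat_lit
 65536) (.ev (nat_lit 692) (nat_lit 35184372088832) (.ev (nat_lit 1044) (nat_lit 32768) (.ev (nat_lit 1364)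
 (nat_lit 2147483648) (.nd (nat_lit 1600) (.br (nat_lit 6) (.br (nat_lit 3) (.ch (nat_lit 0) (.ev (nat_lit
 1616) (nat_lit 8) (.ev (nat_lit 3268) (nat_lit 4096) (.ev (nat_lit 3277) (nat_lit 70368744177664) .dd)))) (.ch
 (nat_lit 3) (.ev (nat_lit 1616) (nat_lit 4104) (.ev (nat_lit 1629) (nat_lit 70368744177664) .dd)))) (.br
 (nat_lit 8) (.ch (nat_lit 6) (.ev (nat_lit 1616) (nat_lit 4096) (.ev (nat_lit 3172) (nat_lit 8) (.ev (nat_lit
 3181) (nat_lit 70368744177664) .dd)))) (.br (nat_lit 11) (.ch (nat_lit 8) (.ev (nat_lit 1616) (nat_lit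
 70368744181760) (.ev (nat_lit 1629) (nat_lit 8) .dd))) (.ch (nat_lit 11) (.ev (nat_lit 1616) (nat_lit
 70368744177672) (.ev (nat_lit 1629) (nat_lit 4096) .dd)))))))))))))) (.br (nat_lit 38) (.ch (nat_lit 36) (.ev
 (nat_lit 52) (nat_lit 105626400227336) (.ev (nat_lit 1268) (nat_lit 4096) (.ev (nat_lit 1396) (nat_lit
 2147483648) (.nd (nat_lit 1600) (.br (nat_lit 7) (.br (nat_lit 1) (.ch (nat_lit 0) (.ev (nat_lit 1616)
 (nat_lit 4681516515328) (.ev (nat_lit 1629) (nat_lit 4194304) .dd))) (.br (nat_lit 6) (.ch (nat_lit 1) (.ev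
 (nat_lit 1616) (nat_lit 274884263936) (.ev (nat_lit 2148) (nat_lit 4398046511104) (.ev (nat_lit 2157) (nat_lit
 8589934592) .dd)))) (.ch (nat_lit 6) (.ev (nat_lit 1616) (nat_lit 4672926515200) (.ev (nat_lit 1684) (nat_lit
 4259840) (.ev (nat_lit 1693) (nat_lit 8589934592) .dd)))))) (.br (nat_lit 8) (.ch (nat_lit 7) (.ev (nat_lit
 1616) (nat_lit 4398052802560) (.ev (nat_lit 3012) (nat_lit 8589934592) (.ev (nat_lit 3316) (nat_lit
 274877906944) (.ev (nat_lit 3325) (nat_lit 65536) .dd))))) (.br (nat_lit 11) (.ch (nat_lit 8) (.ev (nat_lit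
 1616) (nat_lit 65536) (.ev (nat_lit 2070) (nat_lit 8589934592) (.ev (nat_lit 3172) (nat_lit 2097152) (.ev
 (nat_lit 3268) (nat_lit 4672924418048) (.ev (nat_lit 3277) (nat_lit 4194304) .dd)))))) (.ch (nat_lit 11) (.ev
 (nat_lit 1616) (nat_lit 4681518612480) (.ev (nat_lit 1629) (nat_lit 2097152) .dd))))))))))) (.ch (nat_lit 38)
 (.ev (nat_lit 52) (nat_lit 8594133000) (.ev (nat_lit 372) (nat_lit 274877906944) (.ev (nat_lit 692) (nat_lit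
 32768) (.ev (nat_lit 1236) (nat_lit 4294967296) (.nd (nat_lit 1600) (.br (nat_lit 7) (.br (nat_lit 6) (.ch
 (nat_lit 3) (.ev (nat_lit 1616) (nat_lit 39653555044352) (.ev (nat_lit 3024) (nat_lit 70368744177664) (.ev
 (nat_lit 3072) (nat_lit 2097152) (.ev (nat_lit 3085) (nat_lit 65536) .dd))))) (.ch (nat_lit 6) (.ev (nat_lit
 1616) (nat_lit 109953581907968) (.ev (nat_lit 1629) (nat_lit 68719476736) .dd)))) (.br (nat_lit 8) (.ch
 (nat_lit 7) (.ev (nat_lit 1616) (nat_lit 109953311309824) (.ev (nat_lit 1940) (nat_lit 2097152) (.ev (nat_lit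
 3412) (nat_lit 68719476736) (.nd (nat_lit 4368) (.br (nat_lit 12) (.ch (nat_lit 10) (.ev (nat_lit 4384)
 (nat_lit 268500992) .dd)) (.ch (nat_lit 12) (.fin (nat_lit 576487690345071142))))))))) (.br (nat_lit 9) (.ch
 (nat_lit 8) (.ev (nat_lit 1616) (nat_lit 39584837730304) (.ev (nat_lit 1684) (nat_lit 68719476736) (.ev
 (nat_lit 1693) (nat_lit 70368744177664) .dd)))) (.ch (nat_lit 9) (.ev (nat_lit 1616) (nat_lit 68990074880)
 (.ev (nat_lit 2912) (nat_lit 39582418599936) (.ev (nat_lit 2928) (nat_lit 70368744177664) (.nd (nat_lit 4208)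
 (.br (nat_lit 10) (.ch (nat_lit 6) (.ev (nat_lit 4224) (nat_lit 2148532224) .dd)) (.ch (nat_lit 10) (.fin
 (nat_lit 576465700123001400))))))))))))))))))))))) (.br (nat_lit 54) (.br (nat_lit 47) (.br (nat_lit 43) (.br
 (nat_lit 42) (.ch (nat_lit 39) (.ev (nat_lit 52) (nat_lit 4683668197376) (.ev (nat_lit 1268) (nat_lit 1048576)
 (.ev (nat_lit 1364) (nat_lit 4294967296) (.nd (nat_lit 1600) (.br (nat_lit 8) (.br (nat_lit 2) (.ch (nat_lit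
 1) (.ev (nat_lit 1616) (nat_lit 32768) (.ev (nat_lit 2006) (nat_lit 8) (.ev (nat_lit 3172) (nat_lit
 35184372088832) (.ev (nat_lit 3268) (nat_lit 70437463654400) (.ev (nat_lit 3277) (nat_lit 268435456) .dd))))))
 (.br (nat_lit 3) (.ch (nat_lit 2) (.ev (nat_lit 1616) (nat_lit 105553384701952) (.ev (nat_lit 3012) (nat_lit
 8) (.ev (nat_lit 3316) (nat_lit 68719476736) (.ev (nat_lit 3325) (nat_lit 32768) .dd))))) (.ch (nat_lit 3)
 (.ev (nat_lit 1616) (nat_lit 105621835743232) (.ev (nat_lit 1684) (nat_lit 268468224) (.ev (nat_lit 1693)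
 (nat_lit 8) .dd)))))) (.br (nat_lit 9) (.ch (nat_lit 8) (.ev (nat_lit 1616) (nat_lit 35253360033792) (.ev
 (nat_lit 2148) (nat_lit 70368744177664) (.ev (nat_lit 2157) (nat_lit 8) .dd)))) (.br (nat_lit 11) (.ch
 (nat_lit 9) (.ev (nat_lit 1616) (nat_lit 105621835776008) (.ev (nat_lit 1629) (nat_lit 268435456) .dd))) (.ch
 (nat_lit 11) (.ev (nat_lit 1616) (nat_lit 70437732122632) (.ev (nat_lit 1629) (nat_lit 35184372088832)
 .dd))))))))))) (.ch (nat_lit 42) (.ev (nat_lit 52) (nat_lit 35540854378496) (.ev (nat_lit 276) (nat_lit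
 4398046511104) (.nd (nat_lit 1600) (.br (nat_lit 6) (.br (nat_lit 1) (.ch (nat_lit 0) (.ev (nat_lit 1616)
 (nat_lit 70370897002504) (.ev (nat_lit 2896) (nat_lit 268435456) (.ev (nat_lit 2909) (nat_lit 2097152) .dd))))
 (.br (nat_lit 2) (.ch (nat_lit 1) (.ev (nat_lit 1616) (nat_lit 2423324672) (.ev (nat_lit 2208) (nat_lit 32768)
 (.ev (nat_lit 3268) (nat_lit 8) (.ev (nat_lit 3277) (nat_lit 70368744177664) .dd))))) (.ch (nat_lit 2) (.ev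
 (nat_lit 1616) (nat_lit 70371163308032) (.ev (nat_lit 2292) (nat_lit 32768) (.ev (nat_lit 3172) (nat_lit
 4194304) (.ev (nat_lit 3181) (nat_lit 8) .dd))))))) (.br (nat_lit 9) (.br (nat_lit 8) (.ch (nat_lit 6) (.ev
 (nat_lit 1616) (nat_lit 2419064840) (.ev (nat_lit 1780) (nat_lit 70368744177664) (.ev (nat_lit 2944) (nat_lit
 65536) (.ev (nat_lit 3072) (nat_lit 32768) (.ev (nat_lit 3085) (nat_lit 4194304) .dd)))))) (.ch (nat_lit 8)
 (.ev (nat_lit 1616) (nat_lit 2421194752) (.ev (nat_lit 3172) (nat_lit 65536) (.ev (nat_lit 3588) (nat_lit 8)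
 (.nd (nat_lit 4336) (.br (nat_lit 5) (.ch (nat_lit 2) (.fin (nat_lit 576434913742897706))) (.ch (nat_lit 5)
 (.ev (nat_lit 4352) (nat_lit 2097152) (.ev (nat_lit 4365) (nat_lit 70368744177664) .dd)))))))))) (.br (nat_lit
 11) (.ch (nat_lit 9) (.ev (nat_lit 1616) (nat_lit 270630912) (.ev (nat_lit 1684) (nat_lit 4194304) (.ev
 (nat_lit 3380) (nat_lit 70368744177664) (.ev (nat_lit 3716) (nat_lit 8) (.nd (nat_lit 4496) (.br (nat_lit 10)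
 (.ch (nat_lit 8) (.ev (nat_lit 4512) (nat_lit 2148532224) .dd)) (.ch (nat_lit 10) (.fin (nat_lit
 576465700123001400)))))))))) (.ch (nat_lit 11) (.ev (nat_lit 1616) (nat_lit 70371167535112) .dd)))))))))) (.br
 (nat_lit 44) (.ch (nat_lit 43) (.ev (nat_lit 52) (nat_lit 289910362120) (.ev (nat_lit 148) (nat_lit 32768)
 (.ev (nat_lit 596) (nat_lit 268435456) (.ev (nat_lit 1056) (nat_lit 110019889594368) .dd))))) (.br (nat_lit
 46) (.ch (nat_lit 44) (.ev (nat_lit 52) (nat_lit 110022298243072) (.ev (nat_lit 436) (nat_lit 4194304) (.ev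
 (nat_lit 596) (nat_lit 8589934592) (.nd (nat_lit 1600) (.br (nat_lit 7) (.br (nat_lit 1) (.ch (nat_lit 0) (.ev
 (nat_lit 1616) (nat_lit 279173955592) (.ev (nat_lit 1629) (nat_lit 2097152) .dd))) (.br (nat_lit 3) (.ch
 (nat_lit 1) (.ev (nat_lit 1616) (nat_lit 279175004160) (.ev (nat_lit 3040) (nat_lit 8) (.ev (nat_lit 3053)
 (nat_lit 1048576) .dd)))) (.ch (nat_lit 3) (.ev (nat_lit 1616) (nat_lit 4296015880) (.ev (nat_lit 1664)
 (nat_lit 274877906944) (.ev (nat_lit 3024) (nat_lit 2097152) (.ev (nat_lit 3037) (nat_lit 32768) .dd)))))))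
 (.br (nat_lit 9) (.br (nat_lit 8) (.ch (nat_lit 7) (.ev (nat_lit 1616) (nat_lit 274878988296) (.ev (nat_lit
 1664) (nat_lit 4294967296) (.ev (nat_lit 1677) (nat_lit 2097152) .dd)))) (.ch (nat_lit 8) (.ev (nat_lit 1616)
 (nat_lit 3178504) (.ev (nat_lit 1684) (nat_lit 274877906944) (.ev (nat_lit 1693) (nat_lit 4294967296) .dd)))))
 (.br (nat_lit 11) (.ch (nat_lit 9) (.ev (nat_lit 1616) (nat_lit 279175004168) (.ev (nat_lit 1629) (nat_lit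
 1048576) .dd))) (.ch (nat_lit 11) (.ev (nat_lit 1616) (nat_lit 279176052744) .dd)))))))))) (.ch (nat_lit 46)
 (.ev (nat_lit 52) (nat_lit 35188939755520) (.ev (nat_lit 148) (nat_lit 68719476736) (.ev (nat_lit 436)
 (nat_lit 2097152) (.ev (nat_lit 500) (nat_lit 274877906944) (.ev (nat_lit 564) (nat_lit 8589934592) (.ev
 (nat_lit 628) (nat_lit 2147483648) (.ev (nat_lit 692) (nat_lit 4398046511104) (.ev (nat_lit 916) (nat_lit
 1048576) (.nd (nat_lit 1600) (.br (nat_lit 7) (.br (nat_lit 3) (.ch (nat_lit 2) (.ev (nat_lit 1616) (nat_lit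
 70368744210440) .dd)) (.br (nat_lit 6) (.ch (nat_lit 3) (.ev (nat_lit 2816) (nat_lit 70368744177664) (.ev
 (nat_lit 3040) (nat_lit 32768) (.ev (nat_lit 3053) (nat_lit 8) .dd)))) (.ch (nat_lit 6) (.ev (nat_lit 3216)
 (nat_lit 70368744177664) (.nd (nat_lit 4528) (.br (nat_lit 2) (.ch (nat_lit 1) (.fin (nat_lit
 576496486203212332))) (.ch (nat_lit 2) (.ev (nat_lit 4544) (nat_lit 32776) .dd)))))))) (.br (nat_lit 8) (.ch
 (nat_lit 7) (.ev (nat_lit 1616) (nat_lit 70368744177672) (.ev (nat_lit 1629) (nat_lit 32768) .dd))) (.br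
 (nat_lit 9) (.ch (nat_lit 8) (.ev (nat_lit 1616) (nat_lit 32776) (.ev (nat_lit 1629) (nat_lit 70368744177664)
 .dd))) (.ch (nat_lit 9) (.ev (nat_lit 1616) (nat_lit 70368744210432) (.ev (nat_lit 1629) (nat_lit 8)
 .dd))))))))))))))))))) (.br (nat_lit 50) (.br (nat_lit 48) (.ch (nat_lit 47) (.ev (nat_lit 52) (nat_lit
 39857299755008) (.ev (nat_lit 244) (nat_lit 8589934592) (.ev (nat_lit 308) (nat_lit 70368744177664) (.ev
 (nat_lit 436) (nat_lit 8) (.ev (nat_lit 820) (nat_lit 4194304) (.ev (nat_lit 1236) (nat_lit 2147483648) (.nd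
 (nat_lit 1600) (.br (nat_lit 7) (.br (nat_lit 1) (.ch (nat_lit 0) (.ev (nat_lit 1616) (nat_lit 68719476736)
 (.ev (nat_lit 3024) (nat_lit 4294967296) (.ev (nat_lit 3037) (nat_lit 268435456) .dd)))) (.br (nat_lit 6) (.ch
 (nat_lit 1) (.ev (nat_lit 1616) (nat_lit 4563402752) (.ev (nat_lit 1629) (nat_lit 68719476736) .dd))) (.ch
 (nat_lit 6) (.ev (nat_lit 1616) (nat_lit 68987912192) (.ev (nat_lit 1629) (nat_lit 4294967296) .dd))))) (.br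
 (nat_lit 9) (.ch (nat_lit 7) (.ev (nat_lit 1616) (nat_lit 4294967296) (.ev (nat_lit 2944) (nat_lit
 68719476736) (.ev (nat_lit 2957) (nat_lit 268435456) .dd)))) (.br (nat_lit 11) (.ch (nat_lit 9) (.ev (nat_lit
 1616) (nat_lit 73282879488) .dd)) (.ch (nat_lit 11) (.ev (nat_lit 1616) (nat_lit 73282879488) .dd)))))))))))))
 (.br (nat_lit 49) (.ch (nat_lit 48) (.ev (nat_lit 52) (nat_lit 105621838991360) (.ev (nat_lit 244) (nat_lit 8)
 (.ev (nat_lit 308) (nat_lit 4398046511104) (.ev (nat_lit 436) (nat_lit 8589934592) (.ev (nat_lit 820) (nat_lit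
 268435456) (.ev (nat_lit 1108) (nat_lit 4294967296) (.nd (nat_lit 1600) (.br (nat_lit 8) (.br (nat_lit 2) (.ch
 (nat_lit 0) (.ev (nat_lit 1616) (nat_lit 277029584896) .dd)) (.br (nat_lit 3) (.ch (nat_lit 2) (.ev (nat_lit
 1616) (nat_lit 2147483648) (.ev (nat_lit 2944) (nat_lit 274877906944) (.ev (nat_lit 2957) (nat_lit 4194304)
 .dd)))) (.ch (nat_lit 3) (.ev (nat_lit 1616) (nat_lit 274882101248) (.ev (nat_lit 1629) (nat_lit 2147483648)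
 .dd))))) (.br (nat_lit 9) (.ch (nat_lit 8) (.ev (nat_lit 1616) (nat_lit 2151677952) (.ev (nat_lit 1629)
 (nat_lit 274877906944) .dd))) (.br (nat_lit 11) (.ch (nat_lit 9) (.ev (nat_lit 1616) (nat_lit 274877906944)
 (.ev (nat_lit 3024) (nat_lit 2147483648) (.ev (nat_lit 3037) (nat_lit 4194304) .dd)))) (.ch (nat_lit 11) (.ev
 (nat_lit 1616) (nat_lit 277029584896) .dd))))))))))))) (.ch (nat_lit 49) (.ev (nat_lit 52) (nat_lit
 109957611520008) (.ev (nat_lit 84) (nat_lit 268435456) (.ev (nat_lit 1184) (nat_lit 352188469248) .dd))))))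
 (.br (nat_lit 51) (.ch (nat_lit 50) (.ev (nat_lit 52) (nat_lit 74775380660232) (.ev (nat_lit 276) (nat_lit
 268435456) (.ev (nat_lit 896) (nat_lit 35534419329024) .dd)))) (.br (nat_lit 53) (.ch (nat_lit 51) (.ev
 (nat_lit 52) (nat_lit 74846522343424) (.ev (nat_lit 884) (nat_lit 4294967296) (.ev (nat_lit 1376) (nat_lit
 35459251113992) .dd)))) (.ch (nat_lit 53) (.ev (nat_lit 52) (nat_lit 70718786109440) (.ev (nat_lit 308)
 (nat_lit 65544) (.ev (nat_lit 596) (nat_lit 35184372088832) (.nd (nat_lit 1600) (.br (nat_lit 3) (.br (nat_lit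
 1) (.ch (nat_lit 0) (.ev (nat_lit 1616) (nat_lit 1085440) (.ev (nat_lit 1684) (nat_lit 4398046511104) (.ev
 (nat_lit 2324) (nat_lit 8589934592) (.ev (nat_lit 2960) (nat_lit 268435456) (.ev (nat_lit 2973) (nat_lit
 4194304) .dd)))))) (.br (nat_lit 2) (.ch (nat_lit 1) (.ev (nat_lit 1616) (nat_lit 4406909079552) (.ev (nat_lit
 3024) (nat_lit 1048576) (.ev (nat_lit 3037) (nat_lit 32768) .dd)))) (.ch (nat_lit 2) (.ev (nat_lit 1616)
 (nat_lit 4398315995136) (.ev (nat_lit 3024) (nat_lit 4096) (.ev (nat_lit 3172) (nat_lit 8589934592) (.fin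
 (nat_lit 576434913786937870)))))))) (.br (nat_lit 8) (.ch (nat_lit 3) (.ev (nat_lit 1616) (nat_lit
 4406909112320) (.ev (nat_lit 1629) (nat_lit 1048576) .dd))) (.br (nat_lit 11) (.ch (nat_lit 8) (.ev (nat_lit
 1616) (nat_lit 269516800) (.ev (nat_lit 1684) (nat_lit 4398046515200) (.ev (nat_lit 3024) (nat_lit 4194304)
 (.ev (nat_lit 3037) (nat_lit 8589934592) .dd))))) (.ch (nat_lit 11) (.ev (nat_lit 1616) (nat_lit
 4406910160896) .dd)))))))))))))) (.br (nat_lit 64) (.br (nat_lit 57) (.br (nat_lit 55) (.ch (nat_lit 54) (.ev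
 (nat_lit 52) (nat_lit 4679367917576) (.ev (nat_lit 84) (nat_lit 35253091565568) (.ev (nat_lit 244) (nat_lit
 268435456) (.ev (nat_lit 372) (nat_lit 70368744177664) (.ev (nat_lit 500) (nat_lit 2097152) (.ev (nat_lit
 1472) (nat_lit 4194304) (.nd (nat_lit 1600) (.br (nat_lit 6) (.br (nat_lit 2) (.ch (nat_lit 1) (.ev (nat_lit
 1616) (nat_lit 102400) (.ev (nat_lit 1629) (nat_lit 8589934592) .dd))) (.br (nat_lit 3) (.ch (nat_lit 2) (.ev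
 (nat_lit 1684) (nat_lit 4096) (.ev (nat_lit 3120) (nat_lit 8590000128) (.ev (nat_lit 3133) (nat_lit 32768)
 .dd)))) (.ch (nat_lit 3) (.ev (nat_lit 1616) (nat_lit 4096) (.ev (nat_lit 2148) (nat_lit 32768) (.nd (nat_lit
 3920) (.br (nat_lit 12) (.ch (nat_lit 0) (.fin (nat_lit 576426117459034636))) (.ch (nat_lit 12) (.ev (nat_lit
 3936) (nat_lit 8589934592) (.ev (nat_lit 3949) (nat_lit 65536) .dd)))))))))) (.br (nat_lit 7) (.ch (nat_lit 6)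
 (.ev (nat_lit 1616) (nat_lit 8589934592) (.ev (nat_lit 1780) (nat_lit 4096) (.ev (nat_lit 3268) (nat_lit
 32768) (.ev (nat_lit 3277) (nat_lit 65536) .dd))))) (.br (nat_lit 8) (.ch (nat_lit 7) (.ev (nat_lit 1616)
 (nat_lit 8589971456) (.ev (nat_lit 1629) (nat_lit 65536) .dd))) (.ch (nat_lit 8) (.ev (nat_lit 1616) (nat_lit
 8590036992) .dd))))))))))))) (.ch (nat_lit 55) (.ev (nat_lit 52) (nat_lit 35459254255624) (.ev (nat_lit 372)
 (nat_lit 32768) (.ev (nat_lit 500) (nat_lit 8589934592) (.ev (nat_lit 1236) (nat_lit 1048576) (.ev (nat_lit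
 1300) (nat_lit 4096) (.nd (nat_lit 1600) (.br (nat_lit 8) (.br (nat_lit 2) (.ch (nat_lit 1) (.ev (nat_lit
 1616) (nat_lit 70442029154304) (.ev (nat_lit 1684) (nat_lit 2147483648) (.ev (nat_lit 1693) (nat_lit
 4398046511104) .dd)))) (.br (nat_lit 7) (.ch (nat_lit 2) (.ev (nat_lit 1616) (nat_lit 74837928181760) (.ev
 (nat_lit 1629) (nat_lit 4294967296) .dd))) (.ch (nat_lit 7) (.ev (nat_lit 1616) (nat_lit 74766792785920) (.ev
 (nat_lit 3104) (nat_lit 268435456) (.ev (nat_lit 3172) (nat_lit 2147483648) (.ev (nat_lit 3184) (nat_lit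
 4294967296) (.ev (nat_lit 3197) (nat_lit 68719476736) .dd)))))))) (.br (nat_lit 9) (.ch (nat_lit 8) (.ev
 (nat_lit 1616) (nat_lit 6710886400) (.ev (nat_lit 2896) (nat_lit 4398046511104) (.ev (nat_lit 3748) (nat_lit
 68719476736) (.nd (nat_lit 4432) (.br (nat_lit 6) (.ch (nat_lit 2) (.fin (nat_lit 576434913742897706))) (.ch
 (nat_lit 6) (.ev (nat_lit 4448) (nat_lit 70368746274816) .dd)))))))) (.br (nat_lit 11) (.ch (nat_lit 9) (.ev
 (nat_lit 1616) (nat_lit 74842223149056) .dd)) (.ch (nat_lit 11) (.ev (nat_lit 1616) (nat_lit 74842223149056)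
 .dd))))))))))))) (.br (nat_lit 58) (.ch (nat_lit 57) (.ev (nat_lit 52) (nat_lit 70379750133768) (.ev (nat_lit
 436) (nat_lit 68719476736) (.ev (nat_lit 532) (nat_lit 4194304) (.ev (nat_lit 660) (nat_lit 1048576) (.ev
 (nat_lit 1536) (nat_lit 39582418599936) (.nd (nat_lit 1600) (.br (nat_lit 7) (.br (nat_lit 2) (.ch (nat_lit 0)
 (.ev (nat_lit 1616) (nat_lit 279174971392) .dd)) (.ch (nat_lit 2) (.ev (nat_lit 1616) (nat_lit 274880004096)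
 (.ev (nat_lit 1629) (nat_lit 4294967296) .dd)))) (.br (nat_lit 8) (.ch (nat_lit 7) (.ev (nat_lit 1616)
 (nat_lit 274880004096) (.ev (nat_lit 1629) (nat_lit 4294967296) .dd))) (.br (nat_lit 11) (.ch (nat_lit 8) (.ev
 (nat_lit 1616) (nat_lit 4294967296) (.fin (nat_lit 576496486486327672)))) (.ch (nat_lit 11) (.ev (nat_lit
 1616) (nat_lit 279172874240) (.ev (nat_lit 1629) (nat_lit 2097152) .dd))))))))))))) (.br (nat_lit 62) (.ch
 (nat_lit 58) (.ev (nat_lit 52) (nat_lit 105899133767680) (.ev (nat_lit 532) (nat_lit 8) (.ev (nat_lit 596)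
 (nat_lit 32768) (.ev (nat_lit 692) (nat_lit 2097152) (.ev (nat_lit 1044) (nat_lit 65536) (.ev (nat_lit 1396)
 (nat_lit 4294967296) (.nd (nat_lit 1600) (.br (nat_lit 6) (.br (nat_lit 3) (.ch (nat_lit 1) (.ev (nat_lit
 1616) (nat_lit 4398047559680) (.ev (nat_lit 1629) (nat_lit 8589934592) .dd))) (.ch (nat_lit 3) (.ev (nat_lit
 1616) (nat_lit 1048576) (.ev (nat_lit 3172) (nat_lit 8589934592) (.ev (nat_lit 3181) (nat_lit 4398046511104)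
 .dd))))) (.br (nat_lit 9) (.ch (nat_lit 6) (.ev (nat_lit 1616) (nat_lit 8590983168) (.ev (nat_lit 1629)
 (nat_lit 4398046511104) .dd))) (.br (nat_lit 11) (.ch (nat_lit 9) (.ev (nat_lit 1616) (nat_lit 8589934592)
 (.ev (nat_lit 3268) (nat_lit 1048576) (.ev (nat_lit 3277) (nat_lit 4398046511104) .dd)))) (.ch (nat_lit 11)
 (.ev (nat_lit 1616) (nat_lit 4406636445696) (.ev (nat_lit 1629) (nat_lit 1048576) .dd)))))))))))))) (.ch
 (nat_lit 62) (.ev (nat_lit 52) (nat_lit 4410936754184) (.ev (nat_lit 436) (nat_lit 274877906944) (.ev (nat_lit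
 532) (nat_lit 268435456) (.ev (nat_lit 660) (nat_lit 4096) (.ev (nat_lit 1520) (nat_lit 70368746274816) (.nd
 (nat_lit 1600) (.br (nat_lit 7) (.br (nat_lit 2) (.ch (nat_lit 1) (.ev (nat_lit 1616) (nat_lit 2147483648)
 (.fin (nat_lit 576496486379373352)))) (.ch (nat_lit 2) (.ev (nat_lit 1616) (nat_lit 35253091565568) (.ev
 (nat_lit 1629) (nat_lit 2147483648) .dd)))) (.br (nat_lit 9) (.ch (nat_lit 7) (.ev (nat_lit 1616) (nat_lit
 35253091565568) (.ev (nat_lit 1629) (nat_lit 2147483648) .dd))) (.br (nat_lit 11) (.ch (nat_lit 9) (.ev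
 (nat_lit 1616) (nat_lit 35255239049216) .dd)) (.ch (nat_lit 11) (.ev (nat_lit 1616) (nat_lit 70866960384) (.ev
 (nat_lit 1629) (nat_lit 35184372088832) .dd)))))))))))))))) (.br (nat_lit 68) (.br (nat_lit 65) (.ch (nat_lit
 64) (.ev (nat_lit 52) (nat_lit 39932458434560) (.ev (nat_lit 308) (nat_lit 8589967360) (.ev (nat_lit 596)
 (nat_lit 2097152) (.nd (nat_lit 1600) (.br (nat_lit 8) (.br (nat_lit 6) (.ch (nat_lit 1) (.ev (nat_lit 1616)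
 (nat_lit 4263936) (.ev (nat_lit 1684) (nat_lit 70368745226240) (.ev (nat_lit 3024) (nat_lit 268435456) (.ev
 (nat_lit 3037) (nat_lit 8) .dd))))) (.br (nat_lit 7) (.ch (nat_lit 6) (.ev (nat_lit 1616) (nat_lit
 70369017921544) (.ev (nat_lit 1629) (nat_lit 4096) .dd))) (.ch (nat_lit 7) (.ev (nat_lit 1616) (nat_lit
 70368748376064) (.ev (nat_lit 3024) (nat_lit 1048576) (.ev (nat_lit 3172) (nat_lit 8) (.fin (nat_lit
 576434913776452186)))))))) (.br (nat_lit 9) (.ch (nat_lit 8) (.ev (nat_lit 1616) (nat_lit 70369017856008) (.ev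
 (nat_lit 3024) (nat_lit 4096) (.ev (nat_lit 3037) (nat_lit 65536) .dd)))) (.br (nat_lit 11) (.ch (nat_lit 9)
 (.ev (nat_lit 1616) (nat_lit 1118208) (.ev (nat_lit 1684) (nat_lit 70368744177664) (.ev (nat_lit 2324)
 (nat_lit 8) (.ev (nat_lit 2960) (nat_lit 4194304) (.ev (nat_lit 2973) (nat_lit 268435456) .dd)))))) (.ch
 (nat_lit 11) (.ev (nat_lit 1616) (nat_lit 70369017925640) .dd)))))))))) (.br (nat_lit 67) (.ch (nat_lit 65)
 (.ev (nat_lit 52) (nat_lit 74775381737480) (.ev (nat_lit 276) (nat_lit 4194304) (.ev (nat_lit 864) (nat_lit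
 35534682492928) .dd)))) (.ch (nat_lit 67) (.ev (nat_lit 52) (nat_lit 70654366908424) (.ev (nat_lit 500)
 (nat_lit 4398046511104) (.ev (nat_lit 532) (nat_lit 32768) (.ev (nat_lit 884) (nat_lit 4096) (.ev (nat_lit
 1204) (nat_lit 4294967296) (.nd (nat_lit 1600) (.br (nat_lit 6) (.br (nat_lit 1) (.ch (nat_lit 0) (.ev
 (nat_lit 1616) (nat_lit 35253091565568) (.ev (nat_lit 1629) (nat_lit 268435456) .dd))) (.br (nat_lit 3) (.ch
 (nat_lit 1) (.ev (nat_lit 3056) (nat_lit 268435456) (.nd (nat_lit 4112) (.br (nat_lit 11) (.ch (nat_lit 4)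
 (.ev (nat_lit 4128) (nat_lit 35253091565568) .dd)) (.ch (nat_lit 11) (.fin (nat_lit 576426117742149976)))))))
 (.ch (nat_lit 3) (.ev (nat_lit 1616) (nat_lit 35253360001024) .dd)))) (.br (nat_lit 7) (.ch (nat_lit 6) (.ev
 (nat_lit 1616) (nat_lit 68987912192) (.ev (nat_lit 1629) (nat_lit 35184372088832) .dd))) (.br (nat_lit 9) (.ch
 (nat_lit 7) (.ev (nat_lit 1616) (nat_lit 35184640524288) (.ev (nat_lit 1629) (nat_lit 68719476736) .dd))) (.ch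
 (nat_lit 9) (.ev (nat_lit 1990) (nat_lit 35184372088832) (.ev (nat_lit 2992) (nat_lit 68719476736) (.ev
 (nat_lit 3005) (nat_lit 268435456) .dd)))))))))))))))) (.br (nat_lit 69) (.ch (nat_lit 68) (.ev (nat_lit 52)
 (nat_lit 110294760263680) (.ev (nat_lit 1076) (nat_lit 2147483648) (.nd (nat_lit 1600) (.br (nat_lit 3) (.br
 (nat_lit 1) (.ch (nat_lit 0) (.ev (nat_lit 1616) (nat_lit 5242888) (.ev (nat_lit 1684) (nat_lit 4294967296)
 (.ev (nat_lit 2912) (nat_lit 268435456) (.ev (nat_lit 3104) (nat_lit 8589934592) (.ev (nat_lit 3117) (nat_lit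
 2097152) .dd)))))) (.br (nat_lit 2) (.ch (nat_lit 1) (.ev (nat_lit 1616) (nat_lit 4302307328) (.ev (nat_lit
 1684) (nat_lit 8) (.ev (nat_lit 2912) (nat_lit 8589934592) (.ev (nat_lit 2925) (nat_lit 268435456) .dd)))))
 (.ch (nat_lit 2) (.ev (nat_lit 1616) (nat_lit 271581192) (.ev (nat_lit 2774) (nat_lit 4194304) (.ev (nat_lit
 3136) (nat_lit 8589934592) (.ev (nat_lit 3149) (nat_lit 4294967296) .dd))))))) (.br (nat_lit 9) (.ch (nat_lit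
 3) (.ev (nat_lit 1616) (nat_lit 12890144768) (.ev (nat_lit 1712) (nat_lit 8) (.ev (nat_lit 2324) (nat_lit
 2097152) (.ev (nat_lit 2333) (nat_lit 268435456) .dd))))) (.br (nat_lit 11) (.ch (nat_lit 9) (.ev (nat_lit
 1616) (nat_lit 12891193352) (.ev (nat_lit 3172) (nat_lit 1048576) (.ev (nat_lit 3181) (nat_lit 268435456)
 .dd)))) (.ch (nat_lit 11) (.ev (nat_lit 1616) (nat_lit 13159628808) (.ev (nat_lit 1629) (nat_lit 1048576)
 .dd)))))))))) (.br (nat_lit 70) (.ch (nat_lit 69) (.ev (nat_lit 52) (nat_lit 35197532798976) (.ev (nat_lit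
 148) (nat_lit 8) (.nd (nat_lit 1600) (.br (nat_lit 8) (.br (nat_lit 3) (.ch (nat_lit 0) (.ev (nat_lit 1616)
 (nat_lit 70867025920) (.ev (nat_lit 1684) (nat_lit 4398046511104) (.ev (nat_lit 3172) (nat_lit 70643622084608)
 (.ev (nat_lit 3181) (nat_lit 4096) .dd))))) (.br (nat_lit 6) (.ch (nat_lit 3) (.ev (nat_lit 1616) (nat_lit
 74835510235136) (.ev (nat_lit 1684) (nat_lit 2147483648) (.ev (nat_lit 1693) (nat_lit 274877906944) .dd))))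
 (.ch (nat_lit 6) (.ev (nat_lit 1616) (nat_lit 277025390592) (.ev (nat_lit 1684) (nat_lit 4096) (.ev (nat_lit
 1744) (nat_lit 65536) (.ev (nat_lit 3040) (nat_lit 4398046511104) (.ev (nat_lit 3072) (nat_lit 68719476736)
 (.ev (nat_lit 3085) (nat_lit 70368744177664) .dd))))))))) (.br (nat_lit 9) (.ch (nat_lit 8) (.ev (nat_lit
 1616) (nat_lit 4400194064384) (.ev (nat_lit 1632) (nat_lit 68719476736) (.ev (nat_lit 2228) (nat_lit
 70368744177664) (.ev (nat_lit 2237) (nat_lit 274877906944) .dd))))) (.br (nat_lit 11) (.ch (nat_lit 9) (.ev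
 (nat_lit 1616) (nat_lit 343597453312) (.ev (nat_lit 3172) (nat_lit 70368744177664) (.ev (nat_lit 3248)
 (nat_lit 4398046511104) (.ev (nat_lit 3261) (nat_lit 2147483648) .dd))))) (.ch (nat_lit 11) (.ev (nat_lit
 1616) (nat_lit 75112535625728) .dd))))))))) (.ch (nat_lit 70) (.ev (nat_lit 52) (nat_lit 105622104182784) (.ev
 (nat_lit 84) (nat_lit 65536) (.ev (nat_lit 148) (nat_lit 4398046511104) (.ev (nat_lit 692) (nat_lit
 8589934592) (.ev (nat_lit 1044) (nat_lit 4194304) (.ev (nat_lit 1204) (nat_lit 2147483648) (.nd (nat_lit 1600)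
 (.br (nat_lit 2) (.br (nat_lit 1) (.ch (nat_lit 0) (.ev (nat_lit 1616) (nat_lit 274878988296) (.ev (nat_lit
 3172) (nat_lit 2097152) (.ev (nat_lit 3181) (nat_lit 4294967296) .dd)))) (.ch (nat_lit 1) (.ev (nat_lit 1616)
 (nat_lit 4297064456) (.ev (nat_lit 1684) (nat_lit 274878955520) (.ev (nat_lit 1693) (nat_lit 32768) .dd)))))
 (.br (nat_lit 7) (.ch (nat_lit 2) (.ev (nat_lit 1616) (nat_lit 4298113032) (.ev (nat_lit 2896) (nat_lit 32768)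
 (.ev (nat_lit 2909) (nat_lit 274877906944) .dd)))) (.br (nat_lit 8) (.ch (nat_lit 7) (.ev (nat_lit 1616)
 (nat_lit 279172874240) (.ev (nat_lit 1684) (nat_lit 1048576) (.ev (nat_lit 3012) (nat_lit 32768) (.ev (nat_lit
 3172) (nat_lit 8) (.ev (nat_lit 3181) (nat_lit 2097152) .dd)))))) (.ch (nat_lit 8) (.ev (nat_lit 1616)
 (nat_lit 274881085448) (.ev (nat_lit 1629) (nat_lit 4294967296) .dd))))))))))))))))))))))

/-- Subtrie. -/
noncomputable def T5 : Tr := (.ev (nat_lit 20) (nat_lit 22029696794656) (.nd (nat_lit 33) (.br (nat_lit 39)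
 (.br (nat_lit 19) (.br (nat_lit 8) (.br (nat_lit 4) (.br (nat_lit 3) (.ch (nat_lit 1) (.ev (nat_lit 52)
 (nat_lit 77547178496) (.ev (nat_lit 480) (nat_lit 105830142791694) .dd))) (.ch (nat_lit 3) (.ev (nat_lit 52)
 (nat_lit 345882247178) (.ev (nat_lit 256) (nat_lit 105561807723012) .dd)))) (.br (nat_lit 5) (.ch (nat_lit 4)
 (.ev (nat_lit 52) (nat_lit 35261682029066) (.ev (nat_lit 116) (nat_lit 1048576) (.ev (nat_lit 756) (nat_lit
 2097152) (.ev (nat_lit 916) (nat_lit 274877906944) (.ev (nat_lit 1300) (nat_lit 16384) (.nd (nat_lit 1600)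
 (.br (nat_lit 8) (.br (nat_lit 1) (.ch (nat_lit 0) (.ev (nat_lit 1616) (nat_lit 70368979388416) (.ev (nat_lit
 1696) (nat_lit 2147483648) (.ev (nat_lit 1709) (nat_lit 4) .dd)))) (.br (nat_lit 5) (.ch (nat_lit 1) (.ev
 (nat_lit 1616) (nat_lit 2214920192) (.ev (nat_lit 1780) (nat_lit 134217728) (.ev (nat_lit 2710) (nat_lit 4)
 (.ev (nat_lit 2896) (nat_lit 2048) (.ev (nat_lit 3024) (nat_lit 33554432) (.ev (nat_lit 3037) (nat_lit
 70368744177664) .dd))))))) (.ch (nat_lit 5) (.ev (nat_lit 1616) (nat_lit 70370925543428) (.ev (nat_lit 3012)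
 (nat_lit 134217728) (.ev (nat_lit 3172) (nat_lit 2048) (.ev (nat_lit 3181) (nat_lit 67108864) .dd))))))) (.br
 (nat_lit 11) (.br (nat_lit 9) (.ch (nat_lit 8) (.ev (nat_lit 1616) (nat_lit 70371059695616) (.ev (nat_lit
 1780) (nat_lit 65536) (.ev (nat_lit 2896) (nat_lit 2048) (.ev (nat_lit 3280) (nat_lit 4) (.ev (nat_lit 3293)
 (nat_lit 67108864) .dd)))))) (.ch (nat_lit 9) (.ev (nat_lit 1616) (nat_lit 234948612) (.ev (nat_lit 2022)
 (nat_lit 2147483648) (.ev (nat_lit 2912) (nat_lit 70368744177664) (.ev (nat_lit 2925) (nat_lit 262144)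
 .dd)))))) (.br (nat_lit 12) (.ch (nat_lit 11) (.ev (nat_lit 1616) (nat_lit 2282031108) (.ev (nat_lit 2208)
 (nat_lit 33554432) (.ev (nat_lit 3200) (nat_lit 70368744177664) (.ev (nat_lit 3213) (nat_lit 67108864)
 .dd))))) (.ch (nat_lit 12) (.ev (nat_lit 1616) (nat_lit 70370891925508) (.ev (nat_lit 1780) (nat_lit 67108864)
 (.ev (nat_lit 2928) (nat_lit 167772160) (.ev (nat_lit 2941) (nat_lit 65536) .dd))))))))))))))) (.br (nat_lit
 7) (.ch (nat_lit 5) (.ev (nat_lit 52) (nat_lit 70439846101506) (.ev (nat_lit 340) (nat_lit 1048576) (.ev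
 (nat_lit 980) (nat_lit 2097152) (.ev (nat_lit 1204) (nat_lit 274877906944) (.ev (nat_lit 1268) (nat_lit
 35184372088832) (.nd (nat_lit 1600) (.br (nat_lit 8) (.br (nat_lit 4) (.ch (nat_lit 0) (.ev (nat_lit 1616)
 (nat_lit 8590462988) (.ev (nat_lit 3012) (nat_lit 262144) (.ev (nat_lit 3021) (nat_lit 2048) .dd)))) (.br
 (nat_lit 5) (.ch (nat_lit 4) (.ev (nat_lit 1616) (nat_lit 8590727180) .dd)) (.ch (nat_lit 5) (.ev (nat_lit
 1616) (nat_lit 2060) (.ev (nat_lit 2806) (nat_lit 524288) (.ev (nat_lit 3172) (nat_lit 8589938688) (.ev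
 (nat_lit 3181) (nat_lit 262144) .dd))))))) (.br (nat_lit 11) (.ch (nat_lit 8) (.ev (nat_lit 1616) (nat_lit
 8590725120) (.ev (nat_lit 3024) (nat_lit 4) (.ev (nat_lit 3280) (nat_lit 2056) .dd)))) (.br (nat_lit 12) (.ch
 (nat_lit 11) (.ev (nat_lit 1616) (nat_lit 8590723076) (.ev (nat_lit 2096) (nat_lit 8) (.ev (nat_lit 2109)
 (nat_lit 4096) .dd)))) (.ch (nat_lit 12) (.ev (nat_lit 1616) (nat_lit 8590727176) (.ev (nat_lit 1629) (nat_lit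
 4) .dd))))))))))))) (.ch (nat_lit 7) (.ev (nat_lit 52) (nat_lit 35253195706374) (.ev (nat_lit 404) (nat_lit
 70368744177664) (.ev (nat_lit 532) (nat_lit 8589934592) (.ev (nat_lit 1012) (nat_lit 2048) (.nd (nat_lit 1600)
 (.br (nat_lit 6) (.br (nat_lit 5) (.ch (nat_lit 4) (.ev (nat_lit 1616) (nat_lit 134742024) (.ev (nat_lit 1684)
 (nat_lit 2147500032) (.ev (nat_lit 3120) (nat_lit 512) (.ev (nat_lit 3133) (nat_lit 274877906944) .dd)))))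
 (.ch (nat_lit 5) (.ev (nat_lit 1616) (nat_lit 277025406976) (.nd (nat_lit 2864) (.br (nat_lit 5) (.br (nat_lit
 1) (.ch (nat_lit 0) (.ev (nat_lit 2880) (nat_lit 524808) (.ev (nat_lit 2893) (nat_lit 134217728) .dd))) (.br
 (nat_lit 4) (.ch (nat_lit 1) (.ev (nat_lit 3172) (nat_lit 8) (.ev (nat_lit 3316) (nat_lit 512) (.fin (nat_lit
 576474496163594850))))) (.ch (nat_lit 4) (.ev (nat_lit 2880) (nat_lit 134742528) (.ev (nat_lit 2893) (nat_lit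
 8) .dd))))) (.br (nat_lit 6) (.ch (nat_lit 5) (.ev (nat_lit 2880) (nat_lit 134217736) (.ev (nat_lit 3184)
 (nat_lit 524800) .dd))) (.br (nat_lit 10) (.ch (nat_lit 6) (.ev (nat_lit 2880) (nat_lit 134217736) (.ev
 (nat_lit 3316) (nat_lit 512) (.ev (nat_lit 3325) (nat_lit 524288) .dd)))) (.ch (nat_lit 10) (.ev (nat_lit
 2880) (nat_lit 134742024) (.ev (nat_lit 2893) (nat_lit 512) .dd)))))))))) (.br (nat_lit 8) (.ch (nat_lit 6)
 (.ev (nat_lit 1616) (nat_lit 275012648968) (.ev (nat_lit 3296) (nat_lit 2147483648) (.fin (nat_lit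
 576544864733708956))))) (.br (nat_lit 12) (.ch (nat_lit 8) (.ev (nat_lit 1616) (nat_lit 524800) (.ev (nat_lit
 1684) (nat_lit 8) (.ev (nat_lit 2260) (nat_lit 274877906944) (.ev (nat_lit 3172) (nat_lit 134234112) (.ev
 (nat_lit 3181) (nat_lit 2147483648) .dd)))))) (.ch (nat_lit 12) (.ev (nat_lit 1616) (nat_lit 2282242568) (.ev
 (nat_lit 1629) (nat_lit 274877906944) .dd))))))))))))))) (.br (nat_lit 15) (.br (nat_lit 11) (.ch (nat_lit 8)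
 (.ev (nat_lit 52) (nat_lit 35186622419464) (.ev (nat_lit 84) (nat_lit 8589934592) (.ev (nat_lit 660) (nat_lit
 524288) (.ev (nat_lit 1332) (nat_lit 134217728) (.ev (nat_lit 1364) (nat_lit 274877906944) (.nd (nat_lit 1600)
 (.br (nat_lit 4) (.br (nat_lit 1) (.ch (nat_lit 0) (.ev (nat_lit 1616) (nat_lit 70437463654402) (.nd (nat_lit
 2864) (.br (nat_lit 9) (.br (nat_lit 5) (.ch (nat_lit 1) (.ev (nat_lit 2880) (nat_lit 1048580) (.ev (nat_lit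
 3268) (nat_lit 262144) (.ev (nat_lit 3277) (nat_lit 2048) .dd)))) (.br (nat_lit 8) (.ch (nat_lit 5) (.ev
 (nat_lit 2880) (nat_lit 1048580) (.ev (nat_lit 3268) (nat_lit 262144) (.ev (nat_lit 3277) (nat_lit 2048)
 .dd)))) (.ch (nat_lit 8) (.ev (nat_lit 3172) (nat_lit 4) (.ev (nat_lit 3268) (nat_lit 262144) (.fin (nat_lit
 576496486429704814))))))) (.br (nat_lit 11) (.ch (nat_lit 9) (.ev (nat_lit 2880) (nat_lit 1312768) (.ev
 (nat_lit 2893) (nat_lit 4) .dd))) (.br (nat_lit 12) (.ch (nat_lit 11) (.ev (nat_lit 2880) (nat_lit 1050628)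
 (.ev (nat_lit 2893) (nat_lit 262144) .dd))) (.ch (nat_lit 12) (.ev (nat_lit 2880) (nat_lit 264196) (.ev
 (nat_lit 2893) (nat_lit 1048576) .dd))))))))) (.ch (nat_lit 1) (.ev (nat_lit 1616) (nat_lit 264192) (.ev
 (nat_lit 1684) (nat_lit 4) (.ev (nat_lit 2356) (nat_lit 68719476736) (.ev (nat_lit 2374) (nat_lit
 70368744177666) (.ev (nat_lit 2381) (nat_lit 1048576) .dd))))))) (.br (nat_lit 9) (.ch (nat_lit 4) (.ev
 (nat_lit 1616) (nat_lit 1050628) (.ev (nat_lit 1684) (nat_lit 70368744177666) (.ev (nat_lit 3120) (nat_lit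
 262144) (.ev (nat_lit 3133) (nat_lit 68719476736) .dd))))) (.br (nat_lit 11) (.ch (nat_lit 9) (.ev (nat_lit
 1616) (nat_lit 68720527364) (.nd (nat_lit 2864) (.br (nat_lit 10) (.br (nat_lit 4) (.ch (nat_lit 3) (.ev
 (nat_lit 2880) (nat_lit 262146) (.ev (nat_lit 2893) (nat_lit 70368744177664) .dd))) (.ch (nat_lit 4) (.ev
 (nat_lit 2880) (nat_lit 70368744439808) (.ev (nat_lit 2893) (nat_lit 2) .dd)))) (.br (nat_lit 12) (.ch
 (nat_lit 10) (.ev (nat_lit 2880) (nat_lit 262146) (.ev (nat_lit 2893) (nat_lit 70368744177664) .dd))) (.ch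
 (nat_lit 12) (.ev (nat_lit 2880) (nat_lit 70368744177664) (.fin (nat_lit 576316166451446116))))))))) (.ch
 (nat_lit 11) (.ev (nat_lit 1616) (nat_lit 70368745490438) (.ev (nat_lit 1629) (nat_lit 68719476736)
 .dd))))))))))))) (.br (nat_lit 12) (.ch (nat_lit 11) (.ev (nat_lit 52) (nat_lit 70643622889476) (.ev (nat_lit
 500) (nat_lit 2147483648) (.ev (nat_lit 724) (nat_lit 77309411328) (.ev (nat_lit 820) (nat_lit 4096) (.ev
 (nat_lit 1172) (nat_lit 8) (.nd (nat_lit 1600) (.br (nat_lit 5) (.br (nat_lit 1) (.ch (nat_lit 0) (.ev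
 (nat_lit 1616) (nat_lit 35184609133058) (.ev (nat_lit 1629) (nat_lit 1048576) .dd))) (.br (nat_lit 4) (.ch
 (nat_lit 1) (.ev (nat_lit 1616) (nat_lit 35184439263746) (.ev (nat_lit 1728) (nat_lit 33554432) (.nd (nat_lit
 2864) (.br (nat_lit 4) (.br (nat_lit 3) (.ch (nat_lit 0) (.ev (nat_lit 2880) (nat_lit 3145728) (.ev (nat_lit
 2893) (nat_lit 134217728) .dd))) (.ch (nat_lit 3) (.ev (nat_lit 2880) (nat_lit 2097152) (.ev (nat_lit 3012)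
 (nat_lit 1048576) (.ev (nat_lit 3021) (nat_lit 134217728) .dd))))) (.br (nat_lit 7) (.ch (nat_lit 4) (.ev
 (nat_lit 2880) (nat_lit 136314880) (.ev (nat_lit 2893) (nat_lit 1048576) .dd))) (.br (nat_lit 8) (.ch (nat_lit
 7) (.ev (nat_lit 2880) (nat_lit 134217728) (.ev (nat_lit 3012) (nat_lit 1048576) (.ev (nat_lit 3021) (nat_lit
 2097152) .dd)))) (.ch (nat_lit 8) (.ev (nat_lit 2880) (nat_lit 2097152) (.ev (nat_lit 3012) (nat_lit 1048576)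
 (.ev (nat_lit 3021) (nat_lit 134217728) .dd))))))))))) (.ch (nat_lit 4) (.ev (nat_lit 1616) (nat_lit
 35184575513090) (.ev (nat_lit 1632) (nat_lit 65536) (.ev (nat_lit 3200) (nat_lit 33554432) (.ev (nat_lit 3213)
 (nat_lit 1048576) .dd))))))) (.br (nat_lit 6) (.ch (nat_lit 5) (.ev (nat_lit 1616) (nat_lit 35184540975106)
 (.ev (nat_lit 3344) (nat_lit 2097152) (.fin (nat_lit 576426117635195224))))) (.br (nat_lit 9) (.ch (nat_lit 6)
 (.ev (nat_lit 1616) (nat_lit 35184575578114) (.ev (nat_lit 3012) (nat_lit 512) (.ev (nat_lit 3120) (nat_lit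
 1048576) (.ev (nat_lit 3133) (nat_lit 33554432) .dd))))) (.ch (nat_lit 9) (.ev (nat_lit 1616) (nat_lit
 36766208) (.ev (nat_lit 1876) (nat_lit 67108864) (.ev (nat_lit 2928) (nat_lit 134217728) (.fin (nat_lit
 576456904061436466)))))))))))))))) (.ch (nat_lit 12) (.ev (nat_lit 52) (nat_lit 2184970758) (.ev (nat_lit 116)
 (nat_lit 65536) (.ev (nat_lit 352) (nat_lit 105905504933896) .dd)))))) (.br (nat_lit 16) (.ch (nat_lit 15)
 (.ev (nat_lit 52) (nat_lit 105828229644296) (.ev (nat_lit 116) (nat_lit 262144) (.ev (nat_lit 340) (nat_lit 4)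
 (.ev (nat_lit 692) (nat_lit 68719476736) (.ev (nat_lit 1204) (nat_lit 16384) (.nd (nat_lit 1600) (.br (nat_lit
 9) (.br (nat_lit 4) (.ch (nat_lit 0) (.ev (nat_lit 1616) (nat_lit 10739515394) (.ev (nat_lit 3172) (nat_lit
 4096) (.ev (nat_lit 3316) (nat_lit 512) (.fin (nat_lit 576426117691818514)))))) (.br (nat_lit 5) (.ch (nat_lit
 4) (.ev (nat_lit 1616) (nat_lit 10740570626) .dd)) (.ch (nat_lit 5) (.ev (nat_lit 1616) (nat_lit 10738466818)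
 (.ev (nat_lit 1684) (nat_lit 4096) (.ev (nat_lit 1780) (nat_lit 2048) (.ev (nat_lit 3024) (nat_lit 2097152)
 (.ev (nat_lit 3037) (nat_lit 512) .dd)))))))) (.br (nat_lit 11) (.ch (nat_lit 9) (.ev (nat_lit 1616) (nat_lit
 2103808) (.nd (nat_lit 2864) (.br (nat_lit 4) (.br (nat_lit 3) (.ch (nat_lit 2) (.ev (nat_lit 2880) (nat_lit
 8589934594) (.ev (nat_lit 3012) (nat_lit 2147483648) (.ev (nat_lit 3021) (nat_lit 1048576) .dd)))) (.ch
 (nat_lit 3) (.ev (nat_lit 2880) (nat_lit 2147483650) (.ev (nat_lit 2896) (nat_lit 1048576) (.ev (nat_lit 2909)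
 (nat_lit 8589934592) .dd))))) (.br (nat_lit 10) (.ch (nat_lit 4) (.ev (nat_lit 2880) (nat_lit 8590983170) (.ev
 (nat_lit 2893) (nat_lit 2147483648) .dd))) (.ch (nat_lit 10) (.ev (nat_lit 2880) (nat_lit 10737418240) (.ev
 (nat_lit 3024) (nat_lit 1048578) .dd)))))))) (.br (nat_lit 12) (.ch (nat_lit 11) (.ev (nat_lit 1616) (nat_lit
 10740568066) (.ev (nat_lit 1958) (nat_lit 512) (.ev (nat_lit 1965) (nat_lit 2048) .dd)))) (.ch (nat_lit 12)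
 (.ev (nat_lit 1616) (nat_lit 10740570624) (.ev (nat_lit 1629) (nat_lit 2) .dd))))))))))))) (.br (nat_lit 18)
 (.ch (nat_lit 16) (.ev (nat_lit 52) (nat_lit 275016073216) (.ev (nat_lit 564) (nat_lit 2147483648) (.ev
 (nat_lit 692) (nat_lit 512) (.ev (nat_lit 820) (nat_lit 68719476736) (.ev (nat_lit 1044) (nat_lit 8589934592)
 (.ev (nat_lit 1300) (nat_lit 35184372088832) (.nd (nat_lit 1600) (.br (nat_lit 5) (.br (nat_lit 1) (.ch
 (nat_lit 0) (.ev (nat_lit 1616) (nat_lit 70368844912654) .dd)) (.br (nat_lit 4) (.ch (nat_lit 1) (.ev (nat_lit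
 1616) (nat_lit 70368811286540) (.ev (nat_lit 1648) (nat_lit 4096) (.ev (nat_lit 1684) (nat_lit 2) (.nd
 (nat_lit 2864) (.br (nat_lit 4) (.br (nat_lit 1) (.ch (nat_lit 0) (.ev (nat_lit 2880) (nat_lit 33622016) .dd))
 (.ch (nat_lit 1) (.ev (nat_lit 2880) (nat_lit 67584) (.ev (nat_lit 2893) (nat_lit 33554432) .dd)))) (.br
 (nat_lit 7) (.ch (nat_lit 4) (.ev (nat_lit 2880) (nat_lit 67584) (.ev (nat_lit 2893) (nat_lit 33554432) .dd)))
 (.br (nat_lit 8) (.ch (nat_lit 7) (.ev (nat_lit 2880) (nat_lit 33554432) (.ev (nat_lit 3012) (nat_lit 65536)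
 (.ev (nat_lit 3021) (nat_lit 2048) .dd)))) (.ch (nat_lit 8) (.ev (nat_lit 2880) (nat_lit 33622016)
 .dd)))))))))) (.ch (nat_lit 4) (.ev (nat_lit 1616) (nat_lit 70368844912644) (.ev (nat_lit 3172) (nat_lit 2)
 (.ev (nat_lit 3181) (nat_lit 8) .dd)))))) (.br (nat_lit 6) (.ch (nat_lit 5) (.ev (nat_lit 1616) (nat_lit
 70368844908558) (.ev (nat_lit 1629) (nat_lit 4096) .dd))) (.br (nat_lit 8) (.ch (nat_lit 6) (.ev (nat_lit
 1616) (nat_lit 6158) (.ev (nat_lit 1712) (nat_lit 70368744177664) (.ev (nat_lit 2486) (nat_lit 33554432) (.ev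
 (nat_lit 3056) (nat_lit 67108864) (.ev (nat_lit 3069) (nat_lit 65536) .dd)))))) (.ch (nat_lit 8) (.ev (nat_lit
 1616) (nat_lit 100667400) (.ev (nat_lit 1684) (nat_lit 2) (.ev (nat_lit 1844) (nat_lit 65536) (.ev (nat_lit
 2228) (nat_lit 70368744177664) (.ev (nat_lit 2928) (nat_lit 4) (.ev (nat_lit 2941) (nat_lit 2048)
 .dd)))))))))))))))))) (.ch (nat_lit 18) (.ev (nat_lit 52) (nat_lit 35459320860678) (.ev (nat_lit 704) (nat_lit
 70448369109512) .dd))))))) (.br (nat_lit 29) (.br (nat_lit 23) (.br (nat_lit 22) (.ch (nat_lit 19) (.ev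
 (nat_lit 52) (nat_lit 70643625232900) (.ev (nat_lit 340) (nat_lit 67108864) (.ev (nat_lit 468) (nat_lit 8)
 (.ev (nat_lit 628) (nat_lit 16384) (.ev (nat_lit 820) (nat_lit 8589934592) (.ev (nat_lit 1012) (nat_lit
 262144) (.ev (nat_lit 1044) (nat_lit 4096) (.ev (nat_lit 1396) (nat_lit 134217728) (.ev (nat_lit 1408)
 (nat_lit 2) (.nd (nat_lit 1600) (.br (nat_lit 6) (.br (nat_lit 1) (.ch (nat_lit 0) (.ev (nat_lit 1616)
 (nat_lit 35255272669184) (.ev (nat_lit 1629) (nat_lit 524288) .dd))) (.br (nat_lit 4) (.ch (nat_lit 1) (.ev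
 (nat_lit 1616) (nat_lit 35255272669184) (.ev (nat_lit 1629) (nat_lit 524288) .dd))) (.ch (nat_lit 4) (.ev
 (nat_lit 1616) (nat_lit 35253091565568) (.ev (nat_lit 3024) (nat_lit 2147483648) (.ev (nat_lit 3316) (nat_lit
 524288) (.ev (nat_lit 3360) (nat_lit 65536) (.ev (nat_lit 3373) (nat_lit 33554432) .dd)))))))) (.br (nat_lit
 9) (.ch (nat_lit 6) (.ev (nat_lit 1616) (nat_lit 2148007936) (.ev (nat_lit 2502) (nat_lit 65536) (.ev (nat_lit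
 3040) (nat_lit 35184372088832) (.ev (nat_lit 3172) (nat_lit 68719476736) (.ev (nat_lit 3181) (nat_lit
 33554432) .dd)))))) (.br (nat_lit 11) (.ch (nat_lit 9) (.ev (nat_lit 1616) (nat_lit 35253125709824) (.ev
 (nat_lit 1629) (nat_lit 2147483648) .dd))) (.ch (nat_lit 11) (.ev (nat_lit 1616) (nat_lit 35186520162304) (.ev
 (nat_lit 2228) (nat_lit 68719476736) (.ev (nat_lit 2237) (nat_lit 33554432) .dd)))))))))))))))))) (.ch
 (nat_lit 22) (.ev (nat_lit 52) (nat_lit 8826126856) (.ev (nat_lit 148) (nat_lit 4096) (.ev (nat_lit 340)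
 (nat_lit 2048) (.ev (nat_lit 756) (nat_lit 65536) (.ev (nat_lit 1076) (nat_lit 35184372088832) (.nd (nat_lit
 1600) (.br (nat_lit 8) (.br (nat_lit 5) (.ch (nat_lit 1) (.ev (nat_lit 1616) (nat_lit 70370892201988) (.ev
 (nat_lit 1712) (nat_lit 2097152) (.nd (nat_lit 2864) (.br (nat_lit 4) (.ch (nat_lit 2) (.ev (nat_lit 2880)
 (nat_lit 274877906946) (.ev (nat_lit 2893) (nat_lit 68719476736) .dd))) (.br (nat_lit 10) (.ch (nat_lit 4)
 (.ev (nat_lit 2880) (nat_lit 2) (.ev (nat_lit 3280) (nat_lit 68719476736) (.ev (nat_lit 3293) (nat_lit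
 274877906944) .dd)))) (.ch (nat_lit 10) (.ev (nat_lit 2880) (nat_lit 343597383680) (.ev (nat_lit 2893)
 (nat_lit 2) .dd))))))))) (.br (nat_lit 6) (.ch (nat_lit 5) (.ev (nat_lit 1616) (nat_lit 70714491666438) (.ev
 (nat_lit 1629) (nat_lit 16384) .dd))) (.ch (nat_lit 6) (.ev (nat_lit 1616) (nat_lit 274877923334) (.ev
 (nat_lit 1684) (nat_lit 70368744177664) (.ev (nat_lit 1972) (nat_lit 68719476736) (.ev (nat_lit 3012) (nat_lit
 2621440) (.ev (nat_lit 3021) (nat_lit 2147483648) .dd)))))))) (.br (nat_lit 9) (.ch (nat_lit 8) (.ev (nat_lit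
 1616) (nat_lit 2621446) (.ev (nat_lit 1648) (nat_lit 16384) (.ev (nat_lit 1684) (nat_lit 70368744177664) (.ev
 (nat_lit 2116) (nat_lit 2147483648) (.ev (nat_lit 3172) (nat_lit 68719476736) (.ev (nat_lit 3181) (nat_lit
 274877906944) .dd))))))) (.br (nat_lit 12) (.ch (nat_lit 9) (.ev (nat_lit 1616) (nat_lit 345747505154) (.ev
 (nat_lit 3172) (nat_lit 70368744177664) (.ev (nat_lit 3181) (nat_lit 4) .dd)))) (.ch (nat_lit 12) (.ev
 (nat_lit 1616) (nat_lit 70714491682822) .dd))))))))))))) (.br (nat_lit 24) (.ch (nat_lit 23) (.ev (nat_lit 52)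
 (nat_lit 345748604934) (.ev (nat_lit 288) (nat_lit 105561941365256) .dd))) (.br (nat_lit 26) (.ch (nat_lit 24)
 (.ev (nat_lit 52) (nat_lit 35528204358146) (.ev (nat_lit 224) (nat_lit 70379485612044) .dd))) (.ch (nat_lit
 26) (.ev (nat_lit 52) (nat_lit 70448402665988) (.ev (nat_lit 340) (nat_lit 33554432) (.ev (nat_lit 404)
 (nat_lit 65536) (.ev (nat_lit 660) (nat_lit 2) (.ev (nat_lit 852) (nat_lit 2048) (.ev (nat_lit 948) (nat_lit
 8) (.nd (nat_lit 1600) (.br (nat_lit 6) (.br (nat_lit 5) (.ch (nat_lit 0) (.ev (nat_lit 1616) (nat_lit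
 35459251585024) (.ev (nat_lit 1629) (nat_lit 2097152) .dd))) (.ch (nat_lit 5) (.ev (nat_lit 1616) (nat_lit
 3145728) (.ev (nat_lit 3012) (nat_lit 274878431232) (.ev (nat_lit 3040) (nat_lit 16384) (.ev (nat_lit 3053)
 (nat_lit 35184372088832) .dd)))))) (.br (nat_lit 11) (.ch (nat_lit 6) (.ev (nat_lit 1616) (nat_lit
 274877923328) (.nd (nat_lit 2864) (.br (nat_lit 7) (.br (nat_lit 4) (.ch (nat_lit 0) (.ev (nat_lit 2880)
 (nat_lit 35184374185984) (.ev (nat_lit 3040) (nat_lit 1048576) (.ev (nat_lit 3053) (nat_lit 524288) .dd))))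
 (.ch (nat_lit 4) (.ev (nat_lit 2880) (nat_lit 35184375234560) (.ev (nat_lit 2893) (nat_lit 524288) .dd))))
 (.br (nat_lit 8) (.ch (nat_lit 7) (.ev (nat_lit 2880) (nat_lit 524288) (.ev (nat_lit 2928) (nat_lit 1048576)
 (.ev (nat_lit 3012) (nat_lit 2097152) (.ev (nat_lit 3021) (nat_lit 35184372088832) .dd))))) (.ch (nat_lit 8)
 (.ev (nat_lit 2880) (nat_lit 3145728) (.ev (nat_lit 3172) (nat_lit 524288) (.ev (nat_lit 3181) (nat_lit
 35184372088832) .dd))))))))) (.br (nat_lit 12) (.ch (nat_lit 11) (.ev (nat_lit 1616) (nat_lit 35184375775232)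
 (.ev (nat_lit 1629) (nat_lit 274877906944) .dd))) (.ch (nat_lit 12) (.ev (nat_lit 1616) (nat_lit 274881593344)
 (.ev (nat_lit 1629) (nat_lit 35184372088832) .dd))))))))))))))))) (.br (nat_lit 34) (.br (nat_lit 31) (.ch
 (nat_lit 29) (.ev (nat_lit 52) (nat_lit 70712411884034) (.ev (nat_lit 436) (nat_lit 4096) (.ev (nat_lit 660)
 (nat_lit 35184372105216) (.ev (nat_lit 1024) (nat_lit 10905976844) .dd))))) (.br (nat_lit 33) (.ch (nat_lit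
 31) (.ev (nat_lit 52) (nat_lit 79625994248) (.ev (nat_lit 180) (nat_lit 2048) (.ev (nat_lit 596) (nat_lit
 4096) (.ev (nat_lit 788) (nat_lit 70368744177664) (.ev (nat_lit 820) (nat_lit 512) (.ev (nat_lit 916) (nat_lit
 2) (.nd (nat_lit 1600) (.br (nat_lit 8) (.br (nat_lit 5) (.ch (nat_lit 0) (.ev (nat_lit 1616) (nat_lit
 35459317694468) (.ev (nat_lit 1629) (nat_lit 2097152) .dd))) (.br (nat_lit 6) (.ch (nat_lit 5) (.ev (nat_lit
 1616) (nat_lit 274880069636) (.ev (nat_lit 3024) (nat_lit 524288) (.ev (nat_lit 3184) (nat_lit 67108864) (.ev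
 (nat_lit 3197) (nat_lit 35184372088832) .dd))))) (.ch (nat_lit 6) (.ev (nat_lit 1616) (nat_lit 35459317694468)
 (.ev (nat_lit 1629) (nat_lit 2097152) .dd))))) (.br (nat_lit 9) (.ch (nat_lit 8) (.ev (nat_lit 1616) (nat_lit
 35184374775812) (.ev (nat_lit 1632) (nat_lit 274877906944) (.ev (nat_lit 1645) (nat_lit 67108864) .dd)))) (.br
 (nat_lit 12) (.ch (nat_lit 9) (.ev (nat_lit 1616) (nat_lit 274880593920) (.ev (nat_lit 1684) (nat_lit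
 35184372088832) (.nd (nat_lit 3760) (.br (nat_lit 11) (.ch (nat_lit 2) (.fin (nat_lit 576461302078587464)))
 (.ch (nat_lit 11) (.ev (nat_lit 3776) (nat_lit 4) (.ev (nat_lit 3789) (nat_lit 67108864) .dd)))))))) (.ch
 (nat_lit 12) (.ev (nat_lit 1616) (nat_lit 2621440) (.ev (nat_lit 1684) (nat_lit 4) (.ev (nat_lit 1728)
 (nat_lit 274877906944) (.ev (nat_lit 2752) (nat_lit 35184372088832) (.ev (nat_lit 3012) (nat_lit 65536) (.ev
 (nat_lit 3021) (nat_lit 67108864) .dd)))))))))))))))))) (.ch (nat_lit 33) (.ev (nat_lit 52) (nat_lit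
 105564057895428) (.ev (nat_lit 84) (nat_lit 4096) (.ev (nat_lit 1108) (nat_lit 274877923328) (.nd (nat_lit
 1600) (.br (nat_lit 8) (.br (nat_lit 4) (.ch (nat_lit 1) (.ev (nat_lit 1616) (nat_lit 68719542280) (.nd
 (nat_lit 2864) (.br (nat_lit 4) (.br (nat_lit 1) (.ch (nat_lit 0) (.ev (nat_lit 2880) (nat_lit 34603008) (.ev
 (nat_lit 3088) (nat_lit 2048) (.ev (nat_lit 3101) (nat_lit 2) .dd)))) (.ch (nat_lit 1) (.ev (nat_lit 2880)
 (nat_lit 34605056) (.ev (nat_lit 2893) (nat_lit 2) .dd)))) (.br (nat_lit 6) (.ch (nat_lit 4) (.ev (nat_lit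
 2880) (nat_lit 1050626) (.ev (nat_lit 2893) (nat_lit 33554432) .dd))) (.br (nat_lit 8) (.ch (nat_lit 6) (.ev
 (nat_lit 2880) (nat_lit 33556482) (.ev (nat_lit 2893) (nat_lit 1048576) .dd))) (.ch (nat_lit 8) (.ev (nat_lit
 2880) (nat_lit 34605058) .dd)))))))) (.br (nat_lit 6) (.ch (nat_lit 4) (.ev (nat_lit 1616) (nat_lit 2058) (.ev
 (nat_lit 1940) (nat_lit 1048576) (.ev (nat_lit 3120) (nat_lit 68753031168) (.ev (nat_lit 3133) (nat_lit 65536)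
 .dd))))) (.ch (nat_lit 6) (.ev (nat_lit 1616) (nat_lit 68719478794) (.ev (nat_lit 1684) (nat_lit 1048576) (.nd
 (nat_lit 2864) (.br (nat_lit 10) (.ch (nat_lit 7) (.ev (nat_lit 2880) (nat_lit 33554432) (.ev (nat_lit 2893)
 (nat_lit 65536) .dd))) (.br (nat_lit 12) (.ch (nat_lit 10) (.ev (nat_lit 2880) (nat_lit 33554432) (.ev
 (nat_lit 2893) (nat_lit 65536) .dd))) (.ch (nat_lit 12) (.fin (nat_lit 576465700104127060))))))))))) (.br
 (nat_lit 11) (.ch (nat_lit 8) (.ev (nat_lit 1616) (nat_lit 34670592) (.ev (nat_lit 3024) (nat_lit 8) (.ev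
 (nat_lit 3268) (nat_lit 2) (.ev (nat_lit 3277) (nat_lit 68719476736) .dd))))) (.br (nat_lit 12) (.ch (nat_lit
 11) (.ev (nat_lit 1616) (nat_lit 68754145282) (.ev (nat_lit 1684) (nat_lit 8) (.ev (nat_lit 1693) (nat_lit
 2048) .dd)))) (.ch (nat_lit 12) (.ev (nat_lit 1616) (nat_lit 1116170) (.fin (nat_lit
 576448107762893204)))))))))))))) (.br (nat_lit 36) (.ch (nat_lit 34) (.ev (nat_lit 52) (nat_lit 343668180992)
 (.ev (nat_lit 372) (nat_lit 512) (.ev (nat_lit 404) (nat_lit 4) (.ev (nat_lit 564) (nat_lit 4096) (.ev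
 (nat_lit 852) (nat_lit 33554432) (.ev (nat_lit 1204) (nat_lit 134217728) (.ev (nat_lit 1396) (nat_lit 2) (.nd
 (nat_lit 1600) (.br (nat_lit 9) (.br (nat_lit 4) (.ch (nat_lit 1) (.ev (nat_lit 1616) (nat_lit
 105563853946888) (.ev (nat_lit 1629) (nat_lit 65536) .dd))) (.br (nat_lit 6) (.ch (nat_lit 4) (.ev (nat_lit
 1616) (nat_lit 105561706528768) (.ev (nat_lit 2928) (nat_lit 8) (.ev (nat_lit 2941) (nat_lit 2147483648)
 .dd)))) (.ch (nat_lit 6) (.ev (nat_lit 1616) (nat_lit 8590196744) (.ev (nat_lit 2292) (nat_lit 2147483648)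
 (.ev (nat_lit 3216) (nat_lit 35184372088832) (.ev (nat_lit 3316) (nat_lit 70368744177664) (.ev (nat_lit 3325)
 (nat_lit 65536) .dd)))))))) (.br (nat_lit 11) (.ch (nat_lit 9) (.ev (nat_lit 1616) (nat_lit 35184372154376)
 (.ev (nat_lit 2630) (nat_lit 2147483648) (.ev (nat_lit 2688) (nat_lit 70368744177664) (.ev (nat_lit 2960)
 (nat_lit 8590196736) .dd))))) (.br (nat_lit 12) (.ch (nat_lit 11) (.ev (nat_lit 1616) (nat_lit 70379481661448)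
 (.ev (nat_lit 1664) (nat_lit 35184372088832) (.ev (nat_lit 1677) (nat_lit 262144) .dd)))) (.ch (nat_lit 12)
 (.ev (nat_lit 1616) (nat_lit 10737680392) (.ev (nat_lit 3072) (nat_lit 35184372088832) (.ev (nat_lit 3316)
 (nat_lit 65536) (.ev (nat_lit 3325) (nat_lit 70368744177664) .dd))))))))))))))))) (.br (nat_lit 38) (.ch
 (nat_lit 36) (.ev (nat_lit 52) (nat_lit 105622072213516) (.ev (nat_lit 724) (nat_lit 4608) (.ev (nat_lit 980)
 (nat_lit 65536) (.nd (nat_lit 1600) (.br (nat_lit 9) (.br (nat_lit 5) (.ch (nat_lit 0) (.ev (nat_lit 1616)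
 (nat_lit 283467841538) (.ev (nat_lit 1696) (nat_lit 2048) (.ev (nat_lit 3040) (nat_lit 2149580800) (.ev
 (nat_lit 3053) (nat_lit 262144) .dd))))) (.br (nat_lit 6) (.ch (nat_lit 5) (.ev (nat_lit 1616) (nat_lit
 2147747842) (.ev (nat_lit 2420) (nat_lit 8589934592) (.ev (nat_lit 3380) (nat_lit 2097152) (.ev (nat_lit 3389)
 (nat_lit 274877906944) .dd))))) (.ch (nat_lit 6) (.ev (nat_lit 1616) (nat_lit 283470202882) (.ev (nat_lit
 1629) (nat_lit 2147483648) .dd))))) (.br (nat_lit 11) (.ch (nat_lit 9) (.ev (nat_lit 1616) (nat_lit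
 277027489792) (.ev (nat_lit 3456) (nat_lit 8589934592) (.nd (nat_lit 3920) (.br (nat_lit 12) (.ch (nat_lit 9)
 (.ev (nat_lit 3936) (nat_lit 262146) .dd)) (.ch (nat_lit 12) (.fin (nat_lit 576606437670077212)))))))) (.br
 (nat_lit 12) (.ch (nat_lit 11) (.ev (nat_lit 1616) (nat_lit 10739779586) (.ev (nat_lit 1629) (nat_lit
 274877906944) .dd))) (.ch (nat_lit 12) (.ev (nat_lit 1616) (nat_lit 10739779584) (.ev (nat_lit 1684) (nat_lit
 2) (.ev (nat_lit 1693) (nat_lit 274877906944) .dd)))))))))))) (.ch (nat_lit 38) (.ev (nat_lit 52) (nat_lit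
 8590727182) (.ev (nat_lit 128) (nat_lit 105899099243008) .dd)))))))) (.br (nat_lit 54) (.br (nat_lit 47) (.br
 (nat_lit 43) (.br (nat_lit 42) (.ch (nat_lit 39) (.ev (nat_lit 52) (nat_lit 285718941700) (.ev (nat_lit 672)
 (nat_lit 105621971028490) .dd))) (.ch (nat_lit 42) (.ev (nat_lit 52) (nat_lit 35536559427586) (.ev (nat_lit
 180) (nat_lit 101711872) (.ev (nat_lit 276) (nat_lit 2147483648) (.ev (nat_lit 788) (nat_lit 4) (.ev (nat_lit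
 916) (nat_lit 524288) (.ev (nat_lit 1172) (nat_lit 262144) (.nd (nat_lit 1600) (.br (nat_lit 9) (.br (nat_lit
 4) (.ch (nat_lit 0) (.ev (nat_lit 1616) (nat_lit 70368878460936) (.ev (nat_lit 2646) (nat_lit 2048) (.ev
 (nat_lit 3012) (nat_lit 2097152) (.ev (nat_lit 3021) (nat_lit 512) .dd))))) (.br (nat_lit 8) (.ch (nat_lit 4)
 (.ev (nat_lit 1616) (nat_lit 136317440) (.ev (nat_lit 1940) (nat_lit 65536) (.ev (nat_lit 3392) (nat_lit
 70368744177664) (.ev (nat_lit 3405) (nat_lit 8) .dd))))) (.ch (nat_lit 8) (.ev (nat_lit 1616) (nat_lit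
 2165248) (.ev (nat_lit 3268) (nat_lit 70368744177664) (.nd (nat_lit 4016) (.ch (nat_lit 8) (.nd (nat_lit 4641)
 (.br (nat_lit 52) (.ch (nat_lit 34) (.ev (nat_lit 4657) (nat_lit 134217736) .dd)) (.br (nat_lit 67) (.ch
 (nat_lit 52) (.nd (nat_lit 4832) (.br (nat_lit 8) (.ch (nat_lit 0) (.ev (nat_lit 4848) (nat_lit 134217736)
 .dd)) (.br (nat_lit 10) (.ch (nat_lit 8) (.fin (nat_lit 576593243593458424))) (.ch (nat_lit 10) (.ev (nat_lit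
 4848) (nat_lit 134217736) .dd)))))) (.ch (nat_lit 67) (.ev (nat_lit 4657) (nat_lit 134217736) .dd))))))))))))
 (.br (nat_lit 11) (.ch (nat_lit 9) (.ev (nat_lit 1616) (nat_lit 70368746342400) (.ev (nat_lit 2912) (nat_lit
 512) (.ev (nat_lit 3172) (nat_lit 134217728) (.ev (nat_lit 3181) (nat_lit 8) .dd))))) (.br (nat_lit 12) (.ch
 (nat_lit 11) (.ev (nat_lit 1616) (nat_lit 134285320) (.ev (nat_lit 3104) (nat_lit 512) (.nd (nat_lit 3984)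
 (.br (nat_lit 8) (.ch (nat_lit 0) (.ev (nat_lit 4000) (nat_lit 2097152) (.ev (nat_lit 4013) (nat_lit
 70368744177664) .dd))) (.ch (nat_lit 8) (.fin (nat_lit 576487690378625622)))))))) (.ch (nat_lit 12) (.ev
 (nat_lit 1616) (nat_lit 2099720) (.ev (nat_lit 1684) (nat_lit 134283264) (.ev (nat_lit 1693) (nat_lit
 70368744177664) .dd)))))))))))))))) (.br (nat_lit 44) (.ch (nat_lit 43) (.ev (nat_lit 52) (nat_lit
 285615935498) (.ev (nat_lit 308) (nat_lit 68719476736) (.ev (nat_lit 468) (nat_lit 1048576) (.ev (nat_lit 948)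
 (nat_lit 2048) (.ev (nat_lit 980) (nat_lit 33554432) (.ev (nat_lit 1140) (nat_lit 35184372088832) (.nd
 (nat_lit 1600) (.br (nat_lit 8) (.br (nat_lit 5) (.ch (nat_lit 4) (.ev (nat_lit 1616) (nat_lit 203423748) (.ev
 (nat_lit 3136) (nat_lit 70368744177664) (.ev (nat_lit 3172) (nat_lit 512) (.ev (nat_lit 3181) (nat_lit 262144)
 .dd))))) (.br (nat_lit 6) (.ch (nat_lit 5) (.ev (nat_lit 1616) (nat_lit 70368878657540) (.ev (nat_lit 1712)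
 (nat_lit 2097152) (.fin (nat_lit 576496486486328104))))) (.ch (nat_lit 6) (.ev (nat_lit 1616) (nat_lit
 134480388) (.ev (nat_lit 1684) (nat_lit 2097152) (.ev (nat_lit 3172) (nat_lit 67108864) (.ev (nat_lit 3181)
 (nat_lit 70368744177664) .dd))))))) (.br (nat_lit 9) (.ch (nat_lit 8) (.ev (nat_lit 1616) (nat_lit 136577540)
 (.ev (nat_lit 3012) (nat_lit 70368744177664) (.ev (nat_lit 3021) (nat_lit 67108864) .dd)))) (.br (nat_lit 11)
 (.ch (nat_lit 9) (.ev (nat_lit 1616) (nat_lit 70368746274816) (.nd (nat_lit 2864) (.br (nat_lit 9) (.br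
 (nat_lit 4) (.ch (nat_lit 2) (.ev (nat_lit 3172) (nat_lit 134217728) (.ev (nat_lit 3316) (nat_lit 262144) (.ev
 (nat_lit 3380) (nat_lit 512) (.nd (nat_lit 4577) (.br (nat_lit 52) (.br (nat_lit 4) (.ch (nat_lit 2) (.ev
 (nat_lit 4593) (nat_lit 67108868) .dd)) (.br (nat_lit 50) (.ch (nat_lit 4) (.ev (nat_lit 4593) (nat_lit
 67108868) .dd)) (.ch (nat_lit 50) (.ev (nat_lit 4593) (nat_lit 67108868) .dd)))) (.br (nat_lit 57) (.ch
 (nat_lit 52) (.nd (nat_lit 4768) (.br (nat_lit 1) (.ch (nat_lit 0) (.ev (nat_lit 4784) (nat_lit 67108868)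
 .dd)) (.br (nat_lit 11) (.ch (nat_lit 1) (.ev (nat_lit 4784) (nat_lit 67108868) .dd)) (.ch (nat_lit 11) (.fin
 (nat_lit 576461302078587464))))))) (.br (nat_lit 66) (.ch (nat_lit 57) (.ev (nat_lit 4593) (nat_lit 67108868)
 .dd)) (.ch (nat_lit 66) (.ev (nat_lit 4593) (nat_lit 67108868) .dd)))))))))) (.ch (nat_lit 4) (.ev (nat_lit
 2880) (nat_lit 201589248) (.ev (nat_lit 2893) (nat_lit 4) .dd)))) (.br (nat_lit 11) (.ch (nat_lit 9) (.ev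
 (nat_lit 2880) (nat_lit 201327108) (.ev (nat_lit 2893) (nat_lit 262144) .dd))) (.ch (nat_lit 11) (.ev (nat_lit
 2880) (nat_lit 201589252) .dd))))))) (.ch (nat_lit 11) (.ev (nat_lit 1616) (nat_lit 70368947601924) (.ev
 (nat_lit 1629) (nat_lit 262144) .dd)))))))))))))) (.br (nat_lit 46) (.ch (nat_lit 44) (.ev (nat_lit 52)
 (nat_lit 105624184625664) (.ev (nat_lit 756) (nat_lit 33554432) (.ev (nat_lit 948) (nat_lit 4) (.ev (nat_lit
 1076) (nat_lit 274878431232) (.ev (nat_lit 1552) (nat_lit 1048576) (.nd (nat_lit 1600) (.br (nat_lit 5) (.br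
 (nat_lit 1) (.ch (nat_lit 0) (.ev (nat_lit 1616) (nat_lit 8592048138) (.ev (nat_lit 1629) (nat_lit 262144)
 .dd))) (.br (nat_lit 4) (.ch (nat_lit 1) (.ev (nat_lit 1616) (nat_lit 262152) (.nd (nat_lit 2864) (.br
 (nat_lit 6) (.br (nat_lit 3) (.ch (nat_lit 1) (.ev (nat_lit 2880) (nat_lit 8592031744) (.ev (nat_lit 3040)
 (nat_lit 16386) .dd))) (.ch (nat_lit 3) (.ev (nat_lit 2880) (nat_lit 8589950978) (.ev (nat_lit 2893) (nat_lit
 2097152) .dd)))) (.br (nat_lit 10) (.ch (nat_lit 6) (.ev (nat_lit 2880) (nat_lit 8592048130) .dd)) (.ch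
 (nat_lit 10) (.ev (nat_lit 2880) (nat_lit 2113538) (.ev (nat_lit 2893) (nat_lit 8589934592) .dd)))))))) (.ch
 (nat_lit 4) (.ev (nat_lit 1616) (nat_lit 8592293896) (.ev (nat_lit 2310) (nat_lit 16384) (.ev (nat_lit 2317)
 (nat_lit 2) .dd)))))) (.br (nat_lit 8) (.ch (nat_lit 5) (.ev (nat_lit 1616) (nat_lit 2097154) (.ev (nat_lit
 3172) (nat_lit 16384) (.ev (nat_lit 3184) (nat_lit 8) (.ev (nat_lit 3568) (nat_lit 8589934592) (.ev (nat_lit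
 3581) (nat_lit 262144) .dd)))))) (.br (nat_lit 11) (.ch (nat_lit 8) (.ev (nat_lit 1616) (nat_lit 8592310274)
 (.ev (nat_lit 1629) (nat_lit 8) .dd))) (.ch (nat_lit 11) (.ev (nat_lit 1616) (nat_lit 8592048138) (.ev
 (nat_lit 1629) (nat_lit 262144) .dd))))))))))))) (.ch (nat_lit 46) (.ev (nat_lit 52) (nat_lit 35184473364482)
 (.ev (nat_lit 84) (nat_lit 68719476736) (.ev (nat_lit 308) (nat_lit 2147483648) (.ev (nat_lit 564) (nat_lit
 512) (.ev (nat_lit 852) (nat_lit 70368744177664) (.ev (nat_lit 980) (nat_lit 4) (.nd (nat_lit 1600) (.br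
 (nat_lit 6) (.br (nat_lit 5) (.ch (nat_lit 0) (.ev (nat_lit 1616) (nat_lit 283602059272) (.ev (nat_lit 3012)
 (nat_lit 1048576) (.ev (nat_lit 3056) (nat_lit 2359296) .dd)))) (.ch (nat_lit 5) (.ev (nat_lit 1616) (nat_lit
 135528448) (.ev (nat_lit 3268) (nat_lit 274877906944) (.ev (nat_lit 3488) (nat_lit 8589934592) (.ev (nat_lit
 3604) (nat_lit 8) (.ev (nat_lit 3613) (nat_lit 2097152) .dd))))))) (.br (nat_lit 9) (.ch (nat_lit 6) (.ev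
 (nat_lit 1616) (nat_lit 283604418568) (.ev (nat_lit 1629) (nat_lit 1048576) .dd))) (.br (nat_lit 11) (.ch
 (nat_lit 9) (.ev (nat_lit 1616) (nat_lit 274880004104) (.ev (nat_lit 1684) (nat_lit 262144) (.ev (nat_lit
 1696) (nat_lit 134217728) (.ev (nat_lit 2406) (nat_lit 1048576) (.ev (nat_lit 2413) (nat_lit 8589934592)
 .dd)))))) (.ch (nat_lit 11) (.ev (nat_lit 1616) (nat_lit 8725463040) (.ev (nat_lit 3380) (nat_lit 8) (.ev
 (nat_lit 3734) (nat_lit 2097152) (.ev (nat_lit 3741) (nat_lit 274877906944) .dd))))))))))))))))))) (.br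
 (nat_lit 50) (.br (nat_lit 48) (.ch (nat_lit 47) (.ev (nat_lit 52) (nat_lit 35459253491714) (.ev (nat_lit 212)
 (nat_lit 70368744177664) (.ev (nat_lit 628) (nat_lit 134217728) (.ev (nat_lit 800) (nat_lit 79558083084)
 .dd))))) (.br (nat_lit 49) (.ch (nat_lit 48) (.ev (nat_lit 52) (nat_lit 105621973438976) (.ev (nat_lit 416)
 (nat_lit 285716531214) .dd))) (.ch (nat_lit 49) (.ev (nat_lit 52) (nat_lit 105555500730380) (.ev (nat_lit 212)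
 (nat_lit 262144) (.ev (nat_lit 372) (nat_lit 8589934592) (.ev (nat_lit 1236) (nat_lit 2) (.ev (nat_lit 1332)
 (nat_lit 274877906944) (.nd (nat_lit 1600) (.br (nat_lit 5) (.br (nat_lit 1) (.ch (nat_lit 0) (.ev (nat_lit
 1616) (nat_lit 68720607232) (.ev (nat_lit 1632) (nat_lit 4096) (.ev (nat_lit 2340) (nat_lit 524288) (.ev
 (nat_lit 2349) (nat_lit 512) .dd))))) (.br (nat_lit 4) (.ch (nat_lit 1) (.ev (nat_lit 1616) (nat_lit 16896)
 (.ev (nat_lit 1684) (nat_lit 1048576) (.ev (nat_lit 1744) (nat_lit 68719476736) (.ev (nat_lit 2518) (nat_lit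
 4096) (.ev (nat_lit 3200) (nat_lit 65536) (.ev (nat_lit 3213) (nat_lit 524288) .dd))))))) (.ch (nat_lit 4)
 (.ev (nat_lit 1616) (nat_lit 68719497216) (.ev (nat_lit 1684) (nat_lit 65536) (.ev (nat_lit 3012) (nat_lit
 524288) (.ev (nat_lit 3172) (nat_lit 512) (.ev (nat_lit 3181) (nat_lit 1048576) .dd)))))))) (.br (nat_lit 6)
 (.ch (nat_lit 5) (.ev (nat_lit 1616) (nat_lit 68721136128) .dd)) (.br (nat_lit 9) (.ch (nat_lit 6) (.ev
 (nat_lit 1616) (nat_lit 68720529920) (.nd (nat_lit 2864) (.br (nat_lit 7) (.br (nat_lit 4) (.ch (nat_lit 3)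
 (.ev (nat_lit 2880) (nat_lit 606208) .dd)) (.ch (nat_lit 4) (.ev (nat_lit 2880) (nat_lit 589824) (.ev (nat_lit
 2893) (nat_lit 16384) .dd)))) (.br (nat_lit 8) (.ch (nat_lit 7) (.ev (nat_lit 2880) (nat_lit 524288) (.ev
 (nat_lit 3088) (nat_lit 65536) (.ev (nat_lit 3101) (nat_lit 16384) .dd)))) (.br (nat_lit 10) (.ch (nat_lit 8)
 (.ev (nat_lit 2880) (nat_lit 606208) .dd)) (.ch (nat_lit 10) (.ev (nat_lit 2880) (nat_lit 81920) (.ev (nat_lit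
 2893) (nat_lit 524288) .dd))))))))) (.ch (nat_lit 9) (.ev (nat_lit 1616) (nat_lit 68721119232) (.ev (nat_lit
 1684) (nat_lit 512) (.ev (nat_lit 1693) (nat_lit 16384) .dd)))))))))))))))) (.br (nat_lit 51) (.ch (nat_lit
 50) (.ev (nat_lit 52) (nat_lit 70377334135308) (.ev (nat_lit 116) (nat_lit 2097152) (.ev (nat_lit 180)
 (nat_lit 65536) (.ev (nat_lit 468) (nat_lit 262144) (.ev (nat_lit 884) (nat_lit 2) (.ev (nat_lit 916) (nat_lit
 134217728) (.ev (nat_lit 1012) (nat_lit 33554432) (.ev (nat_lit 1584) (nat_lit 35184372088832) (.nd (nat_lit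
 1600) (.br (nat_lit 8) (.br (nat_lit 6) (.ch (nat_lit 0) (.ev (nat_lit 1616) (nat_lit 343666065408) (.ev
 (nat_lit 1629) (nat_lit 2147483648) .dd))) (.ch (nat_lit 6) (.ev (nat_lit 1616) (nat_lit 343597383680) (.ev
 (nat_lit 3012) (nat_lit 524288) (.ev (nat_lit 3056) (nat_lit 2147483648) (.ev (nat_lit 3172) (nat_lit
 67108864) (.ev (nat_lit 3181) (nat_lit 1048576) .dd))))))) (.br (nat_lit 9) (.ch (nat_lit 8) (.ev (nat_lit
 1616) (nat_lit 2216165376) (.fin (nat_lit 576461302248456632)))) (.br (nat_lit 12) (.ch (nat_lit 9) (.ev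
 (nat_lit 1616) (nat_lit 345745391616) (.ev (nat_lit 3280) (nat_lit 68157440) .dd))) (.ch (nat_lit 12) (.ev
 (nat_lit 1616) (nat_lit 277026963456) (.ev (nat_lit 2960) (nat_lit 68719476736) (.ev (nat_lit 2973) (nat_lit
 67108864) .dd))))))))))))))))) (.br (nat_lit 53) (.ch (nat_lit 51) (.ev (nat_lit 52) (nat_lit 70448237510660)
 (.ev (nat_lit 948) (nat_lit 67108864) (.ev (nat_lit 1012) (nat_lit 8) (.ev (nat_lit 1140) (nat_lit 2) (.nd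
 (nat_lit 1600) (.br (nat_lit 8) (.br (nat_lit 1) (.ch (nat_lit 0) (.ev (nat_lit 1616) (nat_lit 35459384283648)
 (.ev (nat_lit 1812) (nat_lit 1048576) (.ev (nat_lit 2928) (nat_lit 2048) (.ev (nat_lit 2941) (nat_lit 16384)
 .dd))))) (.br (nat_lit 5) (.ch (nat_lit 1) (.ev (nat_lit 1616) (nat_lit 35459250077696) (.ev (nat_lit 1780)
 (nat_lit 2048) (.ev (nat_lit 2240) (nat_lit 134217728) (.ev (nat_lit 2614) (nat_lit 4096) (.ev (nat_lit 3024)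
 (nat_lit 512) (.ev (nat_lit 3037) (nat_lit 1048576) .dd))))))) (.ch (nat_lit 5) (.ev (nat_lit 1616) (nat_lit
 35459251112448) (.ev (nat_lit 2278) (nat_lit 134234112) (.ev (nat_lit 2285) (nat_lit 4096) .dd)))))) (.br
 (nat_lit 11) (.br (nat_lit 9) (.ch (nat_lit 8) (.ev (nat_lit 1616) (nat_lit 274879025664) (.ev (nat_lit 1780)
 (nat_lit 16384) (.nd (nat_lit 2864) (.br (nat_lit 2) (.ch (nat_lit 1) (.ev (nat_lit 2880) (nat_lit 134219776)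
 (.ev (nat_lit 2893) (nat_lit 35184372088832) .dd))) (.br (nat_lit 9) (.ch (nat_lit 2) (.ev (nat_lit 2880)
 (nat_lit 35184506308608) .dd)) (.ch (nat_lit 9) (.ev (nat_lit 2880) (nat_lit 35184372088832) (.ev (nat_lit
 3012) (nat_lit 2048) (.ev (nat_lit 3021) (nat_lit 134217728) .dd)))))))))) (.ch (nat_lit 9) (.ev (nat_lit
 1616) (nat_lit 275012196352) (.ev (nat_lit 1780) (nat_lit 35184372088832) (.ev (nat_lit 2164) (nat_lit 16384)
 (.ev (nat_lit 2208) (nat_lit 1048576) (.ev (nat_lit 2221) (nat_lit 512) .dd))))))) (.br (nat_lit 12) (.ch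
 (nat_lit 11) (.ev (nat_lit 1616) (nat_lit 35184507443200) (.ev (nat_lit 1696) (nat_lit 274877906944) (.ev
 (nat_lit 1709) (nat_lit 512) .dd)))) (.ch (nat_lit 12) (.ev (nat_lit 1616) (nat_lit 35184507374080) (.ev
 (nat_lit 3012) (nat_lit 4096) (.ev (nat_lit 3172) (nat_lit 274877906944) (.ev (nat_lit 3181) (nat_lit 65536)
 .dd)))))))))))))) (.ch (nat_lit 53) (.ev (nat_lit 52) (nat_lit 70714692733442) (.ev (nat_lit 212) (nat_lit 8)
 (.ev (nat_lit 308) (nat_lit 8589934592) (.ev (nat_lit 500) (nat_lit 4096) (.nd (nat_lit 1600) (.br (nat_lit 8)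
 (.br (nat_lit 4) (.ch (nat_lit 1) (.ev (nat_lit 1616) (nat_lit 35184373137408) (.ev (nat_lit 1684) (nat_lit
 33554432) (.ev (nat_lit 1728) (nat_lit 4) (.nd (nat_lit 2864) (.br (nat_lit 4) (.br (nat_lit 2) (.ch (nat_lit
 1) (.ev (nat_lit 2880) (nat_lit 81920) (.ev (nat_lit 2893) (nat_lit 524288) .dd))) (.ch (nat_lit 2) (.ev
 (nat_lit 2880) (nat_lit 524288) (.ev (nat_lit 3056) (nat_lit 81920) .dd)))) (.br (nat_lit 8) (.ch (nat_lit 4)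
 (.ev (nat_lit 2880) (nat_lit 540672) (.ev (nat_lit 2893) (nat_lit 65536) .dd))) (.ch (nat_lit 8) (.ev (nat_lit
 2880) (nat_lit 540672) (.ev (nat_lit 2893) (nat_lit 65536) .dd)))))))))) (.br (nat_lit 6) (.ch (nat_lit 4)
 (.ev (nat_lit 1616) (nat_lit 35184405659652) (.ev (nat_lit 2048) (nat_lit 1048576) (.ev (nat_lit 3024)
 (nat_lit 65536) (.ev (nat_lit 3037) (nat_lit 524288) .dd))))) (.ch (nat_lit 6) (.ev (nat_lit 1616) (nat_lit
 35184373153796) (.ev (nat_lit 1684) (nat_lit 524288) (.nd (nat_lit 3760) (.br (nat_lit 12) (.ch (nat_lit 10)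
 (.ev (nat_lit 3776) (nat_lit 33554432) (.ev (nat_lit 3789) (nat_lit 65536) .dd))) (.ch (nat_lit 12) (.fin
 (nat_lit 576465700104127060)))))))))) (.br (nat_lit 11) (.ch (nat_lit 8) (.ev (nat_lit 1616) (nat_lit
 35209220) (.ev (nat_lit 1629) (nat_lit 35184372088832) .dd))) (.br (nat_lit 12) (.ch (nat_lit 11) (.ev
 (nat_lit 1616) (nat_lit 35209220) (.ev (nat_lit 1629) (nat_lit 35184372088832) .dd))) (.ch (nat_lit 12) (.ev
 (nat_lit 1616) (nat_lit 35184407232512) (.ev (nat_lit 1632) (nat_lit 4) (.ev (nat_lit 1645) (nat_lit 65536)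
 .dd))))))))))))))))) (.br (nat_lit 64) (.br (nat_lit 57) (.br (nat_lit 55) (.ch (nat_lit 54) (.ev (nat_lit 52)
 (nat_lit 277228029966) (.ev (nat_lit 148) (nat_lit 68719476736) (.ev (nat_lit 436) (nat_lit 8589934592) (.ev
 (nat_lit 468) (nat_lit 65536) (.ev (nat_lit 1172) (nat_lit 70368744177664) (.ev (nat_lit 1424) (nat_lit
 524288) (.nd (nat_lit 1600) (.br (nat_lit 9) (.br (nat_lit 6) (.ch (nat_lit 1) (.ev (nat_lit 1616) (nat_lit
 35184372088832) (.ev (nat_lit 1684) (nat_lit 4096) (.ev (nat_lit 2656) (nat_lit 512) (.ev (nat_lit 3120)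
 (nat_lit 16384) (.ev (nat_lit 3268) (nat_lit 33554432) (.ev (nat_lit 3277) (nat_lit 2097152) .dd))))))) (.ch
 (nat_lit 6) (.ev (nat_lit 1616) (nat_lit 35184405647360) (.nd (nat_lit 2864) (.br (nat_lit 5) (.br (nat_lit 3)
 (.ch (nat_lit 0) (.ev (nat_lit 2880) (nat_lit 2097664) (.ev (nat_lit 2893) (nat_lit 16384) .dd))) (.ch
 (nat_lit 3) (.ev (nat_lit 2880) (nat_lit 2097152) (.ev (nat_lit 3024) (nat_lit 512) (.ev (nat_lit 3037)
 (nat_lit 16384) .dd))))) (.br (nat_lit 8) (.ch (nat_lit 5) (.ev (nat_lit 2880) (nat_lit 2097152) (.fin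
 (nat_lit 576377739387814372)))) (.br (nat_lit 12) (.ch (nat_lit 8) (.ev (nat_lit 2880) (nat_lit 16896) (.ev
 (nat_lit 2893) (nat_lit 2097152) .dd))) (.ch (nat_lit 12) (.ev (nat_lit 2880) (nat_lit 2114048) .dd)))))))))
 (.br (nat_lit 11) (.ch (nat_lit 9) (.ev (nat_lit 1616) (nat_lit 35656192) (.ev (nat_lit 1684) (nat_lit 16384)
 (.ev (nat_lit 1693) (nat_lit 35184372088832) .dd)))) (.br (nat_lit 12) (.ch (nat_lit 11) (.ev (nat_lit 1616)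
 (nat_lit 33574912) (.ev (nat_lit 3024) (nat_lit 35184372088832) (.ev (nat_lit 3172) (nat_lit 512) (.ev
 (nat_lit 3181) (nat_lit 2097152) .dd))))) (.ch (nat_lit 12) (.ev (nat_lit 1616) (nat_lit 2114048) (.ev
 (nat_lit 2912) (nat_lit 35184372088832) (.ev (nat_lit 3184) (nat_lit 4096) (.ev (nat_lit 3197) (nat_lit
 33554432) .dd)))))))))))))))) (.ch (nat_lit 55) (.ev (nat_lit 52) (nat_lit 35459284142606) (.ev (nat_lit 756)
 (nat_lit 67108864) (.ev (nat_lit 852) (nat_lit 262144) (.ev (nat_lit 1268) (nat_lit 16384) (.nd (nat_lit 1600)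
 (.br (nat_lit 9) (.br (nat_lit 5) (.ch (nat_lit 4) (.ev (nat_lit 1616) (nat_lit 77446778880) (.ev (nat_lit
 1712) (nat_lit 2147483648) (.ev (nat_lit 1725) (nat_lit 70368744177664) .dd)))) (.br (nat_lit 6) (.ch (nat_lit
 5) (.ev (nat_lit 1616) (nat_lit 70370894807040) (.ev (nat_lit 3012) (nat_lit 8589934592) (.ev (nat_lit 3172)
 (nat_lit 68719476736) (.ev (nat_lit 3328) (nat_lit 134221824) .dd))))) (.ch (nat_lit 6) (.ev (nat_lit 1616)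
 (nat_lit 8724156416) (.ev (nat_lit 1780) (nat_lit 68719476736) (.ev (nat_lit 1844) (nat_lit 70368744177664)
 (.ev (nat_lit 2896) (nat_lit 1048576) (.ev (nat_lit 3012) (nat_lit 2097152) (.ev (nat_lit 3021) (nat_lit
 2147483648) .dd))))))))) (.br (nat_lit 11) (.ch (nat_lit 9) (.ev (nat_lit 1616) (nat_lit 70448204222464) (.ev
 (nat_lit 1629) (nat_lit 134217728) .dd))) (.br (nat_lit 12) (.ch (nat_lit 11) (.ev (nat_lit 1616) (nat_lit
 10872684544) (.ev (nat_lit 2228) (nat_lit 68719476736) (.ev (nat_lit 3268) (nat_lit 4096) (.nd (nat_lit 4304)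
 (.br (nat_lit 8) (.ch (nat_lit 4) (.ev (nat_lit 4320) (nat_lit 70368746274816) .dd)) (.ch (nat_lit 8) (.fin
 (nat_lit 576487690378625622))))))))) (.ch (nat_lit 12) (.ev (nat_lit 1616) (nat_lit 70448338436096) (.ev
 (nat_lit 1629) (nat_lit 4096) .dd))))))))))))) (.br (nat_lit 58) (.ch (nat_lit 57) (.ev (nat_lit 52) (nat_lit
 70379481944584) (.ev (nat_lit 212) (nat_lit 2048) (.ev (nat_lit 628) (nat_lit 35184372088832) (.ev (nat_lit
 884) (nat_lit 274877906944) (.nd (nat_lit 1600) (.br (nat_lit 6) (.br (nat_lit 4) (.ch (nat_lit 1) (.ev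
 (nat_lit 1616) (nat_lit 68820140034) (.ev (nat_lit 1684) (nat_lit 2097152) (.ev (nat_lit 2032) (nat_lit 4)
 (.nd (nat_lit 2864) (.br (nat_lit 4) (.br (nat_lit 2) (.ch (nat_lit 1) (.ev (nat_lit 2880) (nat_lit 1572864)
 (.ev (nat_lit 2893) (nat_lit 134217728) .dd))) (.br (nat_lit 3) (.ch (nat_lit 2) (.ev (nat_lit 2880) (nat_lit
 524288) (.ev (nat_lit 3172) (nat_lit 134217728) (.ev (nat_lit 3181) (nat_lit 1048576) .dd)))) (.ch (nat_lit 3)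
 (.ev (nat_lit 2880) (nat_lit 134217728) (.ev (nat_lit 3012) (nat_lit 524288) (.ev (nat_lit 3021) (nat_lit
 1048576) .dd)))))) (.br (nat_lit 6) (.ch (nat_lit 4) (.ev (nat_lit 2880) (nat_lit 134742016) (.ev (nat_lit
 2893) (nat_lit 1048576) .dd))) (.br (nat_lit 7) (.ch (nat_lit 6) (.ev (nat_lit 2880) (nat_lit 135790592) .dd))
 (.ch (nat_lit 7) (.ev (nat_lit 2880) (nat_lit 1572864) (.ev (nat_lit 2893) (nat_lit 134217728) .dd)))))))))))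
 (.br (nat_lit 5) (.ch (nat_lit 4) (.ev (nat_lit 1616) (nat_lit 68922900484) (.ev (nat_lit 3072) (nat_lit
 33554434) (.ev (nat_lit 3172) (nat_lit 524288) (.ev (nat_lit 3181) (nat_lit 1048576) .dd))))) (.ch (nat_lit 5)
 (.ev (nat_lit 1616) (nat_lit 101711878) (.ev (nat_lit 2688) (nat_lit 68719476736) (.ev (nat_lit 3012) (nat_lit
 2097152) (.fin (nat_lit 576448107957928478)))))))) (.br (nat_lit 8) (.ch (nat_lit 6) (.ev (nat_lit 1616)
 (nat_lit 135790598) (.ev (nat_lit 1812) (nat_lit 2097152) (.ev (nat_lit 2816) (nat_lit 67108864) (.ev (nat_lit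
 3040) (nat_lit 33554432) (.ev (nat_lit 3053) (nat_lit 68719476736) .dd)))))) (.br (nat_lit 12) (.ch (nat_lit
 8) (.ev (nat_lit 1616) (nat_lit 68890918912) (.ev (nat_lit 1664) (nat_lit 67108864) (.ev (nat_lit 1920)
 (nat_lit 2) (.ev (nat_lit 1933) (nat_lit 4) .dd))))) (.ch (nat_lit 12) (.ev (nat_lit 1616) (nat_lit 137887750)
 (.ev (nat_lit 3072) (nat_lit 67108864) (.fin (nat_lit 576474496358630124)))))))))))))) (.br (nat_lit 62) (.ch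
 (nat_lit 58) (.ev (nat_lit 52) (nat_lit 105898894955012) (.ev (nat_lit 512) (nat_lit 8795015178) .dd))) (.ch
 (nat_lit 62) (.ev (nat_lit 52) (nat_lit 8725284872) (.ev (nat_lit 116) (nat_lit 70368744177664) (.ev (nat_lit
 244) (nat_lit 4096) (.ev (nat_lit 468) (nat_lit 33554432) (.ev (nat_lit 628) (nat_lit 524288) (.ev (nat_lit
 852) (nat_lit 67108864) (.ev (nat_lit 980) (nat_lit 262144) (.ev (nat_lit 1076) (nat_lit 2) (.nd (nat_lit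
 1600) (.br (nat_lit 8) (.br (nat_lit 5) (.ch (nat_lit 1) (.ev (nat_lit 1616) (nat_lit 35461397479936) (.nd
 (nat_lit 2864) (.br (nat_lit 4) (.br (nat_lit 3) (.ch (nat_lit 0) (.ev (nat_lit 2880) (nat_lit 2097156) (.ev
 (nat_lit 2893) (nat_lit 68719476736) .dd))) (.ch (nat_lit 3) (.ev (nat_lit 2880) (nat_lit 68719476736) (.ev
 (nat_lit 3172) (nat_lit 4) (.ev (nat_lit 3181) (nat_lit 2097152) .dd))))) (.br (nat_lit 8) (.ch (nat_lit 4)
 (.ev (nat_lit 2880) (nat_lit 68719476740) (.ev (nat_lit 2893) (nat_lit 2097152) .dd))) (.ch (nat_lit 8) (.ev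
 (nat_lit 2880) (nat_lit 68721573888) (.ev (nat_lit 2893) (nat_lit 4) .dd)))))))) (.br (nat_lit 6) (.ch
 (nat_lit 5) (.ev (nat_lit 1616) (nat_lit 70869058052) (.ev (nat_lit 3012) (nat_lit 274877906944) (.ev (nat_lit
 3021) (nat_lit 35184372088832) .dd)))) (.ch (nat_lit 6) (.ev (nat_lit 1616) (nat_lit 274880004612) (.ev
 (nat_lit 1684) (nat_lit 2147483648) (.ev (nat_lit 3104) (nat_lit 68719476736) (.ev (nat_lit 3117) (nat_lit
 35184372088832) .dd))))))) (.br (nat_lit 9) (.ch (nat_lit 8) (.ev (nat_lit 1616) (nat_lit 35255241146884) (.ev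
 (nat_lit 1629) (nat_lit 274877906944) .dd))) (.br (nat_lit 11) (.ch (nat_lit 9) (.ev (nat_lit 1616) (nat_lit
 343599480836) (.ev (nat_lit 1712) (nat_lit 2147483648) (.ev (nat_lit 2192) (nat_lit 512) (.ev (nat_lit 2205)
 (nat_lit 35184372088832) .dd))))) (.ch (nat_lit 11) (.ev (nat_lit 1616) (nat_lit 277025390596) (.ev (nat_lit
 1684) (nat_lit 2097152) (.ev (nat_lit 3040) (nat_lit 35184372089344) (.ev (nat_lit 3053) (nat_lit 68719476736)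
 .dd))))))))))))))))))))) (.br (nat_lit 68) (.br (nat_lit 65) (.ch (nat_lit 64) (.ev (nat_lit 52) (nat_lit
 35530116958726) (.ev (nat_lit 180) (nat_lit 262144) (.ev (nat_lit 212) (nat_lit 67108864) (.ev (nat_lit 404)
 (nat_lit 33554432) (.ev (nat_lit 468) (nat_lit 2097152) (.ev (nat_lit 788) (nat_lit 65536) (.ev (nat_lit 1300)
 (nat_lit 524288) (.nd (nat_lit 1600) (.br (nat_lit 8) (.br (nat_lit 4) (.ch (nat_lit 0) (.ev (nat_lit 1616)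
 (nat_lit 70368878399496) (.ev (nat_lit 3024) (nat_lit 8589934592) (.ev (nat_lit 3172) (nat_lit 1048576) (.ev
 (nat_lit 3181) (nat_lit 16384) .dd))))) (.br (nat_lit 5) (.ch (nat_lit 4) (.ev (nat_lit 1616) (nat_lit
 70377468334080) (.ev (nat_lit 1684) (nat_lit 1048576) (.ev (nat_lit 3702) (nat_lit 16392) .dd)))) (.ch
 (nat_lit 5) (.ev (nat_lit 1616) (nat_lit 70377335160840) (.ev (nat_lit 1684) (nat_lit 134217728) (.ev (nat_lit
 3172) (nat_lit 4096) (.ev (nat_lit 3181) (nat_lit 16384) .dd))))))) (.br (nat_lit 9) (.ch (nat_lit 8) (.ev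
 (nat_lit 1616) (nat_lit 8591003648) (.ev (nat_lit 2852) (nat_lit 70368744177664) (.nd (nat_lit 3888) (.br
 (nat_lit 12) (.ch (nat_lit 8) (.fin (nat_lit 576329360528064904))) (.ch (nat_lit 12) (.ev (nat_lit 3904)
 (nat_lit 8) (.ev (nat_lit 3917) (nat_lit 134217728) .dd)))))))) (.br (nat_lit 12) (.ch (nat_lit 9) (.ev
 (nat_lit 1616) (nat_lit 70368745230336) (.ev (nat_lit 3316) (nat_lit 134217728) (.ev (nat_lit 3508) (nat_lit
 8) (.ev (nat_lit 3536) (nat_lit 8589934592) (.ev (nat_lit 3549) (nat_lit 16384) .dd)))))) (.ch (nat_lit 12)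
 (.ev (nat_lit 1616) (nat_lit 8590999560) (.ev (nat_lit 1760) (nat_lit 4096) (.ev (nat_lit 3088) (nat_lit
 70368744177664) (.ev (nat_lit 3101) (nat_lit 134217728) .dd))))))))))))))))) (.br (nat_lit 67) (.ch (nat_lit
 65) (.ev (nat_lit 52) (nat_lit 70377536555528) (.ev (nat_lit 116) (nat_lit 33554436) (.ev (nat_lit 372)
 (nat_lit 2147483648) (.ev (nat_lit 852) (nat_lit 2097152) (.ev (nat_lit 1108) (nat_lit 524288) (.nd (nat_lit
 1600) (.br (nat_lit 8) (.br (nat_lit 4) (.ch (nat_lit 1) (.ev (nat_lit 1616) (nat_lit 35527969734656) (.nd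
 (nat_lit 2864) (.br (nat_lit 1) (.ch (nat_lit 0) (.ev (nat_lit 2880) (nat_lit 4096) (.ev (nat_lit 3012)
 (nat_lit 2) (.ev (nat_lit 3021) (nat_lit 16384) .dd)))) (.br (nat_lit 8) (.ch (nat_lit 1) (.ev (nat_lit 2880)
 (nat_lit 16386) (.ev (nat_lit 2893) (nat_lit 4096) .dd))) (.ch (nat_lit 8) (.ev (nat_lit 2880) (nat_lit 16386)
 (.ev (nat_lit 2893) (nat_lit 4096) .dd)))))))) (.br (nat_lit 5) (.ch (nat_lit 4) (.ev (nat_lit 1616) (nat_lit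
 35184372355074) (.ev (nat_lit 3012) (nat_lit 274877906944) (.ev (nat_lit 3104) (nat_lit 16384) (.ev (nat_lit
 3117) (nat_lit 68719476736) .dd))))) (.ch (nat_lit 5) (.ev (nat_lit 1616) (nat_lit 68719497218) (.ev (nat_lit
 1684) (nat_lit 274878169088) (.ev (nat_lit 1693) (nat_lit 35184372088832) .dd)))))) (.br (nat_lit 9) (.ch
 (nat_lit 8) (.ev (nat_lit 1616) (nat_lit 282626) (.nd (nat_lit 2864) (.br (nat_lit 8) (.br (nat_lit 6) (.ch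
 (nat_lit 5) (.ev (nat_lit 2880) (nat_lit 68719476736) (.ev (nat_lit 3184) (nat_lit 35459249995776) .dd))) (.ch
 (nat_lit 6) (.ev (nat_lit 2880) (nat_lit 35527969472512) .dd))) (.br (nat_lit 9) (.ch (nat_lit 8) (.ev
 (nat_lit 3316) (nat_lit 35184372088832) (.nd (nat_lit 4705) (.br (nat_lit 40) (.ch (nat_lit 2) (.ev (nat_lit
 4721) (nat_lit 343597383680) .dd)) (.br (nat_lit 48) (.ch (nat_lit 40) (.nd (nat_lit 4896) (.br (nat_lit 1)
 (.ch (nat_lit 0) (.ev (nat_lit 4912) (nat_lit 343597383680) .dd)) (.br (nat_lit 8) (.ch (nat_lit 1) (.ev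
 (nat_lit 4912) (nat_lit 343597383680) .dd)) (.ch (nat_lit 8) (.fin (nat_lit 576461301873066696))))))) (.ch
 (nat_lit 48) (.ev (nat_lit 4721) (nat_lit 343597383680) .dd))))))) (.ch (nat_lit 9) (.ev (nat_lit 2880)
 (nat_lit 35527969472512) .dd))))))) (.br (nat_lit 11) (.ch (nat_lit 9) (.ev (nat_lit 1616) (nat_lit
 343597649920) (.ev (nat_lit 3012) (nat_lit 16384) (.nd (nat_lit 3824) (.br (nat_lit 8) (.ch (nat_lit 2) (.fin
 (nat_lit 576456904061436466))) (.ch (nat_lit 8) (.ev (nat_lit 3840) (nat_lit 2) (.ev (nat_lit 3853) (nat_lit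
 35184372088832) .dd)))))))) (.ch (nat_lit 11) (.ev (nat_lit 1616) (nat_lit 274877927426) (.ev (nat_lit 2852)
 (nat_lit 262144) (.ev (nat_lit 3328) (nat_lit 35184372088832) (.ev (nat_lit 3341) (nat_lit 68719476736)
 .dd))))))))))))))) (.ch (nat_lit 67) (.ev (nat_lit 52) (nat_lit 70654396532746) (.ev (nat_lit 276) (nat_lit
 68719476736) (.ev (nat_lit 1364) (nat_lit 16384) (.nd (nat_lit 1600) (.br (nat_lit 6) (.br (nat_lit 5) (.ch
 (nat_lit 0) (.ev (nat_lit 1616) (nat_lit 35184573415424) (.ev (nat_lit 1684) (nat_lit 4096) (.ev (nat_lit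
 1696) (nat_lit 512) (.ev (nat_lit 3040) (nat_lit 524292) .dd))))) (.ch (nat_lit 5) (.ev (nat_lit 1616)
 (nat_lit 35184439198212) (.ev (nat_lit 3040) (nat_lit 524288) (.ev (nat_lit 3056) (nat_lit 134221824) .dd)))))
 (.br (nat_lit 8) (.ch (nat_lit 6) (.ev (nat_lit 1616) (nat_lit 35184573420036) (.ev (nat_lit 1629) (nat_lit
 524288) .dd))) (.br (nat_lit 9) (.ch (nat_lit 8) (.ev (nat_lit 1616) (nat_lit 528896) (.nd (nat_lit 2864) (.br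
 (nat_lit 8) (.br (nat_lit 2) (.ch (nat_lit 1) (.ev (nat_lit 2880) (nat_lit 201326592) (.ev (nat_lit 3012)
 (nat_lit 4) (.ev (nat_lit 3021) (nat_lit 35184372088832) .dd)))) (.br (nat_lit 6) (.ch (nat_lit 2) (.ev
 (nat_lit 2880) (nat_lit 35184439197700) (.ev (nat_lit 2893) (nat_lit 134217728) .dd))) (.ch (nat_lit 6) (.ev
 (nat_lit 2880) (nat_lit 35184506306564) (.ev (nat_lit 2893) (nat_lit 67108864) .dd))))) (.br (nat_lit 11) (.ch
 (nat_lit 8) (.ev (nat_lit 2880) (nat_lit 67108868) (.ev (nat_lit 3056) (nat_lit 134217728) (.ev (nat_lit 3069)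
 (nat_lit 35184372088832) .dd)))) (.br (nat_lit 12) (.ch (nat_lit 11) (.ev (nat_lit 2880) (nat_lit
 35184506306560) (.ev (nat_lit 3172) (nat_lit 4) (.ev (nat_lit 3181) (nat_lit 67108864) .dd)))) (.ch (nat_lit
 12) (.ev (nat_lit 2880) (nat_lit 35184372088836) (.ev (nat_lit 3172) (nat_lit 67108864) (.ev (nat_lit 3181)
 (nat_lit 134217728) .dd)))))))))) (.ch (nat_lit 9) (.ev (nat_lit 1616) (nat_lit 528900) (.ev (nat_lit 2134)
 (nat_lit 35184439197696) (.ev (nat_lit 2141) (nat_lit 134217728) .dd)))))))))))))) (.br (nat_lit 69) (.ch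
 (nat_lit 68) (.ev (nat_lit 52) (nat_lit 105896713984516) (.ev (nat_lit 276) (nat_lit 8589934592) (.ev (nat_lit
 576) (nat_lit 2386051082) .dd)))) (.br (nat_lit 70) (.ch (nat_lit 69) (.ev (nat_lit 52) (nat_lit
 35193100175366) (.ev (nat_lit 148) (nat_lit 512) (.ev (nat_lit 544) (nat_lit 70714589794312) .dd)))) (.ch
 (nat_lit 70) (.ev (nat_lit 52) (nat_lit 105621869580288) (.ev (nat_lit 64) (nat_lit 285820389902)
 .dd)))))))))))

/-- The trie. -/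
noncomputable def T : Tr := .nd (nat_lit 1000000) (.br (nat_lit 3) (.br (nat_lit 1) (.ch (nat_lit 0) (.ev
 (nat_lit 0) (nat_lit 140737488355327) .dd)) (.br (nat_lit 2) (.ch (nat_lit 1) (.ev (nat_lit 0) (nat_lit
 140737488355327) .dd)) (.ch (nat_lit 2) T2))) (.br (nat_lit 4) (.ch (nat_lit 3) (.ev (nat_lit 0) (nat_lit
 140737488355327) .dd)) (.br (nat_lit 5) (.ch (nat_lit 4) T4) (.ch (nat_lit 5) T5))))

/-- The possible values. -/
noncomputable def oks : List ℕ := [690, 706, 4378, 12210, 101074]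

/-- The parameters. -/
noncomputable def S : Pr := ⟨fun i l e => lget mz (lget [] (lget [] tabs i) l) e, oks, [(nat_lit 0), (nat_lit
 1), (nat_lit 0), (nat_lit 0), (nat_lit 1), (nat_lit 0)], T, (nat_lit 140737488355327), (nat_lit
 12800101590481), (nat_lit 47), [(nat_lit 11), (nat_lit 87122173451996128837)], [(nat_lit 4826809), (nat_lit
 25411681)]⟩

/-- Nothing known. -/
noncomputable def cs0 : Cs := (.cons (nat_lit 13) (nat_lit 0) (nat_lit 1) (.cons (nat_lit 71) (nat_lit 0) (nat_lit 1) .nil))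

theorem part_2 : part S cs0 (nat_lit 2) = true := by decide +kernel

theorem part_4 : part S cs0 (nat_lit 4) = true := by decide +kernel

theorem part_5 : part S cs0 (nat_lit 5) = true := by decide +kernel

/-- Data of a prime. -/
noncomputable def D0 : PD := ⟨(nat_lit 13), (nat_lit 6), (2731834, 6, 3), (3031204, 4036787, 560186), (3718172, 4072320, 1281671)⟩

theorem D0_ok : D0.Ok := pdb_sound (s := 2) (C := ⟨⟨3, 18, -4, -17, 2, 1, 2, -1, -7⟩, (3, 9, 2)⟩) (by show Nat.Prime 13; norm_num) (by decide +kernel)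

/-- Lines of the first type. -/
noncomputable def Cl0 : List C1 := [⟨⟨17, -2, -16, 3, 18, 1, -2, 1, -5⟩, (10, 1, 8)⟩,
  ⟨⟨3, -18, -4, -17, -2, 1, 2, 1, -7⟩, (5, 2, 12)⟩,
  ⟨⟨0, 0, 0, 0, 0, 0, 0, 0, 0⟩, (0, 0, 0)⟩,
  ⟨⟨17, 2, -16, 3, -18, 1, -2, -1, -5⟩, (8, 6, 9)⟩,
  ⟨⟨0, 0, 0, 0, 0, 0, 0, 0, 0⟩, (0, 0, 0)⟩,
  ⟨⟨0, 0, 0, 0, 0, 0, 0, 0, 0⟩, (0, 0, 0)⟩,
  ⟨⟨0, 0, 0, 0, 0, 0, 0, 0, 0⟩, (0, 0, 0)⟩,
  ⟨⟨0, 0, 0, 0, 0, 0, 0, 0, 0⟩, (0, 0, 0)⟩,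
  ⟨⟨0, 0, 0, 0, 0, 0, 0, 0, 0⟩, (0, 0, 0)⟩,
  ⟨⟨0, 0, 0, 0, 0, 0, 0, 0, 0⟩, (0, 0, 0)⟩,
  ⟨⟨0, 0, 0, 0, 0, 0, 0, 0, 0⟩, (0, 0, 0)⟩,
  ⟨⟨0, 0, 0, 0, 0, 0, 0, 0, 0⟩, (0, 0, 0)⟩,
  ⟨⟨0, 0, 0, 0, 0, 0, 0, 0, 0⟩, (0, 0, 0)⟩]

/-- Data of a prime. -/
noncomputable def D1 : PD := ⟨(nat_lit 71), (nat_lit 4), (11251584, 9, 33), (23923522, 720358, 4464657), (17637591, 10151933, 2206443)⟩

theorem D1_ok : D1.Ok := pdb_sound (s := 11) (C := ⟨⟨59, 34, -112, -29, 94, 37, -24, -3, -11⟩, (59, 42, 47)⟩) (by show Nat.Prime 71; norm_num) (by decide +kernel)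

/-- Lines of the first type. -/
noncomputable def Cl1 : List C1 := [⟨⟨-59, -34, -53, 29, -94, 8, 24, 3, -35⟩, (17, 47, 34)⟩,
  ⟨⟨0, 0, 0, 0, 0, 0, 0, 0, 0⟩, (0, 0, 0)⟩,
  ⟨⟨49, -74, -77, 79, 14, 28, 12, 21, -29⟩, (59, 56, 13)⟩,
  ⟨⟨0, 0, 0, 0, 0, 0, 0, 0, 0⟩, (0, 0, 0)⟩,
  ⟨⟨0, 0, 0, 0, 0, 0, 0, 0, 0⟩, (0, 0, 0)⟩,
  ⟨⟨0, 0, 0, 0, 0, 0, 0, 0, 0⟩, (0, 0, 0)⟩,
  ⟨⟨79, -14, -107, 49, 74, 28, -12, 21, -17⟩, (44, 21, 5)⟩,
  ⟨⟨0, 0, 0, 0, 0, 0, 0, 0, 0⟩, (0, 0, 0)⟩,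
  ⟨⟨0, 0, 0, 0, 0, 0, 0, 0, 0⟩, (0, 0, 0)⟩,
  ⟨⟨39, 66, -92, -89, 46, 37, -8, -19, -23⟩, (13, 65, 21)⟩,
  ⟨⟨19, 46, -107, -91, -26, 8, 12, -27, -19⟩, (7, 30, 53)⟩,
  ⟨⟨0, 0, 0, 0, 0, 0, 0, 0, 0⟩, (0, 0, 0)⟩,
  ⟨⟨0, 0, 0, 0, 0, 0, 0, 0, 0⟩, (0, 0, 0)⟩,
  ⟨⟨99, 6, -67, 11, -94, 32, -4, -11, -31⟩, (13, 33, 59)⟩,
  ⟨⟨-39, -66, -53, -89, 46, 52, 8, 19, -31⟩, (17, 57, 22)⟩,
  ⟨⟨0, 0, 0, 0, 0, 0, 0, 0, 0⟩, (0, 0, 0)⟩,
  ⟨⟨0, 0, 0, 0, 0, 0, 0, 0, 0⟩, (0, 0, 0)⟩,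
  ⟨⟨19, -46, -107, -91, 26, 8, 12, 27, -19⟩, (15, 44, 2)⟩,
  ⟨⟨0, 0, 0, 0, 0, 0, 0, 0, 0⟩, (0, 0, 0)⟩,
  ⟨⟨0, 0, 0, 0, 0, 0, 0, 0, 0⟩, (0, 0, 0)⟩,
  ⟨⟨51, 66, -88, -59, 74, 67, -20, -5, -17⟩, (59, 64, 59)⟩,
  ⟨⟨49, 74, -77, 79, -14, 28, 12, -21, -29⟩, (6, 43, 29)⟩,
  ⟨⟨0, 0, 0, 0, 0, 0, 0, 0, 0⟩, (0, 0, 0)⟩,
  ⟨⟨0, 0, 0, 0, 0, 0, 0, 0, 0⟩, (0, 0, 0)⟩,
  ⟨⟨0, 0, 0, 0, 0, 0, 0, 0, 0⟩, (0, 0, 0)⟩,
  ⟨⟨31, 74, -83, -81, 54, 68, -16, -13, -19⟩, (8, 2, 60)⟩,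
  ⟨⟨0, 0, 0, 0, 0, 0, 0, 0, 0⟩, (0, 0, 0)⟩,
  ⟨⟨11, 94, -43, -99, 6, 32, 4, -11, -35⟩, (69, 18, 38)⟩,
  ⟨⟨-51, 66, -37, 59, 74, 8, 20, -5, -37⟩, (25, 56, 25)⟩,
  ⟨⟨0, 0, 0, 0, 0, 0, 0, 0, 0⟩, (0, 0, 0)⟩,
  ⟨⟨39, -66, -92, -89, -46, 37, -8, 19, -23⟩, (43, 2, 64)⟩,
  ⟨⟨0, 0, 0, 0, 0, 0, 0, 0, 0⟩, (0, 0, 0)⟩,
  ⟨⟨59, -34, -112, -29, -94, 37, -24, 3, -11⟩, (9, 4, 18)⟩,
  ⟨⟨0, 0, 0, 0, 0, 0, 0, 0, 0⟩, (0, 0, 0)⟩,
  ⟨⟨0, 0, 0, 0, 0, 0, 0, 0, 0⟩, (0, 0, 0)⟩,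
  ⟨⟨-59, 34, -53, 29, 94, 8, 24, -3, -35⟩, (8, 43, 16)⟩,
  ⟨⟨0, 0, 0, 0, 0, 0, 0, 0, 0⟩, (0, 0, 0)⟩,
  ⟨⟨11, -94, -43, -99, -6, 32, 4, 11, -35⟩, (2, 53, 33)⟩,
  ⟨⟨0, 0, 0, 0, 0, 0, 0, 0, 0⟩, (0, 0, 0)⟩,
  ⟨⟨0, 0, 0, 0, 0, 0, 0, 0, 0⟩, (0, 0, 0)⟩,
  ⟨⟨51, -66, -88, -59, -74, 67, -20, 5, -17⟩, (18, 46, 18)⟩,
  ⟨⟨-19, -46, -88, -91, -26, 83, -12, 27, -7⟩, (26, 61, 65)⟩,
  ⟨⟨0, 0, 0, 0, 0, 0, 0, 0, 0⟩, (0, 0, 0)⟩,
  ⟨⟨0, 0, 0, 0, 0, 0, 0, 0, 0⟩, (0, 0, 0)⟩,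
  ⟨⟨0, 0, 0, 0, 0, 0, 0, 0, 0⟩, (0, 0, 0)⟩,
  ⟨⟨-19, 46, -88, -91, 26, 83, -12, -27, -7⟩, (18, 4, 45)⟩,
  ⟨⟨0, 0, 0, 0, 0, 0, 0, 0, 0⟩, (0, 0, 0)⟩,
  ⟨⟨0, 0, 0, 0, 0, 0, 0, 0, 0⟩, (0, 0, 0)⟩,
  ⟨⟨0, 0, 0, 0, 0, 0, 0, 0, 0⟩, (0, 0, 0)⟩,
  ⟨⟨0, 0, 0, 0, 0, 0, 0, 0, 0⟩, (0, 0, 0)⟩,
  ⟨⟨0, 0, 0, 0, 0, 0, 0, 0, 0⟩, (0, 0, 0)⟩,
  ⟨⟨0, 0, 0, 0, 0, 0, 0, 0, 0⟩, (0, 0, 0)⟩,
  ⟨⟨99, -6, -67, 11, 94, 32, -4, 11, -31⟩, (48, 29, 54)⟩,
  ⟨⟨0, 0, 0, 0, 0, 0, 0, 0, 0⟩, (0, 0, 0)⟩,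
  ⟨⟨0, 0, 0, 0, 0, 0, 0, 0, 0⟩, (0, 0, 0)⟩,
  ⟨⟨0, 0, 0, 0, 0, 0, 0, 0, 0⟩, (0, 0, 0)⟩,
  ⟨⟨-51, -66, -37, 59, -74, 8, 20, 5, -37⟩, (55, 38, 55)⟩,
  ⟨⟨0, 0, 0, 0, 0, 0, 0, 0, 0⟩, (0, 0, 0)⟩,
  ⟨⟨0, 0, 0, 0, 0, 0, 0, 0, 0⟩, (0, 0, 0)⟩,
  ⟨⟨-31, -74, -52, -81, 54, 13, 16, 13, -35⟩, (64, 55, 54)⟩,
  ⟨⟨-31, 74, -52, -81, -54, 13, 16, -13, -35⟩, (11, 15, 47)⟩,
  ⟨⟨-39, 66, -53, -89, -46, 52, 8, -19, -31⟩, (58, 65, 50)⟩,
  ⟨⟨0, 0, 0, 0, 0, 0, 0, 0, 0⟩, (0, 0, 0)⟩,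
  ⟨⟨79, 14, -107, 49, -74, 28, -12, -21, -17⟩, (57, 3, 21)⟩,
  ⟨⟨0, 0, 0, 0, 0, 0, 0, 0, 0⟩, (0, 0, 0)⟩,
  ⟨⟨0, 0, 0, 0, 0, 0, 0, 0, 0⟩, (0, 0, 0)⟩,
  ⟨⟨31, -74, -83, -81, -54, 68, -16, 13, -19⟩, (61, 33, 67)⟩,
  ⟨⟨0, 0, 0, 0, 0, 0, 0, 0, 0⟩, (0, 0, 0)⟩,
  ⟨⟨0, 0, 0, 0, 0, 0, 0, 0, 0⟩, (0, 0, 0)⟩,
  ⟨⟨0, 0, 0, 0, 0, 0, 0, 0, 0⟩, (0, 0, 0)⟩,
  ⟨⟨0, 0, 0, 0, 0, 0, 0, 0, 0⟩, (0, 0, 0)⟩]

/-- Data of a prime. -/
noncomputable def Dm : PD := ⟨(nat_lit 47), (nat_lit 2), (1034, 1, 9), (105, 517, 2039), (987, 5, 190)⟩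

theorem Dm_ok : Dm.Ok := pdb_sound (s := 1) (C := ⟨⟨47, 2, -76, 47, -2, 29, 0, -21, -1⟩, (2, 45, 26)⟩) (by show Nat.Prime 47; norm_num) (by decide +kernel)

/-- Lines of the first type. -/
noncomputable def Clm : List C1 := [⟨⟨47, -2, -76, 47, 2, 29, 0, 21, -1⟩, (9, 38, 23)⟩,
  ⟨⟨0, 0, 0, 0, 0, 0, 0, 0, 0⟩, (0, 0, 0)⟩,
  ⟨⟨0, 0, 0, 0, 0, 0, 0, 0, 0⟩, (0, 0, 0)⟩,
  ⟨⟨0, 0, 0, 0, 0, 0, 0, 0, 0⟩, (0, 0, 0)⟩,
  ⟨⟨17, 22, -76, -63, 18, 19, -4, -19, -7⟩, (10, 21, 17)⟩,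
  ⟨⟨0, 0, 0, 0, 0, 0, 0, 0, 0⟩, (0, 0, 0)⟩,
  ⟨⟨57, -18, -61, -23, -62, 4, -8, 5, -17⟩, (3, 26, 7)⟩,
  ⟨⟨57, 18, -61, -23, 62, 4, -8, -5, -17⟩, (16, 29, 6)⟩,
  ⟨⟨53, -22, -64, -13, -62, 29, -12, -3, -13⟩, (46, 10, 2)⟩,
  ⟨⟨0, 0, 0, 0, 0, 0, 0, 0, 0⟩, (0, 0, 0)⟩,
  ⟨⟨43, -38, -59, 3, -42, 56, -16, -11, -1⟩, (35, 9, 46)⟩,
  ⟨⟨0, 0, 0, 0, 0, 0, 0, 0, 0⟩, (0, 0, 0)⟩,
  ⟨⟨0, 0, 0, 0, 0, 0, 0, 0, 0⟩, (0, 0, 0)⟩,
  ⟨⟨-17, -22, -59, -63, 18, 44, 4, 19, -11⟩, (15, 39, 2)⟩,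
  ⟨⟨0, 0, 0, 0, 0, 0, 0, 0, 0⟩, (0, 0, 0)⟩,
  ⟨⟨0, 0, 0, 0, 0, 0, 0, 0, 0⟩, (0, 0, 0)⟩,
  ⟨⟨0, 0, 0, 0, 0, 0, 0, 0, 0⟩, (0, 0, 0)⟩,
  ⟨⟨53, 22, -64, -13, 62, 29, -12, 3, -13⟩, (41, 13, 12)⟩,
  ⟨⟨0, 0, 0, 0, 0, 0, 0, 0, 0⟩, (0, 0, 0)⟩,
  ⟨⟨0, 0, 0, 0, 0, 0, 0, 0, 0⟩, (0, 0, 0)⟩,
  ⟨⟨0, 0, 0, 0, 0, 0, 0, 0, 0⟩, (0, 0, 0)⟩,
  ⟨⟨0, 0, 0, 0, 0, 0, 0, 0, 0⟩, (0, 0, 0)⟩,
  ⟨⟨0, 0, 0, 0, 0, 0, 0, 0, 0⟩, (0, 0, 0)⟩,
  ⟨⟨43, 38, -59, 3, 42, 56, -16, 11, -1⟩, (5, 8, 20)⟩,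
  ⟨⟨3, -42, -59, 43, -38, 16, 16, 11, -17⟩, (39, 42, 20)⟩,
  ⟨⟨0, 0, 0, 0, 0, 0, 0, 0, 0⟩, (0, 0, 0)⟩,
  ⟨⟨0, 0, 0, 0, 0, 0, 0, 0, 0⟩, (0, 0, 0)⟩,
  ⟨⟨0, 0, 0, 0, 0, 0, 0, 0, 0⟩, (0, 0, 0)⟩,
  ⟨⟨0, 0, 0, 0, 0, 0, 0, 0, 0⟩, (0, 0, 0)⟩,
  ⟨⟨0, 0, 0, 0, 0, 0, 0, 0, 0⟩, (0, 0, 0)⟩,
  ⟨⟨-13, -62, -16, 53, -22, 11, 12, 3, -25⟩, (34, 6, 12)⟩,
  ⟨⟨0, 0, 0, 0, 0, 0, 0, 0, 0⟩, (0, 0, 0)⟩,
  ⟨⟨0, 0, 0, 0, 0, 0, 0, 0, 0⟩, (0, 0, 0)⟩,
  ⟨⟨0, 0, 0, 0, 0, 0, 0, 0, 0⟩, (0, 0, 0)⟩,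
  ⟨⟨17, -22, -76, -63, -18, 19, -4, 19, -7⟩, (15, 8, 2)⟩,
  ⟨⟨0, 0, 0, 0, 0, 0, 0, 0, 0⟩, (0, 0, 0)⟩,
  ⟨⟨0, 0, 0, 0, 0, 0, 0, 0, 0⟩, (0, 0, 0)⟩,
  ⟨⟨3, 42, -59, 43, 38, 16, 16, -11, -17⟩, (38, 12, 46)⟩,
  ⟨⟨0, 0, 0, 0, 0, 0, 0, 0, 0⟩, (0, 0, 0)⟩,
  ⟨⟨-13, 62, -16, 53, 22, 11, 12, -3, -25⟩, (37, 1, 2)⟩,
  ⟨⟨23, 62, -19, 57, -18, 4, 8, -5, -25⟩, (29, 31, 6)⟩,
  ⟨⟨23, -62, -19, 57, 18, 4, 8, 5, -25⟩, (26, 44, 7)⟩,
  ⟨⟨0, 0, 0, 0, 0, 0, 0, 0, 0⟩, (0, 0, 0)⟩,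
  ⟨⟨-17, 22, -59, -63, -18, 44, 4, -19, -11⟩, (10, 26, 17)⟩,
  ⟨⟨0, 0, 0, 0, 0, 0, 0, 0, 0⟩, (0, 0, 0)⟩,
  ⟨⟨0, 0, 0, 0, 0, 0, 0, 0, 0⟩, (0, 0, 0)⟩,
  ⟨⟨0, 0, 0, 0, 0, 0, 0, 0, 0⟩, (0, 0, 0)⟩]

/-- Unit moves. -/
noncomputable def U : List Mv := [mz,
  mz,
  mz,
  mz,
  mz,
  mz,
  ⟨⟨-1, 0, 1, 0, 1, 0, 0, 0, 1⟩, .nil, (nat_lit 12), (nat_lit 1), (nat_lit 4), (nat_lit 1), (0, 0, 0), [], 5⟩,
  ⟨⟨1, 0, 0, 0, -1, 0, 0, 0, 1⟩, .nil, (nat_lit 12), (nat_lit 3), (nat_lit 12), (nat_lit 1), (0, 0, 0), [], 11⟩,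
  ⟨⟨-1, 0, 1, 0, -1, 0, 0, 0, 1⟩, .nil, (nat_lit 0), (nat_lit 3), (nat_lit 1), (nat_lit 0), (0, 0, 0), [], 10⟩,
  ⟨⟨1, 0, 0, 0, -1, 0, 0, 0, 1⟩, .nil, (nat_lit 12), (nat_lit 3), (nat_lit 12), (nat_lit 1), (0, 0, 0), [], 11⟩,
  ⟨⟨-1, 0, 1, 0, 1, 0, 0, 0, 1⟩, .nil, (nat_lit 12), (nat_lit 1), (nat_lit 4), (nat_lit 1), (0, 0, 0), [], 5⟩,
  ⟨⟨-1, 0, 1, 0, -1, 0, 0, 0, 1⟩, .nil, (nat_lit 0), (nat_lit 3), (nat_lit 1), (nat_lit 0), (0, 0, 0), [], 10⟩,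
  ⟨⟨1, 0, 0, 0, -1, 0, 0, 0, 1⟩, .nil, (nat_lit 12), (nat_lit 3), (nat_lit 12), (nat_lit 1), (0, 0, 0), [], 11⟩]

theorem v_ty : tyb Dm S.ty1 Clm = true := by decide +kernel

theorem v_ty0 : tyb D0 (S.tys.getD 0 0) Cl0 = true := by decide +kernel

theorem v_ty1 : tyb D1 (S.tys.getD 1 0) Cl1 = true := by decide +kernel

theorem v_msc : mscb S D0 [D1] Dm (nat_lit 52) = true := by decide +kernel

theorem v_mv0 : mvsn (nat_lit 270950043198047161) S D0 [D1] Dm (nat_lit 52) 0 D0 = true := by decide +kernel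

theorem v_mv1 : mvsn (nat_lit 270950043198047161) S D0 [D1] Dm (nat_lit 52) 1 D1 = true := by decide +kernel

theorem v_mm : mmsn (nat_lit 270950043198047161) S D0 [D1] Dm (nat_lit 52) = true := by decide +kernel

theorem v_un : unb S D0 (nat_lit 52) U = true := by decide +kernel

theorem v_ok : okb S.oks [(0, 0, 0), (0, 0, 0), (0, 0, 0), (0, 0, 0), (0, 0, 0)] = true := by decide +kernel

theorem v_part : ∀ d < D0.p, (nat_lit 52).testBit d = true → part S (zc (D0 :: [D1])) d = true := by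
  intro d hd h
  have h1 : ∀ d < 13, (nat_lit 52).testBit d = true → d = 2 ∨ d = 4 ∨ d = 5 := by decide
  rcases h1 d hd h with rfl | rfl | rfl
  · exact part_2
  · exact part_4
  · exact part_5

theorem main (n : ℕ) (ho : Odd n) (hr : ¬ Rep n) (h0 : Split 13 n) (h1 : Split 71 n) (hm : Split 47 n) :
    n ∈ EE := by
  refine concln (W := nat_lit 270950043198047161) (S := S) (P0 := D0) (Pl := [D1]) (Pm := Dm) (cn := nat_lit 52) ?_ Dm_ok v_ty ?_ ?_ v_msc ?_ v_mm v_un v_part v_ok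
    n ho hr ?_ hm
  · simp only [List.forall_mem_cons]
    exact ⟨D0_ok, D1_ok, fun _ h => absurd h (by simp)⟩
  · exact all2 (φ := fun j P => ∃ L, tyb P (S.tys.getD j 0) L = true) ⟨_, v_ty0⟩ ⟨_, v_ty1⟩
  · exact all2 (φ := fun j P => Nat.ble (S.pks.getD j 0) (Nat.pow P.p P.K) = true) (by decide +kernel) (by decide +kernel)
  · exact all2 (φ := fun i P => mvsn (nat_lit 270950043198047161) S D0 [D1] Dm (nat_lit 52) i P = true) v_mv0 v_mv1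
  · simp only [List.forall_mem_cons]
    exact ⟨h0, h1, fun _ h => absurd h (by simp)⟩

end Pool.Agent.Work.MP_9954fe_nt.P13_71_47

namespace Pool.Agent.Work.MP_9954fe_nt.P17_71

/-- Dummy move. -/
noncomputable def mz : Mv := ⟨⟨0, 0, 0, 0, 0, 0, 0, 0, 0⟩, .nil, (nat_lit 0), (nat_lit 0), (nat_lit 0), (nat_lit 0), (0, 0, 0), [], 0⟩

/-- Moves. -/
noncomputable def t0_3 : List Mv := [
  ⟨⟨13, -12, 0, -10, -13, 0, 10, -4, -17⟩, (.cons (nat_lit 21166033) (nat_lit 6056983) (nat_lit 7055350) (nat_lit 1) .nil), (nat_lit 70), (nat_lit 37), (nat_lit 66), (nat_lit 1), (15, 12, 5), [3817343], 4⟩,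
  ⟨⟨-3, 8, -17, -10, -13, 0, 10, -4, -17⟩, (.cons (nat_lit 10550802) (nat_lit 18770371) (nat_lit 9712546) (nat_lit 1) .nil), (nat_lit 49), (nat_lit 52), (nat_lit 16), (nat_lit 1), (7, 12, 5), [15625320], 34⟩,
  ⟨⟨13, -12, 0, -10, -13, 0, 10, -4, -17⟩, (.cons (nat_lit 21166033) (nat_lit 6056983) (nat_lit 7055350) (nat_lit 1) .nil), (nat_lit 70), (nat_lit 37), (nat_lit 66), (nat_lit 1), (15, 12, 5), [3817343], 4⟩,
  ⟨⟨13, -12, 0, -10, -13, 0, 10, -4, -17⟩, (.cons (nat_lit 21166033) (nat_lit 6056983) (nat_lit 7055350) (nat_lit 1) .nil), (nat_lit 70), (nat_lit 37), (nat_lit 66), (nat_lit 1), (15, 12, 5), [3817343], 4⟩,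
  ⟨⟨13, -12, 0, -10, -13, 0, 10, -4, -17⟩, (.cons (nat_lit 21166033) (nat_lit 6056983) (nat_lit 7055350) (nat_lit 1) .nil), (nat_lit 70), (nat_lit 37), (nat_lit 66), (nat_lit 1), (15, 12, 5), [3817343], 4⟩,
  ⟨⟨13, -12, 0, -10, -13, 0, 10, -4, -17⟩, (.cons (nat_lit 21166033) (nat_lit 6056983) (nat_lit 7055350) (nat_lit 1) .nil), (nat_lit 70), (nat_lit 37), (nat_lit 66), (nat_lit 1), (15, 12, 5), [3817343], 4⟩,
  ⟨⟨13, -12, 0, -10, -13, 0, 10, -4, -17⟩, (.cons (nat_lit 21166033) (nat_lit 6056983) (nat_lit 7055350) (nat_lit 1) .nil), (nat_lit 70), (nat_lit 37), (nat_lit 66), (nat_lit 1), (15, 12, 5), [3817343], 4⟩,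
  ⟨⟨-3, 8, -17, -10, -13, 0, 10, -4, -17⟩, (.cons (nat_lit 10550802) (nat_lit 18770371) (nat_lit 9712546) (nat_lit 1) .nil), (nat_lit 49), (nat_lit 52), (nat_lit 16), (nat_lit 1), (7, 12, 5), [15625320], 34⟩,
  ⟨⟨13, -12, 0, -10, -13, 0, 10, -4, -17⟩, (.cons (nat_lit 21166033) (nat_lit 6056983) (nat_lit 7055350) (nat_lit 1) .nil), (nat_lit 70), (nat_lit 37), (nat_lit 66), (nat_lit 1), (15, 12, 5), [3817343], 4⟩,
  ⟨⟨13, -12, 0, -10, -13, 0, 10, -4, -17⟩, (.cons (nat_lit 21166033) (nat_lit 6056983) (nat_lit 7055350) (nat_lit 1) .nil), (nat_lit 70), (nat_lit 37), (nat_lit 66), (nat_lit 1), (15, 12, 5), [3817343], 4⟩,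
  ⟨⟨13, -12, 0, -10, -13, 0, 10, -4, -17⟩, (.cons (nat_lit 21166033) (nat_lit 6056983) (nat_lit 7055350) (nat_lit 1) .nil), (nat_lit 70), (nat_lit 37), (nat_lit 66), (nat_lit 1), (15, 12, 5), [3817343], 4⟩,
  ⟨⟨13, -12, 0, -10, -13, 0, 10, -4, -17⟩, (.cons (nat_lit 21166033) (nat_lit 6056983) (nat_lit 7055350) (nat_lit 1) .nil), (nat_lit 70), (nat_lit 37), (nat_lit 66), (nat_lit 1), (15, 12, 5), [3817343], 4⟩,
  ⟨⟨13, -12, 0, 10, 13, 0, 10, -4, -17⟩, (.cons (nat_lit 111434) (nat_lit 10224314) (nat_lit 8284035) (nat_lit 1) .nil), (nat_lit 6), (nat_lit 27), (nat_lit 46), (nat_lit 1), (15, 5, 5), [14257539], 67⟩,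
  ⟨⟨13, -12, 0, 10, 13, 0, 10, -4, -17⟩, (.cons (nat_lit 111434) (nat_lit 10224314) (nat_lit 8284035) (nat_lit 1) .nil), (nat_lit 6), (nat_lit 27), (nat_lit 46), (nat_lit 1), (15, 5, 5), [14257539], 67⟩,
  ⟨⟨-3, 8, -17, 10, 13, 0, 10, -4, -17⟩, (.cons (nat_lit 14585888) (nat_lit 3606022) (nat_lit 12868590) (nat_lit 1) .nil), (nat_lit 6), (nat_lit 13), (nat_lit 23), (nat_lit 1), (7, 5, 5), [24064270], 60⟩,
  ⟨⟨13, -12, 0, 10, 13, 0, 10, -4, -17⟩, (.cons (nat_lit 111434) (nat_lit 10224314) (nat_lit 8284035) (nat_lit 1) .nil), (nat_lit 6), (nat_lit 27), (nat_lit 46), (nat_lit 1), (15, 5, 5), [14257539], 67⟩,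
  ⟨⟨-3, 8, -17, 10, 13, 0, 10, -4, -17⟩, (.cons (nat_lit 14585888) (nat_lit 3606022) (nat_lit 12868590) (nat_lit 1) .nil), (nat_lit 6), (nat_lit 13), (nat_lit 23), (nat_lit 1), (7, 5, 5), [24064270], 60⟩]

/-- Moves. -/
noncomputable def t0_7 : List Mv := [
  ⟨⟨15, -8, -16, 8, 15, -4, 0, 0, -17⟩, (.cons (nat_lit 11766583) (nat_lit 2885277) (nat_lit 454466) (nat_lit 1) .nil), (nat_lit 1), (nat_lit 55), (nat_lit 1), (nat_lit 1), (7, 6, 0), [23369712], 66⟩,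
  ⟨⟨-15, 8, -1, 8, 15, -4, 0, 0, -17⟩, (.cons (nat_lit 6943683) (nat_lit 23410621) (nat_lit 21681302) (nat_lit 1) .nil), (nat_lit 70), (nat_lit 58), (nat_lit 48), (nat_lit 1), (10, 6, 0), [5227342], 12⟩,
  ⟨⟨-15, 8, -1, 8, 15, -4, 0, 0, -17⟩, (.cons (nat_lit 6943683) (nat_lit 23410621) (nat_lit 21681302) (nat_lit 1) .nil), (nat_lit 70), (nat_lit 58), (nat_lit 48), (nat_lit 1), (10, 6, 0), [5227342], 12⟩,
  ⟨⟨15, -8, -16, 8, 15, -4, 0, 0, -17⟩, (.cons (nat_lit 11766583) (nat_lit 2885277) (nat_lit 454466) (nat_lit 1) .nil), (nat_lit 1), (nat_lit 55), (nat_lit 1), (nat_lit 1), (7, 6, 0), [23369712], 66⟩,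
  ⟨⟨15, -8, -16, 8, 15, -4, 0, 0, -17⟩, (.cons (nat_lit 11766583) (nat_lit 2885277) (nat_lit 454466) (nat_lit 1) .nil), (nat_lit 1), (nat_lit 55), (nat_lit 1), (nat_lit 1), (7, 6, 0), [23369712], 66⟩,
  ⟨⟨-15, 8, -1, -8, -15, 4, 0, 0, -17⟩, (.cons (nat_lit 7588434) (nat_lit 3540918) (nat_lit 17226043) (nat_lit 1) .nil), (nat_lit 1), (nat_lit 1), (nat_lit 31), (nat_lit 1), (10, 11, 0), [23350074], 13⟩,
  ⟨⟨15, -8, -16, 8, 15, -4, 0, 0, -17⟩, (.cons (nat_lit 11766583) (nat_lit 2885277) (nat_lit 454466) (nat_lit 1) .nil), (nat_lit 1), (nat_lit 55), (nat_lit 1), (nat_lit 1), (7, 6, 0), [23369712], 66⟩,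
  ⟨⟨15, -8, -16, 8, 15, -4, 0, 0, -17⟩, (.cons (nat_lit 11766583) (nat_lit 2885277) (nat_lit 454466) (nat_lit 1) .nil), (nat_lit 1), (nat_lit 55), (nat_lit 1), (nat_lit 1), (7, 6, 0), [23369712], 66⟩,
  ⟨⟨15, -8, -16, 8, 15, -4, 0, 0, -17⟩, (.cons (nat_lit 11766583) (nat_lit 2885277) (nat_lit 454466) (nat_lit 1) .nil), (nat_lit 1), (nat_lit 55), (nat_lit 1), (nat_lit 1), (7, 6, 0), [23369712], 66⟩,
  ⟨⟨15, -8, -16, 8, 15, -4, 0, 0, -17⟩, (.cons (nat_lit 11766583) (nat_lit 2885277) (nat_lit 454466) (nat_lit 1) .nil), (nat_lit 1), (nat_lit 55), (nat_lit 1), (nat_lit 1), (7, 6, 0), [23369712], 66⟩,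
  ⟨⟨15, -8, -16, 8, 15, -4, 0, 0, -17⟩, (.cons (nat_lit 11766583) (nat_lit 2885277) (nat_lit 454466) (nat_lit 1) .nil), (nat_lit 1), (nat_lit 55), (nat_lit 1), (nat_lit 1), (7, 6, 0), [23369712], 66⟩,
  ⟨⟨15, -8, -16, -8, -15, 4, 0, 0, -17⟩, (.cons (nat_lit 19142200) (nat_lit 10860631) (nat_lit 16527499) (nat_lit 1) .nil), (nat_lit 70), (nat_lit 34), (nat_lit 11), (nat_lit 1), (7, 11, 0), [7156400], 15⟩,
  ⟨⟨15, -8, -16, -8, -15, 4, 0, 0, -17⟩, (.cons (nat_lit 19142200) (nat_lit 10860631) (nat_lit 16527499) (nat_lit 1) .nil), (nat_lit 70), (nat_lit 34), (nat_lit 11), (nat_lit 1), (7, 11, 0), [7156400], 15⟩,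
  ⟨⟨-15, 8, -1, -8, -15, 4, 0, 0, -17⟩, (.cons (nat_lit 7588434) (nat_lit 3540918) (nat_lit 17226043) (nat_lit 1) .nil), (nat_lit 1), (nat_lit 1), (nat_lit 31), (nat_lit 1), (10, 11, 0), [23350074], 13⟩,
  ⟨⟨15, -8, -16, 8, 15, -4, 0, 0, -17⟩, (.cons (nat_lit 11766583) (nat_lit 2885277) (nat_lit 454466) (nat_lit 1) .nil), (nat_lit 1), (nat_lit 55), (nat_lit 1), (nat_lit 1), (7, 6, 0), [23369712], 66⟩,
  ⟨⟨15, -8, -16, 8, 15, -4, 0, 0, -17⟩, (.cons (nat_lit 11766583) (nat_lit 2885277) (nat_lit 454466) (nat_lit 1) .nil), (nat_lit 1), (nat_lit 55), (nat_lit 1), (nat_lit 1), (7, 6, 0), [23369712], 66⟩,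
  ⟨⟨15, -8, -16, 8, 15, -4, 0, 0, -17⟩, (.cons (nat_lit 11766583) (nat_lit 2885277) (nat_lit 454466) (nat_lit 1) .nil), (nat_lit 1), (nat_lit 55), (nat_lit 1), (nat_lit 1), (7, 6, 0), [23369712], 66⟩]

/-- Moves. -/
noncomputable def t0_9 : List Mv := [
  ⟨⟨9, -16, -1, 10, 3, -20, -6, -12, -5⟩, (.cons (nat_lit 2649515) (nat_lit 8649654) (nat_lit 6035001) (nat_lit 1) .nil), (nat_lit 61), (nat_lit 51), (nat_lit 12), (nat_lit 1), (2, 6, 10), [12906100], 66⟩,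
  ⟨⟨9, -16, -1, 10, 3, -20, -6, -12, -5⟩, (.cons (nat_lit 2649515) (nat_lit 8649654) (nat_lit 6035001) (nat_lit 1) .nil), (nat_lit 61), (nat_lit 51), (nat_lit 12), (nat_lit 1), (2, 6, 10), [12906100], 66⟩,
  ⟨⟨9, -16, -1, 10, 3, -20, -6, -12, -5⟩, (.cons (nat_lit 2649515) (nat_lit 8649654) (nat_lit 6035001) (nat_lit 1) .nil), (nat_lit 61), (nat_lit 51), (nat_lit 12), (nat_lit 1), (2, 6, 10), [12906100], 66⟩,
  ⟨⟨9, -16, -1, 10, 3, -20, -6, -12, -5⟩, (.cons (nat_lit 2649515) (nat_lit 8649654) (nat_lit 6035001) (nat_lit 1) .nil), (nat_lit 61), (nat_lit 51), (nat_lit 12), (nat_lit 1), (2, 6, 10), [12906100], 66⟩,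
  ⟨⟨-15, 4, -4, -10, -3, 20, -6, -12, -5⟩, (.cons (nat_lit 19143280) (nat_lit 21029396) (nat_lit 22468049) (nat_lit 1) .nil), (nat_lit 38), (nat_lit 15), (nat_lit 36), (nat_lit 1), (8, 11, 10), [19122491], 14⟩,
  ⟨⟨9, -16, -1, 10, 3, -20, -6, -12, -5⟩, (.cons (nat_lit 2649515) (nat_lit 8649654) (nat_lit 6035001) (nat_lit 1) .nil), (nat_lit 61), (nat_lit 51), (nat_lit 12), (nat_lit 1), (2, 6, 10), [12906100], 66⟩,
  ⟨⟨9, -16, -1, -10, -3, 20, -6, -12, -5⟩, (.cons (nat_lit 12361898) (nat_lit 20985542) (nat_lit 11286757) (nat_lit 1) .nil), (nat_lit 68), (nat_lit 12), (nat_lit 54), (nat_lit 1), (2, 11, 10), [5319789], 9⟩,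
  ⟨⟨9, -16, -1, 10, 3, -20, -6, -12, -5⟩, (.cons (nat_lit 2649515) (nat_lit 8649654) (nat_lit 6035001) (nat_lit 1) .nil), (nat_lit 61), (nat_lit 51), (nat_lit 12), (nat_lit 1), (2, 6, 10), [12906100], 66⟩,
  ⟨⟨9, -16, -1, 10, 3, -20, -6, -12, -5⟩, (.cons (nat_lit 2649515) (nat_lit 8649654) (nat_lit 6035001) (nat_lit 1) .nil), (nat_lit 61), (nat_lit 51), (nat_lit 12), (nat_lit 1), (2, 6, 10), [12906100], 66⟩,
  ⟨⟨9, -16, -1, 10, 3, -20, -6, -12, -5⟩, (.cons (nat_lit 2649515) (nat_lit 8649654) (nat_lit 6035001) (nat_lit 1) .nil), (nat_lit 61), (nat_lit 51), (nat_lit 12), (nat_lit 1), (2, 6, 10), [12906100], 66⟩,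
  ⟨⟨-15, 4, -4, -10, -3, 20, -6, -12, -5⟩, (.cons (nat_lit 19143280) (nat_lit 21029396) (nat_lit 22468049) (nat_lit 1) .nil), (nat_lit 38), (nat_lit 15), (nat_lit 36), (nat_lit 1), (8, 11, 10), [19122491], 14⟩,
  ⟨⟨-15, 4, -4, 10, 3, -20, -6, -12, -5⟩, (.cons (nat_lit 23380411) (nat_lit 23863569) (nat_lit 18689538) (nat_lit 1) .nil), (nat_lit 70), (nat_lit 46), (nat_lit 53), (nat_lit 1), (8, 6, 10), [2566078], 1⟩,
  ⟨⟨9, -16, -1, 10, 3, -20, -6, -12, -5⟩, (.cons (nat_lit 2649515) (nat_lit 8649654) (nat_lit 6035001) (nat_lit 1) .nil), (nat_lit 61), (nat_lit 51), (nat_lit 12), (nat_lit 1), (2, 6, 10), [12906100], 66⟩,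
  ⟨⟨9, -16, -1, -10, -3, 20, -6, -12, -5⟩, (.cons (nat_lit 12361898) (nat_lit 20985542) (nat_lit 11286757) (nat_lit 1) .nil), (nat_lit 68), (nat_lit 12), (nat_lit 54), (nat_lit 1), (2, 11, 10), [5319789], 9⟩,
  ⟨⟨9, -16, -1, -10, -3, 20, -6, -12, -5⟩, (.cons (nat_lit 12361898) (nat_lit 20985542) (nat_lit 11286757) (nat_lit 1) .nil), (nat_lit 68), (nat_lit 12), (nat_lit 54), (nat_lit 1), (2, 11, 10), [5319789], 9⟩,
  ⟨⟨9, -16, -1, 10, 3, -20, -6, -12, -5⟩, (.cons (nat_lit 2649515) (nat_lit 8649654) (nat_lit 6035001) (nat_lit 1) .nil), (nat_lit 61), (nat_lit 51), (nat_lit 12), (nat_lit 1), (2, 6, 10), [12906100], 66⟩,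
  ⟨⟨9, -16, -1, 10, 3, -20, -6, -12, -5⟩, (.cons (nat_lit 2649515) (nat_lit 8649654) (nat_lit 6035001) (nat_lit 1) .nil), (nat_lit 61), (nat_lit 51), (nat_lit 12), (nat_lit 1), (2, 6, 10), [12906100], 66⟩]

/-- Moves. -/
noncomputable def t4_3 : List Mv := [
  mz,
  ⟨⟨63, 40, -56, -10, -21, -70, -12, 60, -13⟩, (.cons (nat_lit 13547580) (nat_lit 20116290) (nat_lit 15437763) (nat_lit 1) .nil), (nat_lit 58), (nat_lit 0), (nat_lit 0), (nat_lit 0), (31, 21, 11), [2177004], 0⟩,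
  mz,
  ⟨⟨65, -24, -72, -4, 55, -48, -10, -40, -49⟩, (.cons (nat_lit 24137568) (nat_lit 16306072) (nat_lit 3496595) (nat_lit 1) .nil), (nat_lit 3), (nat_lit 0), (nat_lit 0), (nat_lit 0), (37, 1, 38), [3409083], 0⟩,
  ⟨⟨27, 68, 16, 64, -15, -62, -6, 48, -43⟩, (.cons (nat_lit 5019722) (nat_lit 23920105) (nat_lit 11924459) (nat_lit 1) .nil), (nat_lit 46), (nat_lit 0), (nat_lit 0), (nat_lit 0), (60, 16, 34), [21206604], 0⟩,
  ⟨⟨27, -68, 16, 64, 15, -62, -6, -48, -43⟩, (.cons (nat_lit 5571146) (nat_lit 18036812) (nat_lit 9313677) (nat_lit 1) .nil), (nat_lit 46), (nat_lit 0), (nat_lit 0), (nat_lit 0), (7, 35, 30), [1140998], 0⟩,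
  mz,
  ⟨⟨-29, 72, 20, 56, 25, -68, -38, 16, -35⟩, (.cons (nat_lit 1906509) (nat_lit 1268558) (nat_lit 21307813) (nat_lit 1) .nil), (nat_lit 8), (nat_lit 0), (nat_lit 0), (nat_lit 0), (33, 44, 31), [9504725], 0⟩,
  ⟨⟨23, -72, 9, 64, 25, -12, 26, -32, -67⟩, (.cons (nat_lit 17172077) (nat_lit 20621606) (nat_lit 22686700) (nat_lit 1) .nil), (nat_lit 49), (nat_lit 0), (nat_lit 0), (nat_lit 0), (60, 62, 3), [876515], 0⟩,
  mz,
  mz,
  ⟨⟨33, -20, -92, 64, 15, -2, 6, 48, -49⟩, (.cons (nat_lit 544321) (nat_lit 17920285) (nat_lit 3789163) (nat_lit 1) .nil), (nat_lit 12), (nat_lit 0), (nat_lit 0), (nat_lit 0), (67, 3, 38), [198222], 0⟩,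
  ⟨⟨-51, -52, -5, 44, -15, -82, -42, 24, -25⟩, (.cons (nat_lit 23496815) (nat_lit 22020522) (nat_lit 9147423) (nat_lit 1) .nil), (nat_lit 5), (nat_lit 0), (nat_lit 0), (nat_lit 0), (61, 49, 21), [16640023], 0⟩,
  mz,
  mz,
  ⟨⟨51, -52, -56, -44, -15, -38, 42, 24, -67⟩, (.cons (nat_lit 7789660) (nat_lit 6416015) (nat_lit 19014420) (nat_lit 1) .nil), (nat_lit 5), (nat_lit 0), (nat_lit 0), (nat_lit 0), (24, 67, 49), [22942965], 0⟩,
  ⟨⟨37, -48, 36, -36, -55, -12, 54, -24, -53⟩, (.cons (nat_lit 24137568) (nat_lit 6417063) (nat_lit 19750649) (nat_lit 1) .nil), (nat_lit 16), (nat_lit 0), (nat_lit 0), (nat_lit 0), (57, 52, 64), [9969354], 0⟩,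
  mz,
  ⟨⟨9, 56, -64, -56, -25, -12, 38, -16, -73⟩, (.cons (nat_lit 8876754) (nat_lit 3606417) (nat_lit 6518203) (nat_lit 1) .nil), (nat_lit 39), (nat_lit 0), (nat_lit 0), (nat_lit 0), (56, 46, 55), [18437662], 0⟩,
  ⟨⟨-61, -48, 25, 44, -55, -32, -22, -8, -55⟩, (.cons (nat_lit 16089574) (nat_lit 12480765) (nat_lit 12271716) (nat_lit 1) .nil), (nat_lit 24), (nat_lit 0), (nat_lit 0), (nat_lit 0), (9, 68, 37), [18795162], 0⟩,
  mz,
  mz,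
  ⟨⟨17, -24, 72, -36, 55, 48, 54, 24, -1⟩, (.cons (nat_lit 24137568) (nat_lit 22814488) (nat_lit 20852064) (nat_lit 1) .nil), (nat_lit 22), (nat_lit 0), (nat_lit 0), (nat_lit 0), (28, 66, 43), [3207376], 0⟩,
  ⟨⟨39, -40, -80, 44, 55, -32, -22, 8, -55⟩, (.cons (nat_lit 1486879) (nat_lit 14664968) (nat_lit 2246392) (nat_lit 1) .nil), (nat_lit 19), (nat_lit 0), (nat_lit 0), (nat_lit 0), (1, 43, 14), [4878132], 0⟩,
  ⟨⟨61, -48, -36, -44, -55, 12, 22, -8, -77⟩, (.cons (nat_lit 24137568) (nat_lit 5367882) (nat_lit 20989098) (nat_lit 1) .nil), (nat_lit 24), (nat_lit 0), (nat_lit 0), (nat_lit 0), (26, 15, 28), [13045625], 0⟩,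
  mz,
  ⟨⟨51, -4, 40, -10, 69, 20, 60, 12, -49⟩, (.cons (nat_lit 24137568) (nat_lit 20579746) (nat_lit 18910956) (nat_lit 1) .nil), (nat_lit 26), (nat_lit 0), (nat_lit 0), (nat_lit 0), (60, 30, 33), [4530905], 0⟩,
  mz,
  mz,
  ⟨⟨-13, -72, 36, 70, -11, -30, -4, -44, -49⟩, (.cons (nat_lit 10509185) (nat_lit 22218244) (nat_lit 21172094) (nat_lit 1) .nil), (nat_lit 62), (nat_lit 0), (nat_lit 0), (nat_lit 0), (29, 35, 69), [12149439], 0⟩,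
  mz,
  ⟨⟨-11, 72, -25, 50, -11, -80, -44, 4, -29⟩, (.cons (nat_lit 14727341) (nat_lit 20034305) (nat_lit 1268803) (nat_lit 1) .nil), (nat_lit 29), (nat_lit 0), (nat_lit 0), (nat_lit 0), (44, 13, 34), [11667590], 0⟩,
  mz,
  ⟨⟨-29, -72, 20, 56, -25, -68, -38, -16, -35⟩, (.cons (nat_lit 22138942) (nat_lit 17295184) (nat_lit 18049212) (nat_lit 1) .nil), (nat_lit 8), (nat_lit 0), (nat_lit 0), (nat_lit 0), (27, 36, 6), [8398113], 0⟩,
  ⟨⟨75, 20, -32, 10, -21, -80, 12, 60, -25⟩, (.cons (nat_lit 17812625) (nat_lit 17999505) (nat_lit 14905559) (nat_lit 1) .nil), (nat_lit 55), (nat_lit 0), (nat_lit 0), (nat_lit 0), (30, 4, 19), [9805380], 0⟩,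
  mz,
  ⟨⟨3, -40, -76, 64, -25, -12, 26, 32, -67⟩, (.cons (nat_lit 16173392) (nat_lit 21409535) (nat_lit 6466895) (nat_lit 1) .nil), (nat_lit 7), (nat_lit 0), (nat_lit 0), (nat_lit 0), (58, 54, 53), [15390905], 0⟩,
  mz,
  ⟨⟨17, -24, -89, -36, 55, -12, 54, 24, -53⟩, (.cons (nat_lit 1906766) (nat_lit 15705010) (nat_lit 1) (nat_lit 10858597) .nil), (nat_lit 22), (nat_lit 0), (nat_lit 0), (nat_lit 0), (5, 27, 66), [845540], 0⟩,
  ⟨⟨-23, -72, 32, 64, -25, -52, -26, -32, -41⟩, (.cons (nat_lit 11011910) (nat_lit 2849230) (nat_lit 1) (nat_lit 6410564) .nil), (nat_lit 18), (nat_lit 0), (nat_lit 0), (nat_lit 0), (21, 28, 33), [6236999], 0⟩,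
  mz,
  mz,
  ⟨⟨75, 16, -52, 4, -55, -52, 10, 40, -59⟩, (.cons (nat_lit 21777657) (nat_lit 18355788) (nat_lit 2093135) (nat_lit 1) .nil), (nat_lit 65), (nat_lit 0), (nat_lit 0), (nat_lit 0), (5, 5, 48), [5921880], 0⟩,
  ⟨⟨11, -72, -36, -50, 11, -30, 44, -4, -73⟩, (.cons (nat_lit 17024574) (nat_lit 23860973) (nat_lit 15029310) (nat_lit 1) .nil), (nat_lit 29), (nat_lit 0), (nat_lit 0), (nat_lit 0), (69, 22, 63), [9187304], 0⟩,
  ⟨⟨-39, -40, -41, 44, -55, -12, 22, 8, -77⟩, (.cons (nat_lit 14032363) (nat_lit 19529913) (nat_lit 17818675) (nat_lit 1) .nil), (nat_lit 23), (nat_lit 0), (nat_lit 0), (nat_lit 0), (46, 10, 5), [16093799], 0⟩,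
  mz,
  ⟨⟨51, 52, -56, -44, 15, -38, 42, -24, -67⟩, (.cons (nat_lit 6676391) (nat_lit 1768661) (nat_lit 7703953) (nat_lit 1) .nil), (nat_lit 5), (nat_lit 0), (nat_lit 0), (nat_lit 0), (52, 15, 47), [12902101], 0⟩,
  ⟨⟨9, -16, 80, -10, -69, -10, 60, -12, -11⟩, (.cons (nat_lit 24137568) (nat_lit 13939116) (nat_lit 176275) (nat_lit 1) .nil), (nat_lit 47), (nat_lit 0), (nat_lit 0), (nat_lit 0), (33, 58, 7), [11362134], 0⟩,
  ⟨⟨51, 4, 40, 10, 69, -20, 60, -12, -49⟩, (.cons (nat_lit 24137568) (nat_lit 8576113) (nat_lit 17061999) (nat_lit 1) .nil), (nat_lit 48), (nat_lit 0), (nat_lit 0), (nat_lit 0), (13, 29, 32), [14435536], 0⟩,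
  ⟨⟨9, -56, -64, -56, 25, -12, 38, 16, -73⟩, (.cons (nat_lit 5315212) (nat_lit 18825179) (nat_lit 249480) (nat_lit 1) .nil), (nat_lit 39), (nat_lit 0), (nat_lit 0), (nat_lit 0), (4, 54, 9), [12298064], 0⟩,
  ⟨⟨65, 24, -72, 4, 55, 48, -10, 40, -49⟩, (.cons (nat_lit 24137568) (nat_lit 19390687) (nat_lit 8156732) (nat_lit 1) .nil), (nat_lit 50), (nat_lit 0), (nat_lit 0), (nat_lit 0), (39, 45, 65), [14646595], 0⟩,
  ⟨⟨9, -76, -20, 44, 15, -82, -42, -24, -25⟩, (.cons (nat_lit 4987778) (nat_lit 18064506) (nat_lit 3064708) (nat_lit 1) .nil), (nat_lit 67), (nat_lit 0), (nat_lit 0), (nat_lit 0), (1, 68, 19), [24045988], 0⟩,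
  mz,
  ⟨⟨13, -72, 23, 70, 11, -40, 4, -44, -53⟩, (.cons (nat_lit 19298617) (nat_lit 19754377) (nat_lit 5081408) (nat_lit 1) .nil), (nat_lit 43), (nat_lit 0), (nat_lit 0), (nat_lit 0), (14, 59, 48), [20975125], 0⟩,
  ⟨⟨9, 16, 80, -10, 69, -10, 60, 12, -11⟩, (.cons (nat_lit 6230307) (nat_lit 18091286) (nat_lit 15106354) (nat_lit 1) .nil), (nat_lit 47), (nat_lit 0), (nat_lit 0), (nat_lit 0), (58, 46, 8), [13441304], 0⟩,
  ⟨⟨75, -20, -32, 10, 21, -80, 12, -60, -25⟩, (.cons (nat_lit 24137568) (nat_lit 5718167) (nat_lit 2040303) (nat_lit 1) .nil), (nat_lit 55), (nat_lit 0), (nat_lit 0), (nat_lit 0), (52, 59, 14), [19758085], 0⟩,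
  mz,
  ⟨⟨-11, -72, -25, 50, 11, -80, -44, -4, -29⟩, (.cons (nat_lit 1341651) (nat_lit 8229523) (nat_lit 17996510) (nat_lit 1) .nil), (nat_lit 29), (nat_lit 0), (nat_lit 0), (nat_lit 0), (38, 8, 10), [15052091], 0⟩,
  ⟨⟨-75, -20, 43, -10, 21, -70, -12, -60, -13⟩, (.cons (nat_lit 495508) (nat_lit 15443236) (nat_lit 1630566) (nat_lit 1) .nil), (nat_lit 55), (nat_lit 0), (nat_lit 0), (nat_lit 0), (2, 5, 6), [15176805], 0⟩,
  mz,
  mz,
  mz,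
  ⟨⟨11, 72, -36, 50, 11, 30, 44, 4, -73⟩, (.cons (nat_lit 18964082) (nat_lit 20652273) (nat_lit 11579111) (nat_lit 1) .nil), (nat_lit 64), (nat_lit 0), (nat_lit 0), (nat_lit 0), (4, 44, 16), [13506116], 0⟩,
  mz,
  ⟨⟨-13, 72, 36, 70, 11, -30, -4, 44, -49⟩, (.cons (nat_lit 9402730) (nat_lit 9477608) (nat_lit 2284336) (nat_lit 1) .nil), (nat_lit 62), (nat_lit 0), (nat_lit 0), (nat_lit 0), (35, 30, 49), [21665864], 0⟩,
  ⟨⟨75, -16, -52, -4, -55, 52, 10, -40, -59⟩, (.cons (nat_lit 1339818) (nat_lit 15961550) (nat_lit 3504835) (nat_lit 1) .nil), (nat_lit 42), (nat_lit 0), (nat_lit 0), (nat_lit 0), (51, 20, 21), [12935384], 0⟩,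
  mz,
  ⟨⟨33, 20, -92, -64, 15, 2, 6, -48, -49⟩, (.cons (nat_lit 12644134) (nat_lit 15478432) (nat_lit 19475142) (nat_lit 1) .nil), (nat_lit 51), (nat_lit 0), (nat_lit 0), (nat_lit 0), (45, 16, 34), [21325110], 0⟩,
  ⟨⟨13, 72, 23, 70, -11, -40, 4, 44, -53⟩, (.cons (nat_lit 5318708) (nat_lit 20241151) (nat_lit 8445562) (nat_lit 1) .nil), (nat_lit 43), (nat_lit 0), (nat_lit 0), (nat_lit 0), (20, 64, 28), [1998585], 0⟩,
  ⟨⟨-23, 72, 32, 64, 25, -52, -26, 32, -41⟩, (.cons (nat_lit 14753256) (nat_lit 9974572) (nat_lit 14374444) (nat_lit 1) .nil), (nat_lit 18), (nat_lit 0), (nat_lit 0), (nat_lit 0), (27, 36, 12), [11276074], 0⟩,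
  ⟨⟨17, 24, 72, 36, 55, -48, 54, -24, -1⟩, (.cons (nat_lit 24137568) (nat_lit 3086856) (nat_lit 21728731) (nat_lit 1) .nil), (nat_lit 70), (nat_lit 0), (nat_lit 0), (nat_lit 0), (30, 51, 41), [12865318], 0⟩]

/-- Moves. -/
noncomputable def t4_7 : List Mv := [
  mz,
  ⟨⟨-75, 20, 43, -10, -21, -70, -12, 60, -13⟩, (.cons (nat_lit 3744510) (nat_lit 17201915) (nat_lit 17057582) (nat_lit 1) .nil), (nat_lit 55), (nat_lit 0), (nat_lit 0), (nat_lit 0), (51, 21, 11), [11655732], 0⟩,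
  mz,
  ⟨⟨65, -24, -72, -4, 55, -48, -10, -40, -49⟩, (.cons (nat_lit 24137568) (nat_lit 16306072) (nat_lit 3496595) (nat_lit 1) .nil), (nat_lit 3), (nat_lit 0), (nat_lit 0), (nat_lit 0), (37, 1, 38), [3409083], 0⟩,
  ⟨⟨-33, -20, -59, -64, 15, 62, -6, 48, -43⟩, (.cons (nat_lit 14588157) (nat_lit 285898) (nat_lit 1) (nat_lit 6894350) .nil), (nat_lit 12), (nat_lit 0), (nat_lit 0), (nat_lit 0), (45, 55, 34), [4344187], 0⟩,
  ⟨⟨27, -68, 16, 64, 15, -62, -6, -48, -43⟩, (.cons (nat_lit 5571146) (nat_lit 18036812) (nat_lit 9313677) (nat_lit 1) .nil), (nat_lit 46), (nat_lit 0), (nat_lit 0), (nat_lit 0), (7, 35, 30), [1140998], 0⟩,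
  mz,
  ⟨⟨-29, 72, 20, 56, 25, -68, -38, 16, -35⟩, (.cons (nat_lit 1906509) (nat_lit 1268558) (nat_lit 21307813) (nat_lit 1) .nil), (nat_lit 8), (nat_lit 0), (nat_lit 0), (nat_lit 0), (33, 44, 31), [9504725], 0⟩,
  ⟨⟨3, 40, -76, -64, -25, 12, 26, -32, -67⟩, (.cons (nat_lit 21472557) (nat_lit 2155827) (nat_lit 19067344) (nat_lit 1) .nil), (nat_lit 33), (nat_lit 0), (nat_lit 0), (nat_lit 0), (14, 9, 3), [9441625], 0⟩,
  mz,
  mz,
  ⟨⟨33, -20, -92, 64, 15, -2, 6, 48, -49⟩, (.cons (nat_lit 544321) (nat_lit 17920285) (nat_lit 3789163) (nat_lit 1) .nil), (nat_lit 12), (nat_lit 0), (nat_lit 0), (nat_lit 0), (67, 3, 38), [198222], 0⟩,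
  ⟨⟨9, 76, -20, 44, -15, -82, -42, 24, -25⟩, (.cons (nat_lit 1104146) (nat_lit 21930604) (nat_lit 21911725) (nat_lit 1) .nil), (nat_lit 67), (nat_lit 0), (nat_lit 0), (nat_lit 0), (31, 49, 21), [1106467], 0⟩,
  mz,
  mz,
  ⟨⟨-9, 76, -11, -44, -15, -38, 42, 24, -67⟩, (.cons (nat_lit 7606429) (nat_lit 13739507) (nat_lit 20115752) (nat_lit 1) .nil), (nat_lit 67), (nat_lit 0), (nat_lit 0), (nat_lit 0), (25, 67, 49), [13909450], 0⟩,
  ⟨⟨17, 24, -89, -36, -55, -12, 54, -24, -53⟩, (.cons (nat_lit 5185347) (nat_lit 18714546) (nat_lit 6997022) (nat_lit 1) .nil), (nat_lit 22), (nat_lit 0), (nat_lit 0), (nat_lit 0), (7, 52, 64), [11984307], 0⟩,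
  mz,
  ⟨⟨9, 56, -64, -56, -25, -12, 38, -16, -73⟩, (.cons (nat_lit 8876754) (nat_lit 3606417) (nat_lit 6518203) (nat_lit 1) .nil), (nat_lit 39), (nat_lit 0), (nat_lit 0), (nat_lit 0), (56, 46, 55), [18437662], 0⟩,
  ⟨⟨-61, -48, 25, 44, -55, -32, -22, -8, -55⟩, (.cons (nat_lit 16089574) (nat_lit 12480765) (nat_lit 12271716) (nat_lit 1) .nil), (nat_lit 24), (nat_lit 0), (nat_lit 0), (nat_lit 0), (9, 68, 37), [18795162], 0⟩,
  mz,
  mz,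
  ⟨⟨37, 48, -73, 36, -55, -48, 54, 24, -1⟩, (.cons (nat_lit 23247160) (nat_lit 20176311) (nat_lit 7045402) (nat_lit 1) .nil), (nat_lit 38), (nat_lit 0), (nat_lit 0), (nat_lit 0), (15, 5, 43), [868739], 0⟩,
  ⟨⟨-61, 48, 25, 44, 55, -32, -22, 8, -55⟩, (.cons (nat_lit 18462634) (nat_lit 8202319) (nat_lit 23663476) (nat_lit 1) .nil), (nat_lit 24), (nat_lit 0), (nat_lit 0), (nat_lit 0), (13, 43, 14), [10670028], 0⟩,
  ⟨⟨-39, 40, -41, 44, 55, -12, 22, -8, -77⟩, (.cons (nat_lit 10474013) (nat_lit 12150861) (nat_lit 3137822) (nat_lit 1) .nil), (nat_lit 23), (nat_lit 0), (nat_lit 0), (nat_lit 0), (2, 56, 28), [16297179], 0⟩,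
  mz,
  ⟨⟨51, -4, 40, -10, 69, 20, 60, 12, -49⟩, (.cons (nat_lit 24137568) (nat_lit 20579746) (nat_lit 18910956) (nat_lit 1) .nil), (nat_lit 26), (nat_lit 0), (nat_lit 0), (nat_lit 0), (60, 30, 33), [4530905], 0⟩,
  mz,
  mz,
  ⟨⟨-13, -72, 36, 70, -11, -30, -4, -44, -49⟩, (.cons (nat_lit 10509185) (nat_lit 22218244) (nat_lit 21172094) (nat_lit 1) .nil), (nat_lit 62), (nat_lit 0), (nat_lit 0), (nat_lit 0), (29, 35, 69), [12149439], 0⟩,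
  mz,
  ⟨⟨-33, -68, -4, -50, 11, 80, -44, 4, -29⟩, (.cons (nat_lit 9109622) (nat_lit 628520) (nat_lit 10763760) (nat_lit 1) .nil), (nat_lit 68), (nat_lit 0), (nat_lit 0), (nat_lit 0), (61, 58, 34), [16940884], 0⟩,
  mz,
  ⟨⟨-29, -72, 20, 56, -25, -68, -38, -16, -35⟩, (.cons (nat_lit 22138942) (nat_lit 17295184) (nat_lit 18049212) (nat_lit 1) .nil), (nat_lit 8), (nat_lit 0), (nat_lit 0), (nat_lit 0), (27, 36, 6), [8398113], 0⟩,
  ⟨⟨75, 20, -32, 10, -21, -80, 12, 60, -25⟩, (.cons (nat_lit 17812625) (nat_lit 17999505) (nat_lit 14905559) (nat_lit 1) .nil), (nat_lit 55), (nat_lit 0), (nat_lit 0), (nat_lit 0), (30, 4, 19), [9805380], 0⟩,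
  mz,
  ⟨⟨3, -40, -76, 64, -25, -12, 26, 32, -67⟩, (.cons (nat_lit 16173392) (nat_lit 21409535) (nat_lit 6466895) (nat_lit 1) .nil), (nat_lit 7), (nat_lit 0), (nat_lit 0), (nat_lit 0), (58, 54, 53), [15390905], 0⟩,
  mz,
  ⟨⟨37, 48, 36, 36, -55, 12, 54, 24, -53⟩, (.cons (nat_lit 24137568) (nat_lit 19847381) (nat_lit 9036339) (nat_lit 1) .nil), (nat_lit 38), (nat_lit 0), (nat_lit 0), (nat_lit 0), (61, 44, 66), [11029597], 0⟩,
  ⟨⟨-23, -72, 32, 64, -25, -52, -26, -32, -41⟩, (.cons (nat_lit 11011910) (nat_lit 2849230) (nat_lit 1) (nat_lit 6410564) .nil), (nat_lit 18), (nat_lit 0), (nat_lit 0), (nat_lit 0), (21, 28, 33), [6236999], 0⟩,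
  mz,
  mz,
  ⟨⟨75, 16, -52, -4, 55, 52, 10, 40, -59⟩, (.cons (nat_lit 24137568) (nat_lit 5103997) (nat_lit 5613253) (nat_lit 1) .nil), (nat_lit 42), (nat_lit 0), (nat_lit 0), (nat_lit 0), (5, 66, 48), [10048552], 0⟩,
  ⟨⟨33, 68, -37, 50, -11, 30, 44, -4, -73⟩, (.cons (nat_lit 1042429) (nat_lit 13833416) (nat_lit 14029393) (nat_lit 1) .nil), (nat_lit 68), (nat_lit 0), (nat_lit 0), (nat_lit 0), (65, 49, 63), [17221419], 0⟩,
  ⟨⟨-39, -40, -41, 44, -55, -12, 22, 8, -77⟩, (.cons (nat_lit 14032363) (nat_lit 19529913) (nat_lit 17818675) (nat_lit 1) .nil), (nat_lit 23), (nat_lit 0), (nat_lit 0), (nat_lit 0), (46, 10, 5), [16093799], 0⟩,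
  mz,
  ⟨⟨51, 52, -56, -44, 15, -38, 42, -24, -67⟩, (.cons (nat_lit 6676391) (nat_lit 1768661) (nat_lit 7703953) (nat_lit 1) .nil), (nat_lit 5), (nat_lit 0), (nat_lit 0), (nat_lit 0), (52, 15, 47), [12902101], 0⟩,
  ⟨⟨9, -16, 80, 10, 69, 10, 60, -12, -11⟩, (.cons (nat_lit 2813004) (nat_lit 18194248) (nat_lit 4272222) (nat_lit 1) .nil), (nat_lit 54), (nat_lit 0), (nat_lit 0), (nat_lit 0), (33, 13, 7), [9948493], 0⟩,
  ⟨⟨9, -16, -89, 10, 69, -20, 60, -12, -49⟩, (.cons (nat_lit 20294759) (nat_lit 17944281) (nat_lit 7998038) (nat_lit 1) .nil), (nat_lit 54), (nat_lit 0), (nat_lit 0), (nat_lit 0), (19, 29, 32), [6149640], 0⟩,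
  ⟨⟨9, -56, -64, 56, -25, 12, 38, 16, -73⟩, (.cons (nat_lit 19924027) (nat_lit 14469090) (nat_lit 6315877) (nat_lit 1) .nil), (nat_lit 69), (nat_lit 0), (nat_lit 0), (nat_lit 0), (4, 17, 9), [18291944], 0⟩,
  ⟨⟨65, 24, -72, 4, 55, 48, -10, 40, -49⟩, (.cons (nat_lit 24137568) (nat_lit 19390687) (nat_lit 8156732) (nat_lit 1) .nil), (nat_lit 50), (nat_lit 0), (nat_lit 0), (nat_lit 0), (39, 45, 65), [14646595], 0⟩,
  ⟨⟨9, -76, -20, 44, 15, -82, -42, -24, -25⟩, (.cons (nat_lit 4987778) (nat_lit 18064506) (nat_lit 3064708) (nat_lit 1) .nil), (nat_lit 67), (nat_lit 0), (nat_lit 0), (nat_lit 0), (1, 68, 19), [24045988], 0⟩,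
  mz,
  ⟨⟨13, -72, 23, 70, 11, -40, 4, -44, -53⟩, (.cons (nat_lit 19298617) (nat_lit 19754377) (nat_lit 5081408) (nat_lit 1) .nil), (nat_lit 43), (nat_lit 0), (nat_lit 0), (nat_lit 0), (14, 59, 48), [20975125], 0⟩,
  ⟨⟨51, -4, -91, -10, 69, -10, 60, 12, -11⟩, (.cons (nat_lit 13111626) (nat_lit 10575354) (nat_lit 461513) (nat_lit 1) .nil), (nat_lit 26), (nat_lit 0), (nat_lit 0), (nat_lit 0), (21, 46, 8), [14867404], 0⟩,
  ⟨⟨75, -20, -32, 10, 21, -80, 12, -60, -25⟩, (.cons (nat_lit 24137568) (nat_lit 5718167) (nat_lit 2040303) (nat_lit 1) .nil), (nat_lit 55), (nat_lit 0), (nat_lit 0), (nat_lit 0), (52, 59, 14), [19758085], 0⟩,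
  mz,
  ⟨⟨-11, -72, -25, 50, 11, -80, -44, -4, -29⟩, (.cons (nat_lit 1341651) (nat_lit 8229523) (nat_lit 17996510) (nat_lit 1) .nil), (nat_lit 29), (nat_lit 0), (nat_lit 0), (nat_lit 0), (38, 8, 10), [15052091], 0⟩,
  ⟨⟨-75, -20, 43, -10, 21, -70, -12, -60, -13⟩, (.cons (nat_lit 495508) (nat_lit 15443236) (nat_lit 1630566) (nat_lit 1) .nil), (nat_lit 55), (nat_lit 0), (nat_lit 0), (nat_lit 0), (2, 5, 6), [15176805], 0⟩,
  mz,
  mz,
  mz,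
  ⟨⟨11, 72, -36, -50, -11, -30, 44, 4, -73⟩, (.cons (nat_lit 6756347) (nat_lit 6411353) (nat_lit 2770271) (nat_lit 1) .nil), (nat_lit 29), (nat_lit 0), (nat_lit 0), (nat_lit 0), (4, 27, 16), [13927487], 0⟩,
  mz,
  ⟨⟨-13, 72, 36, 70, 11, -30, -4, 44, -49⟩, (.cons (nat_lit 9402730) (nat_lit 9477608) (nat_lit 2284336) (nat_lit 1) .nil), (nat_lit 62), (nat_lit 0), (nat_lit 0), (nat_lit 0), (35, 30, 49), [21665864], 0⟩,
  ⟨⟨-65, -24, -7, -4, -55, 52, 10, -40, -59⟩, (.cons (nat_lit 23021174) (nat_lit 20677232) (nat_lit 10543551) (nat_lit 1) .nil), (nat_lit 50), (nat_lit 0), (nat_lit 0), (nat_lit 0), (41, 20, 21), [19359316], 0⟩,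
  mz,
  ⟨⟨33, 20, -92, 64, -15, -2, 6, -48, -49⟩, (.cons (nat_lit 1341491) (nat_lit 6021551) (nat_lit 11720259) (nat_lit 1) .nil), (nat_lit 12), (nat_lit 0), (nat_lit 0), (nat_lit 0), (45, 55, 34), [12090208], 0⟩,
  ⟨⟨13, 72, 23, 70, -11, -40, 4, 44, -53⟩, (.cons (nat_lit 5318708) (nat_lit 20241151) (nat_lit 8445562) (nat_lit 1) .nil), (nat_lit 43), (nat_lit 0), (nat_lit 0), (nat_lit 0), (20, 64, 28), [1998585], 0⟩,
  ⟨⟨-23, 72, 32, -64, -25, 52, -26, 32, -41⟩, (.cons (nat_lit 2310040) (nat_lit 8220753) (nat_lit 939401) (nat_lit 1) .nil), (nat_lit 49), (nat_lit 0), (nat_lit 0), (nat_lit 0), (27, 35, 12), [22277814], 0⟩,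
  ⟨⟨17, 24, 72, 36, 55, -48, 54, -24, -1⟩, (.cons (nat_lit 24137568) (nat_lit 3086856) (nat_lit 21728731) (nat_lit 1) .nil), (nat_lit 70), (nat_lit 0), (nat_lit 0), (nat_lit 0), (30, 51, 41), [12865318], 0⟩]

/-- Moves. -/
noncomputable def t4_9 : List Mv := [
  mz,
  ⟨⟨-75, 20, 43, -10, -21, -70, -12, 60, -13⟩, (.cons (nat_lit 3744510) (nat_lit 17201915) (nat_lit 17057582) (nat_lit 1) .nil), (nat_lit 55), (nat_lit 0), (nat_lit 0), (nat_lit 0), (51, 21, 11), [11655732], 0⟩,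
  mz,
  ⟨⟨65, -24, -72, -4, 55, -48, -10, -40, -49⟩, (.cons (nat_lit 24137568) (nat_lit 16306072) (nat_lit 3496595) (nat_lit 1) .nil), (nat_lit 3), (nat_lit 0), (nat_lit 0), (nat_lit 0), (37, 1, 38), [3409083], 0⟩,
  ⟨⟨27, 68, 16, 64, -15, -62, -6, 48, -43⟩, (.cons (nat_lit 5019722) (nat_lit 23920105) (nat_lit 11924459) (nat_lit 1) .nil), (nat_lit 46), (nat_lit 0), (nat_lit 0), (nat_lit 0), (60, 16, 34), [21206604], 0⟩,
  ⟨⟨-33, 20, -59, -64, -15, 62, -6, -48, -43⟩, (.cons (nat_lit 17328877) (nat_lit 7657482) (nat_lit 9610568) (nat_lit 1) .nil), (nat_lit 12), (nat_lit 0), (nat_lit 0), (nat_lit 0), (23, 36, 30), [14666156], 0⟩,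
  mz,
  ⟨⟨-29, 72, 20, -56, -25, 68, -38, 16, -35⟩, (.cons (nat_lit 18851475) (nat_lit 8513888) (nat_lit 1) (nat_lit 16246271) .nil), (nat_lit 36), (nat_lit 0), (nat_lit 0), (nat_lit 0), (33, 27, 31), [14993368], 0⟩,
  ⟨⟨3, 40, -76, -64, -25, 12, 26, -32, -67⟩, (.cons (nat_lit 21472557) (nat_lit 2155827) (nat_lit 19067344) (nat_lit 1) .nil), (nat_lit 33), (nat_lit 0), (nat_lit 0), (nat_lit 0), (14, 9, 3), [9441625], 0⟩,
  mz,
  mz,
  ⟨⟨33, -20, -92, -64, -15, 2, 6, 48, -49⟩, (.cons (nat_lit 3089704) (nat_lit 23947179) (nat_lit 9493171) (nat_lit 1) .nil), (nat_lit 51), (nat_lit 0), (nat_lit 0), (nat_lit 0), (67, 68, 38), [592045], 0⟩,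
  ⟨⟨9, 76, -20, 44, -15, -82, -42, 24, -25⟩, (.cons (nat_lit 1104146) (nat_lit 21930604) (nat_lit 21911725) (nat_lit 1) .nil), (nat_lit 67), (nat_lit 0), (nat_lit 0), (nat_lit 0), (31, 49, 21), [1106467], 0⟩,
  mz,
  mz,
  ⟨⟨51, -52, -56, -44, -15, -38, 42, 24, -67⟩, (.cons (nat_lit 7789660) (nat_lit 6416015) (nat_lit 19014420) (nat_lit 1) .nil), (nat_lit 5), (nat_lit 0), (nat_lit 0), (nat_lit 0), (24, 67, 49), [22942965], 0⟩,
  ⟨⟨17, 24, -89, -36, -55, -12, 54, -24, -53⟩, (.cons (nat_lit 5185347) (nat_lit 18714546) (nat_lit 6997022) (nat_lit 1) .nil), (nat_lit 22), (nat_lit 0), (nat_lit 0), (nat_lit 0), (7, 52, 64), [11984307], 0⟩,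
  mz,
  ⟨⟨9, 56, -64, -56, -25, -12, 38, -16, -73⟩, (.cons (nat_lit 8876754) (nat_lit 3606417) (nat_lit 6518203) (nat_lit 1) .nil), (nat_lit 39), (nat_lit 0), (nat_lit 0), (nat_lit 0), (56, 46, 55), [18437662], 0⟩,
  ⟨⟨39, 40, -80, -44, 55, 32, -22, -8, -55⟩, (.cons (nat_lit 6968468) (nat_lit 112019) (nat_lit 2718545) (nat_lit 1) .nil), (nat_lit 23), (nat_lit 0), (nat_lit 0), (nat_lit 0), (28, 3, 37), [8064779], 0⟩,
  mz,
  mz,
  ⟨⟨17, -24, 72, -36, 55, 48, 54, 24, -1⟩, (.cons (nat_lit 24137568) (nat_lit 22814488) (nat_lit 20852064) (nat_lit 1) .nil), (nat_lit 22), (nat_lit 0), (nat_lit 0), (nat_lit 0), (28, 66, 43), [3207376], 0⟩,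
  ⟨⟨-61, 48, 25, 44, 55, -32, -22, 8, -55⟩, (.cons (nat_lit 18462634) (nat_lit 8202319) (nat_lit 23663476) (nat_lit 1) .nil), (nat_lit 24), (nat_lit 0), (nat_lit 0), (nat_lit 0), (13, 43, 14), [10670028], 0⟩,
  ⟨⟨61, -48, -36, -44, -55, 12, 22, -8, -77⟩, (.cons (nat_lit 24137568) (nat_lit 5367882) (nat_lit 20989098) (nat_lit 1) .nil), (nat_lit 24), (nat_lit 0), (nat_lit 0), (nat_lit 0), (26, 15, 28), [13045625], 0⟩,
  mz,
  ⟨⟨51, -4, 40, 10, -69, -20, 60, 12, -49⟩, (.cons (nat_lit 6905091) (nat_lit 20719062) (nat_lit 21660753) (nat_lit 1) .nil), (nat_lit 48), (nat_lit 0), (nat_lit 0), (nat_lit 0), (60, 41, 33), [7257632], 0⟩,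
  mz,
  mz,
  ⟨⟨-13, -72, 36, 70, -11, -30, -4, -44, -49⟩, (.cons (nat_lit 10509185) (nat_lit 22218244) (nat_lit 21172094) (nat_lit 1) .nil), (nat_lit 62), (nat_lit 0), (nat_lit 0), (nat_lit 0), (29, 35, 69), [12149439], 0⟩,
  mz,
  ⟨⟨-33, -68, -4, 50, -11, -80, -44, 4, -29⟩, (.cons (nat_lit 12357933) (nat_lit 16858047) (nat_lit 18424288) (nat_lit 1) .nil), (nat_lit 53), (nat_lit 0), (nat_lit 0), (nat_lit 0), (61, 13, 34), [15511828], 0⟩,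
  mz,
  ⟨⟨-29, -72, 20, 56, -25, -68, -38, -16, -35⟩, (.cons (nat_lit 22138942) (nat_lit 17295184) (nat_lit 18049212) (nat_lit 1) .nil), (nat_lit 8), (nat_lit 0), (nat_lit 0), (nat_lit 0), (27, 36, 6), [8398113], 0⟩,
  ⟨⟨75, 20, -32, 10, -21, -80, 12, 60, -25⟩, (.cons (nat_lit 17812625) (nat_lit 17999505) (nat_lit 14905559) (nat_lit 1) .nil), (nat_lit 55), (nat_lit 0), (nat_lit 0), (nat_lit 0), (30, 4, 19), [9805380], 0⟩,
  mz,
  ⟨⟨3, -40, -76, 64, -25, -12, 26, 32, -67⟩, (.cons (nat_lit 16173392) (nat_lit 21409535) (nat_lit 6466895) (nat_lit 1) .nil), (nat_lit 7), (nat_lit 0), (nat_lit 0), (nat_lit 0), (58, 54, 53), [15390905], 0⟩,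
  mz,
  ⟨⟨17, -24, -89, -36, 55, -12, 54, 24, -53⟩, (.cons (nat_lit 1906766) (nat_lit 15705010) (nat_lit 1) (nat_lit 10858597) .nil), (nat_lit 22), (nat_lit 0), (nat_lit 0), (nat_lit 0), (5, 27, 66), [845540], 0⟩,
  ⟨⟨-23, -72, 32, 64, -25, -52, -26, -32, -41⟩, (.cons (nat_lit 11011910) (nat_lit 2849230) (nat_lit 1) (nat_lit 6410564) .nil), (nat_lit 18), (nat_lit 0), (nat_lit 0), (nat_lit 0), (21, 28, 33), [6236999], 0⟩,
  mz,
  mz,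
  ⟨⟨75, 16, -52, 4, -55, -52, 10, 40, -59⟩, (.cons (nat_lit 21777657) (nat_lit 18355788) (nat_lit 2093135) (nat_lit 1) .nil), (nat_lit 65), (nat_lit 0), (nat_lit 0), (nat_lit 0), (5, 5, 48), [5921880], 0⟩,
  ⟨⟨11, -72, -36, -50, 11, -30, 44, -4, -73⟩, (.cons (nat_lit 17024574) (nat_lit 23860973) (nat_lit 15029310) (nat_lit 1) .nil), (nat_lit 29), (nat_lit 0), (nat_lit 0), (nat_lit 0), (69, 22, 63), [9187304], 0⟩,
  ⟨⟨-39, -40, -41, 44, -55, -12, 22, 8, -77⟩, (.cons (nat_lit 14032363) (nat_lit 19529913) (nat_lit 17818675) (nat_lit 1) .nil), (nat_lit 23), (nat_lit 0), (nat_lit 0), (nat_lit 0), (46, 10, 5), [16093799], 0⟩,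
  mz,
  ⟨⟨51, 52, -56, -44, 15, -38, 42, -24, -67⟩, (.cons (nat_lit 6676391) (nat_lit 1768661) (nat_lit 7703953) (nat_lit 1) .nil), (nat_lit 5), (nat_lit 0), (nat_lit 0), (nat_lit 0), (52, 15, 47), [12902101], 0⟩,
  ⟨⟨9, -16, 80, -10, -69, -10, 60, -12, -11⟩, (.cons (nat_lit 24137568) (nat_lit 13939116) (nat_lit 176275) (nat_lit 1) .nil), (nat_lit 47), (nat_lit 0), (nat_lit 0), (nat_lit 0), (33, 58, 7), [11362134], 0⟩,
  ⟨⟨51, 4, 40, -10, -69, 20, 60, -12, -49⟩, (.cons (nat_lit 18512824) (nat_lit 22822944) (nat_lit 22287810) (nat_lit 1) .nil), (nat_lit 26), (nat_lit 0), (nat_lit 0), (nat_lit 0), (13, 42, 32), [8392408], 0⟩,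
  ⟨⟨29, 72, -9, -56, 25, -12, 38, 16, -73⟩, (.cons (nat_lit 11464279) (nat_lit 2598214) (nat_lit 16485689) (nat_lit 1) .nil), (nat_lit 8), (nat_lit 0), (nat_lit 0), (nat_lit 0), (5, 54, 9), [11896216], 0⟩,
  ⟨⟨65, 24, -72, -4, -55, -48, -10, 40, -49⟩, (.cons (nat_lit 1281879) (nat_lit 9313402) (nat_lit 20003562) (nat_lit 1) .nil), (nat_lit 3), (nat_lit 0), (nat_lit 0), (nat_lit 0), (39, 26, 65), [19528544], 0⟩,
  ⟨⟨9, -76, -20, -44, -15, 82, -42, -24, -25⟩, (.cons (nat_lit 13203023) (nat_lit 12975741) (nat_lit 20188711) (nat_lit 1) .nil), (nat_lit 11), (nat_lit 0), (nat_lit 0), (nat_lit 0), (1, 3, 19), [22557243], 0⟩,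
  mz,
  ⟨⟨-9, 28, -76, -70, -11, 40, 4, -44, -53⟩, (.cons (nat_lit 21637358) (nat_lit 13623652) (nat_lit 12231357) (nat_lit 1) .nil), (nat_lit 31), (nat_lit 0), (nat_lit 0), (nat_lit 0), (34, 12, 48), [17787483], 0⟩,
  ⟨⟨9, 16, 80, -10, 69, -10, 60, 12, -11⟩, (.cons (nat_lit 6230307) (nat_lit 18091286) (nat_lit 15106354) (nat_lit 1) .nil), (nat_lit 47), (nat_lit 0), (nat_lit 0), (nat_lit 0), (58, 46, 8), [13441304], 0⟩,
  ⟨⟨75, -20, -32, 10, 21, -80, 12, -60, -25⟩, (.cons (nat_lit 24137568) (nat_lit 5718167) (nat_lit 2040303) (nat_lit 1) .nil), (nat_lit 55), (nat_lit 0), (nat_lit 0), (nat_lit 0), (52, 59, 14), [19758085], 0⟩,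
  mz,
  ⟨⟨-11, -72, -25, 50, 11, -80, -44, -4, -29⟩, (.cons (nat_lit 1341651) (nat_lit 8229523) (nat_lit 17996510) (nat_lit 1) .nil), (nat_lit 29), (nat_lit 0), (nat_lit 0), (nat_lit 0), (38, 8, 10), [15052091], 0⟩,
  ⟨⟨63, -40, -56, 10, -21, 70, -12, -60, -13⟩, (.cons (nat_lit 4684756) (nat_lit 14170356) (nat_lit 14137853) (nat_lit 1) .nil), (nat_lit 1), (nat_lit 0), (nat_lit 0), (nat_lit 0), (4, 66, 6), [21529229], 0⟩,
  mz,
  mz,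
  mz,
  ⟨⟨11, 72, -36, -50, -11, -30, 44, 4, -73⟩, (.cons (nat_lit 6756347) (nat_lit 6411353) (nat_lit 2770271) (nat_lit 1) .nil), (nat_lit 29), (nat_lit 0), (nat_lit 0), (nat_lit 0), (4, 27, 16), [13927487], 0⟩,
  mz,
  ⟨⟨-13, 72, 36, 70, 11, -30, -4, 44, -49⟩, (.cons (nat_lit 9402730) (nat_lit 9477608) (nat_lit 2284336) (nat_lit 1) .nil), (nat_lit 62), (nat_lit 0), (nat_lit 0), (nat_lit 0), (35, 30, 49), [21665864], 0⟩,
  ⟨⟨75, -16, -52, 4, 55, -52, 10, -40, -59⟩, (.cons (nat_lit 24137568) (nat_lit 8012942) (nat_lit 23278981) (nat_lit 1) .nil), (nat_lit 65), (nat_lit 0), (nat_lit 0), (nat_lit 0), (51, 51, 21), [14042534], 0⟩,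
  mz,
  ⟨⟨33, 20, -92, 64, -15, -2, 6, -48, -49⟩, (.cons (nat_lit 1341491) (nat_lit 6021551) (nat_lit 11720259) (nat_lit 1) .nil), (nat_lit 12), (nat_lit 0), (nat_lit 0), (nat_lit 0), (45, 55, 34), [12090208], 0⟩,
  ⟨⟨13, 72, 23, 70, -11, -40, 4, 44, -53⟩, (.cons (nat_lit 5318708) (nat_lit 20241151) (nat_lit 8445562) (nat_lit 1) .nil), (nat_lit 43), (nat_lit 0), (nat_lit 0), (nat_lit 0), (20, 64, 28), [1998585], 0⟩,
  ⟨⟨-23, 72, 32, 64, 25, -52, -26, 32, -41⟩, (.cons (nat_lit 14753256) (nat_lit 9974572) (nat_lit 14374444) (nat_lit 1) .nil), (nat_lit 18), (nat_lit 0), (nat_lit 0), (nat_lit 0), (27, 36, 12), [11276074], 0⟩,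
  ⟨⟨17, 24, 72, 36, 55, -48, 54, -24, -1⟩, (.cons (nat_lit 24137568) (nat_lit 3086856) (nat_lit 21728731) (nat_lit 1) .nil), (nat_lit 70), (nat_lit 0), (nat_lit 0), (nat_lit 0), (30, 51, 41), [12865318], 0⟩]

/-- All the moves. -/
noncomputable def tabs : List (List (List Mv)) := [[[], [], [], t0_3, [], [], [], t0_7, [], t0_9], [], [], [], [[], [], [], t4_3, [], [], [], t4_7, [], t4_9]]

/-- Subtrie. -/
noncomputable def T3 : Tr := (.ev (nat_lit 20) (nat_lit 1789796810638049970328) (.nd (nat_lit 32) (.br (nat_lit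
 12) (.br (nat_lit 3) (.br (nat_lit 2) (.ch (nat_lit 1) (.ev (nat_lit 48) (nat_lit 447370698828059578658) (.nd
 (nat_lit 560) (.br (nat_lit 8) (.br (nat_lit 5) (.br (nat_lit 4) (.ch (nat_lit 0) (.ev (nat_lit 576) (nat_lit
 16777216) (.ev (nat_lit 2816) (nat_lit 36893488147419103232) (.ev (nat_lit 3296) (nat_lit 70368744177664) (.ev
 (nat_lit 3309) (nat_lit 536870912) .dd))))) (.ch (nat_lit 4) (.ev (nat_lit 576) (nat_lit 70369297825792) (.ev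
 (nat_lit 589) (nat_lit 36893488147419103232) .dd)))) (.br (nat_lit 6) (.ch (nat_lit 5) (.ev (nat_lit 576)
 (nat_lit 36893558516700151808) (.ev (nat_lit 589) (nat_lit 16777216) .dd))) (.ch (nat_lit 6) (.ev (nat_lit
 576) (nat_lit 36893558516716929024) .dd)))) (.br (nat_lit 10) (.br (nat_lit 9) (.ch (nat_lit 8) (.nd (nat_lit
 768) (.br (nat_lit 8) (.br (nat_lit 4) (.br (nat_lit 3) (.ch (nat_lit 1) (.ev (nat_lit 784) (nat_lit
 36893558516700151808) (.ev (nat_lit 797) (nat_lit 16777216) .dd))) (.ch (nat_lit 3) (.ev (nat_lit 784)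
 (nat_lit 16777216) (.ev (nat_lit 804) (nat_lit 36893488147419103232) (.ev (nat_lit 2164) (nat_lit
 70368744177664) (.ev (nat_lit 2173) (nat_lit 536870912) .dd)))))) (.br (nat_lit 6) (.ch (nat_lit 4) (.ev
 (nat_lit 784) (nat_lit 36893488147419103232) (.ev (nat_lit 804) (nat_lit 16777216) (.ev (nat_lit 2308)
 (nat_lit 536870912) (.ev (nat_lit 2317) (nat_lit 70368744177664) .dd))))) (.ch (nat_lit 6) (.ev (nat_lit 784)
 (nat_lit 36893488147972751360) (.ev (nat_lit 797) (nat_lit 70368744177664) .dd))))) (.br (nat_lit 12) (.br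
 (nat_lit 9) (.ch (nat_lit 8) (.ev (nat_lit 784) (nat_lit 70369281048576) (.ev (nat_lit 1476) (nat_lit
 16777216) (.ev (nat_lit 1485) (nat_lit 36893488147419103232) .dd)))) (.ch (nat_lit 9) (.ev (nat_lit 784)
 (nat_lit 36893558516163280896) (.ev (nat_lit 1028) (nat_lit 16777216) (.ev (nat_lit 1037) (nat_lit 536870912)
 .dd))))) (.br (nat_lit 13) (.ch (nat_lit 12) (.ev (nat_lit 784) (nat_lit 36893558516716929024) .dd)) (.br
 (nat_lit 16) (.ch (nat_lit 13) (.ev (nat_lit 784) (nat_lit 36893488147955974144) (.ev (nat_lit 1780) (nat_lit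
 16777216) (.ev (nat_lit 1789) (nat_lit 70368744177664) .dd)))) (.ch (nat_lit 16) (.ev (nat_lit 784) (nat_lit
 36893558516716929024) .dd)))))))) (.ch (nat_lit 9) (.ev (nat_lit 576) (nat_lit 36893488147955974144) (.ev
 (nat_lit 2772) (nat_lit 16777216) (.ev (nat_lit 2781) (nat_lit 70368744177664) .dd))))) (.br (nat_lit 11) (.ch
 (nat_lit 10) (.ev (nat_lit 576) (nat_lit 36893558516180058112) (.ev (nat_lit 589) (nat_lit 536870912) .dd)))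
 (.br (nat_lit 12) (.ch (nat_lit 11) (.ev (nat_lit 576) (nat_lit 36893558516163280896) (.ev (nat_lit 2852)
 (nat_lit 16777216) (.ev (nat_lit 2861) (nat_lit 536870912) .dd)))) (.ch (nat_lit 12) (.ev (nat_lit 576)
 (nat_lit 36893558516716929024) .dd))))))))) (.ch (nat_lit 2) (.ev (nat_lit 48) (nat_lit 152221738117489557792)
 (.nd (nat_lit 176) (.br (nat_lit 12) (.br (nat_lit 7) (.br (nat_lit 4) (.ch (nat_lit 0) (.ev (nat_lit 192)
 (nat_lit 295149031079259668482) (.nd (nat_lit 656) (.br (nat_lit 10) (.br (nat_lit 5) (.br (nat_lit 4) (.ch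
 (nat_lit 0) (.ev (nat_lit 672) (nat_lit 36893488147419103232) (.ev (nat_lit 1076) (nat_lit 71303168) (.ev
 (nat_lit 1204) (nat_lit 536870912) (.ev (nat_lit 1213) (nat_lit 4096) .dd))))) (.ch (nat_lit 4) (.ev (nat_lit
 672) (nat_lit 603983872) (.ev (nat_lit 3236) (nat_lit 36893488147419103232) (.ev (nat_lit 3245) (nat_lit
 4194304) .dd))))) (.br (nat_lit 6) (.ch (nat_lit 5) (.ev (nat_lit 672) (nat_lit 608174080) (.ev (nat_lit 2308)
 (nat_lit 4096) (.ev (nat_lit 2317) (nat_lit 36893488147419103232) .dd)))) (.ch (nat_lit 6) (.ev (nat_lit 672)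
 (nat_lit 71303168) (.ev (nat_lit 1412) (nat_lit 536870912) (.ev (nat_lit 2176) (nat_lit 36893488147419103232)
 (.ev (nat_lit 2189) (nat_lit 4096) .dd))))))) (.br (nat_lit 12) (.br (nat_lit 11) (.ch (nat_lit 10) (.ev
 (nat_lit 672) (nat_lit 36893488147960172544) (.ev (nat_lit 685) (nat_lit 67108864) .dd))) (.ch (nat_lit 11)
 (.ev (nat_lit 672) (nat_lit 36893488147419107328) (.ev (nat_lit 1204) (nat_lit 536870912) (.ev (nat_lit 2164)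
 (nat_lit 4194304) (.ev (nat_lit 2173) (nat_lit 67108864) .dd)))))) (.br (nat_lit 15) (.ch (nat_lit 12) (.ev
 (nat_lit 672) (nat_lit 36893488147486216192) (.ev (nat_lit 1236) (nat_lit 536870912) (.ev (nat_lit 1245)
 (nat_lit 4194304) .dd)))) (.ch (nat_lit 15) (.ev (nat_lit 672) (nat_lit 36893488147423297536) (.ev (nat_lit
 1076) (nat_lit 67108864) (.ev (nat_lit 2340) (nat_lit 536870912) (.ev (nat_lit 2349) (nat_lit 4096)
 .dd))))))))))) (.ch (nat_lit 4) (.ev (nat_lit 192) (nat_lit 36894614047397253120) (.nd (nat_lit 1888) (.br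
 (nat_lit 9) (.br (nat_lit 5) (.br (nat_lit 4) (.ch (nat_lit 1) (.ev (nat_lit 1904) (nat_lit
 295147905179889696768) (.ev (nat_lit 1917) (nat_lit 2) .dd))) (.ch (nat_lit 4) (.ev (nat_lit 1904) (nat_lit
 536870912) (.ev (nat_lit 2544) (nat_lit 2) (.ev (nat_lit 2557) (nat_lit 295147905179352825856) .dd))))) (.br
 (nat_lit 8) (.ch (nat_lit 5) (.ev (nat_lit 1904) (nat_lit 295147905179352825858) (.ev (nat_lit 1917) (nat_lit
 536870912) .dd))) (.ch (nat_lit 8) (.ev (nat_lit 1904) (nat_lit 295147905179889696768) (.ev (nat_lit 1917)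
 (nat_lit 2) .dd))))) (.br (nat_lit 13) (.br (nat_lit 11) (.ch (nat_lit 9) (.ev (nat_lit 1904) (nat_lit
 295147905179352825858) (.ev (nat_lit 1917) (nat_lit 536870912) .dd))) (.ch (nat_lit 11) (.ev (nat_lit 1904)
 (nat_lit 536870914) (.ev (nat_lit 1917) (nat_lit 295147905179352825856) .dd)))) (.br (nat_lit 16) (.ch
 (nat_lit 13) (.ev (nat_lit 1904) (nat_lit 295147905179352825858) (.ev (nat_lit 1917) (nat_lit 536870912)
 .dd))) (.ch (nat_lit 16) (.ev (nat_lit 1904) (nat_lit 536870914) (.ev (nat_lit 1917) (nat_lit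
 295147905179352825856) .dd)))))))))) (.br (nat_lit 11) (.ch (nat_lit 7) (.ev (nat_lit 192) (nat_lit
 295149031079867846656) (.ev (nat_lit 2368) (nat_lit 2) (.ev (nat_lit 2381) (nat_lit 36893488147419103232)
 .dd)))) (.ch (nat_lit 11) (.ev (nat_lit 192) (nat_lit 36894614047862816768) (.nd (nat_lit 656) (.br (nat_lit
 10) (.br (nat_lit 5) (.br (nat_lit 4) (.ch (nat_lit 1) (.ev (nat_lit 672) (nat_lit 295147905179419934722) (.ev
 (nat_lit 2096) (nat_lit 4096) (.ev (nat_lit 2109) (nat_lit 4194304) .dd)))) (.ch (nat_lit 4) (.ev (nat_lit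
 672) (nat_lit 295147905179357020162) (.ev (nat_lit 1552) (nat_lit 67108864) (.ev (nat_lit 1565) (nat_lit 4096)
 .dd))))) (.br (nat_lit 6) (.ch (nat_lit 5) (.ev (nat_lit 672) (nat_lit 295147905179352829954) (.ev (nat_lit
 1076) (nat_lit 67108864) (.ev (nat_lit 1085) (nat_lit 4194304) .dd)))) (.ch (nat_lit 6) (.ev (nat_lit 672)
 (nat_lit 295147905179419938816) (.ev (nat_lit 2628) (nat_lit 4194304) (.ev (nat_lit 2637) (nat_lit 2)
 .dd)))))) (.br (nat_lit 12) (.br (nat_lit 11) (.ch (nat_lit 10) (.ev (nat_lit 672) (nat_lit 71307264) (.ev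
 (nat_lit 2164) (nat_lit 2) (.ev (nat_lit 2173) (nat_lit 295147905179352825856) .dd)))) (.ch (nat_lit 11) (.ev
 (nat_lit 672) (nat_lit 71307266) (.ev (nat_lit 685) (nat_lit 295147905179352825856) .dd)))) (.br (nat_lit 16)
 (.ch (nat_lit 12) (.ev (nat_lit 672) (nat_lit 4194304) (.ev (nat_lit 1012) (nat_lit 4096) (.ev (nat_lit 2772)
 (nat_lit 2) (.nd (nat_lit 4544) (.br (nat_lit 13) (.ch (nat_lit 0) (.ev (nat_lit 4560) (nat_lit 67108864) (.ev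
 (nat_lit 4573) (nat_lit 295147905179352825856) .dd))) (.ch (nat_lit 13) (.fin (nat_lit
 576483292302754392))))))))) (.ch (nat_lit 16) (.ev (nat_lit 672) (nat_lit 295147905179352829952) (.ev (nat_lit
 1076) (nat_lit 4194304) (.ev (nat_lit 1412) (nat_lit 67108864) (.ev (nat_lit 1421) (nat_lit 2)
 .dd))))))))))))) (.br (nat_lit 14) (.br (nat_lit 13) (.ch (nat_lit 12) (.ev (nat_lit 192) (nat_lit
 332041393327375912962) (.ev (nat_lit 3156) (nat_lit 4194304) (.ev (nat_lit 3165) (nat_lit 1125899906842624)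
 .dd)))) (.ch (nat_lit 13) (.ev (nat_lit 192) (nat_lit 332042519226682966016) (.nd (nat_lit 1136) (.br (nat_lit
 10) (.br (nat_lit 6) (.br (nat_lit 2) (.ch (nat_lit 0) (.ev (nat_lit 1152) (nat_lit 603979778) (.ev (nat_lit
 1165) (nat_lit 4096) .dd))) (.ch (nat_lit 2) (.ev (nat_lit 1152) (nat_lit 67112960) (.ev (nat_lit 1348)
 (nat_lit 536870912) (.ev (nat_lit 1357) (nat_lit 2) .dd))))) (.br (nat_lit 8) (.ch (nat_lit 6) (.ev (nat_lit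
 1152) (nat_lit 603979778) (.ev (nat_lit 1165) (nat_lit 4096) .dd))) (.ch (nat_lit 8) (.ev (nat_lit 1152)
 (nat_lit 4098) (.ev (nat_lit 1824) (nat_lit 67108864) (.ev (nat_lit 1837) (nat_lit 536870912) .dd)))))) (.br
 (nat_lit 12) (.br (nat_lit 11) (.ch (nat_lit 10) (.ev (nat_lit 1152) (nat_lit 4096) (.ev (nat_lit 2416)
 (nat_lit 67108864) (.fin (nat_lit 576460202545988152))))) (.ch (nat_lit 11) (.ev (nat_lit 1152) (nat_lit
 603979776) (.ev (nat_lit 1172) (nat_lit 2) (.ev (nat_lit 1181) (nat_lit 4096) .dd))))) (.br (nat_lit 14) (.ch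
 (nat_lit 12) (.ev (nat_lit 1152) (nat_lit 536875008) (.ev (nat_lit 2320) (nat_lit 67108866) .dd))) (.br
 (nat_lit 15) (.ch (nat_lit 14) (.ev (nat_lit 1152) (nat_lit 536875008) (.ev (nat_lit 1204) (nat_lit 2) (.ev
 (nat_lit 1213) (nat_lit 67108864) .dd)))) (.ch (nat_lit 15) (.ev (nat_lit 1152) (nat_lit 4098) (.ev (nat_lit
 2384) (nat_lit 536870912) (.ev (nat_lit 2397) (nat_lit 67108864) .dd)))))))))))) (.br (nat_lit 15) (.ch
 (nat_lit 14) (.ev (nat_lit 192) (nat_lit 4098) (.nd (nat_lit 608) (.br (nat_lit 10) (.br (nat_lit 2) (.br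
 (nat_lit 1) (.ch (nat_lit 0) (.ev (nat_lit 624) (nat_lit 541065216) (.ev (nat_lit 1012) (nat_lit
 36893488147419103232) (.ev (nat_lit 2164) (nat_lit 1125899906842624) (.ev (nat_lit 2228) (nat_lit
 295147905179352825856) (.ev (nat_lit 2237) (nat_lit 67108864) .dd)))))) (.ch (nat_lit 1) (.ev (nat_lit 624)
 (nat_lit 295149031079867842560) (.ev (nat_lit 637) (nat_lit 36893488147419103232) .dd)))) (.br (nat_lit 6)
 (.ch (nat_lit 2) (.ev (nat_lit 624) (nat_lit 36894614047862816768) (.ev (nat_lit 1396) (nat_lit 4194304) (.ev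
 (nat_lit 1712) (nat_lit 67108864) (.ev (nat_lit 1725) (nat_lit 295147905179352825856) .dd))))) (.ch (nat_lit
 6) (.ev (nat_lit 624) (nat_lit 332041393326843232256) (.ev (nat_lit 1396) (nat_lit 1125899906842624) (.ev
 (nat_lit 1405) (nat_lit 536870912) .dd)))))) (.br (nat_lit 12) (.br (nat_lit 11) (.ch (nat_lit 10) (.ev
 (nat_lit 624) (nat_lit 295149031079259668480) (.ev (nat_lit 1396) (nat_lit 4194304) (.ev (nat_lit 1940)
 (nat_lit 67108864) (.fin (nat_lit 576405227031708160)))))) (.ch (nat_lit 11) (.ev (nat_lit 624) (nat_lit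
 36893488148027277312) (.ev (nat_lit 2644) (nat_lit 1125899906842624) (.ev (nat_lit 2653) (nat_lit
 295147905179352825856) .dd))))) (.br (nat_lit 14) (.ch (nat_lit 12) (.ev (nat_lit 624) (nat_lit 603979776)
 (.ev (nat_lit 1076) (nat_lit 1125899906842624) (.ev (nat_lit 1524) (nat_lit 36893488147419103232) (.ev
 (nat_lit 1972) (nat_lit 4194304) (.ev (nat_lit 1981) (nat_lit 295147905179352825856) .dd)))))) (.br (nat_lit
 15) (.ch (nat_lit 14) (.ev (nat_lit 624) (nat_lit 332042519226682966016) (.ev (nat_lit 1700) (nat_lit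
 536870912) (.ev (nat_lit 1709) (nat_lit 67108864) .dd)))) (.ch (nat_lit 15) (.ev (nat_lit 624) (nat_lit
 332042519226745880576) (.ev (nat_lit 2004) (nat_lit 4194304) (.ev (nat_lit 2013) (nat_lit 536870912)
 .dd))))))))))) (.br (nat_lit 16) (.ch (nat_lit 15) (.ev (nat_lit 192) (nat_lit 332041393326839042050) (.nd
 (nat_lit 848) (.br (nat_lit 7) (.br (nat_lit 4) (.br (nat_lit 3) (.ch (nat_lit 1) (.ev (nat_lit 864) (nat_lit
 1125900447907840) .dd)) (.ch (nat_lit 3) (.ev (nat_lit 864) (nat_lit 536870912) (.ev (nat_lit 3684) (nat_lit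
 4194304) (.ev (nat_lit 3693) (nat_lit 1125899906842624) .dd))))) (.br (nat_lit 6) (.ch (nat_lit 4) (.ev
 (nat_lit 2644) (nat_lit 1125899906842624) (.ev (nat_lit 3104) (nat_lit 541065216) .dd))) (.ch (nat_lit 6) (.ev
 (nat_lit 864) (nat_lit 1125900443713536) (.ev (nat_lit 877) (nat_lit 4194304) .dd))))) (.br (nat_lit 10) (.br
 (nat_lit 8) (.ch (nat_lit 7) (.ev (nat_lit 864) (nat_lit 1125899911036928) (.ev (nat_lit 877) (nat_lit
 536870912) .dd))) (.ch (nat_lit 8) (.ev (nat_lit 864) (nat_lit 1125899906842624) (.ev (nat_lit 2416) (nat_lit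
 536870912) (.ev (nat_lit 2429) (nat_lit 4194304) .dd))))) (.br (nat_lit 12) (.ch (nat_lit 10) (.ev (nat_lit
 864) (nat_lit 1125899906842624) (.ev (nat_lit 1824) (nat_lit 4194304) (.ev (nat_lit 1837) (nat_lit 536870912)
 .dd)))) (.br (nat_lit 16) (.ch (nat_lit 12) (.ev (nat_lit 864) (nat_lit 541065216) (.ev (nat_lit 877) (nat_lit
 1125899906842624) .dd))) (.ch (nat_lit 16) (.ev (nat_lit 864) (nat_lit 541065216) (.ev (nat_lit 877) (nat_lit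
 1125899906842624) .dd)))))))))) (.ch (nat_lit 16) (.ev (nat_lit 192) (nat_lit 332041393327312998402) (.nd
 (nat_lit 3376) (.br (nat_lit 13) (.ch (nat_lit 10) (.fin (nat_lit 576458003515392572))) (.br (nat_lit 14) (.ch
 (nat_lit 13) (.ev (nat_lit 3392) (nat_lit 1125899906842624) (.ev (nat_lit 3405) (nat_lit 67108864) .dd))) (.ch
 (nat_lit 14) (.ev (nat_lit 3392) (nat_lit 67108864) (.ev (nat_lit 3405) (nat_lit 1125899906842624)
 .dd)))))))))))))))) (.br (nat_lit 7) (.ch (nat_lit 3) (.ev (nat_lit 48) (nat_lit 447333544131687350306) (.nd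
 (nat_lit 208) (.br (nat_lit 6) (.br (nat_lit 4) (.br (nat_lit 3) (.ch (nat_lit 2) (.ev (nat_lit 224) (nat_lit
 36893488147419107328) (.nd (nat_lit 768) (.br (nat_lit 8) (.br (nat_lit 3) (.br (nat_lit 2) (.ch (nat_lit 1)
 (.ev (nat_lit 784) (nat_lit 37225065670050048) .dd)) (.ch (nat_lit 2) (.ev (nat_lit 784) (nat_lit
 1125899906908416) (.ev (nat_lit 2772) (nat_lit 36028797018963968) (.ev (nat_lit 2781) (nat_lit 70368744177664)
 .dd))))) (.br (nat_lit 4) (.ch (nat_lit 3) (.ev (nat_lit 784) (nat_lit 1125899906908416) (.ev (nat_lit 2228)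
 (nat_lit 70368744177664) (.ev (nat_lit 2237) (nat_lit 36028797018963968) .dd)))) (.ch (nat_lit 4) (.ev
 (nat_lit 784) (nat_lit 1196268651085824) (.ev (nat_lit 1844) (nat_lit 36028797018963968) (.ev (nat_lit 1853)
 (nat_lit 256) .dd)))))) (.br (nat_lit 13) (.br (nat_lit 9) (.ch (nat_lit 8) (.ev (nat_lit 784) (nat_lit
 36099165763207424) (.ev (nat_lit 797) (nat_lit 1125899906842624) .dd))) (.ch (nat_lit 9) (.ev (nat_lit 784)
 (nat_lit 36099165763141632) (.ev (nat_lit 1012) (nat_lit 65536) (.ev (nat_lit 2468) (nat_lit 1125899906842624)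
 (.ev (nat_lit 2477) (nat_lit 256) .dd)))))) (.br (nat_lit 15) (.ch (nat_lit 13) (.ev (nat_lit 784) (nat_lit
 36099165763207168) (.ev (nat_lit 1860) (nat_lit 1125899906842624) (.ev (nat_lit 1869) (nat_lit 256) .dd))))
 (.ch (nat_lit 15) (.ev (nat_lit 784) (nat_lit 36099165763141632) (.ev (nat_lit 1396) (nat_lit
 1125899906842624) (.ev (nat_lit 2004) (nat_lit 256) (.ev (nat_lit 2013) (nat_lit 65536) .dd))))))))))) (.ch
 (nat_lit 3) (.ev (nat_lit 224) (nat_lit 36894684416070127872) (.ev (nat_lit 2176) (nat_lit 65536) (.ev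
 (nat_lit 2189) (nat_lit 36028797018963968) .dd))))) (.br (nat_lit 5) (.ch (nat_lit 4) (.ev (nat_lit 224)
 (nat_lit 36894684416070127616) (.nd (nat_lit 960) (.br (nat_lit 8) (.br (nat_lit 2) (.ch (nat_lit 0) (.ev
 (nat_lit 976) (nat_lit 65536) (.ev (nat_lit 2736) (nat_lit 36028797018964224) .dd))) (.br (nat_lit 5) (.ch
 (nat_lit 2) (.ev (nat_lit 976) (nat_lit 36028797019029760) .dd)) (.ch (nat_lit 5) (.ev (nat_lit 976) (nat_lit
 36028797018964224) (.ev (nat_lit 989) (nat_lit 65536) .dd))))) (.br (nat_lit 15) (.ch (nat_lit 8) (.ev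
 (nat_lit 976) (nat_lit 36028797019029504) (.ev (nat_lit 989) (nat_lit 256) .dd))) (.br (nat_lit 16) (.ch
 (nat_lit 15) (.ev (nat_lit 976) (nat_lit 65536) (.ev (nat_lit 1812) (nat_lit 256) (.ev (nat_lit 1821) (nat_lit
 36028797018963968) .dd)))) (.ch (nat_lit 16) (.ev (nat_lit 2164) (nat_lit 65536) (.ev (nat_lit 2308) (nat_lit
 36028797018963968) (.ev (nat_lit 2317) (nat_lit 256) .dd)))))))))) (.ch (nat_lit 5) (.ev (nat_lit 224)
 (nat_lit 37225065670054144) (.ev (nat_lit 237) (nat_lit 36893488147419103232) .dd))))) (.br (nat_lit 12) (.br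
 (nat_lit 7) (.ch (nat_lit 6) (.ev (nat_lit 224) (nat_lit 36099165763211264) (.nd (nat_lit 656) (.br (nat_lit
 8) (.br (nat_lit 6) (.br (nat_lit 3) (.ch (nat_lit 0) (.ev (nat_lit 672) (nat_lit 36894614047325945856) (.ev
 (nat_lit 685) (nat_lit 256) .dd))) (.ch (nat_lit 3) (.ev (nat_lit 2416) (nat_lit 256) (.nd (nat_lit 4416) (.br
 (nat_lit 3) (.ch (nat_lit 1) (.fin (nat_lit 576461302015673008))) (.ch (nat_lit 3) (.ev (nat_lit 4432)
 (nat_lit 36894614047325945856) .dd))))))) (.br (nat_lit 7) (.ch (nat_lit 6) (.ev (nat_lit 672) (nat_lit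
 1125899906842880) (.ev (nat_lit 685) (nat_lit 36893488147419103232) .dd))) (.ch (nat_lit 7) (.ev (nat_lit 672)
 (nat_lit 256) (.ev (nat_lit 884) (nat_lit 1125899906842624) (.ev (nat_lit 893) (nat_lit 36893488147419103232)
 .dd)))))) (.br (nat_lit 12) (.br (nat_lit 10) (.ch (nat_lit 8) (.ev (nat_lit 672) (nat_lit
 36894614047325946112) .dd)) (.ch (nat_lit 10) (.ev (nat_lit 672) (nat_lit 256) (.ev (nat_lit 932) (nat_lit
 1125899906842624) (.ev (nat_lit 941) (nat_lit 36893488147419103232) .dd))))) (.br (nat_lit 13) (.ch (nat_lit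
 12) (.ev (nat_lit 672) (nat_lit 36894614047325945856) (.ev (nat_lit 685) (nat_lit 256) .dd))) (.br (nat_lit
 14) (.ch (nat_lit 13) (.ev (nat_lit 672) (nat_lit 36893488147419103232) (.ev (nat_lit 2404) (nat_lit
 1125899906842624) (.ev (nat_lit 2413) (nat_lit 256) .dd)))) (.ch (nat_lit 14) (.ev (nat_lit 672) (nat_lit
 1125899906842880) (.ev (nat_lit 685) (nat_lit 36893488147419103232) .dd)))))))))) (.ch (nat_lit 7) (.ev
 (nat_lit 224) (nat_lit 36028797019029504) (.nd (nat_lit 608) (.br (nat_lit 8) (.br (nat_lit 3) (.br (nat_lit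
 2) (.ch (nat_lit 0) (.ev (nat_lit 624) (nat_lit 36893488147419107328) (.ev (nat_lit 804) (nat_lit 256) (.ev
 (nat_lit 2240) (nat_lit 1125899906842624) (.ev (nat_lit 2253) (nat_lit 70368744177664) .dd))))) (.ch (nat_lit
 2) (.ev (nat_lit 624) (nat_lit 1125899906846976) (.ev (nat_lit 1216) (nat_lit 36893558516163280896) .dd))))
 (.br (nat_lit 4) (.ch (nat_lit 3) (.ev (nat_lit 624) (nat_lit 36894614047325950208) (.ev (nat_lit 637)
 (nat_lit 70368744177664) .dd))) (.ch (nat_lit 4) (.ev (nat_lit 624) (nat_lit 36893558516163284992) (.ev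
 (nat_lit 1412) (nat_lit 1125899906842624) (.ev (nat_lit 1421) (nat_lit 256) .dd)))))) (.br (nat_lit 13) (.br
 (nat_lit 12) (.ch (nat_lit 8) (.ev (nat_lit 624) (nat_lit 1196268651024384) (.ev (nat_lit 804) (nat_lit 256)
 (.ev (nat_lit 813) (nat_lit 36893488147419103232) .dd)))) (.ch (nat_lit 12) (.ev (nat_lit 624) (nat_lit
 36893558516163285248) (.ev (nat_lit 637) (nat_lit 1125899906842624) .dd)))) (.br (nat_lit 14) (.ch (nat_lit
 13) (.ev (nat_lit 624) (nat_lit 1196268651020544) (.ev (nat_lit 884) (nat_lit 4096) (.ev (nat_lit 893)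
 (nat_lit 36893488147419103232) .dd)))) (.br (nat_lit 16) (.ch (nat_lit 14) (.ev (nat_lit 624) (nat_lit
 1196268651020544) (.ev (nat_lit 1572) (nat_lit 4096) (.ev (nat_lit 1581) (nat_lit 36893488147419103232)
 .dd)))) (.ch (nat_lit 16) (.ev (nat_lit 624) (nat_lit 36894684416070123520) (.ev (nat_lit 2724) (nat_lit 256)
 (.ev (nat_lit 2733) (nat_lit 4096) .dd)))))))))))) (.br (nat_lit 14) (.ch (nat_lit 12) (.ev (nat_lit 224)
 (nat_lit 36099165763211520) (.nd (nat_lit 2944) (.br (nat_lit 10) (.br (nat_lit 3) (.ch (nat_lit 1) (.ev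
 (nat_lit 2960) (nat_lit 36893488147419103232) (.ev (nat_lit 2973) (nat_lit 1125899906842624) .dd))) (.ch
 (nat_lit 3) (.ev (nat_lit 2960) (nat_lit 1125899906842624) (.ev (nat_lit 2973) (nat_lit 36893488147419103232)
 .dd)))) (.br (nat_lit 12) (.ch (nat_lit 10) (.ev (nat_lit 2960) (nat_lit 36894614047325945856) .dd)) (.ch
 (nat_lit 12) (.ev (nat_lit 3060) (nat_lit 36893488147419103232) (.ev (nat_lit 3069) (nat_lit 1125899906842624)
 .dd)))))))) (.br (nat_lit 15) (.ch (nat_lit 14) (.ev (nat_lit 224) (nat_lit 36929587313182310656) (.ev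
 (nat_lit 1780) (nat_lit 4096) (.ev (nat_lit 1789) (nat_lit 1125899906842624) .dd)))) (.ch (nat_lit 15) (.ev
 (nat_lit 224) (nat_lit 36930642844344975360) (.nd (nat_lit 704) (.br (nat_lit 9) (.br (nat_lit 3) (.br
 (nat_lit 2) (.ch (nat_lit 0) (.ev (nat_lit 720) (nat_lit 256) (.fin (nat_lit 576461302059713057)))) (.ch
 (nat_lit 2) (.ev (nat_lit 720) (nat_lit 70368744177920) (.ev (nat_lit 733) (nat_lit 4096) .dd)))) (.br
 (nat_lit 4) (.ch (nat_lit 3) (.ev (nat_lit 720) (nat_lit 70368744177664) (.ev (nat_lit 1424) (nat_lit 4096)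
 (.ev (nat_lit 1437) (nat_lit 256) .dd)))) (.ch (nat_lit 4) (.ev (nat_lit 720) (nat_lit 4096) (.ev (nat_lit
 1552) (nat_lit 256) (.ev (nat_lit 1565) (nat_lit 70368744177664) .dd)))))) (.br (nat_lit 12) (.br (nat_lit 11)
 (.ch (nat_lit 9) (.ev (nat_lit 720) (nat_lit 4096) (.ev (nat_lit 992) (nat_lit 70368744177664) (.ev (nat_lit
 1005) (nat_lit 256) .dd)))) (.ch (nat_lit 11) (.ev (nat_lit 720) (nat_lit 70368744181760) (.ev (nat_lit 733)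
 (nat_lit 256) .dd)))) (.br (nat_lit 16) (.ch (nat_lit 12) (.ev (nat_lit 720) (nat_lit 70368744177920) (.ev
 (nat_lit 733) (nat_lit 4096) .dd))) (.ch (nat_lit 16) (.ev (nat_lit 720) (nat_lit 70368744181760) (.ev
 (nat_lit 733) (nat_lit 256) .dd)))))))))))))))) (.ch (nat_lit 7) (.ev (nat_lit 48) (nat_lit
 336654275682582401280) (.nd (nat_lit 96) (.br (nat_lit 8) (.br (nat_lit 5) (.br (nat_lit 3) (.ch (nat_lit 2)
 (.ev (nat_lit 112) (nat_lit 147609981662126997506) (.nd (nat_lit 3376) (.br (nat_lit 11) (.ch (nat_lit 4) (.ev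
 (nat_lit 3392) (nat_lit 67108896) .dd)) (.ch (nat_lit 11) (.ev (nat_lit 3476) (nat_lit 32) (.ev (nat_lit 3485)
 (nat_lit 67108864) .dd))))))) (.ch (nat_lit 3) (.ev (nat_lit 112) (nat_lit 147573952864638271488) (.nd
 (nat_lit 704) (.br (nat_lit 8) (.br (nat_lit 4) (.br (nat_lit 2) (.ch (nat_lit 1) (.ev (nat_lit 720) (nat_lit
 36028797018964002) (.ev (nat_lit 733) (nat_lit 536870912) .dd))) (.ch (nat_lit 2) (.ev (nat_lit 720) (nat_lit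
 36028797555834914) .dd))) (.br (nat_lit 6) (.ch (nat_lit 4) (.ev (nat_lit 720) (nat_lit 36028797555834880)
 (.ev (nat_lit 1348) (nat_lit 32) (.ev (nat_lit 1357) (nat_lit 2) .dd)))) (.ch (nat_lit 6) (.ev (nat_lit 720)
 (nat_lit 2) (.ev (nat_lit 2164) (nat_lit 32) (.ev (nat_lit 2308) (nat_lit 536870912) (.ev (nat_lit 2317)
 (nat_lit 36028797018963968) .dd))))))) (.br (nat_lit 12) (.br (nat_lit 9) (.ch (nat_lit 8) (.ev (nat_lit 720)
 (nat_lit 36028797018964000) (.ev (nat_lit 992) (nat_lit 536870912) (.ev (nat_lit 1005) (nat_lit 2) .dd))))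
 (.ch (nat_lit 9) (.ev (nat_lit 720) (nat_lit 536870946) (.ev (nat_lit 733) (nat_lit 36028797018963968) .dd))))
 (.br (nat_lit 16) (.ch (nat_lit 12) (.ev (nat_lit 720) (nat_lit 536870944) (.fin (nat_lit
 576461302072295984)))) (.ch (nat_lit 16) (.ev (nat_lit 720) (nat_lit 36028797555834882) (.ev (nat_lit 733)
 (nat_lit 32) .dd)))))))))) (.br (nat_lit 6) (.ch (nat_lit 5) (.ev (nat_lit 112) (nat_lit
 147609981662126997538) (.ev (nat_lit 125) (nat_lit 67108864) .dd))) (.ch (nat_lit 6) (.ev (nat_lit 112)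
 (nat_lit 147609981662194040866) (.ev (nat_lit 125) (nat_lit 65536) .dd))))) (.br (nat_lit 12) (.br (nat_lit
 10) (.ch (nat_lit 8) (.ev (nat_lit 112) (nat_lit 147609981386779263010) (.ev (nat_lit 596) (nat_lit 536870912)
 (.ev (nat_lit 2800) (nat_lit 274877906944) (.ev (nat_lit 2813) (nat_lit 65536) .dd))))) (.ch (nat_lit 10) (.ev
 (nat_lit 112) (nat_lit 36029071896936482) (.nd (nat_lit 848) (.br (nat_lit 7) (.br (nat_lit 5) (.br (nat_lit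
 2) (.ch (nat_lit 0) (.ev (nat_lit 864) (nat_lit 620756992) (.ev (nat_lit 877) (nat_lit 147573952589676412928)
 .dd))) (.ch (nat_lit 2) (.ev (nat_lit 864) (nat_lit 147573952590297169920) .dd))) (.br (nat_lit 6) (.ch
 (nat_lit 5) (.ev (nat_lit 864) (nat_lit 16777216) (.ev (nat_lit 2164) (nat_lit 536870912) (.ev (nat_lit 2772)
 (nat_lit 67108864) (.ev (nat_lit 2781) (nat_lit 147573952589676412928) .dd))))) (.ch (nat_lit 6) (.ev (nat_lit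
 864) (nat_lit 536870912) (.ev (nat_lit 1760) (nat_lit 147573952589676412928) (.ev (nat_lit 2340) (nat_lit
 67108864) (.ev (nat_lit 2349) (nat_lit 16777216) .dd))))))) (.br (nat_lit 9) (.br (nat_lit 8) (.ch (nat_lit 7)
 (.ev (nat_lit 864) (nat_lit 147573952590213283840) (.ev (nat_lit 2592) (nat_lit 16777216) (.ev (nat_lit 2605)
 (nat_lit 67108864) .dd)))) (.ch (nat_lit 8) (.ev (nat_lit 864) (nat_lit 147573952589743521792) (.ev (nat_lit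
 1216) (nat_lit 553648128) .dd)))) (.br (nat_lit 12) (.ch (nat_lit 9) (.ev (nat_lit 864) (nat_lit
 147573952590280392704) (.ev (nat_lit 877) (nat_lit 16777216) .dd))) (.br (nat_lit 14) (.ch (nat_lit 12) (.ev
 (nat_lit 864) (nat_lit 147573952590297169920) .dd)) (.ch (nat_lit 14) (.ev (nat_lit 864) (nat_lit 83886080)
 (.ev (nat_lit 2404) (nat_lit 536870912) (.ev (nat_lit 2413) (nat_lit 147573952589676412928) .dd))))))))))))
 (.br (nat_lit 13) (.ch (nat_lit 12) (.ev (nat_lit 112) (nat_lit 147573952590280458240) (.nd (nat_lit 656) (.br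
 (nat_lit 8) (.br (nat_lit 4) (.br (nat_lit 3) (.ch (nat_lit 1) (.ev (nat_lit 672) (nat_lit 16777218) (.ev
 (nat_lit 1348) (nat_lit 32) (.ev (nat_lit 2240) (nat_lit 274877906944) (.ev (nat_lit 2253) (nat_lit
 36028797018963968) .dd))))) (.ch (nat_lit 3) (.ev (nat_lit 672) (nat_lit 274877906978) (.ev (nat_lit 2580)
 (nat_lit 36028797018963968) (.ev (nat_lit 2589) (nat_lit 16777216) .dd))))) (.br (nat_lit 5) (.ch (nat_lit 4)
 (.ev (nat_lit 672) (nat_lit 274894684162) (.ev (nat_lit 2580) (nat_lit 32) (.ev (nat_lit 2589) (nat_lit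
 36028797018963968) .dd)))) (.ch (nat_lit 5) (.ev (nat_lit 672) (nat_lit 36029071913648160) (.ev (nat_lit 685)
 (nat_lit 2) .dd))))) (.br (nat_lit 14) (.br (nat_lit 10) (.ch (nat_lit 8) (.ev (nat_lit 672) (nat_lit
 36029071896870946) (.ev (nat_lit 685) (nat_lit 16777216) .dd))) (.ch (nat_lit 10) (.ev (nat_lit 672) (nat_lit
 36029071913648160) (.ev (nat_lit 685) (nat_lit 2) .dd)))) (.br (nat_lit 15) (.ch (nat_lit 14) (.ev (nat_lit
 672) (nat_lit 32) (.ev (nat_lit 2404) (nat_lit 36028797018963968) (.ev (nat_lit 2580) (nat_lit 2) (.ev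
 (nat_lit 2672) (nat_lit 16777216) (.ev (nat_lit 2685) (nat_lit 274877906944) .dd)))))) (.br (nat_lit 16) (.ch
 (nat_lit 15) (.ev (nat_lit 672) (nat_lit 36029071896870912) (.ev (nat_lit 2628) (nat_lit 32) (.ev (nat_lit
 2724) (nat_lit 2) (.ev (nat_lit 2733) (nat_lit 16777216) .dd))))) (.ch (nat_lit 16) (.ev (nat_lit 672)
 (nat_lit 36028797035741218) (.ev (nat_lit 685) (nat_lit 274877906944) .dd)))))))))) (.br (nat_lit 16) (.ch
 (nat_lit 13) (.ev (nat_lit 112) (nat_lit 36029072500850690) (.nd (nat_lit 704) (.br (nat_lit 8) (.br (nat_lit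
 5) (.br (nat_lit 4) (.ch (nat_lit 3) (.ev (nat_lit 720) (nat_lit 65536) (.ev (nat_lit 884) (nat_lit 32) (.ev
 (nat_lit 1012) (nat_lit 147573952589676412928) (.ev (nat_lit 1021) (nat_lit 16777216) .dd))))) (.ch (nat_lit
 4) (.ev (nat_lit 720) (nat_lit 147573952589676412960) (.ev (nat_lit 1456) (nat_lit 16777216) (.ev (nat_lit
 1469) (nat_lit 65536) .dd))))) (.br (nat_lit 7) (.ch (nat_lit 5) (.ev (nat_lit 720) (nat_lit 16777248) (.ev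
 (nat_lit 1524) (nat_lit 65536) (.ev (nat_lit 1533) (nat_lit 147573952589676412928) .dd)))) (.ch (nat_lit 7)
 (.ev (nat_lit 720) (nat_lit 147573952589693190176) (.ev (nat_lit 733) (nat_lit 65536) .dd))))) (.br (nat_lit
 11) (.br (nat_lit 10) (.ch (nat_lit 8) (.ev (nat_lit 720) (nat_lit 147573952589676478496) (.ev (nat_lit 733)
 (nat_lit 16777216) .dd))) (.ch (nat_lit 10) (.ev (nat_lit 720) (nat_lit 16842752) (.ev (nat_lit 884) (nat_lit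
 32) (.ev (nat_lit 893) (nat_lit 147573952589676412928) .dd))))) (.br (nat_lit 12) (.ch (nat_lit 11) (.ev
 (nat_lit 720) (nat_lit 65536) (.ev (nat_lit 804) (nat_lit 16777216) (.ev (nat_lit 1012) (nat_lit
 147573952589676412928) (.ev (nat_lit 1021) (nat_lit 32) .dd))))) (.br (nat_lit 16) (.ch (nat_lit 12) (.ev
 (nat_lit 720) (nat_lit 147573952589693255680) (.ev (nat_lit 733) (nat_lit 32) .dd))) (.ch (nat_lit 16) (.ev
 (nat_lit 720) (nat_lit 147573952589676478464) (.ev (nat_lit 1732) (nat_lit 32) (.ev (nat_lit 1741) (nat_lit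
 16777216) .dd))))))))))) (.ch (nat_lit 16) (.ev (nat_lit 112) (nat_lit 536936480) (.ev (nat_lit 596) (nat_lit
 83886080) (.nd (nat_lit 768) (.br (nat_lit 12) (.br (nat_lit 4) (.br (nat_lit 2) (.ch (nat_lit 1) (.ev
 (nat_lit 784) (nat_lit 274877906946) (.ev (nat_lit 804) (nat_lit 36028797018963968) (.ev (nat_lit 813)
 (nat_lit 147573952589676412928) .dd)))) (.ch (nat_lit 2) (.ev (nat_lit 784) (nat_lit 147609981386695376898)
 (.ev (nat_lit 797) (nat_lit 274877906944) .dd)))) (.br (nat_lit 7) (.ch (nat_lit 4) (.ev (nat_lit 784)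
 (nat_lit 36029071896870912) (.ev (nat_lit 1172) (nat_lit 2) (.ev (nat_lit 1181) (nat_lit
 147573952589676412928) .dd)))) (.ch (nat_lit 7) (.ev (nat_lit 784) (nat_lit 2) (.ev (nat_lit 3284) (nat_lit
 147573952589676412928) (.nd (nat_lit 4752) (.br (nat_lit 7) (.ch (nat_lit 2) (.fin (nat_lit
 576442610346312253))) (.ch (nat_lit 7) (.ev (nat_lit 4768) (nat_lit 36028797018963968) (.ev (nat_lit 4781)
 (nat_lit 274877906944) .dd)))))))))) (.br (nat_lit 14) (.br (nat_lit 13) (.ch (nat_lit 12) (.ev (nat_lit 784)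
 (nat_lit 147573952864554319874) (.ev (nat_lit 797) (nat_lit 36028797018963968) .dd))) (.ch (nat_lit 13) (.ev
 (nat_lit 784) (nat_lit 147609981661573283840) (.ev (nat_lit 797) (nat_lit 2) .dd)))) (.br (nat_lit 15) (.ch
 (nat_lit 14) (.ev (nat_lit 784) (nat_lit 147609981386695376896) (.ev (nat_lit 1172) (nat_lit 2) (.ev (nat_lit
 1181) (nat_lit 274877906944) .dd)))) (.br (nat_lit 16) (.ch (nat_lit 15) (.ev (nat_lit 784) (nat_lit
 147609981661573283842) .dd)) (.ch (nat_lit 16) (.ev (nat_lit 784) (nat_lit 147573952864554319872) (.ev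
 (nat_lit 836) (nat_lit 36028797018963968) (.ev (nat_lit 845) (nat_lit 2) .dd))))))))))))))))))))) (.br
 (nat_lit 14) (.br (nat_lit 13) (.ch (nat_lit 12) (.ev (nat_lit 48) (nat_lit 189116352165398511906) (.nd
 (nat_lit 608) (.br (nat_lit 9) (.br (nat_lit 7) (.br (nat_lit 3) (.ch (nat_lit 1) (.ev (nat_lit 624) (nat_lit
 295147905179377995776) .dd)) (.ch (nat_lit 3) (.ev (nat_lit 624) (nat_lit 295147905179377995776) .dd))) (.br
 (nat_lit 8) (.ch (nat_lit 7) (.nd (nat_lit 1136) (.br (nat_lit 8) (.br (nat_lit 4) (.br (nat_lit 1) (.ch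
 (nat_lit 0) (.ev (nat_lit 1152) (nat_lit 295147905179361218560) (.ev (nat_lit 1165) (nat_lit 16777216) .dd)))
 (.ch (nat_lit 1) (.ev (nat_lit 1152) (nat_lit 295147905179369607168) (.ev (nat_lit 1165) (nat_lit 8388608)
 .dd)))) (.br (nat_lit 7) (.ch (nat_lit 4) (.ev (nat_lit 1152) (nat_lit 295147905179377995776) .dd)) (.ch
 (nat_lit 7) (.ev (nat_lit 1152) (nat_lit 295147905179352825856) (.ev (nat_lit 2164) (nat_lit 25165824) (.ev
 (nat_lit 2173) (nat_lit 4096) .dd)))))) (.br (nat_lit 11) (.br (nat_lit 10) (.ch (nat_lit 8) (.ev (nat_lit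
 1152) (nat_lit 25165824) (.ev (nat_lit 1488) (nat_lit 295147905179352825856) (.ev (nat_lit 1501) (nat_lit
 4096) .dd)))) (.ch (nat_lit 10) (.ev (nat_lit 1152) (nat_lit 295147905179369607168) (.ev (nat_lit 1165)
 (nat_lit 8388608) .dd)))) (.br (nat_lit 15) (.ch (nat_lit 11) (.ev (nat_lit 1152) (nat_lit
 295147905179361218560) (.ev (nat_lit 1165) (nat_lit 16777216) .dd))) (.br (nat_lit 16) (.ch (nat_lit 15) (.ev
 (nat_lit 1152) (nat_lit 25165824) (.ev (nat_lit 2176) (nat_lit 4096) (.ev (nat_lit 2189) (nat_lit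
 295147905179352825856) .dd)))) (.ch (nat_lit 16) (.ev (nat_lit 1152) (nat_lit 295147905179361214464) (.ev
 (nat_lit 2164) (nat_lit 16777216) (.ev (nat_lit 2173) (nat_lit 4096) .dd)))))))))) (.ch (nat_lit 8) (.ev
 (nat_lit 624) (nat_lit 8392704) (.nd (nat_lit 1888) (.br (nat_lit 11) (.br (nat_lit 8) (.ch (nat_lit 0) (.ev
 (nat_lit 1904) (nat_lit 295147905179352825856) (.ev (nat_lit 1917) (nat_lit 16777216) .dd))) (.br (nat_lit 9)
 (.ch (nat_lit 8) (.ev (nat_lit 1904) (nat_lit 295147905179352825856) (.ev (nat_lit 1917) (nat_lit 16777216)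
 .dd))) (.ch (nat_lit 9) (.ev (nat_lit 1904) (nat_lit 295147905179369603072) .dd)))) (.br (nat_lit 12) (.ch
 (nat_lit 11) (.ev (nat_lit 1904) (nat_lit 295147905179369603072) .dd)) (.br (nat_lit 16) (.ch (nat_lit 12)
 (.ev (nat_lit 1904) (nat_lit 295147905179369603072) .dd)) (.ch (nat_lit 16) (.ev (nat_lit 1940) (nat_lit
 295147905179352825856) (.ev (nat_lit 1949) (nat_lit 16777216) .dd))))))))))) (.br (nat_lit 13) (.br (nat_lit
 11) (.ch (nat_lit 9) (.ev (nat_lit 624) (nat_lit 295147905179352825856) (.ev (nat_lit 2852) (nat_lit 4096)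
 (.ev (nat_lit 3312) (nat_lit 8388608) (.ev (nat_lit 3325) (nat_lit 16777216) .dd))))) (.ch (nat_lit 11) (.ev
 (nat_lit 624) (nat_lit 295147905179377991680) (.ev (nat_lit 637) (nat_lit 4096) .dd)))) (.br (nat_lit 15) (.ch
 (nat_lit 13) (.ev (nat_lit 624) (nat_lit 295147905179369607168) (.ev (nat_lit 637) (nat_lit 8388608) .dd)))
 (.br (nat_lit 16) (.ch (nat_lit 15) (.ev (nat_lit 624) (nat_lit 295147905179377995776) .dd)) (.ch (nat_lit 16)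
 (.ev (nat_lit 624) (nat_lit 16781312) (.ev (nat_lit 2192) (nat_lit 295147905179352825856) (.ev (nat_lit 2205)
 (nat_lit 8388608) .dd))))))))))) (.ch (nat_lit 13) (.ev (nat_lit 48) (nat_lit 484263061076029018112) (.nd
 (nat_lit 320) (.br (nat_lit 7) (.br (nat_lit 5) (.br (nat_lit 4) (.ch (nat_lit 1) (.ev (nat_lit 336) (nat_lit
 96469026) (.nd (nat_lit 1136) (.br (nat_lit 9) (.br (nat_lit 5) (.br (nat_lit 2) (.ch (nat_lit 1) (.ev
 (nat_lit 1152) (nat_lit 1196268651020288) (.ev (nat_lit 1165) (nat_lit 256) .dd))) (.ch (nat_lit 2) (.ev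
 (nat_lit 1152) (nat_lit 1125899906842880) (.ev (nat_lit 1165) (nat_lit 70368744177664) .dd)))) (.br (nat_lit
 8) (.ch (nat_lit 5) (.ev (nat_lit 1152) (nat_lit 70368744177664) (.ev (nat_lit 1572) (nat_lit 256) (.ev
 (nat_lit 1581) (nat_lit 1125899906842624) .dd)))) (.ch (nat_lit 8) (.ev (nat_lit 1152) (nat_lit
 1125899906842880) (.ev (nat_lit 1165) (nat_lit 70368744177664) .dd))))) (.br (nat_lit 13) (.br (nat_lit 11)
 (.ch (nat_lit 9) (.ev (nat_lit 1152) (nat_lit 70368744177664) (.ev (nat_lit 2468) (nat_lit 256) (.ev (nat_lit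
 2477) (nat_lit 1125899906842624) .dd)))) (.ch (nat_lit 11) (.ev (nat_lit 1152) (nat_lit 70368744177920) (.ev
 (nat_lit 1165) (nat_lit 1125899906842624) .dd)))) (.br (nat_lit 15) (.ch (nat_lit 13) (.ev (nat_lit 1152)
 (nat_lit 1196268651020544) .dd)) (.br (nat_lit 16) (.ch (nat_lit 15) (.ev (nat_lit 1152) (nat_lit 256) (.ev
 (nat_lit 1172) (nat_lit 70368744177664) (.ev (nat_lit 1181) (nat_lit 1125899906842624) .dd)))) (.ch (nat_lit
 16) (.ev (nat_lit 1152) (nat_lit 1125899906842880) (.ev (nat_lit 1165) (nat_lit 70368744177664) .dd))))))))))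
 (.ch (nat_lit 4) (.ev (nat_lit 336) (nat_lit 1125899973951776) (.ev (nat_lit 420) (nat_lit 70368744177664)
 (.nd (nat_lit 768) (.br (nat_lit 10) (.br (nat_lit 3) (.br (nat_lit 2) (.ch (nat_lit 1) (.ev (nat_lit 784)
 (nat_lit 16777218) (.ev (nat_lit 1604) (nat_lit 8388608) (.ev (nat_lit 1613) (nat_lit 4194304) .dd)))) (.ch
 (nat_lit 2) (.ev (nat_lit 784) (nat_lit 8388608) (.ev (nat_lit 884) (nat_lit 4194304) (.ev (nat_lit 2580)
 (nat_lit 2) (.ev (nat_lit 2589) (nat_lit 16777216) .dd)))))) (.br (nat_lit 7) (.ch (nat_lit 3) (.ev (nat_lit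
 784) (nat_lit 16777216) (.ev (nat_lit 1028) (nat_lit 8388608) (.nd (nat_lit 4000) (.br (nat_lit 14) (.ch
 (nat_lit 5) (.ev (nat_lit 4016) (nat_lit 4194306) .dd)) (.ch (nat_lit 14) (.fin (nat_lit
 576479993741656654)))))))) (.ch (nat_lit 7) (.ev (nat_lit 784) (nat_lit 12582914) (.ev (nat_lit 797) (nat_lit
 16777216) .dd))))) (.br (nat_lit 14) (.br (nat_lit 11) (.ch (nat_lit 10) (.ev (nat_lit 784) (nat_lit 25165826)
 (.ev (nat_lit 797) (nat_lit 4194304) .dd))) (.ch (nat_lit 11) (.ev (nat_lit 784) (nat_lit 29360128) (.ev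
 (nat_lit 797) (nat_lit 2) .dd)))) (.br (nat_lit 15) (.ch (nat_lit 14) (.ev (nat_lit 784) (nat_lit 4194304)
 (.ev (nat_lit 804) (nat_lit 2) (.ev (nat_lit 820) (nat_lit 8388608) (.ev (nat_lit 829) (nat_lit 16777216)
 .dd))))) (.ch (nat_lit 15) (.ev (nat_lit 784) (nat_lit 29360130) .dd)))))))))) (.br (nat_lit 6) (.ch (nat_lit
 5) (.ev (nat_lit 336) (nat_lit 1196268659409184) (.nd (nat_lit 704) (.br (nat_lit 6) (.br (nat_lit 4) (.br
 (nat_lit 3) (.ch (nat_lit 1) (.ev (nat_lit 720) (nat_lit 88080384) (.ev (nat_lit 733) (nat_lit 2) .dd))) (.ch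
 (nat_lit 3) (.ev (nat_lit 720) (nat_lit 16777216) (.ev (nat_lit 804) (nat_lit 4194304) (.ev (nat_lit 1012)
 (nat_lit 2) (.ev (nat_lit 1021) (nat_lit 67108864) .dd)))))) (.br (nat_lit 5) (.ch (nat_lit 4) (.ev (nat_lit
 720) (nat_lit 20971522) (.ev (nat_lit 733) (nat_lit 67108864) .dd))) (.ch (nat_lit 5) (.ev (nat_lit 720)
 (nat_lit 4194304) (.ev (nat_lit 1572) (nat_lit 67108864) (.ev (nat_lit 1744) (nat_lit 2) (.ev (nat_lit 1757)
 (nat_lit 16777216) .dd))))))) (.br (nat_lit 14) (.br (nat_lit 12) (.ch (nat_lit 6) (.ev (nat_lit 720) (nat_lit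
 67108866) (.ev (nat_lit 1972) (nat_lit 16777216) (.ev (nat_lit 1981) (nat_lit 4194304) .dd)))) (.ch (nat_lit
 12) (.ev (nat_lit 720) (nat_lit 16777218) (.ev (nat_lit 2628) (nat_lit 4194304) (.ev (nat_lit 2637) (nat_lit
 67108864) .dd))))) (.br (nat_lit 15) (.ch (nat_lit 14) (.ev (nat_lit 720) (nat_lit 67108866) (.ev (nat_lit
 1780) (nat_lit 4194304) (.ev (nat_lit 1789) (nat_lit 16777216) .dd)))) (.ch (nat_lit 15) (.ev (nat_lit 720)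
 (nat_lit 83886082) (.ev (nat_lit 733) (nat_lit 4194304) .dd))))))))) (.ch (nat_lit 6) (.ev (nat_lit 336)
 (nat_lit 1125899915231234) (.nd (nat_lit 656) (.br (nat_lit 7) (.br (nat_lit 4) (.br (nat_lit 2) (.ch (nat_lit
 0) (.ev (nat_lit 672) (nat_lit 70368815480864) (.ev (nat_lit 2048) (nat_lit 256) (.ev (nat_lit 2061) (nat_lit
 16777216) .dd)))) (.ch (nat_lit 2) (.ev (nat_lit 672) (nat_lit 20971520) (.ev (nat_lit 692) (nat_lit 256) (.ev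
 (nat_lit 1124) (nat_lit 67108864) (.ev (nat_lit 2340) (nat_lit 32) (.ev (nat_lit 2349) (nat_lit
 70368744177664) .dd))))))) (.br (nat_lit 5) (.ch (nat_lit 4) (.ev (nat_lit 672) (nat_lit 70368760954912) (.ev
 (nat_lit 740) (nat_lit 67108864) (.ev (nat_lit 884) (nat_lit 4194304) (.ev (nat_lit 893) (nat_lit 256)
 .dd))))) (.ch (nat_lit 5) (.ev (nat_lit 672) (nat_lit 70368744177920) (.ev (nat_lit 740) (nat_lit 67108864)
 (.ev (nat_lit 804) (nat_lit 32) (.ev (nat_lit 1172) (nat_lit 16777216) (.ev (nat_lit 1181) (nat_lit 4194304)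
 .dd)))))))) (.br (nat_lit 10) (.br (nat_lit 9) (.ch (nat_lit 7) (.ev (nat_lit 672) (nat_lit 83886080) (.ev
 (nat_lit 884) (nat_lit 4194304) (.ev (nat_lit 1812) (nat_lit 32) (.ev (nat_lit 2004) (nat_lit 70368744177664)
 (.ev (nat_lit 2013) (nat_lit 256) .dd)))))) (.ch (nat_lit 9) (.ev (nat_lit 672) (nat_lit 70368815481088) (.ev
 (nat_lit 2048) (nat_lit 32) (.ev (nat_lit 2061) (nat_lit 16777216) .dd))))) (.br (nat_lit 13) (.ch (nat_lit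
 10) (.ev (nat_lit 672) (nat_lit 70368765149472) (.ev (nat_lit 685) (nat_lit 67108864) .dd))) (.br (nat_lit 16)
 (.ch (nat_lit 13) (.ev (nat_lit 672) (nat_lit 16777504) (.ev (nat_lit 1236) (nat_lit 4194304) (.nd (nat_lit
 3904) (.br (nat_lit 5) (.ch (nat_lit 3) (.fin (nat_lit 576425018160267905))) (.ch (nat_lit 5) (.ev (nat_lit
 3920) (nat_lit 70368811286528) .dd))))))) (.ch (nat_lit 16) (.ev (nat_lit 672) (nat_lit 67109152) (.ev
 (nat_lit 740) (nat_lit 70368744177664) (.ev (nat_lit 884) (nat_lit 4194304) (.ev (nat_lit 893) (nat_lit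
 16777216) .dd)))))))))))))) (.br (nat_lit 11) (.br (nat_lit 8) (.ch (nat_lit 7) (.ev (nat_lit 336) (nat_lit
 25166114) (.nd (nat_lit 1136) (.br (nat_lit 8) (.br (nat_lit 5) (.br (nat_lit 2) (.ch (nat_lit 0) (.ev
 (nat_lit 1152) (nat_lit 1196268651020288) (.ev (nat_lit 1972) (nat_lit 4194304) (.ev (nat_lit 1981) (nat_lit
 67108864) .dd)))) (.ch (nat_lit 2) (.ev (nat_lit 1152) (nat_lit 71303168) (.ev (nat_lit 2580) (nat_lit
 70368744177664) (.ev (nat_lit 2589) (nat_lit 1125899906842624) .dd))))) (.br (nat_lit 6) (.ch (nat_lit 5) (.ev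
 (nat_lit 1152) (nat_lit 1125899911036928) (.ev (nat_lit 1812) (nat_lit 67108864) (.ev (nat_lit 1821) (nat_lit
 70368744177664) .dd)))) (.ch (nat_lit 6) (.ev (nat_lit 1152) (nat_lit 1196268655214592) (.ev (nat_lit 1165)
 (nat_lit 67108864) .dd))))) (.br (nat_lit 15) (.br (nat_lit 14) (.ch (nat_lit 8) (.ev (nat_lit 1152) (nat_lit
 1125899906842624) (.ev (nat_lit 1348) (nat_lit 70368744177664) (.ev (nat_lit 1940) (nat_lit 4194304) (.ev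
 (nat_lit 1949) (nat_lit 67108864) .dd))))) (.ch (nat_lit 14) (.ev (nat_lit 1152) (nat_lit 70368748371968) (.ev
 (nat_lit 2884) (nat_lit 1125899906842624) (.ev (nat_lit 2893) (nat_lit 67108864) .dd))))) (.br (nat_lit 16)
 (.ch (nat_lit 15) (.ev (nat_lit 1152) (nat_lit 1125899973951488) (.ev (nat_lit 1348) (nat_lit 70368744177664)
 (.ev (nat_lit 1357) (nat_lit 4194304) .dd)))) (.ch (nat_lit 16) (.ev (nat_lit 1152) (nat_lit 1196268718129152)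
 (.ev (nat_lit 1165) (nat_lit 4194304) .dd))))))))) (.ch (nat_lit 8) (.ev (nat_lit 336) (nat_lit
 1196268671992098) (.nd (nat_lit 960) (.br (nat_lit 8) (.br (nat_lit 4) (.br (nat_lit 1) (.ch (nat_lit 0) (.ev
 (nat_lit 2192) (nat_lit 67108864) (.ev (nat_lit 2205) (nat_lit 8388608) .dd))) (.ch (nat_lit 1) (.ev (nat_lit
 2308) (nat_lit 67108864) (.ev (nat_lit 2317) (nat_lit 8388608) .dd)))) (.br (nat_lit 5) (.ch (nat_lit 4) (.ev
 (nat_lit 976) (nat_lit 75497472) .dd)) (.ch (nat_lit 5) (.ev (nat_lit 976) (nat_lit 75497472) .dd)))) (.br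
 (nat_lit 12) (.br (nat_lit 9) (.ch (nat_lit 8) (.ev (nat_lit 976) (nat_lit 67108864) (.ev (nat_lit 989)
 (nat_lit 8388608) .dd))) (.ch (nat_lit 9) (.ev (nat_lit 976) (nat_lit 8388608) (.ev (nat_lit 989) (nat_lit
 67108864) .dd)))) (.br (nat_lit 16) (.ch (nat_lit 12) (.ev (nat_lit 976) (nat_lit 67108864) (.ev (nat_lit 989)
 (nat_lit 8388608) .dd))) (.ch (nat_lit 16) (.ev (nat_lit 976) (nat_lit 8388608) (.ev (nat_lit 989) (nat_lit
 67108864) .dd)))))))))) (.br (nat_lit 13) (.ch (nat_lit 11) (.ev (nat_lit 336) (nat_lit 88080642) (.nd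
 (nat_lit 1648) (.br (nat_lit 10) (.br (nat_lit 4) (.br (nat_lit 3) (.ch (nat_lit 1) (.ev (nat_lit 1664)
 (nat_lit 8388640) (.ev (nat_lit 2404) (nat_lit 1125899906842624) (.ev (nat_lit 2413) (nat_lit 70368744177664)
 .dd)))) (.ch (nat_lit 3) (.ev (nat_lit 1664) (nat_lit 1196268651020288) (.ev (nat_lit 1700) (nat_lit 8388608)
 (.ev (nat_lit 1709) (nat_lit 32) .dd))))) (.br (nat_lit 7) (.ch (nat_lit 4) (.ev (nat_lit 1664) (nat_lit
 1125899915231264) (.ev (nat_lit 1677) (nat_lit 70368744177664) .dd))) (.ch (nat_lit 7) (.ev (nat_lit 1664)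
 (nat_lit 1196268651020288) (.ev (nat_lit 1700) (nat_lit 8388608) (.ev (nat_lit 1709) (nat_lit 32) .dd))))))
 (.br (nat_lit 13) (.br (nat_lit 11) (.ch (nat_lit 10) (.ev (nat_lit 1664) (nat_lit 1196268659408928) .dd))
 (.ch (nat_lit 11) (.ev (nat_lit 1664) (nat_lit 1196268659408928) .dd))) (.br (nat_lit 14) (.ch (nat_lit 13)
 (.ev (nat_lit 1664) (nat_lit 1196268659408928) .dd)) (.br (nat_lit 16) (.ch (nat_lit 14) (.ev (nat_lit 1664)
 (nat_lit 1125899915231264) (.ev (nat_lit 1677) (nat_lit 70368744177664) .dd))) (.ch (nat_lit 16) (.ev (nat_lit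
 1664) (nat_lit 32) (.ev (nat_lit 1700) (nat_lit 1125899906842624) (.fin (nat_lit
 576462401573438030)))))))))))) (.br (nat_lit 16) (.ch (nat_lit 13) (.ev (nat_lit 336) (nat_lit
 1196268747489312) (.nd (nat_lit 1888) (.br (nat_lit 6) (.br (nat_lit 3) (.ch (nat_lit 1) (.ev (nat_lit 1904)
 (nat_lit 256) (.ev (nat_lit 1917) (nat_lit 2) .dd))) (.br (nat_lit 5) (.ch (nat_lit 3) (.ev (nat_lit 1940)
 (nat_lit 256) (.ev (nat_lit 1949) (nat_lit 2) .dd))) (.ch (nat_lit 5) (.ev (nat_lit 1904) (nat_lit 256) (.ev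
 (nat_lit 1917) (nat_lit 2) .dd))))) (.br (nat_lit 10) (.br (nat_lit 9) (.ch (nat_lit 6) (.ev (nat_lit 1904)
 (nat_lit 258) .dd)) (.ch (nat_lit 9) (.ev (nat_lit 1904) (nat_lit 258) .dd))) (.br (nat_lit 15) (.ch (nat_lit
 10) (.ev (nat_lit 1904) (nat_lit 2) (.ev (nat_lit 1917) (nat_lit 256) .dd))) (.ch (nat_lit 15) (.ev (nat_lit
 1940) (nat_lit 256) (.ev (nat_lit 1949) (nat_lit 2) .dd))))))))) (.ch (nat_lit 16) (.ev (nat_lit 336) (nat_lit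
 70368840646912) (.nd (nat_lit 1888) (.br (nat_lit 10) (.br (nat_lit 2) (.ch (nat_lit 0) (.ev (nat_lit 2496)
 (nat_lit 32) (.ev (nat_lit 2724) (nat_lit 2) (.ev (nat_lit 2733) (nat_lit 1125899906842624) .dd)))) (.br
 (nat_lit 5) (.ch (nat_lit 2) (.ev (nat_lit 1904) (nat_lit 1125899906842658) .dd)) (.ch (nat_lit 5) (.ev
 (nat_lit 1940) (nat_lit 2) (.ev (nat_lit 2852) (nat_lit 32) (.ev (nat_lit 2861) (nat_lit 1125899906842624)
 .dd)))))) (.br (nat_lit 14) (.br (nat_lit 11) (.ch (nat_lit 10) (.ev (nat_lit 1904) (nat_lit 1125899906842626)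
 (.ev (nat_lit 1917) (nat_lit 32) .dd))) (.ch (nat_lit 11) (.ev (nat_lit 1904) (nat_lit 32) (.ev (nat_lit 1940)
 (nat_lit 2) (.ev (nat_lit 1949) (nat_lit 1125899906842624) .dd))))) (.br (nat_lit 15) (.ch (nat_lit 14) (.ev
 (nat_lit 1904) (nat_lit 1125899906842658) .dd)) (.ch (nat_lit 15) (.ev (nat_lit 1904) (nat_lit
 1125899906842658) .dd)))))))))))))))) (.br (nat_lit 15) (.ch (nat_lit 14) (.ev (nat_lit 48) (nat_lit
 184503469809625796866) (.nd (nat_lit 384) (.br (nat_lit 8) (.br (nat_lit 4) (.br (nat_lit 3) (.ch (nat_lit 0)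
 (.ev (nat_lit 400) (nat_lit 4611756455891042304) (.nd (nat_lit 768) (.br (nat_lit 6) (.br (nat_lit 4) (.br
 (nat_lit 3) (.ch (nat_lit 2) (.ev (nat_lit 784) (nat_lit 1125899906842656) (.ev (nat_lit 797) (nat_lit
 295147905179352825856) .dd))) (.ch (nat_lit 3) (.ev (nat_lit 784) (nat_lit 295149031079259668512) .dd))) (.br
 (nat_lit 5) (.ch (nat_lit 4) (.ev (nat_lit 784) (nat_lit 32) (.fin (nat_lit 576405226903781965)))) (.ch
 (nat_lit 5) (.ev (nat_lit 784) (nat_lit 295149031079259668480) (.ev (nat_lit 797) (nat_lit 32) .dd))))) (.br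
 (nat_lit 11) (.br (nat_lit 9) (.ch (nat_lit 6) (.ev (nat_lit 784) (nat_lit 1125899906842656) (.ev (nat_lit
 797) (nat_lit 295147905179352825856) .dd))) (.ch (nat_lit 9) (.ev (nat_lit 1172) (nat_lit 32) (.ev (nat_lit
 2628) (nat_lit 1125899906842624) (.ev (nat_lit 2637) (nat_lit 295147905179352825856) .dd))))) (.br (nat_lit
 14) (.ch (nat_lit 11) (.ev (nat_lit 784) (nat_lit 1125899906842656) (.ev (nat_lit 797) (nat_lit
 295147905179352825856) .dd))) (.br (nat_lit 16) (.ch (nat_lit 14) (.ev (nat_lit 784) (nat_lit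
 295147905179352825856) (.ev (nat_lit 1172) (nat_lit 32) (.ev (nat_lit 1181) (nat_lit 1125899906842624) .dd))))
 (.ch (nat_lit 16) (.ev (nat_lit 784) (nat_lit 295149031079259668480) (.ev (nat_lit 797) (nat_lit 32)
 .dd)))))))))) (.ch (nat_lit 3) (.ev (nat_lit 400) (nat_lit 4612811987053707296) (.nd (nat_lit 1312) (.br
 (nat_lit 12) (.br (nat_lit 3) (.br (nat_lit 2) (.ch (nat_lit 1) (.ev (nat_lit 1328) (nat_lit 70368744177664)
 (.ev (nat_lit 1341) (nat_lit 295147905179352825856) .dd))) (.ch (nat_lit 2) (.ev (nat_lit 2128) (nat_lit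
 70368744177664) (.ev (nat_lit 2141) (nat_lit 295147905179352825856) .dd)))) (.br (nat_lit 7) (.ch (nat_lit 3)
 (.ev (nat_lit 1348) (nat_lit 70368744177664) (.ev (nat_lit 1357) (nat_lit 295147905179352825856) .dd))) (.ch
 (nat_lit 7) (.ev (nat_lit 1328) (nat_lit 295147975548097003520) .dd)))) (.br (nat_lit 14) (.br (nat_lit 13)
 (.ch (nat_lit 12) (.ev (nat_lit 1328) (nat_lit 295147905179352825856) (.ev (nat_lit 1341) (nat_lit
 70368744177664) .dd))) (.ch (nat_lit 13) (.ev (nat_lit 1328) (nat_lit 295147975548097003520) .dd))) (.br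
 (nat_lit 15) (.ch (nat_lit 14) (.ev (nat_lit 1328) (nat_lit 295147975548097003520) .dd)) (.br (nat_lit 16)
 (.ch (nat_lit 15) (.ev (nat_lit 1328) (nat_lit 295147975548097003520) .dd)) (.ch (nat_lit 16) (.ev (nat_lit
 1328) (nat_lit 70368744177664) (.ev (nat_lit 1341) (nat_lit 295147905179352825856) .dd))))))))))) (.br
 (nat_lit 7) (.ch (nat_lit 4) (.ev (nat_lit 400) (nat_lit 299759591266499690528) (.nd (nat_lit 848) (.br
 (nat_lit 10) (.br (nat_lit 5) (.br (nat_lit 2) (.ch (nat_lit 0) (.ev (nat_lit 864) (nat_lit 1196268651020288)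
 .dd)) (.ch (nat_lit 2) (.ev (nat_lit 1700) (nat_lit 1125899906842624) (.ev (nat_lit 1709) (nat_lit
 70368744177664) .dd)))) (.br (nat_lit 9) (.ch (nat_lit 5) (.ev (nat_lit 884) (nat_lit 70368744177664) (.ev
 (nat_lit 893) (nat_lit 1125899906842624) .dd))) (.ch (nat_lit 9) (.ev (nat_lit 864) (nat_lit 1196268651020288)
 .dd)))) (.br (nat_lit 15) (.br (nat_lit 14) (.ch (nat_lit 10) (.ev (nat_lit 1028) (nat_lit 70368744177664)
 (.ev (nat_lit 1037) (nat_lit 1125899906842624) .dd))) (.ch (nat_lit 14) (.ev (nat_lit 864) (nat_lit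
 70368744177664) (.ev (nat_lit 877) (nat_lit 1125899906842624) .dd)))) (.br (nat_lit 16) (.ch (nat_lit 15) (.ev
 (nat_lit 864) (nat_lit 1125899906842624) (.ev (nat_lit 877) (nat_lit 70368744177664) .dd))) (.ch (nat_lit 16)
 (.ev (nat_lit 864) (nat_lit 1125899906842624) (.ev (nat_lit 877) (nat_lit 70368744177664) .dd))))))))) (.ch
 (nat_lit 7) (.ev (nat_lit 400) (nat_lit 295147975548097003552) (.nd (nat_lit 1312) (.br (nat_lit 5) (.br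
 (nat_lit 1) (.ch (nat_lit 0) (.ev (nat_lit 1328) (nat_lit 1125968626319360) (.ev (nat_lit 1341) (nat_lit
 4611686018427387904) .dd))) (.br (nat_lit 2) (.ch (nat_lit 1) (.ev (nat_lit 1328) (nat_lit
 4612811918334230528) (.ev (nat_lit 1341) (nat_lit 68719476736) .dd))) (.ch (nat_lit 2) (.ev (nat_lit 1328)
 (nat_lit 4611686087146864640) (.ev (nat_lit 1341) (nat_lit 1125899906842624) .dd))))) (.br (nat_lit 10) (.br
 (nat_lit 7) (.ch (nat_lit 5) (.ev (nat_lit 1328) (nat_lit 68719476736) (.ev (nat_lit 1360) (nat_lit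
 1125899906842624) (.ev (nat_lit 1373) (nat_lit 4611686018427387904) .dd)))) (.ch (nat_lit 7) (.ev (nat_lit
 1328) (nat_lit 4612811987053707264) .dd))) (.br (nat_lit 15) (.ch (nat_lit 10) (.ev (nat_lit 1328) (nat_lit
 1125968626319360) (.ev (nat_lit 1341) (nat_lit 4611686018427387904) .dd))) (.ch (nat_lit 15) (.ev (nat_lit
 1328) (nat_lit 4611686018427387904) (.ev (nat_lit 2164) (nat_lit 68719476736) (.ev (nat_lit 2173) (nat_lit
 1125899906842624) .dd)))))))))))) (.br (nat_lit 13) (.br (nat_lit 9) (.ch (nat_lit 8) (.ev (nat_lit 400)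
 (nat_lit 4612811987053707296) (.nd (nat_lit 3424) (.br (nat_lit 6) (.ch (nat_lit 4) (.ev (nat_lit 3460)
 (nat_lit 295147905179352825856) (.ev (nat_lit 3469) (nat_lit 70368744177664) .dd))) (.ch (nat_lit 6) (.ev
 (nat_lit 3440) (nat_lit 295147975548097003520) .dd)))))) (.ch (nat_lit 9) (.ev (nat_lit 400) (nat_lit
 4612811987053707264) (.nd (nat_lit 1312) (.br (nat_lit 6) (.br (nat_lit 3) (.br (nat_lit 2) (.ch (nat_lit 0)
 (.ev (nat_lit 1844) (nat_lit 32) (.ev (nat_lit 2592) (nat_lit 295147905179352825856) (.ev (nat_lit 2605)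
 (nat_lit 70368744177664) .dd)))) (.ch (nat_lit 2) (.ev (nat_lit 1328) (nat_lit 295147905179352825888) (.ev
 (nat_lit 1341) (nat_lit 70368744177664) .dd)))) (.br (nat_lit 4) (.ch (nat_lit 3) (.ev (nat_lit 1328) (nat_lit
 70368744177696) (.ev (nat_lit 1341) (nat_lit 295147905179352825856) .dd))) (.ch (nat_lit 4) (.ev (nat_lit
 1328) (nat_lit 295147905179352825856) (.ev (nat_lit 2512) (nat_lit 70368744177664) (.ev (nat_lit 2525)
 (nat_lit 32) .dd)))))) (.br (nat_lit 13) (.br (nat_lit 11) (.ch (nat_lit 6) (.ev (nat_lit 1328) (nat_lit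
 295147975548097003552) .dd)) (.ch (nat_lit 11) (.ev (nat_lit 1328) (nat_lit 70368744177696) (.ev (nat_lit
 1341) (nat_lit 295147905179352825856) .dd)))) (.br (nat_lit 15) (.ch (nat_lit 13) (.ev (nat_lit 1328) (nat_lit
 295147975548097003520) (.ev (nat_lit 1341) (nat_lit 32) .dd))) (.ch (nat_lit 15) (.ev (nat_lit 1328) (nat_lit
 295147975548097003520) (.ev (nat_lit 1341) (nat_lit 32) .dd)))))))))) (.br (nat_lit 15) (.ch (nat_lit 13) (.ev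
 (nat_lit 400) (nat_lit 299760787535150710784) (.ev (nat_lit 413) (nat_lit 32) .dd))) (.br (nat_lit 16) (.ch
 (nat_lit 15) (.ev (nat_lit 400) (nat_lit 295149101448003846144) (.ev (nat_lit 2784) (nat_lit
 4611686018427387904) (.nd (nat_lit 3600) (.br (nat_lit 10) (.ch (nat_lit 1) (.ev (nat_lit 3616) (nat_lit
 68719476768) .dd)) (.br (nat_lit 13) (.ch (nat_lit 10) (.ev (nat_lit 3616) (nat_lit 68719476736) (.ev (nat_lit
 3629) (nat_lit 32) .dd))) (.ch (nat_lit 13) (.fin (nat_lit 576453605488804406))))))))) (.ch (nat_lit 16) (.ev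
 (nat_lit 400) (nat_lit 295147975548097003520) (.nd (nat_lit 704) (.br (nat_lit 14) (.br (nat_lit 6) (.ch
 (nat_lit 2) (.ev (nat_lit 720) (nat_lit 4612811987053707264) (.ev (nat_lit 733) (nat_lit 32) .dd))) (.br
 (nat_lit 9) (.ch (nat_lit 6) (.ev (nat_lit 2320) (nat_lit 4611686018427387904) (.ev (nat_lit 2852) (nat_lit
 68719476736) (.nd (nat_lit 3968) (.br (nat_lit 15) (.ch (nat_lit 14) (.ev (nat_lit 3984) (nat_lit 32) (.ev
 (nat_lit 3997) (nat_lit 1125899906842624) .dd))) (.ch (nat_lit 15) (.fin (nat_lit 576378838715941379))))))))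
 (.ch (nat_lit 9) (.ev (nat_lit 720) (nat_lit 4612811918334230560) (.ev (nat_lit 733) (nat_lit 68719476736)
 .dd))))) (.br (nat_lit 15) (.ch (nat_lit 14) (.ev (nat_lit 720) (nat_lit 1125968626319360) (.ev (nat_lit 1984)
 (nat_lit 32) (.ev (nat_lit 1997) (nat_lit 4611686018427387904) .dd)))) (.br (nat_lit 16) (.ch (nat_lit 15)
 (.ev (nat_lit 720) (nat_lit 1125968626319360) (.ev (nat_lit 2404) (nat_lit 32) (.ev (nat_lit 2413) (nat_lit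
 4611686018427387904) .dd)))) (.ch (nat_lit 16) (.ev (nat_lit 720) (nat_lit 4611686087146864672) (.ev (nat_lit
 733) (nat_lit 1125899906842624) .dd)))))))))))))))) (.br (nat_lit 16) (.ch (nat_lit 15) (.ev (nat_lit 48)
 (nat_lit 332077492492619026466) (.nd (nat_lit 480) (.br (nat_lit 6) (.br (nat_lit 3) (.br (nat_lit 2) (.ch
 (nat_lit 0) (.ev (nat_lit 496) (nat_lit 152185638882985902336) (.nd (nat_lit 1648) (.br (nat_lit 11) (.br
 (nat_lit 6) (.br (nat_lit 5) (.ch (nat_lit 3) (.ev (nat_lit 1664) (nat_lit 1125900443713536) (.nd (nat_lit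
 4688) (.br (nat_lit 12) (.ch (nat_lit 10) (.fin (nat_lit 576460202528162360))) (.ch (nat_lit 12) (.ev (nat_lit
 4704) (nat_lit 68727865344) .dd)))))) (.ch (nat_lit 5) (.ev (nat_lit 1664) (nat_lit 69264736256) (.ev (nat_lit
 1677) (nat_lit 1125899906842624) .dd)))) (.br (nat_lit 10) (.ch (nat_lit 6) (.ev (nat_lit 1664) (nat_lit
 68727865344) (.fin (nat_lit 576648219865858821)))) (.ch (nat_lit 10) (.ev (nat_lit 1664) (nat_lit
 1125968626319360) (.ev (nat_lit 2864) (nat_lit 8388608) (.ev (nat_lit 2877) (nat_lit 536870912) .dd)))))) (.br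
 (nat_lit 14) (.br (nat_lit 12) (.ch (nat_lit 11) (.ev (nat_lit 1664) (nat_lit 545259520) (.ev (nat_lit 1700)
 (nat_lit 68719476736) (.ev (nat_lit 1709) (nat_lit 1125899906842624) .dd)))) (.ch (nat_lit 12) (.ev (nat_lit
 1664) (nat_lit 1125968634707968) (.ev (nat_lit 1677) (nat_lit 536870912) .dd)))) (.br (nat_lit 15) (.ch
 (nat_lit 14) (.ev (nat_lit 1664) (nat_lit 68727865344) (.ev (nat_lit 2628) (nat_lit 536870912) (.ev (nat_lit
 2637) (nat_lit 1125899906842624) .dd)))) (.ch (nat_lit 15) (.ev (nat_lit 1664) (nat_lit 8388608) (.ev (nat_lit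
 1700) (nat_lit 536870912) (.ev (nat_lit 2772) (nat_lit 68719476736) (.ev (nat_lit 2781) (nat_lit
 1125899906842624) .dd))))))))))) (.ch (nat_lit 2) (.ev (nat_lit 496) (nat_lit 152185638952246444288) (.nd
 (nat_lit 2944) (.br (nat_lit 8) (.ch (nat_lit 6) (.ev (nat_lit 2960) (nat_lit 1125899906842624) (.ev (nat_lit
 2973) (nat_lit 4194304) .dd))) (.ch (nat_lit 8) (.ev (nat_lit 2980) (nat_lit 1125899906842624) (.ev (nat_lit
 2989) (nat_lit 4194304) .dd)))))))) (.br (nat_lit 5) (.ch (nat_lit 3) (.ev (nat_lit 496) (nat_lit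
 152185638608653254656) (.ev (nat_lit 548) (nat_lit 1125899906842624) (.ev (nat_lit 2004) (nat_lit 68719476736)
 (.ev (nat_lit 3296) (nat_lit 274877906944) (.ev (nat_lit 3309) (nat_lit 256) .dd)))))) (.ch (nat_lit 5) (.ev
 (nat_lit 496) (nat_lit 1126243516809216) (.nd (nat_lit 1136) (.br (nat_lit 7) (.br (nat_lit 4) (.br (nat_lit
 2) (.ch (nat_lit 1) (.ev (nat_lit 1152) (nat_lit 152185638608103801088) (.ev (nat_lit 1165) (nat_lit
 536870912) .dd))) (.ch (nat_lit 2) (.ev (nat_lit 1152) (nat_lit 4611686018964259072) (.ev (nat_lit 1165)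
 (nat_lit 147573952589676412928) .dd)))) (.br (nat_lit 6) (.ch (nat_lit 4) (.ev (nat_lit 1152) (nat_lit
 152185638608640671744) (.ev (nat_lit 1165) (nat_lit 256) .dd))) (.ch (nat_lit 6) (.ev (nat_lit 1152) (nat_lit
 256) (.ev (nat_lit 2128) (nat_lit 536870912) (.nd (nat_lit 3968) (.br (nat_lit 13) (.ch (nat_lit 3) (.fin
 (nat_lit 576464600588304964))) (.ch (nat_lit 13) (.ev (nat_lit 3984) (nat_lit 152185638608103800832)
 .dd))))))))) (.br (nat_lit 11) (.br (nat_lit 9) (.ch (nat_lit 7) (.ev (nat_lit 1152) (nat_lit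
 152185638608103801088) (.ev (nat_lit 1165) (nat_lit 536870912) .dd))) (.ch (nat_lit 9) (.ev (nat_lit 1152)
 (nat_lit 147573952590213283840) (.ev (nat_lit 2580) (nat_lit 256) (.ev (nat_lit 2589) (nat_lit
 4611686018427387904) .dd))))) (.br (nat_lit 14) (.ch (nat_lit 11) (.ev (nat_lit 1152) (nat_lit
 147573952590213284096) (.ev (nat_lit 1165) (nat_lit 4611686018427387904) .dd))) (.br (nat_lit 15) (.ch
 (nat_lit 14) (.ev (nat_lit 1152) (nat_lit 152185638608640672000) .dd)) (.ch (nat_lit 15) (.ev (nat_lit 1152)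
 (nat_lit 536870912) (.ev (nat_lit 1236) (nat_lit 256) (.ev (nat_lit 1604) (nat_lit 147573952589676412928) (.ev
 (nat_lit 1613) (nat_lit 4611686018427387904) .dd)))))))))))))) (.br (nat_lit 9) (.br (nat_lit 8) (.ch (nat_lit
 6) (.ev (nat_lit 496) (nat_lit 147573952933814861824) (.nd (nat_lit 1312) (.br (nat_lit 10) (.br (nat_lit 5)
 (.br (nat_lit 2) (.ch (nat_lit 1) (.ev (nat_lit 1328) (nat_lit 4612811918342619392) .dd)) (.ch (nat_lit 2)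
 (.ev (nat_lit 1328) (nat_lit 4612811918334230528) (.ev (nat_lit 1348) (nat_lit 256) (.ev (nat_lit 1357)
 (nat_lit 8388608) .dd))))) (.br (nat_lit 9) (.ch (nat_lit 5) (.ev (nat_lit 1328) (nat_lit 1125899915231232)
 (.ev (nat_lit 1700) (nat_lit 4611686018427387904) (.ev (nat_lit 1709) (nat_lit 256) .dd)))) (.ch (nat_lit 9)
 (.ev (nat_lit 1328) (nat_lit 4612811918342619136) (.ev (nat_lit 1341) (nat_lit 256) .dd))))) (.br (nat_lit 15)
 (.br (nat_lit 13) (.ch (nat_lit 10) (.ev (nat_lit 1328) (nat_lit 1125899906842880) (.ev (nat_lit 2176)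
 (nat_lit 8388608) (.ev (nat_lit 2189) (nat_lit 4611686018427387904) .dd)))) (.ch (nat_lit 13) (.ev (nat_lit
 1328) (nat_lit 4611686018435776768) (.ev (nat_lit 1341) (nat_lit 1125899906842624) .dd)))) (.br (nat_lit 16)
 (.ch (nat_lit 15) (.ev (nat_lit 1328) (nat_lit 4611686018427388160) (.ev (nat_lit 1572) (nat_lit
 1125899906842624) (.ev (nat_lit 1581) (nat_lit 8388608) .dd)))) (.ch (nat_lit 16) (.ev (nat_lit 1328) (nat_lit
 4611686018427388160) (.ev (nat_lit 1348) (nat_lit 1125899906842624) (.ev (nat_lit 1357) (nat_lit 8388608)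
 .dd)))))))))) (.ch (nat_lit 8) (.ev (nat_lit 496) (nat_lit 152186764852153286656) (.nd (nat_lit 3200) (.br
 (nat_lit 3) (.ch (nat_lit 1) (.ev (nat_lit 3216) (nat_lit 4194560) .dd)) (.br (nat_lit 4) (.ch (nat_lit 3)
 (.ev (nat_lit 3216) (nat_lit 256) (.ev (nat_lit 3229) (nat_lit 4194304) .dd))) (.ch (nat_lit 4) (.ev (nat_lit
 3236) (nat_lit 256) (.ev (nat_lit 3245) (nat_lit 4194304) .dd))))))))) (.br (nat_lit 13) (.ch (nat_lit 9) (.ev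
 (nat_lit 496) (nat_lit 152185638676823277824) (.nd (nat_lit 1648) (.br (nat_lit 7) (.br (nat_lit 4) (.br
 (nat_lit 1) (.ch (nat_lit 0) (.ev (nat_lit 1664) (nat_lit 1126175325814784) (.ev (nat_lit 1677) (nat_lit
 8388608) .dd))) (.ch (nat_lit 1) (.ev (nat_lit 1664) (nat_lit 4194304) (.ev (nat_lit 2512) (nat_lit 536870912)
 (.ev (nat_lit 2736) (nat_lit 8388608) (.fin (nat_lit 576470098175803956))))))) (.br (nat_lit 6) (.ch (nat_lit
 4) (.ev (nat_lit 1664) (nat_lit 274886295552) (.ev (nat_lit 1700) (nat_lit 1125899906842624) (.nd (nat_lit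
 4064) (.ch (nat_lit 12) (.nd (nat_lit 5168) (.br (nat_lit 7) (.ch (nat_lit 0) (.fin (nat_lit
 576479993716490817))) (.ch (nat_lit 7) (.ev (nat_lit 5188) (nat_lit 4194304) (.ev (nat_lit 5197) (nat_lit
 536870912) .dd)))))))))) (.ch (nat_lit 6) (.ev (nat_lit 1664) (nat_lit 1125900452102144) (.ev (nat_lit 1700)
 (nat_lit 4194304) (.ev (nat_lit 1709) (nat_lit 274877906944) .dd)))))) (.br (nat_lit 11) (.br (nat_lit 8) (.ch
 (nat_lit 7) (.ev (nat_lit 1664) (nat_lit 549453824) (.ev (nat_lit 2752) (nat_lit 1126174784749568) .dd))) (.ch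
 (nat_lit 8) (.ev (nat_lit 1664) (nat_lit 1125900452102144) (.fin (nat_lit 576461301980021220))))) (.br
 (nat_lit 14) (.ch (nat_lit 11) (.ev (nat_lit 1664) (nat_lit 274890489856) (.ev (nat_lit 2852) (nat_lit
 536870912) (.ev (nat_lit 2861) (nat_lit 1125899906842624) .dd)))) (.ch (nat_lit 14) (.ev (nat_lit 1664)
 (nat_lit 1126175334203392) .dd)))))))) (.br (nat_lit 14) (.ch (nat_lit 13) (.ev (nat_lit 496) (nat_lit
 4612812193761591552) (.ev (nat_lit 2228) (nat_lit 68719476736) (.ev (nat_lit 2237) (nat_lit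
 147573952589676412928) .dd)))) (.ch (nat_lit 14) (.ev (nat_lit 496) (nat_lit 1125968634708224) (.nd (nat_lit
 960) (.br (nat_lit 9) (.br (nat_lit 6) (.br (nat_lit 5) (.ch (nat_lit 1) (.ev (nat_lit 976) (nat_lit
 147573952589680607232) (.ev (nat_lit 1204) (nat_lit 274877906944) (.ev (nat_lit 1700) (nat_lit
 4611686018427387904) (.ev (nat_lit 1709) (nat_lit 536870912) .dd))))) (.ch (nat_lit 5) (.ev (nat_lit 976)
 (nat_lit 147573952865095385088) (.ev (nat_lit 989) (nat_lit 4611686018427387904) .dd)))) (.br (nat_lit 7) (.ch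
 (nat_lit 6) (.ev (nat_lit 976) (nat_lit 536870912) (.ev (nat_lit 1700) (nat_lit 4611686018427387904) (.ev
 (nat_lit 2176) (nat_lit 4194304) (.ev (nat_lit 2228) (nat_lit 274877906944) (.ev (nat_lit 2237) (nat_lit
 147573952589676412928) .dd)))))) (.ch (nat_lit 7) (.ev (nat_lit 976) (nat_lit 152185638882985902080) (.ev
 (nat_lit 989) (nat_lit 536870912) .dd))))) (.br (nat_lit 12) (.br (nat_lit 11) (.ch (nat_lit 9) (.ev (nat_lit
 976) (nat_lit 4611686293842165760) (.ev (nat_lit 1536) (nat_lit 4194304) (.ev (nat_lit 1549) (nat_lit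
 147573952589676412928) .dd)))) (.ch (nat_lit 11) (.ev (nat_lit 976) (nat_lit 152185638882985902080) (.ev
 (nat_lit 989) (nat_lit 536870912) .dd)))) (.br (nat_lit 13) (.ch (nat_lit 12) (.ev (nat_lit 976) (nat_lit
 152185638608644866048) (.ev (nat_lit 989) (nat_lit 274877906944) .dd))) (.br (nat_lit 16) (.ch (nat_lit 13)
 (.ev (nat_lit 976) (nat_lit 147573952865095385088) (.ev (nat_lit 989) (nat_lit 4611686018427387904) .dd)))
 (.ch (nat_lit 16) (.ev (nat_lit 976) (nat_lit 4611686293309489152) (.ev (nat_lit 2800) (nat_lit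
 147573952589676412928) (.ev (nat_lit 2813) (nat_lit 536870912) .dd)))))))))))))))))) (.ch (nat_lit 16) (.ev
 (nat_lit 48) (nat_lit 1196269213061122) (.nd (nat_lit 64) (.br (nat_lit 8) (.br (nat_lit 4) (.br (nat_lit 2)
 (.ch (nat_lit 0) (.ev (nat_lit 80) (nat_lit 336689108417167491328) (.nd (nat_lit 704) (.br (nat_lit 9) (.br
 (nat_lit 4) (.ch (nat_lit 3) (.ev (nat_lit 720) (nat_lit 68719476768) (.ev (nat_lit 2208) (nat_lit
 147573952589676478464) .dd))) (.ch (nat_lit 4) (.ev (nat_lit 720) (nat_lit 147573952589676412928) (.ev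
 (nat_lit 1076) (nat_lit 68719476736) (.ev (nat_lit 2852) (nat_lit 32) (.ev (nat_lit 2861) (nat_lit 65536)
 .dd)))))) (.br (nat_lit 14) (.ch (nat_lit 9) (.ev (nat_lit 720) (nat_lit 65568) (.ev (nat_lit 1028) (nat_lit
 147573952589676412928) (.ev (nat_lit 1037) (nat_lit 68719476736) .dd)))) (.ch (nat_lit 14) (.ev (nat_lit 900)
 (nat_lit 147573952589676412928) (.ev (nat_lit 2164) (nat_lit 68719476736) (.ev (nat_lit 2176) (nat_lit 65536)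
 (.ev (nat_lit 2189) (nat_lit 32) .dd)))))))))) (.ch (nat_lit 2) (.ev (nat_lit 80) (nat_lit
 152221667473909350688) (.ev (nat_lit 132) (nat_lit 65536) (.nd (nat_lit 608) (.br (nat_lit 10) (.br (nat_lit
 4) (.br (nat_lit 2) (.ch (nat_lit 1) (.ev (nat_lit 3348) (nat_lit 4194304) (.nd (nat_lit 4064) (.br (nat_lit
 1) (.ch (nat_lit 0) (.ev (nat_lit 4080) (nat_lit 274877906944) (.fin (nat_lit 576500884360872528)))) (.br
 (nat_lit 3) (.ch (nat_lit 1) (.ev (nat_lit 4080) (nat_lit 295147905454230732800) (.ev (nat_lit 4093) (nat_lit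
 36893488147419103232) .dd))) (.ch (nat_lit 3) (.ev (nat_lit 4080) (nat_lit 36893488147419103232) (.fin
 (nat_lit 576442610321146416))))))))) (.ch (nat_lit 2) (.ev (nat_lit 624) (nat_lit 36893488422297010176) (.ev
 (nat_lit 1348) (nat_lit 295147905179352825856) (.ev (nat_lit 1357) (nat_lit 4194304) .dd))))) (.br (nat_lit 6)
 (.ch (nat_lit 4) (.ev (nat_lit 624) (nat_lit 332041393326776123392) (.ev (nat_lit 637) (nat_lit 274877906944)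
 .dd))) (.ch (nat_lit 6) (.ev (nat_lit 624) (nat_lit 36893488422301204480) (.ev (nat_lit 637) (nat_lit
 295147905179352825856) .dd))))) (.br (nat_lit 14) (.br (nat_lit 12) (.ch (nat_lit 10) (.ev (nat_lit 624)
 (nat_lit 4194304) (.ev (nat_lit 1348) (nat_lit 295147905179352825856) (.ev (nat_lit 2228) (nat_lit
 36893488147419103232) (.ev (nat_lit 2237) (nat_lit 274877906944) .dd))))) (.ch (nat_lit 12) (.ev (nat_lit 624)
 (nat_lit 332041393326771929088) (.nd (nat_lit 3872) (.br (nat_lit 9) (.ch (nat_lit 7) (.ev (nat_lit 3888)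
 (nat_lit 274882101248) .dd)) (.ch (nat_lit 9) (.fin (nat_lit 576461302710879321)))))))) (.br (nat_lit 15) (.ch
 (nat_lit 14) (.ev (nat_lit 624) (nat_lit 295147905454234927104) (.ev (nat_lit 637) (nat_lit
 36893488147419103232) .dd))) (.br (nat_lit 16) (.ch (nat_lit 15) (.ev (nat_lit 624) (nat_lit
 332041393601654030336) .dd)) (.ch (nat_lit 16) (.ev (nat_lit 624) (nat_lit 332041393601649836032) (.ev
 (nat_lit 637) (nat_lit 4194304) .dd)))))))))))) (.br (nat_lit 7) (.ch (nat_lit 4) (.ev (nat_lit 80) (nat_lit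
 484263060731898953760) (.nd (nat_lit 656) (.br (nat_lit 14) (.br (nat_lit 9) (.ch (nat_lit 3) (.ev (nat_lit
 672) (nat_lit 68719476736) (.ev (nat_lit 692) (nat_lit 256) (.ev (nat_lit 1012) (nat_lit 67108864) (.ev
 (nat_lit 1021) (nat_lit 274877906944) .dd))))) (.ch (nat_lit 9) (.ev (nat_lit 672) (nat_lit 274945015808) (.ev
 (nat_lit 692) (nat_lit 256) (.ev (nat_lit 701) (nat_lit 68719476736) .dd))))) (.br (nat_lit 16) (.ch (nat_lit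
 14) (.ev (nat_lit 1488) (nat_lit 67108864) (.ev (nat_lit 1572) (nat_lit 68719476736) (.ev (nat_lit 2164)
 (nat_lit 256) (.ev (nat_lit 2173) (nat_lit 274877906944) .dd))))) (.ch (nat_lit 16) (.ev (nat_lit 672)
 (nat_lit 67109120) (.ev (nat_lit 2308) (nat_lit 274877906944) (.ev (nat_lit 2317) (nat_lit 68719476736)
 .dd))))))))) (.ch (nat_lit 7) (.ev (nat_lit 80) (nat_lit 336689108485882839072) (.nd (nat_lit 656) (.br
 (nat_lit 9) (.br (nat_lit 5) (.br (nat_lit 1) (.ch (nat_lit 0) (.ev (nat_lit 672) (nat_lit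
 147573952589676413184) (.ev (nat_lit 685) (nat_lit 4194304) .dd))) (.ch (nat_lit 1) (.ev (nat_lit 672)
 (nat_lit 4194304) (.ev (nat_lit 2608) (nat_lit 147573952589676413184) .dd)))) (.br (nat_lit 6) (.ch (nat_lit
 5) (.ev (nat_lit 672) (nat_lit 147573952589680607488) .dd)) (.ch (nat_lit 6) (.ev (nat_lit 672) (nat_lit
 4194304) (.ev (nat_lit 1396) (nat_lit 256) (.ev (nat_lit 1405) (nat_lit 147573952589676412928) .dd)))))) (.br
 (nat_lit 12) (.br (nat_lit 11) (.ch (nat_lit 9) (.ev (nat_lit 672) (nat_lit 147573952589676412928) (.ev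
 (nat_lit 1348) (nat_lit 256) (.ev (nat_lit 1357) (nat_lit 4194304) .dd)))) (.ch (nat_lit 11) (.ev (nat_lit
 672) (nat_lit 147573952589676413184) (.ev (nat_lit 685) (nat_lit 4194304) .dd)))) (.br (nat_lit 14) (.ch
 (nat_lit 12) (.ev (nat_lit 672) (nat_lit 256) (.fin (nat_lit 576460202539696612)))) (.ch (nat_lit 14) (.ev
 (nat_lit 672) (nat_lit 4194304) (.ev (nat_lit 1396) (nat_lit 256) (.ev (nat_lit 1405) (nat_lit
 147573952589676412928) .dd)))))))))))) (.br (nat_lit 12) (.br (nat_lit 11) (.ch (nat_lit 8) (.ev (nat_lit 80)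
 (nat_lit 442721857769100607776) (.nd (nat_lit 608) (.br (nat_lit 11) (.br (nat_lit 1) (.ch (nat_lit 0) (.ev
 (nat_lit 624) (nat_lit 41541203306462838784) .dd)) (.br (nat_lit 4) (.ch (nat_lit 1) (.ev (nat_lit 624)
 (nat_lit 274877906944) (.ev (nat_lit 1028) (nat_lit 36893488147419103232) (.ev (nat_lit 2340) (nat_lit
 36028797018963968) (.ev (nat_lit 2404) (nat_lit 68719476736) (.ev (nat_lit 2413) (nat_lit 4611686018427387904)
 .dd)))))) (.ch (nat_lit 4) (.ev (nat_lit 624) (nat_lit 4647715159043735552) (.ev (nat_lit 637) (nat_lit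
 36893488147419103232) .dd))))) (.br (nat_lit 13) (.br (nat_lit 12) (.ch (nat_lit 11) (.ev (nat_lit 624)
 (nat_lit 41541202962865455104) (.ev (nat_lit 1092) (nat_lit 68719476736) (.ev (nat_lit 1101) (nat_lit
 274877906944) .dd)))) (.ch (nat_lit 12) (.ev (nat_lit 624) (nat_lit 36893488216138579968) (.ev (nat_lit 2308)
 (nat_lit 274877906944) (.fin (nat_lit 576474496199246420)))))) (.br (nat_lit 15) (.ch (nat_lit 13) (.ev
 (nat_lit 624) (nat_lit 41541203237743362048) (.ev (nat_lit 637) (nat_lit 68719476736) .dd))) (.ch (nat_lit 15)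
 (.ev (nat_lit 624) (nat_lit 343597383680) (.ev (nat_lit 740) (nat_lit 36028797018963968) (.fin (nat_lit
 576466799614706218))))))))))) (.ch (nat_lit 11) (.ev (nat_lit 80) (nat_lit 479651375057064755200) (.nd
 (nat_lit 608) (.br (nat_lit 10) (.br (nat_lit 6) (.br (nat_lit 5) (.ch (nat_lit 1) (.ev (nat_lit 624) (nat_lit
 4611686018498691072) (.fin (nat_lit 576481093250138711)))) (.ch (nat_lit 5) (.ev (nat_lit 624) (nat_lit
 71303456) (.ev (nat_lit 637) (nat_lit 4611686018427387904) .dd)))) (.br (nat_lit 7) (.ch (nat_lit 6) (.ev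
 (nat_lit 624) (nat_lit 4611686018494497024) (.ev (nat_lit 1012) (nat_lit 32) (.ev (nat_lit 1021) (nat_lit
 4194304) .dd)))) (.ch (nat_lit 7) (.ev (nat_lit 624) (nat_lit 4611686018427387904) (.ev (nat_lit 1236)
 (nat_lit 4194304) (.ev (nat_lit 1572) (nat_lit 32) (.ev (nat_lit 1584) (nat_lit 67108864) (.ev (nat_lit 1597)
 (nat_lit 256) .dd)))))))) (.br (nat_lit 15) (.br (nat_lit 12) (.ch (nat_lit 10) (.ev (nat_lit 624) (nat_lit
 71303456) (.ev (nat_lit 637) (nat_lit 4611686018427387904) .dd))) (.ch (nat_lit 12) (.ev (nat_lit 624)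
 (nat_lit 4611686018427388192) (.fin (nat_lit 576377739211653580))))) (.br (nat_lit 16) (.ch (nat_lit 15) (.ev
 (nat_lit 624) (nat_lit 67108896) (.ev (nat_lit 692) (nat_lit 256) (.ev (nat_lit 2468) (nat_lit 4194304) (.ev
 (nat_lit 2477) (nat_lit 4611686018427387904) .dd))))) (.ch (nat_lit 16) (.ev (nat_lit 624) (nat_lit
 4611686018427388192) (.ev (nat_lit 3072) (nat_lit 71303168) .dd)))))))))) (.br (nat_lit 14) (.ch (nat_lit 12)
 (.ev (nat_lit 80) (nat_lit 189079127030467919904) (.ev (nat_lit 276) (nat_lit 256) (.nd (nat_lit 608) (.br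
 (nat_lit 6) (.br (nat_lit 3) (.br (nat_lit 2) (.ch (nat_lit 1) (.ev (nat_lit 624) (nat_lit
 295183934045095460864) (.ev (nat_lit 637) (nat_lit 65536) .dd))) (.ch (nat_lit 2) (.ev (nat_lit 624) (nat_lit
 295183934045091332096) (.ev (nat_lit 637) (nat_lit 4194304) .dd)))) (.br (nat_lit 4) (.ch (nat_lit 3) (.ev
 (nat_lit 624) (nat_lit 295183934045091266560) (.ev (nat_lit 1476) (nat_lit 4194304) (.ev (nat_lit 1485)
 (nat_lit 65536) .dd)))) (.ch (nat_lit 4) (.ev (nat_lit 624) (nat_lit 4194304) (.ev (nat_lit 1012) (nat_lit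
 68719476736) (.ev (nat_lit 1476) (nat_lit 65536) (.fin (nat_lit 576440411325153847)))))))) (.br (nat_lit 11)
 (.br (nat_lit 10) (.ch (nat_lit 6) (.ev (nat_lit 624) (nat_lit 36028865738506240) (.ev (nat_lit 804) (nat_lit
 4194304) (.ev (nat_lit 813) (nat_lit 295147905179352825856) .dd)))) (.ch (nat_lit 10) (.ev (nat_lit 624)
 (nat_lit 295147905248076562432) (.ev (nat_lit 637) (nat_lit 36028797018963968) .dd)))) (.br (nat_lit 12) (.ch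
 (nat_lit 11) (.ev (nat_lit 624) (nat_lit 36028797023223808) (.ev (nat_lit 884) (nat_lit 295147905179352825856)
 (.ev (nat_lit 893) (nat_lit 68719476736) .dd)))) (.br (nat_lit 16) (.ch (nat_lit 12) (.ev (nat_lit 624)
 (nat_lit 295147905248072368128) (.ev (nat_lit 820) (nat_lit 4194304) (.ev (nat_lit 829) (nat_lit
 36028797018963968) .dd)))) (.ch (nat_lit 16) (.ev (nat_lit 624) (nat_lit 4259840) (.ev (nat_lit 804) (nat_lit
 36028797018963968) (.ev (nat_lit 1812) (nat_lit 68719476736) (.ev (nat_lit 1821) (nat_lit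
 295147905179352825856) .dd))))))))))))) (.br (nat_lit 16) (.ch (nat_lit 14) (.ev (nat_lit 80) (nat_lit
 36029140620607776) (.nd (nat_lit 608) (.br (nat_lit 5) (.br (nat_lit 3) (.br (nat_lit 2) (.ch (nat_lit 0) (.ev
 (nat_lit 624) (nat_lit 442721857769029238784) (.ev (nat_lit 1940) (nat_lit 67108864) (.ev (nat_lit 1972)
 (nat_lit 36893488147419103232) (.ev (nat_lit 1981) (nat_lit 4611686018427387904) .dd))))) (.ch (nat_lit 2)
 (.ev (nat_lit 624) (nat_lit 189079126755590012928) (.ev (nat_lit 637) (nat_lit 295147905179352825856) .dd))))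
 (.br (nat_lit 4) (.ch (nat_lit 3) (.ev (nat_lit 624) (nat_lit 447333543787523735552) (.ev (nat_lit 637)
 (nat_lit 36893488147419103232) .dd))) (.ch (nat_lit 4) (.ev (nat_lit 624) (nat_lit 336653079345199316992) (.nd
 (nat_lit 3840) (.br (nat_lit 9) (.ch (nat_lit 3) (.ev (nat_lit 3856) (nat_lit 147573952589743521792) .dd))
 (.ch (nat_lit 9) (.nd (nat_lit 5296) (.br (nat_lit 11) (.ch (nat_lit 8) (.ev (nat_lit 5312) (nat_lit
 147573952589676412928) (.ev (nat_lit 5325) (nat_lit 67108864) .dd))) (.ch (nat_lit 11) (.fin (nat_lit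
 576725185606403031)))))))))))) (.br (nat_lit 11) (.br (nat_lit 6) (.ch (nat_lit 5) (.ev (nat_lit 624) (nat_lit
 189079126755590012928) (.ev (nat_lit 637) (nat_lit 295147905179352825856) .dd))) (.ch (nat_lit 6) (.ev
 (nat_lit 624) (nat_lit 484227031934942838784) .dd))) (.br (nat_lit 13) (.ch (nat_lit 11) (.ev (nat_lit 624)
 (nat_lit 67108864) (.ev (nat_lit 756) (nat_lit 4611686018427387904) (.ev (nat_lit 804) (nat_lit
 36893488147419103232) (.ev (nat_lit 820) (nat_lit 147573952589676412928) (.ev (nat_lit 829) (nat_lit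
 295147905179352825856) .dd)))))) (.br (nat_lit 14) (.ch (nat_lit 13) (.ev (nat_lit 624) (nat_lit
 4611686018427387904) (.ev (nat_lit 2228) (nat_lit 67108864) (.nd (nat_lit 3872) (.br (nat_lit 9) (.ch (nat_lit
 5) (.ev (nat_lit 3888) (nat_lit 147573952589676412928) (.fin (nat_lit 576274385912414811)))) (.ch (nat_lit 9)
 (.ev (nat_lit 3888) (nat_lit 295147905179352825856) (.nd (nat_lit 5104) (.br (nat_lit 5) (.ch (nat_lit 3) (.ev
 (nat_lit 5120) (nat_lit 36893488147419103232) (.ev (nat_lit 5133) (nat_lit 147573952589676412928) .dd))) (.ch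
 (nat_lit 5) (.fin (nat_lit 576468998610698787)))))))))))) (.ch (nat_lit 14) (.ev (nat_lit 624) (nat_lit
 36893488147486212096) (.ev (nat_lit 1204) (nat_lit 4611686018427387904) (.ev (nat_lit 1476) (nat_lit
 295147905179352825856) (.ev (nat_lit 1485) (nat_lit 147573952589676412928) .dd)))))))))))) (.ch (nat_lit 16)
 (.ev (nat_lit 80) (nat_lit 41505174234566033664) (.nd (nat_lit 608) (.br (nat_lit 12) (.br (nat_lit 7) (.br
 (nat_lit 4) (.ch (nat_lit 2) (.ev (nat_lit 624) (nat_lit 442721857769100541952) (.ev (nat_lit 1184) (nat_lit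
 32) (.ev (nat_lit 2340) (nat_lit 274877906944) (.ev (nat_lit 2349) (nat_lit 36028797018963968) .dd))))) (.ch
 (nat_lit 4) (.ev (nat_lit 624) (nat_lit 442757886840993218592) (.ev (nat_lit 637) (nat_lit 4194304) .dd))))
 (.br (nat_lit 9) (.ch (nat_lit 7) (.ev (nat_lit 624) (nat_lit 147609981661640392736) (.ev (nat_lit 3156)
 (nat_lit 295147905179352825856) (.ev (nat_lit 3165) (nat_lit 4194304) .dd)))) (.ch (nat_lit 9) (.ev (nat_lit
 624) (nat_lit 147609981386762485792) (.ev (nat_lit 1012) (nat_lit 295147905179352825856) (.ev (nat_lit 2308)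
 (nat_lit 274877906944) (.ev (nat_lit 2317) (nat_lit 4194304) .dd))))))) (.br (nat_lit 14) (.br (nat_lit 13)
 (.ch (nat_lit 12) (.ev (nat_lit 624) (nat_lit 274949210112) (.ev (nat_lit 644) (nat_lit 32) (.ev (nat_lit
 1012) (nat_lit 295147905179352825856) (.ev (nat_lit 2628) (nat_lit 36028797018963968) (.ev (nat_lit 2637)
 (nat_lit 147573952589676412928) .dd)))))) (.ch (nat_lit 13) (.ev (nat_lit 624) (nat_lit 295147905179424129056)
 (.ev (nat_lit 1844) (nat_lit 274877906944) (.ev (nat_lit 2560) (nat_lit 147609981386695376896) .dd))))) (.br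
 (nat_lit 15) (.ch (nat_lit 14) (.ev (nat_lit 624) (nat_lit 36028797018964000) (.ev (nat_lit 1012) (nat_lit
 295147905179352825856) (.ev (nat_lit 1076) (nat_lit 4194304) (.ev (nat_lit 2656) (nat_lit
 147573952589676412928) (.fin (nat_lit 576541566450483829))))))) (.br (nat_lit 16) (.ch (nat_lit 15) (.ev
 (nat_lit 624) (nat_lit 442721858043911340064) (.ev (nat_lit 2308) (nat_lit 36028797018963968) (.ev (nat_lit
 2317) (nat_lit 67108864) .dd)))) (.ch (nat_lit 16) (.ev (nat_lit 624) (nat_lit 147609981386699571200) (.ev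
 (nat_lit 2308) (nat_lit 32) (.ev (nat_lit 2340) (nat_lit 274877906944) (.ev (nat_lit 3248) (nat_lit
 295147905179419934720) .dd)))))))))))))))))))))))))

/-- Subtrie. -/
noncomputable def T7 : Tr := (.ev (nat_lit 20) (nat_lit 1494519624940047374498) (.nd (nat_lit 32) (.br (nat_lit
 8) (.br (nat_lit 2) (.br (nat_lit 1) (.ch (nat_lit 0) (.ev (nat_lit 48) (nat_lit 774785355952511025408) (.nd
 (nat_lit 560) (.br (nat_lit 5) (.br (nat_lit 3) (.br (nat_lit 2) (.ch (nat_lit 1) (.ev (nat_lit 576) (nat_lit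
 144401071840690200) (.ev (nat_lit 589) (nat_lit 4611686018427387904) .dd))) (.ch (nat_lit 2) (.ev (nat_lit
 576) (nat_lit 4611690427215511552) (.ev (nat_lit 596) (nat_lit 144396663052566528) (.ev (nat_lit 2896)
 (nat_lit 8) (.ev (nat_lit 2909) (nat_lit 16) .dd)))))) (.br (nat_lit 4) (.ch (nat_lit 3) (.ev (nat_lit 576)
 (nat_lit 4611690418621382672) (.ev (nat_lit 2800) (nat_lit 4194304) (.ev (nat_lit 3348) (nat_lit
 144115188075855872) (.nd (nat_lit 3728) (.br (nat_lit 9) (.ch (nat_lit 8) (.ev (nat_lit 3744) (nat_lit 8)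
 (.fin (nat_lit 576468998653690434)))) (.br (nat_lit 10) (.ch (nat_lit 9) (.ev (nat_lit 3744) (nat_lit
 8589934592) (.fin (nat_lit 576543765468496477)))) (.ch (nat_lit 10) (.ev (nat_lit 3744) (nat_lit
 281483566645248) (.ev (nat_lit 3757) (nat_lit 8) .dd)))))))))) (.ch (nat_lit 4) (.ev (nat_lit 576) (nat_lit
 4756087081673949200) (.ev (nat_lit 2772) (nat_lit 4194304) (.ev (nat_lit 3028) (nat_lit 8589934592) (.ev
 (nat_lit 3037) (nat_lit 8) .dd))))))) (.br (nat_lit 8) (.br (nat_lit 7) (.ch (nat_lit 5) (.ev (nat_lit 576)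
 (nat_lit 4755801206503243784) (.ev (nat_lit 596) (nat_lit 281474976710656) (.ev (nat_lit 1732) (nat_lit 16)
 (.ev (nat_lit 1972) (nat_lit 2147483648) (.ev (nat_lit 2404) (nat_lit 8589934592) (.nd (nat_lit 3728) (.br
 (nat_lit 6) (.br (nat_lit 2) (.ch (nat_lit 1) (.ev (nat_lit 3744) (nat_lit 4398050705408) .dd)) (.br (nat_lit
 4) (.ch (nat_lit 2) (.ev (nat_lit 3744) (nat_lit 4398050705408) .dd)) (.ch (nat_lit 4) (.ev (nat_lit 3744)
 (nat_lit 4194304) (.ev (nat_lit 3757) (nat_lit 4398046511104) .dd))))) (.br (nat_lit 14) (.br (nat_lit 9) (.ch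
 (nat_lit 6) (.ev (nat_lit 3744) (nat_lit 4398050705408) .dd)) (.ch (nat_lit 9) (.ev (nat_lit 3744) (nat_lit
 4194304) (.ev (nat_lit 3757) (nat_lit 4398046511104) .dd)))) (.br (nat_lit 15) (.ch (nat_lit 14) (.ev (nat_lit
 3744) (nat_lit 4398050705408) .dd)) (.ch (nat_lit 15) (.nd (nat_lit 4816) (.br (nat_lit 6) (.ch (nat_lit 3)
 (.ev (nat_lit 4832) (nat_lit 4398046511104) (.ev (nat_lit 4845) (nat_lit 4194304) .dd))) (.ch (nat_lit 6)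
 (.fin (nat_lit 576455804511011366)))))))))))))))) (.ch (nat_lit 7) (.ev (nat_lit 576) (nat_lit
 4611967504145711128) (.ev (nat_lit 2832) (nat_lit 4398046511104) (.ev (nat_lit 2845) (nat_lit
 144115188075855872) .dd))))) (.br (nat_lit 9) (.ch (nat_lit 8) (.ev (nat_lit 576) (nat_lit 144396673794179072)
 (.nd (nat_lit 1648) (.br (nat_lit 12) (.br (nat_lit 7) (.br (nat_lit 4) (.ch (nat_lit 0) (.ev (nat_lit 1664)
 (nat_lit 8) (.ev (nat_lit 2176) (nat_lit 16) (.ev (nat_lit 2352) (nat_lit 4611686018427387904) (.ev (nat_lit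
 2365) (nat_lit 4398046511104) .dd))))) (.ch (nat_lit 4) (.ev (nat_lit 1664) (nat_lit 4611690416473899032)
 .dd))) (.br (nat_lit 11) (.ch (nat_lit 7) (.ev (nat_lit 1664) (nat_lit 4611686018427387928) (.ev (nat_lit
 1677) (nat_lit 4398046511104) .dd))) (.ch (nat_lit 11) (.ev (nat_lit 1664) (nat_lit 4398046511112) (.ev
 (nat_lit 2112) (nat_lit 4611686018427387904) (.ev (nat_lit 2125) (nat_lit 16) .dd)))))) (.br (nat_lit 14) (.br
 (nat_lit 13) (.ch (nat_lit 12) (.ev (nat_lit 1664) (nat_lit 4611690416473899024) (.ev (nat_lit 1677) (nat_lit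
 8) .dd))) (.ch (nat_lit 13) (.ev (nat_lit 1664) (nat_lit 4611690416473899016) (.ev (nat_lit 1677) (nat_lit 16)
 .dd)))) (.br (nat_lit 15) (.ch (nat_lit 14) (.ev (nat_lit 1664) (nat_lit 4611686018427387904) (.ev (nat_lit
 1700) (nat_lit 16) (.ev (nat_lit 2644) (nat_lit 8) (.ev (nat_lit 2653) (nat_lit 4398046511104) .dd))))) (.br
 (nat_lit 16) (.ch (nat_lit 15) (.ev (nat_lit 1664) (nat_lit 4611690416473899024) (.ev (nat_lit 1677) (nat_lit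
 8) .dd))) (.ch (nat_lit 16) (.ev (nat_lit 1664) (nat_lit 4611690416473899008) (.ev (nat_lit 2164) (nat_lit 8)
 (.ev (nat_lit 2173) (nat_lit 16) .dd))))))))))) (.br (nat_lit 13) (.ch (nat_lit 9) (.ev (nat_lit 576) (nat_lit
 281483570839568) (.nd (nat_lit 1312) (.br (nat_lit 8) (.br (nat_lit 5) (.br (nat_lit 4) (.ch (nat_lit 3) (.ev
 (nat_lit 1328) (nat_lit 4611690416473899008) (.ev (nat_lit 2016) (nat_lit 2147483648) (.ev (nat_lit 2228)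
 (nat_lit 144115188075855872) (.ev (nat_lit 2237) (nat_lit 8) .dd))))) (.ch (nat_lit 4) (.ev (nat_lit 1328)
 (nat_lit 4755805604549754888) (.ev (nat_lit 1341) (nat_lit 2147483648) .dd)))) (.br (nat_lit 7) (.ch (nat_lit
 5) (.ev (nat_lit 1328) (nat_lit 4755805604549754888) (.ev (nat_lit 1341) (nat_lit 2147483648) .dd))) (.ch
 (nat_lit 7) (.ev (nat_lit 1328) (nat_lit 4755801208650727424) (.ev (nat_lit 3716) (nat_lit 8) (.ev (nat_lit
 3725) (nat_lit 4398046511104) .dd)))))) (.br (nat_lit 15) (.br (nat_lit 13) (.ch (nat_lit 8) (.ev (nat_lit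
 1328) (nat_lit 2147483648) (.ev (nat_lit 1584) (nat_lit 4398046511104) (.ev (nat_lit 2256) (nat_lit
 144115188075855880) (.ev (nat_lit 2269) (nat_lit 4611686018427387904) .dd))))) (.ch (nat_lit 13) (.ev (nat_lit
 1328) (nat_lit 4755801208650727424) (.ev (nat_lit 1780) (nat_lit 4398046511104) (.ev (nat_lit 1789) (nat_lit
 8) .dd))))) (.br (nat_lit 16) (.ch (nat_lit 15) (.ev (nat_lit 1328) (nat_lit 144119588269850624) (.ev (nat_lit
 1348) (nat_lit 8) (.ev (nat_lit 1357) (nat_lit 4611686018427387904) .dd)))) (.ch (nat_lit 16) (.ev (nat_lit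
 1328) (nat_lit 4400193994760) (.ev (nat_lit 1348) (nat_lit 144115188075855872) (.ev (nat_lit 1357) (nat_lit
 4611686018427387904) .dd)))))))))) (.ch (nat_lit 13) (.ev (nat_lit 576) (nat_lit 4755805613143883784) (.ev
 (nat_lit 2228) (nat_lit 2147483648) (.ev (nat_lit 2644) (nat_lit 281474976710656) (.ev (nat_lit 2653) (nat_lit
 16) .dd)))))))))))) (.ch (nat_lit 1) (.ev (nat_lit 48) (nat_lit 742629087273612738840) (.nd (nat_lit 560) (.br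
 (nat_lit 8) (.br (nat_lit 6) (.br (nat_lit 3) (.ch (nat_lit 0) (.ev (nat_lit 576) (nat_lit
 36912355769099255808) (.ev (nat_lit 589) (nat_lit 67108864) .dd))) (.ch (nat_lit 3) (.ev (nat_lit 576)
 (nat_lit 18014398509481984) (.nd (nat_lit 1136) (.br (nat_lit 5) (.br (nat_lit 3) (.br (nat_lit 2) (.ch
 (nat_lit 1) (.ev (nat_lit 1152) (nat_lit 571748193927168) (.ev (nat_lit 1172) (nat_lit 281474976710656) (.ev
 (nat_lit 1572) (nat_lit 32768) (.ev (nat_lit 2628) (nat_lit 67108864) (.ev (nat_lit 2637) (nat_lit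
 36893488147419103232) .dd)))))) (.ch (nat_lit 2) (.ev (nat_lit 1152) (nat_lit 36894332572349267968) (.ev
 (nat_lit 1172) (nat_lit 2147483648) (.ev (nat_lit 2724) (nat_lit 8796093022208) (.ev (nat_lit 2733) (nat_lit
 67108864) .dd)))))) (.br (nat_lit 4) (.ch (nat_lit 3) (.ev (nat_lit 1152) (nat_lit 36893496943579267072) (.ev
 (nat_lit 1396) (nat_lit 562949953421312) (.fin (nat_lit 576462401518912141))))) (.ch (nat_lit 4) (.ev (nat_lit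
 1152) (nat_lit 36894341368509399040) (.ev (nat_lit 1165) (nat_lit 2147483648) .dd))))) (.br (nat_lit 14) (.br
 (nat_lit 10) (.ch (nat_lit 5) (.ev (nat_lit 1152) (nat_lit 36894059895680172032) (.ev (nat_lit 1165) (nat_lit
 281474976710656) .dd))) (.ch (nat_lit 10) (.ev (nat_lit 1152) (nat_lit 36894332574496718848) (.ev (nat_lit
 2004) (nat_lit 8796093022208) (.ev (nat_lit 2308) (nat_lit 32768) (.ev (nat_lit 2317) (nat_lit 67108864)
 .dd)))))) (.br (nat_lit 15) (.ch (nat_lit 14) (.ev (nat_lit 1152) (nat_lit 290271136841728) (.ev (nat_lit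
 2480) (nat_lit 32768) (.ev (nat_lit 2644) (nat_lit 2147483648) (.ev (nat_lit 3700) (nat_lit
 36893488147419103232) (.ev (nat_lit 3709) (nat_lit 562949953421312) .dd)))))) (.br (nat_lit 16) (.ch (nat_lit
 15) (.ev (nat_lit 1152) (nat_lit 562950020562944) (.ev (nat_lit 1172) (nat_lit 36893488149566586880) (.ev
 (nat_lit 1732) (nat_lit 8796093022208) (.ev (nat_lit 1741) (nat_lit 281474976710656) .dd))))) (.ch (nat_lit
 16) (.ev (nat_lit 1152) (nat_lit 281477191335936) (.ev (nat_lit 1172) (nat_lit 36893488147419103232) (.ev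
 (nat_lit 2164) (nat_lit 562949953421312) (.ev (nat_lit 2173) (nat_lit 8796093022208) .dd))))))))))))) (.br
 (nat_lit 7) (.ch (nat_lit 6) (.ev (nat_lit 576) (nat_lit 36894341370656849920) (.ev (nat_lit 2308) (nat_lit
 32768) (.ev (nat_lit 2317) (nat_lit 18014398509481984) .dd)))) (.ch (nat_lit 7) (.ev (nat_lit 576) (nat_lit
 853221023186944) (.ev (nat_lit 3476) (nat_lit 2147483648) (.ev (nat_lit 3492) (nat_lit 67108864) (.nd (nat_lit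
 3840) (.br (nat_lit 14) (.br (nat_lit 11) (.ch (nat_lit 1) (.ev (nat_lit 3856) (nat_lit 36911502545928585216)
 .dd)) (.ch (nat_lit 11) (.ev (nat_lit 3856) (nat_lit 36911502545928585216) .dd))) (.br (nat_lit 15) (.ch
 (nat_lit 14) (.ev (nat_lit 3856) (nat_lit 18014398509481984) (.ev (nat_lit 3869) (nat_lit
 36893488147419103232) .dd))) (.ch (nat_lit 15) (.fin (nat_lit 576464600585159231)))))))))))) (.br (nat_lit 13)
 (.br (nat_lit 9) (.ch (nat_lit 8) (.ev (nat_lit 576) (nat_lit 18577350677528576) (.ev (nat_lit 2580) (nat_lit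
 8796093022208) (.ev (nat_lit 3172) (nat_lit 36893488147419103232) (.ev (nat_lit 3181) (nat_lit
 281474976710656) .dd))))) (.ch (nat_lit 9) (.ev (nat_lit 576) (nat_lit 36912355769166364672) .dd))) (.br
 (nat_lit 14) (.ch (nat_lit 13) (.ev (nat_lit 576) (nat_lit 36893488147486212096) (.nd (nat_lit 1888) (.br
 (nat_lit 9) (.br (nat_lit 5) (.br (nat_lit 4) (.ch (nat_lit 0) (.ev (nat_lit 1904) (nat_lit 18867621680119808)
 (.ev (nat_lit 1917) (nat_lit 32768) .dd))) (.ch (nat_lit 4) (.ev (nat_lit 1904) (nat_lit 844424930164736) (.ev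
 (nat_lit 1940) (nat_lit 2147483648) (.nd (nat_lit 4576) (.br (nat_lit 14) (.ch (nat_lit 3) (.ev (nat_lit 4592)
 (nat_lit 18023194602504192) .dd)) (.br (nat_lit 16) (.ch (nat_lit 14) (.ev (nat_lit 4592) (nat_lit
 18014398509481984) (.ev (nat_lit 4605) (nat_lit 8796093022208) .dd))) (.ch (nat_lit 16) (.fin (nat_lit
 576470098142249516)))))))))) (.br (nat_lit 6) (.ch (nat_lit 5) (.ev (nat_lit 1904) (nat_lit 18577348462936064)
 (.ev (nat_lit 1940) (nat_lit 2147483648) (.ev (nat_lit 2228) (nat_lit 8796093022208) (.ev (nat_lit 2237)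
 (nat_lit 281474976710656) .dd))))) (.ch (nat_lit 6) (.ev (nat_lit 1904) (nat_lit 853221023186944) (.ev
 (nat_lit 1940) (nat_lit 2147483648) (.ev (nat_lit 1949) (nat_lit 18014398509481984) .dd)))))) (.br (nat_lit
 13) (.br (nat_lit 10) (.ch (nat_lit 9) (.ev (nat_lit 1904) (nat_lit 853223170670592) (.ev (nat_lit 1917)
 (nat_lit 18014398509481984) .dd))) (.ch (nat_lit 10) (.ev (nat_lit 1904) (nat_lit 18023196749987840) (.ev
 (nat_lit 2228) (nat_lit 562949953421312) (.fin (nat_lit 576458003520635449)))))) (.br (nat_lit 14) (.ch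
 (nat_lit 13) (.ev (nat_lit 1904) (nat_lit 18295875633709056) (.ev (nat_lit 1940) (nat_lit 8796093022208) (.ev
 (nat_lit 1949) (nat_lit 562949953421312) .dd)))) (.br (nat_lit 15) (.ch (nat_lit 14) (.ev (nat_lit 1904)
 (nat_lit 18304669579247616) (.ev (nat_lit 2164) (nat_lit 2147483648) (.ev (nat_lit 2173) (nat_lit
 562949953421312) .dd)))) (.ch (nat_lit 15) (.ev (nat_lit 1904) (nat_lit 18586146703441920) (.ev (nat_lit 1917)
 (nat_lit 281474976710656) .dd)))))))))) (.br (nat_lit 16) (.ch (nat_lit 14) (.ev (nat_lit 576) (nat_lit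
 36893778420636352512) (.ev (nat_lit 596) (nat_lit 67108864) (.ev (nat_lit 2752) (nat_lit 562949953421312) (.ev
 (nat_lit 2765) (nat_lit 18014398509481984) .dd))))) (.ch (nat_lit 16) (.ev (nat_lit 576) (nat_lit
 290271136874496) (.ev (nat_lit 2480) (nat_lit 562949953421312) (.ev (nat_lit 2628) (nat_lit 2147483648) (.ev
 (nat_lit 2896) (nat_lit 18014398509481984) (.ev (nat_lit 2909) (nat_lit 36893488147419103232)
 .dd)))))))))))))) (.br (nat_lit 5) (.ch (nat_lit 2) (.ev (nat_lit 48) (nat_lit 4632387906890137616) (.nd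
 (nat_lit 512) (.br (nat_lit 5) (.br (nat_lit 3) (.br (nat_lit 2) (.ch (nat_lit 1) (.ev (nat_lit 528) (nat_lit
 145241087986893056) (.nd (nat_lit 1136) (.br (nat_lit 8) (.br (nat_lit 5) (.br (nat_lit 4) (.ch (nat_lit 3)
 (.ev (nat_lit 1152) (nat_lit 147574515541777317896) (.ev (nat_lit 1536) (nat_lit 590295810358705651712) (.ev
 (nat_lit 1549) (nat_lit 36893488147419103232) .dd)))) (.ch (nat_lit 4) (.ev (nat_lit 1152) (nat_lit
 184468003689196421120) (.ev (nat_lit 1172) (nat_lit 8) (.ev (nat_lit 1181) (nat_lit 590295810358705651712)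
 .dd))))) (.br (nat_lit 7) (.ch (nat_lit 5) (.ev (nat_lit 1152) (nat_lit 774763814045754589192) (.ev (nat_lit
 1165) (nat_lit 2147483648) .dd))) (.ch (nat_lit 7) (.ev (nat_lit 1152) (nat_lit 590296373310806556680) (.ev
 (nat_lit 1300) (nat_lit 147573952589676412928) (.ev (nat_lit 1309) (nat_lit 36893488147419103232) .dd))))))
 (.br (nat_lit 11) (.br (nat_lit 10) (.ch (nat_lit 8) (.ev (nat_lit 1152) (nat_lit 627189298508272238600) (.ev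
 (nat_lit 1204) (nat_lit 562949953421312) (.ev (nat_lit 1213) (nat_lit 147573952589676412928) .dd)))) (.ch
 (nat_lit 10) (.ev (nat_lit 1152) (nat_lit 774763251095801167872) (.ev (nat_lit 1572) (nat_lit 562949953421312)
 (.fin (nat_lit 576455804506817061)))))) (.br (nat_lit 12) (.ch (nat_lit 11) (.ev (nat_lit 1152) (nat_lit
 184467440737095516168) (.ev (nat_lit 1172) (nat_lit 2147483648) (.fin (nat_lit 576458003527975487))))) (.br
 (nat_lit 16) (.ch (nat_lit 12) (.ev (nat_lit 1152) (nat_lit 590296373310806556680) (.ev (nat_lit 1172)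
 (nat_lit 147573952589676412928) (.ev (nat_lit 1181) (nat_lit 36893488147419103232) .dd)))) (.ch (nat_lit 16)
 (.ev (nat_lit 1152) (nat_lit 627189861456078176256) (.ev (nat_lit 1732) (nat_lit 147573952589676412928) (.ev
 (nat_lit 1780) (nat_lit 8) (.ev (nat_lit 1789) (nat_lit 2147483648) .dd)))))))))))) (.ch (nat_lit 2) (.ev
 (nat_lit 528) (nat_lit 590296373308663267336) (.ev (nat_lit 1972) (nat_lit 147573952589676412928) (.ev
 (nat_lit 2672) (nat_lit 256) (.ev (nat_lit 2884) (nat_lit 1125899906842624) (.ev (nat_lit 2996) (nat_lit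
 36893488147419103232) (.nd (nat_lit 3760) (.br (nat_lit 10) (.br (nat_lit 6) (.ch (nat_lit 3) (.ev (nat_lit
 3776) (nat_lit 144115190223339520) .dd)) (.br (nat_lit 8) (.ch (nat_lit 6) (.ev (nat_lit 3776) (nat_lit
 144115188075855872) (.ev (nat_lit 3789) (nat_lit 2147483648) .dd))) (.ch (nat_lit 8) (.ev (nat_lit 3776)
 (nat_lit 144115190223339520) .dd)))) (.br (nat_lit 13) (.ch (nat_lit 10) (.fin (nat_lit 575781803874796229)))
 (.br (nat_lit 16) (.ch (nat_lit 13) (.ev (nat_lit 3796) (nat_lit 2147483648) (.ev (nat_lit 3805) (nat_lit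
 144115188075855872) .dd))) (.ch (nat_lit 16) (.ev (nat_lit 3776) (nat_lit 2147483648) (.ev (nat_lit 3789)
 (nat_lit 144115188075855872) .dd)))))))))))))) (.br (nat_lit 4) (.ch (nat_lit 3) (.ev (nat_lit 528) (nat_lit
 774909055133737287680) (.ev (nat_lit 2176) (nat_lit 8) (.ev (nat_lit 2432) (nat_lit 256) (.ev (nat_lit 3328)
 (nat_lit 4194304) (.ev (nat_lit 3341) (nat_lit 2147483648) .dd)))))) (.ch (nat_lit 4) (.ev (nat_lit 528)
 (nat_lit 774763814047906267392) (.ev (nat_lit 2724) (nat_lit 8) (.ev (nat_lit 2852) (nat_lit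
 144115188075855872) (.ev (nat_lit 2861) (nat_lit 1125899906842624) .dd))))))) (.br (nat_lit 10) (.br (nat_lit
 6) (.ch (nat_lit 5) (.ev (nat_lit 528) (nat_lit 37038166287600058368) (.nd (nat_lit 1040) (.br (nat_lit 10)
 (.br (nat_lit 3) (.ch (nat_lit 0) (.ev (nat_lit 1056) (nat_lit 737869762948382064904) (.ev (nat_lit 1069)
 (nat_lit 1125899906842624) .dd))) (.br (nat_lit 9) (.ch (nat_lit 3) (.ev (nat_lit 1056) (nat_lit
 147573952589676413192) (.ev (nat_lit 1360) (nat_lit 1125899906842624) (.ev (nat_lit 1373) (nat_lit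
 590295810358705651712) .dd)))) (.ch (nat_lit 9) (.ev (nat_lit 1056) (nat_lit 590295810358705651976) (.ev
 (nat_lit 2340) (nat_lit 147573952589676412928) (.ev (nat_lit 2349) (nat_lit 1125899906842624) .dd)))))) (.br
 (nat_lit 13) (.br (nat_lit 11) (.ch (nat_lit 10) (.ev (nat_lit 1056) (nat_lit 1125899906842624) (.ev (nat_lit
 1396) (nat_lit 147573952589676412928) (.ev (nat_lit 1604) (nat_lit 590295810358705651712) (.ev (nat_lit 3716)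
 (nat_lit 256) (.ev (nat_lit 3725) (nat_lit 8) .dd)))))) (.ch (nat_lit 11) (.ev (nat_lit 1056) (nat_lit
 147575078489583255552) (.ev (nat_lit 1616) (nat_lit 8) (.ev (nat_lit 2080) (nat_lit 590295810358705651968)
 .dd))))) (.br (nat_lit 16) (.ch (nat_lit 13) (.ev (nat_lit 1056) (nat_lit 590296936258612494344) (.ev (nat_lit
 1172) (nat_lit 147573952589676412928) (.ev (nat_lit 1181) (nat_lit 256) .dd)))) (.ch (nat_lit 16) (.ev
 (nat_lit 1056) (nat_lit 147575078489583255808) (.ev (nat_lit 1204) (nat_lit 590295810358705651712) (.ev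
 (nat_lit 1213) (nat_lit 8) .dd)))))))))) (.ch (nat_lit 6) (.ev (nat_lit 528) (nat_lit 738015566988469862664)
 (.ev (nat_lit 541) (nat_lit 36893488147419103232) .dd)))) (.br (nat_lit 11) (.ch (nat_lit 10) (.ev (nat_lit
 528) (nat_lit 627190424408179081224) (.nd (nat_lit 1136) (.br (nat_lit 7) (.br (nat_lit 4) (.br (nat_lit 3)
 (.ch (nat_lit 2) (.ev (nat_lit 1152) (nat_lit 147574515539634028544) (.ev (nat_lit 2192) (nat_lit
 144115188075855872) (.ev (nat_lit 2205) (nat_lit 256) .dd)))) (.ch (nat_lit 3) (.ev (nat_lit 1152) (nat_lit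
 144115188080050432) (.ev (nat_lit 1396) (nat_lit 562949953421312) (.ev (nat_lit 1405) (nat_lit
 147573952589676412928) .dd))))) (.br (nat_lit 6) (.ch (nat_lit 4) (.ev (nat_lit 1152) (nat_lit
 147718067777752268800) (.ev (nat_lit 1712) (nat_lit 256) (.ev (nat_lit 2164) (nat_lit 562949953421312) (.ev
 (nat_lit 2173) (nat_lit 4194304) .dd))))) (.ch (nat_lit 6) (.ev (nat_lit 1152) (nat_lit 144115188080050432)
 (.ev (nat_lit 1572) (nat_lit 147573952589676412928) (.ev (nat_lit 1581) (nat_lit 562949953421312) .dd))))))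
 (.br (nat_lit 12) (.br (nat_lit 11) (.ch (nat_lit 7) (.ev (nat_lit 1152) (nat_lit 147574515539629834496) (.ev
 (nat_lit 1172) (nat_lit 144115188075855872) (.ev (nat_lit 1181) (nat_lit 4194304) .dd)))) (.ch (nat_lit 11)
 (.ev (nat_lit 1152) (nat_lit 147573952589680607488) (.ev (nat_lit 1172) (nat_lit 144115188075855872) (.ev
 (nat_lit 1181) (nat_lit 562949953421312) .dd))))) (.br (nat_lit 14) (.ch (nat_lit 12) (.ev (nat_lit 1152)
 (nat_lit 144678138033471488) (.ev (nat_lit 1172) (nat_lit 256) (.ev (nat_lit 1181) (nat_lit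
 147573952589676412928) .dd)))) (.ch (nat_lit 14) (.ev (nat_lit 1152) (nat_lit 147718630727705690112) (.ev
 (nat_lit 1172) (nat_lit 4194304) (.ev (nat_lit 1181) (nat_lit 256) .dd)))))))))) (.br (nat_lit 13) (.ch
 (nat_lit 11) (.ev (nat_lit 528) (nat_lit 590439925548933185800) (.ev (nat_lit 2580) (nat_lit 1125899906842624)
 (.nd (nat_lit 3600) (.br (nat_lit 11) (.br (nat_lit 1) (.ch (nat_lit 0) (.ev (nat_lit 3616) (nat_lit
 147573952589676412928) (.ev (nat_lit 3636) (nat_lit 562949953421312) (.ev (nat_lit 3645) (nat_lit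
 36893488147419103232) .dd)))) (.br (nat_lit 8) (.ch (nat_lit 1) (.ev (nat_lit 3616) (nat_lit
 36894051097372524544) (.ev (nat_lit 3629) (nat_lit 147573952589676412928) .dd))) (.ch (nat_lit 8) (.ev
 (nat_lit 3616) (nat_lit 36894051097372524544) (.ev (nat_lit 3629) (nat_lit 147573952589676412928) .dd)))))
 (.br (nat_lit 13) (.ch (nat_lit 11) (.ev (nat_lit 3616) (nat_lit 562949953421312) (.ev (nat_lit 3636) (nat_lit
 36893488147419103232) (.ev (nat_lit 3645) (nat_lit 147573952589676412928) .dd)))) (.br (nat_lit 15) (.ch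
 (nat_lit 13) (.ev (nat_lit 3616) (nat_lit 147574515539629834240) (.ev (nat_lit 3629) (nat_lit
 36893488147419103232) .dd))) (.ch (nat_lit 15) (.ev (nat_lit 3616) (nat_lit 562949953421312) (.fin (nat_lit
 576131449346277927))))))))))) (.ch (nat_lit 13) (.ev (nat_lit 528) (nat_lit 147575641439536677128) (.nd
 (nat_lit 3200) (.br (nat_lit 13) (.ch (nat_lit 7) (.ev (nat_lit 3216) (nat_lit 590439925548928991232) (.nd
 (nat_lit 4880) (.br (nat_lit 6) (.ch (nat_lit 2) (.ev (nat_lit 4896) (nat_lit 36893488147423297536) .dd)) (.ch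
 (nat_lit 6) (.fin (nat_lit 576470098131763796))))))) (.br (nat_lit 15) (.ch (nat_lit 13) (.ev (nat_lit 3216)
 (nat_lit 590295810358705651712) (.ev (nat_lit 3236) (nat_lit 36893488147419103232) (.nd (nat_lit 4912) (.br
 (nat_lit 8) (.ch (nat_lit 1) (.ev (nat_lit 4928) (nat_lit 4194304) (.nd (nat_lit 5520) (.br (nat_lit 2) (.ch
 (nat_lit 1) (.fin (nat_lit 576475595711922716))) (.ch (nat_lit 2) (.ev (nat_lit 5536) (nat_lit 2147483648)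
 (.ev (nat_lit 5549) (nat_lit 144115188075855872) .dd))))))) (.ch (nat_lit 8) (.ev (nat_lit 4928) (nat_lit
 144115188075855872) (.fin (nat_lit 576566855190659644))))))))) (.ch (nat_lit 15) (.ev (nat_lit 3216) (nat_lit
 37037603337646637056) (.ev (nat_lit 3229) (nat_lit 590295810358705651712) .dd))))))))))))))) (.ch (nat_lit 5)
 (.ev (nat_lit 48) (nat_lit 4631402746556219656) (.nd (nat_lit 560) (.br (nat_lit 6) (.br (nat_lit 3) (.br
 (nat_lit 1) (.ch (nat_lit 0) (.ev (nat_lit 576) (nat_lit 738016552148736671744) (.ev (nat_lit 2368) (nat_lit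
 16) (.nd (nat_lit 3936) (.ch (nat_lit 2) (.nd (nat_lit 5056) (.ch (nat_lit 14) (.nd (nat_lit 5584) (.br
 (nat_lit 15) (.ch (nat_lit 3) (.fin (nat_lit 576417321623962048))) (.ch (nat_lit 15) (.ev (nat_lit 5600)
 (nat_lit 36893488147486212096) .dd))))))))))) (.ch (nat_lit 1) (.ev (nat_lit 576) (nat_lit
 590298484371051511808) (.ev (nat_lit 2404) (nat_lit 147573952589676412928) (.ev (nat_lit 2852) (nat_lit
 36893488147419103232) (.nd (nat_lit 3808) (.br (nat_lit 9) (.br (nat_lit 2) (.ch (nat_lit 1) (.ev (nat_lit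
 3824) (nat_lit 144115188075855872) (.ev (nat_lit 3837) (nat_lit 16) .dd))) (.br (nat_lit 6) (.ch (nat_lit 2)
 (.fin (nat_lit 576458003518538305))) (.ch (nat_lit 6) (.ev (nat_lit 3824) (nat_lit 144115188075855888) .dd))))
 (.br (nat_lit 10) (.ch (nat_lit 9) (.ev (nat_lit 3824) (nat_lit 16) (.ev (nat_lit 3837) (nat_lit
 144115188075855872) .dd))) (.br (nat_lit 11) (.ch (nat_lit 10) (.ev (nat_lit 3824) (nat_lit
 144115188075855888) .dd)) (.ch (nat_lit 11) (.ev (nat_lit 3824) (nat_lit 144115188075855888) .dd)))))))))))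
 (.br (nat_lit 4) (.ch (nat_lit 3) (.ev (nat_lit 576) (nat_lit 37037744073050423312) (.ev (nat_lit 596)
 (nat_lit 147573952589676412928) (.ev (nat_lit 2852) (nat_lit 2251799813685248) (.ev (nat_lit 3008) (nat_lit
 281474976710656) (.ev (nat_lit 3021) (nat_lit 590295810358705651712) .dd)))))) (.ch (nat_lit 4) (.ev (nat_lit
 576) (nat_lit 737870044423425884176) (.ev (nat_lit 1412) (nat_lit 140737488355328) (.ev (nat_lit 2772)
 (nat_lit 36893488147419103232) (.ev (nat_lit 3268) (nat_lit 144115188075855872) (.ev (nat_lit 3277) (nat_lit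
 2251799813685248) .dd)))))))) (.br (nat_lit 11) (.br (nat_lit 7) (.ch (nat_lit 6) (.ev (nat_lit 576) (nat_lit
 774765925108079919104) (.ev (nat_lit 2932) (nat_lit 16) (.nd (nat_lit 3808) (.br (nat_lit 14) (.ch (nat_lit 0)
 (.fin (nat_lit 576462401625866893))) (.ch (nat_lit 14) (.ev (nat_lit 3824) (nat_lit 67108864) (.ev (nat_lit
 3837) (nat_lit 144115188075855872) .dd)))))))) (.ch (nat_lit 7) (.ev (nat_lit 576) (nat_lit
 590298062158519336976) (.nd (nat_lit 1888) (.br (nat_lit 12) (.br (nat_lit 8) (.ch (nat_lit 2) (.ev (nat_lit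
 1904) (nat_lit 144255925631320064) (.ev (nat_lit 2864) (nat_lit 281474976710656) (.ev (nat_lit 3092) (nat_lit
 36893488147419103232) (.ev (nat_lit 3101) (nat_lit 147573952589676412928) .dd))))) (.br (nat_lit 9) (.ch
 (nat_lit 8) (.ev (nat_lit 1904) (nat_lit 184611978137703546880) .dd)) (.ch (nat_lit 9) (.ev (nat_lit 1904)
 (nat_lit 147574093327231877120) (.ev (nat_lit 1940) (nat_lit 144115188075855872) (.ev (nat_lit 2512) (nat_lit
 281474976710656) (.ev (nat_lit 2525) (nat_lit 36893488147419103232) .dd))))))) (.br (nat_lit 15) (.br (nat_lit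
 14) (.ch (nat_lit 12) (.ev (nat_lit 1904) (nat_lit 147574093327164768256) (.ev (nat_lit 1940) (nat_lit
 144115188075855872) (.ev (nat_lit 1952) (nat_lit 36893488147419103232) (.nd (nat_lit 4608) (.ch (nat_lit 6)
 (.nd (nat_lit 5392) (.br (nat_lit 12) (.ch (nat_lit 2) (.fin (nat_lit 576791156293583811))) (.ch (nat_lit 12)
 (.ev (nat_lit 5412) (nat_lit 67108864) (.ev (nat_lit 5421) (nat_lit 281474976710656) .dd))))))))))) (.ch
 (nat_lit 14) (.ev (nat_lit 1904) (nat_lit 184611978137636438016) (.ev (nat_lit 1917) (nat_lit 67108864)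
 .dd)))) (.br (nat_lit 16) (.ch (nat_lit 15) (.ev (nat_lit 1904) (nat_lit 281475043819520) (.ev (nat_lit 1940)
 (nat_lit 144115188075855872) (.ev (nat_lit 2240) (nat_lit 147573952589676412928) (.ev (nat_lit 2404) (nat_lit
 140737488355328) (.ev (nat_lit 2413) (nat_lit 36893488147419103232) .dd)))))) (.ch (nat_lit 16) (.ev (nat_lit
 1904) (nat_lit 184611837400148082688) (.ev (nat_lit 2176) (nat_lit 140737488355328) (.ev (nat_lit 2189)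
 (nat_lit 67108864) .dd))))))))))) (.br (nat_lit 12) (.ch (nat_lit 11) (.ev (nat_lit 576) (nat_lit
 36896021422276608016) (.ev (nat_lit 2228) (nat_lit 140737488355328) (.nd (nat_lit 3552) (.br (nat_lit 9) (.ch
 (nat_lit 0) (.ev (nat_lit 3568) (nat_lit 737869762948382064640) (.ev (nat_lit 3581) (nat_lit
 144115188075855872) .dd))) (.br (nat_lit 15) (.ch (nat_lit 9) (.ev (nat_lit 3568) (nat_lit 144115188075855872)
 (.fin (nat_lit 576468998632718909)))) (.ch (nat_lit 15) (.ev (nat_lit 3568) (nat_lit 590295810358705651712)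
 (.ev (nat_lit 3588) (nat_lit 144115188075855872) (.ev (nat_lit 3597) (nat_lit 147573952589676412928)
 .dd)))))))))) (.br (nat_lit 15) (.ch (nat_lit 12) (.ev (nat_lit 576) (nat_lit 184611696662659727376) (.nd
 (nat_lit 960) (.br (nat_lit 8) (.br (nat_lit 5) (.br (nat_lit 4) (.ch (nat_lit 0) (.ev (nat_lit 976) (nat_lit
 590298062158586445824) (.ev (nat_lit 989) (nat_lit 281474976710656) .dd))) (.ch (nat_lit 4) (.ev (nat_lit 976)
 (nat_lit 590296091833749471232) (.ev (nat_lit 989) (nat_lit 2251799813685248) .dd)))) (.br (nat_lit 6) (.ch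
 (nat_lit 5) (.ev (nat_lit 976) (nat_lit 590298343633496047616) (.ev (nat_lit 989) (nat_lit 67108864) .dd)))
 (.ch (nat_lit 6) (.ev (nat_lit 976) (nat_lit 2251799880794112) (.ev (nat_lit 1700) (nat_lit 281474976710656)
 (.ev (nat_lit 1709) (nat_lit 590295810358705651712) .dd)))))) (.br (nat_lit 11) (.br (nat_lit 10) (.ch
 (nat_lit 8) (.ev (nat_lit 976) (nat_lit 281474976710656) (.ev (nat_lit 1012) (nat_lit 2251799813685248) (.ev
 (nat_lit 1524) (nat_lit 590295810358705651712) (.ev (nat_lit 1533) (nat_lit 67108864) .dd))))) (.ch (nat_lit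
 10) (.ev (nat_lit 976) (nat_lit 67108864) (.ev (nat_lit 1572) (nat_lit 2251799813685248) (.ev (nat_lit 2340)
 (nat_lit 281474976710656) (.ev (nat_lit 2349) (nat_lit 590295810358705651712) .dd)))))) (.br (nat_lit 12) (.ch
 (nat_lit 11) (.ev (nat_lit 976) (nat_lit 590296091833749471232) (.ev (nat_lit 989) (nat_lit 2251799813685248)
 .dd))) (.br (nat_lit 15) (.ch (nat_lit 12) (.ev (nat_lit 976) (nat_lit 2533274857504768) (.ev (nat_lit 989)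
 (nat_lit 590295810358705651712) .dd))) (.ch (nat_lit 15) (.ev (nat_lit 976) (nat_lit 590298062158586445824)
 (.ev (nat_lit 989) (nat_lit 281474976710656) .dd)))))))))) (.ch (nat_lit 15) (.ev (nat_lit 576) (nat_lit
 590442318084150657024) (.ev (nat_lit 1812) (nat_lit 36893488147419103232) (.nd (nat_lit 3504) (.br (nat_lit 8)
 (.br (nat_lit 5) (.ch (nat_lit 0) (.ev (nat_lit 3520) (nat_lit 281474976710672) (.ev (nat_lit 3533) (nat_lit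
 147573952589676412928) .dd))) (.br (nat_lit 7) (.ch (nat_lit 5) (.ev (nat_lit 3520) (nat_lit 281474976710656)
 (.ev (nat_lit 3540) (nat_lit 16) (.ev (nat_lit 3549) (nat_lit 147573952589676412928) .dd)))) (.ch (nat_lit 7)
 (.ev (nat_lit 3520) (nat_lit 281474976710672) (.ev (nat_lit 3533) (nat_lit 147573952589676412928) .dd)))))
 (.br (nat_lit 12) (.ch (nat_lit 8) (.ev (nat_lit 3520) (nat_lit 147573952589676412944) (.ev (nat_lit 3533)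
 (nat_lit 281474976710656) .dd))) (.br (nat_lit 16) (.ch (nat_lit 12) (.ev (nat_lit 3520) (nat_lit 16) (.fin
 (nat_lit 576379938121663303)))) (.ch (nat_lit 16) (.ev (nat_lit 3520) (nat_lit 147573952589676412928) (.nd
 (nat_lit 5024) (.br (nat_lit 16) (.ch (nat_lit 13) (.fin (nat_lit 576462401603846728))) (.ch (nat_lit 16) (.ev
 (nat_lit 5040) (nat_lit 281474976710656) (.ev (nat_lit 5053) (nat_lit 16) .dd))))))))))))))))))))))) (.br
 (nat_lit 12) (.br (nat_lit 11) (.ch (nat_lit 8) (.ev (nat_lit 48) (nat_lit 627336241923793879048) (.nd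
 (nat_lit 480) (.br (nat_lit 10) (.br (nat_lit 5) (.br (nat_lit 4) (.ch (nat_lit 1) (.ev (nat_lit 496) (nat_lit
 4629981891913613568) (.ev (nat_lit 1812) (nat_lit 1125899906842624) (.nd (nat_lit 3376) (.br (nat_lit 11) (.br
 (nat_lit 4) (.ch (nat_lit 3) (.ev (nat_lit 3392) (nat_lit 147573952589676412944) (.ev (nat_lit 3405) (nat_lit
 140737488355328) .dd))) (.br (nat_lit 6) (.ch (nat_lit 4) (.ev (nat_lit 3392) (nat_lit 147574093327164768256)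
 (.ev (nat_lit 3405) (nat_lit 16) .dd))) (.ch (nat_lit 6) (.ev (nat_lit 3392) (nat_lit 140737488355328) (.ev
 (nat_lit 3412) (nat_lit 16) (.ev (nat_lit 3421) (nat_lit 147573952589676412928) .dd)))))) (.br (nat_lit 12)
 (.ch (nat_lit 11) (.ev (nat_lit 3392) (nat_lit 147574093327164768256) (.ev (nat_lit 3405) (nat_lit 16) .dd)))
 (.br (nat_lit 16) (.ch (nat_lit 12) (.ev (nat_lit 3392) (nat_lit 16) (.nd (nat_lit 4624) (.br (nat_lit 10)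
 (.ch (nat_lit 7) (.ev (nat_lit 4640) (nat_lit 140737488355328) (.ev (nat_lit 4653) (nat_lit
 147573952589676412928) .dd))) (.ch (nat_lit 10) (.fin (nat_lit 576460202580591175))))))) (.ch (nat_lit 16)
 (.ev (nat_lit 3392) (nat_lit 147573952589676412928) (.fin (nat_lit 576379938278949103))))))))))) (.ch (nat_lit
 4) (.ev (nat_lit 496) (nat_lit 152187045982987354128) (.ev (nat_lit 1780) (nat_lit 32768) (.ev (nat_lit 2176)
 (nat_lit 18014398509481984) (.ev (nat_lit 2340) (nat_lit 140737488355328) (.ev (nat_lit 2349) (nat_lit 256)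
 .dd))))))) (.br (nat_lit 9) (.ch (nat_lit 5) (.ev (nat_lit 496) (nat_lit 147593233625581125632) (.ev (nat_lit
 2228) (nat_lit 281474976710656) (.nd (nat_lit 3424) (.br (nat_lit 5) (.ch (nat_lit 3) (.ev (nat_lit 3440)
 (nat_lit 272) (.ev (nat_lit 3453) (nat_lit 4611686018427387904) .dd))) (.br (nat_lit 11) (.ch (nat_lit 5) (.ev
 (nat_lit 3440) (nat_lit 256) (.ev (nat_lit 3460) (nat_lit 4611686018427387904) (.ev (nat_lit 3469) (nat_lit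
 16) .dd)))) (.ch (nat_lit 11) (.ev (nat_lit 3440) (nat_lit 4611686018427387904) (.fin (nat_lit
 576468998651593290)))))))))) (.ch (nat_lit 9) (.ev (nat_lit 496) (nat_lit 147573952589676445952) (.ev (nat_lit
 2404) (nat_lit 281474976710656) (.ev (nat_lit 2580) (nat_lit 4611686018427387904) (.ev (nat_lit 3092) (nat_lit
 1125899906842624) (.ev (nat_lit 3364) (nat_lit 16) (.nd (nat_lit 3760) (.br (nat_lit 10) (.br (nat_lit 3) (.ch
 (nat_lit 0) (.nd (nat_lit 4944) (.ch (nat_lit 10) (.nd (nat_lit 5424) (.br (nat_lit 15) (.ch (nat_lit 5) (.ev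
 (nat_lit 5444) (nat_lit 140737488355328) (.ev (nat_lit 5453) (nat_lit 18014398509481984) .dd))) (.ch (nat_lit
 15) (.fin (nat_lit 576791154804605417)))))))) (.br (nat_lit 4) (.ch (nat_lit 3) (.ev (nat_lit 3776) (nat_lit
 18155135997837312) .dd)) (.ch (nat_lit 4) (.ev (nat_lit 3776) (nat_lit 18155135997837312) .dd)))) (.br
 (nat_lit 13) (.ch (nat_lit 10) (.ev (nat_lit 3776) (nat_lit 18155135997837312) .dd)) (.br (nat_lit 15) (.ch
 (nat_lit 13) (.ev (nat_lit 3776) (nat_lit 140737488355328) (.ev (nat_lit 3789) (nat_lit 18014398509481984)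
 .dd))) (.ch (nat_lit 15) (.ev (nat_lit 3776) (nat_lit 140737488355328) (.ev (nat_lit 3789) (nat_lit
 18014398509481984) .dd))))))))))))))) (.br (nat_lit 13) (.br (nat_lit 12) (.ch (nat_lit 10) (.ev (nat_lit 496)
 (nat_lit 1548112371941648) (.nd (nat_lit 1648) (.br (nat_lit 11) (.br (nat_lit 7) (.ch (nat_lit 2) (.ev
 (nat_lit 1664) (nat_lit 147573952589676412928) (.ev (nat_lit 1984) (nat_lit 4611686018427387904) (.ev (nat_lit
 1997) (nat_lit 18014398509481984) .dd)))) (.br (nat_lit 10) (.ch (nat_lit 7) (.ev (nat_lit 1664) (nat_lit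
 147591966988185894912) (.ev (nat_lit 1677) (nat_lit 4611686018427387904) .dd))) (.ch (nat_lit 10) (.ev
 (nat_lit 1664) (nat_lit 147573952589676412928) (.fin (nat_lit 576462401518911988)))))) (.br (nat_lit 12) (.ch
 (nat_lit 11) (.ev (nat_lit 1664) (nat_lit 152185638608103800832) (.ev (nat_lit 1677) (nat_lit
 18014398509481984) .dd))) (.br (nat_lit 13) (.ch (nat_lit 12) (.ev (nat_lit 1664) (nat_lit
 4629700416936869888) (.ev (nat_lit 1677) (nat_lit 147573952589676412928) .dd))) (.ch (nat_lit 13) (.ev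
 (nat_lit 1664) (nat_lit 18014398509481984) (.ev (nat_lit 1700) (nat_lit 4611686018427387904) (.ev (nat_lit
 1709) (nat_lit 147573952589676412928) .dd)))))))))) (.ch (nat_lit 12) (.ev (nat_lit 496) (nat_lit
 147592107725674250512) (.nd (nat_lit 1136) (.br (nat_lit 9) (.br (nat_lit 6) (.br (nat_lit 5) (.ch (nat_lit 2)
 (.ev (nat_lit 1152) (nat_lit 1125899906875392) (.ev (nat_lit 1396) (nat_lit 281474976710656) (.ev (nat_lit
 1405) (nat_lit 4611686018427387904) .dd)))) (.ch (nat_lit 5) (.ev (nat_lit 1152) (nat_lit 4613093393310973952)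
 .dd))) (.br (nat_lit 8) (.ch (nat_lit 6) (.ev (nat_lit 1152) (nat_lit 1407374883553280) (.ev (nat_lit 1204)
 (nat_lit 32768) (.ev (nat_lit 1213) (nat_lit 4611686018427387904) .dd)))) (.ch (nat_lit 8) (.ev (nat_lit 1152)
 (nat_lit 281474976743424) (.ev (nat_lit 2308) (nat_lit 1125899906842624) (.ev (nat_lit 2317) (nat_lit
 4611686018427387904) .dd)))))) (.br (nat_lit 14) (.br (nat_lit 11) (.ch (nat_lit 9) (.ev (nat_lit 1152)
 (nat_lit 4611686018427420672) (.ev (nat_lit 1396) (nat_lit 281474976710656) (.ev (nat_lit 1405) (nat_lit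
 1125899906842624) .dd)))) (.ch (nat_lit 11) (.ev (nat_lit 1152) (nat_lit 281474976743424) (.ev (nat_lit 1172)
 (nat_lit 1125899906842624) (.ev (nat_lit 1181) (nat_lit 4611686018427387904) .dd))))) (.br (nat_lit 15) (.ch
 (nat_lit 14) (.ev (nat_lit 1152) (nat_lit 4613093393310941184) (.ev (nat_lit 1165) (nat_lit 32768) .dd))) (.ch
 (nat_lit 15) (.ev (nat_lit 1152) (nat_lit 1407374883553280) (.ev (nat_lit 1172) (nat_lit 32768) (.ev (nat_lit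
 1181) (nat_lit 4611686018427387904) .dd))))))))))) (.br (nat_lit 15) (.ch (nat_lit 13) (.ev (nat_lit 496)
 (nat_lit 152205060381496836096) (.ev (nat_lit 548) (nat_lit 16) (.ev (nat_lit 2852) (nat_lit 32768) (.ev
 (nat_lit 3008) (nat_lit 140737488355328) (.ev (nat_lit 3021) (nat_lit 256) .dd)))))) (.br (nat_lit 16) (.ch
 (nat_lit 15) (.ev (nat_lit 496) (nat_lit 18436610974580992) (.nd (nat_lit 1312) (.br (nat_lit 8) (.br (nat_lit
 6) (.br (nat_lit 4) (.ch (nat_lit 0) (.ev (nat_lit 1328) (nat_lit 152185638608103800832) (.ev (nat_lit 1360)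
 (nat_lit 16) (.ev (nat_lit 1373) (nat_lit 1125899906842624) .dd)))) (.ch (nat_lit 4) (.ev (nat_lit 1328)
 (nat_lit 147575078489583255568) (.ev (nat_lit 1341) (nat_lit 4611686018427387904) .dd)))) (.br (nat_lit 7)
 (.ch (nat_lit 6) (.ev (nat_lit 1328) (nat_lit 152186764508010643472) .dd)) (.ch (nat_lit 7) (.ev (nat_lit
 1348) (nat_lit 147573952589676412928) (.ev (nat_lit 1972) (nat_lit 16) (.ev (nat_lit 2404) (nat_lit
 4611686018427387904) (.ev (nat_lit 2413) (nat_lit 1125899906842624) .dd))))))) (.br (nat_lit 11) (.br (nat_lit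
 9) (.ch (nat_lit 8) (.ev (nat_lit 1328) (nat_lit 147573952589676412944) (.ev (nat_lit 1844) (nat_lit
 4611686018427387904) (.ev (nat_lit 1853) (nat_lit 1125899906842624) .dd)))) (.ch (nat_lit 9) (.ev (nat_lit
 1328) (nat_lit 152186764508010643472) .dd))) (.br (nat_lit 15) (.ch (nat_lit 11) (.ev (nat_lit 1328) (nat_lit
 152185638608103800848) (.ev (nat_lit 1341) (nat_lit 1125899906842624) .dd))) (.br (nat_lit 16) (.ch (nat_lit
 15) (.ev (nat_lit 1328) (nat_lit 1125899906842624) (.ev (nat_lit 2404) (nat_lit 16) (.fin (nat_lit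
 576458003533218364))))) (.ch (nat_lit 16) (.ev (nat_lit 1328) (nat_lit 4612811918334230544) (.ev (nat_lit
 1341) (nat_lit 147573952589676412928) .dd)))))))))) (.ch (nat_lit 16) (.ev (nat_lit 496) (nat_lit
 4612108230892486928) (.nd (nat_lit 848) (.br (nat_lit 7) (.br (nat_lit 4) (.ch (nat_lit 2) (.ev (nat_lit 864)
 (nat_lit 147573952589676412928) (.ev (nat_lit 912) (nat_lit 1125899906842624) (.ev (nat_lit 925) (nat_lit
 18014398509481984) .dd)))) (.br (nat_lit 5) (.ch (nat_lit 4) (.ev (nat_lit 864) (nat_lit 19140298416324608)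
 (.ev (nat_lit 877) (nat_lit 147573952589676412928) .dd))) (.ch (nat_lit 5) (.ev (nat_lit 864) (nat_lit
 19140298416324608) (.ev (nat_lit 877) (nat_lit 147573952589676412928) .dd))))) (.br (nat_lit 14) (.br (nat_lit
 13) (.ch (nat_lit 7) (.ev (nat_lit 864) (nat_lit 18014398509481984) (.ev (nat_lit 2368) (nat_lit
 147575078489583255552) .dd))) (.ch (nat_lit 13) (.ev (nat_lit 864) (nat_lit 147573952589676412928) (.nd
 (nat_lit 4448) (.ch (nat_lit 16) (.nd (nat_lit 5456) (.br (nat_lit 13) (.ch (nat_lit 8) (.fin (nat_lit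
 576417321567339160))) (.ch (nat_lit 13) (.ev (nat_lit 5472) (nat_lit 19140298416324608) .dd))))))))) (.br
 (nat_lit 15) (.ch (nat_lit 14) (.ev (nat_lit 864) (nat_lit 147591966988185894912) (.ev (nat_lit 877) (nat_lit
 1125899906842624) .dd))) (.ch (nat_lit 15) (.ev (nat_lit 864) (nat_lit 147575078489583255552) (.ev (nat_lit
 877) (nat_lit 18014398509481984) .dd)))))))))))))))) (.ch (nat_lit 11) (.ev (nat_lit 48) (nat_lit
 147739319140712742920) (.nd (nat_lit 512) (.br (nat_lit 8) (.br (nat_lit 2) (.br (nat_lit 1) (.ch (nat_lit 0)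
 (.ev (nat_lit 528) (nat_lit 590296945338173358352) (.ev (nat_lit 2724) (nat_lit 4398046511104) (.ev (nat_lit
 2852) (nat_lit 4611686018427387904) (.ev (nat_lit 2861) (nat_lit 36893488147419103232) .dd))))) (.ch (nat_lit
 1) (.ev (nat_lit 528) (nat_lit 41506300074343268624) (.nd (nat_lit 960) (.br (nat_lit 11) (.br (nat_lit 2)
 (.br (nat_lit 1) (.ch (nat_lit 0) (.ev (nat_lit 976) (nat_lit 590295815031630069760) (.ev (nat_lit 989)
 (nat_lit 8796093022208) .dd))) (.ch (nat_lit 1) (.ev (nat_lit 976) (nat_lit 590295815031630069760) (.ev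
 (nat_lit 989) (nat_lit 8796093022208) .dd)))) (.br (nat_lit 7) (.ch (nat_lit 2) (.ev (nat_lit 976) (nat_lit
 590295823827723091968) .dd)) (.ch (nat_lit 7) (.ev (nat_lit 976) (nat_lit 8796093022208) (.ev (nat_lit 1536)
 (nat_lit 4398046511104) (.ev (nat_lit 2432) (nat_lit 590295810633583558656) .dd)))))) (.br (nat_lit 13) (.br
 (nat_lit 12) (.ch (nat_lit 11) (.ev (nat_lit 976) (nat_lit 590295815031630069760) (.ev (nat_lit 989) (nat_lit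
 8796093022208) .dd))) (.ch (nat_lit 12) (.ev (nat_lit 976) (nat_lit 590295814756752162816) (.ev (nat_lit 3136)
 (nat_lit 9070970929152) .dd)))) (.br (nat_lit 15) (.ch (nat_lit 13) (.ev (nat_lit 976) (nat_lit
 590295823552845185024) (.ev (nat_lit 989) (nat_lit 274877906944) .dd))) (.br (nat_lit 16) (.ch (nat_lit 15)
 (.ev (nat_lit 976) (nat_lit 9070970929152) (.ev (nat_lit 2176) (nat_lit 590295814756752162816) .dd))) (.ch
 (nat_lit 16) (.ev (nat_lit 976) (nat_lit 4398046511104) (.ev (nat_lit 1792) (nat_lit 590295810358705651712)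
 (.ev (nat_lit 3268) (nat_lit 8796093022208) (.ev (nat_lit 3277) (nat_lit 274877906944) .dd))))))))))))) (.br
 (nat_lit 3) (.ch (nat_lit 2) (.ev (nat_lit 528) (nat_lit 4681514352896) (.nd (nat_lit 1312) (.br (nat_lit 9)
 (.br (nat_lit 7) (.br (nat_lit 4) (.ch (nat_lit 1) (.ev (nat_lit 1328) (nat_lit 36894622843418968064) (.ev
 (nat_lit 1972) (nat_lit 16) (.ev (nat_lit 2592) (nat_lit 590295810358705651712) (.ev (nat_lit 2605) (nat_lit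
 4611686018427387904) .dd))))) (.ch (nat_lit 4) (.ev (nat_lit 1348) (nat_lit 8796093022208) (.ev (nat_lit 1940)
 (nat_lit 16) (.ev (nat_lit 1972) (nat_lit 36893488147419103232) (.ev (nat_lit 2432) (nat_lit
 590295810358705651712) (.ev (nat_lit 2884) (nat_lit 4611686018427387904) (.ev (nat_lit 2893) (nat_lit
 1125899906842624) .dd)))))))) (.br (nat_lit 8) (.ch (nat_lit 7) (.ev (nat_lit 1328) (nat_lit
 627190424406031597584) (.fin (nat_lit 575781803874795345)))) (.ch (nat_lit 8) (.ev (nat_lit 1328) (nat_lit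
 631800984524552142848) (.ev (nat_lit 1348) (nat_lit 8796093022208) (.ev (nat_lit 1360) (nat_lit
 1125899906842624) (.ev (nat_lit 1373) (nat_lit 16) .dd))))))) (.br (nat_lit 13) (.br (nat_lit 11) (.ch
 (nat_lit 9) (.ev (nat_lit 1328) (nat_lit 41506308861846355968) (.ev (nat_lit 1972) (nat_lit 16) (.ev (nat_lit
 1981) (nat_lit 590295810358705651712) .dd)))) (.ch (nat_lit 11) (.ev (nat_lit 1328) (nat_lit 1125899906842640)
 (.ev (nat_lit 1348) (nat_lit 8796093022208) (.ev (nat_lit 1700) (nat_lit 4611686018427387904) (.ev (nat_lit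
 2672) (nat_lit 590295810358705651712) (.ev (nat_lit 2685) (nat_lit 36893488147419103232) .dd))))))) (.br
 (nat_lit 14) (.ch (nat_lit 13) (.ev (nat_lit 1328) (nat_lit 627190433202124619792) (.ev (nat_lit 1341)
 (nat_lit 4611686018427387904) .dd))) (.br (nat_lit 15) (.ch (nat_lit 14) (.ev (nat_lit 1328) (nat_lit
 594907505173226061840) (.ev (nat_lit 2416) (nat_lit 1125899906842624) (.ev (nat_lit 2429) (nat_lit
 36893488147419103232) .dd)))) (.ch (nat_lit 15) (.ev (nat_lit 1328) (nat_lit 41506300065753333776) (.ev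
 (nat_lit 1456) (nat_lit 8796093022208) (.ev (nat_lit 1469) (nat_lit 590295810358705651712) .dd))))))))))) (.ch
 (nat_lit 3) (.ev (nat_lit 528) (nat_lit 631800984799430049792) (.nd (nat_lit 848) (.br (nat_lit 6) (.br
 (nat_lit 3) (.br (nat_lit 1) (.ch (nat_lit 0) (.ev (nat_lit 864) (nat_lit 1130297953353744) (.ev (nat_lit 884)
 (nat_lit 8796093022208) (.fin (nat_lit 576458003523781182))))) (.ch (nat_lit 1) (.ev (nat_lit 864) (nat_lit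
 1125899906842896) (.ev (nat_lit 1572) (nat_lit 8589934592) (.fin (nat_lit 576455804498428502)))))) (.br
 (nat_lit 4) (.ch (nat_lit 3) (.ev (nat_lit 864) (nat_lit 1139094046376192) (.ev (nat_lit 1780) (nat_lit 16)
 (.ev (nat_lit 1789) (nat_lit 8589934592) .dd)))) (.ch (nat_lit 4) (.ev (nat_lit 864) (nat_lit 13202729468160)
 (.ev (nat_lit 1300) (nat_lit 16) (.ev (nat_lit 1309) (nat_lit 1125899906842624) .dd)))))) (.br (nat_lit 8)
 (.br (nat_lit 7) (.ch (nat_lit 6) (.ev (nat_lit 864) (nat_lit 1130306543288592) (.ev (nat_lit 877) (nat_lit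
 8796093022208) .dd))) (.ch (nat_lit 7) (.ev (nat_lit 864) (nat_lit 1134704589799440) (.ev (nat_lit 1812)
 (nat_lit 256) (.ev (nat_lit 1821) (nat_lit 4398046511104) .dd))))) (.br (nat_lit 12) (.ch (nat_lit 8) (.ev
 (nat_lit 864) (nat_lit 13202729467920) (.ev (nat_lit 1536) (nat_lit 256) (.ev (nat_lit 1549) (nat_lit
 1125899906842624) .dd)))) (.br (nat_lit 16) (.ch (nat_lit 12) (.ev (nat_lit 864) (nat_lit 1125908496777472)
 (.ev (nat_lit 1732) (nat_lit 16) (.ev (nat_lit 1844) (nat_lit 8796093022208) (.ev (nat_lit 1853) (nat_lit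
 4398046511104) .dd))))) (.ch (nat_lit 16) (.ev (nat_lit 864) (nat_lit 13202729468160) (.ev (nat_lit 1012)
 (nat_lit 16) (.ev (nat_lit 1021) (nat_lit 1125899906842624) .dd))))))))))))) (.br (nat_lit 11) (.br (nat_lit
 10) (.ch (nat_lit 8) (.ev (nat_lit 528) (nat_lit 627189302912761200656) (.nd (nat_lit 1312) (.br (nat_lit 9)
 (.br (nat_lit 5) (.br (nat_lit 1) (.ch (nat_lit 0) (.ev (nat_lit 1328) (nat_lit 9070970929408) (.ev (nat_lit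
 2772) (nat_lit 1125899906842624) (.ev (nat_lit 2781) (nat_lit 4611686018427387904) .dd)))) (.ch (nat_lit 1)
 (.ev (nat_lit 1328) (nat_lit 256) (.ev (nat_lit 2884) (nat_lit 1125899906842624) (.nd (nat_lit 4128) (.br
 (nat_lit 16) (.ch (nat_lit 6) (.ev (nat_lit 4144) (nat_lit 274877906944) (.nd (nat_lit 5200) (.br (nat_lit 3)
 (.ch (nat_lit 2) (.ev (nat_lit 5216) (nat_lit 8796093022208) (.ev (nat_lit 5229) (nat_lit 4611686018427387904)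
 .dd))) (.ch (nat_lit 3) (.fin (nat_lit 576475595711922801))))))) (.ch (nat_lit 16) (.ev (nat_lit 4144)
 (nat_lit 4611686018427387904) (.fin (nat_lit 576566855163396772)))))))))) (.br (nat_lit 7) (.ch (nat_lit 5)
 (.ev (nat_lit 1328) (nat_lit 4612812193212137728) (.ev (nat_lit 1341) (nat_lit 8796093022208) .dd))) (.ch
 (nat_lit 7) (.ev (nat_lit 1328) (nat_lit 4611686018427388160) (.ev (nat_lit 1348) (nat_lit 8796093022208) (.nd
 (nat_lit 4256) (.br (nat_lit 16) (.ch (nat_lit 3) (.ev (nat_lit 4272) (nat_lit 1126174784749568) .dd)) (.ch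
 (nat_lit 16) (.fin (nat_lit 576452505945719372)))))))))) (.br (nat_lit 12) (.br (nat_lit 10) (.ch (nat_lit 9)
 (.ev (nat_lit 1328) (nat_lit 4612812193212137728) (.ev (nat_lit 1341) (nat_lit 8796093022208) .dd))) (.ch
 (nat_lit 10) (.ev (nat_lit 1328) (nat_lit 4612820714427252992) (.ev (nat_lit 1341) (nat_lit 274877906944)
 .dd)))) (.br (nat_lit 14) (.ch (nat_lit 12) (.ev (nat_lit 1328) (nat_lit 4611695089398317312) (.ev (nat_lit
 1341) (nat_lit 1125899906842624) .dd))) (.br (nat_lit 16) (.ch (nat_lit 14) (.ev (nat_lit 1328) (nat_lit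
 4612820714427252736) (.ev (nat_lit 2772) (nat_lit 274877906944) (.ev (nat_lit 2781) (nat_lit 256) .dd)))) (.ch
 (nat_lit 16) (.ev (nat_lit 1328) (nat_lit 1134970877771776) (.ev (nat_lit 2656) (nat_lit 4611686018427387904)
 (.ev (nat_lit 2669) (nat_lit 256) .dd))))))))))) (.ch (nat_lit 10) (.ev (nat_lit 528) (nat_lit
 594907509846150480128) (.ev (nat_lit 2580) (nat_lit 36893488147419103232) (.nd (nat_lit 3600) (.br (nat_lit 6)
 (.br (nat_lit 2) (.ch (nat_lit 1) (.ev (nat_lit 3616) (nat_lit 1125908496777216) (.ev (nat_lit 3629) (nat_lit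
 16) .dd))) (.br (nat_lit 4) (.ch (nat_lit 2) (.ev (nat_lit 3616) (nat_lit 16) (.ev (nat_lit 3636) (nat_lit
 8589934592) (.ev (nat_lit 3645) (nat_lit 1125899906842624) .dd)))) (.ch (nat_lit 4) (.ev (nat_lit 3616)
 (nat_lit 8589934592) (.fin (nat_lit 576131447798579501)))))) (.br (nat_lit 8) (.ch (nat_lit 6) (.ev (nat_lit
 3616) (nat_lit 8589934608) (.ev (nat_lit 3629) (nat_lit 1125899906842624) .dd))) (.br (nat_lit 11) (.ch
 (nat_lit 8) (.ev (nat_lit 3616) (nat_lit 8589934592) (.ev (nat_lit 3636) (nat_lit 16) (.ev (nat_lit 3645)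
 (nat_lit 1125899906842624) .dd)))) (.ch (nat_lit 11) (.ev (nat_lit 3616) (nat_lit 1125908496777216) (.ev
 (nat_lit 3629) (nat_lit 16) .dd))))))))))) (.br (nat_lit 15) (.ch (nat_lit 11) (.ev (nat_lit 528) (nat_lit
 36894627241465479424) (.nd (nat_lit 1648) (.br (nat_lit 9) (.br (nat_lit 6) (.br (nat_lit 2) (.ch (nat_lit 1)
 (.ev (nat_lit 1664) (nat_lit 4611686301895229440) (.ev (nat_lit 1700) (nat_lit 16) (.ev (nat_lit 1709)
 (nat_lit 590295810358705651712) .dd)))) (.ch (nat_lit 2) (.ev (nat_lit 1664) (nat_lit 590295810633583558672)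
 (.ev (nat_lit 1700) (nat_lit 4611686018427387904) (.ev (nat_lit 1709) (nat_lit 8589934592) .dd))))) (.br
 (nat_lit 7) (.ch (nat_lit 6) (.ev (nat_lit 1664) (nat_lit 590295810367295586320) (.ev (nat_lit 1700) (nat_lit
 4611686018427387904) (.ev (nat_lit 1709) (nat_lit 274877906944) .dd)))) (.ch (nat_lit 7) (.ev (nat_lit 1664)
 (nat_lit 594907496652010946560) (.ev (nat_lit 1680) (nat_lit 16) (.ev (nat_lit 1693) (nat_lit 8589934592)
 .dd)))))) (.br (nat_lit 11) (.br (nat_lit 10) (.ch (nat_lit 9) (.ev (nat_lit 1664) (nat_lit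
 4611686018427387920) (.ev (nat_lit 1712) (nat_lit 590295810358705651712) (.ev (nat_lit 2164) (nat_lit
 8589934592) (.ev (nat_lit 2173) (nat_lit 274877906944) .dd))))) (.ch (nat_lit 10) (.ev (nat_lit 1664) (nat_lit
 594907496660600881152) (.ev (nat_lit 1677) (nat_lit 16) .dd)))) (.br (nat_lit 16) (.ch (nat_lit 11) (.ev
 (nat_lit 1664) (nat_lit 283467841552) (.ev (nat_lit 2192) (nat_lit 4611686018427387904) (.ev (nat_lit 2205)
 (nat_lit 590295810358705651712) .dd)))) (.ch (nat_lit 16) (.ev (nat_lit 1664) (nat_lit 4611686027017322512)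
 (.ev (nat_lit 1700) (nat_lit 274877906944) (.ev (nat_lit 1709) (nat_lit 590295810358705651712) .dd))))))))))
 (.br (nat_lit 16) (.ch (nat_lit 15) (.ev (nat_lit 528) (nat_lit 631800998002159517968) (.ev (nat_lit 541)
 (nat_lit 1125899906842624) .dd))) (.ch (nat_lit 16) (.ev (nat_lit 528) (nat_lit 4612820997895094272) (.nd
 (nat_lit 1312) (.br (nat_lit 6) (.br (nat_lit 1) (.ch (nat_lit 0) (.ev (nat_lit 1328) (nat_lit
 590295814756752163088) (.ev (nat_lit 1341) (nat_lit 36893488147419103232) .dd))) (.br (nat_lit 4) (.ch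
 (nat_lit 1) (.ev (nat_lit 1328) (nat_lit 627189298506124754960) (.ev (nat_lit 1732) (nat_lit 256) (.ev
 (nat_lit 1741) (nat_lit 4398046511104) .dd)))) (.ch (nat_lit 4) (.ev (nat_lit 1328) (nat_lit
 36893492545465614592) (.ev (nat_lit 1348) (nat_lit 16) (.ev (nat_lit 1357) (nat_lit 590295810358705651712)
 .dd)))))) (.br (nat_lit 8) (.br (nat_lit 7) (.ch (nat_lit 6) (.ev (nat_lit 1328) (nat_lit
 36893488147419103248) (.ev (nat_lit 1616) (nat_lit 4398046511104) (.ev (nat_lit 2080) (nat_lit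
 590295810358705651968) .dd)))) (.ch (nat_lit 7) (.ev (nat_lit 1328) (nat_lit 36893488147419103232) (.ev
 (nat_lit 1396) (nat_lit 16) (.ev (nat_lit 1700) (nat_lit 256) (.ev (nat_lit 3716) (nat_lit
 590295810358705651712) (.ev (nat_lit 3725) (nat_lit 4398046511104) .dd))))))) (.br (nat_lit 14) (.ch (nat_lit
 8) (.ev (nat_lit 1328) (nat_lit 590295814756752163072) (.ev (nat_lit 2340) (nat_lit 16) (.ev (nat_lit 2349)
 (nat_lit 36893488147419103232) .dd)))) (.ch (nat_lit 14) (.ev (nat_lit 1328) (nat_lit 590295814756752162832)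
 (.ev (nat_lit 1360) (nat_lit 36893488147419103232) (.ev (nat_lit 1373) (nat_lit 256) .dd))))))))))))))))))
 (.br (nat_lit 13) (.ch (nat_lit 12) (.ev (nat_lit 48) (nat_lit 779519901400163189016) (.nd (nat_lit 432) (.br
 (nat_lit 7) (.br (nat_lit 4) (.br (nat_lit 3) (.ch (nat_lit 0) (.ev (nat_lit 448) (nat_lit 67108864) (.nd
 (nat_lit 1040) (.br (nat_lit 8) (.br (nat_lit 3) (.br (nat_lit 2) (.ch (nat_lit 0) (.ev (nat_lit 1056)
 (nat_lit 8806830440448) (.ev (nat_lit 1076) (nat_lit 140737488355328) (.ev (nat_lit 1572) (nat_lit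
 2251799813685248) (.ev (nat_lit 2628) (nat_lit 18014398509481984) (.ev (nat_lit 2637) (nat_lit
 1125899906842624) .dd)))))) (.ch (nat_lit 2) (.ev (nat_lit 1056) (nat_lit 20415731904544768) (.ev (nat_lit
 1076) (nat_lit 1125899906842624) (.ev (nat_lit 2164) (nat_lit 8589934592) (.ev (nat_lit 2173) (nat_lit
 2147483648) .dd)))))) (.br (nat_lit 4) (.ch (nat_lit 3) (.ev (nat_lit 1056) (nat_lit 20266206913101824) (.ev
 (nat_lit 1076) (nat_lit 1134695999864832) (.ev (nat_lit 1732) (nat_lit 2147483648) (.ev (nat_lit 1741)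
 (nat_lit 140737488355328) .dd))))) (.ch (nat_lit 4) (.ev (nat_lit 1056) (nat_lit 18155138145320960) (.ev
 (nat_lit 2480) (nat_lit 2251799813685248) (.ev (nat_lit 2644) (nat_lit 8796093022208) (.ev (nat_lit 3700)
 (nat_lit 1125899906842624) (.ev (nat_lit 3709) (nat_lit 8589934592) .dd)))))))) (.br (nat_lit 14) (.br
 (nat_lit 13) (.ch (nat_lit 8) (.ev (nat_lit 1056) (nat_lit 1275442078154752) (.ev (nat_lit 2004) (nat_lit
 2147483648) (.ev (nat_lit 2308) (nat_lit 2251799813685248) (.ev (nat_lit 2317) (nat_lit 18014398509481984)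
 .dd))))) (.ch (nat_lit 13) (.ev (nat_lit 1056) (nat_lit 21400905060450304) (.ev (nat_lit 1069) (nat_lit
 140737488355328) .dd)))) (.br (nat_lit 15) (.ch (nat_lit 14) (.ev (nat_lit 1056) (nat_lit 21532846455783424)
 (.ev (nat_lit 1069) (nat_lit 8796093022208) .dd))) (.br (nat_lit 16) (.ch (nat_lit 15) (.ev (nat_lit 1056)
 (nat_lit 21392100377493504) (.ev (nat_lit 1204) (nat_lit 8589934592) (.fin (nat_lit 576462401625866740)))))
 (.ch (nat_lit 16) (.ev (nat_lit 1056) (nat_lit 3518445798817792) (.ev (nat_lit 1076) (nat_lit 8796093022208)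
 (.ev (nat_lit 2724) (nat_lit 2147483648) (.ev (nat_lit 2733) (nat_lit 18014398509481984) .dd)))))))))))) (.ch
 (nat_lit 3) (.ev (nat_lit 448) (nat_lit 3527244106432512) (.ev (nat_lit 461) (nat_lit 18014398509481984)
 .dd)))) (.br (nat_lit 6) (.ch (nat_lit 4) (.ev (nat_lit 448) (nat_lit 20406937959006208) (.nd (nat_lit 1040)
 (.br (nat_lit 6) (.br (nat_lit 4) (.br (nat_lit 3) (.ch (nat_lit 2) (.ev (nat_lit 1056) (nat_lit
 1125908563886080) (.ev (nat_lit 1069) (nat_lit 8796093022208) .dd))) (.ch (nat_lit 3) (.ev (nat_lit 1056)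
 (nat_lit 1134704589799424) (.ev (nat_lit 1069) (nat_lit 67108864) .dd)))) (.br (nat_lit 5) (.ch (nat_lit 4)
 (.ev (nat_lit 1056) (nat_lit 1134704589799424) (.ev (nat_lit 1069) (nat_lit 67108864) .dd))) (.ch (nat_lit 5)
 (.ev (nat_lit 1056) (nat_lit 67108864) (.ev (nat_lit 1248) (nat_lit 8796093022208) (.ev (nat_lit 2064)
 (nat_lit 8589934592) (.ev (nat_lit 2077) (nat_lit 1125899906842624) .dd))))))) (.br (nat_lit 8) (.br (nat_lit
 7) (.ch (nat_lit 6) (.ev (nat_lit 1056) (nat_lit 1134695999864832) (.ev (nat_lit 2228) (nat_lit 67108864) (.ev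
 (nat_lit 2237) (nat_lit 8589934592) .dd)))) (.ch (nat_lit 7) (.ev (nat_lit 1056) (nat_lit 1134696066973696)
 (.ev (nat_lit 1069) (nat_lit 8589934592) .dd)))) (.br (nat_lit 12) (.ch (nat_lit 8) (.ev (nat_lit 1056)
 (nat_lit 8804750065664) (.ev (nat_lit 1069) (nat_lit 1125899906842624) .dd))) (.br (nat_lit 15) (.ch (nat_lit
 12) (.ev (nat_lit 1056) (nat_lit 8657043456) (.ev (nat_lit 2628) (nat_lit 8796093022208) (.ev (nat_lit 2637)
 (nat_lit 1125899906842624) .dd)))) (.ch (nat_lit 15) (.ev (nat_lit 1056) (nat_lit 8589934592) (.ev (nat_lit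
 1076) (nat_lit 67108864) (.ev (nat_lit 1348) (nat_lit 8796093022208) (.ev (nat_lit 1357) (nat_lit
 1125899906842624) .dd)))))))))))) (.ch (nat_lit 6) (.ev (nat_lit 448) (nat_lit 3527235449389056) (.ev (nat_lit
 468) (nat_lit 18014398509481984) (.ev (nat_lit 2752) (nat_lit 8589934592) (.ev (nat_lit 2765) (nat_lit
 67108864) .dd))))))) (.br (nat_lit 12) (.br (nat_lit 11) (.ch (nat_lit 7) (.ev (nat_lit 448) (nat_lit
 19140298416324608) (.nd (nat_lit 1040) (.br (nat_lit 7) (.br (nat_lit 5) (.br (nat_lit 2) (.ch (nat_lit 1)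
 (.ev (nat_lit 1056) (nat_lit 8798307614720) (.ev (nat_lit 2228) (nat_lit 8589934592) (.fin (nat_lit
 576458003531121220))))) (.ch (nat_lit 2) (.ev (nat_lit 1056) (nat_lit 2401344132481024) (.ev (nat_lit 1069)
 (nat_lit 67108864) .dd)))) (.br (nat_lit 6) (.ch (nat_lit 5) (.ev (nat_lit 1056) (nat_lit 2392548039458816)
 (.ev (nat_lit 1396) (nat_lit 8796093022208) (.ev (nat_lit 1405) (nat_lit 67108864) .dd)))) (.ch (nat_lit 6)
 (.ev (nat_lit 1056) (nat_lit 8657043456) (.ev (nat_lit 1172) (nat_lit 2251799813685248) (.ev (nat_lit 1348)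
 (nat_lit 8796093022208) (.ev (nat_lit 2228) (nat_lit 2147483648) (.ev (nat_lit 2237) (nat_lit 140737488355328)
 .dd)))))))) (.br (nat_lit 13) (.br (nat_lit 11) (.ch (nat_lit 7) (.ev (nat_lit 1056) (nat_lit
 2392545891975168) (.ev (nat_lit 1348) (nat_lit 8796093022208) (.nd (nat_lit 4512) (.br (nat_lit 8) (.ch
 (nat_lit 4) (.ev (nat_lit 4528) (nat_lit 2214592512) .dd)) (.br (nat_lit 10) (.ch (nat_lit 8) (.fin (nat_lit
 576452505956205092))) (.ch (nat_lit 10) (.ev (nat_lit 4528) (nat_lit 67108864) (.ev (nat_lit 4541) (nat_lit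
 2147483648) .dd))))))))) (.ch (nat_lit 11) (.ev (nat_lit 1056) (nat_lit 149535728861184) (.ev (nat_lit 1204)
 (nat_lit 8589934592) (.ev (nat_lit 1572) (nat_lit 67108864) (.ev (nat_lit 1581) (nat_lit 2251799813685248)
 .dd)))))) (.br (nat_lit 14) (.ch (nat_lit 13) (.ev (nat_lit 1056) (nat_lit 2260606711234560) (.ev (nat_lit
 1069) (nat_lit 140737488355328) .dd))) (.br (nat_lit 15) (.ch (nat_lit 14) (.ev (nat_lit 1056) (nat_lit
 2392539516633088) (.ev (nat_lit 2164) (nat_lit 8796093022208) (.ev (nat_lit 2173) (nat_lit 8589934592) .dd))))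
 (.ch (nat_lit 15) (.ev (nat_lit 1056) (nat_lit 2401333462171648) (.ev (nat_lit 1076) (nat_lit 2147483648) (.ev
 (nat_lit 1085) (nat_lit 8589934592) .dd))))))))))) (.ch (nat_lit 11) (.ev (nat_lit 448) (nat_lit
 21541642615914496) .dd))) (.br (nat_lit 13) (.ch (nat_lit 12) (.ev (nat_lit 448) (nat_lit 20275003073232896)
 (.ev (nat_lit 2580) (nat_lit 2147483648) (.ev (nat_lit 3172) (nat_lit 1125899906842624) (.ev (nat_lit 3181)
 (nat_lit 140737488355328) .dd))))) (.br (nat_lit 14) (.ch (nat_lit 13) (.ev (nat_lit 448) (nat_lit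
 2392548039458816) (.nd (nat_lit 3200) (.br (nat_lit 7) (.br (nat_lit 3) (.ch (nat_lit 0) (.ev (nat_lit 3216)
 (nat_lit 1134696066973696) (.ev (nat_lit 3229) (nat_lit 18014398509481984) .dd))) (.br (nat_lit 4) (.ch
 (nat_lit 3) (.ev (nat_lit 3216) (nat_lit 18023194602504192) (.fin (nat_lit 576464600606130756)))) (.ch
 (nat_lit 4) (.ev (nat_lit 3216) (nat_lit 18023194669613056) (.ev (nat_lit 3229) (nat_lit 1125899906842624)
 .dd))))) (.br (nat_lit 10) (.ch (nat_lit 7) (.ev (nat_lit 3216) (nat_lit 19149094576455680) .dd)) (.br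
 (nat_lit 13) (.ch (nat_lit 10) (.ev (nat_lit 3216) (nat_lit 19140298416324608) (.ev (nat_lit 3412) (nat_lit
 67108864) (.ev (nat_lit 3421) (nat_lit 8796093022208) .dd)))) (.ch (nat_lit 13) (.ev (nat_lit 3216) (nat_lit
 1125899973951488) (.ev (nat_lit 3248) (nat_lit 18023194602504192) .dd))))))))) (.ch (nat_lit 14) (.ev (nat_lit
 448) (nat_lit 19289842735120384) (.nd (nat_lit 1888) (.br (nat_lit 9) (.br (nat_lit 3) (.ch (nat_lit 1) (.ev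
 (nat_lit 1904) (nat_lit 2251799880794112) .dd)) (.br (nat_lit 8) (.ch (nat_lit 3) (.ev (nat_lit 2308) (nat_lit
 67108864) (.ev (nat_lit 2317) (nat_lit 2251799813685248) .dd))) (.ch (nat_lit 8) (.ev (nat_lit 1904) (nat_lit
 2251799880794112) .dd)))) (.br (nat_lit 13) (.br (nat_lit 10) (.ch (nat_lit 9) (.ev (nat_lit 1904) (nat_lit
 2251799880794112) .dd)) (.ch (nat_lit 10) (.ev (nat_lit 1904) (nat_lit 67108864) (.ev (nat_lit 1917) (nat_lit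
 2251799813685248) .dd)))) (.br (nat_lit 15) (.ch (nat_lit 13) (.ev (nat_lit 1904) (nat_lit 2251799813685248)
 (.ev (nat_lit 1917) (nat_lit 67108864) .dd))) (.ch (nat_lit 15) (.ev (nat_lit 1904) (nat_lit 2251799813685248)
 (.ev (nat_lit 1917) (nat_lit 67108864) .dd)))))))))))))))) (.br (nat_lit 15) (.ch (nat_lit 13) (.ev (nat_lit
 48) (nat_lit 627210972090140229904) (.nd (nat_lit 560) (.br (nat_lit 8) (.br (nat_lit 5) (.br (nat_lit 4) (.ch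
 (nat_lit 3) (.ev (nat_lit 576) (nat_lit 147574656551996096512) (.nd (nat_lit 1040) (.br (nat_lit 10) (.br
 (nat_lit 4) (.br (nat_lit 2) (.ch (nat_lit 1) (.ev (nat_lit 1056) (nat_lit 13194139533320) (.ev (nat_lit 1076)
 (nat_lit 144115188075855872) (.ev (nat_lit 1085) (nat_lit 4611686018427387904) .dd)))) (.ch (nat_lit 2) (.ev
 (nat_lit 1056) (nat_lit 4611694814520410120) (.ev (nat_lit 1076) (nat_lit 144115188075855872) (.ev (nat_lit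
 1085) (nat_lit 4398046511104) .dd))))) (.br (nat_lit 9) (.ch (nat_lit 4) (.ev (nat_lit 1056) (nat_lit
 4755810002596265984) (.ev (nat_lit 1236) (nat_lit 8) (.ev (nat_lit 1245) (nat_lit 4398046511104) .dd)))) (.ch
 (nat_lit 9) (.ev (nat_lit 1056) (nat_lit 8796093022208) (.ev (nat_lit 1584) (nat_lit 8) (.ev (nat_lit 2256)
 (nat_lit 4611690416473899008) (.ev (nat_lit 2269) (nat_lit 144115188075855872) .dd))))))) (.br (nat_lit 13)
 (.br (nat_lit 12) (.ch (nat_lit 10) (.ev (nat_lit 1056) (nat_lit 4755810002596265984) (.ev (nat_lit 3716)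
 (nat_lit 4398046511104) (.ev (nat_lit 3725) (nat_lit 8) .dd)))) (.ch (nat_lit 12) (.ev (nat_lit 1056) (nat_lit
 4755805604549754888) (.ev (nat_lit 1069) (nat_lit 8796093022208) .dd)))) (.br (nat_lit 14) (.ch (nat_lit 13)
 (.ev (nat_lit 1056) (nat_lit 4755805604549754888) (.ev (nat_lit 1069) (nat_lit 8796093022208) .dd))) (.ch
 (nat_lit 14) (.ev (nat_lit 1056) (nat_lit 144115188075855880) (.ev (nat_lit 2016) (nat_lit 8796093022208) (.ev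
 (nat_lit 2228) (nat_lit 4611686018427387904) (.ev (nat_lit 2237) (nat_lit 4398046511104) .dd))))))))))) (.ch
 (nat_lit 4) (.ev (nat_lit 576) (nat_lit 4612398776840093696) (.nd (nat_lit 1136) (.br (nat_lit 7) (.br
 (nat_lit 2) (.br (nat_lit 1) (.ch (nat_lit 0) (.ev (nat_lit 1152) (nat_lit 144115188075855872) (.ev (nat_lit
 1172) (nat_lit 147573952589676412928) (.ev (nat_lit 2644) (nat_lit 4398046511104) (.ev (nat_lit 2653) (nat_lit
 8) .dd))))) (.ch (nat_lit 1) (.ev (nat_lit 1152) (nat_lit 4398046511112) (.ev (nat_lit 1184) (nat_lit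
 144115188075855872) (.ev (nat_lit 1197) (nat_lit 147573952589676412928) .dd))))) (.br (nat_lit 3) (.ch
 (nat_lit 2) (.ev (nat_lit 1152) (nat_lit 147718067777752268808) (.ev (nat_lit 1165) (nat_lit 4398046511104)
 .dd))) (.ch (nat_lit 3) (.ev (nat_lit 1152) (nat_lit 4398046511112) (.ev (nat_lit 2112) (nat_lit
 144115188075855872) (.ev (nat_lit 2125) (nat_lit 147573952589676412928) .dd)))))) (.br (nat_lit 14) (.br
 (nat_lit 10) (.ch (nat_lit 7) (.ev (nat_lit 1152) (nat_lit 147718072175798779904) (.ev (nat_lit 1165) (nat_lit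
 8) .dd))) (.ch (nat_lit 10) (.ev (nat_lit 1152) (nat_lit 147718072175798779912) .dd))) (.br (nat_lit 15) (.ch
 (nat_lit 14) (.ev (nat_lit 1152) (nat_lit 4398046511104) (.ev (nat_lit 2176) (nat_lit 147573952589676412928)
 (.ev (nat_lit 2352) (nat_lit 144115188075855872) (.ev (nat_lit 2365) (nat_lit 8) .dd))))) (.br (nat_lit 16)
 (.ch (nat_lit 15) (.ev (nat_lit 1152) (nat_lit 144115188075855880) (.ev (nat_lit 2164) (nat_lit 4398046511104)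
 (.ev (nat_lit 2173) (nat_lit 147573952589676412928) .dd)))) (.ch (nat_lit 16) (.ev (nat_lit 1152) (nat_lit
 147718067777752268808) (.ev (nat_lit 1165) (nat_lit 4398046511104) .dd))))))))))) (.br (nat_lit 7) (.ch
 (nat_lit 5) (.ev (nat_lit 576) (nat_lit 147718784934211485696) (.ev (nat_lit 2832) (nat_lit 8) (.ev (nat_lit
 2845) (nat_lit 4611686018427387904) .dd)))) (.ch (nat_lit 7) (.ev (nat_lit 576) (nat_lit 4755805604549754880)
 (.ev (nat_lit 596) (nat_lit 140737488355328) (.nd (nat_lit 1040) (.br (nat_lit 8) (.br (nat_lit 4) (.br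
 (nat_lit 3) (.ch (nat_lit 1) (.ev (nat_lit 1056) (nat_lit 571746046443520) (.ev (nat_lit 1204) (nat_lit
 274877906944) (.ev (nat_lit 1732) (nat_lit 147573952589676412928) (.ev (nat_lit 1741) (nat_lit 8) .dd)))))
 (.ch (nat_lit 3) (.ev (nat_lit 1056) (nat_lit 147573952864554319880) (.ev (nat_lit 1076) (nat_lit
 562949953421312) (.ev (nat_lit 1085) (nat_lit 8796093022208) .dd))))) (.br (nat_lit 7) (.ch (nat_lit 4) (.ev
 (nat_lit 1056) (nat_lit 571746046443528) (.ev (nat_lit 1076) (nat_lit 274877906944) (.ev (nat_lit 1085)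
 (nat_lit 147573952589676412928) .dd)))) (.ch (nat_lit 7) (.ev (nat_lit 1056) (nat_lit 147573961385769435136)
 (.ev (nat_lit 2404) (nat_lit 562949953421312) (.nd (nat_lit 4992) (.br (nat_lit 7) (.ch (nat_lit 4) (.fin
 (nat_lit 576455804494234197))) (.ch (nat_lit 7) (.ev (nat_lit 5008) (nat_lit 8) (.ev (nat_lit 5021) (nat_lit
 274877906944) .dd)))))))))) (.br (nat_lit 13) (.br (nat_lit 11) (.ch (nat_lit 8) (.ev (nat_lit 1056) (nat_lit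
 147574524610600763400) .dd)) (.ch (nat_lit 11) (.ev (nat_lit 1056) (nat_lit 9070970929160) (.ev (nat_lit 1504)
 (nat_lit 147573952589676412928) (.ev (nat_lit 1517) (nat_lit 562949953421312) .dd))))) (.br (nat_lit 15) (.ch
 (nat_lit 13) (.ev (nat_lit 1056) (nat_lit 147574524610600763392) (.ev (nat_lit 1069) (nat_lit 8) .dd))) (.br
 (nat_lit 16) (.ch (nat_lit 15) (.ev (nat_lit 1056) (nat_lit 147573952864554319880) (.ev (nat_lit 1732)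
 (nat_lit 562949953421312) (.ev (nat_lit 1741) (nat_lit 8796093022208) .dd)))) (.ch (nat_lit 16) (.ev (nat_lit
 1056) (nat_lit 572020924350472) (.ev (nat_lit 1069) (nat_lit 147573952589676412928) .dd))))))))))))) (.br
 (nat_lit 10) (.br (nat_lit 9) (.ch (nat_lit 8) (.ev (nat_lit 576) (nat_lit 152329903329761034248) (.ev
 (nat_lit 2772) (nat_lit 274877906944) (.ev (nat_lit 3028) (nat_lit 562949953421312) (.ev (nat_lit 3037)
 (nat_lit 4398046511104) .dd))))) (.ch (nat_lit 9) (.ev (nat_lit 576) (nat_lit 147718076573845291016) (.nd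
 (nat_lit 1888) (.br (nat_lit 8) (.br (nat_lit 6) (.ch (nat_lit 3) (.ev (nat_lit 1904) (nat_lit
 708360366194688) (.ev (nat_lit 1917) (nat_lit 4611686018427387904) .dd))) (.br (nat_lit 7) (.ch (nat_lit 6)
 (.ev (nat_lit 1904) (nat_lit 4612389980747071488) (.ev (nat_lit 1917) (nat_lit 4398046511104) .dd))) (.ch
 (nat_lit 7) (.ev (nat_lit 1904) (nat_lit 4611686018427387904) (.ev (nat_lit 2416) (nat_lit 274877906944) (.ev
 (nat_lit 2864) (nat_lit 562949953421312) (.fin (nat_lit 576543765397193326)))))))) (.br (nat_lit 15) (.br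
 (nat_lit 14) (.ch (nat_lit 8) (.ev (nat_lit 1904) (nat_lit 4611690416473899008) (.ev (nat_lit 2800) (nat_lit
 274877906944) (.fin (nat_lit 576468998630621765))))) (.ch (nat_lit 14) (.ev (nat_lit 1904) (nat_lit
 567622877839360) (.ev (nat_lit 2528) (nat_lit 140737488355328) (.ev (nat_lit 2541) (nat_lit
 4611686018427387904) .dd))))) (.br (nat_lit 16) (.ch (nat_lit 15) (.ev (nat_lit 1904) (nat_lit
 708360366194688) (.ev (nat_lit 1917) (nat_lit 4611686018427387904) .dd))) (.ch (nat_lit 16) (.ev (nat_lit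
 1904) (nat_lit 4611827030793650176) (.ev (nat_lit 2164) (nat_lit 4398046511104) (.ev (nat_lit 2173) (nat_lit
 562949953421312) .dd))))))))))) (.br (nat_lit 11) (.ch (nat_lit 10) (.ev (nat_lit 576) (nat_lit
 144687209000206344) (.ev (nat_lit 596) (nat_lit 4611826755915743232) (.nd (nat_lit 1888) (.br (nat_lit 7) (.br
 (nat_lit 5) (.br (nat_lit 4) (.ch (nat_lit 1) (.ev (nat_lit 1904) (nat_lit 147573952589676412928) (.ev
 (nat_lit 1917) (nat_lit 4398046511104) .dd))) (.ch (nat_lit 4) (.ev (nat_lit 1904) (nat_lit 4398046511104)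
 (.ev (nat_lit 1917) (nat_lit 147573952589676412928) .dd)))) (.br (nat_lit 6) (.ch (nat_lit 5) (.ev (nat_lit
 2164) (nat_lit 147573952589676412928) (.ev (nat_lit 2173) (nat_lit 4398046511104) .dd))) (.ch (nat_lit 6) (.ev
 (nat_lit 1904) (nat_lit 4398046511104) (.ev (nat_lit 1917) (nat_lit 147573952589676412928) .dd))))) (.br
 (nat_lit 11) (.br (nat_lit 8) (.ch (nat_lit 7) (.ev (nat_lit 1904) (nat_lit 4398046511104) (.ev (nat_lit 1917)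
 (nat_lit 147573952589676412928) .dd))) (.ch (nat_lit 8) (.ev (nat_lit 1904) (nat_lit 147573956987722924032)
 .dd))) (.br (nat_lit 13) (.ch (nat_lit 11) (.ev (nat_lit 1904) (nat_lit 147573952589676412928) (.ev (nat_lit
 1917) (nat_lit 4398046511104) .dd))) (.br (nat_lit 16) (.ch (nat_lit 13) (.ev (nat_lit 1904) (nat_lit
 147573952589676412928) (.ev (nat_lit 1917) (nat_lit 4398046511104) .dd))) (.ch (nat_lit 16) (.ev (nat_lit
 1904) (nat_lit 147573956987722924032) .dd)))))))))) (.br (nat_lit 16) (.ch (nat_lit 11) (.ev (nat_lit 576)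
 (nat_lit 152186355764563017736) (.ev (nat_lit 589) (nat_lit 144115188075855872) .dd))) (.ch (nat_lit 16) (.ev
 (nat_lit 576) (nat_lit 4756368829381083144) (.ev (nat_lit 2228) (nat_lit 8796093022208) (.ev (nat_lit 2644)
 (nat_lit 140737488355328) (.ev (nat_lit 2653) (nat_lit 147573952589676412928) .dd)))))))))))) (.ch (nat_lit
 15) (.ev (nat_lit 48) (nat_lit 595052605534457823488) (.nd (nat_lit 352) (.br (nat_lit 10) (.br (nat_lit 5)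
 (.br (nat_lit 4) (.ch (nat_lit 3) (.ev (nat_lit 368) (nat_lit 184468566911947407376) (.nd (nat_lit 768) (.br
 (nat_lit 10) (.br (nat_lit 7) (.br (nat_lit 5) (.ch (nat_lit 3) (.ev (nat_lit 784) (nat_lit 2251799813685256)
 (.ev (nat_lit 2228) (nat_lit 4398046511104) (.ev (nat_lit 2308) (nat_lit 4194304) (.ev (nat_lit 2317) (nat_lit
 18014398509481984) .dd))))) (.ch (nat_lit 5) (.ev (nat_lit 784) (nat_lit 18018796555993088) (.ev (nat_lit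
 3044) (nat_lit 8) (.nd (nat_lit 4160) (.br (nat_lit 14) (.ch (nat_lit 4) (.nd (nat_lit 5232) (.br (nat_lit 16)
 (.ch (nat_lit 10) (.ev (nat_lit 5248) (nat_lit 4194304) (.ev (nat_lit 5261) (nat_lit 2251799813685248) .dd)))
 (.ch (nat_lit 16) (.fin (nat_lit 576447008388629087)))))) (.ch (nat_lit 14) (.ev (nat_lit 4176) (nat_lit
 2251799817879552) .dd)))))))) (.br (nat_lit 8) (.ch (nat_lit 7) (.ev (nat_lit 784) (nat_lit 2251799817879560)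
 (.ev (nat_lit 1028) (nat_lit 18014398509481984) (.ev (nat_lit 1037) (nat_lit 4398046511104) .dd)))) (.ch
 (nat_lit 8) (.ev (nat_lit 784) (nat_lit 4398050705408) (.ev (nat_lit 1524) (nat_lit 2251799813685248) (.ev
 (nat_lit 1552) (nat_lit 8) (.ev (nat_lit 1565) (nat_lit 18014398509481984) .dd))))))) (.br (nat_lit 14) (.br
 (nat_lit 12) (.ch (nat_lit 10) (.ev (nat_lit 784) (nat_lit 20270596369678344) (.ev (nat_lit 797) (nat_lit
 4194304) .dd))) (.ch (nat_lit 12) (.ev (nat_lit 784) (nat_lit 18014398509481984) (.ev (nat_lit 1940) (nat_lit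
 4398046511104) (.ev (nat_lit 2896) (nat_lit 8) (.fin (nat_lit 577140800464830959))))))) (.br (nat_lit 16) (.ch
 (nat_lit 14) (.ev (nat_lit 784) (nat_lit 20266198327361536) (.ev (nat_lit 1940) (nat_lit 4398046511104) (.ev
 (nat_lit 1949) (nat_lit 8) .dd)))) (.ch (nat_lit 16) (.ev (nat_lit 784) (nat_lit 4398050705416) (.ev (nat_lit
 804) (nat_lit 18014398509481984) (.ev (nat_lit 813) (nat_lit 2251799813685248) .dd)))))))))) (.ch (nat_lit 4)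
 (.ev (nat_lit 368) (nat_lit 36896866122021765120) (.nd (nat_lit 1312) (.br (nat_lit 8) (.br (nat_lit 4) (.br
 (nat_lit 3) (.ch (nat_lit 2) (.ev (nat_lit 1328) (nat_lit 147573956987722924040) (.ev (nat_lit 1348) (nat_lit
 18014398509481984) (.ev (nat_lit 1780) (nat_lit 16) (.ev (nat_lit 1789) (nat_lit 67108864) .dd))))) (.ch
 (nat_lit 3) (.ev (nat_lit 1328) (nat_lit 147573956987790032912) (.ev (nat_lit 1972) (nat_lit
 18014398509481984) (.ev (nat_lit 1981) (nat_lit 8) .dd))))) (.br (nat_lit 6) (.ch (nat_lit 4) (.ev (nat_lit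
 1328) (nat_lit 18018796623101952) (.ev (nat_lit 2288) (nat_lit 147573952589676412928) (.fin (nat_lit
 576543765460107901))))) (.ch (nat_lit 6) (.ev (nat_lit 1328) (nat_lit 4398046511112) (.ev (nat_lit 2628)
 (nat_lit 147573952589676412944) (.ev (nat_lit 2932) (nat_lit 67108864) (.ev (nat_lit 2941) (nat_lit
 18014398509481984) .dd))))))) (.br (nat_lit 10) (.br (nat_lit 9) (.ch (nat_lit 8) (.ev (nat_lit 1328) (nat_lit
 18014398576590856) (.ev (nat_lit 2288) (nat_lit 16) (.fin (nat_lit 576543765405581902))))) (.ch (nat_lit 9)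
 (.ev (nat_lit 1328) (nat_lit 147591966988185894936) (.ev (nat_lit 1940) (nat_lit 4398046511104) (.ev (nat_lit
 1949) (nat_lit 67108864) .dd))))) (.br (nat_lit 13) (.ch (nat_lit 10) (.ev (nat_lit 1328) (nat_lit
 4398046511128) (.ev (nat_lit 1348) (nat_lit 67108864) (.ev (nat_lit 1780) (nat_lit 147573952589676412928) (.ev
 (nat_lit 1789) (nat_lit 18014398509481984) .dd))))) (.br (nat_lit 16) (.ch (nat_lit 13) (.ev (nat_lit 1328)
 (nat_lit 147591966988185894928) (.ev (nat_lit 1536) (nat_lit 4398046511104) (.ev (nat_lit 2004) (nat_lit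
 67108864) (.ev (nat_lit 2013) (nat_lit 8) .dd))))) (.ch (nat_lit 16) (.ev (nat_lit 1328) (nat_lit
 147573952589743521808) (.ev (nat_lit 1712) (nat_lit 8) (.ev (nat_lit 2004) (nat_lit 18014398509481984) (.ev
 (nat_lit 2013) (nat_lit 4398046511104) .dd))))))))))))) (.br (nat_lit 9) (.ch (nat_lit 5) (.ev (nat_lit 368)
 (nat_lit 184488832835329720336) (.nd (nat_lit 848) (.br (nat_lit 7) (.br (nat_lit 4) (.br (nat_lit 2) (.ch
 (nat_lit 0) (.ev (nat_lit 864) (nat_lit 67108864) (.ev (nat_lit 2896) (nat_lit 8) (.ev (nat_lit 3008) (nat_lit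
 4398046511104) (.fin (nat_lit 577140800028624123)))))) (.ch (nat_lit 2) (.ev (nat_lit 864) (nat_lit
 4398113652744) (.ev (nat_lit 877) (nat_lit 274877906944) .dd)))) (.br (nat_lit 5) (.ch (nat_lit 4) (.ev
 (nat_lit 864) (nat_lit 274877906952) (.ev (nat_lit 1524) (nat_lit 32768) (.ev (nat_lit 1552) (nat_lit
 4398046511104) (.ev (nat_lit 1565) (nat_lit 67108864) .dd))))) (.ch (nat_lit 5) (.ev (nat_lit 864) (nat_lit
 4672924450816) (.ev (nat_lit 1028) (nat_lit 67108864) (.ev (nat_lit 1037) (nat_lit 8) .dd)))))) (.br (nat_lit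
 13) (.br (nat_lit 9) (.ch (nat_lit 7) (.ev (nat_lit 864) (nat_lit 67108872) (.ev (nat_lit 3044) (nat_lit
 4398046511104) (.nd (nat_lit 4960) (.br (nat_lit 10) (.ch (nat_lit 0) (.ev (nat_lit 4976) (nat_lit
 274877939712) .dd)) (.ch (nat_lit 10) (.nd (nat_lit 5552) (.br (nat_lit 13) (.ch (nat_lit 2) (.ev (nat_lit
 5568) (nat_lit 274877906944) (.ev (nat_lit 5581) (nat_lit 32768) .dd))) (.ch (nat_lit 13) (.fin (nat_lit
 576447008430572052))))))))))) (.ch (nat_lit 9) (.ev (nat_lit 864) (nat_lit 4398046543872) (.ev (nat_lit 2308)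
 (nat_lit 274877906944) (.ev (nat_lit 2644) (nat_lit 67108864) (.ev (nat_lit 2653) (nat_lit 8) .dd)))))) (.br
 (nat_lit 15) (.ch (nat_lit 13) (.ev (nat_lit 864) (nat_lit 4672924418056) (.ev (nat_lit 884) (nat_lit 32768)
 (.ev (nat_lit 893) (nat_lit 67108864) .dd)))) (.ch (nat_lit 15) (.ev (nat_lit 864) (nat_lit 274945048576) (.ev
 (nat_lit 2592) (nat_lit 8) (.ev (nat_lit 2605) (nat_lit 4398046511104) .dd)))))))))) (.ch (nat_lit 9) (.ev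
 (nat_lit 368) (nat_lit 36911502820877795336) (.nd (nat_lit 848) (.br (nat_lit 7) (.br (nat_lit 1) (.ch
 (nat_lit 0) (.ev (nat_lit 864) (nat_lit 147573952589676412928) (.ev (nat_lit 1172) (nat_lit 4398046511104)
 (.ev (nat_lit 1348) (nat_lit 16) (.ev (nat_lit 2736) (nat_lit 2251799813685248) (.fin (nat_lit
 576460202464199275))))))) (.br (nat_lit 5) (.ch (nat_lit 1) (.ev (nat_lit 864) (nat_lit 3377699720527872) (.ev
 (nat_lit 1348) (nat_lit 147573952589676412928) (.ev (nat_lit 1412) (nat_lit 32768) (.ev (nat_lit 2004)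
 (nat_lit 16) (.ev (nat_lit 2013) (nat_lit 4398046511104) .dd)))))) (.ch (nat_lit 5) (.ev (nat_lit 864)
 (nat_lit 3382097767071760) (.ev (nat_lit 877) (nat_lit 147573952589676412928) .dd))))) (.br (nat_lit 14) (.br
 (nat_lit 11) (.ch (nat_lit 7) (.ev (nat_lit 864) (nat_lit 3382097767071760) (.ev (nat_lit 877) (nat_lit
 147573952589676412928) .dd))) (.ch (nat_lit 11) (.ev (nat_lit 864) (nat_lit 4398046511120) (.ev (nat_lit 1204)
 (nat_lit 1125899906842624) (.ev (nat_lit 1412) (nat_lit 32768) (.ev (nat_lit 2644) (nat_lit 2251799813685248)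
 (.ev (nat_lit 2653) (nat_lit 147573952589676412928) .dd))))))) (.br (nat_lit 16) (.ch (nat_lit 14) (.ev
 (nat_lit 864) (nat_lit 147573952589676445712) (.ev (nat_lit 1172) (nat_lit 4398046511104) (.ev (nat_lit 2580)
 (nat_lit 2251799813685248) (.ev (nat_lit 2589) (nat_lit 1125899906842624) .dd))))) (.ch (nat_lit 16) (.ev
 (nat_lit 864) (nat_lit 3377699720527888) (.ev (nat_lit 1348) (nat_lit 147573952589676412928) (.ev (nat_lit
 2628) (nat_lit 32768) (.ev (nat_lit 2637) (nat_lit 4398046511104) .dd))))))))))))) (.br (nat_lit 13) (.br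
 (nat_lit 12) (.ch (nat_lit 10) (.ev (nat_lit 368) (nat_lit 147594218788070916104) (.nd (nat_lit 1648) (.br
 (nat_lit 6) (.br (nat_lit 3) (.br (nat_lit 2) (.ch (nat_lit 1) (.ev (nat_lit 1664) (nat_lit
 36893492820343521296) (.ev (nat_lit 1677) (nat_lit 1125899906842624) .dd))) (.ch (nat_lit 2) (.ev (nat_lit
 1700) (nat_lit 36894618445372456976) (.ev (nat_lit 1709) (nat_lit 274877906944) .dd)))) (.br (nat_lit 4) (.ch
 (nat_lit 3) (.ev (nat_lit 1664) (nat_lit 1130297953353744) (.ev (nat_lit 2228) (nat_lit 36893488147419103232)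
 (.ev (nat_lit 2237) (nat_lit 274877906944) .dd)))) (.ch (nat_lit 4) (.ev (nat_lit 1664) (nat_lit
 36893488422297010192) (.ev (nat_lit 1700) (nat_lit 4398046511104) (.ev (nat_lit 1709) (nat_lit
 1125899906842624) .dd)))))) (.br (nat_lit 13) (.br (nat_lit 9) (.ch (nat_lit 6) (.ev (nat_lit 1664) (nat_lit
 36894618445372456960) (.fin (nat_lit 576460202558571163)))) (.ch (nat_lit 9) (.ev (nat_lit 1664) (nat_lit
 36894614047325945872) (.ev (nat_lit 2308) (nat_lit 4398046511104) (.ev (nat_lit 2317) (nat_lit 274877906944)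
 .dd))))) (.br (nat_lit 14) (.ch (nat_lit 13) (.ev (nat_lit 1664) (nat_lit 36894614322203852800) (.ev (nat_lit
 3700) (nat_lit 16) (.ev (nat_lit 3709) (nat_lit 4398046511104) .dd)))) (.br (nat_lit 16) (.ch (nat_lit 14)
 (.ev (nat_lit 1664) (nat_lit 36894614047325945872) (.ev (nat_lit 2308) (nat_lit 4398046511104) (.ev (nat_lit
 2317) (nat_lit 274877906944) .dd)))) (.ch (nat_lit 16) (.ev (nat_lit 1664) (nat_lit 36893492820343521296) (.ev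
 (nat_lit 1677) (nat_lit 1125899906842624) .dd)))))))))) (.ch (nat_lit 12) (.ev (nat_lit 368) (nat_lit
 147575082887629799448) (.nd (nat_lit 848) (.br (nat_lit 8) (.br (nat_lit 4) (.br (nat_lit 3) (.ch (nat_lit 0)
 (.ev (nat_lit 864) (nat_lit 36895740222181998592) (.ev (nat_lit 877) (nat_lit 18014398509481984) .dd))) (.ch
 (nat_lit 3) (.ev (nat_lit 864) (nat_lit 36913754620620177408) (.ev (nat_lit 2228) (nat_lit 67108864) (.ev
 (nat_lit 2237) (nat_lit 4194304) .dd))))) (.br (nat_lit 7) (.ch (nat_lit 4) (.ev (nat_lit 864) (nat_lit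
 2252074758701056) (.ev (nat_lit 1028) (nat_lit 4194304) (.nd (nat_lit 5072) (.br (nat_lit 13) (.ch (nat_lit 9)
 (.ev (nat_lit 5088) (nat_lit 18014398509481984) (.ev (nat_lit 5101) (nat_lit 36893488147419103232) .dd))) (.ch
 (nat_lit 13) (.fin (nat_lit 576378838653026834)))))))) (.ch (nat_lit 7) (.ev (nat_lit 864) (nat_lit
 36895739947236982784) (.ev (nat_lit 1012) (nat_lit 67108864) (.ev (nat_lit 1108) (nat_lit 274877906944) (.ev
 (nat_lit 1117) (nat_lit 18014398509481984) .dd))))))) (.br (nat_lit 11) (.br (nat_lit 10) (.ch (nat_lit 8)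
 (.ev (nat_lit 864) (nat_lit 36895740222181998592) (.ev (nat_lit 877) (nat_lit 18014398509481984) .dd))) (.ch
 (nat_lit 10) (.ev (nat_lit 864) (nat_lit 18014673458692096) (.ev (nat_lit 884) (nat_lit 36893488147419103232)
 (.ev (nat_lit 893) (nat_lit 2251799813685248) .dd))))) (.br (nat_lit 12) (.ch (nat_lit 11) (.ev (nat_lit 864)
 (nat_lit 36893488147419103232) (.ev (nat_lit 884) (nat_lit 18014398509481984) (.ev (nat_lit 2032) (nat_lit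
 2251799813685248) (.ev (nat_lit 2228) (nat_lit 4194304) (.ev (nat_lit 2272) (nat_lit 274877906944) (.ev
 (nat_lit 2285) (nat_lit 67108864) .dd))))))) (.ch (nat_lit 12) (.ev (nat_lit 864) (nat_lit
 36911502820810686464) (.ev (nat_lit 1012) (nat_lit 67108864) (.ev (nat_lit 1021) (nat_lit 2251799813685248)
 .dd))))))))))) (.br (nat_lit 15) (.ch (nat_lit 13) (.ev (nat_lit 368) (nat_lit 184469696934955712536) (.nd
 (nat_lit 704) (.br (nat_lit 7) (.br (nat_lit 3) (.br (nat_lit 1) (.ch (nat_lit 0) (.ev (nat_lit 720) (nat_lit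
 1125899906842624) (.ev (nat_lit 740) (nat_lit 67108864) (.ev (nat_lit 2032) (nat_lit 32768) (.ev (nat_lit
 2228) (nat_lit 274877906944) (.ev (nat_lit 2272) (nat_lit 4194304) (.ev (nat_lit 2285) (nat_lit
 18014398509481984) .dd))))))) (.ch (nat_lit 1) (.ev (nat_lit 720) (nat_lit 18014673458692096) (.ev (nat_lit
 740) (nat_lit 1125899906842624) (.ev (nat_lit 749) (nat_lit 32768) .dd))))) (.br (nat_lit 4) (.ch (nat_lit 3)
 (.ev (nat_lit 720) (nat_lit 19140573298458624) (.ev (nat_lit 733) (nat_lit 67108864) .dd))) (.ch (nat_lit 4)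
 (.ev (nat_lit 720) (nat_lit 1126174784782336) (.ev (nat_lit 1012) (nat_lit 18014398509481984) (.ev (nat_lit
 1108) (nat_lit 4194304) (.ev (nat_lit 1117) (nat_lit 67108864) .dd))))))) (.br (nat_lit 11) (.br (nat_lit 8)
 (.ch (nat_lit 7) (.ev (nat_lit 720) (nat_lit 18014398513709056) (.ev (nat_lit 1028) (nat_lit 274877906944)
 (.nd (nat_lit 3936) (.br (nat_lit 14) (.ch (nat_lit 10) (.fin (nat_lit 576378838724330019))) (.ch (nat_lit 14)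
 (.ev (nat_lit 3952) (nat_lit 67108864) (.ev (nat_lit 3965) (nat_lit 1125899906842624) .dd)))))))) (.ch
 (nat_lit 8) (.ev (nat_lit 720) (nat_lit 1125899978178560) (.ev (nat_lit 2228) (nat_lit 18014398509481984) (.ev
 (nat_lit 2237) (nat_lit 274877906944) .dd))))) (.br (nat_lit 16) (.ch (nat_lit 11) (.ev (nat_lit 720) (nat_lit
 19140573298458624) (.ev (nat_lit 733) (nat_lit 67108864) .dd))) (.ch (nat_lit 16) (.ev (nat_lit 720) (nat_lit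
 1126174856052736) (.ev (nat_lit 1012) (nat_lit 18014398509481984) (.ev (nat_lit 1021) (nat_lit 32768)
 .dd)))))))))) (.br (nat_lit 16) (.ch (nat_lit 15) (.ev (nat_lit 368) (nat_lit 20270871314726928) (.nd (nat_lit
 768) (.br (nat_lit 9) (.br (nat_lit 7) (.br (nat_lit 5) (.ch (nat_lit 2) (.ev (nat_lit 784) (nat_lit
 184468566637002358784) (.ev (nat_lit 2308) (nat_lit 8) (.ev (nat_lit 2317) (nat_lit 4194304) .dd)))) (.ch
 (nat_lit 5) (.ev (nat_lit 784) (nat_lit 36894614047325945864) (.fin (nat_lit 576460202539696612))))) (.br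
 (nat_lit 8) (.ch (nat_lit 7) (.ev (nat_lit 784) (nat_lit 147575078489587449856) (.ev (nat_lit 900) (nat_lit
 36893488147419103232) (.ev (nat_lit 909) (nat_lit 8) .dd)))) (.ch (nat_lit 8) (.ev (nat_lit 784) (nat_lit
 184467440737095516168) (.ev (nat_lit 2228) (nat_lit 1125899906842624) (.ev (nat_lit 2237) (nat_lit 4194304)
 .dd)))))) (.br (nat_lit 12) (.br (nat_lit 10) (.ch (nat_lit 9) (.ev (nat_lit 884) (nat_lit
 36893488147419103232) (.ev (nat_lit 1012) (nat_lit 147573952589676412928) (.ev (nat_lit 1348) (nat_lit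
 1125899906842624) (.ev (nat_lit 1812) (nat_lit 8) (.ev (nat_lit 1821) (nat_lit 4194304) .dd)))))) (.ch
 (nat_lit 10) (.ev (nat_lit 784) (nat_lit 147575078489587449864) (.ev (nat_lit 797) (nat_lit
 36893488147419103232) .dd)))) (.br (nat_lit 14) (.ch (nat_lit 12) (.ev (nat_lit 784) (nat_lit
 1125899911036936) (.ev (nat_lit 1524) (nat_lit 147573952589676412928) (.ev (nat_lit 1533) (nat_lit
 36893488147419103232) .dd)))) (.br (nat_lit 15) (.ch (nat_lit 14) (.ev (nat_lit 784) (nat_lit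
 184467440737095516160) (.ev (nat_lit 1396) (nat_lit 1125899906842624) (.ev (nat_lit 2308) (nat_lit 8) (.ev
 (nat_lit 2317) (nat_lit 4194304) .dd))))) (.ch (nat_lit 15) (.ev (nat_lit 784) (nat_lit 36894614047330140160)
 (.ev (nat_lit 3700) (nat_lit 147573952589676412928) (.ev (nat_lit 3709) (nat_lit 8) .dd))))))))))) (.ch
 (nat_lit 16) (.ev (nat_lit 368) (nat_lit 19144971412045824) (.nd (nat_lit 1136) (.br (nat_lit 10) (.br
 (nat_lit 4) (.ch (nat_lit 0) (.ev (nat_lit 1152) (nat_lit 147573952589676412936) (.ev (nat_lit 1204) (nat_lit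
 36893488147419103232) (.ev (nat_lit 1412) (nat_lit 2251799813685248) (.ev (nat_lit 2644) (nat_lit 32768) (.ev
 (nat_lit 2653) (nat_lit 16) .dd)))))) (.br (nat_lit 6) (.ch (nat_lit 4) (.ev (nat_lit 1152) (nat_lit
 184469692536909234184) (.ev (nat_lit 1165) (nat_lit 16) .dd))) (.ch (nat_lit 6) (.ev (nat_lit 1152) (nat_lit
 184469692536909234184) (.ev (nat_lit 1165) (nat_lit 16) .dd))))) (.br (nat_lit 12) (.br (nat_lit 11) (.ch
 (nat_lit 10) (.ev (nat_lit 1152) (nat_lit 36893488147419136000) (.ev (nat_lit 1348) (nat_lit 16) (.ev (nat_lit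
 1412) (nat_lit 2251799813685248) (.ev (nat_lit 2004) (nat_lit 147573952589676412928) (.ev (nat_lit 2013)
 (nat_lit 8) .dd)))))) (.ch (nat_lit 11) (.ev (nat_lit 1152) (nat_lit 16) (.ev (nat_lit 1348) (nat_lit
 147573952589676412928) (.ev (nat_lit 1700) (nat_lit 8) (.ev (nat_lit 2736) (nat_lit 32768) (.fin (nat_lit
 576460202634068500)))))))) (.br (nat_lit 14) (.ch (nat_lit 12) (.ev (nat_lit 1152) (nat_lit
 184467440737095548928) (.ev (nat_lit 1348) (nat_lit 16) (.ev (nat_lit 2628) (nat_lit 2251799813685248) (.ev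
 (nat_lit 2637) (nat_lit 8) .dd))))) (.ch (nat_lit 14) (.ev (nat_lit 1152) (nat_lit 147576204389490098192) (.ev
 (nat_lit 1700) (nat_lit 8) (.ev (nat_lit 2580) (nat_lit 32768) (.ev (nat_lit 2589) (nat_lit
 36893488147419103232) .dd))))))))))))))))))))))))

/-- Subtrie. -/
noncomputable def T9 : Tr := (.ev (nat_lit 20) (nat_lit 2255259942504565669914) (.nd (nat_lit 32) (.br (nat_lit
 8) (.br (nat_lit 4) (.br (nat_lit 3) (.ch (nat_lit 0) (.ev (nat_lit 48) (nat_lit 56576478993191200) (.nd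
 (nat_lit 288) (.br (nat_lit 8) (.br (nat_lit 5) (.br (nat_lit 4) (.ch (nat_lit 2) (.ev (nat_lit 304) (nat_lit
 18734978847907776640) (.nd (nat_lit 1040) (.br (nat_lit 9) (.br (nat_lit 3) (.br (nat_lit 1) (.ch (nat_lit 0)
 (.ev (nat_lit 1056) (nat_lit 562952100904960) (.ev (nat_lit 1268) (nat_lit 4194304) (.ev (nat_lit 1277)
 (nat_lit 9007199254740992) .dd)))) (.ch (nat_lit 1) (.ev (nat_lit 1056) (nat_lit 9570149208162304) (.ev
 (nat_lit 2004) (nat_lit 2147483648) (.ev (nat_lit 2013) (nat_lit 4194304) .dd))))) (.br (nat_lit 8) (.ch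
 (nat_lit 3) (.ev (nat_lit 1056) (nat_lit 4194304) (.ev (nat_lit 1732) (nat_lit 2147483648) (.ev (nat_lit 1780)
 (nat_lit 9007199254740992) (.ev (nat_lit 1789) (nat_lit 562949953421312) .dd))))) (.ch (nat_lit 8) (.ev
 (nat_lit 1056) (nat_lit 9570149208162304) (.ev (nat_lit 3268) (nat_lit 4194304) (.ev (nat_lit 3277) (nat_lit
 2147483648) .dd)))))) (.br (nat_lit 11) (.br (nat_lit 10) (.ch (nat_lit 9) (.ev (nat_lit 1056) (nat_lit
 9570151359840256) .dd)) (.ch (nat_lit 10) (.ev (nat_lit 1056) (nat_lit 4194304) (.ev (nat_lit 1172) (nat_lit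
 2147483648) (.ev (nat_lit 1712) (nat_lit 9007199254740992) (.ev (nat_lit 1725) (nat_lit 562949953421312)
 .dd)))))) (.br (nat_lit 12) (.ch (nat_lit 11) (.ev (nat_lit 1056) (nat_lit 9570151359840256) .dd)) (.br
 (nat_lit 13) (.ch (nat_lit 12) (.ev (nat_lit 1056) (nat_lit 9570151355645952) (.ev (nat_lit 1069) (nat_lit
 4194304) .dd))) (.ch (nat_lit 13) (.ev (nat_lit 1056) (nat_lit 9007201406418944) (.ev (nat_lit 1069) (nat_lit
 562949953421312) .dd)))))))))) (.ch (nat_lit 4) (.ev (nat_lit 304) (nat_lit 297800527507357824) (.ev (nat_lit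
 596) (nat_lit 4398046511104) (.ev (nat_lit 2784) (nat_lit 18446744073709551616) (.nd (nat_lit 3648) (.br
 (nat_lit 9) (.ch (nat_lit 2) (.ev (nat_lit 3664) (nat_lit 2048) (.ev (nat_lit 3677) (nat_lit 4194304) .dd)))
 (.ch (nat_lit 9) (.ev (nat_lit 3664) (nat_lit 4194304) (.ev (nat_lit 3677) (nat_lit 2048) .dd)))))))))) (.br
 (nat_lit 7) (.ch (nat_lit 5) (.ev (nat_lit 304) (nat_lit 18447311423856967808) (.nd (nat_lit 1136) (.br
 (nat_lit 10) (.br (nat_lit 7) (.br (nat_lit 4) (.ch (nat_lit 0) (.ev (nat_lit 1152) (nat_lit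
 288230376151713792) (.ev (nat_lit 1376) (nat_lit 9007199254740992) (.ev (nat_lit 1389) (nat_lit 4194304)
 .dd)))) (.ch (nat_lit 4) (.ev (nat_lit 1152) (nat_lit 9007199254743040) (.ev (nat_lit 1972) (nat_lit
 288230376151711744) (.ev (nat_lit 1981) (nat_lit 4194304) .dd))))) (.br (nat_lit 9) (.ch (nat_lit 7) (.ev
 (nat_lit 1152) (nat_lit 288230376151713792) (.ev (nat_lit 1940) (nat_lit 9007199254740992) (.ev (nat_lit 1949)
 (nat_lit 4194304) .dd)))) (.ch (nat_lit 9) (.ev (nat_lit 1152) (nat_lit 297237575406452736) (.ev (nat_lit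
 1348) (nat_lit 2048) (.ev (nat_lit 1357) (nat_lit 4194304) .dd)))))) (.br (nat_lit 12) (.br (nat_lit 11) (.ch
 (nat_lit 10) (.ev (nat_lit 1152) (nat_lit 288230376155908096) (.ev (nat_lit 1165) (nat_lit 9007199254740992)
 .dd))) (.ch (nat_lit 11) (.ev (nat_lit 1152) (nat_lit 9007199258935296) (.ev (nat_lit 1940) (nat_lit
 288230376151711744) (.ev (nat_lit 1949) (nat_lit 2048) .dd))))) (.br (nat_lit 14) (.ch (nat_lit 12) (.ev
 (nat_lit 1152) (nat_lit 9007199258935296) (.ev (nat_lit 1972) (nat_lit 288230376151711744) (.ev (nat_lit 1981)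
 (nat_lit 2048) .dd)))) (.ch (nat_lit 14) (.ev (nat_lit 1152) (nat_lit 9007199258935296) (.ev (nat_lit 1940)
 (nat_lit 288230376151711744) (.ev (nat_lit 1949) (nat_lit 2048) .dd)))))))))) (.ch (nat_lit 7) (.ev (nat_lit
 304) (nat_lit 18456318620964227200) (.nd (nat_lit 704) (.br (nat_lit 7) (.br (nat_lit 4) (.br (nat_lit 2) (.ch
 (nat_lit 1) (.ev (nat_lit 720) (nat_lit 288230376155906048) (.ev (nat_lit 733) (nat_lit 2147483648) .dd)))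
 (.ch (nat_lit 2) (.ev (nat_lit 720) (nat_lit 2151677952) (.ev (nat_lit 733) (nat_lit 288230376151711744)
 .dd)))) (.br (nat_lit 6) (.ch (nat_lit 4) (.ev (nat_lit 720) (nat_lit 288230378299195392) (.ev (nat_lit 733)
 (nat_lit 4194304) .dd))) (.ch (nat_lit 6) (.ev (nat_lit 720) (nat_lit 4194304) (.ev (nat_lit 1920) (nat_lit
 2147483648) (.ev (nat_lit 1933) (nat_lit 288230376151711744) .dd)))))) (.br (nat_lit 13) (.br (nat_lit 10)
 (.ch (nat_lit 7) (.ev (nat_lit 720) (nat_lit 288230376151711744) (.ev (nat_lit 3120) (nat_lit 2147483648) (.ev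
 (nat_lit 3133) (nat_lit 4194304) .dd)))) (.ch (nat_lit 10) (.ev (nat_lit 2656) (nat_lit 288230376155906048)
 (.ev (nat_lit 2669) (nat_lit 2147483648) .dd)))) (.br (nat_lit 14) (.ch (nat_lit 13) (.ev (nat_lit 720)
 (nat_lit 288230376155906048) (.ev (nat_lit 733) (nat_lit 2147483648) .dd))) (.br (nat_lit 16) (.ch (nat_lit
 14) (.ev (nat_lit 720) (nat_lit 288230378303389696) .dd)) (.ch (nat_lit 16) (.ev (nat_lit 720) (nat_lit
 288230378299195392) (.ev (nat_lit 733) (nat_lit 4194304) .dd)))))))))))) (.br (nat_lit 10) (.br (nat_lit 9)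
 (.ch (nat_lit 8) (.ev (nat_lit 304) (nat_lit 18744548999263420416) (.nd (nat_lit 1040) (.br (nat_lit 7) (.br
 (nat_lit 4) (.br (nat_lit 3) (.ch (nat_lit 1) (.ev (nat_lit 1056) (nat_lit 4196480) .dd)) (.ch (nat_lit 3)
 (.ev (nat_lit 1056) (nat_lit 4196480) .dd))) (.br (nat_lit 5) (.ch (nat_lit 4) (.ev (nat_lit 1056) (nat_lit
 128) (.ev (nat_lit 2592) (nat_lit 2048) (.ev (nat_lit 2605) (nat_lit 4194304) .dd)))) (.ch (nat_lit 5) (.ev
 (nat_lit 1056) (nat_lit 128) (.ev (nat_lit 1092) (nat_lit 4194304) (.ev (nat_lit 1101) (nat_lit 2048)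
 .dd)))))) (.br (nat_lit 10) (.br (nat_lit 9) (.ch (nat_lit 7) (.ev (nat_lit 1056) (nat_lit 4194304) (.ev
 (nat_lit 2064) (nat_lit 128) (.ev (nat_lit 2077) (nat_lit 2048) .dd)))) (.ch (nat_lit 9) (.ev (nat_lit 1056)
 (nat_lit 128) (.ev (nat_lit 2164) (nat_lit 4194304) (.ev (nat_lit 2173) (nat_lit 2048) .dd))))) (.br (nat_lit
 11) (.ch (nat_lit 10) (.ev (nat_lit 1056) (nat_lit 4196352) (.ev (nat_lit 1069) (nat_lit 128) .dd))) (.br
 (nat_lit 13) (.ch (nat_lit 11) (.ev (nat_lit 1056) (nat_lit 2176) (.ev (nat_lit 1069) (nat_lit 4194304) .dd)))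
 (.ch (nat_lit 13) (.ev (nat_lit 1056) (nat_lit 4196352) (.ev (nat_lit 1069) (nat_lit 128) .dd)))))))))) (.ch
 (nat_lit 9) (.ev (nat_lit 304) (nat_lit 297237575410649088) (.nd (nat_lit 704) (.br (nat_lit 11) (.br (nat_lit
 6) (.ch (nat_lit 1) (.ev (nat_lit 720) (nat_lit 567350147416064) (.ev (nat_lit 740) (nat_lit 128) (.ev
 (nat_lit 749) (nat_lit 18446744073709551616) .dd)))) (.br (nat_lit 7) (.ch (nat_lit 6) (.ev (nat_lit 720)
 (nat_lit 4400193994880) (.ev (nat_lit 1172) (nat_lit 562949953421312) (.ev (nat_lit 1181) (nat_lit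
 18446744073709551616) .dd)))) (.ch (nat_lit 7) (.ev (nat_lit 720) (nat_lit 18446748471756062720) (.ev (nat_lit
 2340) (nat_lit 128) (.ev (nat_lit 2416) (nat_lit 2147483648) (.ev (nat_lit 2429) (nat_lit 562949953421312)
 .dd))))))) (.br (nat_lit 14) (.br (nat_lit 13) (.ch (nat_lit 11) (.ev (nat_lit 720) (nat_lit 567347999932544)
 (.ev (nat_lit 2004) (nat_lit 18446744073709551616) (.ev (nat_lit 2013) (nat_lit 2147483648) .dd)))) (.ch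
 (nat_lit 13) (.ev (nat_lit 720) (nat_lit 18447307025810456704) (.ev (nat_lit 733) (nat_lit 4398046511104)
 .dd)))) (.br (nat_lit 15) (.ch (nat_lit 14) (.ev (nat_lit 720) (nat_lit 18447311423856967808) .dd)) (.ch
 (nat_lit 15) (.ev (nat_lit 720) (nat_lit 18446744075857035264) (.ev (nat_lit 1524) (nat_lit 4398046511104)
 (.ev (nat_lit 1536) (nat_lit 562949953421312) (.ev (nat_lit 1549) (nat_lit 128) .dd)))))))))))) (.br (nat_lit
 11) (.ch (nat_lit 10) (.ev (nat_lit 304) (nat_lit 18744548997120131072) (.nd (nat_lit 1040) (.br (nat_lit 7)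
 (.br (nat_lit 1) (.ch (nat_lit 0) (.ev (nat_lit 1056) (nat_lit 128) (.ev (nat_lit 3312) (nat_lit 2147485696)
 .dd))) (.ch (nat_lit 1) (.ev (nat_lit 1056) (nat_lit 2048) (.ev (nat_lit 1076) (nat_lit 2147483648) (.ev
 (nat_lit 1085) (nat_lit 128) .dd))))) (.br (nat_lit 10) (.ch (nat_lit 7) (.ev (nat_lit 1056) (nat_lit
 2147483648) (.ev (nat_lit 2340) (nat_lit 2048) (.ev (nat_lit 2349) (nat_lit 128) .dd)))) (.ch (nat_lit 10)
 (.ev (nat_lit 1076) (nat_lit 2147483776) (.ev (nat_lit 1085) (nat_lit 2048) .dd)))))))) (.br (nat_lit 16) (.ch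
 (nat_lit 11) (.ev (nat_lit 304) (nat_lit 18456318623115905024) (.nd (nat_lit 960) (.br (nat_lit 9) (.br
 (nat_lit 6) (.ch (nat_lit 3) (.ev (nat_lit 976) (nat_lit 288230376151711744) (.ev (nat_lit 989) (nat_lit 128)
 .dd))) (.ch (nat_lit 6) (.ev (nat_lit 1780) (nat_lit 288230376151711744) (.ev (nat_lit 1789) (nat_lit 128)
 .dd)))) (.br (nat_lit 16) (.ch (nat_lit 9) (.ev (nat_lit 1012) (nat_lit 128) (.ev (nat_lit 1021) (nat_lit
 288230376151711744) .dd))) (.ch (nat_lit 16) (.ev (nat_lit 976) (nat_lit 128) (.ev (nat_lit 989) (nat_lit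
 288230376151711744) .dd)))))))) (.ch (nat_lit 16) (.ev (nat_lit 304) (nat_lit 2151680128) (.nd (nat_lit 656)
 (.br (nat_lit 9) (.br (nat_lit 7) (.br (nat_lit 3) (.ch (nat_lit 1) (.ev (nat_lit 672) (nat_lit
 9011597301252096) (.ev (nat_lit 2164) (nat_lit 562949953421312) (.ev (nat_lit 2468) (nat_lit
 18446744073709551616) (.ev (nat_lit 2477) (nat_lit 288230376151711744) .dd))))) (.ch (nat_lit 3) (.ev (nat_lit
 672) (nat_lit 18744548997115936768) .dd))) (.br (nat_lit 8) (.ch (nat_lit 7) (.ev (nat_lit 672) (nat_lit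
 18446748471756062720) (.ev (nat_lit 804) (nat_lit 288230376151711744) (.ev (nat_lit 900) (nat_lit
 562949953421312) (.ev (nat_lit 909) (nat_lit 9007199254740992) .dd))))) (.ch (nat_lit 8) (.ev (nat_lit 672)
 (nat_lit 288797724151644160) (.nd (nat_lit 4032) (.br (nat_lit 13) (.ch (nat_lit 4) (.ev (nat_lit 4048)
 (nat_lit 18446744073709551616) (.ev (nat_lit 4061) (nat_lit 9007199254740992) .dd))) (.ch (nat_lit 13) (.fin
 (nat_lit 576461302040838724))))))))) (.br (nat_lit 13) (.br (nat_lit 11) (.ch (nat_lit 9) (.ev (nat_lit 672)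
 (nat_lit 18456318620964225024) (.ev (nat_lit 685) (nat_lit 288230376151711744) .dd))) (.ch (nat_lit 11) (.ev
 (nat_lit 672) (nat_lit 18743986047162515456) (.ev (nat_lit 685) (nat_lit 562949953421312) .dd)))) (.br
 (nat_lit 15) (.ch (nat_lit 13) (.ev (nat_lit 672) (nat_lit 9570149208162304) (.ev (nat_lit 1488) (nat_lit
 4398046511104) (.fin (nat_lit 576482192796369482))))) (.br (nat_lit 16) (.ch (nat_lit 15) (.ev (nat_lit 672)
 (nat_lit 18743981649116004352) (.ev (nat_lit 2164) (nat_lit 562949953421312) (.ev (nat_lit 2173) (nat_lit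
 4398046511104) .dd)))) (.ch (nat_lit 16) (.ev (nat_lit 672) (nat_lit 18735541797861195776) (.ev (nat_lit 685)
 (nat_lit 9007199254740992) .dd))))))))))))))))) (.ch (nat_lit 3) (.ev (nat_lit 48) (nat_lit
 18771007655680936352) (.nd (nat_lit 144) (.br (nat_lit 10) (.br (nat_lit 7) (.br (nat_lit 6) (.ch (nat_lit 2)
 (.ev (nat_lit 160) (nat_lit 9288674231980032) (.nd (nat_lit 704) (.br (nat_lit 7) (.br (nat_lit 5) (.br
 (nat_lit 4) (.ch (nat_lit 3) (.ev (nat_lit 720) (nat_lit 20829148280782848) (.ev (nat_lit 733) (nat_lit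
 67108864) .dd))) (.ch (nat_lit 4) (.ev (nat_lit 720) (nat_lit 67108864) (.ev (nat_lit 2004) (nat_lit
 2251799813685248) (.ev (nat_lit 2656) (nat_lit 562949953421312) (.fin (nat_lit 576541566368694868))))))) (.br
 (nat_lit 6) (.ch (nat_lit 5) (.ev (nat_lit 720) (nat_lit 20266198390276096) (.ev (nat_lit 740) (nat_lit
 4194304) (.ev (nat_lit 749) (nat_lit 562949953421312) .dd)))) (.ch (nat_lit 6) (.ev (nat_lit 720) (nat_lit
 18014398513676288) (.ev (nat_lit 932) (nat_lit 67108864) (.ev (nat_lit 2340) (nat_lit 562949953421312) (.ev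
 (nat_lit 2349) (nat_lit 2251799813685248) .dd))))))) (.br (nat_lit 9) (.br (nat_lit 8) (.ch (nat_lit 7) (.ev
 (nat_lit 720) (nat_lit 18577348530012160) (.ev (nat_lit 1396) (nat_lit 4194304) (.ev (nat_lit 1405) (nat_lit
 2251799813685248) .dd)))) (.ch (nat_lit 8) (.ev (nat_lit 720) (nat_lit 71303168) (.ev (nat_lit 1700) (nat_lit
 2251799813685248) (.ev (nat_lit 1780) (nat_lit 18014398509481984) (.ev (nat_lit 1789) (nat_lit
 562949953421312) .dd)))))) (.br (nat_lit 13) (.ch (nat_lit 9) (.ev (nat_lit 720) (nat_lit 2814749838409728)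
 (.ev (nat_lit 733) (nat_lit 18014398509481984) .dd))) (.br (nat_lit 16) (.ch (nat_lit 13) (.ev (nat_lit 720)
 (nat_lit 20829148280782848) (.ev (nat_lit 733) (nat_lit 67108864) .dd))) (.ch (nat_lit 16) (.ev (nat_lit 720)
 (nat_lit 2814749767106560) (.ev (nat_lit 740) (nat_lit 71303168) (.ev (nat_lit 749) (nat_lit
 18014398509481984) .dd))))))))))) (.ch (nat_lit 6) (.ev (nat_lit 160) (nat_lit 27021597836050432) (.nd
 (nat_lit 1648) (.br (nat_lit 8) (.br (nat_lit 3) (.br (nat_lit 2) (.ch (nat_lit 0) (.ev (nat_lit 1664)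
 (nat_lit 3096224743817216) (.ev (nat_lit 1677) (nat_lit 4096) .dd))) (.ch (nat_lit 2) (.ev (nat_lit 1664)
 (nat_lit 281474976710656) (.ev (nat_lit 2580) (nat_lit 562949953421312) (.nd (nat_lit 4656) (.br (nat_lit 12)
 (.ch (nat_lit 0) (.ev (nat_lit 4672) (nat_lit 2251799813685248) (.ev (nat_lit 4685) (nat_lit 4096) .dd))) (.ch
 (nat_lit 12) (.fin (nat_lit 576440411339833933))))))))) (.br (nat_lit 7) (.ch (nat_lit 3) (.ev (nat_lit 1664)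
 (nat_lit 3096224743821312) .dd)) (.ch (nat_lit 7) (.ev (nat_lit 1664) (nat_lit 2251799813689344) (.ev (nat_lit
 1972) (nat_lit 281474976710656) (.ev (nat_lit 1981) (nat_lit 562949953421312) .dd)))))) (.br (nat_lit 10) (.br
 (nat_lit 9) (.ch (nat_lit 8) (.ev (nat_lit 1664) (nat_lit 844424930136064) (.ev (nat_lit 1677) (nat_lit
 2251799813685248) .dd))) (.ch (nat_lit 9) (.ev (nat_lit 1664) (nat_lit 844424930136064) (.ev (nat_lit 1677)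
 (nat_lit 2251799813685248) .dd)))) (.br (nat_lit 11) (.ch (nat_lit 10) (.ev (nat_lit 1664) (nat_lit
 3096224743817216) (.ev (nat_lit 1677) (nat_lit 4096) .dd))) (.br (nat_lit 12) (.ch (nat_lit 11) (.ev (nat_lit
 1664) (nat_lit 281474976714752) (.ev (nat_lit 1876) (nat_lit 562949953421312) (.ev (nat_lit 1885) (nat_lit
 2251799813685248) .dd)))) (.ch (nat_lit 12) (.ev (nat_lit 1664) (nat_lit 2251799813685248) (.ev (nat_lit 1860)
 (nat_lit 562949953421312) (.ev (nat_lit 2404) (nat_lit 281474976710656) (.ev (nat_lit 2413) (nat_lit 4096)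
 .dd))))))))))))) (.br (nat_lit 8) (.ch (nat_lit 7) (.ev (nat_lit 160) (nat_lit 18858823507251200) (.nd
 (nat_lit 1136) (.br (nat_lit 9) (.br (nat_lit 6) (.br (nat_lit 2) (.ch (nat_lit 0) (.ev (nat_lit 1152)
 (nat_lit 2251799813685248) (.ev (nat_lit 3284) (nat_lit 9007199254740992) (.ev (nat_lit 3293) (nat_lit
 4194304) .dd)))) (.ch (nat_lit 2) (.ev (nat_lit 1152) (nat_lit 9007199254740992) (.ev (nat_lit 1172) (nat_lit
 4194304) (.ev (nat_lit 1181) (nat_lit 2251799813685248) .dd))))) (.br (nat_lit 7) (.ch (nat_lit 6) (.ev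
 (nat_lit 1152) (nat_lit 9007199254740992) (.fin (nat_lit 577140800464830959)))) (.ch (nat_lit 7) (.ev (nat_lit
 1152) (nat_lit 9007199258935296) (.ev (nat_lit 1165) (nat_lit 2251799813685248) .dd))))) (.br (nat_lit 13)
 (.br (nat_lit 10) (.ch (nat_lit 9) (.ev (nat_lit 1152) (nat_lit 4194304) (.ev (nat_lit 1712) (nat_lit
 2251799813685248) (.ev (nat_lit 1725) (nat_lit 9007199254740992) .dd)))) (.ch (nat_lit 10) (.ev (nat_lit 1152)
 (nat_lit 2251799817879552) (.ev (nat_lit 1165) (nat_lit 9007199254740992) .dd)))) (.br (nat_lit 16) (.ch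
 (nat_lit 13) (.ev (nat_lit 1152) (nat_lit 11258999072620544) .dd)) (.ch (nat_lit 16) (.ev (nat_lit 1396)
 (nat_lit 4194304) (.ev (nat_lit 1984) (nat_lit 2251799813685248) (.ev (nat_lit 1997) (nat_lit
 9007199254740992) .dd)))))))))) (.ch (nat_lit 8) (.ev (nat_lit 160) (nat_lit 18858823511441408) (.ev (nat_lit
 2368) (nat_lit 9007199254740992) (.ev (nat_lit 2912) (nat_lit 2251799813685248) (.ev (nat_lit 2925) (nat_lit
 4096) .dd))))))) (.br (nat_lit 13) (.br (nat_lit 11) (.ch (nat_lit 10) (.ev (nat_lit 160) (nat_lit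
 29836347531857920) (.nd (nat_lit 1040) (.br (nat_lit 4) (.br (nat_lit 1) (.ch (nat_lit 0) (.ev (nat_lit 1056)
 (nat_lit 281475048013824) .dd)) (.br (nat_lit 3) (.ch (nat_lit 1) (.ev (nat_lit 1056) (nat_lit 67108864) (.ev
 (nat_lit 3172) (nat_lit 4194304) (.ev (nat_lit 3181) (nat_lit 281474976710656) .dd)))) (.ch (nat_lit 3) (.ev
 (nat_lit 1056) (nat_lit 71303168) (.ev (nat_lit 1069) (nat_lit 281474976710656) .dd))))) (.br (nat_lit 11)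
 (.br (nat_lit 7) (.ch (nat_lit 4) (.ev (nat_lit 1056) (nat_lit 281474976710656) (.ev (nat_lit 1076) (nat_lit
 4194304) (.ev (nat_lit 1085) (nat_lit 67108864) .dd)))) (.ch (nat_lit 7) (.ev (nat_lit 1056) (nat_lit
 281475048013824) .dd))) (.br (nat_lit 16) (.ch (nat_lit 11) (.ev (nat_lit 1056) (nat_lit 281475043819520) (.ev
 (nat_lit 1069) (nat_lit 4194304) .dd))) (.ch (nat_lit 16) (.ev (nat_lit 1348) (nat_lit 67108864) (.ev (nat_lit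
 2340) (nat_lit 4194304) (.ev (nat_lit 2349) (nat_lit 281474976710656) .dd)))))))))) (.ch (nat_lit 11) (.ev
 (nat_lit 160) (nat_lit 12103424002752512) (.nd (nat_lit 960) (.br (nat_lit 7) (.br (nat_lit 4) (.ch (nat_lit
 1) (.ev (nat_lit 976) (nat_lit 528384) (.ev (nat_lit 1076) (nat_lit 18014398509481984) (.ev (nat_lit 1085)
 (nat_lit 67108864) .dd)))) (.br (nat_lit 5) (.ch (nat_lit 4) (.ev (nat_lit 976) (nat_lit 18014398510010368)
 (.ev (nat_lit 989) (nat_lit 67108864) .dd))) (.ch (nat_lit 5) (.ev (nat_lit 1012) (nat_lit 524288) (.ev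
 (nat_lit 2404) (nat_lit 67108864) (.nd (nat_lit 4192) (.br (nat_lit 6) (.ch (nat_lit 5) (.ev (nat_lit 4208)
 (nat_lit 18014398509486080) .dd)) (.ch (nat_lit 6) (.fin (nat_lit 576464600600887868)))))))))) (.br (nat_lit
 9) (.br (nat_lit 8) (.ch (nat_lit 7) (.ev (nat_lit 976) (nat_lit 18014398577115136) (.ev (nat_lit 989)
 (nat_lit 4096) .dd))) (.ch (nat_lit 8) (.ev (nat_lit 976) (nat_lit 18014398509486080) (.ev (nat_lit 1012)
 (nat_lit 524288) (.ev (nat_lit 1021) (nat_lit 67108864) .dd))))) (.br (nat_lit 14) (.ch (nat_lit 9) (.ev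
 (nat_lit 976) (nat_lit 67108864) (.ev (nat_lit 1348) (nat_lit 4096) (.ev (nat_lit 2308) (nat_lit
 18014398509481984) (.ev (nat_lit 2317) (nat_lit 524288) .dd))))) (.ch (nat_lit 14) (.ev (nat_lit 976) (nat_lit
 18014398509486080) (.ev (nat_lit 2228) (nat_lit 524288) (.ev (nat_lit 2237) (nat_lit 67108864) .dd)))))))))))
 (.br (nat_lit 14) (.ch (nat_lit 13) (.ev (nat_lit 160) (nat_lit 20266198394474496) (.nd (nat_lit 768) (.br
 (nat_lit 13) (.br (nat_lit 10) (.br (nat_lit 8) (.ch (nat_lit 5) (.ev (nat_lit 784) (nat_lit 9288674231451648)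
 (.ev (nat_lit 1444) (nat_lit 562949953421312) (.ev (nat_lit 1453) (nat_lit 524288) .dd)))) (.ch (nat_lit 8)
 (.ev (nat_lit 784) (nat_lit 9851624184872960) (.ev (nat_lit 797) (nat_lit 524288) .dd)))) (.br (nat_lit 11)
 (.ch (nat_lit 10) (.ev (nat_lit 784) (nat_lit 844424930656256) (.ev (nat_lit 797) (nat_lit 9007199254740992)
 .dd))) (.ch (nat_lit 11) (.ev (nat_lit 784) (nat_lit 562949953421312) (.ev (nat_lit 2544) (nat_lit
 9007199254740992) (.nd (nat_lit 4096) (.br (nat_lit 6) (.ch (nat_lit 3) (.ev (nat_lit 4112) (nat_lit 524288)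
 (.ev (nat_lit 4125) (nat_lit 281474976710656) .dd))) (.ch (nat_lit 6) (.fin (nat_lit
 576455804512059974)))))))))) (.br (nat_lit 15) (.br (nat_lit 14) (.ch (nat_lit 13) (.ev (nat_lit 784) (nat_lit
 9288674231975936) (.ev (nat_lit 797) (nat_lit 562949953421312) .dd))) (.ch (nat_lit 14) (.ev (nat_lit 784)
 (nat_lit 9288674231975936) (.ev (nat_lit 797) (nat_lit 562949953421312) .dd)))) (.br (nat_lit 16) (.ch
 (nat_lit 15) (.ev (nat_lit 784) (nat_lit 9007199255265280) (.ev (nat_lit 2656) (nat_lit 844424930131968)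
 .dd))) (.ch (nat_lit 16) (.ev (nat_lit 784) (nat_lit 844424930656256) (.ev (nat_lit 797) (nat_lit
 9007199254740992) .dd))))))))) (.br (nat_lit 15) (.ch (nat_lit 14) (.ev (nat_lit 160) (nat_lit
 29554872621731840) (.nd (nat_lit 768) (.br (nat_lit 8) (.br (nat_lit 4) (.br (nat_lit 1) (.ch (nat_lit 0) (.ev
 (nat_lit 784) (nat_lit 562949958139904) .dd)) (.ch (nat_lit 1) (.ev (nat_lit 784) (nat_lit 524288) (.ev
 (nat_lit 804) (nat_lit 562949953421312) (.ev (nat_lit 813) (nat_lit 4194304) .dd))))) (.br (nat_lit 7) (.ch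
 (nat_lit 4) (.ev (nat_lit 784) (nat_lit 562949958139904) .dd)) (.ch (nat_lit 7) (.ev (nat_lit 784) (nat_lit
 562949953945600) (.ev (nat_lit 797) (nat_lit 4194304) .dd))))) (.br (nat_lit 11) (.br (nat_lit 10) (.ch
 (nat_lit 8) (.ev (nat_lit 784) (nat_lit 4194304) (.ev (nat_lit 1572) (nat_lit 562949953421312) (.ev (nat_lit
 1581) (nat_lit 524288) .dd)))) (.ch (nat_lit 10) (.ev (nat_lit 784) (nat_lit 524288) (.ev (nat_lit 1444)
 (nat_lit 562949953421312) (.ev (nat_lit 1453) (nat_lit 4194304) .dd))))) (.br (nat_lit 15) (.ch (nat_lit 11)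
 (.ev (nat_lit 804) (nat_lit 562949957615616) (.ev (nat_lit 813) (nat_lit 524288) .dd))) (.ch (nat_lit 15) (.ev
 (nat_lit 784) (nat_lit 4194304) (.ev (nat_lit 1012) (nat_lit 562949953421312) (.ev (nat_lit 1021) (nat_lit
 524288) .dd)))))))))) (.ch (nat_lit 15) (.ev (nat_lit 160) (nat_lit 524288) (.nd (nat_lit 608) (.br (nat_lit
 12) (.br (nat_lit 6) (.br (nat_lit 4) (.ch (nat_lit 3) (.ev (nat_lit 624) (nat_lit 3096224810926080) (.ev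
 (nat_lit 740) (nat_lit 9007199254740992) (.ev (nat_lit 884) (nat_lit 4096) (.ev (nat_lit 1216) (nat_lit
 18014398509481984) (.ev (nat_lit 1229) (nat_lit 4194304) .dd)))))) (.ch (nat_lit 4) (.ev (nat_lit 624)
 (nat_lit 27021597831335936) (.ev (nat_lit 692) (nat_lit 562949953421312) (.ev (nat_lit 1028) (nat_lit 4194304)
 (.nd (nat_lit 4384) (.br (nat_lit 11) (.ch (nat_lit 6) (.fin (nat_lit 576597641235219205))) (.ch (nat_lit 11)
 (.ev (nat_lit 4400) (nat_lit 2251799813685248) (.ev (nat_lit 4413) (nat_lit 281474976710656) .dd))))))))))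
 (.br (nat_lit 11) (.ch (nat_lit 6) (.ev (nat_lit 624) (nat_lit 11821949093154816) (.ev (nat_lit 2864) (nat_lit
 18014398509481984) (.ev (nat_lit 2877) (nat_lit 281474976710656) .dd)))) (.ch (nat_lit 11) (.ev (nat_lit 624)
 (nat_lit 18577348462903296) (.ev (nat_lit 692) (nat_lit 67108864) (.ev (nat_lit 1940) (nat_lit
 9007199254740992) (.ev (nat_lit 2404) (nat_lit 4096) (.ev (nat_lit 3092) (nat_lit 4194304) (.ev (nat_lit 3268)
 (nat_lit 281474976710656) (.ev (nat_lit 3277) (nat_lit 2251799813685248) .dd)))))))))) (.br (nat_lit 14) (.br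
 (nat_lit 13) (.ch (nat_lit 12) (.ev (nat_lit 624) (nat_lit 18295873553305600) (.ev (nat_lit 740) (nat_lit
 9007199254740992) (.ev (nat_lit 2416) (nat_lit 2251799817879552) (.ev (nat_lit 2429) (nat_lit 562949953421312)
 .dd))))) (.ch (nat_lit 13) (.ev (nat_lit 624) (nat_lit 11821949026045952) (.ev (nat_lit 1524) (nat_lit
 67108864) (.ev (nat_lit 1792) (nat_lit 18014398509481984) (.ev (nat_lit 1805) (nat_lit 281474976710656)
 .dd)))))) (.br (nat_lit 15) (.ch (nat_lit 14) (.ev (nat_lit 624) (nat_lit 20547673304076288) (.ev (nat_lit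
 692) (nat_lit 562949953421312) (.ev (nat_lit 2644) (nat_lit 67108864) (.ev (nat_lit 2653) (nat_lit
 9007199254740992) .dd))))) (.br (nat_lit 16) (.ch (nat_lit 15) (.ev (nat_lit 624) (nat_lit 29554872554622976)
 (.ev (nat_lit 2384) (nat_lit 562949953421312) (.fin (nat_lit 576544864909869748))))) (.ch (nat_lit 16) (.ev
 (nat_lit 624) (nat_lit 18858823510917120) (.ev (nat_lit 884) (nat_lit 4096) (.ev (nat_lit 3156) (nat_lit
 9007199254740992) (.ev (nat_lit 3165) (nat_lit 2251799813685248) .dd)))))))))))))))))))) (.br (nat_lit 6) (.ch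
 (nat_lit 4) (.ev (nat_lit 48) (nat_lit 63899217777135904) (.nd (nat_lit 480) (.br (nat_lit 9) (.br (nat_lit 7)
 (.br (nat_lit 4) (.ch (nat_lit 2) (.ev (nat_lit 496) (nat_lit 18737226249746253952) (.ev (nat_lit 2772)
 (nat_lit 2147483648) (.ev (nat_lit 2781) (nat_lit 8589934592) .dd)))) (.ch (nat_lit 4) (.ev (nat_lit 496)
 (nat_lit 18737226260479475840) (.ev (nat_lit 2996) (nat_lit 4194304) (.ev (nat_lit 3005) (nat_lit 2048)
 .dd))))) (.br (nat_lit 8) (.ch (nat_lit 7) (.ev (nat_lit 496) (nat_lit 18737226258336186368) (.ev (nat_lit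
 1972) (nat_lit 2048) (.ev (nat_lit 2208) (nat_lit 2147483648) (.ev (nat_lit 2221) (nat_lit 128) .dd))))) (.ch
 (nat_lit 8) (.ev (nat_lit 496) (nat_lit 18446744075928340480) (.nd (nat_lit 1312) (.br (nat_lit 6) (.br
 (nat_lit 3) (.br (nat_lit 2) (.ch (nat_lit 1) (.ev (nat_lit 1328) (nat_lit 290482184555331712) .dd)) (.ch
 (nat_lit 2) (.ev (nat_lit 1328) (nat_lit 8589934720) (.ev (nat_lit 2144) (nat_lit 288230376151711744) (.ev
 (nat_lit 2157) (nat_lit 2251799813685248) .dd))))) (.br (nat_lit 5) (.ch (nat_lit 3) (.ev (nat_lit 1328)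
 (nat_lit 290482184555331712) .dd)) (.ch (nat_lit 5) (.ev (nat_lit 1328) (nat_lit 8589934720) (.ev (nat_lit
 2644) (nat_lit 288230376151711744) (.ev (nat_lit 2653) (nat_lit 2251799813685248) .dd)))))) (.br (nat_lit 8)
 (.br (nat_lit 7) (.ch (nat_lit 6) (.ev (nat_lit 1328) (nat_lit 2251799813685248) (.ev (nat_lit 1444) (nat_lit
 288230376151711744) (.nd (nat_lit 4720) (.br (nat_lit 5) (.ch (nat_lit 4) (.fin (nat_lit 576449207432856140)))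
 (.ch (nat_lit 5) (.ev (nat_lit 4736) (nat_lit 8589934720) .dd))))))) (.ch (nat_lit 7) (.ev (nat_lit 1328)
 (nat_lit 290482175965397120) (.ev (nat_lit 1341) (nat_lit 8589934592) .dd)))) (.br (nat_lit 9) (.ch (nat_lit
 8) (.ev (nat_lit 1328) (nat_lit 290482184555331584) (.ev (nat_lit 1341) (nat_lit 128) .dd))) (.br (nat_lit 16)
 (.ch (nat_lit 9) (.ev (nat_lit 1328) (nat_lit 2251808403619840) (.ev (nat_lit 2752) (nat_lit 128) (.ev
 (nat_lit 2765) (nat_lit 288230376151711744) .dd)))) (.ch (nat_lit 16) (.ev (nat_lit 1328) (nat_lit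
 288230376151711872) (.ev (nat_lit 2240) (nat_lit 2251808403619840) .dd)))))))))))) (.br (nat_lit 13) (.br
 (nat_lit 11) (.ch (nat_lit 9) (.ev (nat_lit 496) (nat_lit 18448995884327766144) (.ev (nat_lit 2580) (nat_lit
 288230376151711744) (.ev (nat_lit 2589) (nat_lit 4194304) .dd)))) (.ch (nat_lit 11) (.ev (nat_lit 496)
 (nat_lit 10741614720) (.nd (nat_lit 1648) (.br (nat_lit 9) (.br (nat_lit 3) (.ch (nat_lit 0) (.ev (nat_lit
 1664) (nat_lit 2251799880794112) (.ev (nat_lit 2228) (nat_lit 18446744073709551616) (.ev (nat_lit 2237)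
 (nat_lit 288230376151711744) .dd)))) (.br (nat_lit 8) (.ch (nat_lit 3) (.ev (nat_lit 1664) (nat_lit
 290482176032505856) (.ev (nat_lit 1677) (nat_lit 18446744073709551616) .dd))) (.ch (nat_lit 8) (.ev (nat_lit
 1664) (nat_lit 18446744073709551616) (.ev (nat_lit 2404) (nat_lit 288230376151711744) (.ev (nat_lit 2772)
 (nat_lit 67108864) (.ev (nat_lit 2781) (nat_lit 2251799813685248) .dd))))))) (.br (nat_lit 11) (.br (nat_lit
 10) (.ch (nat_lit 9) (.ev (nat_lit 1664) (nat_lit 18737226249742057472) .dd)) (.ch (nat_lit 10) (.ev (nat_lit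
 1664) (nat_lit 18734974449928372224) (.ev (nat_lit 1677) (nat_lit 2251799813685248) .dd)))) (.br (nat_lit 13)
 (.ch (nat_lit 11) (.ev (nat_lit 1664) (nat_lit 18737226249674948608) (.ev (nat_lit 1677) (nat_lit 67108864)
 .dd))) (.ch (nat_lit 13) (.ev (nat_lit 1664) (nat_lit 18737226249742057472) .dd))))))))) (.br (nat_lit 14)
 (.ch (nat_lit 13) (.ev (nat_lit 496) (nat_lit 290482186707011584) (.nd (nat_lit 1648) (.br (nat_lit 7) (.br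
 (nat_lit 4) (.br (nat_lit 3) (.ch (nat_lit 2) (.ev (nat_lit 1664) (nat_lit 18446744073776660608) .dd)) (.ch
 (nat_lit 3) (.ev (nat_lit 1664) (nat_lit 67108992) (.ev (nat_lit 1677) (nat_lit 18446744073709551616) .dd))))
 (.br (nat_lit 6) (.ch (nat_lit 4) (.ev (nat_lit 1664) (nat_lit 18446744073709551744) (.ev (nat_lit 1677)
 (nat_lit 67108864) .dd))) (.ch (nat_lit 6) (.ev (nat_lit 1664) (nat_lit 67108992) (.ev (nat_lit 1677) (nat_lit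
 18446744073709551616) .dd))))) (.br (nat_lit 10) (.br (nat_lit 9) (.ch (nat_lit 7) (.ev (nat_lit 1664)
 (nat_lit 67108992) (.ev (nat_lit 1677) (nat_lit 18446744073709551616) .dd))) (.ch (nat_lit 9) (.ev (nat_lit
 1664) (nat_lit 128) (.ev (nat_lit 1700) (nat_lit 18446744073709551616) (.ev (nat_lit 1709) (nat_lit 67108864)
 .dd))))) (.br (nat_lit 11) (.ch (nat_lit 10) (.ev (nat_lit 1664) (nat_lit 18446744073709551616) (.ev (nat_lit
 1972) (nat_lit 67108864) (.ev (nat_lit 1981) (nat_lit 128) .dd)))) (.br (nat_lit 15) (.ch (nat_lit 11) (.ev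
 (nat_lit 1664) (nat_lit 18446744073776660480) (.ev (nat_lit 1677) (nat_lit 128) .dd))) (.ch (nat_lit 15) (.ev
 (nat_lit 1664) (nat_lit 18446744073709551744) (.ev (nat_lit 1677) (nat_lit 67108864) .dd)))))))))) (.br
 (nat_lit 15) (.ch (nat_lit 14) (.ev (nat_lit 496) (nat_lit 18734974449861265536) (.ev (nat_lit 596) (nat_lit
 8589934592) (.nd (nat_lit 1648) (.br (nat_lit 8) (.br (nat_lit 3) (.br (nat_lit 2) (.ch (nat_lit 1) (.ev
 (nat_lit 1664) (nat_lit 2251802028277760) (.ev (nat_lit 1677) (nat_lit 4194304) .dd))) (.ch (nat_lit 2) (.ev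
 (nat_lit 1664) (nat_lit 2251801965363200) (.ev (nat_lit 1677) (nat_lit 67108864) .dd)))) (.br (nat_lit 4) (.ch
 (nat_lit 3) (.ev (nat_lit 2724) (nat_lit 2147483648) (.nd (nat_lit 4000) (.br (nat_lit 6) (.ch (nat_lit 3)
 (.ev (nat_lit 4016) (nat_lit 4194304) (.fin (nat_lit 576784558301069303)))) (.ch (nat_lit 6) (.ev (nat_lit
 4016) (nat_lit 67108864) (.nd (nat_lit 5136) (.br (nat_lit 11) (.ch (nat_lit 4) (.ev (nat_lit 5152) (nat_lit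
 2251799813685248) (.ev (nat_lit 5165) (nat_lit 4194304) .dd))) (.ch (nat_lit 11) (.fin (nat_lit
 576447008388629087))))))))))) (.ch (nat_lit 4) (.ev (nat_lit 1664) (nat_lit 2218786816) (.ev (nat_lit 1677)
 (nat_lit 2251799813685248) .dd))))) (.br (nat_lit 12) (.br (nat_lit 11) (.ch (nat_lit 8) (.ev (nat_lit 1664)
 (nat_lit 2251799884988416) (.ev (nat_lit 1677) (nat_lit 2147483648) .dd))) (.ch (nat_lit 11) (.ev (nat_lit
 1664) (nat_lit 2251802032472064) .dd))) (.br (nat_lit 15) (.ch (nat_lit 12) (.ev (nat_lit 1664) (nat_lit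
 2218786816) (.ev (nat_lit 1677) (nat_lit 2251799813685248) .dd))) (.br (nat_lit 16) (.ch (nat_lit 15) (.ev
 (nat_lit 1664) (nat_lit 4194304) (.ev (nat_lit 1940) (nat_lit 67108864) (.ev (nat_lit 2468) (nat_lit
 2147483648) (.ev (nat_lit 2477) (nat_lit 2251799813685248) .dd))))) (.ch (nat_lit 16) (.ev (nat_lit 1664)
 (nat_lit 2251799880794112) (.nd (nat_lit 4160) (.br (nat_lit 13) (.ch (nat_lit 11) (.ev (nat_lit 4176)
 (nat_lit 2151677952) .dd)) (.ch (nat_lit 13) (.nd (nat_lit 5360) (.br (nat_lit 2) (.ch (nat_lit 1) (.fin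
 (nat_lit 576355748930863684))) (.ch (nat_lit 2) (.ev (nat_lit 5376) (nat_lit 4194304) (.ev (nat_lit 5389)
 (nat_lit 2147483648) .dd)))))))))))))))))) (.ch (nat_lit 15) (.ev (nat_lit 496) (nat_lit 2251808403619968)
 (.nd (nat_lit 1040) (.br (nat_lit 8) (.br (nat_lit 5) (.br (nat_lit 1) (.ch (nat_lit 0) (.ev (nat_lit 1056)
 (nat_lit 18446744073709553664) (.ev (nat_lit 1396) (nat_lit 288230376151711744) (.ev (nat_lit 2240) (nat_lit
 67108864) (.ev (nat_lit 2656) (nat_lit 2147483648) (.ev (nat_lit 2669) (nat_lit 4194304) .dd)))))) (.ch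
 (nat_lit 1) (.ev (nat_lit 1056) (nat_lit 18446744075857035264) (.ev (nat_lit 1444) (nat_lit 2048) (.ev
 (nat_lit 2176) (nat_lit 67108864) (.ev (nat_lit 2340) (nat_lit 288230376151711744) (.ev (nat_lit 2349)
 (nat_lit 4194304) .dd))))))) (.br (nat_lit 6) (.ch (nat_lit 5) (.ev (nat_lit 1056) (nat_lit
 18734974452080052224) .dd)) (.ch (nat_lit 6) (.ev (nat_lit 1056) (nat_lit 18446744075928340480) (.ev (nat_lit
 1069) (nat_lit 288230376151711744) .dd))))) (.br (nat_lit 11) (.br (nat_lit 9) (.ch (nat_lit 8) (.ev (nat_lit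
 1056) (nat_lit 71305216) (.ev (nat_lit 1076) (nat_lit 2147483648) (.ev (nat_lit 1172) (nat_lit
 18446744073709551616) (.ev (nat_lit 1181) (nat_lit 288230376151711744) .dd))))) (.ch (nat_lit 9) (.ev (nat_lit
 1056) (nat_lit 288230378366306304) (.ev (nat_lit 1636) (nat_lit 18446744073709551616) (.ev (nat_lit 1645)
 (nat_lit 4194304) .dd))))) (.br (nat_lit 12) (.ch (nat_lit 11) (.ev (nat_lit 1056) (nat_lit 2151677952) (.ev
 (nat_lit 1076) (nat_lit 2048) (.ev (nat_lit 2432) (nat_lit 67108864) (.fin (nat_lit 576462401569243720))))))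
 (.br (nat_lit 16) (.ch (nat_lit 12) (.ev (nat_lit 1056) (nat_lit 18734974452012943360) (.ev (nat_lit 1069)
 (nat_lit 67108864) .dd))) (.ch (nat_lit 16) (.ev (nat_lit 1056) (nat_lit 288230376155906048) (.ev (nat_lit
 2112) (nat_lit 2048) (.ev (nat_lit 2628) (nat_lit 18446744073709551616) (.fin (nat_lit
 576452505956205092)))))))))))))))))))) (.ch (nat_lit 6) (.ev (nat_lit 48) (nat_lit 18791832397321601152) (.nd
 (nat_lit 384) (.br (nat_lit 10) (.br (nat_lit 5) (.br (nat_lit 2) (.ch (nat_lit 0) (.ev (nat_lit 400) (nat_lit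
 9293072282159392) (.nd (nat_lit 960) (.br (nat_lit 8) (.br (nat_lit 4) (.br (nat_lit 1) (.ch (nat_lit 0) (.ev
 (nat_lit 976) (nat_lit 67112960) (.ev (nat_lit 989) (nat_lit 8589934592) .dd))) (.ch (nat_lit 1) (.ev (nat_lit
 976) (nat_lit 8657047552) .dd))) (.br (nat_lit 7) (.ch (nat_lit 4) (.ev (nat_lit 976) (nat_lit 67108864) (.ev
 (nat_lit 1524) (nat_lit 4096) (.ev (nat_lit 1533) (nat_lit 8589934592) .dd)))) (.ch (nat_lit 7) (.ev (nat_lit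
 976) (nat_lit 8657043456) (.ev (nat_lit 989) (nat_lit 4096) .dd))))) (.br (nat_lit 11) (.br (nat_lit 10) (.ch
 (nat_lit 8) (.ev (nat_lit 976) (nat_lit 8589938688) (.ev (nat_lit 989) (nat_lit 67108864) .dd))) (.ch (nat_lit
 10) (.ev (nat_lit 976) (nat_lit 8657043456) (.ev (nat_lit 989) (nat_lit 4096) .dd)))) (.br (nat_lit 13) (.ch
 (nat_lit 11) (.ev (nat_lit 976) (nat_lit 8657047552) .dd)) (.br (nat_lit 15) (.ch (nat_lit 13) (.ev (nat_lit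
 976) (nat_lit 4096) (.ev (nat_lit 1012) (nat_lit 8589934592) (.ev (nat_lit 1021) (nat_lit 67108864) .dd))))
 (.ch (nat_lit 15) (.ev (nat_lit 976) (nat_lit 8589934592) (.ev (nat_lit 1700) (nat_lit 67108864) (.ev (nat_lit
 1709) (nat_lit 4096) .dd))))))))))) (.ch (nat_lit 2) (.ev (nat_lit 400) (nat_lit 4406707748896) (.nd (nat_lit
 1040) (.br (nat_lit 9) (.br (nat_lit 5) (.ch (nat_lit 2) (.ev (nat_lit 1056) (nat_lit 4096) (.ev (nat_lit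
 2164) (nat_lit 2048) (.ev (nat_lit 2228) (nat_lit 256) (.nd (nat_lit 4192) (.br (nat_lit 15) (.ch (nat_lit 12)
 (.ev (nat_lit 4208) (nat_lit 9288674231451648) .dd)) (.ch (nat_lit 15) (.fin (nat_lit
 576439311837643304))))))))) (.br (nat_lit 7) (.ch (nat_lit 5) (.ev (nat_lit 1056) (nat_lit 9007199254743296)
 (.ev (nat_lit 1076) (nat_lit 281474976710656) (.ev (nat_lit 1085) (nat_lit 4096) .dd)))) (.ch (nat_lit 7) (.ev
 (nat_lit 1056) (nat_lit 281474976710656) (.ev (nat_lit 1076) (nat_lit 256) (.ev (nat_lit 2496) (nat_lit 2048)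
 (.ev (nat_lit 2724) (nat_lit 4096) (.ev (nat_lit 2733) (nat_lit 9007199254740992) .dd)))))))) (.br (nat_lit
 13) (.br (nat_lit 10) (.ch (nat_lit 9) (.ev (nat_lit 1056) (nat_lit 9007199254747136) (.ev (nat_lit 2404)
 (nat_lit 281474976710656) (.ev (nat_lit 2413) (nat_lit 256) .dd)))) (.ch (nat_lit 10) (.ev (nat_lit 1056)
 (nat_lit 9007199254747136) (.ev (nat_lit 2724) (nat_lit 256) (.ev (nat_lit 2733) (nat_lit 281474976710656)
 .dd))))) (.br (nat_lit 14) (.ch (nat_lit 13) (.ev (nat_lit 1056) (nat_lit 281474976717056) (.ev (nat_lit 1069)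
 (nat_lit 9007199254740992) .dd))) (.ch (nat_lit 14) (.ev (nat_lit 1056) (nat_lit 9007199254745344) (.ev
 (nat_lit 2308) (nat_lit 2048) (.ev (nat_lit 2317) (nat_lit 281474976710656) .dd))))))))))) (.br (nat_lit 7)
 (.ch (nat_lit 5) (.ev (nat_lit 400) (nat_lit 4406640642304) (.nd (nat_lit 960) (.br (nat_lit 7) (.br (nat_lit
 3) (.ch (nat_lit 2) (.ev (nat_lit 976) (nat_lit 9288674298560512) (.ev (nat_lit 1204) (nat_lit 4096) (.ev
 (nat_lit 1213) (nat_lit 32) .dd)))) (.br (nat_lit 5) (.ch (nat_lit 3) (.ev (nat_lit 976) (nat_lit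
 281475043819520) (.ev (nat_lit 2240) (nat_lit 4128) (.ev (nat_lit 2253) (nat_lit 9007199254740992) .dd))))
 (.ch (nat_lit 5) (.ev (nat_lit 976) (nat_lit 4096) (.ev (nat_lit 1444) (nat_lit 67108864) (.ev (nat_lit 2404)
 (nat_lit 32) (.ev (nat_lit 2736) (nat_lit 281474976710656) (.ev (nat_lit 2749) (nat_lit 9007199254740992)
 .dd)))))))) (.br (nat_lit 15) (.br (nat_lit 10) (.ch (nat_lit 7) (.ev (nat_lit 976) (nat_lit 67108896) (.ev
 (nat_lit 1700) (nat_lit 281474976710656) (.ev (nat_lit 2228) (nat_lit 4096) (.ev (nat_lit 2237) (nat_lit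
 9007199254740992) .dd))))) (.ch (nat_lit 10) (.ev (nat_lit 976) (nat_lit 281474976710656) (.ev (nat_lit 2164)
 (nat_lit 4096) (.ev (nat_lit 2176) (nat_lit 9007199254740992) (.ev (nat_lit 2228) (nat_lit 32) (.ev (nat_lit
 2237) (nat_lit 67108864) .dd))))))) (.br (nat_lit 16) (.ch (nat_lit 15) (.ev (nat_lit 976) (nat_lit
 9288674298560544) (.ev (nat_lit 989) (nat_lit 4096) .dd))) (.ch (nat_lit 16) (.ev (nat_lit 976) (nat_lit
 9288674231455776) (.ev (nat_lit 989) (nat_lit 67108864) .dd))))))))) (.ch (nat_lit 7) (.ev (nat_lit 400)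
 (nat_lit 9011605895385376) (.nd (nat_lit 1888) (.br (nat_lit 6) (.br (nat_lit 3) (.br (nat_lit 2) (.ch
 (nat_lit 0) (.ev (nat_lit 1904) (nat_lit 281475043821568) .dd)) (.ch (nat_lit 2) (.ev (nat_lit 1904) (nat_lit
 281474976712704) (.ev (nat_lit 1917) (nat_lit 67108864) .dd)))) (.br (nat_lit 5) (.ch (nat_lit 3) (.ev
 (nat_lit 1904) (nat_lit 67110912) (.ev (nat_lit 1917) (nat_lit 281474976710656) .dd))) (.ch (nat_lit 5) (.ev
 (nat_lit 1904) (nat_lit 281475043821568) .dd)))) (.br (nat_lit 12) (.br (nat_lit 9) (.ch (nat_lit 6) (.ev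
 (nat_lit 1904) (nat_lit 67110912) (.ev (nat_lit 1917) (nat_lit 281474976710656) .dd))) (.ch (nat_lit 9) (.ev
 (nat_lit 1904) (nat_lit 2048) (.ev (nat_lit 1940) (nat_lit 281474976710656) (.ev (nat_lit 1949) (nat_lit
 67108864) .dd))))) (.br (nat_lit 13) (.ch (nat_lit 12) (.ev (nat_lit 1904) (nat_lit 281475043821568) .dd))
 (.br (nat_lit 15) (.ch (nat_lit 13) (.ev (nat_lit 1904) (nat_lit 281474976710656) (.ev (nat_lit 2852) (nat_lit
 2048) (.ev (nat_lit 2861) (nat_lit 67108864) .dd)))) (.ch (nat_lit 15) (.ev (nat_lit 1904) (nat_lit 2048)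
 (.fin (nat_lit 575663056618996043))))))))))))) (.br (nat_lit 12) (.br (nat_lit 11) (.ch (nat_lit 10) (.ev
 (nat_lit 400) (nat_lit 9293072345077792) (.nd (nat_lit 1888) (.br (nat_lit 6) (.br (nat_lit 4) (.br (nat_lit
 1) (.ch (nat_lit 0) (.ev (nat_lit 1904) (nat_lit 4194560) (.ev (nat_lit 1917) (nat_lit 8589934592) .dd))) (.ch
 (nat_lit 1) (.ev (nat_lit 1904) (nat_lit 8594128896) (.ev (nat_lit 1917) (nat_lit 256) .dd)))) (.br (nat_lit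
 5) (.ch (nat_lit 4) (.ev (nat_lit 1904) (nat_lit 256) (.ev (nat_lit 1940) (nat_lit 8589934592) (.ev (nat_lit
 1949) (nat_lit 4194304) .dd)))) (.ch (nat_lit 5) (.ev (nat_lit 1904) (nat_lit 8589934848) (.ev (nat_lit 1917)
 (nat_lit 4194304) .dd))))) (.br (nat_lit 13) (.br (nat_lit 10) (.ch (nat_lit 6) (.ev (nat_lit 1940) (nat_lit
 4194304) (.nd (nat_lit 4848) (.br (nat_lit 12) (.ch (nat_lit 3) (.fin (nat_lit 576464600597742146))) (.ch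
 (nat_lit 12) (.ev (nat_lit 4864) (nat_lit 8589934848) .dd)))))) (.ch (nat_lit 10) (.ev (nat_lit 1904) (nat_lit
 8594128896) (.ev (nat_lit 1917) (nat_lit 256) .dd)))) (.br (nat_lit 14) (.ch (nat_lit 13) (.ev (nat_lit 1904)
 (nat_lit 8589934848) (.ev (nat_lit 1917) (nat_lit 4194304) .dd))) (.ch (nat_lit 14) (.ev (nat_lit 1904)
 (nat_lit 8594129152) .dd)))))))) (.ch (nat_lit 11) (.ev (nat_lit 400) (nat_lit 9293080935012608) (.nd (nat_lit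
 848) (.br (nat_lit 5) (.br (nat_lit 3) (.br (nat_lit 2) (.ch (nat_lit 0) (.ev (nat_lit 864) (nat_lit 4194336)
 .dd)) (.ch (nat_lit 2) (.ev (nat_lit 864) (nat_lit 32) (.ev (nat_lit 877) (nat_lit 4194304) .dd)))) (.br
 (nat_lit 4) (.ch (nat_lit 3) (.ev (nat_lit 864) (nat_lit 4194336) .dd)) (.ch (nat_lit 4) (.ev (nat_lit 864)
 (nat_lit 4194304) (.ev (nat_lit 877) (nat_lit 32) .dd))))) (.br (nat_lit 13) (.br (nat_lit 11) (.ch (nat_lit
 5) (.ev (nat_lit 1204) (nat_lit 32) (.ev (nat_lit 1213) (nat_lit 4194304) .dd))) (.ch (nat_lit 11) (.ev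
 (nat_lit 864) (nat_lit 32) (.ev (nat_lit 877) (nat_lit 4194304) .dd)))) (.br (nat_lit 14) (.ch (nat_lit 13)
 (.ev (nat_lit 1172) (nat_lit 32) (.ev (nat_lit 1181) (nat_lit 4194304) .dd))) (.ch (nat_lit 14) (.ev (nat_lit
 864) (nat_lit 32) (.ev (nat_lit 877) (nat_lit 4194304) .dd)))))))))) (.br (nat_lit 13) (.ch (nat_lit 12) (.ev
 (nat_lit 400) (nat_lit 9007207911784736) (.nd (nat_lit 768) (.br (nat_lit 6) (.br (nat_lit 3) (.br (nat_lit 1)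
 (.ch (nat_lit 0) (.ev (nat_lit 784) (nat_lit 281474976710656) (.ev (nat_lit 804) (nat_lit 4194304) (.ev
 (nat_lit 1940) (nat_lit 4096) (.nd (nat_lit 4032) (.br (nat_lit 16) (.ch (nat_lit 4) (.fin (nat_lit
 576468998673613347))) (.ch (nat_lit 16) (.fin (nat_lit 576131447798579751))))))))) (.ch (nat_lit 1) (.ev
 (nat_lit 784) (nat_lit 4398046517248) (.ev (nat_lit 1732) (nat_lit 281474976710656) (.ev (nat_lit 1741)
 (nat_lit 4194304) .dd))))) (.br (nat_lit 5) (.ch (nat_lit 3) (.ev (nat_lit 784) (nat_lit 285873023225856) (.ev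
 (nat_lit 2580) (nat_lit 2048) (.ev (nat_lit 2589) (nat_lit 4194304) .dd)))) (.ch (nat_lit 5) (.ev (nat_lit
 784) (nat_lit 4196352) (.ev (nat_lit 1700) (nat_lit 281474976710656) (.ev (nat_lit 1940) (nat_lit 4096) (.ev
 (nat_lit 1949) (nat_lit 4398046511104) .dd))))))) (.br (nat_lit 12) (.br (nat_lit 9) (.ch (nat_lit 6) (.ev
 (nat_lit 784) (nat_lit 281474980911104) (.ev (nat_lit 797) (nat_lit 4398046511104) .dd))) (.ch (nat_lit 9)
 (.ev (nat_lit 784) (nat_lit 4398046513152) (.ev (nat_lit 1700) (nat_lit 281474976710656) (.ev (nat_lit 2004)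
 (nat_lit 4194304) (.ev (nat_lit 2013) (nat_lit 4096) .dd)))))) (.br (nat_lit 13) (.ch (nat_lit 12) (.ev
 (nat_lit 784) (nat_lit 285873023227904) (.ev (nat_lit 797) (nat_lit 4194304) .dd))) (.br (nat_lit 15) (.ch
 (nat_lit 13) (.ev (nat_lit 784) (nat_lit 4194304) (.ev (nat_lit 804) (nat_lit 4398046511104) (.ev (nat_lit
 1700) (nat_lit 2048) (.ev (nat_lit 1940) (nat_lit 4096) (.ev (nat_lit 1949) (nat_lit 281474976710656)
 .dd)))))) (.ch (nat_lit 15) (.ev (nat_lit 784) (nat_lit 285873027420160) (.ev (nat_lit 797) (nat_lit 2048)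
 .dd)))))))))) (.br (nat_lit 14) (.ch (nat_lit 13) (.ev (nat_lit 400) (nat_lit 281483566651424) (.ev (nat_lit
 468) (nat_lit 67108864) (.nd (nat_lit 848) (.br (nat_lit 10) (.br (nat_lit 8) (.br (nat_lit 2) (.ch (nat_lit
 0) (.ev (nat_lit 864) (nat_lit 9007199258935296) (.ev (nat_lit 1012) (nat_lit 256) (.ev (nat_lit 1021)
 (nat_lit 4398046511104) .dd)))) (.ch (nat_lit 2) (.ev (nat_lit 864) (nat_lit 9011597301252352) (.ev (nat_lit
 877) (nat_lit 4194304) .dd)))) (.br (nat_lit 9) (.ch (nat_lit 8) (.ev (nat_lit 864) (nat_lit 9007199258935296)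
 (.ev (nat_lit 884) (nat_lit 4398046511104) (.ev (nat_lit 893) (nat_lit 256) .dd)))) (.ch (nat_lit 9) (.ev
 (nat_lit 1572) (nat_lit 256) (.ev (nat_lit 1744) (nat_lit 9007199254740992) (.fin (nat_lit
 576466799610511962))))))) (.br (nat_lit 13) (.br (nat_lit 11) (.ch (nat_lit 10) (.ev (nat_lit 864) (nat_lit
 9011597301252352) (.ev (nat_lit 877) (nat_lit 4194304) .dd))) (.ch (nat_lit 11) (.ev (nat_lit 864) (nat_lit
 4398046511360) (.ev (nat_lit 1636) (nat_lit 4194304) (.ev (nat_lit 1645) (nat_lit 9007199254740992) .dd)))))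
 (.br (nat_lit 16) (.ch (nat_lit 13) (.ev (nat_lit 864) (nat_lit 4398050705664) (.ev (nat_lit 877) (nat_lit
 9007199254740992) .dd))) (.ch (nat_lit 16) (.ev (nat_lit 864) (nat_lit 9011597305446656) .dd))))))))) (.ch
 (nat_lit 14) (.ev (nat_lit 400) (nat_lit 281475048020224) (.nd (nat_lit 960) (.br (nat_lit 10) (.br (nat_lit
 5) (.br (nat_lit 2) (.ch (nat_lit 1) (.ev (nat_lit 976) (nat_lit 4398046511136) (.ev (nat_lit 2688) (nat_lit
 8589934592) (.ev (nat_lit 2701) (nat_lit 9007199254740992) .dd)))) (.ch (nat_lit 2) (.ev (nat_lit 976)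
 (nat_lit 9011605891186720) .dd))) (.br (nat_lit 9) (.ch (nat_lit 5) (.ev (nat_lit 976) (nat_lit
 9007199254740992) (.ev (nat_lit 2164) (nat_lit 32) (.ev (nat_lit 2176) (nat_lit 4398046511104) (.ev (nat_lit
 2189) (nat_lit 8589934592) .dd))))) (.ch (nat_lit 9) (.ev (nat_lit 976) (nat_lit 4406636445696) (.ev (nat_lit
 1572) (nat_lit 32) (.ev (nat_lit 1581) (nat_lit 9007199254740992) .dd)))))) (.br (nat_lit 14) (.br (nat_lit
 11) (.ch (nat_lit 10) (.ev (nat_lit 976) (nat_lit 32) (.ev (nat_lit 1012) (nat_lit 4398046511104) (.ev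
 (nat_lit 2448) (nat_lit 8589934592) (.ev (nat_lit 2461) (nat_lit 9007199254740992) .dd))))) (.ch (nat_lit 11)
 (.ev (nat_lit 976) (nat_lit 9011597301252128) (.ev (nat_lit 989) (nat_lit 8589934592) .dd)))) (.br (nat_lit
 15) (.ch (nat_lit 14) (.ev (nat_lit 976) (nat_lit 9011605891186688) (.ev (nat_lit 989) (nat_lit 32) .dd)))
 (.ch (nat_lit 15) (.ev (nat_lit 976) (nat_lit 8589934624) (.nd (nat_lit 4096) (.br (nat_lit 9) (.ch (nat_lit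
 6) (.ev (nat_lit 4112) (nat_lit 9007199254740992) (.ev (nat_lit 4125) (nat_lit 4398046511104) .dd))) (.ch
 (nat_lit 9) (.nd (nat_lit 5264) (.br (nat_lit 8) (.ch (nat_lit 3) (.fin (nat_lit 576421719523672624))) (.ch
 (nat_lit 8) (.ev (nat_lit 5280) (nat_lit 4398046511104) (.ev (nat_lit 5293) (nat_lit 9007199254740992)
 .dd))))))))))))))))))))))))) (.br (nat_lit 11) (.br (nat_lit 10) (.ch (nat_lit 8) (.ev (nat_lit 48) (nat_lit
 318352607447877888) (.nd (nat_lit 512) (.br (nat_lit 11) (.br (nat_lit 8) (.br (nat_lit 1) (.ch (nat_lit 0)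
 (.ev (nat_lit 528) (nat_lit 18446744073793437856) (.ev (nat_lit 2468) (nat_lit 36028797018963968) (.ev
 (nat_lit 3348) (nat_lit 524288) (.ev (nat_lit 3357) (nat_lit 4096) .dd))))) (.ch (nat_lit 1) (.ev (nat_lit
 528) (nat_lit 18482772870812926112) (.ev (nat_lit 541) (nat_lit 4096) .dd)))) (.br (nat_lit 10) (.ch (nat_lit
 8) (.ev (nat_lit 528) (nat_lit 36028797086601216) (.ev (nat_lit 548) (nat_lit 16777216) (.ev (nat_lit 644)
 (nat_lit 32) (.ev (nat_lit 2784) (nat_lit 18446744073709551616) (.ev (nat_lit 2797) (nat_lit 128) .dd))))))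
 (.ch (nat_lit 10) (.ev (nat_lit 528) (nat_lit 36028797035741216) (.nd (nat_lit 1888) (.br (nat_lit 12) (.br
 (nat_lit 6) (.ch (nat_lit 0) (.ev (nat_lit 1904) (nat_lit 18446744073777188992) .dd)) (.br (nat_lit 10) (.ch
 (nat_lit 6) (.ev (nat_lit 1904) (nat_lit 67113088) (.ev (nat_lit 1940) (nat_lit 524288) (.ev (nat_lit 1949)
 (nat_lit 18446744073709551616) .dd)))) (.ch (nat_lit 10) (.ev (nat_lit 1904) (nat_lit 18446744073776664576)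
 (.ev (nat_lit 2080) (nat_lit 524416) .dd))))) (.br (nat_lit 14) (.ch (nat_lit 12) (.ev (nat_lit 1904) (nat_lit
 67108992) (.ev (nat_lit 1940) (nat_lit 18446744073710075904) (.ev (nat_lit 1949) (nat_lit 4096) .dd)))) (.br
 (nat_lit 15) (.ch (nat_lit 14) (.ev (nat_lit 1904) (nat_lit 18446744073710076032) (.ev (nat_lit 2368) (nat_lit
 67112960) .dd))) (.ch (nat_lit 15) (.ev (nat_lit 1904) (nat_lit 18446744073710080000) (.ev (nat_lit 1940)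
 (nat_lit 128) (.ev (nat_lit 1949) (nat_lit 67108864) .dd)))))))))))) (.br (nat_lit 14) (.br (nat_lit 12) (.ch
 (nat_lit 11) (.ev (nat_lit 528) (nat_lit 18446744073793966208) (.ev (nat_lit 2772) (nat_lit 36028797018963968)
 (.ev (nat_lit 2781) (nat_lit 32) .dd)))) (.ch (nat_lit 12) (.ev (nat_lit 528) (nat_lit 36028797036269600) (.ev
 (nat_lit 2736) (nat_lit 18446744073709551616) (.nd (nat_lit 3552) (.br (nat_lit 14) (.ch (nat_lit 13) (.nd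
 (nat_lit 4784) (.br (nat_lit 9) (.ch (nat_lit 5) (.fin (nat_lit 576453605490901566))) (.ch (nat_lit 9) (.ev
 (nat_lit 4800) (nat_lit 128) (.ev (nat_lit 4813) (nat_lit 67108864) .dd)))))) (.ch (nat_lit 14) (.ev (nat_lit
 3568) (nat_lit 67108992) .dd)))))))) (.br (nat_lit 15) (.ch (nat_lit 14) (.ev (nat_lit 528) (nat_lit
 18446744073793441920) (.ev (nat_lit 644) (nat_lit 524288) (.ev (nat_lit 2228) (nat_lit 32) (.ev (nat_lit 2237)
 (nat_lit 36028797018963968) .dd))))) (.br (nat_lit 16) (.ch (nat_lit 15) (.ev (nat_lit 528) (nat_lit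
 18482772870729040032) (.nd (nat_lit 1888) (.br (nat_lit 11) (.br (nat_lit 8) (.br (nat_lit 4) (.ch (nat_lit 0)
 (.ev (nat_lit 1904) (nat_lit 67108864) (.ev (nat_lit 3236) (nat_lit 16777216) (.ev (nat_lit 3245) (nat_lit
 4096) .dd)))) (.ch (nat_lit 4) (.ev (nat_lit 1904) (nat_lit 83890176) .dd))) (.br (nat_lit 10) (.ch (nat_lit
 8) (.ev (nat_lit 1904) (nat_lit 83886080) (.ev (nat_lit 1917) (nat_lit 4096) .dd))) (.ch (nat_lit 10) (.ev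
 (nat_lit 1904) (nat_lit 67108864) (.ev (nat_lit 2240) (nat_lit 16781312) .dd))))) (.br (nat_lit 14) (.br
 (nat_lit 13) (.ch (nat_lit 11) (.ev (nat_lit 1904) (nat_lit 16777216) (.nd (nat_lit 4224) (.br (nat_lit 13)
 (.ch (nat_lit 12) (.ev (nat_lit 4240) (nat_lit 4096) (.ev (nat_lit 4253) (nat_lit 67108864) .dd))) (.ch
 (nat_lit 13) (.fin (nat_lit 576597641769992965))))))) (.ch (nat_lit 13) (.ev (nat_lit 1904) (nat_lit 4096)
 (.ev (nat_lit 3236) (nat_lit 16777216) (.ev (nat_lit 3245) (nat_lit 67108864) .dd))))) (.br (nat_lit 16) (.ch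
 (nat_lit 14) (.ev (nat_lit 1904) (nat_lit 16777216) (.ev (nat_lit 2884) (nat_lit 67108864) (.ev (nat_lit 2893)
 (nat_lit 4096) .dd)))) (.ch (nat_lit 16) (.ev (nat_lit 1904) (nat_lit 16781312) (.ev (nat_lit 1917) (nat_lit
 67108864) .dd))))))))) (.ch (nat_lit 16) (.ev (nat_lit 528) (nat_lit 18482772870728515744) (.ev (nat_lit 2228)
 (nat_lit 524288) (.ev (nat_lit 3188) (nat_lit 67108864) (.nd (nat_lit 3552) (.br (nat_lit 9) (.br (nat_lit 3)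
 (.ch (nat_lit 0) (.ev (nat_lit 3568) (nat_lit 16781312) .dd)) (.br (nat_lit 6) (.ch (nat_lit 3) (.ev (nat_lit
 3568) (nat_lit 16781312) .dd)) (.ch (nat_lit 6) (.ev (nat_lit 3568) (nat_lit 16777216) (.ev (nat_lit 3581)
 (nat_lit 4096) .dd))))) (.br (nat_lit 12) (.ch (nat_lit 9) (.ev (nat_lit 3568) (nat_lit 16781312) .dd)) (.br
 (nat_lit 16) (.ch (nat_lit 12) (.ev (nat_lit 3568) (nat_lit 16781312) .dd)) (.ch (nat_lit 16) (.fin (nat_lit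
 576460202550182477)))))))))))))))))) (.ch (nat_lit 10) (.ev (nat_lit 48) (nat_lit 18782829604706980000) (.nd
 (nat_lit 560) (.br (nat_lit 8) (.br (nat_lit 5) (.br (nat_lit 1) (.ch (nat_lit 0) (.ev (nat_lit 576) (nat_lit
 18295873553827840) (.ev (nat_lit 589) (nat_lit 256) .dd))) (.ch (nat_lit 1) (.ev (nat_lit 576) (nat_lit
 18014398509482240) (.ev (nat_lit 2736) (nat_lit 2048) (.nd (nat_lit 3504) (.br (nat_lit 13) (.br (nat_lit 5)
 (.ch (nat_lit 0) (.ev (nat_lit 3520) (nat_lit 281475044343808) .dd)) (.br (nat_lit 11) (.ch (nat_lit 5) (.ev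
 (nat_lit 3520) (nat_lit 281475043819520) (.ev (nat_lit 3533) (nat_lit 524288) .dd))) (.ch (nat_lit 11) (.ev
 (nat_lit 3520) (nat_lit 281475044343808) .dd)))) (.br (nat_lit 14) (.ch (nat_lit 13) (.ev (nat_lit 3520)
 (nat_lit 524288) (.fin (nat_lit 576791156293583811)))) (.br (nat_lit 15) (.ch (nat_lit 14) (.ev (nat_lit 3520)
 (nat_lit 281475044343808) .dd)) (.ch (nat_lit 15) (.ev (nat_lit 3520) (nat_lit 67633152) (.ev (nat_lit 3533)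
 (nat_lit 281474976710656) .dd))))))))))) (.br (nat_lit 7) (.ch (nat_lit 5) (.ev (nat_lit 576) (nat_lit
 67633408) (.ev (nat_lit 3028) (nat_lit 18014398509481984) (.nd (nat_lit 3648) (.br (nat_lit 11) (.ch (nat_lit
 8) (.fin (nat_lit 576197420025069737))) (.br (nat_lit 12) (.ch (nat_lit 11) (.ev (nat_lit 3664) (nat_lit
 281474976712704) .dd)) (.ch (nat_lit 12) (.ev (nat_lit 3664) (nat_lit 281474976712704) .dd)))))))) (.ch
 (nat_lit 7) (.ev (nat_lit 576) (nat_lit 18295873486716928) (.ev (nat_lit 2852) (nat_lit 256) (.nd (nat_lit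
 3504) (.br (nat_lit 5) (.ch (nat_lit 2) (.fin (nat_lit 576542665842573625))) (.br (nat_lit 10) (.ch (nat_lit
 5) (.ev (nat_lit 3520) (nat_lit 67108864) (.ev (nat_lit 3533) (nat_lit 2048) .dd))) (.ch (nat_lit 10) (.ev
 (nat_lit 3520) (nat_lit 2048) (.ev (nat_lit 3533) (nat_lit 67108864) .dd))))))))))) (.br (nat_lit 12) (.br
 (nat_lit 9) (.ch (nat_lit 8) (.ev (nat_lit 576) (nat_lit 281475044344064) (.nd (nat_lit 1648) (.br (nat_lit 8)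
 (.br (nat_lit 1) (.ch (nat_lit 0) (.ev (nat_lit 1664) (nat_lit 18014398509481984) (.ev (nat_lit 1677) (nat_lit
 2048) .dd))) (.br (nat_lit 4) (.ch (nat_lit 1) (.ev (nat_lit 1664) (nat_lit 2048) (.ev (nat_lit 1677) (nat_lit
 18014398509481984) .dd))) (.ch (nat_lit 4) (.ev (nat_lit 1700) (nat_lit 2048) (.ev (nat_lit 1709) (nat_lit
 18014398509481984) .dd))))) (.br (nat_lit 11) (.ch (nat_lit 8) (.ev (nat_lit 2320) (nat_lit 18014398509481984)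
 (.ev (nat_lit 2333) (nat_lit 2048) .dd))) (.br (nat_lit 16) (.ch (nat_lit 11) (.ev (nat_lit 1664) (nat_lit
 18014398509484032) .dd)) (.ch (nat_lit 16) (.ev (nat_lit 1984) (nat_lit 2048) (.ev (nat_lit 1997) (nat_lit
 18014398509481984) .dd))))))))) (.ch (nat_lit 9) (.ev (nat_lit 576) (nat_lit 524544) (.ev (nat_lit 2308)
 (nat_lit 67108864) (.nd (nat_lit 3424) (.br (nat_lit 5) (.br (nat_lit 3) (.ch (nat_lit 0) (.ev (nat_lit 3440)
 (nat_lit 281474976710656) (.fin (nat_lit 576462401603846713)))) (.br (nat_lit 4) (.ch (nat_lit 3) (.ev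
 (nat_lit 3440) (nat_lit 281474976712704) (.ev (nat_lit 3453) (nat_lit 18014398509481984) .dd))) (.ch (nat_lit
 4) (.ev (nat_lit 3440) (nat_lit 18014398509484032) (.ev (nat_lit 3453) (nat_lit 281474976710656) .dd))))) (.br
 (nat_lit 10) (.ch (nat_lit 5) (.ev (nat_lit 3440) (nat_lit 18295873486194688) .dd)) (.br (nat_lit 15) (.ch
 (nat_lit 10) (.ev (nat_lit 3440) (nat_lit 2048) (.nd (nat_lit 4352) (.br (nat_lit 12) (.ch (nat_lit 11) (.ev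
 (nat_lit 4368) (nat_lit 18295873486192640) .dd)) (.ch (nat_lit 12) (.fin (nat_lit 576146841750946225)))))))
 (.ch (nat_lit 15) (.ev (nat_lit 3440) (nat_lit 18295873486192640) (.ev (nat_lit 3453) (nat_lit 2048)
 .dd))))))))))) (.br (nat_lit 13) (.ch (nat_lit 12) (.ev (nat_lit 576) (nat_lit 281474976712704) (.nd (nat_lit
 2944) (.br (nat_lit 11) (.br (nat_lit 8) (.ch (nat_lit 7) (.ev (nat_lit 2960) (nat_lit 18014398576590848)
 (.fin (nat_lit 576460202570105400)))) (.ch (nat_lit 8) (.ev (nat_lit 2960) (nat_lit 524544) (.nd (nat_lit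
 4320) (.br (nat_lit 14) (.ch (nat_lit 9) (.nd (nat_lit 5328) (.br (nat_lit 13) (.ch (nat_lit 4) (.fin (nat_lit
 576461301368701991))) (.ch (nat_lit 13) (.ev (nat_lit 5344) (nat_lit 67108864) (.ev (nat_lit 5357) (nat_lit
 18014398509481984) .dd)))))) (.ch (nat_lit 14) (.ev (nat_lit 4336) (nat_lit 18014398576590848) .dd))))))) (.br
 (nat_lit 12) (.ch (nat_lit 11) (.ev (nat_lit 2960) (nat_lit 18014398510006528) (.ev (nat_lit 2973) (nat_lit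
 67108864) .dd))) (.ch (nat_lit 12) (.ev (nat_lit 2960) (nat_lit 18014398577115392) .dd))))))) (.br (nat_lit
 16) (.ch (nat_lit 13) (.ev (nat_lit 576) (nat_lit 18014398510008576) (.nd (nat_lit 3648) (.br (nat_lit 3) (.br
 (nat_lit 1) (.ch (nat_lit 0) (.ev (nat_lit 3664) (nat_lit 281474976710656) (.ev (nat_lit 3677) (nat_lit
 67108864) .dd))) (.br (nat_lit 2) (.ch (nat_lit 1) (.ev (nat_lit 3684) (nat_lit 67108864) (.ev (nat_lit 3693)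
 (nat_lit 281474976710656) .dd))) (.ch (nat_lit 2) (.ev (nat_lit 3664) (nat_lit 281474976710656) (.ev (nat_lit
 3677) (nat_lit 67108864) .dd))))) (.br (nat_lit 8) (.ch (nat_lit 3) (.fin (nat_lit 576462401572389442))) (.br
 (nat_lit 13) (.ch (nat_lit 8) (.ev (nat_lit 3664) (nat_lit 67108864) (.ev (nat_lit 3677) (nat_lit
 281474976710656) .dd))) (.ch (nat_lit 13) (.ev (nat_lit 3664) (nat_lit 67108864) (.ev (nat_lit 3677) (nat_lit
 281474976710656) .dd))))))))) (.ch (nat_lit 16) (.ev (nat_lit 576) (nat_lit 18014398576593152) (.ev (nat_lit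
 2228) (nat_lit 524288) (.ev (nat_lit 2237) (nat_lit 281474976710656) .dd)))))))))))) (.br (nat_lit 13) (.ch
 (nat_lit 11) (.ev (nat_lit 48) (nat_lit 18746233451149007264) (.nd (nat_lit 240) (.br (nat_lit 8) (.br
 (nat_lit 6) (.br (nat_lit 5) (.ch (nat_lit 4) (.ev (nat_lit 256) (nat_lit 36877628585541632) (.nd (nat_lit
 1888) (.br (nat_lit 6) (.br (nat_lit 5) (.ch (nat_lit 4) (.ev (nat_lit 2164) (nat_lit 16777216) (.ev (nat_lit
 2173) (nat_lit 18014398509481984) .dd))) (.ch (nat_lit 5) (.ev (nat_lit 1904) (nat_lit 18014398509481984) (.ev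
 (nat_lit 1917) (nat_lit 16777216) .dd)))) (.br (nat_lit 13) (.ch (nat_lit 6) (.ev (nat_lit 1940) (nat_lit
 16777216) (.ev (nat_lit 1949) (nat_lit 18014398509481984) .dd))) (.ch (nat_lit 13) (.ev (nat_lit 1904)
 (nat_lit 18014398526259200) .dd))))))) (.ch (nat_lit 5) (.ev (nat_lit 256) (nat_lit 54043195528445952) (.nd
 (nat_lit 656) (.br (nat_lit 4) (.br (nat_lit 2) (.br (nat_lit 1) (.ch (nat_lit 0) (.ev (nat_lit 672) (nat_lit
 844433520066560) (.ev (nat_lit 1604) (nat_lit 4398046511104) (.ev (nat_lit 1613) (nat_lit 16777216) .dd))))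
 (.ch (nat_lit 1) (.ev (nat_lit 672) (nat_lit 562958543355904) (.ev (nat_lit 740) (nat_lit 281474976710656)
 (.ev (nat_lit 820) (nat_lit 4398046511104) (.ev (nat_lit 829) (nat_lit 16777216) .dd)))))) (.br (nat_lit 3)
 (.ch (nat_lit 2) (.ev (nat_lit 740) (nat_lit 281474976710656) (.ev (nat_lit 1236) (nat_lit 4398046511104) (.ev
 (nat_lit 2064) (nat_lit 8606711808) (.ev (nat_lit 2077) (nat_lit 562949953421312) .dd))))) (.ch (nat_lit 3)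
 (.ev (nat_lit 672) (nat_lit 562958560133120) (.ev (nat_lit 900) (nat_lit 4398046511104) (.ev (nat_lit 909)
 (nat_lit 281474976710656) .dd)))))) (.br (nat_lit 9) (.br (nat_lit 7) (.ch (nat_lit 4) (.ev (nat_lit 672)
 (nat_lit 567356606644224) (.ev (nat_lit 685) (nat_lit 281474976710656) .dd))) (.ch (nat_lit 7) (.ev (nat_lit
 672) (nat_lit 285881629933568) (.ev (nat_lit 685) (nat_lit 562949953421312) .dd)))) (.br (nat_lit 12) (.ch
 (nat_lit 9) (.ev (nat_lit 672) (nat_lit 848822993420288) (.ev (nat_lit 685) (nat_lit 8589934592) .dd))) (.br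
 (nat_lit 14) (.ch (nat_lit 12) (.ev (nat_lit 672) (nat_lit 285881629933568) (.ev (nat_lit 685) (nat_lit
 562949953421312) .dd))) (.ch (nat_lit 14) (.ev (nat_lit 672) (nat_lit 848822993420288) (.ev (nat_lit 685)
 (nat_lit 8589934592) .dd))))))))))) (.br (nat_lit 7) (.ch (nat_lit 6) (.ev (nat_lit 256) (nat_lit
 54329077158379520) (.ev (nat_lit 269) (nat_lit 562949953421312) .dd))) (.ch (nat_lit 7) (.ev (nat_lit 256)
 (nat_lit 54887620475355136) (.ev (nat_lit 3044) (nat_lit 8589934592) (.ev (nat_lit 3053) (nat_lit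
 4398046511104) .dd)))))) (.br (nat_lit 11) (.br (nat_lit 10) (.ch (nat_lit 8) (.ev (nat_lit 256) (nat_lit
 18014398526259200) (.nd (nat_lit 656) (.br (nat_lit 9) (.br (nat_lit 6) (.br (nat_lit 3) (.ch (nat_lit 2) (.ev
 (nat_lit 672) (nat_lit 36873221949095936) (.ev (nat_lit 948) (nat_lit 4398046511104) (.ev (nat_lit 957)
 (nat_lit 8589934592) .dd)))) (.ch (nat_lit 3) (.ev (nat_lit 672) (nat_lit 848831566577664) (.ev (nat_lit 685)
 (nat_lit 36028797018963968) .dd)))) (.br (nat_lit 7) (.ch (nat_lit 6) (.ev (nat_lit 672) (nat_lit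
 36028797018963968) (.nd (nat_lit 3904) (.br (nat_lit 16) (.ch (nat_lit 10) (.ev (nat_lit 3920) (nat_lit
 562958543355904) (.fin (nat_lit 576505282554184384)))) (.ch (nat_lit 16) (.ev (nat_lit 3920) (nat_lit
 285873023221760) (.fin (nat_lit 576461302049227299)))))))) (.ch (nat_lit 7) (.ev (nat_lit 672) (nat_lit
 844433520066560) (.ev (nat_lit 692) (nat_lit 4398046511104) (.ev (nat_lit 701) (nat_lit 36028797018963968)
 .dd)))))) (.br (nat_lit 12) (.br (nat_lit 11) (.ch (nat_lit 9) (.ev (nat_lit 672) (nat_lit 36596153608830976)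
 (.ev (nat_lit 685) (nat_lit 281474976710656) .dd))) (.ch (nat_lit 11) (.ev (nat_lit 672) (nat_lit 8589934592)
 (.ev (nat_lit 900) (nat_lit 4398046511104) (.ev (nat_lit 1604) (nat_lit 562949953421312) (.ev (nat_lit 2628)
 (nat_lit 36028797018963968) (.ev (nat_lit 2637) (nat_lit 281474976710656) .dd))))))) (.br (nat_lit 14) (.ch
 (nat_lit 12) (.ev (nat_lit 672) (nat_lit 36314678632120320) (.ev (nat_lit 685) (nat_lit 562949953421312)
 .dd))) (.br (nat_lit 16) (.ch (nat_lit 14) (.ev (nat_lit 672) (nat_lit 36873230539030528) (.ev (nat_lit 685)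
 (nat_lit 4398046511104) .dd))) (.ch (nat_lit 16) (.ev (nat_lit 672) (nat_lit 36596145018896384) (.ev (nat_lit
 1504) (nat_lit 281474976710656) (.ev (nat_lit 1517) (nat_lit 8589934592) .dd))))))))))) (.ch (nat_lit 10) (.ev
 (nat_lit 256) (nat_lit 54892027095023616) (.ev (nat_lit 269) (nat_lit 16777216) .dd)))) (.br (nat_lit 12) (.ch
 (nat_lit 11) (.ev (nat_lit 256) (nat_lit 36591755579097088) (.ev (nat_lit 276) (nat_lit 4398046511104) (.ev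
 (nat_lit 2352) (nat_lit 18014398509481984) (.ev (nat_lit 2365) (nat_lit 281474976710656) .dd))))) (.br
 (nat_lit 16) (.ch (nat_lit 12) (.ev (nat_lit 256) (nat_lit 848822993420288) (.nd (nat_lit 1312) (.br (nat_lit
 7) (.br (nat_lit 5) (.br (nat_lit 1) (.ch (nat_lit 0) (.ev (nat_lit 1328) (nat_lit 36028805608898560) (.ev
 (nat_lit 1341) (nat_lit 18014398509481984) .dd))) (.ch (nat_lit 1) (.ev (nat_lit 1328) (nat_lit
 36028797018963968) (.ev (nat_lit 1348) (nat_lit 8589934592) (.ev (nat_lit 1357) (nat_lit 18014398509481984)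
 .dd))))) (.br (nat_lit 6) (.ch (nat_lit 5) (.ev (nat_lit 1328) (nat_lit 18014398509481984) (.ev (nat_lit 1348)
 (nat_lit 8589934592) (.ev (nat_lit 1357) (nat_lit 36028797018963968) .dd)))) (.ch (nat_lit 6) (.ev (nat_lit
 1328) (nat_lit 18014407099416576) (.ev (nat_lit 1341) (nat_lit 36028797018963968) .dd))))) (.br (nat_lit 10)
 (.br (nat_lit 9) (.ch (nat_lit 7) (.ev (nat_lit 1328) (nat_lit 18014398509481984) (.ev (nat_lit 1396) (nat_lit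
 36028797018963968) (.ev (nat_lit 1405) (nat_lit 8589934592) .dd)))) (.ch (nat_lit 9) (.ev (nat_lit 1328)
 (nat_lit 54043195528445952) (.ev (nat_lit 1341) (nat_lit 8589934592) .dd)))) (.br (nat_lit 15) (.ch (nat_lit
 10) (.ev (nat_lit 1328) (nat_lit 36028797018963968) (.ev (nat_lit 1348) (nat_lit 8589934592) (.ev (nat_lit
 1357) (nat_lit 18014398509481984) .dd)))) (.ch (nat_lit 15) (.ev (nat_lit 1328) (nat_lit 54043204118380544)
 .dd)))))))) (.ch (nat_lit 16) (.ev (nat_lit 256) (nat_lit 18018805145927680) (.ev (nat_lit 276) (nat_lit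
 16777216) (.nd (nat_lit 1312) (.br (nat_lit 8) (.br (nat_lit 2) (.ch (nat_lit 1) (.ev (nat_lit 1328) (nat_lit
 281474976710656) (.ev (nat_lit 2592) (nat_lit 36028797018963968) (.ev (nat_lit 2605) (nat_lit 562949953421312)
 .dd)))) (.br (nat_lit 5) (.ch (nat_lit 2) (.ev (nat_lit 1328) (nat_lit 36310271995674624) (.ev (nat_lit 1341)
 (nat_lit 562949953421312) .dd))) (.ch (nat_lit 5) (.ev (nat_lit 1328) (nat_lit 844424930131968) (.ev (nat_lit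
 1341) (nat_lit 36028797018963968) .dd))))) (.br (nat_lit 14) (.br (nat_lit 9) (.ch (nat_lit 8) (.ev (nat_lit
 1328) (nat_lit 36028797018963968) (.ev (nat_lit 1348) (nat_lit 281474976710656) (.ev (nat_lit 1357) (nat_lit
 562949953421312) .dd)))) (.ch (nat_lit 9) (.ev (nat_lit 1328) (nat_lit 281474976710656) (.ev (nat_lit 1348)
 (nat_lit 36028797018963968) (.ev (nat_lit 1357) (nat_lit 562949953421312) .dd))))) (.br (nat_lit 16) (.ch
 (nat_lit 14) (.ev (nat_lit 1328) (nat_lit 36873221949095936) .dd)) (.ch (nat_lit 16) (.ev (nat_lit 1328)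
 (nat_lit 36591746972385280) (.ev (nat_lit 1341) (nat_lit 281474976710656) .dd))))))))))))))))) (.br (nat_lit
 14) (.ch (nat_lit 13) (.ev (nat_lit 48) (nat_lit 18509798875217791104) (.nd (nat_lit 432) (.br (nat_lit 7)
 (.br (nat_lit 4) (.br (nat_lit 3) (.ch (nat_lit 1) (.ev (nat_lit 448) (nat_lit 289074801081844000) (.nd
 (nat_lit 1888) (.br (nat_lit 10) (.br (nat_lit 7) (.br (nat_lit 6) (.ch (nat_lit 4) (.ev (nat_lit 1904)
 (nat_lit 2251799813689344) (.ev (nat_lit 1917) (nat_lit 2147483648) .dd))) (.ch (nat_lit 6) (.ev (nat_lit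
 1904) (nat_lit 2251799813685248) (.ev (nat_lit 1940) (nat_lit 2147483648) (.ev (nat_lit 1949) (nat_lit 4096)
 .dd))))) (.br (nat_lit 8) (.ch (nat_lit 7) (.ev (nat_lit 1904) (nat_lit 2147487744) (.ev (nat_lit 1917)
 (nat_lit 2251799813685248) .dd))) (.ch (nat_lit 8) (.ev (nat_lit 1904) (nat_lit 2251799813685248) (.ev
 (nat_lit 1940) (nat_lit 2147483648) (.ev (nat_lit 1949) (nat_lit 4096) .dd)))))) (.br (nat_lit 12) (.br
 (nat_lit 11) (.ch (nat_lit 10) (.ev (nat_lit 1904) (nat_lit 2147487744) (.ev (nat_lit 1917) (nat_lit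
 2251799813685248) .dd))) (.ch (nat_lit 11) (.ev (nat_lit 1904) (nat_lit 2251801961168896) (.ev (nat_lit 1917)
 (nat_lit 4096) .dd)))) (.br (nat_lit 13) (.ch (nat_lit 12) (.ev (nat_lit 1904) (nat_lit 2251801961168896) (.ev
 (nat_lit 1917) (nat_lit 4096) .dd))) (.ch (nat_lit 13) (.ev (nat_lit 1904) (nat_lit 2251801961172992)
 .dd)))))))) (.ch (nat_lit 3) (.ev (nat_lit 448) (nat_lit 290482178112880928) (.nd (nat_lit 2944) (.br (nat_lit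
 7) (.br (nat_lit 3) (.ch (nat_lit 1) (.ev (nat_lit 2960) (nat_lit 281474976710656) (.ev (nat_lit 3348)
 (nat_lit 562949953421312) (.ev (nat_lit 3357) (nat_lit 4096) .dd)))) (.br (nat_lit 6) (.ch (nat_lit 3) (.ev
 (nat_lit 2960) (nat_lit 4096) (.ev (nat_lit 2980) (nat_lit 281474976710656) (.ev (nat_lit 2989) (nat_lit
 562949953421312) .dd)))) (.ch (nat_lit 6) (.ev (nat_lit 2960) (nat_lit 562949953421312) (.nd (nat_lit 4288)
 (.br (nat_lit 4) (.ch (nat_lit 3) (.ev (nat_lit 4304) (nat_lit 281474976714752) .dd)) (.ch (nat_lit 4) (.fin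
 (nat_lit 576138045463938185))))))))) (.br (nat_lit 12) (.ch (nat_lit 7) (.ev (nat_lit 2960) (nat_lit
 844424930131968) (.ev (nat_lit 2973) (nat_lit 4096) .dd))) (.br (nat_lit 16) (.ch (nat_lit 12) (.ev (nat_lit
 2960) (nat_lit 844424930131968) (.ev (nat_lit 2973) (nat_lit 4096) .dd))) (.ch (nat_lit 16) (.ev (nat_lit
 2960) (nat_lit 4096) (.ev (nat_lit 2980) (nat_lit 281474976710656) (.ev (nat_lit 2989) (nat_lit
 562949953421312) .dd))))))))))) (.br (nat_lit 6) (.ch (nat_lit 4) (.ev (nat_lit 448) (nat_lit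
 291045128066306048) (.nd (nat_lit 1648) (.br (nat_lit 6) (.br (nat_lit 3) (.ch (nat_lit 2) (.ev (nat_lit 1664)
 (nat_lit 288) (.ev (nat_lit 1677) (nat_lit 281474976710656) .dd))) (.br (nat_lit 5) (.ch (nat_lit 3) (.ev
 (nat_lit 1664) (nat_lit 281474976710656) (.ev (nat_lit 1700) (nat_lit 32) (.ev (nat_lit 1709) (nat_lit 256)
 .dd)))) (.ch (nat_lit 5) (.ev (nat_lit 1664) (nat_lit 281474976710912) (.ev (nat_lit 1677) (nat_lit 32)
 .dd))))) (.br (nat_lit 9) (.ch (nat_lit 6) (.ev (nat_lit 1664) (nat_lit 281474976710656) (.nd (nat_lit 4464)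
 (.ch (nat_lit 15) (.nd (nat_lit 5488) (.br (nat_lit 10) (.ch (nat_lit 4) (.ev (nat_lit 5504) (nat_lit 288)
 .dd)) (.ch (nat_lit 10) (.fin (nat_lit 576441510871384617))))))))) (.br (nat_lit 14) (.ch (nat_lit 9) (.ev
 (nat_lit 1664) (nat_lit 288) (.ev (nat_lit 1677) (nat_lit 281474976710656) .dd))) (.ch (nat_lit 14) (.ev
 (nat_lit 1664) (nat_lit 281474976710688) (.ev (nat_lit 1677) (nat_lit 256) .dd))))))))) (.ch (nat_lit 6) (.ev
 (nat_lit 448) (nat_lit 289074803229331488) (.ev (nat_lit 3028) (nat_lit 2251799813685248) (.ev (nat_lit 3037)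
 (nat_lit 256) .dd)))))) (.br (nat_lit 13) (.br (nat_lit 10) (.ch (nat_lit 7) (.ev (nat_lit 448) (nat_lit
 291045128066306336) (.ev (nat_lit 461) (nat_lit 281474976710656) .dd))) (.ch (nat_lit 10) (.ev (nat_lit 448)
 (nat_lit 2533274790400032) (.nd (nat_lit 1648) (.br (nat_lit 11) (.br (nat_lit 8) (.br (nat_lit 5) (.ch
 (nat_lit 0) (.ev (nat_lit 1664) (nat_lit 288793328252616960) .dd)) (.ch (nat_lit 5) (.ev (nat_lit 1664)
 (nat_lit 562949953421312) (.ev (nat_lit 2164) (nat_lit 256) (.nd (nat_lit 4480) (.br (nat_lit 13) (.ch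
 (nat_lit 8) (.fin (nat_lit 576448107922276936))) (.ch (nat_lit 13) (.ev (nat_lit 4496) (nat_lit
 288230376151711744) (.ev (nat_lit 4509) (nat_lit 2147483648) .dd))))))))) (.br (nat_lit 10) (.ch (nat_lit 8)
 (.ev (nat_lit 1664) (nat_lit 562952100904960) (.ev (nat_lit 1700) (nat_lit 256) (.ev (nat_lit 1709) (nat_lit
 288230376151711744) .dd)))) (.ch (nat_lit 10) (.ev (nat_lit 1664) (nat_lit 288230376151712000) (.ev (nat_lit
 1700) (nat_lit 2147483648) (.ev (nat_lit 1709) (nat_lit 562949953421312) .dd)))))) (.br (nat_lit 14) (.br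
 (nat_lit 13) (.ch (nat_lit 11) (.ev (nat_lit 1664) (nat_lit 2147483904) (.ev (nat_lit 1700) (nat_lit
 288230376151711744) (.ev (nat_lit 1709) (nat_lit 562949953421312) .dd)))) (.ch (nat_lit 13) (.ev (nat_lit
 1664) (nat_lit 288793328252616960) .dd))) (.br (nat_lit 15) (.ch (nat_lit 14) (.ev (nat_lit 1664) (nat_lit
 288230378299195648) (.ev (nat_lit 1677) (nat_lit 562949953421312) .dd))) (.br (nat_lit 16) (.ch (nat_lit 15)
 (.ev (nat_lit 1664) (nat_lit 288793326105133056) (.ev (nat_lit 1700) (nat_lit 256) (.ev (nat_lit 1709)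
 (nat_lit 2147483648) .dd)))) (.ch (nat_lit 16) (.ev (nat_lit 1664) (nat_lit 288230378299195648) (.ev (nat_lit
 1677) (nat_lit 562949953421312) .dd))))))))))) (.br (nat_lit 14) (.ch (nat_lit 13) (.ev (nat_lit 448) (nat_lit
 2814751914590240) (.nd (nat_lit 1136) (.br (nat_lit 7) (.br (nat_lit 4) (.br (nat_lit 3) (.ch (nat_lit 2) (.ev
 (nat_lit 1152) (nat_lit 288511851128426496) (.ev (nat_lit 1165) (nat_lit 256) .dd))) (.ch (nat_lit 3) (.ev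
 (nat_lit 1152) (nat_lit 281474976715008) (.ev (nat_lit 1165) (nat_lit 288230376151711744) .dd)))) (.br
 (nat_lit 6) (.ch (nat_lit 4) (.ev (nat_lit 1152) (nat_lit 281474976715008) (.ev (nat_lit 1165) (nat_lit
 288230376151711744) .dd))) (.ch (nat_lit 6) (.ev (nat_lit 1152) (nat_lit 288511851128422656) (.ev (nat_lit
 1165) (nat_lit 4096) .dd))))) (.br (nat_lit 10) (.br (nat_lit 9) (.ch (nat_lit 7) (.ev (nat_lit 1152) (nat_lit
 288230376151712000) (.ev (nat_lit 2308) (nat_lit 281474976710656) (.ev (nat_lit 2317) (nat_lit 4096) .dd))))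
 (.ch (nat_lit 9) (.ev (nat_lit 1152) (nat_lit 281474976714752) (.ev (nat_lit 1172) (nat_lit
 288230376151711744) (.ev (nat_lit 1181) (nat_lit 256) .dd))))) (.br (nat_lit 11) (.ch (nat_lit 10) (.ev
 (nat_lit 1152) (nat_lit 288511851128426496) (.ev (nat_lit 1165) (nat_lit 256) .dd))) (.br (nat_lit 15) (.ch
 (nat_lit 11) (.ev (nat_lit 1172) (nat_lit 288511851128422400) (.ev (nat_lit 1348) (nat_lit 256) (.ev (nat_lit
 1357) (nat_lit 4096) .dd)))) (.ch (nat_lit 15) (.ev (nat_lit 1152) (nat_lit 288230376151715840) (.ev (nat_lit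
 1412) (nat_lit 256) (.ev (nat_lit 1421) (nat_lit 281474976710656) .dd))))))))))) (.br (nat_lit 16) (.ch
 (nat_lit 14) (.ev (nat_lit 448) (nat_lit 290763650942107904) (.nd (nat_lit 960) (.br (nat_lit 9) (.br (nat_lit
 3) (.br (nat_lit 2) (.ch (nat_lit 1) (.ev (nat_lit 976) (nat_lit 562949953421344) (.ev (nat_lit 1712) (nat_lit
 2147483648) (.ev (nat_lit 1725) (nat_lit 4096) .dd)))) (.ch (nat_lit 2) (.ev (nat_lit 976) (nat_lit
 562952100904992) (.ev (nat_lit 989) (nat_lit 4096) .dd)))) (.br (nat_lit 7) (.ch (nat_lit 3) (.ev (nat_lit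
 976) (nat_lit 32) (.ev (nat_lit 1236) (nat_lit 4096) (.ev (nat_lit 1732) (nat_lit 562949953421312) (.ev
 (nat_lit 1741) (nat_lit 2147483648) .dd))))) (.ch (nat_lit 7) (.ev (nat_lit 976) (nat_lit 562952100909056)
 (.ev (nat_lit 989) (nat_lit 32) .dd))))) (.br (nat_lit 13) (.br (nat_lit 12) (.ch (nat_lit 9) (.ev (nat_lit
 976) (nat_lit 2147487776) (.ev (nat_lit 989) (nat_lit 562949953421312) .dd))) (.ch (nat_lit 12) (.ev (nat_lit
 976) (nat_lit 2147487776) (.ev (nat_lit 989) (nat_lit 562949953421312) .dd)))) (.br (nat_lit 14) (.ch (nat_lit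
 13) (.ev (nat_lit 976) (nat_lit 562952100909056) (.ev (nat_lit 989) (nat_lit 32) .dd))) (.br (nat_lit 16) (.ch
 (nat_lit 14) (.ev (nat_lit 976) (nat_lit 562952100909088) .dd)) (.ch (nat_lit 16) (.ev (nat_lit 976) (nat_lit
 562949953421344) (.ev (nat_lit 1284) (nat_lit 2147483648) (.ev (nat_lit 1293) (nat_lit 4096) .dd)))))))))))
 (.ch (nat_lit 16) (.ev (nat_lit 448) (nat_lit 281477124194560) (.nd (nat_lit 848) (.br (nat_lit 10) (.br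
 (nat_lit 6) (.br (nat_lit 4) (.ch (nat_lit 1) (.ev (nat_lit 864) (nat_lit 2251799813689376) (.ev (nat_lit
 2512) (nat_lit 562949953421312) (.ev (nat_lit 2525) (nat_lit 288230376151711744) .dd)))) (.ch (nat_lit 4) (.ev
 (nat_lit 864) (nat_lit 562949953421344) (.ev (nat_lit 884) (nat_lit 288230376151711744) (.ev (nat_lit 1412)
 (nat_lit 4096) (.ev (nat_lit 1421) (nat_lit 2251799813685248) .dd)))))) (.br (nat_lit 9) (.ch (nat_lit 6) (.ev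
 (nat_lit 864) (nat_lit 290482175965397024) (.ev (nat_lit 1204) (nat_lit 4096) (.ev (nat_lit 1213) (nat_lit
 562949953421312) .dd)))) (.ch (nat_lit 9) (.ev (nat_lit 864) (nat_lit 291045125918822400) (.ev (nat_lit 877)
 (nat_lit 32) .dd))))) (.br (nat_lit 12) (.br (nat_lit 11) (.ch (nat_lit 10) (.ev (nat_lit 864) (nat_lit
 288793326105137184) (.ev (nat_lit 877) (nat_lit 2251799813685248) .dd))) (.ch (nat_lit 11) (.ev (nat_lit 864)
 (nat_lit 290482175965401120) (.ev (nat_lit 877) (nat_lit 562949953421312) .dd)))) (.br (nat_lit 13) (.ch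
 (nat_lit 12) (.ev (nat_lit 864) (nat_lit 2814749767110688) (.ev (nat_lit 877) (nat_lit 288230376151711744)
 .dd))) (.br (nat_lit 16) (.ch (nat_lit 13) (.ev (nat_lit 864) (nat_lit 562949953425408) (.ev (nat_lit 2176)
 (nat_lit 2251799813685248) (.ev (nat_lit 2704) (nat_lit 32) (.ev (nat_lit 2717) (nat_lit 288230376151711744)
 .dd))))) (.ch (nat_lit 16) (.ev (nat_lit 864) (nat_lit 291045125918818304) (.ev (nat_lit 1536) (nat_lit 32)
 (.ev (nat_lit 1549) (nat_lit 4096) .dd)))))))))))))))))) (.ch (nat_lit 14) (.ev (nat_lit 48) (nat_lit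
 18744826084855384480) (.nd (nat_lit 512) (.br (nat_lit 8) (.br (nat_lit 6) (.br (nat_lit 5) (.ch (nat_lit 4)
 (.ev (nat_lit 528) (nat_lit 56299393388646400) (.ev (nat_lit 541) (nat_lit 16777216) .dd))) (.ch (nat_lit 5)
 (.ev (nat_lit 528) (nat_lit 36033195082256384) (.ev (nat_lit 2628) (nat_lit 2251799813685248) (.ev (nat_lit
 2637) (nat_lit 18014398509481984) .dd))))) (.br (nat_lit 7) (.ch (nat_lit 6) (.ev (nat_lit 528) (nat_lit
 54043195545223168) (.nd (nat_lit 960) (.br (nat_lit 9) (.br (nat_lit 7) (.br (nat_lit 4) (.ch (nat_lit 2) (.ev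
 (nat_lit 976) (nat_lit 2256197860200448) .dd)) (.ch (nat_lit 4) (.ev (nat_lit 976) (nat_lit 4398046511104)
 (.ev (nat_lit 3684) (nat_lit 2251799813685248) (.ev (nat_lit 3693) (nat_lit 4096) .dd))))) (.br (nat_lit 8)
 (.ch (nat_lit 7) (.ev (nat_lit 976) (nat_lit 4398046515200) (.ev (nat_lit 989) (nat_lit 2251799813685248)
 .dd))) (.ch (nat_lit 8) (.ev (nat_lit 976) (nat_lit 2251799813689344) (.ev (nat_lit 989) (nat_lit
 4398046511104) .dd))))) (.br (nat_lit 13) (.br (nat_lit 11) (.ch (nat_lit 9) (.ev (nat_lit 976) (nat_lit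
 2251799813685248) (.ev (nat_lit 1504) (nat_lit 4096) (.ev (nat_lit 1517) (nat_lit 4398046511104) .dd)))) (.ch
 (nat_lit 11) (.ev (nat_lit 976) (nat_lit 2251799813689344) (.ev (nat_lit 989) (nat_lit 4398046511104) .dd))))
 (.br (nat_lit 14) (.ch (nat_lit 13) (.ev (nat_lit 976) (nat_lit 2256197860200448) .dd)) (.br (nat_lit 15) (.ch
 (nat_lit 14) (.ev (nat_lit 976) (nat_lit 2256197860196352) (.ev (nat_lit 989) (nat_lit 4096) .dd))) (.ch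
 (nat_lit 15) (.ev (nat_lit 2320) (nat_lit 2251799813685248) (.fin (nat_lit 576460202464199188))))))))))) (.ch
 (nat_lit 7) (.ev (nat_lit 528) (nat_lit 38284994895941632) (.ev (nat_lit 541) (nat_lit 18014398509481984)
 .dd))))) (.br (nat_lit 13) (.br (nat_lit 10) (.ch (nat_lit 8) (.ev (nat_lit 528) (nat_lit 38284994895941632)
 (.ev (nat_lit 541) (nat_lit 18014398509481984) .dd))) (.ch (nat_lit 10) (.ev (nat_lit 528) (nat_lit
 18014398526259200) (.nd (nat_lit 1312) (.br (nat_lit 9) (.br (nat_lit 5) (.ch (nat_lit 2) (.ev (nat_lit 1328)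
 (nat_lit 36033195065479168) (.ev (nat_lit 1341) (nat_lit 2251799813685248) .dd))) (.br (nat_lit 8) (.ch
 (nat_lit 5) (.ev (nat_lit 1328) (nat_lit 36033195065475072) (.ev (nat_lit 1972) (nat_lit 2251799813685248)
 (.ev (nat_lit 1981) (nat_lit 4096) .dd)))) (.ch (nat_lit 8) (.ev (nat_lit 1328) (nat_lit 38280596832653312)
 (.ev (nat_lit 1341) (nat_lit 4398046511104) .dd))))) (.br (nat_lit 12) (.br (nat_lit 10) (.ch (nat_lit 9) (.ev
 (nat_lit 1328) (nat_lit 38284994879160320) (.ev (nat_lit 1341) (nat_lit 4096) .dd))) (.ch (nat_lit 10) (.ev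
 (nat_lit 1328) (nat_lit 4096) (.ev (nat_lit 1972) (nat_lit 2251799813685248) (.ev (nat_lit 2404) (nat_lit
 4398046511104) (.ev (nat_lit 2413) (nat_lit 36028797018963968) .dd)))))) (.br (nat_lit 14) (.ch (nat_lit 12)
 (.ev (nat_lit 1328) (nat_lit 38280596832653312) (.ev (nat_lit 1341) (nat_lit 4398046511104) .dd))) (.ch
 (nat_lit 14) (.ev (nat_lit 1328) (nat_lit 4398046515200) (.ev (nat_lit 2004) (nat_lit 2251799813685248) (.ev
 (nat_lit 2013) (nat_lit 36028797018963968) .dd))))))))))) (.br (nat_lit 14) (.ch (nat_lit 13) (.ev (nat_lit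
 528) (nat_lit 4398046511104) (.nd (nat_lit 1648) (.br (nat_lit 8) (.br (nat_lit 5) (.br (nat_lit 3) (.ch
 (nat_lit 2) (.ev (nat_lit 1664) (nat_lit 18014398526263296) (.ev (nat_lit 2308) (nat_lit 36028797018963968)
 (.ev (nat_lit 2317) (nat_lit 2251799813685248) .dd)))) (.ch (nat_lit 3) (.ev (nat_lit 1664) (nat_lit
 56294995358912512) .dd))) (.br (nat_lit 6) (.ch (nat_lit 5) (.ev (nat_lit 1664) (nat_lit 20266198339944448)
 (.ev (nat_lit 1760) (nat_lit 36028797018963968) (.ev (nat_lit 1773) (nat_lit 4096) .dd)))) (.ch (nat_lit 6)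
 (.ev (nat_lit 1664) (nat_lit 38280596849426432) (.ev (nat_lit 2580) (nat_lit 18014398509481984) (.ev (nat_lit
 2589) (nat_lit 4096) .dd)))))) (.br (nat_lit 13) (.br (nat_lit 9) (.ch (nat_lit 8) (.ev (nat_lit 1664)
 (nat_lit 36028797018968064) (.ev (nat_lit 1712) (nat_lit 2251799813685248) (.fin (nat_lit
 576466799609463371))))) (.ch (nat_lit 9) (.ev (nat_lit 1664) (nat_lit 20266198339948544) (.ev (nat_lit 1677)
 (nat_lit 36028797018963968) .dd)))) (.br (nat_lit 14) (.ch (nat_lit 13) (.ev (nat_lit 1664) (nat_lit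
 20266198339948544) (.ev (nat_lit 1677) (nat_lit 36028797018963968) .dd))) (.br (nat_lit 15) (.ch (nat_lit 14)
 (.ev (nat_lit 1664) (nat_lit 36028797035741184) (.ev (nat_lit 1700) (nat_lit 2251799813685248) (.fin (nat_lit
 576497585927701154))))) (.ch (nat_lit 15) (.ev (nat_lit 1664) (nat_lit 56294995342131200) (.ev (nat_lit 2320)
 (nat_lit 16781312) .dd)))))))))) (.br (nat_lit 16) (.ch (nat_lit 14) (.ev (nat_lit 528) (nat_lit
 56294995342135296) (.nd (nat_lit 3200) (.br (nat_lit 7) (.br (nat_lit 6) (.ch (nat_lit 0) (.ev (nat_lit 3216)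
 (nat_lit 4398063288320) .dd)) (.ch (nat_lit 6) (.ev (nat_lit 3216) (nat_lit 16777216) (.ev (nat_lit 3229)
 (nat_lit 4398046511104) .dd)))) (.br (nat_lit 9) (.ch (nat_lit 7) (.ev (nat_lit 3216) (nat_lit 4398063288320)
 .dd)) (.br (nat_lit 13) (.ch (nat_lit 9) (.ev (nat_lit 3216) (nat_lit 16777216) (.ev (nat_lit 3229) (nat_lit
 4398046511104) .dd))) (.ch (nat_lit 13) (.ev (nat_lit 3216) (nat_lit 4398046511104) (.ev (nat_lit 3229)
 (nat_lit 16777216) .dd))))))))) (.ch (nat_lit 16) (.ev (nat_lit 528) (nat_lit 20270596386455552) (.nd (nat_lit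
 1312) (.br (nat_lit 11) (.br (nat_lit 6) (.br (nat_lit 5) (.ch (nat_lit 1) (.ev (nat_lit 1328) (nat_lit 4096)
 (.ev (nat_lit 1341) (nat_lit 36028797018963968) .dd))) (.ch (nat_lit 5) (.ev (nat_lit 1328) (nat_lit
 36028797018968064) .dd))) (.br (nat_lit 7) (.ch (nat_lit 6) (.ev (nat_lit 1328) (nat_lit 36028797018963968)
 (.ev (nat_lit 1341) (nat_lit 4096) .dd))) (.ch (nat_lit 7) (.ev (nat_lit 1328) (nat_lit 36028797018963968)
 (.ev (nat_lit 1341) (nat_lit 4096) .dd))))) (.br (nat_lit 14) (.br (nat_lit 13) (.ch (nat_lit 11) (.ev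
 (nat_lit 1328) (nat_lit 4096) (.ev (nat_lit 1341) (nat_lit 36028797018963968) .dd))) (.ch (nat_lit 13) (.ev
 (nat_lit 2724) (nat_lit 4096) (.ev (nat_lit 2733) (nat_lit 36028797018963968) .dd)))) (.br (nat_lit 15) (.ch
 (nat_lit 14) (.ev (nat_lit 1348) (nat_lit 4096) (.ev (nat_lit 1357) (nat_lit 36028797018963968) .dd))) (.br
 (nat_lit 16) (.ch (nat_lit 15) (.ev (nat_lit 1328) (nat_lit 36028797018968064) .dd)) (.ch (nat_lit 16) (.ev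
 (nat_lit 1328) (nat_lit 36028797018963968) (.ev (nat_lit 1341) (nat_lit 4096) .dd)))))))))))))))))))))))

/-- The trie. -/
noncomputable def T : Tr := .nd (nat_lit 1000000) (.br (nat_lit 7) (.br (nat_lit 2) (.br (nat_lit 1) (.ch
 (nat_lit 0) (.ev (nat_lit 0) (nat_lit 2361183241434822606847) .dd)) (.ch (nat_lit 1) (.ev (nat_lit 0) (nat_lit
 2361183241434822606847) .dd))) (.br (nat_lit 3) (.ch (nat_lit 2) (.ev (nat_lit 0) (nat_lit
 2361183241434822606847) .dd)) (.br (nat_lit 4) (.ch (nat_lit 3) T3) (.ch (nat_lit 4) (.ev (nat_lit 0) (nat_lit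
 2361183241434822606847) .dd))))) (.br (nat_lit 9) (.br (nat_lit 8) (.ch (nat_lit 7) T7) (.ch (nat_lit 8) (.ev
 (nat_lit 0) (nat_lit 2361183241434822606847) .dd))) (.br (nat_lit 15) (.ch (nat_lit 9) T9) (.br (nat_lit 16)
 (.ch (nat_lit 15) (.ev (nat_lit 0) (nat_lit 2361183241434822606847) .dd)) (.ch (nat_lit 16) (.ev (nat_lit 0)
 (nat_lit 2361183241434822606847) .dd))))))

/-- The possible values. -/
noncomputable def oks : List ℕ := [7, 31, 133, 235, 369, 754, 915, 1295, 1554, 1915, 1924, 4035, 16519, 16909, 28786, 204940, 1345538]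

/-- The parameters. -/
noncomputable def S : Pr := ⟨fun i l e => lget mz (lget [] (lget [] tabs i) l) e, oks, [(nat_lit 0), (nat_lit
 0), (nat_lit 0), (nat_lit 0), (nat_lit 0), (nat_lit 0)], T, (nat_lit 2361183241434822606847), (nat_lit
 87122173451996128837), (nat_lit 71), [(nat_lit 98583)], [(nat_lit 24137569)]⟩

/-- Nothing known. -/
noncomputable def cs0 : Cs := (.cons (nat_lit 17) (nat_lit 0) (nat_lit 1) .nil)

theorem part_3 : part S cs0 (nat_lit 3) = true := by decide +kernel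

theorem part_7 : part S cs0 (nat_lit 7) = true := by decide +kernel

theorem part_9 : part S cs0 (nat_lit 9) = true := by decide +kernel

/-- Data of a prime. -/
noncomputable def D0 : PD := ⟨(nat_lit 17), (nat_lit 6), (12458655, 6, 5), (17892079, 9049853, 18736650), (19385948, 23138178, 18282424)⟩

theorem D0_ok : D0.Ok := pdb_sound (s := 3) (C := ⟨⟨3, 18, -19, -23, -2, 4, 2, -5, -7⟩, (3, 11, 2)⟩) (by show Nat.Prime 17; norm_num) (by decide +kernel)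

/-- Lines of the first type. -/
noncomputable def Cl0 : List C1 := [⟨⟨23, 2, -19, 3, 18, 16, -2, 5, -5⟩, (14, 7, 1)⟩,
  ⟨⟨3, -18, -19, -23, 2, 4, 2, 5, -7⟩, (1, 15, 12)⟩,
  ⟨⟨-13, 2, -16, -7, 22, 11, 6, 3, -7⟩, (14, 1, 4)⟩,
  ⟨⟨0, 0, 0, 0, 0, 0, 0, 0, 0⟩, (0, 0, 0)⟩,
  ⟨⟨-13, -2, -16, -7, -22, 11, 6, -3, -7⟩, (16, 6, 7)⟩,
  ⟨⟨0, 0, 0, 0, 0, 0, 0, 0, 0⟩, (0, 0, 0)⟩,
  ⟨⟨0, 0, 0, 0, 0, 0, 0, 0, 0⟩, (0, 0, 0)⟩,
  ⟨⟨0, 0, 0, 0, 0, 0, 0, 0, 0⟩, (0, 0, 0)⟩,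
  ⟨⟨13, 2, -29, 7, 22, 4, -6, 3, -1⟩, (9, 14, 5)⟩,
  ⟨⟨0, 0, 0, 0, 0, 0, 0, 0, 0⟩, (0, 0, 0)⟩,
  ⟨⟨0, 0, 0, 0, 0, 0, 0, 0, 0⟩, (0, 0, 0)⟩,
  ⟨⟨0, 0, 0, 0, 0, 0, 0, 0, 0⟩, (0, 0, 0)⟩,
  ⟨⟨0, 0, 0, 0, 0, 0, 0, 0, 0⟩, (0, 0, 0)⟩,
  ⟨⟨0, 0, 0, 0, 0, 0, 0, 0, 0⟩, (0, 0, 0)⟩,
  ⟨⟨0, 0, 0, 0, 0, 0, 0, 0, 0⟩, (0, 0, 0)⟩,
  ⟨⟨23, -2, -19, 3, -18, 16, -2, -5, -5⟩, (16, 8, 6)⟩,
  ⟨⟨13, -2, -29, 7, -22, 4, -6, -3, -1⟩, (11, 2, 8)⟩]

/-- Data of a prime. -/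
noncomputable def Dm : PD := ⟨(nat_lit 71), (nat_lit 2), (72, 9, 33), (3977, 4536, 3372), (4173, 4400, 3526)⟩

theorem Dm_ok : Dm.Ok := pdb_sound (s := 11) (C := ⟨⟨59, 34, -112, -29, 94, 37, -24, -3, -11⟩, (59, 42, 47)⟩) (by show Nat.Prime 71; norm_num) (by decide +kernel)

/-- Lines of the first type. -/
noncomputable def Clm : List C1 := [⟨⟨-59, -34, -53, 29, -94, 8, 24, 3, -35⟩, (17, 47, 34)⟩,
  ⟨⟨0, 0, 0, 0, 0, 0, 0, 0, 0⟩, (0, 0, 0)⟩,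
  ⟨⟨49, -74, -77, 79, 14, 28, 12, 21, -29⟩, (59, 56, 13)⟩,
  ⟨⟨0, 0, 0, 0, 0, 0, 0, 0, 0⟩, (0, 0, 0)⟩,
  ⟨⟨0, 0, 0, 0, 0, 0, 0, 0, 0⟩, (0, 0, 0)⟩,
  ⟨⟨0, 0, 0, 0, 0, 0, 0, 0, 0⟩, (0, 0, 0)⟩,
  ⟨⟨79, -14, -107, 49, 74, 28, -12, 21, -17⟩, (44, 21, 5)⟩,
  ⟨⟨0, 0, 0, 0, 0, 0, 0, 0, 0⟩, (0, 0, 0)⟩,
  ⟨⟨0, 0, 0, 0, 0, 0, 0, 0, 0⟩, (0, 0, 0)⟩,
  ⟨⟨39, 66, -92, -89, 46, 37, -8, -19, -23⟩, (13, 65, 21)⟩,
  ⟨⟨19, 46, -107, -91, -26, 8, 12, -27, -19⟩, (7, 30, 53)⟩,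
  ⟨⟨0, 0, 0, 0, 0, 0, 0, 0, 0⟩, (0, 0, 0)⟩,
  ⟨⟨0, 0, 0, 0, 0, 0, 0, 0, 0⟩, (0, 0, 0)⟩,
  ⟨⟨99, 6, -67, 11, -94, 32, -4, -11, -31⟩, (13, 33, 59)⟩,
  ⟨⟨-39, -66, -53, -89, 46, 52, 8, 19, -31⟩, (17, 57, 22)⟩,
  ⟨⟨0, 0, 0, 0, 0, 0, 0, 0, 0⟩, (0, 0, 0)⟩,
  ⟨⟨0, 0, 0, 0, 0, 0, 0, 0, 0⟩, (0, 0, 0)⟩,
  ⟨⟨19, -46, -107, -91, 26, 8, 12, 27, -19⟩, (15, 44, 2)⟩,
  ⟨⟨0, 0, 0, 0, 0, 0, 0, 0, 0⟩, (0, 0, 0)⟩,
  ⟨⟨0, 0, 0, 0, 0, 0, 0, 0, 0⟩, (0, 0, 0)⟩,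
  ⟨⟨51, 66, -88, -59, 74, 67, -20, -5, -17⟩, (59, 64, 59)⟩,
  ⟨⟨49, 74, -77, 79, -14, 28, 12, -21, -29⟩, (6, 43, 29)⟩,
  ⟨⟨0, 0, 0, 0, 0, 0, 0, 0, 0⟩, (0, 0, 0)⟩,
  ⟨⟨0, 0, 0, 0, 0, 0, 0, 0, 0⟩, (0, 0, 0)⟩,
  ⟨⟨0, 0, 0, 0, 0, 0, 0, 0, 0⟩, (0, 0, 0)⟩,
  ⟨⟨31, 74, -83, -81, 54, 68, -16, -13, -19⟩, (8, 2, 60)⟩,
  ⟨⟨0, 0, 0, 0, 0, 0, 0, 0, 0⟩, (0, 0, 0)⟩,
  ⟨⟨11, 94, -43, -99, 6, 32, 4, -11, -35⟩, (69, 18, 38)⟩,
  ⟨⟨-51, 66, -37, 59, 74, 8, 20, -5, -37⟩, (25, 56, 25)⟩,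
  ⟨⟨0, 0, 0, 0, 0, 0, 0, 0, 0⟩, (0, 0, 0)⟩,
  ⟨⟨39, -66, -92, -89, -46, 37, -8, 19, -23⟩, (43, 2, 64)⟩,
  ⟨⟨0, 0, 0, 0, 0, 0, 0, 0, 0⟩, (0, 0, 0)⟩,
  ⟨⟨59, -34, -112, -29, -94, 37, -24, 3, -11⟩, (9, 4, 18)⟩,
  ⟨⟨0, 0, 0, 0, 0, 0, 0, 0, 0⟩, (0, 0, 0)⟩,
  ⟨⟨0, 0, 0, 0, 0, 0, 0, 0, 0⟩, (0, 0, 0)⟩,
  ⟨⟨-59, 34, -53, 29, 94, 8, 24, -3, -35⟩, (8, 43, 16)⟩,
  ⟨⟨0, 0, 0, 0, 0, 0, 0, 0, 0⟩, (0, 0, 0)⟩,
  ⟨⟨11, -94, -43, -99, -6, 32, 4, 11, -35⟩, (2, 53, 33)⟩,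
  ⟨⟨0, 0, 0, 0, 0, 0, 0, 0, 0⟩, (0, 0, 0)⟩,
  ⟨⟨0, 0, 0, 0, 0, 0, 0, 0, 0⟩, (0, 0, 0)⟩,
  ⟨⟨51, -66, -88, -59, -74, 67, -20, 5, -17⟩, (18, 46, 18)⟩,
  ⟨⟨-19, -46, -88, -91, -26, 83, -12, 27, -7⟩, (26, 61, 65)⟩,
  ⟨⟨0, 0, 0, 0, 0, 0, 0, 0, 0⟩, (0, 0, 0)⟩,
  ⟨⟨0, 0, 0, 0, 0, 0, 0, 0, 0⟩, (0, 0, 0)⟩,
  ⟨⟨0, 0, 0, 0, 0, 0, 0, 0, 0⟩, (0, 0, 0)⟩,
  ⟨⟨-19, 46, -88, -91, 26, 83, -12, -27, -7⟩, (18, 4, 45)⟩,
  ⟨⟨0, 0, 0, 0, 0, 0, 0, 0, 0⟩, (0, 0, 0)⟩,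
  ⟨⟨0, 0, 0, 0, 0, 0, 0, 0, 0⟩, (0, 0, 0)⟩,
  ⟨⟨0, 0, 0, 0, 0, 0, 0, 0, 0⟩, (0, 0, 0)⟩,
  ⟨⟨0, 0, 0, 0, 0, 0, 0, 0, 0⟩, (0, 0, 0)⟩,
  ⟨⟨0, 0, 0, 0, 0, 0, 0, 0, 0⟩, (0, 0, 0)⟩,
  ⟨⟨0, 0, 0, 0, 0, 0, 0, 0, 0⟩, (0, 0, 0)⟩,
  ⟨⟨99, -6, -67, 11, 94, 32, -4, 11, -31⟩, (48, 29, 54)⟩,
  ⟨⟨0, 0, 0, 0, 0, 0, 0, 0, 0⟩, (0, 0, 0)⟩,
  ⟨⟨0, 0, 0, 0, 0, 0, 0, 0, 0⟩, (0, 0, 0)⟩,
  ⟨⟨0, 0, 0, 0, 0, 0, 0, 0, 0⟩, (0, 0, 0)⟩,
  ⟨⟨-51, -66, -37, 59, -74, 8, 20, 5, -37⟩, (55, 38, 55)⟩,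
  ⟨⟨0, 0, 0, 0, 0, 0, 0, 0, 0⟩, (0, 0, 0)⟩,
  ⟨⟨0, 0, 0, 0, 0, 0, 0, 0, 0⟩, (0, 0, 0)⟩,
  ⟨⟨-31, -74, -52, -81, 54, 13, 16, 13, -35⟩, (64, 55, 54)⟩,
  ⟨⟨-31, 74, -52, -81, -54, 13, 16, -13, -35⟩, (11, 15, 47)⟩,
  ⟨⟨-39, 66, -53, -89, -46, 52, 8, -19, -31⟩, (58, 65, 50)⟩,
  ⟨⟨0, 0, 0, 0, 0, 0, 0, 0, 0⟩, (0, 0, 0)⟩,
  ⟨⟨79, 14, -107, 49, -74, 28, -12, -21, -17⟩, (57, 3, 21)⟩,
  ⟨⟨0, 0, 0, 0, 0, 0, 0, 0, 0⟩, (0, 0, 0)⟩,
  ⟨⟨0, 0, 0, 0, 0, 0, 0, 0, 0⟩, (0, 0, 0)⟩,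
  ⟨⟨31, -74, -83, -81, -54, 68, -16, 13, -19⟩, (61, 33, 67)⟩,
  ⟨⟨0, 0, 0, 0, 0, 0, 0, 0, 0⟩, (0, 0, 0)⟩,
  ⟨⟨0, 0, 0, 0, 0, 0, 0, 0, 0⟩, (0, 0, 0)⟩,
  ⟨⟨0, 0, 0, 0, 0, 0, 0, 0, 0⟩, (0, 0, 0)⟩,
  ⟨⟨0, 0, 0, 0, 0, 0, 0, 0, 0⟩, (0, 0, 0)⟩]

/-- Unit moves. -/
noncomputable def U : List Mv := [mz,
  mz,
  mz,
  mz,
  mz,
  ⟨⟨-1, 0, 1, 0, -1, 0, 0, 0, 1⟩, .nil, (nat_lit 0), (nat_lit 15), (nat_lit 1), (nat_lit 0), (0, 0, 0), [], 2⟩,
  ⟨⟨-1, 0, 1, 0, 1, 0, 0, 0, 1⟩, .nil, (nat_lit 16), (nat_lit 1), (nat_lit 9), (nat_lit 1), (0, 0, 0), [], 10⟩,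
  mz,
  mz,
  mz,
  ⟨⟨1, 0, 0, 0, -1, 0, 0, 0, 1⟩, .nil, (nat_lit 16), (nat_lit 15), (nat_lit 16), (nat_lit 1), (0, 0, 0), [], 3⟩,
  ⟨⟨1, 0, 0, 0, -1, 0, 0, 0, 1⟩, .nil, (nat_lit 16), (nat_lit 15), (nat_lit 16), (nat_lit 1), (0, 0, 0), [], 3⟩,
  ⟨⟨1, 0, 0, 0, -1, 0, 0, 0, 1⟩, .nil, (nat_lit 16), (nat_lit 15), (nat_lit 16), (nat_lit 1), (0, 0, 0), [], 3⟩,
  ⟨⟨-1, 0, 1, 0, -1, 0, 0, 0, 1⟩, .nil, (nat_lit 0), (nat_lit 15), (nat_lit 1), (nat_lit 0), (0, 0, 0), [], 2⟩,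
  ⟨⟨-1, 0, 1, 0, 1, 0, 0, 0, 1⟩, .nil, (nat_lit 16), (nat_lit 1), (nat_lit 9), (nat_lit 1), (0, 0, 0), [], 10⟩,
  mz,
  mz]

theorem v_ty : tyb Dm S.ty1 Clm = true := by decide +kernel

theorem v_ty0 : tyb D0 (S.tys.getD 0 0) Cl0 = true := by decide +kernel

theorem v_msc : mscb S D0 [] Dm (nat_lit 648) = true := by decide +kernel

theorem v_mv0 : mvsn (nat_lit 121677485329) S D0 [] Dm (nat_lit 648) 0 D0 = true := by decide +kernel

theorem v_mm : mmsn (nat_lit 121677485329) S D0 [] Dm (nat_lit 648) = true := by decide +kernel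

theorem v_un : unb S D0 (nat_lit 648) U = true := by decide +kernel

theorem v_ok : okb S.oks [(0, 0, 0), (0, 0, 0), (0, 0, 0), (0, 15, 1), (12, 15, 0), (0, 0, 0), (8, 29, 1), (14,
 33, 1), (0, 0, 0), (12, 41, 3), (0, 0, 0), (8, 61, 5), (30, 123, 7), (3, 130, 0), (0, 0, 0), (0, 0, 0), (0, 0,
 0)] = true := by decide +kernel

theorem v_part : ∀ d < D0.p, (nat_lit 648).testBit d = true → part S (zc (D0 :: [])) d = true := by
  intro d hd h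
  have h1 : ∀ d < 17, (nat_lit 648).testBit d = true → d = 3 ∨ d = 7 ∨ d = 9 := by decide
  rcases h1 d hd h with rfl | rfl | rfl
  · exact part_3
  · exact part_7
  · exact part_9

theorem main (n : ℕ) (ho : Odd n) (hr : ¬ Rep n) (h0 : Split 17 n) (hm : Split 71 n) :
    n ∈ EE := by
  refine concln (W := nat_lit 121677485329) (S := S) (P0 := D0) (Pl := []) (Pm := Dm) (cn := nat_lit 648) ?_ Dm_ok v_ty ?_ ?_ v_msc ?_ v_mm v_un v_part v_ok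
    n ho hr ?_ hm
  · simp only [List.forall_mem_cons]
    exact ⟨D0_ok, fun _ h => absurd h (by simp)⟩
  · exact all1 (φ := fun j P => ∃ L, tyb P (S.tys.getD j 0) L = true) ⟨_, v_ty0⟩
  · exact all1 (φ := fun j P => Nat.ble (S.pks.getD j 0) (Nat.pow P.p P.K) = true) (by decide +kernel)
  · exact all1 (φ := fun i P => mvsn (nat_lit 121677485329) S D0 [] Dm (nat_lit 648) i P = true) v_mv0
  · simp only [List.forall_mem_cons]
    exact ⟨h0, fun _ h => absurd h (by simp)⟩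

end Pool.Agent.Work.MP_9954fe_nt.P17_71

namespace Pool.Agent.Work.MP_9954fe_nt.P19_31_53

/-- Dummy move. -/
noncomputable def mz : Mv := ⟨⟨0, 0, 0, 0, 0, 0, 0, 0, 0⟩, .nil, (nat_lit 0), (nat_lit 0), (nat_lit 0), (nat_lit 0), (0, 0, 0), [], 0⟩

/-- Moves. -/
noncomputable def t0_1 : List Mv := [
  ⟨⟨15, -4, -23, -10, 9, -10, 12, 12, -7⟩, (.cons (nat_lit 177) (nat_lit 313) (nat_lit 238) (nat_lit 1) (.cons
 (nat_lit 763) (nat_lit 586) (nat_lit 955) (nat_lit 1) .nil)), (nat_lit 41), (nat_lit 20), (nat_lit 35),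
 (nat_lit 1), (18, 7, 3), [49, 577], 40⟩,
  ⟨⟨15, -4, -23, 10, -9, 10, 12, 12, -7⟩, (.cons (nat_lit 317) (nat_lit 293) (nat_lit 1) (nat_lit 190) (.cons
 (nat_lit 813) (nat_lit 886) (nat_lit 38) (nat_lit 1) .nil)), (nat_lit 24), (nat_lit 0), (nat_lit 43), (nat_lit
 1), (18, 12, 3), [350, 556], 21⟩,
  ⟨⟨15, -4, -23, -10, 9, -10, 12, 12, -7⟩, (.cons (nat_lit 177) (nat_lit 313) (nat_lit 238) (nat_lit 1) (.cons
 (nat_lit 763) (nat_lit 586) (nat_lit 955) (nat_lit 1) .nil)), (nat_lit 41), (nat_lit 20), (nat_lit 35),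
 (nat_lit 1), (18, 7, 3), [49, 577], 40⟩,
  ⟨⟨15, -4, -23, -10, 9, -10, 12, 12, -7⟩, (.cons (nat_lit 177) (nat_lit 313) (nat_lit 238) (nat_lit 1) (.cons
 (nat_lit 763) (nat_lit 586) (nat_lit 955) (nat_lit 1) .nil)), (nat_lit 41), (nat_lit 20), (nat_lit 35),
 (nat_lit 1), (18, 7, 3), [49, 577], 40⟩,
  ⟨⟨-3, 16, 16, 10, -9, 10, 12, 12, -7⟩, (.cons (nat_lit 235) (nat_lit 147) (nat_lit 254) (nat_lit 1) (.cons
 (nat_lit 960) (nat_lit 615) (nat_lit 903) (nat_lit 1) .nil)), (nat_lit 52), (nat_lit 3), (nat_lit 10),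
 (nat_lit 1), (4, 12, 3), [80, 206], 47⟩,
  ⟨⟨15, -4, -23, -10, 9, -10, 12, 12, -7⟩, (.cons (nat_lit 177) (nat_lit 313) (nat_lit 238) (nat_lit 1) (.cons
 (nat_lit 763) (nat_lit 586) (nat_lit 955) (nat_lit 1) .nil)), (nat_lit 41), (nat_lit 20), (nat_lit 35),
 (nat_lit 1), (18, 7, 3), [49, 577], 40⟩,
  ⟨⟨15, -4, -23, 10, -9, 10, 12, 12, -7⟩, (.cons (nat_lit 317) (nat_lit 293) (nat_lit 1) (nat_lit 190) (.cons
 (nat_lit 813) (nat_lit 886) (nat_lit 38) (nat_lit 1) .nil)), (nat_lit 24), (nat_lit 0), (nat_lit 43), (nat_lit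
 1), (18, 12, 3), [350, 556], 21⟩,
  ⟨⟨-3, 16, 16, -10, 9, -10, 12, 12, -7⟩, (.cons (nat_lit 296) (nat_lit 76) (nat_lit 194) (nat_lit 1) (.cons (nat_lit 879) (nat_lit 378) (nat_lit 784) (nat_lit 1) .nil)), (nat_lit 28), (nat_lit 29), (nat_lit 1), (nat_lit 0), (4, 7, 3), [8, 786], 21⟩,
  ⟨⟨15, -4, -23, -10, 9, -10, 12, 12, -7⟩, (.cons (nat_lit 177) (nat_lit 313) (nat_lit 238) (nat_lit 1) (.cons
 (nat_lit 763) (nat_lit 586) (nat_lit 955) (nat_lit 1) .nil)), (nat_lit 41), (nat_lit 20), (nat_lit 35),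
 (nat_lit 1), (18, 7, 3), [49, 577], 40⟩,
  ⟨⟨15, -4, -23, -10, 9, -10, 12, 12, -7⟩, (.cons (nat_lit 177) (nat_lit 313) (nat_lit 238) (nat_lit 1) (.cons
 (nat_lit 763) (nat_lit 586) (nat_lit 955) (nat_lit 1) .nil)), (nat_lit 41), (nat_lit 20), (nat_lit 35),
 (nat_lit 1), (18, 7, 3), [49, 577], 40⟩,
  ⟨⟨15, -4, -23, -10, 9, -10, 12, 12, -7⟩, (.cons (nat_lit 177) (nat_lit 313) (nat_lit 238) (nat_lit 1) (.cons
 (nat_lit 763) (nat_lit 586) (nat_lit 955) (nat_lit 1) .nil)), (nat_lit 41), (nat_lit 20), (nat_lit 35),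
 (nat_lit 1), (18, 7, 3), [49, 577], 40⟩,
  ⟨⟨-3, 16, 16, -10, 9, -10, 12, 12, -7⟩, (.cons (nat_lit 296) (nat_lit 76) (nat_lit 194) (nat_lit 1) (.cons (nat_lit 879) (nat_lit 378) (nat_lit 784) (nat_lit 1) .nil)), (nat_lit 28), (nat_lit 29), (nat_lit 1), (nat_lit 0), (4, 7, 3), [8, 786], 21⟩,
  ⟨⟨15, -4, -23, 10, -9, 10, 12, 12, -7⟩, (.cons (nat_lit 317) (nat_lit 293) (nat_lit 1) (nat_lit 190) (.cons
 (nat_lit 813) (nat_lit 886) (nat_lit 38) (nat_lit 1) .nil)), (nat_lit 24), (nat_lit 0), (nat_lit 43), (nat_lit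
 1), (18, 12, 3), [350, 556], 21⟩,
  ⟨⟨15, -4, -23, -10, 9, -10, 12, 12, -7⟩, (.cons (nat_lit 177) (nat_lit 313) (nat_lit 238) (nat_lit 1) (.cons
 (nat_lit 763) (nat_lit 586) (nat_lit 955) (nat_lit 1) .nil)), (nat_lit 41), (nat_lit 20), (nat_lit 35),
 (nat_lit 1), (18, 7, 3), [49, 577], 40⟩,
  ⟨⟨15, -4, -23, -10, 9, -10, 12, 12, -7⟩, (.cons (nat_lit 177) (nat_lit 313) (nat_lit 238) (nat_lit 1) (.cons
 (nat_lit 763) (nat_lit 586) (nat_lit 955) (nat_lit 1) .nil)), (nat_lit 41), (nat_lit 20), (nat_lit 35),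
 (nat_lit 1), (18, 7, 3), [49, 577], 40⟩,
  ⟨⟨-3, 16, 16, -10, 9, -10, 12, 12, -7⟩, (.cons (nat_lit 296) (nat_lit 76) (nat_lit 194) (nat_lit 1) (.cons (nat_lit 879) (nat_lit 378) (nat_lit 784) (nat_lit 1) .nil)), (nat_lit 28), (nat_lit 29), (nat_lit 1), (nat_lit 0), (4, 7, 3), [8, 786], 21⟩,
  ⟨⟨15, -4, -23, -10, 9, -10, 12, 12, -7⟩, (.cons (nat_lit 177) (nat_lit 313) (nat_lit 238) (nat_lit 1) (.cons
 (nat_lit 763) (nat_lit 586) (nat_lit 955) (nat_lit 1) .nil)), (nat_lit 41), (nat_lit 20), (nat_lit 35),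
 (nat_lit 1), (18, 7, 3), [49, 577], 40⟩,
  ⟨⟨15, -4, -23, -10, 9, -10, 12, 12, -7⟩, (.cons (nat_lit 177) (nat_lit 313) (nat_lit 238) (nat_lit 1) (.cons
 (nat_lit 763) (nat_lit 586) (nat_lit 955) (nat_lit 1) .nil)), (nat_lit 41), (nat_lit 20), (nat_lit 35),
 (nat_lit 1), (18, 7, 3), [49, 577], 40⟩,
  ⟨⟨-3, 16, 16, 10, -9, 10, 12, 12, -7⟩, (.cons (nat_lit 235) (nat_lit 147) (nat_lit 254) (nat_lit 1) (.cons
 (nat_lit 960) (nat_lit 615) (nat_lit 903) (nat_lit 1) .nil)), (nat_lit 52), (nat_lit 3), (nat_lit 10),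
 (nat_lit 1), (4, 12, 3), [80, 206], 47⟩]

/-- Moves. -/
noncomputable def t0_2 : List Mv := [
  ⟨⟨-11, 12, 20, 16, 5, 2, -2, 16, -5⟩, (.cons (nat_lit 131) (nat_lit 154) (nat_lit 242) (nat_lit 1) (.cons
 (nat_lit 236) (nat_lit 392) (nat_lit 203) (nat_lit 1) .nil)), (nat_lit 41), (nat_lit 32), (nat_lit 7),
 (nat_lit 1), (15, 11, 1), [46, 349], 21⟩,
  ⟨⟨9, 4, -25, -16, -5, -2, -2, 16, -5⟩, (.cons (nat_lit 274) (nat_lit 291) (nat_lit 265) (nat_lit 1) (.cons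
 (nat_lit 656) (nat_lit 427) (nat_lit 421) (nat_lit 1) .nil)), (nat_lit 33), (nat_lit 35), (nat_lit 46),
 (nat_lit 1), (5, 8, 1), [52, 753], 35⟩,
  ⟨⟨9, 4, -25, 16, 5, 2, -2, 16, -5⟩, (.cons (nat_lit 314) (nat_lit 176) (nat_lit 235) (nat_lit 1) (.cons (nat_lit 542) (nat_lit 81) (nat_lit 139) (nat_lit 1) .nil)), (nat_lit 51), (nat_lit 13), (nat_lit 5), (nat_lit 1), (5, 11, 1), [253, 852], 1⟩,
  ⟨⟨9, 4, -25, -16, -5, -2, -2, 16, -5⟩, (.cons (nat_lit 274) (nat_lit 291) (nat_lit 265) (nat_lit 1) (.cons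
 (nat_lit 656) (nat_lit 427) (nat_lit 421) (nat_lit 1) .nil)), (nat_lit 33), (nat_lit 35), (nat_lit 46),
 (nat_lit 1), (5, 8, 1), [52, 753], 35⟩,
  ⟨⟨9, 4, -25, -16, -5, -2, -2, 16, -5⟩, (.cons (nat_lit 274) (nat_lit 291) (nat_lit 265) (nat_lit 1) (.cons
 (nat_lit 656) (nat_lit 427) (nat_lit 421) (nat_lit 1) .nil)), (nat_lit 33), (nat_lit 35), (nat_lit 46),
 (nat_lit 1), (5, 8, 1), [52, 753], 35⟩,
  ⟨⟨9, 4, -25, 16, 5, 2, -2, 16, -5⟩, (.cons (nat_lit 314) (nat_lit 176) (nat_lit 235) (nat_lit 1) (.cons (nat_lit 542) (nat_lit 81) (nat_lit 139) (nat_lit 1) .nil)), (nat_lit 51), (nat_lit 13), (nat_lit 5), (nat_lit 1), (5, 11, 1), [253, 852], 1⟩,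
  ⟨⟨-11, 12, 20, 16, 5, 2, -2, 16, -5⟩, (.cons (nat_lit 131) (nat_lit 154) (nat_lit 242) (nat_lit 1) (.cons
 (nat_lit 236) (nat_lit 392) (nat_lit 203) (nat_lit 1) .nil)), (nat_lit 41), (nat_lit 32), (nat_lit 7),
 (nat_lit 1), (15, 11, 1), [46, 349], 21⟩,
  ⟨⟨-11, 12, 20, -16, -5, -2, -2, 16, -5⟩, (.cons (nat_lit 108) (nat_lit 314) (nat_lit 59) (nat_lit 1) (.cons
 (nat_lit 702) (nat_lit 673) (nat_lit 735) (nat_lit 1) .nil)), (nat_lit 19), (nat_lit 25), (nat_lit 8),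
 (nat_lit 1), (15, 8, 1), [7, 942], 47⟩,
  ⟨⟨9, 4, -25, -16, -5, -2, -2, 16, -5⟩, (.cons (nat_lit 274) (nat_lit 291) (nat_lit 265) (nat_lit 1) (.cons
 (nat_lit 656) (nat_lit 427) (nat_lit 421) (nat_lit 1) .nil)), (nat_lit 33), (nat_lit 35), (nat_lit 46),
 (nat_lit 1), (5, 8, 1), [52, 753], 35⟩,
  ⟨⟨9, 4, -25, -16, -5, -2, -2, 16, -5⟩, (.cons (nat_lit 274) (nat_lit 291) (nat_lit 265) (nat_lit 1) (.cons
 (nat_lit 656) (nat_lit 427) (nat_lit 421) (nat_lit 1) .nil)), (nat_lit 33), (nat_lit 35), (nat_lit 46),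
 (nat_lit 1), (5, 8, 1), [52, 753], 35⟩,
  ⟨⟨9, 4, -25, -16, -5, -2, -2, 16, -5⟩, (.cons (nat_lit 274) (nat_lit 291) (nat_lit 265) (nat_lit 1) (.cons
 (nat_lit 656) (nat_lit 427) (nat_lit 421) (nat_lit 1) .nil)), (nat_lit 33), (nat_lit 35), (nat_lit 46),
 (nat_lit 1), (5, 8, 1), [52, 753], 35⟩,
  ⟨⟨9, 4, -25, -16, -5, -2, -2, 16, -5⟩, (.cons (nat_lit 274) (nat_lit 291) (nat_lit 265) (nat_lit 1) (.cons
 (nat_lit 656) (nat_lit 427) (nat_lit 421) (nat_lit 1) .nil)), (nat_lit 33), (nat_lit 35), (nat_lit 46),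
 (nat_lit 1), (5, 8, 1), [52, 753], 35⟩,
  ⟨⟨9, 4, -25, -16, -5, -2, -2, 16, -5⟩, (.cons (nat_lit 274) (nat_lit 291) (nat_lit 265) (nat_lit 1) (.cons
 (nat_lit 656) (nat_lit 427) (nat_lit 421) (nat_lit 1) .nil)), (nat_lit 33), (nat_lit 35), (nat_lit 46),
 (nat_lit 1), (5, 8, 1), [52, 753], 35⟩,
  ⟨⟨-11, 12, 20, -16, -5, -2, -2, 16, -5⟩, (.cons (nat_lit 108) (nat_lit 314) (nat_lit 59) (nat_lit 1) (.cons
 (nat_lit 702) (nat_lit 673) (nat_lit 735) (nat_lit 1) .nil)), (nat_lit 19), (nat_lit 25), (nat_lit 8),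
 (nat_lit 1), (15, 8, 1), [7, 942], 47⟩,
  ⟨⟨9, 4, -25, -16, -5, -2, -2, 16, -5⟩, (.cons (nat_lit 274) (nat_lit 291) (nat_lit 265) (nat_lit 1) (.cons
 (nat_lit 656) (nat_lit 427) (nat_lit 421) (nat_lit 1) .nil)), (nat_lit 33), (nat_lit 35), (nat_lit 46),
 (nat_lit 1), (5, 8, 1), [52, 753], 35⟩,
  ⟨⟨9, 4, -25, 16, 5, 2, -2, 16, -5⟩, (.cons (nat_lit 314) (nat_lit 176) (nat_lit 235) (nat_lit 1) (.cons (nat_lit 542) (nat_lit 81) (nat_lit 139) (nat_lit 1) .nil)), (nat_lit 51), (nat_lit 13), (nat_lit 5), (nat_lit 1), (5, 11, 1), [253, 852], 1⟩,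
  ⟨⟨-11, 12, 20, -16, -5, -2, -2, 16, -5⟩, (.cons (nat_lit 108) (nat_lit 314) (nat_lit 59) (nat_lit 1) (.cons
 (nat_lit 702) (nat_lit 673) (nat_lit 735) (nat_lit 1) .nil)), (nat_lit 19), (nat_lit 25), (nat_lit 8),
 (nat_lit 1), (15, 8, 1), [7, 942], 47⟩,
  ⟨⟨9, 4, -25, -16, -5, -2, -2, 16, -5⟩, (.cons (nat_lit 274) (nat_lit 291) (nat_lit 265) (nat_lit 1) (.cons
 (nat_lit 656) (nat_lit 427) (nat_lit 421) (nat_lit 1) .nil)), (nat_lit 33), (nat_lit 35), (nat_lit 46),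
 (nat_lit 1), (5, 8, 1), [52, 753], 35⟩,
  ⟨⟨9, 4, -25, -16, -5, -2, -2, 16, -5⟩, (.cons (nat_lit 274) (nat_lit 291) (nat_lit 265) (nat_lit 1) (.cons
 (nat_lit 656) (nat_lit 427) (nat_lit 421) (nat_lit 1) .nil)), (nat_lit 33), (nat_lit 35), (nat_lit 46),
 (nat_lit 1), (5, 8, 1), [52, 753], 35⟩]

/-- Moves. -/
noncomputable def t0_8 : List Mv := [
  ⟨⟨17, -12, -9, -4, -5, -18, 14, 8, -13⟩, (.cons (nat_lit 67) (nat_lit 114) (nat_lit 350) (nat_lit 1) (.cons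
 (nat_lit 749) (nat_lit 443) (nat_lit 668) (nat_lit 1) .nil)), (nat_lit 33), (nat_lit 49), (nat_lit 48),
 (nat_lit 1), (9, 18, 13), [238, 71], 35⟩,
  ⟨⟨17, -12, -9, -4, -5, -18, 14, 8, -13⟩, (.cons (nat_lit 67) (nat_lit 114) (nat_lit 350) (nat_lit 1) (.cons
 (nat_lit 749) (nat_lit 443) (nat_lit 668) (nat_lit 1) .nil)), (nat_lit 33), (nat_lit 49), (nat_lit 48),
 (nat_lit 1), (9, 18, 13), [238, 71], 35⟩,
  ⟨⟨17, -12, -9, -4, -5, -18, 14, 8, -13⟩, (.cons (nat_lit 67) (nat_lit 114) (nat_lit 350) (nat_lit 1) (.cons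
 (nat_lit 749) (nat_lit 443) (nat_lit 668) (nat_lit 1) .nil)), (nat_lit 33), (nat_lit 49), (nat_lit 48),
 (nat_lit 1), (9, 18, 13), [238, 71], 35⟩,
  ⟨⟨-3, 20, -4, -4, -5, -18, 14, 8, -13⟩, (.cons (nat_lit 100) (nat_lit 351) (nat_lit 181) (nat_lit 1) (.cons
 (nat_lit 408) (nat_lit 41) (nat_lit 802) (nat_lit 1) .nil)), (nat_lit 13), (nat_lit 50), (nat_lit 32),
 (nat_lit 1), (4, 18, 13), [256, 44], 49⟩,
  ⟨⟨-3, 20, -4, 4, 5, 18, 14, 8, -13⟩, (.cons (nat_lit 78) (nat_lit 138) (nat_lit 1) (nat_lit 285) (.cons (nat_lit 452) (nat_lit 601) (nat_lit 500) (nat_lit 1) .nil)), (nat_lit 22), (nat_lit 38), (nat_lit 5), (nat_lit 1), (4, 1, 13), [71, 701], 41⟩,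
  ⟨⟨17, -12, -9, -4, -5, -18, 14, 8, -13⟩, (.cons (nat_lit 67) (nat_lit 114) (nat_lit 350) (nat_lit 1) (.cons
 (nat_lit 749) (nat_lit 443) (nat_lit 668) (nat_lit 1) .nil)), (nat_lit 33), (nat_lit 49), (nat_lit 48),
 (nat_lit 1), (9, 18, 13), [238, 71], 35⟩,
  ⟨⟨17, -12, -9, -4, -5, -18, 14, 8, -13⟩, (.cons (nat_lit 67) (nat_lit 114) (nat_lit 350) (nat_lit 1) (.cons
 (nat_lit 749) (nat_lit 443) (nat_lit 668) (nat_lit 1) .nil)), (nat_lit 33), (nat_lit 49), (nat_lit 48),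
 (nat_lit 1), (9, 18, 13), [238, 71], 35⟩,
  ⟨⟨17, -12, -9, -4, -5, -18, 14, 8, -13⟩, (.cons (nat_lit 67) (nat_lit 114) (nat_lit 350) (nat_lit 1) (.cons
 (nat_lit 749) (nat_lit 443) (nat_lit 668) (nat_lit 1) .nil)), (nat_lit 33), (nat_lit 49), (nat_lit 48),
 (nat_lit 1), (9, 18, 13), [238, 71], 35⟩,
  ⟨⟨17, -12, -9, 4, 5, 18, 14, 8, -13⟩, (.cons (nat_lit 273) (nat_lit 128) (nat_lit 294) (nat_lit 1) (.cons
 (nat_lit 552) (nat_lit 327) (nat_lit 729) (nat_lit 1) .nil)), (nat_lit 49), (nat_lit 33), (nat_lit 31),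
 (nat_lit 1), (9, 1, 13), [176, 167], 9⟩,
  ⟨⟨17, -12, -9, -4, -5, -18, 14, 8, -13⟩, (.cons (nat_lit 67) (nat_lit 114) (nat_lit 350) (nat_lit 1) (.cons
 (nat_lit 749) (nat_lit 443) (nat_lit 668) (nat_lit 1) .nil)), (nat_lit 33), (nat_lit 49), (nat_lit 48),
 (nat_lit 1), (9, 18, 13), [238, 71], 35⟩,
  ⟨⟨17, -12, -9, -4, -5, -18, 14, 8, -13⟩, (.cons (nat_lit 67) (nat_lit 114) (nat_lit 350) (nat_lit 1) (.cons
 (nat_lit 749) (nat_lit 443) (nat_lit 668) (nat_lit 1) .nil)), (nat_lit 33), (nat_lit 49), (nat_lit 48),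
 (nat_lit 1), (9, 18, 13), [238, 71], 35⟩,
  ⟨⟨17, -12, -9, -4, -5, -18, 14, 8, -13⟩, (.cons (nat_lit 67) (nat_lit 114) (nat_lit 350) (nat_lit 1) (.cons
 (nat_lit 749) (nat_lit 443) (nat_lit 668) (nat_lit 1) .nil)), (nat_lit 33), (nat_lit 49), (nat_lit 48),
 (nat_lit 1), (9, 18, 13), [238, 71], 35⟩,
  ⟨⟨17, -12, -9, -4, -5, -18, 14, 8, -13⟩, (.cons (nat_lit 67) (nat_lit 114) (nat_lit 350) (nat_lit 1) (.cons
 (nat_lit 749) (nat_lit 443) (nat_lit 668) (nat_lit 1) .nil)), (nat_lit 33), (nat_lit 49), (nat_lit 48),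
 (nat_lit 1), (9, 18, 13), [238, 71], 35⟩,
  ⟨⟨-3, 20, -4, -4, -5, -18, 14, 8, -13⟩, (.cons (nat_lit 100) (nat_lit 351) (nat_lit 181) (nat_lit 1) (.cons
 (nat_lit 408) (nat_lit 41) (nat_lit 802) (nat_lit 1) .nil)), (nat_lit 13), (nat_lit 50), (nat_lit 32),
 (nat_lit 1), (4, 18, 13), [256, 44], 49⟩,
  ⟨⟨-3, 20, -4, 4, 5, 18, 14, 8, -13⟩, (.cons (nat_lit 78) (nat_lit 138) (nat_lit 1) (nat_lit 285) (.cons (nat_lit 452) (nat_lit 601) (nat_lit 500) (nat_lit 1) .nil)), (nat_lit 22), (nat_lit 38), (nat_lit 5), (nat_lit 1), (4, 1, 13), [71, 701], 41⟩,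
  ⟨⟨17, -12, -9, 4, 5, 18, 14, 8, -13⟩, (.cons (nat_lit 273) (nat_lit 128) (nat_lit 294) (nat_lit 1) (.cons
 (nat_lit 552) (nat_lit 327) (nat_lit 729) (nat_lit 1) .nil)), (nat_lit 49), (nat_lit 33), (nat_lit 31),
 (nat_lit 1), (9, 1, 13), [176, 167], 9⟩,
  ⟨⟨17, -12, -9, 4, 5, 18, 14, 8, -13⟩, (.cons (nat_lit 273) (nat_lit 128) (nat_lit 294) (nat_lit 1) (.cons
 (nat_lit 552) (nat_lit 327) (nat_lit 729) (nat_lit 1) .nil)), (nat_lit 49), (nat_lit 33), (nat_lit 31),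
 (nat_lit 1), (9, 1, 13), [176, 167], 9⟩,
  ⟨⟨17, -12, -9, -4, -5, -18, 14, 8, -13⟩, (.cons (nat_lit 67) (nat_lit 114) (nat_lit 350) (nat_lit 1) (.cons
 (nat_lit 749) (nat_lit 443) (nat_lit 668) (nat_lit 1) .nil)), (nat_lit 33), (nat_lit 49), (nat_lit 48),
 (nat_lit 1), (9, 18, 13), [238, 71], 35⟩,
  ⟨⟨-3, 20, -4, -4, -5, -18, 14, 8, -13⟩, (.cons (nat_lit 100) (nat_lit 351) (nat_lit 181) (nat_lit 1) (.cons
 (nat_lit 408) (nat_lit 41) (nat_lit 802) (nat_lit 1) .nil)), (nat_lit 13), (nat_lit 50), (nat_lit 32),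
 (nat_lit 1), (4, 18, 13), [256, 44], 49⟩]

/-- Moves. -/
noncomputable def t1_1 : List Mv := [
  mz,
  ⟨⟨3, 20, 29, -4, 25, -18, 26, 8, -7⟩, (.cons (nat_lit 58) (nat_lit 222) (nat_lit 38) (nat_lit 1) (.cons
 (nat_lit 719) (nat_lit 143) (nat_lit 125) (nat_lit 1) .nil)), (nat_lit 31), (nat_lit 5), (nat_lit 37),
 (nat_lit 1), (26, 17, 29), [159, 819], 4⟩,
  ⟨⟨23, 12, -36, 4, 25, 18, 26, -8, -7⟩, (.cons (nat_lit 41) (nat_lit 315) (nat_lit 357) (nat_lit 1) (.cons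
 (nat_lit 823) (nat_lit 764) (nat_lit 323) (nat_lit 1) .nil)), (nat_lit 35), (nat_lit 44), (nat_lit 11),
 (nat_lit 1), (1, 15, 20), [260, 67], 20⟩,
  mz,
  ⟨⟨27, 16, -28, 4, 15, 28, -6, 24, -11⟩, (.cons (nat_lit 360) (nat_lit 213) (nat_lit 263) (nat_lit 1) (.cons
 (nat_lit 412) (nat_lit 83) (nat_lit 351) (nat_lit 1) .nil)), (nat_lit 52), (nat_lit 29), (nat_lit 37),
 (nat_lit 1), (15, 16, 7), [210, 852], 10⟩,
  mz,
  ⟨⟨1, -12, 35, -16, -25, -2, 22, -16, -5⟩, (.cons (nat_lit 358) (nat_lit 233) (nat_lit 291) (nat_lit 1) (.cons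
 (nat_lit 790) (nat_lit 903) (nat_lit 23) (nat_lit 1) .nil)), (nat_lit 46), (nat_lit 24), (nat_lit 14),
 (nat_lit 1), (1, 15, 22), [117, 202], 20⟩,
  mz,
  ⟨⟨-31, 0, 0, 10, 19, -30, -4, -20, -19⟩, (.cons (nat_lit 360) (nat_lit 63) (nat_lit 312) (nat_lit 1) (.cons
 (nat_lit 582) (nat_lit 103) (nat_lit 437) (nat_lit 1) .nil)), (nat_lit 52), (nat_lit 30), (nat_lit 9),
 (nat_lit 1), (0, 5, 29), [1, 738], 26⟩,
  mz,
  mz,
  mz,
  mz,
  ⟨⟨-31, 0, 0, 10, -19, -30, -4, 20, -19⟩, (.cons (nat_lit 44) (nat_lit 179) (nat_lit 329) (nat_lit 1) (.cons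
 (nat_lit 923) (nat_lit 15) (nat_lit 809) (nat_lit 1) .nil)), (nat_lit 2), (nat_lit 39), (nat_lit 6), (nat_lit
 1), (0, 3, 5), [124, 641], 37⟩,
  ⟨⟨27, -16, -28, -4, 15, -28, -6, -24, -11⟩, (.cons (nat_lit 360) (nat_lit 350) (nat_lit 170) (nat_lit 1)
 (.cons (nat_lit 864) (nat_lit 613) (nat_lit 819) (nat_lit 1) .nil)), (nat_lit 52), (nat_lit 47), (nat_lit 41),
 (nat_lit 1), (28, 28, 11), [182, 502], 37⟩,
  ⟨⟨23, -12, 13, 4, -25, -22, 26, 8, -19⟩, (.cons (nat_lit 153) (nat_lit 95) (nat_lit 66) (nat_lit 1) (.cons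
 (nat_lit 926) (nat_lit 384) (nat_lit 792) (nat_lit 1) .nil)), (nat_lit 12), (nat_lit 34), (nat_lit 1),
 (nat_lit 1), (25, 3, 4), [259, 474], 7⟩,
  mz,
  mz,
  ⟨⟨1, -12, -36, 16, 25, -18, 22, -16, -17⟩, (.cons (nat_lit 310) (nat_lit 126) (nat_lit 1) (nat_lit 114)
 (.cons (nat_lit 750) (nat_lit 77) (nat_lit 378) (nat_lit 1) .nil)), (nat_lit 8), (nat_lit 10), (nat_lit 14),
 (nat_lit 1), (21, 26, 28), [331, 474], 42⟩,
  ⟨⟨-9, 8, -31, -10, -29, 0, 20, -4, -31⟩, (.cons (nat_lit 61) (nat_lit 344) (nat_lit 295) (nat_lit 1) (.cons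
 (nat_lit 501) (nat_lit 320) (nat_lit 659) (nat_lit 1) .nil)), (nat_lit 8), (nat_lit 47), (nat_lit 4), (nat_lit
 1), (2, 16, 30), [40, 881], 15⟩,
  ⟨⟨-29, -12, 29, -10, 29, 10, -20, -4, -11⟩, (.cons (nat_lit 77) (nat_lit 292) (nat_lit 1) (nat_lit 152)
 (.cons (nat_lit 847) (nat_lit 406) (nat_lit 3) (nat_lit 1) .nil)), (nat_lit 13), (nat_lit 8), (nat_lit 14),
 (nat_lit 1), (6, 1, 2), [353, 590], 5⟩,
  ⟨⟨33, 8, -16, 4, -15, -32, 6, 24, -17⟩, (.cons (nat_lit 329) (nat_lit 355) (nat_lit 27) (nat_lit 1) (.cons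
 (nat_lit 245) (nat_lit 868) (nat_lit 861) (nat_lit 1) .nil)), (nat_lit 47), (nat_lit 22), (nat_lit 38),
 (nat_lit 1), (1, 2, 3), [59, 555], 27⟩,
  ⟨⟨9, -8, -40, 10, 29, -10, -20, 4, -11⟩, (.cons (nat_lit 184) (nat_lit 255) (nat_lit 206) (nat_lit 1) (.cons
 (nat_lit 618) (nat_lit 668) (nat_lit 158) (nat_lit 1) .nil)), (nat_lit 49), (nat_lit 2), (nat_lit 36),
 (nat_lit 1), (18, 20, 22), [31, 177], 24⟩,
  ⟨⟨3, -20, -32, 4, 25, -22, 26, -8, -19⟩, (.cons (nat_lit 188) (nat_lit 64) (nat_lit 26) (nat_lit 1) (.cons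
 (nat_lit 77) (nat_lit 742) (nat_lit 648) (nat_lit 1) .nil)), (nat_lit 45), (nat_lit 27), (nat_lit 22),
 (nat_lit 1), (3, 4, 26), [91, 722], 47⟩,
  ⟨⟨-9, -8, -31, -10, 29, 0, 20, 4, -31⟩, (.cons (nat_lit 152) (nat_lit 240) (nat_lit 75) (nat_lit 1) (.cons
 (nat_lit 475) (nat_lit 776) (nat_lit 16) (nat_lit 1) .nil)), (nat_lit 49), (nat_lit 32), (nat_lit 3), (nat_lit
 1), (24, 6, 19), [125, 552], 27⟩,
  ⟨⟨-27, -20, 8, -10, 19, -20, 4, -20, -23⟩, (.cons (nat_lit 360) (nat_lit 298) (nat_lit 290) (nat_lit 1)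
 (.cons (nat_lit 384) (nat_lit 14) (nat_lit 401) (nat_lit 1) .nil)), (nat_lit 52), (nat_lit 9), (nat_lit 37),
 (nat_lit 1), (16, 22, 16), [291, 536], 34⟩,
  ⟨⟨1, 12, 35, -16, 25, -2, 22, 16, -5⟩, (.cons (nat_lit 145) (nat_lit 93) (nat_lit 27) (nat_lit 1) (.cons (nat_lit 307) (nat_lit 665) (nat_lit 882) (nat_lit 1) .nil)), (nat_lit 43), (nat_lit 6), (nat_lit 51), (nat_lit 1), (30, 16, 9), [63, 13], 44⟩,
  ⟨⟨-27, -16, -1, 4, 15, -32, 6, -24, -17⟩, (.cons (nat_lit 193) (nat_lit 12) (nat_lit 168) (nat_lit 1) (.cons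
 (nat_lit 15) (nat_lit 177) (nat_lit 176) (nat_lit 1) .nil)), (nat_lit 41), (nat_lit 26), (nat_lit 12),
 (nat_lit 1), (15, 15, 7), [164, 576], 26⟩,
  ⟨⟨1, 12, -36, 16, -25, -18, 22, 16, -17⟩, (.cons (nat_lit 270) (nat_lit 319) (nat_lit 270) (nat_lit 1) (.cons
 (nat_lit 247) (nat_lit 852) (nat_lit 433) (nat_lit 1) .nil)), (nat_lit 28), (nat_lit 4), (nat_lit 51),
 (nat_lit 1), (19, 25, 15), [7, 606], 50⟩,
  ⟨⟨31, 0, -31, 10, 19, 20, 4, 20, -23⟩, (.cons (nat_lit 283) (nat_lit 345) (nat_lit 220) (nat_lit 1) (.cons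
 (nat_lit 20) (nat_lit 215) (nat_lit 581) (nat_lit 1) .nil)), (nat_lit 35), (nat_lit 44), (nat_lit 5), (nat_lit
 1), (0, 11, 23), [154, 926], 11⟩]

/-- Moves. -/
noncomputable def t1_2 : List Mv := [
  mz,
  ⟨⟨23, -12, -36, -4, 25, -18, 26, 8, -7⟩, (.cons (nat_lit 119) (nat_lit 305) (nat_lit 360) (nat_lit 1) (.cons
 (nat_lit 388) (nat_lit 423) (nat_lit 935) (nat_lit 1) .nil)), (nat_lit 36), (nat_lit 15), (nat_lit 19),
 (nat_lit 1), (3, 17, 29), [148, 815], 19⟩,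
  ⟨⟨3, -20, 29, -4, -25, -18, 26, -8, -7⟩, (.cons (nat_lit 120) (nat_lit 198) (nat_lit 97) (nat_lit 1) (.cons
 (nat_lit 529) (nat_lit 365) (nat_lit 455) (nat_lit 1) .nil)), (nat_lit 15), (nat_lit 11), (nat_lit 2),
 (nat_lit 1), (19, 16, 20), [13, 707], 48⟩,
  mz,
  ⟨⟨-33, 8, 17, -4, -15, -28, -6, 24, -11⟩, (.cons (nat_lit 48) (nat_lit 269) (nat_lit 185) (nat_lit 1) (.cons
 (nat_lit 698) (nat_lit 820) (nat_lit 957) (nat_lit 1) .nil)), (nat_lit 40), (nat_lit 24), (nat_lit 42),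
 (nat_lit 1), (23, 15, 7), [118, 827], 10⟩,
  mz,
  ⟨⟨1, -12, 35, 16, 25, 2, 22, -16, -5⟩, (.cons (nat_lit 305) (nat_lit 158) (nat_lit 323) (nat_lit 1) (.cons
 (nat_lit 435) (nat_lit 727) (nat_lit 466) (nat_lit 1) .nil)), (nat_lit 12), (nat_lit 46), (nat_lit 33),
 (nat_lit 1), (1, 16, 22), [83, 75], 46⟩,
  mz,
  ⟨⟨-31, 0, 0, -10, -19, 30, -4, -20, -19⟩, (.cons (nat_lit 320) (nat_lit 119) (nat_lit 132) (nat_lit 1) (.cons
 (nat_lit 455) (nat_lit 880) (nat_lit 531) (nat_lit 1) .nil)), (nat_lit 27), (nat_lit 7), (nat_lit 50),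
 (nat_lit 1), (0, 26, 29), [147, 740], 49⟩,
  mz,
  mz,
  mz,
  mz,
  ⟨⟨-31, 0, 0, 10, -19, -30, -4, 20, -19⟩, (.cons (nat_lit 44) (nat_lit 179) (nat_lit 329) (nat_lit 1) (.cons
 (nat_lit 923) (nat_lit 15) (nat_lit 809) (nat_lit 1) .nil)), (nat_lit 2), (nat_lit 39), (nat_lit 6), (nat_lit
 1), (0, 3, 5), [124, 641], 37⟩,
  ⟨⟨-33, -8, 17, -4, 15, -28, -6, -24, -11⟩, (.cons (nat_lit 260) (nat_lit 129) (nat_lit 1) (nat_lit 1) (.cons
 (nat_lit 750) (nat_lit 425) (nat_lit 76) (nat_lit 1) .nil)), (nat_lit 22), (nat_lit 11), (nat_lit 1), (nat_lit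
 1), (14, 28, 11), [90, 163], 23⟩,
  ⟨⟨3, 20, -32, 4, -25, -22, 26, 8, -19⟩, (.cons (nat_lit 251) (nat_lit 332) (nat_lit 13) (nat_lit 1) (.cons
 (nat_lit 739) (nat_lit 110) (nat_lit 776) (nat_lit 1) .nil)), (nat_lit 28), (nat_lit 14), (nat_lit 7),
 (nat_lit 1), (10, 3, 4), [26, 53], 50⟩,
  mz,
  mz,
  ⟨⟨21, -4, 19, -16, -25, 18, 22, -16, -17⟩, (.cons (nat_lit 210) (nat_lit 266) (nat_lit 219) (nat_lit 1)
 (.cons (nat_lit 99) (nat_lit 869) (nat_lit 887) (nat_lit 1) .nil)), (nat_lit 31), (nat_lit 6), (nat_lit 22),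
 (nat_lit 1), (7, 5, 28), [221, 18], 49⟩,
  ⟨⟨29, -12, 0, -10, -29, 0, 20, -4, -31⟩, (.cons (nat_lit 360) (nat_lit 214) (nat_lit 100) (nat_lit 1) (.cons
 (nat_lit 417) (nat_lit 102) (nat_lit 934) (nat_lit 1) .nil)), (nat_lit 52), (nat_lit 11), (nat_lit 15),
 (nat_lit 1), (28, 16, 30), [87, 288], 48⟩,
  ⟨⟨9, 8, -40, 10, -29, -10, -20, -4, -11⟩, (.cons (nat_lit 360) (nat_lit 0) (nat_lit 315) (nat_lit 1) (.cons
 (nat_lit 790) (nat_lit 532) (nat_lit 954) (nat_lit 1) .nil)), (nat_lit 52), (nat_lit 34), (nat_lit 48),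
 (nat_lit 1), (27, 30, 2), [330, 670], 45⟩,
  ⟨⟨33, 8, -16, -4, 15, 32, 6, 24, -17⟩, (.cons (nat_lit 360) (nat_lit 221) (nat_lit 278) (nat_lit 1) (.cons
 (nat_lit 103) (nat_lit 526) (nat_lit 464) (nat_lit 1) .nil)), (nat_lit 52), (nat_lit 31), (nat_lit 16),
 (nat_lit 1), (1, 29, 3), [334, 828], 37⟩,
  ⟨⟨9, -8, -40, -10, -29, 10, -20, 4, -11⟩, (.cons (nat_lit 360) (nat_lit 244) (nat_lit 74) (nat_lit 1) (.cons
 (nat_lit 295) (nat_lit 908) (nat_lit 539) (nat_lit 1) .nil)), (nat_lit 52), (nat_lit 1), (nat_lit 6), (nat_lit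
 1), (18, 11, 22), [144, 32], 48⟩,
  ⟨⟨3, -20, -32, 4, 25, -22, 26, -8, -19⟩, (.cons (nat_lit 188) (nat_lit 64) (nat_lit 26) (nat_lit 1) (.cons
 (nat_lit 77) (nat_lit 742) (nat_lit 648) (nat_lit 1) .nil)), (nat_lit 45), (nat_lit 27), (nat_lit 22),
 (nat_lit 1), (3, 4, 26), [91, 722], 47⟩,
  ⟨⟨-9, -8, -31, -10, 29, 0, 20, 4, -31⟩, (.cons (nat_lit 152) (nat_lit 240) (nat_lit 75) (nat_lit 1) (.cons
 (nat_lit 475) (nat_lit 776) (nat_lit 16) (nat_lit 1) .nil)), (nat_lit 49), (nat_lit 32), (nat_lit 3), (nat_lit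
 1), (24, 6, 19), [125, 552], 27⟩,
  ⟨⟨-27, -20, 8, -10, 19, -20, 4, -20, -23⟩, (.cons (nat_lit 360) (nat_lit 298) (nat_lit 290) (nat_lit 1)
 (.cons (nat_lit 384) (nat_lit 14) (nat_lit 401) (nat_lit 1) .nil)), (nat_lit 52), (nat_lit 9), (nat_lit 37),
 (nat_lit 1), (16, 22, 16), [291, 536], 34⟩,
  ⟨⟨1, 12, 35, -16, 25, -2, 22, 16, -5⟩, (.cons (nat_lit 145) (nat_lit 93) (nat_lit 27) (nat_lit 1) (.cons (nat_lit 307) (nat_lit 665) (nat_lit 882) (nat_lit 1) .nil)), (nat_lit 43), (nat_lit 6), (nat_lit 51), (nat_lit 1), (30, 16, 9), [63, 13], 44⟩,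
  ⟨⟨33, -8, -16, 4, 15, -32, 6, -24, -17⟩, (.cons (nat_lit 360) (nat_lit 264) (nat_lit 291) (nat_lit 1) (.cons
 (nat_lit 793) (nat_lit 799) (nat_lit 600) (nat_lit 1) .nil)), (nat_lit 52), (nat_lit 6), (nat_lit 11),
 (nat_lit 1), (23, 15, 7), [58, 29], 10⟩,
  ⟨⟨21, 4, 19, -16, 25, 18, 22, 16, -17⟩, (.cons (nat_lit 64) (nat_lit 225) (nat_lit 132) (nat_lit 1) (.cons
 (nat_lit 371) (nat_lit 497) (nat_lit 126) (nat_lit 1) .nil)), (nat_lit 23), (nat_lit 15), (nat_lit 7),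
 (nat_lit 1), (27, 6, 15), [332, 747], 51⟩,
  ⟨⟨31, 0, -31, -10, -19, -20, 4, 20, -23⟩, (.cons (nat_lit 253) (nat_lit 292) (nat_lit 191) (nat_lit 1) (.cons
 (nat_lit 475) (nat_lit 180) (nat_lit 164) (nat_lit 1) .nil)), (nat_lit 3), (nat_lit 47), (nat_lit 16),
 (nat_lit 1), (0, 20, 23), [159, 746], 48⟩]

/-- Moves. -/
noncomputable def t1_8 : List Mv := [
  mz,
  ⟨⟨3, 20, 29, -4, 25, -18, 26, 8, -7⟩, (.cons (nat_lit 58) (nat_lit 222) (nat_lit 38) (nat_lit 1) (.cons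
 (nat_lit 719) (nat_lit 143) (nat_lit 125) (nat_lit 1) .nil)), (nat_lit 31), (nat_lit 5), (nat_lit 37),
 (nat_lit 1), (26, 17, 29), [159, 819], 4⟩,
  ⟨⟨3, -20, 29, 4, 25, 18, 26, -8, -7⟩, (.cons (nat_lit 122) (nat_lit 206) (nat_lit 316) (nat_lit 1) (.cons
 (nat_lit 666) (nat_lit 825) (nat_lit 28) (nat_lit 1) .nil)), (nat_lit 37), (nat_lit 43), (nat_lit 21),
 (nat_lit 1), (19, 15, 20), [175, 331], 28⟩,
  mz,
  ⟨⟨27, 16, -28, 4, 15, 28, -6, 24, -11⟩, (.cons (nat_lit 360) (nat_lit 213) (nat_lit 263) (nat_lit 1) (.cons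
 (nat_lit 412) (nat_lit 83) (nat_lit 351) (nat_lit 1) .nil)), (nat_lit 52), (nat_lit 29), (nat_lit 37),
 (nat_lit 1), (15, 16, 7), [210, 852], 10⟩,
  mz,
  ⟨⟨1, -12, 35, -16, -25, -2, 22, -16, -5⟩, (.cons (nat_lit 358) (nat_lit 233) (nat_lit 291) (nat_lit 1) (.cons
 (nat_lit 790) (nat_lit 903) (nat_lit 23) (nat_lit 1) .nil)), (nat_lit 46), (nat_lit 24), (nat_lit 14),
 (nat_lit 1), (1, 15, 22), [117, 202], 20⟩,
  mz,
  ⟨⟨-31, 0, 0, 10, 19, -30, -4, -20, -19⟩, (.cons (nat_lit 360) (nat_lit 63) (nat_lit 312) (nat_lit 1) (.cons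
 (nat_lit 582) (nat_lit 103) (nat_lit 437) (nat_lit 1) .nil)), (nat_lit 52), (nat_lit 30), (nat_lit 9),
 (nat_lit 1), (0, 5, 29), [1, 738], 26⟩,
  mz,
  mz,
  mz,
  mz,
  ⟨⟨27, 20, -19, -10, 19, 30, -4, 20, -19⟩, (.cons (nat_lit 199) (nat_lit 296) (nat_lit 262) (nat_lit 1) (.cons
 (nat_lit 468) (nat_lit 745) (nat_lit 851) (nat_lit 1) .nil)), (nat_lit 50), (nat_lit 26), (nat_lit 15),
 (nat_lit 1), (5, 28, 5), [181, 228], 46⟩,
  ⟨⟨27, -16, -28, -4, 15, -28, -6, -24, -11⟩, (.cons (nat_lit 360) (nat_lit 350) (nat_lit 170) (nat_lit 1)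
 (.cons (nat_lit 864) (nat_lit 613) (nat_lit 819) (nat_lit 1) .nil)), (nat_lit 52), (nat_lit 47), (nat_lit 41),
 (nat_lit 1), (28, 28, 11), [182, 502], 37⟩,
  ⟨⟨23, -12, 13, -4, 25, 22, 26, 8, -19⟩, (.cons (nat_lit 220) (nat_lit 318) (nat_lit 201) (nat_lit 1) (.cons
 (nat_lit 816) (nat_lit 847) (nat_lit 565) (nat_lit 1) .nil)), (nat_lit 30), (nat_lit 27), (nat_lit 2),
 (nat_lit 1), (25, 28, 4), [329, 122], 2⟩,
  mz,
  mz,
  ⟨⟨1, -12, -36, -16, -25, 18, 22, -16, -17⟩, (.cons (nat_lit 317) (nat_lit 142) (nat_lit 185) (nat_lit 1)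
 (.cons (nat_lit 149) (nat_lit 364) (nat_lit 958) (nat_lit 1) .nil)), (nat_lit 50), (nat_lit 26), (nat_lit 33),
 (nat_lit 1), (21, 5, 28), [235, 681], 32⟩,
  ⟨⟨-9, 8, -31, -10, -29, 0, 20, -4, -31⟩, (.cons (nat_lit 61) (nat_lit 344) (nat_lit 295) (nat_lit 1) (.cons
 (nat_lit 501) (nat_lit 320) (nat_lit 659) (nat_lit 1) .nil)), (nat_lit 8), (nat_lit 47), (nat_lit 4), (nat_lit
 1), (2, 16, 30), [40, 881], 15⟩,
  ⟨⟨9, 8, -40, 10, -29, -10, -20, -4, -11⟩, (.cons (nat_lit 360) (nat_lit 0) (nat_lit 315) (nat_lit 1) (.cons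
 (nat_lit 790) (nat_lit 532) (nat_lit 954) (nat_lit 1) .nil)), (nat_lit 52), (nat_lit 34), (nat_lit 48),
 (nat_lit 1), (27, 30, 2), [330, 670], 45⟩,
  ⟨⟨33, 8, -16, -4, 15, 32, 6, 24, -17⟩, (.cons (nat_lit 360) (nat_lit 221) (nat_lit 278) (nat_lit 1) (.cons
 (nat_lit 103) (nat_lit 526) (nat_lit 464) (nat_lit 1) .nil)), (nat_lit 52), (nat_lit 31), (nat_lit 16),
 (nat_lit 1), (1, 29, 3), [334, 828], 37⟩,
  ⟨⟨9, -8, -40, -10, -29, 10, -20, 4, -11⟩, (.cons (nat_lit 360) (nat_lit 244) (nat_lit 74) (nat_lit 1) (.cons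
 (nat_lit 295) (nat_lit 908) (nat_lit 539) (nat_lit 1) .nil)), (nat_lit 52), (nat_lit 1), (nat_lit 6), (nat_lit
 1), (18, 11, 22), [144, 32], 48⟩,
  ⟨⟨3, -20, -32, 4, 25, -22, 26, -8, -19⟩, (.cons (nat_lit 188) (nat_lit 64) (nat_lit 26) (nat_lit 1) (.cons
 (nat_lit 77) (nat_lit 742) (nat_lit 648) (nat_lit 1) .nil)), (nat_lit 45), (nat_lit 27), (nat_lit 22),
 (nat_lit 1), (3, 4, 26), [91, 722], 47⟩,
  ⟨⟨-9, -8, -31, -10, 29, 0, 20, 4, -31⟩, (.cons (nat_lit 152) (nat_lit 240) (nat_lit 75) (nat_lit 1) (.cons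
 (nat_lit 475) (nat_lit 776) (nat_lit 16) (nat_lit 1) .nil)), (nat_lit 49), (nat_lit 32), (nat_lit 3), (nat_lit
 1), (24, 6, 19), [125, 552], 27⟩,
  ⟨⟨-27, -20, 8, -10, 19, -20, 4, -20, -23⟩, (.cons (nat_lit 360) (nat_lit 298) (nat_lit 290) (nat_lit 1)
 (.cons (nat_lit 384) (nat_lit 14) (nat_lit 401) (nat_lit 1) .nil)), (nat_lit 52), (nat_lit 9), (nat_lit 37),
 (nat_lit 1), (16, 22, 16), [291, 536], 34⟩,
  ⟨⟨1, 12, 35, -16, 25, -2, 22, 16, -5⟩, (.cons (nat_lit 145) (nat_lit 93) (nat_lit 27) (nat_lit 1) (.cons (nat_lit 307) (nat_lit 665) (nat_lit 882) (nat_lit 1) .nil)), (nat_lit 43), (nat_lit 6), (nat_lit 51), (nat_lit 1), (30, 16, 9), [63, 13], 44⟩,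
  ⟨⟨-27, -16, -1, -4, -15, 32, 6, -24, -17⟩, (.cons (nat_lit 173) (nat_lit 32) (nat_lit 124) (nat_lit 1) (.cons
 (nat_lit 468) (nat_lit 82) (nat_lit 551) (nat_lit 1) .nil)), (nat_lit 4), (nat_lit 10), (nat_lit 44), (nat_lit
 1), (15, 16, 7), [320, 508], 1⟩,
  ⟨⟨1, 12, -36, 16, -25, -18, 22, 16, -17⟩, (.cons (nat_lit 270) (nat_lit 319) (nat_lit 270) (nat_lit 1) (.cons
 (nat_lit 247) (nat_lit 852) (nat_lit 433) (nat_lit 1) .nil)), (nat_lit 28), (nat_lit 4), (nat_lit 51),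
 (nat_lit 1), (19, 25, 15), [7, 606], 50⟩,
  ⟨⟨31, 0, -31, -10, -19, -20, 4, 20, -23⟩, (.cons (nat_lit 253) (nat_lit 292) (nat_lit 191) (nat_lit 1) (.cons
 (nat_lit 475) (nat_lit 180) (nat_lit 164) (nat_lit 1) .nil)), (nat_lit 3), (nat_lit 47), (nat_lit 16),
 (nat_lit 1), (0, 20, 23), [159, 746], 48⟩]

/-- Moves. -/
noncomputable def t4_1 : List Mv := [
  mz,
  mz,
  mz,
  mz,
  ⟨⟨-53, 0, 0, 10, -47, -30, -2, 20, -47⟩, (.cons (nat_lit 95) (nat_lit 215) (nat_lit 14) (nat_lit 1) (.cons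
 (nat_lit 920) (nat_lit 392) (nat_lit 1) (nat_lit 837) .nil)), (nat_lit 5), (nat_lit 0), (nat_lit 0), (nat_lit
 0), (0, 39, 24), [348, 223], 0⟩,
  ⟨⟨51, -20, -47, 10, 47, -30, -2, -20, -47⟩, (.cons (nat_lit 9) (nat_lit 323) (nat_lit 22) (nat_lit 1) (.cons
 (nat_lit 179) (nat_lit 116) (nat_lit 31) (nat_lit 1) .nil)), (nat_lit 15), (nat_lit 0), (nat_lit 0), (nat_lit
 0), (12, 46, 12), [340, 433], 0⟩,
  ⟨⟨15, 56, -11, -28, 5, -36, 40, 8, -47⟩, (.cons (nat_lit 279) (nat_lit 228) (nat_lit 22) (nat_lit 1) (.cons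
 (nat_lit 563) (nat_lit 140) (nat_lit 418) (nat_lit 1) .nil)), (nat_lit 28), (nat_lit 0), (nat_lit 0), (nat_lit
 0), (1, 37, 38), [166, 365], 0⟩,
  mz,
  mz,
  ⟨⟨-33, -20, -32, 8, 45, -34, 24, -24, -49⟩, (.cons (nat_lit 312) (nat_lit 139) (nat_lit 72) (nat_lit 1)
 (.cons (nat_lit 152) (nat_lit 149) (nat_lit 779) (nat_lit 1) .nil)), (nat_lit 18), (nat_lit 0), (nat_lit 0),
 (nat_lit 0), (35, 14, 42), [176, 927], 0⟩,
  ⟨⟨-25, 48, -11, 28, -5, -64, -40, -8, -7⟩, (.cons (nat_lit 268) (nat_lit 88) (nat_lit 148) (nat_lit 1) (.cons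
 (nat_lit 620) (nat_lit 190) (nat_lit 795) (nat_lit 1) .nil)), (nat_lit 36), (nat_lit 0), (nat_lit 0), (nat_lit
 0), (52, 52, 9), [85, 627], 0⟩,
  ⟨⟨15, -32, 44, -50, -17, 30, 14, -44, -19⟩, (.cons (nat_lit 97) (nat_lit 164) (nat_lit 310) (nat_lit 1)
 (.cons (nat_lit 895) (nat_lit 328) (nat_lit 874) (nat_lit 1) .nil)), (nat_lit 17), (nat_lit 0), (nat_lit 0),
 (nat_lit 0), (29, 27, 20), [71, 140], 0⟩,
  ⟨⟨53, 0, -53, 10, 47, 20, 2, 20, -49⟩, (.cons (nat_lit 150) (nat_lit 175) (nat_lit 285) (nat_lit 1) (.cons (nat_lit 301) (nat_lit 465) (nat_lit 11) (nat_lit 1) .nil)), (nat_lit 4), (nat_lit 0), (nat_lit 0), (nat_lit 0), (0, 28, 48), [125, 477], 0⟩,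
  mz,
  mz,
  ⟨⟨53, 0, -53, 10, -47, 20, 2, -20, -49⟩, (.cons (nat_lit 105) (nat_lit 223) (nat_lit 154) (nat_lit 1) (.cons
 (nat_lit 89) (nat_lit 461) (nat_lit 891) (nat_lit 1) .nil)), (nat_lit 4), (nat_lit 0), (nat_lit 0), (nat_lit
 0), (0, 21, 36), [186, 603], 0⟩,
  ⟨⟨15, 52, 16, 10, 17, -60, 46, 4, -11⟩, (.cons (nat_lit 154) (nat_lit 23) (nat_lit 37) (nat_lit 1) (.cons
 (nat_lit 368) (nat_lit 96) (nat_lit 284) (nat_lit 1) .nil)), (nat_lit 44), (nat_lit 0), (nat_lit 0), (nat_lit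
 0), (24, 16, 10), [119, 325], 0⟩,
  ⟨⟨31, -48, -4, 10, 17, 50, 46, 4, -35⟩, (.cons (nat_lit 193) (nat_lit 335) (nat_lit 318) (nat_lit 1) (.cons
 (nat_lit 191) (nat_lit 642) (nat_lit 364) (nat_lit 1) .nil)), (nat_lit 43), (nat_lit 0), (nat_lit 0), (nat_lit
 0), (18, 40, 25), [290, 544], 0⟩,
  ⟨⟨-57, -4, 40, 8, -45, 26, -24, -24, -25⟩, (.cons (nat_lit 181) (nat_lit 227) (nat_lit 141) (nat_lit 1)
 (.cons (nat_lit 595) (nat_lit 366) (nat_lit 298) (nat_lit 1) .nil)), (nat_lit 21), (nat_lit 0), (nat_lit 0),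
 (nat_lit 0), (12, 29, 19), [186, 367], 0⟩,
  mz,
  mz,
  ⟨⟨-33, 20, -32, 8, -45, -34, 24, 24, -49⟩, (.cons (nat_lit 2) (nat_lit 268) (nat_lit 79) (nat_lit 1) (.cons
 (nat_lit 491) (nat_lit 1) (nat_lit 715) (nat_lit 1) .nil)), (nat_lit 18), (nat_lit 0), (nat_lit 0), (nat_lit
 0), (47, 40, 14), [22, 340], 0⟩,
  ⟨⟨45, 28, -49, 28, -45, -14, 0, 0, -53⟩, (.cons (nat_lit 342) (nat_lit 83) (nat_lit 1) (nat_lit 19) (.cons
 (nat_lit 960) (nat_lit 314) (nat_lit 876) (nat_lit 1) .nil)), (nat_lit 22), (nat_lit 0), (nat_lit 0), (nat_lit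
 0), (24, 22, 0), [294, 886], 0⟩,
  mz,
  ⟨⟨-13, 48, -27, 30, -17, -60, 30, 36, -7⟩, (.cons (nat_lit 351) (nat_lit 300) (nat_lit 127) (nat_lit 1)
 (.cons (nat_lit 319) (nat_lit 5) (nat_lit 475) (nat_lit 1) .nil)), (nat_lit 29), (nat_lit 0), (nat_lit 0),
 (nat_lit 0), (11, 48, 48), [35, 375], 0⟩,
  mz,
  ⟨⟨-25, -48, -11, 28, 5, -64, -40, 8, -7⟩, (.cons (nat_lit 49) (nat_lit 134) (nat_lit 250) (nat_lit 1) (.cons
 (nat_lit 51) (nat_lit 703) (nat_lit 117) (nat_lit 1) .nil)), (nat_lit 36), (nat_lit 0), (nat_lit 0), (nat_lit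
 0), (2, 2, 35), [32, 387], 0⟩,
  mz,
  ⟨⟨-1, -48, 37, 52, 5, -16, 8, -40, -31⟩, (.cons (nat_lit 22) (nat_lit 38) (nat_lit 238) (nat_lit 1) (.cons
 (nat_lit 862) (nat_lit 406) (nat_lit 59) (nat_lit 1) .nil)), (nat_lit 6), (nat_lit 0), (nat_lit 0), (nat_lit
 0), (29, 29, 33), [202, 523], 0⟩,
  ⟨⟨-13, 48, 40, -30, 17, -30, 30, 36, -23⟩, (.cons (nat_lit 278) (nat_lit 16) (nat_lit 331) (nat_lit 1) (.cons
 (nat_lit 324) (nat_lit 231) (nat_lit 52) (nat_lit 1) .nil)), (nat_lit 52), (nat_lit 0), (nat_lit 0), (nat_lit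
 0), (42, 48, 5), [258, 580], 0⟩,
  mz,
  ⟨⟨-45, 28, -4, -28, -45, 14, 0, 0, -53⟩, (.cons (nat_lit 248) (nat_lit 214) (nat_lit 154) (nat_lit 1) (.cons
 (nat_lit 621) (nat_lit 599) (nat_lit 259) (nat_lit 1) .nil)), (nat_lit 22), (nat_lit 0), (nat_lit 0), (nat_lit
 0), (14, 4, 0), [2, 879], 0⟩,
  mz,
  ⟨⟨-39, 28, -17, 10, -33, -50, 18, 36, -37⟩, (.cons (nat_lit 26) (nat_lit 207) (nat_lit 244) (nat_lit 1)
 (.cons (nat_lit 305) (nat_lit 200) (nat_lit 276) (nat_lit 1) .nil)), (nat_lit 50), (nat_lit 0), (nat_lit 0),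
 (nat_lit 0), (43, 8, 25), [175, 488], 0⟩,
  mz,
  mz,
  ⟨⟨-9, 8, -59, 52, -5, -36, -8, -40, -23⟩, (.cons (nat_lit 295) (nat_lit 32) (nat_lit 21) (nat_lit 1) (.cons
 (nat_lit 110) (nat_lit 242) (nat_lit 1) (nat_lit 930) .nil)), (nat_lit 10), (nat_lit 0), (nat_lit 0), (nat_lit
 0), (2, 12, 43), [235, 566], 0⟩,
  ⟨⟨-1, 48, 37, 52, -5, -16, 8, 40, -31⟩, (.cons (nat_lit 192) (nat_lit 86) (nat_lit 208) (nat_lit 1) (.cons
 (nat_lit 806) (nat_lit 568) (nat_lit 163) (nat_lit 1) .nil)), (nat_lit 6), (nat_lit 0), (nat_lit 0), (nat_lit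
 0), (26, 26, 4), [351, 348], 0⟩,
  ⟨⟨39, 28, -56, -10, -33, -40, -18, 36, -19⟩, (.cons (nat_lit 165) (nat_lit 108) (nat_lit 341) (nat_lit 1)
 (.cons (nat_lit 892) (nat_lit 194) (nat_lit 829) (nat_lit 1) .nil)), (nat_lit 50), (nat_lit 0), (nat_lit 0),
 (nat_lit 0), (34, 47, 21), [124, 479], 0⟩,
  ⟨⟨15, -56, -11, -28, -5, -36, 40, -8, -47⟩, (.cons (nat_lit 157) (nat_lit 291) (nat_lit 167) (nat_lit 1)
 (.cons (nat_lit 244) (nat_lit 741) (nat_lit 340) (nat_lit 1) .nil)), (nat_lit 28), (nat_lit 0), (nat_lit 0),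
 (nat_lit 0), (31, 34, 12), [112, 714], 0⟩,
  ⟨⟨1, 48, 36, 52, 5, -36, -8, 40, -23⟩, (.cons (nat_lit 64) (nat_lit 252) (nat_lit 162) (nat_lit 1) (.cons
 (nat_lit 552) (nat_lit 125) (nat_lit 504) (nat_lit 1) .nil)), (nat_lit 39), (nat_lit 0), (nat_lit 0), (nat_lit
 0), (38, 15, 14), [305, 901], 0⟩,
  ⟨⟨31, 48, -4, -10, 17, -50, 46, -4, -35⟩, (.cons (nat_lit 248) (nat_lit 329) (nat_lit 277) (nat_lit 1) (.cons
 (nat_lit 250) (nat_lit 564) (nat_lit 906) (nat_lit 1) .nil)), (nat_lit 11), (nat_lit 0), (nat_lit 0), (nat_lit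
 0), (15, 2, 12), [82, 415], 0⟩,
  ⟨⟨-57, 4, 40, -8, -45, -26, -24, 24, -25⟩, (.cons (nat_lit 351) (nat_lit 297) (nat_lit 227) (nat_lit 1)
 (.cons (nat_lit 638) (nat_lit 408) (nat_lit 41) (nat_lit 1) .nil)), (nat_lit 9), (nat_lit 0), (nat_lit 0),
 (nat_lit 0), (25, 50, 44), [198, 363], 0⟩,
  ⟨⟨15, 32, 44, -50, 17, 30, 14, 44, -19⟩, (.cons (nat_lit 260) (nat_lit 262) (nat_lit 350) (nat_lit 1) (.cons
 (nat_lit 800) (nat_lit 535) (nat_lit 944) (nat_lit 1) .nil)), (nat_lit 17), (nat_lit 0), (nat_lit 0), (nat_lit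
 0), (27, 16, 4), [256, 271], 0⟩,
  ⟨⟨-15, 32, 59, 50, 17, -20, -14, 44, -5⟩, (.cons (nat_lit 339) (nat_lit 222) (nat_lit 261) (nat_lit 1) (.cons
 (nat_lit 87) (nat_lit 950) (nat_lit 630) (nat_lit 1) .nil)), (nat_lit 17), (nat_lit 0), (nat_lit 0), (nat_lit
 0), (6, 33, 48), [18, 955], 0⟩,
  mz,
  ⟨⟨-13, -48, -27, -30, -17, 60, 30, -36, -7⟩, (.cons (nat_lit 198) (nat_lit 288) (nat_lit 299) (nat_lit 1)
 (.cons (nat_lit 434) (nat_lit 793) (nat_lit 532) (nat_lit 1) .nil)), (nat_lit 52), (nat_lit 0), (nat_lit 0),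
 (nat_lit 0), (14, 16, 37), [149, 864], 0⟩,
  ⟨⟨-15, -32, 59, 50, -17, -20, -14, -44, -5⟩, (.cons (nat_lit 224) (nat_lit 175) (nat_lit 96) (nat_lit 1)
 (.cons (nat_lit 114) (nat_lit 469) (nat_lit 22) (nat_lit 1) .nil)), (nat_lit 17), (nat_lit 0), (nat_lit 0),
 (nat_lit 0), (8, 44, 11), [215, 730], 0⟩,
  ⟨⟨15, -52, 16, 10, -17, -60, 46, -4, -11⟩, (.cons (nat_lit 1) (nat_lit 56) (nat_lit 105) (nat_lit 1) (.cons
 (nat_lit 357) (nat_lit 316) (nat_lit 304) (nat_lit 1) .nil)), (nat_lit 44), (nat_lit 0), (nat_lit 0), (nat_lit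
 0), (14, 27, 50), [317, 648], 0⟩,
  ⟨⟨-39, -28, -17, 10, 33, -50, 18, -36, -37⟩, (.cons (nat_lit 10) (nat_lit 291) (nat_lit 353) (nat_lit 1)
 (.cons (nat_lit 684) (nat_lit 338) (nat_lit 783) (nat_lit 1) .nil)), (nat_lit 50), (nat_lit 0), (nat_lit 0),
 (nat_lit 0), (5, 49, 14), [91, 789], 0⟩,
  ⟨⟨39, -28, -56, -10, 33, -40, -18, -36, -19⟩, (.cons (nat_lit 360) (nat_lit 175) (nat_lit 181) (nat_lit 1)
 (.cons (nat_lit 960) (nat_lit 74) (nat_lit 476) (nat_lit 1) .nil)), (nat_lit 50), (nat_lit 0), (nat_lit 0),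
 (nat_lit 0), (49, 35, 10), [178, 663], 0⟩,
  mz,
  ⟨⟨-13, -48, 40, 30, 17, 30, 30, -36, -23⟩, (.cons (nat_lit 274) (nat_lit 309) (nat_lit 278) (nat_lit 1)
 (.cons (nat_lit 175) (nat_lit 898) (nat_lit 510) (nat_lit 1) .nil)), (nat_lit 29), (nat_lit 0), (nat_lit 0),
 (nat_lit 0), (45, 47, 47), [153, 337], 0⟩]

/-- Moves. -/
noncomputable def t4_2 : List Mv := [
  mz,
  mz,
  mz,
  mz,
  ⟨⟨51, 20, -47, -10, 47, 30, -2, 20, -47⟩, (.cons (nat_lit 142) (nat_lit 59) (nat_lit 323) (nat_lit 1) (.cons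
 (nat_lit 613) (nat_lit 372) (nat_lit 945) (nat_lit 1) .nil)), (nat_lit 12), (nat_lit 0), (nat_lit 0), (nat_lit
 0), (24, 14, 24), [359, 898], 0⟩,
  ⟨⟨51, -20, -47, 10, 47, -30, -2, -20, -47⟩, (.cons (nat_lit 9) (nat_lit 323) (nat_lit 22) (nat_lit 1) (.cons
 (nat_lit 179) (nat_lit 116) (nat_lit 31) (nat_lit 1) .nil)), (nat_lit 15), (nat_lit 0), (nat_lit 0), (nat_lit
 0), (12, 46, 12), [340, 433], 0⟩,
  ⟨⟨15, 56, -11, -28, 5, -36, 40, 8, -47⟩, (.cons (nat_lit 279) (nat_lit 228) (nat_lit 22) (nat_lit 1) (.cons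
 (nat_lit 563) (nat_lit 140) (nat_lit 418) (nat_lit 1) .nil)), (nat_lit 28), (nat_lit 0), (nat_lit 0), (nat_lit
 0), (1, 37, 38), [166, 365], 0⟩,
  mz,
  mz,
  ⟨⟨57, -4, -17, 8, 45, -34, 24, -24, -49⟩, (.cons (nat_lit 360) (nat_lit 29) (nat_lit 182) (nat_lit 1) (.cons
 (nat_lit 960) (nat_lit 721) (nat_lit 843) (nat_lit 1) .nil)), (nat_lit 9), (nat_lit 0), (nat_lit 0), (nat_lit
 0), (7, 14, 42), [12, 892], 0⟩,
  ⟨⟨-25, 48, -11, 28, -5, -64, -40, -8, -7⟩, (.cons (nat_lit 268) (nat_lit 88) (nat_lit 148) (nat_lit 1) (.cons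
 (nat_lit 620) (nat_lit 190) (nat_lit 795) (nat_lit 1) .nil)), (nat_lit 36), (nat_lit 0), (nat_lit 0), (nat_lit
 0), (52, 52, 9), [85, 627], 0⟩,
  ⟨⟨15, -32, 44, 50, 17, -30, 14, -44, -19⟩, (.cons (nat_lit 115) (nat_lit 70) (nat_lit 274) (nat_lit 1) (.cons
 (nat_lit 419) (nat_lit 90) (nat_lit 942) (nat_lit 1) .nil)), (nat_lit 41), (nat_lit 0), (nat_lit 0), (nat_lit
 0), (29, 26, 20), [6, 561], 0⟩,
  ⟨⟨-51, 20, 4, -10, -47, -20, 2, 20, -49⟩, (.cons (nat_lit 57) (nat_lit 117) (nat_lit 85) (nat_lit 1) (.cons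
 (nat_lit 705) (nat_lit 546) (nat_lit 1) (nat_lit 0) .nil)), (nat_lit 15), (nat_lit 0), (nat_lit 0), (nat_lit
 0), (48, 25, 48), [253, 108], 0⟩,
  mz,
  mz,
  ⟨⟨-51, -20, 4, -10, 47, -20, 2, -20, -49⟩, (.cons (nat_lit 360) (nat_lit 161) (nat_lit 226) (nat_lit 1)
 (.cons (nat_lit 960) (nat_lit 252) (nat_lit 249) (nat_lit 1) .nil)), (nat_lit 15), (nat_lit 0), (nat_lit 0),
 (nat_lit 0), (36, 32, 36), [312, 324], 0⟩,
  ⟨⟨31, -48, -27, -10, -17, 60, 46, 4, -11⟩, (.cons (nat_lit 111) (nat_lit 231) (nat_lit 48) (nat_lit 1) (.cons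
 (nat_lit 490) (nat_lit 408) (nat_lit 784) (nat_lit 1) .nil)), (nat_lit 11), (nat_lit 0), (nat_lit 0), (nat_lit
 0), (39, 37, 10), [210, 192], 0⟩,
  ⟨⟨31, -48, -4, -10, -17, -50, 46, 4, -35⟩, (.cons (nat_lit 67) (nat_lit 203) (nat_lit 168) (nat_lit 1) (.cons
 (nat_lit 364) (nat_lit 733) (nat_lit 916) (nat_lit 1) .nil)), (nat_lit 11), (nat_lit 0), (nat_lit 0), (nat_lit
 0), (18, 13, 25), [317, 218], 0⟩,
  ⟨⟨-57, -4, 40, -8, 45, -26, -24, -24, -25⟩, (.cons (nat_lit 221) (nat_lit 327) (nat_lit 333) (nat_lit 1)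
 (.cons (nat_lit 196) (nat_lit 587) (nat_lit 115) (nat_lit 1) .nil)), (nat_lit 9), (nat_lit 0), (nat_lit 0),
 (nat_lit 0), (12, 24, 19), [245, 816], 0⟩,
  mz,
  mz,
  ⟨⟨-33, 20, -32, 8, -45, -34, 24, 24, -49⟩, (.cons (nat_lit 2) (nat_lit 268) (nat_lit 79) (nat_lit 1) (.cons
 (nat_lit 491) (nat_lit 1) (nat_lit 715) (nat_lit 1) .nil)), (nat_lit 18), (nat_lit 0), (nat_lit 0), (nat_lit
 0), (47, 40, 14), [22, 340], 0⟩,
  ⟨⟨-45, -28, -4, 28, -45, -14, 0, 0, -53⟩, (.cons (nat_lit 115) (nat_lit 299) (nat_lit 340) (nat_lit 1) (.cons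
 (nat_lit 342) (nat_lit 796) (nat_lit 795) (nat_lit 1) .nil)), (nat_lit 31), (nat_lit 0), (nat_lit 0), (nat_lit
 0), (29, 22, 0), [97, 693], 0⟩,
  mz,
  ⟨⟨-13, 48, -27, -30, 17, 60, 30, 36, -7⟩, (.cons (nat_lit 187) (nat_lit 49) (nat_lit 324) (nat_lit 1) (.cons
 (nat_lit 288) (nat_lit 910) (nat_lit 738) (nat_lit 1) .nil)), (nat_lit 52), (nat_lit 0), (nat_lit 0), (nat_lit
 0), (11, 5, 48), [227, 627], 0⟩,
  mz,
  ⟨⟨-15, 56, 4, -28, -5, 64, -40, 8, -7⟩, (.cons (nat_lit 17) (nat_lit 297) (nat_lit 163) (nat_lit 1) (.cons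
 (nat_lit 894) (nat_lit 727) (nat_lit 773) (nat_lit 1) .nil)), (nat_lit 37), (nat_lit 0), (nat_lit 0), (nat_lit
 0), (33, 51, 35), [338, 858], 0⟩,
  mz,
  ⟨⟨-1, -48, 37, 52, 5, -16, 8, -40, -31⟩, (.cons (nat_lit 22) (nat_lit 38) (nat_lit 238) (nat_lit 1) (.cons
 (nat_lit 862) (nat_lit 406) (nat_lit 59) (nat_lit 1) .nil)), (nat_lit 6), (nat_lit 0), (nat_lit 0), (nat_lit
 0), (29, 29, 33), [202, 523], 0⟩,
  ⟨⟨43, -12, -63, -30, 17, -30, 30, 36, -23⟩, (.cons (nat_lit 36) (nat_lit 30) (nat_lit 121) (nat_lit 1) (.cons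
 (nat_lit 720) (nat_lit 244) (nat_lit 116) (nat_lit 1) .nil)), (nat_lit 24), (nat_lit 0), (nat_lit 0), (nat_lit
 0), (16, 48, 5), [126, 690], 0⟩,
  mz,
  ⟨⟨45, -28, -49, 28, 45, -14, 0, 0, -53⟩, (.cons (nat_lit 134) (nat_lit 238) (nat_lit 232) (nat_lit 1) (.cons
 (nat_lit 94) (nat_lit 916) (nat_lit 741) (nat_lit 1) .nil)), (nat_lit 22), (nat_lit 0), (nat_lit 0), (nat_lit
 0), (39, 49, 0), [300, 778], 0⟩,
  mz,
  ⟨⟨-39, 28, -17, 10, -33, -50, 18, 36, -37⟩, (.cons (nat_lit 26) (nat_lit 207) (nat_lit 244) (nat_lit 1)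
 (.cons (nat_lit 305) (nat_lit 200) (nat_lit 276) (nat_lit 1) .nil)), (nat_lit 50), (nat_lit 0), (nat_lit 0),
 (nat_lit 0), (43, 8, 25), [175, 488], 0⟩,
  mz,
  mz,
  ⟨⟨-9, 8, -59, 52, -5, -36, -8, -40, -23⟩, (.cons (nat_lit 295) (nat_lit 32) (nat_lit 21) (nat_lit 1) (.cons
 (nat_lit 110) (nat_lit 242) (nat_lit 1) (nat_lit 930) .nil)), (nat_lit 10), (nat_lit 0), (nat_lit 0), (nat_lit
 0), (2, 12, 43), [235, 566], 0⟩,
  ⟨⟨9, -8, -68, 52, -5, -16, 8, 40, -31⟩, (.cons (nat_lit 85) (nat_lit 25) (nat_lit 224) (nat_lit 1) (.cons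
 (nat_lit 502) (nat_lit 226) (nat_lit 198) (nat_lit 1) .nil)), (nat_lit 26), (nat_lit 0), (nat_lit 0), (nat_lit
 0), (31, 26, 4), [246, 198], 0⟩,
  ⟨⟨39, 28, -56, -10, -33, -40, -18, 36, -19⟩, (.cons (nat_lit 165) (nat_lit 108) (nat_lit 341) (nat_lit 1)
 (.cons (nat_lit 892) (nat_lit 194) (nat_lit 829) (nat_lit 1) .nil)), (nat_lit 50), (nat_lit 0), (nat_lit 0),
 (nat_lit 0), (34, 47, 21), [124, 479], 0⟩,
  ⟨⟨15, -56, -11, -28, -5, -36, 40, -8, -47⟩, (.cons (nat_lit 157) (nat_lit 291) (nat_lit 167) (nat_lit 1)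
 (.cons (nat_lit 244) (nat_lit 741) (nat_lit 340) (nat_lit 1) .nil)), (nat_lit 28), (nat_lit 0), (nat_lit 0),
 (nat_lit 0), (31, 34, 12), [112, 714], 0⟩,
  ⟨⟨-9, -8, -59, 52, 5, -36, -8, 40, -23⟩, (.cons (nat_lit 32) (nat_lit 173) (nat_lit 190) (nat_lit 1) (.cons
 (nat_lit 904) (nat_lit 643) (nat_lit 156) (nat_lit 1) .nil)), (nat_lit 10), (nat_lit 0), (nat_lit 0), (nat_lit
 0), (29, 15, 14), [33, 210], 0⟩,
  ⟨⟨31, 48, -4, -10, 17, -50, 46, -4, -35⟩, (.cons (nat_lit 248) (nat_lit 329) (nat_lit 277) (nat_lit 1) (.cons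
 (nat_lit 250) (nat_lit 564) (nat_lit 906) (nat_lit 1) .nil)), (nat_lit 11), (nat_lit 0), (nat_lit 0), (nat_lit
 0), (15, 2, 12), [82, 415], 0⟩,
  ⟨⟨-57, 4, 40, -8, -45, -26, -24, 24, -25⟩, (.cons (nat_lit 351) (nat_lit 297) (nat_lit 227) (nat_lit 1)
 (.cons (nat_lit 638) (nat_lit 408) (nat_lit 41) (nat_lit 1) .nil)), (nat_lit 9), (nat_lit 0), (nat_lit 0),
 (nat_lit 0), (25, 50, 44), [198, 363], 0⟩,
  ⟨⟨15, 32, 44, -50, 17, 30, 14, 44, -19⟩, (.cons (nat_lit 260) (nat_lit 262) (nat_lit 350) (nat_lit 1) (.cons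
 (nat_lit 800) (nat_lit 535) (nat_lit 944) (nat_lit 1) .nil)), (nat_lit 17), (nat_lit 0), (nat_lit 0), (nat_lit
 0), (27, 16, 4), [256, 271], 0⟩,
  ⟨⟨-15, 32, 59, 50, 17, -20, -14, 44, -5⟩, (.cons (nat_lit 339) (nat_lit 222) (nat_lit 261) (nat_lit 1) (.cons
 (nat_lit 87) (nat_lit 950) (nat_lit 630) (nat_lit 1) .nil)), (nat_lit 17), (nat_lit 0), (nat_lit 0), (nat_lit
 0), (6, 33, 48), [18, 955], 0⟩,
  mz,
  ⟨⟨-13, -48, -27, 30, 17, -60, 30, -36, -7⟩, (.cons (nat_lit 168) (nat_lit 311) (nat_lit 349) (nat_lit 1)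
 (.cons (nat_lit 753) (nat_lit 183) (nat_lit 704) (nat_lit 1) .nil)), (nat_lit 29), (nat_lit 0), (nat_lit 0),
 (nat_lit 0), (14, 37, 37), [208, 317], 0⟩,
  ⟨⟨1, -12, -64, 50, -17, -20, -14, -44, -5⟩, (.cons (nat_lit 98) (nat_lit 7) (nat_lit 359) (nat_lit 1) (.cons
 (nat_lit 184) (nat_lit 114) (nat_lit 610) (nat_lit 1) .nil)), (nat_lit 48), (nat_lit 0), (nat_lit 0), (nat_lit
 0), (3, 44, 11), [160, 918], 0⟩,
  ⟨⟨15, -52, 16, -10, 17, 60, 46, -4, -11⟩, (.cons (nat_lit 70) (nat_lit 232) (nat_lit 140) (nat_lit 1) (.cons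
 (nat_lit 914) (nat_lit 553) (nat_lit 801) (nat_lit 1) .nil)), (nat_lit 47), (nat_lit 0), (nat_lit 0), (nat_lit
 0), (14, 26, 50), [92, 809], 0⟩,
  ⟨⟨-39, -28, -17, -10, -33, 50, 18, -36, -37⟩, (.cons (nat_lit 90) (nat_lit 176) (nat_lit 226) (nat_lit 1)
 (.cons (nat_lit 406) (nat_lit 607) (nat_lit 67) (nat_lit 1) .nil)), (nat_lit 38), (nat_lit 0), (nat_lit 0),
 (nat_lit 0), (5, 4, 14), [172, 519], 0⟩,
  ⟨⟨39, -28, -56, -10, 33, -40, -18, -36, -19⟩, (.cons (nat_lit 360) (nat_lit 175) (nat_lit 181) (nat_lit 1)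
 (.cons (nat_lit 960) (nat_lit 74) (nat_lit 476) (nat_lit 1) .nil)), (nat_lit 50), (nat_lit 0), (nat_lit 0),
 (nat_lit 0), (49, 35, 10), [178, 663], 0⟩,
  mz,
  ⟨⟨43, 12, -63, 30, 17, 30, 30, -36, -23⟩, (.cons (nat_lit 31) (nat_lit 97) (nat_lit 117) (nat_lit 1) (.cons
 (nat_lit 905) (nat_lit 202) (nat_lit 1) (nat_lit 682) .nil)), (nat_lit 46), (nat_lit 0), (nat_lit 0), (nat_lit
 0), (2, 47, 47), [128, 516], 0⟩]

/-- Moves. -/
noncomputable def t4_8 : List Mv := [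
  mz,
  mz,
  mz,
  mz,
  ⟨⟨51, 20, -47, 10, -47, -30, -2, 20, -47⟩, (.cons (nat_lit 306) (nat_lit 352) (nat_lit 167) (nat_lit 1)
 (.cons (nat_lit 54) (nat_lit 92) (nat_lit 897) (nat_lit 1) .nil)), (nat_lit 15), (nat_lit 0), (nat_lit 0),
 (nat_lit 0), (24, 39, 24), [212, 679], 0⟩,
  ⟨⟨-53, 0, 0, -10, -47, 30, -2, -20, -47⟩, (.cons (nat_lit 232) (nat_lit 299) (nat_lit 1) (nat_lit 19) (.cons (nat_lit 589) (nat_lit 33) (nat_lit 586) (nat_lit 1) .nil)), (nat_lit 4), (nat_lit 0), (nat_lit 0), (nat_lit 0), (0, 7, 12), [267, 23], 0⟩,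
  ⟨⟨25, -48, -36, 28, -5, 36, 40, 8, -47⟩, (.cons (nat_lit 146) (nat_lit 131) (nat_lit 1) (nat_lit 228) (.cons
 (nat_lit 822) (nat_lit 557) (nat_lit 413) (nat_lit 1) .nil)), (nat_lit 40), (nat_lit 0), (nat_lit 0), (nat_lit
 0), (37, 16, 38), [27, 606], 0⟩,
  mz,
  mz,
  ⟨⟨-33, -20, -32, -8, -45, 34, 24, -24, -49⟩, (.cons (nat_lit 36) (nat_lit 138) (nat_lit 131) (nat_lit 1)
 (.cons (nat_lit 360) (nat_lit 153) (nat_lit 616) (nat_lit 1) .nil)), (nat_lit 42), (nat_lit 0), (nat_lit 0),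
 (nat_lit 0), (35, 39, 42), [298, 6], 0⟩,
  ⟨⟨-25, 48, -11, 28, -5, -64, -40, -8, -7⟩, (.cons (nat_lit 268) (nat_lit 88) (nat_lit 148) (nat_lit 1) (.cons
 (nat_lit 620) (nat_lit 190) (nat_lit 795) (nat_lit 1) .nil)), (nat_lit 36), (nat_lit 0), (nat_lit 0), (nat_lit
 0), (52, 52, 9), [85, 627], 0⟩,
  ⟨⟨-1, -12, -63, 50, 17, -30, 14, -44, -19⟩, (.cons (nat_lit 348) (nat_lit 115) (nat_lit 263) (nat_lit 1)
 (.cons (nat_lit 253) (nat_lit 564) (nat_lit 575) (nat_lit 1) .nil)), (nat_lit 16), (nat_lit 0), (nat_lit 0),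
 (nat_lit 0), (44, 26, 20), [249, 501], 0⟩,
  ⟨⟨-51, 20, 4, -10, -47, -20, 2, 20, -49⟩, (.cons (nat_lit 57) (nat_lit 117) (nat_lit 85) (nat_lit 1) (.cons
 (nat_lit 705) (nat_lit 546) (nat_lit 1) (nat_lit 0) .nil)), (nat_lit 15), (nat_lit 0), (nat_lit 0), (nat_lit
 0), (48, 25, 48), [253, 108], 0⟩,
  mz,
  mz,
  ⟨⟨53, 0, -53, -10, 47, -20, 2, -20, -49⟩, (.cons (nat_lit 321) (nat_lit 285) (nat_lit 158) (nat_lit 1) (.cons
 (nat_lit 859) (nat_lit 300) (nat_lit 279) (nat_lit 1) .nil)), (nat_lit 5), (nat_lit 0), (nat_lit 0), (nat_lit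
 0), (0, 32, 36), [334, 725], 0⟩,
  ⟨⟨15, 52, 16, 10, 17, -60, 46, 4, -11⟩, (.cons (nat_lit 154) (nat_lit 23) (nat_lit 37) (nat_lit 1) (.cons
 (nat_lit 368) (nat_lit 96) (nat_lit 284) (nat_lit 1) .nil)), (nat_lit 44), (nat_lit 0), (nat_lit 0), (nat_lit
 0), (24, 16, 10), [119, 325], 0⟩,
  ⟨⟨31, -48, -4, 10, 17, 50, 46, 4, -35⟩, (.cons (nat_lit 193) (nat_lit 335) (nat_lit 318) (nat_lit 1) (.cons
 (nat_lit 191) (nat_lit 642) (nat_lit 364) (nat_lit 1) .nil)), (nat_lit 43), (nat_lit 0), (nat_lit 0), (nat_lit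
 0), (18, 40, 25), [290, 544], 0⟩,
  ⟨⟨-57, -4, 40, -8, 45, -26, -24, -24, -25⟩, (.cons (nat_lit 221) (nat_lit 327) (nat_lit 333) (nat_lit 1)
 (.cons (nat_lit 196) (nat_lit 587) (nat_lit 115) (nat_lit 1) .nil)), (nat_lit 9), (nat_lit 0), (nat_lit 0),
 (nat_lit 0), (12, 24, 19), [245, 816], 0⟩,
  mz,
  mz,
  ⟨⟨-33, 20, -32, 8, -45, -34, 24, 24, -49⟩, (.cons (nat_lit 2) (nat_lit 268) (nat_lit 79) (nat_lit 1) (.cons
 (nat_lit 491) (nat_lit 1) (nat_lit 715) (nat_lit 1) .nil)), (nat_lit 18), (nat_lit 0), (nat_lit 0), (nat_lit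
 0), (47, 40, 14), [22, 340], 0⟩,
  ⟨⟨45, 28, -49, 28, -45, -14, 0, 0, -53⟩, (.cons (nat_lit 342) (nat_lit 83) (nat_lit 1) (nat_lit 19) (.cons
 (nat_lit 960) (nat_lit 314) (nat_lit 876) (nat_lit 1) .nil)), (nat_lit 22), (nat_lit 0), (nat_lit 0), (nat_lit
 0), (24, 22, 0), [294, 886], 0⟩,
  mz,
  ⟨⟨-13, 48, -27, 30, -17, -60, 30, 36, -7⟩, (.cons (nat_lit 351) (nat_lit 300) (nat_lit 127) (nat_lit 1)
 (.cons (nat_lit 319) (nat_lit 5) (nat_lit 475) (nat_lit 1) .nil)), (nat_lit 29), (nat_lit 0), (nat_lit 0),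
 (nat_lit 0), (11, 48, 48), [35, 375], 0⟩,
  mz,
  ⟨⟨-25, -48, -11, 28, 5, -64, -40, 8, -7⟩, (.cons (nat_lit 49) (nat_lit 134) (nat_lit 250) (nat_lit 1) (.cons
 (nat_lit 51) (nat_lit 703) (nat_lit 117) (nat_lit 1) .nil)), (nat_lit 36), (nat_lit 0), (nat_lit 0), (nat_lit
 0), (2, 2, 35), [32, 387], 0⟩,
  mz,
  ⟨⟨-1, -48, 37, 52, 5, -16, 8, -40, -31⟩, (.cons (nat_lit 22) (nat_lit 38) (nat_lit 238) (nat_lit 1) (.cons
 (nat_lit 862) (nat_lit 406) (nat_lit 59) (nat_lit 1) .nil)), (nat_lit 6), (nat_lit 0), (nat_lit 0), (nat_lit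
 0), (29, 29, 33), [202, 523], 0⟩,
  ⟨⟨43, -12, -63, -30, 17, -30, 30, 36, -23⟩, (.cons (nat_lit 36) (nat_lit 30) (nat_lit 121) (nat_lit 1) (.cons
 (nat_lit 720) (nat_lit 244) (nat_lit 116) (nat_lit 1) .nil)), (nat_lit 24), (nat_lit 0), (nat_lit 0), (nat_lit
 0), (16, 48, 5), [126, 690], 0⟩,
  mz,
  ⟨⟨45, -28, -49, 28, 45, -14, 0, 0, -53⟩, (.cons (nat_lit 134) (nat_lit 238) (nat_lit 232) (nat_lit 1) (.cons
 (nat_lit 94) (nat_lit 916) (nat_lit 741) (nat_lit 1) .nil)), (nat_lit 22), (nat_lit 0), (nat_lit 0), (nat_lit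
 0), (39, 49, 0), [300, 778], 0⟩,
  mz,
  ⟨⟨57, 8, -20, 10, -33, -50, 18, 36, -37⟩, (.cons (nat_lit 108) (nat_lit 335) (nat_lit 333) (nat_lit 1) (.cons
 (nat_lit 241) (nat_lit 430) (nat_lit 822) (nat_lit 1) .nil)), (nat_lit 49), (nat_lit 0), (nat_lit 0), (nat_lit
 0), (35, 8, 25), [352, 634], 0⟩,
  mz,
  mz,
  ⟨⟨-9, 8, -59, 52, -5, -36, -8, -40, -23⟩, (.cons (nat_lit 295) (nat_lit 32) (nat_lit 21) (nat_lit 1) (.cons
 (nat_lit 110) (nat_lit 242) (nat_lit 1) (nat_lit 930) .nil)), (nat_lit 10), (nat_lit 0), (nat_lit 0), (nat_lit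
 0), (2, 12, 43), [235, 566], 0⟩,
  ⟨⟨-1, 48, 37, 52, -5, -16, 8, 40, -31⟩, (.cons (nat_lit 192) (nat_lit 86) (nat_lit 208) (nat_lit 1) (.cons
 (nat_lit 806) (nat_lit 568) (nat_lit 163) (nat_lit 1) .nil)), (nat_lit 6), (nat_lit 0), (nat_lit 0), (nat_lit
 0), (26, 26, 4), [351, 348], 0⟩,
  ⟨⟨-57, 8, 37, -10, -33, -40, -18, 36, -19⟩, (.cons (nat_lit 357) (nat_lit 343) (nat_lit 182) (nat_lit 1)
 (.cons (nat_lit 703) (nat_lit 924) (nat_lit 949) (nat_lit 1) .nil)), (nat_lit 49), (nat_lit 0), (nat_lit 0),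
 (nat_lit 0), (40, 47, 21), [225, 688], 0⟩,
  ⟨⟨25, 48, -36, 28, 5, 36, 40, -8, -47⟩, (.cons (nat_lit 220) (nat_lit 154) (nat_lit 99) (nat_lit 1) (.cons
 (nat_lit 625) (nat_lit 677) (nat_lit 208) (nat_lit 1) .nil)), (nat_lit 40), (nat_lit 0), (nat_lit 0), (nat_lit
 0), (34, 19, 12), [349, 329], 0⟩,
  ⟨⟨1, 48, 36, -52, -5, 36, -8, 40, -23⟩, (.cons (nat_lit 323) (nat_lit 234) (nat_lit 225) (nat_lit 1) (.cons
 (nat_lit 560) (nat_lit 405) (nat_lit 321) (nat_lit 1) .nil)), (nat_lit 6), (nat_lit 0), (nat_lit 0), (nat_lit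
 0), (38, 38, 14), [129, 6], 0⟩,
  ⟨⟨31, 48, -4, -10, 17, -50, 46, -4, -35⟩, (.cons (nat_lit 248) (nat_lit 329) (nat_lit 277) (nat_lit 1) (.cons
 (nat_lit 250) (nat_lit 564) (nat_lit 906) (nat_lit 1) .nil)), (nat_lit 11), (nat_lit 0), (nat_lit 0), (nat_lit
 0), (15, 2, 12), [82, 415], 0⟩,
  ⟨⟨-57, 4, 40, -8, -45, -26, -24, 24, -25⟩, (.cons (nat_lit 351) (nat_lit 297) (nat_lit 227) (nat_lit 1)
 (.cons (nat_lit 638) (nat_lit 408) (nat_lit 41) (nat_lit 1) .nil)), (nat_lit 9), (nat_lit 0), (nat_lit 0),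
 (nat_lit 0), (25, 50, 44), [198, 363], 0⟩,
  ⟨⟨15, 32, 44, 50, -17, -30, 14, 44, -19⟩, (.cons (nat_lit 108) (nat_lit 182) (nat_lit 348) (nat_lit 1) (.cons
 (nat_lit 232) (nat_lit 602) (nat_lit 145) (nat_lit 1) .nil)), (nat_lit 41), (nat_lit 0), (nat_lit 0), (nat_lit
 0), (27, 37, 4), [79, 648], 0⟩,
  ⟨⟨1, 12, -64, -50, -17, 20, -14, 44, -5⟩, (.cons (nat_lit 143) (nat_lit 321) (nat_lit 124) (nat_lit 1) (.cons
 (nat_lit 457) (nat_lit 334) (nat_lit 908) (nat_lit 1) .nil)), (nat_lit 16), (nat_lit 0), (nat_lit 0), (nat_lit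
 0), (42, 20, 48), [70, 466], 0⟩,
  mz,
  ⟨⟨-13, -48, -27, 30, 17, -60, 30, -36, -7⟩, (.cons (nat_lit 168) (nat_lit 311) (nat_lit 349) (nat_lit 1)
 (.cons (nat_lit 753) (nat_lit 183) (nat_lit 704) (nat_lit 1) .nil)), (nat_lit 29), (nat_lit 0), (nat_lit 0),
 (nat_lit 0), (14, 37, 37), [208, 317], 0⟩,
  ⟨⟨-15, -32, 59, 50, -17, -20, -14, -44, -5⟩, (.cons (nat_lit 224) (nat_lit 175) (nat_lit 96) (nat_lit 1)
 (.cons (nat_lit 114) (nat_lit 469) (nat_lit 22) (nat_lit 1) .nil)), (nat_lit 17), (nat_lit 0), (nat_lit 0),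
 (nat_lit 0), (8, 44, 11), [215, 730], 0⟩,
  ⟨⟨15, -52, 16, 10, -17, -60, 46, -4, -11⟩, (.cons (nat_lit 1) (nat_lit 56) (nat_lit 105) (nat_lit 1) (.cons
 (nat_lit 357) (nat_lit 316) (nat_lit 304) (nat_lit 1) .nil)), (nat_lit 44), (nat_lit 0), (nat_lit 0), (nat_lit
 0), (14, 27, 50), [317, 648], 0⟩,
  ⟨⟨57, -8, -20, -10, -33, 50, 18, -36, -37⟩, (.cons (nat_lit 117) (nat_lit 154) (nat_lit 27) (nat_lit 1)
 (.cons (nat_lit 642) (nat_lit 708) (nat_lit 826) (nat_lit 1) .nil)), (nat_lit 33), (nat_lit 0), (nat_lit 0),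
 (nat_lit 0), (9, 4, 14), [261, 700], 0⟩,
  ⟨⟨39, -28, -56, -10, 33, -40, -18, -36, -19⟩, (.cons (nat_lit 360) (nat_lit 175) (nat_lit 181) (nat_lit 1)
 (.cons (nat_lit 960) (nat_lit 74) (nat_lit 476) (nat_lit 1) .nil)), (nat_lit 50), (nat_lit 0), (nat_lit 0),
 (nat_lit 0), (49, 35, 10), [178, 663], 0⟩,
  mz,
  ⟨⟨43, 12, -63, -30, -17, -30, 30, -36, -23⟩, (.cons (nat_lit 139) (nat_lit 48) (nat_lit 89) (nat_lit 1)
 (.cons (nat_lit 317) (nat_lit 791) (nat_lit 538) (nat_lit 1) .nil)), (nat_lit 24), (nat_lit 0), (nat_lit 0),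
 (nat_lit 0), (2, 6, 47), [283, 401], 0⟩]

/-- All the moves. -/
noncomputable def tabs : List (List (List Mv)) := [[[], t0_1, t0_2, [], [], [], [], [], t0_8], [[], t1_1, t1_2, [], [], [], [], [], t1_8], [], [], [[], t4_1, t4_2, [], [], [], [], [], t4_8]]

/-- Subtrie. -/
noncomputable def T1 : Tr := (.ev (nat_lit 20) (nat_lit 1010391144529952) (.nd (nat_lit 33) (.br (nat_lit 20)
 (.br (nat_lit 13) (.br (nat_lit 4) (.br (nat_lit 2) (.ch (nat_lit 1) (.ev (nat_lit 52) (nat_lit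
 70369015141456) (.ev (nat_lit 148) (nat_lit 4503599627370496) (.ev (nat_lit 468) (nat_lit 512) (.ev (nat_lit
 704) (nat_lit 1135798195849216) .dd))))) (.ch (nat_lit 2) (.ev (nat_lit 52) (nat_lit 1099511665232) (.ev
 (nat_lit 148) (nat_lit 262144) (.ev (nat_lit 180) (nat_lit 1024) (.ev (nat_lit 404) (nat_lit 536870912) (.ev
 (nat_lit 564) (nat_lit 2097152) (.ev (nat_lit 788) (nat_lit 70368744179712) (.ev (nat_lit 1476) (nat_lit
 2147483648) (.ev (nat_lit 1524) (nat_lit 4503599627370496) (.ev (nat_lit 1572) (nat_lit 1125899906842624) (.ev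
 (nat_lit 1824) (nat_lit 268435456) (.nd (nat_lit 1840) (.ch (nat_lit 7) (.fin (nat_lit
 576464600593547839)))))))))))))))) (.br (nat_lit 6) (.ch (nat_lit 4) (.ev (nat_lit 52) (nat_lit
 5629500339686400) (.ev (nat_lit 116) (nat_lit 4096) (.ev (nat_lit 180) (nat_lit 512) (.ev (nat_lit 244)
 (nat_lit 2097152) (.ev (nat_lit 340) (nat_lit 70368744177664) (.ev (nat_lit 372) (nat_lit 80) (.ev (nat_lit
 660) (nat_lit 262144) (.ev (nat_lit 916) (nat_lit 8796093022208) (.ev (nat_lit 998) (nat_lit 1099511627776)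
 (.ev (nat_lit 1005) (nat_lit 2147483648) .dd))))))))))) (.br (nat_lit 8) (.ch (nat_lit 6) (.ev (nat_lit 52)
 (nat_lit 71468792941568) (.ev (nat_lit 148) (nat_lit 2097152) (.ev (nat_lit 256) (nat_lit 5638298043322960)
 .dd)))) (.ch (nat_lit 8) (.ev (nat_lit 52) (nat_lit 1127002105349632) (.ev (nat_lit 308) (nat_lit 2048) (.ev
 (nat_lit 576) (nat_lit 4582764733010000) .dd))))))) (.br (nat_lit 15) (.br (nat_lit 14) (.ch (nat_lit 13) (.ev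
 (nat_lit 52) (nat_lit 5629501684061760) (.ev (nat_lit 116) (nat_lit 268435456) (.ev (nat_lit 212) (nat_lit
 70368744177664) (.ev (nat_lit 820) (nat_lit 2048) (.ev (nat_lit 1360) (nat_lit 1099511660560) (.ev (nat_lit
 1668) (nat_lit 536870912) (.nd (nat_lit 1840) (.ch (nat_lit 7) (.fin (nat_lit 576464600593547839)))))))))))
 (.ch (nat_lit 14) (.ev (nat_lit 52) (nat_lit 5639398091919360) (.ev (nat_lit 404) (nat_lit 2228224) (.ev
 (nat_lit 608) (nat_lit 70368744214096) .dd))))) (.br (nat_lit 18) (.ch (nat_lit 15) (.ev (nat_lit 52) (nat_lit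
 5630599048369232) (.ev (nat_lit 84) (nat_lit 512) (.ev (nat_lit 148) (nat_lit 8796093022208) (.ev (nat_lit
 1040) (nat_lit 70369012615168) (.ev (nat_lit 1524) (nat_lit 536870912) (.ev (nat_lit 1533) (nat_lit
 2147483648) .dd))))))) (.br (nat_lit 19) (.ch (nat_lit 18) (.ev (nat_lit 52) (nat_lit 4512396527934016) (.ev
 (nat_lit 84) (nat_lit 1099511627776) (.ev (nat_lit 436) (nat_lit 16) (.ev (nat_lit 736) (nat_lit
 1196270798799872) .dd))))) (.ch (nat_lit 19) (.ev (nat_lit 52) (nat_lit 1100048533584) (.ev (nat_lit 212)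
 (nat_lit 4096) (.ev (nat_lit 276) (nat_lit 131072) (.ev (nat_lit 384) (nat_lit 5708666789692928) .dd)))))))))
 (.br (nat_lit 25) (.br (nat_lit 22) (.br (nat_lit 21) (.ch (nat_lit 20) (.ev (nat_lit 52) (nat_lit
 70368744314880) (.ev (nat_lit 276) (nat_lit 8796629893120) (.ev (nat_lit 340) (nat_lit 2415919104) (.ev
 (nat_lit 436) (nat_lit 1024) (.ev (nat_lit 564) (nat_lit 262144) (.ev (nat_lit 692) (nat_lit 1099511627776)
 (.ev (nat_lit 756) (nat_lit 2097152) (.ev (nat_lit 820) (nat_lit 1125899906842624) (.ev (nat_lit 1220)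
 (nat_lit 33280) (.ev (nat_lit 1444) (nat_lit 64) (.ev (nat_lit 1636) (nat_lit 16) (.ev (nat_lit 1645) (nat_lit
 4503599627370496) .dd))))))))))))) (.ch (nat_lit 21) (.ev (nat_lit 52) (nat_lit 80266766845952) (.ev (nat_lit
 180) (nat_lit 16) (.ev (nat_lit 244) (nat_lit 262144) (.ev (nat_lit 500) (nat_lit 1024) (.ev (nat_lit 564)
 (nat_lit 537001984) (.ev (nat_lit 724) (nat_lit 4503599627370496) (.ev (nat_lit 864) (nat_lit
 1125899906880064) .dd))))))))) (.br (nat_lit 23) (.ch (nat_lit 22) (.ev (nat_lit 52) (nat_lit 8796361622544)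
 (.ev (nat_lit 224) (nat_lit 5700970476739136) .dd))) (.br (nat_lit 24) (.ch (nat_lit 23) (.ev (nat_lit 52)
 (nat_lit 805344784) (.ev (nat_lit 84) (nat_lit 64) (.ev (nat_lit 116) (nat_lit 1125899906844672) (.ev (nat_lit
 544) (nat_lit 4583866126172160) .dd))))) (.ch (nat_lit 24) (.ev (nat_lit 52) (nat_lit 4512395720396800) (.ev
 (nat_lit 84) (nat_lit 32768) (.ev (nat_lit 128) (nat_lit 1197371117932112) .dd))))))) (.br (nat_lit 27) (.br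
 (nat_lit 26) (.ch (nat_lit 25) (.ev (nat_lit 52) (nat_lit 70370894155328) (.ev (nat_lit 180) (nat_lit
 1099511627776) (.ev (nat_lit 212) (nat_lit 268435456) (.ev (nat_lit 244) (nat_lit 4503599627370496) (.ev
 (nat_lit 308) (nat_lit 4096) (.ev (nat_lit 564) (nat_lit 8796093022208) (.ev (nat_lit 596) (nat_lit 536870912)
 (.ev (nat_lit 852) (nat_lit 32768) (.ev (nat_lit 1238) (nat_lit 16) (.ev (nat_lit 1245) (nat_lit
 1125899906842624) .dd))))))))))) (.ch (nat_lit 26) (.ev (nat_lit 52) (nat_lit 4583863976591376) (.ev (nat_lit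
 84) (nat_lit 1024) (.ev (nat_lit 212) (nat_lit 2147483648) (.ev (nat_lit 244) (nat_lit 536870912) (.ev
 (nat_lit 500) (nat_lit 32768) (.ev (nat_lit 640) (nat_lit 1125900177381952) .dd)))))))) (.br (nat_lit 28) (.ch
 (nat_lit 27) (.ev (nat_lit 52) (nat_lit 1206164255672912) (.ev (nat_lit 404) (nat_lit 262144) (.ev (nat_lit
 532) (nat_lit 2147483648) (.ev (nat_lit 692) (nat_lit 32768) (.ev (nat_lit 724) (nat_lit 131072) (.ev (nat_lit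
 916) (nat_lit 2097152) (.ev (nat_lit 1476) (nat_lit 268435456) (.ev (nat_lit 1504) (nat_lit 4503600164242432)
 (.ev (nat_lit 1517) (nat_lit 4096) .dd)))))))))) (.br (nat_lit 29) (.ch (nat_lit 28) (.ev (nat_lit 52)
 (nat_lit 5708665178851840) (.ev (nat_lit 116) (nat_lit 2147483648) (.ev (nat_lit 180) (nat_lit 64) (.ev
 (nat_lit 500) (nat_lit 1099511627776) (.ev (nat_lit 896) (nat_lit 398352) .dd)))))) (.ch (nat_lit 29) (.ev
 (nat_lit 52) (nat_lit 8798511301200) (.ev (nat_lit 212) (nat_lit 1125899906842624) (.ev (nat_lit 340) (nat_lit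
 2048) (.ev (nat_lit 372) (nat_lit 1099511627776) (.ev (nat_lit 596) (nat_lit 131072) (.ev (nat_lit 820)
 (nat_lit 70368744177664) (.ev (nat_lit 1280) (nat_lit 37888) (.ev (nat_lit 1652) (nat_lit 536870912) (.ev
 (nat_lit 1661) (nat_lit 4503599627370496) .dd)))))))))))))))))

/-- Subtrie. -/
noncomputable def T2 : Tr := (.ev (nat_lit 20) (nat_lit 89965340169216) (.nd (nat_lit 33) (.br (nat_lit 20)
 (.br (nat_lit 13) (.br (nat_lit 4) (.br (nat_lit 2) (.ch (nat_lit 1) (.ev (nat_lit 52) (nat_lit 196720) (.ev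
 (nat_lit 180) (nat_lit 567347999932416) (.ev (nat_lit 244) (nat_lit 4503599627370496) (.ev (nat_lit 308)
 (nat_lit 281474976710656) (.ev (nat_lit 404) (nat_lit 1125899906842624) (.ev (nat_lit 1012) (nat_lit 4194304)
 (.ev (nat_lit 1136) (nat_lit 140737555464704) (.ev (nat_lit 1268) (nat_lit 137438953472) (.ev (nat_lit 1796)
 (nat_lit 8796109799424) (.nd (nat_lit 1840) (.ch (nat_lit 7) (.fin (nat_lit 576458003523781185))))))))))))))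
 (.ch (nat_lit 2) (.ev (nat_lit 52) (nat_lit 851159522738800) (.ev (nat_lit 148) (nat_lit 4194304) (.ev
 (nat_lit 244) (nat_lit 1125899906842624) (.ev (nat_lit 436) (nat_lit 65536) (.ev (nat_lit 628) (nat_lit
 4503599627370496) (.ev (nat_lit 724) (nat_lit 131072) (.ev (nat_lit 928) (nat_lit 149533581379584)
 .dd))))))))) (.br (nat_lit 6) (.ch (nat_lit 4) (.ev (nat_lit 52) (nat_lit 5774772512360448) (.ev (nat_lit 116)
 (nat_lit 2199023255552) (.ev (nat_lit 212) (nat_lit 512) (.ev (nat_lit 340) (nat_lit 67108864) (.ev (nat_lit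
 372) (nat_lit 32) (.ev (nat_lit 660) (nat_lit 64) (.ev (nat_lit 916) (nat_lit 16) (.ev (nat_lit 948) (nat_lit
 281474976710656) (.ev (nat_lit 1700) (nat_lit 16842752) (.ev (nat_lit 1712) (nat_lit 571746046443520)
 .dd))))))))))) (.br (nat_lit 8) (.ch (nat_lit 6) (.ev (nat_lit 52) (nat_lit 710284528388128) (.ev (nat_lit
 116) (nat_lit 67108864) (.ev (nat_lit 180) (nat_lit 8796093022208) (.ev (nat_lit 244) (nat_lit 4325376) (.ev
 (nat_lit 404) (nat_lit 4503599627370496) (.ev (nat_lit 596) (nat_lit 64) (.ev (nat_lit 660) (nat_lit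
 1125899906842624) (.ev (nat_lit 788) (nat_lit 281474976710656) (.ev (nat_lit 884) (nat_lit 16) (.ev (nat_lit
 1056) (nat_lit 137438953472) (.ev (nat_lit 1069) (nat_lit 512) .dd)))))))))))) (.ch (nat_lit 8) (.ev (nat_lit
 52) (nat_lit 1552510489854464) (.ev (nat_lit 84) (nat_lit 16777216) (.ev (nat_lit 436) (nat_lit
 571746046443552) (.ev (nat_lit 596) (nat_lit 4503599627370496) (.ev (nat_lit 1412) (nat_lit 65536) (.ev
 (nat_lit 1572) (nat_lit 137438953472) (.ev (nat_lit 1668) (nat_lit 16) (.ev (nat_lit 1808) (nat_lit 64) (.nd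
 (nat_lit 1840) (.ch (nat_lit 7) (.fin (nat_lit 576458003523781185)))))))))))))))) (.br (nat_lit 15) (.br
 (nat_lit 14) (.ch (nat_lit 13) (.ev (nat_lit 52) (nat_lit 5636096675349056) (.ev (nat_lit 288) (nat_lit
 994095967373360) .dd))) (.ch (nat_lit 14) (.ev (nat_lit 52) (nat_lit 6344319598329856) (.ev (nat_lit 116)
 (nat_lit 512) (.ev (nat_lit 148) (nat_lit 131072) (.ev (nat_lit 276) (nat_lit 16) (.ev (nat_lit 468) (nat_lit
 16777216) (.ev (nat_lit 532) (nat_lit 281474976710656) (.ev (nat_lit 692) (nat_lit 4398046511104) (.ev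
 (nat_lit 1348) (nat_lit 65536) (.ev (nat_lit 1456) (nat_lit 2144) (.ev (nat_lit 1469) (nat_lit 4194304)
 .dd)))))))))))) (.br (nat_lit 18) (.ch (nat_lit 15) (.ev (nat_lit 52) (nat_lit 5629637040472176) (.ev (nat_lit
 84) (nat_lit 562949953421312) (.ev (nat_lit 340) (nat_lit 281474976710656) (.ev (nat_lit 512) (nat_lit
 156130672118272) .dd))))) (.br (nat_lit 19) (.ch (nat_lit 18) (.ev (nat_lit 52) (nat_lit 4794008152967744)
 (.ev (nat_lit 212) (nat_lit 140737488355328) (.ev (nat_lit 372) (nat_lit 562949953421312) (.ev (nat_lit 404)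
 (nat_lit 4194304) (.ev (nat_lit 596) (nat_lit 16) (.ev (nat_lit 884) (nat_lit 1125899906842624) (.ev (nat_lit
 1152) (nat_lit 4398113620000) (.ev (nat_lit 1476) (nat_lit 2199023255552) (.ev (nat_lit 1485) (nat_lit 65536)
 .dd)))))))))) (.ch (nat_lit 19) (.ev (nat_lit 52) (nat_lit 422212465133648) (.ev (nat_lit 340) (nat_lit
 2199023255552) (.ev (nat_lit 372) (nat_lit 4398046511104) (.ev (nat_lit 500) (nat_lit 8796093022240) (.ev
 (nat_lit 532) (nat_lit 512) (.ev (nat_lit 660) (nat_lit 131072) (.ev (nat_lit 724) (nat_lit 1125899911036928)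
 (.ev (nat_lit 820) (nat_lit 67108864) (.ev (nat_lit 1444) (nat_lit 562949970198528) (.ev (nat_lit 1492)
 (nat_lit 137438953472) (.ev (nat_lit 1501) (nat_lit 4503599627370496) .dd)))))))))))))))) (.br (nat_lit 25)
 (.br (nat_lit 22) (.br (nat_lit 21) (.ch (nat_lit 20) (.ev (nat_lit 52) (nat_lit 143074017806368) (.ev
 (nat_lit 192) (nat_lit 6487118624916048) .dd))) (.ch (nat_lit 21) (.ev (nat_lit 52) (nat_lit 993958528288800)
 (.ev (nat_lit 244) (nat_lit 16) (.ev (nat_lit 564) (nat_lit 4503599631564800) (.ev (nat_lit 756) (nat_lit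
 1125899906842624) (.ev (nat_lit 788) (nat_lit 137438953472) (.ev (nat_lit 948) (nat_lit 2199023255552) (.ev
 (nat_lit 1076) (nat_lit 67109376) (.ev (nat_lit 1088) (nat_lit 4398046642240) (.ev (nat_lit 1101) (nat_lit
 65536) .dd))))))))))) (.br (nat_lit 23) (.ch (nat_lit 22) (.ev (nat_lit 52) (nat_lit 10995133186064) (.ev
 (nat_lit 276) (nat_lit 64) (.ev (nat_lit 372) (nat_lit 65536) (.ev (nat_lit 756) (nat_lit 4503599627370496)
 (.ev (nat_lit 788) (nat_lit 140737488355328) (.ev (nat_lit 960) (nat_lit 844562436194304) (.ev (nat_lit 1348)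
 (nat_lit 4398046511104) (.ev (nat_lit 1396) (nat_lit 32) (.ev (nat_lit 1540) (nat_lit 4194304) (.ev (nat_lit
 1552) (nat_lit 1125899906845184) .dd))))))))))) (.br (nat_lit 24) (.ch (nat_lit 23) (.ev (nat_lit 52) (nat_lit
 288072113586736) (.ev (nat_lit 148) (nat_lit 1125899906842624) (.ev (nat_lit 180) (nat_lit 16777216) (.ev
 (nat_lit 320) (nat_lit 5216220605515840) .dd))))) (.ch (nat_lit 24) (.ev (nat_lit 52) (nat_lit
 4793870697168928) (.ev (nat_lit 96) (nat_lit 1836321945553488) .dd)))))) (.br (nat_lit 27) (.br (nat_lit 26)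
 (.ch (nat_lit 25) (.ev (nat_lit 52) (nat_lit 848960419924576) (.ev (nat_lit 148) (nat_lit 4503599627370496)
 (.ev (nat_lit 308) (nat_lit 2199023255552) (.ev (nat_lit 436) (nat_lit 16777216) (.ev (nat_lit 468) (nat_lit
 8796093022208) (.ev (nat_lit 660) (nat_lit 16) (.ev (nat_lit 820) (nat_lit 140737488355328) (.ev (nat_lit 852)
 (nat_lit 65536) (.ev (nat_lit 1252) (nat_lit 1125899906842624) (.ev (nat_lit 1261) (nat_lit 67108864)
 .dd))))))))))) (.ch (nat_lit 26) (.ev (nat_lit 52) (nat_lit 4939006315986960) (.ev (nat_lit 116) (nat_lit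
 137438955520) (.ev (nat_lit 148) (nat_lit 64) (.ev (nat_lit 276) (nat_lit 1125899906842624) (.ev (nat_lit 500)
 (nat_lit 65536) (.ev (nat_lit 756) (nat_lit 4194304) (.ev (nat_lit 1572) (nat_lit 2199023256064) (.ev (nat_lit
 1744) (nat_lit 562949953421312) (.ev (nat_lit 1757) (nat_lit 32) .dd))))))))))) (.br (nat_lit 28) (.ch
 (nat_lit 27) (.ev (nat_lit 52) (nat_lit 1697783413279312) (.ev (nat_lit 84) (nat_lit 4398046511136) (.ev
 (nat_lit 532) (nat_lit 2199023255552) (.ev (nat_lit 768) (nat_lit 4925812159676416) .dd))))) (.br (nat_lit 29)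
 (.ch (nat_lit 28) (.ev (nat_lit 52) (nat_lit 5781369577867776) (.ev (nat_lit 116) (nat_lit 281474976710656)
 (.ev (nat_lit 276) (nat_lit 4194304) (.ev (nat_lit 308) (nat_lit 67108864) (.ev (nat_lit 404) (nat_lit 64)
 (.ev (nat_lit 628) (nat_lit 131072) (.ev (nat_lit 692) (nat_lit 562949953421312) (.ev (nat_lit 1412) (nat_lit
 32) (.ev (nat_lit 1524) (nat_lit 16) (.ev (nat_lit 1584) (nat_lit 4398046511104) (.ev (nat_lit 1597) (nat_lit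
 16777216) .dd)))))))))))) (.ch (nat_lit 29) (.ev (nat_lit 52) (nat_lit 578343204356688) (.ev (nat_lit 308)
 (nat_lit 140737488355328) (.ev (nat_lit 532) (nat_lit 2048) (.ev (nat_lit 692) (nat_lit 32) (.ev (nat_lit 800)
 (nat_lit 5911111950008320) .dd)))))))))))))

/-- Subtrie. -/
noncomputable def T8 : Tr := (.ev (nat_lit 20) (nat_lit 1634014488171520) (.nd (nat_lit 33) (.br (nat_lit 20)
 (.br (nat_lit 13) (.br (nat_lit 4) (.br (nat_lit 2) (.ch (nat_lit 1) (.ev (nat_lit 52) (nat_lit 627334152304)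
 (.ev (nat_lit 84) (nat_lit 562949953421312) (.ev (nat_lit 116) (nat_lit 274877906944) (.ev (nat_lit 212)
 (nat_lit 4503599627370496) (.ev (nat_lit 340) (nat_lit 2048) (.ev (nat_lit 500) (nat_lit 17592186044416) (.ev
 (nat_lit 532) (nat_lit 512) (.ev (nat_lit 1168) (nat_lit 4194304) (.ev (nat_lit 1181) (nat_lit 1099511627776)
 .dd)))))))))) (.ch (nat_lit 2) (.ev (nat_lit 52) (nat_lit 564599220896368) (.ev (nat_lit 84) (nat_lit
 17592186044416) (.ev (nat_lit 212) (nat_lit 274877906944) (.ev (nat_lit 404) (nat_lit 262144) (.ev (nat_lit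
 596) (nat_lit 268435456) (.ev (nat_lit 628) (nat_lit 68719476736) (.ev (nat_lit 852) (nat_lit 65536) (.ev
 (nat_lit 948) (nat_lit 131072) (.ev (nat_lit 1636) (nat_lit 8594128896) (.ev (nat_lit 1680) (nat_lit 2048)
 (.ev (nat_lit 1693) (nat_lit 4503599627370496) .dd))))))))))))) (.br (nat_lit 6) (.ch (nat_lit 4) (.ev
 (nat_lit 52) (nat_lit 4521544273528832) (.ev (nat_lit 116) (nat_lit 512) (.ev (nat_lit 276) (nat_lit 262144)
 (.ev (nat_lit 468) (nat_lit 65536) (.ev (nat_lit 500) (nat_lit 1099511627776) (.ev (nat_lit 692) (nat_lit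
 562949953421312) (.ev (nat_lit 756) (nat_lit 16) (.ev (nat_lit 916) (nat_lit 32) (.ev (nat_lit 1012) (nat_lit
 549755813888) (.ev (nat_lit 1021) (nat_lit 64) .dd))))))))))) (.br (nat_lit 8) (.ch (nat_lit 6) (.ev (nat_lit
 52) (nat_lit 581710370900000) (.ev (nat_lit 116) (nat_lit 4503599627370496) (.ev (nat_lit 212) (nat_lit
 131072) (.ev (nat_lit 244) (nat_lit 268435456) (.ev (nat_lit 436) (nat_lit 64) (.ev (nat_lit 672) (nat_lit
 833227883024) .dd))))))) (.ch (nat_lit 8) (.ev (nat_lit 52) (nat_lit 1924149969408) (.ev (nat_lit 148)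
 (nat_lit 68719476736) (.ev (nat_lit 180) (nat_lit 8589934592) (.ev (nat_lit 276) (nat_lit 268435456) (.ev
 (nat_lit 308) (nat_lit 4503599627370496) (.ev (nat_lit 468) (nat_lit 64) (.ev (nat_lit 596) (nat_lit 32) (.ev
 (nat_lit 832) (nat_lit 580542139533328) .dd)))))))))))) (.br (nat_lit 15) (.br (nat_lit 14) (.ch (nat_lit 13)
 (.ev (nat_lit 52) (nat_lit 4521535415321152) (.ev (nat_lit 84) (nat_lit 1099511627776) (.ev (nat_lit 148)
 (nat_lit 268435456) (.ev (nat_lit 308) (nat_lit 131072) (.ev (nat_lit 564) (nat_lit 549755813888) (.ev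
 (nat_lit 852) (nat_lit 8589934592) (.ev (nat_lit 1296) (nat_lit 32816) (.ev (nat_lit 1396) (nat_lit
 562949953421312) (.ev (nat_lit 1405) (nat_lit 2048) .dd)))))))))) (.ch (nat_lit 14) (.ev (nat_lit 52) (nat_lit
 5085516425068544) (.ev (nat_lit 212) (nat_lit 512) (.ev (nat_lit 276) (nat_lit 32) (.ev (nat_lit 372) (nat_lit
 8589934592) (.ev (nat_lit 480) (nat_lit 618479716432) .dd))))))) (.br (nat_lit 18) (.ch (nat_lit 15) (.ev
 (nat_lit 52) (nat_lit 4504699139489904) (.ev (nat_lit 84) (nat_lit 8589934592) (.ev (nat_lit 148) (nat_lit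
 549755813888) (.ev (nat_lit 180) (nat_lit 562949953421312) (.ev (nat_lit 468) (nat_lit 17592186044416) (.ev
 (nat_lit 500) (nat_lit 4194304) (.ev (nat_lit 884) (nat_lit 268435456) (.ev (nat_lit 1328) (nat_lit
 343597385728) (.ev (nat_lit 1341) (nat_lit 512) .dd)))))))))) (.br (nat_lit 19) (.ch (nat_lit 18) (.ev
 (nat_lit 52) (nat_lit 4521466959891008) (.ev (nat_lit 84) (nat_lit 4194304) (.ev (nat_lit 180) (nat_lit 65536)
 (.ev (nat_lit 244) (nat_lit 549756076032) (.ev (nat_lit 628) (nat_lit 32) (.ev (nat_lit 1312) (nat_lit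
 68719509520) (.ev (nat_lit 1636) (nat_lit 1099511627776) (.nd (nat_lit 1840) (.ch (nat_lit 13) (.fin (nat_lit
 576460202549133883)))))))))))) (.ch (nat_lit 19) (.ev (nat_lit 52) (nat_lit 1099511728208) (.ev (nat_lit 160)
 (nat_lit 5085043982991904) .dd))))))) (.br (nat_lit 25) (.br (nat_lit 22) (.br (nat_lit 21) (.ch (nat_lit 20)
 (.ev (nat_lit 52) (nat_lit 133152) (.ev (nat_lit 64) (nat_lit 5086143494586960) .dd))) (.ch (nat_lit 21) (.ev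
 (nat_lit 52) (nat_lit 564951676618784) (.ev (nat_lit 84) (nat_lit 65536) (.ev (nat_lit 340) (nat_lit 131072)
 (.ev (nat_lit 372) (nat_lit 17592186044416) (.ev (nat_lit 532) (nat_lit 4503599627370496) (.ev (nat_lit 1188)
 (nat_lit 4194368) (.ev (nat_lit 1200) (nat_lit 33296) (.ev (nat_lit 1213) (nat_lit 262144) .dd)))))))))) (.br
 (nat_lit 23) (.ch (nat_lit 22) (.ev (nat_lit 52) (nat_lit 17592454643728) (.ev (nat_lit 308) (nat_lit
 274877906944) (.ev (nat_lit 468) (nat_lit 8589934592) (.ev (nat_lit 628) (nat_lit 262144) (.ev (nat_lit 916)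
 (nat_lit 68719476736) (.ev (nat_lit 976) (nat_lit 1649267507712) (.ev (nat_lit 1492) (nat_lit 2048) (.ev
 (nat_lit 1604) (nat_lit 4503599627370496) (.ev (nat_lit 1616) (nat_lit 562949957615680) (.ev (nat_lit 1629)
 (nat_lit 32) .dd))))))))))) (.br (nat_lit 24) (.ch (nat_lit 23) (.ev (nat_lit 52) (nat_lit 893621666352) (.ev
 (nat_lit 180) (nat_lit 4194304) (.ev (nat_lit 212) (nat_lit 2048) (.ev (nat_lit 448) (nat_lit
 5085249868857408) .dd))))) (.ch (nat_lit 24) (.ev (nat_lit 52) (nat_lit 4521810288771104) (.ev (nat_lit 340)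
 (nat_lit 274877906944) (.ev (nat_lit 468) (nat_lit 564049465049088) (.ev (nat_lit 532) (nat_lit 131072) (.ev
 (nat_lit 628) (nat_lit 16) (.ev (nat_lit 660) (nat_lit 268697600) (.ev (nat_lit 692) (nat_lit 4194304) (.ev
 (nat_lit 1108) (nat_lit 2560) (.ev (nat_lit 1382) (nat_lit 32832) (.ev (nat_lit 1389) (nat_lit 8589934592)
 .dd)))))))))))))) (.br (nat_lit 27) (.br (nat_lit 26) (.ch (nat_lit 25) (.ev (nat_lit 52) (nat_lit
 563508303759968) (.ev (nat_lit 276) (nat_lit 16) (.ev (nat_lit 308) (nat_lit 32768) (.ev (nat_lit 436)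
 (nat_lit 65536) (.ev (nat_lit 756) (nat_lit 68719476736) (.ev (nat_lit 852) (nat_lit 17592186044416) (.ev
 (nat_lit 1396) (nat_lit 1099511627776) (.ev (nat_lit 1424) (nat_lit 4503599895805952) (.ev (nat_lit 1437)
 (nat_lit 274877906944) .dd)))))))))) (.ch (nat_lit 26) (.ev (nat_lit 52) (nat_lit 4522368634847248) (.ev
 (nat_lit 84) (nat_lit 64) (.ev (nat_lit 352) (nat_lit 563774859872800) .dd))))) (.br (nat_lit 28) (.ch
 (nat_lit 27) (.ev (nat_lit 52) (nat_lit 581718964767312) (.ev (nat_lit 148) (nat_lit 262176) (.ev (nat_lit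
 628) (nat_lit 268435456) (.ev (nat_lit 724) (nat_lit 549755813888) (.ev (nat_lit 1764) (nat_lit 274877939712)
 (.ev (nat_lit 1776) (nat_lit 4503599627501568) .dd))))))) (.br (nat_lit 29) (.ch (nat_lit 28) (.ev (nat_lit
 52) (nat_lit 4504149651720704) (.ev (nat_lit 404) (nat_lit 68719476736) (.ev (nat_lit 884) (nat_lit 262160)
 (.ev (nat_lit 1028) (nat_lit 1099511627776) (.ev (nat_lit 1120) (nat_lit 17592190238784) (.ev (nat_lit 1252)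
 (nat_lit 32) (.ev (nat_lit 1732) (nat_lit 274878038016) (.nd (nat_lit 1840) (.ch (nat_lit 13) (.fin (nat_lit
 576460202549133883)))))))))))) (.ch (nat_lit 29) (.ev (nat_lit 52) (nat_lit 563508572127824) (.ev (nat_lit
 416) (nat_lit 4522634922592288) .dd))))))))))

/-- The trie. -/
noncomputable def T : Tr := .nd (nat_lit 1000000) (.br (nat_lit 7) (.br (nat_lit 2) (.br (nat_lit 1) (.ch
 (nat_lit 0) (.ev (nat_lit 0) (nat_lit 9007199254740991) .dd)) (.ch (nat_lit 1) T1)) (.br (nat_lit 3) (.ch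
 (nat_lit 2) T2) (.br (nat_lit 4) (.ch (nat_lit 3) (.ev (nat_lit 0) (nat_lit 9007199254740991) .dd)) (.ch
 (nat_lit 4) (.ev (nat_lit 0) (nat_lit 9007199254740991) .dd))))) (.br (nat_lit 9) (.br (nat_lit 8) (.ch
 (nat_lit 7) (.ev (nat_lit 0) (nat_lit 9007199254740991) .dd)) (.ch (nat_lit 8) T8)) (.br (nat_lit 14) (.ch
 (nat_lit 9) (.ev (nat_lit 0) (nat_lit 9007199254740991) .dd)) (.br (nat_lit 18) (.ch (nat_lit 14) (.ev
 (nat_lit 0) (nat_lit 9007199254740991) .dd)) (.ch (nat_lit 18) (.ev (nat_lit 0) (nat_lit 9007199254740991)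
 .dd))))))

/-- The possible values. -/
noncomputable def oks : List ℕ := [43]

/-- The parameters. -/
noncomputable def S : Pr := ⟨fun i l e => lget mz (lget [] (lget [] tabs i) l) e, oks, [(nat_lit 0), (nat_lit
 1), (nat_lit 0)], T, (nat_lit 9007199254740991), (nat_lit 2287041271849359), (nat_lit 53), [(nat_lit 279193),
 (nat_lit 1073946281)], [(nat_lit 361), (nat_lit 961)]⟩

/-- Nothing known. -/
noncomputable def cs0 : Cs := (.cons (nat_lit 19) (nat_lit 0) (nat_lit 1) (.cons (nat_lit 31) (nat_lit 0) (nat_lit 1) .nil))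

theorem part_1 : part S cs0 (nat_lit 1) = true := by decide +kernel

theorem part_2 : part S cs0 (nat_lit 2) = true := by decide +kernel

theorem part_8 : part S cs0 (nat_lit 8) = true := by decide +kernel

/-- Data of a prime. -/
noncomputable def D0 : PD := ⟨(nat_lit 19), (nat_lit 2), (210, 3, 5), (67, 193, 280), (183, 17, 194)⟩

theorem D0_ok : D0.Ok := pdb_sound (s := 9) (C := ⟨⟨21, 6, -28, 11, 14, 17, -4, 7, -1⟩, (2, 11, 15)⟩) (by show Nat.Prime 19; norm_num) (by decide +kernel)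

/-- Lines of the first type. -/
noncomputable def Cl0 : List C1 := [⟨⟨11, 14, -28, 21, 6, 7, 4, -7, -5⟩, (12, 16, 13)⟩,
  ⟨⟨0, 0, 0, 0, 0, 0, 0, 0, 0⟩, (0, 0, 0)⟩,
  ⟨⟨0, 0, 0, 0, 0, 0, 0, 0, 0⟩, (0, 0, 0)⟩,
  ⟨⟨9, 6, -32, 1, 26, 7, 8, -1, -1⟩, (8, 3, 5)⟩,
  ⟨⟨-9, -6, -23, -1, -26, 8, 8, -1, -7⟩, (13, 12, 18)⟩,
  ⟨⟨0, 0, 0, 0, 0, 0, 0, 0, 0⟩, (0, 0, 0)⟩,
  ⟨⟨0, 0, 0, 0, 0, 0, 0, 0, 0⟩, (0, 0, 0)⟩,
  ⟨⟨9, -6, -32, 1, -26, 7, 8, 1, -1⟩, (5, 9, 15)⟩,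
  ⟨⟨0, 0, 0, 0, 0, 0, 0, 0, 0⟩, (0, 0, 0)⟩,
  ⟨⟨21, -6, -28, 11, -14, 17, -4, -7, -1⟩, (16, 12, 6)⟩,
  ⟨⟨0, 0, 0, 0, 0, 0, 0, 0, 0⟩, (0, 0, 0)⟩,
  ⟨⟨0, 0, 0, 0, 0, 0, 0, 0, 0⟩, (0, 0, 0)⟩,
  ⟨⟨0, 0, 0, 0, 0, 0, 0, 0, 0⟩, (0, 0, 0)⟩,
  ⟨⟨0, 0, 0, 0, 0, 0, 0, 0, 0⟩, (0, 0, 0)⟩,
  ⟨⟨11, -14, -28, 21, -6, 7, 4, 7, -5⟩, (5, 13, 7)⟩,
  ⟨⟨0, 0, 0, 0, 0, 0, 0, 0, 0⟩, (0, 0, 0)⟩,
  ⟨⟨0, 0, 0, 0, 0, 0, 0, 0, 0⟩, (0, 0, 0)⟩,
  ⟨⟨0, 0, 0, 0, 0, 0, 0, 0, 0⟩, (0, 0, 0)⟩,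
  ⟨⟨-9, 6, -23, -1, 26, 8, 8, 1, -7⟩, (16, 6, 9)⟩]

/-- Data of a prime. -/
noncomputable def D1 : PD := ⟨(nat_lit 31), (nat_lit 2), (435, 8, 13), (281, 829, 278), (666, 926, 286)⟩

theorem D1_ok : D1.Ok := pdb_sound (s := 3) (C := ⟨⟨11, 26, -43, -19, 34, 32, -12, -3, -1⟩, (11, 12, 19)⟩) (by show Nat.Prime 31; norm_num) (by decide +kernel)

/-- Lines of the first type. -/
noncomputable def Cl1 : List C1 := [⟨⟨-11, -26, -32, 19, -34, 13, 12, 3, -13⟩, (22, 24, 7)⟩,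
  ⟨⟨0, 0, 0, 0, 0, 0, 0, 0, 0⟩, (0, 0, 0)⟩,
  ⟨⟨0, 0, 0, 0, 0, 0, 0, 0, 0⟩, (0, 0, 0)⟩,
  ⟨⟨29, 26, -37, 21, 6, 32, 8, -11, -7⟩, (2, 10, 23)⟩,
  ⟨⟨0, 0, 0, 0, 0, 0, 0, 0, 0⟩, (0, 0, 0)⟩,
  ⟨⟨21, 6, -53, 29, 26, 8, 8, -11, -1⟩, (6, 26, 20)⟩,
  ⟨⟨0, 0, 0, 0, 0, 0, 0, 0, 0⟩, (0, 0, 0)⟩,
  ⟨⟨29, -26, -37, 21, -6, 32, 8, 11, -7⟩, (27, 11, 16)⟩,
  ⟨⟨0, 0, 0, 0, 0, 0, 0, 0, 0⟩, (0, 0, 0)⟩,
  ⟨⟨-9, -6, -43, -41, 14, 28, 4, 13, -5⟩, (4, 1, 12)⟩,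
  ⟨⟨9, -6, -52, -41, -14, 13, -4, 13, -1⟩, (29, 16, 25)⟩,
  ⟨⟨21, -6, -53, 29, -26, 8, 8, 11, -1⟩, (7, 20, 13)⟩,
  ⟨⟨9, 6, -52, -41, 14, 13, -4, -13, -1⟩, (28, 24, 22)⟩,
  ⟨⟨0, 0, 0, 0, 0, 0, 0, 0, 0⟩, (0, 0, 0)⟩,
  ⟨⟨0, 0, 0, 0, 0, 0, 0, 0, 0⟩, (0, 0, 0)⟩,
  ⟨⟨0, 0, 0, 0, 0, 0, 0, 0, 0⟩, (0, 0, 0)⟩,
  ⟨⟨11, -26, -43, -19, -34, 32, -12, 3, -1⟩, (25, 16, 15)⟩,
  ⟨⟨-9, 6, -43, -41, -14, 28, 4, -13, -5⟩, (3, 24, 9)⟩,
  ⟨⟨0, 0, 0, 0, 0, 0, 0, 0, 0⟩, (0, 0, 0)⟩,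
  ⟨⟨0, 0, 0, 0, 0, 0, 0, 0, 0⟩, (0, 0, 0)⟩,
  ⟨⟨0, 0, 0, 0, 0, 0, 0, 0, 0⟩, (0, 0, 0)⟩,
  ⟨⟨0, 0, 0, 0, 0, 0, 0, 0, 0⟩, (0, 0, 0)⟩,
  ⟨⟨0, 0, 0, 0, 0, 0, 0, 0, 0⟩, (0, 0, 0)⟩,
  ⟨⟨0, 0, 0, 0, 0, 0, 0, 0, 0⟩, (0, 0, 0)⟩,
  ⟨⟨0, 0, 0, 0, 0, 0, 0, 0, 0⟩, (0, 0, 0)⟩,
  ⟨⟨0, 0, 0, 0, 0, 0, 0, 0, 0⟩, (0, 0, 0)⟩,
  ⟨⟨0, 0, 0, 0, 0, 0, 0, 0, 0⟩, (0, 0, 0)⟩,
  ⟨⟨0, 0, 0, 0, 0, 0, 0, 0, 0⟩, (0, 0, 0)⟩,
  ⟨⟨0, 0, 0, 0, 0, 0, 0, 0, 0⟩, (0, 0, 0)⟩,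
  ⟨⟨0, 0, 0, 0, 0, 0, 0, 0, 0⟩, (0, 0, 0)⟩,
  ⟨⟨-11, 26, -32, 19, 34, 13, 12, -3, -13⟩, (28, 8, 23)⟩]

/-- Data of a prime. -/
noncomputable def Dm : PD := ⟨(nat_lit 53), (nat_lit 2), (2545, 8, 14), (2610, 800, 1557), (1968, 957, 2439)⟩

theorem Dm_ok : Dm.Ok := pdb_sound (s := 12) (C := ⟨⟨-13, 2, -76, -47, -58, 31, 18, -15, -13⟩, (40, 6, 18)⟩) (by show Nat.Prime 53; norm_num) (by decide +kernel)

/-- Lines of the first type. -/
noncomputable def Clm : List C1 := [⟨⟨13, -2, -89, -47, -58, 16, 18, -15, -5⟩, (17, 16, 48)⟩,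
  ⟨⟨-23, 38, -56, 43, 58, 1, 18, -9, -23⟩, (9, 50, 16)⟩,
  ⟨⟨-23, -38, -56, 43, -58, 1, 18, 9, -23⟩, (18, 47, 32)⟩,
  ⟨⟨-13, -2, -76, -47, 58, 31, 18, 15, -13⟩, (20, 3, 9)⟩,
  ⟨⟨0, 0, 0, 0, 0, 0, 0, 0, 0⟩, (0, 0, 0)⟩,
  ⟨⟨0, 0, 0, 0, 0, 0, 0, 0, 0⟩, (0, 0, 0)⟩,
  ⟨⟨0, 0, 0, 0, 0, 0, 0, 0, 0⟩, (0, 0, 0)⟩,
  ⟨⟨23, -38, -79, -43, -58, 44, -18, 9, -5⟩, (29, 8, 28)⟩,
  ⟨⟨33, -18, -89, 67, 2, 4, 2, 23, -7⟩, (12, 34, 20)⟩,
  ⟨⟨0, 0, 0, 0, 0, 0, 0, 0, 0⟩, (0, 0, 0)⟩,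
  ⟨⟨0, 0, 0, 0, 0, 0, 0, 0, 0⟩, (0, 0, 0)⟩,
  ⟨⟨0, 0, 0, 0, 0, 0, 0, 0, 0⟩, (0, 0, 0)⟩,
  ⟨⟨0, 0, 0, 0, 0, 0, 0, 0, 0⟩, (0, 0, 0)⟩,
  ⟨⟨27, 42, -76, 7, 58, 49, 22, -7, -5⟩, (1, 14, 44)⟩,
  ⟨⟨33, 18, -89, 67, -2, 4, 2, -23, -7⟩, (44, 1, 38)⟩,
  ⟨⟨0, 0, 0, 0, 0, 0, 0, 0, 0⟩, (0, 0, 0)⟩,
  ⟨⟨0, 0, 0, 0, 0, 0, 0, 0, 0⟩, (0, 0, 0)⟩,
  ⟨⟨0, 0, 0, 0, 0, 0, 0, 0, 0⟩, (0, 0, 0)⟩,
  ⟨⟨0, 0, 0, 0, 0, 0, 0, 0, 0⟩, (0, 0, 0)⟩,
  ⟨⟨57, 42, -56, -37, 62, 41, -10, 1, -19⟩, (20, 27, 3)⟩,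
  ⟨⟨13, 2, -89, -47, 58, 16, 18, 15, -5⟩, (50, 19, 4)⟩,
  ⟨⟨0, 0, 0, 0, 0, 0, 0, 0, 0⟩, (0, 0, 0)⟩,
  ⟨⟨0, 0, 0, 0, 0, 0, 0, 0, 0⟩, (0, 0, 0)⟩,
  ⟨⟨57, -42, -56, -37, -62, 41, -10, -1, -19⟩, (16, 11, 13)⟩,
  ⟨⟨0, 0, 0, 0, 0, 0, 0, 0, 0⟩, (0, 0, 0)⟩,
  ⟨⟨7, 58, -56, 27, 42, 49, 22, -7, -17⟩, (20, 9, 25)⟩,
  ⟨⟨0, 0, 0, 0, 0, 0, 0, 0, 0⟩, (0, 0, 0)⟩,
  ⟨⟨67, -2, -71, 33, 18, 56, -2, 23, -5⟩, (28, 13, 49)⟩,
  ⟨⟨0, 0, 0, 0, 0, 0, 0, 0, 0⟩, (0, 0, 0)⟩,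
  ⟨⟨0, 0, 0, 0, 0, 0, 0, 0, 0⟩, (0, 0, 0)⟩,
  ⟨⟨23, 38, -79, -43, 58, 44, -18, -9, -5⟩, (20, 11, 12)⟩,
  ⟨⟨0, 0, 0, 0, 0, 0, 0, 0, 0⟩, (0, 0, 0)⟩,
  ⟨⟨7, -58, -56, 27, -42, 49, 22, 7, -17⟩, (17, 5, 8)⟩,
  ⟨⟨0, 0, 0, 0, 0, 0, 0, 0, 0⟩, (0, 0, 0)⟩,
  ⟨⟨67, 2, -71, 33, -18, 56, -2, -23, -5⟩, (8, 34, 14)⟩,
  ⟨⟨27, -42, -76, 7, -58, 49, 22, 7, -5⟩, (50, 11, 27)⟩,
  ⟨⟨0, 0, 0, 0, 0, 0, 0, 0, 0⟩, (0, 0, 0)⟩,
  ⟨⟨0, 0, 0, 0, 0, 0, 0, 0, 0⟩, (0, 0, 0)⟩,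
  ⟨⟨0, 0, 0, 0, 0, 0, 0, 0, 0⟩, (0, 0, 0)⟩,
  ⟨⟨0, 0, 0, 0, 0, 0, 0, 0, 0⟩, (0, 0, 0)⟩,
  ⟨⟨0, 0, 0, 0, 0, 0, 0, 0, 0⟩, (0, 0, 0)⟩,
  ⟨⟨0, 0, 0, 0, 0, 0, 0, 0, 0⟩, (0, 0, 0)⟩,
  ⟨⟨0, 0, 0, 0, 0, 0, 0, 0, 0⟩, (0, 0, 0)⟩,
  ⟨⟨0, 0, 0, 0, 0, 0, 0, 0, 0⟩, (0, 0, 0)⟩,
  ⟨⟨0, 0, 0, 0, 0, 0, 0, 0, 0⟩, (0, 0, 0)⟩,
  ⟨⟨-37, 62, -4, -57, -42, 1, 10, -1, -29⟩, (22, 21, 27)⟩,
  ⟨⟨0, 0, 0, 0, 0, 0, 0, 0, 0⟩, (0, 0, 0)⟩,
  ⟨⟨0, 0, 0, 0, 0, 0, 0, 0, 0⟩, (0, 0, 0)⟩,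
  ⟨⟨0, 0, 0, 0, 0, 0, 0, 0, 0⟩, (0, 0, 0)⟩,
  ⟨⟨0, 0, 0, 0, 0, 0, 0, 0, 0⟩, (0, 0, 0)⟩,
  ⟨⟨0, 0, 0, 0, 0, 0, 0, 0, 0⟩, (0, 0, 0)⟩,
  ⟨⟨-37, -62, -4, -57, 42, 1, 10, 1, -29⟩, (6, 25, 17)⟩,
  ⟨⟨0, 0, 0, 0, 0, 0, 0, 0, 0⟩, (0, 0, 0)⟩]

/-- Unit moves. -/
noncomputable def U : List Mv := [mz,
  mz,
  mz,
  mz,
  mz,
  ⟨⟨-1, 0, 1, 0, 1, 0, 0, 0, 1⟩, .nil, (nat_lit 18), (nat_lit 9), (nat_lit 4), (nat_lit 1), (0, 0, 0), [], 18⟩,
  ⟨⟨-1, 0, 1, 0, -1, 0, 0, 0, 1⟩, .nil, (nat_lit 0), (nat_lit 12), (nat_lit 1), (nat_lit 0), (0, 0, 0), [], 7⟩,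
  mz,
  mz,
  mz,
  ⟨⟨1, 0, 0, 0, -1, 0, 0, 0, 1⟩, .nil, (nat_lit 18), (nat_lit 14), (nat_lit 2), (nat_lit 1), (0, 0, 0), [], 10⟩,
  ⟨⟨-1, 0, 1, 0, -1, 0, 0, 0, 1⟩, .nil, (nat_lit 0), (nat_lit 12), (nat_lit 1), (nat_lit 0), (0, 0, 0), [], 7⟩,
  ⟨⟨-1, 0, 1, 0, -1, 0, 0, 0, 1⟩, .nil, (nat_lit 0), (nat_lit 12), (nat_lit 1), (nat_lit 0), (0, 0, 0), [], 7⟩,
  ⟨⟨-1, 0, 1, 0, 1, 0, 0, 0, 1⟩, .nil, (nat_lit 18), (nat_lit 9), (nat_lit 4), (nat_lit 1), (0, 0, 0), [], 18⟩,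
  mz,
  ⟨⟨-1, 0, 1, 0, 1, 0, 0, 0, 1⟩, .nil, (nat_lit 18), (nat_lit 9), (nat_lit 4), (nat_lit 1), (0, 0, 0), [], 18⟩,
  ⟨⟨1, 0, 0, 0, -1, 0, 0, 0, 1⟩, .nil, (nat_lit 18), (nat_lit 14), (nat_lit 2), (nat_lit 1), (0, 0, 0), [], 10⟩,
  ⟨⟨1, 0, 0, 0, -1, 0, 0, 0, 1⟩, .nil, (nat_lit 18), (nat_lit 14), (nat_lit 2), (nat_lit 1), (0, 0, 0), [], 10⟩,
  mz]

theorem v_ty : tyb Dm S.ty1 Clm = true := by decide +kernel

theorem v_ty0 : tyb D0 (S.tys.getD 0 0) Cl0 = true := by decide +kernel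

theorem v_ty1 : tyb D1 (S.tys.getD 1 0) Cl1 = true := by decide +kernel

theorem v_msc : mscb S D0 [D1] Dm (nat_lit 262) = true := by decide +kernel

theorem v_mv0 : mvsn (nat_lit 974501089) S D0 [D1] Dm (nat_lit 262) 0 D0 = true := by decide +kernel

theorem v_mv1 : mvsn (nat_lit 974501089) S D0 [D1] Dm (nat_lit 262) 1 D1 = true := by decide +kernel

theorem v_mm : mmsn (nat_lit 974501089) S D0 [D1] Dm (nat_lit 262) = true := by decide +kernel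

theorem v_un : unb S D0 (nat_lit 262) U = true := by decide +kernel

theorem v_ok : okb S.oks [(0, 0, 0)] = true := by decide +kernel

theorem v_part : ∀ d < D0.p, (nat_lit 262).testBit d = true → part S (zc (D0 :: [D1])) d = true := by
  intro d hd h
  have h1 : ∀ d < 19, (nat_lit 262).testBit d = true → d = 1 ∨ d = 2 ∨ d = 8 := by decide
  rcases h1 d hd h with rfl | rfl | rfl
  · exact part_1
  · exact part_2
  · exact part_8

theorem main (n : ℕ) (ho : Odd n) (hr : ¬ Rep n) (h0 : Split 19 n) (h1 : Split 31 n) (hm : Split 53 n) :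
    n ∈ EE := by
  refine concln (W := nat_lit 974501089) (S := S) (P0 := D0) (Pl := [D1]) (Pm := Dm) (cn := nat_lit 262) ?_ Dm_ok v_ty ?_ ?_ v_msc ?_ v_mm v_un v_part v_ok
    n ho hr ?_ hm
  · simp only [List.forall_mem_cons]
    exact ⟨D0_ok, D1_ok, fun _ h => absurd h (by simp)⟩
  · exact all2 (φ := fun j P => ∃ L, tyb P (S.tys.getD j 0) L = true) ⟨_, v_ty0⟩ ⟨_, v_ty1⟩
  · exact all2 (φ := fun j P => Nat.ble (S.pks.getD j 0) (Nat.pow P.p P.K) = true) (by decide +kernel) (by decide +kernel)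
  · exact all2 (φ := fun i P => mvsn (nat_lit 974501089) S D0 [D1] Dm (nat_lit 262) i P = true) v_mv0 v_mv1
  · simp only [List.forall_mem_cons]
    exact ⟨h0, h1, fun _ h => absurd h (by simp)⟩

end Pool.Agent.Work.MP_9954fe_nt.P19_31_53

namespace Pool.Agent.Work.MP_9954fe_nt.P19_71_31

/-- Dummy move. -/
noncomputable def mz : Mv := ⟨⟨0, 0, 0, 0, 0, 0, 0, 0, 0⟩, .nil, (nat_lit 0), (nat_lit 0), (nat_lit 0), (nat_lit 0), (0, 0, 0), [], 0⟩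

/-- Moves. -/
noncomputable def t0_1 : List Mv := [
  ⟨⟨15, -4, -23, -10, 9, -10, 12, 12, -7⟩, (.cons (nat_lit 2704) (nat_lit 4284) (nat_lit 599) (nat_lit 1)
 (.cons (nat_lit 3215) (nat_lit 4759) (nat_lit 3275) (nat_lit 1) .nil)), (nat_lit 19), (nat_lit 28), (nat_lit
 25), (nat_lit 1), (18, 7, 3), [1854, 322], 19⟩,
  ⟨⟨15, -4, -23, 10, -9, 10, 12, 12, -7⟩, (.cons (nat_lit 2844) (nat_lit 6430) (nat_lit 1) (nat_lit 3439)
 (.cons (nat_lit 1214) (nat_lit 1867) (nat_lit 3469) (nat_lit 1) .nil)), (nat_lit 7), (nat_lit 18), (nat_lit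
 7), (nat_lit 1), (18, 12, 3), [6848, 2125], 29⟩,
  ⟨⟨15, -4, -23, -10, 9, -10, 12, 12, -7⟩, (.cons (nat_lit 2704) (nat_lit 4284) (nat_lit 599) (nat_lit 1)
 (.cons (nat_lit 3215) (nat_lit 4759) (nat_lit 3275) (nat_lit 1) .nil)), (nat_lit 19), (nat_lit 28), (nat_lit
 25), (nat_lit 1), (18, 7, 3), [1854, 322], 19⟩,
  ⟨⟨15, -4, -23, -10, 9, -10, 12, 12, -7⟩, (.cons (nat_lit 2704) (nat_lit 4284) (nat_lit 599) (nat_lit 1)
 (.cons (nat_lit 3215) (nat_lit 4759) (nat_lit 3275) (nat_lit 1) .nil)), (nat_lit 19), (nat_lit 28), (nat_lit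
 25), (nat_lit 1), (18, 7, 3), [1854, 322], 19⟩,
  ⟨⟨-3, 16, 16, 10, -9, 10, 12, 12, -7⟩, (.cons (nat_lit 3484) (nat_lit 2313) (nat_lit 3503) (nat_lit 1) (.cons
 (nat_lit 5040) (nat_lit 2264) (nat_lit 862) (nat_lit 1) .nil)), (nat_lit 30), (nat_lit 26), (nat_lit 4),
 (nat_lit 1), (4, 12, 3), [1524, 1785], 20⟩,
  ⟨⟨15, -4, -23, -10, 9, -10, 12, 12, -7⟩, (.cons (nat_lit 2704) (nat_lit 4284) (nat_lit 599) (nat_lit 1)
 (.cons (nat_lit 3215) (nat_lit 4759) (nat_lit 3275) (nat_lit 1) .nil)), (nat_lit 19), (nat_lit 28), (nat_lit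
 25), (nat_lit 1), (18, 7, 3), [1854, 322], 19⟩,
  ⟨⟨15, -4, -23, 10, -9, 10, 12, 12, -7⟩, (.cons (nat_lit 2844) (nat_lit 6430) (nat_lit 1) (nat_lit 3439)
 (.cons (nat_lit 1214) (nat_lit 1867) (nat_lit 3469) (nat_lit 1) .nil)), (nat_lit 7), (nat_lit 18), (nat_lit
 7), (nat_lit 1), (18, 12, 3), [6848, 2125], 29⟩,
  ⟨⟨-3, 16, 16, -10, 9, -10, 12, 12, -7⟩, (.cons (nat_lit 1018) (nat_lit 3686) (nat_lit 555) (nat_lit 1) (.cons
 (nat_lit 366) (nat_lit 432) (nat_lit 1018) (nat_lit 1) .nil)), (nat_lit 11), (nat_lit 6), (nat_lit 9),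
 (nat_lit 1), (4, 7, 3), [730, 894], 11⟩,
  ⟨⟨15, -4, -23, -10, 9, -10, 12, 12, -7⟩, (.cons (nat_lit 2704) (nat_lit 4284) (nat_lit 599) (nat_lit 1)
 (.cons (nat_lit 3215) (nat_lit 4759) (nat_lit 3275) (nat_lit 1) .nil)), (nat_lit 19), (nat_lit 28), (nat_lit
 25), (nat_lit 1), (18, 7, 3), [1854, 322], 19⟩,
  ⟨⟨15, -4, -23, -10, 9, -10, 12, 12, -7⟩, (.cons (nat_lit 2704) (nat_lit 4284) (nat_lit 599) (nat_lit 1)
 (.cons (nat_lit 3215) (nat_lit 4759) (nat_lit 3275) (nat_lit 1) .nil)), (nat_lit 19), (nat_lit 28), (nat_lit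
 25), (nat_lit 1), (18, 7, 3), [1854, 322], 19⟩,
  ⟨⟨15, -4, -23, -10, 9, -10, 12, 12, -7⟩, (.cons (nat_lit 2704) (nat_lit 4284) (nat_lit 599) (nat_lit 1)
 (.cons (nat_lit 3215) (nat_lit 4759) (nat_lit 3275) (nat_lit 1) .nil)), (nat_lit 19), (nat_lit 28), (nat_lit
 25), (nat_lit 1), (18, 7, 3), [1854, 322], 19⟩,
  ⟨⟨-3, 16, 16, -10, 9, -10, 12, 12, -7⟩, (.cons (nat_lit 1018) (nat_lit 3686) (nat_lit 555) (nat_lit 1) (.cons
 (nat_lit 366) (nat_lit 432) (nat_lit 1018) (nat_lit 1) .nil)), (nat_lit 11), (nat_lit 6), (nat_lit 9),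
 (nat_lit 1), (4, 7, 3), [730, 894], 11⟩,
  ⟨⟨15, -4, -23, 10, -9, 10, 12, 12, -7⟩, (.cons (nat_lit 2844) (nat_lit 6430) (nat_lit 1) (nat_lit 3439)
 (.cons (nat_lit 1214) (nat_lit 1867) (nat_lit 3469) (nat_lit 1) .nil)), (nat_lit 7), (nat_lit 18), (nat_lit
 7), (nat_lit 1), (18, 12, 3), [6848, 2125], 29⟩,
  ⟨⟨15, -4, -23, -10, 9, -10, 12, 12, -7⟩, (.cons (nat_lit 2704) (nat_lit 4284) (nat_lit 599) (nat_lit 1)
 (.cons (nat_lit 3215) (nat_lit 4759) (nat_lit 3275) (nat_lit 1) .nil)), (nat_lit 19), (nat_lit 28), (nat_lit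
 25), (nat_lit 1), (18, 7, 3), [1854, 322], 19⟩,
  ⟨⟨15, -4, -23, -10, 9, -10, 12, 12, -7⟩, (.cons (nat_lit 2704) (nat_lit 4284) (nat_lit 599) (nat_lit 1)
 (.cons (nat_lit 3215) (nat_lit 4759) (nat_lit 3275) (nat_lit 1) .nil)), (nat_lit 19), (nat_lit 28), (nat_lit
 25), (nat_lit 1), (18, 7, 3), [1854, 322], 19⟩,
  ⟨⟨-3, 16, 16, -10, 9, -10, 12, 12, -7⟩, (.cons (nat_lit 1018) (nat_lit 3686) (nat_lit 555) (nat_lit 1) (.cons
 (nat_lit 366) (nat_lit 432) (nat_lit 1018) (nat_lit 1) .nil)), (nat_lit 11), (nat_lit 6), (nat_lit 9),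
 (nat_lit 1), (4, 7, 3), [730, 894], 11⟩,
  ⟨⟨15, -4, -23, -10, 9, -10, 12, 12, -7⟩, (.cons (nat_lit 2704) (nat_lit 4284) (nat_lit 599) (nat_lit 1)
 (.cons (nat_lit 3215) (nat_lit 4759) (nat_lit 3275) (nat_lit 1) .nil)), (nat_lit 19), (nat_lit 28), (nat_lit
 25), (nat_lit 1), (18, 7, 3), [1854, 322], 19⟩,
  ⟨⟨15, -4, -23, -10, 9, -10, 12, 12, -7⟩, (.cons (nat_lit 2704) (nat_lit 4284) (nat_lit 599) (nat_lit 1)
 (.cons (nat_lit 3215) (nat_lit 4759) (nat_lit 3275) (nat_lit 1) .nil)), (nat_lit 19), (nat_lit 28), (nat_lit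
 25), (nat_lit 1), (18, 7, 3), [1854, 322], 19⟩,
  ⟨⟨-3, 16, 16, 10, -9, 10, 12, 12, -7⟩, (.cons (nat_lit 3484) (nat_lit 2313) (nat_lit 3503) (nat_lit 1) (.cons
 (nat_lit 5040) (nat_lit 2264) (nat_lit 862) (nat_lit 1) .nil)), (nat_lit 30), (nat_lit 26), (nat_lit 4),
 (nat_lit 1), (4, 12, 3), [1524, 1785], 20⟩]

/-- Moves. -/
noncomputable def t0_2 : List Mv := [
  ⟨⟨-11, 12, 20, 16, 5, 2, -2, 16, -5⟩, (.cons (nat_lit 4824) (nat_lit 515) (nat_lit 4935) (nat_lit 1) (.cons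
 (nat_lit 4299) (nat_lit 715) (nat_lit 4516) (nat_lit 1) .nil)), (nat_lit 19), (nat_lit 20), (nat_lit 17),
 (nat_lit 1), (15, 11, 1), [1129, 135], 8⟩,
  ⟨⟨9, 4, -25, -16, -5, -2, -2, 16, -5⟩, (.cons (nat_lit 3523) (nat_lit 4623) (nat_lit 626) (nat_lit 1) (.cons
 (nat_lit 3668) (nat_lit 2922) (nat_lit 803) (nat_lit 1) .nil)), (nat_lit 5), (nat_lit 24), (nat_lit 18),
 (nat_lit 1), (5, 8, 1), [4023, 768], 9⟩,
  ⟨⟨9, 4, -25, 16, 5, 2, -2, 16, -5⟩, (.cons (nat_lit 1758) (nat_lit 6674) (nat_lit 1679) (nat_lit 1) (.cons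
 (nat_lit 2542) (nat_lit 2339) (nat_lit 2425) (nat_lit 1) .nil)), (nat_lit 15), (nat_lit 19), (nat_lit 15),
 (nat_lit 1), (5, 11, 1), [3141, 5039], 15⟩,
  ⟨⟨9, 4, -25, -16, -5, -2, -2, 16, -5⟩, (.cons (nat_lit 3523) (nat_lit 4623) (nat_lit 626) (nat_lit 1) (.cons
 (nat_lit 3668) (nat_lit 2922) (nat_lit 803) (nat_lit 1) .nil)), (nat_lit 5), (nat_lit 24), (nat_lit 18),
 (nat_lit 1), (5, 8, 1), [4023, 768], 9⟩,
  ⟨⟨9, 4, -25, -16, -5, -2, -2, 16, -5⟩, (.cons (nat_lit 3523) (nat_lit 4623) (nat_lit 626) (nat_lit 1) (.cons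
 (nat_lit 3668) (nat_lit 2922) (nat_lit 803) (nat_lit 1) .nil)), (nat_lit 5), (nat_lit 24), (nat_lit 18),
 (nat_lit 1), (5, 8, 1), [4023, 768], 9⟩,
  ⟨⟨9, 4, -25, 16, 5, 2, -2, 16, -5⟩, (.cons (nat_lit 1758) (nat_lit 6674) (nat_lit 1679) (nat_lit 1) (.cons
 (nat_lit 2542) (nat_lit 2339) (nat_lit 2425) (nat_lit 1) .nil)), (nat_lit 15), (nat_lit 19), (nat_lit 15),
 (nat_lit 1), (5, 11, 1), [3141, 5039], 15⟩,
  ⟨⟨-11, 12, 20, 16, 5, 2, -2, 16, -5⟩, (.cons (nat_lit 4824) (nat_lit 515) (nat_lit 4935) (nat_lit 1) (.cons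
 (nat_lit 4299) (nat_lit 715) (nat_lit 4516) (nat_lit 1) .nil)), (nat_lit 19), (nat_lit 20), (nat_lit 17),
 (nat_lit 1), (15, 11, 1), [1129, 135], 8⟩,
  ⟨⟨-11, 12, 20, -16, -5, -2, -2, 16, -5⟩, (.cons (nat_lit 830) (nat_lit 6090) (nat_lit 5835) (nat_lit 1)
 (.cons (nat_lit 4730) (nat_lit 4619) (nat_lit 3376) (nat_lit 1) .nil)), (nat_lit 20), (nat_lit 22), (nat_lit
 22), (nat_lit 1), (15, 8, 1), [4700, 2270], 12⟩,
  ⟨⟨9, 4, -25, -16, -5, -2, -2, 16, -5⟩, (.cons (nat_lit 3523) (nat_lit 4623) (nat_lit 626) (nat_lit 1) (.cons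
 (nat_lit 3668) (nat_lit 2922) (nat_lit 803) (nat_lit 1) .nil)), (nat_lit 5), (nat_lit 24), (nat_lit 18),
 (nat_lit 1), (5, 8, 1), [4023, 768], 9⟩,
  ⟨⟨9, 4, -25, -16, -5, -2, -2, 16, -5⟩, (.cons (nat_lit 3523) (nat_lit 4623) (nat_lit 626) (nat_lit 1) (.cons
 (nat_lit 3668) (nat_lit 2922) (nat_lit 803) (nat_lit 1) .nil)), (nat_lit 5), (nat_lit 24), (nat_lit 18),
 (nat_lit 1), (5, 8, 1), [4023, 768], 9⟩,
  ⟨⟨9, 4, -25, -16, -5, -2, -2, 16, -5⟩, (.cons (nat_lit 3523) (nat_lit 4623) (nat_lit 626) (nat_lit 1) (.cons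
 (nat_lit 3668) (nat_lit 2922) (nat_lit 803) (nat_lit 1) .nil)), (nat_lit 5), (nat_lit 24), (nat_lit 18),
 (nat_lit 1), (5, 8, 1), [4023, 768], 9⟩,
  ⟨⟨9, 4, -25, -16, -5, -2, -2, 16, -5⟩, (.cons (nat_lit 3523) (nat_lit 4623) (nat_lit 626) (nat_lit 1) (.cons
 (nat_lit 3668) (nat_lit 2922) (nat_lit 803) (nat_lit 1) .nil)), (nat_lit 5), (nat_lit 24), (nat_lit 18),
 (nat_lit 1), (5, 8, 1), [4023, 768], 9⟩,
  ⟨⟨9, 4, -25, -16, -5, -2, -2, 16, -5⟩, (.cons (nat_lit 3523) (nat_lit 4623) (nat_lit 626) (nat_lit 1) (.cons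
 (nat_lit 3668) (nat_lit 2922) (nat_lit 803) (nat_lit 1) .nil)), (nat_lit 5), (nat_lit 24), (nat_lit 18),
 (nat_lit 1), (5, 8, 1), [4023, 768], 9⟩,
  ⟨⟨-11, 12, 20, -16, -5, -2, -2, 16, -5⟩, (.cons (nat_lit 830) (nat_lit 6090) (nat_lit 5835) (nat_lit 1)
 (.cons (nat_lit 4730) (nat_lit 4619) (nat_lit 3376) (nat_lit 1) .nil)), (nat_lit 20), (nat_lit 22), (nat_lit
 22), (nat_lit 1), (15, 8, 1), [4700, 2270], 12⟩,
  ⟨⟨9, 4, -25, -16, -5, -2, -2, 16, -5⟩, (.cons (nat_lit 3523) (nat_lit 4623) (nat_lit 626) (nat_lit 1) (.cons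
 (nat_lit 3668) (nat_lit 2922) (nat_lit 803) (nat_lit 1) .nil)), (nat_lit 5), (nat_lit 24), (nat_lit 18),
 (nat_lit 1), (5, 8, 1), [4023, 768], 9⟩,
  ⟨⟨9, 4, -25, 16, 5, 2, -2, 16, -5⟩, (.cons (nat_lit 1758) (nat_lit 6674) (nat_lit 1679) (nat_lit 1) (.cons
 (nat_lit 2542) (nat_lit 2339) (nat_lit 2425) (nat_lit 1) .nil)), (nat_lit 15), (nat_lit 19), (nat_lit 15),
 (nat_lit 1), (5, 11, 1), [3141, 5039], 15⟩,
  ⟨⟨-11, 12, 20, -16, -5, -2, -2, 16, -5⟩, (.cons (nat_lit 830) (nat_lit 6090) (nat_lit 5835) (nat_lit 1)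
 (.cons (nat_lit 4730) (nat_lit 4619) (nat_lit 3376) (nat_lit 1) .nil)), (nat_lit 20), (nat_lit 22), (nat_lit
 22), (nat_lit 1), (15, 8, 1), [4700, 2270], 12⟩,
  ⟨⟨9, 4, -25, -16, -5, -2, -2, 16, -5⟩, (.cons (nat_lit 3523) (nat_lit 4623) (nat_lit 626) (nat_lit 1) (.cons
 (nat_lit 3668) (nat_lit 2922) (nat_lit 803) (nat_lit 1) .nil)), (nat_lit 5), (nat_lit 24), (nat_lit 18),
 (nat_lit 1), (5, 8, 1), [4023, 768], 9⟩,
  ⟨⟨9, 4, -25, -16, -5, -2, -2, 16, -5⟩, (.cons (nat_lit 3523) (nat_lit 4623) (nat_lit 626) (nat_lit 1) (.cons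
 (nat_lit 3668) (nat_lit 2922) (nat_lit 803) (nat_lit 1) .nil)), (nat_lit 5), (nat_lit 24), (nat_lit 18),
 (nat_lit 1), (5, 8, 1), [4023, 768], 9⟩]

/-- Moves. -/
noncomputable def t0_8 : List Mv := [
  ⟨⟨17, -12, -9, -4, -5, -18, 14, 8, -13⟩, (.cons (nat_lit 5482) (nat_lit 4807) (nat_lit 6848) (nat_lit 1)
 (.cons (nat_lit 3242) (nat_lit 565) (nat_lit 1079) (nat_lit 1) .nil)), (nat_lit 5), (nat_lit 9), (nat_lit 17),
 (nat_lit 1), (9, 18, 13), [3487, 2259], 9⟩,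
  ⟨⟨17, -12, -9, -4, -5, -18, 14, 8, -13⟩, (.cons (nat_lit 5482) (nat_lit 4807) (nat_lit 6848) (nat_lit 1)
 (.cons (nat_lit 3242) (nat_lit 565) (nat_lit 1079) (nat_lit 1) .nil)), (nat_lit 5), (nat_lit 9), (nat_lit 17),
 (nat_lit 1), (9, 18, 13), [3487, 2259], 9⟩,
  ⟨⟨17, -12, -9, -4, -5, -18, 14, 8, -13⟩, (.cons (nat_lit 5482) (nat_lit 4807) (nat_lit 6848) (nat_lit 1)
 (.cons (nat_lit 3242) (nat_lit 565) (nat_lit 1079) (nat_lit 1) .nil)), (nat_lit 5), (nat_lit 9), (nat_lit 17),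
 (nat_lit 1), (9, 18, 13), [3487, 2259], 9⟩,
  ⟨⟨-3, 20, -4, -4, -5, -18, 14, 8, -13⟩, (.cons (nat_lit 2266) (nat_lit 1073) (nat_lit 5235) (nat_lit 1)
 (.cons (nat_lit 786) (nat_lit 1910) (nat_lit 660) (nat_lit 1) .nil)), (nat_lit 5), (nat_lit 10), (nat_lit 27),
 (nat_lit 1), (4, 18, 13), [4227, 1798], 13⟩,
  ⟨⟨-3, 20, -4, 4, 5, 18, 14, 8, -13⟩, (.cons (nat_lit 5132) (nat_lit 2304) (nat_lit 1) (nat_lit 6783) (.cons
 (nat_lit 4382) (nat_lit 2372) (nat_lit 1854) (nat_lit 1) .nil)), (nat_lit 18), (nat_lit 12), (nat_lit 4),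
 (nat_lit 1), (4, 1, 13), [5486, 1105], 19⟩,
  ⟨⟨17, -12, -9, -4, -5, -18, 14, 8, -13⟩, (.cons (nat_lit 5482) (nat_lit 4807) (nat_lit 6848) (nat_lit 1)
 (.cons (nat_lit 3242) (nat_lit 565) (nat_lit 1079) (nat_lit 1) .nil)), (nat_lit 5), (nat_lit 9), (nat_lit 17),
 (nat_lit 1), (9, 18, 13), [3487, 2259], 9⟩,
  ⟨⟨17, -12, -9, -4, -5, -18, 14, 8, -13⟩, (.cons (nat_lit 5482) (nat_lit 4807) (nat_lit 6848) (nat_lit 1)
 (.cons (nat_lit 3242) (nat_lit 565) (nat_lit 1079) (nat_lit 1) .nil)), (nat_lit 5), (nat_lit 9), (nat_lit 17),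
 (nat_lit 1), (9, 18, 13), [3487, 2259], 9⟩,
  ⟨⟨17, -12, -9, -4, -5, -18, 14, 8, -13⟩, (.cons (nat_lit 5482) (nat_lit 4807) (nat_lit 6848) (nat_lit 1)
 (.cons (nat_lit 3242) (nat_lit 565) (nat_lit 1079) (nat_lit 1) .nil)), (nat_lit 5), (nat_lit 9), (nat_lit 17),
 (nat_lit 1), (9, 18, 13), [3487, 2259], 9⟩,
  ⟨⟨17, -12, -9, 4, 5, 18, 14, 8, -13⟩, (.cons (nat_lit 1356) (nat_lit 6265) (nat_lit 1738) (nat_lit 1) (.cons
 (nat_lit 1255) (nat_lit 4668) (nat_lit 4878) (nat_lit 1) .nil)), (nat_lit 25), (nat_lit 17), (nat_lit 16),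
 (nat_lit 1), (9, 1, 13), [1981, 2152], 12⟩,
  ⟨⟨17, -12, -9, -4, -5, -18, 14, 8, -13⟩, (.cons (nat_lit 5482) (nat_lit 4807) (nat_lit 6848) (nat_lit 1)
 (.cons (nat_lit 3242) (nat_lit 565) (nat_lit 1079) (nat_lit 1) .nil)), (nat_lit 5), (nat_lit 9), (nat_lit 17),
 (nat_lit 1), (9, 18, 13), [3487, 2259], 9⟩,
  ⟨⟨17, -12, -9, -4, -5, -18, 14, 8, -13⟩, (.cons (nat_lit 5482) (nat_lit 4807) (nat_lit 6848) (nat_lit 1)
 (.cons (nat_lit 3242) (nat_lit 565) (nat_lit 1079) (nat_lit 1) .nil)), (nat_lit 5), (nat_lit 9), (nat_lit 17),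
 (nat_lit 1), (9, 18, 13), [3487, 2259], 9⟩,
  ⟨⟨17, -12, -9, -4, -5, -18, 14, 8, -13⟩, (.cons (nat_lit 5482) (nat_lit 4807) (nat_lit 6848) (nat_lit 1)
 (.cons (nat_lit 3242) (nat_lit 565) (nat_lit 1079) (nat_lit 1) .nil)), (nat_lit 5), (nat_lit 9), (nat_lit 17),
 (nat_lit 1), (9, 18, 13), [3487, 2259], 9⟩,
  ⟨⟨17, -12, -9, -4, -5, -18, 14, 8, -13⟩, (.cons (nat_lit 5482) (nat_lit 4807) (nat_lit 6848) (nat_lit 1)
 (.cons (nat_lit 3242) (nat_lit 565) (nat_lit 1079) (nat_lit 1) .nil)), (nat_lit 5), (nat_lit 9), (nat_lit 17),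
 (nat_lit 1), (9, 18, 13), [3487, 2259], 9⟩,
  ⟨⟨-3, 20, -4, -4, -5, -18, 14, 8, -13⟩, (.cons (nat_lit 2266) (nat_lit 1073) (nat_lit 5235) (nat_lit 1)
 (.cons (nat_lit 786) (nat_lit 1910) (nat_lit 660) (nat_lit 1) .nil)), (nat_lit 5), (nat_lit 10), (nat_lit 27),
 (nat_lit 1), (4, 18, 13), [4227, 1798], 13⟩,
  ⟨⟨-3, 20, -4, 4, 5, 18, 14, 8, -13⟩, (.cons (nat_lit 5132) (nat_lit 2304) (nat_lit 1) (nat_lit 6783) (.cons
 (nat_lit 4382) (nat_lit 2372) (nat_lit 1854) (nat_lit 1) .nil)), (nat_lit 18), (nat_lit 12), (nat_lit 4),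
 (nat_lit 1), (4, 1, 13), [5486, 1105], 19⟩,
  ⟨⟨17, -12, -9, 4, 5, 18, 14, 8, -13⟩, (.cons (nat_lit 1356) (nat_lit 6265) (nat_lit 1738) (nat_lit 1) (.cons
 (nat_lit 1255) (nat_lit 4668) (nat_lit 4878) (nat_lit 1) .nil)), (nat_lit 25), (nat_lit 17), (nat_lit 16),
 (nat_lit 1), (9, 1, 13), [1981, 2152], 12⟩,
  ⟨⟨17, -12, -9, 4, 5, 18, 14, 8, -13⟩, (.cons (nat_lit 1356) (nat_lit 6265) (nat_lit 1738) (nat_lit 1) (.cons
 (nat_lit 1255) (nat_lit 4668) (nat_lit 4878) (nat_lit 1) .nil)), (nat_lit 25), (nat_lit 17), (nat_lit 16),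
 (nat_lit 1), (9, 1, 13), [1981, 2152], 12⟩,
  ⟨⟨17, -12, -9, -4, -5, -18, 14, 8, -13⟩, (.cons (nat_lit 5482) (nat_lit 4807) (nat_lit 6848) (nat_lit 1)
 (.cons (nat_lit 3242) (nat_lit 565) (nat_lit 1079) (nat_lit 1) .nil)), (nat_lit 5), (nat_lit 9), (nat_lit 17),
 (nat_lit 1), (9, 18, 13), [3487, 2259], 9⟩,
  ⟨⟨-3, 20, -4, -4, -5, -18, 14, 8, -13⟩, (.cons (nat_lit 2266) (nat_lit 1073) (nat_lit 5235) (nat_lit 1)
 (.cons (nat_lit 786) (nat_lit 1910) (nat_lit 660) (nat_lit 1) .nil)), (nat_lit 5), (nat_lit 10), (nat_lit 27),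
 (nat_lit 1), (4, 18, 13), [4227, 1798], 13⟩]

/-- Moves. -/
noncomputable def t1_1 : List Mv := [
  mz,
  ⟨⟨-75, 20, 43, -10, -21, -70, -12, 60, -13⟩, (.cons (nat_lit 4123) (nat_lit 6636) (nat_lit 6363) (nat_lit 1)
 (.cons (nat_lit 2183) (nat_lit 3088) (nat_lit 4696) (nat_lit 1) .nil)), (nat_lit 5), (nat_lit 18), (nat_lit
 5), (nat_lit 1), (51, 21, 11), [1817, 1149], 21⟩,
  mz,
  ⟨⟨-75, -16, 23, 4, -55, 48, -10, -40, -49⟩, (.cons (nat_lit 2487) (nat_lit 2449) (nat_lit 2277) (nat_lit 1)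
 (.cons (nat_lit 4556) (nat_lit 4347) (nat_lit 4666) (nat_lit 1) .nil)), (nat_lit 29), (nat_lit 19), (nat_lit
 7), (nat_lit 1), (1, 70, 38), [2183, 3644], 6⟩,
  ⟨⟨27, 68, 16, -64, 15, 62, -6, 48, -43⟩, (.cons (nat_lit 991) (nat_lit 2039) (nat_lit 2160) (nat_lit 1)
 (.cons (nat_lit 2872) (nat_lit 2985) (nat_lit 1602) (nat_lit 1) .nil)), (nat_lit 22), (nat_lit 12), (nat_lit
 27), (nat_lit 1), (60, 55, 34), [4318, 230], 21⟩,
  ⟨⟨27, -68, 16, 64, 15, -62, -6, -48, -43⟩, (.cons (nat_lit 3577) (nat_lit 3533) (nat_lit 249) (nat_lit 1)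
 (.cons (nat_lit 3930) (nat_lit 94) (nat_lit 1419) (nat_lit 1) .nil)), (nat_lit 3), (nat_lit 25), (nat_lit 5),
 (nat_lit 1), (7, 35, 30), [1669, 3431], 13⟩,
  mz,
  ⟨⟨-29, 72, 20, 56, 25, -68, -38, 16, -35⟩, (.cons (nat_lit 2611) (nat_lit 4095) (nat_lit 1) (nat_lit 3686)
 (.cons (nat_lit 4898) (nat_lit 188) (nat_lit 3186) (nat_lit 1) .nil)), (nat_lit 26), (nat_lit 23), (nat_lit
 7), (nat_lit 1), (33, 44, 31), [4401, 768], 25⟩,
  ⟨⟨3, 40, -76, 64, 25, -12, 26, -32, -67⟩, (.cons (nat_lit 3800) (nat_lit 5276) (nat_lit 4852) (nat_lit 1)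
 (.cons (nat_lit 4214) (nat_lit 2664) (nat_lit 2164) (nat_lit 1) .nil)), (nat_lit 6), (nat_lit 17), (nat_lit
 20), (nat_lit 1), (14, 62, 3), [1481, 1181], 1⟩,
  mz,
  mz,
  ⟨⟨33, -20, -92, -64, -15, 2, 6, 48, -49⟩, (.cons (nat_lit 33) (nat_lit 4349) (nat_lit 4381) (nat_lit 1)
 (.cons (nat_lit 676) (nat_lit 4101) (nat_lit 1940) (nat_lit 1) .nil)), (nat_lit 10), (nat_lit 29), (nat_lit
 9), (nat_lit 1), (67, 68, 38), [960, 4475], 4⟩,
  ⟨⟨9, 76, -20, 44, -15, -82, -42, 24, -25⟩, (.cons (nat_lit 4185) (nat_lit 5833) (nat_lit 3589) (nat_lit 1)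
 (.cons (nat_lit 2203) (nat_lit 4103) (nat_lit 2733) (nat_lit 1) .nil)), (nat_lit 21), (nat_lit 28), (nat_lit
 20), (nat_lit 1), (31, 49, 21), [1989, 4929], 16⟩,
  mz,
  mz,
  ⟨⟨51, -52, -56, -44, -15, -38, 42, 24, -67⟩, (.cons (nat_lit 6379) (nat_lit 3573) (nat_lit 5773) (nat_lit 1)
 (.cons (nat_lit 2153) (nat_lit 1733) (nat_lit 1524) (nat_lit 1) .nil)), (nat_lit 10), (nat_lit 20), (nat_lit
 27), (nat_lit 1), (24, 67, 49), [1359, 2545], 4⟩,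
  ⟨⟨17, 24, -89, -36, -55, -12, 54, -24, -53⟩, (.cons (nat_lit 6135) (nat_lit 3802) (nat_lit 1) (nat_lit 5244)
 (.cons (nat_lit 2888) (nat_lit 4686) (nat_lit 1661) (nat_lit 1) .nil)), (nat_lit 29), (nat_lit 20), (nat_lit
 16), (nat_lit 1), (7, 52, 64), [6317, 2295], 15⟩,
  mz,
  ⟨⟨9, 56, -64, 56, 25, 12, 38, -16, -73⟩, (.cons (nat_lit 5339) (nat_lit 5730) (nat_lit 6318) (nat_lit 1)
 (.cons (nat_lit 4338) (nat_lit 3929) (nat_lit 458) (nat_lit 1) .nil)), (nat_lit 6), (nat_lit 10), (nat_lit 3),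
 (nat_lit 1), (56, 25, 55), [5262, 4493], 1⟩,
  ⟨⟨39, 40, -80, -44, 55, 32, -22, -8, -55⟩, (.cons (nat_lit 2341) (nat_lit 5789) (nat_lit 2752) (nat_lit 1)
 (.cons (nat_lit 3096) (nat_lit 1564) (nat_lit 3237) (nat_lit 1) .nil)), (nat_lit 4), (nat_lit 19), (nat_lit
 21), (nat_lit 1), (28, 3, 37), [5003, 3449], 21⟩,
  mz,
  mz,
  ⟨⟨17, -24, 72, 36, -55, -48, 54, 24, -1⟩, (.cons (nat_lit 2286) (nat_lit 5807) (nat_lit 4883) (nat_lit 1)
 (.cons (nat_lit 808) (nat_lit 4357) (nat_lit 825) (nat_lit 1) .nil)), (nat_lit 12), (nat_lit 17), (nat_lit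
 17), (nat_lit 1), (28, 5, 43), [5119, 516], 18⟩,
  ⟨⟨39, -40, -80, 44, 55, -32, -22, 8, -55⟩, (.cons (nat_lit 2133) (nat_lit 5122) (nat_lit 1288) (nat_lit 1)
 (.cons (nat_lit 2564) (nat_lit 1734) (nat_lit 3102) (nat_lit 1) .nil)), (nat_lit 8), (nat_lit 3), (nat_lit
 18), (nat_lit 1), (1, 43, 14), [1860, 2598], 11⟩,
  ⟨⟨-39, 40, -41, 44, 55, -12, 22, -8, -77⟩, (.cons (nat_lit 1410) (nat_lit 202) (nat_lit 5984) (nat_lit 1)
 (.cons (nat_lit 2593) (nat_lit 4782) (nat_lit 1471) (nat_lit 1) .nil)), (nat_lit 4), (nat_lit 18), (nat_lit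
 5), (nat_lit 1), (2, 56, 28), [1364, 466], 1⟩,
  mz,
  ⟨⟨51, -4, 40, 10, -69, -20, 60, 12, -49⟩, (.cons (nat_lit 1971) (nat_lit 2588) (nat_lit 911) (nat_lit 1)
 (.cons (nat_lit 4832) (nat_lit 4434) (nat_lit 3130) (nat_lit 1) .nil)), (nat_lit 6), (nat_lit 12), (nat_lit
 1), (nat_lit 0), (60, 41, 33), [2228, 4285], 16⟩,
  mz,
  mz,
  ⟨⟨-13, -72, 36, -70, 11, 30, -4, -44, -49⟩, (.cons (nat_lit 1813) (nat_lit 3509) (nat_lit 6027) (nat_lit 1)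
 (.cons (nat_lit 2555) (nat_lit 103) (nat_lit 3441) (nat_lit 1) .nil)), (nat_lit 18), (nat_lit 14), (nat_lit
 25), (nat_lit 1), (29, 36, 69), [3070, 1002], 19⟩,
  mz,
  ⟨⟨-11, 72, -25, -50, 11, 80, -44, 4, -29⟩, (.cons (nat_lit 317) (nat_lit 5358) (nat_lit 566) (nat_lit 1)
 (.cons (nat_lit 5028) (nat_lit 4980) (nat_lit 2710) (nat_lit 1) .nil)), (nat_lit 2), (nat_lit 6), (nat_lit 8),
 (nat_lit 1), (44, 58, 34), [3789, 1056], 11⟩,
  mz,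
  ⟨⟨-29, -72, 20, 56, -25, -68, -38, -16, -35⟩, (.cons (nat_lit 5994) (nat_lit 4623) (nat_lit 2132) (nat_lit 1)
 (.cons (nat_lit 1527) (nat_lit 1751) (nat_lit 4229) (nat_lit 1) .nil)), (nat_lit 12), (nat_lit 16), (nat_lit
 17), (nat_lit 1), (27, 36, 6), [2965, 3264], 15⟩,
  ⟨⟨-63, 40, 7, 10, -21, -80, 12, 60, -25⟩, (.cons (nat_lit 3634) (nat_lit 3969) (nat_lit 6514) (nat_lit 1)
 (.cons (nat_lit 3531) (nat_lit 156) (nat_lit 4966) (nat_lit 1) .nil)), (nat_lit 11), (nat_lit 6), (nat_lit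
 12), (nat_lit 1), (60, 4, 19), [1439, 4933], 22⟩,
  mz,
  ⟨⟨3, -40, -76, 64, -25, -12, 26, 32, -67⟩, (.cons (nat_lit 472) (nat_lit 198) (nat_lit 2502) (nat_lit 1)
 (.cons (nat_lit 554) (nat_lit 3966) (nat_lit 2625) (nat_lit 1) .nil)), (nat_lit 7), (nat_lit 19), (nat_lit
 24), (nat_lit 1), (58, 54, 53), [947, 531], 11⟩,
  mz,
  ⟨⟨17, -24, -89, 36, -55, 12, 54, 24, -53⟩, (.cons (nat_lit 4553) (nat_lit 1573) (nat_lit 1) (nat_lit 6460)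
 (.cons (nat_lit 2704) (nat_lit 2777) (nat_lit 491) (nat_lit 1) .nil)), (nat_lit 29), (nat_lit 8), (nat_lit 9),
 (nat_lit 1), (5, 44, 66), [381, 4774], 15⟩,
  ⟨⟨-3, 40, -73, -64, 25, 52, -26, -32, -41⟩, (.cons (nat_lit 5835) (nat_lit 2613) (nat_lit 442) (nat_lit 1)
 (.cons (nat_lit 793) (nat_lit 2177) (nat_lit 4708) (nat_lit 1) .nil)), (nat_lit 1), (nat_lit 30), (nat_lit
 18), (nat_lit 1), (12, 43, 33), [5935, 170], 15⟩,
  mz,
  mz,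
  ⟨⟨75, 16, -52, 4, -55, -52, 10, 40, -59⟩, (.cons (nat_lit 4691) (nat_lit 2663) (nat_lit 986) (nat_lit 1)
 (.cons (nat_lit 4002) (nat_lit 1655) (nat_lit 398) (nat_lit 1) .nil)), (nat_lit 29), (nat_lit 8), (nat_lit
 18), (nat_lit 1), (5, 5, 48), [5471, 642], 19⟩,
  ⟨⟨11, -72, -36, 50, -11, 30, 44, -4, -73⟩, (.cons (nat_lit 133) (nat_lit 6718) (nat_lit 3817) (nat_lit 1)
 (.cons (nat_lit 1061) (nat_lit 4269) (nat_lit 1309) (nat_lit 1) .nil)), (nat_lit 14), (nat_lit 8), (nat_lit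
 23), (nat_lit 1), (69, 49, 63), [3777, 1632], 11⟩,
  ⟨⟨-39, -40, -41, 44, -55, -12, 22, 8, -77⟩, (.cons (nat_lit 4918) (nat_lit 3444) (nat_lit 960) (nat_lit 1)
 (.cons (nat_lit 3645) (nat_lit 3408) (nat_lit 2591) (nat_lit 1) .nil)), (nat_lit 10), (nat_lit 12), (nat_lit
 25), (nat_lit 1), (46, 10, 5), [1255, 4733], 6⟩,
  mz,
  ⟨⟨51, 52, -56, -44, 15, -38, 42, -24, -67⟩, (.cons (nat_lit 6673) (nat_lit 5533) (nat_lit 5160) (nat_lit 1)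
 (.cons (nat_lit 41) (nat_lit 2210) (nat_lit 3118) (nat_lit 1) .nil)), (nat_lit 21), (nat_lit 2), (nat_lit 19),
 (nat_lit 1), (52, 15, 47), [1662, 4733], 29⟩,
  ⟨⟨9, -16, 80, 10, 69, 10, 60, -12, -11⟩, (.cons (nat_lit 4574) (nat_lit 4458) (nat_lit 3103) (nat_lit 1)
 (.cons (nat_lit 1300) (nat_lit 2298) (nat_lit 2964) (nat_lit 1) .nil)), (nat_lit 8), (nat_lit 11), (nat_lit
 1), (nat_lit 0), (33, 13, 7), [5904, 4622], 6⟩,
  ⟨⟨9, -16, -89, -10, -69, 20, 60, -12, -49⟩, (.cons (nat_lit 1516) (nat_lit 87) (nat_lit 1375) (nat_lit 1)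
 (.cons (nat_lit 3729) (nat_lit 1199) (nat_lit 1664) (nat_lit 1) .nil)), (nat_lit 13), (nat_lit 13), (nat_lit
 26), (nat_lit 1), (19, 42, 32), [4041, 212], 11⟩,
  ⟨⟨9, -56, -64, -56, 25, -12, 38, 16, -73⟩, (.cons (nat_lit 1399) (nat_lit 2930) (nat_lit 176) (nat_lit 1)
 (.cons (nat_lit 1617) (nat_lit 4009) (nat_lit 3515) (nat_lit 1) .nil)), (nat_lit 0), (nat_lit 25), (nat_lit
 17), (nat_lit 1), (4, 54, 9), [3365, 4618], 19⟩,
  ⟨⟨65, 24, -72, -4, -55, -48, -10, 40, -49⟩, (.cons (nat_lit 93) (nat_lit 6370) (nat_lit 2598) (nat_lit 1)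
 (.cons (nat_lit 533) (nat_lit 4828) (nat_lit 4201) (nat_lit 1) .nil)), (nat_lit 29), (nat_lit 9), (nat_lit
 16), (nat_lit 1), (39, 26, 65), [3856, 3089], 19⟩,
  ⟨⟨9, -76, -20, -44, -15, 82, -42, -24, -25⟩, (.cons (nat_lit 4157) (nat_lit 1531) (nat_lit 5687) (nat_lit 1)
 (.cons (nat_lit 4677) (nat_lit 4904) (nat_lit 4995) (nat_lit 1) .nil)), (nat_lit 28), (nat_lit 25), (nat_lit
 27), (nat_lit 1), (1, 3, 19), [5575, 3416], 5⟩,
  mz,
  ⟨⟨13, -72, 23, 70, 11, -40, 4, -44, -53⟩, (.cons (nat_lit 1970) (nat_lit 1416) (nat_lit 2831) (nat_lit 1)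
 (.cons (nat_lit 4841) (nat_lit 1750) (nat_lit 2908) (nat_lit 1) .nil)), (nat_lit 2), (nat_lit 4), (nat_lit
 12), (nat_lit 1), (14, 59, 48), [521, 2831], 11⟩,
  ⟨⟨9, 16, 80, -10, 69, -10, 60, 12, -11⟩, (.cons (nat_lit 5145) (nat_lit 86) (nat_lit 2817) (nat_lit 1) (.cons
 (nat_lit 4177) (nat_lit 2304) (nat_lit 3089) (nat_lit 1) .nil)), (nat_lit 0), (nat_lit 18), (nat_lit 27),
 (nat_lit 1), (58, 46, 8), [3321, 28], 3⟩,
  ⟨⟨-63, -40, 7, 10, 21, -80, 12, -60, -25⟩, (.cons (nat_lit 4373) (nat_lit 5006) (nat_lit 4818) (nat_lit 1)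
 (.cons (nat_lit 31) (nat_lit 3328) (nat_lit 440) (nat_lit 1) .nil)), (nat_lit 19), (nat_lit 23), (nat_lit 21),
 (nat_lit 1), (33, 59, 14), [4736, 2642], 9⟩,
  mz,
  ⟨⟨-11, -72, -25, 50, 11, -80, -44, -4, -29⟩, (.cons (nat_lit 2725) (nat_lit 5293) (nat_lit 3948) (nat_lit 1)
 (.cons (nat_lit 4149) (nat_lit 3936) (nat_lit 2726) (nat_lit 1) .nil)), (nat_lit 17), (nat_lit 6), (nat_lit
 5), (nat_lit 1), (38, 8, 10), [5390, 3180], 24⟩,
  ⟨⟨-75, -20, 43, -10, 21, -70, -12, -60, -13⟩, (.cons (nat_lit 4649) (nat_lit 6552) (nat_lit 2612) (nat_lit 1)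
 (.cons (nat_lit 2500) (nat_lit 553) (nat_lit 252) (nat_lit 1) .nil)), (nat_lit 18), (nat_lit 20), (nat_lit
 25), (nat_lit 1), (2, 5, 6), [4911, 4292], 2⟩,
  mz,
  mz,
  mz,
  ⟨⟨33, -68, -37, -50, -11, -30, 44, 4, -73⟩, (.cons (nat_lit 5770) (nat_lit 3888) (nat_lit 6709) (nat_lit 1)
 (.cons (nat_lit 1677) (nat_lit 212) (nat_lit 1812) (nat_lit 1) .nil)), (nat_lit 16), (nat_lit 24), (nat_lit
 5), (nat_lit 1), (12, 27, 16), [4406, 649], 25⟩,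
  mz,
  ⟨⟨-13, 72, 36, 70, 11, -30, -4, 44, -49⟩, (.cons (nat_lit 3962) (nat_lit 2213) (nat_lit 1525) (nat_lit 1)
 (.cons (nat_lit 370) (nat_lit 1435) (nat_lit 3217) (nat_lit 1) .nil)), (nat_lit 9), (nat_lit 6), (nat_lit 25),
 (nat_lit 1), (35, 30, 49), [6673, 1531], 2⟩,
  ⟨⟨75, -16, -52, 4, 55, -52, 10, -40, -59⟩, (.cons (nat_lit 6858) (nat_lit 3492) (nat_lit 6374) (nat_lit 1)
 (.cons (nat_lit 321) (nat_lit 2803) (nat_lit 1402) (nat_lit 1) .nil)), (nat_lit 30), (nat_lit 14), (nat_lit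
 3), (nat_lit 1), (51, 51, 21), [5039, 2546], 15⟩,
  mz,
  ⟨⟨-27, -68, 43, -64, 15, 2, 6, -48, -49⟩, (.cons (nat_lit 1373) (nat_lit 4449) (nat_lit 1) (nat_lit 3154)
 (.cons (nat_lit 2185) (nat_lit 4004) (nat_lit 1148) (nat_lit 1) .nil)), (nat_lit 24), (nat_lit 12), (nat_lit
 21), (nat_lit 1), (60, 16, 34), [6342, 2985], 25⟩,
  ⟨⟨13, 72, 23, 70, -11, -40, 4, 44, -53⟩, (.cons (nat_lit 5783) (nat_lit 325) (nat_lit 5740) (nat_lit 1)
 (.cons (nat_lit 5039) (nat_lit 856) (nat_lit 4397) (nat_lit 1) .nil)), (nat_lit 15), (nat_lit 28), (nat_lit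
 21), (nat_lit 1), (20, 64, 28), [2702, 1793], 20⟩,
  ⟨⟨-23, 72, 32, 64, 25, -52, -26, 32, -41⟩, (.cons (nat_lit 4691) (nat_lit 991) (nat_lit 1) (nat_lit 3040)
 (.cons (nat_lit 4155) (nat_lit 2570) (nat_lit 4905) (nat_lit 1) .nil)), (nat_lit 26), (nat_lit 19), (nat_lit
 15), (nat_lit 1), (27, 36, 12), [5525, 805], 25⟩,
  ⟨⟨17, 24, 72, 36, 55, -48, 54, -24, -1⟩, (.cons (nat_lit 6858) (nat_lit 3326) (nat_lit 6158) (nat_lit 1)
 (.cons (nat_lit 2263) (nat_lit 3813) (nat_lit 3346) (nat_lit 1) .nil)), (nat_lit 30), (nat_lit 21), (nat_lit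
 7), (nat_lit 1), (30, 51, 41), [3690, 2305], 30⟩]

/-- Moves. -/
noncomputable def t1_2 : List Mv := [
  mz,
  ⟨⟨63, 40, -56, 10, 21, 70, -12, 60, -13⟩, (.cons (nat_lit 6858) (nat_lit 751) (nat_lit 741) (nat_lit 1)
 (.cons (nat_lit 4580) (nat_lit 4789) (nat_lit 4651) (nat_lit 1) .nil)), (nat_lit 30), (nat_lit 6), (nat_lit
 2), (nat_lit 1), (31, 50, 11), [3092, 2962], 24⟩,
  mz,
  ⟨⟨65, -24, -72, 4, -55, 48, -10, -40, -49⟩, (.cons (nat_lit 6564) (nat_lit 6643) (nat_lit 5061) (nat_lit 1)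
 (.cons (nat_lit 3683) (nat_lit 732) (nat_lit 1532) (nat_lit 1) .nil)), (nat_lit 15), (nat_lit 20), (nat_lit
 8), (nat_lit 1), (37, 70, 38), [5543, 1361], 28⟩,
  ⟨⟨-33, -20, -59, 64, -15, -62, -6, 48, -43⟩, (.cons (nat_lit 1033) (nat_lit 3422) (nat_lit 6508) (nat_lit 1)
 (.cons (nat_lit 1893) (nat_lit 4515) (nat_lit 1336) (nat_lit 1) .nil)), (nat_lit 26), (nat_lit 9), (nat_lit
 7), (nat_lit 1), (45, 16, 34), [391, 1111], 23⟩,
  ⟨⟨27, -68, 16, -64, -15, 62, -6, -48, -43⟩, (.cons (nat_lit 3701) (nat_lit 479) (nat_lit 6771) (nat_lit 1)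
 (.cons (nat_lit 3952) (nat_lit 3498) (nat_lit 4017) (nat_lit 1) .nil)), (nat_lit 28), (nat_lit 29), (nat_lit
 19), (nat_lit 1), (7, 36, 30), [4397, 1753], 5⟩,
  mz,
  ⟨⟨-9, -56, -55, 56, 25, -68, -38, 16, -35⟩, (.cons (nat_lit 4950) (nat_lit 1724) (nat_lit 121) (nat_lit 1)
 (.cons (nat_lit 4702) (nat_lit 4382) (nat_lit 3443) (nat_lit 1) .nil)), (nat_lit 1), (nat_lit 1), (nat_lit
 13), (nat_lit 1), (69, 44, 31), [662, 4893], 15⟩,
  ⟨⟨23, -72, 9, -64, -25, 12, 26, -32, -67⟩, (.cons (nat_lit 1601) (nat_lit 4653) (nat_lit 627) (nat_lit 1)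
 (.cons (nat_lit 2217) (nat_lit 2924) (nat_lit 2549) (nat_lit 1) .nil)), (nat_lit 14), (nat_lit 10), (nat_lit
 4), (nat_lit 1), (60, 9, 3), [1267, 4580], 14⟩,
  mz,
  mz,
  ⟨⟨33, -20, -92, 64, 15, -2, 6, 48, -49⟩, (.cons (nat_lit 6483) (nat_lit 4333) (nat_lit 3863) (nat_lit 1)
 (.cons (nat_lit 3059) (nat_lit 1467) (nat_lit 959) (nat_lit 1) .nil)), (nat_lit 21), (nat_lit 25), (nat_lit
 4), (nat_lit 1), (67, 3, 38), [6393, 2396], 29⟩,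
  ⟨⟨9, 76, -20, 44, -15, -82, -42, 24, -25⟩, (.cons (nat_lit 4185) (nat_lit 5833) (nat_lit 3589) (nat_lit 1)
 (.cons (nat_lit 2203) (nat_lit 4103) (nat_lit 2733) (nat_lit 1) .nil)), (nat_lit 21), (nat_lit 28), (nat_lit
 20), (nat_lit 1), (31, 49, 21), [1989, 4929], 16⟩,
  mz,
  mz,
  ⟨⟨51, -52, -56, 44, 15, 38, 42, 24, -67⟩, (.cons (nat_lit 1495) (nat_lit 3950) (nat_lit 1389) (nat_lit 1)
 (.cons (nat_lit 3815) (nat_lit 135) (nat_lit 865) (nat_lit 1) .nil)), (nat_lit 24), (nat_lit 22), (nat_lit 3),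
 (nat_lit 1), (24, 4, 49), [5462, 2058], 6⟩,
  ⟨⟨17, 24, -89, -36, -55, -12, 54, -24, -53⟩, (.cons (nat_lit 6135) (nat_lit 3802) (nat_lit 1) (nat_lit 5244)
 (.cons (nat_lit 2888) (nat_lit 4686) (nat_lit 1661) (nat_lit 1) .nil)), (nat_lit 29), (nat_lit 20), (nat_lit
 16), (nat_lit 1), (7, 52, 64), [6317, 2295], 15⟩,
  mz,
  ⟨⟨29, -72, -9, 56, 25, 12, 38, -16, -73⟩, (.cons (nat_lit 4258) (nat_lit 4899) (nat_lit 6684) (nat_lit 1)
 (.cons (nat_lit 3081) (nat_lit 1581) (nat_lit 2825) (nat_lit 1) .nil)), (nat_lit 1), (nat_lit 9), (nat_lit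
 29), (nat_lit 1), (70, 25, 55), [3028, 1959], 15⟩,
  ⟨⟨-61, -48, 25, 44, -55, -32, -22, -8, -55⟩, (.cons (nat_lit 3901) (nat_lit 2316) (nat_lit 2938) (nat_lit 1)
 (.cons (nat_lit 2149) (nat_lit 4607) (nat_lit 2684) (nat_lit 1) .nil)), (nat_lit 28), (nat_lit 22), (nat_lit
 10), (nat_lit 1), (9, 68, 37), [3551, 2507], 23⟩,
  mz,
  mz,
  ⟨⟨37, 48, -73, 36, -55, -48, 54, 24, -1⟩, (.cons (nat_lit 1972) (nat_lit 4805) (nat_lit 3189) (nat_lit 1)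
 (.cons (nat_lit 1931) (nat_lit 544) (nat_lit 1028) (nat_lit 1) .nil)), (nat_lit 11), (nat_lit 12), (nat_lit
 24), (nat_lit 1), (15, 5, 43), [178, 2791], 13⟩,
  ⟨⟨39, -40, -80, -44, -55, 32, -22, 8, -55⟩, (.cons (nat_lit 6858) (nat_lit 965) (nat_lit 5749) (nat_lit 1)
 (.cons (nat_lit 1539) (nat_lit 3630) (nat_lit 70) (nat_lit 1) .nil)), (nat_lit 30), (nat_lit 7), (nat_lit 12),
 (nat_lit 1), (1, 28, 14), [5846, 4530], 10⟩,
  ⟨⟨-39, 40, -41, 44, 55, -12, 22, -8, -77⟩, (.cons (nat_lit 1410) (nat_lit 202) (nat_lit 5984) (nat_lit 1)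
 (.cons (nat_lit 2593) (nat_lit 4782) (nat_lit 1471) (nat_lit 1) .nil)), (nat_lit 4), (nat_lit 18), (nat_lit
 5), (nat_lit 1), (2, 56, 28), [1364, 466], 1⟩,
  mz,
  ⟨⟨9, 16, -89, -10, 69, 20, 60, 12, -49⟩, (.cons (nat_lit 2676) (nat_lit 1466) (nat_lit 4630) (nat_lit 1)
 (.cons (nat_lit 2837) (nat_lit 4579) (nat_lit 1500) (nat_lit 1) .nil)), (nat_lit 9), (nat_lit 0), (nat_lit
 16), (nat_lit 1), (44, 30, 33), [6822, 179], 19⟩,
  mz,
  mz,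
  ⟨⟨-13, -72, 36, 70, -11, -30, -4, -44, -49⟩, (.cons (nat_lit 3179) (nat_lit 2729) (nat_lit 1532) (nat_lit 1)
 (.cons (nat_lit 1837) (nat_lit 1195) (nat_lit 1) (nat_lit 3195) .nil)), (nat_lit 28), (nat_lit 4), (nat_lit
 5), (nat_lit 1), (29, 35, 69), [2483, 4745], 21⟩,
  mz,
  ⟨⟨-11, 72, -25, 50, -11, -80, -44, 4, -29⟩, (.cons (nat_lit 140) (nat_lit 3282) (nat_lit 4107) (nat_lit 1)
 (.cons (nat_lit 1101) (nat_lit 3638) (nat_lit 3681) (nat_lit 1) .nil)), (nat_lit 15), (nat_lit 26), (nat_lit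
 25), (nat_lit 1), (44, 13, 34), [4279, 3560], 20⟩,
  mz,
  ⟨⟨-29, -72, 20, 56, -25, -68, -38, -16, -35⟩, (.cons (nat_lit 5994) (nat_lit 4623) (nat_lit 2132) (nat_lit 1)
 (.cons (nat_lit 1527) (nat_lit 1751) (nat_lit 4229) (nat_lit 1) .nil)), (nat_lit 12), (nat_lit 16), (nat_lit
 17), (nat_lit 1), (27, 36, 6), [2965, 3264], 15⟩,
  ⟨⟨75, 20, -32, -10, 21, 80, 12, 60, -25⟩, (.cons (nat_lit 6858) (nat_lit 3718) (nat_lit 1755) (nat_lit 1)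
 (.cons (nat_lit 4579) (nat_lit 1145) (nat_lit 2509) (nat_lit 1) .nil)), (nat_lit 30), (nat_lit 18), (nat_lit
 7), (nat_lit 1), (30, 67, 19), [4024, 4938], 27⟩,
  mz,
  ⟨⟨23, 72, 9, 64, -25, -12, 26, 32, -67⟩, (.cons (nat_lit 3320) (nat_lit 5278) (nat_lit 5240) (nat_lit 1)
 (.cons (nat_lit 3306) (nat_lit 1145) (nat_lit 2722) (nat_lit 1) .nil)), (nat_lit 8), (nat_lit 20), (nat_lit
 0), (nat_lit 1), (66, 54, 53), [4209, 1954], 10⟩,
  mz,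
  ⟨⟨17, -24, -89, -36, 55, -12, 54, 24, -53⟩, (.cons (nat_lit 2313) (nat_lit 4474) (nat_lit 4127) (nat_lit 1)
 (.cons (nat_lit 4185) (nat_lit 5006) (nat_lit 4447) (nat_lit 1) .nil)), (nat_lit 17), (nat_lit 13), (nat_lit
 26), (nat_lit 1), (5, 27, 66), [2219, 3559], 25⟩,
  ⟨⟨-23, -72, 32, 64, -25, -52, -26, -32, -41⟩, (.cons (nat_lit 234) (nat_lit 3539) (nat_lit 2740) (nat_lit 1)
 (.cons (nat_lit 4464) (nat_lit 2391) (nat_lit 1952) (nat_lit 1) .nil)), (nat_lit 9), (nat_lit 16), (nat_lit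
 30), (nat_lit 1), (21, 28, 33), [2039, 4884], 23⟩,
  mz,
  mz,
  ⟨⟨-65, 24, -7, 4, -55, -52, 10, 40, -59⟩, (.cons (nat_lit 4341) (nat_lit 341) (nat_lit 6221) (nat_lit 1)
 (.cons (nat_lit 456) (nat_lit 2998) (nat_lit 4341) (nat_lit 1) .nil)), (nat_lit 15), (nat_lit 25), (nat_lit
 19), (nat_lit 1), (43, 5, 48), [294, 3041], 17⟩,
  ⟨⟨11, -72, -36, -50, 11, -30, 44, -4, -73⟩, (.cons (nat_lit 5009) (nat_lit 3036) (nat_lit 4075) (nat_lit 1)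
 (.cons (nat_lit 4386) (nat_lit 3651) (nat_lit 2553) (nat_lit 1) .nil)), (nat_lit 19), (nat_lit 13), (nat_lit
 21), (nat_lit 1), (69, 22, 63), [6106, 4192], 8⟩,
  ⟨⟨-39, -40, -41, 44, -55, -12, 22, 8, -77⟩, (.cons (nat_lit 4918) (nat_lit 3444) (nat_lit 960) (nat_lit 1)
 (.cons (nat_lit 3645) (nat_lit 3408) (nat_lit 2591) (nat_lit 1) .nil)), (nat_lit 10), (nat_lit 12), (nat_lit
 25), (nat_lit 1), (46, 10, 5), [1255, 4733], 6⟩,
  mz,
  ⟨⟨51, 52, -56, -44, 15, -38, 42, -24, -67⟩, (.cons (nat_lit 6673) (nat_lit 5533) (nat_lit 5160) (nat_lit 1)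
 (.cons (nat_lit 41) (nat_lit 2210) (nat_lit 3118) (nat_lit 1) .nil)), (nat_lit 21), (nat_lit 2), (nat_lit 19),
 (nat_lit 1), (52, 15, 47), [1662, 4733], 29⟩,
  ⟨⟨51, 4, -91, -10, -69, -10, 60, -12, -11⟩, (.cons (nat_lit 3673) (nat_lit 6556) (nat_lit 4330) (nat_lit 1)
 (.cons (nat_lit 3359) (nat_lit 3320) (nat_lit 3742) (nat_lit 1) .nil)), (nat_lit 7), (nat_lit 0), (nat_lit
 12), (nat_lit 1), (45, 58, 7), [648, 4098], 30⟩,
  ⟨⟨51, 4, 40, 10, 69, -20, 60, -12, -49⟩, (.cons (nat_lit 6858) (nat_lit 1414) (nat_lit 4475) (nat_lit 1)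
 (.cons (nat_lit 3825) (nat_lit 712) (nat_lit 4282) (nat_lit 1) .nil)), (nat_lit 30), (nat_lit 25), (nat_lit
 1), (nat_lit 1), (13, 29, 32), [5580, 195], 17⟩,
  ⟨⟨29, 72, -9, 56, -25, 12, 38, 16, -73⟩, (.cons (nat_lit 6076) (nat_lit 3556) (nat_lit 1238) (nat_lit 1)
 (.cons (nat_lit 4249) (nat_lit 3528) (nat_lit 688) (nat_lit 1) .nil)), (nat_lit 4), (nat_lit 13), (nat_lit 0),
 (nat_lit 1), (5, 17, 9), [5480, 1706], 5⟩,
  ⟨⟨65, 24, -72, -4, -55, -48, -10, 40, -49⟩, (.cons (nat_lit 93) (nat_lit 6370) (nat_lit 2598) (nat_lit 1)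
 (.cons (nat_lit 533) (nat_lit 4828) (nat_lit 4201) (nat_lit 1) .nil)), (nat_lit 29), (nat_lit 9), (nat_lit
 16), (nat_lit 1), (39, 26, 65), [3856, 3089], 19⟩,
  ⟨⟨9, -76, -20, 44, 15, -82, -42, -24, -25⟩, (.cons (nat_lit 3613) (nat_lit 4518) (nat_lit 4512) (nat_lit 1)
 (.cons (nat_lit 4198) (nat_lit 2702) (nat_lit 3885) (nat_lit 1) .nil)), (nat_lit 22), (nat_lit 29), (nat_lit
 24), (nat_lit 1), (1, 68, 19), [2570, 2751], 21⟩,
  mz,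
  ⟨⟨13, -72, 23, -70, -11, 40, 4, -44, -53⟩, (.cons (nat_lit 4031) (nat_lit 287) (nat_lit 1058) (nat_lit 1)
 (.cons (nat_lit 3059) (nat_lit 1222) (nat_lit 94) (nat_lit 1) .nil)), (nat_lit 2), (nat_lit 14), (nat_lit 21),
 (nat_lit 1), (14, 12, 48), [3953, 4134], 7⟩,
  ⟨⟨9, 16, 80, -10, 69, -10, 60, 12, -11⟩, (.cons (nat_lit 5145) (nat_lit 86) (nat_lit 2817) (nat_lit 1) (.cons
 (nat_lit 4177) (nat_lit 2304) (nat_lit 3089) (nat_lit 1) .nil)), (nat_lit 0), (nat_lit 18), (nat_lit 27),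
 (nat_lit 1), (58, 46, 8), [3321, 28], 3⟩,
  ⟨⟨75, -20, -32, 10, 21, -80, 12, -60, -25⟩, (.cons (nat_lit 6858) (nat_lit 4408) (nat_lit 1250) (nat_lit 1)
 (.cons (nat_lit 2260) (nat_lit 1735) (nat_lit 409) (nat_lit 1) .nil)), (nat_lit 30), (nat_lit 1), (nat_lit
 12), (nat_lit 1), (52, 59, 14), [147, 1615], 24⟩,
  mz,
  ⟨⟨-11, -72, -25, 50, 11, -80, -44, -4, -29⟩, (.cons (nat_lit 2725) (nat_lit 5293) (nat_lit 3948) (nat_lit 1)
 (.cons (nat_lit 4149) (nat_lit 3936) (nat_lit 2726) (nat_lit 1) .nil)), (nat_lit 17), (nat_lit 6), (nat_lit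
 5), (nat_lit 1), (38, 8, 10), [5390, 3180], 24⟩,
  ⟨⟨-75, -20, 43, -10, 21, -70, -12, -60, -13⟩, (.cons (nat_lit 4649) (nat_lit 6552) (nat_lit 2612) (nat_lit 1)
 (.cons (nat_lit 2500) (nat_lit 553) (nat_lit 252) (nat_lit 1) .nil)), (nat_lit 18), (nat_lit 20), (nat_lit
 25), (nat_lit 1), (2, 5, 6), [4911, 4292], 2⟩,
  mz,
  mz,
  mz,
  ⟨⟨11, 72, -36, -50, -11, -30, 44, 4, -73⟩, (.cons (nat_lit 4956) (nat_lit 1024) (nat_lit 321) (nat_lit 1)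
 (.cons (nat_lit 3262) (nat_lit 109) (nat_lit 4632) (nat_lit 1) .nil)), (nat_lit 10), (nat_lit 22), (nat_lit
 12), (nat_lit 1), (4, 27, 16), [1599, 2567], 23⟩,
  mz,
  ⟨⟨9, -28, -85, 70, 11, -30, -4, 44, -49⟩, (.cons (nat_lit 2207) (nat_lit 6669) (nat_lit 6035) (nat_lit 1)
 (.cons (nat_lit 1898) (nat_lit 1290) (nat_lit 4564) (nat_lit 1) .nil)), (nat_lit 16), (nat_lit 28), (nat_lit
 27), (nat_lit 1), (14, 30, 49), [5240, 2815], 26⟩,
  ⟨⟨75, -16, -52, 4, 55, -52, 10, -40, -59⟩, (.cons (nat_lit 6858) (nat_lit 3492) (nat_lit 6374) (nat_lit 1)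
 (.cons (nat_lit 321) (nat_lit 2803) (nat_lit 1402) (nat_lit 1) .nil)), (nat_lit 30), (nat_lit 14), (nat_lit
 3), (nat_lit 1), (51, 51, 21), [5039, 2546], 15⟩,
  mz,
  ⟨⟨-27, -68, 43, 64, -15, -2, 6, -48, -49⟩, (.cons (nat_lit 3925) (nat_lit 3619) (nat_lit 6294) (nat_lit 1)
 (.cons (nat_lit 4695) (nat_lit 3393) (nat_lit 4644) (nat_lit 1) .nil)), (nat_lit 6), (nat_lit 10), (nat_lit
 16), (nat_lit 1), (60, 55, 34), [3953, 4313], 22⟩,
  ⟨⟨13, 72, 23, 70, -11, -40, 4, 44, -53⟩, (.cons (nat_lit 5783) (nat_lit 325) (nat_lit 5740) (nat_lit 1)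
 (.cons (nat_lit 5039) (nat_lit 856) (nat_lit 4397) (nat_lit 1) .nil)), (nat_lit 15), (nat_lit 28), (nat_lit
 21), (nat_lit 1), (20, 64, 28), [2702, 1793], 20⟩,
  ⟨⟨-23, 72, 32, 64, 25, -52, -26, 32, -41⟩, (.cons (nat_lit 4691) (nat_lit 991) (nat_lit 1) (nat_lit 3040)
 (.cons (nat_lit 4155) (nat_lit 2570) (nat_lit 4905) (nat_lit 1) .nil)), (nat_lit 26), (nat_lit 19), (nat_lit
 15), (nat_lit 1), (27, 36, 12), [5525, 805], 25⟩,
  ⟨⟨37, -48, -73, 36, 55, -48, 54, -24, -1⟩, (.cons (nat_lit 5833) (nat_lit 545) (nat_lit 5464) (nat_lit 1)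
 (.cons (nat_lit 3354) (nat_lit 2953) (nat_lit 944) (nat_lit 1) .nil)), (nat_lit 15), (nat_lit 4), (nat_lit
 20), (nat_lit 1), (11, 51, 41), [1798, 3395], 4⟩]

/-- Moves. -/
noncomputable def t1_8 : List Mv := [
  mz,
  ⟨⟨63, 40, -56, 10, 21, 70, -12, 60, -13⟩, (.cons (nat_lit 6858) (nat_lit 751) (nat_lit 741) (nat_lit 1)
 (.cons (nat_lit 4580) (nat_lit 4789) (nat_lit 4651) (nat_lit 1) .nil)), (nat_lit 30), (nat_lit 6), (nat_lit
 2), (nat_lit 1), (31, 50, 11), [3092, 2962], 24⟩,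
  mz,
  ⟨⟨65, -24, -72, -4, 55, -48, -10, -40, -49⟩, (.cons (nat_lit 6858) (nat_lit 4307) (nat_lit 4732) (nat_lit 1)
 (.cons (nat_lit 1440) (nat_lit 3833) (nat_lit 2184) (nat_lit 1) .nil)), (nat_lit 30), (nat_lit 22), (nat_lit
 26), (nat_lit 1), (37, 1, 38), [1963, 1772], 11⟩,
  ⟨⟨27, 68, 16, 64, -15, -62, -6, 48, -43⟩, (.cons (nat_lit 3482) (nat_lit 5667) (nat_lit 4427) (nat_lit 1)
 (.cons (nat_lit 4658) (nat_lit 1186) (nat_lit 3642) (nat_lit 1) .nil)), (nat_lit 21), (nat_lit 10), (nat_lit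
 25), (nat_lit 1), (60, 16, 34), [146, 342], 16⟩,
  ⟨⟨27, -68, 16, 64, 15, -62, -6, -48, -43⟩, (.cons (nat_lit 3577) (nat_lit 3533) (nat_lit 249) (nat_lit 1)
 (.cons (nat_lit 3930) (nat_lit 94) (nat_lit 1419) (nat_lit 1) .nil)), (nat_lit 3), (nat_lit 25), (nat_lit 5),
 (nat_lit 1), (7, 35, 30), [1669, 3431], 13⟩,
  mz,
  ⟨⟨-29, 72, 20, 56, 25, -68, -38, 16, -35⟩, (.cons (nat_lit 2611) (nat_lit 4095) (nat_lit 1) (nat_lit 3686)
 (.cons (nat_lit 4898) (nat_lit 188) (nat_lit 3186) (nat_lit 1) .nil)), (nat_lit 26), (nat_lit 23), (nat_lit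
 7), (nat_lit 1), (33, 44, 31), [4401, 768], 25⟩,
  ⟨⟨3, 40, -76, 64, 25, -12, 26, -32, -67⟩, (.cons (nat_lit 3800) (nat_lit 5276) (nat_lit 4852) (nat_lit 1)
 (.cons (nat_lit 4214) (nat_lit 2664) (nat_lit 2164) (nat_lit 1) .nil)), (nat_lit 6), (nat_lit 17), (nat_lit
 20), (nat_lit 1), (14, 62, 3), [1481, 1181], 1⟩,
  mz,
  mz,
  ⟨⟨33, -20, -92, 64, 15, -2, 6, 48, -49⟩, (.cons (nat_lit 6483) (nat_lit 4333) (nat_lit 3863) (nat_lit 1)
 (.cons (nat_lit 3059) (nat_lit 1467) (nat_lit 959) (nat_lit 1) .nil)), (nat_lit 21), (nat_lit 25), (nat_lit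
 4), (nat_lit 1), (67, 3, 38), [6393, 2396], 29⟩,
  ⟨⟨9, 76, -20, -44, 15, 82, -42, 24, -25⟩, (.cons (nat_lit 3995) (nat_lit 1781) (nat_lit 65) (nat_lit 1)
 (.cons (nat_lit 381) (nat_lit 2442) (nat_lit 1190) (nat_lit 1) .nil)), (nat_lit 3), (nat_lit 18), (nat_lit
 19), (nat_lit 1), (31, 22, 21), [6666, 1983], 13⟩,
  mz,
  mz,
  ⟨⟨-9, 76, -11, -44, -15, -38, 42, 24, -67⟩, (.cons (nat_lit 2990) (nat_lit 2692) (nat_lit 2036) (nat_lit 1)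
 (.cons (nat_lit 2322) (nat_lit 2751) (nat_lit 2508) (nat_lit 1) .nil)), (nat_lit 26), (nat_lit 19), (nat_lit
 18), (nat_lit 1), (25, 67, 49), [6585, 1098], 23⟩,
  ⟨⟨17, 24, -89, -36, -55, -12, 54, -24, -53⟩, (.cons (nat_lit 6135) (nat_lit 3802) (nat_lit 1) (nat_lit 5244)
 (.cons (nat_lit 2888) (nat_lit 4686) (nat_lit 1661) (nat_lit 1) .nil)), (nat_lit 29), (nat_lit 20), (nat_lit
 16), (nat_lit 1), (7, 52, 64), [6317, 2295], 15⟩,
  mz,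
  ⟨⟨29, -72, -9, -56, -25, -12, 38, -16, -73⟩, (.cons (nat_lit 3633) (nat_lit 3086) (nat_lit 6156) (nat_lit 1)
 (.cons (nat_lit 3647) (nat_lit 3360) (nat_lit 4210) (nat_lit 1) .nil)), (nat_lit 20), (nat_lit 17), (nat_lit
 13), (nat_lit 1), (70, 46, 55), [3115, 3093], 20⟩,
  ⟨⟨-61, -48, 25, 44, -55, -32, -22, -8, -55⟩, (.cons (nat_lit 3901) (nat_lit 2316) (nat_lit 2938) (nat_lit 1)
 (.cons (nat_lit 2149) (nat_lit 4607) (nat_lit 2684) (nat_lit 1) .nil)), (nat_lit 28), (nat_lit 22), (nat_lit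
 10), (nat_lit 1), (9, 68, 37), [3551, 2507], 23⟩,
  mz,
  mz,
  ⟨⟨17, -24, 72, 36, -55, -48, 54, 24, -1⟩, (.cons (nat_lit 2286) (nat_lit 5807) (nat_lit 4883) (nat_lit 1)
 (.cons (nat_lit 808) (nat_lit 4357) (nat_lit 825) (nat_lit 1) .nil)), (nat_lit 12), (nat_lit 17), (nat_lit
 17), (nat_lit 1), (28, 5, 43), [5119, 516], 18⟩,
  ⟨⟨39, -40, -80, -44, -55, 32, -22, 8, -55⟩, (.cons (nat_lit 6858) (nat_lit 965) (nat_lit 5749) (nat_lit 1)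
 (.cons (nat_lit 1539) (nat_lit 3630) (nat_lit 70) (nat_lit 1) .nil)), (nat_lit 30), (nat_lit 7), (nat_lit 12),
 (nat_lit 1), (1, 28, 14), [5846, 4530], 10⟩,
  ⟨⟨-39, 40, -41, -44, -55, 12, 22, -8, -77⟩, (.cons (nat_lit 5317) (nat_lit 4592) (nat_lit 3456) (nat_lit 1)
 (.cons (nat_lit 1966) (nat_lit 1628) (nat_lit 4285) (nat_lit 1) .nil)), (nat_lit 10), (nat_lit 28), (nat_lit
 24), (nat_lit 1), (2, 15, 28), [4105, 2311], 6⟩,
  mz,
  ⟨⟨51, -4, 40, -10, 69, 20, 60, 12, -49⟩, (.cons (nat_lit 6858) (nat_lit 4008) (nat_lit 5380) (nat_lit 1)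
 (.cons (nat_lit 26) (nat_lit 2129) (nat_lit 1) (nat_lit 994) .nil)), (nat_lit 30), (nat_lit 16), (nat_lit 25),
 (nat_lit 1), (60, 30, 33), [5957, 1490], 13⟩,
  mz,
  mz,
  ⟨⟨9, 28, -85, -70, 11, 30, -4, -44, -49⟩, (.cons (nat_lit 1475) (nat_lit 5226) (nat_lit 6850) (nat_lit 1)
 (.cons (nat_lit 25) (nat_lit 4970) (nat_lit 2397) (nat_lit 1) .nil)), (nat_lit 11), (nat_lit 27), (nat_lit 7),
 (nat_lit 1), (40, 36, 69), [5938, 1182], 21⟩,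
  mz,
  ⟨⟨-11, 72, -25, 50, -11, -80, -44, 4, -29⟩, (.cons (nat_lit 140) (nat_lit 3282) (nat_lit 4107) (nat_lit 1)
 (.cons (nat_lit 1101) (nat_lit 3638) (nat_lit 3681) (nat_lit 1) .nil)), (nat_lit 15), (nat_lit 26), (nat_lit
 25), (nat_lit 1), (44, 13, 34), [4279, 3560], 20⟩,
  mz,
  ⟨⟨-9, 56, -55, -56, 25, 68, -38, -16, -35⟩, (.cons (nat_lit 1965) (nat_lit 515) (nat_lit 3963) (nat_lit 1)
 (.cons (nat_lit 1281) (nat_lit 1539) (nat_lit 318) (nat_lit 1) .nil)), (nat_lit 14), (nat_lit 30), (nat_lit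
 24), (nat_lit 1), (50, 35, 6), [1526, 4185], 30⟩,
  ⟨⟨75, 20, -32, 10, -21, -80, 12, 60, -25⟩, (.cons (nat_lit 6071) (nat_lit 1760) (nat_lit 6159) (nat_lit 1)
 (.cons (nat_lit 3179) (nat_lit 4361) (nat_lit 427) (nat_lit 1) .nil)), (nat_lit 17), (nat_lit 28), (nat_lit
 21), (nat_lit 1), (30, 4, 19), [4956, 1161], 7⟩,
  mz,
  ⟨⟨23, 72, 9, -64, 25, 12, 26, 32, -67⟩, (.cons (nat_lit 3088) (nat_lit 2842) (nat_lit 5398) (nat_lit 1)
 (.cons (nat_lit 1928) (nat_lit 4361) (nat_lit 4091) (nat_lit 1) .nil)), (nat_lit 1), (nat_lit 22), (nat_lit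
 2), (nat_lit 1), (66, 17, 53), [3417, 3865], 15⟩,
  mz,
  ⟨⟨17, -24, -89, 36, -55, 12, 54, 24, -53⟩, (.cons (nat_lit 4553) (nat_lit 1573) (nat_lit 1) (nat_lit 6460)
 (.cons (nat_lit 2704) (nat_lit 2777) (nat_lit 491) (nat_lit 1) .nil)), (nat_lit 29), (nat_lit 8), (nat_lit 9),
 (nat_lit 1), (5, 44, 66), [381, 4774], 15⟩,
  ⟨⟨-23, -72, 32, -64, 25, 52, -26, -32, -41⟩, (.cons (nat_lit 6506) (nat_lit 5440) (nat_lit 397) (nat_lit 1)
 (.cons (nat_lit 1508) (nat_lit 1801) (nat_lit 2694) (nat_lit 1) .nil)), (nat_lit 20), (nat_lit 27), (nat_lit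
 1), (nat_lit 0), (21, 43, 33), [4897, 4097], 5⟩,
  mz,
  mz,
  ⟨⟨-65, 24, -7, -4, 55, 52, 10, 40, -59⟩, (.cons (nat_lit 3374) (nat_lit 1353) (nat_lit 5712) (nat_lit 1)
 (.cons (nat_lit 4971) (nat_lit 535) (nat_lit 2015) (nat_lit 1) .nil)), (nat_lit 26), (nat_lit 29), (nat_lit
 23), (nat_lit 1), (43, 66, 48), [774, 679], 28⟩,
  ⟨⟨11, -72, -36, -50, 11, -30, 44, -4, -73⟩, (.cons (nat_lit 5009) (nat_lit 3036) (nat_lit 4075) (nat_lit 1)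
 (.cons (nat_lit 4386) (nat_lit 3651) (nat_lit 2553) (nat_lit 1) .nil)), (nat_lit 19), (nat_lit 13), (nat_lit
 21), (nat_lit 1), (69, 22, 63), [6106, 4192], 8⟩,
  ⟨⟨-39, -40, -41, 44, -55, -12, 22, 8, -77⟩, (.cons (nat_lit 4918) (nat_lit 3444) (nat_lit 960) (nat_lit 1)
 (.cons (nat_lit 3645) (nat_lit 3408) (nat_lit 2591) (nat_lit 1) .nil)), (nat_lit 10), (nat_lit 12), (nat_lit
 25), (nat_lit 1), (46, 10, 5), [1255, 4733], 6⟩,
  mz,
  ⟨⟨-9, -76, -11, -44, 15, -38, 42, -24, -67⟩, (.cons (nat_lit 342) (nat_lit 6581) (nat_lit 5715) (nat_lit 1)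
 (.cons (nat_lit 4528) (nat_lit 5031) (nat_lit 3554) (nat_lit 1) .nil)), (nat_lit 22), (nat_lit 15), (nat_lit
 3), (nat_lit 1), (66, 15, 47), [3261, 4781], 10⟩,
  ⟨⟨51, 4, -91, 10, 69, 10, 60, -12, -11⟩, (.cons (nat_lit 3244) (nat_lit 5850) (nat_lit 4709) (nat_lit 1)
 (.cons (nat_lit 2037) (nat_lit 4520) (nat_lit 3659) (nat_lit 1) .nil)), (nat_lit 12), (nat_lit 30), (nat_lit
 29), (nat_lit 1), (45, 13, 7), [5831, 2878], 28⟩,
  ⟨⟨51, 4, 40, 10, 69, -20, 60, -12, -49⟩, (.cons (nat_lit 6858) (nat_lit 1414) (nat_lit 4475) (nat_lit 1)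
 (.cons (nat_lit 3825) (nat_lit 712) (nat_lit 4282) (nat_lit 1) .nil)), (nat_lit 30), (nat_lit 25), (nat_lit
 1), (nat_lit 1), (13, 29, 32), [5580, 195], 17⟩,
  ⟨⟨9, -56, -64, -56, 25, -12, 38, 16, -73⟩, (.cons (nat_lit 1399) (nat_lit 2930) (nat_lit 176) (nat_lit 1)
 (.cons (nat_lit 1617) (nat_lit 4009) (nat_lit 3515) (nat_lit 1) .nil)), (nat_lit 0), (nat_lit 25), (nat_lit
 17), (nat_lit 1), (4, 54, 9), [3365, 4618], 19⟩,
  ⟨⟨-75, 16, 23, 4, 55, 48, -10, 40, -49⟩, (.cons (nat_lit 3275) (nat_lit 6698) (nat_lit 4552) (nat_lit 1)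
 (.cons (nat_lit 1533) (nat_lit 4938) (nat_lit 1) (nat_lit 3195) .nil)), (nat_lit 6), (nat_lit 12), (nat_lit
 17), (nat_lit 1), (26, 45, 65), [857, 3227], 16⟩,
  ⟨⟨-51, 52, -5, -44, -15, 82, -42, -24, -25⟩, (.cons (nat_lit 4628) (nat_lit 415) (nat_lit 5704) (nat_lit 1)
 (.cons (nat_lit 4340) (nat_lit 422) (nat_lit 2221) (nat_lit 1) .nil)), (nat_lit 6), (nat_lit 8), (nat_lit 20),
 (nat_lit 1), (18, 3, 19), [2927, 337], 22⟩,
  mz,
  ⟨⟨13, -72, 23, 70, 11, -40, 4, -44, -53⟩, (.cons (nat_lit 1970) (nat_lit 1416) (nat_lit 2831) (nat_lit 1)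
 (.cons (nat_lit 4841) (nat_lit 1750) (nat_lit 2908) (nat_lit 1) .nil)), (nat_lit 2), (nat_lit 4), (nat_lit
 12), (nat_lit 1), (14, 59, 48), [521, 2831], 11⟩,
  ⟨⟨9, 16, 80, -10, 69, -10, 60, 12, -11⟩, (.cons (nat_lit 5145) (nat_lit 86) (nat_lit 2817) (nat_lit 1) (.cons
 (nat_lit 4177) (nat_lit 2304) (nat_lit 3089) (nat_lit 1) .nil)), (nat_lit 0), (nat_lit 18), (nat_lit 27),
 (nat_lit 1), (58, 46, 8), [3321, 28], 3⟩,
  ⟨⟨75, -20, -32, 10, 21, -80, 12, -60, -25⟩, (.cons (nat_lit 6858) (nat_lit 4408) (nat_lit 1250) (nat_lit 1)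
 (.cons (nat_lit 2260) (nat_lit 1735) (nat_lit 409) (nat_lit 1) .nil)), (nat_lit 30), (nat_lit 1), (nat_lit
 12), (nat_lit 1), (52, 59, 14), [147, 1615], 24⟩,
  mz,
  ⟨⟨-11, -72, -25, 50, 11, -80, -44, -4, -29⟩, (.cons (nat_lit 2725) (nat_lit 5293) (nat_lit 3948) (nat_lit 1)
 (.cons (nat_lit 4149) (nat_lit 3936) (nat_lit 2726) (nat_lit 1) .nil)), (nat_lit 17), (nat_lit 6), (nat_lit
 5), (nat_lit 1), (38, 8, 10), [5390, 3180], 24⟩,
  ⟨⟨-75, -20, 43, 10, -21, 70, -12, -60, -13⟩, (.cons (nat_lit 5400) (nat_lit 1775) (nat_lit 4211) (nat_lit 1)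
 (.cons (nat_lit 3667) (nat_lit 170) (nat_lit 3188) (nat_lit 1) .nil)), (nat_lit 17), (nat_lit 22), (nat_lit
 13), (nat_lit 1), (2, 66, 6), [4290, 3947], 3⟩,
  mz,
  mz,
  mz,
  ⟨⟨11, 72, -36, -50, -11, -30, 44, 4, -73⟩, (.cons (nat_lit 4956) (nat_lit 1024) (nat_lit 321) (nat_lit 1)
 (.cons (nat_lit 3262) (nat_lit 109) (nat_lit 4632) (nat_lit 1) .nil)), (nat_lit 10), (nat_lit 22), (nat_lit
 12), (nat_lit 1), (4, 27, 16), [1599, 2567], 23⟩,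
  mz,
  ⟨⟨-13, 72, 36, -70, -11, 30, -4, 44, -49⟩, (.cons (nat_lit 5558) (nat_lit 1752) (nat_lit 1) (nat_lit 5301)
 (.cons (nat_lit 3831) (nat_lit 2815) (nat_lit 170) (nat_lit 1) .nil)), (nat_lit 20), (nat_lit 26), (nat_lit
 5), (nat_lit 1), (35, 41, 49), [2450, 865], 29⟩,
  ⟨⟨75, -16, -52, 4, 55, -52, 10, -40, -59⟩, (.cons (nat_lit 6858) (nat_lit 3492) (nat_lit 6374) (nat_lit 1)
 (.cons (nat_lit 321) (nat_lit 2803) (nat_lit 1402) (nat_lit 1) .nil)), (nat_lit 30), (nat_lit 14), (nat_lit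
 3), (nat_lit 1), (51, 51, 21), [5039, 2546], 15⟩,
  mz,
  ⟨⟨33, 20, -92, 64, -15, -2, 6, -48, -49⟩, (.cons (nat_lit 3804) (nat_lit 133) (nat_lit 3713) (nat_lit 1)
 (.cons (nat_lit 267) (nat_lit 40) (nat_lit 5010) (nat_lit 1) .nil)), (nat_lit 3), (nat_lit 9), (nat_lit 2),
 (nat_lit 1), (45, 55, 34), [3932, 1507], 20⟩,
  ⟨⟨13, 72, 23, 70, -11, -40, 4, 44, -53⟩, (.cons (nat_lit 5783) (nat_lit 325) (nat_lit 5740) (nat_lit 1)
 (.cons (nat_lit 5039) (nat_lit 856) (nat_lit 4397) (nat_lit 1) .nil)), (nat_lit 15), (nat_lit 28), (nat_lit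
 21), (nat_lit 1), (20, 64, 28), [2702, 1793], 20⟩,
  ⟨⟨-3, -40, -73, 64, 25, -52, -26, 32, -41⟩, (.cons (nat_lit 3337) (nat_lit 3054) (nat_lit 6480) (nat_lit 1)
 (.cons (nat_lit 3051) (nat_lit 2586) (nat_lit 1293) (nat_lit 1) .nil)), (nat_lit 20), (nat_lit 20), (nat_lit
 16), (nat_lit 1), (56, 36, 12), [731, 3505], 3⟩,
  ⟨⟨37, -48, -73, 36, 55, -48, 54, -24, -1⟩, (.cons (nat_lit 5833) (nat_lit 545) (nat_lit 5464) (nat_lit 1)
 (.cons (nat_lit 3354) (nat_lit 2953) (nat_lit 944) (nat_lit 1) .nil)), (nat_lit 15), (nat_lit 4), (nat_lit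
 20), (nat_lit 1), (11, 51, 41), [1798, 3395], 4⟩]

/-- Moves. -/
noncomputable def t4_1 : List Mv := [
  mz,
  ⟨⟨3, 20, 29, -4, 25, -18, 26, 8, -7⟩, (.cons (nat_lit 58) (nat_lit 3110) (nat_lit 2204) (nat_lit 1) (.cons
 (nat_lit 326) (nat_lit 1479) (nat_lit 1664) (nat_lit 1) .nil)), (nat_lit 6), (nat_lit 0), (nat_lit 0),
 (nat_lit 0), (26, 17, 29), [881, 2218], 0⟩,
  ⟨⟨23, 12, -36, 4, 25, 18, 26, -8, -7⟩, (.cons (nat_lit 2568) (nat_lit 4286) (nat_lit 5050) (nat_lit 1) (.cons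
 (nat_lit 3422) (nat_lit 4012) (nat_lit 775) (nat_lit 1) .nil)), (nat_lit 18), (nat_lit 0), (nat_lit 0),
 (nat_lit 0), (1, 15, 20), [5675, 882], 0⟩,
  mz,
  ⟨⟨27, 16, -28, 4, 15, 28, -6, 24, -11⟩, (.cons (nat_lit 6858) (nat_lit 3101) (nat_lit 6761) (nat_lit 1)
 (.cons (nat_lit 5040) (nat_lit 1544) (nat_lit 3971) (nat_lit 1) .nil)), (nat_lit 4), (nat_lit 0), (nat_lit 0),
 (nat_lit 0), (15, 16, 7), [3459, 2111], 0⟩,
  mz,
  ⟨⟨1, -12, 35, -16, -25, -2, 22, -16, -5⟩, (.cons (nat_lit 1802) (nat_lit 4204) (nat_lit 6067) (nat_lit 1)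
 (.cons (nat_lit 4216) (nat_lit 2994) (nat_lit 3504) (nat_lit 1) .nil)), (nat_lit 2), (nat_lit 0), (nat_lit 0),
 (nat_lit 0), (1, 15, 22), [3366, 4530], 0⟩,
  mz,
  ⟨⟨-31, 0, 0, 10, 19, -30, -4, -20, -19⟩, (.cons (nat_lit 6858) (nat_lit 5839) (nat_lit 1395) (nat_lit 1)
 (.cons (nat_lit 5040) (nat_lit 4657) (nat_lit 651) (nat_lit 1) .nil)), (nat_lit 8), (nat_lit 0), (nat_lit 0),
 (nat_lit 0), (0, 5, 29), [6499, 1456], 0⟩,
  mz,
  mz,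
  mz,
  mz,
  ⟨⟨-31, 0, 0, 10, -19, -30, -4, 20, -19⟩, (.cons (nat_lit 5820) (nat_lit 3067) (nat_lit 329) (nat_lit 1)
 (.cons (nat_lit 4726) (nat_lit 1518) (nat_lit 4806) (nat_lit 1) .nil)), (nat_lit 8), (nat_lit 0), (nat_lit 0),
 (nat_lit 0), (0, 3, 5), [1207, 1007], 0⟩,
  ⟨⟨27, -16, -28, -4, 15, -28, -6, -24, -11⟩, (.cons (nat_lit 6858) (nat_lit 1072) (nat_lit 892) (nat_lit 1)
 (.cons (nat_lit 5040) (nat_lit 3149) (nat_lit 3498) (nat_lit 1) .nil)), (nat_lit 14), (nat_lit 0), (nat_lit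
 0), (nat_lit 0), (28, 28, 11), [5236, 4035], 0⟩,
  ⟨⟨23, -12, 13, 4, -25, -22, 26, 8, -19⟩, (.cons (nat_lit 5207) (nat_lit 2983) (nat_lit 2954) (nat_lit 1)
 (.cons (nat_lit 2294) (nat_lit 2010) (nat_lit 2395) (nat_lit 1) .nil)), (nat_lit 18), (nat_lit 0), (nat_lit
 0), (nat_lit 0), (25, 3, 4), [4952, 1854], 0⟩,
  mz,
  mz,
  ⟨⟨1, -12, -36, 16, 25, -18, 22, -16, -17⟩, (.cons (nat_lit 6808) (nat_lit 6624) (nat_lit 1) (nat_lit 3363)
 (.cons (nat_lit 556) (nat_lit 2785) (nat_lit 3295) (nat_lit 1) .nil)), (nat_lit 1), (nat_lit 0), (nat_lit 0),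
 (nat_lit 0), (21, 26, 28), [6107, 2000], 0⟩,
  ⟨⟨-9, 8, -31, -10, -29, 0, 20, -4, -31⟩, (.cons (nat_lit 5837) (nat_lit 5759) (nat_lit 2822) (nat_lit 1)
 (.cons (nat_lit 830) (nat_lit 174) (nat_lit 35) (nat_lit 1) .nil)), (nat_lit 20), (nat_lit 0), (nat_lit 0),
 (nat_lit 0), (2, 16, 30), [5816, 1748], 0⟩,
  ⟨⟨-29, -12, 29, -10, 29, 10, -20, -4, -11⟩, (.cons (nat_lit 2965) (nat_lit 292) (nat_lit 1) (nat_lit 5567)
 (.cons (nat_lit 1901) (nat_lit 1942) (nat_lit 1000) (nat_lit 1) .nil)), (nat_lit 24), (nat_lit 0), (nat_lit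
 0), (nat_lit 0), (6, 1, 2), [353, 1102], 0⟩,
  ⟨⟨33, 8, -16, 4, -15, -32, 6, 24, -17⟩, (.cons (nat_lit 2134) (nat_lit 5048) (nat_lit 1110) (nat_lit 1)
 (.cons (nat_lit 4799) (nat_lit 4442) (nat_lit 4921) (nat_lit 1) .nil)), (nat_lit 27), (nat_lit 0), (nat_lit
 0), (nat_lit 0), (1, 2, 3), [59, 2422], 0⟩,
  ⟨⟨9, -8, -40, 10, 29, -10, -20, 4, -11⟩, (.cons (nat_lit 4516) (nat_lit 255) (nat_lit 2372) (nat_lit 1)
 (.cons (nat_lit 217) (nat_lit 2529) (nat_lit 3843) (nat_lit 1) .nil)), (nat_lit 20), (nat_lit 0), (nat_lit 0),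
 (nat_lit 0), (18, 20, 22), [2197, 224], 0⟩,
  ⟨⟨3, -20, -32, 4, 25, -22, 26, -8, -19⟩, (.cons (nat_lit 6325) (nat_lit 3674) (nat_lit 4358) (nat_lit 1)
 (.cons (nat_lit 3667) (nat_lit 2353) (nat_lit 3314) (nat_lit 1) .nil)), (nat_lit 26), (nat_lit 0), (nat_lit
 0), (nat_lit 0), (3, 4, 26), [5506, 746], 0⟩,
  ⟨⟨-9, -8, -31, -10, 29, 0, 20, 4, -31⟩, (.cons (nat_lit 874) (nat_lit 1684) (nat_lit 4046) (nat_lit 1) (.cons
 (nat_lit 3084) (nat_lit 4621) (nat_lit 1092) (nat_lit 1) .nil)), (nat_lit 20), (nat_lit 0), (nat_lit 0),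
 (nat_lit 0), (24, 6, 19), [5179, 2045], 0⟩,
  ⟨⟨-27, -20, 8, -10, 19, -20, 4, -20, -23⟩, (.cons (nat_lit 6858) (nat_lit 2464) (nat_lit 6066) (nat_lit 1)
 (.cons (nat_lit 5040) (nat_lit 1581) (nat_lit 4249) (nat_lit 1) .nil)), (nat_lit 25), (nat_lit 0), (nat_lit
 0), (nat_lit 0), (16, 22, 16), [652, 981], 0⟩,
  ⟨⟨1, 12, 35, -16, 25, -2, 22, 16, -5⟩, (.cons (nat_lit 4116) (nat_lit 5869) (nat_lit 27) (nat_lit 1) (.cons
 (nat_lit 4879) (nat_lit 1877) (nat_lit 3344) (nat_lit 1) .nil)), (nat_lit 2), (nat_lit 0), (nat_lit 0),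
 (nat_lit 0), (30, 16, 9), [4034, 4791], 0⟩,
  ⟨⟨-27, -16, -1, 4, 15, -32, 6, -24, -17⟩, (.cons (nat_lit 3803) (nat_lit 734) (nat_lit 890) (nat_lit 1)
 (.cons (nat_lit 2107) (nat_lit 1025) (nat_lit 1830) (nat_lit 1) .nil)), (nat_lit 14), (nat_lit 0), (nat_lit
 0), (nat_lit 0), (15, 15, 7), [4857, 4510], 0⟩,
  ⟨⟨1, 12, -36, 16, -25, -18, 22, 16, -17⟩, (.cons (nat_lit 2075) (nat_lit 4651) (nat_lit 4241) (nat_lit 1)
 (.cons (nat_lit 909) (nat_lit 3480) (nat_lit 4119) (nat_lit 1) .nil)), (nat_lit 1), (nat_lit 0), (nat_lit 0),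
 (nat_lit 0), (19, 25, 15), [2895, 678], 0⟩,
  ⟨⟨31, 0, -31, 10, 19, 20, 4, 20, -23⟩, (.cons (nat_lit 644) (nat_lit 2872) (nat_lit 581) (nat_lit 1) (.cons
 (nat_lit 772) (nat_lit 4657) (nat_lit 4368) (nat_lit 1) .nil)), (nat_lit 13), (nat_lit 0), (nat_lit 0),
 (nat_lit 0), (0, 11, 23), [4486, 2516], 0⟩]

/-- Moves. -/
noncomputable def t4_2 : List Mv := [
  mz,
  ⟨⟨23, -12, -36, -4, 25, -18, 26, 8, -7⟩, (.cons (nat_lit 119) (nat_lit 2110) (nat_lit 2887) (nat_lit 1)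
 (.cons (nat_lit 2490) (nat_lit 279) (nat_lit 2125) (nat_lit 1) .nil)), (nat_lit 28), (nat_lit 0), (nat_lit 0),
 (nat_lit 0), (3, 17, 29), [148, 1936], 0⟩,
  ⟨⟨3, -20, 29, -4, -25, -18, 26, -8, -7⟩, (.cons (nat_lit 5896) (nat_lit 1642) (nat_lit 5512) (nat_lit 1)
 (.cons (nat_lit 831) (nat_lit 2240) (nat_lit 1874) (nat_lit 1) .nil)), (nat_lit 6), (nat_lit 0), (nat_lit 0),
 (nat_lit 0), (19, 16, 20), [13, 3411], 0⟩,
  mz,
  ⟨⟨-33, 8, 17, -4, -15, -28, -6, 24, -11⟩, (.cons (nat_lit 48) (nat_lit 6045) (nat_lit 4878) (nat_lit 1)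
 (.cons (nat_lit 461) (nat_lit 3685) (nat_lit 4193) (nat_lit 1) .nil)), (nat_lit 27), (nat_lit 0), (nat_lit 0),
 (nat_lit 0), (23, 15, 7), [5533, 2449], 0⟩,
  mz,
  ⟨⟨1, -12, 35, 16, 25, 2, 22, -16, -5⟩, (.cons (nat_lit 3193) (nat_lit 1602) (nat_lit 6821) (nat_lit 1) (.cons
 (nat_lit 3572) (nat_lit 5021) (nat_lit 4572) (nat_lit 1) .nil)), (nat_lit 1), (nat_lit 0), (nat_lit 0),
 (nat_lit 0), (1, 16, 22), [2971, 3613], 0⟩,
  mz,
  ⟨⟨-31, 0, 0, -10, -19, 30, -4, -20, -19⟩, (.cons (nat_lit 4291) (nat_lit 1924) (nat_lit 1215) (nat_lit 1)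
 (.cons (nat_lit 16) (nat_lit 917) (nat_lit 3760) (nat_lit 1) .nil)), (nat_lit 13), (nat_lit 0), (nat_lit 0),
 (nat_lit 0), (0, 26, 29), [6284, 701], 0⟩,
  mz,
  mz,
  mz,
  mz,
  ⟨⟨-31, 0, 0, 10, -19, -30, -4, 20, -19⟩, (.cons (nat_lit 5820) (nat_lit 3067) (nat_lit 329) (nat_lit 1)
 (.cons (nat_lit 4726) (nat_lit 1518) (nat_lit 4806) (nat_lit 1) .nil)), (nat_lit 8), (nat_lit 0), (nat_lit 0),
 (nat_lit 0), (0, 3, 5), [1207, 1007], 0⟩,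
  ⟨⟨-33, -8, 17, -4, 15, -28, -6, -24, -11⟩, (.cons (nat_lit 6758) (nat_lit 5544) (nat_lit 723) (nat_lit 1)
 (.cons (nat_lit 4084) (nat_lit 2971) (nat_lit 2083) (nat_lit 1) .nil)), (nat_lit 27), (nat_lit 0), (nat_lit
 0), (nat_lit 0), (14, 28, 11), [3700, 4574], 0⟩,
  ⟨⟨3, 20, -32, 4, -25, -22, 26, 8, -19⟩, (.cons (nat_lit 1334) (nat_lit 2859) (nat_lit 6511) (nat_lit 1)
 (.cons (nat_lit 3891) (nat_lit 4418) (nat_lit 1247) (nat_lit 1) .nil)), (nat_lit 26), (nat_lit 0), (nat_lit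
 0), (nat_lit 0), (10, 3, 4), [1831, 2950], 0⟩,
  mz,
  mz,
  ⟨⟨21, -4, 19, -16, -25, 18, 22, -16, -17⟩, (.cons (nat_lit 4181) (nat_lit 4598) (nat_lit 2385) (nat_lit 1)
 (.cons (nat_lit 1391) (nat_lit 1845) (nat_lit 656) (nat_lit 1) .nil)), (nat_lit 15), (nat_lit 0), (nat_lit 0),
 (nat_lit 0), (7, 5, 28), [5636, 3036], 0⟩,
  ⟨⟨29, -12, 0, -10, -29, 0, 20, -4, -31⟩, (.cons (nat_lit 6858) (nat_lit 1297) (nat_lit 4432) (nat_lit 1)
 (.cons (nat_lit 5040) (nat_lit 781) (nat_lit 1528) (nat_lit 1) .nil)), (nat_lit 19), (nat_lit 0), (nat_lit 0),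
 (nat_lit 0), (28, 16, 30), [6224, 1460], 0⟩,
  ⟨⟨9, 8, -40, 10, -29, -10, -20, -4, -11⟩, (.cons (nat_lit 6858) (nat_lit 722) (nat_lit 1398) (nat_lit 1)
 (.cons (nat_lit 5040) (nat_lit 4958) (nat_lit 485) (nat_lit 1) .nil)), (nat_lit 20), (nat_lit 0), (nat_lit 0),
 (nat_lit 0), (27, 30, 2), [691, 2747], 0⟩,
  ⟨⟨33, 8, -16, -4, 15, 32, 6, 24, -17⟩, (.cons (nat_lit 6858) (nat_lit 4553) (nat_lit 4971) (nat_lit 1) (.cons
 (nat_lit 5040) (nat_lit 91) (nat_lit 1497) (nat_lit 1) .nil)), (nat_lit 21), (nat_lit 0), (nat_lit 0),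
 (nat_lit 0), (1, 29, 3), [1056, 3751], 0⟩,
  ⟨⟨9, -8, -40, -10, -29, 10, -20, 4, -11⟩, (.cons (nat_lit 6858) (nat_lit 3493) (nat_lit 2601) (nat_lit 1)
 (.cons (nat_lit 5040) (nat_lit 3858) (nat_lit 4686) (nat_lit 1) .nil)), (nat_lit 22), (nat_lit 0), (nat_lit
 0), (nat_lit 0), (18, 11, 22), [144, 1957], 0⟩,
  ⟨⟨3, -20, -32, 4, 25, -22, 26, -8, -19⟩, (.cons (nat_lit 6325) (nat_lit 3674) (nat_lit 4358) (nat_lit 1)
 (.cons (nat_lit 3667) (nat_lit 2353) (nat_lit 3314) (nat_lit 1) .nil)), (nat_lit 26), (nat_lit 0), (nat_lit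
 0), (nat_lit 0), (3, 4, 26), [5506, 746], 0⟩,
  ⟨⟨-9, -8, -31, -10, 29, 0, 20, 4, -31⟩, (.cons (nat_lit 874) (nat_lit 1684) (nat_lit 4046) (nat_lit 1) (.cons
 (nat_lit 3084) (nat_lit 4621) (nat_lit 1092) (nat_lit 1) .nil)), (nat_lit 20), (nat_lit 0), (nat_lit 0),
 (nat_lit 0), (24, 6, 19), [5179, 2045], 0⟩,
  ⟨⟨-27, -20, 8, -10, 19, -20, 4, -20, -23⟩, (.cons (nat_lit 6858) (nat_lit 2464) (nat_lit 6066) (nat_lit 1)
 (.cons (nat_lit 5040) (nat_lit 1581) (nat_lit 4249) (nat_lit 1) .nil)), (nat_lit 25), (nat_lit 0), (nat_lit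
 0), (nat_lit 0), (16, 22, 16), [652, 981], 0⟩,
  ⟨⟨1, 12, 35, -16, 25, -2, 22, 16, -5⟩, (.cons (nat_lit 4116) (nat_lit 5869) (nat_lit 27) (nat_lit 1) (.cons
 (nat_lit 4879) (nat_lit 1877) (nat_lit 3344) (nat_lit 1) .nil)), (nat_lit 2), (nat_lit 0), (nat_lit 0),
 (nat_lit 0), (30, 16, 9), [4034, 4791], 0⟩,
  ⟨⟨33, -8, -16, 4, 15, -32, 6, -24, -17⟩, (.cons (nat_lit 6858) (nat_lit 264) (nat_lit 2096) (nat_lit 1)
 (.cons (nat_lit 5040) (nat_lit 1056) (nat_lit 2120) (nat_lit 1) .nil)), (nat_lit 27), (nat_lit 0), (nat_lit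
 0), (nat_lit 0), (23, 15, 7), [6195, 904], 0⟩,
  ⟨⟨21, 4, 19, -16, 25, 18, 22, 16, -17⟩, (.cons (nat_lit 5479) (nat_lit 2752) (nat_lit 132) (nat_lit 1) (.cons
 (nat_lit 4741) (nat_lit 623) (nat_lit 3678) (nat_lit 1) .nil)), (nat_lit 15), (nat_lit 0), (nat_lit 0),
 (nat_lit 0), (27, 6, 15), [332, 4742], 0⟩,
  ⟨⟨31, 0, -31, -10, -19, -20, 4, 20, -23⟩, (.cons (nat_lit 1336) (nat_lit 1736) (nat_lit 3079) (nat_lit 1)
 (.cons (nat_lit 2274) (nat_lit 917) (nat_lit 1890) (nat_lit 1) .nil)), (nat_lit 8), (nat_lit 0), (nat_lit 0),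
 (nat_lit 0), (0, 20, 23), [520, 4909], 0⟩]

/-- Moves. -/
noncomputable def t4_8 : List Mv := [
  mz,
  ⟨⟨3, 20, 29, -4, 25, -18, 26, 8, -7⟩, (.cons (nat_lit 58) (nat_lit 3110) (nat_lit 2204) (nat_lit 1) (.cons
 (nat_lit 326) (nat_lit 1479) (nat_lit 1664) (nat_lit 1) .nil)), (nat_lit 6), (nat_lit 0), (nat_lit 0),
 (nat_lit 0), (26, 17, 29), [881, 2218], 0⟩,
  ⟨⟨3, -20, 29, 4, 25, 18, 26, -8, -7⟩, (.cons (nat_lit 2288) (nat_lit 1650) (nat_lit 6814) (nat_lit 1) (.cons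
 (nat_lit 4512) (nat_lit 4897) (nat_lit 4626) (nat_lit 1) .nil)), (nat_lit 26), (nat_lit 0), (nat_lit 0),
 (nat_lit 0), (19, 15, 20), [536, 3789], 0⟩,
  mz,
  ⟨⟨27, 16, -28, 4, 15, 28, -6, 24, -11⟩, (.cons (nat_lit 6858) (nat_lit 3101) (nat_lit 6761) (nat_lit 1)
 (.cons (nat_lit 5040) (nat_lit 1544) (nat_lit 3971) (nat_lit 1) .nil)), (nat_lit 4), (nat_lit 0), (nat_lit 0),
 (nat_lit 0), (15, 16, 7), [3459, 2111], 0⟩,
  mz,
  ⟨⟨1, -12, 35, -16, -25, -2, 22, -16, -5⟩, (.cons (nat_lit 1802) (nat_lit 4204) (nat_lit 6067) (nat_lit 1)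
 (.cons (nat_lit 4216) (nat_lit 2994) (nat_lit 3504) (nat_lit 1) .nil)), (nat_lit 2), (nat_lit 0), (nat_lit 0),
 (nat_lit 0), (1, 15, 22), [3366, 4530], 0⟩,
  mz,
  ⟨⟨-31, 0, 0, 10, 19, -30, -4, -20, -19⟩, (.cons (nat_lit 6858) (nat_lit 5839) (nat_lit 1395) (nat_lit 1)
 (.cons (nat_lit 5040) (nat_lit 4657) (nat_lit 651) (nat_lit 1) .nil)), (nat_lit 8), (nat_lit 0), (nat_lit 0),
 (nat_lit 0), (0, 5, 29), [6499, 1456], 0⟩,
  mz,
  mz,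
  mz,
  mz,
  ⟨⟨27, 20, -19, -10, 19, 30, -4, 20, -19⟩, (.cons (nat_lit 5975) (nat_lit 1018) (nat_lit 6038) (nat_lit 1)
 (.cons (nat_lit 986) (nat_lit 549) (nat_lit 3207) (nat_lit 1) .nil)), (nat_lit 29), (nat_lit 0), (nat_lit 0),
 (nat_lit 0), (5, 28, 5), [4152, 706], 0⟩,
  ⟨⟨27, -16, -28, -4, 15, -28, -6, -24, -11⟩, (.cons (nat_lit 6858) (nat_lit 1072) (nat_lit 892) (nat_lit 1)
 (.cons (nat_lit 5040) (nat_lit 3149) (nat_lit 3498) (nat_lit 1) .nil)), (nat_lit 14), (nat_lit 0), (nat_lit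
 0), (nat_lit 0), (28, 28, 11), [5236, 4035], 0⟩,
  ⟨⟨23, -12, 13, -4, 25, 22, 26, 8, -19⟩, (.cons (nat_lit 6357) (nat_lit 2845) (nat_lit 4533) (nat_lit 1)
 (.cons (nat_lit 1025) (nat_lit 1632) (nat_lit 718) (nat_lit 1) .nil)), (nat_lit 28), (nat_lit 0), (nat_lit 0),
 (nat_lit 0), (25, 28, 4), [6105, 3122], 0⟩,
  mz,
  mz,
  ⟨⟨1, -12, -36, -16, -25, 18, 22, -16, -17⟩, (.cons (nat_lit 1039) (nat_lit 5196) (nat_lit 185) (nat_lit 1)
 (.cons (nat_lit 137) (nat_lit 4866) (nat_lit 4727) (nat_lit 1) .nil)), (nat_lit 2), (nat_lit 0), (nat_lit 0),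
 (nat_lit 0), (21, 5, 28), [5650, 386], 0⟩,
  ⟨⟨-9, 8, -31, -10, -29, 0, 20, -4, -31⟩, (.cons (nat_lit 5837) (nat_lit 5759) (nat_lit 2822) (nat_lit 1)
 (.cons (nat_lit 830) (nat_lit 174) (nat_lit 35) (nat_lit 1) .nil)), (nat_lit 20), (nat_lit 0), (nat_lit 0),
 (nat_lit 0), (2, 16, 30), [5816, 1748], 0⟩,
  ⟨⟨9, 8, -40, 10, -29, -10, -20, -4, -11⟩, (.cons (nat_lit 6858) (nat_lit 722) (nat_lit 1398) (nat_lit 1)
 (.cons (nat_lit 5040) (nat_lit 4958) (nat_lit 485) (nat_lit 1) .nil)), (nat_lit 20), (nat_lit 0), (nat_lit 0),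
 (nat_lit 0), (27, 30, 2), [691, 2747], 0⟩,
  ⟨⟨33, 8, -16, -4, 15, 32, 6, 24, -17⟩, (.cons (nat_lit 6858) (nat_lit 4553) (nat_lit 4971) (nat_lit 1) (.cons
 (nat_lit 5040) (nat_lit 91) (nat_lit 1497) (nat_lit 1) .nil)), (nat_lit 21), (nat_lit 0), (nat_lit 0),
 (nat_lit 0), (1, 29, 3), [1056, 3751], 0⟩,
  ⟨⟨9, -8, -40, -10, -29, 10, -20, 4, -11⟩, (.cons (nat_lit 6858) (nat_lit 3493) (nat_lit 2601) (nat_lit 1)
 (.cons (nat_lit 5040) (nat_lit 3858) (nat_lit 4686) (nat_lit 1) .nil)), (nat_lit 22), (nat_lit 0), (nat_lit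
 0), (nat_lit 0), (18, 11, 22), [144, 1957], 0⟩,
  ⟨⟨3, -20, -32, 4, 25, -22, 26, -8, -19⟩, (.cons (nat_lit 6325) (nat_lit 3674) (nat_lit 4358) (nat_lit 1)
 (.cons (nat_lit 3667) (nat_lit 2353) (nat_lit 3314) (nat_lit 1) .nil)), (nat_lit 26), (nat_lit 0), (nat_lit
 0), (nat_lit 0), (3, 4, 26), [5506, 746], 0⟩,
  ⟨⟨-9, -8, -31, -10, 29, 0, 20, 4, -31⟩, (.cons (nat_lit 874) (nat_lit 1684) (nat_lit 4046) (nat_lit 1) (.cons
 (nat_lit 3084) (nat_lit 4621) (nat_lit 1092) (nat_lit 1) .nil)), (nat_lit 20), (nat_lit 0), (nat_lit 0),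
 (nat_lit 0), (24, 6, 19), [5179, 2045], 0⟩,
  ⟨⟨-27, -20, 8, -10, 19, -20, 4, -20, -23⟩, (.cons (nat_lit 6858) (nat_lit 2464) (nat_lit 6066) (nat_lit 1)
 (.cons (nat_lit 5040) (nat_lit 1581) (nat_lit 4249) (nat_lit 1) .nil)), (nat_lit 25), (nat_lit 0), (nat_lit
 0), (nat_lit 0), (16, 22, 16), [652, 981], 0⟩,
  ⟨⟨1, 12, 35, -16, 25, -2, 22, 16, -5⟩, (.cons (nat_lit 4116) (nat_lit 5869) (nat_lit 27) (nat_lit 1) (.cons
 (nat_lit 4879) (nat_lit 1877) (nat_lit 3344) (nat_lit 1) .nil)), (nat_lit 2), (nat_lit 0), (nat_lit 0),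
 (nat_lit 0), (30, 16, 9), [4034, 4791], 0⟩,
  ⟨⟨-27, -16, -1, -4, -15, 32, 6, -24, -17⟩, (.cons (nat_lit 4144) (nat_lit 5447) (nat_lit 5900) (nat_lit 1)
 (.cons (nat_lit 3193) (nat_lit 4530) (nat_lit 647) (nat_lit 1) .nil)), (nat_lit 4), (nat_lit 0), (nat_lit 0),
 (nat_lit 0), (15, 16, 7), [2125, 1063], 0⟩,
  ⟨⟨1, 12, -36, 16, -25, -18, 22, 16, -17⟩, (.cons (nat_lit 2075) (nat_lit 4651) (nat_lit 4241) (nat_lit 1)
 (.cons (nat_lit 909) (nat_lit 3480) (nat_lit 4119) (nat_lit 1) .nil)), (nat_lit 1), (nat_lit 0), (nat_lit 0),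
 (nat_lit 0), (19, 25, 15), [2895, 678], 0⟩,
  ⟨⟨31, 0, -31, -10, -19, -20, 4, 20, -23⟩, (.cons (nat_lit 1336) (nat_lit 1736) (nat_lit 3079) (nat_lit 1)
 (.cons (nat_lit 2274) (nat_lit 917) (nat_lit 1890) (nat_lit 1) .nil)), (nat_lit 8), (nat_lit 0), (nat_lit 0),
 (nat_lit 0), (0, 20, 23), [520, 4909], 0⟩]

/-- All the moves. -/
noncomputable def tabs : List (List (List Mv)) := [[[], t0_1, t0_2, [], [], [], [], [], t0_8], [[], t1_1, t1_2, [], [], [], [], [], t1_8], [], [], [[], t4_1, t4_2, [], [], [], [], [], t4_8]]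

/-- Subtrie. -/
noncomputable def T1 : Tr := (.ev (nat_lit 20) (nat_lit 367804738) (.nd (nat_lit 33) (.br (nat_lit 39) (.br
 (nat_lit 19) (.br (nat_lit 8) (.br (nat_lit 4) (.br (nat_lit 3) (.ch (nat_lit 1) (.ev (nat_lit 52) (nat_lit
 135299076) (.ev (nat_lit 724) (nat_lit 33554432) (.ev (nat_lit 1456) (nat_lit 536879120) .dd)))) (.ch (nat_lit
 3) (.ev (nat_lit 52) (nat_lit 705699856) (.ev (nat_lit 1396) (nat_lit 32768) (.ev (nat_lit 1405) (nat_lit 4)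
 .dd))))) (.br (nat_lit 5) (.ch (nat_lit 4) (.ev (nat_lit 148) (nat_lit 33554432) (.ev (nat_lit 212) (nat_lit
 8192) (.ev (nat_lit 692) (nat_lit 4) (.ev (nat_lit 756) (nat_lit 536870912) (.ev (nat_lit 2704) (nat_lit
 32768) (.nd (nat_lit 2864) (.br (nat_lit 11) (.ch (nat_lit 4) (.ev (nat_lit 2880) (nat_lit 134217744) (.ev
 (nat_lit 2893) (nat_lit 1048576) .dd))) (.ch (nat_lit 11) (.ev (nat_lit 2880) (nat_lit 1048576) (.fin (nat_lit
 576461302050275895)))))))))))) (.br (nat_lit 7) (.ch (nat_lit 5) (.ev (nat_lit 52) (nat_lit 1089540) (.ev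
 (nat_lit 116) (nat_lit 536870912) (.ev (nat_lit 212) (nat_lit 134217728) (.ev (nat_lit 1508) (nat_lit
 33554432) (.ev (nat_lit 1517) (nat_lit 16) .dd)))))) (.ch (nat_lit 7) (.ev (nat_lit 52) (nat_lit 671096836)
 (.ev (nat_lit 212) (nat_lit 32768) (.ev (nat_lit 308) (nat_lit 16) (.ev (nat_lit 964) (nat_lit 1048576) (.ev
 (nat_lit 973) (nat_lit 33554432) .dd))))))))) (.br (nat_lit 15) (.br (nat_lit 11) (.ch (nat_lit 8) (.ev
 (nat_lit 52) (nat_lit 537919488) (.ev (nat_lit 596) (nat_lit 33554432) (.ev (nat_lit 884) (nat_lit 16) (.ev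
 (nat_lit 1344) (nat_lit 134258692) .dd))))) (.br (nat_lit 12) (.ch (nat_lit 11) (.ev (nat_lit 52) (nat_lit
 34603008) (.ev (nat_lit 116) (nat_lit 4) (.ev (nat_lit 1396) (nat_lit 134217728) (.ev (nat_lit 2624) (nat_lit
 40960) (.nd (nat_lit 2864) (.br (nat_lit 9) (.br (nat_lit 6) (.ch (nat_lit 4) (.ev (nat_lit 2880) (nat_lit 16)
 (.ev (nat_lit 2893) (nat_lit 536870912) .dd))) (.ch (nat_lit 6) (.ev (nat_lit 2880) (nat_lit 536870928) .dd)))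
 (.br (nat_lit 10) (.ch (nat_lit 9) (.fin (nat_lit 576470098154832458))) (.br (nat_lit 15) (.ch (nat_lit 10)
 (.ev (nat_lit 2880) (nat_lit 536870928) .dd)) (.ch (nat_lit 15) (.ev (nat_lit 2880) (nat_lit 16) (.ev (nat_lit
 2893) (nat_lit 536870912) .dd)))))))))))) (.ch (nat_lit 12) (.ev (nat_lit 52) (nat_lit 33595396) (.ev (nat_lit
 436) (nat_lit 536870912) (.ev (nat_lit 1508) (nat_lit 134217728) (.ev (nat_lit 1760) (nat_lit 1048592)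
 .dd))))))) (.br (nat_lit 16) (.ch (nat_lit 15) (.ev (nat_lit 52) (nat_lit 570458116) (.ev (nat_lit 308)
 (nat_lit 1048576) (.ev (nat_lit 756) (nat_lit 16) (.ev (nat_lit 1508) (nat_lit 8192) (.ev (nat_lit 1517)
 (nat_lit 134217728) .dd)))))) (.br (nat_lit 18) (.ch (nat_lit 16) (.ev (nat_lit 52) (nat_lit 671088640) (.ev
 (nat_lit 468) (nat_lit 16) (.ev (nat_lit 800) (nat_lit 34643972) .dd)))) (.ch (nat_lit 18) (.ev (nat_lit 52)
 (nat_lit 33587220) (.ev (nat_lit 276) (nat_lit 536870912) (.ev (nat_lit 1588) (nat_lit 134217728) (.ev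
 (nat_lit 2276) (nat_lit 8192) (.ev (nat_lit 2285) (nat_lit 1048576) .dd)))))))))) (.br (nat_lit 29) (.br
 (nat_lit 23) (.br (nat_lit 22) (.ch (nat_lit 19) (.ev (nat_lit 52) (nat_lit 33554436) (.ev (nat_lit 500)
 (nat_lit 32768) (.ev (nat_lit 564) (nat_lit 8192) (.ev (nat_lit 724) (nat_lit 134217728) (.ev (nat_lit 1204)
 (nat_lit 1048576) (.ev (nat_lit 2196) (nat_lit 536870912) (.ev (nat_lit 2205) (nat_lit 16) .dd)))))))) (.ch
 (nat_lit 22) (.ev (nat_lit 52) (nat_lit 168828928) (.ev (nat_lit 276) (nat_lit 16) (.ev (nat_lit 1536)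
 (nat_lit 536903684) .dd))))) (.br (nat_lit 24) (.ch (nat_lit 23) (.ev (nat_lit 52) (nat_lit 671088640) (.ev
 (nat_lit 692) (nat_lit 1048592) (.ev (nat_lit 852) (nat_lit 33554432) (.ev (nat_lit 1620) (nat_lit 8192) (.ev
 (nat_lit 2340) (nat_lit 4) (.ev (nat_lit 2349) (nat_lit 32768) .dd))))))) (.br (nat_lit 26) (.ch (nat_lit 24)
 (.ev (nat_lit 52) (nat_lit 32784) (.ev (nat_lit 372) (nat_lit 4) (.ev (nat_lit 932) (nat_lit 8192) (.ev
 (nat_lit 1312) (nat_lit 705691648) .dd))))) (.ch (nat_lit 26) (.ev (nat_lit 52) (nat_lit 671088660) (.ev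
 (nat_lit 1140) (nat_lit 32768) (.ev (nat_lit 1632) (nat_lit 34611200) .dd))))))) (.br (nat_lit 34) (.br
 (nat_lit 31) (.ch (nat_lit 29) (.ev (nat_lit 52) (nat_lit 33595408) (.ev (nat_lit 148) (nat_lit 134217728)
 (.ev (nat_lit 532) (nat_lit 1048576) (.nd (nat_lit 2864) (.br (nat_lit 9) (.br (nat_lit 4) (.ch (nat_lit 2)
 (.ev (nat_lit 2880) (nat_lit 536870912) (.ev (nat_lit 2893) (nat_lit 4) .dd))) (.br (nat_lit 6) (.ch (nat_lit
 4) (.ev (nat_lit 2896) (nat_lit 536870912) (.ev (nat_lit 2909) (nat_lit 4) .dd))) (.ch (nat_lit 6) (.ev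
 (nat_lit 2880) (nat_lit 536870916) .dd)))) (.br (nat_lit 15) (.ch (nat_lit 9) (.ev (nat_lit 2880) (nat_lit
 536870916) .dd)) (.br (nat_lit 18) (.ch (nat_lit 15) (.ev (nat_lit 2880) (nat_lit 536870916) .dd)) (.ch
 (nat_lit 18) (.ev (nat_lit 2880) (nat_lit 536870916) .dd)))))))))) (.br (nat_lit 33) (.ch (nat_lit 31) (.ev
 (nat_lit 52) (nat_lit 167772180) (.ev (nat_lit 1012) (nat_lit 8192) (.ev (nat_lit 2368) (nat_lit 537952256)
 .dd)))) (.ch (nat_lit 33) (.ev (nat_lit 52) (nat_lit 34635780) (.ev (nat_lit 372) (nat_lit 536870912) (.ev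
 (nat_lit 1012) (nat_lit 134217728) (.ev (nat_lit 1792) (nat_lit 8208) .dd))))))) (.br (nat_lit 36) (.ch
 (nat_lit 34) (.ev (nat_lit 52) (nat_lit 34635780) (.ev (nat_lit 84) (nat_lit 16) (.ev (nat_lit 1172) (nat_lit
 134217728) (.ev (nat_lit 1684) (nat_lit 536870912) (.ev (nat_lit 1693) (nat_lit 8192) .dd)))))) (.br (nat_lit
 38) (.ch (nat_lit 36) (.ev (nat_lit 52) (nat_lit 33595396) (.ev (nat_lit 468) (nat_lit 1048576) (.ev (nat_lit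
 532) (nat_lit 536870912) (.ev (nat_lit 1824) (nat_lit 134217744) .dd))))) (.ch (nat_lit 38) (.ev (nat_lit 52)
 (nat_lit 33562644) (.ev (nat_lit 1204) (nat_lit 536870912) (.ev (nat_lit 2180) (nat_lit 134217728) (.ev
 (nat_lit 2244) (nat_lit 32768) (.ev (nat_lit 2253) (nat_lit 1048576) .dd))))))))))) (.br (nat_lit 54) (.br
 (nat_lit 47) (.br (nat_lit 43) (.br (nat_lit 42) (.ch (nat_lit 39) (.ev (nat_lit 52) (nat_lit 33562624) (.ev
 (nat_lit 692) (nat_lit 536870912) (.ev (nat_lit 1092) (nat_lit 16) (.nd (nat_lit 2864) (.br (nat_lit 9) (.ch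
 (nat_lit 2) (.ev (nat_lit 2880) (nat_lit 135299076) .dd)) (.br (nat_lit 12) (.ch (nat_lit 9) (.ev (nat_lit
 2880) (nat_lit 134217732) (.nd (nat_lit 2928) (.br (nat_lit 10) (.ch (nat_lit 9) (.fin (nat_lit
 576459103042748989))) (.ch (nat_lit 10) (.ev (nat_lit 2944) (nat_lit 1081344) .dd)))))) (.ch (nat_lit 12) (.ev
 (nat_lit 2880) (nat_lit 1081344) (.fin (nat_lit 576450306931900957))))))))))) (.ch (nat_lit 42) (.ev (nat_lit
 52) (nat_lit 168828948) (.ev (nat_lit 884) (nat_lit 536870912) (.ev (nat_lit 893) (nat_lit 32768) .dd)))))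
 (.br (nat_lit 44) (.ch (nat_lit 43) (.ev (nat_lit 52) (nat_lit 134225940) (.ev (nat_lit 2560) (nat_lit
 1081344) (.nd (nat_lit 2864) (.br (nat_lit 10) (.br (nat_lit 2) (.ch (nat_lit 1) (.ev (nat_lit 2880) (nat_lit
 536870912) (.ev (nat_lit 2893) (nat_lit 33554432) .dd))) (.ch (nat_lit 2) (.fin (nat_lit
 576474496200294983)))) (.br (nat_lit 12) (.ch (nat_lit 10) (.ev (nat_lit 2880) (nat_lit 570425344) .dd)) (.br
 (nat_lit 18) (.ch (nat_lit 12) (.ev (nat_lit 2880) (nat_lit 570425344) .dd)) (.ch (nat_lit 18) (.ev (nat_lit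
 2880) (nat_lit 536870912) (.ev (nat_lit 2893) (nat_lit 33554432) .dd)))))))))) (.br (nat_lit 46) (.ch (nat_lit
 44) (.ev (nat_lit 52) (nat_lit 1056768) (.ev (nat_lit 244) (nat_lit 134217728) (.ev (nat_lit 436) (nat_lit 4)
 (.ev (nat_lit 500) (nat_lit 33554432) (.ev (nat_lit 1012) (nat_lit 32768) (.ev (nat_lit 1204) (nat_lit 16)
 (.ev (nat_lit 1213) (nat_lit 536870912) .dd)))))))) (.ch (nat_lit 46) (.ev (nat_lit 52) (nat_lit 571482112)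
 (.ev (nat_lit 84) (nat_lit 4) (.ev (nat_lit 436) (nat_lit 16) (.ev (nat_lit 1856) (nat_lit 134250496)
 .dd)))))))) (.br (nat_lit 50) (.br (nat_lit 48) (.ch (nat_lit 47) (.ev (nat_lit 52) (nat_lit 1089552) (.ev
 (nat_lit 404) (nat_lit 536870912) (.ev (nat_lit 788) (nat_lit 33554432) (.nd (nat_lit 2864) (.br (nat_lit 12)
 (.ch (nat_lit 11) (.ev (nat_lit 2880) (nat_lit 134217732) .dd)) (.br (nat_lit 15) (.ch (nat_lit 12) (.nd
 (nat_lit 2928) (.br (nat_lit 17) (.ch (nat_lit 3) (.ev (nat_lit 2944) (nat_lit 134217732) .dd)) (.ch (nat_lit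
 17) (.fin (nat_lit 576472297189622371)))))) (.ch (nat_lit 15) (.ev (nat_lit 2880) (nat_lit 134217732)
 .dd))))))))) (.br (nat_lit 49) (.ch (nat_lit 48) (.ev (nat_lit 52) (nat_lit 167772160) (.ev (nat_lit 116)
 (nat_lit 16) (.ev (nat_lit 884) (nat_lit 4) (.nd (nat_lit 2864) (.br (nat_lit 9) (.br (nat_lit 4) (.ch
 (nat_lit 1) (.ev (nat_lit 2880) (nat_lit 1089536) (.ev (nat_lit 2893) (nat_lit 536870912) .dd))) (.ch (nat_lit
 4) (.ev (nat_lit 2880) (nat_lit 32768) (.ev (nat_lit 2896) (nat_lit 1048576) (.fin (nat_lit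
 576489889381958221)))))) (.br (nat_lit 10) (.ch (nat_lit 9) (.ev (nat_lit 2880) (nat_lit 536879104) (.fin
 (nat_lit 576463501078774339)))) (.ch (nat_lit 10) (.ev (nat_lit 2880) (nat_lit 40960) (.ev (nat_lit 2896)
 (nat_lit 1048576) (.ev (nat_lit 2909) (nat_lit 536870912) .dd))))))))))) (.ch (nat_lit 49) (.ev (nat_lit 52)
 (nat_lit 537960448) (.ev (nat_lit 1264) (nat_lit 167772180) .dd))))) (.br (nat_lit 51) (.ch (nat_lit 50) (.ev
 (nat_lit 52) (nat_lit 571506688) (.ev (nat_lit 1252) (nat_lit 16) (.ev (nat_lit 1712) (nat_lit 134225924)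
 .dd)))) (.br (nat_lit 53) (.ch (nat_lit 51) (.ev (nat_lit 52) (nat_lit 536879104) (.ev (nat_lit 180) (nat_lit
 32768) (.ev (nat_lit 404) (nat_lit 16) (.ev (nat_lit 2544) (nat_lit 1048580) (.nd (nat_lit 2864) (.br (nat_lit
 11) (.br (nat_lit 7) (.ch (nat_lit 1) (.ev (nat_lit 2880) (nat_lit 134217728) (.ev (nat_lit 2893) (nat_lit
 33554432) .dd))) (.ch (nat_lit 7) (.fin (nat_lit 576465700116709958)))) (.br (nat_lit 12) (.ch (nat_lit 11)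
 (.ev (nat_lit 2880) (nat_lit 167772160) .dd)) (.br (nat_lit 18) (.ch (nat_lit 12) (.ev (nat_lit 2880) (nat_lit
 167772160) .dd)) (.ch (nat_lit 18) (.ev (nat_lit 2880) (nat_lit 134217728) (.ev (nat_lit 2893) (nat_lit
 33554432) .dd)))))))))))) (.ch (nat_lit 53) (.ev (nat_lit 52) (nat_lit 537919508) (.ev (nat_lit 628) (nat_lit
 33587200) (.ev (nat_lit 1888) (nat_lit 134225920) .dd)))))))) (.br (nat_lit 64) (.br (nat_lit 57) (.br
 (nat_lit 55) (.ch (nat_lit 54) (.ev (nat_lit 52) (nat_lit 134217744) (.ev (nat_lit 180) (nat_lit 33554432)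
 (.ev (nat_lit 308) (nat_lit 4) (.ev (nat_lit 372) (nat_lit 1048576) (.ev (nat_lit 564) (nat_lit 32768) (.nd
 (nat_lit 2864) (.br (nat_lit 4) (.ch (nat_lit 2) (.ev (nat_lit 2880) (nat_lit 536879104) .dd)) (.br (nat_lit
 11) (.ch (nat_lit 4) (.nd (nat_lit 2928) (.br (nat_lit 4) (.ch (nat_lit 1) (.fin (nat_lit
 576432714739565107))) (.ch (nat_lit 4) (.ev (nat_lit 2944) (nat_lit 536879104) .dd))))) (.ch (nat_lit 11) (.ev
 (nat_lit 2880) (nat_lit 536879104) .dd))))))))))) (.ch (nat_lit 55) (.ev (nat_lit 52) (nat_lit 537952272) (.ev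
 (nat_lit 964) (nat_lit 4) (.ev (nat_lit 1172) (nat_lit 8192) (.nd (nat_lit 2864) (.br (nat_lit 12) (.ch
 (nat_lit 7) (.nd (nat_lit 2928) (.br (nat_lit 18) (.ch (nat_lit 10) (.ev (nat_lit 2944) (nat_lit 167772160)
 .dd)) (.ch (nat_lit 18) (.fin (nat_lit 576456904004813370)))))) (.br (nat_lit 15) (.ch (nat_lit 12) (.ev
 (nat_lit 2880) (nat_lit 167772160) .dd)) (.ch (nat_lit 15) (.ev (nat_lit 2880) (nat_lit 167772160)
 .dd)))))))))) (.br (nat_lit 58) (.ch (nat_lit 57) (.ev (nat_lit 52) (nat_lit 671121424) (.ev (nat_lit 180)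
 (nat_lit 8192) (.ev (nat_lit 404) (nat_lit 4) (.ev (nat_lit 1092) (nat_lit 1048576) (.ev (nat_lit 1101)
 (nat_lit 33554432) .dd)))))) (.br (nat_lit 62) (.ch (nat_lit 58) (.ev (nat_lit 52) (nat_lit 8196) (.ev
 (nat_lit 84) (nat_lit 1048576) (.ev (nat_lit 340) (nat_lit 134217728) (.ev (nat_lit 932) (nat_lit 32768) (.ev
 (nat_lit 2148) (nat_lit 33554432) (.nd (nat_lit 2864) (.br (nat_lit 10) (.ch (nat_lit 9) (.nd (nat_lit 2928)
 (.br (nat_lit 14) (.ch (nat_lit 13) (.ev (nat_lit 2944) (nat_lit 536870928) .dd)) (.ch (nat_lit 14) (.fin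
 (nat_lit 576452505966690870)))))) (.br (nat_lit 12) (.ch (nat_lit 10) (.ev (nat_lit 2880) (nat_lit 536870928)
 .dd)) (.ch (nat_lit 12) (.ev (nat_lit 2880) (nat_lit 536870928) .dd))))))))))) (.ch (nat_lit 62) (.ev (nat_lit
 52) (nat_lit 135299088) (.ev (nat_lit 1396) (nat_lit 8192) (.ev (nat_lit 2816) (nat_lit 4) (.nd (nat_lit 2864)
 (.br (nat_lit 10) (.br (nat_lit 7) (.ch (nat_lit 2) (.fin (nat_lit 576448107921228345))) (.ch (nat_lit 7) (.ev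
 (nat_lit 2880) (nat_lit 33554432) (.ev (nat_lit 2893) (nat_lit 536870912) .dd)))) (.br (nat_lit 11) (.ch
 (nat_lit 10) (.ev (nat_lit 2880) (nat_lit 33554432) (.ev (nat_lit 2893) (nat_lit 536870912) .dd))) (.br
 (nat_lit 18) (.ch (nat_lit 11) (.ev (nat_lit 2880) (nat_lit 570425344) .dd)) (.ch (nat_lit 18) (.ev (nat_lit
 2880) (nat_lit 570425344) .dd))))))))))))) (.br (nat_lit 68) (.br (nat_lit 65) (.ch (nat_lit 64) (.ev (nat_lit
 52) (nat_lit 672169984) (.ev (nat_lit 340) (nat_lit 33554432) (.ev (nat_lit 596) (nat_lit 8192) (.ev (nat_lit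
 1952) (nat_lit 20) .dd))))) (.br (nat_lit 67) (.ch (nat_lit 65) (.ev (nat_lit 52) (nat_lit 536879104) (.ev
 (nat_lit 640) (nat_lit 168853524) .dd))) (.ch (nat_lit 67) (.ev (nat_lit 52) (nat_lit 537952260) (.ev (nat_lit
 1444) (nat_lit 33554432) (.ev (nat_lit 2800) (nat_lit 8192) (.nd (nat_lit 2864) (.br (nat_lit 15) (.ch
 (nat_lit 11) (.fin (nat_lit 576461302050275895))) (.ch (nat_lit 15) (.ev (nat_lit 2880) (nat_lit 134217744)
 .dd)))))))))) (.br (nat_lit 69) (.ch (nat_lit 68) (.ev (nat_lit 52) (nat_lit 167780356) (.ev (nat_lit 964)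
 (nat_lit 536870912) (.ev (nat_lit 1172) (nat_lit 32768) (.ev (nat_lit 2064) (nat_lit 1048592) .dd))))) (.br
 (nat_lit 70) (.ch (nat_lit 69) (.ev (nat_lit 52) (nat_lit 537952260) (.ev (nat_lit 628) (nat_lit 8192) (.ev
 (nat_lit 1060) (nat_lit 16) (.ev (nat_lit 2420) (nat_lit 134217728) (.ev (nat_lit 2429) (nat_lit 33554432)
 .dd)))))) (.ch (nat_lit 70) (.ev (nat_lit 52) (nat_lit 537952272) (.ev (nat_lit 724) (nat_lit 8192) (.ev
 (nat_lit 1300) (nat_lit 134217728) (.ev (nat_lit 2096) (nat_lit 33554436) .dd)))))))))))))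

/-- Subtrie. -/
noncomputable def T2 : Tr := (.ev (nat_lit 20) (nat_lit 697344004) (.nd (nat_lit 33) (.br (nat_lit 39) (.br
 (nat_lit 19) (.br (nat_lit 8) (.br (nat_lit 4) (.br (nat_lit 3) (.ch (nat_lit 1) (.ev (nat_lit 52) (nat_lit
 67633474) (.ev (nat_lit 1092) (nat_lit 268435456) (.ev (nat_lit 1204) (nat_lit 16) (.ev (nat_lit 1556)
 (nat_lit 262144) (.nd (nat_lit 2864) (.br (nat_lit 10) (.ch (nat_lit 0) (.ev (nat_lit 2880) (nat_lit 33570816)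
 (.nd (nat_lit 2928) (.br (nat_lit 18) (.ch (nat_lit 5) (.ev (nat_lit 2944) (nat_lit 6291456) .dd)) (.ch
 (nat_lit 18) (.fin (nat_lit 576464600600887876))))))) (.br (nat_lit 13) (.ch (nat_lit 10) (.ev (nat_lit 2880)
 (nat_lit 6291456) (.fin (nat_lit 576470098152735306)))) (.ch (nat_lit 13) (.ev (nat_lit 2880) (nat_lit
 39862272) .dd)))))))))) (.ch (nat_lit 3) (.ev (nat_lit 52) (nat_lit 104857616) (.ev (nat_lit 372) (nat_lit 64)
 (.ev (nat_lit 900) (nat_lit 262144) (.ev (nat_lit 964) (nat_lit 268435456) (.ev (nat_lit 1732) (nat_lit 16384)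
 (.ev (nat_lit 2244) (nat_lit 524288) (.nd (nat_lit 2864) (.br (nat_lit 15) (.br (nat_lit 7) (.ch (nat_lit 0)
 (.ev (nat_lit 2880) (nat_lit 256) (.ev (nat_lit 2896) (nat_lit 2) (.ev (nat_lit 2909) (nat_lit 2097152)
 .dd)))) (.ch (nat_lit 7) (.ev (nat_lit 2880) (nat_lit 258) (.ev (nat_lit 2893) (nat_lit 2097152) .dd)))) (.br
 (nat_lit 16) (.ch (nat_lit 15) (.ev (nat_lit 2916) (nat_lit 2) (.nd (nat_lit 2928) (.br (nat_lit 12) (.ch
 (nat_lit 1) (.ev (nat_lit 2944) (nat_lit 2097408) .dd)) (.ch (nat_lit 12) (.fin (nat_lit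
 576467899164082765))))))) (.ch (nat_lit 16) (.ev (nat_lit 2880) (nat_lit 2097408) (.ev (nat_lit 2893) (nat_lit
 2) .dd)))))))))))))) (.br (nat_lit 5) (.ch (nat_lit 4) (.ev (nat_lit 52) (nat_lit 340263170) (.ev (nat_lit
 1060) (nat_lit 64) (.ev (nat_lit 1364) (nat_lit 16384) (.ev (nat_lit 2356) (nat_lit 262144) (.ev (nat_lit
 2436) (nat_lit 33554432) (.nd (nat_lit 2864) (.br (nat_lit 7) (.br (nat_lit 6) (.ch (nat_lit 2) (.ev (nat_lit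
 2880) (nat_lit 16) (.ev (nat_lit 2893) (nat_lit 2097152) .dd))) (.ch (nat_lit 6) (.ev (nat_lit 2880) (nat_lit
 2097152) (.ev (nat_lit 2893) (nat_lit 16) .dd)))) (.br (nat_lit 11) (.ch (nat_lit 7) (.fin (nat_lit
 576463501079822913))) (.br (nat_lit 12) (.ch (nat_lit 11) (.ev (nat_lit 2880) (nat_lit 16) (.ev (nat_lit 2893)
 (nat_lit 2097152) .dd))) (.ch (nat_lit 12) (.ev (nat_lit 2880) (nat_lit 2097152) (.ev (nat_lit 2893) (nat_lit
 16) .dd))))))))))))) (.br (nat_lit 7) (.ch (nat_lit 5) (.ev (nat_lit 52) (nat_lit 786496) (.ev (nat_lit 84)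
 (nat_lit 2097152) (.ev (nat_lit 116) (nat_lit 16) (.ev (nat_lit 404) (nat_lit 4194304) (.ev (nat_lit 436)
 (nat_lit 67108864) (.ev (nat_lit 756) (nat_lit 2) (.ev (nat_lit 1488) (nat_lit 33571072) (.ev (nat_lit 1501)
 (nat_lit 268435456) .dd))))))))) (.ch (nat_lit 7) (.ev (nat_lit 52) (nat_lit 4718594) (.ev (nat_lit 820)
 (nat_lit 256) (.ev (nat_lit 1092) (nat_lit 2097152) (.ev (nat_lit 1252) (nat_lit 268435456) (.ev (nat_lit
 1652) (nat_lit 33554432) (.ev (nat_lit 1876) (nat_lit 16384) (.nd (nat_lit 2864) (.br (nat_lit 10) (.ch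
 (nat_lit 6) (.ev (nat_lit 2880) (nat_lit 262208) (.fin (nat_lit 576487690360799813)))) (.br (nat_lit 13) (.ch
 (nat_lit 10) (.ev (nat_lit 2880) (nat_lit 67108880) (.nd (nat_lit 2928) (.br (nat_lit 17) (.ch (nat_lit 12)
 (.fin (nat_lit 576461302063907397))) (.ch (nat_lit 17) (.ev (nat_lit 2944) (nat_lit 262208) .dd)))))) (.ch
 (nat_lit 13) (.ev (nat_lit 2880) (nat_lit 67371088) .dd))))))))))))))) (.br (nat_lit 15) (.br (nat_lit 11)
 (.ch (nat_lit 8) (.ev (nat_lit 52) (nat_lit 268435778) (.ev (nat_lit 276) (nat_lit 4194304) (.ev (nat_lit 500)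
 (nat_lit 524288) (.ev (nat_lit 1108) (nat_lit 33554432) (.ev (nat_lit 1252) (nat_lit 67108864) (.ev (nat_lit
 2640) (nat_lit 262144) (.ev (nat_lit 2832) (nat_lit 2097152) (.nd (nat_lit 2864) (.br (nat_lit 11) (.br
 (nat_lit 7) (.ch (nat_lit 0) (.ev (nat_lit 2880) (nat_lit 16400) .dd)) (.ch (nat_lit 7) (.ev (nat_lit 2880)
 (nat_lit 16384) (.ev (nat_lit 2893) (nat_lit 16) .dd)))) (.br (nat_lit 16) (.ch (nat_lit 11) (.ev (nat_lit
 2880) (nat_lit 16384) (.ev (nat_lit 2893) (nat_lit 16) .dd))) (.ch (nat_lit 16) (.fin (nat_lit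
 576470098153783909)))))))))))))) (.br (nat_lit 12) (.ch (nat_lit 11) (.ev (nat_lit 52) (nat_lit 38010946) (.ev
 (nat_lit 84) (nat_lit 67108864) (.ev (nat_lit 180) (nat_lit 524288) (.ev (nat_lit 756) (nat_lit 268435456)
 (.ev (nat_lit 1332) (nat_lit 16384) (.ev (nat_lit 1364) (nat_lit 256) (.nd (nat_lit 2864) (.br (nat_lit 12)
 (.br (nat_lit 7) (.ch (nat_lit 2) (.ev (nat_lit 2880) (nat_lit 16) (.ev (nat_lit 2893) (nat_lit 2097152)
 .dd))) (.ch (nat_lit 7) (.fin (nat_lit 576463501079822913)))) (.br (nat_lit 13) (.ch (nat_lit 12) (.ev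
 (nat_lit 2880) (nat_lit 2097152) (.ev (nat_lit 2893) (nat_lit 16) .dd))) (.br (nat_lit 15) (.ch (nat_lit 13)
 (.ev (nat_lit 2880) (nat_lit 16) (.ev (nat_lit 2893) (nat_lit 2097152) .dd))) (.ch (nat_lit 15) (.ev (nat_lit
 2880) (nat_lit 2097152) (.ev (nat_lit 2893) (nat_lit 16) .dd)))))))))))))) (.ch (nat_lit 12) (.ev (nat_lit 52)
 (nat_lit 302252288) (.ev (nat_lit 224) (nat_lit 73941074) .dd))))) (.br (nat_lit 16) (.ch (nat_lit 15) (.ev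
 (nat_lit 52) (nat_lit 104857920) (.ev (nat_lit 308) (nat_lit 268435456) (.ev (nat_lit 1060) (nat_lit 16) (.ev
 (nat_lit 1876) (nat_lit 262144) (.ev (nat_lit 2736) (nat_lit 2097152) (.nd (nat_lit 2864) (.br (nat_lit 13)
 (.ch (nat_lit 11) (.ev (nat_lit 2880) (nat_lit 524288) (.fin (nat_lit 576467899124236877)))) (.ch (nat_lit 13)
 (.ev (nat_lit 2880) (nat_lit 16386) (.ev (nat_lit 2893) (nat_lit 524288) .dd))))))))))) (.br (nat_lit 18) (.ch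
 (nat_lit 16) (.ev (nat_lit 52) (nat_lit 336347394) (.ev (nat_lit 116) (nat_lit 4194304) (.ev (nat_lit 468)
 (nat_lit 2097152) (.ev (nat_lit 1028) (nat_lit 16) (.ev (nat_lit 2128) (nat_lit 33554496) .dd)))))) (.ch
 (nat_lit 18) (.ev (nat_lit 52) (nat_lit 38273296) (.ev (nat_lit 116) (nat_lit 268435456) (.ev (nat_lit 1748)
 (nat_lit 67108864) (.ev (nat_lit 1908) (nat_lit 16384) (.ev (nat_lit 2656) (nat_lit 2097154) (.nd (nat_lit
 2864) (.br (nat_lit 12) (.br (nat_lit 10) (.ch (nat_lit 0) (.ev (nat_lit 2880) (nat_lit 262144) (.ev (nat_lit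
 2893) (nat_lit 64) .dd))) (.ch (nat_lit 10) (.nd (nat_lit 2928) (.br (nat_lit 12) (.ch (nat_lit 9) (.ev
 (nat_lit 2944) (nat_lit 262208) .dd)) (.ch (nat_lit 12) (.fin (nat_lit 576461302057615931))))))) (.br (nat_lit
 16) (.ch (nat_lit 12) (.ev (nat_lit 2880) (nat_lit 262144) (.ev (nat_lit 2893) (nat_lit 64) .dd))) (.ch
 (nat_lit 16) (.ev (nat_lit 2880) (nat_lit 262208) .dd))))))))))))))) (.br (nat_lit 29) (.br (nat_lit 23) (.br
 (nat_lit 22) (.ch (nat_lit 19) (.ev (nat_lit 52) (nat_lit 371195904) (.ev (nat_lit 1060) (nat_lit 4194304)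
 (.ev (nat_lit 1908) (nat_lit 256) (.ev (nat_lit 2480) (nat_lit 262208) (.nd (nat_lit 2864) (.br (nat_lit 12)
 (.ch (nat_lit 11) (.ev (nat_lit 2880) (nat_lit 524304) (.nd (nat_lit 2928) (.br (nat_lit 3) (.ch (nat_lit 0)
 (.ev (nat_lit 2944) (nat_lit 16386) .dd)) (.ch (nat_lit 3) (.fin (nat_lit 576467899124236877))))))) (.br
 (nat_lit 15) (.ch (nat_lit 12) (.ev (nat_lit 2880) (nat_lit 16386) (.ev (nat_lit 2896) (nat_lit 524288) (.ev
 (nat_lit 2909) (nat_lit 16) .dd)))) (.ch (nat_lit 15) (.ev (nat_lit 2880) (nat_lit 540674) (.ev (nat_lit 2893)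
 (nat_lit 16) .dd))))))))))) (.ch (nat_lit 22) (.ev (nat_lit 52) (nat_lit 105136192) (.ev (nat_lit 276)
 (nat_lit 270532608) (.ev (nat_lit 852) (nat_lit 524288) (.ev (nat_lit 1700) (nat_lit 256) (.ev (nat_lit 2304)
 (nat_lit 16) (.ev (nat_lit 2317) (nat_lit 2) .dd)))))))) (.br (nat_lit 24) (.ch (nat_lit 23) (.ev (nat_lit 52)
 (nat_lit 786498) (.ev (nat_lit 436) (nat_lit 16) (.ev (nat_lit 1524) (nat_lit 16384) (.ev (nat_lit 1652)
 (nat_lit 256) (.nd (nat_lit 2864) (.br (nat_lit 12) (.ch (nat_lit 0) (.ev (nat_lit 2880) (nat_lit 369098752)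
 (.nd (nat_lit 2928) (.br (nat_lit 18) (.ch (nat_lit 1) (.ev (nat_lit 2944) (nat_lit 6291456) .dd)) (.ch
 (nat_lit 18) (.fin (nat_lit 576464600600887876))))))) (.br (nat_lit 16) (.ch (nat_lit 12) (.ev (nat_lit 2880)
 (nat_lit 106954752) (.ev (nat_lit 2893) (nat_lit 268435456) .dd))) (.ch (nat_lit 16) (.ev (nat_lit 2880)
 (nat_lit 274726912) (.fin (nat_lit 576470098164269635)))))))))))) (.br (nat_lit 26) (.ch (nat_lit 24) (.ev
 (nat_lit 52) (nat_lit 4456784) (.ev (nat_lit 320) (nat_lit 371736578) .dd))) (.ch (nat_lit 26) (.ev (nat_lit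
 52) (nat_lit 69992464) (.ev (nat_lit 84) (nat_lit 64) (.ev (nat_lit 372) (nat_lit 268435456) (.ev (nat_lit
 980) (nat_lit 33554432) (.ev (nat_lit 1732) (nat_lit 256) (.ev (nat_lit 2020) (nat_lit 2) (.ev (nat_lit 2404)
 (nat_lit 4194304) (.ev (nat_lit 2413) (nat_lit 16384) .dd)))))))))))) (.br (nat_lit 34) (.br (nat_lit 31) (.ch
 (nat_lit 29) (.ev (nat_lit 52) (nat_lit 107479120) (.ev (nat_lit 992) (nat_lit 268714242) .dd))) (.br (nat_lit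
 33) (.ch (nat_lit 31) (.ev (nat_lit 52) (nat_lit 371736592) (.ev (nat_lit 912) (nat_lit 4456770) .dd))) (.ch
 (nat_lit 33) (.ev (nat_lit 52) (nat_lit 35651842) (.ev (nat_lit 116) (nat_lit 67108864) (.ev (nat_lit 244)
 (nat_lit 524288) (.ev (nat_lit 532) (nat_lit 4194304) (.ev (nat_lit 660) (nat_lit 262144) (.ev (nat_lit 884)
 (nat_lit 268435456) (.ev (nat_lit 1568) (nat_lit 16464) .dd)))))))))) (.br (nat_lit 36) (.ch (nat_lit 34) (.ev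
 (nat_lit 52) (nat_lit 306987008) (.ev (nat_lit 276) (nat_lit 67108864) (.ev (nat_lit 404) (nat_lit 16) (.ev
 (nat_lit 1476) (nat_lit 256) (.ev (nat_lit 1684) (nat_lit 2097152) (.ev (nat_lit 2032) (nat_lit 66) .dd)))))))
 (.br (nat_lit 38) (.ch (nat_lit 36) (.ev (nat_lit 52) (nat_lit 105644032) (.ev (nat_lit 436) (nat_lit
 268435456) (.ev (nat_lit 692) (nat_lit 2097152) (.ev (nat_lit 2576) (nat_lit 320) (.nd (nat_lit 2864) (.br
 (nat_lit 2) (.ch (nat_lit 0) (.ev (nat_lit 2880) (nat_lit 16400) (.ev (nat_lit 2893) (nat_lit 2) .dd))) (.br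
 (nat_lit 16) (.ch (nat_lit 2) (.ev (nat_lit 2880) (nat_lit 16402) .dd)) (.ch (nat_lit 16) (.ev (nat_lit 2880)
 (nat_lit 2) (.fin (nat_lit 576452505967739419)))))))))))) (.ch (nat_lit 38) (.ev (nat_lit 52) (nat_lit
 304873552) (.ev (nat_lit 468) (nat_lit 67108864) (.ev (nat_lit 1812) (nat_lit 256) (.ev (nat_lit 1988)
 (nat_lit 2) (.ev (nat_lit 2160) (nat_lit 16384) (.ev (nat_lit 2173) (nat_lit 4194304) .dd)))))))))))) (.br
 (nat_lit 54) (.br (nat_lit 47) (.br (nat_lit 43) (.br (nat_lit 42) (.ch (nat_lit 39) (.ev (nat_lit 52)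
 (nat_lit 306708546) (.ev (nat_lit 372) (nat_lit 2097152) (.ev (nat_lit 756) (nat_lit 67108864) (.ev (nat_lit
 1376) (nat_lit 278800) .dd))))) (.ch (nat_lit 42) (.ev (nat_lit 52) (nat_lit 302514448) (.ev (nat_lit 532)
 (nat_lit 67108864) (.ev (nat_lit 660) (nat_lit 16384) (.ev (nat_lit 1120) (nat_lit 6553664) (.ev (nat_lit
 1133) (nat_lit 2) .dd))))))) (.br (nat_lit 44) (.ch (nat_lit 43) (.ev (nat_lit 52) (nat_lit 341852176) (.ev
 (nat_lit 608) (nat_lit 34341186) .dd))) (.br (nat_lit 46) (.ch (nat_lit 44) (.ev (nat_lit 52) (nat_lit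
 335560704) (.ev (nat_lit 160) (nat_lit 40632658) .dd))) (.ch (nat_lit 46) (.ev (nat_lit 52) (nat_lit
 100663362) (.ev (nat_lit 192) (nat_lit 275530000) .dd)))))) (.br (nat_lit 50) (.br (nat_lit 48) (.ch (nat_lit
 47) (.ev (nat_lit 52) (nat_lit 69484560) (.ev (nat_lit 404) (nat_lit 268435456) (.ev (nat_lit 564) (nat_lit
 524288) (.ev (nat_lit 660) (nat_lit 33554432) (.ev (nat_lit 884) (nat_lit 4194304) (.ev (nat_lit 2020)
 (nat_lit 64) (.ev (nat_lit 2260) (nat_lit 2) (.ev (nat_lit 2269) (nat_lit 256) .dd))))))))) (.br (nat_lit 49)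
 (.ch (nat_lit 48) (.ev (nat_lit 52) (nat_lit 304103490) (.ev (nat_lit 544) (nat_lit 72089872) .dd))) (.ch
 (nat_lit 49) (.ev (nat_lit 52) (nat_lit 16386) (.ev (nat_lit 372) (nat_lit 67108864) (.ev (nat_lit 596)
 (nat_lit 524288) (.ev (nat_lit 1364) (nat_lit 262144) (.ev (nat_lit 1940) (nat_lit 16) (.ev (nat_lit 2116)
 (nat_lit 33554432) (.ev (nat_lit 2496) (nat_lit 4194368) (.nd (nat_lit 2864) (.br (nat_lit 11) (.ch (nat_lit
 2) (.ev (nat_lit 2880) (nat_lit 270532864) .dd)) (.br (nat_lit 15) (.ch (nat_lit 11) (.ev (nat_lit 2880)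
 (nat_lit 2097408) (.ev (nat_lit 2893) (nat_lit 268435456) .dd))) (.ch (nat_lit 15) (.ev (nat_lit 2880)
 (nat_lit 268435456) (.fin (nat_lit 576454704957440563))))))))))))))))) (.br (nat_lit 51) (.ch (nat_lit 50)
 (.ev (nat_lit 52) (nat_lit 40386880) (.ev (nat_lit 308) (nat_lit 2) (.ev (nat_lit 2388) (nat_lit 262144) (.nd
 (nat_lit 2864) (.br (nat_lit 12) (.br (nat_lit 11) (.ch (nat_lit 6) (.ev (nat_lit 2916) (nat_lit 268435456)
 (.nd (nat_lit 2928) (.br (nat_lit 17) (.ch (nat_lit 7) (.fin (nat_lit 576434913760723515))) (.ch (nat_lit 17)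
 (.ev (nat_lit 2944) (nat_lit 67108880) .dd)))))) (.ch (nat_lit 11) (.ev (nat_lit 2880) (nat_lit 67108864) (.ev
 (nat_lit 2896) (nat_lit 268435456) (.ev (nat_lit 2909) (nat_lit 16) .dd))))) (.br (nat_lit 15) (.ch (nat_lit
 12) (.ev (nat_lit 2880) (nat_lit 67108880) (.ev (nat_lit 2893) (nat_lit 268435456) .dd))) (.ch (nat_lit 15)
 (.ev (nat_lit 2880) (nat_lit 335544320) (.ev (nat_lit 2893) (nat_lit 16) .dd)))))))))) (.br (nat_lit 53) (.ch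
 (nat_lit 51) (.ev (nat_lit 52) (nat_lit 269222146) (.ev (nat_lit 84) (nat_lit 4194320) (.ev (nat_lit 756)
 (nat_lit 2097152) (.ev (nat_lit 1284) (nat_lit 16384) (.ev (nat_lit 1424) (nat_lit 100663360) .dd)))))) (.ch
 (nat_lit 53) (.ev (nat_lit 52) (nat_lit 270795026) (.ev (nat_lit 468) (nat_lit 64) (.ev (nat_lit 628) (nat_lit
 524288) (.ev (nat_lit 1844) (nat_lit 16384) (.ev (nat_lit 2784) (nat_lit 4194304) (.nd (nat_lit 2864) (.br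
 (nat_lit 7) (.br (nat_lit 5) (.ch (nat_lit 2) (.ev (nat_lit 2880) (nat_lit 67108864) (.ev (nat_lit 2893)
 (nat_lit 33554432) .dd))) (.ch (nat_lit 5) (.ev (nat_lit 2880) (nat_lit 100663296) .dd))) (.br (nat_lit 12)
 (.ch (nat_lit 7) (.ev (nat_lit 2880) (nat_lit 100663296) .dd)) (.br (nat_lit 16) (.ch (nat_lit 12) (.ev
 (nat_lit 2880) (nat_lit 67108864) (.ev (nat_lit 2893) (nat_lit 33554432) .dd))) (.ch (nat_lit 16) (.fin
 (nat_lit 576452505957253693))))))))))))))))) (.br (nat_lit 64) (.br (nat_lit 57) (.br (nat_lit 55) (.ch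
 (nat_lit 54) (.ev (nat_lit 52) (nat_lit 272646480) (.ev (nat_lit 480) (nat_lit 103546882) .dd))) (.ch (nat_lit
 55) (.ev (nat_lit 52) (nat_lit 272891922) (.ev (nat_lit 340) (nat_lit 524288) (.ev (nat_lit 704) (nat_lit
 102777152) .dd))))) (.br (nat_lit 58) (.ch (nat_lit 57) (.ev (nat_lit 52) (nat_lit 2375762) (.ev (nat_lit 576)
 (nat_lit 373817600) .dd))) (.br (nat_lit 62) (.ch (nat_lit 58) (.ev (nat_lit 52) (nat_lit 73924674) (.ev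
 (nat_lit 468) (nat_lit 268435456) (.ev (nat_lit 820) (nat_lit 33554432) (.ev (nat_lit 1152) (nat_lit 278800)
 .dd))))) (.ch (nat_lit 62) (.ev (nat_lit 52) (nat_lit 2376018) (.ev (nat_lit 832) (nat_lit 373817344)
 .dd)))))) (.br (nat_lit 68) (.br (nat_lit 65) (.ch (nat_lit 64) (.ev (nat_lit 52) (nat_lit 67125568) (.ev
 (nat_lit 84) (nat_lit 268435456) (.ev (nat_lit 116) (nat_lit 2097152) (.ev (nat_lit 532) (nat_lit 2) (.ev
 (nat_lit 964) (nat_lit 4194304) (.ev (nat_lit 1332) (nat_lit 33554432) (.ev (nat_lit 2224) (nat_lit 786448)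
 .dd)))))))) (.br (nat_lit 67) (.ch (nat_lit 65) (.ev (nat_lit 52) (nat_lit 7094530) (.ev (nat_lit 768)
 (nat_lit 369098832) .dd))) (.ch (nat_lit 67) (.ev (nat_lit 52) (nat_lit 340262912) (.ev (nat_lit 2464)
 (nat_lit 274) (.ev (nat_lit 2752) (nat_lit 2359296) (.nd (nat_lit 2864) (.br (nat_lit 7) (.br (nat_lit 2) (.ch
 (nat_lit 0) (.ev (nat_lit 2880) (nat_lit 33570816) (.ev (nat_lit 2893) (nat_lit 64) .dd))) (.ch (nat_lit 2)
 (.ev (nat_lit 2880) (nat_lit 16448) (.ev (nat_lit 2893) (nat_lit 33554432) .dd)))) (.br (nat_lit 10) (.ch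
 (nat_lit 7) (.ev (nat_lit 2880) (nat_lit 33570816) (.ev (nat_lit 2893) (nat_lit 64) .dd))) (.br (nat_lit 12)
 (.ch (nat_lit 10) (.ev (nat_lit 2880) (nat_lit 64) (.fin (nat_lit 576470098152735306)))) (.ch (nat_lit 12)
 (.ev (nat_lit 2880) (nat_lit 16448) (.ev (nat_lit 2893) (nat_lit 33554432) .dd))))))))))))) (.br (nat_lit 69)
 (.ch (nat_lit 68) (.ev (nat_lit 52) (nat_lit 306987010) (.ev (nat_lit 308) (nat_lit 2097152) (.ev (nat_lit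
 404) (nat_lit 64) (.ev (nat_lit 1600) (nat_lit 67109136) .dd))))) (.br (nat_lit 70) (.ch (nat_lit 69) (.ev
 (nat_lit 52) (nat_lit 67371264) (.ev (nat_lit 128) (nat_lit 308822098) .dd))) (.ch (nat_lit 70) (.ev (nat_lit
 52) (nat_lit 341836112) (.ev (nat_lit 148) (nat_lit 524288) (.ev (nat_lit 468) (nat_lit 2) (.ev (nat_lit 820)
 (nat_lit 262144) (.ev (nat_lit 1284) (nat_lit 33554432) (.ev (nat_lit 1293) (nat_lit 16384) .dd)))))))))))))))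

/-- Subtrie. -/
noncomputable def T8 : Tr := (.ev (nat_lit 20) (nat_lit 613957952) (.nd (nat_lit 33) (.br (nat_lit 39) (.br
 (nat_lit 19) (.br (nat_lit 8) (.br (nat_lit 4) (.br (nat_lit 3) (.ch (nat_lit 1) (.ev (nat_lit 52) (nat_lit
 151027718) (.ev (nat_lit 820) (nat_lit 262144) (.ev (nat_lit 1012) (nat_lit 268435456) (.ev (nat_lit 1684)
 (nat_lit 33554432) (.nd (nat_lit 2864) (.br (nat_lit 10) (.ch (nat_lit 4) (.ev (nat_lit 2880) (nat_lit 8208)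
 (.nd (nat_lit 2928) (.br (nat_lit 13) (.ch (nat_lit 0) (.fin (nat_lit 576464600600887876))) (.ch (nat_lit 13)
 (.ev (nat_lit 2944) (nat_lit 6291456) .dd)))))) (.br (nat_lit 13) (.ch (nat_lit 10) (.ev (nat_lit 2880)
 (nat_lit 6299664) .dd)) (.ch (nat_lit 13) (.ev (nat_lit 2880) (nat_lit 6291456) (.fin (nat_lit
 576465700097835582)))))))))))) (.ch (nat_lit 3) (.ev (nat_lit 52) (nat_lit 188751888) (.ev (nat_lit 148)
 (nat_lit 32768) (.ev (nat_lit 628) (nat_lit 268435456) (.ev (nat_lit 1140) (nat_lit 2097154) (.ev (nat_lit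
 1732) (nat_lit 262144) (.ev (nat_lit 1741) (nat_lit 4) .dd)))))))) (.br (nat_lit 5) (.ch (nat_lit 4) (.ev
 (nat_lit 52) (nat_lit 289406978) (.ev (nat_lit 244) (nat_lit 2097152) (.ev (nat_lit 416) (nat_lit 168075284)
 .dd)))) (.br (nat_lit 7) (.ch (nat_lit 5) (.ev (nat_lit 52) (nat_lit 17080324) (.ev (nat_lit 180) (nat_lit
 2097152) (.ev (nat_lit 340) (nat_lit 268435456) (.ev (nat_lit 1040) (nat_lit 171966482) .dd))))) (.ch (nat_lit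
 7) (.ev (nat_lit 52) (nat_lit 138420230) (.ev (nat_lit 288) (nat_lit 321159184) .dd)))))) (.br (nat_lit 15)
 (.br (nat_lit 11) (.ch (nat_lit 8) (.ev (nat_lit 52) (nat_lit 285212674) (.ev (nat_lit 96) (nat_lit 174366740)
 .dd))) (.br (nat_lit 12) (.ch (nat_lit 11) (.ev (nat_lit 52) (nat_lit 54788098) (.ev (nat_lit 148) (nat_lit
 134217728) (.ev (nat_lit 736) (nat_lit 270573588) .dd)))) (.ch (nat_lit 12) (.ev (nat_lit 52) (nat_lit
 319070212) (.ev (nat_lit 244) (nat_lit 4194304) (.ev (nat_lit 1444) (nat_lit 2) (.ev (nat_lit 1812) (nat_lit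
 16) (.nd (nat_lit 2864) (.br (nat_lit 13) (.br (nat_lit 8) (.ch (nat_lit 3) (.ev (nat_lit 2880) (nat_lit
 2097152) (.ev (nat_lit 2893) (nat_lit 134217728) .dd))) (.ch (nat_lit 8) (.fin (nat_lit 576456904014250559))))
 (.br (nat_lit 14) (.ch (nat_lit 13) (.ev (nat_lit 2880) (nat_lit 134217728) (.ev (nat_lit 2893) (nat_lit
 2097152) .dd))) (.br (nat_lit 16) (.ch (nat_lit 14) (.ev (nat_lit 2880) (nat_lit 2097152) (.ev (nat_lit 2893)
 (nat_lit 134217728) .dd))) (.ch (nat_lit 16) (.ev (nat_lit 2880) (nat_lit 134217728) (.ev (nat_lit 2893)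
 (nat_lit 2097152) .dd)))))))))))))) (.br (nat_lit 16) (.ch (nat_lit 15) (.ev (nat_lit 52) (nat_lit 37781508)
 (.ev (nat_lit 2448) (nat_lit 18874370) (.ev (nat_lit 2720) (nat_lit 268697600) (.nd (nat_lit 2864) (.br
 (nat_lit 10) (.br (nat_lit 6) (.ch (nat_lit 3) (.ev (nat_lit 2880) (nat_lit 134217744) (.ev (nat_lit 2893)
 (nat_lit 8192) .dd))) (.ch (nat_lit 6) (.ev (nat_lit 2880) (nat_lit 134217744) (.ev (nat_lit 2893) (nat_lit
 8192) .dd)))) (.br (nat_lit 13) (.ch (nat_lit 10) (.ev (nat_lit 2880) (nat_lit 8208) (.ev (nat_lit 2893)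
 (nat_lit 134217728) .dd))) (.br (nat_lit 14) (.ch (nat_lit 13) (.ev (nat_lit 2880) (nat_lit 134217728) (.fin
 (nat_lit 576465700097835582)))) (.ch (nat_lit 14) (.ev (nat_lit 2880) (nat_lit 8208) (.ev (nat_lit 2893)
 (nat_lit 134217728) .dd))))))))))) (.br (nat_lit 18) (.ch (nat_lit 16) (.ev (nat_lit 52) (nat_lit 419692546)
 (.ev (nat_lit 256) (nat_lit 39886868) .dd))) (.ch (nat_lit 18) (.ev (nat_lit 52) (nat_lit 37781524) (.ev
 (nat_lit 148) (nat_lit 268435456) (.ev (nat_lit 244) (nat_lit 2) (.ev (nat_lit 1364) (nat_lit 262144) (.ev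
 (nat_lit 2688) (nat_lit 18874368) (.nd (nat_lit 2864) (.br (nat_lit 16) (.br (nat_lit 15) (.ch (nat_lit 3)
 (.fin (nat_lit 576467899096973901))) (.ch (nat_lit 15) (.ev (nat_lit 2880) (nat_lit 134217728) (.ev (nat_lit
 2893) (nat_lit 8192) .dd)))) (.br (nat_lit 18) (.ch (nat_lit 16) (.ev (nat_lit 2880) (nat_lit 134217728) (.ev
 (nat_lit 2893) (nat_lit 8192) .dd))) (.ch (nat_lit 18) (.ev (nat_lit 2880) (nat_lit 134225920)
 .dd))))))))))))))) (.br (nat_lit 29) (.br (nat_lit 23) (.br (nat_lit 22) (.ch (nat_lit 19) (.ev (nat_lit 52)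
 (nat_lit 320864260) (.ev (nat_lit 384) (nat_lit 138715154) .dd))) (.ch (nat_lit 22) (.ev (nat_lit 52) (nat_lit
 172236800) (.ev (nat_lit 448) (nat_lit 287342614) .dd)))) (.br (nat_lit 24) (.ch (nat_lit 23) (.ev (nat_lit
 52) (nat_lit 134479874) (.ev (nat_lit 532) (nat_lit 33554432) (.ev (nat_lit 932) (nat_lit 268435456) (.ev
 (nat_lit 1508) (nat_lit 32768) (.ev (nat_lit 1780) (nat_lit 16777216) (.nd (nat_lit 2864) (.br (nat_lit 4)
 (.ch (nat_lit 3) (.ev (nat_lit 2880) (nat_lit 6291476) (.ev (nat_lit 2893) (nat_lit 8192) .dd))) (.br (nat_lit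
 9) (.ch (nat_lit 4) (.ev (nat_lit 2880) (nat_lit 8212) (.nd (nat_lit 2928) (.br (nat_lit 3) (.ch (nat_lit 0)
 (.fin (nat_lit 576464600600887876))) (.ch (nat_lit 3) (.ev (nat_lit 2944) (nat_lit 6291456) .dd)))))) (.ch
 (nat_lit 9) (.ev (nat_lit 2880) (nat_lit 6299648) (.fin (nat_lit 576467899136819789))))))))))))) (.br (nat_lit
 26) (.ch (nat_lit 24) (.ev (nat_lit 52) (nat_lit 4489232) (.ev (nat_lit 212) (nat_lit 2097152) (.ev (nat_lit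
 564) (nat_lit 4) (.ev (nat_lit 2608) (nat_lit 167772160) (.nd (nat_lit 2864) (.br (nat_lit 15) (.ch (nat_lit
 3) (.ev (nat_lit 2880) (nat_lit 268443648) (.ev (nat_lit 2896) (nat_lit 16777216) (.ev (nat_lit 2909) (nat_lit
 2) .dd)))) (.br (nat_lit 18) (.ch (nat_lit 15) (.ev (nat_lit 2880) (nat_lit 285220864) (.ev (nat_lit 2893)
 (nat_lit 2) .dd))) (.ch (nat_lit 18) (.ev (nat_lit 2880) (nat_lit 16777218) (.nd (nat_lit 2928) (.br (nat_lit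
 7) (.ch (nat_lit 0) (.fin (nat_lit 576470098143298117))) (.ch (nat_lit 7) (.ev (nat_lit 2944) (nat_lit
 268443648) .dd)))))))))))))) (.ch (nat_lit 26) (.ev (nat_lit 52) (nat_lit 136577044) (.ev (nat_lit 148)
 (nat_lit 4194304) (.ev (nat_lit 308) (nat_lit 33554432) (.ev (nat_lit 788) (nat_lit 32768) (.ev (nat_lit 1332)
 (nat_lit 8192) (.ev (nat_lit 1652) (nat_lit 16777216) (.ev (nat_lit 2000) (nat_lit 268435458) .dd)))))))))))
 (.br (nat_lit 34) (.br (nat_lit 31) (.ch (nat_lit 29) (.ev (nat_lit 52) (nat_lit 39886864) (.ev (nat_lit 596)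
 (nat_lit 4) (.ev (nat_lit 660) (nat_lit 16777216) (.ev (nat_lit 1396) (nat_lit 134217728) (.ev (nat_lit 2052)
 (nat_lit 2) (.ev (nat_lit 2324) (nat_lit 268435456) (.ev (nat_lit 2333) (nat_lit 262144) .dd)))))))) (.br
 (nat_lit 33) (.ch (nat_lit 31) (.ev (nat_lit 52) (nat_lit 438304788) (.ev (nat_lit 180) (nat_lit 2) (.ev
 (nat_lit 944) (nat_lit 21274624) .dd)))) (.ch (nat_lit 33) (.ev (nat_lit 52) (nat_lit 52461574) (.ev (nat_lit
 852) (nat_lit 4194304) (.ev (nat_lit 1412) (nat_lit 262144) (.ev (nat_lit 1556) (nat_lit 8192) (.ev (nat_lit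
 1780) (nat_lit 16) (.ev (nat_lit 2244) (nat_lit 134217728) (.ev (nat_lit 2253) (nat_lit 268435456)
 .dd)))))))))) (.br (nat_lit 36) (.ch (nat_lit 34) (.ev (nat_lit 52) (nat_lit 306479108) (.ev (nat_lit 628)
 (nat_lit 2) (.ev (nat_lit 724) (nat_lit 2097152) (.ev (nat_lit 1184) (nat_lit 151003152) .dd))))) (.br
 (nat_lit 38) (.ch (nat_lit 36) (.ev (nat_lit 52) (nat_lit 38051844) (.ev (nat_lit 1620) (nat_lit 134217728)
 (.ev (nat_lit 1844) (nat_lit 16) (.ev (nat_lit 2672) (nat_lit 268435456) (.ev (nat_lit 2848) (nat_lit 2097152)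
 (.nd (nat_lit 2864) (.br (nat_lit 6) (.br (nat_lit 4) (.ch (nat_lit 3) (.ev (nat_lit 2880) (nat_lit 2) (.ev
 (nat_lit 2893) (nat_lit 16777216) .dd))) (.ch (nat_lit 4) (.ev (nat_lit 2880) (nat_lit 16777218) .dd))) (.br
 (nat_lit 18) (.ch (nat_lit 6) (.nd (nat_lit 2928) (.br (nat_lit 1) (.ch (nat_lit 0) (.fin (nat_lit
 576459103032263233))) (.ch (nat_lit 1) (.ev (nat_lit 2944) (nat_lit 16777218) .dd))))) (.ch (nat_lit 18) (.ev
 (nat_lit 2880) (nat_lit 2) (.ev (nat_lit 2893) (nat_lit 16777216) .dd)))))))))))) (.ch (nat_lit 38) (.ev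
 (nat_lit 52) (nat_lit 321134612) (.ev (nat_lit 596) (nat_lit 4194304) (.ev (nat_lit 724) (nat_lit 2) (.ev
 (nat_lit 1012) (nat_lit 32768) (.ev (nat_lit 1021) (nat_lit 134217728) .dd))))))))))) (.br (nat_lit 54) (.br
 (nat_lit 47) (.br (nat_lit 43) (.br (nat_lit 42) (.ch (nat_lit 39) (.ev (nat_lit 52) (nat_lit 306192386) (.ev
 (nat_lit 500) (nat_lit 2097152) (.ev (nat_lit 660) (nat_lit 262144) (.ev (nat_lit 2084) (nat_lit 16) (.ev
 (nat_lit 2260) (nat_lit 16777216) (.nd (nat_lit 2864) (.br (nat_lit 4) (.ch (nat_lit 3) (.ev (nat_lit 2880)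
 (nat_lit 134250500) .dd)) (.br (nat_lit 15) (.ch (nat_lit 4) (.ev (nat_lit 2880) (nat_lit 134217732) (.ev
 (nat_lit 2893) (nat_lit 32768) .dd))) (.ch (nat_lit 15) (.ev (nat_lit 2880) (nat_lit 32768) (.fin (nat_lit
 576472297189622371))))))))))))) (.ch (nat_lit 42) (.ev (nat_lit 52) (nat_lit 452993044) (.ev (nat_lit 2592)
 (nat_lit 4194306) (.nd (nat_lit 2864) (.br (nat_lit 8) (.br (nat_lit 4) (.ch (nat_lit 3) (.ev (nat_lit 2880)
 (nat_lit 2359296) (.ev (nat_lit 2893) (nat_lit 32768) .dd))) (.ch (nat_lit 4) (.ev (nat_lit 2880) (nat_lit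
 262144) (.ev (nat_lit 2896) (nat_lit 32768) (.ev (nat_lit 2909) (nat_lit 2097152) .dd))))) (.br (nat_lit 18)
 (.ch (nat_lit 8) (.ev (nat_lit 2880) (nat_lit 262144) (.ev (nat_lit 2916) (nat_lit 32768) (.ev (nat_lit 2925)
 (nat_lit 2097152) .dd)))) (.ch (nat_lit 18) (.ev (nat_lit 2880) (nat_lit 32768) (.fin (nat_lit
 576487690360799827))))))))))) (.br (nat_lit 44) (.ch (nat_lit 43) (.ev (nat_lit 52) (nat_lit 408952852) (.ev
 (nat_lit 788) (nat_lit 2) (.ev (nat_lit 820) (nat_lit 16777216) (.ev (nat_lit 1940) (nat_lit 33554432) (.nd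
 (nat_lit 2864) (.br (nat_lit 10) (.br (nat_lit 6) (.ch (nat_lit 3) (.ev (nat_lit 2880) (nat_lit 294912) .dd))
 (.br (nat_lit 8) (.ch (nat_lit 6) (.ev (nat_lit 2880) (nat_lit 294912) .dd)) (.ch (nat_lit 8) (.ev (nat_lit
 2896) (nat_lit 32768) (.ev (nat_lit 2909) (nat_lit 262144) .dd))))) (.br (nat_lit 13) (.ch (nat_lit 10) (.ev
 (nat_lit 2880) (nat_lit 32768) (.ev (nat_lit 2893) (nat_lit 262144) .dd))) (.br (nat_lit 16) (.ch (nat_lit 13)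
 (.ev (nat_lit 2880) (nat_lit 294912) .dd)) (.ch (nat_lit 16) (.ev (nat_lit 2880) (nat_lit 294912)
 .dd))))))))))) (.br (nat_lit 46) (.ch (nat_lit 44) (.ev (nat_lit 52) (nat_lit 268443648) (.ev (nat_lit 64)
 (nat_lit 191135766) .dd))) (.ch (nat_lit 46) (.ev (nat_lit 52) (nat_lit 33562626) (.ev (nat_lit 212) (nat_lit
 32768) (.ev (nat_lit 244) (nat_lit 268435456) (.ev (nat_lit 340) (nat_lit 2097152) (.ev (nat_lit 1284)
 (nat_lit 262144) (.ev (nat_lit 1332) (nat_lit 16777216) (.ev (nat_lit 1588) (nat_lit 134217728) (.ev (nat_lit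
 2768) (nat_lit 4194304) (.nd (nat_lit 2864) (.br (nat_lit 16) (.ch (nat_lit 9) (.fin (nat_lit
 576467899136819789))) (.ch (nat_lit 16) (.ev (nat_lit 2880) (nat_lit 20) .dd)))))))))))))))) (.br (nat_lit 50)
 (.br (nat_lit 48) (.ch (nat_lit 47) (.ev (nat_lit 52) (nat_lit 2400272) (.ev (nat_lit 180) (nat_lit 268435456)
 (.ev (nat_lit 564) (nat_lit 4194304) (.ev (nat_lit 1252) (nat_lit 33554432) (.nd (nat_lit 2864) (.br (nat_lit
 9) (.br (nat_lit 8) (.ch (nat_lit 6) (.ev (nat_lit 2880) (nat_lit 134217732) (.fin (nat_lit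
 576463501089260095)))) (.ch (nat_lit 8) (.ev (nat_lit 2880) (nat_lit 16777220) (.ev (nat_lit 2896) (nat_lit 2)
 (.ev (nat_lit 2909) (nat_lit 134217728) .dd))))) (.br (nat_lit 15) (.ch (nat_lit 9) (.ev (nat_lit 2880)
 (nat_lit 16777222) (.ev (nat_lit 2893) (nat_lit 134217728) .dd))) (.ch (nat_lit 15) (.ev (nat_lit 2880)
 (nat_lit 16777216) (.ev (nat_lit 2896) (nat_lit 2) (.fin (nat_lit 576450306931900957))))))))))))) (.br
 (nat_lit 49) (.ch (nat_lit 48) (.ev (nat_lit 52) (nat_lit 455081986) (.ev (nat_lit 500) (nat_lit 4) (.ev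
 (nat_lit 864) (nat_lit 4497424) .dd)))) (.ch (nat_lit 49) (.ev (nat_lit 52) (nat_lit 16818178) (.ev (nat_lit
 212) (nat_lit 4194304) (.ev (nat_lit 244) (nat_lit 134217728) (.ev (nat_lit 1444) (nat_lit 4) (.ev (nat_lit
 1972) (nat_lit 16) (.ev (nat_lit 2404) (nat_lit 33554432) (.nd (nat_lit 2864) (.br (nat_lit 9) (.ch (nat_lit
 3) (.ev (nat_lit 2880) (nat_lit 270794752) .dd)) (.br (nat_lit 18) (.ch (nat_lit 9) (.ev (nat_lit 2880)
 (nat_lit 2359296) (.ev (nat_lit 2893) (nat_lit 268435456) .dd))) (.ch (nat_lit 18) (.ev (nat_lit 2880)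
 (nat_lit 268435456) (.fin (nat_lit 576434913760723501)))))))))))))))) (.br (nat_lit 51) (.ch (nat_lit 50) (.ev
 (nat_lit 52) (nat_lit 39878656) (.ev (nat_lit 660) (nat_lit 16) (.ev (nat_lit 788) (nat_lit 4) (.ev (nat_lit
 2084) (nat_lit 16777216) (.ev (nat_lit 2512) (nat_lit 262146) (.nd (nat_lit 2864) (.br (nat_lit 9) (.br
 (nat_lit 4) (.ch (nat_lit 3) (.ev (nat_lit 2880) (nat_lit 268435456) (.fin (nat_lit 576454705024549427))))
 (.ch (nat_lit 4) (.ev (nat_lit 2880) (nat_lit 134225920) (.ev (nat_lit 2893) (nat_lit 268435456) .dd)))) (.br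
 (nat_lit 10) (.ch (nat_lit 9) (.ev (nat_lit 2880) (nat_lit 8192) (.ev (nat_lit 2896) (nat_lit 268435456) (.ev
 (nat_lit 2909) (nat_lit 134217728) .dd)))) (.ch (nat_lit 10) (.ev (nat_lit 2880) (nat_lit 8192) (.ev (nat_lit
 2916) (nat_lit 134217728) (.ev (nat_lit 2925) (nat_lit 268435456) .dd))))))))))))) (.br (nat_lit 53) (.ch
 (nat_lit 51) (.ev (nat_lit 52) (nat_lit 268705794) (.ev (nat_lit 180) (nat_lit 4194304) (.ev (nat_lit 244)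
 (nat_lit 4) (.ev (nat_lit 340) (nat_lit 32768) (.ev (nat_lit 692) (nat_lit 33554432) (.ev (nat_lit 2212)
 (nat_lit 16) (.ev (nat_lit 2292) (nat_lit 16777216) (.nd (nat_lit 2864) (.br (nat_lit 10) (.br (nat_lit 8)
 (.ch (nat_lit 6) (.ev (nat_lit 2880) (nat_lit 134217728) (.ev (nat_lit 2893) (nat_lit 2097152) .dd))) (.ch
 (nat_lit 8) (.fin (nat_lit 576456904014250559)))) (.br (nat_lit 14) (.ch (nat_lit 10) (.ev (nat_lit 2880)
 (nat_lit 2097152) (.ev (nat_lit 2893) (nat_lit 134217728) .dd))) (.br (nat_lit 16) (.ch (nat_lit 14) (.ev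
 (nat_lit 2880) (nat_lit 2097152) (.ev (nat_lit 2893) (nat_lit 134217728) .dd))) (.ch (nat_lit 16) (.ev
 (nat_lit 2880) (nat_lit 134217728) (.ev (nat_lit 2893) (nat_lit 2097152) .dd))))))))))))))) (.ch (nat_lit 53)
 (.ev (nat_lit 52) (nat_lit 287571990) (.ev (nat_lit 852) (nat_lit 32768) (.ev (nat_lit 1140) (nat_lit 4194304)
 (.ev (nat_lit 1220) (nat_lit 8192) (.ev (nat_lit 1920) (nat_lit 167772160) .dd)))))))))) (.br (nat_lit 64)
 (.br (nat_lit 57) (.br (nat_lit 55) (.ch (nat_lit 54) (.ev (nat_lit 52) (nat_lit 406847504) (.ev (nat_lit 84)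
 (nat_lit 33554432) (.ev (nat_lit 352) (nat_lit 19177478) .dd)))) (.ch (nat_lit 55) (.ev (nat_lit 52) (nat_lit
 289701906) (.ev (nat_lit 852) (nat_lit 4) (.ev (nat_lit 1172) (nat_lit 134217728) (.ev (nat_lit 1664) (nat_lit
 35659776) .dd)))))) (.br (nat_lit 58) (.ch (nat_lit 57) (.ev (nat_lit 52) (nat_lit 153387026) (.ev (nat_lit
 116) (nat_lit 33554432) (.ev (nat_lit 340) (nat_lit 4) (.ev (nat_lit 2052) (nat_lit 268435456) (.ev (nat_lit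
 2180) (nat_lit 4194304) (.ev (nat_lit 2189) (nat_lit 8192) .dd))))))) (.br (nat_lit 62) (.ch (nat_lit 58) (.ev
 (nat_lit 52) (nat_lit 23076870) (.ev (nat_lit 180) (nat_lit 134217728) (.ev (nat_lit 276) (nat_lit 33554432)
 (.ev (nat_lit 596) (nat_lit 32768) (.ev (nat_lit 1476) (nat_lit 16) (.ev (nat_lit 1972) (nat_lit 262144) (.ev
 (nat_lit 1981) (nat_lit 268435456) .dd)))))))) (.ch (nat_lit 62) (.ev (nat_lit 52) (nat_lit 136609810) (.ev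
 (nat_lit 512) (nat_lit 322969604) .dd)))))) (.br (nat_lit 68) (.br (nat_lit 65) (.ch (nat_lit 64) (.ev
 (nat_lit 52) (nat_lit 151027712) (.ev (nat_lit 724) (nat_lit 4) (.ev (nat_lit 932) (nat_lit 4194306) (.ev
 (nat_lit 1284) (nat_lit 16) (.ev (nat_lit 2116) (nat_lit 262144) (.ev (nat_lit 2528) (nat_lit 35651584) (.nd
 (nat_lit 2864) (.br (nat_lit 10) (.br (nat_lit 9) (.ch (nat_lit 4) (.ev (nat_lit 2880) (nat_lit 268443648)
 .dd)) (.ch (nat_lit 9) (.ev (nat_lit 2880) (nat_lit 268435456) (.ev (nat_lit 2893) (nat_lit 8192) .dd)))) (.br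
 (nat_lit 15) (.ch (nat_lit 10) (.ev (nat_lit 2880) (nat_lit 268443648) .dd)) (.br (nat_lit 18) (.ch (nat_lit
 15) (.ev (nat_lit 2880) (nat_lit 268435456) (.ev (nat_lit 2893) (nat_lit 8192) .dd))) (.ch (nat_lit 18) (.fin
 (nat_lit 576470098143298117)))))))))))))) (.br (nat_lit 67) (.ch (nat_lit 65) (.ev (nat_lit 52) (nat_lit
 23339010) (.ev (nat_lit 500) (nat_lit 268435456) (.ev (nat_lit 788) (nat_lit 134217728) (.ev (nat_lit 1232)
 (nat_lit 33587220) .dd))))) (.ch (nat_lit 67) (.ev (nat_lit 52) (nat_lit 272662532) (.ev (nat_lit 148)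
 (nat_lit 2) (.ev (nat_lit 212) (nat_lit 134217728) (.ev (nat_lit 672) (nat_lit 52699152) .dd))))))) (.br
 (nat_lit 69) (.ch (nat_lit 68) (.ev (nat_lit 52) (nat_lit 440672262) (.ev (nat_lit 1072) (nat_lit 18907152)
 .dd))) (.br (nat_lit 70) (.ch (nat_lit 69) (.ev (nat_lit 52) (nat_lit 17072132) (.ev (nat_lit 148) (nat_lit
 2097152) (.ev (nat_lit 436) (nat_lit 33554432) (.ev (nat_lit 564) (nat_lit 134217728) (.ev (nat_lit 1140)
 (nat_lit 268435456) (.ev (nat_lit 1524) (nat_lit 16) (.ev (nat_lit 1588) (nat_lit 2) (.ev (nat_lit 2388)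
 (nat_lit 8192) (.ev (nat_lit 2397) (nat_lit 4194304) .dd)))))))))) (.ch (nat_lit 70) (.ev (nat_lit 52)
 (nat_lit 274759696) (.ev (nat_lit 1476) (nat_lit 8192) (.ev (nat_lit 1556) (nat_lit 262144) (.ev (nat_lit
 1620) (nat_lit 4) (.ev (nat_lit 2148) (nat_lit 2) (.ev (nat_lit 2324) (nat_lit 134217728) (.ev (nat_lit 2388)
 (nat_lit 16777216) (.ev (nat_lit 2397) (nat_lit 33554432) .dd)))))))))))))))))

/-- The trie. -/
noncomputable def T : Tr := .nd (nat_lit 1000000) (.br (nat_lit 7) (.br (nat_lit 2) (.br (nat_lit 1) (.ch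
 (nat_lit 0) (.ev (nat_lit 0) (nat_lit 2147483647) .dd)) (.ch (nat_lit 1) T1)) (.br (nat_lit 3) (.ch (nat_lit
 2) T2) (.br (nat_lit 4) (.ch (nat_lit 3) (.ev (nat_lit 0) (nat_lit 2147483647) .dd)) (.ch (nat_lit 4) (.ev
 (nat_lit 0) (nat_lit 2147483647) .dd))))) (.br (nat_lit 9) (.br (nat_lit 8) (.ch (nat_lit 7) (.ev (nat_lit 0)
 (nat_lit 2147483647) .dd)) (.ch (nat_lit 8) T8)) (.br (nat_lit 14) (.ch (nat_lit 9) (.ev (nat_lit 0) (nat_lit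
 2147483647) .dd)) (.br (nat_lit 18) (.ch (nat_lit 14) (.ev (nat_lit 0) (nat_lit 2147483647) .dd)) (.ch
 (nat_lit 18) (.ev (nat_lit 0) (nat_lit 2147483647) .dd))))))

/-- The possible values. -/
noncomputable def oks : List ℕ := [42, 68, 85, 234, 362, 2338]

/-- The parameters. -/
noncomputable def S : Pr := ⟨fun i l e => lget mz (lget [] (lget [] tabs i) l) e, oks, [(nat_lit 0), (nat_lit
 1), (nat_lit 0), (nat_lit 0)], T, (nat_lit 2147483647), (nat_lit 1073946281), (nat_lit 31), [(nat_lit 279193),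
 (nat_lit 87122173451996128837)], [(nat_lit 6859), (nat_lit 5041)]⟩

/-- Nothing known. -/
noncomputable def cs0 : Cs := (.cons (nat_lit 19) (nat_lit 0) (nat_lit 1) (.cons (nat_lit 71) (nat_lit 0) (nat_lit 1) .nil))

theorem part_1 : part S cs0 (nat_lit 1) = true := by decide +kernel

theorem part_2 : part S cs0 (nat_lit 2) = true := by decide +kernel

theorem part_8 : part S cs0 (nat_lit 8) = true := by decide +kernel

/-- Data of a prime. -/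
noncomputable def D0 : PD := ⟨(nat_lit 19), (nat_lit 3), (2737, 3, 5), (2233, 2359, 280), (4154, 6154, 3804)⟩

theorem D0_ok : D0.Ok := pdb_sound (s := 9) (C := ⟨⟨21, 6, -28, 11, 14, 17, -4, 7, -1⟩, (2, 11, 15)⟩) (by show Nat.Prime 19; norm_num) (by decide +kernel)

/-- Lines of the first type. -/
noncomputable def Cl0 : List C1 := [⟨⟨11, 14, -28, 21, 6, 7, 4, -7, -5⟩, (12, 16, 13)⟩,
  ⟨⟨0, 0, 0, 0, 0, 0, 0, 0, 0⟩, (0, 0, 0)⟩,
  ⟨⟨0, 0, 0, 0, 0, 0, 0, 0, 0⟩, (0, 0, 0)⟩,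
  ⟨⟨9, 6, -32, 1, 26, 7, 8, -1, -1⟩, (8, 3, 5)⟩,
  ⟨⟨-9, -6, -23, -1, -26, 8, 8, -1, -7⟩, (13, 12, 18)⟩,
  ⟨⟨0, 0, 0, 0, 0, 0, 0, 0, 0⟩, (0, 0, 0)⟩,
  ⟨⟨0, 0, 0, 0, 0, 0, 0, 0, 0⟩, (0, 0, 0)⟩,
  ⟨⟨9, -6, -32, 1, -26, 7, 8, 1, -1⟩, (5, 9, 15)⟩,
  ⟨⟨0, 0, 0, 0, 0, 0, 0, 0, 0⟩, (0, 0, 0)⟩,
  ⟨⟨21, -6, -28, 11, -14, 17, -4, -7, -1⟩, (16, 12, 6)⟩,
  ⟨⟨0, 0, 0, 0, 0, 0, 0, 0, 0⟩, (0, 0, 0)⟩,
  ⟨⟨0, 0, 0, 0, 0, 0, 0, 0, 0⟩, (0, 0, 0)⟩,
  ⟨⟨0, 0, 0, 0, 0, 0, 0, 0, 0⟩, (0, 0, 0)⟩,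
  ⟨⟨0, 0, 0, 0, 0, 0, 0, 0, 0⟩, (0, 0, 0)⟩,
  ⟨⟨11, -14, -28, 21, -6, 7, 4, 7, -5⟩, (5, 13, 7)⟩,
  ⟨⟨0, 0, 0, 0, 0, 0, 0, 0, 0⟩, (0, 0, 0)⟩,
  ⟨⟨0, 0, 0, 0, 0, 0, 0, 0, 0⟩, (0, 0, 0)⟩,
  ⟨⟨0, 0, 0, 0, 0, 0, 0, 0, 0⟩, (0, 0, 0)⟩,
  ⟨⟨-9, 6, -23, -1, 26, 8, 8, 1, -7⟩, (16, 6, 9)⟩]

/-- Data of a prime. -/
noncomputable def D1 : PD := ⟨(nat_lit 71), (nat_lit 2), (72, 9, 33), (3977, 4536, 3372), (4173, 4400, 3526)⟩

theorem D1_ok : D1.Ok := pdb_sound (s := 11) (C := ⟨⟨59, 34, -112, -29, 94, 37, -24, -3, -11⟩, (59, 42, 47)⟩) (by show Nat.Prime 71; norm_num) (by decide +kernel)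

/-- Lines of the first type. -/
noncomputable def Cl1 : List C1 := [⟨⟨-59, -34, -53, 29, -94, 8, 24, 3, -35⟩, (17, 47, 34)⟩,
  ⟨⟨0, 0, 0, 0, 0, 0, 0, 0, 0⟩, (0, 0, 0)⟩,
  ⟨⟨49, -74, -77, 79, 14, 28, 12, 21, -29⟩, (59, 56, 13)⟩,
  ⟨⟨0, 0, 0, 0, 0, 0, 0, 0, 0⟩, (0, 0, 0)⟩,
  ⟨⟨0, 0, 0, 0, 0, 0, 0, 0, 0⟩, (0, 0, 0)⟩,
  ⟨⟨0, 0, 0, 0, 0, 0, 0, 0, 0⟩, (0, 0, 0)⟩,
  ⟨⟨79, -14, -107, 49, 74, 28, -12, 21, -17⟩, (44, 21, 5)⟩,
  ⟨⟨0, 0, 0, 0, 0, 0, 0, 0, 0⟩, (0, 0, 0)⟩,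
  ⟨⟨0, 0, 0, 0, 0, 0, 0, 0, 0⟩, (0, 0, 0)⟩,
  ⟨⟨39, 66, -92, -89, 46, 37, -8, -19, -23⟩, (13, 65, 21)⟩,
  ⟨⟨19, 46, -107, -91, -26, 8, 12, -27, -19⟩, (7, 30, 53)⟩,
  ⟨⟨0, 0, 0, 0, 0, 0, 0, 0, 0⟩, (0, 0, 0)⟩,
  ⟨⟨0, 0, 0, 0, 0, 0, 0, 0, 0⟩, (0, 0, 0)⟩,
  ⟨⟨99, 6, -67, 11, -94, 32, -4, -11, -31⟩, (13, 33, 59)⟩,
  ⟨⟨-39, -66, -53, -89, 46, 52, 8, 19, -31⟩, (17, 57, 22)⟩,
  ⟨⟨0, 0, 0, 0, 0, 0, 0, 0, 0⟩, (0, 0, 0)⟩,
  ⟨⟨0, 0, 0, 0, 0, 0, 0, 0, 0⟩, (0, 0, 0)⟩,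
  ⟨⟨19, -46, -107, -91, 26, 8, 12, 27, -19⟩, (15, 44, 2)⟩,
  ⟨⟨0, 0, 0, 0, 0, 0, 0, 0, 0⟩, (0, 0, 0)⟩,
  ⟨⟨0, 0, 0, 0, 0, 0, 0, 0, 0⟩, (0, 0, 0)⟩,
  ⟨⟨51, 66, -88, -59, 74, 67, -20, -5, -17⟩, (59, 64, 59)⟩,
  ⟨⟨49, 74, -77, 79, -14, 28, 12, -21, -29⟩, (6, 43, 29)⟩,
  ⟨⟨0, 0, 0, 0, 0, 0, 0, 0, 0⟩, (0, 0, 0)⟩,
  ⟨⟨0, 0, 0, 0, 0, 0, 0, 0, 0⟩, (0, 0, 0)⟩,
  ⟨⟨0, 0, 0, 0, 0, 0, 0, 0, 0⟩, (0, 0, 0)⟩,
  ⟨⟨31, 74, -83, -81, 54, 68, -16, -13, -19⟩, (8, 2, 60)⟩,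
  ⟨⟨0, 0, 0, 0, 0, 0, 0, 0, 0⟩, (0, 0, 0)⟩,
  ⟨⟨11, 94, -43, -99, 6, 32, 4, -11, -35⟩, (69, 18, 38)⟩,
  ⟨⟨-51, 66, -37, 59, 74, 8, 20, -5, -37⟩, (25, 56, 25)⟩,
  ⟨⟨0, 0, 0, 0, 0, 0, 0, 0, 0⟩, (0, 0, 0)⟩,
  ⟨⟨39, -66, -92, -89, -46, 37, -8, 19, -23⟩, (43, 2, 64)⟩,
  ⟨⟨0, 0, 0, 0, 0, 0, 0, 0, 0⟩, (0, 0, 0)⟩,
  ⟨⟨59, -34, -112, -29, -94, 37, -24, 3, -11⟩, (9, 4, 18)⟩,
  ⟨⟨0, 0, 0, 0, 0, 0, 0, 0, 0⟩, (0, 0, 0)⟩,
  ⟨⟨0, 0, 0, 0, 0, 0, 0, 0, 0⟩, (0, 0, 0)⟩,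
  ⟨⟨-59, 34, -53, 29, 94, 8, 24, -3, -35⟩, (8, 43, 16)⟩,
  ⟨⟨0, 0, 0, 0, 0, 0, 0, 0, 0⟩, (0, 0, 0)⟩,
  ⟨⟨11, -94, -43, -99, -6, 32, 4, 11, -35⟩, (2, 53, 33)⟩,
  ⟨⟨0, 0, 0, 0, 0, 0, 0, 0, 0⟩, (0, 0, 0)⟩,
  ⟨⟨0, 0, 0, 0, 0, 0, 0, 0, 0⟩, (0, 0, 0)⟩,
  ⟨⟨51, -66, -88, -59, -74, 67, -20, 5, -17⟩, (18, 46, 18)⟩,
  ⟨⟨-19, -46, -88, -91, -26, 83, -12, 27, -7⟩, (26, 61, 65)⟩,
  ⟨⟨0, 0, 0, 0, 0, 0, 0, 0, 0⟩, (0, 0, 0)⟩,
  ⟨⟨0, 0, 0, 0, 0, 0, 0, 0, 0⟩, (0, 0, 0)⟩,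
  ⟨⟨0, 0, 0, 0, 0, 0, 0, 0, 0⟩, (0, 0, 0)⟩,
  ⟨⟨-19, 46, -88, -91, 26, 83, -12, -27, -7⟩, (18, 4, 45)⟩,
  ⟨⟨0, 0, 0, 0, 0, 0, 0, 0, 0⟩, (0, 0, 0)⟩,
  ⟨⟨0, 0, 0, 0, 0, 0, 0, 0, 0⟩, (0, 0, 0)⟩,
  ⟨⟨0, 0, 0, 0, 0, 0, 0, 0, 0⟩, (0, 0, 0)⟩,
  ⟨⟨0, 0, 0, 0, 0, 0, 0, 0, 0⟩, (0, 0, 0)⟩,
  ⟨⟨0, 0, 0, 0, 0, 0, 0, 0, 0⟩, (0, 0, 0)⟩,
  ⟨⟨0, 0, 0, 0, 0, 0, 0, 0, 0⟩, (0, 0, 0)⟩,
  ⟨⟨99, -6, -67, 11, 94, 32, -4, 11, -31⟩, (48, 29, 54)⟩,
  ⟨⟨0, 0, 0, 0, 0, 0, 0, 0, 0⟩, (0, 0, 0)⟩,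
  ⟨⟨0, 0, 0, 0, 0, 0, 0, 0, 0⟩, (0, 0, 0)⟩,
  ⟨⟨0, 0, 0, 0, 0, 0, 0, 0, 0⟩, (0, 0, 0)⟩,
  ⟨⟨-51, -66, -37, 59, -74, 8, 20, 5, -37⟩, (55, 38, 55)⟩,
  ⟨⟨0, 0, 0, 0, 0, 0, 0, 0, 0⟩, (0, 0, 0)⟩,
  ⟨⟨0, 0, 0, 0, 0, 0, 0, 0, 0⟩, (0, 0, 0)⟩,
  ⟨⟨-31, -74, -52, -81, 54, 13, 16, 13, -35⟩, (64, 55, 54)⟩,
  ⟨⟨-31, 74, -52, -81, -54, 13, 16, -13, -35⟩, (11, 15, 47)⟩,
  ⟨⟨-39, 66, -53, -89, -46, 52, 8, -19, -31⟩, (58, 65, 50)⟩,
  ⟨⟨0, 0, 0, 0, 0, 0, 0, 0, 0⟩, (0, 0, 0)⟩,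
  ⟨⟨79, 14, -107, 49, -74, 28, -12, -21, -17⟩, (57, 3, 21)⟩,
  ⟨⟨0, 0, 0, 0, 0, 0, 0, 0, 0⟩, (0, 0, 0)⟩,
  ⟨⟨0, 0, 0, 0, 0, 0, 0, 0, 0⟩, (0, 0, 0)⟩,
  ⟨⟨31, -74, -83, -81, -54, 68, -16, 13, -19⟩, (61, 33, 67)⟩,
  ⟨⟨0, 0, 0, 0, 0, 0, 0, 0, 0⟩, (0, 0, 0)⟩,
  ⟨⟨0, 0, 0, 0, 0, 0, 0, 0, 0⟩, (0, 0, 0)⟩,
  ⟨⟨0, 0, 0, 0, 0, 0, 0, 0, 0⟩, (0, 0, 0)⟩,
  ⟨⟨0, 0, 0, 0, 0, 0, 0, 0, 0⟩, (0, 0, 0)⟩]

/-- Data of a prime. -/
noncomputable def Dm : PD := ⟨(nat_lit 31), (nat_lit 2), (435, 8, 13), (281, 829, 278), (666, 926, 286)⟩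

theorem Dm_ok : Dm.Ok := pdb_sound (s := 3) (C := ⟨⟨11, 26, -43, -19, 34, 32, -12, -3, -1⟩, (11, 12, 19)⟩) (by show Nat.Prime 31; norm_num) (by decide +kernel)

/-- Lines of the first type. -/
noncomputable def Clm : List C1 := [⟨⟨-11, -26, -32, 19, -34, 13, 12, 3, -13⟩, (22, 24, 7)⟩,
  ⟨⟨0, 0, 0, 0, 0, 0, 0, 0, 0⟩, (0, 0, 0)⟩,
  ⟨⟨0, 0, 0, 0, 0, 0, 0, 0, 0⟩, (0, 0, 0)⟩,
  ⟨⟨29, 26, -37, 21, 6, 32, 8, -11, -7⟩, (2, 10, 23)⟩,
  ⟨⟨0, 0, 0, 0, 0, 0, 0, 0, 0⟩, (0, 0, 0)⟩,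
  ⟨⟨21, 6, -53, 29, 26, 8, 8, -11, -1⟩, (6, 26, 20)⟩,
  ⟨⟨0, 0, 0, 0, 0, 0, 0, 0, 0⟩, (0, 0, 0)⟩,
  ⟨⟨29, -26, -37, 21, -6, 32, 8, 11, -7⟩, (27, 11, 16)⟩,
  ⟨⟨0, 0, 0, 0, 0, 0, 0, 0, 0⟩, (0, 0, 0)⟩,
  ⟨⟨-9, -6, -43, -41, 14, 28, 4, 13, -5⟩, (4, 1, 12)⟩,
  ⟨⟨9, -6, -52, -41, -14, 13, -4, 13, -1⟩, (29, 16, 25)⟩,
  ⟨⟨21, -6, -53, 29, -26, 8, 8, 11, -1⟩, (7, 20, 13)⟩,
  ⟨⟨9, 6, -52, -41, 14, 13, -4, -13, -1⟩, (28, 24, 22)⟩,
  ⟨⟨0, 0, 0, 0, 0, 0, 0, 0, 0⟩, (0, 0, 0)⟩,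
  ⟨⟨0, 0, 0, 0, 0, 0, 0, 0, 0⟩, (0, 0, 0)⟩,
  ⟨⟨0, 0, 0, 0, 0, 0, 0, 0, 0⟩, (0, 0, 0)⟩,
  ⟨⟨11, -26, -43, -19, -34, 32, -12, 3, -1⟩, (25, 16, 15)⟩,
  ⟨⟨-9, 6, -43, -41, -14, 28, 4, -13, -5⟩, (3, 24, 9)⟩,
  ⟨⟨0, 0, 0, 0, 0, 0, 0, 0, 0⟩, (0, 0, 0)⟩,
  ⟨⟨0, 0, 0, 0, 0, 0, 0, 0, 0⟩, (0, 0, 0)⟩,
  ⟨⟨0, 0, 0, 0, 0, 0, 0, 0, 0⟩, (0, 0, 0)⟩,
  ⟨⟨0, 0, 0, 0, 0, 0, 0, 0, 0⟩, (0, 0, 0)⟩,
  ⟨⟨0, 0, 0, 0, 0, 0, 0, 0, 0⟩, (0, 0, 0)⟩,
  ⟨⟨0, 0, 0, 0, 0, 0, 0, 0, 0⟩, (0, 0, 0)⟩,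
  ⟨⟨0, 0, 0, 0, 0, 0, 0, 0, 0⟩, (0, 0, 0)⟩,
  ⟨⟨0, 0, 0, 0, 0, 0, 0, 0, 0⟩, (0, 0, 0)⟩,
  ⟨⟨0, 0, 0, 0, 0, 0, 0, 0, 0⟩, (0, 0, 0)⟩,
  ⟨⟨0, 0, 0, 0, 0, 0, 0, 0, 0⟩, (0, 0, 0)⟩,
  ⟨⟨0, 0, 0, 0, 0, 0, 0, 0, 0⟩, (0, 0, 0)⟩,
  ⟨⟨0, 0, 0, 0, 0, 0, 0, 0, 0⟩, (0, 0, 0)⟩,
  ⟨⟨-11, 26, -32, 19, 34, 13, 12, -3, -13⟩, (28, 8, 23)⟩]

/-- Unit moves. -/
noncomputable def U : List Mv := [mz,
  mz,
  mz,
  mz,
  mz,
  ⟨⟨-1, 0, 1, 0, 1, 0, 0, 0, 1⟩, .nil, (nat_lit 18), (nat_lit 9), (nat_lit 4), (nat_lit 1), (0, 0, 0), [], 18⟩,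
  ⟨⟨-1, 0, 1, 0, -1, 0, 0, 0, 1⟩, .nil, (nat_lit 0), (nat_lit 12), (nat_lit 1), (nat_lit 0), (0, 0, 0), [], 7⟩,
  mz,
  mz,
  mz,
  ⟨⟨1, 0, 0, 0, -1, 0, 0, 0, 1⟩, .nil, (nat_lit 18), (nat_lit 14), (nat_lit 2), (nat_lit 1), (0, 0, 0), [], 10⟩,
  ⟨⟨-1, 0, 1, 0, -1, 0, 0, 0, 1⟩, .nil, (nat_lit 0), (nat_lit 12), (nat_lit 1), (nat_lit 0), (0, 0, 0), [], 7⟩,
  ⟨⟨-1, 0, 1, 0, -1, 0, 0, 0, 1⟩, .nil, (nat_lit 0), (nat_lit 12), (nat_lit 1), (nat_lit 0), (0, 0, 0), [], 7⟩,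
  ⟨⟨-1, 0, 1, 0, 1, 0, 0, 0, 1⟩, .nil, (nat_lit 18), (nat_lit 9), (nat_lit 4), (nat_lit 1), (0, 0, 0), [], 18⟩,
  mz,
  ⟨⟨-1, 0, 1, 0, 1, 0, 0, 0, 1⟩, .nil, (nat_lit 18), (nat_lit 9), (nat_lit 4), (nat_lit 1), (0, 0, 0), [], 18⟩,
  ⟨⟨1, 0, 0, 0, -1, 0, 0, 0, 1⟩, .nil, (nat_lit 18), (nat_lit 14), (nat_lit 2), (nat_lit 1), (0, 0, 0), [], 10⟩,
  ⟨⟨1, 0, 0, 0, -1, 0, 0, 0, 1⟩, .nil, (nat_lit 18), (nat_lit 14), (nat_lit 2), (nat_lit 1), (0, 0, 0), [], 10⟩,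
  mz]

theorem v_ty : tyb Dm S.ty1 Clm = true := by decide +kernel

theorem v_ty0 : tyb D0 (S.tys.getD 0 0) Cl0 = true := by decide +kernel

theorem v_ty1 : tyb D1 (S.tys.getD 1 0) Cl1 = true := by decide +kernel

theorem v_msc : mscb S D0 [D1] Dm (nat_lit 262) = true := by decide +kernel

theorem v_mv0 : mvsn (nat_lit 33227746459) S D0 [D1] Dm (nat_lit 262) 0 D0 = true := by decide +kernel

theorem v_mv1 : mvsn (nat_lit 33227746459) S D0 [D1] Dm (nat_lit 262) 1 D1 = true := by decide +kernel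

theorem v_mm : mmsn (nat_lit 33227746459) S D0 [D1] Dm (nat_lit 262) = true := by decide +kernel

theorem v_un : unb S D0 (nat_lit 262) U = true := by decide +kernel

theorem v_ok : okb S.oks [(0, 0, 0), (0, 0, 0), (2, 9, 0), (0, 0, 0), (0, 0, 0), (0, 0, 0)] = true := by decide +kernel

theorem v_part : ∀ d < D0.p, (nat_lit 262).testBit d = true → part S (zc (D0 :: [D1])) d = true := by
  intro d hd h
  have h1 : ∀ d < 19, (nat_lit 262).testBit d = true → d = 1 ∨ d = 2 ∨ d = 8 := by decide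
  rcases h1 d hd h with rfl | rfl | rfl
  · exact part_1
  · exact part_2
  · exact part_8

theorem main (n : ℕ) (ho : Odd n) (hr : ¬ Rep n) (h0 : Split 19 n) (h1 : Split 71 n) (hm : Split 31 n) :
    n ∈ EE := by
  refine concln (W := nat_lit 33227746459) (S := S) (P0 := D0) (Pl := [D1]) (Pm := Dm) (cn := nat_lit 262) ?_ Dm_ok v_ty ?_ ?_ v_msc ?_ v_mm v_un v_part v_ok
    n ho hr ?_ hm
  · simp only [List.forall_mem_cons]
    exact ⟨D0_ok, D1_ok, fun _ h => absurd h (by simp)⟩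
  · exact all2 (φ := fun j P => ∃ L, tyb P (S.tys.getD j 0) L = true) ⟨_, v_ty0⟩ ⟨_, v_ty1⟩
  · exact all2 (φ := fun j P => Nat.ble (S.pks.getD j 0) (Nat.pow P.p P.K) = true) (by decide +kernel) (by decide +kernel)
  · exact all2 (φ := fun i P => mvsn (nat_lit 33227746459) S D0 [D1] Dm (nat_lit 262) i P = true) v_mv0 v_mv1
  · simp only [List.forall_mem_cons]
    exact ⟨h0, h1, fun _ h => absurd h (by simp)⟩

end Pool.Agent.Work.MP_9954fe_nt.P19_71_31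

namespace Pool.Agent.Work.MP_9954fe_nt.P19_71_47

/-- Dummy move. -/
noncomputable def mz : Mv := ⟨⟨0, 0, 0, 0, 0, 0, 0, 0, 0⟩, .nil, (nat_lit 0), (nat_lit 0), (nat_lit 0), (nat_lit 0), (0, 0, 0), [], 0⟩

/-- Moves. -/
noncomputable def t0_1 : List Mv := [
  ⟨⟨15, -4, -23, -10, 9, -10, 12, 12, -7⟩, (.cons (nat_lit 177) (nat_lit 313) (nat_lit 238) (nat_lit 1) (.cons
 (nat_lit 3215) (nat_lit 4759) (nat_lit 3275) (nat_lit 1) .nil)), (nat_lit 6), (nat_lit 2), (nat_lit 9),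
 (nat_lit 1), (18, 7, 3), [49, 322], 7⟩,
  ⟨⟨15, -4, -23, 10, -9, 10, 12, 12, -7⟩, (.cons (nat_lit 317) (nat_lit 293) (nat_lit 1) (nat_lit 190) (.cons
 (nat_lit 1214) (nat_lit 1867) (nat_lit 3469) (nat_lit 1) .nil)), (nat_lit 1), (nat_lit 21), (nat_lit 3),
 (nat_lit 1), (18, 12, 3), [350, 2125], 3⟩,
  ⟨⟨15, -4, -23, -10, 9, -10, 12, 12, -7⟩, (.cons (nat_lit 177) (nat_lit 313) (nat_lit 238) (nat_lit 1) (.cons
 (nat_lit 3215) (nat_lit 4759) (nat_lit 3275) (nat_lit 1) .nil)), (nat_lit 6), (nat_lit 2), (nat_lit 9),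
 (nat_lit 1), (18, 7, 3), [49, 322], 7⟩,
  ⟨⟨15, -4, -23, -10, 9, -10, 12, 12, -7⟩, (.cons (nat_lit 177) (nat_lit 313) (nat_lit 238) (nat_lit 1) (.cons
 (nat_lit 3215) (nat_lit 4759) (nat_lit 3275) (nat_lit 1) .nil)), (nat_lit 6), (nat_lit 2), (nat_lit 9),
 (nat_lit 1), (18, 7, 3), [49, 322], 7⟩,
  ⟨⟨-3, 16, 16, 10, -9, 10, 12, 12, -7⟩, (.cons (nat_lit 235) (nat_lit 147) (nat_lit 254) (nat_lit 1) (.cons
 (nat_lit 5040) (nat_lit 2264) (nat_lit 862) (nat_lit 1) .nil)), (nat_lit 46), (nat_lit 26), (nat_lit 3),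
 (nat_lit 1), (4, 12, 3), [80, 1785], 3⟩,
  ⟨⟨15, -4, -23, -10, 9, -10, 12, 12, -7⟩, (.cons (nat_lit 177) (nat_lit 313) (nat_lit 238) (nat_lit 1) (.cons
 (nat_lit 3215) (nat_lit 4759) (nat_lit 3275) (nat_lit 1) .nil)), (nat_lit 6), (nat_lit 2), (nat_lit 9),
 (nat_lit 1), (18, 7, 3), [49, 322], 7⟩,
  ⟨⟨15, -4, -23, 10, -9, 10, 12, 12, -7⟩, (.cons (nat_lit 317) (nat_lit 293) (nat_lit 1) (nat_lit 190) (.cons
 (nat_lit 1214) (nat_lit 1867) (nat_lit 3469) (nat_lit 1) .nil)), (nat_lit 1), (nat_lit 21), (nat_lit 3),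
 (nat_lit 1), (18, 12, 3), [350, 2125], 3⟩,
  ⟨⟨-3, 16, 16, -10, 9, -10, 12, 12, -7⟩, (.cons (nat_lit 296) (nat_lit 76) (nat_lit 194) (nat_lit 1) (.cons (nat_lit 366) (nat_lit 432) (nat_lit 1018) (nat_lit 1) .nil)), (nat_lit 41), (nat_lit 45), (nat_lit 9), (nat_lit 1), (4, 7, 3), [8, 894], 7⟩,
  ⟨⟨15, -4, -23, -10, 9, -10, 12, 12, -7⟩, (.cons (nat_lit 177) (nat_lit 313) (nat_lit 238) (nat_lit 1) (.cons
 (nat_lit 3215) (nat_lit 4759) (nat_lit 3275) (nat_lit 1) .nil)), (nat_lit 6), (nat_lit 2), (nat_lit 9),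
 (nat_lit 1), (18, 7, 3), [49, 322], 7⟩,
  ⟨⟨15, -4, -23, -10, 9, -10, 12, 12, -7⟩, (.cons (nat_lit 177) (nat_lit 313) (nat_lit 238) (nat_lit 1) (.cons
 (nat_lit 3215) (nat_lit 4759) (nat_lit 3275) (nat_lit 1) .nil)), (nat_lit 6), (nat_lit 2), (nat_lit 9),
 (nat_lit 1), (18, 7, 3), [49, 322], 7⟩,
  ⟨⟨15, -4, -23, -10, 9, -10, 12, 12, -7⟩, (.cons (nat_lit 177) (nat_lit 313) (nat_lit 238) (nat_lit 1) (.cons
 (nat_lit 3215) (nat_lit 4759) (nat_lit 3275) (nat_lit 1) .nil)), (nat_lit 6), (nat_lit 2), (nat_lit 9),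
 (nat_lit 1), (18, 7, 3), [49, 322], 7⟩,
  ⟨⟨-3, 16, 16, -10, 9, -10, 12, 12, -7⟩, (.cons (nat_lit 296) (nat_lit 76) (nat_lit 194) (nat_lit 1) (.cons (nat_lit 366) (nat_lit 432) (nat_lit 1018) (nat_lit 1) .nil)), (nat_lit 41), (nat_lit 45), (nat_lit 9), (nat_lit 1), (4, 7, 3), [8, 894], 7⟩,
  ⟨⟨15, -4, -23, 10, -9, 10, 12, 12, -7⟩, (.cons (nat_lit 317) (nat_lit 293) (nat_lit 1) (nat_lit 190) (.cons
 (nat_lit 1214) (nat_lit 1867) (nat_lit 3469) (nat_lit 1) .nil)), (nat_lit 1), (nat_lit 21), (nat_lit 3),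
 (nat_lit 1), (18, 12, 3), [350, 2125], 3⟩,
  ⟨⟨15, -4, -23, -10, 9, -10, 12, 12, -7⟩, (.cons (nat_lit 177) (nat_lit 313) (nat_lit 238) (nat_lit 1) (.cons
 (nat_lit 3215) (nat_lit 4759) (nat_lit 3275) (nat_lit 1) .nil)), (nat_lit 6), (nat_lit 2), (nat_lit 9),
 (nat_lit 1), (18, 7, 3), [49, 322], 7⟩,
  ⟨⟨15, -4, -23, -10, 9, -10, 12, 12, -7⟩, (.cons (nat_lit 177) (nat_lit 313) (nat_lit 238) (nat_lit 1) (.cons
 (nat_lit 3215) (nat_lit 4759) (nat_lit 3275) (nat_lit 1) .nil)), (nat_lit 6), (nat_lit 2), (nat_lit 9),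
 (nat_lit 1), (18, 7, 3), [49, 322], 7⟩,
  ⟨⟨-3, 16, 16, -10, 9, -10, 12, 12, -7⟩, (.cons (nat_lit 296) (nat_lit 76) (nat_lit 194) (nat_lit 1) (.cons (nat_lit 366) (nat_lit 432) (nat_lit 1018) (nat_lit 1) .nil)), (nat_lit 41), (nat_lit 45), (nat_lit 9), (nat_lit 1), (4, 7, 3), [8, 894], 7⟩,
  ⟨⟨15, -4, -23, -10, 9, -10, 12, 12, -7⟩, (.cons (nat_lit 177) (nat_lit 313) (nat_lit 238) (nat_lit 1) (.cons
 (nat_lit 3215) (nat_lit 4759) (nat_lit 3275) (nat_lit 1) .nil)), (nat_lit 6), (nat_lit 2), (nat_lit 9),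
 (nat_lit 1), (18, 7, 3), [49, 322], 7⟩,
  ⟨⟨15, -4, -23, -10, 9, -10, 12, 12, -7⟩, (.cons (nat_lit 177) (nat_lit 313) (nat_lit 238) (nat_lit 1) (.cons
 (nat_lit 3215) (nat_lit 4759) (nat_lit 3275) (nat_lit 1) .nil)), (nat_lit 6), (nat_lit 2), (nat_lit 9),
 (nat_lit 1), (18, 7, 3), [49, 322], 7⟩,
  ⟨⟨-3, 16, 16, 10, -9, 10, 12, 12, -7⟩, (.cons (nat_lit 235) (nat_lit 147) (nat_lit 254) (nat_lit 1) (.cons
 (nat_lit 5040) (nat_lit 2264) (nat_lit 862) (nat_lit 1) .nil)), (nat_lit 46), (nat_lit 26), (nat_lit 3),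
 (nat_lit 1), (4, 12, 3), [80, 1785], 3⟩]

/-- Moves. -/
noncomputable def t0_2 : List Mv := [
  ⟨⟨-11, 12, 20, 16, 5, 2, -2, 16, -5⟩, (.cons (nat_lit 131) (nat_lit 154) (nat_lit 242) (nat_lit 1) (.cons
 (nat_lit 4299) (nat_lit 715) (nat_lit 4516) (nat_lit 1) .nil)), (nat_lit 18), (nat_lit 26), (nat_lit 5),
 (nat_lit 1), (15, 11, 1), [46, 135], 34⟩,
  ⟨⟨9, 4, -25, -16, -5, -2, -2, 16, -5⟩, (.cons (nat_lit 274) (nat_lit 291) (nat_lit 265) (nat_lit 1) (.cons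
 (nat_lit 3668) (nat_lit 2922) (nat_lit 803) (nat_lit 1) .nil)), (nat_lit 10), (nat_lit 2), (nat_lit 26),
 (nat_lit 1), (5, 8, 1), [52, 768], 1⟩,
  ⟨⟨9, 4, -25, 16, 5, 2, -2, 16, -5⟩, (.cons (nat_lit 314) (nat_lit 176) (nat_lit 235) (nat_lit 1) (.cons
 (nat_lit 2542) (nat_lit 2339) (nat_lit 2425) (nat_lit 1) .nil)), (nat_lit 29), (nat_lit 21), (nat_lit 5),
 (nat_lit 1), (5, 11, 1), [253, 5039], 34⟩,
  ⟨⟨9, 4, -25, -16, -5, -2, -2, 16, -5⟩, (.cons (nat_lit 274) (nat_lit 291) (nat_lit 265) (nat_lit 1) (.cons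
 (nat_lit 3668) (nat_lit 2922) (nat_lit 803) (nat_lit 1) .nil)), (nat_lit 10), (nat_lit 2), (nat_lit 26),
 (nat_lit 1), (5, 8, 1), [52, 768], 1⟩,
  ⟨⟨9, 4, -25, -16, -5, -2, -2, 16, -5⟩, (.cons (nat_lit 274) (nat_lit 291) (nat_lit 265) (nat_lit 1) (.cons
 (nat_lit 3668) (nat_lit 2922) (nat_lit 803) (nat_lit 1) .nil)), (nat_lit 10), (nat_lit 2), (nat_lit 26),
 (nat_lit 1), (5, 8, 1), [52, 768], 1⟩,
  ⟨⟨9, 4, -25, 16, 5, 2, -2, 16, -5⟩, (.cons (nat_lit 314) (nat_lit 176) (nat_lit 235) (nat_lit 1) (.cons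
 (nat_lit 2542) (nat_lit 2339) (nat_lit 2425) (nat_lit 1) .nil)), (nat_lit 29), (nat_lit 21), (nat_lit 5),
 (nat_lit 1), (5, 11, 1), [253, 5039], 34⟩,
  ⟨⟨-11, 12, 20, 16, 5, 2, -2, 16, -5⟩, (.cons (nat_lit 131) (nat_lit 154) (nat_lit 242) (nat_lit 1) (.cons
 (nat_lit 4299) (nat_lit 715) (nat_lit 4516) (nat_lit 1) .nil)), (nat_lit 18), (nat_lit 26), (nat_lit 5),
 (nat_lit 1), (15, 11, 1), [46, 135], 34⟩,
  ⟨⟨-11, 12, 20, -16, -5, -2, -2, 16, -5⟩, (.cons (nat_lit 108) (nat_lit 314) (nat_lit 59) (nat_lit 1) (.cons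
 (nat_lit 4730) (nat_lit 4619) (nat_lit 3376) (nat_lit 1) .nil)), (nat_lit 37), (nat_lit 45), (nat_lit 26),
 (nat_lit 1), (15, 8, 1), [7, 2270], 1⟩,
  ⟨⟨9, 4, -25, -16, -5, -2, -2, 16, -5⟩, (.cons (nat_lit 274) (nat_lit 291) (nat_lit 265) (nat_lit 1) (.cons
 (nat_lit 3668) (nat_lit 2922) (nat_lit 803) (nat_lit 1) .nil)), (nat_lit 10), (nat_lit 2), (nat_lit 26),
 (nat_lit 1), (5, 8, 1), [52, 768], 1⟩,
  ⟨⟨9, 4, -25, -16, -5, -2, -2, 16, -5⟩, (.cons (nat_lit 274) (nat_lit 291) (nat_lit 265) (nat_lit 1) (.cons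
 (nat_lit 3668) (nat_lit 2922) (nat_lit 803) (nat_lit 1) .nil)), (nat_lit 10), (nat_lit 2), (nat_lit 26),
 (nat_lit 1), (5, 8, 1), [52, 768], 1⟩,
  ⟨⟨9, 4, -25, -16, -5, -2, -2, 16, -5⟩, (.cons (nat_lit 274) (nat_lit 291) (nat_lit 265) (nat_lit 1) (.cons
 (nat_lit 3668) (nat_lit 2922) (nat_lit 803) (nat_lit 1) .nil)), (nat_lit 10), (nat_lit 2), (nat_lit 26),
 (nat_lit 1), (5, 8, 1), [52, 768], 1⟩,
  ⟨⟨9, 4, -25, -16, -5, -2, -2, 16, -5⟩, (.cons (nat_lit 274) (nat_lit 291) (nat_lit 265) (nat_lit 1) (.cons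
 (nat_lit 3668) (nat_lit 2922) (nat_lit 803) (nat_lit 1) .nil)), (nat_lit 10), (nat_lit 2), (nat_lit 26),
 (nat_lit 1), (5, 8, 1), [52, 768], 1⟩,
  ⟨⟨9, 4, -25, -16, -5, -2, -2, 16, -5⟩, (.cons (nat_lit 274) (nat_lit 291) (nat_lit 265) (nat_lit 1) (.cons
 (nat_lit 3668) (nat_lit 2922) (nat_lit 803) (nat_lit 1) .nil)), (nat_lit 10), (nat_lit 2), (nat_lit 26),
 (nat_lit 1), (5, 8, 1), [52, 768], 1⟩,
  ⟨⟨-11, 12, 20, -16, -5, -2, -2, 16, -5⟩, (.cons (nat_lit 108) (nat_lit 314) (nat_lit 59) (nat_lit 1) (.cons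
 (nat_lit 4730) (nat_lit 4619) (nat_lit 3376) (nat_lit 1) .nil)), (nat_lit 37), (nat_lit 45), (nat_lit 26),
 (nat_lit 1), (15, 8, 1), [7, 2270], 1⟩,
  ⟨⟨9, 4, -25, -16, -5, -2, -2, 16, -5⟩, (.cons (nat_lit 274) (nat_lit 291) (nat_lit 265) (nat_lit 1) (.cons
 (nat_lit 3668) (nat_lit 2922) (nat_lit 803) (nat_lit 1) .nil)), (nat_lit 10), (nat_lit 2), (nat_lit 26),
 (nat_lit 1), (5, 8, 1), [52, 768], 1⟩,
  ⟨⟨9, 4, -25, 16, 5, 2, -2, 16, -5⟩, (.cons (nat_lit 314) (nat_lit 176) (nat_lit 235) (nat_lit 1) (.cons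
 (nat_lit 2542) (nat_lit 2339) (nat_lit 2425) (nat_lit 1) .nil)), (nat_lit 29), (nat_lit 21), (nat_lit 5),
 (nat_lit 1), (5, 11, 1), [253, 5039], 34⟩,
  ⟨⟨-11, 12, 20, -16, -5, -2, -2, 16, -5⟩, (.cons (nat_lit 108) (nat_lit 314) (nat_lit 59) (nat_lit 1) (.cons
 (nat_lit 4730) (nat_lit 4619) (nat_lit 3376) (nat_lit 1) .nil)), (nat_lit 37), (nat_lit 45), (nat_lit 26),
 (nat_lit 1), (15, 8, 1), [7, 2270], 1⟩,
  ⟨⟨9, 4, -25, -16, -5, -2, -2, 16, -5⟩, (.cons (nat_lit 274) (nat_lit 291) (nat_lit 265) (nat_lit 1) (.cons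
 (nat_lit 3668) (nat_lit 2922) (nat_lit 803) (nat_lit 1) .nil)), (nat_lit 10), (nat_lit 2), (nat_lit 26),
 (nat_lit 1), (5, 8, 1), [52, 768], 1⟩,
  ⟨⟨9, 4, -25, -16, -5, -2, -2, 16, -5⟩, (.cons (nat_lit 274) (nat_lit 291) (nat_lit 265) (nat_lit 1) (.cons
 (nat_lit 3668) (nat_lit 2922) (nat_lit 803) (nat_lit 1) .nil)), (nat_lit 10), (nat_lit 2), (nat_lit 26),
 (nat_lit 1), (5, 8, 1), [52, 768], 1⟩]

/-- Moves. -/
noncomputable def t0_8 : List Mv := [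
  ⟨⟨17, -12, -9, -4, -5, -18, 14, 8, -13⟩, (.cons (nat_lit 67) (nat_lit 114) (nat_lit 350) (nat_lit 1) (.cons
 (nat_lit 3242) (nat_lit 565) (nat_lit 1079) (nat_lit 1) .nil)), (nat_lit 10), (nat_lit 11), (nat_lit 9),
 (nat_lit 1), (9, 18, 13), [238, 2259], 1⟩,
  ⟨⟨17, -12, -9, -4, -5, -18, 14, 8, -13⟩, (.cons (nat_lit 67) (nat_lit 114) (nat_lit 350) (nat_lit 1) (.cons
 (nat_lit 3242) (nat_lit 565) (nat_lit 1079) (nat_lit 1) .nil)), (nat_lit 10), (nat_lit 11), (nat_lit 9),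
 (nat_lit 1), (9, 18, 13), [238, 2259], 1⟩,
  ⟨⟨17, -12, -9, -4, -5, -18, 14, 8, -13⟩, (.cons (nat_lit 67) (nat_lit 114) (nat_lit 350) (nat_lit 1) (.cons
 (nat_lit 3242) (nat_lit 565) (nat_lit 1079) (nat_lit 1) .nil)), (nat_lit 10), (nat_lit 11), (nat_lit 9),
 (nat_lit 1), (9, 18, 13), [238, 2259], 1⟩,
  ⟨⟨-3, 20, -4, -4, -5, -18, 14, 8, -13⟩, (.cons (nat_lit 100) (nat_lit 351) (nat_lit 181) (nat_lit 1) (.cons
 (nat_lit 786) (nat_lit 1910) (nat_lit 660) (nat_lit 1) .nil)), (nat_lit 37), (nat_lit 36), (nat_lit 9),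
 (nat_lit 1), (4, 18, 13), [256, 1798], 1⟩,
  ⟨⟨-3, 20, -4, 4, 5, 18, 14, 8, -13⟩, (.cons (nat_lit 78) (nat_lit 138) (nat_lit 1) (nat_lit 285) (.cons
 (nat_lit 4382) (nat_lit 2372) (nat_lit 1854) (nat_lit 1) .nil)), (nat_lit 34), (nat_lit 9), (nat_lit 18),
 (nat_lit 1), (4, 1, 13), [71, 1105], 12⟩,
  ⟨⟨17, -12, -9, -4, -5, -18, 14, 8, -13⟩, (.cons (nat_lit 67) (nat_lit 114) (nat_lit 350) (nat_lit 1) (.cons
 (nat_lit 3242) (nat_lit 565) (nat_lit 1079) (nat_lit 1) .nil)), (nat_lit 10), (nat_lit 11), (nat_lit 9),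
 (nat_lit 1), (9, 18, 13), [238, 2259], 1⟩,
  ⟨⟨17, -12, -9, -4, -5, -18, 14, 8, -13⟩, (.cons (nat_lit 67) (nat_lit 114) (nat_lit 350) (nat_lit 1) (.cons
 (nat_lit 3242) (nat_lit 565) (nat_lit 1079) (nat_lit 1) .nil)), (nat_lit 10), (nat_lit 11), (nat_lit 9),
 (nat_lit 1), (9, 18, 13), [238, 2259], 1⟩,
  ⟨⟨17, -12, -9, -4, -5, -18, 14, 8, -13⟩, (.cons (nat_lit 67) (nat_lit 114) (nat_lit 350) (nat_lit 1) (.cons
 (nat_lit 3242) (nat_lit 565) (nat_lit 1079) (nat_lit 1) .nil)), (nat_lit 10), (nat_lit 11), (nat_lit 9),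
 (nat_lit 1), (9, 18, 13), [238, 2259], 1⟩,
  ⟨⟨17, -12, -9, 4, 5, 18, 14, 8, -13⟩, (.cons (nat_lit 273) (nat_lit 128) (nat_lit 294) (nat_lit 1) (.cons
 (nat_lit 1255) (nat_lit 4668) (nat_lit 4878) (nat_lit 1) .nil)), (nat_lit 13), (nat_lit 38), (nat_lit 18),
 (nat_lit 1), (9, 1, 13), [176, 2152], 12⟩,
  ⟨⟨17, -12, -9, -4, -5, -18, 14, 8, -13⟩, (.cons (nat_lit 67) (nat_lit 114) (nat_lit 350) (nat_lit 1) (.cons
 (nat_lit 3242) (nat_lit 565) (nat_lit 1079) (nat_lit 1) .nil)), (nat_lit 10), (nat_lit 11), (nat_lit 9),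
 (nat_lit 1), (9, 18, 13), [238, 2259], 1⟩,
  ⟨⟨17, -12, -9, -4, -5, -18, 14, 8, -13⟩, (.cons (nat_lit 67) (nat_lit 114) (nat_lit 350) (nat_lit 1) (.cons
 (nat_lit 3242) (nat_lit 565) (nat_lit 1079) (nat_lit 1) .nil)), (nat_lit 10), (nat_lit 11), (nat_lit 9),
 (nat_lit 1), (9, 18, 13), [238, 2259], 1⟩,
  ⟨⟨17, -12, -9, -4, -5, -18, 14, 8, -13⟩, (.cons (nat_lit 67) (nat_lit 114) (nat_lit 350) (nat_lit 1) (.cons
 (nat_lit 3242) (nat_lit 565) (nat_lit 1079) (nat_lit 1) .nil)), (nat_lit 10), (nat_lit 11), (nat_lit 9),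
 (nat_lit 1), (9, 18, 13), [238, 2259], 1⟩,
  ⟨⟨17, -12, -9, -4, -5, -18, 14, 8, -13⟩, (.cons (nat_lit 67) (nat_lit 114) (nat_lit 350) (nat_lit 1) (.cons
 (nat_lit 3242) (nat_lit 565) (nat_lit 1079) (nat_lit 1) .nil)), (nat_lit 10), (nat_lit 11), (nat_lit 9),
 (nat_lit 1), (9, 18, 13), [238, 2259], 1⟩,
  ⟨⟨-3, 20, -4, -4, -5, -18, 14, 8, -13⟩, (.cons (nat_lit 100) (nat_lit 351) (nat_lit 181) (nat_lit 1) (.cons
 (nat_lit 786) (nat_lit 1910) (nat_lit 660) (nat_lit 1) .nil)), (nat_lit 37), (nat_lit 36), (nat_lit 9),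
 (nat_lit 1), (4, 18, 13), [256, 1798], 1⟩,
  ⟨⟨-3, 20, -4, 4, 5, 18, 14, 8, -13⟩, (.cons (nat_lit 78) (nat_lit 138) (nat_lit 1) (nat_lit 285) (.cons
 (nat_lit 4382) (nat_lit 2372) (nat_lit 1854) (nat_lit 1) .nil)), (nat_lit 34), (nat_lit 9), (nat_lit 18),
 (nat_lit 1), (4, 1, 13), [71, 1105], 12⟩,
  ⟨⟨17, -12, -9, 4, 5, 18, 14, 8, -13⟩, (.cons (nat_lit 273) (nat_lit 128) (nat_lit 294) (nat_lit 1) (.cons
 (nat_lit 1255) (nat_lit 4668) (nat_lit 4878) (nat_lit 1) .nil)), (nat_lit 13), (nat_lit 38), (nat_lit 18),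
 (nat_lit 1), (9, 1, 13), [176, 2152], 12⟩,
  ⟨⟨17, -12, -9, 4, 5, 18, 14, 8, -13⟩, (.cons (nat_lit 273) (nat_lit 128) (nat_lit 294) (nat_lit 1) (.cons
 (nat_lit 1255) (nat_lit 4668) (nat_lit 4878) (nat_lit 1) .nil)), (nat_lit 13), (nat_lit 38), (nat_lit 18),
 (nat_lit 1), (9, 1, 13), [176, 2152], 12⟩,
  ⟨⟨17, -12, -9, -4, -5, -18, 14, 8, -13⟩, (.cons (nat_lit 67) (nat_lit 114) (nat_lit 350) (nat_lit 1) (.cons
 (nat_lit 3242) (nat_lit 565) (nat_lit 1079) (nat_lit 1) .nil)), (nat_lit 10), (nat_lit 11), (nat_lit 9),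
 (nat_lit 1), (9, 18, 13), [238, 2259], 1⟩,
  ⟨⟨-3, 20, -4, -4, -5, -18, 14, 8, -13⟩, (.cons (nat_lit 100) (nat_lit 351) (nat_lit 181) (nat_lit 1) (.cons
 (nat_lit 786) (nat_lit 1910) (nat_lit 660) (nat_lit 1) .nil)), (nat_lit 37), (nat_lit 36), (nat_lit 9),
 (nat_lit 1), (4, 18, 13), [256, 1798], 1⟩]

/-- Moves. -/
noncomputable def t1_1 : List Mv := [
  mz,
  ⟨⟨-75, 20, 43, -10, -21, -70, -12, 60, -13⟩, (.cons (nat_lit 152) (nat_lit 138) (nat_lit 226) (nat_lit 1)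
 (.cons (nat_lit 2183) (nat_lit 3088) (nat_lit 4696) (nat_lit 1) .nil)), (nat_lit 8), (nat_lit 22), (nat_lit
 5), (nat_lit 1), (51, 21, 11), [12, 1149], 4⟩,
  mz,
  ⟨⟨-75, -16, 23, 4, -55, 48, -10, -40, -49⟩, (.cons (nat_lit 321) (nat_lit 283) (nat_lit 111) (nat_lit 1)
 (.cons (nat_lit 4556) (nat_lit 4347) (nat_lit 4666) (nat_lit 1) .nil)), (nat_lit 0), (nat_lit 14), (nat_lit
 16), (nat_lit 1), (1, 70, 38), [17, 3644], 18⟩,
  ⟨⟨27, 68, 16, -64, 15, 62, -6, 48, -43⟩, (.cons (nat_lit 269) (nat_lit 234) (nat_lit 355) (nat_lit 1) (.cons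
 (nat_lit 2872) (nat_lit 2985) (nat_lit 1602) (nat_lit 1) .nil)), (nat_lit 45), (nat_lit 30), (nat_lit 37),
 (nat_lit 1), (60, 55, 34), [347, 230], 39⟩,
  ⟨⟨27, -68, 16, 64, 15, -62, -6, -48, -43⟩, (.cons (nat_lit 328) (nat_lit 284) (nat_lit 249) (nat_lit 1)
 (.cons (nat_lit 3930) (nat_lit 94) (nat_lit 1419) (nat_lit 1) .nil)), (nat_lit 23), (nat_lit 22), (nat_lit 3),
 (nat_lit 1), (7, 35, 30), [225, 3431], 45⟩,
  mz,
  ⟨⟨-29, 72, 20, 56, 25, -68, -38, 16, -35⟩, (.cons (nat_lit 84) (nat_lit 124) (nat_lit 1) (nat_lit 76) (.cons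
 (nat_lit 4898) (nat_lit 188) (nat_lit 3186) (nat_lit 1) .nil)), (nat_lit 4), (nat_lit 12), (nat_lit 35),
 (nat_lit 1), (33, 44, 31), [69, 768], 27⟩,
  ⟨⟨3, 40, -76, 64, 25, -12, 26, -32, -67⟩, (.cons (nat_lit 190) (nat_lit 222) (nat_lit 159) (nat_lit 1) (.cons
 (nat_lit 4214) (nat_lit 2664) (nat_lit 2164) (nat_lit 1) .nil)), (nat_lit 12), (nat_lit 44), (nat_lit 3),
 (nat_lit 1), (14, 62, 3), [37, 1181], 34⟩,
  mz,
  mz,
  ⟨⟨33, -20, -92, -64, -15, 2, 6, 48, -49⟩, (.cons (nat_lit 33) (nat_lit 17) (nat_lit 49) (nat_lit 1) (.cons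
 (nat_lit 676) (nat_lit 4101) (nat_lit 1940) (nat_lit 1) .nil)), (nat_lit 33), (nat_lit 8), (nat_lit 22),
 (nat_lit 1), (67, 68, 38), [238, 4475], 46⟩,
  ⟨⟨9, 76, -20, 44, -15, -82, -42, 24, -25⟩, (.cons (nat_lit 214) (nat_lit 57) (nat_lit 340) (nat_lit 1) (.cons
 (nat_lit 2203) (nat_lit 4103) (nat_lit 2733) (nat_lit 1) .nil)), (nat_lit 33), (nat_lit 16), (nat_lit 11),
 (nat_lit 1), (31, 49, 21), [184, 4929], 46⟩,
  mz,
  mz,
  ⟨⟨51, -52, -56, -44, -15, -38, 42, 24, -67⟩, (.cons (nat_lit 242) (nat_lit 324) (nat_lit 358) (nat_lit 1)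
 (.cons (nat_lit 2153) (nat_lit 1733) (nat_lit 1524) (nat_lit 1) .nil)), (nat_lit 33), (nat_lit 31), (nat_lit
 36), (nat_lit 1), (24, 67, 49), [276, 2545], 46⟩,
  ⟨⟨17, 24, -89, -36, -55, -12, 54, -24, -53⟩, (.cons (nat_lit 359) (nat_lit 192) (nat_lit 1) (nat_lit 190)
 (.cons (nat_lit 2888) (nat_lit 4686) (nat_lit 1661) (nat_lit 1) .nil)), (nat_lit 1), (nat_lit 25), (nat_lit
 20), (nat_lit 1), (7, 52, 64), [180, 2295], 38⟩,
  mz,
  ⟨⟨9, 56, -64, 56, 25, 12, 38, -16, -73⟩, (.cons (nat_lit 285) (nat_lit 315) (nat_lit 181) (nat_lit 1) (.cons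
 (nat_lit 4338) (nat_lit 3929) (nat_lit 458) (nat_lit 1) .nil)), (nat_lit 12), (nat_lit 32), (nat_lit 10),
 (nat_lit 1), (56, 25, 55), [208, 4493], 34⟩,
  ⟨⟨39, 40, -80, -44, 55, 32, -22, -8, -55⟩, (.cons (nat_lit 175) (nat_lit 13) (nat_lit 225) (nat_lit 1) (.cons
 (nat_lit 3096) (nat_lit 1564) (nat_lit 3237) (nat_lit 1) .nil)), (nat_lit 25), (nat_lit 38), (nat_lit 17),
 (nat_lit 1), (28, 3, 37), [310, 3449], 5⟩,
  mz,
  mz,
  ⟨⟨17, -24, 72, 36, -55, -48, 54, 24, -1⟩, (.cons (nat_lit 120) (nat_lit 31) (nat_lit 190) (nat_lit 1) (.cons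
 (nat_lit 808) (nat_lit 4357) (nat_lit 825) (nat_lit 1) .nil)), (nat_lit 4), (nat_lit 28), (nat_lit 15),
 (nat_lit 1), (28, 5, 43), [65, 516], 27⟩,
  ⟨⟨39, -40, -80, 44, 55, -32, -22, 8, -55⟩, (.cons (nat_lit 328) (nat_lit 68) (nat_lit 205) (nat_lit 1) (.cons
 (nat_lit 2564) (nat_lit 1734) (nat_lit 3102) (nat_lit 1) .nil)), (nat_lit 32), (nat_lit 6), (nat_lit 20),
 (nat_lit 1), (1, 43, 14), [55, 2598], 44⟩,
  ⟨⟨-39, 40, -41, 44, 55, -12, 22, -8, -77⟩, (.cons (nat_lit 327) (nat_lit 202) (nat_lit 208) (nat_lit 1)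
 (.cons (nat_lit 2593) (nat_lit 4782) (nat_lit 1471) (nat_lit 1) .nil)), (nat_lit 22), (nat_lit 38), (nat_lit
 30), (nat_lit 1), (2, 56, 28), [281, 466], 5⟩,
  mz,
  ⟨⟨51, -4, 40, 10, -69, -20, 60, 12, -49⟩, (.cons (nat_lit 166) (nat_lit 61) (nat_lit 189) (nat_lit 1) (.cons
 (nat_lit 4832) (nat_lit 4434) (nat_lit 3130) (nat_lit 1) .nil)), (nat_lit 11), (nat_lit 24), (nat_lit 33),
 (nat_lit 1), (60, 41, 33), [62, 4285], 9⟩,
  mz,
  mz,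
  ⟨⟨-13, -72, 36, -70, 11, 30, -4, -44, -49⟩, (.cons (nat_lit 8) (nat_lit 260) (nat_lit 251) (nat_lit 1) (.cons
 (nat_lit 2555) (nat_lit 103) (nat_lit 3441) (nat_lit 1) .nil)), (nat_lit 21), (nat_lit 29), (nat_lit 17),
 (nat_lit 1), (29, 36, 69), [182, 1002], 46⟩,
  mz,
  ⟨⟨-11, 72, -25, -50, 11, 80, -44, 4, -29⟩, (.cons (nat_lit 317) (nat_lit 304) (nat_lit 205) (nat_lit 1)
 (.cons (nat_lit 5028) (nat_lit 4980) (nat_lit 2710) (nat_lit 1) .nil)), (nat_lit 26), (nat_lit 38), (nat_lit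
 13), (nat_lit 1), (44, 58, 34), [179, 1056], 46⟩,
  mz,
  ⟨⟨-29, -72, 20, 56, -25, -68, -38, -16, -35⟩, (.cons (nat_lit 218) (nat_lit 291) (nat_lit 327) (nat_lit 1)
 (.cons (nat_lit 1527) (nat_lit 1751) (nat_lit 4229) (nat_lit 1) .nil)), (nat_lit 19), (nat_lit 31), (nat_lit
 29), (nat_lit 1), (27, 36, 6), [77, 3264], 17⟩,
  ⟨⟨-63, 40, 7, 10, -21, -80, 12, 60, -25⟩, (.cons (nat_lit 24) (nat_lit 359) (nat_lit 16) (nat_lit 1) (.cons
 (nat_lit 3531) (nat_lit 156) (nat_lit 4966) (nat_lit 1) .nil)), (nat_lit 8), (nat_lit 25), (nat_lit 42),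
 (nat_lit 1), (60, 4, 19), [356, 4933], 4⟩,
  mz,
  ⟨⟨3, -40, -76, 64, -25, -12, 26, 32, -67⟩, (.cons (nat_lit 111) (nat_lit 198) (nat_lit 336) (nat_lit 1)
 (.cons (nat_lit 554) (nat_lit 3966) (nat_lit 2625) (nat_lit 1) .nil)), (nat_lit 19), (nat_lit 4), (nat_lit
 25), (nat_lit 1), (58, 54, 53), [225, 531], 17⟩,
  mz,
  ⟨⟨17, -24, -89, 36, -55, 12, 54, 24, -53⟩, (.cons (nat_lit 221) (nat_lit 129) (nat_lit 1) (nat_lit 323)
 (.cons (nat_lit 2704) (nat_lit 2777) (nat_lit 491) (nat_lit 1) .nil)), (nat_lit 1), (nat_lit 41), (nat_lit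
 42), (nat_lit 1), (5, 44, 66), [20, 4774], 38⟩,
  ⟨⟨-3, 40, -73, -64, 25, 52, -26, -32, -41⟩, (.cons (nat_lit 59) (nat_lit 86) (nat_lit 81) (nat_lit 1) (.cons
 (nat_lit 793) (nat_lit 2177) (nat_lit 4708) (nat_lit 1) .nil)), (nat_lit 35), (nat_lit 44), (nat_lit 44),
 (nat_lit 1), (12, 43, 33), [159, 170], 34⟩,
  mz,
  mz,
  ⟨⟨75, 16, -52, 4, -55, -52, 10, 40, -59⟩, (.cons (nat_lit 359) (nat_lit 136) (nat_lit 264) (nat_lit 1) (.cons
 (nat_lit 4002) (nat_lit 1655) (nat_lit 398) (nat_lit 1) .nil)), (nat_lit 3), (nat_lit 5), (nat_lit 1),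
 (nat_lit 0), (5, 5, 48), [56, 642], 21⟩,
  ⟨⟨11, -72, -36, 50, -11, 30, 44, -4, -73⟩, (.cons (nat_lit 133) (nat_lit 220) (nat_lit 207) (nat_lit 1)
 (.cons (nat_lit 1061) (nat_lit 4269) (nat_lit 1309) (nat_lit 1) .nil)), (nat_lit 23), (nat_lit 2), (nat_lit
 34), (nat_lit 1), (69, 49, 63), [167, 1632], 46⟩,
  ⟨⟨-39, -40, -41, 44, -55, -12, 22, 8, -77⟩, (.cons (nat_lit 225) (nat_lit 195) (nat_lit 238) (nat_lit 1)
 (.cons (nat_lit 3645) (nat_lit 3408) (nat_lit 2591) (nat_lit 1) .nil)), (nat_lit 1), (nat_lit 7), (nat_lit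
 26), (nat_lit 1), (46, 10, 5), [172, 4733], 20⟩,
  mz,
  ⟨⟨51, 52, -56, -44, 15, -38, 42, -24, -67⟩, (.cons (nat_lit 175) (nat_lit 118) (nat_lit 106) (nat_lit 1)
 (.cons (nat_lit 41) (nat_lit 2210) (nat_lit 3118) (nat_lit 1) .nil)), (nat_lit 45), (nat_lit 44), (nat_lit 6),
 (nat_lit 1), (52, 15, 47), [218, 4733], 39⟩,
  ⟨⟨9, -16, 80, 10, 69, 10, 60, -12, -11⟩, (.cons (nat_lit 242) (nat_lit 126) (nat_lit 215) (nat_lit 1) (.cons
 (nat_lit 1300) (nat_lit 2298) (nat_lit 2964) (nat_lit 1) .nil)), (nat_lit 11), (nat_lit 23), (nat_lit 14),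
 (nat_lit 1), (33, 13, 7), [128, 4622], 38⟩,
  ⟨⟨9, -16, -89, -10, -69, 20, 60, -12, -49⟩, (.cons (nat_lit 72) (nat_lit 87) (nat_lit 292) (nat_lit 1) (.cons
 (nat_lit 3729) (nat_lit 1199) (nat_lit 1664) (nat_lit 1) .nil)), (nat_lit 17), (nat_lit 15), (nat_lit 44),
 (nat_lit 1), (19, 42, 32), [70, 212], 16⟩,
  ⟨⟨9, -56, -64, -56, 25, -12, 38, 16, -73⟩, (.cons (nat_lit 316) (nat_lit 42) (nat_lit 176) (nat_lit 1) (.cons
 (nat_lit 1617) (nat_lit 4009) (nat_lit 3515) (nat_lit 1) .nil)), (nat_lit 4), (nat_lit 35), (nat_lit 12),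
 (nat_lit 1), (4, 54, 9), [116, 4618], 27⟩,
  ⟨⟨65, 24, -72, -4, -55, -48, -10, 40, -49⟩, (.cons (nat_lit 93) (nat_lit 233) (nat_lit 71) (nat_lit 1) (.cons
 (nat_lit 533) (nat_lit 4828) (nat_lit 4201) (nat_lit 1) .nil)), (nat_lit 44), (nat_lit 5), (nat_lit 1),
 (nat_lit 0), (39, 26, 65), [246, 3089], 21⟩,
  ⟨⟨9, -76, -20, -44, -15, 82, -42, -24, -25⟩, (.cons (nat_lit 186) (nat_lit 87) (nat_lit 272) (nat_lit 1)
 (.cons (nat_lit 4677) (nat_lit 4904) (nat_lit 4995) (nat_lit 1) .nil)), (nat_lit 10), (nat_lit 14), (nat_lit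
 15), (nat_lit 1), (1, 3, 19), [160, 3416], 41⟩,
  mz,
  ⟨⟨13, -72, 23, 70, 11, -40, 4, -44, -53⟩, (.cons (nat_lit 165) (nat_lit 333) (nat_lit 304) (nat_lit 1) (.cons
 (nat_lit 4841) (nat_lit 1750) (nat_lit 2908) (nat_lit 1) .nil)), (nat_lit 26), (nat_lit 29), (nat_lit 30),
 (nat_lit 1), (14, 59, 48), [160, 2831], 46⟩,
  ⟨⟨9, 16, 80, -10, 69, -10, 60, 12, -11⟩, (.cons (nat_lit 91) (nat_lit 86) (nat_lit 290) (nat_lit 1) (.cons
 (nat_lit 4177) (nat_lit 2304) (nat_lit 3089) (nat_lit 1) .nil)), (nat_lit 30), (nat_lit 15), (nat_lit 3),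
 (nat_lit 1), (58, 46, 8), [72, 28], 31⟩,
  ⟨⟨-63, -40, 7, 10, 21, -80, 12, -60, -25⟩, (.cons (nat_lit 41) (nat_lit 313) (nat_lit 125) (nat_lit 1) (.cons
 (nat_lit 31) (nat_lit 3328) (nat_lit 440) (nat_lit 1) .nil)), (nat_lit 1), (nat_lit 36), (nat_lit 32),
 (nat_lit 1), (33, 59, 14), [43, 2642], 12⟩,
  mz,
  ⟨⟨-11, -72, -25, 50, 11, -80, -44, -4, -29⟩, (.cons (nat_lit 198) (nat_lit 239) (nat_lit 338) (nat_lit 1)
 (.cons (nat_lit 4149) (nat_lit 3936) (nat_lit 2726) (nat_lit 1) .nil)), (nat_lit 38), (nat_lit 21), (nat_lit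
 12), (nat_lit 1), (38, 8, 10), [336, 3180], 13⟩,
  ⟨⟨-75, -20, 43, -10, 21, -70, -12, -60, -13⟩, (.cons (nat_lit 317) (nat_lit 54) (nat_lit 85) (nat_lit 1)
 (.cons (nat_lit 2500) (nat_lit 553) (nat_lit 252) (nat_lit 1) .nil)), (nat_lit 1), (nat_lit 11), (nat_lit 15),
 (nat_lit 1), (2, 5, 6), [218, 4292], 12⟩,
  mz,
  mz,
  mz,
  ⟨⟨33, -68, -37, -50, -11, -30, 44, 4, -73⟩, (.cons (nat_lit 355) (nat_lit 278) (nat_lit 211) (nat_lit 1)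
 (.cons (nat_lit 1677) (nat_lit 212) (nat_lit 1812) (nat_lit 1) .nil)), (nat_lit 2), (nat_lit 36), (nat_lit
 29), (nat_lit 1), (12, 27, 16), [74, 649], 43⟩,
  mz,
  ⟨⟨-13, 72, 36, 70, 11, -30, -4, 44, -49⟩, (.cons (nat_lit 352) (nat_lit 47) (nat_lit 81) (nat_lit 1) (.cons
 (nat_lit 370) (nat_lit 1435) (nat_lit 3217) (nat_lit 1) .nil)), (nat_lit 9), (nat_lit 34), (nat_lit 23),
 (nat_lit 1), (35, 30, 49), [175, 1531], 13⟩,
  ⟨⟨75, -16, -52, 4, 55, -52, 10, -40, -59⟩, (.cons (nat_lit 360) (nat_lit 243) (nat_lit 237) (nat_lit 1)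
 (.cons (nat_lit 321) (nat_lit 2803) (nat_lit 1402) (nat_lit 1) .nil)), (nat_lit 46), (nat_lit 3), (nat_lit 0),
 (nat_lit 1), (51, 51, 21), [346, 2546], 24⟩,
  mz,
  ⟨⟨-27, -68, 43, -64, 15, 2, 6, -48, -49⟩, (.cons (nat_lit 290) (nat_lit 117) (nat_lit 1) (nat_lit 266) (.cons
 (nat_lit 2185) (nat_lit 4004) (nat_lit 1148) (nat_lit 1) .nil)), (nat_lit 24), (nat_lit 22), (nat_lit 44),
 (nat_lit 1), (60, 16, 34), [205, 2985], 45⟩,
  ⟨⟨13, 72, 23, 70, -11, -40, 4, 44, -53⟩, (.cons (nat_lit 7) (nat_lit 325) (nat_lit 325) (nat_lit 1) (.cons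
 (nat_lit 5039) (nat_lit 856) (nat_lit 4397) (nat_lit 1) .nil)), (nat_lit 2), (nat_lit 4), (nat_lit 26),
 (nat_lit 1), (20, 64, 28), [175, 1793], 43⟩,
  ⟨⟨-23, 72, 32, 64, 25, -52, -26, 32, -41⟩, (.cons (nat_lit 359) (nat_lit 269) (nat_lit 1) (nat_lit 152)
 (.cons (nat_lit 4155) (nat_lit 2570) (nat_lit 4905) (nat_lit 1) .nil)), (nat_lit 4), (nat_lit 13), (nat_lit
 7), (nat_lit 1), (27, 36, 12), [110, 805], 27⟩,
  ⟨⟨17, 24, 72, 36, 55, -48, 54, -24, -1⟩, (.cons (nat_lit 360) (nat_lit 77) (nat_lit 21) (nat_lit 1) (.cons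
 (nat_lit 2263) (nat_lit 3813) (nat_lit 3346) (nat_lit 1) .nil)), (nat_lit 46), (nat_lit 41), (nat_lit 5),
 (nat_lit 1), (30, 51, 41), [80, 2305], 9⟩]

/-- Moves. -/
noncomputable def t1_2 : List Mv := [
  mz,
  ⟨⟨63, 40, -56, 10, 21, 70, -12, 60, -13⟩, (.cons (nat_lit 360) (nat_lit 29) (nat_lit 19) (nat_lit 1) (.cons
 (nat_lit 4580) (nat_lit 4789) (nat_lit 4651) (nat_lit 1) .nil)), (nat_lit 46), (nat_lit 28), (nat_lit 26),
 (nat_lit 1), (31, 50, 11), [204, 2962], 12⟩,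
  mz,
  ⟨⟨65, -24, -72, 4, -55, 48, -10, -40, -49⟩, (.cons (nat_lit 66) (nat_lit 145) (nat_lit 7) (nat_lit 1) (.cons
 (nat_lit 3683) (nat_lit 732) (nat_lit 1532) (nat_lit 1) .nil)), (nat_lit 0), (nat_lit 33), (nat_lit 16),
 (nat_lit 1), (37, 70, 38), [128, 1361], 18⟩,
  ⟨⟨-33, -20, -59, 64, -15, -62, -6, 48, -43⟩, (.cons (nat_lit 311) (nat_lit 173) (nat_lit 10) (nat_lit 1)
 (.cons (nat_lit 1893) (nat_lit 4515) (nat_lit 1336) (nat_lit 1) .nil)), (nat_lit 14), (nat_lit 8), (nat_lit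
 25), (nat_lit 1), (45, 16, 34), [30, 1111], 46⟩,
  ⟨⟨27, -68, 16, -64, -15, 62, -6, -48, -43⟩, (.cons (nat_lit 91) (nat_lit 118) (nat_lit 273) (nat_lit 1)
 (.cons (nat_lit 3952) (nat_lit 3498) (nat_lit 4017) (nat_lit 1) .nil)), (nat_lit 10), (nat_lit 19), (nat_lit
 16), (nat_lit 1), (7, 36, 30), [65, 1753], 41⟩,
  mz,
  ⟨⟨-9, -56, -55, 56, 25, -68, -38, 16, -35⟩, (.cons (nat_lit 257) (nat_lit 280) (nat_lit 121) (nat_lit 1)
 (.cons (nat_lit 4702) (nat_lit 4382) (nat_lit 3443) (nat_lit 1) .nil)), (nat_lit 43), (nat_lit 35), (nat_lit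
 35), (nat_lit 1), (69, 44, 31), [301, 4893], 27⟩,
  ⟨⟨23, -72, 9, -64, -25, 12, 26, -32, -67⟩, (.cons (nat_lit 157) (nat_lit 321) (nat_lit 266) (nat_lit 1)
 (.cons (nat_lit 2217) (nat_lit 2924) (nat_lit 2549) (nat_lit 1) .nil)), (nat_lit 42), (nat_lit 14), (nat_lit
 43), (nat_lit 1), (60, 9, 3), [184, 4580], 2⟩,
  mz,
  mz,
  ⟨⟨33, -20, -92, 64, 15, -2, 6, 48, -49⟩, (.cons (nat_lit 346) (nat_lit 1) (nat_lit 253) (nat_lit 1) (.cons
 (nat_lit 3059) (nat_lit 1467) (nat_lit 959) (nat_lit 1) .nil)), (nat_lit 45), (nat_lit 17), (nat_lit 10),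
 (nat_lit 1), (67, 3, 38), [256, 2396], 39⟩,
  ⟨⟨9, 76, -20, 44, -15, -82, -42, 24, -25⟩, (.cons (nat_lit 214) (nat_lit 57) (nat_lit 340) (nat_lit 1) (.cons
 (nat_lit 2203) (nat_lit 4103) (nat_lit 2733) (nat_lit 1) .nil)), (nat_lit 33), (nat_lit 16), (nat_lit 11),
 (nat_lit 1), (31, 49, 21), [184, 4929], 46⟩,
  mz,
  mz,
  ⟨⟨51, -52, -56, 44, 15, 38, 42, 24, -67⟩, (.cons (nat_lit 51) (nat_lit 340) (nat_lit 306) (nat_lit 1) (.cons
 (nat_lit 3815) (nat_lit 135) (nat_lit 865) (nat_lit 1) .nil)), (nat_lit 23), (nat_lit 15), (nat_lit 42),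
 (nat_lit 1), (24, 4, 49), [47, 2058], 45⟩,
  ⟨⟨17, 24, -89, -36, -55, -12, 54, -24, -53⟩, (.cons (nat_lit 359) (nat_lit 192) (nat_lit 1) (nat_lit 190)
 (.cons (nat_lit 2888) (nat_lit 4686) (nat_lit 1661) (nat_lit 1) .nil)), (nat_lit 1), (nat_lit 25), (nat_lit
 20), (nat_lit 1), (7, 52, 64), [180, 2295], 38⟩,
  mz,
  ⟨⟨29, -72, -9, 56, 25, 12, 38, -16, -73⟩, (.cons (nat_lit 287) (nat_lit 206) (nat_lit 186) (nat_lit 1) (.cons
 (nat_lit 3081) (nat_lit 1581) (nat_lit 2825) (nat_lit 1) .nil)), (nat_lit 35), (nat_lit 15), (nat_lit 10),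
 (nat_lit 1), (70, 25, 55), [140, 1959], 34⟩,
  ⟨⟨-61, -48, 25, 44, -55, -32, -22, -8, -55⟩, (.cons (nat_lit 291) (nat_lit 150) (nat_lit 50) (nat_lit 1)
 (.cons (nat_lit 2149) (nat_lit 4607) (nat_lit 2684) (nat_lit 1) .nil)), (nat_lit 1), (nat_lit 36), (nat_lit
 39), (nat_lit 1), (9, 68, 37), [302, 2507], 20⟩,
  mz,
  mz,
  ⟨⟨37, 48, -73, 36, -55, -48, 54, 24, -1⟩, (.cons (nat_lit 167) (nat_lit 112) (nat_lit 301) (nat_lit 1) (.cons
 (nat_lit 1931) (nat_lit 544) (nat_lit 1028) (nat_lit 1) .nil)), (nat_lit 43), (nat_lit 19), (nat_lit 15),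
 (nat_lit 1), (15, 5, 43), [178, 2791], 27⟩,
  ⟨⟨39, -40, -80, -44, -55, 32, -22, 8, -55⟩, (.cons (nat_lit 360) (nat_lit 243) (nat_lit 334) (nat_lit 1)
 (.cons (nat_lit 1539) (nat_lit 3630) (nat_lit 70) (nat_lit 1) .nil)), (nat_lit 46), (nat_lit 7), (nat_lit 21),
 (nat_lit 1), (1, 28, 14), [70, 4530], 20⟩,
  ⟨⟨-39, 40, -41, 44, 55, -12, 22, -8, -77⟩, (.cons (nat_lit 327) (nat_lit 202) (nat_lit 208) (nat_lit 1)
 (.cons (nat_lit 2593) (nat_lit 4782) (nat_lit 1471) (nat_lit 1) .nil)), (nat_lit 22), (nat_lit 38), (nat_lit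
 30), (nat_lit 1), (2, 56, 28), [281, 466], 5⟩,
  mz,
  ⟨⟨9, 16, -89, -10, 69, 20, 60, 12, -49⟩, (.cons (nat_lit 149) (nat_lit 22) (nat_lit 298) (nat_lit 1) (.cons
 (nat_lit 2837) (nat_lit 4579) (nat_lit 1500) (nat_lit 1) .nil)), (nat_lit 1), (nat_lit 10), (nat_lit 22),
 (nat_lit 1), (44, 30, 33), [324, 179], 8⟩,
  mz,
  mz,
  ⟨⟨-13, -72, 36, 70, -11, -30, -4, -44, -49⟩, (.cons (nat_lit 291) (nat_lit 202) (nat_lit 88) (nat_lit 1)
 (.cons (nat_lit 1837) (nat_lit 1195) (nat_lit 1) (nat_lit 3195) .nil)), (nat_lit 23), (nat_lit 29), (nat_lit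
 38), (nat_lit 1), (29, 35, 69), [317, 4745], 46⟩,
  mz,
  ⟨⟨-11, 72, -25, 50, -11, -80, -44, 4, -29⟩, (.cons (nat_lit 140) (nat_lit 33) (nat_lit 136) (nat_lit 1)
 (.cons (nat_lit 1101) (nat_lit 3638) (nat_lit 3681) (nat_lit 1) .nil)), (nat_lit 2), (nat_lit 11), (nat_lit
 18), (nat_lit 1), (44, 13, 34), [308, 3560], 43⟩,
  mz,
  ⟨⟨-29, -72, 20, 56, -25, -68, -38, -16, -35⟩, (.cons (nat_lit 218) (nat_lit 291) (nat_lit 327) (nat_lit 1)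
 (.cons (nat_lit 1527) (nat_lit 1751) (nat_lit 4229) (nat_lit 1) .nil)), (nat_lit 19), (nat_lit 31), (nat_lit
 29), (nat_lit 1), (27, 36, 6), [77, 3264], 17⟩,
  ⟨⟨75, 20, -32, -10, 21, 80, 12, 60, -25⟩, (.cons (nat_lit 360) (nat_lit 108) (nat_lit 311) (nat_lit 1) (.cons
 (nat_lit 4579) (nat_lit 1145) (nat_lit 2509) (nat_lit 1) .nil)), (nat_lit 46), (nat_lit 19), (nat_lit 21),
 (nat_lit 1), (30, 67, 19), [53, 4938], 12⟩,
  mz,
  ⟨⟨23, 72, 9, 64, -25, -12, 26, 32, -67⟩, (.cons (nat_lit 71) (nat_lit 224) (nat_lit 186) (nat_lit 1) (.cons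
 (nat_lit 3306) (nat_lit 1145) (nat_lit 2722) (nat_lit 1) .nil)), (nat_lit 28), (nat_lit 43), (nat_lit 25),
 (nat_lit 1), (66, 54, 53), [238, 1954], 17⟩,
  mz,
  ⟨⟨17, -24, -89, -36, 55, -12, 54, 24, -53⟩, (.cons (nat_lit 147) (nat_lit 142) (nat_lit 156) (nat_lit 1)
 (.cons (nat_lit 4185) (nat_lit 5006) (nat_lit 4447) (nat_lit 1) .nil)), (nat_lit 35), (nat_lit 40), (nat_lit
 39), (nat_lit 1), (5, 27, 66), [53, 3559], 13⟩,
  ⟨⟨-23, -72, 32, 64, -25, -52, -26, -32, -41⟩, (.cons (nat_lit 234) (nat_lit 290) (nat_lit 213) (nat_lit 1)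
 (.cons (nat_lit 4464) (nat_lit 2391) (nat_lit 1952) (nat_lit 1) .nil)), (nat_lit 5), (nat_lit 14), (nat_lit
 4), (nat_lit 1), (21, 28, 33), [234, 4884], 2⟩,
  mz,
  mz,
  ⟨⟨-65, 24, -7, 4, -55, -52, 10, 40, -59⟩, (.cons (nat_lit 9) (nat_lit 341) (nat_lit 84) (nat_lit 1) (.cons
 (nat_lit 456) (nat_lit 2998) (nat_lit 4341) (nat_lit 1) .nil)), (nat_lit 44), (nat_lit 42), (nat_lit 1),
 (nat_lit 0), (43, 5, 48), [294, 3041], 21⟩,
  ⟨⟨11, -72, -36, -50, 11, -30, 44, -4, -73⟩, (.cons (nat_lit 316) (nat_lit 148) (nat_lit 104) (nat_lit 1)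
 (.cons (nat_lit 4386) (nat_lit 3651) (nat_lit 2553) (nat_lit 1) .nil)), (nat_lit 9), (nat_lit 21), (nat_lit
 35), (nat_lit 1), (69, 22, 63), [330, 4192], 13⟩,
  ⟨⟨-39, -40, -41, 44, -55, -12, 22, 8, -77⟩, (.cons (nat_lit 225) (nat_lit 195) (nat_lit 238) (nat_lit 1)
 (.cons (nat_lit 3645) (nat_lit 3408) (nat_lit 2591) (nat_lit 1) .nil)), (nat_lit 1), (nat_lit 7), (nat_lit
 26), (nat_lit 1), (46, 10, 5), [172, 4733], 20⟩,
  mz,
  ⟨⟨51, 52, -56, -44, 15, -38, 42, -24, -67⟩, (.cons (nat_lit 175) (nat_lit 118) (nat_lit 106) (nat_lit 1)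
 (.cons (nat_lit 41) (nat_lit 2210) (nat_lit 3118) (nat_lit 1) .nil)), (nat_lit 45), (nat_lit 44), (nat_lit 6),
 (nat_lit 1), (52, 15, 47), [218, 4733], 39⟩,
  ⟨⟨51, 4, -91, -10, -69, -10, 60, -12, -11⟩, (.cons (nat_lit 63) (nat_lit 58) (nat_lit 359) (nat_lit 1) (.cons
 (nat_lit 3359) (nat_lit 3320) (nat_lit 3742) (nat_lit 1) .nil)), (nat_lit 1), (nat_lit 37), (nat_lit 25),
 (nat_lit 1), (45, 58, 7), [287, 4098], 39⟩,
  ⟨⟨51, 4, 40, 10, 69, -20, 60, -12, -49⟩, (.cons (nat_lit 360) (nat_lit 331) (nat_lit 143) (nat_lit 1) (.cons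
 (nat_lit 3825) (nat_lit 712) (nat_lit 4282) (nat_lit 1) .nil)), (nat_lit 46), (nat_lit 16), (nat_lit 45),
 (nat_lit 1), (13, 29, 32), [165, 195], 8⟩,
  ⟨⟨29, 72, -9, 56, -25, 12, 38, 16, -73⟩, (.cons (nat_lit 300) (nat_lit 307) (nat_lit 155) (nat_lit 1) (.cons
 (nat_lit 4249) (nat_lit 3528) (nat_lit 688) (nat_lit 1) .nil)), (nat_lit 42), (nat_lit 27), (nat_lit 31),
 (nat_lit 1), (5, 17, 9), [65, 1706], 2⟩,
  ⟨⟨65, 24, -72, -4, -55, -48, -10, 40, -49⟩, (.cons (nat_lit 93) (nat_lit 233) (nat_lit 71) (nat_lit 1) (.cons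
 (nat_lit 533) (nat_lit 4828) (nat_lit 4201) (nat_lit 1) .nil)), (nat_lit 44), (nat_lit 5), (nat_lit 1),
 (nat_lit 0), (39, 26, 65), [246, 3089], 21⟩,
  ⟨⟨9, -76, -20, 44, 15, -82, -42, -24, -25⟩, (.cons (nat_lit 3) (nat_lit 186) (nat_lit 180) (nat_lit 1) (.cons
 (nat_lit 4198) (nat_lit 2702) (nat_lit 3885) (nat_lit 1) .nil)), (nat_lit 45), (nat_lit 3), (nat_lit 41),
 (nat_lit 1), (1, 68, 19), [43, 2751], 39⟩,
  mz,
  ⟨⟨13, -72, 23, -70, -11, 40, 4, -44, -53⟩, (.cons (nat_lit 60) (nat_lit 287) (nat_lit 336) (nat_lit 1) (.cons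
 (nat_lit 3059) (nat_lit 1222) (nat_lit 94) (nat_lit 1) .nil)), (nat_lit 24), (nat_lit 29), (nat_lit 9),
 (nat_lit 1), (14, 12, 48), [343, 4134], 46⟩,
  ⟨⟨9, 16, 80, -10, 69, -10, 60, 12, -11⟩, (.cons (nat_lit 91) (nat_lit 86) (nat_lit 290) (nat_lit 1) (.cons
 (nat_lit 4177) (nat_lit 2304) (nat_lit 3089) (nat_lit 1) .nil)), (nat_lit 30), (nat_lit 15), (nat_lit 3),
 (nat_lit 1), (58, 46, 8), [72, 28], 31⟩,
  ⟨⟨75, -20, -32, 10, 21, -80, 12, -60, -25⟩, (.cons (nat_lit 360) (nat_lit 76) (nat_lit 167) (nat_lit 1)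
 (.cons (nat_lit 2260) (nat_lit 1735) (nat_lit 409) (nat_lit 1) .nil)), (nat_lit 46), (nat_lit 11), (nat_lit
 32), (nat_lit 1), (52, 59, 14), [147, 1615], 12⟩,
  mz,
  ⟨⟨-11, -72, -25, 50, 11, -80, -44, -4, -29⟩, (.cons (nat_lit 198) (nat_lit 239) (nat_lit 338) (nat_lit 1)
 (.cons (nat_lit 4149) (nat_lit 3936) (nat_lit 2726) (nat_lit 1) .nil)), (nat_lit 38), (nat_lit 21), (nat_lit
 12), (nat_lit 1), (38, 8, 10), [336, 3180], 13⟩,
  ⟨⟨-75, -20, 43, -10, 21, -70, -12, -60, -13⟩, (.cons (nat_lit 317) (nat_lit 54) (nat_lit 85) (nat_lit 1)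
 (.cons (nat_lit 2500) (nat_lit 553) (nat_lit 252) (nat_lit 1) .nil)), (nat_lit 1), (nat_lit 11), (nat_lit 15),
 (nat_lit 1), (2, 5, 6), [218, 4292], 12⟩,
  mz,
  mz,
  mz,
  ⟨⟨11, 72, -36, -50, -11, -30, 44, 4, -73⟩, (.cons (nat_lit 263) (nat_lit 302) (nat_lit 321) (nat_lit 1)
 (.cons (nat_lit 3262) (nat_lit 109) (nat_lit 4632) (nat_lit 1) .nil)), (nat_lit 45), (nat_lit 11), (nat_lit
 29), (nat_lit 1), (4, 27, 16), [155, 2567], 43⟩,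
  mz,
  ⟨⟨9, -28, -85, 70, 11, -30, -4, 44, -49⟩, (.cons (nat_lit 41) (nat_lit 171) (nat_lit 259) (nat_lit 1) (.cons
 (nat_lit 1898) (nat_lit 1290) (nat_lit 4564) (nat_lit 1) .nil)), (nat_lit 38), (nat_lit 13), (nat_lit 23),
 (nat_lit 1), (14, 30, 49), [186, 2815], 13⟩,
  ⟨⟨75, -16, -52, 4, 55, -52, 10, -40, -59⟩, (.cons (nat_lit 360) (nat_lit 243) (nat_lit 237) (nat_lit 1)
 (.cons (nat_lit 321) (nat_lit 2803) (nat_lit 1402) (nat_lit 1) .nil)), (nat_lit 46), (nat_lit 3), (nat_lit 0),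
 (nat_lit 1), (51, 51, 21), [346, 2546], 24⟩,
  mz,
  ⟨⟨-27, -68, 43, 64, -15, -2, 6, -48, -49⟩, (.cons (nat_lit 315) (nat_lit 9) (nat_lit 157) (nat_lit 1) (.cons
 (nat_lit 4695) (nat_lit 3393) (nat_lit 4644) (nat_lit 1) .nil)), (nat_lit 37), (nat_lit 19), (nat_lit 31),
 (nat_lit 1), (60, 55, 34), [343, 4313], 41⟩,
  ⟨⟨13, 72, 23, 70, -11, -40, 4, 44, -53⟩, (.cons (nat_lit 7) (nat_lit 325) (nat_lit 325) (nat_lit 1) (.cons
 (nat_lit 5039) (nat_lit 856) (nat_lit 4397) (nat_lit 1) .nil)), (nat_lit 2), (nat_lit 4), (nat_lit 26),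
 (nat_lit 1), (20, 64, 28), [175, 1793], 43⟩,
  ⟨⟨-23, 72, 32, 64, 25, -52, -26, 32, -41⟩, (.cons (nat_lit 359) (nat_lit 269) (nat_lit 1) (nat_lit 152)
 (.cons (nat_lit 4155) (nat_lit 2570) (nat_lit 4905) (nat_lit 1) .nil)), (nat_lit 4), (nat_lit 13), (nat_lit
 7), (nat_lit 1), (27, 36, 12), [110, 805], 27⟩,
  ⟨⟨37, -48, -73, 36, 55, -48, 54, -24, -1⟩, (.cons (nat_lit 57) (nat_lit 184) (nat_lit 49) (nat_lit 1) (.cons
 (nat_lit 3354) (nat_lit 2953) (nat_lit 944) (nat_lit 1) .nil)), (nat_lit 1), (nat_lit 6), (nat_lit 5),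
 (nat_lit 1), (11, 51, 41), [354, 3395], 9⟩]

/-- Moves. -/
noncomputable def t1_8 : List Mv := [
  mz,
  ⟨⟨63, 40, -56, 10, 21, 70, -12, 60, -13⟩, (.cons (nat_lit 360) (nat_lit 29) (nat_lit 19) (nat_lit 1) (.cons
 (nat_lit 4580) (nat_lit 4789) (nat_lit 4651) (nat_lit 1) .nil)), (nat_lit 46), (nat_lit 28), (nat_lit 26),
 (nat_lit 1), (31, 50, 11), [204, 2962], 12⟩,
  mz,
  ⟨⟨65, -24, -72, -4, 55, -48, -10, -40, -49⟩, (.cons (nat_lit 360) (nat_lit 336) (nat_lit 39) (nat_lit 1)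
 (.cons (nat_lit 1440) (nat_lit 3833) (nat_lit 2184) (nat_lit 1) .nil)), (nat_lit 46), (nat_lit 44), (nat_lit
 0), (nat_lit 1), (37, 1, 38), [158, 1772], 24⟩,
  ⟨⟨27, 68, 16, 64, -15, -62, -6, 48, -43⟩, (.cons (nat_lit 233) (nat_lit 252) (nat_lit 95) (nat_lit 1) (.cons
 (nat_lit 4658) (nat_lit 1186) (nat_lit 3642) (nat_lit 1) .nil)), (nat_lit 33), (nat_lit 39), (nat_lit 25),
 (nat_lit 1), (60, 16, 34), [146, 342], 46⟩,
  ⟨⟨27, -68, 16, 64, 15, -62, -6, -48, -43⟩, (.cons (nat_lit 328) (nat_lit 284) (nat_lit 249) (nat_lit 1)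
 (.cons (nat_lit 3930) (nat_lit 94) (nat_lit 1419) (nat_lit 1) .nil)), (nat_lit 23), (nat_lit 22), (nat_lit 3),
 (nat_lit 1), (7, 35, 30), [225, 3431], 45⟩,
  mz,
  ⟨⟨-29, 72, 20, 56, 25, -68, -38, 16, -35⟩, (.cons (nat_lit 84) (nat_lit 124) (nat_lit 1) (nat_lit 76) (.cons
 (nat_lit 4898) (nat_lit 188) (nat_lit 3186) (nat_lit 1) .nil)), (nat_lit 4), (nat_lit 12), (nat_lit 35),
 (nat_lit 1), (33, 44, 31), [69, 768], 27⟩,
  ⟨⟨3, 40, -76, 64, 25, -12, 26, -32, -67⟩, (.cons (nat_lit 190) (nat_lit 222) (nat_lit 159) (nat_lit 1) (.cons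
 (nat_lit 4214) (nat_lit 2664) (nat_lit 2164) (nat_lit 1) .nil)), (nat_lit 12), (nat_lit 44), (nat_lit 3),
 (nat_lit 1), (14, 62, 3), [37, 1181], 34⟩,
  mz,
  mz,
  ⟨⟨33, -20, -92, 64, 15, -2, 6, 48, -49⟩, (.cons (nat_lit 346) (nat_lit 1) (nat_lit 253) (nat_lit 1) (.cons
 (nat_lit 3059) (nat_lit 1467) (nat_lit 959) (nat_lit 1) .nil)), (nat_lit 45), (nat_lit 17), (nat_lit 10),
 (nat_lit 1), (67, 3, 38), [256, 2396], 39⟩,
  ⟨⟨9, 76, -20, -44, 15, 82, -42, 24, -25⟩, (.cons (nat_lit 24) (nat_lit 337) (nat_lit 65) (nat_lit 1) (.cons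
 (nat_lit 381) (nat_lit 2442) (nat_lit 1190) (nat_lit 1) .nil)), (nat_lit 23), (nat_lit 32), (nat_lit 5),
 (nat_lit 1), (31, 22, 21), [168, 1983], 45⟩,
  mz,
  mz,
  ⟨⟨-9, 76, -11, -44, -15, -38, 42, 24, -67⟩, (.cons (nat_lit 102) (nat_lit 165) (nat_lit 231) (nat_lit 1)
 (.cons (nat_lit 2322) (nat_lit 2751) (nat_lit 2508) (nat_lit 1) .nil)), (nat_lit 14), (nat_lit 16), (nat_lit
 36), (nat_lit 1), (25, 67, 49), [87, 1098], 46⟩,
  ⟨⟨17, 24, -89, -36, -55, -12, 54, -24, -53⟩, (.cons (nat_lit 359) (nat_lit 192) (nat_lit 1) (nat_lit 190)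
 (.cons (nat_lit 2888) (nat_lit 4686) (nat_lit 1661) (nat_lit 1) .nil)), (nat_lit 1), (nat_lit 25), (nat_lit
 20), (nat_lit 1), (7, 52, 64), [180, 2295], 38⟩,
  mz,
  ⟨⟨29, -72, -9, -56, -25, -12, 38, -16, -73⟩, (.cons (nat_lit 23) (nat_lit 198) (nat_lit 19) (nat_lit 1)
 (.cons (nat_lit 3647) (nat_lit 3360) (nat_lit 4210) (nat_lit 1) .nil)), (nat_lit 28), (nat_lit 31), (nat_lit
 18), (nat_lit 1), (70, 46, 55), [227, 3093], 17⟩,
  ⟨⟨-61, -48, 25, 44, -55, -32, -22, -8, -55⟩, (.cons (nat_lit 291) (nat_lit 150) (nat_lit 50) (nat_lit 1)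
 (.cons (nat_lit 2149) (nat_lit 4607) (nat_lit 2684) (nat_lit 1) .nil)), (nat_lit 1), (nat_lit 36), (nat_lit
 39), (nat_lit 1), (9, 68, 37), [302, 2507], 20⟩,
  mz,
  mz,
  ⟨⟨17, -24, 72, 36, -55, -48, 54, 24, -1⟩, (.cons (nat_lit 120) (nat_lit 31) (nat_lit 190) (nat_lit 1) (.cons
 (nat_lit 808) (nat_lit 4357) (nat_lit 825) (nat_lit 1) .nil)), (nat_lit 4), (nat_lit 28), (nat_lit 15),
 (nat_lit 1), (28, 5, 43), [65, 516], 27⟩,
  ⟨⟨39, -40, -80, -44, -55, 32, -22, 8, -55⟩, (.cons (nat_lit 360) (nat_lit 243) (nat_lit 334) (nat_lit 1)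
 (.cons (nat_lit 1539) (nat_lit 3630) (nat_lit 70) (nat_lit 1) .nil)), (nat_lit 46), (nat_lit 7), (nat_lit 21),
 (nat_lit 1), (1, 28, 14), [70, 4530], 20⟩,
  ⟨⟨-39, 40, -41, -44, -55, 12, 22, -8, -77⟩, (.cons (nat_lit 263) (nat_lit 260) (nat_lit 207) (nat_lit 1)
 (.cons (nat_lit 1966) (nat_lit 1628) (nat_lit 4285) (nat_lit 1) .nil)), (nat_lit 1), (nat_lit 11), (nat_lit
 8), (nat_lit 1), (2, 15, 28), [134, 2311], 20⟩,
  mz,
  ⟨⟨51, -4, 40, -10, 69, 20, 60, 12, -49⟩, (.cons (nat_lit 360) (nat_lit 37) (nat_lit 326) (nat_lit 1) (.cons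
 (nat_lit 26) (nat_lit 2129) (nat_lit 1) (nat_lit 994) .nil)), (nat_lit 46), (nat_lit 37), (nat_lit 22),
 (nat_lit 1), (60, 30, 33), [181, 1490], 8⟩,
  mz,
  mz,
  ⟨⟨9, 28, -85, -70, 11, 30, -4, -44, -49⟩, (.cons (nat_lit 31) (nat_lit 172) (nat_lit 352) (nat_lit 1) (.cons
 (nat_lit 25) (nat_lit 4970) (nat_lit 2397) (nat_lit 1) .nil)), (nat_lit 26), (nat_lit 18), (nat_lit 17),
 (nat_lit 1), (40, 36, 69), [162, 1182], 46⟩,
  mz,
  ⟨⟨-11, 72, -25, 50, -11, -80, -44, 4, -29⟩, (.cons (nat_lit 140) (nat_lit 33) (nat_lit 136) (nat_lit 1)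
 (.cons (nat_lit 1101) (nat_lit 3638) (nat_lit 3681) (nat_lit 1) .nil)), (nat_lit 2), (nat_lit 11), (nat_lit
 18), (nat_lit 1), (44, 13, 34), [308, 3560], 43⟩,
  mz,
  ⟨⟨-9, 56, -55, -56, 25, 68, -38, -16, -35⟩, (.cons (nat_lit 160) (nat_lit 154) (nat_lit 353) (nat_lit 1)
 (.cons (nat_lit 1281) (nat_lit 1539) (nat_lit 318) (nat_lit 1) .nil)), (nat_lit 35), (nat_lit 32), (nat_lit
 37), (nat_lit 1), (50, 35, 6), [82, 4185], 34⟩,
  ⟨⟨75, 20, -32, 10, -21, -80, 12, 60, -25⟩, (.cons (nat_lit 295) (nat_lit 316) (nat_lit 22) (nat_lit 1) (.cons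
 (nat_lit 3179) (nat_lit 4361) (nat_lit 427) (nat_lit 1) .nil)), (nat_lit 39), (nat_lit 22), (nat_lit 42),
 (nat_lit 1), (30, 4, 19), [263, 1161], 4⟩,
  mz,
  ⟨⟨23, 72, 9, -64, 25, 12, 26, 32, -67⟩, (.cons (nat_lit 200) (nat_lit 315) (nat_lit 344) (nat_lit 1) (.cons
 (nat_lit 1928) (nat_lit 4361) (nat_lit 4091) (nat_lit 1) .nil)), (nat_lit 43), (nat_lit 13), (nat_lit 40),
 (nat_lit 1), (66, 17, 53), [168, 3865], 27⟩,
  mz,
  ⟨⟨17, -24, -89, 36, -55, 12, 54, 24, -53⟩, (.cons (nat_lit 221) (nat_lit 129) (nat_lit 1) (nat_lit 323)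
 (.cons (nat_lit 2704) (nat_lit 2777) (nat_lit 491) (nat_lit 1) .nil)), (nat_lit 1), (nat_lit 41), (nat_lit
 42), (nat_lit 1), (5, 44, 66), [20, 4774], 38⟩,
  ⟨⟨-23, -72, 32, -64, 25, 52, -26, -32, -41⟩, (.cons (nat_lit 8) (nat_lit 25) (nat_lit 36) (nat_lit 1) (.cons
 (nat_lit 1508) (nat_lit 1801) (nat_lit 2694) (nat_lit 1) .nil)), (nat_lit 12), (nat_lit 3), (nat_lit 44),
 (nat_lit 1), (21, 43, 33), [204, 4097], 34⟩,
  mz,
  mz,
  ⟨⟨-65, 24, -7, -4, 55, 52, 10, 40, -59⟩, (.cons (nat_lit 125) (nat_lit 270) (nat_lit 297) (nat_lit 1) (.cons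
 (nat_lit 4971) (nat_lit 535) (nat_lit 2015) (nat_lit 1) .nil)), (nat_lit 1), (nat_lit 0), (nat_lit 10),
 (nat_lit 1), (43, 66, 48), [52, 679], 24⟩,
  ⟨⟨11, -72, -36, -50, 11, -30, 44, -4, -73⟩, (.cons (nat_lit 316) (nat_lit 148) (nat_lit 104) (nat_lit 1)
 (.cons (nat_lit 4386) (nat_lit 3651) (nat_lit 2553) (nat_lit 1) .nil)), (nat_lit 9), (nat_lit 21), (nat_lit
 35), (nat_lit 1), (69, 22, 63), [330, 4192], 13⟩,
  ⟨⟨-39, -40, -41, 44, -55, -12, 22, 8, -77⟩, (.cons (nat_lit 225) (nat_lit 195) (nat_lit 238) (nat_lit 1)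
 (.cons (nat_lit 3645) (nat_lit 3408) (nat_lit 2591) (nat_lit 1) .nil)), (nat_lit 1), (nat_lit 7), (nat_lit
 26), (nat_lit 1), (46, 10, 5), [172, 4733], 20⟩,
  mz,
  ⟨⟨-9, -76, -11, -44, 15, -38, 42, -24, -67⟩, (.cons (nat_lit 342) (nat_lit 83) (nat_lit 300) (nat_lit 1)
 (.cons (nat_lit 4528) (nat_lit 5031) (nat_lit 3554) (nat_lit 1) .nil)), (nat_lit 2), (nat_lit 3), (nat_lit 6),
 (nat_lit 1), (66, 15, 47), [12, 4781], 39⟩,
  ⟨⟨51, 4, -91, 10, 69, 10, 60, -12, -11⟩, (.cons (nat_lit 356) (nat_lit 74) (nat_lit 16) (nat_lit 1) (.cons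
 (nat_lit 2037) (nat_lit 4520) (nat_lit 3659) (nat_lit 1) .nil)), (nat_lit 36), (nat_lit 24), (nat_lit 14),
 (nat_lit 1), (45, 13, 7), [55, 2878], 38⟩,
  ⟨⟨51, 4, 40, 10, 69, -20, 60, -12, -49⟩, (.cons (nat_lit 360) (nat_lit 331) (nat_lit 143) (nat_lit 1) (.cons
 (nat_lit 3825) (nat_lit 712) (nat_lit 4282) (nat_lit 1) .nil)), (nat_lit 46), (nat_lit 16), (nat_lit 45),
 (nat_lit 1), (13, 29, 32), [165, 195], 8⟩,
  ⟨⟨9, -56, -64, -56, 25, -12, 38, 16, -73⟩, (.cons (nat_lit 316) (nat_lit 42) (nat_lit 176) (nat_lit 1) (.cons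
 (nat_lit 1617) (nat_lit 4009) (nat_lit 3515) (nat_lit 1) .nil)), (nat_lit 4), (nat_lit 35), (nat_lit 12),
 (nat_lit 1), (4, 54, 9), [116, 4618], 27⟩,
  ⟨⟨-75, 16, 23, 4, 55, 48, -10, 40, -49⟩, (.cons (nat_lit 26) (nat_lit 200) (nat_lit 220) (nat_lit 1) (.cons
 (nat_lit 1533) (nat_lit 4938) (nat_lit 1) (nat_lit 3195) .nil)), (nat_lit 1), (nat_lit 0), (nat_lit 37),
 (nat_lit 1), (26, 45, 65), [135, 3227], 24⟩,
  ⟨⟨-51, 52, -5, -44, -15, 82, -42, -24, -25⟩, (.cons (nat_lit 296) (nat_lit 54) (nat_lit 289) (nat_lit 1)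
 (.cons (nat_lit 4340) (nat_lit 422) (nat_lit 2221) (nat_lit 1) .nil)), (nat_lit 37), (nat_lit 33), (nat_lit
 15), (nat_lit 1), (18, 3, 19), [39, 337], 41⟩,
  mz,
  ⟨⟨13, -72, 23, 70, 11, -40, 4, -44, -53⟩, (.cons (nat_lit 165) (nat_lit 333) (nat_lit 304) (nat_lit 1) (.cons
 (nat_lit 4841) (nat_lit 1750) (nat_lit 2908) (nat_lit 1) .nil)), (nat_lit 26), (nat_lit 29), (nat_lit 30),
 (nat_lit 1), (14, 59, 48), [160, 2831], 46⟩,
  ⟨⟨9, 16, 80, -10, 69, -10, 60, 12, -11⟩, (.cons (nat_lit 91) (nat_lit 86) (nat_lit 290) (nat_lit 1) (.cons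
 (nat_lit 4177) (nat_lit 2304) (nat_lit 3089) (nat_lit 1) .nil)), (nat_lit 30), (nat_lit 15), (nat_lit 3),
 (nat_lit 1), (58, 46, 8), [72, 28], 31⟩,
  ⟨⟨75, -20, -32, 10, 21, -80, 12, -60, -25⟩, (.cons (nat_lit 360) (nat_lit 76) (nat_lit 167) (nat_lit 1)
 (.cons (nat_lit 2260) (nat_lit 1735) (nat_lit 409) (nat_lit 1) .nil)), (nat_lit 46), (nat_lit 11), (nat_lit
 32), (nat_lit 1), (52, 59, 14), [147, 1615], 12⟩,
  mz,
  ⟨⟨-11, -72, -25, 50, 11, -80, -44, -4, -29⟩, (.cons (nat_lit 198) (nat_lit 239) (nat_lit 338) (nat_lit 1)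
 (.cons (nat_lit 4149) (nat_lit 3936) (nat_lit 2726) (nat_lit 1) .nil)), (nat_lit 38), (nat_lit 21), (nat_lit
 12), (nat_lit 1), (38, 8, 10), [336, 3180], 13⟩,
  ⟨⟨-75, -20, 43, 10, -21, 70, -12, -60, -13⟩, (.cons (nat_lit 346) (nat_lit 331) (nat_lit 240) (nat_lit 1)
 (.cons (nat_lit 3667) (nat_lit 170) (nat_lit 3188) (nat_lit 1) .nil)), (nat_lit 6), (nat_lit 38), (nat_lit
 30), (nat_lit 1), (2, 66, 6), [319, 3947], 3⟩,
  mz,
  mz,
  mz,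
  ⟨⟨11, 72, -36, -50, -11, -30, 44, 4, -73⟩, (.cons (nat_lit 263) (nat_lit 302) (nat_lit 321) (nat_lit 1)
 (.cons (nat_lit 3262) (nat_lit 109) (nat_lit 4632) (nat_lit 1) .nil)), (nat_lit 45), (nat_lit 11), (nat_lit
 29), (nat_lit 1), (4, 27, 16), [155, 2567], 43⟩,
  mz,
  ⟨⟨-13, 72, 36, -70, -11, 30, -4, 44, -49⟩, (.cons (nat_lit 143) (nat_lit 308) (nat_lit 1) (nat_lit 247)
 (.cons (nat_lit 3831) (nat_lit 2815) (nat_lit 170) (nat_lit 1) .nil)), (nat_lit 45), (nat_lit 4), (nat_lit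
 21), (nat_lit 1), (35, 41, 49), [284, 865], 43⟩,
  ⟨⟨75, -16, -52, 4, 55, -52, 10, -40, -59⟩, (.cons (nat_lit 360) (nat_lit 243) (nat_lit 237) (nat_lit 1)
 (.cons (nat_lit 321) (nat_lit 2803) (nat_lit 1402) (nat_lit 1) .nil)), (nat_lit 46), (nat_lit 3), (nat_lit 0),
 (nat_lit 1), (51, 51, 21), [346, 2546], 24⟩,
  mz,
  ⟨⟨33, 20, -92, 64, -15, -2, 6, -48, -49⟩, (.cons (nat_lit 194) (nat_lit 133) (nat_lit 103) (nat_lit 1) (.cons
 (nat_lit 267) (nat_lit 40) (nat_lit 5010) (nat_lit 1) .nil)), (nat_lit 10), (nat_lit 28), (nat_lit 31),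
 (nat_lit 1), (45, 55, 34), [322, 1507], 41⟩,
  ⟨⟨13, 72, 23, 70, -11, -40, 4, 44, -53⟩, (.cons (nat_lit 7) (nat_lit 325) (nat_lit 325) (nat_lit 1) (.cons
 (nat_lit 5039) (nat_lit 856) (nat_lit 4397) (nat_lit 1) .nil)), (nat_lit 2), (nat_lit 4), (nat_lit 26),
 (nat_lit 1), (20, 64, 28), [175, 1793], 43⟩,
  ⟨⟨-3, -40, -73, 64, 25, -52, -26, 32, -41⟩, (.cons (nat_lit 88) (nat_lit 166) (nat_lit 343) (nat_lit 1)
 (.cons (nat_lit 3051) (nat_lit 2586) (nat_lit 1293) (nat_lit 1) .nil)), (nat_lit 43), (nat_lit 34), (nat_lit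
 7), (nat_lit 1), (56, 36, 12), [9, 3505], 27⟩,
  ⟨⟨37, -48, -73, 36, 55, -48, 54, -24, -1⟩, (.cons (nat_lit 57) (nat_lit 184) (nat_lit 49) (nat_lit 1) (.cons
 (nat_lit 3354) (nat_lit 2953) (nat_lit 944) (nat_lit 1) .nil)), (nat_lit 1), (nat_lit 6), (nat_lit 5),
 (nat_lit 1), (11, 51, 41), [354, 3395], 9⟩]

/-- Moves. -/
noncomputable def t4_1 : List Mv := [
  mz,
  ⟨⟨-25, 12, -36, -22, 35, 36, 20, 28, -37⟩, (.cons (nat_lit 48) (nat_lit 5) (nat_lit 206) (nat_lit 1) (.cons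
 (nat_lit 1894) (nat_lit 4745) (nat_lit 118) (nat_lit 1) .nil)), (nat_lit 21), (nat_lit 0), (nat_lit 0),
 (nat_lit 0), (2, 45, 36), [54, 1571], 0⟩,
  ⟨⟨21, -32, -49, 2, 35, -36, -28, -20, -13⟩, (.cons (nat_lit 162) (nat_lit 177) (nat_lit 60) (nat_lit 1)
 (.cons (nat_lit 3462) (nat_lit 4284) (nat_lit 3066) (nat_lit 1) .nil)), (nat_lit 5), (nat_lit 0), (nat_lit 0),
 (nat_lit 0), (33, 30, 3), [205, 624], 0⟩,
  ⟨⟨-51, 4, 19, -2, -45, -14, -12, 12, -37⟩, (.cons (nat_lit 262) (nat_lit 173) (nat_lit 193) (nat_lit 1)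
 (.cons (nat_lit 2703) (nat_lit 2830) (nat_lit 3860) (nat_lit 1) .nil)), (nat_lit 33), (nat_lit 0), (nat_lit
 0), (nat_lit 0), (7, 27, 21), [337, 1816], 0⟩,
  mz,
  ⟨⟨25, -12, -61, -22, 35, -14, -20, -28, -17⟩, (.cons (nat_lit 78) (nat_lit 273) (nat_lit 13) (nat_lit 1)
 (.cons (nat_lit 3930) (nat_lit 820) (nat_lit 3651) (nat_lit 1) .nil)), (nat_lit 2), (nat_lit 0), (nat_lit 0),
 (nat_lit 0), (9, 9, 21), [326, 1914], 0⟩,
  mz,
  mz,
  mz,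
  ⟨⟨-17, -48, 0, -40, 17, 0, 10, -16, -47⟩, (.cons (nat_lit 360) (nat_lit 187) (nat_lit 90) (nat_lit 1) (.cons
 (nat_lit 5040) (nat_lit 2499) (nat_lit 4615) (nat_lit 1) .nil)), (nat_lit 9), (nat_lit 0), (nat_lit 0),
 (nat_lit 0), (6, 39, 2), [255, 3006], 0⟩,
  mz,
  ⟨⟨17, 48, -17, -40, 17, 40, -10, 16, -37⟩, (.cons (nat_lit 252) (nat_lit 18) (nat_lit 98) (nat_lit 1) (.cons
 (nat_lit 100) (nat_lit 3440) (nat_lit 3185) (nat_lit 1) .nil)), (nat_lit 36), (nat_lit 0), (nat_lit 0),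
 (nat_lit 0), (25, 2, 24), [308, 2909], 0⟩,
  ⟨⟨17, -36, -45, -20, 23, -30, 38, 8, -37⟩, (.cons (nat_lit 10) (nat_lit 228) (nat_lit 312) (nat_lit 1) (.cons
 (nat_lit 2064) (nat_lit 228) (nat_lit 3908) (nat_lit 1) .nil)), (nat_lit 32), (nat_lit 0), (nat_lit 0),
 (nat_lit 0), (19, 44, 1), [299, 3729], 0⟩,
  mz,
  ⟨⟨-51, -4, 19, 2, -45, 14, -12, -12, -37⟩, (.cons (nat_lit 207) (nat_lit 336) (nat_lit 29) (nat_lit 1) (.cons
 (nat_lit 1575) (nat_lit 2064) (nat_lit 484) (nat_lit 1) .nil)), (nat_lit 44), (nat_lit 0), (nat_lit 0),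
 (nat_lit 0), (25, 11, 28), [238, 1588], 0⟩,
  ⟨⟨9, 4, -61, 40, 23, -10, 22, -32, -29⟩, (.cons (nat_lit 101) (nat_lit 252) (nat_lit 181) (nat_lit 1) (.cons
 (nat_lit 4368) (nat_lit 2575) (nat_lit 529) (nat_lit 1) .nil)), (nat_lit 35), (nat_lit 0), (nat_lit 0),
 (nat_lit 0), (18, 33, 44), [269, 2131], 0⟩,
  ⟨⟨-13, 36, 45, 40, 23, -30, -22, 32, -7⟩, (.cons (nat_lit 282) (nat_lit 77) (nat_lit 203) (nat_lit 1) (.cons
 (nat_lit 4024) (nat_lit 2404) (nat_lit 3706) (nat_lit 1) .nil)), (nat_lit 27), (nat_lit 0), (nat_lit 0),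
 (nat_lit 0), (5, 28, 41), [236, 4789], 0⟩,
  mz,
  ⟨⟨23, 0, 40, 0, -47, 0, 42, 0, -23⟩, (.cons (nat_lit 360) (nat_lit 352) (nat_lit 31) (nat_lit 1) (.cons (nat_lit 5040) (nat_lit 1162) (nat_lit 881) (nat_lit 1) .nil)), (nat_lit 18), (nat_lit 0), (nat_lit 0), (nat_lit 0), (7, 0, 23), [70, 1364], 0⟩,
  ⟨⟨-39, 32, 8, -20, -33, -20, 6, 24, -41⟩, (.cons (nat_lit 129) (nat_lit 10) (nat_lit 252) (nat_lit 1) (.cons
 (nat_lit 4837) (nat_lit 3072) (nat_lit 1638) (nat_lit 1) .nil)), (nat_lit 22), (nat_lit 0), (nat_lit 0),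
 (nat_lit 0), (25, 8, 7), [106, 1983], 0⟩,
  ⟨⟨17, -36, 28, 20, -23, -50, 38, 8, -1⟩, (.cons (nat_lit 289) (nat_lit 252) (nat_lit 326) (nat_lit 1) (.cons
 (nat_lit 4329) (nat_lit 515) (nat_lit 3516) (nat_lit 1) .nil)), (nat_lit 16), (nat_lit 0), (nat_lit 0),
 (nat_lit 0), (2, 30, 10), [338, 4246], 0⟩,
  ⟨⟨21, 32, -49, 2, -35, -36, -28, 20, -13⟩, (.cons (nat_lit 255) (nat_lit 14) (nat_lit 224) (nat_lit 1) (.cons
 (nat_lit 3660) (nat_lit 1711) (nat_lit 4976) (nat_lit 1) .nil)), (nat_lit 5), (nat_lit 0), (nat_lit 0),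
 (nat_lit 0), (30, 23, 7), [329, 214], 0⟩,
  ⟨⟨-39, -32, 8, 20, -33, 20, 6, -24, -41⟩, (.cons (nat_lit 14) (nat_lit 221) (nat_lit 82) (nat_lit 1) (.cons
 (nat_lit 2990) (nat_lit 4463) (nat_lit 2232) (nat_lit 1) .nil)), (nat_lit 19), (nat_lit 0), (nat_lit 0),
 (nat_lit 0), (28, 23, 21), [199, 4295], 0⟩,
  mz,
  mz,
  ⟨⟨-45, 8, -4, 20, 33, -40, -6, -24, -35⟩, (.cons (nat_lit 360) (nat_lit 94) (nat_lit 250) (nat_lit 1) (.cons
 (nat_lit 5040) (nat_lit 4353) (nat_lit 4754) (nat_lit 1) .nil)), (nat_lit 25), (nat_lit 0), (nat_lit 0),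
 (nat_lit 0), (40, 24, 21), [113, 2], 0⟩,
  ⟨⟨-21, 32, -28, -2, -35, -34, 28, 20, -41⟩, (.cons (nat_lit 168) (nat_lit 73) (nat_lit 332) (nat_lit 1)
 (.cons (nat_lit 2362) (nat_lit 3363) (nat_lit 4530) (nat_lit 1) .nil)), (nat_lit 5), (nat_lit 0), (nat_lit 0),
 (nat_lit 0), (30, 23, 7), [183, 2660], 0⟩,
  ⟨⟨17, 36, -45, -20, -23, -30, 38, -8, -37⟩, (.cons (nat_lit 257) (nat_lit 354) (nat_lit 329) (nat_lit 1)
 (.cons (nat_lit 4586) (nat_lit 3880) (nat_lit 3170) (nat_lit 1) .nil)), (nat_lit 32), (nat_lit 0), (nat_lit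
 0), (nat_lit 0), (45, 30, 37), [254, 705], 0⟩,
  ⟨⟨39, 32, -31, 20, -33, -40, -6, 24, -35⟩, (.cons (nat_lit 129) (nat_lit 49) (nat_lit 235) (nat_lit 1) (.cons
 (nat_lit 222) (nat_lit 3469) (nat_lit 1872) (nat_lit 1) .nil)), (nat_lit 22), (nat_lit 0), (nat_lit 0),
 (nat_lit 0), (25, 8, 7), [221, 1283], 0⟩,
  ⟨⟨19, 0, 44, 0, -47, 0, 42, 0, -19⟩, (.cons (nat_lit 360) (nat_lit 92) (nat_lit 155) (nat_lit 1) (.cons
 (nat_lit 5040) (nat_lit 2856) (nat_lit 1565) (nat_lit 1) .nil)), (nat_lit 29), (nat_lit 0), (nat_lit 0),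
 (nat_lit 0), (31, 0, 24), [110, 466], 0⟩,
  mz,
  ⟨⟨9, -4, -61, 40, -23, -10, 22, 32, -29⟩, (.cons (nat_lit 105) (nat_lit 23) (nat_lit 341) (nat_lit 1) (.cons
 (nat_lit 4941) (nat_lit 4002) (nat_lit 775) (nat_lit 1) .nil)), (nat_lit 35), (nat_lit 0), (nat_lit 0),
 (nat_lit 0), (36, 19, 41), [159, 1912], 0⟩,
  ⟨⟨-13, -36, 45, 40, -23, -30, -22, -32, -7⟩, (.cons (nat_lit 59) (nat_lit 52) (nat_lit 83) (nat_lit 1) (.cons
 (nat_lit 3501) (nat_lit 1615) (nat_lit 2112) (nat_lit 1) .nil)), (nat_lit 27), (nat_lit 0), (nat_lit 0),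
 (nat_lit 0), (26, 14, 44), [85, 4325], 0⟩,
  ⟨⟨51, -4, -32, 2, 45, -16, 12, -12, -49⟩, (.cons (nat_lit 360) (nat_lit 24) (nat_lit 294) (nat_lit 1) (.cons
 (nat_lit 5040) (nat_lit 844) (nat_lit 1910) (nat_lit 1) .nil)), (nat_lit 33), (nat_lit 0), (nat_lit 0),
 (nat_lit 0), (25, 36, 28), [281, 4738], 0⟩,
  mz,
  ⟨⟨21, -44, -29, -20, -23, 50, 38, -8, -1⟩, (.cons (nat_lit 168) (nat_lit 262) (nat_lit 277) (nat_lit 1)
 (.cons (nat_lit 3101) (nat_lit 4910) (nat_lit 2937) (nat_lit 1) .nil)), (nat_lit 15), (nat_lit 0), (nat_lit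
 0), (nat_lit 0), (18, 3, 46), [296, 4441], 0⟩,
  ⟨⟨27, -32, -47, 40, 17, 0, 10, 16, -47⟩, (.cons (nat_lit 308) (nat_lit 232) (nat_lit 140) (nat_lit 1) (.cons
 (nat_lit 1966) (nat_lit 1982) (nat_lit 4253) (nat_lit 1) .nil)), (nat_lit 11), (nat_lit 0), (nat_lit 0),
 (nat_lit 0), (46, 2, 24), [216, 26], 0⟩,
  mz,
  ⟨⟨-27, 32, -20, 40, 17, -40, -10, -16, -37⟩, (.cons (nat_lit 360) (nat_lit 5) (nat_lit 134) (nat_lit 1)
 (.cons (nat_lit 5040) (nat_lit 2017) (nat_lit 4380) (nat_lit 1) .nil)), (nat_lit 38), (nat_lit 0), (nat_lit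
 0), (nat_lit 0), (43, 39, 2), [231, 2462], 0⟩,
  mz,
  mz,
  mz,
  ⟨⟨45, -16, -1, 22, 35, -36, 20, -28, -37⟩, (.cons (nat_lit 195) (nat_lit 187) (nat_lit 342) (nat_lit 1)
 (.cons (nat_lit 4743) (nat_lit 1552) (nat_lit 468) (nat_lit 1) .nil)), (nat_lit 45), (nat_lit 0), (nat_lit 0),
 (nat_lit 0), (12, 9, 21), [12, 4064], 0⟩,
  mz,
  ⟨⟨-39, 8, -17, 2, -45, -16, 12, 12, -49⟩, (.cons (nat_lit 218) (nat_lit 35) (nat_lit 176) (nat_lit 1) (.cons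
 (nat_lit 1005) (nat_lit 2572) (nat_lit 2557) (nat_lit 1) .nil)), (nat_lit 14), (nat_lit 0), (nat_lit 0),
 (nat_lit 0), (14, 27, 21), [221, 4566], 0⟩,
  ⟨⟨49, 12, -13, 2, -35, 34, 28, -20, -41⟩, (.cons (nat_lit 88) (nat_lit 32) (nat_lit 147) (nat_lit 1) (.cons
 (nat_lit 3956) (nat_lit 1139) (nat_lit 1056) (nat_lit 1) .nil)), (nat_lit 1), (nat_lit 0), (nat_lit 0),
 (nat_lit 0), (17, 17, 3), [9, 3382], 0⟩,
  ⟨⟨-45, 16, 44, -22, -35, -14, -20, 28, -17⟩, (.cons (nat_lit 225) (nat_lit 155) (nat_lit 1) (nat_lit 342)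
 (.cons (nat_lit 919) (nat_lit 4662) (nat_lit 2528) (nat_lit 1) .nil)), (nat_lit 45), (nat_lit 0), (nat_lit 0),
 (nat_lit 0), (34, 2, 36), [274, 2165], 0⟩]

/-- Moves. -/
noncomputable def t4_2 : List Mv := [
  mz,
  ⟨⟨45, 16, -1, 22, -35, -36, 20, 28, -37⟩, (.cons (nat_lit 160) (nat_lit 295) (nat_lit 306) (nat_lit 1) (.cons
 (nat_lit 1956) (nat_lit 238) (nat_lit 1274) (nat_lit 1) .nil)), (nat_lit 45), (nat_lit 0), (nat_lit 0),
 (nat_lit 0), (34, 2, 36), [82, 1137], 0⟩,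
  ⟨⟨21, -32, -49, 2, 35, -36, -28, -20, -13⟩, (.cons (nat_lit 162) (nat_lit 177) (nat_lit 60) (nat_lit 1)
 (.cons (nat_lit 3462) (nat_lit 4284) (nat_lit 3066) (nat_lit 1) .nil)), (nat_lit 5), (nat_lit 0), (nat_lit 0),
 (nat_lit 0), (33, 30, 3), [205, 624], 0⟩,
  ⟨⟨-51, 4, 19, 2, 45, 14, -12, 12, -37⟩, (.cons (nat_lit 336) (nat_lit 162) (nat_lit 94) (nat_lit 1) (.cons
 (nat_lit 3516) (nat_lit 1363) (nat_lit 799) (nat_lit 1) .nil)), (nat_lit 44), (nat_lit 0), (nat_lit 0),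
 (nat_lit 0), (7, 20, 21), [55, 474], 0⟩,
  mz,
  ⟨⟨-45, -16, 44, -22, 35, -14, -20, -28, -17⟩, (.cons (nat_lit 344) (nat_lit 156) (nat_lit 289) (nat_lit 1)
 (.cons (nat_lit 2522) (nat_lit 2351) (nat_lit 3489) (nat_lit 1) .nil)), (nat_lit 45), (nat_lit 0), (nat_lit
 0), (nat_lit 0), (12, 9, 21), [45, 4156], 0⟩,
  mz,
  mz,
  mz,
  ⟨⟨27, 32, -47, -40, 17, 0, 10, -16, -47⟩, (.cons (nat_lit 270) (nat_lit 106) (nat_lit 101) (nat_lit 1) (.cons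
 (nat_lit 2747) (nat_lit 3083) (nat_lit 3381) (nat_lit 1) .nil)), (nat_lit 38), (nat_lit 0), (nat_lit 0),
 (nat_lit 0), (43, 39, 2), [254, 2653], 0⟩,
  mz,
  ⟨⟨17, 48, -17, 40, -17, -40, -10, 16, -37⟩, (.cons (nat_lit 96) (nat_lit 251) (nat_lit 177) (nat_lit 1)
 (.cons (nat_lit 1789) (nat_lit 4205) (nat_lit 1) (nat_lit 1065) .nil)), (nat_lit 9), (nat_lit 0), (nat_lit 0),
 (nat_lit 0), (25, 45, 24), [135, 4076], 0⟩,
  ⟨⟨17, -36, -45, -20, 23, -30, 38, 8, -37⟩, (.cons (nat_lit 10) (nat_lit 228) (nat_lit 312) (nat_lit 1) (.cons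
 (nat_lit 2064) (nat_lit 228) (nat_lit 3908) (nat_lit 1) .nil)), (nat_lit 32), (nat_lit 0), (nat_lit 0),
 (nat_lit 0), (19, 44, 1), [299, 3729], 0⟩,
  mz,
  ⟨⟨-51, -4, 19, -2, 45, -14, -12, -12, -37⟩, (.cons (nat_lit 89) (nat_lit 145) (nat_lit 243) (nat_lit 1)
 (.cons (nat_lit 2735) (nat_lit 1353) (nat_lit 4252) (nat_lit 1) .nil)), (nat_lit 33), (nat_lit 0), (nat_lit
 0), (nat_lit 0), (25, 36, 28), [74, 2746], 0⟩,
  ⟨⟨9, 4, -61, 40, 23, -10, 22, -32, -29⟩, (.cons (nat_lit 101) (nat_lit 252) (nat_lit 181) (nat_lit 1) (.cons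
 (nat_lit 4368) (nat_lit 2575) (nat_lit 529) (nat_lit 1) .nil)), (nat_lit 35), (nat_lit 0), (nat_lit 0),
 (nat_lit 0), (18, 33, 44), [269, 2131], 0⟩,
  ⟨⟨-13, 36, 45, -40, -23, 30, -22, 32, -7⟩, (.cons (nat_lit 258) (nat_lit 93) (nat_lit 15) (nat_lit 1) (.cons
 (nat_lit 117) (nat_lit 3706) (nat_lit 1416) (nat_lit 1) .nil)), (nat_lit 12), (nat_lit 0), (nat_lit 0),
 (nat_lit 0), (5, 19, 41), [11, 247], 0⟩,
  mz,
  ⟨⟨19, 0, -63, 0, -47, 0, 42, 0, -23⟩, (.cons (nat_lit 106) (nat_lit 215) (nat_lit 47) (nat_lit 1) (.cons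
 (nat_lit 4804) (nat_lit 1325) (nat_lit 2661) (nat_lit 1) .nil)), (nat_lit 29), (nat_lit 0), (nat_lit 0),
 (nat_lit 0), (16, 0, 23), [292, 2039], 0⟩,
  ⟨⟨-39, 32, 8, -20, -33, -20, 6, 24, -41⟩, (.cons (nat_lit 129) (nat_lit 10) (nat_lit 252) (nat_lit 1) (.cons
 (nat_lit 4837) (nat_lit 3072) (nat_lit 1638) (nat_lit 1) .nil)), (nat_lit 22), (nat_lit 0), (nat_lit 0),
 (nat_lit 0), (25, 8, 7), [106, 1983], 0⟩,
  ⟨⟨17, -36, 28, -20, 23, 50, 38, 8, -1⟩, (.cons (nat_lit 304) (nat_lit 234) (nat_lit 191) (nat_lit 1) (.cons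
 (nat_lit 3989) (nat_lit 4877) (nat_lit 1312) (nat_lit 1) .nil)), (nat_lit 32), (nat_lit 0), (nat_lit 0),
 (nat_lit 0), (2, 17, 10), [111, 3425], 0⟩,
  ⟨⟨-49, -12, 36, -2, 35, 36, -28, 20, -13⟩, (.cons (nat_lit 173) (nat_lit 218) (nat_lit 101) (nat_lit 1)
 (.cons (nat_lit 3303) (nat_lit 4775) (nat_lit 3444) (nat_lit 1) .nil)), (nat_lit 1), (nat_lit 0), (nat_lit 0),
 (nat_lit 0), (24, 24, 7), [330, 677], 0⟩,
  ⟨⟨45, 8, -49, -20, 33, -20, 6, -24, -41⟩, (.cons (nat_lit 63) (nat_lit 20) (nat_lit 55) (nat_lit 1) (.cons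
 (nat_lit 3060) (nat_lit 811) (nat_lit 3819) (nat_lit 1) .nil)), (nat_lit 25), (nat_lit 0), (nat_lit 0),
 (nat_lit 0), (40, 24, 21), [4, 2235], 0⟩,
  mz,
  mz,
  ⟨⟨39, -32, -31, 20, 33, -40, -6, -24, -35⟩, (.cons (nat_lit 149) (nat_lit 269) (nat_lit 108) (nat_lit 1)
 (.cons (nat_lit 1481) (nat_lit 3708) (nat_lit 63) (nat_lit 1) .nil)), (nat_lit 22), (nat_lit 0), (nat_lit 0),
 (nat_lit 0), (28, 24, 21), [359, 1057], 0⟩,
  ⟨⟨-21, 32, -28, -2, -35, -34, 28, 20, -41⟩, (.cons (nat_lit 168) (nat_lit 73) (nat_lit 332) (nat_lit 1)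
 (.cons (nat_lit 2362) (nat_lit 3363) (nat_lit 4530) (nat_lit 1) .nil)), (nat_lit 5), (nat_lit 0), (nat_lit 0),
 (nat_lit 0), (30, 23, 7), [183, 2660], 0⟩,
  ⟨⟨17, 36, -45, -20, -23, -30, 38, -8, -37⟩, (.cons (nat_lit 257) (nat_lit 354) (nat_lit 329) (nat_lit 1)
 (.cons (nat_lit 4586) (nat_lit 3880) (nat_lit 3170) (nat_lit 1) .nil)), (nat_lit 32), (nat_lit 0), (nat_lit
 0), (nat_lit 0), (45, 30, 37), [254, 705], 0⟩,
  ⟨⟨-45, -8, -4, 20, -33, -40, -6, 24, -35⟩, (.cons (nat_lit 262) (nat_lit 149) (nat_lit 148) (nat_lit 1)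
 (.cons (nat_lit 1713) (nat_lit 648) (nat_lit 1896) (nat_lit 1) .nil)), (nat_lit 25), (nat_lit 0), (nat_lit 0),
 (nat_lit 0), (29, 8, 7), [334, 66], 0⟩,
  ⟨⟨19, 0, 44, 0, -47, 0, 42, 0, -19⟩, (.cons (nat_lit 360) (nat_lit 92) (nat_lit 155) (nat_lit 1) (.cons
 (nat_lit 5040) (nat_lit 2856) (nat_lit 1565) (nat_lit 1) .nil)), (nat_lit 29), (nat_lit 0), (nat_lit 0),
 (nat_lit 0), (31, 0, 24), [110, 466], 0⟩,
  mz,
  ⟨⟨9, -4, -61, 40, -23, -10, 22, 32, -29⟩, (.cons (nat_lit 105) (nat_lit 23) (nat_lit 341) (nat_lit 1) (.cons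
 (nat_lit 4941) (nat_lit 4002) (nat_lit 775) (nat_lit 1) .nil)), (nat_lit 35), (nat_lit 0), (nat_lit 0),
 (nat_lit 0), (36, 19, 41), [159, 1912], 0⟩,
  ⟨⟨-9, 4, -52, 40, -23, -30, -22, -32, -7⟩, (.cons (nat_lit 189) (nat_lit 177) (nat_lit 1) (nat_lit 57) (.cons
 (nat_lit 1289) (nat_lit 4715) (nat_lit 2608) (nat_lit 1) .nil)), (nat_lit 20), (nat_lit 0), (nat_lit 0),
 (nat_lit 0), (18, 14, 44), [193, 4901], 0⟩,
  ⟨⟨51, -4, -32, 2, 45, -16, 12, -12, -49⟩, (.cons (nat_lit 360) (nat_lit 24) (nat_lit 294) (nat_lit 1) (.cons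
 (nat_lit 5040) (nat_lit 844) (nat_lit 1910) (nat_lit 1) .nil)), (nat_lit 33), (nat_lit 0), (nat_lit 0),
 (nat_lit 0), (25, 36, 28), [281, 4738], 0⟩,
  mz,
  ⟨⟨17, 36, 28, 20, 23, -50, 38, -8, -1⟩, (.cons (nat_lit 138) (nat_lit 358) (nat_lit 262) (nat_lit 1) (.cons
 (nat_lit 1621) (nat_lit 2561) (nat_lit 4316) (nat_lit 1) .nil)), (nat_lit 16), (nat_lit 0), (nat_lit 0),
 (nat_lit 0), (28, 44, 46), [253, 3145], 0⟩,
  ⟨⟨27, -32, -47, -40, -17, 0, 10, 16, -47⟩, (.cons (nat_lit 154) (nat_lit 56) (nat_lit 46) (nat_lit 1) (.cons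
 (nat_lit 4061) (nat_lit 3876) (nat_lit 3739) (nat_lit 1) .nil)), (nat_lit 38), (nat_lit 0), (nat_lit 0),
 (nat_lit 0), (46, 45, 24), [242, 3162], 0⟩,
  mz,
  ⟨⟨-27, 32, -20, 40, 17, -40, -10, -16, -37⟩, (.cons (nat_lit 360) (nat_lit 5) (nat_lit 134) (nat_lit 1)
 (.cons (nat_lit 5040) (nat_lit 2017) (nat_lit 4380) (nat_lit 1) .nil)), (nat_lit 38), (nat_lit 0), (nat_lit
 0), (nat_lit 0), (43, 39, 2), [231, 2462], 0⟩,
  mz,
  mz,
  mz,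
  ⟨⟨45, -16, -1, 22, 35, -36, 20, -28, -37⟩, (.cons (nat_lit 195) (nat_lit 187) (nat_lit 342) (nat_lit 1)
 (.cons (nat_lit 4743) (nat_lit 1552) (nat_lit 468) (nat_lit 1) .nil)), (nat_lit 45), (nat_lit 0), (nat_lit 0),
 (nat_lit 0), (12, 9, 21), [12, 4064], 0⟩,
  mz,
  ⟨⟨-39, 8, -17, -2, 45, 16, 12, 12, -49⟩, (.cons (nat_lit 231) (nat_lit 122) (nat_lit 307) (nat_lit 1) (.cons
 (nat_lit 119) (nat_lit 4156) (nat_lit 698) (nat_lit 1) .nil)), (nat_lit 3), (nat_lit 0), (nat_lit 0), (nat_lit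
 0), (14, 20, 21), [286, 2743], 0⟩,
  ⟨⟨49, 12, -13, -2, 35, -34, 28, -20, -41⟩, (.cons (nat_lit 137) (nat_lit 12) (nat_lit 76) (nat_lit 1) (.cons
 (nat_lit 2419) (nat_lit 1257) (nat_lit 2133) (nat_lit 1) .nil)), (nat_lit 42), (nat_lit 0), (nat_lit 0),
 (nat_lit 0), (17, 30, 3), [325, 2839], 0⟩,
  ⟨⟨-45, 16, 44, -22, -35, -14, -20, 28, -17⟩, (.cons (nat_lit 225) (nat_lit 155) (nat_lit 1) (nat_lit 342)
 (.cons (nat_lit 919) (nat_lit 4662) (nat_lit 2528) (nat_lit 1) .nil)), (nat_lit 45), (nat_lit 0), (nat_lit 0),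
 (nat_lit 0), (34, 2, 36), [274, 2165], 0⟩]

/-- Moves. -/
noncomputable def t4_8 : List Mv := [
  mz,
  ⟨⟨45, 16, -1, 22, -35, -36, 20, 28, -37⟩, (.cons (nat_lit 160) (nat_lit 295) (nat_lit 306) (nat_lit 1) (.cons
 (nat_lit 1956) (nat_lit 238) (nat_lit 1274) (nat_lit 1) .nil)), (nat_lit 45), (nat_lit 0), (nat_lit 0),
 (nat_lit 0), (34, 2, 36), [82, 1137], 0⟩,
  ⟨⟨21, -32, -49, 2, 35, -36, -28, -20, -13⟩, (.cons (nat_lit 162) (nat_lit 177) (nat_lit 60) (nat_lit 1)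
 (.cons (nat_lit 3462) (nat_lit 4284) (nat_lit 3066) (nat_lit 1) .nil)), (nat_lit 5), (nat_lit 0), (nat_lit 0),
 (nat_lit 0), (33, 30, 3), [205, 624], 0⟩,
  ⟨⟨-51, 4, 19, -2, -45, -14, -12, 12, -37⟩, (.cons (nat_lit 262) (nat_lit 173) (nat_lit 193) (nat_lit 1)
 (.cons (nat_lit 2703) (nat_lit 2830) (nat_lit 3860) (nat_lit 1) .nil)), (nat_lit 33), (nat_lit 0), (nat_lit
 0), (nat_lit 0), (7, 27, 21), [337, 1816], 0⟩,
  mz,
  ⟨⟨25, -12, -61, -22, 35, -14, -20, -28, -17⟩, (.cons (nat_lit 78) (nat_lit 273) (nat_lit 13) (nat_lit 1)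
 (.cons (nat_lit 3930) (nat_lit 820) (nat_lit 3651) (nat_lit 1) .nil)), (nat_lit 2), (nat_lit 0), (nat_lit 0),
 (nat_lit 0), (9, 9, 21), [326, 1914], 0⟩,
  mz,
  mz,
  mz,
  ⟨⟨27, 32, -47, 40, -17, 0, 10, -16, -47⟩, (.cons (nat_lit 267) (nat_lit 129) (nat_lit 32) (nat_lit 1) (.cons
 (nat_lit 4757) (nat_lit 719) (nat_lit 4407) (nat_lit 1) .nil)), (nat_lit 11), (nat_lit 0), (nat_lit 0),
 (nat_lit 0), (43, 8, 2), [116, 2287], 0⟩,
  mz,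
  ⟨⟨17, 48, -17, 40, -17, -40, -10, 16, -37⟩, (.cons (nat_lit 96) (nat_lit 251) (nat_lit 177) (nat_lit 1)
 (.cons (nat_lit 1789) (nat_lit 4205) (nat_lit 1) (nat_lit 1065) .nil)), (nat_lit 9), (nat_lit 0), (nat_lit 0),
 (nat_lit 0), (25, 45, 24), [135, 4076], 0⟩,
  ⟨⟨17, -36, -45, 20, -23, 30, 38, 8, -37⟩, (.cons (nat_lit 7) (nat_lit 71) (nat_lit 256) (nat_lit 1) (.cons
 (nat_lit 1508) (nat_lit 1821) (nat_lit 2056) (nat_lit 1) .nil)), (nat_lit 16), (nat_lit 0), (nat_lit 0),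
 (nat_lit 0), (19, 3, 1), [178, 383], 0⟩,
  mz,
  ⟨⟨-51, -4, 19, -2, 45, -14, -12, -12, -37⟩, (.cons (nat_lit 89) (nat_lit 145) (nat_lit 243) (nat_lit 1)
 (.cons (nat_lit 2735) (nat_lit 1353) (nat_lit 4252) (nat_lit 1) .nil)), (nat_lit 33), (nat_lit 0), (nat_lit
 0), (nat_lit 0), (25, 36, 28), [74, 2746], 0⟩,
  ⟨⟨9, 4, -61, 40, 23, -10, 22, -32, -29⟩, (.cons (nat_lit 101) (nat_lit 252) (nat_lit 181) (nat_lit 1) (.cons
 (nat_lit 4368) (nat_lit 2575) (nat_lit 529) (nat_lit 1) .nil)), (nat_lit 35), (nat_lit 0), (nat_lit 0),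
 (nat_lit 0), (18, 33, 44), [269, 2131], 0⟩,
  ⟨⟨-9, -4, -52, -40, -23, 30, -22, 32, -7⟩, (.cons (nat_lit 327) (nat_lit 259) (nat_lit 244) (nat_lit 1)
 (.cons (nat_lit 2124) (nat_lit 4716) (nat_lit 2395) (nat_lit 1) .nil)), (nat_lit 35), (nat_lit 0), (nat_lit
 0), (nat_lit 0), (36, 19, 41), [303, 96], 0⟩,
  mz,
  ⟨⟨23, 0, 40, 0, -47, 0, 42, 0, -23⟩, (.cons (nat_lit 360) (nat_lit 352) (nat_lit 31) (nat_lit 1) (.cons (nat_lit 5040) (nat_lit 1162) (nat_lit 881) (nat_lit 1) .nil)), (nat_lit 18), (nat_lit 0), (nat_lit 0), (nat_lit 0), (7, 0, 23), [70, 1364], 0⟩,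
  ⟨⟨-39, 32, 8, -20, -33, -20, 6, 24, -41⟩, (.cons (nat_lit 129) (nat_lit 10) (nat_lit 252) (nat_lit 1) (.cons
 (nat_lit 4837) (nat_lit 3072) (nat_lit 1638) (nat_lit 1) .nil)), (nat_lit 22), (nat_lit 0), (nat_lit 0),
 (nat_lit 0), (25, 8, 7), [106, 1983], 0⟩,
  ⟨⟨17, -36, 28, 20, -23, -50, 38, 8, -1⟩, (.cons (nat_lit 289) (nat_lit 252) (nat_lit 326) (nat_lit 1) (.cons
 (nat_lit 4329) (nat_lit 515) (nat_lit 3516) (nat_lit 1) .nil)), (nat_lit 16), (nat_lit 0), (nat_lit 0),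
 (nat_lit 0), (2, 30, 10), [338, 4246], 0⟩,
  ⟨⟨21, 32, -49, 2, -35, -36, -28, 20, -13⟩, (.cons (nat_lit 255) (nat_lit 14) (nat_lit 224) (nat_lit 1) (.cons
 (nat_lit 3660) (nat_lit 1711) (nat_lit 4976) (nat_lit 1) .nil)), (nat_lit 5), (nat_lit 0), (nat_lit 0),
 (nat_lit 0), (30, 23, 7), [329, 214], 0⟩,
  ⟨⟨45, 8, -49, 20, -33, 20, 6, -24, -41⟩, (.cons (nat_lit 14) (nat_lit 36) (nat_lit 320) (nat_lit 1) (.cons
 (nat_lit 931) (nat_lit 1642) (nat_lit 1354) (nat_lit 1) .nil)), (nat_lit 28), (nat_lit 0), (nat_lit 0),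
 (nat_lit 0), (40, 23, 21), [357, 4722], 0⟩,
  mz,
  mz,
  ⟨⟨-45, 8, -4, 20, 33, -40, -6, -24, -35⟩, (.cons (nat_lit 360) (nat_lit 94) (nat_lit 250) (nat_lit 1) (.cons
 (nat_lit 5040) (nat_lit 4353) (nat_lit 4754) (nat_lit 1) .nil)), (nat_lit 25), (nat_lit 0), (nat_lit 0),
 (nat_lit 0), (40, 24, 21), [113, 2], 0⟩,
  ⟨⟨-21, 32, -28, -2, -35, -34, 28, 20, -41⟩, (.cons (nat_lit 168) (nat_lit 73) (nat_lit 332) (nat_lit 1)
 (.cons (nat_lit 2362) (nat_lit 3363) (nat_lit 4530) (nat_lit 1) .nil)), (nat_lit 5), (nat_lit 0), (nat_lit 0),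
 (nat_lit 0), (30, 23, 7), [183, 2660], 0⟩,
  ⟨⟨17, 36, -45, 20, 23, 30, 38, -8, -37⟩, (.cons (nat_lit 329) (nat_lit 298) (nat_lit 359) (nat_lit 1) (.cons
 (nat_lit 1031) (nat_lit 1648) (nat_lit 192) (nat_lit 1) .nil)), (nat_lit 16), (nat_lit 0), (nat_lit 0),
 (nat_lit 0), (45, 17, 37), [155, 2486], 0⟩,
  ⟨⟨-45, -8, -4, 20, -33, -40, -6, 24, -35⟩, (.cons (nat_lit 262) (nat_lit 149) (nat_lit 148) (nat_lit 1)
 (.cons (nat_lit 1713) (nat_lit 648) (nat_lit 1896) (nat_lit 1) .nil)), (nat_lit 25), (nat_lit 0), (nat_lit 0),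
 (nat_lit 0), (29, 8, 7), [334, 66], 0⟩,
  ⟨⟨19, 0, 44, 0, -47, 0, 42, 0, -19⟩, (.cons (nat_lit 360) (nat_lit 92) (nat_lit 155) (nat_lit 1) (.cons
 (nat_lit 5040) (nat_lit 2856) (nat_lit 1565) (nat_lit 1) .nil)), (nat_lit 29), (nat_lit 0), (nat_lit 0),
 (nat_lit 0), (31, 0, 24), [110, 466], 0⟩,
  mz,
  ⟨⟨9, -4, -61, 40, -23, -10, 22, 32, -29⟩, (.cons (nat_lit 105) (nat_lit 23) (nat_lit 341) (nat_lit 1) (.cons
 (nat_lit 4941) (nat_lit 4002) (nat_lit 775) (nat_lit 1) .nil)), (nat_lit 35), (nat_lit 0), (nat_lit 0),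
 (nat_lit 0), (36, 19, 41), [159, 1912], 0⟩,
  ⟨⟨-13, -36, 45, 40, -23, -30, -22, -32, -7⟩, (.cons (nat_lit 59) (nat_lit 52) (nat_lit 83) (nat_lit 1) (.cons
 (nat_lit 3501) (nat_lit 1615) (nat_lit 2112) (nat_lit 1) .nil)), (nat_lit 27), (nat_lit 0), (nat_lit 0),
 (nat_lit 0), (26, 14, 44), [85, 4325], 0⟩,
  ⟨⟨51, -4, -32, 2, 45, -16, 12, -12, -49⟩, (.cons (nat_lit 360) (nat_lit 24) (nat_lit 294) (nat_lit 1) (.cons
 (nat_lit 5040) (nat_lit 844) (nat_lit 1910) (nat_lit 1) .nil)), (nat_lit 33), (nat_lit 0), (nat_lit 0),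
 (nat_lit 0), (25, 36, 28), [281, 4738], 0⟩,
  mz,
  ⟨⟨17, 36, 28, 20, 23, -50, 38, -8, -1⟩, (.cons (nat_lit 138) (nat_lit 358) (nat_lit 262) (nat_lit 1) (.cons
 (nat_lit 1621) (nat_lit 2561) (nat_lit 4316) (nat_lit 1) .nil)), (nat_lit 16), (nat_lit 0), (nat_lit 0),
 (nat_lit 0), (28, 44, 46), [253, 3145], 0⟩,
  ⟨⟨27, -32, -47, -40, -17, 0, 10, 16, -47⟩, (.cons (nat_lit 154) (nat_lit 56) (nat_lit 46) (nat_lit 1) (.cons
 (nat_lit 4061) (nat_lit 3876) (nat_lit 3739) (nat_lit 1) .nil)), (nat_lit 38), (nat_lit 0), (nat_lit 0),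
 (nat_lit 0), (46, 45, 24), [242, 3162], 0⟩,
  mz,
  ⟨⟨17, -48, -17, -40, -17, 40, -10, -16, -37⟩, (.cons (nat_lit 143) (nat_lit 295) (nat_lit 281) (nat_lit 1)
 (.cons (nat_lit 4326) (nat_lit 3831) (nat_lit 1655) (nat_lit 1) .nil)), (nat_lit 36), (nat_lit 0), (nat_lit
 0), (nat_lit 0), (6, 8, 2), [70, 1021], 0⟩,
  mz,
  mz,
  mz,
  ⟨⟨45, -16, -1, 22, 35, -36, 20, -28, -37⟩, (.cons (nat_lit 195) (nat_lit 187) (nat_lit 342) (nat_lit 1)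
 (.cons (nat_lit 4743) (nat_lit 1552) (nat_lit 468) (nat_lit 1) .nil)), (nat_lit 45), (nat_lit 0), (nat_lit 0),
 (nat_lit 0), (12, 9, 21), [12, 4064], 0⟩,
  mz,
  ⟨⟨51, 4, -32, 2, -45, -16, 12, 12, -49⟩, (.cons (nat_lit 52) (nat_lit 239) (nat_lit 188) (nat_lit 1) (.cons
 (nat_lit 4067) (nat_lit 4069) (nat_lit 3626) (nat_lit 1) .nil)), (nat_lit 33), (nat_lit 0), (nat_lit 0),
 (nat_lit 0), (7, 27, 21), [324, 2515], 0⟩,
  ⟨⟨-21, -32, -28, 2, -35, 34, 28, -20, -41⟩, (.cons (nat_lit 247) (nat_lit 248) (nat_lit 146) (nat_lit 1)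
 (.cons (nat_lit 4668) (nat_lit 4822) (nat_lit 277) (nat_lit 1) .nil)), (nat_lit 46), (nat_lit 0), (nat_lit 0),
 (nat_lit 0), (33, 17, 3), [326, 4453], 0⟩,
  ⟨⟨-45, 16, 44, -22, -35, -14, -20, 28, -17⟩, (.cons (nat_lit 225) (nat_lit 155) (nat_lit 1) (nat_lit 342)
 (.cons (nat_lit 919) (nat_lit 4662) (nat_lit 2528) (nat_lit 1) .nil)), (nat_lit 45), (nat_lit 0), (nat_lit 0),
 (nat_lit 0), (34, 2, 36), [274, 2165], 0⟩]

/-- All the moves. -/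
noncomputable def tabs : List (List (List Mv)) := [[[], t0_1, t0_2, [], [], [], [], [], t0_8], [[], t1_1, t1_2, [], [], [], [], [], t1_8], [], [], [[], t4_1, t4_2, [], [], [], [], [], t4_8]]

/-- Subtrie. -/
noncomputable def T1 : Tr := (.ev (nat_lit 20) (nat_lit 70371666563084) (.nd (nat_lit 33) (.br (nat_lit 39)
 (.br (nat_lit 19) (.br (nat_lit 8) (.br (nat_lit 4) (.br (nat_lit 3) (.ch (nat_lit 1) (.ev (nat_lit 52)
 (nat_lit 77578668576) (.ev (nat_lit 148) (nat_lit 17592186044416) (.ev (nat_lit 596) (nat_lit 35184372088832)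
 (.ev (nat_lit 724) (nat_lit 274877906944) (.ev (nat_lit 1040) (nat_lit 4436705492994) .dd)))))) (.ch (nat_lit
 3) (.ev (nat_lit 52) (nat_lit 17935783444514) (.ev (nat_lit 116) (nat_lit 524288) (.ev (nat_lit 244) (nat_lit
 4194304) (.ev (nat_lit 532) (nat_lit 32768) (.ev (nat_lit 596) (nat_lit 268435456) (.ev (nat_lit 884) (nat_lit
 35184372088832) (.ev (nat_lit 996) (nat_lit 4398046511104) (.ev (nat_lit 1028) (nat_lit 34359738368) (.ev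
 (nat_lit 1828) (nat_lit 8589934592) (.ev (nat_lit 2564) (nat_lit 262144) (.ev (nat_lit 2628) (nat_lit 512)
 (.ev (nat_lit 3316) (nat_lit 65536) (.ev (nat_lit 3444) (nat_lit 4294967296) (.ev (nat_lit 3453) (nat_lit
 2048) .dd)))))))))))))))) (.br (nat_lit 5) (.ch (nat_lit 4) (.ev (nat_lit 52) (nat_lit 39664291971618) (.ev
 (nat_lit 148) (nat_lit 18432) (.ev (nat_lit 564) (nat_lit 4194304) (.ev (nat_lit 788) (nat_lit 262144) (.ev
 (nat_lit 820) (nat_lit 17592186044416) (.ev (nat_lit 996) (nat_lit 274877906944) (.ev (nat_lit 2464) (nat_lit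
 65536) (.ev (nat_lit 2477) (nat_lit 34359738368) .dd))))))))) (.br (nat_lit 7) (.ch (nat_lit 5) (.ev (nat_lit
 52) (nat_lit 22058956308994) (.ev (nat_lit 244) (nat_lit 2048) (.ev (nat_lit 512) (nat_lit 35506763890720)
 .dd)))) (.ch (nat_lit 7) (.ev (nat_lit 52) (nat_lit 52845282164770) (.ev (nat_lit 84) (nat_lit 524288) (.ev
 (nat_lit 532) (nat_lit 34359738368) (.ev (nat_lit 948) (nat_lit 4398046511104) (.ev (nat_lit 1104) (nat_lit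
 288031263232) .dd))))))))) (.br (nat_lit 15) (.br (nat_lit 11) (.ch (nat_lit 8) (.ev (nat_lit 52) (nat_lit
 35219004539424) (.ev (nat_lit 448) (nat_lit 22346715662338) .dd))) (.br (nat_lit 12) (.ch (nat_lit 11) (.ev
 (nat_lit 52) (nat_lit 22304034441248) (.ev (nat_lit 116) (nat_lit 4194304) (.ev (nat_lit 1124) (nat_lit
 68719476736) (.ev (nat_lit 1572) (nat_lit 2) (.ev (nat_lit 2596) (nat_lit 8590000128) (.ev (nat_lit 2608)
 (nat_lit 35184372088832) (.ev (nat_lit 2621) (nat_lit 512) .dd)))))))) (.ch (nat_lit 12) (.ev (nat_lit 52)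
 (nat_lit 17592459493922) (.ev (nat_lit 468) (nat_lit 34359738368) (.ev (nat_lit 800) (nat_lit 39938900969472)
 .dd)))))) (.br (nat_lit 16) (.ch (nat_lit 15) (.ev (nat_lit 52) (nat_lit 39861864693760) (.ev (nat_lit 180)
 (nat_lit 32768) (.ev (nat_lit 308) (nat_lit 512) (.ev (nat_lit 340) (nat_lit 68719476736) (.ev (nat_lit 884)
 (nat_lit 262144) (.ev (nat_lit 964) (nat_lit 2) (.ev (nat_lit 1316) (nat_lit 32) (.ev (nat_lit 1396) (nat_lit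
 34359738368) (.ev (nat_lit 1460) (nat_lit 8589934592) (.ev (nat_lit 2160) (nat_lit 17592186062848)
 .dd))))))))))) (.br (nat_lit 18) (.ch (nat_lit 16) (.ev (nat_lit 52) (nat_lit 22265115459584) (.ev (nat_lit
 256) (nat_lit 35300604742178) .dd))) (.ch (nat_lit 18) (.ev (nat_lit 52) (nat_lit 35459519070242) (.ev
 (nat_lit 84) (nat_lit 34359738368) (.ev (nat_lit 596) (nat_lit 8589934592) (.ev (nat_lit 756) (nat_lit 262144)
 (.ev (nat_lit 852) (nat_lit 2048) (.ev (nat_lit 2180) (nat_lit 17592186044416) (.ev (nat_lit 2212) (nat_lit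
 4398046511104) (.ev (nat_lit 2356) (nat_lit 4194304) (.ev (nat_lit 2516) (nat_lit 68719476736) (.ev (nat_lit
 2980) (nat_lit 512) (.ev (nat_lit 2989) (nat_lit 4294967296) .dd)))))))))))))))) (.br (nat_lit 29) (.br
 (nat_lit 23) (.br (nat_lit 22) (.ch (nat_lit 19) (.ev (nat_lit 52) (nat_lit 4711583353344) (.ev (nat_lit 180)
 (nat_lit 16384) (.ev (nat_lit 340) (nat_lit 524288) (.ev (nat_lit 372) (nat_lit 35184372088832) (.ev (nat_lit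
 1284) (nat_lit 262144) (.ev (nat_lit 1316) (nat_lit 2) (.ev (nat_lit 1428) (nat_lit 68719476736) (.ev (nat_lit
 2100) (nat_lit 65536) (.ev (nat_lit 2244) (nat_lit 17592186044416) (.ev (nat_lit 2836) (nat_lit 8589934592)
 (.ev (nat_lit 2880) (nat_lit 32) (.ev (nat_lit 2893) (nat_lit 268435456) .dd))))))))))))) (.ch (nat_lit 22)
 (.ev (nat_lit 52) (nat_lit 8858632736) (.ev (nat_lit 64) (nat_lit 57556861569026) .dd)))) (.br (nat_lit 24)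
 (.ch (nat_lit 23) (.ev (nat_lit 52) (nat_lit 377957713954) (.ev (nat_lit 212) (nat_lit 17592186044416) (.ev
 (nat_lit 468) (nat_lit 4194304) (.ev (nat_lit 628) (nat_lit 4398046511104) (.ev (nat_lit 1460) (nat_lit
 262144) (.ev (nat_lit 1508) (nat_lit 8589934592) (.ev (nat_lit 1604) (nat_lit 4294967296) (.ev (nat_lit 2100)
 (nat_lit 268435456) (.ev (nat_lit 2244) (nat_lit 16384) (.ev (nat_lit 2868) (nat_lit 32768) (.ev (nat_lit
 3472) (nat_lit 35184372089344) .dd)))))))))))) (.br (nat_lit 26) (.ch (nat_lit 24) (.ev (nat_lit 52) (nat_lit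
 35532264473122) (.ev (nat_lit 212) (nat_lit 524288) (.ev (nat_lit 480) (nat_lit 22033455204352) .dd)))) (.ch
 (nat_lit 26) (.ev (nat_lit 52) (nat_lit 115964379680) (.ev (nat_lit 192) (nat_lit 57449755822082) .dd))))))
 (.br (nat_lit 34) (.br (nat_lit 31) (.ch (nat_lit 29) (.ev (nat_lit 52) (nat_lit 4741643995650) (.ev (nat_lit
 148) (nat_lit 4194304) (.ev (nat_lit 308) (nat_lit 524288) (.ev (nat_lit 372) (nat_lit 8589934592) (.ev
 (nat_lit 628) (nat_lit 4294967296) (.ev (nat_lit 756) (nat_lit 35184372088832) (.ev (nat_lit 1284) (nat_lit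
 268435456) (.ev (nat_lit 1332) (nat_lit 262144) (.ev (nat_lit 1364) (nat_lit 32) (.ev (nat_lit 2224) (nat_lit
 17592186060800) (.ev (nat_lit 2237) (nat_lit 34359738368) .dd)))))))))))) (.br (nat_lit 33) (.ch (nat_lit 31)
 (.ev (nat_lit 52) (nat_lit 17673790734368) (.ev (nat_lit 116) (nat_lit 2048) (.ev (nat_lit 180) (nat_lit
 34359738368) (.ev (nat_lit 692) (nat_lit 274877906944) (.ev (nat_lit 996) (nat_lit 2) (.ev (nat_lit 1060)
 (nat_lit 524288) (.ev (nat_lit 1636) (nat_lit 4194304) (.ev (nat_lit 2292) (nat_lit 268435456) (.ev (nat_lit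
 2388) (nat_lit 65536) (.ev (nat_lit 3200) (nat_lit 4398046511616) (.ev (nat_lit 3213) (nat_lit 35184372088832)
 .dd)))))))))))) (.ch (nat_lit 33) (.ev (nat_lit 52) (nat_lit 39629932462592) (.ev (nat_lit 308) (nat_lit
 4194304) (.ev (nat_lit 468) (nat_lit 2048) (.ev (nat_lit 832) (nat_lit 17935783542818) .dd))))))) (.br
 (nat_lit 36) (.ch (nat_lit 34) (.ev (nat_lit 52) (nat_lit 4746212034560) (.ev (nat_lit 660) (nat_lit 262144)
 (.ev (nat_lit 1060) (nat_lit 17592186044416) (.ev (nat_lit 1636) (nat_lit 32768) (.ev (nat_lit 1828) (nat_lit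
 65536) (.ev (nat_lit 1892) (nat_lit 8589934592) (.ev (nat_lit 2660) (nat_lit 2) (.ev (nat_lit 2804) (nat_lit
 512) (.ev (nat_lit 2980) (nat_lit 34359738368) (.ev (nat_lit 3072) (nat_lit 32) (.ev (nat_lit 3085) (nat_lit
 35184372088832) .dd)))))))))))) (.br (nat_lit 38) (.ch (nat_lit 36) (.ev (nat_lit 52) (nat_lit 35257655541760)
 (.ev (nat_lit 148) (nat_lit 512) (.ev (nat_lit 320) (nat_lit 22308064659490) .dd)))) (.ch (nat_lit 38) (.ev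
 (nat_lit 52) (nat_lit 42954655746) (.ev (nat_lit 340) (nat_lit 49152) (.ev (nat_lit 468) (nat_lit 68719476736)
 (.ev (nat_lit 564) (nat_lit 17592186044416) (.ev (nat_lit 916) (nat_lit 35184372088832) (.ev (nat_lit 1220)
 (nat_lit 274877906944) (.ev (nat_lit 1796) (nat_lit 65536) (.ev (nat_lit 2112) (nat_lit 4402609913888) (.ev
 (nat_lit 2125) (nat_lit 512) .dd))))))))))))))) (.br (nat_lit 54) (.br (nat_lit 47) (.br (nat_lit 43) (.br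
 (nat_lit 42) (.ch (nat_lit 39) (.ev (nat_lit 52) (nat_lit 22308065181696) (.ev (nat_lit 84) (nat_lit 16384)
 (.ev (nat_lit 308) (nat_lit 68719476736) (.ev (nat_lit 724) (nat_lit 4294967296) (.ev (nat_lit 1028) (nat_lit
 512) (.ev (nat_lit 1060) (nat_lit 32768) (.ev (nat_lit 1540) (nat_lit 2) (.ev (nat_lit 1940) (nat_lit 32) (.ev
 (nat_lit 2496) (nat_lit 35184372090880) (.ev (nat_lit 2509) (nat_lit 268435456) .dd))))))))))) (.ch (nat_lit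
 42) (.ev (nat_lit 52) (nat_lit 53167400173602) (.ev (nat_lit 244) (nat_lit 524288) (.ev (nat_lit 436) (nat_lit
 268435456) (.ev (nat_lit 596) (nat_lit 65536) (.ev (nat_lit 1376) (nat_lit 4398051002880) .dd))))))) (.br
 (nat_lit 44) (.ch (nat_lit 43) (.ev (nat_lit 52) (nat_lit 17914309197826) (.ev (nat_lit 84) (nat_lit 32768)
 (.ev (nat_lit 180) (nat_lit 4194304) (.ev (nat_lit 500) (nat_lit 68719476736) (.ev (nat_lit 660) (nat_lit
 35184372088832) (.ev (nat_lit 1396) (nat_lit 512) (.ev (nat_lit 1508) (nat_lit 268435456) (.ev (nat_lit 1604)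
 (nat_lit 4398046511104) (.ev (nat_lit 1892) (nat_lit 262144) (.ev (nat_lit 2720) (nat_lit 2048) (.ev (nat_lit
 2733) (nat_lit 32) .dd)))))))))))) (.br (nat_lit 46) (.ch (nat_lit 44) (.ev (nat_lit 52) (nat_lit
 39651406580224) (.ev (nat_lit 160) (nat_lit 17914313621538) .dd))) (.ch (nat_lit 46) (.ev (nat_lit 52)
 (nat_lit 35188940294178) (.ev (nat_lit 276) (nat_lit 68719476736) (.ev (nat_lit 1008) (nat_lit 22308060430848)
 .dd))))))) (.br (nat_lit 50) (.br (nat_lit 48) (.ch (nat_lit 47) (.ev (nat_lit 52) (nat_lit 39891656624130)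
 (.ev (nat_lit 788) (nat_lit 8589934592) (.ev (nat_lit 1732) (nat_lit 268435456) (.ev (nat_lit 2132) (nat_lit
 512) (.ev (nat_lit 2660) (nat_lit 32) (.ev (nat_lit 2740) (nat_lit 68719476736) (.ev (nat_lit 3060) (nat_lit
 4294967296) (.ev (nat_lit 3696) (nat_lit 17592186044416) (.nd (nat_lit 3760) (.ch (nat_lit 11) (.fin (nat_lit
 576462401572389439))))))))))))) (.br (nat_lit 49) (.ch (nat_lit 48) (.ev (nat_lit 52) (nat_lit 52845277970976)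
 (.ev (nat_lit 180) (nat_lit 524288) (.ev (nat_lit 212) (nat_lit 4210688) (.ev (nat_lit 276) (nat_lit 2048)
 (.ev (nat_lit 724) (nat_lit 2) (.ev (nat_lit 1092) (nat_lit 8858370048) (.ev (nat_lit 1316) (nat_lit
 274877906944) (.ev (nat_lit 2708) (nat_lit 4294967296) (.ev (nat_lit 2848) (nat_lit 4398046511104) (.ev
 (nat_lit 2861) (nat_lit 34359738368) .dd))))))))))) (.ch (nat_lit 49) (.ev (nat_lit 52) (nat_lit
 39621077501952) (.ev (nat_lit 128) (nat_lit 17944642699810) .dd))))) (.br (nat_lit 51) (.ch (nat_lit 50) (.ev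
 (nat_lit 52) (nat_lit 4440996235776) (.ev (nat_lit 224) (nat_lit 53124723965986) .dd))) (.br (nat_lit 53) (.ch
 (nat_lit 51) (.ev (nat_lit 52) (nat_lit 4509989109760) (.ev (nat_lit 84) (nat_lit 2048) (.ev (nat_lit 404)
 (nat_lit 35184372088832) (.ev (nat_lit 468) (nat_lit 16384) (.ev (nat_lit 788) (nat_lit 65536) (.ev (nat_lit
 1124) (nat_lit 17592186044416) (.ev (nat_lit 1604) (nat_lit 2) (.ev (nat_lit 2772) (nat_lit 274877906976) (.ev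
 (nat_lit 2784) (nat_lit 512) (.ev (nat_lit 2797) (nat_lit 4294967296) .dd))))))))))) (.ch (nat_lit 53) (.ev
 (nat_lit 52) (nat_lit 347892615714) (.ev (nat_lit 116) (nat_lit 17592186044416) (.ev (nat_lit 212) (nat_lit
 34359738368) (.ev (nat_lit 544) (nat_lit 39591281803264) .dd))))))))) (.br (nat_lit 64) (.br (nat_lit 57) (.br
 (nat_lit 55) (.ch (nat_lit 54) (.ev (nat_lit 52) (nat_lit 4711579387906) (.ev (nat_lit 84) (nat_lit
 68719476736) (.ev (nat_lit 500) (nat_lit 17592186044416) (.ev (nat_lit 692) (nat_lit 32) (.ev (nat_lit 756)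
 (nat_lit 268435456) (.ev (nat_lit 1732) (nat_lit 8589934592) (.ev (nat_lit 2276) (nat_lit 35184372088832) (.ev
 (nat_lit 2484) (nat_lit 32768) (.ev (nat_lit 2564) (nat_lit 65536) (.ev (nat_lit 3220) (nat_lit 512) (.ev
 (nat_lit 3744) (nat_lit 16384) (.nd (nat_lit 3760) (.ch (nat_lit 11) (.fin (nat_lit
 576462401572389439)))))))))))))))) (.ch (nat_lit 55) (.ev (nat_lit 52) (nat_lit 35493614520834) (.ev (nat_lit
 404) (nat_lit 8589934592) (.ev (nat_lit 852) (nat_lit 16384) (.ev (nat_lit 1028) (nat_lit 32768) (.ev (nat_lit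
 1156) (nat_lit 4294967296) (.ev (nat_lit 1188) (nat_lit 4398046511104) (.ev (nat_lit 2100) (nat_lit 262144)
 (.ev (nat_lit 2180) (nat_lit 68719476736) (.ev (nat_lit 2932) (nat_lit 32) (.ev (nat_lit 3648) (nat_lit
 17592454479872) .dd)))))))))))) (.br (nat_lit 58) (.ch (nat_lit 57) (.ev (nat_lit 52) (nat_lit 17635404530176)
 (.ev (nat_lit 212) (nat_lit 68719476736) (.ev (nat_lit 564) (nat_lit 524288) (.ev (nat_lit 628) (nat_lit 32)
 (.ev (nat_lit 788) (nat_lit 35184372088832) (.ev (nat_lit 1408) (nat_lit 4677223581698) .dd))))))) (.br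
 (nat_lit 62) (.ch (nat_lit 58) (.ev (nat_lit 52) (nat_lit 53120428409344) (.ev (nat_lit 724) (nat_lit 32) (.ev
 (nat_lit 820) (nat_lit 2048) (.ev (nat_lit 852) (nat_lit 34359738368) (.ev (nat_lit 1220) (nat_lit 4294967296)
 (.ev (nat_lit 1428) (nat_lit 524288) (.ev (nat_lit 1796) (nat_lit 8589934592) (.ev (nat_lit 2212) (nat_lit 2)
 (.ev (nat_lit 2244) (nat_lit 32768) (.ev (nat_lit 3588) (nat_lit 4398046511104) (.ev (nat_lit 3668) (nat_lit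
 16384) (.ev (nat_lit 3677) (nat_lit 65536) .dd))))))))))))) (.ch (nat_lit 62) (.ev (nat_lit 52) (nat_lit
 22003121768448) (.ev (nat_lit 404) (nat_lit 262144) (.ev (nat_lit 500) (nat_lit 524288) (.ev (nat_lit 564)
 (nat_lit 34359738368) (.ev (nat_lit 948) (nat_lit 32) (.ev (nat_lit 1860) (nat_lit 274877906944) (.ev (nat_lit
 1940) (nat_lit 2) (.ev (nat_lit 3396) (nat_lit 35184372088832) (.ev (nat_lit 3460) (nat_lit 68719476736) (.ev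
 (nat_lit 3492) (nat_lit 512) (.ev (nat_lit 3501) (nat_lit 268435456) .dd))))))))))))))) (.br (nat_lit 68) (.br
 (nat_lit 65) (.ch (nat_lit 64) (.ev (nat_lit 52) (nat_lit 39964670691874) (.ev (nat_lit 84) (nat_lit
 17592190238720) (.ev (nat_lit 244) (nat_lit 16384) (.ev (nat_lit 436) (nat_lit 262144) (.ev (nat_lit 500)
 (nat_lit 32768) (.ev (nat_lit 756) (nat_lit 8589934592) (.ev (nat_lit 1252) (nat_lit 268435456) (.ev (nat_lit
 2336) (nat_lit 589824) .dd))))))))) (.br (nat_lit 67) (.ch (nat_lit 65) (.ev (nat_lit 52) (nat_lit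
 21998822558208) (.ev (nat_lit 96) (nat_lit 35566897643554) .dd))) (.ch (nat_lit 67) (.ev (nat_lit 52) (nat_lit
 283472365602) (.ev (nat_lit 308) (nat_lit 34359738368) (.ev (nat_lit 852) (nat_lit 17592186044416) (.ev
 (nat_lit 1028) (nat_lit 16384) (.ev (nat_lit 1396) (nat_lit 68720001024) (.ev (nat_lit 1828) (nat_lit
 268435456) (.ev (nat_lit 1972) (nat_lit 35184372088832) (.ev (nat_lit 2960) (nat_lit 4295000576) (.ev (nat_lit
 2973) (nat_lit 4398046511104) .dd)))))))))))) (.br (nat_lit 69) (.ch (nat_lit 68) (.ev (nat_lit 52) (nat_lit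
 39926016346656) (.ev (nat_lit 180) (nat_lit 17592186044416) (.ev (nat_lit 436) (nat_lit 8589934592) (.ev
 (nat_lit 500) (nat_lit 16384) (.ev (nat_lit 532) (nat_lit 4194304) (.ev (nat_lit 1616) (nat_lit 38923665410)
 .dd))))))) (.br (nat_lit 70) (.ch (nat_lit 69) (.ev (nat_lit 52) (nat_lit 52789716486146) (.ev (nat_lit 148)
 (nat_lit 34359738368) (.ev (nat_lit 276) (nat_lit 512) (.ev (nat_lit 820) (nat_lit 68719476736) (.ev (nat_lit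
 2180) (nat_lit 16384) (.ev (nat_lit 2212) (nat_lit 32) (.ev (nat_lit 2692) (nat_lit 274877906944) (.ev
 (nat_lit 3524) (nat_lit 4398046511104) (.ev (nat_lit 3533) (nat_lit 65536) .dd)))))))))) (.ch (nat_lit 70)
 (.ev (nat_lit 52) (nat_lit 52879906062336) (.ev (nat_lit 288) (nat_lit 4685814139426) .dd)))))))))))

/-- Subtrie. -/
noncomputable def T2 : Tr := (.ev (nat_lit 20) (nat_lit 4443480054306) (.nd (nat_lit 33) (.br (nat_lit 39) (.br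
 (nat_lit 19) (.br (nat_lit 8) (.br (nat_lit 4) (.br (nat_lit 3) (.ch (nat_lit 1) (.ev (nat_lit 52) (nat_lit
 68889346048) (.ev (nat_lit 340) (nat_lit 4) (.ev (nat_lit 628) (nat_lit 536870912) (.ev (nat_lit 1028)
 (nat_lit 274877906944) (.ev (nat_lit 1572) (nat_lit 8) (.ev (nat_lit 1604) (nat_lit 4194304) (.ev (nat_lit
 2980) (nat_lit 35184372088832) (.ev (nat_lit 3140) (nat_lit 17592187092992) (.ev (nat_lit 3152) (nat_lit
 70368744243200) (.ev (nat_lit 3165) (nat_lit 4294967296) .dd))))))))))) (.ch (nat_lit 3) (.ev (nat_lit 52)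
 (nat_lit 17935920791560) (.ev (nat_lit 116) (nat_lit 4) (.ev (nat_lit 436) (nat_lit 70368744177664) (.ev
 (nat_lit 996) (nat_lit 4194304) (.ev (nat_lit 1188) (nat_lit 536870912) (.ev (nat_lit 1396) (nat_lit
 35184372088832) (.ev (nat_lit 3028) (nat_lit 65536) (.ev (nat_lit 3248) (nat_lit 4328521728) .dd))))))))))
 (.br (nat_lit 5) (.ch (nat_lit 4) (.ev (nat_lit 52) (nat_lit 35257923403784) (.ev (nat_lit 116) (nat_lit
 274877906944) (.ev (nat_lit 468) (nat_lit 2097152) (.ev (nat_lit 996) (nat_lit 1048576) (.ev (nat_lit 1188)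
 (nat_lit 17592186044416) (.ev (nat_lit 2132) (nat_lit 134217728) (.ev (nat_lit 3060) (nat_lit 4194304) (.ev
 (nat_lit 3092) (nat_lit 4) (.ev (nat_lit 3284) (nat_lit 33554432) (.ev (nat_lit 3636) (nat_lit 65536) (.ev
 (nat_lit 3645) (nat_lit 70368744177664) .dd)))))))))))) (.br (nat_lit 7) (.ch (nat_lit 5) (.ev (nat_lit 52)
 (nat_lit 88030358601728) (.ev (nat_lit 852) (nat_lit 274877906944) (.ev (nat_lit 1572) (nat_lit 4294967296)
 (.ev (nat_lit 1860) (nat_lit 1048576) (.ev (nat_lit 1908) (nat_lit 8) (.ev (nat_lit 2192) (nat_lit 2097156)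
 (.ev (nat_lit 2205) (nat_lit 35184372088832) .dd)))))))) (.ch (nat_lit 7) (.ev (nat_lit 52) (nat_lit
 52845318569988) (.ev (nat_lit 276) (nat_lit 134217728) (.ev (nat_lit 1460) (nat_lit 70368744177664) (.ev
 (nat_lit 2004) (nat_lit 4294967296) (.ev (nat_lit 2672) (nat_lit 274877906952) (.ev (nat_lit 2685) (nat_lit
 536870912) .dd)))))))))) (.br (nat_lit 15) (.br (nat_lit 11) (.ch (nat_lit 8) (.ev (nat_lit 52) (nat_lit
 35184948871176) (.ev (nat_lit 404) (nat_lit 70368744177664) (.ev (nat_lit 1124) (nat_lit 134217728) (.ev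
 (nat_lit 1220) (nat_lit 17592186044416) (.ev (nat_lit 1540) (nat_lit 4294967296) (.ev (nat_lit 1796) (nat_lit
 68719476736) (.ev (nat_lit 2452) (nat_lit 1048576) (.ev (nat_lit 2752) (nat_lit 274877906944) (.ev (nat_lit
 2765) (nat_lit 4) .dd)))))))))) (.br (nat_lit 12) (.ch (nat_lit 11) (.ev (nat_lit 52) (nat_lit 88240103096324)
 (.ev (nat_lit 116) (nat_lit 134217728) (.ev (nat_lit 148) (nat_lit 2097152) (.ev (nat_lit 692) (nat_lit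
 536870912) (.ev (nat_lit 724) (nat_lit 8) (.ev (nat_lit 1060) (nat_lit 35184372088832) (.ev (nat_lit 1156)
 (nat_lit 33554432) (.ev (nat_lit 2420) (nat_lit 68719476736) (.ev (nat_lit 3364) (nat_lit 65536) (.ev (nat_lit
 3412) (nat_lit 1048576) (.ev (nat_lit 3421) (nat_lit 4194304) .dd)))))))))))) (.ch (nat_lit 12) (.ev (nat_lit
 52) (nat_lit 17592226938884) (.ev (nat_lit 212) (nat_lit 35184372088832) (.ev (nat_lit 884) (nat_lit 65536)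
 (.ev (nat_lit 1200) (nat_lit 70717307617288) .dd))))))) (.br (nat_lit 16) (.ch (nat_lit 15) (.ev (nat_lit 52)
 (nat_lit 105832998043656) (.ev (nat_lit 1540) (nat_lit 1048576) (.ev (nat_lit 1972) (nat_lit 68719476736) (.ev
 (nat_lit 2004) (nat_lit 17592186044416) (.ev (nat_lit 2640) (nat_lit 2097152) (.ev (nat_lit 2653) (nat_lit 4)
 .dd))))))) (.br (nat_lit 18) (.ch (nat_lit 16) (.ev (nat_lit 52) (nat_lit 17867742380032) (.ev (nat_lit 928)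
 (nat_lit 105626164330508) .dd))) (.ch (nat_lit 18) (.ev (nat_lit 52) (nat_lit 35459790077956) (.ev (nat_lit
 372) (nat_lit 70368744177664) (.ev (nat_lit 724) (nat_lit 17592186044416) (.ev (nat_lit 2324) (nat_lit
 68719476736) (.ev (nat_lit 2980) (nat_lit 134217728) (.ev (nat_lit 3120) (nat_lit 4332716032) (.ev (nat_lit
 3133) (nat_lit 8) .dd)))))))))))) (.br (nat_lit 29) (.br (nat_lit 23) (.br (nat_lit 22) (.ch (nat_lit 19) (.ev
 (nat_lit 52) (nat_lit 70647924391940) (.ev (nat_lit 660) (nat_lit 65536) (.ev (nat_lit 820) (nat_lit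
 134217728) (.ev (nat_lit 1252) (nat_lit 68719476736) (.ev (nat_lit 1364) (nat_lit 8) (.ev (nat_lit 1604)
 (nat_lit 33554432) (.ev (nat_lit 1764) (nat_lit 536870912) (.ev (nat_lit 2132) (nat_lit 35184372088832) (.ev
 (nat_lit 2141) (nat_lit 17592186044416) .dd)))))))))) (.ch (nat_lit 22) (.ev (nat_lit 52) (nat_lit 705691656)
 (.ev (nat_lit 84) (nat_lit 2097152) (.ev (nat_lit 148) (nat_lit 4) (.ev (nat_lit 340) (nat_lit 274877906944)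
 (.ev (nat_lit 788) (nat_lit 70368744177664) (.ev (nat_lit 1700) (nat_lit 17592186044416) (.ev (nat_lit 2324)
 (nat_lit 65536) (.ev (nat_lit 3028) (nat_lit 68719476736) (.ev (nat_lit 3140) (nat_lit 4194304) (.ev (nat_lit
 3220) (nat_lit 35184372088832) (.ev (nat_lit 3229) (nat_lit 4294967296) .dd))))))))))))) (.br (nat_lit 24)
 (.ch (nat_lit 23) (.ev (nat_lit 52) (nat_lit 343600594948) (.ev (nat_lit 628) (nat_lit 4294967296) (.ev
 (nat_lit 692) (nat_lit 8) (.ev (nat_lit 1636) (nat_lit 134217728) (.ev (nat_lit 1700) (nat_lit 4194304) (.ev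
 (nat_lit 1860) (nat_lit 17592186044416) (.ev (nat_lit 2692) (nat_lit 536870912) (.ev (nat_lit 2868) (nat_lit
 35184372088832) (.ev (nat_lit 3588) (nat_lit 33554432) (.ev (nat_lit 3597) (nat_lit 70368744177664)
 .dd))))))))))) (.br (nat_lit 26) (.ch (nat_lit 24) (.ev (nat_lit 52) (nat_lit 35532432211968) (.ev (nat_lit
 212) (nat_lit 2097152) (.ev (nat_lit 308) (nat_lit 4) (.ev (nat_lit 628) (nat_lit 4194304) (.ev (nat_lit 1092)
 (nat_lit 65536) (.ev (nat_lit 1156) (nat_lit 8) (.ev (nat_lit 1220) (nat_lit 1048576) (.ev (nat_lit 2016)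
 (nat_lit 87961467092992) .dd))))))))) (.ch (nat_lit 26) (.ev (nat_lit 52) (nat_lit 70442429710340) (.ev
 (nat_lit 308) (nat_lit 274880004096) (.ev (nat_lit 596) (nat_lit 65536) (.ev (nat_lit 692) (nat_lit 1048576)
 (.ev (nat_lit 1668) (nat_lit 33554432) (.ev (nat_lit 3568) (nat_lit 52776562327560) .dd)))))))))) (.br
 (nat_lit 34) (.br (nat_lit 31) (.ch (nat_lit 29) (.ev (nat_lit 52) (nat_lit 70712881643520) (.ev (nat_lit 500)
 (nat_lit 35184372088832) (.ev (nat_lit 1060) (nat_lit 134217728) (.ev (nat_lit 1344) (nat_lit 17596518760460)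
 .dd))))) (.br (nat_lit 33) (.ch (nat_lit 31) (.ev (nat_lit 52) (nat_lit 17665369309192) (.ev (nat_lit 180)
 (nat_lit 274877906944) (.ev (nat_lit 372) (nat_lit 65536) (.ev (nat_lit 820) (nat_lit 35184372088832) (.ev
 (nat_lit 1364) (nat_lit 4194304) (.ev (nat_lit 1540) (nat_lit 536870912) (.ev (nat_lit 1920) (nat_lit
 70368746274820) .dd)))))))) (.ch (nat_lit 33) (.ev (nat_lit 52) (nat_lit 105557547548676) (.ev (nat_lit 532)
 (nat_lit 274877906944) (.ev (nat_lit 948) (nat_lit 4194304) (.ev (nat_lit 1188) (nat_lit 8) (.ev (nat_lit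
 1364) (nat_lit 33554432) (.ev (nat_lit 1744) (nat_lit 17661443506176) .dd))))))))) (.br (nat_lit 36) (.ch
 (nat_lit 34) (.ev (nat_lit 52) (nat_lit 348436561920) (.ev (nat_lit 532) (nat_lit 4) (.ev (nat_lit 628)
 (nat_lit 33554432) (.ev (nat_lit 1508) (nat_lit 65536) (.ev (nat_lit 1540) (nat_lit 17592186044416) (.ev
 (nat_lit 1764) (nat_lit 8) (.ev (nat_lit 2996) (nat_lit 134217728) (.ev (nat_lit 3508) (nat_lit
 70368744177664) (.ev (nat_lit 3517) (nat_lit 35184372088832) .dd)))))))))) (.br (nat_lit 38) (.ch (nat_lit 36)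
 (.ev (nat_lit 52) (nat_lit 105626836402188) (.ev (nat_lit 84) (nat_lit 274877906944) (.ev (nat_lit 404)
 (nat_lit 65536) (.ev (nat_lit 692) (nat_lit 4194304) (.ev (nat_lit 948) (nat_lit 17592186044416) (.ev (nat_lit
 957) (nat_lit 2097152) .dd))))))) (.ch (nat_lit 38) (.ev (nat_lit 52) (nat_lit 541065228) (.ev (nat_lit 308)
 (nat_lit 35184372088832) (.ev (nat_lit 820) (nat_lit 274877906944) (.ev (nat_lit 1092) (nat_lit
 70368744177664) (.ev (nat_lit 1156) (nat_lit 17592186044416) (.ev (nat_lit 1428) (nat_lit 136314880) (.ev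
 (nat_lit 2420) (nat_lit 65536) (.ev (nat_lit 3060) (nat_lit 33554432) (.ev (nat_lit 3236) (nat_lit 1048576)
 (.ev (nat_lit 3396) (nat_lit 68719476736) (.ev (nat_lit 3405) (nat_lit 4294967296) .dd))))))))))))))))) (.br
 (nat_lit 54) (.br (nat_lit 47) (.br (nat_lit 43) (.br (nat_lit 42) (.ch (nat_lit 39) (.ev (nat_lit 52)
 (nat_lit 17867103862788) (.ev (nat_lit 308) (nat_lit 134217728) (.ev (nat_lit 916) (nat_lit 68719476736) (.ev
 (nat_lit 1028) (nat_lit 35184372088832) (.ev (nat_lit 1188) (nat_lit 4294967296) (.ev (nat_lit 1700) (nat_lit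
 536870912) (.ev (nat_lit 1984) (nat_lit 70368745226248) .dd)))))))) (.ch (nat_lit 42) (.ev (nat_lit 52)
 (nat_lit 53124450484224) (.ev (nat_lit 116) (nat_lit 2097152) (.ev (nat_lit 884) (nat_lit 70368744177664) (.ev
 (nat_lit 996) (nat_lit 33554432) (.ev (nat_lit 1156) (nat_lit 536870912) (.ev (nat_lit 2068) (nat_lit 65536)
 (.ev (nat_lit 2740) (nat_lit 4) (.ev (nat_lit 2804) (nat_lit 134217728) (.ev (nat_lit 3188) (nat_lit 8) (.ev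
 (nat_lit 3268) (nat_lit 1048576) (.ev (nat_lit 3277) (nat_lit 4194304) .dd))))))))))))) (.br (nat_lit 44) (.ch
 (nat_lit 43) (.ev (nat_lit 52) (nat_lit 17871895855112) (.ev (nat_lit 180) (nat_lit 4) (.ev (nat_lit 756)
 (nat_lit 68719476736) (.ev (nat_lit 916) (nat_lit 70368744177664) (.ev (nat_lit 1364) (nat_lit 1048576) (.ev
 (nat_lit 1584) (nat_lit 35184546152448) .dd))))))) (.br (nat_lit 46) (.ch (nat_lit 44) (.ev (nat_lit 52)
 (nat_lit 105621970026496) (.ev (nat_lit 276) (nat_lit 2097152) (.ev (nat_lit 672) (nat_lit 17871934586892)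
 .dd)))) (.ch (nat_lit 46) (.ev (nat_lit 52) (nat_lit 35189241741312) (.ev (nat_lit 704) (nat_lit
 88304664969228) .dd)))))) (.br (nat_lit 50) (.br (nat_lit 48) (.ch (nat_lit 47) (.ev (nat_lit 52) (nat_lit
 35459790077952) (.ev (nat_lit 180) (nat_lit 134217728) (.ev (nat_lit 660) (nat_lit 68719476736) (.ev (nat_lit
 692) (nat_lit 33554432) (.ev (nat_lit 1156) (nat_lit 4294967296) (.ev (nat_lit 1860) (nat_lit 4194304) (.ev
 (nat_lit 2912) (nat_lit 87960930222088) (.ev (nat_lit 2925) (nat_lit 4) .dd))))))))) (.br (nat_lit 49) (.ch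
 (nat_lit 48) (.ev (nat_lit 52) (nat_lit 123214696087552) (.ev (nat_lit 276) (nat_lit 4) (.ev (nat_lit 1668)
 (nat_lit 4194304) (.ev (nat_lit 1840) (nat_lit 279206428680) .dd))))) (.ch (nat_lit 49) (.ev (nat_lit 52)
 (nat_lit 105558122168332) (.ev (nat_lit 148) (nat_lit 274877906944) (.ev (nat_lit 948) (nat_lit 1048576) (.ev
 (nat_lit 1460) (nat_lit 68719476736) (.ev (nat_lit 1892) (nat_lit 65536) (.ev (nat_lit 1901) (nat_lit
 17592186044416) .dd))))))))) (.br (nat_lit 51) (.ch (nat_lit 50) (.ev (nat_lit 52) (nat_lit 70368744177676)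
 (.ev (nat_lit 244) (nat_lit 2097152) (.ev (nat_lit 436) (nat_lit 65536) (.ev (nat_lit 724) (nat_lit
 4294967296) (.ev (nat_lit 1188) (nat_lit 1048576) (.ev (nat_lit 1220) (nat_lit 536870912) (.ev (nat_lit 1284)
 (nat_lit 68719476736) (.ev (nat_lit 1364) (nat_lit 17592186044416) (.ev (nat_lit 1428) (nat_lit
 35459249995776) (.ev (nat_lit 3268) (nat_lit 4194304) (.ev (nat_lit 3428) (nat_lit 33554432) (.ev (nat_lit
 3437) (nat_lit 134217728) .dd))))))))))))) (.br (nat_lit 53) (.ch (nat_lit 51) (.ev (nat_lit 52) (nat_lit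
 70437503500292) (.ev (nat_lit 244) (nat_lit 134217728) (.ev (nat_lit 468) (nat_lit 274877906944) (.ev (nat_lit
 1168) (nat_lit 52781391085576) .dd))))) (.ch (nat_lit 53) (.ev (nat_lit 52) (nat_lit 70716772843520) (.ev
 (nat_lit 564) (nat_lit 35184372088832) (.ev (nat_lit 788) (nat_lit 65536) (.ev (nat_lit 996) (nat_lit
 536870912) (.ev (nat_lit 1316) (nat_lit 4194304) (.ev (nat_lit 2036) (nat_lit 8) (.ev (nat_lit 2900) (nat_lit
 4) (.ev (nat_lit 3140) (nat_lit 33554432) (.ev (nat_lit 3172) (nat_lit 1048576) (.ev (nat_lit 3181) (nat_lit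
 17592186044416) .dd))))))))))))))) (.br (nat_lit 64) (.br (nat_lit 57) (.br (nat_lit 55) (.ch (nat_lit 54)
 (.ev (nat_lit 52) (nat_lit 279845011468) (.ev (nat_lit 84) (nat_lit 35184372088832) (.ev (nat_lit 692)
 (nat_lit 17592186044416) (.ev (nat_lit 1060) (nat_lit 2097152) (.ev (nat_lit 1648) (nat_lit 70437501468672)
 .dd)))))) (.ch (nat_lit 55) (.ev (nat_lit 52) (nat_lit 35459824680972) (.ev (nat_lit 468) (nat_lit 134217728)
 (.ev (nat_lit 596) (nat_lit 70368744177664) (.ev (nat_lit 1552) (nat_lit 17665203634176) .dd)))))) (.br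
 (nat_lit 58) (.ch (nat_lit 57) (.ev (nat_lit 52) (nat_lit 87960930287624) (.ev (nat_lit 244) (nat_lit
 274877906944) (.ev (nat_lit 340) (nat_lit 2097152) (.ev (nat_lit 608) (nat_lit 35258096418820) .dd))))) (.br
 (nat_lit 62) (.ch (nat_lit 58) (.ev (nat_lit 52) (nat_lit 123488937443332) (.ev (nat_lit 532) (nat_lit
 134217728) (.ev (nat_lit 1520) (nat_lit 4835049480) .dd)))) (.ch (nat_lit 62) (.ev (nat_lit 52) (nat_lit
 17597157408776) (.ev (nat_lit 468) (nat_lit 35184372088832) (.ev (nat_lit 1296) (nat_lit 70712377212932)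
 .dd))))))) (.br (nat_lit 68) (.br (nat_lit 65) (.ch (nat_lit 64) (.ev (nat_lit 52) (nat_lit 35532801310724)
 (.ev (nat_lit 1252) (nat_lit 65536) (.ev (nat_lit 1508) (nat_lit 70368744177664) (.ev (nat_lit 1572) (nat_lit
 1048576) (.ev (nat_lit 1636) (nat_lit 2097152) (.ev (nat_lit 2148) (nat_lit 8) (.ev (nat_lit 2452) (nat_lit
 17592186044416) (.ev (nat_lit 3040) (nat_lit 167772160) (.ev (nat_lit 3053) (nat_lit 4194304) .dd))))))))))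
 (.br (nat_lit 67) (.ch (nat_lit 65) (.ev (nat_lit 52) (nat_lit 87961065553928) (.ev (nat_lit 244) (nat_lit 4)
 (.ev (nat_lit 976) (nat_lit 35532841156608) .dd)))) (.ch (nat_lit 67) (.ev (nat_lit 52) (nat_lit
 70643663044616) (.ev (nat_lit 340) (nat_lit 35184372088832) (.ev (nat_lit 852) (nat_lit 4) (.ev (nat_lit 884)
 (nat_lit 68719476736) (.ev (nat_lit 1764) (nat_lit 4294967296) (.ev (nat_lit 2036) (nat_lit 536870912) (.ev
 (nat_lit 2692) (nat_lit 17592186044416) (.ev (nat_lit 2701) (nat_lit 134217728) .dd))))))))))) (.br (nat_lit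
 69) (.ch (nat_lit 68) (.ev (nat_lit 52) (nat_lit 105896713715716) (.ev (nat_lit 180) (nat_lit 2097152) (.ev
 (nat_lit 692) (nat_lit 4294967296) (.ev (nat_lit 1136) (nat_lit 17592895930376) .dd))))) (.br (nat_lit 70)
 (.ch (nat_lit 69) (.ev (nat_lit 52) (nat_lit 52780994658308) (.ev (nat_lit 660) (nat_lit 70368744177664) (.ev
 (nat_lit 1124) (nat_lit 274877906944) (.ev (nat_lit 1680) (nat_lit 69289967624) .dd))))) (.ch (nat_lit 70)
 (.ev (nat_lit 52) (nat_lit 123214592212992) (.ev (nat_lit 84) (nat_lit 134217728) (.ev (nat_lit 212) (nat_lit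
 274877906944) (.ev (nat_lit 628) (nat_lit 1048576) (.ev (nat_lit 852) (nat_lit 2097152) (.ev (nat_lit 916)
 (nat_lit 65536) (.ev (nat_lit 1156) (nat_lit 4194304) (.ev (nat_lit 2132) (nat_lit 4) (.ev (nat_lit 2432)
 (nat_lit 4294967304) .dd))))))))))))))))))

/-- Subtrie. -/
noncomputable def T8 : Tr := (.ev (nat_lit 20) (nat_lit 92435014795272) (.nd (nat_lit 33) (.br (nat_lit 39)
 (.br (nat_lit 19) (.br (nat_lit 8) (.br (nat_lit 4) (.br (nat_lit 3) (.ch (nat_lit 1) (.ev (nat_lit 52)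
 (nat_lit 8757971488) (.ev (nat_lit 212) (nat_lit 2) (.ev (nat_lit 1220) (nat_lit 274877906944) (.ev (nat_lit
 3396) (nat_lit 34359738372) (.ev (nat_lit 3508) (nat_lit 4194304) (.ev (nat_lit 3556) (nat_lit 65536) (.ev
 (nat_lit 3616) (nat_lit 35184372092928) .dd)))))))) (.ch (nat_lit 3) (.ev (nat_lit 52) (nat_lit 275012124706)
 (.ev (nat_lit 416) (nat_lit 35227359844868) .dd)))) (.br (nat_lit 5) (.ch (nat_lit 4) (.ev (nat_lit 52)
 (nat_lit 35192962028066) (.ev (nat_lit 276) (nat_lit 134217728) (.ev (nat_lit 404) (nat_lit 65540) (.ev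
 (nat_lit 1264) (nat_lit 309275658240) .dd))))) (.br (nat_lit 7) (.ch (nat_lit 5) (.ev (nat_lit 52) (nat_lit
 172032514) (.ev (nat_lit 404) (nat_lit 32) (.ev (nat_lit 436) (nat_lit 2048) (.ev (nat_lit 948) (nat_lit 4096)
 (.ev (nat_lit 1440) (nat_lit 35502199930884) .dd)))))) (.ch (nat_lit 7) (.ev (nat_lit 52) (nat_lit
 35184410169382) (.ev (nat_lit 596) (nat_lit 34359738368) (.ev (nat_lit 1776) (nat_lit 283602061824) .dd)))))))
 (.br (nat_lit 15) (.br (nat_lit 11) (.ch (nat_lit 8) (.ev (nat_lit 52) (nat_lit 35218769646112) (.ev (nat_lit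
 308) (nat_lit 8589934592) (.ev (nat_lit 372) (nat_lit 2048) (.ev (nat_lit 468) (nat_lit 262144) (.ev (nat_lit
 852) (nat_lit 134217728) (.ev (nat_lit 1952) (nat_lit 274877906950) .dd))))))) (.br (nat_lit 12) (.ch (nat_lit
 11) (.ev (nat_lit 52) (nat_lit 309237909540) (.ev (nat_lit 576) (nat_lit 35193134060034) .dd))) (.ch (nat_lit
 12) (.ev (nat_lit 52) (nat_lit 38011430) (.ev (nat_lit 148) (nat_lit 8589934592) (.ev (nat_lit 436) (nat_lit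
 65536) (.ev (nat_lit 1060) (nat_lit 134217728) (.ev (nat_lit 1668) (nat_lit 35184372088832) (.ev (nat_lit
 2324) (nat_lit 34359738368) (.ev (nat_lit 3008) (nat_lit 274877911040) (.ev (nat_lit 3021) (nat_lit 2048)
 .dd))))))))))) (.br (nat_lit 16) (.ch (nat_lit 15) (.ev (nat_lit 52) (nat_lit 35459422027776) (.ev (nat_lit
 116) (nat_lit 262144) (.ev (nat_lit 372) (nat_lit 512) (.ev (nat_lit 404) (nat_lit 2048) (.ev (nat_lit 436)
 (nat_lit 34359738368) (.ev (nat_lit 532) (nat_lit 8589934592) (.ev (nat_lit 660) (nat_lit 32) (.ev (nat_lit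
 1700) (nat_lit 4096) (.ev (nat_lit 2516) (nat_lit 2) (.ev (nat_lit 2525) (nat_lit 4) .dd))))))))))) (.br
 (nat_lit 18) (.ch (nat_lit 16) (.ev (nat_lit 52) (nat_lit 275016581120) (.ev (nat_lit 352) (nat_lit
 35227355388454) .dd))) (.ch (nat_lit 18) (.ev (nat_lit 52) (nat_lit 35459250065446) (.ev (nat_lit 180)
 (nat_lit 262144) (.ev (nat_lit 372) (nat_lit 33554432) (.ev (nat_lit 1284) (nat_lit 512) (.ev (nat_lit 1636)
 (nat_lit 4194304) (.ev (nat_lit 1796) (nat_lit 2048) (.ev (nat_lit 2388) (nat_lit 34359738368) (.ev (nat_lit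
 2576) (nat_lit 134217728) (.ev (nat_lit 2589) (nat_lit 8589934592) .dd)))))))))))))) (.br (nat_lit 29) (.br
 (nat_lit 23) (.br (nat_lit 22) (.ch (nat_lit 19) (.ev (nat_lit 52) (nat_lit 309241842180) (.ev (nat_lit 768)
 (nat_lit 35193130127394) .dd))) (.ch (nat_lit 22) (.ev (nat_lit 52) (nat_lit 8757969440) (.ev (nat_lit 148)
 (nat_lit 4194304) (.ev (nat_lit 896) (nat_lit 35493609805830) .dd))))) (.br (nat_lit 24) (.ch (nat_lit 23)
 (.ev (nat_lit 52) (nat_lit 309237712934) (.ev (nat_lit 532) (nat_lit 262144) (.ev (nat_lit 564) (nat_lit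
 8724152320) (.ev (nat_lit 1188) (nat_lit 4096) (.ev (nat_lit 2516) (nat_lit 4194304) (.ev (nat_lit 2836)
 (nat_lit 33554432) (.ev (nat_lit 2932) (nat_lit 35184372088832) (.ev (nat_lit 2941) (nat_lit 512) .dd)))))))))
 (.br (nat_lit 26) (.ch (nat_lit 24) (.ev (nat_lit 52) (nat_lit 35459417772578) (.ev (nat_lit 148) (nat_lit
 262144) (.ev (nat_lit 500) (nat_lit 8589934592) (.ev (nat_lit 660) (nat_lit 2048) (.ev (nat_lit 1508) (nat_lit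
 34359738368) (.ev (nat_lit 1732) (nat_lit 65536) (.ev (nat_lit 2276) (nat_lit 4) (.ev (nat_lit 2285) (nat_lit
 4194304) .dd))))))))) (.ch (nat_lit 26) (.ev (nat_lit 52) (nat_lit 43084157476) (.ev (nat_lit 948) (nat_lit
 274877906944) (.ev (nat_lit 1252) (nat_lit 2048) (.ev (nat_lit 1284) (nat_lit 65536) (.ev (nat_lit 1732)
 (nat_lit 33554432) (.ev (nat_lit 2900) (nat_lit 4194304) (.ev (nat_lit 3492) (nat_lit 2) (.ev (nat_lit 3501)
 (nat_lit 35184372088832) .dd)))))))))))) (.br (nat_lit 34) (.br (nat_lit 31) (.ch (nat_lit 29) (.ev (nat_lit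
 52) (nat_lit 274877975042) (.ev (nat_lit 244) (nat_lit 262144) (.ev (nat_lit 276) (nat_lit 8589934592) (.ev
 (nat_lit 404) (nat_lit 34359738368) (.ev (nat_lit 660) (nat_lit 33554432) (.ev (nat_lit 1124) (nat_lit
 4194304) (.ev (nat_lit 1668) (nat_lit 4096) (.ev (nat_lit 3604) (nat_lit 35184372088832) (.ev (nat_lit 3684)
 (nat_lit 134217728) (.ev (nat_lit 3712) (nat_lit 4) (.ev (nat_lit 3725) (nat_lit 32) .dd)))))))))))) (.br
 (nat_lit 33) (.ch (nat_lit 31) (.ev (nat_lit 52) (nat_lit 8757968928) (.ev (nat_lit 244) (nat_lit 2) (.ev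
 (nat_lit 724) (nat_lit 35184372088832) (.ev (nat_lit 788) (nat_lit 34359738368) (.ev (nat_lit 916) (nat_lit
 65536) (.ev (nat_lit 1232) (nat_lit 274882107908) .dd))))))) (.ch (nat_lit 33) (.ev (nat_lit 52) (nat_lit
 35227456242180) (.ev (nat_lit 276) (nat_lit 2) (.ev (nat_lit 1508) (nat_lit 33554432) (.ev (nat_lit 2068)
 (nat_lit 32) (.ev (nat_lit 2132) (nat_lit 4194304) (.ev (nat_lit 2324) (nat_lit 65536) (.ev (nat_lit 2400)
 (nat_lit 274877908992) (.ev (nat_lit 2413) (nat_lit 4096) .dd))))))))))) (.br (nat_lit 36) (.ch (nat_lit 34)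
 (.ev (nat_lit 52) (nat_lit 274882103296) (.ev (nat_lit 148) (nat_lit 134217728) (.ev (nat_lit 384) (nat_lit
 35227355648550) .dd)))) (.br (nat_lit 38) (.ch (nat_lit 36) (.ev (nat_lit 52) (nat_lit 35184539860996) (.ev
 (nat_lit 340) (nat_lit 262144) (.ev (nat_lit 500) (nat_lit 4194304) (.ev (nat_lit 916) (nat_lit 34359738368)
 (.ev (nat_lit 1028) (nat_lit 8589934592) (.ev (nat_lit 1764) (nat_lit 4096) (.ev (nat_lit 2420) (nat_lit 512)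
 (.ev (nat_lit 3376) (nat_lit 274877974562) .dd))))))))) (.ch (nat_lit 38) (.ev (nat_lit 52) (nat_lit
 42954135558) (.ev (nat_lit 724) (nat_lit 274877906944) (.ev (nat_lit 948) (nat_lit 35184372088832) (.ev
 (nat_lit 1732) (nat_lit 512) (.ev (nat_lit 1828) (nat_lit 33554432) (.ev (nat_lit 2276) (nat_lit 32) (.ev
 (nat_lit 2368) (nat_lit 134283264) .dd))))))))))))) (.br (nat_lit 54) (.br (nat_lit 47) (.br (nat_lit 43) (.br
 (nat_lit 42) (.ch (nat_lit 39) (.ev (nat_lit 52) (nat_lit 317865660420) (.ev (nat_lit 84) (nat_lit 134217728)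
 (.ev (nat_lit 1220) (nat_lit 35184372088832) (.ev (nat_lit 1252) (nat_lit 32) (.ev (nat_lit 3028) (nat_lit
 512) (.ev (nat_lit 3092) (nat_lit 2) (.ev (nat_lit 3101) (nat_lit 2048) .dd)))))))) (.ch (nat_lit 42) (.ev
 (nat_lit 52) (nat_lit 35502199672866) (.ev (nat_lit 436) (nat_lit 33554432) (.ev (nat_lit 532) (nat_lit
 4194304) (.ev (nat_lit 596) (nat_lit 2048) (.ev (nat_lit 820) (nat_lit 134217728) (.ev (nat_lit 1028) (nat_lit
 262144) (.ev (nat_lit 1252) (nat_lit 512) (.ev (nat_lit 1460) (nat_lit 65536) (.ev (nat_lit 1469) (nat_lit 4)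
 .dd))))))))))) (.br (nat_lit 44) (.ch (nat_lit 43) (.ev (nat_lit 52) (nat_lit 317827649538) (.ev (nat_lit 404)
 (nat_lit 33554432) (.ev (nat_lit 436) (nat_lit 512) (.ev (nat_lit 756) (nat_lit 4) (.ev (nat_lit 1092)
 (nat_lit 2048) (.ev (nat_lit 1476) (nat_lit 32) (.ev (nat_lit 1940) (nat_lit 35184372088832) (.ev (nat_lit
 2080) (nat_lit 138412032) (.ev (nat_lit 2093) (nat_lit 262144) .dd)))))))))) (.br (nat_lit 46) (.ch (nat_lit
 44) (.ev (nat_lit 52) (nat_lit 35184506378752) (.ev (nat_lit 736) (nat_lit 317865590822) .dd))) (.ch (nat_lit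
 46) (.ev (nat_lit 52) (nat_lit 35184409909282) (.ev (nat_lit 340) (nat_lit 8589934592) (.ev (nat_lit 1396)
 (nat_lit 262144) (.ev (nat_lit 1572) (nat_lit 274877906944) (.ev (nat_lit 3348) (nat_lit 4) (.ev (nat_lit
 3396) (nat_lit 512) (.ev (nat_lit 3540) (nat_lit 134217728) (.ev (nat_lit 3549) (nat_lit 34359738368)
 .dd)))))))))))) (.br (nat_lit 50) (.br (nat_lit 48) (.ch (nat_lit 47) (.ev (nat_lit 52) (nat_lit
 35493610067970) (.ev (nat_lit 212) (nat_lit 4194304) (.ev (nat_lit 500) (nat_lit 134217728) (.ev (nat_lit 916)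
 (nat_lit 512) (.ev (nat_lit 1892) (nat_lit 4) (.ev (nat_lit 2532) (nat_lit 32) (.ev (nat_lit 2816) (nat_lit
 33554432) (.ev (nat_lit 2829) (nat_lit 8589934592) .dd))))))))) (.br (nat_lit 49) (.ch (nat_lit 48) (.ev
 (nat_lit 52) (nat_lit 35184506638880) (.ev (nat_lit 372) (nat_lit 4) (.ev (nat_lit 628) (nat_lit 274877906944)
 (.ev (nat_lit 820) (nat_lit 2) (.ev (nat_lit 1712) (nat_lit 42987423744) .dd)))))) (.ch (nat_lit 49) (.ev
 (nat_lit 52) (nat_lit 35218903795716) (.ev (nat_lit 500) (nat_lit 262144) (.ev (nat_lit 532) (nat_lit 2) (.ev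
 (nat_lit 820) (nat_lit 8589934592) (.ev (nat_lit 916) (nat_lit 32) (.ev (nat_lit 1764) (nat_lit 274877906944)
 (.ev (nat_lit 3108) (nat_lit 512) (.ev (nat_lit 3348) (nat_lit 65536) (.ev (nat_lit 3357) (nat_lit 4096)
 .dd)))))))))))) (.br (nat_lit 51) (.ch (nat_lit 50) (.ev (nat_lit 52) (nat_lit 42949679620) (.ev (nat_lit 116)
 (nat_lit 2) (.ev (nat_lit 244) (nat_lit 138412032) (.ev (nat_lit 884) (nat_lit 65568) (.ev (nat_lit 1284)
 (nat_lit 33554432) (.ev (nat_lit 1316) (nat_lit 35459249995776) (.ev (nat_lit 1325) (nat_lit 262144)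
 .dd)))))))) (.br (nat_lit 53) (.ch (nat_lit 51) (.ev (nat_lit 52) (nat_lit 42987683844) (.ev (nat_lit 756)
 (nat_lit 65536) (.ev (nat_lit 1700) (nat_lit 274877906944) (.ev (nat_lit 1972) (nat_lit 32) (.ev (nat_lit
 2276) (nat_lit 2048) (.ev (nat_lit 3172) (nat_lit 35184372092928) (.ev (nat_lit 3220) (nat_lit 2) (.ev
 (nat_lit 3296) (nat_lit 134217728) (.ev (nat_lit 3309) (nat_lit 512) .dd)))))))))) (.ch (nat_lit 53) (.ev
 (nat_lit 52) (nat_lit 275012389410) (.ev (nat_lit 788) (nat_lit 4) (.ev (nat_lit 1092) (nat_lit 34359738368)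
 (.ev (nat_lit 1488) (nat_lit 35192999841792) .dd))))))))) (.br (nat_lit 64) (.br (nat_lit 57) (.br (nat_lit
 55) (.ch (nat_lit 54) (.ev (nat_lit 52) (nat_lit 309372127238) (.ev (nat_lit 756) (nat_lit 32) (.ev (nat_lit
 1072) (nat_lit 35192999842304) .dd)))) (.ch (nat_lit 55) (.ev (nat_lit 52) (nat_lit 35493647550982) (.ev
 (nat_lit 340) (nat_lit 134217728) (.ev (nat_lit 1872) (nat_lit 8590200864) .dd))))) (.br (nat_lit 58) (.ch
 (nat_lit 57) (.ev (nat_lit 52) (nat_lit 42950005248) (.ev (nat_lit 84) (nat_lit 2) (.ev (nat_lit 788) (nat_lit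
 33554432) (.ev (nat_lit 996) (nat_lit 274877906944) (.ev (nat_lit 2036) (nat_lit 35184372088832) (.ev (nat_lit
 2356) (nat_lit 134217728) (.ev (nat_lit 2948) (nat_lit 2048) (.ev (nat_lit 3668) (nat_lit 4194304) (.ev
 (nat_lit 3728) (nat_lit 32) (.ev (nat_lit 3741) (nat_lit 4) .dd))))))))))) (.br (nat_lit 62) (.ch (nat_lit 58)
 (.ev (nat_lit 52) (nat_lit 35459288011268) (.ev (nat_lit 1124) (nat_lit 8589934592) (.ev (nat_lit 1828)
 (nat_lit 65536) (.ev (nat_lit 2484) (nat_lit 134217728) (.ev (nat_lit 2628) (nat_lit 2) (.ev (nat_lit 3316)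
 (nat_lit 2048) (.ev (nat_lit 3328) (nat_lit 32) (.ev (nat_lit 3341) (nat_lit 34359738368) .dd))))))))) (.ch
 (nat_lit 62) (.ev (nat_lit 52) (nat_lit 8728414208) (.ev (nat_lit 372) (nat_lit 32) (.ev (nat_lit 640)
 (nat_lit 35493643555334) .dd))))))) (.br (nat_lit 68) (.br (nat_lit 65) (.ch (nat_lit 64) (.ev (nat_lit 52)
 (nat_lit 35493609736742) (.ev (nat_lit 180) (nat_lit 8589934592) (.ev (nat_lit 276) (nat_lit 4194304) (.ev
 (nat_lit 596) (nat_lit 33554432) (.ev (nat_lit 660) (nat_lit 65536) (.ev (nat_lit 1540) (nat_lit 4096) (.ev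
 (nat_lit 2544) (nat_lit 134217728) (.ev (nat_lit 2557) (nat_lit 262144) .dd))))))))) (.br (nat_lit 67) (.ch
 (nat_lit 65) (.ev (nat_lit 52) (nat_lit 8724220416) (.ev (nat_lit 116) (nat_lit 4194304) (.ev (nat_lit 436)
 (nat_lit 32) (.ev (nat_lit 864) (nat_lit 35493643554822) .dd))))) (.ch (nat_lit 67) (.ev (nat_lit 52) (nat_lit
 283505920034) (.ev (nat_lit 212) (nat_lit 134217728) (.ev (nat_lit 372) (nat_lit 34359738368) (.ev (nat_lit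
 1796) (nat_lit 512) (.ev (nat_lit 2004) (nat_lit 35184372088832) (.ev (nat_lit 2048) (nat_lit 4100)
 .dd))))))))) (.br (nat_lit 69) (.ch (nat_lit 68) (.ev (nat_lit 52) (nat_lit 35459250330148) (.ev (nat_lit 564)
 (nat_lit 2) (.ev (nat_lit 1808) (nat_lit 43121639424) .dd)))) (.br (nat_lit 70) (.ch (nat_lit 69) (.ev
 (nat_lit 52) (nat_lit 35193100699654) (.ev (nat_lit 756) (nat_lit 33554432) (.ev (nat_lit 1460) (nat_lit 32)
 (.ev (nat_lit 2276) (nat_lit 512) (.ev (nat_lit 2304) (nat_lit 309237710848) (.ev (nat_lit 2317) (nat_lit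
 4096) .dd))))))) (.ch (nat_lit 70) (.ev (nat_lit 52) (nat_lit 35218765647872) (.ev (nat_lit 308) (nat_lit
 134217728) (.ev (nat_lit 372) (nat_lit 65536) (.ev (nat_lit 468) (nat_lit 8589934592) (.ev (nat_lit 564)
 (nat_lit 4194304) (.ev (nat_lit 1668) (nat_lit 274877906944) (.ev (nat_lit 2256) (nat_lit 2596) (.ev (nat_lit
 2269) (nat_lit 2) .dd)))))))))))))))))

/-- The trie. -/
noncomputable def T : Tr := .nd (nat_lit 1000000) (.br (nat_lit 7) (.br (nat_lit 2) (.br (nat_lit 1) (.ch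
 (nat_lit 0) (.ev (nat_lit 0) (nat_lit 140737488355327) .dd)) (.ch (nat_lit 1) T1)) (.br (nat_lit 3) (.ch
 (nat_lit 2) T2) (.br (nat_lit 4) (.ch (nat_lit 3) (.ev (nat_lit 0) (nat_lit 140737488355327) .dd)) (.ch
 (nat_lit 4) (.ev (nat_lit 0) (nat_lit 140737488355327) .dd))))) (.br (nat_lit 9) (.br (nat_lit 8) (.ch
 (nat_lit 7) (.ev (nat_lit 0) (nat_lit 140737488355327) .dd)) (.ch (nat_lit 8) T8)) (.br (nat_lit 14) (.ch
 (nat_lit 9) (.ev (nat_lit 0) (nat_lit 140737488355327) .dd)) (.br (nat_lit 18) (.ch (nat_lit 14) (.ev (nat_lit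
 0) (nat_lit 140737488355327) .dd)) (.ch (nat_lit 18) (.ev (nat_lit 0) (nat_lit 140737488355327) .dd))))))

/-- The possible values. -/
noncomputable def oks : List ℕ := [7]

/-- The parameters. -/
noncomputable def S : Pr := ⟨fun i l e => lget mz (lget [] (lget [] tabs i) l) e, oks, [(nat_lit 0), (nat_lit
 1), (nat_lit 0)], T, (nat_lit 140737488355327), (nat_lit 12800101590481), (nat_lit 47), [(nat_lit 279193),
 (nat_lit 87122173451996128837)], [(nat_lit 361), (nat_lit 5041)]⟩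

/-- Nothing known. -/
noncomputable def cs0 : Cs := (.cons (nat_lit 19) (nat_lit 0) (nat_lit 1) (.cons (nat_lit 71) (nat_lit 0) (nat_lit 1) .nil))

theorem part_1 : part S cs0 (nat_lit 1) = true := by decide +kernel

theorem part_2 : part S cs0 (nat_lit 2) = true := by decide +kernel

theorem part_8 : part S cs0 (nat_lit 8) = true := by decide +kernel

/-- Data of a prime. -/
noncomputable def D0 : PD := ⟨(nat_lit 19), (nat_lit 2), (210, 3, 5), (67, 193, 280), (183, 17, 194)⟩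

theorem D0_ok : D0.Ok := pdb_sound (s := 9) (C := ⟨⟨21, 6, -28, 11, 14, 17, -4, 7, -1⟩, (2, 11, 15)⟩) (by show Nat.Prime 19; norm_num) (by decide +kernel)

/-- Lines of the first type. -/
noncomputable def Cl0 : List C1 := [⟨⟨11, 14, -28, 21, 6, 7, 4, -7, -5⟩, (12, 16, 13)⟩,
  ⟨⟨0, 0, 0, 0, 0, 0, 0, 0, 0⟩, (0, 0, 0)⟩,
  ⟨⟨0, 0, 0, 0, 0, 0, 0, 0, 0⟩, (0, 0, 0)⟩,
  ⟨⟨9, 6, -32, 1, 26, 7, 8, -1, -1⟩, (8, 3, 5)⟩,
  ⟨⟨-9, -6, -23, -1, -26, 8, 8, -1, -7⟩, (13, 12, 18)⟩,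
  ⟨⟨0, 0, 0, 0, 0, 0, 0, 0, 0⟩, (0, 0, 0)⟩,
  ⟨⟨0, 0, 0, 0, 0, 0, 0, 0, 0⟩, (0, 0, 0)⟩,
  ⟨⟨9, -6, -32, 1, -26, 7, 8, 1, -1⟩, (5, 9, 15)⟩,
  ⟨⟨0, 0, 0, 0, 0, 0, 0, 0, 0⟩, (0, 0, 0)⟩,
  ⟨⟨21, -6, -28, 11, -14, 17, -4, -7, -1⟩, (16, 12, 6)⟩,
  ⟨⟨0, 0, 0, 0, 0, 0, 0, 0, 0⟩, (0, 0, 0)⟩,
  ⟨⟨0, 0, 0, 0, 0, 0, 0, 0, 0⟩, (0, 0, 0)⟩,
  ⟨⟨0, 0, 0, 0, 0, 0, 0, 0, 0⟩, (0, 0, 0)⟩,
  ⟨⟨0, 0, 0, 0, 0, 0, 0, 0, 0⟩, (0, 0, 0)⟩,
  ⟨⟨11, -14, -28, 21, -6, 7, 4, 7, -5⟩, (5, 13, 7)⟩,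
  ⟨⟨0, 0, 0, 0, 0, 0, 0, 0, 0⟩, (0, 0, 0)⟩,
  ⟨⟨0, 0, 0, 0, 0, 0, 0, 0, 0⟩, (0, 0, 0)⟩,
  ⟨⟨0, 0, 0, 0, 0, 0, 0, 0, 0⟩, (0, 0, 0)⟩,
  ⟨⟨-9, 6, -23, -1, 26, 8, 8, 1, -7⟩, (16, 6, 9)⟩]

/-- Data of a prime. -/
noncomputable def D1 : PD := ⟨(nat_lit 71), (nat_lit 2), (72, 9, 33), (3977, 4536, 3372), (4173, 4400, 3526)⟩

theorem D1_ok : D1.Ok := pdb_sound (s := 11) (C := ⟨⟨59, 34, -112, -29, 94, 37, -24, -3, -11⟩, (59, 42, 47)⟩) (by show Nat.Prime 71; norm_num) (by decide +kernel)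

/-- Lines of the first type. -/
noncomputable def Cl1 : List C1 := [⟨⟨-59, -34, -53, 29, -94, 8, 24, 3, -35⟩, (17, 47, 34)⟩,
  ⟨⟨0, 0, 0, 0, 0, 0, 0, 0, 0⟩, (0, 0, 0)⟩,
  ⟨⟨49, -74, -77, 79, 14, 28, 12, 21, -29⟩, (59, 56, 13)⟩,
  ⟨⟨0, 0, 0, 0, 0, 0, 0, 0, 0⟩, (0, 0, 0)⟩,
  ⟨⟨0, 0, 0, 0, 0, 0, 0, 0, 0⟩, (0, 0, 0)⟩,
  ⟨⟨0, 0, 0, 0, 0, 0, 0, 0, 0⟩, (0, 0, 0)⟩,
  ⟨⟨79, -14, -107, 49, 74, 28, -12, 21, -17⟩, (44, 21, 5)⟩,
  ⟨⟨0, 0, 0, 0, 0, 0, 0, 0, 0⟩, (0, 0, 0)⟩,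
  ⟨⟨0, 0, 0, 0, 0, 0, 0, 0, 0⟩, (0, 0, 0)⟩,
  ⟨⟨39, 66, -92, -89, 46, 37, -8, -19, -23⟩, (13, 65, 21)⟩,
  ⟨⟨19, 46, -107, -91, -26, 8, 12, -27, -19⟩, (7, 30, 53)⟩,
  ⟨⟨0, 0, 0, 0, 0, 0, 0, 0, 0⟩, (0, 0, 0)⟩,
  ⟨⟨0, 0, 0, 0, 0, 0, 0, 0, 0⟩, (0, 0, 0)⟩,
  ⟨⟨99, 6, -67, 11, -94, 32, -4, -11, -31⟩, (13, 33, 59)⟩,
  ⟨⟨-39, -66, -53, -89, 46, 52, 8, 19, -31⟩, (17, 57, 22)⟩,
  ⟨⟨0, 0, 0, 0, 0, 0, 0, 0, 0⟩, (0, 0, 0)⟩,
  ⟨⟨0, 0, 0, 0, 0, 0, 0, 0, 0⟩, (0, 0, 0)⟩,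
  ⟨⟨19, -46, -107, -91, 26, 8, 12, 27, -19⟩, (15, 44, 2)⟩,
  ⟨⟨0, 0, 0, 0, 0, 0, 0, 0, 0⟩, (0, 0, 0)⟩,
  ⟨⟨0, 0, 0, 0, 0, 0, 0, 0, 0⟩, (0, 0, 0)⟩,
  ⟨⟨51, 66, -88, -59, 74, 67, -20, -5, -17⟩, (59, 64, 59)⟩,
  ⟨⟨49, 74, -77, 79, -14, 28, 12, -21, -29⟩, (6, 43, 29)⟩,
  ⟨⟨0, 0, 0, 0, 0, 0, 0, 0, 0⟩, (0, 0, 0)⟩,
  ⟨⟨0, 0, 0, 0, 0, 0, 0, 0, 0⟩, (0, 0, 0)⟩,
  ⟨⟨0, 0, 0, 0, 0, 0, 0, 0, 0⟩, (0, 0, 0)⟩,
  ⟨⟨31, 74, -83, -81, 54, 68, -16, -13, -19⟩, (8, 2, 60)⟩,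
  ⟨⟨0, 0, 0, 0, 0, 0, 0, 0, 0⟩, (0, 0, 0)⟩,
  ⟨⟨11, 94, -43, -99, 6, 32, 4, -11, -35⟩, (69, 18, 38)⟩,
  ⟨⟨-51, 66, -37, 59, 74, 8, 20, -5, -37⟩, (25, 56, 25)⟩,
  ⟨⟨0, 0, 0, 0, 0, 0, 0, 0, 0⟩, (0, 0, 0)⟩,
  ⟨⟨39, -66, -92, -89, -46, 37, -8, 19, -23⟩, (43, 2, 64)⟩,
  ⟨⟨0, 0, 0, 0, 0, 0, 0, 0, 0⟩, (0, 0, 0)⟩,
  ⟨⟨59, -34, -112, -29, -94, 37, -24, 3, -11⟩, (9, 4, 18)⟩,
  ⟨⟨0, 0, 0, 0, 0, 0, 0, 0, 0⟩, (0, 0, 0)⟩,
  ⟨⟨0, 0, 0, 0, 0, 0, 0, 0, 0⟩, (0, 0, 0)⟩,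
  ⟨⟨-59, 34, -53, 29, 94, 8, 24, -3, -35⟩, (8, 43, 16)⟩,
  ⟨⟨0, 0, 0, 0, 0, 0, 0, 0, 0⟩, (0, 0, 0)⟩,
  ⟨⟨11, -94, -43, -99, -6, 32, 4, 11, -35⟩, (2, 53, 33)⟩,
  ⟨⟨0, 0, 0, 0, 0, 0, 0, 0, 0⟩, (0, 0, 0)⟩,
  ⟨⟨0, 0, 0, 0, 0, 0, 0, 0, 0⟩, (0, 0, 0)⟩,
  ⟨⟨51, -66, -88, -59, -74, 67, -20, 5, -17⟩, (18, 46, 18)⟩,
  ⟨⟨-19, -46, -88, -91, -26, 83, -12, 27, -7⟩, (26, 61, 65)⟩,
  ⟨⟨0, 0, 0, 0, 0, 0, 0, 0, 0⟩, (0, 0, 0)⟩,
  ⟨⟨0, 0, 0, 0, 0, 0, 0, 0, 0⟩, (0, 0, 0)⟩,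
  ⟨⟨0, 0, 0, 0, 0, 0, 0, 0, 0⟩, (0, 0, 0)⟩,
  ⟨⟨-19, 46, -88, -91, 26, 83, -12, -27, -7⟩, (18, 4, 45)⟩,
  ⟨⟨0, 0, 0, 0, 0, 0, 0, 0, 0⟩, (0, 0, 0)⟩,
  ⟨⟨0, 0, 0, 0, 0, 0, 0, 0, 0⟩, (0, 0, 0)⟩,
  ⟨⟨0, 0, 0, 0, 0, 0, 0, 0, 0⟩, (0, 0, 0)⟩,
  ⟨⟨0, 0, 0, 0, 0, 0, 0, 0, 0⟩, (0, 0, 0)⟩,
  ⟨⟨0, 0, 0, 0, 0, 0, 0, 0, 0⟩, (0, 0, 0)⟩,
  ⟨⟨0, 0, 0, 0, 0, 0, 0, 0, 0⟩, (0, 0, 0)⟩,
  ⟨⟨99, -6, -67, 11, 94, 32, -4, 11, -31⟩, (48, 29, 54)⟩,
  ⟨⟨0, 0, 0, 0, 0, 0, 0, 0, 0⟩, (0, 0, 0)⟩,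
  ⟨⟨0, 0, 0, 0, 0, 0, 0, 0, 0⟩, (0, 0, 0)⟩,
  ⟨⟨0, 0, 0, 0, 0, 0, 0, 0, 0⟩, (0, 0, 0)⟩,
  ⟨⟨-51, -66, -37, 59, -74, 8, 20, 5, -37⟩, (55, 38, 55)⟩,
  ⟨⟨0, 0, 0, 0, 0, 0, 0, 0, 0⟩, (0, 0, 0)⟩,
  ⟨⟨0, 0, 0, 0, 0, 0, 0, 0, 0⟩, (0, 0, 0)⟩,
  ⟨⟨-31, -74, -52, -81, 54, 13, 16, 13, -35⟩, (64, 55, 54)⟩,
  ⟨⟨-31, 74, -52, -81, -54, 13, 16, -13, -35⟩, (11, 15, 47)⟩,
  ⟨⟨-39, 66, -53, -89, -46, 52, 8, -19, -31⟩, (58, 65, 50)⟩,
  ⟨⟨0, 0, 0, 0, 0, 0, 0, 0, 0⟩, (0, 0, 0)⟩,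
  ⟨⟨79, 14, -107, 49, -74, 28, -12, -21, -17⟩, (57, 3, 21)⟩,
  ⟨⟨0, 0, 0, 0, 0, 0, 0, 0, 0⟩, (0, 0, 0)⟩,
  ⟨⟨0, 0, 0, 0, 0, 0, 0, 0, 0⟩, (0, 0, 0)⟩,
  ⟨⟨31, -74, -83, -81, -54, 68, -16, 13, -19⟩, (61, 33, 67)⟩,
  ⟨⟨0, 0, 0, 0, 0, 0, 0, 0, 0⟩, (0, 0, 0)⟩,
  ⟨⟨0, 0, 0, 0, 0, 0, 0, 0, 0⟩, (0, 0, 0)⟩,
  ⟨⟨0, 0, 0, 0, 0, 0, 0, 0, 0⟩, (0, 0, 0)⟩,
  ⟨⟨0, 0, 0, 0, 0, 0, 0, 0, 0⟩, (0, 0, 0)⟩]

/-- Data of a prime. -/
noncomputable def Dm : PD := ⟨(nat_lit 47), (nat_lit 2), (1034, 1, 9), (105, 517, 2039), (987, 5, 190)⟩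

theorem Dm_ok : Dm.Ok := pdb_sound (s := 1) (C := ⟨⟨47, 2, -76, 47, -2, 29, 0, -21, -1⟩, (2, 45, 26)⟩) (by show Nat.Prime 47; norm_num) (by decide +kernel)

/-- Lines of the first type. -/
noncomputable def Clm : List C1 := [⟨⟨47, -2, -76, 47, 2, 29, 0, 21, -1⟩, (9, 38, 23)⟩,
  ⟨⟨0, 0, 0, 0, 0, 0, 0, 0, 0⟩, (0, 0, 0)⟩,
  ⟨⟨0, 0, 0, 0, 0, 0, 0, 0, 0⟩, (0, 0, 0)⟩,
  ⟨⟨0, 0, 0, 0, 0, 0, 0, 0, 0⟩, (0, 0, 0)⟩,
  ⟨⟨17, 22, -76, -63, 18, 19, -4, -19, -7⟩, (10, 21, 17)⟩,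
  ⟨⟨0, 0, 0, 0, 0, 0, 0, 0, 0⟩, (0, 0, 0)⟩,
  ⟨⟨57, -18, -61, -23, -62, 4, -8, 5, -17⟩, (3, 26, 7)⟩,
  ⟨⟨57, 18, -61, -23, 62, 4, -8, -5, -17⟩, (16, 29, 6)⟩,
  ⟨⟨53, -22, -64, -13, -62, 29, -12, -3, -13⟩, (46, 10, 2)⟩,
  ⟨⟨0, 0, 0, 0, 0, 0, 0, 0, 0⟩, (0, 0, 0)⟩,
  ⟨⟨43, -38, -59, 3, -42, 56, -16, -11, -1⟩, (35, 9, 46)⟩,
  ⟨⟨0, 0, 0, 0, 0, 0, 0, 0, 0⟩, (0, 0, 0)⟩,
  ⟨⟨0, 0, 0, 0, 0, 0, 0, 0, 0⟩, (0, 0, 0)⟩,
  ⟨⟨-17, -22, -59, -63, 18, 44, 4, 19, -11⟩, (15, 39, 2)⟩,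
  ⟨⟨0, 0, 0, 0, 0, 0, 0, 0, 0⟩, (0, 0, 0)⟩,
  ⟨⟨0, 0, 0, 0, 0, 0, 0, 0, 0⟩, (0, 0, 0)⟩,
  ⟨⟨0, 0, 0, 0, 0, 0, 0, 0, 0⟩, (0, 0, 0)⟩,
  ⟨⟨53, 22, -64, -13, 62, 29, -12, 3, -13⟩, (41, 13, 12)⟩,
  ⟨⟨0, 0, 0, 0, 0, 0, 0, 0, 0⟩, (0, 0, 0)⟩,
  ⟨⟨0, 0, 0, 0, 0, 0, 0, 0, 0⟩, (0, 0, 0)⟩,
  ⟨⟨0, 0, 0, 0, 0, 0, 0, 0, 0⟩, (0, 0, 0)⟩,
  ⟨⟨0, 0, 0, 0, 0, 0, 0, 0, 0⟩, (0, 0, 0)⟩,
  ⟨⟨0, 0, 0, 0, 0, 0, 0, 0, 0⟩, (0, 0, 0)⟩,
  ⟨⟨43, 38, -59, 3, 42, 56, -16, 11, -1⟩, (5, 8, 20)⟩,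
  ⟨⟨3, -42, -59, 43, -38, 16, 16, 11, -17⟩, (39, 42, 20)⟩,
  ⟨⟨0, 0, 0, 0, 0, 0, 0, 0, 0⟩, (0, 0, 0)⟩,
  ⟨⟨0, 0, 0, 0, 0, 0, 0, 0, 0⟩, (0, 0, 0)⟩,
  ⟨⟨0, 0, 0, 0, 0, 0, 0, 0, 0⟩, (0, 0, 0)⟩,
  ⟨⟨0, 0, 0, 0, 0, 0, 0, 0, 0⟩, (0, 0, 0)⟩,
  ⟨⟨0, 0, 0, 0, 0, 0, 0, 0, 0⟩, (0, 0, 0)⟩,
  ⟨⟨-13, -62, -16, 53, -22, 11, 12, 3, -25⟩, (34, 6, 12)⟩,
  ⟨⟨0, 0, 0, 0, 0, 0, 0, 0, 0⟩, (0, 0, 0)⟩,
  ⟨⟨0, 0, 0, 0, 0, 0, 0, 0, 0⟩, (0, 0, 0)⟩,
  ⟨⟨0, 0, 0, 0, 0, 0, 0, 0, 0⟩, (0, 0, 0)⟩,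
  ⟨⟨17, -22, -76, -63, -18, 19, -4, 19, -7⟩, (15, 8, 2)⟩,
  ⟨⟨0, 0, 0, 0, 0, 0, 0, 0, 0⟩, (0, 0, 0)⟩,
  ⟨⟨0, 0, 0, 0, 0, 0, 0, 0, 0⟩, (0, 0, 0)⟩,
  ⟨⟨3, 42, -59, 43, 38, 16, 16, -11, -17⟩, (38, 12, 46)⟩,
  ⟨⟨0, 0, 0, 0, 0, 0, 0, 0, 0⟩, (0, 0, 0)⟩,
  ⟨⟨-13, 62, -16, 53, 22, 11, 12, -3, -25⟩, (37, 1, 2)⟩,
  ⟨⟨23, 62, -19, 57, -18, 4, 8, -5, -25⟩, (29, 31, 6)⟩,
  ⟨⟨23, -62, -19, 57, 18, 4, 8, 5, -25⟩, (26, 44, 7)⟩,
  ⟨⟨0, 0, 0, 0, 0, 0, 0, 0, 0⟩, (0, 0, 0)⟩,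
  ⟨⟨-17, 22, -59, -63, -18, 44, 4, -19, -11⟩, (10, 26, 17)⟩,
  ⟨⟨0, 0, 0, 0, 0, 0, 0, 0, 0⟩, (0, 0, 0)⟩,
  ⟨⟨0, 0, 0, 0, 0, 0, 0, 0, 0⟩, (0, 0, 0)⟩,
  ⟨⟨0, 0, 0, 0, 0, 0, 0, 0, 0⟩, (0, 0, 0)⟩]

/-- Unit moves. -/
noncomputable def U : List Mv := [mz,
  mz,
  mz,
  mz,
  mz,
  ⟨⟨-1, 0, 1, 0, 1, 0, 0, 0, 1⟩, .nil, (nat_lit 18), (nat_lit 9), (nat_lit 4), (nat_lit 1), (0, 0, 0), [], 18⟩,
  ⟨⟨-1, 0, 1, 0, -1, 0, 0, 0, 1⟩, .nil, (nat_lit 0), (nat_lit 12), (nat_lit 1), (nat_lit 0), (0, 0, 0), [], 7⟩,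
  mz,
  mz,
  mz,
  ⟨⟨1, 0, 0, 0, -1, 0, 0, 0, 1⟩, .nil, (nat_lit 18), (nat_lit 14), (nat_lit 2), (nat_lit 1), (0, 0, 0), [], 10⟩,
  ⟨⟨-1, 0, 1, 0, -1, 0, 0, 0, 1⟩, .nil, (nat_lit 0), (nat_lit 12), (nat_lit 1), (nat_lit 0), (0, 0, 0), [], 7⟩,
  ⟨⟨-1, 0, 1, 0, -1, 0, 0, 0, 1⟩, .nil, (nat_lit 0), (nat_lit 12), (nat_lit 1), (nat_lit 0), (0, 0, 0), [], 7⟩,
  ⟨⟨-1, 0, 1, 0, 1, 0, 0, 0, 1⟩, .nil, (nat_lit 18), (nat_lit 9), (nat_lit 4), (nat_lit 1), (0, 0, 0), [], 18⟩,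
  mz,
  ⟨⟨-1, 0, 1, 0, 1, 0, 0, 0, 1⟩, .nil, (nat_lit 18), (nat_lit 9), (nat_lit 4), (nat_lit 1), (0, 0, 0), [], 18⟩,
  ⟨⟨1, 0, 0, 0, -1, 0, 0, 0, 1⟩, .nil, (nat_lit 18), (nat_lit 14), (nat_lit 2), (nat_lit 1), (0, 0, 0), [], 10⟩,
  ⟨⟨1, 0, 0, 0, -1, 0, 0, 0, 1⟩, .nil, (nat_lit 18), (nat_lit 14), (nat_lit 2), (nat_lit 1), (0, 0, 0), [], 10⟩,
  mz]

theorem v_ty : tyb Dm S.ty1 Clm = true := by decide +kernel

theorem v_ty0 : tyb D0 (S.tys.getD 0 0) Cl0 = true := by decide +kernel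

theorem v_ty1 : tyb D1 (S.tys.getD 1 0) Cl1 = true := by decide +kernel

theorem v_msc : mscb S D0 [D1] Dm (nat_lit 262) = true := by decide +kernel

theorem v_mv0 : mvsn (nat_lit 4019940409) S D0 [D1] Dm (nat_lit 262) 0 D0 = true := by decide +kernel

theorem v_mv1 : mvsn (nat_lit 4019940409) S D0 [D1] Dm (nat_lit 262) 1 D1 = true := by decide +kernel

theorem v_mm : mmsn (nat_lit 4019940409) S D0 [D1] Dm (nat_lit 262) = true := by decide +kernel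

theorem v_un : unb S D0 (nat_lit 262) U = true := by decide +kernel

theorem v_ok : okb S.oks [(0, 0, 0)] = true := by decide +kernel

theorem v_part : ∀ d < D0.p, (nat_lit 262).testBit d = true → part S (zc (D0 :: [D1])) d = true := by
  intro d hd h
  have h1 : ∀ d < 19, (nat_lit 262).testBit d = true → d = 1 ∨ d = 2 ∨ d = 8 := by decide
  rcases h1 d hd h with rfl | rfl | rfl
  · exact part_1
  · exact part_2
  · exact part_8

theorem main (n : ℕ) (ho : Odd n) (hr : ¬ Rep n) (h0 : Split 19 n) (h1 : Split 71 n) (hm : Split 47 n) :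
    n ∈ EE := by
  refine concln (W := nat_lit 4019940409) (S := S) (P0 := D0) (Pl := [D1]) (Pm := Dm) (cn := nat_lit 262) ?_ Dm_ok v_ty ?_ ?_ v_msc ?_ v_mm v_un v_part v_ok
    n ho hr ?_ hm
  · simp only [List.forall_mem_cons]
    exact ⟨D0_ok, D1_ok, fun _ h => absurd h (by simp)⟩
  · exact all2 (φ := fun j P => ∃ L, tyb P (S.tys.getD j 0) L = true) ⟨_, v_ty0⟩ ⟨_, v_ty1⟩
  · exact all2 (φ := fun j P => Nat.ble (S.pks.getD j 0) (Nat.pow P.p P.K) = true) (by decide +kernel) (by decide +kernel)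
  · exact all2 (φ := fun i P => mvsn (nat_lit 4019940409) S D0 [D1] Dm (nat_lit 262) i P = true) v_mv0 v_mv1
  · simp only [List.forall_mem_cons]
    exact ⟨h0, h1, fun _ h => absurd h (by simp)⟩

end Pool.Agent.Work.MP_9954fe_nt.P19_71_47

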