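import Pool.Agent.Work.MP_9954fe_nt.Fast

/-!
Certificates for the sets {7, 31, 53}, {11, 47, 71}, {13, 43, 71}, {19, 31, 43}, {31, 43, 47}, {31, 43, 71} of split primes.
-/

set_option autoImplicit false
set_option linter.all false
set_option maxRecDepth 100000

namespace Pool.Agent.Work.MP_9954fe_nt.P7_53_31

/-- Dummy move. -/
noncomputable def mz : Mv := ⟨⟨0, 0, 0, 0, 0, 0, 0, 0, 0⟩, .nil, (nat_lit 0), (nat_lit 0), (nat_lit 0), (nat_lit 0), (0, 0, 0), [], 0⟩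

/-- Moves. -/
noncomputable def t0_1 : List Mv := [
  ⟨⟨-3, 4, -5, 2, -5, -6, 4, 4, -5⟩, (.cons (nat_lit 11870394) (nat_lit 28783777) (nat_lit 28481682) (nat_lit
 1) (.cons (nat_lit 3512291) (nat_lit 2893525) (nat_lit 7281255) (nat_lit 1) .nil)), (nat_lit 16), (nat_lit
 13), (nat_lit 26), (nat_lit 1), (3, 5, 3), [10048865, 3084845], 22⟩,
  ⟨⟨-3, 4, -5, -2, 5, 6, 4, 4, -5⟩, (.cons (nat_lit 37305656) (nat_lit 7036773) (nat_lit 31813562) (nat_lit 1)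
 (.cons (nat_lit 5581427) (nat_lit 5793282) (nat_lit 6799504) (nat_lit 1) .nil)), (nat_lit 24), (nat_lit 8),
 (nat_lit 30), (nat_lit 1), (3, 2, 3), [5604076, 589727], 7⟩,
  ⟨⟨7, 0, 0, 2, -5, -6, 4, 4, -5⟩, (.cons (nat_lit 23697019) (nat_lit 11044809) (nat_lit 25792226) (nat_lit 1)
 (.cons (nat_lit 2979726) (nat_lit 350056) (nat_lit 6564970) (nat_lit 1) .nil)), (nat_lit 2), (nat_lit 29),
 (nat_lit 3), (nat_lit 1), (0, 5, 3), [9064028, 4809554], 25⟩,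
  ⟨⟨-3, 4, -5, 2, -5, -6, 4, 4, -5⟩, (.cons (nat_lit 11870394) (nat_lit 28783777) (nat_lit 28481682) (nat_lit
 1) (.cons (nat_lit 3512291) (nat_lit 2893525) (nat_lit 7281255) (nat_lit 1) .nil)), (nat_lit 16), (nat_lit
 13), (nat_lit 26), (nat_lit 1), (3, 5, 3), [10048865, 3084845], 22⟩,
  ⟨⟨-3, 4, -5, 2, -5, -6, 4, 4, -5⟩, (.cons (nat_lit 11870394) (nat_lit 28783777) (nat_lit 28481682) (nat_lit
 1) (.cons (nat_lit 3512291) (nat_lit 2893525) (nat_lit 7281255) (nat_lit 1) .nil)), (nat_lit 16), (nat_lit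
 13), (nat_lit 26), (nat_lit 1), (3, 5, 3), [10048865, 3084845], 22⟩,
  ⟨⟨-3, 4, -5, 2, -5, -6, 4, 4, -5⟩, (.cons (nat_lit 11870394) (nat_lit 28783777) (nat_lit 28481682) (nat_lit
 1) (.cons (nat_lit 3512291) (nat_lit 2893525) (nat_lit 7281255) (nat_lit 1) .nil)), (nat_lit 16), (nat_lit
 13), (nat_lit 26), (nat_lit 1), (3, 5, 3), [10048865, 3084845], 22⟩,
  ⟨⟨7, 0, 0, 2, -5, -6, 4, 4, -5⟩, (.cons (nat_lit 23697019) (nat_lit 11044809) (nat_lit 25792226) (nat_lit 1)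
 (.cons (nat_lit 2979726) (nat_lit 350056) (nat_lit 6564970) (nat_lit 1) .nil)), (nat_lit 2), (nat_lit 29),
 (nat_lit 3), (nat_lit 1), (0, 5, 3), [9064028, 4809554], 25⟩]

/-- Moves. -/
noncomputable def t0_3 : List Mv := [
  ⟨⟨1, 0, -9, 0, -7, 0, 6, 0, -5⟩, (.cons (nat_lit 25004503) (nat_lit 30625764) (nat_lit 38675796) (nat_lit 1)
 (.cons (nat_lit 4702351) (nat_lit 5047410) (nat_lit 3243720) (nat_lit 1) .nil)), (nat_lit 29), (nat_lit 14),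
 (nat_lit 28), (nat_lit 1), (2, 0, 5), [37099950, 4102230], 30⟩,
  ⟨⟨1, 0, -9, 0, -7, 0, 6, 0, -5⟩, (.cons (nat_lit 25004503) (nat_lit 30625764) (nat_lit 38675796) (nat_lit 1)
 (.cons (nat_lit 4702351) (nat_lit 5047410) (nat_lit 3243720) (nat_lit 1) .nil)), (nat_lit 29), (nat_lit 14),
 (nat_lit 28), (nat_lit 1), (2, 0, 5), [37099950, 4102230], 30⟩,
  ⟨⟨5, 0, 4, 0, 7, 0, 6, 0, -5⟩, (.cons (nat_lit 23707674) (nat_lit 19696108) (nat_lit 34804965) (nat_lit 1)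
 (.cons (nat_lit 7890480) (nat_lit 4392727) (nat_lit 3155783) (nat_lit 1) .nil)), (nat_lit 30), (nat_lit 21),
 (nat_lit 22), (nat_lit 1), (3, 0, 5), [11878172, 1374454], 17⟩,
  ⟨⟨5, 0, 4, 0, -7, 0, 6, 0, -5⟩, (.cons (nat_lit 26597705) (nat_lit 27856828) (nat_lit 8865904) (nat_lit 1)
 (.cons (nat_lit 7890480) (nat_lit 1850628) (nat_lit 5466158) (nat_lit 1) .nil)), (nat_lit 30), (nat_lit 27),
 (nat_lit 10), (nat_lit 1), (3, 0, 5), [2605651, 2931068], 25⟩,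
  ⟨⟨1, 0, -9, 0, -7, 0, 6, 0, -5⟩, (.cons (nat_lit 25004503) (nat_lit 30625764) (nat_lit 38675796) (nat_lit 1)
 (.cons (nat_lit 4702351) (nat_lit 5047410) (nat_lit 3243720) (nat_lit 1) .nil)), (nat_lit 29), (nat_lit 14),
 (nat_lit 28), (nat_lit 1), (2, 0, 5), [37099950, 4102230], 30⟩,
  ⟨⟨1, 0, -9, 0, 7, 0, 6, 0, -5⟩, (.cons (nat_lit 17043897) (nat_lit 16716079) (nat_lit 24805227) (nat_lit 1)
 (.cons (nat_lit 4025922) (nat_lit 6922291) (nat_lit 1714495) (nat_lit 1) .nil)), (nat_lit 9), (nat_lit 4),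
 (nat_lit 8), (nat_lit 1), (2, 0, 5), [27270990, 6997179], 25⟩,
  ⟨⟨1, 0, -9, 0, -7, 0, 6, 0, -5⟩, (.cons (nat_lit 25004503) (nat_lit 30625764) (nat_lit 38675796) (nat_lit 1)
 (.cons (nat_lit 4702351) (nat_lit 5047410) (nat_lit 3243720) (nat_lit 1) .nil)), (nat_lit 29), (nat_lit 14),
 (nat_lit 28), (nat_lit 1), (2, 0, 5), [37099950, 4102230], 30⟩]

/-- Moves. -/
noncomputable def t1_1 : List Mv := [
  mz,
  mz,
  mz,
  mz,
  ⟨⟨-53, 0, 0, 10, -47, -30, -2, 20, -47⟩, (.cons (nat_lit 2501247) (nat_lit 4463161) (nat_lit 6080433)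
 (nat_lit 1) (.cons (nat_lit 2753566) (nat_lit 382075) (nat_lit 3033848) (nat_lit 1) .nil)), (nat_lit 21),
 (nat_lit 20), (nat_lit 1), (nat_lit 0), (0, 39, 24), [27058440, 3609729], 6⟩,
  ⟨⟨-53, 0, 0, -10, -47, 30, -2, -20, -47⟩, (.cons (nat_lit 8239122) (nat_lit 19222964) (nat_lit 1) (nat_lit
 16687125) (.cons (nat_lit 2777262) (nat_lit 2311629) (nat_lit 6003670) (nat_lit 1) .nil)), (nat_lit 0),
 (nat_lit 2), (nat_lit 28), (nat_lit 1), (0, 7, 12), [38687837, 3489508], 23⟩,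
  ⟨⟨15, 56, -11, -28, 5, -36, 40, 8, -47⟩, (.cons (nat_lit 4201865) (nat_lit 18607989) (nat_lit 32518631)
 (nat_lit 1) (.cons (nat_lit 3836980) (nat_lit 7095884) (nat_lit 3223543) (nat_lit 1) .nil)), (nat_lit 5),
 (nat_lit 16), (nat_lit 15), (nat_lit 1), (1, 37, 38), [7652030, 2289031], 24⟩,
  mz,
  mz,
  ⟨⟨-33, -20, -32, 8, 45, -34, 24, -24, -49⟩, (.cons (nat_lit 17646280) (nat_lit 5920186) (nat_lit 14897715)
 (nat_lit 1) (.cons (nat_lit 3320803) (nat_lit 4389122) (nat_lit 1807882) (nat_lit 1) .nil)), (nat_lit 28),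
 (nat_lit 25), (nat_lit 4), (nat_lit 1), (35, 14, 42), [16380291, 3535963], 28⟩,
  ⟨⟨-25, 48, -11, 28, -5, -64, -40, -8, -7⟩, (.cons (nat_lit 36507133) (nat_lit 2918158) (nat_lit 39937830)
 (nat_lit 1) (.cons (nat_lit 4802036) (nat_lit 4587043) (nat_lit 1307970) (nat_lit 1) .nil)), (nat_lit 0),
 (nat_lit 4), (nat_lit 20), (nat_lit 1), (52, 52, 9), [9234338, 6769220], 7⟩,
  ⟨⟨-1, -12, -63, 50, 17, -30, 14, -44, -19⟩, (.cons (nat_lit 36153906) (nat_lit 22959728) (nat_lit 35000197)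
 (nat_lit 1) (.cons (nat_lit 2880189) (nat_lit 4791484) (nat_lit 6498483) (nat_lit 1) .nil)), (nat_lit 5),
 (nat_lit 6), (nat_lit 17), (nat_lit 1), (44, 26, 20), [12193596, 2231212], 5⟩,
  ⟨⟨-51, 20, 4, -10, -47, -20, 2, 20, -49⟩, (.cons (nat_lit 26662440) (nat_lit 36923891) (nat_lit 11071758)
 (nat_lit 1) (.cons (nat_lit 2248305) (nat_lit 5550217) (nat_lit 4668296) (nat_lit 1) .nil)), (nat_lit 23),
 (nat_lit 19), (nat_lit 1), (nat_lit 0), (48, 25, 48), [38906367, 2207417], 15⟩,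
  mz,
  mz,
  ⟨⟨-51, -20, 4, -10, 47, -20, 2, -20, -49⟩, (.cons (nat_lit 40353606) (nat_lit 1306333) (nat_lit 39113142)
 (nat_lit 1) (.cons (nat_lit 4314151) (nat_lit 6999064) (nat_lit 3443806) (nat_lit 1) .nil)), (nat_lit 30),
 (nat_lit 4), (nat_lit 1), (nat_lit 1), (36, 32, 36), [19326667, 989393], 14⟩,
  ⟨⟨15, 52, 16, 10, 17, -60, 46, 4, -11⟩, (.cons (nat_lit 3409425) (nat_lit 30509573) (nat_lit 1422287)
 (nat_lit 1) (.cons (nat_lit 1251332) (nat_lit 4266202) (nat_lit 7253833) (nat_lit 1) .nil)), (nat_lit 27),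
 (nat_lit 3), (nat_lit 5), (nat_lit 1), (24, 16, 10), [32497076, 6928554], 15⟩,
  ⟨⟨31, -48, -4, -10, -17, -50, 46, 4, -35⟩, (.cons (nat_lit 8235601) (nat_lit 27106946) (nat_lit 10547543)
 (nat_lit 1) (.cons (nat_lit 2354198) (nat_lit 117428) (nat_lit 7130783) (nat_lit 1) .nil)), (nat_lit 23),
 (nat_lit 20), (nat_lit 17), (nat_lit 1), (18, 13, 25), [26891439, 2392756], 1⟩,
  ⟨⟨-57, -4, 40, 8, -45, 26, -24, -24, -25⟩, (.cons (nat_lit 5223134) (nat_lit 38148273) (nat_lit 30933883)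
 (nat_lit 1) (.cons (nat_lit 6547170) (nat_lit 3001802) (nat_lit 1491073) (nat_lit 1) .nil)), (nat_lit 6),
 (nat_lit 25), (nat_lit 19), (nat_lit 1), (12, 29, 19), [29676270, 347683], 26⟩,
  mz,
  mz,
  ⟨⟨-33, 20, -32, 8, -45, -34, 24, 24, -49⟩, (.cons (nat_lit 13999432) (nat_lit 8555584) (nat_lit 1) (nat_lit
 11961460) (.cons (nat_lit 1323067) (nat_lit 1259898) (nat_lit 7815040) (nat_lit 1) .nil)), (nat_lit 26),
 (nat_lit 1), (nat_lit 2), (nat_lit 1), (47, 40, 14), [17263030, 7336522], 30⟩,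
  ⟨⟨45, 28, -49, -28, 45, 14, 0, 0, -53⟩, (.cons (nat_lit 28347481) (nat_lit 10271709) (nat_lit 36834336)
 (nat_lit 1) (.cons (nat_lit 7123905) (nat_lit 6710926) (nat_lit 2613675) (nat_lit 1) .nil)), (nat_lit 1),
 (nat_lit 14), (nat_lit 3), (nat_lit 1), (24, 31, 0), [6069332, 3978752], 3⟩,
  mz,
  ⟨⟨-13, 48, -27, 30, -17, -60, 30, 36, -7⟩, (.cons (nat_lit 10880868) (nat_lit 20304135) (nat_lit 10898320)
 (nat_lit 1) (.cons (nat_lit 6610459) (nat_lit 6365867) (nat_lit 5197395) (nat_lit 1) .nil)), (nat_lit 9),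
 (nat_lit 5), (nat_lit 10), (nat_lit 1), (11, 48, 48), [17989211, 3534223], 3⟩,
  mz,
  ⟨⟨-25, -48, -11, 28, 5, -64, -40, 8, -7⟩, (.cons (nat_lit 11281581) (nat_lit 14808401) (nat_lit 8677937)
 (nat_lit 1) (.cons (nat_lit 6047124) (nat_lit 1824961) (nat_lit 1) (nat_lit 4001235) .nil)), (nat_lit 20),
 (nat_lit 21), (nat_lit 24), (nat_lit 1), (2, 2, 35), [25049431, 351296], 15⟩,
  mz,
  ⟨⟨-1, -48, 37, 52, 5, -16, 8, -40, -31⟩, (.cons (nat_lit 30222932) (nat_lit 17398145) (nat_lit 12507064)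
 (nat_lit 1) (.cons (nat_lit 597646) (nat_lit 6142929) (nat_lit 2271106) (nat_lit 1) .nil)), (nat_lit 25),
 (nat_lit 3), (nat_lit 28), (nat_lit 1), (29, 29, 33), [19910818, 3950918], 27⟩,
  ⟨⟨-13, 48, 40, -30, 17, -30, 30, 36, -23⟩, (.cons (nat_lit 21115196) (nat_lit 19560164) (nat_lit 40174970)
 (nat_lit 1) (.cons (nat_lit 6321929) (nat_lit 1558013) (nat_lit 7284761) (nat_lit 1) .nil)), (nat_lit 14),
 (nat_lit 14), (nat_lit 21), (nat_lit 1), (42, 48, 5), [27935239, 7133235], 22⟩,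
  mz,
  ⟨⟨45, -28, -49, 28, 45, -14, 0, 0, -53⟩, (.cons (nat_lit 25864700) (nat_lit 38964569) (nat_lit 24042333)
 (nat_lit 1) (.cons (nat_lit 684971) (nat_lit 5174550) (nat_lit 2796875) (nat_lit 1) .nil)), (nat_lit 1),
 (nat_lit 17), (nat_lit 28), (nat_lit 1), (39, 49, 0), [32485722, 6405699], 3⟩,
  mz,
  ⟨⟨-39, 28, -17, 10, -33, -50, 18, 36, -37⟩, (.cons (nat_lit 33892694) (nat_lit 11995324) (nat_lit 2853738)
 (nat_lit 1) (.cons (nat_lit 5420005) (nat_lit 7422346) (nat_lit 1619287) (nat_lit 1) .nil)), (nat_lit 26),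
 (nat_lit 14), (nat_lit 28), (nat_lit 1), (43, 8, 25), [26455334, 3950882], 23⟩,
  mz,
  mz,
  ⟨⟨-9, 8, -59, 52, -5, -36, -8, -40, -23⟩, (.cons (nat_lit 38652932) (nat_lit 30706969) (nat_lit 14705986)
 (nat_lit 1) (.cons (nat_lit 3221663) (nat_lit 503522) (nat_lit 3478152) (nat_lit 1) .nil)), (nat_lit 17),
 (nat_lit 25), (nat_lit 1), (nat_lit 0), (2, 12, 43), [1667941, 990193], 8⟩,
  ⟨⟨-1, 48, 37, 52, -5, -16, 8, 40, -31⟩, (.cons (nat_lit 11841982) (nat_lit 10430410) (nat_lit 27064309)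
 (nat_lit 1) (.cons (nat_lit 5119050) (nat_lit 6142234) (nat_lit 3161272) (nat_lit 1) .nil)), (nat_lit 0),
 (nat_lit 10), (nat_lit 8), (nat_lit 1), (26, 26, 4), [40093355, 7145290], 7⟩,
  ⟨⟨39, 28, -56, -10, -33, -40, -18, 36, -19⟩, (.cons (nat_lit 30864579) (nat_lit 38402621) (nat_lit 22564781)
 (nat_lit 1) (.cons (nat_lit 367081) (nat_lit 2473977) (nat_lit 2424219) (nat_lit 1) .nil)), (nat_lit 24),
 (nat_lit 8), (nat_lit 23), (nat_lit 1), (34, 47, 21), [18728454, 6130927], 14⟩,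
  ⟨⟨15, -56, -11, -28, -5, -36, 40, -8, -47⟩, (.cons (nat_lit 10672576) (nat_lit 22523720) (nat_lit 12260883)
 (nat_lit 1) (.cons (nat_lit 1275306) (nat_lit 3349324) (nat_lit 5008160) (nat_lit 1) .nil)), (nat_lit 27),
 (nat_lit 28), (nat_lit 30), (nat_lit 1), (31, 34, 12), [20538281, 6153873], 1⟩,
  ⟨⟨1, 48, 36, 52, 5, -36, -8, 40, -23⟩, (.cons (nat_lit 34069676) (nat_lit 12003387) (nat_lit 514203) (nat_lit
 1) (.cons (nat_lit 5098725) (nat_lit 4445558) (nat_lit 3273820) (nat_lit 1) .nil)), (nat_lit 25), (nat_lit 1),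
 (nat_lit 8), (nat_lit 1), (38, 15, 14), [2283891, 1159260], 2⟩,
  ⟨⟨31, 48, -4, 10, -17, 50, 46, -4, -35⟩, (.cons (nat_lit 39868764) (nat_lit 13464728) (nat_lit 5165049)
 (nat_lit 1) (.cons (nat_lit 5459221) (nat_lit 4971832) (nat_lit 2718332) (nat_lit 1) .nil)), (nat_lit 29),
 (nat_lit 26), (nat_lit 11), (nat_lit 1), (15, 51, 12), [765783, 7458632], 19⟩,
  ⟨⟨-57, 4, 40, -8, -45, -26, -24, 24, -25⟩, (.cons (nat_lit 18729138) (nat_lit 36842661) (nat_lit 1) (nat_lit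
 32384611) (.cons (nat_lit 3048247) (nat_lit 509608) (nat_lit 406381) (nat_lit 1) .nil)), (nat_lit 18),
 (nat_lit 5), (nat_lit 10), (nat_lit 1), (25, 50, 44), [21342756, 6286556], 22⟩,
  ⟨⟨15, 32, 44, 50, -17, -30, 14, 44, -19⟩, (.cons (nat_lit 38370230) (nat_lit 18249926) (nat_lit 32363846)
 (nat_lit 1) (.cons (nat_lit 5743835) (nat_lit 6837522) (nat_lit 6724131) (nat_lit 1) .nil)), (nat_lit 15),
 (nat_lit 13), (nat_lit 21), (nat_lit 1), (27, 37, 4), [6380613, 929430], 28⟩,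
  ⟨⟨1, 12, -64, 50, 17, -20, -14, 44, -5⟩, (.cons (nat_lit 12634381) (nat_lit 13243628) (nat_lit 24832404)
 (nat_lit 1) (.cons (nat_lit 3921349) (nat_lit 5467283) (nat_lit 1937577) (nat_lit 1) .nil)), (nat_lit 2),
 (nat_lit 19), (nat_lit 12), (nat_lit 1), (42, 33, 48), [6189733, 7291164], 12⟩,
  mz,
  ⟨⟨43, 12, 20, 30, 17, -60, 30, -36, -7⟩, (.cons (nat_lit 40353606) (nat_lit 7694426) (nat_lit 9765969)
 (nat_lit 1) (.cons (nat_lit 3895227) (nat_lit 4908199) (nat_lit 84680) (nat_lit 1) .nil)), (nat_lit 30),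
 (nat_lit 6), (nat_lit 0), (nat_lit 1), (23, 37, 37), [33701165, 7090380], 22⟩,
  ⟨⟨-15, -32, 59, 50, -17, -20, -14, -44, -5⟩, (.cons (nat_lit 9581462) (nat_lit 22197656) (nat_lit 29916441)
 (nat_lit 1) (.cons (nat_lit 6142849) (nat_lit 705668) (nat_lit 5444970) (nat_lit 1) .nil)), (nat_lit 21),
 (nat_lit 4), (nat_lit 22), (nat_lit 1), (8, 44, 11), [19486828, 2100313], 17⟩,
  ⟨⟨15, -52, 16, 10, -17, -60, 46, -4, -11⟩, (.cons (nat_lit 28981199) (nat_lit 12195696) (nat_lit 3257152)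
 (nat_lit 1) (.cons (nat_lit 5321351) (nat_lit 6038442) (nat_lit 6456084) (nat_lit 1) .nil)), (nat_lit 16),
 (nat_lit 6), (nat_lit 25), (nat_lit 1), (14, 27, 50), [6455244, 5388467], 28⟩,
  ⟨⟨-39, -28, -17, 10, 33, -50, 18, -36, -37⟩, (.cons (nat_lit 35826729) (nat_lit 29446547) (nat_lit 38364224)
 (nat_lit 1) (.cons (nat_lit 4568767) (nat_lit 2110641) (nat_lit 6640120) (nat_lit 1) .nil)), (nat_lit 2),
 (nat_lit 28), (nat_lit 8), (nat_lit 1), (5, 49, 14), [29692976, 1703946], 14⟩,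
  ⟨⟨39, -28, -56, 10, -33, 40, -18, -36, -19⟩, (.cons (nat_lit 21317235) (nat_lit 29414907) (nat_lit 9024916)
 (nat_lit 1) (.cons (nat_lit 4653340) (nat_lit 4814268) (nat_lit 7475230) (nat_lit 1) .nil)), (nat_lit 22),
 (nat_lit 10), (nat_lit 21), (nat_lit 1), (49, 18, 10), [38010047, 1988448], 18⟩,
  mz,
  ⟨⟨43, 12, -63, -30, -17, -30, 30, -36, -23⟩, (.cons (nat_lit 35317311) (nat_lit 29090447) (nat_lit 8077005)
 (nat_lit 1) (.cons (nat_lit 5288912) (nat_lit 3162638) (nat_lit 4737897) (nat_lit 1) .nil)), (nat_lit 7),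
 (nat_lit 16), (nat_lit 11), (nat_lit 1), (2, 6, 47), [34448189, 3450906], 29⟩]

/-- Moves. -/
noncomputable def t1_3 : List Mv := [
  mz,
  mz,
  mz,
  mz,
  ⟨⟨51, 20, -47, 10, -47, -30, -2, 20, -47⟩, (.cons (nat_lit 36298024) (nat_lit 8706380) (nat_lit 26628135)
 (nat_lit 1) (.cons (nat_lit 2854593) (nat_lit 775833) (nat_lit 7029246) (nat_lit 1) .nil)), (nat_lit 23),
 (nat_lit 30), (nat_lit 29), (nat_lit 1), (24, 39, 24), [9761566, 3566787], 28⟩,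
  ⟨⟨51, -20, -47, 10, 47, -30, -2, -20, -47⟩, (.cons (nat_lit 40266185) (nat_lit 27561786) (nat_lit 15843865)
 (nat_lit 1) (.cons (nat_lit 2317390) (nat_lit 1858612) (nat_lit 2066768) (nat_lit 1) .nil)), (nat_lit 24),
 (nat_lit 23), (nat_lit 0), (nat_lit 1), (12, 46, 12), [2485570, 2513877], 30⟩,
  ⟨⟨25, -48, -36, 28, -5, 36, 40, 8, -47⟩, (.cons (nat_lit 37144020) (nat_lit 33817544) (nat_lit 30917925)
 (nat_lit 1) (.cons (nat_lit 4416162) (nat_lit 1396055) (nat_lit 5956047) (nat_lit 1) .nil)), (nat_lit 16),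
 (nat_lit 30), (nat_lit 10), (nat_lit 1), (37, 16, 38), [8526471, 7462547], 17⟩,
  mz,
  mz,
  ⟨⟨-33, -20, -32, -8, -45, 34, 24, -24, -49⟩, (.cons (nat_lit 1578801) (nat_lit 16683742) (nat_lit 22137674)
 (nat_lit 1) (.cons (nat_lit 3228686) (nat_lit 4341650) (nat_lit 1924880) (nat_lit 1) .nil)), (nat_lit 19),
 (nat_lit 29), (nat_lit 27), (nat_lit 1), (35, 39, 42), [23781556, 4305531], 6⟩,
  ⟨⟨-25, 48, -11, 28, -5, -64, -40, -8, -7⟩, (.cons (nat_lit 36507133) (nat_lit 2918158) (nat_lit 39937830)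
 (nat_lit 1) (.cons (nat_lit 4802036) (nat_lit 4587043) (nat_lit 1307970) (nat_lit 1) .nil)), (nat_lit 0),
 (nat_lit 4), (nat_lit 20), (nat_lit 1), (52, 52, 9), [9234338, 6769220], 7⟩,
  ⟨⟨15, -32, 44, 50, 17, -30, 14, -44, -19⟩, (.cons (nat_lit 17756027) (nat_lit 30588956) (nat_lit 35835815)
 (nat_lit 1) (.cons (nat_lit 6892726) (nat_lit 5526891) (nat_lit 446713) (nat_lit 1) .nil)), (nat_lit 16),
 (nat_lit 28), (nat_lit 12), (nat_lit 1), (29, 26, 20), [28352403, 3552138], 3⟩,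
  ⟨⟨-51, 20, 4, 10, 47, 20, 2, 20, -49⟩, (.cons (nat_lit 40353606) (nat_lit 37015955) (nat_lit 27652226)
 (nat_lit 1) (.cons (nat_lit 833274) (nat_lit 5718228) (nat_lit 726984) (nat_lit 1) .nil)), (nat_lit 30),
 (nat_lit 16), (nat_lit 2), (nat_lit 1), (48, 28, 48), [1802398, 1031367], 18⟩,
  mz,
  mz,
  ⟨⟨-51, -20, 4, 10, -47, 20, 2, -20, -49⟩, (.cons (nat_lit 6763572) (nat_lit 21536030) (nat_lit 1) (nat_lit
 3773084) (.cons (nat_lit 333195) (nat_lit 7121621) (nat_lit 3271353) (nat_lit 1) .nil)), (nat_lit 0), (nat_lit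
 14), (nat_lit 4), (nat_lit 1), (36, 21, 36), [2803968, 4265671], 23⟩,
  ⟨⟨31, -48, -27, -10, -17, 60, 46, 4, -11⟩, (.cons (nat_lit 18621508) (nat_lit 12683682) (nat_lit 25249655)
 (nat_lit 1) (.cons (nat_lit 5349148) (nat_lit 6333821) (nat_lit 5884235) (nat_lit 1) .nil)), (nat_lit 25),
 (nat_lit 5), (nat_lit 9), (nat_lit 1), (39, 37, 10), [19519559, 950374], 6⟩,
  ⟨⟨31, -48, -4, -10, -17, -50, 46, 4, -35⟩, (.cons (nat_lit 8235601) (nat_lit 27106946) (nat_lit 10547543)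
 (nat_lit 1) (.cons (nat_lit 2354198) (nat_lit 117428) (nat_lit 7130783) (nat_lit 1) .nil)), (nat_lit 23),
 (nat_lit 20), (nat_lit 17), (nat_lit 1), (18, 13, 25), [26891439, 2392756], 1⟩,
  ⟨⟨33, -20, -65, -8, 45, -26, -24, -24, -25⟩, (.cons (nat_lit 40353606) (nat_lit 38784213) (nat_lit 19364891)
 (nat_lit 1) (.cons (nat_lit 3749577) (nat_lit 5680641) (nat_lit 1961753) (nat_lit 1) .nil)), (nat_lit 30),
 (nat_lit 13), (nat_lit 30), (nat_lit 1), (7, 24, 19), [28782240, 400480], 15⟩,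
  mz,
  mz,
  ⟨⟨-33, 20, -32, -8, 45, 34, 24, 24, -49⟩, (.cons (nat_lit 37634808) (nat_lit 63749) (nat_lit 29020274)
 (nat_lit 1) (.cons (nat_lit 3135981) (nat_lit 3104965) (nat_lit 2723928) (nat_lit 1) .nil)), (nat_lit 28),
 (nat_lit 2), (nat_lit 19), (nat_lit 1), (47, 13, 14), [14660419, 6041108], 28⟩,
  ⟨⟨45, 28, -49, 28, -45, -14, 0, 0, -53⟩, (.cons (nat_lit 17018771) (nat_lit 37390719) (nat_lit 1) (nat_lit
 23334836) (.cons (nat_lit 3517226) (nat_lit 6386058) (nat_lit 1235851) (nat_lit 1) .nil)), (nat_lit 30),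
 (nat_lit 4), (nat_lit 8), (nat_lit 1), (24, 22, 0), [30616445, 4257688], 18⟩,
  mz,
  ⟨⟨43, -12, 20, 30, -17, -60, 30, 36, -7⟩, (.cons (nat_lit 10044337) (nat_lit 18867781) (nat_lit 2909437)
 (nat_lit 1) (.cons (nat_lit 3317421) (nat_lit 6085341) (nat_lit 1862883) (nat_lit 1) .nil)), (nat_lit 20),
 (nat_lit 7), (nat_lit 29), (nat_lit 1), (37, 48, 48), [21923120, 2743461], 4⟩,
  mz,
  ⟨⟨-25, -48, -11, 28, 5, -64, -40, 8, -7⟩, (.cons (nat_lit 11281581) (nat_lit 14808401) (nat_lit 8677937)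
 (nat_lit 1) (.cons (nat_lit 6047124) (nat_lit 1824961) (nat_lit 1) (nat_lit 4001235) .nil)), (nat_lit 20),
 (nat_lit 21), (nat_lit 24), (nat_lit 1), (2, 2, 35), [25049431, 351296], 15⟩,
  mz,
  ⟨⟨-1, -48, 37, 52, 5, -16, 8, -40, -31⟩, (.cons (nat_lit 30222932) (nat_lit 17398145) (nat_lit 12507064)
 (nat_lit 1) (.cons (nat_lit 597646) (nat_lit 6142929) (nat_lit 2271106) (nat_lit 1) .nil)), (nat_lit 25),
 (nat_lit 3), (nat_lit 28), (nat_lit 1), (29, 29, 33), [19910818, 3950918], 27⟩,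
  ⟨⟨-13, 48, 40, 30, -17, 30, 30, 36, -23⟩, (.cons (nat_lit 40353606) (nat_lit 14905193) (nat_lit 33996050)
 (nat_lit 1) (.cons (nat_lit 7515267) (nat_lit 2016470) (nat_lit 5700860) (nat_lit 1) .nil)), (nat_lit 30),
 (nat_lit 4), (nat_lit 6), (nat_lit 1), (42, 5, 5), [33342798, 4558043], 8⟩,
  mz,
  ⟨⟨45, -28, -49, 28, 45, -14, 0, 0, -53⟩, (.cons (nat_lit 25864700) (nat_lit 38964569) (nat_lit 24042333)
 (nat_lit 1) (.cons (nat_lit 684971) (nat_lit 5174550) (nat_lit 2796875) (nat_lit 1) .nil)), (nat_lit 1),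
 (nat_lit 17), (nat_lit 28), (nat_lit 1), (39, 49, 0), [32485722, 6405699], 3⟩,
  mz,
  ⟨⟨-39, 28, -17, 10, -33, -50, 18, 36, -37⟩, (.cons (nat_lit 33892694) (nat_lit 11995324) (nat_lit 2853738)
 (nat_lit 1) (.cons (nat_lit 5420005) (nat_lit 7422346) (nat_lit 1619287) (nat_lit 1) .nil)), (nat_lit 26),
 (nat_lit 14), (nat_lit 28), (nat_lit 1), (43, 8, 25), [26455334, 3950882], 23⟩,
  mz,
  mz,
  ⟨⟨-9, 8, -59, -52, 5, 36, -8, -40, -23⟩, (.cons (nat_lit 6977724) (nat_lit 26781592) (nat_lit 32879606)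
 (nat_lit 1) (.cons (nat_lit 2550627) (nat_lit 133167) (nat_lit 5224418) (nat_lit 1) .nil)), (nat_lit 14),
 (nat_lit 16), (nat_lit 5), (nat_lit 1), (2, 41, 43), [15213188, 5920928], 26⟩,
  ⟨⟨-1, 48, 37, 52, -5, -16, 8, 40, -31⟩, (.cons (nat_lit 11841982) (nat_lit 10430410) (nat_lit 27064309)
 (nat_lit 1) (.cons (nat_lit 5119050) (nat_lit 6142234) (nat_lit 3161272) (nat_lit 1) .nil)), (nat_lit 0),
 (nat_lit 10), (nat_lit 8), (nat_lit 1), (26, 26, 4), [40093355, 7145290], 7⟩,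
  ⟨⟨-57, 8, 37, -10, -33, -40, -18, 36, -19⟩, (.cons (nat_lit 27961223) (nat_lit 29231925) (nat_lit 12312126)
 (nat_lit 1) (.cons (nat_lit 130959) (nat_lit 4780167) (nat_lit 5329946) (nat_lit 1) .nil)), (nat_lit 21),
 (nat_lit 25), (nat_lit 19), (nat_lit 1), (40, 47, 21), [30718180, 101225], 6⟩,
  ⟨⟨25, 48, -36, 28, 5, 36, 40, -8, -47⟩, (.cons (nat_lit 24782781) (nat_lit 36780715) (nat_lit 6276808)
 (nat_lit 1) (.cons (nat_lit 2010304) (nat_lit 2857557) (nat_lit 5963828) (nat_lit 1) .nil)), (nat_lit 5),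
 (nat_lit 26), (nat_lit 22), (nat_lit 1), (34, 19, 12), [16349197, 2783123], 19⟩,
  ⟨⟨-9, -8, -59, -52, -5, 36, -8, 40, -23⟩, (.cons (nat_lit 21142182) (nat_lit 8954886) (nat_lit 5069919)
 (nat_lit 1) (.cons (nat_lit 2833193) (nat_lit 3281047) (nat_lit 448595) (nat_lit 1) .nil)), (nat_lit 27),
 (nat_lit 15), (nat_lit 25), (nat_lit 1), (29, 38, 14), [26553234, 318044], 1⟩,
  ⟨⟨31, 48, -4, -10, 17, -50, 46, -4, -35⟩, (.cons (nat_lit 34648037) (nat_lit 16383056) (nat_lit 14334736)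
 (nat_lit 1) (.cons (nat_lit 6883105) (nat_lit 570559) (nat_lit 2830267) (nat_lit 1) .nil)), (nat_lit 2),
 (nat_lit 6), (nat_lit 7), (nat_lit 1), (15, 2, 12), [10416270, 1037093], 12⟩,
  ⟨⟨33, 20, -65, -8, -45, -26, -24, 24, -25⟩, (.cons (nat_lit 37289538) (nat_lit 33918715) (nat_lit 1) (nat_lit
 10752665) (.cons (nat_lit 7597119) (nat_lit 572061) (nat_lit 7322141) (nat_lit 1) .nil)), (nat_lit 3),
 (nat_lit 7), (nat_lit 15), (nat_lit 1), (19, 50, 44), [5227748, 5476254], 19⟩,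
  ⟨⟨15, 32, 44, 50, -17, -30, 14, 44, -19⟩, (.cons (nat_lit 38370230) (nat_lit 18249926) (nat_lit 32363846)
 (nat_lit 1) (.cons (nat_lit 5743835) (nat_lit 6837522) (nat_lit 6724131) (nat_lit 1) .nil)), (nat_lit 15),
 (nat_lit 13), (nat_lit 21), (nat_lit 1), (27, 37, 4), [6380613, 929430], 28⟩,
  ⟨⟨-15, 32, 59, 50, 17, -20, -14, 44, -5⟩, (.cons (nat_lit 17715554) (nat_lit 9793638) (nat_lit 12768709)
 (nat_lit 1) (.cons (nat_lit 7281819) (nat_lit 7138151) (nat_lit 4780138) (nat_lit 1) .nil)), (nat_lit 25),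
 (nat_lit 20), (nat_lit 10), (nat_lit 1), (6, 33, 48), [30138329, 3977989], 25⟩,
  mz,
  ⟨⟨43, 12, 20, 30, 17, -60, 30, -36, -7⟩, (.cons (nat_lit 40353606) (nat_lit 7694426) (nat_lit 9765969)
 (nat_lit 1) (.cons (nat_lit 3895227) (nat_lit 4908199) (nat_lit 84680) (nat_lit 1) .nil)), (nat_lit 30),
 (nat_lit 6), (nat_lit 0), (nat_lit 1), (23, 37, 37), [33701165, 7090380], 22⟩,
  ⟨⟨-15, -32, 59, 50, -17, -20, -14, -44, -5⟩, (.cons (nat_lit 9581462) (nat_lit 22197656) (nat_lit 29916441)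
 (nat_lit 1) (.cons (nat_lit 6142849) (nat_lit 705668) (nat_lit 5444970) (nat_lit 1) .nil)), (nat_lit 21),
 (nat_lit 4), (nat_lit 22), (nat_lit 1), (8, 44, 11), [19486828, 2100313], 17⟩,
  ⟨⟨31, 48, -27, -10, 17, 60, 46, -4, -11⟩, (.cons (nat_lit 23598271) (nat_lit 8659027) (nat_lit 1558264)
 (nat_lit 1) (.cons (nat_lit 7467758) (nat_lit 5654516) (nat_lit 2963587) (nat_lit 1) .nil)), (nat_lit 16),
 (nat_lit 18), (nat_lit 13), (nat_lit 1), (36, 26, 50), [39562172, 3097046], 9⟩,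
  ⟨⟨-39, -28, -17, 10, 33, -50, 18, -36, -37⟩, (.cons (nat_lit 35826729) (nat_lit 29446547) (nat_lit 38364224)
 (nat_lit 1) (.cons (nat_lit 4568767) (nat_lit 2110641) (nat_lit 6640120) (nat_lit 1) .nil)), (nat_lit 2),
 (nat_lit 28), (nat_lit 8), (nat_lit 1), (5, 49, 14), [29692976, 1703946], 14⟩,
  ⟨⟨-57, -8, 37, -10, 33, -40, -18, -36, -19⟩, (.cons (nat_lit 8132349) (nat_lit 5899057) (nat_lit 30853869)
 (nat_lit 1) (.cons (nat_lit 4426713) (nat_lit 1222364) (nat_lit 4618925) (nat_lit 1) .nil)), (nat_lit 16),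
 (nat_lit 17), (nat_lit 27), (nat_lit 1), (14, 35, 10), [3059558, 6796120], 19⟩,
  mz,
  ⟨⟨-13, -48, 40, 30, 17, 30, 30, -36, -23⟩, (.cons (nat_lit 11768262) (nat_lit 26402346) (nat_lit 25862229)
 (nat_lit 1) (.cons (nat_lit 5668415) (nat_lit 7659635) (nat_lit 3779191) (nat_lit 1) .nil)), (nat_lit 20),
 (nat_lit 30), (nat_lit 14), (nat_lit 1), (45, 47, 47), [39843396, 2128245], 27⟩]

/-- Moves. -/
noncomputable def t4_1 : List Mv := [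
  mz,
  ⟨⟨3, 20, 29, -4, 25, -18, 26, 8, -7⟩, (.cons (nat_lit 32164367) (nat_lit 32102896) (nat_lit 2529029) (nat_lit
 1) (.cons (nat_lit 2980221) (nat_lit 5857247) (nat_lit 4255619) (nat_lit 1) .nil)), (nat_lit 6), (nat_lit 0),
 (nat_lit 0), (nat_lit 0), (26, 17, 29), [25479085, 7003689], 0⟩,
  ⟨⟨23, 12, -36, -4, -25, -18, 26, -8, -7⟩, (.cons (nat_lit 36484861) (nat_lit 24878627) (nat_lit 39166361)
 (nat_lit 1) (.cons (nat_lit 977141) (nat_lit 6619959) (nat_lit 1500156) (nat_lit 1) .nil)), (nat_lit 28),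
 (nat_lit 0), (nat_lit 0), (nat_lit 0), (1, 16, 20), [576178, 4945551], 0⟩,
  mz,
  ⟨⟨27, 16, -28, -4, -15, -28, -6, 24, -11⟩, (.cons (nat_lit 20261629) (nat_lit 31133041) (nat_lit 8771062)
 (nat_lit 1) (.cons (nat_lit 7208153) (nat_lit 2737873) (nat_lit 5814271) (nat_lit 1) .nil)), (nat_lit 14),
 (nat_lit 0), (nat_lit 0), (nat_lit 0), (15, 15, 7), [38016924, 4593325], 0⟩,
  mz,
  ⟨⟨1, -12, 35, -16, -25, -2, 22, -16, -5⟩, (.cons (nat_lit 9271775) (nat_lit 10667315) (nat_lit 1) (nat_lit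
 28054047) (.cons (nat_lit 2924215) (nat_lit 2608472) (nat_lit 4153677) (nat_lit 1) .nil)), (nat_lit 2),
 (nat_lit 0), (nat_lit 0), (nat_lit 0), (1, 15, 22), [40101793, 2186429], 0⟩,
  mz,
  ⟨⟨-31, 0, 0, -10, -19, 30, -4, -20, -19⟩, (.cons (nat_lit 12164646) (nat_lit 5259980) (nat_lit 2726627)
 (nat_lit 1) (.cons (nat_lit 3716652) (nat_lit 3929480) (nat_lit 6254845) (nat_lit 1) .nil)), (nat_lit 13),
 (nat_lit 0), (nat_lit 0), (nat_lit 0), (0, 26, 29), [14611719, 2682803], 0⟩,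
  mz,
  mz,
  mz,
  mz,
  ⟨⟨-31, 0, 0, 10, -19, -30, -4, 20, -19⟩, (.cons (nat_lit 32776578) (nat_lit 23167512) (nat_lit 16736214)
 (nat_lit 1) (.cons (nat_lit 3203693) (nat_lit 4560848) (nat_lit 7171648) (nat_lit 1) .nil)), (nat_lit 8),
 (nat_lit 0), (nat_lit 0), (nat_lit 0), (0, 3, 5), [17799591, 1177379], 0⟩,
  ⟨⟨-33, -8, 17, -4, 15, -28, -6, -24, -11⟩, (.cons (nat_lit 14116796) (nat_lit 19533125) (nat_lit 38364224)
 (nat_lit 1) (.cons (nat_lit 6416043) (nat_lit 5305205) (nat_lit 2203476) (nat_lit 1) .nil)), (nat_lit 27),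
 (nat_lit 0), (nat_lit 0), (nat_lit 0), (14, 28, 11), [5269835, 2514555], 0⟩,
  ⟨⟨3, 20, -32, 4, -25, -22, 26, 8, -19⟩, (.cons (nat_lit 14217572) (nat_lit 13654861) (nat_lit 22070972)
 (nat_lit 1) (.cons (nat_lit 1263813) (nat_lit 5245265) (nat_lit 6032626) (nat_lit 1) .nil)), (nat_lit 26),
 (nat_lit 0), (nat_lit 0), (nat_lit 0), (10, 3, 4), [11537028, 259114], 0⟩,
  mz,
  mz,
  ⟨⟨21, -4, 19, 16, 25, -18, 22, -16, -17⟩, (.cons (nat_lit 37556785) (nat_lit 14293012) (nat_lit 34870043)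
 (nat_lit 1) (.cons (nat_lit 6025426) (nat_lit 7678308) (nat_lit 1687791) (nat_lit 1) .nil)), (nat_lit 23),
 (nat_lit 0), (nat_lit 0), (nat_lit 0), (7, 26, 28), [7407119, 912877], 0⟩,
  ⟨⟨-9, 8, -31, -10, -29, 0, 20, -4, -31⟩, (.cons (nat_lit 19128614) (nat_lit 5587998) (nat_lit 36008619)
 (nat_lit 1) (.cons (nat_lit 7619447) (nat_lit 3659220) (nat_lit 6647052) (nat_lit 1) .nil)), (nat_lit 20),
 (nat_lit 0), (nat_lit 0), (nat_lit 0), (2, 16, 30), [39465156, 6359326], 0⟩,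
  ⟨⟨-29, -12, 29, 10, -29, -10, -20, -4, -11⟩, (.cons (nat_lit 22264677) (nat_lit 1913587) (nat_lit 11974169)
 (nat_lit 1) (.cons (nat_lit 295230) (nat_lit 5795034) (nat_lit 805626) (nat_lit 1) .nil)), (nat_lit 19),
 (nat_lit 0), (nat_lit 0), (nat_lit 0), (6, 30, 2), [7258331, 4626434], 0⟩,
  ⟨⟨-27, 16, -1, 4, -15, -32, 6, 24, -17⟩, (.cons (nat_lit 9159805) (nat_lit 16918148) (nat_lit 34594148)
 (nat_lit 1) (.cons (nat_lit 3405640) (nat_lit 1863882) (nat_lit 1150936) (nat_lit 1) .nil)), (nat_lit 14),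
 (nat_lit 0), (nat_lit 0), (nat_lit 0), (2, 2, 3), [13204395, 1733222], 0⟩,
  ⟨⟨-29, 12, 29, 10, 29, -10, -20, 4, -11⟩, (.cons (nat_lit 8237471) (nat_lit 12306891) (nat_lit 12265037)
 (nat_lit 1) (.cons (nat_lit 2582573) (nat_lit 1038701) (nat_lit 578812) (nat_lit 1) .nil)), (nat_lit 19),
 (nat_lit 0), (nat_lit 0), (nat_lit 0), (4, 20, 22), [22965998, 2744216], 0⟩,
  ⟨⟨23, 12, 13, 4, 25, -22, 26, -8, -19⟩, (.cons (nat_lit 14378396) (nat_lit 3358856) (nat_lit 1) (nat_lit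
 7847840) (.cons (nat_lit 2685079) (nat_lit 647986) (nat_lit 6139456) (nat_lit 1) .nil)), (nat_lit 18),
 (nat_lit 0), (nat_lit 0), (nat_lit 0), (23, 4, 26), [32001240, 4432847], 0⟩,
  ⟨⟨-9, -8, -31, -10, 29, 0, 20, 4, -31⟩, (.cons (nat_lit 13481465) (nat_lit 161208) (nat_lit 40278818)
 (nat_lit 1) (.cons (nat_lit 1456966) (nat_lit 697035) (nat_lit 7327412) (nat_lit 1) .nil)), (nat_lit 20),
 (nat_lit 0), (nat_lit 0), (nat_lit 0), (24, 6, 19), [13419783, 2991241], 0⟩,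
  ⟨⟨31, 0, -31, -10, 19, -20, 4, -20, -23⟩, (.cons (nat_lit 30921157) (nat_lit 9947874) (nat_lit 31851388)
 (nat_lit 1) (.cons (nat_lit 4609180) (nat_lit 7212311) (nat_lit 5110496) (nat_lit 1) .nil)), (nat_lit 8),
 (nat_lit 0), (nat_lit 0), (nat_lit 0), (0, 22, 16), [9131316, 7714002], 0⟩,
  ⟨⟨21, 4, -40, -16, 25, -2, 22, 16, -5⟩, (.cons (nat_lit 31425334) (nat_lit 26997003) (nat_lit 1555995)
 (nat_lit 1) (.cons (nat_lit 7593770) (nat_lit 1460494) (nat_lit 6659198) (nat_lit 1) .nil)), (nat_lit 15),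
 (nat_lit 0), (nat_lit 0), (nat_lit 0), (10, 16, 9), [39973600, 1446442], 0⟩,
  ⟨⟨-27, -16, -1, 4, 15, -32, 6, -24, -17⟩, (.cons (nat_lit 4768149) (nat_lit 885301) (nat_lit 34639826)
 (nat_lit 1) (.cons (nat_lit 4545745) (nat_lit 1954030) (nat_lit 4848134) (nat_lit 1) .nil)), (nat_lit 14),
 (nat_lit 0), (nat_lit 0), (nat_lit 0), (15, 15, 7), [35263869, 7461843], 0⟩,
  ⟨⟨1, 12, -36, -16, 25, 18, 22, 16, -17⟩, (.cons (nat_lit 29035491) (nat_lit 29503774) (nat_lit 1) (nat_lit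
 24118976) (.cons (nat_lit 3797495) (nat_lit 634839) (nat_lit 5577489) (nat_lit 1) .nil)), (nat_lit 2),
 (nat_lit 0), (nat_lit 0), (nat_lit 0), (19, 6, 15), [2994883, 7062880], 0⟩,
  ⟨⟨31, 0, -31, -10, -19, -20, 4, 20, -23⟩, (.cons (nat_lit 12294980) (nat_lit 23752341) (nat_lit 18281174)
 (nat_lit 1) (.cons (nat_lit 3377534) (nat_lit 3009705) (nat_lit 3746162) (nat_lit 1) .nil)), (nat_lit 8),
 (nat_lit 0), (nat_lit 0), (nat_lit 0), (0, 20, 23), [38772893, 170178], 0⟩]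

/-- Moves. -/
noncomputable def t4_3 : List Mv := [
  mz,
  ⟨⟨3, 20, 29, -4, 25, -18, 26, 8, -7⟩, (.cons (nat_lit 32164367) (nat_lit 32102896) (nat_lit 2529029) (nat_lit
 1) (.cons (nat_lit 2980221) (nat_lit 5857247) (nat_lit 4255619) (nat_lit 1) .nil)), (nat_lit 6), (nat_lit 0),
 (nat_lit 0), (nat_lit 0), (26, 17, 29), [25479085, 7003689], 0⟩,
  ⟨⟨3, -20, 29, -4, -25, -18, 26, -8, -7⟩, (.cons (nat_lit 11553871) (nat_lit 20145716) (nat_lit 34800251)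
 (nat_lit 1) (.cons (nat_lit 4380147) (nat_lit 4587426) (nat_lit 5320142) (nat_lit 1) .nil)), (nat_lit 6),
 (nat_lit 0), (nat_lit 0), (nat_lit 0), (19, 16, 20), [13168156, 6395293], 0⟩,
  mz,
  ⟨⟨-33, 8, 17, 4, 15, 28, -6, 24, -11⟩, (.cons (nat_lit 15479605) (nat_lit 2038868) (nat_lit 14434936)
 (nat_lit 1) (.cons (nat_lit 992235) (nat_lit 468884) (nat_lit 7844801) (nat_lit 1) .nil)), (nat_lit 21),
 (nat_lit 0), (nat_lit 0), (nat_lit 0), (23, 16, 7), [10489497, 366412], 0⟩,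
  mz,
  ⟨⟨1, -12, 35, -16, -25, -2, 22, -16, -5⟩, (.cons (nat_lit 9271775) (nat_lit 10667315) (nat_lit 1) (nat_lit
 28054047) (.cons (nat_lit 2924215) (nat_lit 2608472) (nat_lit 4153677) (nat_lit 1) .nil)), (nat_lit 2),
 (nat_lit 0), (nat_lit 0), (nat_lit 0), (1, 15, 22), [40101793, 2186429], 0⟩,
  mz,
  ⟨⟨27, -20, -19, -10, -19, 30, -4, -20, -19⟩, (.cons (nat_lit 15846134) (nat_lit 35561325) (nat_lit 21446300)
 (nat_lit 1) (.cons (nat_lit 630029) (nat_lit 7400551) (nat_lit 2087541) (nat_lit 1) .nil)), (nat_lit 29),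
 (nat_lit 0), (nat_lit 0), (nat_lit 0), (29, 26, 29), [4953147, 6441007], 0⟩,
  mz,
  mz,
  mz,
  mz,
  ⟨⟨27, 20, -19, -10, 19, 30, -4, 20, -19⟩, (.cons (nat_lit 3666244) (nat_lit 18421602) (nat_lit 30855787)
 (nat_lit 1) (.cons (nat_lit 7866840) (nat_lit 6779521) (nat_lit 7271350) (nat_lit 1) .nil)), (nat_lit 29),
 (nat_lit 0), (nat_lit 0), (nat_lit 0), (5, 28, 5), [6716029, 808296], 0⟩,
  ⟨⟨-33, -8, 17, 4, -15, 28, -6, -24, -11⟩, (.cons (nat_lit 30173607) (nat_lit 13534027) (nat_lit 36780973)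
 (nat_lit 1) (.cons (nat_lit 3834352) (nat_lit 7710324) (nat_lit 4926942) (nat_lit 1) .nil)), (nat_lit 21),
 (nat_lit 0), (nat_lit 0), (nat_lit 0), (14, 3, 11), [4101017, 287269], 0⟩,
  ⟨⟨23, -12, 13, 4, -25, -22, 26, 8, -19⟩, (.cons (nat_lit 33496171) (nat_lit 563819) (nat_lit 6418279)
 (nat_lit 1) (.cons (nat_lit 3499761) (nat_lit 4843916) (nat_lit 4817436) (nat_lit 1) .nil)), (nat_lit 18),
 (nat_lit 0), (nat_lit 0), (nat_lit 0), (25, 3, 4), [23662673, 5696553], 0⟩,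
  mz,
  mz,
  ⟨⟨21, -4, 19, 16, 25, -18, 22, -16, -17⟩, (.cons (nat_lit 37556785) (nat_lit 14293012) (nat_lit 34870043)
 (nat_lit 1) (.cons (nat_lit 6025426) (nat_lit 7678308) (nat_lit 1687791) (nat_lit 1) .nil)), (nat_lit 23),
 (nat_lit 0), (nat_lit 0), (nat_lit 0), (7, 26, 28), [7407119, 912877], 0⟩,
  ⟨⟨-9, 8, -31, 10, 29, 0, 20, -4, -31⟩, (.cons (nat_lit 4118522) (nat_lit 27444462) (nat_lit 13455146)
 (nat_lit 1) (.cons (nat_lit 4657452) (nat_lit 1194134) (nat_lit 1617107) (nat_lit 1) .nil)), (nat_lit 22),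
 (nat_lit 0), (nat_lit 0), (nat_lit 0), (2, 15, 30), [21158182, 4070526], 0⟩,
  ⟨⟨9, 8, -40, 10, -29, -10, -20, -4, -11⟩, (.cons (nat_lit 40353606) (nat_lit 7352761) (nat_lit 22472867)
 (nat_lit 1) (.cons (nat_lit 7890480) (nat_lit 5999369) (nat_lit 6824328) (nat_lit 1) .nil)), (nat_lit 20),
 (nat_lit 0), (nat_lit 0), (nat_lit 0), (27, 30, 2), [34539249, 5296547], 0⟩,
  ⟨⟨33, 8, -16, 4, -15, -32, 6, 24, -17⟩, (.cons (nat_lit 30795201) (nat_lit 5175700) (nat_lit 22564781)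
 (nat_lit 1) (.cons (nat_lit 1370998) (nat_lit 791577) (nat_lit 7597694) (nat_lit 1) .nil)), (nat_lit 27),
 (nat_lit 0), (nat_lit 0), (nat_lit 0), (1, 2, 3), [9196321, 572533], 0⟩,
  ⟨⟨9, -8, -40, 10, 29, -10, -20, 4, -11⟩, (.cons (nat_lit 36006064) (nat_lit 29911502) (nat_lit 16598338)
 (nat_lit 1) (.cons (nat_lit 5650697) (nat_lit 4922589) (nat_lit 7665161) (nat_lit 1) .nil)), (nat_lit 20),
 (nat_lit 0), (nat_lit 0), (nat_lit 0), (18, 20, 22), [36200331, 7357378], 0⟩,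
  ⟨⟨23, 12, 13, 4, 25, -22, 26, -8, -19⟩, (.cons (nat_lit 14378396) (nat_lit 3358856) (nat_lit 1) (nat_lit
 7847840) (.cons (nat_lit 2685079) (nat_lit 647986) (nat_lit 6139456) (nat_lit 1) .nil)), (nat_lit 18),
 (nat_lit 0), (nat_lit 0), (nat_lit 0), (23, 4, 26), [32001240, 4432847], 0⟩,
  ⟨⟨-9, -8, -31, 10, -29, 0, 20, 4, -31⟩, (.cons (nat_lit 19756815) (nat_lit 7107519) (nat_lit 21451554)
 (nat_lit 1) (.cons (nat_lit 3823322) (nat_lit 2138098) (nat_lit 4510157) (nat_lit 1) .nil)), (nat_lit 22),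
 (nat_lit 0), (nat_lit 0), (nat_lit 0), (24, 25, 19), [28350647, 14590], 0⟩,
  ⟨⟨31, 0, -31, -10, 19, -20, 4, -20, -23⟩, (.cons (nat_lit 30921157) (nat_lit 9947874) (nat_lit 31851388)
 (nat_lit 1) (.cons (nat_lit 4609180) (nat_lit 7212311) (nat_lit 5110496) (nat_lit 1) .nil)), (nat_lit 8),
 (nat_lit 0), (nat_lit 0), (nat_lit 0), (0, 22, 16), [9131316, 7714002], 0⟩,
  ⟨⟨1, 12, 35, -16, 25, -2, 22, 16, -5⟩, (.cons (nat_lit 30028303) (nat_lit 7822439) (nat_lit 9435223) (nat_lit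
 1) (.cons (nat_lit 7568920) (nat_lit 798716) (nat_lit 1354731) (nat_lit 1) .nil)), (nat_lit 2), (nat_lit 0),
 (nat_lit 0), (nat_lit 0), (30, 16, 9), [20606343, 1905023], 0⟩,
  ⟨⟨33, -8, -16, 4, 15, -32, 6, -24, -17⟩, (.cons (nat_lit 40353606) (nat_lit 36726371) (nat_lit 6005654)
 (nat_lit 1) (.cons (nat_lit 7890480) (nat_lit 6694701) (nat_lit 681856) (nat_lit 1) .nil)), (nat_lit 27),
 (nat_lit 0), (nat_lit 0), (nat_lit 0), (23, 15, 7), [17307602, 3265605], 0⟩,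
  ⟨⟨21, 4, 19, 16, -25, -18, 22, 16, -17⟩, (.cons (nat_lit 36491422) (nat_lit 5241866) (nat_lit 11162450)
 (nat_lit 1) (.cons (nat_lit 3514891) (nat_lit 3237729) (nat_lit 925336) (nat_lit 1) .nil)), (nat_lit 23),
 (nat_lit 0), (nat_lit 0), (nat_lit 0), (27, 25, 15), [14914423, 4097932], 0⟩,
  ⟨⟨31, 0, -31, -10, -19, -20, 4, 20, -23⟩, (.cons (nat_lit 12294980) (nat_lit 23752341) (nat_lit 18281174)
 (nat_lit 1) (.cons (nat_lit 3377534) (nat_lit 3009705) (nat_lit 3746162) (nat_lit 1) .nil)), (nat_lit 8),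
 (nat_lit 0), (nat_lit 0), (nat_lit 0), (0, 20, 23), [38772893, 170178], 0⟩]

/-- All the moves. -/
noncomputable def tabs : List (List (List Mv)) := [[[], t0_1, [], t0_3], [[], t1_1, [], t1_3], [], [], [[], t4_1, [], t4_3]]

/-- Subtrie. -/
noncomputable def T1 : Tr := (.ev (nat_lit 20) (nat_lit 50331666) (.nd (nat_lit 33) (.br (nat_lit 31) (.br
 (nat_lit 16) (.br (nat_lit 10) (.br (nat_lit 6) (.br (nat_lit 5) (.ch (nat_lit 4) (.ev (nat_lit 52) (nat_lit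
 751337476) (.ev (nat_lit 436) (nat_lit 268435456) (.nd (nat_lit 1344) (.br (nat_lit 3) (.br (nat_lit 1) (.ch
 (nat_lit 0) (.ev (nat_lit 1360) (nat_lit 24896) (.ev (nat_lit 1716) (nat_lit 262144) (.nd (nat_lit 1728) (.br
 (nat_lit 4) (.ch (nat_lit 1) (.ev (nat_lit 1744) (nat_lit 2097152) (.ev (nat_lit 1757) (nat_lit 1048576)
 .dd))) (.ch (nat_lit 4) (.fin (nat_lit 576465700116709948)))))))) (.ch (nat_lit 1) (.ev (nat_lit 1360)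
 (nat_lit 2105664) (.ev (nat_lit 1600) (nat_lit 16384) (.ev (nat_lit 1716) (nat_lit 262144) (.ev (nat_lit 1725)
 (nat_lit 1048576) .dd)))))) (.br (nat_lit 6) (.ch (nat_lit 3) (.ev (nat_lit 1360) (nat_lit 1335552) (.ev
 (nat_lit 1716) (nat_lit 64) (.ev (nat_lit 1725) (nat_lit 2097152) .dd)))) (.ch (nat_lit 6) (.ev (nat_lit 1360)
 (nat_lit 1327168) (.ev (nat_lit 1716) (nat_lit 2097152) (.nd (nat_lit 1728) (.br (nat_lit 6) (.ch (nat_lit 1)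
 (.ev (nat_lit 1744) (nat_lit 8448) .dd)) (.ch (nat_lit 6) (.fin (nat_lit 576462401572389443)))))))))))))) (.ch
 (nat_lit 5) (.ev (nat_lit 52) (nat_lit 11567172) (.ev (nat_lit 308) (nat_lit 268435456) (.ev (nat_lit 340)
 (nat_lit 134217728) (.ev (nat_lit 372) (nat_lit 67108864) (.nd (nat_lit 1344) (.br (nat_lit 3) (.br (nat_lit
 1) (.ch (nat_lit 0) (.ev (nat_lit 1360) (nat_lit 549120) (.ev (nat_lit 1600) (nat_lit 262144) (.ev (nat_lit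
 1716) (nat_lit 4194304) (.ev (nat_lit 1725) (nat_lit 536870912) .dd))))) (.ch (nat_lit 1) (.ev (nat_lit 1360)
 (nat_lit 541335808) (.ev (nat_lit 1716) (nat_lit 16384) (.ev (nat_lit 1725) (nat_lit 524288) .dd))))) (.br
 (nat_lit 6) (.ch (nat_lit 3) (.ev (nat_lit 1360) (nat_lit 286976) (.ev (nat_lit 1716) (nat_lit 536870912) (.nd
 (nat_lit 1728) (.br (nat_lit 6) (.ch (nat_lit 1) (.ev (nat_lit 1744) (nat_lit 524288) (.ev (nat_lit 1757)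
 (nat_lit 4194304) .dd))) (.ch (nat_lit 6) (.fin (nat_lit 576461302072295996)))))))) (.ch (nat_lit 6) (.ev
 (nat_lit 1360) (nat_lit 541343744) (.ev (nat_lit 1716) (nat_lit 524288) (.nd (nat_lit 1728) (.br (nat_lit 6)
 (.ch (nat_lit 0) (.ev (nat_lit 1744) (nat_lit 8448) .dd)) (.ch (nat_lit 6) (.fin (nat_lit
 576462401572389443))))))))))))))))) (.br (nat_lit 9) (.ch (nat_lit 6) (.ev (nat_lit 52) (nat_lit 671916036)
 (.ev (nat_lit 116) (nat_lit 4194304) (.ev (nat_lit 276) (nat_lit 1048576) (.ev (nat_lit 308) (nat_lit 16384)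
 (.ev (nat_lit 436) (nat_lit 8388608) (.ev (nat_lit 688) (nat_lit 320) (.nd (nat_lit 1344) (.br (nat_lit 2)
 (.ch (nat_lit 0) (.ev (nat_lit 1360) (nat_lit 69206016) (.ev (nat_lit 1373) (nat_lit 268435456) .dd))) (.br
 (nat_lit 6) (.ch (nat_lit 2) (.ev (nat_lit 1360) (nat_lit 337641472) .dd)) (.ch (nat_lit 6) (.ev (nat_lit
 1360) (nat_lit 268435456) (.ev (nat_lit 1520) (nat_lit 2097152) (.ev (nat_lit 1533) (nat_lit 67108864)
 .dd)))))))))))))) (.ch (nat_lit 9) (.ev (nat_lit 52) (nat_lit 948183300) (.ev (nat_lit 320) (nat_lit 75022400)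
 .dd))))) (.br (nat_lit 12) (.br (nat_lit 11) (.ch (nat_lit 10) (.ev (nat_lit 52) (nat_lit 12624192) (.ev
 (nat_lit 212) (nat_lit 262144) (.ev (nat_lit 800) (nat_lit 2097152) (.ev (nat_lit 928) (nat_lit 1048580) (.nd
 (nat_lit 1344) (.br (nat_lit 2) (.br (nat_lit 1) (.ch (nat_lit 0) (.ev (nat_lit 1360) (nat_lit 67633152) (.ev
 (nat_lit 1552) (nat_lit 671088640) (.ev (nat_lit 1664) (nat_lit 268451840) .dd)))) (.ch (nat_lit 1) (.ev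
 (nat_lit 1360) (nat_lit 469762048) (.ev (nat_lit 1392) (nat_lit 524288) (.ev (nat_lit 1552) (nat_lit
 536870912) (.ev (nat_lit 1565) (nat_lit 16384) .dd)))))) (.br (nat_lit 3) (.ch (nat_lit 2) (.ev (nat_lit 1360)
 (nat_lit 940048384) (.ev (nat_lit 1440) (nat_lit 67125248) .dd))) (.br (nat_lit 6) (.ch (nat_lit 3) (.ev
 (nat_lit 1360) (nat_lit 469778432) (.ev (nat_lit 1440) (nat_lit 537395200) .dd))) (.ch (nat_lit 6) (.ev
 (nat_lit 1360) (nat_lit 470286336) (.ev (nat_lit 1552) (nat_lit 16384) (.ev (nat_lit 1565) (nat_lit 536870912)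
 .dd))))))))))))) (.ch (nat_lit 11) (.ev (nat_lit 52) (nat_lit 406585408) (.ev (nat_lit 148) (nat_lit 16384)
 (.ev (nat_lit 212) (nat_lit 256) (.ev (nat_lit 276) (nat_lit 75497472) (.ev (nat_lit 1168) (nat_lit 536870912)
 (.nd (nat_lit 1344) (.br (nat_lit 2) (.ch (nat_lit 0) (.ev (nat_lit 1456) (nat_lit 4) (.ev (nat_lit 1568)
 (nat_lit 8192) (.ev (nat_lit 1680) (nat_lit 4227072) .dd)))) (.ch (nat_lit 2) (.ev (nat_lit 1360) (nat_lit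
 4227076) (.ev (nat_lit 1373) (nat_lit 8192) .dd)))))))))))) (.br (nat_lit 15) (.ch (nat_lit 12) (.ev (nat_lit
 52) (nat_lit 9756676) (.ev (nat_lit 148) (nat_lit 268435456) (.ev (nat_lit 276) (nat_lit 256) (.ev (nat_lit
 404) (nat_lit 134217728) (.ev (nat_lit 500) (nat_lit 64) (.ev (nat_lit 596) (nat_lit 536870912) (.nd (nat_lit
 1344) (.br (nat_lit 3) (.br (nat_lit 2) (.ch (nat_lit 1) (.ev (nat_lit 1360) (nat_lit 6291456) (.ev (nat_lit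
 1424) (nat_lit 67108864) (.ev (nat_lit 1437) (nat_lit 524288) .dd)))) (.ch (nat_lit 2) (.ev (nat_lit 1360)
 (nat_lit 6815744) (.ev (nat_lit 1373) (nat_lit 67108864) .dd)))) (.br (nat_lit 6) (.ch (nat_lit 3) (.ev
 (nat_lit 1360) (nat_lit 2097152) (.ev (nat_lit 1716) (nat_lit 67108864) (.nd (nat_lit 1728) (.br (nat_lit 6)
 (.ch (nat_lit 5) (.ev (nat_lit 1744) (nat_lit 4194304) (.ev (nat_lit 1757) (nat_lit 524288) .dd))) (.ch
 (nat_lit 6) (.fin (nat_lit 576461302049227332)))))))) (.ch (nat_lit 6) (.ev (nat_lit 1360) (nat_lit 524288)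
 (.ev (nat_lit 1424) (nat_lit 67108864) (.fin (nat_lit 576459103044846131))))))))))))))) (.ch (nat_lit 15) (.ev
 (nat_lit 52) (nat_lit 281575684) (.ev (nat_lit 628) (nat_lit 536870912) (.ev (nat_lit 672) (nat_lit 8256) (.nd
 (nat_lit 1344) (.br (nat_lit 2) (.ch (nat_lit 1) (.ev (nat_lit 1360) (nat_lit 137379840) (.ev (nat_lit 1584)
 (nat_lit 67371008) .dd))) (.br (nat_lit 3) (.ch (nat_lit 2) (.ev (nat_lit 1360) (nat_lit 69206016) (.nd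
 (nat_lit 1760) (.ch (nat_lit 5) (.nd (nat_lit 1776) (.br (nat_lit 6) (.ch (nat_lit 2) (.ev (nat_lit 1792)
 (nat_lit 278528) (.fin (nat_lit 576459103030166067)))) (.ch (nat_lit 6) (.ev (nat_lit 1792) (nat_lit
 135266304) (.fin (nat_lit 576456904017396273)))))))))) (.ch (nat_lit 3) (.ev (nat_lit 1360) (nat_lit 68435968)
 (.ev (nat_lit 1584) (nat_lit 136314880) .dd))))))))))))) (.br (nat_lit 22) (.br (nat_lit 18) (.br (nat_lit 17)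
 (.ch (nat_lit 16) (.ev (nat_lit 52) (nat_lit 940089408) (.ev (nat_lit 84) (nat_lit 8388608) (.ev (nat_lit 308)
 (nat_lit 1048576) (.ev (nat_lit 384) (nat_lit 73679108) .dd))))) (.ch (nat_lit 17) (.ev (nat_lit 52) (nat_lit
 72646912) (.ev (nat_lit 84) (nat_lit 134217728) (.ev (nat_lit 192) (nat_lit 816341060) .dd))))) (.br (nat_lit
 21) (.ch (nat_lit 18) (.ev (nat_lit 52) (nat_lit 604037440) (.ev (nat_lit 372) (nat_lit 4) (.ev (nat_lit 628)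
 (nat_lit 4194304) (.ev (nat_lit 1232) (nat_lit 524288) (.ev (nat_lit 1280) (nat_lit 2097152) (.ev (nat_lit
 1312) (nat_lit 262144) (.nd (nat_lit 1344) (.br (nat_lit 2) (.br (nat_lit 1) (.ch (nat_lit 0) (.ev (nat_lit
 1360) (nat_lit 143654912) (.ev (nat_lit 1373) (nat_lit 268435456) .dd))) (.ch (nat_lit 1) (.ev (nat_lit 1360)
 (nat_lit 142606336) (.ev (nat_lit 1716) (nat_lit 268435456) (.ev (nat_lit 1725) (nat_lit 1048576) .dd)))))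
 (.br (nat_lit 3) (.ch (nat_lit 2) (.ev (nat_lit 1360) (nat_lit 8388608) (.ev (nat_lit 1716) (nat_lit
 268435456) (.nd (nat_lit 1728) (.br (nat_lit 5) (.ch (nat_lit 1) (.ev (nat_lit 1744) (nat_lit 134217728) (.ev
 (nat_lit 1757) (nat_lit 1048576) .dd))) (.ch (nat_lit 5) (.fin (nat_lit 576459103030166067)))))))) (.ch
 (nat_lit 3) (.ev (nat_lit 1360) (nat_lit 135266304) (.ev (nat_lit 1408) (nat_lit 276824064) .dd)))))))))))))
 (.ch (nat_lit 21) (.ev (nat_lit 52) (nat_lit 807706880) (.ev (nat_lit 116) (nat_lit 64) (.ev (nat_lit 308)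
 (nat_lit 67108864) (.ev (nat_lit 1264) (nat_lit 16384) (.ev (nat_lit 1296) (nat_lit 4194304) (.ev (nat_lit
 1328) (nat_lit 1048576) (.nd (nat_lit 1344) (.br (nat_lit 3) (.br (nat_lit 2) (.ch (nat_lit 0) (.ev (nat_lit
 1360) (nat_lit 8912900) (.ev (nat_lit 1373) (nat_lit 134217728) .dd))) (.ch (nat_lit 2) (.ev (nat_lit 1360)
 (nat_lit 8912896) (.ev (nat_lit 1408) (nat_lit 134217732) .dd)))) (.br (nat_lit 6) (.ch (nat_lit 3) (.ev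
 (nat_lit 1360) (nat_lit 524292) (.ev (nat_lit 1716) (nat_lit 134217728) (.ev (nat_lit 1725) (nat_lit 8388608)
 .dd)))) (.ch (nat_lit 6) (.ev (nat_lit 1360) (nat_lit 4) (.ev (nat_lit 1716) (nat_lit 134217728) (.nd (nat_lit
 1728) (.br (nat_lit 6) (.ch (nat_lit 1) (.ev (nat_lit 1744) (nat_lit 524288) (.ev (nat_lit 1757) (nat_lit
 8388608) .dd))) (.ch (nat_lit 6) (.fin (nat_lit 576450306941338163)))))))))))))))))))) (.br (nat_lit 26) (.br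
 (nat_lit 24) (.ch (nat_lit 22) (.ev (nat_lit 52) (nat_lit 671097088) (.ev (nat_lit 308) (nat_lit 32768) (.ev
 (nat_lit 404) (nat_lit 8388608) (.ev (nat_lit 468) (nat_lit 4194304) (.ev (nat_lit 656) (nat_lit 1048644) (.ev
 (nat_lit 836) (nat_lit 262144) (.nd (nat_lit 1344) (.br (nat_lit 6) (.ch (nat_lit 3) (.ev (nat_lit 1360)
 (nat_lit 67125248) (.ev (nat_lit 1376) (nat_lit 524288) (.ev (nat_lit 1536) (nat_lit 270532608) .dd)))) (.ch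
 (nat_lit 6) (.ev (nat_lit 1360) (nat_lit 271056896) (.ev (nat_lit 1648) (nat_lit 67125248) .dd))))))))))))
 (.ch (nat_lit 24) (.ev (nat_lit 52) (nat_lit 744751172) (.ev (nat_lit 244) (nat_lit 1048576) (.ev (nat_lit
 352) (nat_lit 277405952) .dd))))) (.br (nat_lit 28) (.ch (nat_lit 26) (.ev (nat_lit 52) (nat_lit 613474564)
 (.ev (nat_lit 372) (nat_lit 262144) (.ev (nat_lit 404) (nat_lit 268435456) (.ev (nat_lit 468) (nat_lit 64)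
 (.ev (nat_lit 532) (nat_lit 4194304) (.ev (nat_lit 976) (nat_lit 136314880) (.ev (nat_lit 989) (nat_lit
 524288) .dd)))))))) (.br (nat_lit 29) (.ch (nat_lit 28) (.ev (nat_lit 52) (nat_lit 820264960) (.ev (nat_lit
 212) (nat_lit 1048576) (.ev (nat_lit 288) (nat_lit 201892164) .dd)))) (.ch (nat_lit 29) (.ev (nat_lit 52)
 (nat_lit 277627200) (.ev (nat_lit 116) (nat_lit 536870912) (.ev (nat_lit 180) (nat_lit 4194304) (.ev (nat_lit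
 340) (nat_lit 68157440) (.ev (nat_lit 404) (nat_lit 40960) (.nd (nat_lit 1344) (.br (nat_lit 6) (.ch (nat_lit
 3) (.ev (nat_lit 1360) (nat_lit 134217732) (.ev (nat_lit 1373) (nat_lit 2097152) .dd))) (.ch (nat_lit 6) (.ev
 (nat_lit 1456) (nat_lit 2097152) (.ev (nat_lit 1568) (nat_lit 134217732) .dd)))))))))))))))) (.br (nat_lit 42)
 (.br (nat_lit 38) (.br (nat_lit 36) (.br (nat_lit 33) (.ch (nat_lit 31) (.ev (nat_lit 52) (nat_lit 538992896)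
 (.ev (nat_lit 84) (nat_lit 67108864) (.ev (nat_lit 276) (nat_lit 134217728) (.ev (nat_lit 640) (nat_lit
 270008320) (.ev (nat_lit 900) (nat_lit 4194304) (.nd (nat_lit 1344) (.br (nat_lit 3) (.ch (nat_lit 0) (.ev
 (nat_lit 1360) (nat_lit 8388672) (.ev (nat_lit 1376) (nat_lit 32768) (.ev (nat_lit 1536) (nat_lit 262148)
 .dd)))) (.ch (nat_lit 3) (.ev (nat_lit 1360) (nat_lit 294916) (.ev (nat_lit 1648) (nat_lit 8388672)
 .dd))))))))))) (.ch (nat_lit 33) (.ev (nat_lit 52) (nat_lit 740294656) (.ev (nat_lit 64) (nat_lit 282911044)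
 .dd)))) (.br (nat_lit 37) (.ch (nat_lit 36) (.ev (nat_lit 52) (nat_lit 211820608) (.ev (nat_lit 308) (nat_lit
 256) (.ev (nat_lit 848) (nat_lit 536887296) (.ev (nat_lit 1248) (nat_lit 524288) (.nd (nat_lit 1344) (.br
 (nat_lit 2) (.br (nat_lit 1) (.ch (nat_lit 0) (.ev (nat_lit 1360) (nat_lit 269484032) (.ev (nat_lit 1552)
 (nat_lit 294912) (.ev (nat_lit 1664) (nat_lit 4194308) .dd)))) (.ch (nat_lit 1) (.ev (nat_lit 1360) (nat_lit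
 5505024) (.ev (nat_lit 1392) (nat_lit 268435456) (.ev (nat_lit 1552) (nat_lit 32768) (.ev (nat_lit 1565)
 (nat_lit 4) .dd)))))) (.br (nat_lit 3) (.ch (nat_lit 2) (.ev (nat_lit 1360) (nat_lit 272924672) (.ev (nat_lit
 1440) (nat_lit 1048580) .dd))) (.br (nat_lit 6) (.ch (nat_lit 3) (.ev (nat_lit 1360) (nat_lit 5505028) (.ev
 (nat_lit 1440) (nat_lit 268468224) .dd))) (.ch (nat_lit 6) (.ev (nat_lit 1360) (nat_lit 273940480) (.ev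
 (nat_lit 1552) (nat_lit 4) (.ev (nat_lit 1565) (nat_lit 32768) .dd))))))))))))) (.ch (nat_lit 37) (.ev
 (nat_lit 52) (nat_lit 404013060) (.ev (nat_lit 224) (nat_lit 619192640) .dd))))) (.br (nat_lit 40) (.br
 (nat_lit 39) (.ch (nat_lit 38) (.ev (nat_lit 52) (nat_lit 10772736) (.ev (nat_lit 180) (nat_lit 536870912)
 (.ev (nat_lit 340) (nat_lit 32768) (.ev (nat_lit 960) (nat_lit 524292) (.nd (nat_lit 1344) (.br (nat_lit 1)
 (.ch (nat_lit 0) (.ev (nat_lit 1360) (nat_lit 339738688) (.ev (nat_lit 1472) (nat_lit 134217728) (.ev (nat_lit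
 1485) (nat_lit 1048576) .dd)))) (.br (nat_lit 3) (.ch (nat_lit 1) (.ev (nat_lit 1360) (nat_lit 205520896) (.ev
 (nat_lit 1520) (nat_lit 1048640) (.ev (nat_lit 1533) (nat_lit 268435456) .dd)))) (.ch (nat_lit 3) (.ev
 (nat_lit 1360) (nat_lit 403701760) (.ev (nat_lit 1536) (nat_lit 4194304) (.fin (nat_lit
 576462401572389436))))))))))))) (.ch (nat_lit 39) (.ev (nat_lit 52) (nat_lit 815792388) (.ev (nat_lit 84)
 (nat_lit 1048576) (.ev (nat_lit 256) (nat_lit 206364736) .dd))))) (.br (nat_lit 41) (.ch (nat_lit 40) (.ev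
 (nat_lit 52) (nat_lit 203997508) (.ev (nat_lit 84) (nat_lit 262144) (.ev (nat_lit 148) (nat_lit 1048576) (.ev
 (nat_lit 244) (nat_lit 8192) (.ev (nat_lit 468) (nat_lit 536870912) (.ev (nat_lit 1184) (nat_lit 4194304) (.nd
 (nat_lit 1344) (.br (nat_lit 2) (.ch (nat_lit 1) (.ev (nat_lit 1632) (nat_lit 268435456) (.ev (nat_lit 1645)
 (nat_lit 8388608) .dd))) (.br (nat_lit 3) (.ch (nat_lit 2) (.ev (nat_lit 1360) (nat_lit 276824064) .dd)) (.ch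
 (nat_lit 3) (.ev (nat_lit 1360) (nat_lit 268435456) (.ev (nat_lit 1373) (nat_lit 8388608) .dd)))))))))))))
 (.ch (nat_lit 41) (.ev (nat_lit 52) (nat_lit 818962500) (.ev (nat_lit 116) (nat_lit 2097152) (.ev (nat_lit
 148) (nat_lit 262144) (.ev (nat_lit 276) (nat_lit 32768) (.nd (nat_lit 1344) (.br (nat_lit 2) (.ch (nat_lit 1)
 (.ev (nat_lit 1360) (nat_lit 134742016) (.ev (nat_lit 1504) (nat_lit 67108864) (.ev (nat_lit 1517) (nat_lit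
 256) .dd)))) (.br (nat_lit 6) (.ch (nat_lit 2) (.ev (nat_lit 1360) (nat_lit 201850880) (.ev (nat_lit 1373)
 (nat_lit 256) .dd))) (.ch (nat_lit 6) (.ev (nat_lit 1360) (nat_lit 67109120) (.ev (nat_lit 1696) (nat_lit
 134742016) .dd)))))))))))))) (.br (nat_lit 47) (.br (nat_lit 44) (.br (nat_lit 43) (.ch (nat_lit 42) (.ev
 (nat_lit 52) (nat_lit 612376900) (.ev (nat_lit 84) (nat_lit 268959744) (.ev (nat_lit 212) (nat_lit 134217728)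
 (.ev (nat_lit 244) (nat_lit 262144) (.ev (nat_lit 276) (nat_lit 16384) (.nd (nat_lit 1344) (.br (nat_lit 2)
 (.br (nat_lit 1) (.ch (nat_lit 0) (.ev (nat_lit 1360) (nat_lit 32768) (.ev (nat_lit 1716) (nat_lit 4194304)
 (.nd (nat_lit 1728) (.br (nat_lit 4) (.ch (nat_lit 1) (.ev (nat_lit 1744) (nat_lit 3145728) .dd)) (.ch
 (nat_lit 4) (.fin (nat_lit 576465700116709948)))))))) (.ch (nat_lit 1) (.ev (nat_lit 1360) (nat_lit 6291456)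
 (.ev (nat_lit 1716) (nat_lit 32768) (.ev (nat_lit 1725) (nat_lit 1048576) .dd))))) (.br (nat_lit 6) (.ch
 (nat_lit 2) (.ev (nat_lit 1360) (nat_lit 6324224) (.ev (nat_lit 1373) (nat_lit 1048576) .dd))) (.ch (nat_lit
 6) (.ev (nat_lit 1360) (nat_lit 1081344) (.nd (nat_lit 1808) (.ch (nat_lit 5) (.nd (nat_lit 1824) (.ch
 (nat_lit 1) (.nd (nat_lit 1841) (.br (nat_lit 43) (.ch (nat_lit 22) (.nd (nat_lit 1872) (.br (nat_lit 1) (.ch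
 (nat_lit 0) (.fin (nat_lit 576459103044846131))) (.ch (nat_lit 1) (.ev (nat_lit 1888) (nat_lit 6291456)
 .dd))))) (.ch (nat_lit 43) (.ev (nat_lit 1857) (nat_lit 6291456) .dd))))))))))))))))))) (.ch (nat_lit 43) (.ev
 (nat_lit 52) (nat_lit 1013202944) (.ev (nat_lit 84) (nat_lit 4) (.ev (nat_lit 340) (nat_lit 524288) (.ev
 (nat_lit 372) (nat_lit 256) (.ev (nat_lit 564) (nat_lit 64) (.nd (nat_lit 1344) (.br (nat_lit 2) (.ch (nat_lit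
 0) (.ev (nat_lit 1360) (nat_lit 8421376) (.ev (nat_lit 1504) (nat_lit 1048576) (.ev (nat_lit 1517) (nat_lit
 8192) .dd)))) (.br (nat_lit 3) (.ch (nat_lit 2) (.ev (nat_lit 1360) (nat_lit 9469952) (.ev (nat_lit 1373)
 (nat_lit 8192) .dd))) (.ch (nat_lit 3) (.ev (nat_lit 1360) (nat_lit 1056768) (.ev (nat_lit 1696) (nat_lit
 8421376) .dd))))))))))))) (.br (nat_lit 46) (.ch (nat_lit 44) (.ev (nat_lit 52) (nat_lit 205807680) (.ev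
 (nat_lit 244) (nat_lit 256) (.ev (nat_lit 752) (nat_lit 2621440) (.ev (nat_lit 1024) (nat_lit 269484032) (.nd
 (nat_lit 1344) (.ch (nat_lit 6) (.ev (nat_lit 1488) (nat_lit 4) (.ev (nat_lit 1536) (nat_lit 8388608) (.fin
 (nat_lit 576464600593547844))))))))))) (.ch (nat_lit 46) (.ev (nat_lit 52) (nat_lit 472907840) (.ev (nat_lit
 84) (nat_lit 8192) (.ev (nat_lit 212) (nat_lit 4) (.nd (nat_lit 1344) (.br (nat_lit 2) (.br (nat_lit 1) (.ch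
 (nat_lit 0) (.ev (nat_lit 1360) (nat_lit 8945920) (.ev (nat_lit 1616) (nat_lit 4194304) (.ev (nat_lit 1716)
 (nat_lit 536887296) (.ev (nat_lit 1725) (nat_lit 262144) .dd))))) (.ch (nat_lit 1) (.ev (nat_lit 1360)
 (nat_lit 541343744) (.ev (nat_lit 1616) (nat_lit 32768) (.ev (nat_lit 1716) (nat_lit 8388864) (.ev (nat_lit
 1725) (nat_lit 524288) .dd)))))) (.br (nat_lit 6) (.ch (nat_lit 2) (.ev (nat_lit 1360) (nat_lit 550010880)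
 (.ev (nat_lit 1716) (nat_lit 256) (.nd (nat_lit 1728) (.br (nat_lit 5) (.ch (nat_lit 4) (.ev (nat_lit 1744)
 (nat_lit 16384) (.ev (nat_lit 1757) (nat_lit 262144) .dd))) (.ch (nat_lit 5) (.fin (nat_lit
 576456904017396273)))))))) (.ch (nat_lit 6) (.ev (nat_lit 1360) (nat_lit 4505856) (.ev (nat_lit 1716) (nat_lit
 536870912) (.nd (nat_lit 1728) (.br (nat_lit 6) (.ch (nat_lit 0) (.ev (nat_lit 1744) (nat_lit 8388608) (.ev
 (nat_lit 1757) (nat_lit 524288) .dd))) (.ch (nat_lit 6) (.fin (nat_lit 576450306941338163)))))))))))))))))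
 (.br (nat_lit 49) (.br (nat_lit 48) (.ch (nat_lit 47) (.ev (nat_lit 52) (nat_lit 339231040) (.ev (nat_lit 308)
 (nat_lit 8192) (.ev (nat_lit 372) (nat_lit 134217728) (.ev (nat_lit 416) (nat_lit 549748740) .dd))))) (.ch
 (nat_lit 48) (.ev (nat_lit 52) (nat_lit 78381316) (.ev (nat_lit 148) (nat_lit 8192) (.ev (nat_lit 736)
 (nat_lit 268435520) (.ev (nat_lit 912) (nat_lit 135266304) (.nd (nat_lit 1344) (.ch (nat_lit 6) (.ev (nat_lit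
 1488) (nat_lit 4194304) (.ev (nat_lit 1536) (nat_lit 16384) (.fin (nat_lit 576464600593547844)))))))))))) (.br
 (nat_lit 50) (.ch (nat_lit 49) (.ev (nat_lit 52) (nat_lit 673202244) (.ev (nat_lit 84) (nat_lit 256) (.ev
 (nat_lit 148) (nat_lit 524288) (.ev (nat_lit 212) (nat_lit 268435456) (.ev (nat_lit 244) (nat_lit 32768) (.ev
 (nat_lit 372) (nat_lit 8192) (.ev (nat_lit 436) (nat_lit 67371008) (.ev (nat_lit 816) (nat_lit 9437184) (.ev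
 (nat_lit 829) (nat_lit 4194304) .dd)))))))))) (.br (nat_lit 52) (.ch (nat_lit 50) (.ev (nat_lit 52) (nat_lit
 402710784) (.ev (nat_lit 372) (nat_lit 1048576) (.ev (nat_lit 564) (nat_lit 4194304) (.ev (nat_lit 1072)
 (nat_lit 8912896) (.nd (nat_lit 1344) (.br (nat_lit 2) (.ch (nat_lit 0) (.ev (nat_lit 1360) (nat_lit
 604241920) (.ev (nat_lit 1520) (nat_lit 68) (.ev (nat_lit 1533) (nat_lit 2097152) .dd)))) (.br (nat_lit 3)
 (.ch (nat_lit 2) (.ev (nat_lit 1360) (nat_lit 606076992) (.ev (nat_lit 1472) (nat_lit 262144) (.ev (nat_lit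
 1485) (nat_lit 4) .dd)))) (.ch (nat_lit 3) (.ev (nat_lit 1360) (nat_lit 2359300) (.ev (nat_lit 1536) (nat_lit
 536870912) (.fin (nat_lit 576460202549133892))))))))))))) (.ch (nat_lit 52) (.ev (nat_lit 52) (nat_lit
 335863808) (.ev (nat_lit 128) (nat_lit 687341892) .dd)))))))))))

/-- Subtrie. -/
noncomputable def T3 : Tr := (.ev (nat_lit 20) (nat_lit 779092032) (.nd (nat_lit 33) (.br (nat_lit 31) (.br
 (nat_lit 16) (.br (nat_lit 10) (.br (nat_lit 6) (.br (nat_lit 5) (.ch (nat_lit 4) (.ev (nat_lit 52) (nat_lit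
 8945670) (.ev (nat_lit 148) (nat_lit 16) (.ev (nat_lit 212) (nat_lit 16384) (.ev (nat_lit 576) (nat_lit
 285483264) .dd))))) (.ch (nat_lit 5) (.ev (nat_lit 52) (nat_lit 25198598) (.ev (nat_lit 148) (nat_lit 16384)
 (.ev (nat_lit 212) (nat_lit 16) (.ev (nat_lit 608) (nat_lit 269230336) .dd)))))) (.br (nat_lit 9) (.ch
 (nat_lit 6) (.ev (nat_lit 52) (nat_lit 827398) (.ev (nat_lit 244) (nat_lit 16384) (.ev (nat_lit 276) (nat_lit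
 16777216) (.ev (nat_lit 500) (nat_lit 8388608) (.ev (nat_lit 1216) (nat_lit 268435456) (.nd (nat_lit 1344)
 (.br (nat_lit 3) (.ch (nat_lit 0) (.ev (nat_lit 1632) (nat_lit 16) (.ev (nat_lit 1645) (nat_lit 256) .dd)))
 (.br (nat_lit 6) (.ch (nat_lit 3) (.ev (nat_lit 1360) (nat_lit 272) .dd)) (.ch (nat_lit 6) (.ev (nat_lit 1360)
 (nat_lit 16) (.ev (nat_lit 1373) (nat_lit 256) .dd)))))))))))) (.ch (nat_lit 9) (.ev (nat_lit 52) (nat_lit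
 277094660) (.ev (nat_lit 148) (nat_lit 524288) (.ev (nat_lit 404) (nat_lit 16) (.nd (nat_lit 1344) (.br
 (nat_lit 3) (.br (nat_lit 2) (.ch (nat_lit 0) (.ev (nat_lit 1360) (nat_lit 2) (.ev (nat_lit 1716) (nat_lit
 32768) (.nd (nat_lit 1728) (.br (nat_lit 3) (.ch (nat_lit 2) (.ev (nat_lit 1744) (nat_lit 16793600) .dd)) (.ch
 (nat_lit 3) (.fin (nat_lit 576456904023687736)))))))) (.ch (nat_lit 2) (.ev (nat_lit 1360) (nat_lit 16386)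
 (.nd (nat_lit 1808) (.ch (nat_lit 0) (.nd (nat_lit 1824) (.ch (nat_lit 3) (.nd (nat_lit 1841) (.br (nat_lit
 35) (.ch (nat_lit 6) (.nd (nat_lit 1872) (.br (nat_lit 4) (.ch (nat_lit 2) (.ev (nat_lit 1888) (nat_lit
 16809984) .dd)) (.ch (nat_lit 4) (.fin (nat_lit 576450306947629619)))))) (.br (nat_lit 48) (.ch (nat_lit 35)
 (.ev (nat_lit 1857) (nat_lit 16809984) .dd)) (.ch (nat_lit 48) (.ev (nat_lit 1857) (nat_lit 16809984)
 .dd)))))))))))) (.br (nat_lit 5) (.ch (nat_lit 3) (.ev (nat_lit 1360) (nat_lit 16809986) (.ev (nat_lit 1373)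
 (nat_lit 16384) .dd))) (.ch (nat_lit 5) (.ev (nat_lit 1360) (nat_lit 16809984) (.ev (nat_lit 1716) (nat_lit 2)
 (.ev (nat_lit 1725) (nat_lit 16384) .dd))))))))))))) (.br (nat_lit 12) (.br (nat_lit 11) (.ch (nat_lit 10)
 (.ev (nat_lit 52) (nat_lit 8429842) (.ev (nat_lit 340) (nat_lit 16384) (.ev (nat_lit 544) (nat_lit 285999108)
 .dd)))) (.ch (nat_lit 11) (.ev (nat_lit 52) (nat_lit 269221904) (.ev (nat_lit 84) (nat_lit 4) (.ev (nat_lit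
 148) (nat_lit 8192) (.ev (nat_lit 628) (nat_lit 32768) (.ev (nat_lit 944) (nat_lit 25165824) (.nd (nat_lit
 1344) (.br (nat_lit 5) (.ch (nat_lit 3) (.ev (nat_lit 1360) (nat_lit 256) (.ev (nat_lit 1520) (nat_lit 2) (.ev
 (nat_lit 1533) (nat_lit 16384) .dd)))) (.br (nat_lit 6) (.ch (nat_lit 5) (.ev (nat_lit 1504) (nat_lit 16384)
 (.fin (nat_lit 576458003523781185)))) (.ch (nat_lit 6) (.ev (nat_lit 1360) (nat_lit 16642) .dd))))))))))))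
 (.br (nat_lit 15) (.ch (nat_lit 12) (.ev (nat_lit 52) (nat_lit 25485318) (.nd (nat_lit 1344) (.br (nat_lit 5)
 (.br (nat_lit 2) (.ch (nat_lit 0) (.ev (nat_lit 1360) (nat_lit 268435472) (.ev (nat_lit 1424) (nat_lit 256)
 (.ev (nat_lit 1437) (nat_lit 524288) .dd)))) (.ch (nat_lit 2) (.ev (nat_lit 1360) (nat_lit 524288) (.ev
 (nat_lit 1424) (nat_lit 256) (.fin (nat_lit 576456904011104817)))))) (.br (nat_lit 6) (.ch (nat_lit 5) (.ev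
 (nat_lit 1360) (nat_lit 268435456) (.ev (nat_lit 1716) (nat_lit 256) (.nd (nat_lit 1728) (.br (nat_lit 1) (.ch
 (nat_lit 0) (.fin (nat_lit 576465700116709960))) (.ch (nat_lit 1) (.ev (nat_lit 1744) (nat_lit 16) (.ev
 (nat_lit 1757) (nat_lit 524288) .dd)))))))) (.ch (nat_lit 6) (.ev (nat_lit 1360) (nat_lit 268959760) (.ev
 (nat_lit 1373) (nat_lit 256) .dd)))))))) (.ch (nat_lit 15) (.ev (nat_lit 52) (nat_lit 277381398) (.nd (nat_lit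
 1344) (.br (nat_lit 5) (.br (nat_lit 3) (.ch (nat_lit 0) (.ev (nat_lit 1360) (nat_lit 262144) (.ev (nat_lit
 1716) (nat_lit 8192) (.nd (nat_lit 1728) (.br (nat_lit 3) (.ch (nat_lit 2) (.ev (nat_lit 1744) (nat_lit 16384)
 (.ev (nat_lit 1757) (nat_lit 16777216) .dd))) (.ch (nat_lit 3) (.fin (nat_lit 576465700097835592)))))))) (.ch
 (nat_lit 3) (.ev (nat_lit 1360) (nat_lit 16777216) (.ev (nat_lit 1424) (nat_lit 8192) (.fin (nat_lit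
 576456904017396273)))))) (.br (nat_lit 6) (.ch (nat_lit 5) (.ev (nat_lit 1360) (nat_lit 278528) (.ev (nat_lit
 1424) (nat_lit 8192) (.ev (nat_lit 1437) (nat_lit 16777216) .dd)))) (.ch (nat_lit 6) (.ev (nat_lit 1360)
 (nat_lit 17055744) (.ev (nat_lit 1373) (nat_lit 8192) .dd))))))))))) (.br (nat_lit 22) (.br (nat_lit 18) (.br
 (nat_lit 17) (.ch (nat_lit 16) (.ev (nat_lit 52) (nat_lit 285777922) (.ev (nat_lit 116) (nat_lit 8388608) (.ev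
 (nat_lit 1152) (nat_lit 4) (.nd (nat_lit 1344) (.br (nat_lit 5) (.ch (nat_lit 0) (.ev (nat_lit 1360) (nat_lit
 278544) (.ev (nat_lit 1373) (nat_lit 256) .dd))) (.ch (nat_lit 5) (.ev (nat_lit 1456) (nat_lit 16) (.ev
 (nat_lit 1568) (nat_lit 256) (.ev (nat_lit 1680) (nat_lit 278528) .dd)))))))))) (.ch (nat_lit 17) (.ev
 (nat_lit 52) (nat_lit 295186) (.ev (nat_lit 244) (nat_lit 524288) (.ev (nat_lit 564) (nat_lit 8388608) (.ev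
 (nat_lit 1040) (nat_lit 16793600) (.nd (nat_lit 1344) (.br (nat_lit 2) (.ch (nat_lit 0) (.ev (nat_lit 1504)
 (nat_lit 268435456) (.fin (nat_lit 576458003527975489)))) (.br (nat_lit 3) (.ch (nat_lit 2) (.ev (nat_lit
 1360) (nat_lit 268443652) .dd)) (.ch (nat_lit 3) (.ev (nat_lit 1360) (nat_lit 8192) (.ev (nat_lit 1520)
 (nat_lit 4) (.ev (nat_lit 1533) (nat_lit 268435456) .dd))))))))))))) (.br (nat_lit 21) (.ch (nat_lit 18) (.ev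
 (nat_lit 52) (nat_lit 57602) (.ev (nat_lit 148) (nat_lit 4) (.ev (nat_lit 436) (nat_lit 524288) (.ev (nat_lit
 836) (nat_lit 16777216) (.ev (nat_lit 900) (nat_lit 262144) (.nd (nat_lit 1344) (.br (nat_lit 3) (.br (nat_lit
 2) (.ch (nat_lit 0) (.ev (nat_lit 1360) (nat_lit 268435472) (.ev (nat_lit 1373) (nat_lit 8388608) .dd))) (.ch
 (nat_lit 2) (.ev (nat_lit 1360) (nat_lit 268435456) (.ev (nat_lit 1392) (nat_lit 16) (.ev (nat_lit 1405)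
 (nat_lit 8388608) .dd))))) (.br (nat_lit 5) (.ch (nat_lit 3) (.ev (nat_lit 1360) (nat_lit 16) (.ev (nat_lit
 1392) (nat_lit 268435456) (.ev (nat_lit 1405) (nat_lit 8388608) .dd)))) (.br (nat_lit 6) (.ch (nat_lit 5) (.ev
 (nat_lit 1360) (nat_lit 268435472) (.ev (nat_lit 1373) (nat_lit 8388608) .dd))) (.ch (nat_lit 6) (.ev (nat_lit
 1360) (nat_lit 276824080) .dd)))))))))))) (.ch (nat_lit 21) (.ev (nat_lit 52) (nat_lit 268738818) (.ev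
 (nat_lit 148) (nat_lit 16777216) (.ev (nat_lit 404) (nat_lit 16384) (.nd (nat_lit 1344) (.br (nat_lit 3) (.br
 (nat_lit 2) (.ch (nat_lit 0) (.ev (nat_lit 1360) (nat_lit 8912896) (.ev (nat_lit 1716) (nat_lit 4) (.ev
 (nat_lit 1725) (nat_lit 16) .dd)))) (.ch (nat_lit 2) (.ev (nat_lit 1360) (nat_lit 8912900) (.ev (nat_lit 1373)
 (nat_lit 16) .dd)))) (.br (nat_lit 5) (.ch (nat_lit 3) (.ev (nat_lit 1360) (nat_lit 20) (.nd (nat_lit 1808)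
 (.ch (nat_lit 1) (.nd (nat_lit 1824) (.ch (nat_lit 1) (.nd (nat_lit 1841) (.br (nat_lit 26) (.ch (nat_lit 6)
 (.ev (nat_lit 1857) (nat_lit 8912896) .dd)) (.br (nat_lit 45) (.ch (nat_lit 26) (.nd (nat_lit 1872) (.br
 (nat_lit 2) (.ch (nat_lit 0) (.fin (nat_lit 576450306941338163))) (.ch (nat_lit 2) (.ev (nat_lit 1888)
 (nat_lit 8912896) .dd))))) (.ch (nat_lit 45) (.ev (nat_lit 1857) (nat_lit 8912896) .dd))))))))))) (.ch
 (nat_lit 5) (.ev (nat_lit 1360) (nat_lit 4) (.ev (nat_lit 1716) (nat_lit 8388608) (.nd (nat_lit 1728) (.br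
 (nat_lit 1) (.ch (nat_lit 0) (.fin (nat_lit 576465700116709960))) (.ch (nat_lit 1) (.ev (nat_lit 1744)
 (nat_lit 524304) .dd)))))))))))))))) (.br (nat_lit 26) (.br (nat_lit 24) (.ch (nat_lit 22) (.ev (nat_lit 52)
 (nat_lit 8464) (.ev (nat_lit 84) (nat_lit 16777216) (.ev (nat_lit 180) (nat_lit 262144) (.ev (nat_lit 212)
 (nat_lit 4) (.ev (nat_lit 244) (nat_lit 2) (.ev (nat_lit 996) (nat_lit 16384) (.ev (nat_lit 1108) (nat_lit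
 32768) (.nd (nat_lit 1344) (.br (nat_lit 3) (.br (nat_lit 2) (.ch (nat_lit 0) (.ev (nat_lit 1360) (nat_lit
 8388608) (.ev (nat_lit 1424) (nat_lit 268435456) (.ev (nat_lit 1437) (nat_lit 524288) .dd)))) (.ch (nat_lit 2)
 (.ev (nat_lit 1360) (nat_lit 524288) (.ev (nat_lit 1424) (nat_lit 268435456) (.ev (nat_lit 1437) (nat_lit
 8388608) .dd))))) (.br (nat_lit 6) (.ch (nat_lit 3) (.ev (nat_lit 1360) (nat_lit 8912896) (.ev (nat_lit 1373)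
 (nat_lit 268435456) .dd))) (.ch (nat_lit 6) (.ev (nat_lit 1360) (nat_lit 8912896) (.ev (nat_lit 1373) (nat_lit
 268435456) .dd)))))))))))))) (.ch (nat_lit 24) (.ev (nat_lit 52) (nat_lit 262148) (.ev (nat_lit 436) (nat_lit
 8192) (.ev (nat_lit 532) (nat_lit 8388608) (.ev (nat_lit 704) (nat_lit 16386) (.nd (nat_lit 1344) (.br
 (nat_lit 5) (.ch (nat_lit 2) (.ev (nat_lit 1360) (nat_lit 524544) (.nd (nat_lit 1728) (.br (nat_lit 2) (.ch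
 (nat_lit 0) (.ev (nat_lit 1744) (nat_lit 268435472) (.fin (nat_lit 576450306947629619)))) (.ch (nat_lit 2)
 (.ev (nat_lit 1744) (nat_lit 16809984) (.fin (nat_lit 576456904011104817)))))))) (.br (nat_lit 6) (.ch
 (nat_lit 5) (.ev (nat_lit 1360) (nat_lit 268468496) (.ev (nat_lit 1472) (nat_lit 524288) (.ev (nat_lit 1485)
 (nat_lit 16777216) .dd)))) (.ch (nat_lit 6) (.ev (nat_lit 1360) (nat_lit 17334288) (.ev (nat_lit 1472)
 (nat_lit 256) (.ev (nat_lit 1485) (nat_lit 268435456) .dd))))))))))))) (.br (nat_lit 28) (.ch (nat_lit 26)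
 (.ev (nat_lit 52) (nat_lit 8446212) (.ev (nat_lit 340) (nat_lit 16) (.ev (nat_lit 512) (nat_lit 285999106)
 .dd)))) (.br (nat_lit 29) (.ch (nat_lit 28) (.ev (nat_lit 52) (nat_lit 277102610) (.ev (nat_lit 244) (nat_lit
 8192) (.ev (nat_lit 768) (nat_lit 260) (.nd (nat_lit 1344) (.br (nat_lit 5) (.ch (nat_lit 3) (.ev (nat_lit
 1360) (nat_lit 16809984) (.ev (nat_lit 1373) (nat_lit 524288) .dd))) (.br (nat_lit 6) (.ch (nat_lit 5) (.ev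
 (nat_lit 1360) (nat_lit 524288) (.ev (nat_lit 1520) (nat_lit 32768) (.ev (nat_lit 1533) (nat_lit 16777216)
 .dd)))) (.ch (nat_lit 6) (.ev (nat_lit 1360) (nat_lit 17334272) .dd))))))))) (.ch (nat_lit 29) (.ev (nat_lit
 52) (nat_lit 277627152) (.ev (nat_lit 212) (nat_lit 8192) (.ev (nat_lit 276) (nat_lit 4) (.nd (nat_lit 1344)
 (.br (nat_lit 5) (.ch (nat_lit 3) (.ev (nat_lit 1360) (nat_lit 16777218) (.ev (nat_lit 1373) (nat_lit 32768)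
 .dd))) (.ch (nat_lit 5) (.ev (nat_lit 1456) (nat_lit 32768) (.ev (nat_lit 1568) (nat_lit 16777218)
 .dd)))))))))))))) (.br (nat_lit 42) (.br (nat_lit 38) (.br (nat_lit 36) (.br (nat_lit 33) (.ch (nat_lit 31)
 (.ev (nat_lit 52) (nat_lit 24832) (.ev (nat_lit 84) (nat_lit 524288) (.ev (nat_lit 180) (nat_lit 268435456)
 (.ev (nat_lit 212) (nat_lit 2) (.ev (nat_lit 244) (nat_lit 4) (.ev (nat_lit 996) (nat_lit 16) (.ev (nat_lit
 1108) (nat_lit 8388608) (.nd (nat_lit 1344) (.br (nat_lit 5) (.br (nat_lit 3) (.ch (nat_lit 2) (.ev (nat_lit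
 1360) (nat_lit 16809984) (.ev (nat_lit 1373) (nat_lit 262144) .dd))) (.ch (nat_lit 3) (.ev (nat_lit 1360)
 (nat_lit 16777216) (.ev (nat_lit 1424) (nat_lit 262144) (.ev (nat_lit 1437) (nat_lit 32768) .dd))))) (.br
 (nat_lit 6) (.ch (nat_lit 5) (.ev (nat_lit 1360) (nat_lit 32768) (.ev (nat_lit 1424) (nat_lit 262144) (.ev
 (nat_lit 1437) (nat_lit 16777216) .dd)))) (.ch (nat_lit 6) (.ev (nat_lit 1360) (nat_lit 16809984) (.ev
 (nat_lit 1373) (nat_lit 262144) .dd)))))))))))))) (.ch (nat_lit 33) (.ev (nat_lit 52) (nat_lit 18) (.ev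
 (nat_lit 96) (nat_lit 294445316) .dd)))) (.br (nat_lit 37) (.ch (nat_lit 36) (.ev (nat_lit 52) (nat_lit
 25174034) (.ev (nat_lit 116) (nat_lit 268435456) (.ev (nat_lit 340) (nat_lit 4) (.ev (nat_lit 404) (nat_lit
 524288) (.ev (nat_lit 596) (nat_lit 32768) (.ev (nat_lit 1088) (nat_lit 278784) .dd))))))) (.ch (nat_lit 37)
 (.ev (nat_lit 52) (nat_lit 268746772) (.ev (nat_lit 244) (nat_lit 256) (.ev (nat_lit 784) (nat_lit 8194) (.nd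
 (nat_lit 1344) (.br (nat_lit 2) (.ch (nat_lit 0) (.ev (nat_lit 1360) (nat_lit 16777216) (.ev (nat_lit 1520)
 (nat_lit 8388608) (.ev (nat_lit 1533) (nat_lit 524288) .dd)))) (.br (nat_lit 6) (.ch (nat_lit 2) (.ev (nat_lit
 1360) (nat_lit 8912896) (.ev (nat_lit 1373) (nat_lit 16777216) .dd))) (.ch (nat_lit 6) (.ev (nat_lit 1360)
 (nat_lit 25690112) .dd))))))))))) (.br (nat_lit 40) (.br (nat_lit 39) (.ch (nat_lit 38) (.ev (nat_lit 52)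
 (nat_lit 8675600) (.ev (nat_lit 308) (nat_lit 2) (.ev (nat_lit 340) (nat_lit 524288) (.ev (nat_lit 468)
 (nat_lit 268435456) (.ev (nat_lit 864) (nat_lit 16777220) (.ev (nat_lit 877) (nat_lit 32768) .dd))))))) (.ch
 (nat_lit 39) (.ev (nat_lit 52) (nat_lit 293601542) (.ev (nat_lit 244) (nat_lit 16) (.ev (nat_lit 276) (nat_lit
 524288) (.ev (nat_lit 500) (nat_lit 32768) (.ev (nat_lit 1200) (nat_lit 262144) (.nd (nat_lit 1344) (.br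
 (nat_lit 5) (.ch (nat_lit 2) (.ev (nat_lit 1360) (nat_lit 24576) .dd)) (.br (nat_lit 6) (.ch (nat_lit 5) (.ev
 (nat_lit 1632) (nat_lit 16384) (.ev (nat_lit 1645) (nat_lit 8192) .dd))) (.ch (nat_lit 6) (.ev (nat_lit 1360)
 (nat_lit 16384) (.ev (nat_lit 1373) (nat_lit 8192) .dd))))))))))))) (.br (nat_lit 41) (.ch (nat_lit 40) (.ev
 (nat_lit 52) (nat_lit 573700) (.ev (nat_lit 116) (nat_lit 262144) (.ev (nat_lit 340) (nat_lit 2) (.ev (nat_lit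
 404) (nat_lit 16777216) (.ev (nat_lit 596) (nat_lit 8388608) (.ev (nat_lit 1120) (nat_lit 268443664)
 .dd))))))) (.ch (nat_lit 41) (.ev (nat_lit 52) (nat_lit 276848644) (.ev (nat_lit 244) (nat_lit 16777216) (.ev
 (nat_lit 564) (nat_lit 32768) (.ev (nat_lit 1056) (nat_lit 524304) (.nd (nat_lit 1344) (.br (nat_lit 3) (.ch
 (nat_lit 2) (.ev (nat_lit 1360) (nat_lit 256) (.ev (nat_lit 1520) (nat_lit 2) (.ev (nat_lit 1533) (nat_lit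
 262144) .dd)))) (.br (nat_lit 5) (.ch (nat_lit 3) (.ev (nat_lit 1360) (nat_lit 262402) .dd)) (.ch (nat_lit 5)
 (.ev (nat_lit 1504) (nat_lit 262144) (.fin (nat_lit 576464600597742143))))))))))))))) (.br (nat_lit 47) (.br
 (nat_lit 44) (.br (nat_lit 43) (.ch (nat_lit 42) (.ev (nat_lit 52) (nat_lit 8397076) (.ev (nat_lit 148)
 (nat_lit 2) (.ev (nat_lit 436) (nat_lit 16777216) (.ev (nat_lit 836) (nat_lit 524288) (.ev (nat_lit 900)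
 (nat_lit 268435456) (.nd (nat_lit 1344) (.br (nat_lit 3) (.br (nat_lit 2) (.ch (nat_lit 0) (.ev (nat_lit 1360)
 (nat_lit 278528) (.ev (nat_lit 1373) (nat_lit 32768) .dd))) (.ch (nat_lit 2) (.ev (nat_lit 1360) (nat_lit
 16384) (.ev (nat_lit 1392) (nat_lit 262144) (.ev (nat_lit 1405) (nat_lit 32768) .dd))))) (.br (nat_lit 5) (.ch
 (nat_lit 3) (.ev (nat_lit 1360) (nat_lit 262144) (.ev (nat_lit 1392) (nat_lit 16384) (.ev (nat_lit 1405)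
 (nat_lit 32768) .dd)))) (.br (nat_lit 6) (.ch (nat_lit 5) (.ev (nat_lit 1360) (nat_lit 278528) (.ev (nat_lit
 1373) (nat_lit 32768) .dd))) (.ch (nat_lit 6) (.ev (nat_lit 1360) (nat_lit 311296) .dd)))))))))))) (.ch
 (nat_lit 43) (.ev (nat_lit 52) (nat_lit 285491200) (.ev (nat_lit 84) (nat_lit 2) (.ev (nat_lit 148) (nat_lit
 256) (.ev (nat_lit 628) (nat_lit 8388608) (.ev (nat_lit 1008) (nat_lit 557056) (.nd (nat_lit 1344) (.br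
 (nat_lit 2) (.ch (nat_lit 0) (.ev (nat_lit 1504) (nat_lit 16) (.fin (nat_lit 576458003527975489)))) (.br
 (nat_lit 6) (.ch (nat_lit 2) (.ev (nat_lit 1360) (nat_lit 8192) (.ev (nat_lit 1520) (nat_lit 4) (.ev (nat_lit
 1533) (nat_lit 16) .dd)))) (.ch (nat_lit 6) (.ev (nat_lit 1360) (nat_lit 8212) .dd)))))))))))) (.br (nat_lit
 46) (.ch (nat_lit 44) (.ev (nat_lit 52) (nat_lit 17063952) (.ev (nat_lit 180) (nat_lit 32768) (.ev (nat_lit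
 448) (nat_lit 277348614) .dd)))) (.ch (nat_lit 46) (.ev (nat_lit 52) (nat_lit 268435458) (.ev (nat_lit 436)
 (nat_lit 256) (.ev (nat_lit 532) (nat_lit 32768) (.ev (nat_lit 720) (nat_lit 20) (.nd (nat_lit 1344) (.br
 (nat_lit 3) (.ch (nat_lit 0) (.ev (nat_lit 1360) (nat_lit 8675328) (.ev (nat_lit 1472) (nat_lit 16777216) (.ev
 (nat_lit 1485) (nat_lit 524288) .dd)))) (.br (nat_lit 6) (.ch (nat_lit 3) (.ev (nat_lit 1360) (nat_lit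
 16785408) (.nd (nat_lit 1728) (.br (nat_lit 6) (.ch (nat_lit 1) (.ev (nat_lit 1744) (nat_lit 278528) (.fin
 (nat_lit 576450306941338163)))) (.ch (nat_lit 6) (.ev (nat_lit 1744) (nat_lit 8912896) (.fin (nat_lit
 576456904017396273)))))))) (.ch (nat_lit 6) (.ev (nat_lit 1360) (nat_lit 25706496) (.ev (nat_lit 1472)
 (nat_lit 8192) (.ev (nat_lit 1485) (nat_lit 262144) .dd)))))))))))))) (.br (nat_lit 49) (.br (nat_lit 48) (.ch
 (nat_lit 47) (.ev (nat_lit 52) (nat_lit 268976400) (.ev (nat_lit 180) (nat_lit 8388608) (.ev (nat_lit 480)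
 (nat_lit 17080326) .dd)))) (.ch (nat_lit 48) (.ev (nat_lit 52) (nat_lit 25952516) (.ev (nat_lit 116) (nat_lit
 32768) (.ev (nat_lit 1136) (nat_lit 2) (.nd (nat_lit 1344) (.br (nat_lit 5) (.ch (nat_lit 0) (.ev (nat_lit
 1456) (nat_lit 16384) (.ev (nat_lit 1568) (nat_lit 8192) (.ev (nat_lit 1680) (nat_lit 268435472) .dd)))) (.ch
 (nat_lit 5) (.ev (nat_lit 1360) (nat_lit 268451856) (.ev (nat_lit 1373) (nat_lit 8192) .dd)))))))))) (.br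
 (nat_lit 50) (.ch (nat_lit 49) (.ev (nat_lit 52) (nat_lit 16388) (.ev (nat_lit 160) (nat_lit 294428946) .dd)))
 (.br (nat_lit 52) (.ch (nat_lit 50) (.ev (nat_lit 52) (nat_lit 268493072) (.ev (nat_lit 308) (nat_lit 4) (.ev
 (nat_lit 340) (nat_lit 16777216) (.ev (nat_lit 468) (nat_lit 262144) (.ev (nat_lit 880) (nat_lit 524290) (.ev
 (nat_lit 893) (nat_lit 8388608) .dd))))))) (.ch (nat_lit 52) (.ev (nat_lit 52) (nat_lit 285532176) (.ev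
 (nat_lit 212) (nat_lit 256) (.ev (nat_lit 276) (nat_lit 2) (.nd (nat_lit 1344) (.br (nat_lit 2) (.ch (nat_lit
 0) (.ev (nat_lit 1456) (nat_lit 8388608) (.ev (nat_lit 1568) (nat_lit 524292) .dd))) (.ch (nat_lit 2) (.ev
 (nat_lit 1360) (nat_lit 524292) (.ev (nat_lit 1373) (nat_lit 8388608) .dd)))))))))))))))))

/-- The trie. -/
noncomputable def T : Tr := .nd (nat_lit 1000000) (.br (nat_lit 1) (.ch (nat_lit 0) (.ev (nat_lit 0) (nat_lit 2147483647) .dd)) (.br (nat_lit 3) (.ch (nat_lit 1) T1) (.ch (nat_lit 3) T3)))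

/-- The possible values. -/
noncomputable def oks : List ℕ := [15, 43, 274, 396]

/-- The parameters. -/
noncomputable def S : Pr := ⟨fun i l e => lget mz (lget [] (lget [] tabs i) l) e, oks, [(nat_lit 0), (nat_lit
 1), (nat_lit 0), (nat_lit 0), (nat_lit 0), (nat_lit 1), (nat_lit 0)], T, (nat_lit 2147483647), (nat_lit
 1073946281), (nat_lit 31), [(nat_lit 1), (nat_lit 2287041271849359)], [(nat_lit 40353607), (nat_lit 7890481)]⟩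

/-- Nothing known. -/
noncomputable def cs0 : Cs := (.cons (nat_lit 7) (nat_lit 0) (nat_lit 1) (.cons (nat_lit 53) (nat_lit 0) (nat_lit 1) .nil))

theorem part_1 : part S cs0 (nat_lit 1) = true := by decide +kernel

theorem part_3 : part S cs0 (nat_lit 3) = true := by decide +kernel

/-- Data of a prime. -/
noncomputable def D0 : PD := ⟨(nat_lit 7), (nat_lit 9), (1562932, 1, 2), (36264346, 14618947, 12267798), (17529001, 32002150, 38949929)⟩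

theorem D0_ok : D0.Ok := pdb_sound (s := 1) (C := ⟨⟨7, -2, -11, 7, 2, 4, 0, 3, -1⟩, (5, 2, 3)⟩) (by show Nat.Prime 7; norm_num) (by decide +kernel)

/-- Lines of the first type. -/
noncomputable def Cl0 : List C1 := [⟨⟨7, 2, -11, 7, -2, 4, 0, -3, -1⟩, (6, 1, 5)⟩,
  ⟨⟨0, 0, 0, 0, 0, 0, 0, 0, 0⟩, (0, 0, 0)⟩,
  ⟨⟨0, 0, 0, 0, 0, 0, 0, 0, 0⟩, (0, 0, 0)⟩,
  ⟨⟨0, 0, 0, 0, 0, 0, 0, 0, 0⟩, (0, 0, 0)⟩,
  ⟨⟨0, 0, 0, 0, 0, 0, 0, 0, 0⟩, (0, 0, 0)⟩,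
  ⟨⟨0, 0, 0, 0, 0, 0, 0, 0, 0⟩, (0, 0, 0)⟩,
  ⟨⟨0, 0, 0, 0, 0, 0, 0, 0, 0⟩, (0, 0, 0)⟩]

/-- Data of a prime. -/
noncomputable def D1 : PD := ⟨(nat_lit 53), (nat_lit 4), (4766609, 8, 14), (5741397, 394060, 6448212), (2544113, 2380180, 3415374)⟩

theorem D1_ok : D1.Ok := pdb_sound (s := 12) (C := ⟨⟨-13, 2, -76, -47, -58, 31, 18, -15, -13⟩, (40, 6, 18)⟩) (by show Nat.Prime 53; norm_num) (by decide +kernel)

/-- Lines of the first type. -/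
noncomputable def Cl1 : List C1 := [⟨⟨13, -2, -89, -47, -58, 16, 18, -15, -5⟩, (17, 16, 48)⟩,
  ⟨⟨-23, 38, -56, 43, 58, 1, 18, -9, -23⟩, (9, 50, 16)⟩,
  ⟨⟨-23, -38, -56, 43, -58, 1, 18, 9, -23⟩, (18, 47, 32)⟩,
  ⟨⟨-13, -2, -76, -47, 58, 31, 18, 15, -13⟩, (20, 3, 9)⟩,
  ⟨⟨0, 0, 0, 0, 0, 0, 0, 0, 0⟩, (0, 0, 0)⟩,
  ⟨⟨0, 0, 0, 0, 0, 0, 0, 0, 0⟩, (0, 0, 0)⟩,
  ⟨⟨0, 0, 0, 0, 0, 0, 0, 0, 0⟩, (0, 0, 0)⟩,
  ⟨⟨23, -38, -79, -43, -58, 44, -18, 9, -5⟩, (29, 8, 28)⟩,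
  ⟨⟨33, -18, -89, 67, 2, 4, 2, 23, -7⟩, (12, 34, 20)⟩,
  ⟨⟨0, 0, 0, 0, 0, 0, 0, 0, 0⟩, (0, 0, 0)⟩,
  ⟨⟨0, 0, 0, 0, 0, 0, 0, 0, 0⟩, (0, 0, 0)⟩,
  ⟨⟨0, 0, 0, 0, 0, 0, 0, 0, 0⟩, (0, 0, 0)⟩,
  ⟨⟨0, 0, 0, 0, 0, 0, 0, 0, 0⟩, (0, 0, 0)⟩,
  ⟨⟨27, 42, -76, 7, 58, 49, 22, -7, -5⟩, (1, 14, 44)⟩,
  ⟨⟨33, 18, -89, 67, -2, 4, 2, -23, -7⟩, (44, 1, 38)⟩,
  ⟨⟨0, 0, 0, 0, 0, 0, 0, 0, 0⟩, (0, 0, 0)⟩,
  ⟨⟨0, 0, 0, 0, 0, 0, 0, 0, 0⟩, (0, 0, 0)⟩,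
  ⟨⟨0, 0, 0, 0, 0, 0, 0, 0, 0⟩, (0, 0, 0)⟩,
  ⟨⟨0, 0, 0, 0, 0, 0, 0, 0, 0⟩, (0, 0, 0)⟩,
  ⟨⟨57, 42, -56, -37, 62, 41, -10, 1, -19⟩, (20, 27, 3)⟩,
  ⟨⟨13, 2, -89, -47, 58, 16, 18, 15, -5⟩, (50, 19, 4)⟩,
  ⟨⟨0, 0, 0, 0, 0, 0, 0, 0, 0⟩, (0, 0, 0)⟩,
  ⟨⟨0, 0, 0, 0, 0, 0, 0, 0, 0⟩, (0, 0, 0)⟩,
  ⟨⟨57, -42, -56, -37, -62, 41, -10, -1, -19⟩, (16, 11, 13)⟩,
  ⟨⟨0, 0, 0, 0, 0, 0, 0, 0, 0⟩, (0, 0, 0)⟩,
  ⟨⟨7, 58, -56, 27, 42, 49, 22, -7, -17⟩, (20, 9, 25)⟩,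
  ⟨⟨0, 0, 0, 0, 0, 0, 0, 0, 0⟩, (0, 0, 0)⟩,
  ⟨⟨67, -2, -71, 33, 18, 56, -2, 23, -5⟩, (28, 13, 49)⟩,
  ⟨⟨0, 0, 0, 0, 0, 0, 0, 0, 0⟩, (0, 0, 0)⟩,
  ⟨⟨0, 0, 0, 0, 0, 0, 0, 0, 0⟩, (0, 0, 0)⟩,
  ⟨⟨23, 38, -79, -43, 58, 44, -18, -9, -5⟩, (20, 11, 12)⟩,
  ⟨⟨0, 0, 0, 0, 0, 0, 0, 0, 0⟩, (0, 0, 0)⟩,
  ⟨⟨7, -58, -56, 27, -42, 49, 22, 7, -17⟩, (17, 5, 8)⟩,
  ⟨⟨0, 0, 0, 0, 0, 0, 0, 0, 0⟩, (0, 0, 0)⟩,
  ⟨⟨67, 2, -71, 33, -18, 56, -2, -23, -5⟩, (8, 34, 14)⟩,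
  ⟨⟨27, -42, -76, 7, -58, 49, 22, 7, -5⟩, (50, 11, 27)⟩,
  ⟨⟨0, 0, 0, 0, 0, 0, 0, 0, 0⟩, (0, 0, 0)⟩,
  ⟨⟨0, 0, 0, 0, 0, 0, 0, 0, 0⟩, (0, 0, 0)⟩,
  ⟨⟨0, 0, 0, 0, 0, 0, 0, 0, 0⟩, (0, 0, 0)⟩,
  ⟨⟨0, 0, 0, 0, 0, 0, 0, 0, 0⟩, (0, 0, 0)⟩,
  ⟨⟨0, 0, 0, 0, 0, 0, 0, 0, 0⟩, (0, 0, 0)⟩,
  ⟨⟨0, 0, 0, 0, 0, 0, 0, 0, 0⟩, (0, 0, 0)⟩,
  ⟨⟨0, 0, 0, 0, 0, 0, 0, 0, 0⟩, (0, 0, 0)⟩,
  ⟨⟨0, 0, 0, 0, 0, 0, 0, 0, 0⟩, (0, 0, 0)⟩,
  ⟨⟨0, 0, 0, 0, 0, 0, 0, 0, 0⟩, (0, 0, 0)⟩,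
  ⟨⟨-37, 62, -4, -57, -42, 1, 10, -1, -29⟩, (22, 21, 27)⟩,
  ⟨⟨0, 0, 0, 0, 0, 0, 0, 0, 0⟩, (0, 0, 0)⟩,
  ⟨⟨0, 0, 0, 0, 0, 0, 0, 0, 0⟩, (0, 0, 0)⟩,
  ⟨⟨0, 0, 0, 0, 0, 0, 0, 0, 0⟩, (0, 0, 0)⟩,
  ⟨⟨0, 0, 0, 0, 0, 0, 0, 0, 0⟩, (0, 0, 0)⟩,
  ⟨⟨0, 0, 0, 0, 0, 0, 0, 0, 0⟩, (0, 0, 0)⟩,
  ⟨⟨-37, -62, -4, -57, 42, 1, 10, 1, -29⟩, (6, 25, 17)⟩,
  ⟨⟨0, 0, 0, 0, 0, 0, 0, 0, 0⟩, (0, 0, 0)⟩]

/-- Data of a prime. -/
noncomputable def Dm : PD := ⟨(nat_lit 31), (nat_lit 2), (435, 8, 13), (281, 829, 278), (666, 926, 286)⟩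

theorem Dm_ok : Dm.Ok := pdb_sound (s := 3) (C := ⟨⟨11, 26, -43, -19, 34, 32, -12, -3, -1⟩, (11, 12, 19)⟩) (by show Nat.Prime 31; norm_num) (by decide +kernel)

/-- Lines of the first type. -/
noncomputable def Clm : List C1 := [⟨⟨-11, -26, -32, 19, -34, 13, 12, 3, -13⟩, (22, 24, 7)⟩,
  ⟨⟨0, 0, 0, 0, 0, 0, 0, 0, 0⟩, (0, 0, 0)⟩,
  ⟨⟨0, 0, 0, 0, 0, 0, 0, 0, 0⟩, (0, 0, 0)⟩,
  ⟨⟨29, 26, -37, 21, 6, 32, 8, -11, -7⟩, (2, 10, 23)⟩,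
  ⟨⟨0, 0, 0, 0, 0, 0, 0, 0, 0⟩, (0, 0, 0)⟩,
  ⟨⟨21, 6, -53, 29, 26, 8, 8, -11, -1⟩, (6, 26, 20)⟩,
  ⟨⟨0, 0, 0, 0, 0, 0, 0, 0, 0⟩, (0, 0, 0)⟩,
  ⟨⟨29, -26, -37, 21, -6, 32, 8, 11, -7⟩, (27, 11, 16)⟩,
  ⟨⟨0, 0, 0, 0, 0, 0, 0, 0, 0⟩, (0, 0, 0)⟩,
  ⟨⟨-9, -6, -43, -41, 14, 28, 4, 13, -5⟩, (4, 1, 12)⟩,
  ⟨⟨9, -6, -52, -41, -14, 13, -4, 13, -1⟩, (29, 16, 25)⟩,
  ⟨⟨21, -6, -53, 29, -26, 8, 8, 11, -1⟩, (7, 20, 13)⟩,
  ⟨⟨9, 6, -52, -41, 14, 13, -4, -13, -1⟩, (28, 24, 22)⟩,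
  ⟨⟨0, 0, 0, 0, 0, 0, 0, 0, 0⟩, (0, 0, 0)⟩,
  ⟨⟨0, 0, 0, 0, 0, 0, 0, 0, 0⟩, (0, 0, 0)⟩,
  ⟨⟨0, 0, 0, 0, 0, 0, 0, 0, 0⟩, (0, 0, 0)⟩,
  ⟨⟨11, -26, -43, -19, -34, 32, -12, 3, -1⟩, (25, 16, 15)⟩,
  ⟨⟨-9, 6, -43, -41, -14, 28, 4, -13, -5⟩, (3, 24, 9)⟩,
  ⟨⟨0, 0, 0, 0, 0, 0, 0, 0, 0⟩, (0, 0, 0)⟩,
  ⟨⟨0, 0, 0, 0, 0, 0, 0, 0, 0⟩, (0, 0, 0)⟩,
  ⟨⟨0, 0, 0, 0, 0, 0, 0, 0, 0⟩, (0, 0, 0)⟩,
  ⟨⟨0, 0, 0, 0, 0, 0, 0, 0, 0⟩, (0, 0, 0)⟩,
  ⟨⟨0, 0, 0, 0, 0, 0, 0, 0, 0⟩, (0, 0, 0)⟩,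
  ⟨⟨0, 0, 0, 0, 0, 0, 0, 0, 0⟩, (0, 0, 0)⟩,
  ⟨⟨0, 0, 0, 0, 0, 0, 0, 0, 0⟩, (0, 0, 0)⟩,
  ⟨⟨0, 0, 0, 0, 0, 0, 0, 0, 0⟩, (0, 0, 0)⟩,
  ⟨⟨0, 0, 0, 0, 0, 0, 0, 0, 0⟩, (0, 0, 0)⟩,
  ⟨⟨0, 0, 0, 0, 0, 0, 0, 0, 0⟩, (0, 0, 0)⟩,
  ⟨⟨0, 0, 0, 0, 0, 0, 0, 0, 0⟩, (0, 0, 0)⟩,
  ⟨⟨0, 0, 0, 0, 0, 0, 0, 0, 0⟩, (0, 0, 0)⟩,
  ⟨⟨-11, 26, -32, 19, 34, 13, 12, -3, -13⟩, (28, 8, 23)⟩]

/-- Unit moves. -/
noncomputable def U : List Mv := [mz,
  mz,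
  ⟨⟨1, 0, 0, 0, -1, 0, 0, 0, 1⟩, .nil, (nat_lit 0), (nat_lit 2), (nat_lit 1), (nat_lit 0), (0, 0, 0), [], 2⟩,
  mz,
  ⟨⟨-1, 0, 1, 0, 1, 0, 0, 0, 1⟩, .nil, (nat_lit 6), (nat_lit 0), (nat_lit 0), (nat_lit 1), (0, 0, 0), [], 1⟩,
  ⟨⟨-1, 0, 1, 0, -1, 0, 0, 0, 1⟩, .nil, (nat_lit 0), (nat_lit 5), (nat_lit 1), (nat_lit 0), (0, 0, 0), [], 2⟩,
  ⟨⟨-1, 0, 1, 0, 1, 0, 0, 0, 1⟩, .nil, (nat_lit 6), (nat_lit 0), (nat_lit 0), (nat_lit 1), (0, 0, 0), [], 1⟩]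

theorem v_ty : tyb Dm S.ty1 Clm = true := by decide +kernel

theorem v_ty0 : tyb D0 (S.tys.getD 0 0) Cl0 = true := by decide +kernel

theorem v_ty1 : tyb D1 (S.tys.getD 1 0) Cl1 = true := by decide +kernel

theorem v_msc : mscb S D0 [D1] Dm (nat_lit 10) = true := by decide +kernel

theorem v_mv0 : mvsn (nat_lit 305991403911683287) S D0 [D1] Dm (nat_lit 10) 0 D0 = true := by decide +kernel

theorem v_mv1 : mvsn (nat_lit 305991403911683287) S D0 [D1] Dm (nat_lit 10) 1 D1 = true := by decide +kernel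

theorem v_mm : mmsn (nat_lit 305991403911683287) S D0 [D1] Dm (nat_lit 10) = true := by decide +kernel

theorem v_un : unb S D0 (nat_lit 10) U = true := by decide +kernel

theorem v_ok : okb S.oks [(1, 2, 1), (0, 0, 0), (0, 0, 0), (0, 0, 0)] = true := by decide +kernel

theorem v_part : ∀ d < D0.p, (nat_lit 10).testBit d = true → part S (zc (D0 :: [D1])) d = true := by
  intro d hd h
  have h1 : ∀ d < 7, (nat_lit 10).testBit d = true → d = 1 ∨ d = 3 := by decide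
  rcases h1 d hd h with rfl | rfl
  · exact part_1
  · exact part_3

theorem main (n : ℕ) (ho : Odd n) (hr : ¬ Rep n) (h0 : Split 7 n) (h1 : Split 53 n) (hm : Split 31 n) :
    n ∈ EE := by
  refine concln (W := nat_lit 305991403911683287) (S := S) (P0 := D0) (Pl := [D1]) (Pm := Dm) (cn := nat_lit 10) ?_ Dm_ok v_ty ?_ ?_ v_msc ?_ v_mm v_un v_part v_ok
    n ho hr ?_ hm
  · simp only [List.forall_mem_cons]
    exact ⟨D0_ok, D1_ok, fun _ h => absurd h (by simp)⟩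
  · exact all2 (φ := fun j P => ∃ L, tyb P (S.tys.getD j 0) L = true) ⟨_, v_ty0⟩ ⟨_, v_ty1⟩
  · exact all2 (φ := fun j P => Nat.ble (S.pks.getD j 0) (Nat.pow P.p P.K) = true) (by decide +kernel) (by decide +kernel)
  · exact all2 (φ := fun i P => mvsn (nat_lit 305991403911683287) S D0 [D1] Dm (nat_lit 10) i P = true) v_mv0 v_mv1
  · simp only [List.forall_mem_cons]
    exact ⟨h0, h1, fun _ h => absurd h (by simp)⟩

end Pool.Agent.Work.MP_9954fe_nt.P7_53_31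

namespace Pool.Agent.Work.MP_9954fe_nt.P11_71_47

/-- Dummy move. -/
noncomputable def mz : Mv := ⟨⟨0, 0, 0, 0, 0, 0, 0, 0, 0⟩, .nil, (nat_lit 0), (nat_lit 0), (nat_lit 0), (nat_lit 0), (0, 0, 0), [], 0⟩

/-- Moves. -/
noncomputable def t0_1 : List Mv := [
  ⟨⟨3, 8, -11, -10, -1, 0, 4, -4, -11⟩, (.cons (nat_lit 84) (nat_lit 45) (nat_lit 119) (nat_lit 1) (.cons (nat_lit 4806) (nat_lit 1674) (nat_lit 1237) (nat_lit 1) .nil)), (nat_lit 1), (nat_lit 30), (nat_lit 15), (nat_lit 1), (4, 5, 9), [68, 424], 4⟩,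
  ⟨⟨3, 8, -11, 10, 1, 0, 4, -4, -11⟩, (.cons (nat_lit 2) (nat_lit 113) (nat_lit 15) (nat_lit 1) (.cons (nat_lit 3249) (nat_lit 1678) (nat_lit 4640) (nat_lit 1) .nil)), (nat_lit 21), (nat_lit 39), (nat_lit 11), (nat_lit 1), (4, 6, 9), [1, 1922], 24⟩,
  ⟨⟨1, -12, 0, 10, 1, 0, 4, -4, -11⟩, (.cons (nat_lit 120) (nat_lit 105) (nat_lit 106) (nat_lit 1) (.cons
 (nat_lit 3069) (nat_lit 2353) (nat_lit 4114) (nat_lit 1) .nil)), (nat_lit 26), (nat_lit 8), (nat_lit 11),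
 (nat_lit 1), (5, 6, 9), [120, 3147], 24⟩,
  ⟨⟨1, -12, 0, -10, -1, 0, 4, -4, -11⟩, (.cons (nat_lit 41) (nat_lit 79) (nat_lit 52) (nat_lit 1) (.cons (nat_lit 5040) (nat_lit 159) (nat_lit 2969) (nat_lit 1) .nil)), (nat_lit 46), (nat_lit 17), (nat_lit 15), (nat_lit 1), (5, 5, 9), [47, 4479], 4⟩,
  ⟨⟨1, -12, 0, -10, -1, 0, 4, -4, -11⟩, (.cons (nat_lit 41) (nat_lit 79) (nat_lit 52) (nat_lit 1) (.cons (nat_lit 5040) (nat_lit 159) (nat_lit 2969) (nat_lit 1) .nil)), (nat_lit 46), (nat_lit 17), (nat_lit 15), (nat_lit 1), (5, 5, 9), [47, 4479], 4⟩,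
  ⟨⟨1, -12, 0, 10, 1, 0, 4, -4, -11⟩, (.cons (nat_lit 120) (nat_lit 105) (nat_lit 106) (nat_lit 1) (.cons
 (nat_lit 3069) (nat_lit 2353) (nat_lit 4114) (nat_lit 1) .nil)), (nat_lit 26), (nat_lit 8), (nat_lit 11),
 (nat_lit 1), (5, 6, 9), [120, 3147], 24⟩,
  ⟨⟨1, -12, 0, -10, -1, 0, 4, -4, -11⟩, (.cons (nat_lit 41) (nat_lit 79) (nat_lit 52) (nat_lit 1) (.cons (nat_lit 5040) (nat_lit 159) (nat_lit 2969) (nat_lit 1) .nil)), (nat_lit 46), (nat_lit 17), (nat_lit 15), (nat_lit 1), (5, 5, 9), [47, 4479], 4⟩,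
  ⟨⟨3, 8, -11, 10, 1, 0, 4, -4, -11⟩, (.cons (nat_lit 2) (nat_lit 113) (nat_lit 15) (nat_lit 1) (.cons (nat_lit 3249) (nat_lit 1678) (nat_lit 4640) (nat_lit 1) .nil)), (nat_lit 21), (nat_lit 39), (nat_lit 11), (nat_lit 1), (4, 6, 9), [1, 1922], 24⟩,
  ⟨⟨1, -12, 0, -10, -1, 0, 4, -4, -11⟩, (.cons (nat_lit 41) (nat_lit 79) (nat_lit 52) (nat_lit 1) (.cons (nat_lit 5040) (nat_lit 159) (nat_lit 2969) (nat_lit 1) .nil)), (nat_lit 46), (nat_lit 17), (nat_lit 15), (nat_lit 1), (5, 5, 9), [47, 4479], 4⟩,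
  ⟨⟨3, 8, -11, -10, -1, 0, 4, -4, -11⟩, (.cons (nat_lit 84) (nat_lit 45) (nat_lit 119) (nat_lit 1) (.cons (nat_lit 4806) (nat_lit 1674) (nat_lit 1237) (nat_lit 1) .nil)), (nat_lit 1), (nat_lit 30), (nat_lit 15), (nat_lit 1), (4, 5, 9), [68, 424], 4⟩,
  ⟨⟨1, -12, 0, -10, -1, 0, 4, -4, -11⟩, (.cons (nat_lit 41) (nat_lit 79) (nat_lit 52) (nat_lit 1) (.cons (nat_lit 5040) (nat_lit 159) (nat_lit 2969) (nat_lit 1) .nil)), (nat_lit 46), (nat_lit 17), (nat_lit 15), (nat_lit 1), (5, 5, 9), [47, 4479], 4⟩]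

/-- Moves. -/
noncomputable def t0_4 : List Mv := [
  ⟨⟨-11, 0, 0, -4, 5, 12, -2, 8, -5⟩, (.cons (nat_lit 83) (nat_lit 12) (nat_lit 84) (nat_lit 1) (.cons (nat_lit 5040) (nat_lit 4958) (nat_lit 1033) (nat_lit 1) .nil)), (nat_lit 46), (nat_lit 30), (nat_lit 43), (nat_lit 1), (0, 5, 8), [43, 451], 40⟩,
  ⟨⟨9, 8, -5, 4, -5, -12, -2, 8, -5⟩, (.cons (nat_lit 86) (nat_lit 61) (nat_lit 61) (nat_lit 1) (.cons (nat_lit 1543) (nat_lit 1942) (nat_lit 1497) (nat_lit 1) .nil)), (nat_lit 15), (nat_lit 8), (nat_lit 36), (nat_lit 1), (8, 6, 8), [116, 3040], 5⟩,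
  ⟨⟨9, 8, -5, 4, -5, -12, -2, 8, -5⟩, (.cons (nat_lit 86) (nat_lit 61) (nat_lit 61) (nat_lit 1) (.cons (nat_lit 1543) (nat_lit 1942) (nat_lit 1497) (nat_lit 1) .nil)), (nat_lit 15), (nat_lit 8), (nat_lit 36), (nat_lit 1), (8, 6, 8), [116, 3040], 5⟩,
  ⟨⟨9, 8, -5, 4, -5, -12, -2, 8, -5⟩, (.cons (nat_lit 86) (nat_lit 61) (nat_lit 61) (nat_lit 1) (.cons (nat_lit 1543) (nat_lit 1942) (nat_lit 1497) (nat_lit 1) .nil)), (nat_lit 15), (nat_lit 8), (nat_lit 36), (nat_lit 1), (8, 6, 8), [116, 3040], 5⟩,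
  ⟨⟨9, 8, -5, -4, 5, 12, -2, 8, -5⟩, (.cons (nat_lit 64) (nat_lit 68) (nat_lit 111) (nat_lit 1) (.cons (nat_lit 1554) (nat_lit 4397) (nat_lit 1866) (nat_lit 1) .nil)), (nat_lit 1), (nat_lit 17), (nat_lit 43), (nat_lit 1), (8, 5, 8), [103, 1828], 40⟩,
  ⟨⟨-11, 0, 0, 4, -5, -12, -2, 8, -5⟩, (.cons (nat_lit 3) (nat_lit 69) (nat_lit 109) (nat_lit 1) (.cons (nat_lit 987) (nat_lit 2474) (nat_lit 3509) (nat_lit 1) .nil)), (nat_lit 32), (nat_lit 39), (nat_lit 36), (nat_lit 1), (0, 6, 8), [16, 1488], 5⟩,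
  ⟨⟨9, 8, -5, 4, -5, -12, -2, 8, -5⟩, (.cons (nat_lit 86) (nat_lit 61) (nat_lit 61) (nat_lit 1) (.cons (nat_lit 1543) (nat_lit 1942) (nat_lit 1497) (nat_lit 1) .nil)), (nat_lit 15), (nat_lit 8), (nat_lit 36), (nat_lit 1), (8, 6, 8), [116, 3040], 5⟩,
  ⟨⟨9, 8, -5, -4, 5, 12, -2, 8, -5⟩, (.cons (nat_lit 64) (nat_lit 68) (nat_lit 111) (nat_lit 1) (.cons (nat_lit 1554) (nat_lit 4397) (nat_lit 1866) (nat_lit 1) .nil)), (nat_lit 1), (nat_lit 17), (nat_lit 43), (nat_lit 1), (8, 5, 8), [103, 1828], 40⟩,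
  ⟨⟨-11, 0, 0, 4, -5, -12, -2, 8, -5⟩, (.cons (nat_lit 3) (nat_lit 69) (nat_lit 109) (nat_lit 1) (.cons (nat_lit 987) (nat_lit 2474) (nat_lit 3509) (nat_lit 1) .nil)), (nat_lit 32), (nat_lit 39), (nat_lit 36), (nat_lit 1), (0, 6, 8), [16, 1488], 5⟩,
  ⟨⟨9, 8, -5, 4, -5, -12, -2, 8, -5⟩, (.cons (nat_lit 86) (nat_lit 61) (nat_lit 61) (nat_lit 1) (.cons (nat_lit 1543) (nat_lit 1942) (nat_lit 1497) (nat_lit 1) .nil)), (nat_lit 15), (nat_lit 8), (nat_lit 36), (nat_lit 1), (8, 6, 8), [116, 3040], 5⟩,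
  ⟨⟨9, 8, -5, 4, -5, -12, -2, 8, -5⟩, (.cons (nat_lit 86) (nat_lit 61) (nat_lit 61) (nat_lit 1) (.cons (nat_lit 1543) (nat_lit 1942) (nat_lit 1497) (nat_lit 1) .nil)), (nat_lit 15), (nat_lit 8), (nat_lit 36), (nat_lit 1), (8, 6, 8), [116, 3040], 5⟩]

/-- Moves. -/
noncomputable def t1_1 : List Mv := [
  mz,
  ⟨⟨63, 40, -56, 10, 21, 70, -12, 60, -13⟩, (.cons (nat_lit 120) (nat_lit 54) (nat_lit 26) (nat_lit 1) (.cons
 (nat_lit 4580) (nat_lit 4789) (nat_lit 4651) (nat_lit 1) .nil)), (nat_lit 46), (nat_lit 28), (nat_lit 26),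
 (nat_lit 1), (31, 50, 11), [51, 2962], 12⟩,
  mz,
  ⟨⟨65, -24, -72, -4, 55, -48, -10, -40, -49⟩, (.cons (nat_lit 120) (nat_lit 55) (nat_lit 120) (nat_lit 1)
 (.cons (nat_lit 1440) (nat_lit 3833) (nat_lit 2184) (nat_lit 1) .nil)), (nat_lit 46), (nat_lit 44), (nat_lit
 0), (nat_lit 1), (37, 1, 38), [38, 1772], 24⟩,
  ⟨⟨27, 68, 16, 64, -15, -62, -6, 48, -43⟩, (.cons (nat_lit 83) (nat_lit 13) (nat_lit 24) (nat_lit 1) (.cons
 (nat_lit 4658) (nat_lit 1186) (nat_lit 3642) (nat_lit 1) .nil)), (nat_lit 33), (nat_lit 39), (nat_lit 25),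
 (nat_lit 1), (60, 16, 34), [76, 342], 46⟩,
  ⟨⟨-33, 20, -59, -64, -15, 62, -6, -48, -43⟩, (.cons (nat_lit 77) (nat_lit 62) (nat_lit 17) (nat_lit 1) (.cons
 (nat_lit 828) (nat_lit 2296) (nat_lit 4968) (nat_lit 1) .nil)), (nat_lit 37), (nat_lit 28), (nat_lit 16),
 (nat_lit 1), (23, 36, 30), [34, 2958], 41⟩,
  mz,
  ⟨⟨-29, 72, 20, 56, 25, -68, -38, 16, -35⟩, (.cons (nat_lit 47) (nat_lit 85) (nat_lit 97) (nat_lit 1) (.cons
 (nat_lit 4898) (nat_lit 188) (nat_lit 3186) (nat_lit 1) .nil)), (nat_lit 4), (nat_lit 12), (nat_lit 35),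
 (nat_lit 1), (33, 44, 31), [73, 768], 27⟩,
  ⟨⟨3, 40, -76, -64, -25, 12, 26, -32, -67⟩, (.cons (nat_lit 62) (nat_lit 36) (nat_lit 20) (nat_lit 1) (.cons
 (nat_lit 2626) (nat_lit 27) (nat_lit 185) (nat_lit 1) .nil)), (nat_lit 5), (nat_lit 33), (nat_lit 43),
 (nat_lit 1), (14, 9, 3), [12, 2369], 2⟩,
  mz,
  mz,
  ⟨⟨33, -20, -92, 64, 15, -2, 6, 48, -49⟩, (.cons (nat_lit 72) (nat_lit 55) (nat_lit 81) (nat_lit 1) (.cons
 (nat_lit 3059) (nat_lit 1467) (nat_lit 959) (nat_lit 1) .nil)), (nat_lit 45), (nat_lit 17), (nat_lit 10),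
 (nat_lit 1), (67, 3, 38), [102, 2396], 39⟩,
  ⟨⟨-51, -52, -5, 44, -15, -82, -42, 24, -25⟩, (.cons (nat_lit 64) (nat_lit 25) (nat_lit 1) (nat_lit 88) (.cons
 (nat_lit 2231) (nat_lit 111) (nat_lit 2420) (nat_lit 1) .nil)), (nat_lit 14), (nat_lit 31), (nat_lit 11),
 (nat_lit 1), (61, 49, 21), [114, 4257], 46⟩,
  mz,
  mz,
  ⟨⟨51, -52, -56, -44, -15, -38, 42, 24, -67⟩, (.cons (nat_lit 12) (nat_lit 91) (nat_lit 46) (nat_lit 1) (.cons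
 (nat_lit 2153) (nat_lit 1733) (nat_lit 1524) (nat_lit 1) .nil)), (nat_lit 33), (nat_lit 31), (nat_lit 36),
 (nat_lit 1), (24, 67, 49), [96, 2545], 46⟩,
  ⟨⟨17, 24, -89, -36, -55, -12, 54, -24, -53⟩, (.cons (nat_lit 92) (nat_lit 108) (nat_lit 12) (nat_lit 1)
 (.cons (nat_lit 2888) (nat_lit 4686) (nat_lit 1661) (nat_lit 1) .nil)), (nat_lit 1), (nat_lit 25), (nat_lit
 20), (nat_lit 1), (7, 52, 64), [58, 2295], 38⟩,
  mz,
  ⟨⟨9, 56, -64, -56, -25, -12, 38, -16, -73⟩, (.cons (nat_lit 38) (nat_lit 119) (nat_lit 95) (nat_lit 1) (.cons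
 (nat_lit 3600) (nat_lit 115) (nat_lit 2053) (nat_lit 1) .nil)), (nat_lit 19), (nat_lit 16), (nat_lit 18),
 (nat_lit 1), (56, 46, 55), [26, 609], 17⟩,
  ⟨⟨-61, -48, 25, 44, -55, -32, -22, -8, -55⟩, (.cons (nat_lit 65) (nat_lit 39) (nat_lit 93) (nat_lit 1) (.cons
 (nat_lit 2149) (nat_lit 4607) (nat_lit 2684) (nat_lit 1) .nil)), (nat_lit 1), (nat_lit 36), (nat_lit 39),
 (nat_lit 1), (9, 68, 37), [12, 2507], 20⟩,
  mz,
  mz,
  ⟨⟨37, 48, -73, -36, 55, 48, 54, 24, -1⟩, (.cons (nat_lit 25) (nat_lit 83) (nat_lit 63) (nat_lit 1) (.cons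
 (nat_lit 2163) (nat_lit 1758) (nat_lit 3450) (nat_lit 1) .nil)), (nat_lit 1), (nat_lit 22), (nat_lit 27),
 (nat_lit 1), (15, 66, 43), [50, 1386], 9⟩,
  ⟨⟨-61, 48, 25, 44, 55, -32, -22, 8, -55⟩, (.cons (nat_lit 38) (nat_lit 34) (nat_lit 86) (nat_lit 1) (.cons
 (nat_lit 3039) (nat_lit 4132) (nat_lit 952) (nat_lit 1) .nil)), (nat_lit 15), (nat_lit 41), (nat_lit 20),
 (nat_lit 1), (13, 43, 14), [68, 1355], 44⟩,
  ⟨⟨-39, 40, -41, 44, 55, -12, 22, -8, -77⟩, (.cons (nat_lit 86) (nat_lit 101) (nat_lit 106) (nat_lit 1) (.cons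
 (nat_lit 2593) (nat_lit 4782) (nat_lit 1471) (nat_lit 1) .nil)), (nat_lit 22), (nat_lit 38), (nat_lit 30),
 (nat_lit 1), (2, 56, 28), [52, 466], 5⟩,
  mz,
  ⟨⟨51, -4, 40, 10, -69, -20, 60, 12, -49⟩, (.cons (nat_lit 104) (nat_lit 17) (nat_lit 52) (nat_lit 1) (.cons
 (nat_lit 4832) (nat_lit 4434) (nat_lit 3130) (nat_lit 1) .nil)), (nat_lit 11), (nat_lit 24), (nat_lit 33),
 (nat_lit 1), (60, 41, 33), [38, 4285], 9⟩,
  mz,
  mz,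
  ⟨⟨9, 28, -85, 70, -11, -30, -4, -44, -49⟩, (.cons (nat_lit 3) (nat_lit 87) (nat_lit 45) (nat_lit 1) (.cons
 (nat_lit 3285) (nat_lit 1597) (nat_lit 51) (nat_lit 1) .nil)), (nat_lit 24), (nat_lit 18), (nat_lit 38),
 (nat_lit 1), (40, 35, 69), [64, 2494], 46⟩,
  mz,
  ⟨⟨-11, 72, -25, 50, -11, -80, -44, 4, -29⟩, (.cons (nat_lit 81) (nat_lit 92) (nat_lit 106) (nat_lit 1) (.cons
 (nat_lit 1101) (nat_lit 3638) (nat_lit 3681) (nat_lit 1) .nil)), (nat_lit 2), (nat_lit 11), (nat_lit 18),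
 (nat_lit 1), (44, 13, 34), [34, 3560], 43⟩,
  mz,
  ⟨⟨-29, -72, 20, 56, -25, -68, -38, -16, -35⟩, (.cons (nat_lit 41) (nat_lit 97) (nat_lit 27) (nat_lit 1)
 (.cons (nat_lit 1527) (nat_lit 1751) (nat_lit 4229) (nat_lit 1) .nil)), (nat_lit 19), (nat_lit 31), (nat_lit
 29), (nat_lit 1), (27, 36, 6), [86, 3264], 17⟩,
  ⟨⟨75, 20, -32, 10, -21, -80, 12, 60, -25⟩, (.cons (nat_lit 3) (nat_lit 89) (nat_lit 11) (nat_lit 1) (.cons
 (nat_lit 3179) (nat_lit 4361) (nat_lit 427) (nat_lit 1) .nil)), (nat_lit 39), (nat_lit 22), (nat_lit 42),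
 (nat_lit 1), (30, 4, 19), [37, 1161], 4⟩,
  mz,
  ⟨⟨3, -40, -76, -64, 25, 12, 26, 32, -67⟩, (.cons (nat_lit 84) (nat_lit 83) (nat_lit 5) (nat_lit 1) (.cons
 (nat_lit 4667) (nat_lit 156) (nat_lit 1811) (nat_lit 1) .nil)), (nat_lit 4), (nat_lit 34), (nat_lit 40),
 (nat_lit 1), (58, 17, 53), [94, 4447], 27⟩,
  mz,
  ⟨⟨17, -24, -89, 36, -55, 12, 54, 24, -53⟩, (.cons (nat_lit 37) (nat_lit 60) (nat_lit 37) (nat_lit 1) (.cons
 (nat_lit 2704) (nat_lit 2777) (nat_lit 491) (nat_lit 1) .nil)), (nat_lit 1), (nat_lit 41), (nat_lit 42),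
 (nat_lit 1), (5, 44, 66), [113, 4774], 38⟩,
  ⟨⟨-23, -72, 32, 64, -25, -52, -26, -32, -41⟩, (.cons (nat_lit 86) (nat_lit 51) (nat_lit 58) (nat_lit 1)
 (.cons (nat_lit 4464) (nat_lit 2391) (nat_lit 1952) (nat_lit 1) .nil)), (nat_lit 5), (nat_lit 14), (nat_lit
 4), (nat_lit 1), (21, 28, 33), [27, 4884], 2⟩,
  mz,
  mz,
  ⟨⟨75, 16, -52, 4, -55, -52, 10, 40, -59⟩, (.cons (nat_lit 17) (nat_lit 13) (nat_lit 10) (nat_lit 1) (.cons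
 (nat_lit 4002) (nat_lit 1655) (nat_lit 398) (nat_lit 1) .nil)), (nat_lit 3), (nat_lit 5), (nat_lit 1),
 (nat_lit 0), (5, 5, 48), [84, 642], 21⟩,
  ⟨⟨11, -72, -36, -50, 11, -30, 44, -4, -73⟩, (.cons (nat_lit 108) (nat_lit 54) (nat_lit 49) (nat_lit 1) (.cons
 (nat_lit 4386) (nat_lit 3651) (nat_lit 2553) (nat_lit 1) .nil)), (nat_lit 9), (nat_lit 21), (nat_lit 35),
 (nat_lit 1), (69, 22, 63), [92, 4192], 13⟩,
  ⟨⟨-39, -40, -41, 44, -55, -12, 22, 8, -77⟩, (.cons (nat_lit 54) (nat_lit 14) (nat_lit 43) (nat_lit 1) (.cons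
 (nat_lit 3645) (nat_lit 3408) (nat_lit 2591) (nat_lit 1) .nil)), (nat_lit 1), (nat_lit 7), (nat_lit 26),
 (nat_lit 1), (46, 10, 5), [67, 4733], 20⟩,
  mz,
  ⟨⟨51, 52, -56, -44, 15, -38, 42, -24, -67⟩, (.cons (nat_lit 94) (nat_lit 86) (nat_lit 88) (nat_lit 1) (.cons
 (nat_lit 41) (nat_lit 2210) (nat_lit 3118) (nat_lit 1) .nil)), (nat_lit 45), (nat_lit 44), (nat_lit 6),
 (nat_lit 1), (52, 15, 47), [69, 4733], 39⟩,
  ⟨⟨9, -16, 80, -10, -69, -10, 60, -12, -11⟩, (.cons (nat_lit 120) (nat_lit 42) (nat_lit 71) (nat_lit 1) (.cons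
 (nat_lit 3883) (nat_lit 2036) (nat_lit 2551) (nat_lit 1) .nil)), (nat_lit 46), (nat_lit 10), (nat_lit 25),
 (nat_lit 1), (33, 58, 7), [78, 2277], 39⟩,
  ⟨⟨9, -16, -89, -10, -69, 20, 60, -12, -49⟩, (.cons (nat_lit 96) (nat_lit 24) (nat_lit 51) (nat_lit 1) (.cons
 (nat_lit 3729) (nat_lit 1199) (nat_lit 1664) (nat_lit 1) .nil)), (nat_lit 17), (nat_lit 15), (nat_lit 44),
 (nat_lit 1), (19, 42, 32), [107, 212], 16⟩,
  ⟨⟨9, -56, -64, -56, 25, -12, 38, 16, -73⟩, (.cons (nat_lit 18) (nat_lit 91) (nat_lit 120) (nat_lit 1) (.cons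
 (nat_lit 1617) (nat_lit 4009) (nat_lit 3515) (nat_lit 1) .nil)), (nat_lit 4), (nat_lit 35), (nat_lit 12),
 (nat_lit 1), (4, 54, 9), [116, 4618], 27⟩,
  ⟨⟨-75, 16, 23, 4, 55, 48, -10, 40, -49⟩, (.cons (nat_lit 106) (nat_lit 34) (nat_lit 12) (nat_lit 1) (.cons
 (nat_lit 1533) (nat_lit 4938) (nat_lit 1) (nat_lit 3195) .nil)), (nat_lit 1), (nat_lit 0), (nat_lit 37),
 (nat_lit 1), (26, 45, 65), [96, 3227], 24⟩,
  ⟨⟨9, -76, -20, 44, 15, -82, -42, -24, -25⟩, (.cons (nat_lit 93) (nat_lit 113) (nat_lit 65) (nat_lit 1) (.cons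
 (nat_lit 4198) (nat_lit 2702) (nat_lit 3885) (nat_lit 1) .nil)), (nat_lit 45), (nat_lit 3), (nat_lit 41),
 (nat_lit 1), (1, 68, 19), [37, 2751], 39⟩,
  mz,
  ⟨⟨13, -72, 23, -70, -11, 40, 4, -44, -53⟩, (.cons (nat_lit 42) (nat_lit 36) (nat_lit 101) (nat_lit 1) (.cons
 (nat_lit 3059) (nat_lit 1222) (nat_lit 94) (nat_lit 1) .nil)), (nat_lit 24), (nat_lit 29), (nat_lit 9),
 (nat_lit 1), (14, 12, 48), [15, 4134], 46⟩,
  ⟨⟨9, 16, 80, -10, 69, -10, 60, 12, -11⟩, (.cons (nat_lit 119) (nat_lit 102) (nat_lit 9) (nat_lit 1) (.cons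
 (nat_lit 4177) (nat_lit 2304) (nat_lit 3089) (nat_lit 1) .nil)), (nat_lit 30), (nat_lit 15), (nat_lit 3),
 (nat_lit 1), (58, 46, 8), [101, 28], 31⟩,
  ⟨⟨75, -20, -32, 10, 21, -80, 12, -60, -25⟩, (.cons (nat_lit 120) (nat_lit 42) (nat_lit 90) (nat_lit 1) (.cons
 (nat_lit 2260) (nat_lit 1735) (nat_lit 409) (nat_lit 1) .nil)), (nat_lit 46), (nat_lit 11), (nat_lit 32),
 (nat_lit 1), (52, 59, 14), [73, 1615], 12⟩,
  mz,
  ⟨⟨-11, -72, -25, 50, 11, -80, -44, -4, -29⟩, (.cons (nat_lit 58) (nat_lit 77) (nat_lit 43) (nat_lit 1) (.cons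
 (nat_lit 4149) (nat_lit 3936) (nat_lit 2726) (nat_lit 1) .nil)), (nat_lit 38), (nat_lit 21), (nat_lit 12),
 (nat_lit 1), (38, 8, 10), [95, 3180], 13⟩,
  ⟨⟨-75, -20, 43, 10, -21, 70, -12, -60, -13⟩, (.cons (nat_lit 69) (nat_lit 71) (nat_lit 12) (nat_lit 1) (.cons
 (nat_lit 3667) (nat_lit 170) (nat_lit 3188) (nat_lit 1) .nil)), (nat_lit 6), (nat_lit 38), (nat_lit 30),
 (nat_lit 1), (2, 66, 6), [54, 3947], 3⟩,
  mz,
  mz,
  mz,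
  ⟨⟨11, 72, -36, 50, 11, 30, 44, 4, -73⟩, (.cons (nat_lit 59) (nat_lit 37) (nat_lit 29) (nat_lit 1) (.cons
 (nat_lit 4497) (nat_lit 1862) (nat_lit 1092) (nat_lit 1) .nil)), (nat_lit 21), (nat_lit 38), (nat_lit 34),
 (nat_lit 1), (4, 44, 16), [1, 2716], 46⟩,
  mz,
  ⟨⟨-13, 72, 36, 70, 11, -30, -4, 44, -49⟩, (.cons (nat_lit 80) (nat_lit 65) (nat_lit 100) (nat_lit 1) (.cons
 (nat_lit 370) (nat_lit 1435) (nat_lit 3217) (nat_lit 1) .nil)), (nat_lit 9), (nat_lit 34), (nat_lit 23),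
 (nat_lit 1), (35, 30, 49), [108, 1531], 13⟩,
  ⟨⟨75, -16, -52, 4, 55, -52, 10, -40, -59⟩, (.cons (nat_lit 120) (nat_lit 53) (nat_lit 7) (nat_lit 1) (.cons
 (nat_lit 321) (nat_lit 2803) (nat_lit 1402) (nat_lit 1) .nil)), (nat_lit 46), (nat_lit 3), (nat_lit 0),
 (nat_lit 1), (51, 51, 21), [34, 2546], 24⟩,
  mz,
  ⟨⟨-27, -68, 43, 64, -15, -2, 6, -48, -49⟩, (.cons (nat_lit 9) (nat_lit 100) (nat_lit 40) (nat_lit 1) (.cons
 (nat_lit 4695) (nat_lit 3393) (nat_lit 4644) (nat_lit 1) .nil)), (nat_lit 37), (nat_lit 19), (nat_lit 31),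
 (nat_lit 1), (60, 55, 34), [100, 4313], 41⟩,
  ⟨⟨-9, -28, -76, -70, 11, 40, 4, 44, -53⟩, (.cons (nat_lit 97) (nat_lit 3) (nat_lit 90) (nat_lit 1) (.cons
 (nat_lit 2789) (nat_lit 3617) (nat_lit 2165) (nat_lit 1) .nil)), (nat_lit 9), (nat_lit 13), (nat_lit 24),
 (nat_lit 1), (8, 7, 28), [59, 657], 13⟩,
  ⟨⟨-23, 72, 32, 64, 25, -52, -26, 32, -41⟩, (.cons (nat_lit 91) (nat_lit 12) (nat_lit 61) (nat_lit 1) (.cons
 (nat_lit 4155) (nat_lit 2570) (nat_lit 4905) (nat_lit 1) .nil)), (nat_lit 4), (nat_lit 13), (nat_lit 7),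
 (nat_lit 1), (27, 36, 12), [106, 805], 27⟩,
  ⟨⟨17, 24, 72, 36, 55, -48, 54, -24, -1⟩, (.cons (nat_lit 120) (nat_lit 52) (nat_lit 25) (nat_lit 1) (.cons
 (nat_lit 2263) (nat_lit 3813) (nat_lit 3346) (nat_lit 1) .nil)), (nat_lit 46), (nat_lit 41), (nat_lit 5),
 (nat_lit 1), (30, 51, 41), [48, 2305], 9⟩]

/-- Moves. -/
noncomputable def t1_4 : List Mv := [
  mz,
  ⟨⟨63, 40, -56, 10, 21, 70, -12, 60, -13⟩, (.cons (nat_lit 120) (nat_lit 54) (nat_lit 26) (nat_lit 1) (.cons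
 (nat_lit 4580) (nat_lit 4789) (nat_lit 4651) (nat_lit 1) .nil)), (nat_lit 46), (nat_lit 28), (nat_lit 26),
 (nat_lit 1), (31, 50, 11), [51, 2962], 12⟩,
  mz,
  ⟨⟨65, -24, -72, -4, 55, -48, -10, -40, -49⟩, (.cons (nat_lit 120) (nat_lit 55) (nat_lit 120) (nat_lit 1)
 (.cons (nat_lit 1440) (nat_lit 3833) (nat_lit 2184) (nat_lit 1) .nil)), (nat_lit 46), (nat_lit 44), (nat_lit
 0), (nat_lit 1), (37, 1, 38), [38, 1772], 24⟩,
  ⟨⟨-33, -20, -59, 64, -15, -62, -6, 48, -43⟩, (.cons (nat_lit 5) (nat_lit 89) (nat_lit 10) (nat_lit 1) (.cons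
 (nat_lit 1893) (nat_lit 4515) (nat_lit 1336) (nat_lit 1) .nil)), (nat_lit 14), (nat_lit 8), (nat_lit 25),
 (nat_lit 1), (45, 16, 34), [36, 1111], 46⟩,
  ⟨⟨27, -68, 16, 64, 15, -62, -6, -48, -43⟩, (.cons (nat_lit 112) (nat_lit 48) (nat_lit 66) (nat_lit 1) (.cons
 (nat_lit 3930) (nat_lit 94) (nat_lit 1419) (nat_lit 1) .nil)), (nat_lit 23), (nat_lit 22), (nat_lit 3),
 (nat_lit 1), (7, 35, 30), [23, 3431], 45⟩,
  mz,
  ⟨⟨-29, 72, 20, 56, 25, -68, -38, 16, -35⟩, (.cons (nat_lit 47) (nat_lit 85) (nat_lit 97) (nat_lit 1) (.cons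
 (nat_lit 4898) (nat_lit 188) (nat_lit 3186) (nat_lit 1) .nil)), (nat_lit 4), (nat_lit 12), (nat_lit 35),
 (nat_lit 1), (33, 44, 31), [73, 768], 27⟩,
  ⟨⟨3, 40, -76, 64, 25, -12, 26, -32, -67⟩, (.cons (nat_lit 103) (nat_lit 78) (nat_lit 52) (nat_lit 1) (.cons
 (nat_lit 4214) (nat_lit 2664) (nat_lit 2164) (nat_lit 1) .nil)), (nat_lit 12), (nat_lit 44), (nat_lit 3),
 (nat_lit 1), (14, 62, 3), [57, 1181], 34⟩,
  mz,
  mz,
  ⟨⟨33, -20, -92, 64, 15, -2, 6, 48, -49⟩, (.cons (nat_lit 72) (nat_lit 55) (nat_lit 81) (nat_lit 1) (.cons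
 (nat_lit 3059) (nat_lit 1467) (nat_lit 959) (nat_lit 1) .nil)), (nat_lit 45), (nat_lit 17), (nat_lit 10),
 (nat_lit 1), (67, 3, 38), [102, 2396], 39⟩,
  ⟨⟨9, 76, -20, -44, 15, 82, -42, 24, -25⟩, (.cons (nat_lit 79) (nat_lit 11) (nat_lit 14) (nat_lit 1) (.cons
 (nat_lit 381) (nat_lit 2442) (nat_lit 1190) (nat_lit 1) .nil)), (nat_lit 23), (nat_lit 32), (nat_lit 5),
 (nat_lit 1), (31, 22, 21), [1, 1983], 45⟩,
  mz,
  mz,
  ⟨⟨-9, 76, -11, -44, -15, -38, 42, 24, -67⟩, (.cons (nat_lit 27) (nat_lit 83) (nat_lit 9) (nat_lit 1) (.cons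
 (nat_lit 2322) (nat_lit 2751) (nat_lit 2508) (nat_lit 1) .nil)), (nat_lit 14), (nat_lit 16), (nat_lit 36),
 (nat_lit 1), (25, 67, 49), [58, 1098], 46⟩,
  ⟨⟨17, 24, -89, -36, -55, -12, 54, -24, -53⟩, (.cons (nat_lit 92) (nat_lit 108) (nat_lit 12) (nat_lit 1)
 (.cons (nat_lit 2888) (nat_lit 4686) (nat_lit 1661) (nat_lit 1) .nil)), (nat_lit 1), (nat_lit 25), (nat_lit
 20), (nat_lit 1), (7, 52, 64), [58, 2295], 38⟩,
  mz,
  ⟨⟨9, 56, -64, -56, -25, -12, 38, -16, -73⟩, (.cons (nat_lit 38) (nat_lit 119) (nat_lit 95) (nat_lit 1) (.cons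
 (nat_lit 3600) (nat_lit 115) (nat_lit 2053) (nat_lit 1) .nil)), (nat_lit 19), (nat_lit 16), (nat_lit 18),
 (nat_lit 1), (56, 46, 55), [26, 609], 17⟩,
  ⟨⟨39, 40, -80, 44, -55, -32, -22, -8, -55⟩, (.cons (nat_lit 120) (nat_lit 47) (nat_lit 54) (nat_lit 1) (.cons
 (nat_lit 779) (nat_lit 518) (nat_lit 1106) (nat_lit 1) .nil)), (nat_lit 46), (nat_lit 11), (nat_lit 39),
 (nat_lit 1), (28, 68, 37), [21, 2545], 20⟩,
  mz,
  mz,
  ⟨⟨17, -24, 72, 36, -55, -48, 54, 24, -1⟩, (.cons (nat_lit 8) (nat_lit 89) (nat_lit 83) (nat_lit 1) (.cons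
 (nat_lit 808) (nat_lit 4357) (nat_lit 825) (nat_lit 1) .nil)), (nat_lit 4), (nat_lit 28), (nat_lit 15),
 (nat_lit 1), (28, 5, 43), [21, 516], 27⟩,
  ⟨⟨-61, 48, 25, -44, -55, 32, -22, 8, -55⟩, (.cons (nat_lit 65) (nat_lit 58) (nat_lit 109) (nat_lit 1) (.cons
 (nat_lit 2279) (nat_lit 1410) (nat_lit 3129) (nat_lit 1) .nil)), (nat_lit 1), (nat_lit 40), (nat_lit 21),
 (nat_lit 1), (13, 28, 14), [56, 3777], 20⟩,
  ⟨⟨61, -48, -36, -44, -55, 12, 22, -8, -77⟩, (.cons (nat_lit 120) (nat_lit 80) (nat_lit 87) (nat_lit 1) (.cons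
 (nat_lit 3009) (nat_lit 272) (nat_lit 3489) (nat_lit 1) .nil)), (nat_lit 46), (nat_lit 36), (nat_lit 8),
 (nat_lit 1), (26, 15, 28), [54, 1709], 20⟩,
  mz,
  ⟨⟨51, -4, 40, 10, -69, -20, 60, 12, -49⟩, (.cons (nat_lit 104) (nat_lit 17) (nat_lit 52) (nat_lit 1) (.cons
 (nat_lit 4832) (nat_lit 4434) (nat_lit 3130) (nat_lit 1) .nil)), (nat_lit 11), (nat_lit 24), (nat_lit 33),
 (nat_lit 1), (60, 41, 33), [38, 4285], 9⟩,
  mz,
  mz,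
  ⟨⟨-13, -72, 36, 70, -11, -30, -4, -44, -49⟩, (.cons (nat_lit 105) (nat_lit 117) (nat_lit 1) (nat_lit 55)
 (.cons (nat_lit 1837) (nat_lit 1195) (nat_lit 1) (nat_lit 3195) .nil)), (nat_lit 23), (nat_lit 29), (nat_lit
 38), (nat_lit 1), (29, 35, 69), [2, 4745], 46⟩,
  mz,
  ⟨⟨-33, -68, -4, -50, 11, 80, -44, 4, -29⟩, (.cons (nat_lit 5) (nat_lit 106) (nat_lit 34) (nat_lit 1) (.cons
 (nat_lit 2984) (nat_lit 3737) (nat_lit 3999) (nat_lit 1) .nil)), (nat_lit 21), (nat_lit 9), (nat_lit 13),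
 (nat_lit 1), (61, 58, 34), [23, 245], 46⟩,
  mz,
  ⟨⟨-29, -72, 20, -56, 25, 68, -38, -16, -35⟩, (.cons (nat_lit 85) (nat_lit 84) (nat_lit 59) (nat_lit 1) (.cons
 (nat_lit 3447) (nat_lit 1332) (nat_lit 3344) (nat_lit 1) .nil)), (nat_lit 12), (nat_lit 15), (nat_lit 37),
 (nat_lit 1), (27, 35, 6), [98, 442], 34⟩,
  ⟨⟨-63, 40, 7, 10, -21, -80, 12, 60, -25⟩, (.cons (nat_lit 114) (nat_lit 13) (nat_lit 84) (nat_lit 1) (.cons
 (nat_lit 3531) (nat_lit 156) (nat_lit 4966) (nat_lit 1) .nil)), (nat_lit 8), (nat_lit 25), (nat_lit 42),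
 (nat_lit 1), (60, 4, 19), [105, 4933], 4⟩,
  mz,
  ⟨⟨3, -40, -76, 64, -25, -12, 26, 32, -67⟩, (.cons (nat_lit 104) (nat_lit 13) (nat_lit 70) (nat_lit 1) (.cons
 (nat_lit 554) (nat_lit 3966) (nat_lit 2625) (nat_lit 1) .nil)), (nat_lit 19), (nat_lit 4), (nat_lit 25),
 (nat_lit 1), (58, 54, 53), [114, 531], 17⟩,
  mz,
  ⟨⟨37, 48, 36, 36, -55, 12, 54, 24, -53⟩, (.cons (nat_lit 120) (nat_lit 55) (nat_lit 5) (nat_lit 1) (.cons
 (nat_lit 2394) (nat_lit 323) (nat_lit 3116) (nat_lit 1) .nil)), (nat_lit 46), (nat_lit 6), (nat_lit 42),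
 (nat_lit 1), (61, 44, 66), [6, 4126], 38⟩,
  ⟨⟨-23, -72, 32, 64, -25, -52, -26, -32, -41⟩, (.cons (nat_lit 86) (nat_lit 51) (nat_lit 58) (nat_lit 1)
 (.cons (nat_lit 4464) (nat_lit 2391) (nat_lit 1952) (nat_lit 1) .nil)), (nat_lit 5), (nat_lit 14), (nat_lit
 4), (nat_lit 1), (21, 28, 33), [27, 4884], 2⟩,
  mz,
  mz,
  ⟨⟨-65, 24, -7, -4, 55, 52, 10, 40, -59⟩, (.cons (nat_lit 8) (nat_lit 91) (nat_lit 25) (nat_lit 1) (.cons
 (nat_lit 4971) (nat_lit 535) (nat_lit 2015) (nat_lit 1) .nil)), (nat_lit 1), (nat_lit 0), (nat_lit 10),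
 (nat_lit 1), (43, 66, 48), [94, 679], 24⟩,
  ⟨⟨33, 68, -37, -50, 11, -30, 44, -4, -73⟩, (.cons (nat_lit 119) (nat_lit 35) (nat_lit 1) (nat_lit 22) (.cons
 (nat_lit 4907) (nat_lit 3138) (nat_lit 2453) (nat_lit 1) .nil)), (nat_lit 38), (nat_lit 26), (nat_lit 35),
 (nat_lit 1), (65, 22, 63), [43, 41], 13⟩,
  ⟨⟨-39, -40, -41, 44, -55, -12, 22, 8, -77⟩, (.cons (nat_lit 54) (nat_lit 14) (nat_lit 43) (nat_lit 1) (.cons
 (nat_lit 3645) (nat_lit 3408) (nat_lit 2591) (nat_lit 1) .nil)), (nat_lit 1), (nat_lit 7), (nat_lit 26),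
 (nat_lit 1), (46, 10, 5), [67, 4733], 20⟩,
  mz,
  ⟨⟨51, 52, -56, -44, 15, -38, 42, -24, -67⟩, (.cons (nat_lit 94) (nat_lit 86) (nat_lit 88) (nat_lit 1) (.cons
 (nat_lit 41) (nat_lit 2210) (nat_lit 3118) (nat_lit 1) .nil)), (nat_lit 45), (nat_lit 44), (nat_lit 6),
 (nat_lit 1), (52, 15, 47), [69, 4733], 39⟩,
  ⟨⟨51, 4, -91, 10, 69, 10, 60, -12, -11⟩, (.cons (nat_lit 29) (nat_lit 30) (nat_lit 94) (nat_lit 1) (.cons
 (nat_lit 2037) (nat_lit 4520) (nat_lit 3659) (nat_lit 1) .nil)), (nat_lit 36), (nat_lit 24), (nat_lit 14),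
 (nat_lit 1), (45, 13, 7), [37, 2878], 38⟩,
  ⟨⟨9, -16, -89, 10, 69, -20, 60, -12, -49⟩, (.cons (nat_lit 63) (nat_lit 6) (nat_lit 9) (nat_lit 1) (.cons
 (nat_lit 2301) (nat_lit 4905) (nat_lit 1577) (nat_lit 1) .nil)), (nat_lit 1), (nat_lit 31), (nat_lit 45),
 (nat_lit 1), (19, 29, 32), [34, 10], 8⟩,
  ⟨⟨9, -56, -64, 56, -25, 12, 38, 16, -73⟩, (.cons (nat_lit 18) (nat_lit 89) (nat_lit 16) (nat_lit 1) (.cons
 (nat_lit 3188) (nat_lit 2350) (nat_lit 394) (nat_lit 1) .nil)), (nat_lit 5), (nat_lit 20), (nat_lit 31),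
 (nat_lit 1), (4, 17, 9), [1, 209], 2⟩,
  ⟨⟨-75, 16, 23, -4, -55, -48, -10, 40, -49⟩, (.cons (nat_lit 45) (nat_lit 58) (nat_lit 16) (nat_lit 1) (.cons
 (nat_lit 774) (nat_lit 4292) (nat_lit 1859) (nat_lit 1) .nil)), (nat_lit 3), (nat_lit 42), (nat_lit 1),
 (nat_lit 0), (26, 26, 65), [15, 3192], 21⟩,
  ⟨⟨-51, 52, -5, -44, -15, 82, -42, -24, -25⟩, (.cons (nat_lit 97) (nat_lit 79) (nat_lit 119) (nat_lit 1)
 (.cons (nat_lit 4340) (nat_lit 422) (nat_lit 2221) (nat_lit 1) .nil)), (nat_lit 37), (nat_lit 33), (nat_lit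
 15), (nat_lit 1), (18, 3, 19), [45, 337], 41⟩,
  mz,
  ⟨⟨13, -72, 23, 70, 11, -40, 4, -44, -53⟩, (.cons (nat_lit 110) (nat_lit 78) (nat_lit 61) (nat_lit 1) (.cons
 (nat_lit 4841) (nat_lit 1750) (nat_lit 2908) (nat_lit 1) .nil)), (nat_lit 26), (nat_lit 29), (nat_lit 30),
 (nat_lit 1), (14, 59, 48), [41, 2831], 46⟩,
  ⟨⟨51, -4, -91, 10, -69, 10, 60, 12, -11⟩, (.cons (nat_lit 73) (nat_lit 46) (nat_lit 69) (nat_lit 1) (.cons
 (nat_lit 4597) (nat_lit 3443) (nat_lit 4588) (nat_lit 1) .nil)), (nat_lit 1), (nat_lit 16), (nat_lit 2),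
 (nat_lit 1), (21, 25, 8), [72, 3475], 39⟩,
  ⟨⟨75, -20, -32, -10, -21, 80, 12, -60, -25⟩, (.cons (nat_lit 81) (nat_lit 51) (nat_lit 77) (nat_lit 1) (.cons
 (nat_lit 3993) (nat_lit 2116) (nat_lit 1527) (nat_lit 1) .nil)), (nat_lit 41), (nat_lit 38), (nat_lit 17),
 (nat_lit 1), (52, 12, 14), [31, 4142], 3⟩,
  mz,
  ⟨⟨-33, 68, -4, -50, -11, 80, -44, -4, -29⟩, (.cons (nat_lit 108) (nat_lit 57) (nat_lit 1) (nat_lit 0) (.cons
 (nat_lit 2624) (nat_lit 1676) (nat_lit 853) (nat_lit 1) .nil)), (nat_lit 23), (nat_lit 45), (nat_lit 13),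
 (nat_lit 1), (43, 63, 10), [54, 401], 46⟩,
  ⟨⟨-75, -20, 43, -10, 21, -70, -12, -60, -13⟩, (.cons (nat_lit 78) (nat_lit 18) (nat_lit 1) (nat_lit 110)
 (.cons (nat_lit 2500) (nat_lit 553) (nat_lit 252) (nat_lit 1) .nil)), (nat_lit 1), (nat_lit 11), (nat_lit 15),
 (nat_lit 1), (2, 5, 6), [119, 4292], 12⟩,
  mz,
  mz,
  mz,
  ⟨⟨33, -68, -37, -50, -11, -30, 44, 4, -73⟩, (.cons (nat_lit 49) (nat_lit 51) (nat_lit 12) (nat_lit 1) (.cons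
 (nat_lit 1677) (nat_lit 212) (nat_lit 1812) (nat_lit 1) .nil)), (nat_lit 2), (nat_lit 36), (nat_lit 29),
 (nat_lit 1), (12, 27, 16), [78, 649], 43⟩,
  mz,
  ⟨⟨-13, 72, 36, 70, 11, -30, -4, 44, -49⟩, (.cons (nat_lit 80) (nat_lit 65) (nat_lit 100) (nat_lit 1) (.cons
 (nat_lit 370) (nat_lit 1435) (nat_lit 3217) (nat_lit 1) .nil)), (nat_lit 9), (nat_lit 34), (nat_lit 23),
 (nat_lit 1), (35, 30, 49), [108, 1531], 13⟩,
  ⟨⟨-65, -24, -7, -4, -55, 52, 10, -40, -59⟩, (.cons (nat_lit 78) (nat_lit 74) (nat_lit 83) (nat_lit 1) (.cons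
 (nat_lit 1725) (nat_lit 3750) (nat_lit 1632) (nat_lit 1) .nil)), (nat_lit 0), (nat_lit 33), (nat_lit 31),
 (nat_lit 1), (41, 20, 21), [26, 3542], 18⟩,
  mz,
  ⟨⟨33, 20, -92, 64, -15, -2, 6, -48, -49⟩, (.cons (nat_lit 24) (nat_lit 57) (nat_lit 107) (nat_lit 1) (.cons
 (nat_lit 267) (nat_lit 40) (nat_lit 5010) (nat_lit 1) .nil)), (nat_lit 10), (nat_lit 28), (nat_lit 31),
 (nat_lit 1), (45, 55, 34), [40, 1507], 41⟩,
  ⟨⟨-9, -28, -76, 70, -11, -40, 4, 44, -53⟩, (.cons (nat_lit 0) (nat_lit 23) (nat_lit 28) (nat_lit 1) (.cons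
 (nat_lit 1931) (nat_lit 4697) (nat_lit 4543) (nat_lit 1) .nil)), (nat_lit 45), (nat_lit 43), (nat_lit 26),
 (nat_lit 1), (8, 64, 28), [107, 3028], 43⟩,
  ⟨⟨-23, 72, 32, -64, -25, 52, -26, 32, -41⟩, (.cons (nat_lit 74) (nat_lit 69) (nat_lit 26) (nat_lit 1) (.cons
 (nat_lit 3613) (nat_lit 1694) (nat_lit 1756) (nat_lit 1) .nil)), (nat_lit 19), (nat_lit 43), (nat_lit 22),
 (nat_lit 1), (27, 35, 12), [31, 1902], 17⟩,
  ⟨⟨37, -48, -73, 36, 55, -48, 54, -24, -1⟩, (.cons (nat_lit 36) (nat_lit 18) (nat_lit 120) (nat_lit 1) (.cons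
 (nat_lit 3354) (nat_lit 2953) (nat_lit 944) (nat_lit 1) .nil)), (nat_lit 1), (nat_lit 6), (nat_lit 5),
 (nat_lit 1), (11, 51, 41), [83, 3395], 9⟩]

/-- Moves. -/
noncomputable def t4_1 : List Mv := [
  mz,
  ⟨⟨-25, 12, -36, 22, -35, -36, 20, 28, -37⟩, (.cons (nat_lit 44) (nat_lit 83) (nat_lit 104) (nat_lit 1) (.cons
 (nat_lit 2433) (nat_lit 3255) (nat_lit 4093) (nat_lit 1) .nil)), (nat_lit 2), (nat_lit 0), (nat_lit 0),
 (nat_lit 0), (2, 2, 36), [101, 1382], 0⟩,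
  ⟨⟨-49, 12, 36, -2, -35, 36, -28, -20, -13⟩, (.cons (nat_lit 57) (nat_lit 109) (nat_lit 1) (nat_lit 88) (.cons
 (nat_lit 2074) (nat_lit 4070) (nat_lit 162) (nat_lit 1) .nil)), (nat_lit 1), (nat_lit 0), (nat_lit 0),
 (nat_lit 0), (17, 17, 3), [118, 254], 0⟩,
  ⟨⟨-51, 4, 19, -2, -45, -14, -12, 12, -37⟩, (.cons (nat_lit 41) (nat_lit 5) (nat_lit 100) (nat_lit 1) (.cons
 (nat_lit 2703) (nat_lit 2830) (nat_lit 3860) (nat_lit 1) .nil)), (nat_lit 33), (nat_lit 0), (nat_lit 0),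
 (nat_lit 0), (7, 27, 21), [35, 1816], 0⟩,
  mz,
  ⟨⟨25, -12, -61, 22, -35, 14, -20, -28, -17⟩, (.cons (nat_lit 105) (nat_lit 98) (nat_lit 25) (nat_lit 1)
 (.cons (nat_lit 2891) (nat_lit 3761) (nat_lit 1398) (nat_lit 1) .nil)), (nat_lit 21), (nat_lit 0), (nat_lit
 0), (nat_lit 0), (9, 38, 21), [16, 4447], 0⟩,
  mz,
  mz,
  mz,
  ⟨⟨-17, -48, 0, 40, -17, 0, 10, -16, -47⟩, (.cons (nat_lit 2) (nat_lit 2) (nat_lit 14) (nat_lit 1) (.cons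
 (nat_lit 3252) (nat_lit 3540) (nat_lit 4619) (nat_lit 1) .nil)), (nat_lit 36), (nat_lit 0), (nat_lit 0),
 (nat_lit 0), (6, 8, 2), [12, 2115], 0⟩,
  mz,
  ⟨⟨17, 48, -17, 40, -17, -40, -10, 16, -37⟩, (.cons (nat_lit 73) (nat_lit 26) (nat_lit 47) (nat_lit 1) (.cons
 (nat_lit 1789) (nat_lit 4205) (nat_lit 1) (nat_lit 1065) .nil)), (nat_lit 9), (nat_lit 0), (nat_lit 0),
 (nat_lit 0), (25, 45, 24), [84, 4076], 0⟩,
  ⟨⟨17, -36, -45, -20, 23, -30, 38, 8, -37⟩, (.cons (nat_lit 102) (nat_lit 97) (nat_lit 52) (nat_lit 1) (.cons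
 (nat_lit 2064) (nat_lit 228) (nat_lit 3908) (nat_lit 1) .nil)), (nat_lit 32), (nat_lit 0), (nat_lit 0),
 (nat_lit 0), (19, 44, 1), [46, 3729], 0⟩,
  mz,
  ⟨⟨-51, -4, 19, -2, 45, -14, -12, -12, -37⟩, (.cons (nat_lit 35) (nat_lit 41) (nat_lit 1) (nat_lit 55) (.cons
 (nat_lit 2735) (nat_lit 1353) (nat_lit 4252) (nat_lit 1) .nil)), (nat_lit 33), (nat_lit 0), (nat_lit 0),
 (nat_lit 0), (25, 36, 28), [97, 2746], 0⟩,
  ⟨⟨9, 4, -61, 40, 23, -10, 22, -32, -29⟩, (.cons (nat_lit 40) (nat_lit 2) (nat_lit 37) (nat_lit 1) (.cons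
 (nat_lit 4368) (nat_lit 2575) (nat_lit 529) (nat_lit 1) .nil)), (nat_lit 35), (nat_lit 0), (nat_lit 0),
 (nat_lit 0), (18, 33, 44), [96, 2131], 0⟩,
  ⟨⟨-13, 36, 45, 40, 23, -30, -22, 32, -7⟩, (.cons (nat_lit 63) (nat_lit 16) (nat_lit 54) (nat_lit 1) (.cons
 (nat_lit 4024) (nat_lit 2404) (nat_lit 3706) (nat_lit 1) .nil)), (nat_lit 27), (nat_lit 0), (nat_lit 0),
 (nat_lit 0), (5, 28, 41), [105, 4789], 0⟩,
  mz,
  ⟨⟨19, 0, -63, 0, -47, 0, 42, 0, -23⟩, (.cons (nat_lit 38) (nat_lit 13) (nat_lit 51) (nat_lit 1) (.cons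
 (nat_lit 4804) (nat_lit 1325) (nat_lit 2661) (nat_lit 1) .nil)), (nat_lit 29), (nat_lit 0), (nat_lit 0),
 (nat_lit 0), (16, 0, 23), [93, 2039], 0⟩,
  ⟨⟨-39, 32, 8, -20, -33, -20, 6, 24, -41⟩, (.cons (nat_lit 101) (nat_lit 109) (nat_lit 63) (nat_lit 1) (.cons
 (nat_lit 4837) (nat_lit 3072) (nat_lit 1638) (nat_lit 1) .nil)), (nat_lit 22), (nat_lit 0), (nat_lit 0),
 (nat_lit 0), (25, 8, 7), [14, 1983], 0⟩,
  ⟨⟨17, -36, 28, -20, 23, 50, 38, 8, -1⟩, (.cons (nat_lit 71) (nat_lit 98) (nat_lit 69) (nat_lit 1) (.cons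
 (nat_lit 3989) (nat_lit 4877) (nat_lit 1312) (nat_lit 1) .nil)), (nat_lit 32), (nat_lit 0), (nat_lit 0),
 (nat_lit 0), (2, 17, 10), [119, 3425], 0⟩,
  ⟨⟨21, 32, -49, -2, 35, 36, -28, 20, -13⟩, (.cons (nat_lit 14) (nat_lit 116) (nat_lit 48) (nat_lit 1) (.cons
 (nat_lit 1193) (nat_lit 4790) (nat_lit 4996) (nat_lit 1) .nil)), (nat_lit 46), (nat_lit 0), (nat_lit 0),
 (nat_lit 0), (30, 24, 7), [41, 940], 0⟩,
  ⟨⟨45, 8, -49, -20, 33, -20, 6, -24, -41⟩, (.cons (nat_lit 51) (nat_lit 111) (nat_lit 34) (nat_lit 1) (.cons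
 (nat_lit 3060) (nat_lit 811) (nat_lit 3819) (nat_lit 1) .nil)), (nat_lit 25), (nat_lit 0), (nat_lit 0),
 (nat_lit 0), (40, 24, 21), [15, 2235], 0⟩,
  mz,
  mz,
  ⟨⟨-45, 8, -4, 20, 33, -40, -6, -24, -35⟩, (.cons (nat_lit 120) (nat_lit 61) (nat_lit 33) (nat_lit 1) (.cons
 (nat_lit 5040) (nat_lit 4353) (nat_lit 4754) (nat_lit 1) .nil)), (nat_lit 25), (nat_lit 0), (nat_lit 0),
 (nat_lit 0), (40, 24, 21), [85, 2], 0⟩,
  ⟨⟨-21, 32, -28, -2, -35, -34, 28, 20, -41⟩, (.cons (nat_lit 66) (nat_lit 36) (nat_lit 109) (nat_lit 1) (.cons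
 (nat_lit 2362) (nat_lit 3363) (nat_lit 4530) (nat_lit 1) .nil)), (nat_lit 5), (nat_lit 0), (nat_lit 0),
 (nat_lit 0), (30, 23, 7), [68, 2660], 0⟩,
  ⟨⟨21, -44, 8, 20, 23, 30, 38, -8, -37⟩, (.cons (nat_lit 115) (nat_lit 37) (nat_lit 118) (nat_lit 1) (.cons
 (nat_lit 3818) (nat_lit 793) (nat_lit 2844) (nat_lit 1) .nil)), (nat_lit 31), (nat_lit 0), (nat_lit 0),
 (nat_lit 0), (39, 17, 37), [26, 3647], 0⟩,
  ⟨⟨-45, -8, -4, -20, 33, 40, -6, 24, -35⟩, (.cons (nat_lit 120) (nat_lit 108) (nat_lit 117) (nat_lit 1) (.cons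
 (nat_lit 5040) (nat_lit 2870) (nat_lit 1625) (nat_lit 1) .nil)), (nat_lit 28), (nat_lit 0), (nat_lit 0),
 (nat_lit 0), (29, 39, 7), [50, 1506], 0⟩,
  ⟨⟨19, 0, 44, 0, -47, 0, 42, 0, -19⟩, (.cons (nat_lit 120) (nat_lit 106) (nat_lit 71) (nat_lit 1) (.cons
 (nat_lit 5040) (nat_lit 2856) (nat_lit 1565) (nat_lit 1) .nil)), (nat_lit 29), (nat_lit 0), (nat_lit 0),
 (nat_lit 0), (31, 0, 24), [35, 466], 0⟩,
  mz,
  ⟨⟨13, 36, 32, -40, 23, 10, 22, 32, -29⟩, (.cons (nat_lit 20) (nat_lit 107) (nat_lit 60) (nat_lit 1) (.cons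
 (nat_lit 812) (nat_lit 1332) (nat_lit 4491) (nat_lit 1) .nil)), (nat_lit 27), (nat_lit 0), (nat_lit 0),
 (nat_lit 0), (5, 28, 41), [115, 5035], 0⟩,
  ⟨⟨-9, 4, -52, 40, -23, -30, -22, -32, -7⟩, (.cons (nat_lit 75) (nat_lit 31) (nat_lit 28) (nat_lit 1) (.cons
 (nat_lit 1289) (nat_lit 4715) (nat_lit 2608) (nat_lit 1) .nil)), (nat_lit 20), (nat_lit 0), (nat_lit 0),
 (nat_lit 0), (18, 14, 44), [118, 4901], 0⟩,
  ⟨⟨-39, -8, -17, -2, -45, 16, 12, -12, -49⟩, (.cons (nat_lit 62) (nat_lit 53) (nat_lit 92) (nat_lit 1) (.cons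
 (nat_lit 4530) (nat_lit 4404) (nat_lit 1429) (nat_lit 1) .nil)), (nat_lit 3), (nat_lit 0), (nat_lit 0),
 (nat_lit 0), (3, 11, 28), [109, 3989], 0⟩,
  mz,
  ⟨⟨17, 36, 28, 20, 23, -50, 38, -8, -1⟩, (.cons (nat_lit 56) (nat_lit 1) (nat_lit 71) (nat_lit 1) (.cons
 (nat_lit 1621) (nat_lit 2561) (nat_lit 4316) (nat_lit 1) .nil)), (nat_lit 16), (nat_lit 0), (nat_lit 0),
 (nat_lit 0), (28, 44, 46), [100, 3145], 0⟩,
  ⟨⟨-17, 48, 0, -40, -17, 0, 10, 16, -47⟩, (.cons (nat_lit 61) (nat_lit 120) (nat_lit 114) (nat_lit 1) (.cons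
 (nat_lit 4407) (nat_lit 1115) (nat_lit 4666) (nat_lit 1) .nil)), (nat_lit 9), (nat_lit 0), (nat_lit 0),
 (nat_lit 0), (25, 45, 24), [3, 2536], 0⟩,
  mz,
  ⟨⟨17, -48, -17, -40, -17, 40, -10, -16, -37⟩, (.cons (nat_lit 44) (nat_lit 64) (nat_lit 59) (nat_lit 1)
 (.cons (nat_lit 4326) (nat_lit 3831) (nat_lit 1655) (nat_lit 1) .nil)), (nat_lit 36), (nat_lit 0), (nat_lit
 0), (nat_lit 0), (6, 8, 2), [46, 1021], 0⟩,
  mz,
  mz,
  mz,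
  ⟨⟨45, -16, -1, 22, 35, -36, 20, -28, -37⟩, (.cons (nat_lit 47) (nat_lit 64) (nat_lit 109) (nat_lit 1) (.cons
 (nat_lit 4743) (nat_lit 1552) (nat_lit 468) (nat_lit 1) .nil)), (nat_lit 45), (nat_lit 0), (nat_lit 0),
 (nat_lit 0), (12, 9, 21), [52, 4064], 0⟩,
  mz,
  ⟨⟨-39, 8, -17, -2, 45, 16, 12, 12, -49⟩, (.cons (nat_lit 77) (nat_lit 91) (nat_lit 41) (nat_lit 1) (.cons
 (nat_lit 119) (nat_lit 4156) (nat_lit 698) (nat_lit 1) .nil)), (nat_lit 3), (nat_lit 0), (nat_lit 0), (nat_lit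
 0), (14, 20, 21), [82, 2743], 0⟩,
  ⟨⟨-21, -32, -28, -2, 35, -34, 28, -20, -41⟩, (.cons (nat_lit 91) (nat_lit 62) (nat_lit 62) (nat_lit 1) (.cons
 (nat_lit 1681) (nat_lit 113) (nat_lit 2715) (nat_lit 1) .nil)), (nat_lit 5), (nat_lit 0), (nat_lit 0),
 (nat_lit 0), (33, 30, 3), [27, 1287], 0⟩,
  ⟨⟨-45, 16, 44, -22, -35, -14, -20, 28, -17⟩, (.cons (nat_lit 114) (nat_lit 19) (nat_lit 42) (nat_lit 1)
 (.cons (nat_lit 919) (nat_lit 4662) (nat_lit 2528) (nat_lit 1) .nil)), (nat_lit 45), (nat_lit 0), (nat_lit 0),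
 (nat_lit 0), (34, 2, 36), [83, 2165], 0⟩]

/-- Moves. -/
noncomputable def t4_4 : List Mv := [
  mz,
  ⟨⟨45, 16, -1, 22, -35, -36, 20, 28, -37⟩, (.cons (nat_lit 46) (nat_lit 91) (nat_lit 62) (nat_lit 1) (.cons
 (nat_lit 1956) (nat_lit 238) (nat_lit 1274) (nat_lit 1) .nil)), (nat_lit 45), (nat_lit 0), (nat_lit 0),
 (nat_lit 0), (34, 2, 36), [42, 1137], 0⟩,
  ⟨⟨21, -32, -49, 2, 35, -36, -28, -20, -13⟩, (.cons (nat_lit 82) (nat_lit 33) (nat_lit 42) (nat_lit 1) (.cons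
 (nat_lit 3462) (nat_lit 4284) (nat_lit 3066) (nat_lit 1) .nil)), (nat_lit 5), (nat_lit 0), (nat_lit 0),
 (nat_lit 0), (33, 30, 3), [62, 624], 0⟩,
  ⟨⟨-51, 4, 19, 2, 45, 14, -12, 12, -37⟩, (.cons (nat_lit 59) (nat_lit 76) (nat_lit 1) (nat_lit 66) (.cons (nat_lit 3516) (nat_lit 1363) (nat_lit 799) (nat_lit 1) .nil)), (nat_lit 44), (nat_lit 0), (nat_lit 0), (nat_lit 0), (7, 20, 21), [3, 474], 0⟩,
  mz,
  ⟨⟨-45, -16, 44, -22, 35, -14, -20, -28, -17⟩, (.cons (nat_lit 4) (nat_lit 115) (nat_lit 115) (nat_lit 1)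
 (.cons (nat_lit 2522) (nat_lit 2351) (nat_lit 3489) (nat_lit 1) .nil)), (nat_lit 45), (nat_lit 0), (nat_lit
 0), (nat_lit 0), (12, 9, 21), [69, 4156], 0⟩,
  mz,
  mz,
  mz,
  ⟨⟨27, 32, -47, -40, 17, 0, 10, -16, -47⟩, (.cons (nat_lit 20) (nat_lit 47) (nat_lit 45) (nat_lit 1) (.cons
 (nat_lit 2747) (nat_lit 3083) (nat_lit 3381) (nat_lit 1) .nil)), (nat_lit 38), (nat_lit 0), (nat_lit 0),
 (nat_lit 0), (43, 39, 2), [92, 2653], 0⟩,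
  mz,
  ⟨⟨17, 48, -17, 40, -17, -40, -10, 16, -37⟩, (.cons (nat_lit 73) (nat_lit 26) (nat_lit 47) (nat_lit 1) (.cons
 (nat_lit 1789) (nat_lit 4205) (nat_lit 1) (nat_lit 1065) .nil)), (nat_lit 9), (nat_lit 0), (nat_lit 0),
 (nat_lit 0), (25, 45, 24), [84, 4076], 0⟩,
  ⟨⟨17, -36, -45, -20, 23, -30, 38, 8, -37⟩, (.cons (nat_lit 102) (nat_lit 97) (nat_lit 52) (nat_lit 1) (.cons
 (nat_lit 2064) (nat_lit 228) (nat_lit 3908) (nat_lit 1) .nil)), (nat_lit 32), (nat_lit 0), (nat_lit 0),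
 (nat_lit 0), (19, 44, 1), [46, 3729], 0⟩,
  mz,
  ⟨⟨-51, -4, 19, -2, 45, -14, -12, -12, -37⟩, (.cons (nat_lit 35) (nat_lit 41) (nat_lit 1) (nat_lit 55) (.cons
 (nat_lit 2735) (nat_lit 1353) (nat_lit 4252) (nat_lit 1) .nil)), (nat_lit 33), (nat_lit 0), (nat_lit 0),
 (nat_lit 0), (25, 36, 28), [97, 2746], 0⟩,
  ⟨⟨9, 4, -61, 40, 23, -10, 22, -32, -29⟩, (.cons (nat_lit 40) (nat_lit 2) (nat_lit 37) (nat_lit 1) (.cons
 (nat_lit 4368) (nat_lit 2575) (nat_lit 529) (nat_lit 1) .nil)), (nat_lit 35), (nat_lit 0), (nat_lit 0),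
 (nat_lit 0), (18, 33, 44), [96, 2131], 0⟩,
  ⟨⟨-9, -4, -52, -40, -23, 30, -22, 32, -7⟩, (.cons (nat_lit 67) (nat_lit 54) (nat_lit 83) (nat_lit 1) (.cons
 (nat_lit 2124) (nat_lit 4716) (nat_lit 2395) (nat_lit 1) .nil)), (nat_lit 35), (nat_lit 0), (nat_lit 0),
 (nat_lit 0), (36, 19, 41), [10, 96], 0⟩,
  mz,
  ⟨⟨19, 0, -63, 0, -47, 0, 42, 0, -23⟩, (.cons (nat_lit 38) (nat_lit 13) (nat_lit 51) (nat_lit 1) (.cons
 (nat_lit 4804) (nat_lit 1325) (nat_lit 2661) (nat_lit 1) .nil)), (nat_lit 29), (nat_lit 0), (nat_lit 0),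
 (nat_lit 0), (16, 0, 23), [93, 2039], 0⟩,
  ⟨⟨-39, 32, 8, -20, -33, -20, 6, 24, -41⟩, (.cons (nat_lit 101) (nat_lit 109) (nat_lit 63) (nat_lit 1) (.cons
 (nat_lit 4837) (nat_lit 3072) (nat_lit 1638) (nat_lit 1) .nil)), (nat_lit 22), (nat_lit 0), (nat_lit 0),
 (nat_lit 0), (25, 8, 7), [14, 1983], 0⟩,
  ⟨⟨17, -36, 28, -20, 23, 50, 38, 8, -1⟩, (.cons (nat_lit 71) (nat_lit 98) (nat_lit 69) (nat_lit 1) (.cons
 (nat_lit 3989) (nat_lit 4877) (nat_lit 1312) (nat_lit 1) .nil)), (nat_lit 32), (nat_lit 0), (nat_lit 0),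
 (nat_lit 0), (2, 17, 10), [119, 3425], 0⟩,
  ⟨⟨21, 32, -49, 2, -35, -36, -28, 20, -13⟩, (.cons (nat_lit 68) (nat_lit 112) (nat_lit 115) (nat_lit 1) (.cons
 (nat_lit 3660) (nat_lit 1711) (nat_lit 4976) (nat_lit 1) .nil)), (nat_lit 5), (nat_lit 0), (nat_lit 0),
 (nat_lit 0), (30, 23, 7), [53, 214], 0⟩,
  ⟨⟨45, 8, -49, 20, -33, 20, 6, -24, -41⟩, (.cons (nat_lit 45) (nat_lit 80) (nat_lit 93) (nat_lit 1) (.cons
 (nat_lit 931) (nat_lit 1642) (nat_lit 1354) (nat_lit 1) .nil)), (nat_lit 28), (nat_lit 0), (nat_lit 0),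
 (nat_lit 0), (40, 23, 21), [68, 4722], 0⟩,
  mz,
  mz,
  ⟨⟨39, -32, -31, 20, 33, -40, -6, -24, -35⟩, (.cons (nat_lit 19) (nat_lit 69) (nat_lit 80) (nat_lit 1) (.cons
 (nat_lit 1481) (nat_lit 3708) (nat_lit 63) (nat_lit 1) .nil)), (nat_lit 22), (nat_lit 0), (nat_lit 0),
 (nat_lit 0), (28, 24, 21), [91, 1057], 0⟩,
  ⟨⟨-21, 32, -28, -2, -35, -34, 28, 20, -41⟩, (.cons (nat_lit 66) (nat_lit 36) (nat_lit 109) (nat_lit 1) (.cons
 (nat_lit 2362) (nat_lit 3363) (nat_lit 4530) (nat_lit 1) .nil)), (nat_lit 5), (nat_lit 0), (nat_lit 0),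
 (nat_lit 0), (30, 23, 7), [68, 2660], 0⟩,
  ⟨⟨17, 36, -45, -20, -23, -30, 38, -8, -37⟩, (.cons (nat_lit 23) (nat_lit 51) (nat_lit 70) (nat_lit 1) (.cons
 (nat_lit 4586) (nat_lit 3880) (nat_lit 3170) (nat_lit 1) .nil)), (nat_lit 32), (nat_lit 0), (nat_lit 0),
 (nat_lit 0), (45, 30, 37), [92, 705], 0⟩,
  ⟨⟨39, 32, -31, 20, -33, -40, -6, 24, -35⟩, (.cons (nat_lit 78) (nat_lit 52) (nat_lit 6) (nat_lit 1) (.cons
 (nat_lit 222) (nat_lit 3469) (nat_lit 1872) (nat_lit 1) .nil)), (nat_lit 22), (nat_lit 0), (nat_lit 0),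
 (nat_lit 0), (25, 8, 7), [13, 1283], 0⟩,
  ⟨⟨19, 0, 44, 0, 47, 0, 42, 0, -19⟩, (.cons (nat_lit 120) (nat_lit 53) (nat_lit 9) (nat_lit 1) (.cons (nat_lit 5040) (nat_lit 1742) (nat_lit 401) (nat_lit 1) .nil)), (nat_lit 29), (nat_lit 0), (nat_lit 0), (nat_lit 0), (31, 0, 24), [81, 4529], 0⟩,
  mz,
  ⟨⟨9, -4, -61, 40, -23, -10, 22, 32, -29⟩, (.cons (nat_lit 34) (nat_lit 31) (nat_lit 8) (nat_lit 1) (.cons
 (nat_lit 4941) (nat_lit 4002) (nat_lit 775) (nat_lit 1) .nil)), (nat_lit 35), (nat_lit 0), (nat_lit 0),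
 (nat_lit 0), (36, 19, 41), [15, 1912], 0⟩,
  ⟨⟨-9, 4, -52, 40, -23, -30, -22, -32, -7⟩, (.cons (nat_lit 75) (nat_lit 31) (nat_lit 28) (nat_lit 1) (.cons
 (nat_lit 1289) (nat_lit 4715) (nat_lit 2608) (nat_lit 1) .nil)), (nat_lit 20), (nat_lit 0), (nat_lit 0),
 (nat_lit 0), (18, 14, 44), [118, 4901], 0⟩,
  ⟨⟨-39, -8, -17, 2, 45, -16, 12, -12, -49⟩, (.cons (nat_lit 88) (nat_lit 106) (nat_lit 38) (nat_lit 1) (.cons
 (nat_lit 4947) (nat_lit 1157) (nat_lit 1449) (nat_lit 1) .nil)), (nat_lit 14), (nat_lit 0), (nat_lit 0),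
 (nat_lit 0), (3, 36, 28), [71, 1323], 0⟩,
  mz,
  ⟨⟨21, -44, -29, -20, -23, 50, 38, -8, -1⟩, (.cons (nat_lit 118) (nat_lit 6) (nat_lit 111) (nat_lit 1) (.cons
 (nat_lit 3101) (nat_lit 4910) (nat_lit 2937) (nat_lit 1) .nil)), (nat_lit 15), (nat_lit 0), (nat_lit 0),
 (nat_lit 0), (18, 3, 46), [104, 4441], 0⟩,
  ⟨⟨27, -32, -47, -40, -17, 0, 10, 16, -47⟩, (.cons (nat_lit 41) (nat_lit 38) (nat_lit 1) (nat_lit 110) (.cons
 (nat_lit 4061) (nat_lit 3876) (nat_lit 3739) (nat_lit 1) .nil)), (nat_lit 38), (nat_lit 0), (nat_lit 0),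
 (nat_lit 0), (46, 45, 24), [7, 3162], 0⟩,
  mz,
  ⟨⟨-27, 32, -20, 40, 17, -40, -10, -16, -37⟩, (.cons (nat_lit 120) (nat_lit 118) (nat_lit 11) (nat_lit 1)
 (.cons (nat_lit 5040) (nat_lit 2017) (nat_lit 4380) (nat_lit 1) .nil)), (nat_lit 38), (nat_lit 0), (nat_lit
 0), (nat_lit 0), (43, 39, 2), [52, 2462], 0⟩,
  mz,
  mz,
  mz,
  ⟨⟨45, -16, -1, 22, 35, -36, 20, -28, -37⟩, (.cons (nat_lit 47) (nat_lit 64) (nat_lit 109) (nat_lit 1) (.cons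
 (nat_lit 4743) (nat_lit 1552) (nat_lit 468) (nat_lit 1) .nil)), (nat_lit 45), (nat_lit 0), (nat_lit 0),
 (nat_lit 0), (12, 9, 21), [52, 4064], 0⟩,
  mz,
  ⟨⟨51, 4, -32, 2, -45, -16, 12, 12, -49⟩, (.cons (nat_lit 38) (nat_lit 13) (nat_lit 22) (nat_lit 1) (.cons
 (nat_lit 4067) (nat_lit 4069) (nat_lit 3626) (nat_lit 1) .nil)), (nat_lit 33), (nat_lit 0), (nat_lit 0),
 (nat_lit 0), (7, 27, 21), [81, 2515], 0⟩,
  ⟨⟨49, 12, -13, -2, 35, -34, 28, -20, -41⟩, (.cons (nat_lit 103) (nat_lit 63) (nat_lit 26) (nat_lit 1) (.cons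
 (nat_lit 2419) (nat_lit 1257) (nat_lit 2133) (nat_lit 1) .nil)), (nat_lit 42), (nat_lit 0), (nat_lit 0),
 (nat_lit 0), (17, 30, 3), [29, 2839], 0⟩,
  ⟨⟨25, 12, -61, 22, 35, 14, -20, 28, -17⟩, (.cons (nat_lit 26) (nat_lit 9) (nat_lit 83) (nat_lit 1) (.cons
 (nat_lit 431) (nat_lit 2320) (nat_lit 4272) (nat_lit 1) .nil)), (nat_lit 21), (nat_lit 0), (nat_lit 0),
 (nat_lit 0), (2, 45, 36), [7, 141], 0⟩]

/-- All the moves. -/
noncomputable def tabs : List (List (List Mv)) := [[[], t0_1, [], [], t0_4], [[], t1_1, [], [], t1_4], [], [], [[], t4_1, [], [], t4_4]]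

/-- Subtrie. -/
noncomputable def T1 : Tr := (.ev (nat_lit 20) (nat_lit 74766892226560) (.nd (nat_lit 33) (.br (nat_lit 39)
 (.br (nat_lit 19) (.br (nat_lit 8) (.br (nat_lit 4) (.br (nat_lit 3) (.ch (nat_lit 1) (.ev (nat_lit 52)
 (nat_lit 77714194976) (.ev (nat_lit 244) (nat_lit 2) (.ev (nat_lit 340) (nat_lit 536870912) (.ev (nat_lit 532)
 (nat_lit 1048576) (.ev (nat_lit 692) (nat_lit 34359738368) (.ev (nat_lit 1504) (nat_lit 35188667056128) (.ev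
 (nat_lit 2256) (nat_lit 274877906944) (.ev (nat_lit 2608) (nat_lit 17592186044416) (.nd (nat_lit 2800) (.br
 (nat_lit 7) (.br (nat_lit 5) (.ch (nat_lit 1) (.ev (nat_lit 2816) (nat_lit 4) (.ev (nat_lit 2848) (nat_lit
 2147483648) (.ev (nat_lit 2880) (nat_lit 4194312) .dd)))) (.ch (nat_lit 5) (.ev (nat_lit 2816) (nat_lit
 2151677960) (.ev (nat_lit 2829) (nat_lit 4) .dd)))) (.br (nat_lit 9) (.ch (nat_lit 7) (.ev (nat_lit 2816)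
 (nat_lit 4194308) (.ev (nat_lit 2864) (nat_lit 2147483656) .dd))) (.ch (nat_lit 9) (.ev (nat_lit 2816)
 (nat_lit 2151677960) (.ev (nat_lit 2829) (nat_lit 4) .dd))))))))))))))) (.ch (nat_lit 3) (.ev (nat_lit 52)
 (nat_lit 17938068275242) (.ev (nat_lit 352) (nat_lit 35232426263044) .dd)))) (.br (nat_lit 5) (.ch (nat_lit 4)
 (.ev (nat_lit 52) (nat_lit 35266781807146) (.ev (nat_lit 212) (nat_lit 34359738368) (.ev (nat_lit 532)
 (nat_lit 2147483648) (.ev (nat_lit 628) (nat_lit 2097152) (.ev (nat_lit 820) (nat_lit 4194304) (.ev (nat_lit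
 1024) (nat_lit 17867199217668) .dd))))))) (.br (nat_lit 7) (.ch (nat_lit 5) (.ev (nat_lit 52) (nat_lit
 17663728288258) (.ev (nat_lit 308) (nat_lit 4294967296) (.ev (nat_lit 372) (nat_lit 268435456) (.ev (nat_lit
 532) (nat_lit 8) (.ev (nat_lit 852) (nat_lit 8589934592) (.ev (nat_lit 1012) (nat_lit 32768) (.ev (nat_lit
 1296) (nat_lit 2097184) (.ev (nat_lit 2672) (nat_lit 34359738368) (.nd (nat_lit 2800) (.br (nat_lit 1) (.ch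
 (nat_lit 0) (.ev (nat_lit 2816) (nat_lit 35184373137408) (.ev (nat_lit 2832) (nat_lit 274877906944) (.ev
 (nat_lit 2845) (nat_lit 4) .dd)))) (.br (nat_lit 5) (.ch (nat_lit 1) (.ev (nat_lit 2816) (nat_lit
 274878955524) (.ev (nat_lit 2829) (nat_lit 35184372088832) .dd))) (.ch (nat_lit 5) (.ev (nat_lit 2816)
 (nat_lit 274877906948) (.ev (nat_lit 2864) (nat_lit 1048576) (.ev (nat_lit 2877) (nat_lit 35184372088832)
 .dd)))))))))))))))) (.ch (nat_lit 7) (.ev (nat_lit 52) (nat_lit 52845284982822) (.ev (nat_lit 116) (nat_lit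
 134217728) (.ev (nat_lit 576) (nat_lit 325075337736) .dd))))))) (.br (nat_lit 15) (.br (nat_lit 11) (.ch
 (nat_lit 8) (.ev (nat_lit 52) (nat_lit 35221690909224) (.ev (nat_lit 116) (nat_lit 1048576) (.ev (nat_lit 148)
 (nat_lit 4) (.ev (nat_lit 500) (nat_lit 68719476736) (.ev (nat_lit 532) (nat_lit 134217728) (.ev (nat_lit
 1552) (nat_lit 4294967296) (.ev (nat_lit 2656) (nat_lit 274877906944) (.nd (nat_lit 2800) (.br (nat_lit 9)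
 (.ch (nat_lit 7) (.ev (nat_lit 2816) (nat_lit 32768) (.ev (nat_lit 2832) (nat_lit 8589934592) (.ev (nat_lit
 2864) (nat_lit 17592186044418) .dd)))) (.br (nat_lit 10) (.ch (nat_lit 9) (.ev (nat_lit 2816) (nat_lit
 17600775979010) (.ev (nat_lit 2829) (nat_lit 32768) .dd))) (.ch (nat_lit 10) (.ev (nat_lit 2816) (nat_lit
 8589934594) (.ev (nat_lit 2832) (nat_lit 32768) (.ev (nat_lit 2845) (nat_lit 17592186044416)
 .dd))))))))))))))) (.br (nat_lit 12) (.ch (nat_lit 11) (.ev (nat_lit 52) (nat_lit 17905987125284) (.ev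
 (nat_lit 84) (nat_lit 536870912) (.ev (nat_lit 148) (nat_lit 8) (.ev (nat_lit 532) (nat_lit 68719476736) (.ev
 (nat_lit 596) (nat_lit 8589934592) (.ev (nat_lit 736) (nat_lit 35186661130754) .dd))))))) (.ch (nat_lit 12)
 (.ev (nat_lit 52) (nat_lit 17594609336870) (.ev (nat_lit 404) (nat_lit 4294967296) (.ev (nat_lit 788) (nat_lit
 274877906944) (.ev (nat_lit 1488) (nat_lit 134217728) (.ev (nat_lit 1984) (nat_lit 68719476736) (.ev (nat_lit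
 2704) (nat_lit 536870912) (.nd (nat_lit 2800) (.br (nat_lit 2) (.ch (nat_lit 0) (.ev (nat_lit 2816) (nat_lit
 35184372088840) (.ev (nat_lit 2832) (nat_lit 34359738368) (.ev (nat_lit 2845) (nat_lit 8589934592) .dd))))
 (.br (nat_lit 7) (.ch (nat_lit 2) (.ev (nat_lit 2816) (nat_lit 42949672960) (.ev (nat_lit 2864) (nat_lit
 35184372088832) (.ev (nat_lit 2877) (nat_lit 8) .dd)))) (.ch (nat_lit 7) (.ev (nat_lit 2816) (nat_lit
 35227321761792) (.ev (nat_lit 2829) (nat_lit 8) .dd))))))))))))))) (.br (nat_lit 16) (.ch (nat_lit 15) (.ev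
 (nat_lit 52) (nat_lit 35464488681480) (.ev (nat_lit 128) (nat_lit 17706005856806) .dd))) (.br (nat_lit 18)
 (.ch (nat_lit 16) (.ev (nat_lit 52) (nat_lit 17867742380032) (.ev (nat_lit 212) (nat_lit 32) (.ev (nat_lit
 244) (nat_lit 68719476736) (.ev (nat_lit 276) (nat_lit 32768) (.ev (nat_lit 340) (nat_lit 4) (.ev (nat_lit
 404) (nat_lit 2) (.ev (nat_lit 500) (nat_lit 4294967296) (.ev (nat_lit 1856) (nat_lit 2415919104) (.ev
 (nat_lit 2624) (nat_lit 512) (.nd (nat_lit 2800) (.br (nat_lit 9) (.br (nat_lit 5) (.ch (nat_lit 1) (.ev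
 (nat_lit 2816) (nat_lit 8) (.ev (nat_lit 2848) (nat_lit 35184372088832) (.ev (nat_lit 2864) (nat_lit
 42949672960) .dd)))) (.ch (nat_lit 5) (.ev (nat_lit 2816) (nat_lit 35227321761800) .dd))) (.br (nat_lit 10)
 (.ch (nat_lit 9) (.ev (nat_lit 2816) (nat_lit 35227321761792) (.ev (nat_lit 2829) (nat_lit 8) .dd))) (.ch
 (nat_lit 10) (.ev (nat_lit 2816) (nat_lit 34359738376) (.ev (nat_lit 2864) (nat_lit 35192962023424)
 .dd)))))))))))))))) (.ch (nat_lit 18) (.ev (nat_lit 52) (nat_lit 35460058480678) (.ev (nat_lit 512) (nat_lit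
 17710436057608) .dd))))))) (.br (nat_lit 29) (.br (nat_lit 23) (.br (nat_lit 22) (.ch (nat_lit 19) (.ev
 (nat_lit 52) (nat_lit 313539985924) (.ev (nat_lit 180) (nat_lit 2) (.ev (nat_lit 244) (nat_lit 2147483648)
 (.ev (nat_lit 640) (nat_lit 52854807068712) .dd))))) (.ch (nat_lit 22) (.ev (nat_lit 52) (nat_lit 9530507816)
 (.ev (nat_lit 116) (nat_lit 2) (.ev (nat_lit 148) (nat_lit 68719476736) (.ev (nat_lit 276) (nat_lit 2097152)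
 (.ev (nat_lit 628) (nat_lit 274877906944) (.ev (nat_lit 1044) (nat_lit 2147483648) (.ev (nat_lit 1824)
 (nat_lit 35184372121600) (.ev (nat_lit 2080) (nat_lit 4194304) (.nd (nat_lit 2800) (.br (nat_lit 7) (.br
 (nat_lit 5) (.ch (nat_lit 0) (.ev (nat_lit 2816) (nat_lit 17630840750080) (.ev (nat_lit 2829) (nat_lit 4)
 .dd))) (.ch (nat_lit 5) (.ev (nat_lit 2816) (nat_lit 17630840750084) .dd))) (.br (nat_lit 10) (.ch (nat_lit 7)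
 (.ev (nat_lit 2816) (nat_lit 4294967300) (.ev (nat_lit 2864) (nat_lit 17626545782784) .dd))) (.ch (nat_lit 10)
 (.ev (nat_lit 2816) (nat_lit 4) (.ev (nat_lit 2848) (nat_lit 17592186044416) (.ev (nat_lit 2864) (nat_lit
 38654705664) .dd))))))))))))))))) (.br (nat_lit 24) (.ch (nat_lit 23) (.ev (nat_lit 52) (nat_lit 380107751462)
 (.ev (nat_lit 180) (nat_lit 512) (.ev (nat_lit 340) (nat_lit 4294967296) (.ev (nat_lit 404) (nat_lit 8) (.ev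
 (nat_lit 596) (nat_lit 536870912) (.ev (nat_lit 864) (nat_lit 52785554948096) .dd))))))) (.br (nat_lit 26)
 (.ch (nat_lit 24) (.ev (nat_lit 52) (nat_lit 35532398690850) (.ev (nat_lit 180) (nat_lit 2147483648) (.ev
 (nat_lit 384) (nat_lit 17635948363788) .dd)))) (.ch (nat_lit 26) (.ev (nat_lit 52) (nat_lit 118782689828) (.ev
 (nat_lit 84) (nat_lit 1048578) (.ev (nat_lit 212) (nat_lit 17592186044416) (.ev (nat_lit 276) (nat_lit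
 274877906944) (.ev (nat_lit 928) (nat_lit 35184646848520) .dd))))))))) (.br (nat_lit 34) (.br (nat_lit 31)
 (.ch (nat_lit 29) (.ev (nat_lit 52) (nat_lit 344137433602) (.ev (nat_lit 116) (nat_lit 8589934592) (.ev
 (nat_lit 180) (nat_lit 4294967296) (.ev (nat_lit 308) (nat_lit 134217728) (.ev (nat_lit 372) (nat_lit 8) (.ev
 (nat_lit 820) (nat_lit 32) (.ev (nat_lit 884) (nat_lit 2147483648) (.ev (nat_lit 1952) (nat_lit
 17592186044416) (.ev (nat_lit 2596) (nat_lit 35184372088832) (.nd (nat_lit 2800) (.br (nat_lit 7) (.br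
 (nat_lit 5) (.ch (nat_lit 0) (.ev (nat_lit 2816) (nat_lit 34632368132) .dd)) (.ch (nat_lit 5) (.ev (nat_lit
 2816) (nat_lit 34632368128) (.ev (nat_lit 2829) (nat_lit 4) .dd)))) (.br (nat_lit 9) (.ch (nat_lit 7) (.ev
 (nat_lit 2816) (nat_lit 34628173828) (.ev (nat_lit 2829) (nat_lit 4194304) .dd))) (.br (nat_lit 10) (.ch
 (nat_lit 9) (.ev (nat_lit 2816) (nat_lit 34632368132) .dd)) (.ch (nat_lit 10) (.ev (nat_lit 2816) (nat_lit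
 4194308) (.ev (nat_lit 2864) (nat_lit 34628173824) .dd))))))))))))))))) (.br (nat_lit 33) (.ch (nat_lit 31)
 (.ev (nat_lit 52) (nat_lit 17676073205800) (.ev (nat_lit 244) (nat_lit 512) (.ev (nat_lit 564) (nat_lit
 4194304) (.ev (nat_lit 724) (nat_lit 2) (.ev (nat_lit 884) (nat_lit 268435456) (.ev (nat_lit 2144) (nat_lit
 34359738368) (.ev (nat_lit 2596) (nat_lit 274877906944) (.nd (nat_lit 2800) (.br (nat_lit 2) (.br (nat_lit 1)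
 (.ch (nat_lit 0) (.ev (nat_lit 2816) (nat_lit 35184911056900) .dd)) (.ch (nat_lit 1) (.ev (nat_lit 2816)
 (nat_lit 2097156) (.ev (nat_lit 2864) (nat_lit 35184908959744) .dd)))) (.br (nat_lit 7) (.ch (nat_lit 2) (.ev
 (nat_lit 2816) (nat_lit 35184911056900) .dd)) (.br (nat_lit 9) (.ch (nat_lit 7) (.ev (nat_lit 2816) (nat_lit
 35184908959748) (.ev (nat_lit 2829) (nat_lit 2097152) .dd))) (.ch (nat_lit 9) (.ev (nat_lit 2816) (nat_lit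
 35184911056896) (.ev (nat_lit 2829) (nat_lit 4) .dd))))))))))))))) (.ch (nat_lit 33) (.ev (nat_lit 52)
 (nat_lit 35234168963588) (.ev (nat_lit 276) (nat_lit 4194304) (.ev (nat_lit 436) (nat_lit 32768) (.ev (nat_lit
 596) (nat_lit 68719476736) (.ev (nat_lit 660) (nat_lit 536870912) (.ev (nat_lit 1440) (nat_lit 17592186044416)
 (.ev (nat_lit 2352) (nat_lit 1048576) (.nd (nat_lit 2800) (.br (nat_lit 2) (.ch (nat_lit 0) (.ev (nat_lit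
 2816) (nat_lit 42) (.ev (nat_lit 2829) (nat_lit 274877906944) .dd))) (.br (nat_lit 7) (.ch (nat_lit 2) (.ev
 (nat_lit 2816) (nat_lit 10) (.ev (nat_lit 2832) (nat_lit 274877906944) (.ev (nat_lit 2845) (nat_lit 32)
 .dd)))) (.ch (nat_lit 7) (.ev (nat_lit 2816) (nat_lit 274877906944) (.ev (nat_lit 2832) (nat_lit 2) (.ev
 (nat_lit 2864) (nat_lit 40) .dd))))))))))))))))) (.br (nat_lit 36) (.ch (nat_lit 34) (.ev (nat_lit 52)
 (nat_lit 348704997376) (.ev (nat_lit 436) (nat_lit 17592186044416) (.ev (nat_lit 596) (nat_lit 134217736) (.ev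
 (nat_lit 692) (nat_lit 35184372088832) (.ev (nat_lit 756) (nat_lit 4) (.ev (nat_lit 1472) (nat_lit 2147483648)
 (.ev (nat_lit 1728) (nat_lit 544) (.nd (nat_lit 2800) (.br (nat_lit 1) (.ch (nat_lit 0) (.ev (nat_lit 2816)
 (nat_lit 34359771138) (.ev (nat_lit 2829) (nat_lit 8589934592) .dd))) (.br (nat_lit 5) (.ch (nat_lit 1) (.ev
 (nat_lit 2816) (nat_lit 2) (.ev (nat_lit 2832) (nat_lit 8589967360) (.ev (nat_lit 2845) (nat_lit 34359738368)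
 .dd)))) (.ch (nat_lit 5) (.ev (nat_lit 2816) (nat_lit 42949705728) (.ev (nat_lit 2829) (nat_lit 2)
 .dd)))))))))))))) (.br (nat_lit 38) (.ch (nat_lit 36) (.ev (nat_lit 52) (nat_lit 35258327138316) (.ev (nat_lit
 276) (nat_lit 17592186044416) (.ev (nat_lit 436) (nat_lit 32) (.ev (nat_lit 532) (nat_lit 512) (.ev (nat_lit
 788) (nat_lit 34359738368) (.ev (nat_lit 1700) (nat_lit 274877906944) (.ev (nat_lit 2564) (nat_lit 4194304)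
 (.nd (nat_lit 2800) (.br (nat_lit 2) (.br (nat_lit 1) (.ch (nat_lit 0) (.ev (nat_lit 2816) (nat_lit
 2149580802) (.ev (nat_lit 2829) (nat_lit 8589934592) .dd))) (.ch (nat_lit 1) (.ev (nat_lit 2816) (nat_lit
 8589934594) (.ev (nat_lit 2880) (nat_lit 2149580800) .dd)))) (.br (nat_lit 5) (.ch (nat_lit 2) (.ev (nat_lit
 2816) (nat_lit 10739515394) .dd)) (.br (nat_lit 10) (.ch (nat_lit 5) (.ev (nat_lit 2816) (nat_lit 10739515392)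
 (.ev (nat_lit 2829) (nat_lit 2) .dd))) (.ch (nat_lit 10) (.ev (nat_lit 2816) (nat_lit 2149580802) (.ev
 (nat_lit 2829) (nat_lit 8589934592) .dd))))))))))))))) (.ch (nat_lit 38) (.ev (nat_lit 52) (nat_lit
 43490738190) (.ev (nat_lit 116) (nat_lit 2147483648) (.ev (nat_lit 500) (nat_lit 268435456) (.ev (nat_lit 692)
 (nat_lit 32768) (.ev (nat_lit 756) (nat_lit 4294967296) (.ev (nat_lit 788) (nat_lit 32) (.ev (nat_lit 916)
 (nat_lit 68719476736) (.ev (nat_lit 1076) (nat_lit 512) (.ev (nat_lit 1140) (nat_lit 274877906944) (.ev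
 (nat_lit 1700) (nat_lit 35184372088832) (.ev (nat_lit 2432) (nat_lit 2097152) (.nd (nat_lit 2800) (.br
 (nat_lit 9) (.ch (nat_lit 7) (.ev (nat_lit 2816) (nat_lit 1048576) (.fin (nat_lit 576462401588118073)))) (.br
 (nat_lit 10) (.ch (nat_lit 9) (.ev (nat_lit 2816) (nat_lit 17592187092992) (.ev (nat_lit 2829) (nat_lit
 134217728) .dd))) (.ch (nat_lit 10) (.ev (nat_lit 2816) (nat_lit 134217728) (.ev (nat_lit 2848) (nat_lit
 1048576) (.ev (nat_lit 2861) (nat_lit 17592186044416) .dd)))))))))))))))))))))))) (.br (nat_lit 54) (.br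
 (nat_lit 47) (.br (nat_lit 43) (.br (nat_lit 42) (.ch (nat_lit 39) (.ev (nat_lit 52) (nat_lit 17912167399428)
 (.ev (nat_lit 148) (nat_lit 512) (.ev (nat_lit 404) (nat_lit 268435456) (.ev (nat_lit 596) (nat_lit 1048576)
 (.ev (nat_lit 852) (nat_lit 4294967296) (.ev (nat_lit 916) (nat_lit 536870912) (.ev (nat_lit 1632) (nat_lit
 134217728) (.ev (nat_lit 2208) (nat_lit 32768) (.ev (nat_lit 2384) (nat_lit 68719476736) (.nd (nat_lit 2800)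
 (.br (nat_lit 5) (.br (nat_lit 1) (.ch (nat_lit 0) (.ev (nat_lit 2816) (nat_lit 35184372088874) .dd)) (.ch
 (nat_lit 1) (.ev (nat_lit 2816) (nat_lit 35184372088872) (.ev (nat_lit 2829) (nat_lit 2) .dd)))) (.br (nat_lit
 9) (.ch (nat_lit 5) (.ev (nat_lit 2816) (nat_lit 40) (.ev (nat_lit 2832) (nat_lit 35184372088832) (.ev
 (nat_lit 2845) (nat_lit 2) .dd)))) (.br (nat_lit 10) (.ch (nat_lit 9) (.ev (nat_lit 2816) (nat_lit
 35184372088834) (.ev (nat_lit 2896) (nat_lit 40) .dd))) (.ch (nat_lit 10) (.ev (nat_lit 2816) (nat_lit 42)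
 (.ev (nat_lit 2829) (nat_lit 35184372088832) .dd))))))))))))))))) (.ch (nat_lit 42) (.ev (nat_lit 52) (nat_lit
 53167400157218) (.ev (nat_lit 148) (nat_lit 134217728) (.ev (nat_lit 372) (nat_lit 1048576) (.ev (nat_lit 468)
 (nat_lit 2097152) (.ev (nat_lit 704) (nat_lit 2957017612) .dd))))))) (.br (nat_lit 44) (.ch (nat_lit 43) (.ev
 (nat_lit 52) (nat_lit 17916992946186) (.ev (nat_lit 160) (nat_lit 35253501592100) .dd))) (.br (nat_lit 46)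
 (.ch (nat_lit 44) (.ev (nat_lit 52) (nat_lit 35255641702912) (.ev (nat_lit 64) (nat_lit 17914852835374) .dd)))
 (.ch (nat_lit 46) (.ev (nat_lit 52) (nat_lit 35189476556834) (.ev (nat_lit 116) (nat_lit 68719476736) (.ev
 (nat_lit 468) (nat_lit 32768) (.ev (nat_lit 500) (nat_lit 8) (.ev (nat_lit 660) (nat_lit 2147483648) (.ev
 (nat_lit 916) (nat_lit 512) (.ev (nat_lit 1536) (nat_lit 309237645312) (.ev (nat_lit 2000) (nat_lit
 17592186044416) (.nd (nat_lit 2800) (.br (nat_lit 7) (.br (nat_lit 2) (.ch (nat_lit 0) (.ev (nat_lit 2816)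
 (nat_lit 8726249476) (.ev (nat_lit 2829) (nat_lit 1048576) .dd))) (.ch (nat_lit 2) (.ev (nat_lit 2816)
 (nat_lit 8727298052) .dd))) (.br (nat_lit 9) (.ch (nat_lit 7) (.ev (nat_lit 2816) (nat_lit 135266308) (.ev
 (nat_lit 2848) (nat_lit 8592031744) .dd))) (.br (nat_lit 10) (.ch (nat_lit 9) (.ev (nat_lit 2816) (nat_lit
 8593080320) (.ev (nat_lit 2832) (nat_lit 134217732) .dd))) (.ch (nat_lit 10) (.ev (nat_lit 2816) (nat_lit
 8726249476) (.ev (nat_lit 2829) (nat_lit 1048576) .dd))))))))))))))))))) (.br (nat_lit 50) (.br (nat_lit 48)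
 (.ch (nat_lit 47) (.ev (nat_lit 52) (nat_lit 35494149783554) (.ev (nat_lit 84) (nat_lit 8589934592) (.ev
 (nat_lit 224) (nat_lit 17667754820140) .dd)))) (.br (nat_lit 49) (.ch (nat_lit 48) (.ev (nat_lit 52) (nat_lit
 52845951877664) (.ev (nat_lit 116) (nat_lit 4) (.ev (nat_lit 148) (nat_lit 2) (.ev (nat_lit 660) (nat_lit 8)
 (.ev (nat_lit 948) (nat_lit 8858370048) (.ev (nat_lit 1568) (nat_lit 34359738368) (.ev (nat_lit 2096) (nat_lit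
 4194304) (.nd (nat_lit 2800) (.br (nat_lit 2) (.ch (nat_lit 1) (.ev (nat_lit 2816) (nat_lit 279172874240) (.ev
 (nat_lit 2829) (nat_lit 2147483648) .dd))) (.br (nat_lit 9) (.ch (nat_lit 2) (.ev (nat_lit 2816) (nat_lit
 2147483648) (.ev (nat_lit 2880) (nat_lit 279172874240) .dd))) (.ch (nat_lit 9) (.ev (nat_lit 2816) (nat_lit
 4294967296) (.fin (nat_lit 576471197660168785))))))))))))))) (.ch (nat_lit 49) (.ev (nat_lit 52) (nat_lit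
 35225851658252) (.ev (nat_lit 480) (nat_lit 17944642880034) .dd))))) (.br (nat_lit 51) (.ch (nat_lit 50) (.ev
 (nat_lit 52) (nat_lit 42949706252) (.ev (nat_lit 372) (nat_lit 2) (.ev (nat_lit 468) (nat_lit 4194304) (.ev
 (nat_lit 564) (nat_lit 17592186044416) (.ev (nat_lit 724) (nat_lit 134217728) (.ev (nat_lit 756) (nat_lit
 70866960384) (.ev (nat_lit 852) (nat_lit 1048576) (.ev (nat_lit 1376) (nat_lit 2097184) (.ev (nat_lit 2688)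
 (nat_lit 536870912) (.nd (nat_lit 2800) (.br (nat_lit 2) (.br (nat_lit 1) (.ch (nat_lit 0) (.ev (nat_lit 2816)
 (nat_lit 35463813398528) .dd)) (.ch (nat_lit 1) (.ev (nat_lit 2816) (nat_lit 279441309696) (.ev (nat_lit 2829)
 (nat_lit 35184372088832) .dd)))) (.br (nat_lit 5) (.ch (nat_lit 2) (.ev (nat_lit 2816) (nat_lit
 35463813398528) .dd)) (.br (nat_lit 10) (.ch (nat_lit 5) (.ev (nat_lit 2832) (nat_lit 4294967296) (.ev
 (nat_lit 2932) (nat_lit 35184372088832) (.ev (nat_lit 3168) (nat_lit 275146342400) .dd)))) (.ch (nat_lit 10)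
 (.ev (nat_lit 2816) (nat_lit 35459249995776) (.ev (nat_lit 2912) (nat_lit 4563402752) .dd)))))))))))))))))
 (.br (nat_lit 53) (.ch (nat_lit 51) (.ev (nat_lit 52) (nat_lit 114091393028) (.ev (nat_lit 308) (nat_lit 512)
 (.ev (nat_lit 372) (nat_lit 536870912) (.ev (nat_lit 436) (nat_lit 35184372088832) (.ev (nat_lit 692) (nat_lit
 32) (.ev (nat_lit 832) (nat_lit 17871494184970) .dd))))))) (.ch (nat_lit 53) (.ev (nat_lit 52) (nat_lit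
 350176150050) (.ev (nat_lit 84) (nat_lit 12) (.ev (nat_lit 404) (nat_lit 8589934592) (.ev (nat_lit 564)
 (nat_lit 35184372088832) (.ev (nat_lit 1424) (nat_lit 1081344) (.ev (nat_lit 2048) (nat_lit 268435456) (.nd
 (nat_lit 2800) (.br (nat_lit 9) (.br (nat_lit 7) (.ch (nat_lit 1) (.ev (nat_lit 2816) (nat_lit 17592186044416)
 (.ev (nat_lit 2948) (nat_lit 536870912) (.ev (nat_lit 3076) (nat_lit 34359738368) (.ev (nat_lit 3085) (nat_lit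
 4194304) .dd))))) (.ch (nat_lit 7) (.ev (nat_lit 2816) (nat_lit 17626549977088) (.ev (nat_lit 2829) (nat_lit
 536870912) .dd)))) (.br (nat_lit 10) (.ch (nat_lit 9) (.ev (nat_lit 2816) (nat_lit 17627086848000) .dd)) (.ch
 (nat_lit 10) (.ev (nat_lit 2932) (nat_lit 34359738368) (.ev (nat_lit 2992) (nat_lit 17592190238720) (.ev
 (nat_lit 3005) (nat_lit 536870912) .dd)))))))))))))))))) (.br (nat_lit 64) (.br (nat_lit 57) (.br (nat_lit 55)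
 (.ch (nat_lit 54) (.ev (nat_lit 52) (nat_lit 316352233486) (.ev (nat_lit 212) (nat_lit 4194304) (.ev (nat_lit
 244) (nat_lit 8589934592) (.ev (nat_lit 276) (nat_lit 35184372088832) (.ev (nat_lit 340) (nat_lit 512) (.ev
 (nat_lit 660) (nat_lit 268435456) (.ev (nat_lit 1056) (nat_lit 17660907651104) .dd)))))))) (.ch (nat_lit 55)
 (.ev (nat_lit 52) (nat_lit 35494150799886) (.ev (nat_lit 288) (nat_lit 17676343738400) .dd)))) (.br (nat_lit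
 58) (.ch (nat_lit 57) (.ev (nat_lit 52) (nat_lit 17637551669768) (.ev (nat_lit 116) (nat_lit 4294967296) (.ev
 (nat_lit 320) (nat_lit 35528647901222) .dd)))) (.br (nat_lit 62) (.ch (nat_lit 58) (.ev (nat_lit 52) (nat_lit
 53122575630852) (.ev (nat_lit 148) (nat_lit 4294967296) (.ev (nat_lit 308) (nat_lit 8) (.ev (nat_lit 532)
 (nat_lit 8589934592) (.ev (nat_lit 564) (nat_lit 32768) (.ev (nat_lit 756) (nat_lit 134217728) (.ev (nat_lit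
 1044) (nat_lit 2) (.ev (nat_lit 1108) (nat_lit 2097152) (.ev (nat_lit 1792) (nat_lit 1048576) (.nd (nat_lit
 2800) (.br (nat_lit 7) (.br (nat_lit 5) (.ch (nat_lit 0) (.ev (nat_lit 2816) (nat_lit 536870944) (.ev (nat_lit
 2829) (nat_lit 34359738368) .dd))) (.ch (nat_lit 5) (.ev (nat_lit 2816) (nat_lit 34359738400) (.ev (nat_lit
 2829) (nat_lit 536870912) .dd)))) (.br (nat_lit 9) (.ch (nat_lit 7) (.ev (nat_lit 2816) (nat_lit 34896609280)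
 (.ev (nat_lit 2829) (nat_lit 32) .dd))) (.ch (nat_lit 9) (.ev (nat_lit 2816) (nat_lit 34896609280) (.ev
 (nat_lit 2829) (nat_lit 32) .dd)))))))))))))))) (.ch (nat_lit 62) (.ev (nat_lit 52) (nat_lit 17605747310600)
 (.ev (nat_lit 308) (nat_lit 268435456) (.ev (nat_lit 340) (nat_lit 2) (.ev (nat_lit 628) (nat_lit
 35184372088832) (.ev (nat_lit 660) (nat_lit 512) (.ev (nat_lit 724) (nat_lit 68719476736) (.ev (nat_lit 820)
 (nat_lit 34359738368) (.ev (nat_lit 852) (nat_lit 4) (.ev (nat_lit 1700) (nat_lit 32) (.ev (nat_lit 2500)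
 (nat_lit 2097152) (.nd (nat_lit 2800) (.br (nat_lit 2) (.br (nat_lit 1) (.ch (nat_lit 0) (.ev (nat_lit 2816)
 (nat_lit 2147483648) (.ev (nat_lit 2829) (nat_lit 274877906944) .dd))) (.ch (nat_lit 1) (.ev (nat_lit 2816)
 (nat_lit 274877906944) (.ev (nat_lit 2829) (nat_lit 2147483648) .dd)))) (.br (nat_lit 7) (.ch (nat_lit 2) (.ev
 (nat_lit 2816) (nat_lit 277025390592) .dd)) (.br (nat_lit 9) (.ch (nat_lit 7) (.ev (nat_lit 2816) (nat_lit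
 277025390592) .dd)) (.ch (nat_lit 9) (.fin (nat_lit 576471197660168785))))))))))))))))))))) (.br (nat_lit 68)
 (.br (nat_lit 65) (.ch (nat_lit 64) (.ev (nat_lit 52) (nat_lit 35569308533286) (.ev (nat_lit 180) (nat_lit
 268435456) (.ev (nat_lit 308) (nat_lit 1048576) (.ev (nat_lit 660) (nat_lit 8589934592) (.ev (nat_lit 820)
 (nat_lit 2097152) (.ev (nat_lit 884) (nat_lit 8) (.ev (nat_lit 1700) (nat_lit 4194304) (.ev (nat_lit 2500)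
 (nat_lit 32768) (.nd (nat_lit 2800) (.br (nat_lit 7) (.br (nat_lit 5) (.ch (nat_lit 0) (.ev (nat_lit 2816)
 (nat_lit 17592320262144) .dd)) (.ch (nat_lit 5) (.ev (nat_lit 2816) (nat_lit 17592320262144) .dd))) (.br
 (nat_lit 9) (.ch (nat_lit 7) (.fin (nat_lit 576462401588118073))) (.br (nat_lit 10) (.ch (nat_lit 9) (.ev
 (nat_lit 2816) (nat_lit 17592186044416) (.ev (nat_lit 2829) (nat_lit 134217728) .dd))) (.ch (nat_lit 10) (.ev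
 (nat_lit 2816) (nat_lit 134217728) (.ev (nat_lit 2829) (nat_lit 17592186044416) .dd)))))))))))))))) (.br
 (nat_lit 67) (.ch (nat_lit 65) (.ev (nat_lit 52) (nat_lit 17600911245832) (.ev (nat_lit 180) (nat_lit
 68719476736) (.ev (nat_lit 852) (nat_lit 2147483648) (.ev (nat_lit 980) (nat_lit 274877906944) (.ev (nat_lit
 1044) (nat_lit 4294967296) (.ev (nat_lit 1392) (nat_lit 6) (.nd (nat_lit 2800) (.br (nat_lit 7) (.br (nat_lit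
 5) (.ch (nat_lit 1) (.ev (nat_lit 2816) (nat_lit 35219537166368) (.ev (nat_lit 2932) (nat_lit 4194304) (.ev
 (nat_lit 2941) (nat_lit 2097152) .dd)))) (.ch (nat_lit 5) (.ev (nat_lit 2816) (nat_lit 35218738151456) (.ev
 (nat_lit 2932) (nat_lit 268435456) (.ev (nat_lit 2941) (nat_lit 536870912) .dd))))) (.br (nat_lit 10) (.ch
 (nat_lit 7) (.ev (nat_lit 2816) (nat_lit 35184640557056) (.ev (nat_lit 2932) (nat_lit 2097152) (.ev (nat_lit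
 2966) (nat_lit 34900803616) .dd)))) (.ch (nat_lit 10) (.ev (nat_lit 2816) (nat_lit 34363932704) (.ev (nat_lit
 2932) (nat_lit 536870912) (.ev (nat_lit 3110) (nat_lit 35184642654208) .dd)))))))))))))) (.ch (nat_lit 67)
 (.ev (nat_lit 52) (nat_lit 285622665258) (.ev (nat_lit 244) (nat_lit 134217728) (.ev (nat_lit 276) (nat_lit
 34359738368) (.ev (nat_lit 372) (nat_lit 68719476736) (.ev (nat_lit 404) (nat_lit 536870912) (.ev (nat_lit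
 500) (nat_lit 516) (.ev (nat_lit 1012) (nat_lit 17592186044416) (.ev (nat_lit 2224) (nat_lit 4294967296) (.nd
 (nat_lit 2800) (.br (nat_lit 5) (.br (nat_lit 2) (.ch (nat_lit 1) (.ev (nat_lit 2816) (nat_lit 35184640524288)
 (.ev (nat_lit 2829) (nat_lit 32768) .dd))) (.ch (nat_lit 2) (.ev (nat_lit 2816) (nat_lit 35184640557056)
 .dd))) (.br (nat_lit 7) (.ch (nat_lit 5) (.ev (nat_lit 2816) (nat_lit 32768) (.ev (nat_lit 2832) (nat_lit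
 35184372088832) (.ev (nat_lit 2845) (nat_lit 268435456) .dd)))) (.br (nat_lit 9) (.ch (nat_lit 7) (.ev
 (nat_lit 2816) (nat_lit 35184640557056) .dd)) (.ch (nat_lit 9) (.ev (nat_lit 2816) (nat_lit 35184640524288)
 (.ev (nat_lit 2829) (nat_lit 32768) .dd)))))))))))))))))) (.br (nat_lit 69) (.ch (nat_lit 68) (.ev (nat_lit
 52) (nat_lit 35527969505828) (.ev (nat_lit 84) (nat_lit 4294967296) (.ev (nat_lit 244) (nat_lit 1048576) (.ev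
 (nat_lit 340) (nat_lit 2147483648) (.ev (nat_lit 436) (nat_lit 34359738368) (.ev (nat_lit 596) (nat_lit
 268435456) (.ev (nat_lit 724) (nat_lit 9126805504) (.ev (nat_lit 1904) (nat_lit 2097152) (.ev (nat_lit 2500)
 (nat_lit 17592186044416) (.nd (nat_lit 2800) (.br (nat_lit 2) (.ch (nat_lit 1) (.ev (nat_lit 2816) (nat_lit
 134217728) (.ev (nat_lit 2848) (nat_lit 4194304) (.ev (nat_lit 2912) (nat_lit 10) .dd)))) (.br (nat_lit 9)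
 (.ch (nat_lit 2) (.ev (nat_lit 2816) (nat_lit 4194306) (.ev (nat_lit 2848) (nat_lit 134217728) (.ev (nat_lit
 2861) (nat_lit 8) .dd)))) (.ch (nat_lit 9) (.ev (nat_lit 2816) (nat_lit 4194314) (.ev (nat_lit 2829) (nat_lit
 134217728) .dd)))))))))))))))) (.br (nat_lit 70) (.ch (nat_lit 69) (.ev (nat_lit 52) (nat_lit 52789853061126)
 (.ev (nat_lit 116) (nat_lit 8) (.ev (nat_lit 308) (nat_lit 2147483648) (.ev (nat_lit 896) (nat_lit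
 378493993504) .dd))))) (.ch (nat_lit 70) (.ev (nat_lit 52) (nat_lit 52880442654720) (.ev (nat_lit 96) (nat_lit
 290051883566) .dd)))))))))))

/-- Subtrie. -/
noncomputable def T4 : Tr := (.ev (nat_lit 20) (nat_lit 17594535680518) (.nd (nat_lit 33) (.br (nat_lit 39)
 (.br (nat_lit 19) (.br (nat_lit 8) (.br (nat_lit 4) (.br (nat_lit 3) (.ch (nat_lit 1) (.ev (nat_lit 52)
 (nat_lit 77613498400) (.ev (nat_lit 148) (nat_lit 70368744177664) (.ev (nat_lit 308) (nat_lit 8) (.ev (nat_lit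
 980) (nat_lit 35184372088832) (.ev (nat_lit 1140) (nat_lit 274877906944) (.ev (nat_lit 1312) (nat_lit 4259840)
 (.ev (nat_lit 2032) (nat_lit 4432406249472) (.nd (nat_lit 2800) (.br (nat_lit 6) (.br (nat_lit 4) (.ch
 (nat_lit 0) (.ev (nat_lit 2816) (nat_lit 1048576) (.ev (nat_lit 2848) (nat_lit 536870912) (.ev (nat_lit 2880)
 (nat_lit 4294983680) .dd)))) (.ch (nat_lit 4) (.ev (nat_lit 2816) (nat_lit 4831854592) (.ev (nat_lit 2829)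
 (nat_lit 1048576) .dd)))) (.br (nat_lit 8) (.ch (nat_lit 6) (.ev (nat_lit 2816) (nat_lit 4296015872) (.ev
 (nat_lit 2864) (nat_lit 536887296) .dd))) (.ch (nat_lit 8) (.ev (nat_lit 2816) (nat_lit 4831854592) (.ev
 (nat_lit 2829) (nat_lit 1048576) .dd)))))))))))))) (.ch (nat_lit 3) (.ev (nat_lit 52) (nat_lit 343600545832)
 (.ev (nat_lit 148) (nat_lit 65536) (.ev (nat_lit 448) (nat_lit 109999250472960) .dd))))) (.br (nat_lit 5) (.ch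
 (nat_lit 4) (.ev (nat_lit 52) (nat_lit 39664828284968) (.ev (nat_lit 308) (nat_lit 70368744177664) (.ev
 (nat_lit 564) (nat_lit 4194304) (.ev (nat_lit 724) (nat_lit 33554432) (.ev (nat_lit 916) (nat_lit 2097152)
 (.ev (nat_lit 1076) (nat_lit 34359738368) (.ev (nat_lit 1744) (nat_lit 1048576) (.ev (nat_lit 2784) (nat_lit
 274877906944) (.nd (nat_lit 2800) (.br (nat_lit 6) (.br (nat_lit 5) (.ch (nat_lit 4) (.ev (nat_lit 2816)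
 (nat_lit 65536) (.ev (nat_lit 2829) (nat_lit 16384) .dd))) (.ch (nat_lit 5) (.ev (nat_lit 2816) (nat_lit
 81920) .dd))) (.br (nat_lit 8) (.ch (nat_lit 6) (.ev (nat_lit 2816) (nat_lit 65536) (.ev (nat_lit 2829)
 (nat_lit 16384) .dd))) (.ch (nat_lit 8) (.ev (nat_lit 2816) (nat_lit 16384) (.ev (nat_lit 2829) (nat_lit
 65536) .dd))))))))))))))) (.br (nat_lit 7) (.ch (nat_lit 5) (.ev (nat_lit 52) (nat_lit 74836084867072) (.ev
 (nat_lit 372) (nat_lit 34359738368) (.ev (nat_lit 500) (nat_lit 8) (.ev (nat_lit 1808) (nat_lit 2097184) (.ev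
 (nat_lit 2176) (nat_lit 8589934592) (.nd (nat_lit 2800) (.br (nat_lit 5) (.br (nat_lit 4) (.ch (nat_lit 0)
 (.ev (nat_lit 2816) (nat_lit 35463546011648) (.ev (nat_lit 2829) (nat_lit 268435456) .dd))) (.ch (nat_lit 4)
 (.ev (nat_lit 2816) (nat_lit 279441309696) (.ev (nat_lit 2848) (nat_lit 35184373137408) .dd)))) (.br (nat_lit
 6) (.ch (nat_lit 5) (.ev (nat_lit 2816) (nat_lit 35184641572864) (.ev (nat_lit 2832) (nat_lit 279172874240)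
 .dd))) (.br (nat_lit 7) (.ch (nat_lit 6) (.ev (nat_lit 2816) (nat_lit 35463546011648) (.ev (nat_lit 2829)
 (nat_lit 268435456) .dd))) (.ch (nat_lit 7) (.ev (nat_lit 2816) (nat_lit 35463814447104) .dd)))))))))))) (.ch
 (nat_lit 7) (.ev (nat_lit 52) (nat_lit 35253132525600) (.ev (nat_lit 276) (nat_lit 4398046511104) (.ev
 (nat_lit 564) (nat_lit 268435456) (.ev (nat_lit 628) (nat_lit 4294967296) (.ev (nat_lit 756) (nat_lit
 70368744177664) (.ev (nat_lit 992) (nat_lit 318364467208) .dd)))))))))) (.br (nat_lit 15) (.br (nat_lit 11)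
 (.ch (nat_lit 8) (.ev (nat_lit 52) (nat_lit 35219577061416) (.ev (nat_lit 436) (nat_lit 4294967296) (.ev
 (nat_lit 596) (nat_lit 68719476736) (.ev (nat_lit 1088) (nat_lit 75050259578880) .dd))))) (.br (nat_lit 12)
 (.ch (nat_lit 11) (.ev (nat_lit 52) (nat_lit 75080591753248) (.ev (nat_lit 468) (nat_lit 4194304) (.ev
 (nat_lit 596) (nat_lit 65536) (.ev (nat_lit 1184) (nat_lit 537919488) (.ev (nat_lit 2016) (nat_lit
 35184372088840) (.nd (nat_lit 2800) (.br (nat_lit 7) (.br (nat_lit 2) (.ch (nat_lit 0) (.ev (nat_lit 2816)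
 (nat_lit 8623489024) (.ev (nat_lit 2848) (nat_lit 2097152) (.ev (nat_lit 2861) (nat_lit 68719476736) .dd))))
 (.ch (nat_lit 2) (.ev (nat_lit 2816) (nat_lit 8623489024) (.ev (nat_lit 2848) (nat_lit 2097152) (.ev (nat_lit
 2861) (nat_lit 68719476736) .dd))))) (.br (nat_lit 8) (.ch (nat_lit 7) (.ev (nat_lit 2816) (nat_lit
 68755128320) (.ev (nat_lit 2829) (nat_lit 8589934592) .dd))) (.ch (nat_lit 8) (.ev (nat_lit 2816) (nat_lit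
 77311508480) (.ev (nat_lit 2829) (nat_lit 33554432) .dd)))))))))))) (.ch (nat_lit 12) (.ev (nat_lit 52)
 (nat_lit 309329952) (.ev (nat_lit 212) (nat_lit 35184372088832) (.ev (nat_lit 372) (nat_lit 65536) (.ev
 (nat_lit 468) (nat_lit 536870912) (.ev (nat_lit 1012) (nat_lit 8589934592) (.ev (nat_lit 1232) (nat_lit
 279172874240) (.ev (nat_lit 2064) (nat_lit 16384) (.ev (nat_lit 2320) (nat_lit 68719476736) (.nd (nat_lit
 2800) (.br (nat_lit 6) (.br (nat_lit 5) (.ch (nat_lit 2) (.ev (nat_lit 2816) (nat_lit 74766790688768) (.ev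
 (nat_lit 2848) (nat_lit 8) (.ev (nat_lit 2861) (nat_lit 34359738368) .dd)))) (.ch (nat_lit 5) (.ev (nat_lit
 2816) (nat_lit 4432406249480) (.ev (nat_lit 2829) (nat_lit 70368744177664) .dd)))) (.br (nat_lit 7) (.ch
 (nat_lit 6) (.ev (nat_lit 2816) (nat_lit 74766790688768) (.ev (nat_lit 2848) (nat_lit 8) (.ev (nat_lit 2861)
 (nat_lit 34359738368) .dd)))) (.ch (nat_lit 7) (.ev (nat_lit 2816) (nat_lit 70403103916040) (.ev (nat_lit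
 2829) (nat_lit 4398046511104) .dd))))))))))))))))) (.br (nat_lit 16) (.ch (nat_lit 15) (.ev (nat_lit 52)
 (nat_lit 110231178772488) (.ev (nat_lit 436) (nat_lit 1048576) (.ev (nat_lit 724) (nat_lit 34359738368) (.ev
 (nat_lit 980) (nat_lit 8589934592) (.ev (nat_lit 2720) (nat_lit 68719476736) (.nd (nat_lit 2800) (.br (nat_lit
 4) (.br (nat_lit 2) (.ch (nat_lit 0) (.ev (nat_lit 2816) (nat_lit 16416) (.ev (nat_lit 2829) (nat_lit 2097152)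
 .dd))) (.ch (nat_lit 2) (.ev (nat_lit 2816) (nat_lit 2113568) .dd))) (.br (nat_lit 7) (.ch (nat_lit 4) (.ev
 (nat_lit 2816) (nat_lit 2097152) (.ev (nat_lit 2832) (nat_lit 16384) (.ev (nat_lit 2845) (nat_lit 32) .dd))))
 (.br (nat_lit 8) (.ch (nat_lit 7) (.ev (nat_lit 2816) (nat_lit 2113568) .dd)) (.ch (nat_lit 8) (.ev (nat_lit
 2816) (nat_lit 16416) (.ev (nat_lit 2829) (nat_lit 2097152) .dd))))))))))))) (.br (nat_lit 18) (.ch (nat_lit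
 16) (.ev (nat_lit 52) (nat_lit 4673468645376) (.ev (nat_lit 256) (nat_lit 105669382438952) .dd))) (.ch
 (nat_lit 18) (.ev (nat_lit 52) (nat_lit 35460058529824) (.ev (nat_lit 116) (nat_lit 70368744177664) (.ev
 (nat_lit 916) (nat_lit 68719476736) (.ev (nat_lit 1776) (nat_lit 34359738368) (.ev (nat_lit 2192) (nat_lit
 33554432) (.ev (nat_lit 2400) (nat_lit 8) (.nd (nat_lit 2800) (.br (nat_lit 5) (.br (nat_lit 4) (.ch (nat_lit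
 2) (.ev (nat_lit 2816) (nat_lit 12884901888) (.ev (nat_lit 2896) (nat_lit 4398050705408) .dd))) (.ch (nat_lit
 4) (.ev (nat_lit 2816) (nat_lit 4402345672704) (.ev (nat_lit 2829) (nat_lit 8589934592) .dd)))) (.br (nat_lit
 6) (.ch (nat_lit 5) (.ev (nat_lit 2816) (nat_lit 4398050705408) (.ev (nat_lit 2832) (nat_lit 8589934592) (.ev
 (nat_lit 2845) (nat_lit 4294967296) .dd)))) (.br (nat_lit 8) (.ch (nat_lit 6) (.ev (nat_lit 2816) (nat_lit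
 4410935607296) .dd)) (.ch (nat_lit 8) (.ev (nat_lit 2816) (nat_lit 4406640640000) (.ev (nat_lit 2829) (nat_lit
 4294967296) .dd)))))))))))))))))) (.br (nat_lit 29) (.br (nat_lit 23) (.br (nat_lit 22) (.ch (nat_lit 19) (.ev
 (nat_lit 52) (nat_lit 75080330641408) (.ev (nat_lit 180) (nat_lit 33554432) (.ev (nat_lit 212) (nat_lit
 8858370048) (.ev (nat_lit 1012) (nat_lit 536870912) (.ev (nat_lit 1248) (nat_lit 35184372105216) (.ev (nat_lit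
 1344) (nat_lit 65544) (.ev (nat_lit 2576) (nat_lit 68719476768) .dd)))))))) (.ch (nat_lit 22) (.ev (nat_lit
 52) (nat_lit 9429844008) (.ev (nat_lit 84) (nat_lit 70368744177664) (.ev (nat_lit 180) (nat_lit 34359738368)
 (.ev (nat_lit 564) (nat_lit 16384) (.ev (nat_lit 692) (nat_lit 274877906944) (.ev (nat_lit 768) (nat_lit
 39655439400960) .dd)))))))) (.br (nat_lit 24) (.ch (nat_lit 23) (.ev (nat_lit 52) (nat_lit 377960333344) (.ev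
 (nat_lit 84) (nat_lit 8) (.ev (nat_lit 564) (nat_lit 8589934592) (.ev (nat_lit 628) (nat_lit 4194304) (.ev
 (nat_lit 820) (nat_lit 16384) (.ev (nat_lit 948) (nat_lit 33554432) (.ev (nat_lit 1264) (nat_lit
 70369012613120) (.ev (nat_lit 1664) (nat_lit 4398046511104) (.ev (nat_lit 2512) (nat_lit 35188667056128) (.ev
 (nat_lit 2525) (nat_lit 536870912) .dd))))))))))) (.br (nat_lit 26) (.ch (nat_lit 24) (.ev (nat_lit 52)
 (nat_lit 35532297994272) (.ev (nat_lit 564) (nat_lit 4398046511104) (.ev (nat_lit 692) (nat_lit 268435456)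
 (.ev (nat_lit 1076) (nat_lit 2097152) (.ev (nat_lit 1168) (nat_lit 9127854080) (.ev (nat_lit 1712) (nat_lit
 81920) (.ev (nat_lit 2272) (nat_lit 4194304) (.ev (nat_lit 2480) (nat_lit 70403103916032) (.ev (nat_lit 2493)
 (nat_lit 8) .dd)))))))))) (.ch (nat_lit 26) (.ev (nat_lit 52) (nat_lit 70485245165600) (.ev (nat_lit 192)
 (nat_lit 39857605918728) .dd)))))) (.br (nat_lit 34) (.br (nat_lit 31) (.ch (nat_lit 29) (.ev (nat_lit 52)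
 (nat_lit 75110928154624) (.ev (nat_lit 544) (nat_lit 35231922929704) .dd))) (.br (nat_lit 33) (.ch (nat_lit
 31) (.ev (nat_lit 52) (nat_lit 81638998056) (.ev (nat_lit 84) (nat_lit 34359738368) (.ev (nat_lit 340)
 (nat_lit 2097152) (.ev (nat_lit 788) (nat_lit 4398046511104) (.ev (nat_lit 820) (nat_lit 4194304) (.ev
 (nat_lit 1600) (nat_lit 274877906944) (.ev (nat_lit 2336) (nat_lit 268435456) (.nd (nat_lit 2800) (.br
 (nat_lit 6) (.ch (nat_lit 0) (.ev (nat_lit 2816) (nat_lit 105553116266496) (.ev (nat_lit 2848) (nat_lit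
 536870912) (.ev (nat_lit 2861) (nat_lit 65536) .dd)))) (.br (nat_lit 7) (.ch (nat_lit 6) (.ev (nat_lit 2816)
 (nat_lit 105553116332032) (.ev (nat_lit 2829) (nat_lit 536870912) .dd))) (.ch (nat_lit 7) (.ev (nat_lit 2816)
 (nat_lit 536870912) (.ev (nat_lit 2848) (nat_lit 35184372088832) (.ev (nat_lit 2912) (nat_lit 70368744243200)
 .dd))))))))))))))) (.ch (nat_lit 33) (.ev (nat_lit 52) (nat_lit 109998677950464) (.ev (nat_lit 500) (nat_lit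
 68719476736) (.ev (nat_lit 852) (nat_lit 8) (.ev (nat_lit 916) (nat_lit 65536) (.ev (nat_lit 980) (nat_lit
 1048576) (.ev (nat_lit 1616) (nat_lit 4194304) (.ev (nat_lit 2532) (nat_lit 536870912) (.nd (nat_lit 2800)
 (.br (nat_lit 6) (.br (nat_lit 4) (.ch (nat_lit 0) (.ev (nat_lit 2816) (nat_lit 33554464) (.ev (nat_lit 2880)
 (nat_lit 274877923328) .dd))) (.ch (nat_lit 4) (.ev (nat_lit 2816) (nat_lit 274911477760) (.ev (nat_lit 2829)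
 (nat_lit 32) .dd)))) (.br (nat_lit 7) (.ch (nat_lit 6) (.ev (nat_lit 2816) (nat_lit 274877923360) (.ev
 (nat_lit 2829) (nat_lit 33554432) .dd))) (.br (nat_lit 8) (.ch (nat_lit 7) (.ev (nat_lit 2816) (nat_lit
 274911477792) .dd)) (.ch (nat_lit 8) (.ev (nat_lit 2816) (nat_lit 274911477760) (.ev (nat_lit 2829) (nat_lit
 32) .dd))))))))))))))))) (.br (nat_lit 36) (.ch (nat_lit 34) (.ev (nat_lit 52) (nat_lit 4746751524864) (.ev
 (nat_lit 340) (nat_lit 33554432) (.ev (nat_lit 436) (nat_lit 8589934592) (.ev (nat_lit 756) (nat_lit 32) (.ev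
 (nat_lit 1076) (nat_lit 70368744177664) (.ev (nat_lit 1520) (nat_lit 8) (.nd (nat_lit 2800) (.br (nat_lit 6)
 (.br (nat_lit 5) (.ch (nat_lit 4) (.ev (nat_lit 2816) (nat_lit 34359803904) (.ev (nat_lit 2829) (nat_lit
 35184372088832) .dd))) (.ch (nat_lit 5) (.ev (nat_lit 2816) (nat_lit 35184372154368) (.ev (nat_lit 2829)
 (nat_lit 34359738368) .dd)))) (.br (nat_lit 7) (.ch (nat_lit 6) (.ev (nat_lit 2816) (nat_lit 35184372154368)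
 (.ev (nat_lit 2829) (nat_lit 34359738368) .dd))) (.ch (nat_lit 7) (.ev (nat_lit 2816) (nat_lit 35218731827200)
 (.ev (nat_lit 2829) (nat_lit 65536) .dd))))))))))))) (.br (nat_lit 38) (.ch (nat_lit 36) (.ev (nat_lit 52)
 (nat_lit 105626970636296) (.ev (nat_lit 672) (nat_lit 4715880448032) .dd))) (.ch (nat_lit 38) (.ev (nat_lit
 52) (nat_lit 43490738184) (.ev (nat_lit 532) (nat_lit 65536) (.ev (nat_lit 788) (nat_lit 1048576) (.ev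
 (nat_lit 948) (nat_lit 70368744177664) (.ev (nat_lit 1108) (nat_lit 16384) (.ev (nat_lit 1152) (nat_lit
 35463544963104) (.ev (nat_lit 1280) (nat_lit 4398314946560) (.ev (nat_lit 1648) (nat_lit 68719476736) (.ev
 (nat_lit 1680) (nat_lit 33554432) (.ev (nat_lit 1693) (nat_lit 2097152) .dd)))))))))))))))) (.br (nat_lit 54)
 (.br (nat_lit 47) (.br (nat_lit 43) (.br (nat_lit 42) (.ch (nat_lit 39) (.ev (nat_lit 52) (nat_lit
 4715914002432) (.ev (nat_lit 148) (nat_lit 8) (.ev (nat_lit 608) (nat_lit 105626937081888) .dd)))) (.ch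
 (nat_lit 42) (.ev (nat_lit 52) (nat_lit 35575214129184) (.ev (nat_lit 468) (nat_lit 4398315995136) (.ev
 (nat_lit 1216) (nat_lit 70368746274816) (.ev (nat_lit 2640) (nat_lit 65536) (.nd (nat_lit 2800) (.br (nat_lit
 6) (.br (nat_lit 4) (.ch (nat_lit 0) (.ev (nat_lit 2816) (nat_lit 37748744) (.ev (nat_lit 2829) (nat_lit
 536870912) .dd))) (.ch (nat_lit 4) (.ev (nat_lit 2816) (nat_lit 574619656) .dd))) (.br (nat_lit 7) (.ch
 (nat_lit 6) (.ev (nat_lit 2832) (nat_lit 4194304) (.ev (nat_lit 2932) (nat_lit 536870912) (.ev (nat_lit 3024)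
 (nat_lit 33554440) .dd)))) (.br (nat_lit 8) (.ch (nat_lit 7) (.ev (nat_lit 2816) (nat_lit 574619656) .dd))
 (.ch (nat_lit 8) (.ev (nat_lit 2816) (nat_lit 536870920) (.ev (nat_lit 2912) (nat_lit 37748736)
 .dd))))))))))))) (.br (nat_lit 44) (.ch (nat_lit 43) (.ev (nat_lit 52) (nat_lit 322659500040) (.ev (nat_lit
 84) (nat_lit 68719476736) (.ev (nat_lit 148) (nat_lit 2097152) (.ev (nat_lit 564) (nat_lit 1048576) (.ev
 (nat_lit 1200) (nat_lit 272629760) (.ev (nat_lit 2368) (nat_lit 70368744177664) (.nd (nat_lit 2800) (.br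
 (nat_lit 7) (.ch (nat_lit 4) (.ev (nat_lit 2816) (nat_lit 39582452154368) (.ev (nat_lit 2829) (nat_lit 32)
 .dd))) (.br (nat_lit 8) (.ch (nat_lit 7) (.ev (nat_lit 2816) (nat_lit 33554464) (.ev (nat_lit 2832) (nat_lit
 39582418599936) .dd))) (.ch (nat_lit 8) (.ev (nat_lit 2816) (nat_lit 39582418599936) (.ev (nat_lit 2896)
 (nat_lit 33554432) (.ev (nat_lit 2909) (nat_lit 32) .dd)))))))))))))) (.br (nat_lit 46) (.ch (nat_lit 44) (.ev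
 (nat_lit 52) (nat_lit 110020150755328) (.ev (nat_lit 116) (nat_lit 2097152) (.ev (nat_lit 148) (nat_lit
 34359738368) (.ev (nat_lit 212) (nat_lit 4294967296) (.ev (nat_lit 340) (nat_lit 32) (.ev (nat_lit 980)
 (nat_lit 536870912) (.ev (nat_lit 1076) (nat_lit 8) (.ev (nat_lit 1328) (nat_lit 274877923328) (.ev (nat_lit
 1936) (nat_lit 1048576) (.ev (nat_lit 2416) (nat_lit 4194304) (.ev (nat_lit 2544) (nat_lit 8589934592) (.ev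
 (nat_lit 2557) (nat_lit 33554432) .dd))))))))))))) (.ch (nat_lit 46) (.ev (nat_lit 52) (nat_lit
 35189510193184) (.ev (nat_lit 180) (nat_lit 70368744177664) (.ev (nat_lit 244) (nat_lit 2097152) (.ev (nat_lit
 308) (nat_lit 34359738368) (.ev (nat_lit 532) (nat_lit 8) (.ev (nat_lit 628) (nat_lit 4398046511104) (.ev
 (nat_lit 1120) (nat_lit 352188366848) .dd))))))))))) (.br (nat_lit 50) (.br (nat_lit 48) (.ch (nat_lit 47)
 (.ev (nat_lit 52) (nat_lit 39892196343808) (.ev (nat_lit 84) (nat_lit 33554432) (.ev (nat_lit 212) (nat_lit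
 4194304) (.ev (nat_lit 244) (nat_lit 8) (.ev (nat_lit 404) (nat_lit 70368744177664) (.ev (nat_lit 1584)
 (nat_lit 8589934592) (.ev (nat_lit 2112) (nat_lit 268435456) (.nd (nat_lit 2800) (.br (nat_lit 4) (.ch
 (nat_lit 2) (.ev (nat_lit 2816) (nat_lit 4294967328) (.ev (nat_lit 2829) (nat_lit 68719476736) .dd))) (.br
 (nat_lit 5) (.ch (nat_lit 4) (.ev (nat_lit 2816) (nat_lit 32) (.fin (nat_lit 576451406450868808)))) (.ch
 (nat_lit 5) (.ev (nat_lit 2816) (nat_lit 68719476736) (.ev (nat_lit 2880) (nat_lit 4294967328)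
 .dd)))))))))))))) (.br (nat_lit 49) (.ch (nat_lit 48) (.ev (nat_lit 52) (nat_lit 105622375825440) (.ev
 (nat_lit 244) (nat_lit 33554432) (.ev (nat_lit 884) (nat_lit 34359738376) (.ev (nat_lit 2240) (nat_lit
 4194304) (.ev (nat_lit 2532) (nat_lit 4398046511104) (.nd (nat_lit 2800) (.br (nat_lit 4) (.br (nat_lit 2)
 (.ch (nat_lit 0) (.ev (nat_lit 2816) (nat_lit 12884918272) (.ev (nat_lit 3008) (nat_lit 274877906944) (.ev
 (nat_lit 3021) (nat_lit 268435456) .dd)))) (.ch (nat_lit 2) (.ev (nat_lit 2816) (nat_lit 288031260672) .dd)))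
 (.br (nat_lit 5) (.ch (nat_lit 4) (.ev (nat_lit 2816) (nat_lit 288031244288) (.ev (nat_lit 2829) (nat_lit
 16384) .dd))) (.br (nat_lit 8) (.ch (nat_lit 5) (.ev (nat_lit 2816) (nat_lit 279441326080) (.ev (nat_lit 2829)
 (nat_lit 8589934592) .dd))) (.ch (nat_lit 8) (.ev (nat_lit 2816) (nat_lit 8858386432) (.ev (nat_lit 2832)
 (nat_lit 4294967296) (.ev (nat_lit 2845) (nat_lit 274877906944) .dd)))))))))))))) (.ch (nat_lit 49) (.ev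
 (nat_lit 52) (nat_lit 109990394200072) (.ev (nat_lit 276) (nat_lit 1048576) (.ev (nat_lit 436) (nat_lit 16384)
 (.ev (nat_lit 788) (nat_lit 268435456) (.ev (nat_lit 1920) (nat_lit 274877906944) (.nd (nat_lit 2800) (.br
 (nat_lit 4) (.ch (nat_lit 2) (.ev (nat_lit 2816) (nat_lit 8589934592) (.ev (nat_lit 2848) (nat_lit
 68719476768) (.ev (nat_lit 2861) (nat_lit 65536) .dd)))) (.br (nat_lit 5) (.ch (nat_lit 4) (.ev (nat_lit 2816)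
 (nat_lit 77309476864) (.ev (nat_lit 2829) (nat_lit 32) .dd))) (.ch (nat_lit 5) (.ev (nat_lit 2816) (nat_lit
 68719542304) (.ev (nat_lit 2829) (nat_lit 8589934592) .dd)))))))))))))) (.br (nat_lit 51) (.ch (nat_lit 50)
 (.ev (nat_lit 52) (nat_lit 74809740378120) (.ev (nat_lit 372) (nat_lit 32) (.ev (nat_lit 756) (nat_lit
 33554432) (.ev (nat_lit 1044) (nat_lit 68719476736) (.ev (nat_lit 1140) (nat_lit 4294967296) (.ev (nat_lit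
 1760) (nat_lit 536870912) (.ev (nat_lit 2736) (nat_lit 1048576) (.nd (nat_lit 2800) (.br (nat_lit 6) (.br
 (nat_lit 2) (.ch (nat_lit 0) (.ev (nat_lit 2816) (nat_lit 35184372088832) (.ev (nat_lit 2932) (nat_lit
 4194304) (.ev (nat_lit 2976) (nat_lit 275148505088) .dd)))) (.ch (nat_lit 2) (.ev (nat_lit 2816) (nat_lit
 35459256352768) (.ev (nat_lit 2829) (nat_lit 268435456) .dd)))) (.br (nat_lit 8) (.ch (nat_lit 6) (.ev
 (nat_lit 2816) (nat_lit 35459252158464) (.fin (nat_lit 576461302059713084)))) (.ch (nat_lit 8) (.ev (nat_lit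
 2816) (nat_lit 270598144) (.ev (nat_lit 2932) (nat_lit 274877906944) (.ev (nat_lit 3040) (nat_lit
 35184376283136) .dd))))))))))))))) (.br (nat_lit 53) (.ch (nat_lit 51) (.ev (nat_lit 52) (nat_lit
 74878768119808) (.ev (nat_lit 84) (nat_lit 65536) (.ev (nat_lit 628) (nat_lit 1048576) (.ev (nat_lit 692)
 (nat_lit 16384) (.ev (nat_lit 1044) (nat_lit 8) (.ev (nat_lit 1108) (nat_lit 274877906944) (.ev (nat_lit 1840)
 (nat_lit 536870912) (.ev (nat_lit 2752) (nat_lit 4294967296) (.nd (nat_lit 2800) (.br (nat_lit 7) (.br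
 (nat_lit 5) (.ch (nat_lit 2) (.ev (nat_lit 2816) (nat_lit 35184372088832) (.ev (nat_lit 2829) (nat_lit 32)
 .dd))) (.ch (nat_lit 5) (.ev (nat_lit 2816) (nat_lit 35184372088864) .dd))) (.br (nat_lit 8) (.ch (nat_lit 7)
 (.ev (nat_lit 2816) (nat_lit 32) (.ev (nat_lit 2829) (nat_lit 35184372088832) .dd))) (.ch (nat_lit 8) (.ev
 (nat_lit 2816) (nat_lit 35184372088832) (.ev (nat_lit 2829) (nat_lit 32) .dd))))))))))))))) (.ch (nat_lit 53)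
 (.ev (nat_lit 52) (nat_lit 70716638625824) (.ev (nat_lit 276) (nat_lit 16384) (.ev (nat_lit 404) (nat_lit
 65544) (.ev (nat_lit 532) (nat_lit 33554432) (.ev (nat_lit 948) (nat_lit 34359738368) (.ev (nat_lit 1360)
 (nat_lit 8594128896) (.ev (nat_lit 2448) (nat_lit 268435456) (.nd (nat_lit 2800) (.br (nat_lit 6) (.ch
 (nat_lit 0) (.ev (nat_lit 2816) (nat_lit 39582418599936) (.ev (nat_lit 2896) (nat_lit 1048576) (.ev (nat_lit
 2909) (nat_lit 536870912) .dd)))) (.br (nat_lit 7) (.ch (nat_lit 6) (.ev (nat_lit 2816) (nat_lit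
 39582419648512) (.ev (nat_lit 2829) (nat_lit 536870912) .dd))) (.ch (nat_lit 7) (.ev (nat_lit 2816) (nat_lit
 537919488) (.ev (nat_lit 2832) (nat_lit 39582418599936) .dd)))))))))))))))))) (.br (nat_lit 64) (.br (nat_lit
 57) (.br (nat_lit 55) (.ch (nat_lit 54) (.ev (nat_lit 52) (nat_lit 4712117043208) (.ev (nat_lit 116) (nat_lit
 68719476736) (.ev (nat_lit 308) (nat_lit 2097152) (.ev (nat_lit 788) (nat_lit 35184372088832) (.ev (nat_lit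
 884) (nat_lit 32) (.ev (nat_lit 2288) (nat_lit 33554432) (.ev (nat_lit 2564) (nat_lit 268435456) (.nd (nat_lit
 2800) (.br (nat_lit 6) (.br (nat_lit 5) (.ch (nat_lit 2) (.ev (nat_lit 2816) (nat_lit 70377338372096) (.ev
 (nat_lit 2829) (nat_lit 16384) .dd))) (.ch (nat_lit 5) (.ev (nat_lit 2816) (nat_lit 70377338388480) .dd)))
 (.br (nat_lit 7) (.ch (nat_lit 6) (.ev (nat_lit 2816) (nat_lit 70368748453888) (.ev (nat_lit 2829) (nat_lit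
 8589934592) .dd))) (.br (nat_lit 8) (.ch (nat_lit 7) (.ev (nat_lit 2816) (nat_lit 8594145280) (.ev (nat_lit
 2832) (nat_lit 70368744177664) (.ev (nat_lit 2845) (nat_lit 65536) .dd)))) (.ch (nat_lit 8) (.ev (nat_lit
 2816) (nat_lit 70377334128640) (.ev (nat_lit 3060) (nat_lit 4194304) (.ev (nat_lit 3069) (nat_lit 65536)
 .dd)))))))))))))))) (.ch (nat_lit 55) (.ev (nat_lit 52) (nat_lit 35494184419336) (.ev (nat_lit 820) (nat_lit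
 4294967296) (.ev (nat_lit 948) (nat_lit 32) (.ev (nat_lit 1012) (nat_lit 16384) (.ev (nat_lit 1456) (nat_lit
 68721573888) (.ev (nat_lit 1968) (nat_lit 70368744177664) (.nd (nat_lit 2800) (.br (nat_lit 7) (.ch (nat_lit
 4) (.ev (nat_lit 2816) (nat_lit 4398315995136) (.ev (nat_lit 2829) (nat_lit 8589934592) .dd))) (.br (nat_lit
 8) (.ch (nat_lit 7) (.ev (nat_lit 2816) (nat_lit 1048576) (.ev (nat_lit 2832) (nat_lit 8858370048) (.ev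
 (nat_lit 2845) (nat_lit 4398046511104) .dd)))) (.ch (nat_lit 8) (.ev (nat_lit 2816) (nat_lit 4406904881152)
 (.ev (nat_lit 2829) (nat_lit 1048576) .dd)))))))))))))) (.br (nat_lit 58) (.ch (nat_lit 57) (.ev (nat_lit 52)
 (nat_lit 70411962368008) (.ev (nat_lit 180) (nat_lit 32) (.ev (nat_lit 404) (nat_lit 33554432) (.ev (nat_lit
 436) (nat_lit 536870912) (.ev (nat_lit 2160) (nat_lit 35184372088832) (.ev (nat_lit 2532) (nat_lit 1048576)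
 (.nd (nat_lit 2800) (.br (nat_lit 4) (.br (nat_lit 2) (.ch (nat_lit 0) (.ev (nat_lit 2816) (nat_lit
 4677225676800) (.ev (nat_lit 2829) (nat_lit 68719476736) .dd))) (.ch (nat_lit 2) (.ev (nat_lit 2816) (nat_lit
 4745940959232) (.ev (nat_lit 2829) (nat_lit 4194304) .dd)))) (.br (nat_lit 5) (.ch (nat_lit 4) (.ev (nat_lit
 2816) (nat_lit 4672930709504) (.fin (nat_lit 576451406450868808)))) (.br (nat_lit 8) (.ch (nat_lit 5) (.ev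
 (nat_lit 2816) (nat_lit 68725768192) (.ev (nat_lit 2932) (nat_lit 4294967296) (.ev (nat_lit 3008) (nat_lit
 4672924418048) .dd)))) (.ch (nat_lit 8) (.ev (nat_lit 2816) (nat_lit 4471065149440) (.ev (nat_lit 2912)
 (nat_lit 274880004096) .dd)))))))))))))) (.br (nat_lit 62) (.ch (nat_lit 58) (.ev (nat_lit 52) (nat_lit
 105897019834368) (.ev (nat_lit 212) (nat_lit 4398046511104) (.ev (nat_lit 416) (nat_lit 47784738856) .dd))))
 (.ch (nat_lit 62) (.ev (nat_lit 52) (nat_lit 4411473608712) (.ev (nat_lit 84) (nat_lit 2097152) (.ev (nat_lit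
 1108) (nat_lit 35184372088832) (.ev (nat_lit 1408) (nat_lit 34628173824) (.ev (nat_lit 2128) (nat_lit 32) (.nd
 (nat_lit 2800) (.br (nat_lit 7) (.br (nat_lit 5) (.ch (nat_lit 4) (.ev (nat_lit 2816) (nat_lit 70712375115776)
 .dd)) (.ch (nat_lit 5) (.ev (nat_lit 2816) (nat_lit 68719476736) (.ev (nat_lit 2948) (nat_lit 70368744177664)
 (.ev (nat_lit 2976) (nat_lit 274911461376) .dd))))) (.br (nat_lit 8) (.ch (nat_lit 7) (.ev (nat_lit 2816)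
 (nat_lit 343630938112) (.ev (nat_lit 2829) (nat_lit 70368744177664) .dd))) (.ch (nat_lit 8) (.ev (nat_lit
 2932) (nat_lit 274877906944) (.ev (nat_lit 3092) (nat_lit 33554432) (.ev (nat_lit 3136) (nat_lit 68719476736)
 (.ev (nat_lit 3149) (nat_lit 70368744177664) .dd))))))))))))))))) (.br (nat_lit 68) (.br (nat_lit 65) (.ch
 (nat_lit 64) (.ev (nat_lit 52) (nat_lit 39965207560224) (.ev (nat_lit 276) (nat_lit 4194304) (.ev (nat_lit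
 468) (nat_lit 16384) (.ev (nat_lit 660) (nat_lit 8) (.ev (nat_lit 800) (nat_lit 70377639313408) .dd)))))) (.br
 (nat_lit 67) (.ch (nat_lit 65) (.ev (nat_lit 52) (nat_lit 74775381737480) (.ev (nat_lit 180) (nat_lit 2097152)
 (.ev (nat_lit 340) (nat_lit 68719476736) (.ev (nat_lit 372) (nat_lit 33554432) (.ev (nat_lit 468) (nat_lit
 35184372088832) (.ev (nat_lit 1888) (nat_lit 4294967296) (.ev (nat_lit 2768) (nat_lit 274877906944) (.nd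
 (nat_lit 2800) (.br (nat_lit 6) (.br (nat_lit 2) (.ch (nat_lit 0) (.ev (nat_lit 2816) (nat_lit 34628173856)
 (.ev (nat_lit 2932) (nat_lit 16384) (.ev (nat_lit 3184) (nat_lit 541065216) .dd)))) (.ch (nat_lit 2) (.ev
 (nat_lit 2816) (nat_lit 536870912) (.ev (nat_lit 2932) (nat_lit 4194304) (.ev (nat_lit 3120) (nat_lit
 34628190240) .dd))))) (.br (nat_lit 7) (.ch (nat_lit 6) (.ev (nat_lit 2816) (nat_lit 34896625696) (.fin
 (nat_lit 576461302059713084)))) (.ch (nat_lit 7) (.ev (nat_lit 2816) (nat_lit 34900820000) (.ev (nat_lit 2829)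
 (nat_lit 268435456) .dd)))))))))))))) (.ch (nat_lit 67) (.ev (nat_lit 52) (nat_lit 70652252979240) (.ev
 (nat_lit 116) (nat_lit 34359738368) (.ev (nat_lit 692) (nat_lit 35184372088832) (.ev (nat_lit 960) (nat_lit
 4471866277888) .dd))))))) (.br (nat_lit 69) (.ch (nat_lit 68) (.ev (nat_lit 52) (nat_lit 110294760226848) (.ev
 (nat_lit 116) (nat_lit 33554432) (.ev (nat_lit 660) (nat_lit 2097152) (.ev (nat_lit 980) (nat_lit 4194304)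
 (.ev (nat_lit 2304) (nat_lit 4294967296) (.ev (nat_lit 2564) (nat_lit 16384) (.nd (nat_lit 2800) (.br (nat_lit
 6) (.br (nat_lit 5) (.ch (nat_lit 2) (.ev (nat_lit 2816) (nat_lit 43754979328) (.fin (nat_lit
 576460202533405240)))) (.ch (nat_lit 5) (.ev (nat_lit 2816) (nat_lit 9396289544) (.ev (nat_lit 2829) (nat_lit
 34359738368) .dd)))) (.br (nat_lit 7) (.ch (nat_lit 6) (.ev (nat_lit 2816) (nat_lit 34629222400) (.ev (nat_lit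
 2932) (nat_lit 8) (.ev (nat_lit 3152) (nat_lit 9126805504) .dd)))) (.br (nat_lit 8) (.ch (nat_lit 7) (.ev
 (nat_lit 2816) (nat_lit 34897657864) (.ev (nat_lit 2912) (nat_lit 8858370048) .dd))) (.ch (nat_lit 8) (.ev
 (nat_lit 2816) (nat_lit 43754979336) (.ev (nat_lit 2829) (nat_lit 1048576) .dd)))))))))))))) (.br (nat_lit 70)
 (.ch (nat_lit 69) (.ev (nat_lit 52) (nat_lit 35197532766208) (.ev (nat_lit 340) (nat_lit 70368744177664) (.ev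
 (nat_lit 500) (nat_lit 34359738368) (.ev (nat_lit 852) (nat_lit 68719476736) (.ev (nat_lit 884) (nat_lit
 33554432) (.ev (nat_lit 1012) (nat_lit 274877906944) (.ev (nat_lit 1140) (nat_lit 16384) (.ev (nat_lit 1872)
 (nat_lit 536870912) (.nd (nat_lit 2800) (.br (nat_lit 6) (.ch (nat_lit 2) (.ev (nat_lit 2816) (nat_lit 32)
 (.ev (nat_lit 2848) (nat_lit 65544) (.ev (nat_lit 2861) (nat_lit 4398046511104) .dd)))) (.br (nat_lit 8) (.ch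
 (nat_lit 6) (.ev (nat_lit 2816) (nat_lit 4398046576672) (.ev (nat_lit 2829) (nat_lit 8) .dd))) (.ch (nat_lit
 8) (.ev (nat_lit 2816) (nat_lit 4398046576648) (.ev (nat_lit 2829) (nat_lit 32) .dd))))))))))))))) (.ch
 (nat_lit 70) (.ev (nat_lit 52) (nat_lit 105657034358784) (.ev (nat_lit 212) (nat_lit 274877906944) (.ev
 (nat_lit 500) (nat_lit 2097152) (.ev (nat_lit 628) (nat_lit 8589934592) (.ev (nat_lit 660) (nat_lit 32) (.ev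
 (nat_lit 1108) (nat_lit 4294967296) (.ev (nat_lit 1700) (nat_lit 4398046511104) (.ev (nat_lit 2464) (nat_lit
 4194304) (.nd (nat_lit 2800) (.br (nat_lit 6) (.ch (nat_lit 2) (.ev (nat_lit 2816) (nat_lit 65536) (.fin
 (nat_lit 576460202533405240)))) (.br (nat_lit 8) (.ch (nat_lit 6) (.ev (nat_lit 2816) (nat_lit 1114112) (.ev
 (nat_lit 2829) (nat_lit 8) .dd))) (.ch (nat_lit 8) (.ev (nat_lit 2816) (nat_lit 8) (.ev (nat_lit 2848)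
 (nat_lit 65536) (.ev (nat_lit 2861) (nat_lit 1048576) .dd))))))))))))))))))))))))

/-- The trie. -/
noncomputable def T : Tr := .nd (nat_lit 1000000) (.br (nat_lit 4) (.br (nat_lit 1) (.ch (nat_lit 0) (.ev
 (nat_lit 0) (nat_lit 140737488355327) .dd)) (.ch (nat_lit 1) T1)) (.br (nat_lit 5) (.ch (nat_lit 4) T4) (.br
 (nat_lit 10) (.ch (nat_lit 5) (.ev (nat_lit 0) (nat_lit 140737488355327) .dd)) (.ch (nat_lit 10) (.ev (nat_lit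
 0) (nat_lit 140737488355327) .dd)))))

/-- The possible values. -/
noncomputable def oks : List ℕ := [34, 565]

/-- The parameters. -/
noncomputable def S : Pr := ⟨fun i l e => lget mz (lget [] (lget [] tabs i) l) e, oks, [(nat_lit 0), (nat_lit
 1), (nat_lit 0)], T, (nat_lit 140737488355327), (nat_lit 12800101590481), (nat_lit 47), [(nat_lit 1057),
 (nat_lit 87122173451996128837)], [(nat_lit 121), (nat_lit 5041)]⟩

/-- Nothing known. -/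
noncomputable def cs0 : Cs := (.cons (nat_lit 11) (nat_lit 0) (nat_lit 1) (.cons (nat_lit 71) (nat_lit 0) (nat_lit 1) .nil))

theorem part_1 : part S cs0 (nat_lit 1) = true := by decide +kernel

theorem part_4 : part S cs0 (nat_lit 4) = true := by decide +kernel

/-- Data of a prime. -/
noncomputable def D0 : PD := ⟨(nat_lit 11), (nat_lit 2), (12, 3, 3), (46, 69, 43), (105, 106, 86)⟩

theorem D0_ok : D0.Ok := pdb_sound (s := 1) (C := ⟨⟨9, -6, -17, -1, -14, 8, -4, -1, -1⟩, (9, 10, 7)⟩) (by show Nat.Prime 11; norm_num) (by decide +kernel)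

/-- Lines of the first type. -/
noncomputable def Cl0 : List C1 := [⟨⟨-9, 6, -8, 1, 14, 7, 4, 1, -5⟩, (4, 2, 8)⟩,
  ⟨⟨0, 0, 0, 0, 0, 0, 0, 0, 0⟩, (0, 0, 0)⟩,
  ⟨⟨0, 0, 0, 0, 0, 0, 0, 0, 0⟩, (0, 0, 0)⟩,
  ⟨⟨0, 0, 0, 0, 0, 0, 0, 0, 0⟩, (0, 0, 0)⟩,
  ⟨⟨0, 0, 0, 0, 0, 0, 0, 0, 0⟩, (0, 0, 0)⟩,
  ⟨⟨9, 6, -17, -1, 14, 8, -4, 1, -1⟩, (8, 4, 5)⟩,
  ⟨⟨0, 0, 0, 0, 0, 0, 0, 0, 0⟩, (0, 0, 0)⟩,
  ⟨⟨0, 0, 0, 0, 0, 0, 0, 0, 0⟩, (0, 0, 0)⟩,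
  ⟨⟨0, 0, 0, 0, 0, 0, 0, 0, 0⟩, (0, 0, 0)⟩,
  ⟨⟨0, 0, 0, 0, 0, 0, 0, 0, 0⟩, (0, 0, 0)⟩,
  ⟨⟨-9, -6, -8, 1, -14, 7, 4, -1, -5⟩, (7, 9, 3)⟩]

/-- Data of a prime. -/
noncomputable def D1 : PD := ⟨(nat_lit 71), (nat_lit 2), (72, 9, 33), (3977, 4536, 3372), (4173, 4400, 3526)⟩

theorem D1_ok : D1.Ok := pdb_sound (s := 11) (C := ⟨⟨59, 34, -112, -29, 94, 37, -24, -3, -11⟩, (59, 42, 47)⟩) (by show Nat.Prime 71; norm_num) (by decide +kernel)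

/-- Lines of the first type. -/
noncomputable def Cl1 : List C1 := [⟨⟨-59, -34, -53, 29, -94, 8, 24, 3, -35⟩, (17, 47, 34)⟩,
  ⟨⟨0, 0, 0, 0, 0, 0, 0, 0, 0⟩, (0, 0, 0)⟩,
  ⟨⟨49, -74, -77, 79, 14, 28, 12, 21, -29⟩, (59, 56, 13)⟩,
  ⟨⟨0, 0, 0, 0, 0, 0, 0, 0, 0⟩, (0, 0, 0)⟩,
  ⟨⟨0, 0, 0, 0, 0, 0, 0, 0, 0⟩, (0, 0, 0)⟩,
  ⟨⟨0, 0, 0, 0, 0, 0, 0, 0, 0⟩, (0, 0, 0)⟩,
  ⟨⟨79, -14, -107, 49, 74, 28, -12, 21, -17⟩, (44, 21, 5)⟩,
  ⟨⟨0, 0, 0, 0, 0, 0, 0, 0, 0⟩, (0, 0, 0)⟩,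
  ⟨⟨0, 0, 0, 0, 0, 0, 0, 0, 0⟩, (0, 0, 0)⟩,
  ⟨⟨39, 66, -92, -89, 46, 37, -8, -19, -23⟩, (13, 65, 21)⟩,
  ⟨⟨19, 46, -107, -91, -26, 8, 12, -27, -19⟩, (7, 30, 53)⟩,
  ⟨⟨0, 0, 0, 0, 0, 0, 0, 0, 0⟩, (0, 0, 0)⟩,
  ⟨⟨0, 0, 0, 0, 0, 0, 0, 0, 0⟩, (0, 0, 0)⟩,
  ⟨⟨99, 6, -67, 11, -94, 32, -4, -11, -31⟩, (13, 33, 59)⟩,
  ⟨⟨-39, -66, -53, -89, 46, 52, 8, 19, -31⟩, (17, 57, 22)⟩,
  ⟨⟨0, 0, 0, 0, 0, 0, 0, 0, 0⟩, (0, 0, 0)⟩,
  ⟨⟨0, 0, 0, 0, 0, 0, 0, 0, 0⟩, (0, 0, 0)⟩,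
  ⟨⟨19, -46, -107, -91, 26, 8, 12, 27, -19⟩, (15, 44, 2)⟩,
  ⟨⟨0, 0, 0, 0, 0, 0, 0, 0, 0⟩, (0, 0, 0)⟩,
  ⟨⟨0, 0, 0, 0, 0, 0, 0, 0, 0⟩, (0, 0, 0)⟩,
  ⟨⟨51, 66, -88, -59, 74, 67, -20, -5, -17⟩, (59, 64, 59)⟩,
  ⟨⟨49, 74, -77, 79, -14, 28, 12, -21, -29⟩, (6, 43, 29)⟩,
  ⟨⟨0, 0, 0, 0, 0, 0, 0, 0, 0⟩, (0, 0, 0)⟩,
  ⟨⟨0, 0, 0, 0, 0, 0, 0, 0, 0⟩, (0, 0, 0)⟩,
  ⟨⟨0, 0, 0, 0, 0, 0, 0, 0, 0⟩, (0, 0, 0)⟩,
  ⟨⟨31, 74, -83, -81, 54, 68, -16, -13, -19⟩, (8, 2, 60)⟩,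
  ⟨⟨0, 0, 0, 0, 0, 0, 0, 0, 0⟩, (0, 0, 0)⟩,
  ⟨⟨11, 94, -43, -99, 6, 32, 4, -11, -35⟩, (69, 18, 38)⟩,
  ⟨⟨-51, 66, -37, 59, 74, 8, 20, -5, -37⟩, (25, 56, 25)⟩,
  ⟨⟨0, 0, 0, 0, 0, 0, 0, 0, 0⟩, (0, 0, 0)⟩,
  ⟨⟨39, -66, -92, -89, -46, 37, -8, 19, -23⟩, (43, 2, 64)⟩,
  ⟨⟨0, 0, 0, 0, 0, 0, 0, 0, 0⟩, (0, 0, 0)⟩,
  ⟨⟨59, -34, -112, -29, -94, 37, -24, 3, -11⟩, (9, 4, 18)⟩,
  ⟨⟨0, 0, 0, 0, 0, 0, 0, 0, 0⟩, (0, 0, 0)⟩,
  ⟨⟨0, 0, 0, 0, 0, 0, 0, 0, 0⟩, (0, 0, 0)⟩,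
  ⟨⟨-59, 34, -53, 29, 94, 8, 24, -3, -35⟩, (8, 43, 16)⟩,
  ⟨⟨0, 0, 0, 0, 0, 0, 0, 0, 0⟩, (0, 0, 0)⟩,
  ⟨⟨11, -94, -43, -99, -6, 32, 4, 11, -35⟩, (2, 53, 33)⟩,
  ⟨⟨0, 0, 0, 0, 0, 0, 0, 0, 0⟩, (0, 0, 0)⟩,
  ⟨⟨0, 0, 0, 0, 0, 0, 0, 0, 0⟩, (0, 0, 0)⟩,
  ⟨⟨51, -66, -88, -59, -74, 67, -20, 5, -17⟩, (18, 46, 18)⟩,
  ⟨⟨-19, -46, -88, -91, -26, 83, -12, 27, -7⟩, (26, 61, 65)⟩,
  ⟨⟨0, 0, 0, 0, 0, 0, 0, 0, 0⟩, (0, 0, 0)⟩,
  ⟨⟨0, 0, 0, 0, 0, 0, 0, 0, 0⟩, (0, 0, 0)⟩,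
  ⟨⟨0, 0, 0, 0, 0, 0, 0, 0, 0⟩, (0, 0, 0)⟩,
  ⟨⟨-19, 46, -88, -91, 26, 83, -12, -27, -7⟩, (18, 4, 45)⟩,
  ⟨⟨0, 0, 0, 0, 0, 0, 0, 0, 0⟩, (0, 0, 0)⟩,
  ⟨⟨0, 0, 0, 0, 0, 0, 0, 0, 0⟩, (0, 0, 0)⟩,
  ⟨⟨0, 0, 0, 0, 0, 0, 0, 0, 0⟩, (0, 0, 0)⟩,
  ⟨⟨0, 0, 0, 0, 0, 0, 0, 0, 0⟩, (0, 0, 0)⟩,
  ⟨⟨0, 0, 0, 0, 0, 0, 0, 0, 0⟩, (0, 0, 0)⟩,
  ⟨⟨0, 0, 0, 0, 0, 0, 0, 0, 0⟩, (0, 0, 0)⟩,
  ⟨⟨99, -6, -67, 11, 94, 32, -4, 11, -31⟩, (48, 29, 54)⟩,
  ⟨⟨0, 0, 0, 0, 0, 0, 0, 0, 0⟩, (0, 0, 0)⟩,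
  ⟨⟨0, 0, 0, 0, 0, 0, 0, 0, 0⟩, (0, 0, 0)⟩,
  ⟨⟨0, 0, 0, 0, 0, 0, 0, 0, 0⟩, (0, 0, 0)⟩,
  ⟨⟨-51, -66, -37, 59, -74, 8, 20, 5, -37⟩, (55, 38, 55)⟩,
  ⟨⟨0, 0, 0, 0, 0, 0, 0, 0, 0⟩, (0, 0, 0)⟩,
  ⟨⟨0, 0, 0, 0, 0, 0, 0, 0, 0⟩, (0, 0, 0)⟩,
  ⟨⟨-31, -74, -52, -81, 54, 13, 16, 13, -35⟩, (64, 55, 54)⟩,
  ⟨⟨-31, 74, -52, -81, -54, 13, 16, -13, -35⟩, (11, 15, 47)⟩,
  ⟨⟨-39, 66, -53, -89, -46, 52, 8, -19, -31⟩, (58, 65, 50)⟩,
  ⟨⟨0, 0, 0, 0, 0, 0, 0, 0, 0⟩, (0, 0, 0)⟩,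
  ⟨⟨79, 14, -107, 49, -74, 28, -12, -21, -17⟩, (57, 3, 21)⟩,
  ⟨⟨0, 0, 0, 0, 0, 0, 0, 0, 0⟩, (0, 0, 0)⟩,
  ⟨⟨0, 0, 0, 0, 0, 0, 0, 0, 0⟩, (0, 0, 0)⟩,
  ⟨⟨31, -74, -83, -81, -54, 68, -16, 13, -19⟩, (61, 33, 67)⟩,
  ⟨⟨0, 0, 0, 0, 0, 0, 0, 0, 0⟩, (0, 0, 0)⟩,
  ⟨⟨0, 0, 0, 0, 0, 0, 0, 0, 0⟩, (0, 0, 0)⟩,
  ⟨⟨0, 0, 0, 0, 0, 0, 0, 0, 0⟩, (0, 0, 0)⟩,
  ⟨⟨0, 0, 0, 0, 0, 0, 0, 0, 0⟩, (0, 0, 0)⟩]

/-- Data of a prime. -/
noncomputable def Dm : PD := ⟨(nat_lit 47), (nat_lit 2), (1034, 1, 9), (105, 517, 2039), (987, 5, 190)⟩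

theorem Dm_ok : Dm.Ok := pdb_sound (s := 1) (C := ⟨⟨47, 2, -76, 47, -2, 29, 0, -21, -1⟩, (2, 45, 26)⟩) (by show Nat.Prime 47; norm_num) (by decide +kernel)

/-- Lines of the first type. -/
noncomputable def Clm : List C1 := [⟨⟨47, -2, -76, 47, 2, 29, 0, 21, -1⟩, (9, 38, 23)⟩,
  ⟨⟨0, 0, 0, 0, 0, 0, 0, 0, 0⟩, (0, 0, 0)⟩,
  ⟨⟨0, 0, 0, 0, 0, 0, 0, 0, 0⟩, (0, 0, 0)⟩,
  ⟨⟨0, 0, 0, 0, 0, 0, 0, 0, 0⟩, (0, 0, 0)⟩,
  ⟨⟨17, 22, -76, -63, 18, 19, -4, -19, -7⟩, (10, 21, 17)⟩,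
  ⟨⟨0, 0, 0, 0, 0, 0, 0, 0, 0⟩, (0, 0, 0)⟩,
  ⟨⟨57, -18, -61, -23, -62, 4, -8, 5, -17⟩, (3, 26, 7)⟩,
  ⟨⟨57, 18, -61, -23, 62, 4, -8, -5, -17⟩, (16, 29, 6)⟩,
  ⟨⟨53, -22, -64, -13, -62, 29, -12, -3, -13⟩, (46, 10, 2)⟩,
  ⟨⟨0, 0, 0, 0, 0, 0, 0, 0, 0⟩, (0, 0, 0)⟩,
  ⟨⟨43, -38, -59, 3, -42, 56, -16, -11, -1⟩, (35, 9, 46)⟩,
  ⟨⟨0, 0, 0, 0, 0, 0, 0, 0, 0⟩, (0, 0, 0)⟩,
  ⟨⟨0, 0, 0, 0, 0, 0, 0, 0, 0⟩, (0, 0, 0)⟩,
  ⟨⟨-17, -22, -59, -63, 18, 44, 4, 19, -11⟩, (15, 39, 2)⟩,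
  ⟨⟨0, 0, 0, 0, 0, 0, 0, 0, 0⟩, (0, 0, 0)⟩,
  ⟨⟨0, 0, 0, 0, 0, 0, 0, 0, 0⟩, (0, 0, 0)⟩,
  ⟨⟨0, 0, 0, 0, 0, 0, 0, 0, 0⟩, (0, 0, 0)⟩,
  ⟨⟨53, 22, -64, -13, 62, 29, -12, 3, -13⟩, (41, 13, 12)⟩,
  ⟨⟨0, 0, 0, 0, 0, 0, 0, 0, 0⟩, (0, 0, 0)⟩,
  ⟨⟨0, 0, 0, 0, 0, 0, 0, 0, 0⟩, (0, 0, 0)⟩,
  ⟨⟨0, 0, 0, 0, 0, 0, 0, 0, 0⟩, (0, 0, 0)⟩,
  ⟨⟨0, 0, 0, 0, 0, 0, 0, 0, 0⟩, (0, 0, 0)⟩,
  ⟨⟨0, 0, 0, 0, 0, 0, 0, 0, 0⟩, (0, 0, 0)⟩,
  ⟨⟨43, 38, -59, 3, 42, 56, -16, 11, -1⟩, (5, 8, 20)⟩,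
  ⟨⟨3, -42, -59, 43, -38, 16, 16, 11, -17⟩, (39, 42, 20)⟩,
  ⟨⟨0, 0, 0, 0, 0, 0, 0, 0, 0⟩, (0, 0, 0)⟩,
  ⟨⟨0, 0, 0, 0, 0, 0, 0, 0, 0⟩, (0, 0, 0)⟩,
  ⟨⟨0, 0, 0, 0, 0, 0, 0, 0, 0⟩, (0, 0, 0)⟩,
  ⟨⟨0, 0, 0, 0, 0, 0, 0, 0, 0⟩, (0, 0, 0)⟩,
  ⟨⟨0, 0, 0, 0, 0, 0, 0, 0, 0⟩, (0, 0, 0)⟩,
  ⟨⟨-13, -62, -16, 53, -22, 11, 12, 3, -25⟩, (34, 6, 12)⟩,
  ⟨⟨0, 0, 0, 0, 0, 0, 0, 0, 0⟩, (0, 0, 0)⟩,
  ⟨⟨0, 0, 0, 0, 0, 0, 0, 0, 0⟩, (0, 0, 0)⟩,
  ⟨⟨0, 0, 0, 0, 0, 0, 0, 0, 0⟩, (0, 0, 0)⟩,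
  ⟨⟨17, -22, -76, -63, -18, 19, -4, 19, -7⟩, (15, 8, 2)⟩,
  ⟨⟨0, 0, 0, 0, 0, 0, 0, 0, 0⟩, (0, 0, 0)⟩,
  ⟨⟨0, 0, 0, 0, 0, 0, 0, 0, 0⟩, (0, 0, 0)⟩,
  ⟨⟨3, 42, -59, 43, 38, 16, 16, -11, -17⟩, (38, 12, 46)⟩,
  ⟨⟨0, 0, 0, 0, 0, 0, 0, 0, 0⟩, (0, 0, 0)⟩,
  ⟨⟨-13, 62, -16, 53, 22, 11, 12, -3, -25⟩, (37, 1, 2)⟩,
  ⟨⟨23, 62, -19, 57, -18, 4, 8, -5, -25⟩, (29, 31, 6)⟩,
  ⟨⟨23, -62, -19, 57, 18, 4, 8, 5, -25⟩, (26, 44, 7)⟩,
  ⟨⟨0, 0, 0, 0, 0, 0, 0, 0, 0⟩, (0, 0, 0)⟩,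
  ⟨⟨-17, 22, -59, -63, -18, 44, 4, -19, -11⟩, (10, 26, 17)⟩,
  ⟨⟨0, 0, 0, 0, 0, 0, 0, 0, 0⟩, (0, 0, 0)⟩,
  ⟨⟨0, 0, 0, 0, 0, 0, 0, 0, 0⟩, (0, 0, 0)⟩,
  ⟨⟨0, 0, 0, 0, 0, 0, 0, 0, 0⟩, (0, 0, 0)⟩]

/-- Unit moves. -/
noncomputable def U : List Mv := [mz,
  mz,
  ⟨⟨-1, 0, 1, 0, 1, 0, 0, 0, 1⟩, .nil, (nat_lit 10), (nat_lit 5), (nat_lit 1), (nat_lit 1), (0, 0, 0), [], 6⟩,
  ⟨⟨1, 0, 0, 0, -1, 0, 0, 0, 1⟩, .nil, (nat_lit 10), (nat_lit 10), (nat_lit 2), (nat_lit 1), (0, 0, 0), [], 10⟩,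
  mz,
  mz,
  ⟨⟨-1, 0, 1, 0, -1, 0, 0, 0, 1⟩, .nil, (nat_lit 0), (nat_lit 6), (nat_lit 1), (nat_lit 0), (0, 0, 0), [], 5⟩,
  ⟨⟨-1, 0, 1, 0, -1, 0, 0, 0, 1⟩, .nil, (nat_lit 0), (nat_lit 6), (nat_lit 1), (nat_lit 0), (0, 0, 0), [], 5⟩,
  ⟨⟨1, 0, 0, 0, -1, 0, 0, 0, 1⟩, .nil, (nat_lit 10), (nat_lit 10), (nat_lit 2), (nat_lit 1), (0, 0, 0), [], 10⟩,
  ⟨⟨-1, 0, 1, 0, 1, 0, 0, 0, 1⟩, .nil, (nat_lit 10), (nat_lit 5), (nat_lit 1), (nat_lit 1), (0, 0, 0), [], 6⟩,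
  mz]

theorem v_ty : tyb Dm S.ty1 Clm = true := by decide +kernel

theorem v_ty0 : tyb D0 (S.tys.getD 0 0) Cl0 = true := by decide +kernel

theorem v_ty1 : tyb D1 (S.tys.getD 1 0) Cl1 = true := by decide +kernel

theorem v_msc : mscb S D0 [D1] Dm (nat_lit 18) = true := by decide +kernel

theorem v_mv0 : mvsn (nat_lit 1347403849) S D0 [D1] Dm (nat_lit 18) 0 D0 = true := by decide +kernel

theorem v_mv1 : mvsn (nat_lit 1347403849) S D0 [D1] Dm (nat_lit 18) 1 D1 = true := by decide +kernel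

theorem v_mm : mmsn (nat_lit 1347403849) S D0 [D1] Dm (nat_lit 18) = true := by decide +kernel

theorem v_un : unb S D0 (nat_lit 18) U = true := by decide +kernel

theorem v_ok : okb S.oks [(0, 0, 0), (6, 23, 0)] = true := by decide +kernel

theorem v_part : ∀ d < D0.p, (nat_lit 18).testBit d = true → part S (zc (D0 :: [D1])) d = true := by
  intro d hd h
  have h1 : ∀ d < 11, (nat_lit 18).testBit d = true → d = 1 ∨ d = 4 := by decide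
  rcases h1 d hd h with rfl | rfl
  · exact part_1
  · exact part_4

theorem main (n : ℕ) (ho : Odd n) (hr : ¬ Rep n) (h0 : Split 11 n) (h1 : Split 71 n) (hm : Split 47 n) :
    n ∈ EE := by
  refine concln (W := nat_lit 1347403849) (S := S) (P0 := D0) (Pl := [D1]) (Pm := Dm) (cn := nat_lit 18) ?_ Dm_ok v_ty ?_ ?_ v_msc ?_ v_mm v_un v_part v_ok
    n ho hr ?_ hm
  · simp only [List.forall_mem_cons]
    exact ⟨D0_ok, D1_ok, fun _ h => absurd h (by simp)⟩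
  · exact all2 (φ := fun j P => ∃ L, tyb P (S.tys.getD j 0) L = true) ⟨_, v_ty0⟩ ⟨_, v_ty1⟩
  · exact all2 (φ := fun j P => Nat.ble (S.pks.getD j 0) (Nat.pow P.p P.K) = true) (by decide +kernel) (by decide +kernel)
  · exact all2 (φ := fun i P => mvsn (nat_lit 1347403849) S D0 [D1] Dm (nat_lit 18) i P = true) v_mv0 v_mv1
  · simp only [List.forall_mem_cons]
    exact ⟨h0, h1, fun _ h => absurd h (by simp)⟩

end Pool.Agent.Work.MP_9954fe_nt.P11_71_47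

namespace Pool.Agent.Work.MP_9954fe_nt.P13_71_43

/-- Dummy move. -/
noncomputable def mz : Mv := ⟨⟨0, 0, 0, 0, 0, 0, 0, 0, 0⟩, .nil, (nat_lit 0), (nat_lit 0), (nat_lit 0), (nat_lit 0), (0, 0, 0), [], 0⟩

/-- Moves. -/
noncomputable def t0_2 : List Mv := [
  ⟨⟨-1, -12, 9, 8, 5, 6, 8, -8, -7⟩, (.cons (nat_lit 110) (nat_lit 4) (nat_lit 124) (nat_lit 1) (.cons (nat_lit 1710) (nat_lit 1539) (nat_lit 4531) (nat_lit 1) .nil)), (nat_lit 23), (nat_lit 21), (nat_lit 30), (nat_lit 1), (8, 1, 1), [48, 2389], 22⟩,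
  ⟨⟨9, 4, -16, -8, -5, -6, 8, -8, -7⟩, (.cons (nat_lit 41) (nat_lit 121) (nat_lit 47) (nat_lit 1) (.cons
 (nat_lit 4785) (nat_lit 1751) (nat_lit 2707) (nat_lit 1) .nil)), (nat_lit 1), (nat_lit 33), (nat_lit 40),
 (nat_lit 1), (6, 12, 1), [69, 1585], 33⟩,
  ⟨⟨9, 4, -16, -8, -5, -6, 8, -8, -7⟩, (.cons (nat_lit 41) (nat_lit 121) (nat_lit 47) (nat_lit 1) (.cons
 (nat_lit 4785) (nat_lit 1751) (nat_lit 2707) (nat_lit 1) .nil)), (nat_lit 1), (nat_lit 33), (nat_lit 40),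
 (nat_lit 1), (6, 12, 1), [69, 1585], 33⟩,
  ⟨⟨-1, -12, 9, -8, -5, -6, 8, -8, -7⟩, (.cons (nat_lit 73) (nat_lit 165) (nat_lit 43) (nat_lit 1) (.cons
 (nat_lit 5040) (nat_lit 4002) (nat_lit 2893) (nat_lit 1) .nil)), (nat_lit 42), (nat_lit 10), (nat_lit 40),
 (nat_lit 1), (8, 12, 1), [76, 2947], 33⟩,
  ⟨⟨-1, -12, 9, 8, 5, 6, 8, -8, -7⟩, (.cons (nat_lit 110) (nat_lit 4) (nat_lit 124) (nat_lit 1) (.cons (nat_lit 1710) (nat_lit 1539) (nat_lit 4531) (nat_lit 1) .nil)), (nat_lit 23), (nat_lit 21), (nat_lit 30), (nat_lit 1), (8, 1, 1), [48, 2389], 22⟩,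
  ⟨⟨9, 4, -16, 8, 5, 6, 8, -8, -7⟩, (.cons (nat_lit 140) (nat_lit 22) (nat_lit 141) (nat_lit 1) (.cons (nat_lit 945) (nat_lit 1332) (nat_lit 3509) (nat_lit 1) .nil)), (nat_lit 20), (nat_lit 22), (nat_lit 30), (nat_lit 1), (6, 1, 1), [80, 4573], 22⟩,
  ⟨⟨9, 4, -16, 8, 5, 6, 8, -8, -7⟩, (.cons (nat_lit 140) (nat_lit 22) (nat_lit 141) (nat_lit 1) (.cons (nat_lit 945) (nat_lit 1332) (nat_lit 3509) (nat_lit 1) .nil)), (nat_lit 20), (nat_lit 22), (nat_lit 30), (nat_lit 1), (6, 1, 1), [80, 4573], 22⟩,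
  ⟨⟨-1, -12, 9, -8, -5, -6, 8, -8, -7⟩, (.cons (nat_lit 73) (nat_lit 165) (nat_lit 43) (nat_lit 1) (.cons
 (nat_lit 5040) (nat_lit 4002) (nat_lit 2893) (nat_lit 1) .nil)), (nat_lit 42), (nat_lit 10), (nat_lit 40),
 (nat_lit 1), (8, 12, 1), [76, 2947], 33⟩,
  ⟨⟨-1, -12, 9, -8, -5, -6, 8, -8, -7⟩, (.cons (nat_lit 73) (nat_lit 165) (nat_lit 43) (nat_lit 1) (.cons
 (nat_lit 5040) (nat_lit 4002) (nat_lit 2893) (nat_lit 1) .nil)), (nat_lit 42), (nat_lit 10), (nat_lit 40),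
 (nat_lit 1), (8, 12, 1), [76, 2947], 33⟩,
  ⟨⟨-1, -12, 9, -8, -5, -6, 8, -8, -7⟩, (.cons (nat_lit 73) (nat_lit 165) (nat_lit 43) (nat_lit 1) (.cons
 (nat_lit 5040) (nat_lit 4002) (nat_lit 2893) (nat_lit 1) .nil)), (nat_lit 42), (nat_lit 10), (nat_lit 40),
 (nat_lit 1), (8, 12, 1), [76, 2947], 33⟩,
  ⟨⟨-1, -12, 9, 8, 5, 6, 8, -8, -7⟩, (.cons (nat_lit 110) (nat_lit 4) (nat_lit 124) (nat_lit 1) (.cons (nat_lit 1710) (nat_lit 1539) (nat_lit 4531) (nat_lit 1) .nil)), (nat_lit 23), (nat_lit 21), (nat_lit 30), (nat_lit 1), (8, 1, 1), [48, 2389], 22⟩,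
  ⟨⟨-1, -12, 9, -8, -5, -6, 8, -8, -7⟩, (.cons (nat_lit 73) (nat_lit 165) (nat_lit 43) (nat_lit 1) (.cons
 (nat_lit 5040) (nat_lit 4002) (nat_lit 2893) (nat_lit 1) .nil)), (nat_lit 42), (nat_lit 10), (nat_lit 40),
 (nat_lit 1), (8, 12, 1), [76, 2947], 33⟩,
  ⟨⟨-1, -12, 9, -8, -5, -6, 8, -8, -7⟩, (.cons (nat_lit 73) (nat_lit 165) (nat_lit 43) (nat_lit 1) (.cons
 (nat_lit 5040) (nat_lit 4002) (nat_lit 2893) (nat_lit 1) .nil)), (nat_lit 42), (nat_lit 10), (nat_lit 40),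
 (nat_lit 1), (8, 12, 1), [76, 2947], 33⟩]

/-- Moves. -/
noncomputable def t0_4 : List Mv := [
  ⟨⟨5, 12, -9, -12, 5, 6, 0, 0, -13⟩, (.cons (nat_lit 6) (nat_lit 106) (nat_lit 70) (nat_lit 1) (.cons (nat_lit 1989) (nat_lit 2633) (nat_lit 2884) (nat_lit 1) .nil)), (nat_lit 1), (nat_lit 35), (nat_lit 7), (nat_lit 1), (12, 5, 0), [147, 2922], 33⟩,
  ⟨⟨-5, -12, -4, -12, 5, 6, 0, 0, -13⟩, (.cons (nat_lit 62) (nat_lit 10) (nat_lit 61) (nat_lit 1) (.cons (nat_lit 5040) (nat_lit 4688) (nat_lit 3914) (nat_lit 1) .nil)), (nat_lit 42), (nat_lit 8), (nat_lit 7), (nat_lit 1), (1, 5, 0), [128, 250], 33⟩,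
  ⟨⟨-5, -12, -4, -12, 5, 6, 0, 0, -13⟩, (.cons (nat_lit 62) (nat_lit 10) (nat_lit 61) (nat_lit 1) (.cons (nat_lit 5040) (nat_lit 4688) (nat_lit 3914) (nat_lit 1) .nil)), (nat_lit 42), (nat_lit 8), (nat_lit 7), (nat_lit 1), (1, 5, 0), [128, 250], 33⟩,
  ⟨⟨-5, -12, -4, 12, -5, -6, 0, 0, -13⟩, (.cons (nat_lit 53) (nat_lit 73) (nat_lit 107) (nat_lit 1) (.cons
 (nat_lit 1918) (nat_lit 1725) (nat_lit 2213) (nat_lit 1) .nil)), (nat_lit 1), (nat_lit 37), (nat_lit 16),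
 (nat_lit 1), (1, 8, 0), [153, 3192], 29⟩,
  ⟨⟨5, 12, -9, 12, -5, -6, 0, 0, -13⟩, (.cons (nat_lit 134) (nat_lit 90) (nat_lit 79) (nat_lit 1) (.cons
 (nat_lit 5040) (nat_lit 1980) (nat_lit 319) (nat_lit 1) .nil)), (nat_lit 42), (nat_lit 6), (nat_lit 16),
 (nat_lit 1), (12, 8, 0), [122, 716], 29⟩,
  ⟨⟨5, 12, -9, 12, -5, -6, 0, 0, -13⟩, (.cons (nat_lit 134) (nat_lit 90) (nat_lit 79) (nat_lit 1) (.cons
 (nat_lit 5040) (nat_lit 1980) (nat_lit 319) (nat_lit 1) .nil)), (nat_lit 42), (nat_lit 6), (nat_lit 16),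
 (nat_lit 1), (12, 8, 0), [122, 716], 29⟩,
  ⟨⟨5, 12, -9, -12, 5, 6, 0, 0, -13⟩, (.cons (nat_lit 6) (nat_lit 106) (nat_lit 70) (nat_lit 1) (.cons (nat_lit 1989) (nat_lit 2633) (nat_lit 2884) (nat_lit 1) .nil)), (nat_lit 1), (nat_lit 35), (nat_lit 7), (nat_lit 1), (12, 5, 0), [147, 2922], 33⟩,
  ⟨⟨5, 12, -9, 12, -5, -6, 0, 0, -13⟩, (.cons (nat_lit 134) (nat_lit 90) (nat_lit 79) (nat_lit 1) (.cons
 (nat_lit 5040) (nat_lit 1980) (nat_lit 319) (nat_lit 1) .nil)), (nat_lit 42), (nat_lit 6), (nat_lit 16),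
 (nat_lit 1), (12, 8, 0), [122, 716], 29⟩,
  ⟨⟨5, 12, -9, 12, -5, -6, 0, 0, -13⟩, (.cons (nat_lit 134) (nat_lit 90) (nat_lit 79) (nat_lit 1) (.cons
 (nat_lit 5040) (nat_lit 1980) (nat_lit 319) (nat_lit 1) .nil)), (nat_lit 42), (nat_lit 6), (nat_lit 16),
 (nat_lit 1), (12, 8, 0), [122, 716], 29⟩,
  ⟨⟨-5, -12, -4, 12, -5, -6, 0, 0, -13⟩, (.cons (nat_lit 53) (nat_lit 73) (nat_lit 107) (nat_lit 1) (.cons
 (nat_lit 1918) (nat_lit 1725) (nat_lit 2213) (nat_lit 1) .nil)), (nat_lit 1), (nat_lit 37), (nat_lit 16),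
 (nat_lit 1), (1, 8, 0), [153, 3192], 29⟩,
  ⟨⟨5, 12, -9, 12, -5, -6, 0, 0, -13⟩, (.cons (nat_lit 134) (nat_lit 90) (nat_lit 79) (nat_lit 1) (.cons
 (nat_lit 5040) (nat_lit 1980) (nat_lit 319) (nat_lit 1) .nil)), (nat_lit 42), (nat_lit 6), (nat_lit 16),
 (nat_lit 1), (12, 8, 0), [122, 716], 29⟩,
  ⟨⟨5, 12, -9, -12, 5, 6, 0, 0, -13⟩, (.cons (nat_lit 6) (nat_lit 106) (nat_lit 70) (nat_lit 1) (.cons (nat_lit 1989) (nat_lit 2633) (nat_lit 2884) (nat_lit 1) .nil)), (nat_lit 1), (nat_lit 35), (nat_lit 7), (nat_lit 1), (12, 5, 0), [147, 2922], 33⟩,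
  ⟨⟨5, 12, -9, 12, -5, -6, 0, 0, -13⟩, (.cons (nat_lit 134) (nat_lit 90) (nat_lit 79) (nat_lit 1) (.cons
 (nat_lit 5040) (nat_lit 1980) (nat_lit 319) (nat_lit 1) .nil)), (nat_lit 42), (nat_lit 6), (nat_lit 16),
 (nat_lit 1), (12, 8, 0), [122, 716], 29⟩]

/-- Moves. -/
noncomputable def t0_5 : List Mv := [
  ⟨⟨9, 8, -13, 10, -7, 0, 2, -4, -13⟩, (.cons (nat_lit 5) (nat_lit 147) (nat_lit 95) (nat_lit 1) (.cons (nat_lit 1049) (nat_lit 590) (nat_lit 1022) (nat_lit 1) .nil)), (nat_lit 24), (nat_lit 2), (nat_lit 34), (nat_lit 1), (2, 8, 12), [67, 3570], 30⟩,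
  ⟨⟨9, 8, -13, -10, 7, 0, 2, -4, -13⟩, (.cons (nat_lit 2) (nat_lit 9) (nat_lit 100) (nat_lit 1) (.cons (nat_lit 4735) (nat_lit 1277) (nat_lit 361) (nat_lit 1) .nil)), (nat_lit 1), (nat_lit 19), (nat_lit 12), (nat_lit 1), (2, 5, 12), [53, 3190], 27⟩,
  ⟨⟨9, 8, -13, -10, 7, 0, 2, -4, -13⟩, (.cons (nat_lit 2) (nat_lit 9) (nat_lit 100) (nat_lit 1) (.cons (nat_lit 4735) (nat_lit 1277) (nat_lit 361) (nat_lit 1) .nil)), (nat_lit 1), (nat_lit 19), (nat_lit 12), (nat_lit 1), (2, 5, 12), [53, 3190], 27⟩,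
  ⟨⟨9, 8, -13, -10, 7, 0, 2, -4, -13⟩, (.cons (nat_lit 2) (nat_lit 9) (nat_lit 100) (nat_lit 1) (.cons (nat_lit 4735) (nat_lit 1277) (nat_lit 361) (nat_lit 1) .nil)), (nat_lit 1), (nat_lit 19), (nat_lit 12), (nat_lit 1), (2, 5, 12), [53, 3190], 27⟩,
  ⟨⟨-7, -12, 0, 10, -7, 0, 2, -4, -13⟩, (.cons (nat_lit 159) (nat_lit 9) (nat_lit 162) (nat_lit 1) (.cons
 (nat_lit 4427) (nat_lit 3779) (nat_lit 1939) (nat_lit 1) .nil)), (nat_lit 19), (nat_lit 41), (nat_lit 34),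
 (nat_lit 1), (10, 8, 12), [116, 417], 30⟩,
  ⟨⟨9, 8, -13, 10, -7, 0, 2, -4, -13⟩, (.cons (nat_lit 5) (nat_lit 147) (nat_lit 95) (nat_lit 1) (.cons (nat_lit 1049) (nat_lit 590) (nat_lit 1022) (nat_lit 1) .nil)), (nat_lit 24), (nat_lit 2), (nat_lit 34), (nat_lit 1), (2, 8, 12), [67, 3570], 30⟩,
  ⟨⟨9, 8, -13, 10, -7, 0, 2, -4, -13⟩, (.cons (nat_lit 5) (nat_lit 147) (nat_lit 95) (nat_lit 1) (.cons (nat_lit 1049) (nat_lit 590) (nat_lit 1022) (nat_lit 1) .nil)), (nat_lit 24), (nat_lit 2), (nat_lit 34), (nat_lit 1), (2, 8, 12), [67, 3570], 30⟩,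
  ⟨⟨9, 8, -13, -10, 7, 0, 2, -4, -13⟩, (.cons (nat_lit 2) (nat_lit 9) (nat_lit 100) (nat_lit 1) (.cons (nat_lit 4735) (nat_lit 1277) (nat_lit 361) (nat_lit 1) .nil)), (nat_lit 1), (nat_lit 19), (nat_lit 12), (nat_lit 1), (2, 5, 12), [53, 3190], 27⟩,
  ⟨⟨-7, -12, 0, 10, -7, 0, 2, -4, -13⟩, (.cons (nat_lit 159) (nat_lit 9) (nat_lit 162) (nat_lit 1) (.cons
 (nat_lit 4427) (nat_lit 3779) (nat_lit 1939) (nat_lit 1) .nil)), (nat_lit 19), (nat_lit 41), (nat_lit 34),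
 (nat_lit 1), (10, 8, 12), [116, 417], 30⟩,
  ⟨⟨-7, -12, 0, -10, 7, 0, 2, -4, -13⟩, (.cons (nat_lit 146) (nat_lit 147) (nat_lit 167) (nat_lit 1) (.cons
 (nat_lit 5040) (nat_lit 1458) (nat_lit 535) (nat_lit 1) .nil)), (nat_lit 42), (nat_lit 24), (nat_lit 12),
 (nat_lit 1), (10, 5, 12), [102, 2089], 27⟩,
  ⟨⟨9, 8, -13, -10, 7, 0, 2, -4, -13⟩, (.cons (nat_lit 2) (nat_lit 9) (nat_lit 100) (nat_lit 1) (.cons (nat_lit 4735) (nat_lit 1277) (nat_lit 361) (nat_lit 1) .nil)), (nat_lit 1), (nat_lit 19), (nat_lit 12), (nat_lit 1), (2, 5, 12), [53, 3190], 27⟩,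
  ⟨⟨9, 8, -13, -10, 7, 0, 2, -4, -13⟩, (.cons (nat_lit 2) (nat_lit 9) (nat_lit 100) (nat_lit 1) (.cons (nat_lit 4735) (nat_lit 1277) (nat_lit 361) (nat_lit 1) .nil)), (nat_lit 1), (nat_lit 19), (nat_lit 12), (nat_lit 1), (2, 5, 12), [53, 3190], 27⟩,
  ⟨⟨9, 8, -13, -10, 7, 0, 2, -4, -13⟩, (.cons (nat_lit 2) (nat_lit 9) (nat_lit 100) (nat_lit 1) (.cons (nat_lit 4735) (nat_lit 1277) (nat_lit 361) (nat_lit 1) .nil)), (nat_lit 1), (nat_lit 19), (nat_lit 12), (nat_lit 1), (2, 5, 12), [53, 3190], 27⟩]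

/-- Moves. -/
noncomputable def t1_2 : List Mv := [
  mz,
  ⟨⟨-75, 20, 43, -10, -21, -70, -12, 60, -13⟩, (.cons (nat_lit 69) (nat_lit 162) (nat_lit 167) (nat_lit 1)
 (.cons (nat_lit 2183) (nat_lit 3088) (nat_lit 4696) (nat_lit 1) .nil)), (nat_lit 21), (nat_lit 25), (nat_lit
 38), (nat_lit 1), (51, 21, 11), [151, 1149], 40⟩,
  mz,
  ⟨⟨65, -24, -72, -4, 55, -48, -10, -40, -49⟩, (.cons (nat_lit 168) (nat_lit 126) (nat_lit 31) (nat_lit 1)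
 (.cons (nat_lit 1440) (nat_lit 3833) (nat_lit 2184) (nat_lit 1) .nil)), (nat_lit 42), (nat_lit 11), (nat_lit
 5), (nat_lit 1), (37, 1, 38), [68, 1772], 20⟩,
  ⟨⟨27, 68, 16, 64, -15, -62, -6, 48, -43⟩, (.cons (nat_lit 67) (nat_lit 126) (nat_lit 117) (nat_lit 1) (.cons
 (nat_lit 4658) (nat_lit 1186) (nat_lit 3642) (nat_lit 1) .nil)), (nat_lit 29), (nat_lit 5), (nat_lit 26),
 (nat_lit 1), (60, 16, 34), [129, 342], 10⟩,
  ⟨⟨27, -68, 16, -64, -15, 62, -6, -48, -43⟩, (.cons (nat_lit 96) (nat_lit 90) (nat_lit 16) (nat_lit 1) (.cons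
 (nat_lit 3952) (nat_lit 3498) (nat_lit 4017) (nat_lit 1) .nil)), (nat_lit 3), (nat_lit 40), (nat_lit 40),
 (nat_lit 1), (7, 36, 30), [61, 1753], 4⟩,
  mz,
  ⟨⟨-9, -56, -55, 56, 25, -68, -38, 16, -35⟩, (.cons (nat_lit 127) (nat_lit 163) (nat_lit 3) (nat_lit 1) (.cons
 (nat_lit 4702) (nat_lit 4382) (nat_lit 3443) (nat_lit 1) .nil)), (nat_lit 35), (nat_lit 36), (nat_lit 1),
 (nat_lit 1), (69, 44, 31), [14, 4893], 28⟩,
  ⟨⟨3, 40, -76, -64, -25, 12, 26, -32, -67⟩, (.cons (nat_lit 160) (nat_lit 158) (nat_lit 1) (nat_lit 39) (.cons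
 (nat_lit 2626) (nat_lit 27) (nat_lit 185) (nat_lit 1) .nil)), (nat_lit 30), (nat_lit 18), (nat_lit 6),
 (nat_lit 1), (14, 9, 3), [142, 2369], 34⟩,
  mz,
  mz,
  ⟨⟨33, -20, -92, 64, 15, -2, 6, 48, -49⟩, (.cons (nat_lit 59) (nat_lit 5) (nat_lit 113) (nat_lit 1) (.cons
 (nat_lit 3059) (nat_lit 1467) (nat_lit 959) (nat_lit 1) .nil)), (nat_lit 17), (nat_lit 1), (nat_lit 20),
 (nat_lit 1), (67, 3, 38), [98, 2396], 41⟩,
  ⟨⟨9, 76, -20, -44, 15, 82, -42, 24, -25⟩, (.cons (nat_lit 106) (nat_lit 146) (nat_lit 21) (nat_lit 1) (.cons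
 (nat_lit 381) (nat_lit 2442) (nat_lit 1190) (nat_lit 1) .nil)), (nat_lit 38), (nat_lit 5), (nat_lit 14),
 (nat_lit 1), (31, 22, 21), [93, 1983], 36⟩,
  mz,
  mz,
  ⟨⟨-9, 76, -11, -44, -15, -38, 42, 24, -67⟩, (.cons (nat_lit 105) (nat_lit 90) (nat_lit 133) (nat_lit 1)
 (.cons (nat_lit 2322) (nat_lit 2751) (nat_lit 2508) (nat_lit 1) .nil)), (nat_lit 14), (nat_lit 42), (nat_lit
 1), (nat_lit 1), (25, 67, 49), [119, 1098], 10⟩,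
  ⟨⟨17, 24, -89, 36, 55, 12, 54, -24, -53⟩, (.cons (nat_lit 167) (nat_lit 157) (nat_lit 160) (nat_lit 1) (.cons
 (nat_lit 3133) (nat_lit 4721) (nat_lit 2760) (nat_lit 1) .nil)), (nat_lit 35), (nat_lit 32), (nat_lit 28),
 (nat_lit 1), (7, 19, 64), [133, 4158], 15⟩,
  mz,
  ⟨⟨9, 56, -64, -56, -25, -12, 38, -16, -73⟩, (.cons (nat_lit 86) (nat_lit 142) (nat_lit 120) (nat_lit 1)
 (.cons (nat_lit 3600) (nat_lit 115) (nat_lit 2053) (nat_lit 1) .nil)), (nat_lit 33), (nat_lit 35), (nat_lit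
 26), (nat_lit 1), (56, 46, 55), [116, 609], 3⟩,
  ⟨⟨39, 40, -80, -44, 55, 32, -22, -8, -55⟩, (.cons (nat_lit 166) (nat_lit 161) (nat_lit 152) (nat_lit 1)
 (.cons (nat_lit 3096) (nat_lit 1564) (nat_lit 3237) (nat_lit 1) .nil)), (nat_lit 6), (nat_lit 6), (nat_lit
 27), (nat_lit 1), (28, 3, 37), [67, 3449], 25⟩,
  mz,
  mz,
  ⟨⟨37, 48, -73, 36, -55, -48, 54, 24, -1⟩, (.cons (nat_lit 59) (nat_lit 110) (nat_lit 50) (nat_lit 1) (.cons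
 (nat_lit 1931) (nat_lit 544) (nat_lit 1028) (nat_lit 1) .nil)), (nat_lit 35), (nat_lit 11), (nat_lit 15),
 (nat_lit 1), (15, 5, 43), [146, 2791], 28⟩,
  ⟨⟨39, -40, -80, 44, 55, -32, -22, 8, -55⟩, (.cons (nat_lit 56) (nat_lit 110) (nat_lit 107) (nat_lit 1) (.cons
 (nat_lit 2564) (nat_lit 1734) (nat_lit 3102) (nat_lit 1) .nil)), (nat_lit 36), (nat_lit 42), (nat_lit 17),
 (nat_lit 1), (1, 43, 14), [45, 2598], 21⟩,
  ⟨⟨-39, 40, -41, 44, 55, -12, 22, -8, -77⟩, (.cons (nat_lit 118) (nat_lit 21) (nat_lit 110) (nat_lit 1) (.cons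
 (nat_lit 2593) (nat_lit 4782) (nat_lit 1471) (nat_lit 1) .nil)), (nat_lit 37), (nat_lit 6), (nat_lit 16),
 (nat_lit 1), (2, 56, 28), [17, 466], 25⟩,
  mz,
  ⟨⟨51, -4, 40, 10, -69, -20, 60, 12, -49⟩, (.cons (nat_lit 30) (nat_lit 80) (nat_lit 19) (nat_lit 1) (.cons
 (nat_lit 4832) (nat_lit 4434) (nat_lit 3130) (nat_lit 1) .nil)), (nat_lit 32), (nat_lit 33), (nat_lit 41),
 (nat_lit 1), (60, 41, 33), [4, 4285], 35⟩,
  mz,
  mz,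
  ⟨⟨-13, -72, 36, 70, -11, -30, -4, -44, -49⟩, (.cons (nat_lit 141) (nat_lit 101) (nat_lit 150) (nat_lit 1)
 (.cons (nat_lit 1837) (nat_lit 1195) (nat_lit 1) (nat_lit 3195) .nil)), (nat_lit 38), (nat_lit 31), (nat_lit
 17), (nat_lit 1), (29, 35, 69), [94, 4745], 18⟩,
  mz,
  ⟨⟨-11, 72, -25, 50, -11, -80, -44, 4, -29⟩, (.cons (nat_lit 71) (nat_lit 1) (nat_lit 55) (nat_lit 1) (.cons
 (nat_lit 1101) (nat_lit 3638) (nat_lit 3681) (nat_lit 1) .nil)), (nat_lit 26), (nat_lit 32), (nat_lit 31),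
 (nat_lit 1), (44, 13, 34), [122, 3560], 42⟩,
  mz,
  ⟨⟨-29, -72, 20, -56, 25, 68, -38, -16, -35⟩, (.cons (nat_lit 123) (nat_lit 102) (nat_lit 158) (nat_lit 1)
 (.cons (nat_lit 3447) (nat_lit 1332) (nat_lit 3344) (nat_lit 1) .nil)), (nat_lit 27), (nat_lit 37), (nat_lit
 31), (nat_lit 1), (27, 35, 6), [8, 442], 30⟩,
  ⟨⟨75, 20, -32, 10, -21, -80, 12, 60, -25⟩, (.cons (nat_lit 32) (nat_lit 120) (nat_lit 72) (nat_lit 1) (.cons
 (nat_lit 3179) (nat_lit 4361) (nat_lit 427) (nat_lit 1) .nil)), (nat_lit 22), (nat_lit 25), (nat_lit 5),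
 (nat_lit 1), (30, 4, 19), [105, 1161], 40⟩,
  mz,
  ⟨⟨3, -40, -76, -64, 25, 12, 26, 32, -67⟩, (.cons (nat_lit 11) (nat_lit 61) (nat_lit 121) (nat_lit 1) (.cons
 (nat_lit 4667) (nat_lit 156) (nat_lit 1811) (nat_lit 1) .nil)), (nat_lit 8), (nat_lit 5), (nat_lit 10),
 (nat_lit 1), (58, 17, 53), [123, 4447], 28⟩,
  mz,
  ⟨⟨17, -24, -89, -36, 55, -12, 54, 24, -53⟩, (.cons (nat_lit 106) (nat_lit 1) (nat_lit 108) (nat_lit 1) (.cons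
 (nat_lit 4185) (nat_lit 5006) (nat_lit 4447) (nat_lit 1) .nil)), (nat_lit 16), (nat_lit 39), (nat_lit 18),
 (nat_lit 1), (5, 27, 66), [27, 3559], 13⟩,
  ⟨⟨-3, 40, -73, -64, 25, 52, -26, -32, -41⟩, (.cons (nat_lit 4) (nat_lit 24) (nat_lit 157) (nat_lit 1) (.cons
 (nat_lit 793) (nat_lit 2177) (nat_lit 4708) (nat_lit 1) .nil)), (nat_lit 16), (nat_lit 26), (nat_lit 27),
 (nat_lit 1), (12, 43, 33), [55, 170], 30⟩,
  mz,
  mz,
  ⟨⟨-65, 24, -7, -4, 55, 52, 10, 40, -59⟩, (.cons (nat_lit 121) (nat_lit 59) (nat_lit 118) (nat_lit 1) (.cons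
 (nat_lit 4971) (nat_lit 535) (nat_lit 2015) (nat_lit 1) .nil)), (nat_lit 1), (nat_lit 25), (nat_lit 15),
 (nat_lit 1), (43, 66, 48), [164, 679], 20⟩,
  ⟨⟨11, -72, -36, -50, 11, -30, 44, -4, -73⟩, (.cons (nat_lit 94) (nat_lit 54) (nat_lit 68) (nat_lit 1) (.cons
 (nat_lit 4386) (nat_lit 3651) (nat_lit 2553) (nat_lit 1) .nil)), (nat_lit 31), (nat_lit 5), (nat_lit 5),
 (nat_lit 1), (69, 22, 63), [138, 4192], 39⟩,
  ⟨⟨-39, -40, -41, -44, 55, 12, 22, 8, -77⟩, (.cons (nat_lit 122) (nat_lit 22) (nat_lit 140) (nat_lit 1) (.cons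
 (nat_lit 2834) (nat_lit 3656) (nat_lit 762) (nat_lit 1) .nil)), (nat_lit 7), (nat_lit 42), (nat_lit 26),
 (nat_lit 1), (46, 61, 5), [49, 4635], 21⟩,
  mz,
  ⟨⟨51, 52, -56, -44, 15, -38, 42, -24, -67⟩, (.cons (nat_lit 163) (nat_lit 129) (nat_lit 98) (nat_lit 1)
 (.cons (nat_lit 41) (nat_lit 2210) (nat_lit 3118) (nat_lit 1) .nil)), (nat_lit 17), (nat_lit 29), (nat_lit
 17), (nat_lit 1), (52, 15, 47), [111, 4733], 41⟩,
  ⟨⟨9, -16, 80, 10, 69, 10, 60, -12, -11⟩, (.cons (nat_lit 134) (nat_lit 125) (nat_lit 60) (nat_lit 1) (.cons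
 (nat_lit 1300) (nat_lit 2298) (nat_lit 2964) (nat_lit 1) .nil)), (nat_lit 32), (nat_lit 10), (nat_lit 2),
 (nat_lit 1), (33, 13, 7), [100, 4622], 8⟩,
  ⟨⟨51, 4, 40, 10, 69, -20, 60, -12, -49⟩, (.cons (nat_lit 168) (nat_lit 11) (nat_lit 40) (nat_lit 1) (.cons
 (nat_lit 3825) (nat_lit 712) (nat_lit 4282) (nat_lit 1) .nil)), (nat_lit 42), (nat_lit 27), (nat_lit 13),
 (nat_lit 1), (13, 29, 32), [46, 195], 9⟩,
  ⟨⟨29, 72, -9, 56, -25, 12, 38, 16, -73⟩, (.cons (nat_lit 82) (nat_lit 146) (nat_lit 89) (nat_lit 1) (.cons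
 (nat_lit 4249) (nat_lit 3528) (nat_lit 688) (nat_lit 1) .nil)), (nat_lit 13), (nat_lit 30), (nat_lit 5),
 (nat_lit 1), (5, 17, 9), [73, 1706], 34⟩,
  ⟨⟨65, 24, -72, -4, -55, -48, -10, 40, -49⟩, (.cons (nat_lit 45) (nat_lit 28) (nat_lit 141) (nat_lit 1) (.cons
 (nat_lit 533) (nat_lit 4828) (nat_lit 4201) (nat_lit 1) .nil)), (nat_lit 3), (nat_lit 17), (nat_lit 12),
 (nat_lit 1), (39, 26, 65), [47, 3089], 5⟩,
  ⟨⟨-51, 52, -5, 44, 15, -82, -42, -24, -25⟩, (.cons (nat_lit 114) (nat_lit 43) (nat_lit 128) (nat_lit 1)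
 (.cons (nat_lit 4322) (nat_lit 2780) (nat_lit 4741) (nat_lit 1) .nil)), (nat_lit 26), (nat_lit 29), (nat_lit
 26), (nat_lit 1), (18, 68, 19), [95, 1516], 41⟩,
  mz,
  ⟨⟨13, -72, 23, 70, 11, -40, 4, -44, -53⟩, (.cons (nat_lit 145) (nat_lit 123) (nat_lit 1) (nat_lit 91) (.cons
 (nat_lit 4841) (nat_lit 1750) (nat_lit 2908) (nat_lit 1) .nil)), (nat_lit 18), (nat_lit 4), (nat_lit 39),
 (nat_lit 1), (14, 59, 48), [36, 2831], 37⟩,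
  ⟨⟨9, 16, 80, 10, -69, 10, 60, 12, -11⟩, (.cons (nat_lit 168) (nat_lit 162) (nat_lit 22) (nat_lit 1) (.cons
 (nat_lit 54) (nat_lit 3878) (nat_lit 1) (nat_lit 1349) .nil)), (nat_lit 42), (nat_lit 16), (nat_lit 30),
 (nat_lit 1), (58, 25, 8), [47, 3435], 34⟩,
  ⟨⟨75, -20, -32, -10, -21, 80, 12, -60, -25⟩, (.cons (nat_lit 37) (nat_lit 123) (nat_lit 40) (nat_lit 1)
 (.cons (nat_lit 3993) (nat_lit 2116) (nat_lit 1527) (nat_lit 1) .nil)), (nat_lit 2), (nat_lit 36), (nat_lit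
 33), (nat_lit 1), (52, 12, 14), [95, 4142], 31⟩,
  mz,
  ⟨⟨-11, -72, -25, -50, -11, 80, -44, -4, -29⟩, (.cons (nat_lit 2) (nat_lit 97) (nat_lit 147) (nat_lit 1)
 (.cons (nat_lit 264) (nat_lit 1690) (nat_lit 3563) (nat_lit 1) .nil)), (nat_lit 5), (nat_lit 42), (nat_lit
 11), (nat_lit 1), (38, 63, 10), [63, 2789], 18⟩,
  ⟨⟨-75, -20, 43, -10, 21, -70, -12, -60, -13⟩, (.cons (nat_lit 80) (nat_lit 168) (nat_lit 148) (nat_lit 1)
 (.cons (nat_lit 2500) (nat_lit 553) (nat_lit 252) (nat_lit 1) .nil)), (nat_lit 1), (nat_lit 13), (nat_lit 31),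
 (nat_lit 1), (2, 5, 6), [133, 4292], 10⟩,
  mz,
  mz,
  mz,
  ⟨⟨11, 72, -36, 50, 11, 30, 44, 4, -73⟩, (.cons (nat_lit 150) (nat_lit 137) (nat_lit 64) (nat_lit 1) (.cons
 (nat_lit 4497) (nat_lit 1862) (nat_lit 1092) (nat_lit 1) .nil)), (nat_lit 25), (nat_lit 20), (nat_lit 18),
 (nat_lit 1), (4, 44, 16), [71, 2716], 37⟩,
  mz,
  ⟨⟨9, -28, -85, -70, -11, 30, -4, 44, -49⟩, (.cons (nat_lit 85) (nat_lit 36) (nat_lit 11) (nat_lit 1) (.cons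
 (nat_lit 4104) (nat_lit 2394) (nat_lit 3977) (nat_lit 1) .nil)), (nat_lit 26), (nat_lit 26), (nat_lit 15),
 (nat_lit 1), (14, 41, 49), [58, 574], 42⟩,
  ⟨⟨75, -16, -52, 4, 55, -52, 10, -40, -59⟩, (.cons (nat_lit 168) (nat_lit 80) (nat_lit 22) (nat_lit 1) (.cons
 (nat_lit 321) (nat_lit 2803) (nat_lit 1402) (nat_lit 1) .nil)), (nat_lit 42), (nat_lit 32), (nat_lit 38),
 (nat_lit 1), (51, 51, 21), [140, 2546], 20⟩,
  mz,
  ⟨⟨-27, -68, 43, 64, -15, -2, 6, -48, -49⟩, (.cons (nat_lit 66) (nat_lit 144) (nat_lit 10) (nat_lit 1) (.cons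
 (nat_lit 4695) (nat_lit 3393) (nat_lit 4644) (nat_lit 1) .nil)), (nat_lit 40), (nat_lit 40), (nat_lit 3),
 (nat_lit 1), (60, 55, 34), [41, 4313], 4⟩,
  ⟨⟨13, 72, 23, -70, 11, 40, 4, 44, -53⟩, (.cons (nat_lit 24) (nat_lit 74) (nat_lit 44) (nat_lit 1) (.cons
 (nat_lit 137) (nat_lit 1283) (nat_lit 2738) (nat_lit 1) .nil)), (nat_lit 12), (nat_lit 25), (nat_lit 42),
 (nat_lit 1), (20, 7, 28), [139, 4181], 39⟩,
  ⟨⟨-23, 72, 32, 64, 25, -52, -26, 32, -41⟩, (.cons (nat_lit 2) (nat_lit 74) (nat_lit 135) (nat_lit 1) (.cons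
 (nat_lit 4155) (nat_lit 2570) (nat_lit 4905) (nat_lit 1) .nil)), (nat_lit 8), (nat_lit 38), (nat_lit 33),
 (nat_lit 1), (27, 36, 12), [145, 805], 28⟩,
  ⟨⟨17, 24, 72, -36, -55, 48, 54, -24, -1⟩, (.cons (nat_lit 3) (nat_lit 128) (nat_lit 143) (nat_lit 1) (.cons
 (nat_lit 844) (nat_lit 216) (nat_lit 2930) (nat_lit 1) .nil)), (nat_lit 27), (nat_lit 39), (nat_lit 25),
 (nat_lit 1), (30, 20, 41), [70, 3130], 30⟩]

/-- Moves. -/
noncomputable def t1_4 : List Mv := [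
  mz,
  ⟨⟨63, 40, -56, 10, 21, 70, -12, 60, -13⟩, (.cons (nat_lit 168) (nat_lit 20) (nat_lit 57) (nat_lit 1) (.cons
 (nat_lit 4580) (nat_lit 4789) (nat_lit 4651) (nat_lit 1) .nil)), (nat_lit 42), (nat_lit 26), (nat_lit 6),
 (nat_lit 1), (31, 50, 11), [60, 2962], 10⟩,
  mz,
  ⟨⟨65, -24, -72, 4, -55, 48, -10, -40, -49⟩, (.cons (nat_lit 154) (nat_lit 82) (nat_lit 87) (nat_lit 1) (.cons
 (nat_lit 3683) (nat_lit 732) (nat_lit 1532) (nat_lit 1) .nil)), (nat_lit 29), (nat_lit 23), (nat_lit 39),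
 (nat_lit 1), (37, 70, 38), [97, 1361], 34⟩,
  ⟨⟨27, 68, 16, 64, -15, -62, -6, 48, -43⟩, (.cons (nat_lit 67) (nat_lit 126) (nat_lit 117) (nat_lit 1) (.cons
 (nat_lit 4658) (nat_lit 1186) (nat_lit 3642) (nat_lit 1) .nil)), (nat_lit 29), (nat_lit 5), (nat_lit 26),
 (nat_lit 1), (60, 16, 34), [129, 342], 10⟩,
  ⟨⟨27, -68, 16, 64, 15, -62, -6, -48, -43⟩, (.cons (nat_lit 28) (nat_lit 106) (nat_lit 129) (nat_lit 1) (.cons
 (nat_lit 3930) (nat_lit 94) (nat_lit 1419) (nat_lit 1) .nil)), (nat_lit 38), (nat_lit 16), (nat_lit 42),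
 (nat_lit 1), (7, 35, 30), [158, 3431], 36⟩,
  mz,
  ⟨⟨-29, 72, 20, 56, 25, -68, -38, 16, -35⟩, (.cons (nat_lit 158) (nat_lit 128) (nat_lit 101) (nat_lit 1)
 (.cons (nat_lit 4898) (nat_lit 188) (nat_lit 3186) (nat_lit 1) .nil)), (nat_lit 8), (nat_lit 7), (nat_lit 1),
 (nat_lit 1), (33, 44, 31), [15, 768], 28⟩,
  ⟨⟨23, -72, 9, 64, 25, -12, 26, -32, -67⟩, (.cons (nat_lit 138) (nat_lit 52) (nat_lit 54) (nat_lit 1) (.cons
 (nat_lit 3301) (nat_lit 620) (nat_lit 2506) (nat_lit 1) .nil)), (nat_lit 16), (nat_lit 17), (nat_lit 16),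
 (nat_lit 1), (60, 62, 3), [121, 2832], 30⟩,
  mz,
  mz,
  ⟨⟨33, -20, -92, 64, 15, -2, 6, 48, -49⟩, (.cons (nat_lit 59) (nat_lit 5) (nat_lit 113) (nat_lit 1) (.cons
 (nat_lit 3059) (nat_lit 1467) (nat_lit 959) (nat_lit 1) .nil)), (nat_lit 17), (nat_lit 1), (nat_lit 20),
 (nat_lit 1), (67, 3, 38), [98, 2396], 41⟩,
  ⟨⟨9, 76, -20, 44, -15, -82, -42, 24, -25⟩, (.cons (nat_lit 41) (nat_lit 78) (nat_lit 153) (nat_lit 1) (.cons
 (nat_lit 2203) (nat_lit 4103) (nat_lit 2733) (nat_lit 1) .nil)), (nat_lit 29), (nat_lit 42), (nat_lit 42),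
 (nat_lit 1), (31, 49, 21), [90, 4929], 10⟩,
  mz,
  mz,
  ⟨⟨51, -52, -56, -44, -15, -38, 42, 24, -67⟩, (.cons (nat_lit 125) (nat_lit 73) (nat_lit 28) (nat_lit 1)
 (.cons (nat_lit 2153) (nat_lit 1733) (nat_lit 1524) (nat_lit 1) .nil)), (nat_lit 29), (nat_lit 1), (nat_lit
 1), (nat_lit 1), (24, 67, 49), [134, 2545], 10⟩,
  ⟨⟨37, -48, 36, -36, -55, -12, 54, -24, -53⟩, (.cons (nat_lit 168) (nat_lit 42) (nat_lit 11) (nat_lit 1)
 (.cons (nat_lit 848) (nat_lit 3440) (nat_lit 2893) (nat_lit 1) .nil)), (nat_lit 42), (nat_lit 23), (nat_lit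
 32), (nat_lit 1), (57, 52, 64), [82, 4903], 4⟩,
  mz,
  ⟨⟨9, 56, -64, -56, -25, -12, 38, -16, -73⟩, (.cons (nat_lit 86) (nat_lit 142) (nat_lit 120) (nat_lit 1)
 (.cons (nat_lit 3600) (nat_lit 115) (nat_lit 2053) (nat_lit 1) .nil)), (nat_lit 33), (nat_lit 35), (nat_lit
 26), (nat_lit 1), (56, 46, 55), [116, 609], 3⟩,
  ⟨⟨-61, -48, 25, -44, 55, 32, -22, -8, -55⟩, (.cons (nat_lit 151) (nat_lit 58) (nat_lit 154) (nat_lit 1)
 (.cons (nat_lit 885) (nat_lit 3698) (nat_lit 1119) (nat_lit 1) .nil)), (nat_lit 37), (nat_lit 37), (nat_lit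
 27), (nat_lit 1), (9, 3, 37), [159, 1484], 25⟩,
  mz,
  mz,
  ⟨⟨17, -24, 72, 36, -55, -48, 54, 24, -1⟩, (.cons (nat_lit 113) (nat_lit 70) (nat_lit 65) (nat_lit 1) (.cons
 (nat_lit 808) (nat_lit 4357) (nat_lit 825) (nat_lit 1) .nil)), (nat_lit 8), (nat_lit 32), (nat_lit 15),
 (nat_lit 1), (28, 5, 43), [158, 516], 28⟩,
  ⟨⟨-61, 48, 25, 44, 55, -32, -22, 8, -55⟩, (.cons (nat_lit 53) (nat_lit 70) (nat_lit 85) (nat_lit 1) (.cons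
 (nat_lit 3039) (nat_lit 4132) (nat_lit 952) (nat_lit 1) .nil)), (nat_lit 7), (nat_lit 1), (nat_lit 17),
 (nat_lit 1), (13, 43, 14), [95, 1355], 21⟩,
  ⟨⟨-39, 40, -41, 44, 55, -12, 22, -8, -77⟩, (.cons (nat_lit 118) (nat_lit 21) (nat_lit 110) (nat_lit 1) (.cons
 (nat_lit 2593) (nat_lit 4782) (nat_lit 1471) (nat_lit 1) .nil)), (nat_lit 37), (nat_lit 6), (nat_lit 16),
 (nat_lit 1), (2, 56, 28), [17, 466], 25⟩,
  mz,
  ⟨⟨9, 16, -89, -10, 69, 20, 60, 12, -49⟩, (.cons (nat_lit 9) (nat_lit 8) (nat_lit 119) (nat_lit 1) (.cons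
 (nat_lit 2837) (nat_lit 4579) (nat_lit 1500) (nat_lit 1) .nil)), (nat_lit 1), (nat_lit 21), (nat_lit 14),
 (nat_lit 1), (44, 30, 33), [140, 179], 9⟩,
  mz,
  mz,
  ⟨⟨-13, -72, 36, 70, -11, -30, -4, -44, -49⟩, (.cons (nat_lit 141) (nat_lit 101) (nat_lit 150) (nat_lit 1)
 (.cons (nat_lit 1837) (nat_lit 1195) (nat_lit 1) (nat_lit 3195) .nil)), (nat_lit 38), (nat_lit 31), (nat_lit
 17), (nat_lit 1), (29, 35, 69), [94, 4745], 18⟩,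
  mz,
  ⟨⟨-11, 72, -25, 50, -11, -80, -44, 4, -29⟩, (.cons (nat_lit 71) (nat_lit 1) (nat_lit 55) (nat_lit 1) (.cons
 (nat_lit 1101) (nat_lit 3638) (nat_lit 3681) (nat_lit 1) .nil)), (nat_lit 26), (nat_lit 32), (nat_lit 31),
 (nat_lit 1), (44, 13, 34), [122, 3560], 42⟩,
  mz,
  ⟨⟨-29, -72, 20, 56, -25, -68, -38, -16, -35⟩, (.cons (nat_lit 52) (nat_lit 149) (nat_lit 94) (nat_lit 1)
 (.cons (nat_lit 1527) (nat_lit 1751) (nat_lit 4229) (nat_lit 1) .nil)), (nat_lit 33), (nat_lit 8), (nat_lit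
 17), (nat_lit 1), (27, 36, 6), [56, 3264], 3⟩,
  ⟨⟨75, 20, -32, -10, 21, 80, 12, 60, -25⟩, (.cons (nat_lit 168) (nat_lit 65) (nat_lit 19) (nat_lit 1) (.cons
 (nat_lit 4579) (nat_lit 1145) (nat_lit 2509) (nat_lit 1) .nil)), (nat_lit 42), (nat_lit 17), (nat_lit 37),
 (nat_lit 1), (30, 67, 19), [45, 4938], 10⟩,
  mz,
  ⟨⟨23, 72, 9, -64, 25, 12, 26, 32, -67⟩, (.cons (nat_lit 114) (nat_lit 82) (nat_lit 158) (nat_lit 1) (.cons
 (nat_lit 1928) (nat_lit 4361) (nat_lit 4091) (nat_lit 1) .nil)), (nat_lit 35), (nat_lit 38), (nat_lit 10),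
 (nat_lit 1), (66, 17, 53), [27, 3865], 28⟩,
  mz,
  ⟨⟨17, -24, -89, 36, -55, 12, 54, 24, -53⟩, (.cons (nat_lit 96) (nat_lit 14) (nat_lit 1) (nat_lit 117) (.cons
 (nat_lit 2704) (nat_lit 2777) (nat_lit 491) (nat_lit 1) .nil)), (nat_lit 1), (nat_lit 12), (nat_lit 39),
 (nat_lit 1), (5, 44, 66), [19, 4774], 4⟩,
  ⟨⟨-23, -72, 32, 64, -25, -52, -26, -32, -41⟩, (.cons (nat_lit 57) (nat_lit 18) (nat_lit 89) (nat_lit 1)
 (.cons (nat_lit 4464) (nat_lit 2391) (nat_lit 1952) (nat_lit 1) .nil)), (nat_lit 30), (nat_lit 25), (nat_lit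
 37), (nat_lit 1), (21, 28, 33), [14, 4884], 34⟩,
  mz,
  mz,
  ⟨⟨-65, 24, -7, -4, 55, 52, 10, 40, -59⟩, (.cons (nat_lit 121) (nat_lit 59) (nat_lit 118) (nat_lit 1) (.cons
 (nat_lit 4971) (nat_lit 535) (nat_lit 2015) (nat_lit 1) .nil)), (nat_lit 1), (nat_lit 25), (nat_lit 15),
 (nat_lit 1), (43, 66, 48), [164, 679], 20⟩,
  ⟨⟨11, -72, -36, -50, 11, -30, 44, -4, -73⟩, (.cons (nat_lit 94) (nat_lit 54) (nat_lit 68) (nat_lit 1) (.cons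
 (nat_lit 4386) (nat_lit 3651) (nat_lit 2553) (nat_lit 1) .nil)), (nat_lit 31), (nat_lit 5), (nat_lit 5),
 (nat_lit 1), (69, 22, 63), [138, 4192], 39⟩,
  ⟨⟨61, 48, -36, 44, -55, -12, 22, 8, -77⟩, (.cons (nat_lit 168) (nat_lit 165) (nat_lit 54) (nat_lit 1) (.cons
 (nat_lit 1309) (nat_lit 813) (nat_lit 2781) (nat_lit 1) .nil)), (nat_lit 42), (nat_lit 38), (nat_lit 36),
 (nat_lit 1), (30, 10, 5), [55, 3765], 24⟩,
  mz,
  ⟨⟨51, 52, -56, 44, -15, 38, 42, -24, -67⟩, (.cons (nat_lit 111) (nat_lit 41) (nat_lit 26) (nat_lit 1) (.cons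
 (nat_lit 3954) (nat_lit 2515) (nat_lit 1734) (nat_lit 1) .nil)), (nat_lit 3), (nat_lit 28), (nat_lit 8),
 (nat_lit 1), (52, 56, 47), [133, 3409], 4⟩,
  ⟨⟨9, -16, 80, -10, -69, -10, 60, -12, -11⟩, (.cons (nat_lit 168) (nat_lit 88) (nat_lit 44) (nat_lit 1) (.cons
 (nat_lit 3883) (nat_lit 2036) (nat_lit 2551) (nat_lit 1) .nil)), (nat_lit 42), (nat_lit 21), (nat_lit 29),
 (nat_lit 1), (33, 58, 7), [149, 2277], 34⟩,
  ⟨⟨51, 4, 40, 10, 69, -20, 60, -12, -49⟩, (.cons (nat_lit 168) (nat_lit 11) (nat_lit 40) (nat_lit 1) (.cons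
 (nat_lit 3825) (nat_lit 712) (nat_lit 4282) (nat_lit 1) .nil)), (nat_lit 42), (nat_lit 27), (nat_lit 13),
 (nat_lit 1), (13, 29, 32), [46, 195], 9⟩,
  ⟨⟨9, -56, -64, -56, 25, -12, 38, 16, -73⟩, (.cons (nat_lit 50) (nat_lit 66) (nat_lit 88) (nat_lit 1) (.cons
 (nat_lit 1617) (nat_lit 4009) (nat_lit 3515) (nat_lit 1) .nil)), (nat_lit 8), (nat_lit 36), (nat_lit 42),
 (nat_lit 1), (4, 54, 9), [162, 4618], 28⟩,
  ⟨⟨65, 24, -72, -4, -55, -48, -10, 40, -49⟩, (.cons (nat_lit 45) (nat_lit 28) (nat_lit 141) (nat_lit 1) (.cons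
 (nat_lit 533) (nat_lit 4828) (nat_lit 4201) (nat_lit 1) .nil)), (nat_lit 3), (nat_lit 17), (nat_lit 12),
 (nat_lit 1), (39, 26, 65), [47, 3089], 5⟩,
  ⟨⟨9, -76, -20, 44, 15, -82, -42, -24, -25⟩, (.cons (nat_lit 36) (nat_lit 126) (nat_lit 159) (nat_lit 1)
 (.cons (nat_lit 4198) (nat_lit 2702) (nat_lit 3885) (nat_lit 1) .nil)), (nat_lit 17), (nat_lit 14), (nat_lit
 26), (nat_lit 1), (1, 68, 19), [89, 2751], 41⟩,
  mz,
  ⟨⟨-9, 28, -76, 70, 11, -40, 4, -44, -53⟩, (.cons (nat_lit 163) (nat_lit 68) (nat_lit 80) (nat_lit 1) (.cons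
 (nat_lit 818) (nat_lit 2110) (nat_lit 43) (nat_lit 1) .nil)), (nat_lit 25), (nat_lit 39), (nat_lit 39),
 (nat_lit 1), (34, 59, 48), [6, 826], 37⟩,
  ⟨⟨9, 16, 80, -10, 69, -10, 60, 12, -11⟩, (.cons (nat_lit 140) (nat_lit 76) (nat_lit 50) (nat_lit 1) (.cons
 (nat_lit 4177) (nat_lit 2304) (nat_lit 3089) (nat_lit 1) .nil)), (nat_lit 39), (nat_lit 40), (nat_lit 8),
 (nat_lit 1), (58, 46, 8), [107, 28], 42⟩,
  ⟨⟨-63, -40, 7, -10, -21, 80, 12, -60, -25⟩, (.cons (nat_lit 49) (nat_lit 5) (nat_lit 98) (nat_lit 1) (.cons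
 (nat_lit 618) (nat_lit 4729) (nat_lit 973) (nat_lit 1) .nil)), (nat_lit 41), (nat_lit 7), (nat_lit 33),
 (nat_lit 1), (33, 12, 14), [46, 3307], 31⟩,
  mz,
  ⟨⟨-33, 68, -4, -50, -11, 80, -44, -4, -29⟩, (.cons (nat_lit 102) (nat_lit 135) (nat_lit 131) (nat_lit 1)
 (.cons (nat_lit 2624) (nat_lit 1676) (nat_lit 853) (nat_lit 1) .nil)), (nat_lit 38), (nat_lit 1), (nat_lit
 11), (nat_lit 1), (43, 63, 10), [159, 401], 18⟩,
  ⟨⟨-75, -20, 43, 10, -21, 70, -12, -60, -13⟩, (.cons (nat_lit 65) (nat_lit 145) (nat_lit 21) (nat_lit 1)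
 (.cons (nat_lit 3667) (nat_lit 170) (nat_lit 3188) (nat_lit 1) .nil)), (nat_lit 41), (nat_lit 36), (nat_lit
 10), (nat_lit 1), (2, 66, 6), [161, 3947], 31⟩,
  mz,
  mz,
  mz,
  ⟨⟨33, -68, -37, 50, 11, 30, 44, 4, -73⟩, (.cons (nat_lit 162) (nat_lit 11) (nat_lit 139) (nat_lit 1) (.cons
 (nat_lit 729) (nat_lit 1371) (nat_lit 325) (nat_lit 1) .nil)), (nat_lit 18), (nat_lit 23), (nat_lit 18),
 (nat_lit 1), (12, 44, 16), [51, 1238], 37⟩,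
  mz,
  ⟨⟨9, -28, -85, -70, -11, 30, -4, 44, -49⟩, (.cons (nat_lit 85) (nat_lit 36) (nat_lit 11) (nat_lit 1) (.cons
 (nat_lit 4104) (nat_lit 2394) (nat_lit 3977) (nat_lit 1) .nil)), (nat_lit 26), (nat_lit 26), (nat_lit 15),
 (nat_lit 1), (14, 41, 49), [58, 574], 42⟩,
  ⟨⟨75, -16, -52, 4, 55, -52, 10, -40, -59⟩, (.cons (nat_lit 168) (nat_lit 80) (nat_lit 22) (nat_lit 1) (.cons
 (nat_lit 321) (nat_lit 2803) (nat_lit 1402) (nat_lit 1) .nil)), (nat_lit 42), (nat_lit 32), (nat_lit 38),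
 (nat_lit 1), (51, 51, 21), [140, 2546], 20⟩,
  mz,
  ⟨⟨33, 20, -92, 64, -15, -2, 6, -48, -49⟩, (.cons (nat_lit 33) (nat_lit 130) (nat_lit 21) (nat_lit 1) (.cons
 (nat_lit 267) (nat_lit 40) (nat_lit 5010) (nat_lit 1) .nil)), (nat_lit 3), (nat_lit 3), (nat_lit 3), (nat_lit
 1), (45, 55, 34), [159, 1507], 4⟩,
  ⟨⟨13, 72, 23, -70, 11, 40, 4, 44, -53⟩, (.cons (nat_lit 24) (nat_lit 74) (nat_lit 44) (nat_lit 1) (.cons
 (nat_lit 137) (nat_lit 1283) (nat_lit 2738) (nat_lit 1) .nil)), (nat_lit 12), (nat_lit 25), (nat_lit 42),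
 (nat_lit 1), (20, 7, 28), [139, 4181], 39⟩,
  ⟨⟨-23, 72, 32, -64, -25, 52, -26, 32, -41⟩, (.cons (nat_lit 0) (nat_lit 17) (nat_lit 154) (nat_lit 1) (.cons
 (nat_lit 3613) (nat_lit 1694) (nat_lit 1756) (nat_lit 1) .nil)), (nat_lit 33), (nat_lit 1), (nat_lit 7),
 (nat_lit 1), (27, 35, 12), [147, 1902], 3⟩,
  ⟨⟨37, -48, -73, -36, -55, 48, 54, -24, -1⟩, (.cons (nat_lit 84) (nat_lit 163) (nat_lit 80) (nat_lit 1) (.cons
 (nat_lit 2076) (nat_lit 491) (nat_lit 2455) (nat_lit 1) .nil)), (nat_lit 16), (nat_lit 4), (nat_lit 25),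
 (nat_lit 1), (11, 20, 41), [9, 3571], 30⟩]

/-- Moves. -/
noncomputable def t1_5 : List Mv := [
  mz,
  ⟨⟨-75, 20, 43, -10, -21, -70, -12, 60, -13⟩, (.cons (nat_lit 69) (nat_lit 162) (nat_lit 167) (nat_lit 1)
 (.cons (nat_lit 2183) (nat_lit 3088) (nat_lit 4696) (nat_lit 1) .nil)), (nat_lit 21), (nat_lit 25), (nat_lit
 38), (nat_lit 1), (51, 21, 11), [151, 1149], 40⟩,
  mz,
  ⟨⟨65, -24, -72, -4, 55, -48, -10, -40, -49⟩, (.cons (nat_lit 168) (nat_lit 126) (nat_lit 31) (nat_lit 1)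
 (.cons (nat_lit 1440) (nat_lit 3833) (nat_lit 2184) (nat_lit 1) .nil)), (nat_lit 42), (nat_lit 11), (nat_lit
 5), (nat_lit 1), (37, 1, 38), [68, 1772], 20⟩,
  ⟨⟨-33, -20, -59, 64, -15, -62, -6, 48, -43⟩, (.cons (nat_lit 27) (nat_lit 43) (nat_lit 48) (nat_lit 1) (.cons
 (nat_lit 1893) (nat_lit 4515) (nat_lit 1336) (nat_lit 1) .nil)), (nat_lit 14), (nat_lit 38), (nat_lit 26),
 (nat_lit 1), (45, 16, 34), [132, 1111], 10⟩,
  ⟨⟨-33, 20, -59, 64, 15, -62, -6, -48, -43⟩, (.cons (nat_lit 43) (nat_lit 10) (nat_lit 73) (nat_lit 1) (.cons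
 (nat_lit 3721) (nat_lit 186) (nat_lit 3119) (nat_lit 1) .nil)), (nat_lit 5), (nat_lit 27), (nat_lit 42),
 (nat_lit 1), (23, 35, 30), [64, 3302], 36⟩,
  mz,
  ⟨⟨-29, 72, 20, 56, 25, -68, -38, 16, -35⟩, (.cons (nat_lit 158) (nat_lit 128) (nat_lit 101) (nat_lit 1)
 (.cons (nat_lit 4898) (nat_lit 188) (nat_lit 3186) (nat_lit 1) .nil)), (nat_lit 8), (nat_lit 7), (nat_lit 1),
 (nat_lit 1), (33, 44, 31), [15, 768], 28⟩,
  ⟨⟨3, 40, -76, 64, 25, -12, 26, -32, -67⟩, (.cons (nat_lit 46) (nat_lit 27) (nat_lit 86) (nat_lit 1) (.cons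
 (nat_lit 4214) (nat_lit 2664) (nat_lit 2164) (nat_lit 1) .nil)), (nat_lit 27), (nat_lit 26), (nat_lit 16),
 (nat_lit 1), (14, 62, 3), [137, 1181], 30⟩,
  mz,
  mz,
  ⟨⟨33, -20, -92, 64, 15, -2, 6, 48, -49⟩, (.cons (nat_lit 59) (nat_lit 5) (nat_lit 113) (nat_lit 1) (.cons
 (nat_lit 3059) (nat_lit 1467) (nat_lit 959) (nat_lit 1) .nil)), (nat_lit 17), (nat_lit 1), (nat_lit 20),
 (nat_lit 1), (67, 3, 38), [98, 2396], 41⟩,
  ⟨⟨9, 76, -20, 44, -15, -82, -42, 24, -25⟩, (.cons (nat_lit 41) (nat_lit 78) (nat_lit 153) (nat_lit 1) (.cons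
 (nat_lit 2203) (nat_lit 4103) (nat_lit 2733) (nat_lit 1) .nil)), (nat_lit 29), (nat_lit 42), (nat_lit 42),
 (nat_lit 1), (31, 49, 21), [90, 4929], 10⟩,
  mz,
  mz,
  ⟨⟨51, -52, -56, -44, -15, -38, 42, 24, -67⟩, (.cons (nat_lit 125) (nat_lit 73) (nat_lit 28) (nat_lit 1)
 (.cons (nat_lit 2153) (nat_lit 1733) (nat_lit 1524) (nat_lit 1) .nil)), (nat_lit 29), (nat_lit 1), (nat_lit
 1), (nat_lit 1), (24, 67, 49), [134, 2545], 10⟩,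
  ⟨⟨17, 24, -89, -36, -55, -12, 54, -24, -53⟩, (.cons (nat_lit 24) (nat_lit 74) (nat_lit 1) (nat_lit 13) (.cons
 (nat_lit 2888) (nat_lit 4686) (nat_lit 1661) (nat_lit 1) .nil)), (nat_lit 1), (nat_lit 20), (nat_lit 32),
 (nat_lit 1), (7, 52, 64), [2, 2295], 4⟩,
  mz,
  ⟨⟨9, 56, -64, -56, -25, -12, 38, -16, -73⟩, (.cons (nat_lit 86) (nat_lit 142) (nat_lit 120) (nat_lit 1)
 (.cons (nat_lit 3600) (nat_lit 115) (nat_lit 2053) (nat_lit 1) .nil)), (nat_lit 33), (nat_lit 35), (nat_lit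
 26), (nat_lit 1), (56, 46, 55), [116, 609], 3⟩,
  ⟨⟨-61, -48, 25, -44, 55, 32, -22, -8, -55⟩, (.cons (nat_lit 151) (nat_lit 58) (nat_lit 154) (nat_lit 1)
 (.cons (nat_lit 885) (nat_lit 3698) (nat_lit 1119) (nat_lit 1) .nil)), (nat_lit 37), (nat_lit 37), (nat_lit
 27), (nat_lit 1), (9, 3, 37), [159, 1484], 25⟩,
  mz,
  mz,
  ⟨⟨37, 48, -73, -36, 55, 48, 54, 24, -1⟩, (.cons (nat_lit 78) (nat_lit 11) (nat_lit 7) (nat_lit 1) (.cons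
 (nat_lit 2163) (nat_lit 1758) (nat_lit 3450) (nat_lit 1) .nil)), (nat_lit 1), (nat_lit 23), (nat_lit 11),
 (nat_lit 1), (15, 66, 43), [71, 1386], 39⟩,
  ⟨⟨-61, 48, 25, 44, 55, -32, -22, 8, -55⟩, (.cons (nat_lit 53) (nat_lit 70) (nat_lit 85) (nat_lit 1) (.cons
 (nat_lit 3039) (nat_lit 4132) (nat_lit 952) (nat_lit 1) .nil)), (nat_lit 7), (nat_lit 1), (nat_lit 17),
 (nat_lit 1), (13, 43, 14), [95, 1355], 21⟩,
  ⟨⟨-39, 40, -41, 44, 55, -12, 22, -8, -77⟩, (.cons (nat_lit 118) (nat_lit 21) (nat_lit 110) (nat_lit 1) (.cons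
 (nat_lit 2593) (nat_lit 4782) (nat_lit 1471) (nat_lit 1) .nil)), (nat_lit 37), (nat_lit 6), (nat_lit 16),
 (nat_lit 1), (2, 56, 28), [17, 466], 25⟩,
  mz,
  ⟨⟨51, -4, 40, -10, 69, 20, 60, 12, -49⟩, (.cons (nat_lit 168) (nat_lit 38) (nat_lit 154) (nat_lit 1) (.cons
 (nat_lit 26) (nat_lit 2129) (nat_lit 1) (nat_lit 994) .nil)), (nat_lit 42), (nat_lit 22), (nat_lit 14),
 (nat_lit 1), (60, 30, 33), [161, 1490], 9⟩,
  mz,
  mz,
  ⟨⟨-13, -72, 36, 70, -11, -30, -4, -44, -49⟩, (.cons (nat_lit 141) (nat_lit 101) (nat_lit 150) (nat_lit 1)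
 (.cons (nat_lit 1837) (nat_lit 1195) (nat_lit 1) (nat_lit 3195) .nil)), (nat_lit 38), (nat_lit 31), (nat_lit
 17), (nat_lit 1), (29, 35, 69), [94, 4745], 18⟩,
  mz,
  ⟨⟨-33, -68, -4, 50, -11, -80, -44, 4, -29⟩, (.cons (nat_lit 145) (nat_lit 91) (nat_lit 112) (nat_lit 1)
 (.cons (nat_lit 4113) (nat_lit 4514) (nat_lit 2221) (nat_lit 1) .nil)), (nat_lit 17), (nat_lit 11), (nat_lit
 31), (nat_lit 1), (61, 13, 34), [157, 5014], 42⟩,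
  mz,
  ⟨⟨-29, -72, 20, 56, -25, -68, -38, -16, -35⟩, (.cons (nat_lit 52) (nat_lit 149) (nat_lit 94) (nat_lit 1)
 (.cons (nat_lit 1527) (nat_lit 1751) (nat_lit 4229) (nat_lit 1) .nil)), (nat_lit 33), (nat_lit 8), (nat_lit
 17), (nat_lit 1), (27, 36, 6), [56, 3264], 3⟩,
  ⟨⟨75, 20, -32, 10, -21, -80, 12, 60, -25⟩, (.cons (nat_lit 32) (nat_lit 120) (nat_lit 72) (nat_lit 1) (.cons
 (nat_lit 3179) (nat_lit 4361) (nat_lit 427) (nat_lit 1) .nil)), (nat_lit 22), (nat_lit 25), (nat_lit 5),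
 (nat_lit 1), (30, 4, 19), [105, 1161], 40⟩,
  mz,
  ⟨⟨23, 72, 9, 64, -25, -12, 26, 32, -67⟩, (.cons (nat_lit 101) (nat_lit 126) (nat_lit 137) (nat_lit 1) (.cons
 (nat_lit 3306) (nat_lit 1145) (nat_lit 2722) (nat_lit 1) .nil)), (nat_lit 10), (nat_lit 1), (nat_lit 36),
 (nat_lit 1), (66, 54, 53), [59, 1954], 3⟩,
  mz,
  ⟨⟨17, -24, -89, -36, 55, -12, 54, 24, -53⟩, (.cons (nat_lit 106) (nat_lit 1) (nat_lit 108) (nat_lit 1) (.cons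
 (nat_lit 4185) (nat_lit 5006) (nat_lit 4447) (nat_lit 1) .nil)), (nat_lit 16), (nat_lit 39), (nat_lit 18),
 (nat_lit 1), (5, 27, 66), [27, 3559], 13⟩,
  ⟨⟨-23, -72, 32, 64, -25, -52, -26, -32, -41⟩, (.cons (nat_lit 57) (nat_lit 18) (nat_lit 89) (nat_lit 1)
 (.cons (nat_lit 4464) (nat_lit 2391) (nat_lit 1952) (nat_lit 1) .nil)), (nat_lit 30), (nat_lit 25), (nat_lit
 37), (nat_lit 1), (21, 28, 33), [14, 4884], 34⟩,
  mz,
  mz,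
  ⟨⟨75, 16, -52, 4, -55, -52, 10, 40, -59⟩, (.cons (nat_lit 97) (nat_lit 32) (nat_lit 60) (nat_lit 1) (.cons
 (nat_lit 4002) (nat_lit 1655) (nat_lit 398) (nat_lit 1) .nil)), (nat_lit 3), (nat_lit 26), (nat_lit 31),
 (nat_lit 1), (5, 5, 48), [21, 642], 5⟩,
  ⟨⟨33, 68, -37, -50, 11, -30, 44, -4, -73⟩, (.cons (nat_lit 130) (nat_lit 153) (nat_lit 162) (nat_lit 1)
 (.cons (nat_lit 4907) (nat_lit 3138) (nat_lit 2453) (nat_lit 1) .nil)), (nat_lit 12), (nat_lit 38), (nat_lit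
 5), (nat_lit 1), (65, 22, 63), [74, 41], 39⟩,
  ⟨⟨-39, -40, -41, -44, 55, 12, 22, 8, -77⟩, (.cons (nat_lit 122) (nat_lit 22) (nat_lit 140) (nat_lit 1) (.cons
 (nat_lit 2834) (nat_lit 3656) (nat_lit 762) (nat_lit 1) .nil)), (nat_lit 7), (nat_lit 42), (nat_lit 26),
 (nat_lit 1), (46, 61, 5), [49, 4635], 21⟩,
  mz,
  ⟨⟨-9, -76, -11, -44, 15, -38, 42, -24, -67⟩, (.cons (nat_lit 143) (nat_lit 164) (nat_lit 166) (nat_lit 1)
 (.cons (nat_lit 4528) (nat_lit 5031) (nat_lit 3554) (nat_lit 1) .nil)), (nat_lit 26), (nat_lit 14), (nat_lit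
 17), (nat_lit 1), (66, 15, 47), [131, 4781], 41⟩,
  ⟨⟨9, -16, 80, -10, -69, -10, 60, -12, -11⟩, (.cons (nat_lit 168) (nat_lit 88) (nat_lit 44) (nat_lit 1) (.cons
 (nat_lit 3883) (nat_lit 2036) (nat_lit 2551) (nat_lit 1) .nil)), (nat_lit 42), (nat_lit 21), (nat_lit 29),
 (nat_lit 1), (33, 58, 7), [149, 2277], 34⟩,
  ⟨⟨51, 4, 40, 10, 69, -20, 60, -12, -49⟩, (.cons (nat_lit 168) (nat_lit 11) (nat_lit 40) (nat_lit 1) (.cons
 (nat_lit 3825) (nat_lit 712) (nat_lit 4282) (nat_lit 1) .nil)), (nat_lit 42), (nat_lit 27), (nat_lit 13),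
 (nat_lit 1), (13, 29, 32), [46, 195], 9⟩,
  ⟨⟨9, -56, -64, 56, -25, 12, 38, 16, -73⟩, (.cons (nat_lit 124) (nat_lit 89) (nat_lit 1) (nat_lit 0) (.cons
 (nat_lit 3188) (nat_lit 2350) (nat_lit 394) (nat_lit 1) .nil)), (nat_lit 30), (nat_lit 13), (nat_lit 5),
 (nat_lit 1), (4, 17, 9), [66, 209], 34⟩,
  ⟨⟨-75, 16, 23, 4, 55, 48, -10, 40, -49⟩, (.cons (nat_lit 88) (nat_lit 47) (nat_lit 94) (nat_lit 1) (.cons
 (nat_lit 1533) (nat_lit 4938) (nat_lit 1) (nat_lit 3195) .nil)), (nat_lit 1), (nat_lit 18), (nat_lit 28),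
 (nat_lit 1), (26, 45, 65), [150, 3227], 20⟩,
  ⟨⟨-51, 52, -5, -44, -15, 82, -42, -24, -25⟩, (.cons (nat_lit 144) (nat_lit 61) (nat_lit 17) (nat_lit 1)
 (.cons (nat_lit 4340) (nat_lit 422) (nat_lit 2221) (nat_lit 1) .nil)), (nat_lit 40), (nat_lit 28), (nat_lit
 35), (nat_lit 1), (18, 3, 19), [28, 337], 4⟩,
  mz,
  ⟨⟨-9, 28, -76, -70, -11, 40, 4, -44, -53⟩, (.cons (nat_lit 7) (nat_lit 39) (nat_lit 61) (nat_lit 1) (.cons
 (nat_lit 2094) (nat_lit 1787) (nat_lit 2280) (nat_lit 1) .nil)), (nat_lit 38), (nat_lit 12), (nat_lit 26),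
 (nat_lit 1), (34, 12, 48), [88, 4179], 18⟩,
  ⟨⟨9, 16, 80, 10, -69, 10, 60, 12, -11⟩, (.cons (nat_lit 168) (nat_lit 162) (nat_lit 22) (nat_lit 1) (.cons
 (nat_lit 54) (nat_lit 3878) (nat_lit 1) (nat_lit 1349) .nil)), (nat_lit 42), (nat_lit 16), (nat_lit 30),
 (nat_lit 1), (58, 25, 8), [47, 3435], 34⟩,
  ⟨⟨-63, -40, 7, 10, 21, -80, 12, -60, -25⟩, (.cons (nat_lit 150) (nat_lit 150) (nat_lit 108) (nat_lit 1)
 (.cons (nat_lit 31) (nat_lit 3328) (nat_lit 440) (nat_lit 1) .nil)), (nat_lit 1), (nat_lit 30), (nat_lit 12),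
 (nat_lit 1), (33, 59, 14), [17, 2642], 10⟩,
  mz,
  ⟨⟨-11, -72, -25, -50, -11, 80, -44, -4, -29⟩, (.cons (nat_lit 2) (nat_lit 97) (nat_lit 147) (nat_lit 1)
 (.cons (nat_lit 264) (nat_lit 1690) (nat_lit 3563) (nat_lit 1) .nil)), (nat_lit 5), (nat_lit 42), (nat_lit
 11), (nat_lit 1), (38, 63, 10), [63, 2789], 18⟩,
  ⟨⟨-75, -20, 43, -10, 21, -70, -12, -60, -13⟩, (.cons (nat_lit 80) (nat_lit 168) (nat_lit 148) (nat_lit 1)
 (.cons (nat_lit 2500) (nat_lit 553) (nat_lit 252) (nat_lit 1) .nil)), (nat_lit 1), (nat_lit 13), (nat_lit 31),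
 (nat_lit 1), (2, 5, 6), [133, 4292], 10⟩,
  mz,
  mz,
  mz,
  ⟨⟨11, 72, -36, -50, -11, -30, 44, 4, -73⟩, (.cons (nat_lit 6) (nat_lit 70) (nat_lit 114) (nat_lit 1) (.cons
 (nat_lit 3262) (nat_lit 109) (nat_lit 4632) (nat_lit 1) .nil)), (nat_lit 17), (nat_lit 32), (nat_lit 12),
 (nat_lit 1), (4, 27, 16), [4, 2567], 42⟩,
  mz,
  ⟨⟨-13, 72, 36, 70, 11, -30, -4, 44, -49⟩, (.cons (nat_lit 80) (nat_lit 25) (nat_lit 119) (nat_lit 1) (.cons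
 (nat_lit 370) (nat_lit 1435) (nat_lit 3217) (nat_lit 1) .nil)), (nat_lit 31), (nat_lit 25), (nat_lit 1),
 (nat_lit 1), (35, 30, 49), [128, 1531], 39⟩,
  ⟨⟨75, -16, -52, -4, -55, 52, 10, -40, -59⟩, (.cons (nat_lit 115) (nat_lit 38) (nat_lit 29) (nat_lit 1) (.cons
 (nat_lit 2223) (nat_lit 907) (nat_lit 58) (nat_lit 1) .nil)), (nat_lit 29), (nat_lit 20), (nat_lit 4),
 (nat_lit 1), (51, 20, 21), [58, 27], 34⟩,
  mz,
  ⟨⟨-27, -68, 43, -64, 15, 2, 6, -48, -49⟩, (.cons (nat_lit 113) (nat_lit 58) (nat_lit 1) (nat_lit 104) (.cons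
 (nat_lit 2185) (nat_lit 4004) (nat_lit 1148) (nat_lit 1) .nil)), (nat_lit 5), (nat_lit 16), (nat_lit 1),
 (nat_lit 1), (60, 16, 34), [146, 2985], 36⟩,
  ⟨⟨13, 72, 23, 70, -11, -40, 4, 44, -53⟩, (.cons (nat_lit 110) (nat_lit 17) (nat_lit 147) (nat_lit 1) (.cons
 (nat_lit 5039) (nat_lit 856) (nat_lit 4397) (nat_lit 1) .nil)), (nat_lit 26), (nat_lit 17), (nat_lit 28),
 (nat_lit 1), (20, 64, 28), [57, 1793], 42⟩,
  ⟨⟨-23, 72, 32, 64, 25, -52, -26, 32, -41⟩, (.cons (nat_lit 2) (nat_lit 74) (nat_lit 135) (nat_lit 1) (.cons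
 (nat_lit 4155) (nat_lit 2570) (nat_lit 4905) (nat_lit 1) .nil)), (nat_lit 8), (nat_lit 38), (nat_lit 33),
 (nat_lit 1), (27, 36, 12), [145, 805], 28⟩,
  ⟨⟨17, 24, 72, 36, 55, -48, 54, -24, -1⟩, (.cons (nat_lit 168) (nat_lit 136) (nat_lit 25) (nat_lit 1) (.cons
 (nat_lit 2263) (nat_lit 3813) (nat_lit 3346) (nat_lit 1) .nil)), (nat_lit 42), (nat_lit 12), (nat_lit 4),
 (nat_lit 1), (30, 51, 41), [139, 2305], 39⟩]

/-- Moves. -/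
noncomputable def t4_2 : List Mv := [
  mz,
  ⟨⟨3, 44, -20, 2, 15, 44, 36, 12, -25⟩, (.cons (nat_lit 20) (nat_lit 145) (nat_lit 44) (nat_lit 1) (.cons
 (nat_lit 745) (nat_lit 3192) (nat_lit 3226) (nat_lit 1) .nil)), (nat_lit 22), (nat_lit 0), (nat_lit 0),
 (nat_lit 0), (36, 24, 2), [131, 250], 0⟩,
  mz,
  mz,
  ⟨⟨19, 36, -36, -20, -13, -30, 34, -8, -35⟩, (.cons (nat_lit 46) (nat_lit 165) (nat_lit 110) (nat_lit 1)
 (.cons (nat_lit 4814) (nat_lit 3099) (nat_lit 2319) (nat_lit 1) .nil)), (nat_lit 18), (nat_lit 0), (nat_lit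
 0), (nat_lit 0), (14, 26, 16), [58, 4321], 0⟩,
  ⟨⟨33, -32, -28, 2, 15, -46, 36, 12, -11⟩, (.cons (nat_lit 151) (nat_lit 113) (nat_lit 6) (nat_lit 1) (.cons
 (nat_lit 3882) (nat_lit 4654) (nat_lit 1616) (nat_lit 1) .nil)), (nat_lit 21), (nat_lit 0), (nat_lit 0),
 (nat_lit 0), (19, 22, 9), [154, 3735], 0⟩,
  ⟨⟨-37, -24, 0, -20, 37, 0, 2, -8, -43⟩, (.cons (nat_lit 168) (nat_lit 119) (nat_lit 35) (nat_lit 1) (.cons
 (nat_lit 5040) (nat_lit 2883) (nat_lit 1602) (nat_lit 1) .nil)), (nat_lit 6), (nat_lit 0), (nat_lit 0),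
 (nat_lit 0), (12, 3, 4), [2, 1896], 0⟩,
  ⟨⟨33, 8, -53, -20, -27, -20, 30, -24, -13⟩, (.cons (nat_lit 133) (nat_lit 43) (nat_lit 12) (nat_lit 1) (.cons
 (nat_lit 1072) (nat_lit 2194) (nat_lit 2530) (nat_lit 1) .nil)), (nat_lit 36), (nat_lit 0), (nat_lit 0),
 (nat_lit 0), (32, 21, 33), [76, 3265], 0⟩,
  ⟨⟨-39, -16, -4, 20, -37, -20, -2, 8, -41⟩, (.cons (nat_lit 162) (nat_lit 93) (nat_lit 89) (nat_lit 1) (.cons
 (nat_lit 1383) (nat_lit 1478) (nat_lit 4004) (nat_lit 1) .nil)), (nat_lit 37), (nat_lit 0), (nat_lit 0),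
 (nat_lit 0), (6, 30, 40), [129, 1559], 0⟩,
  ⟨⟨47, 0, -20, 0, 43, 0, 18, 0, -47⟩, (.cons (nat_lit 168) (nat_lit 154) (nat_lit 107) (nat_lit 1) (.cons
 (nat_lit 5040) (nat_lit 3309) (nat_lit 4319) (nat_lit 1) .nil)), (nat_lit 9), (nat_lit 0), (nat_lit 0),
 (nat_lit 0), (34, 0, 24), [149, 4409], 0⟩,
  ⟨⟨21, -20, 31, 38, 15, -34, 12, -36, -13⟩, (.cons (nat_lit 37) (nat_lit 150) (nat_lit 149) (nat_lit 1) (.cons
 (nat_lit 2029) (nat_lit 2026) (nat_lit 2535) (nat_lit 1) .nil)), (nat_lit 38), (nat_lit 0), (nat_lit 0),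
 (nat_lit 0), (8, 37, 23), [46, 1411], 0⟩,
  mz,
  ⟨⟨-15, 44, 16, 20, 13, -50, -34, 8, -1⟩, (.cons (nat_lit 30) (nat_lit 8) (nat_lit 79) (nat_lit 1) (.cons
 (nat_lit 3501) (nat_lit 405) (nat_lit 1639) (nat_lit 1) .nil)), (nat_lit 25), (nat_lit 0), (nat_lit 0),
 (nat_lit 0), (28, 20, 9), [140, 3311], 0⟩,
  ⟨⟨33, 8, 20, 20, 27, -40, 30, -24, -17⟩, (.cons (nat_lit 168) (nat_lit 73) (nat_lit 114) (nat_lit 1) (.cons
 (nat_lit 5040) (nat_lit 4810) (nat_lit 803) (nat_lit 1) .nil)), (nat_lit 13), (nat_lit 0), (nat_lit 0),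
 (nat_lit 0), (4, 35, 31), [116, 3747], 0⟩,
  mz,
  mz,
  mz,
  ⟨⟨5, 36, 31, 40, -13, -10, 14, 32, -25⟩, (.cons (nat_lit 45) (nat_lit 116) (nat_lit 167) (nat_lit 1) (.cons
 (nat_lit 1458) (nat_lit 2748) (nat_lit 4217) (nat_lit 1) .nil)), (nat_lit 31), (nat_lit 0), (nat_lit 0),
 (nat_lit 0), (1, 8, 20), [81, 2423], 0⟩,
  ⟨⟨-5, -36, 36, 40, -13, -30, -14, -32, -11⟩, (.cons (nat_lit 158) (nat_lit 125) (nat_lit 27) (nat_lit 1)
 (.cons (nat_lit 644) (nat_lit 480) (nat_lit 3741) (nat_lit 1) .nil)), (nat_lit 4), (nat_lit 0), (nat_lit 0),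
 (nat_lit 0), (11, 41, 5), [89, 3797], 0⟩,
  mz,
  mz,
  ⟨⟨-9, 16, -44, 38, -15, -34, 12, 36, -13⟩, (.cons (nat_lit 122) (nat_lit 72) (nat_lit 113) (nat_lit 1) (.cons
 (nat_lit 3871) (nat_lit 900) (nat_lit 345) (nat_lit 1) .nil)), (nat_lit 5), (nat_lit 0), (nat_lit 0), (nat_lit
 0), (1, 34, 13), [11, 2832], 0⟩,
  ⟨⟨-21, 20, 52, 38, 15, -4, -12, 36, -1⟩, (.cons (nat_lit 93) (nat_lit 35) (nat_lit 133) (nat_lit 1) (.cons
 (nat_lit 2057) (nat_lit 2479) (nat_lit 3115) (nat_lit 1) .nil)), (nat_lit 1), (nat_lit 0), (nat_lit 0),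
 (nat_lit 0), (12, 9, 13), [43, 3769], 0⟩,
  mz,
  mz,
  ⟨⟨5, -36, 31, 40, 13, -10, 14, -32, -25⟩, (.cons (nat_lit 118) (nat_lit 137) (nat_lit 148) (nat_lit 1) (.cons
 (nat_lit 4318) (nat_lit 4700) (nat_lit 3510) (nat_lit 1) .nil)), (nat_lit 31), (nat_lit 0), (nat_lit 0),
 (nat_lit 0), (11, 2, 5), [162, 2323], 0⟩,
  ⟨⟨-5, 36, 36, 40, 13, -30, -14, 32, -11⟩, (.cons (nat_lit 121) (nat_lit 23) (nat_lit 123) (nat_lit 1) (.cons
 (nat_lit 661) (nat_lit 948) (nat_lit 3988) (nat_lit 1) .nil)), (nat_lit 4), (nat_lit 0), (nat_lit 0), (nat_lit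
 0), (1, 35, 20), [166, 3595], 0⟩,
  mz,
  mz,
  mz,
  ⟨⟨33, -8, -53, 20, -27, 20, 30, 24, -13⟩, (.cons (nat_lit 29) (nat_lit 94) (nat_lit 55) (nat_lit 1) (.cons
 (nat_lit 78) (nat_lit 2850) (nat_lit 785) (nat_lit 1) .nil)), (nat_lit 13), (nat_lit 0), (nat_lit 0), (nat_lit
 0), (39, 8, 12), [11, 993], 0⟩,
  ⟨⟨15, 44, 1, -20, 13, -30, 34, 8, -35⟩, (.cons (nat_lit 53) (nat_lit 6) (nat_lit 99) (nat_lit 1) (.cons
 (nat_lit 1764) (nat_lit 1645) (nat_lit 3749) (nat_lit 1) .nil)), (nat_lit 25), (nat_lit 0), (nat_lit 0),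
 (nat_lit 0), (28, 20, 9), [110, 3473], 0⟩,
  mz,
  ⟨⟨-21, -20, 52, 38, -15, -4, -12, -36, -1⟩, (.cons (nat_lit 86) (nat_lit 86) (nat_lit 166) (nat_lit 1) (.cons
 (nat_lit 1468) (nat_lit 1077) (nat_lit 4897) (nat_lit 1) .nil)), (nat_lit 1), (nat_lit 0), (nat_lit 0),
 (nat_lit 0), (8, 6, 23), [80, 2868], 0⟩,
  ⟨⟨29, 0, -56, 0, -43, 0, -18, 0, -29⟩, (.cons (nat_lit 168) (nat_lit 61) (nat_lit 154) (nat_lit 1) (.cons
 (nat_lit 5040) (nat_lit 4262) (nat_lit 2835) (nat_lit 1) .nil)), (nat_lit 34), (nat_lit 0), (nat_lit 0),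
 (nat_lit 0), (33, 0, 24), [94, 1594], 0⟩,
  ⟨⟨39, -16, -43, 20, 37, 0, 2, 8, -43⟩, (.cons (nat_lit 147) (nat_lit 46) (nat_lit 27) (nat_lit 1) (.cons
 (nat_lit 120) (nat_lit 4440) (nat_lit 4623) (nat_lit 1) .nil)), (nat_lit 8), (nat_lit 0), (nat_lit 0),
 (nat_lit 0), (6, 13, 40), [103, 4433], 0⟩,
  ⟨⟨33, -8, 20, -20, 27, 40, 30, 24, -17⟩, (.cons (nat_lit 156) (nat_lit 69) (nat_lit 1) (nat_lit 13) (.cons
 (nat_lit 5040) (nat_lit 1241) (nat_lit 4711) (nat_lit 1) .nil)), (nat_lit 36), (nat_lit 0), (nat_lit 0),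
 (nat_lit 0), (11, 22, 10), [94, 3507], 0⟩,
  ⟨⟨-39, 16, -4, 20, 37, -20, -2, -8, -41⟩, (.cons (nat_lit 168) (nat_lit 100) (nat_lit 135) (nat_lit 1) (.cons
 (nat_lit 5040) (nat_lit 898) (nat_lit 4717) (nat_lit 1) .nil)), (nat_lit 37), (nat_lit 0), (nat_lit 0),
 (nat_lit 0), (35, 3, 4), [141, 4172], 0⟩,
  ⟨⟨33, 32, -5, -2, 15, -44, 36, -12, -25⟩, (.cons (nat_lit 32) (nat_lit 101) (nat_lit 133) (nat_lit 1) (.cons
 (nat_lit 4641) (nat_lit 3840) (nat_lit 759) (nat_lit 1) .nil)), (nat_lit 10), (nat_lit 0), (nat_lit 0),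
 (nat_lit 0), (24, 22, 34), [122, 3856], 0⟩,
  ⟨⟨-15, -44, 16, 20, -13, -50, -34, -8, -1⟩, (.cons (nat_lit 75) (nat_lit 31) (nat_lit 45) (nat_lit 1) (.cons
 (nat_lit 4132) (nat_lit 2927) (nat_lit 3421) (nat_lit 1) .nil)), (nat_lit 25), (nat_lit 0), (nat_lit 0),
 (nat_lit 0), (2, 26, 16), [145, 2307], 0⟩,
  mz,
  mz,
  ⟨⟨33, 32, -28, 2, -15, -46, 36, -12, -11⟩, (.cons (nat_lit 112) (nat_lit 38) (nat_lit 105) (nat_lit 1) (.cons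
 (nat_lit 223) (nat_lit 947) (nat_lit 2537) (nat_lit 1) .nil)), (nat_lit 21), (nat_lit 0), (nat_lit 0),
 (nat_lit 0), (34, 19, 41), [120, 4457], 0⟩]

/-- Moves. -/
noncomputable def t4_4 : List Mv := [
  mz,
  ⟨⟨3, 44, -20, -2, -15, -44, 36, 12, -25⟩, (.cons (nat_lit 57) (nat_lit 168) (nat_lit 2) (nat_lit 1) (.cons
 (nat_lit 1741) (nat_lit 195) (nat_lit 3695) (nat_lit 1) .nil)), (nat_lit 33), (nat_lit 0), (nat_lit 0),
 (nat_lit 0), (36, 19, 2), [167, 1341], 0⟩,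
  mz,
  mz,
  ⟨⟨19, 36, -36, -20, -13, -30, 34, -8, -35⟩, (.cons (nat_lit 46) (nat_lit 165) (nat_lit 110) (nat_lit 1)
 (.cons (nat_lit 4814) (nat_lit 3099) (nat_lit 2319) (nat_lit 1) .nil)), (nat_lit 18), (nat_lit 0), (nat_lit
 0), (nat_lit 0), (14, 26, 16), [58, 4321], 0⟩,
  ⟨⟨3, 44, 17, -2, -15, 46, 36, 12, -11⟩, (.cons (nat_lit 158) (nat_lit 74) (nat_lit 102) (nat_lit 1) (.cons
 (nat_lit 4571) (nat_lit 2947) (nat_lit 3726) (nat_lit 1) .nil)), (nat_lit 33), (nat_lit 0), (nat_lit 0),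
 (nat_lit 0), (33, 21, 9), [119, 2773], 0⟩,
  ⟨⟨-37, -24, 0, -20, 37, 0, 2, -8, -43⟩, (.cons (nat_lit 168) (nat_lit 119) (nat_lit 35) (nat_lit 1) (.cons
 (nat_lit 5040) (nat_lit 2883) (nat_lit 1602) (nat_lit 1) .nil)), (nat_lit 6), (nat_lit 0), (nat_lit 0),
 (nat_lit 0), (12, 3, 4), [2, 1896], 0⟩,
  ⟨⟨33, 8, -53, 20, 27, 20, 30, -24, -13⟩, (.cons (nat_lit 119) (nat_lit 61) (nat_lit 36) (nat_lit 1) (.cons
 (nat_lit 4538) (nat_lit 4289) (nat_lit 4284) (nat_lit 1) .nil)), (nat_lit 13), (nat_lit 0), (nat_lit 0),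
 (nat_lit 0), (32, 22, 33), [90, 4320], 0⟩,
  ⟨⟨-39, -16, -4, 20, -37, -20, -2, 8, -41⟩, (.cons (nat_lit 162) (nat_lit 93) (nat_lit 89) (nat_lit 1) (.cons
 (nat_lit 1383) (nat_lit 1478) (nat_lit 4004) (nat_lit 1) .nil)), (nat_lit 37), (nat_lit 0), (nat_lit 0),
 (nat_lit 0), (6, 30, 40), [129, 1559], 0⟩,
  ⟨⟨-29, 0, -27, 0, -43, 0, 18, 0, -47⟩, (.cons (nat_lit 2) (nat_lit 5) (nat_lit 137) (nat_lit 1) (.cons (nat_lit 4385) (nat_lit 883) (nat_lit 3512) (nat_lit 1) .nil)), (nat_lit 34), (nat_lit 0), (nat_lit 0), (nat_lit 0), (33, 0, 24), [132, 558], 0⟩,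
  ⟨⟨21, -20, 31, 38, 15, -34, 12, -36, -13⟩, (.cons (nat_lit 37) (nat_lit 150) (nat_lit 149) (nat_lit 1) (.cons
 (nat_lit 2029) (nat_lit 2026) (nat_lit 2535) (nat_lit 1) .nil)), (nat_lit 38), (nat_lit 0), (nat_lit 0),
 (nat_lit 0), (8, 37, 23), [46, 1411], 0⟩,
  mz,
  ⟨⟨-19, -36, -17, 20, 13, -50, -34, 8, -1⟩, (.cons (nat_lit 85) (nat_lit 38) (nat_lit 125) (nat_lit 1) (.cons
 (nat_lit 1970) (nat_lit 2527) (nat_lit 2321) (nat_lit 1) .nil)), (nat_lit 18), (nat_lit 0), (nat_lit 0),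
 (nat_lit 0), (24, 20, 9), [161, 1938], 0⟩,
  ⟨⟨33, 8, 20, 20, 27, -40, 30, -24, -17⟩, (.cons (nat_lit 168) (nat_lit 73) (nat_lit 114) (nat_lit 1) (.cons
 (nat_lit 5040) (nat_lit 4810) (nat_lit 803) (nat_lit 1) .nil)), (nat_lit 13), (nat_lit 0), (nat_lit 0),
 (nat_lit 0), (4, 35, 31), [116, 3747], 0⟩,
  mz,
  mz,
  mz,
  ⟨⟨9, -4, -56, 40, -13, -10, 14, 32, -25⟩, (.cons (nat_lit 7) (nat_lit 21) (nat_lit 62) (nat_lit 1) (.cons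
 (nat_lit 5027) (nat_lit 3450) (nat_lit 1556) (nat_lit 1) .nil)), (nat_lit 12), (nat_lit 0), (nat_lit 0),
 (nat_lit 0), (19, 8, 20), [84, 771], 0⟩,
  ⟨⟨-9, 4, -47, -40, 13, 30, -14, -32, -11⟩, (.cons (nat_lit 2) (nat_lit 93) (nat_lit 88) (nat_lit 1) (.cons
 (nat_lit 3759) (nat_lit 3292) (nat_lit 1332) (nat_lit 1) .nil)), (nat_lit 12), (nat_lit 0), (nat_lit 0),
 (nat_lit 0), (37, 2, 5), [137, 3744], 0⟩,
  mz,
  mz,
  ⟨⟨21, 20, 31, 38, -15, -34, 12, 36, -13⟩, (.cons (nat_lit 114) (nat_lit 141) (nat_lit 66) (nat_lit 1) (.cons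
 (nat_lit 4320) (nat_lit 3817) (nat_lit 1985) (nat_lit 1) .nil)), (nat_lit 38), (nat_lit 0), (nat_lit 0),
 (nat_lit 0), (12, 34, 13), [35, 4079], 0⟩,
  ⟨⟨-21, 20, 52, 38, 15, -4, -12, 36, -1⟩, (.cons (nat_lit 93) (nat_lit 35) (nat_lit 133) (nat_lit 1) (.cons
 (nat_lit 2057) (nat_lit 2479) (nat_lit 3115) (nat_lit 1) .nil)), (nat_lit 1), (nat_lit 0), (nat_lit 0),
 (nat_lit 0), (12, 9, 13), [43, 3769], 0⟩,
  mz,
  mz,
  ⟨⟨9, 4, -56, 40, 13, -10, 14, -32, -25⟩, (.cons (nat_lit 62) (nat_lit 11) (nat_lit 3) (nat_lit 1) (.cons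
 (nat_lit 4586) (nat_lit 2799) (nat_lit 4718) (nat_lit 1) .nil)), (nat_lit 12), (nat_lit 0), (nat_lit 0),
 (nat_lit 0), (37, 2, 5), [64, 4759], 0⟩,
  ⟨⟨-5, 36, 36, 40, 13, -30, -14, 32, -11⟩, (.cons (nat_lit 121) (nat_lit 23) (nat_lit 123) (nat_lit 1) (.cons
 (nat_lit 661) (nat_lit 948) (nat_lit 3988) (nat_lit 1) .nil)), (nat_lit 4), (nat_lit 0), (nat_lit 0), (nat_lit
 0), (1, 35, 20), [166, 3595], 0⟩,
  mz,
  mz,
  mz,
  ⟨⟨33, -8, -53, -20, 27, -20, 30, 24, -13⟩, (.cons (nat_lit 49) (nat_lit 52) (nat_lit 143) (nat_lit 1) (.cons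
 (nat_lit 3240) (nat_lit 4632) (nat_lit 4159) (nat_lit 1) .nil)), (nat_lit 36), (nat_lit 0), (nat_lit 0),
 (nat_lit 0), (39, 35, 12), [79, 2636], 0⟩,
  ⟨⟨15, 44, 1, 20, -13, 30, 34, 8, -35⟩, (.cons (nat_lit 154) (nat_lit 50) (nat_lit 139) (nat_lit 1) (.cons
 (nat_lit 1179) (nat_lit 1471) (nat_lit 3624) (nat_lit 1) .nil)), (nat_lit 17), (nat_lit 0), (nat_lit 0),
 (nat_lit 0), (28, 23, 9), [142, 808], 0⟩,
  mz,
  ⟨⟨-21, -20, 52, -38, 15, 4, -12, -36, -1⟩, (.cons (nat_lit 151) (nat_lit 114) (nat_lit 48) (nat_lit 1) (.cons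
 (nat_lit 4057) (nat_lit 3956) (nat_lit 960) (nat_lit 1) .nil)), (nat_lit 38), (nat_lit 0), (nat_lit 0),
 (nat_lit 0), (8, 37, 23), [23, 2572], 0⟩,
  ⟨⟨-47, 0, 27, 0, -43, 0, -18, 0, -29⟩, (.cons (nat_lit 85) (nat_lit 82) (nat_lit 16) (nat_lit 1) (.cons (nat_lit 1729) (nat_lit 716) (nat_lit 2157) (nat_lit 1) .nil)), (nat_lit 9), (nat_lit 0), (nat_lit 0), (nat_lit 0), (34, 0, 24), [33, 850], 0⟩,
  ⟨⟨39, -16, -43, 20, 37, 0, 2, 8, -43⟩, (.cons (nat_lit 147) (nat_lit 46) (nat_lit 27) (nat_lit 1) (.cons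
 (nat_lit 120) (nat_lit 4440) (nat_lit 4623) (nat_lit 1) .nil)), (nat_lit 8), (nat_lit 0), (nat_lit 0),
 (nat_lit 0), (6, 13, 40), [103, 4433], 0⟩,
  ⟨⟨33, -8, 20, 20, -27, -40, 30, 24, -17⟩, (.cons (nat_lit 87) (nat_lit 144) (nat_lit 68) (nat_lit 1) (.cons
 (nat_lit 752) (nat_lit 3747) (nat_lit 3682) (nat_lit 1) .nil)), (nat_lit 13), (nat_lit 0), (nat_lit 0),
 (nat_lit 0), (11, 21, 10), [115, 4653], 0⟩,
  ⟨⟨-39, 16, -4, -20, -37, 20, -2, -8, -41⟩, (.cons (nat_lit 24) (nat_lit 134) (nat_lit 61) (nat_lit 1) (.cons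
 (nat_lit 4425) (nat_lit 3068) (nat_lit 1415) (nat_lit 1) .nil)), (nat_lit 8), (nat_lit 0), (nat_lit 0),
 (nat_lit 0), (35, 40, 4), [113, 472], 0⟩,
  ⟨⟨3, -44, -20, -2, 15, -44, 36, -12, -25⟩, (.cons (nat_lit 122) (nat_lit 119) (nat_lit 59) (nat_lit 1) (.cons
 (nat_lit 2833) (nat_lit 3836) (nat_lit 2460) (nat_lit 1) .nil)), (nat_lit 33), (nat_lit 0), (nat_lit 0),
 (nat_lit 0), (10, 22, 34), [107, 4050], 0⟩,
  ⟨⟨-15, -44, 16, -20, 13, 50, -34, -8, -1⟩, (.cons (nat_lit 24) (nat_lit 111) (nat_lit 131) (nat_lit 1) (.cons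
 (nat_lit 3296) (nat_lit 3659) (nat_lit 1170) (nat_lit 1) .nil)), (nat_lit 17), (nat_lit 0), (nat_lit 0),
 (nat_lit 0), (2, 17, 16), [55, 3528], 0⟩,
  mz,
  mz,
  ⟨⟨33, 32, -28, 2, -15, -46, 36, -12, -11⟩, (.cons (nat_lit 112) (nat_lit 38) (nat_lit 105) (nat_lit 1) (.cons
 (nat_lit 223) (nat_lit 947) (nat_lit 2537) (nat_lit 1) .nil)), (nat_lit 21), (nat_lit 0), (nat_lit 0),
 (nat_lit 0), (34, 19, 41), [120, 4457], 0⟩]

/-- Moves. -/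
noncomputable def t4_5 : List Mv := [
  mz,
  ⟨⟨3, 44, -20, -2, -15, -44, 36, 12, -25⟩, (.cons (nat_lit 57) (nat_lit 168) (nat_lit 2) (nat_lit 1) (.cons
 (nat_lit 1741) (nat_lit 195) (nat_lit 3695) (nat_lit 1) .nil)), (nat_lit 33), (nat_lit 0), (nat_lit 0),
 (nat_lit 0), (36, 19, 2), [167, 1341], 0⟩,
  mz,
  mz,
  ⟨⟨19, 36, -36, -20, -13, -30, 34, -8, -35⟩, (.cons (nat_lit 46) (nat_lit 165) (nat_lit 110) (nat_lit 1)
 (.cons (nat_lit 4814) (nat_lit 3099) (nat_lit 2319) (nat_lit 1) .nil)), (nat_lit 18), (nat_lit 0), (nat_lit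
 0), (nat_lit 0), (14, 26, 16), [58, 4321], 0⟩,
  ⟨⟨33, -32, -28, 2, 15, -46, 36, 12, -11⟩, (.cons (nat_lit 151) (nat_lit 113) (nat_lit 6) (nat_lit 1) (.cons
 (nat_lit 3882) (nat_lit 4654) (nat_lit 1616) (nat_lit 1) .nil)), (nat_lit 21), (nat_lit 0), (nat_lit 0),
 (nat_lit 0), (19, 22, 9), [154, 3735], 0⟩,
  ⟨⟨-37, -24, 0, 20, -37, 0, 2, -8, -43⟩, (.cons (nat_lit 154) (nat_lit 116) (nat_lit 68) (nat_lit 1) (.cons
 (nat_lit 4780) (nat_lit 2405) (nat_lit 1949) (nat_lit 1) .nil)), (nat_lit 35), (nat_lit 0), (nat_lit 0),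
 (nat_lit 0), (12, 40, 4), [139, 2673], 0⟩,
  ⟨⟨33, 8, -53, -20, -27, -20, 30, -24, -13⟩, (.cons (nat_lit 133) (nat_lit 43) (nat_lit 12) (nat_lit 1) (.cons
 (nat_lit 1072) (nat_lit 2194) (nat_lit 2530) (nat_lit 1) .nil)), (nat_lit 36), (nat_lit 0), (nat_lit 0),
 (nat_lit 0), (32, 21, 33), [76, 3265], 0⟩,
  ⟨⟨37, 24, -37, -20, 37, 20, -2, 8, -41⟩, (.cons (nat_lit 23) (nat_lit 125) (nat_lit 55) (nat_lit 1) (.cons
 (nat_lit 4999) (nat_lit 5004) (nat_lit 2608) (nat_lit 1) .nil)), (nat_lit 35), (nat_lit 0), (nat_lit 0),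
 (nat_lit 0), (34, 13, 40), [69, 1221], 0⟩,
  ⟨⟨47, 0, -20, 0, 43, 0, 18, 0, -47⟩, (.cons (nat_lit 168) (nat_lit 154) (nat_lit 107) (nat_lit 1) (.cons
 (nat_lit 5040) (nat_lit 3309) (nat_lit 4319) (nat_lit 1) .nil)), (nat_lit 9), (nat_lit 0), (nat_lit 0),
 (nat_lit 0), (34, 0, 24), [149, 4409], 0⟩,
  ⟨⟨21, -20, 31, 38, 15, -34, 12, -36, -13⟩, (.cons (nat_lit 37) (nat_lit 150) (nat_lit 149) (nat_lit 1) (.cons
 (nat_lit 2029) (nat_lit 2026) (nat_lit 2535) (nat_lit 1) .nil)), (nat_lit 38), (nat_lit 0), (nat_lit 0),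
 (nat_lit 0), (8, 37, 23), [46, 1411], 0⟩,
  mz,
  ⟨⟨-15, 44, 16, -20, -13, 50, -34, 8, -1⟩, (.cons (nat_lit 145) (nat_lit 166) (nat_lit 136) (nat_lit 1) (.cons
 (nat_lit 360) (nat_lit 3127) (nat_lit 4432) (nat_lit 1) .nil)), (nat_lit 17), (nat_lit 0), (nat_lit 0),
 (nat_lit 0), (28, 23, 9), [50, 3939], 0⟩,
  ⟨⟨-3, -32, -37, 20, 27, -40, 30, -24, -17⟩, (.cons (nat_lit 35) (nat_lit 90) (nat_lit 103) (nat_lit 1) (.cons
 (nat_lit 2262) (nat_lit 739) (nat_lit 3803) (nat_lit 1) .nil)), (nat_lit 30), (nat_lit 0), (nat_lit 0),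
 (nat_lit 0), (27, 35, 31), [45, 1449], 0⟩,
  mz,
  mz,
  mz,
  ⟨⟨9, -4, -56, -40, 13, 10, 14, 32, -25⟩, (.cons (nat_lit 162) (nat_lit 101) (nat_lit 72) (nat_lit 1) (.cons
 (nat_lit 5015) (nat_lit 4396) (nat_lit 174) (nat_lit 1) .nil)), (nat_lit 39), (nat_lit 0), (nat_lit 0),
 (nat_lit 0), (19, 35, 20), [160, 535], 0⟩,
  ⟨⟨-5, -36, 36, 40, -13, -30, -14, -32, -11⟩, (.cons (nat_lit 158) (nat_lit 125) (nat_lit 27) (nat_lit 1)
 (.cons (nat_lit 644) (nat_lit 480) (nat_lit 3741) (nat_lit 1) .nil)), (nat_lit 4), (nat_lit 0), (nat_lit 0),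
 (nat_lit 0), (11, 41, 5), [89, 3797], 0⟩,
  mz,
  mz,
  ⟨⟨-9, 16, -44, -38, 15, 34, 12, 36, -13⟩, (.cons (nat_lit 83) (nat_lit 57) (nat_lit 73) (nat_lit 1) (.cons
 (nat_lit 4182) (nat_lit 1872) (nat_lit 1571) (nat_lit 1) .nil)), (nat_lit 42), (nat_lit 0), (nat_lit 0),
 (nat_lit 0), (1, 9, 13), [68, 2701], 0⟩,
  ⟨⟨-21, 20, 52, 38, 15, -4, -12, 36, -1⟩, (.cons (nat_lit 93) (nat_lit 35) (nat_lit 133) (nat_lit 1) (.cons
 (nat_lit 2057) (nat_lit 2479) (nat_lit 3115) (nat_lit 1) .nil)), (nat_lit 1), (nat_lit 0), (nat_lit 0),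
 (nat_lit 0), (12, 9, 13), [43, 3769], 0⟩,
  mz,
  mz,
  ⟨⟨9, 4, -56, 40, 13, -10, 14, -32, -25⟩, (.cons (nat_lit 62) (nat_lit 11) (nat_lit 3) (nat_lit 1) (.cons
 (nat_lit 4586) (nat_lit 2799) (nat_lit 4718) (nat_lit 1) .nil)), (nat_lit 12), (nat_lit 0), (nat_lit 0),
 (nat_lit 0), (37, 2, 5), [64, 4759], 0⟩,
  ⟨⟨-9, -4, -47, 40, 13, -30, -14, 32, -11⟩, (.cons (nat_lit 14) (nat_lit 132) (nat_lit 167) (nat_lit 1) (.cons
 (nat_lit 2900) (nat_lit 5030) (nat_lit 3533) (nat_lit 1) .nil)), (nat_lit 39), (nat_lit 0), (nat_lit 0),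
 (nat_lit 0), (19, 35, 20), [45, 3828], 0⟩,
  mz,
  mz,
  mz,
  ⟨⟨-3, 32, 40, 20, -27, 20, 30, 24, -13⟩, (.cons (nat_lit 104) (nat_lit 142) (nat_lit 1) (nat_lit 65) (.cons
 (nat_lit 5040) (nat_lit 2885) (nat_lit 1289) (nat_lit 1) .nil)), (nat_lit 30), (nat_lit 0), (nat_lit 0),
 (nat_lit 0), (16, 8, 12), [147, 3664], 0⟩,
  ⟨⟨15, 44, 1, 20, -13, 30, 34, 8, -35⟩, (.cons (nat_lit 154) (nat_lit 50) (nat_lit 139) (nat_lit 1) (.cons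
 (nat_lit 1179) (nat_lit 1471) (nat_lit 3624) (nat_lit 1) .nil)), (nat_lit 17), (nat_lit 0), (nat_lit 0),
 (nat_lit 0), (28, 23, 9), [142, 808], 0⟩,
  mz,
  ⟨⟨-21, -20, 52, 38, -15, -4, -12, -36, -1⟩, (.cons (nat_lit 86) (nat_lit 86) (nat_lit 166) (nat_lit 1) (.cons
 (nat_lit 1468) (nat_lit 1077) (nat_lit 4897) (nat_lit 1) .nil)), (nat_lit 1), (nat_lit 0), (nat_lit 0),
 (nat_lit 0), (8, 6, 23), [80, 2868], 0⟩,
  ⟨⟨-47, 0, 27, 0, -43, 0, -18, 0, -29⟩, (.cons (nat_lit 85) (nat_lit 82) (nat_lit 16) (nat_lit 1) (.cons (nat_lit 1729) (nat_lit 716) (nat_lit 2157) (nat_lit 1) .nil)), (nat_lit 9), (nat_lit 0), (nat_lit 0), (nat_lit 0), (34, 0, 24), [33, 850], 0⟩,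
  ⟨⟨-37, 24, 0, -20, -37, 0, 2, 8, -43⟩, (.cons (nat_lit 45) (nat_lit 19) (nat_lit 151) (nat_lit 1) (.cons
 (nat_lit 4365) (nat_lit 2578) (nat_lit 1823) (nat_lit 1) .nil)), (nat_lit 6), (nat_lit 0), (nat_lit 0),
 (nat_lit 0), (34, 30, 40), [90, 2056], 0⟩,
  ⟨⟨-3, 32, -37, -20, 27, 40, 30, 24, -17⟩, (.cons (nat_lit 61) (nat_lit 81) (nat_lit 113) (nat_lit 1) (.cons
 (nat_lit 3682) (nat_lit 2415) (nat_lit 308) (nat_lit 1) .nil)), (nat_lit 7), (nat_lit 0), (nat_lit 0),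
 (nat_lit 0), (42, 22, 10), [110, 2940], 0⟩,
  ⟨⟨-39, 16, -4, 20, 37, -20, -2, -8, -41⟩, (.cons (nat_lit 168) (nat_lit 100) (nat_lit 135) (nat_lit 1) (.cons
 (nat_lit 5040) (nat_lit 898) (nat_lit 4717) (nat_lit 1) .nil)), (nat_lit 37), (nat_lit 0), (nat_lit 0),
 (nat_lit 0), (35, 3, 4), [141, 4172], 0⟩,
  ⟨⟨3, -44, -20, -2, 15, -44, 36, -12, -25⟩, (.cons (nat_lit 122) (nat_lit 119) (nat_lit 59) (nat_lit 1) (.cons
 (nat_lit 2833) (nat_lit 3836) (nat_lit 2460) (nat_lit 1) .nil)), (nat_lit 33), (nat_lit 0), (nat_lit 0),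
 (nat_lit 0), (10, 22, 34), [107, 4050], 0⟩,
  ⟨⟨-19, 36, -17, -20, 13, 50, -34, -8, -1⟩, (.cons (nat_lit 157) (nat_lit 63) (nat_lit 145) (nat_lit 1) (.cons
 (nat_lit 3892) (nat_lit 2484) (nat_lit 1412) (nat_lit 1) .nil)), (nat_lit 26), (nat_lit 0), (nat_lit 0),
 (nat_lit 0), (14, 17, 16), [58, 903], 0⟩,
  mz,
  mz,
  ⟨⟨33, 32, -28, 2, -15, -46, 36, -12, -11⟩, (.cons (nat_lit 112) (nat_lit 38) (nat_lit 105) (nat_lit 1) (.cons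
 (nat_lit 223) (nat_lit 947) (nat_lit 2537) (nat_lit 1) .nil)), (nat_lit 21), (nat_lit 0), (nat_lit 0),
 (nat_lit 0), (34, 19, 41), [120, 4457], 0⟩]

/-- All the moves. -/
noncomputable def tabs : List (List (List Mv)) := [[[], [], t0_2, [], t0_4, t0_5], [[], [], t1_2, [], t1_4, t1_5], [], [], [[], [], t4_2, [], t4_4, t4_5]]

/-- Subtrie. -/
noncomputable def T2 : Tr := (.ev (nat_lit 20) (nat_lit 695856010480) (.nd (nat_lit 33) (.br (nat_lit 39) (.br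
 (nat_lit 19) (.br (nat_lit 8) (.br (nat_lit 4) (.br (nat_lit 3) (.ch (nat_lit 1) (.ev (nat_lit 52) (nat_lit
 4400229777664) (.ev (nat_lit 84) (nat_lit 274877906944) (.ev (nat_lit 180) (nat_lit 68719476736) (.ev (nat_lit
 468) (nat_lit 262144) (.ev (nat_lit 756) (nat_lit 2) (.nd (nat_lit 1696) (.br (nat_lit 6) (.br (nat_lit 4)
 (.ch (nat_lit 1) (.ev (nat_lit 1712) (nat_lit 51539615744) (.ev (nat_lit 1824) (nat_lit 512) (.ev (nat_lit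
 1837) (nat_lit 1073741824) .dd)))) (.br (nat_lit 5) (.ch (nat_lit 4) (.ev (nat_lit 1712) (nat_lit 51539616256)
 (.ev (nat_lit 1725) (nat_lit 1073741824) .dd))) (.ch (nat_lit 5) (.ev (nat_lit 1712) (nat_lit 51539616256)
 (.ev (nat_lit 1725) (nat_lit 1073741824) .dd))))) (.br (nat_lit 9) (.ch (nat_lit 6) (.ev (nat_lit 1712)
 (nat_lit 1073750528) (.ev (nat_lit 1728) (nat_lit 51539607552) .dd))) (.br (nat_lit 12) (.ch (nat_lit 9) (.ev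
 (nat_lit 1712) (nat_lit 52613349376) (.ev (nat_lit 1892) (nat_lit 8192) (.ev (nat_lit 1901) (nat_lit 512)
 .dd)))) (.ch (nat_lit 12) (.ev (nat_lit 1712) (nat_lit 52613358080) .dd)))))))))))) (.ch (nat_lit 3) (.ev
 (nat_lit 52) (nat_lit 4758857450242) (.ev (nat_lit 1024) (nat_lit 37583331328) .dd)))) (.br (nat_lit 5) (.ch
 (nat_lit 4) (.ev (nat_lit 52) (nat_lit 326417514498) (.ev (nat_lit 160) (nat_lit 4470023267072) .dd))) (.br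
 (nat_lit 7) (.ch (nat_lit 5) (.ev (nat_lit 52) (nat_lit 4727687348482) (.ev (nat_lit 244) (nat_lit 262144)
 (.ev (nat_lit 1472) (nat_lit 512) (.nd (nat_lit 1696) (.br (nat_lit 5) (.br (nat_lit 1) (.ch (nat_lit 0) (.ev
 (nat_lit 1712) (nat_lit 68753170432) .dd)) (.br (nat_lit 2) (.ch (nat_lit 1) (.ev (nat_lit 1712) (nat_lit
 68719607808) (.ev (nat_lit 1892) (nat_lit 8192) (.ev (nat_lit 1901) (nat_lit 33554432) .dd)))) (.ch (nat_lit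
 2) (.ev (nat_lit 1712) (nat_lit 68753031168) (.ev (nat_lit 1760) (nat_lit 8192) (.ev (nat_lit 1773) (nat_lit
 131072) .dd)))))) (.br (nat_lit 10) (.ch (nat_lit 5) (.ev (nat_lit 1712) (nat_lit 8192) (.ev (nat_lit 1728)
 (nat_lit 68719476736) (.ev (nat_lit 1760) (nat_lit 33554432) (.ev (nat_lit 1773) (nat_lit 131072) .dd)))))
 (.br (nat_lit 12) (.ch (nat_lit 10) (.ev (nat_lit 1712) (nat_lit 33693696) (.ev (nat_lit 1725) (nat_lit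
 68719476736) .dd))) (.ch (nat_lit 12) (.ev (nat_lit 1712) (nat_lit 68753039360) (.ev (nat_lit 1725) (nat_lit
 131072) .dd))))))))))) (.ch (nat_lit 7) (.ev (nat_lit 52) (nat_lit 4707317719298) (.ev (nat_lit 596) (nat_lit
 512) (.ev (nat_lit 724) (nat_lit 2097152) (.ev (nat_lit 788) (nat_lit 131072) (.ev (nat_lit 1332) (nat_lit
 262144) (.nd (nat_lit 1696) (.br (nat_lit 6) (.br (nat_lit 1) (.ch (nat_lit 0) (.ev (nat_lit 1712) (nat_lit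
 69793218560) (.ev (nat_lit 1728) (nat_lit 2147483648) (.ev (nat_lit 1741) (nat_lit 17179869184) .dd)))) (.br
 (nat_lit 2) (.ch (nat_lit 1) (.ev (nat_lit 1712) (nat_lit 70866960384) (.ev (nat_lit 1892) (nat_lit
 1073741824) (.ev (nat_lit 1901) (nat_lit 17179869184) .dd)))) (.ch (nat_lit 2) (.ev (nat_lit 1712) (nat_lit
 86973087744) (.ev (nat_lit 1725) (nat_lit 2147483648) .dd))))) (.br (nat_lit 10) (.br (nat_lit 9) (.ch
 (nat_lit 6) (.ev (nat_lit 1712) (nat_lit 89120571392) .dd)) (.ch (nat_lit 9) (.ev (nat_lit 1712) (nat_lit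
 70866960384) (.ev (nat_lit 1892) (nat_lit 1073741824) (.ev (nat_lit 1901) (nat_lit 17179869184) .dd))))) (.br
 (nat_lit 12) (.ch (nat_lit 10) (.ev (nat_lit 1712) (nat_lit 20401094656) (.ev (nat_lit 1725) (nat_lit
 68719476736) .dd))) (.ch (nat_lit 12) (.ev (nat_lit 1712) (nat_lit 88046829568) (.ev (nat_lit 1725) (nat_lit
 1073741824) .dd)))))))))))))))) (.br (nat_lit 15) (.br (nat_lit 11) (.ch (nat_lit 8) (.ev (nat_lit 52)
 (nat_lit 4401270104832) (.ev (nat_lit 628) (nat_lit 34359738368) (.nd (nat_lit 1696) (.br (nat_lit 9) (.br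
 (nat_lit 5) (.ch (nat_lit 0) (.ev (nat_lit 1712) (nat_lit 343597514754) (.ev (nat_lit 1760) (nat_lit
 17213423616) .dd))) (.br (nat_lit 6) (.ch (nat_lit 5) (.ev (nat_lit 1712) (nat_lit 360810807298) (.ev (nat_lit
 1725) (nat_lit 131072) .dd))) (.ch (nat_lit 6) (.ev (nat_lit 1712) (nat_lit 33685504) (.ev (nat_lit 1728)
 (nat_lit 68719476736) (.ev (nat_lit 1892) (nat_lit 17179869186) (.ev (nat_lit 1901) (nat_lit 274877906944)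
 .dd))))))) (.br (nat_lit 10) (.ch (nat_lit 9) (.ev (nat_lit 1712) (nat_lit 85899476994) (.fin (nat_lit
 576474496186663492)))) (.br (nat_lit 12) (.ch (nat_lit 10) (.ev (nat_lit 1712) (nat_lit 17213554690) (.ev
 (nat_lit 1892) (nat_lit 68719476736) (.ev (nat_lit 1901) (nat_lit 274877906944) .dd)))) (.ch (nat_lit 12) (.ev
 (nat_lit 1712) (nat_lit 360777252864) (.ev (nat_lit 1744) (nat_lit 131072) (.ev (nat_lit 1808) (nat_lit
 33554434) .dd))))))))))) (.br (nat_lit 12) (.ch (nat_lit 11) (.ev (nat_lit 52) (nat_lit 4741643895552) (.ev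
 (nat_lit 148) (nat_lit 2) (.ev (nat_lit 544) (nat_lit 54796886016) .dd)))) (.ch (nat_lit 12) (.ev (nat_lit 52)
 (nat_lit 4433513677314) (.ev (nat_lit 564) (nat_lit 17179869184) (.ev (nat_lit 1396) (nat_lit 8192) (.nd
 (nat_lit 1696) (.br (nat_lit 6) (.br (nat_lit 2) (.ch (nat_lit 0) (.ev (nat_lit 1712) (nat_lit 345745129728)
 (.ev (nat_lit 1725) (nat_lit 2097152) .dd))) (.br (nat_lit 5) (.ch (nat_lit 2) (.ev (nat_lit 1712) (nat_lit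
 2359552) (.ev (nat_lit 1728) (nat_lit 2147483648) (.ev (nat_lit 1892) (nat_lit 68719476736) (.ev (nat_lit
 1901) (nat_lit 274877906944) .dd))))) (.ch (nat_lit 5) (.ev (nat_lit 1712) (nat_lit 277027750144) (.ev
 (nat_lit 1725) (nat_lit 68719476736) .dd))))) (.br (nat_lit 9) (.ch (nat_lit 6) (.ev (nat_lit 1712) (nat_lit
 2147483904) (.ev (nat_lit 1728) (nat_lit 274877906944) (.ev (nat_lit 1824) (nat_lit 262144) (.ev (nat_lit
 1892) (nat_lit 2097152) (.ev (nat_lit 1901) (nat_lit 68719476736) .dd)))))) (.br (nat_lit 12) (.ch (nat_lit 9)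
 (.ev (nat_lit 1712) (nat_lit 345747226880) .dd)) (.ch (nat_lit 12) (.ev (nat_lit 1712) (nat_lit 345746964480)
 (.ev (nat_lit 1760) (nat_lit 256) (.ev (nat_lit 1773) (nat_lit 262144) .dd)))))))))))))) (.br (nat_lit 16)
 (.ch (nat_lit 15) (.ev (nat_lit 52) (nat_lit 4415228748034) (.ev (nat_lit 116) (nat_lit 131072) (.ev (nat_lit
 212) (nat_lit 274877906944) (.ev (nat_lit 596) (nat_lit 34359738368) (.ev (nat_lit 660) (nat_lit 1073741824)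
 (.nd (nat_lit 1696) (.br (nat_lit 5) (.br (nat_lit 2) (.ch (nat_lit 1) (.ev (nat_lit 1712) (nat_lit
 2181038080) (.ev (nat_lit 1958) (nat_lit 68719477248) .dd))) (.br (nat_lit 4) (.ch (nat_lit 2) (.ev (nat_lit
 1712) (nat_lit 70900515328) .dd)) (.ch (nat_lit 4) (.ev (nat_lit 1712) (nat_lit 68753031680) (.ev (nat_lit
 1725) (nat_lit 2147483648) .dd))))) (.br (nat_lit 9) (.ch (nat_lit 5) (.ev (nat_lit 1712) (nat_lit
 68719477248) (.fin (nat_lit 576474496205537852)))) (.br (nat_lit 12) (.ch (nat_lit 9) (.ev (nat_lit 1712)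
 (nat_lit 70900514816) (.ev (nat_lit 1725) (nat_lit 512) .dd))) (.ch (nat_lit 12) (.ev (nat_lit 1712) (nat_lit
 70866960896) (.ev (nat_lit 1725) (nat_lit 33554432) .dd))))))))))))) (.br (nat_lit 18) (.ch (nat_lit 16) (.ev
 (nat_lit 52) (nat_lit 4401303396610) (.ev (nat_lit 788) (nat_lit 512) (.ev (nat_lit 1012) (nat_lit
 274877906944) (.nd (nat_lit 1696) (.br (nat_lit 6) (.br (nat_lit 5) (.ch (nat_lit 2) (.ev (nat_lit 1712)
 (nat_lit 120259215360) (.ev (nat_lit 1725) (nat_lit 262144) .dd))) (.ch (nat_lit 5) (.ev (nat_lit 1712)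
 (nat_lit 131072) (.ev (nat_lit 1792) (nat_lit 68719476736) (.ev (nat_lit 1892) (nat_lit 17180131328) (.ev
 (nat_lit 1901) (nat_lit 34359738368) .dd)))))) (.br (nat_lit 9) (.ch (nat_lit 6) (.ev (nat_lit 1712) (nat_lit
 51539738624) (.ev (nat_lit 1892) (nat_lit 262144) (.ev (nat_lit 1901) (nat_lit 68719476736) .dd)))) (.br
 (nat_lit 12) (.ch (nat_lit 9) (.ev (nat_lit 1712) (nat_lit 103079608320) (.ev (nat_lit 1725) (nat_lit
 17179869184) .dd))) (.ch (nat_lit 12) (.ev (nat_lit 1712) (nat_lit 120259346432) (.ev (nat_lit 1725) (nat_lit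
 131072) .dd))))))))))) (.ch (nat_lit 18) (.ev (nat_lit 52) (nat_lit 4672960078082) (.ev (nat_lit 340) (nat_lit
 131072) (.ev (nat_lit 404) (nat_lit 2147483648) (.ev (nat_lit 596) (nat_lit 1073741824) (.ev (nat_lit 628)
 (nat_lit 512) (.ev (nat_lit 1012) (nat_lit 34359738368) (.nd (nat_lit 1696) (.br (nat_lit 5) (.br (nat_lit 2)
 (.ch (nat_lit 1) (.ev (nat_lit 1712) (nat_lit 17180131328) (.ev (nat_lit 1725) (nat_lit 68719476736) .dd)))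
 (.br (nat_lit 4) (.ch (nat_lit 2) (.ev (nat_lit 1712) (nat_lit 17180131328) (.ev (nat_lit 1725) (nat_lit
 68719476736) .dd))) (.ch (nat_lit 4) (.ev (nat_lit 1712) (nat_lit 85899345920) (.ev (nat_lit 1725) (nat_lit
 262144) .dd))))) (.br (nat_lit 6) (.ch (nat_lit 5) (.ev (nat_lit 1744) (nat_lit 68719738880) (.ev (nat_lit
 1757) (nat_lit 17179869184) .dd))) (.br (nat_lit 10) (.ch (nat_lit 6) (.ev (nat_lit 1712) (nat_lit
 68719738880) (.ev (nat_lit 1725) (nat_lit 17179869184) .dd))) (.ch (nat_lit 10) (.ev (nat_lit 1712) (nat_lit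
 85899608064) .dd))))))))))))))))) (.br (nat_lit 29) (.br (nat_lit 23) (.br (nat_lit 22) (.ch (nat_lit 19) (.ev
 (nat_lit 52) (nat_lit 4451735970048) (.ev (nat_lit 84) (nat_lit 1073741824) (.ev (nat_lit 660) (nat_lit
 274877906944) (.nd (nat_lit 1696) (.br (nat_lit 9) (.br (nat_lit 4) (.ch (nat_lit 0) (.ev (nat_lit 1712)
 (nat_lit 68719608322) (.ev (nat_lit 1725) (nat_lit 33554432) .dd))) (.br (nat_lit 6) (.ch (nat_lit 4) (.ev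
 (nat_lit 1712) (nat_lit 68753031682) (.ev (nat_lit 1725) (nat_lit 131072) .dd))) (.ch (nat_lit 6) (.ev
 (nat_lit 1712) (nat_lit 68753162242) (.ev (nat_lit 1725) (nat_lit 512) .dd))))) (.br (nat_lit 10) (.ch
 (nat_lit 9) (.ev (nat_lit 1712) (nat_lit 68753162754) .dd)) (.br (nat_lit 12) (.ch (nat_lit 10) (.ev (nat_lit
 1712) (nat_lit 33554432) (.ev (nat_lit 1892) (nat_lit 68719477248) (.fin (nat_lit 576448107907596860))))) (.ch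
 (nat_lit 12) (.ev (nat_lit 1712) (nat_lit 68753031682) (.ev (nat_lit 1725) (nat_lit 131072) .dd)))))))))))
 (.ch (nat_lit 22) (.ev (nat_lit 52) (nat_lit 4710505783298) (.ev (nat_lit 756) (nat_lit 512) (.ev (nat_lit
 916) (nat_lit 256) (.nd (nat_lit 1696) (.br (nat_lit 6) (.br (nat_lit 2) (.ch (nat_lit 1) (.ev (nat_lit 1712)
 (nat_lit 17181966336) (.ev (nat_lit 1892) (nat_lit 33554432) (.ev (nat_lit 1901) (nat_lit 68719476736) .dd))))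
 (.br (nat_lit 4) (.ch (nat_lit 2) (.ev (nat_lit 1712) (nat_lit 17215520768) (.ev (nat_lit 1725) (nat_lit
 68719476736) .dd))) (.ch (nat_lit 4) (.ev (nat_lit 1712) (nat_lit 68755128320) (.ev (nat_lit 1725) (nat_lit
 17179869184) .dd))))) (.br (nat_lit 9) (.ch (nat_lit 6) (.ev (nat_lit 1712) (nat_lit 85932900352) (.ev
 (nat_lit 1725) (nat_lit 2097152) .dd))) (.br (nat_lit 10) (.ch (nat_lit 9) (.ev (nat_lit 1712) (nat_lit
 85899345920) (.ev (nat_lit 1792) (nat_lit 35651584) .dd))) (.ch (nat_lit 10) (.ev (nat_lit 1712) (nat_lit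
 68755128320) (.ev (nat_lit 1725) (nat_lit 17179869184) .dd)))))))))))) (.br (nat_lit 24) (.ch (nat_lit 23)
 (.ev (nat_lit 52) (nat_lit 122408927232) (.ev (nat_lit 84) (nat_lit 131072) (.ev (nat_lit 116) (nat_lit 512)
 (.ev (nat_lit 340) (nat_lit 4398046511104) (.ev (nat_lit 628) (nat_lit 2) (.nd (nat_lit 1696) (.br (nat_lit 6)
 (.br (nat_lit 4) (.ch (nat_lit 2) (.ev (nat_lit 1712) (nat_lit 1107304704) (.ev (nat_lit 1725) (nat_lit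
 274877906944) .dd))) (.br (nat_lit 5) (.ch (nat_lit 4) (.ev (nat_lit 1712) (nat_lit 1107304704) (.ev (nat_lit
 1725) (nat_lit 274877906944) .dd))) (.ch (nat_lit 5) (.ev (nat_lit 1712) (nat_lit 274911469824) (.ev (nat_lit
 1725) (nat_lit 1073741824) .dd))))) (.br (nat_lit 9) (.ch (nat_lit 6) (.ev (nat_lit 1712) (nat_lit
 275985211648) .dd)) (.br (nat_lit 10) (.ch (nat_lit 9) (.ev (nat_lit 1712) (nat_lit 1073741824) (.ev (nat_lit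
 1892) (nat_lit 8448) (.fin (nat_lit 576474496186663492))))) (.ch (nat_lit 10) (.ev (nat_lit 1712) (nat_lit
 275985211392) (.ev (nat_lit 1725) (nat_lit 256) .dd))))))))))))) (.br (nat_lit 26) (.ch (nat_lit 24) (.ev
 (nat_lit 52) (nat_lit 37616747266) (.ev (nat_lit 820) (nat_lit 262144) (.ev (nat_lit 1216) (nat_lit
 4758823772160) .dd)))) (.ch (nat_lit 26) (.ev (nat_lit 52) (nat_lit 4452807475712) (.ev (nat_lit 84) (nat_lit
 2097152) (.ev (nat_lit 308) (nat_lit 68719476736) (.ev (nat_lit 1152) (nat_lit 274911731970) .dd)))))))) (.br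
 (nat_lit 34) (.br (nat_lit 31) (.ch (nat_lit 29) (.ev (nat_lit 52) (nat_lit 310344950018) (.ev (nat_lit 340)
 (nat_lit 2097152) (.ev (nat_lit 960) (nat_lit 4486093734400) .dd)))) (.br (nat_lit 33) (.ch (nat_lit 31) (.ev
 (nat_lit 52) (nat_lit 327527170816) (.ev (nat_lit 1184) (nat_lit 4468913610754) .dd))) (.ch (nat_lit 33) (.ev
 (nat_lit 52) (nat_lit 4777077768194) (.ev (nat_lit 852) (nat_lit 33554432) (.ev (nat_lit 1236) (nat_lit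
 17179869184) (.nd (nat_lit 1696) (.br (nat_lit 2) (.br (nat_lit 1) (.ch (nat_lit 0) (.ev (nat_lit 1712)
 (nat_lit 2149581056) (.ev (nat_lit 1744) (nat_lit 512) (.ev (nat_lit 1757) (nat_lit 8192) .dd)))) (.ch
 (nat_lit 1) (.ev (nat_lit 1712) (nat_lit 2149580800) (.ev (nat_lit 1792) (nat_lit 8192) (.ev (nat_lit 1892)
 (nat_lit 256) (.ev (nat_lit 1901) (nat_lit 512) .dd)))))) (.br (nat_lit 4) (.ch (nat_lit 2) (.ev (nat_lit
 1712) (nat_lit 2106112) (.ev (nat_lit 1725) (nat_lit 2147483648) .dd))) (.br (nat_lit 10) (.ch (nat_lit 4)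
 (.ev (nat_lit 1712) (nat_lit 8704) (.ev (nat_lit 1872) (nat_lit 2097152) (.ev (nat_lit 1892) (nat_lit 256)
 (.ev (nat_lit 1901) (nat_lit 2147483648) .dd))))) (.ch (nat_lit 10) (.ev (nat_lit 1712) (nat_lit 2105344) (.ev
 (nat_lit 1892) (nat_lit 256) (.fin (nat_lit 576456904017396268))))))))))))))) (.br (nat_lit 36) (.ch (nat_lit
 34) (.ev (nat_lit 52) (nat_lit 105227091970) (.ev (nat_lit 468) (nat_lit 256) (.ev (nat_lit 672) (nat_lit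
 4691213689344) .dd)))) (.br (nat_lit 38) (.ch (nat_lit 36) (.ev (nat_lit 52) (nat_lit 4467841827328) (.ev
 (nat_lit 212) (nat_lit 34359738368) (.ev (nat_lit 276) (nat_lit 262400) (.ev (nat_lit 468) (nat_lit 8192) (.ev
 (nat_lit 1268) (nat_lit 33554432) (.nd (nat_lit 1696) (.br (nat_lit 9) (.br (nat_lit 6) (.ch (nat_lit 5) (.ev
 (nat_lit 1712) (nat_lit 274877906946) (.ev (nat_lit 1872) (nat_lit 2147483648) (.ev (nat_lit 1892) (nat_lit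
 131072) (.ev (nat_lit 1901) (nat_lit 17179869184) .dd))))) (.ch (nat_lit 6) (.ev (nat_lit 1712) (nat_lit
 19327483904) (.ev (nat_lit 1744) (nat_lit 2) (.ev (nat_lit 1757) (nat_lit 274877906944) .dd))))) (.br (nat_lit
 10) (.ch (nat_lit 9) (.ev (nat_lit 1712) (nat_lit 2147614720) (.ev (nat_lit 1792) (nat_lit 274877906944) (.ev
 (nat_lit 1892) (nat_lit 2) (.ev (nat_lit 1901) (nat_lit 17179869184) .dd))))) (.br (nat_lit 12) (.ch (nat_lit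
 10) (.ev (nat_lit 1712) (nat_lit 277025390592) (.ev (nat_lit 1892) (nat_lit 17179869184) (.fin (nat_lit
 576448107907596860))))) (.ch (nat_lit 12) (.ev (nat_lit 1712) (nat_lit 294205259778) (.ev (nat_lit 1725)
 (nat_lit 131072) .dd))))))))))))) (.ch (nat_lit 38) (.ev (nat_lit 52) (nat_lit 4743793869056) (.ev (nat_lit
 372) (nat_lit 512) (.ev (nat_lit 436) (nat_lit 1073741824) (.ev (nat_lit 692) (nat_lit 17179869184) (.nd
 (nat_lit 1696) (.br (nat_lit 5) (.br (nat_lit 1) (.ch (nat_lit 0) (.ev (nat_lit 1712) (nat_lit 34359738370)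
 (.ev (nat_lit 1892) (nat_lit 33554432) (.ev (nat_lit 1901) (nat_lit 8192) .dd)))) (.br (nat_lit 2) (.ch
 (nat_lit 1) (.ev (nat_lit 1712) (nat_lit 34359746560) (.ev (nat_lit 1792) (nat_lit 33554434) .dd))) (.ch
 (nat_lit 2) (.ev (nat_lit 1712) (nat_lit 33562626) (.ev (nat_lit 1725) (nat_lit 34359738368) .dd))))) (.br
 (nat_lit 6) (.ch (nat_lit 5) (.ev (nat_lit 1712) (nat_lit 34393292802) (.ev (nat_lit 1725) (nat_lit 8192)
 .dd))) (.br (nat_lit 12) (.ch (nat_lit 6) (.ev (nat_lit 1712) (nat_lit 33562626) (.ev (nat_lit 1725) (nat_lit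
 34359738368) .dd))) (.ch (nat_lit 12) (.ev (nat_lit 1712) (nat_lit 34393300992) (.ev (nat_lit 1725) (nat_lit
 2) .dd))))))))))))))))) (.br (nat_lit 54) (.br (nat_lit 47) (.br (nat_lit 43) (.br (nat_lit 42) (.ch (nat_lit
 39) (.ev (nat_lit 52) (nat_lit 396246392834) (.ev (nat_lit 436) (nat_lit 512) (.ev (nat_lit 884) (nat_lit
 262144) (.nd (nat_lit 1696) (.br (nat_lit 5) (.br (nat_lit 2) (.ch (nat_lit 0) (.ev (nat_lit 1712) (nat_lit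
 4398046642432) (.ev (nat_lit 1725) (nat_lit 2147483648) .dd))) (.br (nat_lit 4) (.ch (nat_lit 2) (.ev (nat_lit
 1712) (nat_lit 4400193995008) (.ev (nat_lit 1725) (nat_lit 131072) .dd))) (.ch (nat_lit 4) (.ev (nat_lit 1712)
 (nat_lit 4400193994752) (.ev (nat_lit 1892) (nat_lit 131072) (.ev (nat_lit 1901) (nat_lit 256) .dd)))))) (.br
 (nat_lit 10) (.br (nat_lit 6) (.ch (nat_lit 5) (.ev (nat_lit 1712) (nat_lit 4400193994752) (.ev (nat_lit 1892)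
 (nat_lit 256) (.ev (nat_lit 1901) (nat_lit 131072) .dd)))) (.ch (nat_lit 6) (.ev (nat_lit 1712) (nat_lit
 4400194126080) .dd))) (.br (nat_lit 12) (.ch (nat_lit 10) (.ev (nat_lit 1712) (nat_lit 4398046642176) (.ev
 (nat_lit 1728) (nat_lit 2147483648) (.ev (nat_lit 1741) (nat_lit 256) .dd)))) (.ch (nat_lit 12) (.ev (nat_lit
 1712) (nat_lit 2147614976) (.ev (nat_lit 1725) (nat_lit 4398046511104) .dd))))))))))) (.ch (nat_lit 42) (.ev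
 (nat_lit 52) (nat_lit 4691211854336) (.ev (nat_lit 1204) (nat_lit 68719476736) (.ev (nat_lit 1408) (nat_lit
 34359738368) (.nd (nat_lit 1696) (.br (nat_lit 9) (.br (nat_lit 5) (.ch (nat_lit 0) (.ev (nat_lit 1712)
 (nat_lit 2228482) (.ev (nat_lit 1725) (nat_lit 2147483648) .dd))) (.ch (nat_lit 5) (.ev (nat_lit 1712)
 (nat_lit 2) (.ev (nat_lit 1892) (nat_lit 2147483904) (.ev (nat_lit 2006) (nat_lit 2228224) .dd))))) (.br
 (nat_lit 10) (.ch (nat_lit 9) (.ev (nat_lit 1712) (nat_lit 2149712130) .dd)) (.br (nat_lit 12) (.ch (nat_lit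
 10) (.ev (nat_lit 1712) (nat_lit 2149580802) (.ev (nat_lit 1744) (nat_lit 256) (.ev (nat_lit 1757) (nat_lit
 131072) .dd)))) (.ch (nat_lit 12) (.ev (nat_lit 1712) (nat_lit 2149712128) (.ev (nat_lit 1725) (nat_lit 2)
 .dd)))))))))))) (.br (nat_lit 44) (.ch (nat_lit 43) (.ev (nat_lit 52) (nat_lit 4483979551488) (.ev (nat_lit
 788) (nat_lit 2097152) (.ev (nat_lit 1120) (nat_lit 312459132930) .dd)))) (.br (nat_lit 46) (.ch (nat_lit 44)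
 (.ev (nat_lit 52) (nat_lit 274911593216) (.ev (nat_lit 180) (nat_lit 2147483648) (.ev (nat_lit 244) (nat_lit
 8192) (.ev (nat_lit 340) (nat_lit 1073741824) (.ev (nat_lit 372) (nat_lit 34359738368) (.ev (nat_lit 660)
 (nat_lit 2097152) (.nd (nat_lit 1696) (.br (nat_lit 6) (.br (nat_lit 1) (.ch (nat_lit 0) (.ev (nat_lit 1712)
 (nat_lit 4483946119170) .dd)) (.br (nat_lit 2) (.ch (nat_lit 1) (.ev (nat_lit 1712) (nat_lit 262146) (.ev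
 (nat_lit 1892) (nat_lit 68719476736) (.ev (nat_lit 1904) (nat_lit 4398046511104) (.ev (nat_lit 1917) (nat_lit
 17179869184) .dd))))) (.ch (nat_lit 2) (.ev (nat_lit 1712) (nat_lit 4483945857026) (.ev (nat_lit 1725)
 (nat_lit 262144) .dd))))) (.br (nat_lit 10) (.br (nat_lit 9) (.ch (nat_lit 6) (.ev (nat_lit 1712) (nat_lit
 4483946119170) .dd)) (.ch (nat_lit 9) (.ev (nat_lit 1712) (nat_lit 4466766249986) (.ev (nat_lit 1725) (nat_lit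
 17179869184) .dd)))) (.br (nat_lit 12) (.ch (nat_lit 10) (.ev (nat_lit 1712) (nat_lit 4466766249984) (.ev
 (nat_lit 1892) (nat_lit 2) (.ev (nat_lit 1901) (nat_lit 17179869184) .dd)))) (.ch (nat_lit 12) (.ev (nat_lit
 1712) (nat_lit 4483945857024) (.ev (nat_lit 1728) (nat_lit 262144) (.ev (nat_lit 1741) (nat_lit 2)
 .dd))))))))))))))) (.ch (nat_lit 46) (.ev (nat_lit 52) (nat_lit 362927095808) (.ev (nat_lit 384) (nat_lit
 4433513685762) .dd)))))) (.br (nat_lit 50) (.br (nat_lit 48) (.ch (nat_lit 47) (.ev (nat_lit 52) (nat_lit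
 19329458946) (.ev (nat_lit 148) (nat_lit 34359869440) (.ev (nat_lit 212) (nat_lit 4399120252928) (.ev (nat_lit
 1204) (nat_lit 33554432) (.nd (nat_lit 1696) (.br (nat_lit 4) (.br (nat_lit 1) (.ch (nat_lit 0) (.ev (nat_lit
 1712) (nat_lit 343597645824) .dd)) (.br (nat_lit 2) (.ch (nat_lit 1) (.ev (nat_lit 1712) (nat_lit
 343597645824) .dd)) (.ch (nat_lit 2) (.ev (nat_lit 1728) (nat_lit 68719476736) (.ev (nat_lit 1892) (nat_lit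
 262144) (.ev (nat_lit 1901) (nat_lit 274877906944) .dd)))))) (.br (nat_lit 10) (.ch (nat_lit 4) (.ev (nat_lit
 1712) (nat_lit 68719738880) (.ev (nat_lit 1725) (nat_lit 274877906944) .dd))) (.br (nat_lit 12) (.ch (nat_lit
 10) (.ev (nat_lit 1712) (nat_lit 262144) (.ev (nat_lit 1728) (nat_lit 68719476736) (.ev (nat_lit 1741)
 (nat_lit 274877906944) .dd)))) (.ch (nat_lit 12) (.ev (nat_lit 1712) (nat_lit 343597645824) .dd)))))))))))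
 (.br (nat_lit 49) (.ch (nat_lit 48) (.ev (nat_lit 52) (nat_lit 53720646144) (.ev (nat_lit 288) (nat_lit
 4742720135426) .dd))) (.ch (nat_lit 49) (.ev (nat_lit 52) (nat_lit 4779225252098) (.ev (nat_lit 820) (nat_lit
 8192) (.ev (nat_lit 980) (nat_lit 17179869184) (.ev (nat_lit 1044) (nat_lit 33554432) (.nd (nat_lit 1696) (.br
 (nat_lit 6) (.br (nat_lit 4) (.ch (nat_lit 1) (.ev (nat_lit 1712) (nat_lit 2097664) .dd)) (.br (nat_lit 5)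
 (.ch (nat_lit 4) (.ev (nat_lit 1712) (nat_lit 2097664) .dd)) (.ch (nat_lit 5) (.ev (nat_lit 1712) (nat_lit
 2097664) .dd)))) (.br (nat_lit 9) (.ch (nat_lit 6) (.ev (nat_lit 1744) (nat_lit 2097152) (.ev (nat_lit 1757)
 (nat_lit 512) .dd))) (.br (nat_lit 12) (.ch (nat_lit 9) (.ev (nat_lit 1712) (nat_lit 2097664) .dd)) (.ch
 (nat_lit 12) (.ev (nat_lit 1712) (nat_lit 2097664) .dd))))))))))))) (.br (nat_lit 51) (.ch (nat_lit 50) (.ev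
 (nat_lit 52) (nat_lit 295315055106) (.ev (nat_lit 532) (nat_lit 4398046511104) (.nd (nat_lit 1696) (.br
 (nat_lit 5) (.br (nat_lit 2) (.ch (nat_lit 0) (.ev (nat_lit 1712) (nat_lit 103079215360) .dd)) (.br (nat_lit
 4) (.ch (nat_lit 2) (.ev (nat_lit 1712) (nat_lit 68719476992) (.ev (nat_lit 1725) (nat_lit 34359738368) .dd)))
 (.ch (nat_lit 4) (.ev (nat_lit 1712) (nat_lit 68719476736) (.ev (nat_lit 1892) (nat_lit 34359738368) (.ev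
 (nat_lit 1901) (nat_lit 256) .dd)))))) (.br (nat_lit 10) (.br (nat_lit 6) (.ch (nat_lit 5) (.ev (nat_lit 1712)
 (nat_lit 68719476736) (.ev (nat_lit 1892) (nat_lit 34359738368) (.ev (nat_lit 1901) (nat_lit 256) .dd)))) (.ch
 (nat_lit 6) (.ev (nat_lit 1712) (nat_lit 103079215360) .dd))) (.br (nat_lit 12) (.ch (nat_lit 10) (.ev
 (nat_lit 1712) (nat_lit 34359738368) (.ev (nat_lit 1728) (nat_lit 68719476736) (.ev (nat_lit 1741) (nat_lit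
 256) .dd)))) (.ch (nat_lit 12) (.ev (nat_lit 1712) (nat_lit 103079215104) (.ev (nat_lit 1725) (nat_lit 256)
 .dd)))))))))) (.br (nat_lit 53) (.ch (nat_lit 51) (.ev (nat_lit 52) (nat_lit 277059076608) (.ev (nat_lit 1076)
 (nat_lit 270336) (.ev (nat_lit 1300) (nat_lit 256) (.nd (nat_lit 1696) (.br (nat_lit 6) (.br (nat_lit 2) (.ch
 (nat_lit 0) (.ev (nat_lit 1712) (nat_lit 4485019598850) (.ev (nat_lit 1892) (nat_lit 2097152) (.ev (nat_lit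
 1901) (nat_lit 34359738368) .dd)))) (.br (nat_lit 4) (.ch (nat_lit 2) (.ev (nat_lit 1712) (nat_lit
 86975184898) (.ev (nat_lit 1872) (nat_lit 34359738368) (.ev (nat_lit 1885) (nat_lit 4398046511104) .dd))))
 (.ch (nat_lit 4) (.ev (nat_lit 1712) (nat_lit 4466765987842) (.ev (nat_lit 1892) (nat_lit 34361835520) (.ev
 (nat_lit 2054) (nat_lit 18253611008) .dd)))))) (.br (nat_lit 9) (.ch (nat_lit 6) (.ev (nat_lit 1712) (nat_lit
 4433482088450) (.ev (nat_lit 1840) (nat_lit 17179869184) (.ev (nat_lit 1853) (nat_lit 68719476736) .dd))))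
 (.br (nat_lit 12) (.ch (nat_lit 9) (.ev (nat_lit 1712) (nat_lit 121332826112) (.ev (nat_lit 1872) (nat_lit
 2097152) (.ev (nat_lit 1904) (nat_lit 4398046511104) (.ev (nat_lit 1917) (nat_lit 2) .dd))))) (.ch (nat_lit
 12) (.ev (nat_lit 1712) (nat_lit 4518307692544) (.ev (nat_lit 1744) (nat_lit 2) (.ev (nat_lit 1757) (nat_lit
 1073741824) .dd)))))))))))) (.ch (nat_lit 53) (.ev (nat_lit 52) (nat_lit 4708360265984) (.ev (nat_lit 980)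
 (nat_lit 33554432) (.ev (nat_lit 1616) (nat_lit 2) (.nd (nat_lit 1696) (.br (nat_lit 9) (.br (nat_lit 2) (.ch
 (nat_lit 0) (.ev (nat_lit 1712) (nat_lit 88046960640) (.ev (nat_lit 1725) (nat_lit 512) .dd))) (.br (nat_lit
 4) (.ch (nat_lit 2) (.ev (nat_lit 1712) (nat_lit 88046830080) (.ev (nat_lit 1725) (nat_lit 131072) .dd))) (.ch
 (nat_lit 4) (.ev (nat_lit 1712) (nat_lit 70867091968) (.ev (nat_lit 1725) (nat_lit 17179869184) .dd))))) (.br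
 (nat_lit 10) (.ch (nat_lit 9) (.ev (nat_lit 1712) (nat_lit 88046960640) (.ev (nat_lit 1725) (nat_lit 512)
 .dd))) (.br (nat_lit 12) (.ch (nat_lit 10) (.ev (nat_lit 1712) (nat_lit 17179869184) (.ev (nat_lit 1808)
 (nat_lit 131072) (.ev (nat_lit 1892) (nat_lit 68719476736) (.fin (nat_lit 576456904017396268)))))) (.ch
 (nat_lit 12) (.ev (nat_lit 1712) (nat_lit 88046961152) .dd)))))))))))))) (.br (nat_lit 64) (.br (nat_lit 57)
 (.br (nat_lit 55) (.ch (nat_lit 54) (.ev (nat_lit 52) (nat_lit 360779612928) (.ev (nat_lit 788) (nat_lit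
 34359738368) (.ev (nat_lit 1268) (nat_lit 2147483648) (.nd (nat_lit 1696) (.br (nat_lit 4) (.br (nat_lit 2)
 (.ch (nat_lit 1) (.ev (nat_lit 1712) (nat_lit 4398046642176) (.ev (nat_lit 1892) (nat_lit 33562624) (.ev
 (nat_lit 2102) (nat_lit 1073741826) .dd)))) (.ch (nat_lit 2) (.ev (nat_lit 1712) (nat_lit 1107427330) (.ev
 (nat_lit 1892) (nat_lit 4398046511104) (.ev (nat_lit 1901) (nat_lit 8192) .dd))))) (.br (nat_lit 9) (.ch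
 (nat_lit 4) (.ev (nat_lit 1712) (nat_lit 4398080073730) (.ev (nat_lit 1808) (nat_lit 131072) (.ev (nat_lit
 1821) (nat_lit 1073741824) .dd)))) (.br (nat_lit 12) (.ch (nat_lit 9) (.ev (nat_lit 1712) (nat_lit
 4399153946624) (.ev (nat_lit 1725) (nat_lit 2) .dd))) (.ch (nat_lit 12) (.ev (nat_lit 1712) (nat_lit
 4399120392194) (.ev (nat_lit 1725) (nat_lit 33554432) .dd))))))))))) (.ch (nat_lit 55) (.ev (nat_lit 52)
 (nat_lit 277059215616) (.ev (nat_lit 436) (nat_lit 2) (.ev (nat_lit 532) (nat_lit 512) (.nd (nat_lit 1696)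
 (.br (nat_lit 6) (.br (nat_lit 1) (.ch (nat_lit 0) (.ev (nat_lit 1712) (nat_lit 4485021827072) (.ev (nat_lit
 1725) (nat_lit 34359738368) .dd))) (.br (nat_lit 5) (.ch (nat_lit 1) (.ev (nat_lit 1712) (nat_lit
 103079346176) (.ev (nat_lit 1744) (nat_lit 17179869184) (.ev (nat_lit 1892) (nat_lit 2097152) (.ev (nat_lit
 1920) (nat_lit 4399120252928) .dd))))) (.ch (nat_lit 5) (.ev (nat_lit 1712) (nat_lit 4466768216064) (.ev
 (nat_lit 1744) (nat_lit 34359738368) (.ev (nat_lit 1776) (nat_lit 17179869184) (.ev (nat_lit 1789) (nat_lit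
 1073741824) .dd))))))) (.br (nat_lit 9) (.ch (nat_lit 6) (.ev (nat_lit 1712) (nat_lit 4450659991552) (.ev
 (nat_lit 1968) (nat_lit 68721573888) .dd))) (.br (nat_lit 10) (.ch (nat_lit 9) (.ev (nat_lit 1712) (nat_lit
 4518307823616) (.ev (nat_lit 1725) (nat_lit 1073741824) .dd))) (.ch (nat_lit 10) (.ev (nat_lit 1712) (nat_lit
 4519381434368) (.ev (nat_lit 1725) (nat_lit 131072) .dd)))))))))))) (.br (nat_lit 58) (.ch (nat_lit 57) (.ev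
 (nat_lit 52) (nat_lit 52613743106) (.ev (nat_lit 692) (nat_lit 2147483648) (.ev (nat_lit 1140) (nat_lit
 33554432) (.ev (nat_lit 1300) (nat_lit 8192) (.nd (nat_lit 1696) (.br (nat_lit 6) (.br (nat_lit 1) (.ch
 (nat_lit 0) (.ev (nat_lit 1712) (nat_lit 4741645992192) .dd)) (.br (nat_lit 5) (.ch (nat_lit 1) (.ev (nat_lit
 1712) (nat_lit 4672924418304) (.ev (nat_lit 1728) (nat_lit 68719476736) (.ev (nat_lit 1741) (nat_lit 2097152)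
 .dd)))) (.ch (nat_lit 5) (.ev (nat_lit 1712) (nat_lit 4741645992192) .dd)))) (.br (nat_lit 10) (.ch (nat_lit
 6) (.ev (nat_lit 1712) (nat_lit 4466765988096) (.ev (nat_lit 1792) (nat_lit 274877906944) (.ev (nat_lit 1805)
 (nat_lit 2097152) .dd)))) (.br (nat_lit 12) (.ch (nat_lit 10) (.ev (nat_lit 1712) (nat_lit 4672926515456) (.ev
 (nat_lit 1725) (nat_lit 68719476736) .dd))) (.ch (nat_lit 12) (.ev (nat_lit 1712) (nat_lit 343599480832) (.ev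
 (nat_lit 1744) (nat_lit 256) (.ev (nat_lit 1757) (nat_lit 4398046511104) .dd))))))))))))) (.br (nat_lit 62)
 (.ch (nat_lit 58) (.ev (nat_lit 52) (nat_lit 35469524992) (.ev (nat_lit 276) (nat_lit 8192) (.ev (nat_lit 980)
 (nat_lit 68719476736) (.ev (nat_lit 1012) (nat_lit 4398046511616) (.nd (nat_lit 1696) (.br (nat_lit 4) (.br
 (nat_lit 1) (.ch (nat_lit 0) (.ev (nat_lit 1712) (nat_lit 274877907202) (.ev (nat_lit 1760) (nat_lit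
 2147483648) (.ev (nat_lit 1773) (nat_lit 17179869184) .dd)))) (.br (nat_lit 2) (.ch (nat_lit 1) (.ev (nat_lit
 1712) (nat_lit 294205259776) (.ev (nat_lit 1744) (nat_lit 2) (.ev (nat_lit 1757) (nat_lit 256) .dd)))) (.ch
 (nat_lit 2) (.ev (nat_lit 1712) (nat_lit 19327353090) (.ev (nat_lit 1725) (nat_lit 274877906944) .dd))))) (.br
 (nat_lit 5) (.ch (nat_lit 4) (.ev (nat_lit 1712) (nat_lit 292057776130) (.ev (nat_lit 1892) (nat_lit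
 2147483648) (.ev (nat_lit 1901) (nat_lit 256) .dd)))) (.br (nat_lit 9) (.ch (nat_lit 5) (.ev (nat_lit 1712)
 (nat_lit 294205260034) .dd)) (.ch (nat_lit 9) (.ev (nat_lit 1712) (nat_lit 2147483648) (.ev (nat_lit 1856)
 (nat_lit 2) (.ev (nat_lit 1892) (nat_lit 274877906944) (.ev (nat_lit 1904) (nat_lit 256) (.ev (nat_lit 1917)
 (nat_lit 17179869184) .dd))))))))))))))) (.ch (nat_lit 62) (.ev (nat_lit 52) (nat_lit 122440524544) (.ev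
 (nat_lit 84) (nat_lit 4398046511104) (.ev (nat_lit 116) (nat_lit 2) (.ev (nat_lit 372) (nat_lit 2097152) (.nd
 (nat_lit 1696) (.br (nat_lit 6) (.br (nat_lit 2) (.ch (nat_lit 1) (.ev (nat_lit 1712) (nat_lit 275951648768)
 .dd)) (.br (nat_lit 5) (.ch (nat_lit 2) (.ev (nat_lit 1712) (nat_lit 1073741824) (.ev (nat_lit 1725) (nat_lit
 274877906944) .dd))) (.ch (nat_lit 5) (.ev (nat_lit 1712) (nat_lit 274877906944) (.ev (nat_lit 1725) (nat_lit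
 1073741824) .dd))))) (.br (nat_lit 9) (.ch (nat_lit 6) (.ev (nat_lit 1712) (nat_lit 275951648768) .dd)) (.br
 (nat_lit 10) (.ch (nat_lit 9) (.ev (nat_lit 1712) (nat_lit 1073741824) (.ev (nat_lit 1725) (nat_lit
 274877906944) .dd))) (.ch (nat_lit 10) (.ev (nat_lit 1712) (nat_lit 275951648768) .dd)))))))))))))) (.br
 (nat_lit 68) (.br (nat_lit 65) (.ch (nat_lit 64) (.ev (nat_lit 52) (nat_lit 4741646123266) (.ev (nat_lit 84)
 (nat_lit 34359738368) (.ev (nat_lit 1172) (nat_lit 2147483648) (.nd (nat_lit 1696) (.br (nat_lit 5) (.br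
 (nat_lit 2) (.ch (nat_lit 1) (.ev (nat_lit 1712) (nat_lit 18287436288) .dd)) (.br (nat_lit 4) (.ch (nat_lit 2)
 (.ev (nat_lit 1712) (nat_lit 18287174144) (.ev (nat_lit 1725) (nat_lit 262144) .dd))) (.ch (nat_lit 4) (.ev
 (nat_lit 1712) (nat_lit 33563136) (.ev (nat_lit 1892) (nat_lit 18253611008) (.ev (nat_lit 1901) (nat_lit
 262144) .dd)))))) (.br (nat_lit 10) (.ch (nat_lit 5) (.ev (nat_lit 1712) (nat_lit 1074004480) (.ev (nat_lit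
 1892) (nat_lit 17179877376) (.ev (nat_lit 1901) (nat_lit 33554432) .dd)))) (.br (nat_lit 12) (.ch (nat_lit 10)
 (.ev (nat_lit 1712) (nat_lit 18287435776) (.ev (nat_lit 1725) (nat_lit 512) .dd))) (.ch (nat_lit 12) (.ev
 (nat_lit 1712) (nat_lit 17213694464) (.ev (nat_lit 1725) (nat_lit 1073741824) .dd))))))))))) (.br (nat_lit 67)
 (.ch (nat_lit 65) (.ev (nat_lit 52) (nat_lit 4518308086274) (.ev (nat_lit 628) (nat_lit 1073741824) (.ev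
 (nat_lit 1248) (nat_lit 277058953472) .dd)))) (.ch (nat_lit 67) (.ev (nat_lit 52) (nat_lit 4432408355586) (.ev
 (nat_lit 148) (nat_lit 1073741824) (.ev (nat_lit 1012) (nat_lit 131072) (.ev (nat_lit 1236) (nat_lit
 68719476736) (.ev (nat_lit 1300) (nat_lit 262144) (.nd (nat_lit 1696) (.br (nat_lit 5) (.br (nat_lit 2) (.ch
 (nat_lit 0) (.ev (nat_lit 1712) (nat_lit 294205259776) (.ev (nat_lit 1725) (nat_lit 33554432) .dd))) (.br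
 (nat_lit 4) (.ch (nat_lit 2) (.ev (nat_lit 1712) (nat_lit 292091330560) (.ev (nat_lit 1725) (nat_lit
 2147483648) .dd))) (.ch (nat_lit 4) (.ev (nat_lit 1712) (nat_lit 277058945024) (.ev (nat_lit 1725) (nat_lit
 17179869184) .dd))))) (.br (nat_lit 6) (.ch (nat_lit 5) (.ev (nat_lit 1712) (nat_lit 292057776128) (.fin
 (nat_lit 576474496205537852)))) (.br (nat_lit 9) (.ch (nat_lit 6) (.ev (nat_lit 1712) (nat_lit 2181038080)
 (.ev (nat_lit 2064) (nat_lit 292057776128) .dd))) (.ch (nat_lit 9) (.ev (nat_lit 1712) (nat_lit 294238814208)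
 .dd)))))))))))))) (.br (nat_lit 69) (.ch (nat_lit 68) (.ev (nat_lit 52) (nat_lit 4503275307010) (.ev (nat_lit
 116) (nat_lit 274877906944) (.ev (nat_lit 532) (nat_lit 131072) (.ev (nat_lit 564) (nat_lit 33554432) (.ev
 (nat_lit 756) (nat_lit 1073741824) (.ev (nat_lit 820) (nat_lit 256) (.ev (nat_lit 1108) (nat_lit 8192) (.nd
 (nat_lit 1696) (.br (nat_lit 4) (.br (nat_lit 1) (.ch (nat_lit 0) (.ev (nat_lit 1712) (nat_lit 17180131840)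
 .dd)) (.ch (nat_lit 1) (.ev (nat_lit 1712) (nat_lit 262144) (.ev (nat_lit 1892) (nat_lit 512) (.ev (nat_lit
 1901) (nat_lit 17179869184) .dd))))) (.br (nat_lit 10) (.ch (nat_lit 4) (.ev (nat_lit 1712) (nat_lit
 17179869696) (.ev (nat_lit 1725) (nat_lit 262144) .dd))) (.br (nat_lit 12) (.ch (nat_lit 10) (.ev (nat_lit
 1712) (nat_lit 262144) (.ev (nat_lit 1892) (nat_lit 512) (.ev (nat_lit 1901) (nat_lit 17179869184) .dd))))
 (.ch (nat_lit 12) (.ev (nat_lit 1712) (nat_lit 17180131840) .dd)))))))))))))) (.br (nat_lit 70) (.ch (nat_lit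
 69) (.ev (nat_lit 52) (nat_lit 360779489282) (.ev (nat_lit 180) (nat_lit 33554432) (.ev (nat_lit 832) (nat_lit
 4435627737856) .dd)))) (.ch (nat_lit 70) (.ev (nat_lit 52) (nat_lit 377990676482) (.ev (nat_lit 148) (nat_lit
 512) (.ev (nat_lit 372) (nat_lit 131072) (.ev (nat_lit 564) (nat_lit 2147483648) (.ev (nat_lit 756) (nat_lit
 2097152) (.ev (nat_lit 884) (nat_lit 256) (.ev (nat_lit 1012) (nat_lit 1073741824) (.ev (nat_lit 1108)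
 (nat_lit 262144) (.ev (nat_lit 1648) (nat_lit 8192) (.nd (nat_lit 1696) (.br (nat_lit 2) (.br (nat_lit 1) (.ch
 (nat_lit 0) (.ev (nat_lit 1712) (nat_lit 4398046511104) (.ev (nat_lit 1725) (nat_lit 17179869184) .dd))) (.ch
 (nat_lit 1) (.ev (nat_lit 1712) (nat_lit 4398046511104) (.ev (nat_lit 1725) (nat_lit 17179869184) .dd)))) (.br
 (nat_lit 5) (.ch (nat_lit 2) (.ev (nat_lit 1712) (nat_lit 17179869184) (.ev (nat_lit 1725) (nat_lit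
 4398046511104) .dd))) (.br (nat_lit 9) (.ch (nat_lit 5) (.ev (nat_lit 1712) (nat_lit 4398046511104) (.ev
 (nat_lit 1725) (nat_lit 17179869184) .dd))) (.ch (nat_lit 9) (.ev (nat_lit 1712) (nat_lit 17179869184) (.ev
 (nat_lit 1725) (nat_lit 4398046511104) .dd)))))))))))))))))))))))))

/-- Subtrie. -/
noncomputable def T4 : Tr := (.ev (nat_lit 20) (nat_lit 4760002365248) (.nd (nat_lit 33) (.br (nat_lit 39) (.br
 (nat_lit 19) (.br (nat_lit 8) (.br (nat_lit 4) (.br (nat_lit 3) (.ch (nat_lit 1) (.ev (nat_lit 52) (nat_lit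
 551905529984) (.ev (nat_lit 148) (nat_lit 2) (.ev (nat_lit 308) (nat_lit 16) (.ev (nat_lit 1172) (nat_lit
 137438953472) (.nd (nat_lit 1696) (.br (nat_lit 7) (.br (nat_lit 1) (.ch (nat_lit 0) (.ev (nat_lit 1712)
 (nat_lit 42949943328) .dd)) (.br (nat_lit 2) (.ch (nat_lit 1) (.ev (nat_lit 1712) (nat_lit 8590204928) (.ev
 (nat_lit 1892) (nat_lit 34359738368) (.ev (nat_lit 1901) (nat_lit 32) .dd)))) (.ch (nat_lit 2) (.ev (nat_lit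
 1712) (nat_lit 42949672992) (.ev (nat_lit 1728) (nat_lit 270336) .dd))))) (.br (nat_lit 8) (.ch (nat_lit 7)
 (.ev (nat_lit 1712) (nat_lit 34360008736) (.ev (nat_lit 1725) (nat_lit 8589934592) .dd))) (.br (nat_lit 11)
 (.ch (nat_lit 8) (.ev (nat_lit 1712) (nat_lit 34360008704) (.ev (nat_lit 1824) (nat_lit 32) (.ev (nat_lit
 1837) (nat_lit 8589934592) .dd)))) (.ch (nat_lit 11) (.ev (nat_lit 1712) (nat_lit 34360008736) (.ev (nat_lit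
 1725) (nat_lit 8589934592) .dd)))))))))))) (.ch (nat_lit 3) (.ev (nat_lit 52) (nat_lit 131218) (.ev (nat_lit
 116) (nat_lit 2147483648) (.ev (nat_lit 212) (nat_lit 262144) (.ev (nat_lit 596) (nat_lit 32) (.ev (nat_lit
 660) (nat_lit 2097152) (.ev (nat_lit 724) (nat_lit 8589934592) (.ev (nat_lit 852) (nat_lit 4096) (.ev (nat_lit
 1268) (nat_lit 137438953472) (.nd (nat_lit 1696) (.br (nat_lit 7) (.br (nat_lit 1) (.ch (nat_lit 0) (.ev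
 (nat_lit 1712) (nat_lit 584115560448) .dd)) (.br (nat_lit 3) (.ch (nat_lit 1) (.ev (nat_lit 1712) (nat_lit
 549755813888) (.ev (nat_lit 1728) (nat_lit 8192) (.ev (nat_lit 1741) (nat_lit 34359738368) .dd)))) (.ch
 (nat_lit 3) (.ev (nat_lit 1712) (nat_lit 8192) (.ev (nat_lit 1892) (nat_lit 549755813888) (.ev (nat_lit 1901)
 (nat_lit 34359738368) .dd)))))) (.br (nat_lit 9) (.br (nat_lit 8) (.ch (nat_lit 7) (.ev (nat_lit 1712)
 (nat_lit 8192) (.ev (nat_lit 1892) (nat_lit 549755813888) (.ev (nat_lit 1901) (nat_lit 34359738368) .dd))))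
 (.ch (nat_lit 8) (.ev (nat_lit 1712) (nat_lit 34359746560) (.ev (nat_lit 1725) (nat_lit 549755813888) .dd))))
 (.br (nat_lit 11) (.ch (nat_lit 9) (.ev (nat_lit 1712) (nat_lit 549755822080) (.ev (nat_lit 1725) (nat_lit
 34359738368) .dd))) (.ch (nat_lit 11) (.ev (nat_lit 1712) (nat_lit 584115560448) .dd)))))))))))))))) (.br
 (nat_lit 5) (.ch (nat_lit 4) (.ev (nat_lit 52) (nat_lit 180388626610) (.ev (nat_lit 84) (nat_lit 2097152) (.ev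
 (nat_lit 372) (nat_lit 2147483648) (.ev (nat_lit 436) (nat_lit 262144) (.nd (nat_lit 1696) (.br (nat_lit 6)
 (.br (nat_lit 2) (.ch (nat_lit 0) (.ev (nat_lit 1712) (nat_lit 549755826176) (.ev (nat_lit 1725) (nat_lit
 131072) .dd))) (.br (nat_lit 3) (.ch (nat_lit 2) (.ev (nat_lit 1712) (nat_lit 549755957248) .dd)) (.ch
 (nat_lit 3) (.ev (nat_lit 1712) (nat_lit 549755817984) (.ev (nat_lit 1744) (nat_lit 131072) (.ev (nat_lit
 1757) (nat_lit 8192) .dd)))))) (.br (nat_lit 8) (.ch (nat_lit 6) (.ev (nat_lit 1712) (nat_lit 131072) (.ev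
 (nat_lit 1892) (nat_lit 549755813888) (.ev (nat_lit 1904) (nat_lit 8192) (.ev (nat_lit 1917) (nat_lit 4096)
 .dd))))) (.br (nat_lit 9) (.ch (nat_lit 8) (.ev (nat_lit 1712) (nat_lit 143360) (.ev (nat_lit 1725) (nat_lit
 549755813888) .dd))) (.ch (nat_lit 9) (.ev (nat_lit 1712) (nat_lit 549755953152) (.ev (nat_lit 1725) (nat_lit
 4096) .dd)))))))))))) (.br (nat_lit 7) (.ch (nat_lit 5) (.ev (nat_lit 52) (nat_lit 36509319170) (.ev (nat_lit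
 256) (nat_lit 695785107632) .dd))) (.ch (nat_lit 7) (.ev (nat_lit 52) (nat_lit 42949685410) (.ev (nat_lit 864)
 (nat_lit 689344741392) .dd)))))) (.br (nat_lit 15) (.br (nat_lit 11) (.ch (nat_lit 8) (.ev (nat_lit 52)
 (nat_lit 10739785888) (.ev (nat_lit 180) (nat_lit 137438953472) (.ev (nat_lit 340) (nat_lit 131072) (.ev
 (nat_lit 1536) (nat_lit 2) (.nd (nat_lit 1696) (.br (nat_lit 6) (.br (nat_lit 1) (.ch (nat_lit 0) (.ev
 (nat_lit 1712) (nat_lit 549755818000) (.ev (nat_lit 1725) (nat_lit 34359738368) .dd))) (.br (nat_lit 3) (.ch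
 (nat_lit 1) (.ev (nat_lit 1712) (nat_lit 584115556368) .dd)) (.ch (nat_lit 3) (.ev (nat_lit 1712) (nat_lit
 34359738368) (.ev (nat_lit 1776) (nat_lit 549755813904) (.ev (nat_lit 1789) (nat_lit 4096) .dd)))))) (.br
 (nat_lit 9) (.ch (nat_lit 6) (.ev (nat_lit 1712) (nat_lit 584115556368) .dd)) (.br (nat_lit 11) (.ch (nat_lit
 9) (.ev (nat_lit 1712) (nat_lit 549755813904) (.ev (nat_lit 1892) (nat_lit 4096) (.ev (nat_lit 1901) (nat_lit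
 34359738368) .dd)))) (.ch (nat_lit 11) (.ev (nat_lit 1712) (nat_lit 584115552272) (.ev (nat_lit 1725) (nat_lit
 4096) .dd)))))))))))) (.br (nat_lit 12) (.ch (nat_lit 11) (.ev (nat_lit 52) (nat_lit 695784701984) (.ev
 (nat_lit 224) (nat_lit 36509724818) .dd))) (.ch (nat_lit 12) (.ev (nat_lit 52) (nat_lit 592705617938) (.ev
 (nat_lit 84) (nat_lit 262144) (.ev (nat_lit 628) (nat_lit 2147483648) (.ev (nat_lit 692) (nat_lit 128) (.ev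
 (nat_lit 1236) (nat_lit 8192) (.nd (nat_lit 1696) (.br (nat_lit 3) (.br (nat_lit 1) (.ch (nat_lit 0) (.ev
 (nat_lit 1712) (nat_lit 2101248) (.ev (nat_lit 1744) (nat_lit 137438953472) (.ev (nat_lit 1757) (nat_lit 32)
 .dd)))) (.br (nat_lit 2) (.ch (nat_lit 1) (.ev (nat_lit 1712) (nat_lit 137438957600) (.ev (nat_lit 1725)
 (nat_lit 2097152) .dd))) (.ch (nat_lit 2) (.ev (nat_lit 1712) (nat_lit 137441054752) .dd)))) (.br (nat_lit 6)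
 (.ch (nat_lit 3) (.ev (nat_lit 1712) (nat_lit 137441050656) (.ev (nat_lit 1725) (nat_lit 4096) .dd))) (.br
 (nat_lit 7) (.ch (nat_lit 6) (.ev (nat_lit 1712) (nat_lit 2101280) (.ev (nat_lit 1725) (nat_lit 137438953472)
 .dd))) (.ch (nat_lit 7) (.ev (nat_lit 1712) (nat_lit 137438953472) (.ev (nat_lit 1892) (nat_lit 4096) (.ev
 (nat_lit 1904) (nat_lit 32) (.ev (nat_lit 1917) (nat_lit 2097152) .dd))))))))))))))))) (.br (nat_lit 16) (.ch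
 (nat_lit 15) (.ev (nat_lit 52) (nat_lit 549758181394) (.ev (nat_lit 756) (nat_lit 8589934592) (.ev (nat_lit
 896) (nat_lit 173946310816) .dd)))) (.br (nat_lit 18) (.ch (nat_lit 16) (.ev (nat_lit 52) (nat_lit
 139588546610) (.ev (nat_lit 404) (nat_lit 34359738368) (.nd (nat_lit 1696) (.br (nat_lit 7) (.br (nat_lit 2)
 (.ch (nat_lit 1) (.ev (nat_lit 1712) (nat_lit 558346010752) (.ev (nat_lit 1725) (nat_lit 131072) .dd))) (.ch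
 (nat_lit 2) (.ev (nat_lit 1712) (nat_lit 549756207232) (.ev (nat_lit 1725) (nat_lit 8589934592) .dd)))) (.br
 (nat_lit 8) (.ch (nat_lit 7) (.ev (nat_lit 1712) (nat_lit 262144) (.ev (nat_lit 1792) (nat_lit 128) (.ev
 (nat_lit 1892) (nat_lit 8590065664) (.ev (nat_lit 1901) (nat_lit 549755813888) .dd))))) (.br (nat_lit 9) (.ch
 (nat_lit 8) (.ev (nat_lit 1712) (nat_lit 558345879680) (.ev (nat_lit 1725) (nat_lit 262144) .dd))) (.ch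
 (nat_lit 9) (.ev (nat_lit 1712) (nat_lit 558346010624) (.ev (nat_lit 1892) (nat_lit 131072) (.ev (nat_lit
 1901) (nat_lit 128) .dd))))))))))) (.ch (nat_lit 18) (.ev (nat_lit 52) (nat_lit 137441058994) (.ev (nat_lit
 928) (nat_lit 594853367808) .dd))))))) (.br (nat_lit 29) (.br (nat_lit 23) (.br (nat_lit 22) (.ch (nat_lit 19)
 (.ev (nat_lit 52) (nat_lit 36509593616) (.ev (nat_lit 532) (nat_lit 131072) (.ev (nat_lit 564) (nat_lit 128)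
 (.nd (nat_lit 1696) (.br (nat_lit 6) (.br (nat_lit 1) (.ch (nat_lit 0) (.ev (nat_lit 1712) (nat_lit
 558345748482) (.ev (nat_lit 1892) (nat_lit 32) (.ev (nat_lit 1901) (nat_lit 137438953472) .dd)))) (.br
 (nat_lit 2) (.ch (nat_lit 1) (.ev (nat_lit 1712) (nat_lit 695784701952) (.ev (nat_lit 1728) (nat_lit 2) (.ev
 (nat_lit 1741) (nat_lit 32) .dd)))) (.ch (nat_lit 2) (.ev (nat_lit 1712) (nat_lit 34) (.ev (nat_lit 1892)
 (nat_lit 549755813888) (.ev (nat_lit 1904) (nat_lit 8589934592) (.ev (nat_lit 1917) (nat_lit 137438953472)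
 .dd))))))) (.br (nat_lit 9) (.br (nat_lit 8) (.ch (nat_lit 6) (.ev (nat_lit 1712) (nat_lit 558345748514) (.ev
 (nat_lit 1725) (nat_lit 137438953472) .dd))) (.ch (nat_lit 8) (.ev (nat_lit 1712) (nat_lit 695784701986)
 .dd))) (.br (nat_lit 11) (.ch (nat_lit 9) (.ev (nat_lit 1712) (nat_lit 695784701984) (.ev (nat_lit 1725)
 (nat_lit 2) .dd))) (.ch (nat_lit 11) (.ev (nat_lit 1712) (nat_lit 695784701986) .dd)))))))))) (.ch (nat_lit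
 22) (.ev (nat_lit 52) (nat_lit 594853376002) (.ev (nat_lit 180) (nat_lit 16) (.ev (nat_lit 436) (nat_lit 32)
 (.ev (nat_lit 1664) (nat_lit 128) (.nd (nat_lit 1696) (.br (nat_lit 2) (.br (nat_lit 1) (.ch (nat_lit 0) (.ev
 (nat_lit 1712) (nat_lit 2097152) (.ev (nat_lit 1725) (nat_lit 137438953472) .dd))) (.ch (nat_lit 1) (.ev
 (nat_lit 1712) (nat_lit 137438953472) (.ev (nat_lit 1725) (nat_lit 2097152) .dd)))) (.br (nat_lit 3) (.ch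
 (nat_lit 2) (.ev (nat_lit 1712) (nat_lit 2097152) (.ev (nat_lit 1725) (nat_lit 137438953472) .dd))) (.br
 (nat_lit 6) (.ch (nat_lit 3) (.ev (nat_lit 1712) (nat_lit 2097152) (.ev (nat_lit 1725) (nat_lit 137438953472)
 .dd))) (.ch (nat_lit 6) (.ev (nat_lit 1712) (nat_lit 137438953472) (.ev (nat_lit 1725) (nat_lit 2097152)
 .dd))))))))))))) (.br (nat_lit 24) (.ch (nat_lit 23) (.ev (nat_lit 52) (nat_lit 732294283312) (.ev (nat_lit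
 564) (nat_lit 4096) (.ev (nat_lit 1044) (nat_lit 8192) (.ev (nat_lit 1344) (nat_lit 131202) .dd))))) (.br
 (nat_lit 26) (.ch (nat_lit 24) (.ev (nat_lit 52) (nat_lit 732294156290) (.ev (nat_lit 564) (nat_lit 16) (.ev
 (nat_lit 1044) (nat_lit 128) (.ev (nat_lit 1376) (nat_lit 270368) .dd))))) (.ch (nat_lit 26) (.ev (nat_lit 52)
 (nat_lit 45097291792) (.ev (nat_lit 180) (nat_lit 128) (.ev (nat_lit 308) (nat_lit 8192) (.ev (nat_lit 340)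
 (nat_lit 32) (.ev (nat_lit 724) (nat_lit 2) (.ev (nat_lit 852) (nat_lit 137438953472) (.nd (nat_lit 1696) (.br
 (nat_lit 6) (.br (nat_lit 2) (.ch (nat_lit 1) (.ev (nat_lit 1712) (nat_lit 549758173184) .dd)) (.br (nat_lit
 3) (.ch (nat_lit 2) (.ev (nat_lit 1728) (nat_lit 2097152) (.ev (nat_lit 1892) (nat_lit 262144) (.ev (nat_lit
 1901) (nat_lit 549755813888) .dd)))) (.ch (nat_lit 3) (.ev (nat_lit 1712) (nat_lit 2359296) (.ev (nat_lit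
 1725) (nat_lit 549755813888) .dd))))) (.br (nat_lit 7) (.ch (nat_lit 6) (.ev (nat_lit 1712) (nat_lit 262144)
 (.ev (nat_lit 1728) (nat_lit 2097152) (.ev (nat_lit 1741) (nat_lit 549755813888) .dd)))) (.br (nat_lit 8) (.ch
 (nat_lit 7) (.ev (nat_lit 1712) (nat_lit 549758173184) .dd)) (.ch (nat_lit 8) (.ev (nat_lit 1712) (nat_lit
 549758173184) .dd)))))))))))))))) (.br (nat_lit 34) (.br (nat_lit 31) (.ch (nat_lit 29) (.ev (nat_lit 52)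
 (nat_lit 730144448546) (.ev (nat_lit 596) (nat_lit 2147483648) (.ev (nat_lit 788) (nat_lit 131072) (.nd
 (nat_lit 1696) (.br (nat_lit 8) (.br (nat_lit 6) (.ch (nat_lit 0) (.ev (nat_lit 1712) (nat_lit 2101376) (.ev
 (nat_lit 1808) (nat_lit 262144) (.ev (nat_lit 1821) (nat_lit 16) .dd)))) (.br (nat_lit 7) (.ch (nat_lit 6)
 (.ev (nat_lit 1712) (nat_lit 2363408) (.ev (nat_lit 1725) (nat_lit 128) .dd))) (.ch (nat_lit 7) (.ev (nat_lit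
 1712) (nat_lit 262288) (.ev (nat_lit 1744) (nat_lit 2097152) (.ev (nat_lit 1757) (nat_lit 4096) .dd)))))) (.br
 (nat_lit 9) (.ch (nat_lit 8) (.ev (nat_lit 1712) (nat_lit 2101392) (.ev (nat_lit 1725) (nat_lit 262144) .dd)))
 (.br (nat_lit 11) (.ch (nat_lit 9) (.ev (nat_lit 1712) (nat_lit 2097168) (.ev (nat_lit 1728) (nat_lit 262144)
 (.ev (nat_lit 1744) (nat_lit 4096) (.ev (nat_lit 1757) (nat_lit 128) .dd))))) (.ch (nat_lit 11) (.ev (nat_lit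
 1712) (nat_lit 266384) (.ev (nat_lit 1725) (nat_lit 2097152) .dd))))))))))) (.br (nat_lit 33) (.ch (nat_lit
 31) (.ev (nat_lit 52) (nat_lit 34362101888) (.ev (nat_lit 448) (nat_lit 697932324914) .dd))) (.ch (nat_lit 33)
 (.ev (nat_lit 52) (nat_lit 721554898978) (.ev (nat_lit 596) (nat_lit 8589934592) (.ev (nat_lit 1088) (nat_lit
 2149593232) .dd)))))) (.br (nat_lit 36) (.ch (nat_lit 34) (.ev (nat_lit 52) (nat_lit 182536507410) (.ev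
 (nat_lit 148) (nat_lit 2097152) (.ev (nat_lit 404) (nat_lit 8192) (.ev (nat_lit 724) (nat_lit 549755813888)
 (.nd (nat_lit 1696) (.br (nat_lit 6) (.br (nat_lit 3) (.ch (nat_lit 0) (.ev (nat_lit 1712) (nat_lit 128) (.ev
 (nat_lit 1725) (nat_lit 32) .dd))) (.ch (nat_lit 3) (.ev (nat_lit 1892) (nat_lit 32) (.ev (nat_lit 1901)
 (nat_lit 128) .dd)))) (.br (nat_lit 8) (.ch (nat_lit 6) (.ev (nat_lit 1712) (nat_lit 32) (.ev (nat_lit 1725)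
 (nat_lit 128) .dd))) (.br (nat_lit 11) (.ch (nat_lit 8) (.ev (nat_lit 1712) (nat_lit 160) .dd)) (.ch (nat_lit
 11) (.ev (nat_lit 1712) (nat_lit 160) .dd))))))))))) (.br (nat_lit 38) (.ch (nat_lit 36) (.ev (nat_lit 52)
 (nat_lit 146030985392) (.ev (nat_lit 116) (nat_lit 131072) (.ev (nat_lit 308) (nat_lit 34359738368) (.ev
 (nat_lit 532) (nat_lit 2147483648) (.ev (nat_lit 1012) (nat_lit 549755813888) (.ev (nat_lit 1204) (nat_lit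
 8192) (.nd (nat_lit 1696) (.br (nat_lit 7) (.br (nat_lit 1) (.ch (nat_lit 0) (.ev (nat_lit 1712) (nat_lit
 4098) (.ev (nat_lit 1725) (nat_lit 262144) .dd))) (.br (nat_lit 6) (.ch (nat_lit 1) (.ev (nat_lit 1712)
 (nat_lit 266240) (.ev (nat_lit 1725) (nat_lit 2) .dd))) (.ch (nat_lit 6) (.ev (nat_lit 1744) (nat_lit 266240)
 (.ev (nat_lit 1757) (nat_lit 2) .dd))))) (.br (nat_lit 8) (.ch (nat_lit 7) (.ev (nat_lit 1712) (nat_lit
 266242) .dd)) (.br (nat_lit 11) (.ch (nat_lit 8) (.ev (nat_lit 1712) (nat_lit 4098) (.ev (nat_lit 1725)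
 (nat_lit 262144) .dd))) (.ch (nat_lit 11) (.ev (nat_lit 1712) (nat_lit 262146) (.ev (nat_lit 1725) (nat_lit
 4096) .dd)))))))))))))) (.ch (nat_lit 38) (.ev (nat_lit 52) (nat_lit 689344741552) (.ev (nat_lit 180) (nat_lit
 4096) (.ev (nat_lit 436) (nat_lit 2) (.ev (nat_lit 1680) (nat_lit 8192) (.nd (nat_lit 1696) (.br (nat_lit 7)
 (.br (nat_lit 6) (.ch (nat_lit 3) (.ev (nat_lit 1712) (nat_lit 34359738368) (.ev (nat_lit 1725) (nat_lit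
 8589934592) .dd))) (.ch (nat_lit 6) (.ev (nat_lit 1712) (nat_lit 8589934592) (.ev (nat_lit 1725) (nat_lit
 34359738368) .dd)))) (.br (nat_lit 8) (.ch (nat_lit 7) (.ev (nat_lit 1712) (nat_lit 8589934592) (.ev (nat_lit
 1725) (nat_lit 34359738368) .dd))) (.br (nat_lit 9) (.ch (nat_lit 8) (.ev (nat_lit 1712) (nat_lit 34359738368)
 (.ev (nat_lit 1725) (nat_lit 8589934592) .dd))) (.ch (nat_lit 9) (.ev (nat_lit 1712) (nat_lit 8589934592) (.ev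
 (nat_lit 1725) (nat_lit 34359738368) .dd))))))))))))))))) (.br (nat_lit 54) (.br (nat_lit 47) (.br (nat_lit
 43) (.br (nat_lit 42) (.ch (nat_lit 39) (.ev (nat_lit 52) (nat_lit 42951782402) (.ev (nat_lit 116) (nat_lit
 262144) (.ev (nat_lit 308) (nat_lit 137438953472) (.ev (nat_lit 532) (nat_lit 549755813888) (.ev (nat_lit
 1012) (nat_lit 2147483648) (.ev (nat_lit 1204) (nat_lit 128) (.nd (nat_lit 1696) (.br (nat_lit 8) (.br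
 (nat_lit 2) (.ch (nat_lit 1) (.ev (nat_lit 1712) (nat_lit 48) (.ev (nat_lit 1725) (nat_lit 131072) .dd))) (.br
 (nat_lit 3) (.ch (nat_lit 2) (.ev (nat_lit 1712) (nat_lit 131120) .dd)) (.ch (nat_lit 3) (.ev (nat_lit 1744)
 (nat_lit 131088) (.ev (nat_lit 1757) (nat_lit 32) .dd))))) (.br (nat_lit 9) (.ch (nat_lit 8) (.ev (nat_lit
 1712) (nat_lit 131088) (.ev (nat_lit 1725) (nat_lit 32) .dd))) (.br (nat_lit 11) (.ch (nat_lit 9) (.ev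
 (nat_lit 1712) (nat_lit 48) (.ev (nat_lit 1725) (nat_lit 131072) .dd))) (.ch (nat_lit 11) (.ev (nat_lit 1712)
 (nat_lit 131104) (.ev (nat_lit 1725) (nat_lit 16) .dd)))))))))))))) (.ch (nat_lit 42) (.ev (nat_lit 52)
 (nat_lit 274464) (.ev (nat_lit 116) (nat_lit 549755813888) (.ev (nat_lit 212) (nat_lit 131072) (.ev (nat_lit
 596) (nat_lit 2) (.ev (nat_lit 660) (nat_lit 8589934592) (.ev (nat_lit 724) (nat_lit 2097152) (.ev (nat_lit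
 852) (nat_lit 16) (.ev (nat_lit 1268) (nat_lit 34359738368) (.nd (nat_lit 1696) (.br (nat_lit 6) (.br (nat_lit
 1) (.ch (nat_lit 0) (.ev (nat_lit 1712) (nat_lit 2147483776) (.ev (nat_lit 1725) (nat_lit 137438953472) .dd)))
 (.br (nat_lit 2) (.ch (nat_lit 1) (.ev (nat_lit 1712) (nat_lit 137438953600) (.ev (nat_lit 1725) (nat_lit
 2147483648) .dd))) (.ch (nat_lit 2) (.ev (nat_lit 1712) (nat_lit 128) (.ev (nat_lit 1892) (nat_lit 2147483648)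
 (.ev (nat_lit 1901) (nat_lit 137438953472) .dd)))))) (.br (nat_lit 9) (.br (nat_lit 8) (.ch (nat_lit 6) (.ev
 (nat_lit 1712) (nat_lit 128) (.ev (nat_lit 1892) (nat_lit 2147483648) (.ev (nat_lit 1901) (nat_lit
 137438953472) .dd)))) (.ch (nat_lit 8) (.ev (nat_lit 1712) (nat_lit 2147483648) (.ev (nat_lit 1728) (nat_lit
 128) (.ev (nat_lit 1741) (nat_lit 137438953472) .dd))))) (.br (nat_lit 11) (.ch (nat_lit 9) (.ev (nat_lit
 1712) (nat_lit 139586437248) .dd)) (.ch (nat_lit 11) (.ev (nat_lit 1712) (nat_lit 139586437248)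
 .dd)))))))))))))))) (.br (nat_lit 44) (.ch (nat_lit 43) (.ev (nat_lit 52) (nat_lit 146029027344) (.ev (nat_lit
 480) (nat_lit 586265399458) .dd))) (.br (nat_lit 46) (.ch (nat_lit 44) (.ev (nat_lit 52) (nat_lit
 695784837264) (.ev (nat_lit 532) (nat_lit 262144) (.ev (nat_lit 564) (nat_lit 8192) (.nd (nat_lit 1696) (.br
 (nat_lit 7) (.br (nat_lit 1) (.ch (nat_lit 0) (.ev (nat_lit 1712) (nat_lit 36509319170) (.ev (nat_lit 1725)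
 (nat_lit 32) .dd))) (.br (nat_lit 3) (.ch (nat_lit 1) (.ev (nat_lit 1712) (nat_lit 36509319202) .dd)) (.ch
 (nat_lit 3) (.ev (nat_lit 1712) (nat_lit 2149580834) (.ev (nat_lit 1725) (nat_lit 34359738368) .dd))))) (.br
 (nat_lit 9) (.br (nat_lit 8) (.ch (nat_lit 7) (.ev (nat_lit 1712) (nat_lit 34) (.ev (nat_lit 1892) (nat_lit
 2147483648) (.ev (nat_lit 1904) (nat_lit 2097152) (.ev (nat_lit 1917) (nat_lit 34359738368) .dd))))) (.ch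
 (nat_lit 8) (.ev (nat_lit 1712) (nat_lit 36509319168) (.ev (nat_lit 1728) (nat_lit 32) (.ev (nat_lit 1741)
 (nat_lit 2) .dd))))) (.br (nat_lit 11) (.ch (nat_lit 9) (.ev (nat_lit 1712) (nat_lit 2149580832) (.ev (nat_lit
 1892) (nat_lit 2) (.ev (nat_lit 1901) (nat_lit 34359738368) .dd)))) (.ch (nat_lit 11) (.ev (nat_lit 1712)
 (nat_lit 36509319202) .dd)))))))))) (.ch (nat_lit 46) (.ev (nat_lit 52) (nat_lit 139588800544) (.ev (nat_lit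
 84) (nat_lit 131072) (.ev (nat_lit 628) (nat_lit 549755813888) (.ev (nat_lit 692) (nat_lit 8192) (.ev (nat_lit
 1236) (nat_lit 128) (.nd (nat_lit 1696) (.br (nat_lit 7) (.br (nat_lit 3) (.ch (nat_lit 2) (.ev (nat_lit 1712)
 (nat_lit 34359738368) (.ev (nat_lit 1892) (nat_lit 16) (.ev (nat_lit 1904) (nat_lit 2) (.ev (nat_lit 1917)
 (nat_lit 8589934592) .dd))))) (.br (nat_lit 6) (.ch (nat_lit 3) (.ev (nat_lit 1712) (nat_lit 8589934610) (.ev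
 (nat_lit 1725) (nat_lit 34359738368) .dd))) (.ch (nat_lit 6) (.ev (nat_lit 1712) (nat_lit 42949672962) (.ev
 (nat_lit 1725) (nat_lit 16) .dd))))) (.br (nat_lit 8) (.ch (nat_lit 7) (.ev (nat_lit 1712) (nat_lit
 42949672978) .dd)) (.br (nat_lit 9) (.ch (nat_lit 8) (.ev (nat_lit 1712) (nat_lit 34359738386) (.ev (nat_lit
 1725) (nat_lit 8589934592) .dd))) (.ch (nat_lit 9) (.ev (nat_lit 1712) (nat_lit 8589934608) (.ev (nat_lit
 1744) (nat_lit 34359738368) (.ev (nat_lit 1757) (nat_lit 2) .dd))))))))))))))))) (.br (nat_lit 50) (.br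
 (nat_lit 48) (.ch (nat_lit 47) (.ev (nat_lit 52) (nat_lit 689344360450) (.ev (nat_lit 116) (nat_lit 32) (.ev
 (nat_lit 212) (nat_lit 8589934592) (.ev (nat_lit 596) (nat_lit 262144) (.ev (nat_lit 1044) (nat_lit 16) (.ev
 (nat_lit 1172) (nat_lit 128) (.nd (nat_lit 1696) (.br (nat_lit 7) (.br (nat_lit 1) (.ch (nat_lit 0) (.ev
 (nat_lit 1936) (nat_lit 34359869440) .dd)) (.br (nat_lit 6) (.ch (nat_lit 1) (.ev (nat_lit 1712) (nat_lit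
 34359738368) (.ev (nat_lit 1725) (nat_lit 131072) .dd))) (.ch (nat_lit 6) (.ev (nat_lit 1712) (nat_lit 131072)
 (.ev (nat_lit 1725) (nat_lit 34359738368) .dd))))) (.br (nat_lit 9) (.ch (nat_lit 7) (.ev (nat_lit 1936)
 (nat_lit 34359869440) .dd)) (.br (nat_lit 11) (.ch (nat_lit 9) (.ev (nat_lit 1712) (nat_lit 34359869440) .dd))
 (.ch (nat_lit 11) (.ev (nat_lit 1712) (nat_lit 34359869440) .dd))))))))))))) (.br (nat_lit 49) (.ch (nat_lit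
 48) (.ev (nat_lit 52) (nat_lit 594852970672) (.ev (nat_lit 116) (nat_lit 2) (.ev (nat_lit 212) (nat_lit
 2097152) (.ev (nat_lit 596) (nat_lit 131072) (.ev (nat_lit 1044) (nat_lit 4096) (.ev (nat_lit 1172) (nat_lit
 8192) (.nd (nat_lit 1696) (.br (nat_lit 8) (.br (nat_lit 2) (.ch (nat_lit 0) (.ev (nat_lit 1712) (nat_lit
 137439215616) .dd)) (.br (nat_lit 3) (.ch (nat_lit 2) (.ev (nat_lit 1936) (nat_lit 137439215616) .dd)) (.ch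
 (nat_lit 3) (.ev (nat_lit 1712) (nat_lit 262144) (.ev (nat_lit 1725) (nat_lit 137438953472) .dd))))) (.br
 (nat_lit 9) (.ch (nat_lit 8) (.ev (nat_lit 1712) (nat_lit 137438953472) (.ev (nat_lit 1725) (nat_lit 262144)
 .dd))) (.br (nat_lit 11) (.ch (nat_lit 9) (.ev (nat_lit 1936) (nat_lit 137439215616) .dd)) (.ch (nat_lit 11)
 (.ev (nat_lit 1712) (nat_lit 137439215616) .dd))))))))))))) (.ch (nat_lit 49) (.ev (nat_lit 52) (nat_lit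
 173946568738) (.ev (nat_lit 596) (nat_lit 2097152) (.ev (nat_lit 1056) (nat_lit 558345760912) .dd)))))) (.br
 (nat_lit 51) (.ch (nat_lit 50) (.ev (nat_lit 52) (nat_lit 148178870306) (.ev (nat_lit 1312) (nat_lit
 584115556496) .dd))) (.br (nat_lit 53) (.ch (nat_lit 51) (.ev (nat_lit 52) (nat_lit 10737553568) (.ev (nat_lit
 756) (nat_lit 2097152) (.ev (nat_lit 800) (nat_lit 721554776082) .dd)))) (.ch (nat_lit 53) (.ev (nat_lit 52)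
 (nat_lit 42952040496) (.ev (nat_lit 212) (nat_lit 549755813888) (.ev (nat_lit 980) (nat_lit 4096) (.nd
 (nat_lit 1696) (.br (nat_lit 3) (.br (nat_lit 1) (.ch (nat_lit 0) (.ev (nat_lit 1712) (nat_lit 139586568322)
 .dd)) (.br (nat_lit 2) (.ch (nat_lit 1) (.ev (nat_lit 1712) (nat_lit 137439084672) (.ev (nat_lit 1728)
 (nat_lit 2) (.ev (nat_lit 1741) (nat_lit 2147483648) .dd)))) (.ch (nat_lit 2) (.ev (nat_lit 1712) (nat_lit
 139586568320) (.ev (nat_lit 1725) (nat_lit 2) .dd))))) (.br (nat_lit 8) (.ch (nat_lit 3) (.ev (nat_lit 1712)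
 (nat_lit 137438953602) (.ev (nat_lit 1792) (nat_lit 131072) (.ev (nat_lit 1805) (nat_lit 2147483648) .dd))))
 (.br (nat_lit 11) (.ch (nat_lit 8) (.ev (nat_lit 1712) (nat_lit 2147614722) (.ev (nat_lit 1744) (nat_lit 128)
 (.ev (nat_lit 1757) (nat_lit 137438953472) .dd)))) (.ch (nat_lit 11) (.ev (nat_lit 1712) (nat_lit
 139586568322) .dd)))))))))))))) (.br (nat_lit 64) (.br (nat_lit 57) (.br (nat_lit 55) (.ch (nat_lit 54) (.ev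
 (nat_lit 52) (nat_lit 687197130768) (.ev (nat_lit 180) (nat_lit 8192) (.ev (nat_lit 308) (nat_lit 128) (.ev
 (nat_lit 340) (nat_lit 2) (.ev (nat_lit 724) (nat_lit 32) (.ev (nat_lit 852) (nat_lit 34359738368) (.nd
 (nat_lit 1696) (.br (nat_lit 6) (.br (nat_lit 2) (.ch (nat_lit 1) (.ev (nat_lit 1712) (nat_lit 10737549312)
 .dd)) (.br (nat_lit 3) (.ch (nat_lit 2) (.ev (nat_lit 1712) (nat_lit 10737549312) .dd)) (.ch (nat_lit 3) (.ev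
 (nat_lit 1712) (nat_lit 131072) (.ev (nat_lit 1728) (nat_lit 8589934592) (.ev (nat_lit 1741) (nat_lit
 2147483648) .dd)))))) (.br (nat_lit 7) (.ch (nat_lit 6) (.ev (nat_lit 1712) (nat_lit 8590065664) (.ev (nat_lit
 1725) (nat_lit 2147483648) .dd))) (.br (nat_lit 8) (.ch (nat_lit 7) (.ev (nat_lit 1728) (nat_lit 8589934592)
 (.ev (nat_lit 1892) (nat_lit 131072) (.ev (nat_lit 1901) (nat_lit 2147483648) .dd)))) (.ch (nat_lit 8) (.ev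
 (nat_lit 1712) (nat_lit 10737549312) .dd))))))))))))) (.ch (nat_lit 55) (.ev (nat_lit 52) (nat_lit
 560493502480) (.ev (nat_lit 148) (nat_lit 32) (.ev (nat_lit 308) (nat_lit 4096) (.ev (nat_lit 1172) (nat_lit
 34359738368) (.nd (nat_lit 1696) (.br (nat_lit 8) (.br (nat_lit 2) (.ch (nat_lit 1) (.ev (nat_lit 1712)
 (nat_lit 137439084672) (.ev (nat_lit 1824) (nat_lit 2) (.ev (nat_lit 1837) (nat_lit 2097152) .dd)))) (.br
 (nat_lit 7) (.ch (nat_lit 2) (.ev (nat_lit 1712) (nat_lit 137439084674) (.ev (nat_lit 1725) (nat_lit 2097152)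
 .dd))) (.ch (nat_lit 7) (.ev (nat_lit 1712) (nat_lit 137441050626) (.ev (nat_lit 1728) (nat_lit 131200)
 .dd))))) (.br (nat_lit 9) (.ch (nat_lit 8) (.ev (nat_lit 1712) (nat_lit 2228352) (.ev (nat_lit 1892) (nat_lit
 137438953472) (.ev (nat_lit 1901) (nat_lit 2) .dd)))) (.br (nat_lit 11) (.ch (nat_lit 9) (.ev (nat_lit 1712)
 (nat_lit 137441181826) .dd)) (.ch (nat_lit 11) (.ev (nat_lit 1712) (nat_lit 137439084674) (.ev (nat_lit 1725)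
 (nat_lit 2097152) .dd))))))))))))) (.br (nat_lit 58) (.ch (nat_lit 57) (.ev (nat_lit 52) (nat_lit
 721554899074) (.ev (nat_lit 628) (nat_lit 2097152) (.ev (nat_lit 1140) (nat_lit 4096) (.ev (nat_lit 1172)
 (nat_lit 16) (.ev (nat_lit 1268) (nat_lit 8192) (.nd (nat_lit 1696) (.br (nat_lit 7) (.br (nat_lit 2) (.ch
 (nat_lit 0) (.ev (nat_lit 1712) (nat_lit 10737418272) .dd)) (.ch (nat_lit 2) (.ev (nat_lit 1712) (nat_lit 32)
 (.ev (nat_lit 1892) (nat_lit 8589934592) (.ev (nat_lit 1901) (nat_lit 2147483648) .dd))))) (.br (nat_lit 8)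
 (.ch (nat_lit 7) (.ev (nat_lit 1712) (nat_lit 32) (.ev (nat_lit 1892) (nat_lit 2147483648) (.ev (nat_lit 1901)
 (nat_lit 8589934592) .dd)))) (.br (nat_lit 11) (.ch (nat_lit 8) (.ev (nat_lit 1712) (nat_lit 10737418240) (.ev
 (nat_lit 1725) (nat_lit 32) .dd))) (.ch (nat_lit 11) (.ev (nat_lit 1712) (nat_lit 10737418272) .dd))))))))))))
 (.br (nat_lit 62) (.ch (nat_lit 58) (.ev (nat_lit 52) (nat_lit 721557000240) (.ev (nat_lit 148) (nat_lit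
 8589934592) (.ev (nat_lit 404) (nat_lit 128) (.ev (nat_lit 724) (nat_lit 2147483648) (.nd (nat_lit 1696) (.br
 (nat_lit 6) (.br (nat_lit 3) (.ch (nat_lit 1) (.ev (nat_lit 1712) (nat_lit 8194) .dd)) (.ch (nat_lit 3) (.ev
 (nat_lit 1712) (nat_lit 2) (.ev (nat_lit 1725) (nat_lit 8192) .dd)))) (.br (nat_lit 9) (.ch (nat_lit 6) (.ev
 (nat_lit 1892) (nat_lit 2) (.ev (nat_lit 1901) (nat_lit 8192) .dd))) (.br (nat_lit 11) (.ch (nat_lit 9) (.ev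
 (nat_lit 1712) (nat_lit 8192) (.ev (nat_lit 1725) (nat_lit 2) .dd))) (.ch (nat_lit 11) (.ev (nat_lit 1712)
 (nat_lit 8194) .dd))))))))))) (.ch (nat_lit 62) (.ev (nat_lit 52) (nat_lit 173946576928) (.ev (nat_lit 628)
 (nat_lit 8589934592) (.ev (nat_lit 1140) (nat_lit 16) (.ev (nat_lit 1172) (nat_lit 4096) (.ev (nat_lit 1268)
 (nat_lit 128) (.nd (nat_lit 1696) (.br (nat_lit 7) (.br (nat_lit 2) (.ch (nat_lit 1) (.ev (nat_lit 1712)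
 (nat_lit 549757911040) (.ev (nat_lit 1725) (nat_lit 2) .dd))) (.ch (nat_lit 2) (.ev (nat_lit 1712) (nat_lit 2)
 (.ev (nat_lit 1892) (nat_lit 2097152) (.ev (nat_lit 1901) (nat_lit 549755813888) .dd))))) (.br (nat_lit 9)
 (.ch (nat_lit 7) (.ev (nat_lit 1712) (nat_lit 2) (.ev (nat_lit 1892) (nat_lit 2097152) (.ev (nat_lit 1901)
 (nat_lit 549755813888) .dd)))) (.br (nat_lit 11) (.ch (nat_lit 9) (.ev (nat_lit 1712) (nat_lit 549757911042)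
 .dd)) (.ch (nat_lit 11) (.ev (nat_lit 1712) (nat_lit 549757911042) .dd))))))))))))))) (.br (nat_lit 68) (.br
 (nat_lit 65) (.ch (nat_lit 64) (.ev (nat_lit 52) (nat_lit 146031120514) (.ev (nat_lit 212) (nat_lit
 2147483648) (.ev (nat_lit 980) (nat_lit 16) (.nd (nat_lit 1696) (.br (nat_lit 8) (.br (nat_lit 6) (.ch
 (nat_lit 1) (.ev (nat_lit 1712) (nat_lit 549756076064) (.ev (nat_lit 1744) (nat_lit 8192) (.ev (nat_lit 1757)
 (nat_lit 34359738368) .dd)))) (.br (nat_lit 7) (.ch (nat_lit 6) (.ev (nat_lit 1712) (nat_lit 34359746592) (.ev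
 (nat_lit 1792) (nat_lit 262144) (.ev (nat_lit 1805) (nat_lit 549755813888) .dd)))) (.ch (nat_lit 7) (.ev
 (nat_lit 1712) (nat_lit 584115822592) (.ev (nat_lit 1725) (nat_lit 32) .dd))))) (.br (nat_lit 9) (.ch (nat_lit
 8) (.ev (nat_lit 1712) (nat_lit 34360008704) (.ev (nat_lit 1728) (nat_lit 32) (.ev (nat_lit 1741) (nat_lit
 549755813888) .dd)))) (.br (nat_lit 11) (.ch (nat_lit 9) (.ev (nat_lit 1712) (nat_lit 584115822624) .dd)) (.ch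
 (nat_lit 11) (.ev (nat_lit 1712) (nat_lit 584115822624) .dd)))))))))) (.br (nat_lit 67) (.ch (nat_lit 65) (.ev
 (nat_lit 52) (nat_lit 592707977378) (.ev (nat_lit 1280) (nat_lit 139586449424) .dd))) (.ch (nat_lit 67) (.ev
 (nat_lit 52) (nat_lit 171800801314) (.ev (nat_lit 84) (nat_lit 8589934592) (.ev (nat_lit 372) (nat_lit
 549755813888) (.ev (nat_lit 436) (nat_lit 131072) (.nd (nat_lit 1696) (.br (nat_lit 6) (.br (nat_lit 1) (.ch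
 (nat_lit 0) (.ev (nat_lit 1712) (nat_lit 2147745920) (.ev (nat_lit 1725) (nat_lit 16) .dd))) (.br (nat_lit 3)
 (.ch (nat_lit 1) (.ev (nat_lit 1712) (nat_lit 262288) (.ev (nat_lit 1725) (nat_lit 2147483648) .dd))) (.ch
 (nat_lit 3) (.ev (nat_lit 1712) (nat_lit 262144) (.ev (nat_lit 1892) (nat_lit 2147483648) (.ev (nat_lit 1904)
 (nat_lit 128) (.ev (nat_lit 1917) (nat_lit 16) .dd))))))) (.br (nat_lit 7) (.ch (nat_lit 6) (.ev (nat_lit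
 1712) (nat_lit 2147483664) (.ev (nat_lit 1744) (nat_lit 262144) (.ev (nat_lit 1757) (nat_lit 128) .dd)))) (.br
 (nat_lit 9) (.ch (nat_lit 7) (.ev (nat_lit 1712) (nat_lit 2147745936) .dd)) (.ch (nat_lit 9) (.ev (nat_lit
 1712) (nat_lit 2147483792) (.ev (nat_lit 1725) (nat_lit 262144) .dd)))))))))))))) (.br (nat_lit 69) (.ch
 (nat_lit 68) (.ev (nat_lit 52) (nat_lit 173948272802) (.ev (nat_lit 596) (nat_lit 549755813888) (.ev (nat_lit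
 788) (nat_lit 262144) (.nd (nat_lit 1696) (.br (nat_lit 3) (.br (nat_lit 1) (.ch (nat_lit 0) (.ev (nat_lit
 1712) (nat_lit 8589938688) (.ev (nat_lit 1728) (nat_lit 131072) (.ev (nat_lit 1744) (nat_lit 16) (.ev (nat_lit
 1757) (nat_lit 8192) .dd))))) (.br (nat_lit 2) (.ch (nat_lit 1) (.ev (nat_lit 1712) (nat_lit 8589946896) (.ev
 (nat_lit 1725) (nat_lit 131072) .dd))) (.ch (nat_lit 2) (.ev (nat_lit 1712) (nat_lit 143360) (.ev (nat_lit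
 1744) (nat_lit 8589934592) (.ev (nat_lit 1757) (nat_lit 16) .dd)))))) (.br (nat_lit 9) (.ch (nat_lit 3) (.ev
 (nat_lit 1712) (nat_lit 8590069776) (.ev (nat_lit 1725) (nat_lit 8192) .dd))) (.br (nat_lit 11) (.ch (nat_lit
 9) (.ev (nat_lit 1712) (nat_lit 8589942800) (.ev (nat_lit 1808) (nat_lit 131072) (.ev (nat_lit 1821) (nat_lit
 4096) .dd)))) (.ch (nat_lit 11) (.ev (nat_lit 1712) (nat_lit 143376) (.ev (nat_lit 1725) (nat_lit 8589934592)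
 .dd))))))))))) (.br (nat_lit 70) (.ch (nat_lit 69) (.ev (nat_lit 52) (nat_lit 558347985026) (.ev (nat_lit 180)
 (nat_lit 34359738368) (.ev (nat_lit 340) (nat_lit 262144) (.ev (nat_lit 1504) (nat_lit 32) (.nd (nat_lit 1696)
 (.br (nat_lit 8) (.br (nat_lit 3) (.ch (nat_lit 0) (.ev (nat_lit 1712) (nat_lit 2147487744) (.ev (nat_lit
 1892) (nat_lit 16) (.ev (nat_lit 1901) (nat_lit 137438953472) .dd)))) (.br (nat_lit 6) (.ch (nat_lit 3) (.ev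
 (nat_lit 1712) (nat_lit 139586441232) .dd)) (.ch (nat_lit 6) (.ev (nat_lit 1712) (nat_lit 137438953472) (.ev
 (nat_lit 1776) (nat_lit 2147487744) (.ev (nat_lit 1789) (nat_lit 16) .dd)))))) (.br (nat_lit 9) (.ch (nat_lit
 8) (.ev (nat_lit 1712) (nat_lit 139586441232) .dd)) (.br (nat_lit 11) (.ch (nat_lit 9) (.ev (nat_lit 1712)
 (nat_lit 2147487760) (.ev (nat_lit 1725) (nat_lit 137438953472) .dd))) (.ch (nat_lit 11) (.ev (nat_lit 1712)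
 (nat_lit 139586441216) (.ev (nat_lit 1725) (nat_lit 16) .dd)))))))))))) (.ch (nat_lit 70) (.ev (nat_lit 52)
 (nat_lit 592705491122) (.ev (nat_lit 404) (nat_lit 137438953472) (.nd (nat_lit 1696) (.br (nat_lit 2) (.br
 (nat_lit 1) (.ch (nat_lit 0) (.ev (nat_lit 1712) (nat_lit 2149711872) (.ev (nat_lit 1892) (nat_lit 262144)
 (.ev (nat_lit 1901) (nat_lit 8192) .dd)))) (.ch (nat_lit 1) (.ev (nat_lit 1712) (nat_lit 2149851136) (.ev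
 (nat_lit 1725) (nat_lit 131072) .dd)))) (.br (nat_lit 7) (.ch (nat_lit 2) (.ev (nat_lit 1712) (nat_lit 131072)
 (.ev (nat_lit 1792) (nat_lit 8192) (.ev (nat_lit 1892) (nat_lit 2359296) (.ev (nat_lit 1901) (nat_lit
 2147483648) .dd))))) (.br (nat_lit 8) (.ch (nat_lit 7) (.ev (nat_lit 1712) (nat_lit 2147885056) (.ev (nat_lit
 1725) (nat_lit 2097152) .dd))) (.ch (nat_lit 8) (.ev (nat_lit 1712) (nat_lit 2149720064) (.ev (nat_lit 1725)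
 (nat_lit 262144) .dd))))))))))))))))))

/-- Subtrie. -/
noncomputable def T5 : Tr := (.ev (nat_lit 20) (nat_lit 4552699150354) (.nd (nat_lit 33) (.br (nat_lit 39) (.br
 (nat_lit 19) (.br (nat_lit 8) (.br (nat_lit 4) (.br (nat_lit 3) (.ch (nat_lit 1) (.ev (nat_lit 52) (nat_lit
 551972640192) (.ev (nat_lit 244) (nat_lit 8589934592) (.ev (nat_lit 736) (nat_lit 379035066912) .dd)))) (.ch
 (nat_lit 3) (.ev (nat_lit 52) (nat_lit 343668819840) (.ev (nat_lit 320) (nat_lit 595928821856) .dd)))) (.br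
 (nat_lit 5) (.ch (nat_lit 4) (.ev (nat_lit 52) (nat_lit 317827581152) (.ev (nat_lit 308) (nat_lit 8192) (.ev
 (nat_lit 404) (nat_lit 2097664) (.ev (nat_lit 628) (nat_lit 1073741824) (.ev (nat_lit 852) (nat_lit 256) (.ev
 (nat_lit 1140) (nat_lit 4194304) (.nd (nat_lit 1696) (.br (nat_lit 8) (.br (nat_lit 1) (.ch (nat_lit 0) (.ev
 (nat_lit 1712) (nat_lit 551903428608) (.ev (nat_lit 1892) (nat_lit 67112960) (.ev (nat_lit 1901) (nat_lit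
 68719476736) .dd)))) (.br (nat_lit 5) (.ch (nat_lit 1) (.ev (nat_lit 1712) (nat_lit 68719480832) (.ev (nat_lit
 1892) (nat_lit 2147614720) (.fin (nat_lit 576448107926471216))))) (.ch (nat_lit 5) (.ev (nat_lit 1712)
 (nat_lit 620689887232) (.ev (nat_lit 1725) (nat_lit 131072) .dd))))) (.br (nat_lit 11) (.br (nat_lit 9) (.ch
 (nat_lit 8) (.ev (nat_lit 1712) (nat_lit 70934073344) (.ev (nat_lit 1808) (nat_lit 131072) (.ev (nat_lit 1821)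
 (nat_lit 549755813888) .dd)))) (.ch (nat_lit 9) (.ev (nat_lit 1712) (nat_lit 70934204416) (.ev (nat_lit 1725)
 (nat_lit 549755813888) .dd)))) (.br (nat_lit 12) (.ch (nat_lit 11) (.ev (nat_lit 1712) (nat_lit 618475425792)
 (.ev (nat_lit 1808) (nat_lit 2147483648) (.ev (nat_lit 1821) (nat_lit 67108864) .dd)))) (.ch (nat_lit 12) (.ev
 (nat_lit 1712) (nat_lit 618542534656) (.ev (nat_lit 1725) (nat_lit 2147483648) .dd)))))))))))))) (.br (nat_lit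
 7) (.ch (nat_lit 5) (.ev (nat_lit 52) (nat_lit 312465162560) (.ev (nat_lit 244) (nat_lit 4096) (.ev (nat_lit
 500) (nat_lit 8589934592) (.ev (nat_lit 532) (nat_lit 549755813888) (.ev (nat_lit 660) (nat_lit 128) (.nd
 (nat_lit 1696) (.br (nat_lit 8) (.br (nat_lit 4) (.ch (nat_lit 0) (.ev (nat_lit 1712) (nat_lit 68719609376)
 (.ev (nat_lit 1892) (nat_lit 8192) (.ev (nat_lit 1901) (nat_lit 67108864) .dd)))) (.br (nat_lit 5) (.ch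
 (nat_lit 4) (.ev (nat_lit 1712) (nat_lit 140832) (.ev (nat_lit 1872) (nat_lit 67108864) (.ev (nat_lit 1885)
 (nat_lit 68719476736) .dd)))) (.ch (nat_lit 5) (.ev (nat_lit 1712) (nat_lit 67240480) (.ev (nat_lit 1872)
 (nat_lit 8192) (.ev (nat_lit 1904) (nat_lit 68719476736) (.ev (nat_lit 1917) (nat_lit 1024) .dd))))))) (.br
 (nat_lit 11) (.ch (nat_lit 8) (.ev (nat_lit 1712) (nat_lit 68719608832) (.ev (nat_lit 1892) (nat_lit 67117056)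
 (.ev (nat_lit 1984) (nat_lit 544) .dd)))) (.br (nat_lit 12) (.ch (nat_lit 11) (.ev (nat_lit 1712) (nat_lit
 68786725376) (.ev (nat_lit 1744) (nat_lit 1024) (.ev (nat_lit 1757) (nat_lit 32) .dd)))) (.ch (nat_lit 12)
 (.ev (nat_lit 1712) (nat_lit 68786594848) (.ev (nat_lit 1840) (nat_lit 512) (.ev (nat_lit 1853) (nat_lit
 131072) .dd)))))))))))))) (.ch (nat_lit 7) (.ev (nat_lit 52) (nat_lit 317894701536) (.ev (nat_lit 84) (nat_lit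
 549755813888) (.ev (nat_lit 532) (nat_lit 68719476736) (.ev (nat_lit 1140) (nat_lit 1024) (.ev (nat_lit 1600)
 (nat_lit 4194304) (.nd (nat_lit 1696) (.br (nat_lit 6) (.br (nat_lit 5) (.ch (nat_lit 4) (.ev (nat_lit 1712)
 (nat_lit 2228736) (.ev (nat_lit 1776) (nat_lit 1073741824) (.ev (nat_lit 1789) (nat_lit 2147483648) .dd))))
 (.ch (nat_lit 5) (.ev (nat_lit 1712) (nat_lit 2149712384) (.ev (nat_lit 1725) (nat_lit 1073741824) .dd))))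
 (.br (nat_lit 8) (.ch (nat_lit 6) (.ev (nat_lit 1712) (nat_lit 3223453696) (.ev (nat_lit 1725) (nat_lit 512)
 .dd))) (.br (nat_lit 12) (.ch (nat_lit 8) (.ev (nat_lit 1712) (nat_lit 3223322624) (.ev (nat_lit 1728)
 (nat_lit 131072) (.ev (nat_lit 1741) (nat_lit 512) .dd)))) (.ch (nat_lit 12) (.ev (nat_lit 1712) (nat_lit
 2147615232) (.ev (nat_lit 1744) (nat_lit 1073741824) (.ev (nat_lit 1757) (nat_lit 2097152)
 .dd))))))))))))))))) (.br (nat_lit 15) (.br (nat_lit 11) (.ch (nat_lit 8) (.ev (nat_lit 52) (nat_lit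
 11817461664) (.ev (nat_lit 660) (nat_lit 34359738368) (.ev (nat_lit 1332) (nat_lit 131072) (.ev (nat_lit 1424)
 (nat_lit 68719476736) (.nd (nat_lit 1696) (.br (nat_lit 4) (.br (nat_lit 1) (.ch (nat_lit 0) (.ev (nat_lit
 1712) (nat_lit 824633724992) (.ev (nat_lit 1725) (nat_lit 67108864) .dd))) (.ch (nat_lit 1) (.ev (nat_lit
 1712) (nat_lit 67113024) (.ev (nat_lit 1728) (nat_lit 549755813888) (.ev (nat_lit 1741) (nat_lit 274877906944)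
 .dd))))) (.br (nat_lit 9) (.ch (nat_lit 4) (.ev (nat_lit 1712) (nat_lit 824633720896) (.ev (nat_lit 1776)
 (nat_lit 67108864) (.ev (nat_lit 1789) (nat_lit 4096) .dd)))) (.br (nat_lit 11) (.ch (nat_lit 9) (.ev (nat_lit
 1712) (nat_lit 549822926912) (.ev (nat_lit 1725) (nat_lit 274877906944) .dd))) (.ch (nat_lit 11) (.ev (nat_lit
 1712) (nat_lit 824633724928) (.ev (nat_lit 1744) (nat_lit 67108864) (.ev (nat_lit 1757) (nat_lit 64)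
 .dd))))))))))))) (.br (nat_lit 12) (.ch (nat_lit 11) (.ev (nat_lit 52) (nat_lit 901943134048) (.ev (nat_lit
 212) (nat_lit 1073741824) (.ev (nat_lit 340) (nat_lit 67108864) (.ev (nat_lit 372) (nat_lit 34359738368) (.ev
 (nat_lit 756) (nat_lit 128) (.nd (nat_lit 1696) (.br (nat_lit 5) (.br (nat_lit 1) (.ch (nat_lit 0) (.ev
 (nat_lit 1712) (nat_lit 2149711872) (.ev (nat_lit 1728) (nat_lit 8192) (.ev (nat_lit 1892) (nat_lit 4096) (.ev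
 (nat_lit 1901) (nat_lit 4194304) .dd))))) (.br (nat_lit 4) (.ch (nat_lit 1) (.ev (nat_lit 1712) (nat_lit
 2105344) (.ev (nat_lit 1728) (nat_lit 4194304) (.ev (nat_lit 1824) (nat_lit 131072) (.ev (nat_lit 1892)
 (nat_lit 4096) (.ev (nat_lit 1901) (nat_lit 2147483648) .dd)))))) (.ch (nat_lit 4) (.ev (nat_lit 1712)
 (nat_lit 2153914368) (.ev (nat_lit 1725) (nat_lit 4096) .dd))))) (.br (nat_lit 6) (.ch (nat_lit 5) (.ev
 (nat_lit 1712) (nat_lit 2153918464) .dd)) (.br (nat_lit 9) (.ch (nat_lit 6) (.ev (nat_lit 1712) (nat_lit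
 6434816) (.ev (nat_lit 1725) (nat_lit 2147483648) .dd))) (.ch (nat_lit 9) (.ev (nat_lit 1712) (nat_lit
 2151690240) (.ev (nat_lit 1760) (nat_lit 2097152) (.ev (nat_lit 1773) (nat_lit 131072) .dd)))))))))))))) (.ch
 (nat_lit 12) (.ev (nat_lit 52) (nat_lit 593783554560) (.ev (nat_lit 64) (nat_lit 345814087136) .dd))))) (.br
 (nat_lit 16) (.ch (nat_lit 15) (.ev (nat_lit 52) (nat_lit 549825029376) (.ev (nat_lit 116) (nat_lit 128) (.ev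
 (nat_lit 148) (nat_lit 68719476736) (.ev (nat_lit 180) (nat_lit 32) (.ev (nat_lit 404) (nat_lit 2147483648)
 (.ev (nat_lit 532) (nat_lit 34359738368) (.ev (nat_lit 884) (nat_lit 131072) (.ev (nat_lit 1204) (nat_lit
 4194304) (.ev (nat_lit 1364) (nat_lit 4096) (.ev (nat_lit 1440) (nat_lit 512) (.nd (nat_lit 1696) (.br
 (nat_lit 9) (.br (nat_lit 4) (.ch (nat_lit 0) (.ev (nat_lit 1712) (nat_lit 9663676480) (.ev (nat_lit 1725)
 (nat_lit 274877906944) .dd))) (.br (nat_lit 5) (.ch (nat_lit 4) (.ev (nat_lit 1712) (nat_lit 274877907008)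
 (.ev (nat_lit 1760) (nat_lit 8589934592) (.ev (nat_lit 1773) (nat_lit 1073741824) .dd)))) (.ch (nat_lit 5)
 (.ev (nat_lit 1712) (nat_lit 284541583424) .dd)))) (.br (nat_lit 11) (.ch (nat_lit 9) (.ev (nat_lit 1712)
 (nat_lit 8589934592) (.ev (nat_lit 1728) (nat_lit 274877906944) (.ev (nat_lit 1760) (nat_lit 64) (.ev (nat_lit
 1773) (nat_lit 1073741824) .dd))))) (.br (nat_lit 12) (.ch (nat_lit 11) (.ev (nat_lit 1712) (nat_lit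
 275951648768) (.ev (nat_lit 1892) (nat_lit 64) (.ev (nat_lit 1901) (nat_lit 8589934592) .dd)))) (.ch (nat_lit
 12) (.ev (nat_lit 1712) (nat_lit 283467841600) (.ev (nat_lit 1725) (nat_lit 1073741824) .dd))))))))))))))))))
 (.br (nat_lit 18) (.ch (nat_lit 16) (.ev (nat_lit 52) (nat_lit 3290445088) (.ev (nat_lit 84) (nat_lit
 34359738368) (.ev (nat_lit 116) (nat_lit 64) (.ev (nat_lit 852) (nat_lit 512) (.ev (nat_lit 948) (nat_lit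
 131072) (.nd (nat_lit 1696) (.br (nat_lit 5) (.br (nat_lit 1) (.ch (nat_lit 0) (.ev (nat_lit 1712) (nat_lit
 549760008320) (.ev (nat_lit 1760) (nat_lit 274877906944) (.ev (nat_lit 1904) (nat_lit 68719476736) (.ev
 (nat_lit 1917) (nat_lit 8589934592) .dd))))) (.br (nat_lit 4) (.ch (nat_lit 1) (.ev (nat_lit 1712) (nat_lit
 893353197568) (.ev (nat_lit 1840) (nat_lit 128) (.ev (nat_lit 1892) (nat_lit 4194304) (.ev (nat_lit 1901)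
 (nat_lit 8589934592) .dd))))) (.ch (nat_lit 4) (.ev (nat_lit 1712) (nat_lit 352191512704) (.ev (nat_lit 1725)
 (nat_lit 549755813888) .dd))))) (.br (nat_lit 6) (.ch (nat_lit 5) (.ev (nat_lit 1712) (nat_lit 833227849728)
 (.fin (nat_lit 576470098169512516)))) (.br (nat_lit 8) (.ch (nat_lit 6) (.ev (nat_lit 1712) (nat_lit
 352187318400) (.ev (nat_lit 1892) (nat_lit 4194304) (.ev (nat_lit 1901) (nat_lit 549755813888) .dd)))) (.ch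
 (nat_lit 8) (.ev (nat_lit 1712) (nat_lit 77313605760) (.ev (nat_lit 1892) (nat_lit 274877906944) (.ev (nat_lit
 1901) (nat_lit 549755813888) .dd)))))))))))))) (.ch (nat_lit 18) (.ev (nat_lit 52) (nat_lit 274947121632) (.ev
 (nat_lit 96) (nat_lit 664650520064) .dd))))))) (.br (nat_lit 29) (.br (nat_lit 23) (.br (nat_lit 22) (.ch
 (nat_lit 19) (.ev (nat_lit 52) (nat_lit 36580635968) (.ev (nat_lit 1044) (nat_lit 32) (.ev (nat_lit 1364)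
 (nat_lit 8589934592) (.nd (nat_lit 1696) (.br (nat_lit 6) (.br (nat_lit 1) (.ch (nat_lit 0) (.ev (nat_lit
 1712) (nat_lit 894427071104) .dd)) (.br (nat_lit 4) (.ch (nat_lit 1) (.ev (nat_lit 1712) (nat_lit
 618475291136) (.ev (nat_lit 1856) (nat_lit 128) (.ev (nat_lit 1892) (nat_lit 1073872896) (.ev (nat_lit 1901)
 (nat_lit 274877906944) .dd))))) (.ch (nat_lit 4) (.ev (nat_lit 1712) (nat_lit 275951779968) (.ev (nat_lit
 1744) (nat_lit 549755813888) (.ev (nat_lit 1776) (nat_lit 512) (.ev (nat_lit 1789) (nat_lit 68719476736)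
 .dd))))))) (.br (nat_lit 9) (.ch (nat_lit 6) (.ev (nat_lit 1712) (nat_lit 824633852544) (.ev (nat_lit 1892)
 (nat_lit 1073741824) (.ev (nat_lit 1901) (nat_lit 68719476736) .dd)))) (.br (nat_lit 11) (.ch (nat_lit 9) (.ev
 (nat_lit 1712) (nat_lit 894426940032) (.ev (nat_lit 1725) (nat_lit 131072) .dd))) (.ch (nat_lit 11) (.ev
 (nat_lit 1712) (nat_lit 893353329152) (.ev (nat_lit 1776) (nat_lit 128) (.ev (nat_lit 1789) (nat_lit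
 1073741824) .dd)))))))))))) (.ch (nat_lit 22) (.ev (nat_lit 52) (nat_lit 870808956992) (.ev (nat_lit 116)
 (nat_lit 67108864) (.ev (nat_lit 692) (nat_lit 1024) (.nd (nat_lit 1696) (.br (nat_lit 8) (.br (nat_lit 5)
 (.ch (nat_lit 1) (.ev (nat_lit 1712) (nat_lit 68721574528) (.ev (nat_lit 1892) (nat_lit 32) (.ev (nat_lit
 1901) (nat_lit 256) .dd)))) (.br (nat_lit 6) (.ch (nat_lit 5) (.ev (nat_lit 1712) (nat_lit 2097952) (.fin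
 (nat_lit 576470098169512516)))) (.ch (nat_lit 6) (.ev (nat_lit 1712) (nat_lit 68719477408) (.ev (nat_lit 1892)
 (nat_lit 2097152) (.ev (nat_lit 1901) (nat_lit 256) .dd)))))) (.br (nat_lit 9) (.ch (nat_lit 8) (.ev (nat_lit
 1712) (nat_lit 68721574144) (.ev (nat_lit 1840) (nat_lit 128) (.ev (nat_lit 1892) (nat_lit 32) (.ev (nat_lit
 1901) (nat_lit 512) .dd))))) (.br (nat_lit 12) (.ch (nat_lit 9) (.ev (nat_lit 1712) (nat_lit 68721574560) (.ev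
 (nat_lit 1725) (nat_lit 256) .dd))) (.ch (nat_lit 12) (.ev (nat_lit 1712) (nat_lit 416) (.ev (nat_lit 1760)
 (nat_lit 2097152) (.ev (nat_lit 1904) (nat_lit 68719476736) (.ev (nat_lit 1917) (nat_lit 512)
 .dd)))))))))))))) (.br (nat_lit 24) (.ch (nat_lit 23) (.ev (nat_lit 52) (nat_lit 663641654368) (.ev (nat_lit
 276) (nat_lit 4096) (.ev (nat_lit 608) (nat_lit 275955983232) .dd)))) (.br (nat_lit 26) (.ch (nat_lit 24) (.ev
 (nat_lit 52) (nat_lit 595933139712) (.ev (nat_lit 640) (nat_lit 343664501984) .dd))) (.ch (nat_lit 26) (.ev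
 (nat_lit 52) (nat_lit 46175228480) (.ev (nat_lit 308) (nat_lit 1024) (.ev (nat_lit 948) (nat_lit 274877906944)
 (.nd (nat_lit 1696) (.br (nat_lit 6) (.br (nat_lit 5) (.ch (nat_lit 0) (.ev (nat_lit 1712) (nat_lit
 549825028256) (.ev (nat_lit 1744) (nat_lit 256) (.ev (nat_lit 1757) (nat_lit 68719476736) .dd)))) (.ch
 (nat_lit 5) (.ev (nat_lit 1712) (nat_lit 68721574176) (.ev (nat_lit 1892) (nat_lit 67108864) (.ev (nat_lit
 1904) (nat_lit 128) (.ev (nat_lit 2112) (nat_lit 549755822080) .dd)))))) (.br (nat_lit 11) (.ch (nat_lit 6)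
 (.ev (nat_lit 1712) (nat_lit 549822931072) (.ev (nat_lit 1892) (nat_lit 256) (.ev (nat_lit 1904) (nat_lit
 2097152) (.ev (nat_lit 2032) (nat_lit 68719476768) .dd))))) (.br (nat_lit 12) (.ch (nat_lit 11) (.ev (nat_lit
 1712) (nat_lit 618477388192) (.ev (nat_lit 1744) (nat_lit 67108864) (.ev (nat_lit 1757) (nat_lit 8192) .dd))))
 (.ch (nat_lit 12) (.ev (nat_lit 1712) (nat_lit 618542407968) (.ev (nat_lit 1892) (nat_lit 128) (.ev (nat_lit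
 1901) (nat_lit 2097152) .dd))))))))))))))) (.br (nat_lit 34) (.br (nat_lit 31) (.ch (nat_lit 29) (.ev (nat_lit
 52) (nat_lit 868661339424) (.ev (nat_lit 512) (nat_lit 70936302272) .dd))) (.br (nat_lit 33) (.ch (nat_lit 31)
 (.ev (nat_lit 52) (nat_lit 310380598208) (.ev (nat_lit 468) (nat_lit 131072) (.ev (nat_lit 564) (nat_lit 32)
 (.ev (nat_lit 852) (nat_lit 8192) (.ev (nat_lit 1520) (nat_lit 8589934592) (.nd (nat_lit 1696) (.br (nat_lit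
 8) (.br (nat_lit 5) (.ch (nat_lit 0) (.ev (nat_lit 1712) (nat_lit 620622775296) (.ev (nat_lit 1725) (nat_lit
 4194304) .dd))) (.br (nat_lit 6) (.ch (nat_lit 5) (.ev (nat_lit 1712) (nat_lit 70871154688) (.ev (nat_lit
 1892) (nat_lit 1024) (.ev (nat_lit 1901) (nat_lit 549755813888) .dd)))) (.ch (nat_lit 6) (.ev (nat_lit 1712)
 (nat_lit 620626969600) .dd)))) (.br (nat_lit 9) (.ch (nat_lit 8) (.ev (nat_lit 1712) (nat_lit 620626968576)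
 (.ev (nat_lit 1725) (nat_lit 1024) .dd))) (.br (nat_lit 12) (.ch (nat_lit 9) (.ev (nat_lit 1712) (nat_lit
 70866960384) (.ev (nat_lit 1892) (nat_lit 549755813888) (.fin (nat_lit 576461302078587464))))) (.ch (nat_lit
 12) (.ev (nat_lit 1712) (nat_lit 1024) (.ev (nat_lit 1760) (nat_lit 551907491840) (.ev (nat_lit 1773) (nat_lit
 68719476736) .dd)))))))))))))) (.ch (nat_lit 33) (.ev (nat_lit 52) (nat_lit 928791003232) (.ev (nat_lit 84)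
 (nat_lit 128) (.ev (nat_lit 916) (nat_lit 4096) (.ev (nat_lit 1172) (nat_lit 1024) (.ev (nat_lit 1204)
 (nat_lit 2097152) (.nd (nat_lit 1696) (.br (nat_lit 8) (.br (nat_lit 4) (.ch (nat_lit 1) (.ev (nat_lit 1712)
 (nat_lit 2214592512) (.ev (nat_lit 1728) (nat_lit 8589934592) (.ev (nat_lit 1892) (nat_lit 768) (.ev (nat_lit
 1901) (nat_lit 8192) .dd))))) (.br (nat_lit 6) (.ch (nat_lit 4) (.ev (nat_lit 1712) (nat_lit 8657052160) (.ev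
 (nat_lit 1760) (nat_lit 2147483904) .dd))) (.ch (nat_lit 6) (.ev (nat_lit 1712) (nat_lit 8657051904) (.fin
 (nat_lit 576465700104127060)))))) (.br (nat_lit 11) (.ch (nat_lit 8) (.ev (nat_lit 1712) (nat_lit 10737427200)
 (.ev (nat_lit 1725) (nat_lit 67108864) .dd))) (.br (nat_lit 12) (.ch (nat_lit 11) (.ev (nat_lit 1712) (nat_lit
 8589935360) (.ev (nat_lit 1744) (nat_lit 67108864) (.ev (nat_lit 1808) (nat_lit 2147491840) .dd)))) (.ch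
 (nat_lit 12) (.ev (nat_lit 1712) (nat_lit 2214600960) (.ev (nat_lit 1892) (nat_lit 512) (.ev (nat_lit 1901)
 (nat_lit 8589934592) .dd)))))))))))))))) (.br (nat_lit 36) (.ch (nat_lit 34) (.ev (nat_lit 52) (nat_lit
 113888071680) (.ev (nat_lit 596) (nat_lit 1073741824) (.ev (nat_lit 692) (nat_lit 2097152) (.ev (nat_lit 724)
 (nat_lit 64) (.ev (nat_lit 1140) (nat_lit 256) (.nd (nat_lit 1696) (.br (nat_lit 9) (.br (nat_lit 4) (.ch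
 (nat_lit 1) (.ev (nat_lit 1712) (nat_lit 549755815424) (.ev (nat_lit 1744) (nat_lit 274877906944) (.ev
 (nat_lit 1892) (nat_lit 8192) (.ev (nat_lit 1920) (nat_lit 160) .dd))))) (.br (nat_lit 6) (.ch (nat_lit 4)
 (.ev (nat_lit 1712) (nat_lit 824633730688) (.ev (nat_lit 1725) (nat_lit 32) .dd))) (.ch (nat_lit 6) (.ev
 (nat_lit 1712) (nat_lit 824633730208) (.ev (nat_lit 1725) (nat_lit 512) .dd))))) (.br (nat_lit 11) (.ch
 (nat_lit 9) (.ev (nat_lit 1712) (nat_lit 9856) (.ev (nat_lit 1744) (nat_lit 549755813888) (.ev (nat_lit 1776)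
 (nat_lit 274877906944) (.ev (nat_lit 1789) (nat_lit 32) .dd))))) (.br (nat_lit 12) (.ch (nat_lit 11) (.ev
 (nat_lit 1712) (nat_lit 824633721504) (.ev (nat_lit 2080) (nat_lit 9216) .dd))) (.ch (nat_lit 12) (.ev
 (nat_lit 1712) (nat_lit 274877916832) (.ev (nat_lit 1725) (nat_lit 549755813888) .dd))))))))))))) (.br
 (nat_lit 38) (.ch (nat_lit 36) (.ev (nat_lit 52) (nat_lit 78456555168) (.ev (nat_lit 436) (nat_lit
 549755813888) (.ev (nat_lit 468) (nat_lit 274877906944) (.ev (nat_lit 564) (nat_lit 256) (.ev (nat_lit 724)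
 (nat_lit 34359738368) (.ev (nat_lit 884) (nat_lit 4096) (.ev (nat_lit 980) (nat_lit 2147483648) (.ev (nat_lit
 1076) (nat_lit 131072) (.nd (nat_lit 1696) (.br (nat_lit 9) (.br (nat_lit 5) (.ch (nat_lit 0) (.ev (nat_lit
 1744) (nat_lit 8192) (.ev (nat_lit 1757) (nat_lit 64) .dd))) (.br (nat_lit 6) (.ch (nat_lit 5) (.ev (nat_lit
 1712) (nat_lit 8256) .dd)) (.ch (nat_lit 6) (.ev (nat_lit 1712) (nat_lit 8256) .dd)))) (.br (nat_lit 11) (.ch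
 (nat_lit 9) (.ev (nat_lit 1712) (nat_lit 8256) .dd)) (.br (nat_lit 12) (.ch (nat_lit 11) (.ev (nat_lit 1712)
 (nat_lit 8256) .dd)) (.ch (nat_lit 12) (.ev (nat_lit 1712) (nat_lit 8256) .dd))))))))))))))) (.ch (nat_lit 38)
 (.ev (nat_lit 52) (nat_lit 895502910880) (.ev (nat_lit 416) (nat_lit 44094730816) .dd)))))))) (.br (nat_lit
 54) (.br (nat_lit 47) (.br (nat_lit 43) (.br (nat_lit 42) (.ch (nat_lit 39) (.ev (nat_lit 52) (nat_lit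
 387627103232) (.ev (nat_lit 352) (nat_lit 551970538464) .dd))) (.ch (nat_lit 42) (.ev (nat_lit 52) (nat_lit
 276022965856) (.ev (nat_lit 180) (nat_lit 2147483648) (.ev (nat_lit 308) (nat_lit 2097152) (.ev (nat_lit 404)
 (nat_lit 256) (.ev (nat_lit 1488) (nat_lit 34359738368) (.nd (nat_lit 1696) (.br (nat_lit 9) (.br (nat_lit 4)
 (.ch (nat_lit 0) (.ev (nat_lit 1712) (nat_lit 549755945088) (.ev (nat_lit 1792) (nat_lit 68719476736) (.ev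
 (nat_lit 1805) (nat_lit 8589934592) .dd)))) (.br (nat_lit 8) (.ch (nat_lit 4) (.ev (nat_lit 1712) (nat_lit
 77309542528) (.ev (nat_lit 1725) (nat_lit 549755813888) .dd))) (.ch (nat_lit 8) (.ev (nat_lit 1712) (nat_lit
 627065225344) (.ev (nat_lit 1725) (nat_lit 131072) .dd))))) (.br (nat_lit 11) (.ch (nat_lit 9) (.ev (nat_lit
 1712) (nat_lit 77309411456) (.ev (nat_lit 1892) (nat_lit 131072) (.ev (nat_lit 1901) (nat_lit 549755813888)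
 .dd)))) (.br (nat_lit 12) (.ch (nat_lit 11) (.ev (nat_lit 1712) (nat_lit 618475421696) (.ev (nat_lit 1744)
 (nat_lit 8589934592) (.ev (nat_lit 1757) (nat_lit 128) .dd)))) (.ch (nat_lit 12) (.ev (nat_lit 1712) (nat_lit
 558345748480) (.ev (nat_lit 1760) (nat_lit 68719607936) .dd)))))))))))))) (.br (nat_lit 44) (.ch (nat_lit 43)
 (.ev (nat_lit 52) (nat_lit 77376660288) (.ev (nat_lit 148) (nat_lit 34359738368) (.ev (nat_lit 212) (nat_lit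
 549755813888) (.ev (nat_lit 340) (nat_lit 1073741824) (.ev (nat_lit 1076) (nat_lit 274877906944) (.ev (nat_lit
 1204) (nat_lit 2147483648) (.ev (nat_lit 1632) (nat_lit 128) (.nd (nat_lit 1696) (.br (nat_lit 8) (.br
 (nat_lit 5) (.ch (nat_lit 4) (.ev (nat_lit 1712) (nat_lit 6295584) (.ev (nat_lit 1725) (nat_lit 1024) .dd)))
 (.br (nat_lit 6) (.ch (nat_lit 5) (.ev (nat_lit 1712) (nat_lit 6292512) (.ev (nat_lit 1725) (nat_lit 4096)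
 .dd))) (.ch (nat_lit 6) (.ev (nat_lit 1712) (nat_lit 6296608) .dd)))) (.br (nat_lit 9) (.ch (nat_lit 8) (.ev
 (nat_lit 1712) (nat_lit 6296576) (.ev (nat_lit 1725) (nat_lit 32) .dd))) (.br (nat_lit 11) (.ch (nat_lit 9)
 (.ev (nat_lit 1712) (nat_lit 4096) (.ev (nat_lit 1808) (nat_lit 32) (.ev (nat_lit 1892) (nat_lit 2097152)
 (.fin (nat_lit 576461302078587464)))))) (.ch (nat_lit 11) (.ev (nat_lit 1712) (nat_lit 6295584) (.ev (nat_lit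
 1725) (nat_lit 1024) .dd))))))))))))))) (.br (nat_lit 46) (.ch (nat_lit 44) (.ev (nat_lit 52) (nat_lit
 833227986880) (.ev (nat_lit 180) (nat_lit 8192) (.nd (nat_lit 1696) (.br (nat_lit 5) (.br (nat_lit 1) (.ch
 (nat_lit 0) (.ev (nat_lit 1712) (nat_lit 106369646624) .dd)) (.br (nat_lit 4) (.ch (nat_lit 1) (.ev (nat_lit
 1712) (nat_lit 103148421152) (.ev (nat_lit 1892) (nat_lit 1073741824) (.ev (nat_lit 1901) (nat_lit 2147483648)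
 .dd)))) (.ch (nat_lit 4) (.ev (nat_lit 1712) (nat_lit 104155054112) (.ev (nat_lit 1776) (nat_lit 67108864)
 (.ev (nat_lit 1789) (nat_lit 2147483648) .dd)))))) (.br (nat_lit 8) (.ch (nat_lit 5) (.ev (nat_lit 1712)
 (nat_lit 2216689696) (.ev (nat_lit 1744) (nat_lit 68719476736) (.ev (nat_lit 1776) (nat_lit 34359738368) (.ev
 (nat_lit 1789) (nat_lit 1073741824) .dd))))) (.br (nat_lit 11) (.ch (nat_lit 8) (.ev (nat_lit 1712) (nat_lit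
 106369646592) (.ev (nat_lit 1725) (nat_lit 32) .dd))) (.ch (nat_lit 11) (.ev (nat_lit 1712) (nat_lit
 104152956928) (.ev (nat_lit 1856) (nat_lit 67108864) (.ev (nat_lit 1892) (nat_lit 2147483680) (.ev (nat_lit
 1901) (nat_lit 2097152) .dd)))))))))))) (.ch (nat_lit 46) (.ev (nat_lit 52) (nat_lit 345814078496) (.ev
 (nat_lit 180) (nat_lit 512) (.ev (nat_lit 340) (nat_lit 34359738368) (.ev (nat_lit 468) (nat_lit 8589934592)
 (.ev (nat_lit 820) (nat_lit 131072) (.nd (nat_lit 1696) (.br (nat_lit 6) (.br (nat_lit 5) (.ch (nat_lit 0)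
 (.ev (nat_lit 1712) (nat_lit 550829555840) (.ev (nat_lit 1744) (nat_lit 8192) (.ev (nat_lit 1892) (nat_lit 64)
 (.ev (nat_lit 1904) (nat_lit 4194304) (.ev (nat_lit 1917) (nat_lit 256) .dd)))))) (.ch (nat_lit 5) (.ev
 (nat_lit 1712) (nat_lit 549760008512) (.ev (nat_lit 1728) (nat_lit 128) (.ev (nat_lit 1892) (nat_lit 8192)
 (.ev (nat_lit 1901) (nat_lit 1073741824) .dd)))))) (.br (nat_lit 9) (.ch (nat_lit 6) (.ev (nat_lit 1712)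
 (nat_lit 8640) (.ev (nat_lit 1760) (nat_lit 4194304) (.ev (nat_lit 1892) (nat_lit 1073741824) (.ev (nat_lit
 1901) (nat_lit 549755813888) .dd))))) (.br (nat_lit 11) (.ch (nat_lit 9) (.ev (nat_lit 1712) (nat_lit
 1077944768) (.ev (nat_lit 1725) (nat_lit 549755813888) .dd))) (.ch (nat_lit 11) (.ev (nat_lit 1712) (nat_lit
 549760008576) (.ev (nat_lit 1892) (nat_lit 8256) (.ev (nat_lit 1901) (nat_lit 1073741824) .dd)))))))))))))))))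
 (.br (nat_lit 50) (.br (nat_lit 48) (.ch (nat_lit 47) (.ev (nat_lit 52) (nat_lit 551972517632) (.ev (nat_lit
 212) (nat_lit 128) (.ev (nat_lit 404) (nat_lit 4194304) (.ev (nat_lit 704) (nat_lit 387620929632) .dd)))))
 (.br (nat_lit 49) (.ch (nat_lit 48) (.ev (nat_lit 52) (nat_lit 594857165536) (.ev (nat_lit 192) (nat_lit
 344740476160) .dd))) (.ch (nat_lit 49) (.ev (nat_lit 52) (nat_lit 381178479904) (.ev (nat_lit 308) (nat_lit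
 4194304) (.ev (nat_lit 404) (nat_lit 8192) (.ev (nat_lit 436) (nat_lit 64) (.ev (nat_lit 788) (nat_lit
 549755813888) (.ev (nat_lit 980) (nat_lit 2097152) (.ev (nat_lit 1568) (nat_lit 128) (.nd (nat_lit 1696) (.br
 (nat_lit 5) (.br (nat_lit 1) (.ch (nat_lit 0) (.ev (nat_lit 1712) (nat_lit 8657048064) .dd)) (.br (nat_lit 4)
 (.ch (nat_lit 1) (.ev (nat_lit 1712) (nat_lit 512) (.ev (nat_lit 1776) (nat_lit 8657043456) (.ev (nat_lit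
 1789) (nat_lit 4096) .dd)))) (.ch (nat_lit 4) (.ev (nat_lit 1712) (nat_lit 8657043456) (.ev (nat_lit 1892)
 (nat_lit 512) (.ev (nat_lit 1901) (nat_lit 4096) .dd)))))) (.br (nat_lit 6) (.ch (nat_lit 5) (.ev (nat_lit
 1712) (nat_lit 8657043968) (.ev (nat_lit 1725) (nat_lit 4096) .dd))) (.br (nat_lit 9) (.ch (nat_lit 6) (.ev
 (nat_lit 1712) (nat_lit 8657047552) (.ev (nat_lit 1725) (nat_lit 512) .dd))) (.ch (nat_lit 9) (.ev (nat_lit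
 1712) (nat_lit 8657048064) .dd)))))))))))))))) (.br (nat_lit 51) (.ch (nat_lit 50) (.ev (nat_lit 52) (nat_lit
 286691303968) (.ev (nat_lit 372) (nat_lit 549755813888) (.ev (nat_lit 660) (nat_lit 68719476736) (.ev (nat_lit
 1044) (nat_lit 256) (.ev (nat_lit 1236) (nat_lit 1024) (.ev (nat_lit 1456) (nat_lit 64) (.nd (nat_lit 1696)
 (.br (nat_lit 8) (.br (nat_lit 6) (.ch (nat_lit 0) (.ev (nat_lit 1712) (nat_lit 34426847360) (.ev (nat_lit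
 1744) (nat_lit 4096) (.ev (nat_lit 1757) (nat_lit 4194304) .dd)))) (.ch (nat_lit 6) (.ev (nat_lit 1712)
 (nat_lit 128) (.ev (nat_lit 1892) (nat_lit 34359742464) (.ev (nat_lit 2128) (nat_lit 71303168) .dd))))) (.br
 (nat_lit 9) (.ch (nat_lit 8) (.ev (nat_lit 1712) (nat_lit 34431045632) (.ev (nat_lit 1725) (nat_lit 128)
 .dd))) (.br (nat_lit 12) (.ch (nat_lit 9) (.ev (nat_lit 1712) (nat_lit 34431045760) .dd)) (.ch (nat_lit 12)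
 (.ev (nat_lit 1712) (nat_lit 71307392) (.ev (nat_lit 1725) (nat_lit 34359738368) .dd)))))))))))))) (.br
 (nat_lit 53) (.ch (nat_lit 51) (.ev (nat_lit 52) (nat_lit 285619655392) (.ev (nat_lit 436) (nat_lit
 34359738368) (.ev (nat_lit 628) (nat_lit 68719476736) (.ev (nat_lit 756) (nat_lit 1073741824) (.nd (nat_lit
 1696) (.br (nat_lit 8) (.br (nat_lit 1) (.ch (nat_lit 0) (.ev (nat_lit 1712) (nat_lit 549825029120) (.ev
 (nat_lit 1725) (nat_lit 256) .dd))) (.br (nat_lit 5) (.ch (nat_lit 1) (.ev (nat_lit 1712) (nat_lit 2098176)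
 (.ev (nat_lit 1892) (nat_lit 8448) (.fin (nat_lit 576448107926471216))))) (.ch (nat_lit 5) (.ev (nat_lit 1712)
 (nat_lit 549757912320) (.ev (nat_lit 1808) (nat_lit 8192) (.ev (nat_lit 1821) (nat_lit 67108864) .dd))))))
 (.br (nat_lit 11) (.br (nat_lit 9) (.ch (nat_lit 8) (.ev (nat_lit 1712) (nat_lit 549825021184) (.ev (nat_lit
 1725) (nat_lit 8192) .dd))) (.ch (nat_lit 9) (.ev (nat_lit 1712) (nat_lit 69215232) (.ev (nat_lit 1808)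
 (nat_lit 256) (.ev (nat_lit 1821) (nat_lit 549755813888) .dd))))) (.br (nat_lit 12) (.ch (nat_lit 11) (.ev
 (nat_lit 1712) (nat_lit 549755822336) (.ev (nat_lit 1892) (nat_lit 67109888) (.ev (nat_lit 1901) (nat_lit
 2097152) .dd)))) (.ch (nat_lit 12) (.ev (nat_lit 1712) (nat_lit 69215488) (.ev (nat_lit 1725) (nat_lit
 549755813888) .dd)))))))))))) (.ch (nat_lit 53) (.ev (nat_lit 52) (nat_lit 318903428448) (.ev (nat_lit 148)
 (nat_lit 128) (.ev (nat_lit 276) (nat_lit 131072) (.ev (nat_lit 372) (nat_lit 67108864) (.ev (nat_lit 1584)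
 (nat_lit 68719476736) (.nd (nat_lit 1696) (.br (nat_lit 8) (.br (nat_lit 4) (.ch (nat_lit 1) (.ev (nat_lit
 1712) (nat_lit 2147483648) (.ev (nat_lit 1760) (nat_lit 549755818496) (.ev (nat_lit 1773) (nat_lit 4194304)
 .dd)))) (.br (nat_lit 6) (.ch (nat_lit 4) (.ev (nat_lit 1712) (nat_lit 549760008704) (.ev (nat_lit 1892)
 (nat_lit 4096) (.ev (nat_lit 1901) (nat_lit 2147483648) .dd)))) (.ch (nat_lit 6) (.ev (nat_lit 1712) (nat_lit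
 549760008192) (.ev (nat_lit 1892) (nat_lit 4096) (.fin (nat_lit 576465700104127060))))))) (.br (nat_lit 11)
 (.ch (nat_lit 8) (.ev (nat_lit 1712) (nat_lit 551907495936) (.ev (nat_lit 1725) (nat_lit 512) .dd))) (.br
 (nat_lit 12) (.ch (nat_lit 11) (.ev (nat_lit 1712) (nat_lit 551907496448) .dd)) (.ch (nat_lit 12) (.ev
 (nat_lit 1712) (nat_lit 549760012800) (.ev (nat_lit 1725) (nat_lit 2147483648) .dd))))))))))))))))) (.br
 (nat_lit 64) (.br (nat_lit 57) (.br (nat_lit 55) (.ch (nat_lit 54) (.ev (nat_lit 52) (nat_lit 893355300608)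
 (.ev (nat_lit 308) (nat_lit 32) (.ev (nat_lit 500) (nat_lit 131072) (.ev (nat_lit 564) (nat_lit 8192) (.ev
 (nat_lit 724) (nat_lit 1073741824) (.ev (nat_lit 1172) (nat_lit 4194304) (.nd (nat_lit 1696) (.br (nat_lit 9)
 (.br (nat_lit 6) (.ch (nat_lit 1) (.ev (nat_lit 1712) (nat_lit 45097156672) (.ev (nat_lit 1808) (nat_lit
 67108864) (.ev (nat_lit 1821) (nat_lit 128) .dd)))) (.ch (nat_lit 6) (.ev (nat_lit 1712) (nat_lit 43016782016)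
 (.ev (nat_lit 1725) (nat_lit 2147483648) .dd)))) (.br (nat_lit 11) (.ch (nat_lit 9) (.ev (nat_lit 1712)
 (nat_lit 45164265600) (.ev (nat_lit 1725) (nat_lit 64) .dd))) (.br (nat_lit 12) (.ch (nat_lit 11) (.ev
 (nat_lit 1712) (nat_lit 34426847232) (.ev (nat_lit 1892) (nat_lit 8589934656) (.ev (nat_lit 2016) (nat_lit
 2147483776) .dd)))) (.ch (nat_lit 12) (.ev (nat_lit 1712) (nat_lit 2214592704) (.ev (nat_lit 1892) (nat_lit
 34359738368) (.ev (nat_lit 1901) (nat_lit 8589934592) .dd))))))))))))))) (.ch (nat_lit 55) (.ev (nat_lit 52)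
 (nat_lit 835442450752) (.ev (nat_lit 84) (nat_lit 68719476736) (.ev (nat_lit 180) (nat_lit 2097152) (.ev
 (nat_lit 532) (nat_lit 128) (.ev (nat_lit 692) (nat_lit 32) (.ev (nat_lit 980) (nat_lit 512) (.nd (nat_lit
 1696) (.br (nat_lit 9) (.br (nat_lit 5) (.ch (nat_lit 4) (.ev (nat_lit 1712) (nat_lit 34359870464) (.ev
 (nat_lit 1744) (nat_lit 1073741824) (.ev (nat_lit 1757) (nat_lit 4096) .dd)))) (.br (nat_lit 6) (.ch (nat_lit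
 5) (.ev (nat_lit 1712) (nat_lit 34359738368) (.ev (nat_lit 1856) (nat_lit 1073741824) (.ev (nat_lit 1892)
 (nat_lit 1024) (.ev (nat_lit 1904) (nat_lit 4096) (.ev (nat_lit 1917) (nat_lit 131072) .dd)))))) (.ch (nat_lit
 6) (.ev (nat_lit 1712) (nat_lit 1073873920) (.ev (nat_lit 1892) (nat_lit 34359738368) (.ev (nat_lit 1901)
 (nat_lit 4096) .dd)))))) (.br (nat_lit 11) (.ch (nat_lit 9) (.ev (nat_lit 1712) (nat_lit 35433615360) (.ev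
 (nat_lit 1725) (nat_lit 1024) .dd))) (.br (nat_lit 12) (.ch (nat_lit 11) (.ev (nat_lit 1712) (nat_lit
 35433616384) .dd)) (.ch (nat_lit 12) (.ev (nat_lit 1712) (nat_lit 1073746944) (.ev (nat_lit 1760) (nat_lit
 34359738368) (.ev (nat_lit 1773) (nat_lit 131072) .dd)))))))))))))))) (.br (nat_lit 58) (.ch (nat_lit 57) (.ev
 (nat_lit 52) (nat_lit 585256535744) (.ev (nat_lit 372) (nat_lit 68719476736) (.ev (nat_lit 468) (nat_lit 4096)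
 (.ev (nat_lit 1044) (nat_lit 8192) (.ev (nat_lit 1236) (nat_lit 2097152) (.nd (nat_lit 1696) (.br (nat_lit 6)
 (.br (nat_lit 4) (.ch (nat_lit 1) (.ev (nat_lit 1712) (nat_lit 2147483936) (.ev (nat_lit 1892) (nat_lit
 8594128896) (.ev (nat_lit 1901) (nat_lit 274877906944) .dd)))) (.br (nat_lit 5) (.ch (nat_lit 4) (.ev (nat_lit
 1712) (nat_lit 277029584896) (.ev (nat_lit 1892) (nat_lit 8589934848) (.ev (nat_lit 1901) (nat_lit 32) .dd))))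
 (.ch (nat_lit 5) (.ev (nat_lit 1712) (nat_lit 285619519776) .dd)))) (.br (nat_lit 8) (.ch (nat_lit 6) (.ev
 (nat_lit 1712) (nat_lit 283472036128) (.ev (nat_lit 1725) (nat_lit 2147483648) .dd))) (.br (nat_lit 12) (.ch
 (nat_lit 8) (.ev (nat_lit 1712) (nat_lit 10741612832) (.ev (nat_lit 1725) (nat_lit 274877906944) .dd))) (.ch
 (nat_lit 12) (.ev (nat_lit 1712) (nat_lit 285615325472) (.ev (nat_lit 1725) (nat_lit 4194304) .dd)))))))))))))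
 (.br (nat_lit 62) (.ch (nat_lit 58) (.ev (nat_lit 52) (nat_lit 585191527456) (.ev (nat_lit 128) (nat_lit
 354406114240) .dd))) (.ch (nat_lit 62) (.ev (nat_lit 52) (nat_lit 105231033120) (.ev (nat_lit 148) (nat_lit
 549755813888) (.ev (nat_lit 276) (nat_lit 274877906944) (.ev (nat_lit 756) (nat_lit 64) (.ev (nat_lit 788)
 (nat_lit 1073741824) (.ev (nat_lit 852) (nat_lit 2097152) (.nd (nat_lit 1696) (.br (nat_lit 8) (.br (nat_lit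
 5) (.ch (nat_lit 1) (.ev (nat_lit 1712) (nat_lit 67113984) (.ev (nat_lit 1744) (nat_lit 128) (.ev (nat_lit
 1757) (nat_lit 8589934592) .dd)))) (.br (nat_lit 6) (.ch (nat_lit 5) (.ev (nat_lit 1712) (nat_lit 8589935744)
 (.ev (nat_lit 1808) (nat_lit 67108864) (.ev (nat_lit 1821) (nat_lit 4096) .dd)))) (.ch (nat_lit 6) (.ev
 (nat_lit 1712) (nat_lit 8589939840) (.ev (nat_lit 1725) (nat_lit 67108864) .dd))))) (.br (nat_lit 9) (.ch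
 (nat_lit 8) (.ev (nat_lit 1712) (nat_lit 8657048576) (.ev (nat_lit 1725) (nat_lit 128) .dd))) (.br (nat_lit
 11) (.ch (nat_lit 9) (.ev (nat_lit 1712) (nat_lit 8657047680) (.ev (nat_lit 1725) (nat_lit 1024) .dd))) (.ch
 (nat_lit 11) (.ev (nat_lit 1712) (nat_lit 4224) (.ev (nat_lit 1728) (nat_lit 67108864) (.ev (nat_lit 1744)
 (nat_lit 8589934592) (.ev (nat_lit 1757) (nat_lit 1024) .dd))))))))))))))))))) (.br (nat_lit 68) (.br (nat_lit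
 65) (.ch (nat_lit 64) (.ev (nat_lit 52) (nat_lit 352193745344) (.ev (nat_lit 116) (nat_lit 1073741824) (.ev
 (nat_lit 308) (nat_lit 2147483648) (.ev (nat_lit 596) (nat_lit 67108864) (.ev (nat_lit 660) (nat_lit
 549755813888) (.ev (nat_lit 692) (nat_lit 8704) (.ev (nat_lit 1268) (nat_lit 1024) (.nd (nat_lit 1696) (.br
 (nat_lit 8) (.br (nat_lit 4) (.ch (nat_lit 0) (.ev (nat_lit 1712) (nat_lit 34359738400) .dd)) (.br (nat_lit 5)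
 (.ch (nat_lit 4) (.ev (nat_lit 1712) (nat_lit 34359738400) .dd)) (.ch (nat_lit 5) (.ev (nat_lit 1712) (nat_lit
 32) (.ev (nat_lit 1725) (nat_lit 34359738368) .dd))))) (.br (nat_lit 9) (.ch (nat_lit 8) (.ev (nat_lit 1712)
 (nat_lit 34359738368) (.ev (nat_lit 1725) (nat_lit 32) .dd))) (.br (nat_lit 12) (.ch (nat_lit 9) (.ev (nat_lit
 1712) (nat_lit 34359738400) .dd)) (.ch (nat_lit 12) (.ev (nat_lit 1712) (nat_lit 32) (.ev (nat_lit 1725)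
 (nat_lit 34359738368) .dd))))))))))))))) (.br (nat_lit 67) (.ch (nat_lit 65) (.ev (nat_lit 52) (nat_lit
 661494301344) (.ev (nat_lit 340) (nat_lit 64) (.ev (nat_lit 948) (nat_lit 4096) (.ev (nat_lit 1140) (nat_lit
 8192) (.ev (nat_lit 1552) (nat_lit 256) (.nd (nat_lit 1696) (.br (nat_lit 8) (.br (nat_lit 4) (.ch (nat_lit 1)
 (.ev (nat_lit 1712) (nat_lit 3221226496) (.ev (nat_lit 1792) (nat_lit 274877906944) (.ev (nat_lit 1805)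
 (nat_lit 4194304) .dd)))) (.br (nat_lit 5) (.ch (nat_lit 4) (.ev (nat_lit 1712) (nat_lit 275955843072) (.ev
 (nat_lit 1892) (nat_lit 1024) (.ev (nat_lit 1901) (nat_lit 2147483648) .dd)))) (.ch (nat_lit 5) (.ev (nat_lit
 1712) (nat_lit 2151677952) (.ev (nat_lit 1760) (nat_lit 275951649792) .dd))))) (.br (nat_lit 9) (.ch (nat_lit
 8) (.ev (nat_lit 1712) (nat_lit 278103326720) (.ev (nat_lit 1725) (nat_lit 1024) .dd))) (.br (nat_lit 11) (.ch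
 (nat_lit 9) (.ev (nat_lit 1712) (nat_lit 277025391616) (.ev (nat_lit 1744) (nat_lit 4194304) (.ev (nat_lit
 1757) (nat_lit 1073741824) .dd)))) (.ch (nat_lit 11) (.ev (nat_lit 1712) (nat_lit 275955844096) (.ev (nat_lit
 1725) (nat_lit 2147483648) .dd))))))))))))) (.ch (nat_lit 67) (.ev (nat_lit 52) (nat_lit 34366042912) (.ev
 (nat_lit 564) (nat_lit 2147483648) (.ev (nat_lit 724) (nat_lit 128) (.ev (nat_lit 788) (nat_lit 64) (.ev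
 (nat_lit 820) (nat_lit 8589934592) (.nd (nat_lit 1696) (.br (nat_lit 6) (.br (nat_lit 5) (.ch (nat_lit 0) (.ev
 (nat_lit 1712) (nat_lit 825774703616) (.ev (nat_lit 1725) (nat_lit 68719476736) .dd))) (.ch (nat_lit 5) (.ev
 (nat_lit 1712) (nat_lit 618542399488) (.ev (nat_lit 1744) (nat_lit 274877906944) (.ev (nat_lit 1892) (nat_lit
 1024) (.ev (nat_lit 1904) (nat_lit 1073741824) (.ev (nat_lit 1917) (nat_lit 131072) .dd))))))) (.br (nat_lit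
 8) (.ch (nat_lit 6) (.ev (nat_lit 1712) (nat_lit 274945147904) (.ev (nat_lit 1760) (nat_lit 1073741824) (.ev
 (nat_lit 1892) (nat_lit 68719476736) (.ev (nat_lit 1901) (nat_lit 549755813888) .dd))))) (.br (nat_lit 9) (.ch
 (nat_lit 8) (.ev (nat_lit 1712) (nat_lit 69793350656) (.ev (nat_lit 1728) (nat_lit 67108864) (.ev (nat_lit
 1892) (nat_lit 274877906944) (.ev (nat_lit 1901) (nat_lit 549755813888) .dd))))) (.ch (nat_lit 9) (.ev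
 (nat_lit 1712) (nat_lit 69860458496) (.ev (nat_lit 1892) (nat_lit 274877907968) (.ev (nat_lit 1901) (nat_lit
 549755813888) .dd)))))))))))))))) (.br (nat_lit 69) (.ch (nat_lit 68) (.ev (nat_lit 52) (nat_lit 105300100320)
 (.ev (nat_lit 576) (nat_lit 834297541376) .dd))) (.br (nat_lit 70) (.ch (nat_lit 69) (.ev (nat_lit 52)
 (nat_lit 901949564096) (.ev (nat_lit 768) (nat_lit 37648077600) .dd))) (.ch (nat_lit 70) (.ev (nat_lit 52)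
 (nat_lit 936374178016) (.ev (nat_lit 436) (nat_lit 1073741824) (.ev (nat_lit 992) (nat_lit 2149721856)
 .dd))))))))))))

/-- The trie. -/
noncomputable def T : Tr := .nd (nat_lit 1000000) (.br (nat_lit 3) (.br (nat_lit 1) (.ch (nat_lit 0) (.ev
 (nat_lit 0) (nat_lit 8796093022207) .dd)) (.br (nat_lit 2) (.ch (nat_lit 1) (.ev (nat_lit 0) (nat_lit
 8796093022207) .dd)) (.ch (nat_lit 2) T2))) (.br (nat_lit 4) (.ch (nat_lit 3) (.ev (nat_lit 0) (nat_lit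
 8796093022207) .dd)) (.br (nat_lit 5) (.ch (nat_lit 4) T4) (.ch (nat_lit 5) T5))))

/-- The possible values. -/
noncomputable def oks : List ℕ := [610, 706]

/-- The parameters. -/
noncomputable def S : Pr := ⟨fun i l e => lget mz (lget [] (lget [] tabs i) l) e, oks, [(nat_lit 0), (nat_lit
 1), (nat_lit 0)], T, (nat_lit 8796093022207), (nat_lit 3303796230157), (nat_lit 43), [(nat_lit 11), (nat_lit
 87122173451996128837)], [(nat_lit 169), (nat_lit 5041)]⟩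

/-- Nothing known. -/
noncomputable def cs0 : Cs := (.cons (nat_lit 13) (nat_lit 0) (nat_lit 1) (.cons (nat_lit 71) (nat_lit 0) (nat_lit 1) .nil))

theorem part_2 : part S cs0 (nat_lit 2) = true := by decide +kernel

theorem part_4 : part S cs0 (nat_lit 4) = true := by decide +kernel

theorem part_5 : part S cs0 (nat_lit 5) = true := by decide +kernel

/-- Data of a prime. -/
noncomputable def D0 : PD := ⟨(nat_lit 13), (nat_lit 2), (118, 6, 3), (20, 53, 120), (3, 96, 144)⟩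

theorem D0_ok : D0.Ok := pdb_sound (s := 2) (C := ⟨⟨3, 18, -4, -17, 2, 1, 2, -1, -7⟩, (3, 9, 2)⟩) (by show Nat.Prime 13; norm_num) (by decide +kernel)

/-- Lines of the first type. -/
noncomputable def Cl0 : List C1 := [⟨⟨17, -2, -16, 3, 18, 1, -2, 1, -5⟩, (10, 1, 8)⟩,
  ⟨⟨3, -18, -4, -17, -2, 1, 2, 1, -7⟩, (5, 2, 12)⟩,
  ⟨⟨0, 0, 0, 0, 0, 0, 0, 0, 0⟩, (0, 0, 0)⟩,
  ⟨⟨17, 2, -16, 3, -18, 1, -2, -1, -5⟩, (8, 6, 9)⟩,
  ⟨⟨0, 0, 0, 0, 0, 0, 0, 0, 0⟩, (0, 0, 0)⟩,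
  ⟨⟨0, 0, 0, 0, 0, 0, 0, 0, 0⟩, (0, 0, 0)⟩,
  ⟨⟨0, 0, 0, 0, 0, 0, 0, 0, 0⟩, (0, 0, 0)⟩,
  ⟨⟨0, 0, 0, 0, 0, 0, 0, 0, 0⟩, (0, 0, 0)⟩,
  ⟨⟨0, 0, 0, 0, 0, 0, 0, 0, 0⟩, (0, 0, 0)⟩,
  ⟨⟨0, 0, 0, 0, 0, 0, 0, 0, 0⟩, (0, 0, 0)⟩,
  ⟨⟨0, 0, 0, 0, 0, 0, 0, 0, 0⟩, (0, 0, 0)⟩,
  ⟨⟨0, 0, 0, 0, 0, 0, 0, 0, 0⟩, (0, 0, 0)⟩,
  ⟨⟨0, 0, 0, 0, 0, 0, 0, 0, 0⟩, (0, 0, 0)⟩]

/-- Data of a prime. -/
noncomputable def D1 : PD := ⟨(nat_lit 71), (nat_lit 2), (72, 9, 33), (3977, 4536, 3372), (4173, 4400, 3526)⟩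

theorem D1_ok : D1.Ok := pdb_sound (s := 11) (C := ⟨⟨59, 34, -112, -29, 94, 37, -24, -3, -11⟩, (59, 42, 47)⟩) (by show Nat.Prime 71; norm_num) (by decide +kernel)

/-- Lines of the first type. -/
noncomputable def Cl1 : List C1 := [⟨⟨-59, -34, -53, 29, -94, 8, 24, 3, -35⟩, (17, 47, 34)⟩,
  ⟨⟨0, 0, 0, 0, 0, 0, 0, 0, 0⟩, (0, 0, 0)⟩,
  ⟨⟨49, -74, -77, 79, 14, 28, 12, 21, -29⟩, (59, 56, 13)⟩,
  ⟨⟨0, 0, 0, 0, 0, 0, 0, 0, 0⟩, (0, 0, 0)⟩,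
  ⟨⟨0, 0, 0, 0, 0, 0, 0, 0, 0⟩, (0, 0, 0)⟩,
  ⟨⟨0, 0, 0, 0, 0, 0, 0, 0, 0⟩, (0, 0, 0)⟩,
  ⟨⟨79, -14, -107, 49, 74, 28, -12, 21, -17⟩, (44, 21, 5)⟩,
  ⟨⟨0, 0, 0, 0, 0, 0, 0, 0, 0⟩, (0, 0, 0)⟩,
  ⟨⟨0, 0, 0, 0, 0, 0, 0, 0, 0⟩, (0, 0, 0)⟩,
  ⟨⟨39, 66, -92, -89, 46, 37, -8, -19, -23⟩, (13, 65, 21)⟩,
  ⟨⟨19, 46, -107, -91, -26, 8, 12, -27, -19⟩, (7, 30, 53)⟩,
  ⟨⟨0, 0, 0, 0, 0, 0, 0, 0, 0⟩, (0, 0, 0)⟩,
  ⟨⟨0, 0, 0, 0, 0, 0, 0, 0, 0⟩, (0, 0, 0)⟩,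
  ⟨⟨99, 6, -67, 11, -94, 32, -4, -11, -31⟩, (13, 33, 59)⟩,
  ⟨⟨-39, -66, -53, -89, 46, 52, 8, 19, -31⟩, (17, 57, 22)⟩,
  ⟨⟨0, 0, 0, 0, 0, 0, 0, 0, 0⟩, (0, 0, 0)⟩,
  ⟨⟨0, 0, 0, 0, 0, 0, 0, 0, 0⟩, (0, 0, 0)⟩,
  ⟨⟨19, -46, -107, -91, 26, 8, 12, 27, -19⟩, (15, 44, 2)⟩,
  ⟨⟨0, 0, 0, 0, 0, 0, 0, 0, 0⟩, (0, 0, 0)⟩,
  ⟨⟨0, 0, 0, 0, 0, 0, 0, 0, 0⟩, (0, 0, 0)⟩,
  ⟨⟨51, 66, -88, -59, 74, 67, -20, -5, -17⟩, (59, 64, 59)⟩,
  ⟨⟨49, 74, -77, 79, -14, 28, 12, -21, -29⟩, (6, 43, 29)⟩,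
  ⟨⟨0, 0, 0, 0, 0, 0, 0, 0, 0⟩, (0, 0, 0)⟩,
  ⟨⟨0, 0, 0, 0, 0, 0, 0, 0, 0⟩, (0, 0, 0)⟩,
  ⟨⟨0, 0, 0, 0, 0, 0, 0, 0, 0⟩, (0, 0, 0)⟩,
  ⟨⟨31, 74, -83, -81, 54, 68, -16, -13, -19⟩, (8, 2, 60)⟩,
  ⟨⟨0, 0, 0, 0, 0, 0, 0, 0, 0⟩, (0, 0, 0)⟩,
  ⟨⟨11, 94, -43, -99, 6, 32, 4, -11, -35⟩, (69, 18, 38)⟩,
  ⟨⟨-51, 66, -37, 59, 74, 8, 20, -5, -37⟩, (25, 56, 25)⟩,
  ⟨⟨0, 0, 0, 0, 0, 0, 0, 0, 0⟩, (0, 0, 0)⟩,
  ⟨⟨39, -66, -92, -89, -46, 37, -8, 19, -23⟩, (43, 2, 64)⟩,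
  ⟨⟨0, 0, 0, 0, 0, 0, 0, 0, 0⟩, (0, 0, 0)⟩,
  ⟨⟨59, -34, -112, -29, -94, 37, -24, 3, -11⟩, (9, 4, 18)⟩,
  ⟨⟨0, 0, 0, 0, 0, 0, 0, 0, 0⟩, (0, 0, 0)⟩,
  ⟨⟨0, 0, 0, 0, 0, 0, 0, 0, 0⟩, (0, 0, 0)⟩,
  ⟨⟨-59, 34, -53, 29, 94, 8, 24, -3, -35⟩, (8, 43, 16)⟩,
  ⟨⟨0, 0, 0, 0, 0, 0, 0, 0, 0⟩, (0, 0, 0)⟩,
  ⟨⟨11, -94, -43, -99, -6, 32, 4, 11, -35⟩, (2, 53, 33)⟩,
  ⟨⟨0, 0, 0, 0, 0, 0, 0, 0, 0⟩, (0, 0, 0)⟩,
  ⟨⟨0, 0, 0, 0, 0, 0, 0, 0, 0⟩, (0, 0, 0)⟩,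
  ⟨⟨51, -66, -88, -59, -74, 67, -20, 5, -17⟩, (18, 46, 18)⟩,
  ⟨⟨-19, -46, -88, -91, -26, 83, -12, 27, -7⟩, (26, 61, 65)⟩,
  ⟨⟨0, 0, 0, 0, 0, 0, 0, 0, 0⟩, (0, 0, 0)⟩,
  ⟨⟨0, 0, 0, 0, 0, 0, 0, 0, 0⟩, (0, 0, 0)⟩,
  ⟨⟨0, 0, 0, 0, 0, 0, 0, 0, 0⟩, (0, 0, 0)⟩,
  ⟨⟨-19, 46, -88, -91, 26, 83, -12, -27, -7⟩, (18, 4, 45)⟩,
  ⟨⟨0, 0, 0, 0, 0, 0, 0, 0, 0⟩, (0, 0, 0)⟩,
  ⟨⟨0, 0, 0, 0, 0, 0, 0, 0, 0⟩, (0, 0, 0)⟩,
  ⟨⟨0, 0, 0, 0, 0, 0, 0, 0, 0⟩, (0, 0, 0)⟩,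
  ⟨⟨0, 0, 0, 0, 0, 0, 0, 0, 0⟩, (0, 0, 0)⟩,
  ⟨⟨0, 0, 0, 0, 0, 0, 0, 0, 0⟩, (0, 0, 0)⟩,
  ⟨⟨0, 0, 0, 0, 0, 0, 0, 0, 0⟩, (0, 0, 0)⟩,
  ⟨⟨99, -6, -67, 11, 94, 32, -4, 11, -31⟩, (48, 29, 54)⟩,
  ⟨⟨0, 0, 0, 0, 0, 0, 0, 0, 0⟩, (0, 0, 0)⟩,
  ⟨⟨0, 0, 0, 0, 0, 0, 0, 0, 0⟩, (0, 0, 0)⟩,
  ⟨⟨0, 0, 0, 0, 0, 0, 0, 0, 0⟩, (0, 0, 0)⟩,
  ⟨⟨-51, -66, -37, 59, -74, 8, 20, 5, -37⟩, (55, 38, 55)⟩,
  ⟨⟨0, 0, 0, 0, 0, 0, 0, 0, 0⟩, (0, 0, 0)⟩,
  ⟨⟨0, 0, 0, 0, 0, 0, 0, 0, 0⟩, (0, 0, 0)⟩,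
  ⟨⟨-31, -74, -52, -81, 54, 13, 16, 13, -35⟩, (64, 55, 54)⟩,
  ⟨⟨-31, 74, -52, -81, -54, 13, 16, -13, -35⟩, (11, 15, 47)⟩,
  ⟨⟨-39, 66, -53, -89, -46, 52, 8, -19, -31⟩, (58, 65, 50)⟩,
  ⟨⟨0, 0, 0, 0, 0, 0, 0, 0, 0⟩, (0, 0, 0)⟩,
  ⟨⟨79, 14, -107, 49, -74, 28, -12, -21, -17⟩, (57, 3, 21)⟩,
  ⟨⟨0, 0, 0, 0, 0, 0, 0, 0, 0⟩, (0, 0, 0)⟩,
  ⟨⟨0, 0, 0, 0, 0, 0, 0, 0, 0⟩, (0, 0, 0)⟩,
  ⟨⟨31, -74, -83, -81, -54, 68, -16, 13, -19⟩, (61, 33, 67)⟩,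
  ⟨⟨0, 0, 0, 0, 0, 0, 0, 0, 0⟩, (0, 0, 0)⟩,
  ⟨⟨0, 0, 0, 0, 0, 0, 0, 0, 0⟩, (0, 0, 0)⟩,
  ⟨⟨0, 0, 0, 0, 0, 0, 0, 0, 0⟩, (0, 0, 0)⟩,
  ⟨⟨0, 0, 0, 0, 0, 0, 0, 0, 0⟩, (0, 0, 0)⟩]

/-- Data of a prime. -/
noncomputable def Dm : PD := ⟨(nat_lit 43), (nat_lit 2), (989, 1, 17), (1652, 774, 636), (172, 5, 130)⟩

theorem Dm_ok : Dm.Ok := pdb_sound (s := 1) (C := ⟨⟨43, -38, -44, 43, 38, 1, 0, 9, -19⟩, (5, 38, 9)⟩) (by show Nat.Prime 43; norm_num) (by decide +kernel)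

/-- Lines of the first type. -/
noncomputable def Clm : List C1 := [⟨⟨43, 38, -44, 43, -38, 1, 0, -9, -19⟩, (42, 1, 24)⟩,
  ⟨⟨0, 0, 0, 0, 0, 0, 0, 0, 0⟩, (0, 0, 0)⟩,
  ⟨⟨57, -18, -16, -17, -58, 1, 4, 1, -23⟩, (41, 27, 24)⟩,
  ⟨⟨7, -38, -56, -33, -42, 49, -16, 7, -1⟩, (28, 40, 22)⟩,
  ⟨⟨0, 0, 0, 0, 0, 0, 0, 0, 0⟩, (0, 0, 0)⟩,
  ⟨⟨0, 0, 0, 0, 0, 0, 0, 0, 0⟩, (0, 0, 0)⟩,
  ⟨⟨0, 0, 0, 0, 0, 0, 0, 0, 0⟩, (0, 0, 0)⟩,
  ⟨⟨0, 0, 0, 0, 0, 0, 0, 0, 0⟩, (0, 0, 0)⟩,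
  ⟨⟨0, 0, 0, 0, 0, 0, 0, 0, 0⟩, (0, 0, 0)⟩,
  ⟨⟨0, 0, 0, 0, 0, 0, 0, 0, 0⟩, (0, 0, 0)⟩,
  ⟨⟨0, 0, 0, 0, 0, 0, 0, 0, 0⟩, (0, 0, 0)⟩,
  ⟨⟨27, -18, -71, -53, -22, 4, -4, 17, -7⟩, (6, 36, 23)⟩,
  ⟨⟨0, 0, 0, 0, 0, 0, 0, 0, 0⟩, (0, 0, 0)⟩,
  ⟨⟨0, 0, 0, 0, 0, 0, 0, 0, 0⟩, (0, 0, 0)⟩,
  ⟨⟨-7, -2, -64, -47, -38, 31, 12, -15, -7⟩, (37, 15, 41)⟩,
  ⟨⟨-7, 2, -64, -47, 38, 31, 12, 15, -7⟩, (3, 14, 1)⟩,
  ⟨⟨-7, 38, -49, 33, 42, 16, 16, -7, -17⟩, (27, 14, 12)⟩,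
  ⟨⟨0, 0, 0, 0, 0, 0, 0, 0, 0⟩, (0, 0, 0)⟩,
  ⟨⟨0, 0, 0, 0, 0, 0, 0, 0, 0⟩, (0, 0, 0)⟩,
  ⟨⟨57, 18, -16, -17, 58, 1, 4, -1, -23⟩, (36, 30, 41)⟩,
  ⟨⟨53, 22, -49, 27, -18, 44, 4, -17, -11⟩, (6, 42, 11)⟩,
  ⟨⟨0, 0, 0, 0, 0, 0, 0, 0, 0⟩, (0, 0, 0)⟩,
  ⟨⟨0, 0, 0, 0, 0, 0, 0, 0, 0⟩, (0, 0, 0)⟩,
  ⟨⟨27, 18, -71, -53, 22, 4, -4, -17, -7⟩, (1, 6, 11)⟩,
  ⟨⟨57, -18, -41, -17, -58, 16, -4, -1, -19⟩, (7, 13, 41)⟩,
  ⟨⟨0, 0, 0, 0, 0, 0, 0, 0, 0⟩, (0, 0, 0)⟩,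
  ⟨⟨0, 0, 0, 0, 0, 0, 0, 0, 0⟩, (0, 0, 0)⟩,
  ⟨⟨7, 38, -56, -33, 42, 49, -16, -7, -1⟩, (27, 14, 12)⟩,
  ⟨⟨7, 2, -71, -47, -38, 16, 12, -15, -5⟩, (3, 29, 42)⟩,
  ⟨⟨7, -2, -71, -47, 38, 16, 12, 15, -5⟩, (37, 28, 2)⟩,
  ⟨⟨0, 0, 0, 0, 0, 0, 0, 0, 0⟩, (0, 0, 0)⟩,
  ⟨⟨0, 0, 0, 0, 0, 0, 0, 0, 0⟩, (0, 0, 0)⟩,
  ⟨⟨53, -22, -49, 27, 18, 44, 4, 17, -11⟩, (36, 37, 23)⟩,
  ⟨⟨0, 0, 0, 0, 0, 0, 0, 0, 0⟩, (0, 0, 0)⟩,
  ⟨⟨0, 0, 0, 0, 0, 0, 0, 0, 0⟩, (0, 0, 0)⟩,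
  ⟨⟨0, 0, 0, 0, 0, 0, 0, 0, 0⟩, (0, 0, 0)⟩,
  ⟨⟨0, 0, 0, 0, 0, 0, 0, 0, 0⟩, (0, 0, 0)⟩,
  ⟨⟨0, 0, 0, 0, 0, 0, 0, 0, 0⟩, (0, 0, 0)⟩,
  ⟨⟨0, 0, 0, 0, 0, 0, 0, 0, 0⟩, (0, 0, 0)⟩,
  ⟨⟨0, 0, 0, 0, 0, 0, 0, 0, 0⟩, (0, 0, 0)⟩,
  ⟨⟨-7, -38, -49, 33, -42, 16, 16, 7, -17⟩, (28, 40, 22)⟩,
  ⟨⟨57, 18, -41, -17, 58, 16, -4, 1, -19⟩, (2, 16, 24)⟩,
  ⟨⟨0, 0, 0, 0, 0, 0, 0, 0, 0⟩, (0, 0, 0)⟩]

/-- Unit moves. -/
noncomputable def U : List Mv := [mz,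
  mz,
  mz,
  mz,
  mz,
  mz,
  ⟨⟨-1, 0, 1, 0, 1, 0, 0, 0, 1⟩, .nil, (nat_lit 12), (nat_lit 1), (nat_lit 4), (nat_lit 1), (0, 0, 0), [], 5⟩,
  ⟨⟨1, 0, 0, 0, -1, 0, 0, 0, 1⟩, .nil, (nat_lit 12), (nat_lit 3), (nat_lit 12), (nat_lit 1), (0, 0, 0), [], 11⟩,
  ⟨⟨-1, 0, 1, 0, -1, 0, 0, 0, 1⟩, .nil, (nat_lit 0), (nat_lit 3), (nat_lit 1), (nat_lit 0), (0, 0, 0), [], 10⟩,
  ⟨⟨1, 0, 0, 0, -1, 0, 0, 0, 1⟩, .nil, (nat_lit 12), (nat_lit 3), (nat_lit 12), (nat_lit 1), (0, 0, 0), [], 11⟩,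
  ⟨⟨-1, 0, 1, 0, 1, 0, 0, 0, 1⟩, .nil, (nat_lit 12), (nat_lit 1), (nat_lit 4), (nat_lit 1), (0, 0, 0), [], 5⟩,
  ⟨⟨-1, 0, 1, 0, -1, 0, 0, 0, 1⟩, .nil, (nat_lit 0), (nat_lit 3), (nat_lit 1), (nat_lit 0), (0, 0, 0), [], 10⟩,
  ⟨⟨1, 0, 0, 0, -1, 0, 0, 0, 1⟩, .nil, (nat_lit 12), (nat_lit 3), (nat_lit 12), (nat_lit 1), (0, 0, 0), [], 11⟩]

theorem v_ty : tyb Dm S.ty1 Clm = true := by decide +kernel

theorem v_ty0 : tyb D0 (S.tys.getD 0 0) Cl0 = true := by decide +kernel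

theorem v_ty1 : tyb D1 (S.tys.getD 1 0) Cl1 = true := by decide +kernel

theorem v_msc : mscb S D0 [D1] Dm (nat_lit 52) = true := by decide +kernel

theorem v_mv0 : mvsn (nat_lit 1575216721) S D0 [D1] Dm (nat_lit 52) 0 D0 = true := by decide +kernel

theorem v_mv1 : mvsn (nat_lit 1575216721) S D0 [D1] Dm (nat_lit 52) 1 D1 = true := by decide +kernel

theorem v_mm : mmsn (nat_lit 1575216721) S D0 [D1] Dm (nat_lit 52) = true := by decide +kernel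

theorem v_un : unb S D0 (nat_lit 52) U = true := by decide +kernel

theorem v_ok : okb S.oks [(0, 0, 0), (0, 0, 0)] = true := by decide +kernel

theorem v_part : ∀ d < D0.p, (nat_lit 52).testBit d = true → part S (zc (D0 :: [D1])) d = true := by
  intro d hd h
  have h1 : ∀ d < 13, (nat_lit 52).testBit d = true → d = 2 ∨ d = 4 ∨ d = 5 := by decide
  rcases h1 d hd h with rfl | rfl | rfl
  · exact part_2
  · exact part_4
  · exact part_5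

theorem main (n : ℕ) (ho : Odd n) (hr : ¬ Rep n) (h0 : Split 13 n) (h1 : Split 71 n) (hm : Split 43 n) :
    n ∈ EE := by
  refine concln (W := nat_lit 1575216721) (S := S) (P0 := D0) (Pl := [D1]) (Pm := Dm) (cn := nat_lit 52) ?_ Dm_ok v_ty ?_ ?_ v_msc ?_ v_mm v_un v_part v_ok
    n ho hr ?_ hm
  · simp only [List.forall_mem_cons]
    exact ⟨D0_ok, D1_ok, fun _ h => absurd h (by simp)⟩
  · exact all2 (φ := fun j P => ∃ L, tyb P (S.tys.getD j 0) L = true) ⟨_, v_ty0⟩ ⟨_, v_ty1⟩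
  · exact all2 (φ := fun j P => Nat.ble (S.pks.getD j 0) (Nat.pow P.p P.K) = true) (by decide +kernel) (by decide +kernel)
  · exact all2 (φ := fun i P => mvsn (nat_lit 1575216721) S D0 [D1] Dm (nat_lit 52) i P = true) v_mv0 v_mv1
  · simp only [List.forall_mem_cons]
    exact ⟨h0, h1, fun _ h => absurd h (by simp)⟩

end Pool.Agent.Work.MP_9954fe_nt.P13_71_43

namespace Pool.Agent.Work.MP_9954fe_nt.P19_43_31

/-- Dummy move. -/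
noncomputable def mz : Mv := ⟨⟨0, 0, 0, 0, 0, 0, 0, 0, 0⟩, .nil, (nat_lit 0), (nat_lit 0), (nat_lit 0), (nat_lit 0), (0, 0, 0), [], 0⟩

/-- Moves. -/
noncomputable def t0_1 : List Mv := [
  ⟨⟨15, -4, -23, -10, 9, -10, 12, 12, -7⟩, (.cons (nat_lit 177) (nat_lit 313) (nat_lit 238) (nat_lit 1) (.cons
 (nat_lit 686) (nat_lit 1556) (nat_lit 1512) (nat_lit 1) .nil)), (nat_lit 19), (nat_lit 28), (nat_lit 25),
 (nat_lit 1), (18, 7, 3), [49, 747], 19⟩,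
  ⟨⟨15, -4, -23, 10, -9, 10, 12, 12, -7⟩, (.cons (nat_lit 317) (nat_lit 293) (nat_lit 1) (nat_lit 190) (.cons
 (nat_lit 990) (nat_lit 1757) (nat_lit 1236) (nat_lit 1) .nil)), (nat_lit 7), (nat_lit 18), (nat_lit 7),
 (nat_lit 1), (18, 12, 3), [350, 633], 29⟩,
  ⟨⟨15, -4, -23, -10, 9, -10, 12, 12, -7⟩, (.cons (nat_lit 177) (nat_lit 313) (nat_lit 238) (nat_lit 1) (.cons
 (nat_lit 686) (nat_lit 1556) (nat_lit 1512) (nat_lit 1) .nil)), (nat_lit 19), (nat_lit 28), (nat_lit 25),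
 (nat_lit 1), (18, 7, 3), [49, 747], 19⟩,
  ⟨⟨15, -4, -23, -10, 9, -10, 12, 12, -7⟩, (.cons (nat_lit 177) (nat_lit 313) (nat_lit 238) (nat_lit 1) (.cons
 (nat_lit 686) (nat_lit 1556) (nat_lit 1512) (nat_lit 1) .nil)), (nat_lit 19), (nat_lit 28), (nat_lit 25),
 (nat_lit 1), (18, 7, 3), [49, 747], 19⟩,
  ⟨⟨-3, 16, 16, 10, -9, 10, 12, 12, -7⟩, (.cons (nat_lit 235) (nat_lit 147) (nat_lit 254) (nat_lit 1) (.cons
 (nat_lit 1848) (nat_lit 1769) (nat_lit 462) (nat_lit 1) .nil)), (nat_lit 30), (nat_lit 26), (nat_lit 4),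
 (nat_lit 1), (4, 12, 3), [80, 1450], 20⟩,
  ⟨⟨15, -4, -23, -10, 9, -10, 12, 12, -7⟩, (.cons (nat_lit 177) (nat_lit 313) (nat_lit 238) (nat_lit 1) (.cons
 (nat_lit 686) (nat_lit 1556) (nat_lit 1512) (nat_lit 1) .nil)), (nat_lit 19), (nat_lit 28), (nat_lit 25),
 (nat_lit 1), (18, 7, 3), [49, 747], 19⟩,
  ⟨⟨15, -4, -23, 10, -9, 10, 12, 12, -7⟩, (.cons (nat_lit 317) (nat_lit 293) (nat_lit 1) (nat_lit 190) (.cons
 (nat_lit 990) (nat_lit 1757) (nat_lit 1236) (nat_lit 1) .nil)), (nat_lit 7), (nat_lit 18), (nat_lit 7),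
 (nat_lit 1), (18, 12, 3), [350, 633], 29⟩,
  ⟨⟨-3, 16, 16, -10, 9, -10, 12, 12, -7⟩, (.cons (nat_lit 296) (nat_lit 76) (nat_lit 194) (nat_lit 1) (.cons (nat_lit 1120) (nat_lit 938) (nat_lit 480) (nat_lit 1) .nil)), (nat_lit 11), (nat_lit 6), (nat_lit 9), (nat_lit 1), (4, 7, 3), [8, 145], 11⟩,
  ⟨⟨15, -4, -23, -10, 9, -10, 12, 12, -7⟩, (.cons (nat_lit 177) (nat_lit 313) (nat_lit 238) (nat_lit 1) (.cons
 (nat_lit 686) (nat_lit 1556) (nat_lit 1512) (nat_lit 1) .nil)), (nat_lit 19), (nat_lit 28), (nat_lit 25),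
 (nat_lit 1), (18, 7, 3), [49, 747], 19⟩,
  ⟨⟨15, -4, -23, -10, 9, -10, 12, 12, -7⟩, (.cons (nat_lit 177) (nat_lit 313) (nat_lit 238) (nat_lit 1) (.cons
 (nat_lit 686) (nat_lit 1556) (nat_lit 1512) (nat_lit 1) .nil)), (nat_lit 19), (nat_lit 28), (nat_lit 25),
 (nat_lit 1), (18, 7, 3), [49, 747], 19⟩,
  ⟨⟨15, -4, -23, -10, 9, -10, 12, 12, -7⟩, (.cons (nat_lit 177) (nat_lit 313) (nat_lit 238) (nat_lit 1) (.cons
 (nat_lit 686) (nat_lit 1556) (nat_lit 1512) (nat_lit 1) .nil)), (nat_lit 19), (nat_lit 28), (nat_lit 25),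
 (nat_lit 1), (18, 7, 3), [49, 747], 19⟩,
  ⟨⟨-3, 16, 16, -10, 9, -10, 12, 12, -7⟩, (.cons (nat_lit 296) (nat_lit 76) (nat_lit 194) (nat_lit 1) (.cons (nat_lit 1120) (nat_lit 938) (nat_lit 480) (nat_lit 1) .nil)), (nat_lit 11), (nat_lit 6), (nat_lit 9), (nat_lit 1), (4, 7, 3), [8, 145], 11⟩,
  ⟨⟨15, -4, -23, 10, -9, 10, 12, 12, -7⟩, (.cons (nat_lit 317) (nat_lit 293) (nat_lit 1) (nat_lit 190) (.cons
 (nat_lit 990) (nat_lit 1757) (nat_lit 1236) (nat_lit 1) .nil)), (nat_lit 7), (nat_lit 18), (nat_lit 7),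
 (nat_lit 1), (18, 12, 3), [350, 633], 29⟩,
  ⟨⟨15, -4, -23, -10, 9, -10, 12, 12, -7⟩, (.cons (nat_lit 177) (nat_lit 313) (nat_lit 238) (nat_lit 1) (.cons
 (nat_lit 686) (nat_lit 1556) (nat_lit 1512) (nat_lit 1) .nil)), (nat_lit 19), (nat_lit 28), (nat_lit 25),
 (nat_lit 1), (18, 7, 3), [49, 747], 19⟩,
  ⟨⟨15, -4, -23, -10, 9, -10, 12, 12, -7⟩, (.cons (nat_lit 177) (nat_lit 313) (nat_lit 238) (nat_lit 1) (.cons
 (nat_lit 686) (nat_lit 1556) (nat_lit 1512) (nat_lit 1) .nil)), (nat_lit 19), (nat_lit 28), (nat_lit 25),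
 (nat_lit 1), (18, 7, 3), [49, 747], 19⟩,
  ⟨⟨-3, 16, 16, -10, 9, -10, 12, 12, -7⟩, (.cons (nat_lit 296) (nat_lit 76) (nat_lit 194) (nat_lit 1) (.cons (nat_lit 1120) (nat_lit 938) (nat_lit 480) (nat_lit 1) .nil)), (nat_lit 11), (nat_lit 6), (nat_lit 9), (nat_lit 1), (4, 7, 3), [8, 145], 11⟩,
  ⟨⟨15, -4, -23, -10, 9, -10, 12, 12, -7⟩, (.cons (nat_lit 177) (nat_lit 313) (nat_lit 238) (nat_lit 1) (.cons
 (nat_lit 686) (nat_lit 1556) (nat_lit 1512) (nat_lit 1) .nil)), (nat_lit 19), (nat_lit 28), (nat_lit 25),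
 (nat_lit 1), (18, 7, 3), [49, 747], 19⟩,
  ⟨⟨15, -4, -23, -10, 9, -10, 12, 12, -7⟩, (.cons (nat_lit 177) (nat_lit 313) (nat_lit 238) (nat_lit 1) (.cons
 (nat_lit 686) (nat_lit 1556) (nat_lit 1512) (nat_lit 1) .nil)), (nat_lit 19), (nat_lit 28), (nat_lit 25),
 (nat_lit 1), (18, 7, 3), [49, 747], 19⟩,
  ⟨⟨-3, 16, 16, 10, -9, 10, 12, 12, -7⟩, (.cons (nat_lit 235) (nat_lit 147) (nat_lit 254) (nat_lit 1) (.cons
 (nat_lit 1848) (nat_lit 1769) (nat_lit 462) (nat_lit 1) .nil)), (nat_lit 30), (nat_lit 26), (nat_lit 4),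
 (nat_lit 1), (4, 12, 3), [80, 1450], 20⟩]

/-- Moves. -/
noncomputable def t0_2 : List Mv := [
  ⟨⟨-11, 12, 20, 16, 5, 2, -2, 16, -5⟩, (.cons (nat_lit 131) (nat_lit 154) (nat_lit 242) (nat_lit 1) (.cons
 (nat_lit 1098) (nat_lit 480) (nat_lit 1362) (nat_lit 1) .nil)), (nat_lit 19), (nat_lit 20), (nat_lit 17),
 (nat_lit 1), (15, 11, 1), [46, 665], 8⟩,
  ⟨⟨9, 4, -25, -16, -5, -2, -2, 16, -5⟩, (.cons (nat_lit 274) (nat_lit 291) (nat_lit 265) (nat_lit 1) (.cons (nat_lit 248) (nat_lit 56) (nat_lit 206) (nat_lit 1) .nil)), (nat_lit 5), (nat_lit 24), (nat_lit 18), (nat_lit 1), (5, 8, 1), [52, 12], 9⟩,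
  ⟨⟨9, 4, -25, 16, 5, 2, -2, 16, -5⟩, (.cons (nat_lit 314) (nat_lit 176) (nat_lit 235) (nat_lit 1) (.cons
 (nat_lit 837) (nat_lit 982) (nat_lit 72) (nat_lit 1) .nil)), (nat_lit 15), (nat_lit 19), (nat_lit 15),
 (nat_lit 1), (5, 11, 1), [253, 1740], 15⟩,
  ⟨⟨9, 4, -25, -16, -5, -2, -2, 16, -5⟩, (.cons (nat_lit 274) (nat_lit 291) (nat_lit 265) (nat_lit 1) (.cons (nat_lit 248) (nat_lit 56) (nat_lit 206) (nat_lit 1) .nil)), (nat_lit 5), (nat_lit 24), (nat_lit 18), (nat_lit 1), (5, 8, 1), [52, 12], 9⟩,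
  ⟨⟨9, 4, -25, -16, -5, -2, -2, 16, -5⟩, (.cons (nat_lit 274) (nat_lit 291) (nat_lit 265) (nat_lit 1) (.cons (nat_lit 248) (nat_lit 56) (nat_lit 206) (nat_lit 1) .nil)), (nat_lit 5), (nat_lit 24), (nat_lit 18), (nat_lit 1), (5, 8, 1), [52, 12], 9⟩,
  ⟨⟨9, 4, -25, 16, 5, 2, -2, 16, -5⟩, (.cons (nat_lit 314) (nat_lit 176) (nat_lit 235) (nat_lit 1) (.cons
 (nat_lit 837) (nat_lit 982) (nat_lit 72) (nat_lit 1) .nil)), (nat_lit 15), (nat_lit 19), (nat_lit 15),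
 (nat_lit 1), (5, 11, 1), [253, 1740], 15⟩,
  ⟨⟨-11, 12, 20, 16, 5, 2, -2, 16, -5⟩, (.cons (nat_lit 131) (nat_lit 154) (nat_lit 242) (nat_lit 1) (.cons
 (nat_lit 1098) (nat_lit 480) (nat_lit 1362) (nat_lit 1) .nil)), (nat_lit 19), (nat_lit 20), (nat_lit 17),
 (nat_lit 1), (15, 11, 1), [46, 665], 8⟩,
  ⟨⟨-11, 12, 20, -16, -5, -2, -2, 16, -5⟩, (.cons (nat_lit 108) (nat_lit 314) (nat_lit 59) (nat_lit 1) (.cons
 (nat_lit 225) (nat_lit 417) (nat_lit 1281) (nat_lit 1) .nil)), (nat_lit 20), (nat_lit 22), (nat_lit 22),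
 (nat_lit 1), (15, 8, 1), [7, 1474], 12⟩,
  ⟨⟨9, 4, -25, -16, -5, -2, -2, 16, -5⟩, (.cons (nat_lit 274) (nat_lit 291) (nat_lit 265) (nat_lit 1) (.cons (nat_lit 248) (nat_lit 56) (nat_lit 206) (nat_lit 1) .nil)), (nat_lit 5), (nat_lit 24), (nat_lit 18), (nat_lit 1), (5, 8, 1), [52, 12], 9⟩,
  ⟨⟨9, 4, -25, -16, -5, -2, -2, 16, -5⟩, (.cons (nat_lit 274) (nat_lit 291) (nat_lit 265) (nat_lit 1) (.cons (nat_lit 248) (nat_lit 56) (nat_lit 206) (nat_lit 1) .nil)), (nat_lit 5), (nat_lit 24), (nat_lit 18), (nat_lit 1), (5, 8, 1), [52, 12], 9⟩,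
  ⟨⟨9, 4, -25, -16, -5, -2, -2, 16, -5⟩, (.cons (nat_lit 274) (nat_lit 291) (nat_lit 265) (nat_lit 1) (.cons (nat_lit 248) (nat_lit 56) (nat_lit 206) (nat_lit 1) .nil)), (nat_lit 5), (nat_lit 24), (nat_lit 18), (nat_lit 1), (5, 8, 1), [52, 12], 9⟩,
  ⟨⟨9, 4, -25, -16, -5, -2, -2, 16, -5⟩, (.cons (nat_lit 274) (nat_lit 291) (nat_lit 265) (nat_lit 1) (.cons (nat_lit 248) (nat_lit 56) (nat_lit 206) (nat_lit 1) .nil)), (nat_lit 5), (nat_lit 24), (nat_lit 18), (nat_lit 1), (5, 8, 1), [52, 12], 9⟩,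
  ⟨⟨9, 4, -25, -16, -5, -2, -2, 16, -5⟩, (.cons (nat_lit 274) (nat_lit 291) (nat_lit 265) (nat_lit 1) (.cons (nat_lit 248) (nat_lit 56) (nat_lit 206) (nat_lit 1) .nil)), (nat_lit 5), (nat_lit 24), (nat_lit 18), (nat_lit 1), (5, 8, 1), [52, 12], 9⟩,
  ⟨⟨-11, 12, 20, -16, -5, -2, -2, 16, -5⟩, (.cons (nat_lit 108) (nat_lit 314) (nat_lit 59) (nat_lit 1) (.cons
 (nat_lit 225) (nat_lit 417) (nat_lit 1281) (nat_lit 1) .nil)), (nat_lit 20), (nat_lit 22), (nat_lit 22),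
 (nat_lit 1), (15, 8, 1), [7, 1474], 12⟩,
  ⟨⟨9, 4, -25, -16, -5, -2, -2, 16, -5⟩, (.cons (nat_lit 274) (nat_lit 291) (nat_lit 265) (nat_lit 1) (.cons (nat_lit 248) (nat_lit 56) (nat_lit 206) (nat_lit 1) .nil)), (nat_lit 5), (nat_lit 24), (nat_lit 18), (nat_lit 1), (5, 8, 1), [52, 12], 9⟩,
  ⟨⟨9, 4, -25, 16, 5, 2, -2, 16, -5⟩, (.cons (nat_lit 314) (nat_lit 176) (nat_lit 235) (nat_lit 1) (.cons
 (nat_lit 837) (nat_lit 982) (nat_lit 72) (nat_lit 1) .nil)), (nat_lit 15), (nat_lit 19), (nat_lit 15),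
 (nat_lit 1), (5, 11, 1), [253, 1740], 15⟩,
  ⟨⟨-11, 12, 20, -16, -5, -2, -2, 16, -5⟩, (.cons (nat_lit 108) (nat_lit 314) (nat_lit 59) (nat_lit 1) (.cons
 (nat_lit 225) (nat_lit 417) (nat_lit 1281) (nat_lit 1) .nil)), (nat_lit 20), (nat_lit 22), (nat_lit 22),
 (nat_lit 1), (15, 8, 1), [7, 1474], 12⟩,
  ⟨⟨9, 4, -25, -16, -5, -2, -2, 16, -5⟩, (.cons (nat_lit 274) (nat_lit 291) (nat_lit 265) (nat_lit 1) (.cons (nat_lit 248) (nat_lit 56) (nat_lit 206) (nat_lit 1) .nil)), (nat_lit 5), (nat_lit 24), (nat_lit 18), (nat_lit 1), (5, 8, 1), [52, 12], 9⟩,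
  ⟨⟨9, 4, -25, -16, -5, -2, -2, 16, -5⟩, (.cons (nat_lit 274) (nat_lit 291) (nat_lit 265) (nat_lit 1) (.cons (nat_lit 248) (nat_lit 56) (nat_lit 206) (nat_lit 1) .nil)), (nat_lit 5), (nat_lit 24), (nat_lit 18), (nat_lit 1), (5, 8, 1), [52, 12], 9⟩]

/-- Moves. -/
noncomputable def t0_8 : List Mv := [
  ⟨⟨17, -12, -9, -4, -5, -18, 14, 8, -13⟩, (.cons (nat_lit 67) (nat_lit 114) (nat_lit 350) (nat_lit 1) (.cons
 (nat_lit 506) (nat_lit 905) (nat_lit 92) (nat_lit 1) .nil)), (nat_lit 5), (nat_lit 9), (nat_lit 17), (nat_lit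
 1), (9, 18, 13), [238, 1173], 9⟩,
  ⟨⟨17, -12, -9, -4, -5, -18, 14, 8, -13⟩, (.cons (nat_lit 67) (nat_lit 114) (nat_lit 350) (nat_lit 1) (.cons
 (nat_lit 506) (nat_lit 905) (nat_lit 92) (nat_lit 1) .nil)), (nat_lit 5), (nat_lit 9), (nat_lit 17), (nat_lit
 1), (9, 18, 13), [238, 1173], 9⟩,
  ⟨⟨17, -12, -9, -4, -5, -18, 14, 8, -13⟩, (.cons (nat_lit 67) (nat_lit 114) (nat_lit 350) (nat_lit 1) (.cons
 (nat_lit 506) (nat_lit 905) (nat_lit 92) (nat_lit 1) .nil)), (nat_lit 5), (nat_lit 9), (nat_lit 17), (nat_lit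
 1), (9, 18, 13), [238, 1173], 9⟩,
  ⟨⟨-3, 20, -4, -4, -5, -18, 14, 8, -13⟩, (.cons (nat_lit 100) (nat_lit 351) (nat_lit 181) (nat_lit 1) (.cons
 (nat_lit 1085) (nat_lit 1159) (nat_lit 1167) (nat_lit 1) .nil)), (nat_lit 5), (nat_lit 10), (nat_lit 27),
 (nat_lit 1), (4, 18, 13), [256, 829], 13⟩,
  ⟨⟨-3, 20, -4, 4, 5, 18, 14, 8, -13⟩, (.cons (nat_lit 78) (nat_lit 138) (nat_lit 1) (nat_lit 285) (.cons (nat_lit 746) (nat_lit 626) (nat_lit 898) (nat_lit 1) .nil)), (nat_lit 18), (nat_lit 12), (nat_lit 4), (nat_lit 1), (4, 1, 13), [71, 243], 19⟩,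
  ⟨⟨17, -12, -9, -4, -5, -18, 14, 8, -13⟩, (.cons (nat_lit 67) (nat_lit 114) (nat_lit 350) (nat_lit 1) (.cons
 (nat_lit 506) (nat_lit 905) (nat_lit 92) (nat_lit 1) .nil)), (nat_lit 5), (nat_lit 9), (nat_lit 17), (nat_lit
 1), (9, 18, 13), [238, 1173], 9⟩,
  ⟨⟨17, -12, -9, -4, -5, -18, 14, 8, -13⟩, (.cons (nat_lit 67) (nat_lit 114) (nat_lit 350) (nat_lit 1) (.cons
 (nat_lit 506) (nat_lit 905) (nat_lit 92) (nat_lit 1) .nil)), (nat_lit 5), (nat_lit 9), (nat_lit 17), (nat_lit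
 1), (9, 18, 13), [238, 1173], 9⟩,
  ⟨⟨17, -12, -9, -4, -5, -18, 14, 8, -13⟩, (.cons (nat_lit 67) (nat_lit 114) (nat_lit 350) (nat_lit 1) (.cons
 (nat_lit 506) (nat_lit 905) (nat_lit 92) (nat_lit 1) .nil)), (nat_lit 5), (nat_lit 9), (nat_lit 17), (nat_lit
 1), (9, 18, 13), [238, 1173], 9⟩,
  ⟨⟨17, -12, -9, 4, 5, 18, 14, 8, -13⟩, (.cons (nat_lit 273) (nat_lit 128) (nat_lit 294) (nat_lit 1) (.cons
 (nat_lit 286) (nat_lit 1223) (nat_lit 941) (nat_lit 1) .nil)), (nat_lit 25), (nat_lit 17), (nat_lit 16),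
 (nat_lit 1), (9, 1, 13), [176, 1705], 12⟩,
  ⟨⟨17, -12, -9, -4, -5, -18, 14, 8, -13⟩, (.cons (nat_lit 67) (nat_lit 114) (nat_lit 350) (nat_lit 1) (.cons
 (nat_lit 506) (nat_lit 905) (nat_lit 92) (nat_lit 1) .nil)), (nat_lit 5), (nat_lit 9), (nat_lit 17), (nat_lit
 1), (9, 18, 13), [238, 1173], 9⟩,
  ⟨⟨17, -12, -9, -4, -5, -18, 14, 8, -13⟩, (.cons (nat_lit 67) (nat_lit 114) (nat_lit 350) (nat_lit 1) (.cons
 (nat_lit 506) (nat_lit 905) (nat_lit 92) (nat_lit 1) .nil)), (nat_lit 5), (nat_lit 9), (nat_lit 17), (nat_lit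
 1), (9, 18, 13), [238, 1173], 9⟩,
  ⟨⟨17, -12, -9, -4, -5, -18, 14, 8, -13⟩, (.cons (nat_lit 67) (nat_lit 114) (nat_lit 350) (nat_lit 1) (.cons
 (nat_lit 506) (nat_lit 905) (nat_lit 92) (nat_lit 1) .nil)), (nat_lit 5), (nat_lit 9), (nat_lit 17), (nat_lit
 1), (9, 18, 13), [238, 1173], 9⟩,
  ⟨⟨17, -12, -9, -4, -5, -18, 14, 8, -13⟩, (.cons (nat_lit 67) (nat_lit 114) (nat_lit 350) (nat_lit 1) (.cons
 (nat_lit 506) (nat_lit 905) (nat_lit 92) (nat_lit 1) .nil)), (nat_lit 5), (nat_lit 9), (nat_lit 17), (nat_lit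
 1), (9, 18, 13), [238, 1173], 9⟩,
  ⟨⟨-3, 20, -4, -4, -5, -18, 14, 8, -13⟩, (.cons (nat_lit 100) (nat_lit 351) (nat_lit 181) (nat_lit 1) (.cons
 (nat_lit 1085) (nat_lit 1159) (nat_lit 1167) (nat_lit 1) .nil)), (nat_lit 5), (nat_lit 10), (nat_lit 27),
 (nat_lit 1), (4, 18, 13), [256, 829], 13⟩,
  ⟨⟨-3, 20, -4, 4, 5, 18, 14, 8, -13⟩, (.cons (nat_lit 78) (nat_lit 138) (nat_lit 1) (nat_lit 285) (.cons (nat_lit 746) (nat_lit 626) (nat_lit 898) (nat_lit 1) .nil)), (nat_lit 18), (nat_lit 12), (nat_lit 4), (nat_lit 1), (4, 1, 13), [71, 243], 19⟩,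
  ⟨⟨17, -12, -9, 4, 5, 18, 14, 8, -13⟩, (.cons (nat_lit 273) (nat_lit 128) (nat_lit 294) (nat_lit 1) (.cons
 (nat_lit 286) (nat_lit 1223) (nat_lit 941) (nat_lit 1) .nil)), (nat_lit 25), (nat_lit 17), (nat_lit 16),
 (nat_lit 1), (9, 1, 13), [176, 1705], 12⟩,
  ⟨⟨17, -12, -9, 4, 5, 18, 14, 8, -13⟩, (.cons (nat_lit 273) (nat_lit 128) (nat_lit 294) (nat_lit 1) (.cons
 (nat_lit 286) (nat_lit 1223) (nat_lit 941) (nat_lit 1) .nil)), (nat_lit 25), (nat_lit 17), (nat_lit 16),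
 (nat_lit 1), (9, 1, 13), [176, 1705], 12⟩,
  ⟨⟨17, -12, -9, -4, -5, -18, 14, 8, -13⟩, (.cons (nat_lit 67) (nat_lit 114) (nat_lit 350) (nat_lit 1) (.cons
 (nat_lit 506) (nat_lit 905) (nat_lit 92) (nat_lit 1) .nil)), (nat_lit 5), (nat_lit 9), (nat_lit 17), (nat_lit
 1), (9, 18, 13), [238, 1173], 9⟩,
  ⟨⟨-3, 20, -4, -4, -5, -18, 14, 8, -13⟩, (.cons (nat_lit 100) (nat_lit 351) (nat_lit 181) (nat_lit 1) (.cons
 (nat_lit 1085) (nat_lit 1159) (nat_lit 1167) (nat_lit 1) .nil)), (nat_lit 5), (nat_lit 10), (nat_lit 27),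
 (nat_lit 1), (4, 18, 13), [256, 829], 13⟩]

/-- Moves. -/
noncomputable def t1_1 : List Mv := [
  mz,
  ⟨⟨33, -32, -5, 2, 15, 44, 36, 12, -25⟩, (.cons (nat_lit 125) (nat_lit 90) (nat_lit 81) (nat_lit 1) (.cons
 (nat_lit 1778) (nat_lit 234) (nat_lit 615) (nat_lit 1) .nil)), (nat_lit 8), (nat_lit 8), (nat_lit 5), (nat_lit
 1), (9, 24, 2), [162, 1608], 12⟩,
  mz,
  mz,
  ⟨⟨19, 36, -36, -20, -13, -30, 34, -8, -35⟩, (.cons (nat_lit 213) (nat_lit 206) (nat_lit 88) (nat_lit 1)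
 (.cons (nat_lit 749) (nat_lit 1193) (nat_lit 216) (nat_lit 1) .nil)), (nat_lit 21), (nat_lit 14), (nat_lit
 26), (nat_lit 1), (14, 26, 16), [332, 1777], 24⟩,
  ⟨⟨33, -32, -28, 2, 15, -46, 36, 12, -11⟩, (.cons (nat_lit 296) (nat_lit 82) (nat_lit 336) (nat_lit 1) (.cons
 (nat_lit 667) (nat_lit 738) (nat_lit 1461) (nat_lit 1) .nil)), (nat_lit 3), (nat_lit 14), (nat_lit 12),
 (nat_lit 1), (19, 22, 9), [159, 416], 4⟩,
  ⟨⟨-37, -24, 0, -20, 37, 0, 2, -8, -43⟩, (.cons (nat_lit 360) (nat_lit 157) (nat_lit 119) (nat_lit 1) (.cons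
 (nat_lit 1390) (nat_lit 1579) (nat_lit 547) (nat_lit 1) .nil)), (nat_lit 30), (nat_lit 23), (nat_lit 16),
 (nat_lit 1), (12, 3, 4), [174, 1160], 5⟩,
  ⟨⟨-3, -32, 40, 20, 27, 20, 30, -24, -13⟩, (.cons (nat_lit 215) (nat_lit 28) (nat_lit 128) (nat_lit 1) (.cons
 (nat_lit 642) (nat_lit 300) (nat_lit 1191) (nat_lit 1) .nil)), (nat_lit 12), (nat_lit 19), (nat_lit 13),
 (nat_lit 1), (1, 22, 33), [106, 1650], 30⟩,
  ⟨⟨-39, -16, -4, 20, -37, -20, -2, 8, -41⟩, (.cons (nat_lit 32) (nat_lit 274) (nat_lit 244) (nat_lit 1) (.cons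
 (nat_lit 962) (nat_lit 777) (nat_lit 1488) (nat_lit 1) .nil)), (nat_lit 3), (nat_lit 13), (nat_lit 3),
 (nat_lit 1), (6, 30, 40), [233, 1438], 29⟩,
  ⟨⟨-29, 0, -27, 0, -43, 0, 18, 0, -47⟩, (.cons (nat_lit 59) (nat_lit 50) (nat_lit 246) (nat_lit 1) (.cons (nat_lit 988) (nat_lit 244) (nat_lit 1529) (nat_lit 1) .nil)), (nat_lit 1), (nat_lit 16), (nat_lit 1), (nat_lit 0), (33, 0, 24), [25, 439], 6⟩,
  ⟨⟨-9, -16, -44, 38, 15, -34, 12, -36, -13⟩, (.cons (nat_lit 150) (nat_lit 29) (nat_lit 1) (nat_lit 285)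
 (.cons (nat_lit 1255) (nat_lit 1356) (nat_lit 1627) (nat_lit 1) .nil)), (nat_lit 8), (nat_lit 30), (nat_lit
 19), (nat_lit 1), (15, 37, 23), [235, 900], 14⟩,
  mz,
  ⟨⟨-15, 44, 16, 20, 13, -50, -34, 8, -1⟩, (.cons (nat_lit 74) (nat_lit 191) (nat_lit 252) (nat_lit 1) (.cons
 (nat_lit 1138) (nat_lit 1770) (nat_lit 1523) (nat_lit 1) .nil)), (nat_lit 23), (nat_lit 15), (nat_lit 2),
 (nat_lit 1), (28, 20, 9), [231, 1270], 9⟩,
  ⟨⟨33, 8, 20, 20, 27, -40, 30, -24, -17⟩, (.cons (nat_lit 323) (nat_lit 327) (nat_lit 1) (nat_lit 38) (.cons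
 (nat_lit 290) (nat_lit 1037) (nat_lit 879) (nat_lit 1) .nil)), (nat_lit 30), (nat_lit 19), (nat_lit 17),
 (nat_lit 1), (4, 35, 31), [343, 1525], 13⟩,
  mz,
  mz,
  mz,
  ⟨⟨9, -4, -56, 40, -13, -10, 14, 32, -25⟩, (.cons (nat_lit 308) (nat_lit 141) (nat_lit 290) (nat_lit 1) (.cons
 (nat_lit 658) (nat_lit 1296) (nat_lit 148) (nat_lit 1) .nil)), (nat_lit 21), (nat_lit 13), (nat_lit 28),
 (nat_lit 1), (19, 8, 20), [313, 703], 24⟩,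
  ⟨⟨-5, -36, 36, 40, -13, -30, -14, -32, -11⟩, (.cons (nat_lit 100) (nat_lit 338) (nat_lit 225) (nat_lit 1)
 (.cons (nat_lit 1809) (nat_lit 208) (nat_lit 807) (nat_lit 1) .nil)), (nat_lit 3), (nat_lit 20), (nat_lit 15),
 (nat_lit 1), (11, 41, 5), [244, 1486], 30⟩,
  mz,
  mz,
  ⟨⟨21, 20, 31, -38, 15, 34, 12, 36, -13⟩, (.cons (nat_lit 26) (nat_lit 187) (nat_lit 60) (nat_lit 1) (.cons
 (nat_lit 658) (nat_lit 343) (nat_lit 701) (nat_lit 1) .nil)), (nat_lit 4), (nat_lit 30), (nat_lit 11),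
 (nat_lit 1), (12, 9, 13), [129, 1264], 6⟩,
  ⟨⟨9, 16, -53, -38, -15, 4, -12, 36, -1⟩, (.cons (nat_lit 99) (nat_lit 264) (nat_lit 247) (nat_lit 1) (.cons
 (nat_lit 778) (nat_lit 957) (nat_lit 1480) (nat_lit 1) .nil)), (nat_lit 5), (nat_lit 20), (nat_lit 26),
 (nat_lit 1), (1, 34, 13), [229, 752], 20⟩,
  mz,
  mz,
  ⟨⟨9, 4, -56, 40, 13, -10, 14, -32, -25⟩, (.cons (nat_lit 161) (nat_lit 295) (nat_lit 221) (nat_lit 1) (.cons
 (nat_lit 1461) (nat_lit 632) (nat_lit 1659) (nat_lit 1) .nil)), (nat_lit 27), (nat_lit 29), (nat_lit 8),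
 (nat_lit 1), (37, 2, 5), [205, 1356], 20⟩,
  ⟨⟨-5, 36, 36, -40, -13, 30, -14, 32, -11⟩, (.cons (nat_lit 250) (nat_lit 46) (nat_lit 181) (nat_lit 1) (.cons
 (nat_lit 148) (nat_lit 827) (nat_lit 260) (nat_lit 1) .nil)), (nat_lit 22), (nat_lit 2), (nat_lit 16),
 (nat_lit 1), (1, 8, 20), [347, 388], 27⟩,
  mz,
  mz,
  mz,
  ⟨⟨-3, 32, 40, -20, 27, -20, 30, 24, -13⟩, (.cons (nat_lit 225) (nat_lit 198) (nat_lit 80) (nat_lit 1) (.cons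
 (nat_lit 1725) (nat_lit 468) (nat_lit 1561) (nat_lit 1) .nil)), (nat_lit 13), (nat_lit 1), (nat_lit 17),
 (nat_lit 1), (16, 35, 12), [346, 317], 17⟩,
  ⟨⟨19, -36, -36, 20, -13, 30, 34, 8, -35⟩, (.cons (nat_lit 13) (nat_lit 124) (nat_lit 174) (nat_lit 1) (.cons
 (nat_lit 1452) (nat_lit 938) (nat_lit 939) (nat_lit 1) .nil)), (nat_lit 24), (nat_lit 14), (nat_lit 19),
 (nat_lit 1), (24, 23, 9), [161, 1055], 21⟩,
  mz,
  ⟨⟨-21, -20, 52, 38, -15, -4, -12, -36, -1⟩, (.cons (nat_lit 220) (nat_lit 281) (nat_lit 332) (nat_lit 1)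
 (.cons (nat_lit 269) (nat_lit 445) (nat_lit 1731) (nat_lit 1) .nil)), (nat_lit 3), (nat_lit 6), (nat_lit 28),
 (nat_lit 1), (8, 6, 23), [50, 842], 27⟩,
  ⟨⟨-47, 0, 27, 0, -43, 0, -18, 0, -29⟩, (.cons (nat_lit 257) (nat_lit 146) (nat_lit 314) (nat_lit 1) (.cons
 (nat_lit 203) (nat_lit 1746) (nat_lit 787) (nat_lit 1) .nil)), (nat_lit 0), (nat_lit 15), (nat_lit 30),
 (nat_lit 1), (34, 0, 24), [11, 92], 6⟩,
  ⟨⟨-37, 24, 0, -20, -37, 0, 2, 8, -43⟩, (.cons (nat_lit 184) (nat_lit 150) (nat_lit 145) (nat_lit 1) (.cons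
 (nat_lit 1602) (nat_lit 1529) (nat_lit 740) (nat_lit 1) .nil)), (nat_lit 3), (nat_lit 17), (nat_lit 26),
 (nat_lit 1), (34, 30, 40), [290, 119], 29⟩,
  ⟨⟨33, -8, 20, -20, 27, 40, 30, 24, -17⟩, (.cons (nat_lit 360) (nat_lit 83) (nat_lit 290) (nat_lit 1) (.cons
 (nat_lit 1571) (nat_lit 503) (nat_lit 353) (nat_lit 1) .nil)), (nat_lit 30), (nat_lit 20), (nat_lit 4),
 (nat_lit 1), (11, 22, 10), [66, 333], 11⟩,
  ⟨⟨37, -24, -37, -20, -37, 20, -2, -8, -41⟩, (.cons (nat_lit 343) (nat_lit 292) (nat_lit 1) (nat_lit 171)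
 (.cons (nat_lit 544) (nat_lit 730) (nat_lit 18) (nat_lit 1) .nil)), (nat_lit 8), (nat_lit 28), (nat_lit 25),
 (nat_lit 1), (12, 40, 4), [212, 347], 4⟩,
  ⟨⟨3, -44, -20, -2, 15, -44, 36, -12, -25⟩, (.cons (nat_lit 354) (nat_lit 267) (nat_lit 254) (nat_lit 1)
 (.cons (nat_lit 1151) (nat_lit 538) (nat_lit 1) (nat_lit 989) .nil)), (nat_lit 16), (nat_lit 18), (nat_lit 1),
 (nat_lit 0), (10, 22, 34), [44, 666], 1⟩,
  ⟨⟨-15, -44, 16, -20, 13, 50, -34, -8, -1⟩, (.cons (nat_lit 175) (nat_lit 202) (nat_lit 83) (nat_lit 1) (.cons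
 (nat_lit 1399) (nat_lit 570) (nat_lit 358) (nat_lit 1) .nil)), (nat_lit 10), (nat_lit 13), (nat_lit 13),
 (nat_lit 1), (2, 17, 16), [284, 729], 14⟩,
  mz,
  mz,
  ⟨⟨33, 32, -28, 2, -15, -46, 36, -12, -11⟩, (.cons (nat_lit 8) (nat_lit 235) (nat_lit 159) (nat_lit 1) (.cons
 (nat_lit 610) (nat_lit 1464) (nat_lit 758) (nat_lit 1) .nil)), (nat_lit 0), (nat_lit 30), (nat_lit 21),
 (nat_lit 1), (34, 19, 41), [262, 1551], 27⟩]

/-- Moves. -/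
noncomputable def t1_2 : List Mv := [
  mz,
  ⟨⟨3, 44, -20, 2, 15, 44, 36, 12, -25⟩, (.cons (nat_lit 276) (nat_lit 193) (nat_lit 1) (nat_lit 190) (.cons
 (nat_lit 1146) (nat_lit 1615) (nat_lit 185) (nat_lit 1) .nil)), (nat_lit 8), (nat_lit 25), (nat_lit 29),
 (nat_lit 1), (36, 24, 2), [118, 60], 14⟩,
  mz,
  mz,
  ⟨⟨19, 36, -36, -20, -13, -30, 34, -8, -35⟩, (.cons (nat_lit 213) (nat_lit 206) (nat_lit 88) (nat_lit 1)
 (.cons (nat_lit 749) (nat_lit 1193) (nat_lit 216) (nat_lit 1) .nil)), (nat_lit 21), (nat_lit 14), (nat_lit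
 26), (nat_lit 1), (14, 26, 16), [332, 1777], 24⟩,
  ⟨⟨3, 44, 17, 2, 15, -46, 36, 12, -11⟩, (.cons (nat_lit 62) (nat_lit 238) (nat_lit 209) (nat_lit 1) (.cons
 (nat_lit 1483) (nat_lit 724) (nat_lit 128) (nat_lit 1) .nil)), (nat_lit 25), (nat_lit 27), (nat_lit 1),
 (nat_lit 1), (33, 22, 9), [203, 588], 24⟩,
  ⟨⟨-37, -24, 0, -20, 37, 0, 2, -8, -43⟩, (.cons (nat_lit 360) (nat_lit 157) (nat_lit 119) (nat_lit 1) (.cons
 (nat_lit 1390) (nat_lit 1579) (nat_lit 547) (nat_lit 1) .nil)), (nat_lit 30), (nat_lit 23), (nat_lit 16),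
 (nat_lit 1), (12, 3, 4), [174, 1160], 5⟩,
  ⟨⟨33, 8, -53, -20, -27, -20, 30, -24, -13⟩, (.cons (nat_lit 253) (nat_lit 109) (nat_lit 292) (nat_lit 1)
 (.cons (nat_lit 1484) (nat_lit 81) (nat_lit 949) (nat_lit 1) .nil)), (nat_lit 7), (nat_lit 22), (nat_lit 30),
 (nat_lit 1), (32, 21, 33), [4, 1425], 24⟩,
  ⟨⟨-39, -16, -4, -20, 37, 20, -2, 8, -41⟩, (.cons (nat_lit 360) (nat_lit 16) (nat_lit 169) (nat_lit 1) (.cons
 (nat_lit 1132) (nat_lit 1489) (nat_lit 378) (nat_lit 1) .nil)), (nat_lit 30), (nat_lit 8), (nat_lit 15),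
 (nat_lit 1), (6, 13, 40), [288, 386], 5⟩,
  ⟨⟨-29, 0, -27, 0, -43, 0, 18, 0, -47⟩, (.cons (nat_lit 59) (nat_lit 50) (nat_lit 246) (nat_lit 1) (.cons (nat_lit 988) (nat_lit 244) (nat_lit 1529) (nat_lit 1) .nil)), (nat_lit 1), (nat_lit 16), (nat_lit 1), (nat_lit 0), (33, 0, 24), [25, 439], 6⟩,
  ⟨⟨21, -20, 31, 38, 15, -34, 12, -36, -13⟩, (.cons (nat_lit 243) (nat_lit 299) (nat_lit 329) (nat_lit 1)
 (.cons (nat_lit 1841) (nat_lit 1697) (nat_lit 681) (nat_lit 1) .nil)), (nat_lit 19), (nat_lit 19), (nat_lit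
 1), (nat_lit 0), (8, 37, 23), [136, 40], 11⟩,
  mz,
  ⟨⟨-15, 44, 16, -20, -13, 50, -34, 8, -1⟩, (.cons (nat_lit 252) (nat_lit 207) (nat_lit 203) (nat_lit 1) (.cons
 (nat_lit 1529) (nat_lit 1492) (nat_lit 1299) (nat_lit 1) .nil)), (nat_lit 3), (nat_lit 23), (nat_lit 9),
 (nat_lit 1), (28, 23, 9), [92, 676], 30⟩,
  ⟨⟨33, 8, 20, 20, 27, -40, 30, -24, -17⟩, (.cons (nat_lit 323) (nat_lit 327) (nat_lit 1) (nat_lit 38) (.cons
 (nat_lit 290) (nat_lit 1037) (nat_lit 879) (nat_lit 1) .nil)), (nat_lit 30), (nat_lit 19), (nat_lit 17),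
 (nat_lit 1), (4, 35, 31), [343, 1525], 13⟩,
  mz,
  mz,
  mz,
  ⟨⟨9, -4, -56, -40, 13, 10, 14, 32, -25⟩, (.cons (nat_lit 328) (nat_lit 168) (nat_lit 212) (nat_lit 1) (.cons
 (nat_lit 536) (nat_lit 1540) (nat_lit 1500) (nat_lit 1) .nil)), (nat_lit 28), (nat_lit 8), (nat_lit 8),
 (nat_lit 1), (19, 35, 20), [260, 1786], 2⟩,
  ⟨⟨-5, -36, 36, 40, -13, -30, -14, -32, -11⟩, (.cons (nat_lit 100) (nat_lit 338) (nat_lit 225) (nat_lit 1)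
 (.cons (nat_lit 1809) (nat_lit 208) (nat_lit 807) (nat_lit 1) .nil)), (nat_lit 3), (nat_lit 20), (nat_lit 15),
 (nat_lit 1), (11, 41, 5), [244, 1486], 30⟩,
  mz,
  mz,
  ⟨⟨21, 20, 31, 38, -15, -34, 12, 36, -13⟩, (.cons (nat_lit 259) (nat_lit 350) (nat_lit 312) (nat_lit 1) (.cons
 (nat_lit 581) (nat_lit 1424) (nat_lit 1449) (nat_lit 1) .nil)), (nat_lit 26), (nat_lit 0), (nat_lit 1),
 (nat_lit 1), (12, 34, 13), [234, 689], 2⟩,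
  ⟨⟨-21, 20, 52, 38, 15, -4, -12, 36, -1⟩, (.cons (nat_lit 19) (nat_lit 32) (nat_lit 17) (nat_lit 1) (.cons
 (nat_lit 59) (nat_lit 1353) (nat_lit 1392) (nat_lit 1) .nil)), (nat_lit 4), (nat_lit 24), (nat_lit 8),
 (nat_lit 1), (12, 9, 13), [168, 814], 7⟩,
  mz,
  mz,
  ⟨⟨5, -36, 31, -40, -13, 10, 14, -32, -25⟩, (.cons (nat_lit 212) (nat_lit 5) (nat_lit 208) (nat_lit 1) (.cons
 (nat_lit 1760) (nat_lit 724) (nat_lit 1472) (nat_lit 1) .nil)), (nat_lit 2), (nat_lit 8), (nat_lit 2),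
 (nat_lit 1), (11, 41, 5), [135, 1056], 18⟩,
  ⟨⟨-5, 36, 36, 40, 13, -30, -14, 32, -11⟩, (.cons (nat_lit 245) (nat_lit 225) (nat_lit 334) (nat_lit 1) (.cons
 (nat_lit 1289) (nat_lit 967) (nat_lit 677) (nat_lit 1) .nil)), (nat_lit 23), (nat_lit 1), (nat_lit 30),
 (nat_lit 1), (1, 35, 20), [288, 1176], 9⟩,
  mz,
  mz,
  mz,
  ⟨⟨33, -8, -53, -20, 27, -20, 30, 24, -13⟩, (.cons (nat_lit 167) (nat_lit 224) (nat_lit 298) (nat_lit 1)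
 (.cons (nat_lit 210) (nat_lit 822) (nat_lit 830) (nat_lit 1) .nil)), (nat_lit 21), (nat_lit 23), (nat_lit 15),
 (nat_lit 1), (39, 35, 12), [297, 231], 18⟩,
  ⟨⟨19, -36, -36, -20, 13, -30, 34, 8, -35⟩, (.cons (nat_lit 347) (nat_lit 268) (nat_lit 81) (nat_lit 1) (.cons
 (nat_lit 732) (nat_lit 1769) (nat_lit 1001) (nat_lit 1) .nil)), (nat_lit 28), (nat_lit 4), (nat_lit 16),
 (nat_lit 1), (24, 20, 9), [222, 1305], 2⟩,
  mz,
  ⟨⟨-21, -20, 52, 38, -15, -4, -12, -36, -1⟩, (.cons (nat_lit 220) (nat_lit 281) (nat_lit 332) (nat_lit 1)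
 (.cons (nat_lit 269) (nat_lit 445) (nat_lit 1731) (nat_lit 1) .nil)), (nat_lit 3), (nat_lit 6), (nat_lit 28),
 (nat_lit 1), (8, 6, 23), [50, 842], 27⟩,
  ⟨⟨-47, 0, 27, 0, -43, 0, -18, 0, -29⟩, (.cons (nat_lit 257) (nat_lit 146) (nat_lit 314) (nat_lit 1) (.cons
 (nat_lit 203) (nat_lit 1746) (nat_lit 787) (nat_lit 1) .nil)), (nat_lit 0), (nat_lit 15), (nat_lit 30),
 (nat_lit 1), (34, 0, 24), [11, 92], 6⟩,
  ⟨⟨-37, 24, 0, -20, -37, 0, 2, 8, -43⟩, (.cons (nat_lit 184) (nat_lit 150) (nat_lit 145) (nat_lit 1) (.cons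
 (nat_lit 1602) (nat_lit 1529) (nat_lit 740) (nat_lit 1) .nil)), (nat_lit 3), (nat_lit 17), (nat_lit 26),
 (nat_lit 1), (34, 30, 40), [290, 119], 29⟩,
  ⟨⟨33, -8, 20, 20, -27, -40, 30, 24, -17⟩, (.cons (nat_lit 44) (nat_lit 250) (nat_lit 23) (nat_lit 1) (.cons
 (nat_lit 1783) (nat_lit 953) (nat_lit 845) (nat_lit 1) .nil)), (nat_lit 12), (nat_lit 22), (nat_lit 7),
 (nat_lit 1), (11, 21, 10), [122, 813], 1⟩,
  ⟨⟨-39, 16, -4, 20, 37, -20, -2, -8, -41⟩, (.cons (nat_lit 360) (nat_lit 342) (nat_lit 353) (nat_lit 1) (.cons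
 (nat_lit 1716) (nat_lit 1629) (nat_lit 1047) (nat_lit 1) .nil)), (nat_lit 30), (nat_lit 26), (nat_lit 18),
 (nat_lit 1), (35, 3, 4), [280, 931], 14⟩,
  ⟨⟨3, -44, -20, -2, 15, -44, 36, -12, -25⟩, (.cons (nat_lit 354) (nat_lit 267) (nat_lit 254) (nat_lit 1)
 (.cons (nat_lit 1151) (nat_lit 538) (nat_lit 1) (nat_lit 989) .nil)), (nat_lit 16), (nat_lit 18), (nat_lit 1),
 (nat_lit 0), (10, 22, 34), [44, 666], 1⟩,
  ⟨⟨-15, -44, 16, 20, -13, -50, -34, -8, -1⟩, (.cons (nat_lit 22) (nat_lit 260) (nat_lit 164) (nat_lit 1)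
 (.cons (nat_lit 752) (nat_lit 324) (nat_lit 608) (nat_lit 1) .nil)), (nat_lit 22), (nat_lit 8), (nat_lit 4),
 (nat_lit 1), (2, 26, 16), [138, 246], 27⟩,
  mz,
  mz,
  ⟨⟨33, 32, -28, 2, -15, -46, 36, -12, -11⟩, (.cons (nat_lit 8) (nat_lit 235) (nat_lit 159) (nat_lit 1) (.cons
 (nat_lit 610) (nat_lit 1464) (nat_lit 758) (nat_lit 1) .nil)), (nat_lit 0), (nat_lit 30), (nat_lit 21),
 (nat_lit 1), (34, 19, 41), [262, 1551], 27⟩]

/-- Moves. -/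
noncomputable def t1_8 : List Mv := [
  mz,
  ⟨⟨3, 44, -20, 2, 15, 44, 36, 12, -25⟩, (.cons (nat_lit 276) (nat_lit 193) (nat_lit 1) (nat_lit 190) (.cons
 (nat_lit 1146) (nat_lit 1615) (nat_lit 185) (nat_lit 1) .nil)), (nat_lit 8), (nat_lit 25), (nat_lit 29),
 (nat_lit 1), (36, 24, 2), [118, 60], 14⟩,
  mz,
  mz,
  ⟨⟨15, -44, 1, -20, -13, -30, 34, -8, -35⟩, (.cons (nat_lit 298) (nat_lit 315) (nat_lit 108) (nat_lit 1)
 (.cons (nat_lit 1100) (nat_lit 785) (nat_lit 732) (nat_lit 1) .nil)), (nat_lit 16), (nat_lit 27), (nat_lit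
 30), (nat_lit 1), (2, 26, 16), [91, 1519], 20⟩,
  ⟨⟨33, -32, -28, -2, -15, 46, 36, 12, -11⟩, (.cons (nat_lit 38) (nat_lit 214) (nat_lit 219) (nat_lit 1) (.cons
 (nat_lit 1475) (nat_lit 632) (nat_lit 255) (nat_lit 1) .nil)), (nat_lit 4), (nat_lit 4), (nat_lit 17),
 (nat_lit 1), (19, 21, 9), [307, 671], 24⟩,
  ⟨⟨-37, -24, 0, -20, 37, 0, 2, -8, -43⟩, (.cons (nat_lit 360) (nat_lit 157) (nat_lit 119) (nat_lit 1) (.cons
 (nat_lit 1390) (nat_lit 1579) (nat_lit 547) (nat_lit 1) .nil)), (nat_lit 30), (nat_lit 23), (nat_lit 16),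
 (nat_lit 1), (12, 3, 4), [174, 1160], 5⟩,
  ⟨⟨33, 8, -53, -20, -27, -20, 30, -24, -13⟩, (.cons (nat_lit 253) (nat_lit 109) (nat_lit 292) (nat_lit 1)
 (.cons (nat_lit 1484) (nat_lit 81) (nat_lit 949) (nat_lit 1) .nil)), (nat_lit 7), (nat_lit 22), (nat_lit 30),
 (nat_lit 1), (32, 21, 33), [4, 1425], 24⟩,
  ⟨⟨-39, -16, -4, -20, 37, 20, -2, 8, -41⟩, (.cons (nat_lit 360) (nat_lit 16) (nat_lit 169) (nat_lit 1) (.cons
 (nat_lit 1132) (nat_lit 1489) (nat_lit 378) (nat_lit 1) .nil)), (nat_lit 30), (nat_lit 8), (nat_lit 15),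
 (nat_lit 1), (6, 13, 40), [288, 386], 5⟩,
  ⟨⟨47, 0, -20, 0, -43, 0, 18, 0, -47⟩, (.cons (nat_lit 360) (nat_lit 321) (nat_lit 68) (nat_lit 1) (.cons
 (nat_lit 1119) (nat_lit 1347) (nat_lit 540) (nat_lit 1) .nil)), (nat_lit 30), (nat_lit 30), (nat_lit 4),
 (nat_lit 1), (34, 0, 24), [314, 396], 5⟩,
  ⟨⟨21, -20, 31, 38, 15, -34, 12, -36, -13⟩, (.cons (nat_lit 243) (nat_lit 299) (nat_lit 329) (nat_lit 1)
 (.cons (nat_lit 1841) (nat_lit 1697) (nat_lit 681) (nat_lit 1) .nil)), (nat_lit 19), (nat_lit 19), (nat_lit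
 1), (nat_lit 0), (8, 37, 23), [136, 40], 11⟩,
  mz,
  ⟨⟨-15, 44, 16, 20, 13, -50, -34, 8, -1⟩, (.cons (nat_lit 74) (nat_lit 191) (nat_lit 252) (nat_lit 1) (.cons
 (nat_lit 1138) (nat_lit 1770) (nat_lit 1523) (nat_lit 1) .nil)), (nat_lit 23), (nat_lit 15), (nat_lit 2),
 (nat_lit 1), (28, 20, 9), [231, 1270], 9⟩,
  ⟨⟨33, 8, 20, -20, -27, 40, 30, -24, -17⟩, (.cons (nat_lit 320) (nat_lit 142) (nat_lit 221) (nat_lit 1) (.cons
 (nat_lit 927) (nat_lit 1375) (nat_lit 230) (nat_lit 1) .nil)), (nat_lit 13), (nat_lit 24), (nat_lit 2),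
 (nat_lit 1), (4, 8, 31), [34, 856], 14⟩,
  mz,
  mz,
  mz,
  ⟨⟨9, -4, -56, 40, -13, -10, 14, 32, -25⟩, (.cons (nat_lit 308) (nat_lit 141) (nat_lit 290) (nat_lit 1) (.cons
 (nat_lit 658) (nat_lit 1296) (nat_lit 148) (nat_lit 1) .nil)), (nat_lit 21), (nat_lit 13), (nat_lit 28),
 (nat_lit 1), (19, 8, 20), [313, 703], 24⟩,
  ⟨⟨-5, -36, 36, -40, 13, 30, -14, -32, -11⟩, (.cons (nat_lit 232) (nat_lit 277) (nat_lit 341) (nat_lit 1)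
 (.cons (nat_lit 128) (nat_lit 1260) (nat_lit 1050) (nat_lit 1) .nil)), (nat_lit 10), (nat_lit 22), (nat_lit
 26), (nat_lit 1), (11, 2, 5), [189, 1012], 14⟩,
  mz,
  mz,
  ⟨⟨-9, 16, -44, 38, -15, -34, 12, 36, -13⟩, (.cons (nat_lit 311) (nat_lit 129) (nat_lit 194) (nat_lit 1)
 (.cons (nat_lit 1483) (nat_lit 1715) (nat_lit 1148) (nat_lit 1) .nil)), (nat_lit 21), (nat_lit 16), (nat_lit
 27), (nat_lit 1), (1, 34, 13), [322, 1], 3⟩,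
  ⟨⟨-21, 20, 52, 38, 15, -4, -12, 36, -1⟩, (.cons (nat_lit 19) (nat_lit 32) (nat_lit 17) (nat_lit 1) (.cons
 (nat_lit 59) (nat_lit 1353) (nat_lit 1392) (nat_lit 1) .nil)), (nat_lit 4), (nat_lit 24), (nat_lit 8),
 (nat_lit 1), (12, 9, 13), [168, 814], 7⟩,
  mz,
  mz,
  ⟨⟨9, 4, -56, 40, 13, -10, 14, -32, -25⟩, (.cons (nat_lit 161) (nat_lit 295) (nat_lit 221) (nat_lit 1) (.cons
 (nat_lit 1461) (nat_lit 632) (nat_lit 1659) (nat_lit 1) .nil)), (nat_lit 27), (nat_lit 29), (nat_lit 8),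
 (nat_lit 1), (37, 2, 5), [205, 1356], 20⟩,
  ⟨⟨-5, 36, 36, 40, 13, -30, -14, 32, -11⟩, (.cons (nat_lit 245) (nat_lit 225) (nat_lit 334) (nat_lit 1) (.cons
 (nat_lit 1289) (nat_lit 967) (nat_lit 677) (nat_lit 1) .nil)), (nat_lit 23), (nat_lit 1), (nat_lit 30),
 (nat_lit 1), (1, 35, 20), [288, 1176], 9⟩,
  mz,
  mz,
  mz,
  ⟨⟨33, -8, -53, -20, 27, -20, 30, 24, -13⟩, (.cons (nat_lit 167) (nat_lit 224) (nat_lit 298) (nat_lit 1)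
 (.cons (nat_lit 210) (nat_lit 822) (nat_lit 830) (nat_lit 1) .nil)), (nat_lit 21), (nat_lit 23), (nat_lit 15),
 (nat_lit 1), (39, 35, 12), [297, 231], 18⟩,
  ⟨⟨19, -36, -36, -20, 13, -30, 34, 8, -35⟩, (.cons (nat_lit 347) (nat_lit 268) (nat_lit 81) (nat_lit 1) (.cons
 (nat_lit 732) (nat_lit 1769) (nat_lit 1001) (nat_lit 1) .nil)), (nat_lit 28), (nat_lit 4), (nat_lit 16),
 (nat_lit 1), (24, 20, 9), [222, 1305], 2⟩,
  mz,
  ⟨⟨-21, -20, 52, -38, 15, 4, -12, -36, -1⟩, (.cons (nat_lit 103) (nat_lit 296) (nat_lit 191) (nat_lit 1)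
 (.cons (nat_lit 1229) (nat_lit 1562) (nat_lit 81) (nat_lit 1) .nil)), (nat_lit 0), (nat_lit 26), (nat_lit 29),
 (nat_lit 1), (8, 37, 23), [23, 439], 4⟩,
  ⟨⟨29, 0, -56, 0, 43, 0, -18, 0, -29⟩, (.cons (nat_lit 360) (nat_lit 226) (nat_lit 30) (nat_lit 1) (.cons
 (nat_lit 1744) (nat_lit 111) (nat_lit 542) (nat_lit 1) .nil)), (nat_lit 30), (nat_lit 1), (nat_lit 0),
 (nat_lit 1), (33, 0, 24), [256, 1099], 12⟩,
  ⟨⟨39, -16, -43, -20, -37, 0, 2, 8, -43⟩, (.cons (nat_lit 171) (nat_lit 297) (nat_lit 341) (nat_lit 1) (.cons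
 (nat_lit 118) (nat_lit 320) (nat_lit 1428) (nat_lit 1) .nil)), (nat_lit 4), (nat_lit 12), (nat_lit 24),
 (nat_lit 1), (6, 30, 40), [326, 1710], 2⟩,
  ⟨⟨-3, 32, -37, 20, -27, -40, 30, 24, -17⟩, (.cons (nat_lit 147) (nat_lit 284) (nat_lit 236) (nat_lit 1)
 (.cons (nat_lit 1356) (nat_lit 509) (nat_lit 200) (nat_lit 1) .nil)), (nat_lit 3), (nat_lit 24), (nat_lit 17),
 (nat_lit 1), (42, 21, 10), [346, 598], 24⟩,
  ⟨⟨-39, 16, -4, 20, 37, -20, -2, -8, -41⟩, (.cons (nat_lit 360) (nat_lit 342) (nat_lit 353) (nat_lit 1) (.cons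
 (nat_lit 1716) (nat_lit 1629) (nat_lit 1047) (nat_lit 1) .nil)), (nat_lit 30), (nat_lit 26), (nat_lit 18),
 (nat_lit 1), (35, 3, 4), [280, 931], 14⟩,
  ⟨⟨3, -44, -20, -2, 15, -44, 36, -12, -25⟩, (.cons (nat_lit 354) (nat_lit 267) (nat_lit 254) (nat_lit 1)
 (.cons (nat_lit 1151) (nat_lit 538) (nat_lit 1) (nat_lit 989) .nil)), (nat_lit 16), (nat_lit 18), (nat_lit 1),
 (nat_lit 0), (10, 22, 34), [44, 666], 1⟩,
  ⟨⟨-15, -44, 16, 20, -13, -50, -34, -8, -1⟩, (.cons (nat_lit 22) (nat_lit 260) (nat_lit 164) (nat_lit 1)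
 (.cons (nat_lit 752) (nat_lit 324) (nat_lit 608) (nat_lit 1) .nil)), (nat_lit 22), (nat_lit 8), (nat_lit 4),
 (nat_lit 1), (2, 26, 16), [138, 246], 27⟩,
  mz,
  mz,
  ⟨⟨33, 32, -28, 2, -15, -46, 36, -12, -11⟩, (.cons (nat_lit 8) (nat_lit 235) (nat_lit 159) (nat_lit 1) (.cons
 (nat_lit 610) (nat_lit 1464) (nat_lit 758) (nat_lit 1) .nil)), (nat_lit 0), (nat_lit 30), (nat_lit 21),
 (nat_lit 1), (34, 19, 41), [262, 1551], 27⟩]

/-- Moves. -/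
noncomputable def t4_1 : List Mv := [
  mz,
  ⟨⟨3, 20, 29, -4, 25, -18, 26, 8, -7⟩, (.cons (nat_lit 58) (nat_lit 222) (nat_lit 38) (nat_lit 1) (.cons
 (nat_lit 1467) (nat_lit 1218) (nat_lit 380) (nat_lit 1) .nil)), (nat_lit 6), (nat_lit 0), (nat_lit 0),
 (nat_lit 0), (26, 17, 29), [159, 548], 0⟩,
  ⟨⟨23, 12, -36, 4, 25, 18, 26, -8, -7⟩, (.cons (nat_lit 41) (nat_lit 315) (nat_lit 357) (nat_lit 1) (.cons (nat_lit 920) (nat_lit 294) (nat_lit 1716) (nat_lit 1) .nil)), (nat_lit 18), (nat_lit 0), (nat_lit 0), (nat_lit 0), (1, 15, 20), [260, 3], 0⟩,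
  mz,
  ⟨⟨27, 16, -28, 4, 15, 28, -6, 24, -11⟩, (.cons (nat_lit 360) (nat_lit 213) (nat_lit 263) (nat_lit 1) (.cons
 (nat_lit 1848) (nat_lit 1239) (nat_lit 1621) (nat_lit 1) .nil)), (nat_lit 4), (nat_lit 0), (nat_lit 0),
 (nat_lit 0), (15, 16, 7), [210, 1492], 0⟩,
  mz,
  ⟨⟨1, -12, 35, -16, -25, -2, 22, -16, -5⟩, (.cons (nat_lit 358) (nat_lit 233) (nat_lit 291) (nat_lit 1) (.cons
 (nat_lit 1013) (nat_lit 183) (nat_lit 1680) (nat_lit 1) .nil)), (nat_lit 2), (nat_lit 0), (nat_lit 0),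
 (nat_lit 0), (1, 15, 22), [117, 925], 0⟩,
  mz,
  ⟨⟨-31, 0, 0, 10, 19, -30, -4, -20, -19⟩, (.cons (nat_lit 360) (nat_lit 63) (nat_lit 312) (nat_lit 1) (.cons (nat_lit 1848) (nat_lit 50) (nat_lit 938) (nat_lit 1) .nil)), (nat_lit 8), (nat_lit 0), (nat_lit 0), (nat_lit 0), (0, 5, 29), [1, 1232], 0⟩,
  mz,
  mz,
  mz,
  mz,
  ⟨⟨-31, 0, 0, 10, -19, -30, -4, 20, -19⟩, (.cons (nat_lit 44) (nat_lit 179) (nat_lit 329) (nat_lit 1) (.cons (nat_lit 528) (nat_lit 457) (nat_lit 1089) (nat_lit 1) .nil)), (nat_lit 8), (nat_lit 0), (nat_lit 0), (nat_lit 0), (0, 3, 5), [124, 80], 0⟩,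
  ⟨⟨27, -16, -28, -4, 15, -28, -6, -24, -11⟩, (.cons (nat_lit 360) (nat_lit 350) (nat_lit 170) (nat_lit 1)
 (.cons (nat_lit 1848) (nat_lit 107) (nat_lit 953) (nat_lit 1) .nil)), (nat_lit 14), (nat_lit 0), (nat_lit 0),
 (nat_lit 0), (28, 28, 11), [182, 1191], 0⟩,
  ⟨⟨23, -12, 13, 4, -25, -22, 26, 8, -19⟩, (.cons (nat_lit 153) (nat_lit 95) (nat_lit 66) (nat_lit 1) (.cons
 (nat_lit 843) (nat_lit 1326) (nat_lit 348) (nat_lit 1) .nil)), (nat_lit 18), (nat_lit 0), (nat_lit 0),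
 (nat_lit 0), (25, 3, 4), [259, 1072], 0⟩,
  mz,
  mz,
  ⟨⟨1, -12, -36, 16, 25, -18, 22, -16, -17⟩, (.cons (nat_lit 310) (nat_lit 126) (nat_lit 1) (nat_lit 114)
 (.cons (nat_lit 1582) (nat_lit 639) (nat_lit 1112) (nat_lit 1) .nil)), (nat_lit 1), (nat_lit 0), (nat_lit 0),
 (nat_lit 0), (21, 26, 28), [331, 497], 0⟩,
  ⟨⟨-9, 8, -31, -10, -29, 0, 20, -4, -31⟩, (.cons (nat_lit 61) (nat_lit 344) (nat_lit 295) (nat_lit 1) (.cons
 (nat_lit 1678) (nat_lit 665) (nat_lit 167) (nat_lit 1) .nil)), (nat_lit 20), (nat_lit 0), (nat_lit 0),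
 (nat_lit 0), (2, 16, 30), [40, 1470], 0⟩,
  ⟨⟨-29, -12, 29, -10, 29, 10, -20, -4, -11⟩, (.cons (nat_lit 77) (nat_lit 292) (nat_lit 1) (nat_lit 152)
 (.cons (nat_lit 1302) (nat_lit 1000) (nat_lit 1004) (nat_lit 1) .nil)), (nat_lit 24), (nat_lit 0), (nat_lit
 0), (nat_lit 0), (6, 1, 2), [353, 1750], 0⟩,
  ⟨⟨33, 8, -16, 4, -15, -32, 6, 24, -17⟩, (.cons (nat_lit 329) (nat_lit 355) (nat_lit 27) (nat_lit 1) (.cons
 (nat_lit 1771) (nat_lit 1413) (nat_lit 1220) (nat_lit 1) .nil)), (nat_lit 27), (nat_lit 0), (nat_lit 0),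
 (nat_lit 0), (1, 2, 3), [59, 1418], 0⟩,
  ⟨⟨9, -8, -40, 10, 29, -10, -20, 4, -11⟩, (.cons (nat_lit 184) (nat_lit 255) (nat_lit 206) (nat_lit 1) (.cons
 (nat_lit 1100) (nat_lit 318) (nat_lit 55) (nat_lit 1) .nil)), (nat_lit 20), (nat_lit 0), (nat_lit 0), (nat_lit
 0), (18, 20, 22), [31, 1464], 0⟩,
  ⟨⟨3, -20, -32, 4, 25, -22, 26, -8, -19⟩, (.cons (nat_lit 188) (nat_lit 64) (nat_lit 26) (nat_lit 1) (.cons
 (nat_lit 1008) (nat_lit 1778) (nat_lit 1047) (nat_lit 1) .nil)), (nat_lit 26), (nat_lit 0), (nat_lit 0),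
 (nat_lit 0), (3, 4, 26), [91, 408], 0⟩,
  ⟨⟨-9, -8, -31, -10, 29, 0, 20, 4, -31⟩, (.cons (nat_lit 152) (nat_lit 240) (nat_lit 75) (nat_lit 1) (.cons
 (nat_lit 1609) (nat_lit 1479) (nat_lit 590) (nat_lit 1) .nil)), (nat_lit 20), (nat_lit 0), (nat_lit 0),
 (nat_lit 0), (24, 6, 19), [125, 1765], 0⟩,
  ⟨⟨-27, -20, 8, -10, 19, -20, 4, -20, -23⟩, (.cons (nat_lit 360) (nat_lit 298) (nat_lit 290) (nat_lit 1)
 (.cons (nat_lit 1848) (nat_lit 1025) (nat_lit 739) (nat_lit 1) .nil)), (nat_lit 25), (nat_lit 0), (nat_lit 0),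
 (nat_lit 0), (16, 22, 16), [291, 544], 0⟩,
  ⟨⟨1, 12, 35, -16, 25, -2, 22, 16, -5⟩, (.cons (nat_lit 145) (nat_lit 93) (nat_lit 27) (nat_lit 1) (.cons
 (nat_lit 1639) (nat_lit 1212) (nat_lit 1740) (nat_lit 1) .nil)), (nat_lit 2), (nat_lit 0), (nat_lit 0),
 (nat_lit 0), (30, 16, 9), [63, 1150], 0⟩,
  ⟨⟨-27, -16, -1, 4, 15, -32, 6, -24, -17⟩, (.cons (nat_lit 193) (nat_lit 12) (nat_lit 168) (nat_lit 1) (.cons
 (nat_lit 388) (nat_lit 881) (nat_lit 1713) (nat_lit 1) .nil)), (nat_lit 14), (nat_lit 0), (nat_lit 0),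
 (nat_lit 0), (15, 15, 7), [164, 589], 0⟩,
  ⟨⟨1, 12, -36, 16, -25, -18, 22, 16, -17⟩, (.cons (nat_lit 270) (nat_lit 319) (nat_lit 270) (nat_lit 1) (.cons
 (nat_lit 189) (nat_lit 1614) (nat_lit 377) (nat_lit 1) .nil)), (nat_lit 1), (nat_lit 0), (nat_lit 0), (nat_lit
 0), (19, 25, 15), [7, 857], 0⟩,
  ⟨⟨31, 0, -31, 10, 19, 20, 4, 20, -23⟩, (.cons (nat_lit 283) (nat_lit 345) (nat_lit 220) (nat_lit 1) (.cons
 (nat_lit 1549) (nat_lit 46) (nat_lit 678) (nat_lit 1) .nil)), (nat_lit 13), (nat_lit 0), (nat_lit 0), (nat_lit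
 0), (0, 11, 23), [154, 1705], 0⟩]

/-- Moves. -/
noncomputable def t4_2 : List Mv := [
  mz,
  ⟨⟨23, -12, -36, -4, 25, -18, 26, 8, -7⟩, (.cons (nat_lit 119) (nat_lit 305) (nat_lit 360) (nat_lit 1) (.cons
 (nat_lit 812) (nat_lit 373) (nat_lit 810) (nat_lit 1) .nil)), (nat_lit 28), (nat_lit 0), (nat_lit 0), (nat_lit
 0), (3, 17, 29), [148, 290], 0⟩,
  ⟨⟨3, -20, 29, -4, -25, -18, 26, -8, -7⟩, (.cons (nat_lit 120) (nat_lit 198) (nat_lit 97) (nat_lit 1) (.cons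
 (nat_lit 1170) (nat_lit 374) (nat_lit 1736) (nat_lit 1) .nil)), (nat_lit 6), (nat_lit 0), (nat_lit 0),
 (nat_lit 0), (19, 16, 20), [13, 320], 0⟩,
  mz,
  ⟨⟨-33, 8, 17, -4, -15, -28, -6, 24, -11⟩, (.cons (nat_lit 48) (nat_lit 269) (nat_lit 185) (nat_lit 1) (.cons
 (nat_lit 465) (nat_lit 1069) (nat_lit 1188) (nat_lit 1) .nil)), (nat_lit 27), (nat_lit 0), (nat_lit 0),
 (nat_lit 0), (23, 15, 7), [118, 601], 0⟩,
  mz,
  ⟨⟨1, -12, 35, 16, 25, 2, 22, -16, -5⟩, (.cons (nat_lit 305) (nat_lit 158) (nat_lit 323) (nat_lit 1) (.cons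
 (nat_lit 1273) (nat_lit 797) (nat_lit 698) (nat_lit 1) .nil)), (nat_lit 1), (nat_lit 0), (nat_lit 0), (nat_lit
 0), (1, 16, 22), [83, 1078], 0⟩,
  mz,
  ⟨⟨-31, 0, 0, -10, -19, 30, -4, -20, -19⟩, (.cons (nat_lit 320) (nat_lit 119) (nat_lit 132) (nat_lit 1) (.cons
 (nat_lit 921) (nat_lit 675) (nat_lit 1038) (nat_lit 1) .nil)), (nat_lit 13), (nat_lit 0), (nat_lit 0),
 (nat_lit 0), (0, 26, 29), [147, 980], 0⟩,
  mz,
  mz,
  mz,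
  mz,
  ⟨⟨-31, 0, 0, 10, -19, -30, -4, 20, -19⟩, (.cons (nat_lit 44) (nat_lit 179) (nat_lit 329) (nat_lit 1) (.cons (nat_lit 528) (nat_lit 457) (nat_lit 1089) (nat_lit 1) .nil)), (nat_lit 8), (nat_lit 0), (nat_lit 0), (nat_lit 0), (0, 3, 5), [124, 80], 0⟩,
  ⟨⟨-33, -8, 17, -4, 15, -28, -6, -24, -11⟩, (.cons (nat_lit 260) (nat_lit 129) (nat_lit 1) (nat_lit 1) (.cons
 (nat_lit 1463) (nat_lit 1699) (nat_lit 1125) (nat_lit 1) .nil)), (nat_lit 27), (nat_lit 0), (nat_lit 0),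
 (nat_lit 0), (14, 28, 11), [90, 1406], 0⟩,
  ⟨⟨3, 20, -32, 4, -25, -22, 26, 8, -19⟩, (.cons (nat_lit 251) (nat_lit 332) (nat_lit 13) (nat_lit 1) (.cons (nat_lit 447) (nat_lit 136) (nat_lit 735) (nat_lit 1) .nil)), (nat_lit 26), (nat_lit 0), (nat_lit 0), (nat_lit 0), (10, 3, 4), [26, 771], 0⟩,
  mz,
  mz,
  ⟨⟨21, -4, 19, -16, -25, 18, 22, -16, -17⟩, (.cons (nat_lit 210) (nat_lit 266) (nat_lit 219) (nat_lit 1)
 (.cons (nat_lit 1123) (nat_lit 1196) (nat_lit 1184) (nat_lit 1) .nil)), (nat_lit 15), (nat_lit 0), (nat_lit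
 0), (nat_lit 0), (7, 5, 28), [221, 656], 0⟩,
  ⟨⟨29, -12, 0, -10, -29, 0, 20, -4, -31⟩, (.cons (nat_lit 360) (nat_lit 214) (nat_lit 100) (nat_lit 1) (.cons
 (nat_lit 1848) (nat_lit 539) (nat_lit 1199) (nat_lit 1) .nil)), (nat_lit 19), (nat_lit 0), (nat_lit 0),
 (nat_lit 0), (28, 16, 30), [87, 1642], 0⟩,
  ⟨⟨9, 8, -40, 10, -29, -10, -20, -4, -11⟩, (.cons (nat_lit 360) (nat_lit 0) (nat_lit 315) (nat_lit 1) (.cons
 (nat_lit 1848) (nat_lit 1611) (nat_lit 1725) (nat_lit 1) .nil)), (nat_lit 20), (nat_lit 0), (nat_lit 0),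
 (nat_lit 0), (27, 30, 2), [330, 352], 0⟩,
  ⟨⟨33, 8, -16, -4, 15, 32, 6, 24, -17⟩, (.cons (nat_lit 360) (nat_lit 221) (nat_lit 278) (nat_lit 1) (.cons
 (nat_lit 1848) (nat_lit 481) (nat_lit 1045) (nat_lit 1) .nil)), (nat_lit 21), (nat_lit 0), (nat_lit 0),
 (nat_lit 0), (1, 29, 3), [334, 503], 0⟩,
  ⟨⟨9, -8, -40, -10, -29, 10, -20, 4, -11⟩, (.cons (nat_lit 360) (nat_lit 244) (nat_lit 74) (nat_lit 1) (.cons
 (nat_lit 1848) (nat_lit 885) (nat_lit 176) (nat_lit 1) .nil)), (nat_lit 22), (nat_lit 0), (nat_lit 0),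
 (nat_lit 0), (18, 11, 22), [144, 997], 0⟩,
  ⟨⟨3, -20, -32, 4, 25, -22, 26, -8, -19⟩, (.cons (nat_lit 188) (nat_lit 64) (nat_lit 26) (nat_lit 1) (.cons
 (nat_lit 1008) (nat_lit 1778) (nat_lit 1047) (nat_lit 1) .nil)), (nat_lit 26), (nat_lit 0), (nat_lit 0),
 (nat_lit 0), (3, 4, 26), [91, 408], 0⟩,
  ⟨⟨-9, -8, -31, -10, 29, 0, 20, 4, -31⟩, (.cons (nat_lit 152) (nat_lit 240) (nat_lit 75) (nat_lit 1) (.cons
 (nat_lit 1609) (nat_lit 1479) (nat_lit 590) (nat_lit 1) .nil)), (nat_lit 20), (nat_lit 0), (nat_lit 0),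
 (nat_lit 0), (24, 6, 19), [125, 1765], 0⟩,
  ⟨⟨-27, -20, 8, -10, 19, -20, 4, -20, -23⟩, (.cons (nat_lit 360) (nat_lit 298) (nat_lit 290) (nat_lit 1)
 (.cons (nat_lit 1848) (nat_lit 1025) (nat_lit 739) (nat_lit 1) .nil)), (nat_lit 25), (nat_lit 0), (nat_lit 0),
 (nat_lit 0), (16, 22, 16), [291, 544], 0⟩,
  ⟨⟨1, 12, 35, -16, 25, -2, 22, 16, -5⟩, (.cons (nat_lit 145) (nat_lit 93) (nat_lit 27) (nat_lit 1) (.cons
 (nat_lit 1639) (nat_lit 1212) (nat_lit 1740) (nat_lit 1) .nil)), (nat_lit 2), (nat_lit 0), (nat_lit 0),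
 (nat_lit 0), (30, 16, 9), [63, 1150], 0⟩,
  ⟨⟨33, -8, -16, 4, 15, -32, 6, -24, -17⟩, (.cons (nat_lit 360) (nat_lit 264) (nat_lit 291) (nat_lit 1) (.cons
 (nat_lit 1848) (nat_lit 925) (nat_lit 1541) (nat_lit 1) .nil)), (nat_lit 27), (nat_lit 0), (nat_lit 0),
 (nat_lit 0), (23, 15, 7), [58, 804], 0⟩,
  ⟨⟨21, 4, 19, -16, 25, 18, 22, 16, -17⟩, (.cons (nat_lit 64) (nat_lit 225) (nat_lit 132) (nat_lit 1) (.cons
 (nat_lit 1400) (nat_lit 1623) (nat_lit 685) (nat_lit 1) .nil)), (nat_lit 15), (nat_lit 0), (nat_lit 0),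
 (nat_lit 0), (27, 6, 15), [332, 21], 0⟩,
  ⟨⟨31, 0, -31, -10, -19, -20, 4, 20, -23⟩, (.cons (nat_lit 253) (nat_lit 292) (nat_lit 191) (nat_lit 1) (.cons
 (nat_lit 461) (nat_lit 672) (nat_lit 1233) (nat_lit 1) .nil)), (nat_lit 8), (nat_lit 0), (nat_lit 0), (nat_lit
 0), (0, 20, 23), [159, 1800], 0⟩]

/-- Moves. -/
noncomputable def t4_8 : List Mv := [
  mz,
  ⟨⟨3, 20, 29, -4, 25, -18, 26, 8, -7⟩, (.cons (nat_lit 58) (nat_lit 222) (nat_lit 38) (nat_lit 1) (.cons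
 (nat_lit 1467) (nat_lit 1218) (nat_lit 380) (nat_lit 1) .nil)), (nat_lit 6), (nat_lit 0), (nat_lit 0),
 (nat_lit 0), (26, 17, 29), [159, 548], 0⟩,
  ⟨⟨3, -20, 29, 4, 25, 18, 26, -8, -7⟩, (.cons (nat_lit 122) (nat_lit 206) (nat_lit 316) (nat_lit 1) (.cons
 (nat_lit 1488) (nat_lit 1168) (nat_lit 1329) (nat_lit 1) .nil)), (nat_lit 26), (nat_lit 0), (nat_lit 0),
 (nat_lit 0), (19, 15, 20), [175, 304], 0⟩,
  mz,
  ⟨⟨27, 16, -28, 4, 15, 28, -6, 24, -11⟩, (.cons (nat_lit 360) (nat_lit 213) (nat_lit 263) (nat_lit 1) (.cons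
 (nat_lit 1848) (nat_lit 1239) (nat_lit 1621) (nat_lit 1) .nil)), (nat_lit 4), (nat_lit 0), (nat_lit 0),
 (nat_lit 0), (15, 16, 7), [210, 1492], 0⟩,
  mz,
  ⟨⟨1, -12, 35, -16, -25, -2, 22, -16, -5⟩, (.cons (nat_lit 358) (nat_lit 233) (nat_lit 291) (nat_lit 1) (.cons
 (nat_lit 1013) (nat_lit 183) (nat_lit 1680) (nat_lit 1) .nil)), (nat_lit 2), (nat_lit 0), (nat_lit 0),
 (nat_lit 0), (1, 15, 22), [117, 925], 0⟩,
  mz,
  ⟨⟨-31, 0, 0, 10, 19, -30, -4, -20, -19⟩, (.cons (nat_lit 360) (nat_lit 63) (nat_lit 312) (nat_lit 1) (.cons (nat_lit 1848) (nat_lit 50) (nat_lit 938) (nat_lit 1) .nil)), (nat_lit 8), (nat_lit 0), (nat_lit 0), (nat_lit 0), (0, 5, 29), [1, 1232], 0⟩,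
  mz,
  mz,
  mz,
  mz,
  ⟨⟨27, 20, -19, -10, 19, 30, -4, 20, -19⟩, (.cons (nat_lit 199) (nat_lit 296) (nat_lit 262) (nat_lit 1) (.cons
 (nat_lit 302) (nat_lit 900) (nat_lit 483) (nat_lit 1) .nil)), (nat_lit 29), (nat_lit 0), (nat_lit 0), (nat_lit
 0), (5, 28, 5), [181, 71], 0⟩,
  ⟨⟨27, -16, -28, -4, 15, -28, -6, -24, -11⟩, (.cons (nat_lit 360) (nat_lit 350) (nat_lit 170) (nat_lit 1)
 (.cons (nat_lit 1848) (nat_lit 107) (nat_lit 953) (nat_lit 1) .nil)), (nat_lit 14), (nat_lit 0), (nat_lit 0),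
 (nat_lit 0), (28, 28, 11), [182, 1191], 0⟩,
  ⟨⟨23, -12, 13, -4, 25, 22, 26, 8, -19⟩, (.cons (nat_lit 220) (nat_lit 318) (nat_lit 201) (nat_lit 1) (.cons
 (nat_lit 1256) (nat_lit 959) (nat_lit 1274) (nat_lit 1) .nil)), (nat_lit 28), (nat_lit 0), (nat_lit 0),
 (nat_lit 0), (25, 28, 4), [329, 1572], 0⟩,
  mz,
  mz,
  ⟨⟨1, -12, -36, -16, -25, 18, 22, -16, -17⟩, (.cons (nat_lit 317) (nat_lit 142) (nat_lit 185) (nat_lit 1)
 (.cons (nat_lit 1027) (nat_lit 1298) (nat_lit 1614) (nat_lit 1) .nil)), (nat_lit 2), (nat_lit 0), (nat_lit 0),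
 (nat_lit 0), (21, 5, 28), [235, 1301], 0⟩,
  ⟨⟨-9, 8, -31, -10, -29, 0, 20, -4, -31⟩, (.cons (nat_lit 61) (nat_lit 344) (nat_lit 295) (nat_lit 1) (.cons
 (nat_lit 1678) (nat_lit 665) (nat_lit 167) (nat_lit 1) .nil)), (nat_lit 20), (nat_lit 0), (nat_lit 0),
 (nat_lit 0), (2, 16, 30), [40, 1470], 0⟩,
  ⟨⟨9, 8, -40, 10, -29, -10, -20, -4, -11⟩, (.cons (nat_lit 360) (nat_lit 0) (nat_lit 315) (nat_lit 1) (.cons
 (nat_lit 1848) (nat_lit 1611) (nat_lit 1725) (nat_lit 1) .nil)), (nat_lit 20), (nat_lit 0), (nat_lit 0),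
 (nat_lit 0), (27, 30, 2), [330, 352], 0⟩,
  ⟨⟨33, 8, -16, -4, 15, 32, 6, 24, -17⟩, (.cons (nat_lit 360) (nat_lit 221) (nat_lit 278) (nat_lit 1) (.cons
 (nat_lit 1848) (nat_lit 481) (nat_lit 1045) (nat_lit 1) .nil)), (nat_lit 21), (nat_lit 0), (nat_lit 0),
 (nat_lit 0), (1, 29, 3), [334, 503], 0⟩,
  ⟨⟨9, -8, -40, -10, -29, 10, -20, 4, -11⟩, (.cons (nat_lit 360) (nat_lit 244) (nat_lit 74) (nat_lit 1) (.cons
 (nat_lit 1848) (nat_lit 885) (nat_lit 176) (nat_lit 1) .nil)), (nat_lit 22), (nat_lit 0), (nat_lit 0),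
 (nat_lit 0), (18, 11, 22), [144, 997], 0⟩,
  ⟨⟨3, -20, -32, 4, 25, -22, 26, -8, -19⟩, (.cons (nat_lit 188) (nat_lit 64) (nat_lit 26) (nat_lit 1) (.cons
 (nat_lit 1008) (nat_lit 1778) (nat_lit 1047) (nat_lit 1) .nil)), (nat_lit 26), (nat_lit 0), (nat_lit 0),
 (nat_lit 0), (3, 4, 26), [91, 408], 0⟩,
  ⟨⟨-9, -8, -31, -10, 29, 0, 20, 4, -31⟩, (.cons (nat_lit 152) (nat_lit 240) (nat_lit 75) (nat_lit 1) (.cons
 (nat_lit 1609) (nat_lit 1479) (nat_lit 590) (nat_lit 1) .nil)), (nat_lit 20), (nat_lit 0), (nat_lit 0),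
 (nat_lit 0), (24, 6, 19), [125, 1765], 0⟩,
  ⟨⟨-27, -20, 8, -10, 19, -20, 4, -20, -23⟩, (.cons (nat_lit 360) (nat_lit 298) (nat_lit 290) (nat_lit 1)
 (.cons (nat_lit 1848) (nat_lit 1025) (nat_lit 739) (nat_lit 1) .nil)), (nat_lit 25), (nat_lit 0), (nat_lit 0),
 (nat_lit 0), (16, 22, 16), [291, 544], 0⟩,
  ⟨⟨1, 12, 35, -16, 25, -2, 22, 16, -5⟩, (.cons (nat_lit 145) (nat_lit 93) (nat_lit 27) (nat_lit 1) (.cons
 (nat_lit 1639) (nat_lit 1212) (nat_lit 1740) (nat_lit 1) .nil)), (nat_lit 2), (nat_lit 0), (nat_lit 0),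
 (nat_lit 0), (30, 16, 9), [63, 1150], 0⟩,
  ⟨⟨-27, -16, -1, -4, -15, 32, 6, -24, -17⟩, (.cons (nat_lit 173) (nat_lit 32) (nat_lit 124) (nat_lit 1) (.cons
 (nat_lit 1177) (nat_lit 956) (nat_lit 1417) (nat_lit 1) .nil)), (nat_lit 4), (nat_lit 0), (nat_lit 0),
 (nat_lit 0), (15, 16, 7), [320, 217], 0⟩,
  ⟨⟨1, 12, -36, 16, -25, -18, 22, 16, -17⟩, (.cons (nat_lit 270) (nat_lit 319) (nat_lit 270) (nat_lit 1) (.cons
 (nat_lit 189) (nat_lit 1614) (nat_lit 377) (nat_lit 1) .nil)), (nat_lit 1), (nat_lit 0), (nat_lit 0), (nat_lit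
 0), (19, 25, 15), [7, 857], 0⟩,
  ⟨⟨31, 0, -31, -10, -19, -20, 4, 20, -23⟩, (.cons (nat_lit 253) (nat_lit 292) (nat_lit 191) (nat_lit 1) (.cons
 (nat_lit 461) (nat_lit 672) (nat_lit 1233) (nat_lit 1) .nil)), (nat_lit 8), (nat_lit 0), (nat_lit 0), (nat_lit
 0), (0, 20, 23), [159, 1800], 0⟩]

/-- All the moves. -/
noncomputable def tabs : List (List (List Mv)) := [[[], t0_1, t0_2, [], [], [], [], [], t0_8], [[], t1_1, t1_2, [], [], [], [], [], t1_8], [], [], [[], t4_1, t4_2, [], [], [], [], [], t4_8]]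

/-- Subtrie. -/
noncomputable def T1 : Tr := (.ev (nat_lit 20) (nat_lit 367804738) (.nd (nat_lit 33) (.br (nat_lit 22) (.br
 (nat_lit 9) (.br (nat_lit 6) (.br (nat_lit 4) (.ch (nat_lit 1) (.ev (nat_lit 52) (nat_lit 33554436) (.ev
 (nat_lit 436) (nat_lit 8192) (.ev (nat_lit 708) (nat_lit 1048576) (.ev (nat_lit 788) (nat_lit 32768) (.ev
 (nat_lit 1524) (nat_lit 134217728) (.nd (nat_lit 1664) (.br (nat_lit 6) (.ch (nat_lit 1) (.ev (nat_lit 1680)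
 (nat_lit 536870928) .dd)) (.br (nat_lit 9) (.ch (nat_lit 6) (.ev (nat_lit 1680) (nat_lit 536870928) .dd)) (.ch
 (nat_lit 9) (.fin (nat_lit 576470098154832458)))))))))))) (.br (nat_lit 5) (.ch (nat_lit 4) (.ev (nat_lit 52)
 (nat_lit 168820756) (.ev (nat_lit 340) (nat_lit 8192) (.ev (nat_lit 980) (nat_lit 536870912) (.ev (nat_lit
 989) (nat_lit 32768) .dd))))) (.ch (nat_lit 5) (.ev (nat_lit 52) (nat_lit 1056772) (.ev (nat_lit 580) (nat_lit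
 16) (.ev (nat_lit 1312) (nat_lit 570458112) (.ev (nat_lit 1325) (nat_lit 134217728) .dd))))))) (.br (nat_lit
 7) (.ch (nat_lit 6) (.ev (nat_lit 52) (nat_lit 536870912) (.ev (nat_lit 288) (nat_lit 168861716) .dd))) (.br
 (nat_lit 8) (.ch (nat_lit 7) (.ev (nat_lit 52) (nat_lit 134217728) (.ev (nat_lit 116) (nat_lit 4) (.ev
 (nat_lit 404) (nat_lit 1048576) (.ev (nat_lit 500) (nat_lit 33554432) (.ev (nat_lit 644) (nat_lit 8192) (.ev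
 (nat_lit 820) (nat_lit 32768) (.nd (nat_lit 1664) (.br (nat_lit 11) (.ch (nat_lit 9) (.fin (nat_lit
 576470098154832458))) (.br (nat_lit 18) (.ch (nat_lit 11) (.ev (nat_lit 1680) (nat_lit 536870912) (.ev
 (nat_lit 1693) (nat_lit 16) .dd))) (.ch (nat_lit 18) (.ev (nat_lit 1680) (nat_lit 536870912) (.ev (nat_lit
 1693) (nat_lit 16) .dd))))))))))))) (.ch (nat_lit 8) (.ev (nat_lit 52) (nat_lit 536870916) (.ev (nat_lit 84)
 (nat_lit 16) (.ev (nat_lit 260) (nat_lit 32768) (.ev (nat_lit 436) (nat_lit 134217728) (.ev (nat_lit 912)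
 (nat_lit 34611200) .dd))))))))) (.br (nat_lit 13) (.br (nat_lit 10) (.ch (nat_lit 9) (.ev (nat_lit 52)
 (nat_lit 40980) (.ev (nat_lit 212) (nat_lit 536870912) (.ev (nat_lit 580) (nat_lit 1048576) (.ev (nat_lit
 1252) (nat_lit 33554432) (.ev (nat_lit 1261) (nat_lit 134217728) .dd)))))) (.br (nat_lit 12) (.ch (nat_lit 10)
 (.ev (nat_lit 52) (nat_lit 40976) (.ev (nat_lit 548) (nat_lit 4) (.ev (nat_lit 868) (nat_lit 536870912) (.ev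
 (nat_lit 1412) (nat_lit 1048576) (.ev (nat_lit 1428) (nat_lit 33554432) (.ev (nat_lit 1437) (nat_lit
 134217728) .dd))))))) (.ch (nat_lit 12) (.ev (nat_lit 52) (nat_lit 671129616) (.ev (nat_lit 148) (nat_lit 4)
 (.ev (nat_lit 260) (nat_lit 33554432) (.ev (nat_lit 269) (nat_lit 1048576) .dd))))))) (.br (nat_lit 18) (.br
 (nat_lit 17) (.ch (nat_lit 13) (.ev (nat_lit 52) (nat_lit 537952276) (.ev (nat_lit 1040) (nat_lit 167780352)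
 .dd))) (.ch (nat_lit 17) (.ev (nat_lit 52) (nat_lit 168828928) (.ev (nat_lit 868) (nat_lit 4) (.ev (nat_lit
 1380) (nat_lit 16) (.ev (nat_lit 1488) (nat_lit 536903680) .dd)))))) (.br (nat_lit 21) (.ch (nat_lit 18) (.ev
 (nat_lit 52) (nat_lit 570433556) (.ev (nat_lit 180) (nat_lit 32768) (.ev (nat_lit 500) (nat_lit 134217728)
 (.ev (nat_lit 509) (nat_lit 1048576) .dd))))) (.ch (nat_lit 21) (.ev (nat_lit 52) (nat_lit 1081348) (.ev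
 (nat_lit 868) (nat_lit 16) (.ev (nat_lit 1412) (nat_lit 536870912) (.ev (nat_lit 1476) (nat_lit 8192) (.nd
 (nat_lit 1664) (.br (nat_lit 7) (.ch (nat_lit 4) (.ev (nat_lit 1680) (nat_lit 167772160) .dd)) (.br (nat_lit
 18) (.ch (nat_lit 7) (.fin (nat_lit 576465700116709958))) (.ch (nat_lit 18) (.ev (nat_lit 1680) (nat_lit
 167772160) .dd)))))))))))))) (.br (nat_lit 34) (.br (nat_lit 30) (.br (nat_lit 25) (.ch (nat_lit 22) (.ev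
 (nat_lit 52) (nat_lit 168853508) (.ev (nat_lit 148) (nat_lit 536870912) (.ev (nat_lit 1220) (nat_lit 16) (.ev
 (nat_lit 1229) (nat_lit 8192) .dd))))) (.br (nat_lit 26) (.ch (nat_lit 25) (.ev (nat_lit 52) (nat_lit
 672178176) (.ev (nat_lit 340) (nat_lit 33554432) (.ev (nat_lit 980) (nat_lit 4) (.ev (nat_lit 989) (nat_lit
 16) .dd))))) (.ch (nat_lit 26) (.ev (nat_lit 52) (nat_lit 571473936) (.ev (nat_lit 260) (nat_lit 8192) (.ev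
 (nat_lit 340) (nat_lit 134217728) (.ev (nat_lit 500) (nat_lit 32768) (.ev (nat_lit 509) (nat_lit 4)
 .dd)))))))) (.br (nat_lit 31) (.ch (nat_lit 30) (.ev (nat_lit 52) (nat_lit 1089556) (.ev (nat_lit 372)
 (nat_lit 536870912) (.nd (nat_lit 1664) (.br (nat_lit 7) (.ch (nat_lit 6) (.ev (nat_lit 1680) (nat_lit
 33554432) (.ev (nat_lit 1693) (nat_lit 134217728) .dd))) (.br (nat_lit 11) (.ch (nat_lit 7) (.fin (nat_lit
 576465700116709958))) (.ch (nat_lit 11) (.ev (nat_lit 1680) (nat_lit 33554432) (.ev (nat_lit 1693) (nat_lit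
 134217728) .dd))))))))) (.br (nat_lit 33) (.ch (nat_lit 31) (.ev (nat_lit 52) (nat_lit 537927684) (.ev
 (nat_lit 180) (nat_lit 134217728) (.ev (nat_lit 404) (nat_lit 16) (.ev (nat_lit 820) (nat_lit 33554432) (.ev
 (nat_lit 829) (nat_lit 32768) .dd)))))) (.ch (nat_lit 33) (.ev (nat_lit 52) (nat_lit 536870916) (.ev (nat_lit
 448) (nat_lit 168861712) .dd)))))) (.br (nat_lit 37) (.br (nat_lit 35) (.ch (nat_lit 34) (.ev (nat_lit 52)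
 (nat_lit 705724420) (.ev (nat_lit 212) (nat_lit 16) (.ev (nat_lit 221) (nat_lit 8192) .dd)))) (.br (nat_lit
 36) (.ch (nat_lit 35) (.ev (nat_lit 52) (nat_lit 33595408) (.ev (nat_lit 736) (nat_lit 672137220) .dd))) (.ch
 (nat_lit 36) (.ev (nat_lit 52) (nat_lit 168820736) (.ev (nat_lit 84) (nat_lit 536870912) (.ev (nat_lit 116)
 (nat_lit 16) (.ev (nat_lit 1028) (nat_lit 32768) (.ev (nat_lit 1606) (nat_lit 8196) .dd)))))))) (.br (nat_lit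
 39) (.br (nat_lit 38) (.ch (nat_lit 37) (.ev (nat_lit 52) (nat_lit 167780352) (.ev (nat_lit 84) (nat_lit
 1048576) (.ev (nat_lit 116) (nat_lit 536870912) (.ev (nat_lit 436) (nat_lit 32768) (.ev (nat_lit 708) (nat_lit
 16) (.ev (nat_lit 717) (nat_lit 4) .dd))))))) (.ch (nat_lit 38) (.ev (nat_lit 52) (nat_lit 536903696) (.ev
 (nat_lit 260) (nat_lit 134217728) (.ev (nat_lit 612) (nat_lit 4) (.ev (nat_lit 788) (nat_lit 33554432) (.ev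
 (nat_lit 1092) (nat_lit 8192) (.ev (nat_lit 1101) (nat_lit 1048576) .dd)))))))) (.br (nat_lit 42) (.ch
 (nat_lit 39) (.ev (nat_lit 52) (nat_lit 33587200) (.ev (nat_lit 180) (nat_lit 8192) (.ev (nat_lit 708)
 (nat_lit 4) (.ev (nat_lit 980) (nat_lit 16) (.ev (nat_lit 1380) (nat_lit 1048576) (.ev (nat_lit 1556) (nat_lit
 134217728) (.ev (nat_lit 1565) (nat_lit 536870912) .dd)))))))) (.ch (nat_lit 42) (.ev (nat_lit 52) (nat_lit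
 135299072) (.ev (nat_lit 656) (nat_lit 570433556) .dd))))))))))

/-- Subtrie. -/
noncomputable def T2 : Tr := (.ev (nat_lit 20) (nat_lit 697344004) (.nd (nat_lit 33) (.br (nat_lit 22) (.br
 (nat_lit 9) (.br (nat_lit 6) (.br (nat_lit 4) (.ch (nat_lit 1) (.ev (nat_lit 52) (nat_lit 302792768) (.ev
 (nat_lit 212) (nat_lit 2) (.ev (nat_lit 580) (nat_lit 67108864) (.ev (nat_lit 1060) (nat_lit 256) (.ev
 (nat_lit 1524) (nat_lit 16) (.nd (nat_lit 1664) (.br (nat_lit 6) (.ch (nat_lit 0) (.fin (nat_lit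
 576464600600887876))) (.br (nat_lit 16) (.ch (nat_lit 6) (.ev (nat_lit 1680) (nat_lit 6291456) .dd)) (.ch
 (nat_lit 16) (.ev (nat_lit 1680) (nat_lit 6291456) .dd))))))))))) (.br (nat_lit 5) (.ch (nat_lit 4) (.ev
 (nat_lit 52) (nat_lit 105120018) (.ev (nat_lit 500) (nat_lit 524288) (.ev (nat_lit 756) (nat_lit 16384) (.ev
 (nat_lit 1280) (nat_lit 270532672) .dd))))) (.ch (nat_lit 5) (.ev (nat_lit 52) (nat_lit 73662528) (.ev
 (nat_lit 148) (nat_lit 268435456) (.ev (nat_lit 260) (nat_lit 524288) (.ev (nat_lit 308) (nat_lit 33554432)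
 (.ev (nat_lit 468) (nat_lit 16640) (.ev (nat_lit 1140) (nat_lit 2) (.ev (nat_lit 1149) (nat_lit 16)
 .dd)))))))))) (.br (nat_lit 7) (.ch (nat_lit 6) (.ev (nat_lit 52) (nat_lit 268714304) (.ev (nat_lit 84)
 (nat_lit 67108880) (.ev (nat_lit 548) (nat_lit 4194304) (.ev (nat_lit 612) (nat_lit 2097152) (.ev (nat_lit
 644) (nat_lit 524288) (.ev (nat_lit 1332) (nat_lit 33554432) (.ev (nat_lit 1341) (nat_lit 2) .dd)))))))) (.br
 (nat_lit 8) (.ch (nat_lit 7) (.ev (nat_lit 52) (nat_lit 71844162) (.ev (nat_lit 548) (nat_lit 16) (.ev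
 (nat_lit 676) (nat_lit 33554432) (.ev (nat_lit 1008) (nat_lit 270794752) .dd))))) (.ch (nat_lit 8) (.ev
 (nat_lit 52) (nat_lit 69468480) (.ev (nat_lit 148) (nat_lit 2) (.ev (nat_lit 404) (nat_lit 272629760) (.ev
 (nat_lit 1060) (nat_lit 33554432) (.ev (nat_lit 1092) (nat_lit 524288) (.ev (nat_lit 1536) (nat_lit 16384)
 (.ev (nat_lit 1549) (nat_lit 16) .dd))))))))))) (.br (nat_lit 13) (.br (nat_lit 10) (.ch (nat_lit 9) (.ev
 (nat_lit 52) (nat_lit 540946) (.ev (nat_lit 116) (nat_lit 268435456) (.ev (nat_lit 148) (nat_lit 4194304) (.ev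
 (nat_lit 580) (nat_lit 64) (.ev (nat_lit 800) (nat_lit 103022592) .dd)))))) (.br (nat_lit 12) (.ch (nat_lit
 10) (.ev (nat_lit 52) (nat_lit 71303250) (.ev (nat_lit 240) (nat_lit 304890112) .dd))) (.ch (nat_lit 12) (.ev
 (nat_lit 52) (nat_lit 268959824) (.ev (nat_lit 84) (nat_lit 2097152) (.ev (nat_lit 212) (nat_lit 67108864)
 (.ev (nat_lit 228) (nat_lit 256) (.ev (nat_lit 372) (nat_lit 4194304) (.ev (nat_lit 1268) (nat_lit 16384) (.ev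
 (nat_lit 1332) (nat_lit 262144) (.ev (nat_lit 1412) (nat_lit 2) (.ev (nat_lit 1421) (nat_lit 33554432)
 .dd)))))))))))) (.br (nat_lit 18) (.br (nat_lit 17) (.ch (nat_lit 13) (.ev (nat_lit 52) (nat_lit 275513360)
 (.ev (nat_lit 548) (nat_lit 64) (.ev (nat_lit 932) (nat_lit 33554432) (.ev (nat_lit 1060) (nat_lit 16384) (.ev
 (nat_lit 1140) (nat_lit 67108864) (.ev (nat_lit 1620) (nat_lit 256) (.ev (nat_lit 1629) (nat_lit 2)
 .dd)))))))) (.ch (nat_lit 17) (.ev (nat_lit 52) (nat_lit 40632576) (.ev (nat_lit 580) (nat_lit 268435456) (.ev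
 (nat_lit 612) (nat_lit 67108864) (.ev (nat_lit 980) (nat_lit 2) (.ev (nat_lit 1444) (nat_lit 16384) (.ev
 (nat_lit 1572) (nat_lit 64) (.ev (nat_lit 1581) (nat_lit 16) .dd))))))))) (.br (nat_lit 21) (.ch (nat_lit 18)
 (.ev (nat_lit 52) (nat_lit 38289488) (.ev (nat_lit 148) (nat_lit 67108864) (.ev (nat_lit 308) (nat_lit 262144)
 (.ev (nat_lit 580) (nat_lit 2) (.ev (nat_lit 708) (nat_lit 268435456) (.ev (nat_lit 1456) (nat_lit 2097408)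
 .dd))))))) (.ch (nat_lit 21) (.ev (nat_lit 52) (nat_lit 67649856) (.ev (nat_lit 116) (nat_lit 2) (.ev (nat_lit
 212) (nat_lit 4194304) (.ev (nat_lit 372) (nat_lit 16) (.ev (nat_lit 768) (nat_lit 304349184) .dd))))))))))
 (.br (nat_lit 34) (.br (nat_lit 30) (.br (nat_lit 25) (.ch (nat_lit 22) (.ev (nat_lit 52) (nat_lit 302776322)
 (.ev (nat_lit 84) (nat_lit 64) (.ev (nat_lit 148) (nat_lit 16) (.ev (nat_lit 676) (nat_lit 256) (.ev (nat_lit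
 868) (nat_lit 67108864) (.ev (nat_lit 1332) (nat_lit 16384) (.nd (nat_lit 1664) (.br (nat_lit 5) (.ch (nat_lit
 0) (.fin (nat_lit 576464600600887876))) (.br (nat_lit 7) (.ch (nat_lit 5) (.ev (nat_lit 1680) (nat_lit
 6291456) .dd)) (.ch (nat_lit 7) (.ev (nat_lit 1680) (nat_lit 6291456) .dd)))))))))))) (.br (nat_lit 26) (.ch
 (nat_lit 25) (.ev (nat_lit 52) (nat_lit 274727168) (.ev (nat_lit 180) (nat_lit 524288) (.ev (nat_lit 212)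
 (nat_lit 64) (.ev (nat_lit 404) (nat_lit 67108864) (.ev (nat_lit 468) (nat_lit 33554432) (.ev (nat_lit 1140)
 (nat_lit 16) (.ev (nat_lit 1380) (nat_lit 2) (.ev (nat_lit 1508) (nat_lit 262144) (.ev (nat_lit 1517) (nat_lit
 16384) .dd)))))))))) (.ch (nat_lit 26) (.ev (nat_lit 52) (nat_lit 101204242) (.ev (nat_lit 84) (nat_lit
 268435456) (.ev (nat_lit 372) (nat_lit 2097152) (.ev (nat_lit 836) (nat_lit 262144) (.ev (nat_lit 1172)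
 (nat_lit 64) (.ev (nat_lit 1181) (nat_lit 4194304) .dd))))))))) (.br (nat_lit 31) (.ch (nat_lit 30) (.ev
 (nat_lit 52) (nat_lit 69730384) (.ev (nat_lit 84) (nat_lit 4194304) (.ev (nat_lit 308) (nat_lit 256) (.ev
 (nat_lit 468) (nat_lit 262144) (.ev (nat_lit 548) (nat_lit 2) (.ev (nat_lit 1648) (nat_lit 268435456) (.nd
 (nat_lit 1664) (.br (nat_lit 10) (.ch (nat_lit 5) (.ev (nat_lit 1680) (nat_lit 33554432) (.ev (nat_lit 1693)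
 (nat_lit 16384) .dd))) (.br (nat_lit 11) (.ch (nat_lit 10) (.fin (nat_lit 576470098152735306))) (.ch (nat_lit
 11) (.ev (nat_lit 1680) (nat_lit 33554432) (.ev (nat_lit 1693) (nat_lit 16384) .dd))))))))))))) (.br (nat_lit
 33) (.ch (nat_lit 31) (.ev (nat_lit 52) (nat_lit 274743362) (.ev (nat_lit 340) (nat_lit 524288) (.ev (nat_lit
 372) (nat_lit 67108864) (.ev (nat_lit 948) (nat_lit 16) (.ev (nat_lit 996) (nat_lit 262144) (.ev (nat_lit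
 1236) (nat_lit 256) (.ev (nat_lit 1245) (nat_lit 33554432) .dd)))))))) (.ch (nat_lit 33) (.ev (nat_lit 52)
 (nat_lit 274989058) (.ev (nat_lit 320) (nat_lit 101204304) .dd)))))) (.br (nat_lit 37) (.br (nat_lit 35) (.ch
 (nat_lit 34) (.ev (nat_lit 52) (nat_lit 39845890) (.ev (nat_lit 160) (nat_lit 336347472) .dd))) (.br (nat_lit
 36) (.ch (nat_lit 35) (.ev (nat_lit 52) (nat_lit 369360912) (.ev (nat_lit 308) (nat_lit 16384) (.ev (nat_lit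
 404) (nat_lit 2097152) (.ev (nat_lit 624) (nat_lit 4718914) .dd))))) (.ch (nat_lit 36) (.ev (nat_lit 52)
 (nat_lit 306462722) (.ev (nat_lit 116) (nat_lit 69206016) (.ev (nat_lit 1072) (nat_lit 524624) .dd)))))) (.br
 (nat_lit 39) (.br (nat_lit 38) (.ch (nat_lit 37) (.ev (nat_lit 52) (nat_lit 369098818) (.ev (nat_lit 212)
 (nat_lit 16) (.ev (nat_lit 416) (nat_lit 7094528) .dd)))) (.ch (nat_lit 38) (.ev (nat_lit 52) (nat_lit
 336330770) (.ev (nat_lit 148) (nat_lit 2097152) (.ev (nat_lit 612) (nat_lit 4194304) (.ev (nat_lit 932)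
 (nat_lit 256) (.ev (nat_lit 1220) (nat_lit 64) (.nd (nat_lit 1664) (.br (nat_lit 10) (.ch (nat_lit 7) (.ev
 (nat_lit 1680) (nat_lit 33570816) .dd)) (.br (nat_lit 16) (.ch (nat_lit 10) (.fin (nat_lit
 576470098152735306))) (.ch (nat_lit 16) (.ev (nat_lit 1680) (nat_lit 33570816) .dd)))))))))))) (.br (nat_lit
 42) (.ch (nat_lit 39) (.ev (nat_lit 52) (nat_lit 103563520) (.ev (nat_lit 612) (nat_lit 64) (.ev (nat_lit 880)
 (nat_lit 272629778) .dd)))) (.ch (nat_lit 42) (.ev (nat_lit 52) (nat_lit 339738946) (.ev (nat_lit 480)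
 (nat_lit 36454416) .dd))))))))))

/-- Subtrie. -/
noncomputable def T8 : Tr := (.ev (nat_lit 20) (nat_lit 613957952) (.nd (nat_lit 33) (.br (nat_lit 22) (.br
 (nat_lit 9) (.br (nat_lit 6) (.br (nat_lit 4) (.ch (nat_lit 1) (.ev (nat_lit 52) (nat_lit 319029252) (.ev
 (nat_lit 260) (nat_lit 32768) (.ev (nat_lit 468) (nat_lit 16) (.ev (nat_lit 756) (nat_lit 8192) (.ev (nat_lit
 1300) (nat_lit 2) (.ev (nat_lit 1588) (nat_lit 134217728) (.nd (nat_lit 1664) (.br (nat_lit 4) (.ch (nat_lit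
 3) (.ev (nat_lit 1680) (nat_lit 6291456) .dd)) (.br (nat_lit 14) (.ch (nat_lit 4) (.fin (nat_lit
 576464600600887876))) (.ch (nat_lit 14) (.ev (nat_lit 1680) (nat_lit 6291456) .dd)))))))))))) (.br (nat_lit 5)
 (.ch (nat_lit 4) (.ev (nat_lit 52) (nat_lit 172228630) (.ev (nat_lit 820) (nat_lit 2097152) (.ev (nat_lit
 1300) (nat_lit 32768) (.ev (nat_lit 1392) (nat_lit 285212672) (.ev (nat_lit 1405) (nat_lit 8192) .dd))))))
 (.ch (nat_lit 5) (.ev (nat_lit 52) (nat_lit 6561796) (.ev (nat_lit 84) (nat_lit 33554432) (.ev (nat_lit 340)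
 (nat_lit 134217730) (.ev (nat_lit 900) (nat_lit 32768) (.ev (nat_lit 1360) (nat_lit 285212672) (.ev (nat_lit
 1373) (nat_lit 16) .dd))))))))) (.br (nat_lit 7) (.ch (nat_lit 6) (.ev (nat_lit 52) (nat_lit 268697600) (.ev
 (nat_lit 64) (nat_lit 190881814) .dd))) (.br (nat_lit 8) (.ch (nat_lit 7) (.ev (nat_lit 52) (nat_lit
 155189250) (.ev (nat_lit 96) (nat_lit 304390164) .dd))) (.ch (nat_lit 8) (.ev (nat_lit 52) (nat_lit 2359300)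
 (.ev (nat_lit 308) (nat_lit 16777232) (.ev (nat_lit 436) (nat_lit 4194304) (.ev (nat_lit 644) (nat_lit
 268435456) (.ev (nat_lit 676) (nat_lit 8192) (.ev (nat_lit 788) (nat_lit 32768) (.ev (nat_lit 1348) (nat_lit
 33554432) (.ev (nat_lit 1556) (nat_lit 134217728) (.ev (nat_lit 1565) (nat_lit 2) .dd))))))))))))) (.br
 (nat_lit 13) (.br (nat_lit 10) (.ch (nat_lit 9) (.ev (nat_lit 52) (nat_lit 16818198) (.ev (nat_lit 708)
 (nat_lit 33554432) (.ev (nat_lit 900) (nat_lit 134217728) (.ev (nat_lit 1188) (nat_lit 4194304) (.ev (nat_lit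
 1300) (nat_lit 2097152) (.ev (nat_lit 1620) (nat_lit 262144) (.ev (nat_lit 1629) (nat_lit 268435456)
 .dd)))))))) (.br (nat_lit 12) (.ch (nat_lit 10) (.ev (nat_lit 52) (nat_lit 21012498) (.ev (nat_lit 500)
 (nat_lit 2097152) (.ev (nat_lit 612) (nat_lit 33554432) (.ev (nat_lit 756) (nat_lit 262144) (.ev (nat_lit
 1120) (nat_lit 402653188) .dd)))))) (.ch (nat_lit 12) (.ev (nat_lit 52) (nat_lit 419471376) (.ev (nat_lit 592)
 (nat_lit 40108038) .dd))))) (.br (nat_lit 18) (.br (nat_lit 17) (.ch (nat_lit 13) (.ev (nat_lit 52) (nat_lit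
 275021844) (.ev (nat_lit 180) (nat_lit 2) (.ev (nat_lit 756) (nat_lit 16777216) (.ev (nat_lit 1092) (nat_lit
 134217728) (.ev (nat_lit 1332) (nat_lit 8192) (.ev (nat_lit 1341) (nat_lit 33554432) .dd))))))) (.ch (nat_lit
 17) (.ev (nat_lit 52) (nat_lit 174333952) (.ev (nat_lit 560) (nat_lit 285245462) .dd)))) (.br (nat_lit 21)
 (.ch (nat_lit 18) (.ev (nat_lit 52) (nat_lit 54534164) (.ev (nat_lit 180) (nat_lit 32768) (.ev (nat_lit 724)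
 (nat_lit 262144) (.ev (nat_lit 788) (nat_lit 2097152) (.ev (nat_lit 900) (nat_lit 268435456) (.ev (nat_lit
 1156) (nat_lit 134217728) (.ev (nat_lit 1165) (nat_lit 2) .dd)))))))) (.ch (nat_lit 21) (.ev (nat_lit 52)
 (nat_lit 32772) (.ev (nat_lit 372) (nat_lit 33554432) (.ev (nat_lit 676) (nat_lit 262160) (.ev (nat_lit 900)
 (nat_lit 4194304) (.ev (nat_lit 1092) (nat_lit 2) (.ev (nat_lit 1108) (nat_lit 16777216) (.ev (nat_lit 1348)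
 (nat_lit 268435456) (.ev (nat_lit 1476) (nat_lit 2097152) (.ev (nat_lit 1508) (nat_lit 8192) (.ev (nat_lit
 1517) (nat_lit 134217728) .dd))))))))))))))) (.br (nat_lit 34) (.br (nat_lit 30) (.br (nat_lit 25) (.ch
 (nat_lit 22) (.ev (nat_lit 52) (nat_lit 436502534) (.ev (nat_lit 276) (nat_lit 16777216) (.ev (nat_lit 996)
 (nat_lit 16) (.ev (nat_lit 1572) (nat_lit 8192) (.nd (nat_lit 1664) (.br (nat_lit 16) (.ch (nat_lit 4) (.fin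
 (nat_lit 576464600600887876))) (.br (nat_lit 18) (.ch (nat_lit 16) (.ev (nat_lit 1680) (nat_lit 6291456) .dd))
 (.ch (nat_lit 18) (.ev (nat_lit 1680) (nat_lit 6291456) .dd)))))))))) (.br (nat_lit 26) (.ch (nat_lit 25) (.ev
 (nat_lit 52) (nat_lit 425762816) (.ev (nat_lit 516) (nat_lit 262144) (.ev (nat_lit 820) (nat_lit 4) (.ev
 (nat_lit 1200) (nat_lit 33554450) .dd))))) (.ch (nat_lit 26) (.ev (nat_lit 52) (nat_lit 50331666) (.ev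
 (nat_lit 128) (nat_lit 409247748) .dd))))) (.br (nat_lit 31) (.ch (nat_lit 30) (.ev (nat_lit 52) (nat_lit
 18915348) (.ev (nat_lit 528) (nat_lit 440664066) .dd))) (.br (nat_lit 33) (.ch (nat_lit 31) (.ev (nat_lit 52)
 (nat_lit 274735110) (.ev (nat_lit 180) (nat_lit 134217728) (.ev (nat_lit 688) (nat_lit 50626576) .dd)))) (.ch
 (nat_lit 33) (.ev (nat_lit 52) (nat_lit 291766278) (.ev (nat_lit 500) (nat_lit 134217728) (.ev (nat_lit 1028)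
 (nat_lit 32768) (.ev (nat_lit 1220) (nat_lit 33554432) (.nd (nat_lit 1664) (.br (nat_lit 13) (.ch (nat_lit 3)
 (.ev (nat_lit 1680) (nat_lit 8208) .dd)) (.br (nat_lit 18) (.ch (nat_lit 13) (.fin (nat_lit
 576465700097835582))) (.ch (nat_lit 18) (.ev (nat_lit 1680) (nat_lit 8208) .dd))))))))))))) (.br (nat_lit 37)
 (.br (nat_lit 35) (.ch (nat_lit 34) (.ev (nat_lit 52) (nat_lit 174096390) (.ev (nat_lit 516) (nat_lit
 16777216) (.ev (nat_lit 960) (nat_lit 268705808) .dd)))) (.br (nat_lit 36) (.ch (nat_lit 35) (.ev (nat_lit 52)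
 (nat_lit 302293008) (.ev (nat_lit 340) (nat_lit 4) (.ev (nat_lit 436) (nat_lit 2097152) (.ev (nat_lit 644)
 (nat_lit 4194306) (.ev (nat_lit 932) (nat_lit 16777216) (.ev (nat_lit 941) (nat_lit 134217728) .dd))))))) (.ch
 (nat_lit 36) (.ev (nat_lit 52) (nat_lit 457441282) (.ev (nat_lit 180) (nat_lit 4) (.ev (nat_lit 1028) (nat_lit
 2097152) (.ev (nat_lit 1632) (nat_lit 32768) (.nd (nat_lit 1664) (.br (nat_lit 13) (.ch (nat_lit 9) (.ev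
 (nat_lit 1680) (nat_lit 8192) (.ev (nat_lit 1693) (nat_lit 16) .dd))) (.br (nat_lit 14) (.ch (nat_lit 13)
 (.fin (nat_lit 576465700097835582))) (.ch (nat_lit 14) (.ev (nat_lit 1680) (nat_lit 8192) (.ev (nat_lit 1693)
 (nat_lit 16) .dd))))))))))))) (.br (nat_lit 39) (.br (nat_lit 38) (.ch (nat_lit 37) (.ev (nat_lit 52) (nat_lit
 436215810) (.ev (nat_lit 308) (nat_lit 262144) (.ev (nat_lit 384) (nat_lit 23101460) .dd)))) (.ch (nat_lit 38)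
 (.ev (nat_lit 52) (nat_lit 285507602) (.ev (nat_lit 352) (nat_lit 174071812) .dd)))) (.br (nat_lit 42) (.ch
 (nat_lit 39) (.ev (nat_lit 52) (nat_lit 52723712) (.ev (nat_lit 192) (nat_lit 406855702) .dd))) (.ch (nat_lit
 42) (.ev (nat_lit 52) (nat_lit 406880258) (.ev (nat_lit 116) (nat_lit 33554432) (.ev (nat_lit 260) (nat_lit
 2097152) (.ev (nat_lit 468) (nat_lit 16777216) (.ev (nat_lit 848) (nat_lit 270356) .dd)))))))))))))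

/-- The trie. -/
noncomputable def T : Tr := .nd (nat_lit 1000000) (.br (nat_lit 7) (.br (nat_lit 2) (.br (nat_lit 1) (.ch
 (nat_lit 0) (.ev (nat_lit 0) (nat_lit 2147483647) .dd)) (.ch (nat_lit 1) T1)) (.br (nat_lit 3) (.ch (nat_lit
 2) T2) (.br (nat_lit 4) (.ch (nat_lit 3) (.ev (nat_lit 0) (nat_lit 2147483647) .dd)) (.ch (nat_lit 4) (.ev
 (nat_lit 0) (nat_lit 2147483647) .dd))))) (.br (nat_lit 9) (.br (nat_lit 8) (.ch (nat_lit 7) (.ev (nat_lit 0)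
 (nat_lit 2147483647) .dd)) (.ch (nat_lit 8) T8)) (.br (nat_lit 14) (.ch (nat_lit 9) (.ev (nat_lit 0) (nat_lit
 2147483647) .dd)) (.br (nat_lit 18) (.ch (nat_lit 14) (.ev (nat_lit 0) (nat_lit 2147483647) .dd)) (.ch
 (nat_lit 18) (.ev (nat_lit 0) (nat_lit 2147483647) .dd))))))

/-- The possible values. -/
noncomputable def oks : List ℕ := [85, 234]

/-- The parameters. -/
noncomputable def S : Pr := ⟨fun i l e => lget mz (lget [] (lget [] tabs i) l) e, oks, [(nat_lit 0), (nat_lit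
 1), (nat_lit 0)], T, (nat_lit 2147483647), (nat_lit 1073946281), (nat_lit 31), [(nat_lit 279193), (nat_lit
 3303796230157)], [(nat_lit 361), (nat_lit 1849)]⟩

/-- Nothing known. -/
noncomputable def cs0 : Cs := (.cons (nat_lit 19) (nat_lit 0) (nat_lit 1) (.cons (nat_lit 43) (nat_lit 0) (nat_lit 1) .nil))

theorem part_1 : part S cs0 (nat_lit 1) = true := by decide +kernel

theorem part_2 : part S cs0 (nat_lit 2) = true := by decide +kernel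

theorem part_8 : part S cs0 (nat_lit 8) = true := by decide +kernel

/-- Data of a prime. -/
noncomputable def D0 : PD := ⟨(nat_lit 19), (nat_lit 2), (210, 3, 5), (67, 193, 280), (183, 17, 194)⟩

theorem D0_ok : D0.Ok := pdb_sound (s := 9) (C := ⟨⟨21, 6, -28, 11, 14, 17, -4, 7, -1⟩, (2, 11, 15)⟩) (by show Nat.Prime 19; norm_num) (by decide +kernel)

/-- Lines of the first type. -/
noncomputable def Cl0 : List C1 := [⟨⟨11, 14, -28, 21, 6, 7, 4, -7, -5⟩, (12, 16, 13)⟩,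
  ⟨⟨0, 0, 0, 0, 0, 0, 0, 0, 0⟩, (0, 0, 0)⟩,
  ⟨⟨0, 0, 0, 0, 0, 0, 0, 0, 0⟩, (0, 0, 0)⟩,
  ⟨⟨9, 6, -32, 1, 26, 7, 8, -1, -1⟩, (8, 3, 5)⟩,
  ⟨⟨-9, -6, -23, -1, -26, 8, 8, -1, -7⟩, (13, 12, 18)⟩,
  ⟨⟨0, 0, 0, 0, 0, 0, 0, 0, 0⟩, (0, 0, 0)⟩,
  ⟨⟨0, 0, 0, 0, 0, 0, 0, 0, 0⟩, (0, 0, 0)⟩,
  ⟨⟨9, -6, -32, 1, -26, 7, 8, 1, -1⟩, (5, 9, 15)⟩,
  ⟨⟨0, 0, 0, 0, 0, 0, 0, 0, 0⟩, (0, 0, 0)⟩,
  ⟨⟨21, -6, -28, 11, -14, 17, -4, -7, -1⟩, (16, 12, 6)⟩,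
  ⟨⟨0, 0, 0, 0, 0, 0, 0, 0, 0⟩, (0, 0, 0)⟩,
  ⟨⟨0, 0, 0, 0, 0, 0, 0, 0, 0⟩, (0, 0, 0)⟩,
  ⟨⟨0, 0, 0, 0, 0, 0, 0, 0, 0⟩, (0, 0, 0)⟩,
  ⟨⟨0, 0, 0, 0, 0, 0, 0, 0, 0⟩, (0, 0, 0)⟩,
  ⟨⟨11, -14, -28, 21, -6, 7, 4, 7, -5⟩, (5, 13, 7)⟩,
  ⟨⟨0, 0, 0, 0, 0, 0, 0, 0, 0⟩, (0, 0, 0)⟩,
  ⟨⟨0, 0, 0, 0, 0, 0, 0, 0, 0⟩, (0, 0, 0)⟩,
  ⟨⟨0, 0, 0, 0, 0, 0, 0, 0, 0⟩, (0, 0, 0)⟩,
  ⟨⟨-9, 6, -23, -1, 26, 8, 8, 1, -7⟩, (16, 6, 9)⟩]

/-- Data of a prime. -/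
noncomputable def D1 : PD := ⟨(nat_lit 43), (nat_lit 2), (989, 1, 17), (1652, 774, 636), (172, 5, 130)⟩

theorem D1_ok : D1.Ok := pdb_sound (s := 1) (C := ⟨⟨43, -38, -44, 43, 38, 1, 0, 9, -19⟩, (5, 38, 9)⟩) (by show Nat.Prime 43; norm_num) (by decide +kernel)

/-- Lines of the first type. -/
noncomputable def Cl1 : List C1 := [⟨⟨43, 38, -44, 43, -38, 1, 0, -9, -19⟩, (42, 1, 24)⟩,
  ⟨⟨0, 0, 0, 0, 0, 0, 0, 0, 0⟩, (0, 0, 0)⟩,
  ⟨⟨57, -18, -16, -17, -58, 1, 4, 1, -23⟩, (41, 27, 24)⟩,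
  ⟨⟨7, -38, -56, -33, -42, 49, -16, 7, -1⟩, (28, 40, 22)⟩,
  ⟨⟨0, 0, 0, 0, 0, 0, 0, 0, 0⟩, (0, 0, 0)⟩,
  ⟨⟨0, 0, 0, 0, 0, 0, 0, 0, 0⟩, (0, 0, 0)⟩,
  ⟨⟨0, 0, 0, 0, 0, 0, 0, 0, 0⟩, (0, 0, 0)⟩,
  ⟨⟨0, 0, 0, 0, 0, 0, 0, 0, 0⟩, (0, 0, 0)⟩,
  ⟨⟨0, 0, 0, 0, 0, 0, 0, 0, 0⟩, (0, 0, 0)⟩,
  ⟨⟨0, 0, 0, 0, 0, 0, 0, 0, 0⟩, (0, 0, 0)⟩,
  ⟨⟨0, 0, 0, 0, 0, 0, 0, 0, 0⟩, (0, 0, 0)⟩,
  ⟨⟨27, -18, -71, -53, -22, 4, -4, 17, -7⟩, (6, 36, 23)⟩,
  ⟨⟨0, 0, 0, 0, 0, 0, 0, 0, 0⟩, (0, 0, 0)⟩,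
  ⟨⟨0, 0, 0, 0, 0, 0, 0, 0, 0⟩, (0, 0, 0)⟩,
  ⟨⟨-7, -2, -64, -47, -38, 31, 12, -15, -7⟩, (37, 15, 41)⟩,
  ⟨⟨-7, 2, -64, -47, 38, 31, 12, 15, -7⟩, (3, 14, 1)⟩,
  ⟨⟨-7, 38, -49, 33, 42, 16, 16, -7, -17⟩, (27, 14, 12)⟩,
  ⟨⟨0, 0, 0, 0, 0, 0, 0, 0, 0⟩, (0, 0, 0)⟩,
  ⟨⟨0, 0, 0, 0, 0, 0, 0, 0, 0⟩, (0, 0, 0)⟩,
  ⟨⟨57, 18, -16, -17, 58, 1, 4, -1, -23⟩, (36, 30, 41)⟩,
  ⟨⟨53, 22, -49, 27, -18, 44, 4, -17, -11⟩, (6, 42, 11)⟩,
  ⟨⟨0, 0, 0, 0, 0, 0, 0, 0, 0⟩, (0, 0, 0)⟩,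
  ⟨⟨0, 0, 0, 0, 0, 0, 0, 0, 0⟩, (0, 0, 0)⟩,
  ⟨⟨27, 18, -71, -53, 22, 4, -4, -17, -7⟩, (1, 6, 11)⟩,
  ⟨⟨57, -18, -41, -17, -58, 16, -4, -1, -19⟩, (7, 13, 41)⟩,
  ⟨⟨0, 0, 0, 0, 0, 0, 0, 0, 0⟩, (0, 0, 0)⟩,
  ⟨⟨0, 0, 0, 0, 0, 0, 0, 0, 0⟩, (0, 0, 0)⟩,
  ⟨⟨7, 38, -56, -33, 42, 49, -16, -7, -1⟩, (27, 14, 12)⟩,
  ⟨⟨7, 2, -71, -47, -38, 16, 12, -15, -5⟩, (3, 29, 42)⟩,
  ⟨⟨7, -2, -71, -47, 38, 16, 12, 15, -5⟩, (37, 28, 2)⟩,
  ⟨⟨0, 0, 0, 0, 0, 0, 0, 0, 0⟩, (0, 0, 0)⟩,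
  ⟨⟨0, 0, 0, 0, 0, 0, 0, 0, 0⟩, (0, 0, 0)⟩,
  ⟨⟨53, -22, -49, 27, 18, 44, 4, 17, -11⟩, (36, 37, 23)⟩,
  ⟨⟨0, 0, 0, 0, 0, 0, 0, 0, 0⟩, (0, 0, 0)⟩,
  ⟨⟨0, 0, 0, 0, 0, 0, 0, 0, 0⟩, (0, 0, 0)⟩,
  ⟨⟨0, 0, 0, 0, 0, 0, 0, 0, 0⟩, (0, 0, 0)⟩,
  ⟨⟨0, 0, 0, 0, 0, 0, 0, 0, 0⟩, (0, 0, 0)⟩,
  ⟨⟨0, 0, 0, 0, 0, 0, 0, 0, 0⟩, (0, 0, 0)⟩,
  ⟨⟨0, 0, 0, 0, 0, 0, 0, 0, 0⟩, (0, 0, 0)⟩,
  ⟨⟨0, 0, 0, 0, 0, 0, 0, 0, 0⟩, (0, 0, 0)⟩,
  ⟨⟨-7, -38, -49, 33, -42, 16, 16, 7, -17⟩, (28, 40, 22)⟩,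
  ⟨⟨57, 18, -41, -17, 58, 16, -4, 1, -19⟩, (2, 16, 24)⟩,
  ⟨⟨0, 0, 0, 0, 0, 0, 0, 0, 0⟩, (0, 0, 0)⟩]

/-- Data of a prime. -/
noncomputable def Dm : PD := ⟨(nat_lit 31), (nat_lit 2), (435, 8, 13), (281, 829, 278), (666, 926, 286)⟩

theorem Dm_ok : Dm.Ok := pdb_sound (s := 3) (C := ⟨⟨11, 26, -43, -19, 34, 32, -12, -3, -1⟩, (11, 12, 19)⟩) (by show Nat.Prime 31; norm_num) (by decide +kernel)

/-- Lines of the first type. -/
noncomputable def Clm : List C1 := [⟨⟨-11, -26, -32, 19, -34, 13, 12, 3, -13⟩, (22, 24, 7)⟩,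
  ⟨⟨0, 0, 0, 0, 0, 0, 0, 0, 0⟩, (0, 0, 0)⟩,
  ⟨⟨0, 0, 0, 0, 0, 0, 0, 0, 0⟩, (0, 0, 0)⟩,
  ⟨⟨29, 26, -37, 21, 6, 32, 8, -11, -7⟩, (2, 10, 23)⟩,
  ⟨⟨0, 0, 0, 0, 0, 0, 0, 0, 0⟩, (0, 0, 0)⟩,
  ⟨⟨21, 6, -53, 29, 26, 8, 8, -11, -1⟩, (6, 26, 20)⟩,
  ⟨⟨0, 0, 0, 0, 0, 0, 0, 0, 0⟩, (0, 0, 0)⟩,
  ⟨⟨29, -26, -37, 21, -6, 32, 8, 11, -7⟩, (27, 11, 16)⟩,
  ⟨⟨0, 0, 0, 0, 0, 0, 0, 0, 0⟩, (0, 0, 0)⟩,
  ⟨⟨-9, -6, -43, -41, 14, 28, 4, 13, -5⟩, (4, 1, 12)⟩,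
  ⟨⟨9, -6, -52, -41, -14, 13, -4, 13, -1⟩, (29, 16, 25)⟩,
  ⟨⟨21, -6, -53, 29, -26, 8, 8, 11, -1⟩, (7, 20, 13)⟩,
  ⟨⟨9, 6, -52, -41, 14, 13, -4, -13, -1⟩, (28, 24, 22)⟩,
  ⟨⟨0, 0, 0, 0, 0, 0, 0, 0, 0⟩, (0, 0, 0)⟩,
  ⟨⟨0, 0, 0, 0, 0, 0, 0, 0, 0⟩, (0, 0, 0)⟩,
  ⟨⟨0, 0, 0, 0, 0, 0, 0, 0, 0⟩, (0, 0, 0)⟩,
  ⟨⟨11, -26, -43, -19, -34, 32, -12, 3, -1⟩, (25, 16, 15)⟩,
  ⟨⟨-9, 6, -43, -41, -14, 28, 4, -13, -5⟩, (3, 24, 9)⟩,
  ⟨⟨0, 0, 0, 0, 0, 0, 0, 0, 0⟩, (0, 0, 0)⟩,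
  ⟨⟨0, 0, 0, 0, 0, 0, 0, 0, 0⟩, (0, 0, 0)⟩,
  ⟨⟨0, 0, 0, 0, 0, 0, 0, 0, 0⟩, (0, 0, 0)⟩,
  ⟨⟨0, 0, 0, 0, 0, 0, 0, 0, 0⟩, (0, 0, 0)⟩,
  ⟨⟨0, 0, 0, 0, 0, 0, 0, 0, 0⟩, (0, 0, 0)⟩,
  ⟨⟨0, 0, 0, 0, 0, 0, 0, 0, 0⟩, (0, 0, 0)⟩,
  ⟨⟨0, 0, 0, 0, 0, 0, 0, 0, 0⟩, (0, 0, 0)⟩,
  ⟨⟨0, 0, 0, 0, 0, 0, 0, 0, 0⟩, (0, 0, 0)⟩,
  ⟨⟨0, 0, 0, 0, 0, 0, 0, 0, 0⟩, (0, 0, 0)⟩,
  ⟨⟨0, 0, 0, 0, 0, 0, 0, 0, 0⟩, (0, 0, 0)⟩,
  ⟨⟨0, 0, 0, 0, 0, 0, 0, 0, 0⟩, (0, 0, 0)⟩,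
  ⟨⟨0, 0, 0, 0, 0, 0, 0, 0, 0⟩, (0, 0, 0)⟩,
  ⟨⟨-11, 26, -32, 19, 34, 13, 12, -3, -13⟩, (28, 8, 23)⟩]

/-- Unit moves. -/
noncomputable def U : List Mv := [mz,
  mz,
  mz,
  mz,
  mz,
  ⟨⟨-1, 0, 1, 0, 1, 0, 0, 0, 1⟩, .nil, (nat_lit 18), (nat_lit 9), (nat_lit 4), (nat_lit 1), (0, 0, 0), [], 18⟩,
  ⟨⟨-1, 0, 1, 0, -1, 0, 0, 0, 1⟩, .nil, (nat_lit 0), (nat_lit 12), (nat_lit 1), (nat_lit 0), (0, 0, 0), [], 7⟩,
  mz,
  mz,
  mz,
  ⟨⟨1, 0, 0, 0, -1, 0, 0, 0, 1⟩, .nil, (nat_lit 18), (nat_lit 14), (nat_lit 2), (nat_lit 1), (0, 0, 0), [], 10⟩,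
  ⟨⟨-1, 0, 1, 0, -1, 0, 0, 0, 1⟩, .nil, (nat_lit 0), (nat_lit 12), (nat_lit 1), (nat_lit 0), (0, 0, 0), [], 7⟩,
  ⟨⟨-1, 0, 1, 0, -1, 0, 0, 0, 1⟩, .nil, (nat_lit 0), (nat_lit 12), (nat_lit 1), (nat_lit 0), (0, 0, 0), [], 7⟩,
  ⟨⟨-1, 0, 1, 0, 1, 0, 0, 0, 1⟩, .nil, (nat_lit 18), (nat_lit 9), (nat_lit 4), (nat_lit 1), (0, 0, 0), [], 18⟩,
  mz,
  ⟨⟨-1, 0, 1, 0, 1, 0, 0, 0, 1⟩, .nil, (nat_lit 18), (nat_lit 9), (nat_lit 4), (nat_lit 1), (0, 0, 0), [], 18⟩,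
  ⟨⟨1, 0, 0, 0, -1, 0, 0, 0, 1⟩, .nil, (nat_lit 18), (nat_lit 14), (nat_lit 2), (nat_lit 1), (0, 0, 0), [], 10⟩,
  ⟨⟨1, 0, 0, 0, -1, 0, 0, 0, 1⟩, .nil, (nat_lit 18), (nat_lit 14), (nat_lit 2), (nat_lit 1), (0, 0, 0), [], 10⟩,
  mz]

theorem v_ty : tyb Dm S.ty1 Clm = true := by decide +kernel

theorem v_ty0 : tyb D0 (S.tys.getD 0 0) Cl0 = true := by decide +kernel

theorem v_ty1 : tyb D1 (S.tys.getD 1 0) Cl1 = true := by decide +kernel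

theorem v_msc : mscb S D0 [D1] Dm (nat_lit 262) = true := by decide +kernel

theorem v_mv0 : mvsn (nat_lit 641456929) S D0 [D1] Dm (nat_lit 262) 0 D0 = true := by decide +kernel

theorem v_mv1 : mvsn (nat_lit 641456929) S D0 [D1] Dm (nat_lit 262) 1 D1 = true := by decide +kernel

theorem v_mm : mmsn (nat_lit 641456929) S D0 [D1] Dm (nat_lit 262) = true := by decide +kernel

theorem v_un : unb S D0 (nat_lit 262) U = true := by decide +kernel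

theorem v_ok : okb S.oks [(2, 9, 0), (0, 0, 0)] = true := by decide +kernel

theorem v_part : ∀ d < D0.p, (nat_lit 262).testBit d = true → part S (zc (D0 :: [D1])) d = true := by
  intro d hd h
  have h1 : ∀ d < 19, (nat_lit 262).testBit d = true → d = 1 ∨ d = 2 ∨ d = 8 := by decide
  rcases h1 d hd h with rfl | rfl | rfl
  · exact part_1
  · exact part_2
  · exact part_8

theorem main (n : ℕ) (ho : Odd n) (hr : ¬ Rep n) (h0 : Split 19 n) (h1 : Split 43 n) (hm : Split 31 n) :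
    n ∈ EE := by
  refine concln (W := nat_lit 641456929) (S := S) (P0 := D0) (Pl := [D1]) (Pm := Dm) (cn := nat_lit 262) ?_ Dm_ok v_ty ?_ ?_ v_msc ?_ v_mm v_un v_part v_ok
    n ho hr ?_ hm
  · simp only [List.forall_mem_cons]
    exact ⟨D0_ok, D1_ok, fun _ h => absurd h (by simp)⟩
  · exact all2 (φ := fun j P => ∃ L, tyb P (S.tys.getD j 0) L = true) ⟨_, v_ty0⟩ ⟨_, v_ty1⟩
  · exact all2 (φ := fun j P => Nat.ble (S.pks.getD j 0) (Nat.pow P.p P.K) = true) (by decide +kernel) (by decide +kernel)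
  · exact all2 (φ := fun i P => mvsn (nat_lit 641456929) S D0 [D1] Dm (nat_lit 262) i P = true) v_mv0 v_mv1
  · simp only [List.forall_mem_cons]
    exact ⟨h0, h1, fun _ h => absurd h (by simp)⟩

end Pool.Agent.Work.MP_9954fe_nt.P19_43_31

namespace Pool.Agent.Work.MP_9954fe_nt.P31_43_47

/-- Dummy move. -/
noncomputable def mz : Mv := ⟨⟨0, 0, 0, 0, 0, 0, 0, 0, 0⟩, .nil, (nat_lit 0), (nat_lit 0), (nat_lit 0), (nat_lit 0), (0, 0, 0), [], 0⟩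

/-- Moves. -/
noncomputable def t0_1 : List Mv := [
  ⟨⟨3, 20, 29, -4, 25, -18, 26, 8, -7⟩, (.cons (nat_lit 719) (nat_lit 143) (nat_lit 125) (nat_lit 1) (.cons
 (nat_lit 1467) (nat_lit 1218) (nat_lit 380) (nat_lit 1) .nil)), (nat_lit 24), (nat_lit 9), (nat_lit 25),
 (nat_lit 1), (26, 17, 29), [819, 548], 27⟩,
  ⟨⟨23, -12, -36, -4, 25, -18, 26, 8, -7⟩, (.cons (nat_lit 388) (nat_lit 423) (nat_lit 935) (nat_lit 1) (.cons
 (nat_lit 812) (nat_lit 373) (nat_lit 810) (nat_lit 1) .nil)), (nat_lit 23), (nat_lit 38), (nat_lit 25),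
 (nat_lit 1), (3, 17, 29), [815, 290], 27⟩,
  ⟨⟨3, 20, 29, -4, 25, -18, 26, 8, -7⟩, (.cons (nat_lit 719) (nat_lit 143) (nat_lit 125) (nat_lit 1) (.cons
 (nat_lit 1467) (nat_lit 1218) (nat_lit 380) (nat_lit 1) .nil)), (nat_lit 24), (nat_lit 9), (nat_lit 25),
 (nat_lit 1), (26, 17, 29), [819, 548], 27⟩,
  ⟨⟨3, 20, 29, -4, 25, -18, 26, 8, -7⟩, (.cons (nat_lit 719) (nat_lit 143) (nat_lit 125) (nat_lit 1) (.cons
 (nat_lit 1467) (nat_lit 1218) (nat_lit 380) (nat_lit 1) .nil)), (nat_lit 24), (nat_lit 9), (nat_lit 25),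
 (nat_lit 1), (26, 17, 29), [819, 548], 27⟩,
  ⟨⟨23, -12, -36, -4, 25, -18, 26, 8, -7⟩, (.cons (nat_lit 388) (nat_lit 423) (nat_lit 935) (nat_lit 1) (.cons
 (nat_lit 812) (nat_lit 373) (nat_lit 810) (nat_lit 1) .nil)), (nat_lit 23), (nat_lit 38), (nat_lit 25),
 (nat_lit 1), (3, 17, 29), [815, 290], 27⟩,
  ⟨⟨3, 20, 29, -4, 25, -18, 26, 8, -7⟩, (.cons (nat_lit 719) (nat_lit 143) (nat_lit 125) (nat_lit 1) (.cons
 (nat_lit 1467) (nat_lit 1218) (nat_lit 380) (nat_lit 1) .nil)), (nat_lit 24), (nat_lit 9), (nat_lit 25),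
 (nat_lit 1), (26, 17, 29), [819, 548], 27⟩,
  ⟨⟨3, 20, 29, -4, 25, -18, 26, 8, -7⟩, (.cons (nat_lit 719) (nat_lit 143) (nat_lit 125) (nat_lit 1) (.cons
 (nat_lit 1467) (nat_lit 1218) (nat_lit 380) (nat_lit 1) .nil)), (nat_lit 24), (nat_lit 9), (nat_lit 25),
 (nat_lit 1), (26, 17, 29), [819, 548], 27⟩,
  ⟨⟨23, -12, -36, 4, -25, 18, 26, 8, -7⟩, (.cons (nat_lit 735) (nat_lit 146) (nat_lit 232) (nat_lit 1) (.cons
 (nat_lit 277) (nat_lit 501) (nat_lit 759) (nat_lit 1) .nil)), (nat_lit 40), (nat_lit 11), (nat_lit 34),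
 (nat_lit 1), (3, 14, 29), [463, 1312], 14⟩,
  ⟨⟨3, 20, 29, -4, 25, -18, 26, 8, -7⟩, (.cons (nat_lit 719) (nat_lit 143) (nat_lit 125) (nat_lit 1) (.cons
 (nat_lit 1467) (nat_lit 1218) (nat_lit 380) (nat_lit 1) .nil)), (nat_lit 24), (nat_lit 9), (nat_lit 25),
 (nat_lit 1), (26, 17, 29), [819, 548], 27⟩,
  ⟨⟨23, -12, -36, 4, -25, 18, 26, 8, -7⟩, (.cons (nat_lit 735) (nat_lit 146) (nat_lit 232) (nat_lit 1) (.cons
 (nat_lit 277) (nat_lit 501) (nat_lit 759) (nat_lit 1) .nil)), (nat_lit 40), (nat_lit 11), (nat_lit 34),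
 (nat_lit 1), (3, 14, 29), [463, 1312], 14⟩,
  ⟨⟨3, 20, 29, -4, 25, -18, 26, 8, -7⟩, (.cons (nat_lit 719) (nat_lit 143) (nat_lit 125) (nat_lit 1) (.cons
 (nat_lit 1467) (nat_lit 1218) (nat_lit 380) (nat_lit 1) .nil)), (nat_lit 24), (nat_lit 9), (nat_lit 25),
 (nat_lit 1), (26, 17, 29), [819, 548], 27⟩,
  ⟨⟨23, -12, -36, -4, 25, -18, 26, 8, -7⟩, (.cons (nat_lit 388) (nat_lit 423) (nat_lit 935) (nat_lit 1) (.cons
 (nat_lit 812) (nat_lit 373) (nat_lit 810) (nat_lit 1) .nil)), (nat_lit 23), (nat_lit 38), (nat_lit 25),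
 (nat_lit 1), (3, 17, 29), [815, 290], 27⟩,
  ⟨⟨3, 20, 29, -4, 25, -18, 26, 8, -7⟩, (.cons (nat_lit 719) (nat_lit 143) (nat_lit 125) (nat_lit 1) (.cons
 (nat_lit 1467) (nat_lit 1218) (nat_lit 380) (nat_lit 1) .nil)), (nat_lit 24), (nat_lit 9), (nat_lit 25),
 (nat_lit 1), (26, 17, 29), [819, 548], 27⟩,
  ⟨⟨23, -12, -36, 4, -25, 18, 26, 8, -7⟩, (.cons (nat_lit 735) (nat_lit 146) (nat_lit 232) (nat_lit 1) (.cons
 (nat_lit 277) (nat_lit 501) (nat_lit 759) (nat_lit 1) .nil)), (nat_lit 40), (nat_lit 11), (nat_lit 34),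
 (nat_lit 1), (3, 14, 29), [463, 1312], 14⟩,
  ⟨⟨3, 20, 29, -4, 25, -18, 26, 8, -7⟩, (.cons (nat_lit 719) (nat_lit 143) (nat_lit 125) (nat_lit 1) (.cons
 (nat_lit 1467) (nat_lit 1218) (nat_lit 380) (nat_lit 1) .nil)), (nat_lit 24), (nat_lit 9), (nat_lit 25),
 (nat_lit 1), (26, 17, 29), [819, 548], 27⟩,
  ⟨⟨3, 20, 29, -4, 25, -18, 26, 8, -7⟩, (.cons (nat_lit 719) (nat_lit 143) (nat_lit 125) (nat_lit 1) (.cons
 (nat_lit 1467) (nat_lit 1218) (nat_lit 380) (nat_lit 1) .nil)), (nat_lit 24), (nat_lit 9), (nat_lit 25),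
 (nat_lit 1), (26, 17, 29), [819, 548], 27⟩,
  ⟨⟨23, -12, -36, -4, 25, -18, 26, 8, -7⟩, (.cons (nat_lit 388) (nat_lit 423) (nat_lit 935) (nat_lit 1) (.cons
 (nat_lit 812) (nat_lit 373) (nat_lit 810) (nat_lit 1) .nil)), (nat_lit 23), (nat_lit 38), (nat_lit 25),
 (nat_lit 1), (3, 17, 29), [815, 290], 27⟩,
  ⟨⟨3, 20, 29, -4, 25, -18, 26, 8, -7⟩, (.cons (nat_lit 719) (nat_lit 143) (nat_lit 125) (nat_lit 1) (.cons
 (nat_lit 1467) (nat_lit 1218) (nat_lit 380) (nat_lit 1) .nil)), (nat_lit 24), (nat_lit 9), (nat_lit 25),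
 (nat_lit 1), (26, 17, 29), [819, 548], 27⟩,
  ⟨⟨23, -12, -36, -4, 25, -18, 26, 8, -7⟩, (.cons (nat_lit 388) (nat_lit 423) (nat_lit 935) (nat_lit 1) (.cons
 (nat_lit 812) (nat_lit 373) (nat_lit 810) (nat_lit 1) .nil)), (nat_lit 23), (nat_lit 38), (nat_lit 25),
 (nat_lit 1), (3, 17, 29), [815, 290], 27⟩,
  ⟨⟨3, 20, 29, 4, -25, 18, 26, 8, -7⟩, (.cons (nat_lit 213) (nat_lit 582) (nat_lit 69) (nat_lit 1) (.cons
 (nat_lit 1357) (nat_lit 1606) (nat_lit 1748) (nat_lit 1) .nil)), (nat_lit 7), (nat_lit 36), (nat_lit 34),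
 (nat_lit 1), (26, 14, 29), [417, 495], 14⟩,
  ⟨⟨3, 20, 29, 4, -25, 18, 26, 8, -7⟩, (.cons (nat_lit 213) (nat_lit 582) (nat_lit 69) (nat_lit 1) (.cons
 (nat_lit 1357) (nat_lit 1606) (nat_lit 1748) (nat_lit 1) .nil)), (nat_lit 7), (nat_lit 36), (nat_lit 34),
 (nat_lit 1), (26, 14, 29), [417, 495], 14⟩,
  ⟨⟨3, 20, 29, -4, 25, -18, 26, 8, -7⟩, (.cons (nat_lit 719) (nat_lit 143) (nat_lit 125) (nat_lit 1) (.cons
 (nat_lit 1467) (nat_lit 1218) (nat_lit 380) (nat_lit 1) .nil)), (nat_lit 24), (nat_lit 9), (nat_lit 25),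
 (nat_lit 1), (26, 17, 29), [819, 548], 27⟩,
  ⟨⟨3, 20, 29, -4, 25, -18, 26, 8, -7⟩, (.cons (nat_lit 719) (nat_lit 143) (nat_lit 125) (nat_lit 1) (.cons
 (nat_lit 1467) (nat_lit 1218) (nat_lit 380) (nat_lit 1) .nil)), (nat_lit 24), (nat_lit 9), (nat_lit 25),
 (nat_lit 1), (26, 17, 29), [819, 548], 27⟩,
  ⟨⟨3, 20, 29, 4, -25, 18, 26, 8, -7⟩, (.cons (nat_lit 213) (nat_lit 582) (nat_lit 69) (nat_lit 1) (.cons
 (nat_lit 1357) (nat_lit 1606) (nat_lit 1748) (nat_lit 1) .nil)), (nat_lit 7), (nat_lit 36), (nat_lit 34),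
 (nat_lit 1), (26, 14, 29), [417, 495], 14⟩,
  ⟨⟨3, 20, 29, -4, 25, -18, 26, 8, -7⟩, (.cons (nat_lit 719) (nat_lit 143) (nat_lit 125) (nat_lit 1) (.cons
 (nat_lit 1467) (nat_lit 1218) (nat_lit 380) (nat_lit 1) .nil)), (nat_lit 24), (nat_lit 9), (nat_lit 25),
 (nat_lit 1), (26, 17, 29), [819, 548], 27⟩,
  ⟨⟨23, -12, -36, 4, -25, 18, 26, 8, -7⟩, (.cons (nat_lit 735) (nat_lit 146) (nat_lit 232) (nat_lit 1) (.cons
 (nat_lit 277) (nat_lit 501) (nat_lit 759) (nat_lit 1) .nil)), (nat_lit 40), (nat_lit 11), (nat_lit 34),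
 (nat_lit 1), (3, 14, 29), [463, 1312], 14⟩,
  ⟨⟨3, 20, 29, 4, -25, 18, 26, 8, -7⟩, (.cons (nat_lit 213) (nat_lit 582) (nat_lit 69) (nat_lit 1) (.cons
 (nat_lit 1357) (nat_lit 1606) (nat_lit 1748) (nat_lit 1) .nil)), (nat_lit 7), (nat_lit 36), (nat_lit 34),
 (nat_lit 1), (26, 14, 29), [417, 495], 14⟩,
  ⟨⟨3, 20, 29, -4, 25, -18, 26, 8, -7⟩, (.cons (nat_lit 719) (nat_lit 143) (nat_lit 125) (nat_lit 1) (.cons
 (nat_lit 1467) (nat_lit 1218) (nat_lit 380) (nat_lit 1) .nil)), (nat_lit 24), (nat_lit 9), (nat_lit 25),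
 (nat_lit 1), (26, 17, 29), [819, 548], 27⟩,
  ⟨⟨23, -12, -36, 4, -25, 18, 26, 8, -7⟩, (.cons (nat_lit 735) (nat_lit 146) (nat_lit 232) (nat_lit 1) (.cons
 (nat_lit 277) (nat_lit 501) (nat_lit 759) (nat_lit 1) .nil)), (nat_lit 40), (nat_lit 11), (nat_lit 34),
 (nat_lit 1), (3, 14, 29), [463, 1312], 14⟩,
  ⟨⟨3, 20, 29, 4, -25, 18, 26, 8, -7⟩, (.cons (nat_lit 213) (nat_lit 582) (nat_lit 69) (nat_lit 1) (.cons
 (nat_lit 1357) (nat_lit 1606) (nat_lit 1748) (nat_lit 1) .nil)), (nat_lit 7), (nat_lit 36), (nat_lit 34),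
 (nat_lit 1), (26, 14, 29), [417, 495], 14⟩,
  ⟨⟨3, 20, 29, -4, 25, -18, 26, 8, -7⟩, (.cons (nat_lit 719) (nat_lit 143) (nat_lit 125) (nat_lit 1) (.cons
 (nat_lit 1467) (nat_lit 1218) (nat_lit 380) (nat_lit 1) .nil)), (nat_lit 24), (nat_lit 9), (nat_lit 25),
 (nat_lit 1), (26, 17, 29), [819, 548], 27⟩]

/-- Moves. -/
noncomputable def t0_4 : List Mv := [
  ⟨⟨-33, 8, 17, 4, 15, 28, -6, 24, -11⟩, (.cons (nat_lit 834) (nat_lit 345) (nat_lit 177) (nat_lit 1) (.cons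
 (nat_lit 1334) (nat_lit 1255) (nat_lit 1793) (nat_lit 1) .nil)), (nat_lit 1), (nat_lit 37), (nat_lit 39),
 (nat_lit 1), (23, 16, 7), [312, 1234], 42⟩,
  ⟨⟨27, 16, -28, -4, -15, -28, -6, 24, -11⟩, (.cons (nat_lit 749) (nat_lit 554) (nat_lit 751) (nat_lit 1)
 (.cons (nat_lit 1212) (nat_lit 608) (nat_lit 1059) (nat_lit 1) .nil)), (nat_lit 4), (nat_lit 23), (nat_lit
 14), (nat_lit 1), (15, 15, 7), [808, 515], 12⟩,
  ⟨⟨27, 16, -28, -4, -15, -28, -6, 24, -11⟩, (.cons (nat_lit 749) (nat_lit 554) (nat_lit 751) (nat_lit 1)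
 (.cons (nat_lit 1212) (nat_lit 608) (nat_lit 1059) (nat_lit 1) .nil)), (nat_lit 4), (nat_lit 23), (nat_lit
 14), (nat_lit 1), (15, 15, 7), [808, 515], 12⟩,
  ⟨⟨27, 16, -28, -4, -15, -28, -6, 24, -11⟩, (.cons (nat_lit 749) (nat_lit 554) (nat_lit 751) (nat_lit 1)
 (.cons (nat_lit 1212) (nat_lit 608) (nat_lit 1059) (nat_lit 1) .nil)), (nat_lit 4), (nat_lit 23), (nat_lit
 14), (nat_lit 1), (15, 15, 7), [808, 515], 12⟩,
  ⟨⟨-33, 8, 17, -4, -15, -28, -6, 24, -11⟩, (.cons (nat_lit 698) (nat_lit 820) (nat_lit 957) (nat_lit 1) (.cons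
 (nat_lit 465) (nat_lit 1069) (nat_lit 1188) (nat_lit 1) .nil)), (nat_lit 43), (nat_lit 24), (nat_lit 14),
 (nat_lit 1), (23, 15, 7), [827, 601], 12⟩,
  ⟨⟨-33, 8, 17, 4, 15, 28, -6, 24, -11⟩, (.cons (nat_lit 834) (nat_lit 345) (nat_lit 177) (nat_lit 1) (.cons
 (nat_lit 1334) (nat_lit 1255) (nat_lit 1793) (nat_lit 1) .nil)), (nat_lit 1), (nat_lit 37), (nat_lit 39),
 (nat_lit 1), (23, 16, 7), [312, 1234], 42⟩,
  ⟨⟨-33, 8, 17, -4, -15, -28, -6, 24, -11⟩, (.cons (nat_lit 698) (nat_lit 820) (nat_lit 957) (nat_lit 1) (.cons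
 (nat_lit 465) (nat_lit 1069) (nat_lit 1188) (nat_lit 1) .nil)), (nat_lit 43), (nat_lit 24), (nat_lit 14),
 (nat_lit 1), (23, 15, 7), [827, 601], 12⟩,
  ⟨⟨27, 16, -28, -4, -15, -28, -6, 24, -11⟩, (.cons (nat_lit 749) (nat_lit 554) (nat_lit 751) (nat_lit 1)
 (.cons (nat_lit 1212) (nat_lit 608) (nat_lit 1059) (nat_lit 1) .nil)), (nat_lit 4), (nat_lit 23), (nat_lit
 14), (nat_lit 1), (15, 15, 7), [808, 515], 12⟩,
  ⟨⟨27, 16, -28, -4, -15, -28, -6, 24, -11⟩, (.cons (nat_lit 749) (nat_lit 554) (nat_lit 751) (nat_lit 1)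
 (.cons (nat_lit 1212) (nat_lit 608) (nat_lit 1059) (nat_lit 1) .nil)), (nat_lit 4), (nat_lit 23), (nat_lit
 14), (nat_lit 1), (15, 15, 7), [808, 515], 12⟩,
  ⟨⟨27, 16, -28, -4, -15, -28, -6, 24, -11⟩, (.cons (nat_lit 749) (nat_lit 554) (nat_lit 751) (nat_lit 1)
 (.cons (nat_lit 1212) (nat_lit 608) (nat_lit 1059) (nat_lit 1) .nil)), (nat_lit 4), (nat_lit 23), (nat_lit
 14), (nat_lit 1), (15, 15, 7), [808, 515], 12⟩,
  ⟨⟨27, 16, -28, -4, -15, -28, -6, 24, -11⟩, (.cons (nat_lit 749) (nat_lit 554) (nat_lit 751) (nat_lit 1)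
 (.cons (nat_lit 1212) (nat_lit 608) (nat_lit 1059) (nat_lit 1) .nil)), (nat_lit 4), (nat_lit 23), (nat_lit
 14), (nat_lit 1), (15, 15, 7), [808, 515], 12⟩,
  ⟨⟨27, 16, -28, -4, -15, -28, -6, 24, -11⟩, (.cons (nat_lit 749) (nat_lit 554) (nat_lit 751) (nat_lit 1)
 (.cons (nat_lit 1212) (nat_lit 608) (nat_lit 1059) (nat_lit 1) .nil)), (nat_lit 4), (nat_lit 23), (nat_lit
 14), (nat_lit 1), (15, 15, 7), [808, 515], 12⟩,
  ⟨⟨27, 16, -28, 4, 15, 28, -6, 24, -11⟩, (.cons (nat_lit 412) (nat_lit 83) (nat_lit 351) (nat_lit 1) (.cons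
 (nat_lit 1848) (nat_lit 1239) (nat_lit 1621) (nat_lit 1) .nil)), (nat_lit 46), (nat_lit 10), (nat_lit 39),
 (nat_lit 1), (15, 16, 7), [852, 1492], 42⟩,
  ⟨⟨27, 16, -28, -4, -15, -28, -6, 24, -11⟩, (.cons (nat_lit 749) (nat_lit 554) (nat_lit 751) (nat_lit 1)
 (.cons (nat_lit 1212) (nat_lit 608) (nat_lit 1059) (nat_lit 1) .nil)), (nat_lit 4), (nat_lit 23), (nat_lit
 14), (nat_lit 1), (15, 15, 7), [808, 515], 12⟩,
  ⟨⟨27, 16, -28, -4, -15, -28, -6, 24, -11⟩, (.cons (nat_lit 749) (nat_lit 554) (nat_lit 751) (nat_lit 1)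
 (.cons (nat_lit 1212) (nat_lit 608) (nat_lit 1059) (nat_lit 1) .nil)), (nat_lit 4), (nat_lit 23), (nat_lit
 14), (nat_lit 1), (15, 15, 7), [808, 515], 12⟩,
  ⟨⟨-33, 8, 17, 4, 15, 28, -6, 24, -11⟩, (.cons (nat_lit 834) (nat_lit 345) (nat_lit 177) (nat_lit 1) (.cons
 (nat_lit 1334) (nat_lit 1255) (nat_lit 1793) (nat_lit 1) .nil)), (nat_lit 1), (nat_lit 37), (nat_lit 39),
 (nat_lit 1), (23, 16, 7), [312, 1234], 42⟩,
  ⟨⟨27, 16, -28, -4, -15, -28, -6, 24, -11⟩, (.cons (nat_lit 749) (nat_lit 554) (nat_lit 751) (nat_lit 1)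
 (.cons (nat_lit 1212) (nat_lit 608) (nat_lit 1059) (nat_lit 1) .nil)), (nat_lit 4), (nat_lit 23), (nat_lit
 14), (nat_lit 1), (15, 15, 7), [808, 515], 12⟩,
  ⟨⟨27, 16, -28, -4, -15, -28, -6, 24, -11⟩, (.cons (nat_lit 749) (nat_lit 554) (nat_lit 751) (nat_lit 1)
 (.cons (nat_lit 1212) (nat_lit 608) (nat_lit 1059) (nat_lit 1) .nil)), (nat_lit 4), (nat_lit 23), (nat_lit
 14), (nat_lit 1), (15, 15, 7), [808, 515], 12⟩,
  ⟨⟨27, 16, -28, -4, -15, -28, -6, 24, -11⟩, (.cons (nat_lit 749) (nat_lit 554) (nat_lit 751) (nat_lit 1)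
 (.cons (nat_lit 1212) (nat_lit 608) (nat_lit 1059) (nat_lit 1) .nil)), (nat_lit 4), (nat_lit 23), (nat_lit
 14), (nat_lit 1), (15, 15, 7), [808, 515], 12⟩,
  ⟨⟨27, 16, -28, -4, -15, -28, -6, 24, -11⟩, (.cons (nat_lit 749) (nat_lit 554) (nat_lit 751) (nat_lit 1)
 (.cons (nat_lit 1212) (nat_lit 608) (nat_lit 1059) (nat_lit 1) .nil)), (nat_lit 4), (nat_lit 23), (nat_lit
 14), (nat_lit 1), (15, 15, 7), [808, 515], 12⟩,
  ⟨⟨27, 16, -28, 4, 15, 28, -6, 24, -11⟩, (.cons (nat_lit 412) (nat_lit 83) (nat_lit 351) (nat_lit 1) (.cons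
 (nat_lit 1848) (nat_lit 1239) (nat_lit 1621) (nat_lit 1) .nil)), (nat_lit 46), (nat_lit 10), (nat_lit 39),
 (nat_lit 1), (15, 16, 7), [852, 1492], 42⟩,
  ⟨⟨-33, 8, 17, -4, -15, -28, -6, 24, -11⟩, (.cons (nat_lit 698) (nat_lit 820) (nat_lit 957) (nat_lit 1) (.cons
 (nat_lit 465) (nat_lit 1069) (nat_lit 1188) (nat_lit 1) .nil)), (nat_lit 43), (nat_lit 24), (nat_lit 14),
 (nat_lit 1), (23, 15, 7), [827, 601], 12⟩,
  ⟨⟨27, 16, -28, -4, -15, -28, -6, 24, -11⟩, (.cons (nat_lit 749) (nat_lit 554) (nat_lit 751) (nat_lit 1)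
 (.cons (nat_lit 1212) (nat_lit 608) (nat_lit 1059) (nat_lit 1) .nil)), (nat_lit 4), (nat_lit 23), (nat_lit
 14), (nat_lit 1), (15, 15, 7), [808, 515], 12⟩,
  ⟨⟨27, 16, -28, -4, -15, -28, -6, 24, -11⟩, (.cons (nat_lit 749) (nat_lit 554) (nat_lit 751) (nat_lit 1)
 (.cons (nat_lit 1212) (nat_lit 608) (nat_lit 1059) (nat_lit 1) .nil)), (nat_lit 4), (nat_lit 23), (nat_lit
 14), (nat_lit 1), (15, 15, 7), [808, 515], 12⟩,
  ⟨⟨27, 16, -28, 4, 15, 28, -6, 24, -11⟩, (.cons (nat_lit 412) (nat_lit 83) (nat_lit 351) (nat_lit 1) (.cons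
 (nat_lit 1848) (nat_lit 1239) (nat_lit 1621) (nat_lit 1) .nil)), (nat_lit 46), (nat_lit 10), (nat_lit 39),
 (nat_lit 1), (15, 16, 7), [852, 1492], 42⟩,
  ⟨⟨-33, 8, 17, 4, 15, 28, -6, 24, -11⟩, (.cons (nat_lit 834) (nat_lit 345) (nat_lit 177) (nat_lit 1) (.cons
 (nat_lit 1334) (nat_lit 1255) (nat_lit 1793) (nat_lit 1) .nil)), (nat_lit 1), (nat_lit 37), (nat_lit 39),
 (nat_lit 1), (23, 16, 7), [312, 1234], 42⟩,
  ⟨⟨-33, 8, 17, -4, -15, -28, -6, 24, -11⟩, (.cons (nat_lit 698) (nat_lit 820) (nat_lit 957) (nat_lit 1) (.cons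
 (nat_lit 465) (nat_lit 1069) (nat_lit 1188) (nat_lit 1) .nil)), (nat_lit 43), (nat_lit 24), (nat_lit 14),
 (nat_lit 1), (23, 15, 7), [827, 601], 12⟩,
  ⟨⟨-33, 8, 17, -4, -15, -28, -6, 24, -11⟩, (.cons (nat_lit 698) (nat_lit 820) (nat_lit 957) (nat_lit 1) (.cons
 (nat_lit 465) (nat_lit 1069) (nat_lit 1188) (nat_lit 1) .nil)), (nat_lit 43), (nat_lit 24), (nat_lit 14),
 (nat_lit 1), (23, 15, 7), [827, 601], 12⟩,
  ⟨⟨-33, 8, 17, 4, 15, 28, -6, 24, -11⟩, (.cons (nat_lit 834) (nat_lit 345) (nat_lit 177) (nat_lit 1) (.cons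
 (nat_lit 1334) (nat_lit 1255) (nat_lit 1793) (nat_lit 1) .nil)), (nat_lit 1), (nat_lit 37), (nat_lit 39),
 (nat_lit 1), (23, 16, 7), [312, 1234], 42⟩,
  ⟨⟨27, 16, -28, 4, 15, 28, -6, 24, -11⟩, (.cons (nat_lit 412) (nat_lit 83) (nat_lit 351) (nat_lit 1) (.cons
 (nat_lit 1848) (nat_lit 1239) (nat_lit 1621) (nat_lit 1) .nil)), (nat_lit 46), (nat_lit 10), (nat_lit 39),
 (nat_lit 1), (15, 16, 7), [852, 1492], 42⟩,
  ⟨⟨27, 16, -28, -4, -15, -28, -6, 24, -11⟩, (.cons (nat_lit 749) (nat_lit 554) (nat_lit 751) (nat_lit 1)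
 (.cons (nat_lit 1212) (nat_lit 608) (nat_lit 1059) (nat_lit 1) .nil)), (nat_lit 4), (nat_lit 23), (nat_lit
 14), (nat_lit 1), (15, 15, 7), [808, 515], 12⟩]

/-- Moves. -/
noncomputable def t0_6 : List Mv := [
  ⟨⟨1, -12, 35, -16, -25, -2, 22, -16, -5⟩, (.cons (nat_lit 790) (nat_lit 903) (nat_lit 23) (nat_lit 1) (.cons
 (nat_lit 1013) (nat_lit 183) (nat_lit 1680) (nat_lit 1) .nil)), (nat_lit 7), (nat_lit 29), (nat_lit 26),
 (nat_lit 1), (1, 15, 22), [202, 925], 14⟩,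
  ⟨⟨21, -4, -40, 16, 25, 2, 22, -16, -5⟩, (.cons (nat_lit 528) (nat_lit 151) (nat_lit 120) (nat_lit 1) (.cons
 (nat_lit 1178) (nat_lit 407) (nat_lit 1085) (nat_lit 1) .nil)), (nat_lit 45), (nat_lit 18), (nat_lit 44),
 (nat_lit 1), (21, 16, 22), [667, 89], 14⟩,
  ⟨⟨1, -12, 35, -16, -25, -2, 22, -16, -5⟩, (.cons (nat_lit 790) (nat_lit 903) (nat_lit 23) (nat_lit 1) (.cons
 (nat_lit 1013) (nat_lit 183) (nat_lit 1680) (nat_lit 1) .nil)), (nat_lit 7), (nat_lit 29), (nat_lit 26),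
 (nat_lit 1), (1, 15, 22), [202, 925], 14⟩,
  ⟨⟨1, -12, 35, -16, -25, -2, 22, -16, -5⟩, (.cons (nat_lit 790) (nat_lit 903) (nat_lit 23) (nat_lit 1) (.cons
 (nat_lit 1013) (nat_lit 183) (nat_lit 1680) (nat_lit 1) .nil)), (nat_lit 7), (nat_lit 29), (nat_lit 26),
 (nat_lit 1), (1, 15, 22), [202, 925], 14⟩,
  ⟨⟨1, -12, 35, -16, -25, -2, 22, -16, -5⟩, (.cons (nat_lit 790) (nat_lit 903) (nat_lit 23) (nat_lit 1) (.cons
 (nat_lit 1013) (nat_lit 183) (nat_lit 1680) (nat_lit 1) .nil)), (nat_lit 7), (nat_lit 29), (nat_lit 26),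
 (nat_lit 1), (1, 15, 22), [202, 925], 14⟩,
  ⟨⟨21, -4, -40, -16, -25, -2, 22, -16, -5⟩, (.cons (nat_lit 83) (nat_lit 703) (nat_lit 330) (nat_lit 1) (.cons
 (nat_lit 1438) (nat_lit 1795) (nat_lit 691) (nat_lit 1) .nil)), (nat_lit 40), (nat_lit 18), (nat_lit 26),
 (nat_lit 1), (21, 15, 22), [306, 538], 14⟩,
  ⟨⟨21, -4, -40, 16, 25, 2, 22, -16, -5⟩, (.cons (nat_lit 528) (nat_lit 151) (nat_lit 120) (nat_lit 1) (.cons
 (nat_lit 1178) (nat_lit 407) (nat_lit 1085) (nat_lit 1) .nil)), (nat_lit 45), (nat_lit 18), (nat_lit 44),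
 (nat_lit 1), (21, 16, 22), [667, 89], 14⟩,
  ⟨⟨21, -4, -40, -16, -25, -2, 22, -16, -5⟩, (.cons (nat_lit 83) (nat_lit 703) (nat_lit 330) (nat_lit 1) (.cons
 (nat_lit 1438) (nat_lit 1795) (nat_lit 691) (nat_lit 1) .nil)), (nat_lit 40), (nat_lit 18), (nat_lit 26),
 (nat_lit 1), (21, 15, 22), [306, 538], 14⟩,
  ⟨⟨1, -12, 35, -16, -25, -2, 22, -16, -5⟩, (.cons (nat_lit 790) (nat_lit 903) (nat_lit 23) (nat_lit 1) (.cons
 (nat_lit 1013) (nat_lit 183) (nat_lit 1680) (nat_lit 1) .nil)), (nat_lit 7), (nat_lit 29), (nat_lit 26),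
 (nat_lit 1), (1, 15, 22), [202, 925], 14⟩,
  ⟨⟨1, -12, 35, -16, -25, -2, 22, -16, -5⟩, (.cons (nat_lit 790) (nat_lit 903) (nat_lit 23) (nat_lit 1) (.cons
 (nat_lit 1013) (nat_lit 183) (nat_lit 1680) (nat_lit 1) .nil)), (nat_lit 7), (nat_lit 29), (nat_lit 26),
 (nat_lit 1), (1, 15, 22), [202, 925], 14⟩,
  ⟨⟨1, -12, 35, -16, -25, -2, 22, -16, -5⟩, (.cons (nat_lit 790) (nat_lit 903) (nat_lit 23) (nat_lit 1) (.cons
 (nat_lit 1013) (nat_lit 183) (nat_lit 1680) (nat_lit 1) .nil)), (nat_lit 7), (nat_lit 29), (nat_lit 26),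
 (nat_lit 1), (1, 15, 22), [202, 925], 14⟩,
  ⟨⟨21, -4, -40, -16, -25, -2, 22, -16, -5⟩, (.cons (nat_lit 83) (nat_lit 703) (nat_lit 330) (nat_lit 1) (.cons
 (nat_lit 1438) (nat_lit 1795) (nat_lit 691) (nat_lit 1) .nil)), (nat_lit 40), (nat_lit 18), (nat_lit 26),
 (nat_lit 1), (21, 15, 22), [306, 538], 14⟩,
  ⟨⟨1, -12, 35, -16, -25, -2, 22, -16, -5⟩, (.cons (nat_lit 790) (nat_lit 903) (nat_lit 23) (nat_lit 1) (.cons
 (nat_lit 1013) (nat_lit 183) (nat_lit 1680) (nat_lit 1) .nil)), (nat_lit 7), (nat_lit 29), (nat_lit 26),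
 (nat_lit 1), (1, 15, 22), [202, 925], 14⟩,
  ⟨⟨1, -12, 35, -16, -25, -2, 22, -16, -5⟩, (.cons (nat_lit 790) (nat_lit 903) (nat_lit 23) (nat_lit 1) (.cons
 (nat_lit 1013) (nat_lit 183) (nat_lit 1680) (nat_lit 1) .nil)), (nat_lit 7), (nat_lit 29), (nat_lit 26),
 (nat_lit 1), (1, 15, 22), [202, 925], 14⟩,
  ⟨⟨1, -12, 35, 16, 25, 2, 22, -16, -5⟩, (.cons (nat_lit 435) (nat_lit 727) (nat_lit 466) (nat_lit 1) (.cons
 (nat_lit 1273) (nat_lit 797) (nat_lit 698) (nat_lit 1) .nil)), (nat_lit 2), (nat_lit 29), (nat_lit 44),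
 (nat_lit 1), (1, 16, 22), [75, 1078], 14⟩,
  ⟨⟨21, -4, -40, -16, -25, -2, 22, -16, -5⟩, (.cons (nat_lit 83) (nat_lit 703) (nat_lit 330) (nat_lit 1) (.cons
 (nat_lit 1438) (nat_lit 1795) (nat_lit 691) (nat_lit 1) .nil)), (nat_lit 40), (nat_lit 18), (nat_lit 26),
 (nat_lit 1), (21, 15, 22), [306, 538], 14⟩,
  ⟨⟨21, -4, -40, 16, 25, 2, 22, -16, -5⟩, (.cons (nat_lit 528) (nat_lit 151) (nat_lit 120) (nat_lit 1) (.cons
 (nat_lit 1178) (nat_lit 407) (nat_lit 1085) (nat_lit 1) .nil)), (nat_lit 45), (nat_lit 18), (nat_lit 44),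
 (nat_lit 1), (21, 16, 22), [667, 89], 14⟩,
  ⟨⟨1, -12, 35, -16, -25, -2, 22, -16, -5⟩, (.cons (nat_lit 790) (nat_lit 903) (nat_lit 23) (nat_lit 1) (.cons
 (nat_lit 1013) (nat_lit 183) (nat_lit 1680) (nat_lit 1) .nil)), (nat_lit 7), (nat_lit 29), (nat_lit 26),
 (nat_lit 1), (1, 15, 22), [202, 925], 14⟩,
  ⟨⟨21, -4, -40, -16, -25, -2, 22, -16, -5⟩, (.cons (nat_lit 83) (nat_lit 703) (nat_lit 330) (nat_lit 1) (.cons
 (nat_lit 1438) (nat_lit 1795) (nat_lit 691) (nat_lit 1) .nil)), (nat_lit 40), (nat_lit 18), (nat_lit 26),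
 (nat_lit 1), (21, 15, 22), [306, 538], 14⟩,
  ⟨⟨21, -4, -40, 16, 25, 2, 22, -16, -5⟩, (.cons (nat_lit 528) (nat_lit 151) (nat_lit 120) (nat_lit 1) (.cons
 (nat_lit 1178) (nat_lit 407) (nat_lit 1085) (nat_lit 1) .nil)), (nat_lit 45), (nat_lit 18), (nat_lit 44),
 (nat_lit 1), (21, 16, 22), [667, 89], 14⟩,
  ⟨⟨1, -12, 35, -16, -25, -2, 22, -16, -5⟩, (.cons (nat_lit 790) (nat_lit 903) (nat_lit 23) (nat_lit 1) (.cons
 (nat_lit 1013) (nat_lit 183) (nat_lit 1680) (nat_lit 1) .nil)), (nat_lit 7), (nat_lit 29), (nat_lit 26),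
 (nat_lit 1), (1, 15, 22), [202, 925], 14⟩,
  ⟨⟨1, -12, 35, -16, -25, -2, 22, -16, -5⟩, (.cons (nat_lit 790) (nat_lit 903) (nat_lit 23) (nat_lit 1) (.cons
 (nat_lit 1013) (nat_lit 183) (nat_lit 1680) (nat_lit 1) .nil)), (nat_lit 7), (nat_lit 29), (nat_lit 26),
 (nat_lit 1), (1, 15, 22), [202, 925], 14⟩,
  ⟨⟨1, -12, 35, -16, -25, -2, 22, -16, -5⟩, (.cons (nat_lit 790) (nat_lit 903) (nat_lit 23) (nat_lit 1) (.cons
 (nat_lit 1013) (nat_lit 183) (nat_lit 1680) (nat_lit 1) .nil)), (nat_lit 7), (nat_lit 29), (nat_lit 26),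
 (nat_lit 1), (1, 15, 22), [202, 925], 14⟩,
  ⟨⟨1, -12, 35, 16, 25, 2, 22, -16, -5⟩, (.cons (nat_lit 435) (nat_lit 727) (nat_lit 466) (nat_lit 1) (.cons
 (nat_lit 1273) (nat_lit 797) (nat_lit 698) (nat_lit 1) .nil)), (nat_lit 2), (nat_lit 29), (nat_lit 44),
 (nat_lit 1), (1, 16, 22), [75, 1078], 14⟩,
  ⟨⟨1, -12, 35, 16, 25, 2, 22, -16, -5⟩, (.cons (nat_lit 435) (nat_lit 727) (nat_lit 466) (nat_lit 1) (.cons
 (nat_lit 1273) (nat_lit 797) (nat_lit 698) (nat_lit 1) .nil)), (nat_lit 2), (nat_lit 29), (nat_lit 44),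
 (nat_lit 1), (1, 16, 22), [75, 1078], 14⟩,
  ⟨⟨1, -12, 35, -16, -25, -2, 22, -16, -5⟩, (.cons (nat_lit 790) (nat_lit 903) (nat_lit 23) (nat_lit 1) (.cons
 (nat_lit 1013) (nat_lit 183) (nat_lit 1680) (nat_lit 1) .nil)), (nat_lit 7), (nat_lit 29), (nat_lit 26),
 (nat_lit 1), (1, 15, 22), [202, 925], 14⟩,
  ⟨⟨21, -4, -40, 16, 25, 2, 22, -16, -5⟩, (.cons (nat_lit 528) (nat_lit 151) (nat_lit 120) (nat_lit 1) (.cons
 (nat_lit 1178) (nat_lit 407) (nat_lit 1085) (nat_lit 1) .nil)), (nat_lit 45), (nat_lit 18), (nat_lit 44),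
 (nat_lit 1), (21, 16, 22), [667, 89], 14⟩,
  ⟨⟨1, -12, 35, -16, -25, -2, 22, -16, -5⟩, (.cons (nat_lit 790) (nat_lit 903) (nat_lit 23) (nat_lit 1) (.cons
 (nat_lit 1013) (nat_lit 183) (nat_lit 1680) (nat_lit 1) .nil)), (nat_lit 7), (nat_lit 29), (nat_lit 26),
 (nat_lit 1), (1, 15, 22), [202, 925], 14⟩,
  ⟨⟨1, -12, 35, -16, -25, -2, 22, -16, -5⟩, (.cons (nat_lit 790) (nat_lit 903) (nat_lit 23) (nat_lit 1) (.cons
 (nat_lit 1013) (nat_lit 183) (nat_lit 1680) (nat_lit 1) .nil)), (nat_lit 7), (nat_lit 29), (nat_lit 26),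
 (nat_lit 1), (1, 15, 22), [202, 925], 14⟩,
  ⟨⟨1, -12, 35, 16, 25, 2, 22, -16, -5⟩, (.cons (nat_lit 435) (nat_lit 727) (nat_lit 466) (nat_lit 1) (.cons
 (nat_lit 1273) (nat_lit 797) (nat_lit 698) (nat_lit 1) .nil)), (nat_lit 2), (nat_lit 29), (nat_lit 44),
 (nat_lit 1), (1, 16, 22), [75, 1078], 14⟩,
  ⟨⟨1, -12, 35, -16, -25, -2, 22, -16, -5⟩, (.cons (nat_lit 790) (nat_lit 903) (nat_lit 23) (nat_lit 1) (.cons
 (nat_lit 1013) (nat_lit 183) (nat_lit 1680) (nat_lit 1) .nil)), (nat_lit 7), (nat_lit 29), (nat_lit 26),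
 (nat_lit 1), (1, 15, 22), [202, 925], 14⟩]

/-- Moves. -/
noncomputable def t0_8 : List Mv := [
  ⟨⟨-31, 0, 0, 10, 19, -30, -4, -20, -19⟩, (.cons (nat_lit 582) (nat_lit 103) (nat_lit 437) (nat_lit 1) (.cons
 (nat_lit 1848) (nat_lit 50) (nat_lit 938) (nat_lit 1) .nil)), (nat_lit 46), (nat_lit 9), (nat_lit 19),
 (nat_lit 1), (0, 5, 29), [738, 1232], 26⟩,
  ⟨⟨-31, 0, 0, -10, -19, 30, -4, -20, -19⟩, (.cons (nat_lit 455) (nat_lit 880) (nat_lit 531) (nat_lit 1) (.cons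
 (nat_lit 921) (nat_lit 675) (nat_lit 1038) (nat_lit 1) .nil)), (nat_lit 26), (nat_lit 36), (nat_lit 26),
 (nat_lit 1), (0, 26, 29), [740, 980], 10⟩,
  ⟨⟨-31, 0, 0, -10, -19, 30, -4, -20, -19⟩, (.cons (nat_lit 455) (nat_lit 880) (nat_lit 531) (nat_lit 1) (.cons
 (nat_lit 921) (nat_lit 675) (nat_lit 1038) (nat_lit 1) .nil)), (nat_lit 26), (nat_lit 36), (nat_lit 26),
 (nat_lit 1), (0, 26, 29), [740, 980], 10⟩,
  ⟨⟨-31, 0, 0, -10, -19, 30, -4, -20, -19⟩, (.cons (nat_lit 455) (nat_lit 880) (nat_lit 531) (nat_lit 1) (.cons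
 (nat_lit 921) (nat_lit 675) (nat_lit 1038) (nat_lit 1) .nil)), (nat_lit 26), (nat_lit 36), (nat_lit 26),
 (nat_lit 1), (0, 26, 29), [740, 980], 10⟩,
  ⟨⟨-31, 0, 0, 10, 19, -30, -4, -20, -19⟩, (.cons (nat_lit 582) (nat_lit 103) (nat_lit 437) (nat_lit 1) (.cons
 (nat_lit 1848) (nat_lit 50) (nat_lit 938) (nat_lit 1) .nil)), (nat_lit 46), (nat_lit 9), (nat_lit 19),
 (nat_lit 1), (0, 5, 29), [738, 1232], 26⟩,
  ⟨⟨-31, 0, 0, 10, 19, -30, -4, -20, -19⟩, (.cons (nat_lit 582) (nat_lit 103) (nat_lit 437) (nat_lit 1) (.cons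
 (nat_lit 1848) (nat_lit 50) (nat_lit 938) (nat_lit 1) .nil)), (nat_lit 46), (nat_lit 9), (nat_lit 19),
 (nat_lit 1), (0, 5, 29), [738, 1232], 26⟩,
  ⟨⟨-31, 0, 0, -10, -19, 30, -4, -20, -19⟩, (.cons (nat_lit 455) (nat_lit 880) (nat_lit 531) (nat_lit 1) (.cons
 (nat_lit 921) (nat_lit 675) (nat_lit 1038) (nat_lit 1) .nil)), (nat_lit 26), (nat_lit 36), (nat_lit 26),
 (nat_lit 1), (0, 26, 29), [740, 980], 10⟩,
  ⟨⟨27, -20, -19, 10, 19, -30, -4, -20, -19⟩, (.cons (nat_lit 67) (nat_lit 474) (nat_lit 645) (nat_lit 1)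
 (.cons (nat_lit 1) (nat_lit 1412) (nat_lit 1024) (nat_lit 1) .nil)), (nat_lit 1), (nat_lit 38), (nat_lit 19),
 (nat_lit 1), (29, 5, 29), [65, 888], 26⟩,
  ⟨⟨27, -20, -19, -10, -19, 30, -4, -20, -19⟩, (.cons (nat_lit 268) (nat_lit 606) (nat_lit 796) (nat_lit 1)
 (.cons (nat_lit 369) (nat_lit 1647) (nat_lit 1726) (nat_lit 1) .nil)), (nat_lit 21), (nat_lit 11), (nat_lit
 26), (nat_lit 1), (29, 26, 29), [314, 1152], 10⟩,
  ⟨⟨27, -20, -19, 10, 19, -30, -4, -20, -19⟩, (.cons (nat_lit 67) (nat_lit 474) (nat_lit 645) (nat_lit 1)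
 (.cons (nat_lit 1) (nat_lit 1412) (nat_lit 1024) (nat_lit 1) .nil)), (nat_lit 1), (nat_lit 38), (nat_lit 19),
 (nat_lit 1), (29, 5, 29), [65, 888], 26⟩,
  ⟨⟨-31, 0, 0, 10, 19, -30, -4, -20, -19⟩, (.cons (nat_lit 582) (nat_lit 103) (nat_lit 437) (nat_lit 1) (.cons
 (nat_lit 1848) (nat_lit 50) (nat_lit 938) (nat_lit 1) .nil)), (nat_lit 46), (nat_lit 9), (nat_lit 19),
 (nat_lit 1), (0, 5, 29), [738, 1232], 26⟩,
  ⟨⟨-31, 0, 0, 10, 19, -30, -4, -20, -19⟩, (.cons (nat_lit 582) (nat_lit 103) (nat_lit 437) (nat_lit 1) (.cons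
 (nat_lit 1848) (nat_lit 50) (nat_lit 938) (nat_lit 1) .nil)), (nat_lit 46), (nat_lit 9), (nat_lit 19),
 (nat_lit 1), (0, 5, 29), [738, 1232], 26⟩,
  ⟨⟨27, -20, -19, -10, -19, 30, -4, -20, -19⟩, (.cons (nat_lit 268) (nat_lit 606) (nat_lit 796) (nat_lit 1)
 (.cons (nat_lit 369) (nat_lit 1647) (nat_lit 1726) (nat_lit 1) .nil)), (nat_lit 21), (nat_lit 11), (nat_lit
 26), (nat_lit 1), (29, 26, 29), [314, 1152], 10⟩,
  ⟨⟨27, -20, -19, -10, -19, 30, -4, -20, -19⟩, (.cons (nat_lit 268) (nat_lit 606) (nat_lit 796) (nat_lit 1)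
 (.cons (nat_lit 369) (nat_lit 1647) (nat_lit 1726) (nat_lit 1) .nil)), (nat_lit 21), (nat_lit 11), (nat_lit
 26), (nat_lit 1), (29, 26, 29), [314, 1152], 10⟩,
  ⟨⟨-31, 0, 0, 10, 19, -30, -4, -20, -19⟩, (.cons (nat_lit 582) (nat_lit 103) (nat_lit 437) (nat_lit 1) (.cons
 (nat_lit 1848) (nat_lit 50) (nat_lit 938) (nat_lit 1) .nil)), (nat_lit 46), (nat_lit 9), (nat_lit 19),
 (nat_lit 1), (0, 5, 29), [738, 1232], 26⟩,
  ⟨⟨-31, 0, 0, 10, 19, -30, -4, -20, -19⟩, (.cons (nat_lit 582) (nat_lit 103) (nat_lit 437) (nat_lit 1) (.cons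
 (nat_lit 1848) (nat_lit 50) (nat_lit 938) (nat_lit 1) .nil)), (nat_lit 46), (nat_lit 9), (nat_lit 19),
 (nat_lit 1), (0, 5, 29), [738, 1232], 26⟩,
  ⟨⟨27, -20, -19, -10, -19, 30, -4, -20, -19⟩, (.cons (nat_lit 268) (nat_lit 606) (nat_lit 796) (nat_lit 1)
 (.cons (nat_lit 369) (nat_lit 1647) (nat_lit 1726) (nat_lit 1) .nil)), (nat_lit 21), (nat_lit 11), (nat_lit
 26), (nat_lit 1), (29, 26, 29), [314, 1152], 10⟩,
  ⟨⟨-31, 0, 0, -10, -19, 30, -4, -20, -19⟩, (.cons (nat_lit 455) (nat_lit 880) (nat_lit 531) (nat_lit 1) (.cons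
 (nat_lit 921) (nat_lit 675) (nat_lit 1038) (nat_lit 1) .nil)), (nat_lit 26), (nat_lit 36), (nat_lit 26),
 (nat_lit 1), (0, 26, 29), [740, 980], 10⟩,
  ⟨⟨27, -20, -19, 10, 19, -30, -4, -20, -19⟩, (.cons (nat_lit 67) (nat_lit 474) (nat_lit 645) (nat_lit 1)
 (.cons (nat_lit 1) (nat_lit 1412) (nat_lit 1024) (nat_lit 1) .nil)), (nat_lit 1), (nat_lit 38), (nat_lit 19),
 (nat_lit 1), (29, 5, 29), [65, 888], 26⟩,
  ⟨⟨27, -20, -19, 10, 19, -30, -4, -20, -19⟩, (.cons (nat_lit 67) (nat_lit 474) (nat_lit 645) (nat_lit 1)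
 (.cons (nat_lit 1) (nat_lit 1412) (nat_lit 1024) (nat_lit 1) .nil)), (nat_lit 1), (nat_lit 38), (nat_lit 19),
 (nat_lit 1), (29, 5, 29), [65, 888], 26⟩,
  ⟨⟨-31, 0, 0, 10, 19, -30, -4, -20, -19⟩, (.cons (nat_lit 582) (nat_lit 103) (nat_lit 437) (nat_lit 1) (.cons
 (nat_lit 1848) (nat_lit 50) (nat_lit 938) (nat_lit 1) .nil)), (nat_lit 46), (nat_lit 9), (nat_lit 19),
 (nat_lit 1), (0, 5, 29), [738, 1232], 26⟩,
  ⟨⟨-31, 0, 0, 10, 19, -30, -4, -20, -19⟩, (.cons (nat_lit 582) (nat_lit 103) (nat_lit 437) (nat_lit 1) (.cons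
 (nat_lit 1848) (nat_lit 50) (nat_lit 938) (nat_lit 1) .nil)), (nat_lit 46), (nat_lit 9), (nat_lit 19),
 (nat_lit 1), (0, 5, 29), [738, 1232], 26⟩,
  ⟨⟨27, -20, -19, -10, -19, 30, -4, -20, -19⟩, (.cons (nat_lit 268) (nat_lit 606) (nat_lit 796) (nat_lit 1)
 (.cons (nat_lit 369) (nat_lit 1647) (nat_lit 1726) (nat_lit 1) .nil)), (nat_lit 21), (nat_lit 11), (nat_lit
 26), (nat_lit 1), (29, 26, 29), [314, 1152], 10⟩,
  ⟨⟨-31, 0, 0, 10, 19, -30, -4, -20, -19⟩, (.cons (nat_lit 582) (nat_lit 103) (nat_lit 437) (nat_lit 1) (.cons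
 (nat_lit 1848) (nat_lit 50) (nat_lit 938) (nat_lit 1) .nil)), (nat_lit 46), (nat_lit 9), (nat_lit 19),
 (nat_lit 1), (0, 5, 29), [738, 1232], 26⟩,
  ⟨⟨-31, 0, 0, 10, 19, -30, -4, -20, -19⟩, (.cons (nat_lit 582) (nat_lit 103) (nat_lit 437) (nat_lit 1) (.cons
 (nat_lit 1848) (nat_lit 50) (nat_lit 938) (nat_lit 1) .nil)), (nat_lit 46), (nat_lit 9), (nat_lit 19),
 (nat_lit 1), (0, 5, 29), [738, 1232], 26⟩,
  ⟨⟨-31, 0, 0, 10, 19, -30, -4, -20, -19⟩, (.cons (nat_lit 582) (nat_lit 103) (nat_lit 437) (nat_lit 1) (.cons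
 (nat_lit 1848) (nat_lit 50) (nat_lit 938) (nat_lit 1) .nil)), (nat_lit 46), (nat_lit 9), (nat_lit 19),
 (nat_lit 1), (0, 5, 29), [738, 1232], 26⟩,
  ⟨⟨-31, 0, 0, 10, 19, -30, -4, -20, -19⟩, (.cons (nat_lit 582) (nat_lit 103) (nat_lit 437) (nat_lit 1) (.cons
 (nat_lit 1848) (nat_lit 50) (nat_lit 938) (nat_lit 1) .nil)), (nat_lit 46), (nat_lit 9), (nat_lit 19),
 (nat_lit 1), (0, 5, 29), [738, 1232], 26⟩,
  ⟨⟨-31, 0, 0, 10, 19, -30, -4, -20, -19⟩, (.cons (nat_lit 582) (nat_lit 103) (nat_lit 437) (nat_lit 1) (.cons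
 (nat_lit 1848) (nat_lit 50) (nat_lit 938) (nat_lit 1) .nil)), (nat_lit 46), (nat_lit 9), (nat_lit 19),
 (nat_lit 1), (0, 5, 29), [738, 1232], 26⟩,
  ⟨⟨-31, 0, 0, 10, 19, -30, -4, -20, -19⟩, (.cons (nat_lit 582) (nat_lit 103) (nat_lit 437) (nat_lit 1) (.cons
 (nat_lit 1848) (nat_lit 50) (nat_lit 938) (nat_lit 1) .nil)), (nat_lit 46), (nat_lit 9), (nat_lit 19),
 (nat_lit 1), (0, 5, 29), [738, 1232], 26⟩,
  ⟨⟨27, -20, -19, 10, 19, -30, -4, -20, -19⟩, (.cons (nat_lit 67) (nat_lit 474) (nat_lit 645) (nat_lit 1)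
 (.cons (nat_lit 1) (nat_lit 1412) (nat_lit 1024) (nat_lit 1) .nil)), (nat_lit 1), (nat_lit 38), (nat_lit 19),
 (nat_lit 1), (29, 5, 29), [65, 888], 26⟩,
  ⟨⟨-31, 0, 0, 10, 19, -30, -4, -20, -19⟩, (.cons (nat_lit 582) (nat_lit 103) (nat_lit 437) (nat_lit 1) (.cons
 (nat_lit 1848) (nat_lit 50) (nat_lit 938) (nat_lit 1) .nil)), (nat_lit 46), (nat_lit 9), (nat_lit 19),
 (nat_lit 1), (0, 5, 29), [738, 1232], 26⟩]

/-- Moves. -/
noncomputable def t0_19 : List Mv := [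
  ⟨⟨-9, 8, -31, -10, -29, 0, 20, -4, -31⟩, (.cons (nat_lit 501) (nat_lit 320) (nat_lit 659) (nat_lit 1) (.cons
 (nat_lit 1678) (nat_lit 665) (nat_lit 167) (nat_lit 1) .nil)), (nat_lit 1), (nat_lit 35), (nat_lit 16),
 (nat_lit 1), (2, 16, 30), [881, 1470], 33⟩,
  ⟨⟨-9, 8, -31, -10, -29, 0, 20, -4, -31⟩, (.cons (nat_lit 501) (nat_lit 320) (nat_lit 659) (nat_lit 1) (.cons
 (nat_lit 1678) (nat_lit 665) (nat_lit 167) (nat_lit 1) .nil)), (nat_lit 1), (nat_lit 35), (nat_lit 16),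
 (nat_lit 1), (2, 16, 30), [881, 1470], 33⟩,
  ⟨⟨-9, 8, -31, -10, -29, 0, 20, -4, -31⟩, (.cons (nat_lit 501) (nat_lit 320) (nat_lit 659) (nat_lit 1) (.cons
 (nat_lit 1678) (nat_lit 665) (nat_lit 167) (nat_lit 1) .nil)), (nat_lit 1), (nat_lit 35), (nat_lit 16),
 (nat_lit 1), (2, 16, 30), [881, 1470], 33⟩,
  ⟨⟨-9, 8, -31, -10, -29, 0, 20, -4, -31⟩, (.cons (nat_lit 501) (nat_lit 320) (nat_lit 659) (nat_lit 1) (.cons
 (nat_lit 1678) (nat_lit 665) (nat_lit 167) (nat_lit 1) .nil)), (nat_lit 1), (nat_lit 35), (nat_lit 16),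
 (nat_lit 1), (2, 16, 30), [881, 1470], 33⟩,
  ⟨⟨29, -12, 0, 10, 29, 0, 20, -4, -31⟩, (.cons (nat_lit 539) (nat_lit 141) (nat_lit 791) (nat_lit 1) (.cons
 (nat_lit 1192) (nat_lit 226) (nat_lit 1791) (nat_lit 1) .nil)), (nat_lit 9), (nat_lit 27), (nat_lit 43),
 (nat_lit 1), (28, 15, 30), [477, 460], 39⟩,
  ⟨⟨-9, 8, -31, -10, -29, 0, 20, -4, -31⟩, (.cons (nat_lit 501) (nat_lit 320) (nat_lit 659) (nat_lit 1) (.cons
 (nat_lit 1678) (nat_lit 665) (nat_lit 167) (nat_lit 1) .nil)), (nat_lit 1), (nat_lit 35), (nat_lit 16),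
 (nat_lit 1), (2, 16, 30), [881, 1470], 33⟩,
  ⟨⟨-9, 8, -31, -10, -29, 0, 20, -4, -31⟩, (.cons (nat_lit 501) (nat_lit 320) (nat_lit 659) (nat_lit 1) (.cons
 (nat_lit 1678) (nat_lit 665) (nat_lit 167) (nat_lit 1) .nil)), (nat_lit 1), (nat_lit 35), (nat_lit 16),
 (nat_lit 1), (2, 16, 30), [881, 1470], 33⟩,
  ⟨⟨29, -12, 0, 10, 29, 0, 20, -4, -31⟩, (.cons (nat_lit 539) (nat_lit 141) (nat_lit 791) (nat_lit 1) (.cons
 (nat_lit 1192) (nat_lit 226) (nat_lit 1791) (nat_lit 1) .nil)), (nat_lit 9), (nat_lit 27), (nat_lit 43),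
 (nat_lit 1), (28, 15, 30), [477, 460], 39⟩,
  ⟨⟨29, -12, 0, 10, 29, 0, 20, -4, -31⟩, (.cons (nat_lit 539) (nat_lit 141) (nat_lit 791) (nat_lit 1) (.cons
 (nat_lit 1192) (nat_lit 226) (nat_lit 1791) (nat_lit 1) .nil)), (nat_lit 9), (nat_lit 27), (nat_lit 43),
 (nat_lit 1), (28, 15, 30), [477, 460], 39⟩,
  ⟨⟨-9, 8, -31, -10, -29, 0, 20, -4, -31⟩, (.cons (nat_lit 501) (nat_lit 320) (nat_lit 659) (nat_lit 1) (.cons
 (nat_lit 1678) (nat_lit 665) (nat_lit 167) (nat_lit 1) .nil)), (nat_lit 1), (nat_lit 35), (nat_lit 16),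
 (nat_lit 1), (2, 16, 30), [881, 1470], 33⟩,
  ⟨⟨-9, 8, -31, 10, 29, 0, 20, -4, -31⟩, (.cons (nat_lit 792) (nat_lit 415) (nat_lit 687) (nat_lit 1) (.cons
 (nat_lit 614) (nat_lit 1752) (nat_lit 114) (nat_lit 1) .nil)), (nat_lit 38), (nat_lit 20), (nat_lit 43),
 (nat_lit 1), (2, 15, 30), [143, 1277], 39⟩,
  ⟨⟨-9, 8, -31, -10, -29, 0, 20, -4, -31⟩, (.cons (nat_lit 501) (nat_lit 320) (nat_lit 659) (nat_lit 1) (.cons
 (nat_lit 1678) (nat_lit 665) (nat_lit 167) (nat_lit 1) .nil)), (nat_lit 1), (nat_lit 35), (nat_lit 16),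
 (nat_lit 1), (2, 16, 30), [881, 1470], 33⟩,
  ⟨⟨-9, 8, -31, 10, 29, 0, 20, -4, -31⟩, (.cons (nat_lit 792) (nat_lit 415) (nat_lit 687) (nat_lit 1) (.cons
 (nat_lit 614) (nat_lit 1752) (nat_lit 114) (nat_lit 1) .nil)), (nat_lit 38), (nat_lit 20), (nat_lit 43),
 (nat_lit 1), (2, 15, 30), [143, 1277], 39⟩,
  ⟨⟨-9, 8, -31, 10, 29, 0, 20, -4, -31⟩, (.cons (nat_lit 792) (nat_lit 415) (nat_lit 687) (nat_lit 1) (.cons
 (nat_lit 614) (nat_lit 1752) (nat_lit 114) (nat_lit 1) .nil)), (nat_lit 38), (nat_lit 20), (nat_lit 43),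
 (nat_lit 1), (2, 15, 30), [143, 1277], 39⟩,
  ⟨⟨-9, 8, -31, -10, -29, 0, 20, -4, -31⟩, (.cons (nat_lit 501) (nat_lit 320) (nat_lit 659) (nat_lit 1) (.cons
 (nat_lit 1678) (nat_lit 665) (nat_lit 167) (nat_lit 1) .nil)), (nat_lit 1), (nat_lit 35), (nat_lit 16),
 (nat_lit 1), (2, 16, 30), [881, 1470], 33⟩,
  ⟨⟨-9, 8, -31, 10, 29, 0, 20, -4, -31⟩, (.cons (nat_lit 792) (nat_lit 415) (nat_lit 687) (nat_lit 1) (.cons
 (nat_lit 614) (nat_lit 1752) (nat_lit 114) (nat_lit 1) .nil)), (nat_lit 38), (nat_lit 20), (nat_lit 43),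
 (nat_lit 1), (2, 15, 30), [143, 1277], 39⟩,
  ⟨⟨29, -12, 0, 10, 29, 0, 20, -4, -31⟩, (.cons (nat_lit 539) (nat_lit 141) (nat_lit 791) (nat_lit 1) (.cons
 (nat_lit 1192) (nat_lit 226) (nat_lit 1791) (nat_lit 1) .nil)), (nat_lit 9), (nat_lit 27), (nat_lit 43),
 (nat_lit 1), (28, 15, 30), [477, 460], 39⟩,
  ⟨⟨-9, 8, -31, 10, 29, 0, 20, -4, -31⟩, (.cons (nat_lit 792) (nat_lit 415) (nat_lit 687) (nat_lit 1) (.cons
 (nat_lit 614) (nat_lit 1752) (nat_lit 114) (nat_lit 1) .nil)), (nat_lit 38), (nat_lit 20), (nat_lit 43),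
 (nat_lit 1), (2, 15, 30), [143, 1277], 39⟩,
  ⟨⟨29, -12, 0, -10, -29, 0, 20, -4, -31⟩, (.cons (nat_lit 417) (nat_lit 102) (nat_lit 934) (nat_lit 1) (.cons
 (nat_lit 1848) (nat_lit 539) (nat_lit 1199) (nat_lit 1) .nil)), (nat_lit 46), (nat_lit 12), (nat_lit 16),
 (nat_lit 1), (28, 16, 30), [288, 1642], 33⟩,
  ⟨⟨29, -12, 0, -10, -29, 0, 20, -4, -31⟩, (.cons (nat_lit 417) (nat_lit 102) (nat_lit 934) (nat_lit 1) (.cons
 (nat_lit 1848) (nat_lit 539) (nat_lit 1199) (nat_lit 1) .nil)), (nat_lit 46), (nat_lit 12), (nat_lit 16),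
 (nat_lit 1), (28, 16, 30), [288, 1642], 33⟩,
  ⟨⟨-9, 8, -31, -10, -29, 0, 20, -4, -31⟩, (.cons (nat_lit 501) (nat_lit 320) (nat_lit 659) (nat_lit 1) (.cons
 (nat_lit 1678) (nat_lit 665) (nat_lit 167) (nat_lit 1) .nil)), (nat_lit 1), (nat_lit 35), (nat_lit 16),
 (nat_lit 1), (2, 16, 30), [881, 1470], 33⟩,
  ⟨⟨-9, 8, -31, -10, -29, 0, 20, -4, -31⟩, (.cons (nat_lit 501) (nat_lit 320) (nat_lit 659) (nat_lit 1) (.cons
 (nat_lit 1678) (nat_lit 665) (nat_lit 167) (nat_lit 1) .nil)), (nat_lit 1), (nat_lit 35), (nat_lit 16),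
 (nat_lit 1), (2, 16, 30), [881, 1470], 33⟩,
  ⟨⟨29, -12, 0, -10, -29, 0, 20, -4, -31⟩, (.cons (nat_lit 417) (nat_lit 102) (nat_lit 934) (nat_lit 1) (.cons
 (nat_lit 1848) (nat_lit 539) (nat_lit 1199) (nat_lit 1) .nil)), (nat_lit 46), (nat_lit 12), (nat_lit 16),
 (nat_lit 1), (28, 16, 30), [288, 1642], 33⟩,
  ⟨⟨-9, 8, -31, -10, -29, 0, 20, -4, -31⟩, (.cons (nat_lit 501) (nat_lit 320) (nat_lit 659) (nat_lit 1) (.cons
 (nat_lit 1678) (nat_lit 665) (nat_lit 167) (nat_lit 1) .nil)), (nat_lit 1), (nat_lit 35), (nat_lit 16),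
 (nat_lit 1), (2, 16, 30), [881, 1470], 33⟩,
  ⟨⟨29, -12, 0, -10, -29, 0, 20, -4, -31⟩, (.cons (nat_lit 417) (nat_lit 102) (nat_lit 934) (nat_lit 1) (.cons
 (nat_lit 1848) (nat_lit 539) (nat_lit 1199) (nat_lit 1) .nil)), (nat_lit 46), (nat_lit 12), (nat_lit 16),
 (nat_lit 1), (28, 16, 30), [288, 1642], 33⟩,
  ⟨⟨-9, 8, -31, -10, -29, 0, 20, -4, -31⟩, (.cons (nat_lit 501) (nat_lit 320) (nat_lit 659) (nat_lit 1) (.cons
 (nat_lit 1678) (nat_lit 665) (nat_lit 167) (nat_lit 1) .nil)), (nat_lit 1), (nat_lit 35), (nat_lit 16),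
 (nat_lit 1), (2, 16, 30), [881, 1470], 33⟩,
  ⟨⟨29, -12, 0, 10, 29, 0, 20, -4, -31⟩, (.cons (nat_lit 539) (nat_lit 141) (nat_lit 791) (nat_lit 1) (.cons
 (nat_lit 1192) (nat_lit 226) (nat_lit 1791) (nat_lit 1) .nil)), (nat_lit 9), (nat_lit 27), (nat_lit 43),
 (nat_lit 1), (28, 15, 30), [477, 460], 39⟩,
  ⟨⟨-9, 8, -31, -10, -29, 0, 20, -4, -31⟩, (.cons (nat_lit 501) (nat_lit 320) (nat_lit 659) (nat_lit 1) (.cons
 (nat_lit 1678) (nat_lit 665) (nat_lit 167) (nat_lit 1) .nil)), (nat_lit 1), (nat_lit 35), (nat_lit 16),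
 (nat_lit 1), (2, 16, 30), [881, 1470], 33⟩,
  ⟨⟨-9, 8, -31, -10, -29, 0, 20, -4, -31⟩, (.cons (nat_lit 501) (nat_lit 320) (nat_lit 659) (nat_lit 1) (.cons
 (nat_lit 1678) (nat_lit 665) (nat_lit 167) (nat_lit 1) .nil)), (nat_lit 1), (nat_lit 35), (nat_lit 16),
 (nat_lit 1), (2, 16, 30), [881, 1470], 33⟩,
  ⟨⟨-9, 8, -31, -10, -29, 0, 20, -4, -31⟩, (.cons (nat_lit 501) (nat_lit 320) (nat_lit 659) (nat_lit 1) (.cons
 (nat_lit 1678) (nat_lit 665) (nat_lit 167) (nat_lit 1) .nil)), (nat_lit 1), (nat_lit 35), (nat_lit 16),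
 (nat_lit 1), (2, 16, 30), [881, 1470], 33⟩,
  ⟨⟨-9, 8, -31, -10, -29, 0, 20, -4, -31⟩, (.cons (nat_lit 501) (nat_lit 320) (nat_lit 659) (nat_lit 1) (.cons
 (nat_lit 1678) (nat_lit 665) (nat_lit 167) (nat_lit 1) .nil)), (nat_lit 1), (nat_lit 35), (nat_lit 16),
 (nat_lit 1), (2, 16, 30), [881, 1470], 33⟩]

/-- Moves. -/
noncomputable def t1_1 : List Mv := [
  mz,
  ⟨⟨33, -32, -5, -2, -15, -44, 36, 12, -25⟩, (.cons (nat_lit 532) (nat_lit 44) (nat_lit 815) (nat_lit 1) (.cons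
 (nat_lit 1531) (nat_lit 1593) (nat_lit 1327) (nat_lit 1) .nil)), (nat_lit 10), (nat_lit 25), (nat_lit 40),
 (nat_lit 1), (9, 19, 2), [237, 1027], 12⟩,
  mz,
  mz,
  ⟨⟨19, 36, -36, -20, -13, -30, 34, -8, -35⟩, (.cons (nat_lit 393) (nat_lit 200) (nat_lit 615) (nat_lit 1)
 (.cons (nat_lit 749) (nat_lit 1193) (nat_lit 216) (nat_lit 1) .nil)), (nat_lit 45), (nat_lit 38), (nat_lit
 33), (nat_lit 1), (14, 26, 16), [55, 1777], 5⟩,
  ⟨⟨3, 44, 17, -2, -15, 46, 36, 12, -11⟩, (.cons (nat_lit 624) (nat_lit 21) (nat_lit 525) (nat_lit 1) (.cons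
 (nat_lit 761) (nat_lit 1690) (nat_lit 685) (nat_lit 1) .nil)), (nat_lit 41), (nat_lit 35), (nat_lit 4),
 (nat_lit 1), (33, 21, 9), [583, 585], 20⟩,
  ⟨⟨39, 16, -43, -20, 37, 0, 2, -8, -43⟩, (.cons (nat_lit 198) (nat_lit 528) (nat_lit 330) (nat_lit 1) (.cons
 (nat_lit 717) (nat_lit 872) (nat_lit 848) (nat_lit 1) .nil)), (nat_lit 1), (nat_lit 23), (nat_lit 23),
 (nat_lit 1), (35, 3, 4), [499, 988], 3⟩,
  ⟨⟨33, 8, -53, -20, -27, -20, 30, -24, -13⟩, (.cons (nat_lit 844) (nat_lit 766) (nat_lit 619) (nat_lit 1)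
 (.cons (nat_lit 1484) (nat_lit 81) (nat_lit 949) (nat_lit 1) .nil)), (nat_lit 1), (nat_lit 45), (nat_lit 36),
 (nat_lit 1), (32, 21, 33), [272, 1425], 10⟩,
  ⟨⟨-39, -16, -4, 20, -37, -20, -2, 8, -41⟩, (.cons (nat_lit 282) (nat_lit 788) (nat_lit 251) (nat_lit 1)
 (.cons (nat_lit 962) (nat_lit 777) (nat_lit 1488) (nat_lit 1) .nil)), (nat_lit 19), (nat_lit 45), (nat_lit 9),
 (nat_lit 1), (6, 30, 40), [401, 1438], 7⟩,
  ⟨⟨-29, 0, -27, 0, -43, 0, 18, 0, -47⟩, (.cons (nat_lit 745) (nat_lit 605) (nat_lit 1) (nat_lit 248) (.cons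
 (nat_lit 988) (nat_lit 244) (nat_lit 1529) (nat_lit 1) .nil)), (nat_lit 1), (nat_lit 11), (nat_lit 26),
 (nat_lit 1), (33, 0, 24), [936, 439], 35⟩,
  ⟨⟨21, -20, 31, 38, 15, -34, 12, -36, -13⟩, (.cons (nat_lit 887) (nat_lit 515) (nat_lit 1) (nat_lit 155)
 (.cons (nat_lit 1841) (nat_lit 1697) (nat_lit 681) (nat_lit 1) .nil)), (nat_lit 39), (nat_lit 2), (nat_lit
 15), (nat_lit 1), (8, 37, 23), [259, 40], 36⟩,
  mz,
  ⟨⟨-19, -36, -17, 20, 13, -50, -34, 8, -1⟩, (.cons (nat_lit 855) (nat_lit 436) (nat_lit 453) (nat_lit 1)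
 (.cons (nat_lit 754) (nat_lit 1541) (nat_lit 147) (nat_lit 1) .nil)), (nat_lit 29), (nat_lit 27), (nat_lit 2),
 (nat_lit 1), (24, 20, 9), [240, 195], 41⟩,
  ⟨⟨33, 8, 20, 20, 27, -40, 30, -24, -17⟩, (.cons (nat_lit 960) (nat_lit 887) (nat_lit 699) (nat_lit 1) (.cons
 (nat_lit 290) (nat_lit 1037) (nat_lit 879) (nat_lit 1) .nil)), (nat_lit 46), (nat_lit 8), (nat_lit 9),
 (nat_lit 1), (4, 35, 31), [540, 1525], 37⟩,
  mz,
  mz,
  mz,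
  ⟨⟨9, -4, -56, -40, 13, 10, 14, 32, -25⟩, (.cons (nat_lit 524) (nat_lit 132) (nat_lit 8) (nat_lit 1) (.cons
 (nat_lit 536) (nat_lit 1540) (nat_lit 1500) (nat_lit 1) .nil)), (nat_lit 18), (nat_lit 10), (nat_lit 4),
 (nat_lit 1), (19, 35, 20), [188, 1786], 41⟩,
  ⟨⟨-9, 4, -47, -40, 13, 30, -14, -32, -11⟩, (.cons (nat_lit 825) (nat_lit 675) (nat_lit 104) (nat_lit 1)
 (.cons (nat_lit 1592) (nat_lit 1062) (nat_lit 1523) (nat_lit 1) .nil)), (nat_lit 13), (nat_lit 25), (nat_lit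
 21), (nat_lit 1), (37, 2, 5), [181, 1657], 20⟩,
  mz,
  mz,
  ⟨⟨21, 20, 31, -38, 15, 34, 12, 36, -13⟩, (.cons (nat_lit 97) (nat_lit 774) (nat_lit 631) (nat_lit 1) (.cons
 (nat_lit 658) (nat_lit 343) (nat_lit 701) (nat_lit 1) .nil)), (nat_lit 41), (nat_lit 27), (nat_lit 40),
 (nat_lit 1), (12, 9, 13), [843, 1264], 27⟩,
  ⟨⟨-21, 20, 52, 38, 15, -4, -12, 36, -1⟩, (.cons (nat_lit 934) (nat_lit 489) (nat_lit 442) (nat_lit 1) (.cons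
 (nat_lit 59) (nat_lit 1353) (nat_lit 1392) (nat_lit 1) .nil)), (nat_lit 6), (nat_lit 27), (nat_lit 7),
 (nat_lit 1), (12, 9, 13), [658, 814], 27⟩,
  mz,
  mz,
  ⟨⟨5, -36, 31, 40, 13, -10, 14, -32, -25⟩, (.cons (nat_lit 426) (nat_lit 137) (nat_lit 616) (nat_lit 1) (.cons
 (nat_lit 517) (nat_lit 1690) (nat_lit 283) (nat_lit 1) .nil)), (nat_lit 13), (nat_lit 22), (nat_lit 26),
 (nat_lit 1), (11, 2, 5), [61, 711], 20⟩,
  ⟨⟨-5, 36, 36, 40, 13, -30, -14, 32, -11⟩, (.cons (nat_lit 333) (nat_lit 404) (nat_lit 650) (nat_lit 1) (.cons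
 (nat_lit 1289) (nat_lit 967) (nat_lit 677) (nat_lit 1) .nil)), (nat_lit 18), (nat_lit 37), (nat_lit 43),
 (nat_lit 1), (1, 35, 20), [815, 1176], 41⟩,
  mz,
  mz,
  mz,
  ⟨⟨33, -8, -53, 20, -27, 20, 30, 24, -13⟩, (.cons (nat_lit 69) (nat_lit 883) (nat_lit 509) (nat_lit 1) (.cons
 (nat_lit 1578) (nat_lit 1332) (nat_lit 1289) (nat_lit 1) .nil)), (nat_lit 1), (nat_lit 8), (nat_lit 38),
 (nat_lit 1), (39, 8, 12), [427, 1347], 10⟩,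
  ⟨⟨19, -36, -36, -20, 13, -30, 34, 8, -35⟩, (.cons (nat_lit 772) (nat_lit 314) (nat_lit 698) (nat_lit 1)
 (.cons (nat_lit 732) (nat_lit 1769) (nat_lit 1001) (nat_lit 1) .nil)), (nat_lit 18), (nat_lit 27), (nat_lit
 45), (nat_lit 1), (24, 20, 9), [653, 1305], 41⟩,
  mz,
  ⟨⟨-21, -20, 52, 38, -15, -4, -12, -36, -1⟩, (.cons (nat_lit 282) (nat_lit 564) (nat_lit 493) (nat_lit 1)
 (.cons (nat_lit 269) (nat_lit 445) (nat_lit 1731) (nat_lit 1) .nil)), (nat_lit 14), (nat_lit 21), (nat_lit 4),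
 (nat_lit 1), (8, 6, 23), [802, 842], 2⟩,
  ⟨⟨-47, 0, 27, 0, -43, 0, -18, 0, -29⟩, (.cons (nat_lit 248) (nat_lit 728) (nat_lit 743) (nat_lit 1) (.cons
 (nat_lit 203) (nat_lit 1746) (nat_lit 787) (nat_lit 1) .nil)), (nat_lit 1), (nat_lit 36), (nat_lit 21),
 (nat_lit 1), (34, 0, 24), [657, 92], 35⟩,
  ⟨⟨-37, 24, 0, 20, 37, 0, 2, 8, -43⟩, (.cons (nat_lit 960) (nat_lit 908) (nat_lit 889) (nat_lit 1) (.cons
 (nat_lit 240) (nat_lit 772) (nat_lit 959) (nat_lit 1) .nil)), (nat_lit 46), (nat_lit 21), (nat_lit 33),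
 (nat_lit 1), (34, 13, 40), [200, 1341], 3⟩,
  ⟨⟨33, -8, 20, 20, -27, -40, 30, 24, -17⟩, (.cons (nat_lit 322) (nat_lit 735) (nat_lit 627) (nat_lit 1) (.cons
 (nat_lit 1783) (nat_lit 953) (nat_lit 845) (nat_lit 1) .nil)), (nat_lit 4), (nat_lit 26), (nat_lit 24),
 (nat_lit 1), (11, 21, 10), [838, 813], 36⟩,
  ⟨⟨-39, 16, -4, 20, 37, -20, -2, -8, -41⟩, (.cons (nat_lit 960) (nat_lit 57) (nat_lit 731) (nat_lit 1) (.cons
 (nat_lit 1716) (nat_lit 1629) (nat_lit 1047) (nat_lit 1) .nil)), (nat_lit 46), (nat_lit 23), (nat_lit 24),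
 (nat_lit 1), (35, 3, 4), [541, 931], 3⟩,
  ⟨⟨3, -44, -20, -2, 15, -44, 36, -12, -25⟩, (.cons (nat_lit 698) (nat_lit 204) (nat_lit 1) (nat_lit 899)
 (.cons (nat_lit 1151) (nat_lit 538) (nat_lit 1) (nat_lit 989) .nil)), (nat_lit 6), (nat_lit 35), (nat_lit 43),
 (nat_lit 1), (10, 22, 34), [466, 666], 27⟩,
  ⟨⟨-15, -44, 16, 20, -13, -50, -34, -8, -1⟩, (.cons (nat_lit 952) (nat_lit 845) (nat_lit 283) (nat_lit 1)
 (.cons (nat_lit 752) (nat_lit 324) (nat_lit 608) (nat_lit 1) .nil)), (nat_lit 45), (nat_lit 9), (nat_lit 14),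
 (nat_lit 1), (2, 26, 16), [492, 246], 5⟩,
  mz,
  mz,
  ⟨⟨33, 32, -28, 2, -15, -46, 36, -12, -11⟩, (.cons (nat_lit 0) (nat_lit 557) (nat_lit 641) (nat_lit 1) (.cons
 (nat_lit 610) (nat_lit 1464) (nat_lit 758) (nat_lit 1) .nil)), (nat_lit 8), (nat_lit 28), (nat_lit 9),
 (nat_lit 1), (34, 19, 41), [616, 1551], 11⟩]

/-- Moves. -/
noncomputable def t1_4 : List Mv := [
  mz,
  ⟨⟨3, 44, -20, -2, -15, -44, 36, 12, -25⟩, (.cons (nat_lit 610) (nat_lit 959) (nat_lit 63) (nat_lit 1) (.cons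
 (nat_lit 189) (nat_lit 471) (nat_lit 983) (nat_lit 1) .nil)), (nat_lit 37), (nat_lit 22), (nat_lit 40),
 (nat_lit 1), (36, 19, 2), [65, 554], 12⟩,
  mz,
  mz,
  ⟨⟨19, 36, -36, -20, -13, -30, 34, -8, -35⟩, (.cons (nat_lit 393) (nat_lit 200) (nat_lit 615) (nat_lit 1)
 (.cons (nat_lit 749) (nat_lit 1193) (nat_lit 216) (nat_lit 1) .nil)), (nat_lit 45), (nat_lit 38), (nat_lit
 33), (nat_lit 1), (14, 26, 16), [55, 1777], 5⟩,
  ⟨⟨3, 44, 17, -2, -15, 46, 36, 12, -11⟩, (.cons (nat_lit 624) (nat_lit 21) (nat_lit 525) (nat_lit 1) (.cons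
 (nat_lit 761) (nat_lit 1690) (nat_lit 685) (nat_lit 1) .nil)), (nat_lit 41), (nat_lit 35), (nat_lit 4),
 (nat_lit 1), (33, 21, 9), [583, 585], 20⟩,
  ⟨⟨39, 16, -43, 20, -37, 0, 2, -8, -43⟩, (.cons (nat_lit 311) (nat_lit 157) (nat_lit 407) (nat_lit 1) (.cons
 (nat_lit 349) (nat_lit 1415) (nat_lit 436) (nat_lit 1) .nil)), (nat_lit 42), (nat_lit 10), (nat_lit 45),
 (nat_lit 1), (35, 40, 4), [722, 975], 34⟩,
  ⟨⟨33, 8, -53, -20, -27, -20, 30, -24, -13⟩, (.cons (nat_lit 844) (nat_lit 766) (nat_lit 619) (nat_lit 1)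
 (.cons (nat_lit 1484) (nat_lit 81) (nat_lit 949) (nat_lit 1) .nil)), (nat_lit 1), (nat_lit 45), (nat_lit 36),
 (nat_lit 1), (32, 21, 33), [272, 1425], 10⟩,
  ⟨⟨37, 24, -37, 20, -37, -20, -2, 8, -41⟩, (.cons (nat_lit 652) (nat_lit 463) (nat_lit 833) (nat_lit 1) (.cons
 (nat_lit 1145) (nat_lit 1631) (nat_lit 1660) (nat_lit 1) .nil)), (nat_lit 28), (nat_lit 2), (nat_lit 9),
 (nat_lit 1), (34, 30, 40), [908, 621], 7⟩,
  ⟨⟨-29, 0, -27, 0, -43, 0, 18, 0, -47⟩, (.cons (nat_lit 745) (nat_lit 605) (nat_lit 1) (nat_lit 248) (.cons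
 (nat_lit 988) (nat_lit 244) (nat_lit 1529) (nat_lit 1) .nil)), (nat_lit 1), (nat_lit 11), (nat_lit 26),
 (nat_lit 1), (33, 0, 24), [936, 439], 35⟩,
  ⟨⟨21, -20, 31, 38, 15, -34, 12, -36, -13⟩, (.cons (nat_lit 887) (nat_lit 515) (nat_lit 1) (nat_lit 155)
 (.cons (nat_lit 1841) (nat_lit 1697) (nat_lit 681) (nat_lit 1) .nil)), (nat_lit 39), (nat_lit 2), (nat_lit
 15), (nat_lit 1), (8, 37, 23), [259, 40], 36⟩,
  mz,
  ⟨⟨-15, 44, 16, 20, 13, -50, -34, 8, -1⟩, (.cons (nat_lit 178) (nat_lit 821) (nat_lit 560) (nat_lit 1) (.cons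
 (nat_lit 1138) (nat_lit 1770) (nat_lit 1523) (nat_lit 1) .nil)), (nat_lit 18), (nat_lit 20), (nat_lit 2),
 (nat_lit 1), (28, 20, 9), [939, 1270], 41⟩,
  ⟨⟨33, 8, 20, 20, 27, -40, 30, -24, -17⟩, (.cons (nat_lit 960) (nat_lit 887) (nat_lit 699) (nat_lit 1) (.cons
 (nat_lit 290) (nat_lit 1037) (nat_lit 879) (nat_lit 1) .nil)), (nat_lit 46), (nat_lit 8), (nat_lit 9),
 (nat_lit 1), (4, 35, 31), [540, 1525], 37⟩,
  mz,
  mz,
  mz,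
  ⟨⟨5, 36, 31, 40, -13, -10, 14, 32, -25⟩, (.cons (nat_lit 356) (nat_lit 246) (nat_lit 50) (nat_lit 1) (.cons
 (nat_lit 976) (nat_lit 381) (nat_lit 965) (nat_lit 1) .nil)), (nat_lit 2), (nat_lit 24), (nat_lit 30),
 (nat_lit 1), (1, 8, 20), [543, 1262], 5⟩,
  ⟨⟨-5, -36, 36, 40, -13, -30, -14, -32, -11⟩, (.cons (nat_lit 313) (nat_lit 826) (nat_lit 666) (nat_lit 1)
 (.cons (nat_lit 1809) (nat_lit 208) (nat_lit 807) (nat_lit 1) .nil)), (nat_lit 23), (nat_lit 19), (nat_lit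
 40), (nat_lit 1), (11, 41, 5), [929, 1486], 13⟩,
  mz,
  mz,
  ⟨⟨-9, 16, -44, -38, 15, 34, 12, 36, -13⟩, (.cons (nat_lit 958) (nat_lit 710) (nat_lit 1) (nat_lit 0) (.cons
 (nat_lit 1363) (nat_lit 775) (nat_lit 271) (nat_lit 1) .nil)), (nat_lit 6), (nat_lit 20), (nat_lit 40),
 (nat_lit 1), (1, 9, 13), [222, 275], 27⟩,
  ⟨⟨9, 16, -53, 38, 15, -4, -12, 36, -1⟩, (.cons (nat_lit 620) (nat_lit 270) (nat_lit 897) (nat_lit 1) (.cons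
 (nat_lit 285) (nat_lit 1700) (nat_lit 446) (nat_lit 1) .nil)), (nat_lit 41), (nat_lit 20), (nat_lit 7),
 (nat_lit 1), (1, 9, 13), [61, 1674], 27⟩,
  mz,
  mz,
  ⟨⟨5, -36, 31, -40, -13, 10, 14, -32, -25⟩, (.cons (nat_lit 901) (nat_lit 814) (nat_lit 839) (nat_lit 1)
 (.cons (nat_lit 1760) (nat_lit 724) (nat_lit 1472) (nat_lit 1) .nil)), (nat_lit 24), (nat_lit 19), (nat_lit
 7), (nat_lit 1), (11, 41, 5), [824, 1056], 13⟩,
  ⟨⟨-5, 36, 36, 40, 13, -30, -14, 32, -11⟩, (.cons (nat_lit 333) (nat_lit 404) (nat_lit 650) (nat_lit 1) (.cons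
 (nat_lit 1289) (nat_lit 967) (nat_lit 677) (nat_lit 1) .nil)), (nat_lit 18), (nat_lit 37), (nat_lit 43),
 (nat_lit 1), (1, 35, 20), [815, 1176], 41⟩,
  mz,
  mz,
  mz,
  ⟨⟨33, -8, -53, -20, 27, -20, 30, 24, -13⟩, (.cons (nat_lit 579) (nat_lit 240) (nat_lit 449) (nat_lit 1)
 (.cons (nat_lit 210) (nat_lit 822) (nat_lit 830) (nat_lit 1) .nil)), (nat_lit 35), (nat_lit 17), (nat_lit 6),
 (nat_lit 1), (39, 35, 12), [173, 231], 33⟩,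
  ⟨⟨15, 44, 1, 20, -13, 30, 34, 8, -35⟩, (.cons (nat_lit 494) (nat_lit 523) (nat_lit 286) (nat_lit 1) (.cons
 (nat_lit 1515) (nat_lit 1556) (nat_lit 466) (nat_lit 1) .nil)), (nat_lit 24), (nat_lit 35), (nat_lit 32),
 (nat_lit 1), (28, 23, 9), [219, 1227], 13⟩,
  mz,
  ⟨⟨-21, -20, 52, 38, -15, -4, -12, -36, -1⟩, (.cons (nat_lit 282) (nat_lit 564) (nat_lit 493) (nat_lit 1)
 (.cons (nat_lit 269) (nat_lit 445) (nat_lit 1731) (nat_lit 1) .nil)), (nat_lit 14), (nat_lit 21), (nat_lit 4),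
 (nat_lit 1), (8, 6, 23), [802, 842], 2⟩,
  ⟨⟨-47, 0, 27, 0, 43, 0, -18, 0, -29⟩, (.cons (nat_lit 109) (nat_lit 116) (nat_lit 356) (nat_lit 1) (.cons
 (nat_lit 621) (nat_lit 1781) (nat_lit 370) (nat_lit 1) .nil)), (nat_lit 1), (nat_lit 9), (nat_lit 17),
 (nat_lit 1), (34, 0, 24), [82, 1744], 44⟩,
  ⟨⟨-37, 24, 0, -20, -37, 0, 2, 8, -43⟩, (.cons (nat_lit 778) (nat_lit 668) (nat_lit 57) (nat_lit 1) (.cons
 (nat_lit 1602) (nat_lit 1529) (nat_lit 740) (nat_lit 1) .nil)), (nat_lit 19), (nat_lit 2), (nat_lit 38),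
 (nat_lit 1), (34, 30, 40), [866, 119], 7⟩,
  ⟨⟨-3, 32, -37, -20, 27, 40, 30, 24, -17⟩, (.cons (nat_lit 846) (nat_lit 639) (nat_lit 71) (nat_lit 1) (.cons
 (nat_lit 1353) (nat_lit 1819) (nat_lit 740) (nat_lit 1) .nil)), (nat_lit 1), (nat_lit 2), (nat_lit 11),
 (nat_lit 1), (42, 22, 10), [784, 1365], 37⟩,
  ⟨⟨-39, 16, -4, -20, -37, 20, -2, -8, -41⟩, (.cons (nat_lit 610) (nat_lit 781) (nat_lit 650) (nat_lit 1)
 (.cons (nat_lit 144) (nat_lit 388) (nat_lit 964) (nat_lit 1) .nil)), (nat_lit 5), (nat_lit 10), (nat_lit 2),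
 (nat_lit 1), (35, 40, 4), [513, 390], 34⟩,
  ⟨⟨3, -44, -20, -2, 15, -44, 36, -12, -25⟩, (.cons (nat_lit 698) (nat_lit 204) (nat_lit 1) (nat_lit 899)
 (.cons (nat_lit 1151) (nat_lit 538) (nat_lit 1) (nat_lit 989) .nil)), (nat_lit 6), (nat_lit 35), (nat_lit 43),
 (nat_lit 1), (10, 22, 34), [466, 666], 27⟩,
  ⟨⟨-15, -44, 16, -20, 13, 50, -34, -8, -1⟩, (.cons (nat_lit 475) (nat_lit 726) (nat_lit 44) (nat_lit 1) (.cons
 (nat_lit 1399) (nat_lit 570) (nat_lit 358) (nat_lit 1) .nil)), (nat_lit 34), (nat_lit 36), (nat_lit 5),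
 (nat_lit 1), (2, 17, 16), [882, 729], 20⟩,
  mz,
  mz,
  ⟨⟨33, 32, -28, 2, -15, -46, 36, -12, -11⟩, (.cons (nat_lit 0) (nat_lit 557) (nat_lit 641) (nat_lit 1) (.cons
 (nat_lit 610) (nat_lit 1464) (nat_lit 758) (nat_lit 1) .nil)), (nat_lit 8), (nat_lit 28), (nat_lit 9),
 (nat_lit 1), (34, 19, 41), [616, 1551], 11⟩]

/-- Moves. -/
noncomputable def t1_6 : List Mv := [
  mz,
  ⟨⟨3, 44, -20, -2, -15, -44, 36, 12, -25⟩, (.cons (nat_lit 610) (nat_lit 959) (nat_lit 63) (nat_lit 1) (.cons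
 (nat_lit 189) (nat_lit 471) (nat_lit 983) (nat_lit 1) .nil)), (nat_lit 37), (nat_lit 22), (nat_lit 40),
 (nat_lit 1), (36, 19, 2), [65, 554], 12⟩,
  mz,
  mz,
  ⟨⟨19, 36, -36, -20, -13, -30, 34, -8, -35⟩, (.cons (nat_lit 393) (nat_lit 200) (nat_lit 615) (nat_lit 1)
 (.cons (nat_lit 749) (nat_lit 1193) (nat_lit 216) (nat_lit 1) .nil)), (nat_lit 45), (nat_lit 38), (nat_lit
 33), (nat_lit 1), (14, 26, 16), [55, 1777], 5⟩,
  ⟨⟨33, -32, -28, 2, 15, -46, 36, 12, -11⟩, (.cons (nat_lit 313) (nat_lit 541) (nat_lit 477) (nat_lit 1) (.cons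
 (nat_lit 667) (nat_lit 738) (nat_lit 1461) (nat_lit 1) .nil)), (nat_lit 14), (nat_lit 27), (nat_lit 24),
 (nat_lit 1), (19, 22, 9), [221, 416], 45⟩,
  ⟨⟨-37, -24, 0, -20, 37, 0, 2, -8, -43⟩, (.cons (nat_lit 960) (nat_lit 612) (nat_lit 264) (nat_lit 1) (.cons
 (nat_lit 1390) (nat_lit 1579) (nat_lit 547) (nat_lit 1) .nil)), (nat_lit 46), (nat_lit 24), (nat_lit 23),
 (nat_lit 1), (12, 3, 4), [563, 1160], 3⟩,
  ⟨⟨33, 8, -53, -20, -27, -20, 30, -24, -13⟩, (.cons (nat_lit 844) (nat_lit 766) (nat_lit 619) (nat_lit 1)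
 (.cons (nat_lit 1484) (nat_lit 81) (nat_lit 949) (nat_lit 1) .nil)), (nat_lit 1), (nat_lit 45), (nat_lit 36),
 (nat_lit 1), (32, 21, 33), [272, 1425], 10⟩,
  ⟨⟨-39, -16, -4, 20, -37, -20, -2, 8, -41⟩, (.cons (nat_lit 282) (nat_lit 788) (nat_lit 251) (nat_lit 1)
 (.cons (nat_lit 962) (nat_lit 777) (nat_lit 1488) (nat_lit 1) .nil)), (nat_lit 19), (nat_lit 45), (nat_lit 9),
 (nat_lit 1), (6, 30, 40), [401, 1438], 7⟩,
  ⟨⟨-29, 0, -27, 0, 43, 0, 18, 0, -47⟩, (.cons (nat_lit 529) (nat_lit 140) (nat_lit 32) (nat_lit 1) (.cons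
 (nat_lit 1102) (nat_lit 243) (nat_lit 1373) (nat_lit 1) .nil)), (nat_lit 1), (nat_lit 38), (nat_lit 30),
 (nat_lit 1), (33, 0, 24), [204, 283], 44⟩,
  ⟨⟨21, -20, 31, 38, 15, -34, 12, -36, -13⟩, (.cons (nat_lit 887) (nat_lit 515) (nat_lit 1) (nat_lit 155)
 (.cons (nat_lit 1841) (nat_lit 1697) (nat_lit 681) (nat_lit 1) .nil)), (nat_lit 39), (nat_lit 2), (nat_lit
 15), (nat_lit 1), (8, 37, 23), [259, 40], 36⟩,
  mz,
  ⟨⟨-15, 44, 16, 20, 13, -50, -34, 8, -1⟩, (.cons (nat_lit 178) (nat_lit 821) (nat_lit 560) (nat_lit 1) (.cons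
 (nat_lit 1138) (nat_lit 1770) (nat_lit 1523) (nat_lit 1) .nil)), (nat_lit 18), (nat_lit 20), (nat_lit 2),
 (nat_lit 1), (28, 20, 9), [939, 1270], 41⟩,
  ⟨⟨-3, -32, -37, 20, 27, -40, 30, -24, -17⟩, (.cons (nat_lit 195) (nat_lit 795) (nat_lit 689) (nat_lit 1)
 (.cons (nat_lit 699) (nat_lit 253) (nat_lit 1352) (nat_lit 1) .nil)), (nat_lit 1), (nat_lit 39), (nat_lit 9),
 (nat_lit 1), (27, 35, 31), [381, 708], 37⟩,
  mz,
  mz,
  mz,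
  ⟨⟨5, 36, 31, 40, -13, -10, 14, 32, -25⟩, (.cons (nat_lit 356) (nat_lit 246) (nat_lit 50) (nat_lit 1) (.cons
 (nat_lit 976) (nat_lit 381) (nat_lit 965) (nat_lit 1) .nil)), (nat_lit 2), (nat_lit 24), (nat_lit 30),
 (nat_lit 1), (1, 8, 20), [543, 1262], 5⟩,
  ⟨⟨-5, -36, 36, 40, -13, -30, -14, -32, -11⟩, (.cons (nat_lit 313) (nat_lit 826) (nat_lit 666) (nat_lit 1)
 (.cons (nat_lit 1809) (nat_lit 208) (nat_lit 807) (nat_lit 1) .nil)), (nat_lit 23), (nat_lit 19), (nat_lit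
 40), (nat_lit 1), (11, 41, 5), [929, 1486], 13⟩,
  mz,
  mz,
  ⟨⟨21, 20, 31, 38, -15, -34, 12, 36, -13⟩, (.cons (nat_lit 274) (nat_lit 465) (nat_lit 714) (nat_lit 1) (.cons
 (nat_lit 581) (nat_lit 1424) (nat_lit 1449) (nat_lit 1) .nil)), (nat_lit 10), (nat_lit 12), (nat_lit 5),
 (nat_lit 1), (12, 34, 13), [436, 689], 12⟩,
  ⟨⟨-21, 20, 52, -38, -15, 4, -12, 36, -1⟩, (.cons (nat_lit 117) (nat_lit 298) (nat_lit 682) (nat_lit 1) (.cons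
 (nat_lit 426) (nat_lit 1021) (nat_lit 706) (nat_lit 1) .nil)), (nat_lit 37), (nat_lit 12), (nat_lit 42),
 (nat_lit 1), (12, 34, 13), [549, 1139], 12⟩,
  mz,
  mz,
  ⟨⟨9, 4, -56, -40, -13, 10, 14, -32, -25⟩, (.cons (nat_lit 427) (nat_lit 521) (nat_lit 245) (nat_lit 1) (.cons
 (nat_lit 562) (nat_lit 738) (nat_lit 1644) (nat_lit 1) .nil)), (nat_lit 23), (nat_lit 28), (nat_lit 7),
 (nat_lit 1), (37, 41, 5), [362, 1615], 13⟩,
  ⟨⟨-9, -4, -47, 40, 13, -30, -14, 32, -11⟩, (.cons (nat_lit 678) (nat_lit 178) (nat_lit 42) (nat_lit 1) (.cons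
 (nat_lit 517) (nat_lit 839) (nat_lit 1709) (nat_lit 1) .nil)), (nat_lit 29), (nat_lit 10), (nat_lit 43),
 (nat_lit 1), (19, 35, 20), [170, 359], 41⟩,
  mz,
  mz,
  mz,
  ⟨⟨33, -8, -53, -20, 27, -20, 30, 24, -13⟩, (.cons (nat_lit 579) (nat_lit 240) (nat_lit 449) (nat_lit 1)
 (.cons (nat_lit 210) (nat_lit 822) (nat_lit 830) (nat_lit 1) .nil)), (nat_lit 35), (nat_lit 17), (nat_lit 6),
 (nat_lit 1), (39, 35, 12), [173, 231], 33⟩,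
  ⟨⟨19, -36, -36, -20, 13, -30, 34, 8, -35⟩, (.cons (nat_lit 772) (nat_lit 314) (nat_lit 698) (nat_lit 1)
 (.cons (nat_lit 732) (nat_lit 1769) (nat_lit 1001) (nat_lit 1) .nil)), (nat_lit 18), (nat_lit 27), (nat_lit
 45), (nat_lit 1), (24, 20, 9), [653, 1305], 41⟩,
  mz,
  ⟨⟨9, -16, -53, -38, 15, 4, -12, -36, -1⟩, (.cons (nat_lit 442) (nat_lit 328) (nat_lit 512) (nat_lit 1) (.cons
 (nat_lit 964) (nat_lit 29) (nat_lit 1070) (nat_lit 1) .nil)), (nat_lit 39), (nat_lit 45), (nat_lit 32),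
 (nat_lit 1), (15, 37, 23), [508, 482], 36⟩,
  ⟨⟨29, 0, -56, 0, -43, 0, -18, 0, -29⟩, (.cons (nat_lit 960) (nat_lit 33) (nat_lit 463) (nat_lit 1) (.cons
 (nat_lit 1216) (nat_lit 1436) (nat_lit 744) (nat_lit 1) .nil)), (nat_lit 46), (nat_lit 11), (nat_lit 21),
 (nat_lit 1), (33, 0, 24), [284, 1554], 35⟩,
  ⟨⟨-37, 24, 0, 20, 37, 0, 2, 8, -43⟩, (.cons (nat_lit 960) (nat_lit 908) (nat_lit 889) (nat_lit 1) (.cons
 (nat_lit 240) (nat_lit 772) (nat_lit 959) (nat_lit 1) .nil)), (nat_lit 46), (nat_lit 21), (nat_lit 33),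
 (nat_lit 1), (34, 13, 40), [200, 1341], 3⟩,
  ⟨⟨33, -8, 20, -20, 27, 40, 30, 24, -17⟩, (.cons (nat_lit 960) (nat_lit 671) (nat_lit 593) (nat_lit 1) (.cons
 (nat_lit 1571) (nat_lit 503) (nat_lit 353) (nat_lit 1) .nil)), (nat_lit 46), (nat_lit 45), (nat_lit 11),
 (nat_lit 1), (11, 22, 10), [228, 333], 37⟩,
  ⟨⟨-39, 16, -4, 20, 37, -20, -2, -8, -41⟩, (.cons (nat_lit 960) (nat_lit 57) (nat_lit 731) (nat_lit 1) (.cons
 (nat_lit 1716) (nat_lit 1629) (nat_lit 1047) (nat_lit 1) .nil)), (nat_lit 46), (nat_lit 23), (nat_lit 24),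
 (nat_lit 1), (35, 3, 4), [541, 931], 3⟩,
  ⟨⟨3, -44, -20, -2, 15, -44, 36, -12, -25⟩, (.cons (nat_lit 698) (nat_lit 204) (nat_lit 1) (nat_lit 899)
 (.cons (nat_lit 1151) (nat_lit 538) (nat_lit 1) (nat_lit 989) .nil)), (nat_lit 6), (nat_lit 35), (nat_lit 43),
 (nat_lit 1), (10, 22, 34), [466, 666], 27⟩,
  ⟨⟨-19, 36, -17, -20, 13, 50, -34, -8, -1⟩, (.cons (nat_lit 798) (nat_lit 184) (nat_lit 119) (nat_lit 1)
 (.cons (nat_lit 1482) (nat_lit 1408) (nat_lit 960) (nat_lit 1) .nil)), (nat_lit 13), (nat_lit 11), (nat_lit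
 5), (nat_lit 1), (14, 17, 16), [30, 428], 20⟩,
  mz,
  mz,
  ⟨⟨33, 32, -28, 2, -15, -46, 36, -12, -11⟩, (.cons (nat_lit 0) (nat_lit 557) (nat_lit 641) (nat_lit 1) (.cons
 (nat_lit 610) (nat_lit 1464) (nat_lit 758) (nat_lit 1) .nil)), (nat_lit 8), (nat_lit 28), (nat_lit 9),
 (nat_lit 1), (34, 19, 41), [616, 1551], 11⟩]

/-- Moves. -/
noncomputable def t1_8 : List Mv := [
  mz,
  ⟨⟨33, -32, -5, 2, 15, 44, 36, 12, -25⟩, (.cons (nat_lit 535) (nat_lit 101) (nat_lit 687) (nat_lit 1) (.cons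
 (nat_lit 1778) (nat_lit 234) (nat_lit 615) (nat_lit 1) .nil)), (nat_lit 39), (nat_lit 28), (nat_lit 38),
 (nat_lit 1), (9, 24, 2), [756, 1608], 36⟩,
  mz,
  mz,
  ⟨⟨19, 36, -36, -20, -13, -30, 34, -8, -35⟩, (.cons (nat_lit 393) (nat_lit 200) (nat_lit 615) (nat_lit 1)
 (.cons (nat_lit 749) (nat_lit 1193) (nat_lit 216) (nat_lit 1) .nil)), (nat_lit 45), (nat_lit 38), (nat_lit
 33), (nat_lit 1), (14, 26, 16), [55, 1777], 5⟩,
  ⟨⟨3, 44, 17, 2, 15, -46, 36, 12, -11⟩, (.cons (nat_lit 273) (nat_lit 306) (nat_lit 218) (nat_lit 1) (.cons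
 (nat_lit 1483) (nat_lit 724) (nat_lit 128) (nat_lit 1) .nil)), (nat_lit 33), (nat_lit 20), (nat_lit 24),
 (nat_lit 1), (33, 22, 9), [613, 588], 45⟩,
  ⟨⟨-37, -24, 0, -20, 37, 0, 2, -8, -43⟩, (.cons (nat_lit 960) (nat_lit 612) (nat_lit 264) (nat_lit 1) (.cons
 (nat_lit 1390) (nat_lit 1579) (nat_lit 547) (nat_lit 1) .nil)), (nat_lit 46), (nat_lit 24), (nat_lit 23),
 (nat_lit 1), (12, 3, 4), [563, 1160], 3⟩,
  ⟨⟨33, 8, -53, -20, -27, -20, 30, -24, -13⟩, (.cons (nat_lit 844) (nat_lit 766) (nat_lit 619) (nat_lit 1)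
 (.cons (nat_lit 1484) (nat_lit 81) (nat_lit 949) (nat_lit 1) .nil)), (nat_lit 1), (nat_lit 45), (nat_lit 36),
 (nat_lit 1), (32, 21, 33), [272, 1425], 10⟩,
  ⟨⟨-39, -16, -4, 20, -37, -20, -2, 8, -41⟩, (.cons (nat_lit 282) (nat_lit 788) (nat_lit 251) (nat_lit 1)
 (.cons (nat_lit 962) (nat_lit 777) (nat_lit 1488) (nat_lit 1) .nil)), (nat_lit 19), (nat_lit 45), (nat_lit 9),
 (nat_lit 1), (6, 30, 40), [401, 1438], 7⟩,
  ⟨⟨-29, 0, -27, 0, -43, 0, 18, 0, -47⟩, (.cons (nat_lit 745) (nat_lit 605) (nat_lit 1) (nat_lit 248) (.cons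
 (nat_lit 988) (nat_lit 244) (nat_lit 1529) (nat_lit 1) .nil)), (nat_lit 1), (nat_lit 11), (nat_lit 26),
 (nat_lit 1), (33, 0, 24), [936, 439], 35⟩,
  ⟨⟨21, -20, 31, -38, -15, 34, 12, -36, -13⟩, (.cons (nat_lit 56) (nat_lit 419) (nat_lit 488) (nat_lit 1)
 (.cons (nat_lit 636) (nat_lit 1580) (nat_lit 1625) (nat_lit 1) .nil)), (nat_lit 33), (nat_lit 21), (nat_lit
 43), (nat_lit 1), (8, 6, 23), [379, 1397], 2⟩,
  mz,
  ⟨⟨-15, 44, 16, 20, 13, -50, -34, 8, -1⟩, (.cons (nat_lit 178) (nat_lit 821) (nat_lit 560) (nat_lit 1) (.cons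
 (nat_lit 1138) (nat_lit 1770) (nat_lit 1523) (nat_lit 1) .nil)), (nat_lit 18), (nat_lit 20), (nat_lit 2),
 (nat_lit 1), (28, 20, 9), [939, 1270], 41⟩,
  ⟨⟨33, 8, 20, 20, 27, -40, 30, -24, -17⟩, (.cons (nat_lit 960) (nat_lit 887) (nat_lit 699) (nat_lit 1) (.cons
 (nat_lit 290) (nat_lit 1037) (nat_lit 879) (nat_lit 1) .nil)), (nat_lit 46), (nat_lit 8), (nat_lit 9),
 (nat_lit 1), (4, 35, 31), [540, 1525], 37⟩,
  mz,
  mz,
  mz,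
  ⟨⟨9, -4, -56, 40, -13, -10, 14, 32, -25⟩, (.cons (nat_lit 672) (nat_lit 633) (nat_lit 524) (nat_lit 1) (.cons
 (nat_lit 658) (nat_lit 1296) (nat_lit 148) (nat_lit 1) .nil)), (nat_lit 45), (nat_lit 23), (nat_lit 30),
 (nat_lit 1), (19, 8, 20), [489, 703], 5⟩,
  ⟨⟨-5, -36, 36, 40, -13, -30, -14, -32, -11⟩, (.cons (nat_lit 313) (nat_lit 826) (nat_lit 666) (nat_lit 1)
 (.cons (nat_lit 1809) (nat_lit 208) (nat_lit 807) (nat_lit 1) .nil)), (nat_lit 23), (nat_lit 19), (nat_lit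
 40), (nat_lit 1), (11, 41, 5), [929, 1486], 13⟩,
  mz,
  mz,
  ⟨⟨21, 20, 31, 38, -15, -34, 12, 36, -13⟩, (.cons (nat_lit 274) (nat_lit 465) (nat_lit 714) (nat_lit 1) (.cons
 (nat_lit 581) (nat_lit 1424) (nat_lit 1449) (nat_lit 1) .nil)), (nat_lit 10), (nat_lit 12), (nat_lit 5),
 (nat_lit 1), (12, 34, 13), [436, 689], 12⟩,
  ⟨⟨9, 16, -53, -38, -15, 4, -12, 36, -1⟩, (.cons (nat_lit 873) (nat_lit 20) (nat_lit 925) (nat_lit 1) (.cons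
 (nat_lit 778) (nat_lit 957) (nat_lit 1480) (nat_lit 1) .nil)), (nat_lit 10), (nat_lit 35), (nat_lit 42),
 (nat_lit 1), (1, 34, 13), [268, 752], 12⟩,
  mz,
  mz,
  ⟨⟨9, 4, -56, 40, 13, -10, 14, -32, -25⟩, (.cons (nat_lit 27) (nat_lit 897) (nat_lit 256) (nat_lit 1) (.cons
 (nat_lit 1461) (nat_lit 632) (nat_lit 1659) (nat_lit 1) .nil)), (nat_lit 34), (nat_lit 25), (nat_lit 26),
 (nat_lit 1), (37, 2, 5), [299, 1356], 20⟩,
  ⟨⟨-5, 36, 36, 40, 13, -30, -14, 32, -11⟩, (.cons (nat_lit 333) (nat_lit 404) (nat_lit 650) (nat_lit 1) (.cons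
 (nat_lit 1289) (nat_lit 967) (nat_lit 677) (nat_lit 1) .nil)), (nat_lit 18), (nat_lit 37), (nat_lit 43),
 (nat_lit 1), (1, 35, 20), [815, 1176], 41⟩,
  mz,
  mz,
  mz,
  ⟨⟨33, -8, -53, -20, 27, -20, 30, 24, -13⟩, (.cons (nat_lit 579) (nat_lit 240) (nat_lit 449) (nat_lit 1)
 (.cons (nat_lit 210) (nat_lit 822) (nat_lit 830) (nat_lit 1) .nil)), (nat_lit 35), (nat_lit 17), (nat_lit 6),
 (nat_lit 1), (39, 35, 12), [173, 231], 33⟩,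
  ⟨⟨15, 44, 1, 20, -13, 30, 34, 8, -35⟩, (.cons (nat_lit 494) (nat_lit 523) (nat_lit 286) (nat_lit 1) (.cons
 (nat_lit 1515) (nat_lit 1556) (nat_lit 466) (nat_lit 1) .nil)), (nat_lit 24), (nat_lit 35), (nat_lit 32),
 (nat_lit 1), (28, 23, 9), [219, 1227], 13⟩,
  mz,
  ⟨⟨9, -16, -53, -38, 15, 4, -12, -36, -1⟩, (.cons (nat_lit 442) (nat_lit 328) (nat_lit 512) (nat_lit 1) (.cons
 (nat_lit 964) (nat_lit 29) (nat_lit 1070) (nat_lit 1) .nil)), (nat_lit 39), (nat_lit 45), (nat_lit 32),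
 (nat_lit 1), (15, 37, 23), [508, 482], 36⟩,
  ⟨⟨29, 0, -56, 0, -43, 0, -18, 0, -29⟩, (.cons (nat_lit 960) (nat_lit 33) (nat_lit 463) (nat_lit 1) (.cons
 (nat_lit 1216) (nat_lit 1436) (nat_lit 744) (nat_lit 1) .nil)), (nat_lit 46), (nat_lit 11), (nat_lit 21),
 (nat_lit 1), (33, 0, 24), [284, 1554], 35⟩,
  ⟨⟨39, -16, -43, 20, 37, 0, 2, 8, -43⟩, (.cons (nat_lit 942) (nat_lit 10) (nat_lit 839) (nat_lit 1) (.cons
 (nat_lit 1824) (nat_lit 1292) (nat_lit 400) (nat_lit 1) .nil)), (nat_lit 1), (nat_lit 26), (nat_lit 33),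
 (nat_lit 1), (6, 13, 40), [251, 954], 3⟩,
  ⟨⟨33, -8, 20, -20, 27, 40, 30, 24, -17⟩, (.cons (nat_lit 960) (nat_lit 671) (nat_lit 593) (nat_lit 1) (.cons
 (nat_lit 1571) (nat_lit 503) (nat_lit 353) (nat_lit 1) .nil)), (nat_lit 46), (nat_lit 45), (nat_lit 11),
 (nat_lit 1), (11, 22, 10), [228, 333], 37⟩,
  ⟨⟨37, -24, -37, 20, 37, -20, -2, -8, -41⟩, (.cons (nat_lit 199) (nat_lit 638) (nat_lit 639) (nat_lit 1)
 (.cons (nat_lit 606) (nat_lit 1510) (nat_lit 15) (nat_lit 1) .nil)), (nat_lit 1), (nat_lit 24), (nat_lit 24),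
 (nat_lit 1), (12, 3, 4), [817, 1705], 3⟩,
  ⟨⟨3, -44, -20, 2, -15, 44, 36, -12, -25⟩, (.cons (nat_lit 115) (nat_lit 326) (nat_lit 372) (nat_lit 1) (.cons
 (nat_lit 1839) (nat_lit 817) (nat_lit 539) (nat_lit 1) .nil)), (nat_lit 14), (nat_lit 20), (nat_lit 23),
 (nat_lit 1), (10, 21, 34), [170, 311], 2⟩,
  ⟨⟨-15, -44, 16, 20, -13, -50, -34, -8, -1⟩, (.cons (nat_lit 952) (nat_lit 845) (nat_lit 283) (nat_lit 1)
 (.cons (nat_lit 752) (nat_lit 324) (nat_lit 608) (nat_lit 1) .nil)), (nat_lit 45), (nat_lit 9), (nat_lit 14),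
 (nat_lit 1), (2, 26, 16), [492, 246], 5⟩,
  mz,
  mz,
  ⟨⟨33, 32, -28, 2, -15, -46, 36, -12, -11⟩, (.cons (nat_lit 0) (nat_lit 557) (nat_lit 641) (nat_lit 1) (.cons
 (nat_lit 610) (nat_lit 1464) (nat_lit 758) (nat_lit 1) .nil)), (nat_lit 8), (nat_lit 28), (nat_lit 9),
 (nat_lit 1), (34, 19, 41), [616, 1551], 11⟩]

/-- Moves. -/
noncomputable def t1_19 : List Mv := [
  mz,
  ⟨⟨3, 44, -20, -2, -15, -44, 36, 12, -25⟩, (.cons (nat_lit 610) (nat_lit 959) (nat_lit 63) (nat_lit 1) (.cons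
 (nat_lit 189) (nat_lit 471) (nat_lit 983) (nat_lit 1) .nil)), (nat_lit 37), (nat_lit 22), (nat_lit 40),
 (nat_lit 1), (36, 19, 2), [65, 554], 12⟩,
  mz,
  mz,
  ⟨⟨15, -44, 1, -20, -13, -30, 34, -8, -35⟩, (.cons (nat_lit 16) (nat_lit 430) (nat_lit 30) (nat_lit 1) (.cons
 (nat_lit 1100) (nat_lit 785) (nat_lit 732) (nat_lit 1) .nil)), (nat_lit 2), (nat_lit 9), (nat_lit 33),
 (nat_lit 1), (2, 26, 16), [485, 1519], 5⟩,
  ⟨⟨33, -32, -28, -2, -15, 46, 36, 12, -11⟩, (.cons (nat_lit 717) (nat_lit 97) (nat_lit 110) (nat_lit 1) (.cons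
 (nat_lit 1475) (nat_lit 632) (nat_lit 255) (nat_lit 1) .nil)), (nat_lit 6), (nat_lit 12), (nat_lit 4),
 (nat_lit 1), (19, 21, 9), [334, 671], 20⟩,
  ⟨⟨-37, -24, 0, 20, -37, 0, 2, -8, -43⟩, (.cons (nat_lit 21) (nat_lit 387) (nat_lit 725) (nat_lit 1) (.cons
 (nat_lit 1242) (nat_lit 735) (nat_lit 952) (nat_lit 1) .nil)), (nat_lit 5), (nat_lit 37), (nat_lit 45),
 (nat_lit 1), (12, 40, 4), [389, 1405], 34⟩,
  ⟨⟨33, 8, -53, -20, -27, -20, 30, -24, -13⟩, (.cons (nat_lit 844) (nat_lit 766) (nat_lit 619) (nat_lit 1)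
 (.cons (nat_lit 1484) (nat_lit 81) (nat_lit 949) (nat_lit 1) .nil)), (nat_lit 1), (nat_lit 45), (nat_lit 36),
 (nat_lit 1), (32, 21, 33), [272, 1425], 10⟩,
  ⟨⟨37, 24, -37, -20, 37, 20, -2, 8, -41⟩, (.cons (nat_lit 354) (nat_lit 304) (nat_lit 904) (nat_lit 1) (.cons
 (nat_lit 1749) (nat_lit 532) (nat_lit 679) (nat_lit 1) .nil)), (nat_lit 1), (nat_lit 21), (nat_lit 14),
 (nat_lit 1), (34, 13, 40), [786, 773], 3⟩,
  ⟨⟨-29, 0, -27, 0, -43, 0, 18, 0, -47⟩, (.cons (nat_lit 745) (nat_lit 605) (nat_lit 1) (nat_lit 248) (.cons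
 (nat_lit 988) (nat_lit 244) (nat_lit 1529) (nat_lit 1) .nil)), (nat_lit 1), (nat_lit 11), (nat_lit 26),
 (nat_lit 1), (33, 0, 24), [936, 439], 35⟩,
  ⟨⟨-9, -16, -44, 38, 15, -34, 12, -36, -13⟩, (.cons (nat_lit 256) (nat_lit 154) (nat_lit 670) (nat_lit 1)
 (.cons (nat_lit 1255) (nat_lit 1356) (nat_lit 1627) (nat_lit 1) .nil)), (nat_lit 8), (nat_lit 45), (nat_lit
 15), (nat_lit 1), (15, 37, 23), [634, 900], 36⟩,
  mz,
  ⟨⟨-15, 44, 16, 20, 13, -50, -34, 8, -1⟩, (.cons (nat_lit 178) (nat_lit 821) (nat_lit 560) (nat_lit 1) (.cons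
 (nat_lit 1138) (nat_lit 1770) (nat_lit 1523) (nat_lit 1) .nil)), (nat_lit 18), (nat_lit 20), (nat_lit 2),
 (nat_lit 1), (28, 20, 9), [939, 1270], 41⟩,
  ⟨⟨33, 8, 20, 20, 27, -40, 30, -24, -17⟩, (.cons (nat_lit 960) (nat_lit 887) (nat_lit 699) (nat_lit 1) (.cons
 (nat_lit 290) (nat_lit 1037) (nat_lit 879) (nat_lit 1) .nil)), (nat_lit 46), (nat_lit 8), (nat_lit 9),
 (nat_lit 1), (4, 35, 31), [540, 1525], 37⟩,
  mz,
  mz,
  mz,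
  ⟨⟨9, -4, -56, 40, -13, -10, 14, 32, -25⟩, (.cons (nat_lit 672) (nat_lit 633) (nat_lit 524) (nat_lit 1) (.cons
 (nat_lit 658) (nat_lit 1296) (nat_lit 148) (nat_lit 1) .nil)), (nat_lit 45), (nat_lit 23), (nat_lit 30),
 (nat_lit 1), (19, 8, 20), [489, 703], 5⟩,
  ⟨⟨-5, -36, 36, 40, -13, -30, -14, -32, -11⟩, (.cons (nat_lit 313) (nat_lit 826) (nat_lit 666) (nat_lit 1)
 (.cons (nat_lit 1809) (nat_lit 208) (nat_lit 807) (nat_lit 1) .nil)), (nat_lit 23), (nat_lit 19), (nat_lit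
 40), (nat_lit 1), (11, 41, 5), [929, 1486], 13⟩,
  mz,
  mz,
  ⟨⟨21, 20, 31, 38, -15, -34, 12, 36, -13⟩, (.cons (nat_lit 274) (nat_lit 465) (nat_lit 714) (nat_lit 1) (.cons
 (nat_lit 581) (nat_lit 1424) (nat_lit 1449) (nat_lit 1) .nil)), (nat_lit 10), (nat_lit 12), (nat_lit 5),
 (nat_lit 1), (12, 34, 13), [436, 689], 12⟩,
  ⟨⟨-21, 20, 52, 38, 15, -4, -12, 36, -1⟩, (.cons (nat_lit 934) (nat_lit 489) (nat_lit 442) (nat_lit 1) (.cons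
 (nat_lit 59) (nat_lit 1353) (nat_lit 1392) (nat_lit 1) .nil)), (nat_lit 6), (nat_lit 27), (nat_lit 7),
 (nat_lit 1), (12, 9, 13), [658, 814], 27⟩,
  mz,
  mz,
  ⟨⟨9, 4, -56, 40, 13, -10, 14, -32, -25⟩, (.cons (nat_lit 27) (nat_lit 897) (nat_lit 256) (nat_lit 1) (.cons
 (nat_lit 1461) (nat_lit 632) (nat_lit 1659) (nat_lit 1) .nil)), (nat_lit 34), (nat_lit 25), (nat_lit 26),
 (nat_lit 1), (37, 2, 5), [299, 1356], 20⟩,
  ⟨⟨-5, 36, 36, 40, 13, -30, -14, 32, -11⟩, (.cons (nat_lit 333) (nat_lit 404) (nat_lit 650) (nat_lit 1) (.cons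
 (nat_lit 1289) (nat_lit 967) (nat_lit 677) (nat_lit 1) .nil)), (nat_lit 18), (nat_lit 37), (nat_lit 43),
 (nat_lit 1), (1, 35, 20), [815, 1176], 41⟩,
  mz,
  mz,
  mz,
  ⟨⟨33, -8, -53, -20, 27, -20, 30, 24, -13⟩, (.cons (nat_lit 579) (nat_lit 240) (nat_lit 449) (nat_lit 1)
 (.cons (nat_lit 210) (nat_lit 822) (nat_lit 830) (nat_lit 1) .nil)), (nat_lit 35), (nat_lit 17), (nat_lit 6),
 (nat_lit 1), (39, 35, 12), [173, 231], 33⟩,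
  ⟨⟨15, 44, 1, -20, 13, -30, 34, 8, -35⟩, (.cons (nat_lit 864) (nat_lit 796) (nat_lit 170) (nat_lit 1) (.cons
 (nat_lit 1547) (nat_lit 1757) (nat_lit 184) (nat_lit 1) .nil)), (nat_lit 29), (nat_lit 20), (nat_lit 45),
 (nat_lit 1), (28, 20, 9), [232, 15], 41⟩,
  mz,
  ⟨⟨-21, -20, 52, -38, 15, 4, -12, -36, -1⟩, (.cons (nat_lit 837) (nat_lit 801) (nat_lit 866) (nat_lit 1)
 (.cons (nat_lit 1229) (nat_lit 1562) (nat_lit 81) (nat_lit 1) .nil)), (nat_lit 8), (nat_lit 2), (nat_lit 32),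
 (nat_lit 1), (8, 37, 23), [314, 439], 36⟩,
  ⟨⟨29, 0, -56, 0, -43, 0, -18, 0, -29⟩, (.cons (nat_lit 960) (nat_lit 33) (nat_lit 463) (nat_lit 1) (.cons
 (nat_lit 1216) (nat_lit 1436) (nat_lit 744) (nat_lit 1) .nil)), (nat_lit 46), (nat_lit 11), (nat_lit 21),
 (nat_lit 1), (33, 0, 24), [284, 1554], 35⟩,
  ⟨⟨-37, 24, 0, -20, -37, 0, 2, 8, -43⟩, (.cons (nat_lit 778) (nat_lit 668) (nat_lit 57) (nat_lit 1) (.cons
 (nat_lit 1602) (nat_lit 1529) (nat_lit 740) (nat_lit 1) .nil)), (nat_lit 19), (nat_lit 2), (nat_lit 38),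
 (nat_lit 1), (34, 30, 40), [866, 119], 7⟩,
  ⟨⟨-3, 32, -37, 20, -27, -40, 30, 24, -17⟩, (.cons (nat_lit 561) (nat_lit 861) (nat_lit 854) (nat_lit 1)
 (.cons (nat_lit 1356) (nat_lit 509) (nat_lit 200) (nat_lit 1) .nil)), (nat_lit 43), (nat_lit 21), (nat_lit
 24), (nat_lit 1), (42, 21, 10), [644, 598], 36⟩,
  ⟨⟨-39, 16, -4, 20, 37, -20, -2, -8, -41⟩, (.cons (nat_lit 960) (nat_lit 57) (nat_lit 731) (nat_lit 1) (.cons
 (nat_lit 1716) (nat_lit 1629) (nat_lit 1047) (nat_lit 1) .nil)), (nat_lit 46), (nat_lit 23), (nat_lit 24),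
 (nat_lit 1), (35, 3, 4), [541, 931], 3⟩,
  ⟨⟨3, -44, -20, -2, 15, -44, 36, -12, -25⟩, (.cons (nat_lit 698) (nat_lit 204) (nat_lit 1) (nat_lit 899)
 (.cons (nat_lit 1151) (nat_lit 538) (nat_lit 1) (nat_lit 989) .nil)), (nat_lit 6), (nat_lit 35), (nat_lit 43),
 (nat_lit 1), (10, 22, 34), [466, 666], 27⟩,
  ⟨⟨-15, -44, 16, 20, -13, -50, -34, -8, -1⟩, (.cons (nat_lit 952) (nat_lit 845) (nat_lit 283) (nat_lit 1)
 (.cons (nat_lit 752) (nat_lit 324) (nat_lit 608) (nat_lit 1) .nil)), (nat_lit 45), (nat_lit 9), (nat_lit 14),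
 (nat_lit 1), (2, 26, 16), [492, 246], 5⟩,
  mz,
  mz,
  ⟨⟨3, -44, 17, 2, -15, -46, 36, -12, -11⟩, (.cons (nat_lit 946) (nat_lit 206) (nat_lit 1) (nat_lit 310) (.cons
 (nat_lit 1454) (nat_lit 600) (nat_lit 1661) (nat_lit 1) .nil)), (nat_lit 39), (nat_lit 19), (nat_lit 9),
 (nat_lit 1), (7, 19, 41), [690, 1465], 11⟩]

/-- Moves. -/
noncomputable def t4_1 : List Mv := [
  mz,
  ⟨⟨45, 16, -1, -22, 35, 36, 20, 28, -37⟩, (.cons (nat_lit 394) (nat_lit 730) (nat_lit 1) (nat_lit 775) (.cons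
 (nat_lit 25) (nat_lit 1110) (nat_lit 979) (nat_lit 1) .nil)), (nat_lit 26), (nat_lit 0), (nat_lit 0), (nat_lit
 0), (34, 45, 36), [799, 177], 0⟩,
  ⟨⟨-49, 12, 36, 2, 35, -36, -28, -20, -13⟩, (.cons (nat_lit 455) (nat_lit 309) (nat_lit 515) (nat_lit 1)
 (.cons (nat_lit 1738) (nat_lit 681) (nat_lit 1541) (nat_lit 1) .nil)), (nat_lit 42), (nat_lit 0), (nat_lit 0),
 (nat_lit 0), (17, 30, 3), [361, 1467], 0⟩,
  ⟨⟨39, 8, -56, 2, 45, 14, -12, 12, -37⟩, (.cons (nat_lit 960) (nat_lit 605) (nat_lit 393) (nat_lit 1) (.cons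
 (nat_lit 1848) (nat_lit 148) (nat_lit 1134) (nat_lit 1) .nil)), (nat_lit 3), (nat_lit 0), (nat_lit 0),
 (nat_lit 0), (14, 20, 21), [494, 317], 0⟩,
  mz,
  ⟨⟨-45, -16, 44, 22, -35, 14, -20, -28, -17⟩, (.cons (nat_lit 834) (nat_lit 828) (nat_lit 403) (nat_lit 1)
 (.cons (nat_lit 425) (nat_lit 1567) (nat_lit 479) (nat_lit 1) .nil)), (nat_lit 26), (nat_lit 0), (nat_lit 0),
 (nat_lit 0), (12, 38, 21), [792, 1164], 0⟩,
  mz,
  mz,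
  mz,
  ⟨⟨27, 32, -47, 40, -17, 0, 10, -16, -47⟩, (.cons (nat_lit 257) (nat_lit 349) (nat_lit 822) (nat_lit 1) (.cons
 (nat_lit 60) (nat_lit 514) (nat_lit 1514) (nat_lit 1) .nil)), (nat_lit 11), (nat_lit 0), (nat_lit 0), (nat_lit
 0), (43, 8, 2), [111, 828], 0⟩,
  mz,
  ⟨⟨17, 48, -17, 40, -17, -40, -10, 16, -37⟩, (.cons (nat_lit 875) (nat_lit 223) (nat_lit 539) (nat_lit 1)
 (.cons (nat_lit 339) (nat_lit 1409) (nat_lit 776) (nat_lit 1) .nil)), (nat_lit 9), (nat_lit 0), (nat_lit 0),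
 (nat_lit 0), (25, 45, 24), [262, 1350], 0⟩,
  ⟨⟨21, 44, 8, -20, 23, -30, 38, 8, -37⟩, (.cons (nat_lit 562) (nat_lit 579) (nat_lit 323) (nat_lit 1) (.cons
 (nat_lit 144) (nat_lit 460) (nat_lit 1568) (nat_lit 1) .nil)), (nat_lit 15), (nat_lit 0), (nat_lit 0),
 (nat_lit 0), (29, 44, 1), [26, 1222], 0⟩,
  mz,
  ⟨⟨-51, -4, 19, -2, 45, -14, -12, -12, -37⟩, (.cons (nat_lit 266) (nat_lit 420) (nat_lit 248) (nat_lit 1)
 (.cons (nat_lit 259) (nat_lit 1812) (nat_lit 322) (nat_lit 1) .nil)), (nat_lit 33), (nat_lit 0), (nat_lit 0),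
 (nat_lit 0), (25, 36, 28), [784, 790], 0⟩,
  ⟨⟨9, 4, -61, 40, 23, -10, 22, -32, -29⟩, (.cons (nat_lit 129) (nat_lit 274) (nat_lit 907) (nat_lit 1) (.cons
 (nat_lit 1181) (nat_lit 475) (nat_lit 443) (nat_lit 1) .nil)), (nat_lit 35), (nat_lit 0), (nat_lit 0),
 (nat_lit 0), (18, 33, 44), [906, 363], 0⟩,
  ⟨⟨-13, 36, 45, 40, 23, -30, -22, 32, -7⟩, (.cons (nat_lit 428) (nat_lit 768) (nat_lit 281) (nat_lit 1) (.cons
 (nat_lit 1533) (nat_lit 444) (nat_lit 37) (nat_lit 1) .nil)), (nat_lit 27), (nat_lit 0), (nat_lit 0), (nat_lit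
 0), (5, 28, 41), [314, 706], 0⟩,
  mz,
  ⟨⟨19, 0, -63, 0, -47, 0, 42, 0, -23⟩, (.cons (nat_lit 702) (nat_lit 397) (nat_lit 887) (nat_lit 1) (.cons
 (nat_lit 861) (nat_lit 1716) (nat_lit 1136) (nat_lit 1) .nil)), (nat_lit 29), (nat_lit 0), (nat_lit 0),
 (nat_lit 0), (16, 0, 23), [832, 1084], 0⟩,
  ⟨⟨-39, 32, 8, -20, -33, -20, 6, 24, -41⟩, (.cons (nat_lit 863) (nat_lit 914) (nat_lit 472) (nat_lit 1) (.cons
 (nat_lit 1127) (nat_lit 1699) (nat_lit 830) (nat_lit 1) .nil)), (nat_lit 22), (nat_lit 0), (nat_lit 0),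
 (nat_lit 0), (25, 8, 7), [799, 1237], 0⟩,
  ⟨⟨17, -36, 28, 20, -23, -50, 38, 8, -1⟩, (.cons (nat_lit 256) (nat_lit 165) (nat_lit 315) (nat_lit 1) (.cons
 (nat_lit 109) (nat_lit 709) (nat_lit 310) (nat_lit 1) .nil)), (nat_lit 16), (nat_lit 0), (nat_lit 0), (nat_lit
 0), (2, 30, 10), [537, 1658], 0⟩,
  ⟨⟨21, 32, -49, 2, -35, -36, -28, 20, -13⟩, (.cons (nat_lit 483) (nat_lit 64) (nat_lit 94) (nat_lit 1) (.cons
 (nat_lit 456) (nat_lit 838) (nat_lit 360) (nat_lit 1) .nil)), (nat_lit 5), (nat_lit 0), (nat_lit 0), (nat_lit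
 0), (30, 23, 7), [380, 265], 0⟩,
  ⟨⟨45, 8, -49, -20, 33, -20, 6, -24, -41⟩, (.cons (nat_lit 472) (nat_lit 36) (nat_lit 870) (nat_lit 1) (.cons
 (nat_lit 216) (nat_lit 1028) (nat_lit 815) (nat_lit 1) .nil)), (nat_lit 25), (nat_lit 0), (nat_lit 0),
 (nat_lit 0), (40, 24, 21), [668, 329], 0⟩,
  mz,
  mz,
  ⟨⟨39, -32, -31, -20, -33, 40, -6, -24, -35⟩, (.cons (nat_lit 290) (nat_lit 784) (nat_lit 235) (nat_lit 1)
 (.cons (nat_lit 750) (nat_lit 1106) (nat_lit 1043) (nat_lit 1) .nil)), (nat_lit 19), (nat_lit 0), (nat_lit 0),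
 (nat_lit 0), (28, 23, 21), [467, 1120], 0⟩,
  ⟨⟨-21, 32, -28, -2, -35, -34, 28, 20, -41⟩, (.cons (nat_lit 227) (nat_lit 400) (nat_lit 775) (nat_lit 1)
 (.cons (nat_lit 1092) (nat_lit 1010) (nat_lit 199) (nat_lit 1) .nil)), (nat_lit 5), (nat_lit 0), (nat_lit 0),
 (nat_lit 0), (30, 23, 7), [181, 437], 0⟩,
  ⟨⟨17, 36, -45, -20, -23, -30, 38, -8, -37⟩, (.cons (nat_lit 296) (nat_lit 541) (nat_lit 25) (nat_lit 1)
 (.cons (nat_lit 211) (nat_lit 1386) (nat_lit 347) (nat_lit 1) .nil)), (nat_lit 32), (nat_lit 0), (nat_lit 0),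
 (nat_lit 0), (45, 30, 37), [957, 1426], 0⟩,
  ⟨⟨-45, -8, -4, 20, -33, -40, -6, 24, -35⟩, (.cons (nat_lit 367) (nat_lit 856) (nat_lit 185) (nat_lit 1)
 (.cons (nat_lit 1213) (nat_lit 1182) (nat_lit 1836) (nat_lit 1) .nil)), (nat_lit 25), (nat_lit 0), (nat_lit
 0), (nat_lit 0), (29, 8, 7), [24, 1065], 0⟩,
  ⟨⟨19, 0, 44, 0, -47, 0, 42, 0, -19⟩, (.cons (nat_lit 960) (nat_lit 19) (nat_lit 274) (nat_lit 1) (.cons (nat_lit 1848) (nat_lit 55) (nat_lit 1645) (nat_lit 1) .nil)), (nat_lit 29), (nat_lit 0), (nat_lit 0), (nat_lit 0), (31, 0, 24), [326, 328], 0⟩,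
  mz,
  ⟨⟨9, -4, -61, -40, 23, 10, 22, 32, -29⟩, (.cons (nat_lit 370) (nat_lit 545) (nat_lit 721) (nat_lit 1) (.cons
 (nat_lit 845) (nat_lit 1233) (nat_lit 1253) (nat_lit 1) .nil)), (nat_lit 20), (nat_lit 0), (nat_lit 0),
 (nat_lit 0), (36, 28, 41), [175, 362], 0⟩,
  ⟨⟨-9, 4, -52, 40, -23, -30, -22, -32, -7⟩, (.cons (nat_lit 135) (nat_lit 178) (nat_lit 767) (nat_lit 1)
 (.cons (nat_lit 226) (nat_lit 1137) (nat_lit 420) (nat_lit 1) .nil)), (nat_lit 20), (nat_lit 0), (nat_lit 0),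
 (nat_lit 0), (18, 14, 44), [454, 159], 0⟩,
  ⟨⟨-39, -8, -17, 2, 45, -16, 12, -12, -49⟩, (.cons (nat_lit 112) (nat_lit 49) (nat_lit 93) (nat_lit 1) (.cons
 (nat_lit 1592) (nat_lit 1585) (nat_lit 1398) (nat_lit 1) .nil)), (nat_lit 14), (nat_lit 0), (nat_lit 0),
 (nat_lit 0), (3, 36, 28), [583, 1779], 0⟩,
  mz,
  ⟨⟨17, 36, 28, 20, 23, -50, 38, -8, -1⟩, (.cons (nat_lit 255) (nat_lit 852) (nat_lit 118) (nat_lit 1) (.cons
 (nat_lit 484) (nat_lit 1197) (nat_lit 1569) (nat_lit 1) .nil)), (nat_lit 16), (nat_lit 0), (nat_lit 0),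
 (nat_lit 0), (28, 44, 46), [463, 400], 0⟩,
  ⟨⟨27, -32, -47, -40, -17, 0, 10, 16, -47⟩, (.cons (nat_lit 569) (nat_lit 521) (nat_lit 453) (nat_lit 1)
 (.cons (nat_lit 1543) (nat_lit 397) (nat_lit 1718) (nat_lit 1) .nil)), (nat_lit 38), (nat_lit 0), (nat_lit 0),
 (nat_lit 0), (46, 45, 24), [47, 361], 0⟩,
  mz,
  ⟨⟨17, -48, -17, 40, 17, -40, -10, -16, -37⟩, (.cons (nat_lit 726) (nat_lit 17) (nat_lit 703) (nat_lit 1)
 (.cons (nat_lit 1721) (nat_lit 965) (nat_lit 1277) (nat_lit 1) .nil)), (nat_lit 9), (nat_lit 0), (nat_lit 0),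
 (nat_lit 0), (6, 39, 2), [947, 728], 0⟩,
  mz,
  mz,
  mz,
  ⟨⟨-25, -12, -36, 22, 35, -36, 20, -28, -37⟩, (.cons (nat_lit 716) (nat_lit 747) (nat_lit 284) (nat_lit 1)
 (.cons (nat_lit 1216) (nat_lit 256) (nat_lit 1030) (nat_lit 1) .nil)), (nat_lit 2), (nat_lit 0), (nat_lit 0),
 (nat_lit 0), (9, 9, 21), [397, 720], 0⟩,
  mz,
  ⟨⟨51, 4, -32, 2, -45, -16, 12, 12, -49⟩, (.cons (nat_lit 141) (nat_lit 580) (nat_lit 1) (nat_lit 372) (.cons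
 (nat_lit 1623) (nat_lit 643) (nat_lit 1797) (nat_lit 1) .nil)), (nat_lit 33), (nat_lit 0), (nat_lit 0),
 (nat_lit 0), (7, 27, 21), [888, 314], 0⟩,
  ⟨⟨-21, -32, -28, -2, 35, -34, 28, -20, -41⟩, (.cons (nat_lit 585) (nat_lit 266) (nat_lit 587) (nat_lit 1)
 (.cons (nat_lit 663) (nat_lit 394) (nat_lit 1039) (nat_lit 1) .nil)), (nat_lit 5), (nat_lit 0), (nat_lit 0),
 (nat_lit 0), (33, 30, 3), [109, 220], 0⟩,
  ⟨⟨-45, 16, 44, -22, -35, -14, -20, 28, -17⟩, (.cons (nat_lit 299) (nat_lit 246) (nat_lit 960) (nat_lit 1)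
 (.cons (nat_lit 533) (nat_lit 221) (nat_lit 374) (nat_lit 1) .nil)), (nat_lit 45), (nat_lit 0), (nat_lit 0),
 (nat_lit 0), (34, 2, 36), [332, 824], 0⟩]

/-- Moves. -/
noncomputable def t4_4 : List Mv := [
  mz,
  ⟨⟨45, 16, -1, 22, -35, -36, 20, 28, -37⟩, (.cons (nat_lit 80) (nat_lit 636) (nat_lit 469) (nat_lit 1) (.cons
 (nat_lit 241) (nat_lit 49) (nat_lit 615) (nat_lit 1) .nil)), (nat_lit 45), (nat_lit 0), (nat_lit 0), (nat_lit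
 0), (34, 2, 36), [597, 222], 0⟩,
  ⟨⟨21, -32, -49, 2, 35, -36, -28, -20, -13⟩, (.cons (nat_lit 245) (nat_lit 677) (nat_lit 1) (nat_lit 589)
 (.cons (nat_lit 369) (nat_lit 781) (nat_lit 1627) (nat_lit 1) .nil)), (nat_lit 5), (nat_lit 0), (nat_lit 0),
 (nat_lit 0), (33, 30, 3), [509, 736], 0⟩,
  ⟨⟨39, 8, -56, -2, -45, -14, -12, 12, -37⟩, (.cons (nat_lit 235) (nat_lit 564) (nat_lit 1) (nat_lit 930)
 (.cons (nat_lit 118) (nat_lit 45) (nat_lit 568) (nat_lit 1) .nil)), (nat_lit 14), (nat_lit 0), (nat_lit 0),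
 (nat_lit 0), (14, 27, 21), [121, 529], 0⟩,
  mz,
  ⟨⟨-45, -16, 44, -22, 35, -14, -20, -28, -17⟩, (.cons (nat_lit 23) (nat_lit 609) (nat_lit 914) (nat_lit 1)
 (.cons (nat_lit 700) (nat_lit 1550) (nat_lit 1206) (nat_lit 1) .nil)), (nat_lit 45), (nat_lit 0), (nat_lit 0),
 (nat_lit 0), (12, 9, 21), [1, 1451], 0⟩,
  mz,
  mz,
  mz,
  ⟨⟨-17, -48, 0, 40, -17, 0, 10, -16, -47⟩, (.cons (nat_lit 272) (nat_lit 583) (nat_lit 454) (nat_lit 1) (.cons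
 (nat_lit 757) (nat_lit 1550) (nat_lit 224) (nat_lit 1) .nil)), (nat_lit 36), (nat_lit 0), (nat_lit 0),
 (nat_lit 0), (6, 8, 2), [579, 527], 0⟩,
  mz,
  ⟨⟨17, 48, -17, -40, 17, 40, -10, 16, -37⟩, (.cons (nat_lit 788) (nat_lit 460) (nat_lit 809) (nat_lit 1)
 (.cons (nat_lit 560) (nat_lit 1183) (nat_lit 1828) (nat_lit 1) .nil)), (nat_lit 36), (nat_lit 0), (nat_lit 0),
 (nat_lit 0), (25, 2, 24), [823, 513], 0⟩,
  ⟨⟨17, -36, -45, -20, 23, -30, 38, 8, -37⟩, (.cons (nat_lit 804) (nat_lit 407) (nat_lit 811) (nat_lit 1)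
 (.cons (nat_lit 28) (nat_lit 13) (nat_lit 149) (nat_lit 1) .nil)), (nat_lit 32), (nat_lit 0), (nat_lit 0),
 (nat_lit 0), (19, 44, 1), [113, 878], 0⟩,
  mz,
  ⟨⟨39, -8, -56, 2, -45, 14, -12, -12, -37⟩, (.cons (nat_lit 372) (nat_lit 382) (nat_lit 229) (nat_lit 1)
 (.cons (nat_lit 1802) (nat_lit 266) (nat_lit 810) (nat_lit 1) .nil)), (nat_lit 3), (nat_lit 0), (nat_lit 0),
 (nat_lit 0), (3, 11, 28), [839, 1842], 0⟩,
  ⟨⟨13, -36, 32, 40, 23, -10, 22, -32, -29⟩, (.cons (nat_lit 566) (nat_lit 948) (nat_lit 733) (nat_lit 1)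
 (.cons (nat_lit 1528) (nat_lit 1589) (nat_lit 400) (nat_lit 1) .nil)), (nat_lit 12), (nat_lit 0), (nat_lit 0),
 (nat_lit 0), (26, 33, 44), [269, 1051], 0⟩,
  ⟨⟨-13, 36, 45, 40, 23, -30, -22, 32, -7⟩, (.cons (nat_lit 428) (nat_lit 768) (nat_lit 281) (nat_lit 1) (.cons
 (nat_lit 1533) (nat_lit 444) (nat_lit 37) (nat_lit 1) .nil)), (nat_lit 27), (nat_lit 0), (nat_lit 0), (nat_lit
 0), (5, 28, 41), [314, 706], 0⟩,
  mz,
  ⟨⟨19, 0, -63, 0, -47, 0, 42, 0, -23⟩, (.cons (nat_lit 702) (nat_lit 397) (nat_lit 887) (nat_lit 1) (.cons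
 (nat_lit 861) (nat_lit 1716) (nat_lit 1136) (nat_lit 1) .nil)), (nat_lit 29), (nat_lit 0), (nat_lit 0),
 (nat_lit 0), (16, 0, 23), [832, 1084], 0⟩,
  ⟨⟨45, -8, -49, 20, 33, 20, 6, 24, -41⟩, (.cons (nat_lit 441) (nat_lit 621) (nat_lit 320) (nat_lit 1) (.cons
 (nat_lit 345) (nat_lit 268) (nat_lit 1695) (nat_lit 1) .nil)), (nat_lit 28), (nat_lit 0), (nat_lit 0),
 (nat_lit 0), (29, 39, 7), [296, 243], 0⟩,
  ⟨⟨17, -36, 28, -20, 23, 50, 38, 8, -1⟩, (.cons (nat_lit 420) (nat_lit 198) (nat_lit 756) (nat_lit 1) (.cons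
 (nat_lit 90) (nat_lit 1214) (nat_lit 1029) (nat_lit 1) .nil)), (nat_lit 32), (nat_lit 0), (nat_lit 0),
 (nat_lit 0), (2, 17, 10), [296, 853], 0⟩,
  ⟨⟨-49, -12, 36, 2, -35, -36, -28, 20, -13⟩, (.cons (nat_lit 795) (nat_lit 883) (nat_lit 585) (nat_lit 1)
 (.cons (nat_lit 275) (nat_lit 968) (nat_lit 1220) (nat_lit 1) .nil)), (nat_lit 42), (nat_lit 0), (nat_lit 0),
 (nat_lit 0), (24, 23, 7), [456, 7], 0⟩,
  ⟨⟨45, 8, -49, 20, -33, 20, 6, -24, -41⟩, (.cons (nat_lit 745) (nat_lit 197) (nat_lit 425) (nat_lit 1) (.cons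
 (nat_lit 922) (nat_lit 1560) (nat_lit 1322) (nat_lit 1) .nil)), (nat_lit 28), (nat_lit 0), (nat_lit 0),
 (nat_lit 0), (40, 23, 21), [639, 45], 0⟩,
  mz,
  mz,
  ⟨⟨39, -32, -31, 20, 33, -40, -6, -24, -35⟩, (.cons (nat_lit 226) (nat_lit 513) (nat_lit 385) (nat_lit 1)
 (.cons (nat_lit 1635) (nat_lit 1810) (nat_lit 604) (nat_lit 1) .nil)), (nat_lit 22), (nat_lit 0), (nat_lit 0),
 (nat_lit 0), (28, 24, 21), [385, 1232], 0⟩,
  ⟨⟨-21, 32, -28, -2, -35, -34, 28, 20, -41⟩, (.cons (nat_lit 227) (nat_lit 400) (nat_lit 775) (nat_lit 1)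
 (.cons (nat_lit 1092) (nat_lit 1010) (nat_lit 199) (nat_lit 1) .nil)), (nat_lit 5), (nat_lit 0), (nat_lit 0),
 (nat_lit 0), (30, 23, 7), [181, 437], 0⟩,
  ⟨⟨21, -44, 8, 20, 23, 30, 38, -8, -37⟩, (.cons (nat_lit 928) (nat_lit 21) (nat_lit 774) (nat_lit 1) (.cons
 (nat_lit 625) (nat_lit 1828) (nat_lit 1496) (nat_lit 1) .nil)), (nat_lit 31), (nat_lit 0), (nat_lit 0),
 (nat_lit 0), (39, 17, 37), [533, 1008], 0⟩,
  ⟨⟨39, 32, -31, 20, -33, -40, -6, 24, -35⟩, (.cons (nat_lit 218) (nat_lit 299) (nat_lit 567) (nat_lit 1)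
 (.cons (nat_lit 1109) (nat_lit 624) (nat_lit 159) (nat_lit 1) .nil)), (nat_lit 22), (nat_lit 0), (nat_lit 0),
 (nat_lit 0), (25, 8, 7), [236, 377], 0⟩,
  ⟨⟨19, 0, 44, 0, -47, 0, 42, 0, -19⟩, (.cons (nat_lit 960) (nat_lit 19) (nat_lit 274) (nat_lit 1) (.cons (nat_lit 1848) (nat_lit 55) (nat_lit 1645) (nat_lit 1) .nil)), (nat_lit 29), (nat_lit 0), (nat_lit 0), (nat_lit 0), (31, 0, 24), [326, 328], 0⟩,
  mz,
  ⟨⟨9, -4, -61, 40, -23, -10, 22, 32, -29⟩, (.cons (nat_lit 420) (nat_lit 710) (nat_lit 896) (nat_lit 1) (.cons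
 (nat_lit 1415) (nat_lit 372) (nat_lit 729) (nat_lit 1) .nil)), (nat_lit 35), (nat_lit 0), (nat_lit 0),
 (nat_lit 0), (36, 19, 41), [368, 738], 0⟩,
  ⟨⟨-13, -36, 45, 40, -23, -30, -22, -32, -7⟩, (.cons (nat_lit 724) (nat_lit 404) (nat_lit 159) (nat_lit 1)
 (.cons (nat_lit 333) (nat_lit 712) (nat_lit 936) (nat_lit 1) .nil)), (nat_lit 27), (nat_lit 0), (nat_lit 0),
 (nat_lit 0), (26, 14, 44), [198, 1234], 0⟩,
  ⟨⟨-39, -8, -17, 2, 45, -16, 12, -12, -49⟩, (.cons (nat_lit 112) (nat_lit 49) (nat_lit 93) (nat_lit 1) (.cons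
 (nat_lit 1592) (nat_lit 1585) (nat_lit 1398) (nat_lit 1) .nil)), (nat_lit 14), (nat_lit 0), (nat_lit 0),
 (nat_lit 0), (3, 36, 28), [583, 1779], 0⟩,
  mz,
  ⟨⟨17, 36, 28, 20, 23, -50, 38, -8, -1⟩, (.cons (nat_lit 255) (nat_lit 852) (nat_lit 118) (nat_lit 1) (.cons
 (nat_lit 484) (nat_lit 1197) (nat_lit 1569) (nat_lit 1) .nil)), (nat_lit 16), (nat_lit 0), (nat_lit 0),
 (nat_lit 0), (28, 44, 46), [463, 400], 0⟩,
  ⟨⟨27, -32, -47, -40, -17, 0, 10, 16, -47⟩, (.cons (nat_lit 569) (nat_lit 521) (nat_lit 453) (nat_lit 1)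
 (.cons (nat_lit 1543) (nat_lit 397) (nat_lit 1718) (nat_lit 1) .nil)), (nat_lit 38), (nat_lit 0), (nat_lit 0),
 (nat_lit 0), (46, 45, 24), [47, 361], 0⟩,
  mz,
  ⟨⟨17, -48, -17, 40, 17, -40, -10, -16, -37⟩, (.cons (nat_lit 726) (nat_lit 17) (nat_lit 703) (nat_lit 1)
 (.cons (nat_lit 1721) (nat_lit 965) (nat_lit 1277) (nat_lit 1) .nil)), (nat_lit 9), (nat_lit 0), (nat_lit 0),
 (nat_lit 0), (6, 39, 2), [947, 728], 0⟩,
  mz,
  mz,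
  mz,
  ⟨⟨-25, -12, -36, -22, -35, 36, 20, -28, -37⟩, (.cons (nat_lit 851) (nat_lit 69) (nat_lit 924) (nat_lit 1)
 (.cons (nat_lit 511) (nat_lit 884) (nat_lit 1542) (nat_lit 1) .nil)), (nat_lit 21), (nat_lit 0), (nat_lit 0),
 (nat_lit 0), (9, 38, 21), [499, 1035], 0⟩,
  mz,
  ⟨⟨51, 4, -32, 2, -45, -16, 12, 12, -49⟩, (.cons (nat_lit 141) (nat_lit 580) (nat_lit 1) (nat_lit 372) (.cons
 (nat_lit 1623) (nat_lit 643) (nat_lit 1797) (nat_lit 1) .nil)), (nat_lit 33), (nat_lit 0), (nat_lit 0),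
 (nat_lit 0), (7, 27, 21), [888, 314], 0⟩,
  ⟨⟨-21, -32, -28, 2, -35, 34, 28, -20, -41⟩, (.cons (nat_lit 45) (nat_lit 462) (nat_lit 45) (nat_lit 1) (.cons
 (nat_lit 1457) (nat_lit 1578) (nat_lit 537) (nat_lit 1) .nil)), (nat_lit 46), (nat_lit 0), (nat_lit 0),
 (nat_lit 0), (33, 17, 3), [561, 1465], 0⟩,
  ⟨⟨-45, 16, 44, -22, -35, -14, -20, 28, -17⟩, (.cons (nat_lit 299) (nat_lit 246) (nat_lit 960) (nat_lit 1)
 (.cons (nat_lit 533) (nat_lit 221) (nat_lit 374) (nat_lit 1) .nil)), (nat_lit 45), (nat_lit 0), (nat_lit 0),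
 (nat_lit 0), (34, 2, 36), [332, 824], 0⟩]

/-- Moves. -/
noncomputable def t4_6 : List Mv := [
  mz,
  ⟨⟨45, 16, -1, 22, -35, -36, 20, 28, -37⟩, (.cons (nat_lit 80) (nat_lit 636) (nat_lit 469) (nat_lit 1) (.cons
 (nat_lit 241) (nat_lit 49) (nat_lit 615) (nat_lit 1) .nil)), (nat_lit 45), (nat_lit 0), (nat_lit 0), (nat_lit
 0), (34, 2, 36), [597, 222], 0⟩,
  ⟨⟨-49, 12, 36, -2, -35, 36, -28, -20, -13⟩, (.cons (nat_lit 276) (nat_lit 620) (nat_lit 664) (nat_lit 1)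
 (.cons (nat_lit 1328) (nat_lit 1346) (nat_lit 1140) (nat_lit 1) .nil)), (nat_lit 1), (nat_lit 0), (nat_lit 0),
 (nat_lit 0), (17, 17, 3), [668, 734], 0⟩,
  ⟨⟨39, 8, -56, -2, -45, -14, -12, 12, -37⟩, (.cons (nat_lit 235) (nat_lit 564) (nat_lit 1) (nat_lit 930)
 (.cons (nat_lit 118) (nat_lit 45) (nat_lit 568) (nat_lit 1) .nil)), (nat_lit 14), (nat_lit 0), (nat_lit 0),
 (nat_lit 0), (14, 27, 21), [121, 529], 0⟩,
  mz,
  ⟨⟨-45, -16, 44, 22, -35, 14, -20, -28, -17⟩, (.cons (nat_lit 834) (nat_lit 828) (nat_lit 403) (nat_lit 1)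
 (.cons (nat_lit 425) (nat_lit 1567) (nat_lit 479) (nat_lit 1) .nil)), (nat_lit 26), (nat_lit 0), (nat_lit 0),
 (nat_lit 0), (12, 38, 21), [792, 1164], 0⟩,
  mz,
  mz,
  mz,
  ⟨⟨27, 32, -47, -40, 17, 0, 10, -16, -47⟩, (.cons (nat_lit 229) (nat_lit 912) (nat_lit 461) (nat_lit 1) (.cons
 (nat_lit 130) (nat_lit 282) (nat_lit 400) (nat_lit 1) .nil)), (nat_lit 38), (nat_lit 0), (nat_lit 0), (nat_lit
 0), (43, 39, 2), [30, 1803], 0⟩,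
  mz,
  ⟨⟨17, 48, -17, 40, -17, -40, -10, 16, -37⟩, (.cons (nat_lit 875) (nat_lit 223) (nat_lit 539) (nat_lit 1)
 (.cons (nat_lit 339) (nat_lit 1409) (nat_lit 776) (nat_lit 1) .nil)), (nat_lit 9), (nat_lit 0), (nat_lit 0),
 (nat_lit 0), (25, 45, 24), [262, 1350], 0⟩,
  ⟨⟨17, -36, -45, -20, 23, -30, 38, 8, -37⟩, (.cons (nat_lit 804) (nat_lit 407) (nat_lit 811) (nat_lit 1)
 (.cons (nat_lit 28) (nat_lit 13) (nat_lit 149) (nat_lit 1) .nil)), (nat_lit 32), (nat_lit 0), (nat_lit 0),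
 (nat_lit 0), (19, 44, 1), [113, 878], 0⟩,
  mz,
  ⟨⟨-51, -4, 19, -2, 45, -14, -12, -12, -37⟩, (.cons (nat_lit 266) (nat_lit 420) (nat_lit 248) (nat_lit 1)
 (.cons (nat_lit 259) (nat_lit 1812) (nat_lit 322) (nat_lit 1) .nil)), (nat_lit 33), (nat_lit 0), (nat_lit 0),
 (nat_lit 0), (25, 36, 28), [784, 790], 0⟩,
  ⟨⟨9, 4, -61, 40, 23, -10, 22, -32, -29⟩, (.cons (nat_lit 129) (nat_lit 274) (nat_lit 907) (nat_lit 1) (.cons
 (nat_lit 1181) (nat_lit 475) (nat_lit 443) (nat_lit 1) .nil)), (nat_lit 35), (nat_lit 0), (nat_lit 0),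
 (nat_lit 0), (18, 33, 44), [906, 363], 0⟩,
  ⟨⟨-13, 36, 45, 40, 23, -30, -22, 32, -7⟩, (.cons (nat_lit 428) (nat_lit 768) (nat_lit 281) (nat_lit 1) (.cons
 (nat_lit 1533) (nat_lit 444) (nat_lit 37) (nat_lit 1) .nil)), (nat_lit 27), (nat_lit 0), (nat_lit 0), (nat_lit
 0), (5, 28, 41), [314, 706], 0⟩,
  mz,
  ⟨⟨19, 0, -63, 0, -47, 0, 42, 0, -23⟩, (.cons (nat_lit 702) (nat_lit 397) (nat_lit 887) (nat_lit 1) (.cons
 (nat_lit 861) (nat_lit 1716) (nat_lit 1136) (nat_lit 1) .nil)), (nat_lit 29), (nat_lit 0), (nat_lit 0),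
 (nat_lit 0), (16, 0, 23), [832, 1084], 0⟩,
  ⟨⟨45, -8, -49, 20, 33, 20, 6, 24, -41⟩, (.cons (nat_lit 441) (nat_lit 621) (nat_lit 320) (nat_lit 1) (.cons
 (nat_lit 345) (nat_lit 268) (nat_lit 1695) (nat_lit 1) .nil)), (nat_lit 28), (nat_lit 0), (nat_lit 0),
 (nat_lit 0), (29, 39, 7), [296, 243], 0⟩,
  ⟨⟨17, -36, 28, 20, -23, -50, 38, 8, -1⟩, (.cons (nat_lit 256) (nat_lit 165) (nat_lit 315) (nat_lit 1) (.cons
 (nat_lit 109) (nat_lit 709) (nat_lit 310) (nat_lit 1) .nil)), (nat_lit 16), (nat_lit 0), (nat_lit 0), (nat_lit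
 0), (2, 30, 10), [537, 1658], 0⟩,
  ⟨⟨-49, -12, 36, -2, 35, 36, -28, 20, -13⟩, (.cons (nat_lit 333) (nat_lit 240) (nat_lit 381) (nat_lit 1)
 (.cons (nat_lit 1302) (nat_lit 807) (nat_lit 335) (nat_lit 1) .nil)), (nat_lit 1), (nat_lit 0), (nat_lit 0),
 (nat_lit 0), (24, 24, 7), [187, 290], 0⟩,
  ⟨⟨45, 8, -49, -20, 33, -20, 6, -24, -41⟩, (.cons (nat_lit 472) (nat_lit 36) (nat_lit 870) (nat_lit 1) (.cons
 (nat_lit 216) (nat_lit 1028) (nat_lit 815) (nat_lit 1) .nil)), (nat_lit 25), (nat_lit 0), (nat_lit 0),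
 (nat_lit 0), (40, 24, 21), [668, 329], 0⟩,
  mz,
  mz,
  ⟨⟨39, -32, -31, 20, 33, -40, -6, -24, -35⟩, (.cons (nat_lit 226) (nat_lit 513) (nat_lit 385) (nat_lit 1)
 (.cons (nat_lit 1635) (nat_lit 1810) (nat_lit 604) (nat_lit 1) .nil)), (nat_lit 22), (nat_lit 0), (nat_lit 0),
 (nat_lit 0), (28, 24, 21), [385, 1232], 0⟩,
  ⟨⟨-21, 32, -28, 2, 35, 34, 28, 20, -41⟩, (.cons (nat_lit 654) (nat_lit 917) (nat_lit 37) (nat_lit 1) (.cons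
 (nat_lit 614) (nat_lit 1687) (nat_lit 224) (nat_lit 1) .nil)), (nat_lit 46), (nat_lit 0), (nat_lit 0),
 (nat_lit 0), (30, 24, 7), [583, 32], 0⟩,
  ⟨⟨17, 36, -45, 20, 23, 30, 38, -8, -37⟩, (.cons (nat_lit 842) (nat_lit 97) (nat_lit 765) (nat_lit 1) (.cons
 (nat_lit 708) (nat_lit 1827) (nat_lit 1539) (nat_lit 1) .nil)), (nat_lit 16), (nat_lit 0), (nat_lit 0),
 (nat_lit 0), (45, 17, 37), [7, 1180], 0⟩,
  ⟨⟨39, 32, -31, -20, 33, 40, -6, 24, -35⟩, (.cons (nat_lit 815) (nat_lit 332) (nat_lit 592) (nat_lit 1) (.cons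
 (nat_lit 1506) (nat_lit 1323) (nat_lit 799) (nat_lit 1) .nil)), (nat_lit 19), (nat_lit 0), (nat_lit 0),
 (nat_lit 0), (25, 39, 7), [571, 1318], 0⟩,
  ⟨⟨23, 0, -63, 0, 47, 0, 42, 0, -19⟩, (.cons (nat_lit 820) (nat_lit 239) (nat_lit 137) (nat_lit 1) (.cons
 (nat_lit 990) (nat_lit 391) (nat_lit 1401) (nat_lit 1) .nil)), (nat_lit 18), (nat_lit 0), (nat_lit 0),
 (nat_lit 0), (40, 0, 24), [701, 1453], 0⟩,
  mz,
  ⟨⟨13, 36, 32, -40, 23, 10, 22, 32, -29⟩, (.cons (nat_lit 728) (nat_lit 88) (nat_lit 635) (nat_lit 1) (.cons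
 (nat_lit 1778) (nat_lit 358) (nat_lit 823) (nat_lit 1) .nil)), (nat_lit 27), (nat_lit 0), (nat_lit 0),
 (nat_lit 0), (5, 28, 41), [327, 276], 0⟩,
  ⟨⟨-9, 4, -52, 40, -23, -30, -22, -32, -7⟩, (.cons (nat_lit 135) (nat_lit 178) (nat_lit 767) (nat_lit 1)
 (.cons (nat_lit 226) (nat_lit 1137) (nat_lit 420) (nat_lit 1) .nil)), (nat_lit 20), (nat_lit 0), (nat_lit 0),
 (nat_lit 0), (18, 14, 44), [454, 159], 0⟩,
  ⟨⟨-39, -8, -17, 2, 45, -16, 12, -12, -49⟩, (.cons (nat_lit 112) (nat_lit 49) (nat_lit 93) (nat_lit 1) (.cons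
 (nat_lit 1592) (nat_lit 1585) (nat_lit 1398) (nat_lit 1) .nil)), (nat_lit 14), (nat_lit 0), (nat_lit 0),
 (nat_lit 0), (3, 36, 28), [583, 1779], 0⟩,
  mz,
  ⟨⟨17, 36, 28, 20, 23, -50, 38, -8, -1⟩, (.cons (nat_lit 255) (nat_lit 852) (nat_lit 118) (nat_lit 1) (.cons
 (nat_lit 484) (nat_lit 1197) (nat_lit 1569) (nat_lit 1) .nil)), (nat_lit 16), (nat_lit 0), (nat_lit 0),
 (nat_lit 0), (28, 44, 46), [463, 400], 0⟩,
  ⟨⟨27, -32, -47, 40, 17, 0, 10, 16, -47⟩, (.cons (nat_lit 911) (nat_lit 897) (nat_lit 88) (nat_lit 1) (.cons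
 (nat_lit 1291) (nat_lit 21) (nat_lit 1225) (nat_lit 1) .nil)), (nat_lit 11), (nat_lit 0), (nat_lit 0),
 (nat_lit 0), (46, 2, 24), [960, 169], 0⟩,
  mz,
  ⟨⟨17, -48, -17, 40, 17, -40, -10, -16, -37⟩, (.cons (nat_lit 726) (nat_lit 17) (nat_lit 703) (nat_lit 1)
 (.cons (nat_lit 1721) (nat_lit 965) (nat_lit 1277) (nat_lit 1) .nil)), (nat_lit 9), (nat_lit 0), (nat_lit 0),
 (nat_lit 0), (6, 39, 2), [947, 728], 0⟩,
  mz,
  mz,
  mz,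
  ⟨⟨45, -16, -1, 22, 35, -36, 20, -28, -37⟩, (.cons (nat_lit 864) (nat_lit 259) (nat_lit 498) (nat_lit 1)
 (.cons (nat_lit 1321) (nat_lit 1808) (nat_lit 471) (nat_lit 1) .nil)), (nat_lit 45), (nat_lit 0), (nat_lit 0),
 (nat_lit 0), (12, 9, 21), [881, 1021], 0⟩,
  mz,
  ⟨⟨51, 4, -32, 2, -45, -16, 12, 12, -49⟩, (.cons (nat_lit 141) (nat_lit 580) (nat_lit 1) (nat_lit 372) (.cons
 (nat_lit 1623) (nat_lit 643) (nat_lit 1797) (nat_lit 1) .nil)), (nat_lit 33), (nat_lit 0), (nat_lit 0),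
 (nat_lit 0), (7, 27, 21), [888, 314], 0⟩,
  ⟨⟨-21, -32, -28, -2, 35, -34, 28, -20, -41⟩, (.cons (nat_lit 585) (nat_lit 266) (nat_lit 587) (nat_lit 1)
 (.cons (nat_lit 663) (nat_lit 394) (nat_lit 1039) (nat_lit 1) .nil)), (nat_lit 5), (nat_lit 0), (nat_lit 0),
 (nat_lit 0), (33, 30, 3), [109, 220], 0⟩,
  ⟨⟨-45, 16, 44, 22, 35, 14, -20, 28, -17⟩, (.cons (nat_lit 889) (nat_lit 676) (nat_lit 742) (nat_lit 1) (.cons
 (nat_lit 792) (nat_lit 723) (nat_lit 96) (nat_lit 1) .nil)), (nat_lit 26), (nat_lit 0), (nat_lit 0), (nat_lit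
 0), (34, 45, 36), [888, 1553], 0⟩]

/-- Moves. -/
noncomputable def t4_8 : List Mv := [
  mz,
  ⟨⟨-25, 12, -36, -22, 35, 36, 20, 28, -37⟩, (.cons (nat_lit 430) (nat_lit 588) (nat_lit 501) (nat_lit 1)
 (.cons (nat_lit 1609) (nat_lit 1384) (nat_lit 893) (nat_lit 1) .nil)), (nat_lit 21), (nat_lit 0), (nat_lit 0),
 (nat_lit 0), (2, 45, 36), [481, 134], 0⟩,
  ⟨⟨21, -32, -49, 2, 35, -36, -28, -20, -13⟩, (.cons (nat_lit 245) (nat_lit 677) (nat_lit 1) (nat_lit 589)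
 (.cons (nat_lit 369) (nat_lit 781) (nat_lit 1627) (nat_lit 1) .nil)), (nat_lit 5), (nat_lit 0), (nat_lit 0),
 (nat_lit 0), (33, 30, 3), [509, 736], 0⟩,
  ⟨⟨-51, 4, 19, -2, -45, -14, -12, 12, -37⟩, (.cons (nat_lit 940) (nat_lit 526) (nat_lit 246) (nat_lit 1)
 (.cons (nat_lit 785) (nat_lit 170) (nat_lit 52) (nat_lit 1) .nil)), (nat_lit 33), (nat_lit 0), (nat_lit 0),
 (nat_lit 0), (7, 27, 21), [430, 1389], 0⟩,
  mz,
  ⟨⟨25, -12, -61, -22, 35, -14, -20, -28, -17⟩, (.cons (nat_lit 124) (nat_lit 515) (nat_lit 455) (nat_lit 1)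
 (.cons (nat_lit 461) (nat_lit 514) (nat_lit 647) (nat_lit 1) .nil)), (nat_lit 2), (nat_lit 0), (nat_lit 0),
 (nat_lit 0), (9, 9, 21), [153, 1150], 0⟩,
  mz,
  mz,
  mz,
  ⟨⟨27, 32, -47, -40, 17, 0, 10, -16, -47⟩, (.cons (nat_lit 229) (nat_lit 912) (nat_lit 461) (nat_lit 1) (.cons
 (nat_lit 130) (nat_lit 282) (nat_lit 400) (nat_lit 1) .nil)), (nat_lit 38), (nat_lit 0), (nat_lit 0), (nat_lit
 0), (43, 39, 2), [30, 1803], 0⟩,
  mz,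
  ⟨⟨17, 48, -17, 40, -17, -40, -10, 16, -37⟩, (.cons (nat_lit 875) (nat_lit 223) (nat_lit 539) (nat_lit 1)
 (.cons (nat_lit 339) (nat_lit 1409) (nat_lit 776) (nat_lit 1) .nil)), (nat_lit 9), (nat_lit 0), (nat_lit 0),
 (nat_lit 0), (25, 45, 24), [262, 1350], 0⟩,
  ⟨⟨17, -36, -45, -20, 23, -30, 38, 8, -37⟩, (.cons (nat_lit 804) (nat_lit 407) (nat_lit 811) (nat_lit 1)
 (.cons (nat_lit 28) (nat_lit 13) (nat_lit 149) (nat_lit 1) .nil)), (nat_lit 32), (nat_lit 0), (nat_lit 0),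
 (nat_lit 0), (19, 44, 1), [113, 878], 0⟩,
  mz,
  ⟨⟨-51, -4, 19, -2, 45, -14, -12, -12, -37⟩, (.cons (nat_lit 266) (nat_lit 420) (nat_lit 248) (nat_lit 1)
 (.cons (nat_lit 259) (nat_lit 1812) (nat_lit 322) (nat_lit 1) .nil)), (nat_lit 33), (nat_lit 0), (nat_lit 0),
 (nat_lit 0), (25, 36, 28), [784, 790], 0⟩,
  ⟨⟨13, -36, 32, -40, -23, 10, 22, -32, -29⟩, (.cons (nat_lit 596) (nat_lit 214) (nat_lit 371) (nat_lit 1)
 (.cons (nat_lit 613) (nat_lit 239) (nat_lit 139) (nat_lit 1) .nil)), (nat_lit 27), (nat_lit 0), (nat_lit 0),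
 (nat_lit 0), (26, 14, 44), [188, 245], 0⟩,
  ⟨⟨-9, -4, -52, -40, -23, 30, -22, 32, -7⟩, (.cons (nat_lit 505) (nat_lit 268) (nat_lit 953) (nat_lit 1)
 (.cons (nat_lit 1509) (nat_lit 200) (nat_lit 948) (nat_lit 1) .nil)), (nat_lit 35), (nat_lit 0), (nat_lit 0),
 (nat_lit 0), (36, 19, 41), [534, 1641], 0⟩,
  mz,
  ⟨⟨19, 0, -63, 0, -47, 0, 42, 0, -23⟩, (.cons (nat_lit 702) (nat_lit 397) (nat_lit 887) (nat_lit 1) (.cons
 (nat_lit 861) (nat_lit 1716) (nat_lit 1136) (nat_lit 1) .nil)), (nat_lit 29), (nat_lit 0), (nat_lit 0),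
 (nat_lit 0), (16, 0, 23), [832, 1084], 0⟩,
  ⟨⟨-39, 32, 8, -20, -33, -20, 6, 24, -41⟩, (.cons (nat_lit 863) (nat_lit 914) (nat_lit 472) (nat_lit 1) (.cons
 (nat_lit 1127) (nat_lit 1699) (nat_lit 830) (nat_lit 1) .nil)), (nat_lit 22), (nat_lit 0), (nat_lit 0),
 (nat_lit 0), (25, 8, 7), [799, 1237], 0⟩,
  ⟨⟨17, -36, 28, -20, 23, 50, 38, 8, -1⟩, (.cons (nat_lit 420) (nat_lit 198) (nat_lit 756) (nat_lit 1) (.cons
 (nat_lit 90) (nat_lit 1214) (nat_lit 1029) (nat_lit 1) .nil)), (nat_lit 32), (nat_lit 0), (nat_lit 0),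
 (nat_lit 0), (2, 17, 10), [296, 853], 0⟩,
  ⟨⟨21, 32, -49, 2, -35, -36, -28, 20, -13⟩, (.cons (nat_lit 483) (nat_lit 64) (nat_lit 94) (nat_lit 1) (.cons
 (nat_lit 456) (nat_lit 838) (nat_lit 360) (nat_lit 1) .nil)), (nat_lit 5), (nat_lit 0), (nat_lit 0), (nat_lit
 0), (30, 23, 7), [380, 265], 0⟩,
  ⟨⟨-39, -32, 8, -20, 33, -20, 6, -24, -41⟩, (.cons (nat_lit 960) (nat_lit 720) (nat_lit 792) (nat_lit 1)
 (.cons (nat_lit 1848) (nat_lit 1122) (nat_lit 1073) (nat_lit 1) .nil)), (nat_lit 22), (nat_lit 0), (nat_lit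
 0), (nat_lit 0), (28, 24, 21), [2, 1318], 0⟩,
  mz,
  mz,
  ⟨⟨-45, 8, -4, 20, 33, -40, -6, -24, -35⟩, (.cons (nat_lit 960) (nat_lit 787) (nat_lit 294) (nat_lit 1) (.cons
 (nat_lit 1848) (nat_lit 340) (nat_lit 862) (nat_lit 1) .nil)), (nat_lit 25), (nat_lit 0), (nat_lit 0),
 (nat_lit 0), (40, 24, 21), [824, 243], 0⟩,
  ⟨⟨49, -12, -13, 2, 35, 34, 28, 20, -41⟩, (.cons (nat_lit 341) (nat_lit 925) (nat_lit 100) (nat_lit 1) (.cons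
 (nat_lit 74) (nat_lit 1065) (nat_lit 1514) (nat_lit 1) .nil)), (nat_lit 1), (nat_lit 0), (nat_lit 0), (nat_lit
 0), (24, 24, 7), [246, 376], 0⟩,
  ⟨⟨17, 36, -45, -20, -23, -30, 38, -8, -37⟩, (.cons (nat_lit 296) (nat_lit 541) (nat_lit 25) (nat_lit 1)
 (.cons (nat_lit 211) (nat_lit 1386) (nat_lit 347) (nat_lit 1) .nil)), (nat_lit 32), (nat_lit 0), (nat_lit 0),
 (nat_lit 0), (45, 30, 37), [957, 1426], 0⟩,
  ⟨⟨-45, -8, -4, 20, -33, -40, -6, 24, -35⟩, (.cons (nat_lit 367) (nat_lit 856) (nat_lit 185) (nat_lit 1)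
 (.cons (nat_lit 1213) (nat_lit 1182) (nat_lit 1836) (nat_lit 1) .nil)), (nat_lit 25), (nat_lit 0), (nat_lit
 0), (nat_lit 0), (29, 8, 7), [24, 1065], 0⟩,
  ⟨⟨23, 0, -63, 0, 47, 0, 42, 0, -19⟩, (.cons (nat_lit 820) (nat_lit 239) (nat_lit 137) (nat_lit 1) (.cons
 (nat_lit 990) (nat_lit 391) (nat_lit 1401) (nat_lit 1) .nil)), (nat_lit 18), (nat_lit 0), (nat_lit 0),
 (nat_lit 0), (40, 0, 24), [701, 1453], 0⟩,
  mz,
  ⟨⟨9, -4, -61, 40, -23, -10, 22, 32, -29⟩, (.cons (nat_lit 420) (nat_lit 710) (nat_lit 896) (nat_lit 1) (.cons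
 (nat_lit 1415) (nat_lit 372) (nat_lit 729) (nat_lit 1) .nil)), (nat_lit 35), (nat_lit 0), (nat_lit 0),
 (nat_lit 0), (36, 19, 41), [368, 738], 0⟩,
  ⟨⟨-9, 4, -52, -40, 23, 30, -22, -32, -7⟩, (.cons (nat_lit 153) (nat_lit 325) (nat_lit 507) (nat_lit 1) (.cons
 (nat_lit 1055) (nat_lit 1206) (nat_lit 546) (nat_lit 1) .nil)), (nat_lit 35), (nat_lit 0), (nat_lit 0),
 (nat_lit 0), (18, 33, 44), [223, 148], 0⟩,
  ⟨⟨51, -4, -32, -2, -45, 16, 12, -12, -49⟩, (.cons (nat_lit 248) (nat_lit 657) (nat_lit 702) (nat_lit 1)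
 (.cons (nat_lit 1759) (nat_lit 551) (nat_lit 867) (nat_lit 1) .nil)), (nat_lit 44), (nat_lit 0), (nat_lit 0),
 (nat_lit 0), (25, 11, 28), [343, 1025], 0⟩,
  mz,
  ⟨⟨17, 36, 28, -20, -23, 50, 38, -8, -1⟩, (.cons (nat_lit 201) (nat_lit 23) (nat_lit 920) (nat_lit 1) (.cons
 (nat_lit 1176) (nat_lit 1776) (nat_lit 1356) (nat_lit 1) .nil)), (nat_lit 32), (nat_lit 0), (nat_lit 0),
 (nat_lit 0), (28, 3, 46), [913, 154], 0⟩,
  ⟨⟨-17, 48, 0, -40, -17, 0, 10, 16, -47⟩, (.cons (nat_lit 53) (nat_lit 814) (nat_lit 924) (nat_lit 1) (.cons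
 (nat_lit 1424) (nat_lit 506) (nat_lit 901) (nat_lit 1) .nil)), (nat_lit 9), (nat_lit 0), (nat_lit 0), (nat_lit
 0), (25, 45, 24), [399, 1006], 0⟩,
  mz,
  ⟨⟨17, -48, -17, -40, -17, 40, -10, -16, -37⟩, (.cons (nat_lit 885) (nat_lit 195) (nat_lit 793) (nat_lit 1)
 (.cons (nat_lit 1565) (nat_lit 1808) (nat_lit 1625) (nat_lit 1) .nil)), (nat_lit 36), (nat_lit 0), (nat_lit
 0), (nat_lit 0), (6, 8, 2), [470, 613], 0⟩,
  mz,
  mz,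
  mz,
  ⟨⟨45, -16, -1, 22, 35, -36, 20, -28, -37⟩, (.cons (nat_lit 864) (nat_lit 259) (nat_lit 498) (nat_lit 1)
 (.cons (nat_lit 1321) (nat_lit 1808) (nat_lit 471) (nat_lit 1) .nil)), (nat_lit 45), (nat_lit 0), (nat_lit 0),
 (nat_lit 0), (12, 9, 21), [881, 1021], 0⟩,
  mz,
  ⟨⟨51, 4, -32, 2, -45, -16, 12, 12, -49⟩, (.cons (nat_lit 141) (nat_lit 580) (nat_lit 1) (nat_lit 372) (.cons
 (nat_lit 1623) (nat_lit 643) (nat_lit 1797) (nat_lit 1) .nil)), (nat_lit 33), (nat_lit 0), (nat_lit 0),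
 (nat_lit 0), (7, 27, 21), [888, 314], 0⟩,
  ⟨⟨-21, -32, -28, -2, 35, -34, 28, -20, -41⟩, (.cons (nat_lit 585) (nat_lit 266) (nat_lit 587) (nat_lit 1)
 (.cons (nat_lit 663) (nat_lit 394) (nat_lit 1039) (nat_lit 1) .nil)), (nat_lit 5), (nat_lit 0), (nat_lit 0),
 (nat_lit 0), (33, 30, 3), [109, 220], 0⟩,
  ⟨⟨-45, 16, 44, -22, -35, -14, -20, 28, -17⟩, (.cons (nat_lit 299) (nat_lit 246) (nat_lit 960) (nat_lit 1)
 (.cons (nat_lit 533) (nat_lit 221) (nat_lit 374) (nat_lit 1) .nil)), (nat_lit 45), (nat_lit 0), (nat_lit 0),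
 (nat_lit 0), (34, 2, 36), [332, 824], 0⟩]

/-- Moves. -/
noncomputable def t4_19 : List Mv := [
  mz,
  ⟨⟨-25, 12, -36, 22, -35, -36, 20, 28, -37⟩, (.cons (nat_lit 289) (nat_lit 527) (nat_lit 304) (nat_lit 1)
 (.cons (nat_lit 834) (nat_lit 1628) (nat_lit 1475) (nat_lit 1) .nil)), (nat_lit 2), (nat_lit 0), (nat_lit 0),
 (nat_lit 0), (2, 2, 36), [212, 1469], 0⟩,
  ⟨⟨21, -32, -49, 2, 35, -36, -28, -20, -13⟩, (.cons (nat_lit 245) (nat_lit 677) (nat_lit 1) (nat_lit 589)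
 (.cons (nat_lit 369) (nat_lit 781) (nat_lit 1627) (nat_lit 1) .nil)), (nat_lit 5), (nat_lit 0), (nat_lit 0),
 (nat_lit 0), (33, 30, 3), [509, 736], 0⟩,
  ⟨⟨39, 8, -56, 2, 45, 14, -12, 12, -37⟩, (.cons (nat_lit 960) (nat_lit 605) (nat_lit 393) (nat_lit 1) (.cons
 (nat_lit 1848) (nat_lit 148) (nat_lit 1134) (nat_lit 1) .nil)), (nat_lit 3), (nat_lit 0), (nat_lit 0),
 (nat_lit 0), (14, 20, 21), [494, 317], 0⟩,
  mz,
  ⟨⟨25, -12, -61, -22, 35, -14, -20, -28, -17⟩, (.cons (nat_lit 124) (nat_lit 515) (nat_lit 455) (nat_lit 1)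
 (.cons (nat_lit 461) (nat_lit 514) (nat_lit 647) (nat_lit 1) .nil)), (nat_lit 2), (nat_lit 0), (nat_lit 0),
 (nat_lit 0), (9, 9, 21), [153, 1150], 0⟩,
  mz,
  mz,
  mz,
  ⟨⟨-17, -48, 0, 40, -17, 0, 10, -16, -47⟩, (.cons (nat_lit 272) (nat_lit 583) (nat_lit 454) (nat_lit 1) (.cons
 (nat_lit 757) (nat_lit 1550) (nat_lit 224) (nat_lit 1) .nil)), (nat_lit 36), (nat_lit 0), (nat_lit 0),
 (nat_lit 0), (6, 8, 2), [579, 527], 0⟩,
  mz,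
  ⟨⟨17, 48, -17, 40, -17, -40, -10, 16, -37⟩, (.cons (nat_lit 875) (nat_lit 223) (nat_lit 539) (nat_lit 1)
 (.cons (nat_lit 339) (nat_lit 1409) (nat_lit 776) (nat_lit 1) .nil)), (nat_lit 9), (nat_lit 0), (nat_lit 0),
 (nat_lit 0), (25, 45, 24), [262, 1350], 0⟩,
  ⟨⟨17, -36, -45, -20, 23, -30, 38, 8, -37⟩, (.cons (nat_lit 804) (nat_lit 407) (nat_lit 811) (nat_lit 1)
 (.cons (nat_lit 28) (nat_lit 13) (nat_lit 149) (nat_lit 1) .nil)), (nat_lit 32), (nat_lit 0), (nat_lit 0),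
 (nat_lit 0), (19, 44, 1), [113, 878], 0⟩,
  mz,
  ⟨⟨39, -8, -56, 2, -45, 14, -12, -12, -37⟩, (.cons (nat_lit 372) (nat_lit 382) (nat_lit 229) (nat_lit 1)
 (.cons (nat_lit 1802) (nat_lit 266) (nat_lit 810) (nat_lit 1) .nil)), (nat_lit 3), (nat_lit 0), (nat_lit 0),
 (nat_lit 0), (3, 11, 28), [839, 1842], 0⟩,
  ⟨⟨9, 4, -61, 40, 23, -10, 22, -32, -29⟩, (.cons (nat_lit 129) (nat_lit 274) (nat_lit 907) (nat_lit 1) (.cons
 (nat_lit 1181) (nat_lit 475) (nat_lit 443) (nat_lit 1) .nil)), (nat_lit 35), (nat_lit 0), (nat_lit 0),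
 (nat_lit 0), (18, 33, 44), [906, 363], 0⟩,
  ⟨⟨-13, 36, 45, 40, 23, -30, -22, 32, -7⟩, (.cons (nat_lit 428) (nat_lit 768) (nat_lit 281) (nat_lit 1) (.cons
 (nat_lit 1533) (nat_lit 444) (nat_lit 37) (nat_lit 1) .nil)), (nat_lit 27), (nat_lit 0), (nat_lit 0), (nat_lit
 0), (5, 28, 41), [314, 706], 0⟩,
  mz,
  ⟨⟨19, 0, -63, 0, -47, 0, 42, 0, -23⟩, (.cons (nat_lit 702) (nat_lit 397) (nat_lit 887) (nat_lit 1) (.cons
 (nat_lit 861) (nat_lit 1716) (nat_lit 1136) (nat_lit 1) .nil)), (nat_lit 29), (nat_lit 0), (nat_lit 0),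
 (nat_lit 0), (16, 0, 23), [832, 1084], 0⟩,
  ⟨⟨45, -8, -49, -20, -33, -20, 6, 24, -41⟩, (.cons (nat_lit 792) (nat_lit 839) (nat_lit 314) (nat_lit 1)
 (.cons (nat_lit 249) (nat_lit 107) (nat_lit 1002) (nat_lit 1) .nil)), (nat_lit 25), (nat_lit 0), (nat_lit 0),
 (nat_lit 0), (29, 8, 7), [268, 76], 0⟩,
  ⟨⟨21, 44, -29, 20, -23, -50, 38, 8, -1⟩, (.cons (nat_lit 387) (nat_lit 505) (nat_lit 624) (nat_lit 1) (.cons
 (nat_lit 407) (nat_lit 1097) (nat_lit 353) (nat_lit 1) .nil)), (nat_lit 31), (nat_lit 0), (nat_lit 0),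
 (nat_lit 0), (8, 30, 10), [739, 1830], 0⟩,
  ⟨⟨21, 32, -49, 2, -35, -36, -28, 20, -13⟩, (.cons (nat_lit 483) (nat_lit 64) (nat_lit 94) (nat_lit 1) (.cons
 (nat_lit 456) (nat_lit 838) (nat_lit 360) (nat_lit 1) .nil)), (nat_lit 5), (nat_lit 0), (nat_lit 0), (nat_lit
 0), (30, 23, 7), [380, 265], 0⟩,
  ⟨⟨-39, -32, 8, -20, 33, -20, 6, -24, -41⟩, (.cons (nat_lit 960) (nat_lit 720) (nat_lit 792) (nat_lit 1)
 (.cons (nat_lit 1848) (nat_lit 1122) (nat_lit 1073) (nat_lit 1) .nil)), (nat_lit 22), (nat_lit 0), (nat_lit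
 0), (nat_lit 0), (28, 24, 21), [2, 1318], 0⟩,
  mz,
  mz,
  ⟨⟨-45, 8, -4, 20, 33, -40, -6, -24, -35⟩, (.cons (nat_lit 960) (nat_lit 787) (nat_lit 294) (nat_lit 1) (.cons
 (nat_lit 1848) (nat_lit 340) (nat_lit 862) (nat_lit 1) .nil)), (nat_lit 25), (nat_lit 0), (nat_lit 0),
 (nat_lit 0), (40, 24, 21), [824, 243], 0⟩,
  ⟨⟨-21, 32, -28, -2, -35, -34, 28, 20, -41⟩, (.cons (nat_lit 227) (nat_lit 400) (nat_lit 775) (nat_lit 1)
 (.cons (nat_lit 1092) (nat_lit 1010) (nat_lit 199) (nat_lit 1) .nil)), (nat_lit 5), (nat_lit 0), (nat_lit 0),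
 (nat_lit 0), (30, 23, 7), [181, 437], 0⟩,
  ⟨⟨21, -44, 8, -20, -23, -30, 38, -8, -37⟩, (.cons (nat_lit 753) (nat_lit 306) (nat_lit 288) (nat_lit 1)
 (.cons (nat_lit 1294) (nat_lit 1366) (nat_lit 1336) (nat_lit 1) .nil)), (nat_lit 15), (nat_lit 0), (nat_lit
 0), (nat_lit 0), (39, 30, 37), [689, 1039], 0⟩,
  ⟨⟨39, 32, -31, -20, 33, 40, -6, 24, -35⟩, (.cons (nat_lit 815) (nat_lit 332) (nat_lit 592) (nat_lit 1) (.cons
 (nat_lit 1506) (nat_lit 1323) (nat_lit 799) (nat_lit 1) .nil)), (nat_lit 19), (nat_lit 0), (nat_lit 0),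
 (nat_lit 0), (25, 39, 7), [571, 1318], 0⟩,
  ⟨⟨19, 0, 44, 0, -47, 0, 42, 0, -19⟩, (.cons (nat_lit 960) (nat_lit 19) (nat_lit 274) (nat_lit 1) (.cons (nat_lit 1848) (nat_lit 55) (nat_lit 1645) (nat_lit 1) .nil)), (nat_lit 29), (nat_lit 0), (nat_lit 0), (nat_lit 0), (31, 0, 24), [326, 328], 0⟩,
  mz,
  ⟨⟨9, -4, -61, 40, -23, -10, 22, 32, -29⟩, (.cons (nat_lit 420) (nat_lit 710) (nat_lit 896) (nat_lit 1) (.cons
 (nat_lit 1415) (nat_lit 372) (nat_lit 729) (nat_lit 1) .nil)), (nat_lit 35), (nat_lit 0), (nat_lit 0),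
 (nat_lit 0), (36, 19, 41), [368, 738], 0⟩,
  ⟨⟨-13, -36, 45, -40, 23, 30, -22, -32, -7⟩, (.cons (nat_lit 759) (nat_lit 529) (nat_lit 452) (nat_lit 1)
 (.cons (nat_lit 1783) (nat_lit 858) (nat_lit 589) (nat_lit 1) .nil)), (nat_lit 12), (nat_lit 0), (nat_lit 0),
 (nat_lit 0), (26, 33, 44), [935, 836], 0⟩,
  ⟨⟨51, -4, -32, 2, 45, -16, 12, -12, -49⟩, (.cons (nat_lit 960) (nat_lit 894) (nat_lit 404) (nat_lit 1) (.cons
 (nat_lit 1848) (nat_lit 92) (nat_lit 194) (nat_lit 1) .nil)), (nat_lit 33), (nat_lit 0), (nat_lit 0), (nat_lit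
 0), (25, 36, 28), [215, 1306], 0⟩,
  mz,
  ⟨⟨17, 36, 28, 20, 23, -50, 38, -8, -1⟩, (.cons (nat_lit 255) (nat_lit 852) (nat_lit 118) (nat_lit 1) (.cons
 (nat_lit 484) (nat_lit 1197) (nat_lit 1569) (nat_lit 1) .nil)), (nat_lit 16), (nat_lit 0), (nat_lit 0),
 (nat_lit 0), (28, 44, 46), [463, 400], 0⟩,
  ⟨⟨-17, 48, 0, -40, -17, 0, 10, 16, -47⟩, (.cons (nat_lit 53) (nat_lit 814) (nat_lit 924) (nat_lit 1) (.cons
 (nat_lit 1424) (nat_lit 506) (nat_lit 901) (nat_lit 1) .nil)), (nat_lit 9), (nat_lit 0), (nat_lit 0), (nat_lit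
 0), (25, 45, 24), [399, 1006], 0⟩,
  mz,
  ⟨⟨17, -48, -17, 40, 17, -40, -10, -16, -37⟩, (.cons (nat_lit 726) (nat_lit 17) (nat_lit 703) (nat_lit 1)
 (.cons (nat_lit 1721) (nat_lit 965) (nat_lit 1277) (nat_lit 1) .nil)), (nat_lit 9), (nat_lit 0), (nat_lit 0),
 (nat_lit 0), (6, 39, 2), [947, 728], 0⟩,
  mz,
  mz,
  mz,
  ⟨⟨45, -16, -1, 22, 35, -36, 20, -28, -37⟩, (.cons (nat_lit 864) (nat_lit 259) (nat_lit 498) (nat_lit 1)
 (.cons (nat_lit 1321) (nat_lit 1808) (nat_lit 471) (nat_lit 1) .nil)), (nat_lit 45), (nat_lit 0), (nat_lit 0),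
 (nat_lit 0), (12, 9, 21), [881, 1021], 0⟩,
  mz,
  ⟨⟨51, 4, -32, 2, -45, -16, 12, 12, -49⟩, (.cons (nat_lit 141) (nat_lit 580) (nat_lit 1) (nat_lit 372) (.cons
 (nat_lit 1623) (nat_lit 643) (nat_lit 1797) (nat_lit 1) .nil)), (nat_lit 33), (nat_lit 0), (nat_lit 0),
 (nat_lit 0), (7, 27, 21), [888, 314], 0⟩,
  ⟨⟨49, 12, -13, -2, 35, -34, 28, -20, -41⟩, (.cons (nat_lit 426) (nat_lit 181) (nat_lit 233) (nat_lit 1)
 (.cons (nat_lit 928) (nat_lit 1068) (nat_lit 1125) (nat_lit 1) .nil)), (nat_lit 42), (nat_lit 0), (nat_lit 0),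
 (nat_lit 0), (17, 30, 3), [708, 951], 0⟩,
  ⟨⟨-45, 16, 44, -22, -35, -14, -20, 28, -17⟩, (.cons (nat_lit 299) (nat_lit 246) (nat_lit 960) (nat_lit 1)
 (.cons (nat_lit 533) (nat_lit 221) (nat_lit 374) (nat_lit 1) .nil)), (nat_lit 45), (nat_lit 0), (nat_lit 0),
 (nat_lit 0), (34, 2, 36), [332, 824], 0⟩]

/-- All the moves. -/
noncomputable def tabs : List (List (List Mv)) := [[[], t0_1, [], [], t0_4, [], t0_6, [], t0_8, [], [], [], [],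
 [], [], [], [], [], [], t0_19], [[], t1_1, [], [], t1_4, [], t1_6, [], t1_8, [], [], [], [], [], [], [], [],
 [], [], t1_19], [], [], [[], t4_1, [], [], t4_4, [], t4_6, [], t4_8, [], [], [], [], [], [], [], [], [], [],
 t4_19]]

/-- Subtrie. -/
noncomputable def T1 : Tr := (.ev (nat_lit 20) (nat_lit 105829004771328) (.nd (nat_lit 33) (.br (nat_lit 22)
 (.br (nat_lit 9) (.br (nat_lit 6) (.br (nat_lit 4) (.ch (nat_lit 1) (.ev (nat_lit 52) (nat_lit 15070151200)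
 (.ev (nat_lit 84) (nat_lit 4) (.ev (nat_lit 148) (nat_lit 34359740416) (.ev (nat_lit 180) (nat_lit 8) (.ev
 (nat_lit 212) (nat_lit 21990232555520) (.nd (nat_lit 592) (.br (nat_lit 18) (.br (nat_lit 4) (.br (nat_lit 1)
 (.ch (nat_lit 0) (.ev (nat_lit 608) (nat_lit 68719542272) (.ev (nat_lit 740) (nat_lit 2) (.ev (nat_lit 749)
 (nat_lit 4096) .dd)))) (.ch (nat_lit 1) (.ev (nat_lit 608) (nat_lit 68719546370) .dd))) (.br (nat_lit 9) (.ch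
 (nat_lit 4) (.ev (nat_lit 608) (nat_lit 65536) (.ev (nat_lit 1216) (nat_lit 68719476736) (.fin (nat_lit
 576474496213926468))))) (.ch (nat_lit 9) (.ev (nat_lit 608) (nat_lit 68719542274) (.ev (nat_lit 621) (nat_lit
 4096) .dd))))) (.br (nat_lit 23) (.br (nat_lit 20) (.ch (nat_lit 18) (.ev (nat_lit 608) (nat_lit 68719546370)
 .dd)) (.ch (nat_lit 20) (.ev (nat_lit 608) (nat_lit 69634) (.ev (nat_lit 621) (nat_lit 68719476736) .dd))))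
 (.br (nat_lit 28) (.ch (nat_lit 23) (.ev (nat_lit 608) (nat_lit 69634) (.ev (nat_lit 621) (nat_lit
 68719476736) .dd))) (.br (nat_lit 29) (.ch (nat_lit 28) (.ev (nat_lit 608) (nat_lit 68719480832) (.ev (nat_lit
 640) (nat_lit 65536) (.ev (nat_lit 653) (nat_lit 2) .dd)))) (.ch (nat_lit 29) (.ev (nat_lit 608) (nat_lit
 68719546370) .dd))))))))))))) (.br (nat_lit 5) (.ch (nat_lit 4) (.ev (nat_lit 52) (nat_lit 10775235074) (.ev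
 (nat_lit 96) (nat_lit 22097606758444) .dd))) (.ch (nat_lit 5) (.ev (nat_lit 52) (nat_lit 22099758483470) (.ev
 (nat_lit 116) (nat_lit 512) (.ev (nat_lit 148) (nat_lit 8589934592) (.ev (nat_lit 292) (nat_lit 32) (.ev
 (nat_lit 420) (nat_lit 33554432) (.nd (nat_lit 592) (.br (nat_lit 20) (.br (nat_lit 8) (.br (nat_lit 7) (.ch
 (nat_lit 0) (.ev (nat_lit 608) (nat_lit 16384) (.ev (nat_lit 621) (nat_lit 4096) .dd))) (.ch (nat_lit 7) (.ev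
 (nat_lit 608) (nat_lit 16384) (.ev (nat_lit 621) (nat_lit 4096) .dd)))) (.br (nat_lit 11) (.ch (nat_lit 8)
 (.ev (nat_lit 608) (nat_lit 20480) .dd)) (.br (nat_lit 16) (.ch (nat_lit 11) (.ev (nat_lit 608) (nat_lit
 16384) (.ev (nat_lit 621) (nat_lit 4096) .dd))) (.ch (nat_lit 16) (.ev (nat_lit 608) (nat_lit 20480) .dd)))))
 (.br (nat_lit 23) (.br (nat_lit 21) (.ch (nat_lit 20) (.ev (nat_lit 608) (nat_lit 16384) (.ev (nat_lit 621)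
 (nat_lit 4096) .dd))) (.ch (nat_lit 21) (.ev (nat_lit 608) (nat_lit 4096) (.ev (nat_lit 621) (nat_lit 16384)
 .dd)))) (.br (nat_lit 26) (.ch (nat_lit 23) (.ev (nat_lit 608) (nat_lit 20480) .dd)) (.br (nat_lit 28) (.ch
 (nat_lit 26) (.ev (nat_lit 608) (nat_lit 4096) (.ev (nat_lit 621) (nat_lit 16384) .dd))) (.ch (nat_lit 28)
 (.ev (nat_lit 608) (nat_lit 4096) (.ev (nat_lit 621) (nat_lit 16384) .dd)))))))))))))))) (.br (nat_lit 7) (.ch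
 (nat_lit 6) (.ev (nat_lit 52) (nat_lit 17602957021188) (.ev (nat_lit 84) (nat_lit 552) (.ev (nat_lit 148)
 (nat_lit 65536) (.ev (nat_lit 212) (nat_lit 4299161600) (.nd (nat_lit 592) (.br (nat_lit 21) (.br (nat_lit 9)
 (.br (nat_lit 8) (.ch (nat_lit 4) (.ev (nat_lit 608) (nat_lit 4466766004226) (.ev (nat_lit 740) (nat_lit
 34359738368) (.ev (nat_lit 749) (nat_lit 2048) .dd)))) (.ch (nat_lit 8) (.ev (nat_lit 608) (nat_lit
 4398046527490) (.ev (nat_lit 740) (nat_lit 103079215104) (.ev (nat_lit 749) (nat_lit 2048) .dd))))) (.br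
 (nat_lit 18) (.ch (nat_lit 9) (.ev (nat_lit 608) (nat_lit 4501125744642) .dd)) (.br (nat_lit 20) (.ch (nat_lit
 18) (.ev (nat_lit 608) (nat_lit 103079217154) (.ev (nat_lit 752) (nat_lit 16384) (.ev (nat_lit 765) (nat_lit
 4398046511104) .dd)))) (.ch (nat_lit 20) (.ev (nat_lit 608) (nat_lit 4432406267906) (.ev (nat_lit 621)
 (nat_lit 68719476736) .dd)))))) (.br (nat_lit 25) (.br (nat_lit 23) (.ch (nat_lit 21) (.ev (nat_lit 608)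
 (nat_lit 4501125744642) .dd)) (.ch (nat_lit 23) (.ev (nat_lit 608) (nat_lit 103079233536) (.ev (nat_lit 740)
 (nat_lit 4398046511104) (.ev (nat_lit 749) (nat_lit 2) .dd))))) (.br (nat_lit 26) (.ch (nat_lit 25) (.ev
 (nat_lit 608) (nat_lit 4501125726210) (.ev (nat_lit 624) (nat_lit 18432) .dd))) (.br (nat_lit 29) (.ch
 (nat_lit 26) (.ev (nat_lit 608) (nat_lit 103079231490) (.ev (nat_lit 624) (nat_lit 4398046513152) .dd))) (.ch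
 (nat_lit 29) (.ev (nat_lit 608) (nat_lit 4501125742594) (.ev (nat_lit 621) (nat_lit 2048) .dd)))))))))))))
 (.br (nat_lit 8) (.ch (nat_lit 7) (.ev (nat_lit 52) (nat_lit 22026739845668) (.ev (nat_lit 96) (nat_lit
 81642147850) .dd))) (.ch (nat_lit 8) (.ev (nat_lit 52) (nat_lit 107374202892) (.ev (nat_lit 84) (nat_lit
 4398046511104) (.ev (nat_lit 116) (nat_lit 65538) (.ev (nat_lit 148) (nat_lit 512) (.ev (nat_lit 244) (nat_lit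
 33554464) (.ev (nat_lit 432) (nat_lit 4194304) (.nd (nat_lit 592) (.br (nat_lit 19) (.br (nat_lit 9) (.br
 (nat_lit 8) (.ch (nat_lit 1) (.ev (nat_lit 608) (nat_lit 10737420288) (.ev (nat_lit 621) (nat_lit
 17592186044416) .dd))) (.ch (nat_lit 8) (.ev (nat_lit 608) (nat_lit 17600775979008) (.ev (nat_lit 752)
 (nat_lit 2147485696) .dd)))) (.br (nat_lit 15) (.ch (nat_lit 9) (.ev (nat_lit 608) (nat_lit 17600775981056)
 (.ev (nat_lit 621) (nat_lit 2147483648) .dd))) (.ch (nat_lit 15) (.ev (nat_lit 608) (nat_lit 17592186044416)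
 (.ev (nat_lit 624) (nat_lit 8589934592) (.ev (nat_lit 1104) (nat_lit 2147485696) .dd)))))) (.br (nat_lit 26)
 (.br (nat_lit 20) (.ch (nat_lit 19) (.ev (nat_lit 608) (nat_lit 17602923464704) .dd)) (.ch (nat_lit 20) (.ev
 (nat_lit 608) (nat_lit 17602923464704) .dd))) (.br (nat_lit 28) (.ch (nat_lit 26) (.ev (nat_lit 608) (nat_lit
 10737418240) (.ev (nat_lit 768) (nat_lit 17592186044416) (.ev (nat_lit 781) (nat_lit 2048) .dd)))) (.br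
 (nat_lit 29) (.ch (nat_lit 28) (.ev (nat_lit 608) (nat_lit 17602923464704) .dd)) (.ch (nat_lit 29) (.ev
 (nat_lit 608) (nat_lit 17594333530112) (.ev (nat_lit 621) (nat_lit 8589934592) .dd)))))))))))))))))) (.br
 (nat_lit 13) (.br (nat_lit 10) (.ch (nat_lit 9) (.ev (nat_lit 52) (nat_lit 22104049189382) (.ev (nat_lit 84)
 (nat_lit 4294971392) (.ev (nat_lit 160) (nat_lit 37832744) .dd)))) (.br (nat_lit 12) (.ch (nat_lit 10) (.ev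
 (nat_lit 52) (nat_lit 17708187914272) (.ev (nat_lit 84) (nat_lit 67584) (.ev (nat_lit 148) (nat_lit 12) (.ev
 (nat_lit 224) (nat_lit 4400194011650) .dd))))) (.ch (nat_lit 12) (.ev (nat_lit 52) (nat_lit 4471094512172)
 (.ev (nat_lit 84) (nat_lit 8594132992) (.nd (nat_lit 592) (.br (nat_lit 11) (.br (nat_lit 8) (.br (nat_lit 7)
 (.ch (nat_lit 1) (.ev (nat_lit 608) (nat_lit 17628693348354) .dd)) (.ch (nat_lit 7) (.ev (nat_lit 608)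
 (nat_lit 17626545864706) (.ev (nat_lit 621) (nat_lit 2147483648) .dd)))) (.br (nat_lit 9) (.ch (nat_lit 8)
 (.ev (nat_lit 608) (nat_lit 17628693282818) (.ev (nat_lit 621) (nat_lit 65536) .dd))) (.ch (nat_lit 9) (.ev
 (nat_lit 608) (nat_lit 36507303938) (.ev (nat_lit 621) (nat_lit 17592186044416) .dd))))) (.br (nat_lit 19)
 (.br (nat_lit 15) (.ch (nat_lit 11) (.ev (nat_lit 608) (nat_lit 17628693331970) (.ev (nat_lit 621) (nat_lit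
 16384) .dd))) (.ch (nat_lit 15) (.ev (nat_lit 608) (nat_lit 17626545864704) (.ev (nat_lit 688) (nat_lit 2)
 (.ev (nat_lit 701) (nat_lit 2147483648) .dd))))) (.br (nat_lit 23) (.ch (nat_lit 19) (.ev (nat_lit 608)
 (nat_lit 17594333609984) (.ev (nat_lit 624) (nat_lit 34359738370) .dd))) (.br (nat_lit 25) (.ch (nat_lit 23)
 (.ev (nat_lit 608) (nat_lit 17628693331970) (.ev (nat_lit 621) (nat_lit 16384) .dd))) (.ch (nat_lit 25) (.ev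
 (nat_lit 608) (nat_lit 17594333609986) (.ev (nat_lit 621) (nat_lit 34359738368) .dd))))))))))))) (.br (nat_lit
 18) (.br (nat_lit 17) (.ch (nat_lit 13) (.ev (nat_lit 52) (nat_lit 73014467078) (.ev (nat_lit 116) (nat_lit
 4398080131072) (.ev (nat_lit 244) (nat_lit 8589934592) (.nd (nat_lit 592) (.br (nat_lit 20) (.br (nat_lit 8)
 (.br (nat_lit 1) (.ch (nat_lit 0) (.ev (nat_lit 608) (nat_lit 36511416360) (.ev (nat_lit 621) (nat_lit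
 17592186044416) .dd))) (.ch (nat_lit 1) (.ev (nat_lit 608) (nat_lit 17594337722400) (.ev (nat_lit 720)
 (nat_lit 34359738368) (.ev (nat_lit 733) (nat_lit 8) .dd))))) (.br (nat_lit 13) (.ch (nat_lit 8) (.ev (nat_lit
 608) (nat_lit 17592190238752) (.ev (nat_lit 740) (nat_lit 34359738368) (.ev (nat_lit 900) (nat_lit 8) (.ev
 (nat_lit 909) (nat_lit 2147483648) .dd))))) (.ch (nat_lit 13) (.ev (nat_lit 608) (nat_lit 17592186044456) (.ev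
 (nat_lit 740) (nat_lit 2147483648) (.ev (nat_lit 900) (nat_lit 4194304) (.ev (nat_lit 909) (nat_lit
 34359738368) .dd))))))) (.br (nat_lit 23) (.br (nat_lit 21) (.ch (nat_lit 20) (.ev (nat_lit 608) (nat_lit
 17626545782824) (.ev (nat_lit 720) (nat_lit 2147483648) (.ev (nat_lit 733) (nat_lit 4194304) .dd)))) (.ch
 (nat_lit 21) (.ev (nat_lit 608) (nat_lit 17628697460744) (.ev (nat_lit 621) (nat_lit 32) .dd)))) (.br (nat_lit
 26) (.ch (nat_lit 23) (.ev (nat_lit 608) (nat_lit 17628693266440) (.ev (nat_lit 832) (nat_lit 4194336) .dd)))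
 (.br (nat_lit 29) (.ch (nat_lit 26) (.ev (nat_lit 608) (nat_lit 36511416328) (.ev (nat_lit 740) (nat_lit 32)
 (.ev (nat_lit 749) (nat_lit 17592186044416) .dd)))) (.ch (nat_lit 29) (.ev (nat_lit 608) (nat_lit 36511416352)
 (.ev (nat_lit 832) (nat_lit 17592186044424) .dd)))))))))))) (.ch (nat_lit 17) (.ev (nat_lit 52) (nat_lit
 22097610934312) (.ev (nat_lit 212) (nat_lit 2147483648) (.nd (nat_lit 592) (.br (nat_lit 11) (.br (nat_lit 7)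
 (.br (nat_lit 4) (.ch (nat_lit 1) (.ev (nat_lit 608) (nat_lit 33636870) (.ev (nat_lit 740) (nat_lit
 8589934592) (.ev (nat_lit 749) (nat_lit 4096) .dd)))) (.ch (nat_lit 4) (.ev (nat_lit 608) (nat_lit 33570816)
 (.ev (nat_lit 624) (nat_lit 512) (.ev (nat_lit 720) (nat_lit 4) (.ev (nat_lit 740) (nat_lit 65536) (.ev
 (nat_lit 1088) (nat_lit 8589934592) (.fin (nat_lit 576474496213926468))))))))) (.br (nat_lit 9) (.ch (nat_lit
 7) (.ev (nat_lit 608) (nat_lit 8590021122) (.ev (nat_lit 1088) (nat_lit 33554432) (.ev (nat_lit 1101) (nat_lit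
 4) .dd)))) (.ch (nat_lit 9) (.ev (nat_lit 608) (nat_lit 8623559174) (.ev (nat_lit 621) (nat_lit 16384)
 .dd))))) (.br (nat_lit 16) (.br (nat_lit 13) (.ch (nat_lit 11) (.ev (nat_lit 608) (nat_lit 8623559174) (.ev
 (nat_lit 621) (nat_lit 16384) .dd))) (.ch (nat_lit 13) (.ev (nat_lit 608) (nat_lit 8590021120) (.ev (nat_lit
 740) (nat_lit 4) (.ev (nat_lit 752) (nat_lit 2) (.ev (nat_lit 765) (nat_lit 33554432) .dd)))))) (.br (nat_lit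
 25) (.ch (nat_lit 16) (.ev (nat_lit 608) (nat_lit 8623510020) (.ev (nat_lit 640) (nat_lit 65536) (.ev (nat_lit
 653) (nat_lit 2) .dd)))) (.br (nat_lit 26) (.ch (nat_lit 25) (.ev (nat_lit 608) (nat_lit 8623570950) (.ev
 (nat_lit 640) (nat_lit 512) (.ev (nat_lit 653) (nat_lit 4096) .dd)))) (.ch (nat_lit 26) (.ev (nat_lit 608)
 (nat_lit 86534) (.ev (nat_lit 720) (nat_lit 33554432) (.ev (nat_lit 733) (nat_lit 8589934592) .dd)))))))))))))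
 (.br (nat_lit 21) (.ch (nat_lit 18) (.ev (nat_lit 52) (nat_lit 4443143684610) (.ev (nat_lit 84) (nat_lit 2048)
 (.ev (nat_lit 116) (nat_lit 33554436) (.ev (nat_lit 180) (nat_lit 4294967296) (.ev (nat_lit 212) (nat_lit
 17592186044416) (.nd (nat_lit 592) (.br (nat_lit 18) (.br (nat_lit 7) (.br (nat_lit 4) (.ch (nat_lit 1) (.ev
 (nat_lit 608) (nat_lit 68723740680) (.ev (nat_lit 621) (nat_lit 32) .dd))) (.ch (nat_lit 4) (.ev (nat_lit 608)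
 (nat_lit 68723736616) (.ev (nat_lit 621) (nat_lit 4096) .dd)))) (.br (nat_lit 13) (.ch (nat_lit 7) (.ev
 (nat_lit 608) (nat_lit 4263976) (.ev (nat_lit 621) (nat_lit 68719476736) .dd))) (.ch (nat_lit 13) (.ev
 (nat_lit 608) (nat_lit 68723740672) (.ev (nat_lit 688) (nat_lit 8) (.ev (nat_lit 701) (nat_lit 32) .dd))))))
 (.br (nat_lit 23) (.br (nat_lit 19) (.ch (nat_lit 18) (.ev (nat_lit 608) (nat_lit 68719546408) (.ev (nat_lit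
 621) (nat_lit 4194304) .dd))) (.ch (nat_lit 19) (.ev (nat_lit 608) (nat_lit 68723675168) (.ev (nat_lit 624)
 (nat_lit 65544) .dd)))) (.br (nat_lit 25) (.ch (nat_lit 23) (.ev (nat_lit 608) (nat_lit 68723740712) .dd))
 (.br (nat_lit 28) (.ch (nat_lit 25) (.ev (nat_lit 608) (nat_lit 4263976) (.ev (nat_lit 621) (nat_lit
 68719476736) .dd))) (.ch (nat_lit 28) (.ev (nat_lit 608) (nat_lit 68723675176) (.ev (nat_lit 621) (nat_lit
 65536) .dd)))))))))))))) (.ch (nat_lit 21) (.ev (nat_lit 52) (nat_lit 17602957089312) (.ev (nat_lit 84)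
 (nat_lit 4194304) (.ev (nat_lit 212) (nat_lit 73014460416) (.nd (nat_lit 592) (.br (nat_lit 19) (.br (nat_lit
 8) (.br (nat_lit 4) (.ch (nat_lit 0) (.ev (nat_lit 608) (nat_lit 4432406249484) (.ev (nat_lit 621) (nat_lit 2)
 .dd))) (.ch (nat_lit 4) (.ev (nat_lit 608) (nat_lit 4432406249476) (.ev (nat_lit 740) (nat_lit 2) (.ev
 (nat_lit 749) (nat_lit 8) .dd))))) (.br (nat_lit 9) (.ch (nat_lit 8) (.ev (nat_lit 608) (nat_lit
 4432406249474) (.ev (nat_lit 740) (nat_lit 4) (.ev (nat_lit 749) (nat_lit 8) .dd)))) (.ch (nat_lit 9) (.ev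
 (nat_lit 608) (nat_lit 4432406249482) (.ev (nat_lit 621) (nat_lit 4) .dd))))) (.br (nat_lit 26) (.br (nat_lit
 21) (.ch (nat_lit 19) (.ev (nat_lit 608) (nat_lit 6) (.ev (nat_lit 740) (nat_lit 34359738376) (.ev (nat_lit
 749) (nat_lit 4398046511104) .dd)))) (.ch (nat_lit 21) (.ev (nat_lit 608) (nat_lit 8) (.ev (nat_lit 672)
 (nat_lit 4398046511104) (.ev (nat_lit 752) (nat_lit 2) (.ev (nat_lit 900) (nat_lit 4) (.ev (nat_lit 909)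
 (nat_lit 34359738368) .dd))))))) (.br (nat_lit 28) (.ch (nat_lit 26) (.ev (nat_lit 608) (nat_lit 34359738382)
 (.ev (nat_lit 621) (nat_lit 4398046511104) .dd))) (.ch (nat_lit 28) (.ev (nat_lit 608) (nat_lit 4398046511110)
 (.ev (nat_lit 740) (nat_lit 8) (.ev (nat_lit 749) (nat_lit 34359738368) .dd)))))))))))))))) (.br (nat_lit 34)
 (.br (nat_lit 30) (.br (nat_lit 25) (.ch (nat_lit 22) (.ev (nat_lit 52) (nat_lit 4503277486090) (.ev (nat_lit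
 84) (nat_lit 12884901888) (.ev (nat_lit 160) (nat_lit 17592219605540) .dd)))) (.br (nat_lit 26) (.ch (nat_lit
 25) (.ev (nat_lit 52) (nat_lit 8590021158) (.ev (nat_lit 84) (nat_lit 4332716032) (.ev (nat_lit 116) (nat_lit
 17592186044416) (.ev (nat_lit 180) (nat_lit 4400193994752) (.ev (nat_lit 244) (nat_lit 2056) (.nd (nat_lit
 592) (.br (nat_lit 19) (.br (nat_lit 11) (.br (nat_lit 7) (.ch (nat_lit 4) (.ev (nat_lit 608) (nat_lit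
 34359738368) (.ev (nat_lit 621) (nat_lit 68719476736) .dd))) (.ch (nat_lit 7) (.ev (nat_lit 608) (nat_lit
 68719476736) (.ev (nat_lit 621) (nat_lit 34359738368) .dd)))) (.br (nat_lit 16) (.ch (nat_lit 11) (.ev
 (nat_lit 608) (nat_lit 68719476736) (.ev (nat_lit 621) (nat_lit 34359738368) .dd))) (.br (nat_lit 18) (.ch
 (nat_lit 16) (.ev (nat_lit 608) (nat_lit 103079215104) .dd)) (.ch (nat_lit 18) (.ev (nat_lit 608) (nat_lit
 68719476736) (.ev (nat_lit 621) (nat_lit 34359738368) .dd)))))) (.br (nat_lit 21) (.br (nat_lit 20) (.ch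
 (nat_lit 19) (.ev (nat_lit 608) (nat_lit 103079215104) .dd)) (.ch (nat_lit 20) (.ev (nat_lit 608) (nat_lit
 103079215104) .dd))) (.br (nat_lit 23) (.ch (nat_lit 21) (.ev (nat_lit 608) (nat_lit 103079215104) .dd)) (.br
 (nat_lit 25) (.ch (nat_lit 23) (.ev (nat_lit 608) (nat_lit 103079215104) .dd)) (.ch (nat_lit 25) (.ev (nat_lit
 688) (nat_lit 68719476736) (.ev (nat_lit 701) (nat_lit 34359738368) .dd)))))))))))))) (.ch (nat_lit 26) (.ev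
 (nat_lit 52) (nat_lit 22058985592874) (.ev (nat_lit 84) (nat_lit 65536) (.ev (nat_lit 116) (nat_lit
 34359754752) (.ev (nat_lit 180) (nat_lit 512) (.ev (nat_lit 272) (nat_lit 15036579844) .dd)))))))) (.br
 (nat_lit 31) (.ch (nat_lit 30) (.ev (nat_lit 52) (nat_lit 115964119042) (.ev (nat_lit 84) (nat_lit 65536) (.ev
 (nat_lit 148) (nat_lit 32) (.ev (nat_lit 180) (nat_lit 2147483648) (.ev (nat_lit 244) (nat_lit 4) (.ev
 (nat_lit 292) (nat_lit 4398046511104) (.ev (nat_lit 448) (nat_lit 17592186044416) (.nd (nat_lit 592) (.br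
 (nat_lit 20) (.br (nat_lit 16) (.br (nat_lit 15) (.ch (nat_lit 7) (.ev (nat_lit 608) (nat_lit 4210696) (.ev
 (nat_lit 740) (nat_lit 33554432) (.ev (nat_lit 880) (nat_lit 512) (.ev (nat_lit 893) (nat_lit 4096) .dd)))))
 (.ch (nat_lit 15) (.ev (nat_lit 608) (nat_lit 4104) (.ev (nat_lit 740) (nat_lit 33554432) (.ev (nat_lit 848)
 (nat_lit 16384) (.ev (nat_lit 900) (nat_lit 512) (.ev (nat_lit 909) (nat_lit 4194304) .dd))))))) (.br (nat_lit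
 18) (.ch (nat_lit 16) (.ev (nat_lit 608) (nat_lit 33575432) (.ev (nat_lit 621) (nat_lit 4194304) .dd))) (.ch
 (nat_lit 18) (.ev (nat_lit 608) (nat_lit 37769224) (.ev (nat_lit 621) (nat_lit 512) .dd))))) (.br (nat_lit 26)
 (.br (nat_lit 23) (.ch (nat_lit 20) (.ev (nat_lit 608) (nat_lit 16384) (.ev (nat_lit 740) (nat_lit 33554944)
 (.ev (nat_lit 752) (nat_lit 8) (.ev (nat_lit 1302) (nat_lit 4198400) .dd))))) (.ch (nat_lit 23) (.ev (nat_lit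
 608) (nat_lit 4198920) (.ev (nat_lit 672) (nat_lit 33570816) .dd)))) (.br (nat_lit 29) (.ch (nat_lit 26) (.ev
 (nat_lit 608) (nat_lit 37752840) (.ev (nat_lit 672) (nat_lit 512) (.ev (nat_lit 685) (nat_lit 16384) .dd))))
 (.ch (nat_lit 29) (.ev (nat_lit 608) (nat_lit 37769728) (.ev (nat_lit 621) (nat_lit 8) .dd))))))))))))))) (.br
 (nat_lit 33) (.ch (nat_lit 31) (.ev (nat_lit 52) (nat_lit 22063251195936) (.ev (nat_lit 64) (nat_lit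
 45130797582) .dd))) (.ch (nat_lit 33) (.ev (nat_lit 52) (nat_lit 4436738988554) (.ev (nat_lit 116) (nat_lit
 68719476736) (.ev (nat_lit 192) (nat_lit 17602923528228) .dd))))))) (.br (nat_lit 37) (.br (nat_lit 35) (.ch
 (nat_lit 34) (.ev (nat_lit 52) (nat_lit 4295055400) (.ev (nat_lit 64) (nat_lit 22104086938118) .dd))) (.br
 (nat_lit 36) (.ch (nat_lit 35) (.ev (nat_lit 52) (nat_lit 17635135723524) (.ev (nat_lit 148) (nat_lit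
 70867025920) (.ev (nat_lit 180) (nat_lit 32) (.nd (nat_lit 592) (.br (nat_lit 18) (.br (nat_lit 9) (.br
 (nat_lit 4) (.ch (nat_lit 0) (.ev (nat_lit 608) (nat_lit 4398050705920) (.ev (nat_lit 998) (nat_lit
 4328538122) .dd))) (.br (nat_lit 7) (.ch (nat_lit 4) (.ev (nat_lit 608) (nat_lit 4402379244032) (.ev (nat_lit
 740) (nat_lit 8) (.ev (nat_lit 749) (nat_lit 2) .dd)))) (.ch (nat_lit 7) (.ev (nat_lit 608) (nat_lit
 4299178506) (.ev (nat_lit 640) (nat_lit 4398046511104) (.ev (nat_lit 653) (nat_lit 33554432) .dd)))))) (.br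
 (nat_lit 11) (.ch (nat_lit 9) (.ev (nat_lit 608) (nat_lit 4398046511626) (.ev (nat_lit 752) (nat_lit
 4294983680) (.ev (nat_lit 768) (nat_lit 37748736) .dd)))) (.br (nat_lit 15) (.ch (nat_lit 11) (.ev (nat_lit
 608) (nat_lit 4332732938) (.ev (nat_lit 621) (nat_lit 4398046511104) .dd))) (.ch (nat_lit 15) (.ev (nat_lit
 608) (nat_lit 4402345689096) (.ev (nat_lit 784) (nat_lit 512) (.ev (nat_lit 964) (nat_lit 2) (.ev (nat_lit
 973) (nat_lit 33554432) .dd)))))))) (.br (nat_lit 21) (.br (nat_lit 19) (.ch (nat_lit 18) (.ev (nat_lit 608)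
 (nat_lit 4398050722314) (.ev (nat_lit 784) (nat_lit 33554432) (.ev (nat_lit 797) (nat_lit 4294967296) .dd))))
 (.br (nat_lit 20) (.ch (nat_lit 19) (.ev (nat_lit 608) (nat_lit 4402345689610) (.ev (nat_lit 621) (nat_lit
 33554432) .dd))) (.ch (nat_lit 20) (.ev (nat_lit 608) (nat_lit 4402379243522) (.ev (nat_lit 900) (nat_lit 512)
 (.ev (nat_lit 909) (nat_lit 8) .dd)))))) (.br (nat_lit 25) (.ch (nat_lit 21) (.ev (nat_lit 608) (nat_lit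
 4402379227658) (.ev (nat_lit 621) (nat_lit 16384) .dd))) (.br (nat_lit 29) (.ch (nat_lit 25) (.ev (nat_lit
 608) (nat_lit 4402375049738) (.ev (nat_lit 621) (nat_lit 4194304) .dd))) (.ch (nat_lit 29) (.ev (nat_lit 608)
 (nat_lit 4210698) (.ev (nat_lit 900) (nat_lit 4294967296) (.ev (nat_lit 1024) (nat_lit 4398046511616) (.ev
 (nat_lit 1037) (nat_lit 33554432) .dd)))))))))))))) (.ch (nat_lit 36) (.ev (nat_lit 52) (nat_lit
 4468913541676) (.ev (nat_lit 84) (nat_lit 8589934592) (.ev (nat_lit 128) (nat_lit 17630878517250) .dd))))))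
 (.br (nat_lit 39) (.br (nat_lit 38) (.ch (nat_lit 37) (.ev (nat_lit 52) (nat_lit 34364015116) (.ev (nat_lit
 64) (nat_lit 22074017978402) .dd))) (.ch (nat_lit 38) (.ev (nat_lit 52) (nat_lit 17663086630956) (.ev (nat_lit
 128) (nat_lit 4445295362562) .dd)))) (.br (nat_lit 42) (.ch (nat_lit 39) (.ev (nat_lit 52) (nat_lit
 70904791554) (.ev (nat_lit 116) (nat_lit 4432406249504) (.ev (nat_lit 180) (nat_lit 8) (.ev (nat_lit 292)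
 (nat_lit 8589934592) (.nd (nat_lit 592) (.br (nat_lit 16) (.br (nat_lit 13) (.br (nat_lit 8) (.ch (nat_lit 0)
 (.ev (nat_lit 608) (nat_lit 17592186050560) (.ev (nat_lit 672) (nat_lit 4294967296) (.ev (nat_lit 685)
 (nat_lit 4) .dd)))) (.ch (nat_lit 8) (.ev (nat_lit 608) (nat_lit 17596481017856) (.ev (nat_lit 621) (nat_lit
 4) .dd)))) (.br (nat_lit 15) (.ch (nat_lit 13) (.ev (nat_lit 608) (nat_lit 4294971396) (.ev (nat_lit 740)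
 (nat_lit 2048) (.ev (nat_lit 749) (nat_lit 17592186044416) .dd)))) (.ch (nat_lit 15) (.ev (nat_lit 608)
 (nat_lit 17592186050564) (.ev (nat_lit 621) (nat_lit 4294967296) .dd))))) (.br (nat_lit 19) (.br (nat_lit 18)
 (.ch (nat_lit 16) (.ev (nat_lit 608) (nat_lit 17596481017860) .dd)) (.ch (nat_lit 18) (.ev (nat_lit 608)
 (nat_lit 17596481015812) (.ev (nat_lit 621) (nat_lit 2048) .dd)))) (.br (nat_lit 20) (.ch (nat_lit 19) (.ev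
 (nat_lit 608) (nat_lit 17592186046468) (.ev (nat_lit 656) (nat_lit 4294967296) (.ev (nat_lit 669) (nat_lit
 4096) .dd)))) (.br (nat_lit 26) (.ch (nat_lit 20) (.ev (nat_lit 608) (nat_lit 17596481013760) (.ev (nat_lit
 752) (nat_lit 4100) .dd))) (.ch (nat_lit 26) (.ev (nat_lit 608) (nat_lit 4294969348) (.ev (nat_lit 932)
 (nat_lit 4096) (.ev (nat_lit 941) (nat_lit 17592186044416) .dd)))))))))))))) (.ch (nat_lit 42) (.ev (nat_lit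
 52) (nat_lit 4410969244162) (.ev (nat_lit 96) (nat_lit 17697412749356) .dd))))))))))

/-- Subtrie. -/
noncomputable def T4 : Tr := (.ev (nat_lit 20) (nat_lit 88345866993698) (.nd (nat_lit 33) (.br (nat_lit 22)
 (.br (nat_lit 9) (.br (nat_lit 6) (.br (nat_lit 4) (.ch (nat_lit 1) (.ev (nat_lit 52) (nat_lit 9099592192)
 (.ev (nat_lit 84) (nat_lit 524292) (.ev (nat_lit 148) (nat_lit 1048576) (.ev (nat_lit 180) (nat_lit 8) (.ev
 (nat_lit 212) (nat_lit 35184372088832) (.ev (nat_lit 356) (nat_lit 2048) (.nd (nat_lit 592) (.br (nat_lit 19)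
 (.br (nat_lit 5) (.br (nat_lit 4) (.ch (nat_lit 1) (.ev (nat_lit 608) (nat_lit 4398046511104) (.ev (nat_lit
 621) (nat_lit 4096) .dd))) (.ch (nat_lit 4) (.ev (nat_lit 608) (nat_lit 4398046515200) .dd))) (.br (nat_lit
 12) (.ch (nat_lit 5) (.ev (nat_lit 608) (nat_lit 4096) (.ev (nat_lit 621) (nat_lit 4398046511104) .dd))) (.br
 (nat_lit 18) (.ch (nat_lit 12) (.ev (nat_lit 608) (nat_lit 4398046515200) .dd)) (.ch (nat_lit 18) (.ev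
 (nat_lit 608) (nat_lit 4096) (.ev (nat_lit 621) (nat_lit 4398046511104) .dd)))))) (.br (nat_lit 24) (.br
 (nat_lit 21) (.ch (nat_lit 19) (.ev (nat_lit 608) (nat_lit 4398046511104) (.ev (nat_lit 621) (nat_lit 4096)
 .dd))) (.ch (nat_lit 21) (.ev (nat_lit 608) (nat_lit 4398046515200) .dd))) (.br (nat_lit 25) (.ch (nat_lit 24)
 (.ev (nat_lit 608) (nat_lit 4398046515200) .dd)) (.br (nat_lit 29) (.ch (nat_lit 25) (.ev (nat_lit 608)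
 (nat_lit 4096) (.ev (nat_lit 621) (nat_lit 4398046511104) .dd))) (.ch (nat_lit 29) (.ev (nat_lit 608) (nat_lit
 4398046515200) .dd)))))))))))))) (.br (nat_lit 5) (.ch (nat_lit 4) (.ev (nat_lit 52) (nat_lit 8695319040) (.ev
 (nat_lit 64) (nat_lit 39582824452108) .dd))) (.ch (nat_lit 5) (.ev (nat_lit 52) (nat_lit 39582691756044) (.ev
 (nat_lit 116) (nat_lit 1048576) (.ev (nat_lit 148) (nat_lit 33554432) (.ev (nat_lit 212) (nat_lit 2113536)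
 (.nd (nat_lit 592) (.br (nat_lit 19) (.br (nat_lit 4) (.br (nat_lit 2) (.ch (nat_lit 1) (.ev (nat_lit 608)
 (nat_lit 201363456) (.ev (nat_lit 640) (nat_lit 8589934592) (.ev (nat_lit 653) (nat_lit 512) .dd)))) (.ch
 (nat_lit 2) (.ev (nat_lit 608) (nat_lit 201363456) (.ev (nat_lit 672) (nat_lit 8589934592) (.ev (nat_lit 685)
 (nat_lit 512) .dd))))) (.br (nat_lit 13) (.ch (nat_lit 4) (.ev (nat_lit 608) (nat_lit 8724189696) (.ev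
 (nat_lit 621) (nat_lit 67108864) .dd))) (.ch (nat_lit 13) (.ev (nat_lit 608) (nat_lit 8791298560) .dd)))) (.br
 (nat_lit 24) (.br (nat_lit 20) (.ch (nat_lit 19) (.ev (nat_lit 608) (nat_lit 8657080320) (.ev (nat_lit 900)
 (nat_lit 134217728) (.ev (nat_lit 909) (nat_lit 512) .dd)))) (.ch (nat_lit 20) (.ev (nat_lit 608) (nat_lit
 8589967872) (.ev (nat_lit 740) (nat_lit 4096) (.ev (nat_lit 1104) (nat_lit 201326592) .dd))))) (.br (nat_lit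
 27) (.ch (nat_lit 24) (.ev (nat_lit 608) (nat_lit 8657076736) (.ev (nat_lit 948) (nat_lit 4096) (.ev (nat_lit
 957) (nat_lit 134217728) .dd)))) (.br (nat_lit 28) (.ch (nat_lit 27) (.ev (nat_lit 608) (nat_lit 8791294464)
 (.ev (nat_lit 621) (nat_lit 4096) .dd))) (.ch (nat_lit 28) (.ev (nat_lit 608) (nat_lit 8791265792) (.ev
 (nat_lit 621) (nat_lit 32768) .dd))))))))))))))) (.br (nat_lit 7) (.ch (nat_lit 6) (.ev (nat_lit 52) (nat_lit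
 35193200054276) (.ev (nat_lit 84) (nat_lit 4398046513160) (.ev (nat_lit 116) (nat_lit 33280) (.ev (nat_lit
 212) (nat_lit 16384) (.nd (nat_lit 592) (.br (nat_lit 18) (.br (nat_lit 5) (.br (nat_lit 2) (.ch (nat_lit 1)
 (.ev (nat_lit 608) (nat_lit 273154048) .dd)) (.br (nat_lit 4) (.ch (nat_lit 2) (.ev (nat_lit 608) (nat_lit
 273154048) .dd)) (.ch (nat_lit 4) (.ev (nat_lit 608) (nat_lit 273154048) .dd)))) (.br (nat_lit 12) (.ch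
 (nat_lit 5) (.ev (nat_lit 608) (nat_lit 273154048) .dd)) (.br (nat_lit 15) (.ch (nat_lit 12) (.ev (nat_lit
 608) (nat_lit 273154048) .dd)) (.ch (nat_lit 15) (.ev (nat_lit 608) (nat_lit 4194304) (.ev (nat_lit 900)
 (nat_lit 268435456) (.ev (nat_lit 909) (nat_lit 524288) .dd))))))) (.br (nat_lit 25) (.br (nat_lit 20) (.ch
 (nat_lit 18) (.ev (nat_lit 608) (nat_lit 273154048) .dd)) (.br (nat_lit 21) (.ch (nat_lit 20) (.ev (nat_lit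
 608) (nat_lit 273154048) .dd)) (.ch (nat_lit 21) (.ev (nat_lit 608) (nat_lit 524288) (.fin (nat_lit
 576461302059713084)))))) (.br (nat_lit 26) (.ch (nat_lit 25) (.ev (nat_lit 608) (nat_lit 268435456) (.ev
 (nat_lit 740) (nat_lit 524288) (.ev (nat_lit 749) (nat_lit 4194304) .dd)))) (.br (nat_lit 28) (.ch (nat_lit
 26) (.ev (nat_lit 608) (nat_lit 4718592) (.ev (nat_lit 621) (nat_lit 268435456) .dd))) (.ch (nat_lit 28) (.ev
 (nat_lit 608) (nat_lit 268435456) (.ev (nat_lit 740) (nat_lit 4194304) (.ev (nat_lit 749) (nat_lit 524288)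
 .dd)))))))))))))) (.br (nat_lit 8) (.ch (nat_lit 7) (.ev (nat_lit 52) (nat_lit 39582486759940) (.ev (nat_lit
 84) (nat_lit 2113536) (.ev (nat_lit 148) (nat_lit 33554432) (.ev (nat_lit 388) (nat_lit 4096) (.nd (nat_lit
 592) (.br (nat_lit 19) (.br (nat_lit 12) (.br (nat_lit 4) (.ch (nat_lit 0) (.ev (nat_lit 608) (nat_lit
 8858894336) (.ev (nat_lit 740) (nat_lit 32776) (.ev (nat_lit 900) (nat_lit 4194304) (.ev (nat_lit 909)
 (nat_lit 134217728) .dd))))) (.ch (nat_lit 4) (.ev (nat_lit 608) (nat_lit 8993112072) (.ev (nat_lit 740)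
 (nat_lit 32768) (.ev (nat_lit 749) (nat_lit 4194304) .dd))))) (.br (nat_lit 13) (.ch (nat_lit 12) (.ev
 (nat_lit 608) (nat_lit 8728903688) (.ev (nat_lit 621) (nat_lit 268435456) .dd))) (.ch (nat_lit 13) (.ev
 (nat_lit 608) (nat_lit 8996782080) (.ev (nat_lit 740) (nat_lit 557056) (.ev (nat_lit 749) (nat_lit 8)
 .dd)))))) (.br (nat_lit 27) (.br (nat_lit 24) (.ch (nat_lit 19) (.ev (nat_lit 608) (nat_lit 8594161664) (.ev
 (nat_lit 740) (nat_lit 8) (.ev (nat_lit 864) (nat_lit 268435456) (.ev (nat_lit 1334) (nat_lit 134742016)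
 .dd))))) (.ch (nat_lit 24) (.ev (nat_lit 608) (nat_lit 407371784) (.ev (nat_lit 672) (nat_lit 32768) (.ev
 (nat_lit 685) (nat_lit 8589934592) .dd))))) (.br (nat_lit 29) (.ch (nat_lit 27) (.ev (nat_lit 608) (nat_lit
 406880264) (.ev (nat_lit 740) (nat_lit 8589934592) (.ev (nat_lit 749) (nat_lit 524288) .dd)))) (.ch (nat_lit
 29) (.ev (nat_lit 608) (nat_lit 407404544) (.ev (nat_lit 672) (nat_lit 8) (.ev (nat_lit 685) (nat_lit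
 8589934592) .dd))))))))))))) (.ch (nat_lit 8) (.ev (nat_lit 52) (nat_lit 35184442888204) (.ev (nat_lit 84)
 (nat_lit 4398046511104) (.ev (nat_lit 148) (nat_lit 134219776) (.ev (nat_lit 180) (nat_lit 8589934592) (.ev
 (nat_lit 212) (nat_lit 512) (.ev (nat_lit 292) (nat_lit 33554432) (.nd (nat_lit 592) (.br (nat_lit 18) (.br
 (nat_lit 5) (.br (nat_lit 2) (.ch (nat_lit 0) (.ev (nat_lit 608) (nat_lit 272662528) .dd)) (.br (nat_lit 4)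
 (.ch (nat_lit 2) (.ev (nat_lit 608) (nat_lit 4227072) (.ev (nat_lit 621) (nat_lit 268435456) .dd))) (.ch
 (nat_lit 4) (.ev (nat_lit 608) (nat_lit 272662528) .dd)))) (.br (nat_lit 12) (.ch (nat_lit 5) (.ev (nat_lit
 608) (nat_lit 272662528) .dd)) (.br (nat_lit 13) (.ch (nat_lit 12) (.ev (nat_lit 608) (nat_lit 268435456) (.ev
 (nat_lit 740) (nat_lit 32768) (.ev (nat_lit 749) (nat_lit 4194304) .dd)))) (.ch (nat_lit 13) (.ev (nat_lit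
 608) (nat_lit 268435456) (.ev (nat_lit 740) (nat_lit 4194304) (.ev (nat_lit 749) (nat_lit 32768) .dd)))))))
 (.br (nat_lit 21) (.br (nat_lit 19) (.ch (nat_lit 18) (.ev (nat_lit 608) (nat_lit 272662528) .dd)) (.br
 (nat_lit 20) (.ch (nat_lit 19) (.ev (nat_lit 608) (nat_lit 4194304) (.ev (nat_lit 900) (nat_lit 268435456)
 (.ev (nat_lit 909) (nat_lit 32768) .dd)))) (.ch (nat_lit 20) (.ev (nat_lit 608) (nat_lit 272662528) .dd))))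
 (.br (nat_lit 25) (.ch (nat_lit 21) (.ev (nat_lit 608) (nat_lit 32768) (.fin (nat_lit 576461302059713084))))
 (.br (nat_lit 26) (.ch (nat_lit 25) (.ev (nat_lit 608) (nat_lit 272662528) .dd)) (.ch (nat_lit 26) (.ev
 (nat_lit 608) (nat_lit 272662528) .dd))))))))))))))))) (.br (nat_lit 13) (.br (nat_lit 10) (.ch (nat_lit 9)
 (.ev (nat_lit 52) (nat_lit 4406639624708) (.ev (nat_lit 64) (nat_lit 35184880146440) .dd))) (.br (nat_lit 12)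
 (.ch (nat_lit 10) (.ev (nat_lit 52) (nat_lit 9030373376) (.ev (nat_lit 64) (nat_lit 39582489397772) .dd)))
 (.ch (nat_lit 12) (.ev (nat_lit 52) (nat_lit 4398349060620) (.ev (nat_lit 84) (nat_lit 4194304) (.ev (nat_lit
 116) (nat_lit 35192962023424) (.ev (nat_lit 160) (nat_lit 204492800) .dd))))))) (.br (nat_lit 18) (.br
 (nat_lit 17) (.ch (nat_lit 13) (.ev (nat_lit 52) (nat_lit 203479556) (.ev (nat_lit 84) (nat_lit 268435456)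
 (.ev (nat_lit 116) (nat_lit 34078720) (.ev (nat_lit 192) (nat_lit 39591013777416) .dd))))) (.ch (nat_lit 17)
 (.ev (nat_lit 52) (nat_lit 4398187022344) (.ev (nat_lit 84) (nat_lit 268488704) (.ev (nat_lit 148) (nat_lit
 1049088) (.ev (nat_lit 560) (nat_lit 67108864) (.nd (nat_lit 592) (.br (nat_lit 20) (.br (nat_lit 4) (.br
 (nat_lit 2) (.ch (nat_lit 1) (.ev (nat_lit 608) (nat_lit 35192962547716) (.ev (nat_lit 621) (nat_lit 33554432)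
 .dd))) (.ch (nat_lit 2) (.ev (nat_lit 608) (nat_lit 35184406167556) (.ev (nat_lit 621) (nat_lit 8589934592)
 .dd)))) (.br (nat_lit 5) (.ch (nat_lit 4) (.ev (nat_lit 608) (nat_lit 35192995577860) (.ev (nat_lit 621)
 (nat_lit 524288) .dd))) (.br (nat_lit 12) (.ch (nat_lit 5) (.ev (nat_lit 608) (nat_lit 8624013312) (.ev
 (nat_lit 740) (nat_lit 4) (.ev (nat_lit 749) (nat_lit 35184372088832) .dd)))) (.ch (nat_lit 12) (.ev (nat_lit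
 608) (nat_lit 35192996102148) .dd))))) (.br (nat_lit 27) (.br (nat_lit 21) (.ch (nat_lit 20) (.ev (nat_lit
 608) (nat_lit 35192996102144) (.ev (nat_lit 621) (nat_lit 4) .dd))) (.ch (nat_lit 21) (.ev (nat_lit 608)
 (nat_lit 35192996102148) .dd))) (.br (nat_lit 28) (.ch (nat_lit 27) (.ev (nat_lit 608) (nat_lit
 35192962023424) (.ev (nat_lit 740) (nat_lit 524292) (.ev (nat_lit 749) (nat_lit 33554432) .dd)))) (.br
 (nat_lit 29) (.ch (nat_lit 28) (.ev (nat_lit 608) (nat_lit 35184406167556) (.ev (nat_lit 621) (nat_lit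
 8589934592) .dd))) (.ch (nat_lit 29) (.ev (nat_lit 608) (nat_lit 35192996102148) .dd))))))))))))) (.br
 (nat_lit 21) (.ch (nat_lit 18) (.ev (nat_lit 52) (nat_lit 39591411204608) (.ev (nat_lit 64) (nat_lit
 108566540) .dd))) (.ch (nat_lit 21) (.ev (nat_lit 52) (nat_lit 9027721728) (.ev (nat_lit 84) (nat_lit 8) (.ev
 (nat_lit 116) (nat_lit 35184439197696) (.ev (nat_lit 180) (nat_lit 4398046543872) (.ev (nat_lit 324) (nat_lit
 2097152) (.nd (nat_lit 592) (.br (nat_lit 12) (.br (nat_lit 2) (.br (nat_lit 1) (.ch (nat_lit 0) (.ev (nat_lit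
 608) (nat_lit 4210692) .dd)) (.ch (nat_lit 1) (.ev (nat_lit 608) (nat_lit 4210688) (.ev (nat_lit 621) (nat_lit
 4) .dd)))) (.br (nat_lit 5) (.ch (nat_lit 2) (.ev (nat_lit 608) (nat_lit 4194308) (.ev (nat_lit 621) (nat_lit
 16384) .dd))) (.br (nat_lit 6) (.ch (nat_lit 5) (.ev (nat_lit 608) (nat_lit 4210688) (.ev (nat_lit 621)
 (nat_lit 4) .dd))) (.ch (nat_lit 6) (.ev (nat_lit 608) (nat_lit 4194308) (.ev (nat_lit 621) (nat_lit 16384)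
 .dd)))))) (.br (nat_lit 15) (.br (nat_lit 13) (.ch (nat_lit 12) (.ev (nat_lit 608) (nat_lit 4) (.ev (nat_lit
 784) (nat_lit 4210688) .dd))) (.ch (nat_lit 13) (.ev (nat_lit 608) (nat_lit 4194308) (.ev (nat_lit 621)
 (nat_lit 16384) .dd)))) (.br (nat_lit 18) (.ch (nat_lit 15) (.ev (nat_lit 608) (nat_lit 4210692) .dd)) (.br
 (nat_lit 27) (.ch (nat_lit 18) (.ev (nat_lit 608) (nat_lit 4210692) .dd)) (.ch (nat_lit 27) (.ev (nat_lit 608)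
 (nat_lit 16388) (.ev (nat_lit 621) (nat_lit 4194304) .dd)))))))))))))))))) (.br (nat_lit 34) (.br (nat_lit 30)
 (.br (nat_lit 25) (.ch (nat_lit 22) (.ev (nat_lit 52) (nat_lit 4398454947848) (.ev (nat_lit 84) (nat_lit 2048)
 (.ev (nat_lit 116) (nat_lit 67141632) (.ev (nat_lit 148) (nat_lit 35184372088832) (.ev (nat_lit 244) (nat_lit
 4) (.ev (nat_lit 292) (nat_lit 4096) (.nd (nat_lit 592) (.br (nat_lit 13) (.br (nat_lit 6) (.br (nat_lit 5)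
 (.ch (nat_lit 1) (.ev (nat_lit 608) (nat_lit 35652096) (.ev (nat_lit 621) (nat_lit 8589934592) .dd))) (.ch
 (nat_lit 5) (.ev (nat_lit 608) (nat_lit 8589935104) (.ev (nat_lit 740) (nat_lit 2097152) (.ev (nat_lit 749)
 (nat_lit 33554432) .dd))))) (.br (nat_lit 12) (.ch (nat_lit 6) (.ev (nat_lit 608) (nat_lit 8625586688) .dd))
 (.ch (nat_lit 12) (.ev (nat_lit 608) (nat_lit 2097152) (.ev (nat_lit 672) (nat_lit 512) (.ev (nat_lit 768)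
 (nat_lit 8623489024) .dd)))))) (.br (nat_lit 19) (.br (nat_lit 15) (.ch (nat_lit 13) (.ev (nat_lit 608)
 (nat_lit 8589935104) (.ev (nat_lit 740) (nat_lit 2097152) (.ev (nat_lit 749) (nat_lit 33554432) .dd)))) (.ch
 (nat_lit 15) (.ev (nat_lit 608) (nat_lit 8623489536) (.ev (nat_lit 621) (nat_lit 2097152) .dd)))) (.br
 (nat_lit 20) (.ch (nat_lit 19) (.ev (nat_lit 608) (nat_lit 8625586688) .dd)) (.br (nat_lit 24) (.ch (nat_lit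
 20) (.ev (nat_lit 608) (nat_lit 8625586688) .dd)) (.ch (nat_lit 24) (.ev (nat_lit 608) (nat_lit 35652096) (.ev
 (nat_lit 621) (nat_lit 8589934592) .dd))))))))))))))) (.br (nat_lit 26) (.ch (nat_lit 25) (.ev (nat_lit 52)
 (nat_lit 8591528452) (.ev (nat_lit 116) (nat_lit 4227080) (.ev (nat_lit 180) (nat_lit 33554432) (.ev (nat_lit
 212) (nat_lit 270532608) (.ev (nat_lit 244) (nat_lit 2048) (.nd (nat_lit 592) (.br (nat_lit 19) (.br (nat_lit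
 2) (.br (nat_lit 1) (.ch (nat_lit 0) (.ev (nat_lit 608) (nat_lit 39582418599936) (.ev (nat_lit 800) (nat_lit
 201326592) .dd))) (.ch (nat_lit 1) (.ev (nat_lit 608) (nat_lit 35184573415424) (.ev (nat_lit 621) (nat_lit
 4398046511104) .dd)))) (.br (nat_lit 15) (.ch (nat_lit 2) (.ev (nat_lit 608) (nat_lit 4398113619968) (.ev
 (nat_lit 624) (nat_lit 35184506306560) .dd))) (.br (nat_lit 18) (.ch (nat_lit 15) (.ev (nat_lit 608) (nat_lit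
 39582619926528) .dd)) (.ch (nat_lit 18) (.ev (nat_lit 608) (nat_lit 4398247837696) (.ev (nat_lit 621) (nat_lit
 35184372088832) .dd)))))) (.br (nat_lit 26) (.br (nat_lit 24) (.ch (nat_lit 19) (.ev (nat_lit 608) (nat_lit
 39582485708800) (.ev (nat_lit 621) (nat_lit 134217728) .dd))) (.ch (nat_lit 24) (.ev (nat_lit 608) (nat_lit
 35184506306560) (.ev (nat_lit 740) (nat_lit 67108864) (.ev (nat_lit 749) (nat_lit 4398046511104) .dd))))) (.br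
 (nat_lit 27) (.ch (nat_lit 26) (.ev (nat_lit 608) (nat_lit 39582485708800) (.ev (nat_lit 621) (nat_lit
 134217728) .dd))) (.br (nat_lit 29) (.ch (nat_lit 27) (.ev (nat_lit 608) (nat_lit 39582619926528) .dd)) (.ch
 (nat_lit 29) (.ev (nat_lit 608) (nat_lit 39582619926528) .dd))))))))))))) (.ch (nat_lit 26) (.ev (nat_lit 52)
 (nat_lit 4398148261896) (.ev (nat_lit 84) (nat_lit 2097152) (.ev (nat_lit 96) (nat_lit 35193369412100)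
 .dd)))))) (.br (nat_lit 31) (.ch (nat_lit 30) (.ev (nat_lit 52) (nat_lit 35193032312832) (.ev (nat_lit 64)
 (nat_lit 4398487458316) .dd))) (.br (nat_lit 33) (.ch (nat_lit 31) (.ev (nat_lit 52) (nat_lit 39582691788800)
 (.ev (nat_lit 84) (nat_lit 33570824) (.ev (nat_lit 148) (nat_lit 8589934592) (.ev (nat_lit 180) (nat_lit 4096)
 (.ev (nat_lit 244) (nat_lit 512) (.nd (nat_lit 592) (.br (nat_lit 13) (.br (nat_lit 4) (.br (nat_lit 1) (.ch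
 (nat_lit 0) (.ev (nat_lit 608) (nat_lit 70254596) (.ev (nat_lit 621) (nat_lit 134217728) .dd))) (.br (nat_lit
 2) (.ch (nat_lit 1) (.ev (nat_lit 608) (nat_lit 70254596) (.ev (nat_lit 621) (nat_lit 134217728) .dd))) (.ch
 (nat_lit 2) (.ev (nat_lit 608) (nat_lit 202375168) (.ev (nat_lit 624) (nat_lit 4) (.ev (nat_lit 637) (nat_lit
 2097152) .dd)))))) (.br (nat_lit 6) (.ch (nat_lit 4) (.ev (nat_lit 608) (nat_lit 136314884) (.ev (nat_lit 900)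
 (nat_lit 1048576) (.ev (nat_lit 909) (nat_lit 67108864) .dd)))) (.br (nat_lit 12) (.ch (nat_lit 6) (.ev
 (nat_lit 608) (nat_lit 1048580) (.ev (nat_lit 964) (nat_lit 67108864) (.ev (nat_lit 1184) (nat_lit 134217728)
 (.ev (nat_lit 1197) (nat_lit 2097152) .dd))))) (.ch (nat_lit 12) (.ev (nat_lit 608) (nat_lit 204472324)
 .dd))))) (.br (nat_lit 26) (.br (nat_lit 15) (.ch (nat_lit 13) (.ev (nat_lit 608) (nat_lit 137363460) (.ev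
 (nat_lit 621) (nat_lit 67108864) .dd))) (.br (nat_lit 25) (.ch (nat_lit 15) (.ev (nat_lit 608) (nat_lit
 136314880) (.ev (nat_lit 740) (nat_lit 4) (.ev (nat_lit 752) (nat_lit 1048576) (.ev (nat_lit 765) (nat_lit
 67108864) .dd))))) (.ch (nat_lit 25) (.ev (nat_lit 608) (nat_lit 134217732) (.ev (nat_lit 740) (nat_lit
 69206016) (.ev (nat_lit 749) (nat_lit 1048576) .dd)))))) (.br (nat_lit 27) (.ch (nat_lit 26) (.ev (nat_lit
 608) (nat_lit 2097152) (.ev (nat_lit 1056) (nat_lit 67108868) (.ev (nat_lit 1140) (nat_lit 1048576) (.ev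
 (nat_lit 1149) (nat_lit 134217728) .dd))))) (.br (nat_lit 29) (.ch (nat_lit 27) (.ev (nat_lit 608) (nat_lit
 204472324) .dd)) (.ch (nat_lit 29) (.ev (nat_lit 608) (nat_lit 137363460) (.ev (nat_lit 621) (nat_lit
 67108864) .dd)))))))))))))) (.ch (nat_lit 33) (.ev (nat_lit 52) (nat_lit 4398085888520) (.ev (nat_lit 116)
 (nat_lit 8589934592) (.ev (nat_lit 180) (nat_lit 67108864) (.ev (nat_lit 212) (nat_lit 268435456) (.ev
 (nat_lit 292) (nat_lit 134217728) (.ev (nat_lit 324) (nat_lit 35184372088832) (.nd (nat_lit 592) (.br (nat_lit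
 21) (.br (nat_lit 18) (.br (nat_lit 4) (.ch (nat_lit 0) (.ev (nat_lit 608) (nat_lit 2097156) .dd)) (.ch
 (nat_lit 4) (.ev (nat_lit 608) (nat_lit 2097156) .dd))) (.br (nat_lit 19) (.ch (nat_lit 18) (.ev (nat_lit 608)
 (nat_lit 4) (.ev (nat_lit 621) (nat_lit 2097152) .dd))) (.br (nat_lit 20) (.ch (nat_lit 19) (.ev (nat_lit 608)
 (nat_lit 2097156) .dd)) (.ch (nat_lit 20) (.ev (nat_lit 608) (nat_lit 2097152) (.ev (nat_lit 621) (nat_lit 4)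
 .dd)))))) (.br (nat_lit 26) (.br (nat_lit 25) (.ch (nat_lit 21) (.ev (nat_lit 608) (nat_lit 2097156) .dd))
 (.ch (nat_lit 25) (.ev (nat_lit 608) (nat_lit 4) (.ev (nat_lit 621) (nat_lit 2097152) .dd)))) (.br (nat_lit
 27) (.ch (nat_lit 26) (.ev (nat_lit 608) (nat_lit 2097152) (.ev (nat_lit 621) (nat_lit 4) .dd))) (.br (nat_lit
 29) (.ch (nat_lit 27) (.ev (nat_lit 608) (nat_lit 2097152) (.ev (nat_lit 621) (nat_lit 4) .dd))) (.ch (nat_lit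
 29) (.ev (nat_lit 608) (nat_lit 2097156) .dd))))))))))))))))) (.br (nat_lit 37) (.br (nat_lit 35) (.ch
 (nat_lit 34) (.ev (nat_lit 52) (nat_lit 35184573437960) (.ev (nat_lit 84) (nat_lit 272629760) (.ev (nat_lit
 324) (nat_lit 4398046511104) (.nd (nat_lit 592) (.br (nat_lit 24) (.br (nat_lit 20) (.br (nat_lit 18) (.ch
 (nat_lit 13) (.ev (nat_lit 608) (nat_lit 8624570884) (.ev (nat_lit 704) (nat_lit 2621440) .dd))) (.ch (nat_lit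
 18) (.ev (nat_lit 608) (nat_lit 8626110468) (.ev (nat_lit 672) (nat_lit 1048576) (.ev (nat_lit 740) (nat_lit
 512) (.ev (nat_lit 749) (nat_lit 32768) .dd)))))) (.br (nat_lit 21) (.ch (nat_lit 20) (.ev (nat_lit 608)
 (nat_lit 8626143744) (.ev (nat_lit 740) (nat_lit 1048576) (.ev (nat_lit 749) (nat_lit 4) .dd)))) (.ch (nat_lit
 21) (.ev (nat_lit 608) (nat_lit 37257216) (.ev (nat_lit 1072) (nat_lit 8589934592) (.ev (nat_lit 1140)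
 (nat_lit 4) (.ev (nat_lit 1149) (nat_lit 512) .dd))))))) (.br (nat_lit 26) (.br (nat_lit 25) (.ch (nat_lit 24)
 (.ev (nat_lit 608) (nat_lit 8593637892) (.ev (nat_lit 621) (nat_lit 33554432) .dd))) (.ch (nat_lit 25) (.ev
 (nat_lit 608) (nat_lit 8626635268) (.ev (nat_lit 740) (nat_lit 524288) (.ev (nat_lit 749) (nat_lit 32768)
 .dd))))) (.br (nat_lit 27) (.ch (nat_lit 26) (.ev (nat_lit 608) (nat_lit 8626143748) (.ev (nat_lit 621)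
 (nat_lit 1048576) .dd))) (.br (nat_lit 28) (.ch (nat_lit 27) (.ev (nat_lit 608) (nat_lit 35160576) (.ev
 (nat_lit 624) (nat_lit 2097152) (.ev (nat_lit 740) (nat_lit 8589934592) (.ev (nat_lit 749) (nat_lit 4)
 .dd))))) (.ch (nat_lit 28) (.ev (nat_lit 608) (nat_lit 36700676) (.ev (nat_lit 752) (nat_lit 8589934592) (.fin
 (nat_lit 576465700110418480)))))))))))))) (.br (nat_lit 36) (.ch (nat_lit 35) (.ev (nat_lit 52) (nat_lit
 35193433921540) (.ev (nat_lit 84) (nat_lit 16384) (.ev (nat_lit 148) (nat_lit 524288) (.ev (nat_lit 192)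
 (nat_lit 4398085308936) .dd))))) (.ch (nat_lit 36) (.ev (nat_lit 52) (nat_lit 39582554919436) (.ev (nat_lit
 84) (nat_lit 8589934592) (.ev (nat_lit 116) (nat_lit 1048576) (.ev (nat_lit 180) (nat_lit 2048) (.nd (nat_lit
 592) (.br (nat_lit 13) (.br (nat_lit 5) (.br (nat_lit 4) (.ch (nat_lit 0) (.ev (nat_lit 608) (nat_lit
 34095104) (.ev (nat_lit 740) (nat_lit 71303168) (.ev (nat_lit 900) (nat_lit 32768) (.ev (nat_lit 909) (nat_lit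
 268435456) .dd))))) (.ch (nat_lit 4) (.ev (nat_lit 608) (nat_lit 269008896) (.ev (nat_lit 740) (nat_lit
 100663296) (.ev (nat_lit 749) (nat_lit 4194304) .dd))))) (.br (nat_lit 6) (.ch (nat_lit 5) (.ev (nat_lit 608)
 (nat_lit 306233344) (.ev (nat_lit 672) (nat_lit 67108864) (.ev (nat_lit 685) (nat_lit 524288) .dd)))) (.ch
 (nat_lit 6) (.ev (nat_lit 608) (nat_lit 38322176) (.ev (nat_lit 740) (nat_lit 67108864) (.ev (nat_lit 749)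
 (nat_lit 268435456) .dd)))))) (.br (nat_lit 25) (.br (nat_lit 18) (.ch (nat_lit 13) (.ev (nat_lit 608)
 (nat_lit 336068608) (.ev (nat_lit 740) (nat_lit 4194304) (.ev (nat_lit 864) (nat_lit 16384) (.ev (nat_lit
 1312) (nat_lit 33587200) .dd))))) (.ch (nat_lit 18) (.ev (nat_lit 608) (nat_lit 373850112) (.ev (nat_lit 621)
 (nat_lit 16384) .dd)))) (.br (nat_lit 28) (.ch (nat_lit 25) (.ev (nat_lit 608) (nat_lit 339787776) (.ev
 (nat_lit 740) (nat_lit 524288) (.ev (nat_lit 749) (nat_lit 33554432) .dd)))) (.ch (nat_lit 28) (.ev (nat_lit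
 608) (nat_lit 369147904) (.ev (nat_lit 672) (nat_lit 4194304) (.ev (nat_lit 685) (nat_lit 524288)
 .dd))))))))))))))) (.br (nat_lit 39) (.br (nat_lit 38) (.ch (nat_lit 37) (.ev (nat_lit 52) (nat_lit
 35184580772364) (.ev (nat_lit 84) (nat_lit 32768) (.ev (nat_lit 116) (nat_lit 268435456) (.ev (nat_lit 148)
 (nat_lit 524288) (.ev (nat_lit 544) (nat_lit 33554432) (.nd (nat_lit 592) (.br (nat_lit 12) (.br (nat_lit 5)
 (.br (nat_lit 4) (.ch (nat_lit 2) (.ev (nat_lit 608) (nat_lit 4406636451840) .dd)) (.ch (nat_lit 4) (.ev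
 (nat_lit 608) (nat_lit 4398046515200) (.ev (nat_lit 768) (nat_lit 8589934592) (.ev (nat_lit 781) (nat_lit
 2048) .dd))))) (.br (nat_lit 6) (.ch (nat_lit 5) (.ev (nat_lit 608) (nat_lit 8589940736) (.ev (nat_lit 621)
 (nat_lit 4398046511104) .dd))) (.ch (nat_lit 6) (.ev (nat_lit 608) (nat_lit 4398046517248) (.ev (nat_lit 621)
 (nat_lit 8589934592) .dd))))) (.br (nat_lit 19) (.br (nat_lit 15) (.ch (nat_lit 12) (.ev (nat_lit 608)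
 (nat_lit 4406636451840) .dd)) (.ch (nat_lit 15) (.ev (nat_lit 608) (nat_lit 4406636451840) .dd))) (.br
 (nat_lit 21) (.ch (nat_lit 19) (.ev (nat_lit 608) (nat_lit 4406636447744) (.ev (nat_lit 621) (nat_lit 4096)
 .dd))) (.br (nat_lit 29) (.ch (nat_lit 21) (.ev (nat_lit 608) (nat_lit 8589934592) (.ev (nat_lit 624) (nat_lit
 4398046511104) (.ev (nat_lit 1216) (nat_lit 6144) .dd)))) (.ch (nat_lit 29) (.ev (nat_lit 608) (nat_lit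
 4406636445696) (.ev (nat_lit 752) (nat_lit 6144) .dd)))))))))))))) (.ch (nat_lit 38) (.ev (nat_lit 52)
 (nat_lit 35184674641932) (.ev (nat_lit 84) (nat_lit 72351744) (.ev (nat_lit 148) (nat_lit 8724152320) (.ev
 (nat_lit 304) (nat_lit 4398048625152) .dd)))))) (.br (nat_lit 42) (.ch (nat_lit 39) (.ev (nat_lit 52) (nat_lit
 308298240) (.ev (nat_lit 244) (nat_lit 8589934592) (.ev (nat_lit 292) (nat_lit 1048580) (.ev (nat_lit 324)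
 (nat_lit 8) (.nd (nat_lit 592) (.br (nat_lit 18) (.br (nat_lit 6) (.br (nat_lit 2) (.ch (nat_lit 1) (.ev
 (nat_lit 608) (nat_lit 35184573974528) (.ev (nat_lit 720) (nat_lit 4096) (.ev (nat_lit 733) (nat_lit
 4398046511104) .dd)))) (.ch (nat_lit 2) (.ev (nat_lit 608) (nat_lit 39582486239232) (.ev (nat_lit 640)
 (nat_lit 134217728) (.ev (nat_lit 653) (nat_lit 32768) .dd))))) (.br (nat_lit 12) (.ch (nat_lit 6) (.ev
 (nat_lit 608) (nat_lit 39582553376768) (.ev (nat_lit 1200) (nat_lit 67112960) .dd))) (.ch (nat_lit 12) (.ev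
 (nat_lit 608) (nat_lit 4398248400896) (.ev (nat_lit 621) (nat_lit 35184372088832) .dd))))) (.br (nat_lit 24)
 (.br (nat_lit 19) (.ch (nat_lit 18) (.ev (nat_lit 608) (nat_lit 4398248400896) (.ev (nat_lit 621) (nat_lit
 35184372088832) .dd))) (.ch (nat_lit 19) (.ev (nat_lit 608) (nat_lit 35184573454336) (.ev (nat_lit 740)
 (nat_lit 4398046511104) (.ev (nat_lit 749) (nat_lit 524288) .dd))))) (.br (nat_lit 28) (.ch (nat_lit 24) (.ev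
 (nat_lit 608) (nat_lit 39582553344000) (.ev (nat_lit 740) (nat_lit 67108864) (.ev (nat_lit 752) (nat_lit
 32768) (.ev (nat_lit 765) (nat_lit 4096) .dd))))) (.br (nat_lit 29) (.ch (nat_lit 28) (.ev (nat_lit 608)
 (nat_lit 35184372092928) (.ev (nat_lit 624) (nat_lit 2048) (.ev (nat_lit 720) (nat_lit 67108864) (.ev (nat_lit
 740) (nat_lit 134217728) (.ev (nat_lit 1200) (nat_lit 4398046511104) (.fin (nat_lit 576465700110418480))))))))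
 (.ch (nat_lit 29) (.ev (nat_lit 608) (nat_lit 39582619963392) (.ev (nat_lit 640) (nat_lit 2048) (.ev (nat_lit
 653) (nat_lit 524288) .dd)))))))))))))) (.ch (nat_lit 42) (.ev (nat_lit 52) (nat_lit 4406745022976) (.ev
 (nat_lit 84) (nat_lit 134217728) (.ev (nat_lit 116) (nat_lit 35184372090884) (.nd (nat_lit 592) (.br (nat_lit
 20) (.br (nat_lit 5) (.br (nat_lit 2) (.ch (nat_lit 0) (.ev (nat_lit 608) (nat_lit 4096) (.ev (nat_lit 784)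
 (nat_lit 268435464) .dd))) (.ch (nat_lit 2) (.ev (nat_lit 608) (nat_lit 4104) (.ev (nat_lit 621) (nat_lit
 268435456) .dd)))) (.br (nat_lit 6) (.ch (nat_lit 5) (.ev (nat_lit 608) (nat_lit 268439560) .dd)) (.br
 (nat_lit 18) (.ch (nat_lit 6) (.ev (nat_lit 608) (nat_lit 4104) (.ev (nat_lit 621) (nat_lit 268435456) .dd)))
 (.ch (nat_lit 18) (.ev (nat_lit 608) (nat_lit 268439560) .dd))))) (.br (nat_lit 26) (.br (nat_lit 21) (.ch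
 (nat_lit 20) (.ev (nat_lit 608) (nat_lit 268435464) (.ev (nat_lit 621) (nat_lit 4096) .dd))) (.ch (nat_lit 21)
 (.ev (nat_lit 608) (nat_lit 268439560) .dd))) (.br (nat_lit 27) (.ch (nat_lit 26) (.ev (nat_lit 608) (nat_lit
 4104) (.ev (nat_lit 621) (nat_lit 268435456) .dd))) (.br (nat_lit 28) (.ch (nat_lit 27) (.ev (nat_lit 608)
 (nat_lit 268435464) (.ev (nat_lit 621) (nat_lit 4096) .dd))) (.ch (nat_lit 28) (.ev (nat_lit 608) (nat_lit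
 268439552) (.ev (nat_lit 621) (nat_lit 8) .dd)))))))))))))))))))

/-- Subtrie. -/
noncomputable def T6 : Tr := (.ev (nat_lit 20) (nat_lit 57483843443202) (.nd (nat_lit 33) (.br (nat_lit 22)
 (.br (nat_lit 9) (.br (nat_lit 6) (.br (nat_lit 4) (.ch (nat_lit 1) (.ev (nat_lit 52) (nat_lit 70384286449696)
 (.ev (nat_lit 116) (nat_lit 524288) (.ev (nat_lit 212) (nat_lit 8) (.ev (nat_lit 336) (nat_lit 69256347652)
 .dd))))) (.br (nat_lit 5) (.ch (nat_lit 4) (.ev (nat_lit 52) (nat_lit 70379587239936) (.ev (nat_lit 84)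
 (nat_lit 68719476736) (.ev (nat_lit 148) (nat_lit 8) (.ev (nat_lit 180) (nat_lit 32) (.ev (nat_lit 212)
 (nat_lit 536887300) (.nd (nat_lit 592) (.br (nat_lit 15) (.br (nat_lit 7) (.br (nat_lit 5) (.ch (nat_lit 2)
 (.ev (nat_lit 608) (nat_lit 4699717632) .dd)) (.ch (nat_lit 5) (.ev (nat_lit 608) (nat_lit 136314880) (.fin
 (nat_lit 576465700110418516))))) (.br (nat_lit 11) (.ch (nat_lit 7) (.ev (nat_lit 608) (nat_lit 4431282176)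
 (.ev (nat_lit 621) (nat_lit 268435456) .dd))) (.br (nat_lit 13) (.ch (nat_lit 11) (.ev (nat_lit 608) (nat_lit
 4699717632) .dd)) (.ch (nat_lit 13) (.ev (nat_lit 608) (nat_lit 4699717632) .dd))))) (.br (nat_lit 23) (.br
 (nat_lit 16) (.ch (nat_lit 15) (.ev (nat_lit 608) (nat_lit 4565499904) (.ev (nat_lit 621) (nat_lit 134217728)
 .dd))) (.ch (nat_lit 16) (.ev (nat_lit 608) (nat_lit 4699717632) .dd))) (.br (nat_lit 24) (.ch (nat_lit 23)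
 (.ev (nat_lit 608) (nat_lit 4563402752) (.ev (nat_lit 740) (nat_lit 134217728) (.ev (nat_lit 749) (nat_lit
 2097152) .dd)))) (.br (nat_lit 26) (.ch (nat_lit 24) (.ev (nat_lit 608) (nat_lit 4431282176) (.ev (nat_lit
 621) (nat_lit 268435456) .dd))) (.ch (nat_lit 26) (.ev (nat_lit 608) (nat_lit 4699717632) .dd)))))))))))))
 (.ch (nat_lit 5) (.ev (nat_lit 52) (nat_lit 75971952652) (.ev (nat_lit 96) (nat_lit 70377571368992) .dd)))))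
 (.br (nat_lit 7) (.ch (nat_lit 6) (.ev (nat_lit 52) (nat_lit 11511267332) (.ev (nat_lit 84) (nat_lit 16424)
 (.ev (nat_lit 128) (nat_lit 70442032037888) .dd)))) (.br (nat_lit 8) (.ch (nat_lit 7) (.ev (nat_lit 52)
 (nat_lit 2214854692) (.ev (nat_lit 64) (nat_lit 70451328466952) .dd))) (.ch (nat_lit 8) (.ev (nat_lit 52)
 (nat_lit 73084452876) (.ev (nat_lit 84) (nat_lit 32) (.ev (nat_lit 116) (nat_lit 8589934592) (.ev (nat_lit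
 128) (nat_lit 70371868934144) .dd)))))))) (.br (nat_lit 13) (.br (nat_lit 10) (.ch (nat_lit 9) (.ev (nat_lit
 52) (nat_lit 79458992132) (.ev (nat_lit 84) (nat_lit 536870912) (.ev (nat_lit 116) (nat_lit 70368744964096)
 (.ev (nat_lit 148) (nat_lit 33554432) (.nd (nat_lit 592) (.br (nat_lit 11) (.br (nat_lit 5) (.br (nat_lit 2)
 (.ch (nat_lit 0) (.ev (nat_lit 608) (nat_lit 205537320) (.ev (nat_lit 740) (nat_lit 4294967296) (.ev (nat_lit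
 749) (nat_lit 268435456) .dd)))) (.ch (nat_lit 2) (.ev (nat_lit 608) (nat_lit 4764745760) (.ev (nat_lit 740)
 (nat_lit 4194304) (.ev (nat_lit 749) (nat_lit 8) .dd))))) (.br (nat_lit 9) (.ch (nat_lit 5) (.ev (nat_lit 608)
 (nat_lit 138428456) (.ev (nat_lit 752) (nat_lit 67108864) (.fin (nat_lit 576465700110418516))))) (.ch (nat_lit
 9) (.ev (nat_lit 608) (nat_lit 4496310280) (.ev (nat_lit 672) (nat_lit 4194304) (.ev (nat_lit 740) (nat_lit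
 32) (.ev (nat_lit 749) (nat_lit 268435456) .dd))))))) (.br (nat_lit 14) (.br (nat_lit 12) (.ch (nat_lit 11)
 (.ev (nat_lit 608) (nat_lit 473956392) (.ev (nat_lit 704) (nat_lit 4294983680) .dd))) (.ch (nat_lit 12) (.ev
 (nat_lit 608) (nat_lit 4764745768) (.ev (nat_lit 621) (nat_lit 4194304) .dd)))) (.br (nat_lit 19) (.ch
 (nat_lit 14) (.ev (nat_lit 608) (nat_lit 4701831168) (.ev (nat_lit 1024) (nat_lit 32) (.ev (nat_lit 1184)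
 (nat_lit 67108872) .dd)))) (.br (nat_lit 24) (.ch (nat_lit 19) (.ev (nat_lit 608) (nat_lit 4634722344) (.ev
 (nat_lit 621) (nat_lit 134217728) .dd))) (.ch (nat_lit 24) (.ev (nat_lit 608) (nat_lit 4701814816) (.ev
 (nat_lit 624) (nat_lit 16384) (.ev (nat_lit 740) (nat_lit 67108864) (.ev (nat_lit 749) (nat_lit 8)
 .dd))))))))))))))) (.br (nat_lit 12) (.ch (nat_lit 10) (.ev (nat_lit 52) (nat_lit 70451326091296) (.ev
 (nat_lit 116) (nat_lit 8) (.ev (nat_lit 148) (nat_lit 524288) (.ev (nat_lit 180) (nat_lit 4) (.ev (nat_lit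
 272) (nat_lit 2216706048) .dd)))))) (.ch (nat_lit 12) (.ev (nat_lit 52) (nat_lit 73853829164) (.ev (nat_lit
 84) (nat_lit 67108864) (.ev (nat_lit 128) (nat_lit 70379622383616) .dd)))))) (.br (nat_lit 18) (.br (nat_lit
 17) (.ch (nat_lit 13) (.ev (nat_lit 52) (nat_lit 70442498932740) (.ev (nat_lit 84) (nat_lit 33554432) (.ev
 (nat_lit 148) (nat_lit 8589934592) (.ev (nat_lit 512) (nat_lit 4194304) (.nd (nat_lit 592) (.br (nat_lit 15)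
 (.br (nat_lit 5) (.br (nat_lit 1) (.ch (nat_lit 0) (.ev (nat_lit 608) (nat_lit 524288) (.ev (nat_lit 740)
 (nat_lit 262152) (.ev (nat_lit 752) (nat_lit 32) (.ev (nat_lit 1344) (nat_lit 2415919104) .dd))))) (.ch
 (nat_lit 1) (.ev (nat_lit 608) (nat_lit 2147483680) (.ev (nat_lit 740) (nat_lit 8) (.ev (nat_lit 848) (nat_lit
 524288) (.ev (nat_lit 900) (nat_lit 262144) (.ev (nat_lit 909) (nat_lit 268435456) .dd))))))) (.br (nat_lit 7)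
 (.ch (nat_lit 5) (.ev (nat_lit 608) (nat_lit 2415919144) (.ev (nat_lit 672) (nat_lit 262144) (.ev (nat_lit
 685) (nat_lit 524288) .dd)))) (.ch (nat_lit 7) (.ev (nat_lit 608) (nat_lit 2148270120) (.ev (nat_lit 621)
 (nat_lit 268435456) .dd))))) (.br (nat_lit 19) (.br (nat_lit 18) (.ch (nat_lit 15) (.ev (nat_lit 608) (nat_lit
 268959776) (.ev (nat_lit 740) (nat_lit 8) (.ev (nat_lit 880) (nat_lit 262144) (.ev (nat_lit 893) (nat_lit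
 2147483648) .dd))))) (.ch (nat_lit 18) (.ev (nat_lit 608) (nat_lit 2416181280) (.ev (nat_lit 672) (nat_lit
 524296) .dd)))) (.br (nat_lit 23) (.ch (nat_lit 19) (.ev (nat_lit 608) (nat_lit 2416443432) (.ev (nat_lit 621)
 (nat_lit 262144) .dd))) (.ch (nat_lit 23) (.ev (nat_lit 608) (nat_lit 2416705544) (.ev (nat_lit 621) (nat_lit
 32) .dd)))))))))))) (.ch (nat_lit 17) (.ev (nat_lit 52) (nat_lit 70442436001832) (.ev (nat_lit 84) (nat_lit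
 268435456) (.ev (nat_lit 148) (nat_lit 67108864) (.ev (nat_lit 180) (nat_lit 524288) (.ev (nat_lit 212)
 (nat_lit 8589934592) (.nd (nat_lit 592) (.br (nat_lit 13) (.br (nat_lit 7) (.br (nat_lit 1) (.ch (nat_lit 0)
 (.ev (nat_lit 608) (nat_lit 2181054468) (.ev (nat_lit 621) (nat_lit 262144) .dd))) (.br (nat_lit 6) (.ch
 (nat_lit 1) (.ev (nat_lit 608) (nat_lit 33554436) (.ev (nat_lit 964) (nat_lit 262144) (.ev (nat_lit 1008)
 (nat_lit 16384) (.ev (nat_lit 1021) (nat_lit 2147483648) .dd))))) (.ch (nat_lit 6) (.ev (nat_lit 608) (nat_lit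
 2181300224) (.ev (nat_lit 624) (nat_lit 4) (.ev (nat_lit 637) (nat_lit 16384) .dd)))))) (.br (nat_lit 9) (.ch
 (nat_lit 7) (.ev (nat_lit 608) (nat_lit 16384) (.ev (nat_lit 1168) (nat_lit 2147745796) (.ev (nat_lit 1181)
 (nat_lit 33554432) .dd)))) (.br (nat_lit 11) (.ch (nat_lit 9) (.ev (nat_lit 608) (nat_lit 2181316612) .dd))
 (.ch (nat_lit 11) (.ev (nat_lit 608) (nat_lit 2181054468) (.ev (nat_lit 621) (nat_lit 262144) .dd)))))) (.br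
 (nat_lit 19) (.br (nat_lit 15) (.ch (nat_lit 13) (.ev (nat_lit 608) (nat_lit 2147500032) (.ev (nat_lit 740)
 (nat_lit 4) (.ev (nat_lit 752) (nat_lit 33554432) (.ev (nat_lit 765) (nat_lit 262144) .dd))))) (.br (nat_lit
 16) (.ch (nat_lit 15) (.ev (nat_lit 608) (nat_lit 33832964) (.ev (nat_lit 621) (nat_lit 2147483648) .dd)))
 (.ch (nat_lit 16) (.ev (nat_lit 608) (nat_lit 2147483652) (.ev (nat_lit 740) (nat_lit 278528) (.ev (nat_lit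
 749) (nat_lit 33554432) .dd)))))) (.br (nat_lit 24) (.ch (nat_lit 19) (.ev (nat_lit 608) (nat_lit 2147500036)
 (.ev (nat_lit 900) (nat_lit 33554432) (.ev (nat_lit 909) (nat_lit 262144) .dd)))) (.br (nat_lit 29) (.ch
 (nat_lit 24) (.ev (nat_lit 608) (nat_lit 33832964) (.ev (nat_lit 621) (nat_lit 2147483648) .dd))) (.ch
 (nat_lit 29) (.ev (nat_lit 608) (nat_lit 2181316612) .dd)))))))))))))) (.br (nat_lit 21) (.ch (nat_lit 18)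
 (.ev (nat_lit 52) (nat_lit 70379884527616) (.ev (nat_lit 64) (nat_lit 73658794028) .dd))) (.ch (nat_lit 21)
 (.ev (nat_lit 52) (nat_lit 70380455460896) (.ev (nat_lit 84) (nat_lit 4194304) (.ev (nat_lit 116) (nat_lit
 67108864) (.ev (nat_lit 224) (nat_lit 73016557580) .dd))))))))) (.br (nat_lit 34) (.br (nat_lit 30) (.br
 (nat_lit 25) (.ch (nat_lit 22) (.ev (nat_lit 52) (nat_lit 71811481608) (.ev (nat_lit 116) (nat_lit 67108868)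
 (.ev (nat_lit 528) (nat_lit 33554432) (.nd (nat_lit 592) (.br (nat_lit 13) (.br (nat_lit 9) (.br (nat_lit 6)
 (.ch (nat_lit 2) (.ev (nat_lit 608) (nat_lit 70381631176704) (.ev (nat_lit 621) (nat_lit 32) .dd))) (.br
 (nat_lit 7) (.ch (nat_lit 6) (.ev (nat_lit 608) (nat_lit 70381631176704) (.ev (nat_lit 621) (nat_lit 32)
 .dd))) (.ch (nat_lit 7) (.ev (nat_lit 608) (nat_lit 70368746274848) (.ev (nat_lit 624) (nat_lit 8589934592)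
 (.ev (nat_lit 637) (nat_lit 4294967296) .dd)))))) (.br (nat_lit 11) (.ch (nat_lit 9) (.ev (nat_lit 608)
 (nat_lit 70373039144960) (.ev (nat_lit 740) (nat_lit 8589934592) (.ev (nat_lit 932) (nat_lit 32) (.ev (nat_lit
 941) (nat_lit 2097152) .dd))))) (.br (nat_lit 12) (.ch (nat_lit 11) (.ev (nat_lit 608) (nat_lit
 70381631176704) (.ev (nat_lit 621) (nat_lit 32) .dd))) (.ch (nat_lit 12) (.ev (nat_lit 608) (nat_lit
 8589934592) (.ev (nat_lit 900) (nat_lit 70368746274816) (.ev (nat_lit 1008) (nat_lit 32) (.ev (nat_lit 1021)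
 (nat_lit 4294967296) .dd)))))))) (.br (nat_lit 24) (.br (nat_lit 15) (.ch (nat_lit 13) (.ev (nat_lit 608)
 (nat_lit 70381631176736) .dd)) (.br (nat_lit 16) (.ch (nat_lit 15) (.ev (nat_lit 608) (nat_lit 70381631176736)
 .dd)) (.ch (nat_lit 16) (.ev (nat_lit 608) (nat_lit 12886999072) (.ev (nat_lit 621) (nat_lit 70368744177664)
 .dd))))) (.br (nat_lit 26) (.ch (nat_lit 24) (.ev (nat_lit 608) (nat_lit 70381631176736) .dd)) (.br (nat_lit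
 29) (.ch (nat_lit 26) (.ev (nat_lit 608) (nat_lit 70373039144960) (.ev (nat_lit 740) (nat_lit 8589934592) (.ev
 (nat_lit 784) (nat_lit 32) (.ev (nat_lit 797) (nat_lit 2097152) .dd))))) (.ch (nat_lit 29) (.ev (nat_lit 608)
 (nat_lit 70377334112256) (.ev (nat_lit 740) (nat_lit 4294967296) (.ev (nat_lit 948) (nat_lit 2097152) (.ev
 (nat_lit 957) (nat_lit 32) .dd)))))))))))))) (.br (nat_lit 26) (.ch (nat_lit 25) (.ev (nat_lit 52) (nat_lit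
 70377871523876) (.ev (nat_lit 84) (nat_lit 2151677952) (.ev (nat_lit 116) (nat_lit 2097152) (.ev (nat_lit 148)
 (nat_lit 4294967296) (.ev (nat_lit 180) (nat_lit 134217736) (.nd (nat_lit 592) (.br (nat_lit 14) (.br (nat_lit
 12) (.br (nat_lit 7) (.ch (nat_lit 5) (.ev (nat_lit 608) (nat_lit 68820140032) (.ev (nat_lit 752) (nat_lit
 268697600) .dd))) (.ch (nat_lit 7) (.ev (nat_lit 608) (nat_lit 69055283200) (.ev (nat_lit 621) (nat_lit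
 33554432) .dd)))) (.br (nat_lit 13) (.ch (nat_lit 12) (.ev (nat_lit 608) (nat_lit 369360896) (.ev (nat_lit
 621) (nat_lit 68719476736) .dd))) (.ch (nat_lit 13) (.ev (nat_lit 608) (nat_lit 69055021056) (.ev (nat_lit
 672) (nat_lit 33554432) (.ev (nat_lit 685) (nat_lit 262144) .dd)))))) (.br (nat_lit 16) (.br (nat_lit 15) (.ch
 (nat_lit 14) (.ev (nat_lit 608) (nat_lit 302252032) (.ev (nat_lit 740) (nat_lit 67108864) (.ev (nat_lit 749)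
 (nat_lit 68719476736) .dd)))) (.ch (nat_lit 15) (.ev (nat_lit 608) (nat_lit 68753293312) (.ev (nat_lit 932)
 (nat_lit 67108864) (.ev (nat_lit 941) (nat_lit 268435456) .dd))))) (.br (nat_lit 19) (.ch (nat_lit 16) (.ev
 (nat_lit 608) (nat_lit 69088575488) (.ev (nat_lit 621) (nat_lit 262144) .dd))) (.br (nat_lit 24) (.ch (nat_lit
 19) (.ev (nat_lit 608) (nat_lit 69088837632) .dd)) (.ch (nat_lit 24) (.ev (nat_lit 608) (nat_lit 68786847744)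
 (.ev (nat_lit 656) (nat_lit 33554432) (.ev (nat_lit 669) (nat_lit 268435456) .dd))))))))))))))) (.ch (nat_lit
 26) (.ev (nat_lit 52) (nat_lit 68820402216) (.ev (nat_lit 116) (nat_lit 8589934592) (.ev (nat_lit 148)
 (nat_lit 4194308) (.ev (nat_lit 180) (nat_lit 4294967296) (.ev (nat_lit 292) (nat_lit 70368744194048) (.ev
 (nat_lit 464) (nat_lit 2097152) (.nd (nat_lit 592) (.br (nat_lit 16) (.br (nat_lit 11) (.br (nat_lit 2) (.ch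
 (nat_lit 1) (.ev (nat_lit 608) (nat_lit 2819096576) (.ev (nat_lit 621) (nat_lit 268435456) .dd))) (.ch
 (nat_lit 2) (.ev (nat_lit 608) (nat_lit 671612928) (.ev (nat_lit 740) (nat_lit 268435456) (.ev (nat_lit 749)
 (nat_lit 2147483648) .dd))))) (.br (nat_lit 15) (.ch (nat_lit 11) (.ev (nat_lit 608) (nat_lit 2550136832) (.ev
 (nat_lit 740) (nat_lit 524288) (.ev (nat_lit 749) (nat_lit 536870912) .dd)))) (.ch (nat_lit 15) (.ev (nat_lit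
 608) (nat_lit 3087007744) (.ev (nat_lit 621) (nat_lit 524288) .dd))))) (.br (nat_lit 19) (.br (nat_lit 18)
 (.ch (nat_lit 16) (.ev (nat_lit 608) (nat_lit 3087532032) .dd)) (.ch (nat_lit 18) (.ev (nat_lit 608) (nat_lit
 3087532032) .dd))) (.br (nat_lit 23) (.ch (nat_lit 19) (.ev (nat_lit 608) (nat_lit 940048384) (.ev (nat_lit
 621) (nat_lit 2147483648) .dd))) (.br (nat_lit 26) (.ch (nat_lit 23) (.ev (nat_lit 608) (nat_lit 2416443392)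
 (.ev (nat_lit 740) (nat_lit 134217728) (.ev (nat_lit 749) (nat_lit 536870912) .dd)))) (.ch (nat_lit 26) (.ev
 (nat_lit 608) (nat_lit 2550661120) (.ev (nat_lit 621) (nat_lit 536870912) .dd))))))))))))))))) (.br (nat_lit
 31) (.ch (nat_lit 30) (.ev (nat_lit 52) (nat_lit 70450418024448) (.ev (nat_lit 64) (nat_lit 3125297196) .dd)))
 (.br (nat_lit 33) (.ch (nat_lit 31) (.ev (nat_lit 52) (nat_lit 73287860256) (.ev (nat_lit 64) (nat_lit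
 70380255461388) .dd))) (.ch (nat_lit 33) (.ev (nat_lit 52) (nat_lit 4870389768) (.ev (nat_lit 84) (nat_lit
 70439611138048) (.ev (nat_lit 148) (nat_lit 8657043460) (.ev (nat_lit 212) (nat_lit 136314880) (.nd (nat_lit
 592) (.br (nat_lit 15) (.br (nat_lit 6) (.br (nat_lit 5) (.ch (nat_lit 0) (.ev (nat_lit 608) (nat_lit
 268435456) (.ev (nat_lit 621) (nat_lit 32) .dd))) (.ch (nat_lit 5) (.ev (nat_lit 608) (nat_lit 32) (.ev
 (nat_lit 621) (nat_lit 268435456) .dd)))) (.br (nat_lit 9) (.ch (nat_lit 6) (.ev (nat_lit 608) (nat_lit 32)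
 (.ev (nat_lit 621) (nat_lit 268435456) .dd))) (.br (nat_lit 11) (.ch (nat_lit 9) (.ev (nat_lit 608) (nat_lit
 268435456) (.ev (nat_lit 621) (nat_lit 32) .dd))) (.ch (nat_lit 11) (.ev (nat_lit 608) (nat_lit 268435488)
 .dd))))) (.br (nat_lit 23) (.br (nat_lit 19) (.ch (nat_lit 15) (.ev (nat_lit 608) (nat_lit 268435488) .dd))
 (.ch (nat_lit 19) (.ev (nat_lit 608) (nat_lit 268435456) (.ev (nat_lit 621) (nat_lit 32) .dd)))) (.br (nat_lit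
 24) (.ch (nat_lit 23) (.ev (nat_lit 608) (nat_lit 268435488) .dd)) (.br (nat_lit 29) (.ch (nat_lit 24) (.ev
 (nat_lit 608) (nat_lit 32) (.ev (nat_lit 621) (nat_lit 268435456) .dd))) (.ch (nat_lit 29) (.ev (nat_lit 608)
 (nat_lit 268435456) (.ev (nat_lit 621) (nat_lit 32) .dd)))))))))))))))) (.br (nat_lit 37) (.br (nat_lit 35)
 (.ch (nat_lit 34) (.ev (nat_lit 52) (nat_lit 70373240487976) (.ev (nat_lit 84) (nat_lit 68757225472) (.ev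
 (nat_lit 116) (nat_lit 268435456) (.ev (nat_lit 148) (nat_lit 2097152) (.nd (nat_lit 592) (.br (nat_lit 9)
 (.br (nat_lit 2) (.br (nat_lit 1) (.ch (nat_lit 0) (.ev (nat_lit 608) (nat_lit 9127067648) (.ev (nat_lit 740)
 (nat_lit 2147483652) (.ev (nat_lit 749) (nat_lit 524288) .dd)))) (.ch (nat_lit 1) (.ev (nat_lit 608) (nat_lit
 537395204) (.ev (nat_lit 740) (nat_lit 2147483648) (.ev (nat_lit 768) (nat_lit 262144) (.ev (nat_lit 781)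
 (nat_lit 8589934592) .dd)))))) (.br (nat_lit 6) (.ch (nat_lit 2) (.ev (nat_lit 608) (nat_lit 8590458884) (.ev
 (nat_lit 672) (nat_lit 2147745792) (.ev (nat_lit 685) (nat_lit 536870912) .dd)))) (.ch (nat_lit 6) (.ev
 (nat_lit 608) (nat_lit 11275075584) (.ev (nat_lit 621) (nat_lit 4) .dd))))) (.br (nat_lit 14) (.br (nat_lit
 13) (.ch (nat_lit 9) (.ev (nat_lit 608) (nat_lit 2685140996) (.ev (nat_lit 621) (nat_lit 8589934592) .dd)))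
 (.ch (nat_lit 13) (.ev (nat_lit 608) (nat_lit 10737418244) (.ev (nat_lit 672) (nat_lit 537395200) (.ev
 (nat_lit 685) (nat_lit 262144) .dd))))) (.br (nat_lit 15) (.ch (nat_lit 14) (.ev (nat_lit 608) (nat_lit
 10737680384) (.ev (nat_lit 740) (nat_lit 524288) (.ev (nat_lit 768) (nat_lit 536870912) (.ev (nat_lit 781)
 (nat_lit 4) .dd))))) (.ch (nat_lit 15) (.ev (nat_lit 608) (nat_lit 537133060) (.ev (nat_lit 740) (nat_lit
 8590458880) (.ev (nat_lit 749) (nat_lit 2147483648) .dd))))))))))))) (.br (nat_lit 36) (.ch (nat_lit 35) (.ev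
 (nat_lit 52) (nat_lit 9598664708) (.ev (nat_lit 84) (nat_lit 16384) (.ev (nat_lit 148) (nat_lit 33554432) (.ev
 (nat_lit 212) (nat_lit 262144) (.nd (nat_lit 592) (.br (nat_lit 14) (.br (nat_lit 7) (.br (nat_lit 1) (.ch
 (nat_lit 0) (.ev (nat_lit 608) (nat_lit 70441763340320) (.ev (nat_lit 740) (nat_lit 8) (.ev (nat_lit 749)
 (nat_lit 2147483648) .dd)))) (.br (nat_lit 5) (.ch (nat_lit 1) (.ev (nat_lit 608) (nat_lit 70443910299656)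
 (.ev (nat_lit 640) (nat_lit 32) (.ev (nat_lit 653) (nat_lit 524288) .dd)))) (.ch (nat_lit 5) (.ev (nat_lit
 608) (nat_lit 70443910299688) (.ev (nat_lit 621) (nat_lit 524288) .dd))))) (.br (nat_lit 9) (.ch (nat_lit 7)
 (.ev (nat_lit 608) (nat_lit 70439615856680) (.ev (nat_lit 621) (nat_lit 4294967296) .dd))) (.br (nat_lit 12)
 (.ch (nat_lit 9) (.ev (nat_lit 608) (nat_lit 73014444064) (.ev (nat_lit 1024) (nat_lit 2147483648) (.ev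
 (nat_lit 1168) (nat_lit 524296) (.ev (nat_lit 1248) (nat_lit 70368744177664) (.ev (nat_lit 1261) (nat_lit
 4194304) .dd)))))) (.ch (nat_lit 12) (.ev (nat_lit 608) (nat_lit 70866960424) (.ev (nat_lit 752) (nat_lit
 70368748371968) (.ev (nat_lit 768) (nat_lit 4295491584) .dd))))))) (.br (nat_lit 23) (.br (nat_lit 15) (.ch
 (nat_lit 14) (.ev (nat_lit 608) (nat_lit 70373043339304) (.ev (nat_lit 784) (nat_lit 68719476736) (.ev
 (nat_lit 964) (nat_lit 2147483648) (.ev (nat_lit 973) (nat_lit 524288) .dd))))) (.br (nat_lit 16) (.ch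
 (nat_lit 15) (.ev (nat_lit 608) (nat_lit 70443906105384) (.ev (nat_lit 784) (nat_lit 524288) (.ev (nat_lit
 797) (nat_lit 4194304) .dd)))) (.ch (nat_lit 16) (.ev (nat_lit 608) (nat_lit 75166646312) (.ev (nat_lit 621)
 (nat_lit 70368744177664) .dd))))) (.br (nat_lit 26) (.ch (nat_lit 23) (.ev (nat_lit 608) (nat_lit
 70443910823944) (.ev (nat_lit 621) (nat_lit 32) .dd))) (.br (nat_lit 29) (.ch (nat_lit 26) (.ev (nat_lit 608)
 (nat_lit 70375191347232) (.ev (nat_lit 900) (nat_lit 68719476736) (.ev (nat_lit 909) (nat_lit 8) .dd)))) (.ch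
 (nat_lit 29) (.ev (nat_lit 608) (nat_lit 70375186628616) (.ev (nat_lit 900) (nat_lit 4194304) (.ev (nat_lit
 1056) (nat_lit 524288) (.ev (nat_lit 1280) (nat_lit 68719476768) .dd))))))))))))))) (.ch (nat_lit 36) (.ev
 (nat_lit 52) (nat_lit 71540146220) (.ev (nat_lit 84) (nat_lit 301989888) (.ev (nat_lit 116) (nat_lit 4194304)
 (.ev (nat_lit 148) (nat_lit 278528) (.nd (nat_lit 592) (.br (nat_lit 15) (.br (nat_lit 7) (.br (nat_lit 6)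
 (.ch (nat_lit 5) (.ev (nat_lit 608) (nat_lit 70377334112256) (.ev (nat_lit 624) (nat_lit 524288) (.ev (nat_lit
 740) (nat_lit 4294967296) (.ev (nat_lit 749) (nat_lit 67108864) .dd))))) (.ch (nat_lit 6) (.ev (nat_lit 608)
 (nat_lit 70381696712704) .dd))) (.br (nat_lit 9) (.ch (nat_lit 7) (.ev (nat_lit 608) (nat_lit 70381696712704)
 .dd)) (.br (nat_lit 13) (.ch (nat_lit 9) (.ev (nat_lit 608) (nat_lit 12952535040) (.ev (nat_lit 621) (nat_lit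
 70368744177664) .dd))) (.ch (nat_lit 13) (.ev (nat_lit 608) (nat_lit 70373106253824) (.ev (nat_lit 656)
 (nat_lit 524288) (.ev (nat_lit 669) (nat_lit 8589934592) .dd))))))) (.br (nat_lit 19) (.br (nat_lit 18) (.ch
 (nat_lit 15) (.ev (nat_lit 608) (nat_lit 70381696712704) .dd)) (.ch (nat_lit 18) (.ev (nat_lit 608) (nat_lit
 70377401745408) (.ev (nat_lit 621) (nat_lit 4294967296) .dd)))) (.br (nat_lit 24) (.ch (nat_lit 19) (.ev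
 (nat_lit 608) (nat_lit 8657567744) (.ev (nat_lit 912) (nat_lit 4294967296) (.ev (nat_lit 925) (nat_lit
 70368744177664) .dd)))) (.br (nat_lit 26) (.ch (nat_lit 24) (.ev (nat_lit 608) (nat_lit 70381629603840) (.ev
 (nat_lit 621) (nat_lit 67108864) .dd))) (.ch (nat_lit 26) (.ev (nat_lit 608) (nat_lit 70381696712704)
 .dd)))))))))))))) (.br (nat_lit 39) (.br (nat_lit 38) (.ch (nat_lit 37) (.ev (nat_lit 52) (nat_lit 207896588)
 (.ev (nat_lit 84) (nat_lit 70369012613120) (.ev (nat_lit 116) (nat_lit 8589934592) (.ev (nat_lit 148) (nat_lit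
 33554432) (.ev (nat_lit 160) (nat_lit 75699322912) .dd)))))) (.ch (nat_lit 38) (.ev (nat_lit 52) (nat_lit
 70439913914412) (.ev (nat_lit 84) (nat_lit 205537280) (.ev (nat_lit 116) (nat_lit 536870912) (.ev (nat_lit
 212) (nat_lit 4294967296) (.nd (nat_lit 592) (.br (nat_lit 12) (.br (nat_lit 2) (.br (nat_lit 1) (.ch (nat_lit
 0) (.ev (nat_lit 608) (nat_lit 8592031744) .dd)) (.ch (nat_lit 1) (.ev (nat_lit 608) (nat_lit 2097152) (.ev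
 (nat_lit 621) (nat_lit 8589934592) .dd)))) (.br (nat_lit 6) (.ch (nat_lit 2) (.ev (nat_lit 608) (nat_lit
 8592031744) .dd)) (.ch (nat_lit 6) (.ev (nat_lit 608) (nat_lit 8592031744) .dd)))) (.br (nat_lit 18) (.br
 (nat_lit 14) (.ch (nat_lit 12) (.ev (nat_lit 608) (nat_lit 8589934592) (.ev (nat_lit 621) (nat_lit 2097152)
 .dd))) (.ch (nat_lit 14) (.ev (nat_lit 608) (nat_lit 8589934592) (.ev (nat_lit 621) (nat_lit 2097152) .dd))))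
 (.br (nat_lit 24) (.ch (nat_lit 18) (.ev (nat_lit 608) (nat_lit 2097152) (.ev (nat_lit 621) (nat_lit
 8589934592) .dd))) (.br (nat_lit 29) (.ch (nat_lit 24) (.ev (nat_lit 608) (nat_lit 8592031744) .dd)) (.ch
 (nat_lit 29) (.ev (nat_lit 608) (nat_lit 8589934592) (.ev (nat_lit 621) (nat_lit 2097152) .dd))))))))))))))
 (.br (nat_lit 42) (.ch (nat_lit 39) (.ev (nat_lit 52) (nat_lit 70440456306688) (.ev (nat_lit 84) (nat_lit
 524288) (.ev (nat_lit 148) (nat_lit 67108872) (.ev (nat_lit 576) (nat_lit 32) (.nd (nat_lit 592) (.br (nat_lit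
 12) (.br (nat_lit 6) (.br (nat_lit 2) (.ch (nat_lit 0) (.ev (nat_lit 608) (nat_lit 8724414464) (.ev (nat_lit
 740) (nat_lit 4) (.ev (nat_lit 749) (nat_lit 4294967296) .dd)))) (.ch (nat_lit 2) (.ev (nat_lit 608) (nat_lit
 12884901892) (.ev (nat_lit 740) (nat_lit 262144) (.ev (nat_lit 749) (nat_lit 134217728) .dd))))) (.br (nat_lit
 7) (.ch (nat_lit 6) (.ev (nat_lit 608) (nat_lit 8724414468) (.ev (nat_lit 621) (nat_lit 4294967296) .dd)))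
 (.ch (nat_lit 7) (.ev (nat_lit 608) (nat_lit 13019381760) (.ev (nat_lit 621) (nat_lit 4) .dd))))) (.br
 (nat_lit 18) (.br (nat_lit 16) (.ch (nat_lit 12) (.ev (nat_lit 608) (nat_lit 12885164036) (.ev (nat_lit 621)
 (nat_lit 134217728) .dd))) (.ch (nat_lit 16) (.ev (nat_lit 608) (nat_lit 13019119620) (.ev (nat_lit 621)
 (nat_lit 262144) .dd)))) (.br (nat_lit 23) (.ch (nat_lit 18) (.ev (nat_lit 608) (nat_lit 4429447168) (.ev
 (nat_lit 740) (nat_lit 4) (.ev (nat_lit 749) (nat_lit 8589934592) .dd)))) (.br (nat_lit 26) (.ch (nat_lit 23)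
 (.ev (nat_lit 608) (nat_lit 13019381764) .dd)) (.ch (nat_lit 26) (.ev (nat_lit 608) (nat_lit 13019381764)
 .dd)))))))))))) (.ch (nat_lit 42) (.ev (nat_lit 52) (nat_lit 13529268224) (.ev (nat_lit 96) (nat_lit
 70440014053420) .dd))))))))))

/-- Subtrie. -/
noncomputable def T8 : Tr := (.ev (nat_lit 20) (nat_lit 57177191225864) (.nd (nat_lit 33) (.br (nat_lit 22)
 (.br (nat_lit 9) (.br (nat_lit 6) (.br (nat_lit 4) (.ch (nat_lit 1) (.ev (nat_lit 52) (nat_lit 70656578338848)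
 (.ev (nat_lit 116) (nat_lit 4) (.ev (nat_lit 244) (nat_lit 2) (.nd (nat_lit 592) (.br (nat_lit 15) (.br
 (nat_lit 11) (.br (nat_lit 3) (.ch (nat_lit 2) (.ev (nat_lit 608) (nat_lit 34897657856) (.ev (nat_lit 740)
 (nat_lit 65536) (.ev (nat_lit 749) (nat_lit 68719476736) .dd)))) (.ch (nat_lit 3) (.ev (nat_lit 608) (nat_lit
 34360786944) (.ev (nat_lit 740) (nat_lit 536936448) (.ev (nat_lit 749) (nat_lit 68719476736) .dd))))) (.br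
 (nat_lit 12) (.ch (nat_lit 11) (.ev (nat_lit 608) (nat_lit 69257461760) (.ev (nat_lit 621) (nat_lit
 34359738368) .dd))) (.ch (nat_lit 12) (.ev (nat_lit 608) (nat_lit 103616151552) (.ev (nat_lit 621) (nat_lit
 1048576) .dd))))) (.br (nat_lit 18) (.br (nat_lit 16) (.ch (nat_lit 15) (.ev (nat_lit 608) (nat_lit
 103616086016) (.ev (nat_lit 740) (nat_lit 65536) (.ev (nat_lit 749) (nat_lit 1048576) .dd)))) (.ch (nat_lit
 16) (.ev (nat_lit 608) (nat_lit 103080329216) (.ev (nat_lit 621) (nat_lit 536870912) .dd)))) (.br (nat_lit 20)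
 (.ch (nat_lit 18) (.ev (nat_lit 608) (nat_lit 69257396224) (.ev (nat_lit 740) (nat_lit 65536) (.ev (nat_lit
 749) (nat_lit 34359738368) .dd)))) (.ch (nat_lit 20) (.ev (nat_lit 608) (nat_lit 65536) (.ev (nat_lit 672)
 (nat_lit 536870912) (.ev (nat_lit 752) (nat_lit 1048576) (.ev (nat_lit 900) (nat_lit 34359738368) (.ev
 (nat_lit 909) (nat_lit 68719476736) .dd)))))))))))))) (.br (nat_lit 5) (.ch (nat_lit 4) (.ev (nat_lit 52)
 (nat_lit 70652283387906) (.ev (nat_lit 84) (nat_lit 32768) (.ev (nat_lit 128) (nat_lit 107912118308) .dd))))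
 (.ch (nat_lit 5) (.ev (nat_lit 52) (nat_lit 107915313158) (.ev (nat_lit 84) (nat_lit 70368811302912) (.ev
 (nat_lit 116) (nat_lit 283467841536) (.ev (nat_lit 180) (nat_lit 32768) (.nd (nat_lit 592) (.br (nat_lit 15)
 (.br (nat_lit 6) (.br (nat_lit 2) (.ch (nat_lit 1) (.ev (nat_lit 608) (nat_lit 1048608) .dd)) (.ch (nat_lit 2)
 (.ev (nat_lit 608) (nat_lit 1048608) .dd))) (.br (nat_lit 12) (.ch (nat_lit 6) (.ev (nat_lit 608) (nat_lit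
 1048608) .dd)) (.br (nat_lit 13) (.ch (nat_lit 12) (.fin (nat_lit 576474496186663496))) (.ch (nat_lit 13) (.ev
 (nat_lit 608) (nat_lit 1048576) (.ev (nat_lit 621) (nat_lit 32) .dd)))))) (.br (nat_lit 18) (.br (nat_lit 17)
 (.ch (nat_lit 15) (.ev (nat_lit 608) (nat_lit 1048608) .dd)) (.ch (nat_lit 17) (.ev (nat_lit 608) (nat_lit
 1048576) (.ev (nat_lit 621) (nat_lit 32) .dd)))) (.br (nat_lit 19) (.ch (nat_lit 18) (.ev (nat_lit 608)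
 (nat_lit 1048608) .dd)) (.br (nat_lit 20) (.ch (nat_lit 19) (.ev (nat_lit 608) (nat_lit 1048608) .dd)) (.ch
 (nat_lit 20) (.ev (nat_lit 608) (nat_lit 1048608) .dd)))))))))))))) (.br (nat_lit 7) (.ch (nat_lit 6) (.ev
 (nat_lit 52) (nat_lit 284072869892) (.ev (nat_lit 96) (nat_lit 70476122669090) .dd))) (.br (nat_lit 8) (.ch
 (nat_lit 7) (.ev (nat_lit 52) (nat_lit 309305868324) (.ev (nat_lit 84) (nat_lit 2) (.ev (nat_lit 116) (nat_lit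
 4194304) (.ev (nat_lit 148) (nat_lit 16384) (.ev (nat_lit 192) (nat_lit 70450885459968) .dd)))))) (.ch
 (nat_lit 8) (.ev (nat_lit 52) (nat_lit 107442356228) (.ev (nat_lit 84) (nat_lit 8589934592) (.ev (nat_lit 128)
 (nat_lit 70644163248162) .dd))))))) (.br (nat_lit 13) (.br (nat_lit 10) (.ch (nat_lit 9) (.ev (nat_lit 52)
 (nat_lit 111670231046) (.ev (nat_lit 96) (nat_lit 70648525307936) .dd))) (.br (nat_lit 12) (.ch (nat_lit 10)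
 (.ev (nat_lit 52) (nat_lit 70760127299616) (.ev (nat_lit 148) (nat_lit 65538) (.nd (nat_lit 592) (.br (nat_lit
 16) (.br (nat_lit 8) (.br (nat_lit 4) (.ch (nat_lit 2) (.ev (nat_lit 608) (nat_lit 68173828) .dd)) (.ch
 (nat_lit 4) (.ev (nat_lit 608) (nat_lit 68157440) (.ev (nat_lit 640) (nat_lit 16384) (.ev (nat_lit 653)
 (nat_lit 4) .dd))))) (.br (nat_lit 9) (.ch (nat_lit 8) (.ev (nat_lit 608) (nat_lit 67125252) (.ev (nat_lit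
 621) (nat_lit 1048576) .dd))) (.ch (nat_lit 9) (.ev (nat_lit 608) (nat_lit 68173828) .dd)))) (.br (nat_lit 19)
 (.br (nat_lit 18) (.ch (nat_lit 16) (.ev (nat_lit 608) (nat_lit 16384) (.ev (nat_lit 1104) (nat_lit 1048576)
 (.fin (nat_lit 576461302078587464))))) (.ch (nat_lit 18) (.ev (nat_lit 608) (nat_lit 1064960) (.ev (nat_lit
 740) (nat_lit 4) (.ev (nat_lit 749) (nat_lit 67108864) .dd))))) (.br (nat_lit 22) (.ch (nat_lit 19) (.ev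
 (nat_lit 608) (nat_lit 68173828) .dd)) (.br (nat_lit 29) (.ch (nat_lit 22) (.ev (nat_lit 608) (nat_lit
 67125252) (.ev (nat_lit 621) (nat_lit 1048576) .dd))) (.ch (nat_lit 29) (.ev (nat_lit 608) (nat_lit 1064964)
 (.ev (nat_lit 621) (nat_lit 67108864) .dd))))))))))) (.ch (nat_lit 12) (.ev (nat_lit 52) (nat_lit 73551347748)
 (.ev (nat_lit 84) (nat_lit 1114114) (.ev (nat_lit 116) (nat_lit 34359754752) (.nd (nat_lit 592) (.br (nat_lit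
 9) (.br (nat_lit 6) (.br (nat_lit 2) (.ch (nat_lit 1) (.ev (nat_lit 608) (nat_lit 8661237760) (.ev (nat_lit
 656) (nat_lit 274877906944) (.ev (nat_lit 669) (nat_lit 70368744177664) .dd)))) (.ch (nat_lit 2) (.ev (nat_lit
 608) (nat_lit 70643689193472) (.ev (nat_lit 752) (nat_lit 4194304) (.ev (nat_lit 765) (nat_lit 8589934592)
 .dd))))) (.br (nat_lit 8) (.ch (nat_lit 6) (.ev (nat_lit 608) (nat_lit 70643693387776) (.ev (nat_lit 621)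
 (nat_lit 8589934592) .dd))) (.ch (nat_lit 8) (.ev (nat_lit 608) (nat_lit 70377405415424) (.ev (nat_lit 621)
 (nat_lit 274877906944) .dd))))) (.br (nat_lit 15) (.br (nat_lit 11) (.ch (nat_lit 9) (.ev (nat_lit 608)
 (nat_lit 70652212019200) (.ev (nat_lit 624) (nat_lit 67108864) (.ev (nat_lit 637) (nat_lit 4194304) .dd))))
 (.ch (nat_lit 11) (.ev (nat_lit 608) (nat_lit 70652283322368) .dd))) (.br (nat_lit 17) (.ch (nat_lit 15) (.ev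
 (nat_lit 608) (nat_lit 70652212019200) (.ev (nat_lit 740) (nat_lit 4194304) (.ev (nat_lit 749) (nat_lit
 67108864) .dd)))) (.br (nat_lit 20) (.ch (nat_lit 17) (.ev (nat_lit 608) (nat_lit 283539144704) (.ev (nat_lit
 621) (nat_lit 70368744177664) .dd))) (.ch (nat_lit 20) (.ev (nat_lit 608) (nat_lit 70643693387776) (.ev
 (nat_lit 621) (nat_lit 8589934592) .dd)))))))))))))) (.br (nat_lit 18) (.br (nat_lit 17) (.ch (nat_lit 13)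
 (.ev (nat_lit 52) (nat_lit 70442362650630) (.ev (nat_lit 84) (nat_lit 274877906944) (.ev (nat_lit 116)
 (nat_lit 32) (.ev (nat_lit 148) (nat_lit 65536) (.ev (nat_lit 212) (nat_lit 42949672960) (.ev (nat_lit 244)
 (nat_lit 1048576) (.ev (nat_lit 253) (nat_lit 4194304) .dd)))))))) (.ch (nat_lit 17) (.ev (nat_lit 52)
 (nat_lit 70476659425312) (.ev (nat_lit 84) (nat_lit 67174400) (.ev (nat_lit 148) (nat_lit 4) (.ev (nat_lit
 192) (nat_lit 283468939266) .dd)))))) (.br (nat_lit 21) (.ch (nat_lit 18) (.ev (nat_lit 52) (nat_lit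
 70686571773954) (.ev (nat_lit 84) (nat_lit 68723671040) (.ev (nat_lit 116) (nat_lit 536870912) (.ev (nat_lit
 180) (nat_lit 4295000068) (.nd (nat_lit 592) (.br (nat_lit 12) (.br (nat_lit 8) (.br (nat_lit 7) (.ch (nat_lit
 3) (.ev (nat_lit 608) (nat_lit 1048608) (.ev (nat_lit 740) (nat_lit 65536) (.ev (nat_lit 749) (nat_lit
 67108864) .dd)))) (.ch (nat_lit 7) (.ev (nat_lit 608) (nat_lit 68157472) (.ev (nat_lit 621) (nat_lit 65536)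
 .dd)))) (.br (nat_lit 9) (.ch (nat_lit 8) (.ev (nat_lit 608) (nat_lit 68223008) .dd)) (.br (nat_lit 11) (.ch
 (nat_lit 9) (.ev (nat_lit 608) (nat_lit 68223008) .dd)) (.ch (nat_lit 11) (.ev (nat_lit 608) (nat_lit
 67174432) (.ev (nat_lit 621) (nat_lit 1048576) .dd)))))) (.br (nat_lit 18) (.br (nat_lit 17) (.ch (nat_lit 12)
 (.ev (nat_lit 608) (nat_lit 67174400) (.fin (nat_lit 576474496186663496)))) (.ch (nat_lit 17) (.ev (nat_lit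
 608) (nat_lit 68223008) .dd))) (.br (nat_lit 22) (.ch (nat_lit 18) (.ev (nat_lit 608) (nat_lit 67174432) (.ev
 (nat_lit 621) (nat_lit 1048576) .dd))) (.br (nat_lit 29) (.ch (nat_lit 22) (.ev (nat_lit 608) (nat_lit
 68223008) .dd)) (.ch (nat_lit 29) (.ev (nat_lit 608) (nat_lit 68223008) .dd)))))))))))) (.ch (nat_lit 21) (.ev
 (nat_lit 52) (nat_lit 70377872097312) (.ev (nat_lit 84) (nat_lit 274877906946) (.ev (nat_lit 116) (nat_lit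
 68719476736) (.ev (nat_lit 128) (nat_lit 38726057988) .dd))))))))) (.br (nat_lit 34) (.br (nat_lit 30) (.br
 (nat_lit 25) (.ch (nat_lit 22) (.ev (nat_lit 52) (nat_lit 378499317762) (.ev (nat_lit 116) (nat_lit 32768)
 (.ev (nat_lit 148) (nat_lit 12884901888) (.ev (nat_lit 180) (nat_lit 32) (.ev (nat_lit 212) (nat_lit
 70368744177664) (.nd (nat_lit 592) (.br (nat_lit 12) (.br (nat_lit 7) (.br (nat_lit 4) (.ch (nat_lit 1) (.ev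
 (nat_lit 608) (nat_lit 67108868) .dd)) (.ch (nat_lit 4) (.ev (nat_lit 608) (nat_lit 67108868) .dd))) (.br
 (nat_lit 9) (.ch (nat_lit 7) (.ev (nat_lit 608) (nat_lit 67108868) .dd)) (.br (nat_lit 11) (.ch (nat_lit 9)
 (.ev (nat_lit 608) (nat_lit 67108868) .dd)) (.ch (nat_lit 11) (.ev (nat_lit 608) (nat_lit 4) (.ev (nat_lit
 621) (nat_lit 67108864) .dd)))))) (.br (nat_lit 16) (.br (nat_lit 15) (.ch (nat_lit 12) (.ev (nat_lit 608)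
 (nat_lit 67108868) .dd)) (.ch (nat_lit 15) (.ev (nat_lit 608) (nat_lit 67108868) .dd))) (.br (nat_lit 17) (.ch
 (nat_lit 16) (.fin (nat_lit 576461302078587464))) (.br (nat_lit 22) (.ch (nat_lit 17) (.ev (nat_lit 608)
 (nat_lit 67108868) .dd)) (.ch (nat_lit 22) (.ev (nat_lit 608) (nat_lit 4) (.ev (nat_lit 621) (nat_lit
 67108864) .dd)))))))))))))) (.br (nat_lit 26) (.ch (nat_lit 25) (.ev (nat_lit 52) (nat_lit 70652750020646)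
 (.ev (nat_lit 116) (nat_lit 67108864) (.ev (nat_lit 224) (nat_lit 107378409472) .dd)))) (.ch (nat_lit 26) (.ev
 (nat_lit 52) (nat_lit 68787666978) (.ev (nat_lit 96) (nat_lit 70691407872004) .dd))))) (.br (nat_lit 31) (.ch
 (nat_lit 30) (.ev (nat_lit 52) (nat_lit 70759654391810) (.ev (nat_lit 148) (nat_lit 541065216) (.ev (nat_lit
 324) (nat_lit 32) (.nd (nat_lit 592) (.br (nat_lit 17) (.br (nat_lit 11) (.br (nat_lit 3) (.ch (nat_lit 1)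
 (.ev (nat_lit 608) (nat_lit 65540) (.ev (nat_lit 621) (nat_lit 16384) .dd))) (.br (nat_lit 4) (.ch (nat_lit 3)
 (.ev (nat_lit 608) (nat_lit 81924) .dd)) (.ch (nat_lit 4) (.ev (nat_lit 608) (nat_lit 16388) (.ev (nat_lit
 621) (nat_lit 65536) .dd))))) (.br (nat_lit 12) (.ch (nat_lit 11) (.ev (nat_lit 608) (nat_lit 16384) (.ev
 (nat_lit 932) (nat_lit 65536) (.ev (nat_lit 941) (nat_lit 4) .dd)))) (.br (nat_lit 13) (.ch (nat_lit 12) (.ev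
 (nat_lit 608) (nat_lit 65536) (.ev (nat_lit 740) (nat_lit 4) (.ev (nat_lit 749) (nat_lit 16384) .dd)))) (.ch
 (nat_lit 13) (.ev (nat_lit 608) (nat_lit 81924) .dd))))) (.br (nat_lit 20) (.br (nat_lit 18) (.ch (nat_lit 17)
 (.ev (nat_lit 608) (nat_lit 81924) .dd)) (.br (nat_lit 19) (.ch (nat_lit 18) (.ev (nat_lit 608) (nat_lit
 81924) .dd)) (.ch (nat_lit 19) (.ev (nat_lit 608) (nat_lit 4) (.ev (nat_lit 640) (nat_lit 65536) (.ev (nat_lit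
 653) (nat_lit 16384) .dd)))))) (.br (nat_lit 22) (.ch (nat_lit 20) (.ev (nat_lit 608) (nat_lit 81920) (.ev
 (nat_lit 621) (nat_lit 4) .dd))) (.br (nat_lit 29) (.ch (nat_lit 22) (.ev (nat_lit 608) (nat_lit 81924) .dd))
 (.ch (nat_lit 29) (.ev (nat_lit 608) (nat_lit 81924) .dd))))))))))) (.br (nat_lit 33) (.ch (nat_lit 31) (.ev
 (nat_lit 52) (nat_lit 347896578080) (.ev (nat_lit 116) (nat_lit 8590000128) (.ev (nat_lit 244) (nat_lit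
 34426847232) (.ev (nat_lit 480) (nat_lit 2) (.nd (nat_lit 592) (.br (nat_lit 16) (.br (nat_lit 7) (.br
 (nat_lit 6) (.ch (nat_lit 2) (.ev (nat_lit 608) (nat_lit 70369282097152) (.ev (nat_lit 740) (nat_lit 4) (.ev
 (nat_lit 749) (nat_lit 16384) .dd)))) (.ch (nat_lit 6) (.ev (nat_lit 608) (nat_lit 70369282113540) .dd))) (.br
 (nat_lit 11) (.ch (nat_lit 7) (.ev (nat_lit 608) (nat_lit 70368745242628) (.ev (nat_lit 621) (nat_lit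
 536870912) .dd))) (.br (nat_lit 15) (.ch (nat_lit 11) (.ev (nat_lit 608) (nat_lit 537935876) (.ev (nat_lit
 621) (nat_lit 70368744177664) .dd))) (.ch (nat_lit 15) (.ev (nat_lit 608) (nat_lit 70369282113540) .dd)))))
 (.br (nat_lit 20) (.br (nat_lit 17) (.ch (nat_lit 16) (.ev (nat_lit 608) (nat_lit 70368744194048) (.ev
 (nat_lit 740) (nat_lit 536870916) (.ev (nat_lit 749) (nat_lit 1048576) .dd)))) (.ch (nat_lit 17) (.ev (nat_lit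
 608) (nat_lit 537935876) (.ev (nat_lit 621) (nat_lit 70368744177664) .dd)))) (.br (nat_lit 22) (.ch (nat_lit
 20) (.ev (nat_lit 608) (nat_lit 70369282113536) (.ev (nat_lit 621) (nat_lit 4) .dd))) (.br (nat_lit 29) (.ch
 (nat_lit 22) (.ev (nat_lit 608) (nat_lit 70369281064964) (.ev (nat_lit 621) (nat_lit 1048576) .dd))) (.ch
 (nat_lit 29) (.ev (nat_lit 608) (nat_lit 70369282113540) .dd)))))))))))) (.ch (nat_lit 33) (.ev (nat_lit 52)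
 (nat_lit 39196868610) (.ev (nat_lit 84) (nat_lit 70368744177664) (.ev (nat_lit 324) (nat_lit 4) (.nd (nat_lit
 592) (.br (nat_lit 11) (.br (nat_lit 7) (.br (nat_lit 2) (.ch (nat_lit 1) (.ev (nat_lit 608) (nat_lit
 77376520224) (.ev (nat_lit 640) (nat_lit 274877906944) (.ev (nat_lit 653) (nat_lit 65536) .dd)))) (.ch
 (nat_lit 2) (.ev (nat_lit 608) (nat_lit 352254492672) (.ev (nat_lit 621) (nat_lit 32) .dd)))) (.br (nat_lit 8)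
 (.ch (nat_lit 7) (.ev (nat_lit 608) (nat_lit 77376520224) (.ev (nat_lit 672) (nat_lit 274877906944) (.ev
 (nat_lit 685) (nat_lit 65536) .dd)))) (.ch (nat_lit 8) (.ev (nat_lit 608) (nat_lit 343664558112) (.ev (nat_lit
 621) (nat_lit 8589934592) .dd))))) (.br (nat_lit 16) (.br (nat_lit 15) (.ch (nat_lit 11) (.ev (nat_lit 608)
 (nat_lit 352254492704) .dd)) (.ch (nat_lit 15) (.ev (nat_lit 608) (nat_lit 352187383808) (.ev (nat_lit 948)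
 (nat_lit 32) (.ev (nat_lit 957) (nat_lit 67108864) .dd))))) (.br (nat_lit 19) (.ch (nat_lit 16) (.ev (nat_lit
 608) (nat_lit 352187318304) (.ev (nat_lit 900) (nat_lit 67108864) (.ev (nat_lit 909) (nat_lit 65536) .dd))))
 (.br (nat_lit 22) (.ch (nat_lit 19) (.ev (nat_lit 608) (nat_lit 283535015968) (.ev (nat_lit 621) (nat_lit
 68719476736) .dd))) (.ch (nat_lit 22) (.ev (nat_lit 608) (nat_lit 283467907072) (.ev (nat_lit 740) (nat_lit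
 32) (.ev (nat_lit 1140) (nat_lit 67108864) (.ev (nat_lit 1149) (nat_lit 68719476736) .dd))))))))))))))))) (.br
 (nat_lit 37) (.br (nat_lit 35) (.ch (nat_lit 34) (.ev (nat_lit 52) (nat_lit 70647984242720) (.ev (nat_lit 84)
 (nat_lit 8589934592) (.ev (nat_lit 116) (nat_lit 4) (.ev (nat_lit 180) (nat_lit 34359738368) (.ev (nat_lit
 212) (nat_lit 4194304) (.nd (nat_lit 592) (.br (nat_lit 8) (.br (nat_lit 4) (.br (nat_lit 3) (.ch (nat_lit 2)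
 (.ev (nat_lit 608) (nat_lit 69257428994) .dd)) (.ch (nat_lit 3) (.ev (nat_lit 608) (nat_lit 68720558080) (.ev
 (nat_lit 740) (nat_lit 2) (.ev (nat_lit 749) (nat_lit 536870912) .dd))))) (.br (nat_lit 7) (.ch (nat_lit 4)
 (.ev (nat_lit 608) (nat_lit 69257428994) .dd)) (.ch (nat_lit 7) (.ev (nat_lit 608) (nat_lit 68720558082) (.ev
 (nat_lit 621) (nat_lit 536870912) .dd))))) (.br (nat_lit 17) (.br (nat_lit 13) (.ch (nat_lit 8) (.ev (nat_lit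
 608) (nat_lit 69257396226) (.ev (nat_lit 621) (nat_lit 32768) .dd))) (.ch (nat_lit 13) (.ev (nat_lit 608)
 (nat_lit 1048578) (.ev (nat_lit 640) (nat_lit 68719476736) (.ev (nat_lit 816) (nat_lit 536903680) .dd)))))
 (.br (nat_lit 18) (.ch (nat_lit 17) (.ev (nat_lit 608) (nat_lit 69256347648) (.ev (nat_lit 624) (nat_lit
 1048576) (.ev (nat_lit 656) (nat_lit 2) (.ev (nat_lit 669) (nat_lit 32768) .dd))))) (.br (nat_lit 29) (.ch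
 (nat_lit 18) (.ev (nat_lit 608) (nat_lit 69256380418) (.ev (nat_lit 621) (nat_lit 1048576) .dd))) (.ch
 (nat_lit 29) (.ev (nat_lit 608) (nat_lit 69257428992) (.ev (nat_lit 621) (nat_lit 2) .dd)))))))))))))) (.br
 (nat_lit 36) (.ch (nat_lit 35) (.ev (nat_lit 52) (nat_lit 43553685508) (.ev (nat_lit 84) (nat_lit
 70368744177664) (.ev (nat_lit 116) (nat_lit 274877906944) (.ev (nat_lit 148) (nat_lit 4296015872) (.ev
 (nat_lit 180) (nat_lit 4194304) (.ev (nat_lit 212) (nat_lit 68719476736) (.ev (nat_lit 292) (nat_lit 2) (.nd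
 (nat_lit 592) (.br (nat_lit 13) (.br (nat_lit 9) (.br (nat_lit 8) (.ch (nat_lit 4) (.ev (nat_lit 608) (nat_lit
 16416) (.ev (nat_lit 621) (nat_lit 65536) .dd))) (.ch (nat_lit 8) (.ev (nat_lit 608) (nat_lit 81920) (.ev
 (nat_lit 621) (nat_lit 32) .dd)))) (.br (nat_lit 12) (.ch (nat_lit 9) (.ev (nat_lit 608) (nat_lit 65568) (.ev
 (nat_lit 621) (nat_lit 16384) .dd))) (.ch (nat_lit 12) (.ev (nat_lit 608) (nat_lit 81920) (.ev (nat_lit 621)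
 (nat_lit 32) .dd))))) (.br (nat_lit 19) (.br (nat_lit 17) (.ch (nat_lit 13) (.ev (nat_lit 608) (nat_lit 81952)
 .dd)) (.ch (nat_lit 17) (.ev (nat_lit 608) (nat_lit 16416) (.ev (nat_lit 621) (nat_lit 65536) .dd)))) (.br
 (nat_lit 22) (.ch (nat_lit 19) (.ev (nat_lit 608) (nat_lit 65568) (.ev (nat_lit 621) (nat_lit 16384) .dd)))
 (.ch (nat_lit 22) (.ev (nat_lit 608) (nat_lit 65536) (.ev (nat_lit 740) (nat_lit 32) (.ev (nat_lit 749)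
 (nat_lit 16384) .dd)))))))))))))))) (.ch (nat_lit 36) (.ev (nat_lit 52) (nat_lit 344134320164) (.ev (nat_lit
 84) (nat_lit 1048576) (.ev (nat_lit 116) (nat_lit 2) (.ev (nat_lit 148) (nat_lit 34363965440) (.nd (nat_lit
 592) (.br (nat_lit 15) (.br (nat_lit 6) (.br (nat_lit 4) (.ch (nat_lit 2) (.ev (nat_lit 608) (nat_lit
 70381696204800) .dd)) (.ch (nat_lit 4) (.ev (nat_lit 608) (nat_lit 12952010752) (.ev (nat_lit 656) (nat_lit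
 16384) (.ev (nat_lit 669) (nat_lit 70368744177664) .dd))))) (.br (nat_lit 12) (.ch (nat_lit 6) (.ev (nat_lit
 608) (nat_lit 70373039161344) (.ev (nat_lit 912) (nat_lit 67108864) (.ev (nat_lit 925) (nat_lit 8589934592)
 .dd)))) (.br (nat_lit 13) (.ch (nat_lit 12) (.ev (nat_lit 608) (nat_lit 70381696204800) .dd)) (.ch (nat_lit
 13) (.ev (nat_lit 608) (nat_lit 70373106270208) (.ev (nat_lit 621) (nat_lit 8589934592) .dd)))))) (.br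
 (nat_lit 18) (.br (nat_lit 16) (.ch (nat_lit 15) (.ev (nat_lit 608) (nat_lit 70381696204800) .dd)) (.ch
 (nat_lit 16) (.ev (nat_lit 608) (nat_lit 70381629095936) (.ev (nat_lit 621) (nat_lit 67108864) .dd)))) (.br
 (nat_lit 22) (.ch (nat_lit 18) (.ev (nat_lit 608) (nat_lit 70377401237504) (.ev (nat_lit 621) (nat_lit
 4294967296) .dd))) (.br (nat_lit 29) (.ch (nat_lit 22) (.ev (nat_lit 608) (nat_lit 70377334112256) (.ev
 (nat_lit 624) (nat_lit 16384) (.ev (nat_lit 740) (nat_lit 67108864) (.ev (nat_lit 749) (nat_lit 4294967296)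
 .dd))))) (.ch (nat_lit 29) (.ev (nat_lit 608) (nat_lit 70381696204800) .dd)))))))))))))) (.br (nat_lit 39)
 (.br (nat_lit 38) (.ch (nat_lit 37) (.ev (nat_lit 52) (nat_lit 34432172036) (.ev (nat_lit 84) (nat_lit
 68719476736) (.ev (nat_lit 116) (nat_lit 70368744177664) (.ev (nat_lit 148) (nat_lit 32) (.nd (nat_lit 592)
 (.br (nat_lit 18) (.br (nat_lit 7) (.br (nat_lit 6) (.ch (nat_lit 3) (.ev (nat_lit 608) (nat_lit 288299712514)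
 .dd)) (.ch (nat_lit 6) (.ev (nat_lit 608) (nat_lit 275414810626) (.ev (nat_lit 752) (nat_lit 8589934592) (.ev
 (nat_lit 765) (nat_lit 4294967296) .dd))))) (.br (nat_lit 13) (.ch (nat_lit 7) (.ev (nat_lit 608) (nat_lit
 288299712514) .dd)) (.br (nat_lit 17) (.ch (nat_lit 13) (.ev (nat_lit 608) (nat_lit 12884901890) (.ev (nat_lit
 740) (nat_lit 274877939712) (.ev (nat_lit 749) (nat_lit 536870912) .dd)))) (.ch (nat_lit 17) (.ev (nat_lit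
 608) (nat_lit 13421805570) (.ev (nat_lit 621) (nat_lit 274877906944) .dd)))))) (.br (nat_lit 20) (.br (nat_lit
 19) (.ch (nat_lit 18) (.ev (nat_lit 608) (nat_lit 284004745216) (.ev (nat_lit 740) (nat_lit 4294967296) (.ev
 (nat_lit 749) (nat_lit 2) .dd)))) (.ch (nat_lit 19) (.ev (nat_lit 608) (nat_lit 283467874306) (.ev (nat_lit
 624) (nat_lit 4831838208) .dd)))) (.br (nat_lit 22) (.ch (nat_lit 20) (.ev (nat_lit 608) (nat_lit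
 287762841602) (.ev (nat_lit 621) (nat_lit 536870912) .dd))) (.br (nat_lit 29) (.ch (nat_lit 22) (.ev (nat_lit
 608) (nat_lit 287762808834) (.ev (nat_lit 740) (nat_lit 32768) (.ev (nat_lit 749) (nat_lit 536870912) .dd))))
 (.ch (nat_lit 29) (.ev (nat_lit 608) (nat_lit 279172907010) (.ev (nat_lit 624) (nat_lit 9126805504)
 .dd))))))))))))) (.ch (nat_lit 38) (.ev (nat_lit 52) (nat_lit 70437463752740) (.ev (nat_lit 84) (nat_lit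
 16384) (.ev (nat_lit 148) (nat_lit 67108864) (.ev (nat_lit 180) (nat_lit 1048576) (.ev (nat_lit 244) (nat_lit
 4294967296) (.ev (nat_lit 496) (nat_lit 8589934592) (.nd (nat_lit 592) (.br (nat_lit 15) (.br (nat_lit 11)
 (.br (nat_lit 3) (.ch (nat_lit 1) (.ev (nat_lit 608) (nat_lit 309778710530) .dd)) (.br (nat_lit 8) (.ch
 (nat_lit 3) (.ev (nat_lit 608) (nat_lit 309237645312) (.ev (nat_lit 740) (nat_lit 4194304) (.ev (nat_lit 784)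
 (nat_lit 536870912) (.ev (nat_lit 797) (nat_lit 2) .dd))))) (.ch (nat_lit 8) (.ev (nat_lit 608) (nat_lit
 4194304) (.ev (nat_lit 900) (nat_lit 34359738370) (.ev (nat_lit 1184) (nat_lit 536870912) (.ev (nat_lit 1197)
 (nat_lit 274877906944) .dd))))))) (.br (nat_lit 12) (.ch (nat_lit 11) (.ev (nat_lit 608) (nat_lit
 275418972162) (.ev (nat_lit 621) (nat_lit 34359738368) .dd))) (.br (nat_lit 13) (.ch (nat_lit 12) (.ev
 (nat_lit 608) (nat_lit 34896609282) (.ev (nat_lit 624) (nat_lit 4194304) (.ev (nat_lit 637) (nat_lit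
 274877906944) .dd)))) (.ch (nat_lit 13) (.ev (nat_lit 608) (nat_lit 34363932672) (.ev (nat_lit 740) (nat_lit
 274877906944) (.ev (nat_lit 948) (nat_lit 2) (.ev (nat_lit 957) (nat_lit 536870912) .dd)))))))) (.br (nat_lit
 18) (.br (nat_lit 16) (.ch (nat_lit 15) (.ev (nat_lit 608) (nat_lit 309241839618) (.ev (nat_lit 621) (nat_lit
 536870912) .dd))) (.br (nat_lit 17) (.ch (nat_lit 16) (.ev (nat_lit 608) (nat_lit 309241839618) (.ev (nat_lit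
 621) (nat_lit 536870912) .dd))) (.ch (nat_lit 17) (.ev (nat_lit 608) (nat_lit 309778710530) .dd)))) (.br
 (nat_lit 19) (.ch (nat_lit 18) (.ev (nat_lit 608) (nat_lit 309778710530) .dd)) (.br (nat_lit 29) (.ch (nat_lit
 19) (.ev (nat_lit 608) (nat_lit 309241839618) (.ev (nat_lit 621) (nat_lit 536870912) .dd))) (.ch (nat_lit 29)
 (.ev (nat_lit 608) (nat_lit 309237645312) (.ev (nat_lit 740) (nat_lit 4194304) (.ev (nat_lit 932) (nat_lit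
 536870912) (.ev (nat_lit 941) (nat_lit 2) .dd)))))))))))))))))) (.br (nat_lit 42) (.ch (nat_lit 39) (.ev
 (nat_lit 52) (nat_lit 70712882708482) (.ev (nat_lit 84) (nat_lit 67108864) (.ev (nat_lit 148) (nat_lit 32768)
 (.ev (nat_lit 160) (nat_lit 47245688868) .dd))))) (.ch (nat_lit 42) (.ev (nat_lit 52) (nat_lit 288372146178)
 (.ev (nat_lit 148) (nat_lit 34359738368) (.ev (nat_lit 304) (nat_lit 70437463654436) .dd)))))))))))

/-- Subtrie. -/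
noncomputable def T19 : Tr := (.ev (nat_lit 20) (nat_lit 88281477912580) (.nd (nat_lit 33) (.br (nat_lit 22)
 (.br (nat_lit 9) (.br (nat_lit 6) (.br (nat_lit 4) (.ch (nat_lit 1) (.ev (nat_lit 52) (nat_lit 4769202720)
 (.ev (nat_lit 116) (nat_lit 524288) (.ev (nat_lit 160) (nat_lit 39651139125258) .dd)))) (.br (nat_lit 5) (.ch
 (nat_lit 4) (.ev (nat_lit 52) (nat_lit 72090114) (.ev (nat_lit 84) (nat_lit 32) (.ev (nat_lit 116) (nat_lit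
 68719476736) (.ev (nat_lit 212) (nat_lit 134217728) (.ev (nat_lit 244) (nat_lit 16384) (.ev (nat_lit 292)
 (nat_lit 1048576) (.ev (nat_lit 388) (nat_lit 35184372088832) (.nd (nat_lit 592) (.br (nat_lit 14) (.br
 (nat_lit 7) (.br (nat_lit 4) (.ch (nat_lit 3) (.ev (nat_lit 608) (nat_lit 4402609913864) .dd)) (.ch (nat_lit
 4) (.ev (nat_lit 608) (nat_lit 4402341478408) (.ev (nat_lit 621) (nat_lit 268435456) .dd)))) (.br (nat_lit 8)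
 (.ch (nat_lit 7) (.ev (nat_lit 608) (nat_lit 4402341478408) (.ev (nat_lit 621) (nat_lit 268435456) .dd))) (.br
 (nat_lit 10) (.ch (nat_lit 8) (.ev (nat_lit 608) (nat_lit 4563402760) (.ev (nat_lit 621) (nat_lit
 4398046511104) .dd))) (.ch (nat_lit 10) (.ev (nat_lit 608) (nat_lit 4294967304) (.ev (nat_lit 624) (nat_lit
 4398314946560) .dd)))))) (.br (nat_lit 18) (.br (nat_lit 15) (.ch (nat_lit 14) (.ev (nat_lit 608) (nat_lit
 4398314946568) (.ev (nat_lit 621) (nat_lit 4294967296) .dd))) (.ch (nat_lit 15) (.ev (nat_lit 608) (nat_lit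
 4398314946560) (.ev (nat_lit 740) (nat_lit 8) (.ev (nat_lit 749) (nat_lit 4294967296) .dd))))) (.br (nat_lit
 20) (.ch (nat_lit 18) (.ev (nat_lit 608) (nat_lit 4402341478400) (.ev (nat_lit 800) (nat_lit 268435464) .dd)))
 (.br (nat_lit 26) (.ch (nat_lit 20) (.ev (nat_lit 608) (nat_lit 4402609913864) .dd)) (.ch (nat_lit 26) (.ev
 (nat_lit 608) (nat_lit 4402609913864) .dd))))))))))))))) (.ch (nat_lit 5) (.ev (nat_lit 52) (nat_lit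
 39655706198026) (.ev (nat_lit 84) (nat_lit 32) (.ev (nat_lit 116) (nat_lit 134217728) (.ev (nat_lit 180)
 (nat_lit 67109376) (.nd (nat_lit 592) (.br (nat_lit 14) (.br (nat_lit 8) (.br (nat_lit 5) (.ch (nat_lit 4)
 (.ev (nat_lit 608) (nat_lit 278528) (.ev (nat_lit 621) (nat_lit 1048576) .dd))) (.ch (nat_lit 5) (.ev (nat_lit
 608) (nat_lit 1310720) (.ev (nat_lit 621) (nat_lit 16384) .dd)))) (.br (nat_lit 10) (.ch (nat_lit 8) (.ev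
 (nat_lit 608) (nat_lit 1310720) (.ev (nat_lit 621) (nat_lit 16384) .dd))) (.br (nat_lit 13) (.ch (nat_lit 10)
 (.ev (nat_lit 608) (nat_lit 278528) (.ev (nat_lit 621) (nat_lit 1048576) .dd))) (.ch (nat_lit 13) (.ev
 (nat_lit 608) (nat_lit 1310720) (.ev (nat_lit 621) (nat_lit 16384) .dd)))))) (.br (nat_lit 19) (.br (nat_lit
 15) (.ch (nat_lit 14) (.ev (nat_lit 608) (nat_lit 1064960) (.ev (nat_lit 621) (nat_lit 262144) .dd))) (.ch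
 (nat_lit 15) (.ev (nat_lit 608) (nat_lit 1064960) (.ev (nat_lit 621) (nat_lit 262144) .dd)))) (.br (nat_lit
 20) (.ch (nat_lit 19) (.ev (nat_lit 608) (nat_lit 1064960) (.ev (nat_lit 621) (nat_lit 262144) .dd))) (.br
 (nat_lit 21) (.ch (nat_lit 20) (.ev (nat_lit 608) (nat_lit 1327104) .dd)) (.ch (nat_lit 21) (.ev (nat_lit 608)
 (nat_lit 1310720) (.ev (nat_lit 621) (nat_lit 16384) .dd))))))))))))))) (.br (nat_lit 7) (.ch (nat_lit 6) (.ev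
 (nat_lit 52) (nat_lit 35184574464000) (.ev (nat_lit 84) (nat_lit 262144) (.ev (nat_lit 148) (nat_lit 4194304)
 (.ev (nat_lit 180) (nat_lit 8) (.ev (nat_lit 292) (nat_lit 4398046511104) (.nd (nat_lit 592) (.br (nat_lit 14)
 (.br (nat_lit 7) (.br (nat_lit 4) (.ch (nat_lit 3) (.ev (nat_lit 608) (nat_lit 73014460450) (.ev (nat_lit 640)
 (nat_lit 524288) (.ev (nat_lit 740) (nat_lit 268435456) (.ev (nat_lit 749) (nat_lit 512) .dd))))) (.br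
 (nat_lit 5) (.ch (nat_lit 4) (.ev (nat_lit 608) (nat_lit 4295508512) (.ev (nat_lit 740) (nat_lit 2) (.ev
 (nat_lit 752) (nat_lit 68719476736) (.ev (nat_lit 765) (nat_lit 268435456) .dd))))) (.ch (nat_lit 5) (.ev
 (nat_lit 608) (nat_lit 73283420704) (.ev (nat_lit 621) (nat_lit 2) .dd))))) (.br (nat_lit 8) (.ch (nat_lit 7)
 (.ev (nat_lit 608) (nat_lit 4295508002) (.ev (nat_lit 980) (nat_lit 268435456) (.fin (nat_lit
 576462401572389440))))) (.br (nat_lit 13) (.ch (nat_lit 8) (.ev (nat_lit 608) (nat_lit 73283404322) (.ev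
 (nat_lit 621) (nat_lit 16384) .dd))) (.ch (nat_lit 13) (.ev (nat_lit 608) (nat_lit 4295508512) (.ev (nat_lit
 784) (nat_lit 268435456) (.ev (nat_lit 1232) (nat_lit 68719476738) .dd))))))) (.br (nat_lit 19) (.br (nat_lit
 15) (.ch (nat_lit 14) (.ev (nat_lit 608) (nat_lit 73283404290) (.ev (nat_lit 900) (nat_lit 32) (.ev (nat_lit
 909) (nat_lit 16384) .dd)))) (.br (nat_lit 17) (.ch (nat_lit 15) (.ev (nat_lit 608) (nat_lit 68720017442) (.ev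
 (nat_lit 740) (nat_lit 4563402752) (.ev (nat_lit 749) (nat_lit 512) .dd)))) (.ch (nat_lit 17) (.ev (nat_lit
 608) (nat_lit 73283420706) .dd)))) (.br (nat_lit 22) (.ch (nat_lit 19) (.ev (nat_lit 608) (nat_lit
 68987929122) (.ev (nat_lit 752) (nat_lit 4295491584) .dd))) (.br (nat_lit 24) (.ch (nat_lit 22) (.ev (nat_lit
 608) (nat_lit 68720001026) (.ev (nat_lit 784) (nat_lit 32) (.ev (nat_lit 1158) (nat_lit 4563419648) .dd))))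
 (.ch (nat_lit 24) (.ev (nat_lit 608) (nat_lit 4294984194) (.ev (nat_lit 900) (nat_lit 68719476736) (.ev
 (nat_lit 1008) (nat_lit 268959776) .dd))))))))))))))) (.br (nat_lit 8) (.ch (nat_lit 7) (.ev (nat_lit 52)
 (nat_lit 39582487020064) (.ev (nat_lit 84) (nat_lit 4294967296) (.ev (nat_lit 128) (nat_lit 69126864906)
 .dd)))) (.ch (nat_lit 8) (.ev (nat_lit 52) (nat_lit 35257455493128) (.ev (nat_lit 116) (nat_lit 4194304) (.ev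
 (nat_lit 148) (nat_lit 512) (.ev (nat_lit 180) (nat_lit 268435456) (.ev (nat_lit 212) (nat_lit 4398046511104)
 (.nd (nat_lit 592) (.br (nat_lit 16) (.br (nat_lit 14) (.br (nat_lit 12) (.ch (nat_lit 4) (.ev (nat_lit 608)
 (nat_lit 134217760) (.ev (nat_lit 621) (nat_lit 2) .dd))) (.ch (nat_lit 12) (.ev (nat_lit 608) (nat_lit
 134217760) (.ev (nat_lit 621) (nat_lit 2) .dd)))) (.br (nat_lit 15) (.ch (nat_lit 14) (.ev (nat_lit 608)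
 (nat_lit 134217728) (.ev (nat_lit 740) (nat_lit 32) (.ev (nat_lit 749) (nat_lit 2) .dd)))) (.ch (nat_lit 15)
 (.ev (nat_lit 608) (nat_lit 134217762) .dd)))) (.br (nat_lit 19) (.br (nat_lit 18) (.ch (nat_lit 16) (.ev
 (nat_lit 608) (nat_lit 34) (.ev (nat_lit 621) (nat_lit 134217728) .dd))) (.ch (nat_lit 18) (.ev (nat_lit 608)
 (nat_lit 34) (.ev (nat_lit 621) (nat_lit 134217728) .dd)))) (.br (nat_lit 22) (.ch (nat_lit 19) (.ev (nat_lit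
 608) (nat_lit 134217730) (.ev (nat_lit 621) (nat_lit 32) .dd))) (.ch (nat_lit 22) (.ev (nat_lit 608) (nat_lit
 134217730) (.ev (nat_lit 621) (nat_lit 32) .dd)))))))))))))))) (.br (nat_lit 13) (.br (nat_lit 10) (.ch
 (nat_lit 9) (.ev (nat_lit 52) (nat_lit 4466767036930) (.ev (nat_lit 64) (nat_lit 35189141815336) .dd))) (.br
 (nat_lit 12) (.ch (nat_lit 10) (.ev (nat_lit 52) (nat_lit 73421553696) (.ev (nat_lit 84) (nat_lit 16384) (.ev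
 (nat_lit 116) (nat_lit 8) (.ev (nat_lit 180) (nat_lit 35184372088832) (.ev (nat_lit 244) (nat_lit 1049088)
 (.ev (nat_lit 420) (nat_lit 4398046511104) (.nd (nat_lit 592) (.br (nat_lit 18) (.br (nat_lit 12) (.br
 (nat_lit 8) (.ch (nat_lit 7) (.ev (nat_lit 608) (nat_lit 67108866) (.ev (nat_lit 621) (nat_lit 524288) .dd)))
 (.ch (nat_lit 8) (.ev (nat_lit 608) (nat_lit 67108866) (.ev (nat_lit 621) (nat_lit 524288) .dd)))) (.br
 (nat_lit 13) (.ch (nat_lit 12) (.ev (nat_lit 608) (nat_lit 67633152) (.ev (nat_lit 621) (nat_lit 2) .dd)))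
 (.br (nat_lit 15) (.ch (nat_lit 13) (.ev (nat_lit 608) (nat_lit 67633152) (.ev (nat_lit 621) (nat_lit 2)
 .dd))) (.ch (nat_lit 15) (.ev (nat_lit 608) (nat_lit 524290) (.ev (nat_lit 621) (nat_lit 67108864) .dd))))))
 (.br (nat_lit 20) (.br (nat_lit 19) (.ch (nat_lit 18) (.ev (nat_lit 608) (nat_lit 67633154) .dd)) (.ch
 (nat_lit 19) (.ev (nat_lit 608) (nat_lit 67633152) (.ev (nat_lit 621) (nat_lit 2) .dd)))) (.br (nat_lit 21)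
 (.ch (nat_lit 20) (.ev (nat_lit 608) (nat_lit 524290) (.ev (nat_lit 621) (nat_lit 67108864) .dd))) (.br
 (nat_lit 24) (.ch (nat_lit 21) (.ev (nat_lit 608) (nat_lit 67108866) (.ev (nat_lit 621) (nat_lit 524288)
 .dd))) (.ch (nat_lit 24) (.ev (nat_lit 608) (nat_lit 67108866) (.ev (nat_lit 621) (nat_lit 524288)
 .dd))))))))))))))) (.ch (nat_lit 12) (.ev (nat_lit 52) (nat_lit 4471329915432) (.ev (nat_lit 116) (nat_lit
 67108864) (.ev (nat_lit 148) (nat_lit 134217728) (.ev (nat_lit 192) (nat_lit 35184377610242) .dd))))))) (.br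
 (nat_lit 18) (.br (nat_lit 17) (.ch (nat_lit 13) (.ev (nat_lit 52) (nat_lit 73215787522) (.ev (nat_lit 84)
 (nat_lit 268435456) (.ev (nat_lit 116) (nat_lit 40) (.ev (nat_lit 148) (nat_lit 4194304) (.ev (nat_lit 180)
 (nat_lit 4398046773248) (.ev (nat_lit 212) (nat_lit 1048576) (.ev (nat_lit 400) (nat_lit 35184372613120)
 .dd)))))))) (.ch (nat_lit 17) (.ev (nat_lit 52) (nat_lit 4471199367208) (.ev (nat_lit 84) (nat_lit 16384) (.ev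
 (nat_lit 96) (nat_lit 35184709468674) .dd))))) (.br (nat_lit 21) (.ch (nat_lit 18) (.ev (nat_lit 52) (nat_lit
 39582821532162) (.ev (nat_lit 84) (nat_lit 4296015872) (.ev (nat_lit 116) (nat_lit 4194304) (.ev (nat_lit 224)
 (nat_lit 68787109928) .dd))))) (.ch (nat_lit 21) (.ev (nat_lit 52) (nat_lit 404488736) (.ev (nat_lit 84)
 (nat_lit 16394) (.ev (nat_lit 116) (nat_lit 67108864) (.ev (nat_lit 180) (nat_lit 68719476736) (.ev (nat_lit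
 260) (nat_lit 4194304) (.ev (nat_lit 368) (nat_lit 39586713567232) .dd))))))))))) (.br (nat_lit 34) (.br
 (nat_lit 30) (.br (nat_lit 25) (.ch (nat_lit 22) (.ev (nat_lit 52) (nat_lit 4467174686730) (.ev (nat_lit 272)
 (nat_lit 35188734165536) .dd))) (.br (nat_lit 26) (.ch (nat_lit 25) (.ev (nat_lit 52) (nat_lit 1589794) (.ev
 (nat_lit 148) (nat_lit 268435456) (.ev (nat_lit 180) (nat_lit 4294967296) (.ev (nat_lit 244) (nat_lit 4194304)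
 (.ev (nat_lit 356) (nat_lit 262144) (.ev (nat_lit 388) (nat_lit 4398046511104) (.nd (nat_lit 592) (.br
 (nat_lit 18) (.br (nat_lit 10) (.br (nat_lit 8) (.ch (nat_lit 7) (.ev (nat_lit 608) (nat_lit 35253225783304)
 (.ev (nat_lit 621) (nat_lit 67108864) .dd))) (.ch (nat_lit 8) (.ev (nat_lit 608) (nat_lit 35253158674432) (.ev
 (nat_lit 624) (nat_lit 8) (.ev (nat_lit 637) (nat_lit 134217728) .dd))))) (.br (nat_lit 16) (.ch (nat_lit 10)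
 (.ev (nat_lit 608) (nat_lit 35253158674432) (.ev (nat_lit 740) (nat_lit 8) (.ev (nat_lit 749) (nat_lit
 134217728) .dd)))) (.ch (nat_lit 16) (.ev (nat_lit 608) (nat_lit 35253091565576) (.ev (nat_lit 752) (nat_lit
 134217728) (.ev (nat_lit 765) (nat_lit 67108864) .dd)))))) (.br (nat_lit 21) (.br (nat_lit 19) (.ch (nat_lit
 18) (.ev (nat_lit 608) (nat_lit 35184573415432) (.ev (nat_lit 621) (nat_lit 68719476736) .dd))) (.ch (nat_lit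
 19) (.ev (nat_lit 608) (nat_lit 35253292892168) .dd))) (.br (nat_lit 22) (.ch (nat_lit 21) (.ev (nat_lit 608)
 (nat_lit 68920803336) (.ev (nat_lit 621) (nat_lit 35184372088832) .dd))) (.br (nat_lit 26) (.ch (nat_lit 22)
 (.ev (nat_lit 608) (nat_lit 35253225783304) (.ev (nat_lit 621) (nat_lit 67108864) .dd))) (.ch (nat_lit 26)
 (.ev (nat_lit 608) (nat_lit 201326600) (.ev (nat_lit 656) (nat_lit 68719476736) (.ev (nat_lit 669) (nat_lit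
 35184372088832) .dd)))))))))))))))) (.ch (nat_lit 26) (.ev (nat_lit 52) (nat_lit 4466834407466) (.ev (nat_lit
 84) (nat_lit 524288) (.ev (nat_lit 160) (nat_lit 35189073920512) .dd)))))) (.br (nat_lit 31) (.ch (nat_lit 30)
 (.ev (nat_lit 52) (nat_lit 35257454952450) (.ev (nat_lit 96) (nat_lit 4398453899816) .dd))) (.br (nat_lit 33)
 (.ch (nat_lit 31) (.ev (nat_lit 52) (nat_lit 39655706460192) (.ev (nat_lit 84) (nat_lit 1064962) (.ev (nat_lit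
 180) (nat_lit 67108864) (.ev (nat_lit 244) (nat_lit 134217728) (.nd (nat_lit 592) (.br (nat_lit 18) (.br
 (nat_lit 12) (.br (nat_lit 8) (.ch (nat_lit 5) (.ev (nat_lit 608) (nat_lit 512) (.ev (nat_lit 621) (nat_lit 8)
 .dd))) (.ch (nat_lit 8) (.ev (nat_lit 688) (nat_lit 512) (.ev (nat_lit 701) (nat_lit 8) .dd)))) (.br (nat_lit
 13) (.ch (nat_lit 12) (.ev (nat_lit 608) (nat_lit 520) .dd)) (.br (nat_lit 16) (.ch (nat_lit 13) (.ev (nat_lit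
 608) (nat_lit 512) (.ev (nat_lit 621) (nat_lit 8) .dd))) (.ch (nat_lit 16) (.ev (nat_lit 608) (nat_lit 520)
 .dd))))) (.br (nat_lit 20) (.br (nat_lit 19) (.ch (nat_lit 18) (.ev (nat_lit 608) (nat_lit 520) .dd)) (.ch
 (nat_lit 19) (.ev (nat_lit 608) (nat_lit 8) (.ev (nat_lit 621) (nat_lit 512) .dd)))) (.br (nat_lit 22) (.ch
 (nat_lit 20) (.ev (nat_lit 608) (nat_lit 520) .dd)) (.br (nat_lit 26) (.ch (nat_lit 22) (.ev (nat_lit 608)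
 (nat_lit 512) (.ev (nat_lit 621) (nat_lit 8) .dd))) (.ch (nat_lit 26) (.ev (nat_lit 608) (nat_lit 520)
 .dd)))))))))))) (.ch (nat_lit 33) (.ev (nat_lit 52) (nat_lit 4402347524618) (.ev (nat_lit 84) (nat_lit
 67108896) (.ev (nat_lit 148) (nat_lit 35184506306560) (.nd (nat_lit 592) (.br (nat_lit 13) (.br (nat_lit 10)
 (.br (nat_lit 7) (.ch (nat_lit 3) (.ev (nat_lit 608) (nat_lit 68719476736) (.ev (nat_lit 621) (nat_lit
 268435456) .dd))) (.ch (nat_lit 7) (.ev (nat_lit 608) (nat_lit 68987912192) .dd))) (.br (nat_lit 12) (.ch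
 (nat_lit 10) (.ev (nat_lit 608) (nat_lit 68719476736) (.ev (nat_lit 621) (nat_lit 268435456) .dd))) (.ch
 (nat_lit 12) (.ev (nat_lit 608) (nat_lit 268435456) (.ev (nat_lit 621) (nat_lit 68719476736) .dd))))) (.br
 (nat_lit 18) (.br (nat_lit 16) (.ch (nat_lit 13) (.ev (nat_lit 608) (nat_lit 268435456) (.ev (nat_lit 621)
 (nat_lit 68719476736) .dd))) (.ch (nat_lit 16) (.ev (nat_lit 608) (nat_lit 68987912192) .dd))) (.br (nat_lit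
 19) (.ch (nat_lit 18) (.ev (nat_lit 608) (nat_lit 68987912192) .dd)) (.br (nat_lit 20) (.ch (nat_lit 19) (.ev
 (nat_lit 608) (nat_lit 68987912192) .dd)) (.ch (nat_lit 20) (.ev (nat_lit 608) (nat_lit 268435456) (.ev
 (nat_lit 621) (nat_lit 68719476736) .dd))))))))))))))) (.br (nat_lit 37) (.br (nat_lit 35) (.ch (nat_lit 34)
 (.ev (nat_lit 52) (nat_lit 35188868399144) (.ev (nat_lit 84) (nat_lit 1572864) (.ev (nat_lit 292) (nat_lit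
 68719476736) (.ev (nat_lit 356) (nat_lit 2) (.nd (nat_lit 592) (.br (nat_lit 16) (.br (nat_lit 8) (.br
 (nat_lit 4) (.ch (nat_lit 3) (.ev (nat_lit 608) (nat_lit 4398319403520) .dd)) (.ch (nat_lit 4) (.ev (nat_lit
 608) (nat_lit 4398046773248) (.ev (nat_lit 624) (nat_lit 268435456) (.ev (nat_lit 656) (nat_lit 512) (.ev
 (nat_lit 669) (nat_lit 4194304) .dd)))))) (.br (nat_lit 10) (.ch (nat_lit 8) (.ev (nat_lit 608) (nat_lit
 4398319141376) (.ev (nat_lit 621) (nat_lit 262144) .dd))) (.ch (nat_lit 10) (.ev (nat_lit 608) (nat_lit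
 4398319403520) .dd)))) (.br (nat_lit 20) (.br (nat_lit 18) (.ch (nat_lit 16) (.ev (nat_lit 608) (nat_lit
 4398050968064) (.ev (nat_lit 621) (nat_lit 268435456) .dd))) (.ch (nat_lit 18) (.ev (nat_lit 608) (nat_lit
 268435968) (.ev (nat_lit 640) (nat_lit 4398046511104) (.ev (nat_lit 816) (nat_lit 4456448) .dd))))) (.br
 (nat_lit 22) (.ch (nat_lit 20) (.ev (nat_lit 608) (nat_lit 4398315209216) (.ev (nat_lit 621) (nat_lit 4194304)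
 .dd))) (.br (nat_lit 24) (.ch (nat_lit 22) (.ev (nat_lit 608) (nat_lit 4398319140864) (.ev (nat_lit 740)
 (nat_lit 512) (.ev (nat_lit 749) (nat_lit 262144) .dd)))) (.ch (nat_lit 24) (.ev (nat_lit 608) (nat_lit
 4398319403008) (.ev (nat_lit 621) (nat_lit 512) .dd))))))))))))) (.br (nat_lit 36) (.ch (nat_lit 35) (.ev
 (nat_lit 52) (nat_lit 35184841850880) (.ev (nat_lit 84) (nat_lit 262144) (.ev (nat_lit 116) (nat_lit 4194304)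
 (.ev (nat_lit 180) (nat_lit 4398046511104) (.ev (nat_lit 244) (nat_lit 2) (.nd (nat_lit 592) (.br (nat_lit 16)
 (.br (nat_lit 12) (.br (nat_lit 5) (.ch (nat_lit 4) (.ev (nat_lit 608) (nat_lit 73014444064) (.ev (nat_lit
 784) (nat_lit 16384) (.ev (nat_lit 1008) (nat_lit 524288) (.ev (nat_lit 1040) (nat_lit 1049096) .dd))))) (.br
 (nat_lit 7) (.ch (nat_lit 5) (.ev (nat_lit 608) (nat_lit 73016033832) .dd)) (.ch (nat_lit 7) (.ev (nat_lit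
 608) (nat_lit 4296032296) (.ev (nat_lit 980) (nat_lit 524288) (.fin (nat_lit 576462401572389440))))))) (.br
 (nat_lit 13) (.ch (nat_lit 12) (.ev (nat_lit 608) (nat_lit 4296032776) (.ev (nat_lit 784) (nat_lit 524288)
 (.ev (nat_lit 1120) (nat_lit 68719476768) .dd)))) (.br (nat_lit 14) (.ch (nat_lit 13) (.ev (nat_lit 608)
 (nat_lit 73016033824) (.ev (nat_lit 621) (nat_lit 8) .dd))) (.ch (nat_lit 14) (.ev (nat_lit 608) (nat_lit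
 68720541736) (.ev (nat_lit 640) (nat_lit 4294967296) (.ev (nat_lit 740) (nat_lit 524288) (.ev (nat_lit 749)
 (nat_lit 512) .dd)))))))) (.br (nat_lit 20) (.br (nat_lit 17) (.ch (nat_lit 16) (.ev (nat_lit 608) (nat_lit
 1049128) (.ev (nat_lit 900) (nat_lit 68719476736) (.ev (nat_lit 1140) (nat_lit 524288) (.ev (nat_lit 1264)
 (nat_lit 4294983680) .dd))))) (.br (nat_lit 18) (.ch (nat_lit 17) (.ev (nat_lit 608) (nat_lit 68720017960)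
 (.ev (nat_lit 752) (nat_lit 4296015872) .dd))) (.ch (nat_lit 18) (.ev (nat_lit 608) (nat_lit 73016017440) (.ev
 (nat_lit 900) (nat_lit 16384) (.ev (nat_lit 909) (nat_lit 8) .dd)))))) (.br (nat_lit 24) (.ch (nat_lit 20)
 (.ev (nat_lit 608) (nat_lit 4296032776) (.ev (nat_lit 740) (nat_lit 32) (.ev (nat_lit 752) (nat_lit
 68719476736) (.ev (nat_lit 765) (nat_lit 524288) .dd))))) (.br (nat_lit 26) (.ch (nat_lit 24) (.ev (nat_lit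
 608) (nat_lit 73014460456) (.ev (nat_lit 740) (nat_lit 1572864) (.ev (nat_lit 749) (nat_lit 512) .dd)))) (.ch
 (nat_lit 26) (.ev (nat_lit 608) (nat_lit 73016033800) (.ev (nat_lit 621) (nat_lit 32) .dd)))))))))))))) (.ch
 (nat_lit 36) (.ev (nat_lit 52) (nat_lit 39651272294952) (.ev (nat_lit 84) (nat_lit 268435456) (.ev (nat_lit
 116) (nat_lit 16386) (.ev (nat_lit 148) (nat_lit 262144) (.ev (nat_lit 180) (nat_lit 524288) (.ev (nat_lit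
 212) (nat_lit 67108864) (.nd (nat_lit 592) (.br (nat_lit 17) (.br (nat_lit 8) (.br (nat_lit 5) (.ch (nat_lit
 3) (.ev (nat_lit 608) (nat_lit 5242880) (.ev (nat_lit 621) (nat_lit 4294967296) .dd))) (.br (nat_lit 7) (.ch
 (nat_lit 5) (.ev (nat_lit 608) (nat_lit 4296015872) (.ev (nat_lit 621) (nat_lit 4194304) .dd))) (.ch (nat_lit
 7) (.ev (nat_lit 608) (nat_lit 4300210176) .dd)))) (.br (nat_lit 12) (.ch (nat_lit 8) (.ev (nat_lit 608)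
 (nat_lit 4294967296) (.ev (nat_lit 640) (nat_lit 1048576) (.ev (nat_lit 653) (nat_lit 4194304) .dd)))) (.br
 (nat_lit 13) (.ch (nat_lit 12) (.ev (nat_lit 608) (nat_lit 1048576) (.ev (nat_lit 740) (nat_lit 4194304) (.ev
 (nat_lit 749) (nat_lit 4294967296) .dd)))) (.ch (nat_lit 13) (.ev (nat_lit 608) (nat_lit 4300210176) .dd)))))
 (.br (nat_lit 21) (.br (nat_lit 18) (.ch (nat_lit 17) (.ev (nat_lit 608) (nat_lit 4194304) (.ev (nat_lit 932)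
 (nat_lit 1048576) (.ev (nat_lit 941) (nat_lit 4294967296) .dd)))) (.br (nat_lit 20) (.ch (nat_lit 18) (.ev
 (nat_lit 608) (nat_lit 4300210176) .dd)) (.ch (nat_lit 20) (.ev (nat_lit 608) (nat_lit 4300210176) .dd))))
 (.br (nat_lit 24) (.ch (nat_lit 21) (.ev (nat_lit 608) (nat_lit 4299161600) (.ev (nat_lit 621) (nat_lit
 1048576) .dd))) (.br (nat_lit 26) (.ch (nat_lit 24) (.ev (nat_lit 608) (nat_lit 4300210176) .dd)) (.ch
 (nat_lit 26) (.ev (nat_lit 608) (nat_lit 4300210176) .dd)))))))))))))))) (.br (nat_lit 39) (.br (nat_lit 38)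
 (.ch (nat_lit 37) (.ev (nat_lit 52) (nat_lit 35184578937352) (.ev (nat_lit 84) (nat_lit 4398315470850) (.ev
 (nat_lit 116) (nat_lit 68719476736) (.nd (nat_lit 592) (.br (nat_lit 12) (.br (nat_lit 7) (.br (nat_lit 4)
 (.ch (nat_lit 3) (.ev (nat_lit 608) (nat_lit 32) (.ev (nat_lit 621) (nat_lit 4294967296) .dd))) (.br (nat_lit
 5) (.ch (nat_lit 4) (.ev (nat_lit 608) (nat_lit 4294967328) .dd)) (.ch (nat_lit 5) (.ev (nat_lit 608) (nat_lit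
 4294967328) .dd)))) (.br (nat_lit 8) (.ch (nat_lit 7) (.ev (nat_lit 608) (nat_lit 4294967328) .dd)) (.br
 (nat_lit 10) (.ch (nat_lit 8) (.ev (nat_lit 608) (nat_lit 4294967328) .dd)) (.ch (nat_lit 10) (.ev (nat_lit
 608) (nat_lit 4294967296) (.ev (nat_lit 621) (nat_lit 32) .dd)))))) (.br (nat_lit 17) (.br (nat_lit 14) (.ch
 (nat_lit 12) (.ev (nat_lit 608) (nat_lit 32) (.ev (nat_lit 621) (nat_lit 4294967296) .dd))) (.br (nat_lit 15)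
 (.ch (nat_lit 14) (.ev (nat_lit 608) (nat_lit 4294967328) .dd)) (.ch (nat_lit 15) (.ev (nat_lit 608) (nat_lit
 4294967328) .dd)))) (.br (nat_lit 18) (.ch (nat_lit 17) (.ev (nat_lit 608) (nat_lit 4294967328) .dd)) (.br
 (nat_lit 19) (.ch (nat_lit 18) (.ev (nat_lit 608) (nat_lit 4294967328) .dd)) (.ch (nat_lit 19) (.ev (nat_lit
 608) (nat_lit 4294967296) (.ev (nat_lit 621) (nat_lit 32) .dd)))))))))))) (.ch (nat_lit 38) (.ev (nat_lit 52)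
 (nat_lit 35253360787496) (.ev (nat_lit 84) (nat_lit 4294967296) (.ev (nat_lit 128) (nat_lit 4398253097474)
 .dd))))) (.br (nat_lit 42) (.ch (nat_lit 39) (.ev (nat_lit 52) (nat_lit 68992123394) (.ev (nat_lit 84)
 (nat_lit 4295229472) (.ev (nat_lit 160) (nat_lit 39582621499400) .dd)))) (.ch (nat_lit 42) (.ev (nat_lit 52)
 (nat_lit 4402414371330) (.ev (nat_lit 84) (nat_lit 262144) (.ev (nat_lit 148) (nat_lit 68719476736) (.ev
 (nat_lit 212) (nat_lit 134217728) (.nd (nat_lit 592) (.br (nat_lit 14) (.br (nat_lit 8) (.br (nat_lit 7) (.ch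
 (nat_lit 3) (.ev (nat_lit 608) (nat_lit 35184372088872) (.ev (nat_lit 621) (nat_lit 268435456) .dd))) (.ch
 (nat_lit 7) (.ev (nat_lit 608) (nat_lit 35184640524328) .dd))) (.br (nat_lit 12) (.ch (nat_lit 8) (.ev
 (nat_lit 608) (nat_lit 35184640524328) .dd)) (.ch (nat_lit 12) (.ev (nat_lit 608) (nat_lit 35184640524296)
 (.ev (nat_lit 621) (nat_lit 32) .dd))))) (.br (nat_lit 21) (.br (nat_lit 15) (.ch (nat_lit 14) (.ev (nat_lit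
 608) (nat_lit 35184640524288) (.ev (nat_lit 740) (nat_lit 8) (.ev (nat_lit 749) (nat_lit 32) .dd)))) (.ch
 (nat_lit 15) (.ev (nat_lit 608) (nat_lit 32) (.ev (nat_lit 672) (nat_lit 35184372088832) (.ev (nat_lit 768)
 (nat_lit 268435464) .dd))))) (.br (nat_lit 22) (.ch (nat_lit 21) (.ev (nat_lit 608) (nat_lit 35184640524328)
 .dd)) (.br (nat_lit 26) (.ch (nat_lit 22) (.ev (nat_lit 608) (nat_lit 35184640524288) (.ev (nat_lit 740)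
 (nat_lit 32) (.ev (nat_lit 749) (nat_lit 8) .dd)))) (.ch (nat_lit 26) (.ev (nat_lit 608) (nat_lit
 35184372088872) (.ev (nat_lit 621) (nat_lit 268435456) .dd))))))))))))))))))))

/-- The trie. -/
noncomputable def T : Tr := .nd (nat_lit 1000000) (.br (nat_lit 9) (.br (nat_lit 5) (.br (nat_lit 3) (.br
 (nat_lit 1) (.ch (nat_lit 0) (.ev (nat_lit 0) (nat_lit 140737488355327) .dd)) (.ch (nat_lit 1) T1)) (.br
 (nat_lit 4) (.ch (nat_lit 3) (.ev (nat_lit 0) (nat_lit 140737488355327) .dd)) (.ch (nat_lit 4) T4))) (.br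
 (nat_lit 7) (.br (nat_lit 6) (.ch (nat_lit 5) (.ev (nat_lit 0) (nat_lit 140737488355327) .dd)) (.ch (nat_lit
 6) T6)) (.br (nat_lit 8) (.ch (nat_lit 7) (.ev (nat_lit 0) (nat_lit 140737488355327) .dd)) (.ch (nat_lit 8)
 T8)))) (.br (nat_lit 16) (.br (nat_lit 11) (.br (nat_lit 10) (.ch (nat_lit 9) (.ev (nat_lit 0) (nat_lit
 140737488355327) .dd)) (.ch (nat_lit 10) (.ev (nat_lit 0) (nat_lit 140737488355327) .dd))) (.br (nat_lit 12)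
 (.ch (nat_lit 11) (.ev (nat_lit 0) (nat_lit 140737488355327) .dd)) (.ch (nat_lit 12) (.ev (nat_lit 0) (nat_lit
 140737488355327) .dd)))) (.br (nat_lit 19) (.br (nat_lit 17) (.ch (nat_lit 16) (.ev (nat_lit 0) (nat_lit
 140737488355327) .dd)) (.ch (nat_lit 17) (.ev (nat_lit 0) (nat_lit 140737488355327) .dd))) (.br (nat_lit 30)
 (.ch (nat_lit 19) T19) (.ch (nat_lit 30) (.ev (nat_lit 0) (nat_lit 140737488355327) .dd))))))

/-- The possible values. -/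
noncomputable def oks : List ℕ := [3, 34, 706]

/-- The parameters. -/
noncomputable def S : Pr := ⟨fun i l e => lget mz (lget [] (lget [] tabs i) l) e, oks, [(nat_lit 0), (nat_lit
 1), (nat_lit 0)], T, (nat_lit 140737488355327), (nat_lit 12800101590481), (nat_lit 47), [(nat_lit 1073946281),
 (nat_lit 3303796230157)], [(nat_lit 961), (nat_lit 1849)]⟩

/-- Nothing known. -/
noncomputable def cs0 : Cs := (.cons (nat_lit 31) (nat_lit 0) (nat_lit 1) (.cons (nat_lit 43) (nat_lit 0) (nat_lit 1) .nil))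

theorem part_1 : part S cs0 (nat_lit 1) = true := by decide +kernel

theorem part_4 : part S cs0 (nat_lit 4) = true := by decide +kernel

theorem part_6 : part S cs0 (nat_lit 6) = true := by decide +kernel

theorem part_8 : part S cs0 (nat_lit 8) = true := by decide +kernel

theorem part_19 : part S cs0 (nat_lit 19) = true := by decide +kernel

/-- Data of a prime. -/
noncomputable def D0 : PD := ⟨(nat_lit 31), (nat_lit 2), (435, 8, 13), (281, 829, 278), (666, 926, 286)⟩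

theorem D0_ok : D0.Ok := pdb_sound (s := 3) (C := ⟨⟨11, 26, -43, -19, 34, 32, -12, -3, -1⟩, (11, 12, 19)⟩) (by show Nat.Prime 31; norm_num) (by decide +kernel)

/-- Lines of the first type. -/
noncomputable def Cl0 : List C1 := [⟨⟨-11, -26, -32, 19, -34, 13, 12, 3, -13⟩, (22, 24, 7)⟩,
  ⟨⟨0, 0, 0, 0, 0, 0, 0, 0, 0⟩, (0, 0, 0)⟩,
  ⟨⟨0, 0, 0, 0, 0, 0, 0, 0, 0⟩, (0, 0, 0)⟩,
  ⟨⟨29, 26, -37, 21, 6, 32, 8, -11, -7⟩, (2, 10, 23)⟩,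
  ⟨⟨0, 0, 0, 0, 0, 0, 0, 0, 0⟩, (0, 0, 0)⟩,
  ⟨⟨21, 6, -53, 29, 26, 8, 8, -11, -1⟩, (6, 26, 20)⟩,
  ⟨⟨0, 0, 0, 0, 0, 0, 0, 0, 0⟩, (0, 0, 0)⟩,
  ⟨⟨29, -26, -37, 21, -6, 32, 8, 11, -7⟩, (27, 11, 16)⟩,
  ⟨⟨0, 0, 0, 0, 0, 0, 0, 0, 0⟩, (0, 0, 0)⟩,
  ⟨⟨-9, -6, -43, -41, 14, 28, 4, 13, -5⟩, (4, 1, 12)⟩,
  ⟨⟨9, -6, -52, -41, -14, 13, -4, 13, -1⟩, (29, 16, 25)⟩,
  ⟨⟨21, -6, -53, 29, -26, 8, 8, 11, -1⟩, (7, 20, 13)⟩,
  ⟨⟨9, 6, -52, -41, 14, 13, -4, -13, -1⟩, (28, 24, 22)⟩,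
  ⟨⟨0, 0, 0, 0, 0, 0, 0, 0, 0⟩, (0, 0, 0)⟩,
  ⟨⟨0, 0, 0, 0, 0, 0, 0, 0, 0⟩, (0, 0, 0)⟩,
  ⟨⟨0, 0, 0, 0, 0, 0, 0, 0, 0⟩, (0, 0, 0)⟩,
  ⟨⟨11, -26, -43, -19, -34, 32, -12, 3, -1⟩, (25, 16, 15)⟩,
  ⟨⟨-9, 6, -43, -41, -14, 28, 4, -13, -5⟩, (3, 24, 9)⟩,
  ⟨⟨0, 0, 0, 0, 0, 0, 0, 0, 0⟩, (0, 0, 0)⟩,
  ⟨⟨0, 0, 0, 0, 0, 0, 0, 0, 0⟩, (0, 0, 0)⟩,
  ⟨⟨0, 0, 0, 0, 0, 0, 0, 0, 0⟩, (0, 0, 0)⟩,
  ⟨⟨0, 0, 0, 0, 0, 0, 0, 0, 0⟩, (0, 0, 0)⟩,
  ⟨⟨0, 0, 0, 0, 0, 0, 0, 0, 0⟩, (0, 0, 0)⟩,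
  ⟨⟨0, 0, 0, 0, 0, 0, 0, 0, 0⟩, (0, 0, 0)⟩,
  ⟨⟨0, 0, 0, 0, 0, 0, 0, 0, 0⟩, (0, 0, 0)⟩,
  ⟨⟨0, 0, 0, 0, 0, 0, 0, 0, 0⟩, (0, 0, 0)⟩,
  ⟨⟨0, 0, 0, 0, 0, 0, 0, 0, 0⟩, (0, 0, 0)⟩,
  ⟨⟨0, 0, 0, 0, 0, 0, 0, 0, 0⟩, (0, 0, 0)⟩,
  ⟨⟨0, 0, 0, 0, 0, 0, 0, 0, 0⟩, (0, 0, 0)⟩,
  ⟨⟨0, 0, 0, 0, 0, 0, 0, 0, 0⟩, (0, 0, 0)⟩,
  ⟨⟨-11, 26, -32, 19, 34, 13, 12, -3, -13⟩, (28, 8, 23)⟩]

/-- Data of a prime. -/
noncomputable def D1 : PD := ⟨(nat_lit 43), (nat_lit 2), (989, 1, 17), (1652, 774, 636), (172, 5, 130)⟩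

theorem D1_ok : D1.Ok := pdb_sound (s := 1) (C := ⟨⟨43, -38, -44, 43, 38, 1, 0, 9, -19⟩, (5, 38, 9)⟩) (by show Nat.Prime 43; norm_num) (by decide +kernel)

/-- Lines of the first type. -/
noncomputable def Cl1 : List C1 := [⟨⟨43, 38, -44, 43, -38, 1, 0, -9, -19⟩, (42, 1, 24)⟩,
  ⟨⟨0, 0, 0, 0, 0, 0, 0, 0, 0⟩, (0, 0, 0)⟩,
  ⟨⟨57, -18, -16, -17, -58, 1, 4, 1, -23⟩, (41, 27, 24)⟩,
  ⟨⟨7, -38, -56, -33, -42, 49, -16, 7, -1⟩, (28, 40, 22)⟩,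
  ⟨⟨0, 0, 0, 0, 0, 0, 0, 0, 0⟩, (0, 0, 0)⟩,
  ⟨⟨0, 0, 0, 0, 0, 0, 0, 0, 0⟩, (0, 0, 0)⟩,
  ⟨⟨0, 0, 0, 0, 0, 0, 0, 0, 0⟩, (0, 0, 0)⟩,
  ⟨⟨0, 0, 0, 0, 0, 0, 0, 0, 0⟩, (0, 0, 0)⟩,
  ⟨⟨0, 0, 0, 0, 0, 0, 0, 0, 0⟩, (0, 0, 0)⟩,
  ⟨⟨0, 0, 0, 0, 0, 0, 0, 0, 0⟩, (0, 0, 0)⟩,
  ⟨⟨0, 0, 0, 0, 0, 0, 0, 0, 0⟩, (0, 0, 0)⟩,
  ⟨⟨27, -18, -71, -53, -22, 4, -4, 17, -7⟩, (6, 36, 23)⟩,
  ⟨⟨0, 0, 0, 0, 0, 0, 0, 0, 0⟩, (0, 0, 0)⟩,
  ⟨⟨0, 0, 0, 0, 0, 0, 0, 0, 0⟩, (0, 0, 0)⟩,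
  ⟨⟨-7, -2, -64, -47, -38, 31, 12, -15, -7⟩, (37, 15, 41)⟩,
  ⟨⟨-7, 2, -64, -47, 38, 31, 12, 15, -7⟩, (3, 14, 1)⟩,
  ⟨⟨-7, 38, -49, 33, 42, 16, 16, -7, -17⟩, (27, 14, 12)⟩,
  ⟨⟨0, 0, 0, 0, 0, 0, 0, 0, 0⟩, (0, 0, 0)⟩,
  ⟨⟨0, 0, 0, 0, 0, 0, 0, 0, 0⟩, (0, 0, 0)⟩,
  ⟨⟨57, 18, -16, -17, 58, 1, 4, -1, -23⟩, (36, 30, 41)⟩,
  ⟨⟨53, 22, -49, 27, -18, 44, 4, -17, -11⟩, (6, 42, 11)⟩,
  ⟨⟨0, 0, 0, 0, 0, 0, 0, 0, 0⟩, (0, 0, 0)⟩,
  ⟨⟨0, 0, 0, 0, 0, 0, 0, 0, 0⟩, (0, 0, 0)⟩,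
  ⟨⟨27, 18, -71, -53, 22, 4, -4, -17, -7⟩, (1, 6, 11)⟩,
  ⟨⟨57, -18, -41, -17, -58, 16, -4, -1, -19⟩, (7, 13, 41)⟩,
  ⟨⟨0, 0, 0, 0, 0, 0, 0, 0, 0⟩, (0, 0, 0)⟩,
  ⟨⟨0, 0, 0, 0, 0, 0, 0, 0, 0⟩, (0, 0, 0)⟩,
  ⟨⟨7, 38, -56, -33, 42, 49, -16, -7, -1⟩, (27, 14, 12)⟩,
  ⟨⟨7, 2, -71, -47, -38, 16, 12, -15, -5⟩, (3, 29, 42)⟩,
  ⟨⟨7, -2, -71, -47, 38, 16, 12, 15, -5⟩, (37, 28, 2)⟩,
  ⟨⟨0, 0, 0, 0, 0, 0, 0, 0, 0⟩, (0, 0, 0)⟩,
  ⟨⟨0, 0, 0, 0, 0, 0, 0, 0, 0⟩, (0, 0, 0)⟩,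
  ⟨⟨53, -22, -49, 27, 18, 44, 4, 17, -11⟩, (36, 37, 23)⟩,
  ⟨⟨0, 0, 0, 0, 0, 0, 0, 0, 0⟩, (0, 0, 0)⟩,
  ⟨⟨0, 0, 0, 0, 0, 0, 0, 0, 0⟩, (0, 0, 0)⟩,
  ⟨⟨0, 0, 0, 0, 0, 0, 0, 0, 0⟩, (0, 0, 0)⟩,
  ⟨⟨0, 0, 0, 0, 0, 0, 0, 0, 0⟩, (0, 0, 0)⟩,
  ⟨⟨0, 0, 0, 0, 0, 0, 0, 0, 0⟩, (0, 0, 0)⟩,
  ⟨⟨0, 0, 0, 0, 0, 0, 0, 0, 0⟩, (0, 0, 0)⟩,
  ⟨⟨0, 0, 0, 0, 0, 0, 0, 0, 0⟩, (0, 0, 0)⟩,
  ⟨⟨-7, -38, -49, 33, -42, 16, 16, 7, -17⟩, (28, 40, 22)⟩,
  ⟨⟨57, 18, -41, -17, 58, 16, -4, 1, -19⟩, (2, 16, 24)⟩,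
  ⟨⟨0, 0, 0, 0, 0, 0, 0, 0, 0⟩, (0, 0, 0)⟩]

/-- Data of a prime. -/
noncomputable def Dm : PD := ⟨(nat_lit 47), (nat_lit 2), (1034, 1, 9), (105, 517, 2039), (987, 5, 190)⟩

theorem Dm_ok : Dm.Ok := pdb_sound (s := 1) (C := ⟨⟨47, 2, -76, 47, -2, 29, 0, -21, -1⟩, (2, 45, 26)⟩) (by show Nat.Prime 47; norm_num) (by decide +kernel)

/-- Lines of the first type. -/
noncomputable def Clm : List C1 := [⟨⟨47, -2, -76, 47, 2, 29, 0, 21, -1⟩, (9, 38, 23)⟩,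
  ⟨⟨0, 0, 0, 0, 0, 0, 0, 0, 0⟩, (0, 0, 0)⟩,
  ⟨⟨0, 0, 0, 0, 0, 0, 0, 0, 0⟩, (0, 0, 0)⟩,
  ⟨⟨0, 0, 0, 0, 0, 0, 0, 0, 0⟩, (0, 0, 0)⟩,
  ⟨⟨17, 22, -76, -63, 18, 19, -4, -19, -7⟩, (10, 21, 17)⟩,
  ⟨⟨0, 0, 0, 0, 0, 0, 0, 0, 0⟩, (0, 0, 0)⟩,
  ⟨⟨57, -18, -61, -23, -62, 4, -8, 5, -17⟩, (3, 26, 7)⟩,
  ⟨⟨57, 18, -61, -23, 62, 4, -8, -5, -17⟩, (16, 29, 6)⟩,
  ⟨⟨53, -22, -64, -13, -62, 29, -12, -3, -13⟩, (46, 10, 2)⟩,
  ⟨⟨0, 0, 0, 0, 0, 0, 0, 0, 0⟩, (0, 0, 0)⟩,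
  ⟨⟨43, -38, -59, 3, -42, 56, -16, -11, -1⟩, (35, 9, 46)⟩,
  ⟨⟨0, 0, 0, 0, 0, 0, 0, 0, 0⟩, (0, 0, 0)⟩,
  ⟨⟨0, 0, 0, 0, 0, 0, 0, 0, 0⟩, (0, 0, 0)⟩,
  ⟨⟨-17, -22, -59, -63, 18, 44, 4, 19, -11⟩, (15, 39, 2)⟩,
  ⟨⟨0, 0, 0, 0, 0, 0, 0, 0, 0⟩, (0, 0, 0)⟩,
  ⟨⟨0, 0, 0, 0, 0, 0, 0, 0, 0⟩, (0, 0, 0)⟩,
  ⟨⟨0, 0, 0, 0, 0, 0, 0, 0, 0⟩, (0, 0, 0)⟩,
  ⟨⟨53, 22, -64, -13, 62, 29, -12, 3, -13⟩, (41, 13, 12)⟩,
  ⟨⟨0, 0, 0, 0, 0, 0, 0, 0, 0⟩, (0, 0, 0)⟩,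
  ⟨⟨0, 0, 0, 0, 0, 0, 0, 0, 0⟩, (0, 0, 0)⟩,
  ⟨⟨0, 0, 0, 0, 0, 0, 0, 0, 0⟩, (0, 0, 0)⟩,
  ⟨⟨0, 0, 0, 0, 0, 0, 0, 0, 0⟩, (0, 0, 0)⟩,
  ⟨⟨0, 0, 0, 0, 0, 0, 0, 0, 0⟩, (0, 0, 0)⟩,
  ⟨⟨43, 38, -59, 3, 42, 56, -16, 11, -1⟩, (5, 8, 20)⟩,
  ⟨⟨3, -42, -59, 43, -38, 16, 16, 11, -17⟩, (39, 42, 20)⟩,
  ⟨⟨0, 0, 0, 0, 0, 0, 0, 0, 0⟩, (0, 0, 0)⟩,
  ⟨⟨0, 0, 0, 0, 0, 0, 0, 0, 0⟩, (0, 0, 0)⟩,
  ⟨⟨0, 0, 0, 0, 0, 0, 0, 0, 0⟩, (0, 0, 0)⟩,
  ⟨⟨0, 0, 0, 0, 0, 0, 0, 0, 0⟩, (0, 0, 0)⟩,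
  ⟨⟨0, 0, 0, 0, 0, 0, 0, 0, 0⟩, (0, 0, 0)⟩,
  ⟨⟨-13, -62, -16, 53, -22, 11, 12, 3, -25⟩, (34, 6, 12)⟩,
  ⟨⟨0, 0, 0, 0, 0, 0, 0, 0, 0⟩, (0, 0, 0)⟩,
  ⟨⟨0, 0, 0, 0, 0, 0, 0, 0, 0⟩, (0, 0, 0)⟩,
  ⟨⟨0, 0, 0, 0, 0, 0, 0, 0, 0⟩, (0, 0, 0)⟩,
  ⟨⟨17, -22, -76, -63, -18, 19, -4, 19, -7⟩, (15, 8, 2)⟩,
  ⟨⟨0, 0, 0, 0, 0, 0, 0, 0, 0⟩, (0, 0, 0)⟩,
  ⟨⟨0, 0, 0, 0, 0, 0, 0, 0, 0⟩, (0, 0, 0)⟩,
  ⟨⟨3, 42, -59, 43, 38, 16, 16, -11, -17⟩, (38, 12, 46)⟩,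
  ⟨⟨0, 0, 0, 0, 0, 0, 0, 0, 0⟩, (0, 0, 0)⟩,
  ⟨⟨-13, 62, -16, 53, 22, 11, 12, -3, -25⟩, (37, 1, 2)⟩,
  ⟨⟨23, 62, -19, 57, -18, 4, 8, -5, -25⟩, (29, 31, 6)⟩,
  ⟨⟨23, -62, -19, 57, 18, 4, 8, 5, -25⟩, (26, 44, 7)⟩,
  ⟨⟨0, 0, 0, 0, 0, 0, 0, 0, 0⟩, (0, 0, 0)⟩,
  ⟨⟨-17, 22, -59, -63, -18, 44, 4, -19, -11⟩, (10, 26, 17)⟩,
  ⟨⟨0, 0, 0, 0, 0, 0, 0, 0, 0⟩, (0, 0, 0)⟩,
  ⟨⟨0, 0, 0, 0, 0, 0, 0, 0, 0⟩, (0, 0, 0)⟩,
  ⟨⟨0, 0, 0, 0, 0, 0, 0, 0, 0⟩, (0, 0, 0)⟩]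

/-- Unit moves. -/
noncomputable def U : List Mv := [mz,
  mz,
  ⟨⟨1, 0, 0, 0, -1, 0, 0, 0, 1⟩, .nil, (nat_lit 30), (nat_lit 30), (nat_lit 29), (nat_lit 1), (0, 0, 0), [], 3⟩,
  mz,
  mz,
  mz,
  mz,
  mz,
  mz,
  mz,
  mz,
  mz,
  mz,
  ⟨⟨1, 0, 0, 0, -1, 0, 0, 0, 1⟩, .nil, (nat_lit 30), (nat_lit 30), (nat_lit 29), (nat_lit 1), (0, 0, 0), [], 3⟩,
  ⟨⟨1, 0, 0, 0, -1, 0, 0, 0, 1⟩, .nil, (nat_lit 30), (nat_lit 30), (nat_lit 29), (nat_lit 1), (0, 0, 0), [], 3⟩,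
  ⟨⟨-1, 0, 1, 0, -1, 0, 0, 0, 1⟩, .nil, (nat_lit 0), (nat_lit 15), (nat_lit 1), (nat_lit 0), (0, 0, 0), [], 16⟩,
  mz,
  mz,
  ⟨⟨-1, 0, 1, 0, -1, 0, 0, 0, 1⟩, .nil, (nat_lit 0), (nat_lit 15), (nat_lit 1), (nat_lit 0), (0, 0, 0), [], 16⟩,
  mz,
  ⟨⟨-1, 0, 1, 0, 1, 0, 0, 0, 1⟩, .nil, (nat_lit 30), (nat_lit 16), (nat_lit 1), (nat_lit 1), (0, 0, 0), [], 17⟩,
  ⟨⟨-1, 0, 1, 0, 1, 0, 0, 0, 1⟩, .nil, (nat_lit 30), (nat_lit 16), (nat_lit 1), (nat_lit 1), (0, 0, 0), [], 17⟩,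
  ⟨⟨-1, 0, 1, 0, -1, 0, 0, 0, 1⟩, .nil, (nat_lit 0), (nat_lit 15), (nat_lit 1), (nat_lit 0), (0, 0, 0), [], 16⟩,
  ⟨⟨-1, 0, 1, 0, 1, 0, 0, 0, 1⟩, .nil, (nat_lit 30), (nat_lit 16), (nat_lit 1), (nat_lit 1), (0, 0, 0), [], 17⟩,
  ⟨⟨1, 0, 0, 0, -1, 0, 0, 0, 1⟩, .nil, (nat_lit 30), (nat_lit 30), (nat_lit 29), (nat_lit 1), (0, 0, 0), [], 3⟩,
  ⟨⟨-1, 0, 1, 0, 1, 0, 0, 0, 1⟩, .nil, (nat_lit 30), (nat_lit 16), (nat_lit 1), (nat_lit 1), (0, 0, 0), [], 17⟩,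
  ⟨⟨1, 0, 0, 0, -1, 0, 0, 0, 1⟩, .nil, (nat_lit 30), (nat_lit 30), (nat_lit 29), (nat_lit 1), (0, 0, 0), [], 3⟩,
  ⟨⟨-1, 0, 1, 0, -1, 0, 0, 0, 1⟩, .nil, (nat_lit 0), (nat_lit 15), (nat_lit 1), (nat_lit 0), (0, 0, 0), [], 16⟩,
  ⟨⟨-1, 0, 1, 0, 1, 0, 0, 0, 1⟩, .nil, (nat_lit 30), (nat_lit 16), (nat_lit 1), (nat_lit 1), (0, 0, 0), [], 17⟩,
  ⟨⟨-1, 0, 1, 0, -1, 0, 0, 0, 1⟩, .nil, (nat_lit 0), (nat_lit 15), (nat_lit 1), (nat_lit 0), (0, 0, 0), [], 16⟩,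
  mz]

theorem v_ty : tyb Dm S.ty1 Clm = true := by decide +kernel

theorem v_ty0 : tyb D0 (S.tys.getD 0 0) Cl0 = true := by decide +kernel

theorem v_ty1 : tyb D1 (S.tys.getD 1 0) Cl1 = true := by decide +kernel

theorem v_msc : mscb S D0 [D1] Dm (nat_lit 524626) = true := by decide +kernel

theorem v_mv0 : mvsn (nat_lit 3925147801) S D0 [D1] Dm (nat_lit 524626) 0 D0 = true := by decide +kernel

theorem v_mv1 : mvsn (nat_lit 3925147801) S D0 [D1] Dm (nat_lit 524626) 1 D1 = true := by decide +kernel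

theorem v_mm : mmsn (nat_lit 3925147801) S D0 [D1] Dm (nat_lit 524626) = true := by decide +kernel

theorem v_un : unb S D0 (nat_lit 524626) U = true := by decide +kernel

theorem v_ok : okb S.oks [(0, 0, 0), (0, 0, 0), (0, 0, 0)] = true := by decide +kernel

theorem v_part : ∀ d < D0.p, (nat_lit 524626).testBit d = true → part S (zc (D0 :: [D1])) d = true := by
  intro d hd h
  have h1 : ∀ d < 31, (nat_lit 524626).testBit d = true → d = 1 ∨ d = 4 ∨ d = 6 ∨ d = 8 ∨ d = 19 := by decide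
  rcases h1 d hd h with rfl | rfl | rfl | rfl | rfl
  · exact part_1
  · exact part_4
  · exact part_6
  · exact part_8
  · exact part_19

theorem main (n : ℕ) (ho : Odd n) (hr : ¬ Rep n) (h0 : Split 31 n) (h1 : Split 43 n) (hm : Split 47 n) :
    n ∈ EE := by
  refine concln (W := nat_lit 3925147801) (S := S) (P0 := D0) (Pl := [D1]) (Pm := Dm) (cn := nat_lit 524626) ?_ Dm_ok v_ty ?_ ?_ v_msc ?_ v_mm v_un v_part v_ok
    n ho hr ?_ hm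
  · simp only [List.forall_mem_cons]
    exact ⟨D0_ok, D1_ok, fun _ h => absurd h (by simp)⟩
  · exact all2 (φ := fun j P => ∃ L, tyb P (S.tys.getD j 0) L = true) ⟨_, v_ty0⟩ ⟨_, v_ty1⟩
  · exact all2 (φ := fun j P => Nat.ble (S.pks.getD j 0) (Nat.pow P.p P.K) = true) (by decide +kernel) (by decide +kernel)
  · exact all2 (φ := fun i P => mvsn (nat_lit 3925147801) S D0 [D1] Dm (nat_lit 524626) i P = true) v_mv0 v_mv1
  · simp only [List.forall_mem_cons]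
    exact ⟨h0, h1, fun _ h => absurd h (by simp)⟩

end Pool.Agent.Work.MP_9954fe_nt.P31_43_47

namespace Pool.Agent.Work.MP_9954fe_nt.P31_71_43

/-- Dummy move. -/
noncomputable def mz : Mv := ⟨⟨0, 0, 0, 0, 0, 0, 0, 0, 0⟩, .nil, (nat_lit 0), (nat_lit 0), (nat_lit 0), (nat_lit 0), (0, 0, 0), [], 0⟩

/-- Moves. -/
noncomputable def t0_1 : List Mv := [
  ⟨⟨3, 20, 29, -4, 25, -18, 26, 8, -7⟩, (.cons (nat_lit 719) (nat_lit 143) (nat_lit 125) (nat_lit 1) (.cons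
 (nat_lit 326) (nat_lit 1479) (nat_lit 1664) (nat_lit 1) .nil)), (nat_lit 5), (nat_lit 14), (nat_lit 36),
 (nat_lit 1), (26, 17, 29), [819, 2218], 32⟩,
  ⟨⟨23, -12, -36, -4, 25, -18, 26, 8, -7⟩, (.cons (nat_lit 388) (nat_lit 423) (nat_lit 935) (nat_lit 1) (.cons
 (nat_lit 2490) (nat_lit 279) (nat_lit 2125) (nat_lit 1) .nil)), (nat_lit 38), (nat_lit 29), (nat_lit 36),
 (nat_lit 1), (3, 17, 29), [815, 1936], 32⟩,
  ⟨⟨3, 20, 29, -4, 25, -18, 26, 8, -7⟩, (.cons (nat_lit 719) (nat_lit 143) (nat_lit 125) (nat_lit 1) (.cons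
 (nat_lit 326) (nat_lit 1479) (nat_lit 1664) (nat_lit 1) .nil)), (nat_lit 5), (nat_lit 14), (nat_lit 36),
 (nat_lit 1), (26, 17, 29), [819, 2218], 32⟩,
  ⟨⟨3, 20, 29, -4, 25, -18, 26, 8, -7⟩, (.cons (nat_lit 719) (nat_lit 143) (nat_lit 125) (nat_lit 1) (.cons
 (nat_lit 326) (nat_lit 1479) (nat_lit 1664) (nat_lit 1) .nil)), (nat_lit 5), (nat_lit 14), (nat_lit 36),
 (nat_lit 1), (26, 17, 29), [819, 2218], 32⟩,
  ⟨⟨23, -12, -36, -4, 25, -18, 26, 8, -7⟩, (.cons (nat_lit 388) (nat_lit 423) (nat_lit 935) (nat_lit 1) (.cons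
 (nat_lit 2490) (nat_lit 279) (nat_lit 2125) (nat_lit 1) .nil)), (nat_lit 38), (nat_lit 29), (nat_lit 36),
 (nat_lit 1), (3, 17, 29), [815, 1936], 32⟩,
  ⟨⟨3, 20, 29, -4, 25, -18, 26, 8, -7⟩, (.cons (nat_lit 719) (nat_lit 143) (nat_lit 125) (nat_lit 1) (.cons
 (nat_lit 326) (nat_lit 1479) (nat_lit 1664) (nat_lit 1) .nil)), (nat_lit 5), (nat_lit 14), (nat_lit 36),
 (nat_lit 1), (26, 17, 29), [819, 2218], 32⟩,
  ⟨⟨3, 20, 29, -4, 25, -18, 26, 8, -7⟩, (.cons (nat_lit 719) (nat_lit 143) (nat_lit 125) (nat_lit 1) (.cons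
 (nat_lit 326) (nat_lit 1479) (nat_lit 1664) (nat_lit 1) .nil)), (nat_lit 5), (nat_lit 14), (nat_lit 36),
 (nat_lit 1), (26, 17, 29), [819, 2218], 32⟩,
  ⟨⟨23, -12, -36, 4, -25, 18, 26, 8, -7⟩, (.cons (nat_lit 735) (nat_lit 146) (nat_lit 232) (nat_lit 1) (.cons
 (nat_lit 136) (nat_lit 4356) (nat_lit 529) (nat_lit 1) .nil)), (nat_lit 19), (nat_lit 28), (nat_lit 28),
 (nat_lit 1), (3, 14, 29), [463, 3899], 22⟩,
  ⟨⟨3, 20, 29, -4, 25, -18, 26, 8, -7⟩, (.cons (nat_lit 719) (nat_lit 143) (nat_lit 125) (nat_lit 1) (.cons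
 (nat_lit 326) (nat_lit 1479) (nat_lit 1664) (nat_lit 1) .nil)), (nat_lit 5), (nat_lit 14), (nat_lit 36),
 (nat_lit 1), (26, 17, 29), [819, 2218], 32⟩,
  ⟨⟨23, -12, -36, 4, -25, 18, 26, 8, -7⟩, (.cons (nat_lit 735) (nat_lit 146) (nat_lit 232) (nat_lit 1) (.cons
 (nat_lit 136) (nat_lit 4356) (nat_lit 529) (nat_lit 1) .nil)), (nat_lit 19), (nat_lit 28), (nat_lit 28),
 (nat_lit 1), (3, 14, 29), [463, 3899], 22⟩,
  ⟨⟨3, 20, 29, -4, 25, -18, 26, 8, -7⟩, (.cons (nat_lit 719) (nat_lit 143) (nat_lit 125) (nat_lit 1) (.cons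
 (nat_lit 326) (nat_lit 1479) (nat_lit 1664) (nat_lit 1) .nil)), (nat_lit 5), (nat_lit 14), (nat_lit 36),
 (nat_lit 1), (26, 17, 29), [819, 2218], 32⟩,
  ⟨⟨23, -12, -36, -4, 25, -18, 26, 8, -7⟩, (.cons (nat_lit 388) (nat_lit 423) (nat_lit 935) (nat_lit 1) (.cons
 (nat_lit 2490) (nat_lit 279) (nat_lit 2125) (nat_lit 1) .nil)), (nat_lit 38), (nat_lit 29), (nat_lit 36),
 (nat_lit 1), (3, 17, 29), [815, 1936], 32⟩,
  ⟨⟨3, 20, 29, -4, 25, -18, 26, 8, -7⟩, (.cons (nat_lit 719) (nat_lit 143) (nat_lit 125) (nat_lit 1) (.cons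
 (nat_lit 326) (nat_lit 1479) (nat_lit 1664) (nat_lit 1) .nil)), (nat_lit 5), (nat_lit 14), (nat_lit 36),
 (nat_lit 1), (26, 17, 29), [819, 2218], 32⟩,
  ⟨⟨23, -12, -36, 4, -25, 18, 26, 8, -7⟩, (.cons (nat_lit 735) (nat_lit 146) (nat_lit 232) (nat_lit 1) (.cons
 (nat_lit 136) (nat_lit 4356) (nat_lit 529) (nat_lit 1) .nil)), (nat_lit 19), (nat_lit 28), (nat_lit 28),
 (nat_lit 1), (3, 14, 29), [463, 3899], 22⟩,
  ⟨⟨3, 20, 29, -4, 25, -18, 26, 8, -7⟩, (.cons (nat_lit 719) (nat_lit 143) (nat_lit 125) (nat_lit 1) (.cons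
 (nat_lit 326) (nat_lit 1479) (nat_lit 1664) (nat_lit 1) .nil)), (nat_lit 5), (nat_lit 14), (nat_lit 36),
 (nat_lit 1), (26, 17, 29), [819, 2218], 32⟩,
  ⟨⟨3, 20, 29, -4, 25, -18, 26, 8, -7⟩, (.cons (nat_lit 719) (nat_lit 143) (nat_lit 125) (nat_lit 1) (.cons
 (nat_lit 326) (nat_lit 1479) (nat_lit 1664) (nat_lit 1) .nil)), (nat_lit 5), (nat_lit 14), (nat_lit 36),
 (nat_lit 1), (26, 17, 29), [819, 2218], 32⟩,
  ⟨⟨23, -12, -36, -4, 25, -18, 26, 8, -7⟩, (.cons (nat_lit 388) (nat_lit 423) (nat_lit 935) (nat_lit 1) (.cons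
 (nat_lit 2490) (nat_lit 279) (nat_lit 2125) (nat_lit 1) .nil)), (nat_lit 38), (nat_lit 29), (nat_lit 36),
 (nat_lit 1), (3, 17, 29), [815, 1936], 32⟩,
  ⟨⟨3, 20, 29, -4, 25, -18, 26, 8, -7⟩, (.cons (nat_lit 719) (nat_lit 143) (nat_lit 125) (nat_lit 1) (.cons
 (nat_lit 326) (nat_lit 1479) (nat_lit 1664) (nat_lit 1) .nil)), (nat_lit 5), (nat_lit 14), (nat_lit 36),
 (nat_lit 1), (26, 17, 29), [819, 2218], 32⟩,
  ⟨⟨23, -12, -36, -4, 25, -18, 26, 8, -7⟩, (.cons (nat_lit 388) (nat_lit 423) (nat_lit 935) (nat_lit 1) (.cons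
 (nat_lit 2490) (nat_lit 279) (nat_lit 2125) (nat_lit 1) .nil)), (nat_lit 38), (nat_lit 29), (nat_lit 36),
 (nat_lit 1), (3, 17, 29), [815, 1936], 32⟩,
  ⟨⟨3, 20, 29, 4, -25, 18, 26, 8, -7⟩, (.cons (nat_lit 213) (nat_lit 582) (nat_lit 69) (nat_lit 1) (.cons
 (nat_lit 2398) (nat_lit 3468) (nat_lit 2910) (nat_lit 1) .nil)), (nat_lit 24), (nat_lit 15), (nat_lit 28),
 (nat_lit 1), (26, 14, 29), [417, 4985], 22⟩,
  ⟨⟨3, 20, 29, 4, -25, 18, 26, 8, -7⟩, (.cons (nat_lit 213) (nat_lit 582) (nat_lit 69) (nat_lit 1) (.cons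
 (nat_lit 2398) (nat_lit 3468) (nat_lit 2910) (nat_lit 1) .nil)), (nat_lit 24), (nat_lit 15), (nat_lit 28),
 (nat_lit 1), (26, 14, 29), [417, 4985], 22⟩,
  ⟨⟨3, 20, 29, -4, 25, -18, 26, 8, -7⟩, (.cons (nat_lit 719) (nat_lit 143) (nat_lit 125) (nat_lit 1) (.cons
 (nat_lit 326) (nat_lit 1479) (nat_lit 1664) (nat_lit 1) .nil)), (nat_lit 5), (nat_lit 14), (nat_lit 36),
 (nat_lit 1), (26, 17, 29), [819, 2218], 32⟩,
  ⟨⟨3, 20, 29, -4, 25, -18, 26, 8, -7⟩, (.cons (nat_lit 719) (nat_lit 143) (nat_lit 125) (nat_lit 1) (.cons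
 (nat_lit 326) (nat_lit 1479) (nat_lit 1664) (nat_lit 1) .nil)), (nat_lit 5), (nat_lit 14), (nat_lit 36),
 (nat_lit 1), (26, 17, 29), [819, 2218], 32⟩,
  ⟨⟨3, 20, 29, 4, -25, 18, 26, 8, -7⟩, (.cons (nat_lit 213) (nat_lit 582) (nat_lit 69) (nat_lit 1) (.cons
 (nat_lit 2398) (nat_lit 3468) (nat_lit 2910) (nat_lit 1) .nil)), (nat_lit 24), (nat_lit 15), (nat_lit 28),
 (nat_lit 1), (26, 14, 29), [417, 4985], 22⟩,
  ⟨⟨3, 20, 29, -4, 25, -18, 26, 8, -7⟩, (.cons (nat_lit 719) (nat_lit 143) (nat_lit 125) (nat_lit 1) (.cons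
 (nat_lit 326) (nat_lit 1479) (nat_lit 1664) (nat_lit 1) .nil)), (nat_lit 5), (nat_lit 14), (nat_lit 36),
 (nat_lit 1), (26, 17, 29), [819, 2218], 32⟩,
  ⟨⟨23, -12, -36, 4, -25, 18, 26, 8, -7⟩, (.cons (nat_lit 735) (nat_lit 146) (nat_lit 232) (nat_lit 1) (.cons
 (nat_lit 136) (nat_lit 4356) (nat_lit 529) (nat_lit 1) .nil)), (nat_lit 19), (nat_lit 28), (nat_lit 28),
 (nat_lit 1), (3, 14, 29), [463, 3899], 22⟩,
  ⟨⟨3, 20, 29, 4, -25, 18, 26, 8, -7⟩, (.cons (nat_lit 213) (nat_lit 582) (nat_lit 69) (nat_lit 1) (.cons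
 (nat_lit 2398) (nat_lit 3468) (nat_lit 2910) (nat_lit 1) .nil)), (nat_lit 24), (nat_lit 15), (nat_lit 28),
 (nat_lit 1), (26, 14, 29), [417, 4985], 22⟩,
  ⟨⟨3, 20, 29, -4, 25, -18, 26, 8, -7⟩, (.cons (nat_lit 719) (nat_lit 143) (nat_lit 125) (nat_lit 1) (.cons
 (nat_lit 326) (nat_lit 1479) (nat_lit 1664) (nat_lit 1) .nil)), (nat_lit 5), (nat_lit 14), (nat_lit 36),
 (nat_lit 1), (26, 17, 29), [819, 2218], 32⟩,
  ⟨⟨23, -12, -36, 4, -25, 18, 26, 8, -7⟩, (.cons (nat_lit 735) (nat_lit 146) (nat_lit 232) (nat_lit 1) (.cons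
 (nat_lit 136) (nat_lit 4356) (nat_lit 529) (nat_lit 1) .nil)), (nat_lit 19), (nat_lit 28), (nat_lit 28),
 (nat_lit 1), (3, 14, 29), [463, 3899], 22⟩,
  ⟨⟨3, 20, 29, 4, -25, 18, 26, 8, -7⟩, (.cons (nat_lit 213) (nat_lit 582) (nat_lit 69) (nat_lit 1) (.cons
 (nat_lit 2398) (nat_lit 3468) (nat_lit 2910) (nat_lit 1) .nil)), (nat_lit 24), (nat_lit 15), (nat_lit 28),
 (nat_lit 1), (26, 14, 29), [417, 4985], 22⟩,
  ⟨⟨3, 20, 29, -4, 25, -18, 26, 8, -7⟩, (.cons (nat_lit 719) (nat_lit 143) (nat_lit 125) (nat_lit 1) (.cons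
 (nat_lit 326) (nat_lit 1479) (nat_lit 1664) (nat_lit 1) .nil)), (nat_lit 5), (nat_lit 14), (nat_lit 36),
 (nat_lit 1), (26, 17, 29), [819, 2218], 32⟩]

/-- Moves. -/
noncomputable def t0_4 : List Mv := [
  ⟨⟨-33, 8, 17, 4, 15, 28, -6, 24, -11⟩, (.cons (nat_lit 834) (nat_lit 345) (nat_lit 177) (nat_lit 1) (.cons
 (nat_lit 2167) (nat_lit 3011) (nat_lit 3394) (nat_lit 1) .nil)), (nat_lit 1), (nat_lit 8), (nat_lit 30),
 (nat_lit 1), (23, 16, 7), [312, 3935], 30⟩,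
  ⟨⟨27, 16, -28, -4, -15, -28, -6, 24, -11⟩, (.cons (nat_lit 749) (nat_lit 554) (nat_lit 751) (nat_lit 1)
 (.cons (nat_lit 4302) (nat_lit 3760) (nat_lit 3872) (nat_lit 1) .nil)), (nat_lit 8), (nat_lit 6), (nat_lit
 27), (nat_lit 1), (15, 15, 7), [808, 2706], 42⟩,
  ⟨⟨27, 16, -28, -4, -15, -28, -6, 24, -11⟩, (.cons (nat_lit 749) (nat_lit 554) (nat_lit 751) (nat_lit 1)
 (.cons (nat_lit 4302) (nat_lit 3760) (nat_lit 3872) (nat_lit 1) .nil)), (nat_lit 8), (nat_lit 6), (nat_lit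
 27), (nat_lit 1), (15, 15, 7), [808, 2706], 42⟩,
  ⟨⟨27, 16, -28, -4, -15, -28, -6, 24, -11⟩, (.cons (nat_lit 749) (nat_lit 554) (nat_lit 751) (nat_lit 1)
 (.cons (nat_lit 4302) (nat_lit 3760) (nat_lit 3872) (nat_lit 1) .nil)), (nat_lit 8), (nat_lit 6), (nat_lit
 27), (nat_lit 1), (15, 15, 7), [808, 2706], 42⟩,
  ⟨⟨-33, 8, 17, -4, -15, -28, -6, 24, -11⟩, (.cons (nat_lit 698) (nat_lit 820) (nat_lit 957) (nat_lit 1) (.cons
 (nat_lit 461) (nat_lit 3685) (nat_lit 4193) (nat_lit 1) .nil)), (nat_lit 35), (nat_lit 37), (nat_lit 27),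
 (nat_lit 1), (23, 15, 7), [827, 2449], 42⟩,
  ⟨⟨-33, 8, 17, 4, 15, 28, -6, 24, -11⟩, (.cons (nat_lit 834) (nat_lit 345) (nat_lit 177) (nat_lit 1) (.cons
 (nat_lit 2167) (nat_lit 3011) (nat_lit 3394) (nat_lit 1) .nil)), (nat_lit 1), (nat_lit 8), (nat_lit 30),
 (nat_lit 1), (23, 16, 7), [312, 3935], 30⟩,
  ⟨⟨-33, 8, 17, -4, -15, -28, -6, 24, -11⟩, (.cons (nat_lit 698) (nat_lit 820) (nat_lit 957) (nat_lit 1) (.cons
 (nat_lit 461) (nat_lit 3685) (nat_lit 4193) (nat_lit 1) .nil)), (nat_lit 35), (nat_lit 37), (nat_lit 27),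
 (nat_lit 1), (23, 15, 7), [827, 2449], 42⟩,
  ⟨⟨27, 16, -28, -4, -15, -28, -6, 24, -11⟩, (.cons (nat_lit 749) (nat_lit 554) (nat_lit 751) (nat_lit 1)
 (.cons (nat_lit 4302) (nat_lit 3760) (nat_lit 3872) (nat_lit 1) .nil)), (nat_lit 8), (nat_lit 6), (nat_lit
 27), (nat_lit 1), (15, 15, 7), [808, 2706], 42⟩,
  ⟨⟨27, 16, -28, -4, -15, -28, -6, 24, -11⟩, (.cons (nat_lit 749) (nat_lit 554) (nat_lit 751) (nat_lit 1)
 (.cons (nat_lit 4302) (nat_lit 3760) (nat_lit 3872) (nat_lit 1) .nil)), (nat_lit 8), (nat_lit 6), (nat_lit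
 27), (nat_lit 1), (15, 15, 7), [808, 2706], 42⟩,
  ⟨⟨27, 16, -28, -4, -15, -28, -6, 24, -11⟩, (.cons (nat_lit 749) (nat_lit 554) (nat_lit 751) (nat_lit 1)
 (.cons (nat_lit 4302) (nat_lit 3760) (nat_lit 3872) (nat_lit 1) .nil)), (nat_lit 8), (nat_lit 6), (nat_lit
 27), (nat_lit 1), (15, 15, 7), [808, 2706], 42⟩,
  ⟨⟨27, 16, -28, -4, -15, -28, -6, 24, -11⟩, (.cons (nat_lit 749) (nat_lit 554) (nat_lit 751) (nat_lit 1)
 (.cons (nat_lit 4302) (nat_lit 3760) (nat_lit 3872) (nat_lit 1) .nil)), (nat_lit 8), (nat_lit 6), (nat_lit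
 27), (nat_lit 1), (15, 15, 7), [808, 2706], 42⟩,
  ⟨⟨27, 16, -28, -4, -15, -28, -6, 24, -11⟩, (.cons (nat_lit 749) (nat_lit 554) (nat_lit 751) (nat_lit 1)
 (.cons (nat_lit 4302) (nat_lit 3760) (nat_lit 3872) (nat_lit 1) .nil)), (nat_lit 8), (nat_lit 6), (nat_lit
 27), (nat_lit 1), (15, 15, 7), [808, 2706], 42⟩,
  ⟨⟨27, 16, -28, 4, 15, 28, -6, 24, -11⟩, (.cons (nat_lit 412) (nat_lit 83) (nat_lit 351) (nat_lit 1) (.cons
 (nat_lit 5040) (nat_lit 1544) (nat_lit 3971) (nat_lit 1) .nil)), (nat_lit 42), (nat_lit 35), (nat_lit 30),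
 (nat_lit 1), (15, 16, 7), [852, 2111], 30⟩,
  ⟨⟨27, 16, -28, -4, -15, -28, -6, 24, -11⟩, (.cons (nat_lit 749) (nat_lit 554) (nat_lit 751) (nat_lit 1)
 (.cons (nat_lit 4302) (nat_lit 3760) (nat_lit 3872) (nat_lit 1) .nil)), (nat_lit 8), (nat_lit 6), (nat_lit
 27), (nat_lit 1), (15, 15, 7), [808, 2706], 42⟩,
  ⟨⟨27, 16, -28, -4, -15, -28, -6, 24, -11⟩, (.cons (nat_lit 749) (nat_lit 554) (nat_lit 751) (nat_lit 1)
 (.cons (nat_lit 4302) (nat_lit 3760) (nat_lit 3872) (nat_lit 1) .nil)), (nat_lit 8), (nat_lit 6), (nat_lit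
 27), (nat_lit 1), (15, 15, 7), [808, 2706], 42⟩,
  ⟨⟨-33, 8, 17, 4, 15, 28, -6, 24, -11⟩, (.cons (nat_lit 834) (nat_lit 345) (nat_lit 177) (nat_lit 1) (.cons
 (nat_lit 2167) (nat_lit 3011) (nat_lit 3394) (nat_lit 1) .nil)), (nat_lit 1), (nat_lit 8), (nat_lit 30),
 (nat_lit 1), (23, 16, 7), [312, 3935], 30⟩,
  ⟨⟨27, 16, -28, -4, -15, -28, -6, 24, -11⟩, (.cons (nat_lit 749) (nat_lit 554) (nat_lit 751) (nat_lit 1)
 (.cons (nat_lit 4302) (nat_lit 3760) (nat_lit 3872) (nat_lit 1) .nil)), (nat_lit 8), (nat_lit 6), (nat_lit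
 27), (nat_lit 1), (15, 15, 7), [808, 2706], 42⟩,
  ⟨⟨27, 16, -28, -4, -15, -28, -6, 24, -11⟩, (.cons (nat_lit 749) (nat_lit 554) (nat_lit 751) (nat_lit 1)
 (.cons (nat_lit 4302) (nat_lit 3760) (nat_lit 3872) (nat_lit 1) .nil)), (nat_lit 8), (nat_lit 6), (nat_lit
 27), (nat_lit 1), (15, 15, 7), [808, 2706], 42⟩,
  ⟨⟨27, 16, -28, -4, -15, -28, -6, 24, -11⟩, (.cons (nat_lit 749) (nat_lit 554) (nat_lit 751) (nat_lit 1)
 (.cons (nat_lit 4302) (nat_lit 3760) (nat_lit 3872) (nat_lit 1) .nil)), (nat_lit 8), (nat_lit 6), (nat_lit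
 27), (nat_lit 1), (15, 15, 7), [808, 2706], 42⟩,
  ⟨⟨27, 16, -28, -4, -15, -28, -6, 24, -11⟩, (.cons (nat_lit 749) (nat_lit 554) (nat_lit 751) (nat_lit 1)
 (.cons (nat_lit 4302) (nat_lit 3760) (nat_lit 3872) (nat_lit 1) .nil)), (nat_lit 8), (nat_lit 6), (nat_lit
 27), (nat_lit 1), (15, 15, 7), [808, 2706], 42⟩,
  ⟨⟨27, 16, -28, 4, 15, 28, -6, 24, -11⟩, (.cons (nat_lit 412) (nat_lit 83) (nat_lit 351) (nat_lit 1) (.cons
 (nat_lit 5040) (nat_lit 1544) (nat_lit 3971) (nat_lit 1) .nil)), (nat_lit 42), (nat_lit 35), (nat_lit 30),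
 (nat_lit 1), (15, 16, 7), [852, 2111], 30⟩,
  ⟨⟨-33, 8, 17, -4, -15, -28, -6, 24, -11⟩, (.cons (nat_lit 698) (nat_lit 820) (nat_lit 957) (nat_lit 1) (.cons
 (nat_lit 461) (nat_lit 3685) (nat_lit 4193) (nat_lit 1) .nil)), (nat_lit 35), (nat_lit 37), (nat_lit 27),
 (nat_lit 1), (23, 15, 7), [827, 2449], 42⟩,
  ⟨⟨27, 16, -28, -4, -15, -28, -6, 24, -11⟩, (.cons (nat_lit 749) (nat_lit 554) (nat_lit 751) (nat_lit 1)
 (.cons (nat_lit 4302) (nat_lit 3760) (nat_lit 3872) (nat_lit 1) .nil)), (nat_lit 8), (nat_lit 6), (nat_lit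
 27), (nat_lit 1), (15, 15, 7), [808, 2706], 42⟩,
  ⟨⟨27, 16, -28, -4, -15, -28, -6, 24, -11⟩, (.cons (nat_lit 749) (nat_lit 554) (nat_lit 751) (nat_lit 1)
 (.cons (nat_lit 4302) (nat_lit 3760) (nat_lit 3872) (nat_lit 1) .nil)), (nat_lit 8), (nat_lit 6), (nat_lit
 27), (nat_lit 1), (15, 15, 7), [808, 2706], 42⟩,
  ⟨⟨27, 16, -28, 4, 15, 28, -6, 24, -11⟩, (.cons (nat_lit 412) (nat_lit 83) (nat_lit 351) (nat_lit 1) (.cons
 (nat_lit 5040) (nat_lit 1544) (nat_lit 3971) (nat_lit 1) .nil)), (nat_lit 42), (nat_lit 35), (nat_lit 30),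
 (nat_lit 1), (15, 16, 7), [852, 2111], 30⟩,
  ⟨⟨-33, 8, 17, 4, 15, 28, -6, 24, -11⟩, (.cons (nat_lit 834) (nat_lit 345) (nat_lit 177) (nat_lit 1) (.cons
 (nat_lit 2167) (nat_lit 3011) (nat_lit 3394) (nat_lit 1) .nil)), (nat_lit 1), (nat_lit 8), (nat_lit 30),
 (nat_lit 1), (23, 16, 7), [312, 3935], 30⟩,
  ⟨⟨-33, 8, 17, -4, -15, -28, -6, 24, -11⟩, (.cons (nat_lit 698) (nat_lit 820) (nat_lit 957) (nat_lit 1) (.cons
 (nat_lit 461) (nat_lit 3685) (nat_lit 4193) (nat_lit 1) .nil)), (nat_lit 35), (nat_lit 37), (nat_lit 27),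
 (nat_lit 1), (23, 15, 7), [827, 2449], 42⟩,
  ⟨⟨-33, 8, 17, -4, -15, -28, -6, 24, -11⟩, (.cons (nat_lit 698) (nat_lit 820) (nat_lit 957) (nat_lit 1) (.cons
 (nat_lit 461) (nat_lit 3685) (nat_lit 4193) (nat_lit 1) .nil)), (nat_lit 35), (nat_lit 37), (nat_lit 27),
 (nat_lit 1), (23, 15, 7), [827, 2449], 42⟩,
  ⟨⟨-33, 8, 17, 4, 15, 28, -6, 24, -11⟩, (.cons (nat_lit 834) (nat_lit 345) (nat_lit 177) (nat_lit 1) (.cons
 (nat_lit 2167) (nat_lit 3011) (nat_lit 3394) (nat_lit 1) .nil)), (nat_lit 1), (nat_lit 8), (nat_lit 30),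
 (nat_lit 1), (23, 16, 7), [312, 3935], 30⟩,
  ⟨⟨27, 16, -28, 4, 15, 28, -6, 24, -11⟩, (.cons (nat_lit 412) (nat_lit 83) (nat_lit 351) (nat_lit 1) (.cons
 (nat_lit 5040) (nat_lit 1544) (nat_lit 3971) (nat_lit 1) .nil)), (nat_lit 42), (nat_lit 35), (nat_lit 30),
 (nat_lit 1), (15, 16, 7), [852, 2111], 30⟩,
  ⟨⟨27, 16, -28, -4, -15, -28, -6, 24, -11⟩, (.cons (nat_lit 749) (nat_lit 554) (nat_lit 751) (nat_lit 1)
 (.cons (nat_lit 4302) (nat_lit 3760) (nat_lit 3872) (nat_lit 1) .nil)), (nat_lit 8), (nat_lit 6), (nat_lit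
 27), (nat_lit 1), (15, 15, 7), [808, 2706], 42⟩]

/-- Moves. -/
noncomputable def t0_6 : List Mv := [
  ⟨⟨1, -12, 35, -16, -25, -2, 22, -16, -5⟩, (.cons (nat_lit 790) (nat_lit 903) (nat_lit 23) (nat_lit 1) (.cons
 (nat_lit 4216) (nat_lit 2994) (nat_lit 3504) (nat_lit 1) .nil)), (nat_lit 24), (nat_lit 11), (nat_lit 3),
 (nat_lit 1), (1, 15, 22), [202, 4530], 22⟩,
  ⟨⟨21, -4, -40, 16, 25, 2, 22, -16, -5⟩, (.cons (nat_lit 528) (nat_lit 151) (nat_lit 120) (nat_lit 1) (.cons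
 (nat_lit 3067) (nat_lit 1324) (nat_lit 2647) (nat_lit 1) .nil)), (nat_lit 17), (nat_lit 20), (nat_lit 10),
 (nat_lit 1), (21, 16, 22), [667, 4503], 3⟩,
  ⟨⟨1, -12, 35, -16, -25, -2, 22, -16, -5⟩, (.cons (nat_lit 790) (nat_lit 903) (nat_lit 23) (nat_lit 1) (.cons
 (nat_lit 4216) (nat_lit 2994) (nat_lit 3504) (nat_lit 1) .nil)), (nat_lit 24), (nat_lit 11), (nat_lit 3),
 (nat_lit 1), (1, 15, 22), [202, 4530], 22⟩,
  ⟨⟨1, -12, 35, -16, -25, -2, 22, -16, -5⟩, (.cons (nat_lit 790) (nat_lit 903) (nat_lit 23) (nat_lit 1) (.cons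
 (nat_lit 4216) (nat_lit 2994) (nat_lit 3504) (nat_lit 1) .nil)), (nat_lit 24), (nat_lit 11), (nat_lit 3),
 (nat_lit 1), (1, 15, 22), [202, 4530], 22⟩,
  ⟨⟨1, -12, 35, -16, -25, -2, 22, -16, -5⟩, (.cons (nat_lit 790) (nat_lit 903) (nat_lit 23) (nat_lit 1) (.cons
 (nat_lit 4216) (nat_lit 2994) (nat_lit 3504) (nat_lit 1) .nil)), (nat_lit 24), (nat_lit 11), (nat_lit 3),
 (nat_lit 1), (1, 15, 22), [202, 4530], 22⟩,
  ⟨⟨21, -4, -40, -16, -25, -2, 22, -16, -5⟩, (.cons (nat_lit 83) (nat_lit 703) (nat_lit 330) (nat_lit 1) (.cons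
 (nat_lit 1698) (nat_lit 2145) (nat_lit 3627) (nat_lit 1) .nil)), (nat_lit 19), (nat_lit 32), (nat_lit 3),
 (nat_lit 1), (21, 15, 22), [306, 3615], 22⟩,
  ⟨⟨21, -4, -40, 16, 25, 2, 22, -16, -5⟩, (.cons (nat_lit 528) (nat_lit 151) (nat_lit 120) (nat_lit 1) (.cons
 (nat_lit 3067) (nat_lit 1324) (nat_lit 2647) (nat_lit 1) .nil)), (nat_lit 17), (nat_lit 20), (nat_lit 10),
 (nat_lit 1), (21, 16, 22), [667, 4503], 3⟩,
  ⟨⟨21, -4, -40, -16, -25, -2, 22, -16, -5⟩, (.cons (nat_lit 83) (nat_lit 703) (nat_lit 330) (nat_lit 1) (.cons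
 (nat_lit 1698) (nat_lit 2145) (nat_lit 3627) (nat_lit 1) .nil)), (nat_lit 19), (nat_lit 32), (nat_lit 3),
 (nat_lit 1), (21, 15, 22), [306, 3615], 22⟩,
  ⟨⟨1, -12, 35, -16, -25, -2, 22, -16, -5⟩, (.cons (nat_lit 790) (nat_lit 903) (nat_lit 23) (nat_lit 1) (.cons
 (nat_lit 4216) (nat_lit 2994) (nat_lit 3504) (nat_lit 1) .nil)), (nat_lit 24), (nat_lit 11), (nat_lit 3),
 (nat_lit 1), (1, 15, 22), [202, 4530], 22⟩,
  ⟨⟨1, -12, 35, -16, -25, -2, 22, -16, -5⟩, (.cons (nat_lit 790) (nat_lit 903) (nat_lit 23) (nat_lit 1) (.cons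
 (nat_lit 4216) (nat_lit 2994) (nat_lit 3504) (nat_lit 1) .nil)), (nat_lit 24), (nat_lit 11), (nat_lit 3),
 (nat_lit 1), (1, 15, 22), [202, 4530], 22⟩,
  ⟨⟨1, -12, 35, -16, -25, -2, 22, -16, -5⟩, (.cons (nat_lit 790) (nat_lit 903) (nat_lit 23) (nat_lit 1) (.cons
 (nat_lit 4216) (nat_lit 2994) (nat_lit 3504) (nat_lit 1) .nil)), (nat_lit 24), (nat_lit 11), (nat_lit 3),
 (nat_lit 1), (1, 15, 22), [202, 4530], 22⟩,
  ⟨⟨21, -4, -40, -16, -25, -2, 22, -16, -5⟩, (.cons (nat_lit 83) (nat_lit 703) (nat_lit 330) (nat_lit 1) (.cons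
 (nat_lit 1698) (nat_lit 2145) (nat_lit 3627) (nat_lit 1) .nil)), (nat_lit 19), (nat_lit 32), (nat_lit 3),
 (nat_lit 1), (21, 15, 22), [306, 3615], 22⟩,
  ⟨⟨1, -12, 35, -16, -25, -2, 22, -16, -5⟩, (.cons (nat_lit 790) (nat_lit 903) (nat_lit 23) (nat_lit 1) (.cons
 (nat_lit 4216) (nat_lit 2994) (nat_lit 3504) (nat_lit 1) .nil)), (nat_lit 24), (nat_lit 11), (nat_lit 3),
 (nat_lit 1), (1, 15, 22), [202, 4530], 22⟩,
  ⟨⟨1, -12, 35, -16, -25, -2, 22, -16, -5⟩, (.cons (nat_lit 790) (nat_lit 903) (nat_lit 23) (nat_lit 1) (.cons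
 (nat_lit 4216) (nat_lit 2994) (nat_lit 3504) (nat_lit 1) .nil)), (nat_lit 24), (nat_lit 11), (nat_lit 3),
 (nat_lit 1), (1, 15, 22), [202, 4530], 22⟩,
  ⟨⟨1, -12, 35, 16, 25, 2, 22, -16, -5⟩, (.cons (nat_lit 435) (nat_lit 727) (nat_lit 466) (nat_lit 1) (.cons
 (nat_lit 3572) (nat_lit 5021) (nat_lit 4572) (nat_lit 1) .nil)), (nat_lit 26), (nat_lit 23), (nat_lit 10),
 (nat_lit 1), (1, 16, 22), [75, 3613], 3⟩,
  ⟨⟨21, -4, -40, -16, -25, -2, 22, -16, -5⟩, (.cons (nat_lit 83) (nat_lit 703) (nat_lit 330) (nat_lit 1) (.cons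
 (nat_lit 1698) (nat_lit 2145) (nat_lit 3627) (nat_lit 1) .nil)), (nat_lit 19), (nat_lit 32), (nat_lit 3),
 (nat_lit 1), (21, 15, 22), [306, 3615], 22⟩,
  ⟨⟨21, -4, -40, 16, 25, 2, 22, -16, -5⟩, (.cons (nat_lit 528) (nat_lit 151) (nat_lit 120) (nat_lit 1) (.cons
 (nat_lit 3067) (nat_lit 1324) (nat_lit 2647) (nat_lit 1) .nil)), (nat_lit 17), (nat_lit 20), (nat_lit 10),
 (nat_lit 1), (21, 16, 22), [667, 4503], 3⟩,
  ⟨⟨1, -12, 35, -16, -25, -2, 22, -16, -5⟩, (.cons (nat_lit 790) (nat_lit 903) (nat_lit 23) (nat_lit 1) (.cons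
 (nat_lit 4216) (nat_lit 2994) (nat_lit 3504) (nat_lit 1) .nil)), (nat_lit 24), (nat_lit 11), (nat_lit 3),
 (nat_lit 1), (1, 15, 22), [202, 4530], 22⟩,
  ⟨⟨21, -4, -40, -16, -25, -2, 22, -16, -5⟩, (.cons (nat_lit 83) (nat_lit 703) (nat_lit 330) (nat_lit 1) (.cons
 (nat_lit 1698) (nat_lit 2145) (nat_lit 3627) (nat_lit 1) .nil)), (nat_lit 19), (nat_lit 32), (nat_lit 3),
 (nat_lit 1), (21, 15, 22), [306, 3615], 22⟩,
  ⟨⟨21, -4, -40, 16, 25, 2, 22, -16, -5⟩, (.cons (nat_lit 528) (nat_lit 151) (nat_lit 120) (nat_lit 1) (.cons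
 (nat_lit 3067) (nat_lit 1324) (nat_lit 2647) (nat_lit 1) .nil)), (nat_lit 17), (nat_lit 20), (nat_lit 10),
 (nat_lit 1), (21, 16, 22), [667, 4503], 3⟩,
  ⟨⟨1, -12, 35, -16, -25, -2, 22, -16, -5⟩, (.cons (nat_lit 790) (nat_lit 903) (nat_lit 23) (nat_lit 1) (.cons
 (nat_lit 4216) (nat_lit 2994) (nat_lit 3504) (nat_lit 1) .nil)), (nat_lit 24), (nat_lit 11), (nat_lit 3),
 (nat_lit 1), (1, 15, 22), [202, 4530], 22⟩,
  ⟨⟨1, -12, 35, -16, -25, -2, 22, -16, -5⟩, (.cons (nat_lit 790) (nat_lit 903) (nat_lit 23) (nat_lit 1) (.cons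
 (nat_lit 4216) (nat_lit 2994) (nat_lit 3504) (nat_lit 1) .nil)), (nat_lit 24), (nat_lit 11), (nat_lit 3),
 (nat_lit 1), (1, 15, 22), [202, 4530], 22⟩,
  ⟨⟨1, -12, 35, -16, -25, -2, 22, -16, -5⟩, (.cons (nat_lit 790) (nat_lit 903) (nat_lit 23) (nat_lit 1) (.cons
 (nat_lit 4216) (nat_lit 2994) (nat_lit 3504) (nat_lit 1) .nil)), (nat_lit 24), (nat_lit 11), (nat_lit 3),
 (nat_lit 1), (1, 15, 22), [202, 4530], 22⟩,
  ⟨⟨1, -12, 35, 16, 25, 2, 22, -16, -5⟩, (.cons (nat_lit 435) (nat_lit 727) (nat_lit 466) (nat_lit 1) (.cons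
 (nat_lit 3572) (nat_lit 5021) (nat_lit 4572) (nat_lit 1) .nil)), (nat_lit 26), (nat_lit 23), (nat_lit 10),
 (nat_lit 1), (1, 16, 22), [75, 3613], 3⟩,
  ⟨⟨1, -12, 35, 16, 25, 2, 22, -16, -5⟩, (.cons (nat_lit 435) (nat_lit 727) (nat_lit 466) (nat_lit 1) (.cons
 (nat_lit 3572) (nat_lit 5021) (nat_lit 4572) (nat_lit 1) .nil)), (nat_lit 26), (nat_lit 23), (nat_lit 10),
 (nat_lit 1), (1, 16, 22), [75, 3613], 3⟩,
  ⟨⟨1, -12, 35, -16, -25, -2, 22, -16, -5⟩, (.cons (nat_lit 790) (nat_lit 903) (nat_lit 23) (nat_lit 1) (.cons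
 (nat_lit 4216) (nat_lit 2994) (nat_lit 3504) (nat_lit 1) .nil)), (nat_lit 24), (nat_lit 11), (nat_lit 3),
 (nat_lit 1), (1, 15, 22), [202, 4530], 22⟩,
  ⟨⟨21, -4, -40, 16, 25, 2, 22, -16, -5⟩, (.cons (nat_lit 528) (nat_lit 151) (nat_lit 120) (nat_lit 1) (.cons
 (nat_lit 3067) (nat_lit 1324) (nat_lit 2647) (nat_lit 1) .nil)), (nat_lit 17), (nat_lit 20), (nat_lit 10),
 (nat_lit 1), (21, 16, 22), [667, 4503], 3⟩,
  ⟨⟨1, -12, 35, -16, -25, -2, 22, -16, -5⟩, (.cons (nat_lit 790) (nat_lit 903) (nat_lit 23) (nat_lit 1) (.cons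
 (nat_lit 4216) (nat_lit 2994) (nat_lit 3504) (nat_lit 1) .nil)), (nat_lit 24), (nat_lit 11), (nat_lit 3),
 (nat_lit 1), (1, 15, 22), [202, 4530], 22⟩,
  ⟨⟨1, -12, 35, -16, -25, -2, 22, -16, -5⟩, (.cons (nat_lit 790) (nat_lit 903) (nat_lit 23) (nat_lit 1) (.cons
 (nat_lit 4216) (nat_lit 2994) (nat_lit 3504) (nat_lit 1) .nil)), (nat_lit 24), (nat_lit 11), (nat_lit 3),
 (nat_lit 1), (1, 15, 22), [202, 4530], 22⟩,
  ⟨⟨1, -12, 35, 16, 25, 2, 22, -16, -5⟩, (.cons (nat_lit 435) (nat_lit 727) (nat_lit 466) (nat_lit 1) (.cons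
 (nat_lit 3572) (nat_lit 5021) (nat_lit 4572) (nat_lit 1) .nil)), (nat_lit 26), (nat_lit 23), (nat_lit 10),
 (nat_lit 1), (1, 16, 22), [75, 3613], 3⟩,
  ⟨⟨1, -12, 35, -16, -25, -2, 22, -16, -5⟩, (.cons (nat_lit 790) (nat_lit 903) (nat_lit 23) (nat_lit 1) (.cons
 (nat_lit 4216) (nat_lit 2994) (nat_lit 3504) (nat_lit 1) .nil)), (nat_lit 24), (nat_lit 11), (nat_lit 3),
 (nat_lit 1), (1, 15, 22), [202, 4530], 22⟩]

/-- Moves. -/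
noncomputable def t0_8 : List Mv := [
  ⟨⟨-31, 0, 0, 10, 19, -30, -4, -20, -19⟩, (.cons (nat_lit 582) (nat_lit 103) (nat_lit 437) (nat_lit 1) (.cons
 (nat_lit 5040) (nat_lit 4657) (nat_lit 651) (nat_lit 1) .nil)), (nat_lit 42), (nat_lit 7), (nat_lit 35),
 (nat_lit 1), (0, 5, 29), [738, 1456], 28⟩,
  ⟨⟨-31, 0, 0, -10, -19, 30, -4, -20, -19⟩, (.cons (nat_lit 455) (nat_lit 880) (nat_lit 531) (nat_lit 1) (.cons
 (nat_lit 16) (nat_lit 917) (nat_lit 3760) (nat_lit 1) .nil)), (nat_lit 18), (nat_lit 30), (nat_lit 6),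
 (nat_lit 1), (0, 26, 29), [740, 701], 34⟩,
  ⟨⟨-31, 0, 0, -10, -19, 30, -4, -20, -19⟩, (.cons (nat_lit 455) (nat_lit 880) (nat_lit 531) (nat_lit 1) (.cons
 (nat_lit 16) (nat_lit 917) (nat_lit 3760) (nat_lit 1) .nil)), (nat_lit 18), (nat_lit 30), (nat_lit 6),
 (nat_lit 1), (0, 26, 29), [740, 701], 34⟩,
  ⟨⟨-31, 0, 0, -10, -19, 30, -4, -20, -19⟩, (.cons (nat_lit 455) (nat_lit 880) (nat_lit 531) (nat_lit 1) (.cons
 (nat_lit 16) (nat_lit 917) (nat_lit 3760) (nat_lit 1) .nil)), (nat_lit 18), (nat_lit 30), (nat_lit 6),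
 (nat_lit 1), (0, 26, 29), [740, 701], 34⟩,
  ⟨⟨-31, 0, 0, 10, 19, -30, -4, -20, -19⟩, (.cons (nat_lit 582) (nat_lit 103) (nat_lit 437) (nat_lit 1) (.cons
 (nat_lit 5040) (nat_lit 4657) (nat_lit 651) (nat_lit 1) .nil)), (nat_lit 42), (nat_lit 7), (nat_lit 35),
 (nat_lit 1), (0, 5, 29), [738, 1456], 28⟩,
  ⟨⟨-31, 0, 0, 10, 19, -30, -4, -20, -19⟩, (.cons (nat_lit 582) (nat_lit 103) (nat_lit 437) (nat_lit 1) (.cons
 (nat_lit 5040) (nat_lit 4657) (nat_lit 651) (nat_lit 1) .nil)), (nat_lit 42), (nat_lit 7), (nat_lit 35),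
 (nat_lit 1), (0, 5, 29), [738, 1456], 28⟩,
  ⟨⟨-31, 0, 0, -10, -19, 30, -4, -20, -19⟩, (.cons (nat_lit 455) (nat_lit 880) (nat_lit 531) (nat_lit 1) (.cons
 (nat_lit 16) (nat_lit 917) (nat_lit 3760) (nat_lit 1) .nil)), (nat_lit 18), (nat_lit 30), (nat_lit 6),
 (nat_lit 1), (0, 26, 29), [740, 701], 34⟩,
  ⟨⟨27, -20, -19, 10, 19, -30, -4, -20, -19⟩, (.cons (nat_lit 67) (nat_lit 474) (nat_lit 645) (nat_lit 1)
 (.cons (nat_lit 1625) (nat_lit 2322) (nat_lit 1228) (nat_lit 1) .nil)), (nat_lit 1), (nat_lit 36), (nat_lit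
 35), (nat_lit 1), (29, 5, 29), [65, 5037], 28⟩,
  ⟨⟨27, -20, -19, -10, -19, 30, -4, -20, -19⟩, (.cons (nat_lit 268) (nat_lit 606) (nat_lit 796) (nat_lit 1)
 (.cons (nat_lit 1953) (nat_lit 3695) (nat_lit 3883) (nat_lit 1) .nil)), (nat_lit 25), (nat_lit 13), (nat_lit
 6), (nat_lit 1), (29, 26, 29), [314, 4369], 34⟩,
  ⟨⟨27, -20, -19, 10, 19, -30, -4, -20, -19⟩, (.cons (nat_lit 67) (nat_lit 474) (nat_lit 645) (nat_lit 1)
 (.cons (nat_lit 1625) (nat_lit 2322) (nat_lit 1228) (nat_lit 1) .nil)), (nat_lit 1), (nat_lit 36), (nat_lit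
 35), (nat_lit 1), (29, 5, 29), [65, 5037], 28⟩,
  ⟨⟨-31, 0, 0, 10, 19, -30, -4, -20, -19⟩, (.cons (nat_lit 582) (nat_lit 103) (nat_lit 437) (nat_lit 1) (.cons
 (nat_lit 5040) (nat_lit 4657) (nat_lit 651) (nat_lit 1) .nil)), (nat_lit 42), (nat_lit 7), (nat_lit 35),
 (nat_lit 1), (0, 5, 29), [738, 1456], 28⟩,
  ⟨⟨-31, 0, 0, 10, 19, -30, -4, -20, -19⟩, (.cons (nat_lit 582) (nat_lit 103) (nat_lit 437) (nat_lit 1) (.cons
 (nat_lit 5040) (nat_lit 4657) (nat_lit 651) (nat_lit 1) .nil)), (nat_lit 42), (nat_lit 7), (nat_lit 35),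
 (nat_lit 1), (0, 5, 29), [738, 1456], 28⟩,
  ⟨⟨27, -20, -19, -10, -19, 30, -4, -20, -19⟩, (.cons (nat_lit 268) (nat_lit 606) (nat_lit 796) (nat_lit 1)
 (.cons (nat_lit 1953) (nat_lit 3695) (nat_lit 3883) (nat_lit 1) .nil)), (nat_lit 25), (nat_lit 13), (nat_lit
 6), (nat_lit 1), (29, 26, 29), [314, 4369], 34⟩,
  ⟨⟨27, -20, -19, -10, -19, 30, -4, -20, -19⟩, (.cons (nat_lit 268) (nat_lit 606) (nat_lit 796) (nat_lit 1)
 (.cons (nat_lit 1953) (nat_lit 3695) (nat_lit 3883) (nat_lit 1) .nil)), (nat_lit 25), (nat_lit 13), (nat_lit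
 6), (nat_lit 1), (29, 26, 29), [314, 4369], 34⟩,
  ⟨⟨-31, 0, 0, 10, 19, -30, -4, -20, -19⟩, (.cons (nat_lit 582) (nat_lit 103) (nat_lit 437) (nat_lit 1) (.cons
 (nat_lit 5040) (nat_lit 4657) (nat_lit 651) (nat_lit 1) .nil)), (nat_lit 42), (nat_lit 7), (nat_lit 35),
 (nat_lit 1), (0, 5, 29), [738, 1456], 28⟩,
  ⟨⟨-31, 0, 0, 10, 19, -30, -4, -20, -19⟩, (.cons (nat_lit 582) (nat_lit 103) (nat_lit 437) (nat_lit 1) (.cons
 (nat_lit 5040) (nat_lit 4657) (nat_lit 651) (nat_lit 1) .nil)), (nat_lit 42), (nat_lit 7), (nat_lit 35),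
 (nat_lit 1), (0, 5, 29), [738, 1456], 28⟩,
  ⟨⟨27, -20, -19, -10, -19, 30, -4, -20, -19⟩, (.cons (nat_lit 268) (nat_lit 606) (nat_lit 796) (nat_lit 1)
 (.cons (nat_lit 1953) (nat_lit 3695) (nat_lit 3883) (nat_lit 1) .nil)), (nat_lit 25), (nat_lit 13), (nat_lit
 6), (nat_lit 1), (29, 26, 29), [314, 4369], 34⟩,
  ⟨⟨-31, 0, 0, -10, -19, 30, -4, -20, -19⟩, (.cons (nat_lit 455) (nat_lit 880) (nat_lit 531) (nat_lit 1) (.cons
 (nat_lit 16) (nat_lit 917) (nat_lit 3760) (nat_lit 1) .nil)), (nat_lit 18), (nat_lit 30), (nat_lit 6),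
 (nat_lit 1), (0, 26, 29), [740, 701], 34⟩,
  ⟨⟨27, -20, -19, 10, 19, -30, -4, -20, -19⟩, (.cons (nat_lit 67) (nat_lit 474) (nat_lit 645) (nat_lit 1)
 (.cons (nat_lit 1625) (nat_lit 2322) (nat_lit 1228) (nat_lit 1) .nil)), (nat_lit 1), (nat_lit 36), (nat_lit
 35), (nat_lit 1), (29, 5, 29), [65, 5037], 28⟩,
  ⟨⟨27, -20, -19, 10, 19, -30, -4, -20, -19⟩, (.cons (nat_lit 67) (nat_lit 474) (nat_lit 645) (nat_lit 1)
 (.cons (nat_lit 1625) (nat_lit 2322) (nat_lit 1228) (nat_lit 1) .nil)), (nat_lit 1), (nat_lit 36), (nat_lit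
 35), (nat_lit 1), (29, 5, 29), [65, 5037], 28⟩,
  ⟨⟨-31, 0, 0, 10, 19, -30, -4, -20, -19⟩, (.cons (nat_lit 582) (nat_lit 103) (nat_lit 437) (nat_lit 1) (.cons
 (nat_lit 5040) (nat_lit 4657) (nat_lit 651) (nat_lit 1) .nil)), (nat_lit 42), (nat_lit 7), (nat_lit 35),
 (nat_lit 1), (0, 5, 29), [738, 1456], 28⟩,
  ⟨⟨-31, 0, 0, 10, 19, -30, -4, -20, -19⟩, (.cons (nat_lit 582) (nat_lit 103) (nat_lit 437) (nat_lit 1) (.cons
 (nat_lit 5040) (nat_lit 4657) (nat_lit 651) (nat_lit 1) .nil)), (nat_lit 42), (nat_lit 7), (nat_lit 35),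
 (nat_lit 1), (0, 5, 29), [738, 1456], 28⟩,
  ⟨⟨27, -20, -19, -10, -19, 30, -4, -20, -19⟩, (.cons (nat_lit 268) (nat_lit 606) (nat_lit 796) (nat_lit 1)
 (.cons (nat_lit 1953) (nat_lit 3695) (nat_lit 3883) (nat_lit 1) .nil)), (nat_lit 25), (nat_lit 13), (nat_lit
 6), (nat_lit 1), (29, 26, 29), [314, 4369], 34⟩,
  ⟨⟨-31, 0, 0, 10, 19, -30, -4, -20, -19⟩, (.cons (nat_lit 582) (nat_lit 103) (nat_lit 437) (nat_lit 1) (.cons
 (nat_lit 5040) (nat_lit 4657) (nat_lit 651) (nat_lit 1) .nil)), (nat_lit 42), (nat_lit 7), (nat_lit 35),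
 (nat_lit 1), (0, 5, 29), [738, 1456], 28⟩,
  ⟨⟨-31, 0, 0, 10, 19, -30, -4, -20, -19⟩, (.cons (nat_lit 582) (nat_lit 103) (nat_lit 437) (nat_lit 1) (.cons
 (nat_lit 5040) (nat_lit 4657) (nat_lit 651) (nat_lit 1) .nil)), (nat_lit 42), (nat_lit 7), (nat_lit 35),
 (nat_lit 1), (0, 5, 29), [738, 1456], 28⟩,
  ⟨⟨-31, 0, 0, 10, 19, -30, -4, -20, -19⟩, (.cons (nat_lit 582) (nat_lit 103) (nat_lit 437) (nat_lit 1) (.cons
 (nat_lit 5040) (nat_lit 4657) (nat_lit 651) (nat_lit 1) .nil)), (nat_lit 42), (nat_lit 7), (nat_lit 35),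
 (nat_lit 1), (0, 5, 29), [738, 1456], 28⟩,
  ⟨⟨-31, 0, 0, 10, 19, -30, -4, -20, -19⟩, (.cons (nat_lit 582) (nat_lit 103) (nat_lit 437) (nat_lit 1) (.cons
 (nat_lit 5040) (nat_lit 4657) (nat_lit 651) (nat_lit 1) .nil)), (nat_lit 42), (nat_lit 7), (nat_lit 35),
 (nat_lit 1), (0, 5, 29), [738, 1456], 28⟩,
  ⟨⟨-31, 0, 0, 10, 19, -30, -4, -20, -19⟩, (.cons (nat_lit 582) (nat_lit 103) (nat_lit 437) (nat_lit 1) (.cons
 (nat_lit 5040) (nat_lit 4657) (nat_lit 651) (nat_lit 1) .nil)), (nat_lit 42), (nat_lit 7), (nat_lit 35),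
 (nat_lit 1), (0, 5, 29), [738, 1456], 28⟩,
  ⟨⟨-31, 0, 0, 10, 19, -30, -4, -20, -19⟩, (.cons (nat_lit 582) (nat_lit 103) (nat_lit 437) (nat_lit 1) (.cons
 (nat_lit 5040) (nat_lit 4657) (nat_lit 651) (nat_lit 1) .nil)), (nat_lit 42), (nat_lit 7), (nat_lit 35),
 (nat_lit 1), (0, 5, 29), [738, 1456], 28⟩,
  ⟨⟨27, -20, -19, 10, 19, -30, -4, -20, -19⟩, (.cons (nat_lit 67) (nat_lit 474) (nat_lit 645) (nat_lit 1)
 (.cons (nat_lit 1625) (nat_lit 2322) (nat_lit 1228) (nat_lit 1) .nil)), (nat_lit 1), (nat_lit 36), (nat_lit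
 35), (nat_lit 1), (29, 5, 29), [65, 5037], 28⟩,
  ⟨⟨-31, 0, 0, 10, 19, -30, -4, -20, -19⟩, (.cons (nat_lit 582) (nat_lit 103) (nat_lit 437) (nat_lit 1) (.cons
 (nat_lit 5040) (nat_lit 4657) (nat_lit 651) (nat_lit 1) .nil)), (nat_lit 42), (nat_lit 7), (nat_lit 35),
 (nat_lit 1), (0, 5, 29), [738, 1456], 28⟩]

/-- Moves. -/
noncomputable def t0_19 : List Mv := [
  ⟨⟨-9, 8, -31, -10, -29, 0, 20, -4, -31⟩, (.cons (nat_lit 501) (nat_lit 320) (nat_lit 659) (nat_lit 1) (.cons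
 (nat_lit 830) (nat_lit 174) (nat_lit 35) (nat_lit 1) .nil)), (nat_lit 1), (nat_lit 20), (nat_lit 38), (nat_lit
 1), (2, 16, 30), [881, 1748], 8⟩,
  ⟨⟨-9, 8, -31, -10, -29, 0, 20, -4, -31⟩, (.cons (nat_lit 501) (nat_lit 320) (nat_lit 659) (nat_lit 1) (.cons
 (nat_lit 830) (nat_lit 174) (nat_lit 35) (nat_lit 1) .nil)), (nat_lit 1), (nat_lit 20), (nat_lit 38), (nat_lit
 1), (2, 16, 30), [881, 1748], 8⟩,
  ⟨⟨-9, 8, -31, -10, -29, 0, 20, -4, -31⟩, (.cons (nat_lit 501) (nat_lit 320) (nat_lit 659) (nat_lit 1) (.cons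
 (nat_lit 830) (nat_lit 174) (nat_lit 35) (nat_lit 1) .nil)), (nat_lit 1), (nat_lit 20), (nat_lit 38), (nat_lit
 1), (2, 16, 30), [881, 1748], 8⟩,
  ⟨⟨-9, 8, -31, -10, -29, 0, 20, -4, -31⟩, (.cons (nat_lit 501) (nat_lit 320) (nat_lit 659) (nat_lit 1) (.cons
 (nat_lit 830) (nat_lit 174) (nat_lit 35) (nat_lit 1) .nil)), (nat_lit 1), (nat_lit 20), (nat_lit 38), (nat_lit
 1), (2, 16, 30), [881, 1748], 8⟩,
  ⟨⟨29, -12, 0, 10, 29, 0, 20, -4, -31⟩, (.cons (nat_lit 539) (nat_lit 141) (nat_lit 791) (nat_lit 1) (.cons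
 (nat_lit 586) (nat_lit 2307) (nat_lit 4672) (nat_lit 1) .nil)), (nat_lit 31), (nat_lit 11), (nat_lit 28),
 (nat_lit 1), (28, 15, 30), [477, 1860], 30⟩,
  ⟨⟨-9, 8, -31, -10, -29, 0, 20, -4, -31⟩, (.cons (nat_lit 501) (nat_lit 320) (nat_lit 659) (nat_lit 1) (.cons
 (nat_lit 830) (nat_lit 174) (nat_lit 35) (nat_lit 1) .nil)), (nat_lit 1), (nat_lit 20), (nat_lit 38), (nat_lit
 1), (2, 16, 30), [881, 1748], 8⟩,
  ⟨⟨-9, 8, -31, -10, -29, 0, 20, -4, -31⟩, (.cons (nat_lit 501) (nat_lit 320) (nat_lit 659) (nat_lit 1) (.cons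
 (nat_lit 830) (nat_lit 174) (nat_lit 35) (nat_lit 1) .nil)), (nat_lit 1), (nat_lit 20), (nat_lit 38), (nat_lit
 1), (2, 16, 30), [881, 1748], 8⟩,
  ⟨⟨29, -12, 0, 10, 29, 0, 20, -4, -31⟩, (.cons (nat_lit 539) (nat_lit 141) (nat_lit 791) (nat_lit 1) (.cons
 (nat_lit 586) (nat_lit 2307) (nat_lit 4672) (nat_lit 1) .nil)), (nat_lit 31), (nat_lit 11), (nat_lit 28),
 (nat_lit 1), (28, 15, 30), [477, 1860], 30⟩,
  ⟨⟨29, -12, 0, 10, 29, 0, 20, -4, -31⟩, (.cons (nat_lit 539) (nat_lit 141) (nat_lit 791) (nat_lit 1) (.cons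
 (nat_lit 586) (nat_lit 2307) (nat_lit 4672) (nat_lit 1) .nil)), (nat_lit 31), (nat_lit 11), (nat_lit 28),
 (nat_lit 1), (28, 15, 30), [477, 1860], 30⟩,
  ⟨⟨-9, 8, -31, -10, -29, 0, 20, -4, -31⟩, (.cons (nat_lit 501) (nat_lit 320) (nat_lit 659) (nat_lit 1) (.cons
 (nat_lit 830) (nat_lit 174) (nat_lit 35) (nat_lit 1) .nil)), (nat_lit 1), (nat_lit 20), (nat_lit 38), (nat_lit
 1), (2, 16, 30), [881, 1748], 8⟩,
  ⟨⟨-9, 8, -31, 10, 29, 0, 20, -4, -31⟩, (.cons (nat_lit 792) (nat_lit 415) (nat_lit 687) (nat_lit 1) (.cons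
 (nat_lit 3148) (nat_lit 2146) (nat_lit 1) (nat_lit 4970) .nil)), (nat_lit 12), (nat_lit 32), (nat_lit 28),
 (nat_lit 1), (2, 15, 30), [143, 1634], 30⟩,
  ⟨⟨-9, 8, -31, -10, -29, 0, 20, -4, -31⟩, (.cons (nat_lit 501) (nat_lit 320) (nat_lit 659) (nat_lit 1) (.cons
 (nat_lit 830) (nat_lit 174) (nat_lit 35) (nat_lit 1) .nil)), (nat_lit 1), (nat_lit 20), (nat_lit 38), (nat_lit
 1), (2, 16, 30), [881, 1748], 8⟩,
  ⟨⟨-9, 8, -31, 10, 29, 0, 20, -4, -31⟩, (.cons (nat_lit 792) (nat_lit 415) (nat_lit 687) (nat_lit 1) (.cons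
 (nat_lit 3148) (nat_lit 2146) (nat_lit 1) (nat_lit 4970) .nil)), (nat_lit 12), (nat_lit 32), (nat_lit 28),
 (nat_lit 1), (2, 15, 30), [143, 1634], 30⟩,
  ⟨⟨-9, 8, -31, 10, 29, 0, 20, -4, -31⟩, (.cons (nat_lit 792) (nat_lit 415) (nat_lit 687) (nat_lit 1) (.cons
 (nat_lit 3148) (nat_lit 2146) (nat_lit 1) (nat_lit 4970) .nil)), (nat_lit 12), (nat_lit 32), (nat_lit 28),
 (nat_lit 1), (2, 15, 30), [143, 1634], 30⟩,
  ⟨⟨-9, 8, -31, -10, -29, 0, 20, -4, -31⟩, (.cons (nat_lit 501) (nat_lit 320) (nat_lit 659) (nat_lit 1) (.cons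
 (nat_lit 830) (nat_lit 174) (nat_lit 35) (nat_lit 1) .nil)), (nat_lit 1), (nat_lit 20), (nat_lit 38), (nat_lit
 1), (2, 16, 30), [881, 1748], 8⟩,
  ⟨⟨-9, 8, -31, 10, 29, 0, 20, -4, -31⟩, (.cons (nat_lit 792) (nat_lit 415) (nat_lit 687) (nat_lit 1) (.cons
 (nat_lit 3148) (nat_lit 2146) (nat_lit 1) (nat_lit 4970) .nil)), (nat_lit 12), (nat_lit 32), (nat_lit 28),
 (nat_lit 1), (2, 15, 30), [143, 1634], 30⟩,
  ⟨⟨29, -12, 0, 10, 29, 0, 20, -4, -31⟩, (.cons (nat_lit 539) (nat_lit 141) (nat_lit 791) (nat_lit 1) (.cons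
 (nat_lit 586) (nat_lit 2307) (nat_lit 4672) (nat_lit 1) .nil)), (nat_lit 31), (nat_lit 11), (nat_lit 28),
 (nat_lit 1), (28, 15, 30), [477, 1860], 30⟩,
  ⟨⟨-9, 8, -31, 10, 29, 0, 20, -4, -31⟩, (.cons (nat_lit 792) (nat_lit 415) (nat_lit 687) (nat_lit 1) (.cons
 (nat_lit 3148) (nat_lit 2146) (nat_lit 1) (nat_lit 4970) .nil)), (nat_lit 12), (nat_lit 32), (nat_lit 28),
 (nat_lit 1), (2, 15, 30), [143, 1634], 30⟩,
  ⟨⟨29, -12, 0, -10, -29, 0, 20, -4, -31⟩, (.cons (nat_lit 417) (nat_lit 102) (nat_lit 934) (nat_lit 1) (.cons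
 (nat_lit 5040) (nat_lit 781) (nat_lit 1528) (nat_lit 1) .nil)), (nat_lit 42), (nat_lit 23), (nat_lit 38),
 (nat_lit 1), (28, 16, 30), [288, 1460], 8⟩,
  ⟨⟨29, -12, 0, -10, -29, 0, 20, -4, -31⟩, (.cons (nat_lit 417) (nat_lit 102) (nat_lit 934) (nat_lit 1) (.cons
 (nat_lit 5040) (nat_lit 781) (nat_lit 1528) (nat_lit 1) .nil)), (nat_lit 42), (nat_lit 23), (nat_lit 38),
 (nat_lit 1), (28, 16, 30), [288, 1460], 8⟩,
  ⟨⟨-9, 8, -31, -10, -29, 0, 20, -4, -31⟩, (.cons (nat_lit 501) (nat_lit 320) (nat_lit 659) (nat_lit 1) (.cons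
 (nat_lit 830) (nat_lit 174) (nat_lit 35) (nat_lit 1) .nil)), (nat_lit 1), (nat_lit 20), (nat_lit 38), (nat_lit
 1), (2, 16, 30), [881, 1748], 8⟩,
  ⟨⟨-9, 8, -31, -10, -29, 0, 20, -4, -31⟩, (.cons (nat_lit 501) (nat_lit 320) (nat_lit 659) (nat_lit 1) (.cons
 (nat_lit 830) (nat_lit 174) (nat_lit 35) (nat_lit 1) .nil)), (nat_lit 1), (nat_lit 20), (nat_lit 38), (nat_lit
 1), (2, 16, 30), [881, 1748], 8⟩,
  ⟨⟨29, -12, 0, -10, -29, 0, 20, -4, -31⟩, (.cons (nat_lit 417) (nat_lit 102) (nat_lit 934) (nat_lit 1) (.cons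
 (nat_lit 5040) (nat_lit 781) (nat_lit 1528) (nat_lit 1) .nil)), (nat_lit 42), (nat_lit 23), (nat_lit 38),
 (nat_lit 1), (28, 16, 30), [288, 1460], 8⟩,
  ⟨⟨-9, 8, -31, -10, -29, 0, 20, -4, -31⟩, (.cons (nat_lit 501) (nat_lit 320) (nat_lit 659) (nat_lit 1) (.cons
 (nat_lit 830) (nat_lit 174) (nat_lit 35) (nat_lit 1) .nil)), (nat_lit 1), (nat_lit 20), (nat_lit 38), (nat_lit
 1), (2, 16, 30), [881, 1748], 8⟩,
  ⟨⟨29, -12, 0, -10, -29, 0, 20, -4, -31⟩, (.cons (nat_lit 417) (nat_lit 102) (nat_lit 934) (nat_lit 1) (.cons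
 (nat_lit 5040) (nat_lit 781) (nat_lit 1528) (nat_lit 1) .nil)), (nat_lit 42), (nat_lit 23), (nat_lit 38),
 (nat_lit 1), (28, 16, 30), [288, 1460], 8⟩,
  ⟨⟨-9, 8, -31, -10, -29, 0, 20, -4, -31⟩, (.cons (nat_lit 501) (nat_lit 320) (nat_lit 659) (nat_lit 1) (.cons
 (nat_lit 830) (nat_lit 174) (nat_lit 35) (nat_lit 1) .nil)), (nat_lit 1), (nat_lit 20), (nat_lit 38), (nat_lit
 1), (2, 16, 30), [881, 1748], 8⟩,
  ⟨⟨29, -12, 0, 10, 29, 0, 20, -4, -31⟩, (.cons (nat_lit 539) (nat_lit 141) (nat_lit 791) (nat_lit 1) (.cons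
 (nat_lit 586) (nat_lit 2307) (nat_lit 4672) (nat_lit 1) .nil)), (nat_lit 31), (nat_lit 11), (nat_lit 28),
 (nat_lit 1), (28, 15, 30), [477, 1860], 30⟩,
  ⟨⟨-9, 8, -31, -10, -29, 0, 20, -4, -31⟩, (.cons (nat_lit 501) (nat_lit 320) (nat_lit 659) (nat_lit 1) (.cons
 (nat_lit 830) (nat_lit 174) (nat_lit 35) (nat_lit 1) .nil)), (nat_lit 1), (nat_lit 20), (nat_lit 38), (nat_lit
 1), (2, 16, 30), [881, 1748], 8⟩,
  ⟨⟨-9, 8, -31, -10, -29, 0, 20, -4, -31⟩, (.cons (nat_lit 501) (nat_lit 320) (nat_lit 659) (nat_lit 1) (.cons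
 (nat_lit 830) (nat_lit 174) (nat_lit 35) (nat_lit 1) .nil)), (nat_lit 1), (nat_lit 20), (nat_lit 38), (nat_lit
 1), (2, 16, 30), [881, 1748], 8⟩,
  ⟨⟨-9, 8, -31, -10, -29, 0, 20, -4, -31⟩, (.cons (nat_lit 501) (nat_lit 320) (nat_lit 659) (nat_lit 1) (.cons
 (nat_lit 830) (nat_lit 174) (nat_lit 35) (nat_lit 1) .nil)), (nat_lit 1), (nat_lit 20), (nat_lit 38), (nat_lit
 1), (2, 16, 30), [881, 1748], 8⟩,
  ⟨⟨-9, 8, -31, -10, -29, 0, 20, -4, -31⟩, (.cons (nat_lit 501) (nat_lit 320) (nat_lit 659) (nat_lit 1) (.cons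
 (nat_lit 830) (nat_lit 174) (nat_lit 35) (nat_lit 1) .nil)), (nat_lit 1), (nat_lit 20), (nat_lit 38), (nat_lit
 1), (2, 16, 30), [881, 1748], 8⟩]

/-- Moves. -/
noncomputable def t1_1 : List Mv := [
  mz,
  ⟨⟨-75, 20, 43, -10, -21, -70, -12, 60, -13⟩, (.cons (nat_lit 811) (nat_lit 700) (nat_lit 191) (nat_lit 1)
 (.cons (nat_lit 2183) (nat_lit 3088) (nat_lit 4696) (nat_lit 1) .nil)), (nat_lit 21), (nat_lit 25), (nat_lit
 38), (nat_lit 1), (51, 21, 11), [21, 1149], 40⟩,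
  mz,
  ⟨⟨-75, -16, 23, 4, -55, 48, -10, -40, -49⟩, (.cons (nat_lit 556) (nat_lit 794) (nat_lit 162) (nat_lit 1)
 (.cons (nat_lit 4556) (nat_lit 4347) (nat_lit 4666) (nat_lit 1) .nil)), (nat_lit 14), (nat_lit 20), (nat_lit
 39), (nat_lit 1), (1, 70, 38), [130, 3644], 34⟩,
  ⟨⟨27, 68, 16, 64, -15, -62, -6, 48, -43⟩, (.cons (nat_lit 889) (nat_lit 785) (nat_lit 118) (nat_lit 1) (.cons
 (nat_lit 4658) (nat_lit 1186) (nat_lit 3642) (nat_lit 1) .nil)), (nat_lit 29), (nat_lit 5), (nat_lit 26),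
 (nat_lit 1), (60, 16, 34), [47, 342], 10⟩,
  ⟨⟨-33, 20, -59, -64, -15, 62, -6, -48, -43⟩, (.cons (nat_lit 747) (nat_lit 912) (nat_lit 542) (nat_lit 1)
 (.cons (nat_lit 828) (nat_lit 2296) (nat_lit 4968) (nat_lit 1) .nil)), (nat_lit 40), (nat_lit 3), (nat_lit
 40), (nat_lit 1), (23, 36, 30), [643, 2958], 4⟩,
  mz,
  ⟨⟨-29, 72, 20, 56, 25, -68, -38, 16, -35⟩, (.cons (nat_lit 336) (nat_lit 147) (nat_lit 813) (nat_lit 1)
 (.cons (nat_lit 4898) (nat_lit 188) (nat_lit 3186) (nat_lit 1) .nil)), (nat_lit 8), (nat_lit 7), (nat_lit 1),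
 (nat_lit 1), (33, 44, 31), [180, 768], 28⟩,
  ⟨⟨3, 40, -76, 64, 25, -12, 26, -32, -67⟩, (.cons (nat_lit 409) (nat_lit 420) (nat_lit 950) (nat_lit 1) (.cons
 (nat_lit 4214) (nat_lit 2664) (nat_lit 2164) (nat_lit 1) .nil)), (nat_lit 27), (nat_lit 26), (nat_lit 16),
 (nat_lit 1), (14, 62, 3), [528, 1181], 30⟩,
  mz,
  mz,
  ⟨⟨33, -20, -92, 64, 15, -2, 6, 48, -49⟩, (.cons (nat_lit 207) (nat_lit 862) (nat_lit 376) (nat_lit 1) (.cons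
 (nat_lit 3059) (nat_lit 1467) (nat_lit 959) (nat_lit 1) .nil)), (nat_lit 17), (nat_lit 1), (nat_lit 20),
 (nat_lit 1), (67, 3, 38), [525, 2396], 41⟩,
  ⟨⟨-51, -52, -5, 44, -15, -82, -42, 24, -25⟩, (.cons (nat_lit 238) (nat_lit 130) (nat_lit 739) (nat_lit 1)
 (.cons (nat_lit 2231) (nat_lit 111) (nat_lit 2420) (nat_lit 1) .nil)), (nat_lit 14), (nat_lit 1), (nat_lit
 42), (nat_lit 1), (61, 49, 21), [192, 4257], 10⟩,
  mz,
  mz,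
  ⟨⟨-9, 76, -11, -44, -15, -38, 42, 24, -67⟩, (.cons (nat_lit 646) (nat_lit 174) (nat_lit 607) (nat_lit 1)
 (.cons (nat_lit 2322) (nat_lit 2751) (nat_lit 2508) (nat_lit 1) .nil)), (nat_lit 14), (nat_lit 42), (nat_lit
 1), (nat_lit 1), (25, 67, 49), [457, 1098], 10⟩,
  ⟨⟨17, 24, -89, -36, -55, -12, 54, -24, -53⟩, (.cons (nat_lit 29) (nat_lit 144) (nat_lit 16) (nat_lit 1)
 (.cons (nat_lit 2888) (nat_lit 4686) (nat_lit 1661) (nat_lit 1) .nil)), (nat_lit 1), (nat_lit 20), (nat_lit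
 32), (nat_lit 1), (7, 52, 64), [77, 2295], 4⟩,
  mz,
  ⟨⟨9, 56, -64, 56, 25, 12, 38, -16, -73⟩, (.cons (nat_lit 812) (nat_lit 72) (nat_lit 344) (nat_lit 1) (.cons
 (nat_lit 4338) (nat_lit 3929) (nat_lit 458) (nat_lit 1) .nil)), (nat_lit 27), (nat_lit 6), (nat_lit 12),
 (nat_lit 1), (56, 25, 55), [94, 4493], 30⟩,
  ⟨⟨-61, -48, 25, -44, 55, 32, -22, -8, -55⟩, (.cons (nat_lit 432) (nat_lit 609) (nat_lit 319) (nat_lit 1)
 (.cons (nat_lit 885) (nat_lit 3698) (nat_lit 1119) (nat_lit 1) .nil)), (nat_lit 37), (nat_lit 37), (nat_lit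
 27), (nat_lit 1), (9, 3, 37), [873, 1484], 25⟩,
  mz,
  mz,
  ⟨⟨17, -24, 72, -36, 55, 48, 54, 24, -1⟩, (.cons (nat_lit 960) (nat_lit 536) (nat_lit 608) (nat_lit 1) (.cons
 (nat_lit 4330) (nat_lit 4166) (nat_lit 1804) (nat_lit 1) .nil)), (nat_lit 42), (nat_lit 20), (nat_lit 11),
 (nat_lit 1), (28, 66, 43), [122, 44], 39⟩,
  ⟨⟨-61, 48, 25, 44, 55, -32, -22, 8, -55⟩, (.cons (nat_lit 163) (nat_lit 228) (nat_lit 270) (nat_lit 1) (.cons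
 (nat_lit 3039) (nat_lit 4132) (nat_lit 952) (nat_lit 1) .nil)), (nat_lit 7), (nat_lit 1), (nat_lit 17),
 (nat_lit 1), (13, 43, 14), [870, 1355], 21⟩,
  ⟨⟨-39, 40, -41, -44, -55, 12, 22, -8, -77⟩, (.cons (nat_lit 289) (nat_lit 958) (nat_lit 210) (nat_lit 1)
 (.cons (nat_lit 1966) (nat_lit 1628) (nat_lit 4285) (nat_lit 1) .nil)), (nat_lit 1), (nat_lit 35), (nat_lit
 42), (nat_lit 1), (2, 15, 28), [99, 2311], 24⟩,
  mz,
  ⟨⟨9, 16, -89, -10, 69, 20, 60, 12, -49⟩, (.cons (nat_lit 722) (nat_lit 465) (nat_lit 47) (nat_lit 1) (.cons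
 (nat_lit 2837) (nat_lit 4579) (nat_lit 1500) (nat_lit 1) .nil)), (nat_lit 1), (nat_lit 21), (nat_lit 14),
 (nat_lit 1), (44, 30, 33), [639, 179], 9⟩,
  mz,
  mz,
  ⟨⟨-13, -72, 36, -70, 11, 30, -4, -44, -49⟩, (.cons (nat_lit 514) (nat_lit 882) (nat_lit 614) (nat_lit 1)
 (.cons (nat_lit 2555) (nat_lit 103) (nat_lit 3441) (nat_lit 1) .nil)), (nat_lit 25), (nat_lit 4), (nat_lit 4),
 (nat_lit 1), (29, 36, 69), [639, 1002], 37⟩,
  mz,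
  ⟨⟨-33, -68, -4, -50, 11, 80, -44, 4, -29⟩, (.cons (nat_lit 111) (nat_lit 59) (nat_lit 586) (nat_lit 1) (.cons
 (nat_lit 2984) (nat_lit 3737) (nat_lit 3999) (nat_lit 1) .nil)), (nat_lit 25), (nat_lit 23), (nat_lit 25),
 (nat_lit 1), (61, 58, 34), [794, 245], 37⟩,
  mz,
  ⟨⟨-29, -72, 20, 56, -25, -68, -38, -16, -35⟩, (.cons (nat_lit 725) (nat_lit 636) (nat_lit 203) (nat_lit 1)
 (.cons (nat_lit 1527) (nat_lit 1751) (nat_lit 4229) (nat_lit 1) .nil)), (nat_lit 33), (nat_lit 8), (nat_lit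
 17), (nat_lit 1), (27, 36, 6), [108, 3264], 3⟩,
  ⟨⟨75, 20, -32, -10, 21, 80, 12, 60, -25⟩, (.cons (nat_lit 960) (nat_lit 452) (nat_lit 534) (nat_lit 1) (.cons
 (nat_lit 4579) (nat_lit 1145) (nat_lit 2509) (nat_lit 1) .nil)), (nat_lit 42), (nat_lit 17), (nat_lit 37),
 (nat_lit 1), (30, 67, 19), [647, 4938], 10⟩,
  mz,
  ⟨⟨3, -40, -76, 64, -25, -12, 26, 32, -67⟩, (.cons (nat_lit 410) (nat_lit 360) (nat_lit 334) (nat_lit 1)
 (.cons (nat_lit 554) (nat_lit 3966) (nat_lit 2625) (nat_lit 1) .nil)), (nat_lit 33), (nat_lit 42), (nat_lit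
 36), (nat_lit 1), (58, 54, 53), [197, 531], 3⟩,
  mz,
  ⟨⟨17, -24, -89, -36, 55, -12, 54, 24, -53⟩, (.cons (nat_lit 761) (nat_lit 261) (nat_lit 150) (nat_lit 1)
 (.cons (nat_lit 4185) (nat_lit 5006) (nat_lit 4447) (nat_lit 1) .nil)), (nat_lit 16), (nat_lit 39), (nat_lit
 18), (nat_lit 1), (5, 27, 66), [738, 3559], 13⟩,
  ⟨⟨-23, -72, 32, 64, -25, -52, -26, -32, -41⟩, (.cons (nat_lit 753) (nat_lit 264) (nat_lit 30) (nat_lit 1)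
 (.cons (nat_lit 4464) (nat_lit 2391) (nat_lit 1952) (nat_lit 1) .nil)), (nat_lit 30), (nat_lit 25), (nat_lit
 37), (nat_lit 1), (21, 28, 33), [488, 4884], 34⟩,
  mz,
  mz,
  ⟨⟨-65, 24, -7, -4, 55, 52, 10, 40, -59⟩, (.cons (nat_lit 274) (nat_lit 184) (nat_lit 147) (nat_lit 1) (.cons
 (nat_lit 4971) (nat_lit 535) (nat_lit 2015) (nat_lit 1) .nil)), (nat_lit 1), (nat_lit 25), (nat_lit 15),
 (nat_lit 1), (43, 66, 48), [865, 679], 20⟩,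
  ⟨⟨11, -72, -36, 50, -11, 30, 44, -4, -73⟩, (.cons (nat_lit 355) (nat_lit 628) (nat_lit 488) (nat_lit 1)
 (.cons (nat_lit 1061) (nat_lit 4269) (nat_lit 1309) (nat_lit 1) .nil)), (nat_lit 38), (nat_lit 42), (nat_lit
 32), (nat_lit 1), (69, 49, 63), [724, 1632], 18⟩,
  ⟨⟨-39, -40, -41, 44, -55, -12, 22, 8, -77⟩, (.cons (nat_lit 599) (nat_lit 260) (nat_lit 149) (nat_lit 1)
 (.cons (nat_lit 3645) (nat_lit 3408) (nat_lit 2591) (nat_lit 1) .nil)), (nat_lit 1), (nat_lit 5), (nat_lit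
 36), (nat_lit 1), (46, 10, 5), [874, 4733], 24⟩,
  mz,
  ⟨⟨51, 52, -56, -44, 15, -38, 42, -24, -67⟩, (.cons (nat_lit 858) (nat_lit 467) (nat_lit 732) (nat_lit 1)
 (.cons (nat_lit 41) (nat_lit 2210) (nat_lit 3118) (nat_lit 1) .nil)), (nat_lit 17), (nat_lit 29), (nat_lit
 17), (nat_lit 1), (52, 15, 47), [494, 4733], 41⟩,
  ⟨⟨9, -16, 80, 10, 69, 10, 60, -12, -11⟩, (.cons (nat_lit 845) (nat_lit 910) (nat_lit 1) (nat_lit 155) (.cons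
 (nat_lit 1300) (nat_lit 2298) (nat_lit 2964) (nat_lit 1) .nil)), (nat_lit 32), (nat_lit 10), (nat_lit 2),
 (nat_lit 1), (33, 13, 7), [595, 4622], 8⟩,
  ⟨⟨51, 4, 40, 10, 69, -20, 60, -12, -49⟩, (.cons (nat_lit 960) (nat_lit 242) (nat_lit 249) (nat_lit 1) (.cons
 (nat_lit 3825) (nat_lit 712) (nat_lit 4282) (nat_lit 1) .nil)), (nat_lit 42), (nat_lit 27), (nat_lit 13),
 (nat_lit 1), (13, 29, 32), [17, 195], 9⟩,
  ⟨⟨9, -56, -64, -56, 25, -12, 38, 16, -73⟩, (.cons (nat_lit 124) (nat_lit 645) (nat_lit 79) (nat_lit 1) (.cons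
 (nat_lit 1617) (nat_lit 4009) (nat_lit 3515) (nat_lit 1) .nil)), (nat_lit 8), (nat_lit 36), (nat_lit 42),
 (nat_lit 1), (4, 54, 9), [515, 4618], 28⟩,
  ⟨⟨-75, 16, 23, 4, 55, 48, -10, 40, -49⟩, (.cons (nat_lit 719) (nat_lit 322) (nat_lit 17) (nat_lit 1) (.cons
 (nat_lit 1533) (nat_lit 4938) (nat_lit 1) (nat_lit 3195) .nil)), (nat_lit 1), (nat_lit 18), (nat_lit 28),
 (nat_lit 1), (26, 45, 65), [667, 3227], 20⟩,
  ⟨⟨9, -76, -20, 44, 15, -82, -42, -24, -25⟩, (.cons (nat_lit 549) (nat_lit 866) (nat_lit 272) (nat_lit 1)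
 (.cons (nat_lit 4198) (nat_lit 2702) (nat_lit 3885) (nat_lit 1) .nil)), (nat_lit 17), (nat_lit 14), (nat_lit
 26), (nat_lit 1), (1, 68, 19), [331, 2751], 41⟩,
  mz,
  ⟨⟨13, -72, 23, 70, 11, -40, 4, -44, -53⟩, (.cons (nat_lit 560) (nat_lit 376) (nat_lit 415) (nat_lit 1) (.cons
 (nat_lit 4841) (nat_lit 1750) (nat_lit 2908) (nat_lit 1) .nil)), (nat_lit 18), (nat_lit 4), (nat_lit 39),
 (nat_lit 1), (14, 59, 48), [73, 2831], 37⟩,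
  ⟨⟨51, -4, -91, -10, 69, -10, 60, 12, -11⟩, (.cons (nat_lit 584) (nat_lit 615) (nat_lit 703) (nat_lit 1)
 (.cons (nat_lit 4279) (nat_lit 1136) (nat_lit 2909) (nat_lit 1) .nil)), (nat_lit 4), (nat_lit 3), (nat_lit 8),
 (nat_lit 1), (21, 46, 8), [869, 1510], 42⟩,
  ⟨⟨75, -20, -32, 10, 21, -80, 12, -60, -25⟩, (.cons (nat_lit 960) (nat_lit 404) (nat_lit 322) (nat_lit 1)
 (.cons (nat_lit 2260) (nat_lit 1735) (nat_lit 409) (nat_lit 1) .nil)), (nat_lit 42), (nat_lit 13), (nat_lit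
 12), (nat_lit 1), (52, 59, 14), [148, 1615], 10⟩,
  mz,
  ⟨⟨-11, -72, -25, 50, 11, -80, -44, -4, -29⟩, (.cons (nat_lit 327) (nat_lit 68) (nat_lit 284) (nat_lit 1)
 (.cons (nat_lit 4149) (nat_lit 3936) (nat_lit 2726) (nat_lit 1) .nil)), (nat_lit 12), (nat_lit 5), (nat_lit
 38), (nat_lit 1), (38, 8, 10), [613, 3180], 39⟩,
  ⟨⟨-75, -20, 43, -10, 21, -70, -12, -60, -13⟩, (.cons (nat_lit 111) (nat_lit 423) (nat_lit 862) (nat_lit 1)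
 (.cons (nat_lit 2500) (nat_lit 553) (nat_lit 252) (nat_lit 1) .nil)), (nat_lit 1), (nat_lit 13), (nat_lit 31),
 (nat_lit 1), (2, 5, 6), [126, 4292], 10⟩,
  mz,
  mz,
  mz,
  ⟨⟨11, 72, -36, -50, -11, -30, 44, 4, -73⟩, (.cons (nat_lit 103) (nat_lit 859) (nat_lit 291) (nat_lit 1)
 (.cons (nat_lit 3262) (nat_lit 109) (nat_lit 4632) (nat_lit 1) .nil)), (nat_lit 17), (nat_lit 32), (nat_lit
 12), (nat_lit 1), (4, 27, 16), [426, 2567], 42⟩,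
  mz,
  ⟨⟨9, -28, -85, 70, 11, -30, -4, 44, -49⟩, (.cons (nat_lit 295) (nat_lit 648) (nat_lit 306) (nat_lit 1) (.cons
 (nat_lit 1898) (nat_lit 1290) (nat_lit 4564) (nat_lit 1) .nil)), (nat_lit 12), (nat_lit 18), (nat_lit 1),
 (nat_lit 1), (14, 30, 49), [956, 2815], 39⟩,
  ⟨⟨75, -16, -52, 4, 55, -52, 10, -40, -59⟩, (.cons (nat_lit 960) (nat_lit 138) (nat_lit 189) (nat_lit 1)
 (.cons (nat_lit 321) (nat_lit 2803) (nat_lit 1402) (nat_lit 1) .nil)), (nat_lit 42), (nat_lit 32), (nat_lit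
 38), (nat_lit 1), (51, 51, 21), [46, 2546], 20⟩,
  mz,
  ⟨⟨33, 20, -92, 64, -15, -2, 6, -48, -49⟩, (.cons (nat_lit 685) (nat_lit 226) (nat_lit 529) (nat_lit 1) (.cons
 (nat_lit 267) (nat_lit 40) (nat_lit 5010) (nat_lit 1) .nil)), (nat_lit 3), (nat_lit 3), (nat_lit 3), (nat_lit
 1), (45, 55, 34), [764, 1507], 4⟩,
  ⟨⟨13, 72, 23, 70, -11, -40, 4, 44, -53⟩, (.cons (nat_lit 821) (nat_lit 493) (nat_lit 579) (nat_lit 1) (.cons
 (nat_lit 5039) (nat_lit 856) (nat_lit 4397) (nat_lit 1) .nil)), (nat_lit 26), (nat_lit 17), (nat_lit 28),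
 (nat_lit 1), (20, 64, 28), [423, 1793], 42⟩,
  ⟨⟨-3, -40, -73, 64, 25, -52, -26, 32, -41⟩, (.cons (nat_lit 919) (nat_lit 671) (nat_lit 698) (nat_lit 1)
 (.cons (nat_lit 3051) (nat_lit 2586) (nat_lit 1293) (nat_lit 1) .nil)), (nat_lit 35), (nat_lit 5), (nat_lit
 33), (nat_lit 1), (56, 36, 12), [34, 3505], 28⟩,
  ⟨⟨37, -48, -73, -36, -55, 48, 54, -24, -1⟩, (.cons (nat_lit 284) (nat_lit 169) (nat_lit 865) (nat_lit 1)
 (.cons (nat_lit 2076) (nat_lit 491) (nat_lit 2455) (nat_lit 1) .nil)), (nat_lit 16), (nat_lit 4), (nat_lit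
 25), (nat_lit 1), (11, 20, 41), [352, 3571], 30⟩]

/-- Moves. -/
noncomputable def t1_4 : List Mv := [
  mz,
  ⟨⟨63, 40, -56, -10, -21, -70, -12, 60, -13⟩, (.cons (nat_lit 17) (nat_lit 677) (nat_lit 831) (nat_lit 1)
 (.cons (nat_lit 129) (nat_lit 1046) (nat_lit 1) (nat_lit 0) .nil)), (nat_lit 22), (nat_lit 18), (nat_lit 38),
 (nat_lit 1), (31, 21, 11), [534, 3995], 40⟩,
  mz,
  ⟨⟨65, -24, -72, -4, 55, -48, -10, -40, -49⟩, (.cons (nat_lit 960) (nat_lit 859) (nat_lit 243) (nat_lit 1)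
 (.cons (nat_lit 1440) (nat_lit 3833) (nat_lit 2184) (nat_lit 1) .nil)), (nat_lit 42), (nat_lit 11), (nat_lit
 5), (nat_lit 1), (37, 1, 38), [817, 1772], 20⟩,
  ⟨⟨27, 68, 16, 64, -15, -62, -6, 48, -43⟩, (.cons (nat_lit 889) (nat_lit 785) (nat_lit 118) (nat_lit 1) (.cons
 (nat_lit 4658) (nat_lit 1186) (nat_lit 3642) (nat_lit 1) .nil)), (nat_lit 29), (nat_lit 5), (nat_lit 26),
 (nat_lit 1), (60, 16, 34), [47, 342], 10⟩,
  ⟨⟨-33, 20, -59, -64, -15, 62, -6, -48, -43⟩, (.cons (nat_lit 747) (nat_lit 912) (nat_lit 542) (nat_lit 1)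
 (.cons (nat_lit 828) (nat_lit 2296) (nat_lit 4968) (nat_lit 1) .nil)), (nat_lit 40), (nat_lit 3), (nat_lit
 40), (nat_lit 1), (23, 36, 30), [643, 2958], 4⟩,
  mz,
  ⟨⟨-29, 72, 20, -56, -25, 68, -38, 16, -35⟩, (.cons (nat_lit 443) (nat_lit 46) (nat_lit 32) (nat_lit 1) (.cons
 (nat_lit 2087) (nat_lit 2926) (nat_lit 1263) (nat_lit 1) .nil)), (nat_lit 30), (nat_lit 30), (nat_lit 38),
 (nat_lit 1), (33, 27, 31), [23, 3439], 34⟩,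
  ⟨⟨23, -72, 9, 64, 25, -12, 26, -32, -67⟩, (.cons (nat_lit 851) (nat_lit 694) (nat_lit 401) (nat_lit 1) (.cons
 (nat_lit 3301) (nat_lit 620) (nat_lit 2506) (nat_lit 1) .nil)), (nat_lit 16), (nat_lit 17), (nat_lit 16),
 (nat_lit 1), (60, 62, 3), [836, 2832], 30⟩,
  mz,
  mz,
  ⟨⟨-27, 68, 43, 64, 15, -2, 6, 48, -49⟩, (.cons (nat_lit 909) (nat_lit 659) (nat_lit 26) (nat_lit 1) (.cons
 (nat_lit 1095) (nat_lit 3789) (nat_lit 3694) (nat_lit 1) .nil)), (nat_lit 26), (nat_lit 42), (nat_lit 20),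
 (nat_lit 1), (42, 3, 38), [264, 3386], 41⟩,
  ⟨⟨9, 76, -20, 44, -15, -82, -42, 24, -25⟩, (.cons (nat_lit 672) (nat_lit 927) (nat_lit 82) (nat_lit 1) (.cons
 (nat_lit 2203) (nat_lit 4103) (nat_lit 2733) (nat_lit 1) .nil)), (nat_lit 29), (nat_lit 42), (nat_lit 42),
 (nat_lit 1), (31, 49, 21), [605, 4929], 10⟩,
  mz,
  mz,
  ⟨⟨-9, 76, -11, 44, 15, 38, 42, 24, -67⟩, (.cons (nat_lit 462) (nat_lit 179) (nat_lit 481) (nat_lit 1) (.cons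
 (nat_lit 4942) (nat_lit 2411) (nat_lit 3399) (nat_lit 1) .nil)), (nat_lit 5), (nat_lit 5), (nat_lit 29),
 (nat_lit 1), (25, 4, 49), [20, 1578], 36⟩,
  ⟨⟨17, 24, -89, -36, -55, -12, 54, -24, -53⟩, (.cons (nat_lit 29) (nat_lit 144) (nat_lit 16) (nat_lit 1)
 (.cons (nat_lit 2888) (nat_lit 4686) (nat_lit 1661) (nat_lit 1) .nil)), (nat_lit 1), (nat_lit 20), (nat_lit
 32), (nat_lit 1), (7, 52, 64), [77, 2295], 4⟩,
  mz,
  ⟨⟨9, 56, -64, -56, -25, -12, 38, -16, -73⟩, (.cons (nat_lit 596) (nat_lit 260) (nat_lit 379) (nat_lit 1)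
 (.cons (nat_lit 3600) (nat_lit 115) (nat_lit 2053) (nat_lit 1) .nil)), (nat_lit 33), (nat_lit 35), (nat_lit
 26), (nat_lit 1), (56, 46, 55), [228, 609], 3⟩,
  ⟨⟨-61, -48, 25, 44, -55, -32, -22, -8, -55⟩, (.cons (nat_lit 276) (nat_lit 828) (nat_lit 661) (nat_lit 1)
 (.cons (nat_lit 2149) (nat_lit 4607) (nat_lit 2684) (nat_lit 1) .nil)), (nat_lit 1), (nat_lit 8), (nat_lit 1),
 (nat_lit 1), (9, 68, 37), [457, 2507], 24⟩,
  mz,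
  mz,
  ⟨⟨37, 48, -73, -36, 55, 48, 54, 24, -1⟩, (.cons (nat_lit 232) (nat_lit 227) (nat_lit 132) (nat_lit 1) (.cons
 (nat_lit 2163) (nat_lit 1758) (nat_lit 3450) (nat_lit 1) .nil)), (nat_lit 1), (nat_lit 23), (nat_lit 11),
 (nat_lit 1), (15, 66, 43), [345, 1386], 39⟩,
  ⟨⟨39, -40, -80, 44, 55, -32, -22, 8, -55⟩, (.cons (nat_lit 628) (nat_lit 437) (nat_lit 173) (nat_lit 1)
 (.cons (nat_lit 2564) (nat_lit 1734) (nat_lit 3102) (nat_lit 1) .nil)), (nat_lit 36), (nat_lit 42), (nat_lit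
 17), (nat_lit 1), (1, 43, 14), [104, 2598], 21⟩,
  ⟨⟨-39, 40, -41, 44, 55, -12, 22, -8, -77⟩, (.cons (nat_lit 283) (nat_lit 824) (nat_lit 470) (nat_lit 1)
 (.cons (nat_lit 2593) (nat_lit 4782) (nat_lit 1471) (nat_lit 1) .nil)), (nat_lit 37), (nat_lit 6), (nat_lit
 16), (nat_lit 1), (2, 56, 28), [125, 466], 25⟩,
  mz,
  ⟨⟨51, -4, 40, 10, -69, -20, 60, 12, -49⟩, (.cons (nat_lit 750) (nat_lit 415) (nat_lit 1) (nat_lit 0) (.cons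
 (nat_lit 4832) (nat_lit 4434) (nat_lit 3130) (nat_lit 1) .nil)), (nat_lit 32), (nat_lit 33), (nat_lit 41),
 (nat_lit 1), (60, 41, 33), [326, 4285], 35⟩,
  mz,
  mz,
  ⟨⟨-13, -72, 36, 70, -11, -30, -4, -44, -49⟩, (.cons (nat_lit 28) (nat_lit 934) (nat_lit 501) (nat_lit 1)
 (.cons (nat_lit 1837) (nat_lit 1195) (nat_lit 1) (nat_lit 3195) .nil)), (nat_lit 38), (nat_lit 31), (nat_lit
 17), (nat_lit 1), (29, 35, 69), [517, 4745], 18⟩,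
  mz,
  ⟨⟨-11, 72, -25, 50, -11, -80, -44, 4, -29⟩, (.cons (nat_lit 790) (nat_lit 212) (nat_lit 304) (nat_lit 1)
 (.cons (nat_lit 1101) (nat_lit 3638) (nat_lit 3681) (nat_lit 1) .nil)), (nat_lit 26), (nat_lit 32), (nat_lit
 31), (nat_lit 1), (44, 13, 34), [826, 3560], 42⟩,
  mz,
  ⟨⟨-9, 56, -55, -56, 25, 68, -38, -16, -35⟩, (.cons (nat_lit 572) (nat_lit 588) (nat_lit 520) (nat_lit 1)
 (.cons (nat_lit 1281) (nat_lit 1539) (nat_lit 318) (nat_lit 1) .nil)), (nat_lit 16), (nat_lit 6), (nat_lit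
 31), (nat_lit 1), (50, 35, 6), [681, 4185], 30⟩,
  ⟨⟨75, 20, -32, 10, -21, -80, 12, 60, -25⟩, (.cons (nat_lit 172) (nat_lit 307) (nat_lit 486) (nat_lit 1)
 (.cons (nat_lit 3179) (nat_lit 4361) (nat_lit 427) (nat_lit 1) .nil)), (nat_lit 22), (nat_lit 25), (nat_lit
 5), (nat_lit 1), (30, 4, 19), [441, 1161], 40⟩,
  mz,
  ⟨⟨3, -40, -76, 64, -25, -12, 26, 32, -67⟩, (.cons (nat_lit 410) (nat_lit 360) (nat_lit 334) (nat_lit 1)
 (.cons (nat_lit 554) (nat_lit 3966) (nat_lit 2625) (nat_lit 1) .nil)), (nat_lit 33), (nat_lit 42), (nat_lit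
 36), (nat_lit 1), (58, 54, 53), [197, 531], 3⟩,
  mz,
  ⟨⟨17, -24, -89, -36, 55, -12, 54, 24, -53⟩, (.cons (nat_lit 761) (nat_lit 261) (nat_lit 150) (nat_lit 1)
 (.cons (nat_lit 4185) (nat_lit 5006) (nat_lit 4447) (nat_lit 1) .nil)), (nat_lit 16), (nat_lit 39), (nat_lit
 18), (nat_lit 1), (5, 27, 66), [738, 3559], 13⟩,
  ⟨⟨-23, -72, 32, -64, 25, 52, -26, -32, -41⟩, (.cons (nat_lit 888) (nat_lit 957) (nat_lit 1) (nat_lit 558)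
 (.cons (nat_lit 1508) (nat_lit 1801) (nat_lit 2694) (nat_lit 1) .nil)), (nat_lit 27), (nat_lit 17), (nat_lit
 27), (nat_lit 1), (21, 43, 33), [780, 4097], 30⟩,
  mz,
  mz,
  ⟨⟨75, 16, -52, 4, -55, -52, 10, 40, -59⟩, (.cons (nat_lit 804) (nat_lit 845) (nat_lit 297) (nat_lit 1) (.cons
 (nat_lit 4002) (nat_lit 1655) (nat_lit 398) (nat_lit 1) .nil)), (nat_lit 3), (nat_lit 26), (nat_lit 31),
 (nat_lit 1), (5, 5, 48), [732, 642], 5⟩,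
  ⟨⟨11, -72, -36, -50, 11, -30, 44, -4, -73⟩, (.cons (nat_lit 918) (nat_lit 447) (nat_lit 455) (nat_lit 1)
 (.cons (nat_lit 4386) (nat_lit 3651) (nat_lit 2553) (nat_lit 1) .nil)), (nat_lit 31), (nat_lit 5), (nat_lit
 5), (nat_lit 1), (69, 22, 63), [442, 4192], 39⟩,
  ⟨⟨61, 48, -36, -44, 55, 12, 22, 8, -77⟩, (.cons (nat_lit 380) (nat_lit 939) (nat_lit 471) (nat_lit 1) (.cons
 (nat_lit 237) (nat_lit 4212) (nat_lit 1) (nat_lit 3053) .nil)), (nat_lit 36), (nat_lit 1), (nat_lit 26),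
 (nat_lit 1), (30, 61, 5), [352, 1514], 21⟩,
  mz,
  ⟨⟨51, 52, -56, 44, -15, 38, 42, -24, -67⟩, (.cons (nat_lit 654) (nat_lit 745) (nat_lit 669) (nat_lit 1)
 (.cons (nat_lit 3954) (nat_lit 2515) (nat_lit 1734) (nat_lit 1) .nil)), (nat_lit 3), (nat_lit 28), (nat_lit
 8), (nat_lit 1), (52, 56, 47), [454, 3409], 4⟩,
  ⟨⟨9, -16, 80, -10, -69, -10, 60, -12, -11⟩, (.cons (nat_lit 960) (nat_lit 543) (nat_lit 732) (nat_lit 1)
 (.cons (nat_lit 3883) (nat_lit 2036) (nat_lit 2551) (nat_lit 1) .nil)), (nat_lit 42), (nat_lit 21), (nat_lit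
 29), (nat_lit 1), (33, 58, 7), [820, 2277], 34⟩,
  ⟨⟨9, -16, -89, -10, -69, 20, 60, -12, -49⟩, (.cons (nat_lit 447) (nat_lit 13) (nat_lit 739) (nat_lit 1)
 (.cons (nat_lit 3729) (nat_lit 1199) (nat_lit 1664) (nat_lit 1) .nil)), (nat_lit 4), (nat_lit 40), (nat_lit
 35), (nat_lit 1), (19, 42, 32), [724, 212], 1⟩,
  ⟨⟨9, -56, -64, -56, 25, -12, 38, 16, -73⟩, (.cons (nat_lit 124) (nat_lit 645) (nat_lit 79) (nat_lit 1) (.cons
 (nat_lit 1617) (nat_lit 4009) (nat_lit 3515) (nat_lit 1) .nil)), (nat_lit 8), (nat_lit 36), (nat_lit 42),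
 (nat_lit 1), (4, 54, 9), [515, 4618], 28⟩,
  ⟨⟨-75, 16, 23, -4, -55, -48, -10, 40, -49⟩, (.cons (nat_lit 590) (nat_lit 940) (nat_lit 423) (nat_lit 1)
 (.cons (nat_lit 774) (nat_lit 4292) (nat_lit 1859) (nat_lit 1) .nil)), (nat_lit 40), (nat_lit 26), (nat_lit
 12), (nat_lit 1), (26, 26, 65), [117, 3192], 5⟩,
  ⟨⟨9, -76, -20, 44, 15, -82, -42, -24, -25⟩, (.cons (nat_lit 549) (nat_lit 866) (nat_lit 272) (nat_lit 1)
 (.cons (nat_lit 4198) (nat_lit 2702) (nat_lit 3885) (nat_lit 1) .nil)), (nat_lit 17), (nat_lit 14), (nat_lit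
 26), (nat_lit 1), (1, 68, 19), [331, 2751], 41⟩,
  mz,
  ⟨⟨13, -72, 23, 70, 11, -40, 4, -44, -53⟩, (.cons (nat_lit 560) (nat_lit 376) (nat_lit 415) (nat_lit 1) (.cons
 (nat_lit 4841) (nat_lit 1750) (nat_lit 2908) (nat_lit 1) .nil)), (nat_lit 18), (nat_lit 4), (nat_lit 39),
 (nat_lit 1), (14, 59, 48), [73, 2831], 37⟩,
  ⟨⟨9, 16, 80, -10, 69, -10, 60, 12, -11⟩, (.cons (nat_lit 620) (nat_lit 886) (nat_lit 58) (nat_lit 1) (.cons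
 (nat_lit 4177) (nat_lit 2304) (nat_lit 3089) (nat_lit 1) .nil)), (nat_lit 39), (nat_lit 40), (nat_lit 8),
 (nat_lit 1), (58, 46, 8), [778, 28], 42⟩,
  ⟨⟨75, -20, -32, 10, 21, -80, 12, -60, -25⟩, (.cons (nat_lit 960) (nat_lit 404) (nat_lit 322) (nat_lit 1)
 (.cons (nat_lit 2260) (nat_lit 1735) (nat_lit 409) (nat_lit 1) .nil)), (nat_lit 42), (nat_lit 13), (nat_lit
 12), (nat_lit 1), (52, 59, 14), [148, 1615], 10⟩,
  mz,
  ⟨⟨-11, -72, -25, 50, 11, -80, -44, -4, -29⟩, (.cons (nat_lit 327) (nat_lit 68) (nat_lit 284) (nat_lit 1)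
 (.cons (nat_lit 4149) (nat_lit 3936) (nat_lit 2726) (nat_lit 1) .nil)), (nat_lit 12), (nat_lit 5), (nat_lit
 38), (nat_lit 1), (38, 8, 10), [613, 3180], 39⟩,
  ⟨⟨63, -40, -56, 10, -21, 70, -12, -60, -13⟩, (.cons (nat_lit 848) (nat_lit 582) (nat_lit 686) (nat_lit 1)
 (.cons (nat_lit 2697) (nat_lit 3144) (nat_lit 2697) (nat_lit 1) .nil)), (nat_lit 2), (nat_lit 7), (nat_lit
 10), (nat_lit 1), (4, 66, 6), [351, 2291], 31⟩,
  mz,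
  mz,
  mz,
  ⟨⟨11, 72, -36, -50, -11, -30, 44, 4, -73⟩, (.cons (nat_lit 103) (nat_lit 859) (nat_lit 291) (nat_lit 1)
 (.cons (nat_lit 3262) (nat_lit 109) (nat_lit 4632) (nat_lit 1) .nil)), (nat_lit 17), (nat_lit 32), (nat_lit
 12), (nat_lit 1), (4, 27, 16), [426, 2567], 42⟩,
  mz,
  ⟨⟨-13, 72, 36, -70, -11, 30, -4, 44, -49⟩, (.cons (nat_lit 268) (nat_lit 832) (nat_lit 873) (nat_lit 1)
 (.cons (nat_lit 3831) (nat_lit 2815) (nat_lit 170) (nat_lit 1) .nil)), (nat_lit 17), (nat_lit 17), (nat_lit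
 15), (nat_lit 1), (35, 41, 49), [866, 865], 42⟩,
  ⟨⟨-65, -24, -7, -4, -55, 52, 10, -40, -59⟩, (.cons (nat_lit 373) (nat_lit 145) (nat_lit 786) (nat_lit 1)
 (.cons (nat_lit 1725) (nat_lit 3750) (nat_lit 1632) (nat_lit 1) .nil)), (nat_lit 14), (nat_lit 23), (nat_lit
 4), (nat_lit 1), (41, 20, 21), [675, 3542], 34⟩,
  mz,
  ⟨⟨-27, -68, 43, 64, -15, -2, 6, -48, -49⟩, (.cons (nat_lit 781) (nat_lit 568) (nat_lit 667) (nat_lit 1)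
 (.cons (nat_lit 4695) (nat_lit 3393) (nat_lit 4644) (nat_lit 1) .nil)), (nat_lit 40), (nat_lit 40), (nat_lit
 3), (nat_lit 1), (60, 55, 34), [673, 4313], 4⟩,
  ⟨⟨-9, -28, -76, 70, -11, -40, 4, 44, -53⟩, (.cons (nat_lit 413) (nat_lit 533) (nat_lit 819) (nat_lit 1)
 (.cons (nat_lit 1931) (nat_lit 4697) (nat_lit 4543) (nat_lit 1) .nil)), (nat_lit 17), (nat_lit 26), (nat_lit
 28), (nat_lit 1), (8, 64, 28), [674, 3028], 42⟩,
  ⟨⟨-23, 72, 32, 64, 25, -52, -26, 32, -41⟩, (.cons (nat_lit 832) (nat_lit 639) (nat_lit 170) (nat_lit 1)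
 (.cons (nat_lit 4155) (nat_lit 2570) (nat_lit 4905) (nat_lit 1) .nil)), (nat_lit 8), (nat_lit 38), (nat_lit
 33), (nat_lit 1), (27, 36, 12), [707, 805], 28⟩,
  ⟨⟨17, 24, 72, 36, 55, -48, 54, -24, -1⟩, (.cons (nat_lit 960) (nat_lit 579) (nat_lit 69) (nat_lit 1) (.cons
 (nat_lit 2263) (nat_lit 3813) (nat_lit 3346) (nat_lit 1) .nil)), (nat_lit 42), (nat_lit 12), (nat_lit 4),
 (nat_lit 1), (30, 51, 41), [681, 2305], 39⟩]

/-- Moves. -/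
noncomputable def t1_6 : List Mv := [
  mz,
  ⟨⟨-75, 20, 43, -10, -21, -70, -12, 60, -13⟩, (.cons (nat_lit 811) (nat_lit 700) (nat_lit 191) (nat_lit 1)
 (.cons (nat_lit 2183) (nat_lit 3088) (nat_lit 4696) (nat_lit 1) .nil)), (nat_lit 21), (nat_lit 25), (nat_lit
 38), (nat_lit 1), (51, 21, 11), [21, 1149], 40⟩,
  mz,
  ⟨⟨65, -24, -72, -4, 55, -48, -10, -40, -49⟩, (.cons (nat_lit 960) (nat_lit 859) (nat_lit 243) (nat_lit 1)
 (.cons (nat_lit 1440) (nat_lit 3833) (nat_lit 2184) (nat_lit 1) .nil)), (nat_lit 42), (nat_lit 11), (nat_lit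
 5), (nat_lit 1), (37, 1, 38), [817, 1772], 20⟩,
  ⟨⟨-33, -20, -59, 64, -15, -62, -6, 48, -43⟩, (.cons (nat_lit 925) (nat_lit 815) (nat_lit 689) (nat_lit 1)
 (.cons (nat_lit 1893) (nat_lit 4515) (nat_lit 1336) (nat_lit 1) .nil)), (nat_lit 14), (nat_lit 38), (nat_lit
 26), (nat_lit 1), (45, 16, 34), [612, 1111], 10⟩,
  ⟨⟨27, -68, 16, 64, 15, -62, -6, -48, -43⟩, (.cons (nat_lit 933) (nat_lit 583) (nat_lit 315) (nat_lit 1)
 (.cons (nat_lit 3930) (nat_lit 94) (nat_lit 1419) (nat_lit 1) .nil)), (nat_lit 38), (nat_lit 16), (nat_lit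
 42), (nat_lit 1), (7, 35, 30), [13, 3431], 36⟩,
  mz,
  ⟨⟨-29, 72, 20, -56, -25, 68, -38, 16, -35⟩, (.cons (nat_lit 443) (nat_lit 46) (nat_lit 32) (nat_lit 1) (.cons
 (nat_lit 2087) (nat_lit 2926) (nat_lit 1263) (nat_lit 1) .nil)), (nat_lit 30), (nat_lit 30), (nat_lit 38),
 (nat_lit 1), (33, 27, 31), [23, 3439], 34⟩,
  ⟨⟨3, 40, -76, 64, 25, -12, 26, -32, -67⟩, (.cons (nat_lit 409) (nat_lit 420) (nat_lit 950) (nat_lit 1) (.cons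
 (nat_lit 4214) (nat_lit 2664) (nat_lit 2164) (nat_lit 1) .nil)), (nat_lit 27), (nat_lit 26), (nat_lit 16),
 (nat_lit 1), (14, 62, 3), [528, 1181], 30⟩,
  mz,
  mz,
  ⟨⟨33, -20, -92, 64, 15, -2, 6, 48, -49⟩, (.cons (nat_lit 207) (nat_lit 862) (nat_lit 376) (nat_lit 1) (.cons
 (nat_lit 3059) (nat_lit 1467) (nat_lit 959) (nat_lit 1) .nil)), (nat_lit 17), (nat_lit 1), (nat_lit 20),
 (nat_lit 1), (67, 3, 38), [525, 2396], 41⟩,
  ⟨⟨-51, -52, -5, 44, -15, -82, -42, 24, -25⟩, (.cons (nat_lit 238) (nat_lit 130) (nat_lit 739) (nat_lit 1)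
 (.cons (nat_lit 2231) (nat_lit 111) (nat_lit 2420) (nat_lit 1) .nil)), (nat_lit 14), (nat_lit 1), (nat_lit
 42), (nat_lit 1), (61, 49, 21), [192, 4257], 10⟩,
  mz,
  mz,
  ⟨⟨51, -52, -56, -44, -15, -38, 42, 24, -67⟩, (.cons (nat_lit 289) (nat_lit 919) (nat_lit 58) (nat_lit 1)
 (.cons (nat_lit 2153) (nat_lit 1733) (nat_lit 1524) (nat_lit 1) .nil)), (nat_lit 29), (nat_lit 1), (nat_lit
 1), (nat_lit 1), (24, 67, 49), [314, 2545], 10⟩,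
  ⟨⟨17, 24, -89, 36, 55, 12, 54, -24, -53⟩, (.cons (nat_lit 335) (nat_lit 84) (nat_lit 447) (nat_lit 1) (.cons
 (nat_lit 3133) (nat_lit 4721) (nat_lit 2760) (nat_lit 1) .nil)), (nat_lit 35), (nat_lit 32), (nat_lit 28),
 (nat_lit 1), (7, 19, 64), [627, 4158], 15⟩,
  mz,
  ⟨⟨29, -72, -9, -56, -25, -12, 38, -16, -73⟩, (.cons (nat_lit 795) (nat_lit 947) (nat_lit 850) (nat_lit 1)
 (.cons (nat_lit 3647) (nat_lit 3360) (nat_lit 4210) (nat_lit 1) .nil)), (nat_lit 10), (nat_lit 8), (nat_lit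
 26), (nat_lit 1), (70, 46, 55), [888, 3093], 3⟩,
  ⟨⟨39, 40, -80, -44, 55, 32, -22, -8, -55⟩, (.cons (nat_lit 531) (nat_lit 515) (nat_lit 393) (nat_lit 1)
 (.cons (nat_lit 3096) (nat_lit 1564) (nat_lit 3237) (nat_lit 1) .nil)), (nat_lit 6), (nat_lit 6), (nat_lit
 27), (nat_lit 1), (28, 3, 37), [951, 3449], 25⟩,
  mz,
  mz,
  ⟨⟨17, -24, 72, 36, -55, -48, 54, 24, -1⟩, (.cons (nat_lit 229) (nat_lit 203) (nat_lit 265) (nat_lit 1) (.cons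
 (nat_lit 808) (nat_lit 4357) (nat_lit 825) (nat_lit 1) .nil)), (nat_lit 8), (nat_lit 32), (nat_lit 15),
 (nat_lit 1), (28, 5, 43), [452, 516], 28⟩,
  ⟨⟨-61, 48, 25, 44, 55, -32, -22, 8, -55⟩, (.cons (nat_lit 163) (nat_lit 228) (nat_lit 270) (nat_lit 1) (.cons
 (nat_lit 3039) (nat_lit 4132) (nat_lit 952) (nat_lit 1) .nil)), (nat_lit 7), (nat_lit 1), (nat_lit 17),
 (nat_lit 1), (13, 43, 14), [870, 1355], 21⟩,
  ⟨⟨-39, 40, -41, 44, 55, -12, 22, -8, -77⟩, (.cons (nat_lit 283) (nat_lit 824) (nat_lit 470) (nat_lit 1)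
 (.cons (nat_lit 2593) (nat_lit 4782) (nat_lit 1471) (nat_lit 1) .nil)), (nat_lit 37), (nat_lit 6), (nat_lit
 16), (nat_lit 1), (2, 56, 28), [125, 466], 25⟩,
  mz,
  ⟨⟨51, -4, 40, 10, -69, -20, 60, 12, -49⟩, (.cons (nat_lit 750) (nat_lit 415) (nat_lit 1) (nat_lit 0) (.cons
 (nat_lit 4832) (nat_lit 4434) (nat_lit 3130) (nat_lit 1) .nil)), (nat_lit 32), (nat_lit 33), (nat_lit 41),
 (nat_lit 1), (60, 41, 33), [326, 4285], 35⟩,
  mz,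
  mz,
  ⟨⟨-13, -72, 36, 70, -11, -30, -4, -44, -49⟩, (.cons (nat_lit 28) (nat_lit 934) (nat_lit 501) (nat_lit 1)
 (.cons (nat_lit 1837) (nat_lit 1195) (nat_lit 1) (nat_lit 3195) .nil)), (nat_lit 38), (nat_lit 31), (nat_lit
 17), (nat_lit 1), (29, 35, 69), [517, 4745], 18⟩,
  mz,
  ⟨⟨-11, 72, -25, -50, 11, 80, -44, 4, -29⟩, (.cons (nat_lit 746) (nat_lit 936) (nat_lit 442) (nat_lit 1)
 (.cons (nat_lit 5028) (nat_lit 4980) (nat_lit 2710) (nat_lit 1) .nil)), (nat_lit 18), (nat_lit 20), (nat_lit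
 25), (nat_lit 1), (44, 58, 34), [476, 1056], 37⟩,
  mz,
  ⟨⟨-9, 56, -55, -56, 25, 68, -38, -16, -35⟩, (.cons (nat_lit 572) (nat_lit 588) (nat_lit 520) (nat_lit 1)
 (.cons (nat_lit 1281) (nat_lit 1539) (nat_lit 318) (nat_lit 1) .nil)), (nat_lit 16), (nat_lit 6), (nat_lit
 31), (nat_lit 1), (50, 35, 6), [681, 4185], 30⟩,
  ⟨⟨75, 20, -32, -10, 21, 80, 12, 60, -25⟩, (.cons (nat_lit 960) (nat_lit 452) (nat_lit 534) (nat_lit 1) (.cons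
 (nat_lit 4579) (nat_lit 1145) (nat_lit 2509) (nat_lit 1) .nil)), (nat_lit 42), (nat_lit 17), (nat_lit 37),
 (nat_lit 1), (30, 67, 19), [647, 4938], 10⟩,
  mz,
  ⟨⟨23, 72, 9, 64, -25, -12, 26, 32, -67⟩, (.cons (nat_lit 814) (nat_lit 51) (nat_lit 837) (nat_lit 1) (.cons
 (nat_lit 3306) (nat_lit 1145) (nat_lit 2722) (nat_lit 1) .nil)), (nat_lit 10), (nat_lit 1), (nat_lit 36),
 (nat_lit 1), (66, 54, 53), [351, 1954], 3⟩,
  mz,
  ⟨⟨17, -24, -89, -36, 55, -12, 54, 24, -53⟩, (.cons (nat_lit 761) (nat_lit 261) (nat_lit 150) (nat_lit 1)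
 (.cons (nat_lit 4185) (nat_lit 5006) (nat_lit 4447) (nat_lit 1) .nil)), (nat_lit 16), (nat_lit 39), (nat_lit
 18), (nat_lit 1), (5, 27, 66), [738, 3559], 13⟩,
  ⟨⟨-23, -72, 32, 64, -25, -52, -26, -32, -41⟩, (.cons (nat_lit 753) (nat_lit 264) (nat_lit 30) (nat_lit 1)
 (.cons (nat_lit 4464) (nat_lit 2391) (nat_lit 1952) (nat_lit 1) .nil)), (nat_lit 30), (nat_lit 25), (nat_lit
 37), (nat_lit 1), (21, 28, 33), [488, 4884], 34⟩,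
  mz,
  mz,
  ⟨⟨-65, 24, -7, 4, -55, -52, 10, 40, -59⟩, (.cons (nat_lit 821) (nat_lit 645) (nat_lit 577) (nat_lit 1) (.cons
 (nat_lit 456) (nat_lit 2998) (nat_lit 4341) (nat_lit 1) .nil)), (nat_lit 40), (nat_lit 17), (nat_lit 31),
 (nat_lit 1), (43, 5, 48), [389, 3041], 5⟩,
  ⟨⟨11, -72, -36, -50, 11, -30, 44, -4, -73⟩, (.cons (nat_lit 918) (nat_lit 447) (nat_lit 455) (nat_lit 1)
 (.cons (nat_lit 4386) (nat_lit 3651) (nat_lit 2553) (nat_lit 1) .nil)), (nat_lit 31), (nat_lit 5), (nat_lit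
 5), (nat_lit 1), (69, 22, 63), [442, 4192], 39⟩,
  ⟨⟨-39, -40, -41, -44, 55, 12, 22, 8, -77⟩, (.cons (nat_lit 852) (nat_lit 72) (nat_lit 175) (nat_lit 1) (.cons
 (nat_lit 2834) (nat_lit 3656) (nat_lit 762) (nat_lit 1) .nil)), (nat_lit 7), (nat_lit 42), (nat_lit 26),
 (nat_lit 1), (46, 61, 5), [40, 4635], 21⟩,
  mz,
  ⟨⟨51, 52, -56, -44, 15, -38, 42, -24, -67⟩, (.cons (nat_lit 858) (nat_lit 467) (nat_lit 732) (nat_lit 1)
 (.cons (nat_lit 41) (nat_lit 2210) (nat_lit 3118) (nat_lit 1) .nil)), (nat_lit 17), (nat_lit 29), (nat_lit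
 17), (nat_lit 1), (52, 15, 47), [494, 4733], 41⟩,
  ⟨⟨51, 4, -91, -10, -69, -10, 60, -12, -11⟩, (.cons (nat_lit 193) (nat_lit 589) (nat_lit 539) (nat_lit 1)
 (.cons (nat_lit 3359) (nat_lit 3320) (nat_lit 3742) (nat_lit 1) .nil)), (nat_lit 1), (nat_lit 22), (nat_lit
 29), (nat_lit 1), (45, 58, 7), [898, 4098], 34⟩,
  ⟨⟨51, 4, 40, 10, 69, -20, 60, -12, -49⟩, (.cons (nat_lit 960) (nat_lit 242) (nat_lit 249) (nat_lit 1) (.cons
 (nat_lit 3825) (nat_lit 712) (nat_lit 4282) (nat_lit 1) .nil)), (nat_lit 42), (nat_lit 27), (nat_lit 13),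
 (nat_lit 1), (13, 29, 32), [17, 195], 9⟩,
  ⟨⟨29, 72, -9, 56, -25, 12, 38, 16, -73⟩, (.cons (nat_lit 438) (nat_lit 726) (nat_lit 496) (nat_lit 1) (.cons
 (nat_lit 4249) (nat_lit 3528) (nat_lit 688) (nat_lit 1) .nil)), (nat_lit 13), (nat_lit 30), (nat_lit 5),
 (nat_lit 1), (5, 17, 9), [935, 1706], 34⟩,
  ⟨⟨65, 24, -72, -4, -55, -48, -10, 40, -49⟩, (.cons (nat_lit 773) (nat_lit 412) (nat_lit 729) (nat_lit 1)
 (.cons (nat_lit 533) (nat_lit 4828) (nat_lit 4201) (nat_lit 1) .nil)), (nat_lit 3), (nat_lit 17), (nat_lit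
 12), (nat_lit 1), (39, 26, 65), [949, 3089], 5⟩,
  ⟨⟨-51, 52, -5, -44, -15, 82, -42, -24, -25⟩, (.cons (nat_lit 347) (nat_lit 690) (nat_lit 206) (nat_lit 1)
 (.cons (nat_lit 4340) (nat_lit 422) (nat_lit 2221) (nat_lit 1) .nil)), (nat_lit 40), (nat_lit 28), (nat_lit
 35), (nat_lit 1), (18, 3, 19), [828, 337], 4⟩,
  mz,
  ⟨⟨13, -72, 23, -70, -11, 40, 4, -44, -53⟩, (.cons (nat_lit 498) (nat_lit 14) (nat_lit 703) (nat_lit 1) (.cons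
 (nat_lit 3059) (nat_lit 1222) (nat_lit 94) (nat_lit 1) .nil)), (nat_lit 5), (nat_lit 31), (nat_lit 26),
 (nat_lit 1), (14, 12, 48), [627, 4134], 18⟩,
  ⟨⟨9, 16, 80, -10, 69, -10, 60, 12, -11⟩, (.cons (nat_lit 620) (nat_lit 886) (nat_lit 58) (nat_lit 1) (.cons
 (nat_lit 4177) (nat_lit 2304) (nat_lit 3089) (nat_lit 1) .nil)), (nat_lit 39), (nat_lit 40), (nat_lit 8),
 (nat_lit 1), (58, 46, 8), [778, 28], 42⟩,
  ⟨⟨75, -20, -32, 10, 21, -80, 12, -60, -25⟩, (.cons (nat_lit 960) (nat_lit 404) (nat_lit 322) (nat_lit 1)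
 (.cons (nat_lit 2260) (nat_lit 1735) (nat_lit 409) (nat_lit 1) .nil)), (nat_lit 42), (nat_lit 13), (nat_lit
 12), (nat_lit 1), (52, 59, 14), [148, 1615], 10⟩,
  mz,
  ⟨⟨-11, -72, -25, 50, 11, -80, -44, -4, -29⟩, (.cons (nat_lit 327) (nat_lit 68) (nat_lit 284) (nat_lit 1)
 (.cons (nat_lit 4149) (nat_lit 3936) (nat_lit 2726) (nat_lit 1) .nil)), (nat_lit 12), (nat_lit 5), (nat_lit
 38), (nat_lit 1), (38, 8, 10), [613, 3180], 39⟩,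
  ⟨⟨-75, -20, 43, -10, 21, -70, -12, -60, -13⟩, (.cons (nat_lit 111) (nat_lit 423) (nat_lit 862) (nat_lit 1)
 (.cons (nat_lit 2500) (nat_lit 553) (nat_lit 252) (nat_lit 1) .nil)), (nat_lit 1), (nat_lit 13), (nat_lit 31),
 (nat_lit 1), (2, 5, 6), [126, 4292], 10⟩,
  mz,
  mz,
  mz,
  ⟨⟨11, 72, -36, -50, -11, -30, 44, 4, -73⟩, (.cons (nat_lit 103) (nat_lit 859) (nat_lit 291) (nat_lit 1)
 (.cons (nat_lit 3262) (nat_lit 109) (nat_lit 4632) (nat_lit 1) .nil)), (nat_lit 17), (nat_lit 32), (nat_lit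
 12), (nat_lit 1), (4, 27, 16), [426, 2567], 42⟩,
  mz,
  ⟨⟨-13, 72, 36, 70, 11, -30, -4, 44, -49⟩, (.cons (nat_lit 195) (nat_lit 595) (nat_lit 924) (nat_lit 1) (.cons
 (nat_lit 370) (nat_lit 1435) (nat_lit 3217) (nat_lit 1) .nil)), (nat_lit 31), (nat_lit 25), (nat_lit 1),
 (nat_lit 1), (35, 30, 49), [870, 1531], 39⟩,
  ⟨⟨-65, -24, -7, 4, 55, -52, 10, -40, -59⟩, (.cons (nat_lit 522) (nat_lit 802) (nat_lit 709) (nat_lit 1)
 (.cons (nat_lit 3182) (nat_lit 4758) (nat_lit 1747) (nat_lit 1) .nil)), (nat_lit 1), (nat_lit 11), (nat_lit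
 38), (nat_lit 1), (41, 51, 21), [276, 3565], 20⟩,
  mz,
  ⟨⟨33, 20, -92, -64, 15, 2, 6, -48, -49⟩, (.cons (nat_lit 954) (nat_lit 296) (nat_lit 943) (nat_lit 1) (.cons
 (nat_lit 3420) (nat_lit 3570) (nat_lit 3237) (nat_lit 1) .nil)), (nat_lit 38), (nat_lit 27), (nat_lit 1),
 (nat_lit 1), (45, 16, 34), [843, 3739], 36⟩,
  ⟨⟨-9, -28, -76, -70, 11, 40, 4, 44, -53⟩, (.cons (nat_lit 329) (nat_lit 770) (nat_lit 367) (nat_lit 1) (.cons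
 (nat_lit 2789) (nat_lit 3617) (nat_lit 2165) (nat_lit 1) .nil)), (nat_lit 31), (nat_lit 18), (nat_lit 42),
 (nat_lit 1), (8, 7, 28), [163, 657], 39⟩,
  ⟨⟨-3, -40, -73, 64, 25, -52, -26, 32, -41⟩, (.cons (nat_lit 919) (nat_lit 671) (nat_lit 698) (nat_lit 1)
 (.cons (nat_lit 3051) (nat_lit 2586) (nat_lit 1293) (nat_lit 1) .nil)), (nat_lit 35), (nat_lit 5), (nat_lit
 33), (nat_lit 1), (56, 36, 12), [34, 3505], 28⟩,
  ⟨⟨17, 24, 72, 36, 55, -48, 54, -24, -1⟩, (.cons (nat_lit 960) (nat_lit 579) (nat_lit 69) (nat_lit 1) (.cons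
 (nat_lit 2263) (nat_lit 3813) (nat_lit 3346) (nat_lit 1) .nil)), (nat_lit 42), (nat_lit 12), (nat_lit 4),
 (nat_lit 1), (30, 51, 41), [681, 2305], 39⟩]

/-- Moves. -/
noncomputable def t1_8 : List Mv := [
  mz,
  ⟨⟨-75, 20, 43, -10, -21, -70, -12, 60, -13⟩, (.cons (nat_lit 811) (nat_lit 700) (nat_lit 191) (nat_lit 1)
 (.cons (nat_lit 2183) (nat_lit 3088) (nat_lit 4696) (nat_lit 1) .nil)), (nat_lit 21), (nat_lit 25), (nat_lit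
 38), (nat_lit 1), (51, 21, 11), [21, 1149], 40⟩,
  mz,
  ⟨⟨65, -24, -72, -4, 55, -48, -10, -40, -49⟩, (.cons (nat_lit 960) (nat_lit 859) (nat_lit 243) (nat_lit 1)
 (.cons (nat_lit 1440) (nat_lit 3833) (nat_lit 2184) (nat_lit 1) .nil)), (nat_lit 42), (nat_lit 11), (nat_lit
 5), (nat_lit 1), (37, 1, 38), [817, 1772], 20⟩,
  ⟨⟨27, 68, 16, 64, -15, -62, -6, 48, -43⟩, (.cons (nat_lit 889) (nat_lit 785) (nat_lit 118) (nat_lit 1) (.cons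
 (nat_lit 4658) (nat_lit 1186) (nat_lit 3642) (nat_lit 1) .nil)), (nat_lit 29), (nat_lit 5), (nat_lit 26),
 (nat_lit 1), (60, 16, 34), [47, 342], 10⟩,
  ⟨⟨27, -68, 16, 64, 15, -62, -6, -48, -43⟩, (.cons (nat_lit 933) (nat_lit 583) (nat_lit 315) (nat_lit 1)
 (.cons (nat_lit 3930) (nat_lit 94) (nat_lit 1419) (nat_lit 1) .nil)), (nat_lit 38), (nat_lit 16), (nat_lit
 42), (nat_lit 1), (7, 35, 30), [13, 3431], 36⟩,
  mz,
  ⟨⟨-9, -56, -55, -56, -25, 68, -38, 16, -35⟩, (.cons (nat_lit 14) (nat_lit 281) (nat_lit 671) (nat_lit 1)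
 (.cons (nat_lit 1951) (nat_lit 2852) (nat_lit 693) (nat_lit 1) .nil)), (nat_lit 13), (nat_lit 13), (nat_lit
 38), (nat_lit 1), (69, 27, 31), [603, 1587], 34⟩,
  ⟨⟨3, 40, -76, 64, 25, -12, 26, -32, -67⟩, (.cons (nat_lit 409) (nat_lit 420) (nat_lit 950) (nat_lit 1) (.cons
 (nat_lit 4214) (nat_lit 2664) (nat_lit 2164) (nat_lit 1) .nil)), (nat_lit 27), (nat_lit 26), (nat_lit 16),
 (nat_lit 1), (14, 62, 3), [528, 1181], 30⟩,
  mz,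
  mz,
  ⟨⟨33, -20, -92, 64, 15, -2, 6, 48, -49⟩, (.cons (nat_lit 207) (nat_lit 862) (nat_lit 376) (nat_lit 1) (.cons
 (nat_lit 3059) (nat_lit 1467) (nat_lit 959) (nat_lit 1) .nil)), (nat_lit 17), (nat_lit 1), (nat_lit 20),
 (nat_lit 1), (67, 3, 38), [525, 2396], 41⟩,
  ⟨⟨9, 76, -20, 44, -15, -82, -42, 24, -25⟩, (.cons (nat_lit 672) (nat_lit 927) (nat_lit 82) (nat_lit 1) (.cons
 (nat_lit 2203) (nat_lit 4103) (nat_lit 2733) (nat_lit 1) .nil)), (nat_lit 29), (nat_lit 42), (nat_lit 42),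
 (nat_lit 1), (31, 49, 21), [605, 4929], 10⟩,
  mz,
  mz,
  ⟨⟨51, -52, -56, -44, -15, -38, 42, 24, -67⟩, (.cons (nat_lit 289) (nat_lit 919) (nat_lit 58) (nat_lit 1)
 (.cons (nat_lit 2153) (nat_lit 1733) (nat_lit 1524) (nat_lit 1) .nil)), (nat_lit 29), (nat_lit 1), (nat_lit
 1), (nat_lit 1), (24, 67, 49), [314, 2545], 10⟩,
  ⟨⟨17, 24, -89, -36, -55, -12, 54, -24, -53⟩, (.cons (nat_lit 29) (nat_lit 144) (nat_lit 16) (nat_lit 1)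
 (.cons (nat_lit 2888) (nat_lit 4686) (nat_lit 1661) (nat_lit 1) .nil)), (nat_lit 1), (nat_lit 20), (nat_lit
 32), (nat_lit 1), (7, 52, 64), [77, 2295], 4⟩,
  mz,
  ⟨⟨9, 56, -64, -56, -25, -12, 38, -16, -73⟩, (.cons (nat_lit 596) (nat_lit 260) (nat_lit 379) (nat_lit 1)
 (.cons (nat_lit 3600) (nat_lit 115) (nat_lit 2053) (nat_lit 1) .nil)), (nat_lit 33), (nat_lit 35), (nat_lit
 26), (nat_lit 1), (56, 46, 55), [228, 609], 3⟩,
  ⟨⟨-61, -48, 25, -44, 55, 32, -22, -8, -55⟩, (.cons (nat_lit 432) (nat_lit 609) (nat_lit 319) (nat_lit 1)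
 (.cons (nat_lit 885) (nat_lit 3698) (nat_lit 1119) (nat_lit 1) .nil)), (nat_lit 37), (nat_lit 37), (nat_lit
 27), (nat_lit 1), (9, 3, 37), [873, 1484], 25⟩,
  mz,
  mz,
  ⟨⟨37, 48, -73, 36, -55, -48, 54, 24, -1⟩, (.cons (nat_lit 197) (nat_lit 477) (nat_lit 241) (nat_lit 1) (.cons
 (nat_lit 1931) (nat_lit 544) (nat_lit 1028) (nat_lit 1) .nil)), (nat_lit 35), (nat_lit 11), (nat_lit 15),
 (nat_lit 1), (15, 5, 43), [602, 2791], 28⟩,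
  ⟨⟨-61, 48, 25, -44, -55, 32, -22, 8, -55⟩, (.cons (nat_lit 369) (nat_lit 160) (nat_lit 757) (nat_lit 1)
 (.cons (nat_lit 2279) (nat_lit 1410) (nat_lit 3129) (nat_lit 1) .nil)), (nat_lit 1), (nat_lit 38), (nat_lit
 7), (nat_lit 1), (13, 28, 14), [240, 3777], 24⟩,
  ⟨⟨-39, 40, -41, 44, 55, -12, 22, -8, -77⟩, (.cons (nat_lit 283) (nat_lit 824) (nat_lit 470) (nat_lit 1)
 (.cons (nat_lit 2593) (nat_lit 4782) (nat_lit 1471) (nat_lit 1) .nil)), (nat_lit 37), (nat_lit 6), (nat_lit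
 16), (nat_lit 1), (2, 56, 28), [125, 466], 25⟩,
  mz,
  ⟨⟨9, 16, -89, 10, -69, -20, 60, 12, -49⟩, (.cons (nat_lit 130) (nat_lit 774) (nat_lit 866) (nat_lit 1) (.cons
 (nat_lit 4560) (nat_lit 1491) (nat_lit 755) (nat_lit 1) .nil)), (nat_lit 11), (nat_lit 10), (nat_lit 41),
 (nat_lit 1), (44, 41, 33), [863, 2043], 35⟩,
  mz,
  mz,
  ⟨⟨9, 28, -85, -70, 11, 30, -4, -44, -49⟩, (.cons (nat_lit 817) (nat_lit 182) (nat_lit 534) (nat_lit 1) (.cons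
 (nat_lit 25) (nat_lit 4970) (nat_lit 2397) (nat_lit 1) .nil)), (nat_lit 18), (nat_lit 39), (nat_lit 4),
 (nat_lit 1), (40, 36, 69), [21, 1182], 37⟩,
  mz,
  ⟨⟨-33, -68, -4, -50, 11, 80, -44, 4, -29⟩, (.cons (nat_lit 111) (nat_lit 59) (nat_lit 586) (nat_lit 1) (.cons
 (nat_lit 2984) (nat_lit 3737) (nat_lit 3999) (nat_lit 1) .nil)), (nat_lit 25), (nat_lit 23), (nat_lit 25),
 (nat_lit 1), (61, 58, 34), [794, 245], 37⟩,
  mz,
  ⟨⟨-29, -72, 20, 56, -25, -68, -38, -16, -35⟩, (.cons (nat_lit 725) (nat_lit 636) (nat_lit 203) (nat_lit 1)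
 (.cons (nat_lit 1527) (nat_lit 1751) (nat_lit 4229) (nat_lit 1) .nil)), (nat_lit 33), (nat_lit 8), (nat_lit
 17), (nat_lit 1), (27, 36, 6), [108, 3264], 3⟩,
  ⟨⟨-63, 40, 7, 10, -21, -80, 12, 60, -25⟩, (.cons (nat_lit 817) (nat_lit 843) (nat_lit 694) (nat_lit 1) (.cons
 (nat_lit 3531) (nat_lit 156) (nat_lit 4966) (nat_lit 1) .nil)), (nat_lit 21), (nat_lit 18), (nat_lit 5),
 (nat_lit 1), (60, 4, 19), [332, 4933], 40⟩,
  mz,
  ⟨⟨3, -40, -76, -64, 25, 12, 26, 32, -67⟩, (.cons (nat_lit 93) (nat_lit 644) (nat_lit 453) (nat_lit 1) (.cons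
 (nat_lit 4667) (nat_lit 156) (nat_lit 1811) (nat_lit 1) .nil)), (nat_lit 8), (nat_lit 5), (nat_lit 10),
 (nat_lit 1), (58, 17, 53), [298, 4447], 28⟩,
  mz,
  ⟨⟨17, -24, -89, 36, -55, 12, 54, 24, -53⟩, (.cons (nat_lit 401) (nat_lit 163) (nat_lit 846) (nat_lit 1)
 (.cons (nat_lit 2704) (nat_lit 2777) (nat_lit 491) (nat_lit 1) .nil)), (nat_lit 1), (nat_lit 12), (nat_lit
 39), (nat_lit 1), (5, 44, 66), [449, 4774], 4⟩,
  ⟨⟨-23, -72, 32, -64, 25, 52, -26, -32, -41⟩, (.cons (nat_lit 888) (nat_lit 957) (nat_lit 1) (nat_lit 558)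
 (.cons (nat_lit 1508) (nat_lit 1801) (nat_lit 2694) (nat_lit 1) .nil)), (nat_lit 27), (nat_lit 17), (nat_lit
 27), (nat_lit 1), (21, 43, 33), [780, 4097], 30⟩,
  mz,
  mz,
  ⟨⟨75, 16, -52, 4, -55, -52, 10, 40, -59⟩, (.cons (nat_lit 804) (nat_lit 845) (nat_lit 297) (nat_lit 1) (.cons
 (nat_lit 4002) (nat_lit 1655) (nat_lit 398) (nat_lit 1) .nil)), (nat_lit 3), (nat_lit 26), (nat_lit 31),
 (nat_lit 1), (5, 5, 48), [732, 642], 5⟩,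
  ⟨⟨11, -72, -36, 50, -11, 30, 44, -4, -73⟩, (.cons (nat_lit 355) (nat_lit 628) (nat_lit 488) (nat_lit 1)
 (.cons (nat_lit 1061) (nat_lit 4269) (nat_lit 1309) (nat_lit 1) .nil)), (nat_lit 38), (nat_lit 42), (nat_lit
 32), (nat_lit 1), (69, 49, 63), [724, 1632], 18⟩,
  ⟨⟨-39, -40, -41, -44, 55, 12, 22, 8, -77⟩, (.cons (nat_lit 852) (nat_lit 72) (nat_lit 175) (nat_lit 1) (.cons
 (nat_lit 2834) (nat_lit 3656) (nat_lit 762) (nat_lit 1) .nil)), (nat_lit 7), (nat_lit 42), (nat_lit 26),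
 (nat_lit 1), (46, 61, 5), [40, 4635], 21⟩,
  mz,
  ⟨⟨51, 52, -56, -44, 15, -38, 42, -24, -67⟩, (.cons (nat_lit 858) (nat_lit 467) (nat_lit 732) (nat_lit 1)
 (.cons (nat_lit 41) (nat_lit 2210) (nat_lit 3118) (nat_lit 1) .nil)), (nat_lit 17), (nat_lit 29), (nat_lit
 17), (nat_lit 1), (52, 15, 47), [494, 4733], 41⟩,
  ⟨⟨51, 4, -91, 10, 69, 10, 60, -12, -11⟩, (.cons (nat_lit 43) (nat_lit 402) (nat_lit 897) (nat_lit 1) (.cons
 (nat_lit 2037) (nat_lit 4520) (nat_lit 3659) (nat_lit 1) .nil)), (nat_lit 11), (nat_lit 33), (nat_lit 2),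
 (nat_lit 1), (45, 13, 7), [958, 2878], 8⟩,
  ⟨⟨51, 4, 40, -10, -69, 20, 60, -12, -49⟩, (.cons (nat_lit 0) (nat_lit 339) (nat_lit 501) (nat_lit 1) (.cons
 (nat_lit 4433) (nat_lit 3855) (nat_lit 135) (nat_lit 1) .nil)), (nat_lit 39), (nat_lit 3), (nat_lit 35),
 (nat_lit 1), (13, 42, 32), [59, 3231], 1⟩,
  ⟨⟨29, 72, -9, -56, 25, -12, 38, 16, -73⟩, (.cons (nat_lit 795) (nat_lit 845) (nat_lit 257) (nat_lit 1) (.cons
 (nat_lit 2193) (nat_lit 3852) (nat_lit 1774) (nat_lit 1) .nil)), (nat_lit 35), (nat_lit 7), (nat_lit 42),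
 (nat_lit 1), (5, 54, 9), [685, 700], 28⟩,
  ⟨⟨65, 24, -72, -4, -55, -48, -10, 40, -49⟩, (.cons (nat_lit 773) (nat_lit 412) (nat_lit 729) (nat_lit 1)
 (.cons (nat_lit 533) (nat_lit 4828) (nat_lit 4201) (nat_lit 1) .nil)), (nat_lit 3), (nat_lit 17), (nat_lit
 12), (nat_lit 1), (39, 26, 65), [949, 3089], 5⟩,
  ⟨⟨9, -76, -20, 44, 15, -82, -42, -24, -25⟩, (.cons (nat_lit 549) (nat_lit 866) (nat_lit 272) (nat_lit 1)
 (.cons (nat_lit 4198) (nat_lit 2702) (nat_lit 3885) (nat_lit 1) .nil)), (nat_lit 17), (nat_lit 14), (nat_lit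
 26), (nat_lit 1), (1, 68, 19), [331, 2751], 41⟩,
  mz,
  ⟨⟨13, -72, 23, 70, 11, -40, 4, -44, -53⟩, (.cons (nat_lit 560) (nat_lit 376) (nat_lit 415) (nat_lit 1) (.cons
 (nat_lit 4841) (nat_lit 1750) (nat_lit 2908) (nat_lit 1) .nil)), (nat_lit 18), (nat_lit 4), (nat_lit 39),
 (nat_lit 1), (14, 59, 48), [73, 2831], 37⟩,
  ⟨⟨9, 16, 80, -10, 69, -10, 60, 12, -11⟩, (.cons (nat_lit 620) (nat_lit 886) (nat_lit 58) (nat_lit 1) (.cons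
 (nat_lit 4177) (nat_lit 2304) (nat_lit 3089) (nat_lit 1) .nil)), (nat_lit 39), (nat_lit 40), (nat_lit 8),
 (nat_lit 1), (58, 46, 8), [778, 28], 42⟩,
  ⟨⟨75, -20, -32, 10, 21, -80, 12, -60, -25⟩, (.cons (nat_lit 960) (nat_lit 404) (nat_lit 322) (nat_lit 1)
 (.cons (nat_lit 2260) (nat_lit 1735) (nat_lit 409) (nat_lit 1) .nil)), (nat_lit 42), (nat_lit 13), (nat_lit
 12), (nat_lit 1), (52, 59, 14), [148, 1615], 10⟩,
  mz,
  ⟨⟨-11, -72, -25, 50, 11, -80, -44, -4, -29⟩, (.cons (nat_lit 327) (nat_lit 68) (nat_lit 284) (nat_lit 1)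
 (.cons (nat_lit 4149) (nat_lit 3936) (nat_lit 2726) (nat_lit 1) .nil)), (nat_lit 12), (nat_lit 5), (nat_lit
 38), (nat_lit 1), (38, 8, 10), [613, 3180], 39⟩,
  ⟨⟨-75, -20, 43, 10, -21, 70, -12, -60, -13⟩, (.cons (nat_lit 327) (nat_lit 146) (nat_lit 819) (nat_lit 1)
 (.cons (nat_lit 3667) (nat_lit 170) (nat_lit 3188) (nat_lit 1) .nil)), (nat_lit 41), (nat_lit 36), (nat_lit
 10), (nat_lit 1), (2, 66, 6), [127, 3947], 31⟩,
  mz,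
  mz,
  mz,
  ⟨⟨11, 72, -36, -50, -11, -30, 44, 4, -73⟩, (.cons (nat_lit 103) (nat_lit 859) (nat_lit 291) (nat_lit 1)
 (.cons (nat_lit 3262) (nat_lit 109) (nat_lit 4632) (nat_lit 1) .nil)), (nat_lit 17), (nat_lit 32), (nat_lit
 12), (nat_lit 1), (4, 27, 16), [426, 2567], 42⟩,
  mz,
  ⟨⟨-13, 72, 36, 70, 11, -30, -4, 44, -49⟩, (.cons (nat_lit 195) (nat_lit 595) (nat_lit 924) (nat_lit 1) (.cons
 (nat_lit 370) (nat_lit 1435) (nat_lit 3217) (nat_lit 1) .nil)), (nat_lit 31), (nat_lit 25), (nat_lit 1),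
 (nat_lit 1), (35, 30, 49), [870, 1531], 39⟩,
  ⟨⟨75, -16, -52, 4, 55, -52, 10, -40, -59⟩, (.cons (nat_lit 960) (nat_lit 138) (nat_lit 189) (nat_lit 1)
 (.cons (nat_lit 321) (nat_lit 2803) (nat_lit 1402) (nat_lit 1) .nil)), (nat_lit 42), (nat_lit 32), (nat_lit
 38), (nat_lit 1), (51, 51, 21), [46, 2546], 20⟩,
  mz,
  ⟨⟨-27, -68, 43, -64, 15, 2, 6, -48, -49⟩, (.cons (nat_lit 923) (nat_lit 570) (nat_lit 765) (nat_lit 1) (.cons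
 (nat_lit 2185) (nat_lit 4004) (nat_lit 1148) (nat_lit 1) .nil)), (nat_lit 5), (nat_lit 16), (nat_lit 1),
 (nat_lit 1), (60, 16, 34), [211, 2985], 36⟩,
  ⟨⟨-9, -28, -76, -70, 11, 40, 4, 44, -53⟩, (.cons (nat_lit 329) (nat_lit 770) (nat_lit 367) (nat_lit 1) (.cons
 (nat_lit 2789) (nat_lit 3617) (nat_lit 2165) (nat_lit 1) .nil)), (nat_lit 31), (nat_lit 18), (nat_lit 42),
 (nat_lit 1), (8, 7, 28), [163, 657], 39⟩,
  ⟨⟨-23, 72, 32, 64, 25, -52, -26, 32, -41⟩, (.cons (nat_lit 832) (nat_lit 639) (nat_lit 170) (nat_lit 1)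
 (.cons (nat_lit 4155) (nat_lit 2570) (nat_lit 4905) (nat_lit 1) .nil)), (nat_lit 8), (nat_lit 38), (nat_lit
 33), (nat_lit 1), (27, 36, 12), [707, 805], 28⟩,
  ⟨⟨17, 24, 72, 36, 55, -48, 54, -24, -1⟩, (.cons (nat_lit 960) (nat_lit 579) (nat_lit 69) (nat_lit 1) (.cons
 (nat_lit 2263) (nat_lit 3813) (nat_lit 3346) (nat_lit 1) .nil)), (nat_lit 42), (nat_lit 12), (nat_lit 4),
 (nat_lit 1), (30, 51, 41), [681, 2305], 39⟩]

/-- Moves. -/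
noncomputable def t1_19 : List Mv := [
  mz,
  ⟨⟨-75, 20, 43, -10, -21, -70, -12, 60, -13⟩, (.cons (nat_lit 811) (nat_lit 700) (nat_lit 191) (nat_lit 1)
 (.cons (nat_lit 2183) (nat_lit 3088) (nat_lit 4696) (nat_lit 1) .nil)), (nat_lit 21), (nat_lit 25), (nat_lit
 38), (nat_lit 1), (51, 21, 11), [21, 1149], 40⟩,
  mz,
  ⟨⟨-75, -16, 23, -4, 55, -48, -10, -40, -49⟩, (.cons (nat_lit 440) (nat_lit 768) (nat_lit 365) (nat_lit 1)
 (.cons (nat_lit 4114) (nat_lit 1671) (nat_lit 1823) (nat_lit 1) .nil)), (nat_lit 1), (nat_lit 32), (nat_lit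
 5), (nat_lit 1), (1, 1, 38), [78, 2645], 20⟩,
  ⟨⟨27, 68, 16, 64, -15, -62, -6, 48, -43⟩, (.cons (nat_lit 889) (nat_lit 785) (nat_lit 118) (nat_lit 1) (.cons
 (nat_lit 4658) (nat_lit 1186) (nat_lit 3642) (nat_lit 1) .nil)), (nat_lit 29), (nat_lit 5), (nat_lit 26),
 (nat_lit 1), (60, 16, 34), [47, 342], 10⟩,
  ⟨⟨27, -68, 16, 64, 15, -62, -6, -48, -43⟩, (.cons (nat_lit 933) (nat_lit 583) (nat_lit 315) (nat_lit 1)
 (.cons (nat_lit 3930) (nat_lit 94) (nat_lit 1419) (nat_lit 1) .nil)), (nat_lit 38), (nat_lit 16), (nat_lit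
 42), (nat_lit 1), (7, 35, 30), [13, 3431], 36⟩,
  mz,
  ⟨⟨-29, 72, 20, 56, 25, -68, -38, 16, -35⟩, (.cons (nat_lit 336) (nat_lit 147) (nat_lit 813) (nat_lit 1)
 (.cons (nat_lit 4898) (nat_lit 188) (nat_lit 3186) (nat_lit 1) .nil)), (nat_lit 8), (nat_lit 7), (nat_lit 1),
 (nat_lit 1), (33, 44, 31), [180, 768], 28⟩,
  ⟨⟨23, -72, 9, -64, -25, 12, 26, -32, -67⟩, (.cons (nat_lit 851) (nat_lit 382) (nat_lit 283) (nat_lit 1)
 (.cons (nat_lit 2217) (nat_lit 2924) (nat_lit 2549) (nat_lit 1) .nil)), (nat_lit 13), (nat_lit 25), (nat_lit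
 6), (nat_lit 1), (60, 9, 3), [820, 4580], 34⟩,
  mz,
  mz,
  ⟨⟨-27, 68, 43, 64, 15, -2, 6, 48, -49⟩, (.cons (nat_lit 909) (nat_lit 659) (nat_lit 26) (nat_lit 1) (.cons
 (nat_lit 1095) (nat_lit 3789) (nat_lit 3694) (nat_lit 1) .nil)), (nat_lit 26), (nat_lit 42), (nat_lit 20),
 (nat_lit 1), (42, 3, 38), [264, 3386], 41⟩,
  ⟨⟨9, 76, -20, -44, 15, 82, -42, 24, -25⟩, (.cons (nat_lit 65) (nat_lit 669) (nat_lit 546) (nat_lit 1) (.cons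
 (nat_lit 381) (nat_lit 2442) (nat_lit 1190) (nat_lit 1) .nil)), (nat_lit 38), (nat_lit 5), (nat_lit 14),
 (nat_lit 1), (31, 22, 21), [137, 1983], 36⟩,
  mz,
  mz,
  ⟨⟨-9, 76, -11, 44, 15, 38, 42, 24, -67⟩, (.cons (nat_lit 462) (nat_lit 179) (nat_lit 481) (nat_lit 1) (.cons
 (nat_lit 4942) (nat_lit 2411) (nat_lit 3399) (nat_lit 1) .nil)), (nat_lit 5), (nat_lit 5), (nat_lit 29),
 (nat_lit 1), (25, 4, 49), [20, 1578], 36⟩,
  ⟨⟨17, 24, -89, -36, -55, -12, 54, -24, -53⟩, (.cons (nat_lit 29) (nat_lit 144) (nat_lit 16) (nat_lit 1)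
 (.cons (nat_lit 2888) (nat_lit 4686) (nat_lit 1661) (nat_lit 1) .nil)), (nat_lit 1), (nat_lit 20), (nat_lit
 32), (nat_lit 1), (7, 52, 64), [77, 2295], 4⟩,
  mz,
  ⟨⟨9, 56, -64, -56, -25, -12, 38, -16, -73⟩, (.cons (nat_lit 596) (nat_lit 260) (nat_lit 379) (nat_lit 1)
 (.cons (nat_lit 3600) (nat_lit 115) (nat_lit 2053) (nat_lit 1) .nil)), (nat_lit 33), (nat_lit 35), (nat_lit
 26), (nat_lit 1), (56, 46, 55), [228, 609], 3⟩,
  ⟨⟨-61, -48, 25, -44, 55, 32, -22, -8, -55⟩, (.cons (nat_lit 432) (nat_lit 609) (nat_lit 319) (nat_lit 1)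
 (.cons (nat_lit 885) (nat_lit 3698) (nat_lit 1119) (nat_lit 1) .nil)), (nat_lit 37), (nat_lit 37), (nat_lit
 27), (nat_lit 1), (9, 3, 37), [873, 1484], 25⟩,
  mz,
  mz,
  ⟨⟨17, -24, 72, -36, 55, 48, 54, 24, -1⟩, (.cons (nat_lit 960) (nat_lit 536) (nat_lit 608) (nat_lit 1) (.cons
 (nat_lit 4330) (nat_lit 4166) (nat_lit 1804) (nat_lit 1) .nil)), (nat_lit 42), (nat_lit 20), (nat_lit 11),
 (nat_lit 1), (28, 66, 43), [122, 44], 39⟩,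
  ⟨⟨-61, 48, 25, 44, 55, -32, -22, 8, -55⟩, (.cons (nat_lit 163) (nat_lit 228) (nat_lit 270) (nat_lit 1) (.cons
 (nat_lit 3039) (nat_lit 4132) (nat_lit 952) (nat_lit 1) .nil)), (nat_lit 7), (nat_lit 1), (nat_lit 17),
 (nat_lit 1), (13, 43, 14), [870, 1355], 21⟩,
  ⟨⟨61, -48, -36, 44, 55, -12, 22, -8, -77⟩, (.cons (nat_lit 655) (nat_lit 956) (nat_lit 937) (nat_lit 1)
 (.cons (nat_lit 1429) (nat_lit 4533) (nat_lit 1751) (nat_lit 1) .nil)), (nat_lit 6), (nat_lit 37), (nat_lit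
 16), (nat_lit 1), (26, 56, 28), [455, 1320], 25⟩,
  mz,
  ⟨⟨51, -4, 40, 10, -69, -20, 60, 12, -49⟩, (.cons (nat_lit 750) (nat_lit 415) (nat_lit 1) (nat_lit 0) (.cons
 (nat_lit 4832) (nat_lit 4434) (nat_lit 3130) (nat_lit 1) .nil)), (nat_lit 32), (nat_lit 33), (nat_lit 41),
 (nat_lit 1), (60, 41, 33), [326, 4285], 35⟩,
  mz,
  mz,
  ⟨⟨-13, -72, 36, 70, -11, -30, -4, -44, -49⟩, (.cons (nat_lit 28) (nat_lit 934) (nat_lit 501) (nat_lit 1)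
 (.cons (nat_lit 1837) (nat_lit 1195) (nat_lit 1) (nat_lit 3195) .nil)), (nat_lit 38), (nat_lit 31), (nat_lit
 17), (nat_lit 1), (29, 35, 69), [517, 4745], 18⟩,
  mz,
  ⟨⟨-11, 72, -25, 50, -11, -80, -44, 4, -29⟩, (.cons (nat_lit 790) (nat_lit 212) (nat_lit 304) (nat_lit 1)
 (.cons (nat_lit 1101) (nat_lit 3638) (nat_lit 3681) (nat_lit 1) .nil)), (nat_lit 26), (nat_lit 32), (nat_lit
 31), (nat_lit 1), (44, 13, 34), [826, 3560], 42⟩,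
  mz,
  ⟨⟨-29, -72, 20, -56, 25, 68, -38, -16, -35⟩, (.cons (nat_lit 664) (nat_lit 29) (nat_lit 1) (nat_lit 248)
 (.cons (nat_lit 3447) (nat_lit 1332) (nat_lit 3344) (nat_lit 1) .nil)), (nat_lit 27), (nat_lit 37), (nat_lit
 31), (nat_lit 1), (27, 35, 6), [49, 442], 30⟩,
  ⟨⟨75, 20, -32, 10, -21, -80, 12, 60, -25⟩, (.cons (nat_lit 172) (nat_lit 307) (nat_lit 486) (nat_lit 1)
 (.cons (nat_lit 3179) (nat_lit 4361) (nat_lit 427) (nat_lit 1) .nil)), (nat_lit 22), (nat_lit 25), (nat_lit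
 5), (nat_lit 1), (30, 4, 19), [441, 1161], 40⟩,
  mz,
  ⟨⟨3, -40, -76, 64, -25, -12, 26, 32, -67⟩, (.cons (nat_lit 410) (nat_lit 360) (nat_lit 334) (nat_lit 1)
 (.cons (nat_lit 554) (nat_lit 3966) (nat_lit 2625) (nat_lit 1) .nil)), (nat_lit 33), (nat_lit 42), (nat_lit
 36), (nat_lit 1), (58, 54, 53), [197, 531], 3⟩,
  mz,
  ⟨⟨17, -24, -89, -36, 55, -12, 54, 24, -53⟩, (.cons (nat_lit 761) (nat_lit 261) (nat_lit 150) (nat_lit 1)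
 (.cons (nat_lit 4185) (nat_lit 5006) (nat_lit 4447) (nat_lit 1) .nil)), (nat_lit 16), (nat_lit 39), (nat_lit
 18), (nat_lit 1), (5, 27, 66), [738, 3559], 13⟩,
  ⟨⟨-23, -72, 32, 64, -25, -52, -26, -32, -41⟩, (.cons (nat_lit 753) (nat_lit 264) (nat_lit 30) (nat_lit 1)
 (.cons (nat_lit 4464) (nat_lit 2391) (nat_lit 1952) (nat_lit 1) .nil)), (nat_lit 30), (nat_lit 25), (nat_lit
 37), (nat_lit 1), (21, 28, 33), [488, 4884], 34⟩,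
  mz,
  mz,
  ⟨⟨75, 16, -52, 4, -55, -52, 10, 40, -59⟩, (.cons (nat_lit 804) (nat_lit 845) (nat_lit 297) (nat_lit 1) (.cons
 (nat_lit 4002) (nat_lit 1655) (nat_lit 398) (nat_lit 1) .nil)), (nat_lit 3), (nat_lit 26), (nat_lit 31),
 (nat_lit 1), (5, 5, 48), [732, 642], 5⟩,
  ⟨⟨33, 68, -37, -50, 11, -30, 44, -4, -73⟩, (.cons (nat_lit 822) (nat_lit 370) (nat_lit 25) (nat_lit 1) (.cons
 (nat_lit 4907) (nat_lit 3138) (nat_lit 2453) (nat_lit 1) .nil)), (nat_lit 12), (nat_lit 38), (nat_lit 5),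
 (nat_lit 1), (65, 22, 63), [646, 41], 39⟩,
  ⟨⟨-39, -40, -41, -44, 55, 12, 22, 8, -77⟩, (.cons (nat_lit 852) (nat_lit 72) (nat_lit 175) (nat_lit 1) (.cons
 (nat_lit 2834) (nat_lit 3656) (nat_lit 762) (nat_lit 1) .nil)), (nat_lit 7), (nat_lit 42), (nat_lit 26),
 (nat_lit 1), (46, 61, 5), [40, 4635], 21⟩,
  mz,
  ⟨⟨-9, -76, -11, -44, 15, -38, 42, -24, -67⟩, (.cons (nat_lit 177) (nat_lit 15) (nat_lit 96) (nat_lit 1)
 (.cons (nat_lit 4528) (nat_lit 5031) (nat_lit 3554) (nat_lit 1) .nil)), (nat_lit 26), (nat_lit 14), (nat_lit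
 17), (nat_lit 1), (66, 15, 47), [661, 4781], 41⟩,
  ⟨⟨51, 4, -91, 10, 69, 10, 60, -12, -11⟩, (.cons (nat_lit 43) (nat_lit 402) (nat_lit 897) (nat_lit 1) (.cons
 (nat_lit 2037) (nat_lit 4520) (nat_lit 3659) (nat_lit 1) .nil)), (nat_lit 11), (nat_lit 33), (nat_lit 2),
 (nat_lit 1), (45, 13, 7), [958, 2878], 8⟩,
  ⟨⟨9, -16, -89, -10, -69, 20, 60, -12, -49⟩, (.cons (nat_lit 447) (nat_lit 13) (nat_lit 739) (nat_lit 1)
 (.cons (nat_lit 3729) (nat_lit 1199) (nat_lit 1664) (nat_lit 1) .nil)), (nat_lit 4), (nat_lit 40), (nat_lit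
 35), (nat_lit 1), (19, 42, 32), [724, 212], 1⟩,
  ⟨⟨9, -56, -64, -56, 25, -12, 38, 16, -73⟩, (.cons (nat_lit 124) (nat_lit 645) (nat_lit 79) (nat_lit 1) (.cons
 (nat_lit 1617) (nat_lit 4009) (nat_lit 3515) (nat_lit 1) .nil)), (nat_lit 8), (nat_lit 36), (nat_lit 42),
 (nat_lit 1), (4, 54, 9), [515, 4618], 28⟩,
  ⟨⟨65, 24, -72, -4, -55, -48, -10, 40, -49⟩, (.cons (nat_lit 773) (nat_lit 412) (nat_lit 729) (nat_lit 1)
 (.cons (nat_lit 533) (nat_lit 4828) (nat_lit 4201) (nat_lit 1) .nil)), (nat_lit 3), (nat_lit 17), (nat_lit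
 12), (nat_lit 1), (39, 26, 65), [949, 3089], 5⟩,
  ⟨⟨9, -76, -20, 44, 15, -82, -42, -24, -25⟩, (.cons (nat_lit 549) (nat_lit 866) (nat_lit 272) (nat_lit 1)
 (.cons (nat_lit 4198) (nat_lit 2702) (nat_lit 3885) (nat_lit 1) .nil)), (nat_lit 17), (nat_lit 14), (nat_lit
 26), (nat_lit 1), (1, 68, 19), [331, 2751], 41⟩,
  mz,
  ⟨⟨13, -72, 23, 70, 11, -40, 4, -44, -53⟩, (.cons (nat_lit 560) (nat_lit 376) (nat_lit 415) (nat_lit 1) (.cons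
 (nat_lit 4841) (nat_lit 1750) (nat_lit 2908) (nat_lit 1) .nil)), (nat_lit 18), (nat_lit 4), (nat_lit 39),
 (nat_lit 1), (14, 59, 48), [73, 2831], 37⟩,
  ⟨⟨9, 16, 80, -10, 69, -10, 60, 12, -11⟩, (.cons (nat_lit 620) (nat_lit 886) (nat_lit 58) (nat_lit 1) (.cons
 (nat_lit 4177) (nat_lit 2304) (nat_lit 3089) (nat_lit 1) .nil)), (nat_lit 39), (nat_lit 40), (nat_lit 8),
 (nat_lit 1), (58, 46, 8), [778, 28], 42⟩,
  ⟨⟨75, -20, -32, -10, -21, 80, 12, -60, -25⟩, (.cons (nat_lit 352) (nat_lit 529) (nat_lit 947) (nat_lit 1)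
 (.cons (nat_lit 3993) (nat_lit 2116) (nat_lit 1527) (nat_lit 1) .nil)), (nat_lit 2), (nat_lit 36), (nat_lit
 33), (nat_lit 1), (52, 12, 14), [165, 4142], 31⟩,
  mz,
  ⟨⟨-33, 68, -4, -50, -11, 80, -44, -4, -29⟩, (.cons (nat_lit 121) (nat_lit 855) (nat_lit 845) (nat_lit 1)
 (.cons (nat_lit 2624) (nat_lit 1676) (nat_lit 853) (nat_lit 1) .nil)), (nat_lit 38), (nat_lit 1), (nat_lit
 11), (nat_lit 1), (43, 63, 10), [486, 401], 18⟩,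
  ⟨⟨-75, -20, 43, -10, 21, -70, -12, -60, -13⟩, (.cons (nat_lit 111) (nat_lit 423) (nat_lit 862) (nat_lit 1)
 (.cons (nat_lit 2500) (nat_lit 553) (nat_lit 252) (nat_lit 1) .nil)), (nat_lit 1), (nat_lit 13), (nat_lit 31),
 (nat_lit 1), (2, 5, 6), [126, 4292], 10⟩,
  mz,
  mz,
  mz,
  ⟨⟨33, -68, -37, -50, -11, -30, 44, 4, -73⟩, (.cons (nat_lit 357) (nat_lit 768) (nat_lit 811) (nat_lit 1)
 (.cons (nat_lit 1677) (nat_lit 212) (nat_lit 1812) (nat_lit 1) .nil)), (nat_lit 26), (nat_lit 11), (nat_lit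
 12), (nat_lit 1), (12, 27, 16), [490, 649], 42⟩,
  mz,
  ⟨⟨-13, 72, 36, -70, -11, 30, -4, 44, -49⟩, (.cons (nat_lit 268) (nat_lit 832) (nat_lit 873) (nat_lit 1)
 (.cons (nat_lit 3831) (nat_lit 2815) (nat_lit 170) (nat_lit 1) .nil)), (nat_lit 17), (nat_lit 17), (nat_lit
 15), (nat_lit 1), (35, 41, 49), [866, 865], 42⟩,
  ⟨⟨75, -16, -52, 4, 55, -52, 10, -40, -59⟩, (.cons (nat_lit 960) (nat_lit 138) (nat_lit 189) (nat_lit 1)
 (.cons (nat_lit 321) (nat_lit 2803) (nat_lit 1402) (nat_lit 1) .nil)), (nat_lit 42), (nat_lit 32), (nat_lit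
 38), (nat_lit 1), (51, 51, 21), [46, 2546], 20⟩,
  mz,
  ⟨⟨33, 20, -92, 64, -15, -2, 6, -48, -49⟩, (.cons (nat_lit 685) (nat_lit 226) (nat_lit 529) (nat_lit 1) (.cons
 (nat_lit 267) (nat_lit 40) (nat_lit 5010) (nat_lit 1) .nil)), (nat_lit 3), (nat_lit 3), (nat_lit 3), (nat_lit
 1), (45, 55, 34), [764, 1507], 4⟩,
  ⟨⟨13, 72, 23, 70, -11, -40, 4, 44, -53⟩, (.cons (nat_lit 821) (nat_lit 493) (nat_lit 579) (nat_lit 1) (.cons
 (nat_lit 5039) (nat_lit 856) (nat_lit 4397) (nat_lit 1) .nil)), (nat_lit 26), (nat_lit 17), (nat_lit 28),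
 (nat_lit 1), (20, 64, 28), [423, 1793], 42⟩,
  ⟨⟨-3, -40, -73, -64, -25, 52, -26, 32, -41⟩, (.cons (nat_lit 206) (nat_lit 735) (nat_lit 158) (nat_lit 1)
 (.cons (nat_lit 2539) (nat_lit 3914) (nat_lit 3862) (nat_lit 1) .nil)), (nat_lit 10), (nat_lit 42), (nat_lit
 7), (nat_lit 1), (56, 35, 12), [361, 4630], 3⟩,
  ⟨⟨37, -48, -73, 36, 55, -48, 54, -24, -1⟩, (.cons (nat_lit 139) (nat_lit 407) (nat_lit 609) (nat_lit 1)
 (.cons (nat_lit 3354) (nat_lit 2953) (nat_lit 944) (nat_lit 1) .nil)), (nat_lit 1), (nat_lit 31), (nat_lit 4),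
 (nat_lit 1), (11, 51, 41), [779, 3395], 39⟩]

/-- Moves. -/
noncomputable def t4_1 : List Mv := [
  mz,
  ⟨⟨33, -32, -5, -2, -15, -44, 36, 12, -25⟩, (.cons (nat_lit 532) (nat_lit 44) (nat_lit 815) (nat_lit 1) (.cons
 (nat_lit 615) (nat_lit 881) (nat_lit 225) (nat_lit 1) .nil)), (nat_lit 10), (nat_lit 0), (nat_lit 0), (nat_lit
 0), (9, 19, 2), [237, 1896], 0⟩,
  mz,
  mz,
  ⟨⟨19, 36, -36, -20, -13, -30, 34, -8, -35⟩, (.cons (nat_lit 393) (nat_lit 200) (nat_lit 615) (nat_lit 1)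
 (.cons (nat_lit 4814) (nat_lit 3099) (nat_lit 2319) (nat_lit 1) .nil)), (nat_lit 18), (nat_lit 0), (nat_lit
 0), (nat_lit 0), (14, 26, 16), [55, 4321], 0⟩,
  ⟨⟨3, 44, 17, -2, -15, 46, 36, 12, -11⟩, (.cons (nat_lit 624) (nat_lit 21) (nat_lit 525) (nat_lit 1) (.cons
 (nat_lit 4571) (nat_lit 2947) (nat_lit 3726) (nat_lit 1) .nil)), (nat_lit 33), (nat_lit 0), (nat_lit 0),
 (nat_lit 0), (33, 21, 9), [583, 2773], 0⟩,
  ⟨⟨39, 16, -43, -20, 37, 0, 2, -8, -43⟩, (.cons (nat_lit 198) (nat_lit 528) (nat_lit 330) (nat_lit 1) (.cons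
 (nat_lit 4593) (nat_lit 4672) (nat_lit 2443) (nat_lit 1) .nil)), (nat_lit 37), (nat_lit 0), (nat_lit 0),
 (nat_lit 0), (35, 3, 4), [499, 1309], 0⟩,
  ⟨⟨33, 8, -53, -20, -27, -20, 30, -24, -13⟩, (.cons (nat_lit 844) (nat_lit 766) (nat_lit 619) (nat_lit 1)
 (.cons (nat_lit 1072) (nat_lit 2194) (nat_lit 2530) (nat_lit 1) .nil)), (nat_lit 36), (nat_lit 0), (nat_lit
 0), (nat_lit 0), (32, 21, 33), [272, 3265], 0⟩,
  ⟨⟨-39, -16, -4, 20, -37, -20, -2, 8, -41⟩, (.cons (nat_lit 282) (nat_lit 788) (nat_lit 251) (nat_lit 1)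
 (.cons (nat_lit 1383) (nat_lit 1478) (nat_lit 4004) (nat_lit 1) .nil)), (nat_lit 37), (nat_lit 0), (nat_lit
 0), (nat_lit 0), (6, 30, 40), [401, 1559], 0⟩,
  ⟨⟨-29, 0, -27, 0, -43, 0, 18, 0, -47⟩, (.cons (nat_lit 745) (nat_lit 605) (nat_lit 1) (nat_lit 248) (.cons
 (nat_lit 4385) (nat_lit 883) (nat_lit 3512) (nat_lit 1) .nil)), (nat_lit 34), (nat_lit 0), (nat_lit 0),
 (nat_lit 0), (33, 0, 24), [936, 558], 0⟩,
  ⟨⟨21, -20, 31, 38, 15, -34, 12, -36, -13⟩, (.cons (nat_lit 887) (nat_lit 515) (nat_lit 1) (nat_lit 155)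
 (.cons (nat_lit 2029) (nat_lit 2026) (nat_lit 2535) (nat_lit 1) .nil)), (nat_lit 38), (nat_lit 0), (nat_lit
 0), (nat_lit 0), (8, 37, 23), [259, 1411], 0⟩,
  mz,
  ⟨⟨-19, -36, -17, 20, 13, -50, -34, 8, -1⟩, (.cons (nat_lit 855) (nat_lit 436) (nat_lit 453) (nat_lit 1)
 (.cons (nat_lit 1970) (nat_lit 2527) (nat_lit 2321) (nat_lit 1) .nil)), (nat_lit 18), (nat_lit 0), (nat_lit
 0), (nat_lit 0), (24, 20, 9), [240, 1938], 0⟩,
  ⟨⟨33, 8, 20, 20, 27, -40, 30, -24, -17⟩, (.cons (nat_lit 960) (nat_lit 887) (nat_lit 699) (nat_lit 1) (.cons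
 (nat_lit 5040) (nat_lit 4810) (nat_lit 803) (nat_lit 1) .nil)), (nat_lit 13), (nat_lit 0), (nat_lit 0),
 (nat_lit 0), (4, 35, 31), [540, 3747], 0⟩,
  mz,
  mz,
  mz,
  ⟨⟨9, -4, -56, -40, 13, 10, 14, 32, -25⟩, (.cons (nat_lit 524) (nat_lit 132) (nat_lit 8) (nat_lit 1) (.cons
 (nat_lit 5015) (nat_lit 4396) (nat_lit 174) (nat_lit 1) .nil)), (nat_lit 39), (nat_lit 0), (nat_lit 0),
 (nat_lit 0), (19, 35, 20), [188, 535], 0⟩,
  ⟨⟨-9, 4, -47, -40, 13, 30, -14, -32, -11⟩, (.cons (nat_lit 825) (nat_lit 675) (nat_lit 104) (nat_lit 1)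
 (.cons (nat_lit 3759) (nat_lit 3292) (nat_lit 1332) (nat_lit 1) .nil)), (nat_lit 12), (nat_lit 0), (nat_lit
 0), (nat_lit 0), (37, 2, 5), [181, 3744], 0⟩,
  mz,
  mz,
  ⟨⟨21, 20, 31, -38, 15, 34, 12, 36, -13⟩, (.cons (nat_lit 97) (nat_lit 774) (nat_lit 631) (nat_lit 1) (.cons
 (nat_lit 3506) (nat_lit 3952) (nat_lit 3215) (nat_lit 1) .nil)), (nat_lit 1), (nat_lit 0), (nat_lit 0),
 (nat_lit 0), (12, 9, 13), [843, 1132], 0⟩,
  ⟨⟨-21, 20, 52, 38, 15, -4, -12, 36, -1⟩, (.cons (nat_lit 934) (nat_lit 489) (nat_lit 442) (nat_lit 1) (.cons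
 (nat_lit 2057) (nat_lit 2479) (nat_lit 3115) (nat_lit 1) .nil)), (nat_lit 1), (nat_lit 0), (nat_lit 0),
 (nat_lit 0), (12, 9, 13), [658, 3769], 0⟩,
  mz,
  mz,
  ⟨⟨5, -36, 31, 40, 13, -10, 14, -32, -25⟩, (.cons (nat_lit 426) (nat_lit 137) (nat_lit 616) (nat_lit 1) (.cons
 (nat_lit 4318) (nat_lit 4700) (nat_lit 3510) (nat_lit 1) .nil)), (nat_lit 31), (nat_lit 0), (nat_lit 0),
 (nat_lit 0), (11, 2, 5), [61, 2323], 0⟩,
  ⟨⟨-5, 36, 36, 40, 13, -30, -14, 32, -11⟩, (.cons (nat_lit 333) (nat_lit 404) (nat_lit 650) (nat_lit 1) (.cons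
 (nat_lit 661) (nat_lit 948) (nat_lit 3988) (nat_lit 1) .nil)), (nat_lit 4), (nat_lit 0), (nat_lit 0), (nat_lit
 0), (1, 35, 20), [815, 3595], 0⟩,
  mz,
  mz,
  mz,
  ⟨⟨33, -8, -53, 20, -27, 20, 30, 24, -13⟩, (.cons (nat_lit 69) (nat_lit 883) (nat_lit 509) (nat_lit 1) (.cons
 (nat_lit 78) (nat_lit 2850) (nat_lit 785) (nat_lit 1) .nil)), (nat_lit 13), (nat_lit 0), (nat_lit 0), (nat_lit
 0), (39, 8, 12), [427, 993], 0⟩,
  ⟨⟨19, -36, -36, -20, 13, -30, 34, 8, -35⟩, (.cons (nat_lit 772) (nat_lit 314) (nat_lit 698) (nat_lit 1)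
 (.cons (nat_lit 3737) (nat_lit 2003) (nat_lit 3026) (nat_lit 1) .nil)), (nat_lit 18), (nat_lit 0), (nat_lit
 0), (nat_lit 0), (24, 20, 9), [653, 2807], 0⟩,
  mz,
  ⟨⟨-21, -20, 52, 38, -15, -4, -12, -36, -1⟩, (.cons (nat_lit 282) (nat_lit 564) (nat_lit 493) (nat_lit 1)
 (.cons (nat_lit 1468) (nat_lit 1077) (nat_lit 4897) (nat_lit 1) .nil)), (nat_lit 1), (nat_lit 0), (nat_lit 0),
 (nat_lit 0), (8, 6, 23), [802, 2868], 0⟩,
  ⟨⟨-47, 0, 27, 0, -43, 0, -18, 0, -29⟩, (.cons (nat_lit 248) (nat_lit 728) (nat_lit 743) (nat_lit 1) (.cons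
 (nat_lit 1729) (nat_lit 716) (nat_lit 2157) (nat_lit 1) .nil)), (nat_lit 9), (nat_lit 0), (nat_lit 0),
 (nat_lit 0), (34, 0, 24), [657, 850], 0⟩,
  ⟨⟨-37, 24, 0, 20, 37, 0, 2, 8, -43⟩, (.cons (nat_lit 960) (nat_lit 908) (nat_lit 889) (nat_lit 1) (.cons
 (nat_lit 5040) (nat_lit 1774) (nat_lit 2834) (nat_lit 1) .nil)), (nat_lit 35), (nat_lit 0), (nat_lit 0),
 (nat_lit 0), (34, 13, 40), [200, 54], 0⟩,
  ⟨⟨33, -8, 20, 20, -27, -40, 30, 24, -17⟩, (.cons (nat_lit 322) (nat_lit 735) (nat_lit 627) (nat_lit 1) (.cons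
 (nat_lit 752) (nat_lit 3747) (nat_lit 3682) (nat_lit 1) .nil)), (nat_lit 13), (nat_lit 0), (nat_lit 0),
 (nat_lit 0), (11, 21, 10), [838, 4653], 0⟩,
  ⟨⟨-39, 16, -4, 20, 37, -20, -2, -8, -41⟩, (.cons (nat_lit 960) (nat_lit 57) (nat_lit 731) (nat_lit 1) (.cons
 (nat_lit 5040) (nat_lit 898) (nat_lit 4717) (nat_lit 1) .nil)), (nat_lit 37), (nat_lit 0), (nat_lit 0),
 (nat_lit 0), (35, 3, 4), [541, 4172], 0⟩,
  ⟨⟨3, -44, -20, -2, 15, -44, 36, -12, -25⟩, (.cons (nat_lit 698) (nat_lit 204) (nat_lit 1) (nat_lit 899)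
 (.cons (nat_lit 2833) (nat_lit 3836) (nat_lit 2460) (nat_lit 1) .nil)), (nat_lit 33), (nat_lit 0), (nat_lit
 0), (nat_lit 0), (10, 22, 34), [466, 4050], 0⟩,
  ⟨⟨-15, -44, 16, 20, -13, -50, -34, -8, -1⟩, (.cons (nat_lit 952) (nat_lit 845) (nat_lit 283) (nat_lit 1)
 (.cons (nat_lit 4132) (nat_lit 2927) (nat_lit 3421) (nat_lit 1) .nil)), (nat_lit 25), (nat_lit 0), (nat_lit
 0), (nat_lit 0), (2, 26, 16), [492, 2307], 0⟩,
  mz,
  mz,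
  ⟨⟨33, 32, -28, 2, -15, -46, 36, -12, -11⟩, (.cons (nat_lit 0) (nat_lit 557) (nat_lit 641) (nat_lit 1) (.cons
 (nat_lit 223) (nat_lit 947) (nat_lit 2537) (nat_lit 1) .nil)), (nat_lit 21), (nat_lit 0), (nat_lit 0),
 (nat_lit 0), (34, 19, 41), [616, 4457], 0⟩]

/-- Moves. -/
noncomputable def t4_4 : List Mv := [
  mz,
  ⟨⟨3, 44, -20, -2, -15, -44, 36, 12, -25⟩, (.cons (nat_lit 610) (nat_lit 959) (nat_lit 63) (nat_lit 1) (.cons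
 (nat_lit 1741) (nat_lit 195) (nat_lit 3695) (nat_lit 1) .nil)), (nat_lit 33), (nat_lit 0), (nat_lit 0),
 (nat_lit 0), (36, 19, 2), [65, 1341], 0⟩,
  mz,
  mz,
  ⟨⟨19, 36, -36, -20, -13, -30, 34, -8, -35⟩, (.cons (nat_lit 393) (nat_lit 200) (nat_lit 615) (nat_lit 1)
 (.cons (nat_lit 4814) (nat_lit 3099) (nat_lit 2319) (nat_lit 1) .nil)), (nat_lit 18), (nat_lit 0), (nat_lit
 0), (nat_lit 0), (14, 26, 16), [55, 4321], 0⟩,
  ⟨⟨3, 44, 17, -2, -15, 46, 36, 12, -11⟩, (.cons (nat_lit 624) (nat_lit 21) (nat_lit 525) (nat_lit 1) (.cons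
 (nat_lit 4571) (nat_lit 2947) (nat_lit 3726) (nat_lit 1) .nil)), (nat_lit 33), (nat_lit 0), (nat_lit 0),
 (nat_lit 0), (33, 21, 9), [583, 2773], 0⟩,
  ⟨⟨39, 16, -43, 20, -37, 0, 2, -8, -43⟩, (.cons (nat_lit 311) (nat_lit 157) (nat_lit 407) (nat_lit 1) (.cons
 (nat_lit 3015) (nat_lit 3652) (nat_lit 1808) (nat_lit 1) .nil)), (nat_lit 8), (nat_lit 0), (nat_lit 0),
 (nat_lit 0), (35, 40, 4), [722, 1734], 0⟩,
  ⟨⟨33, 8, -53, -20, -27, -20, 30, -24, -13⟩, (.cons (nat_lit 844) (nat_lit 766) (nat_lit 619) (nat_lit 1)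
 (.cons (nat_lit 1072) (nat_lit 2194) (nat_lit 2530) (nat_lit 1) .nil)), (nat_lit 36), (nat_lit 0), (nat_lit
 0), (nat_lit 0), (32, 21, 33), [272, 3265], 0⟩,
  ⟨⟨37, 24, -37, 20, -37, -20, -2, 8, -41⟩, (.cons (nat_lit 652) (nat_lit 463) (nat_lit 833) (nat_lit 1) (.cons
 (nat_lit 525) (nat_lit 3321) (nat_lit 3549) (nat_lit 1) .nil)), (nat_lit 6), (nat_lit 0), (nat_lit 0),
 (nat_lit 0), (34, 30, 40), [908, 1581], 0⟩,
  ⟨⟨-29, 0, -27, 0, -43, 0, 18, 0, -47⟩, (.cons (nat_lit 745) (nat_lit 605) (nat_lit 1) (nat_lit 248) (.cons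
 (nat_lit 4385) (nat_lit 883) (nat_lit 3512) (nat_lit 1) .nil)), (nat_lit 34), (nat_lit 0), (nat_lit 0),
 (nat_lit 0), (33, 0, 24), [936, 558], 0⟩,
  ⟨⟨21, -20, 31, 38, 15, -34, 12, -36, -13⟩, (.cons (nat_lit 887) (nat_lit 515) (nat_lit 1) (nat_lit 155)
 (.cons (nat_lit 2029) (nat_lit 2026) (nat_lit 2535) (nat_lit 1) .nil)), (nat_lit 38), (nat_lit 0), (nat_lit
 0), (nat_lit 0), (8, 37, 23), [259, 1411], 0⟩,
  mz,
  ⟨⟨-15, 44, 16, 20, 13, -50, -34, 8, -1⟩, (.cons (nat_lit 178) (nat_lit 821) (nat_lit 560) (nat_lit 1) (.cons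
 (nat_lit 3501) (nat_lit 405) (nat_lit 1639) (nat_lit 1) .nil)), (nat_lit 25), (nat_lit 0), (nat_lit 0),
 (nat_lit 0), (28, 20, 9), [939, 3311], 0⟩,
  ⟨⟨33, 8, 20, 20, 27, -40, 30, -24, -17⟩, (.cons (nat_lit 960) (nat_lit 887) (nat_lit 699) (nat_lit 1) (.cons
 (nat_lit 5040) (nat_lit 4810) (nat_lit 803) (nat_lit 1) .nil)), (nat_lit 13), (nat_lit 0), (nat_lit 0),
 (nat_lit 0), (4, 35, 31), [540, 3747], 0⟩,
  mz,
  mz,
  mz,
  ⟨⟨5, 36, 31, 40, -13, -10, 14, 32, -25⟩, (.cons (nat_lit 356) (nat_lit 246) (nat_lit 50) (nat_lit 1) (.cons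
 (nat_lit 1458) (nat_lit 2748) (nat_lit 4217) (nat_lit 1) .nil)), (nat_lit 31), (nat_lit 0), (nat_lit 0),
 (nat_lit 0), (1, 8, 20), [543, 2423], 0⟩,
  ⟨⟨-5, -36, 36, 40, -13, -30, -14, -32, -11⟩, (.cons (nat_lit 313) (nat_lit 826) (nat_lit 666) (nat_lit 1)
 (.cons (nat_lit 644) (nat_lit 480) (nat_lit 3741) (nat_lit 1) .nil)), (nat_lit 4), (nat_lit 0), (nat_lit 0),
 (nat_lit 0), (11, 41, 5), [929, 3797], 0⟩,
  mz,
  mz,
  ⟨⟨-9, 16, -44, -38, 15, 34, 12, 36, -13⟩, (.cons (nat_lit 958) (nat_lit 710) (nat_lit 1) (nat_lit 0) (.cons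
 (nat_lit 4182) (nat_lit 1872) (nat_lit 1571) (nat_lit 1) .nil)), (nat_lit 42), (nat_lit 0), (nat_lit 0),
 (nat_lit 0), (1, 9, 13), [222, 2701], 0⟩,
  ⟨⟨9, 16, -53, 38, 15, -4, -12, 36, -1⟩, (.cons (nat_lit 620) (nat_lit 270) (nat_lit 897) (nat_lit 1) (.cons
 (nat_lit 1304) (nat_lit 4689) (nat_lit 950) (nat_lit 1) .nil)), (nat_lit 42), (nat_lit 0), (nat_lit 0),
 (nat_lit 0), (1, 9, 13), [61, 2152], 0⟩,
  mz,
  mz,
  ⟨⟨5, -36, 31, -40, -13, 10, 14, -32, -25⟩, (.cons (nat_lit 901) (nat_lit 814) (nat_lit 839) (nat_lit 1)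
 (.cons (nat_lit 3017) (nat_lit 1765) (nat_lit 3097) (nat_lit 1) .nil)), (nat_lit 4), (nat_lit 0), (nat_lit 0),
 (nat_lit 0), (11, 41, 5), [824, 3598], 0⟩,
  ⟨⟨-5, 36, 36, 40, 13, -30, -14, 32, -11⟩, (.cons (nat_lit 333) (nat_lit 404) (nat_lit 650) (nat_lit 1) (.cons
 (nat_lit 661) (nat_lit 948) (nat_lit 3988) (nat_lit 1) .nil)), (nat_lit 4), (nat_lit 0), (nat_lit 0), (nat_lit
 0), (1, 35, 20), [815, 3595], 0⟩,
  mz,
  mz,
  mz,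
  ⟨⟨33, -8, -53, -20, 27, -20, 30, 24, -13⟩, (.cons (nat_lit 579) (nat_lit 240) (nat_lit 449) (nat_lit 1)
 (.cons (nat_lit 3240) (nat_lit 4632) (nat_lit 4159) (nat_lit 1) .nil)), (nat_lit 36), (nat_lit 0), (nat_lit
 0), (nat_lit 0), (39, 35, 12), [173, 2636], 0⟩,
  ⟨⟨15, 44, 1, 20, -13, 30, 34, 8, -35⟩, (.cons (nat_lit 494) (nat_lit 523) (nat_lit 286) (nat_lit 1) (.cons
 (nat_lit 1179) (nat_lit 1471) (nat_lit 3624) (nat_lit 1) .nil)), (nat_lit 17), (nat_lit 0), (nat_lit 0),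
 (nat_lit 0), (28, 23, 9), [219, 808], 0⟩,
  mz,
  ⟨⟨-21, -20, 52, 38, -15, -4, -12, -36, -1⟩, (.cons (nat_lit 282) (nat_lit 564) (nat_lit 493) (nat_lit 1)
 (.cons (nat_lit 1468) (nat_lit 1077) (nat_lit 4897) (nat_lit 1) .nil)), (nat_lit 1), (nat_lit 0), (nat_lit 0),
 (nat_lit 0), (8, 6, 23), [802, 2868], 0⟩,
  ⟨⟨-47, 0, 27, 0, 43, 0, -18, 0, -29⟩, (.cons (nat_lit 109) (nat_lit 116) (nat_lit 356) (nat_lit 1) (.cons
 (nat_lit 4300) (nat_lit 276) (nat_lit 2662) (nat_lit 1) .nil)), (nat_lit 9), (nat_lit 0), (nat_lit 0),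
 (nat_lit 0), (34, 0, 24), [82, 2755], 0⟩,
  ⟨⟨-37, 24, 0, -20, -37, 0, 2, 8, -43⟩, (.cons (nat_lit 778) (nat_lit 668) (nat_lit 57) (nat_lit 1) (.cons
 (nat_lit 4365) (nat_lit 2578) (nat_lit 1823) (nat_lit 1) .nil)), (nat_lit 6), (nat_lit 0), (nat_lit 0),
 (nat_lit 0), (34, 30, 40), [866, 2056], 0⟩,
  ⟨⟨-3, 32, -37, -20, 27, 40, 30, 24, -17⟩, (.cons (nat_lit 846) (nat_lit 639) (nat_lit 71) (nat_lit 1) (.cons
 (nat_lit 3682) (nat_lit 2415) (nat_lit 308) (nat_lit 1) .nil)), (nat_lit 7), (nat_lit 0), (nat_lit 0),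
 (nat_lit 0), (42, 22, 10), [784, 2940], 0⟩,
  ⟨⟨-39, 16, -4, -20, -37, 20, -2, -8, -41⟩, (.cons (nat_lit 610) (nat_lit 781) (nat_lit 650) (nat_lit 1)
 (.cons (nat_lit 4425) (nat_lit 3068) (nat_lit 1415) (nat_lit 1) .nil)), (nat_lit 8), (nat_lit 0), (nat_lit 0),
 (nat_lit 0), (35, 40, 4), [513, 472], 0⟩,
  ⟨⟨3, -44, -20, -2, 15, -44, 36, -12, -25⟩, (.cons (nat_lit 698) (nat_lit 204) (nat_lit 1) (nat_lit 899)
 (.cons (nat_lit 2833) (nat_lit 3836) (nat_lit 2460) (nat_lit 1) .nil)), (nat_lit 33), (nat_lit 0), (nat_lit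
 0), (nat_lit 0), (10, 22, 34), [466, 4050], 0⟩,
  ⟨⟨-15, -44, 16, -20, 13, 50, -34, -8, -1⟩, (.cons (nat_lit 475) (nat_lit 726) (nat_lit 44) (nat_lit 1) (.cons
 (nat_lit 3296) (nat_lit 3659) (nat_lit 1170) (nat_lit 1) .nil)), (nat_lit 17), (nat_lit 0), (nat_lit 0),
 (nat_lit 0), (2, 17, 16), [882, 3528], 0⟩,
  mz,
  mz,
  ⟨⟨33, 32, -28, 2, -15, -46, 36, -12, -11⟩, (.cons (nat_lit 0) (nat_lit 557) (nat_lit 641) (nat_lit 1) (.cons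
 (nat_lit 223) (nat_lit 947) (nat_lit 2537) (nat_lit 1) .nil)), (nat_lit 21), (nat_lit 0), (nat_lit 0),
 (nat_lit 0), (34, 19, 41), [616, 4457], 0⟩]

/-- Moves. -/
noncomputable def t4_6 : List Mv := [
  mz,
  ⟨⟨3, 44, -20, -2, -15, -44, 36, 12, -25⟩, (.cons (nat_lit 610) (nat_lit 959) (nat_lit 63) (nat_lit 1) (.cons
 (nat_lit 1741) (nat_lit 195) (nat_lit 3695) (nat_lit 1) .nil)), (nat_lit 33), (nat_lit 0), (nat_lit 0),
 (nat_lit 0), (36, 19, 2), [65, 1341], 0⟩,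
  mz,
  mz,
  ⟨⟨19, 36, -36, -20, -13, -30, 34, -8, -35⟩, (.cons (nat_lit 393) (nat_lit 200) (nat_lit 615) (nat_lit 1)
 (.cons (nat_lit 4814) (nat_lit 3099) (nat_lit 2319) (nat_lit 1) .nil)), (nat_lit 18), (nat_lit 0), (nat_lit
 0), (nat_lit 0), (14, 26, 16), [55, 4321], 0⟩,
  ⟨⟨33, -32, -28, 2, 15, -46, 36, 12, -11⟩, (.cons (nat_lit 313) (nat_lit 541) (nat_lit 477) (nat_lit 1) (.cons
 (nat_lit 3882) (nat_lit 4654) (nat_lit 1616) (nat_lit 1) .nil)), (nat_lit 21), (nat_lit 0), (nat_lit 0),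
 (nat_lit 0), (19, 22, 9), [221, 3735], 0⟩,
  ⟨⟨-37, -24, 0, -20, 37, 0, 2, -8, -43⟩, (.cons (nat_lit 960) (nat_lit 612) (nat_lit 264) (nat_lit 1) (.cons
 (nat_lit 5040) (nat_lit 2883) (nat_lit 1602) (nat_lit 1) .nil)), (nat_lit 6), (nat_lit 0), (nat_lit 0),
 (nat_lit 0), (12, 3, 4), [563, 1896], 0⟩,
  ⟨⟨33, 8, -53, -20, -27, -20, 30, -24, -13⟩, (.cons (nat_lit 844) (nat_lit 766) (nat_lit 619) (nat_lit 1)
 (.cons (nat_lit 1072) (nat_lit 2194) (nat_lit 2530) (nat_lit 1) .nil)), (nat_lit 36), (nat_lit 0), (nat_lit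
 0), (nat_lit 0), (32, 21, 33), [272, 3265], 0⟩,
  ⟨⟨-39, -16, -4, 20, -37, -20, -2, 8, -41⟩, (.cons (nat_lit 282) (nat_lit 788) (nat_lit 251) (nat_lit 1)
 (.cons (nat_lit 1383) (nat_lit 1478) (nat_lit 4004) (nat_lit 1) .nil)), (nat_lit 37), (nat_lit 0), (nat_lit
 0), (nat_lit 0), (6, 30, 40), [401, 1559], 0⟩,
  ⟨⟨-29, 0, -27, 0, 43, 0, 18, 0, -47⟩, (.cons (nat_lit 529) (nat_lit 140) (nat_lit 32) (nat_lit 1) (.cons
 (nat_lit 3211) (nat_lit 980) (nat_lit 1854) (nat_lit 1) .nil)), (nat_lit 34), (nat_lit 0), (nat_lit 0),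
 (nat_lit 0), (33, 0, 24), [204, 4865], 0⟩,
  ⟨⟨21, -20, 31, 38, 15, -34, 12, -36, -13⟩, (.cons (nat_lit 887) (nat_lit 515) (nat_lit 1) (nat_lit 155)
 (.cons (nat_lit 2029) (nat_lit 2026) (nat_lit 2535) (nat_lit 1) .nil)), (nat_lit 38), (nat_lit 0), (nat_lit
 0), (nat_lit 0), (8, 37, 23), [259, 1411], 0⟩,
  mz,
  ⟨⟨-15, 44, 16, 20, 13, -50, -34, 8, -1⟩, (.cons (nat_lit 178) (nat_lit 821) (nat_lit 560) (nat_lit 1) (.cons
 (nat_lit 3501) (nat_lit 405) (nat_lit 1639) (nat_lit 1) .nil)), (nat_lit 25), (nat_lit 0), (nat_lit 0),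
 (nat_lit 0), (28, 20, 9), [939, 3311], 0⟩,
  ⟨⟨-3, -32, -37, 20, 27, -40, 30, -24, -17⟩, (.cons (nat_lit 195) (nat_lit 795) (nat_lit 689) (nat_lit 1)
 (.cons (nat_lit 2262) (nat_lit 739) (nat_lit 3803) (nat_lit 1) .nil)), (nat_lit 30), (nat_lit 0), (nat_lit 0),
 (nat_lit 0), (27, 35, 31), [381, 1449], 0⟩,
  mz,
  mz,
  mz,
  ⟨⟨5, 36, 31, 40, -13, -10, 14, 32, -25⟩, (.cons (nat_lit 356) (nat_lit 246) (nat_lit 50) (nat_lit 1) (.cons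
 (nat_lit 1458) (nat_lit 2748) (nat_lit 4217) (nat_lit 1) .nil)), (nat_lit 31), (nat_lit 0), (nat_lit 0),
 (nat_lit 0), (1, 8, 20), [543, 2423], 0⟩,
  ⟨⟨-5, -36, 36, 40, -13, -30, -14, -32, -11⟩, (.cons (nat_lit 313) (nat_lit 826) (nat_lit 666) (nat_lit 1)
 (.cons (nat_lit 644) (nat_lit 480) (nat_lit 3741) (nat_lit 1) .nil)), (nat_lit 4), (nat_lit 0), (nat_lit 0),
 (nat_lit 0), (11, 41, 5), [929, 3797], 0⟩,
  mz,
  mz,
  ⟨⟨21, 20, 31, 38, -15, -34, 12, 36, -13⟩, (.cons (nat_lit 274) (nat_lit 465) (nat_lit 714) (nat_lit 1) (.cons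
 (nat_lit 4320) (nat_lit 3817) (nat_lit 1985) (nat_lit 1) .nil)), (nat_lit 38), (nat_lit 0), (nat_lit 0),
 (nat_lit 0), (12, 34, 13), [436, 4079], 0⟩,
  ⟨⟨-21, 20, 52, -38, -15, 4, -12, 36, -1⟩, (.cons (nat_lit 117) (nat_lit 298) (nat_lit 682) (nat_lit 1) (.cons
 (nat_lit 921) (nat_lit 823) (nat_lit 482) (nat_lit 1) .nil)), (nat_lit 38), (nat_lit 0), (nat_lit 0), (nat_lit
 0), (12, 34, 13), [549, 4520], 0⟩,
  mz,
  mz,
  ⟨⟨9, 4, -56, -40, -13, 10, 14, -32, -25⟩, (.cons (nat_lit 427) (nat_lit 521) (nat_lit 245) (nat_lit 1) (.cons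
 (nat_lit 2551) (nat_lit 3985) (nat_lit 4041) (nat_lit 1) .nil)), (nat_lit 39), (nat_lit 0), (nat_lit 0),
 (nat_lit 0), (37, 41, 5), [362, 4922], 0⟩,
  ⟨⟨-9, -4, -47, 40, 13, -30, -14, 32, -11⟩, (.cons (nat_lit 678) (nat_lit 178) (nat_lit 42) (nat_lit 1) (.cons
 (nat_lit 2900) (nat_lit 5030) (nat_lit 3533) (nat_lit 1) .nil)), (nat_lit 39), (nat_lit 0), (nat_lit 0),
 (nat_lit 0), (19, 35, 20), [170, 3828], 0⟩,
  mz,
  mz,
  mz,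
  ⟨⟨33, -8, -53, -20, 27, -20, 30, 24, -13⟩, (.cons (nat_lit 579) (nat_lit 240) (nat_lit 449) (nat_lit 1)
 (.cons (nat_lit 3240) (nat_lit 4632) (nat_lit 4159) (nat_lit 1) .nil)), (nat_lit 36), (nat_lit 0), (nat_lit
 0), (nat_lit 0), (39, 35, 12), [173, 2636], 0⟩,
  ⟨⟨19, -36, -36, -20, 13, -30, 34, 8, -35⟩, (.cons (nat_lit 772) (nat_lit 314) (nat_lit 698) (nat_lit 1)
 (.cons (nat_lit 3737) (nat_lit 2003) (nat_lit 3026) (nat_lit 1) .nil)), (nat_lit 18), (nat_lit 0), (nat_lit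
 0), (nat_lit 0), (24, 20, 9), [653, 2807], 0⟩,
  mz,
  ⟨⟨9, -16, -53, -38, 15, 4, -12, -36, -1⟩, (.cons (nat_lit 442) (nat_lit 328) (nat_lit 512) (nat_lit 1) (.cons
 (nat_lit 547) (nat_lit 1111) (nat_lit 3483) (nat_lit 1) .nil)), (nat_lit 5), (nat_lit 0), (nat_lit 0),
 (nat_lit 0), (15, 37, 23), [508, 1715], 0⟩,
  ⟨⟨29, 0, -56, 0, -43, 0, -18, 0, -29⟩, (.cons (nat_lit 960) (nat_lit 33) (nat_lit 463) (nat_lit 1) (.cons
 (nat_lit 5040) (nat_lit 4262) (nat_lit 2835) (nat_lit 1) .nil)), (nat_lit 34), (nat_lit 0), (nat_lit 0),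
 (nat_lit 0), (33, 0, 24), [284, 1594], 0⟩,
  ⟨⟨-37, 24, 0, 20, 37, 0, 2, 8, -43⟩, (.cons (nat_lit 960) (nat_lit 908) (nat_lit 889) (nat_lit 1) (.cons
 (nat_lit 5040) (nat_lit 1774) (nat_lit 2834) (nat_lit 1) .nil)), (nat_lit 35), (nat_lit 0), (nat_lit 0),
 (nat_lit 0), (34, 13, 40), [200, 54], 0⟩,
  ⟨⟨33, -8, 20, -20, 27, 40, 30, 24, -17⟩, (.cons (nat_lit 960) (nat_lit 671) (nat_lit 593) (nat_lit 1) (.cons
 (nat_lit 5040) (nat_lit 1241) (nat_lit 4711) (nat_lit 1) .nil)), (nat_lit 36), (nat_lit 0), (nat_lit 0),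
 (nat_lit 0), (11, 22, 10), [228, 3507], 0⟩,
  ⟨⟨-39, 16, -4, 20, 37, -20, -2, -8, -41⟩, (.cons (nat_lit 960) (nat_lit 57) (nat_lit 731) (nat_lit 1) (.cons
 (nat_lit 5040) (nat_lit 898) (nat_lit 4717) (nat_lit 1) .nil)), (nat_lit 37), (nat_lit 0), (nat_lit 0),
 (nat_lit 0), (35, 3, 4), [541, 4172], 0⟩,
  ⟨⟨3, -44, -20, -2, 15, -44, 36, -12, -25⟩, (.cons (nat_lit 698) (nat_lit 204) (nat_lit 1) (nat_lit 899)
 (.cons (nat_lit 2833) (nat_lit 3836) (nat_lit 2460) (nat_lit 1) .nil)), (nat_lit 33), (nat_lit 0), (nat_lit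
 0), (nat_lit 0), (10, 22, 34), [466, 4050], 0⟩,
  ⟨⟨-19, 36, -17, -20, 13, 50, -34, -8, -1⟩, (.cons (nat_lit 798) (nat_lit 184) (nat_lit 119) (nat_lit 1)
 (.cons (nat_lit 3892) (nat_lit 2484) (nat_lit 1412) (nat_lit 1) .nil)), (nat_lit 26), (nat_lit 0), (nat_lit
 0), (nat_lit 0), (14, 17, 16), [30, 903], 0⟩,
  mz,
  mz,
  ⟨⟨33, 32, -28, 2, -15, -46, 36, -12, -11⟩, (.cons (nat_lit 0) (nat_lit 557) (nat_lit 641) (nat_lit 1) (.cons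
 (nat_lit 223) (nat_lit 947) (nat_lit 2537) (nat_lit 1) .nil)), (nat_lit 21), (nat_lit 0), (nat_lit 0),
 (nat_lit 0), (34, 19, 41), [616, 4457], 0⟩]

/-- Moves. -/
noncomputable def t4_8 : List Mv := [
  mz,
  ⟨⟨33, -32, -5, 2, 15, 44, 36, 12, -25⟩, (.cons (nat_lit 535) (nat_lit 101) (nat_lit 687) (nat_lit 1) (.cons
 (nat_lit 1399) (nat_lit 1129) (nat_lit 3828) (nat_lit 1) .nil)), (nat_lit 21), (nat_lit 0), (nat_lit 0),
 (nat_lit 0), (9, 24, 2), [756, 1786], 0⟩,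
  mz,
  mz,
  ⟨⟨19, 36, -36, -20, -13, -30, 34, -8, -35⟩, (.cons (nat_lit 393) (nat_lit 200) (nat_lit 615) (nat_lit 1)
 (.cons (nat_lit 4814) (nat_lit 3099) (nat_lit 2319) (nat_lit 1) .nil)), (nat_lit 18), (nat_lit 0), (nat_lit
 0), (nat_lit 0), (14, 26, 16), [55, 4321], 0⟩,
  ⟨⟨3, 44, 17, 2, 15, -46, 36, 12, -11⟩, (.cons (nat_lit 273) (nat_lit 306) (nat_lit 218) (nat_lit 1) (.cons
 (nat_lit 3831) (nat_lit 505) (nat_lit 3196) (nat_lit 1) .nil)), (nat_lit 22), (nat_lit 0), (nat_lit 0),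
 (nat_lit 0), (33, 22, 9), [613, 3313], 0⟩,
  ⟨⟨-37, -24, 0, -20, 37, 0, 2, -8, -43⟩, (.cons (nat_lit 960) (nat_lit 612) (nat_lit 264) (nat_lit 1) (.cons
 (nat_lit 5040) (nat_lit 2883) (nat_lit 1602) (nat_lit 1) .nil)), (nat_lit 6), (nat_lit 0), (nat_lit 0),
 (nat_lit 0), (12, 3, 4), [563, 1896], 0⟩,
  ⟨⟨33, 8, -53, -20, -27, -20, 30, -24, -13⟩, (.cons (nat_lit 844) (nat_lit 766) (nat_lit 619) (nat_lit 1)
 (.cons (nat_lit 1072) (nat_lit 2194) (nat_lit 2530) (nat_lit 1) .nil)), (nat_lit 36), (nat_lit 0), (nat_lit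
 0), (nat_lit 0), (32, 21, 33), [272, 3265], 0⟩,
  ⟨⟨-39, -16, -4, 20, -37, -20, -2, 8, -41⟩, (.cons (nat_lit 282) (nat_lit 788) (nat_lit 251) (nat_lit 1)
 (.cons (nat_lit 1383) (nat_lit 1478) (nat_lit 4004) (nat_lit 1) .nil)), (nat_lit 37), (nat_lit 0), (nat_lit
 0), (nat_lit 0), (6, 30, 40), [401, 1559], 0⟩,
  ⟨⟨-29, 0, -27, 0, -43, 0, 18, 0, -47⟩, (.cons (nat_lit 745) (nat_lit 605) (nat_lit 1) (nat_lit 248) (.cons
 (nat_lit 4385) (nat_lit 883) (nat_lit 3512) (nat_lit 1) .nil)), (nat_lit 34), (nat_lit 0), (nat_lit 0),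
 (nat_lit 0), (33, 0, 24), [936, 558], 0⟩,
  ⟨⟨21, -20, 31, -38, -15, 34, 12, -36, -13⟩, (.cons (nat_lit 56) (nat_lit 419) (nat_lit 488) (nat_lit 1)
 (.cons (nat_lit 4541) (nat_lit 1933) (nat_lit 1598) (nat_lit 1) .nil)), (nat_lit 1), (nat_lit 0), (nat_lit 0),
 (nat_lit 0), (8, 6, 23), [379, 4852], 0⟩,
  mz,
  ⟨⟨-15, 44, 16, 20, 13, -50, -34, 8, -1⟩, (.cons (nat_lit 178) (nat_lit 821) (nat_lit 560) (nat_lit 1) (.cons
 (nat_lit 3501) (nat_lit 405) (nat_lit 1639) (nat_lit 1) .nil)), (nat_lit 25), (nat_lit 0), (nat_lit 0),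
 (nat_lit 0), (28, 20, 9), [939, 3311], 0⟩,
  ⟨⟨33, 8, 20, 20, 27, -40, 30, -24, -17⟩, (.cons (nat_lit 960) (nat_lit 887) (nat_lit 699) (nat_lit 1) (.cons
 (nat_lit 5040) (nat_lit 4810) (nat_lit 803) (nat_lit 1) .nil)), (nat_lit 13), (nat_lit 0), (nat_lit 0),
 (nat_lit 0), (4, 35, 31), [540, 3747], 0⟩,
  mz,
  mz,
  mz,
  ⟨⟨9, -4, -56, 40, -13, -10, 14, 32, -25⟩, (.cons (nat_lit 672) (nat_lit 633) (nat_lit 524) (nat_lit 1) (.cons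
 (nat_lit 5027) (nat_lit 3450) (nat_lit 1556) (nat_lit 1) .nil)), (nat_lit 12), (nat_lit 0), (nat_lit 0),
 (nat_lit 0), (19, 8, 20), [489, 771], 0⟩,
  ⟨⟨-5, -36, 36, 40, -13, -30, -14, -32, -11⟩, (.cons (nat_lit 313) (nat_lit 826) (nat_lit 666) (nat_lit 1)
 (.cons (nat_lit 644) (nat_lit 480) (nat_lit 3741) (nat_lit 1) .nil)), (nat_lit 4), (nat_lit 0), (nat_lit 0),
 (nat_lit 0), (11, 41, 5), [929, 3797], 0⟩,
  mz,
  mz,
  ⟨⟨21, 20, 31, 38, -15, -34, 12, 36, -13⟩, (.cons (nat_lit 274) (nat_lit 465) (nat_lit 714) (nat_lit 1) (.cons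
 (nat_lit 4320) (nat_lit 3817) (nat_lit 1985) (nat_lit 1) .nil)), (nat_lit 38), (nat_lit 0), (nat_lit 0),
 (nat_lit 0), (12, 34, 13), [436, 4079], 0⟩,
  ⟨⟨9, 16, -53, -38, -15, 4, -12, 36, -1⟩, (.cons (nat_lit 873) (nat_lit 20) (nat_lit 925) (nat_lit 1) (.cons
 (nat_lit 1254) (nat_lit 1896) (nat_lit 4852) (nat_lit 1) .nil)), (nat_lit 5), (nat_lit 0), (nat_lit 0),
 (nat_lit 0), (1, 34, 13), [268, 1967], 0⟩,
  mz,
  mz,
  ⟨⟨9, 4, -56, 40, 13, -10, 14, -32, -25⟩, (.cons (nat_lit 27) (nat_lit 897) (nat_lit 256) (nat_lit 1) (.cons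
 (nat_lit 4586) (nat_lit 2799) (nat_lit 4718) (nat_lit 1) .nil)), (nat_lit 12), (nat_lit 0), (nat_lit 0),
 (nat_lit 0), (37, 2, 5), [299, 4759], 0⟩,
  ⟨⟨-5, 36, 36, 40, 13, -30, -14, 32, -11⟩, (.cons (nat_lit 333) (nat_lit 404) (nat_lit 650) (nat_lit 1) (.cons
 (nat_lit 661) (nat_lit 948) (nat_lit 3988) (nat_lit 1) .nil)), (nat_lit 4), (nat_lit 0), (nat_lit 0), (nat_lit
 0), (1, 35, 20), [815, 3595], 0⟩,
  mz,
  mz,
  mz,
  ⟨⟨33, -8, -53, -20, 27, -20, 30, 24, -13⟩, (.cons (nat_lit 579) (nat_lit 240) (nat_lit 449) (nat_lit 1)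
 (.cons (nat_lit 3240) (nat_lit 4632) (nat_lit 4159) (nat_lit 1) .nil)), (nat_lit 36), (nat_lit 0), (nat_lit
 0), (nat_lit 0), (39, 35, 12), [173, 2636], 0⟩,
  ⟨⟨15, 44, 1, 20, -13, 30, 34, 8, -35⟩, (.cons (nat_lit 494) (nat_lit 523) (nat_lit 286) (nat_lit 1) (.cons
 (nat_lit 1179) (nat_lit 1471) (nat_lit 3624) (nat_lit 1) .nil)), (nat_lit 17), (nat_lit 0), (nat_lit 0),
 (nat_lit 0), (28, 23, 9), [219, 808], 0⟩,
  mz,
  ⟨⟨9, -16, -53, -38, 15, 4, -12, -36, -1⟩, (.cons (nat_lit 442) (nat_lit 328) (nat_lit 512) (nat_lit 1) (.cons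
 (nat_lit 547) (nat_lit 1111) (nat_lit 3483) (nat_lit 1) .nil)), (nat_lit 5), (nat_lit 0), (nat_lit 0),
 (nat_lit 0), (15, 37, 23), [508, 1715], 0⟩,
  ⟨⟨29, 0, -56, 0, -43, 0, -18, 0, -29⟩, (.cons (nat_lit 960) (nat_lit 33) (nat_lit 463) (nat_lit 1) (.cons
 (nat_lit 5040) (nat_lit 4262) (nat_lit 2835) (nat_lit 1) .nil)), (nat_lit 34), (nat_lit 0), (nat_lit 0),
 (nat_lit 0), (33, 0, 24), [284, 1594], 0⟩,
  ⟨⟨39, -16, -43, 20, 37, 0, 2, 8, -43⟩, (.cons (nat_lit 942) (nat_lit 10) (nat_lit 839) (nat_lit 1) (.cons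
 (nat_lit 120) (nat_lit 4440) (nat_lit 4623) (nat_lit 1) .nil)), (nat_lit 8), (nat_lit 0), (nat_lit 0),
 (nat_lit 0), (6, 13, 40), [251, 4433], 0⟩,
  ⟨⟨33, -8, 20, -20, 27, 40, 30, 24, -17⟩, (.cons (nat_lit 960) (nat_lit 671) (nat_lit 593) (nat_lit 1) (.cons
 (nat_lit 5040) (nat_lit 1241) (nat_lit 4711) (nat_lit 1) .nil)), (nat_lit 36), (nat_lit 0), (nat_lit 0),
 (nat_lit 0), (11, 22, 10), [228, 3507], 0⟩,
  ⟨⟨37, -24, -37, 20, 37, -20, -2, -8, -41⟩, (.cons (nat_lit 199) (nat_lit 638) (nat_lit 639) (nat_lit 1)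
 (.cons (nat_lit 3792) (nat_lit 2891) (nat_lit 1502) (nat_lit 1) .nil)), (nat_lit 6), (nat_lit 0), (nat_lit 0),
 (nat_lit 0), (12, 3, 4), [817, 2783], 0⟩,
  ⟨⟨3, -44, -20, 2, -15, 44, 36, -12, -25⟩, (.cons (nat_lit 115) (nat_lit 326) (nat_lit 372) (nat_lit 1) (.cons
 (nat_lit 1029) (nat_lit 21) (nat_lit 3081) (nat_lit 1) .nil)), (nat_lit 22), (nat_lit 0), (nat_lit 0),
 (nat_lit 0), (10, 21, 34), [170, 633], 0⟩,
  ⟨⟨-15, -44, 16, 20, -13, -50, -34, -8, -1⟩, (.cons (nat_lit 952) (nat_lit 845) (nat_lit 283) (nat_lit 1)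
 (.cons (nat_lit 4132) (nat_lit 2927) (nat_lit 3421) (nat_lit 1) .nil)), (nat_lit 25), (nat_lit 0), (nat_lit
 0), (nat_lit 0), (2, 26, 16), [492, 2307], 0⟩,
  mz,
  mz,
  ⟨⟨33, 32, -28, 2, -15, -46, 36, -12, -11⟩, (.cons (nat_lit 0) (nat_lit 557) (nat_lit 641) (nat_lit 1) (.cons
 (nat_lit 223) (nat_lit 947) (nat_lit 2537) (nat_lit 1) .nil)), (nat_lit 21), (nat_lit 0), (nat_lit 0),
 (nat_lit 0), (34, 19, 41), [616, 4457], 0⟩]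

/-- Moves. -/
noncomputable def t4_19 : List Mv := [
  mz,
  ⟨⟨3, 44, -20, -2, -15, -44, 36, 12, -25⟩, (.cons (nat_lit 610) (nat_lit 959) (nat_lit 63) (nat_lit 1) (.cons
 (nat_lit 1741) (nat_lit 195) (nat_lit 3695) (nat_lit 1) .nil)), (nat_lit 33), (nat_lit 0), (nat_lit 0),
 (nat_lit 0), (36, 19, 2), [65, 1341], 0⟩,
  mz,
  mz,
  ⟨⟨15, -44, 1, -20, -13, -30, 34, -8, -35⟩, (.cons (nat_lit 16) (nat_lit 430) (nat_lit 30) (nat_lit 1) (.cons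
 (nat_lit 3051) (nat_lit 3814) (nat_lit 2928) (nat_lit 1) .nil)), (nat_lit 25), (nat_lit 0), (nat_lit 0),
 (nat_lit 0), (2, 26, 16), [485, 2890], 0⟩,
  ⟨⟨33, -32, -28, -2, -15, 46, 36, 12, -11⟩, (.cons (nat_lit 717) (nat_lit 97) (nat_lit 110) (nat_lit 1) (.cons
 (nat_lit 4755) (nat_lit 779) (nat_lit 3452) (nat_lit 1) .nil)), (nat_lit 10), (nat_lit 0), (nat_lit 0),
 (nat_lit 0), (19, 21, 9), [334, 3402], 0⟩,
  ⟨⟨-37, -24, 0, 20, -37, 0, 2, -8, -43⟩, (.cons (nat_lit 21) (nat_lit 387) (nat_lit 725) (nat_lit 1) (.cons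
 (nat_lit 4780) (nat_lit 2405) (nat_lit 1949) (nat_lit 1) .nil)), (nat_lit 35), (nat_lit 0), (nat_lit 0),
 (nat_lit 0), (12, 40, 4), [389, 2673], 0⟩,
  ⟨⟨33, 8, -53, -20, -27, -20, 30, -24, -13⟩, (.cons (nat_lit 844) (nat_lit 766) (nat_lit 619) (nat_lit 1)
 (.cons (nat_lit 1072) (nat_lit 2194) (nat_lit 2530) (nat_lit 1) .nil)), (nat_lit 36), (nat_lit 0), (nat_lit
 0), (nat_lit 0), (32, 21, 33), [272, 3265], 0⟩,
  ⟨⟨37, 24, -37, -20, 37, 20, -2, 8, -41⟩, (.cons (nat_lit 354) (nat_lit 304) (nat_lit 904) (nat_lit 1) (.cons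
 (nat_lit 4999) (nat_lit 5004) (nat_lit 2608) (nat_lit 1) .nil)), (nat_lit 35), (nat_lit 0), (nat_lit 0),
 (nat_lit 0), (34, 13, 40), [786, 1221], 0⟩,
  ⟨⟨-29, 0, -27, 0, -43, 0, 18, 0, -47⟩, (.cons (nat_lit 745) (nat_lit 605) (nat_lit 1) (nat_lit 248) (.cons
 (nat_lit 4385) (nat_lit 883) (nat_lit 3512) (nat_lit 1) .nil)), (nat_lit 34), (nat_lit 0), (nat_lit 0),
 (nat_lit 0), (33, 0, 24), [936, 558], 0⟩,
  ⟨⟨-9, -16, -44, 38, 15, -34, 12, -36, -13⟩, (.cons (nat_lit 256) (nat_lit 154) (nat_lit 670) (nat_lit 1)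
 (.cons (nat_lit 2591) (nat_lit 3052) (nat_lit 3643) (nat_lit 1) .nil)), (nat_lit 5), (nat_lit 0), (nat_lit 0),
 (nat_lit 0), (15, 37, 23), [634, 1244], 0⟩,
  mz,
  ⟨⟨-15, 44, 16, 20, 13, -50, -34, 8, -1⟩, (.cons (nat_lit 178) (nat_lit 821) (nat_lit 560) (nat_lit 1) (.cons
 (nat_lit 3501) (nat_lit 405) (nat_lit 1639) (nat_lit 1) .nil)), (nat_lit 25), (nat_lit 0), (nat_lit 0),
 (nat_lit 0), (28, 20, 9), [939, 3311], 0⟩,
  ⟨⟨33, 8, 20, 20, 27, -40, 30, -24, -17⟩, (.cons (nat_lit 960) (nat_lit 887) (nat_lit 699) (nat_lit 1) (.cons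
 (nat_lit 5040) (nat_lit 4810) (nat_lit 803) (nat_lit 1) .nil)), (nat_lit 13), (nat_lit 0), (nat_lit 0),
 (nat_lit 0), (4, 35, 31), [540, 3747], 0⟩,
  mz,
  mz,
  mz,
  ⟨⟨9, -4, -56, 40, -13, -10, 14, 32, -25⟩, (.cons (nat_lit 672) (nat_lit 633) (nat_lit 524) (nat_lit 1) (.cons
 (nat_lit 5027) (nat_lit 3450) (nat_lit 1556) (nat_lit 1) .nil)), (nat_lit 12), (nat_lit 0), (nat_lit 0),
 (nat_lit 0), (19, 8, 20), [489, 771], 0⟩,
  ⟨⟨-5, -36, 36, 40, -13, -30, -14, -32, -11⟩, (.cons (nat_lit 313) (nat_lit 826) (nat_lit 666) (nat_lit 1)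
 (.cons (nat_lit 644) (nat_lit 480) (nat_lit 3741) (nat_lit 1) .nil)), (nat_lit 4), (nat_lit 0), (nat_lit 0),
 (nat_lit 0), (11, 41, 5), [929, 3797], 0⟩,
  mz,
  mz,
  ⟨⟨21, 20, 31, 38, -15, -34, 12, 36, -13⟩, (.cons (nat_lit 274) (nat_lit 465) (nat_lit 714) (nat_lit 1) (.cons
 (nat_lit 4320) (nat_lit 3817) (nat_lit 1985) (nat_lit 1) .nil)), (nat_lit 38), (nat_lit 0), (nat_lit 0),
 (nat_lit 0), (12, 34, 13), [436, 4079], 0⟩,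
  ⟨⟨-21, 20, 52, 38, 15, -4, -12, 36, -1⟩, (.cons (nat_lit 934) (nat_lit 489) (nat_lit 442) (nat_lit 1) (.cons
 (nat_lit 2057) (nat_lit 2479) (nat_lit 3115) (nat_lit 1) .nil)), (nat_lit 1), (nat_lit 0), (nat_lit 0),
 (nat_lit 0), (12, 9, 13), [658, 3769], 0⟩,
  mz,
  mz,
  ⟨⟨9, 4, -56, 40, 13, -10, 14, -32, -25⟩, (.cons (nat_lit 27) (nat_lit 897) (nat_lit 256) (nat_lit 1) (.cons
 (nat_lit 4586) (nat_lit 2799) (nat_lit 4718) (nat_lit 1) .nil)), (nat_lit 12), (nat_lit 0), (nat_lit 0),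
 (nat_lit 0), (37, 2, 5), [299, 4759], 0⟩,
  ⟨⟨-5, 36, 36, 40, 13, -30, -14, 32, -11⟩, (.cons (nat_lit 333) (nat_lit 404) (nat_lit 650) (nat_lit 1) (.cons
 (nat_lit 661) (nat_lit 948) (nat_lit 3988) (nat_lit 1) .nil)), (nat_lit 4), (nat_lit 0), (nat_lit 0), (nat_lit
 0), (1, 35, 20), [815, 3595], 0⟩,
  mz,
  mz,
  mz,
  ⟨⟨33, -8, -53, -20, 27, -20, 30, 24, -13⟩, (.cons (nat_lit 579) (nat_lit 240) (nat_lit 449) (nat_lit 1)
 (.cons (nat_lit 3240) (nat_lit 4632) (nat_lit 4159) (nat_lit 1) .nil)), (nat_lit 36), (nat_lit 0), (nat_lit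
 0), (nat_lit 0), (39, 35, 12), [173, 2636], 0⟩,
  ⟨⟨15, 44, 1, -20, 13, -30, 34, 8, -35⟩, (.cons (nat_lit 864) (nat_lit 796) (nat_lit 170) (nat_lit 1) (.cons
 (nat_lit 1764) (nat_lit 1645) (nat_lit 3749) (nat_lit 1) .nil)), (nat_lit 25), (nat_lit 0), (nat_lit 0),
 (nat_lit 0), (28, 20, 9), [232, 3473], 0⟩,
  mz,
  ⟨⟨-21, -20, 52, -38, 15, 4, -12, -36, -1⟩, (.cons (nat_lit 837) (nat_lit 801) (nat_lit 866) (nat_lit 1)
 (.cons (nat_lit 4057) (nat_lit 3956) (nat_lit 960) (nat_lit 1) .nil)), (nat_lit 38), (nat_lit 0), (nat_lit 0),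
 (nat_lit 0), (8, 37, 23), [314, 2572], 0⟩,
  ⟨⟨29, 0, -56, 0, -43, 0, -18, 0, -29⟩, (.cons (nat_lit 960) (nat_lit 33) (nat_lit 463) (nat_lit 1) (.cons
 (nat_lit 5040) (nat_lit 4262) (nat_lit 2835) (nat_lit 1) .nil)), (nat_lit 34), (nat_lit 0), (nat_lit 0),
 (nat_lit 0), (33, 0, 24), [284, 1594], 0⟩,
  ⟨⟨-37, 24, 0, -20, -37, 0, 2, 8, -43⟩, (.cons (nat_lit 778) (nat_lit 668) (nat_lit 57) (nat_lit 1) (.cons
 (nat_lit 4365) (nat_lit 2578) (nat_lit 1823) (nat_lit 1) .nil)), (nat_lit 6), (nat_lit 0), (nat_lit 0),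
 (nat_lit 0), (34, 30, 40), [866, 2056], 0⟩,
  ⟨⟨-3, 32, -37, 20, -27, -40, 30, 24, -17⟩, (.cons (nat_lit 561) (nat_lit 861) (nat_lit 854) (nat_lit 1)
 (.cons (nat_lit 2799) (nat_lit 484) (nat_lit 3669) (nat_lit 1) .nil)), (nat_lit 30), (nat_lit 0), (nat_lit 0),
 (nat_lit 0), (42, 21, 10), [644, 3828], 0⟩,
  ⟨⟨-39, 16, -4, 20, 37, -20, -2, -8, -41⟩, (.cons (nat_lit 960) (nat_lit 57) (nat_lit 731) (nat_lit 1) (.cons
 (nat_lit 5040) (nat_lit 898) (nat_lit 4717) (nat_lit 1) .nil)), (nat_lit 37), (nat_lit 0), (nat_lit 0),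
 (nat_lit 0), (35, 3, 4), [541, 4172], 0⟩,
  ⟨⟨3, -44, -20, -2, 15, -44, 36, -12, -25⟩, (.cons (nat_lit 698) (nat_lit 204) (nat_lit 1) (nat_lit 899)
 (.cons (nat_lit 2833) (nat_lit 3836) (nat_lit 2460) (nat_lit 1) .nil)), (nat_lit 33), (nat_lit 0), (nat_lit
 0), (nat_lit 0), (10, 22, 34), [466, 4050], 0⟩,
  ⟨⟨-15, -44, 16, 20, -13, -50, -34, -8, -1⟩, (.cons (nat_lit 952) (nat_lit 845) (nat_lit 283) (nat_lit 1)
 (.cons (nat_lit 4132) (nat_lit 2927) (nat_lit 3421) (nat_lit 1) .nil)), (nat_lit 25), (nat_lit 0), (nat_lit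
 0), (nat_lit 0), (2, 26, 16), [492, 2307], 0⟩,
  mz,
  mz,
  ⟨⟨3, -44, 17, 2, -15, -46, 36, -12, -11⟩, (.cons (nat_lit 946) (nat_lit 206) (nat_lit 1) (nat_lit 310) (.cons
 (nat_lit 893) (nat_lit 1794) (nat_lit 3579) (nat_lit 1) .nil)), (nat_lit 22), (nat_lit 0), (nat_lit 0),
 (nat_lit 0), (7, 19, 41), [690, 2423], 0⟩]

/-- All the moves. -/
noncomputable def tabs : List (List (List Mv)) := [[[], t0_1, [], [], t0_4, [], t0_6, [], t0_8, [], [], [], [],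
 [], [], [], [], [], [], t0_19], [[], t1_1, [], [], t1_4, [], t1_6, [], t1_8, [], [], [], [], [], [], [], [],
 [], [], t1_19], [], [], [[], t4_1, [], [], t4_4, [], t4_6, [], t4_8, [], [], [], [], [], [], [], [], [], [],
 t4_19]]

/-- Subtrie. -/
noncomputable def T1 : Tr := (.ev (nat_lit 20) (nat_lit 4907071440528) (.nd (nat_lit 33) (.br (nat_lit 39) (.br
 (nat_lit 19) (.br (nat_lit 8) (.br (nat_lit 4) (.br (nat_lit 3) (.ch (nat_lit 1) (.ev (nat_lit 52) (nat_lit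
 549791600960) (.ev (nat_lit 1220) (nat_lit 1073741824) (.ev (nat_lit 1904) (nat_lit 34360008738) .dd)))) (.ch
 (nat_lit 3) (.ev (nat_lit 52) (nat_lit 33685762) (.ev (nat_lit 276) (nat_lit 64) (.ev (nat_lit 532) (nat_lit
 549755813888) (.ev (nat_lit 948) (nat_lit 1073741824) (.ev (nat_lit 1060) (nat_lit 262144) (.ev (nat_lit 2948)
 (nat_lit 8192) (.nd (nat_lit 3552) (.br (nat_lit 18) (.br (nat_lit 13) (.br (nat_lit 9) (.ch (nat_lit 4) (.ev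
 (nat_lit 3568) (nat_lit 2101280) (.ev (nat_lit 3581) (nat_lit 34359738368) .dd))) (.ch (nat_lit 9) (.ev
 (nat_lit 3568) (nat_lit 2101280) (.ev (nat_lit 3581) (nat_lit 34359738368) .dd)))) (.br (nat_lit 15) (.ch
 (nat_lit 13) (.ev (nat_lit 3568) (nat_lit 34361839648) .dd)) (.ch (nat_lit 15) (.ev (nat_lit 3568) (nat_lit
 2097184) (.ev (nat_lit 3584) (nat_lit 34359742464) .dd))))) (.br (nat_lit 25) (.br (nat_lit 20) (.ch (nat_lit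
 18) (.ev (nat_lit 3568) (nat_lit 34361839648) .dd)) (.ch (nat_lit 20) (.ev (nat_lit 3568) (nat_lit 2101280)
 (.ev (nat_lit 3581) (nat_lit 34359738368) .dd)))) (.br (nat_lit 26) (.ch (nat_lit 25) (.ev (nat_lit 3568)
 (nat_lit 34361839648) .dd)) (.br (nat_lit 28) (.ch (nat_lit 26) (.ev (nat_lit 3568) (nat_lit 34359742496) (.ev
 (nat_lit 3581) (nat_lit 2097152) .dd))) (.ch (nat_lit 28) (.ev (nat_lit 3568) (nat_lit 34361839616) (.ev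
 (nat_lit 3581) (nat_lit 32) .dd)))))))))))))))) (.br (nat_lit 5) (.ch (nat_lit 4) (.ev (nat_lit 52) (nat_lit
 34359738466) (.ev (nat_lit 416) (nat_lit 550865613056) .dd))) (.br (nat_lit 7) (.ch (nat_lit 5) (.ev (nat_lit
 52) (nat_lit 35435577666) (.ev (nat_lit 500) (nat_lit 32) (.ev (nat_lit 1092) (nat_lit 33554432) (.ev (nat_lit
 3236) (nat_lit 8192) (.nd (nat_lit 3552) (.br (nat_lit 13) (.br (nat_lit 8) (.br (nat_lit 7) (.ch (nat_lit 4)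
 (.ev (nat_lit 3568) (nat_lit 549755949056) (.ev (nat_lit 3581) (nat_lit 262144) .dd))) (.ch (nat_lit 7) (.ev
 (nat_lit 3568) (nat_lit 549755949056) (.ev (nat_lit 3581) (nat_lit 262144) .dd)))) (.br (nat_lit 9) (.ch
 (nat_lit 8) (.ev (nat_lit 3568) (nat_lit 397312) (.ev (nat_lit 3581) (nat_lit 549755813888) .dd))) (.br
 (nat_lit 11) (.ch (nat_lit 9) (.ev (nat_lit 3568) (nat_lit 549756207104) (.ev (nat_lit 3581) (nat_lit 4096)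
 .dd))) (.ch (nat_lit 11) (.ev (nat_lit 3568) (nat_lit 549756207104) (.ev (nat_lit 3581) (nat_lit 4096)
 .dd)))))) (.br (nat_lit 20) (.br (nat_lit 16) (.ch (nat_lit 13) (.ev (nat_lit 3568) (nat_lit 266240) (.ev
 (nat_lit 3680) (nat_lit 549755944960) .dd))) (.br (nat_lit 19) (.ch (nat_lit 16) (.ev (nat_lit 3568) (nat_lit
 549756080128) (.ev (nat_lit 3581) (nat_lit 131072) .dd))) (.ch (nat_lit 19) (.ev (nat_lit 3568) (nat_lit
 131072) (.ev (nat_lit 3696) (nat_lit 549755813888) (.fin (nat_lit 576474496205537872))))))) (.br (nat_lit 23)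
 (.ch (nat_lit 20) (.ev (nat_lit 3568) (nat_lit 397312) (.ev (nat_lit 3581) (nat_lit 549755813888) .dd))) (.br
 (nat_lit 28) (.ch (nat_lit 23) (.ev (nat_lit 3568) (nat_lit 549756211200) .dd)) (.ch (nat_lit 28) (.ev
 (nat_lit 3568) (nat_lit 549756211200) .dd)))))))))))) (.ch (nat_lit 7) (.ev (nat_lit 52) (nat_lit 34393305442)
 (.ev (nat_lit 1220) (nat_lit 549755813888) (.ev (nat_lit 2576) (nat_lit 1076232192) .dd))))))) (.br (nat_lit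
 15) (.br (nat_lit 11) (.ch (nat_lit 8) (.ev (nat_lit 52) (nat_lit 1076109600) (.ev (nat_lit 1328) (nat_lit
 584149241922) .dd))) (.br (nat_lit 12) (.ch (nat_lit 11) (.ev (nat_lit 52) (nat_lit 549755814240) (.ev
 (nat_lit 352) (nat_lit 35469537282) .dd))) (.ch (nat_lit 12) (.ev (nat_lit 52) (nat_lit 585222979586) (.ev
 (nat_lit 308) (nat_lit 256) (.ev (nat_lit 1124) (nat_lit 64) (.ev (nat_lit 1956) (nat_lit 32) (.nd (nat_lit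
 3552) (.br (nat_lit 19) (.br (nat_lit 8) (.br (nat_lit 7) (.ch (nat_lit 4) (.ev (nat_lit 3568) (nat_lit
 274432) (.ev (nat_lit 3581) (nat_lit 2097152) .dd))) (.ch (nat_lit 7) (.ev (nat_lit 3568) (nat_lit 2109440)
 (.ev (nat_lit 3581) (nat_lit 262144) .dd)))) (.br (nat_lit 11) (.ch (nat_lit 8) (.ev (nat_lit 3568) (nat_lit
 266240) (.ev (nat_lit 3680) (nat_lit 2105344) .dd))) (.br (nat_lit 16) (.ch (nat_lit 11) (.ev (nat_lit 3568)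
 (nat_lit 2367488) (.ev (nat_lit 3581) (nat_lit 4096) .dd))) (.ch (nat_lit 16) (.ev (nat_lit 3568) (nat_lit
 2371584) .dd))))) (.br (nat_lit 26) (.br (nat_lit 20) (.ch (nat_lit 19) (.ev (nat_lit 3568) (nat_lit 8192)
 (.ev (nat_lit 3696) (nat_lit 2097152) (.fin (nat_lit 576474496205537872))))) (.br (nat_lit 25) (.ch (nat_lit
 20) (.ev (nat_lit 3568) (nat_lit 2371584) .dd)) (.ch (nat_lit 25) (.ev (nat_lit 3568) (nat_lit 2367488) (.ev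
 (nat_lit 3581) (nat_lit 4096) .dd))))) (.br (nat_lit 28) (.ch (nat_lit 26) (.ev (nat_lit 3568) (nat_lit
 274432) (.ev (nat_lit 3581) (nat_lit 2097152) .dd))) (.br (nat_lit 29) (.ch (nat_lit 28) (.ev (nat_lit 3568)
 (nat_lit 2109440) (.ev (nat_lit 3581) (nat_lit 262144) .dd))) (.ch (nat_lit 29) (.ev (nat_lit 3568) (nat_lit
 2363392) (.ev (nat_lit 3581) (nat_lit 8192) .dd))))))))))))))) (.br (nat_lit 16) (.ch (nat_lit 15) (.ev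
 (nat_lit 52) (nat_lit 549758181634) (.ev (nat_lit 596) (nat_lit 34359738368) (.ev (nat_lit 852) (nat_lit 64)
 (.ev (nat_lit 2692) (nat_lit 1073741824) (.nd (nat_lit 3552) (.br (nat_lit 15) (.br (nat_lit 8) (.br (nat_lit
 7) (.ch (nat_lit 0) (.ev (nat_lit 3568) (nat_lit 33689600) (.ev (nat_lit 3581) (nat_lit 32) .dd))) (.ch
 (nat_lit 7) (.ev (nat_lit 3568) (nat_lit 4096) (.ev (nat_lit 3632) (nat_lit 131072) (.ev (nat_lit 3732)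
 (nat_lit 32) (.ev (nat_lit 3741) (nat_lit 33554432) .dd)))))) (.br (nat_lit 9) (.ch (nat_lit 8) (.ev (nat_lit
 3568) (nat_lit 33685504) (.ev (nat_lit 3616) (nat_lit 4096) (.ev (nat_lit 3629) (nat_lit 32) .dd)))) (.br
 (nat_lit 11) (.ch (nat_lit 9) (.ev (nat_lit 3568) (nat_lit 33685536) (.ev (nat_lit 3581) (nat_lit 4096) .dd)))
 (.ch (nat_lit 11) (.ev (nat_lit 3568) (nat_lit 131072) (.ev (nat_lit 3664) (nat_lit 4096) (.ev (nat_lit 3732)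
 (nat_lit 32) (.ev (nat_lit 3741) (nat_lit 33554432) .dd)))))))) (.br (nat_lit 23) (.br (nat_lit 18) (.ch
 (nat_lit 15) (.ev (nat_lit 3568) (nat_lit 33685536) (.ev (nat_lit 3581) (nat_lit 4096) .dd))) (.br (nat_lit
 20) (.ch (nat_lit 18) (.ev (nat_lit 3568) (nat_lit 135200) (.ev (nat_lit 3581) (nat_lit 33554432) .dd))) (.ch
 (nat_lit 20) (.ev (nat_lit 3568) (nat_lit 135168) (.ev (nat_lit 3732) (nat_lit 32) (.ev (nat_lit 3741)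
 (nat_lit 33554432) .dd)))))) (.br (nat_lit 25) (.ch (nat_lit 23) (.ev (nat_lit 3568) (nat_lit 135200) (.ev
 (nat_lit 3581) (nat_lit 33554432) .dd))) (.br (nat_lit 28) (.ch (nat_lit 25) (.ev (nat_lit 3568) (nat_lit
 4128) (.ev (nat_lit 3584) (nat_lit 33685504) .dd))) (.ch (nat_lit 28) (.ev (nat_lit 3568) (nat_lit 33689600)
 (.ev (nat_lit 3581) (nat_lit 32) .dd))))))))))))) (.br (nat_lit 18) (.ch (nat_lit 16) (.ev (nat_lit 52)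
 (nat_lit 1109405986) (.ev (nat_lit 1252) (nat_lit 549755813888) (.ev (nat_lit 1348) (nat_lit 262144) (.ev
 (nat_lit 1892) (nat_lit 131072) (.ev (nat_lit 3104) (nat_lit 34359738432) .dd)))))) (.ch (nat_lit 18) (.ev
 (nat_lit 52) (nat_lit 35660130) (.ev (nat_lit 148) (nat_lit 131072) (.ev (nat_lit 692) (nat_lit 584115552256)
 (.ev (nat_lit 2724) (nat_lit 4096) (.nd (nat_lit 3552) (.br (nat_lit 11) (.br (nat_lit 7) (.br (nat_lit 4)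
 (.ch (nat_lit 0) (.ev (nat_lit 3568) (nat_lit 1074003968) .dd)) (.ch (nat_lit 4) (.ev (nat_lit 3568) (nat_lit
 1074003968) .dd))) (.br (nat_lit 8) (.ch (nat_lit 7) (.ev (nat_lit 3568) (nat_lit 262144) (.ev (nat_lit 3581)
 (nat_lit 1073741824) .dd))) (.br (nat_lit 9) (.ch (nat_lit 8) (.ev (nat_lit 3568) (nat_lit 1074003968) .dd))
 (.ch (nat_lit 9) (.ev (nat_lit 3568) (nat_lit 1074003968) .dd))))) (.br (nat_lit 20) (.br (nat_lit 15) (.ch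
 (nat_lit 11) (.ev (nat_lit 3568) (nat_lit 1074003968) .dd)) (.br (nat_lit 18) (.ch (nat_lit 15) (.ev (nat_lit
 3568) (nat_lit 262144) (.ev (nat_lit 3581) (nat_lit 1073741824) .dd))) (.ch (nat_lit 18) (.ev (nat_lit 3568)
 (nat_lit 1073741824) (.ev (nat_lit 3581) (nat_lit 262144) .dd))))) (.br (nat_lit 25) (.ch (nat_lit 20) (.ev
 (nat_lit 3568) (nat_lit 262144) (.ev (nat_lit 3581) (nat_lit 1073741824) .dd))) (.br (nat_lit 26) (.ch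
 (nat_lit 25) (.ev (nat_lit 3568) (nat_lit 1074003968) .dd)) (.ch (nat_lit 26) (.ev (nat_lit 3568) (nat_lit
 262144) (.ev (nat_lit 3581) (nat_lit 1073741824) .dd))))))))))))))))) (.br (nat_lit 29) (.br (nat_lit 23) (.br
 (nat_lit 22) (.ch (nat_lit 19) (.ev (nat_lit 52) (nat_lit 34362110272) (.nd (nat_lit 3552) (.br (nat_lit 11)
 (.br (nat_lit 8) (.ch (nat_lit 4) (.ev (nat_lit 3568) (nat_lit 550863110176) (.fin (nat_lit
 576474496213926468)))) (.ch (nat_lit 8) (.ev (nat_lit 3568) (nat_lit 550863241250) .dd))) (.br (nat_lit 18)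
 (.ch (nat_lit 11) (.ev (nat_lit 3568) (nat_lit 550863241218) (.ev (nat_lit 3581) (nat_lit 32) .dd))) (.br
 (nat_lit 26) (.ch (nat_lit 18) (.ev (nat_lit 3568) (nat_lit 549755944994) (.ev (nat_lit 3648) (nat_lit
 1107296256) .dd))) (.ch (nat_lit 26) (.ev (nat_lit 3568) (nat_lit 33685538) (.ev (nat_lit 3600) (nat_lit
 550829555712) .dd))))))))) (.ch (nat_lit 22) (.ev (nat_lit 52) (nat_lit 585189699650) (.ev (nat_lit 692)
 (nat_lit 32) (.ev (nat_lit 1748) (nat_lit 33554432) (.nd (nat_lit 3552) (.br (nat_lit 25) (.br (nat_lit 20)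
 (.ch (nat_lit 7) (.ev (nat_lit 3568) (nat_lit 2097408) .dd)) (.ch (nat_lit 20) (.ev (nat_lit 3568) (nat_lit
 2097408) .dd))) (.br (nat_lit 26) (.ch (nat_lit 25) (.ev (nat_lit 3568) (nat_lit 2097408) .dd)) (.br (nat_lit
 28) (.ch (nat_lit 26) (.ev (nat_lit 3632) (nat_lit 2097152) (.ev (nat_lit 3645) (nat_lit 256) .dd))) (.ch
 (nat_lit 28) (.ev (nat_lit 3568) (nat_lit 256) (.ev (nat_lit 3581) (nat_lit 2097152) .dd)))))))))))) (.br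
 (nat_lit 24) (.ch (nat_lit 23) (.ev (nat_lit 52) (nat_lit 584117911648) (.ev (nat_lit 372) (nat_lit 4096) (.ev
 (nat_lit 1252) (nat_lit 1073741824) (.ev (nat_lit 1556) (nat_lit 2) (.ev (nat_lit 2228) (nat_lit 33554432)
 (.ev (nat_lit 2928) (nat_lit 139520) .dd))))))) (.br (nat_lit 26) (.ch (nat_lit 24) (.ev (nat_lit 52) (nat_lit
 585225081090) (.ev (nat_lit 1396) (nat_lit 64) (.nd (nat_lit 3552) (.br (nat_lit 16) (.br (nat_lit 8) (.br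
 (nat_lit 7) (.ch (nat_lit 4) (.ev (nat_lit 3568) (nat_lit 8224) (.ev (nat_lit 3581) (nat_lit 262144) .dd)))
 (.ch (nat_lit 7) (.ev (nat_lit 3568) (nat_lit 8192) (.ev (nat_lit 3732) (nat_lit 32) (.ev (nat_lit 3741)
 (nat_lit 262144) .dd))))) (.br (nat_lit 13) (.ch (nat_lit 8) (.ev (nat_lit 3568) (nat_lit 270336) (.ev
 (nat_lit 3581) (nat_lit 32) .dd))) (.br (nat_lit 15) (.ch (nat_lit 13) (.ev (nat_lit 3568) (nat_lit 32) (.ev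
 (nat_lit 3600) (nat_lit 262144) (.ev (nat_lit 3613) (nat_lit 8192) .dd)))) (.ch (nat_lit 15) (.ev (nat_lit
 3568) (nat_lit 270368) .dd))))) (.br (nat_lit 21) (.br (nat_lit 18) (.ch (nat_lit 16) (.ev (nat_lit 3568)
 (nat_lit 270368) .dd)) (.br (nat_lit 20) (.ch (nat_lit 18) (.ev (nat_lit 3568) (nat_lit 8224) (.ev (nat_lit
 3581) (nat_lit 262144) .dd))) (.ch (nat_lit 20) (.ev (nat_lit 3568) (nat_lit 270336) (.ev (nat_lit 3581)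
 (nat_lit 32) .dd))))) (.br (nat_lit 23) (.ch (nat_lit 21) (.ev (nat_lit 3568) (nat_lit 270336) (.ev (nat_lit
 3581) (nat_lit 32) .dd))) (.br (nat_lit 29) (.ch (nat_lit 23) (.ev (nat_lit 3568) (nat_lit 262176) (.ev
 (nat_lit 3581) (nat_lit 8192) .dd))) (.ch (nat_lit 29) (.ev (nat_lit 3568) (nat_lit 270368) .dd)))))))))) (.ch
 (nat_lit 26) (.ev (nat_lit 52) (nat_lit 35433615424) (.ev (nat_lit 1060) (nat_lit 8192) (.ev (nat_lit 1492)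
 (nat_lit 262144) (.ev (nat_lit 3456) (nat_lit 549755813888) (.nd (nat_lit 3552) (.br (nat_lit 16) (.br
 (nat_lit 9) (.br (nat_lit 1) (.ch (nat_lit 0) (.ev (nat_lit 3568) (nat_lit 33554720) (.ev (nat_lit 3584)
 (nat_lit 2097152) (.ev (nat_lit 3597) (nat_lit 2) .dd)))) (.ch (nat_lit 1) (.ev (nat_lit 3568) (nat_lit
 35651618) (.ev (nat_lit 3581) (nat_lit 256) .dd)))) (.br (nat_lit 15) (.ch (nat_lit 9) (.ev (nat_lit 3568)
 (nat_lit 35651874) .dd)) (.ch (nat_lit 15) (.ev (nat_lit 3568) (nat_lit 35651618) (.ev (nat_lit 3581) (nat_lit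
 256) .dd))))) (.br (nat_lit 19) (.br (nat_lit 18) (.ch (nat_lit 16) (.ev (nat_lit 3568) (nat_lit 35651842)
 (.ev (nat_lit 3581) (nat_lit 32) .dd))) (.ch (nat_lit 18) (.ev (nat_lit 3568) (nat_lit 2097442) (.ev (nat_lit
 3581) (nat_lit 33554432) .dd)))) (.br (nat_lit 25) (.ch (nat_lit 19) (.ev (nat_lit 3568) (nat_lit 35651874)
 .dd)) (.br (nat_lit 29) (.ch (nat_lit 25) (.ev (nat_lit 3568) (nat_lit 2097442) (.ev (nat_lit 3581) (nat_lit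
 33554432) .dd))) (.ch (nat_lit 29) (.ev (nat_lit 3568) (nat_lit 35651618) (.ev (nat_lit 3581) (nat_lit 256)
 .dd)))))))))))))))) (.br (nat_lit 34) (.br (nat_lit 31) (.ch (nat_lit 29) (.ev (nat_lit 52) (nat_lit
 585222856994) (.ev (nat_lit 660) (nat_lit 64) (.ev (nat_lit 2292) (nat_lit 2097152) (.ev (nat_lit 3060)
 (nat_lit 262144) (.ev (nat_lit 3156) (nat_lit 131072) (.ev (nat_lit 3165) (nat_lit 4096) .dd))))))) (.br
 (nat_lit 33) (.ch (nat_lit 31) (.ev (nat_lit 52) (nat_lit 35469398336) (.ev (nat_lit 244) (nat_lit 131072)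
 (.ev (nat_lit 532) (nat_lit 32) (.ev (nat_lit 660) (nat_lit 2) (.ev (nat_lit 948) (nat_lit 549755813888) (.ev
 (nat_lit 957) (nat_lit 8192) .dd))))))) (.ch (nat_lit 33) (.ev (nat_lit 52) (nat_lit 585189687394) (.ev
 (nat_lit 788) (nat_lit 4096) (.ev (nat_lit 1284) (nat_lit 8192) (.ev (nat_lit 2260) (nat_lit 2097152) (.ev
 (nat_lit 3184) (nat_lit 33554688) .dd)))))))) (.br (nat_lit 36) (.ch (nat_lit 34) (.ev (nat_lit 52) (nat_lit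
 34360135682) (.ev (nat_lit 84) (nat_lit 2097152) (.ev (nat_lit 244) (nat_lit 256) (.ev (nat_lit 564) (nat_lit
 8192) (.ev (nat_lit 596) (nat_lit 1073741824) (.ev (nat_lit 996) (nat_lit 32) (.ev (nat_lit 1956) (nat_lit
 549755813888) (.nd (nat_lit 3552) (.br (nat_lit 15) (.br (nat_lit 11) (.ch (nat_lit 9) (.ev (nat_lit 3568)
 (nat_lit 33554432) (.ev (nat_lit 3581) (nat_lit 64) .dd))) (.br (nat_lit 13) (.ch (nat_lit 11) (.ev (nat_lit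
 3568) (nat_lit 33554496) .dd)) (.ch (nat_lit 13) (.ev (nat_lit 3568) (nat_lit 33554496) .dd)))) (.br (nat_lit
 21) (.ch (nat_lit 15) (.ev (nat_lit 3568) (nat_lit 33554496) .dd)) (.br (nat_lit 29) (.ch (nat_lit 21) (.ev
 (nat_lit 3600) (nat_lit 33554432) (.ev (nat_lit 3613) (nat_lit 64) .dd))) (.ch (nat_lit 29) (.ev (nat_lit
 3568) (nat_lit 33554496) .dd)))))))))))))) (.br (nat_lit 38) (.ch (nat_lit 36) (.ev (nat_lit 52) (nat_lit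
 1075839008) (.ev (nat_lit 372) (nat_lit 262144) (.ev (nat_lit 916) (nat_lit 33554432) (.ev (nat_lit 964)
 (nat_lit 8192) (.ev (nat_lit 1956) (nat_lit 34359738368) (.ev (nat_lit 2468) (nat_lit 64) (.ev (nat_lit 2756)
 (nat_lit 549755813888) (.nd (nat_lit 3552) (.br (nat_lit 20) (.br (nat_lit 8) (.br (nat_lit 4) (.ch (nat_lit
 1) (.ev (nat_lit 3568) (nat_lit 135424) (.ev (nat_lit 3581) (nat_lit 2) .dd))) (.ch (nat_lit 4) (.ev (nat_lit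
 3568) (nat_lit 4352) (.fin (nat_lit 576474496213926468))))) (.br (nat_lit 13) (.ch (nat_lit 8) (.ev (nat_lit
 3568) (nat_lit 131330) (.ev (nat_lit 3581) (nat_lit 4096) .dd))) (.ch (nat_lit 13) (.ev (nat_lit 3568)
 (nat_lit 135426) .dd)))) (.br (nat_lit 26) (.br (nat_lit 21) (.ch (nat_lit 20) (.ev (nat_lit 3568) (nat_lit
 135424) (.ev (nat_lit 3581) (nat_lit 2) .dd))) (.ch (nat_lit 21) (.ev (nat_lit 3568) (nat_lit 135426) .dd)))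
 (.br (nat_lit 28) (.ch (nat_lit 26) (.ev (nat_lit 3568) (nat_lit 135426) .dd)) (.br (nat_lit 29) (.ch (nat_lit
 28) (.ev (nat_lit 3568) (nat_lit 135170) (.ev (nat_lit 3581) (nat_lit 256) .dd))) (.ch (nat_lit 29) (.ev
 (nat_lit 3568) (nat_lit 135170) (.ev (nat_lit 3581) (nat_lit 256) .dd)))))))))))))))) (.ch (nat_lit 38) (.ev
 (nat_lit 52) (nat_lit 549758304544) (.ev (nat_lit 180) (nat_lit 64) (.ev (nat_lit 436) (nat_lit 4096) (.ev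
 (nat_lit 692) (nat_lit 1073741824) (.ev (nat_lit 1124) (nat_lit 2) (.ev (nat_lit 2180) (nat_lit 33554432) (.ev
 (nat_lit 3392) (nat_lit 8192) (.ev (nat_lit 3405) (nat_lit 34359738368) .dd)))))))))))))) (.br (nat_lit 54)
 (.br (nat_lit 47) (.br (nat_lit 43) (.br (nat_lit 42) (.ch (nat_lit 39) (.ev (nat_lit 52) (nat_lit
 35469144066) (.ev (nat_lit 596) (nat_lit 549755813888) (.ev (nat_lit 948) (nat_lit 32) (.ev (nat_lit 2704)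
 (nat_lit 393536) .dd))))) (.ch (nat_lit 42) (.ev (nat_lit 52) (nat_lit 1107570784) (.ev (nat_lit 724) (nat_lit
 131072) (.ev (nat_lit 1028) (nat_lit 2) (.ev (nat_lit 1428) (nat_lit 2097152) (.nd (nat_lit 3552) (.br
 (nat_lit 11) (.br (nat_lit 8) (.br (nat_lit 4) (.ch (nat_lit 1) (.ev (nat_lit 3568) (nat_lit 584115552256)
 (.ev (nat_lit 3581) (nat_lit 256) .dd))) (.ch (nat_lit 4) (.ev (nat_lit 3568) (nat_lit 584115552512) .dd)))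
 (.br (nat_lit 9) (.ch (nat_lit 8) (.ev (nat_lit 3568) (nat_lit 584115552512) .dd)) (.ch (nat_lit 9) (.ev
 (nat_lit 3568) (nat_lit 584115552256) (.ev (nat_lit 3581) (nat_lit 256) .dd))))) (.br (nat_lit 18) (.br
 (nat_lit 15) (.ch (nat_lit 11) (.ev (nat_lit 3568) (nat_lit 584115552512) .dd)) (.ch (nat_lit 15) (.ev
 (nat_lit 3568) (nat_lit 584115552256) (.ev (nat_lit 3581) (nat_lit 256) .dd)))) (.br (nat_lit 21) (.ch
 (nat_lit 18) (.ev (nat_lit 3568) (nat_lit 34359738624) (.ev (nat_lit 3581) (nat_lit 549755813888) .dd))) (.br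
 (nat_lit 29) (.ch (nat_lit 21) (.ev (nat_lit 3568) (nat_lit 549755814144) (.ev (nat_lit 3581) (nat_lit
 34359738368) .dd))) (.ch (nat_lit 29) (.ev (nat_lit 3568) (nat_lit 549755814144) (.ev (nat_lit 3581) (nat_lit
 34359738368) .dd)))))))))))))) (.br (nat_lit 44) (.ch (nat_lit 43) (.ev (nat_lit 52) (nat_lit 33694016) (.ev
 (nat_lit 500) (nat_lit 34359738368) (.ev (nat_lit 1220) (nat_lit 32) (.ev (nat_lit 1652) (nat_lit 2097152)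
 (.ev (nat_lit 1924) (nat_lit 4096) (.ev (nat_lit 2452) (nat_lit 262144) (.nd (nat_lit 3552) (.br (nat_lit 16)
 (.br (nat_lit 8) (.br (nat_lit 7) (.ch (nat_lit 1) (.ev (nat_lit 3568) (nat_lit 550829555714) .dd)) (.ch
 (nat_lit 7) (.ev (nat_lit 3568) (nat_lit 550829555714) .dd))) (.br (nat_lit 11) (.ch (nat_lit 8) (.ev (nat_lit
 3568) (nat_lit 1073741826) (.ev (nat_lit 3581) (nat_lit 549755813888) .dd))) (.ch (nat_lit 11) (.ev (nat_lit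
 3568) (nat_lit 550829555714) .dd)))) (.br (nat_lit 19) (.br (nat_lit 18) (.ch (nat_lit 16) (.ev (nat_lit 3568)
 (nat_lit 1073741826) (.ev (nat_lit 3581) (nat_lit 549755813888) .dd))) (.ch (nat_lit 18) (.ev (nat_lit 3568)
 (nat_lit 550829555714) .dd))) (.br (nat_lit 26) (.ch (nat_lit 19) (.ev (nat_lit 3568) (nat_lit 550829555714)
 .dd)) (.br (nat_lit 28) (.ch (nat_lit 26) (.ev (nat_lit 3568) (nat_lit 549755813890) (.ev (nat_lit 3581)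
 (nat_lit 1073741824) .dd))) (.ch (nat_lit 28) (.ev (nat_lit 3568) (nat_lit 550829555712) (.ev (nat_lit 3581)
 (nat_lit 2) .dd))))))))))))))) (.br (nat_lit 46) (.ch (nat_lit 44) (.ev (nat_lit 52) (nat_lit 549789503808)
 (.ev (nat_lit 372) (nat_lit 8192) (.ev (nat_lit 468) (nat_lit 34359738368) (.ev (nat_lit 2788) (nat_lit 32)
 (.ev (nat_lit 2916) (nat_lit 2) (.ev (nat_lit 3172) (nat_lit 262144) (.nd (nat_lit 3552) (.br (nat_lit 21)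
 (.br (nat_lit 15) (.br (nat_lit 11) (.ch (nat_lit 1) (.ev (nat_lit 3568) (nat_lit 1075838976) .dd)) (.ch
 (nat_lit 11) (.ev (nat_lit 3568) (nat_lit 1075838976) .dd))) (.br (nat_lit 18) (.ch (nat_lit 15) (.ev (nat_lit
 3568) (nat_lit 1075838976) .dd)) (.ch (nat_lit 18) (.ev (nat_lit 3568) (nat_lit 1075838976) .dd)))) (.br
 (nat_lit 25) (.br (nat_lit 23) (.ch (nat_lit 21) (.ev (nat_lit 3568) (nat_lit 2097152) (.ev (nat_lit 3581)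
 (nat_lit 1073741824) .dd))) (.ch (nat_lit 23) (.ev (nat_lit 3584) (nat_lit 1075838976) .dd))) (.br (nat_lit
 28) (.ch (nat_lit 25) (.ev (nat_lit 3568) (nat_lit 1075838976) .dd)) (.br (nat_lit 29) (.ch (nat_lit 28) (.ev
 (nat_lit 3568) (nat_lit 1073741824) (.ev (nat_lit 3581) (nat_lit 2097152) .dd))) (.ch (nat_lit 29) (.ev
 (nat_lit 3568) (nat_lit 1075838976) .dd)))))))))))))) (.ch (nat_lit 46) (.ev (nat_lit 52) (nat_lit 2363424)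
 (.ev (nat_lit 544) (nat_lit 585222988098) .dd)))))) (.br (nat_lit 50) (.br (nat_lit 48) (.ch (nat_lit 47) (.ev
 (nat_lit 52) (nat_lit 549757923586) (.ev (nat_lit 820) (nat_lit 33554432) (.ev (nat_lit 1284) (nat_lit 262144)
 (.ev (nat_lit 2020) (nat_lit 1073741824) (.ev (nat_lit 3472) (nat_lit 64) (.nd (nat_lit 3552) (.br (nat_lit
 11) (.br (nat_lit 7) (.br (nat_lit 4) (.ch (nat_lit 1) (.ev (nat_lit 3568) (nat_lit 34359869472) .dd)) (.ch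
 (nat_lit 4) (.ev (nat_lit 3568) (nat_lit 131104) (.ev (nat_lit 3581) (nat_lit 34359738368) .dd)))) (.br
 (nat_lit 9) (.ch (nat_lit 7) (.ev (nat_lit 3568) (nat_lit 32) (.ev (nat_lit 3584) (nat_lit 131072) (.ev
 (nat_lit 3597) (nat_lit 34359738368) .dd)))) (.ch (nat_lit 9) (.ev (nat_lit 3568) (nat_lit 34359738400) (.ev
 (nat_lit 3581) (nat_lit 131072) .dd))))) (.br (nat_lit 15) (.br (nat_lit 13) (.ch (nat_lit 11) (.ev (nat_lit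
 3568) (nat_lit 131072) (.ev (nat_lit 3584) (nat_lit 34359738400) .dd))) (.ch (nat_lit 13) (.ev (nat_lit 3568)
 (nat_lit 34359869472) .dd))) (.br (nat_lit 20) (.ch (nat_lit 15) (.ev (nat_lit 3568) (nat_lit 34359869472)
 .dd)) (.br (nat_lit 26) (.ch (nat_lit 20) (.ev (nat_lit 3568) (nat_lit 34359869472) .dd)) (.ch (nat_lit 26)
 (.ev (nat_lit 3568) (nat_lit 34359869440) (.ev (nat_lit 3581) (nat_lit 32) .dd)))))))))))))) (.br (nat_lit 49)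
 (.ch (nat_lit 48) (.ev (nat_lit 52) (nat_lit 584149106784) (.ev (nat_lit 308) (nat_lit 131072) (.ev (nat_lit
 1040) (nat_lit 1076113666) .dd)))) (.ch (nat_lit 49) (.ev (nat_lit 52) (nat_lit 35433873698) (.ev (nat_lit
 468) (nat_lit 549755813888) (.ev (nat_lit 788) (nat_lit 8192) (.ev (nat_lit 2212) (nat_lit 2097152) (.ev
 (nat_lit 3072) (nat_lit 33558592) .dd)))))))) (.br (nat_lit 51) (.ch (nat_lit 50) (.ev (nat_lit 52) (nat_lit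
 1109794850) (.ev (nat_lit 148) (nat_lit 256) (.ev (nat_lit 1220) (nat_lit 34359738368) (.nd (nat_lit 3552)
 (.br (nat_lit 13) (.br (nat_lit 7) (.br (nat_lit 4) (.ch (nat_lit 1) (.ev (nat_lit 3568) (nat_lit
 549755813952) (.ev (nat_lit 3581) (nat_lit 4096) .dd))) (.ch (nat_lit 4) (.ev (nat_lit 3568) (nat_lit
 549755818048) .dd))) (.br (nat_lit 8) (.ch (nat_lit 7) (.ev (nat_lit 3568) (nat_lit 549755813952) (.ev
 (nat_lit 3581) (nat_lit 4096) .dd))) (.ch (nat_lit 8) (.ev (nat_lit 3568) (nat_lit 549755813952) (.ev (nat_lit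
 3581) (nat_lit 4096) .dd))))) (.br (nat_lit 19) (.br (nat_lit 16) (.ch (nat_lit 13) (.ev (nat_lit 3568)
 (nat_lit 4160) (.ev (nat_lit 3581) (nat_lit 549755813888) .dd))) (.ch (nat_lit 16) (.ev (nat_lit 3568)
 (nat_lit 549755818048) .dd))) (.br (nat_lit 25) (.ch (nat_lit 19) (.ev (nat_lit 3568) (nat_lit 549755818048)
 .dd)) (.br (nat_lit 26) (.ch (nat_lit 25) (.ev (nat_lit 3568) (nat_lit 549755817984) (.ev (nat_lit 3581)
 (nat_lit 64) .dd))) (.ch (nat_lit 26) (.ev (nat_lit 3568) (nat_lit 549755817984) (.ev (nat_lit 3581) (nat_lit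
 64) .dd)))))))))))) (.br (nat_lit 53) (.ch (nat_lit 51) (.ev (nat_lit 52) (nat_lit 33689696) (.ev (nat_lit
 768) (nat_lit 585191661826) .dd))) (.ch (nat_lit 53) (.ev (nat_lit 52) (nat_lit 35435848032) (.ev (nat_lit
 116) (nat_lit 2) (.ev (nat_lit 2116) (nat_lit 33554432) (.ev (nat_lit 3040) (nat_lit 549755949056)
 .dd))))))))) (.br (nat_lit 64) (.br (nat_lit 57) (.br (nat_lit 55) (.ch (nat_lit 54) (.ev (nat_lit 52)
 (nat_lit 549758177536) (.ev (nat_lit 84) (nat_lit 64) (.ev (nat_lit 436) (nat_lit 8192) (.ev (nat_lit 852)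
 (nat_lit 2) (.ev (nat_lit 1316) (nat_lit 131072) (.ev (nat_lit 1620) (nat_lit 33554432) (.nd (nat_lit 3552)
 (.br (nat_lit 15) (.br (nat_lit 4) (.br (nat_lit 1) (.ch (nat_lit 0) (.ev (nat_lit 3568) (nat_lit 35433480224)
 .dd)) (.ch (nat_lit 1) (.ev (nat_lit 3568) (nat_lit 35433480224) .dd))) (.br (nat_lit 13) (.ch (nat_lit 4)
 (.ev (nat_lit 3568) (nat_lit 1073741856) (.ev (nat_lit 3581) (nat_lit 34359738368) .dd))) (.ch (nat_lit 13)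
 (.ev (nat_lit 3568) (nat_lit 35433480224) .dd)))) (.br (nat_lit 20) (.br (nat_lit 19) (.ch (nat_lit 15) (.ev
 (nat_lit 3568) (nat_lit 1073741856) (.ev (nat_lit 3581) (nat_lit 34359738368) .dd))) (.ch (nat_lit 19) (.ev
 (nat_lit 3568) (nat_lit 1073741856) (.ev (nat_lit 3581) (nat_lit 34359738368) .dd)))) (.br (nat_lit 21) (.ch
 (nat_lit 20) (.ev (nat_lit 3568) (nat_lit 1073741824) (.ev (nat_lit 3600) (nat_lit 32) (.ev (nat_lit 3613)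
 (nat_lit 34359738368) .dd)))) (.br (nat_lit 28) (.ch (nat_lit 21) (.ev (nat_lit 3568) (nat_lit 34359738400)
 (.ev (nat_lit 3581) (nat_lit 1073741824) .dd))) (.ch (nat_lit 28) (.ev (nat_lit 3568) (nat_lit 35433480224)
 .dd)))))))))))))) (.ch (nat_lit 55) (.ev (nat_lit 52) (nat_lit 549789638976) (.ev (nat_lit 532) (nat_lit
 1073741824) (.ev (nat_lit 628) (nat_lit 32) (.ev (nat_lit 1060) (nat_lit 4096) (.ev (nat_lit 1460) (nat_lit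
 131072) (.ev (nat_lit 2800) (nat_lit 34361835522) .dd)))))))) (.br (nat_lit 58) (.ch (nat_lit 57) (.ev
 (nat_lit 52) (nat_lit 585189687362) (.ev (nat_lit 404) (nat_lit 256) (.ev (nat_lit 1764) (nat_lit 33554432)
 (.ev (nat_lit 2432) (nat_lit 2109472) .dd))))) (.br (nat_lit 62) (.ch (nat_lit 58) (.ev (nat_lit 52) (nat_lit
 585225343008) (.ev (nat_lit 276) (nat_lit 2) (.ev (nat_lit 2628) (nat_lit 256) (.ev (nat_lit 3216) (nat_lit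
 8256) .dd))))) (.ch (nat_lit 62) (.ev (nat_lit 52) (nat_lit 34393694496) (.ev (nat_lit 1472) (nat_lit
 550831657026) .dd)))))) (.br (nat_lit 68) (.br (nat_lit 65) (.ch (nat_lit 64) (.ev (nat_lit 52) (nat_lit
 2232642) (.ev (nat_lit 436) (nat_lit 262144) (.ev (nat_lit 996) (nat_lit 34359738368) (.ev (nat_lit 1524)
 (nat_lit 549755813888) (.ev (nat_lit 1924) (nat_lit 8192) (.ev (nat_lit 2148) (nat_lit 33554432) (.nd (nat_lit
 3552) (.br (nat_lit 21) (.br (nat_lit 11) (.ch (nat_lit 9) (.ev (nat_lit 3568) (nat_lit 1073741856) .dd)) (.ch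
 (nat_lit 11) (.ev (nat_lit 3568) (nat_lit 1073741824) (.ev (nat_lit 3581) (nat_lit 32) .dd)))) (.br (nat_lit
 28) (.ch (nat_lit 21) (.ev (nat_lit 3632) (nat_lit 1073741856) .dd)) (.br (nat_lit 29) (.ch (nat_lit 28) (.ev
 (nat_lit 3568) (nat_lit 1073741856) .dd)) (.ch (nat_lit 29) (.ev (nat_lit 3568) (nat_lit 1073741856)
 .dd))))))))))))) (.br (nat_lit 67) (.ch (nat_lit 65) (.ev (nat_lit 52) (nat_lit 584118042658) (.ev (nat_lit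
 1524) (nat_lit 1073741824) (.ev (nat_lit 1860) (nat_lit 256) (.ev (nat_lit 2292) (nat_lit 64) (.ev (nat_lit
 2452) (nat_lit 8192) (.ev (nat_lit 2596) (nat_lit 4096) (.ev (nat_lit 2605) (nat_lit 33554432) .dd))))))))
 (.ch (nat_lit 67) (.ev (nat_lit 52) (nat_lit 34361848098) (.ev (nat_lit 628) (nat_lit 1073741824) (.ev
 (nat_lit 1652) (nat_lit 64) (.ev (nat_lit 1684) (nat_lit 33554432) (.nd (nat_lit 3552) (.br (nat_lit 15) (.br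
 (nat_lit 4) (.br (nat_lit 1) (.ch (nat_lit 0) (.ev (nat_lit 3568) (nat_lit 393216) (.ev (nat_lit 3581)
 (nat_lit 549755813888) .dd))) (.ch (nat_lit 1) (.ev (nat_lit 3568) (nat_lit 549755944960) (.ev (nat_lit 3581)
 (nat_lit 262144) .dd)))) (.br (nat_lit 8) (.ch (nat_lit 4) (.ev (nat_lit 3568) (nat_lit 549756076032) (.ev
 (nat_lit 3581) (nat_lit 131072) .dd))) (.ch (nat_lit 8) (.ev (nat_lit 3568) (nat_lit 549756207104) .dd))))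
 (.br (nat_lit 18) (.br (nat_lit 16) (.ch (nat_lit 15) (.ev (nat_lit 3568) (nat_lit 549756207104) .dd)) (.ch
 (nat_lit 16) (.ev (nat_lit 3568) (nat_lit 549756076032) (.ev (nat_lit 3581) (nat_lit 131072) .dd)))) (.br
 (nat_lit 23) (.ch (nat_lit 18) (.ev (nat_lit 3568) (nat_lit 549755944960) (.ev (nat_lit 3581) (nat_lit 262144)
 .dd))) (.br (nat_lit 25) (.ch (nat_lit 23) (.ev (nat_lit 3568) (nat_lit 549755944960) (.ev (nat_lit 3581)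
 (nat_lit 262144) .dd))) (.ch (nat_lit 25) (.ev (nat_lit 3568) (nat_lit 549756207104) .dd)))))))))))))) (.br
 (nat_lit 69) (.ch (nat_lit 68) (.ev (nat_lit 52) (nat_lit 34361835618) (.ev (nat_lit 500) (nat_lit 1073741824)
 (.ev (nat_lit 1264) (nat_lit 549789774080) .dd)))) (.br (nat_lit 70) (.ch (nat_lit 69) (.ev (nat_lit 52)
 (nat_lit 549758050370) (.ev (nat_lit 724) (nat_lit 256) (.ev (nat_lit 1252) (nat_lit 34359738368) (.ev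
 (nat_lit 1284) (nat_lit 4096) (.ev (nat_lit 2660) (nat_lit 33554432) (.nd (nat_lit 3552) (.br (nat_lit 13)
 (.br (nat_lit 7) (.br (nat_lit 1) (.ch (nat_lit 0) (.ev (nat_lit 3568) (nat_lit 1074003968) (.ev (nat_lit
 3581) (nat_lit 32) .dd))) (.ch (nat_lit 1) (.ev (nat_lit 3568) (nat_lit 1074004000) .dd))) (.br (nat_lit 8)
 (.ch (nat_lit 7) (.ev (nat_lit 3568) (nat_lit 1074004000) .dd)) (.ch (nat_lit 8) (.ev (nat_lit 3568) (nat_lit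
 1074004000) .dd)))) (.br (nat_lit 20) (.br (nat_lit 18) (.ch (nat_lit 13) (.ev (nat_lit 3568) (nat_lit
 1073741856) (.ev (nat_lit 3581) (nat_lit 262144) .dd))) (.ch (nat_lit 18) (.ev (nat_lit 3568) (nat_lit 262176)
 (.ev (nat_lit 3581) (nat_lit 1073741824) .dd)))) (.br (nat_lit 23) (.ch (nat_lit 20) (.ev (nat_lit 3568)
 (nat_lit 1074004000) .dd)) (.br (nat_lit 26) (.ch (nat_lit 23) (.ev (nat_lit 3568) (nat_lit 262176) (.ev
 (nat_lit 3581) (nat_lit 1073741824) .dd))) (.ch (nat_lit 26) (.ev (nat_lit 3568) (nat_lit 1074004000)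
 .dd))))))))))))) (.ch (nat_lit 70) (.ev (nat_lit 52) (nat_lit 584149110882) (.ev (nat_lit 2852) (nat_lit
 1073741824) (.ev (nat_lit 3092) (nat_lit 262144) (.ev (nat_lit 3412) (nat_lit 8192) (.nd (nat_lit 3552) (.br
 (nat_lit 18) (.br (nat_lit 8) (.ch (nat_lit 4) (.ev (nat_lit 3568) (nat_lit 256) (.ev (nat_lit 3616) (nat_lit
 131072) (.ev (nat_lit 3629) (nat_lit 2097152) .dd)))) (.br (nat_lit 11) (.ch (nat_lit 8) (.ev (nat_lit 3568)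
 (nat_lit 131072) (.ev (nat_lit 3616) (nat_lit 256) (.ev (nat_lit 3629) (nat_lit 2097152) .dd)))) (.ch (nat_lit
 11) (.ev (nat_lit 3568) (nat_lit 2228480) .dd)))) (.br (nat_lit 25) (.br (nat_lit 23) (.ch (nat_lit 18) (.ev
 (nat_lit 3568) (nat_lit 2228480) .dd)) (.ch (nat_lit 23) (.ev (nat_lit 3568) (nat_lit 2228480) .dd))) (.br
 (nat_lit 28) (.ch (nat_lit 25) (.ev (nat_lit 3568) (nat_lit 2097408) (.ev (nat_lit 3581) (nat_lit 131072)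
 .dd))) (.ch (nat_lit 28) (.ev (nat_lit 3568) (nat_lit 2228480) .dd)))))))))))))))))))

/-- Subtrie. -/
noncomputable def T4 : Tr := (.ev (nat_lit 20) (nat_lit 310378771984) (.nd (nat_lit 33) (.br (nat_lit 39) (.br
 (nat_lit 19) (.br (nat_lit 8) (.br (nat_lit 4) (.br (nat_lit 3) (.ch (nat_lit 1) (.ev (nat_lit 52) (nat_lit
 4949985591744) (.ev (nat_lit 596) (nat_lit 17179869184) (.ev (nat_lit 884) (nat_lit 4194304) (.ev (nat_lit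
 1156) (nat_lit 32) (.nd (nat_lit 3552) (.br (nat_lit 21) (.br (nat_lit 5) (.br (nat_lit 4) (.ch (nat_lit 1)
 (.ev (nat_lit 3568) (nat_lit 214748364802) .dd)) (.ch (nat_lit 4) (.ev (nat_lit 3568) (nat_lit 214748364802)
 .dd))) (.br (nat_lit 6) (.ch (nat_lit 5) (.ev (nat_lit 3568) (nat_lit 77309411330) (.ev (nat_lit 3581)
 (nat_lit 137438953472) .dd))) (.ch (nat_lit 6) (.ev (nat_lit 3568) (nat_lit 77309411330) (.ev (nat_lit 3581)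
 (nat_lit 137438953472) .dd))))) (.br (nat_lit 27) (.br (nat_lit 25) (.ch (nat_lit 21) (.ev (nat_lit 3568)
 (nat_lit 77309411328) (.ev (nat_lit 3600) (nat_lit 137438953472) (.ev (nat_lit 3613) (nat_lit 2) .dd)))) (.ch
 (nat_lit 25) (.ev (nat_lit 3568) (nat_lit 206158430208) (.ev (nat_lit 3632) (nat_lit 8589934592) (.ev (nat_lit
 3645) (nat_lit 2) .dd))))) (.br (nat_lit 28) (.ch (nat_lit 27) (.ev (nat_lit 3568) (nat_lit 137438953474)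
 (.fin (nat_lit 576465700097835582)))) (.br (nat_lit 29) (.ch (nat_lit 28) (.ev (nat_lit 3568) (nat_lit
 214748364802) .dd)) (.ch (nat_lit 29) (.ev (nat_lit 3568) (nat_lit 214748364802) .dd)))))))))))) (.ch (nat_lit
 3) (.ev (nat_lit 52) (nat_lit 4483983737218) (.ev (nat_lit 212) (nat_lit 8589934592) (.ev (nat_lit 436)
 (nat_lit 549755813888) (.ev (nat_lit 1840) (nat_lit 139588534368) .dd)))))) (.br (nat_lit 5) (.ch (nat_lit 4)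
 (.ev (nat_lit 52) (nat_lit 163208757474) (.ev (nat_lit 372) (nat_lit 549755813888) (.ev (nat_lit 404) (nat_lit
 4398046511104) (.ev (nat_lit 2292) (nat_lit 131072) (.ev (nat_lit 3156) (nat_lit 256) (.ev (nat_lit 3268)
 (nat_lit 2147483648) (.nd (nat_lit 3552) (.br (nat_lit 12) (.br (nat_lit 2) (.br (nat_lit 1) (.ch (nat_lit 0)
 (.ev (nat_lit 3568) (nat_lit 37748736) (.ev (nat_lit 3680) (nat_lit 68721573888) .dd))) (.ch (nat_lit 1) (.ev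
 (nat_lit 3568) (nat_lit 68723671040) (.ev (nat_lit 3732) (nat_lit 2097152) (.ev (nat_lit 3741) (nat_lit
 33554432) .dd))))) (.br (nat_lit 4) (.ch (nat_lit 2) (.ev (nat_lit 3568) (nat_lit 68759322624) .dd)) (.br
 (nat_lit 6) (.ch (nat_lit 4) (.ev (nat_lit 3568) (nat_lit 39845888) (.ev (nat_lit 3581) (nat_lit 68719476736)
 .dd))) (.ch (nat_lit 6) (.ev (nat_lit 3568) (nat_lit 35651584) (.ev (nat_lit 3584) (nat_lit 68723671040)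
 .dd)))))) (.br (nat_lit 26) (.br (nat_lit 13) (.ch (nat_lit 12) (.ev (nat_lit 3568) (nat_lit 68757225472) (.ev
 (nat_lit 3581) (nat_lit 2097152) .dd))) (.br (nat_lit 21) (.ch (nat_lit 13) (.ev (nat_lit 3568) (nat_lit
 68753031168) (.ev (nat_lit 3648) (nat_lit 4194304) (.ev (nat_lit 3661) (nat_lit 2097152) .dd)))) (.ch (nat_lit
 21) (.ev (nat_lit 3568) (nat_lit 68759322624) .dd)))) (.br (nat_lit 28) (.ch (nat_lit 26) (.ev (nat_lit 3568)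
 (nat_lit 68759322624) .dd)) (.br (nat_lit 29) (.ch (nat_lit 28) (.ev (nat_lit 3568) (nat_lit 39845888) (.ev
 (nat_lit 3581) (nat_lit 68719476736) .dd))) (.ch (nat_lit 29) (.ev (nat_lit 3568) (nat_lit 68725768192) (.ev
 (nat_lit 3581) (nat_lit 33554432) .dd))))))))))))))) (.br (nat_lit 7) (.ch (nat_lit 5) (.ev (nat_lit 52)
 (nat_lit 4417380155714) (.ev (nat_lit 84) (nat_lit 32) (.ev (nat_lit 724) (nat_lit 68719476736) (.ev (nat_lit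
 916) (nat_lit 33554432) (.ev (nat_lit 1316) (nat_lit 8589934592) (.ev (nat_lit 2084) (nat_lit 128) (.ev
 (nat_lit 3060) (nat_lit 549755813888) (.nd (nat_lit 3552) (.br (nat_lit 18) (.br (nat_lit 12) (.br (nat_lit 5)
 (.ch (nat_lit 0) (.ev (nat_lit 3568) (nat_lit 137439084544) .dd)) (.ch (nat_lit 5) (.ev (nat_lit 3568)
 (nat_lit 131072) (.ev (nat_lit 3581) (nat_lit 137438953472) .dd)))) (.br (nat_lit 15) (.ch (nat_lit 12) (.ev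
 (nat_lit 3568) (nat_lit 137438953472) (.ev (nat_lit 3581) (nat_lit 131072) .dd))) (.ch (nat_lit 15) (.ev
 (nat_lit 3568) (nat_lit 131072) (.ev (nat_lit 3581) (nat_lit 137438953472) .dd))))) (.br (nat_lit 24) (.br
 (nat_lit 20) (.ch (nat_lit 18) (.ev (nat_lit 3568) (nat_lit 137439084544) .dd)) (.ch (nat_lit 20) (.ev
 (nat_lit 3568) (nat_lit 137438953472) (.ev (nat_lit 3581) (nat_lit 131072) .dd)))) (.br (nat_lit 26) (.ch
 (nat_lit 24) (.ev (nat_lit 3568) (nat_lit 137439084544) .dd)) (.br (nat_lit 28) (.ch (nat_lit 26) (.ev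
 (nat_lit 3568) (nat_lit 137439084544) .dd)) (.ch (nat_lit 28) (.ev (nat_lit 3568) (nat_lit 137439084544)
 .dd))))))))))))))) (.ch (nat_lit 7) (.ev (nat_lit 52) (nat_lit 4406670000610) (.ev (nat_lit 212) (nat_lit
 2097152) (.ev (nat_lit 1188) (nat_lit 68719476736) (.ev (nat_lit 1396) (nat_lit 131072) (.ev (nat_lit 2116)
 (nat_lit 4194304) (.nd (nat_lit 3552) (.br (nat_lit 6) (.br (nat_lit 2) (.br (nat_lit 1) (.ch (nat_lit 0) (.ev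
 (nat_lit 3568) (nat_lit 706522120192) .dd)) (.ch (nat_lit 1) (.ev (nat_lit 3568) (nat_lit 704374636544) (.ev
 (nat_lit 3581) (nat_lit 2147483648) .dd)))) (.br (nat_lit 4) (.ch (nat_lit 2) (.ev (nat_lit 3568) (nat_lit
 704374636544) (.ev (nat_lit 3581) (nat_lit 2147483648) .dd))) (.ch (nat_lit 4) (.ev (nat_lit 3568) (nat_lit
 706522120192) .dd)))) (.br (nat_lit 24) (.br (nat_lit 19) (.ch (nat_lit 6) (.ev (nat_lit 3568) (nat_lit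
 156766306304) (.ev (nat_lit 3581) (nat_lit 549755813888) .dd))) (.ch (nat_lit 19) (.ev (nat_lit 3568) (nat_lit
 706522120192) .dd))) (.br (nat_lit 28) (.ch (nat_lit 24) (.ev (nat_lit 3568) (nat_lit 689342251008) (.ev
 (nat_lit 3581) (nat_lit 17179869184) .dd))) (.br (nat_lit 29) (.ch (nat_lit 28) (.ev (nat_lit 3568) (nat_lit
 706522120192) .dd)) (.ch (nat_lit 29) (.ev (nat_lit 3568) (nat_lit 19327352832) (.ev (nat_lit 3600) (nat_lit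
 137438953472) (.ev (nat_lit 3613) (nat_lit 549755813888) .dd)))))))))))))))))) (.br (nat_lit 15) (.br (nat_lit
 11) (.ch (nat_lit 8) (.ev (nat_lit 52) (nat_lit 4408790221216) (.ev (nat_lit 244) (nat_lit 2) (.ev (nat_lit
 436) (nat_lit 137438953472) (.ev (nat_lit 692) (nat_lit 17179869184) (.ev (nat_lit 852) (nat_lit 131072) (.ev
 (nat_lit 1316) (nat_lit 68719476736) (.ev (nat_lit 2180) (nat_lit 33554432) (.ev (nat_lit 2596) (nat_lit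
 549755813888) (.ev (nat_lit 2605) (nat_lit 64) .dd)))))))))) (.br (nat_lit 12) (.ch (nat_lit 11) (.ev (nat_lit
 52) (nat_lit 5162550690144) (.ev (nat_lit 340) (nat_lit 2097152) (.ev (nat_lit 1220) (nat_lit 17179869184)
 (.nd (nat_lit 3552) (.br (nat_lit 15) (.br (nat_lit 2) (.br (nat_lit 1) (.ch (nat_lit 0) (.ev (nat_lit 3568)
 (nat_lit 37879938) (.ev (nat_lit 3581) (nat_lit 2147483648) .dd))) (.ch (nat_lit 1) (.ev (nat_lit 3568)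
 (nat_lit 2185232512) (.ev (nat_lit 3696) (nat_lit 2) (.ev (nat_lit 3709) (nat_lit 131072) .dd))))) (.br
 (nat_lit 6) (.ch (nat_lit 2) (.ev (nat_lit 3568) (nat_lit 2185232514) (.ev (nat_lit 3581) (nat_lit 131072)
 .dd))) (.br (nat_lit 12) (.ch (nat_lit 6) (.ev (nat_lit 3568) (nat_lit 2181169282) (.ev (nat_lit 3581)
 (nat_lit 4194304) .dd))) (.ch (nat_lit 12) (.ev (nat_lit 3568) (nat_lit 37879938) (.ev (nat_lit 3581) (nat_lit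
 2147483648) .dd)))))) (.br (nat_lit 21) (.br (nat_lit 18) (.ch (nat_lit 15) (.ev (nat_lit 3568) (nat_lit
 2147614850) (.ev (nat_lit 3712) (nat_lit 33554432) (.ev (nat_lit 3725) (nat_lit 4194304) .dd)))) (.br (nat_lit
 20) (.ch (nat_lit 18) (.ev (nat_lit 3568) (nat_lit 2185363456) (.fin (nat_lit 576470098154832458)))) (.ch
 (nat_lit 20) (.ev (nat_lit 3568) (nat_lit 2181038210) (.ev (nat_lit 3732) (nat_lit 131072) (.ev (nat_lit 3741)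
 (nat_lit 4194304) .dd)))))) (.br (nat_lit 25) (.ch (nat_lit 21) (.ev (nat_lit 3568) (nat_lit 2185232514) (.ev
 (nat_lit 3581) (nat_lit 131072) .dd))) (.br (nat_lit 28) (.ch (nat_lit 25) (.ev (nat_lit 3568) (nat_lit
 2185363586) .dd)) (.ch (nat_lit 28) (.ev (nat_lit 3568) (nat_lit 2185363586) .dd))))))))))) (.ch (nat_lit 12)
 (.ev (nat_lit 52) (nat_lit 4956430139394) (.ev (nat_lit 404) (nat_lit 128) (.ev (nat_lit 532) (nat_lit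
 17179869184) (.ev (nat_lit 1188) (nat_lit 256) (.ev (nat_lit 1428) (nat_lit 32) (.ev (nat_lit 1460) (nat_lit
 2097152) (.ev (nat_lit 1524) (nat_lit 2147483648) (.nd (nat_lit 3552) (.br (nat_lit 18) (.br (nat_lit 12) (.br
 (nat_lit 6) (.ch (nat_lit 1) (.ev (nat_lit 3568) (nat_lit 206158430208) (.ev (nat_lit 3581) (nat_lit 64)
 .dd))) (.ch (nat_lit 6) (.ev (nat_lit 3568) (nat_lit 68719476800) (.ev (nat_lit 3581) (nat_lit 137438953472)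
 .dd)))) (.br (nat_lit 15) (.ch (nat_lit 12) (.ev (nat_lit 3568) (nat_lit 206158430208) (.ev (nat_lit 3581)
 (nat_lit 64) .dd))) (.ch (nat_lit 15) (.ev (nat_lit 3568) (nat_lit 206158430272) .dd)))) (.br (nat_lit 21)
 (.br (nat_lit 19) (.ch (nat_lit 18) (.ev (nat_lit 3568) (nat_lit 137438953536) (.ev (nat_lit 3581) (nat_lit
 68719476736) .dd))) (.ch (nat_lit 19) (.ev (nat_lit 3568) (nat_lit 68719476800) (.ev (nat_lit 3581) (nat_lit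
 137438953472) .dd)))) (.br (nat_lit 24) (.ch (nat_lit 21) (.ev (nat_lit 3568) (nat_lit 68719476800) (.ev
 (nat_lit 3581) (nat_lit 137438953472) .dd))) (.br (nat_lit 28) (.ch (nat_lit 24) (.ev (nat_lit 3568) (nat_lit
 206158430272) .dd)) (.ch (nat_lit 28) (.ev (nat_lit 3568) (nat_lit 206158430272) .dd))))))))))))))))) (.br
 (nat_lit 16) (.ch (nat_lit 15) (.ev (nat_lit 52) (nat_lit 4964984291586) (.ev (nat_lit 116) (nat_lit 131072)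
 (.ev (nat_lit 148) (nat_lit 64) (.ev (nat_lit 1220) (nat_lit 2147483648) (.ev (nat_lit 1892) (nat_lit 128)
 (.nd (nat_lit 3552) (.br (nat_lit 18) (.br (nat_lit 4) (.br (nat_lit 1) (.ch (nat_lit 0) (.ev (nat_lit 3568)
 (nat_lit 146033082400) (.ev (nat_lit 3696) (nat_lit 68719476736) (.ev (nat_lit 3709) (nat_lit 33554432)
 .dd)))) (.ch (nat_lit 1) (.ev (nat_lit 3568) (nat_lit 214752559104) (.ev (nat_lit 3732) (nat_lit 32) (.ev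
 (nat_lit 3741) (nat_lit 33554432) .dd))))) (.br (nat_lit 12) (.ch (nat_lit 4) (.ev (nat_lit 3568) (nat_lit
 77347160064) (.ev (nat_lit 3712) (nat_lit 137438953472) (.ev (nat_lit 3725) (nat_lit 32) .dd)))) (.br (nat_lit
 13) (.ch (nat_lit 12) (.ev (nat_lit 3568) (nat_lit 214781919264) (.ev (nat_lit 3581) (nat_lit 4194304) .dd)))
 (.ch (nat_lit 13) (.ev (nat_lit 3568) (nat_lit 214781919264) (.ev (nat_lit 3581) (nat_lit 4194304) .dd))))))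
 (.br (nat_lit 27) (.br (nat_lit 19) (.ch (nat_lit 18) (.ev (nat_lit 3568) (nat_lit 214752559136) (.ev (nat_lit
 3581) (nat_lit 33554432) .dd))) (.br (nat_lit 21) (.ch (nat_lit 19) (.ev (nat_lit 3568) (nat_lit 214752559136)
 (.ev (nat_lit 3581) (nat_lit 33554432) .dd))) (.ch (nat_lit 21) (.ev (nat_lit 3568) (nat_lit 214786113568)
 .dd)))) (.br (nat_lit 28) (.ch (nat_lit 27) (.ev (nat_lit 3568) (nat_lit 137476702240) (.fin (nat_lit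
 576465700097835582)))) (.br (nat_lit 29) (.ch (nat_lit 28) (.ev (nat_lit 3568) (nat_lit 214786113536) (.ev
 (nat_lit 3581) (nat_lit 32) .dd))) (.ch (nat_lit 29) (.ev (nat_lit 3568) (nat_lit 214786113568)
 .dd))))))))))))) (.br (nat_lit 18) (.ch (nat_lit 16) (.ev (nat_lit 52) (nat_lit 4537668600098) (.ev (nat_lit
 404) (nat_lit 8589934592) (.ev (nat_lit 500) (nat_lit 17179869184) (.nd (nat_lit 3552) (.br (nat_lit 13) (.br
 (nat_lit 2) (.ch (nat_lit 0) (.ev (nat_lit 3568) (nat_lit 549760139328) (.fin (nat_lit 576470098169512516))))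
 (.br (nat_lit 12) (.ch (nat_lit 2) (.ev (nat_lit 3568) (nat_lit 68723671168) (.ev (nat_lit 3584) (nat_lit
 549755813888) (.ev (nat_lit 3600) (nat_lit 131136) .dd)))) (.ch (nat_lit 12) (.ev (nat_lit 3568) (nat_lit
 618479485120) (.ev (nat_lit 3581) (nat_lit 131072) .dd))))) (.br (nat_lit 27) (.br (nat_lit 20) (.ch (nat_lit
 13) (.ev (nat_lit 3568) (nat_lit 618475421888) (.ev (nat_lit 3581) (nat_lit 4194304) .dd))) (.ch (nat_lit 20)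
 (.ev (nat_lit 3568) (nat_lit 618479616128) (.ev (nat_lit 3581) (nat_lit 64) .dd)))) (.br (nat_lit 28) (.ch
 (nat_lit 27) (.ev (nat_lit 3568) (nat_lit 618479485120) (.ev (nat_lit 3581) (nat_lit 131072) .dd))) (.ch
 (nat_lit 28) (.ev (nat_lit 3568) (nat_lit 68723802304) (.ev (nat_lit 3581) (nat_lit 549755813888)
 .dd))))))))))) (.ch (nat_lit 18) (.ev (nat_lit 52) (nat_lit 4535521116642) (.ev (nat_lit 820) (nat_lit
 4194304) (.ev (nat_lit 996) (nat_lit 2147483648) (.ev (nat_lit 1872) (nat_lit 644245225472) .dd))))))))) (.br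
 (nat_lit 29) (.br (nat_lit 23) (.br (nat_lit 22) (.ch (nat_lit 19) (.ev (nat_lit 52) (nat_lit 4417380155712)
 (.ev (nat_lit 148) (nat_lit 68719476736) (.ev (nat_lit 756) (nat_lit 33554432) (.ev (nat_lit 1460) (nat_lit 2)
 (.ev (nat_lit 2212) (nat_lit 131072) (.ev (nat_lit 2292) (nat_lit 32) (.ev (nat_lit 2724) (nat_lit
 137438953472) (.nd (nat_lit 3552) (.br (nat_lit 13) (.br (nat_lit 2) (.br (nat_lit 1) (.ch (nat_lit 0) (.ev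
 (nat_lit 3568) (nat_lit 549755813888) (.ev (nat_lit 3732) (nat_lit 8589934592) (.ev (nat_lit 3741) (nat_lit
 128) .dd)))) (.ch (nat_lit 1) (.ev (nat_lit 3568) (nat_lit 558345748608) .dd))) (.br (nat_lit 4) (.ch (nat_lit
 2) (.ev (nat_lit 3568) (nat_lit 8589934720) (.ev (nat_lit 3581) (nat_lit 549755813888) .dd))) (.br (nat_lit 5)
 (.ch (nat_lit 4) (.ev (nat_lit 3568) (nat_lit 549755814016) (.ev (nat_lit 3581) (nat_lit 8589934592) .dd)))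
 (.ch (nat_lit 5) (.ev (nat_lit 3568) (nat_lit 558345748608) .dd))))) (.br (nat_lit 24) (.br (nat_lit 19) (.ch
 (nat_lit 13) (.ev (nat_lit 3568) (nat_lit 558345748480) (.ev (nat_lit 3581) (nat_lit 128) .dd))) (.br (nat_lit
 21) (.ch (nat_lit 19) (.ev (nat_lit 3568) (nat_lit 558345748480) (.ev (nat_lit 3581) (nat_lit 128) .dd))) (.ch
 (nat_lit 21) (.ev (nat_lit 3568) (nat_lit 549755814016) (.ev (nat_lit 3581) (nat_lit 8589934592) .dd))))) (.br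
 (nat_lit 25) (.ch (nat_lit 24) (.ev (nat_lit 3568) (nat_lit 8589934592) (.ev (nat_lit 3600) (nat_lit 128) (.ev
 (nat_lit 3613) (nat_lit 549755813888) .dd)))) (.br (nat_lit 26) (.ch (nat_lit 25) (.ev (nat_lit 3568) (nat_lit
 549755814016) (.ev (nat_lit 3581) (nat_lit 8589934592) .dd))) (.ch (nat_lit 26) (.ev (nat_lit 3568) (nat_lit
 558345748608) .dd))))))))))))))) (.ch (nat_lit 22) (.ev (nat_lit 52) (nat_lit 4958544068674) (.ev (nat_lit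
 1796) (nat_lit 2097152) (.ev (nat_lit 3204) (nat_lit 137438953472) (.nd (nat_lit 3552) (.br (nat_lit 18) (.br
 (nat_lit 4) (.ch (nat_lit 0) (.ev (nat_lit 3568) (nat_lit 17213423904) (.fin (nat_lit 576470098169512516))))
 (.br (nat_lit 15) (.ch (nat_lit 4) (.ev (nat_lit 3568) (nat_lit 85932900512) (.ev (nat_lit 3581) (nat_lit 256)
 .dd))) (.ch (nat_lit 15) (.ev (nat_lit 3568) (nat_lit 85899346336) (.ev (nat_lit 3581) (nat_lit 33554432)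
 .dd))))) (.br (nat_lit 25) (.br (nat_lit 24) (.ch (nat_lit 18) (.ev (nat_lit 3568) (nat_lit 68719476896) (.ev
 (nat_lit 3584) (nat_lit 256) (.ev (nat_lit 3600) (nat_lit 17213423616) .dd)))) (.ch (nat_lit 24) (.ev (nat_lit
 3568) (nat_lit 85932900736) (.ev (nat_lit 3581) (nat_lit 32) .dd)))) (.br (nat_lit 26) (.ch (nat_lit 25) (.ev
 (nat_lit 3568) (nat_lit 68753031584) (.ev (nat_lit 3581) (nat_lit 17179869184) .dd))) (.ch (nat_lit 26) (.ev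
 (nat_lit 3568) (nat_lit 85899346336) (.ev (nat_lit 3581) (nat_lit 33554432) .dd)))))))))))) (.br (nat_lit 24)
 (.ch (nat_lit 23) (.ev (nat_lit 52) (nat_lit 783833628768) (.ev (nat_lit 276) (nat_lit 131072) (.ev (nat_lit
 1860) (nat_lit 4398046511104) (.ev (nat_lit 3028) (nat_lit 33554432) (.nd (nat_lit 3552) (.br (nat_lit 15)
 (.br (nat_lit 2) (.br (nat_lit 1) (.ch (nat_lit 0) (.ev (nat_lit 3568) (nat_lit 4194434) (.ev (nat_lit 3581)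
 (nat_lit 256) .dd))) (.ch (nat_lit 1) (.ev (nat_lit 3568) (nat_lit 384) (.ev (nat_lit 3732) (nat_lit 2) (.ev
 (nat_lit 3741) (nat_lit 4194304) .dd))))) (.br (nat_lit 5) (.ch (nat_lit 2) (.ev (nat_lit 3568) (nat_lit
 4194690) .dd)) (.br (nat_lit 6) (.ch (nat_lit 5) (.ev (nat_lit 3568) (nat_lit 4194690) .dd)) (.ch (nat_lit 6)
 (.ev (nat_lit 3568) (nat_lit 386) (.ev (nat_lit 3581) (nat_lit 4194304) .dd)))))) (.br (nat_lit 21) (.br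
 (nat_lit 18) (.ch (nat_lit 15) (.ev (nat_lit 3568) (nat_lit 386) (.ev (nat_lit 3581) (nat_lit 4194304) .dd)))
 (.br (nat_lit 20) (.ch (nat_lit 18) (.ev (nat_lit 3568) (nat_lit 4194562) (.ev (nat_lit 3581) (nat_lit 128)
 .dd))) (.ch (nat_lit 20) (.ev (nat_lit 3568) (nat_lit 4194690) .dd)))) (.br (nat_lit 24) (.ch (nat_lit 21)
 (.ev (nat_lit 3568) (nat_lit 4194688) (.ev (nat_lit 3581) (nat_lit 2) .dd))) (.br (nat_lit 29) (.ch (nat_lit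
 24) (.ev (nat_lit 3568) (nat_lit 4194688) (.ev (nat_lit 3581) (nat_lit 2) .dd))) (.ch (nat_lit 29) (.ev
 (nat_lit 3568) (nat_lit 4194688) (.ev (nat_lit 3581) (nat_lit 2) .dd))))))))))))) (.br (nat_lit 26) (.ch
 (nat_lit 24) (.ev (nat_lit 52) (nat_lit 697972162818) (.ev (nat_lit 340) (nat_lit 4398046511104) (.ev (nat_lit
 2064) (nat_lit 85899346144) .dd)))) (.ch (nat_lit 26) (.ev (nat_lit 52) (nat_lit 4425968123968) (.ev (nat_lit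
 212) (nat_lit 68719476736) (.ev (nat_lit 704) (nat_lit 687230419362) .dd))))))) (.br (nat_lit 34) (.br
 (nat_lit 31) (.ch (nat_lit 29) (.ev (nat_lit 52) (nat_lit 695822450978) (.ev (nat_lit 404) (nat_lit
 68719476736) (.ev (nat_lit 1168) (nat_lit 4417376092352) .dd)))) (.br (nat_lit 33) (.ch (nat_lit 31) (.ev
 (nat_lit 52) (nat_lit 17215521216) (.ev (nat_lit 224) (nat_lit 5164702498850) .dd))) (.ch (nat_lit 33) (.ev
 (nat_lit 52) (nat_lit 5153965080674) (.ev (nat_lit 244) (nat_lit 2097152) (.ev (nat_lit 308) (nat_lit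
 8589934592) (.ev (nat_lit 1524) (nat_lit 17179869184) (.ev (nat_lit 1748) (nat_lit 33554432) (.nd (nat_lit
 3552) (.br (nat_lit 20) (.br (nat_lit 12) (.br (nat_lit 1) (.ch (nat_lit 0) (.ev (nat_lit 3568) (nat_lit
 2147483776) (.ev (nat_lit 3581) (nat_lit 256) .dd))) (.ch (nat_lit 1) (.ev (nat_lit 3568) (nat_lit 2147484032)
 .dd))) (.br (nat_lit 15) (.ch (nat_lit 12) (.ev (nat_lit 3568) (nat_lit 2147483904) (.ev (nat_lit 3581)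
 (nat_lit 128) .dd))) (.br (nat_lit 19) (.ch (nat_lit 15) (.ev (nat_lit 3568) (nat_lit 2147484032) .dd)) (.ch
 (nat_lit 19) (.ev (nat_lit 3568) (nat_lit 2147484032) .dd))))) (.br (nat_lit 25) (.br (nat_lit 21) (.ch
 (nat_lit 20) (.ev (nat_lit 3568) (nat_lit 2147484032) .dd)) (.br (nat_lit 24) (.ch (nat_lit 21) (.ev (nat_lit
 3568) (nat_lit 2147484032) .dd)) (.ch (nat_lit 24) (.ev (nat_lit 3568) (nat_lit 2147484032) .dd)))) (.br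
 (nat_lit 26) (.ch (nat_lit 25) (.ev (nat_lit 3568) (nat_lit 2147483776) (.ev (nat_lit 3581) (nat_lit 256)
 .dd))) (.br (nat_lit 27) (.ch (nat_lit 26) (.ev (nat_lit 3568) (nat_lit 384) (.ev (nat_lit 3581) (nat_lit
 2147483648) .dd))) (.ch (nat_lit 27) (.ev (nat_lit 3568) (nat_lit 2147484032) .dd))))))))))))))) (.br (nat_lit
 36) (.ch (nat_lit 34) (.ev (nat_lit 52) (nat_lit 216900173826) (.ev (nat_lit 180) (nat_lit 32) (.ev (nat_lit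
 724) (nat_lit 64) (.ev (nat_lit 820) (nat_lit 33554432) (.ev (nat_lit 1460) (nat_lit 256) (.ev (nat_lit 2756)
 (nat_lit 17179869184) (.nd (nat_lit 3552) (.br (nat_lit 12) (.br (nat_lit 4) (.br (nat_lit 2) (.ch (nat_lit 0)
 (.ev (nat_lit 3568) (nat_lit 549755813888) (.ev (nat_lit 3584) (nat_lit 128) (.ev (nat_lit 3732) (nat_lit
 2097152) (.ev (nat_lit 3741) (nat_lit 4398046511104) .dd))))) (.ch (nat_lit 2) (.ev (nat_lit 3568) (nat_lit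
 549755814016) (.fin (nat_lit 576464600600887871))))) (.br (nat_lit 5) (.ch (nat_lit 4) (.ev (nat_lit 3568)
 (nat_lit 4947804422144) (.ev (nat_lit 3581) (nat_lit 128) .dd))) (.br (nat_lit 6) (.ch (nat_lit 5) (.ev
 (nat_lit 3568) (nat_lit 4947802325120) (.ev (nat_lit 3581) (nat_lit 2097152) .dd))) (.ch (nat_lit 6) (.ev
 (nat_lit 3568) (nat_lit 128) (.ev (nat_lit 3584) (nat_lit 549755813888) (.ev (nat_lit 3732) (nat_lit 2097152)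
 (.ev (nat_lit 3741) (nat_lit 4398046511104) .dd)))))))) (.br (nat_lit 21) (.br (nat_lit 13) (.ch (nat_lit 12)
 (.ev (nat_lit 3568) (nat_lit 4398046511232) (.ev (nat_lit 3584) (nat_lit 549757911040) .dd))) (.br (nat_lit
 20) (.ch (nat_lit 13) (.ev (nat_lit 3568) (nat_lit 4947802324992) (.ev (nat_lit 3616) (nat_lit 128) (.ev
 (nat_lit 3629) (nat_lit 2097152) .dd)))) (.ch (nat_lit 20) (.ev (nat_lit 3568) (nat_lit 549757911168) (.ev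
 (nat_lit 3581) (nat_lit 4398046511104) .dd))))) (.br (nat_lit 26) (.ch (nat_lit 21) (.ev (nat_lit 3568)
 (nat_lit 549757911168) (.ev (nat_lit 3581) (nat_lit 4398046511104) .dd))) (.br (nat_lit 29) (.ch (nat_lit 26)
 (.ev (nat_lit 3568) (nat_lit 549757911168) (.ev (nat_lit 3581) (nat_lit 4398046511104) .dd))) (.ch (nat_lit
 29) (.ev (nat_lit 3568) (nat_lit 4947804422144) (.ev (nat_lit 3581) (nat_lit 128) .dd))))))))))))))) (.br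
 (nat_lit 38) (.ch (nat_lit 36) (.ev (nat_lit 52) (nat_lit 4612801167520) (.ev (nat_lit 340) (nat_lit 2) (.ev
 (nat_lit 1092) (nat_lit 33554432) (.ev (nat_lit 2356) (nat_lit 131072) (.ev (nat_lit 2388) (nat_lit
 2147483648) (.nd (nat_lit 3552) (.br (nat_lit 24) (.br (nat_lit 15) (.br (nat_lit 2) (.ch (nat_lit 0) (.ev
 (nat_lit 3568) (nat_lit 566935683392) .dd)) (.ch (nat_lit 2) (.ev (nat_lit 3568) (nat_lit 566935683136) (.ev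
 (nat_lit 3581) (nat_lit 256) .dd)))) (.br (nat_lit 20) (.ch (nat_lit 15) (.ev (nat_lit 3568) (nat_lit
 566935683392) .dd)) (.ch (nat_lit 20) (.ev (nat_lit 3568) (nat_lit 566935683328) (.ev (nat_lit 3581) (nat_lit
 64) .dd))))) (.br (nat_lit 27) (.br (nat_lit 25) (.ch (nat_lit 24) (.ev (nat_lit 3568) (nat_lit 566935683392)
 .dd)) (.ch (nat_lit 25) (.ev (nat_lit 3568) (nat_lit 549755813952) (.ev (nat_lit 3600) (nat_lit 17179869184)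
 (.ev (nat_lit 3613) (nat_lit 256) .dd))))) (.br (nat_lit 28) (.ch (nat_lit 27) (.ev (nat_lit 3568) (nat_lit
 566935683392) .dd)) (.br (nat_lit 29) (.ch (nat_lit 28) (.ev (nat_lit 3568) (nat_lit 17179869504) (.ev
 (nat_lit 3581) (nat_lit 549755813888) .dd))) (.ch (nat_lit 29) (.ev (nat_lit 3568) (nat_lit 17179869504) (.ev
 (nat_lit 3581) (nat_lit 549755813888) .dd)))))))))))))) (.ch (nat_lit 38) (.ev (nat_lit 52) (nat_lit
 5156110467488) (.ev (nat_lit 628) (nat_lit 17179869184) (.ev (nat_lit 1620) (nat_lit 4194304) (.ev (nat_lit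
 2544) (nat_lit 8623489090) .dd)))))))))) (.br (nat_lit 54) (.br (nat_lit 47) (.br (nat_lit 43) (.br (nat_lit
 42) (.ch (nat_lit 39) (.ev (nat_lit 52) (nat_lit 94529126402) (.ev (nat_lit 340) (nat_lit 128) (.ev (nat_lit
 1060) (nat_lit 137438953472) (.ev (nat_lit 1316) (nat_lit 4398046511104) (.ev (nat_lit 2052) (nat_lit 131072)
 (.ev (nat_lit 2084) (nat_lit 256) (.ev (nat_lit 2852) (nat_lit 2147483648) (.ev (nat_lit 3136) (nat_lit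
 549755813920) (.ev (nat_lit 3149) (nat_lit 64) .dd)))))))))) (.ch (nat_lit 42) (.ev (nat_lit 52) (nat_lit
 4415264129120) (.ev (nat_lit 128) (nat_lit 766653890946) .dd)))) (.br (nat_lit 44) (.ch (nat_lit 43) (.ev
 (nat_lit 52) (nat_lit 4630008430912) (.ev (nat_lit 1296) (nat_lit 551909589154) .dd))) (.br (nat_lit 46) (.ch
 (nat_lit 44) (.ev (nat_lit 52) (nat_lit 695822582208) (.ev (nat_lit 148) (nat_lit 2) (.ev (nat_lit 532)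
 (nat_lit 2147483648) (.ev (nat_lit 2260) (nat_lit 32) (.nd (nat_lit 3552) (.br (nat_lit 20) (.br (nat_lit 18)
 (.br (nat_lit 2) (.ch (nat_lit 0) (.ev (nat_lit 3568) (nat_lit 4415226380288) (.ev (nat_lit 3648) (nat_lit
 2097152) (.ev (nat_lit 3661) (nat_lit 68719476736) .dd)))) (.ch (nat_lit 2) (.ev (nat_lit 3568) (nat_lit
 85899345920) (.fin (nat_lit 576464600600887871))))) (.br (nat_lit 19) (.ch (nat_lit 18) (.ev (nat_lit 3568)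
 (nat_lit 4466768084992) (.ev (nat_lit 3581) (nat_lit 17179869184) .dd))) (.ch (nat_lit 19) (.ev (nat_lit 3568)
 (nat_lit 4483947954176) .dd)))) (.br (nat_lit 24) (.br (nat_lit 21) (.ch (nat_lit 20) (.ev (nat_lit 3568)
 (nat_lit 4483947954176) .dd)) (.ch (nat_lit 21) (.ev (nat_lit 3568) (nat_lit 68721573888) (.ev (nat_lit 3616)
 (nat_lit 17179869184) (.ev (nat_lit 3629) (nat_lit 4398046511104) .dd))))) (.br (nat_lit 27) (.ch (nat_lit 24)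
 (.ev (nat_lit 3568) (nat_lit 4466768084992) (.ev (nat_lit 3581) (nat_lit 17179869184) .dd))) (.br (nat_lit 29)
 (.ch (nat_lit 27) (.ev (nat_lit 3568) (nat_lit 4415228477440) (.ev (nat_lit 3581) (nat_lit 68719476736) .dd)))
 (.ch (nat_lit 29) (.ev (nat_lit 3568) (nat_lit 4483947954176) .dd)))))))))))) (.ch (nat_lit 46) (.ev (nat_lit
 52) (nat_lit 225487880224) (.ev (nat_lit 180) (nat_lit 131072) (.ev (nat_lit 212) (nat_lit 2) (.ev (nat_lit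
 244) (nat_lit 8589934592) (.ev (nat_lit 2564) (nat_lit 256) (.ev (nat_lit 2948) (nat_lit 549755813888) (.ev
 (nat_lit 2980) (nat_lit 33554432) (.nd (nat_lit 3552) (.br (nat_lit 13) (.br (nat_lit 4) (.br (nat_lit 1) (.ch
 (nat_lit 0) (.ev (nat_lit 3568) (nat_lit 4194368) (.ev (nat_lit 3732) (nat_lit 128) (.ev (nat_lit 3741)
 (nat_lit 4398046511104) .dd)))) (.ch (nat_lit 1) (.ev (nat_lit 3568) (nat_lit 4398046511232) (.ev (nat_lit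
 3584) (nat_lit 4194368) .dd)))) (.br (nat_lit 5) (.ch (nat_lit 4) (.ev (nat_lit 3568) (nat_lit 4398050705600)
 .dd)) (.br (nat_lit 6) (.ch (nat_lit 5) (.ev (nat_lit 3568) (nat_lit 4398050705600) .dd)) (.ch (nat_lit 6)
 (.ev (nat_lit 3568) (nat_lit 192) (.ev (nat_lit 3680) (nat_lit 4398050705408) .dd)))))) (.br (nat_lit 24) (.br
 (nat_lit 18) (.ch (nat_lit 13) (.ev (nat_lit 3568) (nat_lit 4398046511296) (.ev (nat_lit 3581) (nat_lit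
 4194304) .dd))) (.br (nat_lit 21) (.ch (nat_lit 18) (.ev (nat_lit 3568) (nat_lit 4398050705472) (.ev (nat_lit
 3581) (nat_lit 128) .dd))) (.ch (nat_lit 21) (.ev (nat_lit 3568) (nat_lit 4194432) (.ev (nat_lit 3648)
 (nat_lit 64) (.ev (nat_lit 3661) (nat_lit 4398046511104) .dd)))))) (.br (nat_lit 25) (.ch (nat_lit 24) (.ev
 (nat_lit 3568) (nat_lit 4398046511296) (.ev (nat_lit 3581) (nat_lit 4194304) .dd))) (.br (nat_lit 27) (.ch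
 (nat_lit 25) (.ev (nat_lit 3568) (nat_lit 4398050705600) .dd)) (.ch (nat_lit 27) (.ev (nat_lit 3568) (nat_lit
 4194496) (.ev (nat_lit 3581) (nat_lit 4398046511104) .dd))))))))))))))))))) (.br (nat_lit 50) (.br (nat_lit
 48) (.ch (nat_lit 47) (.ev (nat_lit 52) (nat_lit 706524217602) (.ev (nat_lit 116) (nat_lit 32) (.ev (nat_lit
 724) (nat_lit 8589934592) (.ev (nat_lit 756) (nat_lit 4194304) (.ev (nat_lit 1808) (nat_lit 4466799673536)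
 .dd)))))) (.br (nat_lit 49) (.ch (nat_lit 48) (.ev (nat_lit 52) (nat_lit 577710850272) (.ev (nat_lit 148)
 (nat_lit 4398046511104) (.ev (nat_lit 1028) (nat_lit 131072) (.ev (nat_lit 1828) (nat_lit 68721573888) (.ev
 (nat_lit 1892) (nat_lit 2) (.ev (nat_lit 2612) (nat_lit 256) (.ev (nat_lit 2621) (nat_lit 137438953472)
 .dd)))))))) (.ch (nat_lit 49) (.ev (nat_lit 52) (nat_lit 4606352556322) (.ev (nat_lit 308) (nat_lit 128) (.ev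
 (nat_lit 1188) (nat_lit 2097152) (.ev (nat_lit 1460) (nat_lit 8589934592) (.ev (nat_lit 1796) (nat_lit 64)
 (.ev (nat_lit 2420) (nat_lit 33554432) (.ev (nat_lit 3536) (nat_lit 4194304) (.nd (nat_lit 3552) (.br (nat_lit
 12) (.br (nat_lit 6) (.ch (nat_lit 0) (.ev (nat_lit 3568) (nat_lit 566935683072) .dd)) (.ch (nat_lit 6) (.ev
 (nat_lit 3568) (nat_lit 566935683072) .dd))) (.br (nat_lit 20) (.ch (nat_lit 12) (.ev (nat_lit 3568) (nat_lit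
 566935683072) .dd)) (.br (nat_lit 28) (.ch (nat_lit 20) (.ev (nat_lit 3568) (nat_lit 566935683072) .dd)) (.ch
 (nat_lit 28) (.fin (nat_lit 576465700110418480))))))))))))))))) (.br (nat_lit 51) (.ch (nat_lit 50) (.ev
 (nat_lit 52) (nat_lit 165392023586) (.ev (nat_lit 244) (nat_lit 128) (.ev (nat_lit 1188) (nat_lit
 4398046511104) (.ev (nat_lit 1348) (nat_lit 549755813888) (.ev (nat_lit 2084) (nat_lit 68719476736) (.nd
 (nat_lit 3552) (.br (nat_lit 19) (.br (nat_lit 13) (.br (nat_lit 5) (.ch (nat_lit 4) (.ev (nat_lit 3568)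
 (nat_lit 4194560) (.ev (nat_lit 3581) (nat_lit 64) .dd))) (.ch (nat_lit 5) (.ev (nat_lit 3568) (nat_lit 64)
 (.ev (nat_lit 3584) (nat_lit 4194560) .dd)))) (.br (nat_lit 15) (.ch (nat_lit 13) (.ev (nat_lit 3568) (nat_lit
 4194368) (.ev (nat_lit 3581) (nat_lit 256) .dd))) (.ch (nat_lit 15) (.ev (nat_lit 3568) (nat_lit 4194560) (.ev
 (nat_lit 3581) (nat_lit 64) .dd))))) (.br (nat_lit 24) (.br (nat_lit 21) (.ch (nat_lit 19) (.ev (nat_lit 3568)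
 (nat_lit 4194368) (.ev (nat_lit 3581) (nat_lit 256) .dd))) (.ch (nat_lit 21) (.ev (nat_lit 3568) (nat_lit
 4194304) (.fin (nat_lit 576461302059713084))))) (.br (nat_lit 25) (.ch (nat_lit 24) (.ev (nat_lit 3568)
 (nat_lit 4194624) .dd)) (.br (nat_lit 28) (.ch (nat_lit 25) (.ev (nat_lit 3568) (nat_lit 4194624) .dd)) (.ch
 (nat_lit 28) (.ev (nat_lit 3568) (nat_lit 4194560) (.ev (nat_lit 3581) (nat_lit 64) .dd)))))))))))))) (.br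
 (nat_lit 53) (.ch (nat_lit 51) (.ev (nat_lit 52) (nat_lit 10775298272) (.ev (nat_lit 404) (nat_lit 2097152)
 (.ev (nat_lit 564) (nat_lit 549755813888) (.ev (nat_lit 724) (nat_lit 4398046511104) (.ev (nat_lit 1284)
 (nat_lit 137438953472) (.ev (nat_lit 1860) (nat_lit 256) (.nd (nat_lit 3552) (.br (nat_lit 20) (.br (nat_lit
 12) (.br (nat_lit 4) (.ch (nat_lit 1) (.ev (nat_lit 3568) (nat_lit 85899345920) (.ev (nat_lit 3581) (nat_lit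
 2) .dd))) (.ch (nat_lit 4) (.ev (nat_lit 3568) (nat_lit 85899345920) (.ev (nat_lit 3581) (nat_lit 2) .dd))))
 (.br (nat_lit 15) (.ch (nat_lit 12) (.ev (nat_lit 3568) (nat_lit 85899345920) (.ev (nat_lit 3581) (nat_lit 2)
 .dd))) (.br (nat_lit 18) (.ch (nat_lit 15) (.ev (nat_lit 3568) (nat_lit 85899345922) .dd)) (.ch (nat_lit 18)
 (.ev (nat_lit 3568) (nat_lit 85899345922) .dd))))) (.br (nat_lit 25) (.br (nat_lit 21) (.ch (nat_lit 20) (.ev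
 (nat_lit 3568) (nat_lit 68719476738) (.ev (nat_lit 3581) (nat_lit 17179869184) .dd))) (.br (nat_lit 24) (.ch
 (nat_lit 21) (.ev (nat_lit 3568) (nat_lit 85899345920) (.ev (nat_lit 3581) (nat_lit 2) .dd))) (.ch (nat_lit
 24) (.ev (nat_lit 3568) (nat_lit 68719476736) (.ev (nat_lit 3584) (nat_lit 17179869184) (.ev (nat_lit 3597)
 (nat_lit 2) .dd)))))) (.br (nat_lit 26) (.ch (nat_lit 25) (.ev (nat_lit 3568) (nat_lit 68719476736) (.ev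
 (nat_lit 3664) (nat_lit 17179869184) (.ev (nat_lit 3677) (nat_lit 2) .dd)))) (.br (nat_lit 27) (.ch (nat_lit
 26) (.ev (nat_lit 3568) (nat_lit 85899345922) .dd)) (.ch (nat_lit 27) (.ev (nat_lit 3568) (nat_lit 2) (.ev
 (nat_lit 3664) (nat_lit 85899345920) .dd))))))))))))))) (.ch (nat_lit 53) (.ev (nat_lit 52) (nat_lit
 4406638543200) (.ev (nat_lit 288) (nat_lit 775279476866) .dd))))))) (.br (nat_lit 64) (.br (nat_lit 57) (.br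
 (nat_lit 55) (.ch (nat_lit 54) (.ev (nat_lit 52) (nat_lit 773096210688) (.ev (nat_lit 192) (nat_lit
 4408821809378) .dd))) (.ch (nat_lit 55) (.ev (nat_lit 52) (nat_lit 560530981184) (.ev (nat_lit 384) (nat_lit
 4621387038882) .dd)))) (.br (nat_lit 58) (.ch (nat_lit 57) (.ev (nat_lit 52) (nat_lit 704374767810) (.ev
 (nat_lit 320) (nat_lit 4477543252256) .dd))) (.br (nat_lit 62) (.ch (nat_lit 58) (.ev (nat_lit 52) (nat_lit
 687230550048) (.ev (nat_lit 212) (nat_lit 256) (.ev (nat_lit 308) (nat_lit 68719476736) (.ev (nat_lit 340)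
 (nat_lit 64) (.ev (nat_lit 1796) (nat_lit 4398046511104) (.ev (nat_lit 2388) (nat_lit 17179869184) (.ev
 (nat_lit 2660) (nat_lit 4194304) (.nd (nat_lit 3552) (.br (nat_lit 15) (.br (nat_lit 5) (.br (nat_lit 1) (.ch
 (nat_lit 0) (.ev (nat_lit 3568) (nat_lit 2147483650) (.ev (nat_lit 3632) (nat_lit 128) (.ev (nat_lit 3645)
 (nat_lit 8589934592) .dd)))) (.ch (nat_lit 1) (.ev (nat_lit 3568) (nat_lit 10737418370) .dd))) (.br (nat_lit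
 6) (.ch (nat_lit 5) (.ev (nat_lit 3568) (nat_lit 10737418370) .dd)) (.ch (nat_lit 6) (.ev (nat_lit 3568)
 (nat_lit 8589934722) (.ev (nat_lit 3581) (nat_lit 2147483648) .dd))))) (.br (nat_lit 26) (.br (nat_lit 18)
 (.ch (nat_lit 15) (.ev (nat_lit 3568) (nat_lit 8589934722) (.ev (nat_lit 3581) (nat_lit 2147483648) .dd)))
 (.ch (nat_lit 18) (.ev (nat_lit 3568) (nat_lit 10737418240) (.fin (nat_lit 576470098154832458))))) (.br
 (nat_lit 27) (.ch (nat_lit 26) (.ev (nat_lit 3568) (nat_lit 130) (.ev (nat_lit 3600) (nat_lit 2147483648) (.ev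
 (nat_lit 3613) (nat_lit 8589934592) .dd)))) (.br (nat_lit 28) (.ch (nat_lit 27) (.ev (nat_lit 3568) (nat_lit
 10737418370) .dd)) (.ch (nat_lit 28) (.ev (nat_lit 3568) (nat_lit 10737418370) .dd))))))))))))))) (.ch
 (nat_lit 62) (.ev (nat_lit 52) (nat_lit 225523663136) (.ev (nat_lit 148) (nat_lit 128) (.ev (nat_lit 1440)
 (nat_lit 4956394356802) .dd))))))) (.br (nat_lit 68) (.br (nat_lit 65) (.ch (nat_lit 64) (.ev (nat_lit 52)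
 (nat_lit 4612801298882) (.ev (nat_lit 2020) (nat_lit 2147483648) (.ev (nat_lit 2356) (nat_lit 32) (.nd
 (nat_lit 3552) (.br (nat_lit 19) (.br (nat_lit 6) (.br (nat_lit 5) (.ch (nat_lit 0) (.ev (nat_lit 3568)
 (nat_lit 566969237504) .dd)) (.ch (nat_lit 5) (.ev (nat_lit 3568) (nat_lit 566969237504) .dd))) (.br (nat_lit
 13) (.ch (nat_lit 6) (.ev (nat_lit 3568) (nat_lit 566969237504) .dd)) (.ch (nat_lit 13) (.ev (nat_lit 3568)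
 (nat_lit 566969237504) .dd)))) (.br (nat_lit 24) (.br (nat_lit 21) (.ch (nat_lit 19) (.ev (nat_lit 3568)
 (nat_lit 566935683072) (.ev (nat_lit 3581) (nat_lit 33554432) .dd))) (.ch (nat_lit 21) (.ev (nat_lit 3568)
 (nat_lit 549789368320) (.ev (nat_lit 3581) (nat_lit 17179869184) .dd)))) (.br (nat_lit 26) (.ch (nat_lit 24)
 (.ev (nat_lit 3568) (nat_lit 549755813888) (.ev (nat_lit 3584) (nat_lit 17179869184) (.ev (nat_lit 3597)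
 (nat_lit 33554432) .dd)))) (.br (nat_lit 28) (.ch (nat_lit 26) (.ev (nat_lit 3568) (nat_lit 566935683072) (.ev
 (nat_lit 3581) (nat_lit 33554432) .dd))) (.ch (nat_lit 28) (.ev (nat_lit 3568) (nat_lit 33554432) (.fin
 (nat_lit 576465700110418480))))))))))))) (.br (nat_lit 67) (.ch (nat_lit 65) (.ev (nat_lit 52) (nat_lit
 5042293833890) (.ev (nat_lit 468) (nat_lit 2147483648) (.ev (nat_lit 788) (nat_lit 137438953472) (.ev (nat_lit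
 3300) (nat_lit 4194304) (.nd (nat_lit 3552) (.br (nat_lit 18) (.br (nat_lit 13) (.br (nat_lit 6) (.ch (nat_lit
 2) (.ev (nat_lit 3568) (nat_lit 33554752) .dd)) (.ch (nat_lit 6) (.ev (nat_lit 3568) (nat_lit 33554752) .dd)))
 (.br (nat_lit 15) (.ch (nat_lit 13) (.ev (nat_lit 3568) (nat_lit 33554496) (.ev (nat_lit 3581) (nat_lit 256)
 .dd))) (.ch (nat_lit 15) (.ev (nat_lit 3568) (nat_lit 33554688) (.ev (nat_lit 3581) (nat_lit 64) .dd))))) (.br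
 (nat_lit 20) (.br (nat_lit 19) (.ch (nat_lit 18) (.ev (nat_lit 3568) (nat_lit 33554688) (.ev (nat_lit 3581)
 (nat_lit 64) .dd))) (.ch (nat_lit 19) (.ev (nat_lit 3568) (nat_lit 64) (.ev (nat_lit 3584) (nat_lit 33554688)
 .dd)))) (.br (nat_lit 21) (.ch (nat_lit 20) (.ev (nat_lit 3568) (nat_lit 33554496) (.ev (nat_lit 3581)
 (nat_lit 256) .dd))) (.br (nat_lit 28) (.ch (nat_lit 21) (.ev (nat_lit 3568) (nat_lit 33554432) (.fin (nat_lit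
 576461302059713084)))) (.ch (nat_lit 28) (.ev (nat_lit 3568) (nat_lit 33554688) (.ev (nat_lit 3581) (nat_lit
 64) .dd))))))))))))) (.ch (nat_lit 67) (.ev (nat_lit 52) (nat_lit 4535491756322) (.ev (nat_lit 996) (nat_lit
 17179869184) (.ev (nat_lit 1124) (nat_lit 131072) (.ev (nat_lit 1252) (nat_lit 2147483648) (.ev (nat_lit 1828)
 (nat_lit 128) (.ev (nat_lit 2724) (nat_lit 549755813888) (.nd (nat_lit 3552) (.br (nat_lit 13) (.br (nat_lit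
 2) (.br (nat_lit 1) (.ch (nat_lit 0) (.ev (nat_lit 3568) (nat_lit 64) (.ev (nat_lit 3664) (nat_lit
 68719476736) (.ev (nat_lit 3732) (nat_lit 33554432) (.ev (nat_lit 3741) (nat_lit 8589934592) .dd))))) (.ch
 (nat_lit 1) (.ev (nat_lit 3568) (nat_lit 77309411392) (.ev (nat_lit 3581) (nat_lit 33554432) .dd)))) (.br
 (nat_lit 4) (.ch (nat_lit 2) (.ev (nat_lit 3568) (nat_lit 77309411328) (.ev (nat_lit 3584) (nat_lit 33554496)
 .dd))) (.br (nat_lit 5) (.ch (nat_lit 4) (.ev (nat_lit 3568) (nat_lit 33554496) (.ev (nat_lit 3616) (nat_lit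
 68719476736) (.ev (nat_lit 3629) (nat_lit 8589934592) .dd)))) (.ch (nat_lit 5) (.ev (nat_lit 3568) (nat_lit
 8623489088) (.ev (nat_lit 3581) (nat_lit 68719476736) .dd)))))) (.br (nat_lit 25) (.br (nat_lit 15) (.ch
 (nat_lit 13) (.ev (nat_lit 3568) (nat_lit 8623489088) (.ev (nat_lit 3581) (nat_lit 68719476736) .dd))) (.br
 (nat_lit 19) (.ch (nat_lit 15) (.ev (nat_lit 3568) (nat_lit 77309411392) (.ev (nat_lit 3581) (nat_lit
 33554432) .dd))) (.ch (nat_lit 19) (.ev (nat_lit 3568) (nat_lit 68719476800) (.ev (nat_lit 3732) (nat_lit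
 33554432) (.ev (nat_lit 3741) (nat_lit 8589934592) .dd)))))) (.br (nat_lit 26) (.ch (nat_lit 25) (.ev (nat_lit
 3568) (nat_lit 68753031232) (.ev (nat_lit 3581) (nat_lit 8589934592) .dd))) (.br (nat_lit 29) (.ch (nat_lit
 26) (.ev (nat_lit 3568) (nat_lit 68719476736) (.ev (nat_lit 3632) (nat_lit 64) (.ev (nat_lit 3732) (nat_lit
 33554432) (.ev (nat_lit 3741) (nat_lit 8589934592) .dd))))) (.ch (nat_lit 29) (.ev (nat_lit 3568) (nat_lit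
 68753031232) (.ev (nat_lit 3581) (nat_lit 8589934592) .dd))))))))))))))))) (.br (nat_lit 69) (.ch (nat_lit 68)
 (.ev (nat_lit 52) (nat_lit 4606358716642) (.ev (nat_lit 148) (nat_lit 8589934592) (.ev (nat_lit 1284) (nat_lit
 549755813888) (.ev (nat_lit 1684) (nat_lit 33554432) (.ev (nat_lit 3316) (nat_lit 131072) (.nd (nat_lit 3552)
 (.br (nat_lit 19) (.br (nat_lit 4) (.br (nat_lit 2) (.ch (nat_lit 1) (.ev (nat_lit 3568) (nat_lit 17179869440)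
 .dd)) (.ch (nat_lit 2) (.ev (nat_lit 3568) (nat_lit 17179869440) .dd))) (.br (nat_lit 6) (.ch (nat_lit 4) (.ev
 (nat_lit 3568) (nat_lit 17179869184) (.ev (nat_lit 3581) (nat_lit 256) .dd))) (.br (nat_lit 13) (.ch (nat_lit
 6) (.ev (nat_lit 3568) (nat_lit 17179869440) .dd)) (.ch (nat_lit 13) (.ev (nat_lit 3568) (nat_lit 17179869440)
 .dd))))) (.br (nat_lit 25) (.br (nat_lit 21) (.ch (nat_lit 19) (.ev (nat_lit 3568) (nat_lit 17179869440) .dd))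
 (.ch (nat_lit 21) (.ev (nat_lit 3568) (nat_lit 17179869184) (.ev (nat_lit 3581) (nat_lit 256) .dd)))) (.br
 (nat_lit 27) (.ch (nat_lit 25) (.ev (nat_lit 3568) (nat_lit 256) (.ev (nat_lit 3581) (nat_lit 17179869184)
 .dd))) (.br (nat_lit 29) (.ch (nat_lit 27) (.ev (nat_lit 3568) (nat_lit 17179869440) .dd)) (.ch (nat_lit 29)
 (.ev (nat_lit 3568) (nat_lit 17179869440) .dd))))))))))))) (.br (nat_lit 70) (.ch (nat_lit 69) (.ev (nat_lit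
 52) (nat_lit 644251517122) (.ev (nat_lit 1460) (nat_lit 4398046511104) (.ev (nat_lit 1588) (nat_lit 33554432)
 (.ev (nat_lit 1828) (nat_lit 256) (.ev (nat_lit 2948) (nat_lit 137438953472) (.nd (nat_lit 3552) (.br (nat_lit
 20) (.br (nat_lit 5) (.br (nat_lit 1) (.ch (nat_lit 0) (.ev (nat_lit 3568) (nat_lit 32) (.ev (nat_lit 3581)
 (nat_lit 2147483648) .dd))) (.ch (nat_lit 1) (.ev (nat_lit 3568) (nat_lit 2147483648) (.ev (nat_lit 3581)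
 (nat_lit 32) .dd)))) (.br (nat_lit 15) (.ch (nat_lit 5) (.ev (nat_lit 3568) (nat_lit 2147483680) .dd)) (.br
 (nat_lit 19) (.ch (nat_lit 15) (.ev (nat_lit 3568) (nat_lit 2147483680) .dd)) (.ch (nat_lit 19) (.ev (nat_lit
 3568) (nat_lit 2147483648) (.ev (nat_lit 3581) (nat_lit 32) .dd)))))) (.br (nat_lit 27) (.br (nat_lit 21) (.ch
 (nat_lit 20) (.ev (nat_lit 3568) (nat_lit 2147483648) (.ev (nat_lit 3581) (nat_lit 32) .dd))) (.br (nat_lit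
 26) (.ch (nat_lit 21) (.ev (nat_lit 3568) (nat_lit 2147483680) .dd)) (.ch (nat_lit 26) (.ev (nat_lit 3568)
 (nat_lit 2147483680) .dd)))) (.br (nat_lit 28) (.ch (nat_lit 27) (.ev (nat_lit 3568) (nat_lit 2147483680)
 .dd)) (.br (nat_lit 29) (.ch (nat_lit 28) (.ev (nat_lit 3568) (nat_lit 2147483648) (.ev (nat_lit 3581)
 (nat_lit 32) .dd))) (.ch (nat_lit 29) (.ev (nat_lit 3568) (nat_lit 2147483680) .dd))))))))))))) (.ch (nat_lit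
 70) (.ev (nat_lit 52) (nat_lit 627102974178) (.ev (nat_lit 564) (nat_lit 137438953472) (.ev (nat_lit 1776)
 (nat_lit 4417376092416) .dd))))))))))))

/-- Subtrie. -/
noncomputable def T6 : Tr := (.ev (nat_lit 20) (nat_lit 4538709054946) (.nd (nat_lit 33) (.br (nat_lit 39) (.br
 (nat_lit 19) (.br (nat_lit 8) (.br (nat_lit 4) (.br (nat_lit 3) (.ch (nat_lit 1) (.ev (nat_lit 52) (nat_lit
 549856608256) (.ev (nat_lit 480) (nat_lit 403731128848) .dd))) (.ch (nat_lit 3) (.ev (nat_lit 52) (nat_lit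
 360882242064) (.ev (nat_lit 1252) (nat_lit 549755813888) (.nd (nat_lit 3552) (.br (nat_lit 11) (.br (nat_lit
 6) (.br (nat_lit 5) (.ch (nat_lit 2) (.ev (nat_lit 3568) (nat_lit 42949681152) .dd)) (.ch (nat_lit 5) (.ev
 (nat_lit 3568) (nat_lit 42949681152) .dd))) (.br (nat_lit 9) (.ch (nat_lit 6) (.ev (nat_lit 3568) (nat_lit
 42949672960) (.ev (nat_lit 3581) (nat_lit 8192) .dd))) (.ch (nat_lit 9) (.ev (nat_lit 3568) (nat_lit
 42949681152) .dd)))) (.br (nat_lit 16) (.br (nat_lit 12) (.ch (nat_lit 11) (.ev (nat_lit 3568) (nat_lit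
 34359746560) (.ev (nat_lit 3581) (nat_lit 8589934592) .dd))) (.ch (nat_lit 12) (.ev (nat_lit 3568) (nat_lit
 42949681152) .dd))) (.br (nat_lit 18) (.ch (nat_lit 16) (.ev (nat_lit 3568) (nat_lit 8589942784) (.ev (nat_lit
 3581) (nat_lit 34359738368) .dd))) (.br (nat_lit 29) (.ch (nat_lit 18) (.ev (nat_lit 3568) (nat_lit
 42949672960) (.ev (nat_lit 3581) (nat_lit 8192) .dd))) (.ch (nat_lit 29) (.ev (nat_lit 3568) (nat_lit
 8589942784) (.ev (nat_lit 3581) (nat_lit 34359738368) .dd)))))))))))) (.br (nat_lit 5) (.ch (nat_lit 4) (.ev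
 (nat_lit 52) (nat_lit 335007449104) (.ev (nat_lit 84) (nat_lit 68719476736) (.ev (nat_lit 148) (nat_lit
 131072) (.ev (nat_lit 1060) (nat_lit 8192) (.ev (nat_lit 2260) (nat_lit 4194304) (.nd (nat_lit 3552) (.br
 (nat_lit 7) (.br (nat_lit 2) (.br (nat_lit 1) (.ch (nat_lit 0) (.ev (nat_lit 3568) (nat_lit 549856477184) (.ev
 (nat_lit 3581) (nat_lit 512) .dd))) (.ch (nat_lit 1) (.ev (nat_lit 3568) (nat_lit 549856477696) .dd))) (.br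
 (nat_lit 5) (.ch (nat_lit 2) (.ev (nat_lit 3568) (nat_lit 33554432) (.ev (nat_lit 3600) (nat_lit 512) (.fin
 (nat_lit 576474496195052112))))) (.br (nat_lit 6) (.ch (nat_lit 5) (.ev (nat_lit 3568) (nat_lit 549856477696)
 .dd)) (.ch (nat_lit 6) (.ev (nat_lit 3568) (nat_lit 100663808) (.ev (nat_lit 3581) (nat_lit 549755813888)
 .dd)))))) (.br (nat_lit 23) (.br (nat_lit 15) (.ch (nat_lit 7) (.ev (nat_lit 3568) (nat_lit 100663808) (.ev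
 (nat_lit 3581) (nat_lit 549755813888) .dd))) (.br (nat_lit 19) (.ch (nat_lit 15) (.ev (nat_lit 3568) (nat_lit
 549755814400) (.ev (nat_lit 3584) (nat_lit 33554432) (.ev (nat_lit 3597) (nat_lit 67108864) .dd)))) (.ch
 (nat_lit 19) (.ev (nat_lit 3568) (nat_lit 549856477184) (.ev (nat_lit 3581) (nat_lit 512) .dd))))) (.br
 (nat_lit 24) (.ch (nat_lit 23) (.ev (nat_lit 3568) (nat_lit 549856477696) .dd)) (.br (nat_lit 26) (.ch
 (nat_lit 24) (.ev (nat_lit 3568) (nat_lit 549856477184) (.ev (nat_lit 3581) (nat_lit 512) .dd))) (.ch (nat_lit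
 26) (.ev (nat_lit 3568) (nat_lit 549789368832) (.ev (nat_lit 3581) (nat_lit 67108864) .dd)))))))))))))) (.br
 (nat_lit 7) (.ch (nat_lit 5) (.ev (nat_lit 52) (nat_lit 326421708800) (.ev (nat_lit 512) (nat_lit
 627166028304) .dd))) (.ch (nat_lit 7) (.ev (nat_lit 52) (nat_lit 317928251392) (.ev (nat_lit 1364) (nat_lit
 17179869184) (.ev (nat_lit 2212) (nat_lit 68719476736) (.ev (nat_lit 2516) (nat_lit 4194304) (.nd (nat_lit
 3552) (.br (nat_lit 16) (.br (nat_lit 9) (.br (nat_lit 5) (.ch (nat_lit 1) (.ev (nat_lit 3568) (nat_lit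
 549755945488) .dd)) (.ch (nat_lit 5) (.ev (nat_lit 3568) (nat_lit 549755944960) (.fin (nat_lit
 576465700110418516))))) (.br (nat_lit 14) (.ch (nat_lit 9) (.ev (nat_lit 3568) (nat_lit 549755945488) .dd))
 (.ch (nat_lit 14) (.ev (nat_lit 3568) (nat_lit 549755944976) (.ev (nat_lit 3581) (nat_lit 512) .dd))))) (.br
 (nat_lit 23) (.br (nat_lit 19) (.ch (nat_lit 16) (.ev (nat_lit 3568) (nat_lit 549755945488) .dd)) (.ch
 (nat_lit 19) (.ev (nat_lit 3568) (nat_lit 549755944976) (.ev (nat_lit 3581) (nat_lit 512) .dd)))) (.br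
 (nat_lit 24) (.ch (nat_lit 23) (.ev (nat_lit 3568) (nat_lit 131600) (.ev (nat_lit 3581) (nat_lit 549755813888)
 .dd))) (.br (nat_lit 26) (.ch (nat_lit 24) (.ev (nat_lit 3568) (nat_lit 549755814416) (.ev (nat_lit 3581)
 (nat_lit 131072) .dd))) (.ch (nat_lit 26) (.ev (nat_lit 3568) (nat_lit 131600) (.ev (nat_lit 3581) (nat_lit
 549755813888) .dd)))))))))))))))) (.br (nat_lit 15) (.br (nat_lit 11) (.ch (nat_lit 8) (.ev (nat_lit 52)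
 (nat_lit 8594137600) (.ev (nat_lit 448) (nat_lit 944993599504) .dd))) (.br (nat_lit 12) (.ch (nat_lit 11) (.ev
 (nat_lit 52) (nat_lit 901943132672) (.ev (nat_lit 276) (nat_lit 4194304) (.ev (nat_lit 1232) (nat_lit
 51640410128) .dd)))) (.ch (nat_lit 12) (.ev (nat_lit 52) (nat_lit 592743367184) (.ev (nat_lit 116) (nat_lit
 68719476736) (.ev (nat_lit 1252) (nat_lit 17179869184) (.ev (nat_lit 1684) (nat_lit 274877906944) (.nd
 (nat_lit 3552) (.br (nat_lit 15) (.br (nat_lit 5) (.br (nat_lit 2) (.ch (nat_lit 0) (.ev (nat_lit 3568)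
 (nat_lit 67117056) .dd)) (.ch (nat_lit 2) (.ev (nat_lit 3568) (nat_lit 67117056) .dd))) (.br (nat_lit 14) (.ch
 (nat_lit 5) (.ev (nat_lit 3568) (nat_lit 67108864) (.ev (nat_lit 3581) (nat_lit 8192) .dd))) (.ch (nat_lit 14)
 (.ev (nat_lit 3568) (nat_lit 67117056) .dd)))) (.br (nat_lit 18) (.br (nat_lit 16) (.ch (nat_lit 15) (.ev
 (nat_lit 3568) (nat_lit 67117056) .dd)) (.ch (nat_lit 16) (.ev (nat_lit 3568) (nat_lit 8192) (.ev (nat_lit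
 3581) (nat_lit 67108864) .dd)))) (.br (nat_lit 19) (.ch (nat_lit 18) (.ev (nat_lit 3568) (nat_lit 8192) (.ev
 (nat_lit 3581) (nat_lit 67108864) .dd))) (.br (nat_lit 26) (.ch (nat_lit 19) (.ev (nat_lit 3568) (nat_lit
 67108864) (.ev (nat_lit 3581) (nat_lit 8192) .dd))) (.ch (nat_lit 26) (.ev (nat_lit 3568) (nat_lit 67117056)
 .dd)))))))))))))) (.br (nat_lit 16) (.ch (nat_lit 15) (.ev (nat_lit 52) (nat_lit 567002800144) (.ev (nat_lit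
 788) (nat_lit 33554432) (.ev (nat_lit 976) (nat_lit 386551382528) .dd)))) (.br (nat_lit 18) (.ch (nat_lit 16)
 (.ev (nat_lit 52) (nat_lit 100671504) (.ev (nat_lit 532) (nat_lit 549755813888) (.ev (nat_lit 788) (nat_lit
 34359738368) (.ev (nat_lit 1156) (nat_lit 4194304) (.ev (nat_lit 1924) (nat_lit 8589934592) (.ev (nat_lit
 3348) (nat_lit 274877906944) (.ev (nat_lit 3380) (nat_lit 68719476736) (.nd (nat_lit 3552) (.br (nat_lit 12)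
 (.br (nat_lit 6) (.ch (nat_lit 0) (.ev (nat_lit 3568) (nat_lit 131072) (.ev (nat_lit 3616) (nat_lit 512) (.ev
 (nat_lit 3629) (nat_lit 17179869184) .dd)))) (.br (nat_lit 9) (.ch (nat_lit 6) (.ev (nat_lit 3568) (nat_lit
 17179869696) (.ev (nat_lit 3581) (nat_lit 131072) .dd))) (.ch (nat_lit 9) (.ev (nat_lit 3568) (nat_lit
 17180000768) .dd)))) (.br (nat_lit 18) (.br (nat_lit 15) (.ch (nat_lit 12) (.ev (nat_lit 3568) (nat_lit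
 17180000768) .dd)) (.ch (nat_lit 15) (.ev (nat_lit 3568) (nat_lit 512) (.ev (nat_lit 3616) (nat_lit 131072)
 (.ev (nat_lit 3629) (nat_lit 17179869184) .dd))))) (.br (nat_lit 29) (.ch (nat_lit 18) (.ev (nat_lit 3568)
 (nat_lit 17180000768) .dd)) (.ch (nat_lit 29) (.ev (nat_lit 3568) (nat_lit 17180000768) .dd)))))))))))))) (.ch
 (nat_lit 18) (.ev (nat_lit 52) (nat_lit 274978578448) (.ev (nat_lit 276) (nat_lit 68719476736) (.ev (nat_lit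
 596) (nat_lit 17179869184) (.ev (nat_lit 1860) (nat_lit 131072) (.ev (nat_lit 2756) (nat_lit 549755813888)
 (.ev (nat_lit 3412) (nat_lit 34359738368) (.nd (nat_lit 3552) (.br (nat_lit 9) (.br (nat_lit 6) (.br (nat_lit
 5) (.ch (nat_lit 1) (.ev (nat_lit 3568) (nat_lit 8594129408) .dd)) (.ch (nat_lit 5) (.ev (nat_lit 3568)
 (nat_lit 8594129408) .dd))) (.br (nat_lit 7) (.ch (nat_lit 6) (.ev (nat_lit 3568) (nat_lit 4194816) (.ev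
 (nat_lit 3581) (nat_lit 8589934592) .dd))) (.ch (nat_lit 7) (.ev (nat_lit 3568) (nat_lit 8589935104) (.ev
 (nat_lit 3581) (nat_lit 4194304) .dd))))) (.br (nat_lit 14) (.br (nat_lit 12) (.ch (nat_lit 9) (.ev (nat_lit
 3568) (nat_lit 8589934592) (.ev (nat_lit 3600) (nat_lit 4194816) .dd))) (.ch (nat_lit 12) (.ev (nat_lit 3568)
 (nat_lit 8589935104) (.ev (nat_lit 3581) (nat_lit 4194304) .dd)))) (.br (nat_lit 19) (.ch (nat_lit 14) (.ev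
 (nat_lit 3568) (nat_lit 8594128896) (.ev (nat_lit 3581) (nat_lit 512) .dd))) (.br (nat_lit 29) (.ch (nat_lit
 19) (.ev (nat_lit 3568) (nat_lit 8594128896) (.ev (nat_lit 3581) (nat_lit 512) .dd))) (.ch (nat_lit 29) (.ev
 (nat_lit 3568) (nat_lit 4194816) (.ev (nat_lit 3581) (nat_lit 8589934592) .dd))))))))))))))))))) (.br (nat_lit
 29) (.br (nat_lit 23) (.br (nat_lit 22) (.ch (nat_lit 19) (.ev (nat_lit 52) (nat_lit 51610918928) (.ev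
 (nat_lit 308) (nat_lit 131072) (.ev (nat_lit 564) (nat_lit 33554432) (.ev (nat_lit 2916) (nat_lit 68719476736)
 (.nd (nat_lit 3552) (.br (nat_lit 16) (.br (nat_lit 9) (.br (nat_lit 1) (.ch (nat_lit 0) (.ev (nat_lit 3568)
 (nat_lit 824633721344) (.ev (nat_lit 3581) (nat_lit 8589934592) .dd))) (.ch (nat_lit 1) (.ev (nat_lit 3568)
 (nat_lit 558345748992) (.ev (nat_lit 3581) (nat_lit 274877906944) .dd)))) (.br (nat_lit 13) (.ch (nat_lit 9)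
 (.ev (nat_lit 3568) (nat_lit 824633721344) (.ev (nat_lit 3581) (nat_lit 8589934592) .dd))) (.br (nat_lit 15)
 (.ch (nat_lit 13) (.ev (nat_lit 3568) (nat_lit 833223655936) .dd)) (.ch (nat_lit 15) (.ev (nat_lit 3568)
 (nat_lit 824633721344) (.ev (nat_lit 3581) (nat_lit 8589934592) .dd)))))) (.br (nat_lit 24) (.br (nat_lit 18)
 (.ch (nat_lit 16) (.ev (nat_lit 3568) (nat_lit 283467842048) (.ev (nat_lit 3581) (nat_lit 549755813888) .dd)))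
 (.br (nat_lit 19) (.ch (nat_lit 18) (.ev (nat_lit 3568) (nat_lit 558345748992) (.ev (nat_lit 3581) (nat_lit
 274877906944) .dd))) (.ch (nat_lit 19) (.ev (nat_lit 3568) (nat_lit 833223655424) (.ev (nat_lit 3581) (nat_lit
 512) .dd))))) (.br (nat_lit 26) (.ch (nat_lit 24) (.ev (nat_lit 3568) (nat_lit 549755814400) (.ev (nat_lit
 3732) (nat_lit 8589934592) (.ev (nat_lit 3741) (nat_lit 274877906944) .dd)))) (.br (nat_lit 29) (.ch (nat_lit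
 26) (.ev (nat_lit 3568) (nat_lit 833223655936) .dd)) (.ch (nat_lit 29) (.ev (nat_lit 3568) (nat_lit
 833223655936) .dd)))))))))))) (.ch (nat_lit 22) (.ev (nat_lit 52) (nat_lit 867587727360) (.ev (nat_lit 468)
 (nat_lit 17179869184) (.ev (nat_lit 1156) (nat_lit 68719476736) (.ev (nat_lit 2052) (nat_lit 16) (.ev (nat_lit
 2736) (nat_lit 100663808) .dd))))))) (.br (nat_lit 24) (.ch (nat_lit 23) (.ev (nat_lit 52) (nat_lit
 678671941648) (.ev (nat_lit 1504) (nat_lit 274915795456) .dd))) (.br (nat_lit 26) (.ch (nat_lit 24) (.ev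
 (nat_lit 52) (nat_lit 592743367168) (.ev (nat_lit 596) (nat_lit 67108864) (.ev (nat_lit 1092) (nat_lit
 274877906944) (.ev (nat_lit 2672) (nat_lit 85899354128) .dd))))) (.ch (nat_lit 26) (.ev (nat_lit 52) (nat_lit
 60133868048) (.ev (nat_lit 2324) (nat_lit 549755813888) (.ev (nat_lit 2884) (nat_lit 274877906944) (.ev
 (nat_lit 3060) (nat_lit 33554432) (.nd (nat_lit 3552) (.br (nat_lit 15) (.br (nat_lit 9) (.br (nat_lit 7) (.ch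
 (nat_lit 6) (.ev (nat_lit 3568) (nat_lit 68786585600) (.ev (nat_lit 3581) (nat_lit 8192) .dd))) (.ch (nat_lit
 7) (.ev (nat_lit 3568) (nat_lit 67117056) (.ev (nat_lit 3581) (nat_lit 68719476736) .dd)))) (.br (nat_lit 11)
 (.ch (nat_lit 9) (.ev (nat_lit 3568) (nat_lit 67117056) (.ev (nat_lit 3581) (nat_lit 68719476736) .dd))) (.br
 (nat_lit 12) (.ch (nat_lit 11) (.ev (nat_lit 3568) (nat_lit 68719484928) (.ev (nat_lit 3581) (nat_lit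
 67108864) .dd))) (.ch (nat_lit 12) (.ev (nat_lit 3568) (nat_lit 68786593792) .dd))))) (.br (nat_lit 24) (.br
 (nat_lit 18) (.ch (nat_lit 15) (.ev (nat_lit 3568) (nat_lit 67117056) (.ev (nat_lit 3581) (nat_lit
 68719476736) .dd))) (.br (nat_lit 23) (.ch (nat_lit 18) (.ev (nat_lit 3568) (nat_lit 67117056) (.ev (nat_lit
 3581) (nat_lit 68719476736) .dd))) (.ch (nat_lit 23) (.ev (nat_lit 3568) (nat_lit 68719484928) (.ev (nat_lit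
 3581) (nat_lit 67108864) .dd))))) (.br (nat_lit 26) (.ch (nat_lit 24) (.ev (nat_lit 3568) (nat_lit 67117056)
 (.ev (nat_lit 3581) (nat_lit 68719476736) .dd))) (.br (nat_lit 29) (.ch (nat_lit 26) (.ev (nat_lit 3568)
 (nat_lit 67117056) (.ev (nat_lit 3581) (nat_lit 68719476736) .dd))) (.ch (nat_lit 29) (.ev (nat_lit 3568)
 (nat_lit 68786593792) .dd))))))))))))))) (.br (nat_lit 34) (.br (nat_lit 31) (.ch (nat_lit 29) (.ev (nat_lit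
 52) (nat_lit 867621150720) (.ev (nat_lit 532) (nat_lit 67108864) (.ev (nat_lit 2368) (nat_lit 85899477520)
 .dd)))) (.br (nat_lit 33) (.ch (nat_lit 31) (.ev (nat_lit 52) (nat_lit 326518178304) (.ev (nat_lit 84)
 (nat_lit 16) (.ev (nat_lit 1316) (nat_lit 131072) (.ev (nat_lit 1652) (nat_lit 4194304) (.ev (nat_lit 2292)
 (nat_lit 68719476736) (.ev (nat_lit 2788) (nat_lit 549755813888) (.nd (nat_lit 3552) (.br (nat_lit 24) (.br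
 (nat_lit 19) (.ch (nat_lit 18) (.ev (nat_lit 3568) (nat_lit 8589934592) (.ev (nat_lit 3581) (nat_lit 8192)
 .dd))) (.ch (nat_lit 19) (.ev (nat_lit 3632) (nat_lit 8589942784) .dd))) (.br (nat_lit 26) (.ch (nat_lit 24)
 (.ev (nat_lit 3568) (nat_lit 8589942784) .dd)) (.br (nat_lit 29) (.ch (nat_lit 26) (.ev (nat_lit 3568)
 (nat_lit 8589942784) .dd)) (.ch (nat_lit 29) (.ev (nat_lit 3568) (nat_lit 8589942784) .dd))))))))))))) (.ch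
 (nat_lit 33) (.ev (nat_lit 52) (nat_lit 927717261312) (.ev (nat_lit 1124) (nat_lit 16) (.ev (nat_lit 1188)
 (nat_lit 512) (.ev (nat_lit 1348) (nat_lit 33554432) (.ev (nat_lit 2692) (nat_lit 17179869184) (.nd (nat_lit
 3552) (.br (nat_lit 14) (.br (nat_lit 7) (.br (nat_lit 6) (.ch (nat_lit 1) (.ev (nat_lit 3568) (nat_lit
 8657051648) .dd)) (.ch (nat_lit 6) (.ev (nat_lit 3568) (nat_lit 8657043456) (.ev (nat_lit 3581) (nat_lit 8192)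
 .dd)))) (.br (nat_lit 13) (.ch (nat_lit 7) (.ev (nat_lit 3568) (nat_lit 8657051648) .dd)) (.ch (nat_lit 13)
 (.ev (nat_lit 3568) (nat_lit 8657051648) .dd)))) (.br (nat_lit 24) (.br (nat_lit 19) (.ch (nat_lit 14) (.ev
 (nat_lit 3568) (nat_lit 8657051648) .dd)) (.ch (nat_lit 19) (.ev (nat_lit 3568) (nat_lit 8589942784) (.ev
 (nat_lit 3581) (nat_lit 67108864) .dd)))) (.br (nat_lit 26) (.ch (nat_lit 24) (.ev (nat_lit 3568) (nat_lit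
 67117056) (.ev (nat_lit 3581) (nat_lit 8589934592) .dd))) (.br (nat_lit 29) (.ch (nat_lit 26) (.ev (nat_lit
 3568) (nat_lit 8657051648) .dd)) (.ch (nat_lit 29) (.ev (nat_lit 3568) (nat_lit 67117056) (.ev (nat_lit 3581)
 (nat_lit 8589934592) .dd)))))))))))))))) (.br (nat_lit 36) (.ch (nat_lit 34) (.ev (nat_lit 52) (nat_lit
 111740583952) (.ev (nat_lit 692) (nat_lit 17179869184) (.ev (nat_lit 788) (nat_lit 8192) (.ev (nat_lit 1492)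
 (nat_lit 33554432) (.ev (nat_lit 1988) (nat_lit 274877906944) (.nd (nat_lit 3552) (.br (nat_lit 15) (.br
 (nat_lit 9) (.ch (nat_lit 0) (.ev (nat_lit 3600) (nat_lit 512) (.ev (nat_lit 3613) (nat_lit 549755813888)
 .dd))) (.br (nat_lit 12) (.ch (nat_lit 9) (.ev (nat_lit 3568) (nat_lit 549755814400) .dd)) (.ch (nat_lit 12)
 (.ev (nat_lit 3568) (nat_lit 549755814400) .dd)))) (.br (nat_lit 18) (.ch (nat_lit 15) (.ev (nat_lit 3568)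
 (nat_lit 549755814400) .dd)) (.br (nat_lit 19) (.ch (nat_lit 18) (.ev (nat_lit 3568) (nat_lit 512) (.ev
 (nat_lit 3581) (nat_lit 549755813888) .dd))) (.ch (nat_lit 19) (.ev (nat_lit 3568) (nat_lit 549755814400)
 .dd)))))))))))) (.br (nat_lit 38) (.ch (nat_lit 36) (.ev (nat_lit 52) (nat_lit 77380715024) (.ev (nat_lit 692)
 (nat_lit 549755813888) (.ev (nat_lit 820) (nat_lit 274877906944) (.ev (nat_lit 1492) (nat_lit 8192) (.ev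
 (nat_lit 2852) (nat_lit 17179869184) (.nd (nat_lit 3552) (.br (nat_lit 7) (.br (nat_lit 2) (.br (nat_lit 1)
 (.ch (nat_lit 0) (.ev (nat_lit 3568) (nat_lit 33685504) (.ev (nat_lit 3581) (nat_lit 34359738368) .dd))) (.ch
 (nat_lit 1) (.ev (nat_lit 3568) (nat_lit 34393423872) .dd))) (.br (nat_lit 5) (.ch (nat_lit 2) (.ev (nat_lit
 3568) (nat_lit 34393423872) .dd)) (.ch (nat_lit 5) (.ev (nat_lit 3568) (nat_lit 33685504) (.ev (nat_lit 3581)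
 (nat_lit 34359738368) .dd))))) (.br (nat_lit 14) (.br (nat_lit 11) (.ch (nat_lit 7) (.ev (nat_lit 3568)
 (nat_lit 34393292800) (.ev (nat_lit 3581) (nat_lit 131072) .dd))) (.ch (nat_lit 11) (.ev (nat_lit 3568)
 (nat_lit 34393423872) .dd))) (.br (nat_lit 18) (.ch (nat_lit 14) (.ev (nat_lit 3568) (nat_lit 131072) (.ev
 (nat_lit 3600) (nat_lit 34393292800) .dd))) (.br (nat_lit 26) (.ch (nat_lit 18) (.ev (nat_lit 3568) (nat_lit
 34393423872) .dd)) (.ch (nat_lit 26) (.ev (nat_lit 3568) (nat_lit 33685504) (.ev (nat_lit 3581) (nat_lit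
 34359738368) .dd)))))))))))))) (.ch (nat_lit 38) (.ev (nat_lit 52) (nat_lit 893353328656) (.ev (nat_lit 672)
 (nat_lit 60234408448) .dd)))))))) (.br (nat_lit 54) (.br (nat_lit 47) (.br (nat_lit 43) (.br (nat_lit 42) (.ch
 (nat_lit 39) (.ev (nat_lit 52) (nat_lit 403764682752) (.ev (nat_lit 116) (nat_lit 16) (.ev (nat_lit 1796)
 (nat_lit 512) (.ev (nat_lit 2324) (nat_lit 67108864) (.ev (nat_lit 3248) (nat_lit 549755944960) .dd)))))) (.ch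
 (nat_lit 42) (.ev (nat_lit 52) (nat_lit 292162642432) (.ev (nat_lit 212) (nat_lit 131072) (.ev (nat_lit 1396)
 (nat_lit 16) (.nd (nat_lit 3552) (.br (nat_lit 18) (.br (nat_lit 12) (.br (nat_lit 11) (.ch (nat_lit 0) (.ev
 (nat_lit 3568) (nat_lit 627065225216) (.ev (nat_lit 3581) (nat_lit 34359738368) .dd))) (.ch (nat_lit 11) (.ev
 (nat_lit 3568) (nat_lit 661424963584) .dd))) (.br (nat_lit 14) (.ch (nat_lit 12) (.ev (nat_lit 3568) (nat_lit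
 77309411328) (.ev (nat_lit 3584) (nat_lit 584115552256) .dd))) (.ch (nat_lit 14) (.ev (nat_lit 3568) (nat_lit
 627065225216) (.ev (nat_lit 3581) (nat_lit 34359738368) .dd))))) (.br (nat_lit 23) (.br (nat_lit 19) (.ch
 (nat_lit 18) (.ev (nat_lit 3568) (nat_lit 592705486848) (.ev (nat_lit 3581) (nat_lit 68719476736) .dd))) (.ch
 (nat_lit 19) (.ev (nat_lit 3568) (nat_lit 661424963584) .dd))) (.br (nat_lit 26) (.ch (nat_lit 23) (.ev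
 (nat_lit 3568) (nat_lit 661424963584) .dd)) (.br (nat_lit 29) (.ch (nat_lit 26) (.ev (nat_lit 3568) (nat_lit
 627065225216) (.ev (nat_lit 3581) (nat_lit 34359738368) .dd))) (.ch (nat_lit 29) (.ev (nat_lit 3568) (nat_lit
 652835028992) (.ev (nat_lit 3581) (nat_lit 8589934592) .dd))))))))))))) (.br (nat_lit 44) (.ch (nat_lit 43)
 (.ev (nat_lit 52) (nat_lit 94590083600) (.ev (nat_lit 1924) (nat_lit 34359738368) (.ev (nat_lit 2020) (nat_lit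
 549755813888) (.ev (nat_lit 2980) (nat_lit 274877906944) (.ev (nat_lit 2989) (nat_lit 4194304) .dd)))))) (.br
 (nat_lit 46) (.ch (nat_lit 44) (.ev (nat_lit 52) (nat_lit 833261535760) (.ev (nat_lit 436) (nat_lit 8192) (.ev
 (nat_lit 660) (nat_lit 68719476736) (.ev (nat_lit 1220) (nat_lit 67108864) (.ev (nat_lit 1348) (nat_lit
 34359738368) (.ev (nat_lit 1357) (nat_lit 17179869184) .dd))))))) (.ch (nat_lit 46) (.ev (nat_lit 52) (nat_lit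
 360844361728) (.ev (nat_lit 84) (nat_lit 4194304) (.ev (nat_lit 276) (nat_lit 16) (.ev (nat_lit 1200) (nat_lit
 592739181056) .dd)))))))) (.br (nat_lit 50) (.br (nat_lit 48) (.ch (nat_lit 47) (.ev (nat_lit 52) (nat_lit
 567002800640) (.ev (nat_lit 180) (nat_lit 4194304) (.ev (nat_lit 2820) (nat_lit 34359738368) (.ev (nat_lit
 3504) (nat_lit 274877906944) (.nd (nat_lit 3552) (.br (nat_lit 13) (.br (nat_lit 9) (.br (nat_lit 7) (.ch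
 (nat_lit 1) (.ev (nat_lit 3568) (nat_lit 77342965776) (.ev (nat_lit 3581) (nat_lit 131072) .dd))) (.ch
 (nat_lit 7) (.ev (nat_lit 3568) (nat_lit 77342965776) (.ev (nat_lit 3581) (nat_lit 131072) .dd)))) (.br
 (nat_lit 11) (.ch (nat_lit 9) (.ev (nat_lit 3568) (nat_lit 33685520) (.ev (nat_lit 3584) (nat_lit 68719476736)
 (.ev (nat_lit 3597) (nat_lit 8589934592) .dd)))) (.ch (nat_lit 11) (.ev (nat_lit 3568) (nat_lit 77343096832)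
 (.ev (nat_lit 3581) (nat_lit 16) .dd))))) (.br (nat_lit 16) (.br (nat_lit 14) (.ch (nat_lit 13) (.ev (nat_lit
 3568) (nat_lit 77342965776) (.ev (nat_lit 3581) (nat_lit 131072) .dd))) (.ch (nat_lit 14) (.ev (nat_lit 3568)
 (nat_lit 77343096848) .dd))) (.br (nat_lit 19) (.ch (nat_lit 16) (.ev (nat_lit 3568) (nat_lit 77309542416)
 (.ev (nat_lit 3581) (nat_lit 33554432) .dd))) (.br (nat_lit 23) (.ch (nat_lit 19) (.ev (nat_lit 3568) (nat_lit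
 77309542416) (.ev (nat_lit 3581) (nat_lit 33554432) .dd))) (.ch (nat_lit 23) (.ev (nat_lit 3568) (nat_lit
 77343096848) .dd)))))))))))) (.br (nat_lit 49) (.ch (nat_lit 48) (.ev (nat_lit 52) (nat_lit 609923105296) (.ev
 (nat_lit 2000) (nat_lit 343664631808) .dd))) (.ch (nat_lit 49) (.ev (nat_lit 52) (nat_lit 377957253120) (.ev
 (nat_lit 468) (nat_lit 67108864) (.ev (nat_lit 564) (nat_lit 8192) (.ev (nat_lit 660) (nat_lit 16) (.ev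
 (nat_lit 2084) (nat_lit 512) (.ev (nat_lit 2388) (nat_lit 17179869184) (.ev (nat_lit 2452) (nat_lit
 8589934592) (.nd (nat_lit 3552) (.br (nat_lit 13) (.br (nat_lit 9) (.br (nat_lit 2) (.ch (nat_lit 1) (.ev
 (nat_lit 3568) (nat_lit 549793562624) .dd)) (.ch (nat_lit 2) (.ev (nat_lit 3568) (nat_lit 549789368320) (.ev
 (nat_lit 3581) (nat_lit 4194304) .dd)))) (.br (nat_lit 12) (.ch (nat_lit 9) (.ev (nat_lit 3568) (nat_lit
 549793562624) .dd)) (.ch (nat_lit 12) (.ev (nat_lit 3568) (nat_lit 549755813888) (.ev (nat_lit 3600) (nat_lit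
 37748736) .dd))))) (.br (nat_lit 18) (.br (nat_lit 15) (.ch (nat_lit 13) (.ev (nat_lit 3568) (nat_lit
 549793562624) .dd)) (.ch (nat_lit 15) (.ev (nat_lit 3568) (nat_lit 549789368320) (.ev (nat_lit 3581) (nat_lit
 4194304) .dd)))) (.br (nat_lit 19) (.ch (nat_lit 18) (.ev (nat_lit 3568) (nat_lit 37748736) (.ev (nat_lit
 3581) (nat_lit 549755813888) .dd))) (.br (nat_lit 24) (.ch (nat_lit 19) (.ev (nat_lit 3568) (nat_lit
 549793562624) .dd)) (.ch (nat_lit 24) (.ev (nat_lit 3568) (nat_lit 549789368320) (.ev (nat_lit 3581) (nat_lit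
 4194304) .dd)))))))))))))))))) (.br (nat_lit 51) (.ch (nat_lit 50) (.ev (nat_lit 52) (nat_lit 300681404928)
 (.ev (nat_lit 564) (nat_lit 34359738368) (.ev (nat_lit 2304) (nat_lit 618546593808) .dd)))) (.br (nat_lit 53)
 (.ch (nat_lit 51) (.ev (nat_lit 52) (nat_lit 283505721856) (.ev (nat_lit 1556) (nat_lit 16) (.ev (nat_lit
 2596) (nat_lit 8192) (.ev (nat_lit 3124) (nat_lit 34359738368) (.nd (nat_lit 3552) (.br (nat_lit 14) (.br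
 (nat_lit 2) (.br (nat_lit 1) (.ch (nat_lit 0) (.ev (nat_lit 3568) (nat_lit 618542399488) (.ev (nat_lit 3581)
 (nat_lit 17179869184) .dd))) (.ch (nat_lit 1) (.ev (nat_lit 3568) (nat_lit 635655159808) (.ev (nat_lit 3581)
 (nat_lit 67108864) .dd)))) (.br (nat_lit 5) (.ch (nat_lit 2) (.ev (nat_lit 3568) (nat_lit 68719476736) (.ev
 (nat_lit 3600) (nat_lit 17179869184) (.fin (nat_lit 576474496195052112))))) (.br (nat_lit 7) (.ch (nat_lit 5)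
 (.ev (nat_lit 3568) (nat_lit 635722268672) .dd)) (.ch (nat_lit 7) (.ev (nat_lit 3568) (nat_lit 85966454784)
 (.ev (nat_lit 3581) (nat_lit 549755813888) .dd)))))) (.br (nat_lit 24) (.br (nat_lit 15) (.ch (nat_lit 14)
 (.ev (nat_lit 3568) (nat_lit 618542399488) (.ev (nat_lit 3581) (nat_lit 17179869184) .dd))) (.br (nat_lit 16)
 (.ch (nat_lit 15) (.ev (nat_lit 3568) (nat_lit 618542399488) (.ev (nat_lit 3581) (nat_lit 17179869184) .dd)))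
 (.ch (nat_lit 16) (.ev (nat_lit 3568) (nat_lit 85966454784) (.ev (nat_lit 3581) (nat_lit 549755813888)
 .dd))))) (.br (nat_lit 26) (.ch (nat_lit 24) (.ev (nat_lit 3568) (nat_lit 635722268672) .dd)) (.br (nat_lit
 29) (.ch (nat_lit 26) (.ev (nat_lit 3568) (nat_lit 566935683072) (.ev (nat_lit 3584) (nat_lit 68719476736)
 (.ev (nat_lit 3597) (nat_lit 67108864) .dd)))) (.ch (nat_lit 29) (.ev (nat_lit 3568) (nat_lit 635722268672)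
 .dd)))))))))))) (.ch (nat_lit 53) (.ev (nat_lit 52) (nat_lit 317827588112) (.ev (nat_lit 500) (nat_lit
 17179869184) (.ev (nat_lit 852) (nat_lit 4194304) (.ev (nat_lit 1284) (nat_lit 33554432) (.ev (nat_lit 1892)
 (nat_lit 512) (.ev (nat_lit 1956) (nat_lit 549755813888) (.ev (nat_lit 3268) (nat_lit 67108864) (.nd (nat_lit
 3552) (.br (nat_lit 19) (.br (nat_lit 9) (.ch (nat_lit 5) (.ev (nat_lit 3568) (nat_lit 131072) (.ev (nat_lit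
 3581) (nat_lit 68719476736) .dd))) (.br (nat_lit 12) (.ch (nat_lit 9) (.ev (nat_lit 3584) (nat_lit
 68719476736) (.ev (nat_lit 3597) (nat_lit 131072) .dd))) (.ch (nat_lit 12) (.ev (nat_lit 3568) (nat_lit
 68719607808) .dd)))) (.br (nat_lit 26) (.br (nat_lit 24) (.ch (nat_lit 19) (.ev (nat_lit 3568) (nat_lit
 68719607808) .dd)) (.ch (nat_lit 24) (.ev (nat_lit 3568) (nat_lit 68719476736) (.ev (nat_lit 3581) (nat_lit
 131072) .dd)))) (.br (nat_lit 29) (.ch (nat_lit 26) (.ev (nat_lit 3568) (nat_lit 131072) (.ev (nat_lit 3581)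
 (nat_lit 68719476736) .dd))) (.ch (nat_lit 29) (.ev (nat_lit 3568) (nat_lit 68719607808) .dd))))))))))))))))))
 (.br (nat_lit 64) (.br (nat_lit 57) (.br (nat_lit 55) (.ch (nat_lit 54) (.ev (nat_lit 52) (nat_lit
 910533067280) (.ev (nat_lit 244) (nat_lit 131072) (.ev (nat_lit 372) (nat_lit 8192) (.ev (nat_lit 1936)
 (nat_lit 43054530560) .dd))))) (.ch (nat_lit 55) (.ev (nat_lit 52) (nat_lit 833328521232) (.ev (nat_lit 180)
 (nat_lit 68719476736) (.ev (nat_lit 308) (nat_lit 512) (.ev (nat_lit 340) (nat_lit 131072) (.nd (nat_lit 3552)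
 (.br (nat_lit 11) (.br (nat_lit 2) (.br (nat_lit 1) (.ch (nat_lit 0) (.ev (nat_lit 3616) (nat_lit 34359738368)
 (.ev (nat_lit 3629) (nat_lit 17179869184) .dd))) (.ch (nat_lit 1) (.ev (nat_lit 3568) (nat_lit 17179869184)
 (.ev (nat_lit 3581) (nat_lit 34359738368) .dd)))) (.br (nat_lit 7) (.ch (nat_lit 2) (.ev (nat_lit 3568)
 (nat_lit 51539607552) .dd)) (.ch (nat_lit 7) (.ev (nat_lit 3568) (nat_lit 51539607552) .dd)))) (.br (nat_lit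
 16) (.br (nat_lit 15) (.ch (nat_lit 11) (.ev (nat_lit 3568) (nat_lit 51539607552) .dd)) (.ch (nat_lit 15) (.ev
 (nat_lit 3568) (nat_lit 34359738368) (.ev (nat_lit 3581) (nat_lit 17179869184) .dd)))) (.br (nat_lit 23) (.ch
 (nat_lit 16) (.ev (nat_lit 3568) (nat_lit 51539607552) .dd)) (.ch (nat_lit 23) (.ev (nat_lit 3568) (nat_lit
 17179869184) (.ev (nat_lit 3581) (nat_lit 34359738368) .dd))))))))))))) (.br (nat_lit 58) (.ch (nat_lit 57)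
 (.ev (nat_lit 52) (nat_lit 601362661888) (.ev (nat_lit 928) (nat_lit 352225075216) .dd))) (.br (nat_lit 62)
 (.ch (nat_lit 58) (.ev (nat_lit 52) (nat_lit 584149237776) (.ev (nat_lit 608) (nat_lit 369438499328) .dd)))
 (.ch (nat_lit 62) (.ev (nat_lit 52) (nat_lit 120296972800) (.ev (nat_lit 628) (nat_lit 549755813888) (.ev
 (nat_lit 1588) (nat_lit 274877906944) (.ev (nat_lit 2768) (nat_lit 8657043472) .dd)))))))) (.br (nat_lit 68)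
 (.br (nat_lit 65) (.ch (nat_lit 64) (.ev (nat_lit 52) (nat_lit 352191643648) (.ev (nat_lit 576) (nat_lit
 601396093456) .dd))) (.br (nat_lit 67) (.ch (nat_lit 65) (.ev (nat_lit 52) (nat_lit 678672073216) (.ev
 (nat_lit 1556) (nat_lit 4194304) (.ev (nat_lit 3028) (nat_lit 274877906944) (.ev (nat_lit 3424) (nat_lit
 33554432) (.nd (nat_lit 3552) (.br (nat_lit 16) (.br (nat_lit 9) (.ch (nat_lit 5) (.ev (nat_lit 3568) (nat_lit
 16) (.ev (nat_lit 3581) (nat_lit 8192) .dd))) (.ch (nat_lit 9) (.ev (nat_lit 3568) (nat_lit 8208) .dd))) (.br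
 (nat_lit 18) (.ch (nat_lit 16) (.ev (nat_lit 3568) (nat_lit 8192) (.ev (nat_lit 3581) (nat_lit 16) .dd))) (.br
 (nat_lit 23) (.ch (nat_lit 18) (.ev (nat_lit 3568) (nat_lit 8208) .dd)) (.ch (nat_lit 23) (.ev (nat_lit 3568)
 (nat_lit 8208) .dd))))))))))) (.ch (nat_lit 67) (.ev (nat_lit 52) (nat_lit 34363941376) (.ev (nat_lit 436)
 (nat_lit 33554432) (.ev (nat_lit 468) (nat_lit 549755813888) (.ev (nat_lit 1028) (nat_lit 16) (.ev (nat_lit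
 1556) (nat_lit 68719476736) (.ev (nat_lit 1716) (nat_lit 274877906944) (.ev (nat_lit 1796) (nat_lit 131072)
 (.nd (nat_lit 3552) (.br (nat_lit 13) (.br (nat_lit 5) (.br (nat_lit 1) (.ch (nat_lit 0) (.ev (nat_lit 3568)
 (nat_lit 67108864) (.ev (nat_lit 3664) (nat_lit 17179869184) (.ev (nat_lit 3677) (nat_lit 8589934592) .dd))))
 (.ch (nat_lit 1) (.ev (nat_lit 3568) (nat_lit 8589934592) (.ev (nat_lit 3664) (nat_lit 17246978048) .dd))))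
 (.br (nat_lit 9) (.ch (nat_lit 5) (.ev (nat_lit 3568) (nat_lit 17246978048) (.ev (nat_lit 3581) (nat_lit
 8589934592) .dd))) (.br (nat_lit 12) (.ch (nat_lit 9) (.ev (nat_lit 3568) (nat_lit 17246978048) (.ev (nat_lit
 3581) (nat_lit 8589934592) .dd))) (.ch (nat_lit 12) (.ev (nat_lit 3568) (nat_lit 25836912640) .dd))))) (.br
 (nat_lit 19) (.br (nat_lit 15) (.ch (nat_lit 13) (.ev (nat_lit 3568) (nat_lit 8657043456) (.ev (nat_lit 3581)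
 (nat_lit 17179869184) .dd))) (.br (nat_lit 16) (.ch (nat_lit 15) (.ev (nat_lit 3568) (nat_lit 67108864) (.ev
 (nat_lit 3584) (nat_lit 17179869184) (.ev (nat_lit 3597) (nat_lit 8589934592) .dd)))) (.ch (nat_lit 16) (.ev
 (nat_lit 3568) (nat_lit 25836912640) .dd)))) (.br (nat_lit 26) (.ch (nat_lit 19) (.ev (nat_lit 3568) (nat_lit
 17246978048) (.ev (nat_lit 3581) (nat_lit 8589934592) .dd))) (.br (nat_lit 29) (.ch (nat_lit 26) (.ev (nat_lit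
 3568) (nat_lit 25836912640) .dd)) (.ch (nat_lit 29) (.ev (nat_lit 3568) (nat_lit 17246978048) (.ev (nat_lit
 3581) (nat_lit 8589934592) .dd)))))))))))))))))) (.br (nat_lit 69) (.ch (nat_lit 68) (.ev (nat_lit 52)
 (nat_lit 103150518272) (.ev (nat_lit 596) (nat_lit 549755813888) (.ev (nat_lit 628) (nat_lit 17179869184) (.ev
 (nat_lit 1188) (nat_lit 131072) (.nd (nat_lit 3552) (.br (nat_lit 13) (.br (nat_lit 5) (.br (nat_lit 1) (.ch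
 (nat_lit 0) (.ev (nat_lit 3568) (nat_lit 283501396496) (.ev (nat_lit 3581) (nat_lit 8192) .dd))) (.ch (nat_lit
 1) (.ev (nat_lit 3568) (nat_lit 8623489552) (.ev (nat_lit 3616) (nat_lit 8192) (.ev (nat_lit 3629) (nat_lit
 274877906944) .dd))))) (.br (nat_lit 7) (.ch (nat_lit 5) (.ev (nat_lit 3568) (nat_lit 274877906944) (.ev
 (nat_lit 3584) (nat_lit 8589934592) (.ev (nat_lit 3616) (nat_lit 8192) (.ev (nat_lit 3664) (nat_lit 33554432)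
 (.fin (nat_lit 576465700110418516))))))) (.br (nat_lit 11) (.ch (nat_lit 7) (.ev (nat_lit 3568) (nat_lit
 283501404688) .dd)) (.ch (nat_lit 11) (.ev (nat_lit 3568) (nat_lit 283501404688) .dd))))) (.br (nat_lit 16)
 (.br (nat_lit 14) (.ch (nat_lit 13) (.ev (nat_lit 3568) (nat_lit 283501404688) .dd)) (.br (nat_lit 15) (.ch
 (nat_lit 14) (.ev (nat_lit 3568) (nat_lit 283467850256) (.ev (nat_lit 3581) (nat_lit 33554432) .dd))) (.ch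
 (nat_lit 15) (.ev (nat_lit 3568) (nat_lit 283501396496) (.ev (nat_lit 3581) (nat_lit 8192) .dd))))) (.br
 (nat_lit 24) (.ch (nat_lit 16) (.ev (nat_lit 3568) (nat_lit 283467850256) (.ev (nat_lit 3581) (nat_lit
 33554432) .dd))) (.br (nat_lit 29) (.ch (nat_lit 24) (.ev (nat_lit 3568) (nat_lit 283467850256) (.ev (nat_lit
 3581) (nat_lit 33554432) .dd))) (.ch (nat_lit 29) (.ev (nat_lit 3568) (nat_lit 283501404688) .dd))))))))))))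
 (.br (nat_lit 70) (.ch (nat_lit 69) (.ev (nat_lit 52) (nat_lit 919127334912) (.ev (nat_lit 372) (nat_lit
 34359738368) (.ev (nat_lit 1156) (nat_lit 16) (.nd (nat_lit 3552) (.br (nat_lit 14) (.br (nat_lit 6) (.br
 (nat_lit 1) (.ch (nat_lit 0) (.ev (nat_lit 3568) (nat_lit 100663296) (.ev (nat_lit 3581) (nat_lit 512) .dd)))
 (.ch (nat_lit 1) (.ev (nat_lit 3568) (nat_lit 100663808) .dd))) (.br (nat_lit 9) (.ch (nat_lit 6) (.ev
 (nat_lit 3568) (nat_lit 100663808) .dd)) (.br (nat_lit 13) (.ch (nat_lit 9) (.ev (nat_lit 3568) (nat_lit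
 100663296) (.ev (nat_lit 3581) (nat_lit 512) .dd))) (.ch (nat_lit 13) (.ev (nat_lit 3568) (nat_lit 67109376)
 (.ev (nat_lit 3581) (nat_lit 33554432) .dd)))))) (.br (nat_lit 23) (.br (nat_lit 15) (.ch (nat_lit 14) (.ev
 (nat_lit 3568) (nat_lit 100663808) .dd)) (.br (nat_lit 18) (.ch (nat_lit 15) (.ev (nat_lit 3568) (nat_lit
 100663808) .dd)) (.ch (nat_lit 18) (.ev (nat_lit 3568) (nat_lit 100663808) .dd)))) (.br (nat_lit 24) (.ch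
 (nat_lit 23) (.ev (nat_lit 3568) (nat_lit 33554944) (.ev (nat_lit 3581) (nat_lit 67108864) .dd))) (.br
 (nat_lit 26) (.ch (nat_lit 24) (.ev (nat_lit 3568) (nat_lit 100663808) .dd)) (.ch (nat_lit 26) (.ev (nat_lit
 3568) (nat_lit 100663808) .dd))))))))))) (.ch (nat_lit 70) (.ev (nat_lit 52) (nat_lit 936407728144) (.ev
 (nat_lit 404) (nat_lit 512) (.ev (nat_lit 2832) (nat_lit 17180008448) .dd))))))))))))

/-- Subtrie. -/
noncomputable def T8 : Tr := (.ev (nat_lit 20) (nat_lit 4947905217488) (.nd (nat_lit 33) (.br (nat_lit 39) (.br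
 (nat_lit 19) (.br (nat_lit 8) (.br (nat_lit 4) (.br (nat_lit 3) (.ch (nat_lit 1) (.ev (nat_lit 52) (nat_lit
 2147488768) (.ev (nat_lit 64) (nat_lit 542244085794) .dd))) (.ch (nat_lit 3) (.ev (nat_lit 52) (nat_lit
 360781448194) (.ev (nat_lit 724) (nat_lit 8589934592) (.ev (nat_lit 820) (nat_lit 1073741824) (.ev (nat_lit
 1892) (nat_lit 2147483648) (.ev (nat_lit 2148) (nat_lit 4096) (.ev (nat_lit 2212) (nat_lit 32) (.ev (nat_lit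
 2420) (nat_lit 34359738368) (.nd (nat_lit 3552) (.br (nat_lit 13) (.br (nat_lit 6) (.br (nat_lit 4) (.ch
 (nat_lit 1) (.ev (nat_lit 3568) (nat_lit 137439223808) .dd)) (.ch (nat_lit 4) (.ev (nat_lit 3568) (nat_lit
 137439223808) .dd))) (.br (nat_lit 9) (.ch (nat_lit 6) (.ev (nat_lit 3568) (nat_lit 137439215616) (.ev
 (nat_lit 3581) (nat_lit 8192) .dd))) (.ch (nat_lit 9) (.ev (nat_lit 3568) (nat_lit 137438961664) (.ev (nat_lit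
 3581) (nat_lit 262144) .dd))))) (.br (nat_lit 19) (.br (nat_lit 16) (.ch (nat_lit 13) (.ev (nat_lit 3568)
 (nat_lit 137439223808) .dd)) (.ch (nat_lit 16) (.ev (nat_lit 3568) (nat_lit 137439223808) .dd))) (.br (nat_lit
 20) (.ch (nat_lit 19) (.ev (nat_lit 3568) (nat_lit 270336) (.ev (nat_lit 3581) (nat_lit 137438953472) .dd)))
 (.br (nat_lit 29) (.ch (nat_lit 20) (.ev (nat_lit 3568) (nat_lit 137439215616) (.ev (nat_lit 3581) (nat_lit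
 8192) .dd))) (.ch (nat_lit 29) (.ev (nat_lit 3568) (nat_lit 270336) (.ev (nat_lit 3581) (nat_lit 137438953472)
 .dd))))))))))))))))) (.br (nat_lit 5) (.ch (nat_lit 4) (.ev (nat_lit 52) (nat_lit 472446403618) (.ev (nat_lit
 500) (nat_lit 68719476736) (.ev (nat_lit 1428) (nat_lit 8192) (.ev (nat_lit 2032) (nat_lit 3225686016)
 .dd))))) (.br (nat_lit 7) (.ch (nat_lit 5) (.ev (nat_lit 52) (nat_lit 329642934274) (.ev (nat_lit 244)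
 (nat_lit 8589934592) (.ev (nat_lit 788) (nat_lit 1024) (.ev (nat_lit 1252) (nat_lit 262144) (.ev (nat_lit
 1684) (nat_lit 4096) (.ev (nat_lit 2724) (nat_lit 137438953472) (.nd (nat_lit 3552) (.br (nat_lit 13) (.br
 (nat_lit 8) (.br (nat_lit 3) (.ch (nat_lit 1) (.ev (nat_lit 3568) (nat_lit 68719484960) .dd)) (.ch (nat_lit 3)
 (.ev (nat_lit 3568) (nat_lit 68719484960) .dd))) (.br (nat_lit 9) (.ch (nat_lit 8) (.ev (nat_lit 3568)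
 (nat_lit 68719484960) .dd)) (.br (nat_lit 11) (.ch (nat_lit 9) (.ev (nat_lit 3568) (nat_lit 68719484960) .dd))
 (.ch (nat_lit 11) (.ev (nat_lit 3568) (nat_lit 68719484960) .dd))))) (.br (nat_lit 17) (.br (nat_lit 15) (.ch
 (nat_lit 13) (.ev (nat_lit 3568) (nat_lit 8224) (.ev (nat_lit 3581) (nat_lit 68719476736) .dd))) (.br (nat_lit
 16) (.ch (nat_lit 15) (.ev (nat_lit 3568) (nat_lit 68719484928) (.ev (nat_lit 3581) (nat_lit 32) .dd))) (.ch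
 (nat_lit 16) (.ev (nat_lit 3568) (nat_lit 68719484960) .dd)))) (.br (nat_lit 18) (.ch (nat_lit 17) (.ev
 (nat_lit 3568) (nat_lit 68719476736) (.fin (nat_lit 576452505968788034)))) (.br (nat_lit 22) (.ch (nat_lit 18)
 (.ev (nat_lit 3568) (nat_lit 68719484960) .dd)) (.ch (nat_lit 22) (.ev (nat_lit 3568) (nat_lit 68719484960)
 .dd)))))))))))))) (.ch (nat_lit 7) (.ev (nat_lit 52) (nat_lit 317827592226) (.ev (nat_lit 1028) (nat_lit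
 4194304) (.ev (nat_lit 1492) (nat_lit 1024) (.ev (nat_lit 2324) (nat_lit 262144) (.ev (nat_lit 3124) (nat_lit
 137438953472) (.nd (nat_lit 3552) (.br (nat_lit 17) (.br (nat_lit 13) (.ch (nat_lit 2) (.ev (nat_lit 3568)
 (nat_lit 89120571392) .dd)) (.br (nat_lit 16) (.ch (nat_lit 13) (.ev (nat_lit 3568) (nat_lit 3221225472) (.ev
 (nat_lit 3648) (nat_lit 85899345920) .dd))) (.ch (nat_lit 16) (.ev (nat_lit 3568) (nat_lit 86973087744) (.ev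
 (nat_lit 3581) (nat_lit 2147483648) .dd))))) (.br (nat_lit 22) (.br (nat_lit 19) (.ch (nat_lit 17) (.ev
 (nat_lit 3568) (nat_lit 68719476736) (.ev (nat_lit 3584) (nat_lit 2147483648) (.ev (nat_lit 3600) (nat_lit
 17179869184) (.ev (nat_lit 3613) (nat_lit 1073741824) .dd))))) (.ch (nat_lit 19) (.ev (nat_lit 3568) (nat_lit
 88046829568) (.ev (nat_lit 3581) (nat_lit 1073741824) .dd)))) (.br (nat_lit 29) (.ch (nat_lit 22) (.ev
 (nat_lit 3568) (nat_lit 20401094656) (.ev (nat_lit 3581) (nat_lit 68719476736) .dd))) (.ch (nat_lit 29) (.ev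
 (nat_lit 3568) (nat_lit 18253611008) (.ev (nat_lit 3584) (nat_lit 2147483648) (.ev (nat_lit 3597) (nat_lit
 68719476736) .dd))))))))))))))))) (.br (nat_lit 15) (.br (nat_lit 11) (.ch (nat_lit 8) (.ev (nat_lit 52)
 (nat_lit 11815625760) (.ev (nat_lit 948) (nat_lit 68719476736) (.ev (nat_lit 1632) (nat_lit 463856472066)
 .dd)))) (.br (nat_lit 12) (.ch (nat_lit 11) (.ev (nat_lit 52) (nat_lit 489626272800) (.ev (nat_lit 180)
 (nat_lit 4194304) (.ev (nat_lit 308) (nat_lit 2147483648) (.ev (nat_lit 2148) (nat_lit 34359738368) (.ev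
 (nat_lit 2692) (nat_lit 262144) (.ev (nat_lit 2820) (nat_lit 2) (.nd (nat_lit 3552) (.br (nat_lit 15) (.br
 (nat_lit 9) (.br (nat_lit 4) (.ch (nat_lit 1) (.ev (nat_lit 3568) (nat_lit 17179881472) (.ev (nat_lit 3581)
 (nat_lit 1073741824) .dd))) (.ch (nat_lit 4) (.ev (nat_lit 3568) (nat_lit 1073754112) (.ev (nat_lit 3581)
 (nat_lit 17179869184) .dd)))) (.br (nat_lit 12) (.ch (nat_lit 9) (.ev (nat_lit 3568) (nat_lit 18253619200)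
 (.ev (nat_lit 3581) (nat_lit 4096) .dd))) (.ch (nat_lit 12) (.ev (nat_lit 3568) (nat_lit 18253623296) .dd))))
 (.br (nat_lit 19) (.br (nat_lit 18) (.ch (nat_lit 15) (.ev (nat_lit 3568) (nat_lit 18253619200) (.ev (nat_lit
 3581) (nat_lit 4096) .dd))) (.ch (nat_lit 18) (.ev (nat_lit 3568) (nat_lit 1073754112) (.ev (nat_lit 3581)
 (nat_lit 17179869184) .dd)))) (.br (nat_lit 20) (.ch (nat_lit 19) (.ev (nat_lit 3568) (nat_lit 18253615104)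
 (.ev (nat_lit 3581) (nat_lit 8192) .dd))) (.br (nat_lit 29) (.ch (nat_lit 20) (.ev (nat_lit 3568) (nat_lit
 17179881472) (.ev (nat_lit 3581) (nat_lit 1073741824) .dd))) (.ch (nat_lit 29) (.ev (nat_lit 3568) (nat_lit
 18253623296) .dd)))))))))))))) (.ch (nat_lit 12) (.ev (nat_lit 52) (nat_lit 44027609090) (.ev (nat_lit 256)
 (nat_lit 500363965472) .dd))))) (.br (nat_lit 16) (.ch (nat_lit 15) (.ev (nat_lit 52) (nat_lit 17180140546)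
 (.ev (nat_lit 160) (nat_lit 527211434016) .dd))) (.br (nat_lit 18) (.ch (nat_lit 16) (.ev (nat_lit 52)
 (nat_lit 140660192290) (.ev (nat_lit 1136) (nat_lit 403731382272) .dd))) (.ch (nat_lit 18) (.ev (nat_lit 52)
 (nat_lit 412316868642) (.ev (nat_lit 96) (nat_lit 132074705920) .dd))))))) (.br (nat_lit 29) (.br (nat_lit 23)
 (.br (nat_lit 22) (.ch (nat_lit 19) (.ev (nat_lit 52) (nat_lit 53691560960) (.ev (nat_lit 756) (nat_lit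
 1073741824) (.ev (nat_lit 852) (nat_lit 32) (.ev (nat_lit 1524) (nat_lit 274877906944) (.ev (nat_lit 2084)
 (nat_lit 8589934592) (.ev (nat_lit 2324) (nat_lit 68719476736) (.ev (nat_lit 2452) (nat_lit 2) (.ev (nat_lit
 2461) (nat_lit 137438953472) .dd))))))))) (.ch (nat_lit 22) (.ev (nat_lit 52) (nat_lit 321053274114) (.ev
 (nat_lit 1156) (nat_lit 32) (.ev (nat_lit 2820) (nat_lit 1024) (.ev (nat_lit 3092) (nat_lit 137438953472) (.ev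
 (nat_lit 3360) (nat_lit 68719476736) (.ev (nat_lit 3373) (nat_lit 17179869184) .dd)))))))) (.br (nat_lit 24)
 (.ch (nat_lit 23) (.ev (nat_lit 52) (nat_lit 268435719200) (.ev (nat_lit 1556) (nat_lit 4194304) (.ev (nat_lit
 1684) (nat_lit 1073741824) (.ev (nat_lit 2660) (nat_lit 4096) (.ev (nat_lit 2996) (nat_lit 274877906944) (.nd
 (nat_lit 3552) (.br (nat_lit 11) (.br (nat_lit 6) (.br (nat_lit 3) (.ch (nat_lit 2) (.ev (nat_lit 3584)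
 (nat_lit 8194) .dd)) (.ch (nat_lit 3) (.ev (nat_lit 3568) (nat_lit 8194) .dd))) (.br (nat_lit 8) (.ch (nat_lit
 6) (.ev (nat_lit 3568) (nat_lit 8192) (.ev (nat_lit 3581) (nat_lit 2) .dd))) (.ch (nat_lit 8) (.ev (nat_lit
 3568) (nat_lit 8194) .dd)))) (.br (nat_lit 16) (.br (nat_lit 13) (.ch (nat_lit 11) (.ev (nat_lit 3568)
 (nat_lit 8194) .dd)) (.ch (nat_lit 13) (.ev (nat_lit 3568) (nat_lit 8194) .dd))) (.br (nat_lit 19) (.ch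
 (nat_lit 16) (.ev (nat_lit 3568) (nat_lit 8194) .dd)) (.br (nat_lit 29) (.ch (nat_lit 19) (.ev (nat_lit 3568)
 (nat_lit 2) (.ev (nat_lit 3581) (nat_lit 8192) .dd))) (.ch (nat_lit 29) (.ev (nat_lit 3568) (nat_lit 8194)
 .dd))))))))))))) (.br (nat_lit 26) (.ch (nat_lit 24) (.ev (nat_lit 52) (nat_lit 183614050306) (.ev (nat_lit
 276) (nat_lit 8192) (.ev (nat_lit 1536) (nat_lit 360777516064) .dd)))) (.ch (nat_lit 26) (.ev (nat_lit 52)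
 (nat_lit 63354966016) (.ev (nat_lit 948) (nat_lit 262144) (.ev (nat_lit 1060) (nat_lit 2) (.ev (nat_lit 1348)
 (nat_lit 137438953472) (.ev (nat_lit 2020) (nat_lit 68719476736) (.ev (nat_lit 2916) (nat_lit 32) (.nd
 (nat_lit 3552) (.br (nat_lit 11) (.br (nat_lit 8) (.br (nat_lit 4) (.ch (nat_lit 3) (.ev (nat_lit 3568)
 (nat_lit 274877916160) .dd)) (.ch (nat_lit 4) (.ev (nat_lit 3568) (nat_lit 274877916160) .dd))) (.br (nat_lit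
 9) (.ch (nat_lit 8) (.ev (nat_lit 3568) (nat_lit 9216) (.ev (nat_lit 3581) (nat_lit 274877906944) .dd))) (.ch
 (nat_lit 9) (.ev (nat_lit 3568) (nat_lit 274877916160) .dd)))) (.br (nat_lit 17) (.br (nat_lit 16) (.ch
 (nat_lit 11) (.ev (nat_lit 3568) (nat_lit 274877916160) .dd)) (.ch (nat_lit 16) (.ev (nat_lit 3568) (nat_lit
 9216) (.ev (nat_lit 3581) (nat_lit 274877906944) .dd)))) (.br (nat_lit 18) (.ch (nat_lit 17) (.ev (nat_lit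
 3568) (nat_lit 9216) (.ev (nat_lit 3581) (nat_lit 274877906944) .dd))) (.br (nat_lit 20) (.ch (nat_lit 18)
 (.ev (nat_lit 3568) (nat_lit 8192) (.ev (nat_lit 3600) (nat_lit 1024) (.ev (nat_lit 3613) (nat_lit
 274877906944) .dd)))) (.ch (nat_lit 20) (.ev (nat_lit 3568) (nat_lit 274877907968) (.ev (nat_lit 3581)
 (nat_lit 8192) .dd)))))))))))))))))) (.br (nat_lit 34) (.br (nat_lit 31) (.ch (nat_lit 29) (.ev (nat_lit 52)
 (nat_lit 456344478754) (.ev (nat_lit 596) (nat_lit 262144) (.ev (nat_lit 628) (nat_lit 68719476736) (.ev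
 (nat_lit 2980) (nat_lit 17179869184) (.ev (nat_lit 3300) (nat_lit 4096) (.ev (nat_lit 3309) (nat_lit
 2147483648) .dd))))))) (.br (nat_lit 33) (.ch (nat_lit 31) (.ev (nat_lit 52) (nat_lit 327491522560) (.ev
 (nat_lit 212) (nat_lit 2147483648) (.ev (nat_lit 2052) (nat_lit 32) (.ev (nat_lit 3236) (nat_lit 137438953472)
 (.nd (nat_lit 3552) (.br (nat_lit 11) (.br (nat_lit 4) (.br (nat_lit 3) (.ch (nat_lit 1) (.ev (nat_lit 3568)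
 (nat_lit 68723680258) (.ev (nat_lit 3581) (nat_lit 8589934592) .dd))) (.ch (nat_lit 3) (.ev (nat_lit 3568)
 (nat_lit 77313614848) (.ev (nat_lit 3581) (nat_lit 2) .dd)))) (.br (nat_lit 7) (.ch (nat_lit 4) (.ev (nat_lit
 3568) (nat_lit 77313614850) .dd)) (.br (nat_lit 8) (.ch (nat_lit 7) (.ev (nat_lit 3568) (nat_lit 77313614850)
 .dd)) (.ch (nat_lit 8) (.ev (nat_lit 3568) (nat_lit 68723680258) (.ev (nat_lit 3581) (nat_lit 8589934592)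
 .dd)))))) (.br (nat_lit 16) (.br (nat_lit 13) (.ch (nat_lit 11) (.ev (nat_lit 3568) (nat_lit 77313614850)
 .dd)) (.br (nat_lit 15) (.ch (nat_lit 13) (.ev (nat_lit 3568) (nat_lit 77313614850) .dd)) (.ch (nat_lit 15)
 (.ev (nat_lit 3568) (nat_lit 77313614848) (.ev (nat_lit 3581) (nat_lit 2) .dd))))) (.br (nat_lit 18) (.ch
 (nat_lit 16) (.ev (nat_lit 3568) (nat_lit 8192) (.ev (nat_lit 3584) (nat_lit 68719476736) (.ev (nat_lit 3616)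
 (nat_lit 8589934592) (.ev (nat_lit 3664) (nat_lit 2) (.fin (nat_lit 576461302078587464))))))) (.br (nat_lit
 22) (.ch (nat_lit 18) (.ev (nat_lit 3568) (nat_lit 77313614848) (.ev (nat_lit 3581) (nat_lit 2) .dd))) (.ch
 (nat_lit 22) (.ev (nat_lit 3568) (nat_lit 68723672066) (.ev (nat_lit 3616) (nat_lit 8589934592) (.ev (nat_lit
 3629) (nat_lit 8192) .dd)))))))))))))) (.ch (nat_lit 33) (.ev (nat_lit 52) (nat_lit 516474273826) (.ev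
 (nat_lit 1060) (nat_lit 1024) (.ev (nat_lit 2336) (nat_lit 27917299712) .dd)))))) (.br (nat_lit 36) (.ch
 (nat_lit 34) (.ev (nat_lit 52) (nat_lit 251260047362) (.ev (nat_lit 372) (nat_lit 1024) (.ev (nat_lit 692)
 (nat_lit 274877906944) (.ev (nat_lit 2116) (nat_lit 1073741824) (.ev (nat_lit 3348) (nat_lit 17179869184) (.nd
 (nat_lit 3552) (.br (nat_lit 15) (.br (nat_lit 9) (.br (nat_lit 8) (.ch (nat_lit 7) (.ev (nat_lit 3568)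
 (nat_lit 8224) .dd)) (.ch (nat_lit 8) (.ev (nat_lit 3568) (nat_lit 8224) .dd))) (.br (nat_lit 12) (.ch
 (nat_lit 9) (.ev (nat_lit 3568) (nat_lit 8224) .dd)) (.ch (nat_lit 12) (.ev (nat_lit 3568) (nat_lit 8224)
 .dd)))) (.br (nat_lit 17) (.br (nat_lit 16) (.ch (nat_lit 15) (.ev (nat_lit 3568) (nat_lit 8224) .dd)) (.ch
 (nat_lit 16) (.ev (nat_lit 3568) (nat_lit 8224) .dd))) (.br (nat_lit 22) (.ch (nat_lit 17) (.fin (nat_lit
 576452505968788034))) (.br (nat_lit 29) (.ch (nat_lit 22) (.ev (nat_lit 3568) (nat_lit 32) (.ev (nat_lit 3581)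
 (nat_lit 8192) .dd))) (.ch (nat_lit 29) (.ev (nat_lit 3568) (nat_lit 8224) .dd))))))))))))) (.br (nat_lit 38)
 (.ch (nat_lit 36) (.ev (nat_lit 52) (nat_lit 215826301984) (.ev (nat_lit 532) (nat_lit 262144) (.ev (nat_lit
 948) (nat_lit 274877906944) (.ev (nat_lit 1188) (nat_lit 2147483648) (.ev (nat_lit 1492) (nat_lit 2) (.nd
 (nat_lit 3552) (.br (nat_lit 12) (.br (nat_lit 6) (.br (nat_lit 3) (.ch (nat_lit 2) (.ev (nat_lit 3568)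
 (nat_lit 51539615744) (.ev (nat_lit 3581) (nat_lit 4096) .dd))) (.ch (nat_lit 3) (.ev (nat_lit 3568) (nat_lit
 34359750656) (.ev (nat_lit 3581) (nat_lit 17179869184) .dd)))) (.br (nat_lit 9) (.ch (nat_lit 6) (.ev (nat_lit
 3568) (nat_lit 51539619840) .dd)) (.br (nat_lit 11) (.ch (nat_lit 9) (.ev (nat_lit 3568) (nat_lit 51539615744)
 (.ev (nat_lit 3581) (nat_lit 4096) .dd))) (.ch (nat_lit 11) (.ev (nat_lit 3568) (nat_lit 51539619840) .dd)))))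
 (.br (nat_lit 17) (.br (nat_lit 15) (.ch (nat_lit 12) (.ev (nat_lit 3568) (nat_lit 17179881472) (.ev (nat_lit
 3581) (nat_lit 34359738368) .dd))) (.br (nat_lit 16) (.ch (nat_lit 15) (.ev (nat_lit 3568) (nat_lit
 51539619840) .dd)) (.ch (nat_lit 16) (.ev (nat_lit 3568) (nat_lit 51539619840) .dd)))) (.br (nat_lit 18) (.ch
 (nat_lit 17) (.ev (nat_lit 3568) (nat_lit 51539611648) (.ev (nat_lit 3581) (nat_lit 8192) .dd))) (.br (nat_lit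
 22) (.ch (nat_lit 18) (.ev (nat_lit 3568) (nat_lit 51539619840) .dd)) (.ch (nat_lit 22) (.ev (nat_lit 3568)
 (nat_lit 51539619840) .dd))))))))))))) (.ch (nat_lit 38) (.ev (nat_lit 52) (nat_lit 483184084000) (.ev
 (nat_lit 84) (nat_lit 4194304) (.ev (nat_lit 884) (nat_lit 17179869184) (.ev (nat_lit 1124) (nat_lit 8192)
 (.ev (nat_lit 1988) (nat_lit 1073741824) (.nd (nat_lit 3552) (.br (nat_lit 15) (.br (nat_lit 8) (.br (nat_lit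
 2) (.ch (nat_lit 1) (.ev (nat_lit 3568) (nat_lit 42949677058) .dd)) (.ch (nat_lit 2) (.ev (nat_lit 3568)
 (nat_lit 42949677056) (.ev (nat_lit 3581) (nat_lit 2) .dd)))) (.br (nat_lit 9) (.ch (nat_lit 8) (.ev (nat_lit
 3568) (nat_lit 42949672962) (.ev (nat_lit 3581) (nat_lit 4096) .dd))) (.ch (nat_lit 9) (.ev (nat_lit 3568)
 (nat_lit 42949677058) .dd)))) (.br (nat_lit 17) (.br (nat_lit 16) (.ch (nat_lit 15) (.ev (nat_lit 3568)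
 (nat_lit 34359738370) (.ev (nat_lit 3584) (nat_lit 8589938688) .dd))) (.ch (nat_lit 16) (.ev (nat_lit 3568)
 (nat_lit 42949677056) (.ev (nat_lit 3581) (nat_lit 2) .dd)))) (.br (nat_lit 18) (.ch (nat_lit 17) (.ev
 (nat_lit 3568) (nat_lit 8589938690) (.ev (nat_lit 3581) (nat_lit 34359738368) .dd))) (.br (nat_lit 20) (.ch
 (nat_lit 18) (.ev (nat_lit 3568) (nat_lit 42949677058) .dd)) (.ch (nat_lit 20) (.ev (nat_lit 3568) (nat_lit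
 42949677058) .dd)))))))))))))))))) (.br (nat_lit 54) (.br (nat_lit 47) (.br (nat_lit 43) (.br (nat_lit 42)
 (.ch (nat_lit 39) (.ev (nat_lit 52) (nat_lit 404804875266) (.ev (nat_lit 1796) (nat_lit 2147483648) (.ev
 (nat_lit 3488) (nat_lit 137438953472) (.nd (nat_lit 3552) (.br (nat_lit 8) (.br (nat_lit 4) (.ch (nat_lit 1)
 (.ev (nat_lit 3568) (nat_lit 262176) .dd)) (.ch (nat_lit 4) (.ev (nat_lit 3568) (nat_lit 262176) .dd))) (.br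
 (nat_lit 12) (.ch (nat_lit 8) (.ev (nat_lit 3568) (nat_lit 262176) .dd)) (.br (nat_lit 29) (.ch (nat_lit 12)
 (.fin (nat_lit 576474496186663496))) (.ch (nat_lit 29) (.ev (nat_lit 3568) (nat_lit 262176) .dd)))))))))) (.ch
 (nat_lit 42) (.ev (nat_lit 52) (nat_lit 293135987744) (.ev (nat_lit 916) (nat_lit 34359738368) (.ev (nat_lit
 2272) (nat_lit 216895848450) .dd))))) (.br (nat_lit 44) (.ch (nat_lit 43) (.ev (nat_lit 52) (nat_lit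
 231928242176) (.ev (nat_lit 180) (nat_lit 32) (.ev (nat_lit 244) (nat_lit 2147483648) (.ev (nat_lit 372)
 (nat_lit 2) (.ev (nat_lit 884) (nat_lit 34359742464) (.ev (nat_lit 1092) (nat_lit 1073741824) (.ev (nat_lit
 2788) (nat_lit 262144) (.nd (nat_lit 3552) (.br (nat_lit 12) (.br (nat_lit 3) (.br (nat_lit 2) (.ch (nat_lit
 1) (.ev (nat_lit 3568) (nat_lit 274882102272) .dd)) (.ch (nat_lit 2) (.ev (nat_lit 3568) (nat_lit
 274882101248) (.ev (nat_lit 3581) (nat_lit 1024) .dd)))) (.br (nat_lit 8) (.ch (nat_lit 3) (.ev (nat_lit 3568)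
 (nat_lit 274882102272) .dd)) (.ch (nat_lit 8) (.ev (nat_lit 3568) (nat_lit 4194304) (.ev (nat_lit 3584)
 (nat_lit 1024) (.ev (nat_lit 3597) (nat_lit 274877906944) .dd)))))) (.br (nat_lit 17) (.br (nat_lit 16) (.ch
 (nat_lit 12) (.ev (nat_lit 3568) (nat_lit 4195328) (.ev (nat_lit 3581) (nat_lit 274877906944) .dd))) (.ch
 (nat_lit 16) (.ev (nat_lit 3568) (nat_lit 274877906944) (.fin (nat_lit 576461302078587464))))) (.br (nat_lit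
 22) (.ch (nat_lit 17) (.ev (nat_lit 3568) (nat_lit 274882102272) .dd)) (.br (nat_lit 29) (.ch (nat_lit 22)
 (.ev (nat_lit 3568) (nat_lit 274882102272) .dd)) (.ch (nat_lit 29) (.ev (nat_lit 3568) (nat_lit 4195328) (.ev
 (nat_lit 3581) (nat_lit 274877906944) .dd)))))))))))))))) (.br (nat_lit 46) (.ch (nat_lit 44) (.ev (nat_lit
 52) (nat_lit 420910994432) (.ev (nat_lit 1748) (nat_lit 34359738368) (.ev (nat_lit 2180) (nat_lit 17179869184)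
 (.ev (nat_lit 2420) (nat_lit 1073741824) (.nd (nat_lit 3552) (.br (nat_lit 16) (.br (nat_lit 12) (.ch (nat_lit
 1) (.ev (nat_lit 3568) (nat_lit 70867230754) .dd)) (.ch (nat_lit 12) (.ev (nat_lit 3568) (nat_lit 70866968578)
 (.fin (nat_lit 576474496186663496))))) (.br (nat_lit 20) (.ch (nat_lit 16) (.ev (nat_lit 3568) (nat_lit
 70867230752) (.ev (nat_lit 3581) (nat_lit 2) .dd))) (.br (nat_lit 29) (.ch (nat_lit 20) (.ev (nat_lit 3568)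
 (nat_lit 68719738914) (.ev (nat_lit 3648) (nat_lit 2147491840) .dd))) (.ch (nat_lit 29) (.ev (nat_lit 3568)
 (nat_lit 270370) (.ev (nat_lit 3600) (nat_lit 70866960384) .dd)))))))))))) (.ch (nat_lit 46) (.ev (nat_lit 52)
 (nat_lit 500363957280) (.ev (nat_lit 1092) (nat_lit 34359738368) (.ev (nat_lit 1316) (nat_lit 8589934592) (.ev
 (nat_lit 2884) (nat_lit 1073741824) (.nd (nat_lit 3552) (.br (nat_lit 13) (.br (nat_lit 7) (.br (nat_lit 4)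
 (.ch (nat_lit 2) (.ev (nat_lit 3568) (nat_lit 4202498) .dd)) (.ch (nat_lit 4) (.ev (nat_lit 3568) (nat_lit
 4202498) .dd))) (.br (nat_lit 9) (.ch (nat_lit 7) (.ev (nat_lit 3568) (nat_lit 4202498) .dd)) (.br (nat_lit
 12) (.ch (nat_lit 9) (.ev (nat_lit 3568) (nat_lit 4202498) .dd)) (.ch (nat_lit 12) (.ev (nat_lit 3568)
 (nat_lit 4202496) (.ev (nat_lit 3581) (nat_lit 2) .dd)))))) (.br (nat_lit 18) (.br (nat_lit 15) (.ch (nat_lit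
 13) (.ev (nat_lit 3568) (nat_lit 4202498) .dd)) (.br (nat_lit 17) (.ch (nat_lit 15) (.ev (nat_lit 3568)
 (nat_lit 4202498) .dd)) (.ch (nat_lit 17) (.ev (nat_lit 3568) (nat_lit 4194306) (.ev (nat_lit 3581) (nat_lit
 8192) .dd))))) (.br (nat_lit 19) (.ch (nat_lit 18) (.ev (nat_lit 3568) (nat_lit 4202498) .dd)) (.br (nat_lit
 22) (.ch (nat_lit 19) (.ev (nat_lit 3568) (nat_lit 4202498) .dd)) (.ch (nat_lit 22) (.ev (nat_lit 3568)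
 (nat_lit 2) (.fin (nat_lit 576456904004813378))))))))))))))))) (.br (nat_lit 50) (.br (nat_lit 48) (.ch
 (nat_lit 47) (.ev (nat_lit 52) (nat_lit 156766319618) (.ev (nat_lit 212) (nat_lit 8589934592) (.ev (nat_lit
 276) (nat_lit 4194304) (.ev (nat_lit 532) (nat_lit 68719476736) (.ev (nat_lit 1620) (nat_lit 34359738368) (.ev
 (nat_lit 2324) (nat_lit 274877906944) (.ev (nat_lit 2388) (nat_lit 262144) (.ev (nat_lit 2500) (nat_lit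
 1073741824) (.ev (nat_lit 2509) (nat_lit 32) .dd)))))))))) (.br (nat_lit 49) (.ch (nat_lit 48) (.ev (nat_lit
 52) (nat_lit 62281220128) (.ev (nat_lit 500) (nat_lit 262144) (.ev (nat_lit 564) (nat_lit 1024) (.ev (nat_lit
 916) (nat_lit 4096) (.ev (nat_lit 1588) (nat_lit 1073741824) (.ev (nat_lit 1956) (nat_lit 274877906944) (.ev
 (nat_lit 2596) (nat_lit 2) (.nd (nat_lit 3552) (.br (nat_lit 15) (.br (nat_lit 3) (.br (nat_lit 2) (.ch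
 (nat_lit 1) (.ev (nat_lit 3568) (nat_lit 206158438400) .dd)) (.ch (nat_lit 2) (.ev (nat_lit 3568) (nat_lit
 137438961664) (.ev (nat_lit 3581) (nat_lit 68719476736) .dd)))) (.br (nat_lit 7) (.ch (nat_lit 3) (.ev
 (nat_lit 3568) (nat_lit 68719484928) (.ev (nat_lit 3581) (nat_lit 137438953472) .dd))) (.br (nat_lit 13) (.ch
 (nat_lit 7) (.ev (nat_lit 3568) (nat_lit 68719484928) (.ev (nat_lit 3581) (nat_lit 137438953472) .dd))) (.ch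
 (nat_lit 13) (.ev (nat_lit 3568) (nat_lit 137438961664) (.ev (nat_lit 3581) (nat_lit 68719476736) .dd))))))
 (.br (nat_lit 18) (.br (nat_lit 16) (.ch (nat_lit 15) (.ev (nat_lit 3568) (nat_lit 137438961664) (.ev (nat_lit
 3581) (nat_lit 68719476736) .dd))) (.br (nat_lit 17) (.ch (nat_lit 16) (.ev (nat_lit 3568) (nat_lit
 137438961664) (.ev (nat_lit 3581) (nat_lit 68719476736) .dd))) (.ch (nat_lit 17) (.ev (nat_lit 3568) (nat_lit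
 206158438400) .dd)))) (.br (nat_lit 19) (.ch (nat_lit 18) (.ev (nat_lit 3568) (nat_lit 137438961664) (.ev
 (nat_lit 3581) (nat_lit 68719476736) .dd))) (.br (nat_lit 29) (.ch (nat_lit 19) (.ev (nat_lit 3568) (nat_lit
 206158430208) (.ev (nat_lit 3581) (nat_lit 8192) .dd))) (.ch (nat_lit 29) (.ev (nat_lit 3568) (nat_lit
 137438961664) (.ev (nat_lit 3581) (nat_lit 68719476736) .dd)))))))))))))))) (.ch (nat_lit 49) (.ev (nat_lit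
 52) (nat_lit 518617564194) (.ev (nat_lit 340) (nat_lit 8589934592) (.ev (nat_lit 660) (nat_lit 8192) (.ev
 (nat_lit 2116) (nat_lit 17179869184) (.ev (nat_lit 2516) (nat_lit 4194304) (.ev (nat_lit 2525) (nat_lit 4096)
 .dd))))))))) (.br (nat_lit 51) (.ch (nat_lit 50) (.ev (nat_lit 52) (nat_lit 441308160034) (.ev (nat_lit 756)
 (nat_lit 34359738368) (.ev (nat_lit 1588) (nat_lit 4096) (.ev (nat_lit 2896) (nat_lit 68723672064) .dd)))))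
 (.br (nat_lit 53) (.ch (nat_lit 51) (.ev (nat_lit 52) (nat_lit 285619523616) (.ev (nat_lit 436) (nat_lit 2)
 (.ev (nat_lit 640) (nat_lit 258772050944) .dd)))) (.ch (nat_lit 53) (.ev (nat_lit 52) (nat_lit 318901593120)
 (.ev (nat_lit 564) (nat_lit 137438953472) (.ev (nat_lit 1716) (nat_lit 17179869184) (.ev (nat_lit 2192)
 (nat_lit 70871158786) .dd))))))))) (.br (nat_lit 64) (.br (nat_lit 57) (.br (nat_lit 55) (.ch (nat_lit 54)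
 (.ev (nat_lit 52) (nat_lit 498216473600) (.ev (nat_lit 148) (nat_lit 2147483648) (.ev (nat_lit 1408) (nat_lit
 44027617314) .dd)))) (.ch (nat_lit 55) (.ev (nat_lit 52) (nat_lit 285619789824) (.ev (nat_lit 84) (nat_lit 32)
 (.ev (nat_lit 996) (nat_lit 68719476736) (.ev (nat_lit 1492) (nat_lit 137438953472) (.ev (nat_lit 1924)
 (nat_lit 1024) (.ev (nat_lit 1988) (nat_lit 17179869184) (.ev (nat_lit 2500) (nat_lit 34359738368) (.ev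
 (nat_lit 2660) (nat_lit 1073741824) (.nd (nat_lit 3552) (.br (nat_lit 11) (.br (nat_lit 4) (.br (nat_lit 3)
 (.ch (nat_lit 1) (.ev (nat_lit 3568) (nat_lit 2) (.ev (nat_lit 3581) (nat_lit 4096) .dd))) (.ch (nat_lit 3)
 (.ev (nat_lit 3568) (nat_lit 4098) .dd))) (.br (nat_lit 9) (.ch (nat_lit 4) (.ev (nat_lit 3568) (nat_lit 4098)
 .dd)) (.ch (nat_lit 9) (.ev (nat_lit 3568) (nat_lit 2) (.ev (nat_lit 3581) (nat_lit 4096) .dd))))) (.br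
 (nat_lit 15) (.br (nat_lit 12) (.ch (nat_lit 11) (.ev (nat_lit 3568) (nat_lit 4098) .dd)) (.ch (nat_lit 12)
 (.ev (nat_lit 3568) (nat_lit 4098) .dd))) (.br (nat_lit 18) (.ch (nat_lit 15) (.ev (nat_lit 3616) (nat_lit
 4096) (.ev (nat_lit 3629) (nat_lit 2) .dd))) (.ch (nat_lit 18) (.ev (nat_lit 3568) (nat_lit 4096) (.ev
 (nat_lit 3581) (nat_lit 2) .dd))))))))))))))))) (.br (nat_lit 58) (.ch (nat_lit 57) (.ev (nat_lit 52) (nat_lit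
 190052566018) (.ev (nat_lit 116) (nat_lit 32) (.ev (nat_lit 404) (nat_lit 2147483648) (.ev (nat_lit 468)
 (nat_lit 68719476736) (.ev (nat_lit 852) (nat_lit 8192) (.ev (nat_lit 996) (nat_lit 274877906944) (.ev
 (nat_lit 1396) (nat_lit 4194304) (.ev (nat_lit 3156) (nat_lit 8589934592) (.ev (nat_lit 3165) (nat_lit 4096)
 .dd)))))))))) (.br (nat_lit 62) (.ch (nat_lit 58) (.ev (nat_lit 52) (nat_lit 172872700960) (.ev (nat_lit 404)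
 (nat_lit 8589934592) (.ev (nat_lit 500) (nat_lit 274877906944) (.ev (nat_lit 788) (nat_lit 2) (.ev (nat_lit
 1828) (nat_lit 2147483648) (.ev (nat_lit 2388) (nat_lit 68719476736) (.ev (nat_lit 3028) (nat_lit 17179869184)
 (.nd (nat_lit 3552) (.br (nat_lit 12) (.br (nat_lit 4) (.br (nat_lit 2) (.ch (nat_lit 1) (.ev (nat_lit 3568)
 (nat_lit 8192) (.ev (nat_lit 3581) (nat_lit 4194304) .dd))) (.ch (nat_lit 2) (.ev (nat_lit 3568) (nat_lit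
 4202496) .dd))) (.br (nat_lit 6) (.ch (nat_lit 4) (.ev (nat_lit 3568) (nat_lit 4202496) .dd)) (.ch (nat_lit 6)
 (.ev (nat_lit 3568) (nat_lit 4202496) .dd)))) (.br (nat_lit 18) (.br (nat_lit 15) (.ch (nat_lit 12) (.ev
 (nat_lit 3568) (nat_lit 4202496) .dd)) (.ch (nat_lit 15) (.ev (nat_lit 3568) (nat_lit 4202496) .dd))) (.br
 (nat_lit 20) (.ch (nat_lit 18) (.ev (nat_lit 3568) (nat_lit 4202496) .dd)) (.br (nat_lit 22) (.ch (nat_lit 20)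
 (.ev (nat_lit 3568) (nat_lit 4202496) .dd)) (.ch (nat_lit 22) (.fin (nat_lit
 576456904004813378)))))))))))))))) (.ch (nat_lit 62) (.ev (nat_lit 52) (nat_lit 259849986080) (.ev (nat_lit
 1348) (nat_lit 1024) (.ev (nat_lit 2240) (nat_lit 284541587458) .dd))))))) (.br (nat_lit 68) (.br (nat_lit 65)
 (.ch (nat_lit 64) (.ev (nat_lit 52) (nat_lit 489630470146) (.ev (nat_lit 84) (nat_lit 8192) (.ev (nat_lit
 1008) (nat_lit 54761096224) .dd)))) (.br (nat_lit 67) (.ch (nat_lit 65) (.ev (nat_lit 52) (nat_lit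
 128849281058) (.ev (nat_lit 832) (nat_lit 415542293504) .dd))) (.ch (nat_lit 67) (.ev (nat_lit 52) (nat_lit
 171802898466) (.ev (nat_lit 628) (nat_lit 274877906944) (.ev (nat_lit 756) (nat_lit 17179869184) (.ev (nat_lit
 1716) (nat_lit 1073741824) (.ev (nat_lit 2692) (nat_lit 68719476736) (.nd (nat_lit 3552) (.br (nat_lit 15)
 (.br (nat_lit 6) (.br (nat_lit 4) (.ch (nat_lit 1) (.ev (nat_lit 3568) (nat_lit 2147746816) (.ev (nat_lit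
 3581) (nat_lit 8589934592) .dd))) (.ch (nat_lit 4) (.ev (nat_lit 3568) (nat_lit 10737680384) (.ev (nat_lit
 3581) (nat_lit 1024) .dd)))) (.br (nat_lit 7) (.ch (nat_lit 6) (.ev (nat_lit 3568) (nat_lit 10737681408) .dd))
 (.br (nat_lit 8) (.ch (nat_lit 7) (.ev (nat_lit 3568) (nat_lit 10737681408) .dd)) (.ch (nat_lit 8) (.ev
 (nat_lit 3568) (nat_lit 2147746816) (.ev (nat_lit 3581) (nat_lit 8589934592) .dd)))))) (.br (nat_lit 19) (.br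
 (nat_lit 17) (.ch (nat_lit 15) (.ev (nat_lit 3568) (nat_lit 8590197760) (.ev (nat_lit 3581) (nat_lit
 2147483648) .dd))) (.br (nat_lit 18) (.ch (nat_lit 17) (.ev (nat_lit 3568) (nat_lit 8590197760) (.ev (nat_lit
 3581) (nat_lit 2147483648) .dd))) (.ch (nat_lit 18) (.ev (nat_lit 3568) (nat_lit 10737681408) .dd)))) (.br
 (nat_lit 20) (.ch (nat_lit 19) (.ev (nat_lit 3568) (nat_lit 2147746816) (.ev (nat_lit 3581) (nat_lit
 8589934592) .dd))) (.br (nat_lit 22) (.ch (nat_lit 20) (.ev (nat_lit 3568) (nat_lit 8590197760) (.ev (nat_lit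
 3581) (nat_lit 2147483648) .dd))) (.ch (nat_lit 22) (.ev (nat_lit 3568) (nat_lit 8589935616) (.ev (nat_lit
 3664) (nat_lit 262144) (.ev (nat_lit 3677) (nat_lit 2147483648) .dd))))))))))))))))) (.br (nat_lit 69) (.ch
 (nat_lit 68) (.ev (nat_lit 52) (nat_lit 242669847586) (.ev (nat_lit 468) (nat_lit 262144) (.ev (nat_lit 1620)
 (nat_lit 18253611008) (.ev (nat_lit 1860) (nat_lit 8589934592) (.ev (nat_lit 2356) (nat_lit 8192) (.ev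
 (nat_lit 2500) (nat_lit 4096) (.ev (nat_lit 2509) (nat_lit 274877906944) .dd)))))))) (.br (nat_lit 70) (.ch
 (nat_lit 69) (.ev (nat_lit 52) (nat_lit 369371390978) (.ev (nat_lit 1376) (nat_lit 175020183584) .dd))) (.ch
 (nat_lit 70) (.ev (nat_lit 52) (nat_lit 386551255074) (.ev (nat_lit 1104) (nat_lit 157840319488)
 .dd)))))))))))

/-- Subtrie. -/
noncomputable def T19 : Tr := (.ev (nat_lit 20) (nat_lit 825781269122) (.nd (nat_lit 33) (.br (nat_lit 39) (.br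
 (nat_lit 19) (.br (nat_lit 8) (.br (nat_lit 4) (.br (nat_lit 3) (.ch (nat_lit 1) (.ev (nat_lit 52) (nat_lit
 4400227550528) (.ev (nat_lit 212) (nat_lit 16) (.ev (nat_lit 1696) (nat_lit 266287972384) .dd)))) (.ch
 (nat_lit 3) (.ev (nat_lit 52) (nat_lit 4483979412752) (.ev (nat_lit 916) (nat_lit 34359738368) (.ev (nat_lit
 1092) (nat_lit 137438953472) (.ev (nat_lit 3092) (nat_lit 2147483648) (.ev (nat_lit 3440) (nat_lit 8589934592)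
 (.nd (nat_lit 3552) (.br (nat_lit 18) (.br (nat_lit 14) (.ch (nat_lit 10) (.ev (nat_lit 3568) (nat_lit 96)
 .dd)) (.ch (nat_lit 14) (.ev (nat_lit 3568) (nat_lit 32) (.ev (nat_lit 3581) (nat_lit 64) .dd)))) (.br
 (nat_lit 21) (.ch (nat_lit 18) (.ev (nat_lit 3568) (nat_lit 96) .dd)) (.br (nat_lit 24) (.ch (nat_lit 21) (.ev
 (nat_lit 3568) (nat_lit 64) (.ev (nat_lit 3581) (nat_lit 32) .dd))) (.ch (nat_lit 24) (.ev (nat_lit 3568)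
 (nat_lit 96) .dd))))))))))))) (.br (nat_lit 5) (.ch (nat_lit 4) (.ev (nat_lit 52) (nat_lit 197568496752) (.ev
 (nat_lit 1396) (nat_lit 256) (.ev (nat_lit 2640) (nat_lit 4468947025920) .dd)))) (.br (nat_lit 7) (.ch
 (nat_lit 5) (.ev (nat_lit 52) (nat_lit 4451733602624) (.ev (nat_lit 884) (nat_lit 32) (.ev (nat_lit 1568)
 (nat_lit 214781920272) .dd)))) (.ch (nat_lit 7) (.ev (nat_lit 52) (nat_lit 4441029738848) (.ev (nat_lit 1028)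
 (nat_lit 68719476736) (.ev (nat_lit 2160) (nat_lit 156766307344) .dd))))))) (.br (nat_lit 15) (.br (nat_lit
 11) (.ch (nat_lit 8) (.ev (nat_lit 52) (nat_lit 4408783930656) (.ev (nat_lit 116) (nat_lit 33554432) (.ev
 (nat_lit 1588) (nat_lit 137438953472) (.ev (nat_lit 2260) (nat_lit 68719476736) (.ev (nat_lit 3380) (nat_lit
 17179869184) (.nd (nat_lit 3552) (.br (nat_lit 12) (.br (nat_lit 7) (.br (nat_lit 5) (.ch (nat_lit 4) (.ev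
 (nat_lit 3568) (nat_lit 64) (.ev (nat_lit 3600) (nat_lit 34359738384) .dd))) (.ch (nat_lit 5) (.ev (nat_lit
 3568) (nat_lit 34359738384) (.ev (nat_lit 3581) (nat_lit 64) .dd)))) (.br (nat_lit 10) (.ch (nat_lit 7) (.ev
 (nat_lit 3568) (nat_lit 34359738432) (.ev (nat_lit 3581) (nat_lit 16) .dd))) (.ch (nat_lit 10) (.ev (nat_lit
 3568) (nat_lit 34359738448) .dd)))) (.br (nat_lit 16) (.br (nat_lit 15) (.ch (nat_lit 12) (.ev (nat_lit 3568)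
 (nat_lit 80) (.ev (nat_lit 3581) (nat_lit 34359738368) .dd))) (.ch (nat_lit 15) (.ev (nat_lit 3568) (nat_lit
 34359738432) (.ev (nat_lit 3581) (nat_lit 16) .dd)))) (.br (nat_lit 20) (.ch (nat_lit 16) (.ev (nat_lit 3568)
 (nat_lit 34359738448) .dd)) (.br (nat_lit 24) (.ch (nat_lit 20) (.ev (nat_lit 3568) (nat_lit 80) (.ev (nat_lit
 3581) (nat_lit 34359738368) .dd))) (.ch (nat_lit 24) (.ev (nat_lit 3568) (nat_lit 34359738384) (.ev (nat_lit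
 3581) (nat_lit 64) .dd)))))))))))))) (.br (nat_lit 12) (.ch (nat_lit 11) (.ev (nat_lit 52) (nat_lit
 4612794877280) (.ev (nat_lit 276) (nat_lit 17179869184) (.ev (nat_lit 1284) (nat_lit 2147483648) (.ev (nat_lit
 1748) (nat_lit 34359738368) (.nd (nat_lit 3552) (.br (nat_lit 14) (.br (nat_lit 10) (.br (nat_lit 7) (.ch
 (nat_lit 4) (.ev (nat_lit 3568) (nat_lit 33554432) (.ev (nat_lit 3581) (nat_lit 16) .dd))) (.ch (nat_lit 7)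
 (.ev (nat_lit 3568) (nat_lit 33554432) (.ev (nat_lit 3581) (nat_lit 16) .dd)))) (.br (nat_lit 12) (.ch
 (nat_lit 10) (.ev (nat_lit 3584) (nat_lit 33554432) (.ev (nat_lit 3597) (nat_lit 16) .dd))) (.br (nat_lit 13)
 (.ch (nat_lit 12) (.ev (nat_lit 3568) (nat_lit 33554448) .dd)) (.ch (nat_lit 13) (.ev (nat_lit 3568) (nat_lit
 33554448) .dd))))) (.br (nat_lit 19) (.br (nat_lit 17) (.ch (nat_lit 14) (.ev (nat_lit 3568) (nat_lit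
 33554432) (.ev (nat_lit 3581) (nat_lit 16) .dd))) (.br (nat_lit 18) (.ch (nat_lit 17) (.ev (nat_lit 3568)
 (nat_lit 33554448) .dd)) (.ch (nat_lit 18) (.ev (nat_lit 3632) (nat_lit 33554432) (.ev (nat_lit 3645) (nat_lit
 16) .dd))))) (.br (nat_lit 20) (.ch (nat_lit 19) (.ev (nat_lit 3568) (nat_lit 33554448) .dd)) (.br (nat_lit
 24) (.ch (nat_lit 20) (.ev (nat_lit 3568) (nat_lit 33554432) (.ev (nat_lit 3581) (nat_lit 16) .dd))) (.ch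
 (nat_lit 24) (.ev (nat_lit 3568) (nat_lit 33554448) .dd)))))))))))) (.ch (nat_lit 12) (.ev (nat_lit 52)
 (nat_lit 4441029738512) (.ev (nat_lit 884) (nat_lit 1024) (.ev (nat_lit 916) (nat_lit 137438953472) (.ev
 (nat_lit 1028) (nat_lit 256) (.ev (nat_lit 1988) (nat_lit 64) (.nd (nat_lit 3552) (.br (nat_lit 16) (.br
 (nat_lit 10) (.br (nat_lit 8) (.ch (nat_lit 3) (.ev (nat_lit 3568) (nat_lit 70866960416) (.ev (nat_lit 3581)
 (nat_lit 17179869184) .dd))) (.ch (nat_lit 8) (.ev (nat_lit 3568) (nat_lit 19327352864) (.ev (nat_lit 3581)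
 (nat_lit 68719476736) .dd)))) (.br (nat_lit 13) (.ch (nat_lit 10) (.ev (nat_lit 3568) (nat_lit 88046829568)
 (.ev (nat_lit 3581) (nat_lit 32) .dd))) (.ch (nat_lit 13) (.ev (nat_lit 3568) (nat_lit 88046829600) .dd))))
 (.br (nat_lit 21) (.br (nat_lit 18) (.ch (nat_lit 16) (.ev (nat_lit 3568) (nat_lit 70866960416) (.ev (nat_lit
 3581) (nat_lit 17179869184) .dd))) (.ch (nat_lit 18) (.ev (nat_lit 3568) (nat_lit 19327352864) (.ev (nat_lit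
 3581) (nat_lit 68719476736) .dd)))) (.br (nat_lit 22) (.ch (nat_lit 21) (.ev (nat_lit 3568) (nat_lit
 88046829568) (.ev (nat_lit 3581) (nat_lit 32) .dd))) (.br (nat_lit 26) (.ch (nat_lit 22) (.ev (nat_lit 3568)
 (nat_lit 85899345952) (.ev (nat_lit 3581) (nat_lit 2147483648) .dd))) (.ch (nat_lit 26) (.ev (nat_lit 3568)
 (nat_lit 88046829600) .dd))))))))))))))) (.br (nat_lit 16) (.ch (nat_lit 15) (.ev (nat_lit 52) (nat_lit
 4415226381584) (.ev (nat_lit 84) (nat_lit 68719476736) (.ev (nat_lit 276) (nat_lit 33554432) (.ev (nat_lit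
 500) (nat_lit 8589934592) (.ev (nat_lit 1588) (nat_lit 32) (.ev (nat_lit 2116) (nat_lit 34359738368) (.ev
 (nat_lit 2420) (nat_lit 64) (.nd (nat_lit 3552) (.br (nat_lit 15) (.br (nat_lit 8) (.br (nat_lit 5) (.ch
 (nat_lit 3) (.ev (nat_lit 3568) (nat_lit 139586437120) .dd)) (.ch (nat_lit 5) (.ev (nat_lit 3632) (nat_lit
 137438953472) (.ev (nat_lit 3645) (nat_lit 2147483648) .dd)))) (.br (nat_lit 12) (.ch (nat_lit 8) (.ev
 (nat_lit 3584) (nat_lit 137438953472) (.ev (nat_lit 3597) (nat_lit 2147483648) .dd))) (.br (nat_lit 13) (.ch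
 (nat_lit 12) (.ev (nat_lit 3568) (nat_lit 137438953472) (.ev (nat_lit 3581) (nat_lit 2147483648) .dd))) (.ch
 (nat_lit 13) (.ev (nat_lit 3568) (nat_lit 137438953472) (.ev (nat_lit 3581) (nat_lit 2147483648) .dd))))))
 (.br (nat_lit 22) (.br (nat_lit 17) (.ch (nat_lit 15) (.ev (nat_lit 3568) (nat_lit 139586437120) .dd)) (.br
 (nat_lit 18) (.ch (nat_lit 17) (.ev (nat_lit 3568) (nat_lit 139586437120) .dd)) (.ch (nat_lit 18) (.ev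
 (nat_lit 3568) (nat_lit 137438953472) (.ev (nat_lit 3581) (nat_lit 2147483648) .dd))))) (.br (nat_lit 24) (.ch
 (nat_lit 22) (.ev (nat_lit 3568) (nat_lit 137438953472) (.ev (nat_lit 3581) (nat_lit 2147483648) .dd))) (.br
 (nat_lit 26) (.ch (nat_lit 24) (.ev (nat_lit 3568) (nat_lit 139586437120) .dd)) (.ch (nat_lit 26) (.ev
 (nat_lit 3568) (nat_lit 139586437120) .dd))))))))))))))) (.br (nat_lit 18) (.ch (nat_lit 16) (.ev (nat_lit 52)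
 (nat_lit 4537666503984) (.ev (nat_lit 1968) (nat_lit 128849018944) .dd))) (.ch (nat_lit 18) (.ev (nat_lit 52)
 (nat_lit 4535519019376) (.ev (nat_lit 564) (nat_lit 2147483648) (.ev (nat_lit 1028) (nat_lit 17179869184) (.ev
 (nat_lit 1988) (nat_lit 34359738368) (.ev (nat_lit 2864) (nat_lit 77309412352) .dd)))))))))) (.br (nat_lit 29)
 (.br (nat_lit 23) (.br (nat_lit 22) (.ch (nat_lit 19) (.ev (nat_lit 52) (nat_lit 4451733603664) (.ev (nat_lit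
 180) (nat_lit 33554432) (.ev (nat_lit 852) (nat_lit 68719476736) (.ev (nat_lit 2420) (nat_lit 32) (.nd
 (nat_lit 3552) (.br (nat_lit 13) (.br (nat_lit 7) (.br (nat_lit 5) (.ch (nat_lit 3) (.ev (nat_lit 3568)
 (nat_lit 137438953472) (.ev (nat_lit 3581) (nat_lit 8589934592) .dd))) (.ch (nat_lit 5) (.ev (nat_lit 3568)
 (nat_lit 146028888064) .dd))) (.br (nat_lit 8) (.ch (nat_lit 7) (.ev (nat_lit 3568) (nat_lit 137438953472)
 (.ev (nat_lit 3581) (nat_lit 8589934592) .dd))) (.br (nat_lit 10) (.ch (nat_lit 8) (.ev (nat_lit 3568)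
 (nat_lit 146028888064) .dd)) (.ch (nat_lit 10) (.ev (nat_lit 3568) (nat_lit 137438953472) (.ev (nat_lit 3581)
 (nat_lit 8589934592) .dd)))))) (.br (nat_lit 21) (.br (nat_lit 14) (.ch (nat_lit 13) (.ev (nat_lit 3568)
 (nat_lit 146028888064) .dd)) (.br (nat_lit 18) (.ch (nat_lit 14) (.ev (nat_lit 3568) (nat_lit 8589934592) (.ev
 (nat_lit 3581) (nat_lit 137438953472) .dd))) (.ch (nat_lit 18) (.ev (nat_lit 3568) (nat_lit 8589934592) (.ev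
 (nat_lit 3581) (nat_lit 137438953472) .dd))))) (.br (nat_lit 24) (.ch (nat_lit 21) (.ev (nat_lit 3568)
 (nat_lit 146028888064) .dd)) (.br (nat_lit 26) (.ch (nat_lit 24) (.ev (nat_lit 3568) (nat_lit 146028888064)
 .dd)) (.ch (nat_lit 26) (.ev (nat_lit 3568) (nat_lit 146028888064) .dd)))))))))))) (.ch (nat_lit 22) (.ev
 (nat_lit 52) (nat_lit 4443143667776) (.ev (nat_lit 660) (nat_lit 256) (.ev (nat_lit 1124) (nat_lit
 68719476736) (.ev (nat_lit 1652) (nat_lit 17213423616) (.ev (nat_lit 1716) (nat_lit 1024) (.ev (nat_lit 2180)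
 (nat_lit 137438953472) (.nd (nat_lit 3552) (.br (nat_lit 20) (.br (nat_lit 17) (.ch (nat_lit 4) (.ev (nat_lit
 3568) (nat_lit 48) .dd)) (.ch (nat_lit 17) (.ev (nat_lit 3568) (nat_lit 48) .dd))) (.br (nat_lit 21) (.ch
 (nat_lit 20) (.ev (nat_lit 3632) (nat_lit 32) (.ev (nat_lit 3645) (nat_lit 16) .dd))) (.br (nat_lit 26) (.ch
 (nat_lit 21) (.ev (nat_lit 3568) (nat_lit 16) (.ev (nat_lit 3581) (nat_lit 32) .dd))) (.ch (nat_lit 26) (.ev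
 (nat_lit 3568) (nat_lit 48) .dd)))))))))))))) (.br (nat_lit 24) (.ch (nat_lit 23) (.ev (nat_lit 52) (nat_lit
 268435457136) (.ev (nat_lit 1652) (nat_lit 256) (.ev (nat_lit 3280) (nat_lit 4398080065536) .dd)))) (.br
 (nat_lit 26) (.ch (nat_lit 24) (.ev (nat_lit 52) (nat_lit 182569664768) (.ev (nat_lit 1316) (nat_lit
 4398046511104) (.ev (nat_lit 2052) (nat_lit 68719476736) (.ev (nat_lit 2356) (nat_lit 17179869184) (.nd
 (nat_lit 3552) (.br (nat_lit 16) (.br (nat_lit 13) (.br (nat_lit 8) (.ch (nat_lit 4) (.ev (nat_lit 3568)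
 (nat_lit 1072) (.ev (nat_lit 3581) (nat_lit 64) .dd))) (.ch (nat_lit 8) (.ev (nat_lit 3568) (nat_lit 80) (.fin
 (nat_lit 576464600590402111))))) (.br (nat_lit 14) (.ch (nat_lit 13) (.ev (nat_lit 3568) (nat_lit 48) (.ev
 (nat_lit 3616) (nat_lit 64) (.ev (nat_lit 3629) (nat_lit 1024) .dd)))) (.ch (nat_lit 14) (.ev (nat_lit 3568)
 (nat_lit 1088) (.ev (nat_lit 3648) (nat_lit 32) (.ev (nat_lit 3661) (nat_lit 16) .dd)))))) (.br (nat_lit 20)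
 (.br (nat_lit 19) (.ch (nat_lit 16) (.ev (nat_lit 3568) (nat_lit 1136) .dd)) (.ch (nat_lit 19) (.ev (nat_lit
 3568) (nat_lit 1136) .dd))) (.br (nat_lit 22) (.ch (nat_lit 20) (.ev (nat_lit 3568) (nat_lit 1136) .dd)) (.br
 (nat_lit 26) (.ch (nat_lit 22) (.ev (nat_lit 3568) (nat_lit 1072) (.ev (nat_lit 3581) (nat_lit 64) .dd))) (.ch
 (nat_lit 26) (.ev (nat_lit 3568) (nat_lit 1120) (.ev (nat_lit 3581) (nat_lit 16) .dd))))))))))))) (.ch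
 (nat_lit 26) (.ev (nat_lit 52) (nat_lit 4460323536976) (.ev (nat_lit 916) (nat_lit 32) (.ev (nat_lit 1748)
 (nat_lit 137438953472) (.ev (nat_lit 2480) (nat_lit 68753032448) .dd)))))))) (.br (nat_lit 34) (.br (nat_lit
 31) (.ch (nat_lit 29) (.ev (nat_lit 52) (nat_lit 180422182176) (.ev (nat_lit 724) (nat_lit 16) (.ev (nat_lit
 2096) (nat_lit 4486093340736) .dd)))) (.br (nat_lit 33) (.ch (nat_lit 31) (.ev (nat_lit 52) (nat_lit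
 51573162304) (.ev (nat_lit 800) (nat_lit 4614942360624) .dd))) (.ch (nat_lit 33) (.ev (nat_lit 52) (nat_lit
 4638564679776) (.ev (nat_lit 1348) (nat_lit 2147483648) (.ev (nat_lit 1556) (nat_lit 17179869184) (.ev
 (nat_lit 2564) (nat_lit 16) (.nd (nat_lit 3552) (.br (nat_lit 15) (.br (nat_lit 8) (.br (nat_lit 5) (.ch
 (nat_lit 3) (.ev (nat_lit 3568) (nat_lit 33555712) (.ev (nat_lit 3581) (nat_lit 8589934592) .dd))) (.ch
 (nat_lit 5) (.ev (nat_lit 3568) (nat_lit 8623490304) .dd))) (.br (nat_lit 13) (.ch (nat_lit 8) (.ev (nat_lit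
 3568) (nat_lit 8589935872) (.ev (nat_lit 3581) (nat_lit 33554432) .dd))) (.br (nat_lit 14) (.ch (nat_lit 13)
 (.ev (nat_lit 3568) (nat_lit 8623490304) .dd)) (.ch (nat_lit 14) (.ev (nat_lit 3568) (nat_lit 8623490304)
 .dd))))) (.br (nat_lit 18) (.br (nat_lit 16) (.ch (nat_lit 15) (.ev (nat_lit 3568) (nat_lit 8623489280) (.ev
 (nat_lit 3581) (nat_lit 1024) .dd))) (.br (nat_lit 17) (.ch (nat_lit 16) (.ev (nat_lit 3568) (nat_lit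
 8589935872) (.ev (nat_lit 3581) (nat_lit 33554432) .dd))) (.ch (nat_lit 17) (.ev (nat_lit 3568) (nat_lit
 8623490304) .dd)))) (.br (nat_lit 22) (.ch (nat_lit 18) (.ev (nat_lit 3568) (nat_lit 8623490048) (.ev (nat_lit
 3581) (nat_lit 256) .dd))) (.br (nat_lit 24) (.ch (nat_lit 22) (.ev (nat_lit 3568) (nat_lit 8623490304) .dd))
 (.ch (nat_lit 24) (.ev (nat_lit 3568) (nat_lit 8623490304) .dd)))))))))))))) (.br (nat_lit 36) (.ch (nat_lit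
 34) (.ev (nat_lit 52) (nat_lit 251255586832) (.ev (nat_lit 864) (nat_lit 4415259936096) .dd))) (.br (nat_lit
 38) (.ch (nat_lit 36) (.ev (nat_lit 52) (nat_lit 4612794876976) (.ev (nat_lit 1124) (nat_lit 17179869184) (.ev
 (nat_lit 2128) (nat_lit 36540776768) .dd)))) (.ch (nat_lit 38) (.ev (nat_lit 52) (nat_lit 4606352426288) (.ev
 (nat_lit 756) (nat_lit 64) (.ev (nat_lit 2532) (nat_lit 33554432) (.ev (nat_lit 2980) (nat_lit 34359738368)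
 (.ev (nat_lit 3328) (nat_lit 25769803776) .dd))))))))))) (.br (nat_lit 54) (.br (nat_lit 47) (.br (nat_lit 43)
 (.br (nat_lit 42) (.ch (nat_lit 39) (.ev (nat_lit 52) (nat_lit 128882574336) (.ev (nat_lit 340) (nat_lit
 4398046511104) (.ev (nat_lit 1728) (nat_lit 139586437488) .dd)))) (.ch (nat_lit 42) (.ev (nat_lit 52) (nat_lit
 4415259935840) (.ev (nat_lit 1072) (nat_lit 251255587088) .dd)))) (.br (nat_lit 44) (.ch (nat_lit 43) (.ev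
 (nat_lit 52) (nat_lit 4630008299856) (.ev (nat_lit 756) (nat_lit 32) (.ev (nat_lit 1620) (nat_lit 34359738368)
 (.ev (nat_lit 1748) (nat_lit 1024) (.ev (nat_lit 1757) (nat_lit 2147483648) .dd)))))) (.br (nat_lit 46) (.ch
 (nat_lit 44) (.ev (nat_lit 52) (nat_lit 146062443856) (.ev (nat_lit 180) (nat_lit 68719476736) (.ev (nat_lit
 436) (nat_lit 2147483648) (.ev (nat_lit 820) (nat_lit 32) (.ev (nat_lit 2148) (nat_lit 34359738368) (.nd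
 (nat_lit 3552) (.br (nat_lit 15) (.br (nat_lit 12) (.br (nat_lit 8) (.ch (nat_lit 4) (.ev (nat_lit 3568)
 (nat_lit 4398046511104) (.ev (nat_lit 3581) (nat_lit 17179869184) .dd))) (.ch (nat_lit 8) (.ev (nat_lit 3568)
 (nat_lit 4415226380288) .dd))) (.br (nat_lit 13) (.ch (nat_lit 12) (.ev (nat_lit 3568) (nat_lit 17179869184)
 (.ev (nat_lit 3581) (nat_lit 4398046511104) .dd))) (.br (nat_lit 14) (.ch (nat_lit 13) (.ev (nat_lit 3568)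
 (nat_lit 4415226380288) .dd)) (.ch (nat_lit 14) (.ev (nat_lit 3568) (nat_lit 4415226380288) .dd))))) (.br
 (nat_lit 19) (.br (nat_lit 16) (.ch (nat_lit 15) (.ev (nat_lit 3568) (nat_lit 4415226380288) .dd)) (.br
 (nat_lit 18) (.ch (nat_lit 16) (.ev (nat_lit 3568) (nat_lit 4415226380288) .dd)) (.ch (nat_lit 18) (.ev
 (nat_lit 3568) (nat_lit 4398046511104) (.ev (nat_lit 3581) (nat_lit 17179869184) .dd))))) (.br (nat_lit 21)
 (.ch (nat_lit 19) (.ev (nat_lit 3568) (nat_lit 4415226380288) .dd)) (.br (nat_lit 26) (.ch (nat_lit 21) (.ev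
 (nat_lit 3568) (nat_lit 17179869184) (.ev (nat_lit 3581) (nat_lit 4398046511104) .dd))) (.ch (nat_lit 26) (.ev
 (nat_lit 3568) (nat_lit 17179869184) (.ev (nat_lit 3581) (nat_lit 4398046511104) .dd)))))))))))))) (.ch
 (nat_lit 46) (.ev (nat_lit 52) (nat_lit 225485784096) (.ev (nat_lit 948) (nat_lit 8589934592) (.ev (nat_lit
 1156) (nat_lit 256) (.ev (nat_lit 2356) (nat_lit 33554432) (.nd (nat_lit 3552) (.br (nat_lit 13) (.br (nat_lit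
 8) (.br (nat_lit 7) (.ch (nat_lit 4) (.ev (nat_lit 3568) (nat_lit 4432406249536) (.ev (nat_lit 3581) (nat_lit
 16) .dd))) (.ch (nat_lit 7) (.ev (nat_lit 3568) (nat_lit 34359738448) (.ev (nat_lit 3581) (nat_lit
 4398046511104) .dd)))) (.br (nat_lit 10) (.ch (nat_lit 8) (.ev (nat_lit 3568) (nat_lit 4432406249536) (.ev
 (nat_lit 3581) (nat_lit 16) .dd))) (.br (nat_lit 12) (.ch (nat_lit 10) (.ev (nat_lit 3568) (nat_lit
 4432406249552) .dd)) (.ch (nat_lit 12) (.ev (nat_lit 3568) (nat_lit 34359738448) (.ev (nat_lit 3581) (nat_lit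
 4398046511104) .dd)))))) (.br (nat_lit 18) (.br (nat_lit 14) (.ch (nat_lit 13) (.ev (nat_lit 3568) (nat_lit
 4432406249488) (.ev (nat_lit 3581) (nat_lit 64) .dd))) (.br (nat_lit 17) (.ch (nat_lit 14) (.ev (nat_lit 3568)
 (nat_lit 4432406249536) (.ev (nat_lit 3581) (nat_lit 16) .dd))) (.ch (nat_lit 17) (.ev (nat_lit 3568) (nat_lit
 4432406249552) .dd)))) (.br (nat_lit 19) (.ch (nat_lit 18) (.ev (nat_lit 3568) (nat_lit 4398046511168) (.ev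
 (nat_lit 3664) (nat_lit 34359738368) (.ev (nat_lit 3677) (nat_lit 16) .dd)))) (.br (nat_lit 21) (.ch (nat_lit
 19) (.ev (nat_lit 3568) (nat_lit 4432406249552) .dd)) (.ch (nat_lit 21) (.ev (nat_lit 3568) (nat_lit
 34359738448) (.ev (nat_lit 3581) (nat_lit 4398046511104) .dd)))))))))))))))) (.br (nat_lit 50) (.br (nat_lit
 48) (.ch (nat_lit 47) (.ev (nat_lit 52) (nat_lit 156766307584) (.ev (nat_lit 212) (nat_lit 4398046511104) (.ev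
 (nat_lit 884) (nat_lit 34359738368) (.ev (nat_lit 2020) (nat_lit 8589934592) (.ev (nat_lit 2148) (nat_lit 64)
 (.ev (nat_lit 2260) (nat_lit 33554432) (.nd (nat_lit 3552) (.br (nat_lit 12) (.br (nat_lit 5) (.br (nat_lit 4)
 (.ch (nat_lit 3) (.ev (nat_lit 3568) (nat_lit 48) (.ev (nat_lit 3581) (nat_lit 68719476736) .dd))) (.ch
 (nat_lit 4) (.ev (nat_lit 3568) (nat_lit 68719476736) (.ev (nat_lit 3584) (nat_lit 16) (.ev (nat_lit 3597)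
 (nat_lit 32) .dd))))) (.br (nat_lit 10) (.ch (nat_lit 5) (.ev (nat_lit 3568) (nat_lit 48) (.ev (nat_lit 3581)
 (nat_lit 68719476736) .dd))) (.ch (nat_lit 10) (.ev (nat_lit 3568) (nat_lit 68719476784) .dd)))) (.br (nat_lit
 17) (.br (nat_lit 16) (.ch (nat_lit 12) (.ev (nat_lit 3568) (nat_lit 68719476784) .dd)) (.ch (nat_lit 16) (.ev
 (nat_lit 3568) (nat_lit 68719476784) .dd))) (.br (nat_lit 19) (.ch (nat_lit 17) (.ev (nat_lit 3568) (nat_lit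
 68719476784) .dd)) (.br (nat_lit 26) (.ch (nat_lit 19) (.ev (nat_lit 3568) (nat_lit 68719476784) .dd)) (.ch
 (nat_lit 26) (.ev (nat_lit 3568) (nat_lit 68719476784) .dd)))))))))))))) (.br (nat_lit 49) (.ch (nat_lit 48)
 (.ev (nat_lit 52) (nat_lit 62310580336) (.ev (nat_lit 1428) (nat_lit 68719476736) (.ev (nat_lit 1716) (nat_lit
 137438953472) (.nd (nat_lit 3552) (.br (nat_lit 17) (.br (nat_lit 7) (.br (nat_lit 4) (.ch (nat_lit 3) (.ev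
 (nat_lit 3568) (nat_lit 4398046512384) .dd)) (.ch (nat_lit 4) (.ev (nat_lit 3568) (nat_lit 4398046512384)
 .dd))) (.br (nat_lit 15) (.ch (nat_lit 7) (.ev (nat_lit 3568) (nat_lit 4398046512384) .dd)) (.ch (nat_lit 15)
 (.ev (nat_lit 3568) (nat_lit 4398046512384) .dd)))) (.br (nat_lit 21) (.br (nat_lit 20) (.ch (nat_lit 17) (.ev
 (nat_lit 3568) (nat_lit 4398046512384) .dd)) (.ch (nat_lit 20) (.ev (nat_lit 3568) (nat_lit 4398046511360)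
 (.ev (nat_lit 3581) (nat_lit 1024) .dd)))) (.br (nat_lit 22) (.ch (nat_lit 21) (.ev (nat_lit 3568) (nat_lit
 4398046512384) .dd)) (.br (nat_lit 24) (.ch (nat_lit 22) (.ev (nat_lit 3568) (nat_lit 1024) (.ev (nat_lit
 3584) (nat_lit 4398046511104) (.ev (nat_lit 3597) (nat_lit 256) .dd)))) (.ch (nat_lit 24) (.ev (nat_lit 3568)
 (nat_lit 4398046511360) (.ev (nat_lit 3581) (nat_lit 1024) .dd)))))))))))) (.ch (nat_lit 49) (.ev (nat_lit 52)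
 (nat_lit 4640712164640) (.ev (nat_lit 852) (nat_lit 33554432) (.ev (nat_lit 2960) (nat_lit 25769803840) (.ev
 (nat_lit 2973) (nat_lit 16) .dd))))))) (.br (nat_lit 51) (.ch (nat_lit 50) (.ev (nat_lit 52) (nat_lit
 165389795360) (.ev (nat_lit 308) (nat_lit 4398046511104) (.ev (nat_lit 1092) (nat_lit 64) (.ev (nat_lit 2400)
 (nat_lit 103079216400) .dd))))) (.br (nat_lit 53) (.ch (nat_lit 51) (.ev (nat_lit 52) (nat_lit 10770972768)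
 (.ev (nat_lit 736) (nat_lit 4655744550160) .dd))) (.ch (nat_lit 53) (.ev (nat_lit 52) (nat_lit 4440996185456)
 (.ev (nat_lit 84) (nat_lit 17179869184) (.ev (nat_lit 116) (nat_lit 68719476736) (.ev (nat_lit 756) (nat_lit
 137438953472) (.ev (nat_lit 2212) (nat_lit 33554432) (.ev (nat_lit 2221) (nat_lit 2147483648) .dd)))))))))))
 (.br (nat_lit 64) (.br (nat_lit 57) (.br (nat_lit 55) (.ch (nat_lit 54) (.ev (nat_lit 52) (nat_lit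
 223338300688) (.ev (nat_lit 996) (nat_lit 8589934592) (.ev (nat_lit 2500) (nat_lit 32) (.ev (nat_lit 2612)
 (nat_lit 2147483648) (.ev (nat_lit 3520) (nat_lit 4398046511104) (.nd (nat_lit 3552) (.br (nat_lit 13) (.br
 (nat_lit 10) (.br (nat_lit 8) (.ch (nat_lit 4) (.ev (nat_lit 3568) (nat_lit 34393292864) .dd)) (.ch (nat_lit
 8) (.ev (nat_lit 3568) (nat_lit 34359738368) (.ev (nat_lit 3584) (nat_lit 64) (.ev (nat_lit 3597) (nat_lit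
 33554432) .dd))))) (.br (nat_lit 12) (.ch (nat_lit 10) (.ev (nat_lit 3568) (nat_lit 34359738432) (.ev (nat_lit
 3581) (nat_lit 33554432) .dd))) (.ch (nat_lit 12) (.ev (nat_lit 3568) (nat_lit 34393292864) .dd)))) (.br
 (nat_lit 17) (.br (nat_lit 16) (.ch (nat_lit 13) (.ev (nat_lit 3568) (nat_lit 34393292864) .dd)) (.ch (nat_lit
 16) (.ev (nat_lit 3568) (nat_lit 33554496) (.ev (nat_lit 3581) (nat_lit 34359738368) .dd)))) (.br (nat_lit 20)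
 (.ch (nat_lit 17) (.ev (nat_lit 3568) (nat_lit 34393292800) (.ev (nat_lit 3581) (nat_lit 64) .dd))) (.br
 (nat_lit 26) (.ch (nat_lit 20) (.ev (nat_lit 3568) (nat_lit 34393292864) .dd)) (.ch (nat_lit 26) (.ev (nat_lit
 3568) (nat_lit 64) (.ev (nat_lit 3584) (nat_lit 34393292800) .dd)))))))))))))) (.ch (nat_lit 55) (.ev (nat_lit
 52) (nat_lit 10770973008) (.ev (nat_lit 660) (nat_lit 68719476736) (.ev (nat_lit 820) (nat_lit 137438953472)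
 (.ev (nat_lit 1156) (nat_lit 17179869184) (.nd (nat_lit 3552) (.br (nat_lit 13) (.br (nat_lit 5) (.br (nat_lit
 4) (.ch (nat_lit 3) (.ev (nat_lit 3568) (nat_lit 34359739424) (.ev (nat_lit 3581) (nat_lit 4398046511104)
 .dd))) (.ch (nat_lit 4) (.ev (nat_lit 3568) (nat_lit 4432406250496) (.ev (nat_lit 3581) (nat_lit 32) .dd))))
 (.br (nat_lit 7) (.ch (nat_lit 5) (.ev (nat_lit 3568) (nat_lit 4398046512128) (.ev (nat_lit 3584) (nat_lit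
 34359738400) .dd))) (.br (nat_lit 8) (.ch (nat_lit 7) (.ev (nat_lit 3568) (nat_lit 4432406249504) (.ev
 (nat_lit 3581) (nat_lit 1024) .dd))) (.ch (nat_lit 8) (.ev (nat_lit 3568) (nat_lit 4432406249472) (.fin
 (nat_lit 576464600590402111))))))) (.br (nat_lit 21) (.br (nat_lit 14) (.ch (nat_lit 13) (.ev (nat_lit 3568)
 (nat_lit 4398046511104) (.ev (nat_lit 3584) (nat_lit 34359738368) (.ev (nat_lit 3732) (nat_lit 32) (.ev
 (nat_lit 3741) (nat_lit 1024) .dd))))) (.br (nat_lit 15) (.ch (nat_lit 14) (.ev (nat_lit 3568) (nat_lit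
 34359739392) (.ev (nat_lit 3616) (nat_lit 4398046511104) (.ev (nat_lit 3629) (nat_lit 32) .dd)))) (.ch
 (nat_lit 15) (.ev (nat_lit 3568) (nat_lit 4432406249504) (.ev (nat_lit 3581) (nat_lit 1024) .dd))))) (.br
 (nat_lit 24) (.ch (nat_lit 21) (.ev (nat_lit 3568) (nat_lit 34359738368) (.ev (nat_lit 3584) (nat_lit
 4398046511104) (.ev (nat_lit 3732) (nat_lit 32) (.ev (nat_lit 3741) (nat_lit 1024) .dd))))) (.br (nat_lit 26)
 (.ch (nat_lit 24) (.ev (nat_lit 3568) (nat_lit 4432406249504) (.ev (nat_lit 3581) (nat_lit 1024) .dd))) (.ch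
 (nat_lit 26) (.ev (nat_lit 3568) (nat_lit 34359739424) (.ev (nat_lit 3581) (nat_lit 4398046511104)
 .dd)))))))))))))) (.br (nat_lit 58) (.ch (nat_lit 57) (.ev (nat_lit 52) (nat_lit 188978562112) (.ev (nat_lit
 84) (nat_lit 256) (.ev (nat_lit 468) (nat_lit 8589934592) (.ev (nat_lit 1396) (nat_lit 68719476736) (.ev
 (nat_lit 1828) (nat_lit 16) (.ev (nat_lit 2180) (nat_lit 32) (.ev (nat_lit 3172) (nat_lit 33554432) (.nd
 (nat_lit 3552) (.br (nat_lit 17) (.br (nat_lit 13) (.br (nat_lit 10) (.ch (nat_lit 4) (.ev (nat_lit 3568)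
 (nat_lit 4400193994752) .dd)) (.ch (nat_lit 10) (.ev (nat_lit 3568) (nat_lit 4400193994752) .dd))) (.br
 (nat_lit 14) (.ch (nat_lit 13) (.ev (nat_lit 3568) (nat_lit 4400193994752) .dd)) (.br (nat_lit 16) (.ch
 (nat_lit 14) (.ev (nat_lit 3568) (nat_lit 2147483648) (.ev (nat_lit 3581) (nat_lit 4398046511104) .dd))) (.ch
 (nat_lit 16) (.ev (nat_lit 3568) (nat_lit 4398046511104) (.ev (nat_lit 3581) (nat_lit 2147483648) .dd))))))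
 (.br (nat_lit 20) (.br (nat_lit 18) (.ch (nat_lit 17) (.ev (nat_lit 3568) (nat_lit 4400193994752) .dd)) (.ch
 (nat_lit 18) (.ev (nat_lit 3568) (nat_lit 4400193994752) .dd))) (.br (nat_lit 21) (.ch (nat_lit 20) (.ev
 (nat_lit 3568) (nat_lit 4400193994752) .dd)) (.br (nat_lit 22) (.ch (nat_lit 21) (.ev (nat_lit 3568) (nat_lit
 2147483648) (.ev (nat_lit 3581) (nat_lit 4398046511104) .dd))) (.ch (nat_lit 22) (.ev (nat_lit 3568) (nat_lit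
 4400193994752) .dd))))))))))))))) (.br (nat_lit 62) (.ch (nat_lit 58) (.ev (nat_lit 52) (nat_lit 171832247344)
 (.ev (nat_lit 628) (nat_lit 8589934592) (.ev (nat_lit 1600) (nat_lit 4486093340992) .dd)))) (.ch (nat_lit 62)
 (.ev (nat_lit 52) (nat_lit 259879076128) (.ev (nat_lit 340) (nat_lit 16) (.ev (nat_lit 1524) (nat_lit
 8589934592) (.ev (nat_lit 1716) (nat_lit 64) (.nd (nat_lit 3552) (.br (nat_lit 15) (.br (nat_lit 7) (.ch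
 (nat_lit 4) (.ev (nat_lit 3568) (nat_lit 4398046512128) .dd)) (.br (nat_lit 14) (.ch (nat_lit 7) (.ev (nat_lit
 3568) (nat_lit 4398046511104) (.ev (nat_lit 3581) (nat_lit 1024) .dd))) (.ch (nat_lit 14) (.ev (nat_lit 3568)
 (nat_lit 1024) (.ev (nat_lit 3581) (nat_lit 4398046511104) .dd))))) (.br (nat_lit 21) (.br (nat_lit 18) (.ch
 (nat_lit 15) (.ev (nat_lit 3584) (nat_lit 1024) (.ev (nat_lit 3597) (nat_lit 4398046511104) .dd))) (.ch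
 (nat_lit 18) (.ev (nat_lit 3568) (nat_lit 4398046511104) (.ev (nat_lit 3581) (nat_lit 1024) .dd)))) (.br
 (nat_lit 24) (.ch (nat_lit 21) (.ev (nat_lit 3568) (nat_lit 4398046512128) .dd)) (.ch (nat_lit 24) (.ev
 (nat_lit 3568) (nat_lit 4398046512128) .dd)))))))))))))) (.br (nat_lit 68) (.br (nat_lit 65) (.ch (nat_lit 64)
 (.ev (nat_lit 52) (nat_lit 4612794876224) (.ev (nat_lit 116) (nat_lit 17179869184) (.ev (nat_lit 308) (nat_lit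
 16) (.ev (nat_lit 1396) (nat_lit 33554432) (.ev (nat_lit 2884) (nat_lit 32) (.nd (nat_lit 3552) (.br (nat_lit
 14) (.br (nat_lit 10) (.br (nat_lit 8) (.ch (nat_lit 4) (.ev (nat_lit 3568) (nat_lit 36507223040) .dd)) (.ch
 (nat_lit 8) (.ev (nat_lit 3568) (nat_lit 34359739392) (.ev (nat_lit 3581) (nat_lit 2147483648) .dd)))) (.br
 (nat_lit 12) (.ch (nat_lit 10) (.ev (nat_lit 3568) (nat_lit 36507223040) .dd)) (.ch (nat_lit 12) (.ev (nat_lit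
 3568) (nat_lit 2147484672) (.ev (nat_lit 3581) (nat_lit 34359738368) .dd))))) (.br (nat_lit 21) (.br (nat_lit
 19) (.ch (nat_lit 14) (.ev (nat_lit 3568) (nat_lit 36507223040) .dd)) (.ch (nat_lit 19) (.ev (nat_lit 3568)
 (nat_lit 36507223040) .dd))) (.br (nat_lit 22) (.ch (nat_lit 21) (.ev (nat_lit 3568) (nat_lit 36507223040)
 .dd)) (.br (nat_lit 24) (.ch (nat_lit 22) (.ev (nat_lit 3568) (nat_lit 34359739392) (.ev (nat_lit 3581)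
 (nat_lit 2147483648) .dd))) (.ch (nat_lit 24) (.ev (nat_lit 3568) (nat_lit 36507222016) (.ev (nat_lit 3581)
 (nat_lit 1024) .dd)))))))))))))) (.br (nat_lit 67) (.ch (nat_lit 65) (.ev (nat_lit 52) (nat_lit 4526895530016)
 (.ev (nat_lit 896) (nat_lit 139619992912) .dd))) (.ch (nat_lit 67) (.ev (nat_lit 52) (nat_lit 4569845203232)
 (.ev (nat_lit 660) (nat_lit 17179869184) (.ev (nat_lit 820) (nat_lit 1024) (.ev (nat_lit 1664) (nat_lit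
 79490449488) .dd))))))) (.br (nat_lit 69) (.ch (nat_lit 68) (.ev (nat_lit 52) (nat_lit 4640712164448) (.ev
 (nat_lit 180) (nat_lit 256) (.ev (nat_lit 2052) (nat_lit 33554432) (.ev (nat_lit 3008) (nat_lit 25769803792)
 .dd))))) (.br (nat_lit 70) (.ch (nat_lit 69) (.ev (nat_lit 52) (nat_lit 94489281600) (.ev (nat_lit 244)
 (nat_lit 4398046511104) (.ev (nat_lit 1428) (nat_lit 256) (.ev (nat_lit 1684) (nat_lit 34359738368) (.ev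
 (nat_lit 3204) (nat_lit 2147483648) (.nd (nat_lit 3552) (.br (nat_lit 10) (.br (nat_lit 7) (.ch (nat_lit 4)
 (.ev (nat_lit 3568) (nat_lit 33554448) (.ev (nat_lit 3648) (nat_lit 137438953504) .dd))) (.br (nat_lit 8) (.ch
 (nat_lit 7) (.ev (nat_lit 3568) (nat_lit 137472507936) (.ev (nat_lit 3581) (nat_lit 16) .dd))) (.ch (nat_lit
 8) (.ev (nat_lit 3568) (nat_lit 32) (.ev (nat_lit 3584) (nat_lit 16) (.ev (nat_lit 3600) (nat_lit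
 137438953472) (.ev (nat_lit 3613) (nat_lit 33554432) .dd))))))) (.br (nat_lit 20) (.br (nat_lit 13) (.ch
 (nat_lit 10) (.ev (nat_lit 3568) (nat_lit 137438953520) (.ev (nat_lit 3581) (nat_lit 33554432) .dd))) (.ch
 (nat_lit 13) (.ev (nat_lit 3568) (nat_lit 137472507920) (.ev (nat_lit 3581) (nat_lit 32) .dd)))) (.br (nat_lit
 24) (.ch (nat_lit 20) (.ev (nat_lit 3568) (nat_lit 137472507904) (.ev (nat_lit 3584) (nat_lit 16) (.ev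
 (nat_lit 3597) (nat_lit 32) .dd)))) (.ch (nat_lit 24) (.ev (nat_lit 3568) (nat_lit 137472507952)
 .dd)))))))))))) (.ch (nat_lit 70) (.ev (nat_lit 52) (nat_lit 111702704240) (.ev (nat_lit 116) (nat_lit 256)
 (.ev (nat_lit 372) (nat_lit 2147483648) (.nd (nat_lit 3552) (.br (nat_lit 20) (.br (nat_lit 17) (.br (nat_lit
 14) (.ch (nat_lit 3) (.ev (nat_lit 3568) (nat_lit 4552665334784) .dd)) (.ch (nat_lit 14) (.ev (nat_lit 3568)
 (nat_lit 17179870208) (.ev (nat_lit 3584) (nat_lit 4535485464576) .dd)))) (.br (nat_lit 18) (.ch (nat_lit 17)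
 (.ev (nat_lit 3568) (nat_lit 4415226381312) (.ev (nat_lit 3581) (nat_lit 137438953472) .dd))) (.ch (nat_lit
 18) (.ev (nat_lit 3568) (nat_lit 4552665333760) (.ev (nat_lit 3581) (nat_lit 1024) .dd))))) (.br (nat_lit 22)
 (.br (nat_lit 21) (.ch (nat_lit 20) (.ev (nat_lit 3568) (nat_lit 4552665334784) .dd)) (.ch (nat_lit 21) (.ev
 (nat_lit 3568) (nat_lit 4552665334784) .dd))) (.br (nat_lit 24) (.ch (nat_lit 22) (.ev (nat_lit 3568) (nat_lit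
 4535485465600) (.ev (nat_lit 3581) (nat_lit 17179869184) .dd))) (.br (nat_lit 26) (.ch (nat_lit 24) (.ev
 (nat_lit 3568) (nat_lit 4552665333760) (.ev (nat_lit 3581) (nat_lit 1024) .dd))) (.ch (nat_lit 26) (.ev
 (nat_lit 3568) (nat_lit 4552665334784) .dd)))))))))))))))))))

/-- The trie. -/
noncomputable def T : Tr := .nd (nat_lit 1000000) (.br (nat_lit 9) (.br (nat_lit 5) (.br (nat_lit 3) (.br
 (nat_lit 1) (.ch (nat_lit 0) (.ev (nat_lit 0) (nat_lit 8796093022207) .dd)) (.ch (nat_lit 1) T1)) (.br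
 (nat_lit 4) (.ch (nat_lit 3) (.ev (nat_lit 0) (nat_lit 8796093022207) .dd)) (.ch (nat_lit 4) T4))) (.br
 (nat_lit 7) (.br (nat_lit 6) (.ch (nat_lit 5) (.ev (nat_lit 0) (nat_lit 8796093022207) .dd)) (.ch (nat_lit 6)
 T6)) (.br (nat_lit 8) (.ch (nat_lit 7) (.ev (nat_lit 0) (nat_lit 8796093022207) .dd)) (.ch (nat_lit 8) T8))))
 (.br (nat_lit 16) (.br (nat_lit 11) (.br (nat_lit 10) (.ch (nat_lit 9) (.ev (nat_lit 0) (nat_lit
 8796093022207) .dd)) (.ch (nat_lit 10) (.ev (nat_lit 0) (nat_lit 8796093022207) .dd))) (.br (nat_lit 12) (.ch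
 (nat_lit 11) (.ev (nat_lit 0) (nat_lit 8796093022207) .dd)) (.ch (nat_lit 12) (.ev (nat_lit 0) (nat_lit
 8796093022207) .dd)))) (.br (nat_lit 19) (.br (nat_lit 17) (.ch (nat_lit 16) (.ev (nat_lit 0) (nat_lit
 8796093022207) .dd)) (.ch (nat_lit 17) (.ev (nat_lit 0) (nat_lit 8796093022207) .dd))) (.br (nat_lit 30) (.ch
 (nat_lit 19) T19) (.ch (nat_lit 30) (.ev (nat_lit 0) (nat_lit 8796093022207) .dd))))))

/-- The possible values. -/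
noncomputable def oks : List ℕ := [34, 85, 234, 610, 706]

/-- The parameters. -/
noncomputable def S : Pr := ⟨fun i l e => lget mz (lget [] (lget [] tabs i) l) e, oks, [(nat_lit 0), (nat_lit
 1), (nat_lit 0)], T, (nat_lit 8796093022207), (nat_lit 3303796230157), (nat_lit 43), [(nat_lit 1073946281),
 (nat_lit 87122173451996128837)], [(nat_lit 961), (nat_lit 5041)]⟩

/-- Nothing known. -/
noncomputable def cs0 : Cs := (.cons (nat_lit 31) (nat_lit 0) (nat_lit 1) (.cons (nat_lit 71) (nat_lit 0) (nat_lit 1) .nil))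

theorem part_1 : part S cs0 (nat_lit 1) = true := by decide +kernel

theorem part_4 : part S cs0 (nat_lit 4) = true := by decide +kernel

theorem part_6 : part S cs0 (nat_lit 6) = true := by decide +kernel

theorem part_8 : part S cs0 (nat_lit 8) = true := by decide +kernel

theorem part_19 : part S cs0 (nat_lit 19) = true := by decide +kernel

/-- Data of a prime. -/
noncomputable def D0 : PD := ⟨(nat_lit 31), (nat_lit 2), (435, 8, 13), (281, 829, 278), (666, 926, 286)⟩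

theorem D0_ok : D0.Ok := pdb_sound (s := 3) (C := ⟨⟨11, 26, -43, -19, 34, 32, -12, -3, -1⟩, (11, 12, 19)⟩) (by show Nat.Prime 31; norm_num) (by decide +kernel)

/-- Lines of the first type. -/
noncomputable def Cl0 : List C1 := [⟨⟨-11, -26, -32, 19, -34, 13, 12, 3, -13⟩, (22, 24, 7)⟩,
  ⟨⟨0, 0, 0, 0, 0, 0, 0, 0, 0⟩, (0, 0, 0)⟩,
  ⟨⟨0, 0, 0, 0, 0, 0, 0, 0, 0⟩, (0, 0, 0)⟩,
  ⟨⟨29, 26, -37, 21, 6, 32, 8, -11, -7⟩, (2, 10, 23)⟩,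
  ⟨⟨0, 0, 0, 0, 0, 0, 0, 0, 0⟩, (0, 0, 0)⟩,
  ⟨⟨21, 6, -53, 29, 26, 8, 8, -11, -1⟩, (6, 26, 20)⟩,
  ⟨⟨0, 0, 0, 0, 0, 0, 0, 0, 0⟩, (0, 0, 0)⟩,
  ⟨⟨29, -26, -37, 21, -6, 32, 8, 11, -7⟩, (27, 11, 16)⟩,
  ⟨⟨0, 0, 0, 0, 0, 0, 0, 0, 0⟩, (0, 0, 0)⟩,
  ⟨⟨-9, -6, -43, -41, 14, 28, 4, 13, -5⟩, (4, 1, 12)⟩,
  ⟨⟨9, -6, -52, -41, -14, 13, -4, 13, -1⟩, (29, 16, 25)⟩,
  ⟨⟨21, -6, -53, 29, -26, 8, 8, 11, -1⟩, (7, 20, 13)⟩,
  ⟨⟨9, 6, -52, -41, 14, 13, -4, -13, -1⟩, (28, 24, 22)⟩,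
  ⟨⟨0, 0, 0, 0, 0, 0, 0, 0, 0⟩, (0, 0, 0)⟩,
  ⟨⟨0, 0, 0, 0, 0, 0, 0, 0, 0⟩, (0, 0, 0)⟩,
  ⟨⟨0, 0, 0, 0, 0, 0, 0, 0, 0⟩, (0, 0, 0)⟩,
  ⟨⟨11, -26, -43, -19, -34, 32, -12, 3, -1⟩, (25, 16, 15)⟩,
  ⟨⟨-9, 6, -43, -41, -14, 28, 4, -13, -5⟩, (3, 24, 9)⟩,
  ⟨⟨0, 0, 0, 0, 0, 0, 0, 0, 0⟩, (0, 0, 0)⟩,
  ⟨⟨0, 0, 0, 0, 0, 0, 0, 0, 0⟩, (0, 0, 0)⟩,
  ⟨⟨0, 0, 0, 0, 0, 0, 0, 0, 0⟩, (0, 0, 0)⟩,
  ⟨⟨0, 0, 0, 0, 0, 0, 0, 0, 0⟩, (0, 0, 0)⟩,
  ⟨⟨0, 0, 0, 0, 0, 0, 0, 0, 0⟩, (0, 0, 0)⟩,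
  ⟨⟨0, 0, 0, 0, 0, 0, 0, 0, 0⟩, (0, 0, 0)⟩,
  ⟨⟨0, 0, 0, 0, 0, 0, 0, 0, 0⟩, (0, 0, 0)⟩,
  ⟨⟨0, 0, 0, 0, 0, 0, 0, 0, 0⟩, (0, 0, 0)⟩,
  ⟨⟨0, 0, 0, 0, 0, 0, 0, 0, 0⟩, (0, 0, 0)⟩,
  ⟨⟨0, 0, 0, 0, 0, 0, 0, 0, 0⟩, (0, 0, 0)⟩,
  ⟨⟨0, 0, 0, 0, 0, 0, 0, 0, 0⟩, (0, 0, 0)⟩,
  ⟨⟨0, 0, 0, 0, 0, 0, 0, 0, 0⟩, (0, 0, 0)⟩,
  ⟨⟨-11, 26, -32, 19, 34, 13, 12, -3, -13⟩, (28, 8, 23)⟩]

/-- Data of a prime. -/
noncomputable def D1 : PD := ⟨(nat_lit 71), (nat_lit 2), (72, 9, 33), (3977, 4536, 3372), (4173, 4400, 3526)⟩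

theorem D1_ok : D1.Ok := pdb_sound (s := 11) (C := ⟨⟨59, 34, -112, -29, 94, 37, -24, -3, -11⟩, (59, 42, 47)⟩) (by show Nat.Prime 71; norm_num) (by decide +kernel)

/-- Lines of the first type. -/
noncomputable def Cl1 : List C1 := [⟨⟨-59, -34, -53, 29, -94, 8, 24, 3, -35⟩, (17, 47, 34)⟩,
  ⟨⟨0, 0, 0, 0, 0, 0, 0, 0, 0⟩, (0, 0, 0)⟩,
  ⟨⟨49, -74, -77, 79, 14, 28, 12, 21, -29⟩, (59, 56, 13)⟩,
  ⟨⟨0, 0, 0, 0, 0, 0, 0, 0, 0⟩, (0, 0, 0)⟩,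
  ⟨⟨0, 0, 0, 0, 0, 0, 0, 0, 0⟩, (0, 0, 0)⟩,
  ⟨⟨0, 0, 0, 0, 0, 0, 0, 0, 0⟩, (0, 0, 0)⟩,
  ⟨⟨79, -14, -107, 49, 74, 28, -12, 21, -17⟩, (44, 21, 5)⟩,
  ⟨⟨0, 0, 0, 0, 0, 0, 0, 0, 0⟩, (0, 0, 0)⟩,
  ⟨⟨0, 0, 0, 0, 0, 0, 0, 0, 0⟩, (0, 0, 0)⟩,
  ⟨⟨39, 66, -92, -89, 46, 37, -8, -19, -23⟩, (13, 65, 21)⟩,
  ⟨⟨19, 46, -107, -91, -26, 8, 12, -27, -19⟩, (7, 30, 53)⟩,
  ⟨⟨0, 0, 0, 0, 0, 0, 0, 0, 0⟩, (0, 0, 0)⟩,
  ⟨⟨0, 0, 0, 0, 0, 0, 0, 0, 0⟩, (0, 0, 0)⟩,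
  ⟨⟨99, 6, -67, 11, -94, 32, -4, -11, -31⟩, (13, 33, 59)⟩,
  ⟨⟨-39, -66, -53, -89, 46, 52, 8, 19, -31⟩, (17, 57, 22)⟩,
  ⟨⟨0, 0, 0, 0, 0, 0, 0, 0, 0⟩, (0, 0, 0)⟩,
  ⟨⟨0, 0, 0, 0, 0, 0, 0, 0, 0⟩, (0, 0, 0)⟩,
  ⟨⟨19, -46, -107, -91, 26, 8, 12, 27, -19⟩, (15, 44, 2)⟩,
  ⟨⟨0, 0, 0, 0, 0, 0, 0, 0, 0⟩, (0, 0, 0)⟩,
  ⟨⟨0, 0, 0, 0, 0, 0, 0, 0, 0⟩, (0, 0, 0)⟩,
  ⟨⟨51, 66, -88, -59, 74, 67, -20, -5, -17⟩, (59, 64, 59)⟩,
  ⟨⟨49, 74, -77, 79, -14, 28, 12, -21, -29⟩, (6, 43, 29)⟩,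
  ⟨⟨0, 0, 0, 0, 0, 0, 0, 0, 0⟩, (0, 0, 0)⟩,
  ⟨⟨0, 0, 0, 0, 0, 0, 0, 0, 0⟩, (0, 0, 0)⟩,
  ⟨⟨0, 0, 0, 0, 0, 0, 0, 0, 0⟩, (0, 0, 0)⟩,
  ⟨⟨31, 74, -83, -81, 54, 68, -16, -13, -19⟩, (8, 2, 60)⟩,
  ⟨⟨0, 0, 0, 0, 0, 0, 0, 0, 0⟩, (0, 0, 0)⟩,
  ⟨⟨11, 94, -43, -99, 6, 32, 4, -11, -35⟩, (69, 18, 38)⟩,
  ⟨⟨-51, 66, -37, 59, 74, 8, 20, -5, -37⟩, (25, 56, 25)⟩,
  ⟨⟨0, 0, 0, 0, 0, 0, 0, 0, 0⟩, (0, 0, 0)⟩,
  ⟨⟨39, -66, -92, -89, -46, 37, -8, 19, -23⟩, (43, 2, 64)⟩,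
  ⟨⟨0, 0, 0, 0, 0, 0, 0, 0, 0⟩, (0, 0, 0)⟩,
  ⟨⟨59, -34, -112, -29, -94, 37, -24, 3, -11⟩, (9, 4, 18)⟩,
  ⟨⟨0, 0, 0, 0, 0, 0, 0, 0, 0⟩, (0, 0, 0)⟩,
  ⟨⟨0, 0, 0, 0, 0, 0, 0, 0, 0⟩, (0, 0, 0)⟩,
  ⟨⟨-59, 34, -53, 29, 94, 8, 24, -3, -35⟩, (8, 43, 16)⟩,
  ⟨⟨0, 0, 0, 0, 0, 0, 0, 0, 0⟩, (0, 0, 0)⟩,
  ⟨⟨11, -94, -43, -99, -6, 32, 4, 11, -35⟩, (2, 53, 33)⟩,
  ⟨⟨0, 0, 0, 0, 0, 0, 0, 0, 0⟩, (0, 0, 0)⟩,
  ⟨⟨0, 0, 0, 0, 0, 0, 0, 0, 0⟩, (0, 0, 0)⟩,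
  ⟨⟨51, -66, -88, -59, -74, 67, -20, 5, -17⟩, (18, 46, 18)⟩,
  ⟨⟨-19, -46, -88, -91, -26, 83, -12, 27, -7⟩, (26, 61, 65)⟩,
  ⟨⟨0, 0, 0, 0, 0, 0, 0, 0, 0⟩, (0, 0, 0)⟩,
  ⟨⟨0, 0, 0, 0, 0, 0, 0, 0, 0⟩, (0, 0, 0)⟩,
  ⟨⟨0, 0, 0, 0, 0, 0, 0, 0, 0⟩, (0, 0, 0)⟩,
  ⟨⟨-19, 46, -88, -91, 26, 83, -12, -27, -7⟩, (18, 4, 45)⟩,
  ⟨⟨0, 0, 0, 0, 0, 0, 0, 0, 0⟩, (0, 0, 0)⟩,
  ⟨⟨0, 0, 0, 0, 0, 0, 0, 0, 0⟩, (0, 0, 0)⟩,
  ⟨⟨0, 0, 0, 0, 0, 0, 0, 0, 0⟩, (0, 0, 0)⟩,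
  ⟨⟨0, 0, 0, 0, 0, 0, 0, 0, 0⟩, (0, 0, 0)⟩,
  ⟨⟨0, 0, 0, 0, 0, 0, 0, 0, 0⟩, (0, 0, 0)⟩,
  ⟨⟨0, 0, 0, 0, 0, 0, 0, 0, 0⟩, (0, 0, 0)⟩,
  ⟨⟨99, -6, -67, 11, 94, 32, -4, 11, -31⟩, (48, 29, 54)⟩,
  ⟨⟨0, 0, 0, 0, 0, 0, 0, 0, 0⟩, (0, 0, 0)⟩,
  ⟨⟨0, 0, 0, 0, 0, 0, 0, 0, 0⟩, (0, 0, 0)⟩,
  ⟨⟨0, 0, 0, 0, 0, 0, 0, 0, 0⟩, (0, 0, 0)⟩,
  ⟨⟨-51, -66, -37, 59, -74, 8, 20, 5, -37⟩, (55, 38, 55)⟩,
  ⟨⟨0, 0, 0, 0, 0, 0, 0, 0, 0⟩, (0, 0, 0)⟩,
  ⟨⟨0, 0, 0, 0, 0, 0, 0, 0, 0⟩, (0, 0, 0)⟩,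
  ⟨⟨-31, -74, -52, -81, 54, 13, 16, 13, -35⟩, (64, 55, 54)⟩,
  ⟨⟨-31, 74, -52, -81, -54, 13, 16, -13, -35⟩, (11, 15, 47)⟩,
  ⟨⟨-39, 66, -53, -89, -46, 52, 8, -19, -31⟩, (58, 65, 50)⟩,
  ⟨⟨0, 0, 0, 0, 0, 0, 0, 0, 0⟩, (0, 0, 0)⟩,
  ⟨⟨79, 14, -107, 49, -74, 28, -12, -21, -17⟩, (57, 3, 21)⟩,
  ⟨⟨0, 0, 0, 0, 0, 0, 0, 0, 0⟩, (0, 0, 0)⟩,
  ⟨⟨0, 0, 0, 0, 0, 0, 0, 0, 0⟩, (0, 0, 0)⟩,
  ⟨⟨31, -74, -83, -81, -54, 68, -16, 13, -19⟩, (61, 33, 67)⟩,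
  ⟨⟨0, 0, 0, 0, 0, 0, 0, 0, 0⟩, (0, 0, 0)⟩,
  ⟨⟨0, 0, 0, 0, 0, 0, 0, 0, 0⟩, (0, 0, 0)⟩,
  ⟨⟨0, 0, 0, 0, 0, 0, 0, 0, 0⟩, (0, 0, 0)⟩,
  ⟨⟨0, 0, 0, 0, 0, 0, 0, 0, 0⟩, (0, 0, 0)⟩]

/-- Data of a prime. -/
noncomputable def Dm : PD := ⟨(nat_lit 43), (nat_lit 2), (989, 1, 17), (1652, 774, 636), (172, 5, 130)⟩

theorem Dm_ok : Dm.Ok := pdb_sound (s := 1) (C := ⟨⟨43, -38, -44, 43, 38, 1, 0, 9, -19⟩, (5, 38, 9)⟩) (by show Nat.Prime 43; norm_num) (by decide +kernel)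

/-- Lines of the first type. -/
noncomputable def Clm : List C1 := [⟨⟨43, 38, -44, 43, -38, 1, 0, -9, -19⟩, (42, 1, 24)⟩,
  ⟨⟨0, 0, 0, 0, 0, 0, 0, 0, 0⟩, (0, 0, 0)⟩,
  ⟨⟨57, -18, -16, -17, -58, 1, 4, 1, -23⟩, (41, 27, 24)⟩,
  ⟨⟨7, -38, -56, -33, -42, 49, -16, 7, -1⟩, (28, 40, 22)⟩,
  ⟨⟨0, 0, 0, 0, 0, 0, 0, 0, 0⟩, (0, 0, 0)⟩,
  ⟨⟨0, 0, 0, 0, 0, 0, 0, 0, 0⟩, (0, 0, 0)⟩,
  ⟨⟨0, 0, 0, 0, 0, 0, 0, 0, 0⟩, (0, 0, 0)⟩,
  ⟨⟨0, 0, 0, 0, 0, 0, 0, 0, 0⟩, (0, 0, 0)⟩,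
  ⟨⟨0, 0, 0, 0, 0, 0, 0, 0, 0⟩, (0, 0, 0)⟩,
  ⟨⟨0, 0, 0, 0, 0, 0, 0, 0, 0⟩, (0, 0, 0)⟩,
  ⟨⟨0, 0, 0, 0, 0, 0, 0, 0, 0⟩, (0, 0, 0)⟩,
  ⟨⟨27, -18, -71, -53, -22, 4, -4, 17, -7⟩, (6, 36, 23)⟩,
  ⟨⟨0, 0, 0, 0, 0, 0, 0, 0, 0⟩, (0, 0, 0)⟩,
  ⟨⟨0, 0, 0, 0, 0, 0, 0, 0, 0⟩, (0, 0, 0)⟩,
  ⟨⟨-7, -2, -64, -47, -38, 31, 12, -15, -7⟩, (37, 15, 41)⟩,
  ⟨⟨-7, 2, -64, -47, 38, 31, 12, 15, -7⟩, (3, 14, 1)⟩,
  ⟨⟨-7, 38, -49, 33, 42, 16, 16, -7, -17⟩, (27, 14, 12)⟩,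
  ⟨⟨0, 0, 0, 0, 0, 0, 0, 0, 0⟩, (0, 0, 0)⟩,
  ⟨⟨0, 0, 0, 0, 0, 0, 0, 0, 0⟩, (0, 0, 0)⟩,
  ⟨⟨57, 18, -16, -17, 58, 1, 4, -1, -23⟩, (36, 30, 41)⟩,
  ⟨⟨53, 22, -49, 27, -18, 44, 4, -17, -11⟩, (6, 42, 11)⟩,
  ⟨⟨0, 0, 0, 0, 0, 0, 0, 0, 0⟩, (0, 0, 0)⟩,
  ⟨⟨0, 0, 0, 0, 0, 0, 0, 0, 0⟩, (0, 0, 0)⟩,
  ⟨⟨27, 18, -71, -53, 22, 4, -4, -17, -7⟩, (1, 6, 11)⟩,
  ⟨⟨57, -18, -41, -17, -58, 16, -4, -1, -19⟩, (7, 13, 41)⟩,
  ⟨⟨0, 0, 0, 0, 0, 0, 0, 0, 0⟩, (0, 0, 0)⟩,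
  ⟨⟨0, 0, 0, 0, 0, 0, 0, 0, 0⟩, (0, 0, 0)⟩,
  ⟨⟨7, 38, -56, -33, 42, 49, -16, -7, -1⟩, (27, 14, 12)⟩,
  ⟨⟨7, 2, -71, -47, -38, 16, 12, -15, -5⟩, (3, 29, 42)⟩,
  ⟨⟨7, -2, -71, -47, 38, 16, 12, 15, -5⟩, (37, 28, 2)⟩,
  ⟨⟨0, 0, 0, 0, 0, 0, 0, 0, 0⟩, (0, 0, 0)⟩,
  ⟨⟨0, 0, 0, 0, 0, 0, 0, 0, 0⟩, (0, 0, 0)⟩,
  ⟨⟨53, -22, -49, 27, 18, 44, 4, 17, -11⟩, (36, 37, 23)⟩,
  ⟨⟨0, 0, 0, 0, 0, 0, 0, 0, 0⟩, (0, 0, 0)⟩,
  ⟨⟨0, 0, 0, 0, 0, 0, 0, 0, 0⟩, (0, 0, 0)⟩,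
  ⟨⟨0, 0, 0, 0, 0, 0, 0, 0, 0⟩, (0, 0, 0)⟩,
  ⟨⟨0, 0, 0, 0, 0, 0, 0, 0, 0⟩, (0, 0, 0)⟩,
  ⟨⟨0, 0, 0, 0, 0, 0, 0, 0, 0⟩, (0, 0, 0)⟩,
  ⟨⟨0, 0, 0, 0, 0, 0, 0, 0, 0⟩, (0, 0, 0)⟩,
  ⟨⟨0, 0, 0, 0, 0, 0, 0, 0, 0⟩, (0, 0, 0)⟩,
  ⟨⟨-7, -38, -49, 33, -42, 16, 16, 7, -17⟩, (28, 40, 22)⟩,
  ⟨⟨57, 18, -41, -17, 58, 16, -4, 1, -19⟩, (2, 16, 24)⟩,
  ⟨⟨0, 0, 0, 0, 0, 0, 0, 0, 0⟩, (0, 0, 0)⟩]

/-- Unit moves. -/
noncomputable def U : List Mv := [mz,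
  mz,
  ⟨⟨1, 0, 0, 0, -1, 0, 0, 0, 1⟩, .nil, (nat_lit 30), (nat_lit 30), (nat_lit 29), (nat_lit 1), (0, 0, 0), [], 3⟩,
  mz,
  mz,
  mz,
  mz,
  mz,
  mz,
  mz,
  mz,
  mz,
  mz,
  ⟨⟨1, 0, 0, 0, -1, 0, 0, 0, 1⟩, .nil, (nat_lit 30), (nat_lit 30), (nat_lit 29), (nat_lit 1), (0, 0, 0), [], 3⟩,
  ⟨⟨1, 0, 0, 0, -1, 0, 0, 0, 1⟩, .nil, (nat_lit 30), (nat_lit 30), (nat_lit 29), (nat_lit 1), (0, 0, 0), [], 3⟩,
  ⟨⟨-1, 0, 1, 0, -1, 0, 0, 0, 1⟩, .nil, (nat_lit 0), (nat_lit 15), (nat_lit 1), (nat_lit 0), (0, 0, 0), [], 16⟩,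
  mz,
  mz,
  ⟨⟨-1, 0, 1, 0, -1, 0, 0, 0, 1⟩, .nil, (nat_lit 0), (nat_lit 15), (nat_lit 1), (nat_lit 0), (0, 0, 0), [], 16⟩,
  mz,
  ⟨⟨-1, 0, 1, 0, 1, 0, 0, 0, 1⟩, .nil, (nat_lit 30), (nat_lit 16), (nat_lit 1), (nat_lit 1), (0, 0, 0), [], 17⟩,
  ⟨⟨-1, 0, 1, 0, 1, 0, 0, 0, 1⟩, .nil, (nat_lit 30), (nat_lit 16), (nat_lit 1), (nat_lit 1), (0, 0, 0), [], 17⟩,
  ⟨⟨-1, 0, 1, 0, -1, 0, 0, 0, 1⟩, .nil, (nat_lit 0), (nat_lit 15), (nat_lit 1), (nat_lit 0), (0, 0, 0), [], 16⟩,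
  ⟨⟨-1, 0, 1, 0, 1, 0, 0, 0, 1⟩, .nil, (nat_lit 30), (nat_lit 16), (nat_lit 1), (nat_lit 1), (0, 0, 0), [], 17⟩,
  ⟨⟨1, 0, 0, 0, -1, 0, 0, 0, 1⟩, .nil, (nat_lit 30), (nat_lit 30), (nat_lit 29), (nat_lit 1), (0, 0, 0), [], 3⟩,
  ⟨⟨-1, 0, 1, 0, 1, 0, 0, 0, 1⟩, .nil, (nat_lit 30), (nat_lit 16), (nat_lit 1), (nat_lit 1), (0, 0, 0), [], 17⟩,
  ⟨⟨1, 0, 0, 0, -1, 0, 0, 0, 1⟩, .nil, (nat_lit 30), (nat_lit 30), (nat_lit 29), (nat_lit 1), (0, 0, 0), [], 3⟩,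
  ⟨⟨-1, 0, 1, 0, -1, 0, 0, 0, 1⟩, .nil, (nat_lit 0), (nat_lit 15), (nat_lit 1), (nat_lit 0), (0, 0, 0), [], 16⟩,
  ⟨⟨-1, 0, 1, 0, 1, 0, 0, 0, 1⟩, .nil, (nat_lit 30), (nat_lit 16), (nat_lit 1), (nat_lit 1), (0, 0, 0), [], 17⟩,
  ⟨⟨-1, 0, 1, 0, -1, 0, 0, 0, 1⟩, .nil, (nat_lit 0), (nat_lit 15), (nat_lit 1), (nat_lit 0), (0, 0, 0), [], 16⟩,
  mz]

theorem v_ty : tyb Dm S.ty1 Clm = true := by decide +kernel

theorem v_ty0 : tyb D0 (S.tys.getD 0 0) Cl0 = true := by decide +kernel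

theorem v_ty1 : tyb D1 (S.tys.getD 1 0) Cl1 = true := by decide +kernel

theorem v_msc : mscb S D0 [D1] Dm (nat_lit 524626) = true := by decide +kernel

theorem v_mv0 : mvsn (nat_lit 8957297449) S D0 [D1] Dm (nat_lit 524626) 0 D0 = true := by decide +kernel

theorem v_mv1 : mvsn (nat_lit 8957297449) S D0 [D1] Dm (nat_lit 524626) 1 D1 = true := by decide +kernel

theorem v_mm : mmsn (nat_lit 8957297449) S D0 [D1] Dm (nat_lit 524626) = true := by decide +kernel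

theorem v_un : unb S D0 (nat_lit 524626) U = true := by decide +kernel

theorem v_ok : okb S.oks [(0, 0, 0), (2, 9, 0), (0, 0, 0), (0, 0, 0), (0, 0, 0)] = true := by decide +kernel

theorem v_part : ∀ d < D0.p, (nat_lit 524626).testBit d = true → part S (zc (D0 :: [D1])) d = true := by
  intro d hd h
  have h1 : ∀ d < 31, (nat_lit 524626).testBit d = true → d = 1 ∨ d = 4 ∨ d = 6 ∨ d = 8 ∨ d = 19 := by decide
  rcases h1 d hd h with rfl | rfl | rfl | rfl | rfl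
  · exact part_1
  · exact part_4
  · exact part_6
  · exact part_8
  · exact part_19

theorem main (n : ℕ) (ho : Odd n) (hr : ¬ Rep n) (h0 : Split 31 n) (h1 : Split 71 n) (hm : Split 43 n) :
    n ∈ EE := by
  refine concln (W := nat_lit 8957297449) (S := S) (P0 := D0) (Pl := [D1]) (Pm := Dm) (cn := nat_lit 524626) ?_ Dm_ok v_ty ?_ ?_ v_msc ?_ v_mm v_un v_part v_ok
    n ho hr ?_ hm
  · simp only [List.forall_mem_cons]
    exact ⟨D0_ok, D1_ok, fun _ h => absurd h (by simp)⟩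
  · exact all2 (φ := fun j P => ∃ L, tyb P (S.tys.getD j 0) L = true) ⟨_, v_ty0⟩ ⟨_, v_ty1⟩
  · exact all2 (φ := fun j P => Nat.ble (S.pks.getD j 0) (Nat.pow P.p P.K) = true) (by decide +kernel) (by decide +kernel)
  · exact all2 (φ := fun i P => mvsn (nat_lit 8957297449) S D0 [D1] Dm (nat_lit 524626) i P = true) v_mv0 v_mv1
  · simp only [List.forall_mem_cons]
    exact ⟨h0, h1, fun _ h => absurd h (by simp)⟩

end Pool.Agent.Work.MP_9954fe_nt.P31_71_43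

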