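import Pool.Agent.Work.MP_9954fe_nt.Fast

/-!
Certificates for the sets {7, 19}, {11, 19}, {11, 37, 53}, {13, 37, 47}, {13, 43, 53}, {17, 19}, {19, 37, 43} of split primes.
-/

set_option autoImplicit false
set_option linter.all false
set_option maxRecDepth 100000

namespace Pool.Agent.Work.MP_9954fe_nt.P7_19

/-- Dummy move. -/
noncomputable def mz : Mv := ⟨⟨0, 0, 0, 0, 0, 0, 0, 0, 0⟩, .nil, (nat_lit 0), (nat_lit 0), (nat_lit 0), (nat_lit 0), (0, 0, 0), [], 0⟩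

/-- Moves. -/
noncomputable def t0_1 : List Mv := [
  ⟨⟨-3, 4, -5, 2, -5, -6, 4, 4, -5⟩, (.cons (nat_lit 11870394) (nat_lit 28783777) (nat_lit 28481682) (nat_lit 1) .nil), (nat_lit 3), (nat_lit 4), (nat_lit 6), (nat_lit 1), (3, 5, 3), [10048865], 14⟩,
  ⟨⟨-3, 4, -5, -2, 5, 6, 4, 4, -5⟩, (.cons (nat_lit 37305656) (nat_lit 7036773) (nat_lit 31813562) (nat_lit 1) .nil), (nat_lit 9), (nat_lit 18), (nat_lit 14), (nat_lit 1), (3, 2, 3), [5604076], 9⟩,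
  ⟨⟨7, 0, 0, 2, -5, -6, 4, 4, -5⟩, (.cons (nat_lit 23697019) (nat_lit 11044809) (nat_lit 25792226) (nat_lit 1) .nil), (nat_lit 3), (nat_lit 7), (nat_lit 10), (nat_lit 1), (0, 5, 3), [9064028], 6⟩,
  ⟨⟨-3, 4, -5, 2, -5, -6, 4, 4, -5⟩, (.cons (nat_lit 11870394) (nat_lit 28783777) (nat_lit 28481682) (nat_lit 1) .nil), (nat_lit 3), (nat_lit 4), (nat_lit 6), (nat_lit 1), (3, 5, 3), [10048865], 14⟩,
  ⟨⟨-3, 4, -5, 2, -5, -6, 4, 4, -5⟩, (.cons (nat_lit 11870394) (nat_lit 28783777) (nat_lit 28481682) (nat_lit 1) .nil), (nat_lit 3), (nat_lit 4), (nat_lit 6), (nat_lit 1), (3, 5, 3), [10048865], 14⟩,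
  ⟨⟨-3, 4, -5, 2, -5, -6, 4, 4, -5⟩, (.cons (nat_lit 11870394) (nat_lit 28783777) (nat_lit 28481682) (nat_lit 1) .nil), (nat_lit 3), (nat_lit 4), (nat_lit 6), (nat_lit 1), (3, 5, 3), [10048865], 14⟩,
  ⟨⟨7, 0, 0, 2, -5, -6, 4, 4, -5⟩, (.cons (nat_lit 23697019) (nat_lit 11044809) (nat_lit 25792226) (nat_lit 1) .nil), (nat_lit 3), (nat_lit 7), (nat_lit 10), (nat_lit 1), (0, 5, 3), [9064028], 6⟩]

/-- Moves. -/
noncomputable def t0_3 : List Mv := [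
  ⟨⟨1, 0, -9, 0, -7, 0, 6, 0, -5⟩, (.cons (nat_lit 25004503) (nat_lit 30625764) (nat_lit 38675796) (nat_lit 1) .nil), (nat_lit 18), (nat_lit 7), (nat_lit 1), (nat_lit 0), (2, 0, 5), [37099950], 11⟩,
  ⟨⟨1, 0, -9, 0, -7, 0, 6, 0, -5⟩, (.cons (nat_lit 25004503) (nat_lit 30625764) (nat_lit 38675796) (nat_lit 1) .nil), (nat_lit 18), (nat_lit 7), (nat_lit 1), (nat_lit 0), (2, 0, 5), [37099950], 11⟩,
  ⟨⟨5, 0, 4, 0, 7, 0, 6, 0, -5⟩, (.cons (nat_lit 23707674) (nat_lit 19696108) (nat_lit 34804965) (nat_lit 1) .nil), (nat_lit 18), (nat_lit 0), (nat_lit 8), (nat_lit 1), (3, 0, 5), [11878172], 7⟩,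
  ⟨⟨5, 0, 4, 0, -7, 0, 6, 0, -5⟩, (.cons (nat_lit 26597705) (nat_lit 27856828) (nat_lit 8865904) (nat_lit 1) .nil), (nat_lit 18), (nat_lit 14), (nat_lit 6), (nat_lit 1), (3, 0, 5), [2605651], 13⟩,
  ⟨⟨1, 0, -9, 0, -7, 0, 6, 0, -5⟩, (.cons (nat_lit 25004503) (nat_lit 30625764) (nat_lit 38675796) (nat_lit 1) .nil), (nat_lit 18), (nat_lit 7), (nat_lit 1), (nat_lit 0), (2, 0, 5), [37099950], 11⟩,
  ⟨⟨1, 0, -9, 0, 7, 0, 6, 0, -5⟩, (.cons (nat_lit 17043897) (nat_lit 16716079) (nat_lit 24805227) (nat_lit 1) .nil), (nat_lit 16), (nat_lit 9), (nat_lit 4), (nat_lit 1), (2, 0, 5), [27270990], 12⟩,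
  ⟨⟨1, 0, -9, 0, -7, 0, 6, 0, -5⟩, (.cons (nat_lit 25004503) (nat_lit 30625764) (nat_lit 38675796) (nat_lit 1) .nil), (nat_lit 18), (nat_lit 7), (nat_lit 1), (nat_lit 0), (2, 0, 5), [37099950], 11⟩]

/-- Moves. -/
noncomputable def t4_1 : List Mv := [
  mz,
  ⟨⟨15, -4, -23, -10, 9, -10, 12, 12, -7⟩, (.cons (nat_lit 3897529) (nat_lit 8555584) (nat_lit 1) (nat_lit 1859557) .nil), (nat_lit 12), (nat_lit 0), (nat_lit 0), (nat_lit 0), (18, 7, 3), [31754986], 0⟩,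
  ⟨⟨-11, 12, 20, 16, 5, 2, -2, 16, -5⟩, (.cons (nat_lit 27368511) (nat_lit 35332894) (nat_lit 17960869) (nat_lit 1) .nil), (nat_lit 8), (nat_lit 0), (nat_lit 0), (nat_lit 0), (15, 11, 1), [37045723], 0⟩,
  mz,
  mz,
  ⟨⟨11, 12, 9, 16, -5, -18, 2, 16, -7⟩, (.cons (nat_lit 17691167) (nat_lit 37589196) (nat_lit 12391441) (nat_lit 1) .nil), (nat_lit 16), (nat_lit 0), (nat_lit 0), (nat_lit 0), (1, 17, 14), [845345], 0⟩,
  ⟨⟨-9, -4, -16, -16, -5, 18, 2, -16, -7⟩, (.cons (nat_lit 11534654) (nat_lit 20773022) (nat_lit 3948120) (nat_lit 1) .nil), (nat_lit 15), (nat_lit 0), (nat_lit 0), (nat_lit 0), (11, 9, 6), [12985121], 0⟩,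
  mz,
  ⟨⟨-3, 20, -4, 4, 5, 18, 14, 8, -13⟩, (.cons (nat_lit 33217958) (nat_lit 7657684) (nat_lit 6391086) (nat_lit 1) .nil), (nat_lit 2), (nat_lit 0), (nat_lit 0), (nat_lit 0), (4, 1, 13), [9822444], 0⟩,
  mz,
  ⟨⟨9, -4, -25, -16, 5, -2, -2, -16, -5⟩, (.cons (nat_lit 11302329) (nat_lit 37091422) (nat_lit 9652192) (nat_lit 1) .nil), (nat_lit 11), (nat_lit 0), (nat_lit 0), (nat_lit 0), (3, 1, 12), [21584957], 0⟩,
  ⟨⟨-3, 20, 7, 4, 5, -22, 14, 8, -1⟩, (.cons (nat_lit 36378470) (nat_lit 16446915) (nat_lit 14410919) (nat_lit 1) .nil), (nat_lit 2), (nat_lit 0), (nat_lit 0), (nat_lit 0), (15, 18, 6), [20403479], 0⟩,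
  ⟨⟨-3, 16, -13, 10, -9, -20, 12, 12, -5⟩, (.cons (nat_lit 19138070) (nat_lit 19912944) (nat_lit 11139045) (nat_lit 1) .nil), (nat_lit 1), (nat_lit 0), (nat_lit 0), (nat_lit 0), (13, 1, 5), [7925977], 0⟩,
  ⟨⟨-3, -16, -13, 10, 9, -20, 12, -12, -5⟩, (.cons (nat_lit 25208527) (nat_lit 1624217) (nat_lit 10323198) (nat_lit 1) .nil), (nat_lit 1), (nat_lit 0), (nat_lit 0), (nat_lit 0), (5, 15, 18), [16971505], 0⟩,
  mz,
  ⟨⟨17, 12, -8, -4, 5, 22, 14, -8, -1⟩, (.cons (nat_lit 19826488) (nat_lit 24577310) (nat_lit 8105542) (nat_lit 1) .nil), (nat_lit 6), (nat_lit 0), (nat_lit 0), (nat_lit 0), (16, 13, 2), [39701469], 0⟩,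
  ⟨⟨17, 12, -9, -4, 5, -18, 14, -8, -13⟩, (.cons (nat_lit 29490949) (nat_lit 16317069) (nat_lit 17773146) (nat_lit 1) .nil), (nat_lit 6), (nat_lit 0), (nat_lit 0), (nat_lit 0), (15, 11, 9), [29010101], 0⟩,
  ⟨⟨15, 4, -23, -10, -9, -10, 12, -12, -7⟩, (.cons (nat_lit 17186268) (nat_lit 5221481) (nat_lit 12796196) (nat_lit 1) .nil), (nat_lit 12), (nat_lit 0), (nat_lit 0), (nat_lit 0), (1, 12, 16), [1777946], 0⟩]

/-- Moves. -/
noncomputable def t4_3 : List Mv := [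
  mz,
  ⟨⟨15, -4, -23, 10, -9, 10, 12, 12, -7⟩, (.cons (nat_lit 34571769) (nat_lit 29564234) (nat_lit 38364224) (nat_lit 1) .nil), (nat_lit 13), (nat_lit 0), (nat_lit 0), (nat_lit 0), (18, 12, 3), [12014158], 0⟩,
  ⟨⟨9, 4, -25, -16, -5, -2, -2, 16, -5⟩, (.cons (nat_lit 2446329) (nat_lit 39087922) (nat_lit 30495417) (nat_lit 1) .nil), (nat_lit 11), (nat_lit 0), (nat_lit 0), (nat_lit 0), (5, 8, 1), [134285], 0⟩,
  mz,
  mz,
  ⟨⟨-9, 4, -16, 16, -5, -18, 2, 16, -7⟩, (.cons (nat_lit 28796554) (nat_lit 2715180) (nat_lit 25771934) (nat_lit 1) .nil), (nat_lit 11), (nat_lit 0), (nat_lit 0), (nat_lit 0), (13, 17, 14), [16517120], 0⟩,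
  ⟨⟨-9, -4, -16, 16, 5, -18, 2, -16, -7⟩, (.cons (nat_lit 22604768) (nat_lit 14676540) (nat_lit 10103124) (nat_lit 1) .nil), (nat_lit 11), (nat_lit 0), (nat_lit 0), (nat_lit 0), (11, 10, 6), [38033382], 0⟩,
  mz,
  ⟨⟨17, -12, -9, -4, -5, -18, 14, 8, -13⟩, (.cons (nat_lit 39574490) (nat_lit 39021866) (nat_lit 20504025) (nat_lit 1) .nil), (nat_lit 6), (nat_lit 0), (nat_lit 0), (nat_lit 0), (9, 18, 13), [4107926], 0⟩,
  mz,
  ⟨⟨9, -4, -25, -16, 5, -2, -2, -16, -5⟩, (.cons (nat_lit 11302329) (nat_lit 37091422) (nat_lit 9652192) (nat_lit 1) .nil), (nat_lit 11), (nat_lit 0), (nat_lit 0), (nat_lit 0), (3, 1, 12), [21584957], 0⟩,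
  ⟨⟨17, -12, -8, 4, 5, -22, 14, 8, -1⟩, (.cons (nat_lit 14507029) (nat_lit 1146087) (nat_lit 37957778) (nat_lit 1) .nil), (nat_lit 5), (nat_lit 0), (nat_lit 0), (nat_lit 0), (10, 18, 6), [17189366], 0⟩,
  ⟨⟨15, -4, 8, 10, -9, -20, 12, 12, -5⟩, (.cons (nat_lit 10200603) (nat_lit 37708452) (nat_lit 22564781) (nat_lit 1) .nil), (nat_lit 13), (nat_lit 0), (nat_lit 0), (nat_lit 0), (11, 1, 5), [38923510], 0⟩,
  ⟨⟨15, 4, 8, 10, 9, -20, 12, -12, -5⟩, (.cons (nat_lit 40353606) (nat_lit 27210785) (nat_lit 6005654) (nat_lit 1) .nil), (nat_lit 13), (nat_lit 0), (nat_lit 0), (nat_lit 0), (13, 15, 18), [33152089], 0⟩,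
  mz,
  ⟨⟨17, 12, -8, 4, -5, -22, 14, -8, -1⟩, (.cons (nat_lit 23074713) (nat_lit 8854028) (nat_lit 29050537) (nat_lit 1) .nil), (nat_lit 5), (nat_lit 0), (nat_lit 0), (nat_lit 0), (16, 6, 2), [25787375], 0⟩,
  ⟨⟨17, 12, -9, -4, 5, -18, 14, -8, -13⟩, (.cons (nat_lit 29490949) (nat_lit 16317069) (nat_lit 17773146) (nat_lit 1) .nil), (nat_lit 6), (nat_lit 0), (nat_lit 0), (nat_lit 0), (15, 11, 9), [29010101], 0⟩,
  ⟨⟨15, 4, -23, 10, 9, 10, 12, -12, -7⟩, (.cons (nat_lit 13242971) (nat_lit 36712275) (nat_lit 2853738) (nat_lit 1) .nil), (nat_lit 13), (nat_lit 0), (nat_lit 0), (nat_lit 0), (1, 7, 16), [31029849], 0⟩]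

/-- All the moves. -/
noncomputable def tabs : List (List (List Mv)) := [[[], t0_1, [], t0_3], [], [], [], [[], t4_1, [], t4_3]]

/-- Subtrie. -/
noncomputable def T1 : Tr := (.ev (nat_lit 20) (nat_lit 197664) (.nd (nat_lit 32) (.br (nat_lit 2) (.br
 (nat_lit 1) (.ch (nat_lit 0) (.ev (nat_lit 48) (nat_lit 2112) (.nd (nat_lit 192) (.br (nat_lit 4) (.br
 (nat_lit 1) (.ch (nat_lit 0) (.ev (nat_lit 208) (nat_lit 260) (.nd (nat_lit 768) (.br (nat_lit 4) (.br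
 (nat_lit 1) (.ch (nat_lit 0) (.nd (nat_lit 1408) (.br (nat_lit 4) (.br (nat_lit 1) (.ch (nat_lit 0) (.nd
 (nat_lit 2704) (.br (nat_lit 4) (.br (nat_lit 1) (.ch (nat_lit 0) (.ev (nat_lit 2720) (nat_lit 8192) (.ev
 (nat_lit 3444) (nat_lit 4096) (.nd (nat_lit 6224) (.br (nat_lit 5) (.ch (nat_lit 4) (.ev (nat_lit 6240)
 (nat_lit 32770) .dd)) (.ch (nat_lit 5) (.fin (nat_lit 576442610292834546)))))))) (.ch (nat_lit 1) (.ev
 (nat_lit 2720) (nat_lit 45056) (.ev (nat_lit 2733) (nat_lit 2) .dd)))) (.br (nat_lit 5) (.ch (nat_lit 4) (.ev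
 (nat_lit 2720) (nat_lit 8194) (.ev (nat_lit 3252) (nat_lit 32768) (.ev (nat_lit 3261) (nat_lit 4096) .dd))))
 (.br (nat_lit 6) (.ch (nat_lit 5) (.ev (nat_lit 2720) (nat_lit 4098) (.ev (nat_lit 3252) (nat_lit 32768) (.ev
 (nat_lit 3261) (nat_lit 8192) .dd)))) (.ch (nat_lit 6) (.ev (nat_lit 2720) (nat_lit 2) (.nd (nat_lit 6272)
 (.ch (nat_lit 6) (.nd (nat_lit 7968) (.br (nat_lit 5) (.ch (nat_lit 3) (.ev (nat_lit 7984) (nat_lit 32768)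
 (.fin (nat_lit 576536068851450321)))) (.ch (nat_lit 5) (.ev (nat_lit 7984) (nat_lit 4096) (.fin (nat_lit
 576475595740234281))))))))))))))) (.ch (nat_lit 1) (.ev (nat_lit 1424) (nat_lit 45056) (.ev (nat_lit 1437)
 (nat_lit 2) .dd)))) (.br (nat_lit 5) (.ch (nat_lit 4) (.ev (nat_lit 1424) (nat_lit 2) (.nd (nat_lit 4400) (.br
 (nat_lit 5) (.ch (nat_lit 0) (.ev (nat_lit 4416) (nat_lit 8192) (.ev (nat_lit 4916) (nat_lit 4096) (.ev
 (nat_lit 4925) (nat_lit 32768) .dd)))) (.br (nat_lit 6) (.ch (nat_lit 5) (.ev (nat_lit 4416) (nat_lit 4096)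
 (.ev (nat_lit 4576) (nat_lit 8192) (.ev (nat_lit 4589) (nat_lit 32768) .dd)))) (.ch (nat_lit 6) (.ev (nat_lit
 4416) (nat_lit 4096) (.nd (nat_lit 6688) (.br (nat_lit 5) (.ch (nat_lit 2) (.ev (nat_lit 6704) (nat_lit 32768)
 (.ev (nat_lit 6717) (nat_lit 8192) .dd))) (.ch (nat_lit 5) (.fin (nat_lit 576432715120197855)))))))))))) (.br
 (nat_lit 6) (.ch (nat_lit 5) (.ev (nat_lit 1424) (nat_lit 12288) (.ev (nat_lit 4576) (nat_lit 32770) .dd)))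
 (.ch (nat_lit 6) (.ev (nat_lit 1444) (nat_lit 32768) (.nd (nat_lit 2464) (.br (nat_lit 4) (.br (nat_lit 2)
 (.ch (nat_lit 0) (.ev (nat_lit 2480) (nat_lit 4098) (.ev (nat_lit 2493) (nat_lit 8192) .dd))) (.ch (nat_lit 2)
 (.ev (nat_lit 2480) (nat_lit 8192) (.ev (nat_lit 4976) (nat_lit 4096) (.ev (nat_lit 4989) (nat_lit 2) .dd)))))
 (.br (nat_lit 6) (.ch (nat_lit 4) (.ev (nat_lit 2480) (nat_lit 4096) (.ev (nat_lit 3680) (nat_lit 2) (.ev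
 (nat_lit 3693) (nat_lit 8192) .dd)))) (.ch (nat_lit 6) (.ev (nat_lit 2480) (nat_lit 4098) (.ev (nat_lit 2493)
 (nat_lit 8192) .dd))))))))))))) (.ch (nat_lit 1) (.ev (nat_lit 784) (nat_lit 8192) (.nd (nat_lit 1472) (.br
 (nat_lit 5) (.br (nat_lit 3) (.ch (nat_lit 1) (.nd (nat_lit 3856) (.br (nat_lit 3) (.ch (nat_lit 1) (.ev
 (nat_lit 3872) (nat_lit 32768) (.ev (nat_lit 3908) (nat_lit 4096) (.ev (nat_lit 3917) (nat_lit 2) .dd)))) (.br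
 (nat_lit 4) (.ch (nat_lit 3) (.ev (nat_lit 3872) (nat_lit 32768) (.fin (nat_lit 576189722849132891)))) (.ch
 (nat_lit 4) (.ev (nat_lit 3872) (nat_lit 4096) (.ev (nat_lit 4564) (nat_lit 32768) (.ev (nat_lit 4573)
 (nat_lit 2) .dd)))))))) (.ch (nat_lit 3) (.ev (nat_lit 1488) (nat_lit 32768) (.ev (nat_lit 5012) (nat_lit
 4096) (.ev (nat_lit 5021) (nat_lit 2) .dd))))) (.br (nat_lit 6) (.ch (nat_lit 5) (.ev (nat_lit 1488) (nat_lit
 2) (.ev (nat_lit 4596) (nat_lit 4096) (.ev (nat_lit 4605) (nat_lit 32768) .dd)))) (.ch (nat_lit 6) (.ev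
 (nat_lit 1488) (nat_lit 2) (.ev (nat_lit 1508) (nat_lit 4096) (.ev (nat_lit 1517) (nat_lit 32768)
 .dd)))))))))) (.br (nat_lit 5) (.ch (nat_lit 4) (.ev (nat_lit 784) (nat_lit 4096) (.nd (nat_lit 1408) (.br
 (nat_lit 2) (.br (nat_lit 1) (.ch (nat_lit 0) (.nd (nat_lit 3856) (.br (nat_lit 2) (.ch (nat_lit 0) (.ev
 (nat_lit 4144) (nat_lit 32768) (.ev (nat_lit 4964) (nat_lit 8192) (.ev (nat_lit 4973) (nat_lit 2) .dd)))) (.br
 (nat_lit 3) (.ch (nat_lit 2) (.ev (nat_lit 3872) (nat_lit 2) (.ev (nat_lit 4964) (nat_lit 8192) (.ev (nat_lit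
 4973) (nat_lit 32768) .dd)))) (.ch (nat_lit 3) (.ev (nat_lit 3872) (nat_lit 2) (.ev (nat_lit 4452) (nat_lit
 32768) (.ev (nat_lit 4461) (nat_lit 8192) .dd)))))))) (.ch (nat_lit 1) (.ev (nat_lit 1424) (nat_lit 32768)
 (.ev (nat_lit 4836) (nat_lit 8192) (.ev (nat_lit 4845) (nat_lit 2) .dd))))) (.br (nat_lit 3) (.ch (nat_lit 2)
 (.ev (nat_lit 1424) (nat_lit 2) (.nd (nat_lit 3856) (.br (nat_lit 6) (.ch (nat_lit 3) (.ev (nat_lit 4964)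
 (nat_lit 8192) (.ev (nat_lit 4973) (nat_lit 32768) .dd))) (.ch (nat_lit 6) (.ev (nat_lit 4964) (nat_lit 8192)
 (.ev (nat_lit 4973) (nat_lit 32768) .dd))))))) (.ch (nat_lit 3) (.ev (nat_lit 1424) (nat_lit 8192) (.nd
 (nat_lit 3376) (.br (nat_lit 3) (.ch (nat_lit 2) (.fin (nat_lit 576558059220320861))) (.br (nat_lit 5) (.ch
 (nat_lit 3) (.ev (nat_lit 3412) (nat_lit 2) (.ev (nat_lit 3421) (nat_lit 32768) .dd))) (.ch (nat_lit 5) (.ev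
 (nat_lit 3412) (nat_lit 32768) (.ev (nat_lit 3421) (nat_lit 2) .dd))))))))))))) (.br (nat_lit 6) (.ch (nat_lit
 5) (.ev (nat_lit 784) (nat_lit 40960) (.nd (nat_lit 1856) (.br (nat_lit 2) (.br (nat_lit 1) (.ch (nat_lit 0)
 (.ev (nat_lit 1872) (nat_lit 2) (.ev (nat_lit 1885) (nat_lit 4096) .dd))) (.ch (nat_lit 1) (.fin (nat_lit
 576461302061810239)))) (.br (nat_lit 5) (.ch (nat_lit 2) (.ev (nat_lit 1872) (nat_lit 4096) (.ev (nat_lit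
 1885) (nat_lit 2) .dd))) (.br (nat_lit 6) (.ch (nat_lit 5) (.ev (nat_lit 1892) (nat_lit 2) (.ev (nat_lit 1901)
 (nat_lit 4096) .dd))) (.ch (nat_lit 6) (.ev (nat_lit 1892) (nat_lit 4096) (.ev (nat_lit 1901) (nat_lit 2)
 .dd))))))))) (.ch (nat_lit 6) (.ev (nat_lit 784) (nat_lit 2) (.ev (nat_lit 868) (nat_lit 32768) (.nd (nat_lit
 1472) (.br (nat_lit 5) (.ch (nat_lit 3) (.nd (nat_lit 5328) (.br (nat_lit 3) (.ch (nat_lit 0) (.ev (nat_lit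
 5344) (nat_lit 12288) .dd)) (.ch (nat_lit 3) (.fin (nat_lit 576508581399446166)))))) (.br (nat_lit 6) (.ch
 (nat_lit 5) (.ev (nat_lit 1488) (nat_lit 4096) (.ev (nat_lit 1501) (nat_lit 8192) .dd))) (.ch (nat_lit 6) (.ev
 (nat_lit 5044) (nat_lit 4096) (.ev (nat_lit 5053) (nat_lit 8192) .dd))))))))))))))) (.ch (nat_lit 1) (.ev
 (nat_lit 208) (nat_lit 45056) (.nd (nat_lit 736) (.br (nat_lit 3) (.br (nat_lit 2) (.ch (nat_lit 0) (.ev
 (nat_lit 752) (nat_lit 2) (.ev (nat_lit 948) (nat_lit 256) (.ev (nat_lit 957) (nat_lit 4) .dd)))) (.ch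
 (nat_lit 2) (.ev (nat_lit 752) (nat_lit 256) (.nd (nat_lit 1216) (.br (nat_lit 3) (.br (nat_lit 1) (.ch
 (nat_lit 0) (.ev (nat_lit 4692) (nat_lit 4) (.ev (nat_lit 4701) (nat_lit 2) .dd))) (.ch (nat_lit 1) (.nd
 (nat_lit 2176) (.br (nat_lit 5) (.br (nat_lit 2) (.ch (nat_lit 0) (.fin (nat_lit 576492088218567231))) (.ch
 (nat_lit 2) (.ev (nat_lit 4100) (nat_lit 2) (.ev (nat_lit 4109) (nat_lit 4) .dd)))) (.br (nat_lit 6) (.ch
 (nat_lit 5) (.ev (nat_lit 2192) (nat_lit 2) (.ev (nat_lit 2205) (nat_lit 4) .dd))) (.ch (nat_lit 6) (.ev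
 (nat_lit 2192) (nat_lit 4) (.ev (nat_lit 2205) (nat_lit 2) .dd)))))))) (.br (nat_lit 5) (.ch (nat_lit 3) (.ev
 (nat_lit 1232) (nat_lit 2) (.ev (nat_lit 1245) (nat_lit 4) .dd))) (.ch (nat_lit 5) (.fin (nat_lit
 576464600606130758))))))))) (.br (nat_lit 4) (.ch (nat_lit 3) (.ev (nat_lit 752) (nat_lit 2) (.nd (nat_lit
 1664) (.br (nat_lit 5) (.br (nat_lit 3) (.ch (nat_lit 2) (.ev (nat_lit 1680) (nat_lit 256) (.ev (nat_lit 1693)
 (nat_lit 4) .dd))) (.ch (nat_lit 3) (.ev (nat_lit 4964) (nat_lit 256) (.ev (nat_lit 4973) (nat_lit 4) .dd))))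
 (.br (nat_lit 6) (.ch (nat_lit 5) (.ev (nat_lit 1780) (nat_lit 256) (.ev (nat_lit 1789) (nat_lit 4) .dd)))
 (.ch (nat_lit 6) (.ev (nat_lit 5012) (nat_lit 256) (.ev (nat_lit 5021) (nat_lit 4) .dd)))))))) (.br (nat_lit
 5) (.ch (nat_lit 4) (.ev (nat_lit 752) (nat_lit 4) (.nd (nat_lit 1472) (.br (nat_lit 5) (.ch (nat_lit 1) (.ev
 (nat_lit 4836) (nat_lit 256) (.ev (nat_lit 4845) (nat_lit 2) .dd))) (.br (nat_lit 6) (.ch (nat_lit 5) (.ev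
 (nat_lit 1508) (nat_lit 256) (.ev (nat_lit 1517) (nat_lit 2) .dd))) (.ch (nat_lit 6) (.nd (nat_lit 2464) (.br
 (nat_lit 2) (.ch (nat_lit 1) (.ev (nat_lit 3936) (nat_lit 258) .dd)) (.br (nat_lit 4) (.ch (nat_lit 2) (.ev
 (nat_lit 4100) (nat_lit 256) (.ev (nat_lit 4109) (nat_lit 2) .dd))) (.ch (nat_lit 4) (.ev (nat_lit 4064)
 (nat_lit 258) .dd))))))))))) (.ch (nat_lit 5) (.nd (nat_lit 1360) (.br (nat_lit 3) (.br (nat_lit 2) (.ch
 (nat_lit 0) (.nd (nat_lit 2176) (.br (nat_lit 3) (.br (nat_lit 2) (.ch (nat_lit 1) (.ev (nat_lit 2192)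
 (nat_lit 256) (.ev (nat_lit 2404) (nat_lit 4) (.ev (nat_lit 2413) (nat_lit 2) .dd)))) (.ch (nat_lit 2) (.ev
 (nat_lit 2192) (nat_lit 4) (.ev (nat_lit 5012) (nat_lit 2) (.ev (nat_lit 5021) (nat_lit 256) .dd))))) (.br
 (nat_lit 5) (.ch (nat_lit 3) (.ev (nat_lit 2192) (nat_lit 4) (.ev (nat_lit 2740) (nat_lit 256) (.ev (nat_lit
 2749) (nat_lit 2) .dd)))) (.br (nat_lit 6) (.ch (nat_lit 5) (.ev (nat_lit 2192) (nat_lit 2) (.ev (nat_lit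
 4128) (nat_lit 260) .dd))) (.ch (nat_lit 6) (.ev (nat_lit 2192) (nat_lit 256) (.ev (nat_lit 2212) (nat_lit 2)
 (.ev (nat_lit 2221) (nat_lit 4) .dd))))))))) (.ch (nat_lit 2) (.ev (nat_lit 1376) (nat_lit 4) (.ev (nat_lit
 1552) (nat_lit 256) (.ev (nat_lit 1565) (nat_lit 2) .dd))))) (.br (nat_lit 4) (.ch (nat_lit 3) (.ev (nat_lit
 1376) (nat_lit 260) (.ev (nat_lit 1389) (nat_lit 2) .dd))) (.br (nat_lit 5) (.ch (nat_lit 4) (.ev (nat_lit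
 1376) (nat_lit 2) (.ev (nat_lit 4740) (nat_lit 4) (.ev (nat_lit 4749) (nat_lit 256) .dd)))) (.ch (nat_lit 5)
 (.ev (nat_lit 1376) (nat_lit 2) (.ev (nat_lit 4964) (nat_lit 4) (.ev (nat_lit 4973) (nat_lit 256)
 .dd)))))))))))))))) (.br (nat_lit 5) (.ch (nat_lit 4) (.ev (nat_lit 208) (nat_lit 256) (.nd (nat_lit 592) (.br
 (nat_lit 4) (.br (nat_lit 3) (.ch (nat_lit 1) (.ev (nat_lit 608) (nat_lit 8192) (.ev (nat_lit 868) (nat_lit
 32768) (.nd (nat_lit 1408) (.br (nat_lit 3) (.br (nat_lit 2) (.ch (nat_lit 0) (.ev (nat_lit 3780) (nat_lit 4)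
 (.nd (nat_lit 5392) (.ch (nat_lit 2) (.nd (nat_lit 6528) (.br (nat_lit 6) (.ch (nat_lit 4) (.ev (nat_lit 6644)
 (nat_lit 4096) (.ev (nat_lit 6653) (nat_lit 2) .dd))) (.ch (nat_lit 6) (.fin (nat_lit
 576607537146053546))))))))) (.ch (nat_lit 2) (.ev (nat_lit 1424) (nat_lit 4) (.ev (nat_lit 4836) (nat_lit
 4096) (.ev (nat_lit 4845) (nat_lit 2) .dd))))) (.br (nat_lit 4) (.ch (nat_lit 3) (.ev (nat_lit 1424) (nat_lit
 6) (.ev (nat_lit 1437) (nat_lit 4096) .dd))) (.br (nat_lit 6) (.ch (nat_lit 4) (.ev (nat_lit 1424) (nat_lit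
 4098) (.ev (nat_lit 1437) (nat_lit 4) .dd))) (.ch (nat_lit 6) (.ev (nat_lit 1424) (nat_lit 4096) (.nd (nat_lit
 4400) (.ch (nat_lit 6) (.ev (nat_lit 4564) (nat_lit 4) (.ev (nat_lit 4573) (nat_lit 2) .dd))))))))))))) (.ch
 (nat_lit 3) (.ev (nat_lit 608) (nat_lit 2) (.nd (nat_lit 1056) (.br (nat_lit 2) (.br (nat_lit 1) (.ch (nat_lit
 0) (.ev (nat_lit 1072) (nat_lit 32768) (.nd (nat_lit 2016) (.br (nat_lit 4) (.ch (nat_lit 2) (.ev (nat_lit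
 2032) (nat_lit 8192) (.ev (nat_lit 2052) (nat_lit 4096) (.ev (nat_lit 2061) (nat_lit 4) .dd)))) (.br (nat_lit
 5) (.ch (nat_lit 4) (.ev (nat_lit 2032) (nat_lit 8192) (.ev (nat_lit 3732) (nat_lit 4) (.ev (nat_lit 3741)
 (nat_lit 4096) .dd)))) (.ch (nat_lit 5) (.ev (nat_lit 2052) (nat_lit 4096) (.fin (nat_lit
 576470098150638157))))))))) (.ch (nat_lit 1) (.ev (nat_lit 1072) (nat_lit 4100) (.ev (nat_lit 2212) (nat_lit
 8192) (.ev (nat_lit 2221) (nat_lit 32768) .dd))))) (.br (nat_lit 4) (.ch (nat_lit 2) (.ev (nat_lit 1072)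
 (nat_lit 4) (.nd (nat_lit 1968) (.br (nat_lit 4) (.ch (nat_lit 0) (.ev (nat_lit 2516) (nat_lit 8192) (.ev
 (nat_lit 2740) (nat_lit 32768) (.ev (nat_lit 2749) (nat_lit 4096) .dd)))) (.br (nat_lit 5) (.ch (nat_lit 4)
 (.ev (nat_lit 1984) (nat_lit 4096) (.ev (nat_lit 2592) (nat_lit 40960) .dd))) (.ch (nat_lit 5) (.ev (nat_lit
 4836) (nat_lit 40960) (.ev (nat_lit 4845) (nat_lit 4096) .dd)))))))) (.br (nat_lit 6) (.ch (nat_lit 4) (.ev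
 (nat_lit 1204) (nat_lit 4) (.ev (nat_lit 1252) (nat_lit 4096) (.nd (nat_lit 2464) (.br (nat_lit 2) (.ch
 (nat_lit 1) (.ev (nat_lit 4164) (nat_lit 32768) (.ev (nat_lit 4173) (nat_lit 8192) .dd))) (.br (nat_lit 4)
 (.ch (nat_lit 2) (.ev (nat_lit 2480) (nat_lit 8192) (.ev (nat_lit 2493) (nat_lit 32768) .dd))) (.ch (nat_lit
 4) (.ev (nat_lit 4100) (nat_lit 32768) (.ev (nat_lit 4109) (nat_lit 8192) .dd))))))))) (.ch (nat_lit 6) (.ev
 (nat_lit 1072) (nat_lit 40960) (.nd (nat_lit 2896) (.br (nat_lit 5) (.ch (nat_lit 0) (.fin (nat_lit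
 576451406461354556))) (.ch (nat_lit 5) (.ev (nat_lit 3412) (nat_lit 4096) (.ev (nat_lit 3421) (nat_lit 4)
 .dd)))))))))))))) (.br (nat_lit 5) (.ch (nat_lit 4) (.ev (nat_lit 608) (nat_lit 2) (.nd (nat_lit 1360) (.br
 (nat_lit 3) (.br (nat_lit 1) (.ch (nat_lit 0) (.ev (nat_lit 1376) (nat_lit 32768) (.ev (nat_lit 1396) (nat_lit
 4096) (.nd (nat_lit 2176) (.br (nat_lit 5) (.br (nat_lit 2) (.ch (nat_lit 1) (.ev (nat_lit 2192) (nat_lit 4)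
 (.ev (nat_lit 2205) (nat_lit 8192) .dd))) (.ch (nat_lit 2) (.ev (nat_lit 3572) (nat_lit 8192) (.ev (nat_lit
 3581) (nat_lit 4) .dd)))) (.br (nat_lit 6) (.ch (nat_lit 5) (.ev (nat_lit 3572) (nat_lit 8192) (.ev (nat_lit
 3581) (nat_lit 4) .dd))) (.ch (nat_lit 6) (.ev (nat_lit 2192) (nat_lit 8196) .dd)))))))) (.ch (nat_lit 1) (.ev
 (nat_lit 1376) (nat_lit 4) (.nd (nat_lit 2176) (.br (nat_lit 4) (.br (nat_lit 3) (.ch (nat_lit 1) (.ev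
 (nat_lit 2192) (nat_lit 12288) (.ev (nat_lit 2205) (nat_lit 32768) .dd))) (.ch (nat_lit 3) (.ev (nat_lit 2192)
 (nat_lit 40960) (.ev (nat_lit 2205) (nat_lit 4096) .dd)))) (.br (nat_lit 6) (.ch (nat_lit 4) (.ev (nat_lit
 4596) (nat_lit 4096) (.ev (nat_lit 4916) (nat_lit 8192) (.ev (nat_lit 4925) (nat_lit 32768) .dd)))) (.ch
 (nat_lit 6) (.ev (nat_lit 3716) (nat_lit 4096) (.ev (nat_lit 4720) (nat_lit 40960) .dd))))))))) (.br (nat_lit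
 4) (.ch (nat_lit 3) (.ev (nat_lit 1376) (nat_lit 4) (.ev (nat_lit 1396) (nat_lit 4096) (.ev (nat_lit 1780)
 (nat_lit 32768) (.ev (nat_lit 1789) (nat_lit 8192) .dd))))) (.br (nat_lit 5) (.ch (nat_lit 4) (.ev (nat_lit
 1376) (nat_lit 12288) (.ev (nat_lit 4864) (nat_lit 32772) .dd))) (.ch (nat_lit 5) (.ev (nat_lit 1376) (nat_lit
 40960) (.ev (nat_lit 1620) (nat_lit 4) (.ev (nat_lit 1629) (nat_lit 4096) .dd)))))))))) (.br (nat_lit 6) (.ch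
 (nat_lit 5) (.ev (nat_lit 608) (nat_lit 45060) (.ev (nat_lit 621) (nat_lit 2) .dd))) (.ch (nat_lit 6) (.ev
 (nat_lit 608) (nat_lit 32772) (.nd (nat_lit 1264) (.br (nat_lit 4) (.br (nat_lit 3) (.ch (nat_lit 2) (.ev
 (nat_lit 1280) (nat_lit 2) (.nd (nat_lit 2896) (.br (nat_lit 3) (.ch (nat_lit 1) (.ev (nat_lit 2912) (nat_lit
 8192) (.ev (nat_lit 2925) (nat_lit 4096) .dd))) (.br (nat_lit 6) (.ch (nat_lit 3) (.ev (nat_lit 2912) (nat_lit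
 4096) (.ev (nat_lit 2925) (nat_lit 8192) .dd))) (.ch (nat_lit 6) (.ev (nat_lit 3632) (nat_lit 12288)
 .dd))))))) (.ch (nat_lit 3) (.ev (nat_lit 1280) (nat_lit 8194) (.ev (nat_lit 1293) (nat_lit 4096) .dd)))) (.br
 (nat_lit 5) (.ch (nat_lit 4) (.ev (nat_lit 1280) (nat_lit 4096) (.ev (nat_lit 1300) (nat_lit 8192) (.ev
 (nat_lit 1309) (nat_lit 2) .dd)))) (.ch (nat_lit 5) (.nd (nat_lit 2096) (.br (nat_lit 3) (.br (nat_lit 2) (.ch
 (nat_lit 0) (.ev (nat_lit 2112) (nat_lit 4096) (.ev (nat_lit 4740) (nat_lit 8192) (.ev (nat_lit 4749) (nat_lit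
 2) .dd)))) (.ch (nat_lit 2) (.ev (nat_lit 2112) (nat_lit 2) (.ev (nat_lit 5076) (nat_lit 8192) (.ev (nat_lit
 5085) (nat_lit 4096) .dd))))) (.br (nat_lit 5) (.ch (nat_lit 3) (.ev (nat_lit 2772) (nat_lit 4096) (.ev
 (nat_lit 4596) (nat_lit 2) (.ev (nat_lit 4605) (nat_lit 8192) .dd)))) (.ch (nat_lit 5) (.ev (nat_lit 2112)
 (nat_lit 8192) (.fin (nat_lit 576544865035698760))))))))))))))))))) (.br (nat_lit 6) (.ch (nat_lit 5) (.ev
 (nat_lit 208) (nat_lit 32768) (.nd (nat_lit 496) (.br (nat_lit 2) (.br (nat_lit 1) (.ch (nat_lit 0) (.ev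
 (nat_lit 512) (nat_lit 4356) (.nd (nat_lit 1216) (.br (nat_lit 4) (.br (nat_lit 3) (.ch (nat_lit 2) (.nd
 (nat_lit 3376) (.br (nat_lit 5) (.ch (nat_lit 0) (.ev (nat_lit 3392) (nat_lit 2) (.ev (nat_lit 3405) (nat_lit
 8192) .dd))) (.br (nat_lit 6) (.ch (nat_lit 5) (.fin (nat_lit 576464600600887883))) (.ch (nat_lit 6) (.ev
 (nat_lit 3392) (nat_lit 8192) (.ev (nat_lit 3405) (nat_lit 2) .dd))))))) (.ch (nat_lit 3) (.ev (nat_lit 1232)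
 (nat_lit 8192) (.ev (nat_lit 1245) (nat_lit 2) .dd)))) (.br (nat_lit 5) (.ch (nat_lit 4) (.nd (nat_lit 2016)
 (.br (nat_lit 4) (.ch (nat_lit 3) (.ev (nat_lit 2756) (nat_lit 2) (.ev (nat_lit 2765) (nat_lit 8192) .dd)))
 (.ch (nat_lit 4) (.ev (nat_lit 4916) (nat_lit 2) (.ev (nat_lit 4925) (nat_lit 8192) .dd)))))) (.ch (nat_lit 5)
 (.nd (nat_lit 1968) (.br (nat_lit 3) (.br (nat_lit 1) (.ch (nat_lit 0) (.ev (nat_lit 3748) (nat_lit 2) (.ev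
 (nat_lit 3757) (nat_lit 8192) .dd))) (.ch (nat_lit 1) (.ev (nat_lit 1984) (nat_lit 8192) (.ev (nat_lit 1997)
 (nat_lit 2) .dd)))) (.br (nat_lit 5) (.ch (nat_lit 3) (.ev (nat_lit 1984) (nat_lit 8192) (.ev (nat_lit 1997)
 (nat_lit 2) .dd))) (.ch (nat_lit 5) (.ev (nat_lit 1984) (nat_lit 2) (.ev (nat_lit 1997) (nat_lit 8192)
 .dd)))))))))))) (.ch (nat_lit 1) (.nd (nat_lit 1056) (.br (nat_lit 4) (.br (nat_lit 3) (.ch (nat_lit 0) (.ev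
 (nat_lit 1072) (nat_lit 8450) (.nd (nat_lit 3376) (.br (nat_lit 3) (.ch (nat_lit 1) (.ev (nat_lit 3680)
 (nat_lit 4100) .dd)) (.br (nat_lit 5) (.ch (nat_lit 3) (.ev (nat_lit 4740) (nat_lit 4096) (.ev (nat_lit 4749)
 (nat_lit 4) .dd))) (.ch (nat_lit 5) (.ev (nat_lit 3392) (nat_lit 4096) (.ev (nat_lit 3405) (nat_lit 4)
 .dd)))))))) (.ch (nat_lit 3) (.ev (nat_lit 1072) (nat_lit 4100) (.ev (nat_lit 1508) (nat_lit 256) (.ev
 (nat_lit 4756) (nat_lit 8192) (.ev (nat_lit 4765) (nat_lit 2) .dd)))))) (.br (nat_lit 5) (.ch (nat_lit 4) (.ev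
 (nat_lit 1072) (nat_lit 256) (.nd (nat_lit 3856) (.br (nat_lit 4) (.br (nat_lit 3) (.ch (nat_lit 0) (.ev
 (nat_lit 3872) (nat_lit 6) (.fin (nat_lit 576451406456111681)))) (.ch (nat_lit 3) (.ev (nat_lit 3872) (nat_lit
 12288) (.ev (nat_lit 4176) (nat_lit 6) .dd)))) (.br (nat_lit 5) (.ch (nat_lit 4) (.ev (nat_lit 3872) (nat_lit
 6) (.ev (nat_lit 4672) (nat_lit 12288) .dd))) (.br (nat_lit 6) (.ch (nat_lit 5) (.ev (nat_lit 3872) (nat_lit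
 12290) (.ev (nat_lit 3885) (nat_lit 4) .dd))) (.ch (nat_lit 6) (.ev (nat_lit 3872) (nat_lit 4096) (.ev
 (nat_lit 5572) (nat_lit 8192) (.nd (nat_lit 6608) (.br (nat_lit 2) (.ch (nat_lit 1) (.fin (nat_lit
 576222708002931381))) (.br (nat_lit 6) (.ch (nat_lit 2) (.ev (nat_lit 6624) (nat_lit 4) (.ev (nat_lit 6637)
 (nat_lit 2) .dd))) (.ch (nat_lit 6) (.ev (nat_lit 6624) (nat_lit 6) .dd)))))))))))))) (.br (nat_lit 6) (.ch
 (nat_lit 5) (.ev (nat_lit 1072) (nat_lit 8194) (.nd (nat_lit 2016) (.br (nat_lit 5) (.ch (nat_lit 3) (.nd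
 (nat_lit 6128) (.br (nat_lit 2) (.ch (nat_lit 0) (.ev (nat_lit 6144) (nat_lit 4096) (.fin (nat_lit
 576453605440569936)))) (.ch (nat_lit 2) (.ev (nat_lit 6144) (nat_lit 4) (.fin (nat_lit
 576338156664078911))))))) (.br (nat_lit 6) (.ch (nat_lit 5) (.ev (nat_lit 2032) (nat_lit 4) (.ev (nat_lit
 2212) (nat_lit 4096) (.ev (nat_lit 2221) (nat_lit 256) .dd)))) (.ch (nat_lit 6) (.ev (nat_lit 2500) (nat_lit
 256) (.ev (nat_lit 4064) (nat_lit 4) (.ev (nat_lit 4077) (nat_lit 4096) .dd))))))))) (.ch (nat_lit 6) (.ev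
 (nat_lit 1072) (nat_lit 4096) (.ev (nat_lit 1444) (nat_lit 8194) (.nd (nat_lit 4400) (.br (nat_lit 5) (.ch
 (nat_lit 2) (.ev (nat_lit 4916) (nat_lit 4) (.ev (nat_lit 4925) (nat_lit 256) .dd))) (.br (nat_lit 6) (.ch
 (nat_lit 5) (.ev (nat_lit 4916) (nat_lit 4) (.ev (nat_lit 4925) (nat_lit 256) .dd))) (.ch (nat_lit 6) (.ev
 (nat_lit 4416) (nat_lit 260) .dd)))))))))))))) (.br (nat_lit 3) (.ch (nat_lit 2) (.nd (nat_lit 1088) (.br
 (nat_lit 2) (.br (nat_lit 1) (.ch (nat_lit 0) (.ev (nat_lit 1104) (nat_lit 260) (.nd (nat_lit 2016) (.br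
 (nat_lit 3) (.br (nat_lit 2) (.ch (nat_lit 0) (.ev (nat_lit 2420) (nat_lit 4096) (.ev (nat_lit 5092) (nat_lit
 2) (.ev (nat_lit 5101) (nat_lit 8192) .dd)))) (.ch (nat_lit 2) (.ev (nat_lit 2032) (nat_lit 4096) (.fin
 (nat_lit 576505282403189332))))) (.br (nat_lit 4) (.ch (nat_lit 3) (.ev (nat_lit 2032) (nat_lit 8192) (.ev
 (nat_lit 2756) (nat_lit 4096) (.ev (nat_lit 2765) (nat_lit 2) .dd)))) (.br (nat_lit 5) (.ch (nat_lit 4) (.ev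
 (nat_lit 2032) (nat_lit 8194) (.ev (nat_lit 2045) (nat_lit 4096) .dd))) (.ch (nat_lit 5) (.ev (nat_lit 2032)
 (nat_lit 2) (.ev (nat_lit 4964) (nat_lit 8192) (.ev (nat_lit 4973) (nat_lit 4096) .dd)))))))))) (.ch (nat_lit
 1) (.ev (nat_lit 1104) (nat_lit 4) (.ev (nat_lit 1300) (nat_lit 2) (.ev (nat_lit 1396) (nat_lit 4096) (.ev
 (nat_lit 1940) (nat_lit 256) (.ev (nat_lit 1949) (nat_lit 8192) .dd))))))) (.br (nat_lit 3) (.ch (nat_lit 2)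
 (.ev (nat_lit 1104) (nat_lit 12290) (.nd (nat_lit 2704) (.br (nat_lit 4) (.br (nat_lit 3) (.ch (nat_lit 0)
 (.ev (nat_lit 3988) (nat_lit 4) (.ev (nat_lit 3997) (nat_lit 256) .dd))) (.ch (nat_lit 3) (.ev (nat_lit 2720)
 (nat_lit 4) (.ev (nat_lit 2733) (nat_lit 256) .dd)))) (.br (nat_lit 6) (.ch (nat_lit 4) (.ev (nat_lit 2720)
 (nat_lit 256) (.ev (nat_lit 2733) (nat_lit 4) .dd))) (.ch (nat_lit 6) (.ev (nat_lit 2720) (nat_lit 256) (.ev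
 (nat_lit 2733) (nat_lit 4) .dd)))))))) (.br (nat_lit 5) (.ch (nat_lit 3) (.ev (nat_lit 1104) (nat_lit 2) (.ev
 (nat_lit 1572) (nat_lit 4096) (.nd (nat_lit 2096) (.br (nat_lit 3) (.br (nat_lit 2) (.ch (nat_lit 1) (.ev
 (nat_lit 2112) (nat_lit 4) (.ev (nat_lit 3700) (nat_lit 8192) (.ev (nat_lit 3709) (nat_lit 256) .dd)))) (.ch
 (nat_lit 2) (.ev (nat_lit 2112) (nat_lit 4) (.ev (nat_lit 2132) (nat_lit 8192) (.ev (nat_lit 2141) (nat_lit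
 256) .dd))))) (.br (nat_lit 4) (.ch (nat_lit 3) (.ev (nat_lit 2112) (nat_lit 8192) (.ev (nat_lit 4064)
 (nat_lit 4) (.ev (nat_lit 4077) (nat_lit 256) .dd)))) (.ch (nat_lit 4) (.ev (nat_lit 2112) (nat_lit 256) (.fin
 (nat_lit 576474496205537866)))))))))) (.ch (nat_lit 5) (.ev (nat_lit 1104) (nat_lit 4096) (.nd (nat_lit 1968)
 (.br (nat_lit 3) (.br (nat_lit 2) (.ch (nat_lit 0) (.ev (nat_lit 1984) (nat_lit 8452) (.ev (nat_lit 1997)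
 (nat_lit 2) .dd))) (.ch (nat_lit 2) (.ev (nat_lit 1984) (nat_lit 8192) (.ev (nat_lit 2932) (nat_lit 2) (.ev
 (nat_lit 5172) (nat_lit 4) (.ev (nat_lit 5181) (nat_lit 256) .dd)))))) (.br (nat_lit 5) (.ch (nat_lit 3) (.ev
 (nat_lit 2756) (nat_lit 256) (.ev (nat_lit 3668) (nat_lit 2) (.ev (nat_lit 4496) (nat_lit 8192) (.ev (nat_lit
 4509) (nat_lit 4) .dd))))) (.br (nat_lit 6) (.ch (nat_lit 5) (.ev (nat_lit 1984) (nat_lit 8194) (.ev (nat_lit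
 2624) (nat_lit 260) .dd))) (.ch (nat_lit 6) (.ev (nat_lit 1984) (nat_lit 8198) (.ev (nat_lit 1997) (nat_lit
 256) .dd)))))))))))))) (.br (nat_lit 4) (.ch (nat_lit 3) (.ev (nat_lit 512) (nat_lit 12544) (.nd (nat_lit
 1312) (.br (nat_lit 2) (.br (nat_lit 1) (.ch (nat_lit 0) (.ev (nat_lit 1328) (nat_lit 4) (.ev (nat_lit 1341)
 (nat_lit 2) .dd))) (.ch (nat_lit 1) (.nd (nat_lit 2704) (.br (nat_lit 2) (.ch (nat_lit 1) (.ev (nat_lit 3700)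
 (nat_lit 4) (.ev (nat_lit 3709) (nat_lit 2) .dd))) (.br (nat_lit 6) (.ch (nat_lit 2) (.ev (nat_lit 4564)
 (nat_lit 4) (.ev (nat_lit 4573) (nat_lit 2) .dd))) (.ch (nat_lit 6) (.ev (nat_lit 2740) (nat_lit 2) (.ev
 (nat_lit 2749) (nat_lit 4) .dd)))))))) (.br (nat_lit 5) (.ch (nat_lit 2) (.ev (nat_lit 1328) (nat_lit 2) (.ev
 (nat_lit 1341) (nat_lit 4) .dd))) (.br (nat_lit 6) (.ch (nat_lit 5) (.ev (nat_lit 1328) (nat_lit 4) (.ev
 (nat_lit 1341) (nat_lit 2) .dd))) (.ch (nat_lit 6) (.ev (nat_lit 1636) (nat_lit 2) (.ev (nat_lit 1645)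
 (nat_lit 4) .dd))))))))) (.ch (nat_lit 4) (.ev (nat_lit 512) (nat_lit 2) (.nd (nat_lit 1264) (.br (nat_lit 2)
 (.br (nat_lit 1) (.ch (nat_lit 0) (.ev (nat_lit 1280) (nat_lit 8448) (.nd (nat_lit 2704) (.br (nat_lit 3) (.ch
 (nat_lit 1) (.ev (nat_lit 4704) (nat_lit 4100) .dd)) (.ch (nat_lit 3) (.ev (nat_lit 4916) (nat_lit 4096) (.ev
 (nat_lit 4925) (nat_lit 4) .dd))))))) (.ch (nat_lit 1) (.ev (nat_lit 1280) (nat_lit 4096) (.nd (nat_lit 2176)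
 (.br (nat_lit 5) (.br (nat_lit 2) (.ch (nat_lit 1) (.ev (nat_lit 2192) (nat_lit 4) (.nd (nat_lit 7136) (.ch
 (nat_lit 4) (.fin (nat_lit 576355748949738070)))))) (.ch (nat_lit 2) (.ev (nat_lit 2192) (nat_lit 256) (.ev
 (nat_lit 4052) (nat_lit 8192) (.ev (nat_lit 4061) (nat_lit 4) .dd))))) (.br (nat_lit 6) (.ch (nat_lit 5) (.ev
 (nat_lit 3988) (nat_lit 8192) (.fin (nat_lit 576476694882763695)))) (.ch (nat_lit 6) (.ev (nat_lit 2192)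
 (nat_lit 4) (.ev (nat_lit 4272) (nat_lit 8448) .dd))))))))) (.br (nat_lit 4) (.ch (nat_lit 2) (.ev (nat_lit
 1280) (nat_lit 4096) (.nd (nat_lit 2016) (.br (nat_lit 5) (.br (nat_lit 1) (.ch (nat_lit 0) (.ev (nat_lit
 2032) (nat_lit 8192) (.ev (nat_lit 3252) (nat_lit 256) (.ev (nat_lit 3261) (nat_lit 4) .dd)))) (.ch (nat_lit
 1) (.ev (nat_lit 2032) (nat_lit 8192) (.ev (nat_lit 4564) (nat_lit 256) (.ev (nat_lit 4573) (nat_lit 4)
 .dd))))) (.br (nat_lit 6) (.ch (nat_lit 5) (.ev (nat_lit 2032) (nat_lit 256) (.ev (nat_lit 4340) (nat_lit 4)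
 (.ev (nat_lit 4349) (nat_lit 8192) .dd)))) (.ch (nat_lit 6) (.ev (nat_lit 3252) (nat_lit 256) (.fin (nat_lit
 576456904105476580))))))))) (.br (nat_lit 6) (.ch (nat_lit 4) (.ev (nat_lit 1280) (nat_lit 4) (.nd (nat_lit
 1968) (.br (nat_lit 2) (.ch (nat_lit 1) (.ev (nat_lit 2288) (nat_lit 256) (.ev (nat_lit 3988) (nat_lit 4096)
 (.ev (nat_lit 3997) (nat_lit 8192) .dd)))) (.br (nat_lit 6) (.ch (nat_lit 2) (.ev (nat_lit 4000) (nat_lit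
 4096) (.ev (nat_lit 4244) (nat_lit 256) (.ev (nat_lit 4253) (nat_lit 8192) .dd)))) (.ch (nat_lit 6) (.ev
 (nat_lit 1984) (nat_lit 8192) (.ev (nat_lit 4164) (nat_lit 4096) (.ev (nat_lit 4173) (nat_lit 256)
 .dd))))))))) (.ch (nat_lit 6) (.ev (nat_lit 1280) (nat_lit 8448) (.ev (nat_lit 1540) (nat_lit 4096) (.ev
 (nat_lit 1549) (nat_lit 4) .dd)))))))))))))))) (.ch (nat_lit 6) (.ev (nat_lit 208) (nat_lit 8194) (.nd
 (nat_lit 768) (.br (nat_lit 2) (.br (nat_lit 1) (.ch (nat_lit 0) (.nd (nat_lit 1584) (.br (nat_lit 3) (.br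
 (nat_lit 2) (.ch (nat_lit 0) (.ev (nat_lit 1600) (nat_lit 4100) (.fin (nat_lit 576465700110418498)))) (.ch
 (nat_lit 2) (.ev (nat_lit 1600) (nat_lit 32768) (.nd (nat_lit 2704) (.br (nat_lit 4) (.br (nat_lit 3) (.ch
 (nat_lit 1) (.ev (nat_lit 4528) (nat_lit 256) (.fin (nat_lit 576496486429704664)))) (.ch (nat_lit 3) (.ev
 (nat_lit 2720) (nat_lit 4096) (.ev (nat_lit 3888) (nat_lit 260) .dd)))) (.br (nat_lit 5) (.ch (nat_lit 4) (.ev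
 (nat_lit 2720) (nat_lit 4) (.ev (nat_lit 4756) (nat_lit 4096) (.ev (nat_lit 4765) (nat_lit 256) .dd)))) (.ch
 (nat_lit 5) (.ev (nat_lit 2720) (nat_lit 256) (.ev (nat_lit 4564) (nat_lit 4) (.ev (nat_lit 4573) (nat_lit
 4096) .dd)))))))))) (.br (nat_lit 4) (.ch (nat_lit 3) (.ev (nat_lit 1600) (nat_lit 36864) (.ev (nat_lit 1796)
 (nat_lit 256) (.ev (nat_lit 1805) (nat_lit 4) .dd)))) (.br (nat_lit 5) (.ch (nat_lit 4) (.ev (nat_lit 1600)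
 (nat_lit 256) (.ev (nat_lit 1620) (nat_lit 4100) (.ev (nat_lit 1629) (nat_lit 32768) .dd)))) (.ch (nat_lit 5)
 (.ev (nat_lit 1600) (nat_lit 4352) (.ev (nat_lit 5300) (nat_lit 4) (.ev (nat_lit 5309) (nat_lit 32768)
 .dd))))))))) (.ch (nat_lit 1) (.ev (nat_lit 784) (nat_lit 4096) (.nd (nat_lit 1744) (.br (nat_lit 2) (.ch
 (nat_lit 1) (.ev (nat_lit 1760) (nat_lit 4) (.ev (nat_lit 1780) (nat_lit 32768) (.ev (nat_lit 1789) (nat_lit
 256) .dd)))) (.br (nat_lit 5) (.ch (nat_lit 2) (.ev (nat_lit 1760) (nat_lit 256) (.nd (nat_lit 3856) (.br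
 (nat_lit 4) (.ch (nat_lit 3) (.ev (nat_lit 3908) (nat_lit 32768) (.ev (nat_lit 3917) (nat_lit 4) .dd))) (.br
 (nat_lit 6) (.ch (nat_lit 4) (.ev (nat_lit 4292) (nat_lit 4) (.ev (nat_lit 4301) (nat_lit 32768) .dd))) (.ch
 (nat_lit 6) (.ev (nat_lit 3908) (nat_lit 32768) (.ev (nat_lit 3917) (nat_lit 4) .dd)))))))) (.ch (nat_lit 5)
 (.ev (nat_lit 4052) (nat_lit 4) (.ev (nat_lit 4784) (nat_lit 33024) .dd))))))))) (.br (nat_lit 3) (.ch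
 (nat_lit 2) (.ev (nat_lit 784) (nat_lit 33024) (.ev (nat_lit 804) (nat_lit 4096) (.ev (nat_lit 813) (nat_lit
 4) .dd)))) (.ch (nat_lit 3) (.nd (nat_lit 1472) (.br (nat_lit 4) (.br (nat_lit 2) (.ch (nat_lit 0) (.ev
 (nat_lit 1488) (nat_lit 4096) (.nd (nat_lit 3216) (.br (nat_lit 1) (.ch (nat_lit 0) (.ev (nat_lit 3908)
 (nat_lit 32768) (.ev (nat_lit 4692) (nat_lit 4) (.ev (nat_lit 4701) (nat_lit 256) .dd)))) (.br (nat_lit 3)
 (.ch (nat_lit 1) (.ev (nat_lit 3232) (nat_lit 32768) (.ev (nat_lit 4944) (nat_lit 260) .dd))) (.ch (nat_lit 3)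
 (.ev (nat_lit 3908) (nat_lit 32768) (.ev (nat_lit 4244) (nat_lit 4) (.ev (nat_lit 4253) (nat_lit 256)
 .dd))))))))) (.ch (nat_lit 2) (.ev (nat_lit 1488) (nat_lit 32768) (.nd (nat_lit 4400) (.br (nat_lit 1) (.ch
 (nat_lit 0) (.ev (nat_lit 4416) (nat_lit 4) (.nd (nat_lit 6656) (.br (nat_lit 4) (.ch (nat_lit 1) (.ev
 (nat_lit 6676) (nat_lit 4096) (.ev (nat_lit 6685) (nat_lit 256) .dd))) (.ch (nat_lit 4) (.fin (nat_lit
 576684502666396341))))))) (.br (nat_lit 5) (.ch (nat_lit 1) (.ev (nat_lit 4512) (nat_lit 256) (.ev (nat_lit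
 4848) (nat_lit 4100) .dd))) (.ch (nat_lit 5) (.ev (nat_lit 4976) (nat_lit 4096) (.ev (nat_lit 5508) (nat_lit
 256) (.ev (nat_lit 5517) (nat_lit 4) .dd)))))))))) (.br (nat_lit 5) (.ch (nat_lit 4) (.ev (nat_lit 1488)
 (nat_lit 256) (.ev (nat_lit 4208) (nat_lit 4) (.ev (nat_lit 4596) (nat_lit 4096) (.ev (nat_lit 4605) (nat_lit
 32768) .dd))))) (.ch (nat_lit 5) (.nd (nat_lit 4400) (.br (nat_lit 4) (.ch (nat_lit 1) (.ev (nat_lit 4416)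
 (nat_lit 4100) (.ev (nat_lit 4544) (nat_lit 33024) .dd))) (.br (nat_lit 6) (.ch (nat_lit 4) (.ev (nat_lit
 4416) (nat_lit 256) (.ev (nat_lit 4916) (nat_lit 4096) (.nd (nat_lit 7152) (.br (nat_lit 4) (.ch (nat_lit 3)
 (.fin (nat_lit 576487690460414590))) (.br (nat_lit 5) (.ch (nat_lit 4) (.ev (nat_lit 7168) (nat_lit 32768)
 (.ev (nat_lit 7181) (nat_lit 4) .dd))) (.ch (nat_lit 5) (.ev (nat_lit 7168) (nat_lit 4) (.ev (nat_lit 7181)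
 (nat_lit 32768) .dd))))))))) (.ch (nat_lit 6) (.ev (nat_lit 4416) (nat_lit 36864) (.ev (nat_lit 4644) (nat_lit
 256) (.ev (nat_lit 4653) (nat_lit 4) .dd))))))))))))))))))))))) (.ch (nat_lit 1) (.ev (nat_lit 48) (nat_lit
 41218) (.nd (nat_lit 320) (.br (nat_lit 3) (.br (nat_lit 1) (.ch (nat_lit 0) (.ev (nat_lit 336) (nat_lit 4096)
 (.nd (nat_lit 832) (.br (nat_lit 3) (.br (nat_lit 1) (.ch (nat_lit 0) (.ev (nat_lit 848) (nat_lit 64) (.nd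
 (nat_lit 1664) (.br (nat_lit 4) (.br (nat_lit 3) (.ch (nat_lit 0) (.ev (nat_lit 5012) (nat_lit 4) (.ev
 (nat_lit 5021) (nat_lit 2048) .dd))) (.ch (nat_lit 3) (.ev (nat_lit 1680) (nat_lit 2052) .dd))) (.br (nat_lit
 5) (.ch (nat_lit 4) (.ev (nat_lit 4756) (nat_lit 4) (.ev (nat_lit 4765) (nat_lit 2048) .dd))) (.br (nat_lit 6)
 (.ch (nat_lit 5) (.ev (nat_lit 1680) (nat_lit 2052) .dd)) (.ch (nat_lit 6) (.nd (nat_lit 2704) (.br (nat_lit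
 5) (.br (nat_lit 3) (.ch (nat_lit 2) (.ev (nat_lit 2720) (nat_lit 4) (.ev (nat_lit 2733) (nat_lit 2048) .dd)))
 (.ch (nat_lit 3) (.ev (nat_lit 5044) (nat_lit 4) (.ev (nat_lit 5053) (nat_lit 2048) .dd)))) (.br (nat_lit 6)
 (.ch (nat_lit 5) (.ev (nat_lit 4164) (nat_lit 4) (.ev (nat_lit 4173) (nat_lit 2048) .dd))) (.ch (nat_lit 6)
 (.ev (nat_lit 2720) (nat_lit 2048) (.ev (nat_lit 2733) (nat_lit 4) .dd))))))))))))) (.ch (nat_lit 1) (.ev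
 (nat_lit 848) (nat_lit 2048) (.nd (nat_lit 1744) (.br (nat_lit 4) (.br (nat_lit 3) (.ch (nat_lit 2) (.ev
 (nat_lit 1760) (nat_lit 64) (.ev (nat_lit 1773) (nat_lit 4) .dd))) (.ch (nat_lit 3) (.ev (nat_lit 4916)
 (nat_lit 64) (.ev (nat_lit 4925) (nat_lit 4) .dd)))) (.br (nat_lit 5) (.ch (nat_lit 4) (.ev (nat_lit 1760)
 (nat_lit 68) .dd)) (.br (nat_lit 6) (.ch (nat_lit 5) (.ev (nat_lit 4964) (nat_lit 64) (.ev (nat_lit 4973)
 (nat_lit 4) .dd))) (.ch (nat_lit 6) (.ev (nat_lit 1760) (nat_lit 4) (.ev (nat_lit 1773) (nat_lit 64)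
 .dd)))))))))) (.br (nat_lit 4) (.ch (nat_lit 3) (.ev (nat_lit 848) (nat_lit 2052) (.ev (nat_lit 861) (nat_lit
 64) .dd))) (.br (nat_lit 6) (.ch (nat_lit 4) (.nd (nat_lit 1408) (.br (nat_lit 4) (.br (nat_lit 2) (.ch
 (nat_lit 0) (.nd (nat_lit 3856) (.br (nat_lit 5) (.br (nat_lit 2) (.ch (nat_lit 1) (.ev (nat_lit 3872)
 (nat_lit 2048) (.ev (nat_lit 4100) (nat_lit 4) (.ev (nat_lit 4109) (nat_lit 64) .dd)))) (.ch (nat_lit 2) (.ev
 (nat_lit 3872) (nat_lit 64) (.ev (nat_lit 4052) (nat_lit 2048) (.ev (nat_lit 4061) (nat_lit 4) .dd))))) (.br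
 (nat_lit 6) (.ch (nat_lit 5) (.ev (nat_lit 3872) (nat_lit 4) (.ev (nat_lit 3908) (nat_lit 64) (.ev (nat_lit
 3917) (nat_lit 2048) .dd)))) (.ch (nat_lit 6) (.ev (nat_lit 3872) (nat_lit 4) (.ev (nat_lit 4052) (nat_lit
 2048) (.ev (nat_lit 4061) (nat_lit 64) .dd)))))))) (.ch (nat_lit 2) (.ev (nat_lit 1424) (nat_lit 4) (.ev
 (nat_lit 2228) (nat_lit 64) (.ev (nat_lit 2237) (nat_lit 2048) .dd))))) (.br (nat_lit 6) (.ch (nat_lit 4) (.ev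
 (nat_lit 1424) (nat_lit 2112) (.ev (nat_lit 1437) (nat_lit 4) .dd))) (.ch (nat_lit 6) (.ev (nat_lit 1424)
 (nat_lit 2048) (.nd (nat_lit 2704) (.br (nat_lit 4) (.ch (nat_lit 1) (.ev (nat_lit 2720) (nat_lit 64) (.ev
 (nat_lit 2733) (nat_lit 4) .dd))) (.br (nat_lit 5) (.ch (nat_lit 4) (.ev (nat_lit 4768) (nat_lit 68) .dd))
 (.ch (nat_lit 5) (.ev (nat_lit 2720) (nat_lit 4) (.ev (nat_lit 2733) (nat_lit 64) .dd)))))))))))) (.ch
 (nat_lit 6) (.ev (nat_lit 848) (nat_lit 64) (.ev (nat_lit 932) (nat_lit 2048) (.ev (nat_lit 941) (nat_lit 4)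
 .dd)))))))))) (.ch (nat_lit 1) (.nd (nat_lit 832) (.br (nat_lit 2) (.br (nat_lit 1) (.ch (nat_lit 0) (.ev
 (nat_lit 848) (nat_lit 64) (.nd (nat_lit 1664) (.br (nat_lit 3) (.br (nat_lit 1) (.ch (nat_lit 0) (.ev
 (nat_lit 1680) (nat_lit 4) (.ev (nat_lit 1780) (nat_lit 4096) (.ev (nat_lit 1789) (nat_lit 2048) .dd)))) (.ch
 (nat_lit 1) (.ev (nat_lit 1680) (nat_lit 2048) (.ev (nat_lit 4836) (nat_lit 4) (.ev (nat_lit 4845) (nat_lit
 4096) .dd))))) (.br (nat_lit 4) (.ch (nat_lit 3) (.ev (nat_lit 1680) (nat_lit 2048) (.ev (nat_lit 1796)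
 (nat_lit 4) (.ev (nat_lit 1805) (nat_lit 4096) .dd)))) (.ch (nat_lit 4) (.ev (nat_lit 1680) (nat_lit 4100)
 (.ev (nat_lit 1693) (nat_lit 2048) .dd)))))))) (.ch (nat_lit 1) (.ev (nat_lit 848) (nat_lit 4100) (.nd
 (nat_lit 1360) (.br (nat_lit 4) (.br (nat_lit 2) (.ch (nat_lit 1) (.nd (nat_lit 2704) (.br (nat_lit 5) (.ch
 (nat_lit 1) (.ev (nat_lit 2720) (nat_lit 2048) (.ev (nat_lit 2733) (nat_lit 64) .dd))) (.br (nat_lit 6) (.ch
 (nat_lit 5) (.ev (nat_lit 4308) (nat_lit 64) (.ev (nat_lit 4317) (nat_lit 2048) .dd))) (.ch (nat_lit 6) (.ev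
 (nat_lit 2720) (nat_lit 2048) (.ev (nat_lit 2733) (nat_lit 64) .dd))))))) (.ch (nat_lit 2) (.ev (nat_lit 1376)
 (nat_lit 64) (.ev (nat_lit 1389) (nat_lit 2048) .dd)))) (.br (nat_lit 6) (.ch (nat_lit 4) (.ev (nat_lit 1376)
 (nat_lit 2048) (.ev (nat_lit 1389) (nat_lit 64) .dd))) (.ch (nat_lit 6) (.nd (nat_lit 2176) (.br (nat_lit 5)
 (.ch (nat_lit 1) (.ev (nat_lit 4112) (nat_lit 2112) .dd)) (.ch (nat_lit 5) (.ev (nat_lit 4836) (nat_lit 64)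
 (.ev (nat_lit 4845) (nat_lit 2048) .dd)))))))))))) (.br (nat_lit 4) (.ch (nat_lit 2) (.ev (nat_lit 848)
 (nat_lit 4) (.nd (nat_lit 1584) (.br (nat_lit 3) (.br (nat_lit 2) (.ch (nat_lit 0) (.nd (nat_lit 3376) (.br
 (nat_lit 4) (.br (nat_lit 2) (.ch (nat_lit 1) (.ev (nat_lit 3680) (nat_lit 2048) (.ev (nat_lit 4512) (nat_lit
 4096) (.ev (nat_lit 4525) (nat_lit 64) .dd)))) (.ch (nat_lit 2) (.ev (nat_lit 3392) (nat_lit 6144) (.ev
 (nat_lit 3405) (nat_lit 64) .dd)))) (.br (nat_lit 5) (.ch (nat_lit 4) (.ev (nat_lit 3392) (nat_lit 2048) (.ev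
 (nat_lit 4080) (nat_lit 64) (.ev (nat_lit 4093) (nat_lit 4096) .dd)))) (.ch (nat_lit 5) (.ev (nat_lit 3392)
 (nat_lit 64) (.fin (nat_lit 576368943026356820)))))))) (.ch (nat_lit 2) (.ev (nat_lit 1600) (nat_lit 4160)
 (.ev (nat_lit 1613) (nat_lit 2048) .dd)))) (.br (nat_lit 4) (.ch (nat_lit 3) (.ev (nat_lit 1600) (nat_lit 64)
 (.nd (nat_lit 3376) (.br (nat_lit 5) (.ch (nat_lit 3) (.ev (nat_lit 4916) (nat_lit 4096) (.ev (nat_lit 4925)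
 (nat_lit 2048) .dd))) (.br (nat_lit 6) (.ch (nat_lit 5) (.ev (nat_lit 3760) (nat_lit 6144) .dd)) (.ch (nat_lit
 6) (.ev (nat_lit 4740) (nat_lit 4096) (.ev (nat_lit 4749) (nat_lit 2048) .dd)))))))) (.br (nat_lit 5) (.ch
 (nat_lit 4) (.ev (nat_lit 1600) (nat_lit 2048) (.nd (nat_lit 5328) (.br (nat_lit 4) (.ch (nat_lit 2) (.nd
 (nat_lit 7088) (.br (nat_lit 3) (.ch (nat_lit 2) (.fin (nat_lit 576465700060086730))) (.ch (nat_lit 3) (.ev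
 (nat_lit 7104) (nat_lit 4096) (.ev (nat_lit 7117) (nat_lit 64) .dd)))))) (.ch (nat_lit 4) (.ev (nat_lit 5344)
 (nat_lit 64) (.ev (nat_lit 5357) (nat_lit 4096) .dd))))))) (.ch (nat_lit 5) (.ev (nat_lit 1796) (nat_lit 4096)
 (.nd (nat_lit 3856) (.br (nat_lit 3) (.br (nat_lit 2) (.ch (nat_lit 1) (.ev (nat_lit 3872) (nat_lit 2048) (.ev
 (nat_lit 3885) (nat_lit 64) .dd))) (.ch (nat_lit 2) (.ev (nat_lit 3872) (nat_lit 64) (.ev (nat_lit 3885)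
 (nat_lit 2048) .dd)))) (.br (nat_lit 4) (.ch (nat_lit 3) (.ev (nat_lit 3872) (nat_lit 2112) .dd)) (.br
 (nat_lit 6) (.ch (nat_lit 4) (.ev (nat_lit 3872) (nat_lit 64) (.ev (nat_lit 3885) (nat_lit 2048) .dd))) (.ch
 (nat_lit 6) (.ev (nat_lit 3872) (nat_lit 2048) (.ev (nat_lit 3885) (nat_lit 64) .dd))))))))))))))) (.br
 (nat_lit 6) (.ch (nat_lit 4) (.ev (nat_lit 848) (nat_lit 6144) (.nd (nat_lit 1744) (.br (nat_lit 4) (.ch
 (nat_lit 3) (.ev (nat_lit 5316) (nat_lit 64) (.ev (nat_lit 5325) (nat_lit 4) .dd))) (.br (nat_lit 6) (.ch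
 (nat_lit 4) (.nd (nat_lit 5792) (.br (nat_lit 3) (.ch (nat_lit 0) (.ev (nat_lit 5808) (nat_lit 68) .dd)) (.ch
 (nat_lit 3) (.fin (nat_lit 576461302055518782)))))) (.ch (nat_lit 6) (.ev (nat_lit 1780) (nat_lit 64) (.ev
 (nat_lit 1789) (nat_lit 4) .dd)))))))) (.ch (nat_lit 6) (.ev (nat_lit 848) (nat_lit 64) (.ev (nat_lit 868)
 (nat_lit 4096) (.nd (nat_lit 1664) (.br (nat_lit 4) (.br (nat_lit 3) (.ch (nat_lit 1) (.ev (nat_lit 1680)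
 (nat_lit 2052) .dd)) (.ch (nat_lit 3) (.nd (nat_lit 5472) (.br (nat_lit 2) (.ch (nat_lit 1) (.nd (nat_lit
 7232) (.br (nat_lit 6) (.ch (nat_lit 1) (.fin (nat_lit 576631726202635133))) (.ch (nat_lit 6) (.ev (nat_lit
 7248) (nat_lit 2048) (.ev (nat_lit 7261) (nat_lit 4) .dd)))))) (.ch (nat_lit 2) (.ev (nat_lit 5488) (nat_lit
 2048) (.ev (nat_lit 5501) (nat_lit 4) .dd))))))) (.br (nat_lit 5) (.ch (nat_lit 4) (.ev (nat_lit 4964)
 (nat_lit 4) (.ev (nat_lit 4973) (nat_lit 2048) .dd))) (.br (nat_lit 6) (.ch (nat_lit 5) (.ev (nat_lit 4608)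
 (nat_lit 4) (.ev (nat_lit 4621) (nat_lit 2048) .dd))) (.ch (nat_lit 6) (.ev (nat_lit 1680) (nat_lit 4) (.ev
 (nat_lit 1693) (nat_lit 2048) .dd)))))))))))))))) (.br (nat_lit 5) (.ch (nat_lit 3) (.ev (nat_lit 336)
 (nat_lit 6212) .dd)) (.br (nat_lit 6) (.ch (nat_lit 5) (.nd (nat_lit 832) (.br (nat_lit 4) (.br (nat_lit 2)
 (.ch (nat_lit 0) (.ev (nat_lit 848) (nat_lit 64) (.nd (nat_lit 1312) (.br (nat_lit 3) (.br (nat_lit 1) (.ch
 (nat_lit 0) (.ev (nat_lit 1328) (nat_lit 4096) (.ev (nat_lit 1924) (nat_lit 2048) (.ev (nat_lit 1933) (nat_lit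
 4) .dd)))) (.ch (nat_lit 1) (.ev (nat_lit 1328) (nat_lit 4100) (.ev (nat_lit 1341) (nat_lit 2048) .dd)))) (.br
 (nat_lit 5) (.ch (nat_lit 3) (.ev (nat_lit 4052) (nat_lit 4) (.ev (nat_lit 4196) (nat_lit 4096) (.ev (nat_lit
 4205) (nat_lit 2048) .dd)))) (.br (nat_lit 6) (.ch (nat_lit 5) (.ev (nat_lit 1780) (nat_lit 2048) (.nd
 (nat_lit 2704) (.br (nat_lit 2) (.ch (nat_lit 0) (.ev (nat_lit 2740) (nat_lit 4096) (.ev (nat_lit 2749)
 (nat_lit 4) .dd))) (.br (nat_lit 4) (.ch (nat_lit 2) (.ev (nat_lit 2720) (nat_lit 4096) (.ev (nat_lit 2733)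
 (nat_lit 4) .dd))) (.ch (nat_lit 4) (.ev (nat_lit 5188) (nat_lit 4) (.ev (nat_lit 5197) (nat_lit 4096)
 .dd)))))))) (.ch (nat_lit 6) (.ev (nat_lit 1328) (nat_lit 2048) (.nd (nat_lit 3856) (.br (nat_lit 3) (.ch
 (nat_lit 2) (.ev (nat_lit 4100) (nat_lit 4) (.ev (nat_lit 4109) (nat_lit 4096) .dd))) (.br (nat_lit 6) (.ch
 (nat_lit 3) (.ev (nat_lit 3908) (nat_lit 4) (.ev (nat_lit 3917) (nat_lit 4096) .dd))) (.ch (nat_lit 6) (.ev
 (nat_lit 3908) (nat_lit 4) (.ev (nat_lit 3917) (nat_lit 4096) .dd)))))))))))))) (.ch (nat_lit 2) (.ev (nat_lit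
 848) (nat_lit 4) (.nd (nat_lit 1312) (.br (nat_lit 3) (.br (nat_lit 1) (.ch (nat_lit 0) (.nd (nat_lit 3856)
 (.br (nat_lit 4) (.ch (nat_lit 3) (.ev (nat_lit 3872) (nat_lit 2048) (.ev (nat_lit 4496) (nat_lit 64) (.ev
 (nat_lit 4509) (nat_lit 4096) .dd)))) (.br (nat_lit 5) (.ch (nat_lit 4) (.ev (nat_lit 3872) (nat_lit 2112)
 (.ev (nat_lit 3885) (nat_lit 4096) .dd))) (.ch (nat_lit 5) (.ev (nat_lit 3872) (nat_lit 64) (.ev (nat_lit
 4836) (nat_lit 2048) (.ev (nat_lit 4845) (nat_lit 4096) .dd)))))))) (.ch (nat_lit 1) (.ev (nat_lit 1444)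
 (nat_lit 2048) (.nd (nat_lit 3216) (.br (nat_lit 4) (.br (nat_lit 3) (.ch (nat_lit 0) (.fin (nat_lit
 576429416251867703))) (.ch (nat_lit 3) (.ev (nat_lit 3232) (nat_lit 4096) (.ev (nat_lit 3245) (nat_lit 64)
 .dd)))) (.br (nat_lit 5) (.ch (nat_lit 4) (.fin (nat_lit 576222708072136946))) (.br (nat_lit 6) (.ch (nat_lit
 5) (.ev (nat_lit 3232) (nat_lit 64) (.ev (nat_lit 3245) (nat_lit 4096) .dd))) (.ch (nat_lit 6) (.ev (nat_lit
 3232) (nat_lit 4096) (.ev (nat_lit 3245) (nat_lit 64) .dd)))))))))) (.br (nat_lit 4) (.ch (nat_lit 3) (.nd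
 (nat_lit 3856) (.br (nat_lit 3) (.br (nat_lit 2) (.ch (nat_lit 0) (.ev (nat_lit 3872) (nat_lit 2048) (.ev
 (nat_lit 4964) (nat_lit 64) (.ev (nat_lit 4973) (nat_lit 4096) .dd)))) (.ch (nat_lit 2) (.ev (nat_lit 3872)
 (nat_lit 2112) (.ev (nat_lit 3885) (nat_lit 4096) .dd)))) (.br (nat_lit 6) (.ch (nat_lit 3) (.ev (nat_lit
 3872) (nat_lit 4096) (.fin (nat_lit 576905504616825495)))) (.ch (nat_lit 6) (.ev (nat_lit 4320) (nat_lit 4096)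
 (.ev (nat_lit 4596) (nat_lit 64) (.ev (nat_lit 4605) (nat_lit 2048) .dd)))))))) (.br (nat_lit 6) (.ch (nat_lit
 4) (.ev (nat_lit 1328) (nat_lit 6144) (.ev (nat_lit 1341) (nat_lit 64) .dd))) (.ch (nat_lit 6) (.ev (nat_lit
 1328) (nat_lit 2112) (.ev (nat_lit 1341) (nat_lit 4096) .dd)))))))))) (.br (nat_lit 5) (.ch (nat_lit 4) (.ev
 (nat_lit 848) (nat_lit 4096) (.nd (nat_lit 1472) (.br (nat_lit 3) (.br (nat_lit 2) (.ch (nat_lit 0) (.ev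
 (nat_lit 1488) (nat_lit 2116) .dd)) (.ch (nat_lit 2) (.nd (nat_lit 2464) (.br (nat_lit 4) (.br (nat_lit 2)
 (.ch (nat_lit 0) (.nd (nat_lit 6176) (.br (nat_lit 1) (.ch (nat_lit 0) (.ev (nat_lit 6192) (nat_lit 2048)
 (.fin (nat_lit 576419520755221127)))) (.br (nat_lit 3) (.ch (nat_lit 1) (.ev (nat_lit 6192) (nat_lit 64) (.fin
 (nat_lit 576460202562765416)))) (.ch (nat_lit 3) (.ev (nat_lit 6192) (nat_lit 68) (.ev (nat_lit 6205) (nat_lit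
 2048) .dd))))))) (.ch (nat_lit 2) (.ev (nat_lit 2480) (nat_lit 2112) (.ev (nat_lit 2493) (nat_lit 4) .dd))))
 (.br (nat_lit 5) (.ch (nat_lit 4) (.ev (nat_lit 2480) (nat_lit 2052) (.ev (nat_lit 2493) (nat_lit 64) .dd)))
 (.br (nat_lit 6) (.ch (nat_lit 5) (.ev (nat_lit 2480) (nat_lit 2052) (.ev (nat_lit 2493) (nat_lit 64) .dd)))
 (.ch (nat_lit 6) (.ev (nat_lit 2480) (nat_lit 64) (.ev (nat_lit 2500) (nat_lit 4) (.ev (nat_lit 2509) (nat_lit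
 2048) .dd)))))))))) (.br (nat_lit 4) (.ch (nat_lit 3) (.ev (nat_lit 1488) (nat_lit 2112) (.ev (nat_lit 1501)
 (nat_lit 4) .dd))) (.br (nat_lit 5) (.ch (nat_lit 4) (.ev (nat_lit 1488) (nat_lit 4) (.nd (nat_lit 4400) (.br
 (nat_lit 5) (.ch (nat_lit 3) (.ev (nat_lit 4416) (nat_lit 2048) (.ev (nat_lit 4429) (nat_lit 64) .dd))) (.br
 (nat_lit 6) (.ch (nat_lit 5) (.ev (nat_lit 4416) (nat_lit 64) (.ev (nat_lit 4429) (nat_lit 2048) .dd))) (.ch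
 (nat_lit 6) (.ev (nat_lit 4928) (nat_lit 2112) .dd))))))) (.ch (nat_lit 5) (.ev (nat_lit 4964) (nat_lit 2052)
 (.ev (nat_lit 4973) (nat_lit 64) .dd))))))))) (.br (nat_lit 6) (.ch (nat_lit 5) (.ev (nat_lit 848) (nat_lit
 6148) (.ev (nat_lit 861) (nat_lit 64) .dd))) (.ch (nat_lit 6) (.nd (nat_lit 1408) (.br (nat_lit 4) (.br
 (nat_lit 2) (.ch (nat_lit 0) (.ev (nat_lit 1424) (nat_lit 4096) (.ev (nat_lit 1908) (nat_lit 2048) (.nd
 (nat_lit 3216) (.br (nat_lit 5) (.br (nat_lit 3) (.ch (nat_lit 2) (.ev (nat_lit 4528) (nat_lit 68) .dd)) (.ch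
 (nat_lit 3) (.ev (nat_lit 3232) (nat_lit 64) (.ev (nat_lit 3245) (nat_lit 4) .dd)))) (.br (nat_lit 6) (.ch
 (nat_lit 5) (.ev (nat_lit 3232) (nat_lit 4) (.ev (nat_lit 3245) (nat_lit 64) .dd))) (.ch (nat_lit 6) (.ev
 (nat_lit 3232) (nat_lit 64) (.ev (nat_lit 3245) (nat_lit 4) .dd))))))))) (.ch (nat_lit 2) (.ev (nat_lit 1424)
 (nat_lit 4100) (.ev (nat_lit 4644) (nat_lit 64) (.ev (nat_lit 4653) (nat_lit 2048) .dd))))) (.br (nat_lit 6)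
 (.ch (nat_lit 4) (.ev (nat_lit 1424) (nat_lit 64) (.nd (nat_lit 2464) (.br (nat_lit 5) (.br (nat_lit 4) (.ch
 (nat_lit 0) (.ev (nat_lit 2480) (nat_lit 2048) (.ev (nat_lit 4292) (nat_lit 4) (.ev (nat_lit 4301) (nat_lit
 4096) .dd)))) (.ch (nat_lit 4) (.ev (nat_lit 2480) (nat_lit 2048) (.fin (nat_lit 576597641507848365))))) (.br
 (nat_lit 6) (.ch (nat_lit 5) (.ev (nat_lit 2480) (nat_lit 4) (.fin (nat_lit 576487690313613866)))) (.ch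
 (nat_lit 6) (.ev (nat_lit 2480) (nat_lit 4096) (.fin (nat_lit 576553660948365910))))))))) (.ch (nat_lit 6)
 (.ev (nat_lit 1540) (nat_lit 64) (.ev (nat_lit 1620) (nat_lit 2048) (.nd (nat_lit 2176) (.br (nat_lit 5) (.br
 (nat_lit 2) (.ch (nat_lit 0) (.ev (nat_lit 4196) (nat_lit 4) (.ev (nat_lit 4205) (nat_lit 4096) .dd))) (.ch
 (nat_lit 2) (.ev (nat_lit 4208) (nat_lit 4) (.ev (nat_lit 4221) (nat_lit 4096) .dd)))) (.br (nat_lit 6) (.ch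
 (nat_lit 5) (.ev (nat_lit 2192) (nat_lit 4) (.ev (nat_lit 2205) (nat_lit 4096) .dd))) (.ch (nat_lit 6) (.ev
 (nat_lit 2336) (nat_lit 4100) .dd))))))))))))))))) (.ch (nat_lit 6) (.ev (nat_lit 336) (nat_lit 68) (.nd
 (nat_lit 896) (.br (nat_lit 3) (.br (nat_lit 1) (.ch (nat_lit 0) (.ev (nat_lit 1028) (nat_lit 4096) (.ev
 (nat_lit 1037) (nat_lit 2048) .dd))) (.ch (nat_lit 1) (.nd (nat_lit 1584) (.br (nat_lit 3) (.br (nat_lit 1)
 (.ch (nat_lit 0) (.ev (nat_lit 1600) (nat_lit 4096) (.ev (nat_lit 1613) (nat_lit 2048) .dd))) (.ch (nat_lit 1)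
 (.ev (nat_lit 1892) (nat_lit 4096) (.ev (nat_lit 1901) (nat_lit 2048) .dd)))) (.br (nat_lit 4) (.ch (nat_lit
 3) (.nd (nat_lit 2464) (.br (nat_lit 4) (.ch (nat_lit 2) (.ev (nat_lit 5104) (nat_lit 6144) .dd)) (.br
 (nat_lit 5) (.ch (nat_lit 4) (.fin (nat_lit 576448107884528184))) (.ch (nat_lit 5) (.ev (nat_lit 3204)
 (nat_lit 2048) (.ev (nat_lit 3213) (nat_lit 4096) .dd))))))) (.br (nat_lit 6) (.ch (nat_lit 4) (.ev (nat_lit
 1600) (nat_lit 2048) (.ev (nat_lit 1613) (nat_lit 4096) .dd))) (.ch (nat_lit 6) (.ev (nat_lit 1600) (nat_lit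
 6144) .dd)))))))) (.br (nat_lit 4) (.ch (nat_lit 3) (.ev (nat_lit 912) (nat_lit 4096) (.ev (nat_lit 925)
 (nat_lit 2048) .dd))) (.br (nat_lit 5) (.ch (nat_lit 4) (.ev (nat_lit 912) (nat_lit 6144) .dd)) (.ch (nat_lit
 5) (.ev (nat_lit 912) (nat_lit 2048) (.ev (nat_lit 925) (nat_lit 4096) .dd)))))))))))))))) (.br (nat_lit 3)
 (.ch (nat_lit 2) (.ev (nat_lit 48) (nat_lit 4) (.nd (nat_lit 64) (.br (nat_lit 4) (.br (nat_lit 1) (.ch
 (nat_lit 0) (.ev (nat_lit 80) (nat_lit 8192) (.nd (nat_lit 352) (.br (nat_lit 2) (.br (nat_lit 1) (.ch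
 (nat_lit 0) (.ev (nat_lit 368) (nat_lit 33026) (.nd (nat_lit 1056) (.br (nat_lit 1) (.ch (nat_lit 0) (.nd
 (nat_lit 1968) (.br (nat_lit 3) (.br (nat_lit 1) (.ch (nat_lit 0) (.ev (nat_lit 1984) (nat_lit 4096) (.ev
 (nat_lit 4052) (nat_lit 64) (.ev (nat_lit 4061) (nat_lit 2048) .dd)))) (.ch (nat_lit 1) (.ev (nat_lit 1984)
 (nat_lit 6144) (.ev (nat_lit 1997) (nat_lit 64) .dd)))) (.br (nat_lit 5) (.ch (nat_lit 3) (.ev (nat_lit 1984)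
 (nat_lit 2112) (.ev (nat_lit 1997) (nat_lit 4096) .dd))) (.ch (nat_lit 5) (.ev (nat_lit 1984) (nat_lit 2048)
 (.ev (nat_lit 4836) (nat_lit 64) (.ev (nat_lit 4845) (nat_lit 4096) .dd)))))))) (.br (nat_lit 3) (.ch (nat_lit
 1) (.ev (nat_lit 1072) (nat_lit 2048) (.nd (nat_lit 2016) (.br (nat_lit 3) (.ch (nat_lit 2) (.ev (nat_lit
 2804) (nat_lit 64) (.ev (nat_lit 2813) (nat_lit 4096) .dd))) (.br (nat_lit 6) (.ch (nat_lit 3) (.ev (nat_lit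
 2032) (nat_lit 64) (.ev (nat_lit 2045) (nat_lit 4096) .dd))) (.ch (nat_lit 6) (.ev (nat_lit 4100) (nat_lit
 4096) (.ev (nat_lit 4109) (nat_lit 64) .dd)))))))) (.ch (nat_lit 3) (.nd (nat_lit 1968) (.br (nat_lit 4) (.br
 (nat_lit 2) (.ch (nat_lit 0) (.ev (nat_lit 1984) (nat_lit 2048) (.nd (nat_lit 8288) (.ch (nat_lit 6) (.nd
 (nat_lit 8320) (.ch (nat_lit 5) (.nd (nat_lit 8656) (.br (nat_lit 4) (.ch (nat_lit 3) (.ev (nat_lit 8672)
 (nat_lit 64) (.ev (nat_lit 8685) (nat_lit 4096) .dd))) (.ch (nat_lit 4) (.fin (nat_lit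
 576492088554111581))))))))))) (.ch (nat_lit 2) (.ev (nat_lit 1984) (nat_lit 4096) (.nd (nat_lit 5984) (.br
 (nat_lit 2) (.ch (nat_lit 0) (.ev (nat_lit 6000) (nat_lit 2048) (.ev (nat_lit 6013) (nat_lit 64) .dd))) (.ch
 (nat_lit 2) (.fin (nat_lit 576453605518164521)))))))) (.br (nat_lit 5) (.ch (nat_lit 4) (.ev (nat_lit 1984)
 (nat_lit 2112) (.ev (nat_lit 1997) (nat_lit 4096) .dd))) (.ch (nat_lit 5) (.ev (nat_lit 4644) (nat_lit 64)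
 (.ev (nat_lit 4964) (nat_lit 4096) (.ev (nat_lit 4973) (nat_lit 2048) .dd))))))))))))) (.ch (nat_lit 1) (.ev
 (nat_lit 368) (nat_lit 64) (.nd (nat_lit 976) (.br (nat_lit 4) (.br (nat_lit 1) (.ch (nat_lit 0) (.ev (nat_lit
 992) (nat_lit 32768) (.ev (nat_lit 1124) (nat_lit 2048) (.ev (nat_lit 1844) (nat_lit 2) (.ev (nat_lit 4656)
 (nat_lit 256) (.ev (nat_lit 4669) (nat_lit 4096) .dd)))))) (.ch (nat_lit 1) (.ev (nat_lit 1252) (nat_lit 256)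
 (.ev (nat_lit 1300) (nat_lit 4096) (.nd (nat_lit 1968) (.br (nat_lit 4) (.br (nat_lit 2) (.ch (nat_lit 0) (.ev
 (nat_lit 1984) (nat_lit 32770) (.ev (nat_lit 1997) (nat_lit 2048) .dd))) (.ch (nat_lit 2) (.ev (nat_lit 1984)
 (nat_lit 32768) (.ev (nat_lit 2976) (nat_lit 2050) .dd)))) (.br (nat_lit 5) (.ch (nat_lit 4) (.ev (nat_lit
 2052) (nat_lit 2048) (.ev (nat_lit 2784) (nat_lit 2) (.ev (nat_lit 2797) (nat_lit 32768) .dd)))) (.ch (nat_lit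
 5) (.ev (nat_lit 4164) (nat_lit 32770) (.ev (nat_lit 4173) (nat_lit 2048) .dd)))))))))) (.br (nat_lit 5) (.ch
 (nat_lit 4) (.ev (nat_lit 992) (nat_lit 34818) (.fin (nat_lit 576468998650544710)))) (.br (nat_lit 6) (.ch
 (nat_lit 5) (.ev (nat_lit 992) (nat_lit 4096) (.nd (nat_lit 1968) (.br (nat_lit 2) (.br (nat_lit 1) (.ch
 (nat_lit 0) (.ev (nat_lit 1984) (nat_lit 2) (.ev (nat_lit 4164) (nat_lit 256) (.ev (nat_lit 4624) (nat_lit
 32768) (.ev (nat_lit 4637) (nat_lit 2048) .dd))))) (.ch (nat_lit 1) (.ev (nat_lit 2212) (nat_lit 256) (.ev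
 (nat_lit 4740) (nat_lit 2048) (.nd (nat_lit 6224) (.br (nat_lit 6) (.ch (nat_lit 2) (.ev (nat_lit 6260)
 (nat_lit 2) (.ev (nat_lit 6269) (nat_lit 32768) .dd))) (.ch (nat_lit 6) (.fin (nat_lit
 576495386918076983))))))))) (.br (nat_lit 4) (.ch (nat_lit 2) (.ev (nat_lit 1984) (nat_lit 33024) (.fin
 (nat_lit 576684503176004246)))) (.ch (nat_lit 4) (.ev (nat_lit 1984) (nat_lit 2048) (.ev (nat_lit 3284)
 (nat_lit 2) (.fin (nat_lit 576617432753848967)))))))))) (.ch (nat_lit 6) (.ev (nat_lit 992) (nat_lit 258) (.ev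
 (nat_lit 1460) (nat_lit 4096) (.nd (nat_lit 3376) (.br (nat_lit 4) (.ch (nat_lit 0) (.ev (nat_lit 4756)
 (nat_lit 2048) (.ev (nat_lit 4765) (nat_lit 32768) .dd))) (.br (nat_lit 6) (.ch (nat_lit 4) (.ev (nat_lit
 3988) (nat_lit 2048) (.ev (nat_lit 3997) (nat_lit 32768) .dd))) (.ch (nat_lit 6) (.ev (nat_lit 3392) (nat_lit
 2048) (.ev (nat_lit 3405) (nat_lit 32768) .dd)))))))))))))))) (.br (nat_lit 5) (.ch (nat_lit 2) (.ev (nat_lit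
 368) (nat_lit 38912) (.nd (nat_lit 1152) (.br (nat_lit 2) (.br (nat_lit 1) (.ch (nat_lit 0) (.ev (nat_lit
 1168) (nat_lit 256) (.ev (nat_lit 3284) (nat_lit 64) (.ev (nat_lit 3293) (nat_lit 2) .dd)))) (.ch (nat_lit 1)
 (.ev (nat_lit 1168) (nat_lit 2) (.ev (nat_lit 4692) (nat_lit 64) (.ev (nat_lit 4701) (nat_lit 256) .dd)))))
 (.br (nat_lit 4) (.ch (nat_lit 2) (.nd (nat_lit 2096) (.br (nat_lit 5) (.br (nat_lit 3) (.ch (nat_lit 1) (.ev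
 (nat_lit 2112) (nat_lit 256) (.fin (nat_lit 576456904056193583)))) (.ch (nat_lit 3) (.ev (nat_lit 2112)
 (nat_lit 2) (.ev (nat_lit 2212) (nat_lit 64) (.ev (nat_lit 2221) (nat_lit 256) .dd))))) (.br (nat_lit 6) (.ch
 (nat_lit 5) (.ev (nat_lit 2112) (nat_lit 64) (.ev (nat_lit 4112) (nat_lit 258) .dd))) (.ch (nat_lit 6) (.ev
 (nat_lit 2112) (nat_lit 64) (.ev (nat_lit 2388) (nat_lit 2) (.ev (nat_lit 2397) (nat_lit 256) .dd)))))))) (.br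
 (nat_lit 6) (.ch (nat_lit 4) (.ev (nat_lit 1168) (nat_lit 258) (.ev (nat_lit 1181) (nat_lit 64) .dd))) (.ch
 (nat_lit 6) (.ev (nat_lit 1168) (nat_lit 64) (.ev (nat_lit 4916) (nat_lit 2) (.ev (nat_lit 4925) (nat_lit 256)
 .dd)))))))))) (.br (nat_lit 6) (.ch (nat_lit 5) (.ev (nat_lit 368) (nat_lit 66) (.ev (nat_lit 964) (nat_lit
 256) (.nd (nat_lit 1152) (.br (nat_lit 3) (.br (nat_lit 2) (.ch (nat_lit 0) (.nd (nat_lit 2176) (.br (nat_lit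
 3) (.br (nat_lit 2) (.ch (nat_lit 1) (.ev (nat_lit 4196) (nat_lit 4096) (.fin (nat_lit 576498685456106045))))
 (.ch (nat_lit 2) (.ev (nat_lit 2192) (nat_lit 32768) (.ev (nat_lit 4756) (nat_lit 2048) (.ev (nat_lit 4765)
 (nat_lit 4096) .dd))))) (.br (nat_lit 5) (.ch (nat_lit 3) (.ev (nat_lit 2192) (nat_lit 34816) (.ev (nat_lit
 2205) (nat_lit 4096) .dd))) (.br (nat_lit 6) (.ch (nat_lit 5) (.ev (nat_lit 2192) (nat_lit 6144) (.ev (nat_lit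
 2205) (nat_lit 32768) .dd))) (.ch (nat_lit 6) (.ev (nat_lit 2192) (nat_lit 32768) (.ev (nat_lit 2240) (nat_lit
 6144) .dd)))))))) (.ch (nat_lit 2) (.ev (nat_lit 1168) (nat_lit 32768) (.nd (nat_lit 2176) (.br (nat_lit 4)
 (.br (nat_lit 2) (.ch (nat_lit 0) (.ev (nat_lit 2192) (nat_lit 4096) (.ev (nat_lit 2205) (nat_lit 2048) .dd)))
 (.ch (nat_lit 2) (.ev (nat_lit 3668) (nat_lit 4096) (.ev (nat_lit 3677) (nat_lit 2048) .dd)))) (.br (nat_lit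
 6) (.ch (nat_lit 4) (.ev (nat_lit 2192) (nat_lit 2048) (.ev (nat_lit 2205) (nat_lit 4096) .dd))) (.ch (nat_lit
 6) (.ev (nat_lit 2192) (nat_lit 4096) (.ev (nat_lit 2205) (nat_lit 2048) .dd))))))))) (.br (nat_lit 4) (.ch
 (nat_lit 3) (.nd (nat_lit 2096) (.br (nat_lit 4) (.br (nat_lit 2) (.ch (nat_lit 1) (.ev (nat_lit 2112)
 (nat_lit 34816) (.ev (nat_lit 2125) (nat_lit 4096) .dd))) (.ch (nat_lit 2) (.ev (nat_lit 2112) (nat_lit 4096)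
 (.ev (nat_lit 2228) (nat_lit 2048) (.ev (nat_lit 2237) (nat_lit 32768) .dd))))) (.br (nat_lit 5) (.ch (nat_lit
 4) (.ev (nat_lit 2112) (nat_lit 6144) (.ev (nat_lit 2125) (nat_lit 32768) .dd))) (.ch (nat_lit 5) (.ev
 (nat_lit 2112) (nat_lit 2048) (.ev (nat_lit 3252) (nat_lit 4096) (.ev (nat_lit 3261) (nat_lit 32768)
 .dd)))))))) (.br (nat_lit 5) (.ch (nat_lit 4) (.ev (nat_lit 1168) (nat_lit 6144) (.ev (nat_lit 1181) (nat_lit
 32768) .dd))) (.ch (nat_lit 5) (.ev (nat_lit 1168) (nat_lit 4096) (.nd (nat_lit 2016) (.br (nat_lit 1) (.ch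
 (nat_lit 0) (.ev (nat_lit 4644) (nat_lit 2048) (.ev (nat_lit 4653) (nat_lit 32768) .dd))) (.ch (nat_lit 1)
 (.ev (nat_lit 3844) (nat_lit 2048) (.ev (nat_lit 3853) (nat_lit 32768) .dd)))))))))))))) (.ch (nat_lit 6) (.ev
 (nat_lit 368) (nat_lit 4096) (.nd (nat_lit 1056) (.br (nat_lit 3) (.br (nat_lit 2) (.ch (nat_lit 1) (.ev
 (nat_lit 1072) (nat_lit 2112) (.ev (nat_lit 5012) (nat_lit 33024) (.ev (nat_lit 5021) (nat_lit 2) .dd)))) (.ch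
 (nat_lit 2) (.ev (nat_lit 1072) (nat_lit 2) (.nd (nat_lit 2016) (.br (nat_lit 2) (.br (nat_lit 1) (.ch
 (nat_lit 0) (.ev (nat_lit 2032) (nat_lit 33024) (.ev (nat_lit 4964) (nat_lit 2048) (.ev (nat_lit 4973)
 (nat_lit 64) .dd)))) (.ch (nat_lit 1) (.ev (nat_lit 2032) (nat_lit 2304) (.fin (nat_lit
 576462401573438018))))) (.br (nat_lit 5) (.ch (nat_lit 2) (.ev (nat_lit 2032) (nat_lit 320) (.ev (nat_lit
 4784) (nat_lit 2048) (.ev (nat_lit 4797) (nat_lit 32768) .dd)))) (.br (nat_lit 6) (.ch (nat_lit 5) (.ev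
 (nat_lit 2032) (nat_lit 34816) (.ev (nat_lit 4836) (nat_lit 64) (.ev (nat_lit 4845) (nat_lit 256) .dd)))) (.ch
 (nat_lit 6) (.ev (nat_lit 2032) (nat_lit 2112) (.ev (nat_lit 4976) (nat_lit 33024) .dd)))))))))) (.br (nat_lit
 4) (.ch (nat_lit 3) (.ev (nat_lit 1072) (nat_lit 32768) (.ev (nat_lit 1700) (nat_lit 256) (.nd (nat_lit 2096)
 (.br (nat_lit 3) (.br (nat_lit 2) (.ch (nat_lit 0) (.ev (nat_lit 2112) (nat_lit 2048) (.ev (nat_lit 2644)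
 (nat_lit 2) (.ev (nat_lit 2653) (nat_lit 64) .dd)))) (.ch (nat_lit 2) (.ev (nat_lit 2112) (nat_lit 64) (.ev
 (nat_lit 2212) (nat_lit 2) (.ev (nat_lit 2221) (nat_lit 2048) .dd))))) (.br (nat_lit 4) (.ch (nat_lit 3) (.ev
 (nat_lit 2112) (nat_lit 2048) (.ev (nat_lit 2644) (nat_lit 2) (.ev (nat_lit 2653) (nat_lit 64) .dd)))) (.br
 (nat_lit 5) (.ch (nat_lit 4) (.ev (nat_lit 2112) (nat_lit 2048) (.ev (nat_lit 2644) (nat_lit 2) (.ev (nat_lit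
 2653) (nat_lit 64) .dd)))) (.ch (nat_lit 5) (.ev (nat_lit 2112) (nat_lit 2) (.ev (nat_lit 2452) (nat_lit 2048)
 (.ev (nat_lit 2461) (nat_lit 64) .dd))))))))))) (.br (nat_lit 5) (.ch (nat_lit 4) (.ev (nat_lit 1072) (nat_lit
 2112) (.ev (nat_lit 1796) (nat_lit 256) (.ev (nat_lit 2660) (nat_lit 32768) (.ev (nat_lit 2669) (nat_lit 2)
 .dd))))) (.ch (nat_lit 5) (.ev (nat_lit 1072) (nat_lit 33026) (.ev (nat_lit 4976) (nat_lit 64) (.ev (nat_lit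
 4989) (nat_lit 2048) .dd)))))))))))))))) (.ch (nat_lit 1) (.ev (nat_lit 80) (nat_lit 6208) (.nd (nat_lit 416)
 (.br (nat_lit 3) (.br (nat_lit 1) (.ch (nat_lit 0) (.ev (nat_lit 432) (nat_lit 256) (.nd (nat_lit 1312) (.br
 (nat_lit 4) (.br (nat_lit 3) (.ch (nat_lit 0) (.ev (nat_lit 1328) (nat_lit 8192) (.nd (nat_lit 5392) (.ch
 (nat_lit 3) (.nd (nat_lit 7200) (.br (nat_lit 5) (.ch (nat_lit 1) (.ev (nat_lit 7216) (nat_lit 2) (.ev
 (nat_lit 7229) (nat_lit 32768) .dd))) (.ch (nat_lit 5) (.fin (nat_lit 576355748949737930))))))))) (.ch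
 (nat_lit 3) (.ev (nat_lit 1328) (nat_lit 32768) (.nd (nat_lit 3216) (.br (nat_lit 4) (.ch (nat_lit 0) (.nd
 (nat_lit 6832) (.ch (nat_lit 0) (.nd (nat_lit 7808) (.br (nat_lit 6) (.ch (nat_lit 0) (.ev (nat_lit 7828)
 (nat_lit 8192) (.ev (nat_lit 7837) (nat_lit 2) .dd))) (.ch (nat_lit 6) (.fin (nat_lit
 576412923558576682)))))))) (.br (nat_lit 5) (.ch (nat_lit 4) (.ev (nat_lit 3232) (nat_lit 8192) (.ev (nat_lit
 3245) (nat_lit 2) .dd))) (.ch (nat_lit 5) (.ev (nat_lit 3232) (nat_lit 2) (.ev (nat_lit 3245) (nat_lit 8192)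
 .dd))))))))) (.br (nat_lit 6) (.ch (nat_lit 4) (.ev (nat_lit 1328) (nat_lit 2) (.ev (nat_lit 4292) (nat_lit
 8192) (.ev (nat_lit 4301) (nat_lit 32768) .dd)))) (.ch (nat_lit 6) (.ev (nat_lit 1328) (nat_lit 2) (.nd
 (nat_lit 2464) (.br (nat_lit 6) (.ch (nat_lit 3) (.ev (nat_lit 4596) (nat_lit 8192) (.ev (nat_lit 4605)
 (nat_lit 32768) .dd))) (.ch (nat_lit 6) (.nd (nat_lit 5952) (.br (nat_lit 5) (.ch (nat_lit 3) (.ev (nat_lit
 5968) (nat_lit 32768) (.ev (nat_lit 5981) (nat_lit 8192) .dd))) (.ch (nat_lit 5) (.nd (nat_lit 7840) (.br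
 (nat_lit 3) (.ch (nat_lit 1) (.fin (nat_lit 576113856622314135))) (.ch (nat_lit 3) (.ev (nat_lit 7856)
 (nat_lit 8192) (.ev (nat_lit 7869) (nat_lit 32768) .dd)))))))))))))))))) (.ch (nat_lit 1) (.nd (nat_lit 976)
 (.br (nat_lit 2) (.br (nat_lit 1) (.ch (nat_lit 0) (.ev (nat_lit 992) (nat_lit 40960) (.ev (nat_lit 1188)
 (nat_lit 2) (.ev (nat_lit 1197) (nat_lit 256) .dd)))) (.ch (nat_lit 1) (.ev (nat_lit 992) (nat_lit 32768) (.nd
 (nat_lit 2016) (.br (nat_lit 4) (.br (nat_lit 1) (.ch (nat_lit 0) (.ev (nat_lit 2032) (nat_lit 2) (.ev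
 (nat_lit 3716) (nat_lit 8192) (.ev (nat_lit 3725) (nat_lit 256) .dd)))) (.ch (nat_lit 1) (.ev (nat_lit 2032)
 (nat_lit 256) (.ev (nat_lit 2228) (nat_lit 8192) (.ev (nat_lit 2237) (nat_lit 2) .dd))))) (.br (nat_lit 5)
 (.ch (nat_lit 4) (.ev (nat_lit 2032) (nat_lit 8192) (.ev (nat_lit 2068) (nat_lit 256) (.ev (nat_lit 2077)
 (nat_lit 2) .dd)))) (.ch (nat_lit 5) (.ev (nat_lit 2032) (nat_lit 2) (.fin (nat_lit
 576467899118993985)))))))))) (.br (nat_lit 3) (.ch (nat_lit 2) (.ev (nat_lit 992) (nat_lit 256) (.nd (nat_lit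
 2176) (.br (nat_lit 4) (.br (nat_lit 2) (.ch (nat_lit 0) (.ev (nat_lit 2192) (nat_lit 2) (.ev (nat_lit 4704)
 (nat_lit 40960) .dd))) (.ch (nat_lit 2) (.ev (nat_lit 2192) (nat_lit 8192) (.ev (nat_lit 4388) (nat_lit 2)
 (.ev (nat_lit 4397) (nat_lit 32768) .dd))))) (.br (nat_lit 5) (.ch (nat_lit 4) (.ev (nat_lit 2192) (nat_lit
 32768) (.ev (nat_lit 3172) (nat_lit 2) (.ev (nat_lit 3181) (nat_lit 8192) .dd)))) (.ch (nat_lit 5) (.ev
 (nat_lit 2192) (nat_lit 32768) (.ev (nat_lit 2212) (nat_lit 2) (.ev (nat_lit 2221) (nat_lit 8192) .dd)))))))))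
 (.br (nat_lit 5) (.ch (nat_lit 3) (.nd (nat_lit 1968) (.br (nat_lit 4) (.br (nat_lit 2) (.ch (nat_lit 0) (.ev
 (nat_lit 1984) (nat_lit 256) (.ev (nat_lit 3444) (nat_lit 32768) (.ev (nat_lit 3812) (nat_lit 2) (.ev (nat_lit
 3821) (nat_lit 8192) .dd))))) (.ch (nat_lit 2) (.ev (nat_lit 2740) (nat_lit 2) (.ev (nat_lit 3444) (nat_lit
 256) (.ev (nat_lit 4196) (nat_lit 8192) (.ev (nat_lit 4205) (nat_lit 32768) .dd)))))) (.br (nat_lit 5) (.ch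
 (nat_lit 4) (.ev (nat_lit 1984) (nat_lit 33024) (.ev (nat_lit 4576) (nat_lit 8194) .dd))) (.br (nat_lit 6)
 (.ch (nat_lit 5) (.ev (nat_lit 1984) (nat_lit 40960) (.fin (nat_lit 576468998639010364)))) (.ch (nat_lit 6)
 (.ev (nat_lit 1984) (nat_lit 2) (.ev (nat_lit 2320) (nat_lit 256) (.ev (nat_lit 3040) (nat_lit 8192) (.ev
 (nat_lit 3053) (nat_lit 32768) .dd)))))))))) (.ch (nat_lit 5) (.ev (nat_lit 992) (nat_lit 258) (.ev (nat_lit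
 2320) (nat_lit 40960) .dd))))))))) (.br (nat_lit 5) (.ch (nat_lit 3) (.ev (nat_lit 432) (nat_lit 33026) (.ev
 (nat_lit 445) (nat_lit 8192) .dd))) (.br (nat_lit 6) (.ch (nat_lit 5) (.ev (nat_lit 432) (nat_lit 8192) (.nd
 (nat_lit 1472) (.br (nat_lit 4) (.br (nat_lit 3) (.ch (nat_lit 1) (.ev (nat_lit 1620) (nat_lit 2) (.nd
 (nat_lit 3856) (.br (nat_lit 5) (.br (nat_lit 4) (.ch (nat_lit 2) (.ev (nat_lit 3872) (nat_lit 256) (.ev
 (nat_lit 3885) (nat_lit 32768) .dd))) (.ch (nat_lit 4) (.ev (nat_lit 3872) (nat_lit 32768) (.ev (nat_lit 3885)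
 (nat_lit 256) .dd)))) (.br (nat_lit 6) (.ch (nat_lit 5) (.ev (nat_lit 4512) (nat_lit 33024) .dd)) (.ch
 (nat_lit 6) (.ev (nat_lit 3872) (nat_lit 256) (.ev (nat_lit 3885) (nat_lit 32768) .dd)))))))) (.ch (nat_lit 3)
 (.ev (nat_lit 1488) (nat_lit 256) (.ev (nat_lit 4452) (nat_lit 32768) (.ev (nat_lit 4461) (nat_lit 2) .dd)))))
 (.br (nat_lit 5) (.ch (nat_lit 4) (.ev (nat_lit 1488) (nat_lit 258) (.ev (nat_lit 1501) (nat_lit 32768) .dd)))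
 (.br (nat_lit 6) (.ch (nat_lit 5) (.ev (nat_lit 1508) (nat_lit 256) (.nd (nat_lit 4400) (.br (nat_lit 5) (.ch
 (nat_lit 4) (.ev (nat_lit 4416) (nat_lit 2) (.ev (nat_lit 4429) (nat_lit 32768) .dd))) (.ch (nat_lit 5) (.ev
 (nat_lit 4432) (nat_lit 32770) .dd)))))) (.ch (nat_lit 6) (.ev (nat_lit 1488) (nat_lit 32768) (.ev (nat_lit
 3748) (nat_lit 2) (.ev (nat_lit 3757) (nat_lit 256) .dd)))))))))) (.ch (nat_lit 6) (.ev (nat_lit 432) (nat_lit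
 40960) (.nd (nat_lit 1584) (.br (nat_lit 3) (.br (nat_lit 1) (.ch (nat_lit 0) (.ev (nat_lit 4916) (nat_lit
 256) (.ev (nat_lit 4925) (nat_lit 2) .dd))) (.ch (nat_lit 1) (.ev (nat_lit 3588) (nat_lit 256) (.ev (nat_lit
 3597) (nat_lit 2) .dd)))) (.br (nat_lit 5) (.ch (nat_lit 3) (.ev (nat_lit 1600) (nat_lit 256) (.ev (nat_lit
 1613) (nat_lit 2) .dd))) (.ch (nat_lit 5) (.ev (nat_lit 1600) (nat_lit 2) (.ev (nat_lit 1613) (nat_lit 256)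
 .dd))))))))))))))) (.br (nat_lit 5) (.ch (nat_lit 4) (.ev (nat_lit 80) (nat_lit 40962) (.nd (nat_lit 560) (.br
 (nat_lit 3) (.br (nat_lit 2) (.ch (nat_lit 1) (.ev (nat_lit 576) (nat_lit 4096) (.nd (nat_lit 1264) (.br
 (nat_lit 3) (.br (nat_lit 2) (.ch (nat_lit 1) (.ev (nat_lit 1812) (nat_lit 256) (.nd (nat_lit 2896) (.br
 (nat_lit 2) (.br (nat_lit 1) (.ch (nat_lit 0) (.ev (nat_lit 3908) (nat_lit 64) (.ev (nat_lit 3917) (nat_lit
 2048) .dd))) (.ch (nat_lit 1) (.ev (nat_lit 2912) (nat_lit 2048) (.ev (nat_lit 2925) (nat_lit 64) .dd)))) (.br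
 (nat_lit 3) (.ch (nat_lit 2) (.ev (nat_lit 2912) (nat_lit 64) (.ev (nat_lit 2925) (nat_lit 2048) .dd))) (.br
 (nat_lit 5) (.ch (nat_lit 3) (.ev (nat_lit 4564) (nat_lit 64) (.ev (nat_lit 4573) (nat_lit 2048) .dd))) (.ch
 (nat_lit 5) (.ev (nat_lit 3008) (nat_lit 2048) (.ev (nat_lit 3021) (nat_lit 64) .dd))))))))) (.ch (nat_lit 2)
 (.ev (nat_lit 1280) (nat_lit 256) (.nd (nat_lit 2096) (.br (nat_lit 4) (.br (nat_lit 3) (.ch (nat_lit 1) (.ev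
 (nat_lit 2112) (nat_lit 2048) (.ev (nat_lit 2125) (nat_lit 64) .dd))) (.ch (nat_lit 3) (.ev (nat_lit 2228)
 (nat_lit 2048) (.ev (nat_lit 2237) (nat_lit 64) .dd)))) (.br (nat_lit 6) (.ch (nat_lit 4) (.ev (nat_lit 4432)
 (nat_lit 2112) .dd)) (.ch (nat_lit 6) (.ev (nat_lit 2112) (nat_lit 64) (.ev (nat_lit 2125) (nat_lit 2048)
 .dd))))))))) (.br (nat_lit 4) (.ch (nat_lit 3) (.nd (nat_lit 2096) (.br (nat_lit 4) (.br (nat_lit 2) (.ch
 (nat_lit 1) (.ev (nat_lit 3908) (nat_lit 256) (.ev (nat_lit 4452) (nat_lit 64) (.ev (nat_lit 4461) (nat_lit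
 2048) .dd)))) (.ch (nat_lit 2) (.ev (nat_lit 2112) (nat_lit 2304) (.ev (nat_lit 2125) (nat_lit 64) .dd))))
 (.br (nat_lit 5) (.ch (nat_lit 4) (.ev (nat_lit 2112) (nat_lit 2048) (.ev (nat_lit 4452) (nat_lit 64) (.ev
 (nat_lit 4461) (nat_lit 256) .dd)))) (.ch (nat_lit 5) (.ev (nat_lit 2112) (nat_lit 64) (.fin (nat_lit
 576461301971632796)))))))) (.br (nat_lit 6) (.ch (nat_lit 4) (.ev (nat_lit 1280) (nat_lit 64) (.ev (nat_lit
 5284) (nat_lit 2048) (.ev (nat_lit 5293) (nat_lit 256) .dd)))) (.ch (nat_lit 6) (.ev (nat_lit 1280) (nat_lit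
 2048) (.ev (nat_lit 1508) (nat_lit 64) (.ev (nat_lit 1517) (nat_lit 256) .dd)))))))))) (.ch (nat_lit 2) (.ev
 (nat_lit 576) (nat_lit 4096) (.nd (nat_lit 1360) (.br (nat_lit 5) (.br (nat_lit 2) (.ch (nat_lit 1) (.ev
 (nat_lit 1376) (nat_lit 2048) (.ev (nat_lit 4256) (nat_lit 256) (.ev (nat_lit 4269) (nat_lit 64) .dd)))) (.ch
 (nat_lit 2) (.nd (nat_lit 2176) (.br (nat_lit 4) (.ch (nat_lit 0) (.ev (nat_lit 2192) (nat_lit 64) (.ev
 (nat_lit 4196) (nat_lit 2048) (.ev (nat_lit 4205) (nat_lit 256) .dd)))) (.br (nat_lit 6) (.ch (nat_lit 4) (.ev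
 (nat_lit 4964) (nat_lit 256) (.nd (nat_lit 6960) (.ch (nat_lit 1) (.nd (nat_lit 7872) (.br (nat_lit 1) (.ch
 (nat_lit 0) (.fin (nat_lit 576476695564337375))) (.ch (nat_lit 1) (.ev (nat_lit 7892) (nat_lit 64) (.ev
 (nat_lit 7901) (nat_lit 2048) .dd))))))))) (.ch (nat_lit 6) (.ev (nat_lit 2192) (nat_lit 2048) (.ev (nat_lit
 4644) (nat_lit 64) (.ev (nat_lit 4653) (nat_lit 256) .dd))))))))) (.br (nat_lit 6) (.ch (nat_lit 5) (.ev
 (nat_lit 1376) (nat_lit 64) (.nd (nat_lit 5712) (.ch (nat_lit 4) (.ev (nat_lit 5748) (nat_lit 256) (.ev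
 (nat_lit 5757) (nat_lit 2048) .dd)))))) (.ch (nat_lit 6) (.ev (nat_lit 1376) (nat_lit 2048) (.nd (nat_lit
 5440) (.ch (nat_lit 1) (.nd (nat_lit 7120) (.br (nat_lit 6) (.ch (nat_lit 4) (.ev (nat_lit 7188) (nat_lit 256)
 (.ev (nat_lit 7197) (nat_lit 64) .dd))) (.ch (nat_lit 6) (.fin (nat_lit 576553661126623870))))))))))))))) (.br
 (nat_lit 4) (.ch (nat_lit 3) (.ev (nat_lit 576) (nat_lit 320) (.nd (nat_lit 1408) (.br (nat_lit 4) (.br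
 (nat_lit 2) (.ch (nat_lit 0) (.ev (nat_lit 1424) (nat_lit 2048) (.ev (nat_lit 1437) (nat_lit 4096) .dd))) (.ch
 (nat_lit 2) (.fin (nat_lit 576473396670841409)))) (.br (nat_lit 5) (.ch (nat_lit 4) (.nd (nat_lit 3376) (.br
 (nat_lit 3) (.ch (nat_lit 0) (.ev (nat_lit 3392) (nat_lit 4096) (.ev (nat_lit 3405) (nat_lit 2048) .dd))) (.br
 (nat_lit 6) (.ch (nat_lit 3) (.ev (nat_lit 4692) (nat_lit 2048) (.ev (nat_lit 4701) (nat_lit 4096) .dd))) (.ch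
 (nat_lit 6) (.ev (nat_lit 3392) (nat_lit 2048) (.ev (nat_lit 3405) (nat_lit 4096) .dd))))))) (.ch (nat_lit 5)
 (.ev (nat_lit 1424) (nat_lit 4096) (.ev (nat_lit 1437) (nat_lit 2048) .dd)))))))) (.br (nat_lit 6) (.ch
 (nat_lit 4) (.ev (nat_lit 576) (nat_lit 64) (.ev (nat_lit 820) (nat_lit 256) (.nd (nat_lit 1312) (.br (nat_lit
 2) (.br (nat_lit 1) (.ch (nat_lit 0) (.ev (nat_lit 1328) (nat_lit 4096) (.ev (nat_lit 1341) (nat_lit 2048)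
 .dd))) (.ch (nat_lit 1) (.ev (nat_lit 1328) (nat_lit 4096) (.ev (nat_lit 1341) (nat_lit 2048) .dd)))) (.br
 (nat_lit 3) (.ch (nat_lit 2) (.ev (nat_lit 1328) (nat_lit 2048) (.ev (nat_lit 1341) (nat_lit 4096) .dd))) (.br
 (nat_lit 5) (.ch (nat_lit 3) (.nd (nat_lit 4400) (.br (nat_lit 4) (.ch (nat_lit 3) (.ev (nat_lit 4416)
 (nat_lit 4096) (.ev (nat_lit 4429) (nat_lit 2048) .dd))) (.ch (nat_lit 4) (.ev (nat_lit 5012) (nat_lit 4096)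
 (.ev (nat_lit 5021) (nat_lit 2048) .dd)))))) (.ch (nat_lit 5) (.ev (nat_lit 1348) (nat_lit 2048) (.ev (nat_lit
 1357) (nat_lit 4096) .dd)))))))))) (.ch (nat_lit 6) (.ev (nat_lit 576) (nat_lit 2048) (.nd (nat_lit 1312) (.br
 (nat_lit 4) (.ch (nat_lit 3) (.nd (nat_lit 2896) (.br (nat_lit 5) (.br (nat_lit 2) (.ch (nat_lit 1) (.ev
 (nat_lit 3060) (nat_lit 64) (.ev (nat_lit 3988) (nat_lit 256) (.ev (nat_lit 3997) (nat_lit 4096) .dd)))) (.ch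
 (nat_lit 2) (.ev (nat_lit 2912) (nat_lit 64) (.ev (nat_lit 3988) (nat_lit 256) (.ev (nat_lit 3997) (nat_lit
 4096) .dd))))) (.br (nat_lit 6) (.ch (nat_lit 5) (.ev (nat_lit 2912) (nat_lit 256) (.ev (nat_lit 3412)
 (nat_lit 4096) (.ev (nat_lit 3421) (nat_lit 64) .dd)))) (.ch (nat_lit 6) (.ev (nat_lit 2912) (nat_lit 4096)
 (.ev (nat_lit 4244) (nat_lit 64) (.ev (nat_lit 4253) (nat_lit 256) .dd)))))))) (.br (nat_lit 6) (.ch (nat_lit
 4) (.ev (nat_lit 2272) (nat_lit 64) (.ev (nat_lit 3988) (nat_lit 4096) (.ev (nat_lit 3997) (nat_lit 256)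
 .dd)))) (.ch (nat_lit 6) (.ev (nat_lit 1328) (nat_lit 256) (.ev (nat_lit 4740) (nat_lit 64) (.ev (nat_lit
 4749) (nat_lit 4096) .dd))))))))))))))) (.br (nat_lit 6) (.ch (nat_lit 5) (.ev (nat_lit 80) (nat_lit 4416)
 (.nd (nat_lit 416) (.br (nat_lit 2) (.br (nat_lit 1) (.ch (nat_lit 0) (.ev (nat_lit 432) (nat_lit 40960) (.nd
 (nat_lit 1664) (.br (nat_lit 4) (.br (nat_lit 1) (.ch (nat_lit 0) (.nd (nat_lit 3376) (.br (nat_lit 5) (.br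
 (nat_lit 4) (.ch (nat_lit 2) (.ev (nat_lit 3392) (nat_lit 2) (.ev (nat_lit 3405) (nat_lit 2048) .dd))) (.ch
 (nat_lit 4) (.ev (nat_lit 3988) (nat_lit 2048) (.ev (nat_lit 3997) (nat_lit 2) .dd)))) (.br (nat_lit 6) (.ch
 (nat_lit 5) (.ev (nat_lit 4848) (nat_lit 2) (.ev (nat_lit 4861) (nat_lit 2048) .dd))) (.ch (nat_lit 6) (.ev
 (nat_lit 3392) (nat_lit 2048) (.ev (nat_lit 3405) (nat_lit 2) .dd))))))) (.ch (nat_lit 1) (.ev (nat_lit 1680)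
 (nat_lit 2050) .dd))) (.br (nat_lit 5) (.ch (nat_lit 4) (.nd (nat_lit 2896) (.br (nat_lit 4) (.br (nat_lit 3)
 (.ch (nat_lit 1) (.ev (nat_lit 2912) (nat_lit 2048) (.ev (nat_lit 2925) (nat_lit 2) .dd))) (.ch (nat_lit 3)
 (.ev (nat_lit 4564) (nat_lit 2048) (.ev (nat_lit 4573) (nat_lit 2) .dd)))) (.br (nat_lit 6) (.ch (nat_lit 4)
 (.ev (nat_lit 2944) (nat_lit 2048) (.ev (nat_lit 2957) (nat_lit 2) .dd))) (.ch (nat_lit 6) (.ev (nat_lit 2976)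
 (nat_lit 2050) .dd)))))) (.br (nat_lit 6) (.ch (nat_lit 5) (.nd (nat_lit 3216) (.br (nat_lit 4) (.br (nat_lit
 1) (.ch (nat_lit 0) (.ev (nat_lit 3232) (nat_lit 2050) .dd)) (.ch (nat_lit 1) (.ev (nat_lit 4596) (nat_lit
 2048) (.ev (nat_lit 4605) (nat_lit 2) .dd)))) (.br (nat_lit 6) (.ch (nat_lit 4) (.ev (nat_lit 3232) (nat_lit
 2) (.ev (nat_lit 3245) (nat_lit 2048) .dd))) (.ch (nat_lit 6) (.ev (nat_lit 3232) (nat_lit 2) (.ev (nat_lit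
 3245) (nat_lit 2048) .dd))))))) (.ch (nat_lit 6) (.ev (nat_lit 1680) (nat_lit 2048) (.ev (nat_lit 1693)
 (nat_lit 2) .dd))))))))) (.ch (nat_lit 1) (.ev (nat_lit 432) (nat_lit 2048) (.nd (nat_lit 1216) (.br (nat_lit
 2) (.ch (nat_lit 1) (.ev (nat_lit 1232) (nat_lit 2) (.nd (nat_lit 2704) (.br (nat_lit 3) (.ch (nat_lit 0) (.ev
 (nat_lit 4052) (nat_lit 32768) (.ev (nat_lit 4061) (nat_lit 8192) .dd))) (.br (nat_lit 4) (.ch (nat_lit 3)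
 (.ev (nat_lit 2720) (nat_lit 8192) (.ev (nat_lit 2733) (nat_lit 32768) .dd))) (.ch (nat_lit 4) (.ev (nat_lit
 2720) (nat_lit 32768) (.ev (nat_lit 2733) (nat_lit 8192) .dd)))))))) (.br (nat_lit 6) (.ch (nat_lit 2) (.nd
 (nat_lit 2016) (.br (nat_lit 3) (.br (nat_lit 2) (.ch (nat_lit 0) (.ev (nat_lit 2032) (nat_lit 8194) (.ev
 (nat_lit 2045) (nat_lit 32768) .dd))) (.ch (nat_lit 2) (.ev (nat_lit 2032) (nat_lit 2) (.ev (nat_lit 3060)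
 (nat_lit 32768) (.ev (nat_lit 3069) (nat_lit 8192) .dd))))) (.br (nat_lit 5) (.ch (nat_lit 3) (.ev (nat_lit
 3060) (nat_lit 32768) (.ev (nat_lit 5188) (nat_lit 8192) (.ev (nat_lit 5197) (nat_lit 2) .dd)))) (.ch (nat_lit
 5) (.ev (nat_lit 2032) (nat_lit 32770) (.ev (nat_lit 2045) (nat_lit 8192) .dd))))))) (.ch (nat_lit 6) (.ev
 (nat_lit 1252) (nat_lit 32768) (.ev (nat_lit 5252) (nat_lit 2) (.ev (nat_lit 5261) (nat_lit 8192)
 .dd)))))))))) (.br (nat_lit 3) (.ch (nat_lit 2) (.nd (nat_lit 976) (.br (nat_lit 2) (.br (nat_lit 1) (.ch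
 (nat_lit 0) (.ev (nat_lit 992) (nat_lit 2048) (.ev (nat_lit 1908) (nat_lit 2) (.nd (nat_lit 2464) (.br
 (nat_lit 4) (.br (nat_lit 3) (.ch (nat_lit 1) (.ev (nat_lit 2480) (nat_lit 32768) (.ev (nat_lit 2493) (nat_lit
 8192) .dd))) (.ch (nat_lit 3) (.ev (nat_lit 3508) (nat_lit 8192) (.ev (nat_lit 3517) (nat_lit 32768) .dd))))
 (.br (nat_lit 5) (.ch (nat_lit 4) (.ev (nat_lit 3476) (nat_lit 8192) (.ev (nat_lit 3485) (nat_lit 32768)
 .dd))) (.br (nat_lit 6) (.ch (nat_lit 5) (.ev (nat_lit 2480) (nat_lit 8192) (.ev (nat_lit 2493) (nat_lit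
 32768) .dd))) (.ch (nat_lit 6) (.ev (nat_lit 2480) (nat_lit 8192) (.ev (nat_lit 2493) (nat_lit 32768)
 .dd)))))))))) (.ch (nat_lit 1) (.ev (nat_lit 992) (nat_lit 8194) (.nd (nat_lit 1968) (.br (nat_lit 3) (.br
 (nat_lit 2) (.ch (nat_lit 0) (.ev (nat_lit 1984) (nat_lit 32768) (.ev (nat_lit 1997) (nat_lit 2048) .dd)))
 (.ch (nat_lit 2) (.ev (nat_lit 1984) (nat_lit 32768) (.ev (nat_lit 1997) (nat_lit 2048) .dd)))) (.br (nat_lit
 4) (.ch (nat_lit 3) (.nd (nat_lit 6048) (.br (nat_lit 6) (.ch (nat_lit 0) (.nd (nat_lit 8192) (.ch (nat_lit 1)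
 (.nd (nat_lit 8560) (.br (nat_lit 5) (.ch (nat_lit 2) (.ev (nat_lit 8576) (nat_lit 32768) (.ev (nat_lit 8589)
 (nat_lit 2048) .dd))) (.ch (nat_lit 5) (.fin (nat_lit 576466799638823582)))))))) (.ch (nat_lit 6) (.ev
 (nat_lit 6064) (nat_lit 2048) (.ev (nat_lit 6077) (nat_lit 32768) .dd)))))) (.ch (nat_lit 4) (.ev (nat_lit
 1984) (nat_lit 34816) .dd)))))))) (.br (nat_lit 3) (.ch (nat_lit 2) (.nd (nat_lit 1968) (.br (nat_lit 4) (.br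
 (nat_lit 3) (.ch (nat_lit 1) (.ev (nat_lit 1984) (nat_lit 2) (.nd (nat_lit 5920) (.br (nat_lit 4) (.ch
 (nat_lit 1) (.ev (nat_lit 5936) (nat_lit 32768) (.fin (nat_lit 576501984000426662)))) (.br (nat_lit 5) (.ch
 (nat_lit 4) (.ev (nat_lit 5936) (nat_lit 8192) (.ev (nat_lit 6372) (nat_lit 2048) (.ev (nat_lit 6381) (nat_lit
 32768) .dd)))) (.ch (nat_lit 5) (.ev (nat_lit 6372) (nat_lit 2048) (.nd (nat_lit 7648) (.ch (nat_lit 6) (.nd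
 (nat_lit 8400) (.br (nat_lit 4) (.ch (nat_lit 1) (.ev (nat_lit 8416) (nat_lit 40960) .dd)) (.ch (nat_lit 4)
 (.fin (nat_lit 576437112789221950)))))))))))))) (.ch (nat_lit 3) (.ev (nat_lit 1984) (nat_lit 2048) (.ev
 (nat_lit 4080) (nat_lit 32768) (.ev (nat_lit 4596) (nat_lit 8192) (.ev (nat_lit 4605) (nat_lit 2) .dd))))))
 (.br (nat_lit 5) (.ch (nat_lit 4) (.ev (nat_lit 1984) (nat_lit 2) (.ev (nat_lit 4032) (nat_lit 8192) (.ev
 (nat_lit 4756) (nat_lit 32768) (.ev (nat_lit 4765) (nat_lit 2048) .dd))))) (.br (nat_lit 6) (.ch (nat_lit 5)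
 (.ev (nat_lit 1984) (nat_lit 32770) (.ev (nat_lit 3456) (nat_lit 8192) (.ev (nat_lit 3469) (nat_lit 2048)
 .dd)))) (.ch (nat_lit 6) (.ev (nat_lit 1984) (nat_lit 40960) (.ev (nat_lit 4836) (nat_lit 2) (.ev (nat_lit
 4845) (nat_lit 2048) .dd))))))))) (.br (nat_lit 4) (.ch (nat_lit 3) (.ev (nat_lit 992) (nat_lit 2048) (.ev
 (nat_lit 1796) (nat_lit 2) (.nd (nat_lit 2464) (.br (nat_lit 4) (.br (nat_lit 3) (.ch (nat_lit 0) (.ev
 (nat_lit 2480) (nat_lit 32768) (.ev (nat_lit 2493) (nat_lit 8192) .dd))) (.ch (nat_lit 3) (.ev (nat_lit 2480)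
 (nat_lit 8192) (.ev (nat_lit 2493) (nat_lit 32768) .dd)))) (.br (nat_lit 5) (.ch (nat_lit 4) (.ev (nat_lit
 2500) (nat_lit 32768) (.ev (nat_lit 2509) (nat_lit 8192) .dd))) (.br (nat_lit 6) (.ch (nat_lit 5) (.ev
 (nat_lit 2580) (nat_lit 8192) (.ev (nat_lit 2589) (nat_lit 32768) .dd))) (.ch (nat_lit 6) (.ev (nat_lit 2480)
 (nat_lit 40960) .dd))))))))) (.ch (nat_lit 4) (.ev (nat_lit 992) (nat_lit 40962) (.ev (nat_lit 1005) (nat_lit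
 2048) .dd)))))))) (.br (nat_lit 6) (.ch (nat_lit 3) (.ev (nat_lit 432) (nat_lit 10240) (.nd (nat_lit 1408)
 (.br (nat_lit 4) (.br (nat_lit 2) (.ch (nat_lit 0) (.ev (nat_lit 4464) (nat_lit 2) (.ev (nat_lit 4477)
 (nat_lit 32768) .dd))) (.ch (nat_lit 2) (.ev (nat_lit 4836) (nat_lit 32768) (.ev (nat_lit 4845) (nat_lit 2)
 .dd)))) (.br (nat_lit 5) (.ch (nat_lit 4) (.ev (nat_lit 1424) (nat_lit 32768) (.ev (nat_lit 1437) (nat_lit 2)
 .dd))) (.br (nat_lit 6) (.ch (nat_lit 5) (.ev (nat_lit 1424) (nat_lit 32770) .dd)) (.ch (nat_lit 6) (.ev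
 (nat_lit 4768) (nat_lit 2) (.ev (nat_lit 4781) (nat_lit 32768) .dd))))))))) (.ch (nat_lit 6) (.ev (nat_lit
 432) (nat_lit 2) (.nd (nat_lit 976) (.br (nat_lit 3) (.br (nat_lit 1) (.ch (nat_lit 0) (.nd (nat_lit 1968)
 (.br (nat_lit 3) (.br (nat_lit 2) (.ch (nat_lit 0) (.ev (nat_lit 4800) (nat_lit 32768) (.ev (nat_lit 5044)
 (nat_lit 2048) (.ev (nat_lit 5053) (nat_lit 8192) .dd)))) (.ch (nat_lit 2) (.ev (nat_lit 1984) (nat_lit 2048)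
 (.ev (nat_lit 2836) (nat_lit 8192) (.ev (nat_lit 2845) (nat_lit 32768) .dd))))) (.br (nat_lit 6) (.ch (nat_lit
 3) (.ev (nat_lit 1984) (nat_lit 8192) (.ev (nat_lit 4596) (nat_lit 32768) (.ev (nat_lit 4605) (nat_lit 2048)
 .dd)))) (.ch (nat_lit 6) (.ev (nat_lit 2164) (nat_lit 32768) (.ev (nat_lit 2272) (nat_lit 2048) (.ev (nat_lit
 2285) (nat_lit 8192) .dd)))))))) (.ch (nat_lit 1) (.ev (nat_lit 992) (nat_lit 8192) (.ev (nat_lit 1444)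
 (nat_lit 2048) (.ev (nat_lit 1453) (nat_lit 32768) .dd))))) (.br (nat_lit 5) (.ch (nat_lit 3) (.ev (nat_lit
 992) (nat_lit 2048) (.fin (nat_lit 576448107957928504)))) (.br (nat_lit 6) (.ch (nat_lit 5) (.nd (nat_lit
 2704) (.br (nat_lit 4) (.ch (nat_lit 1) (.ev (nat_lit 3988) (nat_lit 32768) (.ev (nat_lit 5076) (nat_lit 8192)
 (.ev (nat_lit 5085) (nat_lit 2048) .dd)))) (.br (nat_lit 6) (.ch (nat_lit 4) (.ev (nat_lit 2720) (nat_lit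
 40960) (.ev (nat_lit 2733) (nat_lit 2048) .dd))) (.ch (nat_lit 6) (.ev (nat_lit 2720) (nat_lit 2048) (.ev
 (nat_lit 2756) (nat_lit 32768) (.ev (nat_lit 2765) (nat_lit 8192) .dd)))))))) (.ch (nat_lit 6) (.ev (nat_lit
 992) (nat_lit 34816) (.ev (nat_lit 1005) (nat_lit 8192) .dd))))))))))))))) (.ch (nat_lit 6) (.ev (nat_lit 80)
 (nat_lit 32768) (.nd (nat_lit 384) (.br (nat_lit 4) (.br (nat_lit 3) (.ch (nat_lit 1) (.ev (nat_lit 400)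
 (nat_lit 4096) (.nd (nat_lit 976) (.br (nat_lit 3) (.br (nat_lit 2) (.ch (nat_lit 1) (.ev (nat_lit 992)
 (nat_lit 2368) (.nd (nat_lit 1968) (.br (nat_lit 3) (.ch (nat_lit 2) (.ev (nat_lit 2052) (nat_lit 8192) (.ev
 (nat_lit 2061) (nat_lit 2) .dd))) (.br (nat_lit 6) (.ch (nat_lit 3) (.ev (nat_lit 2516) (nat_lit 8192) (.ev
 (nat_lit 2525) (nat_lit 2) .dd))) (.ch (nat_lit 6) (.ev (nat_lit 1984) (nat_lit 2) (.ev (nat_lit 1997)
 (nat_lit 8192) .dd)))))))) (.ch (nat_lit 2) (.ev (nat_lit 992) (nat_lit 2050) (.ev (nat_lit 1652) (nat_lit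
 256) (.nd (nat_lit 2096) (.br (nat_lit 2) (.ch (nat_lit 1) (.ev (nat_lit 2112) (nat_lit 8256) .dd)) (.br
 (nat_lit 3) (.ch (nat_lit 2) (.nd (nat_lit 5952) (.br (nat_lit 5) (.ch (nat_lit 2) (.fin (nat_lit
 576528372260618910))) (.ch (nat_lit 5) (.ev (nat_lit 6084) (nat_lit 64) (.ev (nat_lit 6093) (nat_lit 8192)
 .dd)))))) (.ch (nat_lit 3) (.ev (nat_lit 2112) (nat_lit 8256) .dd))))))))) (.br (nat_lit 5) (.ch (nat_lit 3)
 (.ev (nat_lit 992) (nat_lit 8194) (.ev (nat_lit 1348) (nat_lit 256) (.nd (nat_lit 1968) (.br (nat_lit 2) (.ch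
 (nat_lit 1) (.ev (nat_lit 2500) (nat_lit 64) (.ev (nat_lit 2509) (nat_lit 2048) .dd))) (.br (nat_lit 5) (.ch
 (nat_lit 2) (.ev (nat_lit 2612) (nat_lit 64) (.ev (nat_lit 2621) (nat_lit 2048) .dd))) (.ch (nat_lit 5) (.ev
 (nat_lit 1984) (nat_lit 2048) (.ev (nat_lit 1997) (nat_lit 64) .dd))))))))) (.br (nat_lit 6) (.ch (nat_lit 5)
 (.nd (nat_lit 1968) (.br (nat_lit 3) (.br (nat_lit 2) (.ch (nat_lit 0) (.ev (nat_lit 1984) (nat_lit 8192) (.ev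
 (nat_lit 2500) (nat_lit 64) (.ev (nat_lit 3668) (nat_lit 2) (.ev (nat_lit 4480) (nat_lit 256) (.ev (nat_lit
 4493) (nat_lit 2048) .dd)))))) (.ch (nat_lit 2) (.ev (nat_lit 1984) (nat_lit 2048) (.ev (nat_lit 3444)
 (nat_lit 8192) (.ev (nat_lit 3524) (nat_lit 64) (.ev (nat_lit 3668) (nat_lit 2) (.ev (nat_lit 3677) (nat_lit
 256) .dd))))))) (.br (nat_lit 5) (.ch (nat_lit 3) (.ev (nat_lit 1984) (nat_lit 256) (.ev (nat_lit 2500)
 (nat_lit 64) (.ev (nat_lit 3668) (nat_lit 2) (.nd (nat_lit 5984) (.br (nat_lit 4) (.ch (nat_lit 1) (.ev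
 (nat_lit 7028) (nat_lit 8192) (.ev (nat_lit 7037) (nat_lit 2048) .dd))) (.br (nat_lit 5) (.ch (nat_lit 4) (.ev
 (nat_lit 6000) (nat_lit 8192) (.ev (nat_lit 6013) (nat_lit 2048) .dd))) (.ch (nat_lit 5) (.fin (nat_lit
 576451406461354528)))))))))) (.br (nat_lit 6) (.ch (nat_lit 5) (.ev (nat_lit 1984) (nat_lit 322) (.ev (nat_lit
 4596) (nat_lit 8192) (.ev (nat_lit 4605) (nat_lit 2048) .dd)))) (.ch (nat_lit 6) (.ev (nat_lit 1984) (nat_lit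
 8194) (.ev (nat_lit 2756) (nat_lit 256) (.ev (nat_lit 3488) (nat_lit 2048) (.ev (nat_lit 3501) (nat_lit 64)
 .dd)))))))))) (.ch (nat_lit 6) (.ev (nat_lit 992) (nat_lit 256) (.nd (nat_lit 1968) (.br (nat_lit 3) (.br
 (nat_lit 1) (.ch (nat_lit 0) (.nd (nat_lit 5920) (.br (nat_lit 3) (.ch (nat_lit 2) (.ev (nat_lit 5936)
 (nat_lit 10240) (.ev (nat_lit 6388) (nat_lit 64) (.ev (nat_lit 6397) (nat_lit 2) .dd)))) (.br (nat_lit 6) (.ch
 (nat_lit 3) (.ev (nat_lit 5936) (nat_lit 2112) (.fin (nat_lit 576442610359943745)))) (.ch (nat_lit 6) (.ev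
 (nat_lit 5936) (nat_lit 8192) (.ev (nat_lit 6436) (nat_lit 2) (.nd (nat_lit 7760) (.ch (nat_lit 4) (.nd
 (nat_lit 8432) (.br (nat_lit 6) (.ch (nat_lit 3) (.ev (nat_lit 8448) (nat_lit 64) (.ev (nat_lit 8461) (nat_lit
 2048) .dd))) (.ch (nat_lit 6) (.fin (nat_lit 576454705021403714)))))))))))))) (.ch (nat_lit 1) (.ev (nat_lit
 1984) (nat_lit 2) (.ev (nat_lit 2500) (nat_lit 8192) (.ev (nat_lit 4100) (nat_lit 2048) (.ev (nat_lit 4109)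
 (nat_lit 64) .dd)))))) (.br (nat_lit 4) (.ch (nat_lit 3) (.ev (nat_lit 1984) (nat_lit 64) (.ev (nat_lit 3252)
 (nat_lit 2) (.ev (nat_lit 4480) (nat_lit 8192) (.ev (nat_lit 4493) (nat_lit 2048) .dd))))) (.br (nat_lit 5)
 (.ch (nat_lit 4) (.ev (nat_lit 1984) (nat_lit 2112) (.ev (nat_lit 2500) (nat_lit 8192) (.ev (nat_lit 2509)
 (nat_lit 2) .dd)))) (.ch (nat_lit 5) (.ev (nat_lit 1984) (nat_lit 10240) (.ev (nat_lit 4740) (nat_lit 2) (.ev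
 (nat_lit 4749) (nat_lit 64) .dd)))))))))))))))) (.ch (nat_lit 3) (.ev (nat_lit 400) (nat_lit 8194) (.nd
 (nat_lit 1056) (.br (nat_lit 2) (.br (nat_lit 1) (.ch (nat_lit 0) (.ev (nat_lit 1460) (nat_lit 64) (.nd
 (nat_lit 2016) (.br (nat_lit 3) (.br (nat_lit 2) (.ch (nat_lit 1) (.ev (nat_lit 2032) (nat_lit 4096) (.fin
 (nat_lit 576461302049227318)))) (.ch (nat_lit 2) (.ev (nat_lit 2032) (nat_lit 4352) (.ev (nat_lit 2045)
 (nat_lit 2048) .dd)))) (.br (nat_lit 4) (.ch (nat_lit 3) (.ev (nat_lit 4100) (nat_lit 4352) (.ev (nat_lit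
 4109) (nat_lit 2048) .dd))) (.br (nat_lit 6) (.ch (nat_lit 4) (.ev (nat_lit 2032) (nat_lit 2304) (.ev (nat_lit
 2045) (nat_lit 4096) .dd))) (.ch (nat_lit 6) (.ev (nat_lit 2032) (nat_lit 256) (.ev (nat_lit 3092) (nat_lit
 4096) (.ev (nat_lit 3101) (nat_lit 2048) .dd)))))))))) (.ch (nat_lit 1) (.ev (nat_lit 1072) (nat_lit 256) (.nd
 (nat_lit 2016) (.br (nat_lit 3) (.br (nat_lit 2) (.ch (nat_lit 0) (.ev (nat_lit 2032) (nat_lit 4160) (.ev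
 (nat_lit 2045) (nat_lit 2048) .dd))) (.ch (nat_lit 2) (.ev (nat_lit 2032) (nat_lit 64) (.ev (nat_lit 3264)
 (nat_lit 2048) (.ev (nat_lit 3277) (nat_lit 4096) .dd))))) (.br (nat_lit 4) (.ch (nat_lit 3) (.ev (nat_lit
 2032) (nat_lit 64) (.ev (nat_lit 4052) (nat_lit 4096) (.ev (nat_lit 4061) (nat_lit 2048) .dd)))) (.ch (nat_lit
 4) (.ev (nat_lit 2032) (nat_lit 2048) (.fin (nat_lit 576439311825060436)))))))))) (.br (nat_lit 3) (.ch
 (nat_lit 2) (.ev (nat_lit 1072) (nat_lit 6144) (.nd (nat_lit 2464) (.br (nat_lit 1) (.ch (nat_lit 0) (.ev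
 (nat_lit 2740) (nat_lit 256) (.ev (nat_lit 2749) (nat_lit 64) .dd))) (.br (nat_lit 3) (.ch (nat_lit 1) (.ev
 (nat_lit 3952) (nat_lit 256) (.ev (nat_lit 3965) (nat_lit 64) .dd))) (.ch (nat_lit 3) (.ev (nat_lit 2480)
 (nat_lit 64) (.ev (nat_lit 2493) (nat_lit 256) .dd)))))))) (.br (nat_lit 5) (.ch (nat_lit 3) (.ev (nat_lit
 1072) (nat_lit 2048) (.nd (nat_lit 1968) (.br (nat_lit 2) (.br (nat_lit 1) (.ch (nat_lit 0) (.ev (nat_lit
 2644) (nat_lit 256) (.ev (nat_lit 2852) (nat_lit 64) (.ev (nat_lit 2861) (nat_lit 4096) .dd)))) (.ch (nat_lit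
 1) (.ev (nat_lit 1984) (nat_lit 4416) .dd))) (.br (nat_lit 4) (.ch (nat_lit 2) (.ev (nat_lit 1984) (nat_lit
 256) (.ev (nat_lit 2148) (nat_lit 4096) (.ev (nat_lit 2157) (nat_lit 64) .dd)))) (.br (nat_lit 6) (.ch
 (nat_lit 4) (.ev (nat_lit 1984) (nat_lit 4096) (.ev (nat_lit 4564) (nat_lit 256) (.ev (nat_lit 4573) (nat_lit
 64) .dd)))) (.ch (nat_lit 6) (.ev (nat_lit 4880) (nat_lit 64) (.ev (nat_lit 5124) (nat_lit 4096) (.ev (nat_lit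
 5133) (nat_lit 256) .dd)))))))))) (.ch (nat_lit 5) (.ev (nat_lit 1072) (nat_lit 4416) (.ev (nat_lit 1085)
 (nat_lit 2048) .dd)))))))))) (.br (nat_lit 5) (.ch (nat_lit 4) (.ev (nat_lit 400) (nat_lit 4354) (.nd (nat_lit
 1056) (.br (nat_lit 3) (.br (nat_lit 2) (.ch (nat_lit 1) (.ev (nat_lit 1072) (nat_lit 10240) (.ev (nat_lit
 1085) (nat_lit 64) .dd))) (.ch (nat_lit 2) (.ev (nat_lit 1072) (nat_lit 8192) (.nd (nat_lit 2464) (.br
 (nat_lit 5) (.ch (nat_lit 0) (.ev (nat_lit 4000) (nat_lit 2112) .dd)) (.ch (nat_lit 5) (.ev (nat_lit 2740)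
 (nat_lit 64) (.ev (nat_lit 2749) (nat_lit 2048) .dd)))))))) (.br (nat_lit 5) (.ch (nat_lit 3) (.ev (nat_lit
 1072) (nat_lit 64) (.nd (nat_lit 2016) (.br (nat_lit 3) (.br (nat_lit 1) (.ch (nat_lit 0) (.ev (nat_lit 5076)
 (nat_lit 2048) (.ev (nat_lit 5085) (nat_lit 8192) .dd))) (.ch (nat_lit 1) (.ev (nat_lit 2368) (nat_lit 8192)
 (.ev (nat_lit 2381) (nat_lit 2048) .dd)))) (.br (nat_lit 4) (.ch (nat_lit 3) (.ev (nat_lit 2032) (nat_lit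
 2048) (.ev (nat_lit 2045) (nat_lit 8192) .dd))) (.ch (nat_lit 4) (.ev (nat_lit 2032) (nat_lit 8192) (.ev
 (nat_lit 2045) (nat_lit 2048) .dd)))))))) (.br (nat_lit 6) (.ch (nat_lit 5) (.ev (nat_lit 1072) (nat_lit 64)
 (.nd (nat_lit 2704) (.br (nat_lit 3) (.ch (nat_lit 0) (.ev (nat_lit 3284) (nat_lit 8192) (.ev (nat_lit 3293)
 (nat_lit 2048) .dd))) (.br (nat_lit 6) (.ch (nat_lit 3) (.ev (nat_lit 2720) (nat_lit 8192) (.ev (nat_lit 2733)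
 (nat_lit 2048) .dd))) (.ch (nat_lit 6) (.ev (nat_lit 2720) (nat_lit 2048) (.ev (nat_lit 2733) (nat_lit 8192)
 .dd)))))))) (.ch (nat_lit 6) (.ev (nat_lit 1072) (nat_lit 2048) (.nd (nat_lit 1968) (.br (nat_lit 4) (.ch
 (nat_lit 0) (.ev (nat_lit 3028) (nat_lit 8192) (.ev (nat_lit 3037) (nat_lit 64) .dd))) (.br (nat_lit 6) (.ch
 (nat_lit 4) (.ev (nat_lit 3028) (nat_lit 8192) (.ev (nat_lit 3037) (nat_lit 64) .dd))) (.ch (nat_lit 6) (.ev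
 (nat_lit 2052) (nat_lit 64) (.ev (nat_lit 2061) (nat_lit 8192) .dd)))))))))))))) (.br (nat_lit 6) (.ch
 (nat_lit 5) (.ev (nat_lit 400) (nat_lit 2048) (.nd (nat_lit 1056) (.br (nat_lit 2) (.br (nat_lit 1) (.ch
 (nat_lit 0) (.ev (nat_lit 1072) (nat_lit 12288) (.ev (nat_lit 1780) (nat_lit 2) (.ev (nat_lit 4836) (nat_lit
 64) (.ev (nat_lit 4845) (nat_lit 256) .dd))))) (.ch (nat_lit 1) (.ev (nat_lit 1072) (nat_lit 4416) (.ev
 (nat_lit 4864) (nat_lit 8194) .dd)))) (.br (nat_lit 4) (.ch (nat_lit 2) (.ev (nat_lit 1072) (nat_lit 66) (.ev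
 (nat_lit 1940) (nat_lit 4096) (.nd (nat_lit 2704) (.br (nat_lit 2) (.br (nat_lit 1) (.ch (nat_lit 0) (.fin
 (nat_lit 576495386918077032))) (.ch (nat_lit 1) (.ev (nat_lit 4100) (nat_lit 256) (.ev (nat_lit 4109) (nat_lit
 8192) .dd)))) (.br (nat_lit 6) (.ch (nat_lit 2) (.ev (nat_lit 2720) (nat_lit 256) (.ev (nat_lit 2733) (nat_lit
 8192) .dd))) (.ch (nat_lit 6) (.ev (nat_lit 2720) (nat_lit 256) (.ev (nat_lit 2733) (nat_lit 8192)
 .dd))))))))) (.br (nat_lit 5) (.ch (nat_lit 4) (.ev (nat_lit 1072) (nat_lit 4098) (.nd (nat_lit 3856) (.br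
 (nat_lit 2) (.ch (nat_lit 0) (.ev (nat_lit 4564) (nat_lit 64) (.fin (nat_lit 576442610292835197)))) (.br
 (nat_lit 6) (.ch (nat_lit 2) (.ev (nat_lit 3908) (nat_lit 256) (.ev (nat_lit 4564) (nat_lit 64) (.ev (nat_lit
 4573) (nat_lit 8192) .dd)))) (.ch (nat_lit 6) (.ev (nat_lit 4196) (nat_lit 256) (.ev (nat_lit 4352) (nat_lit
 8256) .dd)))))))) (.ch (nat_lit 5) (.ev (nat_lit 1072) (nat_lit 8192) (.ev (nat_lit 1908) (nat_lit 2) (.ev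
 (nat_lit 2404) (nat_lit 4096) (.ev (nat_lit 4756) (nat_lit 256) (.ev (nat_lit 4765) (nat_lit 64)
 .dd)))))))))))) (.ch (nat_lit 6) (.ev (nat_lit 400) (nat_lit 2112) (.nd (nat_lit 1152) (.br (nat_lit 2) (.br
 (nat_lit 1) (.ch (nat_lit 0) (.ev (nat_lit 1168) (nat_lit 2) (.nd (nat_lit 2176) (.br (nat_lit 3) (.br
 (nat_lit 2) (.ch (nat_lit 1) (.ev (nat_lit 2192) (nat_lit 256) (.ev (nat_lit 2432) (nat_lit 8192) (.ev
 (nat_lit 2445) (nat_lit 4096) .dd)))) (.ch (nat_lit 2) (.ev (nat_lit 2192) (nat_lit 8192) (.ev (nat_lit 4964)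
 (nat_lit 256) (.ev (nat_lit 4973) (nat_lit 4096) .dd))))) (.br (nat_lit 4) (.ch (nat_lit 3) (.ev (nat_lit
 2192) (nat_lit 4352) (.ev (nat_lit 2205) (nat_lit 8192) .dd))) (.br (nat_lit 6) (.ch (nat_lit 4) (.ev (nat_lit
 2192) (nat_lit 256) (.ev (nat_lit 2500) (nat_lit 4096) (.ev (nat_lit 2509) (nat_lit 8192) .dd)))) (.ch
 (nat_lit 6) (.ev (nat_lit 4704) (nat_lit 256) (.ev (nat_lit 5076) (nat_lit 8192) (.ev (nat_lit 5085) (nat_lit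
 4096) .dd)))))))))) (.ch (nat_lit 1) (.ev (nat_lit 1168) (nat_lit 258) (.nd (nat_lit 4400) (.br (nat_lit 2)
 (.ch (nat_lit 0) (.ev (nat_lit 4416) (nat_lit 8192) (.ev (nat_lit 4429) (nat_lit 4096) .dd))) (.br (nat_lit 3)
 (.ch (nat_lit 2) (.ev (nat_lit 5152) (nat_lit 12288) .dd)) (.ch (nat_lit 3) (.fin (nat_lit
 576443709874717235))))))))) (.br (nat_lit 3) (.ch (nat_lit 2) (.ev (nat_lit 1188) (nat_lit 8192) (.ev (nat_lit
 1572) (nat_lit 256) (.nd (nat_lit 2896) (.br (nat_lit 3) (.br (nat_lit 1) (.ch (nat_lit 0) (.ev (nat_lit 3264)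
 (nat_lit 4096) (.ev (nat_lit 3277) (nat_lit 2) .dd))) (.ch (nat_lit 1) (.ev (nat_lit 2912) (nat_lit 2) (.ev
 (nat_lit 2925) (nat_lit 4096) .dd)))) (.br (nat_lit 6) (.ch (nat_lit 3) (.ev (nat_lit 2932) (nat_lit 2) (.ev
 (nat_lit 2941) (nat_lit 4096) .dd))) (.ch (nat_lit 6) (.ev (nat_lit 2912) (nat_lit 4098) .dd)))))))) (.br
 (nat_lit 5) (.ch (nat_lit 3) (.ev (nat_lit 1168) (nat_lit 4096) (.nd (nat_lit 2096) (.br (nat_lit 2) (.br
 (nat_lit 1) (.ch (nat_lit 0) (.ev (nat_lit 3936) (nat_lit 8192) (.ev (nat_lit 4596) (nat_lit 256) (.ev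
 (nat_lit 4605) (nat_lit 2) .dd)))) (.ch (nat_lit 1) (.ev (nat_lit 2112) (nat_lit 256) (.ev (nat_lit 2320)
 (nat_lit 8194) .dd)))) (.br (nat_lit 4) (.ch (nat_lit 2) (.ev (nat_lit 3152) (nat_lit 256) (.ev (nat_lit 4164)
 (nat_lit 2) (.ev (nat_lit 4173) (nat_lit 8192) .dd)))) (.br (nat_lit 6) (.ch (nat_lit 4) (.ev (nat_lit 2112)
 (nat_lit 8192) (.fin (nat_lit 576368943141700056)))) (.ch (nat_lit 6) (.ev (nat_lit 2112) (nat_lit 2) (.ev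
 (nat_lit 4308) (nat_lit 8192) (.ev (nat_lit 4317) (nat_lit 256) .dd)))))))))) (.ch (nat_lit 5) (.ev (nat_lit
 1168) (nat_lit 8192) (.ev (nat_lit 2420) (nat_lit 4096) (.nd (nat_lit 4400) (.br (nat_lit 4) (.ch (nat_lit 2)
 (.ev (nat_lit 4416) (nat_lit 256) (.ev (nat_lit 4429) (nat_lit 2) .dd))) (.br (nat_lit 5) (.ch (nat_lit 4)
 (.ev (nat_lit 4452) (nat_lit 2) (.ev (nat_lit 4461) (nat_lit 256) .dd))) (.ch (nat_lit 5) (.nd (nat_lit 6496)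
 (.br (nat_lit 5) (.ch (nat_lit 1) (.ev (nat_lit 6512) (nat_lit 256) (.ev (nat_lit 6525) (nat_lit 2) .dd)))
 (.ch (nat_lit 5) (.fin (nat_lit 576113856622313645)))))))))))))))))))))))))))))) (.br (nat_lit 6) (.ch
 (nat_lit 3) (.ev (nat_lit 48) (nat_lit 8256) (.nd (nat_lit 256) (.br (nat_lit 3) (.br (nat_lit 1) (.ch
 (nat_lit 0) (.ev (nat_lit 272) (nat_lit 2) (.nd (nat_lit 768) (.br (nat_lit 2) (.br (nat_lit 1) (.ch (nat_lit
 0) (.ev (nat_lit 784) (nat_lit 260) (.nd (nat_lit 1664) (.br (nat_lit 5) (.br (nat_lit 3) (.ch (nat_lit 2)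
 (.ev (nat_lit 1680) (nat_lit 32768) (.ev (nat_lit 1892) (nat_lit 2048) (.ev (nat_lit 1901) (nat_lit 4096)
 .dd)))) (.ch (nat_lit 3) (.ev (nat_lit 1680) (nat_lit 2048) (.ev (nat_lit 1780) (nat_lit 32768) (.ev (nat_lit
 1789) (nat_lit 4096) .dd))))) (.br (nat_lit 6) (.ch (nat_lit 5) (.nd (nat_lit 3856) (.br (nat_lit 2) (.ch
 (nat_lit 1) (.ev (nat_lit 3872) (nat_lit 2048) (.ev (nat_lit 4644) (nat_lit 4096) (.ev (nat_lit 4653) (nat_lit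
 32768) .dd)))) (.br (nat_lit 3) (.ch (nat_lit 2) (.ev (nat_lit 3872) (nat_lit 32768) (.ev (nat_lit 4756)
 (nat_lit 2048) (.ev (nat_lit 4765) (nat_lit 4096) .dd)))) (.ch (nat_lit 3) (.ev (nat_lit 3872) (nat_lit 4096)
 (.ev (nat_lit 3908) (nat_lit 32768) (.ev (nat_lit 3917) (nat_lit 2048) .dd)))))))) (.ch (nat_lit 6) (.ev
 (nat_lit 1680) (nat_lit 4096) (.fin (nat_lit 576462401572389436))))))))) (.ch (nat_lit 1) (.ev (nat_lit 784)
 (nat_lit 37120) (.nd (nat_lit 1744) (.br (nat_lit 4) (.ch (nat_lit 2) (.ev (nat_lit 1892) (nat_lit 2048) (.ev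
 (nat_lit 1901) (nat_lit 4) .dd))) (.br (nat_lit 5) (.ch (nat_lit 4) (.ev (nat_lit 4848) (nat_lit 2048) (.ev
 (nat_lit 4861) (nat_lit 4) .dd))) (.ch (nat_lit 5) (.ev (nat_lit 4740) (nat_lit 4) (.ev (nat_lit 4749)
 (nat_lit 2048) .dd))))))))) (.br (nat_lit 4) (.ch (nat_lit 2) (.ev (nat_lit 784) (nat_lit 34816) (.nd (nat_lit
 1584) (.br (nat_lit 5) (.br (nat_lit 4) (.ch (nat_lit 0) (.ev (nat_lit 1600) (nat_lit 4096) (.fin (nat_lit
 576464600600887876)))) (.ch (nat_lit 4) (.ev (nat_lit 1600) (nat_lit 4096) (.ev (nat_lit 5220) (nat_lit 4)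
 (.ev (nat_lit 5229) (nat_lit 256) .dd))))) (.br (nat_lit 6) (.ch (nat_lit 5) (.ev (nat_lit 1600) (nat_lit 256)
 (.ev (nat_lit 5236) (nat_lit 4) (.ev (nat_lit 5245) (nat_lit 4096) .dd)))) (.ch (nat_lit 6) (.ev (nat_lit
 1600) (nat_lit 4) (.ev (nat_lit 5204) (nat_lit 4096) (.ev (nat_lit 5213) (nat_lit 256) .dd))))))))) (.br
 (nat_lit 5) (.ch (nat_lit 4) (.ev (nat_lit 784) (nat_lit 2048) (.nd (nat_lit 1664) (.br (nat_lit 3) (.br
 (nat_lit 1) (.ch (nat_lit 0) (.ev (nat_lit 1680) (nat_lit 36864) (.ev (nat_lit 1908) (nat_lit 256) (.ev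
 (nat_lit 1917) (nat_lit 4) .dd)))) (.ch (nat_lit 1) (.ev (nat_lit 1680) (nat_lit 32768) (.ev (nat_lit 4644)
 (nat_lit 4096) (.ev (nat_lit 4704) (nat_lit 4) (.ev (nat_lit 4717) (nat_lit 256) .dd)))))) (.br (nat_lit 4)
 (.ch (nat_lit 3) (.nd (nat_lit 3216) (.br (nat_lit 3) (.br (nat_lit 2) (.ch (nat_lit 1) (.ev (nat_lit 3232)
 (nat_lit 260) (.ev (nat_lit 4596) (nat_lit 4096) (.ev (nat_lit 4605) (nat_lit 32768) .dd)))) (.ch (nat_lit 2)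
 (.ev (nat_lit 3232) (nat_lit 4096) (.ev (nat_lit 4352) (nat_lit 32768) (.ev (nat_lit 4916) (nat_lit 256) (.ev
 (nat_lit 4925) (nat_lit 4) .dd)))))) (.br (nat_lit 5) (.ch (nat_lit 3) (.ev (nat_lit 3232) (nat_lit 36868)
 (.ev (nat_lit 3245) (nat_lit 256) .dd))) (.br (nat_lit 6) (.ch (nat_lit 5) (.ev (nat_lit 3232) (nat_lit 32768)
 (.ev (nat_lit 3252) (nat_lit 4096) (.ev (nat_lit 3412) (nat_lit 4) (.ev (nat_lit 3421) (nat_lit 256) .dd)))))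
 (.ch (nat_lit 6) (.ev (nat_lit 3232) (nat_lit 33024) (.ev (nat_lit 3252) (nat_lit 4096) (.ev (nat_lit 3261)
 (nat_lit 4) .dd))))))))) (.br (nat_lit 6) (.ch (nat_lit 4) (.ev (nat_lit 1680) (nat_lit 260) (.ev (nat_lit
 4916) (nat_lit 4096) (.ev (nat_lit 4925) (nat_lit 32768) .dd)))) (.ch (nat_lit 6) (.ev (nat_lit 1680) (nat_lit
 256) (.ev (nat_lit 1700) (nat_lit 4096) (.ev (nat_lit 4564) (nat_lit 4) (.ev (nat_lit 4573) (nat_lit 32768)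
 .dd))))))))))) (.ch (nat_lit 5) (.ev (nat_lit 784) (nat_lit 4) (.nd (nat_lit 1664) (.br (nat_lit 3) (.br
 (nat_lit 2) (.ch (nat_lit 0) (.ev (nat_lit 1680) (nat_lit 2048) (.ev (nat_lit 1700) (nat_lit 32768) (.ev
 (nat_lit 4480) (nat_lit 4096) (.ev (nat_lit 4493) (nat_lit 256) .dd))))) (.ch (nat_lit 2) (.ev (nat_lit 1680)
 (nat_lit 2304) (.ev (nat_lit 4836) (nat_lit 4096) (.ev (nat_lit 4845) (nat_lit 32768) .dd))))) (.br (nat_lit
 5) (.ch (nat_lit 3) (.ev (nat_lit 1680) (nat_lit 32768) (.ev (nat_lit 4740) (nat_lit 256) (.ev (nat_lit 4916)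
 (nat_lit 4096) (.ev (nat_lit 4925) (nat_lit 2048) .dd))))) (.br (nat_lit 6) (.ch (nat_lit 5) (.ev (nat_lit
 1680) (nat_lit 36864) (.ev (nat_lit 1924) (nat_lit 256) (.ev (nat_lit 1933) (nat_lit 2048) .dd)))) (.ch
 (nat_lit 6) (.ev (nat_lit 1700) (nat_lit 4096) (.nd (nat_lit 3376) (.br (nat_lit 5) (.br (nat_lit 4) (.ch
 (nat_lit 2) (.ev (nat_lit 3392) (nat_lit 256) (.ev (nat_lit 3908) (nat_lit 32768) (.ev (nat_lit 3917) (nat_lit
 2048) .dd)))) (.ch (nat_lit 4) (.ev (nat_lit 3412) (nat_lit 256) (.ev (nat_lit 4964) (nat_lit 2048) (.ev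
 (nat_lit 4973) (nat_lit 32768) .dd))))) (.br (nat_lit 6) (.ch (nat_lit 5) (.ev (nat_lit 3392) (nat_lit 32768)
 (.ev (nat_lit 4964) (nat_lit 256) (.ev (nat_lit 4973) (nat_lit 2048) .dd)))) (.ch (nat_lit 6) (.ev (nat_lit
 3392) (nat_lit 34816) (.ev (nat_lit 3405) (nat_lit 256) .dd)))))))))))))))))))) (.ch (nat_lit 1) (.ev (nat_lit
 272) (nat_lit 32770) (.nd (nat_lit 704) (.br (nat_lit 4) (.br (nat_lit 2) (.ch (nat_lit 0) (.ev (nat_lit 720)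
 (nat_lit 260) (.nd (nat_lit 1152) (.br (nat_lit 3) (.br (nat_lit 1) (.ch (nat_lit 0) (.ev (nat_lit 1168)
 (nat_lit 4096) (.ev (nat_lit 1181) (nat_lit 2048) .dd))) (.ch (nat_lit 1) (.nd (nat_lit 2016) (.br (nat_lit 3)
 (.br (nat_lit 2) (.ch (nat_lit 1) (.ev (nat_lit 2032) (nat_lit 4096) (.ev (nat_lit 2045) (nat_lit 2048) .dd)))
 (.ch (nat_lit 2) (.ev (nat_lit 2032) (nat_lit 6144) .dd))) (.br (nat_lit 4) (.ch (nat_lit 3) (.ev (nat_lit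
 4372) (nat_lit 2048) (.ev (nat_lit 4381) (nat_lit 4096) .dd))) (.br (nat_lit 6) (.ch (nat_lit 4) (.ev (nat_lit
 2032) (nat_lit 2048) (.ev (nat_lit 2045) (nat_lit 4096) .dd))) (.ch (nat_lit 6) (.ev (nat_lit 3136) (nat_lit
 4096) (.ev (nat_lit 3149) (nat_lit 2048) .dd))))))))) (.br (nat_lit 5) (.ch (nat_lit 3) (.nd (nat_lit 1968)
 (.br (nat_lit 2) (.ch (nat_lit 0) (.ev (nat_lit 2084) (nat_lit 4096) (.ev (nat_lit 2093) (nat_lit 2048) .dd)))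
 (.br (nat_lit 6) (.ch (nat_lit 2) (.ev (nat_lit 1984) (nat_lit 4096) (.ev (nat_lit 1997) (nat_lit 2048) .dd)))
 (.ch (nat_lit 6) (.ev (nat_lit 2260) (nat_lit 4096) (.ev (nat_lit 2269) (nat_lit 2048) .dd))))))) (.br
 (nat_lit 6) (.ch (nat_lit 5) (.ev (nat_lit 1168) (nat_lit 2048) (.ev (nat_lit 1181) (nat_lit 4096) .dd))) (.ch
 (nat_lit 6) (.nd (nat_lit 2704) (.br (nat_lit 4) (.br (nat_lit 2) (.ch (nat_lit 1) (.ev (nat_lit 2720)
 (nat_lit 2048) (.ev (nat_lit 2733) (nat_lit 4096) .dd))) (.ch (nat_lit 2) (.fin (nat_lit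
 576468998645301835)))) (.br (nat_lit 5) (.ch (nat_lit 4) (.ev (nat_lit 4596) (nat_lit 4096) (.ev (nat_lit
 4605) (nat_lit 2048) .dd))) (.ch (nat_lit 5) (.ev (nat_lit 3792) (nat_lit 2048) (.ev (nat_lit 3805) (nat_lit
 4096) .dd))))))))))))) (.ch (nat_lit 2) (.nd (nat_lit 1216) (.br (nat_lit 4) (.ch (nat_lit 0) (.nd (nat_lit
 2704) (.br (nat_lit 4) (.br (nat_lit 2) (.ch (nat_lit 1) (.ev (nat_lit 2720) (nat_lit 2048) (.ev (nat_lit
 3252) (nat_lit 4096) (.nd (nat_lit 6048) (.br (nat_lit 4) (.ch (nat_lit 1) (.fin (nat_lit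
 576226006430859333))) (.ch (nat_lit 4) (.ev (nat_lit 6064) (nat_lit 256) (.ev (nat_lit 6077) (nat_lit 4)
 .dd)))))))) (.ch (nat_lit 2) (.ev (nat_lit 3444) (nat_lit 4) (.ev (nat_lit 5044) (nat_lit 2048) (.nd (nat_lit
 7456) (.ch (nat_lit 4) (.nd (nat_lit 7904) (.br (nat_lit 5) (.ch (nat_lit 3) (.ev (nat_lit 7920) (nat_lit 256)
 (.ev (nat_lit 7933) (nat_lit 4096) .dd))) (.ch (nat_lit 5) (.fin (nat_lit 576452505926844958))))))))))) (.br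
 (nat_lit 5) (.ch (nat_lit 4) (.ev (nat_lit 2720) (nat_lit 4100) (.ev (nat_lit 4224) (nat_lit 2304) .dd))) (.ch
 (nat_lit 5) (.ev (nat_lit 2720) (nat_lit 4096) (.ev (nat_lit 4564) (nat_lit 4) (.ev (nat_lit 5044) (nat_lit
 2048) (.ev (nat_lit 5053) (nat_lit 256) .dd))))))))) (.br (nat_lit 6) (.ch (nat_lit 4) (.ev (nat_lit 1232)
 (nat_lit 4096) (.nd (nat_lit 3216) (.br (nat_lit 3) (.ch (nat_lit 2) (.ev (nat_lit 3232) (nat_lit 4) (.ev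
 (nat_lit 4916) (nat_lit 256) (.ev (nat_lit 4925) (nat_lit 2048) .dd)))) (.br (nat_lit 4) (.ch (nat_lit 3) (.ev
 (nat_lit 4052) (nat_lit 256) (.ev (nat_lit 4740) (nat_lit 4) (.ev (nat_lit 4749) (nat_lit 2048) .dd)))) (.ch
 (nat_lit 4) (.ev (nat_lit 3232) (nat_lit 256) (.ev (nat_lit 4916) (nat_lit 4) (.ev (nat_lit 4925) (nat_lit
 2048) .dd))))))))) (.ch (nat_lit 6) (.ev (nat_lit 2420) (nat_lit 256) (.ev (nat_lit 4692) (nat_lit 2048) (.nd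
 (nat_lit 5472) (.br (nat_lit 6) (.ch (nat_lit 0) (.ev (nat_lit 5488) (nat_lit 4100) .dd)) (.ch (nat_lit 6)
 (.fin (nat_lit 576500884358775338))))))))))))) (.br (nat_lit 5) (.ch (nat_lit 4) (.ev (nat_lit 720) (nat_lit
 2048) (.nd (nat_lit 1472) (.br (nat_lit 3) (.br (nat_lit 1) (.ch (nat_lit 0) (.ev (nat_lit 1488) (nat_lit
 4356) .dd)) (.ch (nat_lit 1) (.ev (nat_lit 1488) (nat_lit 4100) (.ev (nat_lit 1501) (nat_lit 256) .dd)))) (.br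
 (nat_lit 5) (.ch (nat_lit 3) (.ev (nat_lit 2692) (nat_lit 256) (.ev (nat_lit 3604) (nat_lit 4096) (.ev
 (nat_lit 3613) (nat_lit 4) .dd)))) (.br (nat_lit 6) (.ch (nat_lit 5) (.ev (nat_lit 4836) (nat_lit 4) (.ev
 (nat_lit 4964) (nat_lit 4096) (.ev (nat_lit 4973) (nat_lit 256) .dd)))) (.ch (nat_lit 6) (.ev (nat_lit 1620)
 (nat_lit 4096) (.ev (nat_lit 2580) (nat_lit 4) (.ev (nat_lit 2589) (nat_lit 256) .dd)))))))))) (.br (nat_lit
 6) (.ch (nat_lit 5) (.ev (nat_lit 720) (nat_lit 6144) (.nd (nat_lit 1216) (.br (nat_lit 2) (.br (nat_lit 1)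
 (.ch (nat_lit 0) (.ev (nat_lit 1232) (nat_lit 256) (.ev (nat_lit 1245) (nat_lit 4) .dd))) (.ch (nat_lit 1)
 (.ev (nat_lit 1780) (nat_lit 4) (.ev (nat_lit 1789) (nat_lit 256) .dd)))) (.br (nat_lit 4) (.ch (nat_lit 2)
 (.ev (nat_lit 1828) (nat_lit 4) (.ev (nat_lit 1837) (nat_lit 256) .dd))) (.br (nat_lit 5) (.ch (nat_lit 4)
 (.ev (nat_lit 1232) (nat_lit 4) (.ev (nat_lit 1245) (nat_lit 256) .dd))) (.ch (nat_lit 5) (.ev (nat_lit 4964)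
 (nat_lit 4) (.ev (nat_lit 4973) (nat_lit 256) .dd))))))))) (.ch (nat_lit 6) (.ev (nat_lit 720) (nat_lit 4)
 (.nd (nat_lit 1584) (.br (nat_lit 3) (.br (nat_lit 1) (.ch (nat_lit 0) (.ev (nat_lit 4564) (nat_lit 4096) (.nd
 (nat_lit 5584) (.br (nat_lit 6) (.ch (nat_lit 3) (.ev (nat_lit 5600) (nat_lit 2304) .dd)) (.ch (nat_lit 6)
 (.fin (nat_lit 576461302059713075))))))) (.ch (nat_lit 1) (.ev (nat_lit 1780) (nat_lit 256) (.ev (nat_lit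
 3732) (nat_lit 2048) (.ev (nat_lit 3741) (nat_lit 4096) .dd))))) (.br (nat_lit 4) (.ch (nat_lit 3) (.ev
 (nat_lit 1780) (nat_lit 256) (.ev (nat_lit 4452) (nat_lit 4096) (.ev (nat_lit 4461) (nat_lit 2048) .dd))))
 (.br (nat_lit 6) (.ch (nat_lit 4) (.ev (nat_lit 1600) (nat_lit 2304) (.ev (nat_lit 1613) (nat_lit 4096) .dd)))
 (.ch (nat_lit 6) (.ev (nat_lit 1600) (nat_lit 6400) .dd))))))))))))))) (.br (nat_lit 5) (.ch (nat_lit 3) (.ev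
 (nat_lit 272) (nat_lit 256) (.nd (nat_lit 672) (.br (nat_lit 4) (.br (nat_lit 2) (.ch (nat_lit 1) (.nd
 (nat_lit 1088) (.br (nat_lit 3) (.br (nat_lit 1) (.ch (nat_lit 0) (.ev (nat_lit 1104) (nat_lit 2052) (.ev
 (nat_lit 1188) (nat_lit 32768) (.nd (nat_lit 2464) (.br (nat_lit 1) (.ch (nat_lit 0) (.nd (nat_lit 6176) (.br
 (nat_lit 4) (.ch (nat_lit 3) (.fin (nat_lit 576440411326202388))) (.ch (nat_lit 4) (.ev (nat_lit 6192)
 (nat_lit 2) (.ev (nat_lit 6205) (nat_lit 4096) .dd)))))) (.br (nat_lit 5) (.ch (nat_lit 1) (.ev (nat_lit 3252)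
 (nat_lit 2) (.ev (nat_lit 3261) (nat_lit 4096) .dd))) (.ch (nat_lit 5) (.fin (nat_lit
 576607537068458331))))))))) (.ch (nat_lit 1) (.ev (nat_lit 1348) (nat_lit 2) (.ev (nat_lit 1396) (nat_lit
 2048) (.ev (nat_lit 1796) (nat_lit 4) (.ev (nat_lit 4100) (nat_lit 32768) (.ev (nat_lit 4109) (nat_lit 4096)
 .dd))))))) (.br (nat_lit 4) (.ch (nat_lit 3) (.ev (nat_lit 1104) (nat_lit 2) (.ev (nat_lit 1188) (nat_lit
 32768) (.ev (nat_lit 1252) (nat_lit 4) (.ev (nat_lit 1828) (nat_lit 2048) (.ev (nat_lit 1837) (nat_lit 4096)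
 .dd)))))) (.br (nat_lit 6) (.ch (nat_lit 4) (.ev (nat_lit 1104) (nat_lit 4096) (.ev (nat_lit 1844) (nat_lit 4)
 (.ev (nat_lit 4916) (nat_lit 2050) (.ev (nat_lit 4925) (nat_lit 32768) .dd))))) (.ch (nat_lit 6) (.ev (nat_lit
 1104) (nat_lit 38912) (.ev (nat_lit 5012) (nat_lit 4) (.ev (nat_lit 5021) (nat_lit 2) .dd))))))))) (.ch
 (nat_lit 2) (.ev (nat_lit 688) (nat_lit 4100) (.nd (nat_lit 1152) (.br (nat_lit 3) (.br (nat_lit 1) (.ch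
 (nat_lit 0) (.ev (nat_lit 1168) (nat_lit 32770) (.ev (nat_lit 1181) (nat_lit 2048) .dd))) (.ch (nat_lit 1)
 (.ev (nat_lit 1168) (nat_lit 2) (.nd (nat_lit 2176) (.br (nat_lit 2) (.ch (nat_lit 0) (.ev (nat_lit 3316)
 (nat_lit 32768) (.ev (nat_lit 3325) (nat_lit 2048) .dd))) (.br (nat_lit 6) (.ch (nat_lit 2) (.ev (nat_lit
 2500) (nat_lit 32768) (.ev (nat_lit 2509) (nat_lit 2048) .dd))) (.ch (nat_lit 6) (.ev (nat_lit 2964) (nat_lit
 32768) (.ev (nat_lit 2973) (nat_lit 2048) .dd))))))))) (.br (nat_lit 4) (.ch (nat_lit 3) (.nd (nat_lit 2096)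
 (.br (nat_lit 3) (.br (nat_lit 2) (.ch (nat_lit 0) (.ev (nat_lit 5044) (nat_lit 32768) (.ev (nat_lit 5172)
 (nat_lit 2048) (.ev (nat_lit 5181) (nat_lit 2) .dd)))) (.ch (nat_lit 2) (.ev (nat_lit 2112) (nat_lit 2048)
 (.ev (nat_lit 2500) (nat_lit 32768) (.ev (nat_lit 2509) (nat_lit 2) .dd))))) (.br (nat_lit 4) (.ch (nat_lit 3)
 (.ev (nat_lit 2112) (nat_lit 2) (.ev (nat_lit 5124) (nat_lit 32768) (.ev (nat_lit 5133) (nat_lit 2048) .dd))))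
 (.br (nat_lit 6) (.ch (nat_lit 4) (.ev (nat_lit 2112) (nat_lit 32770) (.ev (nat_lit 2125) (nat_lit 2048)
 .dd))) (.ch (nat_lit 6) (.ev (nat_lit 2112) (nat_lit 32768) (.ev (nat_lit 2560) (nat_lit 2050) .dd))))))))
 (.br (nat_lit 6) (.ch (nat_lit 4) (.ev (nat_lit 1168) (nat_lit 2048) (.ev (nat_lit 4164) (nat_lit 32768) (.ev
 (nat_lit 4173) (nat_lit 2) .dd)))) (.ch (nat_lit 6) (.ev (nat_lit 1168) (nat_lit 32768) (.ev (nat_lit 4052)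
 (nat_lit 2048) (.ev (nat_lit 4061) (nat_lit 2) .dd))))))))))) (.br (nat_lit 5) (.ch (nat_lit 4) (.ev (nat_lit
 688) (nat_lit 36866) (.nd (nat_lit 1744) (.br (nat_lit 3) (.br (nat_lit 2) (.ch (nat_lit 1) (.ev (nat_lit
 1760) (nat_lit 4) (.ev (nat_lit 1773) (nat_lit 2048) .dd))) (.ch (nat_lit 2) (.nd (nat_lit 5360) (.br (nat_lit
 2) (.ch (nat_lit 1) (.fin (nat_lit 576472297180185151))) (.ch (nat_lit 2) (.ev (nat_lit 5376) (nat_lit 2052)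
 .dd)))))) (.br (nat_lit 4) (.ch (nat_lit 3) (.ev (nat_lit 1760) (nat_lit 2052) .dd)) (.br (nat_lit 5) (.ch
 (nat_lit 4) (.ev (nat_lit 1760) (nat_lit 2048) (.ev (nat_lit 1773) (nat_lit 4) .dd))) (.ch (nat_lit 5) (.ev
 (nat_lit 1760) (nat_lit 2048) (.ev (nat_lit 1773) (nat_lit 4) .dd))))))))) (.br (nat_lit 6) (.ch (nat_lit 5)
 (.ev (nat_lit 688) (nat_lit 2050) (.nd (nat_lit 1408) (.br (nat_lit 3) (.br (nat_lit 2) (.ch (nat_lit 1) (.ev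
 (nat_lit 1424) (nat_lit 32768) (.ev (nat_lit 5012) (nat_lit 4) (.ev (nat_lit 5021) (nat_lit 4096) .dd)))) (.ch
 (nat_lit 2) (.ev (nat_lit 1444) (nat_lit 32768) (.ev (nat_lit 2676) (nat_lit 4096) (.ev (nat_lit 2685)
 (nat_lit 4) .dd))))) (.br (nat_lit 4) (.ch (nat_lit 3) (.ev (nat_lit 1424) (nat_lit 4096) (.ev (nat_lit 1508)
 (nat_lit 4) (.ev (nat_lit 1517) (nat_lit 32768) .dd)))) (.br (nat_lit 5) (.ch (nat_lit 4) (.ev (nat_lit 1424)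
 (nat_lit 32768) (.nd (nat_lit 2176) (.br (nat_lit 4) (.br (nat_lit 3) (.ch (nat_lit 2) (.ev (nat_lit 2612)
 (nat_lit 4) (.ev (nat_lit 2621) (nat_lit 4096) .dd))) (.ch (nat_lit 3) (.ev (nat_lit 2612) (nat_lit 4) (.ev
 (nat_lit 2621) (nat_lit 4096) .dd)))) (.br (nat_lit 5) (.ch (nat_lit 4) (.ev (nat_lit 2612) (nat_lit 4) (.ev
 (nat_lit 2621) (nat_lit 4096) .dd))) (.br (nat_lit 6) (.ch (nat_lit 5) (.ev (nat_lit 2192) (nat_lit 4096) (.ev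
 (nat_lit 2205) (nat_lit 4) .dd))) (.ch (nat_lit 6) (.ev (nat_lit 2192) (nat_lit 4) (.ev (nat_lit 2205)
 (nat_lit 4096) .dd))))))))) (.ch (nat_lit 5) (.ev (nat_lit 1424) (nat_lit 4100) (.ev (nat_lit 1437) (nat_lit
 32768) .dd))))))))) (.ch (nat_lit 6) (.ev (nat_lit 688) (nat_lit 2048) (.nd (nat_lit 1152) (.br (nat_lit 3)
 (.br (nat_lit 2) (.ch (nat_lit 1) (.ev (nat_lit 1168) (nat_lit 6) (.ev (nat_lit 3316) (nat_lit 4096) (.ev
 (nat_lit 3325) (nat_lit 32768) .dd)))) (.ch (nat_lit 2) (.ev (nat_lit 1168) (nat_lit 4098) (.ev (nat_lit 2404)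
 (nat_lit 32768) (.ev (nat_lit 2413) (nat_lit 4) .dd))))) (.br (nat_lit 4) (.ch (nat_lit 3) (.ev (nat_lit 1168)
 (nat_lit 32770) (.nd (nat_lit 3376) (.br (nat_lit 6) (.ch (nat_lit 2) (.ev (nat_lit 4000) (nat_lit 4100) .dd))
 (.ch (nat_lit 6) (.ev (nat_lit 4864) (nat_lit 4100) .dd)))))) (.br (nat_lit 5) (.ch (nat_lit 4) (.ev (nat_lit
 1168) (nat_lit 4) (.nd (nat_lit 2016) (.br (nat_lit 2) (.br (nat_lit 1) (.ch (nat_lit 0) (.ev (nat_lit 2032)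
 (nat_lit 32768) (.ev (nat_lit 2356) (nat_lit 2) (.ev (nat_lit 2365) (nat_lit 4096) .dd)))) (.ch (nat_lit 1)
 (.ev (nat_lit 2032) (nat_lit 4098) (.ev (nat_lit 2045) (nat_lit 32768) .dd)))) (.br (nat_lit 3) (.ch (nat_lit
 2) (.ev (nat_lit 4164) (nat_lit 4096) (.ev (nat_lit 4244) (nat_lit 2) (.ev (nat_lit 4253) (nat_lit 32768)
 .dd)))) (.br (nat_lit 4) (.ch (nat_lit 3) (.ev (nat_lit 4244) (nat_lit 2) (.fin (nat_lit
 576478894278263343)))) (.ch (nat_lit 4) (.ev (nat_lit 2032) (nat_lit 4096) (.ev (nat_lit 2212) (nat_lit 2)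
 (.ev (nat_lit 2221) (nat_lit 32768) .dd)))))))))) (.ch (nat_lit 5) (.ev (nat_lit 1168) (nat_lit 4096) (.nd
 (nat_lit 2704) (.br (nat_lit 4) (.br (nat_lit 2) (.ch (nat_lit 1) (.ev (nat_lit 2720) (nat_lit 32768) (.ev
 (nat_lit 4244) (nat_lit 4) (.ev (nat_lit 4253) (nat_lit 2) .dd)))) (.ch (nat_lit 2) (.ev (nat_lit 2720)
 (nat_lit 32768) (.fin (nat_lit 576421719615947294))))) (.br (nat_lit 6) (.ch (nat_lit 4) (.ev (nat_lit 2720)
 (nat_lit 2) (.ev (nat_lit 5076) (nat_lit 4) (.ev (nat_lit 5085) (nat_lit 32768) .dd)))) (.ch (nat_lit 6) (.ev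
 (nat_lit 4100) (nat_lit 32768) (.fin (nat_lit 576149040396714543))))))))))))))))))))) (.br (nat_lit 6) (.ch
 (nat_lit 5) (.ev (nat_lit 272) (nat_lit 2052) (.nd (nat_lit 736) (.br (nat_lit 4) (.br (nat_lit 2) (.ch
 (nat_lit 0) (.ev (nat_lit 752) (nat_lit 2) (.nd (nat_lit 1472) (.br (nat_lit 3) (.br (nat_lit 2) (.ch (nat_lit
 1) (.ev (nat_lit 1908) (nat_lit 32768) (.nd (nat_lit 2896) (.br (nat_lit 2) (.br (nat_lit 1) (.ch (nat_lit 0)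
 (.ev (nat_lit 2912) (nat_lit 4096) (.ev (nat_lit 2925) (nat_lit 256) .dd))) (.ch (nat_lit 1) (.ev (nat_lit
 3620) (nat_lit 256) (.ev (nat_lit 3629) (nat_lit 4096) .dd)))) (.br (nat_lit 4) (.ch (nat_lit 2) (.ev (nat_lit
 3620) (nat_lit 256) (.ev (nat_lit 3629) (nat_lit 4096) .dd))) (.ch (nat_lit 4) (.ev (nat_lit 3620) (nat_lit
 256) (.ev (nat_lit 3629) (nat_lit 4096) .dd)))))))) (.ch (nat_lit 2) (.ev (nat_lit 1892) (nat_lit 32768) (.ev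
 (nat_lit 2548) (nat_lit 4096) (.ev (nat_lit 2557) (nat_lit 256) .dd))))) (.br (nat_lit 4) (.ch (nat_lit 3)
 (.ev (nat_lit 1488) (nat_lit 37120) .dd)) (.br (nat_lit 6) (.ch (nat_lit 4) (.ev (nat_lit 1488) (nat_lit 4096)
 (.ev (nat_lit 4756) (nat_lit 32768) (.ev (nat_lit 4765) (nat_lit 256) .dd)))) (.ch (nat_lit 6) (.ev (nat_lit
 1488) (nat_lit 256) (.nd (nat_lit 3216) (.br (nat_lit 3) (.br (nat_lit 2) (.ch (nat_lit 0) (.ev (nat_lit 3232)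
 (nat_lit 32768) (.ev (nat_lit 3245) (nat_lit 4096) .dd))) (.ch (nat_lit 2) (.ev (nat_lit 3232) (nat_lit 36864)
 .dd))) (.br (nat_lit 5) (.ch (nat_lit 3) (.ev (nat_lit 4704) (nat_lit 32768) (.ev (nat_lit 4717) (nat_lit
 4096) .dd))) (.br (nat_lit 6) (.ch (nat_lit 5) (.ev (nat_lit 3252) (nat_lit 4096) (.ev (nat_lit 3261) (nat_lit
 32768) .dd))) (.ch (nat_lit 6) (.nd (nat_lit 6400) (.br (nat_lit 1) (.ch (nat_lit 0) (.nd (nat_lit 8112) (.ch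
 (nat_lit 6) (.nd (nat_lit 8752) (.br (nat_lit 4) (.ch (nat_lit 3) (.fin (nat_lit 576466799626240598))) (.ch
 (nat_lit 4) (.ev (nat_lit 8768) (nat_lit 36864) .dd))))))) (.br (nat_lit 2) (.ch (nat_lit 1) (.ev (nat_lit
 6416) (nat_lit 32768) (.ev (nat_lit 6429) (nat_lit 4096) .dd))) (.ch (nat_lit 2) (.ev (nat_lit 6416) (nat_lit
 32768) (.ev (nat_lit 6429) (nat_lit 4096) .dd))))))))))))))))))) (.ch (nat_lit 2) (.ev (nat_lit 752) (nat_lit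
 37120) (.ev (nat_lit 765) (nat_lit 2) .dd)))) (.br (nat_lit 5) (.ch (nat_lit 4) (.nd (nat_lit 1360) (.br
 (nat_lit 3) (.br (nat_lit 1) (.ch (nat_lit 0) (.nd (nat_lit 2896) (.br (nat_lit 5) (.br (nat_lit 3) (.ch
 (nat_lit 2) (.ev (nat_lit 2912) (nat_lit 4352) (.ev (nat_lit 3780) (nat_lit 2) (.ev (nat_lit 3789) (nat_lit
 32768) .dd)))) (.ch (nat_lit 3) (.ev (nat_lit 2912) (nat_lit 32768) (.ev (nat_lit 2932) (nat_lit 4096) (.ev
 (nat_lit 4896) (nat_lit 258) .dd))))) (.br (nat_lit 6) (.ch (nat_lit 5) (.ev (nat_lit 2912) (nat_lit 32768)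
 (.ev (nat_lit 3284) (nat_lit 4096) (.ev (nat_lit 4704) (nat_lit 256) (.ev (nat_lit 4717) (nat_lit 2) .dd)))))
 (.ch (nat_lit 6) (.ev (nat_lit 2912) (nat_lit 33026) (.ev (nat_lit 2925) (nat_lit 4096) .dd))))))) (.ch
 (nat_lit 1) (.ev (nat_lit 1376) (nat_lit 2) (.nd (nat_lit 2896) (.br (nat_lit 4) (.br (nat_lit 3) (.ch
 (nat_lit 0) (.ev (nat_lit 2912) (nat_lit 33024) (.ev (nat_lit 2925) (nat_lit 4096) .dd))) (.ch (nat_lit 3)
 (.ev (nat_lit 2912) (nat_lit 4096) (.ev (nat_lit 3412) (nat_lit 32768) (.ev (nat_lit 3421) (nat_lit 256)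
 .dd))))) (.br (nat_lit 5) (.ch (nat_lit 4) (.ev (nat_lit 4100) (nat_lit 32768) (.ev (nat_lit 4452) (nat_lit
 4096) (.ev (nat_lit 4461) (nat_lit 256) .dd)))) (.ch (nat_lit 5) (.ev (nat_lit 4100) (nat_lit 32768) (.nd
 (nat_lit 6880) (.br (nat_lit 2) (.ch (nat_lit 1) (.fin (nat_lit 576456903505691183))) (.ch (nat_lit 2) (.ev
 (nat_lit 6900) (nat_lit 256) (.ev (nat_lit 6909) (nat_lit 4096) .dd))))))))))))) (.br (nat_lit 5) (.ch
 (nat_lit 3) (.ev (nat_lit 1376) (nat_lit 36864) (.nd (nat_lit 5328) (.br (nat_lit 4) (.ch (nat_lit 3) (.ev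
 (nat_lit 5344) (nat_lit 256) (.ev (nat_lit 5357) (nat_lit 2) .dd))) (.ch (nat_lit 4) (.fin (nat_lit
 576346952804287018))))))) (.br (nat_lit 6) (.ch (nat_lit 5) (.ev (nat_lit 1376) (nat_lit 256) (.nd (nat_lit
 2464) (.br (nat_lit 4) (.br (nat_lit 3) (.ch (nat_lit 2) (.ev (nat_lit 2480) (nat_lit 32768) (.fin (nat_lit
 576461301929689656)))) (.ch (nat_lit 3) (.ev (nat_lit 2480) (nat_lit 2) (.ev (nat_lit 4644) (nat_lit 4096)
 (.ev (nat_lit 4653) (nat_lit 32768) .dd))))) (.br (nat_lit 6) (.ch (nat_lit 4) (.ev (nat_lit 2480) (nat_lit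
 4096) (.ev (nat_lit 4564) (nat_lit 2) (.ev (nat_lit 4573) (nat_lit 32768) .dd)))) (.ch (nat_lit 6) (.ev
 (nat_lit 3680) (nat_lit 32768) (.ev (nat_lit 4100) (nat_lit 2) (.ev (nat_lit 4109) (nat_lit 4096) .dd)))))))))
 (.ch (nat_lit 6) (.ev (nat_lit 1376) (nat_lit 4352) (.ev (nat_lit 1780) (nat_lit 32768) (.ev (nat_lit 1789)
 (nat_lit 2) .dd))))))))) (.br (nat_lit 6) (.ch (nat_lit 5) (.ev (nat_lit 752) (nat_lit 4096) (.ev (nat_lit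
 932) (nat_lit 32768) (.nd (nat_lit 1744) (.br (nat_lit 3) (.br (nat_lit 2) (.ch (nat_lit 0) (.ev (nat_lit
 1760) (nat_lit 2) (.ev (nat_lit 1773) (nat_lit 256) .dd))) (.ch (nat_lit 2) (.ev (nat_lit 1760) (nat_lit 2)
 (.ev (nat_lit 1773) (nat_lit 256) .dd)))) (.br (nat_lit 5) (.ch (nat_lit 3) (.ev (nat_lit 1760) (nat_lit 256)
 (.ev (nat_lit 1773) (nat_lit 2) .dd))) (.br (nat_lit 6) (.ch (nat_lit 5) (.ev (nat_lit 1812) (nat_lit 2) (.ev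
 (nat_lit 1821) (nat_lit 256) .dd))) (.ch (nat_lit 6) (.ev (nat_lit 4916) (nat_lit 2) (.ev (nat_lit 4925)
 (nat_lit 256) .dd)))))))))) (.ch (nat_lit 6) (.ev (nat_lit 752) (nat_lit 258) (.nd (nat_lit 1744) (.br
 (nat_lit 3) (.br (nat_lit 2) (.ch (nat_lit 0) (.ev (nat_lit 1760) (nat_lit 4096) (.ev (nat_lit 1773) (nat_lit
 32768) .dd))) (.ch (nat_lit 2) (.ev (nat_lit 1892) (nat_lit 32768) (.ev (nat_lit 1901) (nat_lit 4096) .dd))))
 (.br (nat_lit 5) (.ch (nat_lit 3) (.ev (nat_lit 4916) (nat_lit 4096) (.ev (nat_lit 4925) (nat_lit 32768)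
 .dd))) (.br (nat_lit 6) (.ch (nat_lit 5) (.ev (nat_lit 1760) (nat_lit 32768) (.ev (nat_lit 1773) (nat_lit
 4096) .dd))) (.ch (nat_lit 6) (.ev (nat_lit 1760) (nat_lit 36864) .dd)))))))))))))) (.ch (nat_lit 6) (.ev
 (nat_lit 272) (nat_lit 6404) (.nd (nat_lit 976) (.br (nat_lit 3) (.br (nat_lit 2) (.ch (nat_lit 0) (.ev
 (nat_lit 992) (nat_lit 32768) (.ev (nat_lit 1005) (nat_lit 2) .dd))) (.ch (nat_lit 2) (.nd (nat_lit 1856) (.br
 (nat_lit 3) (.br (nat_lit 1) (.ch (nat_lit 0) (.ev (nat_lit 1872) (nat_lit 32768) (.ev (nat_lit 1885) (nat_lit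
 2) .dd))) (.ch (nat_lit 1) (.ev (nat_lit 1872) (nat_lit 32770) .dd))) (.br (nat_lit 4) (.ch (nat_lit 3) (.ev
 (nat_lit 1872) (nat_lit 32770) .dd)) (.br (nat_lit 5) (.ch (nat_lit 4) (.fin (nat_lit 576487690313613908)))
 (.ch (nat_lit 5) (.ev (nat_lit 1872) (nat_lit 32768) (.ev (nat_lit 1885) (nat_lit 2) .dd))))))))) (.br
 (nat_lit 5) (.ch (nat_lit 3) (.ev (nat_lit 992) (nat_lit 2) (.ev (nat_lit 1005) (nat_lit 32768) .dd))) (.br
 (nat_lit 6) (.ch (nat_lit 5) (.ev (nat_lit 992) (nat_lit 2) (.ev (nat_lit 1005) (nat_lit 32768) .dd))) (.ch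
 (nat_lit 6) (.ev (nat_lit 1012) (nat_lit 32768) (.ev (nat_lit 1021) (nat_lit 2) .dd))))))))))))))) (.ch
 (nat_lit 6) (.ev (nat_lit 48) (nat_lit 37124) (.nd (nat_lit 224) (.br (nat_lit 3) (.br (nat_lit 1) (.ch
 (nat_lit 0) (.ev (nat_lit 240) (nat_lit 2) (.nd (nat_lit 832) (.br (nat_lit 3) (.br (nat_lit 1) (.ch (nat_lit
 0) (.ev (nat_lit 848) (nat_lit 8192) (.nd (nat_lit 1744) (.br (nat_lit 3) (.br (nat_lit 2) (.ch (nat_lit 0)
 (.ev (nat_lit 4564) (nat_lit 2048) (.ev (nat_lit 4573) (nat_lit 64) .dd))) (.ch (nat_lit 2) (.ev (nat_lit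
 4964) (nat_lit 64) (.ev (nat_lit 4973) (nat_lit 2048) .dd)))) (.br (nat_lit 5) (.ch (nat_lit 3) (.ev (nat_lit
 1760) (nat_lit 64) (.ev (nat_lit 1773) (nat_lit 2048) .dd))) (.br (nat_lit 6) (.ch (nat_lit 5) (.ev (nat_lit
 1760) (nat_lit 2112) .dd)) (.ch (nat_lit 6) (.ev (nat_lit 4964) (nat_lit 64) (.ev (nat_lit 4973) (nat_lit
 2048) .dd))))))))) (.ch (nat_lit 1) (.ev (nat_lit 848) (nat_lit 64) (.nd (nat_lit 1744) (.br (nat_lit 3) (.br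
 (nat_lit 1) (.ch (nat_lit 0) (.nd (nat_lit 3376) (.br (nat_lit 3) (.ch (nat_lit 2) (.ev (nat_lit 3392)
 (nat_lit 2048) (.ev (nat_lit 3405) (nat_lit 8192) .dd))) (.br (nat_lit 6) (.ch (nat_lit 3) (.ev (nat_lit 3392)
 (nat_lit 8192) (.ev (nat_lit 3405) (nat_lit 2048) .dd))) (.ch (nat_lit 6) (.fin (nat_lit
 576466799611560534))))))) (.ch (nat_lit 1) (.ev (nat_lit 4656) (nat_lit 8192) (.ev (nat_lit 4669) (nat_lit
 2048) .dd)))) (.br (nat_lit 5) (.ch (nat_lit 3) (.ev (nat_lit 1760) (nat_lit 10240) .dd)) (.ch (nat_lit 5)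
 (.ev (nat_lit 4916) (nat_lit 2048) (.ev (nat_lit 4925) (nat_lit 8192) .dd))))))))) (.br (nat_lit 4) (.ch
 (nat_lit 3) (.ev (nat_lit 848) (nat_lit 2112) (.ev (nat_lit 861) (nat_lit 8192) .dd))) (.br (nat_lit 5) (.ch
 (nat_lit 4) (.nd (nat_lit 1664) (.br (nat_lit 2) (.br (nat_lit 1) (.ch (nat_lit 0) (.ev (nat_lit 1680)
 (nat_lit 8256) (.ev (nat_lit 1693) (nat_lit 2048) .dd))) (.ch (nat_lit 1) (.ev (nat_lit 1680) (nat_lit 2048)
 (.nd (nat_lit 3856) (.br (nat_lit 3) (.ch (nat_lit 2) (.ev (nat_lit 3872) (nat_lit 8192) (.ev (nat_lit 3885)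
 (nat_lit 64) .dd))) (.br (nat_lit 5) (.ch (nat_lit 3) (.ev (nat_lit 5012) (nat_lit 64) (.ev (nat_lit 5021)
 (nat_lit 8192) .dd))) (.ch (nat_lit 5) (.ev (nat_lit 3872) (nat_lit 64) (.ev (nat_lit 3885) (nat_lit 8192)
 .dd))))))))) (.br (nat_lit 5) (.ch (nat_lit 2) (.ev (nat_lit 1680) (nat_lit 64) (.ev (nat_lit 5012) (nat_lit
 8192) (.ev (nat_lit 5021) (nat_lit 2048) .dd)))) (.br (nat_lit 6) (.ch (nat_lit 5) (.ev (nat_lit 1680)
 (nat_lit 10240) (.ev (nat_lit 1693) (nat_lit 64) .dd))) (.ch (nat_lit 6) (.ev (nat_lit 1780) (nat_lit 8192)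
 (.ev (nat_lit 4916) (nat_lit 64) (.ev (nat_lit 4925) (nat_lit 2048) .dd))))))))) (.ch (nat_lit 5) (.nd
 (nat_lit 1744) (.br (nat_lit 2) (.br (nat_lit 1) (.ch (nat_lit 0) (.ev (nat_lit 4768) (nat_lit 2048) (.fin
 (nat_lit 576464600593547844)))) (.ch (nat_lit 1) (.ev (nat_lit 1760) (nat_lit 64) (.ev (nat_lit 1892) (nat_lit
 8192) (.ev (nat_lit 1901) (nat_lit 2048) .dd))))) (.br (nat_lit 3) (.ch (nat_lit 2) (.ev (nat_lit 1760)
 (nat_lit 10240) (.ev (nat_lit 1773) (nat_lit 64) .dd))) (.br (nat_lit 4) (.ch (nat_lit 3) (.nd (nat_lit 3376)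
 (.br (nat_lit 5) (.br (nat_lit 4) (.ch (nat_lit 0) (.ev (nat_lit 3392) (nat_lit 8256) (.ev (nat_lit 3405)
 (nat_lit 2048) .dd))) (.ch (nat_lit 4) (.ev (nat_lit 3392) (nat_lit 64) (.ev (nat_lit 3508) (nat_lit 2048)
 (.ev (nat_lit 3517) (nat_lit 8192) .dd))))) (.br (nat_lit 6) (.ch (nat_lit 5) (.ev (nat_lit 3392) (nat_lit
 2048) (.ev (nat_lit 4692) (nat_lit 64) (.ev (nat_lit 4701) (nat_lit 8192) .dd)))) (.ch (nat_lit 6) (.ev
 (nat_lit 3392) (nat_lit 8192) (.ev (nat_lit 3508) (nat_lit 2048) (.ev (nat_lit 3517) (nat_lit 64) .dd))))))))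
 (.ch (nat_lit 4) (.ev (nat_lit 1760) (nat_lit 8256) (.ev (nat_lit 1773) (nat_lit 2048) .dd)))))))))))))) (.ch
 (nat_lit 1) (.ev (nat_lit 240) (nat_lit 64) (.nd (nat_lit 672) (.br (nat_lit 3) (.br (nat_lit 1) (.ch (nat_lit
 0) (.ev (nat_lit 688) (nat_lit 10242) .dd)) (.ch (nat_lit 1) (.ev (nat_lit 688) (nat_lit 8192) (.nd (nat_lit
 1264) (.br (nat_lit 2) (.br (nat_lit 1) (.ch (nat_lit 0) (.ev (nat_lit 1280) (nat_lit 2048) (.ev (nat_lit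
 1293) (nat_lit 2) .dd))) (.ch (nat_lit 1) (.ev (nat_lit 1444) (nat_lit 2048) (.ev (nat_lit 1453) (nat_lit 2)
 .dd)))) (.br (nat_lit 4) (.ch (nat_lit 2) (.nd (nat_lit 5520) (.br (nat_lit 2) (.ch (nat_lit 0) (.nd (nat_lit
 7344) (.br (nat_lit 6) (.ch (nat_lit 4) (.ev (nat_lit 7360) (nat_lit 2050) .dd)) (.ch (nat_lit 6) (.fin
 (nat_lit 576468998633767489)))))) (.ch (nat_lit 2) (.ev (nat_lit 5536) (nat_lit 2) (.ev (nat_lit 5549)
 (nat_lit 2048) .dd)))))) (.br (nat_lit 6) (.ch (nat_lit 4) (.ev (nat_lit 4692) (nat_lit 2) (.ev (nat_lit 4701)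
 (nat_lit 2048) .dd))) (.ch (nat_lit 6) (.ev (nat_lit 1280) (nat_lit 2050) .dd))))))))) (.br (nat_lit 5) (.ch
 (nat_lit 3) (.ev (nat_lit 688) (nat_lit 2) (.nd (nat_lit 1360) (.br (nat_lit 3) (.ch (nat_lit 2) (.nd (nat_lit
 3856) (.br (nat_lit 5) (.br (nat_lit 3) (.ch (nat_lit 2) (.ev (nat_lit 3872) (nat_lit 2048) (.ev (nat_lit
 3885) (nat_lit 8192) .dd))) (.ch (nat_lit 3) (.ev (nat_lit 3908) (nat_lit 2048) (.ev (nat_lit 3917) (nat_lit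
 8192) .dd)))) (.br (nat_lit 6) (.ch (nat_lit 5) (.ev (nat_lit 3908) (nat_lit 2048) (.ev (nat_lit 3917)
 (nat_lit 8192) .dd))) (.ch (nat_lit 6) (.ev (nat_lit 3872) (nat_lit 8192) (.ev (nat_lit 3885) (nat_lit 2048)
 .dd))))))) (.br (nat_lit 5) (.ch (nat_lit 3) (.ev (nat_lit 1940) (nat_lit 8192) (.ev (nat_lit 1949) (nat_lit
 2048) .dd))) (.ch (nat_lit 5) (.ev (nat_lit 1376) (nat_lit 2048) (.ev (nat_lit 1389) (nat_lit 8192)
 .dd)))))))) (.br (nat_lit 6) (.ch (nat_lit 5) (.nd (nat_lit 1312) (.br (nat_lit 4) (.br (nat_lit 2) (.ch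
 (nat_lit 0) (.ev (nat_lit 1328) (nat_lit 8194) (.ev (nat_lit 1341) (nat_lit 2048) .dd))) (.ch (nat_lit 2) (.ev
 (nat_lit 1328) (nat_lit 8192) (.nd (nat_lit 4400) (.br (nat_lit 1) (.ch (nat_lit 0) (.ev (nat_lit 4916)
 (nat_lit 2) (.ev (nat_lit 4925) (nat_lit 2048) .dd))) (.ch (nat_lit 1) (.ev (nat_lit 4452) (nat_lit 2) (.ev
 (nat_lit 4461) (nat_lit 2048) .dd)))))))) (.br (nat_lit 5) (.ch (nat_lit 4) (.nd (nat_lit 2016) (.br (nat_lit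
 4) (.br (nat_lit 3) (.ch (nat_lit 1) (.ev (nat_lit 2032) (nat_lit 8192) (.ev (nat_lit 2052) (nat_lit 2) (.ev
 (nat_lit 2061) (nat_lit 2048) .dd)))) (.ch (nat_lit 3) (.ev (nat_lit 4916) (nat_lit 8192) (.nd (nat_lit 7296)
 (.br (nat_lit 6) (.ch (nat_lit 1) (.ev (nat_lit 7312) (nat_lit 2050) .dd)) (.ch (nat_lit 6) (.nd (nat_lit
 8240) (.ch (nat_lit 2) (.nd (nat_lit 8624) (.br (nat_lit 3) (.ch (nat_lit 0) (.ev (nat_lit 8640) (nat_lit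
 2048) (.ev (nat_lit 8653) (nat_lit 2) .dd))) (.ch (nat_lit 3) (.fin (nat_lit 576338156852822481)))))))))))))
 (.br (nat_lit 6) (.ch (nat_lit 4) (.ev (nat_lit 4916) (nat_lit 8192) (.ev (nat_lit 4928) (nat_lit 2048) (.ev
 (nat_lit 4941) (nat_lit 2) .dd)))) (.ch (nat_lit 6) (.ev (nat_lit 2032) (nat_lit 2050) (.ev (nat_lit 2045)
 (nat_lit 8192) .dd))))))) (.br (nat_lit 6) (.ch (nat_lit 5) (.ev (nat_lit 1328) (nat_lit 2048) (.ev (nat_lit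
 4052) (nat_lit 8192) (.ev (nat_lit 4061) (nat_lit 2) .dd)))) (.ch (nat_lit 6) (.ev (nat_lit 1328) (nat_lit 2)
 (.nd (nat_lit 2176) (.br (nat_lit 2) (.ch (nat_lit 1) (.ev (nat_lit 4576) (nat_lit 8192) (.ev (nat_lit 4589)
 (nat_lit 2048) .dd))) (.br (nat_lit 5) (.ch (nat_lit 2) (.ev (nat_lit 4596) (nat_lit 2048) (.ev (nat_lit 4605)
 (nat_lit 8192) .dd))) (.ch (nat_lit 5) (.ev (nat_lit 2192) (nat_lit 8192) (.ev (nat_lit 2205) (nat_lit 2048)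
 .dd))))))))))))) (.ch (nat_lit 6) (.nd (nat_lit 1264) (.br (nat_lit 4) (.br (nat_lit 2) (.ch (nat_lit 1) (.ev
 (nat_lit 1280) (nat_lit 8192) (.nd (nat_lit 2096) (.br (nat_lit 6) (.ch (nat_lit 5) (.ev (nat_lit 2212)
 (nat_lit 2) (.ev (nat_lit 2221) (nat_lit 2048) .dd))) (.ch (nat_lit 6) (.ev (nat_lit 3648) (nat_lit 2050)
 .dd)))))) (.ch (nat_lit 2) (.nd (nat_lit 2704) (.br (nat_lit 4) (.br (nat_lit 3) (.ch (nat_lit 0) (.ev
 (nat_lit 2720) (nat_lit 2048) (.ev (nat_lit 4176) (nat_lit 8194) .dd))) (.ch (nat_lit 3) (.ev (nat_lit 4692)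
 (nat_lit 2048) (.ev (nat_lit 4836) (nat_lit 2) (.ev (nat_lit 4845) (nat_lit 8192) .dd))))) (.br (nat_lit 6)
 (.ch (nat_lit 4) (.ev (nat_lit 2720) (nat_lit 8194) (.ev (nat_lit 2733) (nat_lit 2048) .dd))) (.ch (nat_lit 6)
 (.ev (nat_lit 2720) (nat_lit 8192) (.ev (nat_lit 2740) (nat_lit 2) (.ev (nat_lit 2749) (nat_lit 2048)
 .dd))))))))) (.br (nat_lit 5) (.ch (nat_lit 4) (.nd (nat_lit 3216) (.br (nat_lit 3) (.ch (nat_lit 2) (.ev
 (nat_lit 3232) (nat_lit 10240) (.ev (nat_lit 3245) (nat_lit 2) .dd))) (.br (nat_lit 4) (.ch (nat_lit 3) (.ev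
 (nat_lit 3232) (nat_lit 2050) (.ev (nat_lit 3245) (nat_lit 8192) .dd))) (.ch (nat_lit 4) (.ev (nat_lit 3252)
 (nat_lit 2) (.ev (nat_lit 4596) (nat_lit 2048) (.ev (nat_lit 4605) (nat_lit 8192) .dd)))))))) (.ch (nat_lit 5)
 (.ev (nat_lit 1280) (nat_lit 8194) (.ev (nat_lit 1293) (nat_lit 2048) .dd)))))))))))))) (.br (nat_lit 5) (.ch
 (nat_lit 3) (.ev (nat_lit 240) (nat_lit 8194) (.nd (nat_lit 896) (.br (nat_lit 5) (.br (nat_lit 3) (.ch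
 (nat_lit 1) (.nd (nat_lit 1856) (.ch (nat_lit 0) (.fin (nat_lit 576487690357654072))))) (.ch (nat_lit 3) (.ev
 (nat_lit 912) (nat_lit 2048) (.ev (nat_lit 925) (nat_lit 64) .dd)))) (.br (nat_lit 6) (.ch (nat_lit 5) (.ev
 (nat_lit 1012) (nat_lit 64) (.ev (nat_lit 1021) (nat_lit 2048) .dd))) (.ch (nat_lit 6) (.ev (nat_lit 1012)
 (nat_lit 64) (.ev (nat_lit 1021) (nat_lit 2048) .dd)))))))) (.br (nat_lit 6) (.ch (nat_lit 5) (.nd (nat_lit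
 640) (.br (nat_lit 3) (.br (nat_lit 1) (.ch (nat_lit 0) (.ev (nat_lit 656) (nat_lit 2112) (.nd (nat_lit 1664)
 (.br (nat_lit 3) (.br (nat_lit 2) (.ch (nat_lit 0) (.ev (nat_lit 1924) (nat_lit 8192) (.ev (nat_lit 1933)
 (nat_lit 2) .dd))) (.ch (nat_lit 2) (.ev (nat_lit 2388) (nat_lit 8192) (.ev (nat_lit 2397) (nat_lit 2) .dd))))
 (.br (nat_lit 5) (.ch (nat_lit 3) (.ev (nat_lit 1680) (nat_lit 2) (.ev (nat_lit 1693) (nat_lit 8192) .dd)))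
 (.ch (nat_lit 5) (.ev (nat_lit 1680) (nat_lit 8194) .dd))))))) (.ch (nat_lit 1) (.ev (nat_lit 656) (nat_lit
 2048) (.nd (nat_lit 1152) (.br (nat_lit 2) (.br (nat_lit 1) (.ch (nat_lit 0) (.ev (nat_lit 1540) (nat_lit 64)
 (.nd (nat_lit 2096) (.br (nat_lit 4) (.br (nat_lit 3) (.ch (nat_lit 1) (.ev (nat_lit 5092) (nat_lit 8192) (.ev
 (nat_lit 5101) (nat_lit 2) .dd))) (.ch (nat_lit 3) (.ev (nat_lit 2132) (nat_lit 8192) (.ev (nat_lit 2141)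
 (nat_lit 2) .dd)))) (.br (nat_lit 6) (.ch (nat_lit 4) (.ev (nat_lit 2868) (nat_lit 2) (.ev (nat_lit 2877)
 (nat_lit 8192) .dd))) (.ch (nat_lit 6) (.ev (nat_lit 2112) (nat_lit 2) (.ev (nat_lit 2125) (nat_lit 8192)
 .dd)))))))) (.ch (nat_lit 1) (.ev (nat_lit 1444) (nat_lit 64) (.nd (nat_lit 2176) (.br (nat_lit 3) (.ch
 (nat_lit 0) (.ev (nat_lit 3284) (nat_lit 2) (.ev (nat_lit 3293) (nat_lit 8192) .dd))) (.br (nat_lit 6) (.ch
 (nat_lit 3) (.ev (nat_lit 3988) (nat_lit 8192) (.ev (nat_lit 3997) (nat_lit 2) .dd))) (.ch (nat_lit 6) (.fin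
 (nat_lit 576443709840114232))))))))) (.br (nat_lit 3) (.ch (nat_lit 2) (.ev (nat_lit 1168) (nat_lit 66) (.ev
 (nat_lit 1181) (nat_lit 8192) .dd))) (.br (nat_lit 5) (.ch (nat_lit 3) (.ev (nat_lit 1168) (nat_lit 8194) (.ev
 (nat_lit 1181) (nat_lit 64) .dd))) (.ch (nat_lit 5) (.ev (nat_lit 1168) (nat_lit 64) (.nd (nat_lit 2464) (.br
 (nat_lit 3) (.ch (nat_lit 1) (.ev (nat_lit 4052) (nat_lit 8192) (.ev (nat_lit 4061) (nat_lit 2) .dd))) (.br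
 (nat_lit 4) (.ch (nat_lit 3) (.ev (nat_lit 3072) (nat_lit 8192) (.ev (nat_lit 3085) (nat_lit 2) .dd))) (.ch
 (nat_lit 4) (.ev (nat_lit 2480) (nat_lit 8192) (.ev (nat_lit 2493) (nat_lit 2) .dd))))))))))))))) (.br
 (nat_lit 5) (.ch (nat_lit 3) (.ev (nat_lit 656) (nat_lit 8192) (.nd (nat_lit 1088) (.br (nat_lit 3) (.br
 (nat_lit 2) (.ch (nat_lit 1) (.ev (nat_lit 1104) (nat_lit 2048) (.nd (nat_lit 2464) (.br (nat_lit 2) (.br
 (nat_lit 1) (.ch (nat_lit 0) (.ev (nat_lit 2480) (nat_lit 2) (.ev (nat_lit 2493) (nat_lit 64) .dd))) (.ch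
 (nat_lit 1) (.ev (nat_lit 2480) (nat_lit 64) (.ev (nat_lit 2493) (nat_lit 2) .dd)))) (.br (nat_lit 6) (.ch
 (nat_lit 2) (.ev (nat_lit 2932) (nat_lit 2) (.ev (nat_lit 2941) (nat_lit 64) .dd))) (.ch (nat_lit 6) (.ev
 (nat_lit 3284) (nat_lit 2) (.ev (nat_lit 3293) (nat_lit 64) .dd)))))))) (.ch (nat_lit 2) (.ev (nat_lit 1104)
 (nat_lit 2048) (.nd (nat_lit 2464) (.br (nat_lit 2) (.br (nat_lit 1) (.ch (nat_lit 0) (.ev (nat_lit 5092)
 (nat_lit 2) (.ev (nat_lit 5101) (nat_lit 64) .dd))) (.ch (nat_lit 1) (.ev (nat_lit 2480) (nat_lit 64) (.ev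
 (nat_lit 2493) (nat_lit 2) .dd)))) (.br (nat_lit 3) (.ch (nat_lit 2) (.ev (nat_lit 5012) (nat_lit 2) (.ev
 (nat_lit 5021) (nat_lit 64) .dd))) (.br (nat_lit 6) (.ch (nat_lit 3) (.ev (nat_lit 2480) (nat_lit 2) (.ev
 (nat_lit 2493) (nat_lit 64) .dd))) (.ch (nat_lit 6) (.ev (nat_lit 2480) (nat_lit 64) (.ev (nat_lit 2493)
 (nat_lit 2) .dd)))))))))) (.br (nat_lit 5) (.ch (nat_lit 3) (.ev (nat_lit 1104) (nat_lit 64) (.ev (nat_lit
 2404) (nat_lit 2048) (.ev (nat_lit 2413) (nat_lit 2) .dd)))) (.br (nat_lit 6) (.ch (nat_lit 5) (.ev (nat_lit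
 1104) (nat_lit 64) (.nd (nat_lit 5360) (.br (nat_lit 3) (.ch (nat_lit 0) (.ev (nat_lit 5376) (nat_lit 2050)
 .dd)) (.br (nat_lit 6) (.ch (nat_lit 3) (.ev (nat_lit 5376) (nat_lit 2050) .dd)) (.ch (nat_lit 6) (.fin
 (nat_lit 576465700096786995)))))))) (.ch (nat_lit 6) (.ev (nat_lit 1104) (nat_lit 2) (.nd (nat_lit 2016) (.br
 (nat_lit 4) (.br (nat_lit 2) (.ch (nat_lit 0) (.ev (nat_lit 4064) (nat_lit 64) (.ev (nat_lit 4077) (nat_lit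
 2048) .dd))) (.ch (nat_lit 2) (.ev (nat_lit 2032) (nat_lit 2112) .dd))) (.br (nat_lit 5) (.ch (nat_lit 4) (.ev
 (nat_lit 2032) (nat_lit 64) (.ev (nat_lit 2045) (nat_lit 2048) .dd))) (.ch (nat_lit 5) (.ev (nat_lit 4112)
 (nat_lit 2048) (.ev (nat_lit 4125) (nat_lit 64) .dd)))))))))))))) (.br (nat_lit 6) (.ch (nat_lit 5) (.ev
 (nat_lit 656) (nat_lit 2) (.nd (nat_lit 1088) (.br (nat_lit 4) (.br (nat_lit 2) (.ch (nat_lit 0) (.ev (nat_lit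
 1104) (nat_lit 2048) (.nd (nat_lit 2704) (.br (nat_lit 5) (.ch (nat_lit 4) (.ev (nat_lit 2720) (nat_lit 64)
 (.ev (nat_lit 2733) (nat_lit 8192) .dd))) (.br (nat_lit 6) (.ch (nat_lit 5) (.ev (nat_lit 2720) (nat_lit 8192)
 (.ev (nat_lit 2733) (nat_lit 64) .dd))) (.ch (nat_lit 6) (.ev (nat_lit 3348) (nat_lit 64) (.ev (nat_lit 3357)
 (nat_lit 8192) .dd)))))))) (.ch (nat_lit 2) (.ev (nat_lit 1104) (nat_lit 8192) (.nd (nat_lit 2896) (.br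
 (nat_lit 4) (.ch (nat_lit 3) (.ev (nat_lit 5092) (nat_lit 64) (.ev (nat_lit 5101) (nat_lit 2048) .dd))) (.br
 (nat_lit 6) (.ch (nat_lit 4) (.ev (nat_lit 4064) (nat_lit 64) (.ev (nat_lit 4077) (nat_lit 2048) .dd))) (.ch
 (nat_lit 6) (.ev (nat_lit 2912) (nat_lit 64) (.ev (nat_lit 2925) (nat_lit 2048) .dd))))))))) (.br (nat_lit 5)
 (.ch (nat_lit 4) (.ev (nat_lit 1188) (nat_lit 8192) (.ev (nat_lit 2388) (nat_lit 2048) (.ev (nat_lit 2397)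
 (nat_lit 64) .dd)))) (.br (nat_lit 6) (.ch (nat_lit 5) (.nd (nat_lit 1968) (.br (nat_lit 3) (.br (nat_lit 1)
 (.ch (nat_lit 0) (.ev (nat_lit 1984) (nat_lit 2048) (.ev (nat_lit 4292) (nat_lit 64) (.ev (nat_lit 4301)
 (nat_lit 8192) .dd)))) (.ch (nat_lit 1) (.ev (nat_lit 1984) (nat_lit 8192) (.ev (nat_lit 2228) (nat_lit 64)
 (.ev (nat_lit 2237) (nat_lit 2048) .dd))))) (.br (nat_lit 4) (.ch (nat_lit 3) (.ev (nat_lit 2052) (nat_lit 64)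
 (.ev (nat_lit 3264) (nat_lit 10240) .dd))) (.ch (nat_lit 4) (.ev (nat_lit 4244) (nat_lit 2048) (.fin (nat_lit
 576432714789896765)))))))) (.ch (nat_lit 6) (.ev (nat_lit 1104) (nat_lit 10304) .dd)))))))) (.ch (nat_lit 6)
 (.ev (nat_lit 656) (nat_lit 8194) (.nd (nat_lit 1152) (.br (nat_lit 3) (.br (nat_lit 2) (.ch (nat_lit 0) (.ev
 (nat_lit 1168) (nat_lit 2048) (.ev (nat_lit 1181) (nat_lit 64) .dd))) (.ch (nat_lit 2) (.ev (nat_lit 1168)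
 (nat_lit 2048) (.ev (nat_lit 1181) (nat_lit 64) .dd)))) (.br (nat_lit 4) (.ch (nat_lit 3) (.ev (nat_lit 1168)
 (nat_lit 64) (.ev (nat_lit 1181) (nat_lit 2048) .dd))) (.br (nat_lit 6) (.ch (nat_lit 4) (.ev (nat_lit 4964)
 (nat_lit 64) (.ev (nat_lit 4973) (nat_lit 2048) .dd))) (.ch (nat_lit 6) (.ev (nat_lit 4052) (nat_lit 2048)
 (.ev (nat_lit 4061) (nat_lit 64) .dd)))))))))))))) (.ch (nat_lit 6) (.ev (nat_lit 240) (nat_lit 10240) (.nd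
 (nat_lit 896) (.br (nat_lit 3) (.br (nat_lit 1) (.ch (nat_lit 0) (.nd (nat_lit 1744) (.br (nat_lit 5) (.br
 (nat_lit 3) (.ch (nat_lit 2) (.ev (nat_lit 1760) (nat_lit 2) (.ev (nat_lit 1773) (nat_lit 64) .dd))) (.ch
 (nat_lit 3) (.nd (nat_lit 3376) (.br (nat_lit 3) (.br (nat_lit 2) (.ch (nat_lit 1) (.ev (nat_lit 3392)
 (nat_lit 64) (.ev (nat_lit 3405) (nat_lit 2) .dd))) (.ch (nat_lit 2) (.ev (nat_lit 3392) (nat_lit 2) (.ev
 (nat_lit 3405) (nat_lit 64) .dd)))) (.br (nat_lit 6) (.ch (nat_lit 3) (.ev (nat_lit 4052) (nat_lit 2) (.ev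
 (nat_lit 4061) (nat_lit 64) .dd))) (.ch (nat_lit 6) (.ev (nat_lit 4052) (nat_lit 2) (.ev (nat_lit 4061)
 (nat_lit 64) .dd)))))))) (.br (nat_lit 6) (.ch (nat_lit 5) (.nd (nat_lit 4400) (.br (nat_lit 5) (.ch (nat_lit
 1) (.ev (nat_lit 4692) (nat_lit 64) (.ev (nat_lit 4701) (nat_lit 2) .dd))) (.ch (nat_lit 5) (.ev (nat_lit
 4596) (nat_lit 64) (.ev (nat_lit 4605) (nat_lit 2) .dd)))))) (.ch (nat_lit 6) (.ev (nat_lit 3920) (nat_lit 66)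
 .dd)))))) (.ch (nat_lit 1) (.nd (nat_lit 1856) (.br (nat_lit 3) (.br (nat_lit 2) (.ch (nat_lit 0) (.ev
 (nat_lit 4964) (nat_lit 64) (.ev (nat_lit 4973) (nat_lit 2) .dd))) (.ch (nat_lit 2) (.ev (nat_lit 1872)
 (nat_lit 2) (.ev (nat_lit 1885) (nat_lit 64) .dd)))) (.br (nat_lit 4) (.ch (nat_lit 3) (.ev (nat_lit 1872)
 (nat_lit 2) (.ev (nat_lit 1885) (nat_lit 64) .dd))) (.br (nat_lit 6) (.ch (nat_lit 4) (.ev (nat_lit 1872)
 (nat_lit 64) (.ev (nat_lit 1885) (nat_lit 2) .dd))) (.ch (nat_lit 6) (.ev (nat_lit 1872) (nat_lit 64) (.ev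
 (nat_lit 1885) (nat_lit 2) .dd))))))))) (.br (nat_lit 4) (.ch (nat_lit 3) (.ev (nat_lit 912) (nat_lit 66)
 .dd)) (.br (nat_lit 5) (.ch (nat_lit 4) (.ev (nat_lit 912) (nat_lit 2) (.ev (nat_lit 925) (nat_lit 64) .dd)))
 (.ch (nat_lit 5) (.nd (nat_lit 1856) (.br (nat_lit 2) (.br (nat_lit 1) (.ch (nat_lit 0) (.ev (nat_lit 1872)
 (nat_lit 2) (.ev (nat_lit 1885) (nat_lit 64) .dd))) (.ch (nat_lit 1) (.ev (nat_lit 4740) (nat_lit 2) (.ev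
 (nat_lit 4749) (nat_lit 64) .dd)))) (.br (nat_lit 3) (.ch (nat_lit 2) (.fin (nat_lit 576475595715068502)))
 (.ch (nat_lit 3) (.ev (nat_lit 1892) (nat_lit 2) (.ev (nat_lit 1901) (nat_lit 64) .dd))))))))))))))))))))))))

/-- Subtrie. -/
noncomputable def T3 : Tr := (.ev (nat_lit 20) (nat_lit 65792) (.nd (nat_lit 32) (.br (nat_lit 3) (.br (nat_lit
 2) (.ch (nat_lit 0) (.ev (nat_lit 48) (nat_lit 137280) (.nd (nat_lit 288) (.br (nat_lit 4) (.br (nat_lit 3)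
 (.ch (nat_lit 2) (.ev (nat_lit 304) (nat_lit 32804) (.nd (nat_lit 896) (.br (nat_lit 4) (.br (nat_lit 3) (.ch
 (nat_lit 1) (.ev (nat_lit 912) (nat_lit 9216) (.ev (nat_lit 925) (nat_lit 2) .dd))) (.ch (nat_lit 3) (.nd
 (nat_lit 1744) (.br (nat_lit 2) (.br (nat_lit 1) (.ch (nat_lit 0) (.ev (nat_lit 1760) (nat_lit 9216) (.ev
 (nat_lit 1773) (nat_lit 2) .dd))) (.ch (nat_lit 1) (.ev (nat_lit 1760) (nat_lit 2) (.ev (nat_lit 1940)
 (nat_lit 1024) (.ev (nat_lit 1949) (nat_lit 8192) .dd))))) (.br (nat_lit 4) (.ch (nat_lit 2) (.ev (nat_lit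
 1760) (nat_lit 2) (.nd (nat_lit 3376) (.br (nat_lit 3) (.ch (nat_lit 1) (.ev (nat_lit 3412) (nat_lit 8192)
 (.ev (nat_lit 3421) (nat_lit 1024) .dd))) (.br (nat_lit 4) (.ch (nat_lit 3) (.ev (nat_lit 4916) (nat_lit 8192)
 (.ev (nat_lit 4925) (nat_lit 1024) .dd))) (.ch (nat_lit 4) (.ev (nat_lit 4100) (nat_lit 8192) (.ev (nat_lit
 4109) (nat_lit 1024) .dd)))))))) (.br (nat_lit 6) (.ch (nat_lit 4) (.ev (nat_lit 1760) (nat_lit 1024) (.ev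
 (nat_lit 5044) (nat_lit 2) (.ev (nat_lit 5053) (nat_lit 8192) .dd)))) (.ch (nat_lit 6) (.ev (nat_lit 1760)
 (nat_lit 8192) (.ev (nat_lit 4964) (nat_lit 1024) (.ev (nat_lit 4973) (nat_lit 2) .dd)))))))))) (.br (nat_lit
 5) (.ch (nat_lit 4) (.ev (nat_lit 912) (nat_lit 1024) (.nd (nat_lit 1856) (.br (nat_lit 4) (.ch (nat_lit 0)
 (.ev (nat_lit 4964) (nat_lit 2) (.ev (nat_lit 4973) (nat_lit 8192) .dd))) (.br (nat_lit 6) (.ch (nat_lit 4)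
 (.fin (nat_lit 576442610359943745))) (.ch (nat_lit 6) (.ev (nat_lit 4692) (nat_lit 2) (.ev (nat_lit 4701)
 (nat_lit 8192) .dd)))))))) (.br (nat_lit 6) (.ch (nat_lit 5) (.ev (nat_lit 912) (nat_lit 8192) (.nd (nat_lit
 1856) (.br (nat_lit 3) (.br (nat_lit 1) (.ch (nat_lit 0) (.ev (nat_lit 4740) (nat_lit 2) (.ev (nat_lit 4749)
 (nat_lit 1024) .dd))) (.ch (nat_lit 1) (.fin (nat_lit 576458003527975489)))) (.br (nat_lit 4) (.ch (nat_lit 3)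
 (.ev (nat_lit 1872) (nat_lit 1024) (.ev (nat_lit 1885) (nat_lit 2) .dd))) (.ch (nat_lit 4) (.ev (nat_lit 1872)
 (nat_lit 2) (.ev (nat_lit 1885) (nat_lit 1024) .dd)))))))) (.ch (nat_lit 6) (.ev (nat_lit 912) (nat_lit 2)
 (.nd (nat_lit 1744) (.br (nat_lit 4) (.br (nat_lit 2) (.ch (nat_lit 0) (.ev (nat_lit 4756) (nat_lit 1024) (.ev
 (nat_lit 4765) (nat_lit 8192) .dd))) (.ch (nat_lit 2) (.ev (nat_lit 1760) (nat_lit 1024) (.ev (nat_lit 1773)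
 (nat_lit 8192) .dd)))) (.br (nat_lit 6) (.ch (nat_lit 4) (.ev (nat_lit 1760) (nat_lit 8192) (.ev (nat_lit
 1773) (nat_lit 1024) .dd))) (.ch (nat_lit 6) (.ev (nat_lit 4916) (nat_lit 1024) (.ev (nat_lit 4925) (nat_lit
 8192) .dd)))))))))))))) (.ch (nat_lit 3) (.ev (nat_lit 304) (nat_lit 2) (.nd (nat_lit 768) (.br (nat_lit 4)
 (.br (nat_lit 1) (.ch (nat_lit 0) (.ev (nat_lit 784) (nat_lit 32800) (.nd (nat_lit 1584) (.br (nat_lit 3) (.br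
 (nat_lit 2) (.ch (nat_lit 1) (.ev (nat_lit 1600) (nat_lit 4) (.nd (nat_lit 3856) (.br (nat_lit 5) (.br
 (nat_lit 4) (.ch (nat_lit 3) (.ev (nat_lit 4564) (nat_lit 8192) (.ev (nat_lit 4573) (nat_lit 1024) .dd))) (.ch
 (nat_lit 4) (.ev (nat_lit 4756) (nat_lit 1024) (.ev (nat_lit 4765) (nat_lit 8192) .dd)))) (.br (nat_lit 6)
 (.ch (nat_lit 5) (.ev (nat_lit 3872) (nat_lit 8192) (.ev (nat_lit 3885) (nat_lit 1024) .dd))) (.ch (nat_lit 6)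
 (.ev (nat_lit 3872) (nat_lit 1024) (.ev (nat_lit 3885) (nat_lit 8192) .dd)))))))) (.ch (nat_lit 2) (.ev
 (nat_lit 1600) (nat_lit 1024) (.ev (nat_lit 1620) (nat_lit 8192) (.ev (nat_lit 1629) (nat_lit 4) .dd))))) (.br
 (nat_lit 4) (.ch (nat_lit 3) (.ev (nat_lit 1600) (nat_lit 8192) (.ev (nat_lit 4644) (nat_lit 4) (.ev (nat_lit
 4653) (nat_lit 1024) .dd)))) (.br (nat_lit 5) (.ch (nat_lit 4) (.ev (nat_lit 5012) (nat_lit 8196) (.ev
 (nat_lit 5021) (nat_lit 1024) .dd))) (.ch (nat_lit 5) (.ev (nat_lit 1600) (nat_lit 1024) (.fin (nat_lit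
 576638323272401318)))))))))) (.ch (nat_lit 1) (.ev (nat_lit 784) (nat_lit 1028) (.nd (nat_lit 1312) (.br
 (nat_lit 2) (.br (nat_lit 1) (.ch (nat_lit 0) (.ev (nat_lit 1328) (nat_lit 32) (.ev (nat_lit 2228) (nat_lit
 32768) (.ev (nat_lit 2237) (nat_lit 8192) .dd)))) (.ch (nat_lit 1) (.ev (nat_lit 1328) (nat_lit 8192) (.ev
 (nat_lit 4692) (nat_lit 32) (.ev (nat_lit 4701) (nat_lit 32768) .dd))))) (.br (nat_lit 3) (.ch (nat_lit 2)
 (.ev (nat_lit 1328) (nat_lit 32768) (.nd (nat_lit 2896) (.br (nat_lit 6) (.ch (nat_lit 1) (.ev (nat_lit 4836)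
 (nat_lit 32) (.ev (nat_lit 4845) (nat_lit 8192) .dd))) (.ch (nat_lit 6) (.ev (nat_lit 3124) (nat_lit 8192)
 (.ev (nat_lit 3133) (nat_lit 32) .dd))))))) (.ch (nat_lit 3) (.ev (nat_lit 1780) (nat_lit 32) (.nd (nat_lit
 2464) (.br (nat_lit 5) (.ch (nat_lit 1) (.ev (nat_lit 3172) (nat_lit 8192) (.ev (nat_lit 3181) (nat_lit 32768)
 .dd))) (.br (nat_lit 6) (.ch (nat_lit 5) (.ev (nat_lit 2480) (nat_lit 8192) (.ev (nat_lit 2493) (nat_lit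
 32768) .dd))) (.ch (nat_lit 6) (.ev (nat_lit 2480) (nat_lit 8192) (.ev (nat_lit 2493) (nat_lit 32768)
 .dd)))))))))))))) (.br (nat_lit 5) (.ch (nat_lit 4) (.ev (nat_lit 784) (nat_lit 32) (.nd (nat_lit 1664) (.br
 (nat_lit 4) (.br (nat_lit 2) (.ch (nat_lit 0) (.ev (nat_lit 1680) (nat_lit 32768) (.ev (nat_lit 4564) (nat_lit
 1024) (.fin (nat_lit 576465700016046748))))) (.ch (nat_lit 2) (.ev (nat_lit 1680) (nat_lit 1024) (.nd (nat_lit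
 3376) (.br (nat_lit 5) (.ch (nat_lit 1) (.ev (nat_lit 3392) (nat_lit 32768) (.ev (nat_lit 3908) (nat_lit 4)
 (.ev (nat_lit 3917) (nat_lit 8192) .dd)))) (.br (nat_lit 6) (.ch (nat_lit 5) (.ev (nat_lit 3392) (nat_lit 4)
 (.ev (nat_lit 4452) (nat_lit 32768) (.ev (nat_lit 4461) (nat_lit 8192) .dd)))) (.ch (nat_lit 6) (.ev (nat_lit
 3792) (nat_lit 32768) (.ev (nat_lit 3908) (nat_lit 4) (.ev (nat_lit 3917) (nat_lit 8192) .dd)))))))))) (.br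
 (nat_lit 5) (.ch (nat_lit 4) (.ev (nat_lit 1680) (nat_lit 8192) (.ev (nat_lit 4964) (nat_lit 4) (.nd (nat_lit
 5824) (.br (nat_lit 1) (.ch (nat_lit 0) (.ev (nat_lit 5840) (nat_lit 1024) (.ev (nat_lit 5853) (nat_lit 32768)
 .dd))) (.ch (nat_lit 1) (.fin (nat_lit 576450306947629633)))))))) (.ch (nat_lit 5) (.ev (nat_lit 1680)
 (nat_lit 8192) (.ev (nat_lit 1700) (nat_lit 4) (.ev (nat_lit 3716) (nat_lit 32768) (.ev (nat_lit 3725)
 (nat_lit 1024) .dd)))))))))) (.br (nat_lit 6) (.ch (nat_lit 5) (.nd (nat_lit 1312) (.br (nat_lit 4) (.br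
 (nat_lit 3) (.ch (nat_lit 2) (.ev (nat_lit 1328) (nat_lit 32804) (.nd (nat_lit 3376) (.br (nat_lit 4) (.ch
 (nat_lit 2) (.fin (nat_lit 576451406450868796))) (.br (nat_lit 5) (.ch (nat_lit 4) (.ev (nat_lit 4644)
 (nat_lit 1024) (.ev (nat_lit 4653) (nat_lit 8192) .dd))) (.ch (nat_lit 5) (.ev (nat_lit 3444) (nat_lit 8192)
 (.ev (nat_lit 3453) (nat_lit 1024) .dd)))))))) (.ch (nat_lit 3) (.ev (nat_lit 1348) (nat_lit 1024) (.ev
 (nat_lit 1396) (nat_lit 4) (.nd (nat_lit 3216) (.br (nat_lit 4) (.br (nat_lit 1) (.ch (nat_lit 0) (.ev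
 (nat_lit 3232) (nat_lit 8192) (.ev (nat_lit 3908) (nat_lit 32768) (.ev (nat_lit 3917) (nat_lit 32) .dd))))
 (.ch (nat_lit 1) (.ev (nat_lit 3232) (nat_lit 8224) (.ev (nat_lit 3245) (nat_lit 32768) .dd)))) (.br (nat_lit
 5) (.ch (nat_lit 4) (.ev (nat_lit 3232) (nat_lit 32800) (.ev (nat_lit 3245) (nat_lit 8192) .dd))) (.br
 (nat_lit 6) (.ch (nat_lit 5) (.ev (nat_lit 3232) (nat_lit 32) (.ev (nat_lit 3908) (nat_lit 32768) (.ev
 (nat_lit 3917) (nat_lit 8192) .dd)))) (.ch (nat_lit 6) (.ev (nat_lit 3232) (nat_lit 8192) (.ev (nat_lit 3908)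
 (nat_lit 32768) (.ev (nat_lit 3917) (nat_lit 32) .dd)))))))))))) (.br (nat_lit 5) (.ch (nat_lit 4) (.nd
 (nat_lit 1968) (.br (nat_lit 4) (.br (nat_lit 2) (.ch (nat_lit 0) (.ev (nat_lit 1984) (nat_lit 4) (.ev
 (nat_lit 2052) (nat_lit 1024) (.ev (nat_lit 2964) (nat_lit 8192) (.ev (nat_lit 5092) (nat_lit 32) (.ev
 (nat_lit 5101) (nat_lit 32768) .dd)))))) (.ch (nat_lit 2) (.ev (nat_lit 1984) (nat_lit 32800) (.ev (nat_lit
 2996) (nat_lit 8192) (.ev (nat_lit 4340) (nat_lit 4) (.ev (nat_lit 4349) (nat_lit 1024) .dd)))))) (.br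
 (nat_lit 5) (.ch (nat_lit 4) (.ev (nat_lit 1984) (nat_lit 9220) (.ev (nat_lit 3988) (nat_lit 32768) (.ev
 (nat_lit 3997) (nat_lit 32) .dd)))) (.ch (nat_lit 5) (.ev (nat_lit 1984) (nat_lit 8196) (.ev (nat_lit 2756)
 (nat_lit 32) (.ev (nat_lit 3172) (nat_lit 1024) (.ev (nat_lit 3181) (nat_lit 32768) .dd))))))))) (.br (nat_lit
 6) (.ch (nat_lit 5) (.ev (nat_lit 1328) (nat_lit 1060) (.nd (nat_lit 2896) (.ch (nat_lit 4) (.ev (nat_lit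
 4564) (nat_lit 32768) (.ev (nat_lit 4573) (nat_lit 8192) .dd)))))) (.ch (nat_lit 6) (.ev (nat_lit 1328)
 (nat_lit 8192) (.ev (nat_lit 2308) (nat_lit 1024) (.ev (nat_lit 3028) (nat_lit 32768) (.ev (nat_lit 4916)
 (nat_lit 4) (.ev (nat_lit 4925) (nat_lit 32) .dd))))))))))) (.ch (nat_lit 6) (.ev (nat_lit 784) (nat_lit 9216)
 (.nd (nat_lit 1856) (.br (nat_lit 4) (.ch (nat_lit 3) (.ev (nat_lit 1892) (nat_lit 4) (.ev (nat_lit 1908)
 (nat_lit 32768) (.ev (nat_lit 1917) (nat_lit 32) .dd)))) (.br (nat_lit 6) (.ch (nat_lit 4) (.ev (nat_lit 1872)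
 (nat_lit 4) (.ev (nat_lit 2308) (nat_lit 32) (.ev (nat_lit 2317) (nat_lit 32768) .dd)))) (.ch (nat_lit 6) (.ev
 (nat_lit 1892) (nat_lit 36) (.ev (nat_lit 1901) (nat_lit 32768) .dd))))))))))))))) (.br (nat_lit 5) (.ch
 (nat_lit 4) (.ev (nat_lit 304) (nat_lit 9248) (.nd (nat_lit 896) (.br (nat_lit 5) (.br (nat_lit 4) (.ch
 (nat_lit 0) (.nd (nat_lit 1856) (.br (nat_lit 3) (.br (nat_lit 2) (.ch (nat_lit 1) (.ev (nat_lit 1872)
 (nat_lit 6) (.ev (nat_lit 1885) (nat_lit 32768) .dd))) (.ch (nat_lit 2) (.ev (nat_lit 1872) (nat_lit 2) (.ev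
 (nat_lit 2260) (nat_lit 4) (.ev (nat_lit 2269) (nat_lit 32768) .dd))))) (.br (nat_lit 4) (.ch (nat_lit 3) (.ev
 (nat_lit 1872) (nat_lit 32772) (.ev (nat_lit 1885) (nat_lit 2) .dd))) (.br (nat_lit 6) (.ch (nat_lit 4) (.ev
 (nat_lit 1872) (nat_lit 32768) (.ev (nat_lit 3988) (nat_lit 2) (.ev (nat_lit 3997) (nat_lit 4) .dd)))) (.ch
 (nat_lit 6) (.ev (nat_lit 1872) (nat_lit 4) (.ev (nat_lit 1924) (nat_lit 32768) (.ev (nat_lit 1933) (nat_lit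
 2) .dd))))))))) (.ch (nat_lit 4) (.nd (nat_lit 1744) (.br (nat_lit 4) (.br (nat_lit 3) (.ch (nat_lit 1) (.ev
 (nat_lit 1760) (nat_lit 4) (.ev (nat_lit 3988) (nat_lit 32768) (.ev (nat_lit 3997) (nat_lit 2) .dd)))) (.ch
 (nat_lit 3) (.ev (nat_lit 4644) (nat_lit 2) (.ev (nat_lit 4964) (nat_lit 32768) (.ev (nat_lit 4973) (nat_lit
 4) .dd))))) (.br (nat_lit 6) (.ch (nat_lit 4) (.ev (nat_lit 1760) (nat_lit 2) (.ev (nat_lit 5076) (nat_lit 4)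
 (.ev (nat_lit 5085) (nat_lit 32768) .dd)))) (.ch (nat_lit 6) (.ev (nat_lit 1760) (nat_lit 32768) (.ev (nat_lit
 4836) (nat_lit 4) (.ev (nat_lit 4845) (nat_lit 2) .dd))))))))) (.br (nat_lit 6) (.ch (nat_lit 5) (.ev (nat_lit
 912) (nat_lit 32770) (.ev (nat_lit 925) (nat_lit 4) .dd))) (.ch (nat_lit 6) (.ev (nat_lit 912) (nat_lit 4)
 (.nd (nat_lit 1856) (.br (nat_lit 4) (.ch (nat_lit 1) (.ev (nat_lit 4784) (nat_lit 32770) .dd)) (.br (nat_lit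
 5) (.ch (nat_lit 4) (.ev (nat_lit 1872) (nat_lit 2) (.ev (nat_lit 1885) (nat_lit 32768) .dd))) (.ch (nat_lit
 5) (.ev (nat_lit 4644) (nat_lit 2) (.ev (nat_lit 4653) (nat_lit 32768) .dd))))))))))))) (.br (nat_lit 6) (.ch
 (nat_lit 5) (.ev (nat_lit 304) (nat_lit 32768) (.nd (nat_lit 704) (.br (nat_lit 2) (.br (nat_lit 1) (.ch
 (nat_lit 0) (.nd (nat_lit 1088) (.br (nat_lit 3) (.br (nat_lit 2) (.ch (nat_lit 1) (.ev (nat_lit 1104)
 (nat_lit 9216) (.nd (nat_lit 1968) (.br (nat_lit 2) (.br (nat_lit 1) (.ch (nat_lit 0) (.ev (nat_lit 1984)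
 (nat_lit 2) (.ev (nat_lit 3188) (nat_lit 32) (.ev (nat_lit 3197) (nat_lit 4) .dd)))) (.ch (nat_lit 1) (.ev
 (nat_lit 1984) (nat_lit 32) (.fin (nat_lit 576439311831351832))))) (.br (nat_lit 3) (.ch (nat_lit 2) (.ev
 (nat_lit 1984) (nat_lit 4) (.ev (nat_lit 3968) (nat_lit 34) .dd))) (.ch (nat_lit 3) (.ev (nat_lit 3316)
 (nat_lit 2) (.ev (nat_lit 5124) (nat_lit 4) (.ev (nat_lit 5133) (nat_lit 32) .dd))))))))) (.ch (nat_lit 2)
 (.ev (nat_lit 1104) (nat_lit 8228) (.ev (nat_lit 4016) (nat_lit 2) (.ev (nat_lit 4029) (nat_lit 1024) .dd)))))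
 (.br (nat_lit 4) (.ch (nat_lit 3) (.ev (nat_lit 1188) (nat_lit 1026) (.ev (nat_lit 1908) (nat_lit 4) (.nd
 (nat_lit 3856) (.br (nat_lit 2) (.br (nat_lit 1) (.ch (nat_lit 0) (.ev (nat_lit 3872) (nat_lit 8192) (.ev
 (nat_lit 3885) (nat_lit 32) .dd))) (.ch (nat_lit 1) (.ev (nat_lit 3872) (nat_lit 32) (.ev (nat_lit 3885)
 (nat_lit 8192) .dd)))) (.br (nat_lit 4) (.ch (nat_lit 2) (.ev (nat_lit 3872) (nat_lit 8192) (.ev (nat_lit
 3885) (nat_lit 32) .dd))) (.br (nat_lit 5) (.ch (nat_lit 4) (.ev (nat_lit 3872) (nat_lit 8192) (.ev (nat_lit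
 3885) (nat_lit 32) .dd))) (.ch (nat_lit 5) (.ev (nat_lit 3872) (nat_lit 8192) (.ev (nat_lit 3885) (nat_lit 32)
 .dd)))))))))) (.br (nat_lit 6) (.ch (nat_lit 4) (.ev (nat_lit 1104) (nat_lit 2) (.ev (nat_lit 1620) (nat_lit
 4) (.ev (nat_lit 1732) (nat_lit 8192) (.nd (nat_lit 2464) (.br (nat_lit 2) (.br (nat_lit 1) (.ch (nat_lit 0)
 (.ev (nat_lit 2996) (nat_lit 1024) (.ev (nat_lit 3005) (nat_lit 32) .dd))) (.ch (nat_lit 1) (.ev (nat_lit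
 2480) (nat_lit 32) (.ev (nat_lit 2493) (nat_lit 1024) .dd)))) (.br (nat_lit 3) (.ch (nat_lit 2) (.ev (nat_lit
 2480) (nat_lit 1056) .dd)) (.br (nat_lit 5) (.ch (nat_lit 3) (.ev (nat_lit 2516) (nat_lit 1024) (.ev (nat_lit
 2525) (nat_lit 32) .dd))) (.ch (nat_lit 5) (.ev (nat_lit 2480) (nat_lit 1024) (.ev (nat_lit 2493) (nat_lit 32)
 .dd))))))))))) (.ch (nat_lit 6) (.ev (nat_lit 1104) (nat_lit 4) (.nd (nat_lit 2016) (.br (nat_lit 2) (.br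
 (nat_lit 1) (.ch (nat_lit 0) (.ev (nat_lit 2032) (nat_lit 34) (.ev (nat_lit 2528) (nat_lit 9216) .dd))) (.ch
 (nat_lit 1) (.ev (nat_lit 2032) (nat_lit 8224) (.ev (nat_lit 2132) (nat_lit 2) (.ev (nat_lit 2141) (nat_lit
 1024) .dd))))) (.br (nat_lit 4) (.ch (nat_lit 2) (.ev (nat_lit 2032) (nat_lit 9248) (.ev (nat_lit 2045)
 (nat_lit 2) .dd))) (.br (nat_lit 5) (.ch (nat_lit 4) (.ev (nat_lit 2884) (nat_lit 2) (.ev (nat_lit 3680)
 (nat_lit 8192) (.ev (nat_lit 4496) (nat_lit 32) (.ev (nat_lit 4509) (nat_lit 1024) .dd))))) (.ch (nat_lit 5)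
 (.ev (nat_lit 2032) (nat_lit 32) (.ev (nat_lit 2132) (nat_lit 1024) (.ev (nat_lit 5076) (nat_lit 8192) (.ev
 (nat_lit 5085) (nat_lit 2) .dd)))))))))))))))) (.ch (nat_lit 1) (.ev (nat_lit 720) (nat_lit 1024) (.ev
 (nat_lit 1044) (nat_lit 4) (.nd (nat_lit 1152) (.br (nat_lit 4) (.br (nat_lit 3) (.ch (nat_lit 2) (.ev
 (nat_lit 1168) (nat_lit 8226) .dd)) (.ch (nat_lit 3) (.nd (nat_lit 2016) (.br (nat_lit 2) (.br (nat_lit 1)
 (.ch (nat_lit 0) (.ev (nat_lit 2032) (nat_lit 8192) (.ev (nat_lit 3364) (nat_lit 2) (.ev (nat_lit 3373)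
 (nat_lit 32) .dd)))) (.ch (nat_lit 1) (.ev (nat_lit 2032) (nat_lit 32) (.ev (nat_lit 2644) (nat_lit 8192) (.ev
 (nat_lit 2653) (nat_lit 2) .dd))))) (.br (nat_lit 3) (.ch (nat_lit 2) (.ev (nat_lit 2032) (nat_lit 34) (.ev
 (nat_lit 2045) (nat_lit 8192) .dd))) (.br (nat_lit 6) (.ch (nat_lit 3) (.ev (nat_lit 2032) (nat_lit 8224) (.ev
 (nat_lit 2045) (nat_lit 2) .dd))) (.ch (nat_lit 6) (.ev (nat_lit 2032) (nat_lit 2) (.ev (nat_lit 4740)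
 (nat_lit 32) (.ev (nat_lit 4749) (nat_lit 8192) .dd)))))))))) (.br (nat_lit 5) (.ch (nat_lit 4) (.ev (nat_lit
 1168) (nat_lit 8224) (.ev (nat_lit 1181) (nat_lit 2) .dd))) (.br (nat_lit 6) (.ch (nat_lit 5) (.ev (nat_lit
 1168) (nat_lit 2) (.ev (nat_lit 2212) (nat_lit 8192) (.ev (nat_lit 2221) (nat_lit 32) .dd)))) (.ch (nat_lit 6)
 (.nd (nat_lit 2016) (.br (nat_lit 5) (.br (nat_lit 4) (.ch (nat_lit 3) (.ev (nat_lit 2032) (nat_lit 2) (.ev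
 (nat_lit 4196) (nat_lit 8192) (.ev (nat_lit 4205) (nat_lit 32) .dd)))) (.ch (nat_lit 4) (.ev (nat_lit 2032)
 (nat_lit 32) (.ev (nat_lit 3284) (nat_lit 2) (.ev (nat_lit 3293) (nat_lit 8192) .dd))))) (.br (nat_lit 6) (.ch
 (nat_lit 5) (.ev (nat_lit 2032) (nat_lit 8192) (.ev (nat_lit 4308) (nat_lit 2) (.ev (nat_lit 4317) (nat_lit
 32) .dd)))) (.ch (nat_lit 6) (.ev (nat_lit 4128) (nat_lit 32) (.fin (nat_lit
 576476695181607495)))))))))))))))) (.br (nat_lit 5) (.ch (nat_lit 2) (.ev (nat_lit 720) (nat_lit 6) (.nd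
 (nat_lit 1664) (.br (nat_lit 4) (.br (nat_lit 3) (.ch (nat_lit 2) (.ev (nat_lit 1680) (nat_lit 1024) (.nd
 (nat_lit 4400) (.br (nat_lit 2) (.ch (nat_lit 0) (.ev (nat_lit 4416) (nat_lit 8192) (.ev (nat_lit 4429)
 (nat_lit 32) .dd))) (.br (nat_lit 4) (.ch (nat_lit 2) (.ev (nat_lit 4416) (nat_lit 32) (.ev (nat_lit 4429)
 (nat_lit 8192) .dd))) (.ch (nat_lit 4) (.ev (nat_lit 4416) (nat_lit 32) (.ev (nat_lit 4429) (nat_lit 8192)
 .dd)))))))) (.ch (nat_lit 3) (.ev (nat_lit 1680) (nat_lit 1024) (.ev (nat_lit 3700) (nat_lit 8192) (.ev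
 (nat_lit 3709) (nat_lit 32) .dd))))) (.br (nat_lit 5) (.ch (nat_lit 4) (.ev (nat_lit 1680) (nat_lit 32) (.ev
 (nat_lit 1780) (nat_lit 1024) (.ev (nat_lit 1789) (nat_lit 8192) .dd)))) (.ch (nat_lit 5) (.ev (nat_lit 4388)
 (nat_lit 8192) (.nd (nat_lit 5520) (.br (nat_lit 6) (.ch (nat_lit 1) (.ev (nat_lit 5536) (nat_lit 1024) (.ev
 (nat_lit 5549) (nat_lit 32) .dd))) (.ch (nat_lit 6) (.fin (nat_lit 576461302072296007)))))))))))) (.br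
 (nat_lit 6) (.ch (nat_lit 5) (.ev (nat_lit 720) (nat_lit 9216) (.ev (nat_lit 932) (nat_lit 4) (.nd (nat_lit
 1856) (.br (nat_lit 3) (.br (nat_lit 1) (.ch (nat_lit 0) (.ev (nat_lit 1872) (nat_lit 34) .dd)) (.ch (nat_lit
 1) (.ev (nat_lit 1872) (nat_lit 34) .dd))) (.br (nat_lit 5) (.ch (nat_lit 3) (.ev (nat_lit 2356) (nat_lit 32)
 (.ev (nat_lit 2365) (nat_lit 2) .dd))) (.br (nat_lit 6) (.ch (nat_lit 5) (.ev (nat_lit 1892) (nat_lit 2) (.ev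
 (nat_lit 1901) (nat_lit 32) .dd))) (.ch (nat_lit 6) (.ev (nat_lit 1908) (nat_lit 32) (.ev (nat_lit 1917)
 (nat_lit 2) .dd)))))))))) (.ch (nat_lit 6) (.ev (nat_lit 720) (nat_lit 38) (.nd (nat_lit 1584) (.br (nat_lit
 4) (.br (nat_lit 3) (.ch (nat_lit 0) (.ev (nat_lit 1600) (nat_lit 1024) (.ev (nat_lit 1613) (nat_lit 8192)
 .dd))) (.ch (nat_lit 3) (.ev (nat_lit 1600) (nat_lit 8192) (.ev (nat_lit 1613) (nat_lit 1024) .dd)))) (.br
 (nat_lit 5) (.ch (nat_lit 4) (.ev (nat_lit 1600) (nat_lit 1024) (.ev (nat_lit 1613) (nat_lit 8192) .dd))) (.br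
 (nat_lit 6) (.ch (nat_lit 5) (.ev (nat_lit 1812) (nat_lit 8192) (.ev (nat_lit 1821) (nat_lit 1024) .dd))) (.ch
 (nat_lit 6) (.ev (nat_lit 4848) (nat_lit 8192) (.ev (nat_lit 4861) (nat_lit 1024) .dd))))))))))))))) (.ch
 (nat_lit 6) (.ev (nat_lit 304) (nat_lit 1026) (.nd (nat_lit 832) (.br (nat_lit 4) (.br (nat_lit 2) (.ch
 (nat_lit 0) (.ev (nat_lit 848) (nat_lit 8192) (.nd (nat_lit 1584) (.br (nat_lit 3) (.br (nat_lit 1) (.ch
 (nat_lit 0) (.ev (nat_lit 1600) (nat_lit 32768) (.ev (nat_lit 1892) (nat_lit 32) (.ev (nat_lit 1901) (nat_lit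
 4) .dd)))) (.ch (nat_lit 1) (.ev (nat_lit 1600) (nat_lit 32800) (.ev (nat_lit 1613) (nat_lit 4) .dd)))) (.br
 (nat_lit 5) (.ch (nat_lit 3) (.nd (nat_lit 5360) (.br (nat_lit 1) (.ch (nat_lit 0) (.ev (nat_lit 5376)
 (nat_lit 32) (.fin (nat_lit 576487690460414590)))) (.ch (nat_lit 1) (.nd (nat_lit 6848) (.br (nat_lit 1) (.ch
 (nat_lit 0) (.ev (nat_lit 6864) (nat_lit 4) (.fin (nat_lit 576905504899941015)))) (.ch (nat_lit 1) (.ev
 (nat_lit 6864) (nat_lit 32768) (.fin (nat_lit 576492088427233870)))))))))) (.br (nat_lit 6) (.ch (nat_lit 5)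
 (.ev (nat_lit 4692) (nat_lit 4) (.ev (nat_lit 4836) (nat_lit 32768) (.ev (nat_lit 4845) (nat_lit 32) .dd))))
 (.ch (nat_lit 6) (.ev (nat_lit 1600) (nat_lit 4) (.ev (nat_lit 1620) (nat_lit 32768) (.ev (nat_lit 1629)
 (nat_lit 32) .dd)))))))))) (.ch (nat_lit 2) (.ev (nat_lit 848) (nat_lit 32) (.nd (nat_lit 1584) (.br (nat_lit
 4) (.br (nat_lit 2) (.ch (nat_lit 1) (.ev (nat_lit 1636) (nat_lit 32768) (.nd (nat_lit 3376) (.br (nat_lit 2)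
 (.br (nat_lit 1) (.ch (nat_lit 0) (.ev (nat_lit 3392) (nat_lit 4) (.ev (nat_lit 3405) (nat_lit 8192) .dd)))
 (.ch (nat_lit 1) (.nd (nat_lit 6112) (.br (nat_lit 6) (.ch (nat_lit 1) (.fin (nat_lit 576499784981365319)))
 (.ch (nat_lit 6) (.ev (nat_lit 6212) (nat_lit 4) (.ev (nat_lit 6221) (nat_lit 8192) .dd))))))) (.br (nat_lit
 5) (.ch (nat_lit 2) (.ev (nat_lit 3392) (nat_lit 8192) (.ev (nat_lit 3405) (nat_lit 4) .dd))) (.ch (nat_lit 5)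
 (.ev (nat_lit 3392) (nat_lit 4) (.ev (nat_lit 3405) (nat_lit 8192) .dd)))))))) (.ch (nat_lit 2) (.ev (nat_lit
 1600) (nat_lit 32772) (.ev (nat_lit 1613) (nat_lit 8192) .dd)))) (.br (nat_lit 5) (.ch (nat_lit 4) (.ev
 (nat_lit 1600) (nat_lit 8196) (.ev (nat_lit 1613) (nat_lit 32768) .dd))) (.br (nat_lit 6) (.ch (nat_lit 5)
 (.ev (nat_lit 1600) (nat_lit 8192) (.ev (nat_lit 4916) (nat_lit 32768) (.ev (nat_lit 4925) (nat_lit 4) .dd))))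
 (.ch (nat_lit 6) (.ev (nat_lit 4964) (nat_lit 4) (.nd (nat_lit 5616) (.br (nat_lit 6) (.ch (nat_lit 0) (.nd
 (nat_lit 6816) (.br (nat_lit 6) (.ch (nat_lit 3) (.fin (nat_lit 576432715120197855))) (.ch (nat_lit 6) (.fin
 (nat_lit 576487690366042666)))))) (.ch (nat_lit 6) (.ev (nat_lit 5632) (nat_lit 40960) .dd))))))))))))) (.br
 (nat_lit 5) (.ch (nat_lit 4) (.ev (nat_lit 848) (nat_lit 32768) (.nd (nat_lit 1408) (.br (nat_lit 5) (.br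
 (nat_lit 4) (.ch (nat_lit 3) (.nd (nat_lit 3376) (.br (nat_lit 4) (.br (nat_lit 2) (.ch (nat_lit 0) (.ev
 (nat_lit 3392) (nat_lit 4) (.fin (nat_lit 576465700154458570)))) (.ch (nat_lit 2) (.ev (nat_lit 3392) (nat_lit
 32) (.ev (nat_lit 4644) (nat_lit 4) (.ev (nat_lit 4653) (nat_lit 8192) .dd))))) (.br (nat_lit 5) (.ch (nat_lit
 4) (.ev (nat_lit 3392) (nat_lit 4) (.ev (nat_lit 4644) (nat_lit 8192) (.ev (nat_lit 4653) (nat_lit 32) .dd))))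
 (.ch (nat_lit 5) (.ev (nat_lit 3392) (nat_lit 8192) (.fin (nat_lit 576476695732109895)))))))) (.ch (nat_lit 4)
 (.ev (nat_lit 1424) (nat_lit 4) (.ev (nat_lit 1540) (nat_lit 8192) (.ev (nat_lit 1549) (nat_lit 32) .dd)))))
 (.br (nat_lit 6) (.ch (nat_lit 5) (.ev (nat_lit 1424) (nat_lit 8224) (.ev (nat_lit 1437) (nat_lit 4) .dd)))
 (.ch (nat_lit 6) (.ev (nat_lit 1424) (nat_lit 8192) (.ev (nat_lit 4768) (nat_lit 32) (.ev (nat_lit 4781)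
 (nat_lit 4) .dd))))))))) (.br (nat_lit 6) (.ch (nat_lit 5) (.ev (nat_lit 848) (nat_lit 32804) (.ev (nat_lit
 861) (nat_lit 8192) .dd))) (.ch (nat_lit 6) (.ev (nat_lit 848) (nat_lit 8192) (.nd (nat_lit 1744) (.br
 (nat_lit 4) (.br (nat_lit 2) (.ch (nat_lit 1) (.ev (nat_lit 1780) (nat_lit 4) (.ev (nat_lit 1892) (nat_lit 32)
 (.ev (nat_lit 1901) (nat_lit 32768) .dd)))) (.ch (nat_lit 2) (.ev (nat_lit 1760) (nat_lit 32768) (.ev (nat_lit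
 1908) (nat_lit 32) (.ev (nat_lit 1917) (nat_lit 4) .dd))))) (.br (nat_lit 5) (.ch (nat_lit 4) (.ev (nat_lit
 1760) (nat_lit 32800) (.ev (nat_lit 1773) (nat_lit 4) .dd))) (.br (nat_lit 6) (.ch (nat_lit 5) (.ev (nat_lit
 1760) (nat_lit 36) (.ev (nat_lit 1773) (nat_lit 32768) .dd))) (.ch (nat_lit 6) (.ev (nat_lit 4244) (nat_lit 4)
 (.fin (nat_lit 576458003520635457)))))))))))))))))))))) (.ch (nat_lit 2) (.ev (nat_lit 48) (nat_lit 134144)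
 (.nd (nat_lit 128) (.br (nat_lit 3) (.br (nat_lit 2) (.ch (nat_lit 0) (.ev (nat_lit 144) (nat_lit 2) (.nd
 (nat_lit 736) (.br (nat_lit 3) (.br (nat_lit 1) (.ch (nat_lit 0) (.ev (nat_lit 752) (nat_lit 64) (.nd (nat_lit
 1664) (.br (nat_lit 4) (.br (nat_lit 1) (.ch (nat_lit 0) (.ev (nat_lit 1680) (nat_lit 4100) (.nd (nat_lit
 3216) (.br (nat_lit 5) (.br (nat_lit 2) (.ch (nat_lit 1) (.ev (nat_lit 3232) (nat_lit 32768) (.ev (nat_lit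
 3284) (nat_lit 32) (.ev (nat_lit 3293) (nat_lit 8192) .dd)))) (.ch (nat_lit 2) (.ev (nat_lit 3232) (nat_lit
 8224) (.ev (nat_lit 3245) (nat_lit 32768) .dd)))) (.br (nat_lit 6) (.ch (nat_lit 5) (.ev (nat_lit 3252)
 (nat_lit 32768) (.ev (nat_lit 4064) (nat_lit 32) (.ev (nat_lit 4077) (nat_lit 8192) .dd)))) (.ch (nat_lit 6)
 (.ev (nat_lit 3232) (nat_lit 32) (.ev (nat_lit 4836) (nat_lit 32768) (.ev (nat_lit 4845) (nat_lit 8192)
 .dd))))))))) (.ch (nat_lit 1) (.ev (nat_lit 1680) (nat_lit 32) (.ev (nat_lit 1956) (nat_lit 8192) (.ev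
 (nat_lit 3444) (nat_lit 32768) (.ev (nat_lit 4880) (nat_lit 4) (.ev (nat_lit 4893) (nat_lit 4096) .dd)))))))
 (.br (nat_lit 5) (.ch (nat_lit 4) (.ev (nat_lit 1680) (nat_lit 8196) (.ev (nat_lit 4016) (nat_lit 32768) (.ev
 (nat_lit 4916) (nat_lit 4096) (.ev (nat_lit 4925) (nat_lit 32) .dd))))) (.br (nat_lit 6) (.ch (nat_lit 5) (.ev
 (nat_lit 1680) (nat_lit 32800) (.ev (nat_lit 4692) (nat_lit 4) (.ev (nat_lit 5012) (nat_lit 4096) (.ev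
 (nat_lit 5021) (nat_lit 8192) .dd))))) (.ch (nat_lit 6) (.ev (nat_lit 1680) (nat_lit 8192) (.nd (nat_lit 3216)
 (.br (nat_lit 2) (.ch (nat_lit 0) (.ev (nat_lit 3232) (nat_lit 36) (.fin (nat_lit 576501983981552294)))) (.br
 (nat_lit 5) (.ch (nat_lit 2) (.nd (nat_lit 6320) (.ch (nat_lit 0) (.nd (nat_lit 7616) (.br (nat_lit 4) (.ch
 (nat_lit 2) (.ev (nat_lit 7632) (nat_lit 4100) (.fin (nat_lit 576467899160937022)))) (.ch (nat_lit 4) (.ev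
 (nat_lit 7632) (nat_lit 32800) (.fin (nat_lit 576475595708777015))))))))) (.ch (nat_lit 5) (.ev (nat_lit 3252)
 (nat_lit 32768) (.ev (nat_lit 3412) (nat_lit 4) (.nd (nat_lit 6096) (.ch (nat_lit 4) (.fin (nat_lit
 576484391799702108)))))))))))))))))) (.ch (nat_lit 1) (.ev (nat_lit 752) (nat_lit 40992) (.nd (nat_lit 1856)
 (.br (nat_lit 5) (.br (nat_lit 3) (.ch (nat_lit 2) (.ev (nat_lit 1872) (nat_lit 4160) (.ev (nat_lit 1885)
 (nat_lit 4) .dd))) (.ch (nat_lit 3) (.ev (nat_lit 4720) (nat_lit 64) (.ev (nat_lit 5012) (nat_lit 4) (.ev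
 (nat_lit 5021) (nat_lit 4096) .dd))))) (.br (nat_lit 6) (.ch (nat_lit 5) (.ev (nat_lit 1872) (nat_lit 4096)
 (.ev (nat_lit 4464) (nat_lit 4) (.ev (nat_lit 4477) (nat_lit 64) .dd)))) (.ch (nat_lit 6) (.ev (nat_lit 5012)
 (nat_lit 68) (.ev (nat_lit 5021) (nat_lit 4096) .dd))))))))) (.br (nat_lit 4) (.ch (nat_lit 3) (.ev (nat_lit
 752) (nat_lit 40960) (.nd (nat_lit 1744) (.br (nat_lit 4) (.br (nat_lit 2) (.ch (nat_lit 1) (.ev (nat_lit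
 1760) (nat_lit 4160) (.ev (nat_lit 1908) (nat_lit 4) (.ev (nat_lit 1917) (nat_lit 32) .dd)))) (.ch (nat_lit 2)
 (.ev (nat_lit 4848) (nat_lit 4) (.nd (nat_lit 5584) (.br (nat_lit 5) (.ch (nat_lit 2) (.nd (nat_lit 6448) (.ch
 (nat_lit 3) (.nd (nat_lit 8144) (.br (nat_lit 2) (.ch (nat_lit 0) (.ev (nat_lit 8160) (nat_lit 64) (.fin
 (nat_lit 576528372279493278)))) (.ch (nat_lit 2) (.ev (nat_lit 8160) (nat_lit 32) (.fin (nat_lit
 576476695207821874))))))))) (.ch (nat_lit 5) (.ev (nat_lit 5600) (nat_lit 4096) (.fin (nat_lit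
 576545964476023430))))))))) (.br (nat_lit 5) (.ch (nat_lit 4) (.ev (nat_lit 1760) (nat_lit 4) (.ev (nat_lit
 1780) (nat_lit 32) (.ev (nat_lit 4916) (nat_lit 64) (.ev (nat_lit 4925) (nat_lit 4096) .dd))))) (.br (nat_lit
 6) (.ch (nat_lit 5) (.ev (nat_lit 1760) (nat_lit 32) (.ev (nat_lit 1780) (nat_lit 4) (.ev (nat_lit 4064)
 (nat_lit 64) (.ev (nat_lit 4077) (nat_lit 4096) .dd))))) (.ch (nat_lit 6) (.ev (nat_lit 1760) (nat_lit 4128)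
 (.ev (nat_lit 3476) (nat_lit 64) (.ev (nat_lit 3485) (nat_lit 4) .dd)))))))))) (.br (nat_lit 6) (.ch (nat_lit
 4) (.ev (nat_lit 752) (nat_lit 4096) (.nd (nat_lit 1472) (.br (nat_lit 4) (.br (nat_lit 2) (.ch (nat_lit 1)
 (.ev (nat_lit 1488) (nat_lit 8192) (.ev (nat_lit 1700) (nat_lit 4) (.ev (nat_lit 4992) (nat_lit 32) (.fin
 (nat_lit 576462401573438018)))))) (.ch (nat_lit 2) (.ev (nat_lit 1488) (nat_lit 32768) (.ev (nat_lit 1700)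
 (nat_lit 32) (.ev (nat_lit 1780) (nat_lit 8192) (.ev (nat_lit 4964) (nat_lit 4) (.ev (nat_lit 4973) (nat_lit
 64) .dd))))))) (.br (nat_lit 5) (.ch (nat_lit 4) (.ev (nat_lit 1488) (nat_lit 32772) (.ev (nat_lit 4768)
 (nat_lit 8192) (.ev (nat_lit 5076) (nat_lit 64) (.ev (nat_lit 5085) (nat_lit 32) .dd))))) (.br (nat_lit 6)
 (.ch (nat_lit 5) (.ev (nat_lit 1488) (nat_lit 68) (.ev (nat_lit 4964) (nat_lit 8192) (.ev (nat_lit 5012)
 (nat_lit 32768) (.ev (nat_lit 5021) (nat_lit 32) .dd))))) (.ch (nat_lit 6) (.ev (nat_lit 1488) (nat_lit 8288)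
 (.ev (nat_lit 5044) (nat_lit 4) (.ev (nat_lit 5053) (nat_lit 32768) .dd)))))))))) (.ch (nat_lit 6) (.ev
 (nat_lit 752) (nat_lit 4164) (.nd (nat_lit 1664) (.br (nat_lit 3) (.br (nat_lit 2) (.ch (nat_lit 1) (.ev
 (nat_lit 1680) (nat_lit 8192) (.nd (nat_lit 3856) (.br (nat_lit 3) (.br (nat_lit 2) (.ch (nat_lit 0) (.ev
 (nat_lit 4964) (nat_lit 32) (.ev (nat_lit 4973) (nat_lit 32768) .dd))) (.ch (nat_lit 2) (.ev (nat_lit 3872)
 (nat_lit 32) (.ev (nat_lit 3885) (nat_lit 32768) .dd)))) (.br (nat_lit 5) (.ch (nat_lit 3) (.ev (nat_lit 3872)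
 (nat_lit 32) (.ev (nat_lit 3885) (nat_lit 32768) .dd))) (.ch (nat_lit 5) (.ev (nat_lit 3872) (nat_lit 32768)
 (.ev (nat_lit 3885) (nat_lit 32) .dd)))))))) (.ch (nat_lit 2) (.ev (nat_lit 1680) (nat_lit 32768) (.ev
 (nat_lit 4916) (nat_lit 32) (.ev (nat_lit 4925) (nat_lit 8192) .dd))))) (.br (nat_lit 4) (.ch (nat_lit 3) (.ev
 (nat_lit 1680) (nat_lit 32) (.ev (nat_lit 4740) (nat_lit 8192) (.ev (nat_lit 4749) (nat_lit 32768) .dd))))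
 (.br (nat_lit 5) (.ch (nat_lit 4) (.ev (nat_lit 1680) (nat_lit 8192) (.nd (nat_lit 3376) (.br (nat_lit 3) (.br
 (nat_lit 2) (.ch (nat_lit 0) (.ev (nat_lit 3392) (nat_lit 32768) (.ev (nat_lit 3405) (nat_lit 32) .dd))) (.ch
 (nat_lit 2) (.ev (nat_lit 4164) (nat_lit 32) (.ev (nat_lit 4173) (nat_lit 32768) .dd)))) (.br (nat_lit 6) (.ch
 (nat_lit 3) (.ev (nat_lit 4464) (nat_lit 32768) (.ev (nat_lit 4477) (nat_lit 32) .dd))) (.ch (nat_lit 6) (.ev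
 (nat_lit 3412) (nat_lit 32) (.ev (nat_lit 3421) (nat_lit 32768) .dd)))))))) (.ch (nat_lit 5) (.ev (nat_lit
 1680) (nat_lit 32768) (.nd (nat_lit 3376) (.br (nat_lit 1) (.ch (nat_lit 0) (.fin (nat_lit
 576453605461541447))) (.ch (nat_lit 1) (.ev (nat_lit 4704) (nat_lit 8224) .dd)))))))))))))))))) (.ch (nat_lit
 2) (.ev (nat_lit 144) (nat_lit 8258) (.nd (nat_lit 640) (.br (nat_lit 2) (.br (nat_lit 1) (.ch (nat_lit 0)
 (.ev (nat_lit 656) (nat_lit 32768) (.nd (nat_lit 1216) (.br (nat_lit 5) (.br (nat_lit 4) (.ch (nat_lit 0) (.ev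
 (nat_lit 4916) (nat_lit 4096) (.ev (nat_lit 5124) (nat_lit 4) (.ev (nat_lit 5133) (nat_lit 32) .dd)))) (.ch
 (nat_lit 4) (.ev (nat_lit 1508) (nat_lit 4096) (.nd (nat_lit 2096) (.br (nat_lit 3) (.ch (nat_lit 2) (.ev
 (nat_lit 4196) (nat_lit 32) (.ev (nat_lit 4205) (nat_lit 4) .dd))) (.br (nat_lit 5) (.ch (nat_lit 3) (.ev
 (nat_lit 3264) (nat_lit 4) (.ev (nat_lit 3277) (nat_lit 32) .dd))) (.ch (nat_lit 5) (.ev (nat_lit 2260)
 (nat_lit 4) (.ev (nat_lit 2269) (nat_lit 32) .dd))))))))) (.br (nat_lit 6) (.ch (nat_lit 5) (.ev (nat_lit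
 1232) (nat_lit 4096) (.nd (nat_lit 2096) (.br (nat_lit 4) (.ch (nat_lit 3) (.ev (nat_lit 2356) (nat_lit 32)
 (.ev (nat_lit 2365) (nat_lit 4) .dd))) (.ch (nat_lit 4) (.ev (nat_lit 2356) (nat_lit 32) (.ev (nat_lit 2365)
 (nat_lit 4) .dd))))))) (.ch (nat_lit 6) (.ev (nat_lit 1232) (nat_lit 4) (.ev (nat_lit 3920) (nat_lit 4128)
 .dd)))))))) (.ch (nat_lit 1) (.ev (nat_lit 656) (nat_lit 4100) (.fin (nat_lit 576487690322002488))))) (.br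
 (nat_lit 3) (.ch (nat_lit 2) (.nd (nat_lit 1312) (.br (nat_lit 2) (.br (nat_lit 1) (.ch (nat_lit 0) (.ev
 (nat_lit 1328) (nat_lit 4100) (.ev (nat_lit 1348) (nat_lit 32) (.ev (nat_lit 1357) (nat_lit 32768) .dd))))
 (.ch (nat_lit 1) (.ev (nat_lit 1328) (nat_lit 32) (.ev (nat_lit 1552) (nat_lit 32768) (.ev (nat_lit 4164)
 (nat_lit 4) (.ev (nat_lit 4173) (nat_lit 4096) .dd)))))) (.br (nat_lit 3) (.ch (nat_lit 2) (.ev (nat_lit 1328)
 (nat_lit 4096) (.ev (nat_lit 4596) (nat_lit 32768) (.fin (nat_lit 576445908887487033))))) (.br (nat_lit 4)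
 (.ch (nat_lit 3) (.ev (nat_lit 1328) (nat_lit 4) (.nd (nat_lit 3216) (.br (nat_lit 5) (.ch (nat_lit 0) (.ev
 (nat_lit 3232) (nat_lit 4096) (.ev (nat_lit 4244) (nat_lit 32768) (.ev (nat_lit 4253) (nat_lit 32) .dd))))
 (.br (nat_lit 6) (.ch (nat_lit 5) (.ev (nat_lit 4244) (nat_lit 32) (.fin (nat_lit 576478894278263343)))) (.ch
 (nat_lit 6) (.ev (nat_lit 3232) (nat_lit 32) (.ev (nat_lit 3348) (nat_lit 32768) (.ev (nat_lit 3357) (nat_lit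
 4096) .dd))))))))) (.ch (nat_lit 4) (.ev (nat_lit 1328) (nat_lit 32800) (.ev (nat_lit 2388) (nat_lit 4096)
 (.ev (nat_lit 2397) (nat_lit 4) .dd))))))))) (.br (nat_lit 6) (.ch (nat_lit 3) (.ev (nat_lit 656) (nat_lit 4)
 (.nd (nat_lit 1360) (.br (nat_lit 4) (.br (nat_lit 2) (.ch (nat_lit 0) (.nd (nat_lit 2016) (.br (nat_lit 4)
 (.ch (nat_lit 2) (.ev (nat_lit 2032) (nat_lit 32768) (.ev (nat_lit 2052) (nat_lit 32) (.ev (nat_lit 2061)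
 (nat_lit 4096) .dd)))) (.br (nat_lit 5) (.ch (nat_lit 4) (.ev (nat_lit 2032) (nat_lit 4096) (.ev (nat_lit
 2404) (nat_lit 32768) (.ev (nat_lit 2413) (nat_lit 32) .dd)))) (.ch (nat_lit 5) (.ev (nat_lit 2032) (nat_lit
 32) (.ev (nat_lit 2260) (nat_lit 4096) (.ev (nat_lit 2269) (nat_lit 32768) .dd)))))))) (.ch (nat_lit 2) (.ev
 (nat_lit 1376) (nat_lit 32768) (.nd (nat_lit 2896) (.br (nat_lit 4) (.ch (nat_lit 0) (.ev (nat_lit 5044)
 (nat_lit 4096) (.ev (nat_lit 5053) (nat_lit 32) .dd))) (.br (nat_lit 6) (.ch (nat_lit 4) (.ev (nat_lit 4672)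
 (nat_lit 4128) .dd)) (.ch (nat_lit 6) (.ev (nat_lit 3476) (nat_lit 32) (.ev (nat_lit 3485) (nat_lit 4096)
 .dd))))))))) (.br (nat_lit 5) (.ch (nat_lit 4) (.nd (nat_lit 2176) (.br (nat_lit 3) (.ch (nat_lit 1) (.ev
 (nat_lit 3444) (nat_lit 32) (.ev (nat_lit 4704) (nat_lit 36864) .dd))) (.ch (nat_lit 3) (.ev (nat_lit 4784)
 (nat_lit 32) (.fin (nat_lit 576471197650731616))))))) (.ch (nat_lit 5) (.ev (nat_lit 1376) (nat_lit 4096) (.nd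
 (nat_lit 2464) (.br (nat_lit 4) (.ch (nat_lit 0) (.ev (nat_lit 3412) (nat_lit 32768) (.ev (nat_lit 3421)
 (nat_lit 32) .dd))) (.br (nat_lit 5) (.ch (nat_lit 4) (.ev (nat_lit 3444) (nat_lit 32768) (.ev (nat_lit 3453)
 (nat_lit 32) .dd))) (.ch (nat_lit 5) (.ev (nat_lit 3540) (nat_lit 32) (.ev (nat_lit 3549) (nat_lit 32768)
 .dd))))))))))))) (.ch (nat_lit 6) (.ev (nat_lit 656) (nat_lit 4128) (.nd (nat_lit 1856) (.br (nat_lit 5) (.ch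
 (nat_lit 3) (.ev (nat_lit 3988) (nat_lit 32768) (.ev (nat_lit 3997) (nat_lit 4) .dd))) (.br (nat_lit 6) (.ch
 (nat_lit 5) (.ev (nat_lit 5012) (nat_lit 4) (.ev (nat_lit 5021) (nat_lit 32768) .dd))) (.ch (nat_lit 6) (.ev
 (nat_lit 1892) (nat_lit 4) (.ev (nat_lit 1901) (nat_lit 32768) .dd))))))))))))))) (.br (nat_lit 4) (.ch
 (nat_lit 3) (.ev (nat_lit 144) (nat_lit 4164) (.nd (nat_lit 496) (.br (nat_lit 4) (.br (nat_lit 2) (.ch
 (nat_lit 1) (.ev (nat_lit 512) (nat_lit 32770) (.ev (nat_lit 868) (nat_lit 8192) (.ev (nat_lit 877) (nat_lit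
 32) .dd)))) (.ch (nat_lit 2) (.nd (nat_lit 1312) (.br (nat_lit 4) (.br (nat_lit 1) (.ch (nat_lit 0) (.ev
 (nat_lit 1328) (nat_lit 40960) (.nd (nat_lit 2704) (.br (nat_lit 5) (.ch (nat_lit 2) (.ev (nat_lit 4976)
 (nat_lit 34) .dd)) (.br (nat_lit 6) (.ch (nat_lit 5) (.fin (nat_lit 576638323272401787))) (.ch (nat_lit 6)
 (.ev (nat_lit 4624) (nat_lit 34) .dd))))))) (.ch (nat_lit 1) (.ev (nat_lit 1328) (nat_lit 8194) (.nd (nat_lit
 2464) (.br (nat_lit 6) (.ch (nat_lit 0) (.ev (nat_lit 4308) (nat_lit 32768) (.ev (nat_lit 4317) (nat_lit 32)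
 .dd))) (.ch (nat_lit 6) (.ev (nat_lit 2500) (nat_lit 32) (.ev (nat_lit 2509) (nat_lit 32768) .dd)))))))) (.br
 (nat_lit 5) (.ch (nat_lit 4) (.ev (nat_lit 1328) (nat_lit 32768) (.ev (nat_lit 1348) (nat_lit 32) (.ev
 (nat_lit 1508) (nat_lit 2) (.ev (nat_lit 1517) (nat_lit 8192) .dd))))) (.br (nat_lit 6) (.ch (nat_lit 5) (.ev
 (nat_lit 1328) (nat_lit 2) (.nd (nat_lit 3216) (.br (nat_lit 5) (.br (nat_lit 4) (.ch (nat_lit 1) (.ev
 (nat_lit 3232) (nat_lit 32) (.fin (nat_lit 576346952804286958)))) (.ch (nat_lit 4) (.ev (nat_lit 3232)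
 (nat_lit 32768) (.ev (nat_lit 4596) (nat_lit 32) (.ev (nat_lit 4605) (nat_lit 8192) .dd))))) (.br (nat_lit 6)
 (.ch (nat_lit 5) (.ev (nat_lit 3232) (nat_lit 8192) (.ev (nat_lit 3888) (nat_lit 32800) .dd))) (.ch (nat_lit
 6) (.ev (nat_lit 4528) (nat_lit 32768) (.ev (nat_lit 4692) (nat_lit 8192) (.ev (nat_lit 4701) (nat_lit 32)
 .dd))))))))) (.ch (nat_lit 6) (.ev (nat_lit 1328) (nat_lit 8224) (.ev (nat_lit 5076) (nat_lit 2) (.ev (nat_lit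
 5085) (nat_lit 32768) .dd)))))))))) (.br (nat_lit 5) (.ch (nat_lit 4) (.nd (nat_lit 1360) (.br (nat_lit 5)
 (.br (nat_lit 4) (.ch (nat_lit 0) (.ev (nat_lit 4656) (nat_lit 32768) (.nd (nat_lit 5408) (.ch (nat_lit 2)
 (.nd (nat_lit 6752) (.br (nat_lit 2) (.ch (nat_lit 1) (.ev (nat_lit 6768) (nat_lit 32) (.fin (nat_lit
 575984114019549543)))) (.br (nat_lit 5) (.ch (nat_lit 2) (.ev (nat_lit 6768) (nat_lit 8192) (.ev (nat_lit
 6788) (nat_lit 2) (.ev (nat_lit 6797) (nat_lit 32) .dd)))) (.ch (nat_lit 5) (.ev (nat_lit 6768) (nat_lit 2)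
 (.fin (nat_lit 576421719615947326))))))))))) (.ch (nat_lit 4) (.ev (nat_lit 1376) (nat_lit 32768) (.ev
 (nat_lit 1620) (nat_lit 8192) (.ev (nat_lit 4208) (nat_lit 32) (.ev (nat_lit 4221) (nat_lit 2) .dd)))))) (.br
 (nat_lit 6) (.ch (nat_lit 5) (.ev (nat_lit 1376) (nat_lit 2) (.nd (nat_lit 2704) (.br (nat_lit 4) (.ch
 (nat_lit 3) (.ev (nat_lit 2720) (nat_lit 32) (.nd (nat_lit 6464) (.br (nat_lit 5) (.ch (nat_lit 0) (.ev
 (nat_lit 6484) (nat_lit 8192) (.ev (nat_lit 6493) (nat_lit 32768) .dd))) (.ch (nat_lit 5) (.fin (nat_lit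
 576475595740234281))))))) (.br (nat_lit 6) (.ch (nat_lit 4) (.ev (nat_lit 3412) (nat_lit 8192) (.fin (nat_lit
 576226006430860133)))) (.ch (nat_lit 6) (.ev (nat_lit 3412) (nat_lit 8192) (.ev (nat_lit 4512) (nat_lit 32768)
 (.ev (nat_lit 4525) (nat_lit 32) .dd))))))))) (.ch (nat_lit 6) (.ev (nat_lit 1376) (nat_lit 8192) (.nd
 (nat_lit 3856) (.br (nat_lit 1) (.ch (nat_lit 0) (.nd (nat_lit 6400) (.ch (nat_lit 4) (.nd (nat_lit 8000) (.br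
 (nat_lit 6) (.ch (nat_lit 3) (.ev (nat_lit 8016) (nat_lit 32768) (.fin (nat_lit 576499784981365340)))) (.ch
 (nat_lit 6) (.ev (nat_lit 8016) (nat_lit 32) (.fin (nat_lit 576558059220320861))))))))) (.br (nat_lit 5) (.ch
 (nat_lit 1) (.ev (nat_lit 3872) (nat_lit 2) (.ev (nat_lit 4944) (nat_lit 32800) .dd))) (.ch (nat_lit 5) (.ev
 (nat_lit 3908) (nat_lit 34) (.ev (nat_lit 3917) (nat_lit 32768) .dd)))))))))))) (.ch (nat_lit 5) (.ev (nat_lit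
 512) (nat_lit 8192) (.nd (nat_lit 1584) (.br (nat_lit 2) (.ch (nat_lit 0) (.ev (nat_lit 1600) (nat_lit 32768)
 (.ev (nat_lit 4916) (nat_lit 32) (.ev (nat_lit 4925) (nat_lit 2) .dd)))) (.br (nat_lit 4) (.ch (nat_lit 2)
 (.ev (nat_lit 4052) (nat_lit 32) (.ev (nat_lit 4784) (nat_lit 32770) .dd))) (.ch (nat_lit 4) (.ev (nat_lit
 1600) (nat_lit 32) (.ev (nat_lit 4916) (nat_lit 32768) (.ev (nat_lit 4925) (nat_lit 2) .dd)))))))))))))) (.br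
 (nat_lit 6) (.ch (nat_lit 4) (.ev (nat_lit 144) (nat_lit 36864) (.nd (nat_lit 464) (.br (nat_lit 4) (.br
 (nat_lit 3) (.ch (nat_lit 2) (.ev (nat_lit 480) (nat_lit 8226) (.fin (nat_lit 576461302034547292)))) (.ch
 (nat_lit 3) (.ev (nat_lit 480) (nat_lit 68) (.nd (nat_lit 1264) (.br (nat_lit 4) (.br (nat_lit 3) (.ch
 (nat_lit 2) (.ev (nat_lit 1280) (nat_lit 8224) (.ev (nat_lit 1293) (nat_lit 2) .dd))) (.ch (nat_lit 3) (.ev
 (nat_lit 1280) (nat_lit 2) (.nd (nat_lit 2176) (.br (nat_lit 1) (.ch (nat_lit 0) (.ev (nat_lit 4372) (nat_lit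
 32) (.ev (nat_lit 4381) (nat_lit 8192) .dd))) (.br (nat_lit 2) (.ch (nat_lit 1) (.ev (nat_lit 4372) (nat_lit
 32) (.ev (nat_lit 4381) (nat_lit 8192) .dd))) (.ch (nat_lit 2) (.ev (nat_lit 2272) (nat_lit 8224) .dd))))))))
 (.br (nat_lit 5) (.ch (nat_lit 4) (.ev (nat_lit 1796) (nat_lit 8192) (.nd (nat_lit 2464) (.br (nat_lit 2) (.ch
 (nat_lit 1) (.ev (nat_lit 4644) (nat_lit 2) (.ev (nat_lit 4653) (nat_lit 32) .dd))) (.br (nat_lit 6) (.ch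
 (nat_lit 2) (.ev (nat_lit 4704) (nat_lit 32) (.ev (nat_lit 4717) (nat_lit 2) .dd))) (.ch (nat_lit 6) (.ev
 (nat_lit 5056) (nat_lit 32) (.ev (nat_lit 5069) (nat_lit 2) .dd)))))))) (.br (nat_lit 6) (.ch (nat_lit 5) (.ev
 (nat_lit 1280) (nat_lit 32) (.ev (nat_lit 3668) (nat_lit 2) (.ev (nat_lit 3677) (nat_lit 8192) .dd)))) (.ch
 (nat_lit 6) (.ev (nat_lit 1280) (nat_lit 2) (.nd (nat_lit 3856) (.br (nat_lit 3) (.ch (nat_lit 1) (.ev
 (nat_lit 4452) (nat_lit 8192) (.ev (nat_lit 4461) (nat_lit 32) .dd))) (.ch (nat_lit 3) (.ev (nat_lit 4452)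
 (nat_lit 8192) (.ev (nat_lit 4461) (nat_lit 32) .dd)))))))))))))) (.br (nat_lit 5) (.ch (nat_lit 4) (.nd
 (nat_lit 976) (.br (nat_lit 2) (.br (nat_lit 1) (.ch (nat_lit 0) (.ev (nat_lit 992) (nat_lit 8260) (.fin
 (nat_lit 576452505970885189)))) (.ch (nat_lit 1) (.ev (nat_lit 992) (nat_lit 32) (.ev (nat_lit 1028) (nat_lit
 4) (.nd (nat_lit 2096) (.br (nat_lit 3) (.br (nat_lit 1) (.ch (nat_lit 0) (.ev (nat_lit 2112) (nat_lit 8192)
 (.ev (nat_lit 2404) (nat_lit 64) (.ev (nat_lit 2413) (nat_lit 2) .dd)))) (.ch (nat_lit 1) (.ev (nat_lit 2112)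
 (nat_lit 2) (.fin (nat_lit 576432714789896765))))) (.br (nat_lit 4) (.ch (nat_lit 3) (.ev (nat_lit 2112)
 (nat_lit 2) (.ev (nat_lit 3316) (nat_lit 8192) (.ev (nat_lit 3325) (nat_lit 64) .dd)))) (.br (nat_lit 5) (.ch
 (nat_lit 4) (.ev (nat_lit 2112) (nat_lit 64) (.ev (nat_lit 4164) (nat_lit 2) (.ev (nat_lit 4173) (nat_lit
 8192) .dd)))) (.ch (nat_lit 5) (.ev (nat_lit 2112) (nat_lit 8192) (.ev (nat_lit 4196) (nat_lit 2) (.ev
 (nat_lit 4205) (nat_lit 64) .dd)))))))))))) (.br (nat_lit 4) (.ch (nat_lit 2) (.ev (nat_lit 1028) (nat_lit 4)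
 (.ev (nat_lit 1140) (nat_lit 64) (.nd (nat_lit 2176) (.br (nat_lit 4) (.br (nat_lit 1) (.ch (nat_lit 0) (.ev
 (nat_lit 2192) (nat_lit 8224) (.ev (nat_lit 2205) (nat_lit 2) .dd))) (.ch (nat_lit 1) (.ev (nat_lit 2192)
 (nat_lit 34) (.ev (nat_lit 2205) (nat_lit 8192) .dd)))) (.br (nat_lit 6) (.ch (nat_lit 4) (.ev (nat_lit 2192)
 (nat_lit 34) (.ev (nat_lit 2205) (nat_lit 8192) .dd))) (.ch (nat_lit 6) (.ev (nat_lit 2192) (nat_lit 8194)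
 (.ev (nat_lit 2205) (nat_lit 32) .dd))))))))) (.br (nat_lit 6) (.ch (nat_lit 4) (.ev (nat_lit 992) (nat_lit
 36) (.ev (nat_lit 1520) (nat_lit 64) (.nd (nat_lit 2464) (.br (nat_lit 3) (.ch (nat_lit 2) (.ev (nat_lit 2500)
 (nat_lit 8192) (.ev (nat_lit 2509) (nat_lit 2) .dd))) (.br (nat_lit 5) (.ch (nat_lit 3) (.ev (nat_lit 2612)
 (nat_lit 2) (.ev (nat_lit 2621) (nat_lit 8192) .dd))) (.ch (nat_lit 5) (.ev (nat_lit 4756) (nat_lit 8192) (.ev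
 (nat_lit 4765) (nat_lit 2) .dd))))))))) (.ch (nat_lit 6) (.ev (nat_lit 992) (nat_lit 8194) (.ev (nat_lit 1028)
 (nat_lit 4) (.nd (nat_lit 2096) (.br (nat_lit 5) (.br (nat_lit 4) (.ch (nat_lit 3) (.ev (nat_lit 2112)
 (nat_lit 32) (.ev (nat_lit 2125) (nat_lit 64) .dd))) (.ch (nat_lit 4) (.ev (nat_lit 2112) (nat_lit 64) (.ev
 (nat_lit 2125) (nat_lit 32) .dd)))) (.br (nat_lit 6) (.ch (nat_lit 5) (.ev (nat_lit 3028) (nat_lit 32) (.ev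
 (nat_lit 3037) (nat_lit 64) .dd))) (.ch (nat_lit 6) (.ev (nat_lit 4564) (nat_lit 32) (.ev (nat_lit 4573)
 (nat_lit 64) .dd)))))))))))))) (.br (nat_lit 6) (.ch (nat_lit 5) (.ev (nat_lit 480) (nat_lit 34) (.ev (nat_lit
 1028) (nat_lit 4) (.nd (nat_lit 1584) (.br (nat_lit 3) (.br (nat_lit 2) (.ch (nat_lit 0) (.nd (nat_lit 3856)
 (.br (nat_lit 6) (.ch (nat_lit 0) (.ev (nat_lit 5044) (nat_lit 64) (.ev (nat_lit 5053) (nat_lit 8192) .dd)))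
 (.ch (nat_lit 6) (.ev (nat_lit 3872) (nat_lit 8192) (.ev (nat_lit 3885) (nat_lit 64) .dd)))))) (.ch (nat_lit
 2) (.ev (nat_lit 1716) (nat_lit 64) (.ev (nat_lit 1725) (nat_lit 8192) .dd)))) (.br (nat_lit 6) (.ch (nat_lit
 3) (.ev (nat_lit 3908) (nat_lit 8192) (.ev (nat_lit 3917) (nat_lit 64) .dd))) (.ch (nat_lit 6) (.ev (nat_lit
 1600) (nat_lit 8256) .dd)))))))) (.ch (nat_lit 6) (.ev (nat_lit 480) (nat_lit 4) (.nd (nat_lit 1408) (.br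
 (nat_lit 4) (.br (nat_lit 2) (.ch (nat_lit 0) (.ev (nat_lit 1424) (nat_lit 32) (.ev (nat_lit 1620) (nat_lit
 8192) (.ev (nat_lit 3556) (nat_lit 64) (.ev (nat_lit 3565) (nat_lit 2) .dd))))) (.ch (nat_lit 2) (.ev (nat_lit
 1424) (nat_lit 8256) (.nd (nat_lit 2896) (.br (nat_lit 5) (.ch (nat_lit 2) (.ev (nat_lit 4740) (nat_lit 2)
 (.ev (nat_lit 4749) (nat_lit 32) .dd))) (.ch (nat_lit 5) (.ev (nat_lit 4864) (nat_lit 34) .dd))))))) (.br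
 (nat_lit 5) (.ch (nat_lit 4) (.ev (nat_lit 1424) (nat_lit 2) (.ev (nat_lit 1620) (nat_lit 8192) (.nd (nat_lit
 2176) (.br (nat_lit 3) (.br (nat_lit 1) (.ch (nat_lit 0) (.ev (nat_lit 2192) (nat_lit 96) .dd)) (.ch (nat_lit
 1) (.ev (nat_lit 2192) (nat_lit 32) (.ev (nat_lit 2205) (nat_lit 64) .dd)))) (.br (nat_lit 5) (.ch (nat_lit 3)
 (.ev (nat_lit 2308) (nat_lit 64) (.ev (nat_lit 2317) (nat_lit 32) .dd))) (.ch (nat_lit 5) (.ev (nat_lit 2192)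
 (nat_lit 64) (.ev (nat_lit 2205) (nat_lit 32) .dd))))))))) (.br (nat_lit 6) (.ch (nat_lit 5) (.ev (nat_lit
 1424) (nat_lit 2) (.nd (nat_lit 4400) (.br (nat_lit 4) (.ch (nat_lit 1) (.ev (nat_lit 4416) (nat_lit 8192)
 (.fin (nat_lit 576429416223556144)))) (.ch (nat_lit 4) (.ev (nat_lit 4656) (nat_lit 64) (.ev (nat_lit 4756)
 (nat_lit 32) (.ev (nat_lit 4765) (nat_lit 8192) .dd)))))))) (.ch (nat_lit 6) (.ev (nat_lit 1424) (nat_lit 96)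
 (.ev (nat_lit 1796) (nat_lit 2) (.ev (nat_lit 1805) (nat_lit 8192) .dd)))))))))))))))) (.ch (nat_lit 6) (.ev
 (nat_lit 144) (nat_lit 32800) (.nd (nat_lit 736) (.br (nat_lit 3) (.br (nat_lit 2) (.ch (nat_lit 0) (.ev
 (nat_lit 752) (nat_lit 12352) (.nd (nat_lit 1408) (.br (nat_lit 4) (.br (nat_lit 1) (.ch (nat_lit 0) (.nd
 (nat_lit 5472) (.br (nat_lit 2) (.ch (nat_lit 0) (.ev (nat_lit 5556) (nat_lit 4) (.ev (nat_lit 5565) (nat_lit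
 2) .dd))) (.ch (nat_lit 2) (.fin (nat_lit 576464600606130758)))))) (.ch (nat_lit 1) (.ev (nat_lit 1424)
 (nat_lit 2) (.ev (nat_lit 1437) (nat_lit 4) .dd)))) (.br (nat_lit 5) (.ch (nat_lit 4) (.ev (nat_lit 1424)
 (nat_lit 4) (.ev (nat_lit 1437) (nat_lit 2) .dd))) (.ch (nat_lit 5) (.ev (nat_lit 4740) (nat_lit 4) (.ev
 (nat_lit 4749) (nat_lit 2) .dd)))))))) (.ch (nat_lit 2) (.ev (nat_lit 752) (nat_lit 64) (.nd (nat_lit 1216)
 (.br (nat_lit 4) (.br (nat_lit 2) (.ch (nat_lit 1) (.ev (nat_lit 1300) (nat_lit 4) (.ev (nat_lit 1956)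
 (nat_lit 2) (.ev (nat_lit 2260) (nat_lit 8192) (.ev (nat_lit 2269) (nat_lit 4096) .dd))))) (.ch (nat_lit 2)
 (.ev (nat_lit 1232) (nat_lit 12288) (.nd (nat_lit 2896) (.ch (nat_lit 4) (.ev (nat_lit 4564) (nat_lit 2) (.ev
 (nat_lit 4573) (nat_lit 4) .dd))))))) (.br (nat_lit 5) (.ch (nat_lit 4) (.ev (nat_lit 1232) (nat_lit 8194)
 (.ev (nat_lit 4644) (nat_lit 4096) (.ev (nat_lit 4653) (nat_lit 4) .dd)))) (.br (nat_lit 6) (.ch (nat_lit 5)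
 (.nd (nat_lit 2016) (.br (nat_lit 5) (.br (nat_lit 1) (.ch (nat_lit 0) (.ev (nat_lit 2032) (nat_lit 2) (.ev
 (nat_lit 2228) (nat_lit 4) (.ev (nat_lit 3124) (nat_lit 4096) (.ev (nat_lit 3133) (nat_lit 8192) .dd))))) (.ch
 (nat_lit 1) (.ev (nat_lit 2032) (nat_lit 12292) (.ev (nat_lit 2045) (nat_lit 2) .dd)))) (.br (nat_lit 6) (.ch
 (nat_lit 5) (.ev (nat_lit 2032) (nat_lit 8196) (.fin (nat_lit 576461302066004558)))) (.ch (nat_lit 6) (.ev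
 (nat_lit 2032) (nat_lit 8192) (.ev (nat_lit 3316) (nat_lit 4096) (.ev (nat_lit 3668) (nat_lit 4) (.ev (nat_lit
 3677) (nat_lit 2) .dd))))))))) (.ch (nat_lit 6) (.ev (nat_lit 1232) (nat_lit 4) (.nd (nat_lit 2096) (.br
 (nat_lit 3) (.br (nat_lit 1) (.ch (nat_lit 0) (.ev (nat_lit 2112) (nat_lit 8192) (.fin (nat_lit
 576377739268276732)))) (.ch (nat_lit 1) (.ev (nat_lit 2112) (nat_lit 2) (.ev (nat_lit 3108) (nat_lit 4096)
 (.ev (nat_lit 3117) (nat_lit 8192) .dd))))) (.br (nat_lit 6) (.ch (nat_lit 3) (.ev (nat_lit 2112) (nat_lit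
 8192) (.ev (nat_lit 5124) (nat_lit 2) (.ev (nat_lit 5133) (nat_lit 4096) .dd)))) (.ch (nat_lit 6) (.ev
 (nat_lit 2112) (nat_lit 4096) (.ev (nat_lit 4916) (nat_lit 8192) (.ev (nat_lit 4925) (nat_lit 2)
 .dd)))))))))))))))) (.br (nat_lit 5) (.ch (nat_lit 3) (.ev (nat_lit 752) (nat_lit 2) (.nd (nat_lit 1360) (.br
 (nat_lit 3) (.br (nat_lit 2) (.ch (nat_lit 1) (.ev (nat_lit 1376) (nat_lit 8192) (.ev (nat_lit 4964) (nat_lit
 4096) (.fin (nat_lit 576419520755221127))))) (.ch (nat_lit 2) (.ev (nat_lit 1376) (nat_lit 68) (.fin (nat_lit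
 576508581399446166))))) (.br (nat_lit 5) (.ch (nat_lit 3) (.ev (nat_lit 1376) (nat_lit 4096) (.ev (nat_lit
 4608) (nat_lit 64) (.ev (nat_lit 4964) (nat_lit 4) (.ev (nat_lit 4973) (nat_lit 8192) .dd))))) (.br (nat_lit
 6) (.ch (nat_lit 5) (.ev (nat_lit 1376) (nat_lit 4160) (.ev (nat_lit 1396) (nat_lit 4) (.ev (nat_lit 1405)
 (nat_lit 8192) .dd)))) (.ch (nat_lit 6) (.nd (nat_lit 4400) (.br (nat_lit 5) (.br (nat_lit 3) (.ch (nat_lit 2)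
 (.ev (nat_lit 4416) (nat_lit 12288) (.ev (nat_lit 4564) (nat_lit 64) (.ev (nat_lit 4573) (nat_lit 4) .dd))))
 (.ch (nat_lit 3) (.ev (nat_lit 4452) (nat_lit 8192) (.ev (nat_lit 4596) (nat_lit 4) (.nd (nat_lit 7376) (.br
 (nat_lit 5) (.ch (nat_lit 2) (.ev (nat_lit 7392) (nat_lit 4096) (.ev (nat_lit 7405) (nat_lit 64) .dd))) (.ch
 (nat_lit 5) (.nd (nat_lit 8336) (.ch (nat_lit 0) (.nd (nat_lit 8784) (.br (nat_lit 5) (.ch (nat_lit 4) (.ev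
 (nat_lit 8800) (nat_lit 64) (.ev (nat_lit 8813) (nat_lit 4096) .dd))) (.ch (nat_lit 5) (.fin (nat_lit
 576429416251867703)))))))))))))) (.br (nat_lit 6) (.ch (nat_lit 5) (.ev (nat_lit 4416) (nat_lit 4) (.ev
 (nat_lit 4836) (nat_lit 8192) (.fin (nat_lit 576149041120231733))))) (.ch (nat_lit 6) (.ev (nat_lit 4416)
 (nat_lit 4160) (.ev (nat_lit 4452) (nat_lit 4) (.ev (nat_lit 4461) (nat_lit 8192) .dd)))))))))))))) (.br
 (nat_lit 6) (.ch (nat_lit 5) (.nd (nat_lit 1264) (.br (nat_lit 2) (.br (nat_lit 1) (.ch (nat_lit 0) (.ev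
 (nat_lit 1280) (nat_lit 66) (.ev (nat_lit 1956) (nat_lit 4) (.nd (nat_lit 2464) (.br (nat_lit 5) (.ch (nat_lit
 3) (.ev (nat_lit 2964) (nat_lit 4096) (.ev (nat_lit 2973) (nat_lit 8192) .dd))) (.ch (nat_lit 5) (.ev (nat_lit
 2932) (nat_lit 4096) (.ev (nat_lit 2941) (nat_lit 8192) .dd)))))))) (.ch (nat_lit 1) (.ev (nat_lit 1280)
 (nat_lit 4160) (.nd (nat_lit 1968) (.br (nat_lit 2) (.ch (nat_lit 0) (.ev (nat_lit 1984) (nat_lit 2) (.ev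
 (nat_lit 3252) (nat_lit 8192) (.ev (nat_lit 3261) (nat_lit 4) .dd)))) (.br (nat_lit 6) (.ch (nat_lit 2) (.ev
 (nat_lit 1984) (nat_lit 8192) (.ev (nat_lit 2004) (nat_lit 2) (.ev (nat_lit 2013) (nat_lit 4) .dd)))) (.ch
 (nat_lit 6) (.ev (nat_lit 3780) (nat_lit 2) (.ev (nat_lit 3908) (nat_lit 4) (.ev (nat_lit 3917) (nat_lit 8192)
 .dd)))))))))) (.br (nat_lit 6) (.ch (nat_lit 2) (.ev (nat_lit 1280) (nat_lit 4) (.nd (nat_lit 3216) (.br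
 (nat_lit 5) (.br (nat_lit 1) (.ch (nat_lit 0) (.ev (nat_lit 3232) (nat_lit 8194) (.ev (nat_lit 4176) (nat_lit
 4160) .dd))) (.ch (nat_lit 1) (.ev (nat_lit 3232) (nat_lit 4160) (.fin (nat_lit 576464600600887864))))) (.br
 (nat_lit 6) (.ch (nat_lit 5) (.ev (nat_lit 3232) (nat_lit 64) (.ev (nat_lit 3284) (nat_lit 4096) (.ev (nat_lit
 3412) (nat_lit 2) (.ev (nat_lit 3421) (nat_lit 8192) .dd))))) (.ch (nat_lit 6) (.ev (nat_lit 3232) (nat_lit 2)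
 (.ev (nat_lit 4564) (nat_lit 4096) (.ev (nat_lit 4692) (nat_lit 8192) (.ev (nat_lit 4701) (nat_lit 64)
 .dd)))))))))) (.ch (nat_lit 6) (.ev (nat_lit 1280) (nat_lit 4) (.nd (nat_lit 2896) (.br (nat_lit 4) (.ch
 (nat_lit 1) (.ev (nat_lit 2912) (nat_lit 2) (.ev (nat_lit 2932) (nat_lit 4096) (.ev (nat_lit 4596) (nat_lit
 8192) (.ev (nat_lit 4605) (nat_lit 64) .dd))))) (.br (nat_lit 6) (.ch (nat_lit 4) (.ev (nat_lit 2912) (nat_lit
 8256) (.ev (nat_lit 2932) (nat_lit 2) (.ev (nat_lit 2941) (nat_lit 4096) .dd)))) (.ch (nat_lit 6) (.ev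
 (nat_lit 2912) (nat_lit 12288) (.ev (nat_lit 4880) (nat_lit 66) .dd)))))))))))) (.ch (nat_lit 6) (.ev (nat_lit
 752) (nat_lit 4100) (.nd (nat_lit 1472) (.br (nat_lit 1) (.ch (nat_lit 0) (.ev (nat_lit 1488) (nat_lit 8192)
 (.nd (nat_lit 2704) (.br (nat_lit 6) (.ch (nat_lit 1) (.ev (nat_lit 4292) (nat_lit 2) (.ev (nat_lit 4301)
 (nat_lit 64) .dd))) (.ch (nat_lit 6) (.ev (nat_lit 4052) (nat_lit 2) (.ev (nat_lit 4061) (nat_lit 64)
 .dd))))))) (.br (nat_lit 3) (.ch (nat_lit 1) (.nd (nat_lit 2704) (.br (nat_lit 5) (.br (nat_lit 1) (.ch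
 (nat_lit 0) (.ev (nat_lit 2720) (nat_lit 64) (.ev (nat_lit 3988) (nat_lit 8192) (.ev (nat_lit 3997) (nat_lit
 2) .dd)))) (.ch (nat_lit 1) (.ev (nat_lit 4224) (nat_lit 2) (.ev (nat_lit 4564) (nat_lit 8192) (.ev (nat_lit
 4573) (nat_lit 64) .dd))))) (.br (nat_lit 6) (.ch (nat_lit 5) (.ev (nat_lit 3988) (nat_lit 8192) (.fin
 (nat_lit 576500884599947898)))) (.ch (nat_lit 6) (.ev (nat_lit 2720) (nat_lit 8192) (.ev (nat_lit 3908)
 (nat_lit 64) (.ev (nat_lit 3917) (nat_lit 2) .dd)))))))) (.ch (nat_lit 3) (.nd (nat_lit 3376) (.br (nat_lit 1)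
 (.ch (nat_lit 0) (.ev (nat_lit 3392) (nat_lit 8194) (.ev (nat_lit 3405) (nat_lit 64) .dd))) (.br (nat_lit 6)
 (.ch (nat_lit 1) (.ev (nat_lit 3392) (nat_lit 64) (.fin (nat_lit 576338156755304968)))) (.ch (nat_lit 6) (.ev
 (nat_lit 3392) (nat_lit 8192) (.ev (nat_lit 4372) (nat_lit 2) (.ev (nat_lit 4381) (nat_lit 64)
 .dd)))))))))))))))))))))))))) (.br (nat_lit 5) (.ch (nat_lit 3) (.ev (nat_lit 48) (nat_lit 32774) (.nd
 (nat_lit 160) (.br (nat_lit 4) (.br (nat_lit 2) (.ch (nat_lit 1) (.ev (nat_lit 176) (nat_lit 131072) (.nd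
 (nat_lit 704) (.br (nat_lit 3) (.br (nat_lit 1) (.ch (nat_lit 0) (.ev (nat_lit 720) (nat_lit 8192) (.nd
 (nat_lit 1584) (.br (nat_lit 2) (.br (nat_lit 1) (.ch (nat_lit 0) (.ev (nat_lit 1600) (nat_lit 4192) (.ev
 (nat_lit 5044) (nat_lit 1024) (.ev (nat_lit 5053) (nat_lit 2048) .dd)))) (.ch (nat_lit 1) (.ev (nat_lit 1600)
 (nat_lit 1056) (.nd (nat_lit 2096) (.br (nat_lit 2) (.ch (nat_lit 0) (.ev (nat_lit 4064) (nat_lit 64) (.ev
 (nat_lit 4848) (nat_lit 6144) .dd))) (.br (nat_lit 3) (.ch (nat_lit 2) (.ev (nat_lit 4964) (nat_lit 4096) (.ev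
 (nat_lit 5012) (nat_lit 2048) (.ev (nat_lit 5021) (nat_lit 64) .dd)))) (.ch (nat_lit 3) (.ev (nat_lit 2112)
 (nat_lit 64) (.ev (nat_lit 4112) (nat_lit 6144) .dd))))))))) (.br (nat_lit 4) (.ch (nat_lit 2) (.ev (nat_lit
 1600) (nat_lit 3072) (.ev (nat_lit 4768) (nat_lit 4096) (.ev (nat_lit 5076) (nat_lit 32) (.ev (nat_lit 5085)
 (nat_lit 64) .dd))))) (.br (nat_lit 5) (.ch (nat_lit 4) (.ev (nat_lit 1600) (nat_lit 2048) (.ev (nat_lit 1700)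
 (nat_lit 64) (.ev (nat_lit 1780) (nat_lit 4096) (.ev (nat_lit 4964) (nat_lit 1024) (.ev (nat_lit 4973)
 (nat_lit 32) .dd)))))) (.ch (nat_lit 5) (.ev (nat_lit 1600) (nat_lit 4096) (.ev (nat_lit 1700) (nat_lit 1024)
 (.ev (nat_lit 4992) (nat_lit 64) (.fin (nat_lit 576462401571340866)))))))))))) (.ch (nat_lit 1) (.ev (nat_lit
 720) (nat_lit 6144) (.nd (nat_lit 1584) (.br (nat_lit 3) (.br (nat_lit 2) (.ch (nat_lit 0) (.ev (nat_lit 1600)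
 (nat_lit 1024) (.ev (nat_lit 1716) (nat_lit 64) (.nd (nat_lit 2896) (.br (nat_lit 1) (.ch (nat_lit 0) (.ev
 (nat_lit 4816) (nat_lit 32) (.ev (nat_lit 4829) (nat_lit 8192) .dd))) (.br (nat_lit 2) (.ch (nat_lit 1) (.ev
 (nat_lit 3252) (nat_lit 32) (.ev (nat_lit 3261) (nat_lit 8192) .dd))) (.ch (nat_lit 2) (.ev (nat_lit 2932)
 (nat_lit 8192) (.ev (nat_lit 2941) (nat_lit 32) .dd))))))))) (.ch (nat_lit 2) (.nd (nat_lit 2896) (.br
 (nat_lit 4) (.ch (nat_lit 1) (.ev (nat_lit 2912) (nat_lit 9216) (.fin (nat_lit 576545964436177542)))) (.br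
 (nat_lit 5) (.ch (nat_lit 4) (.ev (nat_lit 4848) (nat_lit 1024) (.nd (nat_lit 6336) (.ch (nat_lit 0) (.nd
 (nat_lit 7584) (.br (nat_lit 5) (.ch (nat_lit 3) (.ev (nat_lit 7600) (nat_lit 64) (.fin (nat_lit
 576476695239279154)))) (.ch (nat_lit 5) (.ev (nat_lit 7600) (nat_lit 32) (.fin (nat_lit
 576528372260618910)))))))))) (.ch (nat_lit 5) (.ev (nat_lit 2912) (nat_lit 1088) (.ev (nat_lit 2932) (nat_lit
 8192) (.ev (nat_lit 2941) (nat_lit 32) .dd))))))))) (.br (nat_lit 5) (.ch (nat_lit 3) (.ev (nat_lit 1600)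
 (nat_lit 8224) (.ev (nat_lit 1908) (nat_lit 1024) (.ev (nat_lit 1917) (nat_lit 64) .dd)))) (.br (nat_lit 6)
 (.ch (nat_lit 5) (.ev (nat_lit 1600) (nat_lit 8256) (.nd (nat_lit 2896) (.br (nat_lit 4) (.ch (nat_lit 2) (.ev
 (nat_lit 3252) (nat_lit 32) (.ev (nat_lit 3261) (nat_lit 1024) .dd))) (.br (nat_lit 5) (.ch (nat_lit 4) (.ev
 (nat_lit 3252) (nat_lit 32) (.ev (nat_lit 3261) (nat_lit 1024) .dd))) (.ch (nat_lit 5) (.ev (nat_lit 3412)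
 (nat_lit 1024) (.ev (nat_lit 3421) (nat_lit 32) .dd)))))))) (.ch (nat_lit 6) (.ev (nat_lit 1600) (nat_lit 64)
 (.ev (nat_lit 1780) (nat_lit 1024) (.nd (nat_lit 2704) (.br (nat_lit 1) (.ch (nat_lit 0) (.ev (nat_lit 4052)
 (nat_lit 32) (.ev (nat_lit 4061) (nat_lit 8192) .dd))) (.br (nat_lit 3) (.ch (nat_lit 1) (.ev (nat_lit 2720)
 (nat_lit 32) (.ev (nat_lit 2733) (nat_lit 8192) .dd))) (.ch (nat_lit 3) (.ev (nat_lit 3060) (nat_lit 32) (.ev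
 (nat_lit 3069) (nat_lit 8192) .dd)))))))))))))))) (.br (nat_lit 4) (.ch (nat_lit 3) (.ev (nat_lit 720)
 (nat_lit 6208) (.nd (nat_lit 1584) (.br (nat_lit 4) (.br (nat_lit 2) (.ch (nat_lit 1) (.ev (nat_lit 5012)
 (nat_lit 1056) (.ev (nat_lit 5021) (nat_lit 8192) .dd))) (.ch (nat_lit 2) (.ev (nat_lit 1600) (nat_lit 8192)
 (.ev (nat_lit 4464) (nat_lit 1024) (.ev (nat_lit 4477) (nat_lit 32) .dd))))) (.br (nat_lit 5) (.ch (nat_lit 4)
 (.ev (nat_lit 4720) (nat_lit 32) (.ev (nat_lit 5012) (nat_lit 1024) (.ev (nat_lit 5021) (nat_lit 8192) .dd))))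
 (.ch (nat_lit 5) (.ev (nat_lit 1600) (nat_lit 8224) (.ev (nat_lit 1613) (nat_lit 1024) .dd)))))))) (.br
 (nat_lit 5) (.ch (nat_lit 4) (.ev (nat_lit 720) (nat_lit 32) (.nd (nat_lit 1584) (.br (nat_lit 4) (.br
 (nat_lit 1) (.ch (nat_lit 0) (.ev (nat_lit 1600) (nat_lit 2112) (.nd (nat_lit 3856) (.br (nat_lit 2) (.br
 (nat_lit 1) (.ch (nat_lit 0) (.ev (nat_lit 3872) (nat_lit 1024) (.ev (nat_lit 5012) (nat_lit 8192) (.ev
 (nat_lit 5021) (nat_lit 4096) .dd)))) (.ch (nat_lit 1) (.ev (nat_lit 3872) (nat_lit 12288) (.ev (nat_lit 3885)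
 (nat_lit 1024) .dd)))) (.br (nat_lit 3) (.ch (nat_lit 2) (.ev (nat_lit 3872) (nat_lit 4096) (.ev (nat_lit
 3988) (nat_lit 8192) (.ev (nat_lit 3997) (nat_lit 1024) .dd)))) (.ch (nat_lit 3) (.ev (nat_lit 3872) (nat_lit
 1024) (.ev (nat_lit 3908) (nat_lit 8192) (.ev (nat_lit 3917) (nat_lit 4096) .dd))))))))) (.ch (nat_lit 1) (.ev
 (nat_lit 1600) (nat_lit 5120) (.nd (nat_lit 2016) (.br (nat_lit 3) (.br (nat_lit 1) (.ch (nat_lit 0) (.ev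
 (nat_lit 2032) (nat_lit 2048) (.ev (nat_lit 3296) (nat_lit 8256) .dd))) (.ch (nat_lit 1) (.ev (nat_lit 2032)
 (nat_lit 2048) (.ev (nat_lit 4916) (nat_lit 8192) (.ev (nat_lit 4925) (nat_lit 64) .dd))))) (.br (nat_lit 5)
 (.ch (nat_lit 3) (.ev (nat_lit 2032) (nat_lit 64) (.ev (nat_lit 3028) (nat_lit 8192) (.ev (nat_lit 3037)
 (nat_lit 2048) .dd)))) (.ch (nat_lit 5) (.ev (nat_lit 2032) (nat_lit 8192) (.ev (nat_lit 3988) (nat_lit 64)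
 (.ev (nat_lit 3997) (nat_lit 2048) .dd)))))))))) (.br (nat_lit 5) (.ch (nat_lit 4) (.ev (nat_lit 1600)
 (nat_lit 64) (.ev (nat_lit 1956) (nat_lit 4096) (.nd (nat_lit 3216) (.br (nat_lit 4) (.br (nat_lit 2) (.ch
 (nat_lit 0) (.ev (nat_lit 3232) (nat_lit 9216) (.ev (nat_lit 3245) (nat_lit 2048) .dd))) (.ch (nat_lit 2) (.ev
 (nat_lit 3232) (nat_lit 2048) (.ev (nat_lit 3444) (nat_lit 8192) (.ev (nat_lit 3453) (nat_lit 1024) .dd)))))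
 (.br (nat_lit 5) (.ch (nat_lit 4) (.ev (nat_lit 3232) (nat_lit 1024) (.ev (nat_lit 3444) (nat_lit 2048) (.ev
 (nat_lit 3453) (nat_lit 8192) .dd)))) (.br (nat_lit 6) (.ch (nat_lit 5) (.ev (nat_lit 3232) (nat_lit 3072)
 (.ev (nat_lit 3245) (nat_lit 8192) .dd))) (.ch (nat_lit 6) (.ev (nat_lit 3232) (nat_lit 9216) (.ev (nat_lit
 3245) (nat_lit 2048) .dd)))))))))) (.br (nat_lit 6) (.ch (nat_lit 5) (.ev (nat_lit 1600) (nat_lit 9216) (.nd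
 (nat_lit 3216) (.br (nat_lit 4) (.br (nat_lit 1) (.ch (nat_lit 0) (.ev (nat_lit 3232) (nat_lit 64) (.ev
 (nat_lit 4836) (nat_lit 2048) (.ev (nat_lit 4845) (nat_lit 4096) .dd)))) (.ch (nat_lit 1) (.ev (nat_lit 3252)
 (nat_lit 2048) (.ev (nat_lit 4064) (nat_lit 64) (.ev (nat_lit 4077) (nat_lit 4096) .dd))))) (.br (nat_lit 5)
 (.ch (nat_lit 4) (.ev (nat_lit 3232) (nat_lit 4160) (.ev (nat_lit 3245) (nat_lit 2048) .dd))) (.ch (nat_lit 5)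
 (.ev (nat_lit 3232) (nat_lit 2048) (.ev (nat_lit 3284) (nat_lit 64) (.ev (nat_lit 3293) (nat_lit 4096)
 .dd))))))))) (.ch (nat_lit 6) (.ev (nat_lit 1600) (nat_lit 4096) (.nd (nat_lit 2704) (.br (nat_lit 3) (.ch
 (nat_lit 1) (.nd (nat_lit 6096) (.ch (nat_lit 4) (.nd (nat_lit 7696) (.br (nat_lit 4) (.ch (nat_lit 2) (.ev
 (nat_lit 7712) (nat_lit 2112) (.fin (nat_lit 576475595715068471)))) (.ch (nat_lit 4) (.ev (nat_lit 7712)
 (nat_lit 9216) (.fin (nat_lit 576467899100119614))))))))) (.br (nat_lit 5) (.ch (nat_lit 3) (.ev (nat_lit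
 2720) (nat_lit 1088) (.fin (nat_lit 576501984000426662)))) (.ch (nat_lit 5) (.ev (nat_lit 2964) (nat_lit 2048)
 (.ev (nat_lit 3412) (nat_lit 1024) (.nd (nat_lit 6112) (.ch (nat_lit 5) (.fin (nat_lit
 576438212311335460)))))))))))))))))) (.ch (nat_lit 5) (.ev (nat_lit 720) (nat_lit 9248) (.nd (nat_lit 1744)
 (.br (nat_lit 4) (.br (nat_lit 1) (.ch (nat_lit 0) (.ev (nat_lit 1760) (nat_lit 2048) (.ev (nat_lit 4916)
 (nat_lit 64) (.ev (nat_lit 4925) (nat_lit 4096) .dd)))) (.ch (nat_lit 1) (.ev (nat_lit 1760) (nat_lit 4096)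
 (.ev (nat_lit 4964) (nat_lit 64) (.ev (nat_lit 4973) (nat_lit 2048) .dd))))) (.br (nat_lit 5) (.ch (nat_lit 4)
 (.ev (nat_lit 1760) (nat_lit 2048) (.fin (nat_lit 576453605497193031)))) (.br (nat_lit 6) (.ch (nat_lit 5)
 (.ev (nat_lit 1760) (nat_lit 4096) (.ev (nat_lit 4564) (nat_lit 2048) (.ev (nat_lit 4573) (nat_lit 64) .dd))))
 (.ch (nat_lit 6) (.ev (nat_lit 1760) (nat_lit 64) (.ev (nat_lit 4740) (nat_lit 4096) (.ev (nat_lit 4749)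
 (nat_lit 2048) .dd)))))))))))))))) (.ch (nat_lit 2) (.ev (nat_lit 176) (nat_lit 2112) (.nd (nat_lit 560) (.br
 (nat_lit 3) (.br (nat_lit 2) (.ch (nat_lit 1) (.ev (nat_lit 576) (nat_lit 12320) (.nd (nat_lit 1856) (.br
 (nat_lit 4) (.br (nat_lit 2) (.ch (nat_lit 1) (.ev (nat_lit 1872) (nat_lit 131072) (.ev (nat_lit 1885)
 (nat_lit 1024) .dd))) (.ch (nat_lit 2) (.nd (nat_lit 5888) (.br (nat_lit 4) (.ch (nat_lit 2) (.fin (nat_lit
 576464600585159238))) (.ch (nat_lit 4) (.ev (nat_lit 5908) (nat_lit 1024) (.ev (nat_lit 5917) (nat_lit 131072)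
 .dd))))))) (.br (nat_lit 5) (.ch (nat_lit 4) (.ev (nat_lit 4740) (nat_lit 1024) (.ev (nat_lit 4749) (nat_lit
 131072) .dd))) (.ch (nat_lit 5) (.ev (nat_lit 1872) (nat_lit 1024) (.ev (nat_lit 1885) (nat_lit 131072)
 .dd)))))))) (.ch (nat_lit 2) (.ev (nat_lit 576) (nat_lit 9216) (.nd (nat_lit 1360) (.br (nat_lit 5) (.ch
 (nat_lit 3) (.ev (nat_lit 5092) (nat_lit 32) (.nd (nat_lit 5824) (.br (nat_lit 4) (.ch (nat_lit 3) (.fin
 (nat_lit 576338156761596424))) (.ch (nat_lit 4) (.ev (nat_lit 5840) (nat_lit 135168) .dd)))))) (.br (nat_lit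
 6) (.ch (nat_lit 5) (.nd (nat_lit 3856) (.br (nat_lit 2) (.br (nat_lit 1) (.ch (nat_lit 0) (.ev (nat_lit 3872)
 (nat_lit 32) (.ev (nat_lit 3988) (nat_lit 4096) (.ev (nat_lit 3997) (nat_lit 131072) .dd)))) (.ch (nat_lit 1)
 (.ev (nat_lit 3872) (nat_lit 4096) (.ev (nat_lit 3908) (nat_lit 32) (.ev (nat_lit 3917) (nat_lit 131072)
 .dd))))) (.br (nat_lit 6) (.ch (nat_lit 2) (.ev (nat_lit 3988) (nat_lit 4096) (.fin (nat_lit
 576500884358775418)))) (.ch (nat_lit 6) (.ev (nat_lit 4224) (nat_lit 131072) (.ev (nat_lit 4564) (nat_lit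
 4096) (.ev (nat_lit 4573) (nat_lit 32) .dd)))))))) (.ch (nat_lit 6) (.ev (nat_lit 1376) (nat_lit 4096) (.ev
 (nat_lit 4292) (nat_lit 131072) (.ev (nat_lit 4301) (nat_lit 32) .dd)))))))))) (.br (nat_lit 5) (.ch (nat_lit
 3) (.nd (nat_lit 1088) (.br (nat_lit 4) (.br (nat_lit 3) (.ch (nat_lit 2) (.ev (nat_lit 1104) (nat_lit 1024)
 (.nd (nat_lit 2896) (.br (nat_lit 3) (.br (nat_lit 2) (.ch (nat_lit 1) (.ev (nat_lit 2912) (nat_lit 8224)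
 (.fin (nat_lit 576464600590402104)))) (.ch (nat_lit 2) (.ev (nat_lit 2912) (nat_lit 135168) (.ev (nat_lit
 4176) (nat_lit 8224) .dd)))) (.br (nat_lit 4) (.ch (nat_lit 3) (.ev (nat_lit 2912) (nat_lit 131072) (.ev
 (nat_lit 4564) (nat_lit 8192) (.ev (nat_lit 4692) (nat_lit 4096) (.ev (nat_lit 4701) (nat_lit 32) .dd)))))
 (.ch (nat_lit 4) (.ev (nat_lit 2912) (nat_lit 32) (.ev (nat_lit 3284) (nat_lit 8192) (.ev (nat_lit 3412)
 (nat_lit 131072) (.ev (nat_lit 3421) (nat_lit 4096) .dd)))))))))) (.ch (nat_lit 3) (.ev (nat_lit 1104)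
 (nat_lit 8224) (.ev (nat_lit 3780) (nat_lit 131072) (.ev (nat_lit 3988) (nat_lit 1024) (.ev (nat_lit 3997)
 (nat_lit 4096) .dd)))))) (.br (nat_lit 5) (.ch (nat_lit 4) (.ev (nat_lit 1104) (nat_lit 131104) (.ev (nat_lit
 1956) (nat_lit 1024) (.ev (nat_lit 2964) (nat_lit 8192) (.ev (nat_lit 2973) (nat_lit 4096) .dd))))) (.ch
 (nat_lit 5) (.ev (nat_lit 1104) (nat_lit 1024) (.nd (nat_lit 2016) (.br (nat_lit 3) (.ch (nat_lit 1) (.ev
 (nat_lit 2032) (nat_lit 131072) (.ev (nat_lit 2148) (nat_lit 8192) (.ev (nat_lit 4596) (nat_lit 4096) (.ev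
 (nat_lit 4605) (nat_lit 32) .dd))))) (.br (nat_lit 5) (.ch (nat_lit 3) (.ev (nat_lit 2032) (nat_lit 12288)
 (.ev (nat_lit 4880) (nat_lit 131104) .dd))) (.ch (nat_lit 5) (.ev (nat_lit 2032) (nat_lit 4128) (.ev (nat_lit
 2772) (nat_lit 131072) (.ev (nat_lit 2781) (nat_lit 8192) .dd))))))))))))) (.br (nat_lit 6) (.ch (nat_lit 5)
 (.ev (nat_lit 576) (nat_lit 131072) (.nd (nat_lit 1312) (.br (nat_lit 4) (.br (nat_lit 2) (.ch (nat_lit 1)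
 (.nd (nat_lit 2096) (.br (nat_lit 4) (.br (nat_lit 3) (.ch (nat_lit 0) (.ev (nat_lit 2112) (nat_lit 12288)
 (.ev (nat_lit 4564) (nat_lit 32) (.ev (nat_lit 4573) (nat_lit 1024) .dd)))) (.ch (nat_lit 3) (.ev (nat_lit
 2112) (nat_lit 32) (.ev (nat_lit 2212) (nat_lit 1024) (.ev (nat_lit 3444) (nat_lit 8192) (.ev (nat_lit 3453)
 (nat_lit 4096) .dd)))))) (.br (nat_lit 6) (.ch (nat_lit 4) (.ev (nat_lit 2112) (nat_lit 1024) (.ev (nat_lit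
 4836) (nat_lit 4096) (.fin (nat_lit 576149040396714293))))) (.ch (nat_lit 6) (.ev (nat_lit 3908) (nat_lit
 4096) (.ev (nat_lit 4596) (nat_lit 1024) (.nd (nat_lit 6128) (.br (nat_lit 4) (.ch (nat_lit 0) (.ev (nat_lit
 6144) (nat_lit 8192) (.ev (nat_lit 6157) (nat_lit 32) .dd))) (.ch (nat_lit 4) (.nd (nat_lit 8048) (.ch
 (nat_lit 4) (.nd (nat_lit 8496) (.br (nat_lit 6) (.ch (nat_lit 0) (.ev (nat_lit 8512) (nat_lit 32) (.ev
 (nat_lit 8525) (nat_lit 8192) .dd))) (.ch (nat_lit 6) (.fin (nat_lit 576429416195244599))))))))))))))))) (.ch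
 (nat_lit 2) (.ev (nat_lit 1328) (nat_lit 8224) (.ev (nat_lit 1348) (nat_lit 1024) (.ev (nat_lit 1357) (nat_lit
 4096) .dd))))) (.br (nat_lit 5) (.ch (nat_lit 4) (.ev (nat_lit 1328) (nat_lit 8192) (.ev (nat_lit 4608)
 (nat_lit 32) (.ev (nat_lit 4964) (nat_lit 1024) (.ev (nat_lit 4973) (nat_lit 4096) .dd))))) (.br (nat_lit 6)
 (.ch (nat_lit 5) (.ev (nat_lit 1328) (nat_lit 1056) (.fin (nat_lit 576508580722066070)))) (.ch (nat_lit 6)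
 (.ev (nat_lit 1328) (nat_lit 4096) (.nd (nat_lit 3216) (.br (nat_lit 4) (.br (nat_lit 3) (.ch (nat_lit 0) (.ev
 (nat_lit 3232) (nat_lit 32) (.ev (nat_lit 4848) (nat_lit 9216) .dd))) (.ch (nat_lit 3) (.ev (nat_lit 3232)
 (nat_lit 1024) (.ev (nat_lit 3444) (nat_lit 32) (.ev (nat_lit 3453) (nat_lit 8192) .dd))))) (.br (nat_lit 6)
 (.ch (nat_lit 4) (.ev (nat_lit 3252) (nat_lit 1024) (.ev (nat_lit 4964) (nat_lit 32) (.ev (nat_lit 4973)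
 (nat_lit 8192) .dd)))) (.ch (nat_lit 6) (.ev (nat_lit 3232) (nat_lit 8192) (.fin (nat_lit
 576419520482591367))))))))))))))) (.ch (nat_lit 6) (.ev (nat_lit 576) (nat_lit 32) (.nd (nat_lit 1264) (.br
 (nat_lit 3) (.br (nat_lit 1) (.ch (nat_lit 0) (.nd (nat_lit 2096) (.br (nat_lit 2) (.br (nat_lit 1) (.ch
 (nat_lit 0) (.ev (nat_lit 2112) (nat_lit 131072) (.ev (nat_lit 2228) (nat_lit 1024) (.ev (nat_lit 3124)
 (nat_lit 8192) (.ev (nat_lit 3133) (nat_lit 4096) .dd))))) (.ch (nat_lit 1) (.ev (nat_lit 2112) (nat_lit 4096)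
 (.ev (nat_lit 3316) (nat_lit 8192) (.ev (nat_lit 3668) (nat_lit 1024) (.ev (nat_lit 3677) (nat_lit 131072)
 .dd)))))) (.br (nat_lit 6) (.ch (nat_lit 2) (.ev (nat_lit 2112) (nat_lit 5120) (.fin (nat_lit
 576461302055518798)))) (.ch (nat_lit 6) (.ev (nat_lit 2112) (nat_lit 13312) (.ev (nat_lit 2125) (nat_lit
 131072) .dd))))))) (.ch (nat_lit 1) (.ev (nat_lit 1280) (nat_lit 135168) (.nd (nat_lit 2896) (.br (nat_lit 3)
 (.ch (nat_lit 2) (.ev (nat_lit 4644) (nat_lit 8192) (.ev (nat_lit 4653) (nat_lit 1024) .dd))) (.br (nat_lit 5)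
 (.ch (nat_lit 3) (.ev (nat_lit 2932) (nat_lit 1024) (.ev (nat_lit 2941) (nat_lit 8192) .dd))) (.ch (nat_lit 5)
 (.ev (nat_lit 2932) (nat_lit 1024) (.ev (nat_lit 2941) (nat_lit 8192) .dd))))))))) (.br (nat_lit 4) (.ch
 (nat_lit 3) (.ev (nat_lit 1280) (nat_lit 12288) (.ev (nat_lit 4576) (nat_lit 132096) .dd))) (.br (nat_lit 6)
 (.ch (nat_lit 4) (.ev (nat_lit 1300) (nat_lit 1024) (.ev (nat_lit 1956) (nat_lit 131072) (.ev (nat_lit 2260)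
 (nat_lit 4096) (.ev (nat_lit 2269) (nat_lit 8192) .dd))))) (.ch (nat_lit 6) (.ev (nat_lit 1280) (nat_lit 1024)
 (.nd (nat_lit 2176) (.br (nat_lit 2) (.br (nat_lit 1) (.ch (nat_lit 0) (.ev (nat_lit 2192) (nat_lit 131072)
 (.ev (nat_lit 3108) (nat_lit 8192) (.ev (nat_lit 3117) (nat_lit 4096) .dd)))) (.ch (nat_lit 1) (.ev (nat_lit
 2192) (nat_lit 4096) (.fin (nat_lit 576377739085824508))))) (.br (nat_lit 5) (.ch (nat_lit 2) (.ev (nat_lit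
 2192) (nat_lit 8192) (.ev (nat_lit 4916) (nat_lit 4096) (.ev (nat_lit 4925) (nat_lit 131072) .dd)))) (.ch
 (nat_lit 5) (.ev (nat_lit 2192) (nat_lit 4096) (.ev (nat_lit 5124) (nat_lit 131072) (.ev (nat_lit 5133)
 (nat_lit 8192) .dd)))))))))))))))))))))) (.br (nat_lit 5) (.ch (nat_lit 4) (.ev (nat_lit 176) (nat_lit 10240)
 (.nd (nat_lit 896) (.br (nat_lit 2) (.br (nat_lit 1) (.ch (nat_lit 0) (.ev (nat_lit 1028) (nat_lit 1024) (.nd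
 (nat_lit 1360) (.br (nat_lit 2) (.br (nat_lit 1) (.ch (nat_lit 0) (.ev (nat_lit 1376) (nat_lit 64) (.nd
 (nat_lit 3216) (.br (nat_lit 5) (.br (nat_lit 4) (.ch (nat_lit 1) (.ev (nat_lit 3232) (nat_lit 131072) (.fin
 (nat_lit 576432714726982205)))) (.ch (nat_lit 4) (.ev (nat_lit 3232) (nat_lit 4096) (.ev (nat_lit 4196)
 (nat_lit 131072) (.ev (nat_lit 4205) (nat_lit 32) .dd))))) (.br (nat_lit 6) (.ch (nat_lit 5) (.ev (nat_lit
 3232) (nat_lit 32) (.ev (nat_lit 4164) (nat_lit 131072) (.ev (nat_lit 4173) (nat_lit 4096) .dd)))) (.ch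
 (nat_lit 6) (.ev (nat_lit 3232) (nat_lit 131072) (.ev (nat_lit 3316) (nat_lit 4096) (.ev (nat_lit 3325)
 (nat_lit 32) .dd))))))))) (.ch (nat_lit 1) (.ev (nat_lit 1376) (nat_lit 4128) (.fin (nat_lit
 576452505964593733))))) (.br (nat_lit 4) (.ch (nat_lit 2) (.ev (nat_lit 1376) (nat_lit 135168) (.ev (nat_lit
 4564) (nat_lit 64) (.ev (nat_lit 4573) (nat_lit 32) .dd)))) (.br (nat_lit 6) (.ch (nat_lit 4) (.ev (nat_lit
 1376) (nat_lit 64) (.ev (nat_lit 1520) (nat_lit 32) (.ev (nat_lit 4756) (nat_lit 4096) (.ev (nat_lit 4765)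
 (nat_lit 131072) .dd))))) (.ch (nat_lit 6) (.ev (nat_lit 1396) (nat_lit 32) (.ev (nat_lit 2228) (nat_lit 4160)
 (.ev (nat_lit 2237) (nat_lit 131072) .dd)))))))))) (.ch (nat_lit 1) (.ev (nat_lit 912) (nat_lit 1056) (.nd
 (nat_lit 1856) (.br (nat_lit 2) (.br (nat_lit 1) (.ch (nat_lit 0) (.ev (nat_lit 1872) (nat_lit 131072) (.ev
 (nat_lit 4452) (nat_lit 4096) (.ev (nat_lit 4461) (nat_lit 64) .dd)))) (.ch (nat_lit 1) (.ev (nat_lit 1872)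
 (nat_lit 64) (.ev (nat_lit 3668) (nat_lit 131072) (.ev (nat_lit 3677) (nat_lit 4096) .dd))))) (.br (nat_lit 3)
 (.ch (nat_lit 2) (.ev (nat_lit 1892) (nat_lit 4096) (.ev (nat_lit 5056) (nat_lit 64) (.ev (nat_lit 5069)
 (nat_lit 131072) .dd)))) (.br (nat_lit 4) (.ch (nat_lit 3) (.ev (nat_lit 1872) (nat_lit 131072) (.ev (nat_lit
 4372) (nat_lit 64) (.ev (nat_lit 4381) (nat_lit 4096) .dd)))) (.ch (nat_lit 4) (.ev (nat_lit 1872) (nat_lit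
 4160) (.ev (nat_lit 1885) (nat_lit 131072) .dd)))))))))) (.br (nat_lit 5) (.ch (nat_lit 2) (.ev (nat_lit 912)
 (nat_lit 135232) (.fin (nat_lit 576461302034547236)))) (.br (nat_lit 6) (.ch (nat_lit 5) (.ev (nat_lit 912)
 (nat_lit 1024) (.nd (nat_lit 1584) (.br (nat_lit 4) (.br (nat_lit 2) (.ch (nat_lit 0) (.ev (nat_lit 1600)
 (nat_lit 131072) (.ev (nat_lit 1620) (nat_lit 4096) (.ev (nat_lit 2388) (nat_lit 64) (.ev (nat_lit 2397)
 (nat_lit 32) .dd))))) (.ch (nat_lit 2) (.ev (nat_lit 1600) (nat_lit 4128) (.ev (nat_lit 4864) (nat_lit 131136)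
 .dd)))) (.br (nat_lit 5) (.ch (nat_lit 4) (.ev (nat_lit 1600) (nat_lit 64) (.ev (nat_lit 1620) (nat_lit 4096)
 (.nd (nat_lit 3376) (.br (nat_lit 3) (.br (nat_lit 2) (.ch (nat_lit 1) (.ev (nat_lit 3556) (nat_lit 32) (.ev
 (nat_lit 3565) (nat_lit 131072) .dd))) (.ch (nat_lit 2) (.ev (nat_lit 3392) (nat_lit 32) (.ev (nat_lit 3405)
 (nat_lit 131072) .dd)))) (.br (nat_lit 4) (.ch (nat_lit 3) (.ev (nat_lit 3412) (nat_lit 131072) (.ev (nat_lit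
 3421) (nat_lit 32) .dd))) (.ch (nat_lit 4) (.ev (nat_lit 3392) (nat_lit 131072) (.ev (nat_lit 3405) (nat_lit
 32) .dd))))))))) (.br (nat_lit 6) (.ch (nat_lit 5) (.ev (nat_lit 1600) (nat_lit 96) (.ev (nat_lit 1796)
 (nat_lit 131072) (.ev (nat_lit 1805) (nat_lit 4096) .dd)))) (.ch (nat_lit 6) (.ev (nat_lit 1600) (nat_lit
 131072) (.nd (nat_lit 3376) (.br (nat_lit 3) (.ch (nat_lit 0) (.ev (nat_lit 4656) (nat_lit 32) (.ev (nat_lit
 4756) (nat_lit 64) (.ev (nat_lit 4765) (nat_lit 4096) .dd)))) (.ch (nat_lit 3) (.ev (nat_lit 3392) (nat_lit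
 4096) (.fin (nat_lit 576429416223556144)))))))))))))) (.ch (nat_lit 6) (.ev (nat_lit 912) (nat_lit 131136)
 (.ev (nat_lit 1028) (nat_lit 1024) (.nd (nat_lit 1856) (.br (nat_lit 3) (.br (nat_lit 2) (.ch (nat_lit 0) (.ev
 (nat_lit 1892) (nat_lit 32) (.ev (nat_lit 1901) (nat_lit 4096) .dd))) (.ch (nat_lit 2) (.ev (nat_lit 5044)
 (nat_lit 32) (.ev (nat_lit 5053) (nat_lit 4096) .dd)))) (.br (nat_lit 6) (.ch (nat_lit 3) (.ev (nat_lit 1872)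
 (nat_lit 4128) .dd)) (.ch (nat_lit 6) (.ev (nat_lit 3908) (nat_lit 4096) (.ev (nat_lit 3917) (nat_lit 32)
 .dd))))))))))))))) (.br (nat_lit 6) (.ch (nat_lit 5) (.ev (nat_lit 176) (nat_lit 9248) (.nd (nat_lit 768) (.br
 (nat_lit 4) (.br (nat_lit 1) (.ch (nat_lit 0) (.nd (nat_lit 1664) (.br (nat_lit 2) (.br (nat_lit 1) (.ch
 (nat_lit 0) (.ev (nat_lit 1680) (nat_lit 135168) (.ev (nat_lit 4308) (nat_lit 2048) (.ev (nat_lit 4317)
 (nat_lit 64) .dd)))) (.ch (nat_lit 1) (.ev (nat_lit 1680) (nat_lit 6144) (.fin (nat_lit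
 576638323593266043))))) (.br (nat_lit 3) (.ch (nat_lit 2) (.ev (nat_lit 1680) (nat_lit 4160) (.ev (nat_lit
 5076) (nat_lit 131072) (.ev (nat_lit 5085) (nat_lit 2048) .dd)))) (.br (nat_lit 4) (.ch (nat_lit 3) (.ev
 (nat_lit 1680) (nat_lit 131072) (.nd (nat_lit 3856) (.br (nat_lit 5) (.br (nat_lit 3) (.ch (nat_lit 0) (.ev
 (nat_lit 3872) (nat_lit 2048) (.ev (nat_lit 4596) (nat_lit 64) (.ev (nat_lit 4605) (nat_lit 4096) .dd)))) (.ch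
 (nat_lit 3) (.ev (nat_lit 3872) (nat_lit 64) (.fin (nat_lit 576346952898658798))))) (.br (nat_lit 6) (.ch
 (nat_lit 5) (.ev (nat_lit 4528) (nat_lit 2048) (.ev (nat_lit 4692) (nat_lit 4096) (.ev (nat_lit 4701) (nat_lit
 64) .dd)))) (.ch (nat_lit 6) (.ev (nat_lit 3872) (nat_lit 4096) (.ev (nat_lit 3888) (nat_lit 2112) .dd))))))))
 (.ch (nat_lit 4) (.ev (nat_lit 1680) (nat_lit 2048) (.ev (nat_lit 1700) (nat_lit 4160) (.ev (nat_lit 1709)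
 (nat_lit 131072) .dd))))))))) (.ch (nat_lit 1) (.ev (nat_lit 784) (nat_lit 133120) (.ev (nat_lit 868) (nat_lit
 4096) (.ev (nat_lit 877) (nat_lit 64) .dd))))) (.br (nat_lit 5) (.ch (nat_lit 4) (.ev (nat_lit 784) (nat_lit
 4096) (.nd (nat_lit 1360) (.br (nat_lit 4) (.ch (nat_lit 2) (.ev (nat_lit 1376) (nat_lit 64) (.nd (nat_lit
 3216) (.br (nat_lit 4) (.ch (nat_lit 3) (.ev (nat_lit 4644) (nat_lit 2048) (.ev (nat_lit 4653) (nat_lit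
 131072) .dd))) (.ch (nat_lit 4) (.ev (nat_lit 4916) (nat_lit 2048) (.ev (nat_lit 4925) (nat_lit 131072)
 .dd))))))) (.br (nat_lit 6) (.ch (nat_lit 4) (.ev (nat_lit 4052) (nat_lit 64) (.ev (nat_lit 4784) (nat_lit
 133120) .dd))) (.ch (nat_lit 6) (.ev (nat_lit 1376) (nat_lit 2048) (.ev (nat_lit 4916) (nat_lit 64) (.ev
 (nat_lit 4925) (nat_lit 131072) .dd))))))))) (.ch (nat_lit 5) (.nd (nat_lit 1584) (.br (nat_lit 5) (.br
 (nat_lit 4) (.ch (nat_lit 0) (.ev (nat_lit 1600) (nat_lit 2048) (.ev (nat_lit 1620) (nat_lit 4096) (.ev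
 (nat_lit 4208) (nat_lit 64) (.ev (nat_lit 4221) (nat_lit 131072) .dd))))) (.ch (nat_lit 4) (.ev (nat_lit 4656)
 (nat_lit 2048) (.nd (nat_lit 5616) (.ch (nat_lit 3) (.nd (nat_lit 7408) (.br (nat_lit 3) (.ch (nat_lit 0) (.ev
 (nat_lit 7424) (nat_lit 64) (.fin (nat_lit 575984114009063783)))) (.br (nat_lit 6) (.ch (nat_lit 3) (.ev
 (nat_lit 7424) (nat_lit 131072) (.fin (nat_lit 576421719668376126)))) (.ch (nat_lit 6) (.ev (nat_lit 7424)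
 (nat_lit 4096) (.ev (nat_lit 7444) (nat_lit 64) (.ev (nat_lit 7453) (nat_lit 131072) .dd)))))))))))) (.br
 (nat_lit 6) (.ch (nat_lit 5) (.ev (nat_lit 1600) (nat_lit 4096) (.nd (nat_lit 3376) (.br (nat_lit 2) (.ch
 (nat_lit 1) (.ev (nat_lit 3392) (nat_lit 131072) (.ev (nat_lit 4944) (nat_lit 2112) .dd))) (.br (nat_lit 4)
 (.ch (nat_lit 2) (.nd (nat_lit 7328) (.ch (nat_lit 4) (.nd (nat_lit 8256) (.br (nat_lit 5) (.ch (nat_lit 1)
 (.ev (nat_lit 8272) (nat_lit 2048) (.fin (nat_lit 576499784954102364)))) (.ch (nat_lit 5) (.ev (nat_lit 8272)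
 (nat_lit 64) (.fin (nat_lit 576558058947691101))))))))) (.ch (nat_lit 4) (.ev (nat_lit 3412) (nat_lit 131136)
 (.ev (nat_lit 3421) (nat_lit 2048) .dd)))))))) (.ch (nat_lit 6) (.ev (nat_lit 1600) (nat_lit 131072) (.nd
 (nat_lit 3216) (.br (nat_lit 3) (.ch (nat_lit 1) (.ev (nat_lit 3412) (nat_lit 4096) (.ev (nat_lit 4512)
 (nat_lit 2048) (.ev (nat_lit 4525) (nat_lit 64) .dd)))) (.br (nat_lit 4) (.ch (nat_lit 3) (.ev (nat_lit 3412)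
 (nat_lit 4096) (.fin (nat_lit 576226006713975653)))) (.ch (nat_lit 4) (.ev (nat_lit 3232) (nat_lit 64) (.nd
 (nat_lit 6016) (.br (nat_lit 3) (.ch (nat_lit 1) (.ev (nat_lit 6164) (nat_lit 2048) (.ev (nat_lit 6173)
 (nat_lit 4096) .dd))) (.ch (nat_lit 3) (.fin (nat_lit 576475595683611177))))))))))))))))))))) (.ch (nat_lit 6)
 (.ev (nat_lit 176) (nat_lit 135200) (.nd (nat_lit 528) (.br (nat_lit 4) (.br (nat_lit 1) (.ch (nat_lit 0) (.ev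
 (nat_lit 544) (nat_lit 2048) (.nd (nat_lit 1664) (.br (nat_lit 5) (.br (nat_lit 4) (.ch (nat_lit 0) (.ev
 (nat_lit 1700) (nat_lit 8192) (.ev (nat_lit 4704) (nat_lit 64) (.ev (nat_lit 4717) (nat_lit 1024) .dd)))) (.ch
 (nat_lit 4) (.ev (nat_lit 4916) (nat_lit 8192) (.ev (nat_lit 5124) (nat_lit 1024) (.ev (nat_lit 5133) (nat_lit
 64) .dd))))) (.br (nat_lit 6) (.ch (nat_lit 5) (.ev (nat_lit 1680) (nat_lit 1024) (.ev (nat_lit 3920) (nat_lit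
 8256) .dd))) (.ch (nat_lit 6) (.ev (nat_lit 1680) (nat_lit 8192) (.ev (nat_lit 2356) (nat_lit 64) (.ev
 (nat_lit 2365) (nat_lit 1024) .dd))))))))) (.ch (nat_lit 1) (.ev (nat_lit 544) (nat_lit 8256) (.nd (nat_lit
 1664) (.br (nat_lit 3) (.ch (nat_lit 2) (.ev (nat_lit 1700) (nat_lit 1024) (.ev (nat_lit 1709) (nat_lit 2048)
 .dd))) (.br (nat_lit 5) (.ch (nat_lit 3) (.ev (nat_lit 5012) (nat_lit 1024) (.ev (nat_lit 5021) (nat_lit 2048)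
 .dd))) (.ch (nat_lit 5) (.ev (nat_lit 3988) (nat_lit 2048) (.ev (nat_lit 3997) (nat_lit 1024) .dd)))))))))
 (.br (nat_lit 5) (.ch (nat_lit 4) (.ev (nat_lit 544) (nat_lit 1024) (.nd (nat_lit 1472) (.br (nat_lit 4) (.br
 (nat_lit 2) (.ch (nat_lit 0) (.ev (nat_lit 1488) (nat_lit 2048) (.ev (nat_lit 5044) (nat_lit 8192) (.ev
 (nat_lit 5053) (nat_lit 64) .dd)))) (.ch (nat_lit 2) (.nd (nat_lit 1968) (.br (nat_lit 3) (.ch (nat_lit 2)
 (.ev (nat_lit 1984) (nat_lit 64) (.ev (nat_lit 2260) (nat_lit 8192) (.ev (nat_lit 2269) (nat_lit 2048) .dd))))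
 (.br (nat_lit 5) (.ch (nat_lit 3) (.ev (nat_lit 1984) (nat_lit 8192) (.ev (nat_lit 2404) (nat_lit 2048) (.ev
 (nat_lit 2413) (nat_lit 64) .dd)))) (.ch (nat_lit 5) (.ev (nat_lit 1984) (nat_lit 2048) (.ev (nat_lit 2052)
 (nat_lit 64) (.ev (nat_lit 2061) (nat_lit 8192) .dd))))))))) (.br (nat_lit 5) (.ch (nat_lit 4) (.ev (nat_lit
 1488) (nat_lit 8192) (.ev (nat_lit 3540) (nat_lit 64) (.ev (nat_lit 3549) (nat_lit 2048) .dd)))) (.ch (nat_lit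
 5) (.nd (nat_lit 3856) (.br (nat_lit 6) (.ch (nat_lit 4) (.ev (nat_lit 4784) (nat_lit 64) (.fin (nat_lit
 576471197680091744)))) (.ch (nat_lit 6) (.ev (nat_lit 3872) (nat_lit 64) (.ev (nat_lit 4704) (nat_lit 10240)
 .dd))))))))))) (.br (nat_lit 6) (.ch (nat_lit 5) (.nd (nat_lit 1056) (.br (nat_lit 4) (.br (nat_lit 3) (.ch
 (nat_lit 0) (.ev (nat_lit 1072) (nat_lit 9216) (.ev (nat_lit 1124) (nat_lit 64) (.ev (nat_lit 1133) (nat_lit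
 2048) .dd)))) (.ch (nat_lit 3) (.ev (nat_lit 1072) (nat_lit 2112) (.ev (nat_lit 2388) (nat_lit 8192) (.ev
 (nat_lit 2397) (nat_lit 1024) .dd))))) (.br (nat_lit 5) (.ch (nat_lit 4) (.ev (nat_lit 1072) (nat_lit 1024)
 (.nd (nat_lit 2176) (.br (nat_lit 4) (.br (nat_lit 3) (.ch (nat_lit 2) (.ev (nat_lit 2192) (nat_lit 8192) (.ev
 (nat_lit 2388) (nat_lit 64) (.ev (nat_lit 2397) (nat_lit 2048) .dd)))) (.ch (nat_lit 3) (.ev (nat_lit 2192)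
 (nat_lit 8192) (.ev (nat_lit 4244) (nat_lit 2048) (.ev (nat_lit 4253) (nat_lit 64) .dd))))) (.br (nat_lit 5)
 (.ch (nat_lit 4) (.ev (nat_lit 2192) (nat_lit 64) (.ev (nat_lit 3348) (nat_lit 2048) (.ev (nat_lit 3357)
 (nat_lit 8192) .dd)))) (.ch (nat_lit 5) (.ev (nat_lit 4244) (nat_lit 64) (.fin (nat_lit
 576478894215348783))))))))) (.br (nat_lit 6) (.ch (nat_lit 5) (.ev (nat_lit 1072) (nat_lit 8192) (.ev (nat_lit
 4596) (nat_lit 2048) (.fin (nat_lit 576445908908458553))))) (.ch (nat_lit 6) (.ev (nat_lit 1072) (nat_lit 64)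
 (.ev (nat_lit 1552) (nat_lit 2048) (.nd (nat_lit 2176) (.br (nat_lit 4) (.ch (nat_lit 3) (.ev (nat_lit 2212)
 (nat_lit 1024) (.ev (nat_lit 2221) (nat_lit 8192) .dd))) (.br (nat_lit 6) (.ch (nat_lit 4) (.ev (nat_lit 2212)
 (nat_lit 8192) (.ev (nat_lit 2221) (nat_lit 1024) .dd))) (.ch (nat_lit 6) (.ev (nat_lit 4100) (nat_lit 1024)
 (.ev (nat_lit 4109) (nat_lit 8192) .dd)))))))))))))) (.ch (nat_lit 6) (.ev (nat_lit 544) (nat_lit 9216) (.fin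
 (nat_lit 576434913763869256)))))))))))))))) (.br (nat_lit 6) (.ch (nat_lit 5) (.ev (nat_lit 48) (nat_lit
 40994) (.nd (nat_lit 352) (.br (nat_lit 4) (.br (nat_lit 1) (.ch (nat_lit 0) (.ev (nat_lit 368) (nat_lit
 131072) (.nd (nat_lit 832) (.br (nat_lit 2) (.br (nat_lit 1) (.ch (nat_lit 0) (.ev (nat_lit 848) (nat_lit
 2112) (.nd (nat_lit 1744) (.br (nat_lit 2) (.br (nat_lit 1) (.ch (nat_lit 0) (.ev (nat_lit 1760) (nat_lit 4)
 (.fin (nat_lit 576638323593265574)))) (.ch (nat_lit 1) (.ev (nat_lit 5012) (nat_lit 5120) (.ev (nat_lit 5021)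
 (nat_lit 4) .dd)))) (.br (nat_lit 3) (.ch (nat_lit 2) (.ev (nat_lit 1760) (nat_lit 4096) (.ev (nat_lit 4644)
 (nat_lit 1024) (.ev (nat_lit 4653) (nat_lit 4) .dd)))) (.br (nat_lit 4) (.ch (nat_lit 3) (.ev (nat_lit 1760)
 (nat_lit 4) (.ev (nat_lit 1780) (nat_lit 1024) (.ev (nat_lit 1789) (nat_lit 4096) .dd)))) (.ch (nat_lit 4)
 (.ev (nat_lit 1760) (nat_lit 1024) (.ev (nat_lit 4964) (nat_lit 4) (.ev (nat_lit 4973) (nat_lit 4096)
 .dd)))))))))) (.ch (nat_lit 1) (.ev (nat_lit 848) (nat_lit 4100) (.nd (nat_lit 1856) (.br (nat_lit 4) (.ch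
 (nat_lit 2) (.ev (nat_lit 1892) (nat_lit 1088) (.ev (nat_lit 1901) (nat_lit 2048) .dd))) (.br (nat_lit 5) (.ch
 (nat_lit 4) (.ev (nat_lit 1872) (nat_lit 1024) (.ev (nat_lit 2308) (nat_lit 64) (.ev (nat_lit 2317) (nat_lit
 2048) .dd)))) (.ch (nat_lit 5) (.ev (nat_lit 1892) (nat_lit 1024) (.ev (nat_lit 1908) (nat_lit 2048) (.ev
 (nat_lit 1917) (nat_lit 64) .dd)))))))))) (.br (nat_lit 3) (.ch (nat_lit 2) (.nd (nat_lit 1216) (.br (nat_lit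
 2) (.br (nat_lit 1) (.ch (nat_lit 0) (.ev (nat_lit 1232) (nat_lit 1092) (.nd (nat_lit 3376) (.ch (nat_lit 0)
 (.ev (nat_lit 4564) (nat_lit 2048) (.ev (nat_lit 4573) (nat_lit 4096) .dd)))))) (.ch (nat_lit 1) (.nd (nat_lit
 2096) (.br (nat_lit 4) (.br (nat_lit 3) (.ch (nat_lit 1) (.ev (nat_lit 2112) (nat_lit 1024) (.ev (nat_lit
 2132) (nat_lit 4) (.ev (nat_lit 2964) (nat_lit 4096) (.ev (nat_lit 5092) (nat_lit 64) (.ev (nat_lit 5101)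
 (nat_lit 2048) .dd)))))) (.ch (nat_lit 3) (.ev (nat_lit 2112) (nat_lit 5120) (.ev (nat_lit 2756) (nat_lit 64)
 (.ev (nat_lit 3172) (nat_lit 4) (.ev (nat_lit 3181) (nat_lit 2048) .dd)))))) (.br (nat_lit 6) (.ch (nat_lit 4)
 (.ev (nat_lit 2112) (nat_lit 5124) (.ev (nat_lit 3988) (nat_lit 2048) (.ev (nat_lit 3997) (nat_lit 64) .dd))))
 (.ch (nat_lit 6) (.ev (nat_lit 2112) (nat_lit 2112) (.ev (nat_lit 2996) (nat_lit 4096) (.ev (nat_lit 4340)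
 (nat_lit 1024) (.ev (nat_lit 4349) (nat_lit 4) .dd)))))))))) (.br (nat_lit 3) (.ch (nat_lit 2) (.ev (nat_lit
 1252) (nat_lit 4) (.ev (nat_lit 1396) (nat_lit 1024) (.nd (nat_lit 3376) (.br (nat_lit 4) (.br (nat_lit 1)
 (.ch (nat_lit 0) (.ev (nat_lit 3392) (nat_lit 64) (.ev (nat_lit 3908) (nat_lit 2048) (.ev (nat_lit 3917)
 (nat_lit 4096) .dd)))) (.ch (nat_lit 1) (.ev (nat_lit 3392) (nat_lit 2112) (.ev (nat_lit 3405) (nat_lit 4096)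
 .dd)))) (.br (nat_lit 5) (.ch (nat_lit 4) (.ev (nat_lit 3392) (nat_lit 4160) (.ev (nat_lit 3405) (nat_lit
 2048) .dd))) (.br (nat_lit 6) (.ch (nat_lit 5) (.ev (nat_lit 3392) (nat_lit 4096) (.ev (nat_lit 3908) (nat_lit
 2048) (.ev (nat_lit 3917) (nat_lit 64) .dd)))) (.ch (nat_lit 6) (.ev (nat_lit 3392) (nat_lit 4096) (.ev
 (nat_lit 3908) (nat_lit 2048) (.ev (nat_lit 3917) (nat_lit 64) .dd))))))))))) (.br (nat_lit 6) (.ch (nat_lit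
 3) (.ev (nat_lit 1232) (nat_lit 3136) (.nd (nat_lit 4400) (.br (nat_lit 5) (.ch (nat_lit 0) (.fin (nat_lit
 576451406461354556))) (.ch (nat_lit 5) (.ev (nat_lit 4644) (nat_lit 4) (.ev (nat_lit 4653) (nat_lit 4096)
 .dd))))))) (.ch (nat_lit 6) (.ev (nat_lit 1232) (nat_lit 4096) (.nd (nat_lit 2096) (.br (nat_lit 2) (.br
 (nat_lit 1) (.ch (nat_lit 0) (.ev (nat_lit 2112) (nat_lit 1024) (.ev (nat_lit 2132) (nat_lit 4) (.ev (nat_lit
 2548) (nat_lit 2048) (.ev (nat_lit 2557) (nat_lit 64) .dd))))) (.ch (nat_lit 1) (.ev (nat_lit 2112) (nat_lit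
 1024) (.ev (nat_lit 2308) (nat_lit 4) (.ev (nat_lit 2500) (nat_lit 2048) (.ev (nat_lit 2509) (nat_lit 64)
 .dd)))))) (.br (nat_lit 5) (.ch (nat_lit 2) (.ev (nat_lit 2112) (nat_lit 68) (.ev (nat_lit 3028) (nat_lit
 2048) (.ev (nat_lit 3037) (nat_lit 1024) .dd)))) (.ch (nat_lit 5) (.ev (nat_lit 2112) (nat_lit 2048) (.ev
 (nat_lit 2132) (nat_lit 4) (.ev (nat_lit 4164) (nat_lit 1024) (.ev (nat_lit 4173) (nat_lit 64)
 .dd))))))))))))))) (.br (nat_lit 6) (.ch (nat_lit 3) (.ev (nat_lit 848) (nat_lit 64) (.nd (nat_lit 1744) (.br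
 (nat_lit 4) (.br (nat_lit 2) (.ch (nat_lit 0) (.ev (nat_lit 1760) (nat_lit 4) (.ev (nat_lit 3908) (nat_lit
 1024) (.ev (nat_lit 4452) (nat_lit 2048) (.ev (nat_lit 4461) (nat_lit 4096) .dd))))) (.ch (nat_lit 2) (.ev
 (nat_lit 1760) (nat_lit 2048) (.ev (nat_lit 4564) (nat_lit 4) (.fin (nat_lit 576465700198498972)))))) (.br
 (nat_lit 5) (.ch (nat_lit 4) (.ev (nat_lit 1760) (nat_lit 4096) (.ev (nat_lit 1780) (nat_lit 1024) (.ev
 (nat_lit 3716) (nat_lit 2048) (.ev (nat_lit 3725) (nat_lit 4) .dd))))) (.ch (nat_lit 5) (.ev (nat_lit 1760)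
 (nat_lit 4096) (.nd (nat_lit 4400) (.br (nat_lit 4) (.ch (nat_lit 2) (.ev (nat_lit 4416) (nat_lit 2048) (.ev
 (nat_lit 4848) (nat_lit 1028) .dd))) (.br (nat_lit 5) (.ch (nat_lit 4) (.ev (nat_lit 4416) (nat_lit 1024)
 (.fin (nat_lit 576450306941338177)))) (.ch (nat_lit 5) (.ev (nat_lit 4416) (nat_lit 4) (.ev (nat_lit 4756)
 (nat_lit 1024) (.ev (nat_lit 4765) (nat_lit 2048) .dd)))))))))))))) (.ch (nat_lit 6) (.ev (nat_lit 848)
 (nat_lit 1028) (.nd (nat_lit 1744) (.br (nat_lit 5) (.br (nat_lit 4) (.ch (nat_lit 0) (.ev (nat_lit 1760)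
 (nat_lit 64) (.ev (nat_lit 2228) (nat_lit 2048) (.ev (nat_lit 2237) (nat_lit 4096) .dd)))) (.ch (nat_lit 4)
 (.ev (nat_lit 1780) (nat_lit 64) (.nd (nat_lit 4400) (.br (nat_lit 3) (.ch (nat_lit 1) (.ev (nat_lit 4416)
 (nat_lit 2048) (.ev (nat_lit 4429) (nat_lit 4096) .dd))) (.br (nat_lit 4) (.ch (nat_lit 3) (.ev (nat_lit 4416)
 (nat_lit 4096) (.ev (nat_lit 4429) (nat_lit 2048) .dd))) (.ch (nat_lit 4) (.ev (nat_lit 4416) (nat_lit 4096)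
 (.ev (nat_lit 4429) (nat_lit 2048) .dd))))))))) (.br (nat_lit 6) (.ch (nat_lit 5) (.ev (nat_lit 1760) (nat_lit
 2048) (.ev (nat_lit 4836) (nat_lit 64) (.ev (nat_lit 4845) (nat_lit 4096) .dd)))) (.ch (nat_lit 6) (.ev
 (nat_lit 1760) (nat_lit 4096) (.ev (nat_lit 4692) (nat_lit 64) (.ev (nat_lit 4701) (nat_lit 2048)
 .dd))))))))))))))) (.ch (nat_lit 1) (.ev (nat_lit 368) (nat_lit 3136) (.nd (nat_lit 976) (.br (nat_lit 3) (.br
 (nat_lit 1) (.ch (nat_lit 0) (.ev (nat_lit 992) (nat_lit 4) (.nd (nat_lit 1968) (.br (nat_lit 5) (.ch (nat_lit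
 1) (.fin (nat_lit 576442610366235201))) (.br (nat_lit 6) (.ch (nat_lit 5) (.ev (nat_lit 4964) (nat_lit 4096)
 (.ev (nat_lit 4973) (nat_lit 131072) .dd))) (.ch (nat_lit 6) (.ev (nat_lit 4692) (nat_lit 131072) (.ev
 (nat_lit 4701) (nat_lit 4096) .dd)))))))) (.ch (nat_lit 1) (.nd (nat_lit 1856) (.br (nat_lit 2) (.br (nat_lit
 1) (.ch (nat_lit 0) (.ev (nat_lit 1872) (nat_lit 131072) (.ev (nat_lit 4916) (nat_lit 4096) (.ev (nat_lit
 4925) (nat_lit 4) .dd)))) (.ch (nat_lit 1) (.ev (nat_lit 1872) (nat_lit 131072) (.ev (nat_lit 1940) (nat_lit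
 4) (.ev (nat_lit 1949) (nat_lit 4096) .dd))))) (.br (nat_lit 3) (.ch (nat_lit 2) (.ev (nat_lit 1872) (nat_lit
 4100) (.ev (nat_lit 1885) (nat_lit 131072) .dd))) (.br (nat_lit 5) (.ch (nat_lit 3) (.ev (nat_lit 1872)
 (nat_lit 4096) (.ev (nat_lit 4964) (nat_lit 4) (.ev (nat_lit 4973) (nat_lit 131072) .dd)))) (.ch (nat_lit 5)
 (.ev (nat_lit 1872) (nat_lit 4) (.ev (nat_lit 5044) (nat_lit 4096) (.ev (nat_lit 5053) (nat_lit 131072)
 .dd)))))))))) (.br (nat_lit 5) (.ch (nat_lit 3) (.ev (nat_lit 992) (nat_lit 4100) (.ev (nat_lit 1005) (nat_lit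
 131072) .dd))) (.br (nat_lit 6) (.ch (nat_lit 5) (.ev (nat_lit 992) (nat_lit 131072) (.nd (nat_lit 1856) (.br
 (nat_lit 4) (.br (nat_lit 3) (.ch (nat_lit 1) (.ev (nat_lit 1872) (nat_lit 4) (.ev (nat_lit 1885) (nat_lit
 4096) .dd))) (.ch (nat_lit 3) (.ev (nat_lit 4756) (nat_lit 4) (.ev (nat_lit 4765) (nat_lit 4096) .dd)))) (.br
 (nat_lit 6) (.ch (nat_lit 4) (.ev (nat_lit 4916) (nat_lit 4) (.ev (nat_lit 4925) (nat_lit 4096) .dd))) (.ch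
 (nat_lit 6) (.ev (nat_lit 1872) (nat_lit 4096) (.ev (nat_lit 1885) (nat_lit 4) .dd)))))))) (.ch (nat_lit 6)
 (.ev (nat_lit 992) (nat_lit 4096) (.nd (nat_lit 1856) (.br (nat_lit 4) (.br (nat_lit 3) (.ch (nat_lit 0) (.ev
 (nat_lit 4740) (nat_lit 131072) (.ev (nat_lit 4749) (nat_lit 4) .dd))) (.ch (nat_lit 3) (.ev (nat_lit 1872)
 (nat_lit 131072) (.ev (nat_lit 1885) (nat_lit 4) .dd)))) (.br (nat_lit 6) (.ch (nat_lit 4) (.ev (nat_lit 1872)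
 (nat_lit 4) (.ev (nat_lit 1885) (nat_lit 131072) .dd))) (.ch (nat_lit 6) (.fin (nat_lit
 576458003523781185))))))))))))))) (.br (nat_lit 5) (.ch (nat_lit 4) (.ev (nat_lit 368) (nat_lit 131076) (.nd
 (nat_lit 976) (.br (nat_lit 3) (.br (nat_lit 2) (.ch (nat_lit 1) (.ev (nat_lit 992) (nat_lit 4096) (.nd
 (nat_lit 1744) (.br (nat_lit 2) (.br (nat_lit 1) (.ch (nat_lit 0) (.ev (nat_lit 1760) (nat_lit 2112) (.ev
 (nat_lit 1773) (nat_lit 1024) .dd))) (.ch (nat_lit 1) (.ev (nat_lit 1760) (nat_lit 2048) (.ev (nat_lit 1892)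
 (nat_lit 64) (.ev (nat_lit 1901) (nat_lit 1024) .dd))))) (.br (nat_lit 3) (.ch (nat_lit 2) (.ev (nat_lit 1760)
 (nat_lit 1024) (.ev (nat_lit 1780) (nat_lit 2048) (.ev (nat_lit 1789) (nat_lit 64) .dd)))) (.br (nat_lit 5)
 (.ch (nat_lit 3) (.ev (nat_lit 4692) (nat_lit 1024) (.ev (nat_lit 4836) (nat_lit 2048) (.ev (nat_lit 4845)
 (nat_lit 64) .dd)))) (.ch (nat_lit 5) (.nd (nat_lit 5408) (.br (nat_lit 3) (.ch (nat_lit 2) (.nd (nat_lit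
 6912) (.br (nat_lit 4) (.ch (nat_lit 3) (.ev (nat_lit 6928) (nat_lit 2048) (.fin (nat_lit
 576492088345444942)))) (.ch (nat_lit 4) (.ev (nat_lit 6928) (nat_lit 1024) (.fin (nat_lit
 576905504616825495))))))) (.ch (nat_lit 3) (.ev (nat_lit 5424) (nat_lit 64) (.fin (nat_lit
 576487690219242110))))))))))))) (.ch (nat_lit 2) (.ev (nat_lit 992) (nat_lit 4096) (.nd (nat_lit 1856) (.br
 (nat_lit 3) (.br (nat_lit 2) (.ch (nat_lit 0) (.ev (nat_lit 1872) (nat_lit 2112) (.ev (nat_lit 1885) (nat_lit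
 1024) .dd))) (.ch (nat_lit 2) (.ev (nat_lit 1872) (nat_lit 2048) (.ev (nat_lit 1908) (nat_lit 64) (.ev
 (nat_lit 1917) (nat_lit 1024) .dd))))) (.br (nat_lit 5) (.ch (nat_lit 3) (.ev (nat_lit 1892) (nat_lit 1088)
 (.ev (nat_lit 1901) (nat_lit 2048) .dd))) (.br (nat_lit 6) (.ch (nat_lit 5) (.ev (nat_lit 4244) (nat_lit 1024)
 (.fin (nat_lit 576464600590402111)))) (.ch (nat_lit 6) (.ev (nat_lit 1872) (nat_lit 1088) (.ev (nat_lit 1885)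
 (nat_lit 2048) .dd)))))))))) (.br (nat_lit 4) (.ch (nat_lit 3) (.ev (nat_lit 992) (nat_lit 3136) (.ev (nat_lit
 1005) (nat_lit 4096) .dd))) (.br (nat_lit 6) (.ch (nat_lit 4) (.ev (nat_lit 992) (nat_lit 2048) (.nd (nat_lit
 1856) (.br (nat_lit 2) (.br (nat_lit 1) (.ch (nat_lit 0) (.ev (nat_lit 1872) (nat_lit 4160) (.ev (nat_lit
 1885) (nat_lit 1024) .dd))) (.ch (nat_lit 1) (.ev (nat_lit 1872) (nat_lit 1024) (.ev (nat_lit 1892) (nat_lit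
 64) (.ev (nat_lit 1901) (nat_lit 4096) .dd))))) (.br (nat_lit 6) (.ch (nat_lit 2) (.nd (nat_lit 5664) (.br
 (nat_lit 2) (.ch (nat_lit 0) (.ev (nat_lit 5680) (nat_lit 1024) (.fin (nat_lit 576465700060086730)))) (.br
 (nat_lit 5) (.ch (nat_lit 2) (.ev (nat_lit 5680) (nat_lit 4096) (.fin (nat_lit 576476694714991175)))) (.ch
 (nat_lit 5) (.ev (nat_lit 5680) (nat_lit 64) (.ev (nat_lit 5700) (nat_lit 1024) (.ev (nat_lit 5709) (nat_lit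
 4096) .dd)))))))) (.ch (nat_lit 6) (.ev (nat_lit 1872) (nat_lit 4096) (.ev (nat_lit 4768) (nat_lit 64) (.ev
 (nat_lit 4781) (nat_lit 1024) .dd))))))))) (.ch (nat_lit 6) (.ev (nat_lit 992) (nat_lit 64) (.nd (nat_lit
 1856) (.br (nat_lit 2) (.br (nat_lit 1) (.ch (nat_lit 0) (.ev (nat_lit 4964) (nat_lit 1024) (.nd (nat_lit
 5664) (.br (nat_lit 1) (.ch (nat_lit 0) (.nd (nat_lit 6944) (.br (nat_lit 3) (.ch (nat_lit 0) (.fin (nat_lit
 576487690313613866))) (.ch (nat_lit 3) (.fin (nat_lit 576432714396680415)))))) (.ch (nat_lit 1) (.ev (nat_lit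
 5680) (nat_lit 6144) .dd)))))) (.ch (nat_lit 1) (.ev (nat_lit 1872) (nat_lit 4096) (.ev (nat_lit 4916)
 (nat_lit 2048) (.ev (nat_lit 4925) (nat_lit 1024) .dd))))) (.br (nat_lit 4) (.ch (nat_lit 2) (.ev (nat_lit
 1872) (nat_lit 5120) (.ev (nat_lit 1885) (nat_lit 2048) .dd))) (.br (nat_lit 5) (.ch (nat_lit 4) (.ev (nat_lit
 1872) (nat_lit 3072) (.ev (nat_lit 1885) (nat_lit 4096) .dd))) (.ch (nat_lit 5) (.ev (nat_lit 1892) (nat_lit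
 2048) (.nd (nat_lit 5648) (.ch (nat_lit 5) (.nd (nat_lit 7488) (.br (nat_lit 6) (.ch (nat_lit 1) (.ev (nat_lit
 7508) (nat_lit 1024) (.ev (nat_lit 7517) (nat_lit 4096) .dd))) (.ch (nat_lit 6) (.fin (nat_lit
 576499784954102343))))))))))))))))))))) (.br (nat_lit 6) (.ch (nat_lit 5) (.ev (nat_lit 368) (nat_lit 2048)
 (.nd (nat_lit 896) (.br (nat_lit 4) (.br (nat_lit 3) (.ch (nat_lit 0) (.ev (nat_lit 912) (nat_lit 4100) (.ev
 (nat_lit 932) (nat_lit 1024) (.nd (nat_lit 1856) (.br (nat_lit 3) (.br (nat_lit 2) (.ch (nat_lit 1) (.ev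
 (nat_lit 1872) (nat_lit 131136) .dd)) (.ch (nat_lit 2) (.ev (nat_lit 1872) (nat_lit 131136) .dd))) (.br
 (nat_lit 4) (.ch (nat_lit 3) (.ev (nat_lit 1908) (nat_lit 64) (.ev (nat_lit 1917) (nat_lit 131072) .dd))) (.br
 (nat_lit 6) (.ch (nat_lit 4) (.ev (nat_lit 1892) (nat_lit 131072) (.ev (nat_lit 1901) (nat_lit 64) .dd))) (.ch
 (nat_lit 6) (.ev (nat_lit 2356) (nat_lit 64) (.ev (nat_lit 2365) (nat_lit 131072) .dd)))))))))) (.ch (nat_lit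
 3) (.ev (nat_lit 912) (nat_lit 132096) (.nd (nat_lit 1856) (.br (nat_lit 4) (.br (nat_lit 3) (.ch (nat_lit 2)
 (.ev (nat_lit 4388) (nat_lit 4096) (.nd (nat_lit 5760) (.br (nat_lit 5) (.ch (nat_lit 3) (.ev (nat_lit 5776)
 (nat_lit 4) (.ev (nat_lit 5789) (nat_lit 64) .dd))) (.ch (nat_lit 5) (.fin (nat_lit 576461302049227335)))))))
 (.ch (nat_lit 3) (.ev (nat_lit 1872) (nat_lit 64) (.ev (nat_lit 1892) (nat_lit 4) (.ev (nat_lit 1901) (nat_lit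
 4096) .dd))))) (.br (nat_lit 5) (.ch (nat_lit 4) (.ev (nat_lit 1872) (nat_lit 4) (.ev (nat_lit 3700) (nat_lit
 4096) (.ev (nat_lit 3709) (nat_lit 64) .dd)))) (.ch (nat_lit 5) (.ev (nat_lit 1872) (nat_lit 4) (.ev (nat_lit
 4464) (nat_lit 4096) (.ev (nat_lit 4477) (nat_lit 64) .dd)))))))))) (.br (nat_lit 5) (.ch (nat_lit 4) (.ev
 (nat_lit 912) (nat_lit 4) (.ev (nat_lit 1044) (nat_lit 1024) (.nd (nat_lit 1968) (.br (nat_lit 2) (.br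
 (nat_lit 1) (.ch (nat_lit 0) (.ev (nat_lit 1984) (nat_lit 4160) (.ev (nat_lit 1997) (nat_lit 131072) .dd)))
 (.ch (nat_lit 1) (.ev (nat_lit 3364) (nat_lit 131072) (.ev (nat_lit 4740) (nat_lit 64) (.ev (nat_lit 4749)
 (nat_lit 4096) .dd))))) (.br (nat_lit 5) (.ch (nat_lit 2) (.ev (nat_lit 1984) (nat_lit 135232) .dd)) (.br
 (nat_lit 6) (.ch (nat_lit 5) (.ev (nat_lit 4452) (nat_lit 64) (.fin (nat_lit 576476695265493575)))) (.ch
 (nat_lit 6) (.ev (nat_lit 1984) (nat_lit 131072) (.ev (nat_lit 2212) (nat_lit 4096) (.ev (nat_lit 2221)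
 (nat_lit 64) .dd))))))))))) (.br (nat_lit 6) (.ch (nat_lit 5) (.nd (nat_lit 1856) (.br (nat_lit 4) (.br
 (nat_lit 2) (.ch (nat_lit 0) (.ev (nat_lit 1872) (nat_lit 4100) (.ev (nat_lit 5124) (nat_lit 64) (.nd (nat_lit
 5856) (.br (nat_lit 4) (.ch (nat_lit 3) (.fin (nat_lit 576439311825060376))) (.ch (nat_lit 4) (.ev (nat_lit
 5872) (nat_lit 132096) .dd))))))) (.ch (nat_lit 2) (.ev (nat_lit 1872) (nat_lit 1024) (.ev (nat_lit 4496)
 (nat_lit 64) (.ev (nat_lit 5076) (nat_lit 4096) (.ev (nat_lit 5124) (nat_lit 131072) (.ev (nat_lit 5133)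
 (nat_lit 4) .dd))))))) (.br (nat_lit 5) (.ch (nat_lit 4) (.ev (nat_lit 1872) (nat_lit 131072) (.ev (nat_lit
 1892) (nat_lit 5120) (.ev (nat_lit 3348) (nat_lit 4) (.ev (nat_lit 3357) (nat_lit 64) .dd))))) (.br (nat_lit
 6) (.ch (nat_lit 5) (.ev (nat_lit 1892) (nat_lit 131076) (.ev (nat_lit 1908) (nat_lit 1024) (.ev (nat_lit
 3988) (nat_lit 64) (.ev (nat_lit 3997) (nat_lit 4096) .dd))))) (.ch (nat_lit 6) (.ev (nat_lit 1872) (nat_lit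
 5184) (.ev (nat_lit 4016) (nat_lit 131072) (.ev (nat_lit 4029) (nat_lit 4) .dd))))))))) (.ch (nat_lit 6) (.ev
 (nat_lit 912) (nat_lit 132160) (.nd (nat_lit 1360) (.br (nat_lit 4) (.br (nat_lit 1) (.ch (nat_lit 0) (.ev
 (nat_lit 1376) (nat_lit 4) (.ev (nat_lit 1389) (nat_lit 4096) .dd))) (.ch (nat_lit 1) (.ev (nat_lit 1376)
 (nat_lit 4096) (.ev (nat_lit 1389) (nat_lit 4) .dd)))) (.br (nat_lit 5) (.ch (nat_lit 4) (.ev (nat_lit 1376)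
 (nat_lit 4) (.ev (nat_lit 1389) (nat_lit 4096) .dd))) (.br (nat_lit 6) (.ch (nat_lit 5) (.ev (nat_lit 4848)
 (nat_lit 4096) (.ev (nat_lit 4861) (nat_lit 4) .dd))) (.ch (nat_lit 6) (.ev (nat_lit 1812) (nat_lit 4096) (.ev
 (nat_lit 1821) (nat_lit 4) .dd))))))))))))))) (.ch (nat_lit 6) (.ev (nat_lit 368) (nat_lit 4164) (.nd (nat_lit
 896) (.br (nat_lit 4) (.br (nat_lit 3) (.ch (nat_lit 2) (.nd (nat_lit 1856) (.br (nat_lit 3) (.br (nat_lit 2)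
 (.ch (nat_lit 1) (.ev (nat_lit 1872) (nat_lit 2048) (.ev (nat_lit 3988) (nat_lit 131072) (.ev (nat_lit 3997)
 (nat_lit 1024) .dd)))) (.ch (nat_lit 2) (.ev (nat_lit 1872) (nat_lit 3072) (.ev (nat_lit 1885) (nat_lit
 131072) .dd)))) (.br (nat_lit 4) (.ch (nat_lit 3) (.ev (nat_lit 1872) (nat_lit 131072) (.ev (nat_lit 2260)
 (nat_lit 1024) (.ev (nat_lit 2269) (nat_lit 2048) .dd)))) (.br (nat_lit 6) (.ch (nat_lit 4) (.ev (nat_lit
 1872) (nat_lit 132096) (.ev (nat_lit 1885) (nat_lit 2048) .dd))) (.ch (nat_lit 6) (.ev (nat_lit 1872) (nat_lit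
 1024) (.ev (nat_lit 1924) (nat_lit 2048) (.ev (nat_lit 1933) (nat_lit 131072) .dd))))))))) (.ch (nat_lit 3)
 (.ev (nat_lit 912) (nat_lit 1024) (.nd (nat_lit 1744) (.br (nat_lit 3) (.ch (nat_lit 0) (.ev (nat_lit 4784)
 (nat_lit 133120) .dd)) (.br (nat_lit 4) (.ch (nat_lit 3) (.ev (nat_lit 4644) (nat_lit 131072) (.ev (nat_lit
 4653) (nat_lit 2048) .dd))) (.ch (nat_lit 4) (.ev (nat_lit 1760) (nat_lit 131072) (.ev (nat_lit 1773) (nat_lit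
 2048) .dd))))))))) (.br (nat_lit 5) (.ch (nat_lit 4) (.ev (nat_lit 912) (nat_lit 133120) (.ev (nat_lit 925)
 (nat_lit 1024) .dd))) (.ch (nat_lit 5) (.nd (nat_lit 1408) (.br (nat_lit 5) (.br (nat_lit 3) (.ch (nat_lit 1)
 (.ev (nat_lit 1424) (nat_lit 1024) (.ev (nat_lit 3988) (nat_lit 2048) (.ev (nat_lit 3997) (nat_lit 131072)
 .dd)))) (.ch (nat_lit 3) (.ev (nat_lit 1424) (nat_lit 2048) (.ev (nat_lit 4836) (nat_lit 1024) (.ev (nat_lit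
 4845) (nat_lit 131072) .dd))))) (.br (nat_lit 6) (.ch (nat_lit 5) (.ev (nat_lit 1424) (nat_lit 131072) (.nd
 (nat_lit 2176) (.br (nat_lit 2) (.ch (nat_lit 0) (.ev (nat_lit 5076) (nat_lit 1024) (.ev (nat_lit 5085)
 (nat_lit 2048) .dd))) (.br (nat_lit 6) (.ch (nat_lit 2) (.ev (nat_lit 4052) (nat_lit 2048) (.ev (nat_lit 4061)
 (nat_lit 1024) .dd))) (.ch (nat_lit 6) (.ev (nat_lit 2740) (nat_lit 1024) (.ev (nat_lit 2749) (nat_lit 2048)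
 .dd)))))))) (.ch (nat_lit 6) (.nd (nat_lit 2176) (.br (nat_lit 5) (.br (nat_lit 3) (.ch (nat_lit 1) (.ev
 (nat_lit 2192) (nat_lit 131072) (.ev (nat_lit 4964) (nat_lit 2048) (.ev (nat_lit 4973) (nat_lit 1024) .dd))))
 (.ch (nat_lit 3) (.ev (nat_lit 2192) (nat_lit 3072) (.ev (nat_lit 2205) (nat_lit 131072) .dd)))) (.br (nat_lit
 6) (.ch (nat_lit 5) (.ev (nat_lit 2192) (nat_lit 1024) (.ev (nat_lit 4544) (nat_lit 133120) .dd))) (.ch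
 (nat_lit 6) (.ev (nat_lit 2192) (nat_lit 131072) (.ev (nat_lit 4224) (nat_lit 3072) .dd))))))))))))))))))))))
 (.ch (nat_lit 6) (.ev (nat_lit 48) (nat_lit 96) (.nd (nat_lit 96) (.br (nat_lit 2) (.br (nat_lit 1) (.ch
 (nat_lit 0) (.ev (nat_lit 112) (nat_lit 140288) (.nd (nat_lit 384) (.br (nat_lit 2) (.br (nat_lit 1) (.ch
 (nat_lit 0) (.ev (nat_lit 400) (nat_lit 4096) (.ev (nat_lit 452) (nat_lit 2) (.nd (nat_lit 1088) (.br (nat_lit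
 3) (.br (nat_lit 1) (.ch (nat_lit 0) (.nd (nat_lit 2096) (.br (nat_lit 4) (.br (nat_lit 1) (.ch (nat_lit 0)
 (.ev (nat_lit 2112) (nat_lit 4) (.ev (nat_lit 4564) (nat_lit 32768) (.ev (nat_lit 4573) (nat_lit 2048) .dd))))
 (.ch (nat_lit 1) (.ev (nat_lit 4564) (nat_lit 32768) (.ev (nat_lit 4740) (nat_lit 2048) (.ev (nat_lit 4749)
 (nat_lit 4) .dd))))) (.br (nat_lit 5) (.ch (nat_lit 4) (.ev (nat_lit 2112) (nat_lit 32768) (.ev (nat_lit 3908)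
 (nat_lit 2048) (.ev (nat_lit 3917) (nat_lit 4) .dd)))) (.ch (nat_lit 5) (.ev (nat_lit 2112) (nat_lit 2052)
 (.ev (nat_lit 2125) (nat_lit 32768) .dd))))))) (.ch (nat_lit 1) (.nd (nat_lit 2096) (.br (nat_lit 2) (.br
 (nat_lit 1) (.ch (nat_lit 0) (.ev (nat_lit 2112) (nat_lit 32768) (.fin (nat_lit 576631726202635133)))) (.ch
 (nat_lit 1) (.ev (nat_lit 2112) (nat_lit 2048) (.ev (nat_lit 4692) (nat_lit 32768) (.ev (nat_lit 4701)
 (nat_lit 4) .dd))))) (.br (nat_lit 4) (.ch (nat_lit 2) (.ev (nat_lit 4644) (nat_lit 4) (.ev (nat_lit 5012)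
 (nat_lit 2048) (.ev (nat_lit 5021) (nat_lit 32768) .dd)))) (.ch (nat_lit 4) (.ev (nat_lit 2112) (nat_lit 4)
 (.ev (nat_lit 4644) (nat_lit 2048) (.ev (nat_lit 4653) (nat_lit 32768) .dd))))))))) (.br (nat_lit 5) (.ch
 (nat_lit 3) (.ev (nat_lit 1104) (nat_lit 32772) (.ev (nat_lit 1117) (nat_lit 2048) .dd))) (.br (nat_lit 6)
 (.ch (nat_lit 5) (.nd (nat_lit 2016) (.br (nat_lit 2) (.br (nat_lit 1) (.ch (nat_lit 0) (.ev (nat_lit 2032)
 (nat_lit 4) (.ev (nat_lit 2308) (nat_lit 32768) (.ev (nat_lit 2317) (nat_lit 2048) .dd)))) (.ch (nat_lit 1)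
 (.ev (nat_lit 2032) (nat_lit 2048) (.ev (nat_lit 4196) (nat_lit 4) (.ev (nat_lit 4205) (nat_lit 32768)
 .dd))))) (.br (nat_lit 4) (.ch (nat_lit 2) (.ev (nat_lit 2032) (nat_lit 34816) (.ev (nat_lit 2045) (nat_lit 4)
 .dd))) (.br (nat_lit 6) (.ch (nat_lit 4) (.ev (nat_lit 2996) (nat_lit 4) (.ev (nat_lit 4340) (nat_lit 2048)
 (.ev (nat_lit 4349) (nat_lit 32768) .dd)))) (.ch (nat_lit 6) (.ev (nat_lit 2032) (nat_lit 34816) (.ev (nat_lit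
 2045) (nat_lit 4) .dd)))))))) (.ch (nat_lit 6) (.ev (nat_lit 1104) (nat_lit 34816) (.ev (nat_lit 1117)
 (nat_lit 4) .dd)))))))))) (.ch (nat_lit 1) (.ev (nat_lit 400) (nat_lit 36864) (.nd (nat_lit 1264) (.br
 (nat_lit 3) (.br (nat_lit 1) (.ch (nat_lit 0) (.nd (nat_lit 2016) (.br (nat_lit 4) (.ch (nat_lit 3) (.ev
 (nat_lit 4100) (nat_lit 4) (.nd (nat_lit 6016) (.br (nat_lit 3) (.ch (nat_lit 0) (.fin (nat_lit
 576456904522809933))) (.ch (nat_lit 3) (.ev (nat_lit 6032) (nat_lit 2048) (.ev (nat_lit 6045) (nat_lit 2)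
 .dd))))))) (.ch (nat_lit 4) (.ev (nat_lit 2032) (nat_lit 4) (.ev (nat_lit 4564) (nat_lit 2048) (.ev (nat_lit
 4573) (nat_lit 2) .dd))))))) (.ch (nat_lit 1) (.ev (nat_lit 1280) (nat_lit 4) (.nd (nat_lit 5440) (.ch
 (nat_lit 5) (.nd (nat_lit 6720) (.br (nat_lit 2) (.ch (nat_lit 0) (.nd (nat_lit 7776) (.br (nat_lit 5) (.ch
 (nat_lit 0) (.ev (nat_lit 7792) (nat_lit 2048) (.ev (nat_lit 7805) (nat_lit 2) .dd))) (.ch (nat_lit 5) (.fin
 (nat_lit 576452506008633946)))))) (.ch (nat_lit 2) (.ev (nat_lit 6736) (nat_lit 2) (.ev (nat_lit 6749)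
 (nat_lit 2048) .dd)))))))))) (.br (nat_lit 4) (.ch (nat_lit 3) (.ev (nat_lit 1280) (nat_lit 4) (.ev (nat_lit
 4244) (nat_lit 2048) (.ev (nat_lit 4253) (nat_lit 2) .dd)))) (.ch (nat_lit 4) (.ev (nat_lit 1280) (nat_lit 2)
 (.nd (nat_lit 2896) (.br (nat_lit 3) (.ch (nat_lit 1) (.ev (nat_lit 4964) (nat_lit 2048) (.ev (nat_lit 4973)
 (nat_lit 4) .dd))) (.br (nat_lit 4) (.ch (nat_lit 3) (.ev (nat_lit 2912) (nat_lit 4) (.ev (nat_lit 2925)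
 (nat_lit 2048) .dd))) (.ch (nat_lit 4) (.fin (nat_lit 576460202562765416)))))))))))))) (.br (nat_lit 3) (.ch
 (nat_lit 2) (.ev (nat_lit 400) (nat_lit 2050) (.nd (nat_lit 1664) (.br (nat_lit 4) (.br (nat_lit 2) (.ch
 (nat_lit 0) (.ev (nat_lit 1680) (nat_lit 4) (.fin (nat_lit 576451406470791712)))) (.ch (nat_lit 2) (.ev
 (nat_lit 1680) (nat_lit 32768) (.ev (nat_lit 5012) (nat_lit 4) (.ev (nat_lit 5021) (nat_lit 4096) .dd)))))
 (.br (nat_lit 5) (.ch (nat_lit 4) (.ev (nat_lit 2356) (nat_lit 32768) (.ev (nat_lit 2420) (nat_lit 4096) (.ev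
 (nat_lit 2429) (nat_lit 4) .dd)))) (.ch (nat_lit 5) (.ev (nat_lit 1680) (nat_lit 4096) (.ev (nat_lit 4916)
 (nat_lit 32768) (.ev (nat_lit 4925) (nat_lit 4) .dd))))))))) (.br (nat_lit 5) (.ch (nat_lit 3) (.ev (nat_lit
 884) (nat_lit 2048) (.nd (nat_lit 1216) (.br (nat_lit 3) (.br (nat_lit 1) (.ch (nat_lit 0) (.ev (nat_lit 1232)
 (nat_lit 32772) (.ev (nat_lit 2356) (nat_lit 2) (.ev (nat_lit 2365) (nat_lit 4096) .dd)))) (.ch (nat_lit 1)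
 (.ev (nat_lit 1232) (nat_lit 32768) (.nd (nat_lit 2464) (.br (nat_lit 5) (.ch (nat_lit 4) (.ev (nat_lit 3364)
 (nat_lit 4096) (.ev (nat_lit 4740) (nat_lit 2) (.ev (nat_lit 4749) (nat_lit 4) .dd)))) (.ch (nat_lit 5) (.ev
 (nat_lit 3188) (nat_lit 2) (.fin (nat_lit 576456903972307533))))))))) (.br (nat_lit 5) (.ch (nat_lit 3) (.nd
 (nat_lit 2464) (.br (nat_lit 3) (.br (nat_lit 1) (.ch (nat_lit 0) (.ev (nat_lit 2500) (nat_lit 4096) (.ev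
 (nat_lit 4512) (nat_lit 2) (.ev (nat_lit 4596) (nat_lit 32768) (.ev (nat_lit 4605) (nat_lit 4) .dd))))) (.ch
 (nat_lit 1) (.ev (nat_lit 2480) (nat_lit 6) (.ev (nat_lit 2500) (nat_lit 4096) (.ev (nat_lit 2509) (nat_lit
 32768) .dd))))) (.br (nat_lit 4) (.ch (nat_lit 3) (.ev (nat_lit 2480) (nat_lit 32772) (.ev (nat_lit 4164)
 (nat_lit 4096) (.ev (nat_lit 4173) (nat_lit 2) .dd)))) (.br (nat_lit 6) (.ch (nat_lit 4) (.ev (nat_lit 2480)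
 (nat_lit 4100) (.ev (nat_lit 3060) (nat_lit 2) (.ev (nat_lit 3069) (nat_lit 32768) .dd)))) (.ch (nat_lit 6)
 (.ev (nat_lit 2480) (nat_lit 36864) (.ev (nat_lit 3828) (nat_lit 2) (.ev (nat_lit 3837) (nat_lit 4)
 .dd))))))))) (.br (nat_lit 6) (.ch (nat_lit 5) (.ev (nat_lit 1232) (nat_lit 4098) (.ev (nat_lit 2212) (nat_lit
 32768) (.ev (nat_lit 2221) (nat_lit 4) .dd)))) (.ch (nat_lit 6) (.ev (nat_lit 1232) (nat_lit 4096) (.nd
 (nat_lit 2096) (.br (nat_lit 3) (.ch (nat_lit 1) (.ev (nat_lit 2112) (nat_lit 32768) (.ev (nat_lit 3700)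
 (nat_lit 4) (.ev (nat_lit 3709) (nat_lit 2) .dd)))) (.br (nat_lit 4) (.ch (nat_lit 3) (.ev (nat_lit 2112)
 (nat_lit 32768) (.ev (nat_lit 2212) (nat_lit 4) (.ev (nat_lit 2221) (nat_lit 2) .dd)))) (.ch (nat_lit 4) (.ev
 (nat_lit 2212) (nat_lit 4) (.fin (nat_lit 576454705002529339))))))))))))))) (.ch (nat_lit 5) (.ev (nat_lit
 400) (nat_lit 32774) (.nd (nat_lit 1472) (.br (nat_lit 4) (.ch (nat_lit 0) (.ev (nat_lit 1488) (nat_lit 2048)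
 (.ev (nat_lit 1501) (nat_lit 4096) .dd))) (.br (nat_lit 5) (.ch (nat_lit 4) (.ev (nat_lit 4848) (nat_lit 4096)
 (.ev (nat_lit 4861) (nat_lit 2048) .dd))) (.ch (nat_lit 5) (.ev (nat_lit 3988) (nat_lit 4096) (.ev (nat_lit
 3997) (nat_lit 2048) .dd)))))))))))))) (.ch (nat_lit 1) (.ev (nat_lit 112) (nat_lit 6144) (.nd (nat_lit 464)
 (.br (nat_lit 4) (.br (nat_lit 1) (.ch (nat_lit 0) (.ev (nat_lit 480) (nat_lit 8192) (.nd (nat_lit 1216) (.br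
 (nat_lit 4) (.br (nat_lit 3) (.ch (nat_lit 2) (.ev (nat_lit 1232) (nat_lit 32774) (.fin (nat_lit
 576453605497193010)))) (.ch (nat_lit 3) (.ev (nat_lit 1232) (nat_lit 1024) (.nd (nat_lit 2176) (.br (nat_lit
 3) (.br (nat_lit 2) (.ch (nat_lit 1) (.ev (nat_lit 2192) (nat_lit 163840) (.ev (nat_lit 4080) (nat_lit 6)
 .dd))) (.ch (nat_lit 2) (.ev (nat_lit 4864) (nat_lit 32768) (.nd (nat_lit 6272) (.br (nat_lit 6) (.ch (nat_lit
 5) (.ev (nat_lit 6288) (nat_lit 4) (.fin (nat_lit 576407425971077745)))) (.ch (nat_lit 6) (.ev (nat_lit 6308)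
 (nat_lit 131072) (.nd (nat_lit 8176) (.ch (nat_lit 1) (.nd (nat_lit 8464) (.br (nat_lit 5) (.ch (nat_lit 2)
 (.fin (nat_lit 576476695239279196))) (.ch (nat_lit 5) (.ev (nat_lit 8480) (nat_lit 2) (.ev (nat_lit 8493)
 (nat_lit 4) .dd)))))))))))))) (.br (nat_lit 6) (.ch (nat_lit 3) (.ev (nat_lit 2192) (nat_lit 131076) (.ev
 (nat_lit 3476) (nat_lit 2) (.ev (nat_lit 3485) (nat_lit 32768) .dd)))) (.ch (nat_lit 6) (.ev (nat_lit 2192)
 (nat_lit 163840) (.ev (nat_lit 4564) (nat_lit 4) (.ev (nat_lit 4573) (nat_lit 2) .dd)))))))))) (.br (nat_lit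
 5) (.ch (nat_lit 4) (.ev (nat_lit 1232) (nat_lit 2) (.nd (nat_lit 2704) (.br (nat_lit 3) (.br (nat_lit 2) (.ch
 (nat_lit 0) (.ev (nat_lit 2720) (nat_lit 1024) (.ev (nat_lit 5076) (nat_lit 32768) (.nd (nat_lit 7040) (.br
 (nat_lit 3) (.ch (nat_lit 0) (.ev (nat_lit 7056) (nat_lit 131072) (.ev (nat_lit 7069) (nat_lit 4) .dd))) (.br
 (nat_lit 4) (.ch (nat_lit 3) (.fin (nat_lit 576438212321821255))) (.ch (nat_lit 4) (.ev (nat_lit 7076)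
 (nat_lit 4) (.ev (nat_lit 7085) (nat_lit 131072) .dd))))))))) (.ch (nat_lit 2) (.ev (nat_lit 2720) (nat_lit
 32772) (.ev (nat_lit 3412) (nat_lit 1024) (.ev (nat_lit 3421) (nat_lit 131072) .dd))))) (.br (nat_lit 4) (.ch
 (nat_lit 3) (.ev (nat_lit 2720) (nat_lit 33792) (.ev (nat_lit 4564) (nat_lit 4) (.ev (nat_lit 4573) (nat_lit
 131072) .dd)))) (.br (nat_lit 5) (.ch (nat_lit 4) (.ev (nat_lit 2720) (nat_lit 132096) (.ev (nat_lit 3508)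
 (nat_lit 4) (.ev (nat_lit 3517) (nat_lit 32768) .dd)))) (.ch (nat_lit 5) (.ev (nat_lit 2720) (nat_lit 131072)
 (.ev (nat_lit 4644) (nat_lit 4) (.ev (nat_lit 4692) (nat_lit 32768) (.ev (nat_lit 4701) (nat_lit 1024)
 .dd))))))))))) (.br (nat_lit 6) (.ch (nat_lit 5) (.ev (nat_lit 1232) (nat_lit 4) (.ev (nat_lit 1444) (nat_lit
 1024) (.ev (nat_lit 2420) (nat_lit 32768) (.ev (nat_lit 2548) (nat_lit 131072) (.ev (nat_lit 2557) (nat_lit 2)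
 .dd)))))) (.ch (nat_lit 6) (.ev (nat_lit 1232) (nat_lit 132096) (.nd (nat_lit 2176) (.br (nat_lit 3) (.ch
 (nat_lit 1) (.ev (nat_lit 2192) (nat_lit 4) (.ev (nat_lit 3476) (nat_lit 32768) (.ev (nat_lit 3485) (nat_lit
 2) .dd)))) (.br (nat_lit 4) (.ch (nat_lit 3) (.ev (nat_lit 2644) (nat_lit 4) (.ev (nat_lit 3444) (nat_lit
 32768) (.ev (nat_lit 3453) (nat_lit 2) .dd)))) (.ch (nat_lit 4) (.ev (nat_lit 2500) (nat_lit 2) (.ev (nat_lit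
 2516) (nat_lit 4) (.ev (nat_lit 2525) (nat_lit 32768) .dd))))))))))))))) (.ch (nat_lit 1) (.ev (nat_lit 480)
 (nat_lit 4) (.nd (nat_lit 1216) (.br (nat_lit 2) (.br (nat_lit 1) (.ch (nat_lit 0) (.ev (nat_lit 1232)
 (nat_lit 140288) (.fin (nat_lit 576434913807909420)))) (.ch (nat_lit 1) (.ev (nat_lit 1232) (nat_lit 32768)
 (.ev (nat_lit 1348) (nat_lit 1024) (.nd (nat_lit 2096) (.br (nat_lit 3) (.br (nat_lit 1) (.ch (nat_lit 0) (.ev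
 (nat_lit 2112) (nat_lit 131072) (.ev (nat_lit 2804) (nat_lit 8192) (.ev (nat_lit 2813) (nat_lit 2) .dd))))
 (.ch (nat_lit 1) (.ev (nat_lit 2112) (nat_lit 8192) (.ev (nat_lit 2308) (nat_lit 2) (.ev (nat_lit 2317)
 (nat_lit 131072) .dd))))) (.br (nat_lit 4) (.ch (nat_lit 3) (.ev (nat_lit 2112) (nat_lit 8192) (.ev (nat_lit
 5076) (nat_lit 2) (.ev (nat_lit 5085) (nat_lit 131072) .dd)))) (.ch (nat_lit 4) (.ev (nat_lit 2112) (nat_lit
 2) (.ev (nat_lit 2132) (nat_lit 131072) (.ev (nat_lit 2141) (nat_lit 8192) .dd))))))))))) (.br (nat_lit 4)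
 (.ch (nat_lit 2) (.ev (nat_lit 1232) (nat_lit 32770) (.ev (nat_lit 1348) (nat_lit 1024) (.nd (nat_lit 2896)
 (.br (nat_lit 3) (.br (nat_lit 2) (.ch (nat_lit 0) (.ev (nat_lit 2912) (nat_lit 131072) (.ev (nat_lit 2925)
 (nat_lit 8192) .dd))) (.ch (nat_lit 2) (.ev (nat_lit 2912) (nat_lit 8192) (.ev (nat_lit 2925) (nat_lit 131072)
 .dd)))) (.br (nat_lit 5) (.ch (nat_lit 3) (.ev (nat_lit 2912) (nat_lit 8192) (.ev (nat_lit 2925) (nat_lit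
 131072) .dd))) (.ch (nat_lit 5) (.ev (nat_lit 2932) (nat_lit 131072) (.ev (nat_lit 2941) (nat_lit 8192)
 .dd))))))))) (.br (nat_lit 6) (.ch (nat_lit 4) (.ev (nat_lit 1232) (nat_lit 32768) (.nd (nat_lit 3216) (.br
 (nat_lit 2) (.br (nat_lit 1) (.ch (nat_lit 0) (.ev (nat_lit 3232) (nat_lit 1026) (.ev (nat_lit 3252) (nat_lit
 131072) (.ev (nat_lit 3261) (nat_lit 8192) .dd)))) (.ch (nat_lit 1) (.ev (nat_lit 3232) (nat_lit 131074) (.ev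
 (nat_lit 4452) (nat_lit 1024) (.ev (nat_lit 4461) (nat_lit 8192) .dd))))) (.br (nat_lit 5) (.ch (nat_lit 2)
 (.ev (nat_lit 3232) (nat_lit 131072) (.ev (nat_lit 4196) (nat_lit 8192) (.ev (nat_lit 5044) (nat_lit 1024)
 (.ev (nat_lit 5053) (nat_lit 2) .dd))))) (.ch (nat_lit 5) (.ev (nat_lit 3232) (nat_lit 9216) (.ev (nat_lit
 3252) (nat_lit 2) (.ev (nat_lit 3261) (nat_lit 131072) .dd))))))))) (.ch (nat_lit 6) (.ev (nat_lit 1232)
 (nat_lit 172032) (.ev (nat_lit 1252) (nat_lit 2) (.ev (nat_lit 1261) (nat_lit 1024) .dd))))))))))) (.br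
 (nat_lit 5) (.ch (nat_lit 4) (.ev (nat_lit 480) (nat_lit 9218) (.nd (nat_lit 1744) (.br (nat_lit 2) (.br
 (nat_lit 1) (.ch (nat_lit 0) (.ev (nat_lit 3316) (nat_lit 4) (.nd (nat_lit 5760) (.br (nat_lit 3) (.ch
 (nat_lit 1) (.fin (nat_lit 576465700117758515))) (.ch (nat_lit 3) (.ev (nat_lit 5776) (nat_lit 163840)
 .dd)))))) (.ch (nat_lit 1) (.ev (nat_lit 1760) (nat_lit 131076) (.ev (nat_lit 1773) (nat_lit 32768) .dd))))
 (.br (nat_lit 3) (.ch (nat_lit 2) (.ev (nat_lit 1760) (nat_lit 32768) (.ev (nat_lit 5056) (nat_lit 131072)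
 (.ev (nat_lit 5069) (nat_lit 4) .dd)))) (.br (nat_lit 5) (.ch (nat_lit 3) (.ev (nat_lit 4052) (nat_lit 4) (.ev
 (nat_lit 5136) (nat_lit 163840) .dd))) (.ch (nat_lit 5) (.ev (nat_lit 1760) (nat_lit 32772) (.ev (nat_lit
 1773) (nat_lit 131072) .dd))))))))) (.br (nat_lit 6) (.ch (nat_lit 5) (.ev (nat_lit 480) (nat_lit 131072) (.nd
 (nat_lit 1152) (.br (nat_lit 2) (.br (nat_lit 1) (.ch (nat_lit 0) (.ev (nat_lit 1168) (nat_lit 32772) (.nd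
 (nat_lit 2096) (.br (nat_lit 5) (.ch (nat_lit 1) (.ev (nat_lit 4564) (nat_lit 1024) (.ev (nat_lit 5172)
 (nat_lit 8192) (.ev (nat_lit 5181) (nat_lit 2) .dd)))) (.br (nat_lit 6) (.ch (nat_lit 5) (.ev (nat_lit 2132)
 (nat_lit 2) (.fin (nat_lit 576496486435996120)))) (.ch (nat_lit 6) (.ev (nat_lit 2112) (nat_lit 1024) (.ev
 (nat_lit 3092) (nat_lit 2) (.ev (nat_lit 3101) (nat_lit 8192) .dd))))))))) (.ch (nat_lit 1) (.ev (nat_lit
 1168) (nat_lit 8192) (.ev (nat_lit 1188) (nat_lit 4) (.ev (nat_lit 5172) (nat_lit 32768) (.ev (nat_lit 5268)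
 (nat_lit 2) (.ev (nat_lit 5277) (nat_lit 1024) .dd))))))) (.br (nat_lit 5) (.ch (nat_lit 2) (.ev (nat_lit
 1168) (nat_lit 1030) (.nd (nat_lit 2016) (.br (nat_lit 3) (.ch (nat_lit 0) (.ev (nat_lit 2308) (nat_lit 8192)
 (.ev (nat_lit 2317) (nat_lit 32768) .dd))) (.ch (nat_lit 3) (.ev (nat_lit 2308) (nat_lit 8192) (.ev (nat_lit
 2317) (nat_lit 32768) .dd))))))) (.br (nat_lit 6) (.ch (nat_lit 5) (.nd (nat_lit 2464) (.br (nat_lit 4) (.br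
 (nat_lit 2) (.ch (nat_lit 0) (.ev (nat_lit 2480) (nat_lit 32768) (.ev (nat_lit 2740) (nat_lit 2) (.ev (nat_lit
 2944) (nat_lit 4) (.ev (nat_lit 4596) (nat_lit 1024) (.ev (nat_lit 4605) (nat_lit 8192) .dd)))))) (.ch
 (nat_lit 2) (.ev (nat_lit 2480) (nat_lit 40962) (.ev (nat_lit 2500) (nat_lit 4) (.ev (nat_lit 2509) (nat_lit
 1024) .dd))))) (.br (nat_lit 6) (.ch (nat_lit 4) (.ev (nat_lit 2480) (nat_lit 6) (.ev (nat_lit 2964) (nat_lit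
 8192) (.ev (nat_lit 3920) (nat_lit 33792) .dd)))) (.ch (nat_lit 6) (.ev (nat_lit 2480) (nat_lit 32768) (.ev
 (nat_lit 2932) (nat_lit 1024) (.ev (nat_lit 2964) (nat_lit 8192) (.ev (nat_lit 4100) (nat_lit 2) (.ev (nat_lit
 4109) (nat_lit 4) .dd)))))))))) (.ch (nat_lit 6) (.ev (nat_lit 1168) (nat_lit 2) (.nd (nat_lit 1968) (.br
 (nat_lit 2) (.br (nat_lit 1) (.ch (nat_lit 0) (.ev (nat_lit 1984) (nat_lit 9216) (.ev (nat_lit 4164) (nat_lit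
 4) (.ev (nat_lit 4173) (nat_lit 32768) .dd)))) (.ch (nat_lit 1) (.ev (nat_lit 1984) (nat_lit 40960) (.ev
 (nat_lit 2052) (nat_lit 4) (.ev (nat_lit 2061) (nat_lit 1024) .dd))))) (.br (nat_lit 3) (.ch (nat_lit 2) (.ev
 (nat_lit 2308) (nat_lit 32768) (.ev (nat_lit 3136) (nat_lit 1024) (.fin (nat_lit 576448107915985462))))) (.br
 (nat_lit 4) (.ch (nat_lit 3) (.ev (nat_lit 1984) (nat_lit 1028) (.ev (nat_lit 3284) (nat_lit 32768) (.ev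
 (nat_lit 3293) (nat_lit 8192) .dd)))) (.ch (nat_lit 4) (.ev (nat_lit 1984) (nat_lit 32768) (.ev (nat_lit 2132)
 (nat_lit 1024) (.ev (nat_lit 3108) (nat_lit 4) (.ev (nat_lit 3117) (nat_lit 8192) .dd))))))))))))))))) (.ch
 (nat_lit 6) (.ev (nat_lit 480) (nat_lit 32774) (.nd (nat_lit 1472) (.br (nat_lit 2) (.ch (nat_lit 0) (.nd
 (nat_lit 3376) (.br (nat_lit 3) (.br (nat_lit 1) (.ch (nat_lit 0) (.ev (nat_lit 3412) (nat_lit 131072) (.nd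
 (nat_lit 6800) (.ch (nat_lit 1) (.nd (nat_lit 8208) (.br (nat_lit 6) (.ch (nat_lit 5) (.fin (nat_lit
 576597641497362605))) (.ch (nat_lit 6) (.ev (nat_lit 8224) (nat_lit 8192) (.ev (nat_lit 8237) (nat_lit 1024)
 .dd))))))))) (.ch (nat_lit 1) (.ev (nat_lit 3392) (nat_lit 1024) (.ev (nat_lit 3412) (nat_lit 131072) (.ev
 (nat_lit 3421) (nat_lit 8192) .dd))))) (.br (nat_lit 5) (.ch (nat_lit 3) (.ev (nat_lit 3392) (nat_lit 8192)
 (.ev (nat_lit 4164) (nat_lit 131072) (.ev (nat_lit 4173) (nat_lit 1024) .dd)))) (.ch (nat_lit 5) (.ev (nat_lit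
 3392) (nat_lit 1024) (.nd (nat_lit 8032) (.ch (nat_lit 2) (.nd (nat_lit 8064) (.ch (nat_lit 2) (.nd (nat_lit
 8528) (.br (nat_lit 1) (.ch (nat_lit 0) (.ev (nat_lit 8544) (nat_lit 131072) (.ev (nat_lit 8557) (nat_lit
 8192) .dd))) (.ch (nat_lit 1) (.fin (nat_lit 576440411326202457))))))))))))))) (.br (nat_lit 3) (.ch (nat_lit
 2) (.ev (nat_lit 1488) (nat_lit 1024) (.ev (nat_lit 4916) (nat_lit 131072) (.ev (nat_lit 4925) (nat_lit 8192)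
 .dd)))) (.ch (nat_lit 3) (.nd (nat_lit 5712) (.br (nat_lit 3) (.ch (nat_lit 0) (.ev (nat_lit 5728) (nat_lit
 1024) (.fin (nat_lit 576189722849133102)))) (.ch (nat_lit 3) (.ev (nat_lit 5728) (nat_lit 139264) (.ev
 (nat_lit 5741) (nat_lit 1024) .dd)))))))))))))))))) (.br (nat_lit 3) (.ch (nat_lit 2) (.ev (nat_lit 112)
 (nat_lit 131074) (.nd (nat_lit 672) (.br (nat_lit 3) (.br (nat_lit 2) (.ch (nat_lit 0) (.ev (nat_lit 688)
 (nat_lit 12288) (.nd (nat_lit 1664) (.br (nat_lit 3) (.br (nat_lit 1) (.ch (nat_lit 0) (.ev (nat_lit 1680)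
 (nat_lit 32768) (.ev (nat_lit 1924) (nat_lit 2048) (.nd (nat_lit 5392) (.ch (nat_lit 1) (.nd (nat_lit 6336)
 (.br (nat_lit 3) (.ch (nat_lit 2) (.ev (nat_lit 6352) (nat_lit 1024) (.ev (nat_lit 6365) (nat_lit 4) .dd)))
 (.br (nat_lit 6) (.ch (nat_lit 3) (.ev (nat_lit 6352) (nat_lit 1024) (.ev (nat_lit 6365) (nat_lit 4) .dd)))
 (.ch (nat_lit 6) (.nd (nat_lit 8096) (.ch (nat_lit 0) (.nd (nat_lit 8720) (.br (nat_lit 5) (.ch (nat_lit 1)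
 (.fin (nat_lit 576545964436177479))) (.ch (nat_lit 5) (.ev (nat_lit 8736) (nat_lit 4) (.ev (nat_lit 8749)
 (nat_lit 1024) .dd)))))))))))))))) (.ch (nat_lit 1) (.ev (nat_lit 1680) (nat_lit 2048) (.ev (nat_lit 1924)
 (nat_lit 32768) (.nd (nat_lit 5648) (.ch (nat_lit 0) (.nd (nat_lit 7264) (.br (nat_lit 4) (.ch (nat_lit 1)
 (.nd (nat_lit 8128) (.ch (nat_lit 5) (.nd (nat_lit 8592) (.br (nat_lit 6) (.ch (nat_lit 2) (.ev (nat_lit 8608)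
 (nat_lit 1024) (.ev (nat_lit 8621) (nat_lit 4) .dd))) (.ch (nat_lit 6) (.fin (nat_lit
 576545964476023367)))))))) (.br (nat_lit 5) (.ch (nat_lit 4) (.ev (nat_lit 7280) (nat_lit 4) (.ev (nat_lit
 7293) (nat_lit 1024) .dd))) (.ch (nat_lit 5) (.ev (nat_lit 7280) (nat_lit 4) (.ev (nat_lit 7293) (nat_lit
 1024) .dd)))))))))))) (.br (nat_lit 4) (.ch (nat_lit 3) (.ev (nat_lit 1680) (nat_lit 2052) (.ev (nat_lit 1700)
 (nat_lit 1024) (.ev (nat_lit 1709) (nat_lit 32768) .dd)))) (.br (nat_lit 5) (.ch (nat_lit 4) (.ev (nat_lit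
 1680) (nat_lit 1028) (.nd (nat_lit 5440) (.br (nat_lit 1) (.ch (nat_lit 0) (.ev (nat_lit 5456) (nat_lit 34816)
 .dd)) (.br (nat_lit 6) (.ch (nat_lit 1) (.fin (nat_lit 576466799598977694))) (.ch (nat_lit 6) (.fin (nat_lit
 576466799638823582)))))))) (.ch (nat_lit 5) (.ev (nat_lit 1680) (nat_lit 33792) (.ev (nat_lit 1700) (nat_lit
 4) (.ev (nat_lit 1709) (nat_lit 2048) .dd)))))))))) (.ch (nat_lit 2) (.ev (nat_lit 688) (nat_lit 1024) (.nd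
 (nat_lit 1472) (.br (nat_lit 2) (.br (nat_lit 1) (.ch (nat_lit 0) (.ev (nat_lit 1488) (nat_lit 2048) (.nd
 (nat_lit 2464) (.br (nat_lit 3) (.br (nat_lit 2) (.ch (nat_lit 0) (.ev (nat_lit 2480) (nat_lit 36864) (.ev
 (nat_lit 2996) (nat_lit 4) (.ev (nat_lit 3005) (nat_lit 8192) .dd)))) (.ch (nat_lit 2) (.ev (nat_lit 2480)
 (nat_lit 32768) (.ev (nat_lit 2964) (nat_lit 4) (.ev (nat_lit 4836) (nat_lit 4096) (.ev (nat_lit 4845)
 (nat_lit 8192) .dd)))))) (.br (nat_lit 4) (.ch (nat_lit 3) (.ev (nat_lit 3264) (nat_lit 8192) (.ev (nat_lit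
 3284) (nat_lit 4096) (.ev (nat_lit 4464) (nat_lit 4) (.ev (nat_lit 4477) (nat_lit 32768) .dd))))) (.ch
 (nat_lit 4) (.ev (nat_lit 2480) (nat_lit 40964) (.ev (nat_lit 2493) (nat_lit 4096) .dd)))))))) (.ch (nat_lit
 1) (.ev (nat_lit 1488) (nat_lit 36868) (.nd (nat_lit 2096) (.br (nat_lit 3) (.ch (nat_lit 2) (.ev (nat_lit
 3328) (nat_lit 2048) (.ev (nat_lit 3341) (nat_lit 8192) .dd))) (.br (nat_lit 5) (.ch (nat_lit 3) (.ev (nat_lit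
 3952) (nat_lit 2048) (.ev (nat_lit 3965) (nat_lit 8192) .dd))) (.ch (nat_lit 5) (.ev (nat_lit 4964) (nat_lit
 2048) (.ev (nat_lit 4973) (nat_lit 8192) .dd))))))))) (.br (nat_lit 4) (.ch (nat_lit 2) (.ev (nat_lit 1488)
 (nat_lit 4) (.nd (nat_lit 2896) (.br (nat_lit 4) (.br (nat_lit 3) (.ch (nat_lit 1) (.ev (nat_lit 2912)
 (nat_lit 4096) (.ev (nat_lit 4656) (nat_lit 32768) (.fin (nat_lit 576471197660168800))))) (.ch (nat_lit 3)
 (.ev (nat_lit 2912) (nat_lit 32768) (.nd (nat_lit 6592) (.ch (nat_lit 6) (.nd (nat_lit 7728) (.br (nat_lit 5)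
 (.ch (nat_lit 0) (.ev (nat_lit 7744) (nat_lit 2048) (.fin (nat_lit 576407425971077598)))) (.ch (nat_lit 5)
 (.ev (nat_lit 7744) (nat_lit 8192) (.fin (nat_lit 576485491300844098))))))))))) (.br (nat_lit 5) (.ch (nat_lit
 4) (.ev (nat_lit 2912) (nat_lit 43008) (.ev (nat_lit 2925) (nat_lit 4096) .dd))) (.ch (nat_lit 5) (.ev
 (nat_lit 2912) (nat_lit 6144) (.fin (nat_lit 576473396706492993))))))))) (.br (nat_lit 6) (.ch (nat_lit 4)
 (.ev (nat_lit 1488) (nat_lit 6144) (.nd (nat_lit 2704) (.br (nat_lit 5) (.ch (nat_lit 1) (.ev (nat_lit 2720)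
 (nat_lit 32768) (.ev (nat_lit 3412) (nat_lit 4) (.ev (nat_lit 3421) (nat_lit 8192) .dd)))) (.br (nat_lit 6)
 (.ch (nat_lit 5) (.ev (nat_lit 3252) (nat_lit 8192) (.ev (nat_lit 4916) (nat_lit 4) (.ev (nat_lit 4925)
 (nat_lit 32768) .dd)))) (.ch (nat_lit 6) (.ev (nat_lit 3476) (nat_lit 8192) (.ev (nat_lit 3908) (nat_lit
 32768) (.ev (nat_lit 3917) (nat_lit 4) .dd))))))))) (.ch (nat_lit 6) (.ev (nat_lit 1488) (nat_lit 8192) (.nd
 (nat_lit 3216) (.br (nat_lit 3) (.br (nat_lit 1) (.ch (nat_lit 0) (.ev (nat_lit 3252) (nat_lit 4) (.ev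
 (nat_lit 4100) (nat_lit 6144) (.ev (nat_lit 4109) (nat_lit 32768) .dd)))) (.ch (nat_lit 1) (.ev (nat_lit 3232)
 (nat_lit 2052) (.ev (nat_lit 3252) (nat_lit 4096) (.ev (nat_lit 3261) (nat_lit 32768) .dd))))) (.br (nat_lit
 5) (.ch (nat_lit 3) (.ev (nat_lit 3232) (nat_lit 2048) (.ev (nat_lit 3252) (nat_lit 4096) (.ev (nat_lit 4564)
 (nat_lit 32768) (.ev (nat_lit 4573) (nat_lit 4) .dd))))) (.ch (nat_lit 5) (.ev (nat_lit 3232) (nat_lit 36864)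
 (.ev (nat_lit 3252) (nat_lit 4) (.ev (nat_lit 3261) (nat_lit 2048) .dd)))))))))))))))) (.br (nat_lit 4) (.ch
 (nat_lit 3) (.ev (nat_lit 688) (nat_lit 7168) (.nd (nat_lit 1408) (.br (nat_lit 3) (.br (nat_lit 2) (.ch
 (nat_lit 0) (.ev (nat_lit 1424) (nat_lit 8196) (.ev (nat_lit 1437) (nat_lit 32768) .dd))) (.ch (nat_lit 2)
 (.ev (nat_lit 1424) (nat_lit 4) (.ev (nat_lit 5044) (nat_lit 8192) (.ev (nat_lit 5053) (nat_lit 32768)
 .dd))))) (.br (nat_lit 4) (.ch (nat_lit 3) (.ev (nat_lit 1424) (nat_lit 40960) (.ev (nat_lit 1437) (nat_lit 4)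
 .dd))) (.br (nat_lit 6) (.ch (nat_lit 4) (.ev (nat_lit 1424) (nat_lit 8192) (.ev (nat_lit 5024) (nat_lit
 32768) (.ev (nat_lit 5037) (nat_lit 4) .dd)))) (.ch (nat_lit 6) (.ev (nat_lit 5044) (nat_lit 8192) (.ev
 (nat_lit 5092) (nat_lit 4) (.ev (nat_lit 5101) (nat_lit 32768) .dd)))))))))) (.br (nat_lit 5) (.ch (nat_lit 4)
 (.ev (nat_lit 688) (nat_lit 40964) (.nd (nat_lit 1664) (.br (nat_lit 3) (.br (nat_lit 1) (.ch (nat_lit 0) (.ev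
 (nat_lit 1680) (nat_lit 5120) (.ev (nat_lit 1693) (nat_lit 2048) .dd))) (.ch (nat_lit 1) (.ev (nat_lit 5044)
 (nat_lit 4096) (.ev (nat_lit 5092) (nat_lit 1024) (.ev (nat_lit 5101) (nat_lit 2048) .dd))))) (.br (nat_lit 4)
 (.ch (nat_lit 3) (.ev (nat_lit 1680) (nat_lit 4096) (.ev (nat_lit 5024) (nat_lit 2048) (.ev (nat_lit 5037)
 (nat_lit 1024) .dd)))) (.br (nat_lit 5) (.ch (nat_lit 4) (.ev (nat_lit 1680) (nat_lit 6144) (.ev (nat_lit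
 1693) (nat_lit 1024) .dd))) (.ch (nat_lit 5) (.ev (nat_lit 1680) (nat_lit 1024) (.ev (nat_lit 5044) (nat_lit
 2048) (.ev (nat_lit 5053) (nat_lit 4096) .dd)))))))))) (.ch (nat_lit 5) (.ev (nat_lit 688) (nat_lit 4) (.nd
 (nat_lit 1664) (.br (nat_lit 3) (.br (nat_lit 1) (.ch (nat_lit 0) (.ev (nat_lit 1680) (nat_lit 32768) (.nd
 (nat_lit 2704) (.br (nat_lit 5) (.br (nat_lit 4) (.ch (nat_lit 1) (.ev (nat_lit 2720) (nat_lit 10240) (.ev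
 (nat_lit 2944) (nat_lit 5120) .dd))) (.ch (nat_lit 4) (.ev (nat_lit 2720) (nat_lit 7168) (.ev (nat_lit 2733)
 (nat_lit 8192) .dd)))) (.br (nat_lit 6) (.ch (nat_lit 5) (.ev (nat_lit 3264) (nat_lit 4096) (.ev (nat_lit
 3284) (nat_lit 8192) (.ev (nat_lit 4464) (nat_lit 1024) (.ev (nat_lit 4477) (nat_lit 2048) .dd))))) (.ch
 (nat_lit 6) (.ev (nat_lit 2720) (nat_lit 2048) (.ev (nat_lit 2816) (nat_lit 1024) (.ev (nat_lit 4836) (nat_lit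
 8192) (.ev (nat_lit 4845) (nat_lit 4096) .dd)))))))))) (.ch (nat_lit 1) (.ev (nat_lit 1680) (nat_lit 4096)
 (.nd (nat_lit 2896) (.br (nat_lit 4) (.br (nat_lit 2) (.ch (nat_lit 0) (.ev (nat_lit 3252) (nat_lit 1024) (.ev
 (nat_lit 4100) (nat_lit 40960) (.ev (nat_lit 4109) (nat_lit 2048) .dd)))) (.ch (nat_lit 2) (.ev (nat_lit 2912)
 (nat_lit 8192) (.ev (nat_lit 3152) (nat_lit 2048) (.ev (nat_lit 3252) (nat_lit 1024) (.ev (nat_lit 3261)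
 (nat_lit 32768) .dd)))))) (.br (nat_lit 6) (.ch (nat_lit 4) (.ev (nat_lit 2912) (nat_lit 32768) (.ev (nat_lit
 3092) (nat_lit 8192) (.ev (nat_lit 4564) (nat_lit 2048) (.ev (nat_lit 4573) (nat_lit 1024) .dd))))) (.ch
 (nat_lit 6) (.ev (nat_lit 2912) (nat_lit 33792) (.ev (nat_lit 2932) (nat_lit 8192) (.ev (nat_lit 2941)
 (nat_lit 2048) .dd)))))))))) (.br (nat_lit 5) (.ch (nat_lit 3) (.ev (nat_lit 1680) (nat_lit 40960) (.ev
 (nat_lit 3476) (nat_lit 4096) (.ev (nat_lit 4916) (nat_lit 1024) (.ev (nat_lit 4925) (nat_lit 2048) .dd)))))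
 (.br (nat_lit 6) (.ch (nat_lit 5) (.ev (nat_lit 1680) (nat_lit 1024) (.nd (nat_lit 2896) (.br (nat_lit 4) (.br
 (nat_lit 3) (.ch (nat_lit 2) (.ev (nat_lit 2912) (nat_lit 40960) (.fin (nat_lit 576473396670841409)))) (.ch
 (nat_lit 3) (.ev (nat_lit 2912) (nat_lit 38912) (.ev (nat_lit 2925) (nat_lit 8192) .dd)))) (.br (nat_lit 6)
 (.ch (nat_lit 4) (.ev (nat_lit 2912) (nat_lit 2048) (.nd (nat_lit 6320) (.ch (nat_lit 6) (.nd (nat_lit 7664)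
 (.br (nat_lit 2) (.ch (nat_lit 0) (.ev (nat_lit 7680) (nat_lit 32768) (.fin (nat_lit 576407426010923486))))
 (.ch (nat_lit 2) (.ev (nat_lit 7680) (nat_lit 4096) (.fin (nat_lit 576437112789221950)))))))))) (.ch (nat_lit
 6) (.ev (nat_lit 2912) (nat_lit 8192) (.ev (nat_lit 4704) (nat_lit 2048) (.fin (nat_lit
 576451406450868768)))))))))) (.ch (nat_lit 6) (.ev (nat_lit 1680) (nat_lit 11264) (.ev (nat_lit 4964) (nat_lit
 32768) (.ev (nat_lit 4973) (nat_lit 4096) .dd)))))))))))))))) (.br (nat_lit 4) (.ch (nat_lit 3) (.ev (nat_lit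
 112) (nat_lit 40960) (.nd (nat_lit 528) (.br (nat_lit 2) (.br (nat_lit 1) (.ch (nat_lit 0) (.ev (nat_lit 544)
 (nat_lit 4096) (.nd (nat_lit 1088) (.br (nat_lit 2) (.br (nat_lit 1) (.ch (nat_lit 0) (.ev (nat_lit 1104)
 (nat_lit 6) (.ev (nat_lit 2644) (nat_lit 1024) (.ev (nat_lit 3524) (nat_lit 131072) (.ev (nat_lit 3533)
 (nat_lit 2048) .dd))))) (.ch (nat_lit 1) (.ev (nat_lit 1104) (nat_lit 1024) (.ev (nat_lit 1444) (nat_lit 4)
 (.nd (nat_lit 2016) (.br (nat_lit 2) (.br (nat_lit 1) (.ch (nat_lit 0) (.ev (nat_lit 2032) (nat_lit 133120)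
 (.ev (nat_lit 2045) (nat_lit 2) .dd))) (.ch (nat_lit 1) (.ev (nat_lit 2032) (nat_lit 2048) (.ev (nat_lit 2052)
 (nat_lit 2) (.ev (nat_lit 2061) (nat_lit 131072) .dd))))) (.br (nat_lit 5) (.ch (nat_lit 2) (.ev (nat_lit
 2032) (nat_lit 2048) (.ev (nat_lit 2500) (nat_lit 131072) (.ev (nat_lit 2509) (nat_lit 2) .dd)))) (.br
 (nat_lit 6) (.ch (nat_lit 5) (.ev (nat_lit 2032) (nat_lit 131074) (.ev (nat_lit 2045) (nat_lit 2048) .dd)))
 (.ch (nat_lit 6) (.ev (nat_lit 2032) (nat_lit 2) (.ev (nat_lit 2420) (nat_lit 2048) (.ev (nat_lit 2429)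
 (nat_lit 131072) .dd)))))))))))) (.br (nat_lit 3) (.ch (nat_lit 2) (.ev (nat_lit 1104) (nat_lit 131072) (.nd
 (nat_lit 1968) (.br (nat_lit 2) (.br (nat_lit 1) (.ch (nat_lit 0) (.ev (nat_lit 1984) (nat_lit 6) (.ev
 (nat_lit 3456) (nat_lit 3072) .dd))) (.ch (nat_lit 1) (.ev (nat_lit 1984) (nat_lit 2052) (.ev (nat_lit 4564)
 (nat_lit 1024) (.ev (nat_lit 4573) (nat_lit 2) .dd))))) (.br (nat_lit 4) (.ch (nat_lit 2) (.ev (nat_lit 1984)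
 (nat_lit 3072) (.ev (nat_lit 3412) (nat_lit 4) (.ev (nat_lit 3421) (nat_lit 2) .dd)))) (.br (nat_lit 6) (.ch
 (nat_lit 4) (.ev (nat_lit 1984) (nat_lit 4) (.ev (nat_lit 5076) (nat_lit 2048) (.nd (nat_lit 6976) (.br
 (nat_lit 3) (.ch (nat_lit 0) (.ev (nat_lit 6992) (nat_lit 2) (.ev (nat_lit 7005) (nat_lit 1024) .dd))) (.br
 (nat_lit 4) (.ch (nat_lit 3) (.ev (nat_lit 7012) (nat_lit 1024) (.ev (nat_lit 7021) (nat_lit 2) .dd))) (.ch
 (nat_lit 4) (.fin (nat_lit 576484391810187833))))))))) (.ch (nat_lit 6) (.ev (nat_lit 1984) (nat_lit 2) (.ev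
 (nat_lit 4000) (nat_lit 2048) (.ev (nat_lit 4644) (nat_lit 1024) (.ev (nat_lit 4653) (nat_lit 4)
 .dd))))))))))) (.br (nat_lit 4) (.ch (nat_lit 3) (.ev (nat_lit 1104) (nat_lit 4) (.nd (nat_lit 2016) (.br
 (nat_lit 3) (.br (nat_lit 2) (.ch (nat_lit 1) (.ev (nat_lit 2032) (nat_lit 1026) (.ev (nat_lit 3424) (nat_lit
 133120) .dd))) (.ch (nat_lit 2) (.ev (nat_lit 4864) (nat_lit 2048) (.nd (nat_lit 6544) (.br (nat_lit 5) (.ch
 (nat_lit 4) (.ev (nat_lit 6580) (nat_lit 2) (.nd (nat_lit 8080) (.ch (nat_lit 5) (.nd (nat_lit 8688) (.br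
 (nat_lit 5) (.ch (nat_lit 1) (.fin (nat_lit 576445908913701412))) (.ch (nat_lit 5) (.ev (nat_lit 8704)
 (nat_lit 131072) (.ev (nat_lit 8717) (nat_lit 1024) .dd))))))))) (.ch (nat_lit 5) (.ev (nat_lit 6560) (nat_lit
 1024) (.fin (nat_lit 576407426010923633))))))))) (.br (nat_lit 5) (.ch (nat_lit 3) (.ev (nat_lit 2032)
 (nat_lit 2050) (.ev (nat_lit 4064) (nat_lit 132096) .dd))) (.ch (nat_lit 5) (.ev (nat_lit 2032) (nat_lit 2050)
 (.ev (nat_lit 4564) (nat_lit 1024) (.ev (nat_lit 4573) (nat_lit 131072) .dd))))))))) (.ch (nat_lit 4) (.ev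
 (nat_lit 1104) (nat_lit 134144) (.nd (nat_lit 2464) (.br (nat_lit 2) (.br (nat_lit 1) (.ch (nat_lit 0) (.fin
 (nat_lit 576453605461541426))) (.ch (nat_lit 1) (.ev (nat_lit 2480) (nat_lit 4) (.ev (nat_lit 2493) (nat_lit
 2) .dd)))) (.br (nat_lit 4) (.ch (nat_lit 2) (.ev (nat_lit 2480) (nat_lit 4) (.ev (nat_lit 2493) (nat_lit 2)
 .dd))) (.br (nat_lit 6) (.ch (nat_lit 4) (.ev (nat_lit 2480) (nat_lit 2) (.ev (nat_lit 2493) (nat_lit 4)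
 .dd))) (.ch (nat_lit 6) (.ev (nat_lit 4564) (nat_lit 2) (.ev (nat_lit 4573) (nat_lit 4) .dd)))))))))))))))
 (.ch (nat_lit 1) (.ev (nat_lit 544) (nat_lit 134144) (.nd (nat_lit 1408) (.br (nat_lit 3) (.ch (nat_lit 2)
 (.nd (nat_lit 4400) (.br (nat_lit 2) (.ch (nat_lit 0) (.ev (nat_lit 4416) (nat_lit 4) (.fin (nat_lit
 576189722528268846)))) (.br (nat_lit 4) (.ch (nat_lit 2) (.ev (nat_lit 4416) (nat_lit 6) (.ev (nat_lit 4429)
 (nat_lit 4096) .dd))) (.ch (nat_lit 4) (.ev (nat_lit 4416) (nat_lit 4096) (.ev (nat_lit 4596) (nat_lit 2) (.ev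
 (nat_lit 4605) (nat_lit 4) .dd)))))))) (.br (nat_lit 5) (.ch (nat_lit 3) (.ev (nat_lit 1424) (nat_lit 4) (.ev
 (nat_lit 4916) (nat_lit 2) (.ev (nat_lit 4925) (nat_lit 4096) .dd)))) (.ch (nat_lit 5) (.nd (nat_lit 2896)
 (.br (nat_lit 4) (.br (nat_lit 2) (.ch (nat_lit 0) (.ev (nat_lit 2932) (nat_lit 2) (.nd (nat_lit 7472) (.ch
 (nat_lit 0) (.nd (nat_lit 7936) (.br (nat_lit 6) (.ch (nat_lit 5) (.ev (nat_lit 7952) (nat_lit 4096) (.ev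
 (nat_lit 7965) (nat_lit 4) .dd))) (.ch (nat_lit 6) (.fin (nat_lit 576597641507848365))))))))) (.ch (nat_lit 2)
 (.ev (nat_lit 2912) (nat_lit 4) (.nd (nat_lit 8304) (.ch (nat_lit 5) (.nd (nat_lit 8384) (.ch (nat_lit 0) (.nd
 (nat_lit 8816) (.br (nat_lit 2) (.ch (nat_lit 1) (.fin (nat_lit 576440411353465433))) (.ch (nat_lit 2) (.ev
 (nat_lit 8832) (nat_lit 2) (.ev (nat_lit 8845) (nat_lit 4096) .dd)))))))))))) (.br (nat_lit 6) (.ch (nat_lit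
 4) (.ev (nat_lit 2912) (nat_lit 4096) (.ev (nat_lit 4164) (nat_lit 2) (.ev (nat_lit 4173) (nat_lit 4) .dd))))
 (.ch (nat_lit 6) (.ev (nat_lit 2912) (nat_lit 4) (.ev (nat_lit 2932) (nat_lit 2) (.ev (nat_lit 2941) (nat_lit
 4096) .dd)))))))))))))) (.br (nat_lit 3) (.ch (nat_lit 2) (.ev (nat_lit 544) (nat_lit 2) (.nd (nat_lit 1264)
 (.br (nat_lit 4) (.br (nat_lit 3) (.ch (nat_lit 0) (.nd (nat_lit 3216) (.br (nat_lit 4) (.ch (nat_lit 3) (.ev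
 (nat_lit 3232) (nat_lit 3072) (.ev (nat_lit 3252) (nat_lit 131072) (.ev (nat_lit 4596) (nat_lit 4) (.ev
 (nat_lit 4605) (nat_lit 4096) .dd))))) (.br (nat_lit 6) (.ch (nat_lit 4) (.ev (nat_lit 3232) (nat_lit 2048)
 (.ev (nat_lit 3252) (nat_lit 4100) (.ev (nat_lit 4100) (nat_lit 1024) (.ev (nat_lit 4109) (nat_lit 131072)
 .dd))))) (.ch (nat_lit 6) (.ev (nat_lit 3232) (nat_lit 132096) (.ev (nat_lit 3252) (nat_lit 4096) (.ev
 (nat_lit 3988) (nat_lit 4) (.ev (nat_lit 3997) (nat_lit 2048) .dd))))))))) (.ch (nat_lit 3) (.ev (nat_lit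
 1280) (nat_lit 132100) (.ev (nat_lit 2308) (nat_lit 4096) (.ev (nat_lit 2317) (nat_lit 2048) .dd))))) (.br
 (nat_lit 5) (.ch (nat_lit 4) (.ev (nat_lit 1280) (nat_lit 4096) (.ev (nat_lit 1300) (nat_lit 1024) (.ev
 (nat_lit 5172) (nat_lit 2048) (.ev (nat_lit 5268) (nat_lit 131072) (.ev (nat_lit 5277) (nat_lit 4) .dd))))))
 (.br (nat_lit 6) (.ch (nat_lit 5) (.ev (nat_lit 1280) (nat_lit 3072) (.nd (nat_lit 3216) (.br (nat_lit 4) (.ch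
 (nat_lit 2) (.ev (nat_lit 4564) (nat_lit 4) (.ev (nat_lit 5172) (nat_lit 4096) (.ev (nat_lit 5181) (nat_lit
 131072) .dd)))) (.br (nat_lit 5) (.ch (nat_lit 4) (.ev (nat_lit 3232) (nat_lit 4) (.ev (nat_lit 3252) (nat_lit
 4096) (.ev (nat_lit 3261) (nat_lit 131072) .dd)))) (.ch (nat_lit 5) (.ev (nat_lit 3252) (nat_lit 131072) (.fin
 (nat_lit 576496486429704664))))))))) (.ch (nat_lit 6) (.ev (nat_lit 1280) (nat_lit 131072) (.nd (nat_lit 2176)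
 (.br (nat_lit 2) (.br (nat_lit 1) (.ch (nat_lit 0) (.ev (nat_lit 2308) (nat_lit 2048) (.ev (nat_lit 3136)
 (nat_lit 4) (.fin (nat_lit 576448107926471222))))) (.ch (nat_lit 1) (.ev (nat_lit 2192) (nat_lit 6144) (.ev
 (nat_lit 2212) (nat_lit 1024) (.ev (nat_lit 2221) (nat_lit 4) .dd))))) (.br (nat_lit 5) (.ch (nat_lit 2) (.ev
 (nat_lit 2192) (nat_lit 4100) (.ev (nat_lit 4164) (nat_lit 1024) (.ev (nat_lit 4173) (nat_lit 2048) .dd))))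
 (.br (nat_lit 6) (.ch (nat_lit 5) (.ev (nat_lit 2192) (nat_lit 2048) (.ev (nat_lit 2212) (nat_lit 4) (.ev
 (nat_lit 3108) (nat_lit 1024) (.ev (nat_lit 3117) (nat_lit 4096) .dd))))) (.ch (nat_lit 6) (.ev (nat_lit 2192)
 (nat_lit 1028) (.ev (nat_lit 3284) (nat_lit 2048) (.ev (nat_lit 3293) (nat_lit 4096) .dd)))))))))))))))) (.br
 (nat_lit 6) (.ch (nat_lit 3) (.ev (nat_lit 544) (nat_lit 135172) (.nd (nat_lit 1088) (.br (nat_lit 3) (.br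
 (nat_lit 2) (.ch (nat_lit 0) (.ev (nat_lit 1104) (nat_lit 3072) (.ev (nat_lit 1117) (nat_lit 2) .dd))) (.ch
 (nat_lit 2) (.nd (nat_lit 2176) (.br (nat_lit 4) (.br (nat_lit 2) (.ch (nat_lit 1) (.ev (nat_lit 2192)
 (nat_lit 1024) (.ev (nat_lit 4196) (nat_lit 2) (.ev (nat_lit 4205) (nat_lit 2048) .dd)))) (.ch (nat_lit 2)
 (.ev (nat_lit 2756) (nat_lit 1024) (.ev (nat_lit 4292) (nat_lit 2048) (.ev (nat_lit 4301) (nat_lit 2) .dd)))))
 (.br (nat_lit 6) (.ch (nat_lit 4) (.ev (nat_lit 2192) (nat_lit 2048) (.ev (nat_lit 3936) (nat_lit 1026) .dd)))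
 (.ch (nat_lit 6) (.ev (nat_lit 2192) (nat_lit 1024) (.ev (nat_lit 2356) (nat_lit 2) (.ev (nat_lit 2365)
 (nat_lit 2048) .dd))))))))) (.br (nat_lit 4) (.ch (nat_lit 3) (.ev (nat_lit 1104) (nat_lit 2048) (.ev (nat_lit
 5056) (nat_lit 2) (.ev (nat_lit 5069) (nat_lit 1024) .dd)))) (.br (nat_lit 5) (.ch (nat_lit 4) (.ev (nat_lit
 1104) (nat_lit 1026) (.ev (nat_lit 1117) (nat_lit 2048) .dd))) (.ch (nat_lit 5) (.ev (nat_lit 3316) (nat_lit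
 1024) (.nd (nat_lit 5408) (.br (nat_lit 5) (.ch (nat_lit 3) (.ev (nat_lit 5424) (nat_lit 2050) .dd)) (.ch
 (nat_lit 5) (.fin (nat_lit 576465700096786995))))))))))))) (.ch (nat_lit 6) (.ev (nat_lit 544) (nat_lit 1024)
 (.nd (nat_lit 1264) (.br (nat_lit 4) (.br (nat_lit 3) (.ch (nat_lit 1) (.ev (nat_lit 1280) (nat_lit 2048) (.nd
 (nat_lit 3216) (.br (nat_lit 3) (.br (nat_lit 1) (.ch (nat_lit 0) (.ev (nat_lit 3232) (nat_lit 131074) (.ev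
 (nat_lit 4452) (nat_lit 4) (.ev (nat_lit 4461) (nat_lit 4096) .dd)))) (.ch (nat_lit 1) (.ev (nat_lit 3232)
 (nat_lit 131076) (.ev (nat_lit 3252) (nat_lit 2) (.ev (nat_lit 3261) (nat_lit 4096) .dd))))) (.br (nat_lit 6)
 (.ch (nat_lit 3) (.ev (nat_lit 3232) (nat_lit 4100) (.ev (nat_lit 3252) (nat_lit 131072) (.ev (nat_lit 3261)
 (nat_lit 2) .dd)))) (.ch (nat_lit 6) (.ev (nat_lit 3232) (nat_lit 2) (.ev (nat_lit 4196) (nat_lit 4096) (.ev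
 (nat_lit 5044) (nat_lit 4) (.ev (nat_lit 5053) (nat_lit 131072) .dd)))))))))) (.ch (nat_lit 3) (.ev (nat_lit
 1280) (nat_lit 133120) (.ev (nat_lit 1348) (nat_lit 4) (.ev (nat_lit 2996) (nat_lit 4096) (.ev (nat_lit 3005)
 (nat_lit 2) .dd)))))) (.br (nat_lit 5) (.ch (nat_lit 4) (.ev (nat_lit 1280) (nat_lit 2048) (.ev (nat_lit 1348)
 (nat_lit 4) (.nd (nat_lit 3216) (.br (nat_lit 4) (.ch (nat_lit 1) (.ev (nat_lit 3232) (nat_lit 2) (.ev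
 (nat_lit 3252) (nat_lit 4096) (.ev (nat_lit 3261) (nat_lit 131072) .dd)))) (.br (nat_lit 5) (.ch (nat_lit 4)
 (.ev (nat_lit 3232) (nat_lit 131072) (.ev (nat_lit 3252) (nat_lit 2) (.ev (nat_lit 3261) (nat_lit 4096)
 .dd)))) (.ch (nat_lit 5) (.ev (nat_lit 3232) (nat_lit 4096) (.ev (nat_lit 5076) (nat_lit 131072) (.ev (nat_lit
 5085) (nat_lit 2) .dd)))))))))) (.br (nat_lit 6) (.ch (nat_lit 5) (.ev (nat_lit 1280) (nat_lit 4102) (.fin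
 (nat_lit 576487690366042708)))) (.ch (nat_lit 6) (.ev (nat_lit 1280) (nat_lit 6146) (.ev (nat_lit 1300)
 (nat_lit 131072) (.ev (nat_lit 1309) (nat_lit 4) .dd)))))))))))))))) (.ch (nat_lit 4) (.ev (nat_lit 112)
 (nat_lit 4102) (.nd (nat_lit 592) (.br (nat_lit 4) (.br (nat_lit 2) (.ch (nat_lit 0) (.ev (nat_lit 608)
 (nat_lit 8192) (.ev (nat_lit 628) (nat_lit 131072) (.nd (nat_lit 1744) (.br (nat_lit 2) (.br (nat_lit 1) (.ch
 (nat_lit 0) (.ev (nat_lit 4564) (nat_lit 2048) (.ev (nat_lit 4836) (nat_lit 1024) (.ev (nat_lit 4845) (nat_lit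
 32768) .dd)))) (.ch (nat_lit 1) (.ev (nat_lit 1760) (nat_lit 34816) (.ev (nat_lit 1773) (nat_lit 1024) .dd))))
 (.br (nat_lit 4) (.ch (nat_lit 2) (.ev (nat_lit 4196) (nat_lit 1024) (.ev (nat_lit 4340) (nat_lit 32768) (.ev
 (nat_lit 4349) (nat_lit 2048) .dd)))) (.br (nat_lit 6) (.ch (nat_lit 4) (.ev (nat_lit 1760) (nat_lit 3072)
 (.ev (nat_lit 1773) (nat_lit 32768) .dd))) (.ch (nat_lit 6) (.ev (nat_lit 5024) (nat_lit 2048) (.fin (nat_lit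
 576631726523499389))))))))))) (.ch (nat_lit 2) (.ev (nat_lit 608) (nat_lit 134144) (.nd (nat_lit 1472) (.br
 (nat_lit 2) (.ch (nat_lit 1) (.ev (nat_lit 3988) (nat_lit 8192) (.ev (nat_lit 3997) (nat_lit 32768) .dd)))
 (.br (nat_lit 6) (.ch (nat_lit 2) (.ev (nat_lit 4848) (nat_lit 8192) (.ev (nat_lit 4861) (nat_lit 32768)
 .dd))) (.ch (nat_lit 6) (.ev (nat_lit 1488) (nat_lit 32768) (.ev (nat_lit 1501) (nat_lit 8192) .dd)))))))))
 (.br (nat_lit 5) (.ch (nat_lit 4) (.ev (nat_lit 884) (nat_lit 32768) (.nd (nat_lit 1056) (.br (nat_lit 3) (.br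
 (nat_lit 1) (.ch (nat_lit 0) (.ev (nat_lit 1072) (nat_lit 8192) (.ev (nat_lit 3700) (nat_lit 1024) (.fin
 (nat_lit 576454704979460667))))) (.ch (nat_lit 1) (.ev (nat_lit 1072) (nat_lit 139264) (.ev (nat_lit 2212)
 (nat_lit 2048) (.ev (nat_lit 2221) (nat_lit 1024) .dd))))) (.br (nat_lit 5) (.ch (nat_lit 3) (.nd (nat_lit
 1968) (.br (nat_lit 3) (.br (nat_lit 1) (.ch (nat_lit 0) (.ev (nat_lit 1984) (nat_lit 9216) (.ev (nat_lit
 3008) (nat_lit 133120) .dd))) (.ch (nat_lit 1) (.ev (nat_lit 1984) (nat_lit 3072) (.ev (nat_lit 4164) (nat_lit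
 8192) (.ev (nat_lit 4173) (nat_lit 131072) .dd))))) (.br (nat_lit 4) (.ch (nat_lit 3) (.ev (nat_lit 1984)
 (nat_lit 132096) (.ev (nat_lit 2132) (nat_lit 2048) (.ev (nat_lit 2141) (nat_lit 8192) .dd)))) (.br (nat_lit
 5) (.ch (nat_lit 4) (.ev (nat_lit 2228) (nat_lit 8192) (.ev (nat_lit 4512) (nat_lit 133120) (.ev (nat_lit
 4525) (nat_lit 1024) .dd)))) (.ch (nat_lit 5) (.ev (nat_lit 1984) (nat_lit 10240) (.ev (nat_lit 3828) (nat_lit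
 131072) (.ev (nat_lit 3837) (nat_lit 1024) .dd))))))))) (.br (nat_lit 6) (.ch (nat_lit 5) (.ev (nat_lit 1072)
 (nat_lit 2048) (.nd (nat_lit 3856) (.br (nat_lit 6) (.ch (nat_lit 0) (.ev (nat_lit 3872) (nat_lit 8192) (.ev
 (nat_lit 4740) (nat_lit 131072) (.ev (nat_lit 4749) (nat_lit 1024) .dd)))) (.ch (nat_lit 6) (.ev (nat_lit
 3908) (nat_lit 131072) (.fin (nat_lit 576456904056193613)))))))) (.ch (nat_lit 6) (.ev (nat_lit 1072) (nat_lit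
 3072) (.ev (nat_lit 2356) (nat_lit 131072) (.ev (nat_lit 2365) (nat_lit 8192) .dd)))))))))) (.br (nat_lit 6)
 (.ch (nat_lit 5) (.ev (nat_lit 608) (nat_lit 163840) (.nd (nat_lit 1472) (.br (nat_lit 4) (.br (nat_lit 2)
 (.ch (nat_lit 1) (.ev (nat_lit 1488) (nat_lit 8192) (.ev (nat_lit 4916) (nat_lit 2048) (.ev (nat_lit 4925)
 (nat_lit 1024) .dd)))) (.ch (nat_lit 2) (.nd (nat_lit 1968) (.br (nat_lit 2) (.ch (nat_lit 1) (.ev (nat_lit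
 1984) (nat_lit 8192) (.ev (nat_lit 2356) (nat_lit 2048) (.ev (nat_lit 2365) (nat_lit 1024) .dd)))) (.br
 (nat_lit 5) (.ch (nat_lit 2) (.ev (nat_lit 1984) (nat_lit 1024) (.ev (nat_lit 2068) (nat_lit 8192) (.ev
 (nat_lit 2077) (nat_lit 2048) .dd)))) (.ch (nat_lit 5) (.ev (nat_lit 1984) (nat_lit 2048) (.ev (nat_lit 2228)
 (nat_lit 1024) (.ev (nat_lit 2237) (nat_lit 8192) .dd))))))))) (.br (nat_lit 6) (.ch (nat_lit 4) (.ev (nat_lit
 1488) (nat_lit 2048) (.ev (nat_lit 5012) (nat_lit 1024) (.ev (nat_lit 5021) (nat_lit 8192) .dd)))) (.ch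
 (nat_lit 6) (.ev (nat_lit 1488) (nat_lit 1024) (.nd (nat_lit 2096) (.br (nat_lit 3) (.ch (nat_lit 1) (.ev
 (nat_lit 4740) (nat_lit 8192) (.ev (nat_lit 4749) (nat_lit 2048) .dd))) (.ch (nat_lit 3) (.fin (nat_lit
 576451406441431584)))))))))))) (.ch (nat_lit 6) (.ev (nat_lit 608) (nat_lit 10240) (.nd (nat_lit 1856) (.br
 (nat_lit 5) (.br (nat_lit 3) (.ch (nat_lit 2) (.ev (nat_lit 1872) (nat_lit 131072) (.nd (nat_lit 5792) (.br
 (nat_lit 5) (.ch (nat_lit 1) (.ev (nat_lit 5808) (nat_lit 32768) (.ev (nat_lit 5821) (nat_lit 1024) .dd)))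
 (.ch (nat_lit 5) (.fin (nat_lit 576460202535502440))))))) (.ch (nat_lit 3) (.ev (nat_lit 1872) (nat_lit 1024)
 (.ev (nat_lit 4244) (nat_lit 32768) (.ev (nat_lit 4253) (nat_lit 131072) .dd))))) (.br (nat_lit 6) (.ch
 (nat_lit 5) (.ev (nat_lit 1872) (nat_lit 1024) (.nd (nat_lit 5856) (.ch (nat_lit 4) (.nd (nat_lit 7520) (.br
 (nat_lit 4) (.ch (nat_lit 2) (.ev (nat_lit 7536) (nat_lit 131072) (.ev (nat_lit 7549) (nat_lit 32768) .dd)))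
 (.ch (nat_lit 4) (.nd (nat_lit 8352) (.br (nat_lit 5) (.ch (nat_lit 3) (.ev (nat_lit 8368) (nat_lit 32768)
 (.ev (nat_lit 8381) (nat_lit 131072) .dd))) (.ch (nat_lit 5) (.fin (nat_lit 576452505926845018))))))))))))
 (.ch (nat_lit 6) (.ev (nat_lit 4916) (nat_lit 1024) (.nd (nat_lit 5888) (.ch (nat_lit 6) (.nd (nat_lit 7552)
 (.br (nat_lit 3) (.ch (nat_lit 0) (.ev (nat_lit 7568) (nat_lit 32768) (.ev (nat_lit 7581) (nat_lit 131072)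
 .dd))) (.ch (nat_lit 3) (.fin (nat_lit 576456903505691213)))))))))))))))))))))))))))))))

/-- The trie. -/
noncomputable def T : Tr := .nd (nat_lit 1000000) (.br (nat_lit 1) (.ch (nat_lit 0) (.ev (nat_lit 0) (nat_lit 524287) .dd)) (.br (nat_lit 3) (.ch (nat_lit 1) T1) (.ch (nat_lit 3) T3)))

/-- The possible values. -/
noncomputable def oks : List ℕ := [4, 9, 43, 58, 85, 253, 263, 340, 442, 690, 921, 1765, 1822, 2107, 2818, 3621, 3690, 5002, 17529, 31378, 32890, 53610, 221601, 470940]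

/-- The parameters. -/
noncomputable def S : Pr := ⟨fun i l e => lget mz (lget [] (lget [] tabs i) l) e, oks, [(nat_lit 0), (nat_lit
 0), (nat_lit 0), (nat_lit 0), (nat_lit 0), (nat_lit 0), (nat_lit 0), (nat_lit 0), (nat_lit 0)], T, (nat_lit
 524287), (nat_lit 279193), (nat_lit 19), [(nat_lit 1)], [(nat_lit 40353607)]⟩

/-- Nothing known. -/
noncomputable def cs0 : Cs := (.cons (nat_lit 7) (nat_lit 0) (nat_lit 1) .nil)

theorem part_1 : part S cs0 (nat_lit 1) = true := by decide +kernel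

theorem part_3 : part S cs0 (nat_lit 3) = true := by decide +kernel

/-- Data of a prime. -/
noncomputable def D0 : PD := ⟨(nat_lit 7), (nat_lit 9), (1562932, 1, 2), (36264346, 14618947, 12267798), (17529001, 32002150, 38949929)⟩

theorem D0_ok : D0.Ok := pdb_sound (s := 1) (C := ⟨⟨7, -2, -11, 7, 2, 4, 0, 3, -1⟩, (5, 2, 3)⟩) (by show Nat.Prime 7; norm_num) (by decide +kernel)

/-- Lines of the first type. -/
noncomputable def Cl0 : List C1 := [⟨⟨7, 2, -11, 7, -2, 4, 0, -3, -1⟩, (6, 1, 5)⟩,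
  ⟨⟨0, 0, 0, 0, 0, 0, 0, 0, 0⟩, (0, 0, 0)⟩,
  ⟨⟨0, 0, 0, 0, 0, 0, 0, 0, 0⟩, (0, 0, 0)⟩,
  ⟨⟨0, 0, 0, 0, 0, 0, 0, 0, 0⟩, (0, 0, 0)⟩,
  ⟨⟨0, 0, 0, 0, 0, 0, 0, 0, 0⟩, (0, 0, 0)⟩,
  ⟨⟨0, 0, 0, 0, 0, 0, 0, 0, 0⟩, (0, 0, 0)⟩,
  ⟨⟨0, 0, 0, 0, 0, 0, 0, 0, 0⟩, (0, 0, 0)⟩]

/-- Data of a prime. -/
noncomputable def Dm : PD := ⟨(nat_lit 19), (nat_lit 2), (210, 3, 5), (67, 193, 280), (183, 17, 194)⟩

theorem Dm_ok : Dm.Ok := pdb_sound (s := 9) (C := ⟨⟨21, 6, -28, 11, 14, 17, -4, 7, -1⟩, (2, 11, 15)⟩) (by show Nat.Prime 19; norm_num) (by decide +kernel)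

/-- Lines of the first type. -/
noncomputable def Clm : List C1 := [⟨⟨11, 14, -28, 21, 6, 7, 4, -7, -5⟩, (12, 16, 13)⟩,
  ⟨⟨0, 0, 0, 0, 0, 0, 0, 0, 0⟩, (0, 0, 0)⟩,
  ⟨⟨0, 0, 0, 0, 0, 0, 0, 0, 0⟩, (0, 0, 0)⟩,
  ⟨⟨9, 6, -32, 1, 26, 7, 8, -1, -1⟩, (8, 3, 5)⟩,
  ⟨⟨-9, -6, -23, -1, -26, 8, 8, -1, -7⟩, (13, 12, 18)⟩,
  ⟨⟨0, 0, 0, 0, 0, 0, 0, 0, 0⟩, (0, 0, 0)⟩,
  ⟨⟨0, 0, 0, 0, 0, 0, 0, 0, 0⟩, (0, 0, 0)⟩,
  ⟨⟨9, -6, -32, 1, -26, 7, 8, 1, -1⟩, (5, 9, 15)⟩,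
  ⟨⟨0, 0, 0, 0, 0, 0, 0, 0, 0⟩, (0, 0, 0)⟩,
  ⟨⟨21, -6, -28, 11, -14, 17, -4, -7, -1⟩, (16, 12, 6)⟩,
  ⟨⟨0, 0, 0, 0, 0, 0, 0, 0, 0⟩, (0, 0, 0)⟩,
  ⟨⟨0, 0, 0, 0, 0, 0, 0, 0, 0⟩, (0, 0, 0)⟩,
  ⟨⟨0, 0, 0, 0, 0, 0, 0, 0, 0⟩, (0, 0, 0)⟩,
  ⟨⟨0, 0, 0, 0, 0, 0, 0, 0, 0⟩, (0, 0, 0)⟩,
  ⟨⟨11, -14, -28, 21, -6, 7, 4, 7, -5⟩, (5, 13, 7)⟩,
  ⟨⟨0, 0, 0, 0, 0, 0, 0, 0, 0⟩, (0, 0, 0)⟩,
  ⟨⟨0, 0, 0, 0, 0, 0, 0, 0, 0⟩, (0, 0, 0)⟩,
  ⟨⟨0, 0, 0, 0, 0, 0, 0, 0, 0⟩, (0, 0, 0)⟩,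
  ⟨⟨-9, 6, -23, -1, 26, 8, 8, 1, -7⟩, (16, 6, 9)⟩]

/-- Unit moves. -/
noncomputable def U : List Mv := [mz,
  mz,
  ⟨⟨1, 0, 0, 0, -1, 0, 0, 0, 1⟩, .nil, (nat_lit 0), (nat_lit 2), (nat_lit 1), (nat_lit 0), (0, 0, 0), [], 2⟩,
  mz,
  ⟨⟨-1, 0, 1, 0, 1, 0, 0, 0, 1⟩, .nil, (nat_lit 6), (nat_lit 0), (nat_lit 0), (nat_lit 1), (0, 0, 0), [], 1⟩,
  ⟨⟨-1, 0, 1, 0, -1, 0, 0, 0, 1⟩, .nil, (nat_lit 0), (nat_lit 5), (nat_lit 1), (nat_lit 0), (0, 0, 0), [], 2⟩,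
  ⟨⟨-1, 0, 1, 0, 1, 0, 0, 0, 1⟩, .nil, (nat_lit 6), (nat_lit 0), (nat_lit 0), (nat_lit 1), (0, 0, 0), [], 1⟩]

theorem v_ty : tyb Dm S.ty1 Clm = true := by decide +kernel

theorem v_ty0 : tyb D0 (S.tys.getD 0 0) Cl0 = true := by decide +kernel

theorem v_msc : mscb S D0 [] Dm (nat_lit 10) = true := by decide +kernel

theorem v_mv0 : mvsn (nat_lit 14567652127) S D0 [] Dm (nat_lit 10) 0 D0 = true := by decide +kernel

theorem v_mm : mmsn (nat_lit 14567652127) S D0 [] Dm (nat_lit 10) = true := by decide +kernel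

theorem v_un : unb S D0 (nat_lit 10) U = true := by decide +kernel

theorem v_ok : okb S.oks [(0, 0, 0), (0, 3, 0), (0, 0, 0), (0, 0, 0), (2, 9, 0), (0, 0, 0), (2, 13, 3), (0, 0,
 0), (0, 0, 0), (0, 0, 0), (16, 25, 2), (1, 42, 0), (0, 0, 0), (24, 39, 1), (0, 0, 0), (10, 59, 2), (0, 0, 0),
 (0, 0, 0), (92, 95, 2), (0, 0, 0), (0, 0, 0), (0, 0, 0), (40, 469, 2), (0, 0, 0)] = true := by decide +kernel

theorem v_part : ∀ d < D0.p, (nat_lit 10).testBit d = true → part S (zc (D0 :: [])) d = true := by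
  intro d hd h
  have h1 : ∀ d < 7, (nat_lit 10).testBit d = true → d = 1 ∨ d = 3 := by decide
  rcases h1 d hd h with rfl | rfl
  · exact part_1
  · exact part_3

theorem main (n : ℕ) (ho : Odd n) (hr : ¬ Rep n) (h0 : Split 7 n) (hm : Split 19 n) :
    n ∈ EE := by
  refine concln (W := nat_lit 14567652127) (S := S) (P0 := D0) (Pl := []) (Pm := Dm) (cn := nat_lit 10) ?_ Dm_ok v_ty ?_ ?_ v_msc ?_ v_mm v_un v_part v_ok
    n ho hr ?_ hm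
  · simp only [List.forall_mem_cons]
    exact ⟨D0_ok, fun _ h => absurd h (by simp)⟩
  · exact all1 (φ := fun j P => ∃ L, tyb P (S.tys.getD j 0) L = true) ⟨_, v_ty0⟩
  · exact all1 (φ := fun j P => Nat.ble (S.pks.getD j 0) (Nat.pow P.p P.K) = true) (by decide +kernel)
  · exact all1 (φ := fun i P => mvsn (nat_lit 14567652127) S D0 [] Dm (nat_lit 10) i P = true) v_mv0
  · simp only [List.forall_mem_cons]
    exact ⟨h0, fun _ h => absurd h (by simp)⟩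

end Pool.Agent.Work.MP_9954fe_nt.P7_19

namespace Pool.Agent.Work.MP_9954fe_nt.P11_19

/-- Dummy move. -/
noncomputable def mz : Mv := ⟨⟨0, 0, 0, 0, 0, 0, 0, 0, 0⟩, .nil, (nat_lit 0), (nat_lit 0), (nat_lit 0), (nat_lit 0), (0, 0, 0), [], 0⟩

/-- Moves. -/
noncomputable def t0_1 : List Mv := [
  ⟨⟨3, 8, -11, -10, -1, 0, 4, -4, -11⟩, (.cons (nat_lit 1070329) (nat_lit 967682) (nat_lit 539537) (nat_lit 1) .nil), (nat_lit 4), (nat_lit 18), (nat_lit 5), (nat_lit 1), (4, 5, 9), [659034], 15⟩,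
  ⟨⟨3, 8, -11, 10, 1, 0, 4, -4, -11⟩, (.cons (nat_lit 875921) (nat_lit 1119000) (nat_lit 875934) (nat_lit 1) .nil), (nat_lit 10), (nat_lit 4), (nat_lit 6), (nat_lit 1), (4, 6, 9), [1], 17⟩,
  ⟨⟨1, -12, 0, 10, 1, 0, 4, -4, -11⟩, (.cons (nat_lit 1085974) (nat_lit 1028363) (nat_lit 1028364) (nat_lit 1) .nil), (nat_lit 16), (nat_lit 7), (nat_lit 15), (nat_lit 1), (5, 6, 9), [606330], 10⟩,
  ⟨⟨1, -12, 0, -10, -1, 0, 4, -4, -11⟩, (.cons (nat_lit 119952) (nat_lit 1335193) (nat_lit 119963) (nat_lit 1) .nil), (nat_lit 18), (nat_lit 3), (nat_lit 12), (nat_lit 1), (5, 5, 9), [278347], 11⟩,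
  ⟨⟨1, -12, 0, -10, -1, 0, 4, -4, -11⟩, (.cons (nat_lit 119952) (nat_lit 1335193) (nat_lit 119963) (nat_lit 1) .nil), (nat_lit 18), (nat_lit 3), (nat_lit 12), (nat_lit 1), (5, 5, 9), [278347], 11⟩,
  ⟨⟨1, -12, 0, 10, 1, 0, 4, -4, -11⟩, (.cons (nat_lit 1085974) (nat_lit 1028363) (nat_lit 1028364) (nat_lit 1) .nil), (nat_lit 16), (nat_lit 7), (nat_lit 15), (nat_lit 1), (5, 6, 9), [606330], 10⟩,
  ⟨⟨1, -12, 0, -10, -1, 0, 4, -4, -11⟩, (.cons (nat_lit 119952) (nat_lit 1335193) (nat_lit 119963) (nat_lit 1) .nil), (nat_lit 18), (nat_lit 3), (nat_lit 12), (nat_lit 1), (5, 5, 9), [278347], 11⟩,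
  ⟨⟨3, 8, -11, 10, 1, 0, 4, -4, -11⟩, (.cons (nat_lit 875921) (nat_lit 1119000) (nat_lit 875934) (nat_lit 1) .nil), (nat_lit 10), (nat_lit 4), (nat_lit 6), (nat_lit 1), (4, 6, 9), [1], 17⟩,
  ⟨⟨1, -12, 0, -10, -1, 0, 4, -4, -11⟩, (.cons (nat_lit 119952) (nat_lit 1335193) (nat_lit 119963) (nat_lit 1) .nil), (nat_lit 18), (nat_lit 3), (nat_lit 12), (nat_lit 1), (5, 5, 9), [278347], 11⟩,
  ⟨⟨3, 8, -11, -10, -1, 0, 4, -4, -11⟩, (.cons (nat_lit 1070329) (nat_lit 967682) (nat_lit 539537) (nat_lit 1) .nil), (nat_lit 4), (nat_lit 18), (nat_lit 5), (nat_lit 1), (4, 5, 9), [659034], 15⟩,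
  ⟨⟨1, -12, 0, -10, -1, 0, 4, -4, -11⟩, (.cons (nat_lit 119952) (nat_lit 1335193) (nat_lit 119963) (nat_lit 1) .nil), (nat_lit 18), (nat_lit 3), (nat_lit 12), (nat_lit 1), (5, 5, 9), [278347], 11⟩]

/-- Moves. -/
noncomputable def t0_4 : List Mv := [
  ⟨⟨-11, 0, 0, -4, 5, 12, -2, 8, -5⟩, (.cons (nat_lit 1068029) (nat_lit 957364) (nat_lit 267010) (nat_lit 1) .nil), (nat_lit 18), (nat_lit 0), (nat_lit 3), (nat_lit 1), (0, 5, 8), [929323], 8⟩,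
  ⟨⟨9, 8, -5, 4, -5, -12, -2, 8, -5⟩, (.cons (nat_lit 1271554) (nat_lit 666166) (nat_lit 829637) (nat_lit 1) .nil), (nat_lit 2), (nat_lit 7), (nat_lit 1), (nat_lit 0), (8, 6, 8), [966543], 18⟩,
  ⟨⟨9, 8, -5, 4, -5, -12, -2, 8, -5⟩, (.cons (nat_lit 1271554) (nat_lit 666166) (nat_lit 829637) (nat_lit 1) .nil), (nat_lit 2), (nat_lit 7), (nat_lit 1), (nat_lit 0), (8, 6, 8), [966543], 18⟩,
  ⟨⟨9, 8, -5, 4, -5, -12, -2, 8, -5⟩, (.cons (nat_lit 1271554) (nat_lit 666166) (nat_lit 829637) (nat_lit 1) .nil), (nat_lit 2), (nat_lit 7), (nat_lit 1), (nat_lit 0), (8, 6, 8), [966543], 18⟩,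
  ⟨⟨9, 8, -5, -4, 5, 12, -2, 8, -5⟩, (.cons (nat_lit 1689103) (nat_lit 886393) (nat_lit 328142) (nat_lit 1) .nil), (nat_lit 9), (nat_lit 9), (nat_lit 18), (nat_lit 1), (8, 5, 8), [883040], 11⟩,
  ⟨⟨-11, 0, 0, 4, -5, -12, -2, 8, -5⟩, (.cons (nat_lit 684984) (nat_lit 166323) (nat_lit 528516) (nat_lit 1) .nil), (nat_lit 5), (nat_lit 14), (nat_lit 1), (nat_lit 1), (0, 6, 8), [596425], 4⟩,
  ⟨⟨9, 8, -5, 4, -5, -12, -2, 8, -5⟩, (.cons (nat_lit 1271554) (nat_lit 666166) (nat_lit 829637) (nat_lit 1) .nil), (nat_lit 2), (nat_lit 7), (nat_lit 1), (nat_lit 0), (8, 6, 8), [966543], 18⟩,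
  ⟨⟨9, 8, -5, -4, 5, 12, -2, 8, -5⟩, (.cons (nat_lit 1689103) (nat_lit 886393) (nat_lit 328142) (nat_lit 1) .nil), (nat_lit 9), (nat_lit 9), (nat_lit 18), (nat_lit 1), (8, 5, 8), [883040], 11⟩,
  ⟨⟨-11, 0, 0, 4, -5, -12, -2, 8, -5⟩, (.cons (nat_lit 684984) (nat_lit 166323) (nat_lit 528516) (nat_lit 1) .nil), (nat_lit 5), (nat_lit 14), (nat_lit 1), (nat_lit 1), (0, 6, 8), [596425], 4⟩,
  ⟨⟨9, 8, -5, 4, -5, -12, -2, 8, -5⟩, (.cons (nat_lit 1271554) (nat_lit 666166) (nat_lit 829637) (nat_lit 1) .nil), (nat_lit 2), (nat_lit 7), (nat_lit 1), (nat_lit 0), (8, 6, 8), [966543], 18⟩,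
  ⟨⟨9, 8, -5, 4, -5, -12, -2, 8, -5⟩, (.cons (nat_lit 1271554) (nat_lit 666166) (nat_lit 829637) (nat_lit 1) .nil), (nat_lit 2), (nat_lit 7), (nat_lit 1), (nat_lit 0), (8, 6, 8), [966543], 18⟩]

/-- Moves. -/
noncomputable def t4_1 : List Mv := [
  mz,
  ⟨⟨-3, 16, 16, -10, 9, -10, 12, 12, -7⟩, (.cons (nat_lit 439960) (nat_lit 387945) (nat_lit 1535602) (nat_lit 1) .nil), (nat_lit 17), (nat_lit 0), (nat_lit 0), (nat_lit 0), (4, 7, 3), [1511958], 0⟩,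
  ⟨⟨-11, 12, 20, -16, -5, -2, -2, 16, -5⟩, (.cons (nat_lit 1650829) (nat_lit 399577) (nat_lit 577791) (nat_lit 1) .nil), (nat_lit 16), (nat_lit 0), (nat_lit 0), (nat_lit 0), (15, 8, 1), [909297], 0⟩,
  mz,
  mz,
  ⟨⟨11, 12, 9, 16, -5, -18, 2, 16, -7⟩, (.cons (nat_lit 716204) (nat_lit 1245849) (nat_lit 151018) (nat_lit 1) .nil), (nat_lit 16), (nat_lit 0), (nat_lit 0), (nat_lit 0), (1, 17, 14), [1739734], 0⟩,
  ⟨⟨-9, -4, -16, 16, 5, -18, 2, -16, -7⟩, (.cons (nat_lit 1771558) (nat_lit 869358) (nat_lit 1238124) (nat_lit 1) .nil), (nat_lit 11), (nat_lit 0), (nat_lit 0), (nat_lit 0), (11, 10, 6), [885961], 0⟩,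
  mz,
  ⟨⟨17, -12, -9, -4, -5, -18, 14, 8, -13⟩, (.cons (nat_lit 448158) (nat_lit 856970) (nat_lit 721829) (nat_lit 1) .nil), (nat_lit 6), (nat_lit 0), (nat_lit 0), (nat_lit 0), (9, 18, 13), [411223], 0⟩,
  mz,
  ⟨⟨9, -4, -25, -16, 5, -2, -2, -16, -5⟩, (.cons (nat_lit 1054710) (nat_lit 287367) (nat_lit 643572) (nat_lit 1) .nil), (nat_lit 11), (nat_lit 0), (nat_lit 0), (nat_lit 0), (3, 1, 12), [1033981], 0⟩,
  ⟨⟨17, -12, -8, 4, 5, -22, 14, 8, -1⟩, (.cons (nat_lit 632358) (nat_lit 604874) (nat_lit 1672106) (nat_lit 1) .nil), (nat_lit 5), (nat_lit 0), (nat_lit 0), (nat_lit 0), (10, 18, 6), [1530454], 0⟩,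
  ⟨⟨-3, 16, -13, 10, -9, -20, 12, 12, -5⟩, (.cons (nat_lit 75687) (nat_lit 1631493) (nat_lit 1457774) (nat_lit 1) .nil), (nat_lit 1), (nat_lit 0), (nat_lit 0), (nat_lit 0), (13, 1, 5), [742132], 0⟩,
  ⟨⟨-3, -16, -13, -10, -9, 20, 12, -12, -5⟩, (.cons (nat_lit 1605138) (nat_lit 1656242) (nat_lit 1) (nat_lit 1458413) .nil), (nat_lit 17), (nat_lit 0), (nat_lit 0), (nat_lit 0), (5, 4, 18), [1465559], 0⟩,
  mz,
  ⟨⟨17, 12, -8, 4, -5, -22, 14, -8, -1⟩, (.cons (nat_lit 167068) (nat_lit 948696) (nat_lit 1706231) (nat_lit 1) .nil), (nat_lit 5), (nat_lit 0), (nat_lit 0), (nat_lit 0), (16, 6, 2), [969708], 0⟩,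
  ⟨⟨-3, -20, -4, 4, -5, 18, 14, -8, -13⟩, (.cons (nat_lit 1321334) (nat_lit 105990) (nat_lit 1091317) (nat_lit 1) .nil), (nat_lit 2), (nat_lit 0), (nat_lit 0), (nat_lit 0), (13, 8, 9), [100411], 0⟩,
  ⟨⟨15, 4, -23, 10, 9, 10, 12, -12, -7⟩, (.cons (nat_lit 476256) (nat_lit 321391) (nat_lit 171394) (nat_lit 1) .nil), (nat_lit 13), (nat_lit 0), (nat_lit 0), (nat_lit 0), (1, 7, 16), [1249735], 0⟩]

/-- Moves. -/
noncomputable def t4_4 : List Mv := [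
  mz,
  ⟨⟨15, -4, -23, -10, 9, -10, 12, 12, -7⟩, (.cons (nat_lit 674011) (nat_lit 887058) (nat_lit 1622794) (nat_lit 1) .nil), (nat_lit 12), (nat_lit 0), (nat_lit 0), (nat_lit 0), (18, 7, 3), [25191], 0⟩,
  ⟨⟨-11, 12, 20, -16, -5, -2, -2, 16, -5⟩, (.cons (nat_lit 1650829) (nat_lit 399577) (nat_lit 577791) (nat_lit 1) .nil), (nat_lit 16), (nat_lit 0), (nat_lit 0), (nat_lit 0), (15, 8, 1), [909297], 0⟩,
  mz,
  mz,
  ⟨⟨11, 12, 9, -16, 5, 18, 2, 16, -7⟩, (.cons (nat_lit 1621132) (nat_lit 342495) (nat_lit 663496) (nat_lit 1) .nil), (nat_lit 8), (nat_lit 0), (nat_lit 0), (nat_lit 0), (1, 2, 14), [434636], 0⟩,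
  ⟨⟨11, -12, 9, 16, 5, -18, 2, -16, -7⟩, (.cons (nat_lit 1117713) (nat_lit 581023) (nat_lit 132986) (nat_lit 1) .nil), (nat_lit 16), (nat_lit 0), (nat_lit 0), (nat_lit 0), (14, 10, 6), [1533489], 0⟩,
  mz,
  ⟨⟨17, -12, -9, 4, 5, 18, 14, 8, -13⟩, (.cons (nat_lit 1549028) (nat_lit 342493) (nat_lit 775384) (nat_lit 1) .nil), (nat_lit 5), (nat_lit 0), (nat_lit 0), (nat_lit 0), (9, 1, 13), [274002], 0⟩,
  mz,
  ⟨⟨9, -4, -25, 16, -5, 2, -2, -16, -5⟩, (.cons (nat_lit 1771020) (nat_lit 579877) (nat_lit 353287) (nat_lit 1) .nil), (nat_lit 15), (nat_lit 0), (nat_lit 0), (nat_lit 0), (3, 18, 12), [533517], 0⟩,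
  ⟨⟨17, -12, -8, -4, -5, 22, 14, 8, -1⟩, (.cons (nat_lit 590520) (nat_lit 289786) (nat_lit 412708) (nat_lit 1) .nil), (nat_lit 6), (nat_lit 0), (nat_lit 0), (nat_lit 0), (10, 1, 6), [98400], 0⟩,
  ⟨⟨15, -4, 8, -10, 9, 20, 12, 12, -5⟩, (.cons (nat_lit 1771560) (nat_lit 498554) (nat_lit 337670) (nat_lit 1) .nil), (nat_lit 12), (nat_lit 0), (nat_lit 0), (nat_lit 0), (11, 18, 5), [809280], 0⟩,
  ⟨⟨-3, -16, -13, 10, 9, -20, 12, -12, -5⟩, (.cons (nat_lit 1231183) (nat_lit 424275) (nat_lit 495249) (nat_lit 1) .nil), (nat_lit 1), (nat_lit 0), (nat_lit 0), (nat_lit 0), (5, 15, 18), [434636], 0⟩,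
  mz,
  ⟨⟨-3, -20, 7, -4, 5, 22, 14, -8, -1⟩, (.cons (nat_lit 1034775) (nat_lit 1432074) (nat_lit 1457852) (nat_lit 1) .nil), (nat_lit 10), (nat_lit 0), (nat_lit 0), (nat_lit 0), (5, 13, 2), [468769], 0⟩,
  ⟨⟨-3, -20, -4, 4, -5, 18, 14, -8, -13⟩, (.cons (nat_lit 1321334) (nat_lit 105990) (nat_lit 1091317) (nat_lit 1) .nil), (nat_lit 2), (nat_lit 0), (nat_lit 0), (nat_lit 0), (13, 8, 9), [100411], 0⟩,
  ⟨⟨-3, -16, 16, 10, 9, 10, 12, -12, -7⟩, (.cons (nat_lit 1641577) (nat_lit 930576) (nat_lit 140937) (nat_lit 1) .nil), (nat_lit 1), (nat_lit 0), (nat_lit 0), (nat_lit 0), (15, 7, 16), [941331], 0⟩]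

/-- All the moves. -/
noncomputable def tabs : List (List (List Mv)) := [[[], t0_1, [], [], t0_4], [], [], [], [[], t4_1, [], [], t4_4]]

/-- Subtrie. -/
noncomputable def T1 : Tr := (.ev (nat_lit 20) (nat_lit 40224) (.nd (nat_lit 32) (.br (nat_lit 5) (.br (nat_lit
 1) (.ch (nat_lit 0) (.ev (nat_lit 48) (nat_lit 73734) (.nd (nat_lit 560) (.br (nat_lit 4) (.br (nat_lit 2)
 (.ch (nat_lit 1) (.ev (nat_lit 576) (nat_lit 131072) (.ev (nat_lit 589) (nat_lit 64) .dd))) (.br (nat_lit 3)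
 (.ch (nat_lit 2) (.ev (nat_lit 576) (nat_lit 131136) .dd)) (.ch (nat_lit 3) (.ev (nat_lit 628) (nat_lit
 131072) (.ev (nat_lit 637) (nat_lit 64) .dd))))) (.br (nat_lit 7) (.br (nat_lit 5) (.ch (nat_lit 4) (.ev
 (nat_lit 576) (nat_lit 64) (.ev (nat_lit 589) (nat_lit 131072) .dd))) (.ch (nat_lit 5) (.ev (nat_lit 576)
 (nat_lit 64) (.ev (nat_lit 589) (nat_lit 131072) .dd)))) (.br (nat_lit 8) (.ch (nat_lit 7) (.ev (nat_lit 596)
 (nat_lit 131072) (.ev (nat_lit 605) (nat_lit 64) .dd))) (.ch (nat_lit 8) (.ev (nat_lit 576) (nat_lit 131072)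
 (.ev (nat_lit 589) (nat_lit 64) .dd))))))))) (.br (nat_lit 2) (.ch (nat_lit 1) (.ev (nat_lit 48) (nat_lit 68)
 (.nd (nat_lit 512) (.br (nat_lit 5) (.br (nat_lit 3) (.ch (nat_lit 2) (.ev (nat_lit 528) (nat_lit 65538) (.nd
 (nat_lit 1568) (.br (nat_lit 4) (.br (nat_lit 3) (.ch (nat_lit 2) (.ev (nat_lit 1584) (nat_lit 131072) (.ev
 (nat_lit 1597) (nat_lit 8192) .dd))) (.ch (nat_lit 3) (.ev (nat_lit 1584) (nat_lit 8192) (.ev (nat_lit 1597)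
 (nat_lit 131072) .dd)))) (.br (nat_lit 7) (.ch (nat_lit 4) (.fin (nat_lit 576461302059713087))) (.br (nat_lit
 10) (.ch (nat_lit 7) (.ev (nat_lit 1584) (nat_lit 8192) (.ev (nat_lit 1597) (nat_lit 131072) .dd))) (.ch
 (nat_lit 10) (.ev (nat_lit 1584) (nat_lit 131072) (.ev (nat_lit 1597) (nat_lit 8192) .dd))))))))) (.br
 (nat_lit 4) (.ch (nat_lit 3) (.ev (nat_lit 528) (nat_lit 8192) (.nd (nat_lit 1568) (.br (nat_lit 4) (.br
 (nat_lit 1) (.ch (nat_lit 0) (.nd (nat_lit 3696) (.br (nat_lit 3) (.ch (nat_lit 0) (.ev (nat_lit 3712)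
 (nat_lit 2) (.fin (nat_lit 576458003501761087)))) (.br (nat_lit 7) (.ch (nat_lit 3) (.ev (nat_lit 3712)
 (nat_lit 131072) (.fin (nat_lit 576470098138055239)))) (.ch (nat_lit 7) (.ev (nat_lit 3712) (nat_lit 65536)
 (.ev (nat_lit 3780) (nat_lit 2) (.ev (nat_lit 3789) (nat_lit 131072) .dd)))))))) (.ch (nat_lit 1) (.ev
 (nat_lit 1584) (nat_lit 65538) (.ev (nat_lit 1597) (nat_lit 131072) .dd)))) (.br (nat_lit 9) (.ch (nat_lit 4)
 (.ev (nat_lit 1604) (nat_lit 65538) (.ev (nat_lit 1613) (nat_lit 131072) .dd))) (.br (nat_lit 10) (.ch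
 (nat_lit 9) (.ev (nat_lit 1584) (nat_lit 131074) (.ev (nat_lit 1597) (nat_lit 65536) .dd))) (.ch (nat_lit 10)
 (.ev (nat_lit 1584) (nat_lit 131072) (.ev (nat_lit 1604) (nat_lit 65536) (.ev (nat_lit 1613) (nat_lit 2)
 .dd)))))))))) (.ch (nat_lit 4) (.ev (nat_lit 528) (nat_lit 196608) (.nd (nat_lit 1568) (.br (nat_lit 6) (.br
 (nat_lit 1) (.ch (nat_lit 0) (.ev (nat_lit 1604) (nat_lit 2) (.ev (nat_lit 1613) (nat_lit 8192) .dd))) (.ch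
 (nat_lit 1) (.ev (nat_lit 1584) (nat_lit 8194) .dd))) (.br (nat_lit 9) (.ch (nat_lit 6) (.ev (nat_lit 1604)
 (nat_lit 2) (.ev (nat_lit 1613) (nat_lit 8192) .dd))) (.ch (nat_lit 9) (.nd (nat_lit 3792) (.br (nat_lit 8)
 (.ch (nat_lit 5) (.nd (nat_lit 4032) (.br (nat_lit 6) (.ch (nat_lit 5) (.fin (nat_lit 576477794721546814)))
 (.ch (nat_lit 6) (.ev (nat_lit 4048) (nat_lit 8192) (.ev (nat_lit 4061) (nat_lit 2) .dd)))))) (.ch (nat_lit 8)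
 (.ev (nat_lit 3808) (nat_lit 2) (.ev (nat_lit 3821) (nat_lit 8192) .dd))))))))))))) (.br (nat_lit 9) (.br
 (nat_lit 7) (.ch (nat_lit 5) (.ev (nat_lit 528) (nat_lit 131074) (.nd (nat_lit 1488) (.br (nat_lit 4) (.ch
 (nat_lit 1) (.ev (nat_lit 1524) (nat_lit 8192) (.ev (nat_lit 1533) (nat_lit 65536) .dd))) (.br (nat_lit 10)
 (.ch (nat_lit 4) (.ev (nat_lit 2708) (nat_lit 8192) (.ev (nat_lit 2717) (nat_lit 65536) .dd))) (.ch (nat_lit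
 10) (.fin (nat_lit 576444809375859243)))))))) (.ch (nat_lit 7) (.ev (nat_lit 528) (nat_lit 196608) (.ev
 (nat_lit 548) (nat_lit 2) (.ev (nat_lit 557) (nat_lit 8192) .dd))))) (.br (nat_lit 10) (.ch (nat_lit 9) (.ev
 (nat_lit 528) (nat_lit 8192) (.nd (nat_lit 1264) (.br (nat_lit 6) (.br (nat_lit 5) (.ch (nat_lit 2) (.ev
 (nat_lit 1280) (nat_lit 65536) (.ev (nat_lit 2660) (nat_lit 2) (.ev (nat_lit 2669) (nat_lit 131072) .dd))))
 (.ch (nat_lit 5) (.ev (nat_lit 3140) (nat_lit 65536) (.fin (nat_lit 576458003525878358))))) (.br (nat_lit 9)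
 (.ch (nat_lit 6) (.ev (nat_lit 1280) (nat_lit 2) (.ev (nat_lit 1300) (nat_lit 65536) (.ev (nat_lit 1309)
 (nat_lit 131072) .dd)))) (.br (nat_lit 10) (.ch (nat_lit 9) (.ev (nat_lit 1280) (nat_lit 131072) (.fin
 (nat_lit 576465700129292896)))) (.ch (nat_lit 10) (.ev (nat_lit 1280) (nat_lit 196608) (.ev (nat_lit 1293)
 (nat_lit 2) .dd))))))))) (.ch (nat_lit 10) (.ev (nat_lit 528) (nat_lit 8194) (.ev (nat_lit 548) (nat_lit
 65536) (.ev (nat_lit 557) (nat_lit 131072) .dd)))))))))) (.ch (nat_lit 2) (.ev (nat_lit 48) (nat_lit 196614)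
 (.nd (nat_lit 432) (.br (nat_lit 7) (.br (nat_lit 2) (.ch (nat_lit 1) (.nd (nat_lit 1488) (.br (nat_lit 5)
 (.br (nat_lit 3) (.ch (nat_lit 2) (.ev (nat_lit 1504) (nat_lit 64) (.ev (nat_lit 1517) (nat_lit 8192) .dd)))
 (.ch (nat_lit 3) (.ev (nat_lit 1504) (nat_lit 8192) (.ev (nat_lit 1517) (nat_lit 64) .dd)))) (.br (nat_lit 7)
 (.ch (nat_lit 5) (.nd (nat_lit 3568) (.br (nat_lit 10) (.ch (nat_lit 8) (.ev (nat_lit 3584) (nat_lit 64) (.ev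
 (nat_lit 3597) (nat_lit 8192) .dd))) (.ch (nat_lit 10) (.fin (nat_lit 576473396667695682)))))) (.br (nat_lit
 8) (.ch (nat_lit 7) (.ev (nat_lit 1504) (nat_lit 8256) .dd)) (.ch (nat_lit 8) (.ev (nat_lit 1524) (nat_lit 64)
 (.ev (nat_lit 1533) (nat_lit 8192) .dd)))))))) (.br (nat_lit 6) (.ch (nat_lit 2) (.ev (nat_lit 448) (nat_lit
 8256) .dd)) (.ch (nat_lit 6) (.ev (nat_lit 448) (nat_lit 8256) .dd)))) (.br (nat_lit 9) (.br (nat_lit 8) (.ch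
 (nat_lit 7) (.ev (nat_lit 448) (nat_lit 8192) (.ev (nat_lit 461) (nat_lit 64) .dd))) (.ch (nat_lit 8) (.ev
 (nat_lit 448) (nat_lit 64) (.ev (nat_lit 461) (nat_lit 8192) .dd)))) (.br (nat_lit 10) (.ch (nat_lit 9) (.nd
 (nat_lit 1488) (.br (nat_lit 6) (.br (nat_lit 3) (.ch (nat_lit 0) (.ev (nat_lit 1504) (nat_lit 8256) .dd))
 (.ch (nat_lit 3) (.ev (nat_lit 2688) (nat_lit 8256) .dd))) (.br (nat_lit 8) (.ch (nat_lit 6) (.nd (nat_lit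
 3936) (.br (nat_lit 3) (.ch (nat_lit 1) (.fin (nat_lit 576465700117758527))) (.ch (nat_lit 3) (.ev (nat_lit
 3952) (nat_lit 64) (.ev (nat_lit 3965) (nat_lit 8192) .dd)))))) (.br (nat_lit 9) (.ch (nat_lit 8) (.ev
 (nat_lit 1504) (nat_lit 8192) (.ev (nat_lit 1517) (nat_lit 64) .dd))) (.ch (nat_lit 9) (.ev (nat_lit 1504)
 (nat_lit 64) (.ev (nat_lit 1517) (nat_lit 8192) .dd)))))))) (.ch (nat_lit 10) (.nd (nat_lit 1360) (.br
 (nat_lit 6) (.br (nat_lit 4) (.ch (nat_lit 2) (.ev (nat_lit 1376) (nat_lit 8192) (.ev (nat_lit 1389) (nat_lit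
 64) .dd))) (.br (nat_lit 5) (.ch (nat_lit 4) (.ev (nat_lit 1376) (nat_lit 8192) (.ev (nat_lit 1389) (nat_lit
 64) .dd))) (.ch (nat_lit 5) (.ev (nat_lit 1376) (nat_lit 64) (.ev (nat_lit 1389) (nat_lit 8192) .dd))))) (.br
 (nat_lit 7) (.ch (nat_lit 6) (.ev (nat_lit 1376) (nat_lit 64) (.ev (nat_lit 1389) (nat_lit 8192) .dd))) (.br
 (nat_lit 8) (.ch (nat_lit 7) (.ev (nat_lit 2708) (nat_lit 8192) (.ev (nat_lit 2717) (nat_lit 64) .dd))) (.ch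
 (nat_lit 8) (.ev (nat_lit 1376) (nat_lit 64) (.ev (nat_lit 1389) (nat_lit 8192) .dd)))))))))))))))) (.br
 (nat_lit 9) (.br (nat_lit 7) (.ch (nat_lit 5) (.ev (nat_lit 48) (nat_lit 8192) (.nd (nat_lit 400) (.br
 (nat_lit 5) (.br (nat_lit 2) (.ch (nat_lit 1) (.ev (nat_lit 416) (nat_lit 131072) (.nd (nat_lit 1024) (.br
 (nat_lit 6) (.br (nat_lit 3) (.ch (nat_lit 1) (.ev (nat_lit 1040) (nat_lit 65540) (.nd (nat_lit 2528) (.br
 (nat_lit 10) (.ch (nat_lit 2) (.ev (nat_lit 2544) (nat_lit 64) (.ev (nat_lit 2557) (nat_lit 2) .dd))) (.ch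
 (nat_lit 10) (.fin (nat_lit 576459103038554689))))))) (.br (nat_lit 5) (.ch (nat_lit 3) (.ev (nat_lit 1040)
 (nat_lit 65538) (.ev (nat_lit 1332) (nat_lit 4) (.ev (nat_lit 1341) (nat_lit 64) .dd)))) (.ch (nat_lit 5) (.ev
 (nat_lit 1140) (nat_lit 65536) (.ev (nat_lit 2196) (nat_lit 2) (.ev (nat_lit 2272) (nat_lit 64) (.ev (nat_lit
 2285) (nat_lit 4) .dd))))))) (.br (nat_lit 7) (.ch (nat_lit 6) (.ev (nat_lit 1040) (nat_lit 64) (.ev (nat_lit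
 1060) (nat_lit 2) (.ev (nat_lit 3104) (nat_lit 4) (.ev (nat_lit 3117) (nat_lit 65536) .dd))))) (.br (nat_lit
 10) (.ch (nat_lit 7) (.ev (nat_lit 1040) (nat_lit 66) (.ev (nat_lit 2064) (nat_lit 4) (.ev (nat_lit 2077)
 (nat_lit 65536) .dd)))) (.ch (nat_lit 10) (.ev (nat_lit 1040) (nat_lit 65542) (.ev (nat_lit 1053) (nat_lit 64)
 .dd))))))))) (.br (nat_lit 3) (.ch (nat_lit 2) (.ev (nat_lit 416) (nat_lit 196678) .dd)) (.ch (nat_lit 3) (.ev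
 (nat_lit 416) (nat_lit 65600) (.ev (nat_lit 468) (nat_lit 131072) (.nd (nat_lit 1488) (.br (nat_lit 5) (.br
 (nat_lit 4) (.ch (nat_lit 1) (.ev (nat_lit 1524) (nat_lit 4) (.ev (nat_lit 1533) (nat_lit 2) .dd))) (.ch
 (nat_lit 4) (.ev (nat_lit 1504) (nat_lit 4) (.ev (nat_lit 1517) (nat_lit 2) .dd)))) (.br (nat_lit 6) (.ch
 (nat_lit 5) (.ev (nat_lit 1504) (nat_lit 2) (.ev (nat_lit 1517) (nat_lit 4) .dd))) (.br (nat_lit 9) (.ch
 (nat_lit 6) (.ev (nat_lit 1504) (nat_lit 2) (.ev (nat_lit 1517) (nat_lit 4) .dd))) (.ch (nat_lit 9) (.ev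
 (nat_lit 1504) (nat_lit 4) (.ev (nat_lit 1517) (nat_lit 2) .dd)))))))))))) (.br (nat_lit 9) (.br (nat_lit 8)
 (.ch (nat_lit 5) (.ev (nat_lit 416) (nat_lit 65538) (.nd (nat_lit 1360) (.br (nat_lit 3) (.br (nat_lit 2) (.ch
 (nat_lit 0) (.ev (nat_lit 1376) (nat_lit 64) (.ev (nat_lit 1524) (nat_lit 131072) (.ev (nat_lit 1533) (nat_lit
 4) .dd)))) (.ch (nat_lit 2) (.ev (nat_lit 1376) (nat_lit 4) (.fin (nat_lit 576473396685521458))))) (.br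
 (nat_lit 8) (.ch (nat_lit 3) (.ev (nat_lit 1376) (nat_lit 131072) (.fin (nat_lit 576461302066004527)))) (.ch
 (nat_lit 8) (.ev (nat_lit 1652) (nat_lit 64) (.nd (nat_lit 3536) (.br (nat_lit 2) (.ch (nat_lit 1) (.ev
 (nat_lit 3552) (nat_lit 131076) .dd)) (.br (nat_lit 8) (.ch (nat_lit 2) (.fin (nat_lit 576452505968788022)))
 (.ch (nat_lit 8) (.ev (nat_lit 3552) (nat_lit 4) (.ev (nat_lit 3565) (nat_lit 131072) .dd))))))))))))) (.ch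
 (nat_lit 8) (.ev (nat_lit 416) (nat_lit 131076) (.nd (nat_lit 1024) (.br (nat_lit 7) (.br (nat_lit 3) (.ch
 (nat_lit 1) (.ev (nat_lit 1040) (nat_lit 65538) (.ev (nat_lit 1053) (nat_lit 64) .dd))) (.br (nat_lit 5) (.ch
 (nat_lit 3) (.ev (nat_lit 1040) (nat_lit 2) (.fin (nat_lit 576475595697242707)))) (.ch (nat_lit 5) (.ev
 (nat_lit 1040) (nat_lit 65538) (.ev (nat_lit 1053) (nat_lit 64) .dd))))) (.br (nat_lit 8) (.ch (nat_lit 7)
 (.ev (nat_lit 1040) (nat_lit 64) (.nd (nat_lit 2528) (.br (nat_lit 5) (.br (nat_lit 4) (.ch (nat_lit 3) (.ev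
 (nat_lit 2544) (nat_lit 65538) .dd)) (.ch (nat_lit 4) (.ev (nat_lit 2544) (nat_lit 65536) (.ev (nat_lit 2557)
 (nat_lit 2) .dd)))) (.br (nat_lit 10) (.ch (nat_lit 5) (.ev (nat_lit 2544) (nat_lit 65536) (.ev (nat_lit 2557)
 (nat_lit 2) .dd))) (.ch (nat_lit 10) (.ev (nat_lit 2544) (nat_lit 2) (.ev (nat_lit 2557) (nat_lit 65536)
 .dd)))))))) (.br (nat_lit 9) (.ch (nat_lit 8) (.ev (nat_lit 1040) (nat_lit 65600) (.ev (nat_lit 1053) (nat_lit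
 2) .dd))) (.ch (nat_lit 9) (.ev (nat_lit 1040) (nat_lit 65536) (.ev (nat_lit 1076) (nat_lit 64) (.ev (nat_lit
 1085) (nat_lit 2) .dd))))))))))) (.br (nat_lit 10) (.ch (nat_lit 9) (.ev (nat_lit 416) (nat_lit 70) (.nd
 (nat_lit 1264) (.br (nat_lit 7) (.br (nat_lit 6) (.ch (nat_lit 4) (.nd (nat_lit 3280) (.br (nat_lit 2) (.ch
 (nat_lit 0) (.ev (nat_lit 3296) (nat_lit 131072) (.ev (nat_lit 3309) (nat_lit 65536) .dd))) (.ch (nat_lit 2)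
 (.fin (nat_lit 576487690313613896)))))) (.ch (nat_lit 6) (.ev (nat_lit 1300) (nat_lit 65536) (.ev (nat_lit
 1309) (nat_lit 131072) .dd)))) (.br (nat_lit 8) (.ch (nat_lit 7) (.ev (nat_lit 1280) (nat_lit 65536) (.ev
 (nat_lit 1293) (nat_lit 131072) .dd))) (.br (nat_lit 10) (.ch (nat_lit 8) (.ev (nat_lit 1300) (nat_lit 65536)
 (.ev (nat_lit 1309) (nat_lit 131072) .dd))) (.ch (nat_lit 10) (.ev (nat_lit 1280) (nat_lit 196608) .dd))))))))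
 (.ch (nat_lit 10) (.nd (nat_lit 960) (.br (nat_lit 6) (.br (nat_lit 4) (.ch (nat_lit 3) (.ev (nat_lit 976)
 (nat_lit 65536) (.nd (nat_lit 1984) (.br (nat_lit 4) (.br (nat_lit 2) (.ch (nat_lit 0) (.ev (nat_lit 2000)
 (nat_lit 131078) (.ev (nat_lit 2013) (nat_lit 64) .dd))) (.br (nat_lit 3) (.ch (nat_lit 2) (.ev (nat_lit 2000)
 (nat_lit 66) (.ev (nat_lit 2400) (nat_lit 131076) .dd))) (.ch (nat_lit 3) (.ev (nat_lit 2000) (nat_lit 66)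
 (.ev (nat_lit 2740) (nat_lit 131072) (.ev (nat_lit 2749) (nat_lit 4) .dd)))))) (.br (nat_lit 5) (.ch (nat_lit
 4) (.ev (nat_lit 2020) (nat_lit 2) (.ev (nat_lit 2064) (nat_lit 64) (.ev (nat_lit 2336) (nat_lit 131072) (.ev
 (nat_lit 2349) (nat_lit 4) .dd))))) (.br (nat_lit 6) (.ch (nat_lit 5) (.ev (nat_lit 2000) (nat_lit 131072)
 (.ev (nat_lit 2256) (nat_lit 2) (.ev (nat_lit 2468) (nat_lit 64) (.ev (nat_lit 2477) (nat_lit 4) .dd))))) (.ch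
 (nat_lit 6) (.ev (nat_lit 2000) (nat_lit 131140) (.ev (nat_lit 2013) (nat_lit 2) .dd))))))))) (.br (nat_lit 5)
 (.ch (nat_lit 4) (.ev (nat_lit 976) (nat_lit 2) (.ev (nat_lit 1236) (nat_lit 131072) (.ev (nat_lit 1300)
 (nat_lit 4) (.ev (nat_lit 2272) (nat_lit 64) (.ev (nat_lit 2285) (nat_lit 65536) .dd)))))) (.ch (nat_lit 5)
 (.ev (nat_lit 976) (nat_lit 64) (.ev (nat_lit 1300) (nat_lit 4) (.ev (nat_lit 1412) (nat_lit 65536) (.nd
 (nat_lit 1984) (.br (nat_lit 9) (.br (nat_lit 1) (.ch (nat_lit 0) (.ev (nat_lit 2288) (nat_lit 131072) (.ev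
 (nat_lit 2301) (nat_lit 2) .dd))) (.ch (nat_lit 1) (.ev (nat_lit 2000) (nat_lit 131072) (.ev (nat_lit 2013)
 (nat_lit 2) .dd)))) (.br (nat_lit 10) (.ch (nat_lit 9) (.ev (nat_lit 2132) (nat_lit 2) (.ev (nat_lit 2141)
 (nat_lit 131072) .dd))) (.ch (nat_lit 10) (.ev (nat_lit 2132) (nat_lit 2) (.ev (nat_lit 2141) (nat_lit 131072)
 .dd)))))))))))) (.br (nat_lit 7) (.ch (nat_lit 6) (.ev (nat_lit 976) (nat_lit 131140) (.ev (nat_lit 2608)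
 (nat_lit 65536) (.ev (nat_lit 2621) (nat_lit 2) .dd)))) (.br (nat_lit 9) (.ch (nat_lit 7) (.ev (nat_lit 976)
 (nat_lit 68) (.ev (nat_lit 2196) (nat_lit 65536) (.ev (nat_lit 2976) (nat_lit 2) (.ev (nat_lit 2989) (nat_lit
 131072) .dd))))) (.ch (nat_lit 9) (.ev (nat_lit 976) (nat_lit 196614) (.ev (nat_lit 989) (nat_lit 64)
 .dd)))))))))))))) (.ch (nat_lit 7) (.ev (nat_lit 48) (nat_lit 73728) (.nd (nat_lit 208) (.br (nat_lit 4) (.br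
 (nat_lit 1) (.ch (nat_lit 0) (.ev (nat_lit 224) (nat_lit 2) (.nd (nat_lit 1104) (.br (nat_lit 6) (.br (nat_lit
 4) (.ch (nat_lit 2) (.ev (nat_lit 1120) (nat_lit 68) (.ev (nat_lit 1133) (nat_lit 131072) .dd))) (.ch (nat_lit
 4) (.ev (nat_lit 1120) (nat_lit 131072) (.ev (nat_lit 2580) (nat_lit 4) (.ev (nat_lit 2589) (nat_lit 64)
 .dd))))) (.br (nat_lit 10) (.ch (nat_lit 6) (.ev (nat_lit 3140) (nat_lit 64) (.nd (nat_lit 3840) (.br (nat_lit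
 2) (.ch (nat_lit 1) (.ev (nat_lit 3856) (nat_lit 4) (.ev (nat_lit 3869) (nat_lit 131072) .dd))) (.br (nat_lit
 5) (.ch (nat_lit 2) (.fin (nat_lit 576473396709638729))) (.ch (nat_lit 5) (.ev (nat_lit 3856) (nat_lit 131076)
 .dd))))))) (.ch (nat_lit 10) (.ev (nat_lit 1120) (nat_lit 4) (.ev (nat_lit 1252) (nat_lit 64) (.ev (nat_lit
 1261) (nat_lit 131072) .dd))))))))) (.br (nat_lit 2) (.ch (nat_lit 1) (.ev (nat_lit 224) (nat_lit 131078) (.ev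
 (nat_lit 237) (nat_lit 64) .dd))) (.ch (nat_lit 2) (.ev (nat_lit 224) (nat_lit 131140) (.ev (nat_lit 237)
 (nat_lit 2) .dd))))) (.br (nat_lit 9) (.br (nat_lit 5) (.ch (nat_lit 4) (.ev (nat_lit 224) (nat_lit 4) (.nd
 (nat_lit 1360) (.br (nat_lit 5) (.br (nat_lit 2) (.ch (nat_lit 0) (.ev (nat_lit 1376) (nat_lit 64) (.nd
 (nat_lit 3872) (.br (nat_lit 5) (.ch (nat_lit 4) (.fin (nat_lit 576452505967739445))) (.ch (nat_lit 5) (.ev
 (nat_lit 3888) (nat_lit 2) (.ev (nat_lit 3901) (nat_lit 131072) .dd))))))) (.br (nat_lit 4) (.ch (nat_lit 2)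
 (.ev (nat_lit 1376) (nat_lit 131136) (.ev (nat_lit 1389) (nat_lit 2) .dd))) (.ch (nat_lit 4) (.ev (nat_lit
 1376) (nat_lit 2) (.ev (nat_lit 2708) (nat_lit 131072) (.ev (nat_lit 2717) (nat_lit 64) .dd)))))) (.br
 (nat_lit 7) (.ch (nat_lit 5) (.ev (nat_lit 1376) (nat_lit 131074) (.ev (nat_lit 1389) (nat_lit 64) .dd))) (.br
 (nat_lit 10) (.ch (nat_lit 7) (.ev (nat_lit 1524) (nat_lit 131072) (.nd (nat_lit 3904) (.br (nat_lit 5) (.ch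
 (nat_lit 3) (.fin (nat_lit 576466799626240583))) (.br (nat_lit 8) (.ch (nat_lit 5) (.ev (nat_lit 3920)
 (nat_lit 66) .dd)) (.ch (nat_lit 8) (.ev (nat_lit 3920) (nat_lit 66) .dd))))))) (.ch (nat_lit 10) (.ev
 (nat_lit 1376) (nat_lit 131074) (.ev (nat_lit 1389) (nat_lit 64) .dd))))))))) (.ch (nat_lit 5) (.ev (nat_lit
 224) (nat_lit 131074) (.nd (nat_lit 1200) (.br (nat_lit 7) (.br (nat_lit 6) (.ch (nat_lit 4) (.ev (nat_lit
 1216) (nat_lit 4) (.ev (nat_lit 1229) (nat_lit 64) .dd))) (.ch (nat_lit 6) (.ev (nat_lit 1216) (nat_lit 64)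
 (.ev (nat_lit 1229) (nat_lit 4) .dd)))) (.br (nat_lit 8) (.ch (nat_lit 7) (.ev (nat_lit 1216) (nat_lit 64)
 (.ev (nat_lit 1229) (nat_lit 4) .dd))) (.br (nat_lit 10) (.ch (nat_lit 8) (.nd (nat_lit 3376) (.br (nat_lit 4)
 (.ch (nat_lit 3) (.fin (nat_lit 576461302093267540))) (.br (nat_lit 10) (.ch (nat_lit 4) (.ev (nat_lit 3392)
 (nat_lit 64) (.ev (nat_lit 3405) (nat_lit 4) .dd))) (.ch (nat_lit 10) (.ev (nat_lit 3392) (nat_lit 4) (.ev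
 (nat_lit 3405) (nat_lit 64) .dd))))))) (.ch (nat_lit 10) (.ev (nat_lit 1216) (nat_lit 4) (.ev (nat_lit 1229)
 (nat_lit 64) .dd)))))))))) (.br (nat_lit 10) (.ch (nat_lit 9) (.ev (nat_lit 224) (nat_lit 64) (.ev (nat_lit
 468) (nat_lit 131072) (.nd (nat_lit 1104) (.br (nat_lit 8) (.br (nat_lit 4) (.ch (nat_lit 0) (.ev (nat_lit
 1120) (nat_lit 2) (.ev (nat_lit 1133) (nat_lit 4) .dd))) (.br (nat_lit 5) (.ch (nat_lit 4) (.ev (nat_lit 1120)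
 (nat_lit 4) (.ev (nat_lit 1133) (nat_lit 2) .dd))) (.ch (nat_lit 5) (.ev (nat_lit 3124) (nat_lit 4) (.ev
 (nat_lit 3133) (nat_lit 2) .dd))))) (.br (nat_lit 9) (.ch (nat_lit 8) (.ev (nat_lit 1120) (nat_lit 6) .dd))
 (.br (nat_lit 10) (.ch (nat_lit 9) (.ev (nat_lit 1120) (nat_lit 4) (.ev (nat_lit 1133) (nat_lit 2) .dd))) (.ch
 (nat_lit 10) (.ev (nat_lit 2100) (nat_lit 4) (.ev (nat_lit 2109) (nat_lit 2) .dd)))))))))) (.ch (nat_lit 10)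
 (.ev (nat_lit 224) (nat_lit 64) (.nd (nat_lit 1200) (.br (nat_lit 5) (.br (nat_lit 3) (.ch (nat_lit 2) (.ev
 (nat_lit 1216) (nat_lit 131078) .dd)) (.br (nat_lit 4) (.ch (nat_lit 3) (.ev (nat_lit 1216) (nat_lit 4) (.ev
 (nat_lit 1396) (nat_lit 131072) (.ev (nat_lit 1405) (nat_lit 2) .dd)))) (.ch (nat_lit 4) (.ev (nat_lit 2660)
 (nat_lit 4) (.ev (nat_lit 2672) (nat_lit 131072) (.ev (nat_lit 2685) (nat_lit 2) .dd)))))) (.br (nat_lit 9)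
 (.ch (nat_lit 5) (.ev (nat_lit 1216) (nat_lit 131072) (.nd (nat_lit 2224) (.br (nat_lit 5) (.ch (nat_lit 4)
 (.ev (nat_lit 2308) (nat_lit 2) (.ev (nat_lit 2317) (nat_lit 4) .dd))) (.br (nat_lit 10) (.ch (nat_lit 5) (.ev
 (nat_lit 2240) (nat_lit 4) (.ev (nat_lit 2253) (nat_lit 2) .dd))) (.ch (nat_lit 10) (.ev (nat_lit 2240)
 (nat_lit 2) (.ev (nat_lit 2253) (nat_lit 4) .dd)))))))) (.br (nat_lit 10) (.ch (nat_lit 9) (.ev (nat_lit 1396)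
 (nat_lit 131072) (.ev (nat_lit 2164) (nat_lit 2) (.ev (nat_lit 2173) (nat_lit 4) .dd)))) (.ch (nat_lit 10)
 (.ev (nat_lit 1216) (nat_lit 2) (.ev (nat_lit 1396) (nat_lit 131072) (.ev (nat_lit 1405) (nat_lit 4)
 .dd))))))))))))))))) (.br (nat_lit 10) (.ch (nat_lit 9) (.ev (nat_lit 48) (nat_lit 131136) (.nd (nat_lit 432)
 (.br (nat_lit 4) (.br (nat_lit 2) (.ch (nat_lit 0) (.nd (nat_lit 1104) (.br (nat_lit 6) (.br (nat_lit 2) (.ch
 (nat_lit 0) (.ev (nat_lit 2100) (nat_lit 65536) (.ev (nat_lit 2196) (nat_lit 2) (.fin (nat_lit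
 576448107915985500))))) (.br (nat_lit 4) (.ch (nat_lit 2) (.ev (nat_lit 1120) (nat_lit 8192) (.ev (nat_lit
 2608) (nat_lit 2) (.ev (nat_lit 3124) (nat_lit 65536) (.ev (nat_lit 3133) (nat_lit 4) .dd))))) (.ch (nat_lit
 4) (.ev (nat_lit 1120) (nat_lit 4) (.ev (nat_lit 1316) (nat_lit 8192) (.ev (nat_lit 2308) (nat_lit 65536) (.ev
 (nat_lit 2317) (nat_lit 2) .dd))))))) (.br (nat_lit 7) (.ch (nat_lit 6) (.ev (nat_lit 1120) (nat_lit 65540)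
 (.ev (nat_lit 1300) (nat_lit 8192) (.ev (nat_lit 1309) (nat_lit 2) .dd)))) (.br (nat_lit 8) (.ch (nat_lit 7)
 (.ev (nat_lit 1120) (nat_lit 73730) (.ev (nat_lit 1133) (nat_lit 4) .dd))) (.ch (nat_lit 8) (.ev (nat_lit
 1120) (nat_lit 6) (.ev (nat_lit 1316) (nat_lit 8192) (.ev (nat_lit 1325) (nat_lit 65536) .dd))))))))) (.br
 (nat_lit 3) (.ch (nat_lit 2) (.ev (nat_lit 448) (nat_lit 65536) (.nd (nat_lit 1200) (.br (nat_lit 6) (.br
 (nat_lit 3) (.ch (nat_lit 1) (.ev (nat_lit 1216) (nat_lit 6) (.ev (nat_lit 1229) (nat_lit 8192) .dd))) (.ch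
 (nat_lit 3) (.ev (nat_lit 1216) (nat_lit 4) (.ev (nat_lit 2308) (nat_lit 8192) (.ev (nat_lit 2317) (nat_lit 2)
 .dd))))) (.br (nat_lit 7) (.ch (nat_lit 6) (.ev (nat_lit 1216) (nat_lit 8194) (.ev (nat_lit 1229) (nat_lit 4)
 .dd))) (.br (nat_lit 10) (.ch (nat_lit 7) (.ev (nat_lit 2996) (nat_lit 8192) (.nd (nat_lit 3632) (.br (nat_lit
 5) (.ch (nat_lit 1) (.ev (nat_lit 3648) (nat_lit 4) (.ev (nat_lit 3661) (nat_lit 2) .dd))) (.ch (nat_lit 5)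
 (.fin (nat_lit 576460202532356689))))))) (.ch (nat_lit 10) (.ev (nat_lit 2640) (nat_lit 2) (.ev (nat_lit 2724)
 (nat_lit 4) (.ev (nat_lit 2733) (nat_lit 8192) .dd)))))))))) (.ch (nat_lit 3) (.ev (nat_lit 448) (nat_lit 2)
 (.nd (nat_lit 1488) (.br (nat_lit 3) (.br (nat_lit 2) (.ch (nat_lit 0) (.ev (nat_lit 1504) (nat_lit 73728)
 (.ev (nat_lit 1517) (nat_lit 4) .dd))) (.ch (nat_lit 2) (.nd (nat_lit 3664) (.br (nat_lit 9) (.ch (nat_lit 2)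
 (.ev (nat_lit 3680) (nat_lit 8192) (.fin (nat_lit 576454704977363507)))) (.ch (nat_lit 9) (.ev (nat_lit 3680)
 (nat_lit 65536) (.fin (nat_lit 576449207429710375)))))))) (.br (nat_lit 8) (.ch (nat_lit 3) (.ev (nat_lit
 1604) (nat_lit 4) (.nd (nat_lit 3440) (.br (nat_lit 5) (.ch (nat_lit 4) (.fin (nat_lit 576456904004813378)))
 (.br (nat_lit 8) (.ch (nat_lit 5) (.ev (nat_lit 3456) (nat_lit 65536) (.ev (nat_lit 3469) (nat_lit 8192)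
 .dd))) (.ch (nat_lit 8) (.ev (nat_lit 3456) (nat_lit 73728) .dd))))))) (.br (nat_lit 9) (.ch (nat_lit 8) (.ev
 (nat_lit 1504) (nat_lit 8192) (.ev (nat_lit 1540) (nat_lit 65536) (.ev (nat_lit 1549) (nat_lit 4) .dd)))) (.ch
 (nat_lit 9) (.ev (nat_lit 1504) (nat_lit 65540) (.ev (nat_lit 1517) (nat_lit 8192) .dd))))))))))) (.br
 (nat_lit 7) (.br (nat_lit 5) (.ch (nat_lit 4) (.ev (nat_lit 448) (nat_lit 8196) (.nd (nat_lit 1264) (.br
 (nat_lit 4) (.br (nat_lit 1) (.ch (nat_lit 0) (.ev (nat_lit 1280) (nat_lit 65536) (.ev (nat_lit 1293) (nat_lit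
 2) .dd))) (.br (nat_lit 3) (.ch (nat_lit 1) (.ev (nat_lit 1280) (nat_lit 2) (.ev (nat_lit 1293) (nat_lit
 65536) .dd))) (.ch (nat_lit 3) (.ev (nat_lit 2756) (nat_lit 65536) (.ev (nat_lit 2765) (nat_lit 2) .dd)))))
 (.br (nat_lit 7) (.ch (nat_lit 4) (.ev (nat_lit 1280) (nat_lit 65538) .dd)) (.br (nat_lit 10) (.ch (nat_lit 7)
 (.ev (nat_lit 1280) (nat_lit 65538) .dd)) (.ch (nat_lit 10) (.ev (nat_lit 1280) (nat_lit 2) (.ev (nat_lit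
 1293) (nat_lit 65536) .dd))))))))) (.ch (nat_lit 5) (.ev (nat_lit 448) (nat_lit 73730) (.ev (nat_lit 461)
 (nat_lit 4) .dd)))) (.br (nat_lit 10) (.ch (nat_lit 7) (.ev (nat_lit 448) (nat_lit 8196) (.nd (nat_lit 1360)
 (.br (nat_lit 6) (.br (nat_lit 3) (.ch (nat_lit 2) (.ev (nat_lit 1376) (nat_lit 65536) (.ev (nat_lit 1389)
 (nat_lit 2) .dd))) (.br (nat_lit 4) (.ch (nat_lit 3) (.ev (nat_lit 1376) (nat_lit 2) (.ev (nat_lit 1389)
 (nat_lit 65536) .dd))) (.ch (nat_lit 4) (.ev (nat_lit 1524) (nat_lit 65536) (.ev (nat_lit 1533) (nat_lit 2)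
 .dd))))) (.br (nat_lit 7) (.ch (nat_lit 6) (.ev (nat_lit 1396) (nat_lit 2) (.ev (nat_lit 1405) (nat_lit 65536)
 .dd))) (.br (nat_lit 10) (.ch (nat_lit 7) (.ev (nat_lit 1376) (nat_lit 65538) .dd)) (.ch (nat_lit 10) (.ev
 (nat_lit 1376) (nat_lit 65538) .dd)))))))) (.ch (nat_lit 10) (.ev (nat_lit 448) (nat_lit 65542) (.ev (nat_lit
 461) (nat_lit 8192) .dd))))))))) (.ch (nat_lit 10) (.ev (nat_lit 48) (nat_lit 131138) (.nd (nat_lit 560) (.br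
 (nat_lit 6) (.br (nat_lit 2) (.ch (nat_lit 0) (.ev (nat_lit 576) (nat_lit 73732) .dd)) (.br (nat_lit 5) (.ch
 (nat_lit 2) (.ev (nat_lit 576) (nat_lit 65540) (.ev (nat_lit 589) (nat_lit 8192) .dd))) (.ch (nat_lit 5) (.ev
 (nat_lit 612) (nat_lit 65540) (.ev (nat_lit 621) (nat_lit 8192) .dd))))) (.br (nat_lit 9) (.br (nat_lit 7)
 (.ch (nat_lit 6) (.ev (nat_lit 576) (nat_lit 73728) (.ev (nat_lit 589) (nat_lit 4) .dd))) (.ch (nat_lit 7)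
 (.ev (nat_lit 596) (nat_lit 73728) (.ev (nat_lit 605) (nat_lit 4) .dd)))) (.br (nat_lit 10) (.ch (nat_lit 9)
 (.ev (nat_lit 576) (nat_lit 4) (.ev (nat_lit 596) (nat_lit 8192) (.ev (nat_lit 605) (nat_lit 65536) .dd))))
 (.ch (nat_lit 10) (.ev (nat_lit 576) (nat_lit 8192) (.fin (nat_lit 576460202550182465)))))))))))))))

/-- Subtrie. -/
noncomputable def T4 : Tr := (.ev (nat_lit 20) (nat_lit 8258) (.nd (nat_lit 32) (.br (nat_lit 5) (.br (nat_lit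
 2) (.ch (nat_lit 0) (.ev (nat_lit 48) (nat_lit 169248) (.nd (nat_lit 512) (.br (nat_lit 3) (.br (nat_lit 1)
 (.ch (nat_lit 0) (.ev (nat_lit 528) (nat_lit 65536) (.ev (nat_lit 612) (nat_lit 2048) (.ev (nat_lit 621)
 (nat_lit 4) .dd)))) (.br (nat_lit 2) (.ch (nat_lit 1) (.ev (nat_lit 528) (nat_lit 65540) (.ev (nat_lit 541)
 (nat_lit 2048) .dd))) (.ch (nat_lit 2) (.ev (nat_lit 528) (nat_lit 2048) (.fin (nat_lit
 576462401571340863)))))) (.br (nat_lit 7) (.br (nat_lit 5) (.ch (nat_lit 3) (.ev (nat_lit 528) (nat_lit 2048)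
 (.ev (nat_lit 628) (nat_lit 65536) (.ev (nat_lit 637) (nat_lit 4) .dd)))) (.ch (nat_lit 5) (.ev (nat_lit 528)
 (nat_lit 4) (.ev (nat_lit 596) (nat_lit 2048) (.ev (nat_lit 605) (nat_lit 65536) .dd))))) (.br (nat_lit 10)
 (.ch (nat_lit 7) (.ev (nat_lit 612) (nat_lit 4) (.ev (nat_lit 644) (nat_lit 2048) (.ev (nat_lit 653) (nat_lit
 65536) .dd)))) (.ch (nat_lit 10) (.ev (nat_lit 528) (nat_lit 67588) .dd)))))))) (.br (nat_lit 4) (.ch (nat_lit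
 2) (.ev (nat_lit 48) (nat_lit 164132) (.nd (nat_lit 160) (.br (nat_lit 5) (.br (nat_lit 1) (.ch (nat_lit 0)
 (.ev (nat_lit 176) (nat_lit 2048) (.nd (nat_lit 768) (.br (nat_lit 8) (.br (nat_lit 4) (.ch (nat_lit 0) (.nd
 (nat_lit 1664) (.br (nat_lit 10) (.ch (nat_lit 0) (.ev (nat_lit 1680) (nat_lit 4096) (.ev (nat_lit 1940)
 (nat_lit 1024) (.ev (nat_lit 1949) (nat_lit 65536) .dd)))) (.ch (nat_lit 10) (.ev (nat_lit 1680) (nat_lit
 65536) (.ev (nat_lit 2308) (nat_lit 4096) (.ev (nat_lit 2317) (nat_lit 1024) .dd))))))) (.br (nat_lit 5) (.ch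
 (nat_lit 4) (.ev (nat_lit 784) (nat_lit 66560) (.ev (nat_lit 797) (nat_lit 4096) .dd))) (.ch (nat_lit 5) (.nd
 (nat_lit 1696) (.br (nat_lit 5) (.br (nat_lit 3) (.ch (nat_lit 0) (.ev (nat_lit 1712) (nat_lit 66560) (.ev
 (nat_lit 1725) (nat_lit 4096) .dd))) (.ch (nat_lit 3) (.ev (nat_lit 1712) (nat_lit 4096) (.ev (nat_lit 2100)
 (nat_lit 65536) (.ev (nat_lit 2109) (nat_lit 1024) .dd))))) (.br (nat_lit 6) (.ch (nat_lit 5) (.ev (nat_lit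
 1712) (nat_lit 65536) (.ev (nat_lit 2100) (nat_lit 1024) (.ev (nat_lit 2109) (nat_lit 4096) .dd)))) (.br
 (nat_lit 8) (.ch (nat_lit 6) (.ev (nat_lit 1712) (nat_lit 1024) (.ev (nat_lit 1860) (nat_lit 4096) (.ev
 (nat_lit 1869) (nat_lit 65536) .dd)))) (.ch (nat_lit 8) (.ev (nat_lit 1712) (nat_lit 65536) (.ev (nat_lit
 2436) (nat_lit 4096) (.ev (nat_lit 2445) (nat_lit 1024) .dd))))))))))) (.br (nat_lit 9) (.ch (nat_lit 8) (.ev
 (nat_lit 784) (nat_lit 69632) (.ev (nat_lit 797) (nat_lit 1024) .dd))) (.br (nat_lit 10) (.ch (nat_lit 9) (.ev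
 (nat_lit 784) (nat_lit 5120) (.ev (nat_lit 797) (nat_lit 65536) .dd))) (.ch (nat_lit 10) (.nd (nat_lit 1744)
 (.br (nat_lit 9) (.br (nat_lit 6) (.ch (nat_lit 3) (.ev (nat_lit 1760) (nat_lit 69632) (.ev (nat_lit 1773)
 (nat_lit 1024) .dd))) (.ch (nat_lit 6) (.ev (nat_lit 1760) (nat_lit 69632) (.ev (nat_lit 1773) (nat_lit 1024)
 .dd)))) (.br (nat_lit 10) (.ch (nat_lit 9) (.ev (nat_lit 1760) (nat_lit 1024) (.ev (nat_lit 2196) (nat_lit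
 4096) (.ev (nat_lit 2205) (nat_lit 65536) .dd)))) (.ch (nat_lit 10) (.ev (nat_lit 1760) (nat_lit 1024) (.ev
 (nat_lit 2804) (nat_lit 65536) (.ev (nat_lit 2813) (nat_lit 4096) .dd)))))))))))))) (.br (nat_lit 4) (.ch
 (nat_lit 1) (.ev (nat_lit 176) (nat_lit 65536) (.nd (nat_lit 1024) (.br (nat_lit 8) (.br (nat_lit 5) (.ch
 (nat_lit 2) (.ev (nat_lit 1040) (nat_lit 1024) (.ev (nat_lit 1252) (nat_lit 4096) (.ev (nat_lit 1261) (nat_lit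
 2048) .dd)))) (.ch (nat_lit 5) (.ev (nat_lit 1040) (nat_lit 2048) (.ev (nat_lit 1460) (nat_lit 4096) (.ev
 (nat_lit 1469) (nat_lit 1024) .dd))))) (.br (nat_lit 9) (.ch (nat_lit 8) (.ev (nat_lit 1040) (nat_lit 5120)
 (.ev (nat_lit 1053) (nat_lit 2048) .dd))) (.br (nat_lit 10) (.ch (nat_lit 9) (.ev (nat_lit 1040) (nat_lit
 2048) (.nd (nat_lit 3152) (.br (nat_lit 1) (.ch (nat_lit 0) (.fin (nat_lit 576448107926471260))) (.ch (nat_lit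
 1) (.ev (nat_lit 3168) (nat_lit 1024) (.ev (nat_lit 3181) (nat_lit 4096) .dd))))))) (.ch (nat_lit 10) (.ev
 (nat_lit 1040) (nat_lit 4096) (.fin (nat_lit 576475595697242682)))))))))) (.ch (nat_lit 4) (.ev (nat_lit 176)
 (nat_lit 7168) (.ev (nat_lit 189) (nat_lit 65536) .dd))))) (.br (nat_lit 9) (.br (nat_lit 7) (.ch (nat_lit 5)
 (.ev (nat_lit 176) (nat_lit 3072) (.nd (nat_lit 960) (.br (nat_lit 5) (.br (nat_lit 2) (.ch (nat_lit 1) (.ev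
 (nat_lit 976) (nat_lit 65536) (.ev (nat_lit 989) (nat_lit 4096) .dd))) (.ch (nat_lit 2) (.ev (nat_lit 976)
 (nat_lit 4096) (.ev (nat_lit 989) (nat_lit 65536) .dd)))) (.br (nat_lit 6) (.ch (nat_lit 5) (.nd (nat_lit
 3504) (.br (nat_lit 9) (.ch (nat_lit 8) (.ev (nat_lit 3520) (nat_lit 65536) (.ev (nat_lit 3533) (nat_lit 4096)
 .dd))) (.ch (nat_lit 9) (.fin (nat_lit 576453605482512962)))))) (.br (nat_lit 9) (.ch (nat_lit 6) (.ev
 (nat_lit 976) (nat_lit 4096) (.ev (nat_lit 989) (nat_lit 65536) .dd))) (.ch (nat_lit 9) (.ev (nat_lit 976)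
 (nat_lit 65536) (.ev (nat_lit 989) (nat_lit 4096) .dd))))))))) (.ch (nat_lit 7) (.ev (nat_lit 176) (nat_lit
 69632) (.ev (nat_lit 468) (nat_lit 2048) (.ev (nat_lit 477) (nat_lit 1024) .dd))))) (.br (nat_lit 10) (.ch
 (nat_lit 9) (.ev (nat_lit 176) (nat_lit 5120) (.nd (nat_lit 1360) (.br (nat_lit 4) (.ch (nat_lit 1) (.ev
 (nat_lit 2708) (nat_lit 2048) (.ev (nat_lit 2717) (nat_lit 65536) .dd))) (.br (nat_lit 6) (.ch (nat_lit 4)
 (.fin (nat_lit 576450306942386747))) (.ch (nat_lit 6) (.ev (nat_lit 1412) (nat_lit 65536) (.ev (nat_lit 1421)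
 (nat_lit 2048) .dd)))))))) (.ch (nat_lit 10) (.ev (nat_lit 176) (nat_lit 65536) (.nd (nat_lit 1104) (.br
 (nat_lit 6) (.br (nat_lit 5) (.ch (nat_lit 0) (.ev (nat_lit 1120) (nat_lit 1024) (.ev (nat_lit 2724) (nat_lit
 2048) (.ev (nat_lit 2733) (nat_lit 4096) .dd)))) (.ch (nat_lit 5) (.ev (nat_lit 1120) (nat_lit 2048) (.ev
 (nat_lit 2420) (nat_lit 4096) (.ev (nat_lit 2429) (nat_lit 1024) .dd))))) (.br (nat_lit 7) (.ch (nat_lit 6)
 (.ev (nat_lit 1396) (nat_lit 2048) (.ev (nat_lit 2624) (nat_lit 4096) (.ev (nat_lit 2637) (nat_lit 1024)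
 .dd)))) (.br (nat_lit 8) (.ch (nat_lit 7) (.ev (nat_lit 1120) (nat_lit 2048) (.ev (nat_lit 1140) (nat_lit
 1024) (.ev (nat_lit 1149) (nat_lit 4096) .dd)))) (.ch (nat_lit 8) (.ev (nat_lit 1120) (nat_lit 4096) (.ev
 (nat_lit 1396) (nat_lit 2048) (.ev (nat_lit 1405) (nat_lit 1024) .dd)))))))))))))))) (.ch (nat_lit 4) (.ev
 (nat_lit 48) (nat_lit 68644) (.nd (nat_lit 336) (.br (nat_lit 4) (.br (nat_lit 2) (.ch (nat_lit 0) (.ev
 (nat_lit 352) (nat_lit 131328) (.ev (nat_lit 372) (nat_lit 32768) (.ev (nat_lit 381) (nat_lit 4096) .dd))))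
 (.br (nat_lit 3) (.ch (nat_lit 2) (.ev (nat_lit 352) (nat_lit 33024) (.nd (nat_lit 1360) (.br (nat_lit 2) (.br
 (nat_lit 1) (.ch (nat_lit 0) (.nd (nat_lit 3824) (.ch (nat_lit 3) (.nd (nat_lit 4064) (.br (nat_lit 10) (.ch
 (nat_lit 4) (.fin (nat_lit 576444809372713538))) (.ch (nat_lit 10) (.ev (nat_lit 4080) (nat_lit 4096) (.ev
 (nat_lit 4093) (nat_lit 131072) .dd)))))))) (.ch (nat_lit 1) (.ev (nat_lit 1540) (nat_lit 4096) (.ev (nat_lit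
 1549) (nat_lit 131072) .dd)))) (.br (nat_lit 4) (.ch (nat_lit 2) (.ev (nat_lit 1376) (nat_lit 135168) .dd))
 (.br (nat_lit 9) (.ch (nat_lit 4) (.ev (nat_lit 1376) (nat_lit 4096) (.ev (nat_lit 1389) (nat_lit 131072)
 .dd))) (.ch (nat_lit 9) (.ev (nat_lit 1376) (nat_lit 131072) (.ev (nat_lit 1389) (nat_lit 4096) .dd)))))))))
 (.ch (nat_lit 3) (.ev (nat_lit 352) (nat_lit 131072) (.nd (nat_lit 1104) (.br (nat_lit 6) (.br (nat_lit 5)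
 (.ch (nat_lit 4) (.ev (nat_lit 1120) (nat_lit 36864) (.ev (nat_lit 1133) (nat_lit 256) .dd))) (.ch (nat_lit 5)
 (.ev (nat_lit 1120) (nat_lit 256) (.ev (nat_lit 3220) (nat_lit 32768) (.ev (nat_lit 3229) (nat_lit 4096)
 .dd))))) (.br (nat_lit 7) (.ch (nat_lit 6) (.ev (nat_lit 1120) (nat_lit 32768) (.ev (nat_lit 2452) (nat_lit
 256) (.ev (nat_lit 2461) (nat_lit 4096) .dd)))) (.br (nat_lit 8) (.ch (nat_lit 7) (.ev (nat_lit 1120) (nat_lit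
 4096) (.ev (nat_lit 1140) (nat_lit 256) (.ev (nat_lit 1149) (nat_lit 32768) .dd)))) (.ch (nat_lit 8) (.ev
 (nat_lit 2388) (nat_lit 32768) (.ev (nat_lit 3060) (nat_lit 256) (.ev (nat_lit 3069) (nat_lit 4096)
 .dd)))))))))))) (.br (nat_lit 9) (.br (nat_lit 7) (.ch (nat_lit 4) (.ev (nat_lit 352) (nat_lit 135424) (.ev
 (nat_lit 365) (nat_lit 32768) .dd))) (.ch (nat_lit 7) (.ev (nat_lit 352) (nat_lit 36864) (.nd (nat_lit 1488)
 (.br (nat_lit 4) (.br (nat_lit 2) (.ch (nat_lit 1) (.ev (nat_lit 1504) (nat_lit 256) (.ev (nat_lit 1517)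
 (nat_lit 131072) .dd))) (.ch (nat_lit 2) (.ev (nat_lit 1504) (nat_lit 131072) (.ev (nat_lit 1517) (nat_lit
 256) .dd)))) (.br (nat_lit 6) (.ch (nat_lit 4) (.nd (nat_lit 3744) (.br (nat_lit 6) (.ch (nat_lit 4) (.nd
 (nat_lit 3968) (.br (nat_lit 7) (.ch (nat_lit 4) (.fin (nat_lit 576452505952010809))) (.ch (nat_lit 7) (.ev
 (nat_lit 3984) (nat_lit 131072) (.ev (nat_lit 3997) (nat_lit 256) .dd)))))) (.ch (nat_lit 6) (.ev (nat_lit
 3760) (nat_lit 256) (.ev (nat_lit 3773) (nat_lit 131072) .dd)))))) (.br (nat_lit 9) (.ch (nat_lit 6) (.ev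
 (nat_lit 1504) (nat_lit 256) (.ev (nat_lit 1517) (nat_lit 131072) .dd))) (.ch (nat_lit 9) (.ev (nat_lit 1620)
 (nat_lit 131072) (.ev (nat_lit 1629) (nat_lit 256) .dd)))))))))) (.br (nat_lit 10) (.ch (nat_lit 9) (.ev
 (nat_lit 352) (nat_lit 36864) (.ev (nat_lit 500) (nat_lit 256) (.ev (nat_lit 509) (nat_lit 131072) .dd))))
 (.ch (nat_lit 10) (.nd (nat_lit 1024) (.br (nat_lit 6) (.br (nat_lit 3) (.ch (nat_lit 2) (.ev (nat_lit 1040)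
 (nat_lit 4352) (.fin (nat_lit 576444809396830790)))) (.br (nat_lit 4) (.ch (nat_lit 3) (.ev (nat_lit 1040)
 (nat_lit 167936) (.ev (nat_lit 1053) (nat_lit 256) .dd))) (.ch (nat_lit 4) (.ev (nat_lit 1040) (nat_lit 33024)
 (.fin (nat_lit 576426117698110000)))))) (.br (nat_lit 7) (.ch (nat_lit 6) (.ev (nat_lit 1076) (nat_lit 256)
 (.ev (nat_lit 2388) (nat_lit 32768) (.ev (nat_lit 2624) (nat_lit 131072) (.ev (nat_lit 2637) (nat_lit 4096)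
 .dd))))) (.br (nat_lit 10) (.ch (nat_lit 7) (.ev (nat_lit 1040) (nat_lit 131072) (.ev (nat_lit 1060) (nat_lit
 32768) (.nd (nat_lit 3344) (.br (nat_lit 5) (.ch (nat_lit 4) (.ev (nat_lit 3360) (nat_lit 256) (.ev (nat_lit
 3373) (nat_lit 4096) .dd))) (.br (nat_lit 6) (.ch (nat_lit 5) (.fin (nat_lit 576465700097835582))) (.ch
 (nat_lit 6) (.ev (nat_lit 3360) (nat_lit 4096) (.ev (nat_lit 3373) (nat_lit 256) .dd))))))))) (.ch (nat_lit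
 10) (.ev (nat_lit 1040) (nat_lit 4096) (.ev (nat_lit 1300) (nat_lit 131072) (.ev (nat_lit 2852) (nat_lit
 32768) (.ev (nat_lit 2861) (nat_lit 256) .dd)))))))))))))))))) (.br (nat_lit 7) (.br (nat_lit 6) (.ch (nat_lit
 5) (.ev (nat_lit 48) (nat_lit 197636) (.nd (nat_lit 272) (.br (nat_lit 5) (.br (nat_lit 3) (.ch (nat_lit 0)
 (.ev (nat_lit 288) (nat_lit 4096) (.nd (nat_lit 896) (.br (nat_lit 6) (.br (nat_lit 2) (.ch (nat_lit 0) (.ev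
 (nat_lit 912) (nat_lit 2080) (.ev (nat_lit 1412) (nat_lit 32768) (.ev (nat_lit 1421) (nat_lit 256) .dd))))
 (.br (nat_lit 4) (.ch (nat_lit 2) (.ev (nat_lit 912) (nat_lit 288) (.ev (nat_lit 1060) (nat_lit 2048) (.ev
 (nat_lit 1069) (nat_lit 32768) .dd)))) (.ch (nat_lit 4) (.ev (nat_lit 1140) (nat_lit 32) (.nd (nat_lit 2528)
 (.br (nat_lit 9) (.ch (nat_lit 3) (.ev (nat_lit 2544) (nat_lit 32768) (.fin (nat_lit 576461302057615935))))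
 (.ch (nat_lit 9) (.ev (nat_lit 2544) (nat_lit 2304) (.ev (nat_lit 2557) (nat_lit 32768) .dd))))))))) (.br
 (nat_lit 7) (.ch (nat_lit 6) (.ev (nat_lit 1348) (nat_lit 2048) (.ev (nat_lit 2196) (nat_lit 256) (.ev
 (nat_lit 2436) (nat_lit 32768) (.ev (nat_lit 2445) (nat_lit 32) .dd))))) (.br (nat_lit 8) (.ch (nat_lit 7)
 (.ev (nat_lit 912) (nat_lit 35072) (.ev (nat_lit 925) (nat_lit 32) .dd))) (.ch (nat_lit 8) (.ev (nat_lit 912)
 (nat_lit 32768) (.nd (nat_lit 2224) (.br (nat_lit 10) (.ch (nat_lit 6) (.ev (nat_lit 2240) (nat_lit 256) (.ev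
 (nat_lit 2308) (nat_lit 2048) (.ev (nat_lit 2317) (nat_lit 32) .dd)))) (.ch (nat_lit 10) (.ev (nat_lit 2240)
 (nat_lit 2048) (.ev (nat_lit 3044) (nat_lit 256) (.ev (nat_lit 3053) (nat_lit 32) .dd)))))))))))))) (.br
 (nat_lit 4) (.ch (nat_lit 3) (.ev (nat_lit 288) (nat_lit 34848) (.nd (nat_lit 1200) (.br (nat_lit 2) (.ch
 (nat_lit 0) (.ev (nat_lit 3076) (nat_lit 4096) (.ev (nat_lit 3085) (nat_lit 256) .dd))) (.br (nat_lit 3) (.ch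
 (nat_lit 2) (.ev (nat_lit 2468) (nat_lit 4096) (.ev (nat_lit 2477) (nat_lit 256) .dd))) (.ch (nat_lit 3) (.ev
 (nat_lit 3236) (nat_lit 256) (.ev (nat_lit 3245) (nat_lit 4096) .dd)))))))) (.ch (nat_lit 4) (.ev (nat_lit
 288) (nat_lit 33024) (.nd (nat_lit 1264) (.br (nat_lit 5) (.br (nat_lit 4) (.ch (nat_lit 3) (.ev (nat_lit
 1280) (nat_lit 2048) (.ev (nat_lit 1524) (nat_lit 32) (.ev (nat_lit 1533) (nat_lit 4096) .dd)))) (.ch (nat_lit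
 4) (.ev (nat_lit 1280) (nat_lit 32) (.fin (nat_lit 576464600619762242))))) (.br (nat_lit 6) (.ch (nat_lit 5)
 (.ev (nat_lit 1280) (nat_lit 4096) (.nd (nat_lit 3728) (.ch (nat_lit 1) (.nd (nat_lit 4000) (.br (nat_lit 9)
 (.ch (nat_lit 1) (.ev (nat_lit 4016) (nat_lit 2048) (.ev (nat_lit 4029) (nat_lit 32) .dd))) (.ch (nat_lit 9)
 (.fin (nat_lit 576467899144159801))))))))) (.br (nat_lit 10) (.ch (nat_lit 6) (.ev (nat_lit 1280) (nat_lit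
 2080) (.ev (nat_lit 1293) (nat_lit 4096) .dd))) (.ch (nat_lit 10) (.ev (nat_lit 1280) (nat_lit 4096) (.ev
 (nat_lit 1636) (nat_lit 32) (.ev (nat_lit 1645) (nat_lit 2048) .dd)))))))))))) (.br (nat_lit 7) (.br (nat_lit
 6) (.ch (nat_lit 5) (.ev (nat_lit 288) (nat_lit 38944) (.ev (nat_lit 301) (nat_lit 256) .dd))) (.ch (nat_lit
 6) (.ev (nat_lit 288) (nat_lit 2304) (.ev (nat_lit 388) (nat_lit 4096) (.ev (nat_lit 484) (nat_lit 32768) (.ev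
 (nat_lit 493) (nat_lit 32) .dd)))))) (.br (nat_lit 9) (.ch (nat_lit 7) (.ev (nat_lit 288) (nat_lit 256) (.nd
 (nat_lit 960) (.br (nat_lit 6) (.br (nat_lit 5) (.ch (nat_lit 2) (.ev (nat_lit 976) (nat_lit 36864) (.ev
 (nat_lit 1060) (nat_lit 32) (.ev (nat_lit 1069) (nat_lit 2048) .dd)))) (.ch (nat_lit 5) (.ev (nat_lit 976)
 (nat_lit 36864) (.ev (nat_lit 1060) (nat_lit 2048) (.ev (nat_lit 1069) (nat_lit 32) .dd))))) (.br (nat_lit 7)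
 (.ch (nat_lit 6) (.ev (nat_lit 976) (nat_lit 2048) (.ev (nat_lit 1476) (nat_lit 32768) (.nd (nat_lit 3408)
 (.br (nat_lit 10) (.ch (nat_lit 0) (.ev (nat_lit 3428) (nat_lit 32) (.ev (nat_lit 3437) (nat_lit 4096) .dd)))
 (.ch (nat_lit 10) (.fin (nat_lit 576470098152735294)))))))) (.br (nat_lit 9) (.ch (nat_lit 7) (.ev (nat_lit
 976) (nat_lit 32) (.ev (nat_lit 2660) (nat_lit 4096) (.fin (nat_lit 576471197665411631))))) (.ch (nat_lit 9)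
 (.ev (nat_lit 1060) (nat_lit 2048) (.ev (nat_lit 2868) (nat_lit 32) (.fin (nat_lit
 576465700085252644))))))))))) (.ch (nat_lit 9) (.ev (nat_lit 288) (nat_lit 4128) (.nd (nat_lit 832) (.br
 (nat_lit 2) (.br (nat_lit 1) (.ch (nat_lit 0) (.ev (nat_lit 848) (nat_lit 2048) (.nd (nat_lit 1888) (.br
 (nat_lit 10) (.ch (nat_lit 1) (.ev (nat_lit 2356) (nat_lit 32768) (.ev (nat_lit 2365) (nat_lit 256) .dd)))
 (.ch (nat_lit 10) (.ev (nat_lit 1924) (nat_lit 256) (.ev (nat_lit 1933) (nat_lit 32768) .dd))))))) (.ch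
 (nat_lit 1) (.ev (nat_lit 848) (nat_lit 256) (.nd (nat_lit 1888) (.br (nat_lit 6) (.ch (nat_lit 2) (.ev
 (nat_lit 2020) (nat_lit 2048) (.ev (nat_lit 2029) (nat_lit 32768) .dd))) (.br (nat_lit 7) (.ch (nat_lit 6)
 (.ev (nat_lit 2132) (nat_lit 32768) (.ev (nat_lit 2141) (nat_lit 2048) .dd))) (.ch (nat_lit 7) (.ev (nat_lit
 2452) (nat_lit 32768) (.ev (nat_lit 2461) (nat_lit 2048) .dd))))))))) (.br (nat_lit 6) (.ch (nat_lit 2) (.ev
 (nat_lit 848) (nat_lit 256) (.ev (nat_lit 2308) (nat_lit 2048) (.ev (nat_lit 2317) (nat_lit 32768) .dd))))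
 (.br (nat_lit 7) (.ch (nat_lit 6) (.ev (nat_lit 848) (nat_lit 2048) (.ev (nat_lit 868) (nat_lit 32768) (.ev
 (nat_lit 877) (nat_lit 256) .dd)))) (.ch (nat_lit 7) (.ev (nat_lit 848) (nat_lit 32768) (.ev (nat_lit 868)
 (nat_lit 256) (.ev (nat_lit 877) (nat_lit 2048) .dd)))))))))))))))) (.ch (nat_lit 6) (.ev (nat_lit 48)
 (nat_lit 71680) (.nd (nat_lit 96) (.br (nat_lit 5) (.br (nat_lit 3) (.ch (nat_lit 2) (.ev (nat_lit 112)
 (nat_lit 131104) (.nd (nat_lit 656) (.br (nat_lit 7) (.br (nat_lit 5) (.ch (nat_lit 3) (.ev (nat_lit 672)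
 (nat_lit 260) (.ev (nat_lit 2132) (nat_lit 32768) (.ev (nat_lit 2141) (nat_lit 1024) .dd)))) (.br (nat_lit 6)
 (.ch (nat_lit 5) (.ev (nat_lit 672) (nat_lit 34052) .dd)) (.ch (nat_lit 6) (.ev (nat_lit 672) (nat_lit 33796)
 (.ev (nat_lit 685) (nat_lit 256) .dd))))) (.br (nat_lit 8) (.ch (nat_lit 7) (.ev (nat_lit 672) (nat_lit 33024)
 (.nd (nat_lit 1664) (.br (nat_lit 5) (.br (nat_lit 4) (.ch (nat_lit 3) (.fin (nat_lit 576463501084017211)))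
 (.ch (nat_lit 4) (.ev (nat_lit 1680) (nat_lit 4) (.ev (nat_lit 1693) (nat_lit 1024) .dd)))) (.br (nat_lit 6)
 (.ch (nat_lit 5) (.ev (nat_lit 1680) (nat_lit 1024) (.ev (nat_lit 1693) (nat_lit 4) .dd))) (.br (nat_lit 9)
 (.ch (nat_lit 6) (.ev (nat_lit 1680) (nat_lit 1024) (.ev (nat_lit 1693) (nat_lit 4) .dd))) (.ch (nat_lit 9)
 (.ev (nat_lit 1680) (nat_lit 4) (.ev (nat_lit 1693) (nat_lit 1024) .dd))))))))) (.br (nat_lit 9) (.ch (nat_lit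
 8) (.nd (nat_lit 1664) (.br (nat_lit 6) (.br (nat_lit 2) (.ch (nat_lit 1) (.ev (nat_lit 1680) (nat_lit 260)
 (.ev (nat_lit 1780) (nat_lit 32768) (.ev (nat_lit 1789) (nat_lit 1024) .dd)))) (.ch (nat_lit 2) (.ev (nat_lit
 1680) (nat_lit 1284) (.ev (nat_lit 1693) (nat_lit 32768) .dd)))) (.br (nat_lit 7) (.ch (nat_lit 6) (.ev
 (nat_lit 1732) (nat_lit 1024) (.ev (nat_lit 1780) (nat_lit 32768) (.ev (nat_lit 2048) (nat_lit 4) (.ev
 (nat_lit 2061) (nat_lit 256) .dd))))) (.br (nat_lit 10) (.ch (nat_lit 7) (.ev (nat_lit 1680) (nat_lit 260)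
 (.fin (nat_lit 576473396679230013)))) (.ch (nat_lit 10) (.ev (nat_lit 1680) (nat_lit 33792) (.ev (nat_lit
 1780) (nat_lit 4) (.ev (nat_lit 1789) (nat_lit 256) .dd))))))))) (.ch (nat_lit 9) (.ev (nat_lit 672) (nat_lit
 256) (.ev (nat_lit 724) (nat_lit 1024) (.nd (nat_lit 1888) (.br (nat_lit 1) (.ch (nat_lit 0) (.ev (nat_lit
 1940) (nat_lit 32768) (.ev (nat_lit 1949) (nat_lit 4) .dd))) (.ch (nat_lit 1) (.fin (nat_lit
 576368943110242948)))))))))))))) (.br (nat_lit 4) (.ch (nat_lit 3) (.ev (nat_lit 112) (nat_lit 4) (.nd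
 (nat_lit 656) (.br (nat_lit 6) (.br (nat_lit 4) (.ch (nat_lit 0) (.ev (nat_lit 672) (nat_lit 131072) (.ev
 (nat_lit 724) (nat_lit 1024) (.ev (nat_lit 948) (nat_lit 32768) (.nd (nat_lit 1696) (.br (nat_lit 2) (.br
 (nat_lit 1) (.ch (nat_lit 0) (.ev (nat_lit 1712) (nat_lit 288) .dd)) (.ch (nat_lit 1) (.ev (nat_lit 1712)
 (nat_lit 32) (.ev (nat_lit 1725) (nat_lit 256) .dd)))) (.br (nat_lit 4) (.ch (nat_lit 2) (.ev (nat_lit 1712)
 (nat_lit 256) (.ev (nat_lit 1725) (nat_lit 32) .dd))) (.ch (nat_lit 4) (.ev (nat_lit 2388) (nat_lit 32) (.ev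
 (nat_lit 2397) (nat_lit 256) .dd)))))))))) (.br (nat_lit 5) (.ch (nat_lit 4) (.ev (nat_lit 672) (nat_lit 288)
 (.nd (nat_lit 1664) (.br (nat_lit 6) (.br (nat_lit 1) (.ch (nat_lit 0) (.ev (nat_lit 1680) (nat_lit 1024) (.ev
 (nat_lit 2100) (nat_lit 32768) (.ev (nat_lit 2109) (nat_lit 131072) .dd)))) (.br (nat_lit 5) (.ch (nat_lit 1)
 (.ev (nat_lit 1680) (nat_lit 131072) (.fin (nat_lit 576509680554558080)))) (.ch (nat_lit 5) (.ev (nat_lit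
 1680) (nat_lit 33792) (.ev (nat_lit 1693) (nat_lit 131072) .dd))))) (.br (nat_lit 9) (.ch (nat_lit 6) (.ev
 (nat_lit 1844) (nat_lit 1024) (.ev (nat_lit 2256) (nat_lit 32768) (.ev (nat_lit 2269) (nat_lit 131072) .dd))))
 (.br (nat_lit 10) (.ch (nat_lit 9) (.ev (nat_lit 1680) (nat_lit 163840) (.ev (nat_lit 1693) (nat_lit 1024)
 .dd))) (.ch (nat_lit 10) (.ev (nat_lit 1680) (nat_lit 33792) (.ev (nat_lit 1693) (nat_lit 131072) .dd)))))))))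
 (.ch (nat_lit 5) (.ev (nat_lit 672) (nat_lit 32) (.ev (nat_lit 1092) (nat_lit 131072) (.ev (nat_lit 1556)
 (nat_lit 1024) (.nd (nat_lit 1696) (.br (nat_lit 7) (.br (nat_lit 2) (.ch (nat_lit 1) (.ev (nat_lit 1712)
 (nat_lit 256) (.ev (nat_lit 1725) (nat_lit 32768) .dd))) (.ch (nat_lit 2) (.fin (nat_lit
 576465700110418498)))) (.br (nat_lit 8) (.ch (nat_lit 7) (.ev (nat_lit 2308) (nat_lit 256) (.ev (nat_lit 2317)
 (nat_lit 32768) .dd))) (.ch (nat_lit 8) (.ev (nat_lit 1732) (nat_lit 32768) (.ev (nat_lit 1741) (nat_lit 256)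
 .dd)))))))))))) (.br (nat_lit 7) (.ch (nat_lit 6) (.ev (nat_lit 672) (nat_lit 132096) (.ev (nat_lit 884)
 (nat_lit 32) (.nd (nat_lit 1744) (.br (nat_lit 9) (.ch (nat_lit 7) (.ev (nat_lit 2100) (nat_lit 32768) (.ev
 (nat_lit 2109) (nat_lit 256) .dd))) (.ch (nat_lit 9) (.ev (nat_lit 1760) (nat_lit 32768) (.ev (nat_lit 1773)
 (nat_lit 256) .dd)))))))) (.br (nat_lit 10) (.ch (nat_lit 7) (.ev (nat_lit 672) (nat_lit 165120) (.ev (nat_lit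
 685) (nat_lit 32) .dd))) (.ch (nat_lit 10) (.ev (nat_lit 672) (nat_lit 32800) (.ev (nat_lit 1060) (nat_lit
 131072) (.nd (nat_lit 1808) (.br (nat_lit 7) (.br (nat_lit 4) (.ch (nat_lit 1) (.ev (nat_lit 2020) (nat_lit
 1024) (.ev (nat_lit 2029) (nat_lit 256) .dd))) (.ch (nat_lit 4) (.ev (nat_lit 1824) (nat_lit 1024) (.ev
 (nat_lit 1837) (nat_lit 256) .dd)))) (.br (nat_lit 8) (.ch (nat_lit 7) (.fin (nat_lit 576421719584490160)))
 (.br (nat_lit 10) (.ch (nat_lit 8) (.ev (nat_lit 1824) (nat_lit 1280) .dd)) (.ch (nat_lit 10) (.ev (nat_lit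
 1824) (nat_lit 256) (.ev (nat_lit 1837) (nat_lit 1024) .dd)))))))))))))))) (.ch (nat_lit 4) (.ev (nat_lit 112)
 (nat_lit 1056) (.nd (nat_lit 768) (.br (nat_lit 8) (.br (nat_lit 6) (.ch (nat_lit 4) (.ev (nat_lit 784)
 (nat_lit 4) (.nd (nat_lit 1808) (.br (nat_lit 9) (.br (nat_lit 8) (.ch (nat_lit 0) (.ev (nat_lit 1824)
 (nat_lit 256) (.ev (nat_lit 2660) (nat_lit 32768) (.ev (nat_lit 2669) (nat_lit 131072) .dd)))) (.ch (nat_lit
 8) (.ev (nat_lit 1824) (nat_lit 131072) (.ev (nat_lit 2308) (nat_lit 256) (.ev (nat_lit 2317) (nat_lit 32768)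
 .dd))))) (.br (nat_lit 10) (.ch (nat_lit 9) (.ev (nat_lit 1824) (nat_lit 256) (.ev (nat_lit 2496) (nat_lit
 163840) .dd))) (.ch (nat_lit 10) (.ev (nat_lit 1824) (nat_lit 32768) (.ev (nat_lit 2032) (nat_lit 131328)
 .dd)))))))) (.br (nat_lit 7) (.ch (nat_lit 6) (.ev (nat_lit 784) (nat_lit 164100) .dd)) (.ch (nat_lit 7) (.ev
 (nat_lit 784) (nat_lit 131328) (.ev (nat_lit 1172) (nat_lit 4) (.ev (nat_lit 1181) (nat_lit 32768) .dd))))))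
 (.br (nat_lit 9) (.ch (nat_lit 8) (.ev (nat_lit 784) (nat_lit 33024) (.nd (nat_lit 1984) (.br (nat_lit 7) (.br
 (nat_lit 6) (.ch (nat_lit 1) (.ev (nat_lit 2320) (nat_lit 131072) (.ev (nat_lit 2333) (nat_lit 4) .dd))) (.ch
 (nat_lit 6) (.ev (nat_lit 2000) (nat_lit 4) (.ev (nat_lit 2013) (nat_lit 131072) .dd)))) (.br (nat_lit 8) (.ch
 (nat_lit 7) (.ev (nat_lit 2020) (nat_lit 131072) (.ev (nat_lit 2029) (nat_lit 4) .dd))) (.ch (nat_lit 8) (.ev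
 (nat_lit 2000) (nat_lit 131076) .dd))))))) (.br (nat_lit 10) (.ch (nat_lit 9) (.nd (nat_lit 1568) (.br
 (nat_lit 5) (.br (nat_lit 4) (.ch (nat_lit 0) (.ev (nat_lit 1584) (nat_lit 163840) (.fin (nat_lit
 576456904080310868)))) (.ch (nat_lit 4) (.ev (nat_lit 1584) (nat_lit 260) (.ev (nat_lit 2100) (nat_lit 32768)
 (.ev (nat_lit 2109) (nat_lit 131072) .dd))))) (.br (nat_lit 9) (.ch (nat_lit 5) (.ev (nat_lit 1584) (nat_lit
 32772) (.ev (nat_lit 2020) (nat_lit 131072) (.ev (nat_lit 2029) (nat_lit 256) .dd)))) (.br (nat_lit 10) (.ch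
 (nat_lit 9) (.ev (nat_lit 1584) (nat_lit 33024) (.ev (nat_lit 2100) (nat_lit 4) (.ev (nat_lit 2109) (nat_lit
 131072) .dd)))) (.ch (nat_lit 10) (.ev (nat_lit 1584) (nat_lit 33024) (.ev (nat_lit 2308) (nat_lit 131072)
 (.ev (nat_lit 2317) (nat_lit 4) .dd))))))))) (.ch (nat_lit 10) (.ev (nat_lit 784) (nat_lit 32768) (.nd
 (nat_lit 1744) (.br (nat_lit 6) (.br (nat_lit 5) (.ch (nat_lit 0) (.ev (nat_lit 1760) (nat_lit 131072) (.ev
 (nat_lit 1844) (nat_lit 4) (.ev (nat_lit 1853) (nat_lit 256) .dd)))) (.ch (nat_lit 5) (.ev (nat_lit 1760)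
 (nat_lit 131328) (.ev (nat_lit 1773) (nat_lit 4) .dd)))) (.br (nat_lit 7) (.ch (nat_lit 6) (.ev (nat_lit 2064)
 (nat_lit 131072) (.fin (nat_lit 576460202560668210)))) (.ch (nat_lit 7) (.ev (nat_lit 1760) (nat_lit 131076)
 (.ev (nat_lit 1773) (nat_lit 256) .dd)))))))))))))))) (.br (nat_lit 8) (.br (nat_lit 6) (.ch (nat_lit 5) (.ev
 (nat_lit 112) (nat_lit 1280) (.nd (nat_lit 736) (.br (nat_lit 4) (.br (nat_lit 3) (.ch (nat_lit 0) (.ev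
 (nat_lit 752) (nat_lit 131072) (.ev (nat_lit 996) (nat_lit 4) (.nd (nat_lit 3008) (.br (nat_lit 8) (.ch
 (nat_lit 6) (.ev (nat_lit 3024) (nat_lit 32800) .dd)) (.br (nat_lit 9) (.ch (nat_lit 8) (.ev (nat_lit 3024)
 (nat_lit 32768) (.ev (nat_lit 3037) (nat_lit 32) .dd))) (.ch (nat_lit 9) (.ev (nat_lit 3024) (nat_lit 32) (.ev
 (nat_lit 3037) (nat_lit 32768) .dd))))))))) (.ch (nat_lit 3) (.ev (nat_lit 752) (nat_lit 131076) (.ev (nat_lit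
 1428) (nat_lit 32) (.ev (nat_lit 1437) (nat_lit 32768) .dd))))) (.br (nat_lit 7) (.ch (nat_lit 4) (.ev
 (nat_lit 752) (nat_lit 32804) (.ev (nat_lit 765) (nat_lit 131072) .dd))) (.br (nat_lit 9) (.ch (nat_lit 7)
 (.ev (nat_lit 996) (nat_lit 4) (.nd (nat_lit 1984) (.br (nat_lit 3) (.ch (nat_lit 1) (.ev (nat_lit 2000)
 (nat_lit 32) (.ev (nat_lit 2208) (nat_lit 131072) (.ev (nat_lit 2221) (nat_lit 32768) .dd)))) (.br (nat_lit
 10) (.ch (nat_lit 3) (.ev (nat_lit 2000) (nat_lit 32768) (.fin (nat_lit 576463501085065791)))) (.ch (nat_lit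
 10) (.ev (nat_lit 2320) (nat_lit 32) (.ev (nat_lit 2580) (nat_lit 131072) (.ev (nat_lit 2589) (nat_lit 32768)
 .dd))))))))) (.ch (nat_lit 9) (.ev (nat_lit 752) (nat_lit 32768) (.nd (nat_lit 1808) (.br (nat_lit 9) (.ch
 (nat_lit 8) (.ev (nat_lit 1824) (nat_lit 131072) (.ev (nat_lit 2164) (nat_lit 4) (.ev (nat_lit 2173) (nat_lit
 32) .dd)))) (.br (nat_lit 10) (.ch (nat_lit 9) (.ev (nat_lit 1824) (nat_lit 131072) (.ev (nat_lit 2164)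
 (nat_lit 4) (.ev (nat_lit 2173) (nat_lit 32) .dd)))) (.ch (nat_lit 10) (.ev (nat_lit 1824) (nat_lit 32) (.ev
 (nat_lit 2164) (nat_lit 4) (.ev (nat_lit 2173) (nat_lit 131072) .dd))))))))))))))) (.ch (nat_lit 6) (.ev
 (nat_lit 112) (nat_lit 34080) (.nd (nat_lit 1264) (.br (nat_lit 6) (.br (nat_lit 3) (.ch (nat_lit 2) (.ev
 (nat_lit 1540) (nat_lit 131072) (.ev (nat_lit 1549) (nat_lit 4) .dd))) (.ch (nat_lit 3) (.ev (nat_lit 1280)
 (nat_lit 131076) .dd))) (.br (nat_lit 9) (.ch (nat_lit 6) (.ev (nat_lit 1524) (nat_lit 131072) (.ev (nat_lit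
 1533) (nat_lit 4) .dd))) (.ch (nat_lit 9) (.ev (nat_lit 1280) (nat_lit 4) (.ev (nat_lit 1293) (nat_lit 131072)
 .dd))))))))) (.br (nat_lit 10) (.ch (nat_lit 8) (.ev (nat_lit 112) (nat_lit 163844) (.nd (nat_lit 832) (.br
 (nat_lit 5) (.br (nat_lit 1) (.ch (nat_lit 0) (.ev (nat_lit 848) (nat_lit 1024) (.ev (nat_lit 2484) (nat_lit
 32) (.ev (nat_lit 2493) (nat_lit 256) .dd)))) (.ch (nat_lit 1) (.ev (nat_lit 848) (nat_lit 256) (.ev (nat_lit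
 3220) (nat_lit 1024) (.ev (nat_lit 3229) (nat_lit 32) .dd))))) (.br (nat_lit 9) (.ch (nat_lit 5) (.ev (nat_lit
 848) (nat_lit 288) (.ev (nat_lit 861) (nat_lit 1024) .dd))) (.br (nat_lit 10) (.ch (nat_lit 9) (.ev (nat_lit
 848) (nat_lit 1024) (.nd (nat_lit 2912) (.br (nat_lit 10) (.ch (nat_lit 0) (.ev (nat_lit 2928) (nat_lit 32)
 (.ev (nat_lit 2941) (nat_lit 256) .dd))) (.ch (nat_lit 10) (.ev (nat_lit 3092) (nat_lit 32) (.ev (nat_lit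
 3101) (nat_lit 256) .dd))))))) (.ch (nat_lit 10) (.ev (nat_lit 848) (nat_lit 32) (.nd (nat_lit 1984) (.br
 (nat_lit 9) (.ch (nat_lit 4) (.ev (nat_lit 2020) (nat_lit 256) (.ev (nat_lit 2029) (nat_lit 1024) .dd))) (.br
 (nat_lit 10) (.ch (nat_lit 9) (.ev (nat_lit 2000) (nat_lit 1024) (.ev (nat_lit 2013) (nat_lit 256) .dd))) (.ch
 (nat_lit 10) (.ev (nat_lit 2000) (nat_lit 256) (.ev (nat_lit 2013) (nat_lit 1024) .dd)))))))))))))) (.ch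
 (nat_lit 10) (.ev (nat_lit 112) (nat_lit 164100) (.ev (nat_lit 308) (nat_lit 32) (.ev (nat_lit 317) (nat_lit
 1024) .dd))))))))))) (.br (nat_lit 8) (.ch (nat_lit 7) (.ev (nat_lit 48) (nat_lit 32768) (.nd (nat_lit 64)
 (.br (nat_lit 4) (.br (nat_lit 2) (.ch (nat_lit 1) (.ev (nat_lit 80) (nat_lit 72736) (.ev (nat_lit 196)
 (nat_lit 4) (.ev (nat_lit 244) (nat_lit 131072) (.ev (nat_lit 253) (nat_lit 256) .dd))))) (.br (nat_lit 3)
 (.ch (nat_lit 2) (.ev (nat_lit 80) (nat_lit 70944) (.nd (nat_lit 1264) (.br (nat_lit 4) (.br (nat_lit 2) (.ch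
 (nat_lit 0) (.ev (nat_lit 1280) (nat_lit 131072) (.ev (nat_lit 1396) (nat_lit 2048) (.ev (nat_lit 1405)
 (nat_lit 4) .dd)))) (.ch (nat_lit 2) (.ev (nat_lit 1280) (nat_lit 4) (.fin (nat_lit 576468998639010377)))))
 (.br (nat_lit 5) (.ch (nat_lit 4) (.ev (nat_lit 1280) (nat_lit 2048) (.fin (nat_lit 576465700096787013))))
 (.br (nat_lit 10) (.ch (nat_lit 5) (.ev (nat_lit 1280) (nat_lit 4) (.ev (nat_lit 1396) (nat_lit 2048) (.ev
 (nat_lit 1405) (nat_lit 131072) .dd)))) (.ch (nat_lit 10) (.ev (nat_lit 1280) (nat_lit 131072) (.ev (nat_lit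
 2724) (nat_lit 4) (.ev (nat_lit 2733) (nat_lit 2048) .dd)))))))))) (.ch (nat_lit 3) (.ev (nat_lit 80) (nat_lit
 196868) (.nd (nat_lit 768) (.br (nat_lit 7) (.br (nat_lit 5) (.ch (nat_lit 1) (.ev (nat_lit 784) (nat_lit
 1056) (.ev (nat_lit 1236) (nat_lit 2048) (.ev (nat_lit 1245) (nat_lit 4096) .dd)))) (.ch (nat_lit 5) (.ev
 (nat_lit 804) (nat_lit 32) (.ev (nat_lit 3044) (nat_lit 1024) (.nd (nat_lit 3600) (.br (nat_lit 4) (.ch
 (nat_lit 1) (.ev (nat_lit 3616) (nat_lit 4096) (.ev (nat_lit 3629) (nat_lit 2048) .dd))) (.br (nat_lit 5) (.ch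
 (nat_lit 4) (.ev (nat_lit 3616) (nat_lit 2048) (.ev (nat_lit 3629) (nat_lit 4096) .dd))) (.ch (nat_lit 5)
 (.fin (nat_lit 576487690313613904)))))))))) (.br (nat_lit 9) (.ch (nat_lit 7) (.ev (nat_lit 784) (nat_lit
 4096) (.ev (nat_lit 1236) (nat_lit 2048) (.nd (nat_lit 2944) (.br (nat_lit 9) (.ch (nat_lit 5) (.ev (nat_lit
 2960) (nat_lit 32) (.ev (nat_lit 2973) (nat_lit 1024) .dd))) (.ch (nat_lit 9) (.ev (nat_lit 2960) (nat_lit
 1024) (.ev (nat_lit 2973) (nat_lit 32) .dd)))))))) (.ch (nat_lit 9) (.ev (nat_lit 784) (nat_lit 2080) (.ev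
 (nat_lit 1444) (nat_lit 1024) (.ev (nat_lit 1453) (nat_lit 4096) .dd))))))))))) (.br (nat_lit 9) (.br (nat_lit
 5) (.ch (nat_lit 4) (.ev (nat_lit 80) (nat_lit 133124) (.nd (nat_lit 560) (.br (nat_lit 5) (.br (nat_lit 1)
 (.ch (nat_lit 0) (.ev (nat_lit 576) (nat_lit 65536) (.nd (nat_lit 1568) (.br (nat_lit 7) (.br (nat_lit 2) (.ch
 (nat_lit 1) (.ev (nat_lit 1584) (nat_lit 1056) (.ev (nat_lit 1844) (nat_lit 256) (.ev (nat_lit 1853) (nat_lit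
 4096) .dd)))) (.ch (nat_lit 2) (.ev (nat_lit 1584) (nat_lit 32) (.ev (nat_lit 1860) (nat_lit 256) (.ev
 (nat_lit 2080) (nat_lit 4096) (.ev (nat_lit 2093) (nat_lit 1024) .dd)))))) (.br (nat_lit 10) (.ch (nat_lit 7)
 (.ev (nat_lit 1732) (nat_lit 4128) (.fin (nat_lit 576518476700009048)))) (.ch (nat_lit 10) (.ev (nat_lit 1584)
 (nat_lit 256) (.ev (nat_lit 2308) (nat_lit 1024) (.ev (nat_lit 2420) (nat_lit 32) (.ev (nat_lit 2429) (nat_lit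
 4096) .dd)))))))))) (.br (nat_lit 2) (.ch (nat_lit 1) (.ev (nat_lit 576) (nat_lit 66592) (.ev (nat_lit 804)
 (nat_lit 4096) (.ev (nat_lit 813) (nat_lit 256) .dd)))) (.ch (nat_lit 2) (.ev (nat_lit 576) (nat_lit 4384)
 (.ev (nat_lit 932) (nat_lit 65536) (.ev (nat_lit 941) (nat_lit 1024) .dd)))))) (.br (nat_lit 6) (.ch (nat_lit
 5) (.ev (nat_lit 576) (nat_lit 256) (.nd (nat_lit 1568) (.br (nat_lit 7) (.br (nat_lit 5) (.ch (nat_lit 2)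
 (.ev (nat_lit 1584) (nat_lit 69632) (.fin (nat_lit 576461302066004542)))) (.ch (nat_lit 5) (.ev (nat_lit 1584)
 (nat_lit 4128) (.ev (nat_lit 2356) (nat_lit 1024) (.ev (nat_lit 2365) (nat_lit 65536) .dd))))) (.br (nat_lit
 8) (.ch (nat_lit 7) (.ev (nat_lit 1584) (nat_lit 66560) (.ev (nat_lit 2272) (nat_lit 4096) (.ev (nat_lit 2285)
 (nat_lit 32) .dd)))) (.br (nat_lit 10) (.ch (nat_lit 8) (.ev (nat_lit 1584) (nat_lit 69632) (.ev (nat_lit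
 1732) (nat_lit 1024) (.ev (nat_lit 1741) (nat_lit 32) .dd)))) (.ch (nat_lit 10) (.ev (nat_lit 1584) (nat_lit
 69664) (.ev (nat_lit 1597) (nat_lit 1024) .dd))))))))) (.br (nat_lit 10) (.ch (nat_lit 6) (.ev (nat_lit 576)
 (nat_lit 1024) (.ev (nat_lit 724) (nat_lit 256) (.nd (nat_lit 1696) (.br (nat_lit 9) (.ch (nat_lit 8) (.ev
 (nat_lit 2132) (nat_lit 32) (.ev (nat_lit 2820) (nat_lit 4096) (.ev (nat_lit 2829) (nat_lit 65536) .dd))))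
 (.br (nat_lit 10) (.ch (nat_lit 9) (.ev (nat_lit 1712) (nat_lit 32) (.ev (nat_lit 2176) (nat_lit 69632) .dd)))
 (.ch (nat_lit 10) (.ev (nat_lit 1712) (nat_lit 4096) (.ev (nat_lit 1780) (nat_lit 32) (.ev (nat_lit 1789)
 (nat_lit 65536) .dd)))))))))) (.ch (nat_lit 10) (.ev (nat_lit 576) (nat_lit 69632) (.nd (nat_lit 1664) (.br
 (nat_lit 6) (.br (nat_lit 1) (.ch (nat_lit 0) (.ev (nat_lit 1680) (nat_lit 1056) (.ev (nat_lit 1693) (nat_lit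
 256) .dd))) (.ch (nat_lit 1) (.ev (nat_lit 1680) (nat_lit 1024) (.fin (nat_lit 576553661011280600))))) (.br
 (nat_lit 9) (.ch (nat_lit 6) (.ev (nat_lit 2064) (nat_lit 1280) (.ev (nat_lit 2077) (nat_lit 32) .dd))) (.ch
 (nat_lit 9) (.ev (nat_lit 1680) (nat_lit 1280) (.ev (nat_lit 1693) (nat_lit 32) .dd)))))))))))))) (.ch
 (nat_lit 5) (.ev (nat_lit 80) (nat_lit 3076) (.nd (nat_lit 896) (.br (nat_lit 5) (.br (nat_lit 1) (.ch
 (nat_lit 0) (.ev (nat_lit 912) (nat_lit 65536) (.nd (nat_lit 1808) (.br (nat_lit 5) (.br (nat_lit 4) (.ch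
 (nat_lit 2) (.ev (nat_lit 1824) (nat_lit 4128) (.ev (nat_lit 2048) (nat_lit 131328) .dd))) (.ch (nat_lit 4)
 (.ev (nat_lit 1824) (nat_lit 131072) (.ev (nat_lit 2320) (nat_lit 4096) (.fin (nat_lit
 576466799619949139)))))) (.br (nat_lit 9) (.ch (nat_lit 5) (.ev (nat_lit 1824) (nat_lit 4352) (.ev (nat_lit
 1844) (nat_lit 32) (.ev (nat_lit 1853) (nat_lit 131072) .dd)))) (.br (nat_lit 10) (.ch (nat_lit 9) (.ev
 (nat_lit 1824) (nat_lit 131328) (.ev (nat_lit 1860) (nat_lit 32) (.ev (nat_lit 1869) (nat_lit 4096) .dd))))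
 (.ch (nat_lit 10) (.ev (nat_lit 1824) (nat_lit 32) (.ev (nat_lit 1860) (nat_lit 256) (.ev (nat_lit 1968)
 (nat_lit 4096) (.ev (nat_lit 1981) (nat_lit 131072) .dd))))))))))) (.br (nat_lit 2) (.ch (nat_lit 1) (.ev
 (nat_lit 912) (nat_lit 196640) (.ev (nat_lit 2388) (nat_lit 256) (.ev (nat_lit 2397) (nat_lit 4096) .dd))))
 (.ch (nat_lit 2) (.ev (nat_lit 912) (nat_lit 4384) (.ev (nat_lit 2144) (nat_lit 196608) .dd))))) (.br (nat_lit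
 6) (.ch (nat_lit 5) (.ev (nat_lit 912) (nat_lit 4096) (.nd (nat_lit 2224) (.br (nat_lit 6) (.br (nat_lit 3)
 (.ch (nat_lit 1) (.ev (nat_lit 2240) (nat_lit 65824) (.ev (nat_lit 2253) (nat_lit 131072) .dd))) (.ch (nat_lit
 3) (.ev (nat_lit 2240) (nat_lit 131104) (.fin (nat_lit 576465700107272769))))) (.br (nat_lit 9) (.ch (nat_lit
 6) (.ev (nat_lit 2240) (nat_lit 288) (.ev (nat_lit 2708) (nat_lit 131072) (.ev (nat_lit 2717) (nat_lit 65536)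
 .dd)))) (.br (nat_lit 10) (.ch (nat_lit 9) (.ev (nat_lit 2240) (nat_lit 32) (.ev (nat_lit 2368) (nat_lit
 65536) (.ev (nat_lit 2708) (nat_lit 131072) (.ev (nat_lit 2717) (nat_lit 256) .dd))))) (.ch (nat_lit 10) (.ev
 (nat_lit 2240) (nat_lit 196864) (.ev (nat_lit 2253) (nat_lit 32) .dd))))))))) (.br (nat_lit 10) (.ch (nat_lit
 6) (.ev (nat_lit 912) (nat_lit 196640) (.ev (nat_lit 2740) (nat_lit 4096) (.ev (nat_lit 2749) (nat_lit 256)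
 .dd)))) (.ch (nat_lit 10) (.ev (nat_lit 912) (nat_lit 256) (.ev (nat_lit 1156) (nat_lit 4096) (.ev (nat_lit
 1412) (nat_lit 131072) (.nd (nat_lit 1888) (.br (nat_lit 7) (.ch (nat_lit 1) (.ev (nat_lit 2100) (nat_lit 32)
 (.ev (nat_lit 2109) (nat_lit 65536) .dd))) (.ch (nat_lit 7) (.fin (nat_lit 576412923531313748))))))))))))))))
 (.br (nat_lit 10) (.ch (nat_lit 9) (.ev (nat_lit 80) (nat_lit 135424) (.nd (nat_lit 736) (.br (nat_lit 4) (.br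
 (nat_lit 3) (.ch (nat_lit 1) (.ev (nat_lit 752) (nat_lit 65572) (.ev (nat_lit 2596) (nat_lit 2048) (.ev
 (nat_lit 2605) (nat_lit 1024) .dd)))) (.ch (nat_lit 3) (.ev (nat_lit 752) (nat_lit 1024) (.ev (nat_lit 1316)
 (nat_lit 65536) (.ev (nat_lit 2356) (nat_lit 4) (.ev (nat_lit 3124) (nat_lit 32) (.ev (nat_lit 3133) (nat_lit
 2048) .dd))))))) (.br (nat_lit 5) (.ch (nat_lit 4) (.ev (nat_lit 752) (nat_lit 67584) (.nd (nat_lit 1744) (.br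
 (nat_lit 9) (.ch (nat_lit 4) (.ev (nat_lit 1760) (nat_lit 1024) (.ev (nat_lit 1876) (nat_lit 4) (.ev (nat_lit
 1885) (nat_lit 32) .dd)))) (.br (nat_lit 10) (.ch (nat_lit 9) (.ev (nat_lit 1760) (nat_lit 4) (.ev (nat_lit
 2020) (nat_lit 32) (.ev (nat_lit 2029) (nat_lit 1024) .dd)))) (.ch (nat_lit 10) (.ev (nat_lit 1760) (nat_lit
 1024) (.ev (nat_lit 2020) (nat_lit 32) (.ev (nat_lit 2029) (nat_lit 4) .dd))))))))) (.br (nat_lit 7) (.ch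
 (nat_lit 5) (.ev (nat_lit 752) (nat_lit 2048) (.ev (nat_lit 1188) (nat_lit 1024) (.ev (nat_lit 2516) (nat_lit
 32) (.ev (nat_lit 2788) (nat_lit 65536) (.ev (nat_lit 2797) (nat_lit 4) .dd)))))) (.ch (nat_lit 7) (.ev
 (nat_lit 752) (nat_lit 1056) (.ev (nat_lit 804) (nat_lit 4) (.ev (nat_lit 1236) (nat_lit 65536) (.ev (nat_lit
 1245) (nat_lit 2048) .dd))))))))))) (.ch (nat_lit 10) (.ev (nat_lit 80) (nat_lit 32) (.ev (nat_lit 244)
 (nat_lit 2048) (.nd (nat_lit 736) (.br (nat_lit 6) (.br (nat_lit 1) (.ch (nat_lit 0) (.ev (nat_lit 752)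
 (nat_lit 197632) (.ev (nat_lit 996) (nat_lit 256) (.nd (nat_lit 3472) (.br (nat_lit 8) (.ch (nat_lit 7) (.fin
 (nat_lit 576455804509962818))) (.ch (nat_lit 8) (.ev (nat_lit 3488) (nat_lit 4) (.ev (nat_lit 3501) (nat_lit
 4096) .dd)))))))) (.br (nat_lit 4) (.ch (nat_lit 1) (.ev (nat_lit 752) (nat_lit 4356) (.ev (nat_lit 1140)
 (nat_lit 131072) (.nd (nat_lit 1888) (.br (nat_lit 7) (.br (nat_lit 4) (.ch (nat_lit 1) (.fin (nat_lit
 576412923659240068))) (.ch (nat_lit 4) (.ev (nat_lit 1904) (nat_lit 1024) (.ev (nat_lit 1917) (nat_lit 65536)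
 .dd)))) (.br (nat_lit 10) (.ch (nat_lit 7) (.ev (nat_lit 1924) (nat_lit 65536) (.ev (nat_lit 1933) (nat_lit
 1024) .dd))) (.ch (nat_lit 10) (.ev (nat_lit 1904) (nat_lit 1024) (.ev (nat_lit 1917) (nat_lit 65536)
 .dd))))))))) (.ch (nat_lit 4) (.ev (nat_lit 752) (nat_lit 65540) (.ev (nat_lit 996) (nat_lit 4352) (.ev
 (nat_lit 2112) (nat_lit 1024) (.ev (nat_lit 2125) (nat_lit 131072) .dd))))))) (.br (nat_lit 7) (.ch (nat_lit
 6) (.ev (nat_lit 752) (nat_lit 136448) (.ev (nat_lit 996) (nat_lit 4) (.ev (nat_lit 1005) (nat_lit 65536)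
 .dd)))) (.br (nat_lit 9) (.ch (nat_lit 7) (.ev (nat_lit 752) (nat_lit 260) (.ev (nat_lit 996) (nat_lit 4096)
 (.nd (nat_lit 1744) (.br (nat_lit 7) (.br (nat_lit 2) (.ch (nat_lit 1) (.ev (nat_lit 1760) (nat_lit 1024) (.ev
 (nat_lit 2132) (nat_lit 65536) (.ev (nat_lit 2141) (nat_lit 131072) .dd)))) (.br (nat_lit 4) (.ch (nat_lit 2)
 (.ev (nat_lit 1760) (nat_lit 196608) (.ev (nat_lit 1773) (nat_lit 1024) .dd))) (.ch (nat_lit 4) (.ev (nat_lit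
 1780) (nat_lit 1024) (.ev (nat_lit 2256) (nat_lit 65536) (.ev (nat_lit 2269) (nat_lit 131072) .dd)))))) (.br
 (nat_lit 8) (.ch (nat_lit 7) (.ev (nat_lit 1760) (nat_lit 131072) (.fin (nat_lit 576462401583923790)))) (.br
 (nat_lit 10) (.ch (nat_lit 8) (.ev (nat_lit 1760) (nat_lit 66560) (.ev (nat_lit 1773) (nat_lit 131072) .dd)))
 (.ch (nat_lit 10) (.ev (nat_lit 1760) (nat_lit 196608) (.ev (nat_lit 1773) (nat_lit 1024) .dd)))))))))) (.ch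
 (nat_lit 9) (.ev (nat_lit 752) (nat_lit 5120) (.ev (nat_lit 996) (nat_lit 4) (.ev (nat_lit 1140) (nat_lit
 131072) (.ev (nat_lit 2100) (nat_lit 65536) (.ev (nat_lit 2109) (nat_lit 256) .dd))))))))))))))))))) (.ch
 (nat_lit 8) (.ev (nat_lit 48) (nat_lit 6400) (.nd (nat_lit 128) (.br (nat_lit 3) (.br (nat_lit 1) (.ch
 (nat_lit 0) (.ev (nat_lit 144) (nat_lit 1028) (.nd (nat_lit 688) (.br (nat_lit 7) (.br (nat_lit 1) (.ch
 (nat_lit 0) (.ev (nat_lit 704) (nat_lit 65536) (.ev (nat_lit 1396) (nat_lit 131072) (.nd (nat_lit 1984) (.br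
 (nat_lit 6) (.br (nat_lit 5) (.ch (nat_lit 4) (.ev (nat_lit 2000) (nat_lit 32768) (.ev (nat_lit 2013) (nat_lit
 32) .dd))) (.ch (nat_lit 5) (.fin (nat_lit 576509680682484400)))) (.br (nat_lit 7) (.ch (nat_lit 6) (.ev
 (nat_lit 2000) (nat_lit 32) (.ev (nat_lit 2013) (nat_lit 32768) .dd))) (.br (nat_lit 10) (.ch (nat_lit 7) (.ev
 (nat_lit 2000) (nat_lit 32800) .dd)) (.ch (nat_lit 10) (.ev (nat_lit 2020) (nat_lit 32768) (.ev (nat_lit 2029)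
 (nat_lit 32) .dd)))))))))) (.br (nat_lit 2) (.ch (nat_lit 1) (.ev (nat_lit 1540) (nat_lit 131072) (.ev
 (nat_lit 1556) (nat_lit 65536) (.nd (nat_lit 1808) (.br (nat_lit 5) (.br (nat_lit 4) (.ch (nat_lit 0) (.ev
 (nat_lit 1824) (nat_lit 32) (.ev (nat_lit 1837) (nat_lit 32768) .dd))) (.ch (nat_lit 4) (.ev (nat_lit 1824)
 (nat_lit 32768) (.ev (nat_lit 1837) (nat_lit 32) .dd)))) (.br (nat_lit 8) (.ch (nat_lit 5) (.ev (nat_lit 1844)
 (nat_lit 32768) (.ev (nat_lit 1853) (nat_lit 32) .dd))) (.br (nat_lit 10) (.ch (nat_lit 8) (.ev (nat_lit 1824)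
 (nat_lit 32800) .dd)) (.ch (nat_lit 10) (.fin (nat_lit 576465700041212504)))))))))) (.ch (nat_lit 2) (.ev
 (nat_lit 704) (nat_lit 98304) (.ev (nat_lit 820) (nat_lit 32) (.ev (nat_lit 829) (nat_lit 131072) .dd))))))
 (.br (nat_lit 9) (.ch (nat_lit 7) (.ev (nat_lit 704) (nat_lit 229376) (.ev (nat_lit 717) (nat_lit 32) .dd)))
 (.br (nat_lit 10) (.ch (nat_lit 9) (.ev (nat_lit 704) (nat_lit 196640) (.ev (nat_lit 717) (nat_lit 32768)
 .dd))) (.ch (nat_lit 10) (.ev (nat_lit 704) (nat_lit 131104) (.ev (nat_lit 1540) (nat_lit 65536) (.ev (nat_lit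
 1549) (nat_lit 32768) .dd)))))))))) (.br (nat_lit 2) (.ch (nat_lit 1) (.ev (nat_lit 144) (nat_lit 131072) (.nd
 (nat_lit 832) (.br (nat_lit 7) (.br (nat_lit 2) (.ch (nat_lit 1) (.ev (nat_lit 848) (nat_lit 1024) (.ev
 (nat_lit 868) (nat_lit 32768) (.nd (nat_lit 1808) (.br (nat_lit 4) (.br (nat_lit 2) (.ch (nat_lit 1) (.ev
 (nat_lit 1824) (nat_lit 4) (.ev (nat_lit 1844) (nat_lit 65536) (.ev (nat_lit 1853) (nat_lit 32) .dd)))) (.ch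
 (nat_lit 2) (.ev (nat_lit 1824) (nat_lit 65572) .dd))) (.br (nat_lit 6) (.ch (nat_lit 4) (.ev (nat_lit 1824)
 (nat_lit 65536) (.ev (nat_lit 2100) (nat_lit 32) (.ev (nat_lit 2109) (nat_lit 4) .dd)))) (.br (nat_lit 9) (.ch
 (nat_lit 6) (.ev (nat_lit 1824) (nat_lit 4) (.fin (nat_lit 576449207423418930)))) (.ch (nat_lit 9) (.ev
 (nat_lit 1824) (nat_lit 36) (.ev (nat_lit 1837) (nat_lit 65536) .dd)))))))))) (.br (nat_lit 6) (.ch (nat_lit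
 2) (.ev (nat_lit 848) (nat_lit 4) (.nd (nat_lit 1888) (.br (nat_lit 5) (.br (nat_lit 4) (.ch (nat_lit 3) (.ev
 (nat_lit 1904) (nat_lit 66560) (.ev (nat_lit 2020) (nat_lit 32768) (.ev (nat_lit 2029) (nat_lit 32) .dd))))
 (.ch (nat_lit 4) (.ev (nat_lit 1904) (nat_lit 1056) (.ev (nat_lit 2032) (nat_lit 98304) .dd)))) (.br (nat_lit
 7) (.ch (nat_lit 5) (.ev (nat_lit 1904) (nat_lit 65568) (.ev (nat_lit 2020) (nat_lit 32768) (.ev (nat_lit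
 2029) (nat_lit 1024) .dd)))) (.ch (nat_lit 7) (.ev (nat_lit 1904) (nat_lit 32800) (.ev (nat_lit 2356) (nat_lit
 65536) (.ev (nat_lit 2365) (nat_lit 1024) .dd))))))))) (.ch (nat_lit 6) (.ev (nat_lit 848) (nat_lit 99328)
 (.nd (nat_lit 2880) (.br (nat_lit 5) (.ch (nat_lit 0) (.ev (nat_lit 2896) (nat_lit 4) (.ev (nat_lit 2909)
 (nat_lit 32) .dd))) (.br (nat_lit 10) (.ch (nat_lit 5) (.fin (nat_lit 576459103041700415))) (.ch (nat_lit 10)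
 (.ev (nat_lit 2896) (nat_lit 32) (.ev (nat_lit 2909) (nat_lit 4) .dd)))))))))) (.br (nat_lit 8) (.ch (nat_lit
 7) (.ev (nat_lit 848) (nat_lit 33792) (.nd (nat_lit 1664) (.br (nat_lit 6) (.br (nat_lit 5) (.ch (nat_lit 0)
 (.ev (nat_lit 1680) (nat_lit 4) (.ev (nat_lit 2356) (nat_lit 65536) (.ev (nat_lit 2365) (nat_lit 32) .dd))))
 (.ch (nat_lit 5) (.ev (nat_lit 1680) (nat_lit 32) (.fin (nat_lit 576404127490720296))))) (.br (nat_lit 10)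
 (.ch (nat_lit 6) (.ev (nat_lit 1680) (nat_lit 32) (.ev (nat_lit 2080) (nat_lit 65536) (.ev (nat_lit 2093)
 (nat_lit 4) .dd)))) (.ch (nat_lit 10) (.ev (nat_lit 1680) (nat_lit 65540) (.ev (nat_lit 1693) (nat_lit 32)
 .dd)))))))) (.br (nat_lit 9) (.ch (nat_lit 8) (.ev (nat_lit 848) (nat_lit 32804) (.ev (nat_lit 1156) (nat_lit
 1024) (.ev (nat_lit 1165) (nat_lit 65536) .dd)))) (.ch (nat_lit 9) (.ev (nat_lit 848) (nat_lit 65572) (.nd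
 (nat_lit 3184) (.br (nat_lit 4) (.ch (nat_lit 2) (.ev (nat_lit 3200) (nat_lit 1024) (.ev (nat_lit 3213)
 (nat_lit 32768) .dd))) (.ch (nat_lit 4) (.ev (nat_lit 3200) (nat_lit 32768) (.ev (nat_lit 3213) (nat_lit 1024)
 .dd))))))))))))) (.ch (nat_lit 2) (.ev (nat_lit 144) (nat_lit 1056) (.nd (nat_lit 688) (.br (nat_lit 8) (.br
 (nat_lit 1) (.ch (nat_lit 0) (.ev (nat_lit 704) (nat_lit 32768) (.nd (nat_lit 1696) (.br (nat_lit 5) (.br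
 (nat_lit 4) (.ch (nat_lit 3) (.ev (nat_lit 1712) (nat_lit 65536) (.ev (nat_lit 1924) (nat_lit 4) (.ev (nat_lit
 1933) (nat_lit 131072) .dd)))) (.ch (nat_lit 4) (.ev (nat_lit 1712) (nat_lit 65536) (.ev (nat_lit 1924)
 (nat_lit 4) (.ev (nat_lit 1933) (nat_lit 131072) .dd))))) (.br (nat_lit 9) (.ch (nat_lit 5) (.ev (nat_lit
 1712) (nat_lit 4) (.ev (nat_lit 1956) (nat_lit 65536) (.ev (nat_lit 1965) (nat_lit 131072) .dd)))) (.br
 (nat_lit 10) (.ch (nat_lit 9) (.ev (nat_lit 1712) (nat_lit 196608) (.ev (nat_lit 1725) (nat_lit 4) .dd))) (.ch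
 (nat_lit 10) (.ev (nat_lit 1712) (nat_lit 131072) (.fin (nat_lit 576500884421689808)))))))))) (.br (nat_lit 6)
 (.ch (nat_lit 1) (.ev (nat_lit 1012) (nat_lit 4) (.ev (nat_lit 1316) (nat_lit 131072) (.nd (nat_lit 3312) (.br
 (nat_lit 1) (.ch (nat_lit 0) (.ev (nat_lit 3328) (nat_lit 65536) (.ev (nat_lit 3341) (nat_lit 32768) .dd)))
 (.br (nat_lit 2) (.ch (nat_lit 1) (.ev (nat_lit 3328) (nat_lit 32768) (.ev (nat_lit 3341) (nat_lit 65536)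
 .dd))) (.ch (nat_lit 2) (.fin (nat_lit 576461302056567355))))))))) (.ch (nat_lit 6) (.ev (nat_lit 704)
 (nat_lit 163840) (.nd (nat_lit 1744) (.br (nat_lit 9) (.br (nat_lit 8) (.ch (nat_lit 7) (.ev (nat_lit 1760)
 (nat_lit 4) (.ev (nat_lit 1773) (nat_lit 65536) .dd))) (.ch (nat_lit 8) (.ev (nat_lit 1760) (nat_lit 65536)
 (.ev (nat_lit 1773) (nat_lit 4) .dd)))) (.br (nat_lit 10) (.ch (nat_lit 9) (.ev (nat_lit 2032) (nat_lit 65540)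
 .dd)) (.ch (nat_lit 10) (.ev (nat_lit 1760) (nat_lit 65536) (.ev (nat_lit 1773) (nat_lit 4) .dd)))))))))) (.br
 (nat_lit 9) (.ch (nat_lit 8) (.ev (nat_lit 704) (nat_lit 196612) (.ev (nat_lit 717) (nat_lit 32768) .dd)))
 (.br (nat_lit 10) (.ch (nat_lit 9) (.ev (nat_lit 704) (nat_lit 65540) (.ev (nat_lit 2164) (nat_lit 32768) (.ev
 (nat_lit 2173) (nat_lit 131072) .dd)))) (.ch (nat_lit 10) (.ev (nat_lit 704) (nat_lit 65536) (.nd (nat_lit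
 1696) (.br (nat_lit 9) (.br (nat_lit 4) (.ch (nat_lit 0) (.ev (nat_lit 1712) (nat_lit 131076) (.ev (nat_lit
 1725) (nat_lit 32768) .dd))) (.ch (nat_lit 4) (.ev (nat_lit 1712) (nat_lit 32768) (.ev (nat_lit 2308) (nat_lit
 4) (.ev (nat_lit 2317) (nat_lit 131072) .dd))))) (.br (nat_lit 10) (.ch (nat_lit 9) (.ev (nat_lit 1712)
 (nat_lit 131072) (.fin (nat_lit 576455804501574222)))) (.ch (nat_lit 10) (.ev (nat_lit 1796) (nat_lit 32768)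
 (.ev (nat_lit 2112) (nat_lit 131072) (.ev (nat_lit 2125) (nat_lit 4) .dd))))))))))))))))) (.br (nat_lit 6)
 (.br (nat_lit 4) (.ch (nat_lit 3) (.ev (nat_lit 144) (nat_lit 98336) (.nd (nat_lit 896) (.br (nat_lit 4) (.br
 (nat_lit 2) (.ch (nat_lit 0) (.nd (nat_lit 2224) (.br (nat_lit 4) (.ch (nat_lit 2) (.ev (nat_lit 2240)
 (nat_lit 131072) (.ev (nat_lit 2308) (nat_lit 4) (.ev (nat_lit 2317) (nat_lit 1024) .dd)))) (.br (nat_lit 6)
 (.ch (nat_lit 4) (.ev (nat_lit 2240) (nat_lit 1028) (.ev (nat_lit 2253) (nat_lit 131072) .dd))) (.ch (nat_lit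
 6) (.ev (nat_lit 2560) (nat_lit 131072) (.ev (nat_lit 2836) (nat_lit 4) (.ev (nat_lit 2845) (nat_lit 1024)
 .dd)))))))) (.ch (nat_lit 2) (.ev (nat_lit 2356) (nat_lit 131072) (.ev (nat_lit 2368) (nat_lit 4) (.ev
 (nat_lit 2381) (nat_lit 1024) .dd))))) (.br (nat_lit 7) (.ch (nat_lit 4) (.ev (nat_lit 912) (nat_lit 4) (.nd
 (nat_lit 3248) (.br (nat_lit 1) (.ch (nat_lit 0) (.fin (nat_lit 576460202565911121))) (.br (nat_lit 9) (.ch
 (nat_lit 1) (.ev (nat_lit 3264) (nat_lit 132096) .dd)) (.ch (nat_lit 9) (.ev (nat_lit 3264) (nat_lit 1024)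
 (.ev (nat_lit 3277) (nat_lit 131072) .dd)))))))) (.br (nat_lit 8) (.ch (nat_lit 7) (.ev (nat_lit 912) (nat_lit
 131076) (.ev (nat_lit 925) (nat_lit 1024) .dd))) (.ch (nat_lit 8) (.ev (nat_lit 912) (nat_lit 132096) (.ev
 (nat_lit 925) (nat_lit 4) .dd))))))))) (.ch (nat_lit 4) (.ev (nat_lit 144) (nat_lit 99360) (.nd (nat_lit 1200)
 (.br (nat_lit 6) (.br (nat_lit 3) (.ch (nat_lit 0) (.ev (nat_lit 1216) (nat_lit 131076) .dd)) (.ch (nat_lit 3)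
 (.ev (nat_lit 1300) (nat_lit 131072) (.ev (nat_lit 1309) (nat_lit 4) .dd)))) (.br (nat_lit 10) (.ch (nat_lit
 6) (.ev (nat_lit 1216) (nat_lit 131072) (.ev (nat_lit 1229) (nat_lit 4) .dd))) (.ch (nat_lit 10) (.ev (nat_lit
 2772) (nat_lit 131072) (.ev (nat_lit 2781) (nat_lit 4) .dd))))))))) (.br (nat_lit 8) (.ch (nat_lit 6) (.ev
 (nat_lit 144) (nat_lit 163844) (.ev (nat_lit 372) (nat_lit 1024) (.nd (nat_lit 960) (.br (nat_lit 5) (.br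
 (nat_lit 1) (.ch (nat_lit 0) (.ev (nat_lit 976) (nat_lit 32) (.ev (nat_lit 989) (nat_lit 65536) .dd))) (.ch
 (nat_lit 1) (.ev (nat_lit 976) (nat_lit 65536) (.ev (nat_lit 989) (nat_lit 32) .dd)))) (.br (nat_lit 9) (.ch
 (nat_lit 5) (.ev (nat_lit 976) (nat_lit 65536) (.ev (nat_lit 989) (nat_lit 32) .dd))) (.br (nat_lit 10) (.ch
 (nat_lit 9) (.ev (nat_lit 976) (nat_lit 32) (.ev (nat_lit 989) (nat_lit 65536) .dd))) (.ch (nat_lit 10) (.ev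
 (nat_lit 2132) (nat_lit 32) (.ev (nat_lit 2141) (nat_lit 65536) .dd)))))))))) (.ch (nat_lit 8) (.ev (nat_lit
 144) (nat_lit 196612) (.ev (nat_lit 260) (nat_lit 32) (.ev (nat_lit 324) (nat_lit 32768) (.ev (nat_lit 333)
 (nat_lit 1024) .dd))))))))))))))))

/-- The trie. -/
noncomputable def T : Tr := .nd (nat_lit 1000000) (.br (nat_lit 4) (.br (nat_lit 1) (.ch (nat_lit 0) (.ev
 (nat_lit 0) (nat_lit 524287) .dd)) (.ch (nat_lit 1) T1)) (.br (nat_lit 5) (.ch (nat_lit 4) T4) (.br (nat_lit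
 10) (.ch (nat_lit 5) (.ev (nat_lit 0) (nat_lit 524287) .dd)) (.ch (nat_lit 10) (.ev (nat_lit 0) (nat_lit
 524287) .dd)))))

/-- The possible values. -/
noncomputable def oks : List ℕ := [4, 9, 20, 42, 58, 82, 201, 234, 258, 609, 628, 1081, 1127, 2722, 8946, 43090]

/-- The parameters. -/
noncomputable def S : Pr := ⟨fun i l e => lget mz (lget [] (lget [] tabs i) l) e, oks, [(nat_lit 0), (nat_lit
 0), (nat_lit 0), (nat_lit 0), (nat_lit 0), (nat_lit 0)], T, (nat_lit 524287), (nat_lit 279193), (nat_lit 19),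
 [(nat_lit 1057)], [(nat_lit 1771561)]⟩

/-- Nothing known. -/
noncomputable def cs0 : Cs := (.cons (nat_lit 11) (nat_lit 0) (nat_lit 1) .nil)

theorem part_1 : part S cs0 (nat_lit 1) = true := by decide +kernel

theorem part_4 : part S cs0 (nat_lit 4) = true := by decide +kernel

/-- Data of a prime. -/
noncomputable def D0 : PD := ⟨(nat_lit 11), (nat_lit 6), (875931, 3, 3), (1751884, 39394, 59091), (967863, 1771546, 1771526)⟩

theorem D0_ok : D0.Ok := pdb_sound (s := 1) (C := ⟨⟨9, -6, -17, -1, -14, 8, -4, -1, -1⟩, (9, 10, 7)⟩) (by show Nat.Prime 11; norm_num) (by decide +kernel)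

/-- Lines of the first type. -/
noncomputable def Cl0 : List C1 := [⟨⟨-9, 6, -8, 1, 14, 7, 4, 1, -5⟩, (4, 2, 8)⟩,
  ⟨⟨0, 0, 0, 0, 0, 0, 0, 0, 0⟩, (0, 0, 0)⟩,
  ⟨⟨0, 0, 0, 0, 0, 0, 0, 0, 0⟩, (0, 0, 0)⟩,
  ⟨⟨0, 0, 0, 0, 0, 0, 0, 0, 0⟩, (0, 0, 0)⟩,
  ⟨⟨0, 0, 0, 0, 0, 0, 0, 0, 0⟩, (0, 0, 0)⟩,
  ⟨⟨9, 6, -17, -1, 14, 8, -4, 1, -1⟩, (8, 4, 5)⟩,
  ⟨⟨0, 0, 0, 0, 0, 0, 0, 0, 0⟩, (0, 0, 0)⟩,
  ⟨⟨0, 0, 0, 0, 0, 0, 0, 0, 0⟩, (0, 0, 0)⟩,
  ⟨⟨0, 0, 0, 0, 0, 0, 0, 0, 0⟩, (0, 0, 0)⟩,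
  ⟨⟨0, 0, 0, 0, 0, 0, 0, 0, 0⟩, (0, 0, 0)⟩,
  ⟨⟨-9, -6, -8, 1, -14, 7, 4, -1, -5⟩, (7, 9, 3)⟩]

/-- Data of a prime. -/
noncomputable def Dm : PD := ⟨(nat_lit 19), (nat_lit 2), (210, 3, 5), (67, 193, 280), (183, 17, 194)⟩

theorem Dm_ok : Dm.Ok := pdb_sound (s := 9) (C := ⟨⟨21, 6, -28, 11, 14, 17, -4, 7, -1⟩, (2, 11, 15)⟩) (by show Nat.Prime 19; norm_num) (by decide +kernel)

/-- Lines of the first type. -/
noncomputable def Clm : List C1 := [⟨⟨11, 14, -28, 21, 6, 7, 4, -7, -5⟩, (12, 16, 13)⟩,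
  ⟨⟨0, 0, 0, 0, 0, 0, 0, 0, 0⟩, (0, 0, 0)⟩,
  ⟨⟨0, 0, 0, 0, 0, 0, 0, 0, 0⟩, (0, 0, 0)⟩,
  ⟨⟨9, 6, -32, 1, 26, 7, 8, -1, -1⟩, (8, 3, 5)⟩,
  ⟨⟨-9, -6, -23, -1, -26, 8, 8, -1, -7⟩, (13, 12, 18)⟩,
  ⟨⟨0, 0, 0, 0, 0, 0, 0, 0, 0⟩, (0, 0, 0)⟩,
  ⟨⟨0, 0, 0, 0, 0, 0, 0, 0, 0⟩, (0, 0, 0)⟩,
  ⟨⟨9, -6, -32, 1, -26, 7, 8, 1, -1⟩, (5, 9, 15)⟩,
  ⟨⟨0, 0, 0, 0, 0, 0, 0, 0, 0⟩, (0, 0, 0)⟩,
  ⟨⟨21, -6, -28, 11, -14, 17, -4, -7, -1⟩, (16, 12, 6)⟩,
  ⟨⟨0, 0, 0, 0, 0, 0, 0, 0, 0⟩, (0, 0, 0)⟩,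
  ⟨⟨0, 0, 0, 0, 0, 0, 0, 0, 0⟩, (0, 0, 0)⟩,
  ⟨⟨0, 0, 0, 0, 0, 0, 0, 0, 0⟩, (0, 0, 0)⟩,
  ⟨⟨0, 0, 0, 0, 0, 0, 0, 0, 0⟩, (0, 0, 0)⟩,
  ⟨⟨11, -14, -28, 21, -6, 7, 4, 7, -5⟩, (5, 13, 7)⟩,
  ⟨⟨0, 0, 0, 0, 0, 0, 0, 0, 0⟩, (0, 0, 0)⟩,
  ⟨⟨0, 0, 0, 0, 0, 0, 0, 0, 0⟩, (0, 0, 0)⟩,
  ⟨⟨0, 0, 0, 0, 0, 0, 0, 0, 0⟩, (0, 0, 0)⟩,
  ⟨⟨-9, 6, -23, -1, 26, 8, 8, 1, -7⟩, (16, 6, 9)⟩]

/-- Unit moves. -/
noncomputable def U : List Mv := [mz,
  mz,
  ⟨⟨-1, 0, 1, 0, 1, 0, 0, 0, 1⟩, .nil, (nat_lit 10), (nat_lit 5), (nat_lit 1), (nat_lit 1), (0, 0, 0), [], 6⟩,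
  ⟨⟨1, 0, 0, 0, -1, 0, 0, 0, 1⟩, .nil, (nat_lit 10), (nat_lit 10), (nat_lit 2), (nat_lit 1), (0, 0, 0), [], 10⟩,
  mz,
  mz,
  ⟨⟨-1, 0, 1, 0, -1, 0, 0, 0, 1⟩, .nil, (nat_lit 0), (nat_lit 6), (nat_lit 1), (nat_lit 0), (0, 0, 0), [], 5⟩,
  ⟨⟨-1, 0, 1, 0, -1, 0, 0, 0, 1⟩, .nil, (nat_lit 0), (nat_lit 6), (nat_lit 1), (nat_lit 0), (0, 0, 0), [], 5⟩,
  ⟨⟨1, 0, 0, 0, -1, 0, 0, 0, 1⟩, .nil, (nat_lit 10), (nat_lit 10), (nat_lit 2), (nat_lit 1), (0, 0, 0), [], 10⟩,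
  ⟨⟨-1, 0, 1, 0, 1, 0, 0, 0, 1⟩, .nil, (nat_lit 10), (nat_lit 5), (nat_lit 1), (nat_lit 1), (0, 0, 0), [], 6⟩,
  mz]

theorem v_ty : tyb Dm S.ty1 Clm = true := by decide +kernel

theorem v_ty0 : tyb D0 (S.tys.getD 0 0) Cl0 = true := by decide +kernel

theorem v_msc : mscb S D0 [] Dm (nat_lit 18) = true := by decide +kernel

theorem v_mv0 : mvsn (nat_lit 639533521) S D0 [] Dm (nat_lit 18) 0 D0 = true := by decide +kernel

theorem v_mm : mmsn (nat_lit 639533521) S D0 [] Dm (nat_lit 18) = true := by decide +kernel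

theorem v_un : unb S D0 (nat_lit 18) U = true := by decide +kernel

theorem v_ok : okb S.oks [(0, 0, 0), (0, 3, 0), (0, 0, 0), (0, 0, 0), (0, 0, 0), (0, 0, 0), (4, 5, 4), (0, 0, 0), (0, 0, 0), (13, 20, 2), (0, 0, 0), (0, 21, 8), (21, 26, 1), (0, 0, 0), (0, 0, 0), (0, 0, 0)] = true := by decide +kernel

theorem v_part : ∀ d < D0.p, (nat_lit 18).testBit d = true → part S (zc (D0 :: [])) d = true := by
  intro d hd h
  have h1 : ∀ d < 11, (nat_lit 18).testBit d = true → d = 1 ∨ d = 4 := by decide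
  rcases h1 d hd h with rfl | rfl
  · exact part_1
  · exact part_4

theorem main (n : ℕ) (ho : Odd n) (hr : ¬ Rep n) (h0 : Split 11 n) (hm : Split 19 n) :
    n ∈ EE := by
  refine concln (W := nat_lit 639533521) (S := S) (P0 := D0) (Pl := []) (Pm := Dm) (cn := nat_lit 18) ?_ Dm_ok v_ty ?_ ?_ v_msc ?_ v_mm v_un v_part v_ok
    n ho hr ?_ hm
  · simp only [List.forall_mem_cons]
    exact ⟨D0_ok, fun _ h => absurd h (by simp)⟩
  · exact all1 (φ := fun j P => ∃ L, tyb P (S.tys.getD j 0) L = true) ⟨_, v_ty0⟩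
  · exact all1 (φ := fun j P => Nat.ble (S.pks.getD j 0) (Nat.pow P.p P.K) = true) (by decide +kernel)
  · exact all1 (φ := fun i P => mvsn (nat_lit 639533521) S D0 [] Dm (nat_lit 18) i P = true) v_mv0
  · simp only [List.forall_mem_cons]
    exact ⟨h0, fun _ h => absurd h (by simp)⟩

end Pool.Agent.Work.MP_9954fe_nt.P11_19

namespace Pool.Agent.Work.MP_9954fe_nt.P11_37_53

/-- Dummy move. -/
noncomputable def mz : Mv := ⟨⟨0, 0, 0, 0, 0, 0, 0, 0, 0⟩, .nil, (nat_lit 0), (nat_lit 0), (nat_lit 0), (nat_lit 0), (0, 0, 0), [], 0⟩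

/-- Moves. -/
noncomputable def t0_1 : List Mv := [
  ⟨⟨3, 8, -11, -10, -1, 0, 4, -4, -11⟩, (.cons (nat_lit 1536) (nat_lit 1376) (nat_lit 12461) (nat_lit 1) (.cons
 (nat_lit 44) (nat_lit 1019) (nat_lit 403) (nat_lit 1) .nil)), (nat_lit 8), (nat_lit 38), (nat_lit 33),
 (nat_lit 1), (4, 5, 9), [189, 412], 32⟩,
  ⟨⟨3, 8, -11, 10, 1, 0, 4, -4, -11⟩, (.cons (nat_lit 12102) (nat_lit 6284) (nat_lit 12115) (nat_lit 1) (.cons
 (nat_lit 1006) (nat_lit 696) (nat_lit 595) (nat_lit 1) .nil)), (nat_lit 38), (nat_lit 50), (nat_lit 8),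
 (nat_lit 1), (4, 6, 9), [1, 826], 46⟩,
  ⟨⟨1, -12, 0, 10, 1, 0, 4, -4, -11⟩, (.cons (nat_lit 2540) (nat_lit 3493) (nat_lit 3494) (nat_lit 1) (.cons
 (nat_lit 853) (nat_lit 906) (nat_lit 1201) (nat_lit 1) .nil)), (nat_lit 27), (nat_lit 49), (nat_lit 3),
 (nat_lit 1), (5, 6, 9), [6049, 199], 48⟩,
  ⟨⟨1, -12, 0, -10, -1, 0, 4, -4, -11⟩, (.cons (nat_lit 2824) (nat_lit 2862) (nat_lit 2835) (nat_lit 1) (.cons
 (nat_lit 1368) (nat_lit 493) (nat_lit 591) (nat_lit 1) .nil)), (nat_lit 52), (nat_lit 33), (nat_lit 5),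
 (nat_lit 1), (5, 5, 9), [168, 1194], 29⟩,
  ⟨⟨1, -12, 0, -10, -1, 0, 4, -4, -11⟩, (.cons (nat_lit 2824) (nat_lit 2862) (nat_lit 2835) (nat_lit 1) (.cons
 (nat_lit 1368) (nat_lit 493) (nat_lit 591) (nat_lit 1) .nil)), (nat_lit 52), (nat_lit 33), (nat_lit 5),
 (nat_lit 1), (5, 5, 9), [168, 1194], 29⟩,
  ⟨⟨1, -12, 0, 10, 1, 0, 4, -4, -11⟩, (.cons (nat_lit 2540) (nat_lit 3493) (nat_lit 3494) (nat_lit 1) (.cons
 (nat_lit 853) (nat_lit 906) (nat_lit 1201) (nat_lit 1) .nil)), (nat_lit 27), (nat_lit 49), (nat_lit 3),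
 (nat_lit 1), (5, 6, 9), [6049, 199], 48⟩,
  ⟨⟨1, -12, 0, -10, -1, 0, 4, -4, -11⟩, (.cons (nat_lit 2824) (nat_lit 2862) (nat_lit 2835) (nat_lit 1) (.cons
 (nat_lit 1368) (nat_lit 493) (nat_lit 591) (nat_lit 1) .nil)), (nat_lit 52), (nat_lit 33), (nat_lit 5),
 (nat_lit 1), (5, 5, 9), [168, 1194], 29⟩,
  ⟨⟨3, 8, -11, 10, 1, 0, 4, -4, -11⟩, (.cons (nat_lit 12102) (nat_lit 6284) (nat_lit 12115) (nat_lit 1) (.cons
 (nat_lit 1006) (nat_lit 696) (nat_lit 595) (nat_lit 1) .nil)), (nat_lit 38), (nat_lit 50), (nat_lit 8),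
 (nat_lit 1), (4, 6, 9), [1, 826], 46⟩,
  ⟨⟨1, -12, 0, -10, -1, 0, 4, -4, -11⟩, (.cons (nat_lit 2824) (nat_lit 2862) (nat_lit 2835) (nat_lit 1) (.cons
 (nat_lit 1368) (nat_lit 493) (nat_lit 591) (nat_lit 1) .nil)), (nat_lit 52), (nat_lit 33), (nat_lit 5),
 (nat_lit 1), (5, 5, 9), [168, 1194], 29⟩,
  ⟨⟨3, 8, -11, -10, -1, 0, 4, -4, -11⟩, (.cons (nat_lit 1536) (nat_lit 1376) (nat_lit 12461) (nat_lit 1) (.cons
 (nat_lit 44) (nat_lit 1019) (nat_lit 403) (nat_lit 1) .nil)), (nat_lit 8), (nat_lit 38), (nat_lit 33),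
 (nat_lit 1), (4, 5, 9), [189, 412], 32⟩,
  ⟨⟨1, -12, 0, -10, -1, 0, 4, -4, -11⟩, (.cons (nat_lit 2824) (nat_lit 2862) (nat_lit 2835) (nat_lit 1) (.cons
 (nat_lit 1368) (nat_lit 493) (nat_lit 591) (nat_lit 1) .nil)), (nat_lit 52), (nat_lit 33), (nat_lit 5),
 (nat_lit 1), (5, 5, 9), [168, 1194], 29⟩]

/-- Moves. -/
noncomputable def t0_4 : List Mv := [
  ⟨⟨-11, 0, 0, -4, 5, 12, -2, 8, -5⟩, (.cons (nat_lit 13877) (nat_lit 5699) (nat_lit 3472) (nat_lit 1) (.cons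
 (nat_lit 1368) (nat_lit 665) (nat_lit 1332) (nat_lit 1) .nil)), (nat_lit 52), (nat_lit 49), (nat_lit 2),
 (nat_lit 1), (0, 5, 8), [6940, 951], 24⟩,
  ⟨⟨9, 8, -5, 4, -5, -12, -2, 8, -5⟩, (.cons (nat_lit 12428) (nat_lit 7321) (nat_lit 9741) (nat_lit 1) (.cons
 (nat_lit 407) (nat_lit 1305) (nat_lit 1259) (nat_lit 1) .nil)), (nat_lit 23), (nat_lit 38), (nat_lit 40),
 (nat_lit 1), (8, 6, 8), [237, 963], 16⟩,
  ⟨⟨9, 8, -5, 4, -5, -12, -2, 8, -5⟩, (.cons (nat_lit 12428) (nat_lit 7321) (nat_lit 9741) (nat_lit 1) (.cons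
 (nat_lit 407) (nat_lit 1305) (nat_lit 1259) (nat_lit 1) .nil)), (nat_lit 23), (nat_lit 38), (nat_lit 40),
 (nat_lit 1), (8, 6, 8), [237, 963], 16⟩,
  ⟨⟨9, 8, -5, 4, -5, -12, -2, 8, -5⟩, (.cons (nat_lit 12428) (nat_lit 7321) (nat_lit 9741) (nat_lit 1) (.cons
 (nat_lit 407) (nat_lit 1305) (nat_lit 1259) (nat_lit 1) .nil)), (nat_lit 23), (nat_lit 38), (nat_lit 40),
 (nat_lit 1), (8, 6, 8), [237, 963], 16⟩,
  ⟨⟨9, 8, -5, -4, 5, 12, -2, 8, -5⟩, (.cons (nat_lit 5388) (nat_lit 7933) (nat_lit 6040) (nat_lit 1) (.cons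
 (nat_lit 903) (nat_lit 488) (nat_lit 467) (nat_lit 1) .nil)), (nat_lit 50), (nat_lit 50), (nat_lit 26),
 (nat_lit 1), (8, 5, 8), [4580, 1236], 23⟩,
  ⟨⟨-11, 0, 0, 4, -5, -12, -2, 8, -5⟩, (.cons (nat_lit 11498) (nat_lit 5272) (nat_lit 1440) (nat_lit 1) (.cons
 (nat_lit 797) (nat_lit 1209) (nat_lit 684) (nat_lit 1) .nil)), (nat_lit 10), (nat_lit 33), (nat_lit 1),
 (nat_lit 1), (0, 6, 8), [10785, 327], 41⟩,
  ⟨⟨9, 8, -5, 4, -5, -12, -2, 8, -5⟩, (.cons (nat_lit 12428) (nat_lit 7321) (nat_lit 9741) (nat_lit 1) (.cons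
 (nat_lit 407) (nat_lit 1305) (nat_lit 1259) (nat_lit 1) .nil)), (nat_lit 23), (nat_lit 38), (nat_lit 40),
 (nat_lit 1), (8, 6, 8), [237, 963], 16⟩,
  ⟨⟨9, 8, -5, -4, 5, 12, -2, 8, -5⟩, (.cons (nat_lit 5388) (nat_lit 7933) (nat_lit 6040) (nat_lit 1) (.cons
 (nat_lit 903) (nat_lit 488) (nat_lit 467) (nat_lit 1) .nil)), (nat_lit 50), (nat_lit 50), (nat_lit 26),
 (nat_lit 1), (8, 5, 8), [4580, 1236], 23⟩,
  ⟨⟨-11, 0, 0, 4, -5, -12, -2, 8, -5⟩, (.cons (nat_lit 11498) (nat_lit 5272) (nat_lit 1440) (nat_lit 1) (.cons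
 (nat_lit 797) (nat_lit 1209) (nat_lit 684) (nat_lit 1) .nil)), (nat_lit 10), (nat_lit 33), (nat_lit 1),
 (nat_lit 1), (0, 6, 8), [10785, 327], 41⟩,
  ⟨⟨9, 8, -5, 4, -5, -12, -2, 8, -5⟩, (.cons (nat_lit 12428) (nat_lit 7321) (nat_lit 9741) (nat_lit 1) (.cons
 (nat_lit 407) (nat_lit 1305) (nat_lit 1259) (nat_lit 1) .nil)), (nat_lit 23), (nat_lit 38), (nat_lit 40),
 (nat_lit 1), (8, 6, 8), [237, 963], 16⟩,
  ⟨⟨9, 8, -5, 4, -5, -12, -2, 8, -5⟩, (.cons (nat_lit 12428) (nat_lit 7321) (nat_lit 9741) (nat_lit 1) (.cons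
 (nat_lit 407) (nat_lit 1305) (nat_lit 1259) (nat_lit 1) .nil)), (nat_lit 23), (nat_lit 38), (nat_lit 40),
 (nat_lit 1), (8, 6, 8), [237, 963], 16⟩]

/-- Moves. -/
noncomputable def t1_1 : List Mv := [
  mz,
  ⟨⟨3, -16, -43, 10, 33, -20, 30, -12, -23⟩, (.cons (nat_lit 8852) (nat_lit 9562) (nat_lit 7208) (nat_lit 1)
 (.cons (nat_lit 1309) (nat_lit 52) (nat_lit 1287) (nat_lit 1) .nil)), (nat_lit 42), (nat_lit 19), (nat_lit
 29), (nat_lit 1), (25, 34, 28), [13009, 97], 35⟩,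
  mz,
  mz,
  ⟨⟨11, -12, -47, 8, 35, -14, 32, -8, -19⟩, (.cons (nat_lit 1591) (nat_lit 2196) (nat_lit 6734) (nat_lit 1)
 (.cons (nat_lit 388) (nat_lit 565) (nat_lit 28) (nat_lit 1) .nil)), (nat_lit 25), (nat_lit 37), (nat_lit 1),
 (nat_lit 0), (12, 2, 8), [12787, 996], 9⟩,
  ⟨⟨11, 12, -47, 8, -35, -14, 32, 8, -19⟩, (.cons (nat_lit 851) (nat_lit 7392) (nat_lit 11616) (nat_lit 1)
 (.cons (nat_lit 1279) (nat_lit 1018) (nat_lit 267) (nat_lit 1) .nil)), (nat_lit 37), (nat_lit 3), (nat_lit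
 45), (nat_lit 1), (29, 11, 7), [11105, 834], 22⟩,
  mz,
  ⟨⟨-1, -24, -36, -30, -17, 30, -18, 12, -19⟩, (.cons (nat_lit 7194) (nat_lit 9769) (nat_lit 1) (nat_lit 7447)
 (.cons (nat_lit 1045) (nat_lit 234) (nat_lit 1328) (nat_lit 1) .nil)), (nat_lit 52), (nat_lit 22), (nat_lit
 52), (nat_lit 1), (13, 20, 12), [1789, 1056], 35⟩,
  ⟨⟨35, -12, -36, 12, 35, -6, 0, 0, -37⟩, (.cons (nat_lit 7129) (nat_lit 7192) (nat_lit 2977) (nat_lit 1)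
 (.cons (nat_lit 1324) (nat_lit 150) (nat_lit 889) (nat_lit 1) .nil)), (nat_lit 1), (nat_lit 15), (nat_lit 40),
 (nat_lit 1), (34, 18, 0), [10786, 602], 9⟩,
  mz,
  ⟨⟨-1, 24, -36, -30, 17, 30, -18, -12, -19⟩, (.cons (nat_lit 11097) (nat_lit 10152) (nat_lit 14367) (nat_lit
 1) (.cons (nat_lit 323) (nat_lit 746) (nat_lit 950) (nat_lit 1) .nil)), (nat_lit 18), (nat_lit 25), (nat_lit
 26), (nat_lit 1), (10, 4, 32), [4613, 604], 11⟩,
  ⟨⟨27, -4, 20, -10, 33, 20, 30, 12, -23⟩, (.cons (nat_lit 14640) (nat_lit 13044) (nat_lit 7916) (nat_lit 1)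
 (.cons (nat_lit 956) (nat_lit 231) (nat_lit 837) (nat_lit 1) .nil)), (nat_lit 52), (nat_lit 18), (nat_lit 47),
 (nat_lit 1), (22, 22, 8), [2181, 731], 16⟩,
  ⟨⟨39, -4, -8, 10, 17, -40, 14, -28, -19⟩, (.cons (nat_lit 14640) (nat_lit 10251) (nat_lit 10090) (nat_lit 1)
 (.cons (nat_lit 1035) (nat_lit 1264) (nat_lit 1002) (nat_lit 1) .nil)), (nat_lit 52), (nat_lit 36), (nat_lit
 23), (nat_lit 1), (11, 18, 3), [9518, 537], 39⟩,
  ⟨⟨39, 8, -28, -8, 5, -36, 8, 32, -1⟩, (.cons (nat_lit 797) (nat_lit 10050) (nat_lit 7664) (nat_lit 1) (.cons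
 (nat_lit 1257) (nat_lit 750) (nat_lit 782) (nat_lit 1) .nil)), (nat_lit 10), (nat_lit 42), (nat_lit 47),
 (nat_lit 1), (21, 27, 10), [12457, 689], 48⟩,
  mz,
  ⟨⟨-3, 40, 8, 32, 5, -36, -16, 16, -19⟩, (.cons (nat_lit 4198) (nat_lit 4442) (nat_lit 12005) (nat_lit 1)
 (.cons (nat_lit 495) (nat_lit 1269) (nat_lit 275) (nat_lit 1) .nil)), (nat_lit 4), (nat_lit 37), (nat_lit 25),
 (nat_lit 1), (27, 8, 33), [4229, 615], 2⟩,
  ⟨⟨11, -12, 36, -8, -35, -6, 32, -8, -13⟩, (.cons (nat_lit 14640) (nat_lit 3098) (nat_lit 6287) (nat_lit 1)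
 (.cons (nat_lit 579) (nat_lit 308) (nat_lit 723) (nat_lit 1) .nil)), (nat_lit 52), (nat_lit 32), (nat_lit 35),
 (nat_lit 1), (3, 18, 2), [5603, 1042], 22⟩,
  ⟨⟨39, -8, -11, -8, -5, 44, 8, -32, -7⟩, (.cons (nat_lit 69) (nat_lit 4228) (nat_lit 8410) (nat_lit 1) (.cons
 (nat_lit 768) (nat_lit 1189) (nat_lit 933) (nat_lit 1) .nil)), (nat_lit 11), (nat_lit 2), (nat_lit 50),
 (nat_lit 1), (5, 17, 20), [1412, 321], 46⟩,
  ⟨⟨39, 4, -8, 10, -17, -40, 14, 28, -19⟩, (.cons (nat_lit 6892) (nat_lit 4873) (nat_lit 11402) (nat_lit 1)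
 (.cons (nat_lit 653) (nat_lit 543) (nat_lit 261) (nat_lit 1) .nil)), (nat_lit 4), (nat_lit 52), (nat_lit 39),
 (nat_lit 1), (29, 34, 18), [838, 1306], 1⟩,
  ⟨⟨39, -8, -28, -8, -5, -36, 8, -32, -1⟩, (.cons (nat_lit 4141) (nat_lit 8377) (nat_lit 10861) (nat_lit 1)
 (.cons (nat_lit 713) (nat_lit 1078) (nat_lit 357) (nat_lit 1) .nil)), (nat_lit 10), (nat_lit 14), (nat_lit 5),
 (nat_lit 1), (22, 23, 14), [2716, 813], 47⟩,
  ⟨⟨25, -24, -36, -10, 17, -30, -14, -28, -5⟩, (.cons (nat_lit 14640) (nat_lit 5953) (nat_lit 1300) (nat_lit 1)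
 (.cons (nat_lit 785) (nat_lit 190) (nat_lit 178) (nat_lit 1) .nil)), (nat_lit 52), (nat_lit 1), (nat_lit 11),
 (nat_lit 1), (21, 36, 6), [5300, 179], 20⟩,
  ⟨⟨13, -24, -40, -32, 5, -4, 16, 16, -35⟩, (.cons (nat_lit 710) (nat_lit 3866) (nat_lit 9021) (nat_lit 1)
 (.cons (nat_lit 262) (nat_lit 1141) (nat_lit 989) (nat_lit 1) .nil)), (nat_lit 21), (nat_lit 10), (nat_lit
 44), (nat_lit 1), (27, 36, 19), [14282, 1238], 26⟩,
  ⟨⟨39, 8, -11, 8, -5, -44, 8, 32, -7⟩, (.cons (nat_lit 11246) (nat_lit 5880) (nat_lit 2000) (nat_lit 1) (.cons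
 (nat_lit 878) (nat_lit 1045) (nat_lit 389) (nat_lit 1) .nil)), (nat_lit 29), (nat_lit 48), (nat_lit 34),
 (nat_lit 1), (4, 16, 16), [2033, 966], 49⟩,
  mz,
  ⟨⟨13, 24, -40, 32, 5, 4, 16, -16, -35⟩, (.cons (nat_lit 5772) (nat_lit 11808) (nat_lit 2993) (nat_lit 1)
 (.cons (nat_lit 321) (nat_lit 813) (nat_lit 902) (nat_lit 1) .nil)), (nat_lit 40), (nat_lit 4), (nat_lit 7),
 (nat_lit 1), (24, 5, 21), [10495, 779], 20⟩,
  ⟨⟨17, -36, 0, 30, 17, 0, 18, -12, -37⟩, (.cons (nat_lit 7874) (nat_lit 12479) (nat_lit 233) (nat_lit 1)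
 (.cons (nat_lit 694) (nat_lit 709) (nat_lit 157) (nat_lit 1) .nil)), (nat_lit 18), (nat_lit 30), (nat_lit 4),
 (nat_lit 1), (21, 24, 7), [873, 1099], 11⟩,
  ⟨⟨27, -4, -47, 10, -33, 10, 30, 12, -7⟩, (.cons (nat_lit 6343) (nat_lit 5897) (nat_lit 3499) (nat_lit 1)
 (.cons (nat_lit 275) (nat_lit 171) (nat_lit 201) (nat_lit 1) .nil)), (nat_lit 24), (nat_lit 21), (nat_lit 46),
 (nat_lit 1), (15, 22, 29), [2572, 1240], 33⟩,
  ⟨⟨27, 4, -47, -10, -33, -10, 30, -12, -7⟩, (.cons (nat_lit 6068) (nat_lit 434) (nat_lit 10536) (nat_lit 1)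
 (.cons (nat_lit 1228) (nat_lit 103) (nat_lit 189) (nat_lit 1) .nil)), (nat_lit 24), (nat_lit 49), (nat_lit
 50), (nat_lit 1), (33, 33, 12), [5432, 442], 33⟩,
  mz,
  ⟨⟨-35, -12, -1, 12, -35, -6, 0, 0, -37⟩, (.cons (nat_lit 4918) (nat_lit 1609) (nat_lit 2602) (nat_lit 1)
 (.cons (nat_lit 99) (nat_lit 393) (nat_lit 720) (nat_lit 1) .nil)), (nat_lit 1), (nat_lit 49), (nat_lit 7),
 (nat_lit 1), (23, 27, 0), [11453, 847], 40⟩,
  ⟨⟨25, 24, -36, 10, 17, 30, -14, 28, -5⟩, (.cons (nat_lit 14640) (nat_lit 10135) (nat_lit 7317) (nat_lit 1)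
 (.cons (nat_lit 1204) (nat_lit 663) (nat_lit 87) (nat_lit 1) .nil)), (nat_lit 52), (nat_lit 51), (nat_lit 10),
 (nat_lit 1), (18, 22, 21), [12565, 348], 39⟩,
  mz,
  mz,
  ⟨⟨-3, -40, 8, 32, -5, -36, -16, -16, -19⟩, (.cons (nat_lit 385) (nat_lit 6163) (nat_lit 8665) (nat_lit 1)
 (.cons (nat_lit 1060) (nat_lit 1205) (nat_lit 223) (nat_lit 1) .nil)), (nat_lit 3), (nat_lit 38), (nat_lit
 49), (nat_lit 1), (32, 4, 35), [12856, 700], 42⟩,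
  mz,
  ⟨⟨21, -4, -49, 8, -35, 6, 32, 8, -13⟩, (.cons (nat_lit 13868) (nat_lit 13793) (nat_lit 7827) (nat_lit 1)
 (.cons (nat_lit 377) (nat_lit 569) (nat_lit 159) (nat_lit 1) .nil)), (nat_lit 0), (nat_lit 7), (nat_lit 36),
 (nat_lit 1), (18, 28, 1), [7501, 1109], 49⟩,
  ⟨⟨17, 36, 0, -30, 17, 0, 18, 12, -37⟩, (.cons (nat_lit 13821) (nat_lit 13362) (nat_lit 727) (nat_lit 1)
 (.cons (nat_lit 1234) (nat_lit 1190) (nat_lit 1297) (nat_lit 1) .nil)), (nat_lit 3), (nat_lit 16), (nat_lit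
 41), (nat_lit 1), (35, 34, 24), [3587, 702], 46⟩]

/-- Moves. -/
noncomputable def t1_4 : List Mv := [
  mz,
  ⟨⟨3, -16, -43, 10, 33, -20, 30, -12, -23⟩, (.cons (nat_lit 8852) (nat_lit 9562) (nat_lit 7208) (nat_lit 1)
 (.cons (nat_lit 1309) (nat_lit 52) (nat_lit 1287) (nat_lit 1) .nil)), (nat_lit 42), (nat_lit 19), (nat_lit
 29), (nat_lit 1), (25, 34, 28), [13009, 97], 35⟩,
  mz,
  mz,
  ⟨⟨21, 4, 28, 8, 35, -14, 32, -8, -19⟩, (.cons (nat_lit 14640) (nat_lit 8038) (nat_lit 9688) (nat_lit 1)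
 (.cons (nat_lit 347) (nat_lit 876) (nat_lit 96) (nat_lit 1) .nil)), (nat_lit 52), (nat_lit 20), (nat_lit 3),
 (nat_lit 1), (33, 2, 8), [8411, 240], 31⟩,
  ⟨⟨21, -4, 28, 8, -35, -14, 32, 8, -19⟩, (.cons (nat_lit 8631) (nat_lit 13876) (nat_lit 5240) (nat_lit 1)
 (.cons (nat_lit 896) (nat_lit 170) (nat_lit 1223) (nat_lit 1) .nil)), (nat_lit 28), (nat_lit 0), (nat_lit 4),
 (nat_lit 1), (15, 11, 7), [2115, 1074], 29⟩,
  mz,
  ⟨⟨-1, -24, -36, 30, 17, -30, -18, 12, -19⟩, (.cons (nat_lit 7903) (nat_lit 1424) (nat_lit 13195) (nat_lit 1)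
 (.cons (nat_lit 331) (nat_lit 721) (nat_lit 688) (nat_lit 1) .nil)), (nat_lit 3), (nat_lit 31), (nat_lit 28),
 (nat_lit 1), (13, 17, 12), [5325, 139], 46⟩,
  ⟨⟨-35, 12, -1, 12, 35, -6, 0, 0, -37⟩, (.cons (nat_lit 14640) (nat_lit 14612) (nat_lit 4172) (nat_lit 1)
 (.cons (nat_lit 623) (nat_lit 672) (nat_lit 767) (nat_lit 1) .nil)), (nat_lit 52), (nat_lit 5), (nat_lit 22),
 (nat_lit 1), (3, 18, 0), [11014, 1312], 27⟩,
  mz,
  ⟨⟨-17, -36, 17, 30, -17, -30, -18, -12, -19⟩, (.cons (nat_lit 3712) (nat_lit 2832) (nat_lit 12883) (nat_lit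
 1) (.cons (nat_lit 501) (nat_lit 874) (nat_lit 837) (nat_lit 1) .nil)), (nat_lit 20), (nat_lit 13), (nat_lit
 41), (nat_lit 1), (22, 33, 32), [11856, 1360], 7⟩,
  ⟨⟨3, 16, -43, 10, -33, -20, 30, 12, -23⟩, (.cons (nat_lit 9769) (nat_lit 13681) (nat_lit 12315) (nat_lit 1)
 (.cons (nat_lit 624) (nat_lit 780) (nat_lit 209) (nat_lit 1) .nil)), (nat_lit 33), (nat_lit 21), (nat_lit 50),
 (nat_lit 1), (23, 15, 8), [4929, 854], 52⟩,
  ⟨⟨39, -4, -8, -10, -17, 40, 14, -28, -19⟩, (.cons (nat_lit 12608) (nat_lit 9493) (nat_lit 3563) (nat_lit 1)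
 (.cons (nat_lit 608) (nat_lit 1179) (nat_lit 153) (nat_lit 1) .nil)), (nat_lit 40), (nat_lit 40), (nat_lit
 30), (nat_lit 1), (11, 19, 3), [9699, 929], 10⟩,
  ⟨⟨39, 8, -28, -8, 5, -36, 8, 32, -1⟩, (.cons (nat_lit 797) (nat_lit 10050) (nat_lit 7664) (nat_lit 1) (.cons
 (nat_lit 1257) (nat_lit 750) (nat_lit 782) (nat_lit 1) .nil)), (nat_lit 10), (nat_lit 42), (nat_lit 47),
 (nat_lit 1), (21, 27, 10), [12457, 689], 48⟩,
  mz,
  ⟨⟨-3, 40, 8, -32, -5, 36, -16, 16, -19⟩, (.cons (nat_lit 14432) (nat_lit 7894) (nat_lit 2777) (nat_lit 1)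
 (.cons (nat_lit 1240) (nat_lit 371) (nat_lit 866) (nat_lit 1) .nil)), (nat_lit 3), (nat_lit 28), (nat_lit 40),
 (nat_lit 1), (27, 29, 33), [11580, 1069], 42⟩,
  ⟨⟨11, -12, 36, -8, -35, -6, 32, -8, -13⟩, (.cons (nat_lit 14640) (nat_lit 3098) (nat_lit 6287) (nat_lit 1)
 (.cons (nat_lit 579) (nat_lit 308) (nat_lit 723) (nat_lit 1) .nil)), (nat_lit 52), (nat_lit 32), (nat_lit 35),
 (nat_lit 1), (3, 18, 2), [5603, 1042], 22⟩,
  ⟨⟨-31, -24, 4, -8, -5, 44, 8, -32, -7⟩, (.cons (nat_lit 2795) (nat_lit 1098) (nat_lit 12236) (nat_lit 1)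
 (.cons (nat_lit 178) (nat_lit 1126) (nat_lit 1207) (nat_lit 1) .nil)), (nat_lit 19), (nat_lit 7), (nat_lit
 52), (nat_lit 1), (15, 17, 20), [7576, 856], 45⟩,
  ⟨⟨39, 4, -8, -10, 17, 40, 14, 28, -19⟩, (.cons (nat_lit 14640) (nat_lit 9261) (nat_lit 10787) (nat_lit 1)
 (.cons (nat_lit 865) (nat_lit 517) (nat_lit 1267) (nat_lit 1) .nil)), (nat_lit 52), (nat_lit 29), (nat_lit
 15), (nat_lit 1), (29, 3, 18), [3518, 1161], 20⟩,
  ⟨⟨39, -8, -28, 8, 5, 36, 8, -32, -1⟩, (.cons (nat_lit 13300) (nat_lit 8318) (nat_lit 10556) (nat_lit 1)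
 (.cons (nat_lit 128) (nat_lit 4) (nat_lit 1037) (nat_lit 1) .nil)), (nat_lit 14), (nat_lit 8), (nat_lit 14),
 (nat_lit 1), (22, 14, 14), [10387, 87], 31⟩,
  ⟨⟨25, -24, -36, -10, 17, -30, -14, -28, -5⟩, (.cons (nat_lit 14640) (nat_lit 5953) (nat_lit 1300) (nat_lit 1)
 (.cons (nat_lit 785) (nat_lit 190) (nat_lit 178) (nat_lit 1) .nil)), (nat_lit 52), (nat_lit 1), (nat_lit 11),
 (nat_lit 1), (21, 36, 6), [5300, 179], 20⟩,
  ⟨⟨13, -24, -40, 32, -5, 4, 16, 16, -35⟩, (.cons (nat_lit 12685) (nat_lit 9050) (nat_lit 1) (nat_lit 13497)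
 (.cons (nat_lit 1208) (nat_lit 632) (nat_lit 9) (nat_lit 1) .nil)), (nat_lit 18), (nat_lit 26), (nat_lit 22),
 (nat_lit 1), (27, 1, 19), [14035, 373], 40⟩,
  ⟨⟨39, 8, -11, 8, -5, -44, 8, 32, -7⟩, (.cons (nat_lit 11246) (nat_lit 5880) (nat_lit 2000) (nat_lit 1) (.cons
 (nat_lit 878) (nat_lit 1045) (nat_lit 389) (nat_lit 1) .nil)), (nat_lit 29), (nat_lit 48), (nat_lit 34),
 (nat_lit 1), (4, 16, 16), [2033, 966], 49⟩,
  mz,
  ⟨⟨13, 24, -40, -32, -5, -4, 16, -16, -35⟩, (.cons (nat_lit 10993) (nat_lit 8689) (nat_lit 1) (nat_lit 1056)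
 (.cons (nat_lit 1050) (nat_lit 506) (nat_lit 422) (nat_lit 1) .nil)), (nat_lit 18), (nat_lit 5), (nat_lit 19),
 (nat_lit 1), (24, 32, 21), [3912, 287], 40⟩,
  ⟨⟨1, 24, -37, -30, -17, 0, 18, -12, -37⟩, (.cons (nat_lit 5234) (nat_lit 8645) (nat_lit 6824) (nat_lit 1)
 (.cons (nat_lit 281) (nat_lit 1244) (nat_lit 757) (nat_lit 1) .nil)), (nat_lit 8), (nat_lit 2), (nat_lit 43),
 (nat_lit 1), (23, 13, 7), [1950, 924], 24⟩,
  ⟨⟨27, -4, -47, -10, 33, -10, 30, 12, -7⟩, (.cons (nat_lit 9956) (nat_lit 11828) (nat_lit 10235) (nat_lit 1)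
 (.cons (nat_lit 565) (nat_lit 1112) (nat_lit 307) (nat_lit 1) .nil)), (nat_lit 45), (nat_lit 9), (nat_lit 29),
 (nat_lit 1), (15, 15, 29), [6863, 62], 11⟩,
  ⟨⟨27, 4, -47, -10, -33, -10, 30, -12, -7⟩, (.cons (nat_lit 6068) (nat_lit 434) (nat_lit 10536) (nat_lit 1)
 (.cons (nat_lit 1228) (nat_lit 103) (nat_lit 189) (nat_lit 1) .nil)), (nat_lit 24), (nat_lit 49), (nat_lit
 50), (nat_lit 1), (33, 33, 12), [5432, 442], 33⟩,
  mz,
  ⟨⟨35, 12, -36, -12, 35, 6, 0, 0, -37⟩, (.cons (nat_lit 12959) (nat_lit 3478) (nat_lit 92) (nat_lit 1) (.cons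
 (nat_lit 657) (nat_lit 931) (nat_lit 355) (nat_lit 1) .nil)), (nat_lit 1), (nat_lit 38), (nat_lit 13),
 (nat_lit 1), (14, 10, 0), [12854, 1288], 9⟩,
  ⟨⟨-39, 4, 31, -10, -17, -30, -14, 28, -5⟩, (.cons (nat_lit 10134) (nat_lit 6519) (nat_lit 8621) (nat_lit 1)
 (.cons (nat_lit 105) (nat_lit 287) (nat_lit 18) (nat_lit 1) .nil)), (nat_lit 18), (nat_lit 23), (nat_lit 27),
 (nat_lit 1), (3, 15, 21), [14105, 954], 51⟩,
  mz,
  mz,
  ⟨⟨-3, -40, 8, 32, -5, -36, -16, -16, -19⟩, (.cons (nat_lit 385) (nat_lit 6163) (nat_lit 8665) (nat_lit 1)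
 (.cons (nat_lit 1060) (nat_lit 1205) (nat_lit 223) (nat_lit 1) .nil)), (nat_lit 3), (nat_lit 38), (nat_lit
 49), (nat_lit 1), (32, 4, 35), [12856, 700], 42⟩,
  mz,
  ⟨⟨21, -4, -49, -8, 35, -6, 32, 8, -13⟩, (.cons (nat_lit 10013) (nat_lit 8800) (nat_lit 11737) (nat_lit 1)
 (.cons (nat_lit 1285) (nat_lit 416) (nat_lit 1145) (nat_lit 1) .nil)), (nat_lit 43), (nat_lit 30), (nat_lit
 26), (nat_lit 1), (18, 9, 1), [1794, 8], 26⟩,
  ⟨⟨1, -24, -37, -30, 17, 0, 18, 12, -37⟩, (.cons (nat_lit 5808) (nat_lit 8851) (nat_lit 6355) (nat_lit 1)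
 (.cons (nat_lit 1365) (nat_lit 409) (nat_lit 81) (nat_lit 1) .nil)), (nat_lit 17), (nat_lit 41), (nat_lit 32),
 (nat_lit 1), (26, 34, 24), [4264, 1092], 50⟩]

/-- Moves. -/
noncomputable def t4_1 : List Mv := [
  mz,
  mz,
  mz,
  mz,
  ⟨⟨51, 20, -47, 10, -47, -30, -2, 20, -47⟩, (.cons (nat_lit 82) (nat_lit 11522) (nat_lit 1) (nat_lit 11902)
 (.cons (nat_lit 496) (nat_lit 935) (nat_lit 1) (nat_lit 999) .nil)), (nat_lit 15), (nat_lit 0), (nat_lit 0),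
 (nat_lit 0), (24, 39, 24), [3695, 1283], 0⟩,
  ⟨⟨51, -20, -47, -10, -47, 30, -2, -20, -47⟩, (.cons (nat_lit 6747) (nat_lit 4520) (nat_lit 5095) (nat_lit 1)
 (.cons (nat_lit 965) (nat_lit 530) (nat_lit 1163) (nat_lit 1) .nil)), (nat_lit 12), (nat_lit 0), (nat_lit 0),
 (nat_lit 0), (12, 7, 12), [9613, 269], 0⟩,
  ⟨⟨25, -48, -36, -28, 5, -36, 40, 8, -47⟩, (.cons (nat_lit 1278) (nat_lit 1435) (nat_lit 5517) (nat_lit 1)
 (.cons (nat_lit 1004) (nat_lit 1234) (nat_lit 2) (nat_lit 1) .nil)), (nat_lit 36), (nat_lit 0), (nat_lit 0),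
 (nat_lit 0), (37, 37, 38), [10154, 441], 0⟩,
  mz,
  mz,
  ⟨⟨-33, -20, -32, -8, -45, 34, 24, -24, -49⟩, (.cons (nat_lit 6254) (nat_lit 1190) (nat_lit 810) (nat_lit 1)
 (.cons (nat_lit 1131) (nat_lit 803) (nat_lit 417) (nat_lit 1) .nil)), (nat_lit 42), (nat_lit 0), (nat_lit 0),
 (nat_lit 0), (35, 39, 42), [9532, 1049], 0⟩,
  ⟨⟨-15, -56, 4, -28, 5, 64, -40, -8, -7⟩, (.cons (nat_lit 8894) (nat_lit 1811) (nat_lit 8431) (nat_lit 1)
 (.cons (nat_lit 496) (nat_lit 440) (nat_lit 961) (nat_lit 1) .nil)), (nat_lit 37), (nat_lit 0), (nat_lit 0),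
 (nat_lit 0), (10, 1, 9), [7549, 287], 0⟩,
  ⟨⟨15, -32, 44, 50, 17, -30, 14, -44, -19⟩, (.cons (nat_lit 5632) (nat_lit 7346) (nat_lit 4711) (nat_lit 1)
 (.cons (nat_lit 237) (nat_lit 155) (nat_lit 866) (nat_lit 1) .nil)), (nat_lit 41), (nat_lit 0), (nat_lit 0),
 (nat_lit 0), (29, 26, 20), [14367, 626], 0⟩,
  ⟨⟨53, 0, -53, -10, -47, -20, 2, 20, -49⟩, (.cons (nat_lit 14424) (nat_lit 14534) (nat_lit 7540) (nat_lit 1)
 (.cons (nat_lit 654) (nat_lit 1106) (nat_lit 562) (nat_lit 1) .nil)), (nat_lit 5), (nat_lit 0), (nat_lit 0),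
 (nat_lit 0), (0, 25, 48), [10760, 737], 0⟩,
  mz,
  mz,
  ⟨⟨-51, -20, 4, -10, 47, -20, 2, -20, -49⟩, (.cons (nat_lit 14640) (nat_lit 7661) (nat_lit 363) (nat_lit 1)
 (.cons (nat_lit 1368) (nat_lit 1273) (nat_lit 370) (nat_lit 1) .nil)), (nat_lit 15), (nat_lit 0), (nat_lit 0),
 (nat_lit 0), (36, 32, 36), [915, 132], 0⟩,
  ⟨⟨31, -48, -27, 10, 17, -60, 46, 4, -11⟩, (.cons (nat_lit 5933) (nat_lit 3919) (nat_lit 8179) (nat_lit 1)
 (.cons (nat_lit 1212) (nat_lit 217) (nat_lit 96) (nat_lit 1) .nil)), (nat_lit 43), (nat_lit 0), (nat_lit 0),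
 (nat_lit 0), (39, 16, 10), [10588, 580], 0⟩,
  ⟨⟨31, -48, -4, 10, 17, 50, 46, 4, -35⟩, (.cons (nat_lit 1200) (nat_lit 11899) (nat_lit 6296) (nat_lit 1)
 (.cons (nat_lit 1348) (nat_lit 785) (nat_lit 1166) (nat_lit 1) .nil)), (nat_lit 43), (nat_lit 0), (nat_lit 0),
 (nat_lit 0), (18, 40, 25), [11763, 659], 0⟩,
  ⟨⟨-57, -4, 40, 8, -45, 26, -24, -24, -25⟩, (.cons (nat_lit 13033) (nat_lit 13219) (nat_lit 13580) (nat_lit 1)
 (.cons (nat_lit 821) (nat_lit 404) (nat_lit 884) (nat_lit 1) .nil)), (nat_lit 21), (nat_lit 0), (nat_lit 0),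
 (nat_lit 0), (12, 29, 19), [6203, 709], 0⟩,
  mz,
  mz,
  ⟨⟨-33, 20, -32, 8, -45, -34, 24, 24, -49⟩, (.cons (nat_lit 8750) (nat_lit 12291) (nat_lit 1356) (nat_lit 1)
 (.cons (nat_lit 682) (nat_lit 1010) (nat_lit 841) (nat_lit 1) .nil)), (nat_lit 18), (nat_lit 0), (nat_lit 0),
 (nat_lit 0), (47, 40, 14), [13538, 1351], 0⟩,
  ⟨⟨45, 28, -49, 28, -45, -14, 0, 0, -53⟩, (.cons (nat_lit 14640) (nat_lit 5050) (nat_lit 13484) (nat_lit 1)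
 (.cons (nat_lit 1368) (nat_lit 1095) (nat_lit 609) (nat_lit 1) .nil)), (nat_lit 22), (nat_lit 0), (nat_lit 0),
 (nat_lit 0), (24, 22, 0), [13847, 105], 0⟩,
  mz,
  ⟨⟨-13, 48, -27, 30, -17, -60, 30, 36, -7⟩, (.cons (nat_lit 4869) (nat_lit 3624) (nat_lit 1) (nat_lit 1276)
 (.cons (nat_lit 1173) (nat_lit 148) (nat_lit 999) (nat_lit 1) .nil)), (nat_lit 29), (nat_lit 0), (nat_lit 0),
 (nat_lit 0), (11, 48, 48), [11738, 805], 0⟩,
  mz,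
  ⟨⟨-25, -48, -11, 28, 5, -64, -40, 8, -7⟩, (.cons (nat_lit 14007) (nat_lit 4222) (nat_lit 3715) (nat_lit 1)
 (.cons (nat_lit 1151) (nat_lit 807) (nat_lit 645) (nat_lit 1) .nil)), (nat_lit 36), (nat_lit 0), (nat_lit 0),
 (nat_lit 0), (2, 2, 35), [8312, 1178], 0⟩,
  mz,
  ⟨⟨-1, -48, 37, -52, -5, 16, 8, -40, -31⟩, (.cons (nat_lit 3942) (nat_lit 8777) (nat_lit 7620) (nat_lit 1)
 (.cons (nat_lit 703) (nat_lit 1239) (nat_lit 39) (nat_lit 1) .nil)), (nat_lit 39), (nat_lit 0), (nat_lit 0),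
 (nat_lit 0), (29, 24, 33), [13319, 682], 0⟩,
  ⟨⟨43, -12, -63, -30, 17, -30, 30, 36, -23⟩, (.cons (nat_lit 9361) (nat_lit 1181) (nat_lit 12488) (nat_lit 1)
 (.cons (nat_lit 454) (nat_lit 1258) (nat_lit 962) (nat_lit 1) .nil)), (nat_lit 24), (nat_lit 0), (nat_lit 0),
 (nat_lit 0), (16, 48, 5), [5304, 789], 0⟩,
  mz,
  ⟨⟨-45, 28, -4, -28, -45, 14, 0, 0, -53⟩, (.cons (nat_lit 13542) (nat_lit 2308) (nat_lit 8455) (nat_lit 1)
 (.cons (nat_lit 1037) (nat_lit 536) (nat_lit 568) (nat_lit 1) .nil)), (nat_lit 22), (nat_lit 0), (nat_lit 0),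
 (nat_lit 0), (14, 4, 0), [8863, 509], 0⟩,
  mz,
  ⟨⟨-39, 28, -17, 10, -33, -50, 18, 36, -37⟩, (.cons (nat_lit 1347) (nat_lit 9832) (nat_lit 3227) (nat_lit 1)
 (.cons (nat_lit 1045) (nat_lit 672) (nat_lit 1303) (nat_lit 1) .nil)), (nat_lit 50), (nat_lit 0), (nat_lit 0),
 (nat_lit 0), (43, 8, 25), [1192, 661], 0⟩,
  mz,
  mz,
  ⟨⟨1, -48, 36, -52, 5, 36, -8, -40, -23⟩, (.cons (nat_lit 9543) (nat_lit 9771) (nat_lit 305) (nat_lit 1)
 (.cons (nat_lit 15) (nat_lit 656) (nat_lit 1339) (nat_lit 1) .nil)), (nat_lit 6), (nat_lit 0), (nat_lit 0),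
 (nat_lit 0), (41, 41, 43), [6878, 657], 0⟩,
  ⟨⟨-1, 48, 37, 52, -5, -16, 8, 40, -31⟩, (.cons (nat_lit 8325) (nat_lit 97) (nat_lit 3589) (nat_lit 1) (.cons
 (nat_lit 275) (nat_lit 647) (nat_lit 990) (nat_lit 1) .nil)), (nat_lit 6), (nat_lit 0), (nat_lit 0), (nat_lit
 0), (26, 26, 4), [13247, 1257], 0⟩,
  ⟨⟨-57, 8, 37, 10, 33, 40, -18, 36, -19⟩, (.cons (nat_lit 13259) (nat_lit 12864) (nat_lit 6461) (nat_lit 1)
 (.cons (nat_lit 1025) (nat_lit 426) (nat_lit 1027) (nat_lit 1) .nil)), (nat_lit 33), (nat_lit 0), (nat_lit 0),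
 (nat_lit 0), (40, 6, 21), [8799, 81], 0⟩,
  ⟨⟨15, -56, -11, -28, -5, -36, 40, -8, -47⟩, (.cons (nat_lit 11718) (nat_lit 4139) (nat_lit 4299) (nat_lit 1)
 (.cons (nat_lit 351) (nat_lit 453) (nat_lit 1) (nat_lit 333) .nil)), (nat_lit 28), (nat_lit 0), (nat_lit 0),
 (nat_lit 0), (31, 34, 12), [3491, 707], 0⟩,
  ⟨⟨-9, -8, -59, 52, 5, -36, -8, 40, -23⟩, (.cons (nat_lit 6029) (nat_lit 8055) (nat_lit 11319) (nat_lit 1)
 (.cons (nat_lit 976) (nat_lit 441) (nat_lit 183) (nat_lit 1) .nil)), (nat_lit 10), (nat_lit 0), (nat_lit 0),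
 (nat_lit 0), (29, 15, 14), [6041, 797], 0⟩,
  ⟨⟨31, 48, -4, -10, 17, -50, 46, -4, -35⟩, (.cons (nat_lit 5793) (nat_lit 6009) (nat_lit 1) (nat_lit 6028)
 (.cons (nat_lit 930) (nat_lit 964) (nat_lit 961) (nat_lit 1) .nil)), (nat_lit 11), (nat_lit 0), (nat_lit 0),
 (nat_lit 0), (15, 2, 12), [9014, 221], 0⟩,
  ⟨⟨-57, 4, 40, -8, -45, -26, -24, 24, -25⟩, (.cons (nat_lit 10804) (nat_lit 12679) (nat_lit 4078) (nat_lit 1)
 (.cons (nat_lit 696) (nat_lit 1033) (nat_lit 1365) (nat_lit 1) .nil)), (nat_lit 9), (nat_lit 0), (nat_lit 0),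
 (nat_lit 0), (25, 50, 44), [5403, 119], 0⟩,
  ⟨⟨-1, 12, -63, 50, -17, -30, 14, 44, -19⟩, (.cons (nat_lit 4205) (nat_lit 6371) (nat_lit 13655) (nat_lit 1)
 (.cons (nat_lit 1151) (nat_lit 760) (nat_lit 393) (nat_lit 1) .nil)), (nat_lit 16), (nat_lit 0), (nat_lit 0),
 (nat_lit 0), (30, 37, 4), [12013, 895], 0⟩,
  ⟨⟨-15, 32, 59, 50, 17, -20, -14, 44, -5⟩, (.cons (nat_lit 7356) (nat_lit 3343) (nat_lit 12417) (nat_lit 1)
 (.cons (nat_lit 1264) (nat_lit 1306) (nat_lit 600) (nat_lit 1) .nil)), (nat_lit 17), (nat_lit 0), (nat_lit 0),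
 (nat_lit 0), (6, 33, 48), [7424, 464], 0⟩,
  mz,
  ⟨⟨-13, -48, -27, 30, 17, -60, 30, -36, -7⟩, (.cons (nat_lit 5167) (nat_lit 7988) (nat_lit 7228) (nat_lit 1)
 (.cons (nat_lit 122) (nat_lit 469) (nat_lit 1135) (nat_lit 1) .nil)), (nat_lit 29), (nat_lit 0), (nat_lit 0),
 (nat_lit 0), (14, 37, 37), [6808, 647], 0⟩,
  ⟨⟨1, -12, -64, 50, -17, -20, -14, -44, -5⟩, (.cons (nat_lit 11380) (nat_lit 3153) (nat_lit 3246) (nat_lit 1)
 (.cons (nat_lit 365) (nat_lit 152) (nat_lit 746) (nat_lit 1) .nil)), (nat_lit 48), (nat_lit 0), (nat_lit 0),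
 (nat_lit 0), (3, 44, 11), [1454, 313], 0⟩,
  ⟨⟨15, -52, 16, -10, 17, 60, 46, -4, -11⟩, (.cons (nat_lit 1311) (nat_lit 9820) (nat_lit 5025) (nat_lit 1)
 (.cons (nat_lit 1354) (nat_lit 911) (nat_lit 238) (nat_lit 1) .nil)), (nat_lit 47), (nat_lit 0), (nat_lit 0),
 (nat_lit 0), (14, 26, 50), [8033, 763], 0⟩,
  ⟨⟨-39, -28, -17, 10, 33, -50, 18, -36, -37⟩, (.cons (nat_lit 1785) (nat_lit 6947) (nat_lit 13417) (nat_lit 1)
 (.cons (nat_lit 861) (nat_lit 937) (nat_lit 869) (nat_lit 1) .nil)), (nat_lit 50), (nat_lit 0), (nat_lit 0),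
 (nat_lit 0), (5, 49, 14), [7922, 34], 0⟩,
  ⟨⟨-57, -8, 37, -10, 33, -40, -18, -36, -19⟩, (.cons (nat_lit 730) (nat_lit 9117) (nat_lit 419) (nat_lit 1)
 (.cons (nat_lit 1210) (nat_lit 1131) (nat_lit 1271) (nat_lit 1) .nil)), (nat_lit 49), (nat_lit 0), (nat_lit
 0), (nat_lit 0), (14, 35, 10), [3937, 1191], 0⟩,
  mz,
  ⟨⟨-13, -48, 40, 30, 17, 30, 30, -36, -23⟩, (.cons (nat_lit 5163) (nat_lit 10953) (nat_lit 2301) (nat_lit 1)
 (.cons (nat_lit 1084) (nat_lit 70) (nat_lit 884) (nat_lit 1) .nil)), (nat_lit 29), (nat_lit 0), (nat_lit 0),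
 (nat_lit 0), (45, 47, 47), [13396, 931], 0⟩]

/-- Moves. -/
noncomputable def t4_4 : List Mv := [
  mz,
  mz,
  mz,
  mz,
  ⟨⟨-53, 0, 0, 10, -47, -30, -2, 20, -47⟩, (.cons (nat_lit 14630) (nat_lit 2001) (nat_lit 10196) (nat_lit 1)
 (.cons (nat_lit 1264) (nat_lit 324) (nat_lit 1216) (nat_lit 1) .nil)), (nat_lit 5), (nat_lit 0), (nat_lit 0),
 (nat_lit 0), (0, 39, 24), [5916, 1253], 0⟩,
  ⟨⟨-53, 0, 0, -10, -47, 30, -2, -20, -47⟩, (.cons (nat_lit 639) (nat_lit 9769) (nat_lit 1) (nat_lit 7612)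
 (.cons (nat_lit 1030) (nat_lit 316) (nat_lit 155) (nat_lit 1) .nil)), (nat_lit 4), (nat_lit 0), (nat_lit 0),
 (nat_lit 0), (0, 7, 12), [8446, 486], 0⟩,
  ⟨⟨25, -48, -36, 28, -5, 36, 40, 8, -47⟩, (.cons (nat_lit 14462) (nat_lit 4912) (nat_lit 1) (nat_lit 9933)
 (.cons (nat_lit 664) (nat_lit 1055) (nat_lit 632) (nat_lit 1) .nil)), (nat_lit 40), (nat_lit 0), (nat_lit 0),
 (nat_lit 0), (37, 16, 38), [1693, 685], 0⟩,
  mz,
  mz,
  ⟨⟨-33, -20, -32, 8, 45, -34, 24, -24, -49⟩, (.cons (nat_lit 5878) (nat_lit 12051) (nat_lit 3471) (nat_lit 1)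
 (.cons (nat_lit 629) (nat_lit 175) (nat_lit 433) (nat_lit 1) .nil)), (nat_lit 18), (nat_lit 0), (nat_lit 0),
 (nat_lit 0), (35, 14, 42), [6180, 1052], 0⟩,
  ⟨⟨-25, 48, -11, -28, 5, 64, -40, -8, -7⟩, (.cons (nat_lit 2443) (nat_lit 13780) (nat_lit 4532) (nat_lit 1)
 (.cons (nat_lit 526) (nat_lit 764) (nat_lit 941) (nat_lit 1) .nil)), (nat_lit 40), (nat_lit 0), (nat_lit 0),
 (nat_lit 0), (52, 1, 9), [12300, 466], 0⟩,
  ⟨⟨15, -32, 44, 50, 17, -30, 14, -44, -19⟩, (.cons (nat_lit 5632) (nat_lit 7346) (nat_lit 4711) (nat_lit 1)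
 (.cons (nat_lit 237) (nat_lit 155) (nat_lit 866) (nat_lit 1) .nil)), (nat_lit 41), (nat_lit 0), (nat_lit 0),
 (nat_lit 0), (29, 26, 20), [14367, 626], 0⟩,
  ⟨⟨-51, 20, 4, 10, 47, 20, 2, 20, -49⟩, (.cons (nat_lit 14640) (nat_lit 8131) (nat_lit 8130) (nat_lit 1)
 (.cons (nat_lit 1368) (nat_lit 539) (nat_lit 77) (nat_lit 1) .nil)), (nat_lit 12), (nat_lit 0), (nat_lit 0),
 (nat_lit 0), (48, 28, 48), [10016, 271], 0⟩,
  mz,
  mz,
  ⟨⟨-51, -20, 4, -10, 47, -20, 2, -20, -49⟩, (.cons (nat_lit 14640) (nat_lit 7661) (nat_lit 363) (nat_lit 1)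
 (.cons (nat_lit 1368) (nat_lit 1273) (nat_lit 370) (nat_lit 1) .nil)), (nat_lit 15), (nat_lit 0), (nat_lit 0),
 (nat_lit 0), (36, 32, 36), [915, 132], 0⟩,
  ⟨⟨15, 52, 16, 10, 17, -60, 46, 4, -11⟩, (.cons (nat_lit 3356) (nat_lit 5363) (nat_lit 8214) (nat_lit 1)
 (.cons (nat_lit 1028) (nat_lit 652) (nat_lit 889) (nat_lit 1) .nil)), (nat_lit 44), (nat_lit 0), (nat_lit 0),
 (nat_lit 0), (24, 16, 10), [9905, 200], 0⟩,
  ⟨⟨15, 52, -31, 10, 17, 50, 46, 4, -35⟩, (.cons (nat_lit 6805) (nat_lit 2999) (nat_lit 10167) (nat_lit 1)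
 (.cons (nat_lit 1030) (nat_lit 547) (nat_lit 788) (nat_lit 1) .nil)), (nat_lit 44), (nat_lit 0), (nat_lit 0),
 (nat_lit 0), (7, 40, 25), [10148, 794], 0⟩,
  ⟨⟨-57, -4, 40, -8, 45, -26, -24, -24, -25⟩, (.cons (nat_lit 949) (nat_lit 12863) (nat_lit 246) (nat_lit 1)
 (.cons (nat_lit 841) (nat_lit 677) (nat_lit 1) (nat_lit 555) .nil)), (nat_lit 9), (nat_lit 0), (nat_lit 0),
 (nat_lit 0), (12, 24, 19), [11235, 1267], 0⟩,
  mz,
  mz,
  ⟨⟨-33, 20, -32, 8, -45, -34, 24, 24, -49⟩, (.cons (nat_lit 8750) (nat_lit 12291) (nat_lit 1356) (nat_lit 1)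
 (.cons (nat_lit 682) (nat_lit 1010) (nat_lit 841) (nat_lit 1) .nil)), (nat_lit 18), (nat_lit 0), (nat_lit 0),
 (nat_lit 0), (47, 40, 14), [13538, 1351], 0⟩,
  ⟨⟨-45, -28, -4, 28, -45, -14, 0, 0, -53⟩, (.cons (nat_lit 11870) (nat_lit 11992) (nat_lit 3205) (nat_lit 1)
 (.cons (nat_lit 334) (nat_lit 315) (nat_lit 579) (nat_lit 1) .nil)), (nat_lit 31), (nat_lit 0), (nat_lit 0),
 (nat_lit 0), (29, 22, 0), [4562, 1360], 0⟩,
  mz,
  ⟨⟨-13, 48, -27, 30, -17, -60, 30, 36, -7⟩, (.cons (nat_lit 4869) (nat_lit 3624) (nat_lit 1) (nat_lit 1276)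
 (.cons (nat_lit 1173) (nat_lit 148) (nat_lit 999) (nat_lit 1) .nil)), (nat_lit 29), (nat_lit 0), (nat_lit 0),
 (nat_lit 0), (11, 48, 48), [11738, 805], 0⟩,
  mz,
  ⟨⟨-25, -48, -11, 28, 5, -64, -40, 8, -7⟩, (.cons (nat_lit 14007) (nat_lit 4222) (nat_lit 3715) (nat_lit 1)
 (.cons (nat_lit 1151) (nat_lit 807) (nat_lit 645) (nat_lit 1) .nil)), (nat_lit 36), (nat_lit 0), (nat_lit 0),
 (nat_lit 0), (2, 2, 35), [8312, 1178], 0⟩,
  mz,
  ⟨⟨-1, -48, 37, 52, 5, -16, 8, -40, -31⟩, (.cons (nat_lit 9901) (nat_lit 4389) (nat_lit 8355) (nat_lit 1)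
 (.cons (nat_lit 156) (nat_lit 1233) (nat_lit 1290) (nat_lit 1) .nil)), (nat_lit 6), (nat_lit 0), (nat_lit 0),
 (nat_lit 0), (29, 29, 33), [12454, 1243], 0⟩,
  ⟨⟨-13, 48, 40, -30, 17, -30, 30, 36, -23⟩, (.cons (nat_lit 12103) (nat_lit 10096) (nat_lit 12820) (nat_lit 1)
 (.cons (nat_lit 1100) (nat_lit 1033) (nat_lit 959) (nat_lit 1) .nil)), (nat_lit 52), (nat_lit 0), (nat_lit 0),
 (nat_lit 0), (42, 48, 5), [9970, 970], 0⟩,
  mz,
  ⟨⟨45, -28, -49, 28, 45, -14, 0, 0, -53⟩, (.cons (nat_lit 12024) (nat_lit 3044) (nat_lit 291) (nat_lit 1)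
 (.cons (nat_lit 1000) (nat_lit 1278) (nat_lit 1293) (nat_lit 1) .nil)), (nat_lit 22), (nat_lit 0), (nat_lit
 0), (nat_lit 0), (39, 49, 0), [857, 47], 0⟩,
  mz,
  ⟨⟨-39, 28, -17, -10, 33, 50, 18, 36, -37⟩, (.cons (nat_lit 1070) (nat_lit 12701) (nat_lit 11923) (nat_lit 1)
 (.cons (nat_lit 195) (nat_lit 439) (nat_lit 978) (nat_lit 1) .nil)), (nat_lit 38), (nat_lit 0), (nat_lit 0),
 (nat_lit 0), (43, 45, 25), [794, 1144], 0⟩,
  mz,
  mz,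
  ⟨⟨-9, 8, -59, 52, -5, -36, -8, -40, -23⟩, (.cons (nat_lit 13546) (nat_lit 5216) (nat_lit 8857) (nat_lit 1)
 (.cons (nat_lit 414) (nat_lit 519) (nat_lit 1312) (nat_lit 1) .nil)), (nat_lit 10), (nat_lit 0), (nat_lit 0),
 (nat_lit 0), (2, 12, 43), [2869, 432], 0⟩,
  ⟨⟨9, -8, -68, -52, 5, 16, 8, 40, -31⟩, (.cons (nat_lit 8351) (nat_lit 492) (nat_lit 1288) (nat_lit 1) (.cons
 (nat_lit 1300) (nat_lit 242) (nat_lit 597) (nat_lit 1) .nil)), (nat_lit 10), (nat_lit 0), (nat_lit 0),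
 (nat_lit 0), (31, 27, 4), [3939, 145], 0⟩,
  ⟨⟨39, 28, -56, 10, 33, 40, -18, 36, -19⟩, (.cons (nat_lit 14640) (nat_lit 10626) (nat_lit 10598) (nat_lit 1)
 (.cons (nat_lit 1368) (nat_lit 1021) (nat_lit 520) (nat_lit 1) .nil)), (nat_lit 38), (nat_lit 0), (nat_lit 0),
 (nat_lit 0), (34, 6, 21), [10437, 387], 0⟩,
  ⟨⟨15, -56, -11, -28, -5, -36, 40, -8, -47⟩, (.cons (nat_lit 11718) (nat_lit 4139) (nat_lit 4299) (nat_lit 1)
 (.cons (nat_lit 351) (nat_lit 453) (nat_lit 1) (nat_lit 333) .nil)), (nat_lit 28), (nat_lit 0), (nat_lit 0),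
 (nat_lit 0), (31, 34, 12), [3491, 707], 0⟩,
  ⟨⟨1, 48, 36, -52, -5, 36, -8, 40, -23⟩, (.cons (nat_lit 3707) (nat_lit 2972) (nat_lit 12269) (nat_lit 1)
 (.cons (nat_lit 1202) (nat_lit 953) (nat_lit 131) (nat_lit 1) .nil)), (nat_lit 6), (nat_lit 0), (nat_lit 0),
 (nat_lit 0), (38, 38, 14), [4230, 939], 0⟩,
  ⟨⟨31, 48, -4, -10, 17, -50, 46, -4, -35⟩, (.cons (nat_lit 5793) (nat_lit 6009) (nat_lit 1) (nat_lit 6028)
 (.cons (nat_lit 930) (nat_lit 964) (nat_lit 961) (nat_lit 1) .nil)), (nat_lit 11), (nat_lit 0), (nat_lit 0),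
 (nat_lit 0), (15, 2, 12), [9014, 221], 0⟩,
  ⟨⟨-57, 4, 40, -8, -45, -26, -24, 24, -25⟩, (.cons (nat_lit 10804) (nat_lit 12679) (nat_lit 4078) (nat_lit 1)
 (.cons (nat_lit 696) (nat_lit 1033) (nat_lit 1365) (nat_lit 1) .nil)), (nat_lit 9), (nat_lit 0), (nat_lit 0),
 (nat_lit 0), (25, 50, 44), [5403, 119], 0⟩,
  ⟨⟨15, 32, 44, -50, 17, 30, 14, 44, -19⟩, (.cons (nat_lit 2916) (nat_lit 1686) (nat_lit 678) (nat_lit 1)
 (.cons (nat_lit 1043) (nat_lit 1276) (nat_lit 903) (nat_lit 1) .nil)), (nat_lit 17), (nat_lit 0), (nat_lit 0),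
 (nat_lit 0), (27, 16, 4), [6769, 582], 0⟩,
  ⟨⟨-15, 32, 59, 50, 17, -20, -14, 44, -5⟩, (.cons (nat_lit 7356) (nat_lit 3343) (nat_lit 12417) (nat_lit 1)
 (.cons (nat_lit 1264) (nat_lit 1306) (nat_lit 600) (nat_lit 1) .nil)), (nat_lit 17), (nat_lit 0), (nat_lit 0),
 (nat_lit 0), (6, 33, 48), [7424, 464], 0⟩,
  mz,
  ⟨⟨43, 12, 20, 30, 17, -60, 30, -36, -7⟩, (.cons (nat_lit 14640) (nat_lit 11309) (nat_lit 12191) (nat_lit 1)
 (.cons (nat_lit 1368) (nat_lit 269) (nat_lit 908) (nat_lit 1) .nil)), (nat_lit 46), (nat_lit 0), (nat_lit 0),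
 (nat_lit 0), (23, 37, 37), [4062, 145], 0⟩,
  ⟨⟨1, -12, -64, 50, -17, -20, -14, -44, -5⟩, (.cons (nat_lit 11380) (nat_lit 3153) (nat_lit 3246) (nat_lit 1)
 (.cons (nat_lit 365) (nat_lit 152) (nat_lit 746) (nat_lit 1) .nil)), (nat_lit 48), (nat_lit 0), (nat_lit 0),
 (nat_lit 0), (3, 44, 11), [1454, 313], 0⟩,
  ⟨⟨15, -52, 16, -10, 17, 60, 46, -4, -11⟩, (.cons (nat_lit 1311) (nat_lit 9820) (nat_lit 5025) (nat_lit 1)
 (.cons (nat_lit 1354) (nat_lit 911) (nat_lit 238) (nat_lit 1) .nil)), (nat_lit 47), (nat_lit 0), (nat_lit 0),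
 (nat_lit 0), (14, 26, 50), [8033, 763], 0⟩,
  ⟨⟨-39, -28, -17, 10, 33, -50, 18, -36, -37⟩, (.cons (nat_lit 1785) (nat_lit 6947) (nat_lit 13417) (nat_lit 1)
 (.cons (nat_lit 861) (nat_lit 937) (nat_lit 869) (nat_lit 1) .nil)), (nat_lit 50), (nat_lit 0), (nat_lit 0),
 (nat_lit 0), (5, 49, 14), [7922, 34], 0⟩,
  ⟨⟨39, -28, -56, -10, 33, -40, -18, -36, -19⟩, (.cons (nat_lit 14640) (nat_lit 13468) (nat_lit 9092) (nat_lit
 1) (.cons (nat_lit 1368) (nat_lit 644) (nat_lit 1116) (nat_lit 1) .nil)), (nat_lit 50), (nat_lit 0), (nat_lit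
 0), (nat_lit 0), (49, 35, 10), [4592, 309], 0⟩,
  mz,
  ⟨⟨43, 12, -63, -30, -17, -30, 30, -36, -23⟩, (.cons (nat_lit 2405) (nat_lit 6675) (nat_lit 2261) (nat_lit 1)
 (.cons (nat_lit 545) (nat_lit 576) (nat_lit 1061) (nat_lit 1) .nil)), (nat_lit 24), (nat_lit 0), (nat_lit 0),
 (nat_lit 0), (2, 6, 47), [7826, 901], 0⟩]

/-- All the moves. -/
noncomputable def tabs : List (List (List Mv)) := [[[], t0_1, [], [], t0_4], [[], t1_1, [], [], t1_4], [], [], [[], t4_1, [], [], t4_4]]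

/-- Subtrie. -/
noncomputable def T1 : Tr := (.ev (nat_lit 20) (nat_lit 73263625537552) (.nd (nat_lit 33) (.br (nat_lit 19)
 (.br (nat_lit 11) (.br (nat_lit 7) (.br (nat_lit 4) (.ch (nat_lit 1) (.ev (nat_lit 52) (nat_lit
 1147890407867456) (.ev (nat_lit 64) (nat_lit 5499003949486624) .dd))) (.br (nat_lit 5) (.ch (nat_lit 4) (.ev
 (nat_lit 52) (nat_lit 282921038775808) (.ev (nat_lit 116) (nat_lit 4503599627370496) (.ev (nat_lit 288)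
 (nat_lit 8796109799488) (.nd (nat_lit 560) (.br (nat_lit 5) (.ch (nat_lit 2) (.ev (nat_lit 576) (nat_lit
 1147890139631648) (.nd (nat_lit 992) (.br (nat_lit 6) (.br (nat_lit 2) (.ch (nat_lit 1) (.ev (nat_lit 1008)
 (nat_lit 703687441776640) .dd)) (.ch (nat_lit 2) (.ev (nat_lit 1008) (nat_lit 140737488355328) (.ev (nat_lit
 1021) (nat_lit 562949953421312) .dd)))) (.br (nat_lit 7) (.ch (nat_lit 6) (.ev (nat_lit 1008) (nat_lit
 562949953421312) (.ev (nat_lit 1021) (nat_lit 140737488355328) .dd))) (.br (nat_lit 10) (.ch (nat_lit 7) (.ev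
 (nat_lit 1008) (nat_lit 703687441776640) .dd)) (.ch (nat_lit 10) (.ev (nat_lit 1008) (nat_lit 703687441776640)
 .dd)))))))) (.br (nat_lit 9) (.ch (nat_lit 5) (.ev (nat_lit 576) (nat_lit 158329674498048) (.nd (nat_lit 992)
 (.br (nat_lit 9) (.ch (nat_lit 5) (.ev (nat_lit 1008) (nat_lit 1130297953484832) (.ev (nat_lit 1204) (nat_lit
 4096) (.ev (nat_lit 1213) (nat_lit 562949953421312) .dd)))) (.ch (nat_lit 9) (.ev (nat_lit 1008) (nat_lit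
 562949953425408) (.ev (nat_lit 1204) (nat_lit 4398046511104) (.ev (nat_lit 1216) (nat_lit 32) (.fin (nat_lit
 576471197641294410)))))))))) (.ch (nat_lit 9) (.ev (nat_lit 576) (nat_lit 1693247906779168) (.ev (nat_lit 720)
 (nat_lit 131072) (.ev (nat_lit 736) (nat_lit 65536) (.nd (nat_lit 992) (.br (nat_lit 5) (.ch (nat_lit 3) (.ev
 (nat_lit 1008) (nat_lit 140737488355328) (.ev (nat_lit 1204) (nat_lit 32768) (.ev (nat_lit 1213) (nat_lit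
 17592186044416) .dd)))) (.ch (nat_lit 5) (.ev (nat_lit 1008) (nat_lit 32768) (.fin (nat_lit
 576460202549133877))))))))))))))))) (.ch (nat_lit 5) (.ev (nat_lit 52) (nat_lit 5635065811894272) (.ev
 (nat_lit 84) (nat_lit 281475798798400) (.ev (nat_lit 116) (nat_lit 131072) (.ev (nat_lit 148) (nat_lit 512)
 (.nd (nat_lit 560) (.br (nat_lit 9) (.br (nat_lit 7) (.ch (nat_lit 1) (.ev (nat_lit 576) (nat_lit
 158329674662944) (.nd (nat_lit 992) (.br (nat_lit 7) (.br (nat_lit 3) (.ch (nat_lit 2) (.ev (nat_lit 1008)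
 (nat_lit 563224831328256) (.ev (nat_lit 1040) (nat_lit 8796093022208) (.ev (nat_lit 1204) (nat_lit 32768) (.ev
 (nat_lit 1213) (nat_lit 2147483648) .dd))))) (.ch (nat_lit 3) (.ev (nat_lit 1008) (nat_lit 2147516416) (.ev
 (nat_lit 1040) (nat_lit 274877906944) (.fin (nat_lit 576460202575348280)))))) (.br (nat_lit 9) (.ch (nat_lit
 7) (.ev (nat_lit 1008) (nat_lit 572020924350464) (.ev (nat_lit 1204) (nat_lit 32768) (.ev (nat_lit 1213)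
 (nat_lit 2147483648) .dd)))) (.ch (nat_lit 9) (.ev (nat_lit 1008) (nat_lit 9073118445568) (.ev (nat_lit 1021)
 (nat_lit 562949953421312) .dd)))))))) (.ch (nat_lit 7) (.ev (nat_lit 576) (nat_lit 158606699790336) (.ev
 (nat_lit 662) (nat_lit 8796093022208) (.nd (nat_lit 992) (.br (nat_lit 4) (.br (nat_lit 1) (.ch (nat_lit 0)
 (.ev (nat_lit 1008) (nat_lit 562949953717248) (.ev (nat_lit 1021) (nat_lit 32) .dd))) (.br (nat_lit 2) (.ch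
 (nat_lit 1) (.ev (nat_lit 1008) (nat_lit 562949953421344) (.ev (nat_lit 1152) (nat_lit 263168) (.ev (nat_lit
 1165) (nat_lit 32768) .dd)))) (.ch (nat_lit 2) (.ev (nat_lit 1008) (nat_lit 562949953454112) (.ev (nat_lit
 1024) (nat_lit 1024) (.ev (nat_lit 1037) (nat_lit 262144) .dd)))))) (.br (nat_lit 5) (.ch (nat_lit 4) (.ev
 (nat_lit 1008) (nat_lit 262176) (.ev (nat_lit 1204) (nat_lit 562949953421312) (.fin (nat_lit
 576455804495282745))))) (.br (nat_lit 10) (.ch (nat_lit 5) (.ev (nat_lit 1008) (nat_lit 562949953422368) (.ev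
 (nat_lit 1056) (nat_lit 32768) (.ev (nat_lit 1069) (nat_lit 262144) .dd)))) (.ch (nat_lit 10) (.ev (nat_lit
 1008) (nat_lit 295968) (.ev (nat_lit 1021) (nat_lit 562949953421312) .dd))))))))))) (.br (nat_lit 10) (.ch
 (nat_lit 9) (.ev (nat_lit 576) (nat_lit 9070971224096) (.nd (nat_lit 992) (.br (nat_lit 4) (.br (nat_lit 3)
 (.ch (nat_lit 2) (.ev (nat_lit 1008) (nat_lit 721279627821056) (.ev (nat_lit 1204) (nat_lit 1024) (.ev
 (nat_lit 1213) (nat_lit 2147483648) .dd)))) (.ch (nat_lit 3) (.ev (nat_lit 1008) (nat_lit 721281775304704)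
 (.ev (nat_lit 1021) (nat_lit 1024) .dd)))) (.br (nat_lit 5) (.ch (nat_lit 4) (.ev (nat_lit 1008) (nat_lit
 721281775305728) .dd)) (.br (nat_lit 10) (.ch (nat_lit 5) (.ev (nat_lit 1008) (nat_lit 562952100905984) (.fin
 (nat_lit 576462401572389451)))) (.ch (nat_lit 10) (.ev (nat_lit 1008) (nat_lit 140739635838976) (.ev (nat_lit
 1024) (nat_lit 562949953421312) (.ev (nat_lit 1204) (nat_lit 1024) (.ev (nat_lit 1213) (nat_lit
 17592186044416) .dd))))))))))) (.ch (nat_lit 10) (.ev (nat_lit 576) (nat_lit 730350599045152) (.nd (nat_lit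
 992) (.br (nat_lit 6) (.br (nat_lit 2) (.ch (nat_lit 0) (.ev (nat_lit 1008) (nat_lit 2147483648) (.ev (nat_lit
 1021) (nat_lit 1024) .dd))) (.br (nat_lit 5) (.ch (nat_lit 2) (.ev (nat_lit 1008) (nat_lit 2147484672) .dd))
 (.ch (nat_lit 5) (.ev (nat_lit 1008) (nat_lit 2147484672) .dd)))) (.br (nat_lit 7) (.ch (nat_lit 6) (.ev
 (nat_lit 1008) (nat_lit 2147483648) (.ev (nat_lit 1021) (nat_lit 1024) .dd))) (.br (nat_lit 10) (.ch (nat_lit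
 7) (.ev (nat_lit 1008) (nat_lit 2147483648) (.ev (nat_lit 1021) (nat_lit 1024) .dd))) (.ch (nat_lit 10) (.ev
 (nat_lit 1008) (nat_lit 1024) (.ev (nat_lit 1021) (nat_lit 2147483648) .dd))))))))))))))))))) (.br (nat_lit 8)
 (.ch (nat_lit 7) (.ev (nat_lit 52) (nat_lit 26388295975936) (.ev (nat_lit 84) (nat_lit 1829656068096000) (.ev
 (nat_lit 260) (nat_lit 32768) (.ev (nat_lit 416) (nat_lit 4398046576640) (.nd (nat_lit 560) (.br (nat_lit 5)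
 (.br (nat_lit 2) (.ch (nat_lit 0) (.ev (nat_lit 576) (nat_lit 281475782021728) (.nd (nat_lit 992) (.br
 (nat_lit 2) (.ch (nat_lit 1) (.ev (nat_lit 1008) (nat_lit 1101659373568) (.ev (nat_lit 1204) (nat_lit
 274877906944) (.ev (nat_lit 1213) (nat_lit 4503599627370496) .dd)))) (.br (nat_lit 4) (.ch (nat_lit 2) (.ev
 (nat_lit 1008) (nat_lit 4503601774854144) (.ev (nat_lit 1204) (nat_lit 274877906944) (.nd (nat_lit 1392) (.br
 (nat_lit 6) (.ch (nat_lit 2) (.fin (nat_lit 576479993746899542))) (.ch (nat_lit 6) (.ev (nat_lit 1408)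
 (nat_lit 1099511889920) .dd))))))) (.ch (nat_lit 4) (.ev (nat_lit 1008) (nat_lit 4504974017167360) (.ev
 (nat_lit 1021) (nat_lit 2147483648) .dd)))))))) (.ch (nat_lit 2) (.ev (nat_lit 576) (nat_lit 281752002105440)
 (.nd (nat_lit 992) (.br (nat_lit 6) (.br (nat_lit 2) (.ch (nat_lit 1) (.ev (nat_lit 1008) (nat_lit
 1100048499200) (.ev (nat_lit 1204) (nat_lit 4503599627370496) (.ev (nat_lit 1216) (nat_lit 268697600) .dd))))
 (.ch (nat_lit 2) (.ev (nat_lit 1008) (nat_lit 4503599896068608) (.ev (nat_lit 1204) (nat_lit 536870912) (.ev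
 (nat_lit 1213) (nat_lit 1099511627776) .dd))))) (.br (nat_lit 7) (.ch (nat_lit 6) (.ev (nat_lit 1008) (nat_lit
 4504699944304640) (.ev (nat_lit 1056) (nat_lit 262656) .dd))) (.br (nat_lit 10) (.ch (nat_lit 7) (.ev (nat_lit
 1008) (nat_lit 1100048761344) (.ev (nat_lit 1184) (nat_lit 4503599895805952) .dd))) (.ch (nat_lit 10) (.ev
 (nat_lit 1008) (nat_lit 1100048761344) (.ev (nat_lit 1204) (nat_lit 4503599627370496) (.ev (nat_lit 1213)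
 (nat_lit 268435456) .dd))))))))))) (.br (nat_lit 7) (.ch (nat_lit 5) (.ev (nat_lit 576) (nat_lit
 4785077020262912) (.nd (nat_lit 992) (.br (nat_lit 5) (.br (nat_lit 3) (.ch (nat_lit 2) (.ev (nat_lit 1008)
 (nat_lit 274877911136) (.ev (nat_lit 1204) (nat_lit 536870912) (.ev (nat_lit 1213) (nat_lit 1099511627776)
 .dd)))) (.ch (nat_lit 3) (.ev (nat_lit 1008) (nat_lit 1100048498720) (.ev (nat_lit 1056) (nat_lit 4096) (.ev
 (nat_lit 1204) (nat_lit 274877906944) (.ev (nat_lit 1213) (nat_lit 64) .dd)))))) (.br (nat_lit 8) (.ch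
 (nat_lit 5) (.ev (nat_lit 1008) (nat_lit 1100048498784) (.ev (nat_lit 1040) (nat_lit 274877911040) .dd))) (.br
 (nat_lit 9) (.ch (nat_lit 8) (.ev (nat_lit 1008) (nat_lit 1100048498784) (.ev (nat_lit 1120) (nat_lit
 274877911040) .dd))) (.ch (nat_lit 9) (.ev (nat_lit 1008) (nat_lit 1374926409728) (.ev (nat_lit 1232) (nat_lit
 96) .dd))))))))) (.ch (nat_lit 7) (.ev (nat_lit 576) (nat_lit 1101927813664) (.nd (nat_lit 992) (.br (nat_lit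
 2) (.ch (nat_lit 1) (.ev (nat_lit 1008) (nat_lit 281749854617600) (.ev (nat_lit 1268) (nat_lit
 4503599627370496) (.nd (nat_lit 1392) (.br (nat_lit 4) (.ch (nat_lit 0) (.ev (nat_lit 1408) (nat_lit
 536870976) .dd)) (.ch (nat_lit 4) (.fin (nat_lit 576436013294371382)))))))) (.br (nat_lit 10) (.ch (nat_lit 2)
 (.ev (nat_lit 1008) (nat_lit 281475513581632) (.ev (nat_lit 1204) (nat_lit 4503599627370496) (.ev (nat_lit
 1213) (nat_lit 274877906944) .dd)))) (.ch (nat_lit 10) (.ev (nat_lit 1008) (nat_lit 4503875042148416) (.ev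
 (nat_lit 1021) (nat_lit 281474976710656) .dd)))))))))))))))) (.br (nat_lit 10) (.ch (nat_lit 8) (.ev (nat_lit
 52) (nat_lit 5515425756484704) (.ev (nat_lit 84) (nat_lit 131072) (.ev (nat_lit 196) (nat_lit 4398046511104)
 (.ev (nat_lit 260) (nat_lit 2147483648) (.nd (nat_lit 560) (.br (nat_lit 5) (.br (nat_lit 1) (.ch (nat_lit 0)
 (.ev (nat_lit 576) (nat_lit 1125968895115776) (.ev (nat_lit 589) (nat_lit 1099511627776) .dd))) (.br (nat_lit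
 2) (.ch (nat_lit 1) (.ev (nat_lit 576) (nat_lit 1168231399424) (.nd (nat_lit 992) (.br (nat_lit 5) (.br
 (nat_lit 4) (.ch (nat_lit 2) (.ev (nat_lit 1008) (nat_lit 65536) (.ev (nat_lit 1024) (nat_lit 512) (.ev
 (nat_lit 1204) (nat_lit 268435456) (.ev (nat_lit 1213) (nat_lit 1125899906842624) .dd))))) (.ch (nat_lit 4)
 (.ev (nat_lit 1008) (nat_lit 1125900175343616) (.ev (nat_lit 1021) (nat_lit 512) .dd)))) (.br (nat_lit 7) (.ch
 (nat_lit 5) (.ev (nat_lit 1008) (nat_lit 1125899906908160) (.ev (nat_lit 1072) (nat_lit 512) (.ev (nat_lit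
 1085) (nat_lit 268435456) .dd)))) (.br (nat_lit 9) (.ch (nat_lit 7) (.ev (nat_lit 1008) (nat_lit
 1125899906843136) (.ev (nat_lit 1040) (nat_lit 65536) (.ev (nat_lit 1053) (nat_lit 268435456) .dd)))) (.ch
 (nat_lit 9) (.ev (nat_lit 1008) (nat_lit 268435968) (.fin (nat_lit 576482192765960775)))))))))) (.ch (nat_lit
 2) (.ev (nat_lit 576) (nat_lit 1126999686938624) (.ev (nat_lit 646) (nat_lit 327680) (.nd (nat_lit 992) (.br
 (nat_lit 9) (.br (nat_lit 7) (.ch (nat_lit 6) (.ev (nat_lit 1204) (nat_lit 68719476736) (.ev (nat_lit 1213)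
 (nat_lit 512) .dd))) (.ch (nat_lit 7) (.fin (nat_lit 576447008387580470)))) (.br (nat_lit 10) (.ch (nat_lit 9)
 (.ev (nat_lit 1008) (nat_lit 68719477248) .dd)) (.ch (nat_lit 10) (.ev (nat_lit 1008) (nat_lit 512) (.ev
 (nat_lit 1021) (nat_lit 68719476736) .dd))))))))))) (.br (nat_lit 9) (.ch (nat_lit 5) (.ev (nat_lit 576)
 (nat_lit 68988011008) (.nd (nat_lit 992) (.br (nat_lit 3) (.ch (nat_lit 1) (.ev (nat_lit 1008) (nat_lit
 1099511889920) (.ev (nat_lit 1021) (nat_lit 1125899906842624) .dd))) (.br (nat_lit 5) (.ch (nat_lit 3) (.ev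
 (nat_lit 1008) (nat_lit 1125899906842624) (.ev (nat_lit 1204) (nat_lit 262144) (.ev (nat_lit 1213) (nat_lit
 1099511627776) .dd)))) (.ch (nat_lit 5) (.ev (nat_lit 1008) (nat_lit 1099511889920) (.ev (nat_lit 1021)
 (nat_lit 1125899906842624) .dd)))))))) (.br (nat_lit 10) (.ch (nat_lit 9) (.ev (nat_lit 576) (nat_lit
 1125968895082496) (.nd (nat_lit 992) (.br (nat_lit 5) (.br (nat_lit 4) (.ch (nat_lit 2) (.ev (nat_lit 1008)
 (nat_lit 1099511628288) (.ev (nat_lit 1021) (nat_lit 32768) .dd))) (.ch (nat_lit 4) (.ev (nat_lit 1008)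
 (nat_lit 1099511661056) .dd))) (.br (nat_lit 7) (.ch (nat_lit 5) (.ev (nat_lit 1008) (nat_lit 1099511660544)
 (.ev (nat_lit 1021) (nat_lit 512) .dd))) (.ch (nat_lit 7) (.ev (nat_lit 1008) (nat_lit 33280) (.ev (nat_lit
 1021) (nat_lit 1099511627776) .dd)))))))) (.ch (nat_lit 10) (.ev (nat_lit 576) (nat_lit 1168499868160) (.nd
 (nat_lit 992) (.br (nat_lit 9) (.br (nat_lit 7) (.ch (nat_lit 6) (.ev (nat_lit 1008) (nat_lit
 1125899906875392) .dd)) (.ch (nat_lit 7) (.ev (nat_lit 1008) (nat_lit 1125899906842624) (.ev (nat_lit 1021)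
 (nat_lit 32768) .dd)))) (.br (nat_lit 10) (.ch (nat_lit 9) (.ev (nat_lit 1008) (nat_lit 32768) (.ev (nat_lit
 1021) (nat_lit 1125899906842624) .dd))) (.ch (nat_lit 10) (.ev (nat_lit 1008) (nat_lit 1125899906842624) (.ev
 (nat_lit 1021) (nat_lit 32768) .dd))))))))))))))))) (.ch (nat_lit 10) (.ev (nat_lit 52) (nat_lit
 703689589391936) (.ev (nat_lit 84) (nat_lit 1416170993385472) (.ev (nat_lit 116) (nat_lit 1099780329472) (.ev
 (nat_lit 196) (nat_lit 65536) (.ev (nat_lit 496) (nat_lit 4503599627370496) (.nd (nat_lit 560) (.br (nat_lit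
 5) (.ch (nat_lit 1) (.ev (nat_lit 576) (nat_lit 4467302859808) (.ev (nat_lit 774) (nat_lit 274877906944) (.ev
 (nat_lit 781) (nat_lit 17592186044416) .dd)))) (.br (nat_lit 9) (.ch (nat_lit 5) (.ev (nat_lit 576) (nat_lit
 17592186044416) (.nd (nat_lit 992) (.br (nat_lit 3) (.br (nat_lit 2) (.ch (nat_lit 1) (.ev (nat_lit 1008)
 (nat_lit 4466765988896) (.ev (nat_lit 1024) (nat_lit 275414777856) .dd))) (.ch (nat_lit 2) (.ev (nat_lit 1008)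
 (nat_lit 275414778880) (.ev (nat_lit 1232) (nat_lit 32) (.fin (nat_lit 576442610351555114)))))) (.br (nat_lit
 8) (.ch (nat_lit 3) (.ev (nat_lit 1008) (nat_lit 4741643895840) (.ev (nat_lit 1021) (nat_lit 536870912) .dd)))
 (.br (nat_lit 9) (.ch (nat_lit 8) (.ev (nat_lit 1008) (nat_lit 4398583383072) (.ev (nat_lit 1204) (nat_lit
 68719476736) (.ev (nat_lit 1213) (nat_lit 274877906944) .dd)))) (.ch (nat_lit 9) (.ev (nat_lit 1008) (nat_lit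
 4672924418048) (.ev (nat_lit 1204) (nat_lit 68719476736) (.ev (nat_lit 1216) (nat_lit 1024) (.fin (nat_lit
 576473396693910063)))))))))))) (.ch (nat_lit 9) (.ev (nat_lit 576) (nat_lit 4742180765728) (.nd (nat_lit 992)
 (.br (nat_lit 4) (.br (nat_lit 3) (.ch (nat_lit 2) (.ev (nat_lit 1008) (nat_lit 17592186045440) .dd)) (.ch
 (nat_lit 3) (.ev (nat_lit 1008) (nat_lit 17592186044416) (.ev (nat_lit 1021) (nat_lit 1024) .dd)))) (.br
 (nat_lit 5) (.ch (nat_lit 4) (.ev (nat_lit 1024) (nat_lit 1024) (.ev (nat_lit 1037) (nat_lit 17592186044416)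
 .dd))) (.br (nat_lit 7) (.ch (nat_lit 5) (.ev (nat_lit 1008) (nat_lit 17592186045440) .dd)) (.ch (nat_lit 7)
 (.ev (nat_lit 1008) (nat_lit 1024) (.ev (nat_lit 1021) (nat_lit 17592186044416) .dd))))))))))))))))))))) (.br
 (nat_lit 15) (.br (nat_lit 12) (.ch (nat_lit 11) (.ev (nat_lit 52) (nat_lit 712760560588288) (.ev (nat_lit 84)
 (nat_lit 285873039998976) (.ev (nat_lit 116) (nat_lit 4503599895838720) (.nd (nat_lit 560) (.br (nat_lit 7)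
 (.br (nat_lit 5) (.ch (nat_lit 1) (.ev (nat_lit 576) (nat_lit 1168231104544) (.nd (nat_lit 992) (.br (nat_lit
 5) (.br (nat_lit 4) (.ch (nat_lit 2) (.ev (nat_lit 1008) (nat_lit 1125899906908224) (.ev (nat_lit 1024)
 (nat_lit 536870912) (.ev (nat_lit 1037) (nat_lit 17592186044416) .dd)))) (.ch (nat_lit 4) (.ev (nat_lit 1008)
 (nat_lit 1143492629823552) .dd))) (.br (nat_lit 9) (.ch (nat_lit 5) (.ev (nat_lit 1008) (nat_lit
 1125900443779072) (.ev (nat_lit 1204) (nat_lit 64) (.ev (nat_lit 1213) (nat_lit 17592186044416) .dd)))) (.br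
 (nat_lit 10) (.ch (nat_lit 9) (.ev (nat_lit 1008) (nat_lit 17592722915328) (.ev (nat_lit 1204) (nat_lit 64)
 (.nd (nat_lit 1392) (.br (nat_lit 9) (.ch (nat_lit 6) (.ev (nat_lit 1408) (nat_lit 1125899906908160) .dd))
 (.ch (nat_lit 9) (.fin (nat_lit 576482192765960775)))))))) (.ch (nat_lit 10) (.ev (nat_lit 1008) (nat_lit
 1143492629823488) (.ev (nat_lit 1021) (nat_lit 64) .dd))))))))) (.ch (nat_lit 5) (.ev (nat_lit 576) (nat_lit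
 17592186110016) (.nd (nat_lit 992) (.br (nat_lit 5) (.br (nat_lit 3) (.ch (nat_lit 2) (.ev (nat_lit 1008)
 (nat_lit 1126999955341344) (.ev (nat_lit 1021) (nat_lit 68719476736) .dd))) (.ch (nat_lit 3) (.ev (nat_lit
 1008) (nat_lit 1127068674818080) .dd))) (.br (nat_lit 8) (.ch (nat_lit 5) (.ev (nat_lit 1008) (nat_lit
 69256347680) (.ev (nat_lit 1024) (nat_lit 1125899906842624) (.ev (nat_lit 1037) (nat_lit 1099511627776)
 .dd)))) (.br (nat_lit 9) (.ch (nat_lit 8) (.ev (nat_lit 1008) (nat_lit 1126999955341344) (.ev (nat_lit 1021)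
 (nat_lit 68719476736) .dd))) (.ch (nat_lit 9) (.ev (nat_lit 1008) (nat_lit 1126999418470400) (.ev (nat_lit
 1204) (nat_lit 68719476736) (.nd (nat_lit 1392) (.br (nat_lit 7) (.ch (nat_lit 4) (.fin (nat_lit
 576449207427613265))) (.ch (nat_lit 7) (.ev (nat_lit 1408) (nat_lit 536870944) .dd)))))))))))))) (.br (nat_lit
 10) (.ch (nat_lit 7) (.ev (nat_lit 576) (nat_lit 1144591604580416) (.ev (nat_lit 596) (nat_lit 536870912) (.nd
 (nat_lit 992) (.br (nat_lit 4) (.br (nat_lit 1) (.ch (nat_lit 0) (.ev (nat_lit 1056) (nat_lit 68719476736)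
 (.ev (nat_lit 1069) (nat_lit 32) .dd))) (.br (nat_lit 2) (.ch (nat_lit 1) (.ev (nat_lit 1008) (nat_lit
 68719476768) .dd)) (.ch (nat_lit 2) (.ev (nat_lit 1008) (nat_lit 68719476768) .dd)))) (.br (nat_lit 5) (.ch
 (nat_lit 4) (.ev (nat_lit 1008) (nat_lit 32) (.ev (nat_lit 1021) (nat_lit 68719476736) .dd))) (.br (nat_lit 9)
 (.ch (nat_lit 5) (.ev (nat_lit 1152) (nat_lit 68719476768) .dd)) (.ch (nat_lit 9) (.ev (nat_lit 1008) (nat_lit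
 68719476736) (.ev (nat_lit 1021) (nat_lit 32) .dd)))))))))) (.ch (nat_lit 10) (.ev (nat_lit 576) (nat_lit
 18760954019872) (.ev (nat_lit 596) (nat_lit 1125899906842624) (.nd (nat_lit 992) (.br (nat_lit 7) (.br
 (nat_lit 2) (.ch (nat_lit 0) (.ev (nat_lit 1056) (nat_lit 64) (.ev (nat_lit 1069) (nat_lit 65536) .dd))) (.br
 (nat_lit 6) (.ch (nat_lit 2) (.ev (nat_lit 1008) (nat_lit 64) (.ev (nat_lit 1021) (nat_lit 65536) .dd))) (.ch
 (nat_lit 6) (.ev (nat_lit 1204) (nat_lit 64) (.ev (nat_lit 1213) (nat_lit 65536) .dd))))) (.br (nat_lit 9)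
 (.ch (nat_lit 7) (.ev (nat_lit 1008) (nat_lit 65536) (.ev (nat_lit 1021) (nat_lit 64) .dd))) (.br (nat_lit 10)
 (.ch (nat_lit 9) (.ev (nat_lit 1008) (nat_lit 65600) .dd)) (.ch (nat_lit 10) (.ev (nat_lit 1008) (nat_lit
 65600) .dd)))))))))))))))) (.br (nat_lit 13) (.ch (nat_lit 12) (.ev (nat_lit 52) (nat_lit 5647163124387936)
 (.ev (nat_lit 84) (nat_lit 140737488355840) (.ev (nat_lit 128) (nat_lit 858993744610304) .dd)))) (.ch (nat_lit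
 13) (.ev (nat_lit 52) (nat_lit 563018673062400) (.ev (nat_lit 64) (nat_lit 6083875684291680) .dd))))) (.br
 (nat_lit 17) (.br (nat_lit 16) (.ch (nat_lit 15) (.ev (nat_lit 52) (nat_lit 6482792229666848) (.ev (nat_lit
 116) (nat_lit 17592186044416) (.ev (nat_lit 148) (nat_lit 131072) (.ev (nat_lit 260) (nat_lit 1024) (.nd
 (nat_lit 560) (.br (nat_lit 5) (.br (nat_lit 1) (.ch (nat_lit 0) (.ev (nat_lit 576) (nat_lit 4398063354432)
 (.nd (nat_lit 992) (.br (nat_lit 5) (.br (nat_lit 4) (.ch (nat_lit 2) (.ev (nat_lit 1008) (nat_lit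
 140737488359424) (.ev (nat_lit 1072) (nat_lit 274877906944) (.fin (nat_lit 576479993746899542))))) (.ch
 (nat_lit 4) (.ev (nat_lit 1008) (nat_lit 141836999987200) (.ev (nat_lit 1024) (nat_lit 274878169088) .dd))))
 (.br (nat_lit 7) (.ch (nat_lit 5) (.ev (nat_lit 1008) (nat_lit 1099511889920) (.ev (nat_lit 1300) (nat_lit
 274877906944) (.nd (nat_lit 1392) (.br (nat_lit 7) (.ch (nat_lit 5) (.ev (nat_lit 1408) (nat_lit
 140737488359424) .dd)) (.ch (nat_lit 7) (.fin (nat_lit 576460202552279641)))))))) (.ch (nat_lit 7) (.ev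
 (nat_lit 1008) (nat_lit 141012366266368) (.ev (nat_lit 1024) (nat_lit 262144) (.ev (nat_lit 1037) (nat_lit
 1099511627776) .dd))))))))) (.ch (nat_lit 1) (.ev (nat_lit 576) (nat_lit 141837000245312) (.nd (nat_lit 992)
 (.br (nat_lit 7) (.ch (nat_lit 2) (.ev (nat_lit 1008) (nat_lit 274894684160) (.ev (nat_lit 1204) (nat_lit
 65536) (.ev (nat_lit 1268) (nat_lit 4096) (.fin (nat_lit 576461302059713087)))))) (.br (nat_lit 10) (.ch
 (nat_lit 7) (.ev (nat_lit 1008) (nat_lit 4672941199872) (.ev (nat_lit 1021) (nat_lit 65536) .dd))) (.ch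
 (nat_lit 10) (.ev (nat_lit 1008) (nat_lit 4398046577152) (.ev (nat_lit 1204) (nat_lit 16777216) (.ev (nat_lit
 1268) (nat_lit 274877906944) (.ev (nat_lit 1277) (nat_lit 4096) .dd))))))))))) (.br (nat_lit 7) (.ch (nat_lit
 5) (.ev (nat_lit 576) (nat_lit 146509941506624) (.ev (nat_lit 589) (nat_lit 4096) .dd))) (.br (nat_lit 10)
 (.ch (nat_lit 7) (.ev (nat_lit 576) (nat_lit 146509924733504) (.ev (nat_lit 589) (nat_lit 16777216) .dd)))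
 (.ch (nat_lit 10) (.ev (nat_lit 576) (nat_lit 146509924667904) (.nd (nat_lit 992) (.br (nat_lit 6) (.br
 (nat_lit 2) (.ch (nat_lit 0) (.ev (nat_lit 1268) (nat_lit 16777216) (.nd (nat_lit 1392) (.br (nat_lit 10) (.ch
 (nat_lit 3) (.fin (nat_lit 576440411330396738))) (.ch (nat_lit 10) (.ev (nat_lit 1408) (nat_lit 65600)
 .dd)))))) (.ch (nat_lit 2) (.ev (nat_lit 1008) (nat_lit 16777280) (.ev (nat_lit 1021) (nat_lit 65536) .dd))))
 (.br (nat_lit 7) (.ch (nat_lit 6) (.ev (nat_lit 1008) (nat_lit 16777216) (.ev (nat_lit 1072) (nat_lit 65536)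
 (.ev (nat_lit 1085) (nat_lit 64) .dd)))) (.ch (nat_lit 7) (.ev (nat_lit 1008) (nat_lit 16842752) (.ev (nat_lit
 1021) (nat_lit 64) .dd))))))))))))))))) (.ch (nat_lit 16) (.ev (nat_lit 52) (nat_lit 568449944256576) (.ev
 (nat_lit 84) (nat_lit 8796093026304) (.ev (nat_lit 116) (nat_lit 1125899906876416) (.ev (nat_lit 148) (nat_lit
 275414777856) (.ev (nat_lit 260) (nat_lit 17592186044416) (.ev (nat_lit 320) (nat_lit 68719738880) (.nd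
 (nat_lit 560) (.br (nat_lit 9) (.br (nat_lit 2) (.ch (nat_lit 1) (.ev (nat_lit 576) (nat_lit 4644337115725856)
 (.ev (nat_lit 852) (nat_lit 131072) (.nd (nat_lit 992) (.br (nat_lit 9) (.ch (nat_lit 5) (.ev (nat_lit 1008)
 (nat_lit 281474976776192) (.ev (nat_lit 1021) (nat_lit 512) .dd))) (.br (nat_lit 10) (.ch (nat_lit 9) (.ev
 (nat_lit 1008) (nat_lit 281474976776704) .dd)) (.ch (nat_lit 10) (.ev (nat_lit 1008) (nat_lit 512) (.ev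
 (nat_lit 1204) (nat_lit 281474976710656) (.ev (nat_lit 1213) (nat_lit 65536) .dd)))))))))) (.ch (nat_lit 2)
 (.ev (nat_lit 576) (nat_lit 131072) (.nd (nat_lit 992) (.br (nat_lit 7) (.br (nat_lit 2) (.ch (nat_lit 1) (.ev
 (nat_lit 1008) (nat_lit 422212465132064) (.ev (nat_lit 1021) (nat_lit 4503599627370496) .dd))) (.br (nat_lit
 6) (.ch (nat_lit 2) (.ev (nat_lit 1008) (nat_lit 4785074604147232) (.ev (nat_lit 1021) (nat_lit
 140737488355328) .dd))) (.ch (nat_lit 6) (.ev (nat_lit 1008) (nat_lit 4644337115726368) (.ev (nat_lit 1332)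
 (nat_lit 281474976710656) (.ev (nat_lit 1341) (nat_lit 65536) .dd)))))) (.br (nat_lit 9) (.ch (nat_lit 7) (.ev
 (nat_lit 1008) (nat_lit 422212465065984) (.ev (nat_lit 1056) (nat_lit 32) (.ev (nat_lit 1072) (nat_lit
 4503599627370496) (.ev (nat_lit 1204) (nat_lit 512) (.ev (nat_lit 1213) (nat_lit 65536) .dd)))))) (.br
 (nat_lit 10) (.ch (nat_lit 9) (.ev (nat_lit 1008) (nat_lit 4925812092436992) (.ev (nat_lit 1072) (nat_lit
 65536) (.ev (nat_lit 1085) (nat_lit 32) .dd)))) (.ch (nat_lit 10) (.ev (nat_lit 1008) (nat_lit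
 422212465132032) (.ev (nat_lit 1204) (nat_lit 32) (.ev (nat_lit 1213) (nat_lit 4503599627370496)
 .dd))))))))))) (.br (nat_lit 10) (.ch (nat_lit 9) (.ev (nat_lit 576) (nat_lit 4785074604146720) (.nd (nat_lit
 992) (.br (nat_lit 5) (.ch (nat_lit 2) (.ev (nat_lit 1268) (nat_lit 512) (.ev (nat_lit 1318) (nat_lit
 140737488486400) .dd))) (.br (nat_lit 7) (.ch (nat_lit 5) (.ev (nat_lit 1008) (nat_lit 140737488355328) (.ev
 (nat_lit 1204) (nat_lit 131072) (.ev (nat_lit 1213) (nat_lit 512) .dd)))) (.ch (nat_lit 7) (.ev (nat_lit 1008)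
 (nat_lit 140737488355840) (.ev (nat_lit 1021) (nat_lit 131072) .dd)))))))) (.ch (nat_lit 10) (.ev (nat_lit
 576) (nat_lit 4503599627567648) (.nd (nat_lit 992) (.br (nat_lit 5) (.br (nat_lit 2) (.ch (nat_lit 0) (.ev
 (nat_lit 1008) (nat_lit 422212465065984) .dd)) (.ch (nat_lit 2) (.ev (nat_lit 1008) (nat_lit 422212465065984)
 .dd))) (.br (nat_lit 6) (.ch (nat_lit 5) (.ev (nat_lit 1008) (nat_lit 422212465065984) .dd)) (.br (nat_lit 10)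
 (.ch (nat_lit 6) (.ev (nat_lit 1008) (nat_lit 422212465065984) .dd)) (.ch (nat_lit 10) (.fin (nat_lit
 576460202550182465)))))))))))))))))))) (.br (nat_lit 18) (.ch (nat_lit 17) (.ev (nat_lit 52) (nat_lit
 1412874857873440) (.ev (nat_lit 84) (nat_lit 4503943224754176) (.ev (nat_lit 384) (nat_lit 17592186044928)
 (.nd (nat_lit 560) (.br (nat_lit 2) (.br (nat_lit 1) (.ch (nat_lit 0) (.ev (nat_lit 576) (nat_lit
 571746583543872) (.nd (nat_lit 992) (.br (nat_lit 3) (.ch (nat_lit 1) (.ev (nat_lit 1008) (nat_lit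
 140737505137664) .dd)) (.br (nat_lit 5) (.ch (nat_lit 3) (.ev (nat_lit 1008) (nat_lit 140737488360448) (.ev
 (nat_lit 1021) (nat_lit 16777216) .dd))) (.ch (nat_lit 5) (.ev (nat_lit 1008) (nat_lit 16777216) (.ev (nat_lit
 1232) (nat_lit 1024) (.fin (nat_lit 576460202552279641)))))))))) (.ch (nat_lit 1) (.ev (nat_lit 576) (nat_lit
 149534118347776) (.nd (nat_lit 992) (.br (nat_lit 7) (.br (nat_lit 4) (.ch (nat_lit 2) (.ev (nat_lit 1008)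
 (nat_lit 562949970198592) (.ev (nat_lit 1056) (nat_lit 4096) (.ev (nat_lit 1069) (nat_lit 131072) .dd)))) (.ch
 (nat_lit 4) (.ev (nat_lit 1008) (nat_lit 562949953425408) (.ev (nat_lit 1204) (nat_lit 131136) (.ev (nat_lit
 1213) (nat_lit 16777216) .dd))))) (.br (nat_lit 9) (.ch (nat_lit 7) (.ev (nat_lit 1008) (nat_lit
 562949970202624) (.ev (nat_lit 1024) (nat_lit 131136) .dd))) (.ch (nat_lit 9) (.ev (nat_lit 1008) (nat_lit
 16912384) (.ev (nat_lit 1024) (nat_lit 562949953421312) (.ev (nat_lit 1037) (nat_lit 64) .dd)))))))))) (.br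
 (nat_lit 5) (.ch (nat_lit 2) (.ev (nat_lit 576) (nat_lit 571746063389760) (.nd (nat_lit 992) (.br (nat_lit 6)
 (.br (nat_lit 2) (.ch (nat_lit 1) (.ev (nat_lit 1008) (nat_lit 65536) (.ev (nat_lit 1216) (nat_lit
 140738025226240) .dd))) (.ch (nat_lit 2) (.ev (nat_lit 1008) (nat_lit 140737488420864) (.ev (nat_lit 1021)
 (nat_lit 536870912) .dd)))) (.br (nat_lit 8) (.ch (nat_lit 6) (.ev (nat_lit 1216) (nat_lit 65536) (.ev
 (nat_lit 1268) (nat_lit 536870912) (.ev (nat_lit 1277) (nat_lit 140737488355328) .dd)))) (.ch (nat_lit 8) (.ev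
 (nat_lit 1008) (nat_lit 140738025291776) .dd))))))) (.br (nat_lit 10) (.ch (nat_lit 5) (.ev (nat_lit 576)
 (nat_lit 140737505362944) (.ev (nat_lit 976) (nat_lit 8796093022208) (.nd (nat_lit 992) (.br (nat_lit 9) (.br
 (nat_lit 3) (.ch (nat_lit 2) (.ev (nat_lit 1008) (nat_lit 562949953425472) (.ev (nat_lit 1021) (nat_lit
 536870912) .dd))) (.ch (nat_lit 3) (.ev (nat_lit 1024) (nat_lit 536870912) (.ev (nat_lit 1216) (nat_lit 64)
 (.ev (nat_lit 1268) (nat_lit 562949953421312) (.ev (nat_lit 1277) (nat_lit 4096) .dd)))))) (.br (nat_lit 10)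
 (.ch (nat_lit 9) (.ev (nat_lit 1008) (nat_lit 4160) (.ev (nat_lit 1204) (nat_lit 562949953421312) (.ev
 (nat_lit 1213) (nat_lit 536870912) .dd)))) (.ch (nat_lit 10) (.ev (nat_lit 1008) (nat_lit 536870976) (.ev
 (nat_lit 1024) (nat_lit 562949953421312) (.ev (nat_lit 1037) (nat_lit 4096) .dd)))))))))) (.ch (nat_lit 10)
 (.ev (nat_lit 576) (nat_lit 8796646871040) (.ev (nat_lit 596) (nat_lit 140737488355328) (.nd (nat_lit 992)
 (.br (nat_lit 5) (.br (nat_lit 2) (.ch (nat_lit 0) (.ev (nat_lit 1008) (nat_lit 562949953455104) (.ev (nat_lit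
 1021) (nat_lit 64) .dd))) (.ch (nat_lit 2) (.ev (nat_lit 1008) (nat_lit 562949953421376) (.fin (nat_lit
 576471197667508802))))) (.br (nat_lit 7) (.ch (nat_lit 5) (.ev (nat_lit 1008) (nat_lit 562949953455168) .dd))
 (.ch (nat_lit 7) (.ev (nat_lit 1008) (nat_lit 33792) (.ev (nat_lit 1104) (nat_lit 562949953421312) (.ev
 (nat_lit 1117) (nat_lit 64) .dd)))))))))))))))))) (.ch (nat_lit 18) (.ev (nat_lit 52) (nat_lit
 4650110357246016) (.ev (nat_lit 84) (nat_lit 562949953486848) (.ev (nat_lit 116) (nat_lit 17592186306560) (.ev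
 (nat_lit 148) (nat_lit 1125899906842624) (.nd (nat_lit 560) (.br (nat_lit 5) (.br (nat_lit 2) (.ch (nat_lit 0)
 (.ev (nat_lit 576) (nat_lit 281474976712192) (.nd (nat_lit 992) (.br (nat_lit 4) (.ch (nat_lit 1) (.ev
 (nat_lit 1008) (nat_lit 2147483680) (.ev (nat_lit 1268) (nat_lit 68719476736) (.fin (nat_lit
 576455804482699821))))) (.br (nat_lit 7) (.ch (nat_lit 4) (.ev (nat_lit 1008) (nat_lit 8864829276160) (.nd
 (nat_lit 1392) (.br (nat_lit 10) (.ch (nat_lit 8) (.fin (nat_lit 576458003533218342))) (.ch (nat_lit 10) (.ev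
 (nat_lit 1408) (nat_lit 2147483680) .dd)))))) (.ch (nat_lit 7) (.ev (nat_lit 1008) (nat_lit 8796093022240)
 (.ev (nat_lit 1204) (nat_lit 16777216) (.ev (nat_lit 1268) (nat_lit 2147483648) (.ev (nat_lit 1277) (nat_lit
 68719476736) .dd)))))))))) (.ch (nat_lit 2) (.ev (nat_lit 576) (nat_lit 290273233993728) (.nd (nat_lit 992)
 (.br (nat_lit 2) (.ch (nat_lit 1) (.ev (nat_lit 1008) (nat_lit 68719477248) (.ev (nat_lit 1204) (nat_lit 32)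
 (.ev (nat_lit 1213) (nat_lit 1024) .dd)))) (.br (nat_lit 7) (.ch (nat_lit 2) (.ev (nat_lit 1008) (nat_lit
 68719478304) .dd)) (.ch (nat_lit 7) (.ev (nat_lit 1284) (nat_lit 32) (.ev (nat_lit 1348) (nat_lit 1024) (.nd
 (nat_lit 1392) (.br (nat_lit 10) (.ch (nat_lit 3) (.ev (nat_lit 1408) (nat_lit 68719477248) .dd)) (.ch
 (nat_lit 10) (.fin (nat_lit 576447008387580470)))))))))))))) (.br (nat_lit 7) (.ch (nat_lit 5) (.ev (nat_lit
 576) (nat_lit 290341953472032) .dd)) (.br (nat_lit 9) (.ch (nat_lit 7) (.ev (nat_lit 576) (nat_lit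
 8866976761344) (.nd (nat_lit 992) (.br (nat_lit 10) (.ch (nat_lit 4) (.ev (nat_lit 1008) (nat_lit
 281474976710656) (.ev (nat_lit 1021) (nat_lit 32) .dd))) (.ch (nat_lit 10) (.ev (nat_lit 1008) (nat_lit 32)
 (.ev (nat_lit 1021) (nat_lit 281474976710656) .dd))))))) (.ch (nat_lit 9) (.ev (nat_lit 576) (nat_lit
 290341953471008) (.ev (nat_lit 589) (nat_lit 1024) .dd)))))))))))))))) (.br (nat_lit 26) (.br (nat_lit 22)
 (.br (nat_lit 20) (.ch (nat_lit 19) (.ev (nat_lit 52) (nat_lit 1101927551488) (.ev (nat_lit 64) (nat_lit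
 6645792429802592) .dd))) (.br (nat_lit 21) (.ch (nat_lit 20) (.ev (nat_lit 52) (nat_lit 572845843383840) (.ev
 (nat_lit 84) (nat_lit 4160) (.ev (nat_lit 116) (nat_lit 274877906944) (.ev (nat_lit 148) (nat_lit 131072) (.ev
 (nat_lit 228) (nat_lit 17592186044416) (.ev (nat_lit 352) (nat_lit 4503668346847232) (.nd (nat_lit 560) (.br
 (nat_lit 2) (.br (nat_lit 1) (.ch (nat_lit 0) (.ev (nat_lit 576) (nat_lit 422215149682688) (.nd (nat_lit 992)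
 (.br (nat_lit 7) (.br (nat_lit 4) (.ch (nat_lit 3) (.ev (nat_lit 1008) (nat_lit 1130297953353728) .dd)) (.ch
 (nat_lit 4) (.ev (nat_lit 1168) (nat_lit 4398046511104) (.ev (nat_lit 1181) (nat_lit 1125899906842624) .dd))))
 (.br (nat_lit 8) (.ch (nat_lit 7) (.ev (nat_lit 1008) (nat_lit 4398046511104) (.ev (nat_lit 1021) (nat_lit
 1125899906842624) .dd))) (.ch (nat_lit 8) (.ev (nat_lit 1008) (nat_lit 1130297953353728) .dd))))))) (.ch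
 (nat_lit 1) (.ev (nat_lit 576) (nat_lit 422212465328128) (.ev (nat_lit 678) (nat_lit 2147483648) (.nd (nat_lit
 992) (.br (nat_lit 4) (.ch (nat_lit 3) (.ev (nat_lit 1204) (nat_lit 1130297953353728) (.ev (nat_lit 1213)
 (nat_lit 536870912) .dd))) (.br (nat_lit 5) (.ch (nat_lit 4) (.ev (nat_lit 1008) (nat_lit 1130298490224640)
 .dd)) (.ch (nat_lit 5) (.ev (nat_lit 1008) (nat_lit 1130298490224640) .dd))))))))) (.br (nat_lit 5) (.ch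
 (nat_lit 2) (.ev (nat_lit 576) (nat_lit 1552512565903360) (.nd (nat_lit 992) (.br (nat_lit 6) (.ch (nat_lit 2)
 (.ev (nat_lit 1008) (nat_lit 537133056) .dd)) (.br (nat_lit 9) (.ch (nat_lit 6) (.ev (nat_lit 1008) (nat_lit
 536870912) (.ev (nat_lit 1021) (nat_lit 262144) .dd))) (.ch (nat_lit 9) (.ev (nat_lit 1040) (nat_lit 262144)
 (.ev (nat_lit 1053) (nat_lit 536870912) .dd)))))))) (.br (nat_lit 10) (.ch (nat_lit 5) (.ev (nat_lit 576)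
 (nat_lit 422214612811776) (.ev (nat_lit 596) (nat_lit 536870912) (.nd (nat_lit 992) (.br (nat_lit 8) (.br
 (nat_lit 5) (.ch (nat_lit 3) (.ev (nat_lit 1008) (nat_lit 1130297953353728) .dd)) (.ch (nat_lit 5) (.ev
 (nat_lit 1008) (nat_lit 4398046511104) (.ev (nat_lit 1021) (nat_lit 1125899906842624) .dd)))) (.br (nat_lit
 10) (.ch (nat_lit 8) (.ev (nat_lit 1008) (nat_lit 4398046511104) (.ev (nat_lit 1021) (nat_lit
 1125899906842624) .dd))) (.ch (nat_lit 10) (.ev (nat_lit 1204) (nat_lit 4398046511104) (.ev (nat_lit 1213)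
 (nat_lit 1125899906842624) .dd))))))))) (.ch (nat_lit 10) (.ev (nat_lit 576) (nat_lit 1130300637970432) (.nd
 (nat_lit 992) (.br (nat_lit 7) (.br (nat_lit 6) (.ch (nat_lit 0) (.ev (nat_lit 1024) (nat_lit 140737488355328)
 (.ev (nat_lit 1037) (nat_lit 281474976710656) .dd))) (.ch (nat_lit 6) (.ev (nat_lit 1008) (nat_lit
 281474976710656) (.ev (nat_lit 1021) (nat_lit 140737488355328) .dd)))) (.br (nat_lit 10) (.ch (nat_lit 7) (.ev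
 (nat_lit 1008) (nat_lit 140737488355328) (.ev (nat_lit 1021) (nat_lit 281474976710656) .dd))) (.ch (nat_lit
 10) (.fin (nat_lit 576462401571340863))))))))))))))))))) (.ch (nat_lit 21) (.ev (nat_lit 52) (nat_lit
 1706785929072736) (.ev (nat_lit 84) (nat_lit 281474976776192) (.ev (nat_lit 116) (nat_lit 4398046511104) (.ev
 (nat_lit 148) (nat_lit 1024) (.ev (nat_lit 176) (nat_lit 4654235404993024) .dd)))))))) (.br (nat_lit 24) (.ch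
 (nat_lit 22) (.ev (nat_lit 52) (nat_lit 4741644222464) (.ev (nat_lit 148) (nat_lit 4644337115725824) (.ev
 (nat_lit 196) (nat_lit 17592186044416) (.ev (nat_lit 228) (nat_lit 268599296) (.ev (nat_lit 400) (nat_lit
 8796093022272) (.nd (nat_lit 560) (.br (nat_lit 2) (.br (nat_lit 1) (.ch (nat_lit 0) (.ev (nat_lit 576)
 (nat_lit 844425483785728) (.nd (nat_lit 992) (.br (nat_lit 4) (.ch (nat_lit 1) (.ev (nat_lit 1008) (nat_lit
 1127001565954080) .dd)) (.br (nat_lit 8) (.ch (nat_lit 4) (.ev (nat_lit 1008) (nat_lit 1125899906842624) (.ev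
 (nat_lit 1232) (nat_lit 1099511627776) (.fin (nat_lit 576464600588304986))))) (.ch (nat_lit 8) (.ev (nat_lit
 1008) (nat_lit 1101659111456) (.ev (nat_lit 1021) (nat_lit 1125899906842624) .dd)))))))) (.ch (nat_lit 1) (.ev
 (nat_lit 576) (nat_lit 1408474395186208) (.ev (nat_lit 806) (nat_lit 536870912) (.nd (nat_lit 992) (.br
 (nat_lit 5) (.br (nat_lit 4) (.ch (nat_lit 2) (.ev (nat_lit 1008) (nat_lit 562949970198528) (.ev (nat_lit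
 1024) (nat_lit 512) (.ev (nat_lit 1037) (nat_lit 2147483648) .dd)))) (.ch (nat_lit 4) (.ev (nat_lit 1008)
 (nat_lit 562952100904960) (.ev (nat_lit 1204) (nat_lit 512) (.ev (nat_lit 1213) (nat_lit 16777216) .dd)))))
 (.br (nat_lit 7) (.ch (nat_lit 5) (.ev (nat_lit 1024) (nat_lit 16777216) (.ev (nat_lit 1204) (nat_lit 512)
 (.ev (nat_lit 1216) (nat_lit 562949953421312) (.ev (nat_lit 1229) (nat_lit 2147483648) .dd))))) (.ch (nat_lit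
 7) (.ev (nat_lit 1008) (nat_lit 562952100905472) (.ev (nat_lit 1021) (nat_lit 16777216) .dd)))))))))) (.br
 (nat_lit 7) (.ch (nat_lit 2) (.ev (nat_lit 576) (nat_lit 1125902607979520) (.ev (nat_lit 596) (nat_lit 32)
 (.nd (nat_lit 992) (.br (nat_lit 8) (.br (nat_lit 2) (.ch (nat_lit 1) (.ev (nat_lit 1008) (nat_lit
 282574488338944) (.ev (nat_lit 1021) (nat_lit 562949953421312) .dd))) (.ch (nat_lit 2) (.ev (nat_lit 1008)
 (nat_lit 845524441760256) .dd))) (.br (nat_lit 9) (.ch (nat_lit 8) (.ev (nat_lit 1008) (nat_lit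
 562949953421824) (.fin (nat_lit 576464600585159233)))) (.ch (nat_lit 9) (.ev (nat_lit 1008) (nat_lit
 282574488338432) (.ev (nat_lit 1168) (nat_lit 512) (.ev (nat_lit 1181) (nat_lit 562949953421312) .dd))))))))))
 (.br (nat_lit 9) (.ch (nat_lit 7) (.ev (nat_lit 576) (nat_lit 1971427032958464) (.nd (nat_lit 992) (.br
 (nat_lit 4) (.br (nat_lit 2) (.ch (nat_lit 1) (.ev (nat_lit 1008) (nat_lit 16781344) .dd)) (.ch (nat_lit 2)
 (.ev (nat_lit 1008) (nat_lit 4128) (.ev (nat_lit 1021) (nat_lit 16777216) .dd)))) (.br (nat_lit 5) (.ch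
 (nat_lit 4) (.ev (nat_lit 1008) (nat_lit 4096) (.ev (nat_lit 1216) (nat_lit 16777248) .dd))) (.ch (nat_lit 5)
 (.ev (nat_lit 1216) (nat_lit 4096) (.ev (nat_lit 1268) (nat_lit 16777216) (.ev (nat_lit 1277) (nat_lit 32)
 .dd))))))))) (.ch (nat_lit 9) (.ev (nat_lit 576) (nat_lit 282575041990688) (.nd (nat_lit 992) (.br (nat_lit 4)
 (.br (nat_lit 3) (.ch (nat_lit 0) (.ev (nat_lit 1008) (nat_lit 1125902054327296) (.ev (nat_lit 1232) (nat_lit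
 512) (.ev (nat_lit 1245) (nat_lit 562949953421312) .dd)))) (.ch (nat_lit 3) (.ev (nat_lit 1008) (nat_lit
 1688849860264448) (.ev (nat_lit 1204) (nat_lit 1024) (.ev (nat_lit 1213) (nat_lit 2147483648) .dd))))) (.br
 (nat_lit 10) (.ch (nat_lit 4) (.ev (nat_lit 1008) (nat_lit 1125902054326784) (.ev (nat_lit 1204) (nat_lit
 1024) (.ev (nat_lit 1213) (nat_lit 562949953421312) .dd)))) (.ch (nat_lit 10) (.ev (nat_lit 1008) (nat_lit
 2147484160) (.ev (nat_lit 1204) (nat_lit 562949953422336) (.ev (nat_lit 1213) (nat_lit 1125899906842624)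
 .dd))))))))))))))))))) (.br (nat_lit 25) (.ch (nat_lit 24) (.ev (nat_lit 52) (nat_lit 1268013949030400) (.ev
 (nat_lit 84) (nat_lit 65568) (.ev (nat_lit 116) (nat_lit 68719477760) (.ev (nat_lit 196) (nat_lit 131072) (.ev
 (nat_lit 260) (nat_lit 262144) (.nd (nat_lit 560) (.br (nat_lit 7) (.br (nat_lit 2) (.ch (nat_lit 1) (.ev
 (nat_lit 576) (nat_lit 5066550117662784) (.nd (nat_lit 992) (.br (nat_lit 5) (.ch (nat_lit 2) (.ev (nat_lit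
 1008) (nat_lit 8796361457664) (.ev (nat_lit 1204) (nat_lit 17592186044416) (.ev (nat_lit 1268) (nat_lit
 281474976710656) (.fin (nat_lit 576461302059713087)))))) (.br (nat_lit 9) (.ch (nat_lit 5) (.ev (nat_lit 1008)
 (nat_lit 294669384679936) (.ev (nat_lit 1021) (nat_lit 17592186044416) .dd))) (.ch (nat_lit 9) (.ev (nat_lit
 1008) (nat_lit 21990232556032) (.ev (nat_lit 1268) (nat_lit 8796361457664) (.ev (nat_lit 1277) (nat_lit
 281474976710656) .dd))))))))) (.ch (nat_lit 2) (.ev (nat_lit 576) (nat_lit 857619606536768) (.nd (nat_lit 992)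
 (.br (nat_lit 9) (.br (nat_lit 7) (.ch (nat_lit 1) (.ev (nat_lit 1008) (nat_lit 17592454479872) (.ev (nat_lit
 1021) (nat_lit 4503599627370496) .dd))) (.ch (nat_lit 7) (.ev (nat_lit 1008) (nat_lit 268435456) (.ev (nat_lit
 1072) (nat_lit 17592186044416) (.ev (nat_lit 1085) (nat_lit 4503599627370496) .dd))))) (.br (nat_lit 10) (.ch
 (nat_lit 9) (.ev (nat_lit 1008) (nat_lit 4503599895805952) (.ev (nat_lit 1021) (nat_lit 17592186044416) .dd)))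
 (.ch (nat_lit 10) (.ev (nat_lit 1268) (nat_lit 268435456) (.nd (nat_lit 1392) (.br (nat_lit 2) (.ch (nat_lit
 0) (.fin (nat_lit 576466799638823474))) (.ch (nat_lit 2) (.ev (nat_lit 1408) (nat_lit 4521191813414912)
 .dd)))))))))))) (.br (nat_lit 9) (.ch (nat_lit 7) (.ev (nat_lit 576) (nat_lit 4525590128361984) (.nd (nat_lit
 992) (.br (nat_lit 4) (.br (nat_lit 1) (.ch (nat_lit 0) (.ev (nat_lit 1008) (nat_lit 844425467002880) (.ev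
 (nat_lit 1024) (nat_lit 8796093022272) .dd))) (.ch (nat_lit 1) (.ev (nat_lit 1008) (nat_lit 844424930131968)
 (.ev (nat_lit 1072) (nat_lit 8796093022208) (.fin (nat_lit 576436013294371382)))))) (.br (nat_lit 5) (.ch
 (nat_lit 4) (.ev (nat_lit 1008) (nat_lit 853221023154176) (.ev (nat_lit 1024) (nat_lit 64) (.ev (nat_lit 1037)
 (nat_lit 536870912) .dd)))) (.ch (nat_lit 5) (.ev (nat_lit 1008) (nat_lit 536870976) (.ev (nat_lit 1348)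
 (nat_lit 8796093022208) (.nd (nat_lit 1392) (.br (nat_lit 10) (.ch (nat_lit 9) (.fin (nat_lit
 576451406480228929))) (.ch (nat_lit 10) (.ev (nat_lit 1408) (nat_lit 844424930131968) .dd)))))))))))) (.br
 (nat_lit 10) (.ch (nat_lit 9) (.ev (nat_lit 576) (nat_lit 5378811419951680) (.ev (nat_lit 589) (nat_lit
 268435456) .dd))) (.ch (nat_lit 10) (.ev (nat_lit 576) (nat_lit 5097336711676480) (.ev (nat_lit 589) (nat_lit
 281474976710656) .dd))))))))))))) (.ch (nat_lit 25) (.ev (nat_lit 52) (nat_lit 1548112909107264) (.ev (nat_lit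
 84) (nat_lit 1099511628288) (.ev (nat_lit 116) (nat_lit 131072) (.ev (nat_lit 148) (nat_lit 32768) (.ev
 (nat_lit 196) (nat_lit 285212672) (.nd (nat_lit 560) (.br (nat_lit 5) (.br (nat_lit 1) (.ch (nat_lit 0) (.ev
 (nat_lit 576) (nat_lit 580817017376800) (.nd (nat_lit 992) (.br (nat_lit 4) (.br (nat_lit 2) (.ch (nat_lit 1)
 (.ev (nat_lit 1008) (nat_lit 2147484672) (.ev (nat_lit 1072) (nat_lit 4503599627370496) (.ev (nat_lit 1204)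
 (nat_lit 8796093022208) (.ev (nat_lit 1232) (nat_lit 4466765987840) .dd))))) (.ch (nat_lit 2) (.ev (nat_lit
 1008) (nat_lit 4503670494331904) (.ev (nat_lit 1204) (nat_lit 8796093022208) (.ev (nat_lit 1213) (nat_lit
 4398046511104) .dd))))) (.br (nat_lit 5) (.ch (nat_lit 4) (.ev (nat_lit 1008) (nat_lit 4508066393359360) (.ev
 (nat_lit 1024) (nat_lit 2147483648) (.ev (nat_lit 1037) (nat_lit 8796093022208) .dd)))) (.ch (nat_lit 5) (.ev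
 (nat_lit 1008) (nat_lit 4516864633864192) (.ev (nat_lit 1021) (nat_lit 1024) .dd)))))))) (.br (nat_lit 2) (.ch
 (nat_lit 1) (.ev (nat_lit 576) (nat_lit 4521537558283296) (.nd (nat_lit 992) (.br (nat_lit 4) (.ch (nat_lit 3)
 (.ev (nat_lit 1204) (nat_lit 4398046515200) (.nd (nat_lit 1392) (.br (nat_lit 2) (.ch (nat_lit 1) (.fin
 (nat_lit 576460202575348280))) (.ch (nat_lit 2) (.ev (nat_lit 1408) (nat_lit 571746046443520) .dd)))))) (.ch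
 (nat_lit 4) (.ev (nat_lit 1008) (nat_lit 576144092958720) .dd)))))) (.ch (nat_lit 2) (.ev (nat_lit 576)
 (nat_lit 576489837826048) (.nd (nat_lit 992) (.br (nat_lit 7) (.br (nat_lit 6) (.ch (nat_lit 1) (.ev (nat_lit
 1008) (nat_lit 17592186044448) (.ev (nat_lit 1204) (nat_lit 1024) (.ev (nat_lit 1213) (nat_lit
 4503599627370496) .dd)))) (.ch (nat_lit 6) (.ev (nat_lit 1008) (nat_lit 4521191813415968) .dd))) (.br (nat_lit
 9) (.ch (nat_lit 7) (.ev (nat_lit 1008) (nat_lit 1056) (.ev (nat_lit 1204) (nat_lit 4503599627370496) (.ev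
 (nat_lit 1213) (nat_lit 17592186044416) .dd)))) (.br (nat_lit 10) (.ch (nat_lit 9) (.ev (nat_lit 1008)
 (nat_lit 4503599627371552) (.ev (nat_lit 1021) (nat_lit 17592186044416) .dd))) (.ch (nat_lit 10) (.ev (nat_lit
 1008) (nat_lit 1024) (.ev (nat_lit 1024) (nat_lit 32) (.ev (nat_lit 1072) (nat_lit 4503599627370496) (.ev
 (nat_lit 1085) (nat_lit 17592186044416) .dd))))))))))))) (.br (nat_lit 7) (.ch (nat_lit 5) (.ev (nat_lit 576)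
 (nat_lit 5092940007346208) (.nd (nat_lit 992) (.br (nat_lit 8) (.br (nat_lit 2) (.ch (nat_lit 1) (.ev (nat_lit
 1008) (nat_lit 4466765988864) (.ev (nat_lit 1021) (nat_lit 274877906944) .dd))) (.ch (nat_lit 2) (.ev (nat_lit
 1008) (nat_lit 274877907968) (.ev (nat_lit 1056) (nat_lit 4466765987840) .dd)))) (.br (nat_lit 9) (.ch
 (nat_lit 8) (.ev (nat_lit 1008) (nat_lit 4741643895808) .dd)) (.ch (nat_lit 9) (.ev (nat_lit 1008) (nat_lit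
 4672924418048) (.ev (nat_lit 1204) (nat_lit 1024) (.ev (nat_lit 1213) (nat_lit 68719476736) .dd))))))))) (.br
 (nat_lit 9) (.ch (nat_lit 7) (.ev (nat_lit 576) (nat_lit 31063350973472) (.nd (nat_lit 992) (.br (nat_lit 4)
 (.br (nat_lit 2) (.ch (nat_lit 1) (.ev (nat_lit 1008) (nat_lit 5066618300268544) .dd)) (.ch (nat_lit 2) (.ev
 (nat_lit 1008) (nat_lit 5066549580791808) (.ev (nat_lit 1021) (nat_lit 68719476736) .dd)))) (.br (nat_lit 10)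
 (.ch (nat_lit 4) (.ev (nat_lit 1008) (nat_lit 562949953421312) (.ev (nat_lit 1204) (nat_lit 68719476736) (.ev
 (nat_lit 1213) (nat_lit 4503599627370496) .dd)))) (.ch (nat_lit 10) (.ev (nat_lit 1008) (nat_lit
 4503599627370496) (.ev (nat_lit 1024) (nat_lit 562949953421312) (.ev (nat_lit 1037) (nat_lit 68719476736)
 .dd))))))))) (.ch (nat_lit 9) (.ev (nat_lit 576) (nat_lit 4534731697820704) (.ev (nat_lit 589) (nat_lit
 562949953421312) .dd)))))))))))))))) (.br (nat_lit 30) (.br (nat_lit 27) (.ch (nat_lit 26) (.ev (nat_lit 52)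
 (nat_lit 717227326242912) (.ev (nat_lit 84) (nat_lit 536871424) (.ev (nat_lit 148) (nat_lit 17592186306560)
 (.nd (nat_lit 560) (.br (nat_lit 2) (.br (nat_lit 1) (.ch (nat_lit 0) (.ev (nat_lit 576) (nat_lit
 1408474680561664) (.nd (nat_lit 992) (.br (nat_lit 7) (.br (nat_lit 3) (.ch (nat_lit 1) (.ev (nat_lit 1204)
 (nat_lit 1024) (.ev (nat_lit 1213) (nat_lit 4503599627370496) .dd))) (.ch (nat_lit 3) (.ev (nat_lit 1008)
 (nat_lit 1024) (.ev (nat_lit 1021) (nat_lit 4503599627370496) .dd)))) (.br (nat_lit 8) (.ch (nat_lit 7) (.ev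
 (nat_lit 1008) (nat_lit 1024) (.ev (nat_lit 1021) (nat_lit 4503599627370496) .dd))) (.ch (nat_lit 8) (.ev
 (nat_lit 1008) (nat_lit 4503599627371520) .dd))))))) (.ch (nat_lit 1) (.ev (nat_lit 576) (nat_lit
 4504699155780608) (.nd (nat_lit 992) (.br (nat_lit 7) (.ch (nat_lit 5) (.ev (nat_lit 1008) (nat_lit
 1407375152152576) .dd)) (.br (nat_lit 9) (.ch (nat_lit 7) (.ev (nat_lit 1008) (nat_lit 1407375152021504) (.ev
 (nat_lit 1021) (nat_lit 131072) .dd))) (.ch (nat_lit 9) (.ev (nat_lit 1008) (nat_lit 131072) (.ev (nat_lit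
 1040) (nat_lit 32768) (.ev (nat_lit 1204) (nat_lit 281475245146112) (.ev (nat_lit 1213) (nat_lit
 1125899906842624) .dd))))))))))) (.br (nat_lit 7) (.ch (nat_lit 2) (.ev (nat_lit 576) (nat_lit
 1125899923787776) (.nd (nat_lit 992) (.br (nat_lit 8) (.ch (nat_lit 6) (.ev (nat_lit 1008) (nat_lit
 4785074872517632) (.ev (nat_lit 1021) (nat_lit 1099511627776) .dd))) (.br (nat_lit 10) (.ch (nat_lit 8) (.ev
 (nat_lit 1008) (nat_lit 4503599895806976) (.fin (nat_lit 576464600585159233)))) (.ch (nat_lit 10) (.ev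
 (nat_lit 1008) (nat_lit 282574488338432) (.ev (nat_lit 1204) (nat_lit 4503599895805952) (.ev (nat_lit 1213)
 (nat_lit 1024) .dd))))))))) (.br (nat_lit 9) (.ch (nat_lit 7) (.ev (nat_lit 576) (nat_lit 282574756904960)
 (.nd (nat_lit 992) (.br (nat_lit 5) (.br (nat_lit 4) (.ch (nat_lit 0) (.ev (nat_lit 1008) (nat_lit
 5629499534249984) (.ev (nat_lit 1040) (nat_lit 16777216) (.ev (nat_lit 1053) (nat_lit 1024) .dd)))) (.ch
 (nat_lit 4) (.ev (nat_lit 1024) (nat_lit 16777216) (.ev (nat_lit 1104) (nat_lit 1125899906842624) (.ev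
 (nat_lit 1204) (nat_lit 4503599627370496) (.ev (nat_lit 1232) (nat_lit 4096) (.fin (nat_lit
 576466799626240583)))))))) (.br (nat_lit 9) (.ch (nat_lit 5) (.ev (nat_lit 1008) (nat_lit 5629499534214144)
 (.ev (nat_lit 1204) (nat_lit 32768) (.fin (nat_lit 576473396683424348))))) (.ch (nat_lit 9) (.ev (nat_lit
 1008) (nat_lit 5629499551027200) (.ev (nat_lit 1021) (nat_lit 1024) .dd)))))))) (.ch (nat_lit 9) (.ev (nat_lit
 576) (nat_lit 4786174132622336) (.ev (nat_lit 596) (nat_lit 268435456) (.nd (nat_lit 992) (.br (nat_lit 3)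
 (.br (nat_lit 2) (.ch (nat_lit 0) (.ev (nat_lit 1008) (nat_lit 32768) (.ev (nat_lit 1021) (nat_lit
 1125899906842624) .dd))) (.ch (nat_lit 2) (.ev (nat_lit 1008) (nat_lit 32768) (.ev (nat_lit 1021) (nat_lit
 1125899906842624) .dd)))) (.br (nat_lit 5) (.ch (nat_lit 3) (.ev (nat_lit 1204) (nat_lit 32768) (.ev (nat_lit
 1213) (nat_lit 1125899906842624) .dd))) (.ch (nat_lit 5) (.ev (nat_lit 1008) (nat_lit 1125899906875392)
 .dd)))))))))))))))) (.br (nat_lit 29) (.ch (nat_lit 27) (.ev (nat_lit 52) (nat_lit 1426066581489216) (.ev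
 (nat_lit 64) (nat_lit 5220827775864864) .dd))) (.ch (nat_lit 29) (.ev (nat_lit 52) (nat_lit 5796625855512576)
 (.ev (nat_lit 96) (nat_lit 850268501841504) .dd))))) (.br (nat_lit 35) (.br (nat_lit 33) (.ch (nat_lit 30)
 (.ev (nat_lit 52) (nat_lit 281545860453408) (.ev (nat_lit 84) (nat_lit 8796093022208) (.ev (nat_lit 116)
 (nat_lit 32768) (.ev (nat_lit 148) (nat_lit 1099511627776) (.ev (nat_lit 304) (nat_lit 536871424) (.nd
 (nat_lit 560) (.br (nat_lit 5) (.br (nat_lit 1) (.ch (nat_lit 0) (.ev (nat_lit 576) (nat_lit 580542408097856)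
 (.nd (nat_lit 992) (.br (nat_lit 4) (.br (nat_lit 3) (.ch (nat_lit 1) (.ev (nat_lit 1008) (nat_lit
 1271035441971200) (.ev (nat_lit 1040) (nat_lit 274877906944) (.ev (nat_lit 1053) (nat_lit 4503599627370496)
 .dd)))) (.ch (nat_lit 3) (.ev (nat_lit 1008) (nat_lit 145410413035520) (.ev (nat_lit 1204) (nat_lit
 4503599627370496) (.ev (nat_lit 1213) (nat_lit 1125899906842624) .dd))))) (.br (nat_lit 7) (.ch (nat_lit 4)
 (.ev (nat_lit 1008) (nat_lit 4644611993632768) (.ev (nat_lit 1056) (nat_lit 4398046511104) (.ev (nat_lit 1204)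
 (nat_lit 262144) (.ev (nat_lit 1213) (nat_lit 1125899906842624) .dd))))) (.br (nat_lit 8) (.ch (nat_lit 7)
 (.ev (nat_lit 1008) (nat_lit 4672924680192) (.ev (nat_lit 1024) (nat_lit 4503599627370496) (.ev (nat_lit 1040)
 (nat_lit 140737488355328) (.ev (nat_lit 1053) (nat_lit 1125899906842624) .dd))))) (.ch (nat_lit 8) (.ev
 (nat_lit 1008) (nat_lit 5774909946986496) (.ev (nat_lit 1021) (nat_lit 262144) .dd))))))))) (.br (nat_lit 2)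
 (.ch (nat_lit 1) (.ev (nat_lit 576) (nat_lit 4662204180004864) (.nd (nat_lit 992) (.br (nat_lit 5) (.br
 (nat_lit 3) (.ch (nat_lit 2) (.ev (nat_lit 1008) (nat_lit 562949953552448) (.ev (nat_lit 1204) (nat_lit
 4398314946560) (.ev (nat_lit 1213) (nat_lit 1125899906842624) .dd)))) (.ch (nat_lit 3) (.ev (nat_lit 1008)
 (nat_lit 1688850128830464) (.ev (nat_lit 1072) (nat_lit 4398046511104) (.ev (nat_lit 1085) (nat_lit 64)
 .dd))))) (.br (nat_lit 9) (.ch (nat_lit 5) (.ev (nat_lit 1008) (nat_lit 1130298221920256) (.ev (nat_lit 1040)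
 (nat_lit 562949953421312) (.ev (nat_lit 1053) (nat_lit 64) .dd)))) (.br (nat_lit 10) (.ch (nat_lit 9) (.ev
 (nat_lit 1008) (nat_lit 1693247906906176) (.ev (nat_lit 1021) (nat_lit 268435456) .dd))) (.ch (nat_lit 10)
 (.ev (nat_lit 1008) (nat_lit 1688850128699392) (.ev (nat_lit 1024) (nat_lit 64) (.ev (nat_lit 1040) (nat_lit
 131072) (.ev (nat_lit 1053) (nat_lit 4398046511104) .dd))))))))))) (.ch (nat_lit 2) (.ev (nat_lit 576)
 (nat_lit 1834260541669440) (.ev (nat_lit 870) (nat_lit 262144) (.nd (nat_lit 992) (.br (nat_lit 10) (.ch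
 (nat_lit 8) (.ev (nat_lit 1008) (nat_lit 4521191813414912) .dd)) (.ch (nat_lit 10) (.nd (nat_lit 1392) (.br
 (nat_lit 2) (.ch (nat_lit 0) (.fin (nat_lit 576466799638823474))) (.ch (nat_lit 2) (.ev (nat_lit 1408)
 (nat_lit 4521191813414912) .dd)))))))))))) (.br (nat_lit 7) (.ch (nat_lit 5) (.ev (nat_lit 576) (nat_lit
 5787829477507072) (.nd (nat_lit 992) (.br (nat_lit 9) (.br (nat_lit 2) (.ch (nat_lit 1) (.ev (nat_lit 1008)
 (nat_lit 567347999932480) (.ev (nat_lit 1021) (nat_lit 274877906944) .dd))) (.ch (nat_lit 2) (.ev (nat_lit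
 1008) (nat_lit 567347999932480) (.ev (nat_lit 1021) (nat_lit 274877906944) .dd)))) (.br (nat_lit 10) (.ch
 (nat_lit 9) (.ev (nat_lit 1008) (nat_lit 4672924418048) (.ev (nat_lit 1056) (nat_lit 562949953421376) .dd)))
 (.ch (nat_lit 10) (.ev (nat_lit 1204) (nat_lit 4672924418112) (.ev (nat_lit 1213) (nat_lit 562949953421312)
 .dd)))))))) (.br (nat_lit 10) (.ch (nat_lit 7) (.ev (nat_lit 576) (nat_lit 162727989805120) (.nd (nat_lit 992)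
 (.br (nat_lit 9) (.br (nat_lit 2) (.ch (nat_lit 1) (.ev (nat_lit 1008) (nat_lit 4503599627370496) (.ev
 (nat_lit 1204) (nat_lit 1126174784749568) (.ev (nat_lit 1213) (nat_lit 562949953421312) .dd)))) (.ch (nat_lit
 2) (.ev (nat_lit 1008) (nat_lit 1688849860263936) (.ev (nat_lit 1056) (nat_lit 4503874505277440) .dd)))) (.br
 (nat_lit 10) (.ch (nat_lit 9) (.ev (nat_lit 1008) (nat_lit 5629774412120064) (.ev (nat_lit 1021) (nat_lit
 562949953421312) .dd))) (.ch (nat_lit 10) (.ev (nat_lit 1008) (nat_lit 5629774412120064) (.ev (nat_lit 1021)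
 (nat_lit 562949953421312) .dd)))))))) (.ch (nat_lit 10) (.ev (nat_lit 576) (nat_lit 6355452086845440) (.nd
 (nat_lit 992) (.br (nat_lit 2) (.ch (nat_lit 0) (.ev (nat_lit 1366) (nat_lit 268435456) (.nd (nat_lit 1392)
 (.br (nat_lit 3) (.ch (nat_lit 1) (.ev (nat_lit 1408) (nat_lit 65600) .dd)) (.ch (nat_lit 3) (.fin (nat_lit
 576440411330396738))))))) (.br (nat_lit 9) (.ch (nat_lit 2) (.ev (nat_lit 1008) (nat_lit 268501056) .dd)) (.ch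
 (nat_lit 9) (.ev (nat_lit 1008) (nat_lit 268501056) .dd))))))))))))))))) (.ch (nat_lit 33) (.ev (nat_lit 52)
 (nat_lit 5067924507268128) (.ev (nat_lit 84) (nat_lit 64) (.ev (nat_lit 116) (nat_lit 17594333528576) (.ev
 (nat_lit 196) (nat_lit 281474976972800) (.ev (nat_lit 260) (nat_lit 268435456) (.ev (nat_lit 432) (nat_lit
 32768) (.nd (nat_lit 560) (.br (nat_lit 5) (.br (nat_lit 1) (.ch (nat_lit 0) (.ev (nat_lit 576) (nat_lit
 1125899906973696) (.nd (nat_lit 992) (.br (nat_lit 5) (.br (nat_lit 2) (.ch (nat_lit 1) (.ev (nat_lit 1008)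
 (nat_lit 145204254343168) (.fin (nat_lit 576455804482699821)))) (.br (nat_lit 4) (.ch (nat_lit 2) (.ev
 (nat_lit 1008) (nat_lit 140806224609280) (.ev (nat_lit 1204) (nat_lit 4398046511104) (.ev (nat_lit 1213)
 (nat_lit 8796093022208) .dd)))) (.ch (nat_lit 4) (.ev (nat_lit 1008) (nat_lit 145204271120384) (.ev (nat_lit
 1021) (nat_lit 8796093022208) .dd))))) (.br (nat_lit 7) (.ch (nat_lit 5) (.ev (nat_lit 1008) (nat_lit
 154000364142592) .dd)) (.br (nat_lit 8) (.ch (nat_lit 7) (.ev (nat_lit 1008) (nat_lit 13194156310528) (.ev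
 (nat_lit 1056) (nat_lit 140737488355328) (.ev (nat_lit 1069) (nat_lit 68719476736) .dd)))) (.ch (nat_lit 8)
 (.ev (nat_lit 1008) (nat_lit 153931644665856) (.ev (nat_lit 1021) (nat_lit 68719476736) .dd))))))))) (.ch
 (nat_lit 1) (.ev (nat_lit 576) (nat_lit 1266706114674688) (.ev (nat_lit 688) (nat_lit 131072) (.nd (nat_lit
 992) (.br (nat_lit 5) (.br (nat_lit 3) (.ch (nat_lit 2) (.ev (nat_lit 1008) (nat_lit 16777216) (.ev (nat_lit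
 1204) (nat_lit 8796093022208) (.ev (nat_lit 1213) (nat_lit 4398046511104) .dd)))) (.ch (nat_lit 3) (.ev
 (nat_lit 1008) (nat_lit 8796109799424) (.ev (nat_lit 1021) (nat_lit 4398046511104) .dd)))) (.br (nat_lit 7)
 (.ch (nat_lit 5) (.ev (nat_lit 1008) (nat_lit 4398063288320) (.ev (nat_lit 1021) (nat_lit 8796093022208)
 .dd))) (.br (nat_lit 10) (.ch (nat_lit 7) (.ev (nat_lit 1008) (nat_lit 13194139533312) (.ev (nat_lit 1021)
 (nat_lit 16777216) .dd))) (.ch (nat_lit 10) (.ev (nat_lit 1008) (nat_lit 8796109799424) (.ev (nat_lit 1021)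
 (nat_lit 4398046511104) .dd))))))))))) (.br (nat_lit 7) (.ch (nat_lit 5) (.ev (nat_lit 576) (nat_lit
 149533598154752) (.nd (nat_lit 992) (.br (nat_lit 2) (.ch (nat_lit 1) (.ev (nat_lit 1008) (nat_lit
 1130366672830464) (.ev (nat_lit 1021) (nat_lit 131072) .dd))) (.br (nat_lit 9) (.ch (nat_lit 2) (.ev (nat_lit
 1008) (nat_lit 1125899906842624) (.ev (nat_lit 1268) (nat_lit 131072) (.fin (nat_lit 576442610351555114)))))
 (.ch (nat_lit 9) (.ev (nat_lit 1008) (nat_lit 68719476736) (.ev (nat_lit 1268) (nat_lit 4398046511104) (.nd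
 (nat_lit 1392) (.br (nat_lit 9) (.ch (nat_lit 3) (.ev (nat_lit 1408) (nat_lit 1125899906973696) .dd)) (.ch
 (nat_lit 9) (.fin (nat_lit 576471197641294410))))))))))))) (.ch (nat_lit 7) (.ev (nat_lit 576) (nat_lit
 153931628019712) (.ev (nat_lit 912) (nat_lit 1125899906842624) (.nd (nat_lit 992) (.br (nat_lit 2) (.br
 (nat_lit 1) (.ch (nat_lit 0) (.ev (nat_lit 1008) (nat_lit 16777216) (.ev (nat_lit 1021) (nat_lit 68719476736)
 .dd))) (.ch (nat_lit 1) (.ev (nat_lit 1008) (nat_lit 68736253952) .dd))) (.br (nat_lit 5) (.ch (nat_lit 2)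
 (.ev (nat_lit 1008) (nat_lit 68719476736) (.ev (nat_lit 1021) (nat_lit 16777216) .dd))) (.br (nat_lit 9) (.ch
 (nat_lit 5) (.ev (nat_lit 1008) (nat_lit 16777216) (.ev (nat_lit 1021) (nat_lit 68719476736) .dd))) (.ch
 (nat_lit 9) (.ev (nat_lit 1008) (nat_lit 16777216) (.ev (nat_lit 1021) (nat_lit 68719476736)
 .dd))))))))))))))))))))) (.br (nat_lit 36) (.ch (nat_lit 35) (.ev (nat_lit 52) (nat_lit 68988305920) (.ev
 (nat_lit 84) (nat_lit 1143492092887072) (.ev (nat_lit 116) (nat_lit 140737488355328) (.ev (nat_lit 228)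
 (nat_lit 4503599627370496) (.ev (nat_lit 260) (nat_lit 274877906944) (.ev (nat_lit 272) (nat_lit
 5497558204416) (.nd (nat_lit 560) (.br (nat_lit 7) (.ch (nat_lit 2) (.ev (nat_lit 576) (nat_lit
 853223187451968) (.nd (nat_lit 992) (.br (nat_lit 7) (.br (nat_lit 6) (.ch (nat_lit 1) (.ev (nat_lit 1008)
 (nat_lit 536871936) .dd)) (.ch (nat_lit 6) (.ev (nat_lit 1008) (nat_lit 1024) (.ev (nat_lit 1021) (nat_lit
 536870912) .dd)))) (.br (nat_lit 8) (.ch (nat_lit 7) (.ev (nat_lit 1008) (nat_lit 536871936) .dd)) (.br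
 (nat_lit 9) (.ch (nat_lit 8) (.ev (nat_lit 1008) (nat_lit 536871936) .dd)) (.ch (nat_lit 9) (.ev (nat_lit
 1008) (nat_lit 536870912) (.ev (nat_lit 1021) (nat_lit 1024) .dd))))))))) (.br (nat_lit 10) (.ch (nat_lit 7)
 (.ev (nat_lit 576) (nat_lit 2164294656) (.nd (nat_lit 992) (.br (nat_lit 5) (.ch (nat_lit 2) (.ev (nat_lit
 1008) (nat_lit 853221023158272) (.ev (nat_lit 1024) (nat_lit 64) (.ev (nat_lit 1037) (nat_lit 536870912)
 .dd)))) (.ch (nat_lit 5) (.ev (nat_lit 1008) (nat_lit 536870976) (.ev (nat_lit 1216) (nat_lit 8796093026304)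
 (.fin (nat_lit 576471197641294399))))))))) (.ch (nat_lit 10) (.ev (nat_lit 576) (nat_lit 290271606607936) (.ev
 (nat_lit 832) (nat_lit 562949953421312) (.ev (nat_lit 886) (nat_lit 16777216) (.nd (nat_lit 992) (.br (nat_lit
 6) (.ch (nat_lit 2) (.ev (nat_lit 1008) (nat_lit 2147483648) (.fin (nat_lit 576471197667508802)))) (.ch
 (nat_lit 6) (.ev (nat_lit 1008) (nat_lit 1024) (.ev (nat_lit 1248) (nat_lit 2147516416) .dd)))))))))))))))))))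
 (.ch (nat_lit 36) (.ev (nat_lit 52) (nat_lit 4816137955116032) (.ev (nat_lit 84) (nat_lit 140738025226240)
 (.ev (nat_lit 116) (nat_lit 96) (.nd (nat_lit 560) (.br (nat_lit 7) (.br (nat_lit 1) (.ch (nat_lit 0) (.ev
 (nat_lit 576) (nat_lit 1690018360234496) (.ev (nat_lit 589) (nat_lit 16777216) .dd))) (.br (nat_lit 2) (.ch
 (nat_lit 1) (.ev (nat_lit 576) (nat_lit 1168516579328) (.nd (nat_lit 992) (.br (nat_lit 9) (.br (nat_lit 5)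
 (.ch (nat_lit 3) (.ev (nat_lit 1008) (nat_lit 131584) (.ev (nat_lit 1136) (nat_lit 1125899906842624) (.ev
 (nat_lit 1204) (nat_lit 4096) (.ev (nat_lit 1248) (nat_lit 562949953454080) .dd))))) (.ch (nat_lit 5) (.ev
 (nat_lit 1008) (nat_lit 1688849860431872) (.ev (nat_lit 1021) (nat_lit 512) .dd)))) (.br (nat_lit 10) (.ch
 (nat_lit 9) (.ev (nat_lit 1008) (nat_lit 1688849860395520) (.ev (nat_lit 1204) (nat_lit 4096) (.ev (nat_lit
 1213) (nat_lit 32768) .dd)))) (.ch (nat_lit 10) (.ev (nat_lit 1008) (nat_lit 1688849860297216) (.ev (nat_lit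
 1024) (nat_lit 131072) (.ev (nat_lit 1037) (nat_lit 4096) .dd))))))))) (.ch (nat_lit 2) (.ev (nat_lit 576)
 (nat_lit 1126999435677696) (.nd (nat_lit 992) (.br (nat_lit 6) (.br (nat_lit 2) (.ch (nat_lit 1) (.ev (nat_lit
 1008) (nat_lit 68719477248) (.ev (nat_lit 1152) (nat_lit 268435456) (.ev (nat_lit 1165) (nat_lit
 562949953421312) .dd)))) (.ch (nat_lit 2) (.ev (nat_lit 1008) (nat_lit 563018672898560) (.ev (nat_lit 1021)
 (nat_lit 268435456) .dd)))) (.br (nat_lit 8) (.ch (nat_lit 6) (.ev (nat_lit 1008) (nat_lit 563018941334016)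
 .dd)) (.br (nat_lit 9) (.ch (nat_lit 8) (.ev (nat_lit 1008) (nat_lit 512) (.ev (nat_lit 1024) (nat_lit
 68719476736) (.ev (nat_lit 1204) (nat_lit 268435456) (.ev (nat_lit 1213) (nat_lit 562949953421312) .dd)))))
 (.ch (nat_lit 9) (.ev (nat_lit 1008) (nat_lit 68987912192) (.ev (nat_lit 1056) (nat_lit 512) (.ev (nat_lit
 1069) (nat_lit 562949953421312) .dd)))))))))))) (.br (nat_lit 9) (.ch (nat_lit 7) (.ev (nat_lit 576) (nat_lit
 1690018359935488) (.nd (nat_lit 992) (.br (nat_lit 5) (.ch (nat_lit 0) (.ev (nat_lit 1008) (nat_lit 17076224)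
 .dd)) (.br (nat_lit 10) (.ch (nat_lit 5) (.ev (nat_lit 1040) (nat_lit 262144) (.ev (nat_lit 1204) (nat_lit
 32768) (.nd (nat_lit 1392) (.br (nat_lit 10) (.ch (nat_lit 4) (.fin (nat_lit 576449207438098980))) (.ch
 (nat_lit 10) (.ev (nat_lit 1408) (nat_lit 16781312) .dd))))))) (.ch (nat_lit 10) (.ev (nat_lit 1008) (nat_lit
 16814080) (.ev (nat_lit 1021) (nat_lit 262144) .dd)))))))) (.br (nat_lit 10) (.ch (nat_lit 9) (.ev (nat_lit
 576) (nat_lit 563018958508032) (.nd (nat_lit 992) (.br (nat_lit 5) (.br (nat_lit 2) (.ch (nat_lit 0) (.ev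
 (nat_lit 1008) (nat_lit 1099511627776) (.ev (nat_lit 1204) (nat_lit 1125899906843136) (.ev (nat_lit 1213)
 (nat_lit 32768) .dd)))) (.ch (nat_lit 2) (.ev (nat_lit 1008) (nat_lit 1099511628288) (.ev (nat_lit 1056)
 (nat_lit 1125899906875392) .dd)))) (.br (nat_lit 7) (.ch (nat_lit 5) (.ev (nat_lit 1008) (nat_lit
 1126999418503680) .dd)) (.ch (nat_lit 7) (.ev (nat_lit 1008) (nat_lit 1125899906875904) (.ev (nat_lit 1021)
 (nat_lit 1099511627776) .dd)))))))) (.ch (nat_lit 10) (.ev (nat_lit 576) (nat_lit 1168499970560) (.nd (nat_lit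
 992) (.br (nat_lit 9) (.br (nat_lit 6) (.ch (nat_lit 5) (.ev (nat_lit 1008) (nat_lit 562949970198528) (.ev
 (nat_lit 1021) (nat_lit 1125899906842624) .dd))) (.ch (nat_lit 6) (.ev (nat_lit 1008) (nat_lit 16777216) (.ev
 (nat_lit 1216) (nat_lit 562949953421312) (.ev (nat_lit 1229) (nat_lit 1125899906842624) .dd))))) (.br (nat_lit
 10) (.ch (nat_lit 9) (.ev (nat_lit 1008) (nat_lit 562949953421312) (.ev (nat_lit 1024) (nat_lit 16777216) (.ev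
 (nat_lit 1037) (nat_lit 1125899906842624) .dd)))) (.ch (nat_lit 10) (.ev (nat_lit 1008) (nat_lit
 1688849877041152) .dd))))))))))))))))))))))

/-- Subtrie. -/
noncomputable def T4 : Tr := (.ev (nat_lit 20) (nat_lit 6216709963057664) (.nd (nat_lit 33) (.br (nat_lit 19)
 (.br (nat_lit 11) (.br (nat_lit 7) (.br (nat_lit 4) (.ch (nat_lit 1) (.ev (nat_lit 52) (nat_lit 8596259904)
 (.ev (nat_lit 84) (nat_lit 9345848840192) (.nd (nat_lit 560) (.br (nat_lit 4) (.br (nat_lit 2) (.ch (nat_lit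
 0) (.ev (nat_lit 576) (nat_lit 281750391488560) (.ev (nat_lit 628) (nat_lit 140737488355328) (.nd (nat_lit
 992) (.br (nat_lit 5) (.ch (nat_lit 2) (.ev (nat_lit 1008) (nat_lit 71468255805440) (.fin (nat_lit
 576464600585159234)))) (.br (nat_lit 10) (.ch (nat_lit 5) (.ev (nat_lit 1008) (nat_lit 137439084544) (.ev
 (nat_lit 1040) (nat_lit 1099511627776) (.ev (nat_lit 1053) (nat_lit 70368744177664) .dd)))) (.ch (nat_lit 10)
 (.ev (nat_lit 1008) (nat_lit 71605694758912) (.ev (nat_lit 1021) (nat_lit 131072) .dd))))))))) (.ch (nat_lit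
 2) (.ev (nat_lit 576) (nat_lit 140874927439888) (.nd (nat_lit 992) (.br (nat_lit 7) (.br (nat_lit 5) (.ch
 (nat_lit 1) (.ev (nat_lit 1008) (nat_lit 71468792676352) (.ev (nat_lit 1204) (nat_lit 32) (.fin (nat_lit
 576482192797418055))))) (.ch (nat_lit 5) (.ev (nat_lit 1008) (nat_lit 281474976710656) (.ev (nat_lit 1024)
 (nat_lit 70368744177664) (.ev (nat_lit 1168) (nat_lit 536870912) (.ev (nat_lit 1204) (nat_lit 274877906944)
 (.fin (nat_lit 576468998639010366)))))))) (.br (nat_lit 10) (.ch (nat_lit 7) (.ev (nat_lit 1008) (nat_lit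
 352119135666208) (.ev (nat_lit 1021) (nat_lit 1099511627776) .dd))) (.ch (nat_lit 10) (.ev (nat_lit 1008)
 (nat_lit 351844257759264) (.ev (nat_lit 1040) (nat_lit 274877906944) (.ev (nat_lit 1053) (nat_lit
 1099511627776) .dd)))))))))) (.br (nat_lit 5) (.ch (nat_lit 4) (.ev (nat_lit 576) (nat_lit 353218110554112)
 (.nd (nat_lit 992) (.br (nat_lit 7) (.ch (nat_lit 4) (.ev (nat_lit 1008) (nat_lit 140875464179760) .dd)) (.br
 (nat_lit 10) (.ch (nat_lit 7) (.ev (nat_lit 1008) (nat_lit 140875464179744) (.ev (nat_lit 1021) (nat_lit 16)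
 .dd))) (.ch (nat_lit 10) (.ev (nat_lit 1008) (nat_lit 16) (.ev (nat_lit 1204) (nat_lit 140874927308832) (.ev
 (nat_lit 1213) (nat_lit 536870912) .dd))))))))) (.br (nat_lit 8) (.ch (nat_lit 5) (.ev (nat_lit 576) (nat_lit
 353355549507600) (.ev (nat_lit 596) (nat_lit 140737488355328) (.nd (nat_lit 992) (.br (nat_lit 6) (.br
 (nat_lit 4) (.ch (nat_lit 3) (.ev (nat_lit 1204) (nat_lit 32) (.ev (nat_lit 1213) (nat_lit 536870912) .dd)))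
 (.ch (nat_lit 4) (.ev (nat_lit 1008) (nat_lit 32) (.ev (nat_lit 1021) (nat_lit 536870912) .dd)))) (.br
 (nat_lit 7) (.ch (nat_lit 6) (.ev (nat_lit 1008) (nat_lit 536870944) .dd)) (.ch (nat_lit 7) (.ev (nat_lit
 1008) (nat_lit 32) (.ev (nat_lit 1021) (nat_lit 536870912) .dd))))))))) (.ch (nat_lit 8) (.ev (nat_lit 576)
 (nat_lit 422625318928432) (.nd (nat_lit 992) (.br (nat_lit 6) (.br (nat_lit 3) (.ch (nat_lit 1) (.ev (nat_lit
 1008) (nat_lit 1099511627776) (.ev (nat_lit 1021) (nat_lit 70368744177664) .dd))) (.ch (nat_lit 3) (.ev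
 (nat_lit 1216) (nat_lit 1099511627776) (.ev (nat_lit 1229) (nat_lit 70368744177664) .dd)))) (.br (nat_lit 8)
 (.ch (nat_lit 6) (.ev (nat_lit 1008) (nat_lit 1099511627776) (.ev (nat_lit 1021) (nat_lit 70368744177664)
 .dd))) (.ch (nat_lit 8) (.ev (nat_lit 1008) (nat_lit 71468255805440) .dd)))))))))))))) (.br (nat_lit 5) (.ch
 (nat_lit 4) (.ev (nat_lit 52) (nat_lit 282849903117312) (.ev (nat_lit 84) (nat_lit 4194304) (.ev (nat_lit 96)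
 (nat_lit 220598112522352) .dd)))) (.ch (nat_lit 5) (.ev (nat_lit 52) (nat_lit 1236956872704) (.ev (nat_lit 64)
 (nat_lit 502211062961264) .dd))))) (.br (nat_lit 8) (.ch (nat_lit 7) (.ev (nat_lit 52) (nat_lit 9354445194240)
 (.ev (nat_lit 84) (nat_lit 137438953472) (.ev (nat_lit 116) (nat_lit 4128) (.ev (nat_lit 196) (nat_lit
 281474976710656) (.ev (nat_lit 512) (nat_lit 1099511627776) (.nd (nat_lit 560) (.br (nat_lit 5) (.ch (nat_lit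
 4) (.ev (nat_lit 576) (nat_lit 211381647310912) (.nd (nat_lit 992) (.br (nat_lit 7) (.br (nat_lit 4) (.ch
 (nat_lit 2) (.ev (nat_lit 1008) (nat_lit 32784) .dd)) (.ch (nat_lit 4) (.ev (nat_lit 1008) (nat_lit 32784)
 .dd))) (.br (nat_lit 9) (.ch (nat_lit 7) (.ev (nat_lit 1024) (nat_lit 32784) .dd)) (.br (nat_lit 10) (.ch
 (nat_lit 9) (.ev (nat_lit 1008) (nat_lit 32768) (.ev (nat_lit 1021) (nat_lit 16) .dd))) (.ch (nat_lit 10) (.ev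
 (nat_lit 1008) (nat_lit 16) (.ev (nat_lit 1021) (nat_lit 32768) .dd))))))))) (.br (nat_lit 6) (.ch (nat_lit 5)
 (.ev (nat_lit 576) (nat_lit 16) (.nd (nat_lit 992) (.br (nat_lit 4) (.br (nat_lit 3) (.ch (nat_lit 0) (.ev
 (nat_lit 1008) (nat_lit 211106769436736) (.ev (nat_lit 1021) (nat_lit 274877906944) .dd))) (.ch (nat_lit 3)
 (.ev (nat_lit 1008) (nat_lit 211381110472704) (.fin (nat_lit 576486590827151946))))) (.br (nat_lit 6) (.ch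
 (nat_lit 4) (.ev (nat_lit 1008) (nat_lit 70368744177728) (.ev (nat_lit 1088) (nat_lit 536870912) (.ev (nat_lit
 1204) (nat_lit 32768) (.fin (nat_lit 576460202522919495)))))) (.br (nat_lit 7) (.ch (nat_lit 6) (.ev (nat_lit
 1008) (nat_lit 140738025259072) (.ev (nat_lit 1024) (nat_lit 70643622084608) .dd))) (.ch (nat_lit 7) (.ev
 (nat_lit 1008) (nat_lit 141012366295104) (.ev (nat_lit 1024) (nat_lit 70369281048576) .dd))))))))) (.ch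
 (nat_lit 6) (.ev (nat_lit 576) (nat_lit 141012903166016) (.nd (nat_lit 992) (.br (nat_lit 5) (.br (nat_lit 4)
 (.ch (nat_lit 2) (.ev (nat_lit 1008) (nat_lit 16) (.ev (nat_lit 1021) (nat_lit 70368744177664) .dd))) (.ch
 (nat_lit 4) (.ev (nat_lit 1008) (nat_lit 70368744177680) .dd))) (.br (nat_lit 8) (.ch (nat_lit 5) (.ev
 (nat_lit 1008) (nat_lit 16) (.ev (nat_lit 1021) (nat_lit 70368744177664) .dd))) (.br (nat_lit 10) (.ch
 (nat_lit 8) (.ev (nat_lit 1008) (nat_lit 70368744177664) (.ev (nat_lit 1021) (nat_lit 16) .dd))) (.ch (nat_lit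
 10) (.ev (nat_lit 1008) (nat_lit 70368744177680) .dd))))))))))))))))) (.br (nat_lit 10) (.ch (nat_lit 8) (.ev
 (nat_lit 52) (nat_lit 501652717048928) (.ev (nat_lit 116) (nat_lit 1099511627792) (.ev (nat_lit 240) (nat_lit
 695791157248) .dd)))) (.ch (nat_lit 10) (.ev (nat_lit 52) (nat_lit 211106232664128) (.ev (nat_lit 84) (nat_lit
 9126805520) (.ev (nat_lit 148) (nat_lit 282849366245376) (.ev (nat_lit 196) (nat_lit 4194304) (.nd (nat_lit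
 560) (.br (nat_lit 6) (.br (nat_lit 2) (.ch (nat_lit 0) (.ev (nat_lit 576) (nat_lit 9345850970144) (.nd
 (nat_lit 992) (.br (nat_lit 3) (.br (nat_lit 1) (.ch (nat_lit 0) (.ev (nat_lit 1024) (nat_lit 1024) (.ev
 (nat_lit 1037) (nat_lit 137438953472) .dd))) (.ch (nat_lit 1) (.ev (nat_lit 1008) (nat_lit 137438954496)
 .dd))) (.br (nat_lit 5) (.ch (nat_lit 3) (.ev (nat_lit 1008) (nat_lit 1024) (.ev (nat_lit 1021) (nat_lit
 137438953472) .dd))) (.br (nat_lit 10) (.ch (nat_lit 5) (.ev (nat_lit 1008) (nat_lit 1024) (.ev (nat_lit 1021)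
 (nat_lit 137438953472) .dd))) (.ch (nat_lit 10) (.ev (nat_lit 1008) (nat_lit 137438954496) .dd)))))))) (.ch
 (nat_lit 2) (.ev (nat_lit 576) (nat_lit 8933534076960) (.ev (nat_lit 596) (nat_lit 1024) (.nd (nat_lit 992)
 (.br (nat_lit 5) (.br (nat_lit 1) (.ch (nat_lit 0) (.ev (nat_lit 1040) (nat_lit 549755813888) (.ev (nat_lit
 1053) (nat_lit 32768) .dd))) (.ch (nat_lit 1) (.ev (nat_lit 1008) (nat_lit 32768) (.ev (nat_lit 1021) (nat_lit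
 549755813888) .dd)))) (.br (nat_lit 7) (.ch (nat_lit 5) (.ev (nat_lit 1008) (nat_lit 549755813888) (.ev
 (nat_lit 1021) (nat_lit 32768) .dd))) (.ch (nat_lit 7) (.ev (nat_lit 1008) (nat_lit 549755846656) .dd)))))))))
 (.br (nat_lit 7) (.ch (nat_lit 6) (.ev (nat_lit 576) (nat_lit 549757948928) (.nd (nat_lit 992) (.br (nat_lit
 6) (.br (nat_lit 4) (.ch (nat_lit 3) (.ev (nat_lit 1008) (nat_lit 8796093022240) (.ev (nat_lit 1021) (nat_lit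
 137438953472) .dd))) (.br (nat_lit 5) (.ch (nat_lit 4) (.ev (nat_lit 1008) (nat_lit 137438953504) (.ev
 (nat_lit 1021) (nat_lit 8796093022208) .dd))) (.ch (nat_lit 5) (.ev (nat_lit 1008) (nat_lit 8933531975680)
 (.ev (nat_lit 1021) (nat_lit 32) .dd))))) (.br (nat_lit 8) (.ch (nat_lit 6) (.ev (nat_lit 1008) (nat_lit
 137438953504) (.ev (nat_lit 1021) (nat_lit 8796093022208) .dd))) (.br (nat_lit 10) (.ch (nat_lit 8) (.ev
 (nat_lit 1008) (nat_lit 8796093022240) (.ev (nat_lit 1021) (nat_lit 137438953472) .dd))) (.ch (nat_lit 10)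
 (.ev (nat_lit 1008) (nat_lit 32) (.ev (nat_lit 1024) (nat_lit 137438953472) (.ev (nat_lit 1037) (nat_lit
 8796093022208) .dd)))))))))) (.ch (nat_lit 7) (.ev (nat_lit 576) (nat_lit 8796093022240) (.nd (nat_lit 992)
 (.br (nat_lit 3) (.br (nat_lit 2) (.ch (nat_lit 1) (.ev (nat_lit 1008) (nat_lit 687194772480) (.ev (nat_lit
 1056) (nat_lit 2129920) .dd))) (.ch (nat_lit 2) (.ev (nat_lit 1040) (nat_lit 2097152) (.ev (nat_lit 1184)
 (nat_lit 4096) (.ev (nat_lit 1268) (nat_lit 1024) (.ev (nat_lit 1382) (nat_lit 549755813888) (.nd (nat_lit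
 1392) (.br (nat_lit 2) (.ch (nat_lit 0) (.ev (nat_lit 1408) (nat_lit 137438986240) .dd)) (.ch (nat_lit 2)
 (.fin (nat_lit 576453605482512951))))))))))) (.br (nat_lit 5) (.ch (nat_lit 3) (.ev (nat_lit 1008) (nat_lit
 549757944832) (.ev (nat_lit 1204) (nat_lit 4096) (.ev (nat_lit 1213) (nat_lit 137438953472) .dd)))) (.br
 (nat_lit 9) (.ch (nat_lit 5) (.ev (nat_lit 1008) (nat_lit 687194772480) (.ev (nat_lit 1204) (nat_lit 32768)
 (.ev (nat_lit 1213) (nat_lit 2097152) .dd)))) (.ch (nat_lit 9) (.ev (nat_lit 1008) (nat_lit 549757944832) (.ev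
 (nat_lit 1204) (nat_lit 137438953472) (.ev (nat_lit 1213) (nat_lit 4096) .dd))))))))))))))))))))) (.br
 (nat_lit 15) (.br (nat_lit 12) (.ch (nat_lit 11) (.ev (nat_lit 52) (nat_lit 150495654188032) (.ev (nat_lit 84)
 (nat_lit 2097152) (.ev (nat_lit 148) (nat_lit 281474976710656) (.ev (nat_lit 196) (nat_lit 1099511627776) (.nd
 (nat_lit 560) (.br (nat_lit 5) (.br (nat_lit 2) (.ch (nat_lit 0) (.ev (nat_lit 576) (nat_lit 9126838368) (.nd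
 (nat_lit 992) (.br (nat_lit 5) (.br (nat_lit 1) (.ch (nat_lit 0) (.ev (nat_lit 1008) (nat_lit 16) (.ev
 (nat_lit 1216) (nat_lit 70368744177664) (.ev (nat_lit 1229) (nat_lit 4194304) .dd)))) (.ch (nat_lit 1) (.ev
 (nat_lit 1008) (nat_lit 70368744177680) (.ev (nat_lit 1021) (nat_lit 4194304) .dd)))) (.br (nat_lit 7) (.ch
 (nat_lit 5) (.ev (nat_lit 1008) (nat_lit 70368748371984) .dd)) (.br (nat_lit 10) (.ch (nat_lit 7) (.ev
 (nat_lit 1008) (nat_lit 70368748371984) .dd)) (.ch (nat_lit 10) (.ev (nat_lit 1008) (nat_lit 70368748371968)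
 (.ev (nat_lit 1021) (nat_lit 16) .dd))))))))) (.br (nat_lit 4) (.ch (nat_lit 2) (.ev (nat_lit 576) (nat_lit
 8594161696) (.nd (nat_lit 992) (.br (nat_lit 5) (.br (nat_lit 4) (.ch (nat_lit 0) (.ev (nat_lit 1008) (nat_lit
 536870976) (.ev (nat_lit 1136) (nat_lit 16) (.ev (nat_lit 1149) (nat_lit 70368744177664) .dd)))) (.ch (nat_lit
 4) (.ev (nat_lit 1008) (nat_lit 70368744177744) (.ev (nat_lit 1021) (nat_lit 536870912) .dd)))) (.br (nat_lit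
 9) (.ch (nat_lit 5) (.ev (nat_lit 1008) (nat_lit 70369281048656) .dd)) (.ch (nat_lit 9) (.ev (nat_lit 1008)
 (nat_lit 70368744177680) (.ev (nat_lit 1232) (nat_lit 536870976) .dd)))))))) (.ch (nat_lit 4) (.ev (nat_lit
 576) (nat_lit 70368744210544) (.nd (nat_lit 992) (.br (nat_lit 10) (.ch (nat_lit 7) (.ev (nat_lit 1008)
 (nat_lit 536870912) (.ev (nat_lit 1040) (nat_lit 8594128896) .dd))) (.ch (nat_lit 10) (.ev (nat_lit 1008)
 (nat_lit 4194304) (.ev (nat_lit 1232) (nat_lit 8589934592) (.ev (nat_lit 1245) (nat_lit 536870912)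
 .dd)))))))))) (.br (nat_lit 6) (.ch (nat_lit 5) (.ev (nat_lit 576) (nat_lit 8594128944) (.nd (nat_lit 992)
 (.br (nat_lit 6) (.br (nat_lit 4) (.ch (nat_lit 3) (.ev (nat_lit 1008) (nat_lit 70368744177664) (.ev (nat_lit
 1040) (nat_lit 64) (.ev (nat_lit 1072) (nat_lit 536870912) (.ev (nat_lit 1085) (nat_lit 32768) .dd))))) (.ch
 (nat_lit 4) (.ev (nat_lit 1008) (nat_lit 32832) (.ev (nat_lit 1024) (nat_lit 536870912) (.ev (nat_lit 1037)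
 (nat_lit 70368744177664) .dd))))) (.br (nat_lit 7) (.ch (nat_lit 6) (.ev (nat_lit 1008) (nat_lit
 70369281081408) .dd)) (.br (nat_lit 9) (.ch (nat_lit 7) (.ev (nat_lit 1008) (nat_lit 32832) (.ev (nat_lit
 1204) (nat_lit 536870912) (.ev (nat_lit 1213) (nat_lit 70368744177664) .dd)))) (.ch (nat_lit 9) (.ev (nat_lit
 1008) (nat_lit 536903744) (.ev (nat_lit 1021) (nat_lit 70368744177664) .dd))))))))) (.br (nat_lit 7) (.ch
 (nat_lit 6) (.ev (nat_lit 576) (nat_lit 70377871016016) (.nd (nat_lit 992) (.br (nat_lit 5) (.ch (nat_lit 4)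
 (.ev (nat_lit 1008) (nat_lit 4194336) .dd)) (.br (nat_lit 6) (.ch (nat_lit 5) (.ev (nat_lit 1204) (nat_lit 32)
 (.ev (nat_lit 1213) (nat_lit 4194304) .dd))) (.ch (nat_lit 6) (.ev (nat_lit 1008) (nat_lit 4194304) (.ev
 (nat_lit 1021) (nat_lit 32) .dd)))))))) (.ch (nat_lit 7) (.ev (nat_lit 576) (nat_lit 70369285275648) (.ev
 (nat_lit 788) (nat_lit 8589934592) (.nd (nat_lit 992) (.br (nat_lit 4) (.br (nat_lit 2) (.ch (nat_lit 1) (.ev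
 (nat_lit 1008) (nat_lit 48) (.ev (nat_lit 1021) (nat_lit 64) .dd))) (.ch (nat_lit 2) (.ev (nat_lit 1008)
 (nat_lit 96) (.ev (nat_lit 1021) (nat_lit 16) .dd)))) (.br (nat_lit 10) (.ch (nat_lit 4) (.ev (nat_lit 1008)
 (nat_lit 48) (.ev (nat_lit 1021) (nat_lit 64) .dd))) (.ch (nat_lit 10) (.ev (nat_lit 1204) (nat_lit 32) (.fin
 (nat_lit 576466799611560510))))))))))))))))))) (.br (nat_lit 13) (.ch (nat_lit 12) (.ev (nat_lit 52) (nat_lit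
 687731675232) (.ev (nat_lit 84) (nat_lit 8589934592) (.ev (nat_lit 116) (nat_lit 281474976710656) (.ev
 (nat_lit 196) (nat_lit 70368744177664) (.ev (nat_lit 228) (nat_lit 274877906944) (.nd (nat_lit 560) (.br
 (nat_lit 4) (.br (nat_lit 2) (.ch (nat_lit 0) (.ev (nat_lit 576) (nat_lit 8796093154320) (.nd (nat_lit 992)
 (.br (nat_lit 5) (.ch (nat_lit 0) (.ev (nat_lit 1008) (nat_lit 1099513724928) (.ev (nat_lit 1204) (nat_lit
 4194304) (.ev (nat_lit 1213) (nat_lit 140737488355328) .dd)))) (.br (nat_lit 10) (.ch (nat_lit 5) (.ev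
 (nat_lit 1268) (nat_lit 140737492549632) (.nd (nat_lit 1392) (.br (nat_lit 9) (.ch (nat_lit 5) (.ev (nat_lit
 1408) (nat_lit 1099513724928) .dd)) (.ch (nat_lit 9) (.fin (nat_lit 576475595689902666))))))) (.ch (nat_lit
 10) (.ev (nat_lit 1008) (nat_lit 141837006274560) .dd))))))) (.ch (nat_lit 2) (.ev (nat_lit 576) (nat_lit
 150633093005312) (.nd (nat_lit 992) (.br (nat_lit 4) (.ch (nat_lit 1) (.ev (nat_lit 1008) (nat_lit 4325376)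
 (.ev (nat_lit 1204) (nat_lit 2098176) (.ev (nat_lit 1213) (nat_lit 16) .dd)))) (.br (nat_lit 7) (.ch (nat_lit
 4) (.ev (nat_lit 1008) (nat_lit 2229248) (.nd (nat_lit 1392) (.br (nat_lit 2) (.ch (nat_lit 0) (.ev (nat_lit
 1408) (nat_lit 4194320) .dd)) (.ch (nat_lit 2) (.fin (nat_lit 576464600602985050))))))) (.ch (nat_lit 7) (.ev
 (nat_lit 1008) (nat_lit 4194320) (.ev (nat_lit 1268) (nat_lit 2097152) (.fin (nat_lit
 576482192772252245))))))))))) (.br (nat_lit 6) (.ch (nat_lit 4) (.ev (nat_lit 576) (nat_lit 9895611073552)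
 (.ev (nat_lit 589) (nat_lit 140737488355328) .dd))) (.br (nat_lit 8) (.ch (nat_lit 6) (.ev (nat_lit 576)
 (nat_lit 141837002212368) (.nd (nat_lit 992) (.br (nat_lit 5) (.ch (nat_lit 3) (.ev (nat_lit 1008) (nat_lit
 8796093022208) (.ev (nat_lit 1021) (nat_lit 4194304) .dd))) (.br (nat_lit 8) (.ch (nat_lit 5) (.ev (nat_lit
 1008) (nat_lit 8796097216512) .dd)) (.ch (nat_lit 8) (.ev (nat_lit 1008) (nat_lit 4194304) (.ev (nat_lit 1021)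
 (nat_lit 8796093022208) .dd)))))))) (.ch (nat_lit 8) (.ev (nat_lit 576) (nat_lit 150633099428880)
 .dd)))))))))))) (.ch (nat_lit 13) (.ev (nat_lit 52) (nat_lit 137445408768) (.ev (nat_lit 84) (nat_lit
 549755813920) (.ev (nat_lit 116) (nat_lit 281474976710656) (.ev (nat_lit 128) (nat_lit 221285841900624)
 .dd))))))) (.br (nat_lit 17) (.br (nat_lit 16) (.ch (nat_lit 15) (.ev (nat_lit 52) (nat_lit 290280196571184)
 (.ev (nat_lit 84) (nat_lit 274877906944) (.ev (nat_lit 116) (nat_lit 70506183132160) (.ev (nat_lit 148)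
 (nat_lit 4096) (.ev (nat_lit 228) (nat_lit 1099511627776) (.ev (nat_lit 528) (nat_lit 64) (.nd (nat_lit 560)
 (.br (nat_lit 5) (.br (nat_lit 4) (.ch (nat_lit 2) (.ev (nat_lit 576) (nat_lit 140737488486400) (.ev (nat_lit
 934) (nat_lit 2097152) (.nd (nat_lit 992) (.br (nat_lit 4) (.br (nat_lit 1) (.ch (nat_lit 0) (.ev (nat_lit
 1008) (nat_lit 4194304) (.ev (nat_lit 1021) (nat_lit 549755813888) .dd))) (.ch (nat_lit 1) (.ev (nat_lit 1008)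
 (nat_lit 549760008192) .dd))) (.br (nat_lit 5) (.ch (nat_lit 4) (.ev (nat_lit 1008) (nat_lit 549755813888)
 (.ev (nat_lit 1021) (nat_lit 4194304) .dd))) (.ch (nat_lit 5) (.ev (nat_lit 1008) (nat_lit 549760008192)
 .dd)))))))) (.ch (nat_lit 4) (.ev (nat_lit 576) (nat_lit 140737494777856) (.ev (nat_lit 589) (nat_lit
 549755813888) .dd)))) (.br (nat_lit 7) (.ch (nat_lit 5) (.ev (nat_lit 576) (nat_lit 140737492680704) (.nd
 (nat_lit 992) (.br (nat_lit 4) (.ch (nat_lit 3) (.ev (nat_lit 1008) (nat_lit 549755813888) (.ev (nat_lit 1021)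
 (nat_lit 2097152) .dd))) (.br (nat_lit 9) (.ch (nat_lit 4) (.ev (nat_lit 1008) (nat_lit 549757911040) .dd))
 (.ch (nat_lit 9) (.ev (nat_lit 1008) (nat_lit 2097152) (.ev (nat_lit 1021) (nat_lit 549755813888) .dd))))))))
 (.br (nat_lit 8) (.ch (nat_lit 7) (.ev (nat_lit 576) (nat_lit 549762105344) (.nd (nat_lit 992) (.br (nat_lit
 9) (.ch (nat_lit 2) (.ev (nat_lit 1008) (nat_lit 140737488355328) (.ev (nat_lit 1021) (nat_lit 131072) .dd)))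
 (.br (nat_lit 10) (.ch (nat_lit 9) (.ev (nat_lit 1008) (nat_lit 140737488355328) (.ev (nat_lit 1021) (nat_lit
 131072) .dd))) (.ch (nat_lit 10) (.ev (nat_lit 1008) (nat_lit 131072) (.ev (nat_lit 1021) (nat_lit
 140737488355328) .dd)))))))) (.ch (nat_lit 8) (.ev (nat_lit 576) (nat_lit 141287250591744) .dd)))))))))))))
 (.ch (nat_lit 16) (.ev (nat_lit 52) (nat_lit 1236952678464) (.ev (nat_lit 84) (nat_lit 8796097347584) (.ev
 (nat_lit 116) (nat_lit 4128) (.ev (nat_lit 148) (nat_lit 16) (.ev (nat_lit 336) (nat_lit 536871936) (.nd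
 (nat_lit 560) (.br (nat_lit 5) (.br (nat_lit 2) (.ch (nat_lit 0) (.ev (nat_lit 576) (nat_lit 71201967865856)
 (.nd (nat_lit 992) (.br (nat_lit 2) (.br (nat_lit 1) (.ch (nat_lit 0) (.ev (nat_lit 1008) (nat_lit
 422212465065984) .dd)) (.ch (nat_lit 1) (.ev (nat_lit 1008) (nat_lit 422212465065984) .dd))) (.br (nat_lit 7)
 (.ch (nat_lit 2) (.fin (nat_lit 576460202550182465))) (.br (nat_lit 10) (.ch (nat_lit 7) (.ev (nat_lit 1008)
 (nat_lit 422212465065984) .dd)) (.ch (nat_lit 10) (.ev (nat_lit 1008) (nat_lit 422212465065984) .dd))))))))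
 (.ch (nat_lit 2) (.ev (nat_lit 576) (nat_lit 141570712010752) (.ev (nat_lit 966) (nat_lit 70368744177664) (.nd
 (nat_lit 992) (.br (nat_lit 5) (.ch (nat_lit 4) (.ev (nat_lit 1268) (nat_lit 32768) (.ev (nat_lit 1277)
 (nat_lit 281474976710656) .dd))) (.br (nat_lit 9) (.ch (nat_lit 5) (.ev (nat_lit 1008) (nat_lit
 281474976743424) .dd)) (.ch (nat_lit 9) (.ev (nat_lit 1008) (nat_lit 281474976710656) (.ev (nat_lit 1021)
 (nat_lit 32768) .dd)))))))))) (.br (nat_lit 7) (.ch (nat_lit 5) (.ev (nat_lit 576) (nat_lit 70368744177664)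
 (.nd (nat_lit 992) (.br (nat_lit 5) (.br (nat_lit 3) (.ch (nat_lit 0) (.ev (nat_lit 1008) (nat_lit
 422487343005696) (.ev (nat_lit 1204) (nat_lit 549755813888) (.ev (nat_lit 1213) (nat_lit 8589934592) .dd))))
 (.br (nat_lit 4) (.ch (nat_lit 3) (.ev (nat_lit 1008) (nat_lit 141570712043520) (.ev (nat_lit 1021) (nat_lit
 281474976710656) .dd))) (.ch (nat_lit 4) (.ev (nat_lit 1008) (nat_lit 422212465065984) (.ev (nat_lit 1056)
 (nat_lit 549755813888) (.ev (nat_lit 1088) (nat_lit 8589934592) (.ev (nat_lit 1204) (nat_lit 32768) (.ev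
 (nat_lit 1213) (nat_lit 274877906944) .dd)))))))) (.br (nat_lit 6) (.ch (nat_lit 5) (.ev (nat_lit 1008)
 (nat_lit 422770810847232) (.ev (nat_lit 1021) (nat_lit 274877906944) .dd))) (.br (nat_lit 9) (.ch (nat_lit 6)
 (.ev (nat_lit 1008) (nat_lit 282299610431488) (.ev (nat_lit 1268) (nat_lit 32768) (.ev (nat_lit 1284) (nat_lit
 140737488355328) (.ev (nat_lit 1293) (nat_lit 8589934592) .dd))))) (.ch (nat_lit 9) (.ev (nat_lit 1008)
 (nat_lit 422221055033344) (.ev (nat_lit 1204) (nat_lit 274877906944) (.ev (nat_lit 1213) (nat_lit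
 549755813888) .dd)))))))))) (.ch (nat_lit 7) (.ev (nat_lit 576) (nat_lit 282299610431488) (.ev (nat_lit 756)
 (nat_lit 70368744177664) (.nd (nat_lit 992) (.br (nat_lit 2) (.ch (nat_lit 1) (.ev (nat_lit 1008) (nat_lit
 140746078289920) (.ev (nat_lit 1021) (nat_lit 32768) .dd))) (.br (nat_lit 4) (.ch (nat_lit 2) (.ev (nat_lit
 1008) (nat_lit 32768) (.ev (nat_lit 1204) (nat_lit 140737488355328) (.ev (nat_lit 1213) (nat_lit 8589934592)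
 .dd)))) (.ch (nat_lit 4) (.ev (nat_lit 1008) (nat_lit 140746078322688) .dd)))))))))))))))))) (.br (nat_lit 18)
 (.ch (nat_lit 17) (.ev (nat_lit 52) (nat_lit 282574488338464) (.ev (nat_lit 84) (nat_lit 536870912) (.ev
 (nat_lit 116) (nat_lit 64) (.ev (nat_lit 148) (nat_lit 70918499991552) (.ev (nat_lit 480) (nat_lit
 140737488355328) (.nd (nat_lit 560) (.br (nat_lit 4) (.ch (nat_lit 2) (.ev (nat_lit 576) (nat_lit
 8942121947136) (.nd (nat_lit 992) (.br (nat_lit 4) (.br (nat_lit 1) (.ch (nat_lit 0) (.ev (nat_lit 1008)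
 (nat_lit 6292480) (.ev (nat_lit 1204) (nat_lit 274877906944) (.ev (nat_lit 1232) (nat_lit 131072) (.ev
 (nat_lit 1245) (nat_lit 16) .dd))))) (.ch (nat_lit 1) (.ev (nat_lit 1008) (nat_lit 4195328) (.ev (nat_lit
 1040) (nat_lit 274877906944) (.ev (nat_lit 1072) (nat_lit 16) (.ev (nat_lit 1204) (nat_lit 131072) (.ev
 (nat_lit 1213) (nat_lit 2097152) .dd))))))) (.br (nat_lit 7) (.ch (nat_lit 4) (.ev (nat_lit 1008) (nat_lit
 274878039040) (.ev (nat_lit 1024) (nat_lit 2097152) (.fin (nat_lit 576464600602985050))))) (.br (nat_lit 9)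
 (.ch (nat_lit 7) (.ev (nat_lit 1008) (nat_lit 6292496) (.ev (nat_lit 1120) (nat_lit 274878038016) .dd))) (.ch
 (nat_lit 9) (.ev (nat_lit 1008) (nat_lit 274880135184) (.ev (nat_lit 1232) (nat_lit 1024) (.ev (nat_lit 1245)
 (nat_lit 4194304) .dd)))))))))) (.br (nat_lit 6) (.ch (nat_lit 4) (.ev (nat_lit 576) (nat_lit 274884329488)
 (.ev (nat_lit 816) (nat_lit 4096) (.nd (nat_lit 992) (.br (nat_lit 3) (.br (nat_lit 2) (.ch (nat_lit 0) (.ev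
 (nat_lit 1008) (nat_lit 8589935616) (.ev (nat_lit 1248) (nat_lit 32768) (.ev (nat_lit 1332) (nat_lit
 8796093022208) (.ev (nat_lit 1341) (nat_lit 137438953472) .dd))))) (.ch (nat_lit 2) (.ev (nat_lit 1008)
 (nat_lit 146028921856) (.ev (nat_lit 1021) (nat_lit 8796093022208) .dd)))) (.br (nat_lit 4) (.ch (nat_lit 3)
 (.ev (nat_lit 1008) (nat_lit 8804682990592) (.ev (nat_lit 1021) (nat_lit 137438953472) .dd))) (.br (nat_lit 7)
 (.ch (nat_lit 4) (.ev (nat_lit 1008) (nat_lit 8942121910272) (.fin (nat_lit 576451406454014526)))) (.ch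
 (nat_lit 7) (.ev (nat_lit 1008) (nat_lit 137438987264) (.ev (nat_lit 1204) (nat_lit 8589934592) (.ev (nat_lit
 1213) (nat_lit 8796093022208) .dd))))))))))) (.ch (nat_lit 6) (.ev (nat_lit 576) (nat_lit 283474301952) (.ev
 (nat_lit 596) (nat_lit 137438953472) (.ev (nat_lit 832) (nat_lit 16) (.ev (nat_lit 845) (nat_lit
 8796093022208) .dd)))))))))))))) (.ch (nat_lit 18) (.ev (nat_lit 52) (nat_lit 142662174937168) (.ev (nat_lit
 84) (nat_lit 70506185229312) (.ev (nat_lit 148) (nat_lit 8804682956832) (.ev (nat_lit 157) (nat_lit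
 281474976710656) .dd))))))))) (.br (nat_lit 26) (.br (nat_lit 22) (.br (nat_lit 20) (.ch (nat_lit 19) (.ev
 (nat_lit 52) (nat_lit 1108103663616) (.ev (nat_lit 84) (nat_lit 140737488355328) (.ev (nat_lit 116) (nat_lit
 80) (.ev (nat_lit 464) (nat_lit 32768) (.nd (nat_lit 560) (.br (nat_lit 5) (.ch (nat_lit 0) (.ev (nat_lit 576)
 (nat_lit 9621263613984) (.ev (nat_lit 710) (nat_lit 70368748371968) (.nd (nat_lit 992) (.br (nat_lit 2) (.br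
 (nat_lit 1) (.ch (nat_lit 0) (.ev (nat_lit 1008) (nat_lit 281612415795200) (.ev (nat_lit 1021) (nat_lit 1024)
 .dd))) (.ch (nat_lit 1) (.ev (nat_lit 1008) (nat_lit 137438954496) (.ev (nat_lit 1248) (nat_lit 131072) (.ev
 (nat_lit 1261) (nat_lit 281474976710656) .dd))))) (.br (nat_lit 7) (.ch (nat_lit 2) (.ev (nat_lit 1008)
 (nat_lit 281474976711680) (.fin (nat_lit 576458003536364094)))) (.br (nat_lit 10) (.ch (nat_lit 7) (.ev
 (nat_lit 1008) (nat_lit 281612415796224) .dd)) (.ch (nat_lit 10) (.ev (nat_lit 1008) (nat_lit 137439085568)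
 (.ev (nat_lit 1021) (nat_lit 281474976710656) .dd)))))))))) (.br (nat_lit 6) (.ch (nat_lit 5) (.ev (nat_lit
 576) (nat_lit 351843725214720) (.nd (nat_lit 992) (.br (nat_lit 5) (.br (nat_lit 4) (.ch (nat_lit 3) (.ev
 (nat_lit 1008) (nat_lit 9208409882656) (.ev (nat_lit 1184) (nat_lit 550292684800) .dd))) (.ch (nat_lit 4) (.ev
 (nat_lit 1008) (nat_lit 412316860448) (.ev (nat_lit 1204) (nat_lit 550292684800) (.ev (nat_lit 1213) (nat_lit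
 8796093022208) .dd))))) (.br (nat_lit 7) (.ch (nat_lit 5) (.ev (nat_lit 1008) (nat_lit 687731638272) (.ev
 (nat_lit 1024) (nat_lit 274877906944) (.fin (nat_lit 576460202545988134))))) (.br (nat_lit 9) (.ch (nat_lit 7)
 (.ev (nat_lit 1008) (nat_lit 137438953504) (.ev (nat_lit 1204) (nat_lit 9620726743040) (.ev (nat_lit 1213)
 (nat_lit 536870912) .dd)))) (.ch (nat_lit 9) (.ev (nat_lit 1008) (nat_lit 9621263613952) (.ev (nat_lit 1232)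
 (nat_lit 137438953472) (.ev (nat_lit 1245) (nat_lit 32) .dd)))))))))) (.ch (nat_lit 6) (.ev (nat_lit 576)
 (nat_lit 962613871648) (.ev (nat_lit 596) (nat_lit 281474976710656) (.ev (nat_lit 720) (nat_lit 8796093022208)
 (.ev (nat_lit 733) (nat_lit 70368744177664) .dd))))))))))))) (.br (nat_lit 21) (.ch (nat_lit 20) (.ev (nat_lit
 52) (nat_lit 80264353055792) (.ev (nat_lit 148) (nat_lit 64) (.ev (nat_lit 196) (nat_lit 536870912) (.ev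
 (nat_lit 368) (nat_lit 2228224) (.nd (nat_lit 560) (.br (nat_lit 4) (.br (nat_lit 2) (.ch (nat_lit 0) (.ev
 (nat_lit 576) (nat_lit 970662612992) (.nd (nat_lit 992) (.br (nat_lit 3) (.br (nat_lit 2) (.ch (nat_lit 0)
 (.ev (nat_lit 1008) (nat_lit 281474976710656) (.ev (nat_lit 1021) (nat_lit 140737488355328) .dd))) (.ch
 (nat_lit 2) (.fin (nat_lit 576462401571340863)))) (.br (nat_lit 10) (.ch (nat_lit 3) (.ev (nat_lit 1008)
 (nat_lit 140737488355328) (.ev (nat_lit 1021) (nat_lit 281474976710656) .dd))) (.ch (nat_lit 10) (.ev (nat_lit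
 1024) (nat_lit 281474976710656) (.ev (nat_lit 1037) (nat_lit 140737488355328) .dd)))))))) (.ch (nat_lit 2)
 (.ev (nat_lit 576) (nat_lit 422358493958144) (.nd (nat_lit 992) (.br (nat_lit 9) (.ch (nat_lit 0) (.ev
 (nat_lit 1216) (nat_lit 274877906944) (.ev (nat_lit 1229) (nat_lit 549755813888) .dd))) (.br (nat_lit 10) (.ch
 (nat_lit 9) (.ev (nat_lit 1008) (nat_lit 549755813888) (.ev (nat_lit 1021) (nat_lit 274877906944) .dd))) (.ch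
 (nat_lit 10) (.ev (nat_lit 1008) (nat_lit 824633720832) .dd)))))))) (.br (nat_lit 5) (.ch (nat_lit 4) (.ev
 (nat_lit 576) (nat_lit 422487342977024) (.ev (nat_lit 596) (nat_lit 549755813888) (.nd (nat_lit 992) (.br
 (nat_lit 7) (.br (nat_lit 3) (.ch (nat_lit 2) (.ev (nat_lit 1008) (nat_lit 146028888064) .dd)) (.ch (nat_lit
 3) (.ev (nat_lit 1024) (nat_lit 137438953472) (.ev (nat_lit 1037) (nat_lit 8589934592) .dd)))) (.br (nat_lit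
 9) (.ch (nat_lit 7) (.ev (nat_lit 1008) (nat_lit 137438953472) (.ev (nat_lit 1021) (nat_lit 8589934592) .dd)))
 (.ch (nat_lit 9) (.ev (nat_lit 1008) (nat_lit 137438953472) (.ev (nat_lit 1021) (nat_lit 8589934592)
 .dd))))))))) (.br (nat_lit 8) (.ch (nat_lit 5) (.ev (nat_lit 576) (nat_lit 422487342972928) (.ev (nat_lit 896)
 (nat_lit 4096) (.nd (nat_lit 992) (.br (nat_lit 6) (.ch (nat_lit 3) (.ev (nat_lit 1008) (nat_lit 695784701952)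
 .dd)) (.br (nat_lit 9) (.ch (nat_lit 6) (.ev (nat_lit 1008) (nat_lit 695784701952) .dd)) (.ch (nat_lit 9) (.ev
 (nat_lit 1040) (nat_lit 8589934592) (.ev (nat_lit 1204) (nat_lit 137438953472) (.ev (nat_lit 1213) (nat_lit
 549755813888) .dd)))))))))) (.ch (nat_lit 8) (.ev (nat_lit 576) (nat_lit 423037098790912) (.nd (nat_lit 992)
 (.br (nat_lit 3) (.br (nat_lit 1) (.ch (nat_lit 0) (.ev (nat_lit 1008) (nat_lit 146028888064) .dd)) (.ch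
 (nat_lit 1) (.ev (nat_lit 1104) (nat_lit 137438953472) (.ev (nat_lit 1117) (nat_lit 8589934592) .dd)))) (.br
 (nat_lit 4) (.ch (nat_lit 3) (.ev (nat_lit 1008) (nat_lit 137438953472) (.ev (nat_lit 1021) (nat_lit
 8589934592) .dd))) (.ch (nat_lit 4) (.ev (nat_lit 1008) (nat_lit 146028888064) .dd)))))))))))))))) (.ch
 (nat_lit 21) (.ev (nat_lit 52) (nat_lit 70643626446944) (.ev (nat_lit 116) (nat_lit 549755813904) (.ev
 (nat_lit 148) (nat_lit 137438953472) (.ev (nat_lit 196) (nat_lit 140737490452480) (.ev (nat_lit 544) (nat_lit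
 536870912) (.nd (nat_lit 560) (.br (nat_lit 5) (.br (nat_lit 2) (.ch (nat_lit 0) (.ev (nat_lit 576) (nat_lit
 8804682957824) (.ev (nat_lit 614) (nat_lit 1099511627776) (.ev (nat_lit 621) (nat_lit 281474976710656) .dd))))
 (.ch (nat_lit 2) (.ev (nat_lit 576) (nat_lit 9904194585600) (.ev (nat_lit 589) (nat_lit 281474976710656)
 .dd)))) (.br (nat_lit 6) (.ch (nat_lit 5) (.ev (nat_lit 576) (nat_lit 291379171296256) .dd)) (.br (nat_lit 7)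
 (.ch (nat_lit 6) (.ev (nat_lit 576) (nat_lit 8589935616) (.nd (nat_lit 992) (.br (nat_lit 6) (.br (nat_lit 5)
 (.ch (nat_lit 3) (.ev (nat_lit 1008) (nat_lit 290271069732864) (.ev (nat_lit 1021) (nat_lit 1099511627776)
 .dd))) (.ch (nat_lit 5) (.ev (nat_lit 1008) (nat_lit 9895604649984) (.ev (nat_lit 1021) (nat_lit
 281474976710656) .dd)))) (.br (nat_lit 8) (.ch (nat_lit 6) (.ev (nat_lit 1008) (nat_lit 290271069732864) (.ev
 (nat_lit 1021) (nat_lit 1099511627776) .dd))) (.ch (nat_lit 8) (.ev (nat_lit 1008) (nat_lit 281474976710656)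
 (.ev (nat_lit 1072) (nat_lit 8796093022208) (.ev (nat_lit 1085) (nat_lit 1099511627776) .dd))))))))) (.ch
 (nat_lit 7) (.ev (nat_lit 576) (nat_lit 291370581360640) (.nd (nat_lit 992) (.br (nat_lit 10) (.ch (nat_lit 4)
 (.ev (nat_lit 1008) (nat_lit 8589934592) (.ev (nat_lit 1021) (nat_lit 1024) .dd))) (.ch (nat_lit 10) (.ev
 (nat_lit 1008) (nat_lit 1024) (.ev (nat_lit 1021) (nat_lit 8589934592) .dd))))))))))))))))))) (.br (nat_lit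
 24) (.ch (nat_lit 22) (.ev (nat_lit 52) (nat_lit 412321054736) (.ev (nat_lit 84) (nat_lit 281474976710656)
 (.ev (nat_lit 96) (nat_lit 221560722068576) .dd)))) (.br (nat_lit 25) (.ch (nat_lit 24) (.ev (nat_lit 52)
 (nat_lit 213176406806544) (.ev (nat_lit 116) (nat_lit 2097152) (.ev (nat_lit 448) (nat_lit 281474976710656)
 (.nd (nat_lit 560) (.br (nat_lit 5) (.br (nat_lit 4) (.ch (nat_lit 2) (.ev (nat_lit 576) (nat_lit
 8796093022240) (.nd (nat_lit 992) (.br (nat_lit 5) (.br (nat_lit 1) (.ch (nat_lit 0) (.ev (nat_lit 1008)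
 (nat_lit 541066304) (.ev (nat_lit 1021) (nat_lit 131072) .dd))) (.br (nat_lit 4) (.ch (nat_lit 1) (.ev
 (nat_lit 1008) (nat_lit 541066240) (.ev (nat_lit 1088) (nat_lit 131072) (.ev (nat_lit 1101) (nat_lit 64)
 .dd)))) (.ch (nat_lit 4) (.ev (nat_lit 1008) (nat_lit 132160) (.ev (nat_lit 1056) (nat_lit 4194304) (.ev
 (nat_lit 1069) (nat_lit 536870912) .dd)))))) (.br (nat_lit 7) (.ch (nat_lit 5) (.ev (nat_lit 1008) (nat_lit
 541197376) .dd)) (.br (nat_lit 9) (.ch (nat_lit 7) (.ev (nat_lit 1008) (nat_lit 541065216) (.ev (nat_lit 1268)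
 (nat_lit 64) (.fin (nat_lit 576482192772252245))))) (.ch (nat_lit 9) (.ev (nat_lit 1008) (nat_lit 541197376)
 .dd)))))))) (.ch (nat_lit 4) (.ev (nat_lit 576) (nat_lit 4325472) (.ev (nat_lit 688) (nat_lit 8796093022208)
 (.nd (nat_lit 992) (.br (nat_lit 4) (.br (nat_lit 2) (.ch (nat_lit 0) (.ev (nat_lit 1008) (nat_lit 1024) (.ev
 (nat_lit 1021) (nat_lit 536870912) .dd))) (.ch (nat_lit 2) (.ev (nat_lit 1008) (nat_lit 1024) (.ev (nat_lit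
 1021) (nat_lit 536870912) .dd)))) (.br (nat_lit 9) (.ch (nat_lit 4) (.ev (nat_lit 1008) (nat_lit 536871936)
 .dd)) (.br (nat_lit 10) (.ch (nat_lit 9) (.ev (nat_lit 1008) (nat_lit 536870912) (.ev (nat_lit 1021) (nat_lit
 1024) .dd))) (.ch (nat_lit 10) (.ev (nat_lit 1008) (nat_lit 1024) (.ev (nat_lit 1021) (nat_lit 536870912)
 .dd))))))))))) (.br (nat_lit 7) (.ch (nat_lit 5) (.ev (nat_lit 576) (nat_lit 4326400) (.nd (nat_lit 992) (.br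
 (nat_lit 5) (.ch (nat_lit 3) (.ev (nat_lit 1008) (nat_lit 8796093022208) (.ev (nat_lit 1268) (nat_lit 32)
 (.fin (nat_lit 576486590827151946))))) (.br (nat_lit 9) (.ch (nat_lit 5) (.ev (nat_lit 1008) (nat_lit
 536870912) (.ev (nat_lit 1268) (nat_lit 64) (.nd (nat_lit 1392) (.br (nat_lit 9) (.ch (nat_lit 6) (.fin
 (nat_lit 576462401575535194))) (.ch (nat_lit 9) (.ev (nat_lit 1408) (nat_lit 8796093022240) .dd))))))) (.ch
 (nat_lit 9) (.ev (nat_lit 1008) (nat_lit 8796629893184) (.ev (nat_lit 1021) (nat_lit 32) .dd)))))))) (.ch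
 (nat_lit 7) (.ev (nat_lit 576) (nat_lit 8796634087424) (.ev (nat_lit 852) (nat_lit 32) (.nd (nat_lit 992) (.br
 (nat_lit 3) (.br (nat_lit 2) (.ch (nat_lit 1) (.ev (nat_lit 1008) (nat_lit 131136) (.ev (nat_lit 1021)
 (nat_lit 1024) .dd))) (.ch (nat_lit 2) (.ev (nat_lit 1008) (nat_lit 1088) (.ev (nat_lit 1021) (nat_lit 131072)
 .dd)))) (.br (nat_lit 5) (.ch (nat_lit 3) (.ev (nat_lit 1008) (nat_lit 132096) (.ev (nat_lit 1021) (nat_lit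
 64) .dd))) (.br (nat_lit 9) (.ch (nat_lit 5) (.ev (nat_lit 1008) (nat_lit 132096) (.ev (nat_lit 1021) (nat_lit
 64) .dd))) (.ch (nat_lit 9) (.ev (nat_lit 1008) (nat_lit 1024) (.ev (nat_lit 1204) (nat_lit 64) (.ev (nat_lit
 1213) (nat_lit 131072) .dd)))))))))))))))))) (.ch (nat_lit 25) (.ev (nat_lit 52) (nat_lit 422213006131264)
 (.ev (nat_lit 84) (nat_lit 8590098432) (.ev (nat_lit 148) (nat_lit 70643622085632) (.nd (nat_lit 560) (.br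
 (nat_lit 6) (.br (nat_lit 2) (.ch (nat_lit 0) (.ev (nat_lit 576) (nat_lit 9483287793696) (.ev (nat_lit 596)
 (nat_lit 16) (.nd (nat_lit 992) (.br (nat_lit 5) (.br (nat_lit 2) (.ch (nat_lit 0) (.ev (nat_lit 1040)
 (nat_lit 2097152) (.ev (nat_lit 1053) (nat_lit 1099511627776) .dd))) (.ch (nat_lit 2) (.ev (nat_lit 1008)
 (nat_lit 2097152) (.ev (nat_lit 1021) (nat_lit 1099511627776) .dd)))) (.br (nat_lit 7) (.ch (nat_lit 5) (.ev
 (nat_lit 1008) (nat_lit 1099513724928) .dd)) (.ch (nat_lit 7) (.ev (nat_lit 1008) (nat_lit 1099511627776) (.ev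
 (nat_lit 1021) (nat_lit 2097152) .dd))))))))) (.ch (nat_lit 2) (.ev (nat_lit 576) (nat_lit 8933531975680) (.ev
 (nat_lit 950) (nat_lit 2097152) (.nd (nat_lit 992) (.br (nat_lit 5) (.br (nat_lit 4) (.ch (nat_lit 1) (.ev
 (nat_lit 1008) (nat_lit 1099511631888) (.ev (nat_lit 1056) (nat_lit 32) (.ev (nat_lit 1069) (nat_lit
 549755813888) .dd)))) (.ch (nat_lit 4) (.ev (nat_lit 1008) (nat_lit 549755813936) (.ev (nat_lit 1204) (nat_lit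
 4096) (.ev (nat_lit 1213) (nat_lit 1099511627776) .dd))))) (.br (nat_lit 9) (.ch (nat_lit 5) (.ev (nat_lit
 1120) (nat_lit 549755813888) (.ev (nat_lit 1204) (nat_lit 4112) (.nd (nat_lit 1392) (.br (nat_lit 5) (.ch
 (nat_lit 2) (.ev (nat_lit 1408) (nat_lit 1099511627808) .dd)) (.ch (nat_lit 5) (.fin (nat_lit
 576453605482512962)))))))) (.br (nat_lit 10) (.ch (nat_lit 9) (.ev (nat_lit 1008) (nat_lit 549755813936) (.ev
 (nat_lit 1204) (nat_lit 4096) (.ev (nat_lit 1213) (nat_lit 1099511627776) .dd)))) (.ch (nat_lit 10) (.ev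
 (nat_lit 1008) (nat_lit 1099511631888) (.ev (nat_lit 1204) (nat_lit 32) (.ev (nat_lit 1213) (nat_lit
 549755813888) .dd)))))))))))) (.br (nat_lit 8) (.ch (nat_lit 6) (.ev (nat_lit 576) (nat_lit 1649269542928)
 (.nd (nat_lit 992) (.br (nat_lit 6) (.br (nat_lit 3) (.ch (nat_lit 2) (.ev (nat_lit 1008) (nat_lit
 8796093022240) (.ev (nat_lit 1021) (nat_lit 137438953472) .dd))) (.br (nat_lit 5) (.ch (nat_lit 3) (.ev
 (nat_lit 1008) (nat_lit 8933531975680) (.ev (nat_lit 1021) (nat_lit 32) .dd))) (.ch (nat_lit 5) (.ev (nat_lit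
 1008) (nat_lit 8933531975680) (.ev (nat_lit 1021) (nat_lit 32) .dd))))) (.br (nat_lit 8) (.ch (nat_lit 6) (.ev
 (nat_lit 1008) (nat_lit 137438953504) (.ev (nat_lit 1021) (nat_lit 8796093022208) .dd))) (.br (nat_lit 10)
 (.ch (nat_lit 8) (.ev (nat_lit 1008) (nat_lit 8796093022208) (.ev (nat_lit 1024) (nat_lit 32) (.ev (nat_lit
 1037) (nat_lit 137438953472) .dd)))) (.ch (nat_lit 10) (.ev (nat_lit 1008) (nat_lit 8796093022240) (.ev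
 (nat_lit 1021) (nat_lit 137438953472) .dd))))))))) (.ch (nat_lit 8) (.ev (nat_lit 576) (nat_lit
 10582801518592) (.nd (nat_lit 992) (.br (nat_lit 4) (.br (nat_lit 3) (.ch (nat_lit 0) (.ev (nat_lit 1008)
 (nat_lit 48) .dd)) (.ch (nat_lit 3) (.ev (nat_lit 1008) (nat_lit 16) (.ev (nat_lit 1021) (nat_lit 32) .dd))))
 (.br (nat_lit 6) (.ch (nat_lit 4) (.ev (nat_lit 1024) (nat_lit 16) (.ev (nat_lit 1037) (nat_lit 32) .dd)))
 (.br (nat_lit 8) (.ch (nat_lit 6) (.ev (nat_lit 1008) (nat_lit 16) (.ev (nat_lit 1021) (nat_lit 32) .dd)))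
 (.ch (nat_lit 8) (.ev (nat_lit 1008) (nat_lit 48) .dd)))))))))))))))))) (.br (nat_lit 30) (.br (nat_lit 27)
 (.ch (nat_lit 26) (.ev (nat_lit 52) (nat_lit 150358217195616) (.ev (nat_lit 84) (nat_lit 1099511628800) (.ev
 (nat_lit 116) (nat_lit 281474976714752) (.nd (nat_lit 560) (.br (nat_lit 5) (.br (nat_lit 2) (.ch (nat_lit 0)
 (.ev (nat_lit 576) (nat_lit 70515314163712) (.nd (nat_lit 992) (.br (nat_lit 7) (.ch (nat_lit 3) (.ev (nat_lit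
 1008) (nat_lit 16) (.ev (nat_lit 1021) (nat_lit 131072) .dd))) (.ch (nat_lit 7) (.ev (nat_lit 1204) (nat_lit
 131072) (.ev (nat_lit 1213) (nat_lit 16) .dd))))))) (.br (nat_lit 4) (.ch (nat_lit 2) (.ev (nat_lit 576)
 (nat_lit 70514777391104) (.nd (nat_lit 992) (.br (nat_lit 7) (.br (nat_lit 5) (.ch (nat_lit 1) (.ev (nat_lit
 1008) (nat_lit 536903680) (.ev (nat_lit 1021) (nat_lit 16) .dd))) (.ch (nat_lit 5) (.ev (nat_lit 1008)
 (nat_lit 32768) (.ev (nat_lit 1056) (nat_lit 536870912) (.ev (nat_lit 1069) (nat_lit 16) .dd))))) (.br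
 (nat_lit 9) (.ch (nat_lit 7) (.ev (nat_lit 1008) (nat_lit 536903696) .dd)) (.br (nat_lit 10) (.ch (nat_lit 9)
 (.ev (nat_lit 1008) (nat_lit 536870928) (.ev (nat_lit 1021) (nat_lit 32768) .dd))) (.ch (nat_lit 10) (.ev
 (nat_lit 1008) (nat_lit 536903696) .dd)))))))) (.ch (nat_lit 4) (.ev (nat_lit 576) (nat_lit 70368744341520)
 (.nd (nat_lit 992) (.br (nat_lit 3) (.br (nat_lit 2) (.ch (nat_lit 0) (.ev (nat_lit 1008) (nat_lit
 137443147776) (.ev (nat_lit 1024) (nat_lit 8589934592) (.ev (nat_lit 1037) (nat_lit 536870912) .dd)))) (.ch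
 (nat_lit 2) (.ev (nat_lit 1008) (nat_lit 146033082368) (.ev (nat_lit 1021) (nat_lit 536870912) .dd)))) (.br
 (nat_lit 4) (.ch (nat_lit 3) (.ev (nat_lit 1008) (nat_lit 146569953280) .dd)) (.br (nat_lit 10) (.ch (nat_lit
 4) (.ev (nat_lit 1008) (nat_lit 536870912) (.ev (nat_lit 1040) (nat_lit 137438953472) (.ev (nat_lit 1204)
 (nat_lit 8589934592) (.ev (nat_lit 1213) (nat_lit 4194304) .dd))))) (.ch (nat_lit 10) (.ev (nat_lit 1008)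
 (nat_lit 137443147776) (.ev (nat_lit 1072) (nat_lit 536870912) (.ev (nat_lit 1085) (nat_lit 8589934592)
 .dd)))))))))))) (.br (nat_lit 7) (.ch (nat_lit 5) (.ev (nat_lit 576) (nat_lit 70368748503056) (.nd (nat_lit
 992) (.br (nat_lit 5) (.br (nat_lit 3) (.ch (nat_lit 0) (.ev (nat_lit 1008) (nat_lit 536903680) (.ev (nat_lit
 1136) (nat_lit 137438953472) (.ev (nat_lit 1149) (nat_lit 8589934592) .dd)))) (.ch (nat_lit 3) (.ev (nat_lit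
 1008) (nat_lit 146028888064) (.ev (nat_lit 1072) (nat_lit 536870912) (.ev (nat_lit 1085) (nat_lit 32768)
 .dd))))) (.br (nat_lit 9) (.ch (nat_lit 5) (.ev (nat_lit 1008) (nat_lit 146565791744) .dd)) (.ch (nat_lit 9)
 (.ev (nat_lit 1008) (nat_lit 137975857152) (.ev (nat_lit 1021) (nat_lit 8589934592) .dd)))))))) (.br (nat_lit
 8) (.ch (nat_lit 7) (.ev (nat_lit 576) (nat_lit 9130999824) (.ev (nat_lit 788) (nat_lit 131072) (.nd (nat_lit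
 992) (.br (nat_lit 4) (.br (nat_lit 2) (.ch (nat_lit 1) (.ev (nat_lit 1008) (nat_lit 70506183131136) (.ev
 (nat_lit 1021) (nat_lit 32768) .dd))) (.ch (nat_lit 2) (.ev (nat_lit 1204) (nat_lit 70368744177664) (.fin
 (nat_lit 576468998639010377))))) (.br (nat_lit 5) (.ch (nat_lit 4) (.ev (nat_lit 1008) (nat_lit
 70368744210432) (.ev (nat_lit 1021) (nat_lit 137438953472) .dd))) (.ch (nat_lit 5) (.ev (nat_lit 1008)
 (nat_lit 32768) (.ev (nat_lit 1040) (nat_lit 70506183131136) .dd))))))))) (.ch (nat_lit 8) (.ev (nat_lit 576)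
 (nat_lit 137980182528) (.nd (nat_lit 992) (.br (nat_lit 3) (.ch (nat_lit 2) (.ev (nat_lit 1008) (nat_lit
 70377334112256) (.ev (nat_lit 1021) (nat_lit 16) .dd))) (.br (nat_lit 4) (.ch (nat_lit 3) (.ev (nat_lit 1008)
 (nat_lit 16) (.ev (nat_lit 1204) (nat_lit 70368744177664) (.ev (nat_lit 1213) (nat_lit 8589934592) .dd))))
 (.ch (nat_lit 4) (.ev (nat_lit 1008) (nat_lit 8589934592) (.ev (nat_lit 1040) (nat_lit 70368744177680)
 .dd)))))))))))))))) (.br (nat_lit 29) (.ch (nat_lit 27) (.ev (nat_lit 52) (nat_lit 283132838282320) (.ev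
 (nat_lit 84) (nat_lit 536870912) (.ev (nat_lit 128) (nat_lit 220314644680736) .dd)))) (.ch (nat_lit 29) (.ev
 (nat_lit 52) (nat_lit 220461208338448) (.ev (nat_lit 116) (nat_lit 4194304) (.ev (nat_lit 196) (nat_lit 1024)
 (.nd (nat_lit 560) (.br (nat_lit 5) (.br (nat_lit 2) (.ch (nat_lit 0) (.ev (nat_lit 576) (nat_lit
 281612415668256) (.nd (nat_lit 992) (.br (nat_lit 7) (.br (nat_lit 5) (.ch (nat_lit 1) (.ev (nat_lit 1008)
 (nat_lit 1099513724928) (.ev (nat_lit 1204) (nat_lit 64) (.ev (nat_lit 1213) (nat_lit 274877906944) .dd))))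
 (.ch (nat_lit 5) (.ev (nat_lit 1008) (nat_lit 64) (.ev (nat_lit 1216) (nat_lit 274877906944) (.fin (nat_lit
 576475595689902666)))))) (.br (nat_lit 10) (.ch (nat_lit 7) (.ev (nat_lit 1204) (nat_lit 274880004160) (.ev
 (nat_lit 1213) (nat_lit 1099511627776) .dd))) (.ch (nat_lit 10) (.ev (nat_lit 1008) (nat_lit 1374389534720)
 (.ev (nat_lit 1204) (nat_lit 64) (.ev (nat_lit 1213) (nat_lit 2097152) .dd))))))))) (.br (nat_lit 4) (.ch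
 (nat_lit 2) (.ev (nat_lit 576) (nat_lit 137441050720) (.nd (nat_lit 992) (.br (nat_lit 4) (.br (nat_lit 1)
 (.ch (nat_lit 0) (.ev (nat_lit 1008) (nat_lit 281749854621696) (.ev (nat_lit 1021) (nat_lit 1099511627776)
 .dd))) (.ch (nat_lit 1) (.ev (nat_lit 1008) (nat_lit 1099511631872) (.fin (nat_lit 576440411324105273)))))
 (.br (nat_lit 5) (.ch (nat_lit 4) (.ev (nat_lit 1008) (nat_lit 274877906944) (.ev (nat_lit 1024) (nat_lit
 1099511627776) (.ev (nat_lit 1088) (nat_lit 4096) (.ev (nat_lit 1101) (nat_lit 281474976710656) .dd))))) (.br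
 (nat_lit 9) (.ch (nat_lit 5) (.ev (nat_lit 1008) (nat_lit 282574488338432) (.ev (nat_lit 1040) (nat_lit
 274877906944) (.ev (nat_lit 1053) (nat_lit 4096) .dd)))) (.ch (nat_lit 9) (.ev (nat_lit 1008) (nat_lit
 281749854617600) (.ev (nat_lit 1204) (nat_lit 1099511627776) (.ev (nat_lit 1213) (nat_lit 4096) .dd))))))))))
 (.ch (nat_lit 4) (.ev (nat_lit 576) (nat_lit 282986807300160) (.ev (nat_lit 589) (nat_lit 32) .dd))))) (.br
 (nat_lit 6) (.ch (nat_lit 5) (.ev (nat_lit 576) (nat_lit 1511830589440) (.ev (nat_lit 628) (nat_lit 64) (.nd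
 (nat_lit 992) (.br (nat_lit 7) (.ch (nat_lit 0) (.ev (nat_lit 1008) (nat_lit 281474976710656) (.ev (nat_lit
 1021) (nat_lit 32) .dd))) (.ch (nat_lit 7) (.ev (nat_lit 1008) (nat_lit 32) (.ev (nat_lit 1021) (nat_lit
 281474976710656) .dd)))))))) (.br (nat_lit 8) (.ch (nat_lit 6) (.ev (nat_lit 576) (nat_lit 1374391636064) (.nd
 (nat_lit 992) (.br (nat_lit 8) (.br (nat_lit 4) (.ch (nat_lit 2) (.ev (nat_lit 1008) (nat_lit 281474976710656)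
 (.ev (nat_lit 1021) (nat_lit 137438953472) .dd))) (.ch (nat_lit 4) (.ev (nat_lit 1008) (nat_lit 137438953472)
 (.ev (nat_lit 1021) (nat_lit 281474976710656) .dd)))) (.br (nat_lit 10) (.ch (nat_lit 8) (.ev (nat_lit 1008)
 (nat_lit 281474976710656) (.ev (nat_lit 1021) (nat_lit 137438953472) .dd))) (.ch (nat_lit 10) (.ev (nat_lit
 1008) (nat_lit 281612415664128) .dd))))))) (.ch (nat_lit 8) (.ev (nat_lit 576) (nat_lit 281749856718912) (.nd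
 (nat_lit 992) (.br (nat_lit 6) (.br (nat_lit 2) (.ch (nat_lit 1) (.ev (nat_lit 1008) (nat_lit 32) (.ev
 (nat_lit 1216) (nat_lit 137438953472) (.ev (nat_lit 1229) (nat_lit 1099511627776) .dd)))) (.ch (nat_lit 2)
 (.ev (nat_lit 1008) (nat_lit 1236950581248) (.ev (nat_lit 1021) (nat_lit 32) .dd)))) (.br (nat_lit 8) (.ch
 (nat_lit 6) (.ev (nat_lit 1008) (nat_lit 137438953504) (.ev (nat_lit 1021) (nat_lit 1099511627776) .dd))) (.ch
 (nat_lit 8) (.ev (nat_lit 1008) (nat_lit 1236950581280) .dd))))))))))))))))) (.br (nat_lit 35) (.br (nat_lit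
 33) (.ch (nat_lit 30) (.ev (nat_lit 52) (nat_lit 351989751878704) (.ev (nat_lit 84) (nat_lit 4194304) (.ev
 (nat_lit 116) (nat_lit 1099511627776) (.ev (nat_lit 164) (nat_lit 140737488355328) (.ev (nat_lit 208) (nat_lit
 9621263777856) .dd)))))) (.ch (nat_lit 33) (.ev (nat_lit 52) (nat_lit 1520959493168) (.ev (nat_lit 84)
 (nat_lit 32768) (.ev (nat_lit 176) (nat_lit 501927060308032) .dd))))) (.br (nat_lit 36) (.ch (nat_lit 35) (.ev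
 (nat_lit 52) (nat_lit 71064533204992) (.ev (nat_lit 84) (nat_lit 8796629893120) (.ev (nat_lit 116) (nat_lit
 1099511627776) (.nd (nat_lit 560) (.br (nat_lit 7) (.br (nat_lit 5) (.ch (nat_lit 4) (.ev (nat_lit 576)
 (nat_lit 281749856718912) (.nd (nat_lit 992) (.br (nat_lit 3) (.br (nat_lit 2) (.ch (nat_lit 0) (.ev (nat_lit
 1008) (nat_lit 140737488389168) .dd)) (.ch (nat_lit 2) (.ev (nat_lit 1008) (nat_lit 32800) (.ev (nat_lit 1024)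
 (nat_lit 140737488355328) (.ev (nat_lit 1056) (nat_lit 16) (.ev (nat_lit 1069) (nat_lit 1024) .dd)))))) (.br
 (nat_lit 4) (.ch (nat_lit 3) (.ev (nat_lit 1008) (nat_lit 140737488389120) (.ev (nat_lit 1204) (nat_lit 16)
 (.ev (nat_lit 1213) (nat_lit 32) .dd)))) (.br (nat_lit 7) (.ch (nat_lit 4) (.ev (nat_lit 1008) (nat_lit
 140737488355376) (.fin (nat_lit 576451406454014526)))) (.ch (nat_lit 7) (.ev (nat_lit 1008) (nat_lit
 140737488389152) (.ev (nat_lit 1021) (nat_lit 16) .dd))))))))) (.ch (nat_lit 5) (.ev (nat_lit 576) (nat_lit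
 2135056) (.nd (nat_lit 992) (.br (nat_lit 6) (.br (nat_lit 4) (.ch (nat_lit 0) (.ev (nat_lit 1008) (nat_lit
 422212465065984) (.ev (nat_lit 1040) (nat_lit 274877906944) (.ev (nat_lit 1204) (nat_lit 32) (.ev (nat_lit
 1213) (nat_lit 64) .dd))))) (.ch (nat_lit 4) (.ev (nat_lit 1008) (nat_lit 96) (.ev (nat_lit 1204) (nat_lit
 281474976710656) (.fin (nat_lit 576462401598603833)))))) (.br (nat_lit 9) (.ch (nat_lit 6) (.ev (nat_lit 1008)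
 (nat_lit 281749854617696) (.ev (nat_lit 1021) (nat_lit 140737488355328) .dd))) (.ch (nat_lit 9) (.ev (nat_lit
 1008) (nat_lit 422487342972928) (.ev (nat_lit 1168) (nat_lit 96) .dd))))))))) (.br (nat_lit 8) (.ch (nat_lit
 7) (.ev (nat_lit 576) (nat_lit 281474976744480) (.nd (nat_lit 992) (.br (nat_lit 5) (.br (nat_lit 2) (.ch
 (nat_lit 1) (.ev (nat_lit 1008) (nat_lit 274880008272) (.ev (nat_lit 1021) (nat_lit 140737488355328) .dd)))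
 (.br (nat_lit 3) (.ch (nat_lit 2) (.ev (nat_lit 1008) (nat_lit 141012368359488) (.ev (nat_lit 1024) (nat_lit
 16) (.ev (nat_lit 1037) (nat_lit 4096) .dd)))) (.ch (nat_lit 3) (.ev (nat_lit 1008) (nat_lit 140737490452496)
 (.ev (nat_lit 1056) (nat_lit 64) (.ev (nat_lit 1088) (nat_lit 4096) (.ev (nat_lit 1101) (nat_lit 274877906944)
 .dd))))))) (.br (nat_lit 9) (.ch (nat_lit 5) (.ev (nat_lit 1008) (nat_lit 140737488359504) (.ev (nat_lit 1216)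
 (nat_lit 274880004096) .dd))) (.br (nat_lit 10) (.ch (nat_lit 9) (.ev (nat_lit 1008) (nat_lit 140737490452480)
 (.ev (nat_lit 1088) (nat_lit 4112) (.ev (nat_lit 1152) (nat_lit 274877907008) .dd)))) (.ch (nat_lit 10) (.ev
 (nat_lit 1008) (nat_lit 141012366266368) (.ev (nat_lit 1204) (nat_lit 2097152) (.fin (nat_lit
 576455804509962818))))))))))) (.ch (nat_lit 8) (.ev (nat_lit 576) (nat_lit 422487345108032) (.nd (nat_lit 992)
 (.br (nat_lit 4) (.br (nat_lit 2) (.ch (nat_lit 1) (.ev (nat_lit 1204) (nat_lit 16) (.ev (nat_lit 1213)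
 (nat_lit 32) .dd))) (.br (nat_lit 3) (.ch (nat_lit 2) (.ev (nat_lit 1008) (nat_lit 16) (.ev (nat_lit 1021)
 (nat_lit 32) .dd))) (.ch (nat_lit 3) (.ev (nat_lit 1008) (nat_lit 48) .dd)))) (.br (nat_lit 6) (.ch (nat_lit
 4) (.ev (nat_lit 1008) (nat_lit 48) .dd)) (.br (nat_lit 8) (.ch (nat_lit 6) (.ev (nat_lit 1008) (nat_lit 32)
 (.ev (nat_lit 1021) (nat_lit 16) .dd))) (.ch (nat_lit 8) (.ev (nat_lit 1008) (nat_lit 32) (.ev (nat_lit 1021)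
 (nat_lit 16) .dd)))))))))))))))) (.ch (nat_lit 36) (.ev (nat_lit 52) (nat_lit 291095703454720) (.ev (nat_lit
 84) (nat_lit 8592031744) (.ev (nat_lit 96) (nat_lit 212343724347504) .dd)))))))))))

/-- The trie. -/
noncomputable def T : Tr := .nd (nat_lit 1000000) (.br (nat_lit 4) (.br (nat_lit 1) (.ch (nat_lit 0) (.ev
 (nat_lit 0) (nat_lit 9007199254740991) .dd)) (.ch (nat_lit 1) T1)) (.br (nat_lit 5) (.ch (nat_lit 4) T4) (.br
 (nat_lit 10) (.ch (nat_lit 5) (.ev (nat_lit 0) (nat_lit 9007199254740991) .dd)) (.ch (nat_lit 10) (.ev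
 (nat_lit 0) (nat_lit 9007199254740991) .dd)))))

/-- The possible values. -/
noncomputable def oks : List ℕ := [4, 9, 201, 223, 1321, 1329, 1365]

/-- The parameters. -/
noncomputable def S : Pr := ⟨fun i l e => lget mz (lget [] (lget [] tabs i) l) e, oks, [(nat_lit 0), (nat_lit
 1), (nat_lit 0), (nat_lit 0), (nat_lit 0)], T, (nat_lit 9007199254740991), (nat_lit 2287041271849359),
 (nat_lit 53), [(nat_lit 1057), (nat_lit 23899161165)], [(nat_lit 14641), (nat_lit 1369)]⟩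

/-- Nothing known. -/
noncomputable def cs0 : Cs := (.cons (nat_lit 11) (nat_lit 0) (nat_lit 1) (.cons (nat_lit 37) (nat_lit 0) (nat_lit 1) .nil))

theorem part_1 : part S cs0 (nat_lit 1) = true := by decide +kernel

theorem part_4 : part S cs0 (nat_lit 4) = true := by decide +kernel

/-- Data of a prime. -/
noncomputable def D0 : PD := ⟨(nat_lit 11), (nat_lit 4), (12112, 3, 3), (9605, 10112, 527), (1557, 14626, 14606)⟩

theorem D0_ok : D0.Ok := pdb_sound (s := 1) (C := ⟨⟨9, -6, -17, -1, -14, 8, -4, -1, -1⟩, (9, 10, 7)⟩) (by show Nat.Prime 11; norm_num) (by decide +kernel)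

/-- Lines of the first type. -/
noncomputable def Cl0 : List C1 := [⟨⟨-9, 6, -8, 1, 14, 7, 4, 1, -5⟩, (4, 2, 8)⟩,
  ⟨⟨0, 0, 0, 0, 0, 0, 0, 0, 0⟩, (0, 0, 0)⟩,
  ⟨⟨0, 0, 0, 0, 0, 0, 0, 0, 0⟩, (0, 0, 0)⟩,
  ⟨⟨0, 0, 0, 0, 0, 0, 0, 0, 0⟩, (0, 0, 0)⟩,
  ⟨⟨0, 0, 0, 0, 0, 0, 0, 0, 0⟩, (0, 0, 0)⟩,
  ⟨⟨9, 6, -17, -1, 14, 8, -4, 1, -1⟩, (8, 4, 5)⟩,
  ⟨⟨0, 0, 0, 0, 0, 0, 0, 0, 0⟩, (0, 0, 0)⟩,
  ⟨⟨0, 0, 0, 0, 0, 0, 0, 0, 0⟩, (0, 0, 0)⟩,
  ⟨⟨0, 0, 0, 0, 0, 0, 0, 0, 0⟩, (0, 0, 0)⟩,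
  ⟨⟨0, 0, 0, 0, 0, 0, 0, 0, 0⟩, (0, 0, 0)⟩,
  ⟨⟨-9, -6, -8, 1, -14, 7, 4, -1, -5⟩, (7, 9, 3)⟩]

/-- Data of a prime. -/
noncomputable def D1 : PD := ⟨(nat_lit 37), (nat_lit 2), (556, 16, 5), (1239, 947, 1101), (730, 506, 467)⟩

theorem D1_ok : D1.Ok := pdb_sound (s := 2) (C := ⟨⟨43, 22, -44, 23, -2, 41, 6, -15, -7⟩, (6, 23, 6)⟩) (by show Nat.Prime 37; norm_num) (by decide +kernel)

/-- Lines of the first type. -/
noncomputable def Cl1 : List C1 := [⟨⟨23, -2, -64, 43, 22, 1, -6, 15, -1⟩, (31, 29, 8)⟩,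
  ⟨⟨0, 0, 0, 0, 0, 0, 0, 0, 0⟩, (0, 0, 0)⟩,
  ⟨⟨-7, 22, -49, 27, 42, 4, 14, -7, -13⟩, (1, 12, 35)⟩,
  ⟨⟨-13, 38, -31, -47, -22, 16, 6, -9, -17⟩, (20, 4, 5)⟩,
  ⟨⟨0, 0, 0, 0, 0, 0, 0, 0, 0⟩, (0, 0, 0)⟩,
  ⟨⟨0, 0, 0, 0, 0, 0, 0, 0, 0⟩, (0, 0, 0)⟩,
  ⟨⟨7, 22, -56, -27, 42, 31, 14, 7, -1⟩, (18, 31, 36)⟩,
  ⟨⟨0, 0, 0, 0, 0, 0, 0, 0, 0⟩, (0, 0, 0)⟩,
  ⟨⟨0, 0, 0, 0, 0, 0, 0, 0, 0⟩, (0, 0, 0)⟩,
  ⟨⟨13, -38, -44, -47, -22, 31, -6, 9, -11⟩, (18, 26, 23)⟩,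
  ⟨⟨0, 0, 0, 0, 0, 0, 0, 0, 0⟩, (0, 0, 0)⟩,
  ⟨⟨0, 0, 0, 0, 0, 0, 0, 0, 0⟩, (0, 0, 0)⟩,
  ⟨⟨0, 0, 0, 0, 0, 0, 0, 0, 0⟩, (0, 0, 0)⟩,
  ⟨⟨0, 0, 0, 0, 0, 0, 0, 0, 0⟩, (0, 0, 0)⟩,
  ⟨⟨13, 38, -44, -47, 22, 31, -6, -9, -11⟩, (4, 14, 1)⟩,
  ⟨⟨0, 0, 0, 0, 0, 0, 0, 0, 0⟩, (0, 0, 0)⟩,
  ⟨⟨0, 0, 0, 0, 0, 0, 0, 0, 0⟩, (0, 0, 0)⟩,
  ⟨⟨0, 0, 0, 0, 0, 0, 0, 0, 0⟩, (0, 0, 0)⟩,
  ⟨⟨0, 0, 0, 0, 0, 0, 0, 0, 0⟩, (0, 0, 0)⟩,
  ⟨⟨0, 0, 0, 0, 0, 0, 0, 0, 0⟩, (0, 0, 0)⟩,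
  ⟨⟨0, 0, 0, 0, 0, 0, 0, 0, 0⟩, (0, 0, 0)⟩,
  ⟨⟨0, 0, 0, 0, 0, 0, 0, 0, 0⟩, (0, 0, 0)⟩,
  ⟨⟨0, 0, 0, 0, 0, 0, 0, 0, 0⟩, (0, 0, 0)⟩,
  ⟨⟨-7, -22, -49, 27, -42, 4, 14, 7, -13⟩, (13, 8, 11)⟩,
  ⟨⟨0, 0, 0, 0, 0, 0, 0, 0, 0⟩, (0, 0, 0)⟩,
  ⟨⟨0, 0, 0, 0, 0, 0, 0, 0, 0⟩, (0, 0, 0)⟩,
  ⟨⟨0, 0, 0, 0, 0, 0, 0, 0, 0⟩, (0, 0, 0)⟩,
  ⟨⟨0, 0, 0, 0, 0, 0, 0, 0, 0⟩, (0, 0, 0)⟩,
  ⟨⟨23, 2, -64, 43, -22, 1, -6, -15, -1⟩, (3, 4, 33)⟩,
  ⟨⟨0, 0, 0, 0, 0, 0, 0, 0, 0⟩, (0, 0, 0)⟩,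
  ⟨⟨0, 0, 0, 0, 0, 0, 0, 0, 0⟩, (0, 0, 0)⟩,
  ⟨⟨-13, -38, -31, -47, 22, 16, 6, 9, -17⟩, (34, 29, 27)⟩,
  ⟨⟨7, -22, -56, -27, -42, 31, 14, -7, -1⟩, (30, 27, 23)⟩,
  ⟨⟨0, 0, 0, 0, 0, 0, 0, 0, 0⟩, (0, 0, 0)⟩,
  ⟨⟨43, -22, -44, 23, 2, 41, 6, 15, -7⟩, (12, 9, 12)⟩,
  ⟨⟨0, 0, 0, 0, 0, 0, 0, 0, 0⟩, (0, 0, 0)⟩,
  ⟨⟨0, 0, 0, 0, 0, 0, 0, 0, 0⟩, (0, 0, 0)⟩]

/-- Data of a prime. -/
noncomputable def Dm : PD := ⟨(nat_lit 53), (nat_lit 2), (2545, 8, 14), (2610, 800, 1557), (1968, 957, 2439)⟩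

theorem Dm_ok : Dm.Ok := pdb_sound (s := 12) (C := ⟨⟨-13, 2, -76, -47, -58, 31, 18, -15, -13⟩, (40, 6, 18)⟩) (by show Nat.Prime 53; norm_num) (by decide +kernel)

/-- Lines of the first type. -/
noncomputable def Clm : List C1 := [⟨⟨13, -2, -89, -47, -58, 16, 18, -15, -5⟩, (17, 16, 48)⟩,
  ⟨⟨-23, 38, -56, 43, 58, 1, 18, -9, -23⟩, (9, 50, 16)⟩,
  ⟨⟨-23, -38, -56, 43, -58, 1, 18, 9, -23⟩, (18, 47, 32)⟩,
  ⟨⟨-13, -2, -76, -47, 58, 31, 18, 15, -13⟩, (20, 3, 9)⟩,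
  ⟨⟨0, 0, 0, 0, 0, 0, 0, 0, 0⟩, (0, 0, 0)⟩,
  ⟨⟨0, 0, 0, 0, 0, 0, 0, 0, 0⟩, (0, 0, 0)⟩,
  ⟨⟨0, 0, 0, 0, 0, 0, 0, 0, 0⟩, (0, 0, 0)⟩,
  ⟨⟨23, -38, -79, -43, -58, 44, -18, 9, -5⟩, (29, 8, 28)⟩,
  ⟨⟨33, -18, -89, 67, 2, 4, 2, 23, -7⟩, (12, 34, 20)⟩,
  ⟨⟨0, 0, 0, 0, 0, 0, 0, 0, 0⟩, (0, 0, 0)⟩,
  ⟨⟨0, 0, 0, 0, 0, 0, 0, 0, 0⟩, (0, 0, 0)⟩,
  ⟨⟨0, 0, 0, 0, 0, 0, 0, 0, 0⟩, (0, 0, 0)⟩,
  ⟨⟨0, 0, 0, 0, 0, 0, 0, 0, 0⟩, (0, 0, 0)⟩,
  ⟨⟨27, 42, -76, 7, 58, 49, 22, -7, -5⟩, (1, 14, 44)⟩,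
  ⟨⟨33, 18, -89, 67, -2, 4, 2, -23, -7⟩, (44, 1, 38)⟩,
  ⟨⟨0, 0, 0, 0, 0, 0, 0, 0, 0⟩, (0, 0, 0)⟩,
  ⟨⟨0, 0, 0, 0, 0, 0, 0, 0, 0⟩, (0, 0, 0)⟩,
  ⟨⟨0, 0, 0, 0, 0, 0, 0, 0, 0⟩, (0, 0, 0)⟩,
  ⟨⟨0, 0, 0, 0, 0, 0, 0, 0, 0⟩, (0, 0, 0)⟩,
  ⟨⟨57, 42, -56, -37, 62, 41, -10, 1, -19⟩, (20, 27, 3)⟩,
  ⟨⟨13, 2, -89, -47, 58, 16, 18, 15, -5⟩, (50, 19, 4)⟩,
  ⟨⟨0, 0, 0, 0, 0, 0, 0, 0, 0⟩, (0, 0, 0)⟩,
  ⟨⟨0, 0, 0, 0, 0, 0, 0, 0, 0⟩, (0, 0, 0)⟩,
  ⟨⟨57, -42, -56, -37, -62, 41, -10, -1, -19⟩, (16, 11, 13)⟩,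
  ⟨⟨0, 0, 0, 0, 0, 0, 0, 0, 0⟩, (0, 0, 0)⟩,
  ⟨⟨7, 58, -56, 27, 42, 49, 22, -7, -17⟩, (20, 9, 25)⟩,
  ⟨⟨0, 0, 0, 0, 0, 0, 0, 0, 0⟩, (0, 0, 0)⟩,
  ⟨⟨67, -2, -71, 33, 18, 56, -2, 23, -5⟩, (28, 13, 49)⟩,
  ⟨⟨0, 0, 0, 0, 0, 0, 0, 0, 0⟩, (0, 0, 0)⟩,
  ⟨⟨0, 0, 0, 0, 0, 0, 0, 0, 0⟩, (0, 0, 0)⟩,
  ⟨⟨23, 38, -79, -43, 58, 44, -18, -9, -5⟩, (20, 11, 12)⟩,
  ⟨⟨0, 0, 0, 0, 0, 0, 0, 0, 0⟩, (0, 0, 0)⟩,
  ⟨⟨7, -58, -56, 27, -42, 49, 22, 7, -17⟩, (17, 5, 8)⟩,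
  ⟨⟨0, 0, 0, 0, 0, 0, 0, 0, 0⟩, (0, 0, 0)⟩,
  ⟨⟨67, 2, -71, 33, -18, 56, -2, -23, -5⟩, (8, 34, 14)⟩,
  ⟨⟨27, -42, -76, 7, -58, 49, 22, 7, -5⟩, (50, 11, 27)⟩,
  ⟨⟨0, 0, 0, 0, 0, 0, 0, 0, 0⟩, (0, 0, 0)⟩,
  ⟨⟨0, 0, 0, 0, 0, 0, 0, 0, 0⟩, (0, 0, 0)⟩,
  ⟨⟨0, 0, 0, 0, 0, 0, 0, 0, 0⟩, (0, 0, 0)⟩,
  ⟨⟨0, 0, 0, 0, 0, 0, 0, 0, 0⟩, (0, 0, 0)⟩,
  ⟨⟨0, 0, 0, 0, 0, 0, 0, 0, 0⟩, (0, 0, 0)⟩,
  ⟨⟨0, 0, 0, 0, 0, 0, 0, 0, 0⟩, (0, 0, 0)⟩,
  ⟨⟨0, 0, 0, 0, 0, 0, 0, 0, 0⟩, (0, 0, 0)⟩,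
  ⟨⟨0, 0, 0, 0, 0, 0, 0, 0, 0⟩, (0, 0, 0)⟩,
  ⟨⟨0, 0, 0, 0, 0, 0, 0, 0, 0⟩, (0, 0, 0)⟩,
  ⟨⟨-37, 62, -4, -57, -42, 1, 10, -1, -29⟩, (22, 21, 27)⟩,
  ⟨⟨0, 0, 0, 0, 0, 0, 0, 0, 0⟩, (0, 0, 0)⟩,
  ⟨⟨0, 0, 0, 0, 0, 0, 0, 0, 0⟩, (0, 0, 0)⟩,
  ⟨⟨0, 0, 0, 0, 0, 0, 0, 0, 0⟩, (0, 0, 0)⟩,
  ⟨⟨0, 0, 0, 0, 0, 0, 0, 0, 0⟩, (0, 0, 0)⟩,
  ⟨⟨0, 0, 0, 0, 0, 0, 0, 0, 0⟩, (0, 0, 0)⟩,
  ⟨⟨-37, -62, -4, -57, 42, 1, 10, 1, -29⟩, (6, 25, 17)⟩,
  ⟨⟨0, 0, 0, 0, 0, 0, 0, 0, 0⟩, (0, 0, 0)⟩]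

/-- Unit moves. -/
noncomputable def U : List Mv := [mz,
  mz,
  ⟨⟨-1, 0, 1, 0, 1, 0, 0, 0, 1⟩, .nil, (nat_lit 10), (nat_lit 5), (nat_lit 1), (nat_lit 1), (0, 0, 0), [], 6⟩,
  ⟨⟨1, 0, 0, 0, -1, 0, 0, 0, 1⟩, .nil, (nat_lit 10), (nat_lit 10), (nat_lit 2), (nat_lit 1), (0, 0, 0), [], 10⟩,
  mz,
  mz,
  ⟨⟨-1, 0, 1, 0, -1, 0, 0, 0, 1⟩, .nil, (nat_lit 0), (nat_lit 6), (nat_lit 1), (nat_lit 0), (0, 0, 0), [], 5⟩,
  ⟨⟨-1, 0, 1, 0, -1, 0, 0, 0, 1⟩, .nil, (nat_lit 0), (nat_lit 6), (nat_lit 1), (nat_lit 0), (0, 0, 0), [], 5⟩,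
  ⟨⟨1, 0, 0, 0, -1, 0, 0, 0, 1⟩, .nil, (nat_lit 10), (nat_lit 10), (nat_lit 2), (nat_lit 1), (0, 0, 0), [], 10⟩,
  ⟨⟨-1, 0, 1, 0, 1, 0, 0, 0, 1⟩, .nil, (nat_lit 10), (nat_lit 5), (nat_lit 1), (nat_lit 1), (0, 0, 0), [], 6⟩,
  mz]

theorem v_ty : tyb Dm S.ty1 Clm = true := by decide +kernel

theorem v_ty0 : tyb D0 (S.tys.getD 0 0) Cl0 = true := by decide +kernel

theorem v_ty1 : tyb D1 (S.tys.getD 1 0) Cl1 = true := by decide +kernel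

theorem v_msc : mscb S D0 [D1] Dm (nat_lit 18) = true := by decide +kernel

theorem v_mv0 : mvsn (nat_lit 56302272961) S D0 [D1] Dm (nat_lit 18) 0 D0 = true := by decide +kernel

theorem v_mv1 : mvsn (nat_lit 56302272961) S D0 [D1] Dm (nat_lit 18) 1 D1 = true := by decide +kernel

theorem v_mm : mmsn (nat_lit 56302272961) S D0 [D1] Dm (nat_lit 18) = true := by decide +kernel

theorem v_un : unb S D0 (nat_lit 18) U = true := by decide +kernel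

theorem v_ok : okb S.oks [(0, 0, 0), (0, 3, 0), (4, 5, 4), (0, 0, 0), (5, 36, 0), (8, 35, 2), (10, 35, 2)] = true := by decide +kernel

theorem v_part : ∀ d < D0.p, (nat_lit 18).testBit d = true → part S (zc (D0 :: [D1])) d = true := by
  intro d hd h
  have h1 : ∀ d < 11, (nat_lit 18).testBit d = true → d = 1 ∨ d = 4 := by decide
  rcases h1 d hd h with rfl | rfl
  · exact part_1
  · exact part_4

theorem main (n : ℕ) (ho : Odd n) (hr : ¬ Rep n) (h0 : Split 11 n) (h1 : Split 37 n) (hm : Split 53 n) :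
    n ∈ EE := by
  refine concln (W := nat_lit 56302272961) (S := S) (P0 := D0) (Pl := [D1]) (Pm := Dm) (cn := nat_lit 18) ?_ Dm_ok v_ty ?_ ?_ v_msc ?_ v_mm v_un v_part v_ok
    n ho hr ?_ hm
  · simp only [List.forall_mem_cons]
    exact ⟨D0_ok, D1_ok, fun _ h => absurd h (by simp)⟩
  · exact all2 (φ := fun j P => ∃ L, tyb P (S.tys.getD j 0) L = true) ⟨_, v_ty0⟩ ⟨_, v_ty1⟩
  · exact all2 (φ := fun j P => Nat.ble (S.pks.getD j 0) (Nat.pow P.p P.K) = true) (by decide +kernel) (by decide +kernel)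
  · exact all2 (φ := fun i P => mvsn (nat_lit 56302272961) S D0 [D1] Dm (nat_lit 18) i P = true) v_mv0 v_mv1
  · simp only [List.forall_mem_cons]
    exact ⟨h0, h1, fun _ h => absurd h (by simp)⟩

end Pool.Agent.Work.MP_9954fe_nt.P11_37_53

namespace Pool.Agent.Work.MP_9954fe_nt.P13_37_47

/-- Dummy move. -/
noncomputable def mz : Mv := ⟨⟨0, 0, 0, 0, 0, 0, 0, 0, 0⟩, .nil, (nat_lit 0), (nat_lit 0), (nat_lit 0), (nat_lit 0), (0, 0, 0), [], 0⟩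

/-- Moves. -/
noncomputable def t0_2 : List Mv := [
  ⟨⟨-1, -12, 9, 8, 5, 6, 8, -8, -7⟩, (.cons (nat_lit 1798270) (nat_lit 3794392) (nat_lit 2144058) (nat_lit 1)
 (.cons (nat_lit 747337) (nat_lit 110045) (nat_lit 1515415) (nat_lit 1) .nil)), (nat_lit 18), (nat_lit 30),
 (nat_lit 6), (nat_lit 1), (8, 1, 1), [1227326, 1383093], 38⟩,
  ⟨⟨9, 4, -16, -8, -5, -6, 8, -8, -7⟩, (.cons (nat_lit 2919685) (nat_lit 4270751) (nat_lit 1481163) (nat_lit 1)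
 (.cons (nat_lit 193808) (nat_lit 746204) (nat_lit 841112) (nat_lit 1) .nil)), (nat_lit 1), (nat_lit 8),
 (nat_lit 10), (nat_lit 1), (6, 12, 1), [2271767, 1823369], 40⟩,
  ⟨⟨9, 4, -16, -8, -5, -6, 8, -8, -7⟩, (.cons (nat_lit 2919685) (nat_lit 4270751) (nat_lit 1481163) (nat_lit 1)
 (.cons (nat_lit 193808) (nat_lit 746204) (nat_lit 841112) (nat_lit 1) .nil)), (nat_lit 1), (nat_lit 8),
 (nat_lit 10), (nat_lit 1), (6, 12, 1), [2271767, 1823369], 40⟩,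
  ⟨⟨-1, -12, 9, -8, -5, -6, 8, -8, -7⟩, (.cons (nat_lit 495919) (nat_lit 4756839) (nat_lit 247966) (nat_lit 1)
 (.cons (nat_lit 1874160) (nat_lit 273551) (nat_lit 311591) (nat_lit 1) .nil)), (nat_lit 46), (nat_lit 39),
 (nat_lit 10), (nat_lit 1), (8, 12, 1), [3125393, 1193489], 40⟩,
  ⟨⟨-1, -12, 9, 8, 5, 6, 8, -8, -7⟩, (.cons (nat_lit 1798270) (nat_lit 3794392) (nat_lit 2144058) (nat_lit 1)
 (.cons (nat_lit 747337) (nat_lit 110045) (nat_lit 1515415) (nat_lit 1) .nil)), (nat_lit 18), (nat_lit 30),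
 (nat_lit 6), (nat_lit 1), (8, 1, 1), [1227326, 1383093], 38⟩,
  ⟨⟨9, 4, -16, 8, 5, 6, 8, -8, -7⟩, (.cons (nat_lit 2843227) (nat_lit 1868486) (nat_lit 1840382) (nat_lit 1)
 (.cons (nat_lit 1810248) (nat_lit 806303) (nat_lit 229633) (nat_lit 1) .nil)), (nat_lit 29), (nat_lit 17),
 (nat_lit 6), (nat_lit 1), (6, 1, 1), [4589782, 36332], 38⟩,
  ⟨⟨9, 4, -16, 8, 5, 6, 8, -8, -7⟩, (.cons (nat_lit 2843227) (nat_lit 1868486) (nat_lit 1840382) (nat_lit 1)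
 (.cons (nat_lit 1810248) (nat_lit 806303) (nat_lit 229633) (nat_lit 1) .nil)), (nat_lit 29), (nat_lit 17),
 (nat_lit 6), (nat_lit 1), (6, 1, 1), [4589782, 36332], 38⟩,
  ⟨⟨-1, -12, 9, -8, -5, -6, 8, -8, -7⟩, (.cons (nat_lit 495919) (nat_lit 4756839) (nat_lit 247966) (nat_lit 1)
 (.cons (nat_lit 1874160) (nat_lit 273551) (nat_lit 311591) (nat_lit 1) .nil)), (nat_lit 46), (nat_lit 39),
 (nat_lit 10), (nat_lit 1), (8, 12, 1), [3125393, 1193489], 40⟩,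
  ⟨⟨-1, -12, 9, -8, -5, -6, 8, -8, -7⟩, (.cons (nat_lit 495919) (nat_lit 4756839) (nat_lit 247966) (nat_lit 1)
 (.cons (nat_lit 1874160) (nat_lit 273551) (nat_lit 311591) (nat_lit 1) .nil)), (nat_lit 46), (nat_lit 39),
 (nat_lit 10), (nat_lit 1), (8, 12, 1), [3125393, 1193489], 40⟩,
  ⟨⟨-1, -12, 9, -8, -5, -6, 8, -8, -7⟩, (.cons (nat_lit 495919) (nat_lit 4756839) (nat_lit 247966) (nat_lit 1)
 (.cons (nat_lit 1874160) (nat_lit 273551) (nat_lit 311591) (nat_lit 1) .nil)), (nat_lit 46), (nat_lit 39),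
 (nat_lit 10), (nat_lit 1), (8, 12, 1), [3125393, 1193489], 40⟩,
  ⟨⟨-1, -12, 9, 8, 5, 6, 8, -8, -7⟩, (.cons (nat_lit 1798270) (nat_lit 3794392) (nat_lit 2144058) (nat_lit 1)
 (.cons (nat_lit 747337) (nat_lit 110045) (nat_lit 1515415) (nat_lit 1) .nil)), (nat_lit 18), (nat_lit 30),
 (nat_lit 6), (nat_lit 1), (8, 1, 1), [1227326, 1383093], 38⟩,
  ⟨⟨-1, -12, 9, -8, -5, -6, 8, -8, -7⟩, (.cons (nat_lit 495919) (nat_lit 4756839) (nat_lit 247966) (nat_lit 1)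
 (.cons (nat_lit 1874160) (nat_lit 273551) (nat_lit 311591) (nat_lit 1) .nil)), (nat_lit 46), (nat_lit 39),
 (nat_lit 10), (nat_lit 1), (8, 12, 1), [3125393, 1193489], 40⟩,
  ⟨⟨-1, -12, 9, -8, -5, -6, 8, -8, -7⟩, (.cons (nat_lit 495919) (nat_lit 4756839) (nat_lit 247966) (nat_lit 1)
 (.cons (nat_lit 1874160) (nat_lit 273551) (nat_lit 311591) (nat_lit 1) .nil)), (nat_lit 46), (nat_lit 39),
 (nat_lit 10), (nat_lit 1), (8, 12, 1), [3125393, 1193489], 40⟩]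

/-- Moves. -/
noncomputable def t0_4 : List Mv := [
  ⟨⟨5, 12, -9, -12, 5, 6, 0, 0, -13⟩, (.cons (nat_lit 2595001) (nat_lit 3104467) (nat_lit 3422489) (nat_lit 1)
 (.cons (nat_lit 696785) (nat_lit 946351) (nat_lit 1681894) (nat_lit 1) .nil)), (nat_lit 1), (nat_lit 20),
 (nat_lit 4), (nat_lit 1), (12, 5, 0), [2732539, 156218], 40⟩,
  ⟨⟨-5, -12, -4, -12, 5, 6, 0, 0, -13⟩, (.cons (nat_lit 273335) (nat_lit 1209881) (nat_lit 68337) (nat_lit 1)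
 (.cons (nat_lit 1874160) (nat_lit 825254) (nat_lit 1780818) (nat_lit 1) .nil)), (nat_lit 46), (nat_lit 27),
 (nat_lit 4), (nat_lit 1), (1, 5, 0), [3873608, 817248], 40⟩,
  ⟨⟨-5, -12, -4, -12, 5, 6, 0, 0, -13⟩, (.cons (nat_lit 273335) (nat_lit 1209881) (nat_lit 68337) (nat_lit 1)
 (.cons (nat_lit 1874160) (nat_lit 825254) (nat_lit 1780818) (nat_lit 1) .nil)), (nat_lit 46), (nat_lit 27),
 (nat_lit 4), (nat_lit 1), (1, 5, 0), [3873608, 817248], 40⟩,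
  ⟨⟨-5, -12, -4, 12, -5, -6, 0, 0, -13⟩, (.cons (nat_lit 3834156) (nat_lit 4555975) (nat_lit 1642618) (nat_lit
 1) (.cons (nat_lit 856403) (nat_lit 70813) (nat_lit 375199) (nat_lit 1) .nil)), (nat_lit 1), (nat_lit 12),
 (nat_lit 40), (nat_lit 1), (1, 8, 0), [1521153, 52624], 23⟩,
  ⟨⟨5, 12, -9, 12, -5, -6, 0, 0, -13⟩, (.cons (nat_lit 2272170) (nat_lit 4691530) (nat_lit 1774748) (nat_lit 1)
 (.cons (nat_lit 1874160) (nat_lit 1282665) (nat_lit 326050) (nat_lit 1) .nil)), (nat_lit 46), (nat_lit 35),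
 (nat_lit 40), (nat_lit 1), (12, 8, 0), [2927202, 635925], 23⟩,
  ⟨⟨5, 12, -9, 12, -5, -6, 0, 0, -13⟩, (.cons (nat_lit 2272170) (nat_lit 4691530) (nat_lit 1774748) (nat_lit 1)
 (.cons (nat_lit 1874160) (nat_lit 1282665) (nat_lit 326050) (nat_lit 1) .nil)), (nat_lit 46), (nat_lit 35),
 (nat_lit 40), (nat_lit 1), (12, 8, 0), [2927202, 635925], 23⟩,
  ⟨⟨5, 12, -9, -12, 5, 6, 0, 0, -13⟩, (.cons (nat_lit 2595001) (nat_lit 3104467) (nat_lit 3422489) (nat_lit 1)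
 (.cons (nat_lit 696785) (nat_lit 946351) (nat_lit 1681894) (nat_lit 1) .nil)), (nat_lit 1), (nat_lit 20),
 (nat_lit 4), (nat_lit 1), (12, 5, 0), [2732539, 156218], 40⟩,
  ⟨⟨5, 12, -9, 12, -5, -6, 0, 0, -13⟩, (.cons (nat_lit 2272170) (nat_lit 4691530) (nat_lit 1774748) (nat_lit 1)
 (.cons (nat_lit 1874160) (nat_lit 1282665) (nat_lit 326050) (nat_lit 1) .nil)), (nat_lit 46), (nat_lit 35),
 (nat_lit 40), (nat_lit 1), (12, 8, 0), [2927202, 635925], 23⟩,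
  ⟨⟨5, 12, -9, 12, -5, -6, 0, 0, -13⟩, (.cons (nat_lit 2272170) (nat_lit 4691530) (nat_lit 1774748) (nat_lit 1)
 (.cons (nat_lit 1874160) (nat_lit 1282665) (nat_lit 326050) (nat_lit 1) .nil)), (nat_lit 46), (nat_lit 35),
 (nat_lit 40), (nat_lit 1), (12, 8, 0), [2927202, 635925], 23⟩,
  ⟨⟨-5, -12, -4, 12, -5, -6, 0, 0, -13⟩, (.cons (nat_lit 3834156) (nat_lit 4555975) (nat_lit 1642618) (nat_lit
 1) (.cons (nat_lit 856403) (nat_lit 70813) (nat_lit 375199) (nat_lit 1) .nil)), (nat_lit 1), (nat_lit 12),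
 (nat_lit 40), (nat_lit 1), (1, 8, 0), [1521153, 52624], 23⟩,
  ⟨⟨5, 12, -9, 12, -5, -6, 0, 0, -13⟩, (.cons (nat_lit 2272170) (nat_lit 4691530) (nat_lit 1774748) (nat_lit 1)
 (.cons (nat_lit 1874160) (nat_lit 1282665) (nat_lit 326050) (nat_lit 1) .nil)), (nat_lit 46), (nat_lit 35),
 (nat_lit 40), (nat_lit 1), (12, 8, 0), [2927202, 635925], 23⟩,
  ⟨⟨5, 12, -9, -12, 5, 6, 0, 0, -13⟩, (.cons (nat_lit 2595001) (nat_lit 3104467) (nat_lit 3422489) (nat_lit 1)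
 (.cons (nat_lit 696785) (nat_lit 946351) (nat_lit 1681894) (nat_lit 1) .nil)), (nat_lit 1), (nat_lit 20),
 (nat_lit 4), (nat_lit 1), (12, 5, 0), [2732539, 156218], 40⟩,
  ⟨⟨5, 12, -9, 12, -5, -6, 0, 0, -13⟩, (.cons (nat_lit 2272170) (nat_lit 4691530) (nat_lit 1774748) (nat_lit 1)
 (.cons (nat_lit 1874160) (nat_lit 1282665) (nat_lit 326050) (nat_lit 1) .nil)), (nat_lit 46), (nat_lit 35),
 (nat_lit 40), (nat_lit 1), (12, 8, 0), [2927202, 635925], 23⟩]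

/-- Moves. -/
noncomputable def t0_5 : List Mv := [
  ⟨⟨9, 8, -13, 10, -7, 0, 2, -4, -13⟩, (.cons (nat_lit 2315812) (nat_lit 843964) (nat_lit 1453495) (nat_lit 1)
 (.cons (nat_lit 963361) (nat_lit 960539) (nat_lit 352253) (nat_lit 1) .nil)), (nat_lit 7), (nat_lit 27),
 (nat_lit 4), (nat_lit 1), (2, 8, 12), [4581319, 250838], 3⟩,
  ⟨⟨9, 8, -13, -10, 7, 0, 2, -4, -13⟩, (.cons (nat_lit 4177513) (nat_lit 3253428) (nat_lit 1218083) (nat_lit 1)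
 (.cons (nat_lit 1589971) (nat_lit 1553939) (nat_lit 1560690) (nat_lit 1) .nil)), (nat_lit 1), (nat_lit 12),
 (nat_lit 2), (nat_lit 1), (2, 5, 12), [648168, 1288213], 17⟩,
  ⟨⟨9, 8, -13, -10, 7, 0, 2, -4, -13⟩, (.cons (nat_lit 4177513) (nat_lit 3253428) (nat_lit 1218083) (nat_lit 1)
 (.cons (nat_lit 1589971) (nat_lit 1553939) (nat_lit 1560690) (nat_lit 1) .nil)), (nat_lit 1), (nat_lit 12),
 (nat_lit 2), (nat_lit 1), (2, 5, 12), [648168, 1288213], 17⟩,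
  ⟨⟨9, 8, -13, -10, 7, 0, 2, -4, -13⟩, (.cons (nat_lit 4177513) (nat_lit 3253428) (nat_lit 1218083) (nat_lit 1)
 (.cons (nat_lit 1589971) (nat_lit 1553939) (nat_lit 1560690) (nat_lit 1) .nil)), (nat_lit 1), (nat_lit 12),
 (nat_lit 2), (nat_lit 1), (2, 5, 12), [648168, 1288213], 17⟩,
  ⟨⟨-7, -12, 0, 10, -7, 0, 2, -4, -13⟩, (.cons (nat_lit 3289575) (nat_lit 183543) (nat_lit 32948) (nat_lit 1)
 (.cons (nat_lit 825945) (nat_lit 316964) (nat_lit 231834) (nat_lit 1) .nil)), (nat_lit 40), (nat_lit 20),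
 (nat_lit 4), (nat_lit 1), (10, 8, 12), [920321, 1320059], 3⟩,
  ⟨⟨9, 8, -13, 10, -7, 0, 2, -4, -13⟩, (.cons (nat_lit 2315812) (nat_lit 843964) (nat_lit 1453495) (nat_lit 1)
 (.cons (nat_lit 963361) (nat_lit 960539) (nat_lit 352253) (nat_lit 1) .nil)), (nat_lit 7), (nat_lit 27),
 (nat_lit 4), (nat_lit 1), (2, 8, 12), [4581319, 250838], 3⟩,
  ⟨⟨9, 8, -13, 10, -7, 0, 2, -4, -13⟩, (.cons (nat_lit 2315812) (nat_lit 843964) (nat_lit 1453495) (nat_lit 1)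
 (.cons (nat_lit 963361) (nat_lit 960539) (nat_lit 352253) (nat_lit 1) .nil)), (nat_lit 7), (nat_lit 27),
 (nat_lit 4), (nat_lit 1), (2, 8, 12), [4581319, 250838], 3⟩,
  ⟨⟨9, 8, -13, -10, 7, 0, 2, -4, -13⟩, (.cons (nat_lit 4177513) (nat_lit 3253428) (nat_lit 1218083) (nat_lit 1)
 (.cons (nat_lit 1589971) (nat_lit 1553939) (nat_lit 1560690) (nat_lit 1) .nil)), (nat_lit 1), (nat_lit 12),
 (nat_lit 2), (nat_lit 1), (2, 5, 12), [648168, 1288213], 17⟩,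
  ⟨⟨-7, -12, 0, 10, -7, 0, 2, -4, -13⟩, (.cons (nat_lit 3289575) (nat_lit 183543) (nat_lit 32948) (nat_lit 1)
 (.cons (nat_lit 825945) (nat_lit 316964) (nat_lit 231834) (nat_lit 1) .nil)), (nat_lit 40), (nat_lit 20),
 (nat_lit 4), (nat_lit 1), (10, 8, 12), [920321, 1320059], 3⟩,
  ⟨⟨-7, -12, 0, -10, 7, 0, 2, -4, -13⟩, (.cons (nat_lit 4676545) (nat_lit 3073074) (nat_lit 3831397) (nat_lit
 1) (.cons (nat_lit 1874160) (nat_lit 1864410) (nat_lit 723926) (nat_lit 1) .nil)), (nat_lit 46), (nat_lit 35),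
 (nat_lit 2), (nat_lit 1), (10, 5, 12), [3689710, 612321], 17⟩,
  ⟨⟨9, 8, -13, -10, 7, 0, 2, -4, -13⟩, (.cons (nat_lit 4177513) (nat_lit 3253428) (nat_lit 1218083) (nat_lit 1)
 (.cons (nat_lit 1589971) (nat_lit 1553939) (nat_lit 1560690) (nat_lit 1) .nil)), (nat_lit 1), (nat_lit 12),
 (nat_lit 2), (nat_lit 1), (2, 5, 12), [648168, 1288213], 17⟩,
  ⟨⟨9, 8, -13, -10, 7, 0, 2, -4, -13⟩, (.cons (nat_lit 4177513) (nat_lit 3253428) (nat_lit 1218083) (nat_lit 1)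
 (.cons (nat_lit 1589971) (nat_lit 1553939) (nat_lit 1560690) (nat_lit 1) .nil)), (nat_lit 1), (nat_lit 12),
 (nat_lit 2), (nat_lit 1), (2, 5, 12), [648168, 1288213], 17⟩,
  ⟨⟨9, 8, -13, -10, 7, 0, 2, -4, -13⟩, (.cons (nat_lit 4177513) (nat_lit 3253428) (nat_lit 1218083) (nat_lit 1)
 (.cons (nat_lit 1589971) (nat_lit 1553939) (nat_lit 1560690) (nat_lit 1) .nil)), (nat_lit 1), (nat_lit 12),
 (nat_lit 2), (nat_lit 1), (2, 5, 12), [648168, 1288213], 17⟩]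

/-- Moves. -/
noncomputable def t1_2 : List Mv := [
  mz,
  ⟨⟨27, 4, 20, -10, -33, 20, 30, -12, -23⟩, (.cons (nat_lit 3990903) (nat_lit 4807734) (nat_lit 1) (nat_lit
 2967393) (.cons (nat_lit 607496) (nat_lit 134371) (nat_lit 1185402) (nat_lit 1) .nil)), (nat_lit 17), (nat_lit
 29), (nat_lit 34), (nat_lit 1), (3, 3, 28), [2499281, 24583], 8⟩,
  mz,
  mz,
  ⟨⟨21, 4, 28, 8, 35, -14, 32, -8, -19⟩, (.cons (nat_lit 4826808) (nat_lit 3870509) (nat_lit 1547033) (nat_lit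
 1) (.cons (nat_lit 1425476) (nat_lit 1018043) (nat_lit 1761999) (nat_lit 1) .nil)), (nat_lit 46), (nat_lit 7),
 (nat_lit 9), (nat_lit 1), (33, 2, 8), [4747384, 1716966], 18⟩,
  ⟨⟨21, -4, 28, 8, -35, -14, 32, 8, -19⟩, (.cons (nat_lit 2597736) (nat_lit 3145515) (nat_lit 2120523) (nat_lit
 1) (.cons (nat_lit 140534) (nat_lit 54930) (nat_lit 357163) (nat_lit 1) .nil)), (nat_lit 27), (nat_lit 26),
 (nat_lit 24), (nat_lit 1), (15, 11, 7), [1685490, 1768453], 1⟩,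
  mz,
  ⟨⟨-1, -24, -36, 30, 17, -30, -18, 12, -19⟩, (.cons (nat_lit 1738888) (nat_lit 1305455) (nat_lit 93072)
 (nat_lit 1) (.cons (nat_lit 1499386) (nat_lit 885095) (nat_lit 110208) (nat_lit 1) .nil)), (nat_lit 37),
 (nat_lit 43), (nat_lit 18), (nat_lit 1), (13, 17, 12), [1698451, 466968], 9⟩,
  ⟨⟨-35, 12, -1, 12, 35, -6, 0, 0, -37⟩, (.cons (nat_lit 3463655) (nat_lit 3255587) (nat_lit 1) (nat_lit
 1363154) (.cons (nat_lit 353825) (nat_lit 423693) (nat_lit 512773) (nat_lit 1) .nil)), (nat_lit 46), (nat_lit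
 33), (nat_lit 31), (nat_lit 1), (3, 18, 0), [3755070, 388739], 41⟩,
  mz,
  ⟨⟨-1, 24, -36, 30, -17, -30, -18, -12, -19⟩, (.cons (nat_lit 4826808) (nat_lit 68122) (nat_lit 2990635)
 (nat_lit 1) (.cons (nat_lit 313047) (nat_lit 906125) (nat_lit 1155805) (nat_lit 1) .nil)), (nat_lit 46),
 (nat_lit 36), (nat_lit 12), (nat_lit 1), (10, 33, 32), [3346311, 164154], 6⟩,
  ⟨⟨3, 16, -43, 10, -33, -20, 30, 12, -23⟩, (.cons (nat_lit 60303) (nat_lit 3114643) (nat_lit 387409) (nat_lit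
 1) (.cons (nat_lit 657744) (nat_lit 232141) (nat_lit 594355) (nat_lit 1) .nil)), (nat_lit 11), (nat_lit 10),
 (nat_lit 45), (nat_lit 1), (23, 15, 8), [4608965, 1521813], 28⟩,
  ⟨⟨39, -4, -8, 10, 17, -40, 14, -28, -19⟩, (.cons (nat_lit 4826808) (nat_lit 1223186) (nat_lit 4033354)
 (nat_lit 1) (.cons (nat_lit 1554850) (nat_lit 1613946) (nat_lit 285754) (nat_lit 1) .nil)), (nat_lit 46),
 (nat_lit 43), (nat_lit 13), (nat_lit 1), (11, 18, 3), [210780, 179876], 40⟩,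
  ⟨⟨-31, 24, 27, 8, -5, 36, 8, 32, -1⟩, (.cons (nat_lit 4826808) (nat_lit 1995273) (nat_lit 2886299) (nat_lit
 1) (.cons (nat_lit 384092) (nat_lit 900727) (nat_lit 1038712) (nat_lit 1) .nil)), (nat_lit 46), (nat_lit 12),
 (nat_lit 3), (nat_lit 1), (26, 10, 10), [2301184, 604956], 41⟩,
  mz,
  ⟨⟨-3, 40, 8, 32, 5, -36, -16, 16, -19⟩, (.cons (nat_lit 2004831) (nat_lit 2109832) (nat_lit 1) (nat_lit
 3436849) (.cons (nat_lit 798622) (nat_lit 669341) (nat_lit 1419928) (nat_lit 1) .nil)), (nat_lit 15), (nat_lit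
 32), (nat_lit 3), (nat_lit 1), (27, 8, 33), [3994894, 1800850], 11⟩,
  ⟨⟨11, -12, 36, 8, 35, 6, 32, -8, -13⟩, (.cons (nat_lit 3177120) (nat_lit 1286175) (nat_lit 4570667) (nat_lit
 1) (.cons (nat_lit 1621980) (nat_lit 49080) (nat_lit 836361) (nat_lit 1) .nil)), (nat_lit 27), (nat_lit 21),
 (nat_lit 23), (nat_lit 1), (3, 19, 2), [2195530, 975839], 46⟩,
  ⟨⟨39, -8, -11, 8, 5, -44, 8, -32, -7⟩, (.cons (nat_lit 4826808) (nat_lit 1126416) (nat_lit 4401238) (nat_lit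
 1) (.cons (nat_lit 275039) (nat_lit 1783885) (nat_lit 457160) (nat_lit 1) .nil)), (nat_lit 46), (nat_lit 35),
 (nat_lit 44), (nat_lit 1), (5, 20, 20), [4323594, 48182], 6⟩,
  ⟨⟨39, 4, -8, 10, -17, -40, 14, 28, -19⟩, (.cons (nat_lit 4114537) (nat_lit 353353) (nat_lit 794364) (nat_lit
 1) (.cons (nat_lit 101959) (nat_lit 470110) (nat_lit 1640323) (nat_lit 1) .nil)), (nat_lit 42), (nat_lit 18),
 (nat_lit 13), (nat_lit 1), (29, 34, 18), [4184964, 770684], 40⟩,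
  ⟨⟨39, -8, -28, -8, -5, -36, 8, -32, -1⟩, (.cons (nat_lit 2990997) (nat_lit 72102) (nat_lit 2906935) (nat_lit
 1) (.cons (nat_lit 1371082) (nat_lit 881345) (nat_lit 452127) (nat_lit 1) .nil)), (nat_lit 1), (nat_lit 32),
 (nat_lit 40), (nat_lit 1), (22, 23, 14), [187659, 10396], 41⟩,
  ⟨⟨25, -24, -36, -10, 17, -30, -14, -28, -5⟩, (.cons (nat_lit 4826808) (nat_lit 1095338) (nat_lit 1573909)
 (nat_lit 1) (.cons (nat_lit 740045) (nat_lit 1217231) (nat_lit 1723749) (nat_lit 1) .nil)), (nat_lit 46),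
 (nat_lit 4), (nat_lit 34), (nat_lit 1), (21, 36, 6), [2109788, 1773034], 40⟩,
  ⟨⟨13, -24, -40, 32, -5, 4, 16, 16, -35⟩, (.cons (nat_lit 2895224) (nat_lit 3898719) (nat_lit 2380620)
 (nat_lit 1) (.cons (nat_lit 222986) (nat_lit 1585934) (nat_lit 135540) (nat_lit 1) .nil)), (nat_lit 1),
 (nat_lit 31), (nat_lit 1), (nat_lit 1), (27, 1, 19), [1553353, 375479], 29⟩,
  ⟨⟨-31, 24, 4, -8, 5, 44, 8, 32, -7⟩, (.cons (nat_lit 738559) (nat_lit 2602679) (nat_lit 2329299) (nat_lit 1)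
 (.cons (nat_lit 461521) (nat_lit 1176936) (nat_lit 1089616) (nat_lit 1) .nil)), (nat_lit 1), (nat_lit 15),
 (nat_lit 7), (nat_lit 1), (12, 21, 16), [2529699, 1822483], 6⟩,
  mz,
  ⟨⟨13, 24, -40, 32, 5, 4, 16, -16, -35⟩, (.cons (nat_lit 698737) (nat_lit 4259267) (nat_lit 834427) (nat_lit
 1) (.cons (nat_lit 1571933) (nat_lit 218484) (nat_lit 1279548) (nat_lit 1) .nil)), (nat_lit 22), (nat_lit 1),
 (nat_lit 28), (nat_lit 1), (24, 5, 21), [3509280, 32266], 13⟩,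
  ⟨⟨17, -36, 0, -30, -17, 0, 18, -12, -37⟩, (.cons (nat_lit 4826808) (nat_lit 3471372) (nat_lit 4313700)
 (nat_lit 1) (.cons (nat_lit 484565) (nat_lit 632621) (nat_lit 1368780) (nat_lit 1) .nil)), (nat_lit 46),
 (nat_lit 11), (nat_lit 35), (nat_lit 1), (21, 13, 7), [1016163, 119015], 6⟩,
  ⟨⟨27, -4, -47, -10, 33, -10, 30, 12, -7⟩, (.cons (nat_lit 281830) (nat_lit 3648050) (nat_lit 3767919)
 (nat_lit 1) (.cons (nat_lit 274365) (nat_lit 283126) (nat_lit 1229669) (nat_lit 1) .nil)), (nat_lit 30),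
 (nat_lit 29), (nat_lit 13), (nat_lit 1), (15, 15, 29), [1966693, 653075], 39⟩,
  ⟨⟨27, 4, -47, -10, -33, -10, 30, -12, -7⟩, (.cons (nat_lit 3559078) (nat_lit 3697792) (nat_lit 3987724)
 (nat_lit 1) (.cons (nat_lit 3966) (nat_lit 12424) (nat_lit 414996) (nat_lit 1) .nil)), (nat_lit 1), (nat_lit
 24), (nat_lit 13), (nat_lit 1), (33, 33, 12), [3269064, 89427], 39⟩,
  mz,
  ⟨⟨-35, -12, -1, 12, -35, -6, 0, 0, -37⟩, (.cons (nat_lit 3525120) (nat_lit 3701762) (nat_lit 2321570)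
 (nat_lit 1) (.cons (nat_lit 1066550) (nat_lit 1394035) (nat_lit 434693) (nat_lit 1) .nil)), (nat_lit 1),
 (nat_lit 3), (nat_lit 10), (nat_lit 1), (23, 27, 0), [3091020, 1839414], 39⟩,
  ⟨⟨25, 24, -36, 10, 17, 30, -14, 28, -5⟩, (.cons (nat_lit 4826808) (nat_lit 2649231) (nat_lit 4031871)
 (nat_lit 1) (.cons (nat_lit 459819) (nat_lit 1725603) (nat_lit 889937) (nat_lit 1) .nil)), (nat_lit 46),
 (nat_lit 29), (nat_lit 29), (nat_lit 1), (18, 22, 21), [2786652, 1218758], 40⟩,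
  mz,
  mz,
  ⟨⟨-3, -40, 8, 32, -5, -36, -16, -16, -19⟩, (.cons (nat_lit 4312999) (nat_lit 4133762) (nat_lit 852063)
 (nat_lit 1) (.cons (nat_lit 1782129) (nat_lit 882841) (nat_lit 1226847) (nat_lit 1) .nil)), (nat_lit 1),
 (nat_lit 5), (nat_lit 25), (nat_lit 1), (32, 4, 35), [2101746, 1421722], 29⟩,
  mz,
  ⟨⟨11, 12, 36, -8, 35, -6, 32, 8, -13⟩, (.cons (nat_lit 3753847) (nat_lit 3246396) (nat_lit 3045047) (nat_lit
 1) (.cons (nat_lit 1213719) (nat_lit 643017) (nat_lit 1869) (nat_lit 1) .nil)), (nat_lit 7), (nat_lit 41),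
 (nat_lit 27), (nat_lit 1), (20, 9, 1), [2135643, 1122014], 45⟩,
  ⟨⟨1, -24, -37, -30, 17, 0, 18, 12, -37⟩, (.cons (nat_lit 3225005) (nat_lit 4459384) (nat_lit 3975974)
 (nat_lit 1) (.cons (nat_lit 1196502) (nat_lit 1057277) (nat_lit 1384140) (nat_lit 1) .nil)), (nat_lit 10),
 (nat_lit 43), (nat_lit 29), (nat_lit 1), (26, 34, 24), [4187814, 1684962], 9⟩]

/-- Moves. -/
noncomputable def t1_4 : List Mv := [
  mz,
  ⟨⟨3, -16, -43, -10, -33, 20, 30, -12, -23⟩, (.cons (nat_lit 2846833) (nat_lit 717161) (nat_lit 1264353)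
 (nat_lit 1) (.cons (nat_lit 298279) (nat_lit 1817436) (nat_lit 1785048) (nat_lit 1) .nil)), (nat_lit 30),
 (nat_lit 18), (nat_lit 34), (nat_lit 1), (25, 3, 28), [1659577, 24429], 8⟩,
  mz,
  mz,
  ⟨⟨21, 4, 28, 8, 35, -14, 32, -8, -19⟩, (.cons (nat_lit 4826808) (nat_lit 3870509) (nat_lit 1547033) (nat_lit
 1) (.cons (nat_lit 1425476) (nat_lit 1018043) (nat_lit 1761999) (nat_lit 1) .nil)), (nat_lit 46), (nat_lit 7),
 (nat_lit 9), (nat_lit 1), (33, 2, 8), [4747384, 1716966], 18⟩,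
  ⟨⟨21, -4, 28, 8, -35, -14, 32, 8, -19⟩, (.cons (nat_lit 2597736) (nat_lit 3145515) (nat_lit 2120523) (nat_lit
 1) (.cons (nat_lit 140534) (nat_lit 54930) (nat_lit 357163) (nat_lit 1) .nil)), (nat_lit 27), (nat_lit 26),
 (nat_lit 24), (nat_lit 1), (15, 11, 7), [1685490, 1768453], 1⟩,
  mz,
  ⟨⟨-1, -24, -36, 30, 17, -30, -18, 12, -19⟩, (.cons (nat_lit 1738888) (nat_lit 1305455) (nat_lit 93072)
 (nat_lit 1) (.cons (nat_lit 1499386) (nat_lit 885095) (nat_lit 110208) (nat_lit 1) .nil)), (nat_lit 37),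
 (nat_lit 43), (nat_lit 18), (nat_lit 1), (13, 17, 12), [1698451, 466968], 9⟩,
  ⟨⟨-35, 12, -1, -12, -35, 6, 0, 0, -37⟩, (.cons (nat_lit 1150605) (nat_lit 2104961) (nat_lit 3972458) (nat_lit
 1) (.cons (nat_lit 799824) (nat_lit 112697) (nat_lit 541824) (nat_lit 1) .nil)), (nat_lit 1), (nat_lit 44),
 (nat_lit 37), (nat_lit 1), (3, 19, 0), [4302945, 974124], 39⟩,
  mz,
  ⟨⟨-1, 24, -36, 30, -17, -30, -18, -12, -19⟩, (.cons (nat_lit 4826808) (nat_lit 68122) (nat_lit 2990635)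
 (nat_lit 1) (.cons (nat_lit 313047) (nat_lit 906125) (nat_lit 1155805) (nat_lit 1) .nil)), (nat_lit 46),
 (nat_lit 36), (nat_lit 12), (nat_lit 1), (10, 33, 32), [3346311, 164154], 6⟩,
  ⟨⟨3, 16, -43, 10, -33, -20, 30, 12, -23⟩, (.cons (nat_lit 60303) (nat_lit 3114643) (nat_lit 387409) (nat_lit
 1) (.cons (nat_lit 657744) (nat_lit 232141) (nat_lit 594355) (nat_lit 1) .nil)), (nat_lit 11), (nat_lit 10),
 (nat_lit 45), (nat_lit 1), (23, 15, 8), [4608965, 1521813], 28⟩,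
  ⟨⟨39, -4, -8, -10, -17, 40, 14, -28, -19⟩, (.cons (nat_lit 3437063) (nat_lit 1024296) (nat_lit 571109)
 (nat_lit 1) (.cons (nat_lit 114235) (nat_lit 1334585) (nat_lit 580609) (nat_lit 1) .nil)), (nat_lit 28),
 (nat_lit 13), (nat_lit 12), (nat_lit 1), (11, 19, 3), [3936037, 1791581], 11⟩,
  ⟨⟨39, 8, -28, -8, 5, -36, 8, 32, -1⟩, (.cons (nat_lit 3927768) (nat_lit 1960263) (nat_lit 1739437) (nat_lit
 1) (.cons (nat_lit 1823396) (nat_lit 1267075) (nat_lit 1419066) (nat_lit 1) .nil)), (nat_lit 13), (nat_lit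
 20), (nat_lit 43), (nat_lit 1), (21, 27, 10), [1651132, 1338202], 10⟩,
  mz,
  ⟨⟨-13, -24, -27, 32, 5, -36, -16, 16, -19⟩, (.cons (nat_lit 2526554) (nat_lit 3057564) (nat_lit 3975506)
 (nat_lit 1) (.cons (nat_lit 796793) (nat_lit 623440) (nat_lit 327247) (nat_lit 1) .nil)), (nat_lit 32),
 (nat_lit 15), (nat_lit 3), (nat_lit 1), (6, 8, 33), [1741034, 654749], 11⟩,
  ⟨⟨21, 4, -49, 8, 35, 6, 32, -8, -13⟩, (.cons (nat_lit 3843909) (nat_lit 2974177) (nat_lit 2549487) (nat_lit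
 1) (.cons (nat_lit 1143271) (nat_lit 1071032) (nat_lit 159805) (nat_lit 1) .nil)), (nat_lit 20), (nat_lit 26),
 (nat_lit 23), (nat_lit 1), (36, 19, 2), [3629312, 753675], 46⟩,
  ⟨⟨39, -8, -11, -8, -5, 44, 8, -32, -7⟩, (.cons (nat_lit 3469351) (nat_lit 1659860) (nat_lit 3767641) (nat_lit
 1) (.cons (nat_lit 460752) (nat_lit 665154) (nat_lit 1172797) (nat_lit 1) .nil)), (nat_lit 34), (nat_lit 20),
 (nat_lit 4), (nat_lit 1), (5, 17, 20), [2779988, 1248849], 37⟩,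
  ⟨⟨39, 4, -8, -10, 17, 40, 14, 28, -19⟩, (.cons (nat_lit 4826808) (nat_lit 2268763) (nat_lit 3937883) (nat_lit
 1) (.cons (nat_lit 448528) (nat_lit 502940) (nat_lit 1378481) (nat_lit 1) .nil)), (nat_lit 46), (nat_lit 18),
 (nat_lit 18), (nat_lit 1), (29, 3, 18), [3534328, 1274331], 40⟩,
  ⟨⟨39, -8, -28, -8, -5, -36, 8, -32, -1⟩, (.cons (nat_lit 2990997) (nat_lit 72102) (nat_lit 2906935) (nat_lit
 1) (.cons (nat_lit 1371082) (nat_lit 881345) (nat_lit 452127) (nat_lit 1) .nil)), (nat_lit 1), (nat_lit 32),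
 (nat_lit 40), (nat_lit 1), (22, 23, 14), [187659, 10396], 41⟩,
  ⟨⟨-39, -4, 31, 10, -17, 30, -14, -28, -5⟩, (.cons (nat_lit 1118456) (nat_lit 1718638) (nat_lit 4341112)
 (nat_lit 1) (.cons (nat_lit 1446381) (nat_lit 1824542) (nat_lit 424510) (nat_lit 1) .nil)), (nat_lit 19),
 (nat_lit 13), (nat_lit 35), (nat_lit 1), (22, 1, 6), [4634091, 361569], 11⟩,
  ⟨⟨13, -24, -40, -32, 5, -4, 16, 16, -35⟩, (.cons (nat_lit 1733791) (nat_lit 323919) (nat_lit 4404522)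
 (nat_lit 1) (.cons (nat_lit 790175) (nat_lit 546003) (nat_lit 1464450) (nat_lit 1) .nil)), (nat_lit 15),
 (nat_lit 15), (nat_lit 44), (nat_lit 1), (27, 36, 19), [401133, 620026], 11⟩,
  ⟨⟨39, 8, -11, 8, -5, -44, 8, 32, -7⟩, (.cons (nat_lit 3957064) (nat_lit 4631890) (nat_lit 79108) (nat_lit 1)
 (.cons (nat_lit 425268) (nat_lit 1360462) (nat_lit 1420042) (nat_lit 1) .nil)), (nat_lit 18), (nat_lit 16),
 (nat_lit 22), (nat_lit 1), (4, 16, 16), [4743431, 517079], 3⟩,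
  mz,
  ⟨⟨13, 24, -40, -32, -5, -4, 16, -16, -35⟩, (.cons (nat_lit 3174932) (nat_lit 3813019) (nat_lit 941042)
 (nat_lit 1) (.cons (nat_lit 1860152) (nat_lit 1054636) (nat_lit 705457) (nat_lit 1) .nil)), (nat_lit 1),
 (nat_lit 42), (nat_lit 22), (nat_lit 1), (24, 32, 21), [1722340, 1551364], 29⟩,
  ⟨⟨1, 24, -37, -30, -17, 0, 18, -12, -37⟩, (.cons (nat_lit 4449046) (nat_lit 1841748) (nat_lit 4430173)
 (nat_lit 1) (.cons (nat_lit 331579) (nat_lit 1579701) (nat_lit 232118) (nat_lit 1) .nil)), (nat_lit 1),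
 (nat_lit 36), (nat_lit 35), (nat_lit 1), (23, 13, 7), [1876078, 853811], 6⟩,
  ⟨⟨3, 16, 40, 10, -33, 10, 30, 12, -7⟩, (.cons (nat_lit 4826808) (nat_lit 2366898) (nat_lit 4522467) (nat_lit
 1) (.cons (nat_lit 193529) (nat_lit 124685) (nat_lit 728276) (nat_lit 1) .nil)), (nat_lit 46), (nat_lit 18),
 (nat_lit 14), (nat_lit 1), (14, 22, 29), [690785, 75080], 39⟩,
  ⟨⟨3, -16, 40, -10, -33, -10, 30, -12, -7⟩, (.cons (nat_lit 4826808) (nat_lit 1428698) (nat_lit 1737974)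
 (nat_lit 1) (.cons (nat_lit 724955) (nat_lit 944729) (nat_lit 859812) (nat_lit 1) .nil)), (nat_lit 46),
 (nat_lit 23), (nat_lit 13), (nat_lit 1), (16, 33, 12), [4175976, 883822], 39⟩,
  mz,
  ⟨⟨-35, -12, -1, 12, -35, -6, 0, 0, -37⟩, (.cons (nat_lit 3525120) (nat_lit 3701762) (nat_lit 2321570)
 (nat_lit 1) (.cons (nat_lit 1066550) (nat_lit 1394035) (nat_lit 434693) (nat_lit 1) .nil)), (nat_lit 1),
 (nat_lit 3), (nat_lit 10), (nat_lit 1), (23, 27, 0), [3091020, 1839414], 39⟩,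
  ⟨⟨-39, 4, 31, 10, 17, 30, -14, 28, -5⟩, (.cons (nat_lit 4678349) (nat_lit 3864368) (nat_lit 2956117) (nat_lit
 1) (.cons (nat_lit 414330) (nat_lit 634291) (nat_lit 8576) (nat_lit 1) .nil)), (nat_lit 1), (nat_lit 18),
 (nat_lit 29), (nat_lit 1), (3, 22, 21), [3993967, 1424097], 40⟩,
  mz,
  mz,
  ⟨⟨-3, -40, 8, 32, -5, -36, -16, -16, -19⟩, (.cons (nat_lit 4312999) (nat_lit 4133762) (nat_lit 852063)
 (nat_lit 1) (.cons (nat_lit 1782129) (nat_lit 882841) (nat_lit 1226847) (nat_lit 1) .nil)), (nat_lit 1),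
 (nat_lit 5), (nat_lit 25), (nat_lit 1), (32, 4, 35), [2101746, 1421722], 29⟩,
  mz,
  ⟨⟨21, -4, -49, -8, 35, -6, 32, 8, -13⟩, (.cons (nat_lit 3469823) (nat_lit 1220923) (nat_lit 4305166) (nat_lit
 1) (.cons (nat_lit 1467484) (nat_lit 742414) (nat_lit 558328) (nat_lit 1) .nil)), (nat_lit 40), (nat_lit 6),
 (nat_lit 27), (nat_lit 1), (18, 9, 1), [1736352, 1006223], 45⟩,
  ⟨⟨1, -24, -37, -30, 17, 0, 18, 12, -37⟩, (.cons (nat_lit 3225005) (nat_lit 4459384) (nat_lit 3975974)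
 (nat_lit 1) (.cons (nat_lit 1196502) (nat_lit 1057277) (nat_lit 1384140) (nat_lit 1) .nil)), (nat_lit 10),
 (nat_lit 43), (nat_lit 29), (nat_lit 1), (26, 34, 24), [4187814, 1684962], 9⟩]

/-- Moves. -/
noncomputable def t1_5 : List Mv := [
  mz,
  ⟨⟨3, -16, -43, 10, 33, -20, 30, -12, -23⟩, (.cons (nat_lit 2767332) (nat_lit 2611102) (nat_lit 3010223)
 (nat_lit 1) (.cons (nat_lit 613252) (nat_lit 1059658) (nat_lit 579005) (nat_lit 1) .nil)), (nat_lit 1),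
 (nat_lit 18), (nat_lit 33), (nat_lit 1), (25, 34, 28), [4435322, 1167854], 8⟩,
  mz,
  mz,
  ⟨⟨21, 4, 28, 8, 35, -14, 32, -8, -19⟩, (.cons (nat_lit 4826808) (nat_lit 3870509) (nat_lit 1547033) (nat_lit
 1) (.cons (nat_lit 1425476) (nat_lit 1018043) (nat_lit 1761999) (nat_lit 1) .nil)), (nat_lit 46), (nat_lit 7),
 (nat_lit 9), (nat_lit 1), (33, 2, 8), [4747384, 1716966], 18⟩,
  ⟨⟨21, -4, 28, -8, 35, 14, 32, 8, -19⟩, (.cons (nat_lit 4826808) (nat_lit 3496432) (nat_lit 1648458) (nat_lit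
 1) (.cons (nat_lit 1028292) (nat_lit 691621) (nat_lit 580498) (nat_lit 1) .nil)), (nat_lit 46), (nat_lit 45),
 (nat_lit 39), (nat_lit 1), (15, 26, 7), [3902238, 809546], 18⟩,
  mz,
  ⟨⟨-1, -24, -36, 30, 17, -30, -18, 12, -19⟩, (.cons (nat_lit 1738888) (nat_lit 1305455) (nat_lit 93072)
 (nat_lit 1) (.cons (nat_lit 1499386) (nat_lit 885095) (nat_lit 110208) (nat_lit 1) .nil)), (nat_lit 37),
 (nat_lit 43), (nat_lit 18), (nat_lit 1), (13, 17, 12), [1698451, 466968], 9⟩,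
  ⟨⟨-35, 12, -1, 12, 35, -6, 0, 0, -37⟩, (.cons (nat_lit 3463655) (nat_lit 3255587) (nat_lit 1) (nat_lit
 1363154) (.cons (nat_lit 353825) (nat_lit 423693) (nat_lit 512773) (nat_lit 1) .nil)), (nat_lit 46), (nat_lit
 33), (nat_lit 31), (nat_lit 1), (3, 18, 0), [3755070, 388739], 41⟩,
  mz,
  ⟨⟨-1, 24, -36, -30, 17, 30, -18, -12, -19⟩, (.cons (nat_lit 280220) (nat_lit 4427201) (nat_lit 3439996)
 (nat_lit 1) (.cons (nat_lit 413761) (nat_lit 1019282) (nat_lit 864789) (nat_lit 1) .nil)), (nat_lit 14),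
 (nat_lit 9), (nat_lit 30), (nat_lit 1), (10, 4, 32), [3131725, 549573], 25⟩,
  ⟨⟨27, -4, 20, 10, -33, -20, 30, 12, -23⟩, (.cons (nat_lit 3290443) (nat_lit 1341998) (nat_lit 4111131)
 (nat_lit 1) (.cons (nat_lit 223957) (nat_lit 1529890) (nat_lit 759273) (nat_lit 1) .nil)), (nat_lit 36),
 (nat_lit 37), (nat_lit 45), (nat_lit 1), (22, 15, 8), [699654, 1041787], 28⟩,
  ⟨⟨-25, -24, -11, -10, -17, 40, 14, -28, -19⟩, (.cons (nat_lit 4507204) (nat_lit 3436122) (nat_lit 1880168)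
 (nat_lit 1) (.cons (nat_lit 390234) (nat_lit 1118274) (nat_lit 1469609) (nat_lit 1) .nil)), (nat_lit 19),
 (nat_lit 34), (nat_lit 12), (nat_lit 1), (29, 19, 3), [3240827, 1476147], 11⟩,
  ⟨⟨-31, 24, 27, 8, -5, 36, 8, 32, -1⟩, (.cons (nat_lit 4826808) (nat_lit 1995273) (nat_lit 2886299) (nat_lit
 1) (.cons (nat_lit 384092) (nat_lit 900727) (nat_lit 1038712) (nat_lit 1) .nil)), (nat_lit 46), (nat_lit 12),
 (nat_lit 3), (nat_lit 1), (26, 10, 10), [2301184, 604956], 41⟩,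
  mz,
  ⟨⟨-3, 40, 8, -32, -5, 36, -16, 16, -19⟩, (.cons (nat_lit 2471120) (nat_lit 2078922) (nat_lit 1271384)
 (nat_lit 1) (.cons (nat_lit 505032) (nat_lit 1154438) (nat_lit 1762769) (nat_lit 1) .nil)), (nat_lit 1),
 (nat_lit 16), (nat_lit 46), (nat_lit 1), (27, 29, 33), [362125, 1768448], 29⟩,
  ⟨⟨21, 4, -49, -8, -35, -6, 32, -8, -13⟩, (.cons (nat_lit 4461738) (nat_lit 1033493) (nat_lit 3029009)
 (nat_lit 1) (.cons (nat_lit 269102) (nat_lit 1406390) (nat_lit 1191970) (nat_lit 1) .nil)), (nat_lit 1),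
 (nat_lit 45), (nat_lit 8), (nat_lit 1), (36, 18, 2), [4146778, 1126172], 29⟩,
  ⟨⟨39, -8, -11, 8, 5, -44, 8, -32, -7⟩, (.cons (nat_lit 4826808) (nat_lit 1126416) (nat_lit 4401238) (nat_lit
 1) (.cons (nat_lit 275039) (nat_lit 1783885) (nat_lit 457160) (nat_lit 1) .nil)), (nat_lit 46), (nat_lit 35),
 (nat_lit 44), (nat_lit 1), (5, 20, 20), [4323594, 48182], 6⟩,
  ⟨⟨39, 4, -8, -10, 17, 40, 14, 28, -19⟩, (.cons (nat_lit 4826808) (nat_lit 2268763) (nat_lit 3937883) (nat_lit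
 1) (.cons (nat_lit 448528) (nat_lit 502940) (nat_lit 1378481) (nat_lit 1) .nil)), (nat_lit 46), (nat_lit 18),
 (nat_lit 18), (nat_lit 1), (29, 3, 18), [3534328, 1274331], 40⟩,
  ⟨⟨39, -8, -28, -8, -5, -36, 8, -32, -1⟩, (.cons (nat_lit 2990997) (nat_lit 72102) (nat_lit 2906935) (nat_lit
 1) (.cons (nat_lit 1371082) (nat_lit 881345) (nat_lit 452127) (nat_lit 1) .nil)), (nat_lit 1), (nat_lit 32),
 (nat_lit 40), (nat_lit 1), (22, 23, 14), [187659, 10396], 41⟩,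
  ⟨⟨25, -24, -36, -10, 17, -30, -14, -28, -5⟩, (.cons (nat_lit 4826808) (nat_lit 1095338) (nat_lit 1573909)
 (nat_lit 1) (.cons (nat_lit 740045) (nat_lit 1217231) (nat_lit 1723749) (nat_lit 1) .nil)), (nat_lit 46),
 (nat_lit 4), (nat_lit 34), (nat_lit 1), (21, 36, 6), [2109788, 1773034], 40⟩,
  ⟨⟨13, -24, -40, -32, 5, -4, 16, 16, -35⟩, (.cons (nat_lit 1733791) (nat_lit 323919) (nat_lit 4404522)
 (nat_lit 1) (.cons (nat_lit 790175) (nat_lit 546003) (nat_lit 1464450) (nat_lit 1) .nil)), (nat_lit 15),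
 (nat_lit 15), (nat_lit 44), (nat_lit 1), (27, 36, 19), [401133, 620026], 11⟩,
  ⟨⟨39, 8, -11, 8, -5, -44, 8, 32, -7⟩, (.cons (nat_lit 3957064) (nat_lit 4631890) (nat_lit 79108) (nat_lit 1)
 (.cons (nat_lit 425268) (nat_lit 1360462) (nat_lit 1420042) (nat_lit 1) .nil)), (nat_lit 18), (nat_lit 16),
 (nat_lit 22), (nat_lit 1), (4, 16, 16), [4743431, 517079], 3⟩,
  mz,
  ⟨⟨3, -40, 5, -32, -5, -4, 16, -16, -35⟩, (.cons (nat_lit 4826808) (nat_lit 3702007) (nat_lit 3350191)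
 (nat_lit 1) (.cons (nat_lit 321485) (nat_lit 1375892) (nat_lit 481937) (nat_lit 1) .nil)), (nat_lit 46),
 (nat_lit 5), (nat_lit 22), (nat_lit 1), (34, 32, 21), [369787, 213769], 29⟩,
  ⟨⟨17, -36, 0, 30, 17, 0, 18, -12, -37⟩, (.cons (nat_lit 3748126) (nat_lit 81780) (nat_lit 1938205) (nat_lit
 1) (.cons (nat_lit 338837) (nat_lit 141716) (nat_lit 670967) (nat_lit 1) .nil)), (nat_lit 14), (nat_lit 38),
 (nat_lit 17), (nat_lit 1), (21, 24, 7), [1231593, 862200], 25⟩,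
  ⟨⟨27, -4, -47, -10, 33, -10, 30, 12, -7⟩, (.cons (nat_lit 281830) (nat_lit 3648050) (nat_lit 3767919)
 (nat_lit 1) (.cons (nat_lit 274365) (nat_lit 283126) (nat_lit 1229669) (nat_lit 1) .nil)), (nat_lit 30),
 (nat_lit 29), (nat_lit 13), (nat_lit 1), (15, 15, 29), [1966693, 653075], 39⟩,
  ⟨⟨27, 4, -47, 10, 33, 10, 30, -12, -7⟩, (.cons (nat_lit 4303579) (nat_lit 4018370) (nat_lit 4285886) (nat_lit
 1) (.cons (nat_lit 699829) (nat_lit 70715) (nat_lit 1699014) (nat_lit 1) .nil)), (nat_lit 11), (nat_lit 37),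
 (nat_lit 2), (nat_lit 1), (33, 4, 12), [1304450, 1764046], 19⟩,
  mz,
  ⟨⟨-35, -12, -1, -12, 35, 6, 0, 0, -37⟩, (.cons (nat_lit 4826808) (nat_lit 2831480) (nat_lit 1497530) (nat_lit
 1) (.cons (nat_lit 8720) (nat_lit 1641026) (nat_lit 1615958) (nat_lit 1) .nil)), (nat_lit 46), (nat_lit 14),
 (nat_lit 16), (nat_lit 1), (23, 10, 0), [3534214, 29474], 41⟩,
  ⟨⟨-39, 4, 31, -10, -17, -30, -14, 28, -5⟩, (.cons (nat_lit 4411969) (nat_lit 2097027) (nat_lit 1) (nat_lit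
 2148588) (.cons (nat_lit 603834) (nat_lit 328847) (nat_lit 657138) (nat_lit 1) .nil)), (nat_lit 5), (nat_lit
 18), (nat_lit 34), (nat_lit 1), (3, 15, 21), [363798, 870269], 40⟩,
  mz,
  mz,
  ⟨⟨-3, -40, 8, 32, -5, -36, -16, -16, -19⟩, (.cons (nat_lit 4312999) (nat_lit 4133762) (nat_lit 852063)
 (nat_lit 1) (.cons (nat_lit 1782129) (nat_lit 882841) (nat_lit 1226847) (nat_lit 1) .nil)), (nat_lit 1),
 (nat_lit 5), (nat_lit 25), (nat_lit 1), (32, 4, 35), [2101746, 1421722], 29⟩,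
  mz,
  ⟨⟨21, -4, -49, -8, 35, -6, 32, 8, -13⟩, (.cons (nat_lit 3469823) (nat_lit 1220923) (nat_lit 4305166) (nat_lit
 1) (.cons (nat_lit 1467484) (nat_lit 742414) (nat_lit 558328) (nat_lit 1) .nil)), (nat_lit 40), (nat_lit 6),
 (nat_lit 27), (nat_lit 1), (18, 9, 1), [1736352, 1006223], 45⟩,
  ⟨⟨17, 36, 0, -30, 17, 0, 18, 12, -37⟩, (.cons (nat_lit 372042) (nat_lit 2609176) (nat_lit 2639136) (nat_lit
 1) (.cons (nat_lit 587166) (nat_lit 654203) (nat_lit 125876) (nat_lit 1) .nil)), (nat_lit 37), (nat_lit 4),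
 (nat_lit 29), (nat_lit 1), (35, 34, 24), [4696836, 983644], 9⟩]

/-- Moves. -/
noncomputable def t4_2 : List Mv := [
  mz,
  ⟨⟨-25, 12, -36, 22, -35, -36, 20, 28, -37⟩, (.cons (nat_lit 4710101) (nat_lit 2359939) (nat_lit 2795432)
 (nat_lit 1) (.cons (nat_lit 9256) (nat_lit 1411520) (nat_lit 366617) (nat_lit 1) .nil)), (nat_lit 2), (nat_lit
 0), (nat_lit 0), (nat_lit 0), (2, 2, 36), [322189, 1134202], 0⟩,
  ⟨⟨21, -32, -49, 2, 35, -36, -28, -20, -13⟩, (.cons (nat_lit 2888389) (nat_lit 3041161) (nat_lit 3819214)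
 (nat_lit 1) (.cons (nat_lit 1169762) (nat_lit 1485881) (nat_lit 1549988) (nat_lit 1) .nil)), (nat_lit 5),
 (nat_lit 0), (nat_lit 0), (nat_lit 0), (33, 30, 3), [4064763, 1411985], 0⟩,
  ⟨⟨-51, 4, 19, -2, -45, -14, -12, 12, -37⟩, (.cons (nat_lit 421574) (nat_lit 2109832) (nat_lit 1) (nat_lit
 1853592) (.cons (nat_lit 1725981) (nat_lit 91299) (nat_lit 1435750) (nat_lit 1) .nil)), (nat_lit 33), (nat_lit
 0), (nat_lit 0), (nat_lit 0), (7, 27, 21), [1913251, 1833774], 0⟩,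
  mz,
  ⟨⟨25, -12, -61, 22, -35, 14, -20, -28, -17⟩, (.cons (nat_lit 277376) (nat_lit 791946) (nat_lit 1129636)
 (nat_lit 1) (.cons (nat_lit 1809302) (nat_lit 1337704) (nat_lit 1315624) (nat_lit 1) .nil)), (nat_lit 21),
 (nat_lit 0), (nat_lit 0), (nat_lit 0), (9, 38, 21), [4798515, 1062241], 0⟩,
  mz,
  mz,
  mz,
  ⟨⟨27, 32, -47, -40, 17, 0, 10, -16, -47⟩, (.cons (nat_lit 3798357) (nat_lit 3143530) (nat_lit 3885196)
 (nat_lit 1) (.cons (nat_lit 1715438) (nat_lit 1294816) (nat_lit 925971) (nat_lit 1) .nil)), (nat_lit 38),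
 (nat_lit 0), (nat_lit 0), (nat_lit 0), (43, 39, 2), [2082529, 1159933], 0⟩,
  mz,
  ⟨⟨-27, -32, -20, -40, 17, 40, -10, 16, -37⟩, (.cons (nat_lit 4826808) (nat_lit 1575426) (nat_lit 3004954)
 (nat_lit 1) (.cons (nat_lit 1874160) (nat_lit 1384036) (nat_lit 1056619) (nat_lit 1) .nil)), (nat_lit 11),
 (nat_lit 0), (nat_lit 0), (nat_lit 0), (46, 2, 24), [2461247, 109997], 0⟩,
  ⟨⟨17, -36, -45, 20, -23, 30, 38, 8, -37⟩, (.cons (nat_lit 3836874) (nat_lit 989934) (nat_lit 3871735)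
 (nat_lit 1) (.cons (nat_lit 1449966) (nat_lit 1236595) (nat_lit 250649) (nat_lit 1) .nil)), (nat_lit 16),
 (nat_lit 0), (nat_lit 0), (nat_lit 0), (19, 3, 1), [4269529, 1286076], 0⟩,
  mz,
  ⟨⟨-51, -4, 19, -2, 45, -14, -12, -12, -37⟩, (.cons (nat_lit 2815217) (nat_lit 2000774) (nat_lit 33648)
 (nat_lit 1) (.cons (nat_lit 65672) (nat_lit 1479157) (nat_lit 1315316) (nat_lit 1) .nil)), (nat_lit 33),
 (nat_lit 0), (nat_lit 0), (nat_lit 0), (25, 36, 28), [3355418, 1651447], 0⟩,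
  ⟨⟨9, 4, -61, 40, 23, -10, 22, -32, -29⟩, (.cons (nat_lit 2601503) (nat_lit 2283662) (nat_lit 1846642)
 (nat_lit 1) (.cons (nat_lit 36439) (nat_lit 1296283) (nat_lit 764498) (nat_lit 1) .nil)), (nat_lit 35),
 (nat_lit 0), (nat_lit 0), (nat_lit 0), (18, 33, 44), [3581196, 468026], 0⟩,
  ⟨⟨-13, 36, 45, 40, 23, -30, -22, 32, -7⟩, (.cons (nat_lit 3502361) (nat_lit 3719336) (nat_lit 1061825)
 (nat_lit 1) (.cons (nat_lit 1486111) (nat_lit 1592425) (nat_lit 1115128) (nat_lit 1) .nil)), (nat_lit 27),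
 (nat_lit 0), (nat_lit 0), (nat_lit 0), (5, 28, 41), [4457289, 164193], 0⟩,
  mz,
  ⟨⟨23, 0, 40, 0, -47, 0, 42, 0, -23⟩, (.cons (nat_lit 4826808) (nat_lit 270099) (nat_lit 1928358) (nat_lit 1)
 (.cons (nat_lit 1874160) (nat_lit 1193758) (nat_lit 132083) (nat_lit 1) .nil)), (nat_lit 18), (nat_lit 0),
 (nat_lit 0), (nat_lit 0), (7, 0, 23), [1926939, 977755], 0⟩,
  ⟨⟨45, -8, -49, 20, 33, 20, 6, 24, -41⟩, (.cons (nat_lit 4123083) (nat_lit 4286192) (nat_lit 4495255) (nat_lit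
 1) (.cons (nat_lit 1031809) (nat_lit 143405) (nat_lit 151269) (nat_lit 1) .nil)), (nat_lit 28), (nat_lit 0),
 (nat_lit 0), (nat_lit 0), (29, 39, 7), [2760991, 10290], 0⟩,
  ⟨⟨17, -36, 28, 20, -23, -50, 38, 8, -1⟩, (.cons (nat_lit 1093803) (nat_lit 2649213) (nat_lit 336515) (nat_lit
 1) (.cons (nat_lit 1572555) (nat_lit 1817229) (nat_lit 329634) (nat_lit 1) .nil)), (nat_lit 16), (nat_lit 0),
 (nat_lit 0), (nat_lit 0), (2, 30, 10), [3235860, 402112], 0⟩,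
  ⟨⟨21, 32, -49, -2, 35, 36, -28, 20, -13⟩, (.cons (nat_lit 1733841) (nat_lit 4288265) (nat_lit 2065540)
 (nat_lit 1) (.cons (nat_lit 480858) (nat_lit 1521683) (nat_lit 1) (nat_lit 1703998) .nil)), (nat_lit 46),
 (nat_lit 0), (nat_lit 0), (nat_lit 0), (30, 24, 7), [3936097, 559502], 0⟩,
  ⟨⟨-39, -32, 8, -20, 33, -20, 6, -24, -41⟩, (.cons (nat_lit 4826808) (nat_lit 693035) (nat_lit 896607)
 (nat_lit 1) (.cons (nat_lit 1874160) (nat_lit 1374572) (nat_lit 1750908) (nat_lit 1) .nil)), (nat_lit 22),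
 (nat_lit 0), (nat_lit 0), (nat_lit 0), (28, 24, 21), [2159815, 1675227], 0⟩,
  mz,
  mz,
  ⟨⟨-45, 8, -4, 20, 33, -40, -6, -24, -35⟩, (.cons (nat_lit 4826808) (nat_lit 855355) (nat_lit 2244489)
 (nat_lit 1) (.cons (nat_lit 1874160) (nat_lit 12708) (nat_lit 1101884) (nat_lit 1) .nil)), (nat_lit 25),
 (nat_lit 0), (nat_lit 0), (nat_lit 0), (40, 24, 21), [2184954, 1508729], 0⟩,
  ⟨⟨-21, 32, -28, -2, -35, -34, 28, 20, -41⟩, (.cons (nat_lit 4332815) (nat_lit 2657607) (nat_lit 97098)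
 (nat_lit 1) (.cons (nat_lit 523519) (nat_lit 325255) (nat_lit 571573) (nat_lit 1) .nil)), (nat_lit 5),
 (nat_lit 0), (nat_lit 0), (nat_lit 0), (30, 23, 7), [455114, 433311], 0⟩,
  ⟨⟨17, 36, -45, 20, 23, 30, 38, -8, -37⟩, (.cons (nat_lit 535088) (nat_lit 3344885) (nat_lit 3525408) (nat_lit
 1) (.cons (nat_lit 1143627) (nat_lit 759835) (nat_lit 1104804) (nat_lit 1) .nil)), (nat_lit 16), (nat_lit 0),
 (nat_lit 0), (nat_lit 0), (45, 17, 37), [2910981, 559564], 0⟩,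
  ⟨⟨39, 32, -31, -20, 33, 40, -6, 24, -35⟩, (.cons (nat_lit 2164535) (nat_lit 1804989) (nat_lit 621652)
 (nat_lit 1) (.cons (nat_lit 1340077) (nat_lit 852594) (nat_lit 894369) (nat_lit 1) .nil)), (nat_lit 19),
 (nat_lit 0), (nat_lit 0), (nat_lit 0), (25, 39, 7), [3594120, 1565584], 0⟩,
  ⟨⟨19, 0, 44, 0, -47, 0, 42, 0, -19⟩, (.cons (nat_lit 4826808) (nat_lit 2995105) (nat_lit 1323489) (nat_lit 1)
 (.cons (nat_lit 1874160) (nat_lit 1828508) (nat_lit 46963) (nat_lit 1) .nil)), (nat_lit 29), (nat_lit 0),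
 (nat_lit 0), (nat_lit 0), (31, 0, 24), [1186204, 71899], 0⟩,
  mz,
  ⟨⟨9, -4, -61, 40, -23, -10, 22, 32, -29⟩, (.cons (nat_lit 3314437) (nat_lit 603868) (nat_lit 4738927)
 (nat_lit 1) (.cons (nat_lit 457173) (nat_lit 7902) (nat_lit 724711) (nat_lit 1) .nil)), (nat_lit 35), (nat_lit
 0), (nat_lit 0), (nat_lit 0), (36, 19, 41), [3234027, 436242], 0⟩,
  ⟨⟨-9, 4, -52, 40, -23, -30, -22, -32, -7⟩, (.cons (nat_lit 3900706) (nat_lit 773629) (nat_lit 3460140)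
 (nat_lit 1) (.cons (nat_lit 1784878) (nat_lit 1814778) (nat_lit 1309618) (nat_lit 1) .nil)), (nat_lit 20),
 (nat_lit 0), (nat_lit 0), (nat_lit 0), (18, 14, 44), [1188894, 362076], 0⟩,
  ⟨⟨-39, -8, -17, -2, -45, 16, 12, -12, -49⟩, (.cons (nat_lit 4736225) (nat_lit 3625088) (nat_lit 1460715)
 (nat_lit 1) (.cons (nat_lit 1237480) (nat_lit 1235204) (nat_lit 214644) (nat_lit 1) .nil)), (nat_lit 3),
 (nat_lit 0), (nat_lit 0), (nat_lit 0), (3, 11, 28), [4403002, 1082745], 0⟩,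
  mz,
  ⟨⟨17, 36, 28, 20, 23, -50, 38, -8, -1⟩, (.cons (nat_lit 834087) (nat_lit 2545303) (nat_lit 1507028) (nat_lit
 1) (.cons (nat_lit 1363330) (nat_lit 690684) (nat_lit 162205) (nat_lit 1) .nil)), (nat_lit 16), (nat_lit 0),
 (nat_lit 0), (nat_lit 0), (28, 44, 46), [2357584, 1436169], 0⟩,
  ⟨⟨27, -32, -47, -40, -17, 0, 10, 16, -47⟩, (.cons (nat_lit 1110834) (nat_lit 789850) (nat_lit 4117045)
 (nat_lit 1) (.cons (nat_lit 87724) (nat_lit 747805) (nat_lit 1548176) (nat_lit 1) .nil)), (nat_lit 38),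
 (nat_lit 0), (nat_lit 0), (nat_lit 0), (46, 45, 24), [723798, 1080144], 0⟩,
  mz,
  ⟨⟨17, -48, -17, -40, -17, 40, -10, -16, -37⟩, (.cons (nat_lit 2751714) (nat_lit 3214474) (nat_lit 636635)
 (nat_lit 1) (.cons (nat_lit 501954) (nat_lit 750754) (nat_lit 226102) (nat_lit 1) .nil)), (nat_lit 36),
 (nat_lit 0), (nat_lit 0), (nat_lit 0), (6, 8, 2), [3780846, 1463486], 0⟩,
  mz,
  mz,
  mz,
  ⟨⟨45, -16, -1, -22, -35, 36, 20, -28, -37⟩, (.cons (nat_lit 3834942) (nat_lit 1302680) (nat_lit 2312562)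
 (nat_lit 1) (.cons (nat_lit 82255) (nat_lit 573941) (nat_lit 544316) (nat_lit 1) .nil)), (nat_lit 26),
 (nat_lit 0), (nat_lit 0), (nat_lit 0), (12, 38, 21), [1576954, 1216796], 0⟩,
  mz,
  ⟨⟨-39, 8, -17, -2, 45, 16, 12, 12, -49⟩, (.cons (nat_lit 3103120) (nat_lit 2822410) (nat_lit 1006468)
 (nat_lit 1) (.cons (nat_lit 817860) (nat_lit 963749) (nat_lit 236413) (nat_lit 1) .nil)), (nat_lit 3),
 (nat_lit 0), (nat_lit 0), (nat_lit 0), (14, 20, 21), [4283250, 824737], 0⟩,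
  ⟨⟨-21, -32, -28, -2, 35, -34, 28, -20, -41⟩, (.cons (nat_lit 2996114) (nat_lit 1319486) (nat_lit 406217)
 (nat_lit 1) (.cons (nat_lit 1276497) (nat_lit 1779880) (nat_lit 1772375) (nat_lit 1) .nil)), (nat_lit 5),
 (nat_lit 0), (nat_lit 0), (nat_lit 0), (33, 30, 3), [10623, 772765], 0⟩,
  ⟨⟨-45, 16, 44, -22, -35, -14, -20, 28, -17⟩, (.cons (nat_lit 2190242) (nat_lit 24280) (nat_lit 2251299)
 (nat_lit 1) (.cons (nat_lit 1092754) (nat_lit 1166745) (nat_lit 598105) (nat_lit 1) .nil)), (nat_lit 45),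
 (nat_lit 0), (nat_lit 0), (nat_lit 0), (34, 2, 36), [2390969, 436751], 0⟩]

/-- Moves. -/
noncomputable def t4_4 : List Mv := [
  mz,
  ⟨⟨45, 16, -1, 22, -35, -36, 20, 28, -37⟩, (.cons (nat_lit 2565815) (nat_lit 1268477) (nat_lit 496503)
 (nat_lit 1) (.cons (nat_lit 326951) (nat_lit 431419) (nat_lit 813922) (nat_lit 1) .nil)), (nat_lit 45),
 (nat_lit 0), (nat_lit 0), (nat_lit 0), (34, 2, 36), [796217, 90948], 0⟩,
  ⟨⟨21, -32, -49, 2, 35, -36, -28, -20, -13⟩, (.cons (nat_lit 2888389) (nat_lit 3041161) (nat_lit 3819214)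
 (nat_lit 1) (.cons (nat_lit 1169762) (nat_lit 1485881) (nat_lit 1549988) (nat_lit 1) .nil)), (nat_lit 5),
 (nat_lit 0), (nat_lit 0), (nat_lit 0), (33, 30, 3), [4064763, 1411985], 0⟩,
  ⟨⟨39, 8, -56, -2, -45, -14, -12, 12, -37⟩, (.cons (nat_lit 2490375) (nat_lit 32594) (nat_lit 3241747)
 (nat_lit 1) (.cons (nat_lit 393919) (nat_lit 633119) (nat_lit 1059062) (nat_lit 1) .nil)), (nat_lit 14),
 (nat_lit 0), (nat_lit 0), (nat_lit 0), (14, 27, 21), [2023967, 64969], 0⟩,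
  mz,
  ⟨⟨-45, -16, 44, -22, 35, -14, -20, -28, -17⟩, (.cons (nat_lit 1223999) (nat_lit 746886) (nat_lit 393307)
 (nat_lit 1) (.cons (nat_lit 1051478) (nat_lit 651223) (nat_lit 1775803) (nat_lit 1) .nil)), (nat_lit 45),
 (nat_lit 0), (nat_lit 0), (nat_lit 0), (12, 9, 21), [4236380, 254924], 0⟩,
  mz,
  mz,
  mz,
  ⟨⟨27, 32, -47, -40, 17, 0, 10, -16, -47⟩, (.cons (nat_lit 3798357) (nat_lit 3143530) (nat_lit 3885196)
 (nat_lit 1) (.cons (nat_lit 1715438) (nat_lit 1294816) (nat_lit 925971) (nat_lit 1) .nil)), (nat_lit 38),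
 (nat_lit 0), (nat_lit 0), (nat_lit 0), (43, 39, 2), [2082529, 1159933], 0⟩,
  mz,
  ⟨⟨17, 48, -17, 40, -17, -40, -10, 16, -37⟩, (.cons (nat_lit 1229015) (nat_lit 4497677) (nat_lit 2795658)
 (nat_lit 1) (.cons (nat_lit 1103872) (nat_lit 110809) (nat_lit 1380203) (nat_lit 1) .nil)), (nat_lit 9),
 (nat_lit 0), (nat_lit 0), (nat_lit 0), (25, 45, 24), [2445626, 1297953], 0⟩,
  ⟨⟨17, -36, -45, -20, 23, -30, 38, 8, -37⟩, (.cons (nat_lit 4066446) (nat_lit 3070413) (nat_lit 4071953)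
 (nat_lit 1) (.cons (nat_lit 404701) (nat_lit 562153) (nat_lit 1262842) (nat_lit 1) .nil)), (nat_lit 32),
 (nat_lit 0), (nat_lit 0), (nat_lit 0), (19, 44, 1), [2340617, 82209], 0⟩,
  mz,
  ⟨⟨-51, -4, 19, -2, 45, -14, -12, -12, -37⟩, (.cons (nat_lit 2815217) (nat_lit 2000774) (nat_lit 33648)
 (nat_lit 1) (.cons (nat_lit 65672) (nat_lit 1479157) (nat_lit 1315316) (nat_lit 1) .nil)), (nat_lit 33),
 (nat_lit 0), (nat_lit 0), (nat_lit 0), (25, 36, 28), [3355418, 1651447], 0⟩,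
  ⟨⟨13, -36, 32, -40, -23, 10, 22, -32, -29⟩, (.cons (nat_lit 3886279) (nat_lit 1689991) (nat_lit 2938977)
 (nat_lit 1) (.cons (nat_lit 948671) (nat_lit 1169614) (nat_lit 1237669) (nat_lit 1) .nil)), (nat_lit 27),
 (nat_lit 0), (nat_lit 0), (nat_lit 0), (26, 14, 44), [4608154, 935457], 0⟩,
  ⟨⟨-13, 36, 45, 40, 23, -30, -22, 32, -7⟩, (.cons (nat_lit 3502361) (nat_lit 3719336) (nat_lit 1061825)
 (nat_lit 1) (.cons (nat_lit 1486111) (nat_lit 1592425) (nat_lit 1115128) (nat_lit 1) .nil)), (nat_lit 27),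
 (nat_lit 0), (nat_lit 0), (nat_lit 0), (5, 28, 41), [4457289, 164193], 0⟩,
  mz,
  ⟨⟨19, 0, -63, 0, -47, 0, 42, 0, -23⟩, (.cons (nat_lit 1461673) (nat_lit 1121946) (nat_lit 3039753) (nat_lit
 1) (.cons (nat_lit 1064884) (nat_lit 49036) (nat_lit 632172) (nat_lit 1) .nil)), (nat_lit 29), (nat_lit 0),
 (nat_lit 0), (nat_lit 0), (16, 0, 23), [209554, 787389], 0⟩,
  ⟨⟨-39, 32, 8, -20, -33, -20, 6, 24, -41⟩, (.cons (nat_lit 627868) (nat_lit 3798577) (nat_lit 2581140)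
 (nat_lit 1) (.cons (nat_lit 718844) (nat_lit 1593602) (nat_lit 1199626) (nat_lit 1) .nil)), (nat_lit 22),
 (nat_lit 0), (nat_lit 0), (nat_lit 0), (25, 8, 7), [252957, 1301614], 0⟩,
  ⟨⟨17, -36, 28, -20, 23, 50, 38, 8, -1⟩, (.cons (nat_lit 2871658) (nat_lit 3683885) (nat_lit 4798246) (nat_lit
 1) (.cons (nat_lit 1138397) (nat_lit 441781) (nat_lit 1760739) (nat_lit 1) .nil)), (nat_lit 32), (nat_lit 0),
 (nat_lit 0), (nat_lit 0), (2, 17, 10), [4341006, 1012451], 0⟩,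
  ⟨⟨-49, -12, 36, -2, 35, 36, -28, 20, -13⟩, (.cons (nat_lit 4198854) (nat_lit 2352478) (nat_lit 3622217)
 (nat_lit 1) (.cons (nat_lit 1575546) (nat_lit 773587) (nat_lit 570842) (nat_lit 1) .nil)), (nat_lit 1),
 (nat_lit 0), (nat_lit 0), (nat_lit 0), (24, 24, 7), [2095748, 1213779], 0⟩,
  ⟨⟨-39, -32, 8, 20, -33, 20, 6, -24, -41⟩, (.cons (nat_lit 3710098) (nat_lit 1954440) (nat_lit 514482)
 (nat_lit 1) (.cons (nat_lit 186161) (nat_lit 25251) (nat_lit 1448974) (nat_lit 1) .nil)), (nat_lit 19),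
 (nat_lit 0), (nat_lit 0), (nat_lit 0), (28, 23, 21), [2345030, 317805], 0⟩,
  mz,
  mz,
  ⟨⟨-45, 8, -4, 20, 33, -40, -6, -24, -35⟩, (.cons (nat_lit 4826808) (nat_lit 855355) (nat_lit 2244489)
 (nat_lit 1) (.cons (nat_lit 1874160) (nat_lit 12708) (nat_lit 1101884) (nat_lit 1) .nil)), (nat_lit 25),
 (nat_lit 0), (nat_lit 0), (nat_lit 0), (40, 24, 21), [2184954, 1508729], 0⟩,
  ⟨⟨-21, 32, -28, -2, -35, -34, 28, 20, -41⟩, (.cons (nat_lit 4332815) (nat_lit 2657607) (nat_lit 97098)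
 (nat_lit 1) (.cons (nat_lit 523519) (nat_lit 325255) (nat_lit 571573) (nat_lit 1) .nil)), (nat_lit 5),
 (nat_lit 0), (nat_lit 0), (nat_lit 0), (30, 23, 7), [455114, 433311], 0⟩,
  ⟨⟨17, 36, -45, -20, -23, -30, 38, -8, -37⟩, (.cons (nat_lit 825665) (nat_lit 4255517) (nat_lit 1893379)
 (nat_lit 1) (.cons (nat_lit 1582306) (nat_lit 1321930) (nat_lit 430079) (nat_lit 1) .nil)), (nat_lit 32),
 (nat_lit 0), (nat_lit 0), (nat_lit 0), (45, 30, 37), [331153, 1384108], 0⟩,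
  ⟨⟨39, 32, -31, -20, 33, 40, -6, 24, -35⟩, (.cons (nat_lit 2164535) (nat_lit 1804989) (nat_lit 621652)
 (nat_lit 1) (.cons (nat_lit 1340077) (nat_lit 852594) (nat_lit 894369) (nat_lit 1) .nil)), (nat_lit 19),
 (nat_lit 0), (nat_lit 0), (nat_lit 0), (25, 39, 7), [3594120, 1565584], 0⟩,
  ⟨⟨19, 0, 44, 0, -47, 0, 42, 0, -19⟩, (.cons (nat_lit 4826808) (nat_lit 2995105) (nat_lit 1323489) (nat_lit 1)
 (.cons (nat_lit 1874160) (nat_lit 1828508) (nat_lit 46963) (nat_lit 1) .nil)), (nat_lit 29), (nat_lit 0),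
 (nat_lit 0), (nat_lit 0), (31, 0, 24), [1186204, 71899], 0⟩,
  mz,
  ⟨⟨9, -4, -61, -40, 23, 10, 22, 32, -29⟩, (.cons (nat_lit 874335) (nat_lit 1000253) (nat_lit 3080837) (nat_lit
 1) (.cons (nat_lit 1764562) (nat_lit 342348) (nat_lit 1776719) (nat_lit 1) .nil)), (nat_lit 20), (nat_lit 0),
 (nat_lit 0), (nat_lit 0), (36, 28, 41), [1728018, 702107], 0⟩,
  ⟨⟨-13, -36, 45, -40, 23, 30, -22, -32, -7⟩, (.cons (nat_lit 888058) (nat_lit 3017427) (nat_lit 3848919)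
 (nat_lit 1) (.cons (nat_lit 1052672) (nat_lit 1738773) (nat_lit 850925) (nat_lit 1) .nil)), (nat_lit 12),
 (nat_lit 0), (nat_lit 0), (nat_lit 0), (26, 33, 44), [1079856, 669759], 0⟩,
  ⟨⟨-39, -8, -17, 2, 45, -16, 12, -12, -49⟩, (.cons (nat_lit 932159) (nat_lit 892062) (nat_lit 4145659)
 (nat_lit 1) (.cons (nat_lit 1677333) (nat_lit 1721773) (nat_lit 39591) (nat_lit 1) .nil)), (nat_lit 14),
 (nat_lit 0), (nat_lit 0), (nat_lit 0), (3, 36, 28), [2505487, 1520226], 0⟩,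
  mz,
  ⟨⟨17, 36, 28, 20, 23, -50, 38, -8, -1⟩, (.cons (nat_lit 834087) (nat_lit 2545303) (nat_lit 1507028) (nat_lit
 1) (.cons (nat_lit 1363330) (nat_lit 690684) (nat_lit 162205) (nat_lit 1) .nil)), (nat_lit 16), (nat_lit 0),
 (nat_lit 0), (nat_lit 0), (28, 44, 46), [2357584, 1436169], 0⟩,
  ⟨⟨27, -32, -47, -40, -17, 0, 10, 16, -47⟩, (.cons (nat_lit 1110834) (nat_lit 789850) (nat_lit 4117045)
 (nat_lit 1) (.cons (nat_lit 87724) (nat_lit 747805) (nat_lit 1548176) (nat_lit 1) .nil)), (nat_lit 38),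
 (nat_lit 0), (nat_lit 0), (nat_lit 0), (46, 45, 24), [723798, 1080144], 0⟩,
  mz,
  ⟨⟨-27, 32, -20, 40, 17, -40, -10, -16, -37⟩, (.cons (nat_lit 4826808) (nat_lit 4592771) (nat_lit 4276490)
 (nat_lit 1) (.cons (nat_lit 1874160) (nat_lit 490117) (nat_lit 1871257) (nat_lit 1) .nil)), (nat_lit 38),
 (nat_lit 0), (nat_lit 0), (nat_lit 0), (43, 39, 2), [1644490, 660476], 0⟩,
  mz,
  mz,
  mz,
  ⟨⟨45, -16, -1, 22, 35, -36, 20, -28, -37⟩, (.cons (nat_lit 2306517) (nat_lit 2703089) (nat_lit 4235597)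
 (nat_lit 1) (.cons (nat_lit 951442) (nat_lit 1076037) (nat_lit 1) (nat_lit 1195840) .nil)), (nat_lit 45),
 (nat_lit 0), (nat_lit 0), (nat_lit 0), (12, 9, 21), [2000345, 1732962], 0⟩,
  mz,
  ⟨⟨51, 4, -32, 2, -45, -16, 12, 12, -49⟩, (.cons (nat_lit 3004317) (nat_lit 4050222) (nat_lit 4007782)
 (nat_lit 1) (.cons (nat_lit 391292) (nat_lit 1829242) (nat_lit 714560) (nat_lit 1) .nil)), (nat_lit 33),
 (nat_lit 0), (nat_lit 0), (nat_lit 0), (7, 27, 21), [3653348, 1557142], 0⟩,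
  ⟨⟨49, 12, -13, 2, -35, 34, 28, -20, -41⟩, (.cons (nat_lit 2245420) (nat_lit 2577897) (nat_lit 4788897)
 (nat_lit 1) (.cons (nat_lit 978430) (nat_lit 241538) (nat_lit 915499) (nat_lit 1) .nil)), (nat_lit 1),
 (nat_lit 0), (nat_lit 0), (nat_lit 0), (17, 17, 3), [4286055, 669930], 0⟩,
  ⟨⟨-45, 16, 44, -22, -35, -14, -20, 28, -17⟩, (.cons (nat_lit 2190242) (nat_lit 24280) (nat_lit 2251299)
 (nat_lit 1) (.cons (nat_lit 1092754) (nat_lit 1166745) (nat_lit 598105) (nat_lit 1) .nil)), (nat_lit 45),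
 (nat_lit 0), (nat_lit 0), (nat_lit 0), (34, 2, 36), [2390969, 436751], 0⟩]

/-- Moves. -/
noncomputable def t4_5 : List Mv := [
  mz,
  ⟨⟨45, 16, -1, 22, -35, -36, 20, 28, -37⟩, (.cons (nat_lit 2565815) (nat_lit 1268477) (nat_lit 496503)
 (nat_lit 1) (.cons (nat_lit 326951) (nat_lit 431419) (nat_lit 813922) (nat_lit 1) .nil)), (nat_lit 45),
 (nat_lit 0), (nat_lit 0), (nat_lit 0), (34, 2, 36), [796217, 90948], 0⟩,
  ⟨⟨-49, 12, 36, -2, -35, 36, -28, -20, -13⟩, (.cons (nat_lit 2475731) (nat_lit 3025978) (nat_lit 3831925)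
 (nat_lit 1) (.cons (nat_lit 1261657) (nat_lit 1805975) (nat_lit 1778753) (nat_lit 1) .nil)), (nat_lit 1),
 (nat_lit 0), (nat_lit 0), (nat_lit 0), (17, 17, 3), [4580655, 577825], 0⟩,
  ⟨⟨-51, 4, 19, 2, 45, 14, -12, 12, -37⟩, (.cons (nat_lit 1607595) (nat_lit 4792230) (nat_lit 1720430) (nat_lit
 1) (.cons (nat_lit 816291) (nat_lit 60562) (nat_lit 553987) (nat_lit 1) .nil)), (nat_lit 44), (nat_lit 0),
 (nat_lit 0), (nat_lit 0), (7, 20, 21), [4092518, 489536], 0⟩,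
  mz,
  ⟨⟨-45, -16, 44, -22, 35, -14, -20, -28, -17⟩, (.cons (nat_lit 1223999) (nat_lit 746886) (nat_lit 393307)
 (nat_lit 1) (.cons (nat_lit 1051478) (nat_lit 651223) (nat_lit 1775803) (nat_lit 1) .nil)), (nat_lit 45),
 (nat_lit 0), (nat_lit 0), (nat_lit 0), (12, 9, 21), [4236380, 254924], 0⟩,
  mz,
  mz,
  mz,
  ⟨⟨-17, -48, 0, 40, -17, 0, 10, -16, -47⟩, (.cons (nat_lit 1696564) (nat_lit 2790649) (nat_lit 1) (nat_lit
 3492229) (.cons (nat_lit 360475) (nat_lit 1449502) (nat_lit 1856704) (nat_lit 1) .nil)), (nat_lit 36),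
 (nat_lit 0), (nat_lit 0), (nat_lit 0), (6, 8, 2), [3011287, 319436], 0⟩,
  mz,
  ⟨⟨-27, -32, -20, -40, 17, 40, -10, 16, -37⟩, (.cons (nat_lit 4826808) (nat_lit 1575426) (nat_lit 3004954)
 (nat_lit 1) (.cons (nat_lit 1874160) (nat_lit 1384036) (nat_lit 1056619) (nat_lit 1) .nil)), (nat_lit 11),
 (nat_lit 0), (nat_lit 0), (nat_lit 0), (46, 2, 24), [2461247, 109997], 0⟩,
  ⟨⟨21, 44, 8, 20, -23, 30, 38, 8, -37⟩, (.cons (nat_lit 2741587) (nat_lit 2336713) (nat_lit 2511115) (nat_lit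
 1) (.cons (nat_lit 1337474) (nat_lit 1314011) (nat_lit 1491485) (nat_lit 1) .nil)), (nat_lit 31), (nat_lit 0),
 (nat_lit 0), (nat_lit 0), (29, 3, 1), [1924655, 1328960], 0⟩,
  mz,
  ⟨⟨-51, -4, 19, -2, 45, -14, -12, -12, -37⟩, (.cons (nat_lit 2815217) (nat_lit 2000774) (nat_lit 33648)
 (nat_lit 1) (.cons (nat_lit 65672) (nat_lit 1479157) (nat_lit 1315316) (nat_lit 1) .nil)), (nat_lit 33),
 (nat_lit 0), (nat_lit 0), (nat_lit 0), (25, 36, 28), [3355418, 1651447], 0⟩,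
  ⟨⟨9, 4, -61, 40, 23, -10, 22, -32, -29⟩, (.cons (nat_lit 2601503) (nat_lit 2283662) (nat_lit 1846642)
 (nat_lit 1) (.cons (nat_lit 36439) (nat_lit 1296283) (nat_lit 764498) (nat_lit 1) .nil)), (nat_lit 35),
 (nat_lit 0), (nat_lit 0), (nat_lit 0), (18, 33, 44), [3581196, 468026], 0⟩,
  ⟨⟨-13, 36, 45, -40, -23, 30, -22, 32, -7⟩, (.cons (nat_lit 1328113) (nat_lit 1328114) (nat_lit 4231443)
 (nat_lit 1) (.cons (nat_lit 10608) (nat_lit 1327240) (nat_lit 549867) (nat_lit 1) .nil)), (nat_lit 12),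
 (nat_lit 0), (nat_lit 0), (nat_lit 0), (5, 19, 41), [3448823, 1659565], 0⟩,
  mz,
  ⟨⟨23, 0, 40, 0, -47, 0, 42, 0, -23⟩, (.cons (nat_lit 4826808) (nat_lit 270099) (nat_lit 1928358) (nat_lit 1)
 (.cons (nat_lit 1874160) (nat_lit 1193758) (nat_lit 132083) (nat_lit 1) .nil)), (nat_lit 18), (nat_lit 0),
 (nat_lit 0), (nat_lit 0), (7, 0, 23), [1926939, 977755], 0⟩,
  ⟨⟨-39, 32, 8, -20, -33, -20, 6, 24, -41⟩, (.cons (nat_lit 627868) (nat_lit 3798577) (nat_lit 2581140)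
 (nat_lit 1) (.cons (nat_lit 718844) (nat_lit 1593602) (nat_lit 1199626) (nat_lit 1) .nil)), (nat_lit 22),
 (nat_lit 0), (nat_lit 0), (nat_lit 0), (25, 8, 7), [252957, 1301614], 0⟩,
  ⟨⟨17, -36, 28, -20, 23, 50, 38, 8, -1⟩, (.cons (nat_lit 2871658) (nat_lit 3683885) (nat_lit 4798246) (nat_lit
 1) (.cons (nat_lit 1138397) (nat_lit 441781) (nat_lit 1760739) (nat_lit 1) .nil)), (nat_lit 32), (nat_lit 0),
 (nat_lit 0), (nat_lit 0), (2, 17, 10), [4341006, 1012451], 0⟩,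
  ⟨⟨21, 32, -49, 2, -35, -36, -28, 20, -13⟩, (.cons (nat_lit 2153754) (nat_lit 2284664) (nat_lit 4676524)
 (nat_lit 1) (.cons (nat_lit 1607336) (nat_lit 781511) (nat_lit 1647695) (nat_lit 1) .nil)), (nat_lit 5),
 (nat_lit 0), (nat_lit 0), (nat_lit 0), (30, 23, 7), [3954411, 289527], 0⟩,
  ⟨⟨-39, -32, 8, -20, 33, -20, 6, -24, -41⟩, (.cons (nat_lit 4826808) (nat_lit 693035) (nat_lit 896607)
 (nat_lit 1) (.cons (nat_lit 1874160) (nat_lit 1374572) (nat_lit 1750908) (nat_lit 1) .nil)), (nat_lit 22),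
 (nat_lit 0), (nat_lit 0), (nat_lit 0), (28, 24, 21), [2159815, 1675227], 0⟩,
  mz,
  mz,
  ⟨⟨-45, 8, -4, 20, 33, -40, -6, -24, -35⟩, (.cons (nat_lit 4826808) (nat_lit 855355) (nat_lit 2244489)
 (nat_lit 1) (.cons (nat_lit 1874160) (nat_lit 12708) (nat_lit 1101884) (nat_lit 1) .nil)), (nat_lit 25),
 (nat_lit 0), (nat_lit 0), (nat_lit 0), (40, 24, 21), [2184954, 1508729], 0⟩,
  ⟨⟨49, -12, -13, -2, -35, -34, 28, 20, -41⟩, (.cons (nat_lit 507535) (nat_lit 1295784) (nat_lit 29006)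
 (nat_lit 1) (.cons (nat_lit 1760784) (nat_lit 838837) (nat_lit 541724) (nat_lit 1) .nil)), (nat_lit 42),
 (nat_lit 0), (nat_lit 0), (nat_lit 0), (24, 23, 7), [1101641, 1832856], 0⟩,
  ⟨⟨17, 36, -45, 20, 23, 30, 38, -8, -37⟩, (.cons (nat_lit 535088) (nat_lit 3344885) (nat_lit 3525408) (nat_lit
 1) (.cons (nat_lit 1143627) (nat_lit 759835) (nat_lit 1104804) (nat_lit 1) .nil)), (nat_lit 16), (nat_lit 0),
 (nat_lit 0), (nat_lit 0), (45, 17, 37), [2910981, 559564], 0⟩,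
  ⟨⟨-45, -8, -4, 20, -33, -40, -6, 24, -35⟩, (.cons (nat_lit 4609378) (nat_lit 4440193) (nat_lit 2834363)
 (nat_lit 1) (.cons (nat_lit 1190372) (nat_lit 1039783) (nat_lit 1106871) (nat_lit 1) .nil)), (nat_lit 25),
 (nat_lit 0), (nat_lit 0), (nat_lit 0), (29, 8, 7), [1855571, 610454], 0⟩,
  ⟨⟨19, 0, 44, 0, -47, 0, 42, 0, -19⟩, (.cons (nat_lit 4826808) (nat_lit 2995105) (nat_lit 1323489) (nat_lit 1)
 (.cons (nat_lit 1874160) (nat_lit 1828508) (nat_lit 46963) (nat_lit 1) .nil)), (nat_lit 29), (nat_lit 0),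
 (nat_lit 0), (nat_lit 0), (31, 0, 24), [1186204, 71899], 0⟩,
  mz,
  ⟨⟨13, 36, 32, 40, -23, -10, 22, 32, -29⟩, (.cons (nat_lit 1217187) (nat_lit 4650964) (nat_lit 3036801)
 (nat_lit 1) (.cons (nat_lit 1849870) (nat_lit 1679371) (nat_lit 255844) (nat_lit 1) .nil)), (nat_lit 12),
 (nat_lit 0), (nat_lit 0), (nat_lit 0), (5, 19, 41), [2255675, 625946], 0⟩,
  ⟨⟨-13, -36, 45, 40, -23, -30, -22, -32, -7⟩, (.cons (nat_lit 3710177) (nat_lit 2629323) (nat_lit 2489011)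
 (nat_lit 1) (.cons (nat_lit 105673) (nat_lit 155406) (nat_lit 666083) (nat_lit 1) .nil)), (nat_lit 27),
 (nat_lit 0), (nat_lit 0), (nat_lit 0), (26, 14, 44), [3438978, 337563], 0⟩,
  ⟨⟨51, -4, -32, 2, 45, -16, 12, -12, -49⟩, (.cons (nat_lit 4826808) (nat_lit 1495478) (nat_lit 3827876)
 (nat_lit 1) (.cons (nat_lit 1874160) (nat_lit 1208219) (nat_lit 1722855) (nat_lit 1) .nil)), (nat_lit 33),
 (nat_lit 0), (nat_lit 0), (nat_lit 0), (25, 36, 28), [3130655, 1123338], 0⟩,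
  mz,
  ⟨⟨17, 36, 28, 20, 23, -50, 38, -8, -1⟩, (.cons (nat_lit 834087) (nat_lit 2545303) (nat_lit 1507028) (nat_lit
 1) (.cons (nat_lit 1363330) (nat_lit 690684) (nat_lit 162205) (nat_lit 1) .nil)), (nat_lit 16), (nat_lit 0),
 (nat_lit 0), (nat_lit 0), (28, 44, 46), [2357584, 1436169], 0⟩,
  ⟨⟨-17, 48, 0, -40, -17, 0, 10, 16, -47⟩, (.cons (nat_lit 3149640) (nat_lit 219548) (nat_lit 1710424) (nat_lit
 1) (.cons (nat_lit 1824426) (nat_lit 1379105) (nat_lit 1386809) (nat_lit 1) .nil)), (nat_lit 9), (nat_lit 0),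
 (nat_lit 0), (nat_lit 0), (25, 45, 24), [368829, 660593], 0⟩,
  mz,
  ⟨⟨17, -48, -17, -40, -17, 40, -10, -16, -37⟩, (.cons (nat_lit 2751714) (nat_lit 3214474) (nat_lit 636635)
 (nat_lit 1) (.cons (nat_lit 501954) (nat_lit 750754) (nat_lit 226102) (nat_lit 1) .nil)), (nat_lit 36),
 (nat_lit 0), (nat_lit 0), (nat_lit 0), (6, 8, 2), [3780846, 1463486], 0⟩,
  mz,
  mz,
  mz,
  ⟨⟨45, -16, -1, 22, 35, -36, 20, -28, -37⟩, (.cons (nat_lit 2306517) (nat_lit 2703089) (nat_lit 4235597)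
 (nat_lit 1) (.cons (nat_lit 951442) (nat_lit 1076037) (nat_lit 1) (nat_lit 1195840) .nil)), (nat_lit 45),
 (nat_lit 0), (nat_lit 0), (nat_lit 0), (12, 9, 21), [2000345, 1732962], 0⟩,
  mz,
  ⟨⟨51, 4, -32, 2, -45, -16, 12, 12, -49⟩, (.cons (nat_lit 3004317) (nat_lit 4050222) (nat_lit 4007782)
 (nat_lit 1) (.cons (nat_lit 391292) (nat_lit 1829242) (nat_lit 714560) (nat_lit 1) .nil)), (nat_lit 33),
 (nat_lit 0), (nat_lit 0), (nat_lit 0), (7, 27, 21), [3653348, 1557142], 0⟩,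
  ⟨⟨-21, -32, -28, 2, -35, 34, 28, -20, -41⟩, (.cons (nat_lit 1637357) (nat_lit 3397773) (nat_lit 761658)
 (nat_lit 1) (.cons (nat_lit 1202990) (nat_lit 969443) (nat_lit 438043) (nat_lit 1) .nil)), (nat_lit 46),
 (nat_lit 0), (nat_lit 0), (nat_lit 0), (33, 17, 3), [201564, 1222205], 0⟩,
  ⟨⟨25, 12, -61, 22, 35, 14, -20, 28, -17⟩, (.cons (nat_lit 4189609) (nat_lit 1749055) (nat_lit 2290307)
 (nat_lit 1) (.cons (nat_lit 1381025) (nat_lit 603004) (nat_lit 1331932) (nat_lit 1) .nil)), (nat_lit 21),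
 (nat_lit 0), (nat_lit 0), (nat_lit 0), (2, 45, 36), [280115, 300711], 0⟩]

/-- All the moves. -/
noncomputable def tabs : List (List (List Mv)) := [[[], [], t0_2, [], t0_4, t0_5], [[], [], t1_2, [], t1_4, t1_5], [], [], [[], [], t4_2, [], t4_4, t4_5]]

/-- Subtrie. -/
noncomputable def T2 : Tr := (.ev (nat_lit 20) (nat_lit 105589691695620) (.nd (nat_lit 33) (.br (nat_lit 19)
 (.br (nat_lit 11) (.br (nat_lit 7) (.br (nat_lit 4) (.ch (nat_lit 1) (.ev (nat_lit 52) (nat_lit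
 17949205200898) (.ev (nat_lit 84) (nat_lit 268435488) (.ev (nat_lit 116) (nat_lit 8) (.ev (nat_lit 148)
 (nat_lit 524288) (.nd (nat_lit 320) (.br (nat_lit 5) (.br (nat_lit 1) (.ch (nat_lit 0) (.ev (nat_lit 336)
 (nat_lit 174397440) (.ev (nat_lit 349) (nat_lit 4398046511104) .dd))) (.br (nat_lit 4) (.ch (nat_lit 1) (.ev
 (nat_lit 336) (nat_lit 4398214545408) (.nd (nat_lit 832) (.br (nat_lit 9) (.br (nat_lit 8) (.ch (nat_lit 0)
 (.ev (nat_lit 848) (nat_lit 4261888) (.ev (nat_lit 928) (nat_lit 2097152) (.ev (nat_lit 941) (nat_lit 4096)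
 .dd)))) (.ch (nat_lit 8) (.ev (nat_lit 848) (nat_lit 2097152) (.ev (nat_lit 928) (nat_lit 65536) (.ev (nat_lit
 1040) (nat_lit 4096) (.ev (nat_lit 1108) (nat_lit 2048) (.ev (nat_lit 1117) (nat_lit 4194304) .dd))))))) (.br
 (nat_lit 12) (.ch (nat_lit 9) (.ev (nat_lit 848) (nat_lit 2103296) (.ev (nat_lit 1056) (nat_lit 65536) (.ev
 (nat_lit 1069) (nat_lit 4194304) .dd)))) (.ch (nat_lit 12) (.ev (nat_lit 848) (nat_lit 69632) (.ev (nat_lit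
 900) (nat_lit 4194304) (.ev (nat_lit 928) (nat_lit 2097152) (.ev (nat_lit 941) (nat_lit 2048) .dd))))))))))
 (.ch (nat_lit 4) (.ev (nat_lit 336) (nat_lit 4398184927232) (.ev (nat_lit 400) (nat_lit 2162688) (.nd (nat_lit
 832) (.br (nat_lit 11) (.br (nat_lit 9) (.ch (nat_lit 8) (.ev (nat_lit 848) (nat_lit 262144) (.ev (nat_lit
 1056) (nat_lit 2048) (.ev (nat_lit 1069) (nat_lit 33554432) .dd)))) (.ch (nat_lit 9) (.ev (nat_lit 848)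
 (nat_lit 33554432) (.ev (nat_lit 1108) (nat_lit 2048) (.ev (nat_lit 1117) (nat_lit 262144) .dd))))) (.br
 (nat_lit 12) (.ch (nat_lit 11) (.ev (nat_lit 848) (nat_lit 33818624) .dd)) (.ch (nat_lit 12) (.ev (nat_lit
 848) (nat_lit 33818624) .dd)))))))))) (.br (nat_lit 9) (.br (nat_lit 6) (.ch (nat_lit 5) (.ev (nat_lit 336)
 (nat_lit 4398216450048) (.nd (nat_lit 832) (.br (nat_lit 8) (.br (nat_lit 3) (.ch (nat_lit 2) (.ev (nat_lit
 848) (nat_lit 4194304) (.ev (nat_lit 1012) (nat_lit 262144) (.ev (nat_lit 1021) (nat_lit 2048) .dd)))) (.br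
 (nat_lit 4) (.ch (nat_lit 3) (.ev (nat_lit 848) (nat_lit 2048) (.ev (nat_lit 900) (nat_lit 262144) (.ev
 (nat_lit 909) (nat_lit 4194304) .dd)))) (.ch (nat_lit 4) (.ev (nat_lit 848) (nat_lit 4456448) (.ev (nat_lit
 861) (nat_lit 2048) .dd))))) (.br (nat_lit 11) (.br (nat_lit 10) (.ch (nat_lit 8) (.ev (nat_lit 848) (nat_lit
 4456448) (.ev (nat_lit 861) (nat_lit 2048) .dd))) (.ch (nat_lit 10) (.ev (nat_lit 848) (nat_lit 4456448) (.ev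
 (nat_lit 861) (nat_lit 2048) .dd)))) (.br (nat_lit 12) (.ch (nat_lit 11) (.ev (nat_lit 848) (nat_lit 4196352)
 (.ev (nat_lit 861) (nat_lit 262144) .dd))) (.ch (nat_lit 12) (.ev (nat_lit 848) (nat_lit 2048) (.ev (nat_lit
 900) (nat_lit 262144) (.ev (nat_lit 909) (nat_lit 4194304) .dd)))))))))) (.ch (nat_lit 6) (.ev (nat_lit 336)
 (nat_lit 4398220908544) .dd))) (.br (nat_lit 12) (.ch (nat_lit 9) (.ev (nat_lit 336) (nat_lit 38012928) (.nd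
 (nat_lit 832) (.br (nat_lit 8) (.br (nat_lit 5) (.ch (nat_lit 3) (.ev (nat_lit 848) (nat_lit 4398182830080)
 (.ev (nat_lit 861) (nat_lit 65536) .dd))) (.br (nat_lit 6) (.ch (nat_lit 5) (.ev (nat_lit 848) (nat_lit
 4398048608256) (.ev (nat_lit 1108) (nat_lit 65536) (.ev (nat_lit 1188) (nat_lit 4096) (.ev (nat_lit 1197)
 (nat_lit 134217728) .dd))))) (.ch (nat_lit 6) (.ev (nat_lit 848) (nat_lit 4398046511104) (.ev (nat_lit 1108)
 (nat_lit 134217728) (.ev (nat_lit 1360) (nat_lit 4096) (.fin (nat_lit 576456904092893708)))))))) (.br (nat_lit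
 10) (.br (nat_lit 9) (.ch (nat_lit 8) (.ev (nat_lit 848) (nat_lit 4398182895616) .dd)) (.ch (nat_lit 9) (.ev
 (nat_lit 848) (nat_lit 2166784) (.fin (nat_lit 576474496186663492))))) (.br (nat_lit 11) (.ch (nat_lit 10)
 (.ev (nat_lit 848) (nat_lit 4398048608256) (.ev (nat_lit 900) (nat_lit 134217728) (.ev (nat_lit 1108) (nat_lit
 65536) (.ev (nat_lit 1117) (nat_lit 4096) .dd))))) (.ch (nat_lit 11) (.ev (nat_lit 848) (nat_lit
 4398180798464) (.ev (nat_lit 861) (nat_lit 2097152) .dd))))))))) (.ch (nat_lit 12) (.ev (nat_lit 336) (nat_lit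
 4398053136384) (.nd (nat_lit 832) (.br (nat_lit 7) (.ch (nat_lit 1) (.ev (nat_lit 1012) (nat_lit 134217728)
 (.ev (nat_lit 1021) (nat_lit 33554432) .dd))) (.ch (nat_lit 7) (.ev (nat_lit 848) (nat_lit 167772160)
 .dd))))))))))))))) (.br (nat_lit 5) (.ch (nat_lit 4) (.ev (nat_lit 52) (nat_lit 21995066753026) (.ev (nat_lit
 84) (nat_lit 4128) (.ev (nat_lit 116) (nat_lit 4196352) (.ev (nat_lit 180) (nat_lit 33554432) (.nd (nat_lit
 320) (.br (nat_lit 6) (.br (nat_lit 4) (.ch (nat_lit 2) (.ev (nat_lit 336) (nat_lit 8724742152) (.nd (nat_lit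
 832) (.br (nat_lit 5) (.br (nat_lit 3) (.ch (nat_lit 0) (.ev (nat_lit 848) (nat_lit 275146342400) (.ev
 (nat_lit 861) (nat_lit 68719476736) .dd))) (.ch (nat_lit 3) (.ev (nat_lit 848) (nat_lit 268435456) (.fin
 (nat_lit 576461302066004536))))) (.br (nat_lit 7) (.ch (nat_lit 5) (.ev (nat_lit 848) (nat_lit 275146342400)
 (.ev (nat_lit 861) (nat_lit 68719476736) .dd))) (.br (nat_lit 10) (.ch (nat_lit 7) (.ev (nat_lit 848) (nat_lit
 68987912192) (.ev (nat_lit 861) (nat_lit 274877906944) .dd))) (.ch (nat_lit 10) (.ev (nat_lit 848) (nat_lit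
 68719476736) (.ev (nat_lit 900) (nat_lit 274877906944) (.ev (nat_lit 909) (nat_lit 268435456) .dd))))))))))
 (.ch (nat_lit 4) (.ev (nat_lit 336) (nat_lit 275280560136) (.nd (nat_lit 832) (.br (nat_lit 6) (.br (nat_lit
 5) (.ch (nat_lit 0) (.ev (nat_lit 848) (nat_lit 68720066560) (.ev (nat_lit 861) (nat_lit 8589934592) .dd)))
 (.ch (nat_lit 5) (.ev (nat_lit 848) (nat_lit 77309935616) (.ev (nat_lit 861) (nat_lit 65536) .dd)))) (.br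
 (nat_lit 9) (.ch (nat_lit 6) (.ev (nat_lit 848) (nat_lit 8590458880) (.ev (nat_lit 1012) (nat_lit 68719476736)
 (.ev (nat_lit 1021) (nat_lit 65536) .dd)))) (.br (nat_lit 12) (.ch (nat_lit 9) (.ev (nat_lit 848) (nat_lit
 77310001152) .dd)) (.ch (nat_lit 12) (.ev (nat_lit 848) (nat_lit 68719542272) (.ev (nat_lit 1012) (nat_lit
 524288) (.ev (nat_lit 1021) (nat_lit 8589934592) .dd))))))))))) (.br (nat_lit 9) (.ch (nat_lit 6) (.ev
 (nat_lit 336) (nat_lit 77443694600) (.nd (nat_lit 832) (.br (nat_lit 6) (.br (nat_lit 3) (.ch (nat_lit 1) (.ev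
 (nat_lit 848) (nat_lit 275146342400) (.ev (nat_lit 861) (nat_lit 524288) .dd))) (.ch (nat_lit 3) (.ev (nat_lit
 848) (nat_lit 274877906944) (.fin (nat_lit 576470098150638148))))) (.br (nat_lit 9) (.ch (nat_lit 6) (.ev
 (nat_lit 848) (nat_lit 275146342400) (.ev (nat_lit 861) (nat_lit 524288) .dd))) (.br (nat_lit 12) (.ch
 (nat_lit 9) (.ev (nat_lit 848) (nat_lit 524288) (.ev (nat_lit 900) (nat_lit 268435456) (.ev (nat_lit 909)
 (nat_lit 274877906944) .dd)))) (.ch (nat_lit 12) (.ev (nat_lit 848) (nat_lit 274878431232) (.ev (nat_lit 861)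
 (nat_lit 268435456) .dd))))))))) (.br (nat_lit 12) (.ch (nat_lit 9) (.ev (nat_lit 336) (nat_lit 77577846784)
 (.nd (nat_lit 832) (.br (nat_lit 9) (.br (nat_lit 6) (.ch (nat_lit 0) (.ev (nat_lit 848) (nat_lit 589832) (.ev
 (nat_lit 1012) (nat_lit 274877906944) (.ev (nat_lit 1021) (nat_lit 134217728) .dd)))) (.br (nat_lit 8) (.ch
 (nat_lit 6) (.ev (nat_lit 848) (nat_lit 274877906944) (.ev (nat_lit 1012) (nat_lit 134217728) (.ev (nat_lit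
 1108) (nat_lit 524288) (.ev (nat_lit 1188) (nat_lit 65536) (.ev (nat_lit 1197) (nat_lit 8) .dd)))))) (.ch
 (nat_lit 8) (.ev (nat_lit 848) (nat_lit 134807552) (.ev (nat_lit 1024) (nat_lit 8) (.ev (nat_lit 1037)
 (nat_lit 274877906944) .dd)))))) (.br (nat_lit 10) (.ch (nat_lit 9) (.ev (nat_lit 848) (nat_lit 274878496768)
 (.ev (nat_lit 1012) (nat_lit 8) (.ev (nat_lit 1021) (nat_lit 134217728) .dd)))) (.br (nat_lit 11) (.ch
 (nat_lit 10) (.ev (nat_lit 848) (nat_lit 274877906952) (.ev (nat_lit 864) (nat_lit 134217728) (.ev (nat_lit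
 900) (nat_lit 65536) (.ev (nat_lit 909) (nat_lit 524288) .dd))))) (.ch (nat_lit 11) (.ev (nat_lit 848)
 (nat_lit 134217736) (.ev (nat_lit 900) (nat_lit 65536) (.ev (nat_lit 1120) (nat_lit 524288) (.ev (nat_lit
 1133) (nat_lit 274877906944) .dd))))))))))) (.ch (nat_lit 12) (.ev (nat_lit 336) (nat_lit 274878496768) (.nd
 (nat_lit 832) (.br (nat_lit 10) (.br (nat_lit 7) (.ch (nat_lit 1) (.ev (nat_lit 848) (nat_lit 268435456) (.ev
 (nat_lit 1012) (nat_lit 8) (.ev (nat_lit 1108) (nat_lit 68719476736) (.ev (nat_lit 1188) (nat_lit 8589934592)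
 (.ev (nat_lit 1197) (nat_lit 134217728) .dd)))))) (.br (nat_lit 9) (.ch (nat_lit 7) (.ev (nat_lit 848)
 (nat_lit 77443629056) (.ev (nat_lit 1012) (nat_lit 268435456) (.ev (nat_lit 1021) (nat_lit 8) .dd)))) (.ch
 (nat_lit 9) (.ev (nat_lit 848) (nat_lit 134217736) (.ev (nat_lit 900) (nat_lit 8589934592) (.ev (nat_lit 1120)
 (nat_lit 268435456) (.ev (nat_lit 1133) (nat_lit 68719476736) .dd))))))) (.br (nat_lit 11) (.ch (nat_lit 10)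
 (.ev (nat_lit 848) (nat_lit 402653184) (.ev (nat_lit 864) (nat_lit 8) (.ev (nat_lit 900) (nat_lit 8589934592)
 (.ev (nat_lit 909) (nat_lit 68719476736) .dd))))) (.br (nat_lit 12) (.ch (nat_lit 11) (.ev (nat_lit 848)
 (nat_lit 77577846784) (.ev (nat_lit 1108) (nat_lit 8) (.ev (nat_lit 1117) (nat_lit 134217728) .dd)))) (.ch
 (nat_lit 12) (.ev (nat_lit 848) (nat_lit 77309411336) (.ev (nat_lit 1040) (nat_lit 134217728) (.ev (nat_lit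
 1053) (nat_lit 268435456) .dd))))))))))))))))))) (.ch (nat_lit 5) (.ev (nat_lit 52) (nat_lit 4475893121034)
 (.ev (nat_lit 84) (nat_lit 33556480) (.ev (nat_lit 128) (nat_lit 17871768391712) .dd)))))) (.br (nat_lit 8)
 (.ch (nat_lit 7) (.ev (nat_lit 52) (nat_lit 73419784194) (.ev (nat_lit 84) (nat_lit 4398046511104) (.ev
 (nat_lit 116) (nat_lit 274877906944) (.ev (nat_lit 128) (nat_lit 17601350866984) .dd))))) (.br (nat_lit 10)
 (.ch (nat_lit 8) (.ev (nat_lit 52) (nat_lit 356754919432) (.ev (nat_lit 84) (nat_lit 262176) (.ev (nat_lit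
 116) (nat_lit 524288) (.nd (nat_lit 320) (.br (nat_lit 4) (.br (nat_lit 1) (.ch (nat_lit 0) (.ev (nat_lit 336)
 (nat_lit 17592756537346) (.nd (nat_lit 832) (.br (nat_lit 7) (.br (nat_lit 4) (.ch (nat_lit 0) (.ev (nat_lit
 864) (nat_lit 2097152) (.ev (nat_lit 1024) (nat_lit 4398180728832) .dd))) (.br (nat_lit 5) (.ch (nat_lit 4)
 (.ev (nat_lit 848) (nat_lit 4398180728832) (.ev (nat_lit 861) (nat_lit 2097152) .dd))) (.ch (nat_lit 5) (.ev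
 (nat_lit 848) (nat_lit 4398180728832) (.ev (nat_lit 861) (nat_lit 2097152) .dd))))) (.br (nat_lit 8) (.ch
 (nat_lit 7) (.ev (nat_lit 848) (nat_lit 4398182825984) .dd)) (.br (nat_lit 12) (.ch (nat_lit 8) (.ev (nat_lit
 848) (nat_lit 4398048608256) (.ev (nat_lit 861) (nat_lit 134217728) .dd))) (.ch (nat_lit 12) (.ev (nat_lit
 848) (nat_lit 4398182825984) .dd)))))))) (.br (nat_lit 2) (.ch (nat_lit 1) (.ev (nat_lit 336) (nat_lit
 21990400393218) (.ev (nat_lit 420) (nat_lit 536870912) (.nd (nat_lit 832) (.br (nat_lit 8) (.ch (nat_lit 3)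
 (.ev (nat_lit 848) (nat_lit 2099200) .dd)) (.br (nat_lit 9) (.ch (nat_lit 8) (.ev (nat_lit 848) (nat_lit 2048)
 (.ev (nat_lit 861) (nat_lit 2097152) .dd))) (.ch (nat_lit 9) (.ev (nat_lit 848) (nat_lit 2097152) (.ev
 (nat_lit 861) (nat_lit 2048) .dd))))))))) (.ch (nat_lit 2) (.ev (nat_lit 336) (nat_lit 4398216448002) (.nd
 (nat_lit 832) (.br (nat_lit 7) (.br (nat_lit 3) (.ch (nat_lit 1) (.ev (nat_lit 848) (nat_lit 17592722915328)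
 .dd)) (.br (nat_lit 5) (.ch (nat_lit 3) (.ev (nat_lit 848) (nat_lit 536870912) (.ev (nat_lit 861) (nat_lit
 17592186044416) .dd))) (.ch (nat_lit 5) (.ev (nat_lit 1040) (nat_lit 17592722915328) .dd)))) (.br (nat_lit 10)
 (.ch (nat_lit 7) (.ev (nat_lit 848) (nat_lit 17592722915328) .dd)) (.br (nat_lit 11) (.ch (nat_lit 10) (.ev
 (nat_lit 848) (nat_lit 536870912) (.ev (nat_lit 861) (nat_lit 17592186044416) .dd))) (.ch (nat_lit 11) (.ev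
 (nat_lit 900) (nat_lit 536870912) (.ev (nat_lit 909) (nat_lit 17592186044416) .dd))))))))))) (.br (nat_lit 10)
 (.br (nat_lit 5) (.ch (nat_lit 4) (.ev (nat_lit 336) (nat_lit 21990366838784) (.nd (nat_lit 832) (.br (nat_lit
 5) (.br (nat_lit 3) (.ch (nat_lit 0) (.ev (nat_lit 848) (nat_lit 35653634) (.ev (nat_lit 861) (nat_lit
 536870912) .dd))) (.ch (nat_lit 3) (.ev (nat_lit 848) (nat_lit 2048) (.ev (nat_lit 1072) (nat_lit 33554432)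
 (.ev (nat_lit 1108) (nat_lit 536870912) (.ev (nat_lit 1188) (nat_lit 2) (.ev (nat_lit 1197) (nat_lit 2097152)
 .dd))))))) (.br (nat_lit 8) (.ch (nat_lit 5) (.ev (nat_lit 848) (nat_lit 572524546) .dd)) (.br (nat_lit 12)
 (.ch (nat_lit 8) (.ev (nat_lit 848) (nat_lit 538968064) (.ev (nat_lit 1108) (nat_lit 2048) (.ev (nat_lit 1188)
 (nat_lit 33554432) (.ev (nat_lit 1197) (nat_lit 2) .dd))))) (.ch (nat_lit 12) (.ev (nat_lit 848) (nat_lit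
 33556482) (.ev (nat_lit 912) (nat_lit 2097152) (.ev (nat_lit 925) (nat_lit 536870912) .dd)))))))))) (.ch
 (nat_lit 5) (.ev (nat_lit 336) (nat_lit 17592857198592) (.nd (nat_lit 832) (.br (nat_lit 8) (.br (nat_lit 2)
 (.ch (nat_lit 0) (.ev (nat_lit 848) (nat_lit 4398080065538) (.ev (nat_lit 1108) (nat_lit 2048) (.ev (nat_lit
 1117) (nat_lit 2097152) .dd)))) (.br (nat_lit 4) (.ch (nat_lit 2) (.ev (nat_lit 848) (nat_lit 4398082162690)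
 (.ev (nat_lit 861) (nat_lit 2048) .dd))) (.ch (nat_lit 4) (.ev (nat_lit 848) (nat_lit 4398080065538) (.ev
 (nat_lit 1120) (nat_lit 2048) (.ev (nat_lit 1133) (nat_lit 2097152) .dd)))))) (.br (nat_lit 10) (.ch (nat_lit
 8) (.ev (nat_lit 848) (nat_lit 4398082162690) (.ev (nat_lit 861) (nat_lit 2048) .dd))) (.br (nat_lit 12) (.ch
 (nat_lit 10) (.ev (nat_lit 848) (nat_lit 4398046511104) (.ev (nat_lit 900) (nat_lit 33554432) (.ev (nat_lit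
 1188) (nat_lit 2048) (.ev (nat_lit 1284) (nat_lit 2) (.ev (nat_lit 1293) (nat_lit 2097152) .dd)))))) (.ch
 (nat_lit 12) (.ev (nat_lit 900) (nat_lit 2) (.ev (nat_lit 1012) (nat_lit 2048) (.ev (nat_lit 1024) (nat_lit
 33554432) (.ev (nat_lit 1108) (nat_lit 2097152) (.ev (nat_lit 1117) (nat_lit 4398046511104) .dd)))))))))))))
 (.br (nat_lit 12) (.ch (nat_lit 10) (.ev (nat_lit 336) (nat_lit 134219778) (.ev (nat_lit 420) (nat_lit
 2097152) (.nd (nat_lit 832) (.br (nat_lit 3) (.br (nat_lit 2) (.ch (nat_lit 0) (.ev (nat_lit 848) (nat_lit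
 33619968) (.ev (nat_lit 1188) (nat_lit 17592186044416) (.ev (nat_lit 1284) (nat_lit 4398046511104) (.ev
 (nat_lit 1293) (nat_lit 536870912) .dd))))) (.ch (nat_lit 2) (.ev (nat_lit 848) (nat_lit 4398583382016) (.ev
 (nat_lit 900) (nat_lit 17592186044416) (.nd (nat_lit 1793) (.ch (nat_lit 7) (.nd (nat_lit 1824) (.ch (nat_lit
 9) (.fin (nat_lit 576456904017396268)))))))))) (.br (nat_lit 8) (.ch (nat_lit 3) (.ev (nat_lit 848) (nat_lit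
 21990803046400) .dd)) (.ch (nat_lit 8) (.ev (nat_lit 848) (nat_lit 570490880) (.ev (nat_lit 864) (nat_lit
 21990232555520) .dd))))))))) (.ch (nat_lit 12) (.ev (nat_lit 336) (nat_lit 21990234718208) (.nd (nat_lit 832)
 (.br (nat_lit 8) (.br (nat_lit 1) (.ch (nat_lit 0) (.ev (nat_lit 848) (nat_lit 134219778) (.ev (nat_lit 1120)
 (nat_lit 33554432) (.ev (nat_lit 1133) (nat_lit 536870912) .dd)))) (.br (nat_lit 7) (.ch (nat_lit 1) (.ev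
 (nat_lit 848) (nat_lit 536872962) (.ev (nat_lit 900) (nat_lit 134217728) (.ev (nat_lit 909) (nat_lit 33554432)
 .dd)))) (.ch (nat_lit 7) (.ev (nat_lit 848) (nat_lit 134219778) (.ev (nat_lit 1264) (nat_lit 33554432) (.ev
 (nat_lit 1277) (nat_lit 536870912) .dd)))))) (.br (nat_lit 10) (.ch (nat_lit 8) (.ev (nat_lit 848) (nat_lit
 134217728) (.ev (nat_lit 1012) (nat_lit 536870912) (.ev (nat_lit 1040) (nat_lit 2) (.ev (nat_lit 1072)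
 (nat_lit 33554432) (.ev (nat_lit 1085) (nat_lit 2048) .dd)))))) (.br (nat_lit 11) (.ch (nat_lit 10) (.ev
 (nat_lit 848) (nat_lit 671090690) (.ev (nat_lit 861) (nat_lit 33554432) .dd))) (.ch (nat_lit 11) (.ev (nat_lit
 1120) (nat_lit 33554432) (.ev (nat_lit 1284) (nat_lit 536870912) (.ev (nat_lit 1296) (nat_lit 2) (.fin
 (nat_lit 576544864939229828)))))))))))))))))))) (.ch (nat_lit 10) (.ev (nat_lit 52) (nat_lit 4471100870664)
 (.ev (nat_lit 116) (nat_lit 32) (.ev (nat_lit 160) (nat_lit 17876594198530) .dd))))))) (.br (nat_lit 15) (.br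
 (nat_lit 12) (.ch (nat_lit 11) (.ev (nat_lit 52) (nat_lit 22068078905344) (.ev (nat_lit 84) (nat_lit
 4462739464) (.ev (nat_lit 304) (nat_lit 4194304) (.nd (nat_lit 320) (.br (nat_lit 4) (.br (nat_lit 1) (.ch
 (nat_lit 0) (.ev (nat_lit 336) (nat_lit 269226018) (.nd (nat_lit 832) (.br (nat_lit 4) (.ch (nat_lit 2) (.ev
 (nat_lit 900) (nat_lit 2097152) (.ev (nat_lit 909) (nat_lit 274877906944) .dd))) (.ch (nat_lit 4) (.ev
 (nat_lit 848) (nat_lit 274877906944) (.ev (nat_lit 861) (nat_lit 2097152) .dd))))))) (.br (nat_lit 2) (.ch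
 (nat_lit 1) (.ev (nat_lit 336) (nat_lit 275148705826) (.ev (nat_lit 349) (nat_lit 524288) .dd))) (.ch (nat_lit
 2) (.ev (nat_lit 336) (nat_lit 274880532514) (.nd (nat_lit 832) (.br (nat_lit 4) (.br (nat_lit 3) (.ch
 (nat_lit 0) (.ev (nat_lit 848) (nat_lit 268435456) (.ev (nat_lit 861) (nat_lit 262144) .dd))) (.ch (nat_lit 3)
 (.ev (nat_lit 848) (nat_lit 268435456) (.ev (nat_lit 861) (nat_lit 262144) .dd)))) (.br (nat_lit 5) (.ch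
 (nat_lit 4) (.ev (nat_lit 848) (nat_lit 262144) (.ev (nat_lit 861) (nat_lit 268435456) .dd))) (.ch (nat_lit 5)
 (.ev (nat_lit 848) (nat_lit 262144) (.ev (nat_lit 861) (nat_lit 268435456) .dd)))))))))) (.br (nat_lit 5) (.ch
 (nat_lit 4) (.ev (nat_lit 336) (nat_lit 274880008192) (.ev (nat_lit 420) (nat_lit 2) (.nd (nat_lit 832) (.br
 (nat_lit 6) (.br (nat_lit 3) (.ch (nat_lit 0) (.ev (nat_lit 848) (nat_lit 269221920) .dd)) (.ch (nat_lit 3)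
 (.ev (nat_lit 1012) (nat_lit 268435456) (.ev (nat_lit 1108) (nat_lit 32) (.ev (nat_lit 1188) (nat_lit 262144)
 (.ev (nat_lit 1197) (nat_lit 524288) .dd)))))) (.br (nat_lit 9) (.ch (nat_lit 6) (.ev (nat_lit 848) (nat_lit
 262176) (.ev (nat_lit 1284) (nat_lit 268435456) (.ev (nat_lit 1293) (nat_lit 524288) .dd)))) (.br (nat_lit 11)
 (.ch (nat_lit 9) (.ev (nat_lit 848) (nat_lit 268959744) (.ev (nat_lit 912) (nat_lit 262144) (.ev (nat_lit 925)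
 (nat_lit 32) .dd)))) (.ch (nat_lit 11) (.ev (nat_lit 848) (nat_lit 269221888) (.ev (nat_lit 861) (nat_lit 32)
 .dd)))))))))) (.br (nat_lit 10) (.ch (nat_lit 5) (.ev (nat_lit 336) (nat_lit 274880532514) (.ev (nat_lit 384)
 (nat_lit 262144) (.ev (nat_lit 397) (nat_lit 268435456) .dd)))) (.ch (nat_lit 10) (.ev (nat_lit 336) (nat_lit
 275146866688) (.nd (nat_lit 832) (.br (nat_lit 6) (.br (nat_lit 5) (.ch (nat_lit 0) (.ev (nat_lit 848)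
 (nat_lit 2363394) (.ev (nat_lit 861) (nat_lit 32) .dd))) (.ch (nat_lit 5) (.ev (nat_lit 848) (nat_lit 2101282)
 (.ev (nat_lit 861) (nat_lit 262144) .dd)))) (.br (nat_lit 8) (.ch (nat_lit 6) (.ev (nat_lit 848) (nat_lit
 262144) (.nd (nat_lit 1761) (.br (nat_lit 33) (.ch (nat_lit 14) (.ev (nat_lit 1777) (nat_lit 2097184) (.nd
 (nat_lit 1792) (.br (nat_lit 8) (.ch (nat_lit 0) (.ev (nat_lit 1808) (nat_lit 4098) .dd)) (.ch (nat_lit 8)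
 (.fin (nat_lit 576448107907596860))))))) (.ch (nat_lit 33) (.ev (nat_lit 1777) (nat_lit 4098) (.nd (nat_lit
 1792) (.br (nat_lit 8) (.ch (nat_lit 0) (.fin (nat_lit 576465700154458678))) (.ch (nat_lit 8) (.ev (nat_lit
 1808) (nat_lit 2097184) .dd)))))))))) (.br (nat_lit 9) (.ch (nat_lit 8) (.ev (nat_lit 848) (nat_lit 2101282)
 (.ev (nat_lit 861) (nat_lit 262144) .dd))) (.ch (nat_lit 9) (.ev (nat_lit 848) (nat_lit 34) (.ev (nat_lit 944)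
 (nat_lit 4096) (.ev (nat_lit 1108) (nat_lit 2097152) (.ev (nat_lit 1117) (nat_lit 262144)
 .dd))))))))))))))))))) (.br (nat_lit 13) (.ch (nat_lit 12) (.ev (nat_lit 52) (nat_lit 73589391360) (.ev
 (nat_lit 84) (nat_lit 2621440) (.ev (nat_lit 128) (nat_lit 22274103056426) .dd)))) (.ch (nat_lit 13) (.ev
 (nat_lit 52) (nat_lit 17592592896000) (.ev (nat_lit 84) (nat_lit 2097152) (.ev (nat_lit 148) (nat_lit
 536870912) (.ev (nat_lit 180) (nat_lit 4398046511112) (.nd (nat_lit 320) (.br (nat_lit 6) (.br (nat_lit 4)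
 (.br (nat_lit 1) (.ch (nat_lit 0) (.ev (nat_lit 336) (nat_lit 352221399042) (.nd (nat_lit 832) (.br (nat_lit
 5) (.br (nat_lit 2) (.ch (nat_lit 0) (.ev (nat_lit 848) (nat_lit 32) (.ev (nat_lit 900) (nat_lit 262144) (.ev
 (nat_lit 1012) (nat_lit 4294967296) (.ev (nat_lit 1021) (nat_lit 65536) .dd))))) (.br (nat_lit 4) (.ch
 (nat_lit 2) (.ev (nat_lit 848) (nat_lit 65536) (.ev (nat_lit 864) (nat_lit 4294967296) (.ev (nat_lit 928)
 (nat_lit 262176) .dd)))) (.ch (nat_lit 4) (.ev (nat_lit 848) (nat_lit 65536) (.ev (nat_lit 900) (nat_lit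
 4294967296) (.ev (nat_lit 1556) (nat_lit 32) (.ev (nat_lit 1565) (nat_lit 262144) .dd))))))) (.br (nat_lit 7)
 (.br (nat_lit 6) (.ch (nat_lit 5) (.ev (nat_lit 848) (nat_lit 4295032864) (.ev (nat_lit 861) (nat_lit 262144)
 .dd))) (.ch (nat_lit 6) (.ev (nat_lit 848) (nat_lit 4295229472) (.ev (nat_lit 861) (nat_lit 65536) .dd))))
 (.br (nat_lit 10) (.ch (nat_lit 7) (.ev (nat_lit 848) (nat_lit 4295032832) (.ev (nat_lit 900) (nat_lit 262144)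
 (.ev (nat_lit 909) (nat_lit 32) .dd)))) (.ch (nat_lit 10) (.ev (nat_lit 848) (nat_lit 4295295008) .dd))))))))
 (.ch (nat_lit 1) (.ev (nat_lit 336) (nat_lit 287796690978) (.ev (nat_lit 550) (nat_lit 2048) (.nd (nat_lit
 832) (.br (nat_lit 6) (.br (nat_lit 2) (.br (nat_lit 1) (.ch (nat_lit 0) (.ev (nat_lit 848) (nat_lit
 68720001024) .dd)) (.ch (nat_lit 1) (.ev (nat_lit 848) (nat_lit 68720001024) .dd))) (.br (nat_lit 3) (.ch
 (nat_lit 2) (.ev (nat_lit 976) (nat_lit 524288) (.ev (nat_lit 989) (nat_lit 68719476736) .dd))) (.ch (nat_lit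
 3) (.ev (nat_lit 1188) (nat_lit 524288) (.ev (nat_lit 1197) (nat_lit 68719476736) .dd))))) (.br (nat_lit 9)
 (.br (nat_lit 8) (.ch (nat_lit 6) (.ev (nat_lit 1200) (nat_lit 68719476736) (.ev (nat_lit 1213) (nat_lit
 524288) .dd))) (.ch (nat_lit 8) (.ev (nat_lit 1188) (nat_lit 68719476736) (.ev (nat_lit 1197) (nat_lit 524288)
 .dd)))) (.br (nat_lit 10) (.ch (nat_lit 9) (.ev (nat_lit 848) (nat_lit 68719476736) (.ev (nat_lit 861)
 (nat_lit 524288) .dd))) (.ch (nat_lit 10) (.ev (nat_lit 848) (nat_lit 68720001024) .dd)))))))))) (.br (nat_lit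
 5) (.ch (nat_lit 4) (.ev (nat_lit 336) (nat_lit 274877974528) (.ev (nat_lit 566) (nat_lit 524288) (.nd
 (nat_lit 832) (.br (nat_lit 6) (.br (nat_lit 4) (.br (nat_lit 3) (.ch (nat_lit 0) (.ev (nat_lit 848) (nat_lit
 4295229442) (.ev (nat_lit 900) (nat_lit 32) (.ev (nat_lit 1012) (nat_lit 33554432) (.ev (nat_lit 1040)
 (nat_lit 68719476736) (.ev (nat_lit 1053) (nat_lit 8589934592) .dd)))))) (.ch (nat_lit 3) (.ev (nat_lit 848)
 (nat_lit 68719476736) (.ev (nat_lit 944) (nat_lit 33554432) (.ev (nat_lit 1012) (nat_lit 4294967328) (.ev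
 (nat_lit 1284) (nat_lit 8589934592) (.ev (nat_lit 1488) (nat_lit 2) (.ev (nat_lit 1501) (nat_lit 262144)
 .dd)))))))) (.br (nat_lit 5) (.ch (nat_lit 4) (.ev (nat_lit 848) (nat_lit 73048260642) (.ev (nat_lit 861)
 (nat_lit 8589934592) .dd))) (.ch (nat_lit 5) (.ev (nat_lit 848) (nat_lit 8623751168) (.ev (nat_lit 900)
 (nat_lit 32) (.ev (nat_lit 1108) (nat_lit 4294967296) (.ev (nat_lit 1120) (nat_lit 2) (.ev (nat_lit 1133)
 (nat_lit 68719476736) .dd)))))))) (.br (nat_lit 11) (.br (nat_lit 9) (.ch (nat_lit 6) (.ev (nat_lit 848)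
 (nat_lit 81638195234) .dd)) (.ch (nat_lit 9) (.ev (nat_lit 848) (nat_lit 77309673504) (.ev (nat_lit 900)
 (nat_lit 4294967296) (.fin (nat_lit 576468998666273313)))))) (.br (nat_lit 12) (.ch (nat_lit 11) (.ev (nat_lit
 848) (nat_lit 73048260642) (.ev (nat_lit 861) (nat_lit 8589934592) .dd))) (.ch (nat_lit 12) (.ev (nat_lit 848)
 (nat_lit 73047998498) (.ev (nat_lit 900) (nat_lit 8589934592) (.ev (nat_lit 909) (nat_lit 262144)
 .dd))))))))))) (.ch (nat_lit 5) (.ev (nat_lit 336) (nat_lit 343597973506) (.ev (nat_lit 420) (nat_lit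
 4294967296) (.nd (nat_lit 832) (.br (nat_lit 4) (.br (nat_lit 3) (.ch (nat_lit 0) (.ev (nat_lit 848) (nat_lit
 8590196768) (.ev (nat_lit 900) (nat_lit 2048) (.ev (nat_lit 909) (nat_lit 33554432) .dd)))) (.ch (nat_lit 3)
 (.ev (nat_lit 848) (nat_lit 33818624) (.ev (nat_lit 1284) (nat_lit 8589934592) (.ev (nat_lit 1293) (nat_lit
 32) .dd))))) (.br (nat_lit 9) (.ch (nat_lit 4) (.ev (nat_lit 848) (nat_lit 8623489056) (.ev (nat_lit 864)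
 (nat_lit 2048) (.ev (nat_lit 877) (nat_lit 262144) .dd)))) (.br (nat_lit 10) (.ch (nat_lit 9) (.ev (nat_lit
 848) (nat_lit 8589936672) (.ev (nat_lit 864) (nat_lit 262144) (.ev (nat_lit 877) (nat_lit 33554432) .dd))))
 (.ch (nat_lit 10) (.ev (nat_lit 848) (nat_lit 33554464) (.ev (nat_lit 900) (nat_lit 8589934592) (.ev (nat_lit
 1152) (nat_lit 264192) .dd))))))))))))) (.br (nat_lit 10) (.br (nat_lit 9) (.ch (nat_lit 6) (.ev (nat_lit 336)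
 (nat_lit 12918786082) (.nd (nat_lit 832) (.br (nat_lit 9) (.br (nat_lit 4) (.ch (nat_lit 3) (.ev (nat_lit 848)
 (nat_lit 274878431232) (.ev (nat_lit 861) (nat_lit 68719476736) .dd))) (.br (nat_lit 7) (.ch (nat_lit 4) (.ev
 (nat_lit 848) (nat_lit 343597907968) .dd)) (.ch (nat_lit 7) (.ev (nat_lit 848) (nat_lit 68719476736) (.fin
 (nat_lit 576518476702106172)))))) (.br (nat_lit 11) (.br (nat_lit 10) (.ch (nat_lit 9) (.ev (nat_lit 848)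
 (nat_lit 68720001024) (.ev (nat_lit 861) (nat_lit 274877906944) .dd))) (.ch (nat_lit 10) (.ev (nat_lit 848)
 (nat_lit 343597383680) (.ev (nat_lit 861) (nat_lit 524288) .dd)))) (.br (nat_lit 12) (.ch (nat_lit 11) (.ev
 (nat_lit 848) (nat_lit 274878431232) (.ev (nat_lit 861) (nat_lit 68719476736) .dd))) (.ch (nat_lit 12) (.ev
 (nat_lit 848) (nat_lit 343597907968) .dd)))))))) (.ch (nat_lit 9) (.ev (nat_lit 336) (nat_lit 73048784930)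
 (.ev (nat_lit 432) (nat_lit 2048) (.nd (nat_lit 832) (.br (nat_lit 10) (.br (nat_lit 5) (.ch (nat_lit 3) (.ev
 (nat_lit 848) (nat_lit 274877906944) (.ev (nat_lit 900) (nat_lit 65536) (.ev (nat_lit 909) (nat_lit
 8589934592) .dd)))) (.br (nat_lit 9) (.ch (nat_lit 5) (.ev (nat_lit 848) (nat_lit 283467841536) (.ev (nat_lit
 861) (nat_lit 65536) .dd))) (.ch (nat_lit 9) (.ev (nat_lit 848) (nat_lit 8590000128) (.ev (nat_lit 861)
 (nat_lit 274877906944) .dd))))) (.br (nat_lit 11) (.ch (nat_lit 10) (.ev (nat_lit 848) (nat_lit 283467841536)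
 (.ev (nat_lit 861) (nat_lit 65536) .dd))) (.br (nat_lit 12) (.ch (nat_lit 11) (.ev (nat_lit 1108) (nat_lit
 8589934592) (.fin (nat_lit 576500884465730150)))) (.ch (nat_lit 12) (.ev (nat_lit 848) (nat_lit 274877972480)
 (.ev (nat_lit 861) (nat_lit 8589934592) .dd))))))))))) (.br (nat_lit 12) (.ch (nat_lit 10) (.ev (nat_lit 336)
 (nat_lit 287796955168) (.ev (nat_lit 352) (nat_lit 262144) (.nd (nat_lit 832) (.br (nat_lit 12) (.ch (nat_lit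
 7) (.ev (nat_lit 912) (nat_lit 68719476736) (.ev (nat_lit 925) (nat_lit 2) .dd))) (.ch (nat_lit 12) (.ev
 (nat_lit 848) (nat_lit 68719476736) (.ev (nat_lit 861) (nat_lit 2) .dd)))))))) (.ch (nat_lit 12) (.ev (nat_lit
 336) (nat_lit 279173201922) (.ev (nat_lit 582) (nat_lit 32) (.nd (nat_lit 832) (.br (nat_lit 9) (.br (nat_lit
 7) (.ch (nat_lit 0) (.ev (nat_lit 848) (nat_lit 526336) (.ev (nat_lit 864) (nat_lit 8589934592) (.ev (nat_lit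
 1040) (nat_lit 68753031168) .dd)))) (.ch (nat_lit 7) (.ev (nat_lit 848) (nat_lit 77343492096) .dd))) (.br
 (nat_lit 10) (.ch (nat_lit 9) (.ev (nat_lit 848) (nat_lit 8623489024) (.ev (nat_lit 1012) (nat_lit
 68719476736) (.ev (nat_lit 1460) (nat_lit 524288) (.ev (nat_lit 1469) (nat_lit 2048) .dd))))) (.br (nat_lit
 11) (.ch (nat_lit 10) (.ev (nat_lit 848) (nat_lit 526336) (.ev (nat_lit 900) (nat_lit 68719476736) (.ev
 (nat_lit 1012) (nat_lit 8589934592) (.ev (nat_lit 1021) (nat_lit 33554432) .dd))))) (.ch (nat_lit 11) (.ev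
 (nat_lit 848) (nat_lit 68753033216) (.ev (nat_lit 900) (nat_lit 524288) (.ev (nat_lit 909) (nat_lit
 8589934592) .dd)))))))))))))))))))))) (.br (nat_lit 17) (.br (nat_lit 16) (.ch (nat_lit 15) (.ev (nat_lit 52)
 (nat_lit 4673467584546) (.ev (nat_lit 84) (nat_lit 17596481011712) (.ev (nat_lit 148) (nat_lit 68719476736)
 (.ev (nat_lit 180) (nat_lit 268697600) (.nd (nat_lit 320) (.br (nat_lit 9) (.br (nat_lit 5) (.ch (nat_lit 1)
 (.ev (nat_lit 336) (nat_lit 8758298624) (.ev (nat_lit 349) (nat_lit 8) .dd))) (.br (nat_lit 6) (.ch (nat_lit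
 5) (.ev (nat_lit 336) (nat_lit 168361992) (.ev (nat_lit 486) (nat_lit 8589934592) (.ev (nat_lit 493) (nat_lit
 2048) .dd)))) (.ch (nat_lit 6) (.ev (nat_lit 336) (nat_lit 168364032) (.nd (nat_lit 832) (.br (nat_lit 10)
 (.br (nat_lit 6) (.ch (nat_lit 4) (.ev (nat_lit 848) (nat_lit 8) (.ev (nat_lit 861) (nat_lit 8589934592)
 .dd))) (.ch (nat_lit 6) (.ev (nat_lit 848) (nat_lit 8589934592) (.ev (nat_lit 861) (nat_lit 8) .dd)))) (.br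
 (nat_lit 11) (.ch (nat_lit 10) (.ev (nat_lit 848) (nat_lit 8589934600) .dd)) (.ch (nat_lit 11) (.fin (nat_lit
 576461302059713087)))))))))) (.br (nat_lit 10) (.ch (nat_lit 9) (.ev (nat_lit 336) (nat_lit 34078720) (.ev
 (nat_lit 500) (nat_lit 8) (.nd (nat_lit 832) (.br (nat_lit 6) (.br (nat_lit 5) (.ch (nat_lit 0) (.ev (nat_lit
 848) (nat_lit 134285312) (.ev (nat_lit 861) (nat_lit 8589934592) .dd))) (.ch (nat_lit 5) (.ev (nat_lit 848)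
 (nat_lit 8589936640) (.ev (nat_lit 912) (nat_lit 65536) (.ev (nat_lit 925) (nat_lit 134217728) .dd))))) (.br
 (nat_lit 9) (.ch (nat_lit 6) (.ev (nat_lit 848) (nat_lit 8590000128) (.ev (nat_lit 1108) (nat_lit 134217728)
 (.ev (nat_lit 1117) (nat_lit 2048) .dd)))) (.br (nat_lit 12) (.ch (nat_lit 9) (.ev (nat_lit 848) (nat_lit
 8590002176) (.ev (nat_lit 861) (nat_lit 134217728) .dd))) (.ch (nat_lit 12) (.ev (nat_lit 848) (nat_lit
 134283264) (.ev (nat_lit 1188) (nat_lit 8589934592) (.ev (nat_lit 1197) (nat_lit 2048) .dd))))))))))) (.br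
 (nat_lit 12) (.ch (nat_lit 10) (.ev (nat_lit 336) (nat_lit 8589936640) (.nd (nat_lit 832) (.br (nat_lit 6)
 (.br (nat_lit 3) (.ch (nat_lit 2) (.ev (nat_lit 848) (nat_lit 134742016) (.ev (nat_lit 900) (nat_lit 8) (.fin
 (nat_lit 576456904017396268))))) (.br (nat_lit 5) (.ch (nat_lit 3) (.ev (nat_lit 848) (nat_lit 34078728) (.ev
 (nat_lit 1012) (nat_lit 134217728) (.ev (nat_lit 1021) (nat_lit 65536) .dd)))) (.ch (nat_lit 5) (.ev (nat_lit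
 848) (nat_lit 34144256) (.ev (nat_lit 1108) (nat_lit 134217728) (.ev (nat_lit 1117) (nat_lit 8) .dd)))))) (.br
 (nat_lit 9) (.br (nat_lit 7) (.ch (nat_lit 6) (.ev (nat_lit 848) (nat_lit 168296456) (.ev (nat_lit 861)
 (nat_lit 65536) .dd))) (.ch (nat_lit 7) (.ev (nat_lit 848) (nat_lit 167837704) (.ev (nat_lit 861) (nat_lit
 524288) .dd)))) (.br (nat_lit 12) (.ch (nat_lit 9) (.ev (nat_lit 848) (nat_lit 33619976) (.fin (nat_lit
 576474496163594850)))) (.ch (nat_lit 12) (.ev (nat_lit 848) (nat_lit 167772168) (.ev (nat_lit 1200) (nat_lit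
 65536) (.ev (nat_lit 1213) (nat_lit 524288) .dd)))))))))) (.ch (nat_lit 12) (.ev (nat_lit 336) (nat_lit
 167837704) (.ev (nat_lit 384) (nat_lit 8589934592) (.nd (nat_lit 832) (.br (nat_lit 11) (.ch (nat_lit 1) (.ev
 (nat_lit 900) (nat_lit 524288) (.ev (nat_lit 909) (nat_lit 2048) .dd))) (.ch (nat_lit 11) (.ev (nat_lit 848)
 (nat_lit 2048) (.ev (nat_lit 861) (nat_lit 524288) .dd))))))))))))))))) (.ch (nat_lit 16) (.ev (nat_lit 52)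
 (nat_lit 17592857397280) (.ev (nat_lit 84) (nat_lit 4294967298) (.ev (nat_lit 148) (nat_lit 8594128904) (.ev
 (nat_lit 180) (nat_lit 524288) (.nd (nat_lit 320) (.br (nat_lit 2) (.br (nat_lit 1) (.ch (nat_lit 0) (.ev
 (nat_lit 336) (nat_lit 69021532160) (.nd (nat_lit 832) (.br (nat_lit 7) (.br (nat_lit 4) (.ch (nat_lit 2) (.ev
 (nat_lit 848) (nat_lit 4398048608256) (.ev (nat_lit 1108) (nat_lit 4096) (.ev (nat_lit 1117) (nat_lit
 274877906944) .dd)))) (.br (nat_lit 5) (.ch (nat_lit 4) (.ev (nat_lit 848) (nat_lit 274877906944) (.ev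
 (nat_lit 944) (nat_lit 4096) (.ev (nat_lit 1012) (nat_lit 2097152) (.ev (nat_lit 1021) (nat_lit 4398046511104)
 .dd))))) (.ch (nat_lit 5) (.ev (nat_lit 848) (nat_lit 274877911040) (.ev (nat_lit 1012) (nat_lit
 4398046511104) (.ev (nat_lit 1021) (nat_lit 2097152) .dd)))))) (.br (nat_lit 8) (.ch (nat_lit 7) (.ev (nat_lit
 848) (nat_lit 4398046515200) (.ev (nat_lit 1120) (nat_lit 2097152) (.ev (nat_lit 1133) (nat_lit 274877906944)
 .dd)))) (.br (nat_lit 10) (.ch (nat_lit 8) (.ev (nat_lit 848) (nat_lit 4398048608256) (.ev (nat_lit 1188)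
 (nat_lit 4096) (.ev (nat_lit 1197) (nat_lit 274877906944) .dd)))) (.ch (nat_lit 10) (.ev (nat_lit 848)
 (nat_lit 274880004096) (.ev (nat_lit 900) (nat_lit 4096) (.ev (nat_lit 909) (nat_lit 4398046511104)
 .dd)))))))))) (.ch (nat_lit 1) (.ev (nat_lit 336) (nat_lit 4672960069632) (.nd (nat_lit 832) (.br (nat_lit 8)
 (.br (nat_lit 3) (.ch (nat_lit 2) (.ev (nat_lit 848) (nat_lit 68719542272) (.ev (nat_lit 900) (nat_lit
 268435456) (.ev (nat_lit 909) (nat_lit 4096) .dd)))) (.br (nat_lit 6) (.ch (nat_lit 3) (.ev (nat_lit 848)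
 (nat_lit 268435456) (.ev (nat_lit 912) (nat_lit 4096) (.ev (nat_lit 1040) (nat_lit 68719476736) (.ev (nat_lit
 1053) (nat_lit 65536) .dd))))) (.ch (nat_lit 6) (.ev (nat_lit 848) (nat_lit 4096) (.ev (nat_lit 1284) (nat_lit
 68719476736) (.nd (nat_lit 1761) (.ch (nat_lit 0) (.nd (nat_lit 1792) (.ch (nat_lit 6) (.fin (nat_lit
 576487690345071142))))))))))) (.br (nat_lit 10) (.ch (nat_lit 8) (.ev (nat_lit 848) (nat_lit 68987912192) (.ev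
 (nat_lit 900) (nat_lit 4096) (.ev (nat_lit 909) (nat_lit 65536) .dd)))) (.br (nat_lit 12) (.ch (nat_lit 10)
 (.ev (nat_lit 848) (nat_lit 68987977728) (.ev (nat_lit 861) (nat_lit 4096) .dd))) (.ch (nat_lit 12) (.ev
 (nat_lit 848) (nat_lit 69632) (.ev (nat_lit 1188) (nat_lit 68719476736) (.ev (nat_lit 1197) (nat_lit
 268435456) .dd))))))))))) (.br (nat_lit 5) (.ch (nat_lit 2) (.ev (nat_lit 336) (nat_lit 4398348570624) (.nd
 (nat_lit 832) (.br (nat_lit 5) (.br (nat_lit 4) (.ch (nat_lit 3) (.ev (nat_lit 848) (nat_lit 2097152) (.fin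
 (nat_lit 576461302066004536)))) (.ch (nat_lit 4) (.ev (nat_lit 848) (nat_lit 274880004096) (.ev (nat_lit 861)
 (nat_lit 68719476736) .dd)))) (.br (nat_lit 6) (.ch (nat_lit 5) (.ev (nat_lit 848) (nat_lit 68719476736) (.ev
 (nat_lit 900) (nat_lit 274877906944) (.ev (nat_lit 909) (nat_lit 2097152) .dd)))) (.br (nat_lit 11) (.ch
 (nat_lit 6) (.ev (nat_lit 848) (nat_lit 68719476736) (.ev (nat_lit 912) (nat_lit 274877906944) (.ev (nat_lit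
 925) (nat_lit 2097152) .dd)))) (.ch (nat_lit 11) (.ev (nat_lit 848) (nat_lit 274877906944) (.ev (nat_lit 1012)
 (nat_lit 2097152) (.ev (nat_lit 1021) (nat_lit 68719476736) .dd)))))))))) (.br (nat_lit 10) (.ch (nat_lit 5)
 (.ev (nat_lit 336) (nat_lit 4466768154624) (.nd (nat_lit 832) (.br (nat_lit 4) (.br (nat_lit 2) (.ch (nat_lit
 0) (.ev (nat_lit 848) (nat_lit 268435456) (.ev (nat_lit 1606) (nat_lit 274911461376) .dd))) (.ch (nat_lit 2)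
 (.ev (nat_lit 848) (nat_lit 274877906944) (.ev (nat_lit 900) (nat_lit 268435456) (.ev (nat_lit 909) (nat_lit
 33554432) .dd))))) (.br (nat_lit 8) (.ch (nat_lit 4) (.ev (nat_lit 848) (nat_lit 275179896832) .dd)) (.br
 (nat_lit 9) (.ch (nat_lit 8) (.ev (nat_lit 848) (nat_lit 274911461376) (.ev (nat_lit 861) (nat_lit 268435456)
 .dd))) (.ch (nat_lit 9) (.ev (nat_lit 848) (nat_lit 275146342400) (.ev (nat_lit 861) (nat_lit 33554432)
 .dd))))))))) (.ch (nat_lit 10) (.ev (nat_lit 336) (nat_lit 275179896832) (.nd (nat_lit 832) (.br (nat_lit 8)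
 (.br (nat_lit 3) (.ch (nat_lit 2) (.ev (nat_lit 848) (nat_lit 4466768084992) (.ev (nat_lit 900) (nat_lit
 65536) (.ev (nat_lit 909) (nat_lit 4096) .dd)))) (.ch (nat_lit 3) (.ev (nat_lit 848) (nat_lit 4466765987840)
 (.ev (nat_lit 1012) (nat_lit 2101248) (.ev (nat_lit 1021) (nat_lit 65536) .dd))))) (.br (nat_lit 9) (.ch
 (nat_lit 8) (.ev (nat_lit 848) (nat_lit 4466766057472) (.ev (nat_lit 861) (nat_lit 2097152) .dd))) (.br
 (nat_lit 12) (.ch (nat_lit 9) (.ev (nat_lit 848) (nat_lit 69632) (.ev (nat_lit 912) (nat_lit 4398046511104)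
 (.ev (nat_lit 1616) (nat_lit 68721573888) .dd)))) (.ch (nat_lit 12) (.ev (nat_lit 848) (nat_lit 68721577984)
 (.ev (nat_lit 928) (nat_lit 65536) (.ev (nat_lit 941) (nat_lit 4398046511104) .dd)))))))))))))))))))) (.br
 (nat_lit 18) (.ch (nat_lit 17) (.ev (nat_lit 52) (nat_lit 8624078858) (.ev (nat_lit 84) (nat_lit
 4672924422144) (.ev (nat_lit 116) (nat_lit 134217728) (.nd (nat_lit 320) (.br (nat_lit 6) (.br (nat_lit 2)
 (.ch (nat_lit 1) (.ev (nat_lit 336) (nat_lit 17596481275936) (.nd (nat_lit 832) (.br (nat_lit 8) (.br (nat_lit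
 3) (.br (nat_lit 2) (.ch (nat_lit 0) (.ev (nat_lit 848) (nat_lit 69528977408) (.ev (nat_lit 861) (nat_lit
 2097152) .dd))) (.ch (nat_lit 2) (.ev (nat_lit 848) (nat_lit 4194304) (.ev (nat_lit 1024) (nat_lit 2097152)
 (.ev (nat_lit 1248) (nat_lit 536870912) (.ev (nat_lit 1380) (nat_lit 68719476736) (.ev (nat_lit 1389) (nat_lit
 268435456) .dd))))))) (.br (nat_lit 6) (.ch (nat_lit 3) (.ev (nat_lit 848) (nat_lit 68987912192) (.ev (nat_lit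
 900) (nat_lit 4194304) (.ev (nat_lit 1108) (nat_lit 2097152) (.ev (nat_lit 1117) (nat_lit 536870912) .dd)))))
 (.ch (nat_lit 6) (.ev (nat_lit 848) (nat_lit 538968064) (.ev (nat_lit 912) (nat_lit 68719476736) (.ev (nat_lit
 1012) (nat_lit 4194304) (.ev (nat_lit 1021) (nat_lit 268435456) .dd))))))) (.br (nat_lit 10) (.br (nat_lit 9)
 (.ch (nat_lit 8) (.ev (nat_lit 848) (nat_lit 268435456) (.ev (nat_lit 900) (nat_lit 2097152) (.ev (nat_lit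
 1056) (nat_lit 68719476736) (.ev (nat_lit 1460) (nat_lit 536870912) (.ev (nat_lit 1469) (nat_lit 4194304)
 .dd)))))) (.ch (nat_lit 9) (.ev (nat_lit 848) (nat_lit 69531074560) .dd))) (.br (nat_lit 12) (.ch (nat_lit 10)
 (.ev (nat_lit 848) (nat_lit 68992106496) (.ev (nat_lit 864) (nat_lit 2097152) (.ev (nat_lit 877) (nat_lit
 536870912) .dd)))) (.ch (nat_lit 12) (.ev (nat_lit 848) (nat_lit 69531074560) .dd)))))))) (.br (nat_lit 4)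
 (.ch (nat_lit 2) (.ev (nat_lit 336) (nat_lit 17596481275936) (.nd (nat_lit 832) (.br (nat_lit 5) (.br (nat_lit
 3) (.br (nat_lit 1) (.ch (nat_lit 0) (.ev (nat_lit 848) (nat_lit 69528977408) (.ev (nat_lit 861) (nat_lit
 2097152) .dd))) (.ch (nat_lit 1) (.ev (nat_lit 848) (nat_lit 69526880256) (.ev (nat_lit 861) (nat_lit 4194304)
 .dd)))) (.br (nat_lit 4) (.ch (nat_lit 3) (.ev (nat_lit 848) (nat_lit 809500672) (.ev (nat_lit 864) (nat_lit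
 2097152) (.ev (nat_lit 877) (nat_lit 68719476736) .dd)))) (.ch (nat_lit 4) (.ev (nat_lit 848) (nat_lit
 69531074560) .dd)))) (.br (nat_lit 10) (.br (nat_lit 7) (.ch (nat_lit 5) (.ev (nat_lit 848) (nat_lit 4194304)
 (.ev (nat_lit 900) (nat_lit 2097152) (.ev (nat_lit 1056) (nat_lit 536870912) (.ev (nat_lit 1460) (nat_lit
 68719476736) (.ev (nat_lit 1469) (nat_lit 268435456) .dd)))))) (.ch (nat_lit 7) (.ev (nat_lit 848) (nat_lit
 68721573888) (.ev (nat_lit 912) (nat_lit 536870912) (.ev (nat_lit 1012) (nat_lit 4194304) (.ev (nat_lit 1021)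
 (nat_lit 268435456) .dd)))))) (.br (nat_lit 11) (.ch (nat_lit 10) (.ev (nat_lit 848) (nat_lit 809500672) (.ev
 (nat_lit 1108) (nat_lit 2097152) (.ev (nat_lit 1117) (nat_lit 68719476736) .dd)))) (.ch (nat_lit 11) (.ev
 (nat_lit 848) (nat_lit 68987912192) (.ev (nat_lit 1136) (nat_lit 2097152) (.ev (nat_lit 1380) (nat_lit
 536870912) (.ev (nat_lit 1389) (nat_lit 4194304) .dd))))))))))) (.ch (nat_lit 4) (.ev (nat_lit 336) (nat_lit
 17596755738656) (.ev (nat_lit 452) (nat_lit 262144) (.nd (nat_lit 832) (.br (nat_lit 5) (.br (nat_lit 3) (.ch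
 (nat_lit 0) (.ev (nat_lit 848) (nat_lit 2048) (.ev (nat_lit 1108) (nat_lit 68719476736) (.ev (nat_lit 1117)
 (nat_lit 536870912) .dd)))) (.br (nat_lit 4) (.ch (nat_lit 3) (.ev (nat_lit 848) (nat_lit 68719478784) (.ev
 (nat_lit 861) (nat_lit 536870912) .dd))) (.ch (nat_lit 4) (.ev (nat_lit 848) (nat_lit 68719476736) (.ev
 (nat_lit 1088) (nat_lit 536870912) (.ev (nat_lit 1101) (nat_lit 2048) .dd)))))) (.br (nat_lit 9) (.br (nat_lit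
 6) (.ch (nat_lit 5) (.ev (nat_lit 848) (nat_lit 536870912) (.ev (nat_lit 1380) (nat_lit 2048) (.ev (nat_lit
 1389) (nat_lit 68719476736) .dd)))) (.ch (nat_lit 6) (.ev (nat_lit 848) (nat_lit 536872960) (.ev (nat_lit 861)
 (nat_lit 68719476736) .dd)))) (.br (nat_lit 12) (.ch (nat_lit 9) (.ev (nat_lit 848) (nat_lit 69256347648) (.ev
 (nat_lit 861) (nat_lit 2048) .dd))) (.ch (nat_lit 12) (.ev (nat_lit 848) (nat_lit 68719478784) (.ev (nat_lit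
 861) (nat_lit 536870912) .dd)))))))))))) (.br (nat_lit 10) (.ch (nat_lit 6) (.ev (nat_lit 336) (nat_lit
 17592192600096) (.ev (nat_lit 432) (nat_lit 4294967296) (.nd (nat_lit 832) (.br (nat_lit 9) (.br (nat_lit 4)
 (.ch (nat_lit 3) (.ev (nat_lit 848) (nat_lit 69256347648) (.ev (nat_lit 861) (nat_lit 268435456) .dd))) (.br
 (nat_lit 6) (.ch (nat_lit 4) (.ev (nat_lit 848) (nat_lit 68719476736) (.ev (nat_lit 900) (nat_lit 268435456)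
 (.ev (nat_lit 909) (nat_lit 536870912) .dd)))) (.ch (nat_lit 6) (.ev (nat_lit 848) (nat_lit 536870912) (.ev
 (nat_lit 1702) (nat_lit 68987912192) .dd))))) (.br (nat_lit 11) (.ch (nat_lit 9) (.ev (nat_lit 1392) (nat_lit
 536870912) (.ev (nat_lit 1460) (nat_lit 268435456) (.ev (nat_lit 1469) (nat_lit 68719476736) .dd)))) (.br
 (nat_lit 12) (.ch (nat_lit 11) (.ev (nat_lit 900) (nat_lit 268435456) (.ev (nat_lit 1012) (nat_lit 536870912)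
 (.ev (nat_lit 1021) (nat_lit 68719476736) .dd)))) (.ch (nat_lit 12) (.ev (nat_lit 848) (nat_lit 69256347648)
 (.ev (nat_lit 861) (nat_lit 268435456) .dd)))))))))) (.br (nat_lit 12) (.ch (nat_lit 10) (.ev (nat_lit 336)
 (nat_lit 4565764128) (.ev (nat_lit 432) (nat_lit 17592186044416) (.nd (nat_lit 832) (.br (nat_lit 7) (.br
 (nat_lit 2) (.ch (nat_lit 0) (.ev (nat_lit 900) (nat_lit 4194304) (.ev (nat_lit 1012) (nat_lit 68719476736)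
 (.ev (nat_lit 1021) (nat_lit 536870912) .dd)))) (.br (nat_lit 5) (.ch (nat_lit 2) (.ev (nat_lit 1392) (nat_lit
 68719476736) (.ev (nat_lit 1460) (nat_lit 4194304) (.ev (nat_lit 1469) (nat_lit 536870912) .dd)))) (.ch
 (nat_lit 5) (.ev (nat_lit 848) (nat_lit 68719476736) (.ev (nat_lit 1728) (nat_lit 541065216) .dd))))) (.br
 (nat_lit 8) (.ch (nat_lit 7) (.ev (nat_lit 848) (nat_lit 536870912) (.ev (nat_lit 900) (nat_lit 4194304) (.ev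
 (nat_lit 909) (nat_lit 68719476736) .dd)))) (.br (nat_lit 12) (.ch (nat_lit 8) (.ev (nat_lit 848) (nat_lit
 536870912) (.ev (nat_lit 1328) (nat_lit 68719476736) (.ev (nat_lit 1341) (nat_lit 4194304) .dd)))) (.ch
 (nat_lit 12) (.ev (nat_lit 848) (nat_lit 69256347648) (.ev (nat_lit 861) (nat_lit 4194304) .dd)))))))))) (.ch
 (nat_lit 12) (.ev (nat_lit 336) (nat_lit 17596756000768) (.ev (nat_lit 452) (nat_lit 32) (.nd (nat_lit 832)
 (.br (nat_lit 7) (.br (nat_lit 1) (.ch (nat_lit 0) (.ev (nat_lit 848) (nat_lit 2048) (.ev (nat_lit 1108)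
 (nat_lit 536870912) (.ev (nat_lit 1117) (nat_lit 68719476736) .dd)))) (.br (nat_lit 4) (.ch (nat_lit 1) (.ev
 (nat_lit 848) (nat_lit 536872960) (.ev (nat_lit 861) (nat_lit 68719476736) .dd))) (.ch (nat_lit 4) (.ev
 (nat_lit 848) (nat_lit 69256347648) (.ev (nat_lit 861) (nat_lit 2048) .dd))))) (.br (nat_lit 9) (.br (nat_lit
 8) (.ch (nat_lit 7) (.ev (nat_lit 848) (nat_lit 68719478784) (.ev (nat_lit 861) (nat_lit 536870912) .dd)))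
 (.ch (nat_lit 8) (.ev (nat_lit 848) (nat_lit 68719476736) (.ev (nat_lit 1380) (nat_lit 2048) (.ev (nat_lit
 1389) (nat_lit 536870912) .dd))))) (.br (nat_lit 10) (.ch (nat_lit 9) (.ev (nat_lit 848) (nat_lit 536870912)
 (.ev (nat_lit 1024) (nat_lit 68719476736) (.ev (nat_lit 1037) (nat_lit 2048) .dd)))) (.ch (nat_lit 10) (.ev
 (nat_lit 848) (nat_lit 536872960) (.ev (nat_lit 861) (nat_lit 68719476736) .dd)))))))))))))))))) (.ch (nat_lit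
 18) (.ev (nat_lit 52) (nat_lit 5101125640) (.ev (nat_lit 84) (nat_lit 17592188143616) (.ev (nat_lit 116)
 (nat_lit 2) (.ev (nat_lit 148) (nat_lit 8589934592) (.nd (nat_lit 320) (.br (nat_lit 5) (.br (nat_lit 2) (.ch
 (nat_lit 0) (.ev (nat_lit 336) (nat_lit 68757225472) (.nd (nat_lit 832) (.br (nat_lit 8) (.br (nat_lit 2) (.ch
 (nat_lit 0) (.ev (nat_lit 848) (nat_lit 274877906976) (.ev (nat_lit 1108) (nat_lit 134217728) (.ev (nat_lit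
 1120) (nat_lit 4096) (.ev (nat_lit 1133) (nat_lit 4398046511104) .dd))))) (.br (nat_lit 4) (.ch (nat_lit 2)
 (.ev (nat_lit 848) (nat_lit 4673058635776) (.ev (nat_lit 1168) (nat_lit 32) (.ev (nat_lit 1181) (nat_lit 4096)
 .dd)))) (.ch (nat_lit 4) (.ev (nat_lit 848) (nat_lit 275012124704) (.ev (nat_lit 1284) (nat_lit 4398046511104)
 (.ev (nat_lit 1293) (nat_lit 4096) .dd)))))) (.br (nat_lit 10) (.ch (nat_lit 8) (.ev (nat_lit 848) (nat_lit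
 4672924418048) (.ev (nat_lit 900) (nat_lit 134217728) (.ev (nat_lit 1188) (nat_lit 4096) (.ev (nat_lit 1197)
 (nat_lit 32) .dd))))) (.br (nat_lit 12) (.ch (nat_lit 10) (.ev (nat_lit 848) (nat_lit 275012124704) (.ev
 (nat_lit 1108) (nat_lit 4096) (.ev (nat_lit 1117) (nat_lit 4398046511104) .dd)))) (.ch (nat_lit 12) (.ev
 (nat_lit 848) (nat_lit 134217760) (.ev (nat_lit 1040) (nat_lit 274877906944) (.fin (nat_lit
 576501983983649358))))))))))) (.br (nat_lit 4) (.ch (nat_lit 2) (.ev (nat_lit 336) (nat_lit 343765159968) (.nd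
 (nat_lit 832) (.br (nat_lit 7) (.br (nat_lit 5) (.ch (nat_lit 4) (.ev (nat_lit 848) (nat_lit 4398050705408)
 .dd)) (.ch (nat_lit 5) (.ev (nat_lit 848) (nat_lit 4398050705408) .dd))) (.br (nat_lit 10) (.ch (nat_lit 7)
 (.ev (nat_lit 900) (nat_lit 4398046511104) (.ev (nat_lit 909) (nat_lit 4194304) .dd))) (.br (nat_lit 11) (.ch
 (nat_lit 10) (.ev (nat_lit 848) (nat_lit 4194304) (.ev (nat_lit 861) (nat_lit 4398046511104) .dd))) (.ch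
 (nat_lit 11) (.ev (nat_lit 848) (nat_lit 4398046511104) (.ev (nat_lit 861) (nat_lit 4194304) .dd))))))))) (.ch
 (nat_lit 4) (.ev (nat_lit 336) (nat_lit 4673062834176) (.nd (nat_lit 832) (.br (nat_lit 9) (.br (nat_lit 6)
 (.ch (nat_lit 5) (.ev (nat_lit 1188) (nat_lit 32) (.fin (nat_lit 576518476628705912)))) (.br (nat_lit 8) (.ch
 (nat_lit 6) (.ev (nat_lit 848) (nat_lit 33554464) (.ev (nat_lit 861) (nat_lit 68719476736) .dd))) (.ch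
 (nat_lit 8) (.ev (nat_lit 848) (nat_lit 68719476768) (.ev (nat_lit 861) (nat_lit 33554432) .dd))))) (.br
 (nat_lit 11) (.ch (nat_lit 9) (.ev (nat_lit 848) (nat_lit 68753031168) (.ev (nat_lit 861) (nat_lit 32) .dd)))
 (.br (nat_lit 12) (.ch (nat_lit 11) (.ev (nat_lit 848) (nat_lit 68753031200) .dd)) (.ch (nat_lit 12) (.ev
 (nat_lit 848) (nat_lit 68753031200) .dd)))))))))) (.br (nat_lit 9) (.br (nat_lit 6) (.ch (nat_lit 5) (.ev
 (nat_lit 336) (nat_lit 68857892896) (.nd (nat_lit 832) (.br (nat_lit 9) (.br (nat_lit 8) (.ch (nat_lit 4) (.ev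
 (nat_lit 848) (nat_lit 274911461376) (.ev (nat_lit 861) (nat_lit 4398046511104) .dd))) (.ch (nat_lit 8) (.ev
 (nat_lit 848) (nat_lit 4398080065536) (.ev (nat_lit 861) (nat_lit 274877906944) .dd)))) (.br (nat_lit 10) (.ch
 (nat_lit 9) (.ev (nat_lit 848) (nat_lit 33554432) (.ev (nat_lit 1024) (nat_lit 274877906944) (.ev (nat_lit
 1037) (nat_lit 4398046511104) .dd)))) (.br (nat_lit 11) (.ch (nat_lit 10) (.ev (nat_lit 848) (nat_lit
 4672924418048) (.ev (nat_lit 861) (nat_lit 33554432) .dd))) (.ch (nat_lit 11) (.ev (nat_lit 848) (nat_lit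
 274877906944) (.ev (nat_lit 944) (nat_lit 33554432) (.ev (nat_lit 957) (nat_lit 4398046511104) .dd))))))))))
 (.ch (nat_lit 6) (.ev (nat_lit 336) (nat_lit 343765155872) (.nd (nat_lit 832) (.br (nat_lit 7) (.br (nat_lit
 6) (.ch (nat_lit 3) (.ev (nat_lit 848) (nat_lit 4398046515200) (.ev (nat_lit 861) (nat_lit 4194304) .dd)))
 (.ch (nat_lit 6) (.ev (nat_lit 848) (nat_lit 4398046511104) (.ev (nat_lit 1108) (nat_lit 4096) (.ev (nat_lit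
 1117) (nat_lit 4194304) .dd))))) (.br (nat_lit 12) (.ch (nat_lit 7) (.ev (nat_lit 1108) (nat_lit 4096) (.ev
 (nat_lit 1188) (nat_lit 4194304) (.ev (nat_lit 1197) (nat_lit 4398046511104) .dd)))) (.ch (nat_lit 12) (.ev
 (nat_lit 848) (nat_lit 4398050709504) .dd)))))))) (.br (nat_lit 12) (.ch (nat_lit 9) (.ev (nat_lit 336)
 (nat_lit 68891443232) (.nd (nat_lit 832) (.br (nat_lit 3) (.ch (nat_lit 0) (.ev (nat_lit 848) (nat_lit
 274877906944) (.ev (nat_lit 900) (nat_lit 4398046511104) (.ev (nat_lit 909) (nat_lit 4096) .dd)))) (.br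
 (nat_lit 9) (.ch (nat_lit 3) (.ev (nat_lit 848) (nat_lit 4672924418048) (.ev (nat_lit 861) (nat_lit 4096)
 .dd))) (.ch (nat_lit 9) (.ev (nat_lit 848) (nat_lit 4398046515200) (.ev (nat_lit 861) (nat_lit 274877906944)
 .dd)))))))) (.ch (nat_lit 12) (.ev (nat_lit 336) (nat_lit 4672962170880) (.nd (nat_lit 832) (.br (nat_lit 8)
 (.br (nat_lit 1) (.ch (nat_lit 0) (.ev (nat_lit 848) (nat_lit 68853694496) .dd)) (.br (nat_lit 7) (.ch
 (nat_lit 1) (.ev (nat_lit 848) (nat_lit 68719476768) (.ev (nat_lit 861) (nat_lit 134217728) .dd))) (.ch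
 (nat_lit 7) (.ev (nat_lit 848) (nat_lit 68719476768) (.ev (nat_lit 861) (nat_lit 134217728) .dd))))) (.br
 (nat_lit 9) (.ch (nat_lit 8) (.ev (nat_lit 848) (nat_lit 134217728) (.ev (nat_lit 900) (nat_lit 68719476736)
 (.ev (nat_lit 909) (nat_lit 32) .dd)))) (.br (nat_lit 12) (.ch (nat_lit 9) (.ev (nat_lit 848) (nat_lit 32)
 (.fin (nat_lit 576496486429704754)))) (.ch (nat_lit 12) (.ev (nat_lit 848) (nat_lit 68719476736) (.ev (nat_lit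
 900) (nat_lit 134217728) (.ev (nat_lit 909) (nat_lit 32) .dd))))))))))))))))))))))) (.br (nat_lit 26) (.br
 (nat_lit 22) (.br (nat_lit 20) (.ch (nat_lit 19) (.ev (nat_lit 52) (nat_lit 8758235176) (.ev (nat_lit 84)
 (nat_lit 68719738880) (.ev (nat_lit 180) (nat_lit 536870912) (.nd (nat_lit 320) (.br (nat_lit 6) (.br (nat_lit
 2) (.ch (nat_lit 0) (.ev (nat_lit 336) (nat_lit 17592458676226) (.ev (nat_lit 432) (nat_lit 2097152) (.nd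
 (nat_lit 832) (.br (nat_lit 6) (.br (nat_lit 4) (.ch (nat_lit 0) (.ev (nat_lit 848) (nat_lit 4398046511104)
 (.ev (nat_lit 976) (nat_lit 65536) (.ev (nat_lit 1284) (nat_lit 4294967296) (.ev (nat_lit 1293) (nat_lit
 274877906944) .dd))))) (.br (nat_lit 5) (.ch (nat_lit 4) (.ev (nat_lit 848) (nat_lit 274877972480) (.ev
 (nat_lit 1088) (nat_lit 4294967296) (.ev (nat_lit 1101) (nat_lit 4398046511104) .dd)))) (.ch (nat_lit 5) (.ev
 (nat_lit 848) (nat_lit 279172939776) (.ev (nat_lit 861) (nat_lit 4398046511104) .dd))))) (.br (nat_lit 10)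
 (.br (nat_lit 8) (.ch (nat_lit 6) (.ev (nat_lit 848) (nat_lit 4677219385344) (.ev (nat_lit 861) (nat_lit
 65536) .dd))) (.ch (nat_lit 8) (.ev (nat_lit 848) (nat_lit 4398046576640) (.ev (nat_lit 900) (nat_lit
 4294967296) (.ev (nat_lit 909) (nat_lit 274877906944) .dd))))) (.br (nat_lit 12) (.ch (nat_lit 10) (.ev
 (nat_lit 848) (nat_lit 274877972480) (.ev (nat_lit 1088) (nat_lit 4294967296) (.ev (nat_lit 1101) (nat_lit
 4398046511104) .dd)))) (.ch (nat_lit 12) (.ev (nat_lit 848) (nat_lit 65536) (.ev (nat_lit 1120) (nat_lit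
 4677219385344) .dd)))))))))) (.br (nat_lit 5) (.ch (nat_lit 2) (.ev (nat_lit 336) (nat_lit 17592192403458)
 (.ev (nat_lit 598) (nat_lit 268435456) (.nd (nat_lit 832) (.br (nat_lit 4) (.br (nat_lit 1) (.ch (nat_lit 0)
 (.ev (nat_lit 848) (nat_lit 274877906944) (.ev (nat_lit 1424) (nat_lit 4294967296) (.ev (nat_lit 1437)
 (nat_lit 4398046511104) .dd)))) (.br (nat_lit 3) (.ch (nat_lit 1) (.ev (nat_lit 848) (nat_lit 4672924418048)
 (.ev (nat_lit 861) (nat_lit 4294967296) .dd))) (.ch (nat_lit 3) (.ev (nat_lit 900) (nat_lit 274877906944) (.ev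
 (nat_lit 1520) (nat_lit 4398046511104) (.ev (nat_lit 1533) (nat_lit 4294967296) .dd)))))) (.br (nat_lit 6)
 (.ch (nat_lit 4) (.ev (nat_lit 848) (nat_lit 4398046511104) (.ev (nat_lit 1108) (nat_lit 4294967296) (.ev
 (nat_lit 1117) (nat_lit 274877906944) .dd)))) (.br (nat_lit 7) (.ch (nat_lit 6) (.ev (nat_lit 848) (nat_lit
 4672924418048) (.ev (nat_lit 861) (nat_lit 4294967296) .dd))) (.ch (nat_lit 7) (.ev (nat_lit 1188) (nat_lit
 4294967296) (.ev (nat_lit 1392) (nat_lit 274877906944) (.ev (nat_lit 1405) (nat_lit 4398046511104)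
 .dd))))))))))) (.ch (nat_lit 5) (.ev (nat_lit 336) (nat_lit 17592186109952) (.ev (nat_lit 420) (nat_lit 2)
 (.nd (nat_lit 832) (.br (nat_lit 9) (.br (nat_lit 4) (.br (nat_lit 3) (.ch (nat_lit 2) (.ev (nat_lit 848)
 (nat_lit 4677225678848) (.ev (nat_lit 861) (nat_lit 268435456) .dd))) (.ch (nat_lit 3) (.ev (nat_lit 848)
 (nat_lit 279443408896) (.ev (nat_lit 912) (nat_lit 4398046511104) (.ev (nat_lit 925) (nat_lit 4194304)
 .dd))))) (.br (nat_lit 8) (.ch (nat_lit 4) (.ev (nat_lit 848) (nat_lit 4677492015104) (.ev (nat_lit 900)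
 (nat_lit 2048) (.ev (nat_lit 909) (nat_lit 2097152) .dd)))) (.ch (nat_lit 8) (.ev (nat_lit 848) (nat_lit
 4398321240064) (.ev (nat_lit 900) (nat_lit 4294967296) (.ev (nat_lit 909) (nat_lit 274877906944) .dd))))))
 (.br (nat_lit 11) (.br (nat_lit 10) (.ch (nat_lit 9) (.ev (nat_lit 848) (nat_lit 4402612013056) (.ev (nat_lit
 900) (nat_lit 4194304) (.ev (nat_lit 909) (nat_lit 274877906944) .dd)))) (.ch (nat_lit 10) (.ev (nat_lit 848)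
 (nat_lit 4673199144960) (.fin (nat_lit 576500884492993126))))) (.br (nat_lit 12) (.ch (nat_lit 11) (.ev
 (nat_lit 848) (nat_lit 4299163648) (.ev (nat_lit 900) (nat_lit 2097152) (.ev (nat_lit 1248) (nat_lit
 274877906944) (.ev (nat_lit 1380) (nat_lit 4398046511104) (.ev (nat_lit 1389) (nat_lit 268435456) .dd))))))
 (.ch (nat_lit 12) (.ev (nat_lit 848) (nat_lit 4565501952) (.ev (nat_lit 1056) (nat_lit 4398046511104) (.ev
 (nat_lit 1460) (nat_lit 4194304) (.ev (nat_lit 1469) (nat_lit 274877906944) .dd)))))))))))))) (.br (nat_lit 9)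
 (.ch (nat_lit 6) (.ev (nat_lit 336) (nat_lit 17592188209154) (.nd (nat_lit 832) (.br (nat_lit 9) (.br (nat_lit
 6) (.br (nat_lit 4) (.ch (nat_lit 1) (.ev (nat_lit 848) (nat_lit 279445504000) (.ev (nat_lit 861) (nat_lit
 4398046511104) .dd))) (.ch (nat_lit 4) (.ev (nat_lit 848) (nat_lit 4677223579648) (.ev (nat_lit 861) (nat_lit
 268435456) .dd)))) (.br (nat_lit 7) (.ch (nat_lit 6) (.ev (nat_lit 848) (nat_lit 4673197047808) (.ev (nat_lit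
 861) (nat_lit 4294967296) .dd))) (.ch (nat_lit 7) (.ev (nat_lit 848) (nat_lit 4398314946560) (.ev (nat_lit
 1460) (nat_lit 274877906944) (.ev (nat_lit 1504) (nat_lit 4194304) (.ev (nat_lit 1517) (nat_lit 4294967296)
 .dd))))))) (.br (nat_lit 11) (.br (nat_lit 10) (.ch (nat_lit 9) (.ev (nat_lit 848) (nat_lit 4402609913856)
 (.ev (nat_lit 900) (nat_lit 274877906944) (.ev (nat_lit 909) (nat_lit 4194304) .dd)))) (.ch (nat_lit 10) (.ev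
 (nat_lit 848) (nat_lit 4567597056) (.ev (nat_lit 1056) (nat_lit 274877906944) (.ev (nat_lit 1069) (nat_lit
 4398046511104) .dd))))) (.br (nat_lit 12) (.ch (nat_lit 11) (.ev (nat_lit 848) (nat_lit 279177068544) (.fin
 (nat_lit 576492088339153536)))) (.ch (nat_lit 12) (.ev (nat_lit 848) (nat_lit 4677487820800) (.ev (nat_lit
 861) (nat_lit 4194304) .dd))))))))) (.br (nat_lit 10) (.ch (nat_lit 9) (.ev (nat_lit 336) (nat_lit
 17596485206018) (.nd (nat_lit 832) (.br (nat_lit 8) (.br (nat_lit 5) (.ch (nat_lit 0) (.ev (nat_lit 848)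
 (nat_lit 2164736) (.ev (nat_lit 900) (nat_lit 274877906944) (.ev (nat_lit 1108) (nat_lit 4398046511104) (.ev
 (nat_lit 1117) (nat_lit 268435456) .dd))))) (.br (nat_lit 6) (.ch (nat_lit 5) (.ev (nat_lit 848) (nat_lit
 4673194952704) (.ev (nat_lit 861) (nat_lit 65536) .dd))) (.ch (nat_lit 6) (.ev (nat_lit 848) (nat_lit
 4398046511104) (.ev (nat_lit 1188) (nat_lit 274877906944) (.ev (nat_lit 1200) (nat_lit 268435456) (.ev
 (nat_lit 1296) (nat_lit 2048) (.fin (nat_lit 576456904092893708))))))))) (.br (nat_lit 11) (.br (nat_lit 10)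
 (.ch (nat_lit 8) (.ev (nat_lit 848) (nat_lit 4398315012096) (.ev (nat_lit 900) (nat_lit 274877906944) (.ev
 (nat_lit 1012) (nat_lit 2048) (.ev (nat_lit 1021) (nat_lit 2097152) .dd))))) (.ch (nat_lit 10) (.ev (nat_lit
 848) (nat_lit 274880071680) (.ev (nat_lit 1284) (nat_lit 268435456) (.ev (nat_lit 1293) (nat_lit
 4398046511104) .dd))))) (.br (nat_lit 12) (.ch (nat_lit 11) (.ev (nat_lit 848) (nat_lit 4398046576640) (.ev
 (nat_lit 900) (nat_lit 2097152) (.ev (nat_lit 960) (nat_lit 268435456) (.ev (nat_lit 1108) (nat_lit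
 274877906944) (.ev (nat_lit 1117) (nat_lit 2048) .dd)))))) (.ch (nat_lit 12) (.ev (nat_lit 848) (nat_lit
 274877974528) (.ev (nat_lit 900) (nat_lit 268435456) (.ev (nat_lit 1012) (nat_lit 4398046511104) (.ev (nat_lit
 1021) (nat_lit 2097152) .dd))))))))))) (.ch (nat_lit 10) (.ev (nat_lit 336) (nat_lit 4565567490) (.ev (nat_lit
 464) (nat_lit 17592186044416) (.nd (nat_lit 832) (.br (nat_lit 7) (.br (nat_lit 2) (.ch (nat_lit 0) (.ev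
 (nat_lit 848) (nat_lit 4672924418048) (.ev (nat_lit 861) (nat_lit 4194304) .dd))) (.br (nat_lit 5) (.ch
 (nat_lit 2) (.ev (nat_lit 848) (nat_lit 4398046511104) (.ev (nat_lit 1744) (nat_lit 274882101248) .dd))) (.ch
 (nat_lit 5) (.ev (nat_lit 848) (nat_lit 274877906944) (.ev (nat_lit 1408) (nat_lit 4194304) (.ev (nat_lit
 1421) (nat_lit 4398046511104) .dd)))))) (.br (nat_lit 8) (.ch (nat_lit 7) (.ev (nat_lit 848) (nat_lit
 4672924418048) (.ev (nat_lit 861) (nat_lit 4194304) .dd))) (.br (nat_lit 12) (.ch (nat_lit 8) (.ev (nat_lit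
 900) (nat_lit 4194304) (.ev (nat_lit 1392) (nat_lit 274877906944) (.ev (nat_lit 1405) (nat_lit 4398046511104)
 .dd)))) (.ch (nat_lit 12) (.ev (nat_lit 1108) (nat_lit 274877906944) (.ev (nat_lit 1380) (nat_lit 4194304)
 (.ev (nat_lit 1389) (nat_lit 4398046511104) .dd))))))))))))))))))) (.br (nat_lit 21) (.ch (nat_lit 20) (.ev
 (nat_lit 52) (nat_lit 9164883968) (.ev (nat_lit 84) (nat_lit 2) (.ev (nat_lit 116) (nat_lit 68719476736) (.nd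
 (nat_lit 320) (.br (nat_lit 6) (.br (nat_lit 2) (.ch (nat_lit 0) (.ev (nat_lit 336) (nat_lit 17592457101320)
 (.nd (nat_lit 832) (.br (nat_lit 6) (.br (nat_lit 2) (.ch (nat_lit 0) (.ev (nat_lit 848) (nat_lit 4429185056)
 (.ev (nat_lit 1108) (nat_lit 4398046511104) (.ev (nat_lit 1120) (nat_lit 274877911040) .dd)))) (.br (nat_lit
 4) (.ch (nat_lit 2) (.ev (nat_lit 848) (nat_lit 4402341478400) (.ev (nat_lit 1012) (nat_lit 134217728) (.ev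
 (nat_lit 1088) (nat_lit 4096) (.ev (nat_lit 1188) (nat_lit 274877906944) (.ev (nat_lit 1197) (nat_lit 32)
 .dd)))))) (.ch (nat_lit 4) (.ev (nat_lit 848) (nat_lit 275012124672) (.ev (nat_lit 864) (nat_lit 4294967296)
 (.ev (nat_lit 900) (nat_lit 4398046511104) (.ev (nat_lit 912) (nat_lit 4096) (.ev (nat_lit 925) (nat_lit 32)
 .dd)))))))) (.br (nat_lit 8) (.br (nat_lit 7) (.ch (nat_lit 6) (.ev (nat_lit 848) (nat_lit 4677353607200)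
 .dd)) (.ch (nat_lit 7) (.ev (nat_lit 848) (nat_lit 4402341482496) (.ev (nat_lit 1012) (nat_lit 275012124672)
 (.ev (nat_lit 1021) (nat_lit 32) .dd))))) (.br (nat_lit 12) (.ch (nat_lit 8) (.ev (nat_lit 848) (nat_lit
 4398046511104) (.ev (nat_lit 900) (nat_lit 275012124704) (.ev (nat_lit 912) (nat_lit 4294967296) (.ev (nat_lit
 925) (nat_lit 4096) .dd))))) (.ch (nat_lit 12) (.ev (nat_lit 848) (nat_lit 275012124704) (.ev (nat_lit 912)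
 (nat_lit 4294967296) (.fin (nat_lit 576501983983649358))))))))))) (.br (nat_lit 5) (.ch (nat_lit 2) (.ev
 (nat_lit 336) (nat_lit 4429713448) (.nd (nat_lit 832) (.br (nat_lit 6) (.br (nat_lit 3) (.ch (nat_lit 0) (.ev
 (nat_lit 848) (nat_lit 275146342400) (.ev (nat_lit 900) (nat_lit 4398046511104) (.ev (nat_lit 1408) (nat_lit
 2097152) (.ev (nat_lit 1421) (nat_lit 17592186044416) .dd))))) (.br (nat_lit 5) (.ch (nat_lit 3) (.ev (nat_lit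
 848) (nat_lit 4398314946560) (.ev (nat_lit 1108) (nat_lit 2097152) (.ev (nat_lit 1408) (nat_lit
 17592186044416) (.ev (nat_lit 1421) (nat_lit 274877906944) .dd))))) (.ch (nat_lit 5) (.ev (nat_lit 848)
 (nat_lit 4672924418048) (.ev (nat_lit 1120) (nat_lit 2097152) (.ev (nat_lit 1284) (nat_lit 268435456) (.ev
 (nat_lit 1293) (nat_lit 17592186044416) .dd))))))) (.br (nat_lit 10) (.ch (nat_lit 6) (.ev (nat_lit 848)
 (nat_lit 268435456) (.ev (nat_lit 1188) (nat_lit 4398046511104) (.ev (nat_lit 1284) (nat_lit 17592186044416)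
 (.ev (nat_lit 1460) (nat_lit 2097152) (.ev (nat_lit 1469) (nat_lit 274877906944) .dd)))))) (.br (nat_lit 11)
 (.ch (nat_lit 10) (.ev (nat_lit 848) (nat_lit 268435456) (.ev (nat_lit 1012) (nat_lit 4398048608256) (.ev
 (nat_lit 1392) (nat_lit 274877906944) (.ev (nat_lit 1405) (nat_lit 17592186044416) .dd))))) (.ch (nat_lit 11)
 (.ev (nat_lit 848) (nat_lit 4672924418048) (.ev (nat_lit 1120) (nat_lit 17592186044416) (.ev (nat_lit 1380)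
 (nat_lit 268435456) (.ev (nat_lit 1389) (nat_lit 2097152) .dd))))))))))) (.ch (nat_lit 5) (.ev (nat_lit 336)
 (nat_lit 17596885766152) (.ev (nat_lit 432) (nat_lit 32) (.nd (nat_lit 832) (.br (nat_lit 4) (.br (nat_lit 2)
 (.ch (nat_lit 0) (.ev (nat_lit 848) (nat_lit 4398046511104) (.ev (nat_lit 900) (nat_lit 524288) (.ev (nat_lit
 909) (nat_lit 274877906944) .dd)))) (.br (nat_lit 3) (.ch (nat_lit 2) (.ev (nat_lit 848) (nat_lit
 4672924942336) .dd)) (.ch (nat_lit 3) (.ev (nat_lit 848) (nat_lit 274878431232) (.ev (nat_lit 861) (nat_lit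
 4398046511104) .dd))))) (.br (nat_lit 9) (.br (nat_lit 8) (.ch (nat_lit 4) (.ev (nat_lit 848) (nat_lit
 274877906944) (.ev (nat_lit 960) (nat_lit 524288) (.ev (nat_lit 973) (nat_lit 4398046511104) .dd)))) (.ch
 (nat_lit 8) (.ev (nat_lit 848) (nat_lit 4398046511104) (.ev (nat_lit 1284) (nat_lit 524288) (.ev (nat_lit
 1293) (nat_lit 274877906944) .dd))))) (.br (nat_lit 11) (.ch (nat_lit 9) (.ev (nat_lit 1120) (nat_lit
 4672924942336) .dd)) (.ch (nat_lit 11) (.ev (nat_lit 848) (nat_lit 274877906944) (.ev (nat_lit 1188) (nat_lit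
 4398046511104) (.ev (nat_lit 1197) (nat_lit 524288) .dd))))))))))))) (.br (nat_lit 9) (.ch (nat_lit 6) (.ev
 (nat_lit 336) (nat_lit 4699717672) (.nd (nat_lit 832) (.br (nat_lit 7) (.br (nat_lit 3) (.ch (nat_lit 1) (.ev
 (nat_lit 848) (nat_lit 4672924422144) (.ev (nat_lit 900) (nat_lit 524288) (.ev (nat_lit 909) (nat_lit
 17592186044416) .dd)))) (.br (nat_lit 6) (.ch (nat_lit 3) (.ev (nat_lit 848) (nat_lit 4398046515200) (.ev
 (nat_lit 1328) (nat_lit 274877906944) (.ev (nat_lit 1408) (nat_lit 17592186044416) (.ev (nat_lit 1421)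
 (nat_lit 524288) .dd))))) (.ch (nat_lit 6) (.ev (nat_lit 900) (nat_lit 4096) (.ev (nat_lit 1108) (nat_lit
 274877906944) (.ev (nat_lit 1284) (nat_lit 4398046511104) (.ev (nat_lit 1380) (nat_lit 524288) (.ev (nat_lit
 1389) (nat_lit 17592186044416) .dd)))))))) (.br (nat_lit 10) (.ch (nat_lit 7) (.ev (nat_lit 848) (nat_lit
 4096) (.ev (nat_lit 1284) (nat_lit 21990232555520) (.fin (nat_lit 576518476702106172))))) (.br (nat_lit 11)
 (.ch (nat_lit 10) (.ev (nat_lit 848) (nat_lit 4398046511104) (.ev (nat_lit 900) (nat_lit 274877906944) (.ev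
 (nat_lit 1012) (nat_lit 524288) (.ev (nat_lit 1200) (nat_lit 17592186044416) (.ev (nat_lit 1213) (nat_lit
 4096) .dd)))))) (.ch (nat_lit 11) (.ev (nat_lit 848) (nat_lit 274877911040) (.ev (nat_lit 900) (nat_lit
 4398046511104) (.ev (nat_lit 1012) (nat_lit 524288) (.ev (nat_lit 1021) (nat_lit 17592186044416)
 .dd))))))))))) (.br (nat_lit 10) (.ch (nat_lit 9) (.ev (nat_lit 336) (nat_lit 4429185064) (.ev (nat_lit 420)
 (nat_lit 268435456) (.ev (nat_lit 614) (nat_lit 2097152) (.nd (nat_lit 832) (.br (nat_lit 8) (.br (nat_lit 5)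
 (.br (nat_lit 3) (.ch (nat_lit 0) (.ev (nat_lit 848) (nat_lit 274878435328) (.ev (nat_lit 900) (nat_lit
 17592186044416) (.ev (nat_lit 909) (nat_lit 4398046511104) .dd)))) (.ch (nat_lit 3) (.ev (nat_lit 848)
 (nat_lit 22265110986752) (.ev (nat_lit 861) (nat_lit 4096) .dd)))) (.br (nat_lit 6) (.ch (nat_lit 5) (.ev
 (nat_lit 848) (nat_lit 22265110466560) (.ev (nat_lit 861) (nat_lit 524288) .dd))) (.ch (nat_lit 6) (.ev
 (nat_lit 848) (nat_lit 17592186048512) (.ev (nat_lit 1248) (nat_lit 4398046511104) (.ev (nat_lit 1588)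
 (nat_lit 524288) (.ev (nat_lit 1597) (nat_lit 274877906944) .dd))))))) (.br (nat_lit 10) (.br (nat_lit 9) (.ch
 (nat_lit 8) (.ev (nat_lit 848) (nat_lit 4398047039488) (.ev (nat_lit 912) (nat_lit 274877906944) (.ev (nat_lit
 925) (nat_lit 17592186044416) .dd)))) (.ch (nat_lit 9) (.ev (nat_lit 848) (nat_lit 528384) (.ev (nat_lit 1056)
 (nat_lit 274877906944) (.ev (nat_lit 1460) (nat_lit 4398046511104) (.ev (nat_lit 1469) (nat_lit
 17592186044416) .dd)))))) (.br (nat_lit 11) (.ch (nat_lit 10) (.ev (nat_lit 848) (nat_lit 17867064475648) (.ev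
 (nat_lit 900) (nat_lit 4096) (.ev (nat_lit 909) (nat_lit 4398046511104) .dd)))) (.ch (nat_lit 11) (.ev
 (nat_lit 848) (nat_lit 22265110990848) .dd)))))))))) (.ch (nat_lit 10) (.ev (nat_lit 336) (nat_lit
 17596749447168) (.ev (nat_lit 420) (nat_lit 8) (.nd (nat_lit 832) (.br (nat_lit 6) (.br (nat_lit 3) (.ch
 (nat_lit 2) (.ev (nat_lit 848) (nat_lit 4398181253152) (.ev (nat_lit 1424) (nat_lit 4096) (.ev (nat_lit 1460)
 (nat_lit 2097152) (.ev (nat_lit 1469) (nat_lit 274877906944) .dd))))) (.br (nat_lit 5) (.ch (nat_lit 3) (.ev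
 (nat_lit 848) (nat_lit 4672924942336) (.ev (nat_lit 900) (nat_lit 134217760) (.ev (nat_lit 1136) (nat_lit
 4096) (.ev (nat_lit 1149) (nat_lit 2097152) .dd))))) (.ch (nat_lit 5) (.ev (nat_lit 848) (nat_lit 524320) (.ev
 (nat_lit 1108) (nat_lit 134217728) (.ev (nat_lit 1380) (nat_lit 4398046511104) (.ev (nat_lit 1460) (nat_lit
 274880004096) (.ev (nat_lit 1469) (nat_lit 4096) .dd)))))))) (.br (nat_lit 8) (.ch (nat_lit 6) (.ev (nat_lit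
 848) (nat_lit 275012124672) (.ev (nat_lit 900) (nat_lit 4398047035392) (.ev (nat_lit 1200) (nat_lit 2097152)
 (.ev (nat_lit 1296) (nat_lit 4096) (.ev (nat_lit 1309) (nat_lit 32) .dd)))))) (.br (nat_lit 9) (.ch (nat_lit
 8) (.ev (nat_lit 848) (nat_lit 4672924942368) (.ev (nat_lit 900) (nat_lit 134217728) (.ev (nat_lit 1408)
 (nat_lit 2097152) (.ev (nat_lit 1421) (nat_lit 4096) .dd))))) (.ch (nat_lit 9) (.ev (nat_lit 848) (nat_lit 32)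
 (.ev (nat_lit 1108) (nat_lit 4398046511104) (.ev (nat_lit 1188) (nat_lit 274877911040) (.ev (nat_lit 1460)
 (nat_lit 2097152) (.fin (nat_lit 576474496163594850)))))))))))))))))))))) (.ch (nat_lit 21) (.ev (nat_lit 52)
 (nat_lit 4406804545568) (.ev (nat_lit 84) (nat_lit 4194312) (.ev (nat_lit 148) (nat_lit 268435456) (.ev
 (nat_lit 180) (nat_lit 2097152) (.nd (nat_lit 320) (.br (nat_lit 6) (.br (nat_lit 1) (.ch (nat_lit 0) (.ev
 (nat_lit 336) (nat_lit 17661442918402) (.nd (nat_lit 832) (.br (nat_lit 8) (.br (nat_lit 2) (.ch (nat_lit 0)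
 (.ev (nat_lit 1012) (nat_lit 274877906944) (.ev (nat_lit 1072) (nat_lit 4096) (.ev (nat_lit 1085) (nat_lit
 4294967296) .dd)))) (.br (nat_lit 4) (.ch (nat_lit 2) (.ev (nat_lit 900) (nat_lit 4096) (.ev (nat_lit 1120)
 (nat_lit 4294967296) (.ev (nat_lit 1133) (nat_lit 274877906944) .dd)))) (.ch (nat_lit 4) (.ev (nat_lit 848)
 (nat_lit 274877906944) (.ev (nat_lit 1188) (nat_lit 4096) (.ev (nat_lit 1197) (nat_lit 4294967296) .dd))))))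
 (.br (nat_lit 10) (.ch (nat_lit 8) (.ev (nat_lit 1012) (nat_lit 4096) (.ev (nat_lit 1284) (nat_lit
 274877906944) (.ev (nat_lit 1293) (nat_lit 4294967296) .dd)))) (.br (nat_lit 12) (.ch (nat_lit 10) (.ev
 (nat_lit 848) (nat_lit 274877906944) (.ev (nat_lit 1408) (nat_lit 4294971392) .dd))) (.ch (nat_lit 12) (.ev
 (nat_lit 1108) (nat_lit 4096) (.ev (nat_lit 1120) (nat_lit 4294967296) (.ev (nat_lit 1133) (nat_lit
 274877906944) .dd)))))))))) (.br (nat_lit 5) (.ch (nat_lit 1) (.ev (nat_lit 336) (nat_lit 17871358918658) (.nd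
 (nat_lit 832) (.br (nat_lit 9) (.br (nat_lit 1) (.ch (nat_lit 0) (.ev (nat_lit 848) (nat_lit 69256876032) (.ev
 (nat_lit 861) (nat_lit 2048) .dd))) (.br (nat_lit 8) (.ch (nat_lit 1) (.ev (nat_lit 848) (nat_lit 68719480832)
 (.ev (nat_lit 900) (nat_lit 524288) (.ev (nat_lit 928) (nat_lit 536870912) (.ev (nat_lit 941) (nat_lit 2048)
 .dd))))) (.ch (nat_lit 8) (.ev (nat_lit 848) (nat_lit 536870912) (.ev (nat_lit 1012) (nat_lit 2048) (.ev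
 (nat_lit 1024) (nat_lit 4096) (.ev (nat_lit 1120) (nat_lit 68719476736) (.ev (nat_lit 1133) (nat_lit 524288)
 .dd)))))))) (.br (nat_lit 10) (.ch (nat_lit 9) (.ev (nat_lit 848) (nat_lit 69256347648) (.ev (nat_lit 900)
 (nat_lit 524288) (.ev (nat_lit 1188) (nat_lit 2048) (.ev (nat_lit 1197) (nat_lit 4096) .dd))))) (.br (nat_lit
 12) (.ch (nat_lit 10) (.ev (nat_lit 848) (nat_lit 68720005120) (.ev (nat_lit 900) (nat_lit 2048) (.ev (nat_lit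
 909) (nat_lit 536870912) .dd)))) (.ch (nat_lit 12) (.ev (nat_lit 848) (nat_lit 69256351744) (.ev (nat_lit
 1284) (nat_lit 524288) (.ev (nat_lit 1293) (nat_lit 2048) .dd)))))))))) (.ch (nat_lit 5) (.ev (nat_lit 336)
 (nat_lit 17661442396162) (.nd (nat_lit 832) (.br (nat_lit 10) (.ch (nat_lit 9) (.ev (nat_lit 848) (nat_lit
 526336) (.ev (nat_lit 900) (nat_lit 4294967296) (.ev (nat_lit 909) (nat_lit 274877906944) .dd)))) (.br
 (nat_lit 12) (.ch (nat_lit 10) (.ev (nat_lit 848) (nat_lit 274878431232) (.nd (nat_lit 1793) (.ch (nat_lit 21)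
 (.nd (nat_lit 1824) (.ch (nat_lit 3) (.fin (nat_lit 576500884492993126)))))))) (.ch (nat_lit 12) (.ev (nat_lit
 848) (nat_lit 279172874240) (.ev (nat_lit 900) (nat_lit 2048) (.ev (nat_lit 909) (nat_lit 524288)
 .dd))))))))))) (.br (nat_lit 10) (.br (nat_lit 9) (.ch (nat_lit 6) (.ev (nat_lit 336) (nat_lit 68720007170)
 (.nd (nat_lit 832) (.br (nat_lit 10) (.br (nat_lit 7) (.ch (nat_lit 1) (.ev (nat_lit 848) (nat_lit
 279172874240) (.ev (nat_lit 900) (nat_lit 17592186044416) (.ev (nat_lit 909) (nat_lit 536870912) .dd)))) (.br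
 (nat_lit 9) (.ch (nat_lit 7) (.ev (nat_lit 900) (nat_lit 536870912) (.ev (nat_lit 1188) (nat_lit 274877906944)
 (.ev (nat_lit 1216) (nat_lit 17592186044416) (.ev (nat_lit 1229) (nat_lit 4294967296) .dd))))) (.ch (nat_lit
 9) (.ev (nat_lit 848) (nat_lit 17867600822272) (.ev (nat_lit 861) (nat_lit 4294967296) .dd))))) (.br (nat_lit
 11) (.ch (nat_lit 10) (.ev (nat_lit 1040) (nat_lit 17867063951360) (.ev (nat_lit 1108) (nat_lit 536870912)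
 (.ev (nat_lit 1117) (nat_lit 4294967296) .dd)))) (.br (nat_lit 12) (.ch (nat_lit 11) (.ev (nat_lit 848)
 (nat_lit 279172874240) (.ev (nat_lit 900) (nat_lit 17592186044416) (.ev (nat_lit 909) (nat_lit 536870912)
 .dd)))) (.ch (nat_lit 12) (.ev (nat_lit 848) (nat_lit 17871895789568) .dd)))))))) (.ch (nat_lit 9) (.ev
 (nat_lit 336) (nat_lit 17665737361410) (.nd (nat_lit 832) (.br (nat_lit 6) (.br (nat_lit 3) (.ch (nat_lit 0)
 (.ev (nat_lit 848) (nat_lit 528384) (.ev (nat_lit 861) (nat_lit 274877906944) .dd))) (.ch (nat_lit 3) (.ev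
 (nat_lit 848) (nat_lit 274878431232) (.ev (nat_lit 861) (nat_lit 4096) .dd)))) (.br (nat_lit 10) (.ch (nat_lit
 6) (.ev (nat_lit 1072) (nat_lit 4096) (.ev (nat_lit 1108) (nat_lit 274877906944) (.ev (nat_lit 1117) (nat_lit
 524288) .dd)))) (.br (nat_lit 11) (.ch (nat_lit 10) (.ev (nat_lit 848) (nat_lit 274878435328) .dd)) (.ch
 (nat_lit 11) (.ev (nat_lit 848) (nat_lit 4096) (.ev (nat_lit 912) (nat_lit 524288) (.ev (nat_lit 925) (nat_lit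
 274877906944) .dd))))))))))) (.br (nat_lit 12) (.ch (nat_lit 10) (.ev (nat_lit 336) (nat_lit 4831840256) (.nd
 (nat_lit 832) (.br (nat_lit 7) (.br (nat_lit 6) (.ch (nat_lit 0) (.ev (nat_lit 848) (nat_lit 274877911042)
 (.ev (nat_lit 900) (nat_lit 68720001024) (.ev (nat_lit 909) (nat_lit 17592186044416) .dd)))) (.ch (nat_lit 6)
 (.ev (nat_lit 848) (nat_lit 17935783952384) (.nd (nat_lit 1761) (.ch (nat_lit 13) (.nd (nat_lit 1792) (.br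
 (nat_lit 8) (.ch (nat_lit 7) (.ev (nat_lit 1808) (nat_lit 4098) .dd)) (.ch (nat_lit 8) (.fin (nat_lit
 576448107907596860)))))))))) (.br (nat_lit 9) (.ch (nat_lit 7) (.ev (nat_lit 848) (nat_lit 17867064479744)
 (.ev (nat_lit 1012) (nat_lit 2) (.ev (nat_lit 1021) (nat_lit 68719476736) .dd)))) (.br (nat_lit 12) (.ch
 (nat_lit 9) (.ev (nat_lit 848) (nat_lit 68719480834) (.ev (nat_lit 900) (nat_lit 274878431232) (.ev (nat_lit
 909) (nat_lit 17592186044416) .dd)))) (.ch (nat_lit 12) (.ev (nat_lit 848) (nat_lit 17660905525250) (.ev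
 (nat_lit 900) (nat_lit 274877906944) (.ev (nat_lit 909) (nat_lit 524288) .dd)))))))))) (.ch (nat_lit 12) (.ev
 (nat_lit 336) (nat_lit 17871358922754) (.nd (nat_lit 832) (.br (nat_lit 8) (.br (nat_lit 1) (.ch (nat_lit 0)
 (.ev (nat_lit 848) (nat_lit 68720003072) (.ev (nat_lit 861) (nat_lit 536870912) .dd))) (.br (nat_lit 7) (.ch
 (nat_lit 1) (.ev (nat_lit 848) (nat_lit 69256347648) (.ev (nat_lit 900) (nat_lit 524288) (.ev (nat_lit 909)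
 (nat_lit 2048) .dd)))) (.ch (nat_lit 7) (.ev (nat_lit 848) (nat_lit 69256873984) .dd)))) (.br (nat_lit 9) (.ch
 (nat_lit 8) (.ev (nat_lit 848) (nat_lit 536870912) (.ev (nat_lit 864) (nat_lit 524288) (.ev (nat_lit 900)
 (nat_lit 68719476736) (.ev (nat_lit 909) (nat_lit 2048) .dd))))) (.br (nat_lit 12) (.ch (nat_lit 9) (.ev
 (nat_lit 848) (nat_lit 69256347648) (.ev (nat_lit 1284) (nat_lit 2048) (.ev (nat_lit 1293) (nat_lit 524288)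
 .dd)))) (.ch (nat_lit 12) (.ev (nat_lit 848) (nat_lit 68720003072) (.ev (nat_lit 861) (nat_lit 536870912)
 .dd)))))))))))))))))))) (.br (nat_lit 24) (.ch (nat_lit 22) (.ev (nat_lit 52) (nat_lit 21994800152576) (.ev
 (nat_lit 84) (nat_lit 2) (.ev (nat_lit 116) (nat_lit 283467841536) (.ev (nat_lit 148) (nat_lit 8) (.ev
 (nat_lit 180) (nat_lit 65536) (.nd (nat_lit 320) (.br (nat_lit 6) (.br (nat_lit 2) (.ch (nat_lit 1) (.ev
 (nat_lit 336) (nat_lit 34344992) (.ev (nat_lit 432) (nat_lit 134217728) (.nd (nat_lit 832) (.br (nat_lit 3)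
 (.br (nat_lit 1) (.ch (nat_lit 0) (.ev (nat_lit 848) (nat_lit 69258444800) (.ev (nat_lit 861) (nat_lit 2048)
 .dd))) (.br (nat_lit 2) (.ch (nat_lit 1) (.ev (nat_lit 848) (nat_lit 68719478784) (.ev (nat_lit 900) (nat_lit
 2097152) (.ev (nat_lit 909) (nat_lit 536870912) .dd)))) (.ch (nat_lit 2) (.ev (nat_lit 848) (nat_lit
 536872960) (.ev (nat_lit 1188) (nat_lit 68719476736) (.ev (nat_lit 1197) (nat_lit 2097152) .dd)))))) (.br
 (nat_lit 10) (.br (nat_lit 6) (.ch (nat_lit 3) (.ev (nat_lit 848) (nat_lit 2048) (.ev (nat_lit 1120) (nat_lit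
 69258444800) .dd))) (.ch (nat_lit 6) (.ev (nat_lit 848) (nat_lit 538970112) (.ev (nat_lit 861) (nat_lit
 68719476736) .dd)))) (.br (nat_lit 12) (.ch (nat_lit 10) (.ev (nat_lit 848) (nat_lit 68719476736) (.ev
 (nat_lit 1120) (nat_lit 2048) (.ev (nat_lit 1284) (nat_lit 2097152) (.ev (nat_lit 1293) (nat_lit 536870912)
 .dd))))) (.ch (nat_lit 12) (.ev (nat_lit 848) (nat_lit 536872960) (.ev (nat_lit 960) (nat_lit 2097152) (.ev
 (nat_lit 973) (nat_lit 68719476736) .dd))))))))))) (.br (nat_lit 4) (.ch (nat_lit 2) (.ev (nat_lit 336)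
 (nat_lit 135010336) (.nd (nat_lit 832) (.br (nat_lit 6) (.br (nat_lit 3) (.ch (nat_lit 0) (.ev (nat_lit 900)
 (nat_lit 33554432) (.ev (nat_lit 1284) (nat_lit 2097152) (.ev (nat_lit 1392) (nat_lit 536870912) (.ev (nat_lit
 1405) (nat_lit 68719476736) .dd))))) (.br (nat_lit 5) (.ch (nat_lit 3) (.ev (nat_lit 848) (nat_lit 570425344)
 (.ev (nat_lit 1424) (nat_lit 2097152) (.ev (nat_lit 1437) (nat_lit 68719476736) .dd)))) (.ch (nat_lit 5) (.ev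
 (nat_lit 848) (nat_lit 68719476736) (.ev (nat_lit 1188) (nat_lit 536870912) (.ev (nat_lit 1312) (nat_lit
 33554432) (.ev (nat_lit 1325) (nat_lit 2097152) .dd))))))) (.br (nat_lit 10) (.ch (nat_lit 6) (.ev (nat_lit
 848) (nat_lit 68753031168) (.ev (nat_lit 1328) (nat_lit 536870912) (.ev (nat_lit 1341) (nat_lit 2097152)
 .dd)))) (.br (nat_lit 11) (.ch (nat_lit 10) (.ev (nat_lit 848) (nat_lit 69289902080) (.ev (nat_lit 861)
 (nat_lit 2097152) .dd))) (.ch (nat_lit 11) (.ev (nat_lit 848) (nat_lit 33554432) (.ev (nat_lit 900) (nat_lit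
 536870912) (.ev (nat_lit 1460) (nat_lit 2097152) (.ev (nat_lit 1469) (nat_lit 68719476736) .dd))))))))))) (.ch
 (nat_lit 4) (.ev (nat_lit 336) (nat_lit 134486048) (.nd (nat_lit 832) (.br (nat_lit 8) (.br (nat_lit 4) (.br
 (nat_lit 3) (.ch (nat_lit 0) (.ev (nat_lit 848) (nat_lit 573046784) (.ev (nat_lit 861) (nat_lit 68719476736)
 .dd))) (.ch (nat_lit 3) (.ev (nat_lit 848) (nat_lit 33554432) (.ev (nat_lit 1248) (nat_lit 68719476736) (.ev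
 (nat_lit 1460) (nat_lit 536870912) (.ev (nat_lit 1540) (nat_lit 524288) (.ev (nat_lit 1549) (nat_lit 2097152)
 .dd))))))) (.br (nat_lit 5) (.ch (nat_lit 4) (.ev (nat_lit 848) (nat_lit 68755128320) (.ev (nat_lit 900)
 (nat_lit 536870912) (.ev (nat_lit 909) (nat_lit 524288) .dd)))) (.ch (nat_lit 5) (.ev (nat_lit 848) (nat_lit
 539492352) (.fin (nat_lit 576404127492817416)))))) (.br (nat_lit 11) (.br (nat_lit 9) (.ch (nat_lit 8) (.ev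
 (nat_lit 848) (nat_lit 69258969088) (.ev (nat_lit 861) (nat_lit 33554432) .dd))) (.ch (nat_lit 9) (.ev
 (nat_lit 848) (nat_lit 69290426368) (.ev (nat_lit 861) (nat_lit 2097152) .dd)))) (.br (nat_lit 12) (.ch
 (nat_lit 11) (.ev (nat_lit 848) (nat_lit 36175872) (.ev (nat_lit 1056) (nat_lit 536870912) (.ev (nat_lit 1069)
 (nat_lit 68719476736) .dd)))) (.ch (nat_lit 12) (.ev (nat_lit 848) (nat_lit 69292523520) .dd)))))))))) (.br
 (nat_lit 10) (.ch (nat_lit 6) (.ev (nat_lit 336) (nat_lit 170133536) (.ev (nat_lit 464) (nat_lit 4096) (.nd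
 (nat_lit 832) (.br (nat_lit 7) (.br (nat_lit 3) (.ch (nat_lit 1) (.ev (nat_lit 900) (nat_lit 524288) (.ev
 (nat_lit 1392) (nat_lit 536870912) (.ev (nat_lit 1405) (nat_lit 68719476736) .dd)))) (.br (nat_lit 6) (.ch
 (nat_lit 3) (.ev (nat_lit 900) (nat_lit 524288) (.ev (nat_lit 1108) (nat_lit 536870912) (.ev (nat_lit 1117)
 (nat_lit 68719476736) .dd)))) (.ch (nat_lit 6) (.ev (nat_lit 848) (nat_lit 536870912) (.ev (nat_lit 1408)
 (nat_lit 524288) (.ev (nat_lit 1421) (nat_lit 68719476736) .dd)))))) (.br (nat_lit 10) (.ch (nat_lit 7) (.ev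
 (nat_lit 848) (nat_lit 69256347648) (.ev (nat_lit 861) (nat_lit 524288) .dd))) (.br (nat_lit 11) (.ch (nat_lit
 10) (.ev (nat_lit 848) (nat_lit 69256347648) (.ev (nat_lit 861) (nat_lit 524288) .dd))) (.ch (nat_lit 11) (.ev
 (nat_lit 848) (nat_lit 68719476736) (.ev (nat_lit 1712) (nat_lit 537395200) .dd)))))))))) (.br (nat_lit 12)
 (.ch (nat_lit 10) (.ev (nat_lit 336) (nat_lit 6144) (.ev (nat_lit 420) (nat_lit 262144) (.nd (nat_lit 832)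
 (.br (nat_lit 6) (.br (nat_lit 3) (.br (nat_lit 2) (.ch (nat_lit 0) (.ev (nat_lit 848) (nat_lit 539492384)
 (.ev (nat_lit 1108) (nat_lit 134217728) (.ev (nat_lit 1380) (nat_lit 68719476736) (.ev (nat_lit 1389) (nat_lit
 33554432) .dd))))) (.ch (nat_lit 2) (.ev (nat_lit 848) (nat_lit 69393186848) (.ev (nat_lit 861) (nat_lit
 33554432) .dd)))) (.br (nat_lit 5) (.ch (nat_lit 3) (.ev (nat_lit 848) (nat_lit 69292523520) (.ev (nat_lit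
 900) (nat_lit 32) (.ev (nat_lit 909) (nat_lit 134217728) .dd)))) (.ch (nat_lit 5) (.ev (nat_lit 848) (nat_lit
 68887773216) (.ev (nat_lit 900) (nat_lit 2097152) (.ev (nat_lit 909) (nat_lit 536870912) .dd)))))) (.br
 (nat_lit 9) (.br (nat_lit 7) (.ch (nat_lit 6) (.ev (nat_lit 848) (nat_lit 69424644096) (.fin (nat_lit
 576465700154458678)))) (.ch (nat_lit 7) (.ev (nat_lit 848) (nat_lit 169869344) (.ev (nat_lit 1056) (nat_lit
 68719476736) (.ev (nat_lit 1460) (nat_lit 524288) (.ev (nat_lit 1469) (nat_lit 536870912) .dd)))))) (.br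
 (nat_lit 12) (.ch (nat_lit 9) (.ev (nat_lit 848) (nat_lit 706740256) (.ev (nat_lit 912) (nat_lit 68719476736)
 (.ev (nat_lit 925) (nat_lit 524288) .dd)))) (.ch (nat_lit 12) (.ev (nat_lit 848) (nat_lit 68889870368) (.ev
 (nat_lit 861) (nat_lit 536870912) .dd)))))))))) (.ch (nat_lit 12) (.ev (nat_lit 336) (nat_lit 2887680) (.nd
 (nat_lit 832) (.br (nat_lit 7) (.br (nat_lit 1) (.ch (nat_lit 0) (.ev (nat_lit 848) (nat_lit 671090720) (.ev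
 (nat_lit 1588) (nat_lit 33554432) (.ev (nat_lit 1597) (nat_lit 68719476736) .dd)))) (.br (nat_lit 4) (.ch
 (nat_lit 1) (.ev (nat_lit 848) (nat_lit 536872992) (.ev (nat_lit 912) (nat_lit 33554432) (.ev (nat_lit 1012)
 (nat_lit 68719476736) (.ev (nat_lit 1021) (nat_lit 134217728) .dd))))) (.ch (nat_lit 4) (.ev (nat_lit 848)
 (nat_lit 69424119840) (.ev (nat_lit 861) (nat_lit 2048) .dd))))) (.br (nat_lit 11) (.br (nat_lit 8) (.ch
 (nat_lit 7) (.ev (nat_lit 848) (nat_lit 68719478784) (.ev (nat_lit 900) (nat_lit 134217728) (.ev (nat_lit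
 1088) (nat_lit 33554432) (.ev (nat_lit 1108) (nat_lit 536870912) (.ev (nat_lit 1117) (nat_lit 32) .dd))))))
 (.ch (nat_lit 8) (.ev (nat_lit 848) (nat_lit 134219808) (.ev (nat_lit 900) (nat_lit 536870912) (.ev (nat_lit
 1120) (nat_lit 68753031168) .dd))))) (.br (nat_lit 12) (.ch (nat_lit 11) (.ev (nat_lit 848) (nat_lit
 68719476736) (.ev (nat_lit 1088) (nat_lit 33554432) (.ev (nat_lit 1188) (nat_lit 536870912) (.ev (nat_lit
 1296) (nat_lit 32) (.fin (nat_lit 576544864939229828))))))) (.ch (nat_lit 12) (.ev (nat_lit 848) (nat_lit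
 68753033216) (.ev (nat_lit 900) (nat_lit 536870912) (.ev (nat_lit 1012) (nat_lit 32) (.ev (nat_lit 1021)
 (nat_lit 134217728) .dd))))))))))))))))))))) (.br (nat_lit 25) (.ch (nat_lit 24) (.ev (nat_lit 52) (nat_lit
 17665469190178) (.ev (nat_lit 84) (nat_lit 34080768) (.ev (nat_lit 116) (nat_lit 536870912) (.ev (nat_lit 148)
 (nat_lit 4194304) (.nd (nat_lit 320) (.br (nat_lit 6) (.br (nat_lit 4) (.ch (nat_lit 2) (.ev (nat_lit 336)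
 (nat_lit 4673058701320) (.nd (nat_lit 832) (.br (nat_lit 4) (.br (nat_lit 1) (.ch (nat_lit 0) (.ev (nat_lit
 912) (nat_lit 8589934592) (.ev (nat_lit 925) (nat_lit 2097152) .dd))) (.br (nat_lit 3) (.ch (nat_lit 1) (.ev
 (nat_lit 848) (nat_lit 8592031744) .dd)) (.ch (nat_lit 3) (.ev (nat_lit 848) (nat_lit 2097152) (.ev (nat_lit
 861) (nat_lit 8589934592) .dd))))) (.br (nat_lit 7) (.br (nat_lit 5) (.ch (nat_lit 4) (.ev (nat_lit 848)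
 (nat_lit 8592031744) .dd)) (.ch (nat_lit 5) (.ev (nat_lit 848) (nat_lit 8589934592) (.ev (nat_lit 861)
 (nat_lit 2097152) .dd)))) (.br (nat_lit 10) (.ch (nat_lit 7) (.ev (nat_lit 848) (nat_lit 8592031744) .dd))
 (.ch (nat_lit 10) (.ev (nat_lit 848) (nat_lit 8589934592) (.ev (nat_lit 861) (nat_lit 2097152) .dd)))))))))
 (.br (nat_lit 5) (.ch (nat_lit 4) (.ev (nat_lit 336) (nat_lit 4673058635784) (.ev (nat_lit 384) (nat_lit
 8589934592) (.nd (nat_lit 832) (.br (nat_lit 6) (.ch (nat_lit 5) (.ev (nat_lit 900) (nat_lit 65536) (.ev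
 (nat_lit 909) (nat_lit 2097152) .dd))) (.ch (nat_lit 6) (.ev (nat_lit 1024) (nat_lit 2097152) (.ev (nat_lit
 1037) (nat_lit 65536) .dd)))))))) (.ch (nat_lit 5) (.ev (nat_lit 336) (nat_lit 134283264) (.nd (nat_lit 832)
 (.br (nat_lit 9) (.br (nat_lit 2) (.ch (nat_lit 0) (.ev (nat_lit 848) (nat_lit 4406636445696) (.ev (nat_lit
 900) (nat_lit 8) (.ev (nat_lit 1108) (nat_lit 274877906944) (.ev (nat_lit 1117) (nat_lit 2097152) .dd)))))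
 (.ch (nat_lit 2) (.ev (nat_lit 848) (nat_lit 4672926515208) (.ev (nat_lit 861) (nat_lit 8589934592) .dd))))
 (.br (nat_lit 11) (.ch (nat_lit 9) (.ev (nat_lit 848) (nat_lit 8592031744) (.ev (nat_lit 912) (nat_lit 8) (.ev
 (nat_lit 928) (nat_lit 4398046511104) (.ev (nat_lit 941) (nat_lit 274877906944) .dd))))) (.br (nat_lit 12)
 (.ch (nat_lit 11) (.ev (nat_lit 848) (nat_lit 4672924418056) (.ev (nat_lit 1188) (nat_lit 8589934592) (.ev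
 (nat_lit 1197) (nat_lit 2097152) .dd)))) (.ch (nat_lit 12) (.ev (nat_lit 848) (nat_lit 4406638542856) (.ev
 (nat_lit 861) (nat_lit 274877906944) .dd))))))))))) (.br (nat_lit 9) (.ch (nat_lit 6) (.ev (nat_lit 336)
 (nat_lit 4673060798464) (.nd (nat_lit 832) (.br (nat_lit 7) (.br (nat_lit 4) (.ch (nat_lit 3) (.ev (nat_lit
 848) (nat_lit 8) (.ev (nat_lit 861) (nat_lit 8589934592) .dd))) (.ch (nat_lit 4) (.ev (nat_lit 848) (nat_lit
 8589934592) (.ev (nat_lit 861) (nat_lit 8) .dd)))) (.br (nat_lit 9) (.ch (nat_lit 7) (.ev (nat_lit 848)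
 (nat_lit 8589934600) .dd)) (.br (nat_lit 11) (.ch (nat_lit 9) (.ev (nat_lit 900) (nat_lit 8) (.ev (nat_lit
 909) (nat_lit 8589934592) .dd))) (.ch (nat_lit 11) (.fin (nat_lit 576461302059713087))))))))) (.br (nat_lit
 12) (.ch (nat_lit 9) (.ev (nat_lit 336) (nat_lit 8592031744) (.nd (nat_lit 832) (.br (nat_lit 9) (.br (nat_lit
 3) (.ch (nat_lit 0) (.ev (nat_lit 848) (nat_lit 134283272) (.ev (nat_lit 1012) (nat_lit 274877906944) (.ev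
 (nat_lit 1021) (nat_lit 4398046511104) .dd)))) (.br (nat_lit 8) (.ch (nat_lit 3) (.ev (nat_lit 848) (nat_lit
 4673058635784) (.ev (nat_lit 861) (nat_lit 65536) .dd))) (.ch (nat_lit 8) (.ev (nat_lit 848) (nat_lit
 4398180794368) (.ev (nat_lit 1108) (nat_lit 274877906944) (.ev (nat_lit 1117) (nat_lit 8) .dd)))))) (.br
 (nat_lit 11) (.br (nat_lit 10) (.ch (nat_lit 9) (.ev (nat_lit 848) (nat_lit 274877972480) (.ev (nat_lit 900)
 (nat_lit 8) (.fin (nat_lit 576474496186663492))))) (.ch (nat_lit 10) (.ev (nat_lit 848) (nat_lit 275012124680)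
 (.ev (nat_lit 1136) (nat_lit 4398046511104) (.ev (nat_lit 1149) (nat_lit 65536) .dd))))) (.br (nat_lit 12)
 (.ch (nat_lit 11) (.ev (nat_lit 848) (nat_lit 4398180728840) (.fin (nat_lit 576500884465730150)))) (.ch
 (nat_lit 12) (.ev (nat_lit 848) (nat_lit 275012190216) (.ev (nat_lit 861) (nat_lit 4398046511104) .dd)))))))))
 (.ch (nat_lit 12) (.ev (nat_lit 336) (nat_lit 4681650733056) (.ev (nat_lit 349) (nat_lit 8) .dd))))))))))))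
 (.ch (nat_lit 25) (.ev (nat_lit 52) (nat_lit 17867238021152) (.ev (nat_lit 84) (nat_lit 262144) (.ev (nat_lit
 148) (nat_lit 524288) (.ev (nat_lit 180) (nat_lit 68719476736) (.nd (nat_lit 320) (.br (nat_lit 5) (.br
 (nat_lit 2) (.br (nat_lit 1) (.ch (nat_lit 0) (.ev (nat_lit 336) (nat_lit 9395306506) (.nd (nat_lit 832) (.br
 (nat_lit 8) (.br (nat_lit 5) (.ch (nat_lit 2) (.ev (nat_lit 848) (nat_lit 4398046511104) (.ev (nat_lit 861)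
 (nat_lit 4294967296) .dd))) (.ch (nat_lit 5) (.ev (nat_lit 848) (nat_lit 4294967296) (.ev (nat_lit 861)
 (nat_lit 4398046511104) .dd)))) (.br (nat_lit 10) (.ch (nat_lit 8) (.ev (nat_lit 848) (nat_lit 4398046511104)
 (.ev (nat_lit 861) (nat_lit 4294967296) .dd))) (.br (nat_lit 12) (.ch (nat_lit 10) (.ev (nat_lit 848) (nat_lit
 4294967296) (.ev (nat_lit 861) (nat_lit 4398046511104) .dd))) (.ch (nat_lit 12) (.ev (nat_lit 1012) (nat_lit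
 4398046511104) (.ev (nat_lit 1021) (nat_lit 4294967296) .dd))))))))) (.ch (nat_lit 1) (.ev (nat_lit 336)
 (nat_lit 4411468349442) (.nd (nat_lit 832) (.br (nat_lit 6) (.br (nat_lit 3) (.ch (nat_lit 1) (.ev (nat_lit
 848) (nat_lit 8) (.ev (nat_lit 861) (nat_lit 268435456) .dd))) (.ch (nat_lit 3) (.ev (nat_lit 848) (nat_lit
 268435456) (.ev (nat_lit 861) (nat_lit 8) .dd)))) (.br (nat_lit 9) (.ch (nat_lit 6) (.ev (nat_lit 848)
 (nat_lit 8) (.ev (nat_lit 861) (nat_lit 268435456) .dd))) (.br (nat_lit 12) (.ch (nat_lit 9) (.ev (nat_lit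
 848) (nat_lit 268435456) (.ev (nat_lit 861) (nat_lit 8) .dd))) (.ch (nat_lit 12) (.ev (nat_lit 960) (nat_lit
 8) (.ev (nat_lit 973) (nat_lit 268435456) .dd)))))))))) (.br (nat_lit 4) (.ch (nat_lit 2) (.ev (nat_lit 336)
 (nat_lit 8858435594) (.nd (nat_lit 832) (.br (nat_lit 5) (.br (nat_lit 3) (.ch (nat_lit 1) (.ev (nat_lit 848)
 (nat_lit 4398583382016) (.ev (nat_lit 861) (nat_lit 4294967296) .dd))) (.br (nat_lit 4) (.ch (nat_lit 3) (.ev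
 (nat_lit 848) (nat_lit 536870912) (.ev (nat_lit 1188) (nat_lit 4398046511104) (.ev (nat_lit 1197) (nat_lit
 4294967296) .dd)))) (.ch (nat_lit 4) (.ev (nat_lit 848) (nat_lit 4398583382016) (.ev (nat_lit 861) (nat_lit
 4294967296) .dd))))) (.br (nat_lit 7) (.br (nat_lit 6) (.ch (nat_lit 5) (.ev (nat_lit 848) (nat_lit
 4402878349312) .dd)) (.ch (nat_lit 6) (.ev (nat_lit 848) (nat_lit 536870912) (.ev (nat_lit 900) (nat_lit
 4294967296) (.ev (nat_lit 909) (nat_lit 4398046511104) .dd))))) (.br (nat_lit 11) (.ch (nat_lit 7) (.ev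
 (nat_lit 848) (nat_lit 4398046511104) (.ev (nat_lit 960) (nat_lit 536870912) (.ev (nat_lit 973) (nat_lit
 4294967296) .dd)))) (.ch (nat_lit 11) (.ev (nat_lit 848) (nat_lit 4402341478400) (.ev (nat_lit 861) (nat_lit
 536870912) .dd))))))))) (.ch (nat_lit 4) (.ev (nat_lit 336) (nat_lit 4398046576648) (.nd (nat_lit 832) (.br
 (nat_lit 9) (.br (nat_lit 6) (.ch (nat_lit 5) (.ev (nat_lit 848) (nat_lit 13690208256) (.ev (nat_lit 861)
 (nat_lit 2) .dd))) (.br (nat_lit 8) (.ch (nat_lit 6) (.ev (nat_lit 848) (nat_lit 9126805506) (.ev (nat_lit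
 1012) (nat_lit 268435456) (.ev (nat_lit 1021) (nat_lit 4294967296) .dd)))) (.ch (nat_lit 8) (.ev (nat_lit 848)
 (nat_lit 5100273664) (.ev (nat_lit 912) (nat_lit 8589934592) (.ev (nat_lit 925) (nat_lit 2) .dd)))))) (.br
 (nat_lit 11) (.ch (nat_lit 9) (.ev (nat_lit 848) (nat_lit 805306368) (.ev (nat_lit 900) (nat_lit 4294967296)
 (.ev (nat_lit 1012) (nat_lit 2) (.ev (nat_lit 1021) (nat_lit 8589934592) .dd))))) (.br (nat_lit 12) (.ch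
 (nat_lit 11) (.ev (nat_lit 848) (nat_lit 4563402754) (.ev (nat_lit 900) (nat_lit 536870912) (.ev (nat_lit 909)
 (nat_lit 8589934592) .dd)))) (.ch (nat_lit 12) (.ev (nat_lit 848) (nat_lit 4563402752) (.ev (nat_lit 900)
 (nat_lit 536870912) (.ev (nat_lit 1012) (nat_lit 2) (.ev (nat_lit 1021) (nat_lit 8589934592) .dd)))))))))))))
 (.br (nat_lit 10) (.br (nat_lit 9) (.ch (nat_lit 5) (.ev (nat_lit 336) (nat_lit 536936458) (.nd (nat_lit 832)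
 (.br (nat_lit 9) (.br (nat_lit 3) (.br (nat_lit 2) (.ch (nat_lit 0) (.ev (nat_lit 848) (nat_lit 4411199848448)
 .dd)) (.ch (nat_lit 2) (.ev (nat_lit 848) (nat_lit 4398314946560) (.ev (nat_lit 900) (nat_lit 4294967296) (.ev
 (nat_lit 909) (nat_lit 8589934592) .dd))))) (.br (nat_lit 8) (.ch (nat_lit 3) (.ev (nat_lit 848) (nat_lit
 4563402752) (.ev (nat_lit 1200) (nat_lit 4398046511104) (.ev (nat_lit 1213) (nat_lit 8589934592) .dd)))) (.ch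
 (nat_lit 8) (.ev (nat_lit 848) (nat_lit 4410931412992) (.ev (nat_lit 861) (nat_lit 268435456) .dd))))) (.br
 (nat_lit 11) (.br (nat_lit 10) (.ch (nat_lit 9) (.ev (nat_lit 848) (nat_lit 12884901888) (.ev (nat_lit 912)
 (nat_lit 268435456) (.ev (nat_lit 925) (nat_lit 4398046511104) .dd)))) (.ch (nat_lit 10) (.ev (nat_lit 848)
 (nat_lit 4411199848448) .dd))) (.br (nat_lit 12) (.ch (nat_lit 11) (.ev (nat_lit 848) (nat_lit 4294967296)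
 (.ev (nat_lit 976) (nat_lit 8589934592) (.ev (nat_lit 1188) (nat_lit 4398046511104) (.ev (nat_lit 1197)
 (nat_lit 268435456) .dd))))) (.ch (nat_lit 12) (.ev (nat_lit 848) (nat_lit 13153337344) (.ev (nat_lit 861)
 (nat_lit 4398046511104) .dd))))))))) (.ch (nat_lit 9) (.ev (nat_lit 336) (nat_lit 13421772802) (.nd (nat_lit
 832) (.br (nat_lit 9) (.br (nat_lit 6) (.br (nat_lit 5) (.ch (nat_lit 0) (.ev (nat_lit 848) (nat_lit
 268501000) (.ev (nat_lit 861) (nat_lit 4398046511104) .dd))) (.ch (nat_lit 5) (.ev (nat_lit 848) (nat_lit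
 4398046511112) (.ev (nat_lit 1200) (nat_lit 268435456) (.ev (nat_lit 1213) (nat_lit 65536) .dd))))) (.br
 (nat_lit 8) (.ch (nat_lit 6) (.ev (nat_lit 848) (nat_lit 4398314946560) (.ev (nat_lit 1188) (nat_lit 65536)
 (.ev (nat_lit 1197) (nat_lit 8) .dd)))) (.ch (nat_lit 8) (.ev (nat_lit 848) (nat_lit 4398315012104) .dd))))
 (.br (nat_lit 11) (.br (nat_lit 10) (.ch (nat_lit 9) (.ev (nat_lit 848) (nat_lit 4398046576648) (.ev (nat_lit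
 861) (nat_lit 268435456) .dd))) (.ch (nat_lit 10) (.ev (nat_lit 848) (nat_lit 8) (.ev (nat_lit 1108) (nat_lit
 65536) (.ev (nat_lit 1188) (nat_lit 268435456) (.ev (nat_lit 1197) (nat_lit 4398046511104) .dd)))))) (.br
 (nat_lit 12) (.ch (nat_lit 11) (.ev (nat_lit 848) (nat_lit 4398315012096) (.ev (nat_lit 861) (nat_lit 8)
 .dd))) (.ch (nat_lit 12) (.ev (nat_lit 848) (nat_lit 4398046576648) (.ev (nat_lit 861) (nat_lit 268435456)
 .dd)))))))))) (.br (nat_lit 12) (.ch (nat_lit 10) (.ev (nat_lit 336) (nat_lit 13153337344) (.nd (nat_lit 832)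
 (.br (nat_lit 6) (.br (nat_lit 3) (.ch (nat_lit 2) (.ev (nat_lit 848) (nat_lit 4398046511112) (.ev (nat_lit
 900) (nat_lit 2) (.ev (nat_lit 1012) (nat_lit 536870912) (.ev (nat_lit 1021) (nat_lit 65536) .dd))))) (.br
 (nat_lit 5) (.ch (nat_lit 3) (.ev (nat_lit 848) (nat_lit 4398583382024) (.ev (nat_lit 900) (nat_lit 2) (.ev
 (nat_lit 909) (nat_lit 65536) .dd)))) (.ch (nat_lit 5) (.ev (nat_lit 848) (nat_lit 4398046511106) (.ev
 (nat_lit 900) (nat_lit 8) (.ev (nat_lit 1012) (nat_lit 536870912) (.ev (nat_lit 1021) (nat_lit 65536)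
 .dd))))))) (.br (nat_lit 8) (.ch (nat_lit 6) (.ev (nat_lit 848) (nat_lit 4398046511106) (.ev (nat_lit 912)
 (nat_lit 65536) (.ev (nat_lit 1012) (nat_lit 8) (.ev (nat_lit 1021) (nat_lit 536870912) .dd))))) (.br (nat_lit
 9) (.ch (nat_lit 8) (.ev (nat_lit 848) (nat_lit 536936450) (.ev (nat_lit 1012) (nat_lit 4398046511104) (.ev
 (nat_lit 1021) (nat_lit 8) .dd)))) (.ch (nat_lit 9) (.ev (nat_lit 848) (nat_lit 4398046576650) (.ev (nat_lit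
 861) (nat_lit 536870912) .dd))))))))) (.ch (nat_lit 12) (.ev (nat_lit 336) (nat_lit 4411468349440) (.nd
 (nat_lit 832) (.br (nat_lit 9) (.br (nat_lit 4) (.ch (nat_lit 1) (.ev (nat_lit 848) (nat_lit 268435458) (.ev
 (nat_lit 861) (nat_lit 8) .dd))) (.br (nat_lit 8) (.ch (nat_lit 4) (.ev (nat_lit 848) (nat_lit 268435464) (.ev
 (nat_lit 861) (nat_lit 2) .dd))) (.ch (nat_lit 8) (.ev (nat_lit 848) (nat_lit 268435456) (.ev (nat_lit 1088)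
 (nat_lit 10) .dd))))) (.br (nat_lit 11) (.br (nat_lit 10) (.ch (nat_lit 9) (.ev (nat_lit 848) (nat_lit 2) (.ev
 (nat_lit 900) (nat_lit 8) (.ev (nat_lit 909) (nat_lit 268435456) .dd)))) (.ch (nat_lit 10) (.ev (nat_lit 848)
 (nat_lit 268435466) .dd))) (.br (nat_lit 12) (.ch (nat_lit 11) (.ev (nat_lit 848) (nat_lit 268435458) (.ev
 (nat_lit 861) (nat_lit 8) .dd))) (.ch (nat_lit 12) (.ev (nat_lit 848) (nat_lit 2) (.ev (nat_lit 1188) (nat_lit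
 268435456) (.ev (nat_lit 1197) (nat_lit 8) .dd)))))))))))))))))))))) (.br (nat_lit 30) (.br (nat_lit 27) (.ch
 (nat_lit 26) (.ev (nat_lit 52) (nat_lit 274880272392) (.ev (nat_lit 84) (nat_lit 8594128928) (.ev (nat_lit
 116) (nat_lit 17592320262144) (.ev (nat_lit 148) (nat_lit 68719476736) (.nd (nat_lit 320) (.br (nat_lit 5)
 (.br (nat_lit 2) (.br (nat_lit 1) (.ch (nat_lit 0) (.ev (nat_lit 336) (nat_lit 4398885896194) (.nd (nat_lit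
 832) (.br (nat_lit 7) (.br (nat_lit 5) (.ch (nat_lit 2) (.ev (nat_lit 900) (nat_lit 4294967296) (.ev (nat_lit
 909) (nat_lit 65536) .dd))) (.br (nat_lit 6) (.ch (nat_lit 5) (.ev (nat_lit 848) (nat_lit 4295032832) .dd))
 (.ch (nat_lit 6) (.ev (nat_lit 848) (nat_lit 4294967296) (.ev (nat_lit 861) (nat_lit 65536) .dd))))) (.br
 (nat_lit 10) (.br (nat_lit 8) (.ch (nat_lit 7) (.ev (nat_lit 848) (nat_lit 4295032832) .dd)) (.ch (nat_lit 8)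
 (.ev (nat_lit 944) (nat_lit 4294967296) (.ev (nat_lit 957) (nat_lit 65536) .dd)))) (.br (nat_lit 12) (.ch
 (nat_lit 10) (.ev (nat_lit 848) (nat_lit 4295032832) .dd)) (.ch (nat_lit 12) (.ev (nat_lit 848) (nat_lit
 4295032832) .dd)))))))) (.ch (nat_lit 1) (.ev (nat_lit 336) (nat_lit 4402375557122) (.nd (nat_lit 832) (.br
 (nat_lit 6) (.br (nat_lit 2) (.br (nat_lit 1) (.ch (nat_lit 0) (.ev (nat_lit 848) (nat_lit 536936448) (.ev
 (nat_lit 861) (nat_lit 268435456) .dd))) (.ch (nat_lit 1) (.ev (nat_lit 848) (nat_lit 805371904) .dd))) (.br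
 (nat_lit 3) (.ch (nat_lit 2) (.ev (nat_lit 848) (nat_lit 805306368) (.ev (nat_lit 861) (nat_lit 65536) .dd)))
 (.ch (nat_lit 3) (.ev (nat_lit 848) (nat_lit 268435456) (.ev (nat_lit 1040) (nat_lit 536870912) (.ev (nat_lit
 1053) (nat_lit 65536) .dd)))))) (.br (nat_lit 10) (.br (nat_lit 8) (.ch (nat_lit 6) (.ev (nat_lit 848)
 (nat_lit 536870912) (.fin (nat_lit 576487690345071142)))) (.ch (nat_lit 8) (.ev (nat_lit 848) (nat_lit
 805306368) (.ev (nat_lit 861) (nat_lit 65536) .dd)))) (.br (nat_lit 12) (.ch (nat_lit 10) (.ev (nat_lit 848)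
 (nat_lit 268500992) (.ev (nat_lit 861) (nat_lit 536870912) .dd))) (.ch (nat_lit 12) (.ev (nat_lit 848)
 (nat_lit 805371904) .dd))))))))) (.br (nat_lit 4) (.ch (nat_lit 2) (.ev (nat_lit 336) (nat_lit 4402610503682)
 (.ev (nat_lit 352) (nat_lit 33554432) (.ev (nat_lit 365) (nat_lit 536870912) .dd)))) (.ch (nat_lit 4) (.ev
 (nat_lit 336) (nat_lit 4398046576640) (.nd (nat_lit 832) (.br (nat_lit 6) (.br (nat_lit 4) (.br (nat_lit 3)
 (.ch (nat_lit 0) (.ev (nat_lit 848) (nat_lit 4329046018) (.ev (nat_lit 1188) (nat_lit 268435456) (.ev (nat_lit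
 1197) (nat_lit 536870912) .dd)))) (.ch (nat_lit 3) (.ev (nat_lit 848) (nat_lit 4328521728) (.ev (nat_lit 900)
 (nat_lit 524288) (.ev (nat_lit 928) (nat_lit 2) (.ev (nat_lit 976) (nat_lit 268435456) (.ev (nat_lit 989)
 (nat_lit 536870912) .dd))))))) (.br (nat_lit 5) (.ch (nat_lit 4) (.ev (nat_lit 848) (nat_lit 4329046018) (.ev
 (nat_lit 1200) (nat_lit 536870912) (.ev (nat_lit 1213) (nat_lit 268435456) .dd)))) (.ch (nat_lit 5) (.ev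
 (nat_lit 848) (nat_lit 839385088) (.ev (nat_lit 1024) (nat_lit 2) (.ev (nat_lit 1037) (nat_lit 4294967296)
 .dd)))))) (.br (nat_lit 9) (.br (nat_lit 8) (.ch (nat_lit 6) (.ev (nat_lit 848) (nat_lit 839385090) (.ev
 (nat_lit 861) (nat_lit 4294967296) .dd))) (.ch (nat_lit 8) (.ev (nat_lit 848) (nat_lit 4865916930) (.ev
 (nat_lit 861) (nat_lit 268435456) .dd)))) (.br (nat_lit 11) (.ch (nat_lit 9) (.ev (nat_lit 848) (nat_lit
 805306368) (.ev (nat_lit 900) (nat_lit 524288) (.ev (nat_lit 1380) (nat_lit 4294967296) (.fin (nat_lit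
 576468998666273313)))))) (.ch (nat_lit 11) (.ev (nat_lit 848) (nat_lit 34078722) (.ev (nat_lit 1012) (nat_lit
 4294967296) (.ev (nat_lit 1188) (nat_lit 536870912) (.ev (nat_lit 1197) (nat_lit 268435456) .dd)))))))))))))
 (.br (nat_lit 9) (.br (nat_lit 6) (.ch (nat_lit 5) (.ev (nat_lit 336) (nat_lit 5100339200) (.ev (nat_lit 630)
 (nat_lit 33554432) (.nd (nat_lit 832) (.br (nat_lit 8) (.br (nat_lit 2) (.ch (nat_lit 0) (.ev (nat_lit 848)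
 (nat_lit 4398047035394) .dd)) (.br (nat_lit 4) (.ch (nat_lit 2) (.ev (nat_lit 848) (nat_lit 4398047035394)
 .dd)) (.ch (nat_lit 4) (.ev (nat_lit 848) (nat_lit 2) (.ev (nat_lit 900) (nat_lit 4398046511104) (.ev (nat_lit
 909) (nat_lit 524288) .dd)))))) (.br (nat_lit 10) (.ch (nat_lit 8) (.ev (nat_lit 848) (nat_lit 4398047035394)
 .dd)) (.br (nat_lit 12) (.ch (nat_lit 10) (.ev (nat_lit 848) (nat_lit 4398047035394) .dd)) (.ch (nat_lit 12)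
 (.ev (nat_lit 928) (nat_lit 2) (.ev (nat_lit 1188) (nat_lit 4398046511104) (.ev (nat_lit 1197) (nat_lit
 524288) .dd))))))))))) (.ch (nat_lit 6) (.ev (nat_lit 336) (nat_lit 4329111554) (.nd (nat_lit 832) (.br
 (nat_lit 9) (.br (nat_lit 4) (.ch (nat_lit 3) (.ev (nat_lit 848) (nat_lit 4398046511104) (.ev (nat_lit 1380)
 (nat_lit 536870912) (.ev (nat_lit 1389) (nat_lit 268435456) .dd)))) (.br (nat_lit 6) (.ch (nat_lit 4) (.ev
 (nat_lit 848) (nat_lit 536870912) (.ev (nat_lit 900) (nat_lit 4398046511104) (.ev (nat_lit 909) (nat_lit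
 268435456) .dd)))) (.ch (nat_lit 6) (.ev (nat_lit 848) (nat_lit 536870912) (.ev (nat_lit 900) (nat_lit
 4398046511104) (.ev (nat_lit 909) (nat_lit 268435456) .dd)))))) (.br (nat_lit 11) (.ch (nat_lit 9) (.ev
 (nat_lit 848) (nat_lit 536870912) (.ev (nat_lit 1284) (nat_lit 4398046511104) (.ev (nat_lit 1293) (nat_lit
 268435456) .dd)))) (.br (nat_lit 12) (.ch (nat_lit 11) (.ev (nat_lit 848) (nat_lit 536870912) (.fin (nat_lit
 576430515782369792)))) (.ch (nat_lit 12) (.ev (nat_lit 848) (nat_lit 4398583382016) (.ev (nat_lit 861)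
 (nat_lit 268435456) .dd)))))))))) (.br (nat_lit 12) (.ch (nat_lit 9) (.ev (nat_lit 336) (nat_lit
 4403180929024) (.ev (nat_lit 349) (nat_lit 2) .dd))) (.ch (nat_lit 12) (.ev (nat_lit 336) (nat_lit
 4402341543936) (.ev (nat_lit 420) (nat_lit 524288) (.nd (nat_lit 832) (.br (nat_lit 10) (.br (nat_lit 8) (.ch
 (nat_lit 1) (.ev (nat_lit 848) (nat_lit 805306370) (.ev (nat_lit 861) (nat_lit 33554432) .dd))) (.ch (nat_lit
 8) (.ev (nat_lit 848) (nat_lit 268435458) (.ev (nat_lit 1024) (nat_lit 33554432) (.ev (nat_lit 1037) (nat_lit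
 536870912) .dd))))) (.br (nat_lit 11) (.ch (nat_lit 10) (.ev (nat_lit 848) (nat_lit 536870914) (.ev (nat_lit
 900) (nat_lit 268435456) (.ev (nat_lit 909) (nat_lit 33554432) .dd)))) (.br (nat_lit 12) (.ch (nat_lit 11)
 (.ev (nat_lit 848) (nat_lit 301989890) (.ev (nat_lit 861) (nat_lit 536870912) .dd))) (.ch (nat_lit 12) (.ev
 (nat_lit 848) (nat_lit 33554432) (.ev (nat_lit 1012) (nat_lit 536870912) (.ev (nat_lit 1572) (nat_lit 2) (.ev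
 (nat_lit 1581) (nat_lit 268435456) .dd))))))))))))))))))))) (.br (nat_lit 29) (.ch (nat_lit 27) (.ev (nat_lit
 52) (nat_lit 343731865640) (.ev (nat_lit 64) (nat_lit 22003963203586) .dd))) (.ch (nat_lit 29) (.ev (nat_lit
 52) (nat_lit 17592354408448) (.ev (nat_lit 64) (nat_lit 4755340660778) .dd))))) (.br (nat_lit 35) (.br
 (nat_lit 33) (.ch (nat_lit 30) (.ev (nat_lit 52) (nat_lit 17872167108608) (.ev (nat_lit 84) (nat_lit
 4398046513154) (.ev (nat_lit 148) (nat_lit 65536) (.ev (nat_lit 272) (nat_lit 4198400) (.nd (nat_lit 320) (.br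
 (nat_lit 9) (.br (nat_lit 4) (.ch (nat_lit 1) (.ev (nat_lit 336) (nat_lit 8623489056) (.nd (nat_lit 832) (.br
 (nat_lit 3) (.br (nat_lit 2) (.ch (nat_lit 0) (.ev (nat_lit 848) (nat_lit 68719476736) (.ev (nat_lit 1108)
 (nat_lit 134217728) (.ev (nat_lit 1117) (nat_lit 8) .dd)))) (.ch (nat_lit 2) (.ev (nat_lit 848) (nat_lit
 68853694464) (.ev (nat_lit 861) (nat_lit 8) .dd)))) (.br (nat_lit 12) (.ch (nat_lit 3) (.ev (nat_lit 848)
 (nat_lit 8) (.ev (nat_lit 900) (nat_lit 134217728) (.ev (nat_lit 909) (nat_lit 68719476736) .dd)))) (.ch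
 (nat_lit 12) (.ev (nat_lit 848) (nat_lit 68853694464) (.ev (nat_lit 861) (nat_lit 8) .dd)))))))) (.ch (nat_lit
 4) (.ev (nat_lit 336) (nat_lit 77477183496) (.ev (nat_lit 349) (nat_lit 32) .dd)))) (.br (nat_lit 12) (.ch
 (nat_lit 9) (.ev (nat_lit 336) (nat_lit 68887248936) (.ev (nat_lit 349) (nat_lit 8589934592) .dd))) (.ch
 (nat_lit 12) (.ev (nat_lit 336) (nat_lit 77309411360) (.nd (nat_lit 832) (.br (nat_lit 11) (.br (nat_lit 9)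
 (.ch (nat_lit 8) (.ev (nat_lit 848) (nat_lit 134217728) (.ev (nat_lit 900) (nat_lit 8) (.ev (nat_lit 909)
 (nat_lit 33554432) .dd)))) (.ch (nat_lit 9) (.ev (nat_lit 848) (nat_lit 33554440) (.ev (nat_lit 861) (nat_lit
 134217728) .dd)))) (.br (nat_lit 12) (.ch (nat_lit 11) (.ev (nat_lit 848) (nat_lit 33554432) (.ev (nat_lit
 1108) (nat_lit 8) (.ev (nat_lit 1117) (nat_lit 134217728) .dd)))) (.ch (nat_lit 12) (.ev (nat_lit 848)
 (nat_lit 33554440) (.ev (nat_lit 861) (nat_lit 134217728) .dd)))))))))))))))) (.ch (nat_lit 33) (.ev (nat_lit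
 52) (nat_lit 4398718126090) (.ev (nat_lit 84) (nat_lit 4096) (.ev (nat_lit 96) (nat_lit 17948976939040)
 .dd))))) (.br (nat_lit 36) (.ch (nat_lit 35) (.ev (nat_lit 52) (nat_lit 284007075880) (.ev (nat_lit 116)
 (nat_lit 4299161600) (.ev (nat_lit 148) (nat_lit 65536) (.ev (nat_lit 180) (nat_lit 17592186044416) (.nd
 (nat_lit 320) (.br (nat_lit 6) (.br (nat_lit 5) (.ch (nat_lit 1) (.ev (nat_lit 336) (nat_lit 4466800066562)
 (.nd (nat_lit 832) (.br (nat_lit 3) (.br (nat_lit 1) (.ch (nat_lit 0) (.ev (nat_lit 848) (nat_lit 268435456)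
 (.ev (nat_lit 1012) (nat_lit 2048) (.ev (nat_lit 1021) (nat_lit 134217728) .dd)))) (.ch (nat_lit 1) (.ev
 (nat_lit 848) (nat_lit 402655232) .dd))) (.br (nat_lit 10) (.ch (nat_lit 3) (.ev (nat_lit 848) (nat_lit
 268437504) (.ev (nat_lit 861) (nat_lit 134217728) .dd))) (.br (nat_lit 12) (.ch (nat_lit 10) (.ev (nat_lit
 848) (nat_lit 402653184) (.ev (nat_lit 861) (nat_lit 2048) .dd))) (.ch (nat_lit 12) (.ev (nat_lit 848)
 (nat_lit 134217728) (.ev (nat_lit 1654) (nat_lit 268437504) .dd))))))))) (.ch (nat_lit 5) (.ev (nat_lit 336)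
 (nat_lit 68854220800) (.nd (nat_lit 832) (.br (nat_lit 9) (.br (nat_lit 4) (.ch (nat_lit 3) (.ev (nat_lit 848)
 (nat_lit 301989888) (.ev (nat_lit 1012) (nat_lit 2) (.ev (nat_lit 1021) (nat_lit 4398046511104) .dd)))) (.br
 (nat_lit 8) (.ch (nat_lit 4) (.ev (nat_lit 848) (nat_lit 33554434) (.ev (nat_lit 1120) (nat_lit 268435456)
 (.ev (nat_lit 1133) (nat_lit 4398046511104) .dd)))) (.ch (nat_lit 8) (.ev (nat_lit 848) (nat_lit
 4398046511106) (.ev (nat_lit 1108) (nat_lit 268435456) (.ev (nat_lit 1117) (nat_lit 33554432) .dd)))))) (.br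
 (nat_lit 11) (.ch (nat_lit 9) (.ev (nat_lit 848) (nat_lit 268435456) (.ev (nat_lit 900) (nat_lit 33554432)
 (.ev (nat_lit 1012) (nat_lit 4398046511104) (.ev (nat_lit 1021) (nat_lit 2) .dd))))) (.br (nat_lit 12) (.ch
 (nat_lit 11) (.ev (nat_lit 848) (nat_lit 4398046511106) (.ev (nat_lit 1188) (nat_lit 33554432) (.ev (nat_lit
 1197) (nat_lit 268435456) .dd)))) (.ch (nat_lit 12) (.ev (nat_lit 848) (nat_lit 4398314946560) (.ev (nat_lit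
 900) (nat_lit 33554432) (.ev (nat_lit 909) (nat_lit 2) .dd))))))))))) (.br (nat_lit 10) (.ch (nat_lit 6) (.ev
 (nat_lit 336) (nat_lit 68887250946) (.nd (nat_lit 832) (.br (nat_lit 7) (.br (nat_lit 4) (.ch (nat_lit 3) (.ev
 (nat_lit 848) (nat_lit 4398046511104) (.fin (nat_lit 576452505970885180)))) (.ch (nat_lit 4) (.ev (nat_lit
 848) (nat_lit 524288) (.ev (nat_lit 900) (nat_lit 268435456) (.ev (nat_lit 909) (nat_lit 4398046511104)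
 .dd))))) (.br (nat_lit 10) (.ch (nat_lit 7) (.ev (nat_lit 848) (nat_lit 268435456) (.ev (nat_lit 1012)
 (nat_lit 524288) (.ev (nat_lit 1021) (nat_lit 4398046511104) .dd)))) (.br (nat_lit 11) (.ch (nat_lit 10) (.ev
 (nat_lit 848) (nat_lit 4398314946560) (.ev (nat_lit 861) (nat_lit 524288) .dd))) (.ch (nat_lit 11) (.ev
 (nat_lit 848) (nat_lit 524288) (.ev (nat_lit 912) (nat_lit 268435456) (.ev (nat_lit 925) (nat_lit
 4398046511104) .dd)))))))))) (.br (nat_lit 12) (.ch (nat_lit 10) (.ev (nat_lit 336) (nat_lit 402655232) (.nd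
 (nat_lit 832) (.br (nat_lit 7) (.br (nat_lit 5) (.ch (nat_lit 2) (.ev (nat_lit 848) (nat_lit 4398047035394)
 (.ev (nat_lit 900) (nat_lit 68719476736) (.ev (nat_lit 909) (nat_lit 33554432) .dd)))) (.ch (nat_lit 5) (.ev
 (nat_lit 848) (nat_lit 68753555458) (.ev (nat_lit 861) (nat_lit 4398046511104) .dd)))) (.br (nat_lit 9) (.ch
 (nat_lit 7) (.ev (nat_lit 848) (nat_lit 4398080589824) (.ev (nat_lit 960) (nat_lit 68719476736) (.ev (nat_lit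
 973) (nat_lit 2) .dd)))) (.br (nat_lit 12) (.ch (nat_lit 9) (.ev (nat_lit 848) (nat_lit 524290) (.ev (nat_lit
 1012) (nat_lit 4398080065536) (.ev (nat_lit 1021) (nat_lit 68719476736) .dd)))) (.ch (nat_lit 12) (.ev
 (nat_lit 848) (nat_lit 68753031168) (.ev (nat_lit 1024) (nat_lit 2) (.ev (nat_lit 1664) (nat_lit
 4398047035392) .dd)))))))))) (.ch (nat_lit 12) (.ev (nat_lit 336) (nat_lit 4398314948610) (.nd (nat_lit 832)
 (.br (nat_lit 10) (.br (nat_lit 7) (.ch (nat_lit 1) (.ev (nat_lit 848) (nat_lit 134217728) (.ev (nat_lit 944)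
 (nat_lit 33554432) (.ev (nat_lit 1072) (nat_lit 524288) (.ev (nat_lit 1085) (nat_lit 68719476736) .dd)))))
 (.br (nat_lit 9) (.ch (nat_lit 7) (.ev (nat_lit 848) (nat_lit 68720001024) (.ev (nat_lit 900) (nat_lit
 134217728) (.ev (nat_lit 909) (nat_lit 33554432) .dd)))) (.ch (nat_lit 9) (.ev (nat_lit 848) (nat_lit
 33554432) (.ev (nat_lit 1284) (nat_lit 524288) (.nd (nat_lit 1761) (.ch (nat_lit 1) (.nd (nat_lit 1792) (.ch
 (nat_lit 0) (.fin (nat_lit 576426117691818574))))))))))) (.br (nat_lit 11) (.ch (nat_lit 10) (.ev (nat_lit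
 848) (nat_lit 134742016) (.ev (nat_lit 900) (nat_lit 33554432) (.ev (nat_lit 909) (nat_lit 68719476736)
 .dd)))) (.br (nat_lit 12) (.ch (nat_lit 11) (.ev (nat_lit 848) (nat_lit 68854218752) (.ev (nat_lit 861)
 (nat_lit 33554432) .dd))) (.ch (nat_lit 12) (.ev (nat_lit 848) (nat_lit 68753031168) (.ev (nat_lit 1120)
 (nat_lit 524288) (.ev (nat_lit 1133) (nat_lit 134217728) .dd))))))))))))))))))) (.ch (nat_lit 36) (.ev
 (nat_lit 52) (nat_lit 283871025152) (.ev (nat_lit 84) (nat_lit 4294967296) (.ev (nat_lit 96) (nat_lit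
 22059529076778) .dd)))))))))))

/-- Subtrie. -/
noncomputable def T4 : Tr := (.ev (nat_lit 20) (nat_lit 17627318340134) (.nd (nat_lit 33) (.br (nat_lit 19)
 (.br (nat_lit 11) (.br (nat_lit 7) (.br (nat_lit 4) (.ch (nat_lit 1) (.ev (nat_lit 52) (nat_lit 356482285568)
 (.ev (nat_lit 116) (nat_lit 35184372088832) (.nd (nat_lit 320) (.br (nat_lit 6) (.br (nat_lit 1) (.ch (nat_lit
 0) (.ev (nat_lit 336) (nat_lit 2148630536) (.nd (nat_lit 832) (.br (nat_lit 5) (.br (nat_lit 3) (.br (nat_lit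
 2) (.ch (nat_lit 1) (.ev (nat_lit 848) (nat_lit 4398046515200) (.ev (nat_lit 1012) (nat_lit 268435456) (.ev
 (nat_lit 1108) (nat_lit 2097152) (.fin (nat_lit 576453605455249946)))))) (.ch (nat_lit 2) (.ev (nat_lit 848)
 (nat_lit 74766794883072) (.ev (nat_lit 1012) (nat_lit 2097152) (.ev (nat_lit 1024) (nat_lit 4096) (.ev
 (nat_lit 1037) (nat_lit 268435456) .dd)))))) (.br (nat_lit 4) (.ch (nat_lit 3) (.ev (nat_lit 848) (nat_lit
 74767065415680) (.ev (nat_lit 861) (nat_lit 4096) .dd))) (.ch (nat_lit 4) (.ev (nat_lit 848) (nat_lit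
 4398052806656) (.ev (nat_lit 912) (nat_lit 70368744177664) (.ev (nat_lit 925) (nat_lit 268435456) .dd))))))
 (.br (nat_lit 7) (.br (nat_lit 6) (.ch (nat_lit 5) (.ev (nat_lit 848) (nat_lit 70369018908672) (.ev (nat_lit
 861) (nat_lit 4398046511104) .dd))) (.ch (nat_lit 6) (.ev (nat_lit 848) (nat_lit 74767061225472) (.ev (nat_lit
 861) (nat_lit 4194304) .dd)))) (.br (nat_lit 12) (.ch (nat_lit 7) (.ev (nat_lit 848) (nat_lit 70369018908672)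
 (.ev (nat_lit 861) (nat_lit 4398046511104) .dd))) (.ch (nat_lit 12) (.ev (nat_lit 848) (nat_lit 274731008)
 (.ev (nat_lit 1056) (nat_lit 70368744177664) (.ev (nat_lit 1069) (nat_lit 4398046511104) .dd)))))))))) (.br
 (nat_lit 3) (.ch (nat_lit 1) (.ev (nat_lit 336) (nat_lit 2422280200) (.ev (nat_lit 420) (nat_lit 1048576) (.nd
 (nat_lit 832) (.br (nat_lit 5) (.br (nat_lit 1) (.ch (nat_lit 0) (.ev (nat_lit 848) (nat_lit 4398046543872)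
 (.ev (nat_lit 861) (nat_lit 70368744177664) .dd))) (.br (nat_lit 4) (.ch (nat_lit 1) (.ev (nat_lit 848)
 (nat_lit 74766790721536) .dd)) (.ch (nat_lit 4) (.ev (nat_lit 848) (nat_lit 74766790721536) .dd)))) (.br
 (nat_lit 8) (.ch (nat_lit 5) (.ev (nat_lit 848) (nat_lit 70368744210432) (.ev (nat_lit 861) (nat_lit
 4398046511104) .dd))) (.br (nat_lit 10) (.ch (nat_lit 8) (.ev (nat_lit 1012) (nat_lit 32768) (.ev (nat_lit
 1392) (nat_lit 4398046511104) (.ev (nat_lit 1405) (nat_lit 70368744177664) .dd)))) (.ch (nat_lit 10) (.ev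
 (nat_lit 1152) (nat_lit 32768) (.ev (nat_lit 1188) (nat_lit 4398046511104) (.ev (nat_lit 1197) (nat_lit
 70368744177664) .dd))))))))))) (.ch (nat_lit 3) (.ev (nat_lit 336) (nat_lit 273682432) (.ev (nat_lit 432)
 (nat_lit 2097152) (.nd (nat_lit 832) (.br (nat_lit 8) (.br (nat_lit 1) (.ch (nat_lit 0) (.ev (nat_lit 848)
 (nat_lit 4400194093056) (.ev (nat_lit 900) (nat_lit 8) (.ev (nat_lit 909) (nat_lit 70368744177664) .dd))))
 (.br (nat_lit 5) (.ch (nat_lit 1) (.ev (nat_lit 848) (nat_lit 4398046609408) (.ev (nat_lit 900) (nat_lit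
 2147483648) (.ev (nat_lit 1188) (nat_lit 70368744177664) (.ev (nat_lit 1197) (nat_lit 8) .dd))))) (.ch
 (nat_lit 5) (.ev (nat_lit 848) (nat_lit 70370891759616) (.ev (nat_lit 900) (nat_lit 4398046511104) (.ev
 (nat_lit 909) (nat_lit 8) .dd)))))) (.br (nat_lit 10) (.br (nat_lit 9) (.ch (nat_lit 8) (.ev (nat_lit 848)
 (nat_lit 70370891661320) (.ev (nat_lit 900) (nat_lit 65536) (.ev (nat_lit 1188) (nat_lit 4398046511104) (.ev
 (nat_lit 1197) (nat_lit 32768) .dd))))) (.ch (nat_lit 9) (.ev (nat_lit 848) (nat_lit 74766790688776) (.ev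
 (nat_lit 1188) (nat_lit 32768) (.fin (nat_lit 576426117620515376)))))) (.br (nat_lit 11) (.ch (nat_lit 10)
 (.ev (nat_lit 848) (nat_lit 2147581960) (.ev (nat_lit 1108) (nat_lit 4398046511104) (.ev (nat_lit 1117)
 (nat_lit 70368744177664) .dd)))) (.ch (nat_lit 11) (.ev (nat_lit 848) (nat_lit 4400194060288) (.ev (nat_lit
 1088) (nat_lit 70368744177664) (.ev (nat_lit 1108) (nat_lit 8) (.ev (nat_lit 1117) (nat_lit 32768)
 .dd)))))))))))))) (.br (nat_lit 8) (.ch (nat_lit 6) (.ev (nat_lit 336) (nat_lit 2419167232) (.nd (nat_lit 832)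
 (.br (nat_lit 4) (.br (nat_lit 2) (.br (nat_lit 1) (.ch (nat_lit 0) (.ev (nat_lit 848) (nat_lit 4194304) (.ev
 (nat_lit 1012) (nat_lit 8) (.ev (nat_lit 1248) (nat_lit 70368744177664) (.ev (nat_lit 1261) (nat_lit
 4398046511104) .dd))))) (.ch (nat_lit 1) (.ev (nat_lit 848) (nat_lit 74766794883072) (.ev (nat_lit 861)
 (nat_lit 8) .dd)))) (.br (nat_lit 3) (.ch (nat_lit 2) (.ev (nat_lit 848) (nat_lit 74766790688776) (.ev
 (nat_lit 861) (nat_lit 4194304) .dd))) (.ch (nat_lit 3) (.ev (nat_lit 848) (nat_lit 70368748371976) (.ev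
 (nat_lit 861) (nat_lit 4398046511104) .dd))))) (.br (nat_lit 6) (.br (nat_lit 5) (.ch (nat_lit 4) (.ev
 (nat_lit 848) (nat_lit 4398050705416) (.ev (nat_lit 861) (nat_lit 70368744177664) .dd))) (.ch (nat_lit 5) (.ev
 (nat_lit 848) (nat_lit 74766794883080) .dd))) (.br (nat_lit 11) (.ch (nat_lit 6) (.ev (nat_lit 848) (nat_lit
 4398046511112) (.ev (nat_lit 1284) (nat_lit 4194304) (.ev (nat_lit 1293) (nat_lit 70368744177664) .dd)))) (.ch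
 (nat_lit 11) (.ev (nat_lit 848) (nat_lit 4194312) (.ev (nat_lit 1056) (nat_lit 4398046511104) (.ev (nat_lit
 1069) (nat_lit 70368744177664) .dd)))))))))) (.br (nat_lit 9) (.ch (nat_lit 8) (.ev (nat_lit 336) (nat_lit
 2417000456) (.nd (nat_lit 832) (.br (nat_lit 7) (.br (nat_lit 4) (.ch (nat_lit 0) (.ev (nat_lit 848) (nat_lit
 74766792851456) (.ev (nat_lit 1284) (nat_lit 4194304) (.ev (nat_lit 1293) (nat_lit 4096) .dd)))) (.br (nat_lit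
 5) (.ch (nat_lit 4) (.ev (nat_lit 848) (nat_lit 74766790754304) (.ev (nat_lit 900) (nat_lit 6291456) (.ev
 (nat_lit 909) (nat_lit 4096) .dd)))) (.ch (nat_lit 5) (.ev (nat_lit 848) (nat_lit 2162688) (.ev (nat_lit 900)
 (nat_lit 4194304) (.ev (nat_lit 1012) (nat_lit 70368744177664) (.ev (nat_lit 1108) (nat_lit 4096) (.ev
 (nat_lit 1117) (nat_lit 4398046511104) .dd)))))))) (.br (nat_lit 10) (.ch (nat_lit 7) (.ev (nat_lit 848)
 (nat_lit 2097152) (.ev (nat_lit 900) (nat_lit 4198400) (.ev (nat_lit 912) (nat_lit 65536) (.ev (nat_lit 1108)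
 (nat_lit 70368744177664) (.ev (nat_lit 1117) (nat_lit 4398046511104) .dd)))))) (.br (nat_lit 12) (.ch (nat_lit
 10) (.ev (nat_lit 848) (nat_lit 70368746344448) (.ev (nat_lit 900) (nat_lit 4398046511104) (.ev (nat_lit 909)
 (nat_lit 4194304) .dd)))) (.ch (nat_lit 12) (.ev (nat_lit 848) (nat_lit 4398046515200) (.ev (nat_lit 900)
 (nat_lit 70368744177664) (.ev (nat_lit 1012) (nat_lit 4194304) (.fin (nat_lit 576465700028629620))))))))))))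
 (.ch (nat_lit 9) (.ev (nat_lit 336) (nat_lit 271683584) (.nd (nat_lit 832) (.br (nat_lit 6) (.br (nat_lit 4)
 (.ch (nat_lit 0) (.ev (nat_lit 848) (nat_lit 70368744177664) (.ev (nat_lit 900) (nat_lit 4400193994752) (.ev
 (nat_lit 1284) (nat_lit 4194304) (.ev (nat_lit 1293) (nat_lit 8) .dd))))) (.br (nat_lit 5) (.ch (nat_lit 4)
 (.ev (nat_lit 848) (nat_lit 70370895855624) (.ev (nat_lit 861) (nat_lit 4398046511104) .dd))) (.ch (nat_lit 5)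
 (.ev (nat_lit 848) (nat_lit 4400198189064) (.ev (nat_lit 861) (nat_lit 70368744177664) .dd))))) (.br (nat_lit
 7) (.ch (nat_lit 6) (.ev (nat_lit 848) (nat_lit 8) (.ev (nat_lit 900) (nat_lit 4194304) (.ev (nat_lit 1108)
 (nat_lit 4400193994752) (.ev (nat_lit 1117) (nat_lit 70368744177664) .dd))))) (.br (nat_lit 11) (.ch (nat_lit
 7) (.ev (nat_lit 848) (nat_lit 74768942366720) (.ev (nat_lit 861) (nat_lit 8) .dd))) (.ch (nat_lit 11) (.ev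
 (nat_lit 848) (nat_lit 2151677960) (.ev (nat_lit 900) (nat_lit 4398046511104) (.ev (nat_lit 909) (nat_lit
 70368744177664) .dd))))))))))))))))) (.br (nat_lit 5) (.ch (nat_lit 4) (.ev (nat_lit 52) (nat_lit
 4402343575552) (.ev (nat_lit 84) (nat_lit 35459249995776) (.ev (nat_lit 116) (nat_lit 1048576) (.nd (nat_lit
 320) (.br (nat_lit 6) (.br (nat_lit 2) (.br (nat_lit 1) (.ch (nat_lit 0) (.ev (nat_lit 336) (nat_lit
 79461191688) (.ev (nat_lit 352) (nat_lit 268435456) (.ev (nat_lit 365) (nat_lit 70368744177664) .dd)))) (.ch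
 (nat_lit 1) (.ev (nat_lit 336) (nat_lit 68723773440) (.nd (nat_lit 832) (.br (nat_lit 5) (.br (nat_lit 3) (.ch
 (nat_lit 1) (.ev (nat_lit 848) (nat_lit 70371160096776) (.ev (nat_lit 861) (nat_lit 8589934592) .dd))) (.br
 (nat_lit 4) (.ch (nat_lit 3) (.ev (nat_lit 848) (nat_lit 70379481595904) (.ev (nat_lit 1012) (nat_lit 8) (.ev
 (nat_lit 1021) (nat_lit 268435456) .dd)))) (.ch (nat_lit 4) (.ev (nat_lit 848) (nat_lit 70371160096776) (.ev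
 (nat_lit 861) (nat_lit 8589934592) .dd))))) (.br (nat_lit 10) (.br (nat_lit 6) (.ch (nat_lit 5) (.ev (nat_lit
 848) (nat_lit 8589934600) (.ev (nat_lit 1108) (nat_lit 2415919104) (.ev (nat_lit 1117) (nat_lit
 70368744177664) .dd)))) (.ch (nat_lit 6) (.ev (nat_lit 848) (nat_lit 70377334112256) (.ev (nat_lit 900)
 (nat_lit 268435464) (.ev (nat_lit 909) (nat_lit 2147483648) .dd))))) (.br (nat_lit 11) (.ch (nat_lit 10) (.ev
 (nat_lit 848) (nat_lit 10737418248) (.ev (nat_lit 900) (nat_lit 268435456) (.ev (nat_lit 909) (nat_lit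
 70368744177664) .dd)))) (.ch (nat_lit 11) (.ev (nat_lit 848) (nat_lit 70377334112256) (.ev (nat_lit 864)
 (nat_lit 8) (.ev (nat_lit 900) (nat_lit 268435456) (.ev (nat_lit 909) (nat_lit 2147483648) .dd))))))))))))
 (.br (nat_lit 3) (.ch (nat_lit 2) (.ev (nat_lit 336) (nat_lit 70377602547720) (.nd (nat_lit 832) (.br (nat_lit
 6) (.br (nat_lit 3) (.ch (nat_lit 0) (.ev (nat_lit 848) (nat_lit 2151714816) (.ev (nat_lit 1012) (nat_lit
 68719476736) (.ev (nat_lit 1021) (nat_lit 65536) .dd)))) (.ch (nat_lit 3) (.ev (nat_lit 848) (nat_lit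
 70866964480) (.ev (nat_lit 1024) (nat_lit 65536) (.fin (nat_lit 576434913786937870)))))) (.br (nat_lit 7) (.ch
 (nat_lit 6) (.ev (nat_lit 848) (nat_lit 4292608) (.ev (nat_lit 1460) (nat_lit 68719476736) (.nd (nat_lit 1761)
 (.ch (nat_lit 16) (.nd (nat_lit 1792) (.br (nat_lit 4) (.ch (nat_lit 0) (.ev (nat_lit 1808) (nat_lit
 2147487744) .dd)) (.ch (nat_lit 4) (.fin (nat_lit 576460202548085310)))))))))) (.br (nat_lit 12) (.ch (nat_lit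
 7) (.ev (nat_lit 848) (nat_lit 70871158784) (.ev (nat_lit 864) (nat_lit 65536) (.ev (nat_lit 877) (nat_lit
 32768) .dd)))) (.ch (nat_lit 12) (.ev (nat_lit 848) (nat_lit 70867062784) (.ev (nat_lit 861) (nat_lit 4194304)
 .dd))))))))) (.ch (nat_lit 3) (.ev (nat_lit 336) (nat_lit 68723675136) (.ev (nat_lit 420) (nat_lit 2147483648)
 (.nd (nat_lit 832) (.br (nat_lit 9) (.br (nat_lit 5) (.br (nat_lit 3) (.ch (nat_lit 1) (.ev (nat_lit 848)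
 (nat_lit 268533760) (.ev (nat_lit 900) (nat_lit 8) (.ev (nat_lit 976) (nat_lit 8589934592) (.ev (nat_lit 989)
 (nat_lit 70368744177664) .dd))))) (.ch (nat_lit 3) (.ev (nat_lit 848) (nat_lit 268468232) (.ev (nat_lit 1188)
 (nat_lit 70368744177664) (.fin (nat_lit 576440411374436903)))))) (.br (nat_lit 8) (.ch (nat_lit 5) (.ev
 (nat_lit 848) (nat_lit 70377602580488) (.ev (nat_lit 861) (nat_lit 65536) .dd))) (.ch (nat_lit 8) (.ev
 (nat_lit 848) (nat_lit 70377602547720) (.ev (nat_lit 1012) (nat_lit 32768) (.ev (nat_lit 1021) (nat_lit 65536)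
 .dd)))))) (.br (nat_lit 11) (.br (nat_lit 10) (.ch (nat_lit 9) (.ev (nat_lit 848) (nat_lit 70377334112256)
 (.ev (nat_lit 944) (nat_lit 32768) (.ev (nat_lit 1188) (nat_lit 65544) (.ev (nat_lit 1197) (nat_lit 268435456)
 .dd))))) (.ch (nat_lit 10) (.ev (nat_lit 848) (nat_lit 268533768) (.ev (nat_lit 1188) (nat_lit 8589934592)
 (.ev (nat_lit 1197) (nat_lit 70368744177664) .dd))))) (.br (nat_lit 12) (.ch (nat_lit 11) (.ev (nat_lit 848)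
 (nat_lit 268501000) (.ev (nat_lit 1200) (nat_lit 70368744177664) (.ev (nat_lit 1284) (nat_lit 8589934592) (.ev
 (nat_lit 1293) (nat_lit 32768) .dd))))) (.ch (nat_lit 12) (.ev (nat_lit 848) (nat_lit 70369012645896) (.ev
 (nat_lit 864) (nat_lit 8590000128) .dd)))))))))))) (.br (nat_lit 8) (.br (nat_lit 7) (.ch (nat_lit 6) (.ev
 (nat_lit 336) (nat_lit 2416017416) (.nd (nat_lit 832) (.br (nat_lit 5) (.br (nat_lit 3) (.br (nat_lit 1) (.ch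
 (nat_lit 0) (.ev (nat_lit 848) (nat_lit 70377334112256) (.ev (nat_lit 900) (nat_lit 4194304) (.ev (nat_lit
 1012) (nat_lit 4096) (.ev (nat_lit 1021) (nat_lit 68719476736) .dd))))) (.ch (nat_lit 1) (.ev (nat_lit 848)
 (nat_lit 70377338310656) (.ev (nat_lit 861) (nat_lit 68719476736) .dd)))) (.br (nat_lit 4) (.ch (nat_lit 3)
 (.ev (nat_lit 848) (nat_lit 70368748376064) (.ev (nat_lit 864) (nat_lit 68719476736) (.ev (nat_lit 877)
 (nat_lit 8589934592) .dd)))) (.ch (nat_lit 4) (.ev (nat_lit 848) (nat_lit 8589934592) (.ev (nat_lit 900)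
 (nat_lit 70368744177664) (.ev (nat_lit 1056) (nat_lit 68719480832) (.ev (nat_lit 1069) (nat_lit 4194304)
 .dd))))))) (.br (nat_lit 9) (.br (nat_lit 6) (.ch (nat_lit 5) (.ev (nat_lit 848) (nat_lit 70437463658496) (.ev
 (nat_lit 1216) (nat_lit 8589934592) (.ev (nat_lit 1229) (nat_lit 4194304) .dd)))) (.ch (nat_lit 6) (.ev
 (nat_lit 848) (nat_lit 77313605632) (.ev (nat_lit 928) (nat_lit 4096) (.ev (nat_lit 941) (nat_lit
 70368744177664) .dd))))) (.br (nat_lit 11) (.ch (nat_lit 9) (.ev (nat_lit 848) (nat_lit 70446057787392) .dd))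
 (.ch (nat_lit 11) (.ev (nat_lit 848) (nat_lit 70377338310656) (.ev (nat_lit 861) (nat_lit 68719476736)
 .dd))))))))) (.ch (nat_lit 7) (.ev (nat_lit 336) (nat_lit 70377338310656) (.ev (nat_lit 432) (nat_lit 65536)
 (.nd (nat_lit 832) (.br (nat_lit 8) (.br (nat_lit 2) (.ch (nat_lit 0) (.ev (nat_lit 848) (nat_lit 68987912192)
 (.ev (nat_lit 900) (nat_lit 8) (.ev (nat_lit 928) (nat_lit 2147483648) (.ev (nat_lit 941) (nat_lit 32768)
 .dd))))) (.br (nat_lit 4) (.ch (nat_lit 2) (.ev (nat_lit 848) (nat_lit 2415919112) (.ev (nat_lit 1072)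
 (nat_lit 32768) (.ev (nat_lit 1085) (nat_lit 68719476736) .dd)))) (.ch (nat_lit 4) (.ev (nat_lit 848) (nat_lit
 71135395848) (.ev (nat_lit 861) (nat_lit 32768) .dd))))) (.br (nat_lit 10) (.ch (nat_lit 8) (.ev (nat_lit 848)
 (nat_lit 2415919104) (.ev (nat_lit 1012) (nat_lit 8) (.ev (nat_lit 1108) (nat_lit 68719476736) (.ev (nat_lit
 1117) (nat_lit 32768) .dd))))) (.br (nat_lit 12) (.ch (nat_lit 10) (.ev (nat_lit 848) (nat_lit 70866960392)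
 (.ev (nat_lit 900) (nat_lit 32768) (.ev (nat_lit 909) (nat_lit 268435456) .dd)))) (.ch (nat_lit 12) (.ev
 (nat_lit 848) (nat_lit 2147483656) (.ev (nat_lit 1012) (nat_lit 68719476736) (.ev (nat_lit 1188) (nat_lit
 32768) (.ev (nat_lit 1197) (nat_lit 268435456) .dd))))))))))))) (.br (nat_lit 11) (.ch (nat_lit 8) (.ev
 (nat_lit 336) (nat_lit 2415951880) (.ev (nat_lit 420) (nat_lit 68719476736) (.nd (nat_lit 832) (.br (nat_lit
 7) (.br (nat_lit 4) (.ch (nat_lit 0) (.ev (nat_lit 848) (nat_lit 4096) (.ev (nat_lit 900) (nat_lit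
 70368744177664) (.ev (nat_lit 1188) (nat_lit 4194304) (.ev (nat_lit 1460) (nat_lit 8589934592) (.ev (nat_lit
 1469) (nat_lit 65536) .dd)))))) (.br (nat_lit 5) (.ch (nat_lit 4) (.ev (nat_lit 848) (nat_lit 70368744243200)
 (.ev (nat_lit 928) (nat_lit 4096) (.ev (nat_lit 1188) (nat_lit 4194304) (.ev (nat_lit 1197) (nat_lit
 8589934592) .dd))))) (.ch (nat_lit 5) (.ev (nat_lit 848) (nat_lit 70368744247296) (.ev (nat_lit 1284) (nat_lit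
 4194304) (.ev (nat_lit 1293) (nat_lit 8589934592) .dd)))))) (.br (nat_lit 10) (.ch (nat_lit 7) (.ev (nat_lit
 848) (nat_lit 70368744247296) (.ev (nat_lit 1200) (nat_lit 4194304) (.ev (nat_lit 1213) (nat_lit 8589934592)
 .dd)))) (.br (nat_lit 12) (.ch (nat_lit 10) (.ev (nat_lit 848) (nat_lit 70368744181760) (.ev (nat_lit 1284)
 (nat_lit 4194304) (.ev (nat_lit 1460) (nat_lit 65536) (.ev (nat_lit 1469) (nat_lit 8589934592) .dd))))) (.ch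
 (nat_lit 12) (.ev (nat_lit 848) (nat_lit 70368744247296) (.ev (nat_lit 1380) (nat_lit 4194304) (.ev (nat_lit
 1389) (nat_lit 8589934592) .dd))))))))))) (.ch (nat_lit 11) (.ev (nat_lit 336) (nat_lit 70448473800712) (.ev
 (nat_lit 349) (nat_lit 4096) .dd))))))))))) (.ch (nat_lit 5) (.ev (nat_lit 52) (nat_lit 39659729125384) (.ev
 (nat_lit 84) (nat_lit 4194304) (.ev (nat_lit 116) (nat_lit 2147483648) (.ev (nat_lit 196) (nat_lit 4096) (.ev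
 (nat_lit 208) (nat_lit 70648187617280) .dd)))))))) (.br (nat_lit 8) (.ch (nat_lit 7) (.ev (nat_lit 52)
 (nat_lit 35257658179584) (.ev (nat_lit 84) (nat_lit 4406636445696) (.ev (nat_lit 116) (nat_lit 2151677952)
 (.nd (nat_lit 320) (.br (nat_lit 7) (.br (nat_lit 2) (.ch (nat_lit 1) (.ev (nat_lit 336) (nat_lit
 70368744181760) (.ev (nat_lit 420) (nat_lit 274877906944) (.nd (nat_lit 832) (.br (nat_lit 5) (.br (nat_lit 3)
 (.ch (nat_lit 1) (.ev (nat_lit 848) (nat_lit 8) (.ev (nat_lit 861) (nat_lit 32768) .dd))) (.ch (nat_lit 3)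
 (.ev (nat_lit 1120) (nat_lit 8) (.ev (nat_lit 1133) (nat_lit 32768) .dd)))) (.br (nat_lit 10) (.ch (nat_lit 5)
 (.ev (nat_lit 848) (nat_lit 32776) .dd)) (.br (nat_lit 11) (.ch (nat_lit 10) (.ev (nat_lit 848) (nat_lit 8)
 (.ev (nat_lit 861) (nat_lit 32768) .dd))) (.ch (nat_lit 11) (.ev (nat_lit 848) (nat_lit 32768) (.ev (nat_lit
 861) (nat_lit 8) .dd)))))))))) (.br (nat_lit 6) (.ch (nat_lit 2) (.ev (nat_lit 336) (nat_lit 70368744177672)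
 (.nd (nat_lit 832) (.br (nat_lit 3) (.br (nat_lit 2) (.ch (nat_lit 1) (.ev (nat_lit 848) (nat_lit
 274877911040) (.ev (nat_lit 861) (nat_lit 32768) .dd))) (.ch (nat_lit 2) (.ev (nat_lit 848) (nat_lit
 274877939712) (.ev (nat_lit 861) (nat_lit 4096) .dd)))) (.br (nat_lit 5) (.ch (nat_lit 3) (.ev (nat_lit 848)
 (nat_lit 4096) (.ev (nat_lit 900) (nat_lit 274877906944) (.ev (nat_lit 909) (nat_lit 32768) .dd)))) (.br
 (nat_lit 12) (.ch (nat_lit 5) (.ev (nat_lit 848) (nat_lit 274877939712) (.ev (nat_lit 861) (nat_lit 4096)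
 .dd))) (.ch (nat_lit 12) (.ev (nat_lit 848) (nat_lit 32768) (.ev (nat_lit 912) (nat_lit 274877906944) (.ev
 (nat_lit 925) (nat_lit 4096) .dd)))))))))) (.ch (nat_lit 6) (.ev (nat_lit 336) (nat_lit 70643622121480)
 .dd)))) (.br (nat_lit 8) (.ch (nat_lit 7) (.ev (nat_lit 336) (nat_lit 70368744181768) (.nd (nat_lit 832) (.br
 (nat_lit 4) (.br (nat_lit 2) (.ch (nat_lit 0) (.ev (nat_lit 912) (nat_lit 274877906944) (.ev (nat_lit 925)
 (nat_lit 32768) .dd))) (.br (nat_lit 3) (.ch (nat_lit 2) (.ev (nat_lit 848) (nat_lit 274877906944) (.ev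
 (nat_lit 861) (nat_lit 32768) .dd))) (.ch (nat_lit 3) (.ev (nat_lit 848) (nat_lit 274877939712) .dd)))) (.br
 (nat_lit 9) (.br (nat_lit 8) (.ch (nat_lit 4) (.ev (nat_lit 848) (nat_lit 274877906944) (.ev (nat_lit 861)
 (nat_lit 32768) .dd))) (.ch (nat_lit 8) (.ev (nat_lit 848) (nat_lit 274877939712) .dd))) (.br (nat_lit 12)
 (.ch (nat_lit 9) (.ev (nat_lit 848) (nat_lit 32768) (.ev (nat_lit 861) (nat_lit 274877906944) .dd))) (.ch
 (nat_lit 12) (.ev (nat_lit 848) (nat_lit 274877939712) .dd)))))))) (.br (nat_lit 9) (.ch (nat_lit 8) (.ev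
 (nat_lit 336) (nat_lit 70368744214536) (.ev (nat_lit 349) (nat_lit 274877906944) .dd))) (.ch (nat_lit 9) (.ev
 (nat_lit 336) (nat_lit 274877943808) (.nd (nat_lit 832) (.br (nat_lit 7) (.br (nat_lit 5) (.ch (nat_lit 0)
 (.ev (nat_lit 1012) (nat_lit 70368744177664) (.ev (nat_lit 1021) (nat_lit 8) .dd))) (.br (nat_lit 6) (.ch
 (nat_lit 5) (.ev (nat_lit 848) (nat_lit 70368744177672) .dd)) (.ch (nat_lit 6) (.ev (nat_lit 848) (nat_lit 8)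
 (.ev (nat_lit 861) (nat_lit 70368744177664) .dd))))) (.br (nat_lit 9) (.br (nat_lit 8) (.ch (nat_lit 7) (.ev
 (nat_lit 1188) (nat_lit 8) (.ev (nat_lit 1197) (nat_lit 70368744177664) .dd))) (.ch (nat_lit 8) (.ev (nat_lit
 900) (nat_lit 8) (.ev (nat_lit 909) (nat_lit 70368744177664) .dd)))) (.br (nat_lit 10) (.ch (nat_lit 9) (.ev
 (nat_lit 848) (nat_lit 8) (.ev (nat_lit 861) (nat_lit 70368744177664) .dd))) (.ch (nat_lit 10) (.ev (nat_lit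
 848) (nat_lit 70368744177672) .dd)))))))))))))))) (.br (nat_lit 10) (.ch (nat_lit 8) (.ev (nat_lit 52)
 (nat_lit 358903451656) (.ev (nat_lit 84) (nat_lit 35184374185984) (.nd (nat_lit 320) (.br (nat_lit 6) (.br
 (nat_lit 2) (.ch (nat_lit 0) (.ev (nat_lit 336) (nat_lit 4398046609408) (.ev (nat_lit 349) (nat_lit
 70368744177664) .dd))) (.br (nat_lit 3) (.ch (nat_lit 2) (.ev (nat_lit 336) (nat_lit 74766790721536) (.ev
 (nat_lit 349) (nat_lit 65536) .dd))) (.ch (nat_lit 3) (.ev (nat_lit 336) (nat_lit 70368744210432) (.nd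
 (nat_lit 832) (.br (nat_lit 8) (.br (nat_lit 1) (.ch (nat_lit 0) (.ev (nat_lit 848) (nat_lit 4398046511104)
 (.ev (nat_lit 861) (nat_lit 65536) .dd))) (.br (nat_lit 3) (.ch (nat_lit 1) (.ev (nat_lit 848) (nat_lit
 4398046576640) .dd)) (.ch (nat_lit 3) (.ev (nat_lit 1012) (nat_lit 65536) (.ev (nat_lit 1021) (nat_lit
 4398046511104) .dd))))) (.br (nat_lit 11) (.br (nat_lit 9) (.ch (nat_lit 8) (.ev (nat_lit 848) (nat_lit
 4398046511104) (.ev (nat_lit 861) (nat_lit 65536) .dd))) (.ch (nat_lit 9) (.ev (nat_lit 848) (nat_lit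
 4398046576640) .dd))) (.br (nat_lit 12) (.ch (nat_lit 11) (.ev (nat_lit 848) (nat_lit 4398046576640) .dd))
 (.ch (nat_lit 12) (.ev (nat_lit 848) (nat_lit 4398046576640) .dd)))))))))) (.br (nat_lit 9) (.br (nat_lit 7)
 (.ch (nat_lit 6) (.ev (nat_lit 336) (nat_lit 4398046576640) (.nd (nat_lit 832) (.br (nat_lit 3) (.br (nat_lit
 1) (.ch (nat_lit 0) (.ev (nat_lit 848) (nat_lit 70368744210432) .dd)) (.br (nat_lit 2) (.ch (nat_lit 1) (.ev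
 (nat_lit 848) (nat_lit 70368744177664) (.ev (nat_lit 861) (nat_lit 32768) .dd))) (.ch (nat_lit 2) (.ev
 (nat_lit 848) (nat_lit 70368744210432) .dd)))) (.br (nat_lit 6) (.br (nat_lit 5) (.ch (nat_lit 3) (.ev
 (nat_lit 848) (nat_lit 70368744210432) .dd)) (.ch (nat_lit 5) (.ev (nat_lit 848) (nat_lit 70368744210432)
 .dd))) (.br (nat_lit 11) (.ch (nat_lit 6) (.ev (nat_lit 848) (nat_lit 70368744177664) (.ev (nat_lit 861)
 (nat_lit 32768) .dd))) (.ch (nat_lit 11) (.ev (nat_lit 1012) (nat_lit 32768) (.ev (nat_lit 1021) (nat_lit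
 70368744177664) .dd))))))))) (.ch (nat_lit 7) (.ev (nat_lit 336) (nat_lit 74766790754304) (.ev (nat_lit 349)
 (nat_lit 32768) .dd)))) (.br (nat_lit 11) (.ch (nat_lit 9) (.ev (nat_lit 336) (nat_lit 70368744275968) (.ev
 (nat_lit 349) (nat_lit 4398046511104) .dd))) (.ch (nat_lit 11) (.ev (nat_lit 336) (nat_lit 74766790787072)
 .dd))))))))) (.ch (nat_lit 10) (.ev (nat_lit 52) (nat_lit 4471068364808) (.ev (nat_lit 84) (nat_lit
 35193230491648) (.ev (nat_lit 116) (nat_lit 70368744177664) (.ev (nat_lit 180) (nat_lit 274877906944) (.ev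
 (nat_lit 189) (nat_lit 2147483648) .dd))))))))) (.br (nat_lit 15) (.br (nat_lit 12) (.ch (nat_lit 11) (.ev
 (nat_lit 52) (nat_lit 39659729125376) (.ev (nat_lit 84) (nat_lit 70368744177664) (.ev (nat_lit 116) (nat_lit
 4096) (.nd (nat_lit 320) (.br (nat_lit 7) (.br (nat_lit 3) (.br (nat_lit 2) (.ch (nat_lit 0) (.ev (nat_lit
 336) (nat_lit 2151710728) (.nd (nat_lit 832) (.br (nat_lit 6) (.br (nat_lit 3) (.ch (nat_lit 2) (.ev (nat_lit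
 848) (nat_lit 274877906944) (.ev (nat_lit 928) (nat_lit 2097152) (.ev (nat_lit 1012) (nat_lit 4294967296) (.ev
 (nat_lit 1021) (nat_lit 268435456) .dd))))) (.br (nat_lit 4) (.ch (nat_lit 3) (.ev (nat_lit 848) (nat_lit
 4565499904) (.ev (nat_lit 861) (nat_lit 274877906944) .dd))) (.ch (nat_lit 4) (.ev (nat_lit 848) (nat_lit
 279443406848) .dd)))) (.br (nat_lit 7) (.ch (nat_lit 6) (.ev (nat_lit 848) (nat_lit 274880004096) (.ev
 (nat_lit 900) (nat_lit 4294967296) (.ev (nat_lit 909) (nat_lit 268435456) .dd)))) (.br (nat_lit 8) (.ch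
 (nat_lit 7) (.ev (nat_lit 848) (nat_lit 4565499904) (.ev (nat_lit 861) (nat_lit 274877906944) .dd))) (.ch
 (nat_lit 8) (.ev (nat_lit 848) (nat_lit 4565499904) (.ev (nat_lit 861) (nat_lit 274877906944) .dd)))))))))
 (.ch (nat_lit 2) (.ev (nat_lit 336) (nat_lit 281590890496) (.nd (nat_lit 832) (.br (nat_lit 5) (.br (nat_lit
 2) (.br (nat_lit 1) (.ch (nat_lit 0) (.ev (nat_lit 848) (nat_lit 4227080) .dd)) (.ch (nat_lit 1) (.ev (nat_lit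
 848) (nat_lit 4227072) (.ev (nat_lit 861) (nat_lit 8) .dd)))) (.br (nat_lit 3) (.ch (nat_lit 2) (.ev (nat_lit
 848) (nat_lit 32776) (.ev (nat_lit 861) (nat_lit 4194304) .dd))) (.ch (nat_lit 3) (.ev (nat_lit 848) (nat_lit
 8) (.fin (nat_lit 576434913786937870)))))) (.br (nat_lit 11) (.br (nat_lit 6) (.ch (nat_lit 5) (.ev (nat_lit
 848) (nat_lit 32776) (.ev (nat_lit 861) (nat_lit 4194304) .dd))) (.ch (nat_lit 6) (.ev (nat_lit 848) (nat_lit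
 4194312) (.ev (nat_lit 861) (nat_lit 32768) .dd)))) (.br (nat_lit 12) (.ch (nat_lit 11) (.ev (nat_lit 848)
 (nat_lit 32768) (.ev (nat_lit 1012) (nat_lit 8) (.ev (nat_lit 1021) (nat_lit 4194304) .dd)))) (.ch (nat_lit
 12) (.ev (nat_lit 848) (nat_lit 4227072) (.ev (nat_lit 861) (nat_lit 8) .dd)))))))))) (.br (nat_lit 6) (.ch
 (nat_lit 3) (.ev (nat_lit 336) (nat_lit 6446645248) (.ev (nat_lit 420) (nat_lit 268435456) (.nd (nat_lit 832)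
 (.br (nat_lit 10) (.br (nat_lit 5) (.ch (nat_lit 0) (.ev (nat_lit 848) (nat_lit 2129920) (.ev (nat_lit 960)
 (nat_lit 274877906944) (.ev (nat_lit 973) (nat_lit 8) .dd)))) (.ch (nat_lit 5) (.ev (nat_lit 848) (nat_lit
 274880036864) (.ev (nat_lit 861) (nat_lit 8) .dd)))) (.br (nat_lit 11) (.ch (nat_lit 10) (.ev (nat_lit 848)
 (nat_lit 2129928) (.ev (nat_lit 861) (nat_lit 274877906944) .dd))) (.br (nat_lit 12) (.ch (nat_lit 11) (.ev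
 (nat_lit 848) (nat_lit 274877906944) (.ev (nat_lit 1012) (nat_lit 8) (.ev (nat_lit 1540) (nat_lit 32768) (.ev
 (nat_lit 1549) (nat_lit 2097152) .dd))))) (.ch (nat_lit 12) (.ev (nat_lit 848) (nat_lit 2097160) (.ev (nat_lit
 900) (nat_lit 32768) (.ev (nat_lit 909) (nat_lit 274877906944) .dd))))))))))) (.ch (nat_lit 6) (.ev (nat_lit
 336) (nat_lit 277300117504) (.nd (nat_lit 832) (.br (nat_lit 6) (.br (nat_lit 2) (.ch (nat_lit 1) (.ev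
 (nat_lit 848) (nat_lit 8) (.ev (nat_lit 900) (nat_lit 4294967296) (.ev (nat_lit 909) (nat_lit 32768) .dd))))
 (.br (nat_lit 5) (.ch (nat_lit 2) (.ev (nat_lit 848) (nat_lit 8) (.ev (nat_lit 900) (nat_lit 4294967296) (.ev
 (nat_lit 909) (nat_lit 32768) .dd)))) (.ch (nat_lit 5) (.ev (nat_lit 848) (nat_lit 8) (.fin (nat_lit
 576496486364693072)))))) (.br (nat_lit 9) (.ch (nat_lit 6) (.ev (nat_lit 848) (nat_lit 8) (.ev (nat_lit 1284)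
 (nat_lit 4294967296) (.ev (nat_lit 1293) (nat_lit 32768) .dd)))) (.br (nat_lit 11) (.ch (nat_lit 9) (.ev
 (nat_lit 848) (nat_lit 4294967296) (.ev (nat_lit 1284) (nat_lit 8) (.ev (nat_lit 1293) (nat_lit 32768) .dd))))
 (.ch (nat_lit 11) (.ev (nat_lit 848) (nat_lit 4294967304) (.ev (nat_lit 861) (nat_lit 32768) .dd)))))))))))
 (.br (nat_lit 9) (.br (nat_lit 8) (.ch (nat_lit 7) (.ev (nat_lit 336) (nat_lit 4299161600) (.ev (nat_lit 532)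
 (nat_lit 268435456) (.nd (nat_lit 832) (.br (nat_lit 8) (.br (nat_lit 3) (.br (nat_lit 1) (.ch (nat_lit 0)
 (.ev (nat_lit 848) (nat_lit 274880004096) (.ev (nat_lit 1012) (nat_lit 2147483648) (.ev (nat_lit 1188)
 (nat_lit 8) (.ev (nat_lit 1197) (nat_lit 32768) .dd))))) (.ch (nat_lit 1) (.ev (nat_lit 848) (nat_lit 32776)
 (.ev (nat_lit 1380) (nat_lit 2147483648) (.fin (nat_lit 576440411368145438)))))) (.br (nat_lit 4) (.ch
 (nat_lit 3) (.ev (nat_lit 848) (nat_lit 274877939720) (.ev (nat_lit 1056) (nat_lit 2097152) (.ev (nat_lit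
 1069) (nat_lit 2147483648) .dd)))) (.ch (nat_lit 4) (.ev (nat_lit 848) (nat_lit 277025390592) (.ev (nat_lit
 928) (nat_lit 2097152) (.ev (nat_lit 1040) (nat_lit 32768) (.ev (nat_lit 1053) (nat_lit 8) .dd))))))) (.br
 (nat_lit 10) (.br (nat_lit 9) (.ch (nat_lit 8) (.ev (nat_lit 848) (nat_lit 2149580808) (.ev (nat_lit 928)
 (nat_lit 274877939712) .dd))) (.ch (nat_lit 9) (.ev (nat_lit 848) (nat_lit 274880036872) (.ev (nat_lit 861)
 (nat_lit 2147483648) .dd)))) (.br (nat_lit 12) (.ch (nat_lit 10) (.ev (nat_lit 848) (nat_lit 277027487744)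
 (.ev (nat_lit 1108) (nat_lit 32768) (.ev (nat_lit 1117) (nat_lit 8) .dd)))) (.ch (nat_lit 12) (.ev (nat_lit
 848) (nat_lit 277027487744) (.ev (nat_lit 1188) (nat_lit 32768) (.ev (nat_lit 1197) (nat_lit 8) .dd)))))))))))
 (.ch (nat_lit 8) (.ev (nat_lit 336) (nat_lit 6717210624) (.ev (nat_lit 352) (nat_lit 274877906944) (.ev
 (nat_lit 365) (nat_lit 8) .dd))))) (.br (nat_lit 11) (.ch (nat_lit 9) (.ev (nat_lit 336) (nat_lit
 279443439624) (.nd (nat_lit 832) (.br (nat_lit 8) (.br (nat_lit 4) (.ch (nat_lit 0) (.ev (nat_lit 900)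
 (nat_lit 2147483648) (.ev (nat_lit 909) (nat_lit 4194304) .dd))) (.br (nat_lit 5) (.ch (nat_lit 4) (.ev
 (nat_lit 848) (nat_lit 2151677952) .dd)) (.ch (nat_lit 5) (.ev (nat_lit 848) (nat_lit 2151677952) .dd)))) (.br
 (nat_lit 10) (.br (nat_lit 9) (.ch (nat_lit 8) (.ev (nat_lit 848) (nat_lit 2151677952) .dd)) (.ch (nat_lit 9)
 (.ev (nat_lit 848) (nat_lit 2151677952) .dd))) (.br (nat_lit 11) (.ch (nat_lit 10) (.ev (nat_lit 1108)
 (nat_lit 2147483648) (.ev (nat_lit 1117) (nat_lit 4194304) .dd))) (.ch (nat_lit 11) (.ev (nat_lit 848)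
 (nat_lit 2147483648) (.ev (nat_lit 861) (nat_lit 4194304) .dd))))))))) (.ch (nat_lit 11) (.ev (nat_lit 336)
 (nat_lit 281593020424) (.ev (nat_lit 349) (nat_lit 2097152) .dd))))))))))) (.br (nat_lit 13) (.ch (nat_lit 12)
 (.ev (nat_lit 52) (nat_lit 35259538276352) (.ev (nat_lit 84) (nat_lit 8858370048) (.nd (nat_lit 320) (.br
 (nat_lit 7) (.br (nat_lit 2) (.ch (nat_lit 1) (.ev (nat_lit 336) (nat_lit 70643625234432) (.nd (nat_lit 832)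
 (.br (nat_lit 6) (.br (nat_lit 1) (.ch (nat_lit 0) (.ev (nat_lit 848) (nat_lit 4398046511112) (.ev (nat_lit
 861) (nat_lit 32768) .dd))) (.ch (nat_lit 1) (.ev (nat_lit 848) (nat_lit 32776) (.ev (nat_lit 861) (nat_lit
 4398046511104) .dd)))) (.br (nat_lit 10) (.ch (nat_lit 6) (.ev (nat_lit 848) (nat_lit 4398046511104) (.ev
 (nat_lit 912) (nat_lit 32776) .dd))) (.ch (nat_lit 10) (.ev (nat_lit 848) (nat_lit 32776) (.ev (nat_lit 861)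
 (nat_lit 4398046511104) .dd)))))))) (.br (nat_lit 6) (.ch (nat_lit 2) (.ev (nat_lit 336) (nat_lit
 74766793871360) (.nd (nat_lit 832) (.br (nat_lit 7) (.br (nat_lit 1) (.ch (nat_lit 0) (.ev (nat_lit 848)
 (nat_lit 274877906952) .dd)) (.ch (nat_lit 1) (.ev (nat_lit 848) (nat_lit 274877906944) (.ev (nat_lit 861)
 (nat_lit 8) .dd)))) (.br (nat_lit 11) (.ch (nat_lit 7) (.ev (nat_lit 900) (nat_lit 8) (.ev (nat_lit 909)
 (nat_lit 274877906944) .dd))) (.br (nat_lit 12) (.ch (nat_lit 11) (.ev (nat_lit 848) (nat_lit 274877906952)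
 .dd)) (.ch (nat_lit 12) (.ev (nat_lit 848) (nat_lit 8) (.ev (nat_lit 861) (nat_lit 274877906944) .dd)))))))))
 (.ch (nat_lit 6) (.ev (nat_lit 336) (nat_lit 274881052672) (.nd (nat_lit 832) (.br (nat_lit 6) (.br (nat_lit
 2) (.ch (nat_lit 1) (.ev (nat_lit 848) (nat_lit 74766790692864) (.ev (nat_lit 1284) (nat_lit 8) (.ev (nat_lit
 1293) (nat_lit 32768) .dd)))) (.br (nat_lit 5) (.ch (nat_lit 2) (.ev (nat_lit 848) (nat_lit 74766790692864)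
 (.ev (nat_lit 1284) (nat_lit 8) (.ev (nat_lit 1293) (nat_lit 32768) .dd)))) (.ch (nat_lit 5) (.ev (nat_lit
 848) (nat_lit 74766790688776) (.ev (nat_lit 1108) (nat_lit 4096) (.ev (nat_lit 1117) (nat_lit 32768) .dd))))))
 (.br (nat_lit 9) (.ch (nat_lit 6) (.ev (nat_lit 848) (nat_lit 4398046511112) (.ev (nat_lit 900) (nat_lit
 70368744177664) (.ev (nat_lit 1200) (nat_lit 32768) (.ev (nat_lit 1213) (nat_lit 4096) .dd))))) (.br (nat_lit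
 11) (.ch (nat_lit 9) (.ev (nat_lit 848) (nat_lit 4398046515200) (.ev (nat_lit 928) (nat_lit 70368744177664)
 (.ev (nat_lit 1120) (nat_lit 32768) (.ev (nat_lit 1133) (nat_lit 8) .dd))))) (.ch (nat_lit 11) (.ev (nat_lit
 848) (nat_lit 70368744181760) (.ev (nat_lit 1120) (nat_lit 4398046511104) (.fin (nat_lit
 576482192816292410))))))))))))) (.br (nat_lit 9) (.br (nat_lit 8) (.ch (nat_lit 7) (.ev (nat_lit 336) (nat_lit
 74766793838592) (.nd (nat_lit 832) (.br (nat_lit 2) (.ch (nat_lit 0) (.ev (nat_lit 1108) (nat_lit 32768) (.ev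
 (nat_lit 1284) (nat_lit 274877906944) (.ev (nat_lit 1293) (nat_lit 8) .dd)))) (.br (nat_lit 3) (.ch (nat_lit
 2) (.ev (nat_lit 848) (nat_lit 274877906952) (.ev (nat_lit 861) (nat_lit 32768) .dd))) (.ch (nat_lit 3) (.ev
 (nat_lit 848) (nat_lit 274877939720) .dd))))))) (.ch (nat_lit 8) (.ev (nat_lit 336) (nat_lit 4672925499400)
 (.nd (nat_lit 832) (.br (nat_lit 6) (.br (nat_lit 4) (.ch (nat_lit 2) (.ev (nat_lit 848) (nat_lit 4096) (.fin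
 (nat_lit 576434913742897706)))) (.br (nat_lit 5) (.ch (nat_lit 4) (.ev (nat_lit 848) (nat_lit 70368744177664)
 (.ev (nat_lit 900) (nat_lit 2097152) (.ev (nat_lit 909) (nat_lit 4096) .dd)))) (.ch (nat_lit 5) (.ev (nat_lit
 848) (nat_lit 2101248) (.ev (nat_lit 861) (nat_lit 70368744177664) .dd))))) (.br (nat_lit 7) (.ch (nat_lit 6)
 (.ev (nat_lit 848) (nat_lit 2101248) (.ev (nat_lit 861) (nat_lit 70368744177664) .dd))) (.br (nat_lit 9) (.ch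
 (nat_lit 7) (.ev (nat_lit 848) (nat_lit 70368746278912) .dd)) (.ch (nat_lit 9) (.ev (nat_lit 848) (nat_lit
 2097152) (.ev (nat_lit 900) (nat_lit 70368744177664) (.ev (nat_lit 909) (nat_lit 4096) .dd))))))))))) (.br
 (nat_lit 11) (.ch (nat_lit 9) (.ev (nat_lit 336) (nat_lit 70643624218624) (.nd (nat_lit 832) (.br (nat_lit 8)
 (.br (nat_lit 7) (.ch (nat_lit 0) (.ev (nat_lit 848) (nat_lit 1048584) (.ev (nat_lit 861) (nat_lit
 4398046511104) .dd))) (.ch (nat_lit 7) (.ev (nat_lit 848) (nat_lit 4398046511104) (.ev (nat_lit 1072) (nat_lit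
 1048576) (.ev (nat_lit 1085) (nat_lit 8) .dd))))) (.br (nat_lit 9) (.ch (nat_lit 8) (.ev (nat_lit 848)
 (nat_lit 4398047559680) (.ev (nat_lit 861) (nat_lit 8) .dd))) (.br (nat_lit 11) (.ch (nat_lit 9) (.ev (nat_lit
 848) (nat_lit 4398046511112) (.ev (nat_lit 861) (nat_lit 1048576) .dd))) (.ch (nat_lit 11) (.ev (nat_lit 848)
 (nat_lit 1048576) (.ev (nat_lit 1072) (nat_lit 4398046511104) (.ev (nat_lit 1085) (nat_lit 8) .dd))))))))))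
 (.ch (nat_lit 11) (.ev (nat_lit 336) (nat_lit 75041668628488) (.nd (nat_lit 832) (.br (nat_lit 10) (.br
 (nat_lit 4) (.ch (nat_lit 0) (.ev (nat_lit 848) (nat_lit 3149824) .dd)) (.br (nat_lit 6) (.ch (nat_lit 4) (.ev
 (nat_lit 848) (nat_lit 3145728) (.ev (nat_lit 861) (nat_lit 4096) .dd))) (.ch (nat_lit 6) (.ev (nat_lit 848)
 (nat_lit 2101248) (.ev (nat_lit 861) (nat_lit 1048576) .dd))))) (.br (nat_lit 11) (.ch (nat_lit 10) (.ev
 (nat_lit 848) (nat_lit 1052672) (.ev (nat_lit 861) (nat_lit 2097152) .dd))) (.br (nat_lit 12) (.ch (nat_lit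
 11) (.ev (nat_lit 848) (nat_lit 3149824) .dd)) (.ch (nat_lit 12) (.ev (nat_lit 1188) (nat_lit 4096) (.fin
 (nat_lit 576496486459064852))))))))))))))))) (.ch (nat_lit 13) (.ev (nat_lit 52) (nat_lit 70371164295168) (.ev
 (nat_lit 96) (nat_lit 39938904129544) .dd))))) (.br (nat_lit 17) (.br (nat_lit 16) (.ch (nat_lit 15) (.ev
 (nat_lit 52) (nat_lit 4675079245824) (.ev (nat_lit 84) (nat_lit 70368744275968) (.ev (nat_lit 116) (nat_lit 8)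
 (.nd (nat_lit 320) (.br (nat_lit 3) (.br (nat_lit 2) (.ch (nat_lit 1) (.ev (nat_lit 336) (nat_lit 12884901888)
 (.ev (nat_lit 646) (nat_lit 35184372088832) (.nd (nat_lit 832) (.br (nat_lit 6) (.br (nat_lit 3) (.br (nat_lit
 1) (.ch (nat_lit 0) (.ev (nat_lit 848) (nat_lit 68719476736) (.ev (nat_lit 861) (nat_lit 268435456) .dd)))
 (.ch (nat_lit 1) (.ev (nat_lit 848) (nat_lit 268435456) (.ev (nat_lit 861) (nat_lit 68719476736) .dd)))) (.br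
 (nat_lit 4) (.ch (nat_lit 3) (.ev (nat_lit 1108) (nat_lit 68719476736) (.ev (nat_lit 1117) (nat_lit 268435456)
 .dd))) (.ch (nat_lit 4) (.ev (nat_lit 848) (nat_lit 68987912192) .dd)))) (.br (nat_lit 10) (.br (nat_lit 8)
 (.ch (nat_lit 6) (.ev (nat_lit 848) (nat_lit 68719476736) (.ev (nat_lit 861) (nat_lit 268435456) .dd))) (.ch
 (nat_lit 8) (.ev (nat_lit 848) (nat_lit 68987912192) .dd))) (.br (nat_lit 11) (.ch (nat_lit 10) (.ev (nat_lit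
 848) (nat_lit 68719476736) (.ev (nat_lit 861) (nat_lit 268435456) .dd))) (.ch (nat_lit 11) (.ev (nat_lit 848)
 (nat_lit 68719476736) (.ev (nat_lit 861) (nat_lit 268435456) .dd)))))))))) (.ch (nat_lit 2) (.ev (nat_lit 336)
 (nat_lit 35253360001024) (.ev (nat_lit 368) (nat_lit 4294967296) (.ev (nat_lit 381) (nat_lit 8589934592)
 .dd))))) (.br (nat_lit 6) (.ch (nat_lit 3) (.ev (nat_lit 336) (nat_lit 35257654968320) (.ev (nat_lit 349)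
 (nat_lit 8589934592) .dd))) (.ch (nat_lit 6) (.ev (nat_lit 336) (nat_lit 13153337344) (.nd (nat_lit 832) (.br
 (nat_lit 4) (.br (nat_lit 1) (.ch (nat_lit 0) (.ev (nat_lit 848) (nat_lit 35184372088832) (.ev (nat_lit 861)
 (nat_lit 68719476736) .dd))) (.ch (nat_lit 1) (.ev (nat_lit 848) (nat_lit 35184372088832) (.ev (nat_lit 861)
 (nat_lit 68719476736) .dd)))) (.br (nat_lit 5) (.ch (nat_lit 4) (.ev (nat_lit 848) (nat_lit 68719476736) (.ev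
 (nat_lit 861) (nat_lit 35184372088832) .dd))) (.ch (nat_lit 5) (.ev (nat_lit 900) (nat_lit 35184372088832)
 (.ev (nat_lit 909) (nat_lit 68719476736) .dd))))))))))))))) (.ch (nat_lit 16) (.ev (nat_lit 52) (nat_lit
 105555263750144) (.ev (nat_lit 84) (nat_lit 68721573888) (.ev (nat_lit 116) (nat_lit 4096) (.nd (nat_lit 320)
 (.br (nat_lit 7) (.br (nat_lit 3) (.br (nat_lit 2) (.ch (nat_lit 1) (.ev (nat_lit 336) (nat_lit 12889161728)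
 (.ev (nat_lit 420) (nat_lit 274877906944) (.nd (nat_lit 832) (.br (nat_lit 6) (.br (nat_lit 3) (.ch (nat_lit
 0) (.ev (nat_lit 848) (nat_lit 4398047559680) (.ev (nat_lit 1284) (nat_lit 268435456) (.ev (nat_lit 1460)
 (nat_lit 32768) (.ev (nat_lit 1469) (nat_lit 8) .dd))))) (.br (nat_lit 5) (.ch (nat_lit 3) (.ev (nat_lit 848)
 (nat_lit 4398047592448) (.ev (nat_lit 1200) (nat_lit 268435456) (.ev (nat_lit 1213) (nat_lit 8) .dd)))) (.ch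
 (nat_lit 5) (.ev (nat_lit 848) (nat_lit 4398047592448) (.ev (nat_lit 1284) (nat_lit 268435456) (.ev (nat_lit
 1293) (nat_lit 8) .dd)))))) (.br (nat_lit 10) (.ch (nat_lit 6) (.ev (nat_lit 848) (nat_lit 4398046543872) (.ev
 (nat_lit 928) (nat_lit 1048576) (.ev (nat_lit 1188) (nat_lit 268435456) (.ev (nat_lit 1197) (nat_lit 8)
 .dd))))) (.br (nat_lit 11) (.ch (nat_lit 10) (.ev (nat_lit 848) (nat_lit 1048576) (.ev (nat_lit 900) (nat_lit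
 4398046511104) (.ev (nat_lit 1188) (nat_lit 268435456) (.ev (nat_lit 1460) (nat_lit 8) (.ev (nat_lit 1469)
 (nat_lit 32768) .dd)))))) (.ch (nat_lit 11) (.ev (nat_lit 848) (nat_lit 4398047592448) (.ev (nat_lit 1380)
 (nat_lit 268435456) (.ev (nat_lit 1389) (nat_lit 8) .dd))))))))))) (.ch (nat_lit 2) (.ev (nat_lit 336)
 (nat_lit 4398315995144) (.ev (nat_lit 432) (nat_lit 32768) (.nd (nat_lit 832) (.br (nat_lit 5) (.br (nat_lit
 2) (.ch (nat_lit 0) (.ev (nat_lit 848) (nat_lit 12889096192) (.ev (nat_lit 1072) (nat_lit 65536) (.ev (nat_lit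
 1085) (nat_lit 274877906944) .dd)))) (.br (nat_lit 3) (.ch (nat_lit 2) (.ev (nat_lit 848) (nat_lit
 274882101248) (.ev (nat_lit 900) (nat_lit 8589934592) (.ev (nat_lit 928) (nat_lit 4294967296) (.ev (nat_lit
 941) (nat_lit 65536) .dd))))) (.ch (nat_lit 3) (.ev (nat_lit 848) (nat_lit 12884901888) (.ev (nat_lit 1012)
 (nat_lit 274877906944) (.ev (nat_lit 1188) (nat_lit 65536) (.ev (nat_lit 1197) (nat_lit 4194304) .dd)))))))
 (.br (nat_lit 7) (.ch (nat_lit 5) (.ev (nat_lit 848) (nat_lit 287762808832) (.ev (nat_lit 900) (nat_lit 65536)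
 (.ev (nat_lit 909) (nat_lit 4194304) .dd)))) (.br (nat_lit 11) (.ch (nat_lit 7) (.ev (nat_lit 848) (nat_lit
 4299161600) (.ev (nat_lit 1012) (nat_lit 8589934592) (.ev (nat_lit 1108) (nat_lit 274877906944) (.ev (nat_lit
 1117) (nat_lit 65536) .dd))))) (.ch (nat_lit 11) (.ev (nat_lit 848) (nat_lit 287767003136) (.ev (nat_lit 861)
 (nat_lit 65536) .dd))))))))))) (.br (nat_lit 6) (.ch (nat_lit 3) (.ev (nat_lit 336) (nat_lit 12889194496) (.nd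
 (nat_lit 832) (.br (nat_lit 8) (.br (nat_lit 3) (.br (nat_lit 1) (.ch (nat_lit 0) (.ev (nat_lit 848) (nat_lit
 4398315995144) (.ev (nat_lit 861) (nat_lit 274877906944) .dd))) (.ch (nat_lit 1) (.ev (nat_lit 848) (nat_lit
 4398046511112) (.ev (nat_lit 900) (nat_lit 268435456) (.ev (nat_lit 1012) (nat_lit 1048576) (.ev (nat_lit
 1021) (nat_lit 274877906944) .dd)))))) (.br (nat_lit 5) (.ch (nat_lit 3) (.ev (nat_lit 848) (nat_lit
 4398315995144) (.ev (nat_lit 861) (nat_lit 274877906944) .dd))) (.ch (nat_lit 5) (.ev (nat_lit 848) (nat_lit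
 4673193902088) .dd)))) (.br (nat_lit 10) (.br (nat_lit 9) (.ch (nat_lit 8) (.ev (nat_lit 848) (nat_lit
 275146342408) (.ev (nat_lit 928) (nat_lit 1048576) (.ev (nat_lit 941) (nat_lit 4398046511104) .dd)))) (.ch
 (nat_lit 9) (.ev (nat_lit 848) (nat_lit 4672925466624) (.ev (nat_lit 1216) (nat_lit 8) (.ev (nat_lit 1229)
 (nat_lit 268435456) .dd))))) (.br (nat_lit 11) (.ch (nat_lit 10) (.ev (nat_lit 848) (nat_lit 8) (.ev (nat_lit
 900) (nat_lit 4398046511104) (.ev (nat_lit 1056) (nat_lit 274878955520) (.ev (nat_lit 1069) (nat_lit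
 268435456) .dd))))) (.ch (nat_lit 11) (.ev (nat_lit 848) (nat_lit 4398315995136) (.ev (nat_lit 864) (nat_lit
 274877906944) (.ev (nat_lit 877) (nat_lit 8) .dd)))))))))) (.ch (nat_lit 6) (.ev (nat_lit 336) (nat_lit
 275147390976) (.ev (nat_lit 420) (nat_lit 4294967296) (.nd (nat_lit 832) (.br (nat_lit 5) (.br (nat_lit 3)
 (.br (nat_lit 2) (.ch (nat_lit 0) (.ev (nat_lit 848) (nat_lit 4292608) (.ev (nat_lit 900) (nat_lit 8589934592)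
 (.ev (nat_lit 976) (nat_lit 8) (.ev (nat_lit 989) (nat_lit 4398046511104) .dd))))) (.ch (nat_lit 2) (.ev
 (nat_lit 848) (nat_lit 4406640705536) (.ev (nat_lit 864) (nat_lit 32776) .dd)))) (.br (nat_lit 4) (.ch
 (nat_lit 3) (.ev (nat_lit 848) (nat_lit 8594161664) (.ev (nat_lit 1200) (nat_lit 4398046511104) (.ev (nat_lit
 1284) (nat_lit 8) (.ev (nat_lit 1293) (nat_lit 65536) .dd))))) (.ch (nat_lit 4) (.ev (nat_lit 848) (nat_lit
 8594227200) (.ev (nat_lit 1188) (nat_lit 8) (.ev (nat_lit 1197) (nat_lit 4398046511104) .dd)))))) (.br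
 (nat_lit 9) (.br (nat_lit 6) (.ch (nat_lit 5) (.ev (nat_lit 848) (nat_lit 4398046511112) (.ev (nat_lit 944)
 (nat_lit 65536) (.ev (nat_lit 1188) (nat_lit 8589967360) (.ev (nat_lit 1197) (nat_lit 4194304) .dd))))) (.ch
 (nat_lit 6) (.ev (nat_lit 848) (nat_lit 4406640640008) (.ev (nat_lit 1012) (nat_lit 65536) (.ev (nat_lit 1021)
 (nat_lit 32768) .dd))))) (.br (nat_lit 11) (.ch (nat_lit 9) (.ev (nat_lit 848) (nat_lit 4406640705544) (.ev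
 (nat_lit 861) (nat_lit 32768) .dd))) (.ch (nat_lit 11) (.ev (nat_lit 848) (nat_lit 8594194432) (.ev (nat_lit
 1188) (nat_lit 4398046511104) (.fin (nat_lit 576440411305230918)))))))))))))) (.br (nat_lit 9) (.br (nat_lit
 8) (.ch (nat_lit 7) (.ev (nat_lit 336) (nat_lit 4406640640008) (.nd (nat_lit 832) (.br (nat_lit 8) (.br
 (nat_lit 3) (.ch (nat_lit 2) (.ev (nat_lit 848) (nat_lit 4564516864) (.ev (nat_lit 1012) (nat_lit
 274877906944) (.ev (nat_lit 1021) (nat_lit 32768) .dd)))) (.ch (nat_lit 3) (.ev (nat_lit 848) (nat_lit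
 279174021120) (.ev (nat_lit 861) (nat_lit 268435456) .dd)))) (.br (nat_lit 9) (.ch (nat_lit 8) (.ev (nat_lit
 848) (nat_lit 279442358272) (.ev (nat_lit 864) (nat_lit 32768) (.ev (nat_lit 877) (nat_lit 65536) .dd)))) (.br
 (nat_lit 12) (.ch (nat_lit 9) (.ev (nat_lit 848) (nat_lit 268533760) (.ev (nat_lit 1460) (nat_lit
 274877906944) (.nd (nat_lit 1761) (.ch (nat_lit 11) (.nd (nat_lit 1792) (.br (nat_lit 5) (.ch (nat_lit 1)
 (.fin (nat_lit 576460202550182465))) (.ch (nat_lit 5) (.ev (nat_lit 1808) (nat_lit 4296015872) .dd)))))))))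
 (.ch (nat_lit 12) (.ev (nat_lit 848) (nat_lit 279173922816) (.ev (nat_lit 1024) (nat_lit 32768) (.fin (nat_lit
 576487690345071142))))))))))) (.ch (nat_lit 8) (.ev (nat_lit 336) (nat_lit 275147489280) (.nd (nat_lit 832)
 (.br (nat_lit 6) (.br (nat_lit 4) (.ch (nat_lit 0) (.ev (nat_lit 848) (nat_lit 12884901896) (.ev (nat_lit 900)
 (nat_lit 4194304) (.ev (nat_lit 909) (nat_lit 4398046511104) .dd)))) (.br (nat_lit 5) (.ch (nat_lit 4) (.ev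
 (nat_lit 848) (nat_lit 4398046511112) (.ev (nat_lit 900) (nat_lit 8594128896) (.ev (nat_lit 909) (nat_lit
 4294967296) .dd)))) (.ch (nat_lit 5) (.ev (nat_lit 848) (nat_lit 8589934600) (.ev (nat_lit 1108) (nat_lit
 4299161600) (.ev (nat_lit 1117) (nat_lit 4398046511104) .dd)))))) (.br (nat_lit 9) (.br (nat_lit 7) (.ch
 (nat_lit 6) (.ev (nat_lit 848) (nat_lit 4410935607296) (.ev (nat_lit 861) (nat_lit 8) .dd))) (.ch (nat_lit 7)
 (.ev (nat_lit 848) (nat_lit 4402341478408) (.ev (nat_lit 1012) (nat_lit 8589934592) (.ev (nat_lit 1021)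
 (nat_lit 4194304) .dd))))) (.br (nat_lit 12) (.ch (nat_lit 9) (.ev (nat_lit 848) (nat_lit 4410935607296) (.ev
 (nat_lit 861) (nat_lit 8) .dd))) (.ch (nat_lit 12) (.ev (nat_lit 848) (nat_lit 4398046511112) (.ev (nat_lit
 864) (nat_lit 8589934592) (.ev (nat_lit 900) (nat_lit 4194304) (.ev (nat_lit 909) (nat_lit 4294967296)
 .dd)))))))))))) (.br (nat_lit 11) (.ch (nat_lit 9) (.ev (nat_lit 336) (nat_lit 288032391176) (.ev (nat_lit
 352) (nat_lit 4194304) (.ev (nat_lit 365) (nat_lit 4398046511104) .dd)))) (.ch (nat_lit 11) (.ev (nat_lit 336)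
 (nat_lit 4686082048008) (.ev (nat_lit 349) (nat_lit 1048576) .dd)))))))))))) (.br (nat_lit 18) (.ch (nat_lit
 17) (.ev (nat_lit 52) (nat_lit 8591048712) (.ev (nat_lit 84) (nat_lit 68719476736) (.nd (nat_lit 320) (.br
 (nat_lit 6) (.br (nat_lit 1) (.ch (nat_lit 0) (.ev (nat_lit 336) (nat_lit 35465960914944) (.nd (nat_lit 832)
 (.br (nat_lit 5) (.br (nat_lit 2) (.ch (nat_lit 1) (.ev (nat_lit 848) (nat_lit 4096) (.ev (nat_lit 900)
 (nat_lit 4398046511104) (.ev (nat_lit 1392) (nat_lit 2097152) (.fin (nat_lit 576453605455249946)))))) (.br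
 (nat_lit 4) (.ch (nat_lit 2) (.ev (nat_lit 848) (nat_lit 74766794883072) (.ev (nat_lit 960) (nat_lit 2101248)
 .dd))) (.ch (nat_lit 4) (.ev (nat_lit 848) (nat_lit 70368746278912) (.ev (nat_lit 900) (nat_lit 4398046511104)
 (.ev (nat_lit 909) (nat_lit 4194304) .dd)))))) (.br (nat_lit 7) (.ch (nat_lit 5) (.ev (nat_lit 848) (nat_lit
 74766796980224) (.ev (nat_lit 861) (nat_lit 4096) .dd))) (.br (nat_lit 12) (.ch (nat_lit 7) (.ev (nat_lit 848)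
 (nat_lit 74766796984320) .dd)) (.ch (nat_lit 12) (.ev (nat_lit 848) (nat_lit 4398048612352) (.ev (nat_lit 900)
 (nat_lit 70368744177664) (.ev (nat_lit 909) (nat_lit 4194304) .dd)))))))))) (.br (nat_lit 3) (.ch (nat_lit 1)
 (.ev (nat_lit 336) (nat_lit 4677225680896) (.nd (nat_lit 832) (.br (nat_lit 4) (.br (nat_lit 3) (.ch (nat_lit
 1) (.ev (nat_lit 848) (nat_lit 105555532218368) .dd)) (.ch (nat_lit 3) (.ev (nat_lit 848) (nat_lit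
 35186788040704) (.ev (nat_lit 861) (nat_lit 70368744177664) .dd)))) (.br (nat_lit 8) (.ch (nat_lit 4) (.ev
 (nat_lit 848) (nat_lit 105555532218368) .dd)) (.br (nat_lit 11) (.ch (nat_lit 8) (.ev (nat_lit 848) (nat_lit
 268435456) (.ev (nat_lit 944) (nat_lit 32768) (.ev (nat_lit 1056) (nat_lit 2147483648) (.ev (nat_lit 1072)
 (nat_lit 35184372088832) (.ev (nat_lit 1085) (nat_lit 70368744177664) .dd)))))) (.ch (nat_lit 11) (.ev
 (nat_lit 848) (nat_lit 70368744177664) (.ev (nat_lit 1188) (nat_lit 268435456) (.ev (nat_lit 1284) (nat_lit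
 2147483648) (.nd (nat_lit 1761) (.ch (nat_lit 3) (.nd (nat_lit 1792) (.br (nat_lit 9) (.ch (nat_lit 2) (.ev
 (nat_lit 1808) (nat_lit 35184372121600) .dd)) (.ch (nat_lit 9) (.fin (nat_lit
 576465700185915920))))))))))))))))) (.ch (nat_lit 3) (.ev (nat_lit 336) (nat_lit 35463551258624) (.nd (nat_lit
 832) (.br (nat_lit 8) (.br (nat_lit 1) (.ch (nat_lit 0) (.ev (nat_lit 848) (nat_lit 4400462462976) (.ev
 (nat_lit 861) (nat_lit 70368744177664) .dd))) (.ch (nat_lit 1) (.ev (nat_lit 848) (nat_lit 4398046543872) (.ev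
 (nat_lit 900) (nat_lit 2147483648) (.ev (nat_lit 1072) (nat_lit 268435456) (.ev (nat_lit 1085) (nat_lit
 70368744177664) .dd)))))) (.br (nat_lit 10) (.ch (nat_lit 8) (.ev (nat_lit 848) (nat_lit 70371160129536) (.ev
 (nat_lit 861) (nat_lit 4398046511104) .dd))) (.br (nat_lit 12) (.ch (nat_lit 10) (.ev (nat_lit 848) (nat_lit
 2415951872) (.ev (nat_lit 900) (nat_lit 4398046511104) (.ev (nat_lit 909) (nat_lit 70368744177664) .dd))))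
 (.ch (nat_lit 12) (.ev (nat_lit 848) (nat_lit 74766790688768) (.ev (nat_lit 900) (nat_lit 32768) (.ev (nat_lit
 1108) (nat_lit 268435456) (.ev (nat_lit 1117) (nat_lit 2147483648) .dd))))))))))))) (.br (nat_lit 9) (.br
 (nat_lit 7) (.ch (nat_lit 6) (.ev (nat_lit 336) (nat_lit 35465962983424) (.nd (nat_lit 832) (.br (nat_lit 4)
 (.ch (nat_lit 2) (.ev (nat_lit 848) (nat_lit 74766790688768) (.ev (nat_lit 1012) (nat_lit 4194304) (.ev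
 (nat_lit 1021) (nat_lit 32768) .dd)))) (.br (nat_lit 11) (.ch (nat_lit 4) (.ev (nat_lit 848) (nat_lit
 4398046543872) (.ev (nat_lit 900) (nat_lit 4194304) (.ev (nat_lit 909) (nat_lit 70368744177664) .dd)))) (.ch
 (nat_lit 11) (.ev (nat_lit 848) (nat_lit 70368748404736) (.ev (nat_lit 861) (nat_lit 4398046511104)
 .dd)))))))) (.ch (nat_lit 7) (.ev (nat_lit 336) (nat_lit 109951166976000) (.ev (nat_lit 420) (nat_lit
 274877906944) (.nd (nat_lit 832) (.br (nat_lit 8) (.br (nat_lit 2) (.ch (nat_lit 0) (.ev (nat_lit 848)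
 (nat_lit 4297064448) (.ev (nat_lit 992) (nat_lit 2147483648) (.ev (nat_lit 1012) (nat_lit 268435456) (.ev
 (nat_lit 1021) (nat_lit 32768) .dd))))) (.br (nat_lit 4) (.ch (nat_lit 2) (.ev (nat_lit 848) (nat_lit
 4297064448) (.ev (nat_lit 900) (nat_lit 32768) (.ev (nat_lit 1012) (nat_lit 2147483648) (.ev (nat_lit 1021)
 (nat_lit 268435456) .dd))))) (.ch (nat_lit 4) (.ev (nat_lit 848) (nat_lit 2415919104) (.ev (nat_lit 1012)
 (nat_lit 4294967296) (.ev (nat_lit 1284) (nat_lit 32768) (.ev (nat_lit 1293) (nat_lit 2097152) .dd))))))) (.br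
 (nat_lit 10) (.ch (nat_lit 8) (.ev (nat_lit 848) (nat_lit 2418016256) (.ev (nat_lit 900) (nat_lit 32768) (.ev
 (nat_lit 909) (nat_lit 4294967296) .dd)))) (.br (nat_lit 12) (.ch (nat_lit 10) (.ev (nat_lit 848) (nat_lit
 6710886400) (.ev (nat_lit 1108) (nat_lit 2097152) (.ev (nat_lit 1117) (nat_lit 32768) .dd)))) (.ch (nat_lit
 12) (.ev (nat_lit 848) (nat_lit 2418016256) (.ev (nat_lit 900) (nat_lit 4294967296) (.ev (nat_lit 909)
 (nat_lit 32768) .dd)))))))))))) (.br (nat_lit 11) (.ch (nat_lit 9) (.ev (nat_lit 336) (nat_lit 39863741091840)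
 (.nd (nat_lit 832) (.br (nat_lit 10) (.br (nat_lit 6) (.ch (nat_lit 4) (.ev (nat_lit 848) (nat_lit
 70369016807424) .dd)) (.ch (nat_lit 6) (.ev (nat_lit 848) (nat_lit 70368744177664) (.ev (nat_lit 1108)
 (nat_lit 4194304) (.ev (nat_lit 1117) (nat_lit 268435456) .dd))))) (.br (nat_lit 11) (.ch (nat_lit 10) (.ev
 (nat_lit 848) (nat_lit 70369016807424) .dd)) (.ch (nat_lit 11) (.ev (nat_lit 848) (nat_lit 268435456) (.ev
 (nat_lit 1108) (nat_lit 4194304) (.ev (nat_lit 1117) (nat_lit 70368744177664) .dd))))))))) (.ch (nat_lit 11)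
 (.ev (nat_lit 336) (nat_lit 75048383709184) (.nd (nat_lit 832) (.br (nat_lit 10) (.br (nat_lit 2) (.ch
 (nat_lit 0) (.ev (nat_lit 848) (nat_lit 2101248) (.ev (nat_lit 861) (nat_lit 35184372088832) .dd))) (.br
 (nat_lit 8) (.ch (nat_lit 2) (.ev (nat_lit 848) (nat_lit 35184372088832) (.ev (nat_lit 1200) (nat_lit 4096)
 (.ev (nat_lit 1213) (nat_lit 2097152) .dd)))) (.ch (nat_lit 8) (.ev (nat_lit 848) (nat_lit 35184374185984)
 (.ev (nat_lit 861) (nat_lit 4096) .dd))))) (.br (nat_lit 11) (.ch (nat_lit 10) (.ev (nat_lit 848) (nat_lit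
 35184372092928) (.ev (nat_lit 861) (nat_lit 2097152) .dd))) (.br (nat_lit 12) (.ch (nat_lit 11) (.ev (nat_lit
 848) (nat_lit 2097152) (.fin (nat_lit 576426117714887156)))) (.ch (nat_lit 12) (.ev (nat_lit 848) (nat_lit
 35184374185984) (.ev (nat_lit 861) (nat_lit 4096) .dd)))))))))))))))) (.ch (nat_lit 18) (.ev (nat_lit 52)
 (nat_lit 4563501064) (.ev (nat_lit 228) (nat_lit 1048576) (.nd (nat_lit 320) (.br (nat_lit 2) (.br (nat_lit 1)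
 (.ch (nat_lit 0) (.ev (nat_lit 336) (nat_lit 35530119057408) (.nd (nat_lit 832) (.br (nat_lit 6) (.br (nat_lit
 5) (.ch (nat_lit 4) (.ev (nat_lit 848) (nat_lit 4406636445696) (.ev (nat_lit 1024) (nat_lit 4194304) (.ev
 (nat_lit 1037) (nat_lit 70368744177664) .dd)))) (.ch (nat_lit 5) (.ev (nat_lit 848) (nat_lit 74766794883072)
 (.ev (nat_lit 861) (nat_lit 8589934592) .dd)))) (.br (nat_lit 7) (.ch (nat_lit 6) (.ev (nat_lit 848) (nat_lit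
 8589934592) (.ev (nat_lit 900) (nat_lit 70368744177664) (.ev (nat_lit 1012) (nat_lit 4398046511104) (.ev
 (nat_lit 1021) (nat_lit 4194304) .dd))))) (.br (nat_lit 12) (.ch (nat_lit 7) (.ev (nat_lit 848) (nat_lit
 70377338306560) (.ev (nat_lit 861) (nat_lit 4398046511104) .dd))) (.ch (nat_lit 12) (.ev (nat_lit 848)
 (nat_lit 8594128896) (.ev (nat_lit 960) (nat_lit 70368744177664) (.ev (nat_lit 973) (nat_lit 4398046511104)
 .dd)))))))))) (.ch (nat_lit 1) (.ev (nat_lit 336) (nat_lit 70370897956864) (.ev (nat_lit 806) (nat_lit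
 35184372088832) (.nd (nat_lit 832) (.br (nat_lit 5) (.br (nat_lit 4) (.ch (nat_lit 1) (.ev (nat_lit 848)
 (nat_lit 4672924418048) (.ev (nat_lit 900) (nat_lit 68719476736) (.ev (nat_lit 909) (nat_lit 8589934592)
 .dd)))) (.ch (nat_lit 4) (.ev (nat_lit 1012) (nat_lit 68719476736) (.ev (nat_lit 1108) (nat_lit 274877906944)
 (.ev (nat_lit 1136) (nat_lit 4406636445696) .dd))))) (.br (nat_lit 10) (.ch (nat_lit 5) (.ev (nat_lit 848)
 (nat_lit 352187318272) (.ev (nat_lit 861) (nat_lit 4398046511104) .dd))) (.br (nat_lit 11) (.ch (nat_lit 10)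
 (.ev (nat_lit 848) (nat_lit 343597383680) (.ev (nat_lit 900) (nat_lit 8589934592) (.ev (nat_lit 909) (nat_lit
 4398046511104) .dd)))) (.ch (nat_lit 11) (.ev (nat_lit 848) (nat_lit 4475355922432) (.ev (nat_lit 861)
 (nat_lit 274877906944) .dd))))))))))) (.br (nat_lit 3) (.ch (nat_lit 2) (.ev (nat_lit 336) (nat_lit
 75050260627456) (.nd (nat_lit 832) (.br (nat_lit 7) (.br (nat_lit 2) (.ch (nat_lit 1) (.ev (nat_lit 848)
 (nat_lit 2147487744) (.ev (nat_lit 900) (nat_lit 4194304) (.fin (nat_lit 576440411311522383))))) (.br (nat_lit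
 6) (.ch (nat_lit 2) (.ev (nat_lit 848) (nat_lit 2147483648) (.ev (nat_lit 900) (nat_lit 4198400) (.ev (nat_lit
 1472) (nat_lit 35253091565568) .dd)))) (.ch (nat_lit 6) (.ev (nat_lit 848) (nat_lit 35184376283136) (.ev
 (nat_lit 1012) (nat_lit 68719476736) (.nd (nat_lit 1761) (.ch (nat_lit 25) (.nd (nat_lit 1792) (.br (nat_lit
 6) (.ch (nat_lit 4) (.fin (nat_lit 576460202548085310))) (.ch (nat_lit 6) (.ev (nat_lit 1808) (nat_lit
 2147487744) .dd))))))))))) (.br (nat_lit 11) (.ch (nat_lit 7) (.ev (nat_lit 848) (nat_lit 35253095763968) (.ev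
 (nat_lit 861) (nat_lit 2147483648) .dd))) (.br (nat_lit 12) (.ch (nat_lit 11) (.ev (nat_lit 848) (nat_lit
 68719480832) (.ev (nat_lit 864) (nat_lit 35184372088832) (.ev (nat_lit 1108) (nat_lit 2147483648) (.ev
 (nat_lit 1117) (nat_lit 4194304) .dd))))) (.ch (nat_lit 12) (.ev (nat_lit 848) (nat_lit 70866960384) (.ev
 (nat_lit 900) (nat_lit 4194304) (.ev (nat_lit 1040) (nat_lit 4096) (.ev (nat_lit 1053) (nat_lit
 35184372088832) .dd))))))))))) (.br (nat_lit 8) (.ch (nat_lit 3) (.ev (nat_lit 336) (nat_lit 105632577359872)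
 (.nd (nat_lit 832) (.br (nat_lit 8) (.br (nat_lit 5) (.ch (nat_lit 0) (.ev (nat_lit 848) (nat_lit
 4398048608256) (.ev (nat_lit 861) (nat_lit 274877906944) .dd))) (.ch (nat_lit 5) (.ev (nat_lit 848) (nat_lit
 274880004096) (.ev (nat_lit 861) (nat_lit 4398046511104) .dd)))) (.br (nat_lit 9) (.ch (nat_lit 8) (.ev
 (nat_lit 848) (nat_lit 4672926515200) .dd)) (.br (nat_lit 10) (.ch (nat_lit 9) (.ev (nat_lit 848) (nat_lit
 4672924418048) (.ev (nat_lit 861) (nat_lit 2097152) .dd))) (.ch (nat_lit 10) (.ev (nat_lit 848) (nat_lit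
 4398046511104) (.ev (nat_lit 900) (nat_lit 2097152) (.ev (nat_lit 909) (nat_lit 274877906944) .dd))))))))))
 (.ch (nat_lit 8) (.ev (nat_lit 336) (nat_lit 39928163471360) (.nd (nat_lit 832) (.br (nat_lit 4) (.br (nat_lit
 2) (.ch (nat_lit 0) (.ev (nat_lit 848) (nat_lit 70368750469120) (.ev (nat_lit 861) (nat_lit 8589934592) .dd)))
 (.ch (nat_lit 2) (.ev (nat_lit 848) (nat_lit 8594128896) (.fin (nat_lit 576434913742897706))))) (.br (nat_lit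
 7) (.ch (nat_lit 4) (.ev (nat_lit 848) (nat_lit 70368746274816) (.ev (nat_lit 1012) (nat_lit 8589934592) (.ev
 (nat_lit 1021) (nat_lit 4194304) .dd)))) (.br (nat_lit 10) (.ch (nat_lit 7) (.ev (nat_lit 848) (nat_lit
 6291456) (.ev (nat_lit 900) (nat_lit 70368744177664) (.ev (nat_lit 909) (nat_lit 8589934592) .dd)))) (.ch
 (nat_lit 10) (.ev (nat_lit 848) (nat_lit 70377334112256) (.ev (nat_lit 944) (nat_lit 4194304) (.ev (nat_lit
 957) (nat_lit 2097152) .dd))))))))))))))))))))) (.br (nat_lit 26) (.br (nat_lit 22) (.br (nat_lit 20) (.ch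
 (nat_lit 19) (.ev (nat_lit 52) (nat_lit 8589971464) (.ev (nat_lit 84) (nat_lit 274877906944) (.nd (nat_lit
 320) (.br (nat_lit 6) (.br (nat_lit 2) (.ch (nat_lit 0) (.ev (nat_lit 336) (nat_lit 105628281405440) (.nd
 (nat_lit 832) (.br (nat_lit 6) (.br (nat_lit 2) (.ch (nat_lit 1) (.ev (nat_lit 848) (nat_lit 4194304) (.ev
 (nat_lit 1108) (nat_lit 268435456) (.ev (nat_lit 1117) (nat_lit 4398046511104) .dd)))) (.ch (nat_lit 2) (.ev
 (nat_lit 848) (nat_lit 4398319140864) .dd))) (.br (nat_lit 8) (.ch (nat_lit 6) (.ev (nat_lit 848) (nat_lit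
 4398046511104) (.ev (nat_lit 1108) (nat_lit 268435456) (.ev (nat_lit 1117) (nat_lit 4194304) .dd)))) (.ch
 (nat_lit 8) (.ev (nat_lit 848) (nat_lit 4398319140864) .dd))))))) (.br (nat_lit 3) (.ch (nat_lit 2) (.ev
 (nat_lit 336) (nat_lit 74767062269952) (.ev (nat_lit 420) (nat_lit 68719476736) (.nd (nat_lit 832) (.br
 (nat_lit 5) (.br (nat_lit 2) (.ch (nat_lit 0) (.ev (nat_lit 848) (nat_lit 35186519572480) (.ev (nat_lit 900)
 (nat_lit 65536) (.ev (nat_lit 1012) (nat_lit 4294967296) (.ev (nat_lit 1021) (nat_lit 4194304) .dd))))) (.br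
 (nat_lit 3) (.ch (nat_lit 2) (.ev (nat_lit 848) (nat_lit 35186519572480) (.ev (nat_lit 992) (nat_lit
 4294967296) (.ev (nat_lit 1012) (nat_lit 4194304) (.ev (nat_lit 1021) (nat_lit 65536) .dd))))) (.ch (nat_lit
 3) (.ev (nat_lit 848) (nat_lit 35188671250432) (.ev (nat_lit 900) (nat_lit 2147483648) (.ev (nat_lit 909)
 (nat_lit 65536) .dd)))))) (.br (nat_lit 7) (.ch (nat_lit 5) (.ev (nat_lit 848) (nat_lit 6446645248) (.ev
 (nat_lit 1108) (nat_lit 35184372088832) (.ev (nat_lit 1117) (nat_lit 65536) .dd)))) (.br (nat_lit 11) (.ch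
 (nat_lit 7) (.ev (nat_lit 848) (nat_lit 35188671250432) (.ev (nat_lit 900) (nat_lit 65536) (.ev (nat_lit 909)
 (nat_lit 2147483648) .dd)))) (.ch (nat_lit 11) (.ev (nat_lit 848) (nat_lit 4299161600) (.ev (nat_lit 1012)
 (nat_lit 2147483648) (.ev (nat_lit 1284) (nat_lit 65536) (.ev (nat_lit 1293) (nat_lit 35184372088832)
 .dd)))))))))))) (.ch (nat_lit 3) (.ev (nat_lit 336) (nat_lit 35259541356544) (.nd (nat_lit 832) (.br (nat_lit
 10) (.ch (nat_lit 3) (.ev (nat_lit 848) (nat_lit 4398315012096) (.ev (nat_lit 861) (nat_lit 70368744177664)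
 .dd))) (.br (nat_lit 12) (.ch (nat_lit 10) (.ev (nat_lit 848) (nat_lit 70368744243200) (.ev (nat_lit 900)
 (nat_lit 268435456) (.ev (nat_lit 909) (nat_lit 4398046511104) .dd)))) (.ch (nat_lit 12) (.ev (nat_lit 848)
 (nat_lit 74766790688768) (.ev (nat_lit 1012) (nat_lit 268435456) (.ev (nat_lit 1021) (nat_lit 65536)
 .dd))))))))))) (.br (nat_lit 9) (.br (nat_lit 8) (.ch (nat_lit 6) (.ev (nat_lit 336) (nat_lit 35255510630400)
 (.nd (nat_lit 832) (.br (nat_lit 2) (.br (nat_lit 1) (.ch (nat_lit 0) (.ev (nat_lit 848) (nat_lit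
 70368744243200) (.ev (nat_lit 900) (nat_lit 4294967296) (.ev (nat_lit 1072) (nat_lit 4194304) (.ev (nat_lit
 1085) (nat_lit 4398046511104) .dd))))) (.ch (nat_lit 1) (.ev (nat_lit 848) (nat_lit 70373043404800) (.ev
 (nat_lit 861) (nat_lit 4398046511104) .dd)))) (.br (nat_lit 4) (.ch (nat_lit 2) (.ev (nat_lit 848) (nat_lit
 74766790688768) (.ev (nat_lit 900) (nat_lit 65536) (.ev (nat_lit 1108) (nat_lit 4194304) (.ev (nat_lit 1117)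
 (nat_lit 4294967296) .dd))))) (.br (nat_lit 6) (.ch (nat_lit 4) (.ev (nat_lit 848) (nat_lit 4299227136) (.ev
 (nat_lit 900) (nat_lit 70368744177664) (.ev (nat_lit 909) (nat_lit 4398046511104) .dd)))) (.ch (nat_lit 6)
 (.ev (nat_lit 848) (nat_lit 4402345738240) (.ev (nat_lit 861) (nat_lit 70368744177664) .dd))))))))) (.ch
 (nat_lit 8) (.ev (nat_lit 336) (nat_lit 105624252710912) (.nd (nat_lit 832) (.br (nat_lit 7) (.br (nat_lit 6)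
 (.ch (nat_lit 2) (.ev (nat_lit 848) (nat_lit 4194304) (.ev (nat_lit 944) (nat_lit 65536) (.ev (nat_lit 1056)
 (nat_lit 4294967296) (.ev (nat_lit 1072) (nat_lit 2097152) (.ev (nat_lit 1085) (nat_lit 4398046511104)
 .dd)))))) (.ch (nat_lit 6) (.ev (nat_lit 848) (nat_lit 4402347835392) .dd))) (.br (nat_lit 9) (.ch (nat_lit 7)
 (.ev (nat_lit 848) (nat_lit 4301324288) (.ev (nat_lit 861) (nat_lit 4398046511104) .dd))) (.br (nat_lit 12)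
 (.ch (nat_lit 9) (.ev (nat_lit 848) (nat_lit 4402347835392) .dd)) (.ch (nat_lit 12) (.ev (nat_lit 848)
 (nat_lit 4398046511104) (.ev (nat_lit 1188) (nat_lit 4194304) (.ev (nat_lit 1284) (nat_lit 4294967296) (.nd
 (nat_lit 1761) (.ch (nat_lit 1) (.nd (nat_lit 1792) (.br (nat_lit 11) (.ch (nat_lit 4) (.fin (nat_lit
 576465700028629620))) (.ch (nat_lit 11) (.ev (nat_lit 1808) (nat_lit 2162688) .dd))))))))))))))))) (.br
 (nat_lit 11) (.ch (nat_lit 9) (.ev (nat_lit 336) (nat_lit 75168284672) (.nd (nat_lit 832) (.br (nat_lit 8)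
 (.br (nat_lit 5) (.ch (nat_lit 0) (.ev (nat_lit 848) (nat_lit 105553117315072) (.ev (nat_lit 900) (nat_lit
 4398046511104) (.ev (nat_lit 909) (nat_lit 268435456) .dd)))) (.br (nat_lit 7) (.ch (nat_lit 5) (.ev (nat_lit
 848) (nat_lit 109951432261632) .dd)) (.ch (nat_lit 7) (.ev (nat_lit 848) (nat_lit 109951431213056) (.ev
 (nat_lit 861) (nat_lit 1048576) .dd))))) (.br (nat_lit 10) (.ch (nat_lit 8) (.ev (nat_lit 848) (nat_lit
 39582419648512) (.ev (nat_lit 900) (nat_lit 70368744177664) (.ev (nat_lit 909) (nat_lit 268435456) .dd))))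
 (.br (nat_lit 11) (.ch (nat_lit 10) (.ev (nat_lit 848) (nat_lit 74767059124224) (.ev (nat_lit 960) (nat_lit
 35184373137408) .dd))) (.ch (nat_lit 11) (.ev (nat_lit 848) (nat_lit 1048576) (.ev (nat_lit 900) (nat_lit
 70368744177664) (.ev (nat_lit 1392) (nat_lit 35184372088832) (.fin (nat_lit 576453605503484511))))))))))))
 (.ch (nat_lit 11) (.ev (nat_lit 336) (nat_lit 74842225311744) (.nd (nat_lit 832) (.br (nat_lit 10) (.br
 (nat_lit 2) (.ch (nat_lit 0) (.ev (nat_lit 848) (nat_lit 3145728) (.ev (nat_lit 861) (nat_lit 35184372088832)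
 .dd))) (.br (nat_lit 8) (.ch (nat_lit 2) (.ev (nat_lit 848) (nat_lit 35184374185984) (.ev (nat_lit 861)
 (nat_lit 1048576) .dd))) (.ch (nat_lit 8) (.ev (nat_lit 848) (nat_lit 2097152) (.ev (nat_lit 1200) (nat_lit
 1048576) (.ev (nat_lit 1213) (nat_lit 35184372088832) .dd)))))) (.br (nat_lit 11) (.ch (nat_lit 10) (.ev
 (nat_lit 848) (nat_lit 35184373137408) (.ev (nat_lit 861) (nat_lit 2097152) .dd))) (.br (nat_lit 12) (.ch
 (nat_lit 11) (.ev (nat_lit 848) (nat_lit 35184374185984) (.ev (nat_lit 861) (nat_lit 1048576) .dd))) (.ch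
 (nat_lit 12) (.ev (nat_lit 848) (nat_lit 35184372088832) (.fin (nat_lit 576426117662458476)))))))))))))))))
 (.br (nat_lit 21) (.ch (nat_lit 20) (.ev (nat_lit 52) (nat_lit 10741710848) (.ev (nat_lit 228) (nat_lit 4096)
 (.nd (nat_lit 320) (.br (nat_lit 7) (.br (nat_lit 6) (.ch (nat_lit 1) (.ev (nat_lit 336) (nat_lit
 70716639674368) (.nd (nat_lit 832) (.br (nat_lit 6) (.br (nat_lit 3) (.ch (nat_lit 0) (.ev (nat_lit 848)
 (nat_lit 4398046511112) (.ev (nat_lit 944) (nat_lit 268435456) (.ev (nat_lit 957) (nat_lit 35184372088832)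
 .dd)))) (.ch (nat_lit 3) (.ev (nat_lit 848) (nat_lit 35184640524288) (.ev (nat_lit 900) (nat_lit
 4398046511104) (.ev (nat_lit 909) (nat_lit 8) .dd))))) (.br (nat_lit 8) (.ch (nat_lit 6) (.ev (nat_lit 848)
 (nat_lit 39582418599936) (.ev (nat_lit 1012) (nat_lit 8) (.ev (nat_lit 1021) (nat_lit 268435456) .dd)))) (.br
 (nat_lit 10) (.ch (nat_lit 8) (.ev (nat_lit 848) (nat_lit 268435464) (.fin (nat_lit 576487690301030978))))
 (.ch (nat_lit 10) (.ev (nat_lit 848) (nat_lit 39582687035392) (.ev (nat_lit 861) (nat_lit 8) .dd))))))))) (.ch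
 (nat_lit 6) (.ev (nat_lit 336) (nat_lit 4677490966536) (.nd (nat_lit 832) (.br (nat_lit 5) (.br (nat_lit 4)
 (.ch (nat_lit 1) (.ev (nat_lit 848) (nat_lit 105553116266496) (.ev (nat_lit 861) (nat_lit 68719476736) .dd)))
 (.ch (nat_lit 4) (.ev (nat_lit 848) (nat_lit 70368744177664) (.ev (nat_lit 900) (nat_lit 68719476736) (.ev
 (nat_lit 909) (nat_lit 35184372088832) .dd))))) (.br (nat_lit 6) (.ch (nat_lit 5) (.ev (nat_lit 848) (nat_lit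
 70437463654400) (.ev (nat_lit 861) (nat_lit 35184372088832) .dd))) (.br (nat_lit 9) (.ch (nat_lit 6) (.ev
 (nat_lit 848) (nat_lit 105621835743232) .dd)) (.ch (nat_lit 9) (.ev (nat_lit 848) (nat_lit 35253091565568)
 (.ev (nat_lit 861) (nat_lit 70368744177664) .dd)))))))))) (.br (nat_lit 8) (.ch (nat_lit 7) (.ev (nat_lit 336)
 (nat_lit 110019882254344) (.nd (nat_lit 832) (.br (nat_lit 4) (.br (nat_lit 1) (.ch (nat_lit 0) (.ev (nat_lit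
 848) (nat_lit 4294967296) (.ev (nat_lit 900) (nat_lit 269484032) (.ev (nat_lit 1472) (nat_lit 274880004096)
 .dd)))) (.br (nat_lit 3) (.ch (nat_lit 1) (.ev (nat_lit 848) (nat_lit 4296015872) (.ev (nat_lit 900) (nat_lit
 268435456) (.fin (nat_lit 576440411368145438))))) (.ch (nat_lit 3) (.ev (nat_lit 848) (nat_lit 279172874240)
 (.ev (nat_lit 900) (nat_lit 268435456) (.ev (nat_lit 1040) (nat_lit 1048576) (.ev (nat_lit 1053) (nat_lit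
 2097152) .dd))))))) (.br (nat_lit 8) (.ch (nat_lit 4) (.ev (nat_lit 848) (nat_lit 274878955520) (.ev (nat_lit
 864) (nat_lit 2097152) (.ev (nat_lit 1108) (nat_lit 4294967296) (.ev (nat_lit 1117) (nat_lit 268435456)
 .dd))))) (.br (nat_lit 9) (.ch (nat_lit 8) (.ev (nat_lit 848) (nat_lit 275149488128) (.ev (nat_lit 861)
 (nat_lit 4294967296) .dd))) (.ch (nat_lit 9) (.ev (nat_lit 848) (nat_lit 270532608) (.ev (nat_lit 1012)
 (nat_lit 274877906944) (.nd (nat_lit 1761) (.ch (nat_lit 30) (.nd (nat_lit 1792) (.br (nat_lit 12) (.ch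
 (nat_lit 1) (.fin (nat_lit 576460202550182465))) (.ch (nat_lit 12) (.ev (nat_lit 1808) (nat_lit 4296015872)
 .dd))))))))))))))) (.br (nat_lit 9) (.ch (nat_lit 8) (.ev (nat_lit 336) (nat_lit 39586983051264) (.ev (nat_lit
 790) (nat_lit 2097152) (.nd (nat_lit 832) (.br (nat_lit 6) (.br (nat_lit 5) (.ch (nat_lit 0) (.ev (nat_lit
 848) (nat_lit 343597383680) (.ev (nat_lit 900) (nat_lit 8) (.ev (nat_lit 909) (nat_lit 70368744177664) .dd))))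
 (.ch (nat_lit 5) (.ev (nat_lit 848) (nat_lit 343597383688) (.ev (nat_lit 861) (nat_lit 70368744177664) .dd))))
 (.br (nat_lit 9) (.ch (nat_lit 6) (.ev (nat_lit 1012) (nat_lit 274877906944) (.ev (nat_lit 1108) (nat_lit
 68719476736) (.ev (nat_lit 1136) (nat_lit 70368744177672) .dd)))) (.br (nat_lit 12) (.ch (nat_lit 9) (.ev
 (nat_lit 848) (nat_lit 70437463654400) (.ev (nat_lit 900) (nat_lit 274877906944) (.ev (nat_lit 909) (nat_lit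
 8) .dd)))) (.ch (nat_lit 12) (.ev (nat_lit 848) (nat_lit 70643622084616) (.ev (nat_lit 861) (nat_lit
 68719476736) .dd)))))))))) (.ch (nat_lit 9) (.ev (nat_lit 336) (nat_lit 35532267585536) (.nd (nat_lit 832)
 (.br (nat_lit 6) (.br (nat_lit 5) (.ch (nat_lit 0) (.ev (nat_lit 848) (nat_lit 268435464) (.ev (nat_lit 960)
 (nat_lit 4398046511104) (.ev (nat_lit 973) (nat_lit 70368744177664) .dd)))) (.ch (nat_lit 5) (.ev (nat_lit
 848) (nat_lit 4398314946568) (.ev (nat_lit 861) (nat_lit 70368744177664) .dd)))) (.br (nat_lit 7) (.ch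
 (nat_lit 6) (.ev (nat_lit 848) (nat_lit 8) (.ev (nat_lit 900) (nat_lit 4398046511104) (.ev (nat_lit 1012)
 (nat_lit 70368744177664) (.ev (nat_lit 1021) (nat_lit 268435456) .dd))))) (.br (nat_lit 8) (.ch (nat_lit 7)
 (.ev (nat_lit 848) (nat_lit 74767059124224) (.ev (nat_lit 861) (nat_lit 8) .dd))) (.ch (nat_lit 8) (.ev
 (nat_lit 848) (nat_lit 70368744177672) (.ev (nat_lit 1024) (nat_lit 268435456) (.ev (nat_lit 1037) (nat_lit
 4398046511104) .dd))))))))))))))))) (.ch (nat_lit 21) (.ev (nat_lit 52) (nat_lit 74775380688896) (.ev (nat_lit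
 96) (nat_lit 35534687735816) .dd))))) (.br (nat_lit 24) (.ch (nat_lit 22) (.ev (nat_lit 52) (nat_lit
 4402615156736) (.ev (nat_lit 116) (nat_lit 274877906944) (.ev (nat_lit 128) (nat_lit 105632575361032) .dd))))
 (.br (nat_lit 25) (.ch (nat_lit 24) (.ev (nat_lit 52) (nat_lit 105626400198656) (.ev (nat_lit 84) (nat_lit
 4398046609408) (.ev (nat_lit 116) (nat_lit 8589934592) (.nd (nat_lit 320) (.br (nat_lit 7) (.br (nat_lit 6)
 (.ch (nat_lit 3) (.ev (nat_lit 336) (nat_lit 2151677960) (.nd (nat_lit 832) (.br (nat_lit 9) (.br (nat_lit 1)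
 (.ch (nat_lit 0) (.ev (nat_lit 848) (nat_lit 2097152) (.ev (nat_lit 861) (nat_lit 274877906944) .dd))) (.ch
 (nat_lit 1) (.ev (nat_lit 848) (nat_lit 2097152) (.ev (nat_lit 861) (nat_lit 274877906944) .dd)))) (.br
 (nat_lit 10) (.ch (nat_lit 9) (.ev (nat_lit 900) (nat_lit 2097152) (.ev (nat_lit 909) (nat_lit 274877906944)
 .dd))) (.ch (nat_lit 10) (.ev (nat_lit 848) (nat_lit 274877906944) (.ev (nat_lit 861) (nat_lit 2097152)
 .dd)))))))) (.ch (nat_lit 6) (.ev (nat_lit 336) (nat_lit 277031682048) (.ev (nat_lit 349) (nat_lit 8) .dd))))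
 (.br (nat_lit 8) (.ch (nat_lit 7) (.ev (nat_lit 336) (nat_lit 274884198400) (.ev (nat_lit 368) (nat_lit
 2147483648) (.ev (nat_lit 381) (nat_lit 8) .dd)))) (.ch (nat_lit 8) (.ev (nat_lit 336) (nat_lit 2147483656)
 (.ev (nat_lit 662) (nat_lit 2097152) (.nd (nat_lit 832) (.br (nat_lit 7) (.br (nat_lit 4) (.br (nat_lit 2)
 (.ch (nat_lit 0) (.ev (nat_lit 848) (nat_lit 274877906944) (.ev (nat_lit 861) (nat_lit 4194304) .dd))) (.ch
 (nat_lit 2) (.ev (nat_lit 848) (nat_lit 274882101248) .dd))) (.br (nat_lit 6) (.ch (nat_lit 4) (.ev (nat_lit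
 848) (nat_lit 274877906944) (.ev (nat_lit 861) (nat_lit 4194304) .dd))) (.ch (nat_lit 6) (.ev (nat_lit 848)
 (nat_lit 274882101248) .dd)))) (.br (nat_lit 10) (.br (nat_lit 9) (.ch (nat_lit 7) (.ev (nat_lit 1108)
 (nat_lit 274877906944) (.ev (nat_lit 1117) (nat_lit 4194304) .dd))) (.ch (nat_lit 9) (.ev (nat_lit 848)
 (nat_lit 4194304) (.ev (nat_lit 861) (nat_lit 274877906944) .dd)))) (.br (nat_lit 12) (.ch (nat_lit 10) (.ev
 (nat_lit 848) (nat_lit 274877906944) (.ev (nat_lit 861) (nat_lit 4194304) .dd))) (.ch (nat_lit 12) (.ev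
 (nat_lit 848) (nat_lit 274877906944) (.ev (nat_lit 861) (nat_lit 4194304) .dd))))))))))))))))) (.ch (nat_lit
 25) (.ev (nat_lit 52) (nat_lit 35461403807744) (.ev (nat_lit 84) (nat_lit 70368744177672) (.ev (nat_lit 116)
 (nat_lit 268435456) (.ev (nat_lit 148) (nat_lit 4294967296) (.nd (nat_lit 320) (.br (nat_lit 3) (.br (nat_lit
 1) (.ch (nat_lit 0) (.ev (nat_lit 336) (nat_lit 68720590848) (.nd (nat_lit 832) (.br (nat_lit 5) (.br (nat_lit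
 3) (.ch (nat_lit 2) (.ev (nat_lit 848) (nat_lit 4406636445696) .dd)) (.br (nat_lit 4) (.ch (nat_lit 3) (.ev
 (nat_lit 848) (nat_lit 8589934592) (.ev (nat_lit 861) (nat_lit 4398046511104) .dd))) (.ch (nat_lit 4) (.ev
 (nat_lit 900) (nat_lit 8589934592) (.ev (nat_lit 909) (nat_lit 4398046511104) .dd))))) (.br (nat_lit 7) (.br
 (nat_lit 6) (.ch (nat_lit 5) (.ev (nat_lit 1188) (nat_lit 8589934592) (.ev (nat_lit 1197) (nat_lit
 4398046511104) .dd))) (.ch (nat_lit 6) (.ev (nat_lit 848) (nat_lit 8589934592) (.ev (nat_lit 861) (nat_lit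
 4398046511104) .dd)))) (.br (nat_lit 12) (.ch (nat_lit 7) (.ev (nat_lit 848) (nat_lit 4406636445696) .dd))
 (.ch (nat_lit 12) (.ev (nat_lit 1012) (nat_lit 4398046511104) (.ev (nat_lit 1021) (nat_lit 8589934592)
 .dd))))))))) (.br (nat_lit 2) (.ch (nat_lit 1) (.ev (nat_lit 336) (nat_lit 4406637559808) (.ev (nat_lit 349)
 (nat_lit 68719476736) .dd))) (.ch (nat_lit 2) (.ev (nat_lit 336) (nat_lit 4406637494272) (.nd (nat_lit 832)
 (.br (nat_lit 6) (.br (nat_lit 2) (.ch (nat_lit 0) (.ev (nat_lit 848) (nat_lit 68719476736) (.ev (nat_lit 861)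
 (nat_lit 65536) .dd))) (.br (nat_lit 3) (.ch (nat_lit 2) (.ev (nat_lit 912) (nat_lit 68719476736) (.ev
 (nat_lit 925) (nat_lit 65536) .dd))) (.ch (nat_lit 3) (.ev (nat_lit 848) (nat_lit 68719542272) .dd)))) (.br
 (nat_lit 11) (.br (nat_lit 7) (.ch (nat_lit 6) (.ev (nat_lit 848) (nat_lit 65536) (.ev (nat_lit 861) (nat_lit
 68719476736) .dd))) (.ch (nat_lit 7) (.ev (nat_lit 848) (nat_lit 68719542272) .dd))) (.br (nat_lit 12) (.ch
 (nat_lit 11) (.ev (nat_lit 848) (nat_lit 68719476736) (.ev (nat_lit 861) (nat_lit 65536) .dd))) (.ch (nat_lit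
 12) (.ev (nat_lit 848) (nat_lit 68719542272) .dd)))))))))) (.br (nat_lit 7) (.ch (nat_lit 3) (.ev (nat_lit
 336) (nat_lit 4475357036544) .dd)) (.br (nat_lit 8) (.ch (nat_lit 7) (.ev (nat_lit 336) (nat_lit
 4406636445696) (.nd (nat_lit 832) (.br (nat_lit 3) (.br (nat_lit 1) (.ch (nat_lit 0) (.ev (nat_lit 848)
 (nat_lit 68719542272) (.ev (nat_lit 861) (nat_lit 1048576) .dd))) (.ch (nat_lit 1) (.ev (nat_lit 848) (nat_lit
 68720525312) (.ev (nat_lit 861) (nat_lit 65536) .dd)))) (.br (nat_lit 10) (.ch (nat_lit 3) (.ev (nat_lit 848)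
 (nat_lit 65536) (.ev (nat_lit 912) (nat_lit 68719476736) (.ev (nat_lit 925) (nat_lit 1048576) .dd)))) (.br
 (nat_lit 12) (.ch (nat_lit 10) (.ev (nat_lit 848) (nat_lit 68719542272) (.ev (nat_lit 861) (nat_lit 1048576)
 .dd))) (.ch (nat_lit 12) (.ev (nat_lit 848) (nat_lit 1048576) (.ev (nat_lit 900) (nat_lit 68719476736) (.ev
 (nat_lit 909) (nat_lit 65536) .dd)))))))))) (.ch (nat_lit 8) (.ev (nat_lit 336) (nat_lit 4398047559680) (.ev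
 (nat_lit 420) (nat_lit 68719476736) (.nd (nat_lit 832) (.br (nat_lit 7) (.br (nat_lit 5) (.ch (nat_lit 0) (.ev
 (nat_lit 848) (nat_lit 8589934592) (.ev (nat_lit 861) (nat_lit 65536) .dd))) (.ch (nat_lit 5) (.ev (nat_lit
 848) (nat_lit 8590000128) .dd))) (.br (nat_lit 9) (.ch (nat_lit 7) (.ev (nat_lit 1120) (nat_lit 8589934592)
 (.ev (nat_lit 1133) (nat_lit 65536) .dd))) (.br (nat_lit 12) (.ch (nat_lit 9) (.ev (nat_lit 848) (nat_lit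
 8589934592) (.ev (nat_lit 861) (nat_lit 65536) .dd))) (.ch (nat_lit 12) (.ev (nat_lit 848) (nat_lit 65536)
 (.ev (nat_lit 861) (nat_lit 8589934592) .dd)))))))))))))))))))))) (.br (nat_lit 30) (.br (nat_lit 27) (.ch
 (nat_lit 26) (.ev (nat_lit 52) (nat_lit 70643624218632) (.ev (nat_lit 84) (nat_lit 4398046511104) (.ev
 (nat_lit 116) (nat_lit 1048576) (.nd (nat_lit 320) (.br (nat_lit 6) (.br (nat_lit 2) (.br (nat_lit 1) (.ch
 (nat_lit 0) (.ev (nat_lit 336) (nat_lit 35263833243648) (.nd (nat_lit 832) (.br (nat_lit 4) (.br (nat_lit 2)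
 (.ch (nat_lit 1) (.ev (nat_lit 848) (nat_lit 4294967296) (.ev (nat_lit 861) (nat_lit 268435456) .dd))) (.br
 (nat_lit 3) (.ch (nat_lit 2) (.ev (nat_lit 1108) (nat_lit 4294967296) (.ev (nat_lit 1117) (nat_lit 268435456)
 .dd))) (.ch (nat_lit 3) (.ev (nat_lit 848) (nat_lit 4563402752) .dd)))) (.br (nat_lit 8) (.br (nat_lit 7) (.ch
 (nat_lit 4) (.ev (nat_lit 848) (nat_lit 4563402752) .dd)) (.ch (nat_lit 7) (.ev (nat_lit 848) (nat_lit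
 4563402752) .dd))) (.br (nat_lit 12) (.ch (nat_lit 8) (.ev (nat_lit 848) (nat_lit 4563402752) .dd)) (.ch
 (nat_lit 12) (.ev (nat_lit 900) (nat_lit 4294967296) (.ev (nat_lit 909) (nat_lit 268435456) .dd))))))))) (.ch
 (nat_lit 1) (.ev (nat_lit 336) (nat_lit 35191087235072) (.ev (nat_lit 352) (nat_lit 68719476736) (.ev (nat_lit
 365) (nat_lit 8589934592) .dd))))) (.br (nat_lit 3) (.ch (nat_lit 2) (.ev (nat_lit 336) (nat_lit 2415919104)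
 (.ev (nat_lit 532) (nat_lit 4194304) (.nd (nat_lit 832) (.br (nat_lit 6) (.br (nat_lit 3) (.br (nat_lit 2)
 (.ch (nat_lit 1) (.ev (nat_lit 848) (nat_lit 8590000128) (.ev (nat_lit 1380) (nat_lit 4294967296) (.fin
 (nat_lit 576440411311522383))))) (.ch (nat_lit 2) (.ev (nat_lit 848) (nat_lit 35253091565568) (.ev (nat_lit
 1012) (nat_lit 4294967296) (.ev (nat_lit 1188) (nat_lit 8589934592) (.ev (nat_lit 1197) (nat_lit 65536)
 .dd)))))) (.br (nat_lit 5) (.ch (nat_lit 3) (.ev (nat_lit 848) (nat_lit 35257386532864) (.ev (nat_lit 1188)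
 (nat_lit 65536) (.ev (nat_lit 1197) (nat_lit 8589934592) .dd)))) (.ch (nat_lit 5) (.ev (nat_lit 848) (nat_lit
 35257386532864) (.ev (nat_lit 1108) (nat_lit 65536) (.ev (nat_lit 1117) (nat_lit 8589934592) .dd)))))) (.br
 (nat_lit 11) (.br (nat_lit 7) (.ch (nat_lit 6) (.ev (nat_lit 848) (nat_lit 35261681565696) (.ev (nat_lit 861)
 (nat_lit 4294967296) .dd))) (.ch (nat_lit 7) (.ev (nat_lit 848) (nat_lit 35197256990720) (.ev (nat_lit 928)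
 (nat_lit 68719542272) .dd)))) (.br (nat_lit 12) (.ch (nat_lit 11) (.ev (nat_lit 848) (nat_lit 73014444032)
 (.ev (nat_lit 928) (nat_lit 35184372088832) (.ev (nat_lit 1040) (nat_lit 65536) (.ev (nat_lit 1053) (nat_lit
 8589934592) .dd))))) (.ch (nat_lit 12) (.ev (nat_lit 848) (nat_lit 77309476864) (.ev (nat_lit 1056) (nat_lit
 35184372088832) (.ev (nat_lit 1069) (nat_lit 4294967296) .dd))))))))))) (.ch (nat_lit 3) (.ev (nat_lit 336)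
 (nat_lit 35257659162624) (.nd (nat_lit 832) (.br (nat_lit 8) (.br (nat_lit 3) (.ch (nat_lit 0) (.ev (nat_lit
 848) (nat_lit 8589934592) (.ev (nat_lit 900) (nat_lit 2147483648) (.ev (nat_lit 909) (nat_lit 65536) .dd))))
 (.br (nat_lit 5) (.ch (nat_lit 3) (.ev (nat_lit 848) (nat_lit 10737418240) (.ev (nat_lit 861) (nat_lit 65536)
 .dd))) (.ch (nat_lit 5) (.ev (nat_lit 848) (nat_lit 2147483648) (.ev (nat_lit 1284) (nat_lit 8589934592) (.ev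
 (nat_lit 1293) (nat_lit 65536) .dd)))))) (.br (nat_lit 9) (.ch (nat_lit 8) (.ev (nat_lit 848) (nat_lit
 8589934592) (.ev (nat_lit 1284) (nat_lit 2147483648) (.ev (nat_lit 1293) (nat_lit 65536) .dd)))) (.br (nat_lit
 12) (.ch (nat_lit 9) (.ev (nat_lit 848) (nat_lit 8589934592) (.fin (nat_lit 576496486501007952)))) (.ch
 (nat_lit 12) (.ev (nat_lit 848) (nat_lit 8589934592) (.ev (nat_lit 900) (nat_lit 2147483648) (.ev (nat_lit
 909) (nat_lit 65536) .dd)))))))))))) (.br (nat_lit 9) (.br (nat_lit 7) (.ch (nat_lit 6) (.ev (nat_lit 336)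
 (nat_lit 6710886400) (.ev (nat_lit 420) (nat_lit 4194304) (.nd (nat_lit 832) (.br (nat_lit 3) (.br (nat_lit 2)
 (.ch (nat_lit 1) (.ev (nat_lit 848) (nat_lit 35184372154368) (.ev (nat_lit 960) (nat_lit 68719476736) (.ev
 (nat_lit 973) (nat_lit 8589934592) .dd)))) (.ch (nat_lit 2) (.ev (nat_lit 848) (nat_lit 35192962023424) (.ev
 (nat_lit 900) (nat_lit 65536) (.ev (nat_lit 909) (nat_lit 68719476736) .dd))))) (.br (nat_lit 4) (.ch (nat_lit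
 3) (.ev (nat_lit 848) (nat_lit 68719476736) (.ev (nat_lit 1012) (nat_lit 8589934592) (.ev (nat_lit 1540)
 (nat_lit 65536) (.ev (nat_lit 1549) (nat_lit 35184372088832) .dd))))) (.br (nat_lit 9) (.ch (nat_lit 4) (.ev
 (nat_lit 848) (nat_lit 35192962088960) (.ev (nat_lit 861) (nat_lit 68719476736) .dd))) (.ch (nat_lit 9) (.ev
 (nat_lit 848) (nat_lit 35253091631104) (.ev (nat_lit 861) (nat_lit 8589934592) .dd)))))))))) (.ch (nat_lit 7)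
 (.ev (nat_lit 336) (nat_lit 35259538210816) (.nd (nat_lit 832) (.br (nat_lit 4) (.br (nat_lit 2) (.br (nat_lit
 1) (.ch (nat_lit 0) (.ev (nat_lit 848) (nat_lit 8590000128) (.ev (nat_lit 861) (nat_lit 268435456) .dd))) (.ch
 (nat_lit 1) (.ev (nat_lit 848) (nat_lit 268500992) (.ev (nat_lit 861) (nat_lit 8589934592) .dd)))) (.br
 (nat_lit 3) (.ch (nat_lit 2) (.ev (nat_lit 848) (nat_lit 8858435584) .dd)) (.ch (nat_lit 3) (.ev (nat_lit 848)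
 (nat_lit 268500992) (.ev (nat_lit 861) (nat_lit 8589934592) .dd))))) (.br (nat_lit 10) (.br (nat_lit 9) (.ch
 (nat_lit 4) (.ev (nat_lit 848) (nat_lit 65536) (.ev (nat_lit 1012) (nat_lit 8589934592) (.ev (nat_lit 1021)
 (nat_lit 268435456) .dd)))) (.ch (nat_lit 9) (.ev (nat_lit 848) (nat_lit 8858370048) (.ev (nat_lit 861)
 (nat_lit 65536) .dd)))) (.br (nat_lit 12) (.ch (nat_lit 10) (.ev (nat_lit 848) (nat_lit 8590000128) (.ev
 (nat_lit 861) (nat_lit 268435456) .dd))) (.ch (nat_lit 12) (.ev (nat_lit 848) (nat_lit 8589934592) (.fin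
 (nat_lit 576434913776452186))))))))))) (.br (nat_lit 11) (.ch (nat_lit 9) (.ev (nat_lit 336) (nat_lit
 13153402880) (.nd (nat_lit 832) (.br (nat_lit 8) (.br (nat_lit 5) (.ch (nat_lit 4) (.ev (nat_lit 848) (nat_lit
 35186523766784) (.ev (nat_lit 861) (nat_lit 68719476736) .dd))) (.br (nat_lit 6) (.ch (nat_lit 5) (.ev
 (nat_lit 848) (nat_lit 35186523766784) (.ev (nat_lit 861) (nat_lit 68719476736) .dd))) (.ch (nat_lit 6) (.ev
 (nat_lit 848) (nat_lit 35253091565568) (.ev (nat_lit 900) (nat_lit 2147483648) (.ev (nat_lit 909) (nat_lit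
 4194304) .dd)))))) (.br (nat_lit 9) (.ch (nat_lit 8) (.ev (nat_lit 848) (nat_lit 35255243243520) .dd)) (.br
 (nat_lit 10) (.ch (nat_lit 9) (.ev (nat_lit 848) (nat_lit 35186523766784) (.ev (nat_lit 861) (nat_lit
 68719476736) .dd))) (.ch (nat_lit 10) (.ev (nat_lit 848) (nat_lit 68719476736) (.ev (nat_lit 928) (nat_lit
 35184372088832) (.ev (nat_lit 1012) (nat_lit 2147483648) (.ev (nat_lit 1021) (nat_lit 4194304) .dd)))))))))))
 (.ch (nat_lit 11) (.ev (nat_lit 336) (nat_lit 84024557568) (.ev (nat_lit 349) (nat_lit 35184372088832)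
 .dd))))))))))) (.br (nat_lit 29) (.ch (nat_lit 27) (.ev (nat_lit 52) (nat_lit 345744867336) (.ev (nat_lit 116)
 (nat_lit 2097152) (.nd (nat_lit 320) (.br (nat_lit 6) (.br (nat_lit 1) (.ch (nat_lit 0) (.ev (nat_lit 336)
 (nat_lit 35184377434112) (.nd (nat_lit 832) (.br (nat_lit 7) (.br (nat_lit 5) (.ch (nat_lit 1) (.ev (nat_lit
 848) (nat_lit 13153337344) (.ev (nat_lit 900) (nat_lit 70368744177664) (.ev (nat_lit 909) (nat_lit
 4398046511104) .dd)))) (.br (nat_lit 6) (.ch (nat_lit 5) (.ev (nat_lit 848) (nat_lit 74771354091520) (.ev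
 (nat_lit 861) (nat_lit 8589934592) .dd))) (.ch (nat_lit 6) (.ev (nat_lit 848) (nat_lit 8589934592) (.ev
 (nat_lit 900) (nat_lit 268435456) (.ev (nat_lit 1108) (nat_lit 70373039144960) (.ev (nat_lit 1117) (nat_lit
 4398046511104) .dd))))))) (.br (nat_lit 8) (.ch (nat_lit 7) (.ev (nat_lit 848) (nat_lit 70381897515008) (.ev
 (nat_lit 861) (nat_lit 4398046511104) .dd))) (.br (nat_lit 12) (.ch (nat_lit 8) (.ev (nat_lit 848) (nat_lit
 4411199848448) (.ev (nat_lit 861) (nat_lit 70368744177664) .dd))) (.ch (nat_lit 12) (.ev (nat_lit 848)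
 (nat_lit 4398046511104) (.ev (nat_lit 900) (nat_lit 70373039144960) (.ev (nat_lit 1284) (nat_lit 268435456)
 (.ev (nat_lit 1293) (nat_lit 8589934592) .dd))))))))))) (.br (nat_lit 3) (.ch (nat_lit 1) (.ev (nat_lit 336)
 (nat_lit 12889165824) (.nd (nat_lit 832) (.br (nat_lit 6) (.br (nat_lit 3) (.ch (nat_lit 0) (.ev (nat_lit 848)
 (nat_lit 39582419681280) (.ev (nat_lit 900) (nat_lit 70368744177664) (.ev (nat_lit 909) (nat_lit 268435456)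
 .dd)))) (.br (nat_lit 5) (.ch (nat_lit 3) (.ev (nat_lit 848) (nat_lit 35184372088832) (.ev (nat_lit 900)
 (nat_lit 269484032) (.ev (nat_lit 912) (nat_lit 32768) (.ev (nat_lit 1108) (nat_lit 4398046511104) (.ev
 (nat_lit 1117) (nat_lit 70368744177664) .dd)))))) (.ch (nat_lit 5) (.ev (nat_lit 848) (nat_lit 35184372121600)
 (.ev (nat_lit 900) (nat_lit 268435456) (.ev (nat_lit 1012) (nat_lit 4398046511104) (.ev (nat_lit 1108)
 (nat_lit 1048576) (.ev (nat_lit 1117) (nat_lit 70368744177664) .dd)))))))) (.br (nat_lit 10) (.ch (nat_lit 6)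
 (.ev (nat_lit 848) (nat_lit 74766790721536) (.ev (nat_lit 900) (nat_lit 35184640524288) (.ev (nat_lit 909)
 (nat_lit 1048576) .dd)))) (.br (nat_lit 11) (.ch (nat_lit 10) (.ev (nat_lit 848) (nat_lit 109951162810368)
 (.ev (nat_lit 1284) (nat_lit 268435456) (.ev (nat_lit 1293) (nat_lit 1048576) .dd)))) (.ch (nat_lit 11) (.ev
 (nat_lit 848) (nat_lit 70368745226240) (.ev (nat_lit 900) (nat_lit 4398046511104) (.ev (nat_lit 1012) (nat_lit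
 268435456) (.fin (nat_lit 576465700185915920)))))))))))) (.ch (nat_lit 3) (.ev (nat_lit 336) (nat_lit
 35188672401408) (.nd (nat_lit 832) (.br (nat_lit 9) (.br (nat_lit 3) (.br (nat_lit 1) (.ch (nat_lit 0) (.ev
 (nat_lit 848) (nat_lit 74767059124224) (.ev (nat_lit 861) (nat_lit 8589934592) .dd))) (.ch (nat_lit 1) (.ev
 (nat_lit 848) (nat_lit 268435456) (.ev (nat_lit 1012) (nat_lit 8589934592) (.ev (nat_lit 1248) (nat_lit
 4398046511104) (.ev (nat_lit 1261) (nat_lit 70368744177664) .dd)))))) (.br (nat_lit 8) (.ch (nat_lit 3) (.ev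
 (nat_lit 848) (nat_lit 8858370048) (.ev (nat_lit 1056) (nat_lit 70368744177664) (.ev (nat_lit 1069) (nat_lit
 4398046511104) .dd)))) (.ch (nat_lit 8) (.ev (nat_lit 848) (nat_lit 70377334112256) (.ev (nat_lit 1284)
 (nat_lit 268435456) (.ev (nat_lit 1293) (nat_lit 4398046511104) .dd)))))) (.br (nat_lit 11) (.br (nat_lit 10)
 (.ch (nat_lit 9) (.ev (nat_lit 848) (nat_lit 74775649058816) .dd)) (.ch (nat_lit 10) (.ev (nat_lit 848)
 (nat_lit 70377602547712) (.ev (nat_lit 861) (nat_lit 4398046511104) .dd)))) (.br (nat_lit 12) (.ch (nat_lit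
 11) (.ev (nat_lit 848) (nat_lit 4406904881152) (.ev (nat_lit 861) (nat_lit 70368744177664) .dd))) (.ch
 (nat_lit 12) (.ev (nat_lit 848) (nat_lit 74775380623360) (.ev (nat_lit 861) (nat_lit 268435456) .dd)))))))))))
 (.br (nat_lit 8) (.ch (nat_lit 6) (.ev (nat_lit 336) (nat_lit 273682432) (.ev (nat_lit 432) (nat_lit
 35184372088832) (.nd (nat_lit 832) (.br (nat_lit 4) (.br (nat_lit 1) (.ch (nat_lit 0) (.ev (nat_lit 848)
 (nat_lit 70368744275968) (.ev (nat_lit 900) (nat_lit 4294967296) (.ev (nat_lit 1188) (nat_lit 4398046511104)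
 (.ev (nat_lit 1197) (nat_lit 8589934592) .dd))))) (.br (nat_lit 3) (.ch (nat_lit 1) (.ev (nat_lit 848)
 (nat_lit 70373039243264) (.ev (nat_lit 900) (nat_lit 8589934592) (.ev (nat_lit 909) (nat_lit 4398046511104)
 .dd)))) (.ch (nat_lit 3) (.ev (nat_lit 848) (nat_lit 70373039177728) (.ev (nat_lit 1088) (nat_lit
 4398046511104) (.ev (nat_lit 1108) (nat_lit 8589934592) (.ev (nat_lit 1117) (nat_lit 65536) .dd))))))) (.br
 (nat_lit 6) (.br (nat_lit 5) (.ch (nat_lit 4) (.ev (nat_lit 848) (nat_lit 12885000192) (.ev (nat_lit 1108)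
 (nat_lit 4398046511104) (.ev (nat_lit 1117) (nat_lit 70368744177664) .dd)))) (.ch (nat_lit 5) (.ev (nat_lit
 848) (nat_lit 74775380623360) (.ev (nat_lit 1188) (nat_lit 65536) (.fin (nat_lit 576426117756830256)))))) (.br
 (nat_lit 9) (.ch (nat_lit 6) (.ev (nat_lit 848) (nat_lit 4410931412992) (.ev (nat_lit 900) (nat_lit 32768)
 (.ev (nat_lit 1188) (nat_lit 70368744177664) (.ev (nat_lit 1197) (nat_lit 65536) .dd))))) (.ch (nat_lit 9)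
 (.ev (nat_lit 848) (nat_lit 4402341576704) (.ev (nat_lit 900) (nat_lit 70368744177664) (.ev (nat_lit 909)
 (nat_lit 8589934592) .dd))))))))))) (.br (nat_lit 9) (.ch (nat_lit 8) (.ev (nat_lit 336) (nat_lit
 35197530701824) (.ev (nat_lit 420) (nat_lit 4096) (.nd (nat_lit 832) (.br (nat_lit 6) (.br (nat_lit 2) (.ch
 (nat_lit 0) (.ev (nat_lit 1152) (nat_lit 65536) (.ev (nat_lit 1188) (nat_lit 70368744177664) (.ev (nat_lit
 1197) (nat_lit 4398046511104) .dd)))) (.br (nat_lit 5) (.ch (nat_lit 2) (.ev (nat_lit 1012) (nat_lit 65536)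
 (.ev (nat_lit 1392) (nat_lit 70368744177664) (.ev (nat_lit 1405) (nat_lit 4398046511104) .dd)))) (.ch (nat_lit
 5) (.ev (nat_lit 848) (nat_lit 4398046576640) (.ev (nat_lit 861) (nat_lit 70368744177664) .dd))))) (.br
 (nat_lit 9) (.ch (nat_lit 6) (.ev (nat_lit 848) (nat_lit 74766790754304) .dd)) (.br (nat_lit 10) (.ch (nat_lit
 9) (.ev (nat_lit 848) (nat_lit 74766790754304) .dd)) (.ch (nat_lit 10) (.ev (nat_lit 848) (nat_lit
 70368744243200) (.ev (nat_lit 861) (nat_lit 4398046511104) .dd)))))))))) (.ch (nat_lit 9) (.ev (nat_lit 336)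
 (nat_lit 12885004288) (.nd (nat_lit 832) (.br (nat_lit 8) (.br (nat_lit 6) (.br (nat_lit 5) (.ch (nat_lit 0)
 (.ev (nat_lit 848) (nat_lit 35184645767168) (.ev (nat_lit 1056) (nat_lit 4398046511104) (.ev (nat_lit 1069)
 (nat_lit 70368744177664) .dd)))) (.ch (nat_lit 5) (.ev (nat_lit 848) (nat_lit 39582692278272) (.ev (nat_lit
 861) (nat_lit 70368744177664) .dd)))) (.br (nat_lit 7) (.ch (nat_lit 6) (.ev (nat_lit 848) (nat_lit
 109951168020480) (.ev (nat_lit 861) (nat_lit 268435456) .dd))) (.ch (nat_lit 7) (.ev (nat_lit 848) (nat_lit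
 39582692278272) (.ev (nat_lit 861) (nat_lit 70368744177664) .dd))))) (.br (nat_lit 10) (.br (nat_lit 9) (.ch
 (nat_lit 8) (.ev (nat_lit 848) (nat_lit 105553385750528) (.ev (nat_lit 912) (nat_lit 4398046511104) (.ev
 (nat_lit 925) (nat_lit 4194304) .dd)))) (.ch (nat_lit 9) (.ev (nat_lit 848) (nat_lit 109951435407360) (.ev
 (nat_lit 861) (nat_lit 1048576) .dd)))) (.br (nat_lit 11) (.ch (nat_lit 10) (.ev (nat_lit 848) (nat_lit
 74767059124224) (.ev (nat_lit 1012) (nat_lit 35184372088832) (.ev (nat_lit 1024) (nat_lit 1048576) (.ev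
 (nat_lit 1037) (nat_lit 4194304) .dd))))) (.ch (nat_lit 11) (.ev (nat_lit 848) (nat_lit 70368745226240) (.ev
 (nat_lit 1012) (nat_lit 4194304) (.ev (nat_lit 1108) (nat_lit 35184372088832) (.fin (nat_lit
 576453605503484511))))))))))))))))))) (.ch (nat_lit 29) (.ev (nat_lit 52) (nat_lit 98304) (.ev (nat_lit 84)
 (nat_lit 75118978007048) (.ev (nat_lit 116) (nat_lit 6443503616) (.nd (nat_lit 320) (.br (nat_lit 6) (.br
 (nat_lit 2) (.ch (nat_lit 1) (.ev (nat_lit 336) (nat_lit 6291456) (.nd (nat_lit 832) (.br (nat_lit 4) (.br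
 (nat_lit 1) (.ch (nat_lit 0) (.ev (nat_lit 1012) (nat_lit 268435456) (.ev (nat_lit 1021) (nat_lit
 35184372088832) .dd))) (.br (nat_lit 3) (.ch (nat_lit 1) (.ev (nat_lit 848) (nat_lit 35184640524288) .dd))
 (.ch (nat_lit 3) (.ev (nat_lit 848) (nat_lit 35184372088832) (.ev (nat_lit 861) (nat_lit 268435456) .dd)))))
 (.br (nat_lit 8) (.br (nat_lit 6) (.ch (nat_lit 4) (.ev (nat_lit 848) (nat_lit 35184640524288) .dd)) (.ch
 (nat_lit 6) (.ev (nat_lit 848) (nat_lit 35184372088832) (.ev (nat_lit 861) (nat_lit 268435456) .dd)))) (.br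
 (nat_lit 10) (.ch (nat_lit 8) (.ev (nat_lit 848) (nat_lit 35184640524288) .dd)) (.ch (nat_lit 10) (.ev
 (nat_lit 848) (nat_lit 35184640524288) .dd)))))))) (.br (nat_lit 3) (.ch (nat_lit 2) (.ev (nat_lit 336)
 (nat_lit 274726912) (.ev (nat_lit 349) (nat_lit 35184372088832) .dd))) (.ch (nat_lit 3) (.ev (nat_lit 336)
 (nat_lit 35184378380288) (.ev (nat_lit 349) (nat_lit 268435456) .dd))))) (.br (nat_lit 8) (.br (nat_lit 7)
 (.ch (nat_lit 6) (.ev (nat_lit 336) (nat_lit 35184642621440) (.ev (nat_lit 349) (nat_lit 4194304) .dd))) (.ch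
 (nat_lit 7) (.ev (nat_lit 336) (nat_lit 35184644718592) (.ev (nat_lit 349) (nat_lit 2097152) .dd)))) (.br
 (nat_lit 11) (.ch (nat_lit 8) (.ev (nat_lit 336) (nat_lit 35184640524288) (.nd (nat_lit 832) (.br (nat_lit 6)
 (.br (nat_lit 2) (.ch (nat_lit 0) (.ev (nat_lit 848) (nat_lit 6291456) .dd)) (.br (nat_lit 4) (.ch (nat_lit 2)
 (.ev (nat_lit 848) (nat_lit 6291456) .dd)) (.ch (nat_lit 4) (.ev (nat_lit 848) (nat_lit 2097152) (.ev (nat_lit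
 861) (nat_lit 4194304) .dd))))) (.br (nat_lit 9) (.br (nat_lit 7) (.ch (nat_lit 6) (.ev (nat_lit 848) (nat_lit
 6291456) .dd)) (.ch (nat_lit 7) (.ev (nat_lit 848) (nat_lit 2097152) (.ev (nat_lit 861) (nat_lit 4194304)
 .dd)))) (.br (nat_lit 10) (.ch (nat_lit 9) (.ev (nat_lit 848) (nat_lit 6291456) .dd)) (.ch (nat_lit 10) (.ev
 (nat_lit 1012) (nat_lit 4194304) (.ev (nat_lit 1021) (nat_lit 2097152) .dd))))))))) (.ch (nat_lit 11) (.ev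
 (nat_lit 336) (nat_lit 35184646815744) .dd)))))))))))) (.br (nat_lit 35) (.br (nat_lit 33) (.ch (nat_lit 30)
 (.ev (nat_lit 52) (nat_lit 281590923264) (.ev (nat_lit 84) (nat_lit 4194312) (.nd (nat_lit 320) (.br (nat_lit
 3) (.br (nat_lit 1) (.ch (nat_lit 0) (.ev (nat_lit 336) (nat_lit 39651139190784) (.nd (nat_lit 832) (.br
 (nat_lit 4) (.br (nat_lit 3) (.ch (nat_lit 1) (.ev (nat_lit 848) (nat_lit 4096) (.ev (nat_lit 1072) (nat_lit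
 70368744177664) (.ev (nat_lit 1085) (nat_lit 8589934592) .dd)))) (.ch (nat_lit 3) (.ev (nat_lit 848) (nat_lit
 70377334112256) (.ev (nat_lit 861) (nat_lit 4096) .dd)))) (.br (nat_lit 5) (.ch (nat_lit 4) (.ev (nat_lit 848)
 (nat_lit 70368744181760) (.ev (nat_lit 861) (nat_lit 8589934592) .dd))) (.br (nat_lit 12) (.ch (nat_lit 5)
 (.ev (nat_lit 848) (nat_lit 70368744177664) (.ev (nat_lit 1072) (nat_lit 4096) (.ev (nat_lit 1085) (nat_lit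
 8589934592) .dd)))) (.ch (nat_lit 12) (.ev (nat_lit 848) (nat_lit 8589938688) (.ev (nat_lit 861) (nat_lit
 70368744177664) .dd))))))))) (.br (nat_lit 2) (.ch (nat_lit 1) (.ev (nat_lit 336) (nat_lit 70446053658624)
 (.nd (nat_lit 832) (.br (nat_lit 5) (.br (nat_lit 3) (.ch (nat_lit 1) (.ev (nat_lit 848) (nat_lit
 35184372088832) (.ev (nat_lit 900) (nat_lit 4398046511104) (.ev (nat_lit 909) (nat_lit 1048576) .dd)))) (.br
 (nat_lit 4) (.ch (nat_lit 3) (.ev (nat_lit 848) (nat_lit 39582419648512) .dd)) (.ch (nat_lit 4) (.ev (nat_lit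
 848) (nat_lit 35184373137408) (.ev (nat_lit 861) (nat_lit 4398046511104) .dd))))) (.br (nat_lit 6) (.ch
 (nat_lit 5) (.ev (nat_lit 848) (nat_lit 35184373137408) (.ev (nat_lit 861) (nat_lit 4398046511104) .dd))) (.br
 (nat_lit 8) (.ch (nat_lit 6) (.ev (nat_lit 848) (nat_lit 4398046511104) (.ev (nat_lit 900) (nat_lit
 35184372088832) (.ev (nat_lit 909) (nat_lit 1048576) .dd)))) (.ch (nat_lit 8) (.ev (nat_lit 848) (nat_lit
 1048576) (.fin (nat_lit 576487690301030978)))))))))) (.ch (nat_lit 2) (.ev (nat_lit 336) (nat_lit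
 109951163830272) (.nd (nat_lit 832) (.br (nat_lit 2) (.ch (nat_lit 0) (.ev (nat_lit 848) (nat_lit 77309411328)
 (.ev (nat_lit 861) (nat_lit 65536) .dd))) (.br (nat_lit 12) (.ch (nat_lit 2) (.ev (nat_lit 1108) (nat_lit
 65536) (.ev (nat_lit 1284) (nat_lit 68719476736) (.ev (nat_lit 1293) (nat_lit 8589934592) .dd)))) (.ch
 (nat_lit 12) (.ev (nat_lit 848) (nat_lit 77309476864) .dd))))))))) (.br (nat_lit 8) (.br (nat_lit 7) (.ch
 (nat_lit 3) (.ev (nat_lit 336) (nat_lit 35253091569664) (.nd (nat_lit 832) (.br (nat_lit 8) (.br (nat_lit 3)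
 (.ch (nat_lit 0) (.ev (nat_lit 848) (nat_lit 74766791737344) (.ev (nat_lit 1284) (nat_lit 8589934592) (.ev
 (nat_lit 1293) (nat_lit 65536) .dd)))) (.br (nat_lit 5) (.ch (nat_lit 3) (.ev (nat_lit 848) (nat_lit
 4398047559680) (.ev (nat_lit 1120) (nat_lit 70368744177664) (.fin (nat_lit 576482192747086425))))) (.ch
 (nat_lit 5) (.ev (nat_lit 848) (nat_lit 70368745226240) (.ev (nat_lit 928) (nat_lit 4398046511104) (.ev
 (nat_lit 1120) (nat_lit 65536) (.ev (nat_lit 1133) (nat_lit 8589934592) .dd))))))) (.br (nat_lit 9) (.ch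
 (nat_lit 8) (.ev (nat_lit 848) (nat_lit 70377334112256) (.ev (nat_lit 900) (nat_lit 4398046511104) (.ev
 (nat_lit 1200) (nat_lit 65536) (.ev (nat_lit 1213) (nat_lit 1048576) .dd))))) (.br (nat_lit 12) (.ch (nat_lit
 9) (.ev (nat_lit 848) (nat_lit 74775380623360) (.ev (nat_lit 1108) (nat_lit 1048576) (.ev (nat_lit 1117)
 (nat_lit 65536) .dd)))) (.ch (nat_lit 12) (.ev (nat_lit 848) (nat_lit 74766791737344) (.ev (nat_lit 1284)
 (nat_lit 8589934592) (.ev (nat_lit 1293) (nat_lit 65536) .dd)))))))))) (.ch (nat_lit 7) (.ev (nat_lit 336)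
 (nat_lit 109951163895808) (.nd (nat_lit 832) (.br (nat_lit 3) (.br (nat_lit 2) (.ch (nat_lit 1) (.ev (nat_lit
 848) (nat_lit 68719476736) (.ev (nat_lit 861) (nat_lit 8589934592) .dd))) (.ch (nat_lit 2) (.ev (nat_lit 848)
 (nat_lit 77309411328) .dd))) (.br (nat_lit 4) (.ch (nat_lit 3) (.ev (nat_lit 848) (nat_lit 8589934592) (.ev
 (nat_lit 861) (nat_lit 68719476736) .dd))) (.br (nat_lit 8) (.ch (nat_lit 4) (.ev (nat_lit 848) (nat_lit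
 77309411328) .dd)) (.ch (nat_lit 8) (.ev (nat_lit 900) (nat_lit 8589934592) (.ev (nat_lit 909) (nat_lit
 68719476736) .dd)))))))))) (.br (nat_lit 11) (.ch (nat_lit 8) (.ev (nat_lit 336) (nat_lit 39651139129344) (.nd
 (nat_lit 832) (.br (nat_lit 9) (.br (nat_lit 4) (.ch (nat_lit 0) (.ev (nat_lit 848) (nat_lit 8590000128) (.ev
 (nat_lit 861) (nat_lit 70368744177664) .dd))) (.ch (nat_lit 4) (.ev (nat_lit 848) (nat_lit 70368744177664)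
 (.ev (nat_lit 912) (nat_lit 8590000128) .dd)))) (.br (nat_lit 10) (.ch (nat_lit 9) (.ev (nat_lit 848) (nat_lit
 8590000128) (.ev (nat_lit 861) (nat_lit 70368744177664) .dd))) (.ch (nat_lit 10) (.ev (nat_lit 848) (nat_lit
 70377334112256) (.ev (nat_lit 861) (nat_lit 65536) .dd)))))))) (.ch (nat_lit 11) (.ev (nat_lit 336) (nat_lit
 74844100165632) (.nd (nat_lit 832) (.br (nat_lit 10) (.br (nat_lit 4) (.ch (nat_lit 0) (.ev (nat_lit 848)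
 (nat_lit 1052672) (.ev (nat_lit 861) (nat_lit 35184372088832) .dd))) (.br (nat_lit 6) (.ch (nat_lit 4) (.ev
 (nat_lit 848) (nat_lit 35184373137408) (.ev (nat_lit 861) (nat_lit 4096) .dd))) (.ch (nat_lit 6) (.ev (nat_lit
 848) (nat_lit 35184372092928) (.ev (nat_lit 861) (nat_lit 1048576) .dd))))) (.br (nat_lit 11) (.ch (nat_lit
 10) (.ev (nat_lit 848) (nat_lit 35184373141504) .dd)) (.br (nat_lit 12) (.ch (nat_lit 11) (.ev (nat_lit 1188)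
 (nat_lit 1048576) (.fin (nat_lit 576496486406636172)))) (.ch (nat_lit 12) (.ev (nat_lit 848) (nat_lit
 35184373141504) .dd))))))))))))))) (.ch (nat_lit 33) (.ev (nat_lit 52) (nat_lit 74766790721544) (.ev (nat_lit
 96) (nat_lit 35543277703168) .dd)))) (.br (nat_lit 36) (.ch (nat_lit 35) (.ev (nat_lit 52) (nat_lit
 70652214153224) (.ev (nat_lit 84) (nat_lit 268435456) (.ev (nat_lit 116) (nat_lit 4294967296) (.ev (nat_lit
 196) (nat_lit 1048576) (.ev (nat_lit 240) (nat_lit 39653289820160) .dd)))))) (.ch (nat_lit 36) (.ev (nat_lit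
 52) (nat_lit 105839001112576) (.ev (nat_lit 84) (nat_lit 6357000) (.ev (nat_lit 116) (nat_lit 4398046511104)
 (.ev (nat_lit 180) (nat_lit 68719476736) (.ev (nat_lit 189) (nat_lit 4294967296) .dd)))))))))))))

/-- Subtrie. -/
noncomputable def T5 : Tr := (.ev (nat_lit 20) (nat_lit 22029696794656) (.nd (nat_lit 33) (.br (nat_lit 19)
 (.br (nat_lit 11) (.br (nat_lit 7) (.br (nat_lit 4) (.ch (nat_lit 1) (.ev (nat_lit 52) (nat_lit 352254427650)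
 (.ev (nat_lit 64) (nat_lit 105555435542540) .dd))) (.br (nat_lit 5) (.ch (nat_lit 4) (.ev (nat_lit 52)
 (nat_lit 69485058) (.ev (nat_lit 84) (nat_lit 68719476736) (.ev (nat_lit 116) (nat_lit 8) (.ev (nat_lit 148)
 (nat_lit 33554432) (.ev (nat_lit 180) (nat_lit 4) (.ev (nat_lit 228) (nat_lit 35184372088832) (.nd (nat_lit
 320) (.br (nat_lit 6) (.br (nat_lit 4) (.br (nat_lit 1) (.ch (nat_lit 0) (.ev (nat_lit 336) (nat_lit
 70643756367872) (.nd (nat_lit 832) (.br (nat_lit 8) (.br (nat_lit 5) (.ch (nat_lit 4) (.ev (nat_lit 848)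
 (nat_lit 10737948672) (.ev (nat_lit 861) (nat_lit 1048576) .dd))) (.ch (nat_lit 5) (.ev (nat_lit 848) (nat_lit
 2149062656) (.ev (nat_lit 861) (nat_lit 8589934592) .dd)))) (.br (nat_lit 11) (.ch (nat_lit 8) (.ev (nat_lit
 848) (nat_lit 2148012032) (.ev (nat_lit 1012) (nat_lit 8589934592) (.fin (nat_lit 576426117691818514))))) (.br
 (nat_lit 12) (.ch (nat_lit 11) (.ev (nat_lit 848) (nat_lit 8590985216) (.ev (nat_lit 1284) (nat_lit 524288)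
 (.nd (nat_lit 1761) (.ch (nat_lit 16) (.nd (nat_lit 1792) (.br (nat_lit 11) (.ch (nat_lit 7) (.ev (nat_lit
 1808) (nat_lit 2147487744) .dd)) (.ch (nat_lit 11) (.fin (nat_lit 576462401573438018)))))))))) (.ch (nat_lit
 12) (.ev (nat_lit 848) (nat_lit 2149060608) (.ev (nat_lit 864) (nat_lit 8589934592) (.ev (nat_lit 877)
 (nat_lit 2048) .dd)))))))))) (.ch (nat_lit 1) (.ev (nat_lit 336) (nat_lit 2149056512) (.ev (nat_lit 420)
 (nat_lit 4096) (.nd (nat_lit 832) (.br (nat_lit 4) (.br (nat_lit 2) (.br (nat_lit 1) (.ch (nat_lit 0) (.ev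
 (nat_lit 848) (nat_lit 70643756367872) (.ev (nat_lit 900) (nat_lit 8589934592) (.ev (nat_lit 909) (nat_lit
 2048) .dd)))) (.ch (nat_lit 1) (.ev (nat_lit 848) (nat_lit 70368744243200) (.ev (nat_lit 944) (nat_lit 2048)
 (.ev (nat_lit 1188) (nat_lit 134217728) (.ev (nat_lit 1380) (nat_lit 8589934592) (.ev (nat_lit 1389) (nat_lit
 274877906944) .dd))))))) (.br (nat_lit 3) (.ch (nat_lit 2) (.ev (nat_lit 848) (nat_lit 283602061312) (.ev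
 (nat_lit 1188) (nat_lit 65536) (.ev (nat_lit 1197) (nat_lit 70368744177664) .dd)))) (.ch (nat_lit 3) (.ev
 (nat_lit 848) (nat_lit 283467841536) (.ev (nat_lit 900) (nat_lit 134217728) (.ev (nat_lit 1120) (nat_lit
 65536) (.ev (nat_lit 1188) (nat_lit 70368744177664) (.ev (nat_lit 1197) (nat_lit 2048) .dd)))))))) (.br
 (nat_lit 8) (.br (nat_lit 6) (.ch (nat_lit 4) (.ev (nat_lit 848) (nat_lit 70368878397440) (.ev (nat_lit 912)
 (nat_lit 8589934592) (.ev (nat_lit 928) (nat_lit 274877972480) .dd)))) (.ch (nat_lit 6) (.ev (nat_lit 848)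
 (nat_lit 283467843584) (.ev (nat_lit 900) (nat_lit 134217728) (.ev (nat_lit 1012) (nat_lit 65536) (.ev
 (nat_lit 1021) (nat_lit 70368744177664) .dd)))))) (.br (nat_lit 10) (.ch (nat_lit 8) (.ev (nat_lit 848)
 (nat_lit 275012126720) (.ev (nat_lit 1188) (nat_lit 70368744177664) (.fin (nat_lit 576482192747086425)))))
 (.ch (nat_lit 10) (.ev (nat_lit 848) (nat_lit 70643756369920) (.ev (nat_lit 861) (nat_lit 8589934592)
 .dd))))))))))) (.br (nat_lit 5) (.ch (nat_lit 4) (.ev (nat_lit 336) (nat_lit 283602065408) (.nd (nat_lit 832)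
 (.br (nat_lit 7) (.br (nat_lit 4) (.br (nat_lit 3) (.ch (nat_lit 1) (.ev (nat_lit 848) (nat_lit
 70370892775424) (.ev (nat_lit 861) (nat_lit 524288) .dd))) (.ch (nat_lit 3) (.ev (nat_lit 848) (nat_lit
 70368744243200) (.ev (nat_lit 900) (nat_lit 1048576) (.ev (nat_lit 1012) (nat_lit 2147483648) (.ev (nat_lit
 1021) (nat_lit 524288) .dd)))))) (.br (nat_lit 6) (.ch (nat_lit 4) (.ev (nat_lit 848) (nat_lit 70370892775424)
 (.ev (nat_lit 861) (nat_lit 524288) .dd))) (.ch (nat_lit 6) (.ev (nat_lit 848) (nat_lit 70370892709888) (.ev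
 (nat_lit 864) (nat_lit 524288) (.ev (nat_lit 877) (nat_lit 65536) .dd)))))) (.br (nat_lit 9) (.br (nat_lit 8)
 (.ch (nat_lit 7) (.ev (nat_lit 848) (nat_lit 65536) (.ev (nat_lit 900) (nat_lit 70368744177664) (.ev (nat_lit
 1024) (nat_lit 2148007936) (.ev (nat_lit 1037) (nat_lit 1048576) .dd))))) (.ch (nat_lit 8) (.ev (nat_lit 848)
 (nat_lit 70370892185600) (.ev (nat_lit 1232) (nat_lit 65536) (.ev (nat_lit 1245) (nat_lit 1048576) .dd)))))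
 (.br (nat_lit 12) (.ch (nat_lit 9) (.ev (nat_lit 848) (nat_lit 1638400) (.ev (nat_lit 900) (nat_lit
 70368744177664) (.ev (nat_lit 909) (nat_lit 2147483648) .dd)))) (.ch (nat_lit 12) (.ev (nat_lit 848) (nat_lit
 2149122048) (.ev (nat_lit 861) (nat_lit 70368744177664) .dd))))))))) (.ch (nat_lit 5) (.ev (nat_lit 336)
 (nat_lit 70370892775424) (.ev (nat_lit 432) (nat_lit 8589934592) (.nd (nat_lit 832) (.br (nat_lit 6) (.br
 (nat_lit 3) (.ch (nat_lit 1) (.ev (nat_lit 848) (nat_lit 274877911040) (.ev (nat_lit 1012) (nat_lit 134217728)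
 (.ev (nat_lit 1284) (nat_lit 524288) (.ev (nat_lit 1293) (nat_lit 2048) .dd))))) (.br (nat_lit 5) (.ch
 (nat_lit 3) (.ev (nat_lit 848) (nat_lit 134746112) (.ev (nat_lit 900) (nat_lit 2048) (.ev (nat_lit 909)
 (nat_lit 274877906944) .dd)))) (.ch (nat_lit 5) (.ev (nat_lit 848) (nat_lit 134221824) (.ev (nat_lit 1012)
 (nat_lit 526336) (.ev (nat_lit 1021) (nat_lit 274877906944) .dd)))))) (.br (nat_lit 8) (.ch (nat_lit 6) (.ev
 (nat_lit 848) (nat_lit 274878431232) (.ev (nat_lit 900) (nat_lit 134217728) (.ev (nat_lit 928) (nat_lit 4096)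
 (.ev (nat_lit 941) (nat_lit 2048) .dd))))) (.br (nat_lit 10) (.ch (nat_lit 8) (.ev (nat_lit 848) (nat_lit
 134746112) (.ev (nat_lit 1108) (nat_lit 274877906944) (.ev (nat_lit 1117) (nat_lit 2048) .dd)))) (.ch (nat_lit
 10) (.ev (nat_lit 848) (nat_lit 275012653056) (.ev (nat_lit 861) (nat_lit 2048) .dd)))))))))))) (.br (nat_lit
 11) (.br (nat_lit 9) (.ch (nat_lit 6) (.ev (nat_lit 336) (nat_lit 275012130816) (.ev (nat_lit 420) (nat_lit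
 524288) (.nd (nat_lit 832) (.br (nat_lit 7) (.br (nat_lit 4) (.ch (nat_lit 0) (.ev (nat_lit 848) (nat_lit
 2147483648) (.ev (nat_lit 900) (nat_lit 70368744177664) (.ev (nat_lit 1188) (nat_lit 1048576) (.ev (nat_lit
 1460) (nat_lit 65536) (.ev (nat_lit 1469) (nat_lit 8589934592) .dd)))))) (.br (nat_lit 5) (.ch (nat_lit 4)
 (.ev (nat_lit 848) (nat_lit 70377334112256) (.ev (nat_lit 928) (nat_lit 2147483648) (.ev (nat_lit 1108)
 (nat_lit 1048576) (.ev (nat_lit 1117) (nat_lit 65536) .dd))))) (.ch (nat_lit 5) (.ev (nat_lit 848) (nat_lit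
 70379481595904) (.ev (nat_lit 1460) (nat_lit 1048576) (.ev (nat_lit 1469) (nat_lit 65536) .dd)))))) (.br
 (nat_lit 10) (.ch (nat_lit 7) (.ev (nat_lit 848) (nat_lit 70379481595904) (.ev (nat_lit 1136) (nat_lit
 1048576) (.ev (nat_lit 1149) (nat_lit 65536) .dd)))) (.br (nat_lit 12) (.ch (nat_lit 10) (.ev (nat_lit 848)
 (nat_lit 70370891661312) (.ev (nat_lit 1380) (nat_lit 1048576) (.ev (nat_lit 1460) (nat_lit 8589934592) (.ev
 (nat_lit 1469) (nat_lit 65536) .dd))))) (.ch (nat_lit 12) (.ev (nat_lit 848) (nat_lit 70370891661312) (.ev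
 (nat_lit 1072) (nat_lit 1048576) (.ev (nat_lit 1380) (nat_lit 65536) (.ev (nat_lit 1389) (nat_lit 8589934592)
 .dd)))))))))))) (.ch (nat_lit 9) (.ev (nat_lit 336) (nat_lit 70652347881472) (.ev (nat_lit 349) (nat_lit
 2147483648) .dd)))) (.br (nat_lit 12) (.ch (nat_lit 11) (.ev (nat_lit 336) (nat_lit 10873280512) (.ev (nat_lit
 352) (nat_lit 274877906944) (.ev (nat_lit 365) (nat_lit 70368744177664) .dd)))) (.ch (nat_lit 12) (.ev
 (nat_lit 336) (nat_lit 10738993152) (.nd (nat_lit 832) (.br (nat_lit 6) (.br (nat_lit 1) (.ch (nat_lit 0) (.ev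
 (nat_lit 848) (nat_lit 134283264) (.ev (nat_lit 1108) (nat_lit 274877911040) (.ev (nat_lit 1117) (nat_lit
 70368744177664) .dd)))) (.br (nat_lit 5) (.ch (nat_lit 1) (.ev (nat_lit 848) (nat_lit 70368744243200) (.ev
 (nat_lit 900) (nat_lit 275012124672) (.ev (nat_lit 909) (nat_lit 4096) .dd)))) (.ch (nat_lit 5) (.ev (nat_lit
 848) (nat_lit 134287360) (.ev (nat_lit 900) (nat_lit 274877906944) (.ev (nat_lit 909) (nat_lit 70368744177664)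
 .dd)))))) (.br (nat_lit 11) (.br (nat_lit 9) (.ch (nat_lit 6) (.ev (nat_lit 848) (nat_lit 70368744243200) (.ev
 (nat_lit 864) (nat_lit 134217728) (.ev (nat_lit 900) (nat_lit 274877906944) (.ev (nat_lit 909) (nat_lit 4096)
 .dd))))) (.ch (nat_lit 9) (.ev (nat_lit 848) (nat_lit 70643756306432) (.ev (nat_lit 861) (nat_lit 65536)
 .dd)))) (.br (nat_lit 12) (.ch (nat_lit 11) (.ev (nat_lit 848) (nat_lit 70368744247296) (.ev (nat_lit 1012)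
 (nat_lit 134217728) (.ev (nat_lit 1021) (nat_lit 274877906944) .dd)))) (.ch (nat_lit 12) (.ev (nat_lit 848)
 (nat_lit 70643756306432) (.ev (nat_lit 861) (nat_lit 65536) .dd)))))))))))))))))))) (.ch (nat_lit 5) (.ev
 (nat_lit 52) (nat_lit 35261682876430) (.ev (nat_lit 84) (nat_lit 512) (.ev (nat_lit 116) (nat_lit 2621440)
 (.ev (nat_lit 260) (nat_lit 134217728) (.nd (nat_lit 320) (.br (nat_lit 8) (.br (nat_lit 5) (.ch (nat_lit 4)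
 (.ev (nat_lit 336) (nat_lit 274978576384) (.nd (nat_lit 832) (.br (nat_lit 8) (.br (nat_lit 1) (.ch (nat_lit
 0) (.ev (nat_lit 900) (nat_lit 2147483648) (.ev (nat_lit 1120) (nat_lit 70368744177664) (.ev (nat_lit 1133)
 (nat_lit 16384) .dd)))) (.br (nat_lit 7) (.ch (nat_lit 1) (.ev (nat_lit 848) (nat_lit 70370891677696) .dd))
 (.ch (nat_lit 7) (.ev (nat_lit 848) (nat_lit 16384) (.ev (nat_lit 900) (nat_lit 2147483648) (.ev (nat_lit 909)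
 (nat_lit 70368744177664) .dd)))))) (.br (nat_lit 9) (.ch (nat_lit 8) (.ev (nat_lit 848) (nat_lit
 70370891661312) (.ev (nat_lit 861) (nat_lit 16384) .dd))) (.br (nat_lit 12) (.ch (nat_lit 9) (.ev (nat_lit
 1012) (nat_lit 2147483648) (.ev (nat_lit 1108) (nat_lit 16384) (.ev (nat_lit 1117) (nat_lit 70368744177664)
 .dd)))) (.ch (nat_lit 12) (.ev (nat_lit 848) (nat_lit 70370891677696) .dd)))))))) (.ch (nat_lit 5) (.ev
 (nat_lit 336) (nat_lit 70645803126784) (.nd (nat_lit 832) (.br (nat_lit 3) (.br (nat_lit 1) (.ch (nat_lit 0)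
 (.ev (nat_lit 848) (nat_lit 2048) (.ev (nat_lit 900) (nat_lit 16384) (.ev (nat_lit 909) (nat_lit 67108864)
 .dd)))) (.ch (nat_lit 1) (.ev (nat_lit 1024) (nat_lit 16384) (.ev (nat_lit 1680) (nat_lit 67110912) .dd))))
 (.br (nat_lit 10) (.ch (nat_lit 3) (.ev (nat_lit 848) (nat_lit 16384) (.ev (nat_lit 900) (nat_lit 67108864)
 (.ev (nat_lit 909) (nat_lit 2048) .dd)))) (.br (nat_lit 12) (.ch (nat_lit 10) (.ev (nat_lit 848) (nat_lit
 67125248) (.ev (nat_lit 861) (nat_lit 2048) .dd))) (.ch (nat_lit 12) (.ev (nat_lit 848) (nat_lit 67127296)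
 .dd))))))))) (.br (nat_lit 11) (.ch (nat_lit 8) (.ev (nat_lit 336) (nat_lit 33576960) (.nd (nat_lit 832) (.br
 (nat_lit 6) (.br (nat_lit 1) (.ch (nat_lit 0) (.ev (nat_lit 848) (nat_lit 70368744177664) (.ev (nat_lit 900)
 (nat_lit 274877906944) (.ev (nat_lit 1012) (nat_lit 67108864) (.ev (nat_lit 1021) (nat_lit 2147483648)
 .dd))))) (.ch (nat_lit 1) (.ev (nat_lit 848) (nat_lit 277025390592) (.ev (nat_lit 912) (nat_lit 67108864) (.ev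
 (nat_lit 925) (nat_lit 70368744177664) .dd))))) (.br (nat_lit 11) (.ch (nat_lit 6) (.ev (nat_lit 848) (nat_lit
 70645836677120) .dd)) (.br (nat_lit 12) (.ch (nat_lit 11) (.ev (nat_lit 848) (nat_lit 277025390592) (.ev
 (nat_lit 912) (nat_lit 70368744177664) (.ev (nat_lit 925) (nat_lit 67108864) .dd)))) (.ch (nat_lit 12) (.ev
 (nat_lit 848) (nat_lit 67108864) (.ev (nat_lit 900) (nat_lit 2147483648) (.ev (nat_lit 1012) (nat_lit
 70368744177664) (.ev (nat_lit 1021) (nat_lit 274877906944) .dd))))))))))) (.br (nat_lit 12) (.ch (nat_lit 11)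
 (.ev (nat_lit 336) (nat_lit 277092517888) (.nd (nat_lit 832) (.br (nat_lit 3) (.br (nat_lit 2) (.ch (nat_lit
 1) (.ev (nat_lit 1024) (nat_lit 4096) (.ev (nat_lit 1632) (nat_lit 70368777732096) .dd))) (.ch (nat_lit 2)
 (.ev (nat_lit 848) (nat_lit 33554432) (.ev (nat_lit 900) (nat_lit 4096) (.ev (nat_lit 909) (nat_lit
 70368744177664) .dd))))) (.br (nat_lit 5) (.ch (nat_lit 3) (.ev (nat_lit 848) (nat_lit 70368777736192) .dd))
 (.br (nat_lit 12) (.ch (nat_lit 5) (.ev (nat_lit 848) (nat_lit 70368744181760) (.ev (nat_lit 861) (nat_lit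
 33554432) .dd))) (.ch (nat_lit 12) (.ev (nat_lit 848) (nat_lit 4096) (.ev (nat_lit 900) (nat_lit
 70368744177664) (.ev (nat_lit 909) (nat_lit 33554432) .dd)))))))))) (.ch (nat_lit 12) (.ev (nat_lit 336)
 (nat_lit 70370925234176) (.nd (nat_lit 832) (.br (nat_lit 5) (.br (nat_lit 1) (.ch (nat_lit 0) (.ev (nat_lit
 900) (nat_lit 274877906944) (.ev (nat_lit 1188) (nat_lit 67108864) (.ev (nat_lit 1197) (nat_lit 4096) .dd))))
 (.br (nat_lit 4) (.ch (nat_lit 1) (.ev (nat_lit 848) (nat_lit 274945019904) .dd)) (.ch (nat_lit 4) (.ev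
 (nat_lit 1012) (nat_lit 274877911040) (.ev (nat_lit 1021) (nat_lit 67108864) .dd))))) (.br (nat_lit 6) (.ch
 (nat_lit 5) (.ev (nat_lit 848) (nat_lit 274945015808) (.ev (nat_lit 861) (nat_lit 4096) .dd))) (.br (nat_lit
 12) (.ch (nat_lit 6) (.ev (nat_lit 848) (nat_lit 4096) (.ev (nat_lit 900) (nat_lit 274877906944) (.ev (nat_lit
 909) (nat_lit 67108864) .dd)))) (.ch (nat_lit 12) (.ev (nat_lit 848) (nat_lit 274945019904)
 .dd))))))))))))))))))) (.br (nat_lit 8) (.ch (nat_lit 7) (.ev (nat_lit 52) (nat_lit 35253229535750) (.ev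
 (nat_lit 84) (nat_lit 4096) (.ev (nat_lit 160) (nat_lit 70654460430344) .dd)))) (.br (nat_lit 10) (.ch
 (nat_lit 8) (.ev (nat_lit 52) (nat_lit 354335854600) (.ev (nat_lit 84) (nat_lit 70368744178180) (.ev (nat_lit
 116) (nat_lit 524288) (.ev (nat_lit 148) (nat_lit 2097152) (.nd (nat_lit 320) (.br (nat_lit 6) (.br (nat_lit
 1) (.ch (nat_lit 0) (.ev (nat_lit 336) (nat_lit 35184607037442) (.nd (nat_lit 832) (.br (nat_lit 9) (.br
 (nat_lit 2) (.ch (nat_lit 1) (.ev (nat_lit 848) (nat_lit 278528) .dd)) (.br (nat_lit 4) (.ch (nat_lit 2) (.ev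
 (nat_lit 900) (nat_lit 16384) (.ev (nat_lit 909) (nat_lit 262144) .dd))) (.ch (nat_lit 4) (.ev (nat_lit 976)
 (nat_lit 16384) (.ev (nat_lit 989) (nat_lit 262144) .dd))))) (.br (nat_lit 11) (.ch (nat_lit 9) (.ev (nat_lit
 848) (nat_lit 16384) (.ev (nat_lit 861) (nat_lit 262144) .dd))) (.br (nat_lit 12) (.ch (nat_lit 11) (.ev
 (nat_lit 848) (nat_lit 16384) (.ev (nat_lit 861) (nat_lit 262144) .dd))) (.ch (nat_lit 12) (.ev (nat_lit 848)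
 (nat_lit 262144) (.ev (nat_lit 861) (nat_lit 16384) .dd))))))))) (.br (nat_lit 5) (.ch (nat_lit 1) (.ev
 (nat_lit 336) (nat_lit 35184473014272) (.nd (nat_lit 832) (.br (nat_lit 6) (.br (nat_lit 3) (.ch (nat_lit 2)
 (.ev (nat_lit 848) (nat_lit 134219778) (.ev (nat_lit 1108) (nat_lit 65536) (.ev (nat_lit 1117) (nat_lit 16384)
 .dd)))) (.br (nat_lit 4) (.ch (nat_lit 3) (.ev (nat_lit 848) (nat_lit 134236162) (.ev (nat_lit 861) (nat_lit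
 65536) .dd))) (.ch (nat_lit 4) (.ev (nat_lit 848) (nat_lit 134219778) (.ev (nat_lit 1120) (nat_lit 65536) (.ev
 (nat_lit 1133) (nat_lit 16384) .dd)))))) (.br (nat_lit 7) (.ch (nat_lit 6) (.ev (nat_lit 848) (nat_lit
 134234114) (.ev (nat_lit 900) (nat_lit 2048) (.ev (nat_lit 909) (nat_lit 65536) .dd)))) (.br (nat_lit 8) (.ch
 (nat_lit 7) (.ev (nat_lit 1284) (nat_lit 16384) (.ev (nat_lit 1344) (nat_lit 2) (.ev (nat_lit 1408) (nat_lit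
 65536) (.fin (nat_lit 576544864939229828)))))) (.ch (nat_lit 8) (.ev (nat_lit 848) (nat_lit 2048) (.ev
 (nat_lit 992) (nat_lit 2) (.ev (nat_lit 1024) (nat_lit 134217728) (.ev (nat_lit 1072) (nat_lit 65536) (.ev
 (nat_lit 1085) (nat_lit 16384) .dd)))))))))))) (.ch (nat_lit 5) (.ev (nat_lit 336) (nat_lit 168116226) (.nd
 (nat_lit 832) (.br (nat_lit 6) (.br (nat_lit 3) (.ch (nat_lit 0) (.ev (nat_lit 848) (nat_lit 67110912) (.ev
 (nat_lit 861) (nat_lit 35184372088832) .dd))) (.br (nat_lit 4) (.ch (nat_lit 3) (.ev (nat_lit 848) (nat_lit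
 35184439197696) (.ev (nat_lit 861) (nat_lit 2048) .dd))) (.ch (nat_lit 4) (.ev (nat_lit 848) (nat_lit 2048)
 (.ev (nat_lit 900) (nat_lit 67108864) (.ev (nat_lit 909) (nat_lit 35184372088832) .dd)))))) (.br (nat_lit 10)
 (.ch (nat_lit 6) (.ev (nat_lit 848) (nat_lit 35184439199744) .dd)) (.br (nat_lit 12) (.ch (nat_lit 10) (.ev
 (nat_lit 848) (nat_lit 35184372088832) (.ev (nat_lit 1200) (nat_lit 67110912) .dd))) (.ch (nat_lit 12) (.ev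
 (nat_lit 848) (nat_lit 35184439199744) .dd)))))))))) (.br (nat_lit 9) (.br (nat_lit 8) (.ch (nat_lit 6) (.ev
 (nat_lit 336) (nat_lit 134219778) (.ev (nat_lit 420) (nat_lit 35184372088832) (.nd (nat_lit 832) (.br (nat_lit
 4) (.ch (nat_lit 3) (.ev (nat_lit 848) (nat_lit 101007360) .dd)) (.br (nat_lit 12) (.ch (nat_lit 4) (.ev
 (nat_lit 848) (nat_lit 33619968) (.ev (nat_lit 1108) (nat_lit 67108864) (.ev (nat_lit 1188) (nat_lit 262144)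
 (.ev (nat_lit 1197) (nat_lit 16384) .dd))))) (.ch (nat_lit 12) (.ev (nat_lit 848) (nat_lit 67387392) (.nd
 (nat_lit 1793) (.ch (nat_lit 7) (.nd (nat_lit 1824) (.ch (nat_lit 2) (.fin (nat_lit
 576465700104127060)))))))))))))) (.ch (nat_lit 8) (.ev (nat_lit 336) (nat_lit 100927488) (.nd (nat_lit 832)
 (.br (nat_lit 5) (.br (nat_lit 2) (.ch (nat_lit 0) (.ev (nat_lit 848) (nat_lit 35184506388482) .dd)) (.ch
 (nat_lit 2) (.ev (nat_lit 848) (nat_lit 134283266) (.ev (nat_lit 912) (nat_lit 35184372088832) (.ev (nat_lit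
 925) (nat_lit 16384) .dd))))) (.br (nat_lit 6) (.ch (nat_lit 5) (.ev (nat_lit 848) (nat_lit 134217728) (.ev
 (nat_lit 944) (nat_lit 65536) (.ev (nat_lit 1012) (nat_lit 16384) (.ev (nat_lit 1056) (nat_lit 2) (.ev
 (nat_lit 1069) (nat_lit 35184372088832) .dd)))))) (.br (nat_lit 12) (.ch (nat_lit 6) (.ev (nat_lit 848)
 (nat_lit 35184506372098) (.ev (nat_lit 861) (nat_lit 16384) .dd))) (.ch (nat_lit 12) (.ev (nat_lit 848)
 (nat_lit 35184372105216) (.ev (nat_lit 1108) (nat_lit 134217728) (.ev (nat_lit 1284) (nat_lit 65536) (.ev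
 (nat_lit 1293) (nat_lit 2) .dd)))))))))))) (.br (nat_lit 12) (.ch (nat_lit 9) (.ev (nat_lit 336) (nat_lit
 100993026) (.ev (nat_lit 420) (nat_lit 16384) (.nd (nat_lit 832) (.br (nat_lit 4) (.br (nat_lit 2) (.ch
 (nat_lit 1) (.ev (nat_lit 848) (nat_lit 35184506306560) .dd)) (.ch (nat_lit 2) (.ev (nat_lit 848) (nat_lit
 35184372088832) (.ev (nat_lit 861) (nat_lit 134217728) .dd)))) (.br (nat_lit 11) (.ch (nat_lit 4) (.ev
 (nat_lit 848) (nat_lit 35184506306560) .dd)) (.ch (nat_lit 11) (.ev (nat_lit 848) (nat_lit 134217728) (.ev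
 (nat_lit 861) (nat_lit 35184372088832) .dd))))))))) (.ch (nat_lit 12) (.ev (nat_lit 336) (nat_lit 33835008)
 (.nd (nat_lit 832) (.br (nat_lit 7) (.br (nat_lit 4) (.ch (nat_lit 1) (.ev (nat_lit 848) (nat_lit 67174402)
 (.ev (nat_lit 1264) (nat_lit 134217728) (.ev (nat_lit 1277) (nat_lit 35184372088832) .dd)))) (.br (nat_lit 6)
 (.ch (nat_lit 4) (.ev (nat_lit 848) (nat_lit 35184439263234) (.ev (nat_lit 861) (nat_lit 134217728) .dd)))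
 (.ch (nat_lit 6) (.ev (nat_lit 848) (nat_lit 35184439263234) (.ev (nat_lit 861) (nat_lit 134217728) .dd)))))
 (.br (nat_lit 11) (.ch (nat_lit 7) (.ev (nat_lit 900) (nat_lit 2) (.ev (nat_lit 1012) (nat_lit 35184506306560)
 (.ev (nat_lit 1040) (nat_lit 67108864) (.ev (nat_lit 1053) (nat_lit 65536) .dd))))) (.br (nat_lit 12) (.ch
 (nat_lit 11) (.ev (nat_lit 848) (nat_lit 67174402) (.ev (nat_lit 1108) (nat_lit 134217728) (.ev (nat_lit 1117)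
 (nat_lit 35184372088832) .dd)))) (.ch (nat_lit 12) (.ev (nat_lit 848) (nat_lit 67108864) (.ev (nat_lit 900)
 (nat_lit 65536) (.ev (nat_lit 1120) (nat_lit 134217728) (.ev (nat_lit 1284) (nat_lit 2) (.ev (nat_lit 1293)
 (nat_lit 35184372088832) .dd))))))))))))))))))))) (.ch (nat_lit 10) (.ev (nat_lit 52) (nat_lit 68823355916)
 (.ev (nat_lit 116) (nat_lit 70368744439808) (.ev (nat_lit 148) (nat_lit 35184506308608) (.ev (nat_lit 260)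
 (nat_lit 2) (.nd (nat_lit 320) (.br (nat_lit 8) (.br (nat_lit 4) (.ch (nat_lit 1) (.ev (nat_lit 336) (nat_lit
 2148007936) (.nd (nat_lit 832) (.br (nat_lit 2) (.br (nat_lit 1) (.ch (nat_lit 0) (.ev (nat_lit 848) (nat_lit
 274877923328) (.ev (nat_lit 861) (nat_lit 8589934592) .dd))) (.ch (nat_lit 1) (.ev (nat_lit 848) (nat_lit
 8589934592) (.ev (nat_lit 900) (nat_lit 274877906944) (.ev (nat_lit 909) (nat_lit 16384) .dd))))) (.br
 (nat_lit 3) (.ch (nat_lit 2) (.ev (nat_lit 848) (nat_lit 283467841536) (.ev (nat_lit 861) (nat_lit 16384)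
 .dd))) (.br (nat_lit 8) (.ch (nat_lit 3) (.ev (nat_lit 848) (nat_lit 16384) (.ev (nat_lit 912) (nat_lit
 274877906944) (.ev (nat_lit 925) (nat_lit 8589934592) .dd)))) (.ch (nat_lit 8) (.ev (nat_lit 848) (nat_lit
 274877923328) (.ev (nat_lit 861) (nat_lit 8589934592) .dd))))))))) (.br (nat_lit 5) (.ch (nat_lit 4) (.ev
 (nat_lit 336) (nat_lit 283467857920) (.nd (nat_lit 832) (.br (nat_lit 6) (.br (nat_lit 1) (.ch (nat_lit 0)
 (.ev (nat_lit 900) (nat_lit 524288) (.ev (nat_lit 909) (nat_lit 2147483648) .dd))) (.br (nat_lit 4) (.ch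
 (nat_lit 1) (.ev (nat_lit 848) (nat_lit 2147483648) (.ev (nat_lit 861) (nat_lit 524288) .dd))) (.ch (nat_lit
 4) (.ev (nat_lit 900) (nat_lit 524288) (.ev (nat_lit 909) (nat_lit 2147483648) .dd))))) (.br (nat_lit 8) (.br
 (nat_lit 7) (.ch (nat_lit 6) (.ev (nat_lit 848) (nat_lit 2147483648) (.ev (nat_lit 861) (nat_lit 524288)
 .dd))) (.ch (nat_lit 7) (.ev (nat_lit 1188) (nat_lit 524288) (.ev (nat_lit 1197) (nat_lit 2147483648) .dd))))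
 (.br (nat_lit 12) (.ch (nat_lit 8) (.ev (nat_lit 848) (nat_lit 2148007936) .dd)) (.ch (nat_lit 12) (.ev
 (nat_lit 848) (nat_lit 2148007936) .dd)))))))) (.ch (nat_lit 5) (.ev (nat_lit 336) (nat_lit 10737942528) (.nd
 (nat_lit 832) (.br (nat_lit 6) (.br (nat_lit 1) (.ch (nat_lit 0) (.ev (nat_lit 848) (nat_lit 274877906944)
 (.ev (nat_lit 861) (nat_lit 16384) .dd))) (.br (nat_lit 3) (.ch (nat_lit 1) (.ev (nat_lit 912) (nat_lit
 274877906944) (.ev (nat_lit 925) (nat_lit 16384) .dd))) (.ch (nat_lit 3) (.ev (nat_lit 848) (nat_lit 16384)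
 (.ev (nat_lit 861) (nat_lit 274877906944) .dd))))) (.br (nat_lit 10) (.br (nat_lit 8) (.ch (nat_lit 6) (.ev
 (nat_lit 848) (nat_lit 274877923328) .dd)) (.ch (nat_lit 8) (.ev (nat_lit 848) (nat_lit 274877923328) .dd)))
 (.br (nat_lit 12) (.ch (nat_lit 10) (.ev (nat_lit 848) (nat_lit 274877923328) .dd)) (.ch (nat_lit 12) (.ev
 (nat_lit 848) (nat_lit 274877906944) (.ev (nat_lit 861) (nat_lit 16384) .dd))))))))))) (.br (nat_lit 11) (.ch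
 (nat_lit 8) (.ev (nat_lit 336) (nat_lit 8590458880) (.ev (nat_lit 420) (nat_lit 274877906944) (.nd (nat_lit
 832) (.br (nat_lit 11) (.br (nat_lit 8) (.ch (nat_lit 0) (.ev (nat_lit 848) (nat_lit 2147483648) (.ev (nat_lit
 861) (nat_lit 16384) .dd))) (.ch (nat_lit 8) (.ev (nat_lit 848) (nat_lit 16384) (.ev (nat_lit 861) (nat_lit
 2147483648) .dd)))) (.br (nat_lit 12) (.ch (nat_lit 11) (.ev (nat_lit 848) (nat_lit 2147500032) .dd)) (.ch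
 (nat_lit 12) (.ev (nat_lit 1120) (nat_lit 2147483648) (.ev (nat_lit 1133) (nat_lit 16384) .dd))))))))) (.br
 (nat_lit 12) (.ch (nat_lit 11) (.ev (nat_lit 336) (nat_lit 10737958912) (.ev (nat_lit 349) (nat_lit
 274877906944) .dd))) (.ch (nat_lit 12) (.ev (nat_lit 336) (nat_lit 285615865856) .dd)))))))))))))) (.br
 (nat_lit 15) (.br (nat_lit 12) (.ch (nat_lit 11) (.ev (nat_lit 52) (nat_lit 35261682616832) (.ev (nat_lit 84)
 (nat_lit 2147745792) (.ev (nat_lit 116) (nat_lit 20480) (.ev (nat_lit 148) (nat_lit 2097152) (.nd (nat_lit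
 320) (.br (nat_lit 5) (.br (nat_lit 1) (.ch (nat_lit 0) (.ev (nat_lit 336) (nat_lit 70643857489930) (.ev
 (nat_lit 349) (nat_lit 4) .dd))) (.br (nat_lit 4) (.ch (nat_lit 1) (.ev (nat_lit 336) (nat_lit 100663308) (.nd
 (nat_lit 832) (.br (nat_lit 7) (.br (nat_lit 4) (.ch (nat_lit 3) (.ev (nat_lit 848) (nat_lit 2) (.ev (nat_lit
 928) (nat_lit 70368744177664) (.ev (nat_lit 1108) (nat_lit 524288) (.ev (nat_lit 1216) (nat_lit 275012124672)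
 .dd))))) (.ch (nat_lit 4) (.ev (nat_lit 848) (nat_lit 275012648962) (.ev (nat_lit 861) (nat_lit
 70368744177664) .dd)))) (.br (nat_lit 8) (.ch (nat_lit 7) (.ev (nat_lit 848) (nat_lit 70643756302336) (.ev
 (nat_lit 1056) (nat_lit 524290) .dd))) (.ch (nat_lit 8) (.ev (nat_lit 848) (nat_lit 70643622608896) (.ev
 (nat_lit 928) (nat_lit 2) (.ev (nat_lit 941) (nat_lit 134217728) .dd))))))))) (.ch (nat_lit 4) (.ev (nat_lit
 336) (nat_lit 275079233540) (.ev (nat_lit 400) (nat_lit 70368744177666) (.nd (nat_lit 832) (.br (nat_lit 3)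
 (.br (nat_lit 1) (.ch (nat_lit 0) (.ev (nat_lit 900) (nat_lit 8) (.ev (nat_lit 1012) (nat_lit 524288) (.ev
 (nat_lit 1021) (nat_lit 33554432) .dd)))) (.ch (nat_lit 1) (.ev (nat_lit 848) (nat_lit 33554432) (.ev (nat_lit
 1108) (nat_lit 524288) (.ev (nat_lit 1117) (nat_lit 8) .dd))))) (.br (nat_lit 4) (.ch (nat_lit 3) (.ev
 (nat_lit 848) (nat_lit 34078728) .dd)) (.ch (nat_lit 4) (.ev (nat_lit 848) (nat_lit 34078720) (.ev (nat_lit
 861) (nat_lit 8) .dd))))))))))) (.br (nat_lit 9) (.br (nat_lit 6) (.ch (nat_lit 5) (.ev (nat_lit 336) (nat_lit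
 70368979058694) (.nd (nat_lit 832) (.br (nat_lit 5) (.br (nat_lit 1) (.ch (nat_lit 0) (.ev (nat_lit 848)
 (nat_lit 274878431232) (.ev (nat_lit 861) (nat_lit 8) .dd))) (.br (nat_lit 4) (.ch (nat_lit 1) (.ev (nat_lit
 848) (nat_lit 524288) (.ev (nat_lit 900) (nat_lit 8) (.ev (nat_lit 909) (nat_lit 274877906944) .dd)))) (.ch
 (nat_lit 4) (.ev (nat_lit 848) (nat_lit 274877906944) (.ev (nat_lit 1108) (nat_lit 8) (.ev (nat_lit 1117)
 (nat_lit 524288) .dd)))))) (.br (nat_lit 10) (.br (nat_lit 6) (.ch (nat_lit 5) (.ev (nat_lit 848) (nat_lit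
 524288) (.ev (nat_lit 900) (nat_lit 8) (.ev (nat_lit 909) (nat_lit 274877906944) .dd)))) (.ch (nat_lit 6) (.ev
 (nat_lit 848) (nat_lit 274877906952) (.ev (nat_lit 861) (nat_lit 524288) .dd)))) (.br (nat_lit 12) (.ch
 (nat_lit 10) (.ev (nat_lit 848) (nat_lit 274877906952) (.ev (nat_lit 861) (nat_lit 524288) .dd))) (.ch
 (nat_lit 12) (.ev (nat_lit 848) (nat_lit 274877906952) (.ev (nat_lit 861) (nat_lit 524288) .dd))))))))) (.ch
 (nat_lit 6) (.ev (nat_lit 336) (nat_lit 70643857489934) .dd))) (.br (nat_lit 12) (.ch (nat_lit 9) (.ev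
 (nat_lit 336) (nat_lit 274911985672) (.nd (nat_lit 832) (.br (nat_lit 4) (.br (nat_lit 2) (.ch (nat_lit 1)
 (.ev (nat_lit 848) (nat_lit 70368945504262) .dd)) (.br (nat_lit 3) (.ch (nat_lit 2) (.ev (nat_lit 848)
 (nat_lit 70368878395394) (.fin (nat_lit 576461302078587464)))) (.ch (nat_lit 3) (.ev (nat_lit 848) (nat_lit 6)
 (.ev (nat_lit 900) (nat_lit 67108864) (.ev (nat_lit 1108) (nat_lit 70368744177664) (.ev (nat_lit 1117)
 (nat_lit 134217728) .dd))))))) (.br (nat_lit 11) (.br (nat_lit 9) (.ch (nat_lit 4) (.ev (nat_lit 848) (nat_lit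
 70368945504260) (.ev (nat_lit 861) (nat_lit 2) .dd))) (.ch (nat_lit 9) (.ev (nat_lit 848) (nat_lit 201326598)
 (.ev (nat_lit 861) (nat_lit 70368744177664) .dd)))) (.br (nat_lit 12) (.ch (nat_lit 11) (.ev (nat_lit 848)
 (nat_lit 6) (.ev (nat_lit 1108) (nat_lit 70368744177664) (.ev (nat_lit 1188) (nat_lit 67108864) (.ev (nat_lit
 1197) (nat_lit 134217728) .dd))))) (.ch (nat_lit 12) (.ev (nat_lit 848) (nat_lit 4) (.ev (nat_lit 1108)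
 (nat_lit 67108864) (.ev (nat_lit 1284) (nat_lit 134217728) (.fin (nat_lit 576531670862611040)))))))))))) (.ch
 (nat_lit 12) (.ev (nat_lit 336) (nat_lit 70643756826638) (.nd (nat_lit 832) (.br (nat_lit 12) (.ch (nat_lit 6)
 (.ev (nat_lit 1012) (nat_lit 67108864) (.ev (nat_lit 1021) (nat_lit 33554432) .dd))) (.ch (nat_lit 12) (.ev
 (nat_lit 848) (nat_lit 100663296) .dd))))))))))))))) (.br (nat_lit 13) (.ch (nat_lit 12) (.ev (nat_lit 52)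
 (nat_lit 35255272947712) (.ev (nat_lit 84) (nat_lit 1052672) (.ev (nat_lit 148) (nat_lit 8) (.nd (nat_lit 320)
 (.br (nat_lit 8) (.br (nat_lit 4) (.br (nat_lit 1) (.ch (nat_lit 0) (.ev (nat_lit 336) (nat_lit
 70643823411202) (.ev (nat_lit 500) (nat_lit 2048) (.nd (nat_lit 832) (.br (nat_lit 5) (.br (nat_lit 2) (.ch
 (nat_lit 0) (.ev (nat_lit 848) (nat_lit 8589935108) (.ev (nat_lit 1188) (nat_lit 2097152) (.ev (nat_lit 1197)
 (nat_lit 524288) .dd)))) (.br (nat_lit 4) (.ch (nat_lit 2) (.ev (nat_lit 848) (nat_lit 2621444) (.ev (nat_lit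
 900) (nat_lit 512) (.ev (nat_lit 909) (nat_lit 8589934592) .dd)))) (.ch (nat_lit 4) (.ev (nat_lit 848)
 (nat_lit 524800) (.ev (nat_lit 1216) (nat_lit 2097152) (.fin (nat_lit 576455804463825489))))))) (.br (nat_lit
 11) (.br (nat_lit 8) (.ch (nat_lit 5) (.ev (nat_lit 848) (nat_lit 8589935108) (.ev (nat_lit 900) (nat_lit
 524288) (.ev (nat_lit 909) (nat_lit 2097152) .dd)))) (.ch (nat_lit 8) (.ev (nat_lit 848) (nat_lit 2621952)
 (.ev (nat_lit 928) (nat_lit 8589934596) .dd)))) (.br (nat_lit 12) (.ch (nat_lit 11) (.ev (nat_lit 848)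
 (nat_lit 2621440) (.ev (nat_lit 1108) (nat_lit 4) (.ev (nat_lit 1284) (nat_lit 512) (.ev (nat_lit 1293)
 (nat_lit 8589934592) .dd))))) (.ch (nat_lit 12) (.ev (nat_lit 848) (nat_lit 2621956) (.ev (nat_lit 861)
 (nat_lit 8589934592) .dd)))))))))) (.ch (nat_lit 1) (.ev (nat_lit 336) (nat_lit 70368813383682) (.ev (nat_lit
 420) (nat_lit 4) (.nd (nat_lit 832) (.br (nat_lit 4) (.br (nat_lit 2) (.ch (nat_lit 0) (.ev (nat_lit 848)
 (nat_lit 274878431744) (.ev (nat_lit 864) (nat_lit 8589934592) (.ev (nat_lit 912) (nat_lit 134219776) .dd))))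
 (.ch (nat_lit 2) (.ev (nat_lit 848) (nat_lit 283468367872) (.ev (nat_lit 900) (nat_lit 134217728) (.ev
 (nat_lit 909) (nat_lit 512) .dd))))) (.br (nat_lit 7) (.ch (nat_lit 4) (.ev (nat_lit 848) (nat_lit
 275012651008) (.ev (nat_lit 960) (nat_lit 8589934592) (.ev (nat_lit 973) (nat_lit 512) .dd)))) (.br (nat_lit
 10) (.ch (nat_lit 7) (.ev (nat_lit 848) (nat_lit 134220288) (.ev (nat_lit 900) (nat_lit 8590458880) (.ev
 (nat_lit 909) (nat_lit 274877906944) .dd)))) (.ch (nat_lit 10) (.ev (nat_lit 848) (nat_lit 8724154368) (.ev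
 (nat_lit 900) (nat_lit 512) (.nd (nat_lit 1761) (.ch (nat_lit 10) (.nd (nat_lit 1792) (.ch (nat_lit 2) (.fin
 (nat_lit 576447008412746258))))))))))))))))) (.br (nat_lit 6) (.ch (nat_lit 4) (.ev (nat_lit 336) (nat_lit
 70377537538054) (.nd (nat_lit 832) (.br (nat_lit 4) (.br (nat_lit 1) (.ch (nat_lit 0) (.ev (nat_lit 848)
 (nat_lit 512) (.ev (nat_lit 900) (nat_lit 274877906944) (.ev (nat_lit 909) (nat_lit 524288) .dd)))) (.br
 (nat_lit 3) (.ch (nat_lit 1) (.ev (nat_lit 848) (nat_lit 274877907456) (.ev (nat_lit 861) (nat_lit 524288)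
 .dd))) (.ch (nat_lit 3) (.ev (nat_lit 848) (nat_lit 274877907456) (.ev (nat_lit 861) (nat_lit 524288) .dd)))))
 (.br (nat_lit 6) (.ch (nat_lit 4) (.ev (nat_lit 848) (nat_lit 512) (.ev (nat_lit 900) (nat_lit 274877906944)
 (.ev (nat_lit 909) (nat_lit 524288) .dd)))) (.br (nat_lit 7) (.ch (nat_lit 6) (.ev (nat_lit 900) (nat_lit
 274877906944) (.ev (nat_lit 1188) (nat_lit 512) (.ev (nat_lit 1197) (nat_lit 524288) .dd)))) (.ch (nat_lit 7)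
 (.ev (nat_lit 848) (nat_lit 274877907456) (.ev (nat_lit 861) (nat_lit 524288) .dd))))))))) (.ch (nat_lit 6)
 (.ev (nat_lit 336) (nat_lit 283604158470) (.nd (nat_lit 832) (.br (nat_lit 5) (.br (nat_lit 3) (.br (nat_lit
 1) (.ch (nat_lit 0) (.ev (nat_lit 848) (nat_lit 70368811287040) (.ev (nat_lit 861) (nat_lit 524288) .dd)))
 (.ch (nat_lit 1) (.ev (nat_lit 848) (nat_lit 512) (.ev (nat_lit 1200) (nat_lit 67108864) (.ev (nat_lit 1232)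
 (nat_lit 524288) (.ev (nat_lit 1245) (nat_lit 70368744177664) .dd)))))) (.br (nat_lit 4) (.ch (nat_lit 3) (.ev
 (nat_lit 848) (nat_lit 524288) (.ev (nat_lit 912) (nat_lit 512) (.ev (nat_lit 1188) (nat_lit 67108864) (.ev
 (nat_lit 1197) (nat_lit 70368744177664) .dd))))) (.ch (nat_lit 4) (.ev (nat_lit 848) (nat_lit 524800) (.ev
 (nat_lit 1188) (nat_lit 67108864) (.ev (nat_lit 1197) (nat_lit 70368744177664) .dd)))))) (.br (nat_lit 8) (.br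
 (nat_lit 7) (.ch (nat_lit 5) (.ev (nat_lit 848) (nat_lit 70368811811328) .dd)) (.ch (nat_lit 7) (.ev (nat_lit
 848) (nat_lit 70368811810816) (.ev (nat_lit 861) (nat_lit 512) .dd)))) (.br (nat_lit 12) (.ch (nat_lit 8) (.ev
 (nat_lit 848) (nat_lit 524288) (.ev (nat_lit 976) (nat_lit 70368744177664) (.fin (nat_lit
 576482192753377841))))) (.ch (nat_lit 12) (.ev (nat_lit 848) (nat_lit 67633664) (.ev (nat_lit 861) (nat_lit
 70368744177664) .dd))))))))))) (.br (nat_lit 11) (.br (nat_lit 9) (.ch (nat_lit 8) (.ev (nat_lit 336) (nat_lit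
 2621952) (.ev (nat_lit 420) (nat_lit 274877906944) (.nd (nat_lit 832) (.br (nat_lit 9) (.br (nat_lit 2) (.ch
 (nat_lit 1) (.ev (nat_lit 848) (nat_lit 2054) (.ev (nat_lit 1188) (nat_lit 134217728) (.ev (nat_lit 1284)
 (nat_lit 67108864) (.ev (nat_lit 1380) (nat_lit 70368744177664) (.ev (nat_lit 1389) (nat_lit 8589934592)
 .dd)))))) (.br (nat_lit 8) (.ch (nat_lit 2) (.ev (nat_lit 848) (nat_lit 8657045510) (.ev (nat_lit 1200)
 (nat_lit 134217728) (.ev (nat_lit 1213) (nat_lit 70368744177664) .dd)))) (.ch (nat_lit 8) (.ev (nat_lit 848)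
 (nat_lit 8657043460) (.ev (nat_lit 1284) (nat_lit 2048) (.ev (nat_lit 1380) (nat_lit 134217728) (.ev (nat_lit
 1460) (nat_lit 70368744177664) (.ev (nat_lit 1469) (nat_lit 2) .dd)))))))) (.br (nat_lit 11) (.ch (nat_lit 9)
 (.ev (nat_lit 848) (nat_lit 8657043456) (.ev (nat_lit 900) (nat_lit 70368744177664) (.ev (nat_lit 928)
 (nat_lit 4) (.ev (nat_lit 1188) (nat_lit 2048) (.fin (nat_lit 576420620123193906))))))) (.br (nat_lit 12) (.ch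
 (nat_lit 11) (.ev (nat_lit 848) (nat_lit 67110916) (.ev (nat_lit 1108) (nat_lit 2) (.ev (nat_lit 1188)
 (nat_lit 134217728) (.ev (nat_lit 1424) (nat_lit 8589934592) (.ev (nat_lit 1437) (nat_lit 70368744177664)
 .dd)))))) (.ch (nat_lit 12) (.ev (nat_lit 848) (nat_lit 67110916) (.ev (nat_lit 912) (nat_lit 2) (.ev (nat_lit
 1380) (nat_lit 70368878395392) (.ev (nat_lit 1389) (nat_lit 8589934592) .dd)))))))))))) (.ch (nat_lit 9) (.ev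
 (nat_lit 336) (nat_lit 70643758925828) (.ev (nat_lit 352) (nat_lit 8589934592) (.ev (nat_lit 822) (nat_lit 2)
 (.nd (nat_lit 832) (.br (nat_lit 12) (.ch (nat_lit 9) (.ev (nat_lit 848) (nat_lit 67108864) (.ev (nat_lit 861)
 (nat_lit 512) .dd))) (.ch (nat_lit 12) (.ev (nat_lit 848) (nat_lit 512) (.ev (nat_lit 861) (nat_lit 67108864)
 .dd)))))))))) (.br (nat_lit 12) (.ch (nat_lit 11) (.ev (nat_lit 336) (nat_lit 283602586118) (.nd (nat_lit 832)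
 (.br (nat_lit 5) (.br (nat_lit 3) (.ch (nat_lit 0) (.ev (nat_lit 848) (nat_lit 70368746274816) (.ev (nat_lit
 861) (nat_lit 67108864) .dd))) (.br (nat_lit 4) (.ch (nat_lit 3) (.ev (nat_lit 848) (nat_lit 70368813383680)
 .dd)) (.ch (nat_lit 4) (.ev (nat_lit 848) (nat_lit 70368813383680) .dd)))) (.br (nat_lit 8) (.br (nat_lit 6)
 (.ch (nat_lit 5) (.ev (nat_lit 848) (nat_lit 70368811286528) (.ev (nat_lit 861) (nat_lit 2097152) .dd))) (.ch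
 (nat_lit 6) (.ev (nat_lit 848) (nat_lit 69206016) (.ev (nat_lit 861) (nat_lit 70368744177664) .dd)))) (.br
 (nat_lit 12) (.ch (nat_lit 8) (.ev (nat_lit 848) (nat_lit 67108864) (.fin (nat_lit 576487690378625622)))) (.ch
 (nat_lit 12) (.ev (nat_lit 848) (nat_lit 70368746274816) (.ev (nat_lit 861) (nat_lit 67108864) .dd)))))))))
 (.ch (nat_lit 12) (.ev (nat_lit 336) (nat_lit 8592558594) (.nd (nat_lit 832) (.br (nat_lit 6) (.br (nat_lit 1)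
 (.ch (nat_lit 0) (.ev (nat_lit 848) (nat_lit 275012124672) (.ev (nat_lit 900) (nat_lit 67108864) (.ev (nat_lit
 1556) (nat_lit 70368744177664) (.ev (nat_lit 1565) (nat_lit 4) .dd))))) (.ch (nat_lit 1) (.ev (nat_lit 848)
 (nat_lit 70643823411204) .dd))) (.br (nat_lit 11) (.ch (nat_lit 6) (.ev (nat_lit 848) (nat_lit 70368744177668)
 (.ev (nat_lit 900) (nat_lit 134217728) (.ev (nat_lit 1012) (nat_lit 274877906944) (.ev (nat_lit 1021) (nat_lit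
 67108864) .dd))))) (.br (nat_lit 12) (.ch (nat_lit 11) (.ev (nat_lit 848) (nat_lit 70368744177668) (.ev
 (nat_lit 864) (nat_lit 274877906944) (.ev (nat_lit 1012) (nat_lit 67108864) (.ev (nat_lit 1021) (nat_lit
 134217728) .dd))))) (.ch (nat_lit 12) (.ev (nat_lit 848) (nat_lit 201326596) (.ev (nat_lit 900) (nat_lit
 70368744177664) (.ev (nat_lit 909) (nat_lit 274877906944) .dd)))))))))))))))))) (.ch (nat_lit 13) (.ev
 (nat_lit 52) (nat_lit 70371025899520) (.ev (nat_lit 84) (nat_lit 67108868) (.ev (nat_lit 148) (nat_lit 65544)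
 (.ev (nat_lit 180) (nat_lit 8589934592) (.nd (nat_lit 320) (.br (nat_lit 6) (.br (nat_lit 4) (.br (nat_lit 1)
 (.ch (nat_lit 0) (.ev (nat_lit 336) (nat_lit 35528003026946) (.ev (nat_lit 420) (nat_lit 512) (.ev (nat_lit
 678) (nat_lit 2097152) (.nd (nat_lit 832) (.br (nat_lit 5) (.br (nat_lit 2) (.ch (nat_lit 1) (.ev (nat_lit
 848) (nat_lit 1572864) (.ev (nat_lit 864) (nat_lit 262144) (.ev (nat_lit 877) (nat_lit 2048) .dd)))) (.ch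
 (nat_lit 2) (.ev (nat_lit 848) (nat_lit 788480) (.ev (nat_lit 861) (nat_lit 1048576) .dd)))) (.br (nat_lit 8)
 (.ch (nat_lit 5) (.ev (nat_lit 848) (nat_lit 1050624) (.ev (nat_lit 900) (nat_lit 262144) (.ev (nat_lit 909)
 (nat_lit 524288) .dd)))) (.br (nat_lit 9) (.ch (nat_lit 8) (.ev (nat_lit 848) (nat_lit 1572864) (.ev (nat_lit
 1152) (nat_lit 264192) .dd))) (.ch (nat_lit 9) (.ev (nat_lit 848) (nat_lit 1310720) (.ev (nat_lit 864)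
 (nat_lit 2048) (.ev (nat_lit 877) (nat_lit 524288) .dd)))))))))))) (.ch (nat_lit 1) (.ev (nat_lit 336)
 (nat_lit 35184372350978) (.nd (nat_lit 832) (.br (nat_lit 6) (.br (nat_lit 2) (.br (nat_lit 1) (.ch (nat_lit
 0) (.ev (nat_lit 848) (nat_lit 274915133952) (.ev (nat_lit 861) (nat_lit 68719476736) .dd))) (.ch (nat_lit 1)
 (.ev (nat_lit 848) (nat_lit 35129344) (.ev (nat_lit 928) (nat_lit 2097664) (.ev (nat_lit 976) (nat_lit
 274877906944) (.ev (nat_lit 989) (nat_lit 68719476736) .dd)))))) (.br (nat_lit 3) (.ch (nat_lit 2) (.ev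
 (nat_lit 848) (nat_lit 343600007680) (.ev (nat_lit 864) (nat_lit 1048576) (.ev (nat_lit 877) (nat_lit
 33554432) .dd)))) (.ch (nat_lit 3) (.ev (nat_lit 848) (nat_lit 68753031168) (.ev (nat_lit 944) (nat_lit
 524288) (.ev (nat_lit 1012) (nat_lit 512) (.ev (nat_lit 1284) (nat_lit 1048576) (.ev (nat_lit 1440) (nat_lit
 274877906944) (.ev (nat_lit 1540) (nat_lit 2048) (.ev (nat_lit 1549) (nat_lit 2097152) .dd)))))))))) (.br
 (nat_lit 8) (.br (nat_lit 7) (.ch (nat_lit 6) (.ev (nat_lit 848) (nat_lit 274911463936) (.ev (nat_lit 1012)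
 (nat_lit 3670016) (.ev (nat_lit 1021) (nat_lit 68719476736) .dd)))) (.ch (nat_lit 7) (.ev (nat_lit 848)
 (nat_lit 343633562112) (.ev (nat_lit 861) (nat_lit 1048576) .dd)))) (.br (nat_lit 10) (.ch (nat_lit 8) (.ev
 (nat_lit 848) (nat_lit 343633562112) (.ev (nat_lit 861) (nat_lit 1048576) .dd))) (.ch (nat_lit 10) (.ev
 (nat_lit 848) (nat_lit 68722625024) (.ev (nat_lit 1232) (nat_lit 33554432) (.fin (nat_lit
 576475595708777070)))))))))))) (.br (nat_lit 5) (.ch (nat_lit 4) (.ev (nat_lit 336) (nat_lit 35459253668354)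
 (.nd (nat_lit 832) (.br (nat_lit 7) (.br (nat_lit 3) (.br (nat_lit 1) (.ch (nat_lit 0) (.ev (nat_lit 848)
 (nat_lit 68719476736) (.ev (nat_lit 912) (nat_lit 262144) (.ev (nat_lit 925) (nat_lit 33554432) .dd)))) (.ch
 (nat_lit 1) (.ev (nat_lit 1188) (nat_lit 68719476736) (.ev (nat_lit 1572) (nat_lit 262144) (.ev (nat_lit 1581)
 (nat_lit 33554432) .dd))))) (.br (nat_lit 6) (.ch (nat_lit 3) (.ev (nat_lit 848) (nat_lit 262144) (.ev
 (nat_lit 1120) (nat_lit 33554432) (.ev (nat_lit 1133) (nat_lit 68719476736) .dd)))) (.ch (nat_lit 6) (.ev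
 (nat_lit 848) (nat_lit 262144) (.ev (nat_lit 1188) (nat_lit 33554432) (.ev (nat_lit 1197) (nat_lit
 68719476736) .dd)))))) (.br (nat_lit 9) (.br (nat_lit 8) (.ch (nat_lit 7) (.ev (nat_lit 848) (nat_lit 262144)
 (.ev (nat_lit 1040) (nat_lit 33554432) (.ev (nat_lit 1053) (nat_lit 68719476736) .dd)))) (.ch (nat_lit 8) (.ev
 (nat_lit 848) (nat_lit 68753031168) (.ev (nat_lit 861) (nat_lit 262144) .dd)))) (.br (nat_lit 12) (.ch
 (nat_lit 9) (.ev (nat_lit 848) (nat_lit 68753031168) (.ev (nat_lit 861) (nat_lit 262144) .dd))) (.ch (nat_lit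
 12) (.ev (nat_lit 848) (nat_lit 68753031168) (.ev (nat_lit 861) (nat_lit 262144) .dd))))))))) (.ch (nat_lit 5)
 (.ev (nat_lit 336) (nat_lit 343632773122) (.ev (nat_lit 694) (nat_lit 2048) (.nd (nat_lit 832) (.br (nat_lit
 5) (.br (nat_lit 3) (.ch (nat_lit 0) (.ev (nat_lit 848) (nat_lit 35184374186496) .dd)) (.br (nat_lit 4) (.ch
 (nat_lit 3) (.ev (nat_lit 848) (nat_lit 35184372089344) (.ev (nat_lit 861) (nat_lit 2097152) .dd))) (.ch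
 (nat_lit 4) (.ev (nat_lit 848) (nat_lit 2097664) (.ev (nat_lit 861) (nat_lit 35184372088832) .dd))))) (.br
 (nat_lit 8) (.br (nat_lit 6) (.ch (nat_lit 5) (.ev (nat_lit 848) (nat_lit 35184374186496) .dd)) (.ch (nat_lit
 6) (.ev (nat_lit 848) (nat_lit 35184372088832) (.ev (nat_lit 900) (nat_lit 512) (.ev (nat_lit 909) (nat_lit
 2097152) .dd))))) (.br (nat_lit 10) (.ch (nat_lit 8) (.ev (nat_lit 848) (nat_lit 35184372088832) (.ev (nat_lit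
 864) (nat_lit 512) (.ev (nat_lit 877) (nat_lit 2097152) .dd)))) (.ch (nat_lit 10) (.ev (nat_lit 848) (nat_lit
 2097152) (.ev (nat_lit 960) (nat_lit 35184372088832) (.ev (nat_lit 973) (nat_lit 512) .dd))))))))))))) (.br
 (nat_lit 9) (.br (nat_lit 8) (.ch (nat_lit 6) (.ev (nat_lit 336) (nat_lit 35459249998338) (.nd (nat_lit 832)
 (.br (nat_lit 3) (.br (nat_lit 1) (.ch (nat_lit 0) (.ev (nat_lit 848) (nat_lit 35913728) (.ev (nat_lit 900)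
 (nat_lit 68719476736) (.ev (nat_lit 1024) (nat_lit 1048576) (.ev (nat_lit 1037) (nat_lit 524288) .dd))))) (.ch
 (nat_lit 1) (.ev (nat_lit 848) (nat_lit 1572864) (.ev (nat_lit 1012) (nat_lit 68719476736) (.ev (nat_lit 1380)
 (nat_lit 2097152) (.ev (nat_lit 1460) (nat_lit 33554432) (.ev (nat_lit 1469) (nat_lit 262144) .dd))))))) (.br
 (nat_lit 10) (.ch (nat_lit 3) (.ev (nat_lit 848) (nat_lit 68756963328) .dd)) (.br (nat_lit 12) (.ch (nat_lit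
 10) (.ev (nat_lit 848) (nat_lit 35913728) (.ev (nat_lit 864) (nat_lit 1048576) (.ev (nat_lit 1040) (nat_lit
 68720001024) .dd)))) (.ch (nat_lit 12) (.ev (nat_lit 848) (nat_lit 68722098176) (.ev (nat_lit 900) (nat_lit
 34603008) (.ev (nat_lit 909) (nat_lit 262144) .dd)))))))))) (.ch (nat_lit 8) (.ev (nat_lit 336) (nat_lit
 35184409575938) (.ev (nat_lit 352) (nat_lit 2048) (.nd (nat_lit 832) (.br (nat_lit 5) (.ch (nat_lit 0) (.ev
 (nat_lit 848) (nat_lit 68719476736) (.ev (nat_lit 861) (nat_lit 274877906944) .dd))) (.ch (nat_lit 5) (.ev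
 (nat_lit 912) (nat_lit 68719476736) (.ev (nat_lit 925) (nat_lit 274877906944) .dd))))))))) (.br (nat_lit 12)
 (.ch (nat_lit 9) (.ev (nat_lit 336) (nat_lit 343633562112) (.ev (nat_lit 432) (nat_lit 262144) (.nd (nat_lit
 832) (.br (nat_lit 4) (.br (nat_lit 2) (.ch (nat_lit 1) (.ev (nat_lit 848) (nat_lit 35184372088834) (.ev
 (nat_lit 861) (nat_lit 1048576) .dd))) (.br (nat_lit 3) (.ch (nat_lit 2) (.ev (nat_lit 1108) (nat_lit 1048576)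
 (.fin (nat_lit 576456904061436466)))) (.ch (nat_lit 3) (.ev (nat_lit 848) (nat_lit 1048578) (.ev (nat_lit 861)
 (nat_lit 35184372088832) .dd))))) (.br (nat_lit 8) (.ch (nat_lit 4) (.ev (nat_lit 848) (nat_lit
 35184373137408) (.ev (nat_lit 861) (nat_lit 2) .dd))) (.br (nat_lit 10) (.ch (nat_lit 8) (.ev (nat_lit 848)
 (nat_lit 1048578) (.ev (nat_lit 861) (nat_lit 35184372088832) .dd))) (.ch (nat_lit 10) (.ev (nat_lit 848)
 (nat_lit 1048578) (.ev (nat_lit 861) (nat_lit 35184372088832) .dd)))))))))) (.ch (nat_lit 12) (.ev (nat_lit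
 336) (nat_lit 35459253930496) (.nd (nat_lit 832) (.br (nat_lit 6) (.br (nat_lit 4) (.ch (nat_lit 0) (.ev
 (nat_lit 848) (nat_lit 33554434) (.ev (nat_lit 861) (nat_lit 68719476736) .dd))) (.br (nat_lit 5) (.ch
 (nat_lit 4) (.ev (nat_lit 848) (nat_lit 68753031170) .dd)) (.ch (nat_lit 5) (.ev (nat_lit 848) (nat_lit
 33554434) (.ev (nat_lit 861) (nat_lit 68719476736) .dd))))) (.br (nat_lit 9) (.br (nat_lit 7) (.ch (nat_lit 6)
 (.ev (nat_lit 848) (nat_lit 68719476738) (.ev (nat_lit 861) (nat_lit 33554432) .dd))) (.ch (nat_lit 7) (.ev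
 (nat_lit 848) (nat_lit 68753031168) (.ev (nat_lit 861) (nat_lit 2) .dd)))) (.br (nat_lit 12) (.ch (nat_lit 9)
 (.ev (nat_lit 848) (nat_lit 68719476736) (.fin (nat_lit 576430515687997952)))) (.ch (nat_lit 12) (.ev (nat_lit
 848) (nat_lit 68753031170) .dd))))))))))))))))))) (.br (nat_lit 17) (.br (nat_lit 16) (.ch (nat_lit 15) (.ev
 (nat_lit 52) (nat_lit 277028556802) (.ev (nat_lit 84) (nat_lit 70437463654400) (.ev (nat_lit 116) (nat_lit 8)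
 (.ev (nat_lit 148) (nat_lit 264192) (.nd (nat_lit 320) (.br (nat_lit 6) (.br (nat_lit 4) (.ch (nat_lit 0) (.ev
 (nat_lit 336) (nat_lit 35184607035392) (.nd (nat_lit 832) (.br (nat_lit 9) (.br (nat_lit 2) (.ch (nat_lit 1)
 (.ev (nat_lit 848) (nat_lit 8589934596) (.ev (nat_lit 864) (nat_lit 512) (.ev (nat_lit 877) (nat_lit 524288)
 .dd)))) (.br (nat_lit 4) (.ch (nat_lit 2) (.ev (nat_lit 848) (nat_lit 524800) (.ev (nat_lit 900) (nat_lit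
 8589934592) (.ev (nat_lit 909) (nat_lit 4) .dd)))) (.ch (nat_lit 4) (.ev (nat_lit 848) (nat_lit 524800) (.ev
 (nat_lit 900) (nat_lit 8589934592) (.ev (nat_lit 909) (nat_lit 4) .dd)))))) (.br (nat_lit 11) (.ch (nat_lit 9)
 (.ev (nat_lit 976) (nat_lit 512) (.ev (nat_lit 1012) (nat_lit 4) (.ev (nat_lit 1024) (nat_lit 8589934592) (.ev
 (nat_lit 1037) (nat_lit 524288) .dd))))) (.br (nat_lit 12) (.ch (nat_lit 11) (.ev (nat_lit 900) (nat_lit 4)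
 (.ev (nat_lit 1012) (nat_lit 512) (.ev (nat_lit 1200) (nat_lit 8589934592) (.ev (nat_lit 1213) (nat_lit
 524288) .dd))))) (.ch (nat_lit 12) (.ev (nat_lit 848) (nat_lit 8590459396) .dd)))))))) (.br (nat_lit 5) (.ch
 (nat_lit 4) (.ev (nat_lit 336) (nat_lit 35193163415556) (.nd (nat_lit 832) (.br (nat_lit 4) (.br (nat_lit 1)
 (.ch (nat_lit 0) (.ev (nat_lit 1012) (nat_lit 33554432) (.ev (nat_lit 1188) (nat_lit 512) (.ev (nat_lit 1197)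
 (nat_lit 524288) .dd)))) (.br (nat_lit 3) (.ch (nat_lit 1) (.ev (nat_lit 1072) (nat_lit 33554432) (.ev
 (nat_lit 1108) (nat_lit 512) (.ev (nat_lit 1117) (nat_lit 524288) .dd)))) (.ch (nat_lit 3) (.ev (nat_lit 848)
 (nat_lit 512) (.ev (nat_lit 1200) (nat_lit 34078720) .dd))))) (.br (nat_lit 6) (.ch (nat_lit 4) (.ev (nat_lit
 900) (nat_lit 33554432) (.ev (nat_lit 1284) (nat_lit 512) (.ev (nat_lit 1293) (nat_lit 524288) .dd)))) (.br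
 (nat_lit 7) (.ch (nat_lit 6) (.ev (nat_lit 1108) (nat_lit 33554432) (.ev (nat_lit 1120) (nat_lit 524288) (.ev
 (nat_lit 1133) (nat_lit 512) .dd)))) (.ch (nat_lit 7) (.ev (nat_lit 848) (nat_lit 512) (.ev (nat_lit 1200)
 (nat_lit 524288) (.ev (nat_lit 1213) (nat_lit 33554432) .dd)))))))))) (.ch (nat_lit 5) (.ev (nat_lit 336)
 (nat_lit 35192995643396) (.nd (nat_lit 832) (.br (nat_lit 5) (.br (nat_lit 4) (.ch (nat_lit 1) (.ev (nat_lit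
 848) (nat_lit 67109376) (.nd (nat_lit 1793) (.ch (nat_lit 8) (.nd (nat_lit 1824) (.ch (nat_lit 3) (.fin
 (nat_lit 576474496163594850)))))))) (.ch (nat_lit 4) (.ev (nat_lit 848) (nat_lit 524800) (.ev (nat_lit 900)
 (nat_lit 134217728) (.ev (nat_lit 909) (nat_lit 67108864) .dd))))) (.br (nat_lit 6) (.ch (nat_lit 5) (.ev
 (nat_lit 848) (nat_lit 201851392) .dd)) (.ch (nat_lit 6) (.ev (nat_lit 848) (nat_lit 201326592) (.ev (nat_lit
 900) (nat_lit 524288) (.ev (nat_lit 909) (nat_lit 512) .dd))))))))))) (.br (nat_lit 11) (.br (nat_lit 9) (.ch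
 (nat_lit 6) (.ev (nat_lit 336) (nat_lit 134742020) (.nd (nat_lit 832) (.br (nat_lit 8) (.br (nat_lit 7) (.ch
 (nat_lit 3) (.ev (nat_lit 848) (nat_lit 33620480) (.ev (nat_lit 900) (nat_lit 35184439197696) (.ev (nat_lit
 909) (nat_lit 8589934592) .dd)))) (.ch (nat_lit 7) (.ev (nat_lit 848) (nat_lit 8690598400) (.ev (nat_lit 1024)
 (nat_lit 35184372154368) .dd)))) (.br (nat_lit 10) (.ch (nat_lit 8) (.ev (nat_lit 848) (nat_lit
 35192995643392) (.ev (nat_lit 900) (nat_lit 512) (.ev (nat_lit 909) (nat_lit 67108864) .dd)))) (.br (nat_lit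
 12) (.ch (nat_lit 10) (.ev (nat_lit 848) (nat_lit 35184405708800) (.ev (nat_lit 900) (nat_lit 67109376) (.ev
 (nat_lit 909) (nat_lit 8589934592) .dd)))) (.ch (nat_lit 12) (.ev (nat_lit 848) (nat_lit 35193029132800) (.nd
 (nat_lit 1761) (.br (nat_lit 6) (.ch (nat_lit 5) (.nd (nat_lit 1792) (.br (nat_lit 7) (.ch (nat_lit 2) (.fin
 (nat_lit 576465700104127060))) (.ch (nat_lit 7) (.ev (nat_lit 1808) (nat_lit 33619968) .dd))))) (.ch (nat_lit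
 6) (.ev (nat_lit 1777) (nat_lit 33619968) .dd)))))))))))) (.ch (nat_lit 9) (.ev (nat_lit 336) (nat_lit
 8624079360) (.nd (nat_lit 832) (.br (nat_lit 9) (.br (nat_lit 4) (.ch (nat_lit 3) (.ev (nat_lit 848) (nat_lit
 67108868) (.ev (nat_lit 900) (nat_lit 35184372088832) (.ev (nat_lit 909) (nat_lit 134217728) .dd)))) (.br
 (nat_lit 8) (.ch (nat_lit 4) (.ev (nat_lit 848) (nat_lit 35184573415424) (.ev (nat_lit 861) (nat_lit 4) .dd)))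
 (.ch (nat_lit 8) (.ev (nat_lit 848) (nat_lit 35184573415428) .dd)))) (.br (nat_lit 11) (.ch (nat_lit 9) (.ev
 (nat_lit 848) (nat_lit 35184573415424) (.ev (nat_lit 861) (nat_lit 4) .dd))) (.br (nat_lit 12) (.ch (nat_lit
 11) (.ev (nat_lit 848) (nat_lit 4) (.ev (nat_lit 900) (nat_lit 35184372088832) (.ev (nat_lit 1284) (nat_lit
 67108864) (.ev (nat_lit 1293) (nat_lit 134217728) .dd))))) (.ch (nat_lit 12) (.ev (nat_lit 848) (nat_lit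
 35184372088836) (.ev (nat_lit 900) (nat_lit 67108864) (.ev (nat_lit 909) (nat_lit 134217728) .dd)))))))))))
 (.br (nat_lit 12) (.ch (nat_lit 11) (.ev (nat_lit 336) (nat_lit 35193096830980) (.nd (nat_lit 832) (.br
 (nat_lit 4) (.br (nat_lit 3) (.ch (nat_lit 2) (.ev (nat_lit 944) (nat_lit 33554432) (.ev (nat_lit 1108)
 (nat_lit 512) (.ev (nat_lit 1117) (nat_lit 67108864) .dd)))) (.ch (nat_lit 3) (.ev (nat_lit 848) (nat_lit
 33554432) (.ev (nat_lit 912) (nat_lit 67108864) (.ev (nat_lit 925) (nat_lit 512) .dd))))) (.br (nat_lit 6)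
 (.ch (nat_lit 4) (.ev (nat_lit 848) (nat_lit 67109376) (.ev (nat_lit 861) (nat_lit 33554432) .dd))) (.br
 (nat_lit 8) (.ch (nat_lit 6) (.ev (nat_lit 848) (nat_lit 100663296) (.ev (nat_lit 861) (nat_lit 512) .dd)))
 (.ch (nat_lit 8) (.ev (nat_lit 848) (nat_lit 100663808) .dd)))))))) (.ch (nat_lit 12) (.ev (nat_lit 336)
 (nat_lit 8590524928) (.nd (nat_lit 832) (.br (nat_lit 7) (.br (nat_lit 4) (.ch (nat_lit 1) (.ev (nat_lit 848)
 (nat_lit 35184472752128) (.ev (nat_lit 900) (nat_lit 4) (.ev (nat_lit 909) (nat_lit 134217728) .dd)))) (.br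
 (nat_lit 6) (.ch (nat_lit 4) (.ev (nat_lit 848) (nat_lit 35184405643268) (.ev (nat_lit 1188) (nat_lit
 134217728) (.ev (nat_lit 1197) (nat_lit 67108864) .dd)))) (.ch (nat_lit 6) (.ev (nat_lit 848) (nat_lit
 35184372088836) (.ev (nat_lit 1012) (nat_lit 67108864) (.ev (nat_lit 1108) (nat_lit 134217728) (.ev (nat_lit
 1117) (nat_lit 33554432) .dd))))))) (.br (nat_lit 11) (.ch (nat_lit 7) (.ev (nat_lit 848) (nat_lit
 35184405643264) (.ev (nat_lit 900) (nat_lit 67108864) (.ev (nat_lit 1108) (nat_lit 4) (.ev (nat_lit 1117)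
 (nat_lit 134217728) .dd))))) (.br (nat_lit 12) (.ch (nat_lit 11) (.ev (nat_lit 848) (nat_lit 4) (.ev (nat_lit
 1012) (nat_lit 134217728) (.ev (nat_lit 1040) (nat_lit 35184372088832) (.ev (nat_lit 1120) (nat_lit 33554432)
 (.ev (nat_lit 1133) (nat_lit 67108864) .dd)))))) (.ch (nat_lit 12) (.ev (nat_lit 848) (nat_lit 35184472752132)
 (.ev (nat_lit 861) (nat_lit 134217728) .dd)))))))))))))))))) (.ch (nat_lit 16) (.ev (nat_lit 52) (nat_lit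
 105555398248452) (.ev (nat_lit 64) (nat_lit 352291721738) .dd)))) (.br (nat_lit 18) (.ch (nat_lit 17) (.ev
 (nat_lit 52) (nat_lit 8625127434) (.ev (nat_lit 64) (nat_lit 105899064842756) .dd))) (.ch (nat_lit 18) (.ev
 (nat_lit 52) (nat_lit 67961352) (.ev (nat_lit 84) (nat_lit 68753031168) (.ev (nat_lit 116) (nat_lit
 275012124672) (.ev (nat_lit 148) (nat_lit 1048576) (.nd (nat_lit 320) (.br (nat_lit 5) (.br (nat_lit 4) (.ch
 (nat_lit 0) (.ev (nat_lit 336) (nat_lit 105553118380034) (.nd (nat_lit 832) (.br (nat_lit 8) (.br (nat_lit 4)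
 (.ch (nat_lit 2) (.ev (nat_lit 848) (nat_lit 10737420292) (.ev (nat_lit 861) (nat_lit 4096) .dd))) (.br
 (nat_lit 5) (.ch (nat_lit 4) (.ev (nat_lit 848) (nat_lit 2147487744) (.ev (nat_lit 900) (nat_lit 2048) (.fin
 (nat_lit 576466799657697839))))) (.ch (nat_lit 5) (.ev (nat_lit 848) (nat_lit 2147483652) (.ev (nat_lit 864)
 (nat_lit 8589934592) (.ev (nat_lit 1108) (nat_lit 2048) (.ev (nat_lit 1117) (nat_lit 4096) .dd))))))) (.br
 (nat_lit 9) (.ch (nat_lit 8) (.ev (nat_lit 848) (nat_lit 4096) (.ev (nat_lit 900) (nat_lit 2147485696) (.ev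
 (nat_lit 1460) (nat_lit 8589934592) (.ev (nat_lit 1469) (nat_lit 4) .dd))))) (.br (nat_lit 11) (.ch (nat_lit
 9) (.ev (nat_lit 848) (nat_lit 4100) (.ev (nat_lit 900) (nat_lit 2048) (.ev (nat_lit 1072) (nat_lit
 2147483648) (.ev (nat_lit 1085) (nat_lit 8589934592) .dd))))) (.ch (nat_lit 11) (.ev (nat_lit 848) (nat_lit
 8589936640) (.ev (nat_lit 1040) (nat_lit 4) (.nd (nat_lit 1761) (.ch (nat_lit 25) (.nd (nat_lit 1792) (.br
 (nat_lit 11) (.ch (nat_lit 6) (.ev (nat_lit 1808) (nat_lit 2147487744) .dd)) (.ch (nat_lit 11) (.fin (nat_lit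
 576462401573438018)))))))))))))))) (.ch (nat_lit 4) (.ev (nat_lit 336) (nat_lit 35195111610372) (.nd (nat_lit
 832) (.br (nat_lit 6) (.br (nat_lit 3) (.ch (nat_lit 0) (.ev (nat_lit 848) (nat_lit 70368744177666) (.ev
 (nat_lit 861) (nat_lit 16384) .dd))) (.ch (nat_lit 3) (.ev (nat_lit 848) (nat_lit 16386) (.ev (nat_lit 861)
 (nat_lit 70368744177664) .dd)))) (.br (nat_lit 7) (.ch (nat_lit 6) (.ev (nat_lit 848) (nat_lit 70368744194048)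
 (.ev (nat_lit 861) (nat_lit 2) .dd))) (.br (nat_lit 12) (.ch (nat_lit 7) (.ev (nat_lit 848) (nat_lit 16384)
 (.ev (nat_lit 900) (nat_lit 2) (.ev (nat_lit 909) (nat_lit 70368744177664) .dd)))) (.ch (nat_lit 12) (.ev
 (nat_lit 848) (nat_lit 70368744194050) .dd))))))))) (.br (nat_lit 9) (.ch (nat_lit 5) (.ev (nat_lit 336)
 (nat_lit 70379481600006) (.nd (nat_lit 832) (.br (nat_lit 6) (.br (nat_lit 5) (.ch (nat_lit 1) (.ev (nat_lit
 848) (nat_lit 35184372088832) (.ev (nat_lit 900) (nat_lit 2097152) (.ev (nat_lit 944) (nat_lit 2048) (.ev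
 (nat_lit 957) (nat_lit 16384) .dd))))) (.ch (nat_lit 5) (.ev (nat_lit 848) (nat_lit 35184374188032) (.ev
 (nat_lit 861) (nat_lit 16384) .dd)))) (.br (nat_lit 10) (.ch (nat_lit 6) (.ev (nat_lit 848) (nat_lit
 35184372105216) (.ev (nat_lit 1024) (nat_lit 2048) (.ev (nat_lit 1037) (nat_lit 2097152) .dd)))) (.br (nat_lit
 12) (.ch (nat_lit 10) (.ev (nat_lit 848) (nat_lit 2115584) (.ev (nat_lit 861) (nat_lit 35184372088832) .dd)))
 (.ch (nat_lit 12) (.ev (nat_lit 848) (nat_lit 35184372090880) (.ev (nat_lit 928) (nat_lit 2097152) (.ev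
 (nat_lit 941) (nat_lit 16384) .dd)))))))))) (.br (nat_lit 11) (.ch (nat_lit 9) (.ev (nat_lit 336) (nat_lit
 70370893764608) (.ev (nat_lit 710) (nat_lit 2) (.nd (nat_lit 832) (.br (nat_lit 10) (.br (nat_lit 8) (.ch
 (nat_lit 1) (.ev (nat_lit 848) (nat_lit 35192962023428) (.ev (nat_lit 861) (nat_lit 16384) .dd))) (.ch
 (nat_lit 8) (.ev (nat_lit 848) (nat_lit 8589934596) (.ev (nat_lit 900) (nat_lit 35184372088832) (.ev (nat_lit
 909) (nat_lit 16384) .dd))))) (.br (nat_lit 11) (.ch (nat_lit 10) (.ev (nat_lit 848) (nat_lit 8589934592) (.ev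
 (nat_lit 1012) (nat_lit 4) (.ev (nat_lit 1136) (nat_lit 35184372105216) .dd)))) (.br (nat_lit 12) (.ch
 (nat_lit 11) (.ev (nat_lit 848) (nat_lit 16384) (.ev (nat_lit 900) (nat_lit 4) (.ev (nat_lit 1012) (nat_lit
 8589934592) (.ev (nat_lit 1021) (nat_lit 35184372088832) .dd))))) (.ch (nat_lit 12) (.ev (nat_lit 848)
 (nat_lit 35184372105220) (.ev (nat_lit 861) (nat_lit 8589934592) .dd)))))))))) (.ch (nat_lit 11) (.ev (nat_lit
 336) (nat_lit 10737438726) (.nd (nat_lit 832) (.br (nat_lit 2) (.br (nat_lit 1) (.ch (nat_lit 0) (.ev (nat_lit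
 848) (nat_lit 70368746276864) (.ev (nat_lit 861) (nat_lit 35184372088832) .dd))) (.ch (nat_lit 1) (.ev
 (nat_lit 848) (nat_lit 35184374185984) (.ev (nat_lit 1024) (nat_lit 70368744177664) (.ev (nat_lit 1037)
 (nat_lit 2048) .dd))))) (.br (nat_lit 3) (.ch (nat_lit 2) (.ev (nat_lit 848) (nat_lit 70368744179712) (.ev
 (nat_lit 900) (nat_lit 2097152) (.ev (nat_lit 909) (nat_lit 35184372088832) .dd)))) (.br (nat_lit 8) (.ch
 (nat_lit 3) (.ev (nat_lit 848) (nat_lit 70368746274816) (.ev (nat_lit 1012) (nat_lit 35184372088832) (.ev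
 (nat_lit 1021) (nat_lit 2048) .dd)))) (.ch (nat_lit 8) (.ev (nat_lit 848) (nat_lit 35184372090880) (.fin
 (nat_lit 576487690378625622))))))))))))))))))))))) (.br (nat_lit 26) (.br (nat_lit 22) (.br (nat_lit 20) (.ch
 (nat_lit 19) (.ev (nat_lit 52) (nat_lit 8758235144) (.ev (nat_lit 64) (nat_lit 105898931735046) .dd))) (.br
 (nat_lit 21) (.ch (nat_lit 20) (.ev (nat_lit 52) (nat_lit 10771302404) (.ev (nat_lit 84) (nat_lit 4096) (.ev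
 (nat_lit 116) (nat_lit 2) (.ev (nat_lit 148) (nat_lit 274877906944) (.nd (nat_lit 320) (.br (nat_lit 9) (.br
 (nat_lit 6) (.ch (nat_lit 5) (.ev (nat_lit 336) (nat_lit 70368745226752) (.ev (nat_lit 420) (nat_lit 2097152)
 (.nd (nat_lit 832) (.br (nat_lit 4) (.br (nat_lit 1) (.ch (nat_lit 0) (.ev (nat_lit 848) (nat_lit 67633152)
 (.ev (nat_lit 900) (nat_lit 35184506306560) (.ev (nat_lit 1200) (nat_lit 8) (.ev (nat_lit 1380) (nat_lit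
 68719476736) (.ev (nat_lit 1389) (nat_lit 16384) .dd)))))) (.br (nat_lit 3) (.ch (nat_lit 1) (.ev (nat_lit
 848) (nat_lit 68719476736) (.ev (nat_lit 1108) (nat_lit 35184372088832) (.ev (nat_lit 1284) (nat_lit 16384)
 (.ev (nat_lit 1460) (nat_lit 67108872) (.fin (nat_lit 576474496163594850))))))) (.ch (nat_lit 3) (.ev (nat_lit
 848) (nat_lit 35253226307584) (.ev (nat_lit 1424) (nat_lit 16384) (.ev (nat_lit 1460) (nat_lit 8) (.ev
 (nat_lit 1469) (nat_lit 67108864) .dd))))))) (.br (nat_lit 5) (.ch (nat_lit 4) (.ev (nat_lit 848) (nat_lit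
 68853694464) (.ev (nat_lit 1108) (nat_lit 524288) (.ev (nat_lit 1380) (nat_lit 35184372105224) (.ev (nat_lit
 1389) (nat_lit 67108864) .dd))))) (.br (nat_lit 12) (.ch (nat_lit 5) (.ev (nat_lit 848) (nat_lit 68920803328)
 (.ev (nat_lit 900) (nat_lit 524288) (.ev (nat_lit 1284) (nat_lit 35184372088832) (.ev (nat_lit 1408) (nat_lit
 8) (.ev (nat_lit 1421) (nat_lit 16384) .dd)))))) (.ch (nat_lit 12) (.ev (nat_lit 848) (nat_lit 35184573415424)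
 (.ev (nat_lit 900) (nat_lit 524288) (.ev (nat_lit 1012) (nat_lit 68719476736) (.ev (nat_lit 1200) (nat_lit
 16384) (.ev (nat_lit 1213) (nat_lit 8) .dd))))))))))))) (.br (nat_lit 8) (.ch (nat_lit 6) (.ev (nat_lit 336)
 (nat_lit 70368880493064) (.nd (nat_lit 832) (.br (nat_lit 5) (.br (nat_lit 1) (.ch (nat_lit 0) (.ev (nat_lit
 848) (nat_lit 67633152) (.ev (nat_lit 864) (nat_lit 1048576) (.ev (nat_lit 900) (nat_lit 16384) (.ev (nat_lit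
 1012) (nat_lit 35184372088832) (.ev (nat_lit 1021) (nat_lit 68719476736) .dd)))))) (.br (nat_lit 3) (.ch
 (nat_lit 1) (.ev (nat_lit 848) (nat_lit 35184373153792) (.ev (nat_lit 1012) (nat_lit 524288) (.ev (nat_lit
 1088) (nat_lit 67108864) (.ev (nat_lit 1101) (nat_lit 68719476736) .dd))))) (.ch (nat_lit 3) (.ev (nat_lit
 848) (nat_lit 68721049600) (.ev (nat_lit 1108) (nat_lit 35184439197696) (.ev (nat_lit 1117) (nat_lit 16384)
 .dd)))))) (.br (nat_lit 8) (.br (nat_lit 7) (.ch (nat_lit 5) (.ev (nat_lit 848) (nat_lit 35253160263680) .dd))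
 (.ch (nat_lit 7) (.ev (nat_lit 848) (nat_lit 68787109888) (.ev (nat_lit 912) (nat_lit 1048576) (.fin (nat_lit
 576455804463825450)))))) (.br (nat_lit 10) (.ch (nat_lit 8) (.ev (nat_lit 848) (nat_lit 35184373137408) (.ev
 (nat_lit 1188) (nat_lit 67633152) (.ev (nat_lit 1200) (nat_lit 16384) (.ev (nat_lit 1213) (nat_lit
 68719476736) .dd))))) (.ch (nat_lit 10) (.ev (nat_lit 848) (nat_lit 35184372088832) (.ev (nat_lit 900)
 (nat_lit 68787109888) (.ev (nat_lit 912) (nat_lit 1048576) (.ev (nat_lit 925) (nat_lit 16384) .dd)))))))))))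
 (.ch (nat_lit 8) (.ev (nat_lit 336) (nat_lit 68723147272) (.nd (nat_lit 832) (.br (nat_lit 9) (.br (nat_lit 2)
 (.ch (nat_lit 1) (.ev (nat_lit 848) (nat_lit 35184439214080) (.ev (nat_lit 1380) (nat_lit 134217728) (.ev
 (nat_lit 1389) (nat_lit 70368744177664) .dd)))) (.br (nat_lit 8) (.ch (nat_lit 2) (.ev (nat_lit 900) (nat_lit
 16384) (.ev (nat_lit 1108) (nat_lit 67108864) (.ev (nat_lit 1284) (nat_lit 35184372088832) (.ev (nat_lit 1380)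
 (nat_lit 134217728) (.ev (nat_lit 1389) (nat_lit 70368744177664) .dd)))))) (.ch (nat_lit 8) (.ev (nat_lit 848)
 (nat_lit 67125248) (.ev (nat_lit 900) (nat_lit 35184372088832) (.ev (nat_lit 1012) (nat_lit 134217728) (.ev
 (nat_lit 1021) (nat_lit 70368744177664) .dd))))))) (.br (nat_lit 11) (.ch (nat_lit 9) (.ev (nat_lit 848)
 (nat_lit 35184439214080) (.ev (nat_lit 900) (nat_lit 134217728) (.ev (nat_lit 909) (nat_lit 70368744177664)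
 .dd)))) (.br (nat_lit 12) (.ch (nat_lit 11) (.ev (nat_lit 848) (nat_lit 16384) (.ev (nat_lit 1460) (nat_lit
 105553116266496) (.fin (nat_lit 576426117662458356))))) (.ch (nat_lit 12) (.ev (nat_lit 848) (nat_lit
 35184372088832) (.ev (nat_lit 900) (nat_lit 67108864) (.ev (nat_lit 1012) (nat_lit 134217728) (.ev (nat_lit
 1200) (nat_lit 70368744177664) (.ev (nat_lit 1213) (nat_lit 16384) .dd)))))))))))))) (.br (nat_lit 11) (.ch
 (nat_lit 9) (.ev (nat_lit 336) (nat_lit 68723146752) (.ev (nat_lit 420) (nat_lit 512) (.ev (nat_lit 726)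
 (nat_lit 70368744177664) (.nd (nat_lit 832) (.br (nat_lit 9) (.br (nat_lit 4) (.br (nat_lit 3) (.ch (nat_lit
 2) (.ev (nat_lit 848) (nat_lit 35184439214088) (.ev (nat_lit 861) (nat_lit 134217728) .dd))) (.ch (nat_lit 3)
 (.ev (nat_lit 848) (nat_lit 35184506322944) (.ev (nat_lit 912) (nat_lit 67108864) (.ev (nat_lit 925) (nat_lit
 8) .dd))))) (.br (nat_lit 8) (.ch (nat_lit 4) (.ev (nat_lit 848) (nat_lit 35184573431808) (.ev (nat_lit 861)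
 (nat_lit 8) .dd))) (.ch (nat_lit 8) (.ev (nat_lit 848) (nat_lit 201326600) (.ev (nat_lit 900) (nat_lit 16384)
 (.ev (nat_lit 909) (nat_lit 35184372088832) .dd)))))) (.br (nat_lit 11) (.br (nat_lit 10) (.ch (nat_lit 9)
 (.ev (nat_lit 848) (nat_lit 201342984) (.ev (nat_lit 861) (nat_lit 35184372088832) .dd))) (.ch (nat_lit 10)
 (.ev (nat_lit 848) (nat_lit 35184573415432) (.ev (nat_lit 861) (nat_lit 16384) .dd)))) (.br (nat_lit 12) (.ch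
 (nat_lit 11) (.ev (nat_lit 848) (nat_lit 35184372105216) (.ev (nat_lit 1380) (nat_lit 67108864) (.ev (nat_lit
 1504) (nat_lit 8) (.ev (nat_lit 1517) (nat_lit 134217728) .dd))))) (.ch (nat_lit 12) (.ev (nat_lit 848)
 (nat_lit 134234120) (.ev (nat_lit 1056) (nat_lit 67108864) (.ev (nat_lit 1069) (nat_lit 35184372088832)
 .dd)))))))))))) (.br (nat_lit 12) (.ch (nat_lit 11) (.ev (nat_lit 336) (nat_lit 68857380864) (.nd (nat_lit
 832) (.br (nat_lit 6) (.br (nat_lit 1) (.ch (nat_lit 0) (.ev (nat_lit 848) (nat_lit 67109376) (.ev (nat_lit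
 900) (nat_lit 35184372088832) (.ev (nat_lit 1408) (nat_lit 8) (.ev (nat_lit 1421) (nat_lit 70368744177664)
 .dd))))) (.br (nat_lit 2) (.ch (nat_lit 1) (.ev (nat_lit 848) (nat_lit 35184372089344) (.ev (nat_lit 1108)
 (nat_lit 8) (.ev (nat_lit 1408) (nat_lit 70368744177664) (.ev (nat_lit 1421) (nat_lit 67108864) .dd))))) (.ch
 (nat_lit 2) (.ev (nat_lit 848) (nat_lit 512) (.ev (nat_lit 1188) (nat_lit 105553116266496) (.ev (nat_lit 1460)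
 (nat_lit 8) (.ev (nat_lit 1469) (nat_lit 67108864) .dd))))))) (.br (nat_lit 8) (.ch (nat_lit 6) (.ev (nat_lit
 848) (nat_lit 35184439197696) (.ev (nat_lit 1120) (nat_lit 8) (.ev (nat_lit 1380) (nat_lit 512) (.ev (nat_lit
 1389) (nat_lit 70368744177664) .dd))))) (.br (nat_lit 12) (.ch (nat_lit 8) (.ev (nat_lit 848) (nat_lit
 35184439197696) (.ev (nat_lit 1120) (nat_lit 70368744177664) (.ev (nat_lit 1188) (nat_lit 512) (.ev (nat_lit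
 1197) (nat_lit 8) .dd))))) (.ch (nat_lit 12) (.ev (nat_lit 848) (nat_lit 512) (.ev (nat_lit 1012) (nat_lit
 35184372088840) (.ev (nat_lit 1392) (nat_lit 67108864) (.ev (nat_lit 1405) (nat_lit 70368744177664)
 .dd))))))))))) (.ch (nat_lit 12) (.ev (nat_lit 336) (nat_lit 70368747864584) (.ev (nat_lit 432) (nat_lit
 68719476736) (.nd (nat_lit 832) (.br (nat_lit 7) (.br (nat_lit 4) (.ch (nat_lit 1) (.ev (nat_lit 848) (nat_lit
 67108864) (.ev (nat_lit 1088) (nat_lit 134217728) (.ev (nat_lit 1101) (nat_lit 35184372088832) .dd)))) (.br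
 (nat_lit 5) (.ch (nat_lit 4) (.ev (nat_lit 848) (nat_lit 35184372088832) (.ev (nat_lit 912) (nat_lit
 134217728) (.ev (nat_lit 925) (nat_lit 67108864) .dd)))) (.ch (nat_lit 5) (.ev (nat_lit 848) (nat_lit
 201326592) (.ev (nat_lit 861) (nat_lit 35184372088832) .dd))))) (.br (nat_lit 11) (.br (nat_lit 9) (.ch
 (nat_lit 7) (.ev (nat_lit 1120) (nat_lit 35184573415424) .dd)) (.ch (nat_lit 9) (.ev (nat_lit 848) (nat_lit
 35184573415424) .dd))) (.br (nat_lit 12) (.ch (nat_lit 11) (.ev (nat_lit 848) (nat_lit 35184372088832) (.ev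
 (nat_lit 1284) (nat_lit 134217728) (.ev (nat_lit 1293) (nat_lit 67108864) .dd)))) (.ch (nat_lit 12) (.ev
 (nat_lit 848) (nat_lit 67108864) (.ev (nat_lit 1088) (nat_lit 134217728) (.ev (nat_lit 1101) (nat_lit
 35184372088832) .dd)))))))))))))))))))) (.ch (nat_lit 21) (.ev (nat_lit 52) (nat_lit 70377569321472) (.ev
 (nat_lit 96) (nat_lit 35530120648718) .dd))))) (.br (nat_lit 24) (.ch (nat_lit 22) (.ev (nat_lit 52) (nat_lit
 1064960) (.ev (nat_lit 84) (nat_lit 512) (.ev (nat_lit 116) (nat_lit 70643622346752) (.ev (nat_lit 148)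
 (nat_lit 65538) (.ev (nat_lit 180) (nat_lit 4104) (.nd (nat_lit 320) (.br (nat_lit 5) (.br (nat_lit 1) (.ch
 (nat_lit 0) (.ev (nat_lit 336) (nat_lit 35253326446592) (.ev (nat_lit 420) (nat_lit 2147483648) (.nd (nat_lit
 832) (.br (nat_lit 8) (.br (nat_lit 4) (.ch (nat_lit 1) (.ev (nat_lit 848) (nat_lit 8589934596) (.ev (nat_lit
 1012) (nat_lit 2097152) (.ev (nat_lit 1072) (nat_lit 2048) (.ev (nat_lit 1085) (nat_lit 524288) .dd))))) (.br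
 (nat_lit 5) (.ch (nat_lit 4) (.ev (nat_lit 848) (nat_lit 2621444) (.ev (nat_lit 900) (nat_lit 2048) (.ev
 (nat_lit 909) (nat_lit 8589934592) .dd)))) (.ch (nat_lit 5) (.ev (nat_lit 848) (nat_lit 8589934596) (.ev
 (nat_lit 900) (nat_lit 2048) (.ev (nat_lit 1012) (nat_lit 2097152) (.ev (nat_lit 1021) (nat_lit 524288)
 .dd))))))) (.br (nat_lit 9) (.ch (nat_lit 8) (.ev (nat_lit 848) (nat_lit 8592556032) (.ev (nat_lit 1168)
 (nat_lit 4) (.ev (nat_lit 1181) (nat_lit 2048) .dd)))) (.br (nat_lit 12) (.ch (nat_lit 9) (.ev (nat_lit 848)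
 (nat_lit 2621440) (.ev (nat_lit 1012) (nat_lit 8589934592) (.ev (nat_lit 1188) (nat_lit 2048) (.ev (nat_lit
 1197) (nat_lit 4) .dd))))) (.ch (nat_lit 12) (.ev (nat_lit 848) (nat_lit 2621444) (.ev (nat_lit 900) (nat_lit
 8589934592) (.ev (nat_lit 909) (nat_lit 2048) .dd))))))))))) (.br (nat_lit 4) (.ch (nat_lit 1) (.ev (nat_lit
 336) (nat_lit 35195210170372) (.nd (nat_lit 832) (.br (nat_lit 4) (.br (nat_lit 1) (.ch (nat_lit 0) (.ev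
 (nat_lit 848) (nat_lit 68856317952) .dd)) (.ch (nat_lit 1) (.ev (nat_lit 848) (nat_lit 524288) (.ev (nat_lit
 944) (nat_lit 134217728) (.ev (nat_lit 1072) (nat_lit 2048) (.ev (nat_lit 1188) (nat_lit 2097152) (.ev
 (nat_lit 1197) (nat_lit 68719476736) .dd))))))) (.br (nat_lit 6) (.ch (nat_lit 4) (.ev (nat_lit 848) (nat_lit
 136841216) (.ev (nat_lit 861) (nat_lit 68719476736) .dd))) (.br (nat_lit 7) (.ch (nat_lit 6) (.ev (nat_lit
 848) (nat_lit 68856317952) .dd)) (.ch (nat_lit 7) (.ev (nat_lit 848) (nat_lit 68719476736) (.ev (nat_lit 1188)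
 (nat_lit 524288) (.ev (nat_lit 1284) (nat_lit 2097152) (.nd (nat_lit 1761) (.ch (nat_lit 26) (.nd (nat_lit
 1792) (.br (nat_lit 1) (.ch (nat_lit 0) (.ev (nat_lit 1808) (nat_lit 134219776) .dd)) (.ch (nat_lit 1) (.fin
 (nat_lit 576377739182293500))))))))))))))))) (.ch (nat_lit 4) (.ev (nat_lit 336) (nat_lit 35195312932868) (.nd
 (nat_lit 832) (.br (nat_lit 4) (.ch (nat_lit 1) (.ev (nat_lit 848) (nat_lit 524288) (.ev (nat_lit 1108)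
 (nat_lit 33554432) (.ev (nat_lit 1117) (nat_lit 68719476736) .dd)))) (.br (nat_lit 12) (.ch (nat_lit 4) (.ev
 (nat_lit 848) (nat_lit 68719476736) (.ev (nat_lit 1108) (nat_lit 33554432) (.ev (nat_lit 1117) (nat_lit
 524288) .dd)))) (.ch (nat_lit 12) (.ev (nat_lit 848) (nat_lit 68753555456) .dd))))))))) (.br (nat_lit 11) (.br
 (nat_lit 8) (.ch (nat_lit 5) (.ev (nat_lit 336) (nat_lit 10972299268) (.nd (nat_lit 832) (.br (nat_lit 8) (.br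
 (nat_lit 4) (.ch (nat_lit 0) (.ev (nat_lit 848) (nat_lit 68722100224) (.ev (nat_lit 861) (nat_lit
 35184372088832) .dd))) (.ch (nat_lit 4) (.ev (nat_lit 848) (nat_lit 2623488) (.ev (nat_lit 900) (nat_lit
 35184372088832) (.ev (nat_lit 909) (nat_lit 68719476736) .dd))))) (.br (nat_lit 10) (.ch (nat_lit 8) (.ev
 (nat_lit 848) (nat_lit 35253091565568) (.ev (nat_lit 900) (nat_lit 2048) (.ev (nat_lit 1108) (nat_lit 524288)
 (.ev (nat_lit 1117) (nat_lit 2097152) .dd))))) (.br (nat_lit 12) (.ch (nat_lit 10) (.ev (nat_lit 848) (nat_lit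
 35184374712320) (.ev (nat_lit 861) (nat_lit 68719476736) .dd))) (.ch (nat_lit 12) (.ev (nat_lit 848) (nat_lit
 35184372090880) (.ev (nat_lit 900) (nat_lit 2097152) (.ev (nat_lit 944) (nat_lit 524288) (.ev (nat_lit 957)
 (nat_lit 68719476736) .dd))))))))))) (.ch (nat_lit 8) (.ev (nat_lit 336) (nat_lit 35263865161728) (.nd
 (nat_lit 832) (.br (nat_lit 6) (.br (nat_lit 2) (.ch (nat_lit 0) (.ev (nat_lit 848) (nat_lit 134217732) (.ev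
 (nat_lit 861) (nat_lit 67108864) .dd))) (.br (nat_lit 5) (.ch (nat_lit 2) (.ev (nat_lit 848) (nat_lit
 67108868) (.ev (nat_lit 861) (nat_lit 134217728) .dd))) (.ch (nat_lit 5) (.ev (nat_lit 848) (nat_lit
 134217732) (.ev (nat_lit 861) (nat_lit 67108864) .dd))))) (.br (nat_lit 9) (.ch (nat_lit 6) (.ev (nat_lit 848)
 (nat_lit 134217728) (.ev (nat_lit 1216) (nat_lit 67108864) (.ev (nat_lit 1229) (nat_lit 4) .dd)))) (.br
 (nat_lit 11) (.ch (nat_lit 9) (.ev (nat_lit 848) (nat_lit 201326592) (.ev (nat_lit 861) (nat_lit 4) .dd)))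
 (.ch (nat_lit 11) (.ev (nat_lit 848) (nat_lit 4) (.fin (nat_lit 576496486459064972))))))))))) (.br (nat_lit
 12) (.ch (nat_lit 11) (.ev (nat_lit 336) (nat_lit 10941366276) (.nd (nat_lit 832) (.br (nat_lit 6) (.br
 (nat_lit 5) (.ch (nat_lit 1) (.ev (nat_lit 848) (nat_lit 35253091565568) (.ev (nat_lit 1012) (nat_lit
 33554432) (.ev (nat_lit 1021) (nat_lit 2048) .dd)))) (.ch (nat_lit 5) (.ev (nat_lit 848) (nat_lit
 35184372090880) (.ev (nat_lit 900) (nat_lit 33554432) (.ev (nat_lit 909) (nat_lit 68719476736) .dd))))) (.br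
 (nat_lit 12) (.ch (nat_lit 6) (.ev (nat_lit 848) (nat_lit 68753033216) (.ev (nat_lit 861) (nat_lit
 35184372088832) .dd))) (.ch (nat_lit 12) (.ev (nat_lit 848) (nat_lit 68753033216) (.ev (nat_lit 861) (nat_lit
 35184372088832) .dd)))))))) (.ch (nat_lit 12) (.ev (nat_lit 336) (nat_lit 10874259456) (.nd (nat_lit 832) (.br
 (nat_lit 5) (.br (nat_lit 1) (.ch (nat_lit 0) (.ev (nat_lit 848) (nat_lit 35253125120004) (.ev (nat_lit 861)
 (nat_lit 67108864) .dd))) (.br (nat_lit 4) (.ch (nat_lit 1) (.ev (nat_lit 848) (nat_lit 35184439197700) (.ev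
 (nat_lit 900) (nat_lit 68719476736) (.ev (nat_lit 909) (nat_lit 33554432) .dd)))) (.ch (nat_lit 4) (.ev
 (nat_lit 848) (nat_lit 35253192228868) .dd)))) (.br (nat_lit 7) (.ch (nat_lit 5) (.ev (nat_lit 848) (nat_lit
 35184439197696) (.ev (nat_lit 1392) (nat_lit 4) (.fin (nat_lit 576475595715068447))))) (.br (nat_lit 11) (.ch
 (nat_lit 7) (.ev (nat_lit 848) (nat_lit 35253125120000) (.ev (nat_lit 1108) (nat_lit 4) (.ev (nat_lit 1117)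
 (nat_lit 67108864) .dd)))) (.ch (nat_lit 11) (.ev (nat_lit 848) (nat_lit 67108868) (.ev (nat_lit 864) (nat_lit
 68719476736) (.ev (nat_lit 900) (nat_lit 35184372088832) (.ev (nat_lit 909) (nat_lit 33554432)
 .dd))))))))))))))))))))) (.br (nat_lit 25) (.ch (nat_lit 24) (.ev (nat_lit 52) (nat_lit 105621837058050) (.ev
 (nat_lit 116) (nat_lit 67108868) (.ev (nat_lit 260) (nat_lit 274877906944) (.nd (nat_lit 320) (.br (nat_lit 6)
 (.br (nat_lit 1) (.ch (nat_lit 0) (.ev (nat_lit 336) (nat_lit 10907372040) (.ev (nat_lit 349) (nat_lit 524288)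
 .dd))) (.br (nat_lit 4) (.ch (nat_lit 1) (.ev (nat_lit 336) (nat_lit 2315796488) (.nd (nat_lit 832) (.br
 (nat_lit 6) (.br (nat_lit 3) (.ch (nat_lit 1) (.ev (nat_lit 848) (nat_lit 65536) (.ev (nat_lit 1284) (nat_lit
 8592031744) (.ev (nat_lit 1360) (nat_lit 2048) (.ev (nat_lit 1373) (nat_lit 512) .dd))))) (.br (nat_lit 4)
 (.ch (nat_lit 3) (.ev (nat_lit 848) (nat_lit 512) (.ev (nat_lit 1012) (nat_lit 2097152) (.ev (nat_lit 1024)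
 (nat_lit 8589934592) (.ev (nat_lit 1072) (nat_lit 65536) (.ev (nat_lit 1085) (nat_lit 2048) .dd)))))) (.ch
 (nat_lit 4) (.ev (nat_lit 848) (nat_lit 8592033792) (.ev (nat_lit 912) (nat_lit 65536) (.ev (nat_lit 925)
 (nat_lit 512) .dd)))))) (.br (nat_lit 8) (.br (nat_lit 7) (.ch (nat_lit 6) (.ev (nat_lit 848) (nat_lit
 8589935104) (.ev (nat_lit 900) (nat_lit 2048) (.ev (nat_lit 1108) (nat_lit 2097152) (.ev (nat_lit 1117)
 (nat_lit 65536) .dd))))) (.ch (nat_lit 7) (.ev (nat_lit 848) (nat_lit 8589937152) (.ev (nat_lit 864) (nat_lit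
 2162688) .dd)))) (.br (nat_lit 10) (.ch (nat_lit 8) (.ev (nat_lit 848) (nat_lit 2165248) (.ev (nat_lit 861)
 (nat_lit 8589934592) .dd))) (.ch (nat_lit 10) (.ev (nat_lit 848) (nat_lit 2165248) (.ev (nat_lit 861) (nat_lit
 8589934592) .dd))))))))) (.ch (nat_lit 4) (.ev (nat_lit 336) (nat_lit 8726317568) (.nd (nat_lit 832) (.br
 (nat_lit 4) (.br (nat_lit 1) (.ch (nat_lit 0) (.ev (nat_lit 848) (nat_lit 2147483656) (.ev (nat_lit 900)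
 (nat_lit 16384) (.ev (nat_lit 912) (nat_lit 33554432) (.ev (nat_lit 925) (nat_lit 524288) .dd))))) (.br
 (nat_lit 3) (.ch (nat_lit 1) (.ev (nat_lit 848) (nat_lit 2181054464) (.ev (nat_lit 900) (nat_lit 524288) (.ev
 (nat_lit 909) (nat_lit 8) .dd)))) (.ch (nat_lit 3) (.ev (nat_lit 848) (nat_lit 540680) (.ev (nat_lit 900)
 (nat_lit 33554432) (.ev (nat_lit 909) (nat_lit 2147483648) .dd)))))) (.br (nat_lit 8) (.br (nat_lit 7) (.ch
 (nat_lit 4) (.ev (nat_lit 848) (nat_lit 540680) (.ev (nat_lit 864) (nat_lit 2181038080) .dd))) (.ch (nat_lit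
 7) (.ev (nat_lit 848) (nat_lit 16392) (.ev (nat_lit 900) (nat_lit 524288) (.ev (nat_lit 1012) (nat_lit
 33554432) (.ev (nat_lit 1021) (nat_lit 2147483648) .dd)))))) (.br (nat_lit 9) (.ch (nat_lit 8) (.ev (nat_lit
 848) (nat_lit 2181578752) (.ev (nat_lit 861) (nat_lit 8) .dd))) (.ch (nat_lit 9) (.ev (nat_lit 848) (nat_lit
 34078728) (.ev (nat_lit 1284) (nat_lit 2147483648) (.ev (nat_lit 1293) (nat_lit 16384) .dd)))))))))))) (.br
 (nat_lit 11) (.br (nat_lit 8) (.ch (nat_lit 6) (.ev (nat_lit 336) (nat_lit 8724678664) (.ev (nat_lit 400)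
 (nat_lit 2097664) (.nd (nat_lit 832) (.br (nat_lit 10) (.br (nat_lit 5) (.ch (nat_lit 4) (.ev (nat_lit 848)
 (nat_lit 33570816) (.ev (nat_lit 900) (nat_lit 2147483648) (.ev (nat_lit 909) (nat_lit 65536) .dd)))) (.ch
 (nat_lit 5) (.ev (nat_lit 848) (nat_lit 2147549184) (.ev (nat_lit 900) (nat_lit 16384) (.ev (nat_lit 909)
 (nat_lit 33554432) .dd))))) (.br (nat_lit 12) (.ch (nat_lit 10) (.ev (nat_lit 848) (nat_lit 2181038080) (.ev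
 (nat_lit 928) (nat_lit 16384) (.ev (nat_lit 941) (nat_lit 65536) .dd)))) (.ch (nat_lit 12) (.ev (nat_lit 848)
 (nat_lit 81920) (.ev (nat_lit 1012) (nat_lit 33554432) (.ev (nat_lit 1021) (nat_lit 2147483648) .dd))))))))))
 (.ch (nat_lit 8) (.ev (nat_lit 336) (nat_lit 36178440) (.nd (nat_lit 832) (.br (nat_lit 5) (.br (nat_lit 1)
 (.ch (nat_lit 0) (.ev (nat_lit 848) (nat_lit 8724217856) (.ev (nat_lit 1284) (nat_lit 16384) (.ev (nat_lit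
 1293) (nat_lit 2147483648) .dd)))) (.br (nat_lit 2) (.ch (nat_lit 1) (.ev (nat_lit 848) (nat_lit 2281783296)
 (.ev (nat_lit 861) (nat_lit 8589934592) .dd))) (.ch (nat_lit 2) (.ev (nat_lit 848) (nat_lit 10737418240) (.ev
 (nat_lit 900) (nat_lit 134217728) (.ev (nat_lit 1012) (nat_lit 65536) (.ev (nat_lit 1021) (nat_lit 16384)
 .dd))))))) (.br (nat_lit 8) (.br (nat_lit 6) (.ch (nat_lit 5) (.ev (nat_lit 848) (nat_lit 10871635968) (.ev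
 (nat_lit 864) (nat_lit 81920) .dd))) (.ch (nat_lit 6) (.ev (nat_lit 848) (nat_lit 10871635968) (.ev (nat_lit
 900) (nat_lit 65536) (.ev (nat_lit 909) (nat_lit 16384) .dd))))) (.br (nat_lit 9) (.ch (nat_lit 8) (.ev
 (nat_lit 848) (nat_lit 2147565568) (.ev (nat_lit 900) (nat_lit 134217728) (.ev (nat_lit 909) (nat_lit
 8589934592) .dd)))) (.ch (nat_lit 9) (.ev (nat_lit 848) (nat_lit 8589950976) (.ev (nat_lit 880) (nat_lit
 65536) (.ev (nat_lit 900) (nat_lit 2147483648) (.ev (nat_lit 909) (nat_lit 134217728) .dd)))))))))))) (.br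
 (nat_lit 12) (.ch (nat_lit 11) (.ev (nat_lit 336) (nat_lit 10872242176) (.nd (nat_lit 832) (.br (nat_lit 5)
 (.br (nat_lit 2) (.ch (nat_lit 1) (.ev (nat_lit 848) (nat_lit 35654144) (.ev (nat_lit 861) (nat_lit 8) .dd)))
 (.br (nat_lit 3) (.ch (nat_lit 2) (.ev (nat_lit 848) (nat_lit 2099208) (.ev (nat_lit 864) (nat_lit 33554944)
 .dd))) (.ch (nat_lit 3) (.ev (nat_lit 848) (nat_lit 2097160) (.ev (nat_lit 900) (nat_lit 2048) (.ev (nat_lit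
 1108) (nat_lit 512) (.ev (nat_lit 1117) (nat_lit 33554432) .dd))))))) (.br (nat_lit 8) (.br (nat_lit 6) (.ch
 (nat_lit 5) (.ev (nat_lit 848) (nat_lit 2568) (.ev (nat_lit 880) (nat_lit 33554432) (.ev (nat_lit 893)
 (nat_lit 2097152) .dd)))) (.ch (nat_lit 6) (.ev (nat_lit 848) (nat_lit 2097152) (.ev (nat_lit 1108) (nat_lit
 2560) (.ev (nat_lit 1120) (nat_lit 8) (.ev (nat_lit 1133) (nat_lit 33554432) .dd)))))) (.br (nat_lit 12) (.ch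
 (nat_lit 8) (.ev (nat_lit 848) (nat_lit 33554432) (.ev (nat_lit 1284) (nat_lit 520) (.ev (nat_lit 1312)
 (nat_lit 2048) (.ev (nat_lit 1325) (nat_lit 2097152) .dd))))) (.ch (nat_lit 12) (.ev (nat_lit 848) (nat_lit
 35654144) (.ev (nat_lit 861) (nat_lit 8) .dd))))))))) (.ch (nat_lit 12) (.ev (nat_lit 336) (nat_lit
 10773678600) (.ev (nat_lit 349) (nat_lit 134217728) .dd))))))))))) (.ch (nat_lit 25) (.ev (nat_lit 52)
 (nat_lit 35461634463744) (.ev (nat_lit 84) (nat_lit 8589934592) (.ev (nat_lit 116) (nat_lit 2) (.ev (nat_lit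
 148) (nat_lit 70368744259584) (.ev (nat_lit 260) (nat_lit 524288) (.nd (nat_lit 320) (.br (nat_lit 8) (.br
 (nat_lit 6) (.ch (nat_lit 4) (.ev (nat_lit 336) (nat_lit 262148) (.ev (nat_lit 352) (nat_lit 1048576) (.ev
 (nat_lit 432) (nat_lit 8) (.fin (nat_lit 576462401572389440)))))) (.ch (nat_lit 6) (.ev (nat_lit 336) (nat_lit
 68720525324) (.ev (nat_lit 420) (nat_lit 512) (.ev (nat_lit 429) (nat_lit 262144) .dd))))) (.br (nat_lit 12)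
 (.ch (nat_lit 8) (.ev (nat_lit 336) (nat_lit 68720787976) (.ev (nat_lit 349) (nat_lit 4) .dd))) (.ch (nat_lit
 12) (.ev (nat_lit 336) (nat_lit 1311244) (.ev (nat_lit 349) (nat_lit 68719476736) .dd))))))))))))))) (.br
 (nat_lit 30) (.br (nat_lit 27) (.ch (nat_lit 26) (.ev (nat_lit 52) (nat_lit 70643624466952) (.ev (nat_lit 84)
 (nat_lit 2147483648) (.ev (nat_lit 116) (nat_lit 135266304) (.ev (nat_lit 288) (nat_lit 65536) (.nd (nat_lit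
 320) (.br (nat_lit 6) (.br (nat_lit 4) (.ch (nat_lit 0) (.ev (nat_lit 336) (nat_lit 35253192228870) (.ev
 (nat_lit 384) (nat_lit 8589934592) (.ev (nat_lit 397) (nat_lit 524288) .dd)))) (.br (nat_lit 5) (.ch (nat_lit
 4) (.ev (nat_lit 336) (nat_lit 35261749133316) (.nd (nat_lit 832) (.br (nat_lit 7) (.ch (nat_lit 6) (.ev
 (nat_lit 900) (nat_lit 2) (.ev (nat_lit 909) (nat_lit 33554432) .dd))) (.ch (nat_lit 7) (.ev (nat_lit 848)
 (nat_lit 33554432) (.ev (nat_lit 861) (nat_lit 2) .dd))))))) (.ch (nat_lit 5) (.ev (nat_lit 336) (nat_lit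
 35253192228870) (.ev (nat_lit 518) (nat_lit 8589934592) (.ev (nat_lit 525) (nat_lit 524288) .dd)))))) (.br
 (nat_lit 9) (.ch (nat_lit 6) (.ev (nat_lit 336) (nat_lit 33554438) (.ev (nat_lit 420) (nat_lit 67108864) (.nd
 (nat_lit 832) (.br (nat_lit 4) (.br (nat_lit 3) (.ch (nat_lit 0) (.ev (nat_lit 1012) (nat_lit 524288) (.ev
 (nat_lit 1108) (nat_lit 35184372088832) (.ev (nat_lit 1284) (nat_lit 8589934592) (.ev (nat_lit 1293) (nat_lit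
 68719476736) .dd))))) (.ch (nat_lit 3) (.ev (nat_lit 848) (nat_lit 68720001024) (.ev (nat_lit 912) (nat_lit
 8589934592) (.ev (nat_lit 925) (nat_lit 35184372088832) .dd))))) (.br (nat_lit 5) (.ch (nat_lit 4) (.ev
 (nat_lit 848) (nat_lit 77309935616) (.ev (nat_lit 861) (nat_lit 35184372088832) .dd))) (.br (nat_lit 8) (.ch
 (nat_lit 5) (.ev (nat_lit 848) (nat_lit 35261682024448) .dd)) (.ch (nat_lit 8) (.ev (nat_lit 848) (nat_lit
 35192962023424) (.ev (nat_lit 1108) (nat_lit 524288) (.ev (nat_lit 1117) (nat_lit 68719476736) .dd)))))))))))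
 (.br (nat_lit 11) (.ch (nat_lit 9) (.ev (nat_lit 336) (nat_lit 68753555456) (.ev (nat_lit 742) (nat_lit
 8589934592) (.nd (nat_lit 832) (.br (nat_lit 10) (.br (nat_lit 8) (.ch (nat_lit 2) (.nd (nat_lit 1761) (.br
 (nat_lit 35) (.ch (nat_lit 19) (.ev (nat_lit 1777) (nat_lit 35184372088834) (.nd (nat_lit 1792) (.br (nat_lit
 11) (.ch (nat_lit 7) (.ev (nat_lit 1808) (nat_lit 67108868) .dd)) (.ch (nat_lit 11) (.fin (nat_lit
 576461302078587464))))))) (.ch (nat_lit 35) (.ev (nat_lit 1777) (nat_lit 67108868) (.nd (nat_lit 1792) (.br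
 (nat_lit 11) (.ch (nat_lit 7) (.fin (nat_lit 576456904061436466))) (.ch (nat_lit 11) (.ev (nat_lit 1808)
 (nat_lit 35184372088834) .dd))))))))) (.ch (nat_lit 8) (.ev (nat_lit 848) (nat_lit 35184439197702) .dd))) (.br
 (nat_lit 12) (.ch (nat_lit 10) (.ev (nat_lit 848) (nat_lit 35184439197696) (.ev (nat_lit 928) (nat_lit 4) (.ev
 (nat_lit 941) (nat_lit 2) .dd)))) (.ch (nat_lit 12) (.ev (nat_lit 848) (nat_lit 67108870) (.ev (nat_lit 861)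
 (nat_lit 35184372088832) .dd))))))))) (.ch (nat_lit 11) (.ev (nat_lit 336) (nat_lit 35193063211014) (.ev
 (nat_lit 349) (nat_lit 68719476736) .dd)))))))))))) (.br (nat_lit 29) (.ch (nat_lit 27) (.ev (nat_lit 52)
 (nat_lit 345879365644) (.ev (nat_lit 116) (nat_lit 2097152) (.nd (nat_lit 320) (.br (nat_lit 9) (.br (nat_lit
 6) (.ch (nat_lit 5) (.ev (nat_lit 336) (nat_lit 70377369305090) (.nd (nat_lit 832) (.br (nat_lit 6) (.br
 (nat_lit 3) (.br (nat_lit 1) (.ch (nat_lit 0) (.ev (nat_lit 848) (nat_lit 4608) (.ev (nat_lit 1056) (nat_lit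
 35184372088832) (.ev (nat_lit 1069) (nat_lit 67108864) .dd)))) (.ch (nat_lit 1) (.ev (nat_lit 848) (nat_lit
 35184439202304) .dd))) (.br (nat_lit 4) (.ch (nat_lit 3) (.ev (nat_lit 848) (nat_lit 35184372092928) (.ev
 (nat_lit 1284) (nat_lit 512) (.ev (nat_lit 1293) (nat_lit 67108864) .dd)))) (.ch (nat_lit 4) (.ev (nat_lit
 848) (nat_lit 67109376) (.ev (nat_lit 1108) (nat_lit 4096) (.ev (nat_lit 1117) (nat_lit 35184372088832)
 .dd)))))) (.br (nat_lit 10) (.br (nat_lit 8) (.ch (nat_lit 6) (.ev (nat_lit 848) (nat_lit 35184439198208) (.ev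
 (nat_lit 861) (nat_lit 4096) .dd))) (.ch (nat_lit 8) (.ev (nat_lit 848) (nat_lit 35184439201792) (.ev (nat_lit
 861) (nat_lit 512) .dd)))) (.br (nat_lit 12) (.ch (nat_lit 10) (.ev (nat_lit 848) (nat_lit 67113472) (.ev
 (nat_lit 861) (nat_lit 35184372088832) .dd))) (.ch (nat_lit 12) (.ev (nat_lit 848) (nat_lit 35184372093440)
 (.ev (nat_lit 861) (nat_lit 67108864) .dd))))))))) (.br (nat_lit 8) (.ch (nat_lit 6) (.ev (nat_lit 336)
 (nat_lit 8623558658) (.nd (nat_lit 832) (.br (nat_lit 7) (.br (nat_lit 4) (.br (nat_lit 3) (.ch (nat_lit 1)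
 (.ev (nat_lit 848) (nat_lit 105553117839872) (.ev (nat_lit 861) (nat_lit 67108864) .dd))) (.ch (nat_lit 3)
 (.ev (nat_lit 848) (nat_lit 70368812859904) (.ev (nat_lit 861) (nat_lit 35184372088832) .dd)))) (.br (nat_lit
 5) (.ch (nat_lit 4) (.ev (nat_lit 848) (nat_lit 70368745226752) (.ev (nat_lit 1012) (nat_lit 524288) (.ev
 (nat_lit 1056) (nat_lit 67108864) (.ev (nat_lit 1069) (nat_lit 35184372088832) .dd))))) (.ch (nat_lit 5) (.ev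
 (nat_lit 848) (nat_lit 105553184948224) (.ev (nat_lit 861) (nat_lit 512) .dd))))) (.br (nat_lit 10) (.br
 (nat_lit 8) (.ch (nat_lit 7) (.ev (nat_lit 848) (nat_lit 70368812859904) (.ev (nat_lit 861) (nat_lit
 35184372088832) .dd))) (.ch (nat_lit 8) (.ev (nat_lit 848) (nat_lit 1048576) (.ev (nat_lit 900) (nat_lit
 35184372088832) (.ev (nat_lit 1012) (nat_lit 70368744177664) (.ev (nat_lit 1108) (nat_lit 524288) (.fin
 (nat_lit 576440411368145487)))))))) (.br (nat_lit 12) (.ch (nat_lit 10) (.ev (nat_lit 848) (nat_lit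
 35184439198208) (.ev (nat_lit 912) (nat_lit 524288) (.ev (nat_lit 976) (nat_lit 70368745226240) .dd)))) (.ch
 (nat_lit 12) (.ev (nat_lit 848) (nat_lit 105553183900160) (.ev (nat_lit 861) (nat_lit 1048576) .dd)))))))))
 (.ch (nat_lit 8) (.ev (nat_lit 336) (nat_lit 70368779309570) (.ev (nat_lit 420) (nat_lit 8589934592) (.nd
 (nat_lit 832) (.br (nat_lit 6) (.br (nat_lit 1) (.ch (nat_lit 0) (.ev (nat_lit 848) (nat_lit 35184439263232)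
 .dd)) (.br (nat_lit 5) (.ch (nat_lit 1) (.ev (nat_lit 1012) (nat_lit 65536) (.ev (nat_lit 1188) (nat_lit
 35184372088832) (.ev (nat_lit 1197) (nat_lit 67108864) .dd)))) (.ch (nat_lit 5) (.ev (nat_lit 1120) (nat_lit
 65536) (.ev (nat_lit 1188) (nat_lit 35184372088832) (.ev (nat_lit 1197) (nat_lit 67108864) .dd)))))) (.br
 (nat_lit 8) (.ch (nat_lit 6) (.ev (nat_lit 848) (nat_lit 35184439263232) .dd)) (.br (nat_lit 11) (.ch (nat_lit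
 8) (.ev (nat_lit 848) (nat_lit 67174400) (.ev (nat_lit 861) (nat_lit 35184372088832) .dd))) (.ch (nat_lit 11)
 (.ev (nat_lit 848) (nat_lit 35184372154368) (.ev (nat_lit 861) (nat_lit 67108864) .dd)))))))))))) (.br
 (nat_lit 11) (.ch (nat_lit 9) (.ev (nat_lit 336) (nat_lit 8624082944) (.nd (nat_lit 832) (.br (nat_lit 9) (.br
 (nat_lit 2) (.ch (nat_lit 1) (.ev (nat_lit 848) (nat_lit 105553116266498) (.ev (nat_lit 1284) (nat_lit 512)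
 (.ev (nat_lit 1328) (nat_lit 67108864) (.ev (nat_lit 1341) (nat_lit 1048576) .dd))))) (.br (nat_lit 8) (.ch
 (nat_lit 2) (.ev (nat_lit 848) (nat_lit 70368744177664) (.ev (nat_lit 900) (nat_lit 1049088) (.ev (nat_lit
 1108) (nat_lit 2) (.ev (nat_lit 1392) (nat_lit 67108864) (.ev (nat_lit 1405) (nat_lit 35184372088832)
 .dd)))))) (.ch (nat_lit 8) (.ev (nat_lit 848) (nat_lit 70368812335106) (.ev (nat_lit 900) (nat_lit 512) (.ev
 (nat_lit 909) (nat_lit 35184372088832) .dd)))))) (.br (nat_lit 11) (.ch (nat_lit 9) (.ev (nat_lit 848)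
 (nat_lit 35184439197698) (.ev (nat_lit 900) (nat_lit 70368744178176) (.ev (nat_lit 909) (nat_lit 1048576)
 .dd)))) (.br (nat_lit 12) (.ch (nat_lit 11) (.ev (nat_lit 848) (nat_lit 70368744177666) (.ev (nat_lit 900)
 (nat_lit 512) (.ev (nat_lit 1012) (nat_lit 67108864) (.ev (nat_lit 1108) (nat_lit 1048576) (.ev (nat_lit 1117)
 (nat_lit 35184372088832) .dd)))))) (.ch (nat_lit 12) (.ev (nat_lit 848) (nat_lit 35184373137408) (.ev (nat_lit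
 900) (nat_lit 512) (.ev (nat_lit 1012) (nat_lit 67108864) (.fin (nat_lit 576390933258912288)))))))))))) (.br
 (nat_lit 12) (.ch (nat_lit 11) (.ev (nat_lit 336) (nat_lit 70377335750658) (.nd (nat_lit 832) (.br (nat_lit 4)
 (.br (nat_lit 1) (.ch (nat_lit 0) (.ev (nat_lit 848) (nat_lit 33559040) (.ev (nat_lit 900) (nat_lit
 35184372088832) (.ev (nat_lit 909) (nat_lit 67108864) .dd)))) (.br (nat_lit 3) (.ch (nat_lit 1) (.ev (nat_lit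
 848) (nat_lit 35184405647872) (.ev (nat_lit 861) (nat_lit 67108864) .dd))) (.ch (nat_lit 3) (.ev (nat_lit 848)
 (nat_lit 4096) (.ev (nat_lit 900) (nat_lit 512) (.ev (nat_lit 912) (nat_lit 33554432) (.ev (nat_lit 1108)
 (nat_lit 35184372088832) (.ev (nat_lit 1117) (nat_lit 67108864) .dd)))))))) (.br (nat_lit 5) (.ch (nat_lit 4)
 (.ev (nat_lit 848) (nat_lit 67108864) (.ev (nat_lit 900) (nat_lit 35184405643264) (.ev (nat_lit 1284) (nat_lit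
 512) (.ev (nat_lit 1293) (nat_lit 4096) .dd))))) (.br (nat_lit 12) (.ch (nat_lit 5) (.ev (nat_lit 848)
 (nat_lit 35184472752640) (.ev (nat_lit 861) (nat_lit 4096) .dd))) (.ch (nat_lit 12) (.ev (nat_lit 848)
 (nat_lit 35184472756736) .dd)))))))) (.ch (nat_lit 12) (.ev (nat_lit 336) (nat_lit 8591507968) (.ev (nat_lit
 432) (nat_lit 70368744177664) (.nd (nat_lit 832) (.br (nat_lit 6) (.br (nat_lit 1) (.ch (nat_lit 0) (.ev
 (nat_lit 848) (nat_lit 35184405643266) (.ev (nat_lit 1012) (nat_lit 67108864) (.ev (nat_lit 1108) (nat_lit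
 4096) (.ev (nat_lit 1117) (nat_lit 65536) .dd))))) (.br (nat_lit 4) (.ch (nat_lit 1) (.ev (nat_lit 848)
 (nat_lit 100728834) (.ev (nat_lit 900) (nat_lit 35184372088832) (.ev (nat_lit 909) (nat_lit 4096) .dd)))) (.ch
 (nat_lit 4) (.ev (nat_lit 848) (nat_lit 35184405708802) (.ev (nat_lit 900) (nat_lit 4096) (.ev (nat_lit 909)
 (nat_lit 67108864) .dd)))))) (.br (nat_lit 9) (.br (nat_lit 7) (.ch (nat_lit 6) (.ev (nat_lit 848) (nat_lit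
 35184372154370) (.ev (nat_lit 900) (nat_lit 33554432) (.ev (nat_lit 1188) (nat_lit 67108864) (.ev (nat_lit
 1197) (nat_lit 4096) .dd))))) (.ch (nat_lit 7) (.ev (nat_lit 848) (nat_lit 100667392) (.ev (nat_lit 900)
 (nat_lit 2) (.ev (nat_lit 1284) (nat_lit 35184372088832) (.ev (nat_lit 1293) (nat_lit 65536) .dd)))))) (.br
 (nat_lit 11) (.ch (nat_lit 9) (.ev (nat_lit 848) (nat_lit 35184439201792) (.ev (nat_lit 1188) (nat_lit 65536)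
 (.fin (nat_lit 576492088433525376))))) (.ch (nat_lit 11) (.ev (nat_lit 848) (nat_lit 33624066) (.ev (nat_lit
 1108) (nat_lit 35184372088832) (.ev (nat_lit 1117) (nat_lit 67108864) .dd)))))))))))))))))) (.ch (nat_lit 29)
 (.ev (nat_lit 52) (nat_lit 168380928) (.ev (nat_lit 84) (nat_lit 2097160) (.ev (nat_lit 116) (nat_lit
 2147483648) (.nd (nat_lit 320) (.br (nat_lit 6) (.br (nat_lit 1) (.ch (nat_lit 0) (.ev (nat_lit 336) (nat_lit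
 105905370693638) (.ev (nat_lit 384) (nat_lit 266240) (.ev (nat_lit 397) (nat_lit 1048576) .dd)))) (.br
 (nat_lit 5) (.ch (nat_lit 1) (.ev (nat_lit 336) (nat_lit 105553184690182) (.ev (nat_lit 384) (nat_lit
 283467841536) (.ev (nat_lit 397) (nat_lit 68719476736) .dd)))) (.ch (nat_lit 5) (.ev (nat_lit 336) (nat_lit
 70643623137286) (.ev (nat_lit 758) (nat_lit 8589934592) (.nd (nat_lit 832) (.br (nat_lit 3) (.br (nat_lit 1)
 (.ch (nat_lit 0) (.ev (nat_lit 848) (nat_lit 35184372350976) (.ev (nat_lit 912) (nat_lit 68786585600) .dd)))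
 (.ch (nat_lit 1) (.ev (nat_lit 848) (nat_lit 68719738880) (.ev (nat_lit 1012) (nat_lit 67108864) (.ev (nat_lit
 1021) (nat_lit 35184372088832) .dd))))) (.br (nat_lit 8) (.ch (nat_lit 3) (.ev (nat_lit 848) (nat_lit
 35253158674432) (.ev (nat_lit 861) (nat_lit 262144) .dd))) (.ch (nat_lit 8) (.ev (nat_lit 848) (nat_lit
 35184439197696) (.ev (nat_lit 900) (nat_lit 262144) (.ev (nat_lit 909) (nat_lit 68719476736) .dd))))))))))))
 (.br (nat_lit 8) (.ch (nat_lit 6) (.ev (nat_lit 336) (nat_lit 352187322374) (.ev (nat_lit 420) (nat_lit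
 35184372088832) (.nd (nat_lit 832) (.br (nat_lit 4) (.br (nat_lit 1) (.ch (nat_lit 0) (.ev (nat_lit 848)
 (nat_lit 68419584) (.ev (nat_lit 861) (nat_lit 70368744177664) .dd))) (.br (nat_lit 3) (.ch (nat_lit 1) (.ev
 (nat_lit 848) (nat_lit 1048576) (.ev (nat_lit 1024) (nat_lit 70368744177664) (.ev (nat_lit 1108) (nat_lit
 67108864) (.ev (nat_lit 1117) (nat_lit 262144) .dd))))) (.ch (nat_lit 3) (.ev (nat_lit 848) (nat_lit 1310720)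
 (.ev (nat_lit 1012) (nat_lit 67108864) (.ev (nat_lit 1021) (nat_lit 70368744177664) .dd)))))) (.br (nat_lit
 10) (.br (nat_lit 7) (.ch (nat_lit 4) (.ev (nat_lit 848) (nat_lit 67108864) (.ev (nat_lit 900) (nat_lit
 70368744177664) (.ev (nat_lit 912) (nat_lit 262144) (.ev (nat_lit 925) (nat_lit 1048576) .dd))))) (.ch
 (nat_lit 7) (.ev (nat_lit 848) (nat_lit 70368811548672) (.ev (nat_lit 861) (nat_lit 1048576) .dd)))) (.br
 (nat_lit 12) (.ch (nat_lit 10) (.ev (nat_lit 848) (nat_lit 1310720) (.ev (nat_lit 900) (nat_lit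
 70368744177664) (.ev (nat_lit 909) (nat_lit 67108864) .dd)))) (.ch (nat_lit 12) (.ev (nat_lit 848) (nat_lit
 70368811548672) (.ev (nat_lit 861) (nat_lit 1048576) .dd)))))))))) (.br (nat_lit 9) (.ch (nat_lit 8) (.ev
 (nat_lit 336) (nat_lit 35459318419456) (.ev (nat_lit 420) (nat_lit 2) (.nd (nat_lit 832) (.br (nat_lit 8) (.br
 (nat_lit 2) (.ch (nat_lit 0) (.ev (nat_lit 848) (nat_lit 70377334112260) (.ev (nat_lit 861) (nat_lit
 68719476736) .dd))) (.br (nat_lit 5) (.ch (nat_lit 2) (.ev (nat_lit 848) (nat_lit 77309411328) (.ev (nat_lit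
 900) (nat_lit 70368744177664) (.ev (nat_lit 909) (nat_lit 4) .dd)))) (.ch (nat_lit 5) (.ev (nat_lit 848)
 (nat_lit 70377334112260) (.ev (nat_lit 861) (nat_lit 68719476736) .dd))))) (.br (nat_lit 11) (.br (nat_lit 9)
 (.ch (nat_lit 8) (.ev (nat_lit 848) (nat_lit 4) (.ev (nat_lit 900) (nat_lit 70368744177664) (.ev (nat_lit 912)
 (nat_lit 8589934592) (.ev (nat_lit 925) (nat_lit 68719476736) .dd))))) (.ch (nat_lit 9) (.ev (nat_lit 848)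
 (nat_lit 77309411328) (.ev (nat_lit 1012) (nat_lit 4) (.ev (nat_lit 1021) (nat_lit 70368744177664) .dd)))))
 (.br (nat_lit 12) (.ch (nat_lit 11) (.ev (nat_lit 848) (nat_lit 68719476736) (.ev (nat_lit 1108) (nat_lit 4)
 (.ev (nat_lit 1200) (nat_lit 70368744177664) (.ev (nat_lit 1213) (nat_lit 8589934592) .dd))))) (.ch (nat_lit
 12) (.ev (nat_lit 848) (nat_lit 77309411332) (.ev (nat_lit 861) (nat_lit 70368744177664) .dd)))))))))) (.ch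
 (nat_lit 9) (.ev (nat_lit 336) (nat_lit 105896780763136) (.ev (nat_lit 532) (nat_lit 8589934592) (.nd (nat_lit
 832) (.br (nat_lit 8) (.br (nat_lit 3) (.ch (nat_lit 1) (.ev (nat_lit 848) (nat_lit 262150) (.ev (nat_lit 861)
 (nat_lit 1048576) .dd))) (.ch (nat_lit 3) (.ev (nat_lit 848) (nat_lit 6) (.ev (nat_lit 900) (nat_lit 262144)
 (.ev (nat_lit 909) (nat_lit 1048576) .dd))))) (.br (nat_lit 10) (.ch (nat_lit 8) (.ev (nat_lit 848) (nat_lit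
 1048582) (.ev (nat_lit 861) (nat_lit 262144) .dd))) (.br (nat_lit 11) (.ch (nat_lit 10) (.ev (nat_lit 848)
 (nat_lit 1048576) (.ev (nat_lit 1012) (nat_lit 4) (.ev (nat_lit 1108) (nat_lit 2) (.ev (nat_lit 1117) (nat_lit
 262144) .dd))))) (.ch (nat_lit 11) (.ev (nat_lit 848) (nat_lit 262146) (.ev (nat_lit 1040) (nat_lit 1048580)
 .dd)))))))))))))))))))) (.br (nat_lit 35) (.br (nat_lit 33) (.ch (nat_lit 30) (.ev (nat_lit 52) (nat_lit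
 277028274176) (.ev (nat_lit 84) (nat_lit 67112960) (.ev (nat_lit 116) (nat_lit 512) (.ev (nat_lit 148)
 (nat_lit 12) (.nd (nat_lit 320) (.br (nat_lit 6) (.br (nat_lit 4) (.br (nat_lit 1) (.ch (nat_lit 0) (.ev
 (nat_lit 336) (nat_lit 105630593515522) (.nd (nat_lit 832) (.br (nat_lit 5) (.br (nat_lit 1) (.ch (nat_lit 0)
 (.ev (nat_lit 848) (nat_lit 18432) (.ev (nat_lit 861) (nat_lit 1048576) .dd))) (.br (nat_lit 2) (.ch (nat_lit
 1) (.ev (nat_lit 848) (nat_lit 1067008) .dd)) (.ch (nat_lit 2) (.ev (nat_lit 848) (nat_lit 1050624) (.ev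
 (nat_lit 861) (nat_lit 16384) .dd))))) (.br (nat_lit 9) (.br (nat_lit 8) (.ch (nat_lit 5) (.ev (nat_lit 848)
 (nat_lit 1067008) .dd)) (.ch (nat_lit 8) (.ev (nat_lit 848) (nat_lit 16384) (.fin (nat_lit
 576426117691818514))))) (.br (nat_lit 11) (.ch (nat_lit 9) (.ev (nat_lit 848) (nat_lit 1064960) (.ev (nat_lit
 861) (nat_lit 2048) .dd))) (.ch (nat_lit 11) (.ev (nat_lit 848) (nat_lit 1050624) (.ev (nat_lit 861) (nat_lit
 16384) .dd))))))))) (.ch (nat_lit 1) (.ev (nat_lit 336) (nat_lit 35253091567616) (.ev (nat_lit 420) (nat_lit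
 33554432) (.nd (nat_lit 832) (.br (nat_lit 6) (.br (nat_lit 3) (.ch (nat_lit 2) (.ev (nat_lit 848) (nat_lit
 70377334112258) (.ev (nat_lit 900) (nat_lit 1048576) (.ev (nat_lit 1188) (nat_lit 65536) (.ev (nat_lit 1380)
 (nat_lit 16384) (.ev (nat_lit 1389) (nat_lit 134217728) .dd)))))) (.br (nat_lit 4) (.ch (nat_lit 3) (.ev
 (nat_lit 848) (nat_lit 70368744194050) (.ev (nat_lit 1108) (nat_lit 8589934592) (.ev (nat_lit 1188) (nat_lit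
 65536) (.ev (nat_lit 1472) (nat_lit 134217728) (.ev (nat_lit 1485) (nat_lit 1048576) .dd)))))) (.ch (nat_lit
 4) (.ev (nat_lit 848) (nat_lit 134234114) (.ev (nat_lit 1284) (nat_lit 70368744177664) (.ev (nat_lit 1380)
 (nat_lit 65536) (.ev (nat_lit 1440) (nat_lit 8589934592) (.ev (nat_lit 1453) (nat_lit 1048576) .dd))))))))
 (.br (nat_lit 7) (.ch (nat_lit 6) (.ev (nat_lit 848) (nat_lit 70377468346370) (.ev (nat_lit 1136) (nat_lit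
 65536) (.ev (nat_lit 1149) (nat_lit 1048576) .dd)))) (.br (nat_lit 8) (.ch (nat_lit 7) (.ev (nat_lit 848)
 (nat_lit 70368878411778) (.ev (nat_lit 912) (nat_lit 8589934592) (.ev (nat_lit 1072) (nat_lit 65536) (.ev
 (nat_lit 1085) (nat_lit 1048576) .dd))))) (.ch (nat_lit 8) (.ev (nat_lit 848) (nat_lit 134234112) (.ev
 (nat_lit 900) (nat_lit 1048576) (.ev (nat_lit 928) (nat_lit 2) (.ev (nat_lit 1188) (nat_lit 70368744177664)
 (.fin (nat_lit 576482192747086425))))))))))))))) (.br (nat_lit 5) (.ch (nat_lit 4) (.ev (nat_lit 336) (nat_lit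
 105630559897600) (.nd (nat_lit 832) (.br (nat_lit 6) (.br (nat_lit 4) (.ch (nat_lit 0) (.ev (nat_lit 848)
 (nat_lit 1048578) (.ev (nat_lit 864) (nat_lit 33554432) (.ev (nat_lit 1040) (nat_lit 81920) .dd)))) (.ch
 (nat_lit 4) (.ev (nat_lit 848) (nat_lit 81922) (.ev (nat_lit 900) (nat_lit 1048576) (.ev (nat_lit 909)
 (nat_lit 33554432) .dd))))) (.br (nat_lit 8) (.ch (nat_lit 6) (.ev (nat_lit 848) (nat_lit 1048578) (.ev
 (nat_lit 1024) (nat_lit 33554432) (.ev (nat_lit 1040) (nat_lit 16384) (.ev (nat_lit 1053) (nat_lit 65536)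
 .dd))))) (.br (nat_lit 12) (.ch (nat_lit 8) (.ev (nat_lit 848) (nat_lit 33619968) (.ev (nat_lit 900) (nat_lit
 16384) (.ev (nat_lit 1540) (nat_lit 1048576) (.ev (nat_lit 1549) (nat_lit 2) .dd))))) (.ch (nat_lit 12) (.ev
 (nat_lit 848) (nat_lit 34684930) .dd)))))))) (.ch (nat_lit 5) (.ev (nat_lit 336) (nat_lit 70437498324994) (.ev
 (nat_lit 352) (nat_lit 134217728) (.nd (nat_lit 832) (.br (nat_lit 12) (.ch (nat_lit 0) (.ev (nat_lit 848)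
 (nat_lit 16384) (.ev (nat_lit 912) (nat_lit 35184372088832) (.ev (nat_lit 925) (nat_lit 8589934592) .dd))))
 (.ch (nat_lit 12) (.ev (nat_lit 848) (nat_lit 35184372088832) (.ev (nat_lit 900) (nat_lit 8589934592) (.ev
 (nat_lit 909) (nat_lit 16384) .dd))))))))))) (.br (nat_lit 11) (.br (nat_lit 8) (.ch (nat_lit 6) (.ev (nat_lit
 336) (nat_lit 70377501952002) (.nd (nat_lit 832) (.br (nat_lit 5) (.br (nat_lit 3) (.br (nat_lit 1) (.ch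
 (nat_lit 0) (.ev (nat_lit 848) (nat_lit 35253091565568) (.ev (nat_lit 1188) (nat_lit 1048576) (.ev (nat_lit
 1197) (nat_lit 16384) .dd)))) (.ch (nat_lit 1) (.ev (nat_lit 848) (nat_lit 35184373153792) (.ev (nat_lit 861)
 (nat_lit 68719476736) .dd)))) (.br (nat_lit 4) (.ch (nat_lit 3) (.ev (nat_lit 848) (nat_lit 68720541696) (.ev
 (nat_lit 861) (nat_lit 35184372088832) .dd))) (.ch (nat_lit 4) (.ev (nat_lit 848) (nat_lit 35253091565568)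
 (.ev (nat_lit 1188) (nat_lit 16384) (.ev (nat_lit 1197) (nat_lit 1048576) .dd)))))) (.br (nat_lit 8) (.br
 (nat_lit 7) (.ch (nat_lit 5) (.ev (nat_lit 848) (nat_lit 35184372088832) (.ev (nat_lit 1108) (nat_lit 1048576)
 (.ev (nat_lit 1200) (nat_lit 16384) (.ev (nat_lit 1213) (nat_lit 68719476736) .dd))))) (.ch (nat_lit 7) (.ev
 (nat_lit 848) (nat_lit 68719476736) (.ev (nat_lit 1040) (nat_lit 1048576) (.fin (nat_lit
 576455804463825450)))))) (.br (nat_lit 10) (.ch (nat_lit 8) (.ev (nat_lit 848) (nat_lit 35253092630528) .dd))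
 (.ch (nat_lit 10) (.ev (nat_lit 848) (nat_lit 35253091581952) (.ev (nat_lit 861) (nat_lit 1048576)
 .dd))))))))) (.ch (nat_lit 8) (.ev (nat_lit 336) (nat_lit 8624619520) (.nd (nat_lit 832) (.br (nat_lit 6) (.br
 (nat_lit 1) (.ch (nat_lit 0) (.ev (nat_lit 848) (nat_lit 105553250484226) (.ev (nat_lit 900) (nat_lit
 68719476736) (.ev (nat_lit 909) (nat_lit 2048) .dd)))) (.br (nat_lit 2) (.ch (nat_lit 1) (.ev (nat_lit 848)
 (nat_lit 70437463656450) (.ev (nat_lit 900) (nat_lit 134217728) (.ev (nat_lit 909) (nat_lit 35184372088832)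
 .dd)))) (.ch (nat_lit 2) (.ev (nat_lit 848) (nat_lit 35253091567618) (.ev (nat_lit 1012) (nat_lit
 70368744177664) (.ev (nat_lit 1021) (nat_lit 134217728) .dd)))))) (.br (nat_lit 11) (.br (nat_lit 9) (.ch
 (nat_lit 6) (.ev (nat_lit 848) (nat_lit 105553250484226) (.ev (nat_lit 1188) (nat_lit 2048) (.ev (nat_lit
 1197) (nat_lit 68719476736) .dd)))) (.ch (nat_lit 9) (.ev (nat_lit 848) (nat_lit 35253091565568) (.ev (nat_lit
 900) (nat_lit 70368744177664) (.ev (nat_lit 1200) (nat_lit 2048) (.fin (nat_lit 576420620123193906))))))) (.br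
 (nat_lit 12) (.ch (nat_lit 11) (.ev (nat_lit 848) (nat_lit 70437463656448) (.ev (nat_lit 1108) (nat_lit
 35184372088834) (.ev (nat_lit 1117) (nat_lit 134217728) .dd)))) (.ch (nat_lit 12) (.ev (nat_lit 848) (nat_lit
 35253091567616) (.ev (nat_lit 864) (nat_lit 70368744177664) (.ev (nat_lit 900) (nat_lit 134217728) (.ev
 (nat_lit 909) (nat_lit 2) .dd)))))))))))) (.br (nat_lit 12) (.ch (nat_lit 11) (.ev (nat_lit 336) (nat_lit
 70377469462530) (.ev (nat_lit 774) (nat_lit 33554432) (.nd (nat_lit 832) (.br (nat_lit 4) (.br (nat_lit 1)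
 (.ch (nat_lit 0) (.ev (nat_lit 848) (nat_lit 35184372088832) (.ev (nat_lit 861) (nat_lit 68719476736) .dd)))
 (.br (nat_lit 3) (.ch (nat_lit 1) (.ev (nat_lit 848) (nat_lit 35184372088832) (.ev (nat_lit 861) (nat_lit
 68719476736) .dd))) (.ch (nat_lit 3) (.ev (nat_lit 848) (nat_lit 35184372088832) (.ev (nat_lit 861) (nat_lit
 68719476736) .dd))))) (.br (nat_lit 5) (.ch (nat_lit 4) (.ev (nat_lit 848) (nat_lit 35184372088832) (.ev
 (nat_lit 861) (nat_lit 68719476736) .dd))) (.br (nat_lit 12) (.ch (nat_lit 5) (.ev (nat_lit 848) (nat_lit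
 35184372088832) (.ev (nat_lit 861) (nat_lit 68719476736) .dd))) (.ch (nat_lit 12) (.ev (nat_lit 1188) (nat_lit
 35184372088832) (.ev (nat_lit 1197) (nat_lit 68719476736) .dd)))))))))) (.ch (nat_lit 12) (.ev (nat_lit 336)
 (nat_lit 8591001600) (.ev (nat_lit 420) (nat_lit 2) (.nd (nat_lit 832) (.br (nat_lit 6) (.br (nat_lit 5) (.ch
 (nat_lit 4) (.ev (nat_lit 848) (nat_lit 35253125120000) (.ev (nat_lit 864) (nat_lit 134217728) (.ev (nat_lit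
 912) (nat_lit 70368744243200) .dd)))) (.ch (nat_lit 5) (.ev (nat_lit 848) (nat_lit 70368878460928) (.ev
 (nat_lit 900) (nat_lit 35184372088832) (.nd (nat_lit 1761) (.ch (nat_lit 7) (.nd (nat_lit 1792) (.ch (nat_lit
 1) (.fin (nat_lit 576475595715068447)))))))))) (.br (nat_lit 7) (.ch (nat_lit 6) (.ev (nat_lit 848) (nat_lit
 35184405708800) (.ev (nat_lit 900) (nat_lit 68719476736) (.ev (nat_lit 1108) (nat_lit 134217728) (.ev (nat_lit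
 1117) (nat_lit 70368744177664) .dd))))) (.br (nat_lit 12) (.ch (nat_lit 7) (.ev (nat_lit 848) (nat_lit
 70437497274368) (.ev (nat_lit 1024) (nat_lit 134217728) (.ev (nat_lit 1037) (nat_lit 35184372088832) .dd))))
 (.ch (nat_lit 12) (.ev (nat_lit 848) (nat_lit 70437631426560) (.ev (nat_lit 900) (nat_lit 65536) (.ev (nat_lit
 909) (nat_lit 35184372088832) .dd)))))))))))))))))))) (.ch (nat_lit 33) (.ev (nat_lit 52) (nat_lit
 70368878921742) (.ev (nat_lit 84) (nat_lit 70868075008) (.ev (nat_lit 116) (nat_lit 33554432) (.ev (nat_lit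
 148) (nat_lit 69206016) (.ev (nat_lit 180) (nat_lit 262144) (.nd (nat_lit 320) (.br (nat_lit 11) (.br (nat_lit
 6) (.ch (nat_lit 1) (.ev (nat_lit 336) (nat_lit 35467839934464) (.ev (nat_lit 349) (nat_lit 16384) .dd))) (.ch
 (nat_lit 6) (.ev (nat_lit 336) (nat_lit 35459249999872) (.ev (nat_lit 368) (nat_lit 8589934592) (.ev (nat_lit
 381) (nat_lit 16384) .dd))))) (.br (nat_lit 12) (.ch (nat_lit 11) (.ev (nat_lit 336) (nat_lit 8589950976) (.nd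
 (nat_lit 832) (.br (nat_lit 5) (.br (nat_lit 3) (.br (nat_lit 2) (.ch (nat_lit 1) (.ev (nat_lit 848) (nat_lit
 35459249995776) (.ev (nat_lit 861) (nat_lit 4096) .dd))) (.ch (nat_lit 2) (.ev (nat_lit 848) (nat_lit
 274877911040) (.ev (nat_lit 861) (nat_lit 35184372088832) .dd)))) (.br (nat_lit 4) (.ch (nat_lit 3) (.ev
 (nat_lit 848) (nat_lit 4096) (.ev (nat_lit 900) (nat_lit 274877906944) (.ev (nat_lit 909) (nat_lit
 35184372088832) .dd)))) (.ch (nat_lit 4) (.ev (nat_lit 848) (nat_lit 274877906944) (.ev (nat_lit 1108)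
 (nat_lit 4096) (.ev (nat_lit 1117) (nat_lit 35184372088832) .dd)))))) (.br (nat_lit 8) (.br (nat_lit 6) (.ch
 (nat_lit 5) (.ev (nat_lit 848) (nat_lit 35459249999872) .dd)) (.ch (nat_lit 6) (.ev (nat_lit 848) (nat_lit
 4096) (.ev (nat_lit 1012) (nat_lit 35184372088832) (.ev (nat_lit 1021) (nat_lit 274877906944) .dd))))) (.br
 (nat_lit 12) (.ch (nat_lit 8) (.ev (nat_lit 848) (nat_lit 274877911040) (.ev (nat_lit 861) (nat_lit
 35184372088832) .dd))) (.ch (nat_lit 12) (.ev (nat_lit 848) (nat_lit 35459249999872) .dd)))))))) (.ch (nat_lit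
 12) (.ev (nat_lit 336) (nat_lit 35192962039808) (.nd (nat_lit 832) (.br (nat_lit 6) (.br (nat_lit 5) (.ch
 (nat_lit 0) (.ev (nat_lit 848) (nat_lit 274877906944) (.ev (nat_lit 861) (nat_lit 4096) .dd))) (.ch (nat_lit
 5) (.ev (nat_lit 848) (nat_lit 274877906944) (.ev (nat_lit 861) (nat_lit 4096) .dd)))) (.br (nat_lit 11) (.ch
 (nat_lit 6) (.ev (nat_lit 900) (nat_lit 274877906944) (.ev (nat_lit 909) (nat_lit 4096) .dd))) (.ch (nat_lit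
 11) (.ev (nat_lit 848) (nat_lit 4096) (.ev (nat_lit 861) (nat_lit 274877906944) .dd)))))))))))))))))) (.br
 (nat_lit 36) (.ch (nat_lit 35) (.ev (nat_lit 52) (nat_lit 70652281491464) (.ev (nat_lit 64) (nat_lit
 35255408478726) .dd))) (.ch (nat_lit 36) (.ev (nat_lit 52) (nat_lit 105838934497284) (.ev (nat_lit 116)
 (nat_lit 33570818) (.nd (nat_lit 320) (.br (nat_lit 4) (.br (nat_lit 1) (.ch (nat_lit 0) (.ev (nat_lit 336)
 (nat_lit 68719804424) (.ev (nat_lit 420) (nat_lit 512) (.ev (nat_lit 429) (nat_lit 2097152) .dd)))) (.ch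
 (nat_lit 1) (.ev (nat_lit 336) (nat_lit 2425352) (.ev (nat_lit 349) (nat_lit 68719476736) .dd)))) (.br
 (nat_lit 9) (.ch (nat_lit 4) (.ev (nat_lit 336) (nat_lit 2359296) (.ev (nat_lit 352) (nat_lit 8) (.ev (nat_lit
 432) (nat_lit 65536) (.fin (nat_lit 576462401572389440)))))) (.ch (nat_lit 9) (.ev (nat_lit 336) (nat_lit
 68721639944) (.ev (nat_lit 349) (nat_lit 262144) .dd))))))))))))))))

/-- The trie. -/
noncomputable def T : Tr := .nd (nat_lit 1000000) (.br (nat_lit 3) (.br (nat_lit 1) (.ch (nat_lit 0) (.ev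
 (nat_lit 0) (nat_lit 140737488355327) .dd)) (.br (nat_lit 2) (.ch (nat_lit 1) (.ev (nat_lit 0) (nat_lit
 140737488355327) .dd)) (.ch (nat_lit 2) T2))) (.br (nat_lit 4) (.ch (nat_lit 3) (.ev (nat_lit 0) (nat_lit
 140737488355327) .dd)) (.br (nat_lit 5) (.ch (nat_lit 4) T4) (.ch (nat_lit 5) T5))))

/-- The possible values. -/
noncomputable def oks : List ℕ := [3, 4, 9, 178, 706, 3561, 4378, 11010, 16290]

/-- The parameters. -/
noncomputable def S : Pr := ⟨fun i l e => lget mz (lget [] (lget [] tabs i) l) e, oks, [(nat_lit 0), (nat_lit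
 1), (nat_lit 0), (nat_lit 0), (nat_lit 1), (nat_lit 0)], T, (nat_lit 140737488355327), (nat_lit
 12800101590481), (nat_lit 47), [(nat_lit 11), (nat_lit 23899161165)], [(nat_lit 4826809), (nat_lit 1874161)]⟩

/-- Nothing known. -/
noncomputable def cs0 : Cs := (.cons (nat_lit 13) (nat_lit 0) (nat_lit 1) (.cons (nat_lit 37) (nat_lit 0) (nat_lit 1) .nil))

theorem part_2 : part S cs0 (nat_lit 2) = true := by decide +kernel

theorem part_4 : part S cs0 (nat_lit 4) = true := by decide +kernel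

theorem part_5 : part S cs0 (nat_lit 5) = true := by decide +kernel

/-- Data of a prime. -/
noncomputable def D0 : PD := ⟨(nat_lit 13), (nat_lit 6), (2731834, 6, 3), (3031204, 4036787, 560186), (3718172, 4072320, 1281671)⟩

theorem D0_ok : D0.Ok := pdb_sound (s := 2) (C := ⟨⟨3, 18, -4, -17, 2, 1, 2, -1, -7⟩, (3, 9, 2)⟩) (by show Nat.Prime 13; norm_num) (by decide +kernel)

/-- Lines of the first type. -/
noncomputable def Cl0 : List C1 := [⟨⟨17, -2, -16, 3, 18, 1, -2, 1, -5⟩, (10, 1, 8)⟩,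
  ⟨⟨3, -18, -4, -17, -2, 1, 2, 1, -7⟩, (5, 2, 12)⟩,
  ⟨⟨0, 0, 0, 0, 0, 0, 0, 0, 0⟩, (0, 0, 0)⟩,
  ⟨⟨17, 2, -16, 3, -18, 1, -2, -1, -5⟩, (8, 6, 9)⟩,
  ⟨⟨0, 0, 0, 0, 0, 0, 0, 0, 0⟩, (0, 0, 0)⟩,
  ⟨⟨0, 0, 0, 0, 0, 0, 0, 0, 0⟩, (0, 0, 0)⟩,
  ⟨⟨0, 0, 0, 0, 0, 0, 0, 0, 0⟩, (0, 0, 0)⟩,
  ⟨⟨0, 0, 0, 0, 0, 0, 0, 0, 0⟩, (0, 0, 0)⟩,
  ⟨⟨0, 0, 0, 0, 0, 0, 0, 0, 0⟩, (0, 0, 0)⟩,
  ⟨⟨0, 0, 0, 0, 0, 0, 0, 0, 0⟩, (0, 0, 0)⟩,
  ⟨⟨0, 0, 0, 0, 0, 0, 0, 0, 0⟩, (0, 0, 0)⟩,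
  ⟨⟨0, 0, 0, 0, 0, 0, 0, 0, 0⟩, (0, 0, 0)⟩,
  ⟨⟨0, 0, 0, 0, 0, 0, 0, 0, 0⟩, (0, 0, 0)⟩]

/-- Data of a prime. -/
noncomputable def D1 : PD := ⟨(nat_lit 37), (nat_lit 4), (1164206, 16, 5), (290098, 1020852, 1005947), (112988, 1391410, 1055966)⟩

theorem D1_ok : D1.Ok := pdb_sound (s := 2) (C := ⟨⟨43, 22, -44, 23, -2, 41, 6, -15, -7⟩, (6, 23, 6)⟩) (by show Nat.Prime 37; norm_num) (by decide +kernel)

/-- Lines of the first type. -/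
noncomputable def Cl1 : List C1 := [⟨⟨23, -2, -64, 43, 22, 1, -6, 15, -1⟩, (31, 29, 8)⟩,
  ⟨⟨0, 0, 0, 0, 0, 0, 0, 0, 0⟩, (0, 0, 0)⟩,
  ⟨⟨-7, 22, -49, 27, 42, 4, 14, -7, -13⟩, (1, 12, 35)⟩,
  ⟨⟨-13, 38, -31, -47, -22, 16, 6, -9, -17⟩, (20, 4, 5)⟩,
  ⟨⟨0, 0, 0, 0, 0, 0, 0, 0, 0⟩, (0, 0, 0)⟩,
  ⟨⟨0, 0, 0, 0, 0, 0, 0, 0, 0⟩, (0, 0, 0)⟩,
  ⟨⟨7, 22, -56, -27, 42, 31, 14, 7, -1⟩, (18, 31, 36)⟩,
  ⟨⟨0, 0, 0, 0, 0, 0, 0, 0, 0⟩, (0, 0, 0)⟩,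
  ⟨⟨0, 0, 0, 0, 0, 0, 0, 0, 0⟩, (0, 0, 0)⟩,
  ⟨⟨13, -38, -44, -47, -22, 31, -6, 9, -11⟩, (18, 26, 23)⟩,
  ⟨⟨0, 0, 0, 0, 0, 0, 0, 0, 0⟩, (0, 0, 0)⟩,
  ⟨⟨0, 0, 0, 0, 0, 0, 0, 0, 0⟩, (0, 0, 0)⟩,
  ⟨⟨0, 0, 0, 0, 0, 0, 0, 0, 0⟩, (0, 0, 0)⟩,
  ⟨⟨0, 0, 0, 0, 0, 0, 0, 0, 0⟩, (0, 0, 0)⟩,
  ⟨⟨13, 38, -44, -47, 22, 31, -6, -9, -11⟩, (4, 14, 1)⟩,
  ⟨⟨0, 0, 0, 0, 0, 0, 0, 0, 0⟩, (0, 0, 0)⟩,
  ⟨⟨0, 0, 0, 0, 0, 0, 0, 0, 0⟩, (0, 0, 0)⟩,
  ⟨⟨0, 0, 0, 0, 0, 0, 0, 0, 0⟩, (0, 0, 0)⟩,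
  ⟨⟨0, 0, 0, 0, 0, 0, 0, 0, 0⟩, (0, 0, 0)⟩,
  ⟨⟨0, 0, 0, 0, 0, 0, 0, 0, 0⟩, (0, 0, 0)⟩,
  ⟨⟨0, 0, 0, 0, 0, 0, 0, 0, 0⟩, (0, 0, 0)⟩,
  ⟨⟨0, 0, 0, 0, 0, 0, 0, 0, 0⟩, (0, 0, 0)⟩,
  ⟨⟨0, 0, 0, 0, 0, 0, 0, 0, 0⟩, (0, 0, 0)⟩,
  ⟨⟨-7, -22, -49, 27, -42, 4, 14, 7, -13⟩, (13, 8, 11)⟩,
  ⟨⟨0, 0, 0, 0, 0, 0, 0, 0, 0⟩, (0, 0, 0)⟩,
  ⟨⟨0, 0, 0, 0, 0, 0, 0, 0, 0⟩, (0, 0, 0)⟩,
  ⟨⟨0, 0, 0, 0, 0, 0, 0, 0, 0⟩, (0, 0, 0)⟩,
  ⟨⟨0, 0, 0, 0, 0, 0, 0, 0, 0⟩, (0, 0, 0)⟩,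
  ⟨⟨23, 2, -64, 43, -22, 1, -6, -15, -1⟩, (3, 4, 33)⟩,
  ⟨⟨0, 0, 0, 0, 0, 0, 0, 0, 0⟩, (0, 0, 0)⟩,
  ⟨⟨0, 0, 0, 0, 0, 0, 0, 0, 0⟩, (0, 0, 0)⟩,
  ⟨⟨-13, -38, -31, -47, 22, 16, 6, 9, -17⟩, (34, 29, 27)⟩,
  ⟨⟨7, -22, -56, -27, -42, 31, 14, -7, -1⟩, (30, 27, 23)⟩,
  ⟨⟨0, 0, 0, 0, 0, 0, 0, 0, 0⟩, (0, 0, 0)⟩,
  ⟨⟨43, -22, -44, 23, 2, 41, 6, 15, -7⟩, (12, 9, 12)⟩,
  ⟨⟨0, 0, 0, 0, 0, 0, 0, 0, 0⟩, (0, 0, 0)⟩,
  ⟨⟨0, 0, 0, 0, 0, 0, 0, 0, 0⟩, (0, 0, 0)⟩]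

/-- Data of a prime. -/
noncomputable def Dm : PD := ⟨(nat_lit 47), (nat_lit 2), (1034, 1, 9), (105, 517, 2039), (987, 5, 190)⟩

theorem Dm_ok : Dm.Ok := pdb_sound (s := 1) (C := ⟨⟨47, 2, -76, 47, -2, 29, 0, -21, -1⟩, (2, 45, 26)⟩) (by show Nat.Prime 47; norm_num) (by decide +kernel)

/-- Lines of the first type. -/
noncomputable def Clm : List C1 := [⟨⟨47, -2, -76, 47, 2, 29, 0, 21, -1⟩, (9, 38, 23)⟩,
  ⟨⟨0, 0, 0, 0, 0, 0, 0, 0, 0⟩, (0, 0, 0)⟩,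
  ⟨⟨0, 0, 0, 0, 0, 0, 0, 0, 0⟩, (0, 0, 0)⟩,
  ⟨⟨0, 0, 0, 0, 0, 0, 0, 0, 0⟩, (0, 0, 0)⟩,
  ⟨⟨17, 22, -76, -63, 18, 19, -4, -19, -7⟩, (10, 21, 17)⟩,
  ⟨⟨0, 0, 0, 0, 0, 0, 0, 0, 0⟩, (0, 0, 0)⟩,
  ⟨⟨57, -18, -61, -23, -62, 4, -8, 5, -17⟩, (3, 26, 7)⟩,
  ⟨⟨57, 18, -61, -23, 62, 4, -8, -5, -17⟩, (16, 29, 6)⟩,
  ⟨⟨53, -22, -64, -13, -62, 29, -12, -3, -13⟩, (46, 10, 2)⟩,
  ⟨⟨0, 0, 0, 0, 0, 0, 0, 0, 0⟩, (0, 0, 0)⟩,
  ⟨⟨43, -38, -59, 3, -42, 56, -16, -11, -1⟩, (35, 9, 46)⟩,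
  ⟨⟨0, 0, 0, 0, 0, 0, 0, 0, 0⟩, (0, 0, 0)⟩,
  ⟨⟨0, 0, 0, 0, 0, 0, 0, 0, 0⟩, (0, 0, 0)⟩,
  ⟨⟨-17, -22, -59, -63, 18, 44, 4, 19, -11⟩, (15, 39, 2)⟩,
  ⟨⟨0, 0, 0, 0, 0, 0, 0, 0, 0⟩, (0, 0, 0)⟩,
  ⟨⟨0, 0, 0, 0, 0, 0, 0, 0, 0⟩, (0, 0, 0)⟩,
  ⟨⟨0, 0, 0, 0, 0, 0, 0, 0, 0⟩, (0, 0, 0)⟩,
  ⟨⟨53, 22, -64, -13, 62, 29, -12, 3, -13⟩, (41, 13, 12)⟩,
  ⟨⟨0, 0, 0, 0, 0, 0, 0, 0, 0⟩, (0, 0, 0)⟩,
  ⟨⟨0, 0, 0, 0, 0, 0, 0, 0, 0⟩, (0, 0, 0)⟩,
  ⟨⟨0, 0, 0, 0, 0, 0, 0, 0, 0⟩, (0, 0, 0)⟩,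
  ⟨⟨0, 0, 0, 0, 0, 0, 0, 0, 0⟩, (0, 0, 0)⟩,
  ⟨⟨0, 0, 0, 0, 0, 0, 0, 0, 0⟩, (0, 0, 0)⟩,
  ⟨⟨43, 38, -59, 3, 42, 56, -16, 11, -1⟩, (5, 8, 20)⟩,
  ⟨⟨3, -42, -59, 43, -38, 16, 16, 11, -17⟩, (39, 42, 20)⟩,
  ⟨⟨0, 0, 0, 0, 0, 0, 0, 0, 0⟩, (0, 0, 0)⟩,
  ⟨⟨0, 0, 0, 0, 0, 0, 0, 0, 0⟩, (0, 0, 0)⟩,
  ⟨⟨0, 0, 0, 0, 0, 0, 0, 0, 0⟩, (0, 0, 0)⟩,
  ⟨⟨0, 0, 0, 0, 0, 0, 0, 0, 0⟩, (0, 0, 0)⟩,
  ⟨⟨0, 0, 0, 0, 0, 0, 0, 0, 0⟩, (0, 0, 0)⟩,
  ⟨⟨-13, -62, -16, 53, -22, 11, 12, 3, -25⟩, (34, 6, 12)⟩,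
  ⟨⟨0, 0, 0, 0, 0, 0, 0, 0, 0⟩, (0, 0, 0)⟩,
  ⟨⟨0, 0, 0, 0, 0, 0, 0, 0, 0⟩, (0, 0, 0)⟩,
  ⟨⟨0, 0, 0, 0, 0, 0, 0, 0, 0⟩, (0, 0, 0)⟩,
  ⟨⟨17, -22, -76, -63, -18, 19, -4, 19, -7⟩, (15, 8, 2)⟩,
  ⟨⟨0, 0, 0, 0, 0, 0, 0, 0, 0⟩, (0, 0, 0)⟩,
  ⟨⟨0, 0, 0, 0, 0, 0, 0, 0, 0⟩, (0, 0, 0)⟩,
  ⟨⟨3, 42, -59, 43, 38, 16, 16, -11, -17⟩, (38, 12, 46)⟩,
  ⟨⟨0, 0, 0, 0, 0, 0, 0, 0, 0⟩, (0, 0, 0)⟩,
  ⟨⟨-13, 62, -16, 53, 22, 11, 12, -3, -25⟩, (37, 1, 2)⟩,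
  ⟨⟨23, 62, -19, 57, -18, 4, 8, -5, -25⟩, (29, 31, 6)⟩,
  ⟨⟨23, -62, -19, 57, 18, 4, 8, 5, -25⟩, (26, 44, 7)⟩,
  ⟨⟨0, 0, 0, 0, 0, 0, 0, 0, 0⟩, (0, 0, 0)⟩,
  ⟨⟨-17, 22, -59, -63, -18, 44, 4, -19, -11⟩, (10, 26, 17)⟩,
  ⟨⟨0, 0, 0, 0, 0, 0, 0, 0, 0⟩, (0, 0, 0)⟩,
  ⟨⟨0, 0, 0, 0, 0, 0, 0, 0, 0⟩, (0, 0, 0)⟩,
  ⟨⟨0, 0, 0, 0, 0, 0, 0, 0, 0⟩, (0, 0, 0)⟩]

/-- Unit moves. -/
noncomputable def U : List Mv := [mz,
  mz,
  mz,
  mz,
  mz,
  mz,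
  ⟨⟨-1, 0, 1, 0, 1, 0, 0, 0, 1⟩, .nil, (nat_lit 12), (nat_lit 1), (nat_lit 4), (nat_lit 1), (0, 0, 0), [], 5⟩,
  ⟨⟨1, 0, 0, 0, -1, 0, 0, 0, 1⟩, .nil, (nat_lit 12), (nat_lit 3), (nat_lit 12), (nat_lit 1), (0, 0, 0), [], 11⟩,
  ⟨⟨-1, 0, 1, 0, -1, 0, 0, 0, 1⟩, .nil, (nat_lit 0), (nat_lit 3), (nat_lit 1), (nat_lit 0), (0, 0, 0), [], 10⟩,
  ⟨⟨1, 0, 0, 0, -1, 0, 0, 0, 1⟩, .nil, (nat_lit 12), (nat_lit 3), (nat_lit 12), (nat_lit 1), (0, 0, 0), [], 11⟩,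
  ⟨⟨-1, 0, 1, 0, 1, 0, 0, 0, 1⟩, .nil, (nat_lit 12), (nat_lit 1), (nat_lit 4), (nat_lit 1), (0, 0, 0), [], 5⟩,
  ⟨⟨-1, 0, 1, 0, -1, 0, 0, 0, 1⟩, .nil, (nat_lit 0), (nat_lit 3), (nat_lit 1), (nat_lit 0), (0, 0, 0), [], 10⟩,
  ⟨⟨1, 0, 0, 0, -1, 0, 0, 0, 1⟩, .nil, (nat_lit 12), (nat_lit 3), (nat_lit 12), (nat_lit 1), (0, 0, 0), [], 11⟩]

theorem v_ty : tyb Dm S.ty1 Clm = true := by decide +kernel

theorem v_ty0 : tyb D0 (S.tys.getD 0 0) Cl0 = true := by decide +kernel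

theorem v_ty1 : tyb D1 (S.tys.getD 1 0) Cl1 = true := by decide +kernel

theorem v_msc : mscb S D0 [D1] Dm (nat_lit 52) = true := by decide +kernel

theorem v_mv0 : mvsn (nat_lit 19983093755588041) S D0 [D1] Dm (nat_lit 52) 0 D0 = true := by decide +kernel

theorem v_mv1 : mvsn (nat_lit 19983093755588041) S D0 [D1] Dm (nat_lit 52) 1 D1 = true := by decide +kernel

theorem v_mm : mmsn (nat_lit 19983093755588041) S D0 [D1] Dm (nat_lit 52) = true := by decide +kernel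

theorem v_un : unb S D0 (nat_lit 52) U = true := by decide +kernel

theorem v_ok : okb S.oks [(0, 0, 0), (0, 0, 0), (0, 3, 0), (0, 0, 0), (0, 0, 0), (25, 44, 10), (0, 0, 0), (0, 0, 0), (0, 0, 0)] = true := by decide +kernel

theorem v_part : ∀ d < D0.p, (nat_lit 52).testBit d = true → part S (zc (D0 :: [D1])) d = true := by
  intro d hd h
  have h1 : ∀ d < 13, (nat_lit 52).testBit d = true → d = 2 ∨ d = 4 ∨ d = 5 := by decide
  rcases h1 d hd h with rfl | rfl | rfl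
  · exact part_2
  · exact part_4
  · exact part_5

theorem main (n : ℕ) (ho : Odd n) (hr : ¬ Rep n) (h0 : Split 13 n) (h1 : Split 37 n) (hm : Split 47 n) :
    n ∈ EE := by
  refine concln (W := nat_lit 19983093755588041) (S := S) (P0 := D0) (Pl := [D1]) (Pm := Dm) (cn := nat_lit 52) ?_ Dm_ok v_ty ?_ ?_ v_msc ?_ v_mm v_un v_part v_ok
    n ho hr ?_ hm
  · simp only [List.forall_mem_cons]
    exact ⟨D0_ok, D1_ok, fun _ h => absurd h (by simp)⟩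
  · exact all2 (φ := fun j P => ∃ L, tyb P (S.tys.getD j 0) L = true) ⟨_, v_ty0⟩ ⟨_, v_ty1⟩
  · exact all2 (φ := fun j P => Nat.ble (S.pks.getD j 0) (Nat.pow P.p P.K) = true) (by decide +kernel) (by decide +kernel)
  · exact all2 (φ := fun i P => mvsn (nat_lit 19983093755588041) S D0 [D1] Dm (nat_lit 52) i P = true) v_mv0 v_mv1
  · simp only [List.forall_mem_cons]
    exact ⟨h0, h1, fun _ h => absurd h (by simp)⟩

end Pool.Agent.Work.MP_9954fe_nt.P13_37_47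

namespace Pool.Agent.Work.MP_9954fe_nt.P13_43_53

/-- Dummy move. -/
noncomputable def mz : Mv := ⟨⟨0, 0, 0, 0, 0, 0, 0, 0, 0⟩, .nil, (nat_lit 0), (nat_lit 0), (nat_lit 0), (nat_lit 0), (0, 0, 0), [], 0⟩

/-- Moves. -/
noncomputable def t0_2 : List Mv := [
  ⟨⟨-1, -12, 9, 8, 5, 6, 8, -8, -7⟩, (.cons (nat_lit 1124) (nat_lit 173) (nat_lit 1983) (nat_lit 1) (.cons
 (nat_lit 840) (nat_lit 1311) (nat_lit 1148) (nat_lit 1) .nil)), (nat_lit 29), (nat_lit 22), (nat_lit 0),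
 (nat_lit 1), (8, 1, 1), [1400, 1269], 47⟩,
  ⟨⟨9, 4, -16, -8, -5, -6, 8, -8, -7⟩, (.cons (nat_lit 2069) (nat_lit 1980) (nat_lit 385) (nat_lit 1) (.cons
 (nat_lit 603) (nat_lit 592) (nat_lit 556) (nat_lit 1) .nil)), (nat_lit 0), (nat_lit 22), (nat_lit 23),
 (nat_lit 1), (6, 12, 1), [69, 1796], 6⟩,
  ⟨⟨9, 4, -16, -8, -5, -6, 8, -8, -7⟩, (.cons (nat_lit 2069) (nat_lit 1980) (nat_lit 385) (nat_lit 1) (.cons
 (nat_lit 603) (nat_lit 592) (nat_lit 556) (nat_lit 1) .nil)), (nat_lit 0), (nat_lit 22), (nat_lit 23),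
 (nat_lit 1), (6, 12, 1), [69, 1796], 6⟩,
  ⟨⟨-1, -12, 9, -8, -5, -6, 8, -8, -7⟩, (.cons (nat_lit 1594) (nat_lit 334) (nat_lit 1902) (nat_lit 1) (.cons
 (nat_lit 1848) (nat_lit 311) (nat_lit 40) (nat_lit 1) .nil)), (nat_lit 52), (nat_lit 31), (nat_lit 35),
 (nat_lit 1), (8, 12, 1), [1259, 979], 33⟩,
  ⟨⟨-1, -12, 9, 8, 5, 6, 8, -8, -7⟩, (.cons (nat_lit 1124) (nat_lit 173) (nat_lit 1983) (nat_lit 1) (.cons
 (nat_lit 840) (nat_lit 1311) (nat_lit 1148) (nat_lit 1) .nil)), (nat_lit 29), (nat_lit 22), (nat_lit 0),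
 (nat_lit 1), (8, 1, 1), [1400, 1269], 47⟩,
  ⟨⟨9, 4, -16, 8, 5, 6, 8, -8, -7⟩, (.cons (nat_lit 309) (nat_lit 1036) (nat_lit 1493) (nat_lit 1) (.cons
 (nat_lit 1740) (nat_lit 495) (nat_lit 804) (nat_lit 1) .nil)), (nat_lit 25), (nat_lit 31), (nat_lit 41),
 (nat_lit 1), (6, 1, 1), [249, 194], 20⟩,
  ⟨⟨9, 4, -16, 8, 5, 6, 8, -8, -7⟩, (.cons (nat_lit 309) (nat_lit 1036) (nat_lit 1493) (nat_lit 1) (.cons
 (nat_lit 1740) (nat_lit 495) (nat_lit 804) (nat_lit 1) .nil)), (nat_lit 25), (nat_lit 31), (nat_lit 41),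
 (nat_lit 1), (6, 1, 1), [249, 194], 20⟩,
  ⟨⟨-1, -12, 9, -8, -5, -6, 8, -8, -7⟩, (.cons (nat_lit 1594) (nat_lit 334) (nat_lit 1902) (nat_lit 1) (.cons
 (nat_lit 1848) (nat_lit 311) (nat_lit 40) (nat_lit 1) .nil)), (nat_lit 52), (nat_lit 31), (nat_lit 35),
 (nat_lit 1), (8, 12, 1), [1259, 979], 33⟩,
  ⟨⟨-1, -12, 9, -8, -5, -6, 8, -8, -7⟩, (.cons (nat_lit 1594) (nat_lit 334) (nat_lit 1902) (nat_lit 1) (.cons
 (nat_lit 1848) (nat_lit 311) (nat_lit 40) (nat_lit 1) .nil)), (nat_lit 52), (nat_lit 31), (nat_lit 35),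
 (nat_lit 1), (8, 12, 1), [1259, 979], 33⟩,
  ⟨⟨-1, -12, 9, -8, -5, -6, 8, -8, -7⟩, (.cons (nat_lit 1594) (nat_lit 334) (nat_lit 1902) (nat_lit 1) (.cons
 (nat_lit 1848) (nat_lit 311) (nat_lit 40) (nat_lit 1) .nil)), (nat_lit 52), (nat_lit 31), (nat_lit 35),
 (nat_lit 1), (8, 12, 1), [1259, 979], 33⟩,
  ⟨⟨-1, -12, 9, 8, 5, 6, 8, -8, -7⟩, (.cons (nat_lit 1124) (nat_lit 173) (nat_lit 1983) (nat_lit 1) (.cons
 (nat_lit 840) (nat_lit 1311) (nat_lit 1148) (nat_lit 1) .nil)), (nat_lit 29), (nat_lit 22), (nat_lit 0),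
 (nat_lit 1), (8, 1, 1), [1400, 1269], 47⟩,
  ⟨⟨-1, -12, 9, -8, -5, -6, 8, -8, -7⟩, (.cons (nat_lit 1594) (nat_lit 334) (nat_lit 1902) (nat_lit 1) (.cons
 (nat_lit 1848) (nat_lit 311) (nat_lit 40) (nat_lit 1) .nil)), (nat_lit 52), (nat_lit 31), (nat_lit 35),
 (nat_lit 1), (8, 12, 1), [1259, 979], 33⟩,
  ⟨⟨-1, -12, 9, -8, -5, -6, 8, -8, -7⟩, (.cons (nat_lit 1594) (nat_lit 334) (nat_lit 1902) (nat_lit 1) (.cons
 (nat_lit 1848) (nat_lit 311) (nat_lit 40) (nat_lit 1) .nil)), (nat_lit 52), (nat_lit 31), (nat_lit 35),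
 (nat_lit 1), (8, 12, 1), [1259, 979], 33⟩]

/-- Moves. -/
noncomputable def t0_4 : List Mv := [
  ⟨⟨5, 12, -9, -12, 5, 6, 0, 0, -13⟩, (.cons (nat_lit 344) (nat_lit 106) (nat_lit 1760) (nat_lit 1) (.cons
 (nat_lit 1248) (nat_lit 1798) (nat_lit 1469) (nat_lit 1) .nil)), (nat_lit 1), (nat_lit 36), (nat_lit 43),
 (nat_lit 1), (12, 5, 0), [1668, 893], 24⟩,
  ⟨⟨-5, -12, -4, -12, 5, 6, 0, 0, -13⟩, (.cons (nat_lit 907) (nat_lit 1531) (nat_lit 230) (nat_lit 1) (.cons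
 (nat_lit 1848) (nat_lit 696) (nat_lit 953) (nat_lit 1) .nil)), (nat_lit 52), (nat_lit 28), (nat_lit 49),
 (nat_lit 1), (1, 5, 0), [297, 979], 12⟩,
  ⟨⟨-5, -12, -4, -12, 5, 6, 0, 0, -13⟩, (.cons (nat_lit 907) (nat_lit 1531) (nat_lit 230) (nat_lit 1) (.cons
 (nat_lit 1848) (nat_lit 696) (nat_lit 953) (nat_lit 1) .nil)), (nat_lit 52), (nat_lit 28), (nat_lit 49),
 (nat_lit 1), (1, 5, 0), [297, 979], 12⟩,
  ⟨⟨-5, -12, -4, 12, -5, -6, 0, 0, -13⟩, (.cons (nat_lit 391) (nat_lit 1594) (nat_lit 1459) (nat_lit 1) (.cons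
 (nat_lit 474) (nat_lit 1112) (nat_lit 962) (nat_lit 1) .nil)), (nat_lit 1), (nat_lit 37), (nat_lit 28),
 (nat_lit 1), (1, 8, 0), [829, 1577], 46⟩,
  ⟨⟨5, 12, -9, 12, -5, -6, 0, 0, -13⟩, (.cons (nat_lit 472) (nat_lit 935) (nat_lit 1769) (nat_lit 1) (.cons
 (nat_lit 1848) (nat_lit 565) (nat_lit 1349) (nat_lit 1) .nil)), (nat_lit 52), (nat_lit 40), (nat_lit 17),
 (nat_lit 1), (12, 8, 0), [798, 373], 51⟩,
  ⟨⟨5, 12, -9, 12, -5, -6, 0, 0, -13⟩, (.cons (nat_lit 472) (nat_lit 935) (nat_lit 1769) (nat_lit 1) (.cons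
 (nat_lit 1848) (nat_lit 565) (nat_lit 1349) (nat_lit 1) .nil)), (nat_lit 52), (nat_lit 40), (nat_lit 17),
 (nat_lit 1), (12, 8, 0), [798, 373], 51⟩,
  ⟨⟨5, 12, -9, -12, 5, 6, 0, 0, -13⟩, (.cons (nat_lit 344) (nat_lit 106) (nat_lit 1760) (nat_lit 1) (.cons
 (nat_lit 1248) (nat_lit 1798) (nat_lit 1469) (nat_lit 1) .nil)), (nat_lit 1), (nat_lit 36), (nat_lit 43),
 (nat_lit 1), (12, 5, 0), [1668, 893], 24⟩,
  ⟨⟨5, 12, -9, 12, -5, -6, 0, 0, -13⟩, (.cons (nat_lit 472) (nat_lit 935) (nat_lit 1769) (nat_lit 1) (.cons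
 (nat_lit 1848) (nat_lit 565) (nat_lit 1349) (nat_lit 1) .nil)), (nat_lit 52), (nat_lit 40), (nat_lit 17),
 (nat_lit 1), (12, 8, 0), [798, 373], 51⟩,
  ⟨⟨5, 12, -9, 12, -5, -6, 0, 0, -13⟩, (.cons (nat_lit 472) (nat_lit 935) (nat_lit 1769) (nat_lit 1) (.cons
 (nat_lit 1848) (nat_lit 565) (nat_lit 1349) (nat_lit 1) .nil)), (nat_lit 52), (nat_lit 40), (nat_lit 17),
 (nat_lit 1), (12, 8, 0), [798, 373], 51⟩,
  ⟨⟨-5, -12, -4, 12, -5, -6, 0, 0, -13⟩, (.cons (nat_lit 391) (nat_lit 1594) (nat_lit 1459) (nat_lit 1) (.cons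
 (nat_lit 474) (nat_lit 1112) (nat_lit 962) (nat_lit 1) .nil)), (nat_lit 1), (nat_lit 37), (nat_lit 28),
 (nat_lit 1), (1, 8, 0), [829, 1577], 46⟩,
  ⟨⟨5, 12, -9, 12, -5, -6, 0, 0, -13⟩, (.cons (nat_lit 472) (nat_lit 935) (nat_lit 1769) (nat_lit 1) (.cons
 (nat_lit 1848) (nat_lit 565) (nat_lit 1349) (nat_lit 1) .nil)), (nat_lit 52), (nat_lit 40), (nat_lit 17),
 (nat_lit 1), (12, 8, 0), [798, 373], 51⟩,
  ⟨⟨5, 12, -9, -12, 5, 6, 0, 0, -13⟩, (.cons (nat_lit 344) (nat_lit 106) (nat_lit 1760) (nat_lit 1) (.cons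
 (nat_lit 1248) (nat_lit 1798) (nat_lit 1469) (nat_lit 1) .nil)), (nat_lit 1), (nat_lit 36), (nat_lit 43),
 (nat_lit 1), (12, 5, 0), [1668, 893], 24⟩,
  ⟨⟨5, 12, -9, 12, -5, -6, 0, 0, -13⟩, (.cons (nat_lit 472) (nat_lit 935) (nat_lit 1769) (nat_lit 1) (.cons
 (nat_lit 1848) (nat_lit 565) (nat_lit 1349) (nat_lit 1) .nil)), (nat_lit 52), (nat_lit 40), (nat_lit 17),
 (nat_lit 1), (12, 8, 0), [798, 373], 51⟩]

/-- Moves. -/
noncomputable def t0_5 : List Mv := [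
  ⟨⟨9, 8, -13, 10, -7, 0, 2, -4, -13⟩, (.cons (nat_lit 174) (nat_lit 316) (nat_lit 1278) (nat_lit 1) (.cons
 (nat_lit 454) (nat_lit 1034) (nat_lit 1840) (nat_lit 1) .nil)), (nat_lit 23), (nat_lit 36), (nat_lit 10),
 (nat_lit 1), (2, 8, 12), [574, 1148], 18⟩,
  ⟨⟨9, 8, -13, -10, 7, 0, 2, -4, -13⟩, (.cons (nat_lit 1016) (nat_lit 1868) (nat_lit 945) (nat_lit 1) (.cons
 (nat_lit 216) (nat_lit 922) (nat_lit 141) (nat_lit 1) .nil)), (nat_lit 8), (nat_lit 40), (nat_lit 3), (nat_lit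
 1), (2, 5, 12), [53, 930], 25⟩,
  ⟨⟨9, 8, -13, -10, 7, 0, 2, -4, -13⟩, (.cons (nat_lit 1016) (nat_lit 1868) (nat_lit 945) (nat_lit 1) (.cons
 (nat_lit 216) (nat_lit 922) (nat_lit 141) (nat_lit 1) .nil)), (nat_lit 8), (nat_lit 40), (nat_lit 3), (nat_lit
 1), (2, 5, 12), [53, 930], 25⟩,
  ⟨⟨9, 8, -13, -10, 7, 0, 2, -4, -13⟩, (.cons (nat_lit 1016) (nat_lit 1868) (nat_lit 945) (nat_lit 1) (.cons
 (nat_lit 216) (nat_lit 922) (nat_lit 141) (nat_lit 1) .nil)), (nat_lit 8), (nat_lit 40), (nat_lit 3), (nat_lit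
 1), (2, 5, 12), [53, 930], 25⟩,
  ⟨⟨-7, -12, 0, 10, -7, 0, 2, -4, -13⟩, (.cons (nat_lit 666) (nat_lit 1192) (nat_lit 2190) (nat_lit 1) (.cons
 (nat_lit 62) (nat_lit 1030) (nat_lit 292) (nat_lit 1) .nil)), (nat_lit 31), (nat_lit 28), (nat_lit 32),
 (nat_lit 1), (10, 8, 12), [1975, 288], 9⟩,
  ⟨⟨9, 8, -13, 10, -7, 0, 2, -4, -13⟩, (.cons (nat_lit 174) (nat_lit 316) (nat_lit 1278) (nat_lit 1) (.cons
 (nat_lit 454) (nat_lit 1034) (nat_lit 1840) (nat_lit 1) .nil)), (nat_lit 23), (nat_lit 36), (nat_lit 10),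
 (nat_lit 1), (2, 8, 12), [574, 1148], 18⟩,
  ⟨⟨9, 8, -13, 10, -7, 0, 2, -4, -13⟩, (.cons (nat_lit 174) (nat_lit 316) (nat_lit 1278) (nat_lit 1) (.cons
 (nat_lit 454) (nat_lit 1034) (nat_lit 1840) (nat_lit 1) .nil)), (nat_lit 23), (nat_lit 36), (nat_lit 10),
 (nat_lit 1), (2, 8, 12), [574, 1148], 18⟩,
  ⟨⟨9, 8, -13, -10, 7, 0, 2, -4, -13⟩, (.cons (nat_lit 1016) (nat_lit 1868) (nat_lit 945) (nat_lit 1) (.cons
 (nat_lit 216) (nat_lit 922) (nat_lit 141) (nat_lit 1) .nil)), (nat_lit 8), (nat_lit 40), (nat_lit 3), (nat_lit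
 1), (2, 5, 12), [53, 930], 25⟩,
  ⟨⟨-7, -12, 0, 10, -7, 0, 2, -4, -13⟩, (.cons (nat_lit 666) (nat_lit 1192) (nat_lit 2190) (nat_lit 1) (.cons
 (nat_lit 62) (nat_lit 1030) (nat_lit 292) (nat_lit 1) .nil)), (nat_lit 31), (nat_lit 28), (nat_lit 32),
 (nat_lit 1), (10, 8, 12), [1975, 288], 9⟩,
  ⟨⟨-7, -12, 0, -10, 7, 0, 2, -4, -13⟩, (.cons (nat_lit 1329) (nat_lit 1668) (nat_lit 2026) (nat_lit 1) (.cons
 (nat_lit 1848) (nat_lit 927) (nat_lit 55) (nat_lit 1) .nil)), (nat_lit 52), (nat_lit 37), (nat_lit 8),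
 (nat_lit 1), (10, 5, 12), [947, 973], 8⟩,
  ⟨⟨9, 8, -13, -10, 7, 0, 2, -4, -13⟩, (.cons (nat_lit 1016) (nat_lit 1868) (nat_lit 945) (nat_lit 1) (.cons
 (nat_lit 216) (nat_lit 922) (nat_lit 141) (nat_lit 1) .nil)), (nat_lit 8), (nat_lit 40), (nat_lit 3), (nat_lit
 1), (2, 5, 12), [53, 930], 25⟩,
  ⟨⟨9, 8, -13, -10, 7, 0, 2, -4, -13⟩, (.cons (nat_lit 1016) (nat_lit 1868) (nat_lit 945) (nat_lit 1) (.cons
 (nat_lit 216) (nat_lit 922) (nat_lit 141) (nat_lit 1) .nil)), (nat_lit 8), (nat_lit 40), (nat_lit 3), (nat_lit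
 1), (2, 5, 12), [53, 930], 25⟩,
  ⟨⟨9, 8, -13, -10, 7, 0, 2, -4, -13⟩, (.cons (nat_lit 1016) (nat_lit 1868) (nat_lit 945) (nat_lit 1) (.cons
 (nat_lit 216) (nat_lit 922) (nat_lit 141) (nat_lit 1) .nil)), (nat_lit 8), (nat_lit 40), (nat_lit 3), (nat_lit
 1), (2, 5, 12), [53, 930], 25⟩]

/-- Moves. -/
noncomputable def t1_2 : List Mv := [
  mz,
  ⟨⟨3, 44, -20, 2, 15, 44, 36, 12, -25⟩, (.cons (nat_lit 1034) (nat_lit 821) (nat_lit 1565) (nat_lit 1) (.cons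
 (nat_lit 1146) (nat_lit 1615) (nat_lit 185) (nat_lit 1) .nil)), (nat_lit 10), (nat_lit 39), (nat_lit 40),
 (nat_lit 1), (36, 24, 2), [1483, 60], 24⟩,
  mz,
  mz,
  ⟨⟨19, 36, -36, -20, -13, -30, 34, -8, -35⟩, (.cons (nat_lit 1567) (nat_lit 2024) (nat_lit 1800) (nat_lit 1)
 (.cons (nat_lit 749) (nat_lit 1193) (nat_lit 216) (nat_lit 1) .nil)), (nat_lit 28), (nat_lit 34), (nat_lit
 25), (nat_lit 1), (14, 26, 16), [1241, 1777], 48⟩,
  ⟨⟨33, -32, -28, 2, 15, -46, 36, 12, -11⟩, (.cons (nat_lit 489) (nat_lit 113) (nat_lit 1696) (nat_lit 1)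
 (.cons (nat_lit 667) (nat_lit 738) (nat_lit 1461) (nat_lit 1) .nil)), (nat_lit 13), (nat_lit 37), (nat_lit
 49), (nat_lit 1), (19, 22, 9), [1337, 416], 33⟩,
  ⟨⟨-37, -24, 0, -20, 37, 0, 2, -8, -43⟩, (.cons (nat_lit 2196) (nat_lit 626) (nat_lit 1725) (nat_lit 1) (.cons
 (nat_lit 1390) (nat_lit 1579) (nat_lit 547) (nat_lit 1) .nil)), (nat_lit 52), (nat_lit 43), (nat_lit 39),
 (nat_lit 1), (12, 3, 4), [2, 1160], 32⟩,
  ⟨⟨33, 8, -53, -20, -27, -20, 30, -24, -13⟩, (.cons (nat_lit 1823) (nat_lit 1226) (nat_lit 2040) (nat_lit 1)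
 (.cons (nat_lit 1484) (nat_lit 81) (nat_lit 949) (nat_lit 1) .nil)), (nat_lit 24), (nat_lit 10), (nat_lit 52),
 (nat_lit 1), (32, 21, 33), [76, 1425], 22⟩,
  ⟨⟨-39, -16, -4, 20, -37, -20, -2, 8, -41⟩, (.cons (nat_lit 1176) (nat_lit 1614) (nat_lit 1610) (nat_lit 1)
 (.cons (nat_lit 962) (nat_lit 777) (nat_lit 1488) (nat_lit 1) .nil)), (nat_lit 6), (nat_lit 51), (nat_lit 17),
 (nat_lit 1), (6, 30, 40), [2157, 1438], 29⟩,
  ⟨⟨47, 0, -20, 0, 43, 0, 18, 0, -47⟩, (.cons (nat_lit 2196) (nat_lit 830) (nat_lit 276) (nat_lit 1) (.cons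
 (nat_lit 59) (nat_lit 15) (nat_lit 1244) (nat_lit 1) .nil)), (nat_lit 52), (nat_lit 43), (nat_lit 28),
 (nat_lit 1), (34, 0, 24), [1332, 111], 34⟩,
  ⟨⟨21, -20, 31, 38, 15, -34, 12, -36, -13⟩, (.cons (nat_lit 1051) (nat_lit 2009) (nat_lit 149) (nat_lit 1)
 (.cons (nat_lit 1841) (nat_lit 1697) (nat_lit 681) (nat_lit 1) .nil)), (nat_lit 28), (nat_lit 33), (nat_lit
 16), (nat_lit 1), (8, 37, 23), [384, 40], 35⟩,
  mz,
  ⟨⟨-15, 44, 16, 20, 13, -50, -34, 8, -1⟩, (.cons (nat_lit 1889) (nat_lit 2036) (nat_lit 1262) (nat_lit 1)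
 (.cons (nat_lit 1138) (nat_lit 1770) (nat_lit 1523) (nat_lit 1) .nil)), (nat_lit 48), (nat_lit 24), (nat_lit
 11), (nat_lit 1), (28, 20, 9), [1492, 1270], 40⟩,
  ⟨⟨33, 8, 20, 20, 27, -40, 30, -24, -17⟩, (.cons (nat_lit 2196) (nat_lit 411) (nat_lit 959) (nat_lit 1) (.cons
 (nat_lit 290) (nat_lit 1037) (nat_lit 879) (nat_lit 1) .nil)), (nat_lit 52), (nat_lit 52), (nat_lit 2),
 (nat_lit 1), (4, 35, 31), [792, 1525], 10⟩,
  mz,
  mz,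
  mz,
  ⟨⟨5, 36, 31, 40, -13, -10, 14, 32, -25⟩, (.cons (nat_lit 2073) (nat_lit 1468) (nat_lit 505) (nat_lit 1)
 (.cons (nat_lit 976) (nat_lit 381) (nat_lit 965) (nat_lit 1) .nil)), (nat_lit 10), (nat_lit 40), (nat_lit 47),
 (nat_lit 1), (1, 8, 20), [2109, 1262], 44⟩,
  ⟨⟨-5, -36, 36, 40, -13, -30, -14, -32, -11⟩, (.cons (nat_lit 1510) (nat_lit 1984) (nat_lit 1886) (nat_lit 1)
 (.cons (nat_lit 1809) (nat_lit 208) (nat_lit 807) (nat_lit 1) .nil)), (nat_lit 36), (nat_lit 48), (nat_lit 1),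
 (nat_lit 1), (11, 41, 5), [2117, 1486], 39⟩,
  mz,
  mz,
  ⟨⟨-9, 16, -44, 38, -15, -34, 12, 36, -13⟩, (.cons (nat_lit 629) (nat_lit 1424) (nat_lit 958) (nat_lit 1)
 (.cons (nat_lit 1483) (nat_lit 1715) (nat_lit 1148) (nat_lit 1) .nil)), (nat_lit 49), (nat_lit 42), (nat_lit
 37), (nat_lit 1), (1, 34, 13), [1870, 1], 2⟩,
  ⟨⟨-21, 20, 52, 38, 15, -4, -12, 36, -1⟩, (.cons (nat_lit 1107) (nat_lit 711) (nat_lit 978) (nat_lit 1) (.cons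
 (nat_lit 59) (nat_lit 1353) (nat_lit 1392) (nat_lit 1) .nil)), (nat_lit 16), (nat_lit 12), (nat_lit 49),
 (nat_lit 1), (12, 9, 13), [43, 814], 49⟩,
  mz,
  mz,
  ⟨⟨5, -36, 31, 40, 13, -10, 14, -32, -25⟩, (.cons (nat_lit 118) (nat_lit 1658) (nat_lit 148) (nat_lit 1)
 (.cons (nat_lit 517) (nat_lit 1690) (nat_lit 283) (nat_lit 1) .nil)), (nat_lit 48), (nat_lit 6), (nat_lit 5),
 (nat_lit 1), (11, 2, 5), [838, 711], 21⟩,
  ⟨⟨-5, 36, 36, 40, 13, -30, -14, 32, -11⟩, (.cons (nat_lit 1135) (nat_lit 1713) (nat_lit 292) (nat_lit 1)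
 (.cons (nat_lit 1289) (nat_lit 967) (nat_lit 677) (nat_lit 1) .nil)), (nat_lit 48), (nat_lit 29), (nat_lit
 42), (nat_lit 1), (1, 35, 20), [673, 1176], 40⟩,
  mz,
  mz,
  mz,
  ⟨⟨33, -8, -53, 20, -27, 20, 30, 24, -13⟩, (.cons (nat_lit 705) (nat_lit 1446) (nat_lit 562) (nat_lit 1)
 (.cons (nat_lit 1578) (nat_lit 1332) (nat_lit 1289) (nat_lit 1) .nil)), (nat_lit 24), (nat_lit 7), (nat_lit
 44), (nat_lit 1), (39, 8, 12), [1194, 1347], 22⟩,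
  ⟨⟨15, 44, 1, -20, 13, -30, 34, 8, -35⟩, (.cons (nat_lit 391) (nat_lit 2034) (nat_lit 1451) (nat_lit 1) (.cons
 (nat_lit 1547) (nat_lit 1757) (nat_lit 184) (nat_lit 1) .nil)), (nat_lit 21), (nat_lit 33), (nat_lit 1),
 (nat_lit 1), (28, 20, 9), [617, 15], 39⟩,
  mz,
  ⟨⟨-21, -20, 52, 38, -15, -4, -12, -36, -1⟩, (.cons (nat_lit 1945) (nat_lit 255) (nat_lit 1180) (nat_lit 1)
 (.cons (nat_lit 269) (nat_lit 445) (nat_lit 1731) (nat_lit 1) .nil)), (nat_lit 13), (nat_lit 28), (nat_lit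
 25), (nat_lit 1), (8, 6, 23), [418, 842], 20⟩,
  ⟨⟨29, 0, -56, 0, -43, 0, -18, 0, -29⟩, (.cons (nat_lit 2196) (nat_lit 1920) (nat_lit 154) (nat_lit 1) (.cons
 (nat_lit 1216) (nat_lit 1436) (nat_lit 744) (nat_lit 1) .nil)), (nat_lit 52), (nat_lit 48), (nat_lit 6),
 (nat_lit 1), (33, 0, 24), [1953, 1554], 28⟩,
  ⟨⟨39, -16, -43, 20, 37, 0, 2, 8, -43⟩, (.cons (nat_lit 147) (nat_lit 1567) (nat_lit 196) (nat_lit 1) (.cons
 (nat_lit 1824) (nat_lit 1292) (nat_lit 400) (nat_lit 1) .nil)), (nat_lit 8), (nat_lit 28), (nat_lit 24),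
 (nat_lit 1), (6, 13, 40), [779, 954], 38⟩,
  ⟨⟨33, -8, 20, -20, 27, 40, 30, 24, -17⟩, (.cons (nat_lit 494) (nat_lit 745) (nat_lit 1) (nat_lit 1703) (.cons
 (nat_lit 1571) (nat_lit 503) (nat_lit 353) (nat_lit 1) .nil)), (nat_lit 52), (nat_lit 12), (nat_lit 30),
 (nat_lit 1), (11, 22, 10), [1953, 333], 47⟩,
  ⟨⟨-39, 16, -4, 20, 37, -20, -2, -8, -41⟩, (.cons (nat_lit 2196) (nat_lit 1283) (nat_lit 304) (nat_lit 1)
 (.cons (nat_lit 1716) (nat_lit 1629) (nat_lit 1047) (nat_lit 1) .nil)), (nat_lit 52), (nat_lit 42), (nat_lit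
 10), (nat_lit 1), (35, 3, 4), [479, 931], 23⟩,
  ⟨⟨33, 32, -5, -2, 15, -44, 36, -12, -25⟩, (.cons (nat_lit 370) (nat_lit 1453) (nat_lit 1992) (nat_lit 1)
 (.cons (nat_lit 1601) (nat_lit 967) (nat_lit 1) (nat_lit 1763) .nil)), (nat_lit 36), (nat_lit 31), (nat_lit
 7), (nat_lit 1), (24, 22, 34), [1981, 1827], 45⟩,
  ⟨⟨-15, -44, 16, 20, -13, -50, -34, -8, -1⟩, (.cons (nat_lit 1596) (nat_lit 1383) (nat_lit 721) (nat_lit 1)
 (.cons (nat_lit 752) (nat_lit 324) (nat_lit 608) (nat_lit 1) .nil)), (nat_lit 35), (nat_lit 21), (nat_lit 38),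
 (nat_lit 1), (2, 26, 16), [2173, 246], 2⟩,
  mz,
  mz,
  ⟨⟨33, 32, -28, 2, -15, -46, 36, -12, -11⟩, (.cons (nat_lit 450) (nat_lit 1897) (nat_lit 1964) (nat_lit 1)
 (.cons (nat_lit 610) (nat_lit 1464) (nat_lit 758) (nat_lit 1) .nil)), (nat_lit 20), (nat_lit 11), (nat_lit
 25), (nat_lit 1), (34, 19, 41), [627, 1551], 47⟩]

/-- Moves. -/
noncomputable def t1_4 : List Mv := [
  mz,
  ⟨⟨3, 44, -20, -2, -15, -44, 36, 12, -25⟩, (.cons (nat_lit 1578) (nat_lit 1858) (nat_lit 1016) (nat_lit 1)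
 (.cons (nat_lit 189) (nat_lit 471) (nat_lit 983) (nat_lit 1) .nil)), (nat_lit 49), (nat_lit 6), (nat_lit 47),
 (nat_lit 1), (36, 19, 2), [2195, 554], 2⟩,
  mz,
  mz,
  ⟨⟨19, 36, -36, -20, -13, -30, 34, -8, -35⟩, (.cons (nat_lit 1567) (nat_lit 2024) (nat_lit 1800) (nat_lit 1)
 (.cons (nat_lit 749) (nat_lit 1193) (nat_lit 216) (nat_lit 1) .nil)), (nat_lit 28), (nat_lit 34), (nat_lit
 25), (nat_lit 1), (14, 26, 16), [1241, 1777], 48⟩,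
  ⟨⟨3, 44, 17, -2, -15, 46, 36, 12, -11⟩, (.cons (nat_lit 1510) (nat_lit 243) (nat_lit 609) (nat_lit 1) (.cons
 (nat_lit 761) (nat_lit 1690) (nat_lit 685) (nat_lit 1) .nil)), (nat_lit 15), (nat_lit 36), (nat_lit 29),
 (nat_lit 1), (33, 21, 9), [288, 585], 8⟩,
  ⟨⟨-37, -24, 0, -20, 37, 0, 2, -8, -43⟩, (.cons (nat_lit 2196) (nat_lit 626) (nat_lit 1725) (nat_lit 1) (.cons
 (nat_lit 1390) (nat_lit 1579) (nat_lit 547) (nat_lit 1) .nil)), (nat_lit 52), (nat_lit 43), (nat_lit 39),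
 (nat_lit 1), (12, 3, 4), [2, 1160], 32⟩,
  ⟨⟨33, 8, -53, 20, 27, 20, 30, -24, -13⟩, (.cons (nat_lit 1471) (nat_lit 568) (nat_lit 36) (nat_lit 1) (.cons
 (nat_lit 347) (nat_lit 818) (nat_lit 460) (nat_lit 1) .nil)), (nat_lit 34), (nat_lit 26), (nat_lit 19),
 (nat_lit 1), (32, 22, 33), [1273, 1263], 42⟩,
  ⟨⟨-39, -16, -4, 20, -37, -20, -2, 8, -41⟩, (.cons (nat_lit 1176) (nat_lit 1614) (nat_lit 1610) (nat_lit 1)
 (.cons (nat_lit 962) (nat_lit 777) (nat_lit 1488) (nat_lit 1) .nil)), (nat_lit 6), (nat_lit 51), (nat_lit 17),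
 (nat_lit 1), (6, 30, 40), [2157, 1438], 29⟩,
  ⟨⟨-29, 0, -27, 0, -43, 0, 18, 0, -47⟩, (.cons (nat_lit 1185) (nat_lit 512) (nat_lit 1827) (nat_lit 1) (.cons
 (nat_lit 988) (nat_lit 244) (nat_lit 1529) (nat_lit 1) .nil)), (nat_lit 44), (nat_lit 47), (nat_lit 16),
 (nat_lit 1), (33, 0, 24), [132, 439], 22⟩,
  ⟨⟨21, -20, 31, 38, 15, -34, 12, -36, -13⟩, (.cons (nat_lit 1051) (nat_lit 2009) (nat_lit 149) (nat_lit 1)
 (.cons (nat_lit 1841) (nat_lit 1697) (nat_lit 681) (nat_lit 1) .nil)), (nat_lit 28), (nat_lit 33), (nat_lit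
 16), (nat_lit 1), (8, 37, 23), [384, 40], 35⟩,
  mz,
  ⟨⟨-19, -36, -17, 20, 13, -50, -34, 8, -1⟩, (.cons (nat_lit 1437) (nat_lit 883) (nat_lit 801) (nat_lit 1)
 (.cons (nat_lit 754) (nat_lit 1541) (nat_lit 147) (nat_lit 1) .nil)), (nat_lit 22), (nat_lit 52), (nat_lit
 10), (nat_lit 1), (24, 20, 9), [2020, 195], 2⟩,
  ⟨⟨33, 8, 20, 20, 27, -40, 30, -24, -17⟩, (.cons (nat_lit 2196) (nat_lit 411) (nat_lit 959) (nat_lit 1) (.cons
 (nat_lit 290) (nat_lit 1037) (nat_lit 879) (nat_lit 1) .nil)), (nat_lit 52), (nat_lit 52), (nat_lit 2),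
 (nat_lit 1), (4, 35, 31), [792, 1525], 10⟩,
  mz,
  mz,
  mz,
  ⟨⟨9, -4, -56, 40, -13, -10, 14, 32, -25⟩, (.cons (nat_lit 345) (nat_lit 1542) (nat_lit 1752) (nat_lit 1)
 (.cons (nat_lit 658) (nat_lit 1296) (nat_lit 148) (nat_lit 1) .nil)), (nat_lit 28), (nat_lit 37), (nat_lit
 33), (nat_lit 1), (19, 8, 20), [84, 703], 48⟩,
  ⟨⟨-9, 4, -47, -40, 13, 30, -14, -32, -11⟩, (.cons (nat_lit 847) (nat_lit 1276) (nat_lit 426) (nat_lit 1)
 (.cons (nat_lit 1592) (nat_lit 1062) (nat_lit 1523) (nat_lit 1) .nil)), (nat_lit 41), (nat_lit 41), (nat_lit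
 14), (nat_lit 1), (37, 2, 5), [813, 1657], 23⟩,
  mz,
  mz,
  ⟨⟨21, 20, 31, 38, -15, -34, 12, 36, -13⟩, (.cons (nat_lit 790) (nat_lit 479) (nat_lit 66) (nat_lit 1) (.cons
 (nat_lit 581) (nat_lit 1424) (nat_lit 1449) (nat_lit 1) .nil)), (nat_lit 40), (nat_lit 21), (nat_lit 24),
 (nat_lit 1), (12, 34, 13), [1556, 689], 29⟩,
  ⟨⟨-21, 20, 52, 38, 15, -4, -12, 36, -1⟩, (.cons (nat_lit 1107) (nat_lit 711) (nat_lit 978) (nat_lit 1) (.cons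
 (nat_lit 59) (nat_lit 1353) (nat_lit 1392) (nat_lit 1) .nil)), (nat_lit 16), (nat_lit 12), (nat_lit 49),
 (nat_lit 1), (12, 9, 13), [43, 814], 49⟩,
  mz,
  mz,
  ⟨⟨9, 4, -56, 40, 13, -10, 14, -32, -25⟩, (.cons (nat_lit 2090) (nat_lit 349) (nat_lit 1017) (nat_lit 1)
 (.cons (nat_lit 1461) (nat_lit 632) (nat_lit 1659) (nat_lit 1) .nil)), (nat_lit 21), (nat_lit 26), (nat_lit
 34), (nat_lit 1), (37, 2, 5), [233, 1356], 44⟩,
  ⟨⟨-5, 36, 36, 40, 13, -30, -14, 32, -11⟩, (.cons (nat_lit 1135) (nat_lit 1713) (nat_lit 292) (nat_lit 1)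
 (.cons (nat_lit 1289) (nat_lit 967) (nat_lit 677) (nat_lit 1) .nil)), (nat_lit 48), (nat_lit 29), (nat_lit
 42), (nat_lit 1), (1, 35, 20), [673, 1176], 40⟩,
  mz,
  mz,
  mz,
  ⟨⟨33, -8, -53, -20, 27, -20, 30, 24, -13⟩, (.cons (nat_lit 1739) (nat_lit 221) (nat_lit 481) (nat_lit 1)
 (.cons (nat_lit 210) (nat_lit 822) (nat_lit 830) (nat_lit 1) .nil)), (nat_lit 47), (nat_lit 30), (nat_lit 26),
 (nat_lit 1), (39, 35, 12), [1093, 231], 16⟩,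
  ⟨⟨15, 44, 1, 20, -13, 30, 34, 8, -35⟩, (.cons (nat_lit 1506) (nat_lit 1571) (nat_lit 1829) (nat_lit 1) (.cons
 (nat_lit 1515) (nat_lit 1556) (nat_lit 466) (nat_lit 1) .nil)), (nat_lit 16), (nat_lit 49), (nat_lit 43),
 (nat_lit 1), (28, 23, 9), [1494, 1227], 28⟩,
  mz,
  ⟨⟨-21, -20, 52, -38, 15, 4, -12, -36, -1⟩, (.cons (nat_lit 2010) (nat_lit 1297) (nat_lit 217) (nat_lit 1)
 (.cons (nat_lit 1229) (nat_lit 1562) (nat_lit 81) (nat_lit 1) .nil)), (nat_lit 20), (nat_lit 37), (nat_lit 6),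
 (nat_lit 1), (8, 37, 23), [1713, 439], 6⟩,
  ⟨⟨-47, 0, 27, 0, -43, 0, -18, 0, -29⟩, (.cons (nat_lit 254) (nat_lit 1772) (nat_lit 1706) (nat_lit 1) (.cons
 (nat_lit 203) (nat_lit 1746) (nat_lit 787) (nat_lit 1) .nil)), (nat_lit 47), (nat_lit 17), (nat_lit 43),
 (nat_lit 1), (34, 0, 24), [540, 92], 50⟩,
  ⟨⟨39, -16, -43, 20, 37, 0, 2, 8, -43⟩, (.cons (nat_lit 147) (nat_lit 1567) (nat_lit 196) (nat_lit 1) (.cons
 (nat_lit 1824) (nat_lit 1292) (nat_lit 400) (nat_lit 1) .nil)), (nat_lit 8), (nat_lit 28), (nat_lit 24),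
 (nat_lit 1), (6, 13, 40), [779, 954], 38⟩,
  ⟨⟨33, -8, 20, 20, -27, -40, 30, 24, -17⟩, (.cons (nat_lit 256) (nat_lit 820) (nat_lit 744) (nat_lit 1) (.cons
 (nat_lit 1783) (nat_lit 953) (nat_lit 845) (nat_lit 1) .nil)), (nat_lit 47), (nat_lit 15), (nat_lit 37),
 (nat_lit 1), (11, 21, 10), [960, 813], 45⟩,
  ⟨⟨-39, 16, -4, -20, -37, 20, -2, -8, -41⟩, (.cons (nat_lit 1545) (nat_lit 2162) (nat_lit 1751) (nat_lit 1)
 (.cons (nat_lit 144) (nat_lit 388) (nat_lit 964) (nat_lit 1) .nil)), (nat_lit 9), (nat_lit 18), (nat_lit 6),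
 (nat_lit 1), (35, 40, 4), [620, 390], 17⟩,
  ⟨⟨3, -44, -20, -2, 15, -44, 36, -12, -25⟩, (.cons (nat_lit 2150) (nat_lit 1640) (nat_lit 1411) (nat_lit 1)
 (.cons (nat_lit 1151) (nat_lit 538) (nat_lit 1) (nat_lit 989) .nil)), (nat_lit 8), (nat_lit 22), (nat_lit 5),
 (nat_lit 1), (10, 22, 34), [783, 666], 13⟩,
  ⟨⟨-15, -44, 16, -20, 13, 50, -34, -8, -1⟩, (.cons (nat_lit 531) (nat_lit 280) (nat_lit 2159) (nat_lit 1)
 (.cons (nat_lit 1399) (nat_lit 570) (nat_lit 358) (nat_lit 1) .nil)), (nat_lit 47), (nat_lit 9), (nat_lit 28),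
 (nat_lit 1), (2, 17, 16), [1407, 729], 36⟩,
  mz,
  mz,
  ⟨⟨33, 32, -28, 2, -15, -46, 36, -12, -11⟩, (.cons (nat_lit 450) (nat_lit 1897) (nat_lit 1964) (nat_lit 1)
 (.cons (nat_lit 610) (nat_lit 1464) (nat_lit 758) (nat_lit 1) .nil)), (nat_lit 20), (nat_lit 11), (nat_lit
 25), (nat_lit 1), (34, 19, 41), [627, 1551], 47⟩]

/-- Moves. -/
noncomputable def t1_5 : List Mv := [
  mz,
  ⟨⟨3, 44, -20, -2, -15, -44, 36, 12, -25⟩, (.cons (nat_lit 1578) (nat_lit 1858) (nat_lit 1016) (nat_lit 1)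
 (.cons (nat_lit 189) (nat_lit 471) (nat_lit 983) (nat_lit 1) .nil)), (nat_lit 49), (nat_lit 6), (nat_lit 47),
 (nat_lit 1), (36, 19, 2), [2195, 554], 2⟩,
  mz,
  mz,
  ⟨⟨19, 36, -36, -20, -13, -30, 34, -8, -35⟩, (.cons (nat_lit 1567) (nat_lit 2024) (nat_lit 1800) (nat_lit 1)
 (.cons (nat_lit 749) (nat_lit 1193) (nat_lit 216) (nat_lit 1) .nil)), (nat_lit 28), (nat_lit 34), (nat_lit
 25), (nat_lit 1), (14, 26, 16), [1241, 1777], 48⟩,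
  ⟨⟨33, -32, -28, 2, 15, -46, 36, 12, -11⟩, (.cons (nat_lit 489) (nat_lit 113) (nat_lit 1696) (nat_lit 1)
 (.cons (nat_lit 667) (nat_lit 738) (nat_lit 1461) (nat_lit 1) .nil)), (nat_lit 13), (nat_lit 37), (nat_lit
 49), (nat_lit 1), (19, 22, 9), [1337, 416], 33⟩,
  ⟨⟨-37, -24, 0, 20, -37, 0, 2, -8, -43⟩, (.cons (nat_lit 1337) (nat_lit 285) (nat_lit 575) (nat_lit 1) (.cons
 (nat_lit 1242) (nat_lit 735) (nat_lit 952) (nat_lit 1) .nil)), (nat_lit 9), (nat_lit 11), (nat_lit 5),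
 (nat_lit 1), (12, 40, 4), [477, 1405], 17⟩,
  ⟨⟨33, 8, -53, -20, -27, -20, 30, -24, -13⟩, (.cons (nat_lit 1823) (nat_lit 1226) (nat_lit 2040) (nat_lit 1)
 (.cons (nat_lit 1484) (nat_lit 81) (nat_lit 949) (nat_lit 1) .nil)), (nat_lit 24), (nat_lit 10), (nat_lit 52),
 (nat_lit 1), (32, 21, 33), [76, 1425], 22⟩,
  ⟨⟨37, 24, -37, -20, 37, 20, -2, 8, -41⟩, (.cons (nat_lit 1375) (nat_lit 632) (nat_lit 731) (nat_lit 1) (.cons
 (nat_lit 1749) (nat_lit 532) (nat_lit 679) (nat_lit 1) .nil)), (nat_lit 20), (nat_lit 23), (nat_lit 50),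
 (nat_lit 1), (34, 13, 40), [576, 773], 42⟩,
  ⟨⟨47, 0, -20, 0, 43, 0, 18, 0, -47⟩, (.cons (nat_lit 2196) (nat_lit 830) (nat_lit 276) (nat_lit 1) (.cons
 (nat_lit 59) (nat_lit 15) (nat_lit 1244) (nat_lit 1) .nil)), (nat_lit 52), (nat_lit 43), (nat_lit 28),
 (nat_lit 1), (34, 0, 24), [1332, 111], 34⟩,
  ⟨⟨21, -20, 31, 38, 15, -34, 12, -36, -13⟩, (.cons (nat_lit 1051) (nat_lit 2009) (nat_lit 149) (nat_lit 1)
 (.cons (nat_lit 1841) (nat_lit 1697) (nat_lit 681) (nat_lit 1) .nil)), (nat_lit 28), (nat_lit 33), (nat_lit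
 16), (nat_lit 1), (8, 37, 23), [384, 40], 35⟩,
  mz,
  ⟨⟨-15, 44, 16, -20, -13, 50, -34, 8, -1⟩, (.cons (nat_lit 1159) (nat_lit 1180) (nat_lit 1657) (nat_lit 1)
 (.cons (nat_lit 1529) (nat_lit 1492) (nat_lit 1299) (nat_lit 1) .nil)), (nat_lit 36), (nat_lit 46), (nat_lit
 31), (nat_lit 1), (28, 23, 9), [2078, 676], 39⟩,
  ⟨⟨-3, -32, -37, 20, 27, -40, 30, -24, -17⟩, (.cons (nat_lit 2063) (nat_lit 428) (nat_lit 610) (nat_lit 1)
 (.cons (nat_lit 699) (nat_lit 253) (nat_lit 1352) (nat_lit 1) .nil)), (nat_lit 42), (nat_lit 24), (nat_lit 7),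
 (nat_lit 1), (27, 35, 31), [1059, 708], 41⟩,
  mz,
  mz,
  mz,
  ⟨⟨9, -4, -56, -40, 13, 10, 14, 32, -25⟩, (.cons (nat_lit 331) (nat_lit 1791) (nat_lit 1593) (nat_lit 1)
 (.cons (nat_lit 536) (nat_lit 1540) (nat_lit 1500) (nat_lit 1) .nil)), (nat_lit 44), (nat_lit 28), (nat_lit
 40), (nat_lit 1), (19, 35, 20), [2019, 1786], 1⟩,
  ⟨⟨-5, -36, 36, 40, -13, -30, -14, -32, -11⟩, (.cons (nat_lit 1510) (nat_lit 1984) (nat_lit 1886) (nat_lit 1)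
 (.cons (nat_lit 1809) (nat_lit 208) (nat_lit 807) (nat_lit 1) .nil)), (nat_lit 36), (nat_lit 48), (nat_lit 1),
 (nat_lit 1), (11, 41, 5), [2117, 1486], 39⟩,
  mz,
  mz,
  ⟨⟨-9, 16, -44, -38, 15, 34, 12, 36, -13⟩, (.cons (nat_lit 83) (nat_lit 733) (nat_lit 1763) (nat_lit 1) (.cons
 (nat_lit 1363) (nat_lit 775) (nat_lit 271) (nat_lit 1) .nil)), (nat_lit 8), (nat_lit 18), (nat_lit 12),
 (nat_lit 1), (1, 9, 13), [2096, 275], 13⟩,
  ⟨⟨-21, 20, 52, 38, 15, -4, -12, 36, -1⟩, (.cons (nat_lit 1107) (nat_lit 711) (nat_lit 978) (nat_lit 1) (.cons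
 (nat_lit 59) (nat_lit 1353) (nat_lit 1392) (nat_lit 1) .nil)), (nat_lit 16), (nat_lit 12), (nat_lit 49),
 (nat_lit 1), (12, 9, 13), [43, 814], 49⟩,
  mz,
  mz,
  ⟨⟨9, 4, -56, 40, 13, -10, 14, -32, -25⟩, (.cons (nat_lit 2090) (nat_lit 349) (nat_lit 1017) (nat_lit 1)
 (.cons (nat_lit 1461) (nat_lit 632) (nat_lit 1659) (nat_lit 1) .nil)), (nat_lit 21), (nat_lit 26), (nat_lit
 34), (nat_lit 1), (37, 2, 5), [233, 1356], 44⟩,
  ⟨⟨-9, -4, -47, 40, 13, -30, -14, 32, -11⟩, (.cons (nat_lit 1873) (nat_lit 1315) (nat_lit 1350) (nat_lit 1)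
 (.cons (nat_lit 517) (nat_lit 839) (nat_lit 1709) (nat_lit 1) .nil)), (nat_lit 21), (nat_lit 46), (nat_lit
 18), (nat_lit 1), (19, 35, 20), [1735, 359], 39⟩,
  mz,
  mz,
  mz,
  ⟨⟨-3, 32, 40, 20, -27, 20, 30, 24, -13⟩, (.cons (nat_lit 1456) (nat_lit 480) (nat_lit 1) (nat_lit 741) (.cons
 (nat_lit 486) (nat_lit 1635) (nat_lit 1805) (nat_lit 1) .nil)), (nat_lit 52), (nat_lit 2), (nat_lit 21),
 (nat_lit 1), (16, 8, 12), [2006, 315], 6⟩,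
  ⟨⟨15, 44, 1, 20, -13, 30, 34, 8, -35⟩, (.cons (nat_lit 1506) (nat_lit 1571) (nat_lit 1829) (nat_lit 1) (.cons
 (nat_lit 1515) (nat_lit 1556) (nat_lit 466) (nat_lit 1) .nil)), (nat_lit 16), (nat_lit 49), (nat_lit 43),
 (nat_lit 1), (28, 23, 9), [1494, 1227], 28⟩,
  mz,
  ⟨⟨-21, -20, 52, 38, -15, -4, -12, -36, -1⟩, (.cons (nat_lit 1945) (nat_lit 255) (nat_lit 1180) (nat_lit 1)
 (.cons (nat_lit 269) (nat_lit 445) (nat_lit 1731) (nat_lit 1) .nil)), (nat_lit 13), (nat_lit 28), (nat_lit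
 25), (nat_lit 1), (8, 6, 23), [418, 842], 20⟩,
  ⟨⟨-47, 0, 27, 0, -43, 0, -18, 0, -29⟩, (.cons (nat_lit 254) (nat_lit 1772) (nat_lit 1706) (nat_lit 1) (.cons
 (nat_lit 203) (nat_lit 1746) (nat_lit 787) (nat_lit 1) .nil)), (nat_lit 47), (nat_lit 17), (nat_lit 43),
 (nat_lit 1), (34, 0, 24), [540, 92], 50⟩,
  ⟨⟨-37, 24, 0, -20, -37, 0, 2, 8, -43⟩, (.cons (nat_lit 1566) (nat_lit 1878) (nat_lit 320) (nat_lit 1) (.cons
 (nat_lit 1602) (nat_lit 1529) (nat_lit 740) (nat_lit 1) .nil)), (nat_lit 6), (nat_lit 40), (nat_lit 23),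
 (nat_lit 1), (34, 30, 40), [935, 119], 29⟩,
  ⟨⟨-3, 32, -37, -20, 27, 40, 30, 24, -17⟩, (.cons (nat_lit 1075) (nat_lit 250) (nat_lit 1803) (nat_lit 1)
 (.cons (nat_lit 1353) (nat_lit 1819) (nat_lit 740) (nat_lit 1) .nil)), (nat_lit 42), (nat_lit 4), (nat_lit
 42), (nat_lit 1), (42, 22, 10), [1969, 1365], 41⟩,
  ⟨⟨-39, 16, -4, 20, 37, -20, -2, -8, -41⟩, (.cons (nat_lit 2196) (nat_lit 1283) (nat_lit 304) (nat_lit 1)
 (.cons (nat_lit 1716) (nat_lit 1629) (nat_lit 1047) (nat_lit 1) .nil)), (nat_lit 52), (nat_lit 42), (nat_lit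
 10), (nat_lit 1), (35, 3, 4), [479, 931], 23⟩,
  ⟨⟨3, -44, -20, -2, 15, -44, 36, -12, -25⟩, (.cons (nat_lit 2150) (nat_lit 1640) (nat_lit 1411) (nat_lit 1)
 (.cons (nat_lit 1151) (nat_lit 538) (nat_lit 1) (nat_lit 989) .nil)), (nat_lit 8), (nat_lit 22), (nat_lit 5),
 (nat_lit 1), (10, 22, 34), [783, 666], 13⟩,
  ⟨⟨-19, 36, -17, -20, 13, 50, -34, -8, -1⟩, (.cons (nat_lit 495) (nat_lit 1584) (nat_lit 1835) (nat_lit 1)
 (.cons (nat_lit 1482) (nat_lit 1408) (nat_lit 960) (nat_lit 1) .nil)), (nat_lit 48), (nat_lit 18), (nat_lit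
 37), (nat_lit 1), (14, 17, 16), [1072, 428], 21⟩,
  mz,
  mz,
  ⟨⟨33, 32, -28, 2, -15, -46, 36, -12, -11⟩, (.cons (nat_lit 450) (nat_lit 1897) (nat_lit 1964) (nat_lit 1)
 (.cons (nat_lit 610) (nat_lit 1464) (nat_lit 758) (nat_lit 1) .nil)), (nat_lit 20), (nat_lit 11), (nat_lit
 25), (nat_lit 1), (34, 19, 41), [627, 1551], 47⟩]

/-- Moves. -/
noncomputable def t4_2 : List Mv := [
  mz,
  mz,
  mz,
  mz,
  ⟨⟨51, 20, -47, 10, -47, -30, -2, 20, -47⟩, (.cons (nat_lit 1558) (nat_lit 1986) (nat_lit 1) (nat_lit 572)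
 (.cons (nat_lit 1385) (nat_lit 564) (nat_lit 1805) (nat_lit 1) .nil)), (nat_lit 15), (nat_lit 0), (nat_lit 0),
 (nat_lit 0), (24, 39, 24), [1420, 54], 0⟩,
  ⟨⟨51, -20, -47, 10, 47, -30, -2, -20, -47⟩, (.cons (nat_lit 227) (nat_lit 816) (nat_lit 641) (nat_lit 1)
 (.cons (nat_lit 775) (nat_lit 1195) (nat_lit 1015) (nat_lit 1) .nil)), (nat_lit 15), (nat_lit 0), (nat_lit 0),
 (nat_lit 0), (12, 46, 12), [1373, 445], 0⟩,
  ⟨⟨15, 56, -11, -28, 5, -36, 40, 8, -47⟩, (.cons (nat_lit 1985) (nat_lit 306) (nat_lit 1153) (nat_lit 1)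
 (.cons (nat_lit 870) (nat_lit 614) (nat_lit 1101) (nat_lit 1) .nil)), (nat_lit 28), (nat_lit 0), (nat_lit 0),
 (nat_lit 0), (1, 37, 38), [938, 784], 0⟩,
  mz,
  mz,
  ⟨⟨-33, -20, -32, -8, -45, 34, 24, -24, -49⟩, (.cons (nat_lit 1746) (nat_lit 276) (nat_lit 1247) (nat_lit 1)
 (.cons (nat_lit 1236) (nat_lit 914) (nat_lit 1563) (nat_lit 1) .nil)), (nat_lit 42), (nat_lit 0), (nat_lit 0),
 (nat_lit 0), (35, 39, 42), [1358, 1201], 0⟩,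
  ⟨⟨-15, -56, 4, 28, -5, -64, -40, -8, -7⟩, (.cons (nat_lit 215) (nat_lit 2029) (nat_lit 1990) (nat_lit 1)
 (.cons (nat_lit 184) (nat_lit 1168) (nat_lit 732) (nat_lit 1) .nil)), (nat_lit 28), (nat_lit 0), (nat_lit 0),
 (nat_lit 0), (10, 52, 9), [1632, 1627], 0⟩,
  ⟨⟨15, -32, 44, 50, 17, -30, 14, -44, -19⟩, (.cons (nat_lit 801) (nat_lit 375) (nat_lit 875) (nat_lit 1)
 (.cons (nat_lit 1055) (nat_lit 330) (nat_lit 1744) (nat_lit 1) .nil)), (nat_lit 41), (nat_lit 0), (nat_lit 0),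
 (nat_lit 0), (29, 26, 20), [660, 1011], 0⟩,
  ⟨⟨-51, 20, 4, 10, 47, 20, 2, 20, -49⟩, (.cons (nat_lit 2196) (nat_lit 2090) (nat_lit 1750) (nat_lit 1) (.cons
 (nat_lit 1848) (nat_lit 816) (nat_lit 1701) (nat_lit 1) .nil)), (nat_lit 12), (nat_lit 0), (nat_lit 0),
 (nat_lit 0), (48, 28, 48), [348, 1262], 0⟩,
  mz,
  mz,
  ⟨⟨-51, -20, 4, 10, -47, 20, 2, -20, -49⟩, (.cons (nat_lit 282) (nat_lit 734) (nat_lit 360) (nat_lit 1) (.cons
 (nat_lit 1266) (nat_lit 1281) (nat_lit 712) (nat_lit 1) .nil)), (nat_lit 12), (nat_lit 0), (nat_lit 0),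
 (nat_lit 0), (36, 21, 36), [1475, 875], 0⟩,
  ⟨⟨15, 52, 16, 10, 17, -60, 46, 4, -11⟩, (.cons (nat_lit 2103) (nat_lit 1629) (nat_lit 531) (nat_lit 1) (.cons
 (nat_lit 1833) (nat_lit 601) (nat_lit 519) (nat_lit 1) .nil)), (nat_lit 44), (nat_lit 0), (nat_lit 0),
 (nat_lit 0), (24, 16, 10), [736, 646], 0⟩,
  ⟨⟨31, -48, -4, 10, 17, 50, 46, 4, -35⟩, (.cons (nat_lit 1613) (nat_lit 1429) (nat_lit 55) (nat_lit 1) (.cons
 (nat_lit 1098) (nat_lit 808) (nat_lit 238) (nat_lit 1) .nil)), (nat_lit 43), (nat_lit 0), (nat_lit 0),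
 (nat_lit 0), (18, 40, 25), [217, 1398], 0⟩,
  ⟨⟨-57, -4, 40, -8, 45, -26, -24, -24, -25⟩, (.cons (nat_lit 1525) (nat_lit 1625) (nat_lit 1940) (nat_lit 1)
 (.cons (nat_lit 947) (nat_lit 321) (nat_lit 861) (nat_lit 1) .nil)), (nat_lit 9), (nat_lit 0), (nat_lit 0),
 (nat_lit 0), (12, 24, 19), [1083, 1702], 0⟩,
  mz,
  mz,
  ⟨⟨57, 4, -17, -8, 45, 34, 24, 24, -49⟩, (.cons (nat_lit 2196) (nat_lit 684) (nat_lit 1161) (nat_lit 1) (.cons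
 (nat_lit 1848) (nat_lit 941) (nat_lit 1509) (nat_lit 1) .nil)), (nat_lit 21), (nat_lit 0), (nat_lit 0),
 (nat_lit 0), (20, 13, 14), [696, 412], 0⟩,
  ⟨⟨45, 28, -49, -28, 45, 14, 0, 0, -53⟩, (.cons (nat_lit 1093) (nat_lit 645) (nat_lit 774) (nat_lit 1) (.cons
 (nat_lit 1678) (nat_lit 182) (nat_lit 776) (nat_lit 1) .nil)), (nat_lit 31), (nat_lit 0), (nat_lit 0),
 (nat_lit 0), (24, 31, 0), [2109, 362], 0⟩,
  mz,
  ⟨⟨-13, 48, -27, -30, 17, 60, 30, 36, -7⟩, (.cons (nat_lit 1673) (nat_lit 1603) (nat_lit 1708) (nat_lit 1)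
 (.cons (nat_lit 388) (nat_lit 958) (nat_lit 425) (nat_lit 1) .nil)), (nat_lit 52), (nat_lit 0), (nat_lit 0),
 (nat_lit 0), (11, 5, 48), [470, 954], 0⟩,
  mz,
  ⟨⟨-25, -48, -11, 28, 5, -64, -40, 8, -7⟩, (.cons (nat_lit 2047) (nat_lit 1646) (nat_lit 2072) (nat_lit 1)
 (.cons (nat_lit 870) (nat_lit 1407) (nat_lit 1608) (nat_lit 1) .nil)), (nat_lit 36), (nat_lit 0), (nat_lit 0),
 (nat_lit 0), (2, 2, 35), [320, 784], 0⟩,
  mz,
  ⟨⟨-1, -48, 37, 52, 5, -16, 8, -40, -31⟩, (.cons (nat_lit 2083) (nat_lit 1929) (nat_lit 1819) (nat_lit 1)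
 (.cons (nat_lit 916) (nat_lit 1521) (nat_lit 1038) (nat_lit 1) .nil)), (nat_lit 6), (nat_lit 0), (nat_lit 0),
 (nat_lit 0), (29, 29, 33), [1292, 1174], 0⟩,
  ⟨⟨-13, 48, 40, 30, -17, 30, 30, 36, -23⟩, (.cons (nat_lit 2196) (nat_lit 109) (nat_lit 1440) (nat_lit 1)
 (.cons (nat_lit 1848) (nat_lit 283) (nat_lit 1731) (nat_lit 1) .nil)), (nat_lit 29), (nat_lit 0), (nat_lit 0),
 (nat_lit 0), (42, 5, 5), [1106, 336], 0⟩,
  mz,
  ⟨⟨45, -28, -49, 28, 45, -14, 0, 0, -53⟩, (.cons (nat_lit 599) (nat_lit 317) (nat_lit 2138) (nat_lit 1) (.cons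
 (nat_lit 173) (nat_lit 1796) (nat_lit 729) (nat_lit 1) .nil)), (nat_lit 22), (nat_lit 0), (nat_lit 0),
 (nat_lit 0), (39, 49, 0), [796, 1007], 0⟩,
  mz,
  ⟨⟨-39, 28, -17, 10, -33, -50, 18, 36, -37⟩, (.cons (nat_lit 573) (nat_lit 918) (nat_lit 1163) (nat_lit 1)
 (.cons (nat_lit 745) (nat_lit 126) (nat_lit 1196) (nat_lit 1) .nil)), (nat_lit 50), (nat_lit 0), (nat_lit 0),
 (nat_lit 0), (43, 8, 25), [1256, 401], 0⟩,
  mz,
  mz,
  ⟨⟨1, -48, 36, 52, -5, -36, -8, -40, -23⟩, (.cons (nat_lit 10) (nat_lit 950) (nat_lit 21) (nat_lit 1) (.cons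
 (nat_lit 964) (nat_lit 1459) (nat_lit 190) (nat_lit 1) .nil)), (nat_lit 39), (nat_lit 0), (nat_lit 0),
 (nat_lit 0), (41, 12, 43), [63, 656], 0⟩,
  ⟨⟨-1, 48, 37, 52, -5, -16, 8, 40, -31⟩, (.cons (nat_lit 537) (nat_lit 1449) (nat_lit 455) (nat_lit 1) (.cons
 (nat_lit 547) (nat_lit 1543) (nat_lit 397) (nat_lit 1) .nil)), (nat_lit 6), (nat_lit 0), (nat_lit 0), (nat_lit
 0), (26, 26, 4), [550, 1584], 0⟩,
  ⟨⟨39, 28, -56, -10, -33, -40, -18, 36, -19⟩, (.cons (nat_lit 1089) (nat_lit 1292) (nat_lit 1907) (nat_lit 1)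
 (.cons (nat_lit 244) (nat_lit 728) (nat_lit 567) (nat_lit 1) .nil)), (nat_lit 50), (nat_lit 0), (nat_lit 0),
 (nat_lit 0), (34, 47, 21), [2149, 229], 0⟩,
  ⟨⟨25, 48, -36, -28, -5, -36, 40, -8, -47⟩, (.cons (nat_lit 1538) (nat_lit 2102) (nat_lit 657) (nat_lit 1)
 (.cons (nat_lit 1732) (nat_lit 595) (nat_lit 42) (nat_lit 1) .nil)), (nat_lit 36), (nat_lit 0), (nat_lit 0),
 (nat_lit 0), (34, 34, 12), [462, 1240], 0⟩,
  ⟨⟨1, 48, 36, 52, 5, -36, -8, 40, -23⟩, (.cons (nat_lit 1311) (nat_lit 1035) (nat_lit 1972) (nat_lit 1) (.cons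
 (nat_lit 463) (nat_lit 431) (nat_lit 505) (nat_lit 1) .nil)), (nat_lit 39), (nat_lit 0), (nat_lit 0), (nat_lit
 0), (38, 15, 14), [1005, 698], 0⟩,
  ⟨⟨31, 48, -4, -10, 17, -50, 46, -4, -35⟩, (.cons (nat_lit 96) (nat_lit 1349) (nat_lit 1683) (nat_lit 1)
 (.cons (nat_lit 1176) (nat_lit 210) (nat_lit 1446) (nat_lit 1) .nil)), (nat_lit 11), (nat_lit 0), (nat_lit 0),
 (nat_lit 0), (15, 2, 12), [1264, 822], 0⟩,
  ⟨⟨-57, 4, 40, -8, -45, -26, -24, 24, -25⟩, (.cons (nat_lit 1856) (nat_lit 1842) (nat_lit 1206) (nat_lit 1)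
 (.cons (nat_lit 555) (nat_lit 1205) (nat_lit 1565) (nat_lit 1) .nil)), (nat_lit 9), (nat_lit 0), (nat_lit 0),
 (nat_lit 0), (25, 50, 44), [223, 1199], 0⟩,
  ⟨⟨15, 32, 44, -50, 17, 30, 14, 44, -19⟩, (.cons (nat_lit 79) (nat_lit 1353) (nat_lit 49) (nat_lit 1) (.cons
 (nat_lit 746) (nat_lit 6) (nat_lit 1805) (nat_lit 1) .nil)), (nat_lit 17), (nat_lit 0), (nat_lit 0), (nat_lit
 0), (27, 16, 4), [945, 91], 0⟩,
  ⟨⟨-15, 32, 59, 50, 17, -20, -14, 44, -5⟩, (.cons (nat_lit 2007) (nat_lit 1403) (nat_lit 1784) (nat_lit 1)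
 (.cons (nat_lit 200) (nat_lit 221) (nat_lit 1162) (nat_lit 1) .nil)), (nat_lit 17), (nat_lit 0), (nat_lit 0),
 (nat_lit 0), (6, 33, 48), [1516, 1338], 0⟩,
  mz,
  ⟨⟨43, 12, 20, 30, 17, -60, 30, -36, -7⟩, (.cons (nat_lit 2196) (nat_lit 1151) (nat_lit 234) (nat_lit 1)
 (.cons (nat_lit 1848) (nat_lit 1265) (nat_lit 1537) (nat_lit 1) .nil)), (nat_lit 46), (nat_lit 0), (nat_lit
 0), (nat_lit 0), (23, 37, 37), [846, 1599], 0⟩,
  ⟨⟨-15, -32, 59, 50, -17, -20, -14, -44, -5⟩, (.cons (nat_lit 1024) (nat_lit 693) (nat_lit 1960) (nat_lit 1)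
 (.cons (nat_lit 317) (nat_lit 458) (nat_lit 146) (nat_lit 1) .nil)), (nat_lit 17), (nat_lit 0), (nat_lit 0),
 (nat_lit 0), (8, 44, 11), [394, 1160], 0⟩,
  ⟨⟨31, 48, -27, -10, 17, 60, 46, -4, -11⟩, (.cons (nat_lit 834) (nat_lit 1316) (nat_lit 450) (nat_lit 1)
 (.cons (nat_lit 680) (nat_lit 1367) (nat_lit 1197) (nat_lit 1) .nil)), (nat_lit 11), (nat_lit 0), (nat_lit 0),
 (nat_lit 0), (36, 26, 50), [4, 709], 0⟩,
  ⟨⟨-39, -28, -17, -10, -33, 50, 18, -36, -37⟩, (.cons (nat_lit 1279) (nat_lit 464) (nat_lit 1570) (nat_lit 1)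
 (.cons (nat_lit 857) (nat_lit 611) (nat_lit 583) (nat_lit 1) .nil)), (nat_lit 38), (nat_lit 0), (nat_lit 0),
 (nat_lit 0), (5, 4, 14), [1879, 1803], 0⟩,
  ⟨⟨39, -28, -56, 10, -33, 40, -18, -36, -19⟩, (.cons (nat_lit 1850) (nat_lit 136) (nat_lit 432) (nat_lit 1)
 (.cons (nat_lit 1508) (nat_lit 482) (nat_lit 1051) (nat_lit 1) .nil)), (nat_lit 38), (nat_lit 0), (nat_lit 0),
 (nat_lit 0), (49, 18, 10), [675, 900], 0⟩,
  mz,
  ⟨⟨43, 12, -63, -30, -17, -30, 30, -36, -23⟩, (.cons (nat_lit 1849) (nat_lit 2003) (nat_lit 1194) (nat_lit 1)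
 (.cons (nat_lit 1463) (nat_lit 1837) (nat_lit 1338) (nat_lit 1) .nil)), (nat_lit 24), (nat_lit 0), (nat_lit
 0), (nat_lit 0), (2, 6, 47), [996, 1540], 0⟩]

/-- Moves. -/
noncomputable def t4_4 : List Mv := [
  mz,
  mz,
  mz,
  mz,
  ⟨⟨51, 20, -47, -10, 47, 30, -2, 20, -47⟩, (.cons (nat_lit 786) (nat_lit 53) (nat_lit 1496) (nat_lit 1) (.cons
 (nat_lit 1377) (nat_lit 171) (nat_lit 1782) (nat_lit 1) .nil)), (nat_lit 12), (nat_lit 0), (nat_lit 0),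
 (nat_lit 0), (24, 14, 24), [1685, 230], 0⟩,
  ⟨⟨51, -20, -47, 10, 47, -30, -2, -20, -47⟩, (.cons (nat_lit 227) (nat_lit 816) (nat_lit 641) (nat_lit 1)
 (.cons (nat_lit 775) (nat_lit 1195) (nat_lit 1015) (nat_lit 1) .nil)), (nat_lit 15), (nat_lit 0), (nat_lit 0),
 (nat_lit 0), (12, 46, 12), [1373, 445], 0⟩,
  ⟨⟨25, -48, -36, 28, -5, 36, 40, 8, -47⟩, (.cons (nat_lit 106) (nat_lit 617) (nat_lit 798) (nat_lit 1) (.cons
 (nat_lit 534) (nat_lit 821) (nat_lit 352) (nat_lit 1) .nil)), (nat_lit 40), (nat_lit 0), (nat_lit 0), (nat_lit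
 0), (37, 16, 38), [405, 742], 0⟩,
  mz,
  mz,
  ⟨⟨57, -4, -17, 8, 45, -34, 24, -24, -49⟩, (.cons (nat_lit 2196) (nat_lit 79) (nat_lit 127) (nat_lit 1) (.cons
 (nat_lit 1848) (nat_lit 1095) (nat_lit 257) (nat_lit 1) .nil)), (nat_lit 9), (nat_lit 0), (nat_lit 0),
 (nat_lit 0), (7, 14, 42), [128, 1014], 0⟩,
  ⟨⟨-25, 48, -11, -28, 5, 64, -40, -8, -7⟩, (.cons (nat_lit 523) (nat_lit 1524) (nat_lit 1021) (nat_lit 1)
 (.cons (nat_lit 1647) (nat_lit 99) (nat_lit 530) (nat_lit 1) .nil)), (nat_lit 40), (nat_lit 0), (nat_lit 0),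
 (nat_lit 0), (52, 1, 9), [265, 1475], 0⟩,
  ⟨⟨15, -32, 44, 50, 17, -30, 14, -44, -19⟩, (.cons (nat_lit 801) (nat_lit 375) (nat_lit 875) (nat_lit 1)
 (.cons (nat_lit 1055) (nat_lit 330) (nat_lit 1744) (nat_lit 1) .nil)), (nat_lit 41), (nat_lit 0), (nat_lit 0),
 (nat_lit 0), (29, 26, 20), [660, 1011], 0⟩,
  ⟨⟨-51, 20, 4, -10, -47, -20, 2, 20, -49⟩, (.cons (nat_lit 1862) (nat_lit 2023) (nat_lit 1962) (nat_lit 1)
 (.cons (nat_lit 980) (nat_lit 91) (nat_lit 1162) (nat_lit 1) .nil)), (nat_lit 15), (nat_lit 0), (nat_lit 0),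
 (nat_lit 0), (48, 25, 48), [1107, 1688], 0⟩,
  mz,
  mz,
  ⟨⟨-51, -20, 4, 10, -47, 20, 2, -20, -49⟩, (.cons (nat_lit 282) (nat_lit 734) (nat_lit 360) (nat_lit 1) (.cons
 (nat_lit 1266) (nat_lit 1281) (nat_lit 712) (nat_lit 1) .nil)), (nat_lit 12), (nat_lit 0), (nat_lit 0),
 (nat_lit 0), (36, 21, 36), [1475, 875], 0⟩,
  ⟨⟨15, 52, 16, 10, 17, -60, 46, 4, -11⟩, (.cons (nat_lit 2103) (nat_lit 1629) (nat_lit 531) (nat_lit 1) (.cons
 (nat_lit 1833) (nat_lit 601) (nat_lit 519) (nat_lit 1) .nil)), (nat_lit 44), (nat_lit 0), (nat_lit 0),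
 (nat_lit 0), (24, 16, 10), [736, 646], 0⟩,
  ⟨⟨31, -48, -4, -10, -17, -50, 46, 4, -35⟩, (.cons (nat_lit 134) (nat_lit 1705) (nat_lit 1184) (nat_lit 1)
 (.cons (nat_lit 137) (nat_lit 464) (nat_lit 1469) (nat_lit 1) .nil)), (nat_lit 11), (nat_lit 0), (nat_lit 0),
 (nat_lit 0), (18, 13, 25), [54, 1828], 0⟩,
  ⟨⟨-57, -4, 40, -8, 45, -26, -24, -24, -25⟩, (.cons (nat_lit 1525) (nat_lit 1625) (nat_lit 1940) (nat_lit 1)
 (.cons (nat_lit 947) (nat_lit 321) (nat_lit 861) (nat_lit 1) .nil)), (nat_lit 9), (nat_lit 0), (nat_lit 0),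
 (nat_lit 0), (12, 24, 19), [1083, 1702], 0⟩,
  mz,
  mz,
  ⟨⟨-33, 20, -32, 8, -45, -34, 24, 24, -49⟩, (.cons (nat_lit 1594) (nat_lit 1939) (nat_lit 2088) (nat_lit 1)
 (.cons (nat_lit 1759) (nat_lit 128) (nat_lit 671) (nat_lit 1) .nil)), (nat_lit 18), (nat_lit 0), (nat_lit 0),
 (nat_lit 0), (47, 40, 14), [2101, 898], 0⟩,
  ⟨⟨45, 28, -49, -28, 45, 14, 0, 0, -53⟩, (.cons (nat_lit 1093) (nat_lit 645) (nat_lit 774) (nat_lit 1) (.cons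
 (nat_lit 1678) (nat_lit 182) (nat_lit 776) (nat_lit 1) .nil)), (nat_lit 31), (nat_lit 0), (nat_lit 0),
 (nat_lit 0), (24, 31, 0), [2109, 362], 0⟩,
  mz,
  ⟨⟨-13, 48, -27, -30, 17, 60, 30, 36, -7⟩, (.cons (nat_lit 1673) (nat_lit 1603) (nat_lit 1708) (nat_lit 1)
 (.cons (nat_lit 388) (nat_lit 958) (nat_lit 425) (nat_lit 1) .nil)), (nat_lit 52), (nat_lit 0), (nat_lit 0),
 (nat_lit 0), (11, 5, 48), [470, 954], 0⟩,
  mz,
  ⟨⟨-25, -48, -11, 28, 5, -64, -40, 8, -7⟩, (.cons (nat_lit 2047) (nat_lit 1646) (nat_lit 2072) (nat_lit 1)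
 (.cons (nat_lit 870) (nat_lit 1407) (nat_lit 1608) (nat_lit 1) .nil)), (nat_lit 36), (nat_lit 0), (nat_lit 0),
 (nat_lit 0), (2, 2, 35), [320, 784], 0⟩,
  mz,
  ⟨⟨-1, -48, 37, 52, 5, -16, 8, -40, -31⟩, (.cons (nat_lit 2083) (nat_lit 1929) (nat_lit 1819) (nat_lit 1)
 (.cons (nat_lit 916) (nat_lit 1521) (nat_lit 1038) (nat_lit 1) .nil)), (nat_lit 6), (nat_lit 0), (nat_lit 0),
 (nat_lit 0), (29, 29, 33), [1292, 1174], 0⟩,
  ⟨⟨-13, 48, 40, -30, 17, -30, 30, 36, -23⟩, (.cons (nat_lit 2147) (nat_lit 2022) (nat_lit 1606) (nat_lit 1)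
 (.cons (nat_lit 1649) (nat_lit 1393) (nat_lit 1044) (nat_lit 1) .nil)), (nat_lit 52), (nat_lit 0), (nat_lit
 0), (nat_lit 0), (42, 48, 5), [463, 1417], 0⟩,
  mz,
  ⟨⟨45, -28, -49, 28, 45, -14, 0, 0, -53⟩, (.cons (nat_lit 599) (nat_lit 317) (nat_lit 2138) (nat_lit 1) (.cons
 (nat_lit 173) (nat_lit 1796) (nat_lit 729) (nat_lit 1) .nil)), (nat_lit 22), (nat_lit 0), (nat_lit 0),
 (nat_lit 0), (39, 49, 0), [796, 1007], 0⟩,
  mz,
  ⟨⟨-39, 28, -17, 10, -33, -50, 18, 36, -37⟩, (.cons (nat_lit 573) (nat_lit 918) (nat_lit 1163) (nat_lit 1)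
 (.cons (nat_lit 745) (nat_lit 126) (nat_lit 1196) (nat_lit 1) .nil)), (nat_lit 50), (nat_lit 0), (nat_lit 0),
 (nat_lit 0), (43, 8, 25), [1256, 401], 0⟩,
  mz,
  mz,
  ⟨⟨-9, 8, -59, -52, 5, 36, -8, -40, -23⟩, (.cons (nat_lit 1948) (nat_lit 1212) (nat_lit 1830) (nat_lit 1)
 (.cons (nat_lit 916) (nat_lit 1790) (nat_lit 725) (nat_lit 1) .nil)), (nat_lit 26), (nat_lit 0), (nat_lit 0),
 (nat_lit 0), (2, 41, 43), [1410, 1174], 0⟩,
  ⟨⟨-1, 48, 37, -52, 5, 16, 8, 40, -31⟩, (.cons (nat_lit 58) (nat_lit 206) (nat_lit 1878) (nat_lit 1) (.cons (nat_lit 10) (nat_lit 1) (nat_lit 785) (nat_lit 1) .nil)), (nat_lit 39), (nat_lit 0), (nat_lit 0), (nat_lit 0), (26, 27, 4), [723, 397], 0⟩,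
  ⟨⟨-57, 8, 37, -10, -33, -40, -18, 36, -19⟩, (.cons (nat_lit 1984) (nat_lit 2164) (nat_lit 466) (nat_lit 1)
 (.cons (nat_lit 315) (nat_lit 1680) (nat_lit 1255) (nat_lit 1) .nil)), (nat_lit 49), (nat_lit 0), (nat_lit 0),
 (nat_lit 0), (40, 47, 21), [357, 831], 0⟩,
  ⟨⟨15, -56, -11, 28, 5, 36, 40, -8, -47⟩, (.cons (nat_lit 947) (nat_lit 451) (nat_lit 1104) (nat_lit 1) (.cons
 (nat_lit 185) (nat_lit 1664) (nat_lit 846) (nat_lit 1) .nil)), (nat_lit 37), (nat_lit 0), (nat_lit 0),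
 (nat_lit 0), (31, 19, 12), [1085, 873], 0⟩,
  ⟨⟨-9, -8, -59, 52, 5, -36, -8, 40, -23⟩, (.cons (nat_lit 1088) (nat_lit 623) (nat_lit 834) (nat_lit 1) (.cons
 (nat_lit 1730) (nat_lit 687) (nat_lit 204) (nat_lit 1) .nil)), (nat_lit 10), (nat_lit 0), (nat_lit 0),
 (nat_lit 0), (29, 15, 14), [106, 1171], 0⟩,
  ⟨⟨31, 48, -4, 10, -17, 50, 46, -4, -35⟩, (.cons (nat_lit 416) (nat_lit 684) (nat_lit 1388) (nat_lit 1) (.cons
 (nat_lit 1790) (nat_lit 474) (nat_lit 642) (nat_lit 1) .nil)), (nat_lit 43), (nat_lit 0), (nat_lit 0),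
 (nat_lit 0), (15, 51, 12), [193, 1074], 0⟩,
  ⟨⟨-57, 4, 40, -8, -45, -26, -24, 24, -25⟩, (.cons (nat_lit 1856) (nat_lit 1842) (nat_lit 1206) (nat_lit 1)
 (.cons (nat_lit 555) (nat_lit 1205) (nat_lit 1565) (nat_lit 1) .nil)), (nat_lit 9), (nat_lit 0), (nat_lit 0),
 (nat_lit 0), (25, 50, 44), [223, 1199], 0⟩,
  ⟨⟨15, 32, 44, 50, -17, -30, 14, 44, -19⟩, (.cons (nat_lit 1920) (nat_lit 526) (nat_lit 1) (nat_lit 1209)
 (.cons (nat_lit 94) (nat_lit 1669) (nat_lit 669) (nat_lit 1) .nil)), (nat_lit 41), (nat_lit 0), (nat_lit 0),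
 (nat_lit 0), (27, 37, 4), [917, 796], 0⟩,
  ⟨⟨-15, 32, 59, 50, 17, -20, -14, 44, -5⟩, (.cons (nat_lit 2007) (nat_lit 1403) (nat_lit 1784) (nat_lit 1)
 (.cons (nat_lit 200) (nat_lit 221) (nat_lit 1162) (nat_lit 1) .nil)), (nat_lit 17), (nat_lit 0), (nat_lit 0),
 (nat_lit 0), (6, 33, 48), [1516, 1338], 0⟩,
  mz,
  ⟨⟨-13, -48, -27, 30, 17, -60, 30, -36, -7⟩, (.cons (nat_lit 958) (nat_lit 1363) (nat_lit 848) (nat_lit 1)
 (.cons (nat_lit 904) (nat_lit 627) (nat_lit 1408) (nat_lit 1) .nil)), (nat_lit 29), (nat_lit 0), (nat_lit 0),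
 (nat_lit 0), (14, 37, 37), [522, 1384], 0⟩,
  ⟨⟨-15, -32, 59, -50, 17, 20, -14, -44, -5⟩, (.cons (nat_lit 1575) (nat_lit 2102) (nat_lit 767) (nat_lit 1)
 (.cons (nat_lit 622) (nat_lit 1276) (nat_lit 1739) (nat_lit 1) .nil)), (nat_lit 41), (nat_lit 0), (nat_lit 0),
 (nat_lit 0), (8, 9, 11), [1705, 237], 0⟩,
  ⟨⟨15, -52, 16, -10, 17, 60, 46, -4, -11⟩, (.cons (nat_lit 964) (nat_lit 242) (nat_lit 1) (nat_lit 1053)
 (.cons (nat_lit 997) (nat_lit 1557) (nat_lit 380) (nat_lit 1) .nil)), (nat_lit 47), (nat_lit 0), (nat_lit 0),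
 (nat_lit 0), (14, 26, 50), [2101, 1569], 0⟩,
  ⟨⟨57, -8, -20, 10, 33, -50, 18, -36, -37⟩, (.cons (nat_lit 2196) (nat_lit 1920) (nat_lit 1887) (nat_lit 1)
 (.cons (nat_lit 1848) (nat_lit 808) (nat_lit 1261) (nat_lit 1) .nil)), (nat_lit 49), (nat_lit 0), (nat_lit 0),
 (nat_lit 0), (9, 49, 14), [1176, 1072], 0⟩,
  ⟨⟨39, -28, -56, -10, 33, -40, -18, -36, -19⟩, (.cons (nat_lit 2196) (nat_lit 635) (nat_lit 242) (nat_lit 1)
 (.cons (nat_lit 1848) (nat_lit 396) (nat_lit 1706) (nat_lit 1) .nil)), (nat_lit 50), (nat_lit 0), (nat_lit 0),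
 (nat_lit 0), (49, 35, 10), [284, 1545], 0⟩,
  mz,
  ⟨⟨43, 12, -63, -30, -17, -30, 30, -36, -23⟩, (.cons (nat_lit 1849) (nat_lit 2003) (nat_lit 1194) (nat_lit 1)
 (.cons (nat_lit 1463) (nat_lit 1837) (nat_lit 1338) (nat_lit 1) .nil)), (nat_lit 24), (nat_lit 0), (nat_lit
 0), (nat_lit 0), (2, 6, 47), [996, 1540], 0⟩]

/-- Moves. -/
noncomputable def t4_5 : List Mv := [
  mz,
  mz,
  mz,
  mz,
  ⟨⟨51, 20, -47, 10, -47, -30, -2, 20, -47⟩, (.cons (nat_lit 1558) (nat_lit 1986) (nat_lit 1) (nat_lit 572)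
 (.cons (nat_lit 1385) (nat_lit 564) (nat_lit 1805) (nat_lit 1) .nil)), (nat_lit 15), (nat_lit 0), (nat_lit 0),
 (nat_lit 0), (24, 39, 24), [1420, 54], 0⟩,
  ⟨⟨51, -20, -47, 10, 47, -30, -2, -20, -47⟩, (.cons (nat_lit 227) (nat_lit 816) (nat_lit 641) (nat_lit 1)
 (.cons (nat_lit 775) (nat_lit 1195) (nat_lit 1015) (nat_lit 1) .nil)), (nat_lit 15), (nat_lit 0), (nat_lit 0),
 (nat_lit 0), (12, 46, 12), [1373, 445], 0⟩,
  ⟨⟨15, 56, -11, -28, 5, -36, 40, 8, -47⟩, (.cons (nat_lit 1985) (nat_lit 306) (nat_lit 1153) (nat_lit 1)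
 (.cons (nat_lit 870) (nat_lit 614) (nat_lit 1101) (nat_lit 1) .nil)), (nat_lit 28), (nat_lit 0), (nat_lit 0),
 (nat_lit 0), (1, 37, 38), [938, 784], 0⟩,
  mz,
  mz,
  ⟨⟨-33, -20, -32, -8, -45, 34, 24, -24, -49⟩, (.cons (nat_lit 1746) (nat_lit 276) (nat_lit 1247) (nat_lit 1)
 (.cons (nat_lit 1236) (nat_lit 914) (nat_lit 1563) (nat_lit 1) .nil)), (nat_lit 42), (nat_lit 0), (nat_lit 0),
 (nat_lit 0), (35, 39, 42), [1358, 1201], 0⟩,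
  ⟨⟨-25, 48, -11, 28, -5, -64, -40, -8, -7⟩, (.cons (nat_lit 264) (nat_lit 936) (nat_lit 557) (nat_lit 1)
 (.cons (nat_lit 1837) (nat_lit 294) (nat_lit 1076) (nat_lit 1) .nil)), (nat_lit 36), (nat_lit 0), (nat_lit 0),
 (nat_lit 0), (52, 52, 9), [823, 1713], 0⟩,
  ⟨⟨-1, -12, -63, -50, -17, 30, 14, -44, -19⟩, (.cons (nat_lit 1736) (nat_lit 304) (nat_lit 932) (nat_lit 1)
 (.cons (nat_lit 1607) (nat_lit 1692) (nat_lit 1230) (nat_lit 1) .nil)), (nat_lit 48), (nat_lit 0), (nat_lit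
 0), (nat_lit 0), (44, 27, 20), [155, 1117], 0⟩,
  ⟨⟨-51, 20, 4, -10, -47, -20, 2, 20, -49⟩, (.cons (nat_lit 1862) (nat_lit 2023) (nat_lit 1962) (nat_lit 1)
 (.cons (nat_lit 980) (nat_lit 91) (nat_lit 1162) (nat_lit 1) .nil)), (nat_lit 15), (nat_lit 0), (nat_lit 0),
 (nat_lit 0), (48, 25, 48), [1107, 1688], 0⟩,
  mz,
  mz,
  ⟨⟨53, 0, -53, -10, 47, -20, 2, -20, -49⟩, (.cons (nat_lit 271) (nat_lit 761) (nat_lit 2049) (nat_lit 1)
 (.cons (nat_lit 1076) (nat_lit 1084) (nat_lit 619) (nat_lit 1) .nil)), (nat_lit 5), (nat_lit 0), (nat_lit 0),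
 (nat_lit 0), (0, 32, 36), [981, 1262], 0⟩,
  ⟨⟨15, 52, 16, -10, -17, 60, 46, 4, -11⟩, (.cons (nat_lit 833) (nat_lit 1296) (nat_lit 1980) (nat_lit 1)
 (.cons (nat_lit 144) (nat_lit 865) (nat_lit 1736) (nat_lit 1) .nil)), (nat_lit 47), (nat_lit 0), (nat_lit 0),
 (nat_lit 0), (24, 37, 10), [1057, 1672], 0⟩,
  ⟨⟨15, 52, -31, 10, 17, 50, 46, 4, -35⟩, (.cons (nat_lit 1191) (nat_lit 944) (nat_lit 1952) (nat_lit 1) (.cons
 (nat_lit 1396) (nat_lit 267) (nat_lit 1270) (nat_lit 1) .nil)), (nat_lit 44), (nat_lit 0), (nat_lit 0),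
 (nat_lit 0), (7, 40, 25), [187, 538], 0⟩,
  ⟨⟨33, -20, -65, 8, -45, 26, -24, -24, -25⟩, (.cons (nat_lit 987) (nat_lit 1551) (nat_lit 1) (nat_lit 2119)
 (.cons (nat_lit 1688) (nat_lit 785) (nat_lit 1232) (nat_lit 1) .nil)), (nat_lit 42), (nat_lit 0), (nat_lit 0),
 (nat_lit 0), (7, 29, 19), [854, 1330], 0⟩,
  mz,
  mz,
  ⟨⟨57, 4, -17, -8, 45, 34, 24, 24, -49⟩, (.cons (nat_lit 2196) (nat_lit 684) (nat_lit 1161) (nat_lit 1) (.cons
 (nat_lit 1848) (nat_lit 941) (nat_lit 1509) (nat_lit 1) .nil)), (nat_lit 21), (nat_lit 0), (nat_lit 0),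
 (nat_lit 0), (20, 13, 14), [696, 412], 0⟩,
  ⟨⟨45, 28, -49, 28, -45, -14, 0, 0, -53⟩, (.cons (nat_lit 2196) (nat_lit 1037) (nat_lit 1782) (nat_lit 1)
 (.cons (nat_lit 1848) (nat_lit 1397) (nat_lit 443) (nat_lit 1) .nil)), (nat_lit 22), (nat_lit 0), (nat_lit 0),
 (nat_lit 0), (24, 22, 0), [1705, 1044], 0⟩,
  mz,
  ⟨⟨-13, 48, -27, 30, -17, -60, 30, 36, -7⟩, (.cons (nat_lit 271) (nat_lit 1647) (nat_lit 738) (nat_lit 1)
 (.cons (nat_lit 1267) (nat_lit 211) (nat_lit 491) (nat_lit 1) .nil)), (nat_lit 29), (nat_lit 0), (nat_lit 0),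
 (nat_lit 0), (11, 48, 48), [1340, 585], 0⟩,
  mz,
  ⟨⟨-25, -48, -11, 28, 5, -64, -40, 8, -7⟩, (.cons (nat_lit 2047) (nat_lit 1646) (nat_lit 2072) (nat_lit 1)
 (.cons (nat_lit 870) (nat_lit 1407) (nat_lit 1608) (nat_lit 1) .nil)), (nat_lit 36), (nat_lit 0), (nat_lit 0),
 (nat_lit 0), (2, 2, 35), [320, 784], 0⟩,
  mz,
  ⟨⟨9, 8, -68, -52, -5, 16, 8, -40, -31⟩, (.cons (nat_lit 327) (nat_lit 11) (nat_lit 1779) (nat_lit 1) (.cons
 (nat_lit 1437) (nat_lit 476) (nat_lit 197) (nat_lit 1) .nil)), (nat_lit 10), (nat_lit 0), (nat_lit 0),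
 (nat_lit 0), (4, 24, 33), [418, 1301], 0⟩,
  ⟨⟨43, -12, -63, -30, 17, -30, 30, 36, -23⟩, (.cons (nat_lit 227) (nat_lit 1818) (nat_lit 1643) (nat_lit 1)
 (.cons (nat_lit 1490) (nat_lit 1789) (nat_lit 614) (nat_lit 1) .nil)), (nat_lit 24), (nat_lit 0), (nat_lit 0),
 (nat_lit 0), (16, 48, 5), [653, 1288], 0⟩,
  mz,
  ⟨⟨45, -28, -49, 28, 45, -14, 0, 0, -53⟩, (.cons (nat_lit 599) (nat_lit 317) (nat_lit 2138) (nat_lit 1) (.cons
 (nat_lit 173) (nat_lit 1796) (nat_lit 729) (nat_lit 1) .nil)), (nat_lit 22), (nat_lit 0), (nat_lit 0),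
 (nat_lit 0), (39, 49, 0), [796, 1007], 0⟩,
  mz,
  ⟨⟨-39, 28, -17, 10, -33, -50, 18, 36, -37⟩, (.cons (nat_lit 573) (nat_lit 918) (nat_lit 1163) (nat_lit 1)
 (.cons (nat_lit 745) (nat_lit 126) (nat_lit 1196) (nat_lit 1) .nil)), (nat_lit 50), (nat_lit 0), (nat_lit 0),
 (nat_lit 0), (43, 8, 25), [1256, 401], 0⟩,
  mz,
  mz,
  ⟨⟨-9, 8, -59, 52, -5, -36, -8, -40, -23⟩, (.cons (nat_lit 491) (nat_lit 1794) (nat_lit 1138) (nat_lit 1)
 (.cons (nat_lit 154) (nat_lit 949) (nat_lit 706) (nat_lit 1) .nil)), (nat_lit 10), (nat_lit 0), (nat_lit 0),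
 (nat_lit 0), (2, 12, 43), [790, 1129], 0⟩,
  ⟨⟨-1, 48, 37, 52, -5, -16, 8, 40, -31⟩, (.cons (nat_lit 537) (nat_lit 1449) (nat_lit 455) (nat_lit 1) (.cons
 (nat_lit 547) (nat_lit 1543) (nat_lit 397) (nat_lit 1) .nil)), (nat_lit 6), (nat_lit 0), (nat_lit 0), (nat_lit
 0), (26, 26, 4), [550, 1584], 0⟩,
  ⟨⟨-57, 8, 37, -10, -33, -40, -18, 36, -19⟩, (.cons (nat_lit 1984) (nat_lit 2164) (nat_lit 466) (nat_lit 1)
 (.cons (nat_lit 315) (nat_lit 1680) (nat_lit 1255) (nat_lit 1) .nil)), (nat_lit 49), (nat_lit 0), (nat_lit 0),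
 (nat_lit 0), (40, 47, 21), [357, 831], 0⟩,
  ⟨⟨25, 48, -36, 28, 5, 36, 40, -8, -47⟩, (.cons (nat_lit 305) (nat_lit 693) (nat_lit 518) (nat_lit 1) (.cons
 (nat_lit 1234) (nat_lit 658) (nat_lit 1792) (nat_lit 1) .nil)), (nat_lit 40), (nat_lit 0), (nat_lit 0),
 (nat_lit 0), (34, 19, 12), [1184, 830], 0⟩,
  ⟨⟨-9, -8, -59, 52, 5, -36, -8, 40, -23⟩, (.cons (nat_lit 1088) (nat_lit 623) (nat_lit 834) (nat_lit 1) (.cons
 (nat_lit 1730) (nat_lit 687) (nat_lit 204) (nat_lit 1) .nil)), (nat_lit 10), (nat_lit 0), (nat_lit 0),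
 (nat_lit 0), (29, 15, 14), [106, 1171], 0⟩,
  ⟨⟨31, 48, -4, 10, -17, 50, 46, -4, -35⟩, (.cons (nat_lit 416) (nat_lit 684) (nat_lit 1388) (nat_lit 1) (.cons
 (nat_lit 1790) (nat_lit 474) (nat_lit 642) (nat_lit 1) .nil)), (nat_lit 43), (nat_lit 0), (nat_lit 0),
 (nat_lit 0), (15, 51, 12), [193, 1074], 0⟩,
  ⟨⟨33, 20, -65, -8, -45, -26, -24, 24, -25⟩, (.cons (nat_lit 247) (nat_lit 940) (nat_lit 1665) (nat_lit 1)
 (.cons (nat_lit 735) (nat_lit 1762) (nat_lit 490) (nat_lit 1) .nil)), (nat_lit 18), (nat_lit 0), (nat_lit 0),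
 (nat_lit 0), (19, 50, 44), [1738, 38], 0⟩,
  ⟨⟨15, 32, 44, 50, -17, -30, 14, 44, -19⟩, (.cons (nat_lit 1920) (nat_lit 526) (nat_lit 1) (nat_lit 1209)
 (.cons (nat_lit 94) (nat_lit 1669) (nat_lit 669) (nat_lit 1) .nil)), (nat_lit 41), (nat_lit 0), (nat_lit 0),
 (nat_lit 0), (27, 37, 4), [917, 796], 0⟩,
  ⟨⟨1, 12, -64, -50, -17, 20, -14, 44, -5⟩, (.cons (nat_lit 1005) (nat_lit 1817) (nat_lit 216) (nat_lit 1)
 (.cons (nat_lit 1040) (nat_lit 1771) (nat_lit 148) (nat_lit 1) .nil)), (nat_lit 16), (nat_lit 0), (nat_lit 0),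
 (nat_lit 0), (42, 20, 48), [717, 1312], 0⟩,
  mz,
  ⟨⟨43, 12, 20, 30, 17, -60, 30, -36, -7⟩, (.cons (nat_lit 2196) (nat_lit 1151) (nat_lit 234) (nat_lit 1)
 (.cons (nat_lit 1848) (nat_lit 1265) (nat_lit 1537) (nat_lit 1) .nil)), (nat_lit 46), (nat_lit 0), (nat_lit
 0), (nat_lit 0), (23, 37, 37), [846, 1599], 0⟩,
  ⟨⟨1, -12, -64, -50, 17, 20, -14, -44, -5⟩, (.cons (nat_lit 1535) (nat_lit 1122) (nat_lit 1348) (nat_lit 1)
 (.cons (nat_lit 1528) (nat_lit 315) (nat_lit 707) (nat_lit 1) .nil)), (nat_lit 16), (nat_lit 0), (nat_lit 0),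
 (nat_lit 0), (3, 9, 11), [360, 1570], 0⟩,
  ⟨⟨15, -52, 16, 10, -17, -60, 46, -4, -11⟩, (.cons (nat_lit 1672) (nat_lit 859) (nat_lit 603) (nat_lit 1)
 (.cons (nat_lit 1485) (nat_lit 1170) (nat_lit 235) (nat_lit 1) .nil)), (nat_lit 44), (nat_lit 0), (nat_lit 0),
 (nat_lit 0), (14, 27, 50), [1667, 666], 0⟩,
  ⟨⟨-39, -28, -17, -10, -33, 50, 18, -36, -37⟩, (.cons (nat_lit 1279) (nat_lit 464) (nat_lit 1570) (nat_lit 1)
 (.cons (nat_lit 857) (nat_lit 611) (nat_lit 583) (nat_lit 1) .nil)), (nat_lit 38), (nat_lit 0), (nat_lit 0),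
 (nat_lit 0), (5, 4, 14), [1879, 1803], 0⟩,
  ⟨⟨39, -28, -56, -10, 33, -40, -18, -36, -19⟩, (.cons (nat_lit 2196) (nat_lit 635) (nat_lit 242) (nat_lit 1)
 (.cons (nat_lit 1848) (nat_lit 396) (nat_lit 1706) (nat_lit 1) .nil)), (nat_lit 50), (nat_lit 0), (nat_lit 0),
 (nat_lit 0), (49, 35, 10), [284, 1545], 0⟩,
  mz,
  ⟨⟨43, 12, -63, -30, -17, -30, 30, -36, -23⟩, (.cons (nat_lit 1849) (nat_lit 2003) (nat_lit 1194) (nat_lit 1)
 (.cons (nat_lit 1463) (nat_lit 1837) (nat_lit 1338) (nat_lit 1) .nil)), (nat_lit 24), (nat_lit 0), (nat_lit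
 0), (nat_lit 0), (2, 6, 47), [996, 1540], 0⟩]

/-- All the moves. -/
noncomputable def tabs : List (List (List Mv)) := [[[], [], t0_2, [], t0_4, t0_5], [[], [], t1_2, [], t1_4, t1_5], [], [], [[], [], t4_2, [], t4_4, t4_5]]

/-- Subtrie. -/
noncomputable def T2 : Tr := (.ev (nat_lit 20) (nat_lit 143084755355696) (.nd (nat_lit 33) (.br (nat_lit 22)
 (.br (nat_lit 9) (.br (nat_lit 6) (.br (nat_lit 4) (.ch (nat_lit 1) (.ev (nat_lit 52) (nat_lit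
 572296626639360) (.ev (nat_lit 148) (nat_lit 274877906944) (.ev (nat_lit 212) (nat_lit 70368744177664) (.ev
 (nat_lit 244) (nat_lit 4398046511104) (.ev (nat_lit 276) (nat_lit 32768) (.ev (nat_lit 340) (nat_lit
 68719476736) (.ev (nat_lit 404) (nat_lit 4194304) (.ev (nat_lit 468) (nat_lit 64) (.nd (nat_lit 1296) (.br
 (nat_lit 9) (.br (nat_lit 6) (.ch (nat_lit 1) (.ev (nat_lit 1312) (nat_lit 1408474395181056) (.ev (nat_lit
 2020) (nat_lit 4503599627370496) (.ev (nat_lit 2544) (nat_lit 1024) (.ev (nat_lit 2557) (nat_lit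
 17592186044416) .dd))))) (.ch (nat_lit 6) (.ev (nat_lit 1312) (nat_lit 1126999418471424) (.ev (nat_lit 2448)
 (nat_lit 4503599627370496) (.ev (nat_lit 2788) (nat_lit 281474976710656) (.ev (nat_lit 2797) (nat_lit
 17592186044416) .dd)))))) (.br (nat_lit 10) (.ch (nat_lit 9) (.ev (nat_lit 1312) (nat_lit 4786174115709952)
 (.fin (nat_lit 576477794730984001)))) (.br (nat_lit 12) (.ch (nat_lit 10) (.ev (nat_lit 1312) (nat_lit
 1143492092888064) (.ev (nat_lit 2160) (nat_lit 4503599627370496) (.fin (nat_lit 576474496213926468))))) (.ch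
 (nat_lit 12) (.ev (nat_lit 1312) (nat_lit 1424967069598720) (.ev (nat_lit 2576) (nat_lit 4503599627370496)
 (.ev (nat_lit 2589) (nat_lit 1099511627776) .dd))))))))))))))))) (.br (nat_lit 5) (.ch (nat_lit 4) (.ev
 (nat_lit 52) (nat_lit 4879152123483136) (.ev (nat_lit 448) (nat_lit 1697921104052800) .dd))) (.ch (nat_lit 5)
 (.ev (nat_lit 52) (nat_lit 1413697631387648) (.ev (nat_lit 84) (nat_lit 4096) (.ev (nat_lit 468) (nat_lit
 268435456) (.ev (nat_lit 544) (nat_lit 5163375327708736) .dd))))))) (.br (nat_lit 7) (.ch (nat_lit 6) (.ev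
 (nat_lit 52) (nat_lit 647681087275520) (.ev (nat_lit 148) (nat_lit 4503599627370496) (.ev (nat_lit 244)
 (nat_lit 274877906944) (.ev (nat_lit 480) (nat_lit 1425517634982976) .dd))))) (.br (nat_lit 8) (.ch (nat_lit
 7) (.ev (nat_lit 52) (nat_lit 84456505573440) (.ev (nat_lit 224) (nat_lit 6492616721962496) .dd))) (.ch
 (nat_lit 8) (.ev (nat_lit 52) (nat_lit 4807340522045952) (.ev (nat_lit 84) (nat_lit 68719476736) (.ev (nat_lit
 564) (nat_lit 16777216) (.ev (nat_lit 596) (nat_lit 562949953421312) (.ev (nat_lit 788) (nat_lit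
 1125899906842624) (.nd (nat_lit 1296) (.br (nat_lit 5) (.br (nat_lit 2) (.ch (nat_lit 1) (.ev (nat_lit 1312)
 (nat_lit 8796097217600) (.ev (nat_lit 2096) (nat_lit 4096) (.ev (nat_lit 2516) (nat_lit 1099511627776) (.ev
 (nat_lit 2608) (nat_lit 549755813888) (.ev (nat_lit 2720) (nat_lit 70368744177664) (.ev (nat_lit 2733)
 (nat_lit 131072) .dd))))))) (.br (nat_lit 4) (.ch (nat_lit 2) (.ev (nat_lit 1312) (nat_lit 80814108840000)
 (.fin (nat_lit 576466799625191986)))) (.ch (nat_lit 4) (.ev (nat_lit 1312) (nat_lit 80814108966976) (.ev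
 (nat_lit 1572) (nat_lit 4096) (.ev (nat_lit 1581) (nat_lit 1024) .dd)))))) (.br (nat_lit 10) (.br (nat_lit 9)
 (.ch (nat_lit 5) (.ev (nat_lit 1312) (nat_lit 79714593148928) (.ev (nat_lit 2230) (nat_lit 4195392) (.ev
 (nat_lit 2237) (nat_lit 1099511627776) .dd)))) (.ch (nat_lit 9) (.ev (nat_lit 1312) (nat_lit 72018011755584)
 (.ev (nat_lit 1472) (nat_lit 8796093022208) (.ev (nat_lit 1485) (nat_lit 4194304) .dd))))) (.br (nat_lit 12)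
 (.ch (nat_lit 10) (.ev (nat_lit 1312) (nat_lit 79714593145920) (.ev (nat_lit 2416) (nat_lit 4198400) (.ev
 (nat_lit 2429) (nat_lit 1099511627776) .dd)))) (.ch (nat_lit 12) (.ev (nat_lit 1312) (nat_lit 8796097348672)
 (.ev (nat_lit 1572) (nat_lit 70918499991552) (.ev (nat_lit 1968) (nat_lit 1099511627776) (.ev (nat_lit 1981)
 (nat_lit 4096) .dd)))))))))))))))))) (.br (nat_lit 13) (.br (nat_lit 10) (.ch (nat_lit 9) (.ev (nat_lit 52)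
 (nat_lit 1435206540263424) (.ev (nat_lit 84) (nat_lit 4398046511104) (.ev (nat_lit 148) (nat_lit 16777216)
 (.ev (nat_lit 180) (nat_lit 562949953421312) (.ev (nat_lit 628) (nat_lit 4194304) (.ev (nat_lit 692) (nat_lit
 32768) (.ev (nat_lit 756) (nat_lit 512) (.ev (nat_lit 1072) (nat_lit 4503599627370496) (.nd (nat_lit 1296)
 (.br (nat_lit 6) (.br (nat_lit 1) (.ch (nat_lit 0) (.ev (nat_lit 1312) (nat_lit 70918499995712) (.ev (nat_lit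
 2672) (nat_lit 1024) (.ev (nat_lit 2788) (nat_lit 2097152) (.ev (nat_lit 2797) (nat_lit 536870912) .dd)))))
 (.ch (nat_lit 1) (.ev (nat_lit 1312) (nat_lit 550292684800) (.ev (nat_lit 1332) (nat_lit 64) (.ev (nat_lit
 1732) (nat_lit 1024) (.ev (nat_lit 1808) (nat_lit 4096) (.ev (nat_lit 2384) (nat_lit 70368744177664) (.ev
 (nat_lit 2397) (nat_lit 2097152) .dd)))))))) (.br (nat_lit 9) (.ch (nat_lit 6) (.ev (nat_lit 1312) (nat_lit
 70919036867584) (.ev (nat_lit 1924) (nat_lit 2097152) (.ev (nat_lit 1933) (nat_lit 64) .dd)))) (.br (nat_lit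
 10) (.ch (nat_lit 9) (.ev (nat_lit 1312) (nat_lit 70369281053696) (.ev (nat_lit 2432) (nat_lit 2097152) (.ev
 (nat_lit 2736) (nat_lit 549755813888) (.ev (nat_lit 2749) (nat_lit 64) .dd))))) (.ch (nat_lit 10) (.ev
 (nat_lit 1312) (nat_lit 70369281049664) (.ev (nat_lit 2516) (nat_lit 4096) (.nd (nat_lit 2864) (.br (nat_lit
 6) (.ch (nat_lit 2) (.fin (nat_lit 576465700104127060))) (.ch (nat_lit 6) (.ev (nat_lit 2880) (nat_lit
 549757911040) .dd)))))))))))))))))))) (.br (nat_lit 12) (.ch (nat_lit 10) (.ev (nat_lit 52) (nat_lit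
 5358745070633024) (.ev (nat_lit 416) (nat_lit 1218328156902912) .dd))) (.ch (nat_lit 12) (.ev (nat_lit 52)
 (nat_lit 4592111135527488) (.ev (nat_lit 116) (nat_lit 65536) (.ev (nat_lit 212) (nat_lit 4194304) (.ev
 (nat_lit 340) (nat_lit 1125899906842624) (.ev (nat_lit 468) (nat_lit 274877906944) (.ev (nat_lit 564) (nat_lit
 131072) (.ev (nat_lit 736) (nat_lit 858787302867968) .dd)))))))))) (.br (nat_lit 18) (.br (nat_lit 17) (.ch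
 (nat_lit 13) (.ev (nat_lit 52) (nat_lit 5068198850561536) (.ev (nat_lit 244) (nat_lit 16777216) (.ev (nat_lit
 340) (nat_lit 8796093022208) (.ev (nat_lit 500) (nat_lit 4160) (.ev (nat_lit 564) (nat_lit 4398046511104) (.nd
 (nat_lit 1296) (.br (nat_lit 2) (.br (nat_lit 1) (.ch (nat_lit 0) (.ev (nat_lit 1312) (nat_lit
 1425242484375552) (.ev (nat_lit 2064) (nat_lit 4194304) (.ev (nat_lit 2352) (nat_lit 70368744177664) (.ev
 (nat_lit 2516) (nat_lit 68719476736) (.ev (nat_lit 2525) (nat_lit 268435456) .dd)))))) (.ch (nat_lit 1) (.ev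
 (nat_lit 1312) (nat_lit 1495680220659712) .dd))) (.br (nat_lit 5) (.ch (nat_lit 2) (.ev (nat_lit 1312)
 (nat_lit 369780313817088) (.ev (nat_lit 1325) (nat_lit 1125899906842624) .dd))) (.br (nat_lit 9) (.ch (nat_lit
 5) (.ev (nat_lit 1312) (nat_lit 369504899039232) (.ev (nat_lit 2516) (nat_lit 536870912) (.ev (nat_lit 2560)
 (nat_lit 1125899906842624) (.ev (nat_lit 2573) (nat_lit 274877906944) .dd))))) (.ch (nat_lit 9) (.ev (nat_lit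
 1312) (nat_lit 70713151062016) (.ev (nat_lit 1536) (nat_lit 281474976710656) (.fin (nat_lit
 576477794730984001))))))))))))))) (.ch (nat_lit 17) (.ev (nat_lit 52) (nat_lit 6272507952824896) (.ev (nat_lit
 148) (nat_lit 536870912) (.ev (nat_lit 244) (nat_lit 4096) (.ev (nat_lit 436) (nat_lit 4398046511104) (.ev
 (nat_lit 916) (nat_lit 32768) (.nd (nat_lit 1296) (.br (nat_lit 5) (.br (nat_lit 4) (.ch (nat_lit 2) (.ev
 (nat_lit 1312) (nat_lit 299067179532288) (.ev (nat_lit 2788) (nat_lit 1099511627776) (.fin (nat_lit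
 576466799625191986))))) (.ch (nat_lit 4) (.ev (nat_lit 1312) (nat_lit 17592202953728) (.ev (nat_lit 1988)
 (nat_lit 281474976710656) (.ev (nat_lit 1997) (nat_lit 1099511627776) .dd))))) (.br (nat_lit 10) (.ch (nat_lit
 5) (.ev (nat_lit 1312) (nat_lit 299067162887168) (.ev (nat_lit 1808) (nat_lit 16777216) (.ev (nat_lit 1821)
 (nat_lit 1099511627776) .dd)))) (.br (nat_lit 12) (.ch (nat_lit 10) (.ev (nat_lit 1312) (nat_lit
 17592186176512) (.ev (nat_lit 2516) (nat_lit 16777216) (.fin (nat_lit 576474496213926468))))) (.ch (nat_lit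
 12) (.ev (nat_lit 1312) (nat_lit 281474993619968) (.ev (nat_lit 2560) (nat_lit 17592186044416) (.ev (nat_lit
 2573) (nat_lit 1099511627776) .dd))))))))))))))) (.br (nat_lit 21) (.ch (nat_lit 18) (.ev (nat_lit 52)
 (nat_lit 6286182860325888) (.ev (nat_lit 84) (nat_lit 16777216) (.ev (nat_lit 148) (nat_lit 512) (.ev (nat_lit
 212) (nat_lit 281474976710656) (.ev (nat_lit 468) (nat_lit 8796093022208) (.ev (nat_lit 628) (nat_lit 65536)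
 (.ev (nat_lit 884) (nat_lit 32768) (.nd (nat_lit 1296) (.br (nat_lit 5) (.br (nat_lit 4) (.ch (nat_lit 2) (.ev
 (nat_lit 1312) (nat_lit 550561120256) (.ev (nat_lit 2160) (nat_lit 4096) (.ev (nat_lit 2656) (nat_lit
 68719476736) (.ev (nat_lit 2669) (nat_lit 64) .dd))))) (.ch (nat_lit 4) (.ev (nat_lit 1312) (nat_lit
 68719476800) (.ev (nat_lit 1956) (nat_lit 268435456) (.ev (nat_lit 1988) (nat_lit 4096) (.ev (nat_lit 2432)
 (nat_lit 549755813888) (.ev (nat_lit 2445) (nat_lit 536870912) .dd))))))) (.br (nat_lit 6) (.ch (nat_lit 5)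
 (.ev (nat_lit 1312) (nat_lit 619012165696) (.ev (nat_lit 1325) (nat_lit 268435456) .dd))) (.br (nat_lit 12)
 (.ch (nat_lit 6) (.ev (nat_lit 1312) (nat_lit 619012161536) (.ev (nat_lit 2516) (nat_lit 4096) (.ev (nat_lit
 2788) (nat_lit 64) (.ev (nat_lit 2797) (nat_lit 268435456) .dd))))) (.ch (nat_lit 12) (.ev (nat_lit 1312)
 (nat_lit 550561120320) (.ev (nat_lit 1536) (nat_lit 68719476736) (.ev (nat_lit 1549) (nat_lit 4096)
 .dd)))))))))))))))) (.ch (nat_lit 21) (.ev (nat_lit 52) (nat_lit 1144111109314112) (.ev (nat_lit 340) (nat_lit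
 4503599627370496) (.ev (nat_lit 404) (nat_lit 281474976710656) (.ev (nat_lit 468) (nat_lit 131072) (.ev
 (nat_lit 500) (nat_lit 268435456) (.ev (nat_lit 948) (nat_lit 1099511627776) (.nd (nat_lit 1296) (.br (nat_lit
 4) (.br (nat_lit 1) (.ch (nat_lit 0) (.ev (nat_lit 1312) (nat_lit 83837763747840) (.ev (nat_lit 1408) (nat_lit
 16777216) (.ev (nat_lit 1421) (nat_lit 562949953421312) .dd)))) (.br (nat_lit 2) (.ch (nat_lit 1) (.ev
 (nat_lit 1312) (nat_lit 572020941160448) (.ev (nat_lit 1840) (nat_lit 70368744177664) (.ev (nat_lit 1872)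
 (nat_lit 4398046511104) (.ev (nat_lit 1885) (nat_lit 2097152) .dd))))) (.ch (nat_lit 2) (.ev (nat_lit 1312)
 (nat_lit 646512856006656) (.fin (nat_lit 576464600580964941)))))) (.br (nat_lit 6) (.br (nat_lit 5) (.ch
 (nat_lit 4) (.ev (nat_lit 1312) (nat_lit 576144111861760) (.ev (nat_lit 1332) (nat_lit 274877906944) (.ev
 (nat_lit 1341) (nat_lit 70368744177664) .dd)))) (.ch (nat_lit 5) (.ev (nat_lit 1312) (nat_lit 633318699728896)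
 (.ev (nat_lit 1888) (nat_lit 4398046511104) (.ev (nat_lit 2432) (nat_lit 8796093022208) (.ev (nat_lit 2516)
 (nat_lit 16777216) (.ev (nat_lit 2525) (nat_lit 274877906944) .dd))))))) (.br (nat_lit 9) (.ch (nat_lit 6)
 (.ev (nat_lit 1312) (nat_lit 572020924383232) (.ev (nat_lit 1664) (nat_lit 4398046511104) (.ev (nat_lit 1792)
 (nat_lit 70368746274816) (.ev (nat_lit 1805) (nat_lit 16777216) .dd))))) (.ch (nat_lit 9) (.ev (nat_lit 1312)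
 (nat_lit 637991638794240) (.ev (nat_lit 2608) (nat_lit 2097152) (.ev (nat_lit 2816) (nat_lit 8796093054976)
 .dd))))))))))))))))))) (.br (nat_lit 34) (.br (nat_lit 30) (.br (nat_lit 25) (.ch (nat_lit 22) (.ev (nat_lit
 52) (nat_lit 644039208604672) (.ev (nat_lit 128) (nat_lit 5933034018931264) .dd))) (.br (nat_lit 26) (.ch
 (nat_lit 25) (.ev (nat_lit 52) (nat_lit 1985443677602368) (.ev (nat_lit 340) (nat_lit 268435456) (.ev (nat_lit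
 436) (nat_lit 4503599627370496) (.ev (nat_lit 724) (nat_lit 4194304) (.ev (nat_lit 820) (nat_lit 4096) (.ev
 (nat_lit 852) (nat_lit 17592186044416) (.nd (nat_lit 1296) (.br (nat_lit 5) (.br (nat_lit 1) (.ch (nat_lit 0)
 (.ev (nat_lit 1312) (nat_lit 68719640576) (.ev (nat_lit 1366) (nat_lit 70368744244224) .dd))) (.ch (nat_lit 1)
 (.ev (nat_lit 1312) (nat_lit 98304) (.ev (nat_lit 1440) (nat_lit 131072) (.ev (nat_lit 2144) (nat_lit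
 70368744177664) (.ev (nat_lit 2640) (nat_lit 68719476736) (.ev (nat_lit 2653) (nat_lit 1024) .dd))))))) (.br
 (nat_lit 9) (.ch (nat_lit 5) (.ev (nat_lit 1312) (nat_lit 70437463851008) (.ev (nat_lit 1424) (nat_lit 1024)
 (.ev (nat_lit 1437) (nat_lit 32768) .dd)))) (.br (nat_lit 12) (.ch (nat_lit 9) (.ev (nat_lit 1312) (nat_lit
 70368744341504) (.ev (nat_lit 2516) (nat_lit 1024) (.nd (nat_lit 2864) (.br (nat_lit 9) (.ch (nat_lit 6) (.ev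
 (nat_lit 2880) (nat_lit 68719542272) .dd)) (.ch (nat_lit 9) (.fin (nat_lit 576448107934859836)))))))) (.ch
 (nat_lit 12) (.ev (nat_lit 1312) (nat_lit 70437463884800) .dd))))))))))))) (.ch (nat_lit 26) (.ev (nat_lit 52)
 (nat_lit 1711184512288256) (.ev (nat_lit 84) (nat_lit 131072) (.ev (nat_lit 148) (nat_lit 8796093022208) (.ev
 (nat_lit 244) (nat_lit 4503599627370496) (.ev (nat_lit 372) (nat_lit 32768) (.ev (nat_lit 564) (nat_lit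
 549755813888) (.ev (nat_lit 800) (nat_lit 352943238877248) .dd)))))))))) (.br (nat_lit 31) (.ch (nat_lit 30)
 (.ev (nat_lit 52) (nat_lit 1413422214288448) (.ev (nat_lit 116) (nat_lit 70368744177664) (.ev (nat_lit 212)
 (nat_lit 17592186044416) (.ev (nat_lit 244) (nat_lit 536870912) (.ev (nat_lit 500) (nat_lit 68719476736) (.ev
 (nat_lit 724) (nat_lit 2097152) (.ev (nat_lit 756) (nat_lit 131072) (.ev (nat_lit 820) (nat_lit 268435456)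
 (.nd (nat_lit 1296) (.br (nat_lit 5) (.br (nat_lit 4) (.ch (nat_lit 1) (.ev (nat_lit 1312) (nat_lit
 5075345678106624) (.ev (nat_lit 1620) (nat_lit 274877906944) (.ev (nat_lit 1629) (nat_lit 512) .dd)))) (.ch
 (nat_lit 4) (.ev (nat_lit 1312) (nat_lit 8796097249280) (.ev (nat_lit 1332) (nat_lit 562949953421824) (.ev
 (nat_lit 2180) (nat_lit 65536) (.ev (nat_lit 2516) (nat_lit 4503599627370496) (.ev (nat_lit 2525) (nat_lit
 274877906944) .dd))))))) (.br (nat_lit 9) (.ch (nat_lit 5) (.ev (nat_lit 1312) (nat_lit 5075345673814528) (.ev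
 (nat_lit 1696) (nat_lit 4194304) (.ev (nat_lit 2528) (nat_lit 274877939712) (.ev (nat_lit 2541) (nat_lit
 65536) .dd))))) (.br (nat_lit 12) (.ch (nat_lit 9) (.ev (nat_lit 1312) (nat_lit 4503599631663616) (.ev
 (nat_lit 2788) (nat_lit 571746046443520) (.ev (nat_lit 2797) (nat_lit 274877906944) .dd)))) (.ch (nat_lit 12)
 (.ev (nat_lit 1312) (nat_lit 4503599631663616) (.ev (nat_lit 2528) (nat_lit 274877906944) (.fin (nat_lit
 576444809390539314)))))))))))))))))) (.br (nat_lit 33) (.ch (nat_lit 31) (.ev (nat_lit 52) (nat_lit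
 4583933249422912) (.ev (nat_lit 148) (nat_lit 4398046511104) (.ev (nat_lit 340) (nat_lit 131072) (.ev (nat_lit
 436) (nat_lit 4096) (.ev (nat_lit 564) (nat_lit 268435456) (.ev (nat_lit 724) (nat_lit 281474976710656) (.ev
 (nat_lit 788) (nat_lit 274877906944) (.nd (nat_lit 1296) (.br (nat_lit 4) (.br (nat_lit 2) (.ch (nat_lit 0)
 (.ev (nat_lit 1312) (nat_lit 1126449662656512) (.ev (nat_lit 2288) (nat_lit 17592186044416) (.ev (nat_lit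
 2400) (nat_lit 562949953421312) (.ev (nat_lit 2576) (nat_lit 4194304) (.ev (nat_lit 2589) (nat_lit 2097152)
 .dd)))))) (.ch (nat_lit 2) (.ev (nat_lit 1312) (nat_lit 1688849862361088) (.ev (nat_lit 2448) (nat_lit
 17592190238720) (.ev (nat_lit 2461) (nat_lit 549755813888) .dd))))) (.br (nat_lit 5) (.ch (nat_lit 4) (.ev
 (nat_lit 1312) (nat_lit 1706991808413696) .dd)) (.br (nat_lit 10) (.ch (nat_lit 5) (.ev (nat_lit 1312)
 (nat_lit 581091897376768) (.ev (nat_lit 2544) (nat_lit 4194304) (.ev (nat_lit 2557) (nat_lit 1125899906842624)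
 .dd)))) (.ch (nat_lit 10) (.ev (nat_lit 1312) (nat_lit 1706442046308352) (.ev (nat_lit 2516) (nat_lit 4194304)
 (.nd (nat_lit 2864) (.br (nat_lit 8) (.ch (nat_lit 2) (.fin (nat_lit 576465700104127060))) (.ch (nat_lit 8)
 (.ev (nat_lit 2880) (nat_lit 549757911040) .dd))))))))))))))))))) (.ch (nat_lit 33) (.ev (nat_lit 52) (nat_lit
 1147958880011328) (.ev (nat_lit 64) (nat_lit 5429114347524608) .dd)))))) (.br (nat_lit 37) (.br (nat_lit 35)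
 (.ch (nat_lit 34) (.ev (nat_lit 52) (nat_lit 871981708972032) (.ev (nat_lit 84) (nat_lit 536870976) (.ev
 (nat_lit 404) (nat_lit 1024) (.ev (nat_lit 436) (nat_lit 549755813888) (.ev (nat_lit 468) (nat_lit
 4398046511104) (.nd (nat_lit 1296) (.br (nat_lit 5) (.br (nat_lit 1) (.ch (nat_lit 0) (.ev (nat_lit 1312)
 (nat_lit 5700143156298240) (.ev (nat_lit 1968) (nat_lit 2097152) (.ev (nat_lit 2004) (nat_lit 4194304) (.ev
 (nat_lit 2013) (nat_lit 16777216) .dd))))) (.br (nat_lit 4) (.ch (nat_lit 1) (.ev (nat_lit 1312) (nat_lit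
 1125899927814656) (.ev (nat_lit 1524) (nat_lit 4503599627370496) (.ev (nat_lit 1712) (nat_lit 70368744177664)
 (.ev (nat_lit 1924) (nat_lit 274877906944) (.ev (nat_lit 1933) (nat_lit 2097152) .dd)))))) (.ch (nat_lit 4)
 (.ev (nat_lit 1312) (nat_lit 274900975616) (.ev (nat_lit 1828) (nat_lit 4573968371548160) (.ev (nat_lit 1872)
 (nat_lit 512) (.ev (nat_lit 1885) (nat_lit 1125899906842624) .dd))))))) (.br (nat_lit 9) (.br (nat_lit 6) (.ch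
 (nat_lit 5) (.ev (nat_lit 1312) (nat_lit 4573968375742976) (.ev (nat_lit 2096) (nat_lit 16777216) (.ev
 (nat_lit 2528) (nat_lit 2097152) (.ev (nat_lit 2608) (nat_lit 1125899906842624) (.ev (nat_lit 2621) (nat_lit
 274877906944) .dd)))))) (.ch (nat_lit 6) (.ev (nat_lit 1312) (nat_lit 4503874524151808) (.ev (nat_lit 1632)
 (nat_lit 512) (.ev (nat_lit 1712) (nat_lit 70368744177664) (.ev (nat_lit 1828) (nat_lit 4194304) (.ev (nat_lit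
 1837) (nat_lit 1125899906842624) .dd))))))) (.br (nat_lit 10) (.ch (nat_lit 9) (.ev (nat_lit 1312) (nat_lit
 5699868280487936) (.ev (nat_lit 1888) (nat_lit 512) (.ev (nat_lit 1924) (nat_lit 274877906944) (.ev (nat_lit
 2516) (nat_lit 4194304) (.ev (nat_lit 2525) (nat_lit 16777216) .dd)))))) (.ch (nat_lit 10) (.ev (nat_lit 1312)
 (nat_lit 1196543533122048) (.ev (nat_lit 1552) (nat_lit 2097152) (.ev (nat_lit 2368) (nat_lit
 4503599627370496) (.ev (nat_lit 2381) (nat_lit 16777216) .dd))))))))))))))) (.br (nat_lit 36) (.ch (nat_lit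
 35) (.ev (nat_lit 52) (nat_lit 84731138019840) (.ev (nat_lit 116) (nat_lit 17592186045440) (.ev (nat_lit 148)
 (nat_lit 550024249344) (.ev (nat_lit 436) (nat_lit 536870912) (.ev (nat_lit 1280) (nat_lit 562949953421312)
 (.nd (nat_lit 1296) (.br (nat_lit 4) (.br (nat_lit 2) (.ch (nat_lit 0) (.ev (nat_lit 1312) (nat_lit
 4785349482086400) (.ev (nat_lit 2672) (nat_lit 64) (.ev (nat_lit 2685) (nat_lit 1125899906842624) .dd)))) (.ch
 (nat_lit 2) (.ev (nat_lit 1312) (nat_lit 281474976776256) (.ev (nat_lit 1924) (nat_lit 4503599627370496) (.ev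
 (nat_lit 2788) (nat_lit 1125899906842624) (.nd (nat_lit 2864) (.br (nat_lit 4) (.ch (nat_lit 0) (.ev (nat_lit
 2880) (nat_lit 274877939712) .dd)) (.ch (nat_lit 4) (.fin (nat_lit 576464600580964941)))))))))) (.br (nat_lit
 5) (.ch (nat_lit 4) (.ev (nat_lit 1312) (nat_lit 274877939776) (.ev (nat_lit 1808) (nat_lit 4503599627370496)
 (.ev (nat_lit 2788) (nat_lit 65536) (.ev (nat_lit 2832) (nat_lit 1125899906842624) (.ev (nat_lit 2845)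
 (nat_lit 281474976710656) .dd)))))) (.br (nat_lit 6) (.ch (nat_lit 5) (.ev (nat_lit 1312) (nat_lit
 4503874505310272) (.ev (nat_lit 2432) (nat_lit 1125899906842624) (.ev (nat_lit 2788) (nat_lit 281474976710656)
 (.ev (nat_lit 2797) (nat_lit 65536) .dd))))) (.ch (nat_lit 6) (.ev (nat_lit 1312) (nat_lit 274878005312) (.ev
 (nat_lit 1606) (nat_lit 5910974510923776) .dd))))))))))))) (.ch (nat_lit 36) (.ev (nat_lit 52) (nat_lit
 299136689641024) (.ev (nat_lit 308) (nat_lit 562949953454080) (.ev (nat_lit 340) (nat_lit 549755813888) (.ev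
 (nat_lit 404) (nat_lit 1099511627776) (.ev (nat_lit 436) (nat_lit 274877906944) (.ev (nat_lit 468) (nat_lit
 1125899906842624) (.nd (nat_lit 1296) (.br (nat_lit 5) (.br (nat_lit 2) (.ch (nat_lit 1) (.ev (nat_lit 1312)
 (nat_lit 4516793788006400) (.ev (nat_lit 2516) (nat_lit 70368744177664) (.ev (nat_lit 2525) (nat_lit 65536)
 .dd)))) (.ch (nat_lit 2) (.ev (nat_lit 1312) (nat_lit 4587162528055296) (.ev (nat_lit 1325) (nat_lit 4194304)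
 .dd)))) (.br (nat_lit 6) (.ch (nat_lit 5) (.ev (nat_lit 1312) (nat_lit 4582764485738496) (.ev (nat_lit 1325)
 (nat_lit 4398046511104) .dd))) (.br (nat_lit 10) (.ch (nat_lit 6) (.ev (nat_lit 1312) (nat_lit 83562888101888)
 (.ev (nat_lit 2400) (nat_lit 16777216) (.ev (nat_lit 2413) (nat_lit 4503599627370496) .dd)))) (.ch (nat_lit
 10) (.ev (nat_lit 1312) (nat_lit 70368760954880) (.ev (nat_lit 1652) (nat_lit 4398046511104) (.ev (nat_lit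
 1782) (nat_lit 4512395724718080) (.ev (nat_lit 1789) (nat_lit 65536) .dd)))))))))))))))))) (.br (nat_lit 39)
 (.br (nat_lit 38) (.ch (nat_lit 37) (.ev (nat_lit 52) (nat_lit 5932965555147264) (.ev (nat_lit 320) (nat_lit
 644107672388672) .dd))) (.ch (nat_lit 38) (.ev (nat_lit 52) (nat_lit 5422791350453824) (.ev (nat_lit 84)
 (nat_lit 1125899906842624) (.ev (nat_lit 212) (nat_lit 1099511627776) (.ev (nat_lit 436) (nat_lit
 8796093022208) (.ev (nat_lit 500) (nat_lit 274877906944) (.ev (nat_lit 788) (nat_lit 549755813888) (.nd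
 (nat_lit 1296) (.br (nat_lit 6) (.br (nat_lit 4) (.ch (nat_lit 2) (.ev (nat_lit 1312) (nat_lit 17661715087360)
 (.ev (nat_lit 1840) (nat_lit 4096) (.ev (nat_lit 1853) (nat_lit 16777216) .dd)))) (.ch (nat_lit 4) (.ev
 (nat_lit 1312) (nat_lit 17661463367680) (.ev (nat_lit 2752) (nat_lit 65536) (.ev (nat_lit 2765) (nat_lit
 268435456) .dd))))) (.br (nat_lit 9) (.ch (nat_lit 6) (.ev (nat_lit 1312) (nat_lit 17661710893056) (.ev
 (nat_lit 1840) (nat_lit 16777216) (.ev (nat_lit 2384) (nat_lit 4194304) (.ev (nat_lit 2397) (nat_lit 4096)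
 .dd))))) (.br (nat_lit 10) (.ch (nat_lit 9) (.ev (nat_lit 1312) (nat_lit 289411072) (.ev (nat_lit 2496)
 (nat_lit 17592186044416) (.ev (nat_lit 2640) (nat_lit 536870912) (.fin (nat_lit 576448107934859836)))))) (.ch
 (nat_lit 10) (.ev (nat_lit 1312) (nat_lit 17592727179264) (.ev (nat_lit 1620) (nat_lit 16777216) (.ev (nat_lit
 2516) (nat_lit 68719476736) (.ev (nat_lit 2525) (nat_lit 268435456) .dd))))))))))))))))) (.br (nat_lit 42)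
 (.ch (nat_lit 39) (.ev (nat_lit 52) (nat_lit 4587713091245120) (.ev (nat_lit 436) (nat_lit 512) (.ev (nat_lit
 724) (nat_lit 1099511627776) (.ev (nat_lit 768) (nat_lit 1988260624662528) .dd))))) (.ch (nat_lit 42) (.ev
 (nat_lit 52) (nat_lit 6003677085111872) (.ev (nat_lit 500) (nat_lit 536870912) (.ev (nat_lit 756) (nat_lit
 549755813888) (.ev (nat_lit 948) (nat_lit 4194304) (.ev (nat_lit 1088) (nat_lit 16777216) (.nd (nat_lit 1296)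
 (.br (nat_lit 4) (.br (nat_lit 2) (.ch (nat_lit 1) (.ev (nat_lit 1312) (nat_lit 8796361490432) (.ev (nat_lit
 2788) (nat_lit 564049465049088) (.ev (nat_lit 2800) (nat_lit 131072) (.ev (nat_lit 2813) (nat_lit 2097152)
 .dd))))) (.ch (nat_lit 2) (.ev (nat_lit 1312) (nat_lit 571746317139968) (.ev (nat_lit 1325) (nat_lit
 1099511627776) .dd)))) (.br (nat_lit 9) (.ch (nat_lit 4) (.ev (nat_lit 1312) (nat_lit 571746317008896) (.ev
 (nat_lit 2528) (nat_lit 131072) (.ev (nat_lit 2541) (nat_lit 1099511627776) .dd)))) (.br (nat_lit 12) (.ch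
 (nat_lit 9) (.ev (nat_lit 1312) (nat_lit 9895873216512) (.ev (nat_lit 1504) (nat_lit 2097152) (.ev (nat_lit
 2196) (nat_lit 562949953421312) (.ev (nat_lit 2205) (nat_lit 32768) .dd))))) (.ch (nat_lit 12) (.ev (nat_lit
 1312) (nat_lit 1099513856000) (.ev (nat_lit 1332) (nat_lit 32768) (.ev (nat_lit 2276) (nat_lit 268435456)
 (.fin (nat_lit 576444809390539314)))))))))))))))))))))))

/-- Subtrie. -/
noncomputable def T4 : Tr := (.ev (nat_lit 20) (nat_lit 5718568836990976) (.nd (nat_lit 33) (.br (nat_lit 22)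
 (.br (nat_lit 9) (.br (nat_lit 6) (.br (nat_lit 4) (.ch (nat_lit 1) (.ev (nat_lit 52) (nat_lit
 574495446274576) (.ev (nat_lit 148) (nat_lit 32) (.ev (nat_lit 276) (nat_lit 2147483648) (.ev (nat_lit 916)
 (nat_lit 137438953472) (.ev (nat_lit 1024) (nat_lit 4398050705408) (.nd (nat_lit 1296) (.br (nat_lit 6) (.br
 (nat_lit 2) (.ch (nat_lit 1) (.ev (nat_lit 1312) (nat_lit 281818574127168) (.ev (nat_lit 1828) (nat_lit 1024)
 (.ev (nat_lit 1837) (nat_lit 140737488355328) .dd)))) (.ch (nat_lit 2) (.ev (nat_lit 1312) (nat_lit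
 141081085740096) (.ev (nat_lit 2788) (nat_lit 32768) (.ev (nat_lit 2797) (nat_lit 281474976710656) .dd)))))
 (.br (nat_lit 8) (.ch (nat_lit 6) (.ev (nat_lit 1312) (nat_lit 422556062449664) (.ev (nat_lit 1840) (nat_lit
 64) (.ev (nat_lit 2544) (nat_lit 1024) (.ev (nat_lit 2557) (nat_lit 32768) .dd))))) (.br (nat_lit 9) (.ch
 (nat_lit 8) (.ev (nat_lit 1312) (nat_lit 422487343005760) (.ev (nat_lit 2448) (nat_lit 68719477760) .dd)))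
 (.ch (nat_lit 9) (.ev (nat_lit 1312) (nat_lit 281474976743488) (.ev (nat_lit 1440) (nat_lit 274877906944) (.ev
 (nat_lit 2160) (nat_lit 1024) (.ev (nat_lit 2656) (nat_lit 68719476736) (.ev (nat_lit 2669) (nat_lit
 140737488355328) .dd)))))))))))))))) (.br (nat_lit 5) (.ch (nat_lit 4) (.ev (nat_lit 52) (nat_lit
 286492119274544) (.ev (nat_lit 244) (nat_lit 274877906944) (.ev (nat_lit 628) (nat_lit 64) (.ev (nat_lit 660)
 (nat_lit 137438953472) (.ev (nat_lit 788) (nat_lit 562949953421312) (.ev (nat_lit 980) (nat_lit 8796093022208)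
 (.nd (nat_lit 1296) (.br (nat_lit 3) (.br (nat_lit 2) (.ch (nat_lit 0) (.ev (nat_lit 1312) (nat_lit
 140739635839488) (.ev (nat_lit 2464) (nat_lit 2199023255552) (.ev (nat_lit 2592) (nat_lit 4194304) (.ev
 (nat_lit 2605) (nat_lit 32768) .dd))))) (.ch (nat_lit 2) (.ev (nat_lit 1312) (nat_lit 140739635872256) (.ev
 (nat_lit 2144) (nat_lit 4194304) (.ev (nat_lit 2157) (nat_lit 2199023255552) .dd))))) (.br (nat_lit 6) (.ch
 (nat_lit 3) (.ev (nat_lit 1312) (nat_lit 4227072) (.ev (nat_lit 1424) (nat_lit 2199023255552) (.ev (nat_lit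
 1524) (nat_lit 2147483648) (.ev (nat_lit 1924) (nat_lit 512) (.ev (nat_lit 1933) (nat_lit 140737488355328)
 .dd)))))) (.br (nat_lit 11) (.ch (nat_lit 6) (.ev (nat_lit 1312) (nat_lit 140739640033280) (.ev (nat_lit 2720)
 (nat_lit 2199023255552) (.ev (nat_lit 2788) (nat_lit 512) (.ev (nat_lit 2797) (nat_lit 32768) .dd))))) (.ch
 (nat_lit 11) (.ev (nat_lit 1312) (nat_lit 142938663321600) (.ev (nat_lit 1325) (nat_lit 512) .dd))))))))))))))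
 (.ch (nat_lit 5) (.ev (nat_lit 52) (nat_lit 427435766087712) (.ev (nat_lit 148) (nat_lit 4096) (.ev (nat_lit
 180) (nat_lit 2147483648) (.ev (nat_lit 884) (nat_lit 68719476736) (.ev (nat_lit 1040) (nat_lit 4194816) (.nd
 (nat_lit 1296) (.br (nat_lit 3) (.br (nat_lit 1) (.ch (nat_lit 0) (.ev (nat_lit 1312) (nat_lit 2199023256592)
 (.ev (nat_lit 1440) (nat_lit 562949953421312) (.ev (nat_lit 2160) (nat_lit 64) (.ev (nat_lit 2656) (nat_lit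
 137438953472) (.ev (nat_lit 2669) (nat_lit 8796093022208) .dd)))))) (.ch (nat_lit 1) (.ev (nat_lit 1312)
 (nat_lit 573945069700112) (.ev (nat_lit 2448) (nat_lit 137438953536) .dd)))) (.br (nat_lit 7) (.ch (nat_lit 3)
 (.ev (nat_lit 1312) (nat_lit 574082508652544) (.ev (nat_lit 1840) (nat_lit 1024) (.ev (nat_lit 2544) (nat_lit
 64) (.ev (nat_lit 2557) (nat_lit 16) .dd))))) (.br (nat_lit 8) (.ch (nat_lit 7) (.ev (nat_lit 1312) (nat_lit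
 571883485398080) (.ev (nat_lit 2788) (nat_lit 16) (.ev (nat_lit 2797) (nat_lit 2199023255552) .dd)))) (.ch
 (nat_lit 8) (.ev (nat_lit 1312) (nat_lit 565286415631376) (.ev (nat_lit 1828) (nat_lit 64) (.ev (nat_lit 1837)
 (nat_lit 8796093022208) .dd)))))))))))))))) (.br (nat_lit 7) (.ch (nat_lit 6) (.ev (nat_lit 52) (nat_lit
 578413999981072) (.ev (nat_lit 288) (nat_lit 423175145919584) .dd))) (.br (nat_lit 8) (.ch (nat_lit 7) (.ev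
 (nat_lit 52) (nat_lit 14087559872592) (.ev (nat_lit 372) (nat_lit 140737488355328) (.ev (nat_lit 596) (nat_lit
 281477124194304) (.ev (nat_lit 756) (nat_lit 562949953421312) (.nd (nat_lit 1296) (.br (nat_lit 7) (.br
 (nat_lit 6) (.ch (nat_lit 3) (.ev (nat_lit 1312) (nat_lit 2337020056608) (.ev (nat_lit 1325) (nat_lit 512)
 .dd))) (.ch (nat_lit 6) (.ev (nat_lit 1312) (nat_lit 2337020057120) .dd))) (.br (nat_lit 8) (.ch (nat_lit 7)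
 (.ev (nat_lit 1312) (nat_lit 137996796960) (.ev (nat_lit 1524) (nat_lit 4096) (.ev (nat_lit 2004) (nat_lit
 512) (.ev (nat_lit 2013) (nat_lit 2199023255552) .dd))))) (.br (nat_lit 9) (.ch (nat_lit 8) (.ev (nat_lit
 1312) (nat_lit 2337003279360) (.ev (nat_lit 2688) (nat_lit 16777216) (.fin (nat_lit 576458003542655542)))))
 (.ch (nat_lit 9) (.ev (nat_lit 1312) (nat_lit 2199040037408) (.ev (nat_lit 1398) (nat_lit 541066240) (.ev
 (nat_lit 1405) (nat_lit 137438953472) .dd))))))))))))) (.ch (nat_lit 8) (.ev (nat_lit 52) (nat_lit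
 427025512825360) (.ev (nat_lit 352) (nat_lit 574563633075296) .dd)))))) (.br (nat_lit 13) (.br (nat_lit 10)
 (.ch (nat_lit 9) (.ev (nat_lit 52) (nat_lit 433688617680944) (.ev (nat_lit 256) (nat_lit 567900528219712)
 .dd))) (.br (nat_lit 12) (.ch (nat_lit 10) (.ev (nat_lit 52) (nat_lit 994785364050016) (.ev (nat_lit 116)
 (nat_lit 16777216) (.ev (nat_lit 212) (nat_lit 1024) (.ev (nat_lit 276) (nat_lit 68719476736) (.ev (nat_lit
 404) (nat_lit 512) (.ev (nat_lit 468) (nat_lit 4096) (.ev (nat_lit 960) (nat_lit 6735045591056) .dd))))))))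
 (.ch (nat_lit 12) (.ev (nat_lit 52) (nat_lit 2886838817376) (.ev (nat_lit 244) (nat_lit 562949953421312) (.ev
 (nat_lit 628) (nat_lit 1024) (.ev (nat_lit 692) (nat_lit 68719476736) (.ev (nat_lit 788) (nat_lit
 274877906944) (.ev (nat_lit 980) (nat_lit 140737488355328) (.nd (nat_lit 1296) (.br (nat_lit 7) (.br (nat_lit
 6) (.ch (nat_lit 3) (.ev (nat_lit 1312) (nat_lit 8798244700160) (.ev (nat_lit 2720) (nat_lit 281474976710656)
 (.ev (nat_lit 2788) (nat_lit 16) (.ev (nat_lit 2797) (nat_lit 4398046511104) .dd))))) (.ch (nat_lit 6) (.ev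
 (nat_lit 1312) (nat_lit 4194320) (.ev (nat_lit 1424) (nat_lit 281474976710656) (.ev (nat_lit 1924) (nat_lit
 4398046511104) (.ev (nat_lit 2020) (nat_lit 8796093022208) (.ev (nat_lit 2029) (nat_lit 2147483648) .dd)))))))
 (.br (nat_lit 9) (.ch (nat_lit 7) (.ev (nat_lit 1312) (nat_lit 13196287016976) (.ev (nat_lit 2144) (nat_lit
 4194304) (.ev (nat_lit 2157) (nat_lit 281474976710656) .dd)))) (.br (nat_lit 11) (.ch (nat_lit 9) (.ev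
 (nat_lit 1312) (nat_lit 13196287016960) (.ev (nat_lit 2326) (nat_lit 281474980904976) .dd))) (.ch (nat_lit 11)
 (.ev (nat_lit 1312) (nat_lit 290273221410832) (.ev (nat_lit 1325) (nat_lit 4398046511104) .dd))))))))))))))))
 (.br (nat_lit 18) (.br (nat_lit 17) (.ch (nat_lit 13) (.ev (nat_lit 52) (nat_lit 704374703687184) (.ev
 (nat_lit 372) (nat_lit 8796093022208) (.ev (nat_lit 532) (nat_lit 2201170739200) (.ev (nat_lit 756) (nat_lit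
 274877906944) (.nd (nat_lit 1296) (.br (nat_lit 2) (.br (nat_lit 1) (.ch (nat_lit 0) (.ev (nat_lit 1312)
 (nat_lit 285873560096800) (.ev (nat_lit 1572) (nat_lit 64) (.ev (nat_lit 2036) (nat_lit 4194304) (.ev (nat_lit
 2240) (nat_lit 68719476736) (.ev (nat_lit 2253) (nat_lit 16777216) .dd)))))) (.ch (nat_lit 1) (.ev (nat_lit
 1312) (nat_lit 281543717159008) (.ev (nat_lit 2688) (nat_lit 536870912) (.fin (nat_lit
 576458003509101127)))))) (.br (nat_lit 3) (.ch (nat_lit 2) (.ev (nat_lit 1312) (nat_lit 69277323328) (.ev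
 (nat_lit 1524) (nat_lit 32) (.ev (nat_lit 1956) (nat_lit 281474976710656) (.ev (nat_lit 1965) (nat_lit
 4398046511104) .dd))))) (.br (nat_lit 6) (.ch (nat_lit 3) (.ev (nat_lit 1312) (nat_lit 285942300545120) .dd))
 (.ch (nat_lit 6) (.ev (nat_lit 1312) (nat_lit 281544254034016) (.ev (nat_lit 1325) (nat_lit 4398046511104)
 .dd)))))))))))) (.ch (nat_lit 17) (.ev (nat_lit 52) (nat_lit 572639403835968) (.ev (nat_lit 116) (nat_lit 16)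
 (.ev (nat_lit 340) (nat_lit 32) (.ev (nat_lit 372) (nat_lit 2336462209024) (.ev (nat_lit 724) (nat_lit 1024)
 (.ev (nat_lit 1200) (nat_lit 2147483648) (.nd (nat_lit 1296) (.br (nat_lit 3) (.br (nat_lit 1) (.ch (nat_lit
 0) (.ev (nat_lit 1312) (nat_lit 285873576873984) (.ev (nat_lit 2276) (nat_lit 67108864) (.ev (nat_lit 2816)
 (nat_lit 140737488388096) .dd)))) (.ch (nat_lit 1) (.ev (nat_lit 1312) (nat_lit 285873627238400) (.ev (nat_lit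
 2560) (nat_lit 16777216) (.ev (nat_lit 2573) (nat_lit 140737488355328) .dd))))) (.br (nat_lit 7) (.ch (nat_lit
 3) (.ev (nat_lit 1312) (nat_lit 285873643982848) (.ev (nat_lit 1332) (nat_lit 140737488355328) (.ev (nat_lit
 1341) (nat_lit 32768) .dd)))) (.br (nat_lit 9) (.ch (nat_lit 7) (.ev (nat_lit 1312) (nat_lit 4398130397184)
 (.ev (nat_lit 1680) (nat_lit 536870912) (.ev (nat_lit 2384) (nat_lit 4096) (.ev (nat_lit 2624) (nat_lit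
 281474976710656) (.ev (nat_lit 2832) (nat_lit 140737488355328) (.ev (nat_lit 2845) (nat_lit 32768) .dd)))))))
 (.ch (nat_lit 9) (.ev (nat_lit 1312) (nat_lit 620793856) (.ev (nat_lit 1956) (nat_lit 140737488355328) (.ev
 (nat_lit 2400) (nat_lit 4398046511104) (.ev (nat_lit 2413) (nat_lit 281474976710656) .dd))))))))))))))))) (.br
 (nat_lit 21) (.ch (nat_lit 18) (.ev (nat_lit 52) (nat_lit 708497876452352) (.ev (nat_lit 116) (nat_lit 32768)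
 (.ev (nat_lit 308) (nat_lit 281543696187392) (.ev (nat_lit 340) (nat_lit 4096) (.ev (nat_lit 724) (nat_lit 64)
 (.ev (nat_lit 1216) (nat_lit 2147483648) (.nd (nat_lit 1296) (.br (nat_lit 6) (.br (nat_lit 2) (.ch (nat_lit
 0) (.ev (nat_lit 1312) (nat_lit 550309462064) (.ev (nat_lit 1956) (nat_lit 8796093022208) (.ev (nat_lit 2400)
 (nat_lit 512) (.ev (nat_lit 2413) (nat_lit 2199023255552) .dd))))) (.ch (nat_lit 2) (.ev (nat_lit 1312)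
 (nat_lit 550292685312) (.ev (nat_lit 1680) (nat_lit 16777216) (.ev (nat_lit 2384) (nat_lit 32) (.ev (nat_lit
 2624) (nat_lit 2199023255552) (.ev (nat_lit 2832) (nat_lit 8796093022208) (.ev (nat_lit 2845) (nat_lit 16)
 .dd)))))))) (.br (nat_lit 8) (.ch (nat_lit 6) (.ev (nat_lit 1312) (nat_lit 2749332718112) (.ev (nat_lit 1332)
 (nat_lit 8796093022208) (.ev (nat_lit 1341) (nat_lit 16) .dd)))) (.br (nat_lit 9) (.ch (nat_lit 8) (.ev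
 (nat_lit 1312) (nat_lit 2748795847216) (.ev (nat_lit 2560) (nat_lit 536870912) (.ev (nat_lit 2573) (nat_lit
 8796093022208) .dd)))) (.ch (nat_lit 9) (.ev (nat_lit 1312) (nat_lit 2199576904224) (.ev (nat_lit 1524)
 (nat_lit 549755813888) (.ev (nat_lit 2816) (nat_lit 8796093022224) .dd))))))))))))))) (.ch (nat_lit 21) (.ev
 (nat_lit 52) (nat_lit 758602798672) (.ev (nat_lit 372) (nat_lit 67108864) (.ev (nat_lit 564) (nat_lit
 562949953421312) (.ev (nat_lit 692) (nat_lit 2199023255552) (.ev (nat_lit 884) (nat_lit 281474976710656) (.ev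
 (nat_lit 948) (nat_lit 4398063288320) (.nd (nat_lit 1296) (.br (nat_lit 6) (.br (nat_lit 2) (.ch (nat_lit 1)
 (.ev (nat_lit 1312) (nat_lit 149808459317248) (.ev (nat_lit 1325) (nat_lit 32) .dd))) (.ch (nat_lit 2) (.ev
 (nat_lit 1312) (nat_lit 149533581377568) (.nd (nat_lit 2864) (.br (nat_lit 2) (.ch (nat_lit 1) (.fin (nat_lit
 576458003540558387))) (.ch (nat_lit 2) (.ev (nat_lit 2880) (nat_lit 274877939712) .dd))))))) (.br (nat_lit 7)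
 (.ch (nat_lit 6) (.ev (nat_lit 1312) (nat_lit 274877939744) (.ev (nat_lit 2516) (nat_lit 140737488355328) (.ev
 (nat_lit 2525) (nat_lit 8796093022208) .dd)))) (.br (nat_lit 11) (.ch (nat_lit 7) (.ev (nat_lit 1312) (nat_lit
 8796093054976) (.ev (nat_lit 2212) (nat_lit 32) (.ev (nat_lit 2720) (nat_lit 141012366262272) .dd)))) (.ch
 (nat_lit 11) (.ev (nat_lit 1312) (nat_lit 149533581410336) (.ev (nat_lit 1325) (nat_lit 274877906944)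
 .dd)))))))))))))))))) (.br (nat_lit 34) (.br (nat_lit 30) (.br (nat_lit 25) (.ch (nat_lit 22) (.ev (nat_lit
 52) (nat_lit 715509410567184) (.ev (nat_lit 116) (nat_lit 536870912) (.ev (nat_lit 180) (nat_lit 137438953472)
 (.ev (nat_lit 212) (nat_lit 64) (.ev (nat_lit 404) (nat_lit 4398046511104) (.ev (nat_lit 468) (nat_lit 32)
 (.ev (nat_lit 992) (nat_lit 281543712997888) .dd)))))))) (.br (nat_lit 26) (.ch (nat_lit 25) (.ev (nat_lit 52)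
 (nat_lit 858583843471936) (.ev (nat_lit 180) (nat_lit 68719476736) (.ev (nat_lit 660) (nat_lit 2199027449856)
 (.ev (nat_lit 864) (nat_lit 140737555502128) .dd))))) (.ch (nat_lit 26) (.ev (nat_lit 52) (nat_lit
 710630877169152) (.ev (nat_lit 276) (nat_lit 137438953472) (.ev (nat_lit 692) (nat_lit 281474980904960) (.ev
 (nat_lit 896) (nat_lit 9345848873072) .dd))))))) (.br (nat_lit 31) (.ch (nat_lit 30) (.ev (nat_lit 52)
 (nat_lit 288759258027104) (.ev (nat_lit 84) (nat_lit 562949953421312) (.ev (nat_lit 372) (nat_lit 68719476736)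
 (.ev (nat_lit 576) (nat_lit 149811214975504) .dd))))) (.br (nat_lit 33) (.ch (nat_lit 31) (.ev (nat_lit 52)
 (nat_lit 149602921645680) (.ev (nat_lit 308) (nat_lit 2147483648) (.ev (nat_lit 468) (nat_lit 274877906944)
 (.ev (nat_lit 596) (nat_lit 4194304) (.ev (nat_lit 660) (nat_lit 549755813888) (.ev (nat_lit 692) (nat_lit
 137438953472) (.ev (nat_lit 1264) (nat_lit 562949953421312) (.nd (nat_lit 1296) (.br (nat_lit 3) (.br (nat_lit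
 2) (.ch (nat_lit 1) (.ev (nat_lit 1312) (nat_lit 281474976710656) (.ev (nat_lit 2832) (nat_lit 2199023255552)
 (.fin (nat_lit 576458003509101127))))) (.ch (nat_lit 2) (.ev (nat_lit 1312) (nat_lit 281474976710656) (.ev
 (nat_lit 2788) (nat_lit 4398046511104) (.ev (nat_lit 2816) (nat_lit 2199023259648) .dd))))) (.br (nat_lit 6)
 (.ch (nat_lit 3) (.ev (nat_lit 1312) (nat_lit 4096) (.ev (nat_lit 2768) (nat_lit 4398046511104) (.ev (nat_lit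
 2788) (nat_lit 2199023255552) (.ev (nat_lit 2797) (nat_lit 281474976710656) .dd))))) (.br (nat_lit 7) (.ch
 (nat_lit 6) (.ev (nat_lit 1312) (nat_lit 4398046515200) (.ev (nat_lit 1924) (nat_lit 281474976710656) (.ev
 (nat_lit 1933) (nat_lit 2199023255552) .dd)))) (.ch (nat_lit 7) (.ev (nat_lit 1312) (nat_lit 285873023225856)
 (.ev (nat_lit 1325) (nat_lit 2199023255552) .dd))))))))))))))) (.ch (nat_lit 33) (.ev (nat_lit 52) (nat_lit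
 4606440539232) (.ev (nat_lit 308) (nat_lit 549755813888) (.ev (nat_lit 564) (nat_lit 274877906944) (.ev
 (nat_lit 660) (nat_lit 281474976710656) (.ev (nat_lit 916) (nat_lit 2199023255552) (.ev (nat_lit 948) (nat_lit
 536871424) (.nd (nat_lit 1296) (.br (nat_lit 7) (.br (nat_lit 3) (.ch (nat_lit 2) (.ev (nat_lit 1312) (nat_lit
 140737488355344) (.ev (nat_lit 2212) (nat_lit 4096) (.ev (nat_lit 2720) (nat_lit 571746046443520) .dd)))) (.ch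
 (nat_lit 3) (.ev (nat_lit 1312) (nat_lit 562949953425424) (.ev (nat_lit 2516) (nat_lit 8796093022208) (.ev
 (nat_lit 2525) (nat_lit 140737488355328) .dd))))) (.br (nat_lit 8) (.ch (nat_lit 7) (.ev (nat_lit 1312)
 (nat_lit 149533581381632) (.nd (nat_lit 2864) (.br (nat_lit 1) (.ch (nat_lit 0) (.ev (nat_lit 2880) (nat_lit
 562949953421328) .dd)) (.ch (nat_lit 1) (.fin (nat_lit 576458003511198282))))))) (.br (nat_lit 11) (.ch
 (nat_lit 8) (.ev (nat_lit 1312) (nat_lit 712483534798864) (.ev (nat_lit 1325) (nat_lit 4096) .dd))) (.ch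
 (nat_lit 11) (.ev (nat_lit 1312) (nat_lit 149533581381648) (.ev (nat_lit 1325) (nat_lit 562949953421312)
 .dd))))))))))))))))) (.br (nat_lit 37) (.br (nat_lit 35) (.ch (nat_lit 34) (.ev (nat_lit 52) (nat_lit
 996363693232128) (.ev (nat_lit 160) (nat_lit 5225452668528) .dd))) (.br (nat_lit 36) (.ch (nat_lit 35) (.ev
 (nat_lit 52) (nat_lit 15461903241760) (.ev (nat_lit 404) (nat_lit 16) (.ev (nat_lit 532) (nat_lit
 281612415664128) (.ev (nat_lit 980) (nat_lit 549755813888) (.nd (nat_lit 1296) (.br (nat_lit 3) (.br (nat_lit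
 1) (.ch (nat_lit 0) (.ev (nat_lit 1312) (nat_lit 141015117758528) (.ev (nat_lit 2516) (nat_lit 1024) (.ev
 (nat_lit 2525) (nat_lit 562949953421312) .dd)))) (.br (nat_lit 2) (.ch (nat_lit 1) (.ev (nat_lit 1312)
 (nat_lit 563225368232960) (.ev (nat_lit 1552) (nat_lit 140737488355328) (.ev (nat_lit 2080) (nat_lit
 2147483648) (.ev (nat_lit 2516) (nat_lit 64) (.ev (nat_lit 2525) (nat_lit 67108864) .dd)))))) (.ch (nat_lit 2)
 (.ev (nat_lit 1312) (nat_lit 703690193241152) (.fin (nat_lit 576458003540558387)))))) (.br (nat_lit 7) (.br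
 (nat_lit 6) (.ch (nat_lit 3) (.ev (nat_lit 1312) (nat_lit 703689656401920) (.ev (nat_lit 2180) (nat_lit 64)
 (.ev (nat_lit 2528) (nat_lit 536870912) (.ev (nat_lit 2624) (nat_lit 1024) (.ev (nat_lit 2637) (nat_lit
 274877906944) .dd)))))) (.ch (nat_lit 6) (.ev (nat_lit 1312) (nat_lit 563225368200192) (.ev (nat_lit 1524)
 (nat_lit 64) (.ev (nat_lit 2528) (nat_lit 140737488355328) (.ev (nat_lit 2608) (nat_lit 67108864) (.ev
 (nat_lit 2720) (nat_lit 2147483648) (.ev (nat_lit 2733) (nat_lit 32768) .dd)))))))) (.br (nat_lit 9) (.ch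
 (nat_lit 7) (.ev (nat_lit 1312) (nat_lit 562952704918592) (.ev (nat_lit 2180) (nat_lit 140737488355328) (.ev
 (nat_lit 2189) (nat_lit 274877906944) .dd)))) (.ch (nat_lit 9) (.ev (nat_lit 1312) (nat_lit 563227582824448)
 (.ev (nat_lit 2416) (nat_lit 64) (.ev (nat_lit 2528) (nat_lit 140737488356352) .dd))))))))))))) (.ch (nat_lit
 36) (.ev (nat_lit 52) (nat_lit 283743323428448) (.ev (nat_lit 84) (nat_lit 274877906944) (.ev (nat_lit 308)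
 (nat_lit 137438953472) (.ev (nat_lit 512) (nat_lit 717433505611792) .dd))))))) (.br (nat_lit 39) (.br (nat_lit
 38) (.ch (nat_lit 37) (.ev (nat_lit 52) (nat_lit 426748491600416) (.ev (nat_lit 404) (nat_lit 32768) (.ev
 (nat_lit 596) (nat_lit 2267742732288) (.ev (nat_lit 1012) (nat_lit 67108864) (.nd (nat_lit 1296) (.br (nat_lit
 6) (.br (nat_lit 2) (.ch (nat_lit 0) (.ev (nat_lit 1312) (nat_lit 563776751403024) (.ev (nat_lit 2416)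
 (nat_lit 1024) (.ev (nat_lit 2528) (nat_lit 8796093022272) .dd)))) (.br (nat_lit 3) (.ch (nat_lit 2) (.ev
 (nat_lit 1312) (nat_lit 826797982800) (.ev (nat_lit 2180) (nat_lit 8796093022208) (.ev (nat_lit 2189) (nat_lit
 562949953421312) .dd)))) (.ch (nat_lit 3) (.ev (nat_lit 1312) (nat_lit 563224848105536) (.ev (nat_lit 1524)
 (nat_lit 1024) (.ev (nat_lit 2340) (nat_lit 2147483648) (.ev (nat_lit 2528) (nat_lit 8796093022208) (.ev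
 (nat_lit 2608) (nat_lit 549755813888) (.ev (nat_lit 2621) (nat_lit 16) .dd))))))))) (.br (nat_lit 8) (.br
 (nat_lit 7) (.ch (nat_lit 6) (.ev (nat_lit 1312) (nat_lit 9622874226704) (.ev (nat_lit 2054) (nat_lit
 562949970199552) (.ev (nat_lit 2061) (nat_lit 64) .dd)))) (.ch (nat_lit 7) (.ev (nat_lit 1312) (nat_lit
 9622891004992) (.fin (nat_lit 576458003511198282))))) (.br (nat_lit 9) (.ch (nat_lit 8) (.ev (nat_lit 1312)
 (nat_lit 563224848105552) (.ev (nat_lit 1552) (nat_lit 8796093022208) (.ev (nat_lit 2080) (nat_lit 2147483648)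
 (.ev (nat_lit 2516) (nat_lit 1024) (.ev (nat_lit 2525) (nat_lit 549755813888) .dd)))))) (.ch (nat_lit 9) (.ev
 (nat_lit 1312) (nat_lit 572297966519312) (.ev (nat_lit 2516) (nat_lit 64) (.ev (nat_lit 2525) (nat_lit
 274877906944) .dd))))))))))))) (.ch (nat_lit 38) (.ev (nat_lit 52) (nat_lit 851159438886496) (.ev (nat_lit
 276) (nat_lit 4194304) (.ev (nat_lit 340) (nat_lit 274877906944) (.ev (nat_lit 672) (nat_lit 150154824912912)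
 .dd)))))) (.br (nat_lit 42) (.ch (nat_lit 39) (.ev (nat_lit 52) (nat_lit 154619376342096) (.ev (nat_lit 372)
 (nat_lit 2147483648) (.ev (nat_lit 468) (nat_lit 562949953421312) (.ev (nat_lit 532) (nat_lit 4194304) (.ev
 (nat_lit 660) (nat_lit 68719476736) (.ev (nat_lit 692) (nat_lit 67108864) (.ev (nat_lit 1232) (nat_lit
 274877906944) (.nd (nat_lit 1296) (.br (nat_lit 6) (.br (nat_lit 3) (.ch (nat_lit 2) (.ev (nat_lit 1312)
 (nat_lit 2199023256096) (.ev (nat_lit 1325) (nat_lit 281474976710656) .dd))) (.ch (nat_lit 3) (.ev (nat_lit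
 1312) (nat_lit 544) (.ev (nat_lit 1924) (nat_lit 2199023255552) (.ev (nat_lit 1933) (nat_lit 281474976710656)
 .dd))))) (.br (nat_lit 7) (.ch (nat_lit 6) (.ev (nat_lit 1312) (nat_lit 32) (.ev (nat_lit 2768) (nat_lit 512)
 (.ev (nat_lit 2788) (nat_lit 2199023255552) (.ev (nat_lit 2797) (nat_lit 281474976710656) .dd))))) (.br
 (nat_lit 8) (.ch (nat_lit 7) (.ev (nat_lit 1312) (nat_lit 2199023255552) (.ev (nat_lit 2788) (nat_lit 512)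
 (.ev (nat_lit 2816) (nat_lit 281474976710688) .dd)))) (.ch (nat_lit 8) (.ev (nat_lit 1312) (nat_lit
 2199023255552) (.ev (nat_lit 2832) (nat_lit 281474976710656) (.fin (nat_lit
 576458003542655542))))))))))))))))) (.ch (nat_lit 42) (.ev (nat_lit 52) (nat_lit 288415643866704) (.ev
 (nat_lit 180) (nat_lit 4194304) (.ev (nat_lit 340) (nat_lit 562949953421312) (.ev (nat_lit 640) (nat_lit
 150223544418336) .dd))))))))))))

/-- Subtrie. -/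
noncomputable def T5 : Tr := (.ev (nat_lit 20) (nat_lit 1407521537392720) (.nd (nat_lit 33) (.br (nat_lit 22)
 (.br (nat_lit 9) (.br (nat_lit 6) (.br (nat_lit 4) (.ch (nat_lit 1) (.ev (nat_lit 52) (nat_lit
 574495096508928) (.ev (nat_lit 84) (nat_lit 2048) (.ev (nat_lit 180) (nat_lit 4503599627370496) (.ev (nat_lit
 340) (nat_lit 70368744177664) (.ev (nat_lit 608) (nat_lit 164172977439776) .dd)))))) (.br (nat_lit 5) (.ch
 (nat_lit 4) (.ev (nat_lit 52) (nat_lit 4597676593126432) (.ev (nat_lit 180) (nat_lit 512) (.ev (nat_lit 212)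
 (nat_lit 2199023255552) (.ev (nat_lit 244) (nat_lit 2147483648) (.ev (nat_lit 564) (nat_lit 268435456) (.ev
 (nat_lit 628) (nat_lit 65536) (.ev (nat_lit 832) (nat_lit 712758413131776) .dd)))))))) (.ch (nat_lit 5) (.ev
 (nat_lit 52) (nat_lit 147059682803744) (.ev (nat_lit 148) (nat_lit 17592186044416) (.ev (nat_lit 372) (nat_lit
 4503599627370496) (.ev (nat_lit 756) (nat_lit 268435456) (.ev (nat_lit 820) (nat_lit 2048) (.ev (nat_lit 1012)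
 (nat_lit 4096) (.nd (nat_lit 1296) (.br (nat_lit 6) (.br (nat_lit 1) (.ch (nat_lit 0) (.ev (nat_lit 1312)
 (nat_lit 644315961361408) (.fin (nat_lit 576471197650731595)))) (.br (nat_lit 4) (.ch (nat_lit 1) (.ev
 (nat_lit 1312) (nat_lit 633320845084160) (.ev (nat_lit 2608) (nat_lit 8796093022208) (.ev (nat_lit 2816)
 (nat_lit 2267742732288) .dd)))) (.ch (nat_lit 4) (.ev (nat_lit 1312) (nat_lit 644384680837120) (.ev (nat_lit
 1332) (nat_lit 512) (.ev (nat_lit 1341) (nat_lit 1024) .dd)))))) (.br (nat_lit 9) (.br (nat_lit 8) (.ch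
 (nat_lit 6) (.ev (nat_lit 1312) (nat_lit 571814765921280) (.ev (nat_lit 1472) (nat_lit 2199023255552) (.ev
 (nat_lit 1712) (nat_lit 70368744177664) (.ev (nat_lit 1988) (nat_lit 512) (.ev (nat_lit 1997) (nat_lit
 2147483648) .dd)))))) (.ch (nat_lit 8) (.ev (nat_lit 1312) (nat_lit 565217696154112) (.ev (nat_lit 1664)
 (nat_lit 1024) (.ev (nat_lit 1792) (nat_lit 79164837199872) (.ev (nat_lit 1805) (nat_lit 2147483648) .dd))))))
 (.br (nat_lit 11) (.ch (nat_lit 9) (.ev (nat_lit 1312) (nat_lit 81432579933696) (.ev (nat_lit 2368) (nat_lit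
 2147483648) (.ev (nat_lit 2381) (nat_lit 562949953421312) .dd)))) (.ch (nat_lit 11) (.ev (nat_lit 1312)
 (nat_lit 565219843637760) (.ev (nat_lit 1632) (nat_lit 1024) (.ev (nat_lit 1712) (nat_lit 70368744177664) (.ev
 (nat_lit 1725) (nat_lit 8796093022208) .dd)))))))))))))))))) (.br (nat_lit 7) (.ch (nat_lit 6) (.ev (nat_lit
 52) (nat_lit 649882241501696) (.ev (nat_lit 244) (nat_lit 550024249344) (.ev (nat_lit 532) (nat_lit 4096) (.ev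
 (nat_lit 628) (nat_lit 1024) (.ev (nat_lit 788) (nat_lit 17592186044416) (.ev (nat_lit 1012) (nat_lit
 4503599627370496) (.nd (nat_lit 1296) (.br (nat_lit 4) (.br (nat_lit 1) (.ch (nat_lit 0) (.ev (nat_lit 1312)
 (nat_lit 140737488355328) (.ev (nat_lit 2516) (nat_lit 274877906944) (.ev (nat_lit 2544) (nat_lit 65536) (.ev
 (nat_lit 2557) (nat_lit 32) .dd))))) (.ch (nat_lit 1) (.ev (nat_lit 1312) (nat_lit 274877972480) (.ev (nat_lit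
 2788) (nat_lit 32) (.ev (nat_lit 2797) (nat_lit 140737488355328) .dd))))) (.br (nat_lit 9) (.ch (nat_lit 4)
 (.ev (nat_lit 1312) (nat_lit 141012366327840) .dd)) (.br (nat_lit 11) (.ch (nat_lit 9) (.ev (nat_lit 1312)
 (nat_lit 274877972480) (.ev (nat_lit 2800) (nat_lit 140737488355328) (.ev (nat_lit 2813) (nat_lit 32) .dd))))
 (.ch (nat_lit 11) (.ev (nat_lit 1312) (nat_lit 141012366327840) .dd))))))))))))) (.br (nat_lit 8) (.ch
 (nat_lit 7) (.ev (nat_lit 52) (nat_lit 84456505835520) (.ev (nat_lit 212) (nat_lit 1024) (.ev (nat_lit 244)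
 (nat_lit 2097152) (.ev (nat_lit 852) (nat_lit 562949953421312) (.ev (nat_lit 884) (nat_lit 4096) (.ev (nat_lit
 1104) (nat_lit 512) (.nd (nat_lit 1296) (.br (nat_lit 8) (.br (nat_lit 5) (.ch (nat_lit 1) (.ev (nat_lit 1312)
 (nat_lit 4647637798092832) (.ev (nat_lit 2788) (nat_lit 17592186044416) (.ev (nat_lit 2797) (nat_lit 2048)
 .dd)))) (.ch (nat_lit 5) (.ev (nat_lit 1312) (nat_lit 4523392984156192) (.ev (nat_lit 1456) (nat_lit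
 140737488355328) (.ev (nat_lit 1469) (nat_lit 1099511627776) .dd))))) (.br (nat_lit 11) (.ch (nat_lit 8) (.ev
 (nat_lit 1312) (nat_lit 160530845138944) (.ev (nat_lit 1620) (nat_lit 2048) (.ev (nat_lit 2276) (nat_lit
 4503599627370496) (.ev (nat_lit 2448) (nat_lit 1099511627776) (.ev (nat_lit 2461) (nat_lit 32) .dd)))))) (.br
 (nat_lit 12) (.ch (nat_lit 11) (.ev (nat_lit 1312) (nat_lit 4661931449253920) (.ev (nat_lit 2528) (nat_lit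
 1099511627776) (.ev (nat_lit 2576) (nat_lit 2199023255552) (.ev (nat_lit 2589) (nat_lit 2048) .dd))))) (.ch
 (nat_lit 12) (.ev (nat_lit 1312) (nat_lit 4646536138983456) (.ev (nat_lit 1696) (nat_lit 2147483648) (.ev
 (nat_lit 2116) (nat_lit 1099511627776) (.ev (nat_lit 2125) (nat_lit 17592186044416) .dd)))))))))))))))) (.ch
 (nat_lit 8) (.ev (nat_lit 52) (nat_lit 4666604644565504) (.ev (nat_lit 84) (nat_lit 70368744177664) (.ev
 (nat_lit 756) (nat_lit 2048) (.ev (nat_lit 820) (nat_lit 549755813888) (.ev (nat_lit 916) (nat_lit 4096) (.ev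
 (nat_lit 1120) (nat_lit 8796093022208) (.nd (nat_lit 1296) (.br (nat_lit 4) (.br (nat_lit 1) (.ch (nat_lit 0)
 (.ev (nat_lit 1312) (nat_lit 1168231236608) (.ev (nat_lit 2528) (nat_lit 2199023255552) (.ev (nat_lit 2788)
 (nat_lit 32) (.ev (nat_lit 2797) (nat_lit 562949953421312) .dd))))) (.ch (nat_lit 1) (.ev (nat_lit 1312)
 (nat_lit 564049465049120) (.ev (nat_lit 1924) (nat_lit 68719476736) (.ev (nat_lit 2516) (nat_lit
 2199023255552) (.nd (nat_lit 2864) (.br (nat_lit 10) (.ch (nat_lit 7) (.ev (nat_lit 2880) (nat_lit 132096)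
 .dd)) (.ch (nat_lit 10) (.fin (nat_lit 576455804496331342)))))))))) (.br (nat_lit 6) (.ch (nat_lit 4) (.ev
 (nat_lit 1312) (nat_lit 564049465181184) (.ev (nat_lit 1924) (nat_lit 2199023255552) (.ev (nat_lit 2704)
 (nat_lit 68719476736) (.ev (nat_lit 2717) (nat_lit 32) .dd))))) (.br (nat_lit 9) (.ch (nat_lit 6) (.ev
 (nat_lit 1312) (nat_lit 563018673030176) (.ev (nat_lit 1524) (nat_lit 1099511627776) (.ev (nat_lit 1533)
 (nat_lit 2199023255552) .dd)))) (.ch (nat_lit 9) (.ev (nat_lit 1312) (nat_lit 1099511759872) (.ev (nat_lit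
 1904) (nat_lit 68719476736) (.ev (nat_lit 2788) (nat_lit 562949953421312) (.ev (nat_lit 2832) (nat_lit
 2199023255552) (.ev (nat_lit 2845) (nat_lit 32) .dd)))))))))))))))))))) (.br (nat_lit 13) (.br (nat_lit 10)
 (.ch (nat_lit 9) (.ev (nat_lit 52) (nat_lit 170768168323104) (.ev (nat_lit 436) (nat_lit 70368744177664) (.ev
 (nat_lit 660) (nat_lit 4503599627370496) (.ev (nat_lit 724) (nat_lit 32768) (.ev (nat_lit 948) (nat_lit
 562949953421312) (.ev (nat_lit 1136) (nat_lit 262144) (.nd (nat_lit 1296) (.br (nat_lit 6) (.br (nat_lit 4)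
 (.ch (nat_lit 1) (.ev (nat_lit 1312) (nat_lit 2149582336) (.ev (nat_lit 2004) (nat_lit 549755813888) (.ev
 (nat_lit 2528) (nat_lit 4398046511104) (.ev (nat_lit 2541) (nat_lit 4096) .dd))))) (.ch (nat_lit 4) (.ev
 (nat_lit 1312) (nat_lit 4400196097024) (.ev (nat_lit 1828) (nat_lit 549755813888) (.ev (nat_lit 1837) (nat_lit
 512) .dd))))) (.br (nat_lit 8) (.ch (nat_lit 6) (.ev (nat_lit 1312) (nat_lit 4400193999360) (.ev (nat_lit
 2480) (nat_lit 1024) (.nd (nat_lit 2864) (.br (nat_lit 12) (.ch (nat_lit 1) (.ev (nat_lit 2880) (nat_lit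
 549757911040) .dd)) (.ch (nat_lit 12) (.fin (nat_lit 576456904017396268)))))))) (.br (nat_lit 12) (.ch
 (nat_lit 8) (.ev (nat_lit 1312) (nat_lit 4398048608256) (.ev (nat_lit 1332) (nat_lit 512) (.ev (nat_lit 1904)
 (nat_lit 1024) (.ev (nat_lit 2516) (nat_lit 2147483648) (.ev (nat_lit 2624) (nat_lit 4096) (.ev (nat_lit 2637)
 (nat_lit 549755813888) .dd))))))) (.ch (nat_lit 12) (.ev (nat_lit 1312) (nat_lit 4400193999872) (.ev (nat_lit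
 2528) (nat_lit 549755813888) (.ev (nat_lit 2736) (nat_lit 2097152) (.ev (nat_lit 2749) (nat_lit 512)
 .dd)))))))))))))))) (.br (nat_lit 12) (.ch (nat_lit 10) (.ev (nat_lit 52) (nat_lit 5218009725567008) (.ev
 (nat_lit 116) (nat_lit 65536) (.ev (nat_lit 564) (nat_lit 131072) (.ev (nat_lit 852) (nat_lit 6597069766656)
 (.nd (nat_lit 1296) (.br (nat_lit 8) (.br (nat_lit 5) (.ch (nat_lit 4) (.ev (nat_lit 1312) (nat_lit
 70437463919104) (.ev (nat_lit 1380) (nat_lit 17592186044416) (.ev (nat_lit 2544) (nat_lit 1024) (.ev (nat_lit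
 2557) (nat_lit 4096) .dd))))) (.ch (nat_lit 5) (.ev (nat_lit 1312) (nat_lit 87960930490880) (.ev (nat_lit
 1904) (nat_lit 68719476736) (.ev (nat_lit 1917) (nat_lit 1024) .dd))))) (.br (nat_lit 9) (.ch (nat_lit 8) (.ev
 (nat_lit 1312) (nat_lit 88029649962496) (.ev (nat_lit 2752) (nat_lit 2048) (.ev (nat_lit 2765) (nat_lit 4096)
 .dd)))) (.br (nat_lit 11) (.ch (nat_lit 9) (.ev (nat_lit 1312) (nat_lit 70437463659520) (.ev (nat_lit 2516)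
 (nat_lit 512) (.ev (nat_lit 2688) (nat_lit 262144) (.fin (nat_lit 576461302042935864)))))) (.ch (nat_lit 11)
 (.ev (nat_lit 1312) (nat_lit 17592186313216) (.ev (nat_lit 1904) (nat_lit 1024) (.ev (nat_lit 2516) (nat_lit
 70368744177664) (.ev (nat_lit 2525) (nat_lit 68719476736) .dd)))))))))))))) (.ch (nat_lit 12) (.ev (nat_lit
 52) (nat_lit 4594309605399072) (.ev (nat_lit 84) (nat_lit 2097152) (.ev (nat_lit 628) (nat_lit 68719476736)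
 (.ev (nat_lit 948) (nat_lit 4398046511104) (.ev (nat_lit 1248) (nat_lit 140737488355328) (.nd (nat_lit 1296)
 (.br (nat_lit 4) (.br (nat_lit 1) (.ch (nat_lit 0) (.ev (nat_lit 1312) (nat_lit 572847705687040) (.ev (nat_lit
 1332) (nat_lit 65536) (.ev (nat_lit 1341) (nat_lit 274877906944) .dd)))) (.ch (nat_lit 1) (.ev (nat_lit 1312)
 (nat_lit 573122583461888) (.ev (nat_lit 2516) (nat_lit 1024) (.ev (nat_lit 2528) (nat_lit 131072) (.ev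
 (nat_lit 2541) (nat_lit 65536) .dd)))))) (.br (nat_lit 5) (.ch (nat_lit 4) (.ev (nat_lit 1312) (nat_lit
 564326490571776) (.ev (nat_lit 2736) (nat_lit 8796093022208) (.ev (nat_lit 2749) (nat_lit 65536) .dd)))) (.br
 (nat_lit 6) (.ch (nat_lit 5) (.ev (nat_lit 1312) (nat_lit 8798240636928) (.ev (nat_lit 1424) (nat_lit
 562949953421312) (.ev (nat_lit 1856) (nat_lit 1099511627776) (.ev (nat_lit 2624) (nat_lit 1024) (.ev (nat_lit
 2832) (nat_lit 65536) (.ev (nat_lit 2845) (nat_lit 274877906944) .dd))))))) (.ch (nat_lit 6) (.ev (nat_lit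
 1312) (nat_lit 572845558203392) (.ev (nat_lit 2128) (nat_lit 2147483648) (.ev (nat_lit 2816) (nat_lit
 274877972480) .dd)))))))))))))))) (.br (nat_lit 18) (.br (nat_lit 17) (.ch (nat_lit 13) (.ev (nat_lit 52)
 (nat_lit 5208936338916864) (.ev (nat_lit 116) (nat_lit 68719476768) (.ev (nat_lit 244) (nat_lit 2048) (.ev
 (nat_lit 340) (nat_lit 268435456) (.ev (nat_lit 500) (nat_lit 17592186044416) (.nd (nat_lit 1296) (.br
 (nat_lit 5) (.br (nat_lit 1) (.ch (nat_lit 0) (.ev (nat_lit 1312) (nat_lit 74768938176512) (.ev (nat_lit 1456)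
 (nat_lit 274877906944) (.ev (nat_lit 1856) (nat_lit 262144) (.ev (nat_lit 2672) (nat_lit 2199023255552) (.ev
 (nat_lit 2685) (nat_lit 8796093022208) .dd)))))) (.ch (nat_lit 1) (.ev (nat_lit 1312) (nat_lit 72844793085952)
 (.ev (nat_lit 1572) (nat_lit 8796093022208) (.fin (nat_lit 576464600612422201)))))) (.br (nat_lit 8) (.ch
 (nat_lit 5) (.ev (nat_lit 1312) (nat_lit 77240692117504) (.ev (nat_lit 1828) (nat_lit 2147483648) (.ev
 (nat_lit 1837) (nat_lit 8796093022208) .dd)))) (.br (nat_lit 11) (.ch (nat_lit 8) (.ev (nat_lit 1312) (nat_lit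
 72844793085952) (.ev (nat_lit 2788) (nat_lit 4398046515200) (.ev (nat_lit 2797) (nat_lit 8796093022208)
 .dd)))) (.ch (nat_lit 11) (.ev (nat_lit 1312) (nat_lit 274878173184) (.ev (nat_lit 1332) (nat_lit
 4400193994752) (.ev (nat_lit 2308) (nat_lit 2199023255552) (.ev (nat_lit 2400) (nat_lit 70368744177664) (.ev
 (nat_lit 2413) (nat_lit 8796093022208) .dd)))))))))))))))) (.ch (nat_lit 17) (.ev (nat_lit 52) (nat_lit
 5146608042052096) (.ev (nat_lit 116) (nat_lit 32768) (.ev (nat_lit 180) (nat_lit 1099511627776) (.ev (nat_lit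
 212) (nat_lit 32) (.ev (nat_lit 436) (nat_lit 17592186044416) (.ev (nat_lit 564) (nat_lit 2147483648) (.ev
 (nat_lit 596) (nat_lit 4096) (.ev (nat_lit 1184) (nat_lit 2199023255552) (.nd (nat_lit 1296) (.br (nat_lit 8)
 (.br (nat_lit 5) (.ch (nat_lit 1) (.ev (nat_lit 1312) (nat_lit 4398046511104) (.ev (nat_lit 2832) (nat_lit
 140737488355328) (.fin (nat_lit 576455804496331342))))) (.ch (nat_lit 5) (.ev (nat_lit 1312) (nat_lit
 4398046511104) (.ev (nat_lit 2788) (nat_lit 131072) (.ev (nat_lit 2816) (nat_lit 140737488356352) .dd)))))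
 (.br (nat_lit 9) (.ch (nat_lit 8) (.ev (nat_lit 1312) (nat_lit 132096) (.ev (nat_lit 2788) (nat_lit
 4398046511104) (.ev (nat_lit 2797) (nat_lit 140737488355328) .dd)))) (.br (nat_lit 12) (.ch (nat_lit 9) (.ev
 (nat_lit 1312) (nat_lit 1024) (.ev (nat_lit 2768) (nat_lit 131072) (.ev (nat_lit 2788) (nat_lit 4398046511104)
 (.ev (nat_lit 2797) (nat_lit 140737488355328) .dd))))) (.ch (nat_lit 12) (.ev (nat_lit 1312) (nat_lit
 4398046643200) (.ev (nat_lit 1325) (nat_lit 140737488355328) .dd))))))))))))))))) (.br (nat_lit 21) (.ch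
 (nat_lit 18) (.ev (nat_lit 52) (nat_lit 5301020437906432) (.ev (nat_lit 384) (nat_lit 11616007592480) .dd)))
 (.ch (nat_lit 21) (.ev (nat_lit 52) (nat_lit 18212808891904) (.ev (nat_lit 116) (nat_lit 140737488355328) (.ev
 (nat_lit 276) (nat_lit 1099511627776) (.ev (nat_lit 628) (nat_lit 562949953421312) (.ev (nat_lit 724) (nat_lit
 32) (.ev (nat_lit 788) (nat_lit 131072) (.ev (nat_lit 820) (nat_lit 70368746274816) (.ev (nat_lit 1152)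
 (nat_lit 4398046511104) (.nd (nat_lit 1296) (.br (nat_lit 9) (.br (nat_lit 6) (.ch (nat_lit 1) (.ev (nat_lit
 1312) (nat_lit 4506073797230592) (.ev (nat_lit 1504) (nat_lit 8796093022208) (.ev (nat_lit 1517) (nat_lit
 32768) .dd)))) (.ch (nat_lit 6) (.ev (nat_lit 1312) (nat_lit 4512395720687616) (.ev (nat_lit 1588) (nat_lit
 268435456) (.ev (nat_lit 2528) (nat_lit 274877906944) (.ev (nat_lit 2541) (nat_lit 2199023255552) .dd))))))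
 (.br (nat_lit 11) (.ch (nat_lit 9) (.ev (nat_lit 1312) (nat_lit 9070970961920) (.ev (nat_lit 1332) (nat_lit
 2199023255552) (.ev (nat_lit 2116) (nat_lit 4503599627370496) (.fin (nat_lit 576451406470791746)))))) (.br
 (nat_lit 12) (.ch (nat_lit 11) (.ev (nat_lit 1312) (nat_lit 4505798650888192) (.ev (nat_lit 2276) (nat_lit
 268435456) (.ev (nat_lit 2788) (nat_lit 32768) (.ev (nat_lit 2800) (nat_lit 8796093022208) (.ev (nat_lit 2813)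
 (nat_lit 274877906944) .dd)))))) (.ch (nat_lit 12) (.ev (nat_lit 1312) (nat_lit 4514869890252800) (.ev
 (nat_lit 1325) (nat_lit 32768) .dd)))))))))))))))))))) (.br (nat_lit 34) (.br (nat_lit 30) (.br (nat_lit 25)
 (.ch (nat_lit 22) (.ev (nat_lit 52) (nat_lit 786977863767040) (.ev (nat_lit 116) (nat_lit 4398046511104) (.ev
 (nat_lit 276) (nat_lit 4503599627370496) (.ev (nat_lit 628) (nat_lit 32768) (.ev (nat_lit 724) (nat_lit 65536)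
 (.ev (nat_lit 852) (nat_lit 32) (.nd (nat_lit 1296) (.br (nat_lit 6) (.br (nat_lit 1) (.ch (nat_lit 0) (.ev
 (nat_lit 1312) (nat_lit 17592188274688) (.fin (nat_lit 576471197650731595)))) (.ch (nat_lit 1) (.ev (nat_lit
 1312) (nat_lit 17660905652736) (.ev (nat_lit 1956) (nat_lit 2097152) (.ev (nat_lit 1965) (nat_lit 2048)
 .dd))))) (.br (nat_lit 9) (.ch (nat_lit 6) (.ev (nat_lit 1312) (nat_lit 17660905523200) (.ev (nat_lit 1424)
 (nat_lit 2097152) (.ev (nat_lit 2720) (nat_lit 131584) .dd)))) (.br (nat_lit 12) (.ch (nat_lit 9) (.ev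
 (nat_lit 1312) (nat_lit 68719608320) (.ev (nat_lit 2464) (nat_lit 2097152) (.fin (nat_lit
 576461302042935864))))) (.ch (nat_lit 12) (.ev (nat_lit 1312) (nat_lit 68719609856) (.ev (nat_lit 2020)
 (nat_lit 2097152) (.ev (nat_lit 2788) (nat_lit 17592186044416) (.ev (nat_lit 2797) (nat_lit 512)
 .dd)))))))))))))))) (.br (nat_lit 26) (.ch (nat_lit 25) (.ev (nat_lit 52) (nat_lit 578070387886592) (.ev
 (nat_lit 96) (nat_lit 4734566057612320) .dd))) (.ch (nat_lit 26) (.ev (nat_lit 52) (nat_lit 728222711154176)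
 (.ev (nat_lit 404) (nat_lit 32) (.ev (nat_lit 436) (nat_lit 131072) (.ev (nat_lit 788) (nat_lit 2048) (.nd
 (nat_lit 1296) (.br (nat_lit 5) (.br (nat_lit 1) (.ch (nat_lit 0) (.ev (nat_lit 1312) (nat_lit
 4575617641152512) (.ev (nat_lit 1572) (nat_lit 8796093022208) (.ev (nat_lit 2852) (nat_lit 4096) (.ev (nat_lit
 2861) (nat_lit 32768) .dd))))) (.br (nat_lit 4) (.ch (nat_lit 1) (.ev (nat_lit 1312) (nat_lit
 4583863976267776) (.ev (nat_lit 1924) (nat_lit 2097152) (.ev (nat_lit 2752) (nat_lit 549755813888) (.ev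
 (nat_lit 2765) (nat_lit 32768) .dd))))) (.ch (nat_lit 4) (.ev (nat_lit 1312) (nat_lit 4575617639022592) (.ev
 (nat_lit 2528) (nat_lit 8796093022208) (.ev (nat_lit 2704) (nat_lit 2097152) (.ev (nat_lit 2816) (nat_lit
 69632) .dd))))))) (.br (nat_lit 8) (.br (nat_lit 6) (.ch (nat_lit 5) (.ev (nat_lit 1312) (nat_lit
 70368746377216) (.ev (nat_lit 1552) (nat_lit 8796093022208) (.ev (nat_lit 2368) (nat_lit 1099511627776) (.ev
 (nat_lit 2528) (nat_lit 4503599627370496) (.ev (nat_lit 2541) (nat_lit 549755813888) .dd)))))) (.ch (nat_lit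
 6) (.ev (nat_lit 1312) (nat_lit 4512945478303744) (.ev (nat_lit 1348) (nat_lit 4096) (.ev (nat_lit 1828)
 (nat_lit 70368744177664) (.ev (nat_lit 2416) (nat_lit 1099511627776) (.ev (nat_lit 2788) (nat_lit 32768) (.ev
 (nat_lit 2797) (nat_lit 65536) .dd)))))))) (.br (nat_lit 11) (.ch (nat_lit 8) (.ev (nat_lit 1312) (nat_lit
 4513495234220032) (.ev (nat_lit 1332) (nat_lit 549755813888) (.ev (nat_lit 1341) (nat_lit 70368744177664)
 .dd)))) (.ch (nat_lit 11) (.ev (nat_lit 1312) (nat_lit 4504149383286784) (.ev (nat_lit 1792) (nat_lit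
 70368746274816) (.ev (nat_lit 2416) (nat_lit 1099511627776) (.ev (nat_lit 2429) (nat_lit 8796093022208)
 .dd)))))))))))))))) (.br (nat_lit 31) (.ch (nat_lit 30) (.ev (nat_lit 52) (nat_lit 8246337477664) (.ev
 (nat_lit 212) (nat_lit 8864812498944) (.ev (nat_lit 404) (nat_lit 32768) (.ev (nat_lit 532) (nat_lit
 4503599627371008) (.nd (nat_lit 1296) (.br (nat_lit 6) (.br (nat_lit 4) (.ch (nat_lit 1) (.ev (nat_lit 1312)
 (nat_lit 633595991621632) (.ev (nat_lit 2688) (nat_lit 140737488355328) (.ev (nat_lit 2800) (nat_lit 2097152)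
 (.ev (nat_lit 2813) (nat_lit 17592186044416) .dd))))) (.br (nat_lit 5) (.ch (nat_lit 4) (.ev (nat_lit 1312)
 (nat_lit 791925397520384) (.ev (nat_lit 1472) (nat_lit 2097152) (.ev (nat_lit 2592) (nat_lit 268435456) (.ev
 (nat_lit 2605) (nat_lit 65536) .dd))))) (.ch (nat_lit 5) (.ev (nat_lit 1312) (nat_lit 651185763778560) (.ev
 (nat_lit 1792) (nat_lit 140737488420864) (.ev (nat_lit 2416) (nat_lit 2147483648) (.ev (nat_lit 2429) (nat_lit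
 268435456) .dd))))))) (.br (nat_lit 11) (.br (nat_lit 9) (.ch (nat_lit 6) (.ev (nat_lit 1312) (nat_lit
 228973567148032) (.ev (nat_lit 2432) (nat_lit 562949953421312) (.ev (nat_lit 2560) (nat_lit 2147483648) (.ev
 (nat_lit 2573) (nat_lit 65536) .dd))))) (.ch (nat_lit 9) (.ev (nat_lit 1312) (nat_lit 87963348434944) (.ev
 (nat_lit 2544) (nat_lit 140737488355328) (.ev (nat_lit 2800) (nat_lit 562949953421312) (.ev (nat_lit 2813)
 (nat_lit 274877906944) .dd)))))) (.br (nat_lit 12) (.ch (nat_lit 11) (.ev (nat_lit 1312) (nat_lit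
 721279629983744) (.ev (nat_lit 1524) (nat_lit 268435456) (.ev (nat_lit 2080) (nat_lit 70368744177664) (.ev
 (nat_lit 2516) (nat_lit 2147614720) (.ev (nat_lit 2525) (nat_lit 274877906944) .dd)))))) (.ch (nat_lit 12)
 (.ev (nat_lit 1312) (nat_lit 703962321846272) (.ev (nat_lit 1380) (nat_lit 70369012613120) (.ev (nat_lit 2256)
 (nat_lit 131072) (.ev (nat_lit 2704) (nat_lit 2147483648) (.ev (nat_lit 2717) (nat_lit 17592186044416)
 .dd))))))))))))))) (.br (nat_lit 33) (.ch (nat_lit 31) (.ev (nat_lit 52) (nat_lit 4724670184392224) (.ev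
 (nat_lit 148) (nat_lit 2048) (.ev (nat_lit 212) (nat_lit 562949953421312) (.ev (nat_lit 404) (nat_lit
 2199023255552) (.ev (nat_lit 500) (nat_lit 2147614720) (.ev (nat_lit 852) (nat_lit 274877906944) (.nd (nat_lit
 1296) (.br (nat_lit 6) (.br (nat_lit 4) (.ch (nat_lit 1) (.ev (nat_lit 1312) (nat_lit 18142210293760) (.ev
 (nat_lit 2516) (nat_lit 2097152) (.fin (nat_lit 576464600612422201))))) (.ch (nat_lit 4) (.ev (nat_lit 1312)
 (nat_lit 22539988373504) (.ev (nat_lit 2528) (nat_lit 270532608) .dd)))) (.br (nat_lit 11) (.ch (nat_lit 6)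
 (.ev (nat_lit 1312) (nat_lit 4398314950656) (.ev (nat_lit 2704) (nat_lit 17592186044416) (.fin (nat_lit
 576456904017396268))))) (.br (nat_lit 12) (.ch (nat_lit 11) (.ev (nat_lit 1312) (nat_lit 4948070764544) (.ev
 (nat_lit 1828) (nat_lit 17592186044416) (.ev (nat_lit 1837) (nat_lit 2097152) .dd)))) (.ch (nat_lit 12) (.ev
 (nat_lit 1312) (nat_lit 21990500995072) (.ev (nat_lit 2528) (nat_lit 2097152) (.ev (nat_lit 2541) (nat_lit
 549755813888) .dd))))))))))))))) (.ch (nat_lit 33) (.ev (nat_lit 52) (nat_lit 22061099682848) (.ev (nat_lit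
 276) (nat_lit 512) (.ev (nat_lit 340) (nat_lit 549755813888) (.ev (nat_lit 372) (nat_lit 1099511627776) (.ev
 (nat_lit 404) (nat_lit 8796093022208) (.ev (nat_lit 660) (nat_lit 4096) (.ev (nat_lit 756) (nat_lit 2097152)
 (.ev (nat_lit 1056) (nat_lit 562949953486848) (.nd (nat_lit 1296) (.br (nat_lit 4) (.br (nat_lit 1) (.ch
 (nat_lit 0) (.ev (nat_lit 1312) (nat_lit 4644612262330368) (.ev (nat_lit 1536) (nat_lit 70368744177664) (.ev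
 (nat_lit 1549) (nat_lit 2199023255552) .dd)))) (.ch (nat_lit 1) (.ev (nat_lit 1312) (nat_lit 4714981006245888)
 (.ev (nat_lit 2516) (nat_lit 2199023255552) (.ev (nat_lit 2525) (nat_lit 262144) .dd))))) (.br (nat_lit 11)
 (.ch (nat_lit 4) (.ev (nat_lit 1312) (nat_lit 211381110702080) (.ev (nat_lit 1424) (nat_lit 2199023255552)
 (.ev (nat_lit 1680) (nat_lit 4503599627370496) (.ev (nat_lit 1693) (nat_lit 268435456) .dd))))) (.br (nat_lit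
 12) (.ch (nat_lit 11) (.ev (nat_lit 1312) (nat_lit 4644337384161280) (.ev (nat_lit 2464) (nat_lit
 2199023255552) (.ev (nat_lit 2516) (nat_lit 274877906944) (.ev (nat_lit 2592) (nat_lit 70368744177664) (.ev
 (nat_lit 2605) (nat_lit 262144) .dd)))))) (.ch (nat_lit 12) (.ev (nat_lit 1312) (nat_lit 4576442272972800)
 (.ev (nat_lit 2516) (nat_lit 140737488355328) (.ev (nat_lit 2525) (nat_lit 268435456) .dd))))))))))))))))))))
 (.br (nat_lit 37) (.br (nat_lit 35) (.ch (nat_lit 34) (.ev (nat_lit 52) (nat_lit 733443243874304) (.ev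
 (nat_lit 116) (nat_lit 1024) (.ev (nat_lit 148) (nat_lit 2097152) (.ev (nat_lit 564) (nat_lit 70368744177664)
 (.ev (nat_lit 628) (nat_lit 32) (.ev (nat_lit 928) (nat_lit 4508824455348736) .dd))))))) (.br (nat_lit 36)
 (.ch (nat_lit 35) (.ev (nat_lit 52) (nat_lit 86930140568096) (.ev (nat_lit 84) (nat_lit 549755813888) (.ev
 (nat_lit 404) (nat_lit 1024) (.ev (nat_lit 436) (nat_lit 268435456) (.ev (nat_lit 468) (nat_lit 2147483648)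
 (.ev (nat_lit 692) (nat_lit 4503599627370496) (.ev (nat_lit 724) (nat_lit 274877906944) (.ev (nat_lit 820)
 (nat_lit 17592186044416) (.nd (nat_lit 1296) (.br (nat_lit 6) (.br (nat_lit 5) (.ch (nat_lit 4) (.ev (nat_lit
 1312) (nat_lit 703687441874944) .dd)) (.ch (nat_lit 5) (.ev (nat_lit 1312) (nat_lit 562949953421312) (.ev
 (nat_lit 1488) (nat_lit 65536) (.ev (nat_lit 2432) (nat_lit 32768) (.ev (nat_lit 2445) (nat_lit
 140737488355328) .dd)))))) (.br (nat_lit 8) (.ch (nat_lit 6) (.ev (nat_lit 1312) (nat_lit 98304) (.ev (nat_lit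
 2800) (nat_lit 562949953421312) (.ev (nat_lit 2813) (nat_lit 140737488355328) .dd)))) (.br (nat_lit 12) (.ch
 (nat_lit 8) (.ev (nat_lit 1312) (nat_lit 98304) (.ev (nat_lit 1748) (nat_lit 140737488355328) (.ev (nat_lit
 1757) (nat_lit 562949953421312) .dd)))) (.ch (nat_lit 12) (.ev (nat_lit 1312) (nat_lit 703687441874944)
 .dd))))))))))))))) (.ch (nat_lit 36) (.ev (nat_lit 52) (nat_lit 19860199314976) (.ev (nat_lit 244) (nat_lit
 131072) (.ev (nat_lit 500) (nat_lit 2048) (.ev (nat_lit 628) (nat_lit 262144) (.ev (nat_lit 788) (nat_lit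
 2147483648) (.ev (nat_lit 852) (nat_lit 65536) (.ev (nat_lit 884) (nat_lit 1099511627776) (.ev (nat_lit 1168)
 (nat_lit 274877906944) (.nd (nat_lit 1296) (.br (nat_lit 5) (.br (nat_lit 4) (.ch (nat_lit 0) (.ev (nat_lit
 1312) (nat_lit 5282603615649792) (.ev (nat_lit 2788) (nat_lit 8796093022208) (.ev (nat_lit 2797) (nat_lit
 32768) .dd)))) (.ch (nat_lit 4) (.ev (nat_lit 1312) (nat_lit 5277655813357568) (.ev (nat_lit 1872) (nat_lit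
 4398046511104) (.ev (nat_lit 2276) (nat_lit 549755813888) (.ev (nat_lit 2285) (nat_lit 8796093022208)
 .dd)))))) (.br (nat_lit 6) (.ch (nat_lit 5) (.ev (nat_lit 1312) (nat_lit 4727899999469568) (.ev (nat_lit 2416)
 (nat_lit 562949953421312) (.ev (nat_lit 2429) (nat_lit 549755813888) .dd)))) (.br (nat_lit 12) (.ch (nat_lit
 6) (.ev (nat_lit 1312) (nat_lit 787250325487616) (.ev (nat_lit 2516) (nat_lit 549755813888) (.ev (nat_lit
 2544) (nat_lit 4503599627370496) (.ev (nat_lit 2557) (nat_lit 32768) .dd))))) (.ch (nat_lit 12) (.ev (nat_lit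
 1312) (nat_lit 5079743720325120) (.ev (nat_lit 1936) (nat_lit 549755813888) (.ev (nat_lit 2608) (nat_lit
 70368744177664) (.ev (nat_lit 2736) (nat_lit 140737488355328) (.ev (nat_lit 2749) (nat_lit 32768)
 .dd))))))))))))))))))))) (.br (nat_lit 39) (.br (nat_lit 38) (.ch (nat_lit 37) (.ev (nat_lit 52) (nat_lit
 4666327619146272) (.ev (nat_lit 192) (nat_lit 646308826352640) .dd))) (.ch (nat_lit 38) (.ev (nat_lit 52)
 (nat_lit 5143515397000736) (.ev (nat_lit 212) (nat_lit 274877906944) (.ev (nat_lit 276) (nat_lit 4096) (.ev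
 (nat_lit 308) (nat_lit 1099511627776) (.ev (nat_lit 404) (nat_lit 140737488355328) (.ev (nat_lit 468) (nat_lit
 17592186044416) (.ev (nat_lit 756) (nat_lit 549755813888) (.ev (nat_lit 820) (nat_lit 2147483648) (.nd
 (nat_lit 1296) (.br (nat_lit 5) (.br (nat_lit 1) (.ch (nat_lit 0) (.ev (nat_lit 1312) (nat_lit 8796361719808)
 (.ev (nat_lit 2416) (nat_lit 68719476736) (.ev (nat_lit 2429) (nat_lit 65536) .dd)))) (.ch (nat_lit 1) (.ev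
 (nat_lit 1312) (nat_lit 268500992) (.ev (nat_lit 2720) (nat_lit 68719476736) (.ev (nat_lit 2768) (nat_lit
 262144) (.ev (nat_lit 2781) (nat_lit 8796093022208) .dd)))))) (.br (nat_lit 8) (.ch (nat_lit 5) (.ev (nat_lit
 1312) (nat_lit 8865080999936) (.ev (nat_lit 1325) (nat_lit 262144) .dd))) (.br (nat_lit 9) (.ch (nat_lit 8)
 (.ev (nat_lit 1312) (nat_lit 68988239872) (.ev (nat_lit 1325) (nat_lit 8796093022208) .dd))) (.ch (nat_lit 9)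
 (.ev (nat_lit 1312) (nat_lit 8864812564480) (.nd (nat_lit 2864) (.br (nat_lit 2) (.ch (nat_lit 1) (.fin
 (nat_lit 576451406470791746))) (.ch (nat_lit 2) (.ev (nat_lit 2880) (nat_lit 268697600)
 .dd)))))))))))))))))))) (.br (nat_lit 42) (.ch (nat_lit 39) (.ev (nat_lit 52) (nat_lit 4728450025952256) (.ev
 (nat_lit 84) (nat_lit 17592186044416) (.ev (nat_lit 948) (nat_lit 262144) (.ev (nat_lit 980) (nat_lit 512)
 (.nd (nat_lit 1296) (.br (nat_lit 6) (.br (nat_lit 4) (.ch (nat_lit 1) (.ev (nat_lit 1312) (nat_lit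
 564395209918464) (.ev (nat_lit 1524) (nat_lit 32) (.ev (nat_lit 1732) (nat_lit 2199023255552) (.ev (nat_lit
 1741) (nat_lit 65536) .dd))))) (.br (nat_lit 5) (.ch (nat_lit 4) (.ev (nat_lit 1312) (nat_lit 566525513762816)
 (.ev (nat_lit 1332) (nat_lit 32) (.ev (nat_lit 1341) (nat_lit 68719476736) .dd)))) (.ch (nat_lit 5) (.ev
 (nat_lit 1312) (nat_lit 3298534885408) (.ev (nat_lit 1348) (nat_lit 562949953421312) (.ev (nat_lit 1632)
 (nat_lit 68719476736) (.ev (nat_lit 1764) (nat_lit 274877906944) (.ev (nat_lit 2516) (nat_lit 65536) (.ev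
 (nat_lit 2525) (nat_lit 2147483648) .dd))))))))) (.br (nat_lit 9) (.br (nat_lit 8) (.ch (nat_lit 6) (.ev
 (nat_lit 1312) (nat_lit 70867028000) (.ev (nat_lit 2096) (nat_lit 1099511627776) (.ev (nat_lit 2704) (nat_lit
 2199023255552) (.ev (nat_lit 2816) (nat_lit 563224831328256) .dd))))) (.ch (nat_lit 8) (.ev (nat_lit 1312)
 (nat_lit 2544768124960) (.ev (nat_lit 2516) (nat_lit 1099511627776) (.ev (nat_lit 2852) (nat_lit 65536) (.ev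
 (nat_lit 2861) (nat_lit 562949953421312) .dd)))))) (.br (nat_lit 12) (.ch (nat_lit 9) (.ev (nat_lit 1312)
 (nat_lit 563224831395872) (.ev (nat_lit 1524) (nat_lit 2147483648) (.ev (nat_lit 1664) (nat_lit 68719476736)
 (.ev (nat_lit 1792) (nat_lit 2199023255552) (.ev (nat_lit 1805) (nat_lit 1099511627776) .dd)))))) (.ch
 (nat_lit 12) (.ev (nat_lit 1312) (nat_lit 565492574126080) (.ev (nat_lit 1408) (nat_lit 2147485696) (.ev
 (nat_lit 2704) (nat_lit 1099511627776) (.ev (nat_lit 2717) (nat_lit 32) .dd)))))))))))))) (.ch (nat_lit 42)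
 (.ev (nat_lit 52) (nat_lit 4598501225076224) (.ev (nat_lit 116) (nat_lit 8796093022208) (.ev (nat_lit 148)
 (nat_lit 131072) (.ev (nat_lit 500) (nat_lit 268435456) (.ev (nat_lit 704) (nat_lit 705338858833952)
 .dd)))))))))))))

/-- The trie. -/
noncomputable def T : Tr := .nd (nat_lit 1000000) (.br (nat_lit 3) (.br (nat_lit 1) (.ch (nat_lit 0) (.ev
 (nat_lit 0) (nat_lit 9007199254740991) .dd)) (.br (nat_lit 2) (.ch (nat_lit 1) (.ev (nat_lit 0) (nat_lit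
 9007199254740991) .dd)) (.ch (nat_lit 2) T2))) (.br (nat_lit 4) (.ch (nat_lit 3) (.ev (nat_lit 0) (nat_lit
 9007199254740991) .dd)) (.br (nat_lit 5) (.ch (nat_lit 4) T4) (.ch (nat_lit 5) T5))))

/-- The possible values. -/
noncomputable def oks : List ℕ := [679, 706]

/-- The parameters. -/
noncomputable def S : Pr := ⟨fun i l e => lget mz (lget [] (lget [] tabs i) l) e, oks, [(nat_lit 0), (nat_lit
 1), (nat_lit 0), (nat_lit 0)], T, (nat_lit 9007199254740991), (nat_lit 2287041271849359), (nat_lit 53),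
 [(nat_lit 11), (nat_lit 3303796230157)], [(nat_lit 2197), (nat_lit 1849)]⟩

/-- Nothing known. -/
noncomputable def cs0 : Cs := (.cons (nat_lit 13) (nat_lit 0) (nat_lit 1) (.cons (nat_lit 43) (nat_lit 0) (nat_lit 1) .nil))

theorem part_2 : part S cs0 (nat_lit 2) = true := by decide +kernel

theorem part_4 : part S cs0 (nat_lit 4) = true := by decide +kernel

theorem part_5 : part S cs0 (nat_lit 5) = true := by decide +kernel

/-- Data of a prime. -/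
noncomputable def D0 : PD := ⟨(nat_lit 13), (nat_lit 3), (963, 6, 3), (1541, 898, 2148), (848, 1279, 820)⟩

theorem D0_ok : D0.Ok := pdb_sound (s := 2) (C := ⟨⟨3, 18, -4, -17, 2, 1, 2, -1, -7⟩, (3, 9, 2)⟩) (by show Nat.Prime 13; norm_num) (by decide +kernel)

/-- Lines of the first type. -/
noncomputable def Cl0 : List C1 := [⟨⟨17, -2, -16, 3, 18, 1, -2, 1, -5⟩, (10, 1, 8)⟩,
  ⟨⟨3, -18, -4, -17, -2, 1, 2, 1, -7⟩, (5, 2, 12)⟩,
  ⟨⟨0, 0, 0, 0, 0, 0, 0, 0, 0⟩, (0, 0, 0)⟩,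
  ⟨⟨17, 2, -16, 3, -18, 1, -2, -1, -5⟩, (8, 6, 9)⟩,
  ⟨⟨0, 0, 0, 0, 0, 0, 0, 0, 0⟩, (0, 0, 0)⟩,
  ⟨⟨0, 0, 0, 0, 0, 0, 0, 0, 0⟩, (0, 0, 0)⟩,
  ⟨⟨0, 0, 0, 0, 0, 0, 0, 0, 0⟩, (0, 0, 0)⟩,
  ⟨⟨0, 0, 0, 0, 0, 0, 0, 0, 0⟩, (0, 0, 0)⟩,
  ⟨⟨0, 0, 0, 0, 0, 0, 0, 0, 0⟩, (0, 0, 0)⟩,
  ⟨⟨0, 0, 0, 0, 0, 0, 0, 0, 0⟩, (0, 0, 0)⟩,
  ⟨⟨0, 0, 0, 0, 0, 0, 0, 0, 0⟩, (0, 0, 0)⟩,
  ⟨⟨0, 0, 0, 0, 0, 0, 0, 0, 0⟩, (0, 0, 0)⟩,
  ⟨⟨0, 0, 0, 0, 0, 0, 0, 0, 0⟩, (0, 0, 0)⟩]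

/-- Data of a prime. -/
noncomputable def D1 : PD := ⟨(nat_lit 43), (nat_lit 2), (989, 1, 17), (1652, 774, 636), (172, 5, 130)⟩

theorem D1_ok : D1.Ok := pdb_sound (s := 1) (C := ⟨⟨43, -38, -44, 43, 38, 1, 0, 9, -19⟩, (5, 38, 9)⟩) (by show Nat.Prime 43; norm_num) (by decide +kernel)

/-- Lines of the first type. -/
noncomputable def Cl1 : List C1 := [⟨⟨43, 38, -44, 43, -38, 1, 0, -9, -19⟩, (42, 1, 24)⟩,
  ⟨⟨0, 0, 0, 0, 0, 0, 0, 0, 0⟩, (0, 0, 0)⟩,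
  ⟨⟨57, -18, -16, -17, -58, 1, 4, 1, -23⟩, (41, 27, 24)⟩,
  ⟨⟨7, -38, -56, -33, -42, 49, -16, 7, -1⟩, (28, 40, 22)⟩,
  ⟨⟨0, 0, 0, 0, 0, 0, 0, 0, 0⟩, (0, 0, 0)⟩,
  ⟨⟨0, 0, 0, 0, 0, 0, 0, 0, 0⟩, (0, 0, 0)⟩,
  ⟨⟨0, 0, 0, 0, 0, 0, 0, 0, 0⟩, (0, 0, 0)⟩,
  ⟨⟨0, 0, 0, 0, 0, 0, 0, 0, 0⟩, (0, 0, 0)⟩,
  ⟨⟨0, 0, 0, 0, 0, 0, 0, 0, 0⟩, (0, 0, 0)⟩,
  ⟨⟨0, 0, 0, 0, 0, 0, 0, 0, 0⟩, (0, 0, 0)⟩,
  ⟨⟨0, 0, 0, 0, 0, 0, 0, 0, 0⟩, (0, 0, 0)⟩,
  ⟨⟨27, -18, -71, -53, -22, 4, -4, 17, -7⟩, (6, 36, 23)⟩,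
  ⟨⟨0, 0, 0, 0, 0, 0, 0, 0, 0⟩, (0, 0, 0)⟩,
  ⟨⟨0, 0, 0, 0, 0, 0, 0, 0, 0⟩, (0, 0, 0)⟩,
  ⟨⟨-7, -2, -64, -47, -38, 31, 12, -15, -7⟩, (37, 15, 41)⟩,
  ⟨⟨-7, 2, -64, -47, 38, 31, 12, 15, -7⟩, (3, 14, 1)⟩,
  ⟨⟨-7, 38, -49, 33, 42, 16, 16, -7, -17⟩, (27, 14, 12)⟩,
  ⟨⟨0, 0, 0, 0, 0, 0, 0, 0, 0⟩, (0, 0, 0)⟩,
  ⟨⟨0, 0, 0, 0, 0, 0, 0, 0, 0⟩, (0, 0, 0)⟩,
  ⟨⟨57, 18, -16, -17, 58, 1, 4, -1, -23⟩, (36, 30, 41)⟩,
  ⟨⟨53, 22, -49, 27, -18, 44, 4, -17, -11⟩, (6, 42, 11)⟩,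
  ⟨⟨0, 0, 0, 0, 0, 0, 0, 0, 0⟩, (0, 0, 0)⟩,
  ⟨⟨0, 0, 0, 0, 0, 0, 0, 0, 0⟩, (0, 0, 0)⟩,
  ⟨⟨27, 18, -71, -53, 22, 4, -4, -17, -7⟩, (1, 6, 11)⟩,
  ⟨⟨57, -18, -41, -17, -58, 16, -4, -1, -19⟩, (7, 13, 41)⟩,
  ⟨⟨0, 0, 0, 0, 0, 0, 0, 0, 0⟩, (0, 0, 0)⟩,
  ⟨⟨0, 0, 0, 0, 0, 0, 0, 0, 0⟩, (0, 0, 0)⟩,
  ⟨⟨7, 38, -56, -33, 42, 49, -16, -7, -1⟩, (27, 14, 12)⟩,
  ⟨⟨7, 2, -71, -47, -38, 16, 12, -15, -5⟩, (3, 29, 42)⟩,
  ⟨⟨7, -2, -71, -47, 38, 16, 12, 15, -5⟩, (37, 28, 2)⟩,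
  ⟨⟨0, 0, 0, 0, 0, 0, 0, 0, 0⟩, (0, 0, 0)⟩,
  ⟨⟨0, 0, 0, 0, 0, 0, 0, 0, 0⟩, (0, 0, 0)⟩,
  ⟨⟨53, -22, -49, 27, 18, 44, 4, 17, -11⟩, (36, 37, 23)⟩,
  ⟨⟨0, 0, 0, 0, 0, 0, 0, 0, 0⟩, (0, 0, 0)⟩,
  ⟨⟨0, 0, 0, 0, 0, 0, 0, 0, 0⟩, (0, 0, 0)⟩,
  ⟨⟨0, 0, 0, 0, 0, 0, 0, 0, 0⟩, (0, 0, 0)⟩,
  ⟨⟨0, 0, 0, 0, 0, 0, 0, 0, 0⟩, (0, 0, 0)⟩,
  ⟨⟨0, 0, 0, 0, 0, 0, 0, 0, 0⟩, (0, 0, 0)⟩,
  ⟨⟨0, 0, 0, 0, 0, 0, 0, 0, 0⟩, (0, 0, 0)⟩,
  ⟨⟨0, 0, 0, 0, 0, 0, 0, 0, 0⟩, (0, 0, 0)⟩,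
  ⟨⟨-7, -38, -49, 33, -42, 16, 16, 7, -17⟩, (28, 40, 22)⟩,
  ⟨⟨57, 18, -41, -17, 58, 16, -4, 1, -19⟩, (2, 16, 24)⟩,
  ⟨⟨0, 0, 0, 0, 0, 0, 0, 0, 0⟩, (0, 0, 0)⟩]

/-- Data of a prime. -/
noncomputable def Dm : PD := ⟨(nat_lit 53), (nat_lit 2), (2545, 8, 14), (2610, 800, 1557), (1968, 957, 2439)⟩

theorem Dm_ok : Dm.Ok := pdb_sound (s := 12) (C := ⟨⟨-13, 2, -76, -47, -58, 31, 18, -15, -13⟩, (40, 6, 18)⟩) (by show Nat.Prime 53; norm_num) (by decide +kernel)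

/-- Lines of the first type. -/
noncomputable def Clm : List C1 := [⟨⟨13, -2, -89, -47, -58, 16, 18, -15, -5⟩, (17, 16, 48)⟩,
  ⟨⟨-23, 38, -56, 43, 58, 1, 18, -9, -23⟩, (9, 50, 16)⟩,
  ⟨⟨-23, -38, -56, 43, -58, 1, 18, 9, -23⟩, (18, 47, 32)⟩,
  ⟨⟨-13, -2, -76, -47, 58, 31, 18, 15, -13⟩, (20, 3, 9)⟩,
  ⟨⟨0, 0, 0, 0, 0, 0, 0, 0, 0⟩, (0, 0, 0)⟩,
  ⟨⟨0, 0, 0, 0, 0, 0, 0, 0, 0⟩, (0, 0, 0)⟩,
  ⟨⟨0, 0, 0, 0, 0, 0, 0, 0, 0⟩, (0, 0, 0)⟩,
  ⟨⟨23, -38, -79, -43, -58, 44, -18, 9, -5⟩, (29, 8, 28)⟩,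
  ⟨⟨33, -18, -89, 67, 2, 4, 2, 23, -7⟩, (12, 34, 20)⟩,
  ⟨⟨0, 0, 0, 0, 0, 0, 0, 0, 0⟩, (0, 0, 0)⟩,
  ⟨⟨0, 0, 0, 0, 0, 0, 0, 0, 0⟩, (0, 0, 0)⟩,
  ⟨⟨0, 0, 0, 0, 0, 0, 0, 0, 0⟩, (0, 0, 0)⟩,
  ⟨⟨0, 0, 0, 0, 0, 0, 0, 0, 0⟩, (0, 0, 0)⟩,
  ⟨⟨27, 42, -76, 7, 58, 49, 22, -7, -5⟩, (1, 14, 44)⟩,
  ⟨⟨33, 18, -89, 67, -2, 4, 2, -23, -7⟩, (44, 1, 38)⟩,
  ⟨⟨0, 0, 0, 0, 0, 0, 0, 0, 0⟩, (0, 0, 0)⟩,
  ⟨⟨0, 0, 0, 0, 0, 0, 0, 0, 0⟩, (0, 0, 0)⟩,
  ⟨⟨0, 0, 0, 0, 0, 0, 0, 0, 0⟩, (0, 0, 0)⟩,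
  ⟨⟨0, 0, 0, 0, 0, 0, 0, 0, 0⟩, (0, 0, 0)⟩,
  ⟨⟨57, 42, -56, -37, 62, 41, -10, 1, -19⟩, (20, 27, 3)⟩,
  ⟨⟨13, 2, -89, -47, 58, 16, 18, 15, -5⟩, (50, 19, 4)⟩,
  ⟨⟨0, 0, 0, 0, 0, 0, 0, 0, 0⟩, (0, 0, 0)⟩,
  ⟨⟨0, 0, 0, 0, 0, 0, 0, 0, 0⟩, (0, 0, 0)⟩,
  ⟨⟨57, -42, -56, -37, -62, 41, -10, -1, -19⟩, (16, 11, 13)⟩,
  ⟨⟨0, 0, 0, 0, 0, 0, 0, 0, 0⟩, (0, 0, 0)⟩,
  ⟨⟨7, 58, -56, 27, 42, 49, 22, -7, -17⟩, (20, 9, 25)⟩,
  ⟨⟨0, 0, 0, 0, 0, 0, 0, 0, 0⟩, (0, 0, 0)⟩,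
  ⟨⟨67, -2, -71, 33, 18, 56, -2, 23, -5⟩, (28, 13, 49)⟩,
  ⟨⟨0, 0, 0, 0, 0, 0, 0, 0, 0⟩, (0, 0, 0)⟩,
  ⟨⟨0, 0, 0, 0, 0, 0, 0, 0, 0⟩, (0, 0, 0)⟩,
  ⟨⟨23, 38, -79, -43, 58, 44, -18, -9, -5⟩, (20, 11, 12)⟩,
  ⟨⟨0, 0, 0, 0, 0, 0, 0, 0, 0⟩, (0, 0, 0)⟩,
  ⟨⟨7, -58, -56, 27, -42, 49, 22, 7, -17⟩, (17, 5, 8)⟩,
  ⟨⟨0, 0, 0, 0, 0, 0, 0, 0, 0⟩, (0, 0, 0)⟩,
  ⟨⟨67, 2, -71, 33, -18, 56, -2, -23, -5⟩, (8, 34, 14)⟩,
  ⟨⟨27, -42, -76, 7, -58, 49, 22, 7, -5⟩, (50, 11, 27)⟩,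
  ⟨⟨0, 0, 0, 0, 0, 0, 0, 0, 0⟩, (0, 0, 0)⟩,
  ⟨⟨0, 0, 0, 0, 0, 0, 0, 0, 0⟩, (0, 0, 0)⟩,
  ⟨⟨0, 0, 0, 0, 0, 0, 0, 0, 0⟩, (0, 0, 0)⟩,
  ⟨⟨0, 0, 0, 0, 0, 0, 0, 0, 0⟩, (0, 0, 0)⟩,
  ⟨⟨0, 0, 0, 0, 0, 0, 0, 0, 0⟩, (0, 0, 0)⟩,
  ⟨⟨0, 0, 0, 0, 0, 0, 0, 0, 0⟩, (0, 0, 0)⟩,
  ⟨⟨0, 0, 0, 0, 0, 0, 0, 0, 0⟩, (0, 0, 0)⟩,
  ⟨⟨0, 0, 0, 0, 0, 0, 0, 0, 0⟩, (0, 0, 0)⟩,
  ⟨⟨0, 0, 0, 0, 0, 0, 0, 0, 0⟩, (0, 0, 0)⟩,
  ⟨⟨-37, 62, -4, -57, -42, 1, 10, -1, -29⟩, (22, 21, 27)⟩,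
  ⟨⟨0, 0, 0, 0, 0, 0, 0, 0, 0⟩, (0, 0, 0)⟩,
  ⟨⟨0, 0, 0, 0, 0, 0, 0, 0, 0⟩, (0, 0, 0)⟩,
  ⟨⟨0, 0, 0, 0, 0, 0, 0, 0, 0⟩, (0, 0, 0)⟩,
  ⟨⟨0, 0, 0, 0, 0, 0, 0, 0, 0⟩, (0, 0, 0)⟩,
  ⟨⟨0, 0, 0, 0, 0, 0, 0, 0, 0⟩, (0, 0, 0)⟩,
  ⟨⟨-37, -62, -4, -57, 42, 1, 10, 1, -29⟩, (6, 25, 17)⟩,
  ⟨⟨0, 0, 0, 0, 0, 0, 0, 0, 0⟩, (0, 0, 0)⟩]

/-- Unit moves. -/
noncomputable def U : List Mv := [mz,
  mz,
  mz,
  mz,
  mz,
  mz,
  ⟨⟨-1, 0, 1, 0, 1, 0, 0, 0, 1⟩, .nil, (nat_lit 12), (nat_lit 1), (nat_lit 4), (nat_lit 1), (0, 0, 0), [], 5⟩,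
  ⟨⟨1, 0, 0, 0, -1, 0, 0, 0, 1⟩, .nil, (nat_lit 12), (nat_lit 3), (nat_lit 12), (nat_lit 1), (0, 0, 0), [], 11⟩,
  ⟨⟨-1, 0, 1, 0, -1, 0, 0, 0, 1⟩, .nil, (nat_lit 0), (nat_lit 3), (nat_lit 1), (nat_lit 0), (0, 0, 0), [], 10⟩,
  ⟨⟨1, 0, 0, 0, -1, 0, 0, 0, 1⟩, .nil, (nat_lit 12), (nat_lit 3), (nat_lit 12), (nat_lit 1), (0, 0, 0), [], 11⟩,
  ⟨⟨-1, 0, 1, 0, 1, 0, 0, 0, 1⟩, .nil, (nat_lit 12), (nat_lit 1), (nat_lit 4), (nat_lit 1), (0, 0, 0), [], 5⟩,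
  ⟨⟨-1, 0, 1, 0, -1, 0, 0, 0, 1⟩, .nil, (nat_lit 0), (nat_lit 3), (nat_lit 1), (nat_lit 0), (0, 0, 0), [], 10⟩,
  ⟨⟨1, 0, 0, 0, -1, 0, 0, 0, 1⟩, .nil, (nat_lit 12), (nat_lit 3), (nat_lit 12), (nat_lit 1), (0, 0, 0), [], 11⟩]

theorem v_ty : tyb Dm S.ty1 Clm = true := by decide +kernel

theorem v_ty0 : tyb D0 (S.tys.getD 0 0) Cl0 = true := by decide +kernel

theorem v_ty1 : tyb D1 (S.tys.getD 1 0) Cl1 = true := by decide +kernel

theorem v_msc : mscb S D0 [D1] Dm (nat_lit 52) = true := by decide +kernel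

theorem v_mv0 : mvsn (nat_lit 11410868677) S D0 [D1] Dm (nat_lit 52) 0 D0 = true := by decide +kernel

theorem v_mv1 : mvsn (nat_lit 11410868677) S D0 [D1] Dm (nat_lit 52) 1 D1 = true := by decide +kernel

theorem v_mm : mmsn (nat_lit 11410868677) S D0 [D1] Dm (nat_lit 52) = true := by decide +kernel

theorem v_un : unb S D0 (nat_lit 52) U = true := by decide +kernel

theorem v_ok : okb S.oks [(0, 0, 0), (0, 0, 0)] = true := by decide +kernel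

theorem v_part : ∀ d < D0.p, (nat_lit 52).testBit d = true → part S (zc (D0 :: [D1])) d = true := by
  intro d hd h
  have h1 : ∀ d < 13, (nat_lit 52).testBit d = true → d = 2 ∨ d = 4 ∨ d = 5 := by decide
  rcases h1 d hd h with rfl | rfl | rfl
  · exact part_2
  · exact part_4
  · exact part_5

theorem main (n : ℕ) (ho : Odd n) (hr : ¬ Rep n) (h0 : Split 13 n) (h1 : Split 43 n) (hm : Split 53 n) :
    n ∈ EE := by
  refine concln (W := nat_lit 11410868677) (S := S) (P0 := D0) (Pl := [D1]) (Pm := Dm) (cn := nat_lit 52) ?_ Dm_ok v_ty ?_ ?_ v_msc ?_ v_mm v_un v_part v_ok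
    n ho hr ?_ hm
  · simp only [List.forall_mem_cons]
    exact ⟨D0_ok, D1_ok, fun _ h => absurd h (by simp)⟩
  · exact all2 (φ := fun j P => ∃ L, tyb P (S.tys.getD j 0) L = true) ⟨_, v_ty0⟩ ⟨_, v_ty1⟩
  · exact all2 (φ := fun j P => Nat.ble (S.pks.getD j 0) (Nat.pow P.p P.K) = true) (by decide +kernel) (by decide +kernel)
  · exact all2 (φ := fun i P => mvsn (nat_lit 11410868677) S D0 [D1] Dm (nat_lit 52) i P = true) v_mv0 v_mv1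
  · simp only [List.forall_mem_cons]
    exact ⟨h0, h1, fun _ h => absurd h (by simp)⟩

end Pool.Agent.Work.MP_9954fe_nt.P13_43_53

namespace Pool.Agent.Work.MP_9954fe_nt.P19_17

/-- Dummy move. -/
noncomputable def mz : Mv := ⟨⟨0, 0, 0, 0, 0, 0, 0, 0, 0⟩, .nil, (nat_lit 0), (nat_lit 0), (nat_lit 0), (nat_lit 0), (0, 0, 0), [], 0⟩

/-- Moves. -/
noncomputable def t0_1 : List Mv := [
  ⟨⟨15, -4, -23, -10, 9, -10, 12, 12, -7⟩, (.cons (nat_lit 2704) (nat_lit 4284) (nat_lit 599) (nat_lit 1) .nil), (nat_lit 0), (nat_lit 10), (nat_lit 5), (nat_lit 1), (18, 7, 3), [1854], 2⟩,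
  ⟨⟨15, -4, -23, 10, -9, 10, 12, 12, -7⟩, (.cons (nat_lit 2844) (nat_lit 6430) (nat_lit 1) (nat_lit 3439) .nil), (nat_lit 3), (nat_lit 7), (nat_lit 7), (nat_lit 1), (18, 12, 3), [6848], 7⟩,
  ⟨⟨15, -4, -23, -10, 9, -10, 12, 12, -7⟩, (.cons (nat_lit 2704) (nat_lit 4284) (nat_lit 599) (nat_lit 1) .nil), (nat_lit 0), (nat_lit 10), (nat_lit 5), (nat_lit 1), (18, 7, 3), [1854], 2⟩,
  ⟨⟨15, -4, -23, -10, 9, -10, 12, 12, -7⟩, (.cons (nat_lit 2704) (nat_lit 4284) (nat_lit 599) (nat_lit 1) .nil), (nat_lit 0), (nat_lit 10), (nat_lit 5), (nat_lit 1), (18, 7, 3), [1854], 2⟩,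
  ⟨⟨-3, 16, 16, 10, -9, 10, 12, 12, -7⟩, (.cons (nat_lit 3484) (nat_lit 2313) (nat_lit 3503) (nat_lit 1) .nil), (nat_lit 16), (nat_lit 10), (nat_lit 0), (nat_lit 1), (4, 12, 3), [1524], 15⟩,
  ⟨⟨15, -4, -23, -10, 9, -10, 12, 12, -7⟩, (.cons (nat_lit 2704) (nat_lit 4284) (nat_lit 599) (nat_lit 1) .nil), (nat_lit 0), (nat_lit 10), (nat_lit 5), (nat_lit 1), (18, 7, 3), [1854], 2⟩,
  ⟨⟨15, -4, -23, 10, -9, 10, 12, 12, -7⟩, (.cons (nat_lit 2844) (nat_lit 6430) (nat_lit 1) (nat_lit 3439) .nil), (nat_lit 3), (nat_lit 7), (nat_lit 7), (nat_lit 1), (18, 12, 3), [6848], 7⟩,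
  ⟨⟨-3, 16, 16, -10, 9, -10, 12, 12, -7⟩, (.cons (nat_lit 1018) (nat_lit 3686) (nat_lit 555) (nat_lit 1) .nil), (nat_lit 15), (nat_lit 7), (nat_lit 15), (nat_lit 1), (4, 7, 3), [730], 10⟩,
  ⟨⟨15, -4, -23, -10, 9, -10, 12, 12, -7⟩, (.cons (nat_lit 2704) (nat_lit 4284) (nat_lit 599) (nat_lit 1) .nil), (nat_lit 0), (nat_lit 10), (nat_lit 5), (nat_lit 1), (18, 7, 3), [1854], 2⟩,
  ⟨⟨15, -4, -23, -10, 9, -10, 12, 12, -7⟩, (.cons (nat_lit 2704) (nat_lit 4284) (nat_lit 599) (nat_lit 1) .nil), (nat_lit 0), (nat_lit 10), (nat_lit 5), (nat_lit 1), (18, 7, 3), [1854], 2⟩,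
  ⟨⟨15, -4, -23, -10, 9, -10, 12, 12, -7⟩, (.cons (nat_lit 2704) (nat_lit 4284) (nat_lit 599) (nat_lit 1) .nil), (nat_lit 0), (nat_lit 10), (nat_lit 5), (nat_lit 1), (18, 7, 3), [1854], 2⟩,
  ⟨⟨-3, 16, 16, -10, 9, -10, 12, 12, -7⟩, (.cons (nat_lit 1018) (nat_lit 3686) (nat_lit 555) (nat_lit 1) .nil), (nat_lit 15), (nat_lit 7), (nat_lit 15), (nat_lit 1), (4, 7, 3), [730], 10⟩,
  ⟨⟨15, -4, -23, 10, -9, 10, 12, 12, -7⟩, (.cons (nat_lit 2844) (nat_lit 6430) (nat_lit 1) (nat_lit 3439) .nil), (nat_lit 3), (nat_lit 7), (nat_lit 7), (nat_lit 1), (18, 12, 3), [6848], 7⟩,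
  ⟨⟨15, -4, -23, -10, 9, -10, 12, 12, -7⟩, (.cons (nat_lit 2704) (nat_lit 4284) (nat_lit 599) (nat_lit 1) .nil), (nat_lit 0), (nat_lit 10), (nat_lit 5), (nat_lit 1), (18, 7, 3), [1854], 2⟩,
  ⟨⟨15, -4, -23, -10, 9, -10, 12, 12, -7⟩, (.cons (nat_lit 2704) (nat_lit 4284) (nat_lit 599) (nat_lit 1) .nil), (nat_lit 0), (nat_lit 10), (nat_lit 5), (nat_lit 1), (18, 7, 3), [1854], 2⟩,
  ⟨⟨-3, 16, 16, -10, 9, -10, 12, 12, -7⟩, (.cons (nat_lit 1018) (nat_lit 3686) (nat_lit 555) (nat_lit 1) .nil), (nat_lit 15), (nat_lit 7), (nat_lit 15), (nat_lit 1), (4, 7, 3), [730], 10⟩,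
  ⟨⟨15, -4, -23, -10, 9, -10, 12, 12, -7⟩, (.cons (nat_lit 2704) (nat_lit 4284) (nat_lit 599) (nat_lit 1) .nil), (nat_lit 0), (nat_lit 10), (nat_lit 5), (nat_lit 1), (18, 7, 3), [1854], 2⟩,
  ⟨⟨15, -4, -23, -10, 9, -10, 12, 12, -7⟩, (.cons (nat_lit 2704) (nat_lit 4284) (nat_lit 599) (nat_lit 1) .nil), (nat_lit 0), (nat_lit 10), (nat_lit 5), (nat_lit 1), (18, 7, 3), [1854], 2⟩,
  ⟨⟨-3, 16, 16, 10, -9, 10, 12, 12, -7⟩, (.cons (nat_lit 3484) (nat_lit 2313) (nat_lit 3503) (nat_lit 1) .nil), (nat_lit 16), (nat_lit 10), (nat_lit 0), (nat_lit 1), (4, 12, 3), [1524], 15⟩]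

/-- Moves. -/
noncomputable def t0_2 : List Mv := [
  ⟨⟨-11, 12, 20, 16, 5, 2, -2, 16, -5⟩, (.cons (nat_lit 4824) (nat_lit 515) (nat_lit 4935) (nat_lit 1) .nil), (nat_lit 4), (nat_lit 6), (nat_lit 6), (nat_lit 1), (15, 11, 1), [1129], 4⟩,
  ⟨⟨9, 4, -25, -16, -5, -2, -2, 16, -5⟩, (.cons (nat_lit 3523) (nat_lit 4623) (nat_lit 626) (nat_lit 1) .nil), (nat_lit 15), (nat_lit 11), (nat_lit 12), (nat_lit 1), (5, 8, 1), [4023], 4⟩,
  ⟨⟨9, 4, -25, 16, 5, 2, -2, 16, -5⟩, (.cons (nat_lit 1758) (nat_lit 6674) (nat_lit 1679) (nat_lit 1) .nil), (nat_lit 9), (nat_lit 3), (nat_lit 2), (nat_lit 1), (5, 11, 1), [3141], 11⟩,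
  ⟨⟨9, 4, -25, -16, -5, -2, -2, 16, -5⟩, (.cons (nat_lit 3523) (nat_lit 4623) (nat_lit 626) (nat_lit 1) .nil), (nat_lit 15), (nat_lit 11), (nat_lit 12), (nat_lit 1), (5, 8, 1), [4023], 4⟩,
  ⟨⟨9, 4, -25, -16, -5, -2, -2, 16, -5⟩, (.cons (nat_lit 3523) (nat_lit 4623) (nat_lit 626) (nat_lit 1) .nil), (nat_lit 15), (nat_lit 11), (nat_lit 12), (nat_lit 1), (5, 8, 1), [4023], 4⟩,
  ⟨⟨9, 4, -25, 16, 5, 2, -2, 16, -5⟩, (.cons (nat_lit 1758) (nat_lit 6674) (nat_lit 1679) (nat_lit 1) .nil), (nat_lit 9), (nat_lit 3), (nat_lit 2), (nat_lit 1), (5, 11, 1), [3141], 11⟩,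
  ⟨⟨-11, 12, 20, 16, 5, 2, -2, 16, -5⟩, (.cons (nat_lit 4824) (nat_lit 515) (nat_lit 4935) (nat_lit 1) .nil), (nat_lit 4), (nat_lit 6), (nat_lit 6), (nat_lit 1), (15, 11, 1), [1129], 4⟩,
  ⟨⟨-11, 12, 20, -16, -5, -2, -2, 16, -5⟩, (.cons (nat_lit 830) (nat_lit 6090) (nat_lit 5835) (nat_lit 1) .nil), (nat_lit 10), (nat_lit 5), (nat_lit 3), (nat_lit 1), (15, 8, 1), [4700], 10⟩,
  ⟨⟨9, 4, -25, -16, -5, -2, -2, 16, -5⟩, (.cons (nat_lit 3523) (nat_lit 4623) (nat_lit 626) (nat_lit 1) .nil), (nat_lit 15), (nat_lit 11), (nat_lit 12), (nat_lit 1), (5, 8, 1), [4023], 4⟩,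
  ⟨⟨9, 4, -25, -16, -5, -2, -2, 16, -5⟩, (.cons (nat_lit 3523) (nat_lit 4623) (nat_lit 626) (nat_lit 1) .nil), (nat_lit 15), (nat_lit 11), (nat_lit 12), (nat_lit 1), (5, 8, 1), [4023], 4⟩,
  ⟨⟨9, 4, -25, -16, -5, -2, -2, 16, -5⟩, (.cons (nat_lit 3523) (nat_lit 4623) (nat_lit 626) (nat_lit 1) .nil), (nat_lit 15), (nat_lit 11), (nat_lit 12), (nat_lit 1), (5, 8, 1), [4023], 4⟩,
  ⟨⟨9, 4, -25, -16, -5, -2, -2, 16, -5⟩, (.cons (nat_lit 3523) (nat_lit 4623) (nat_lit 626) (nat_lit 1) .nil), (nat_lit 15), (nat_lit 11), (nat_lit 12), (nat_lit 1), (5, 8, 1), [4023], 4⟩,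
  ⟨⟨9, 4, -25, -16, -5, -2, -2, 16, -5⟩, (.cons (nat_lit 3523) (nat_lit 4623) (nat_lit 626) (nat_lit 1) .nil), (nat_lit 15), (nat_lit 11), (nat_lit 12), (nat_lit 1), (5, 8, 1), [4023], 4⟩,
  ⟨⟨-11, 12, 20, -16, -5, -2, -2, 16, -5⟩, (.cons (nat_lit 830) (nat_lit 6090) (nat_lit 5835) (nat_lit 1) .nil), (nat_lit 10), (nat_lit 5), (nat_lit 3), (nat_lit 1), (15, 8, 1), [4700], 10⟩,
  ⟨⟨9, 4, -25, -16, -5, -2, -2, 16, -5⟩, (.cons (nat_lit 3523) (nat_lit 4623) (nat_lit 626) (nat_lit 1) .nil), (nat_lit 15), (nat_lit 11), (nat_lit 12), (nat_lit 1), (5, 8, 1), [4023], 4⟩,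
  ⟨⟨9, 4, -25, 16, 5, 2, -2, 16, -5⟩, (.cons (nat_lit 1758) (nat_lit 6674) (nat_lit 1679) (nat_lit 1) .nil), (nat_lit 9), (nat_lit 3), (nat_lit 2), (nat_lit 1), (5, 11, 1), [3141], 11⟩,
  ⟨⟨-11, 12, 20, -16, -5, -2, -2, 16, -5⟩, (.cons (nat_lit 830) (nat_lit 6090) (nat_lit 5835) (nat_lit 1) .nil), (nat_lit 10), (nat_lit 5), (nat_lit 3), (nat_lit 1), (15, 8, 1), [4700], 10⟩,
  ⟨⟨9, 4, -25, -16, -5, -2, -2, 16, -5⟩, (.cons (nat_lit 3523) (nat_lit 4623) (nat_lit 626) (nat_lit 1) .nil), (nat_lit 15), (nat_lit 11), (nat_lit 12), (nat_lit 1), (5, 8, 1), [4023], 4⟩,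
  ⟨⟨9, 4, -25, -16, -5, -2, -2, 16, -5⟩, (.cons (nat_lit 3523) (nat_lit 4623) (nat_lit 626) (nat_lit 1) .nil), (nat_lit 15), (nat_lit 11), (nat_lit 12), (nat_lit 1), (5, 8, 1), [4023], 4⟩]

/-- Moves. -/
noncomputable def t0_8 : List Mv := [
  ⟨⟨17, -12, -9, -4, -5, -18, 14, 8, -13⟩, (.cons (nat_lit 5482) (nat_lit 4807) (nat_lit 6848) (nat_lit 1) .nil), (nat_lit 15), (nat_lit 7), (nat_lit 14), (nat_lit 1), (9, 18, 13), [3487], 4⟩,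
  ⟨⟨17, -12, -9, -4, -5, -18, 14, 8, -13⟩, (.cons (nat_lit 5482) (nat_lit 4807) (nat_lit 6848) (nat_lit 1) .nil), (nat_lit 15), (nat_lit 7), (nat_lit 14), (nat_lit 1), (9, 18, 13), [3487], 4⟩,
  ⟨⟨17, -12, -9, -4, -5, -18, 14, 8, -13⟩, (.cons (nat_lit 5482) (nat_lit 4807) (nat_lit 6848) (nat_lit 1) .nil), (nat_lit 15), (nat_lit 7), (nat_lit 14), (nat_lit 1), (9, 18, 13), [3487], 4⟩,
  ⟨⟨-3, 20, -4, -4, -5, -18, 14, 8, -13⟩, (.cons (nat_lit 2266) (nat_lit 1073) (nat_lit 5235) (nat_lit 1) .nil), (nat_lit 13), (nat_lit 10), (nat_lit 1), (nat_lit 1), (4, 18, 13), [4227], 11⟩,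
  ⟨⟨-3, 20, -4, 4, 5, 18, 14, 8, -13⟩, (.cons (nat_lit 5132) (nat_lit 2304) (nat_lit 1) (nat_lit 6783) .nil), (nat_lit 13), (nat_lit 7), (nat_lit 7), (nat_lit 1), (4, 1, 13), [5486], 13⟩,
  ⟨⟨17, -12, -9, -4, -5, -18, 14, 8, -13⟩, (.cons (nat_lit 5482) (nat_lit 4807) (nat_lit 6848) (nat_lit 1) .nil), (nat_lit 15), (nat_lit 7), (nat_lit 14), (nat_lit 1), (9, 18, 13), [3487], 4⟩,
  ⟨⟨17, -12, -9, -4, -5, -18, 14, 8, -13⟩, (.cons (nat_lit 5482) (nat_lit 4807) (nat_lit 6848) (nat_lit 1) .nil), (nat_lit 15), (nat_lit 7), (nat_lit 14), (nat_lit 1), (9, 18, 13), [3487], 4⟩,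
  ⟨⟨17, -12, -9, -4, -5, -18, 14, 8, -13⟩, (.cons (nat_lit 5482) (nat_lit 4807) (nat_lit 6848) (nat_lit 1) .nil), (nat_lit 15), (nat_lit 7), (nat_lit 14), (nat_lit 1), (9, 18, 13), [3487], 4⟩,
  ⟨⟨17, -12, -9, 4, 5, 18, 14, 8, -13⟩, (.cons (nat_lit 1356) (nat_lit 6265) (nat_lit 1738) (nat_lit 1) .nil), (nat_lit 10), (nat_lit 10), (nat_lit 3), (nat_lit 1), (9, 1, 13), [1981], 6⟩,
  ⟨⟨17, -12, -9, -4, -5, -18, 14, 8, -13⟩, (.cons (nat_lit 5482) (nat_lit 4807) (nat_lit 6848) (nat_lit 1) .nil), (nat_lit 15), (nat_lit 7), (nat_lit 14), (nat_lit 1), (9, 18, 13), [3487], 4⟩,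
  ⟨⟨17, -12, -9, -4, -5, -18, 14, 8, -13⟩, (.cons (nat_lit 5482) (nat_lit 4807) (nat_lit 6848) (nat_lit 1) .nil), (nat_lit 15), (nat_lit 7), (nat_lit 14), (nat_lit 1), (9, 18, 13), [3487], 4⟩,
  ⟨⟨17, -12, -9, -4, -5, -18, 14, 8, -13⟩, (.cons (nat_lit 5482) (nat_lit 4807) (nat_lit 6848) (nat_lit 1) .nil), (nat_lit 15), (nat_lit 7), (nat_lit 14), (nat_lit 1), (9, 18, 13), [3487], 4⟩,
  ⟨⟨17, -12, -9, -4, -5, -18, 14, 8, -13⟩, (.cons (nat_lit 5482) (nat_lit 4807) (nat_lit 6848) (nat_lit 1) .nil), (nat_lit 15), (nat_lit 7), (nat_lit 14), (nat_lit 1), (9, 18, 13), [3487], 4⟩,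
  ⟨⟨-3, 20, -4, -4, -5, -18, 14, 8, -13⟩, (.cons (nat_lit 2266) (nat_lit 1073) (nat_lit 5235) (nat_lit 1) .nil), (nat_lit 13), (nat_lit 10), (nat_lit 1), (nat_lit 1), (4, 18, 13), [4227], 11⟩,
  ⟨⟨-3, 20, -4, 4, 5, 18, 14, 8, -13⟩, (.cons (nat_lit 5132) (nat_lit 2304) (nat_lit 1) (nat_lit 6783) .nil), (nat_lit 13), (nat_lit 7), (nat_lit 7), (nat_lit 1), (4, 1, 13), [5486], 13⟩,
  ⟨⟨17, -12, -9, 4, 5, 18, 14, 8, -13⟩, (.cons (nat_lit 1356) (nat_lit 6265) (nat_lit 1738) (nat_lit 1) .nil), (nat_lit 10), (nat_lit 10), (nat_lit 3), (nat_lit 1), (9, 1, 13), [1981], 6⟩,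
  ⟨⟨17, -12, -9, 4, 5, 18, 14, 8, -13⟩, (.cons (nat_lit 1356) (nat_lit 6265) (nat_lit 1738) (nat_lit 1) .nil), (nat_lit 10), (nat_lit 10), (nat_lit 3), (nat_lit 1), (9, 1, 13), [1981], 6⟩,
  ⟨⟨17, -12, -9, -4, -5, -18, 14, 8, -13⟩, (.cons (nat_lit 5482) (nat_lit 4807) (nat_lit 6848) (nat_lit 1) .nil), (nat_lit 15), (nat_lit 7), (nat_lit 14), (nat_lit 1), (9, 18, 13), [3487], 4⟩,
  ⟨⟨-3, 20, -4, -4, -5, -18, 14, 8, -13⟩, (.cons (nat_lit 2266) (nat_lit 1073) (nat_lit 5235) (nat_lit 1) .nil), (nat_lit 13), (nat_lit 10), (nat_lit 1), (nat_lit 1), (4, 18, 13), [4227], 11⟩]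

/-- Moves. -/
noncomputable def t4_1 : List Mv := [
  mz,
  mz,
  mz,
  ⟨⟨-3, 8, -17, -10, -13, 0, 10, -4, -17⟩, (.cons (nat_lit 3804) (nat_lit 177) (nat_lit 441) (nat_lit 1) .nil), (nat_lit 6), (nat_lit 0), (nat_lit 0), (nat_lit 0), (7, 12, 5), [245], 0⟩,
  mz,
  ⟨⟨3, -8, -20, -10, -13, 10, -10, 4, -7⟩, (.cons (nat_lit 6858) (nat_lit 5926) (nat_lit 6437) (nat_lit 1) .nil), (nat_lit 5), (nat_lit 0), (nat_lit 0), (nat_lit 0), (6, 14, 14), [1025], 0⟩,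
  ⟨⟨-13, -12, 13, 10, -13, -10, -10, -4, -7⟩, (.cons (nat_lit 4185) (nat_lit 27) (nat_lit 6345) (nat_lit 1) .nil), (nat_lit 3), (nat_lit 0), (nat_lit 0), (nat_lit 0), (3, 16, 1), [1584], 0⟩,
  ⟨⟨-15, 8, -1, -8, -15, 4, 0, 0, -17⟩, (.cons (nat_lit 2338) (nat_lit 5075) (nat_lit 1422) (nat_lit 1) .nil), (nat_lit 10), (nat_lit 0), (nat_lit 0), (nat_lit 0), (10, 11, 0), [4384], 0⟩,
  mz,
  ⟨⟨9, -16, -1, 10, 3, -20, -6, -12, -5⟩, (.cons (nat_lit 5127) (nat_lit 5079) (nat_lit 2507) (nat_lit 1) .nil), (nat_lit 14), (nat_lit 0), (nat_lit 0), (nat_lit 0), (2, 6, 10), [728], 0⟩,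
  ⟨⟨15, 8, -16, 8, -15, -4, 0, 0, -17⟩, (.cons (nat_lit 6858) (nat_lit 1494) (nat_lit 5338) (nat_lit 1) .nil), (nat_lit 10), (nat_lit 0), (nat_lit 0), (nat_lit 0), (16, 4, 0), [453], 0⟩,
  ⟨⟨13, 12, 0, -10, 13, 0, 10, 4, -17⟩, (.cons (nat_lit 4401) (nat_lit 5885) (nat_lit 2861) (nat_lit 1) .nil), (nat_lit 3), (nat_lit 0), (nat_lit 0), (nat_lit 0), (3, 16, 1), [3307], 0⟩,
  ⟨⟨9, 16, -1, 10, -3, -20, -6, 12, -5⟩, (.cons (nat_lit 2767) (nat_lit 6853) (nat_lit 542) (nat_lit 1) .nil), (nat_lit 14), (nat_lit 0), (nat_lit 0), (nat_lit 0), (3, 9, 15), [6297], 0⟩,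
  ⟨⟨-9, 16, 8, -10, -3, -10, 6, 12, -11⟩, (.cons (nat_lit 484) (nat_lit 5323) (nat_lit 3602) (nat_lit 1) .nil), (nat_lit 14), (nat_lit 0), (nat_lit 0), (nat_lit 0), (13, 5, 14), [674], 0⟩,
  ⟨⟨-9, -16, 8, 10, -3, 10, 6, -12, -11⟩, (.cons (nat_lit 6363) (nat_lit 6352) (nat_lit 3252) (nat_lit 1) .nil), (nat_lit 13), (nat_lit 0), (nat_lit 0), (nat_lit 0), (12, 15, 9), [5318], 0⟩]

/-- Moves. -/
noncomputable def t4_2 : List Mv := [
  mz,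
  mz,
  mz,
  ⟨⟨-3, 8, -17, 10, 13, 0, 10, -4, -17⟩, (.cons (nat_lit 5362) (nat_lit 5382) (nat_lit 3228) (nat_lit 1) .nil), (nat_lit 5), (nat_lit 0), (nat_lit 0), (nat_lit 0), (7, 5, 5), [1036], 0⟩,
  mz,
  ⟨⟨-13, 12, 13, 10, 13, -10, -10, 4, -7⟩, (.cons (nat_lit 252) (nat_lit 1818) (nat_lit 2765) (nat_lit 1) .nil), (nat_lit 3), (nat_lit 0), (nat_lit 0), (nat_lit 0), (8, 3, 14), [5475], 0⟩,
  ⟨⟨-13, -12, 13, 10, -13, -10, -10, -4, -7⟩, (.cons (nat_lit 4185) (nat_lit 27) (nat_lit 6345) (nat_lit 1) .nil), (nat_lit 3), (nat_lit 0), (nat_lit 0), (nat_lit 0), (3, 16, 1), [1584], 0⟩,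
  ⟨⟨15, -8, -16, 8, 15, -4, 0, 0, -17⟩, (.cons (nat_lit 2319) (nat_lit 5744) (nat_lit 6033) (nat_lit 1) .nil), (nat_lit 10), (nat_lit 0), (nat_lit 0), (nat_lit 0), (7, 6, 0), [6323], 0⟩,
  mz,
  ⟨⟨9, -16, -1, 10, 3, -20, -6, -12, -5⟩, (.cons (nat_lit 5127) (nat_lit 5079) (nat_lit 2507) (nat_lit 1) .nil), (nat_lit 14), (nat_lit 0), (nat_lit 0), (nat_lit 0), (2, 6, 10), [728], 0⟩,
  ⟨⟨15, 8, -16, 8, -15, -4, 0, 0, -17⟩, (.cons (nat_lit 6858) (nat_lit 1494) (nat_lit 5338) (nat_lit 1) .nil), (nat_lit 10), (nat_lit 0), (nat_lit 0), (nat_lit 0), (16, 4, 0), [453], 0⟩,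
  ⟨⟨13, 12, 0, -10, 13, 0, 10, 4, -17⟩, (.cons (nat_lit 4401) (nat_lit 5885) (nat_lit 2861) (nat_lit 1) .nil), (nat_lit 3), (nat_lit 0), (nat_lit 0), (nat_lit 0), (3, 16, 1), [3307], 0⟩,
  ⟨⟨9, 16, -1, 10, -3, -20, -6, 12, -5⟩, (.cons (nat_lit 2767) (nat_lit 6853) (nat_lit 542) (nat_lit 1) .nil), (nat_lit 14), (nat_lit 0), (nat_lit 0), (nat_lit 0), (3, 9, 15), [6297], 0⟩,
  ⟨⟨-9, 16, 8, 10, 3, 10, 6, 12, -11⟩, (.cons (nat_lit 6858) (nat_lit 1641) (nat_lit 4290) (nat_lit 1) .nil), (nat_lit 13), (nat_lit 0), (nat_lit 0), (nat_lit 0), (13, 12, 14), [4544], 0⟩,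
  ⟨⟨-9, -16, 8, -10, 3, -10, 6, -12, -11⟩, (.cons (nat_lit 6858) (nat_lit 1601) (nat_lit 2410) (nat_lit 1) .nil), (nat_lit 14), (nat_lit 0), (nat_lit 0), (nat_lit 0), (12, 2, 9), [6489], 0⟩]

/-- Moves. -/
noncomputable def t4_8 : List Mv := [
  mz,
  mz,
  mz,
  ⟨⟨13, -12, 0, -10, -13, 0, 10, -4, -17⟩, (.cons (nat_lit 6858) (nat_lit 732) (nat_lit 6723) (nat_lit 1) .nil), (nat_lit 3), (nat_lit 0), (nat_lit 0), (nat_lit 0), (15, 12, 5), [5053], 0⟩,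
  mz,
  ⟨⟨-13, 12, 13, 10, 13, -10, -10, 4, -7⟩, (.cons (nat_lit 252) (nat_lit 1818) (nat_lit 2765) (nat_lit 1) .nil), (nat_lit 3), (nat_lit 0), (nat_lit 0), (nat_lit 0), (8, 3, 14), [5475], 0⟩,
  ⟨⟨-13, -12, 13, 10, -13, -10, -10, -4, -7⟩, (.cons (nat_lit 4185) (nat_lit 27) (nat_lit 6345) (nat_lit 1) .nil), (nat_lit 3), (nat_lit 0), (nat_lit 0), (nat_lit 0), (3, 16, 1), [1584], 0⟩,
  ⟨⟨15, -8, -16, 8, 15, -4, 0, 0, -17⟩, (.cons (nat_lit 2319) (nat_lit 5744) (nat_lit 6033) (nat_lit 1) .nil), (nat_lit 10), (nat_lit 0), (nat_lit 0), (nat_lit 0), (7, 6, 0), [6323], 0⟩,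
  mz,
  ⟨⟨9, -16, -1, 10, 3, -20, -6, -12, -5⟩, (.cons (nat_lit 5127) (nat_lit 5079) (nat_lit 2507) (nat_lit 1) .nil), (nat_lit 14), (nat_lit 0), (nat_lit 0), (nat_lit 0), (2, 6, 10), [728], 0⟩,
  ⟨⟨-15, -8, -1, 8, -15, -4, 0, 0, -17⟩, (.cons (nat_lit 6328) (nat_lit 6097) (nat_lit 592) (nat_lit 1) .nil), (nat_lit 7), (nat_lit 0), (nat_lit 0), (nat_lit 0), (1, 4, 0), [1762], 0⟩,
  ⟨⟨13, 12, 0, -10, 13, 0, 10, 4, -17⟩, (.cons (nat_lit 4401) (nat_lit 5885) (nat_lit 2861) (nat_lit 1) .nil), (nat_lit 3), (nat_lit 0), (nat_lit 0), (nat_lit 0), (3, 16, 1), [3307], 0⟩,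
  ⟨⟨9, 16, -1, 10, -3, -20, -6, 12, -5⟩, (.cons (nat_lit 2767) (nat_lit 6853) (nat_lit 542) (nat_lit 1) .nil), (nat_lit 14), (nat_lit 0), (nat_lit 0), (nat_lit 0), (3, 9, 15), [6297], 0⟩,
  ⟨⟨-9, 16, 8, 10, 3, 10, 6, 12, -11⟩, (.cons (nat_lit 6858) (nat_lit 1641) (nat_lit 4290) (nat_lit 1) .nil), (nat_lit 13), (nat_lit 0), (nat_lit 0), (nat_lit 0), (13, 12, 14), [4544], 0⟩,
  ⟨⟨15, 4, -19, -10, 3, -10, 6, -12, -11⟩, (.cons (nat_lit 994) (nat_lit 6557) (nat_lit 4718) (nat_lit 1) .nil), (nat_lit 9), (nat_lit 0), (nat_lit 0), (nat_lit 0), (14, 2, 9), [596], 0⟩]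

/-- All the moves. -/
noncomputable def tabs : List (List (List Mv)) := [[[], t0_1, t0_2, [], [], [], [], [], t0_8], [], [], [], [[], t4_1, t4_2, [], [], [], [], [], t4_8]]

/-- Subtrie. -/
noncomputable def T1 : Tr := (.ev (nat_lit 20) (nat_lit 7744) (.nd (nat_lit 32) (.br (nat_lit 9) (.br (nat_lit
 4) (.br (nat_lit 2) (.ch (nat_lit 1) (.ev (nat_lit 48) (nat_lit 24616) (.ev (nat_lit 61) (nat_lit 128) .dd)))
 (.ch (nat_lit 2) (.ev (nat_lit 48) (nat_lit 24576) (.ev (nat_lit 340) (nat_lit 32) (.ev (nat_lit 416) (nat_lit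
 128) (.ev (nat_lit 429) (nat_lit 8) .dd)))))) (.br (nat_lit 6) (.ch (nat_lit 4) (.ev (nat_lit 48) (nat_lit
 168) (.ev (nat_lit 68) (nat_lit 8192) (.ev (nat_lit 77) (nat_lit 16384) .dd)))) (.br (nat_lit 7) (.ch (nat_lit
 6) (.ev (nat_lit 48) (nat_lit 16544) (.nd (nat_lit 96) (.br (nat_lit 13) (.br (nat_lit 9) (.ch (nat_lit 3)
 (.ev (nat_lit 164) (nat_lit 8) (.ev (nat_lit 173) (nat_lit 8192) .dd))) (.br (nat_lit 12) (.ch (nat_lit 9)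
 (.ev (nat_lit 112) (nat_lit 8192) (.ev (nat_lit 125) (nat_lit 8) .dd))) (.ch (nat_lit 12) (.ev (nat_lit 112)
 (nat_lit 8) (.ev (nat_lit 125) (nat_lit 8192) .dd))))) (.br (nat_lit 14) (.ch (nat_lit 13) (.ev (nat_lit 112)
 (nat_lit 8) (.ev (nat_lit 125) (nat_lit 8192) .dd))) (.br (nat_lit 16) (.ch (nat_lit 14) (.ev (nat_lit 112)
 (nat_lit 8) (.ev (nat_lit 125) (nat_lit 8192) .dd))) (.ch (nat_lit 16) (.ev (nat_lit 112) (nat_lit 8192) (.ev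
 (nat_lit 125) (nat_lit 8) .dd))))))))) (.ch (nat_lit 7) (.ev (nat_lit 48) (nat_lit 16520) (.nd (nat_lit 224)
 (.br (nat_lit 8) (.ch (nat_lit 4) (.ev (nat_lit 240) (nat_lit 8224) .dd)) (.br (nat_lit 12) (.ch (nat_lit 8)
 (.ev (nat_lit 240) (nat_lit 32) (.ev (nat_lit 253) (nat_lit 8192) .dd))) (.ch (nat_lit 12) (.ev (nat_lit 324)
 (nat_lit 8192) (.ev (nat_lit 333) (nat_lit 32) .dd))))))))))) (.br (nat_lit 12) (.br (nat_lit 10) (.ch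
 (nat_lit 9) (.ev (nat_lit 48) (nat_lit 8360) (.ev (nat_lit 61) (nat_lit 16384) .dd))) (.br (nat_lit 11) (.ch
 (nat_lit 10) (.ev (nat_lit 48) (nat_lit 24584) (.nd (nat_lit 272) (.br (nat_lit 10) (.ch (nat_lit 4) (.ev
 (nat_lit 404) (nat_lit 32) (.ev (nat_lit 413) (nat_lit 128) .dd))) (.br (nat_lit 16) (.ch (nat_lit 10) (.ev
 (nat_lit 288) (nat_lit 32) (.ev (nat_lit 301) (nat_lit 128) .dd))) (.ch (nat_lit 16) (.ev (nat_lit 288)
 (nat_lit 128) (.ev (nat_lit 301) (nat_lit 32) .dd)))))))) (.ch (nat_lit 11) (.ev (nat_lit 48) (nat_lit 168)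
 (.fin (nat_lit 576462401572389439)))))) (.br (nat_lit 15) (.ch (nat_lit 12) (.ev (nat_lit 48) (nat_lit 24744)
 .dd)) (.br (nat_lit 18) (.ch (nat_lit 15) (.ev (nat_lit 48) (nat_lit 160) (.ev (nat_lit 84) (nat_lit 8192)
 (.ev (nat_lit 180) (nat_lit 16384) (.ev (nat_lit 189) (nat_lit 8) .dd))))) (.ch (nat_lit 18) (.ev (nat_lit 48)
 (nat_lit 8200) (.nd (nat_lit 192) (.br (nat_lit 7) (.ch (nat_lit 0) (.ev (nat_lit 208) (nat_lit 128) (.ev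
 (nat_lit 308) (nat_lit 32) (.ev (nat_lit 317) (nat_lit 16384) .dd)))) (.br (nat_lit 12) (.ch (nat_lit 7) (.ev
 (nat_lit 208) (nat_lit 32) (.ev (nat_lit 260) (nat_lit 16384) (.ev (nat_lit 269) (nat_lit 128) .dd)))) (.ch
 (nat_lit 12) (.ev (nat_lit 208) (nat_lit 16384) (.ev (nat_lit 388) (nat_lit 128) (.ev (nat_lit 397) (nat_lit
 32) .dd)))))))))))))))

/-- Subtrie. -/
noncomputable def T2 : Tr := (.ev (nat_lit 20) (nat_lit 24192) (.nd (nat_lit 32) (.br (nat_lit 10) (.br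
 (nat_lit 5) (.br (nat_lit 2) (.ch (nat_lit 0) (.ev (nat_lit 48) (nat_lit 104) (.ev (nat_lit 61) (nat_lit 8192)
 .dd))) (.ch (nat_lit 2) (.ev (nat_lit 48) (nat_lit 8256) (.fin (nat_lit 576461302055518782))))) (.br (nat_lit
 6) (.ch (nat_lit 5) (.ev (nat_lit 48) (nat_lit 8224) (.nd (nat_lit 128) (.br (nat_lit 15) (.br (nat_lit 8)
 (.ch (nat_lit 5) (.ev (nat_lit 144) (nat_lit 72) .dd)) (.br (nat_lit 14) (.ch (nat_lit 8) (.ev (nat_lit 144)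
 (nat_lit 64) (.ev (nat_lit 157) (nat_lit 8) .dd))) (.ch (nat_lit 14) (.ev (nat_lit 144) (nat_lit 8) (.ev
 (nat_lit 157) (nat_lit 64) .dd))))) (.br (nat_lit 17) (.br (nat_lit 16) (.ch (nat_lit 15) (.ev (nat_lit 144)
 (nat_lit 8) (.ev (nat_lit 157) (nat_lit 64) .dd))) (.ch (nat_lit 16) (.ev (nat_lit 164) (nat_lit 64) (.ev
 (nat_lit 173) (nat_lit 8) .dd)))) (.br (nat_lit 18) (.ch (nat_lit 17) (.ev (nat_lit 144) (nat_lit 72) .dd))
 (.ch (nat_lit 18) (.ev (nat_lit 144) (nat_lit 64) (.ev (nat_lit 157) (nat_lit 8) .dd))))))))) (.br (nat_lit 7)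
 (.ch (nat_lit 6) (.ev (nat_lit 48) (nat_lit 72) (.ev (nat_lit 68) (nat_lit 32) (.ev (nat_lit 77) (nat_lit
 8192) .dd)))) (.ch (nat_lit 7) (.ev (nat_lit 48) (nat_lit 72) (.ev (nat_lit 432) (nat_lit 32) (.ev (nat_lit
 445) (nat_lit 8192) .dd))))))) (.br (nat_lit 13) (.br (nat_lit 11) (.ch (nat_lit 10) (.ev (nat_lit 48)
 (nat_lit 8288) (.ev (nat_lit 61) (nat_lit 8) .dd))) (.br (nat_lit 12) (.ch (nat_lit 11) (.ev (nat_lit 48)
 (nat_lit 8288) (.ev (nat_lit 61) (nat_lit 8) .dd))) (.ch (nat_lit 12) (.ev (nat_lit 48) (nat_lit 32) (.ev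
 (nat_lit 432) (nat_lit 8) (.ev (nat_lit 452) (nat_lit 64) (.ev (nat_lit 461) (nat_lit 8192) .dd))))))) (.br
 (nat_lit 15) (.ch (nat_lit 13) (.ev (nat_lit 48) (nat_lit 8) (.ev (nat_lit 84) (nat_lit 8192) (.ev (nat_lit
 180) (nat_lit 32) (.ev (nat_lit 189) (nat_lit 64) .dd))))) (.br (nat_lit 16) (.ch (nat_lit 15) (.ev (nat_lit
 48) (nat_lit 8296) .dd)) (.ch (nat_lit 16) (.ev (nat_lit 48) (nat_lit 8264) (.ev (nat_lit 61) (nat_lit 32)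
 .dd)))))))))

/-- Subtrie. -/
noncomputable def T8 : Tr := (.ev (nat_lit 20) (nat_lit 6376) (.nd (nat_lit 32) (.br (nat_lit 10) (.br (nat_lit
 6) (.br (nat_lit 4) (.ch (nat_lit 3) (.ev (nat_lit 48) (nat_lit 8704) (.nd (nat_lit 352) (.br (nat_lit 7) (.ch
 (nat_lit 3) (.ev (nat_lit 368) (nat_lit 16384) (.ev (nat_lit 381) (nat_lit 1024) .dd))) (.br (nat_lit 18) (.ch
 (nat_lit 7) (.ev (nat_lit 368) (nat_lit 16384) (.ev (nat_lit 381) (nat_lit 1024) .dd))) (.ch (nat_lit 18) (.ev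
 (nat_lit 368) (nat_lit 1024) (.ev (nat_lit 381) (nat_lit 16384) .dd)))))))) (.ch (nat_lit 4) (.ev (nat_lit 48)
 (nat_lit 17920) (.ev (nat_lit 61) (nat_lit 8192) .dd)))) (.br (nat_lit 8) (.ch (nat_lit 6) (.ev (nat_lit 48)
 (nat_lit 9216) (.fin (nat_lit 576456904011104830)))) (.br (nat_lit 9) (.ch (nat_lit 8) (.ev (nat_lit 48)
 (nat_lit 24576) (.ev (nat_lit 452) (nat_lit 512) (.ev (nat_lit 461) (nat_lit 1024) .dd)))) (.ch (nat_lit 9)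
 (.ev (nat_lit 48) (nat_lit 17920) (.ev (nat_lit 61) (nat_lit 8192) .dd)))))) (.br (nat_lit 15) (.br (nat_lit
 13) (.ch (nat_lit 10) (.ev (nat_lit 48) (nat_lit 9216) (.ev (nat_lit 416) (nat_lit 512) (.ev (nat_lit 429)
 (nat_lit 16384) .dd)))) (.br (nat_lit 14) (.ch (nat_lit 13) (.ev (nat_lit 48) (nat_lit 16896) (.ev (nat_lit
 416) (nat_lit 1024) (.ev (nat_lit 429) (nat_lit 8192) .dd)))) (.ch (nat_lit 14) (.ev (nat_lit 48) (nat_lit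
 1024) (.ev (nat_lit 388) (nat_lit 512) (.ev (nat_lit 416) (nat_lit 16384) (.ev (nat_lit 429) (nat_lit 8192)
 .dd))))))) (.br (nat_lit 16) (.ch (nat_lit 15) (.ev (nat_lit 48) (nat_lit 26112) .dd)) (.br (nat_lit 18) (.ch
 (nat_lit 16) (.ev (nat_lit 48) (nat_lit 25088) (.ev (nat_lit 61) (nat_lit 1024) .dd))) (.ch (nat_lit 18) (.ev
 (nat_lit 48) (nat_lit 17920) (.ev (nat_lit 61) (nat_lit 8192) .dd)))))))))

/-- The trie. -/
noncomputable def T : Tr := .nd (nat_lit 1000000) (.br (nat_lit 7) (.br (nat_lit 2) (.br (nat_lit 1) (.ch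
 (nat_lit 0) (.ev (nat_lit 0) (nat_lit 131071) .dd)) (.ch (nat_lit 1) T1)) (.br (nat_lit 3) (.ch (nat_lit 2)
 T2) (.br (nat_lit 4) (.ch (nat_lit 3) (.ev (nat_lit 0) (nat_lit 131071) .dd)) (.ch (nat_lit 4) (.ev (nat_lit
 0) (nat_lit 131071) .dd))))) (.br (nat_lit 9) (.br (nat_lit 8) (.ch (nat_lit 7) (.ev (nat_lit 0) (nat_lit
 131071) .dd)) (.ch (nat_lit 8) T8)) (.br (nat_lit 14) (.ch (nat_lit 9) (.ev (nat_lit 0) (nat_lit 131071) .dd))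
 (.br (nat_lit 18) (.ch (nat_lit 14) (.ev (nat_lit 0) (nat_lit 131071) .dd)) (.ch (nat_lit 18) (.ev (nat_lit 0)
 (nat_lit 131071) .dd))))))

/-- The possible values. -/
noncomputable def oks : List ℕ := [7, 58]

/-- The parameters. -/
noncomputable def S : Pr := ⟨fun i l e => lget mz (lget [] (lget [] tabs i) l) e, oks, [(nat_lit 0), (nat_lit 0), (nat_lit 0)], T, (nat_lit 131071), (nat_lit 98583), (nat_lit 17), [(nat_lit 279193)], [(nat_lit 6859)]⟩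

/-- Nothing known. -/
noncomputable def cs0 : Cs := (.cons (nat_lit 19) (nat_lit 0) (nat_lit 1) .nil)

theorem part_1 : part S cs0 (nat_lit 1) = true := by decide +kernel

theorem part_2 : part S cs0 (nat_lit 2) = true := by decide +kernel

theorem part_8 : part S cs0 (nat_lit 8) = true := by decide +kernel

/-- Data of a prime. -/
noncomputable def D0 : PD := ⟨(nat_lit 19), (nat_lit 3), (2737, 3, 5), (2233, 2359, 280), (4154, 6154, 3804)⟩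

theorem D0_ok : D0.Ok := pdb_sound (s := 9) (C := ⟨⟨21, 6, -28, 11, 14, 17, -4, 7, -1⟩, (2, 11, 15)⟩) (by show Nat.Prime 19; norm_num) (by decide +kernel)

/-- Lines of the first type. -/
noncomputable def Cl0 : List C1 := [⟨⟨11, 14, -28, 21, 6, 7, 4, -7, -5⟩, (12, 16, 13)⟩,
  ⟨⟨0, 0, 0, 0, 0, 0, 0, 0, 0⟩, (0, 0, 0)⟩,
  ⟨⟨0, 0, 0, 0, 0, 0, 0, 0, 0⟩, (0, 0, 0)⟩,
  ⟨⟨9, 6, -32, 1, 26, 7, 8, -1, -1⟩, (8, 3, 5)⟩,
  ⟨⟨-9, -6, -23, -1, -26, 8, 8, -1, -7⟩, (13, 12, 18)⟩,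
  ⟨⟨0, 0, 0, 0, 0, 0, 0, 0, 0⟩, (0, 0, 0)⟩,
  ⟨⟨0, 0, 0, 0, 0, 0, 0, 0, 0⟩, (0, 0, 0)⟩,
  ⟨⟨9, -6, -32, 1, -26, 7, 8, 1, -1⟩, (5, 9, 15)⟩,
  ⟨⟨0, 0, 0, 0, 0, 0, 0, 0, 0⟩, (0, 0, 0)⟩,
  ⟨⟨21, -6, -28, 11, -14, 17, -4, -7, -1⟩, (16, 12, 6)⟩,
  ⟨⟨0, 0, 0, 0, 0, 0, 0, 0, 0⟩, (0, 0, 0)⟩,
  ⟨⟨0, 0, 0, 0, 0, 0, 0, 0, 0⟩, (0, 0, 0)⟩,
  ⟨⟨0, 0, 0, 0, 0, 0, 0, 0, 0⟩, (0, 0, 0)⟩,
  ⟨⟨0, 0, 0, 0, 0, 0, 0, 0, 0⟩, (0, 0, 0)⟩,
  ⟨⟨11, -14, -28, 21, -6, 7, 4, 7, -5⟩, (5, 13, 7)⟩,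
  ⟨⟨0, 0, 0, 0, 0, 0, 0, 0, 0⟩, (0, 0, 0)⟩,
  ⟨⟨0, 0, 0, 0, 0, 0, 0, 0, 0⟩, (0, 0, 0)⟩,
  ⟨⟨0, 0, 0, 0, 0, 0, 0, 0, 0⟩, (0, 0, 0)⟩,
  ⟨⟨-9, 6, -23, -1, 26, 8, 8, 1, -7⟩, (16, 6, 9)⟩]

/-- Data of a prime. -/
noncomputable def Dm : PD := ⟨(nat_lit 17), (nat_lit 2), (154, 6, 5), (89, 107, 202), (117, 260, 284)⟩

theorem Dm_ok : Dm.Ok := pdb_sound (s := 3) (C := ⟨⟨3, 18, -19, -23, -2, 4, 2, -5, -7⟩, (3, 11, 2)⟩) (by show Nat.Prime 17; norm_num) (by decide +kernel)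

/-- Lines of the first type. -/
noncomputable def Clm : List C1 := [⟨⟨23, 2, -19, 3, 18, 16, -2, 5, -5⟩, (14, 7, 1)⟩,
  ⟨⟨3, -18, -19, -23, 2, 4, 2, 5, -7⟩, (1, 15, 12)⟩,
  ⟨⟨-13, 2, -16, -7, 22, 11, 6, 3, -7⟩, (14, 1, 4)⟩,
  ⟨⟨0, 0, 0, 0, 0, 0, 0, 0, 0⟩, (0, 0, 0)⟩,
  ⟨⟨-13, -2, -16, -7, -22, 11, 6, -3, -7⟩, (16, 6, 7)⟩,
  ⟨⟨0, 0, 0, 0, 0, 0, 0, 0, 0⟩, (0, 0, 0)⟩,
  ⟨⟨0, 0, 0, 0, 0, 0, 0, 0, 0⟩, (0, 0, 0)⟩,
  ⟨⟨0, 0, 0, 0, 0, 0, 0, 0, 0⟩, (0, 0, 0)⟩,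
  ⟨⟨13, 2, -29, 7, 22, 4, -6, 3, -1⟩, (9, 14, 5)⟩,
  ⟨⟨0, 0, 0, 0, 0, 0, 0, 0, 0⟩, (0, 0, 0)⟩,
  ⟨⟨0, 0, 0, 0, 0, 0, 0, 0, 0⟩, (0, 0, 0)⟩,
  ⟨⟨0, 0, 0, 0, 0, 0, 0, 0, 0⟩, (0, 0, 0)⟩,
  ⟨⟨0, 0, 0, 0, 0, 0, 0, 0, 0⟩, (0, 0, 0)⟩,
  ⟨⟨0, 0, 0, 0, 0, 0, 0, 0, 0⟩, (0, 0, 0)⟩,
  ⟨⟨0, 0, 0, 0, 0, 0, 0, 0, 0⟩, (0, 0, 0)⟩,
  ⟨⟨23, -2, -19, 3, -18, 16, -2, -5, -5⟩, (16, 8, 6)⟩,
  ⟨⟨13, -2, -29, 7, -22, 4, -6, -3, -1⟩, (11, 2, 8)⟩]

/-- Unit moves. -/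
noncomputable def U : List Mv := [mz,
  mz,
  mz,
  mz,
  mz,
  ⟨⟨-1, 0, 1, 0, 1, 0, 0, 0, 1⟩, .nil, (nat_lit 18), (nat_lit 9), (nat_lit 4), (nat_lit 1), (0, 0, 0), [], 18⟩,
  ⟨⟨-1, 0, 1, 0, -1, 0, 0, 0, 1⟩, .nil, (nat_lit 0), (nat_lit 12), (nat_lit 1), (nat_lit 0), (0, 0, 0), [], 7⟩,
  mz,
  mz,
  mz,
  ⟨⟨1, 0, 0, 0, -1, 0, 0, 0, 1⟩, .nil, (nat_lit 18), (nat_lit 14), (nat_lit 2), (nat_lit 1), (0, 0, 0), [], 10⟩,
  ⟨⟨-1, 0, 1, 0, -1, 0, 0, 0, 1⟩, .nil, (nat_lit 0), (nat_lit 12), (nat_lit 1), (nat_lit 0), (0, 0, 0), [], 7⟩,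
  ⟨⟨-1, 0, 1, 0, -1, 0, 0, 0, 1⟩, .nil, (nat_lit 0), (nat_lit 12), (nat_lit 1), (nat_lit 0), (0, 0, 0), [], 7⟩,
  ⟨⟨-1, 0, 1, 0, 1, 0, 0, 0, 1⟩, .nil, (nat_lit 18), (nat_lit 9), (nat_lit 4), (nat_lit 1), (0, 0, 0), [], 18⟩,
  mz,
  ⟨⟨-1, 0, 1, 0, 1, 0, 0, 0, 1⟩, .nil, (nat_lit 18), (nat_lit 9), (nat_lit 4), (nat_lit 1), (0, 0, 0), [], 18⟩,
  ⟨⟨1, 0, 0, 0, -1, 0, 0, 0, 1⟩, .nil, (nat_lit 18), (nat_lit 14), (nat_lit 2), (nat_lit 1), (0, 0, 0), [], 10⟩,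
  ⟨⟨1, 0, 0, 0, -1, 0, 0, 0, 1⟩, .nil, (nat_lit 18), (nat_lit 14), (nat_lit 2), (nat_lit 1), (0, 0, 0), [], 10⟩,
  mz]

theorem v_ty : tyb Dm S.ty1 Clm = true := by decide +kernel

theorem v_ty0 : tyb D0 (S.tys.getD 0 0) Cl0 = true := by decide +kernel

theorem v_msc : mscb S D0 [] Dm (nat_lit 262) = true := by decide +kernel

theorem v_mv0 : mvsn (nat_lit 1982251) S D0 [] Dm (nat_lit 262) 0 D0 = true := by decide +kernel

theorem v_mm : mmsn (nat_lit 1982251) S D0 [] Dm (nat_lit 262) = true := by decide +kernel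

theorem v_un : unb S D0 (nat_lit 262) U = true := by decide +kernel

theorem v_ok : okb S.oks [(0, 0, 0), (0, 0, 0)] = true := by decide +kernel

theorem v_part : ∀ d < D0.p, (nat_lit 262).testBit d = true → part S (zc (D0 :: [])) d = true := by
  intro d hd h
  have h1 : ∀ d < 19, (nat_lit 262).testBit d = true → d = 1 ∨ d = 2 ∨ d = 8 := by decide
  rcases h1 d hd h with rfl | rfl | rfl
  · exact part_1
  · exact part_2
  · exact part_8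

theorem main (n : ℕ) (ho : Odd n) (hr : ¬ Rep n) (h0 : Split 19 n) (hm : Split 17 n) :
    n ∈ EE := by
  refine concln (W := nat_lit 1982251) (S := S) (P0 := D0) (Pl := []) (Pm := Dm) (cn := nat_lit 262) ?_ Dm_ok v_ty ?_ ?_ v_msc ?_ v_mm v_un v_part v_ok
    n ho hr ?_ hm
  · simp only [List.forall_mem_cons]
    exact ⟨D0_ok, fun _ h => absurd h (by simp)⟩
  · exact all1 (φ := fun j P => ∃ L, tyb P (S.tys.getD j 0) L = true) ⟨_, v_ty0⟩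
  · exact all1 (φ := fun j P => Nat.ble (S.pks.getD j 0) (Nat.pow P.p P.K) = true) (by decide +kernel)
  · exact all1 (φ := fun i P => mvsn (nat_lit 1982251) S D0 [] Dm (nat_lit 262) i P = true) v_mv0
  · simp only [List.forall_mem_cons]
    exact ⟨h0, fun _ h => absurd h (by simp)⟩

end Pool.Agent.Work.MP_9954fe_nt.P19_17

namespace Pool.Agent.Work.MP_9954fe_nt.P19_37_43

/-- Dummy move. -/
noncomputable def mz : Mv := ⟨⟨0, 0, 0, 0, 0, 0, 0, 0, 0⟩, .nil, (nat_lit 0), (nat_lit 0), (nat_lit 0), (nat_lit 0), (0, 0, 0), [], 0⟩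

/-- Moves. -/
noncomputable def t0_1 : List Mv := [
  ⟨⟨15, -4, -23, -10, 9, -10, 12, 12, -7⟩, (.cons (nat_lit 2704) (nat_lit 4284) (nat_lit 599) (nat_lit 1)
 (.cons (nat_lit 1001) (nat_lit 92) (nat_lit 1245) (nat_lit 1) .nil)), (nat_lit 41), (nat_lit 8), (nat_lit 7),
 (nat_lit 1), (18, 7, 3), [1854, 303], 16⟩,
  ⟨⟨15, -4, -23, 10, -9, 10, 12, 12, -7⟩, (.cons (nat_lit 2844) (nat_lit 6430) (nat_lit 1) (nat_lit 3439)
 (.cons (nat_lit 138) (nat_lit 1270) (nat_lit 370) (nat_lit 1) .nil)), (nat_lit 1), (nat_lit 37), (nat_lit 32),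
 (nat_lit 1), (18, 12, 3), [6848, 967], 31⟩,
  ⟨⟨15, -4, -23, -10, 9, -10, 12, 12, -7⟩, (.cons (nat_lit 2704) (nat_lit 4284) (nat_lit 599) (nat_lit 1)
 (.cons (nat_lit 1001) (nat_lit 92) (nat_lit 1245) (nat_lit 1) .nil)), (nat_lit 41), (nat_lit 8), (nat_lit 7),
 (nat_lit 1), (18, 7, 3), [1854, 303], 16⟩,
  ⟨⟨15, -4, -23, -10, 9, -10, 12, 12, -7⟩, (.cons (nat_lit 2704) (nat_lit 4284) (nat_lit 599) (nat_lit 1)
 (.cons (nat_lit 1001) (nat_lit 92) (nat_lit 1245) (nat_lit 1) .nil)), (nat_lit 41), (nat_lit 8), (nat_lit 7),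
 (nat_lit 1), (18, 7, 3), [1854, 303], 16⟩,
  ⟨⟨-3, 16, 16, 10, -9, 10, 12, 12, -7⟩, (.cons (nat_lit 3484) (nat_lit 2313) (nat_lit 3503) (nat_lit 1) (.cons
 (nat_lit 1368) (nat_lit 1315) (nat_lit 1069) (nat_lit 1) .nil)), (nat_lit 42), (nat_lit 6), (nat_lit 32),
 (nat_lit 1), (4, 12, 3), [1524, 206], 31⟩,
  ⟨⟨15, -4, -23, -10, 9, -10, 12, 12, -7⟩, (.cons (nat_lit 2704) (nat_lit 4284) (nat_lit 599) (nat_lit 1)
 (.cons (nat_lit 1001) (nat_lit 92) (nat_lit 1245) (nat_lit 1) .nil)), (nat_lit 41), (nat_lit 8), (nat_lit 7),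
 (nat_lit 1), (18, 7, 3), [1854, 303], 16⟩,
  ⟨⟨15, -4, -23, 10, -9, 10, 12, 12, -7⟩, (.cons (nat_lit 2844) (nat_lit 6430) (nat_lit 1) (nat_lit 3439)
 (.cons (nat_lit 138) (nat_lit 1270) (nat_lit 370) (nat_lit 1) .nil)), (nat_lit 1), (nat_lit 37), (nat_lit 32),
 (nat_lit 1), (18, 12, 3), [6848, 967], 31⟩,
  ⟨⟨-3, 16, 16, -10, 9, -10, 12, 12, -7⟩, (.cons (nat_lit 1018) (nat_lit 3686) (nat_lit 555) (nat_lit 1) (.cons
 (nat_lit 185) (nat_lit 807) (nat_lit 178) (nat_lit 1) .nil)), (nat_lit 2), (nat_lit 35), (nat_lit 7), (nat_lit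
 1), (4, 7, 3), [730, 80], 16⟩,
  ⟨⟨15, -4, -23, -10, 9, -10, 12, 12, -7⟩, (.cons (nat_lit 2704) (nat_lit 4284) (nat_lit 599) (nat_lit 1)
 (.cons (nat_lit 1001) (nat_lit 92) (nat_lit 1245) (nat_lit 1) .nil)), (nat_lit 41), (nat_lit 8), (nat_lit 7),
 (nat_lit 1), (18, 7, 3), [1854, 303], 16⟩,
  ⟨⟨15, -4, -23, -10, 9, -10, 12, 12, -7⟩, (.cons (nat_lit 2704) (nat_lit 4284) (nat_lit 599) (nat_lit 1)
 (.cons (nat_lit 1001) (nat_lit 92) (nat_lit 1245) (nat_lit 1) .nil)), (nat_lit 41), (nat_lit 8), (nat_lit 7),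
 (nat_lit 1), (18, 7, 3), [1854, 303], 16⟩,
  ⟨⟨15, -4, -23, -10, 9, -10, 12, 12, -7⟩, (.cons (nat_lit 2704) (nat_lit 4284) (nat_lit 599) (nat_lit 1)
 (.cons (nat_lit 1001) (nat_lit 92) (nat_lit 1245) (nat_lit 1) .nil)), (nat_lit 41), (nat_lit 8), (nat_lit 7),
 (nat_lit 1), (18, 7, 3), [1854, 303], 16⟩,
  ⟨⟨-3, 16, 16, -10, 9, -10, 12, 12, -7⟩, (.cons (nat_lit 1018) (nat_lit 3686) (nat_lit 555) (nat_lit 1) (.cons
 (nat_lit 185) (nat_lit 807) (nat_lit 178) (nat_lit 1) .nil)), (nat_lit 2), (nat_lit 35), (nat_lit 7), (nat_lit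
 1), (4, 7, 3), [730, 80], 16⟩,
  ⟨⟨15, -4, -23, 10, -9, 10, 12, 12, -7⟩, (.cons (nat_lit 2844) (nat_lit 6430) (nat_lit 1) (nat_lit 3439)
 (.cons (nat_lit 138) (nat_lit 1270) (nat_lit 370) (nat_lit 1) .nil)), (nat_lit 1), (nat_lit 37), (nat_lit 32),
 (nat_lit 1), (18, 12, 3), [6848, 967], 31⟩,
  ⟨⟨15, -4, -23, -10, 9, -10, 12, 12, -7⟩, (.cons (nat_lit 2704) (nat_lit 4284) (nat_lit 599) (nat_lit 1)
 (.cons (nat_lit 1001) (nat_lit 92) (nat_lit 1245) (nat_lit 1) .nil)), (nat_lit 41), (nat_lit 8), (nat_lit 7),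
 (nat_lit 1), (18, 7, 3), [1854, 303], 16⟩,
  ⟨⟨15, -4, -23, -10, 9, -10, 12, 12, -7⟩, (.cons (nat_lit 2704) (nat_lit 4284) (nat_lit 599) (nat_lit 1)
 (.cons (nat_lit 1001) (nat_lit 92) (nat_lit 1245) (nat_lit 1) .nil)), (nat_lit 41), (nat_lit 8), (nat_lit 7),
 (nat_lit 1), (18, 7, 3), [1854, 303], 16⟩,
  ⟨⟨-3, 16, 16, -10, 9, -10, 12, 12, -7⟩, (.cons (nat_lit 1018) (nat_lit 3686) (nat_lit 555) (nat_lit 1) (.cons
 (nat_lit 185) (nat_lit 807) (nat_lit 178) (nat_lit 1) .nil)), (nat_lit 2), (nat_lit 35), (nat_lit 7), (nat_lit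
 1), (4, 7, 3), [730, 80], 16⟩,
  ⟨⟨15, -4, -23, -10, 9, -10, 12, 12, -7⟩, (.cons (nat_lit 2704) (nat_lit 4284) (nat_lit 599) (nat_lit 1)
 (.cons (nat_lit 1001) (nat_lit 92) (nat_lit 1245) (nat_lit 1) .nil)), (nat_lit 41), (nat_lit 8), (nat_lit 7),
 (nat_lit 1), (18, 7, 3), [1854, 303], 16⟩,
  ⟨⟨15, -4, -23, -10, 9, -10, 12, 12, -7⟩, (.cons (nat_lit 2704) (nat_lit 4284) (nat_lit 599) (nat_lit 1)
 (.cons (nat_lit 1001) (nat_lit 92) (nat_lit 1245) (nat_lit 1) .nil)), (nat_lit 41), (nat_lit 8), (nat_lit 7),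
 (nat_lit 1), (18, 7, 3), [1854, 303], 16⟩,
  ⟨⟨-3, 16, 16, 10, -9, 10, 12, 12, -7⟩, (.cons (nat_lit 3484) (nat_lit 2313) (nat_lit 3503) (nat_lit 1) (.cons
 (nat_lit 1368) (nat_lit 1315) (nat_lit 1069) (nat_lit 1) .nil)), (nat_lit 42), (nat_lit 6), (nat_lit 32),
 (nat_lit 1), (4, 12, 3), [1524, 206], 31⟩]

/-- Moves. -/
noncomputable def t0_2 : List Mv := [
  ⟨⟨-11, 12, 20, 16, 5, 2, -2, 16, -5⟩, (.cons (nat_lit 4824) (nat_lit 515) (nat_lit 4935) (nat_lit 1) (.cons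
 (nat_lit 106) (nat_lit 719) (nat_lit 698) (nat_lit 1) .nil)), (nat_lit 23), (nat_lit 7), (nat_lit 29),
 (nat_lit 1), (15, 11, 1), [1129, 352], 20⟩,
  ⟨⟨9, 4, -25, -16, -5, -2, -2, 16, -5⟩, (.cons (nat_lit 3523) (nat_lit 4623) (nat_lit 626) (nat_lit 1) (.cons
 (nat_lit 165) (nat_lit 522) (nat_lit 2) (nat_lit 1) .nil)), (nat_lit 33), (nat_lit 13), (nat_lit 34), (nat_lit
 1), (5, 8, 1), [4023, 1096], 12⟩,
  ⟨⟨9, 4, -25, 16, 5, 2, -2, 16, -5⟩, (.cons (nat_lit 1758) (nat_lit 6674) (nat_lit 1679) (nat_lit 1) (.cons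
 (nat_lit 1206) (nat_lit 486) (nat_lit 701) (nat_lit 1) .nil)), (nat_lit 20), (nat_lit 36), (nat_lit 29),
 (nat_lit 1), (5, 11, 1), [3141, 761], 20⟩,
  ⟨⟨9, 4, -25, -16, -5, -2, -2, 16, -5⟩, (.cons (nat_lit 3523) (nat_lit 4623) (nat_lit 626) (nat_lit 1) (.cons
 (nat_lit 165) (nat_lit 522) (nat_lit 2) (nat_lit 1) .nil)), (nat_lit 33), (nat_lit 13), (nat_lit 34), (nat_lit
 1), (5, 8, 1), [4023, 1096], 12⟩,
  ⟨⟨9, 4, -25, -16, -5, -2, -2, 16, -5⟩, (.cons (nat_lit 3523) (nat_lit 4623) (nat_lit 626) (nat_lit 1) (.cons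
 (nat_lit 165) (nat_lit 522) (nat_lit 2) (nat_lit 1) .nil)), (nat_lit 33), (nat_lit 13), (nat_lit 34), (nat_lit
 1), (5, 8, 1), [4023, 1096], 12⟩,
  ⟨⟨9, 4, -25, 16, 5, 2, -2, 16, -5⟩, (.cons (nat_lit 1758) (nat_lit 6674) (nat_lit 1679) (nat_lit 1) (.cons
 (nat_lit 1206) (nat_lit 486) (nat_lit 701) (nat_lit 1) .nil)), (nat_lit 20), (nat_lit 36), (nat_lit 29),
 (nat_lit 1), (5, 11, 1), [3141, 761], 20⟩,
  ⟨⟨-11, 12, 20, 16, 5, 2, -2, 16, -5⟩, (.cons (nat_lit 4824) (nat_lit 515) (nat_lit 4935) (nat_lit 1) (.cons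
 (nat_lit 106) (nat_lit 719) (nat_lit 698) (nat_lit 1) .nil)), (nat_lit 23), (nat_lit 7), (nat_lit 29),
 (nat_lit 1), (15, 11, 1), [1129, 352], 20⟩,
  ⟨⟨-11, 12, 20, -16, -5, -2, -2, 16, -5⟩, (.cons (nat_lit 830) (nat_lit 6090) (nat_lit 5835) (nat_lit 1)
 (.cons (nat_lit 1262) (nat_lit 331) (nat_lit 922) (nat_lit 1) .nil)), (nat_lit 10), (nat_lit 30), (nat_lit
 34), (nat_lit 1), (15, 8, 1), [4700, 38], 12⟩,
  ⟨⟨9, 4, -25, -16, -5, -2, -2, 16, -5⟩, (.cons (nat_lit 3523) (nat_lit 4623) (nat_lit 626) (nat_lit 1) (.cons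
 (nat_lit 165) (nat_lit 522) (nat_lit 2) (nat_lit 1) .nil)), (nat_lit 33), (nat_lit 13), (nat_lit 34), (nat_lit
 1), (5, 8, 1), [4023, 1096], 12⟩,
  ⟨⟨9, 4, -25, -16, -5, -2, -2, 16, -5⟩, (.cons (nat_lit 3523) (nat_lit 4623) (nat_lit 626) (nat_lit 1) (.cons
 (nat_lit 165) (nat_lit 522) (nat_lit 2) (nat_lit 1) .nil)), (nat_lit 33), (nat_lit 13), (nat_lit 34), (nat_lit
 1), (5, 8, 1), [4023, 1096], 12⟩,
  ⟨⟨9, 4, -25, -16, -5, -2, -2, 16, -5⟩, (.cons (nat_lit 3523) (nat_lit 4623) (nat_lit 626) (nat_lit 1) (.cons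
 (nat_lit 165) (nat_lit 522) (nat_lit 2) (nat_lit 1) .nil)), (nat_lit 33), (nat_lit 13), (nat_lit 34), (nat_lit
 1), (5, 8, 1), [4023, 1096], 12⟩,
  ⟨⟨9, 4, -25, -16, -5, -2, -2, 16, -5⟩, (.cons (nat_lit 3523) (nat_lit 4623) (nat_lit 626) (nat_lit 1) (.cons
 (nat_lit 165) (nat_lit 522) (nat_lit 2) (nat_lit 1) .nil)), (nat_lit 33), (nat_lit 13), (nat_lit 34), (nat_lit
 1), (5, 8, 1), [4023, 1096], 12⟩,
  ⟨⟨9, 4, -25, -16, -5, -2, -2, 16, -5⟩, (.cons (nat_lit 3523) (nat_lit 4623) (nat_lit 626) (nat_lit 1) (.cons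
 (nat_lit 165) (nat_lit 522) (nat_lit 2) (nat_lit 1) .nil)), (nat_lit 33), (nat_lit 13), (nat_lit 34), (nat_lit
 1), (5, 8, 1), [4023, 1096], 12⟩,
  ⟨⟨-11, 12, 20, -16, -5, -2, -2, 16, -5⟩, (.cons (nat_lit 830) (nat_lit 6090) (nat_lit 5835) (nat_lit 1)
 (.cons (nat_lit 1262) (nat_lit 331) (nat_lit 922) (nat_lit 1) .nil)), (nat_lit 10), (nat_lit 30), (nat_lit
 34), (nat_lit 1), (15, 8, 1), [4700, 38], 12⟩,
  ⟨⟨9, 4, -25, -16, -5, -2, -2, 16, -5⟩, (.cons (nat_lit 3523) (nat_lit 4623) (nat_lit 626) (nat_lit 1) (.cons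
 (nat_lit 165) (nat_lit 522) (nat_lit 2) (nat_lit 1) .nil)), (nat_lit 33), (nat_lit 13), (nat_lit 34), (nat_lit
 1), (5, 8, 1), [4023, 1096], 12⟩,
  ⟨⟨9, 4, -25, 16, 5, 2, -2, 16, -5⟩, (.cons (nat_lit 1758) (nat_lit 6674) (nat_lit 1679) (nat_lit 1) (.cons
 (nat_lit 1206) (nat_lit 486) (nat_lit 701) (nat_lit 1) .nil)), (nat_lit 20), (nat_lit 36), (nat_lit 29),
 (nat_lit 1), (5, 11, 1), [3141, 761], 20⟩,
  ⟨⟨-11, 12, 20, -16, -5, -2, -2, 16, -5⟩, (.cons (nat_lit 830) (nat_lit 6090) (nat_lit 5835) (nat_lit 1)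
 (.cons (nat_lit 1262) (nat_lit 331) (nat_lit 922) (nat_lit 1) .nil)), (nat_lit 10), (nat_lit 30), (nat_lit
 34), (nat_lit 1), (15, 8, 1), [4700, 38], 12⟩,
  ⟨⟨9, 4, -25, -16, -5, -2, -2, 16, -5⟩, (.cons (nat_lit 3523) (nat_lit 4623) (nat_lit 626) (nat_lit 1) (.cons
 (nat_lit 165) (nat_lit 522) (nat_lit 2) (nat_lit 1) .nil)), (nat_lit 33), (nat_lit 13), (nat_lit 34), (nat_lit
 1), (5, 8, 1), [4023, 1096], 12⟩,
  ⟨⟨9, 4, -25, -16, -5, -2, -2, 16, -5⟩, (.cons (nat_lit 3523) (nat_lit 4623) (nat_lit 626) (nat_lit 1) (.cons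
 (nat_lit 165) (nat_lit 522) (nat_lit 2) (nat_lit 1) .nil)), (nat_lit 33), (nat_lit 13), (nat_lit 34), (nat_lit
 1), (5, 8, 1), [4023, 1096], 12⟩]

/-- Moves. -/
noncomputable def t0_8 : List Mv := [
  ⟨⟨17, -12, -9, -4, -5, -18, 14, 8, -13⟩, (.cons (nat_lit 5482) (nat_lit 4807) (nat_lit 6848) (nat_lit 1)
 (.cons (nat_lit 239) (nat_lit 205) (nat_lit 733) (nat_lit 1) .nil)), (nat_lit 33), (nat_lit 2), (nat_lit 6),
 (nat_lit 1), (9, 18, 13), [3487, 1133], 12⟩,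
  ⟨⟨17, -12, -9, -4, -5, -18, 14, 8, -13⟩, (.cons (nat_lit 5482) (nat_lit 4807) (nat_lit 6848) (nat_lit 1)
 (.cons (nat_lit 239) (nat_lit 205) (nat_lit 733) (nat_lit 1) .nil)), (nat_lit 33), (nat_lit 2), (nat_lit 6),
 (nat_lit 1), (9, 18, 13), [3487, 1133], 12⟩,
  ⟨⟨17, -12, -9, -4, -5, -18, 14, 8, -13⟩, (.cons (nat_lit 5482) (nat_lit 4807) (nat_lit 6848) (nat_lit 1)
 (.cons (nat_lit 239) (nat_lit 205) (nat_lit 733) (nat_lit 1) .nil)), (nat_lit 33), (nat_lit 2), (nat_lit 6),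
 (nat_lit 1), (9, 18, 13), [3487, 1133], 12⟩,
  ⟨⟨-3, 20, -4, -4, -5, -18, 14, 8, -13⟩, (.cons (nat_lit 2266) (nat_lit 1073) (nat_lit 5235) (nat_lit 1)
 (.cons (nat_lit 606) (nat_lit 752) (nat_lit 681) (nat_lit 1) .nil)), (nat_lit 10), (nat_lit 41), (nat_lit 6),
 (nat_lit 1), (4, 18, 13), [4227, 83], 12⟩,
  ⟨⟨-3, 20, -4, 4, 5, 18, 14, 8, -13⟩, (.cons (nat_lit 5132) (nat_lit 2304) (nat_lit 1) (nat_lit 6783) (.cons
 (nat_lit 762) (nat_lit 1091) (nat_lit 665) (nat_lit 1) .nil)), (nat_lit 15), (nat_lit 24), (nat_lit 38),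
 (nat_lit 1), (4, 1, 13), [5486, 464], 28⟩,
  ⟨⟨17, -12, -9, -4, -5, -18, 14, 8, -13⟩, (.cons (nat_lit 5482) (nat_lit 4807) (nat_lit 6848) (nat_lit 1)
 (.cons (nat_lit 239) (nat_lit 205) (nat_lit 733) (nat_lit 1) .nil)), (nat_lit 33), (nat_lit 2), (nat_lit 6),
 (nat_lit 1), (9, 18, 13), [3487, 1133], 12⟩,
  ⟨⟨17, -12, -9, -4, -5, -18, 14, 8, -13⟩, (.cons (nat_lit 5482) (nat_lit 4807) (nat_lit 6848) (nat_lit 1)
 (.cons (nat_lit 239) (nat_lit 205) (nat_lit 733) (nat_lit 1) .nil)), (nat_lit 33), (nat_lit 2), (nat_lit 6),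
 (nat_lit 1), (9, 18, 13), [3487, 1133], 12⟩,
  ⟨⟨17, -12, -9, -4, -5, -18, 14, 8, -13⟩, (.cons (nat_lit 5482) (nat_lit 4807) (nat_lit 6848) (nat_lit 1)
 (.cons (nat_lit 239) (nat_lit 205) (nat_lit 733) (nat_lit 1) .nil)), (nat_lit 33), (nat_lit 2), (nat_lit 6),
 (nat_lit 1), (9, 18, 13), [3487, 1133], 12⟩,
  ⟨⟨17, -12, -9, 4, 5, 18, 14, 8, -13⟩, (.cons (nat_lit 1356) (nat_lit 6265) (nat_lit 1738) (nat_lit 1) (.cons
 (nat_lit 376) (nat_lit 733) (nat_lit 661) (nat_lit 1) .nil)), (nat_lit 28), (nat_lit 19), (nat_lit 38),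
 (nat_lit 1), (9, 1, 13), [1981, 292], 28⟩,
  ⟨⟨17, -12, -9, -4, -5, -18, 14, 8, -13⟩, (.cons (nat_lit 5482) (nat_lit 4807) (nat_lit 6848) (nat_lit 1)
 (.cons (nat_lit 239) (nat_lit 205) (nat_lit 733) (nat_lit 1) .nil)), (nat_lit 33), (nat_lit 2), (nat_lit 6),
 (nat_lit 1), (9, 18, 13), [3487, 1133], 12⟩,
  ⟨⟨17, -12, -9, -4, -5, -18, 14, 8, -13⟩, (.cons (nat_lit 5482) (nat_lit 4807) (nat_lit 6848) (nat_lit 1)
 (.cons (nat_lit 239) (nat_lit 205) (nat_lit 733) (nat_lit 1) .nil)), (nat_lit 33), (nat_lit 2), (nat_lit 6),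
 (nat_lit 1), (9, 18, 13), [3487, 1133], 12⟩,
  ⟨⟨17, -12, -9, -4, -5, -18, 14, 8, -13⟩, (.cons (nat_lit 5482) (nat_lit 4807) (nat_lit 6848) (nat_lit 1)
 (.cons (nat_lit 239) (nat_lit 205) (nat_lit 733) (nat_lit 1) .nil)), (nat_lit 33), (nat_lit 2), (nat_lit 6),
 (nat_lit 1), (9, 18, 13), [3487, 1133], 12⟩,
  ⟨⟨17, -12, -9, -4, -5, -18, 14, 8, -13⟩, (.cons (nat_lit 5482) (nat_lit 4807) (nat_lit 6848) (nat_lit 1)
 (.cons (nat_lit 239) (nat_lit 205) (nat_lit 733) (nat_lit 1) .nil)), (nat_lit 33), (nat_lit 2), (nat_lit 6),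
 (nat_lit 1), (9, 18, 13), [3487, 1133], 12⟩,
  ⟨⟨-3, 20, -4, -4, -5, -18, 14, 8, -13⟩, (.cons (nat_lit 2266) (nat_lit 1073) (nat_lit 5235) (nat_lit 1)
 (.cons (nat_lit 606) (nat_lit 752) (nat_lit 681) (nat_lit 1) .nil)), (nat_lit 10), (nat_lit 41), (nat_lit 6),
 (nat_lit 1), (4, 18, 13), [4227, 83], 12⟩,
  ⟨⟨-3, 20, -4, 4, 5, 18, 14, 8, -13⟩, (.cons (nat_lit 5132) (nat_lit 2304) (nat_lit 1) (nat_lit 6783) (.cons
 (nat_lit 762) (nat_lit 1091) (nat_lit 665) (nat_lit 1) .nil)), (nat_lit 15), (nat_lit 24), (nat_lit 38),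
 (nat_lit 1), (4, 1, 13), [5486, 464], 28⟩,
  ⟨⟨17, -12, -9, 4, 5, 18, 14, 8, -13⟩, (.cons (nat_lit 1356) (nat_lit 6265) (nat_lit 1738) (nat_lit 1) (.cons
 (nat_lit 376) (nat_lit 733) (nat_lit 661) (nat_lit 1) .nil)), (nat_lit 28), (nat_lit 19), (nat_lit 38),
 (nat_lit 1), (9, 1, 13), [1981, 292], 28⟩,
  ⟨⟨17, -12, -9, 4, 5, 18, 14, 8, -13⟩, (.cons (nat_lit 1356) (nat_lit 6265) (nat_lit 1738) (nat_lit 1) (.cons
 (nat_lit 376) (nat_lit 733) (nat_lit 661) (nat_lit 1) .nil)), (nat_lit 28), (nat_lit 19), (nat_lit 38),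
 (nat_lit 1), (9, 1, 13), [1981, 292], 28⟩,
  ⟨⟨17, -12, -9, -4, -5, -18, 14, 8, -13⟩, (.cons (nat_lit 5482) (nat_lit 4807) (nat_lit 6848) (nat_lit 1)
 (.cons (nat_lit 239) (nat_lit 205) (nat_lit 733) (nat_lit 1) .nil)), (nat_lit 33), (nat_lit 2), (nat_lit 6),
 (nat_lit 1), (9, 18, 13), [3487, 1133], 12⟩,
  ⟨⟨-3, 20, -4, -4, -5, -18, 14, 8, -13⟩, (.cons (nat_lit 2266) (nat_lit 1073) (nat_lit 5235) (nat_lit 1)
 (.cons (nat_lit 606) (nat_lit 752) (nat_lit 681) (nat_lit 1) .nil)), (nat_lit 10), (nat_lit 41), (nat_lit 6),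
 (nat_lit 1), (4, 18, 13), [4227, 83], 12⟩]

/-- Moves. -/
noncomputable def t1_1 : List Mv := [
  mz,
  ⟨⟨3, -16, -43, 10, 33, -20, 30, -12, -23⟩, (.cons (nat_lit 4386) (nat_lit 5246) (nat_lit 2855) (nat_lit 1)
 (.cons (nat_lit 1309) (nat_lit 52) (nat_lit 1287) (nat_lit 1) .nil)), (nat_lit 1), (nat_lit 35), (nat_lit 34),
 (nat_lit 1), (25, 34, 28), [2502, 97], 39⟩,
  mz,
  mz,
  ⟨⟨21, 4, 28, 8, 35, -14, 32, -8, -19⟩, (.cons (nat_lit 6858) (nat_lit 3383) (nat_lit 2075) (nat_lit 1) (.cons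
 (nat_lit 347) (nat_lit 876) (nat_lit 96) (nat_lit 1) .nil)), (nat_lit 42), (nat_lit 11), (nat_lit 16),
 (nat_lit 1), (33, 2, 8), [109, 240], 13⟩,
  ⟨⟨11, 12, -47, 8, -35, -14, 32, 8, -19⟩, (.cons (nat_lit 3868) (nat_lit 4669) (nat_lit 5968) (nat_lit 1)
 (.cons (nat_lit 1279) (nat_lit 1018) (nat_lit 267) (nat_lit 1) .nil)), (nat_lit 34), (nat_lit 35), (nat_lit
 36), (nat_lit 1), (29, 11, 7), [819, 834], 40⟩,
  mz,
  ⟨⟨-17, 36, 17, -30, -17, 30, -18, 12, -19⟩, (.cons (nat_lit 5553) (nat_lit 2496) (nat_lit 542) (nat_lit 1)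
 (.cons (nat_lit 1328) (nat_lit 464) (nat_lit 226) (nat_lit 1) .nil)), (nat_lit 1), (nat_lit 5), (nat_lit 10),
 (nat_lit 1), (36, 20, 12), [4970, 861], 7⟩,
  ⟨⟨-35, 12, -1, 12, 35, -6, 0, 0, -37⟩, (.cons (nat_lit 6858) (nat_lit 2223) (nat_lit 3420) (nat_lit 1) (.cons
 (nat_lit 623) (nat_lit 672) (nat_lit 767) (nat_lit 1) .nil)), (nat_lit 42), (nat_lit 11), (nat_lit 15),
 (nat_lit 1), (3, 18, 0), [2851, 1312], 7⟩,
  mz,
  ⟨⟨-1, 24, -36, 30, -17, -30, -18, -12, -19⟩, (.cons (nat_lit 6858) (nat_lit 2585) (nat_lit 5291) (nat_lit 1)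
 (.cons (nat_lit 915) (nat_lit 1216) (nat_lit 369) (nat_lit 1) .nil)), (nat_lit 42), (nat_lit 7), (nat_lit 42),
 (nat_lit 1), (10, 33, 32), [6147, 1243], 7⟩,
  ⟨⟨3, 16, -43, -10, 33, 20, 30, 12, -23⟩, (.cons (nat_lit 3911) (nat_lit 6723) (nat_lit 2606) (nat_lit 1)
 (.cons (nat_lit 1134) (nat_lit 1215) (nat_lit 893) (nat_lit 1) .nil)), (nat_lit 1), (nat_lit 2), (nat_lit 36),
 (nat_lit 1), (23, 22, 8), [6511, 387], 39⟩,
  ⟨⟨39, -4, -8, 10, 17, -40, 14, -28, -19⟩, (.cons (nat_lit 6858) (nat_lit 538) (nat_lit 4698) (nat_lit 1)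
 (.cons (nat_lit 1035) (nat_lit 1264) (nat_lit 1002) (nat_lit 1) .nil)), (nat_lit 42), (nat_lit 32), (nat_lit
 5), (nat_lit 1), (11, 18, 3), [2819, 537], 23⟩,
  ⟨⟨39, 8, -28, 8, -5, 36, 8, 32, -1⟩, (.cons (nat_lit 1568) (nat_lit 977) (nat_lit 3960) (nat_lit 1) (.cons
 (nat_lit 1097) (nat_lit 599) (nat_lit 576) (nat_lit 1) .nil)), (nat_lit 1), (nat_lit 17), (nat_lit 8),
 (nat_lit 1), (21, 10, 10), [6425, 308], 7⟩,
  mz,
  ⟨⟨-13, -24, -27, 32, 5, -36, -16, 16, -19⟩, (.cons (nat_lit 4603) (nat_lit 3188) (nat_lit 389) (nat_lit 1)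
 (.cons (nat_lit 35) (nat_lit 545) (nat_lit 56) (nat_lit 1) .nil)), (nat_lit 36), (nat_lit 27), (nat_lit 14),
 (nat_lit 1), (6, 8, 33), [6197, 367], 12⟩,
  ⟨⟨21, 4, -49, -8, -35, -6, 32, -8, -13⟩, (.cons (nat_lit 2218) (nat_lit 3895) (nat_lit 297) (nat_lit 1)
 (.cons (nat_lit 778) (nat_lit 427) (nat_lit 940) (nat_lit 1) .nil)), (nat_lit 1), (nat_lit 37), (nat_lit 15),
 (nat_lit 1), (36, 18, 2), [2237, 854], 30⟩,
  ⟨⟨39, -8, -11, -8, -5, 44, 8, -32, -7⟩, (.cons (nat_lit 4078) (nat_lit 5970) (nat_lit 2724) (nat_lit 1)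
 (.cons (nat_lit 768) (nat_lit 1189) (nat_lit 933) (nat_lit 1) .nil)), (nat_lit 15), (nat_lit 25), (nat_lit 5),
 (nat_lit 1), (5, 17, 20), [1403, 321], 15⟩,
  ⟨⟨39, 4, -8, -10, 17, 40, 14, 28, -19⟩, (.cons (nat_lit 6858) (nat_lit 3508) (nat_lit 3399) (nat_lit 1)
 (.cons (nat_lit 865) (nat_lit 517) (nat_lit 1267) (nat_lit 1) .nil)), (nat_lit 42), (nat_lit 25), (nat_lit
 15), (nat_lit 1), (29, 3, 18), [5761, 1161], 23⟩,
  ⟨⟨39, -8, -28, -8, -5, -36, 8, -32, -1⟩, (.cons (nat_lit 5007) (nat_lit 3970) (nat_lit 126) (nat_lit 1)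
 (.cons (nat_lit 713) (nat_lit 1078) (nat_lit 357) (nat_lit 1) .nil)), (nat_lit 1), (nat_lit 3), (nat_lit 31),
 (nat_lit 1), (22, 23, 14), [2492, 813], 7⟩,
  ⟨⟨-39, -4, 31, -10, 17, -30, -14, -28, -5⟩, (.cons (nat_lit 3929) (nat_lit 4030) (nat_lit 5460) (nat_lit 1)
 (.cons (nat_lit 603) (nat_lit 1052) (nat_lit 189) (nat_lit 1) .nil)), (nat_lit 1), (nat_lit 32), (nat_lit 38),
 (nat_lit 1), (22, 36, 6), [3457, 280], 23⟩,
  ⟨⟨13, -24, -40, -32, 5, -4, 16, 16, -35⟩, (.cons (nat_lit 4813) (nat_lit 5178) (nat_lit 2181) (nat_lit 1)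
 (.cons (nat_lit 262) (nat_lit 1141) (nat_lit 989) (nat_lit 1) .nil)), (nat_lit 7), (nat_lit 27), (nat_lit 29),
 (nat_lit 1), (27, 36, 19), [961, 1238], 12⟩,
  ⟨⟨39, 8, -11, 8, -5, -44, 8, 32, -7⟩, (.cons (nat_lit 3998) (nat_lit 1260) (nat_lit 1540) (nat_lit 1) (.cons
 (nat_lit 878) (nat_lit 1045) (nat_lit 389) (nat_lit 1) .nil)), (nat_lit 23), (nat_lit 27), (nat_lit 14),
 (nat_lit 1), (4, 16, 16), [2240, 966], 23⟩,
  mz,
  ⟨⟨13, 24, -40, -32, -5, -4, 16, -16, -35⟩, (.cons (nat_lit 5365) (nat_lit 484) (nat_lit 1846) (nat_lit 1)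
 (.cons (nat_lit 1050) (nat_lit 506) (nat_lit 422) (nat_lit 1) .nil)), (nat_lit 1), (nat_lit 21), (nat_lit 8),
 (nat_lit 1), (24, 32, 21), [5053, 287], 30⟩,
  ⟨⟨1, 24, -37, 30, 17, 0, 18, -12, -37⟩, (.cons (nat_lit 5736) (nat_lit 4547) (nat_lit 4303) (nat_lit 1)
 (.cons (nat_lit 152) (nat_lit 853) (nat_lit 212) (nat_lit 1) .nil)), (nat_lit 30), (nat_lit 30), (nat_lit 37),
 (nat_lit 1), (23, 24, 7), [341, 24], 30⟩,
  ⟨⟨3, 16, 40, -10, 33, -10, 30, 12, -7⟩, (.cons (nat_lit 3659) (nat_lit 3704) (nat_lit 4246) (nat_lit 1)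
 (.cons (nat_lit 577) (nat_lit 1227) (nat_lit 316) (nat_lit 1) .nil)), (nat_lit 11), (nat_lit 6), (nat_lit 27),
 (nat_lit 1), (14, 15, 29), [3763, 1097], 40⟩,
  ⟨⟨3, -16, 40, 10, 33, 10, 30, -12, -7⟩, (.cons (nat_lit 1584) (nat_lit 4168) (nat_lit 3015) (nat_lit 1)
 (.cons (nat_lit 1152) (nat_lit 621) (nat_lit 864) (nat_lit 1) .nil)), (nat_lit 4), (nat_lit 19), (nat_lit 21),
 (nat_lit 1), (16, 4, 12), [6471, 113], 38⟩,
  mz,
  ⟨⟨-35, -12, -1, 12, -35, -6, 0, 0, -37⟩, (.cons (nat_lit 970) (nat_lit 5952) (nat_lit 3099) (nat_lit 1)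
 (.cons (nat_lit 99) (nat_lit 393) (nat_lit 720) (nat_lit 1) .nil)), (nat_lit 1), (nat_lit 20), (nat_lit 4),
 (nat_lit 1), (23, 27, 0), [2081, 847], 42⟩,
  ⟨⟨-39, 4, 31, -10, -17, -30, -14, 28, -5⟩, (.cons (nat_lit 4600) (nat_lit 3055) (nat_lit 678) (nat_lit 1)
 (.cons (nat_lit 105) (nat_lit 287) (nat_lit 18) (nat_lit 1) .nil)), (nat_lit 3), (nat_lit 17), (nat_lit 31),
 (nat_lit 1), (3, 15, 21), [3398, 954], 38⟩,
  mz,
  mz,
  ⟨⟨-3, -40, 8, -32, 5, 36, -16, -16, -19⟩, (.cons (nat_lit 4690) (nat_lit 2899) (nat_lit 4738) (nat_lit 1)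
 (.cons (nat_lit 537) (nat_lit 616) (nat_lit 903) (nat_lit 1) .nil)), (nat_lit 37), (nat_lit 33), (nat_lit 2),
 (nat_lit 1), (32, 33, 35), [707, 103], 2⟩,
  mz,
  ⟨⟨21, -4, -49, -8, 35, -6, 32, 8, -13⟩, (.cons (nat_lit 2534) (nat_lit 529) (nat_lit 1183) (nat_lit 1) (.cons
 (nat_lit 1285) (nat_lit 416) (nat_lit 1145) (nat_lit 1) .nil)), (nat_lit 19), (nat_lit 23), (nat_lit 4),
 (nat_lit 1), (18, 9, 1), [5716, 8], 8⟩,
  ⟨⟨17, 36, 0, 30, -17, 0, 18, 12, -37⟩, (.cons (nat_lit 6858) (nat_lit 861) (nat_lit 3602) (nat_lit 1) (.cons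
 (nat_lit 927) (nat_lit 402) (nat_lit 331) (nat_lit 1) .nil)), (nat_lit 42), (nat_lit 5), (nat_lit 33),
 (nat_lit 1), (35, 3, 24), [2119, 658], 7⟩]

/-- Moves. -/
noncomputable def t1_2 : List Mv := [
  mz,
  ⟨⟨3, -16, -43, -10, -33, 20, 30, -12, -23⟩, (.cons (nat_lit 83) (nat_lit 5786) (nat_lit 794) (nat_lit 1)
 (.cons (nat_lit 1206) (nat_lit 773) (nat_lit 1241) (nat_lit 1) .nil)), (nat_lit 32), (nat_lit 6), (nat_lit
 16), (nat_lit 1), (25, 3, 28), [5158, 1156], 3⟩,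
  mz,
  mz,
  ⟨⟨21, 4, 28, 8, 35, -14, 32, -8, -19⟩, (.cons (nat_lit 6858) (nat_lit 3383) (nat_lit 2075) (nat_lit 1) (.cons
 (nat_lit 347) (nat_lit 876) (nat_lit 96) (nat_lit 1) .nil)), (nat_lit 42), (nat_lit 11), (nat_lit 16),
 (nat_lit 1), (33, 2, 8), [109, 240], 13⟩,
  ⟨⟨21, -4, 28, -8, 35, 14, 32, 8, -19⟩, (.cons (nat_lit 6858) (nat_lit 5348) (nat_lit 3319) (nat_lit 1) (.cons
 (nat_lit 173) (nat_lit 276) (nat_lit 42) (nat_lit 1) .nil)), (nat_lit 42), (nat_lit 37), (nat_lit 28),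
 (nat_lit 1), (15, 26, 7), [1231, 467], 13⟩,
  mz,
  ⟨⟨-1, -24, -36, 30, 17, -30, -18, 12, -19⟩, (.cons (nat_lit 1301) (nat_lit 4084) (nat_lit 2430) (nat_lit 1)
 (.cons (nat_lit 331) (nat_lit 721) (nat_lit 688) (nat_lit 1) .nil)), (nat_lit 10), (nat_lit 1), (nat_lit 26),
 (nat_lit 1), (13, 17, 12), [2610, 139], 33⟩,
  ⟨⟨-35, 12, -1, -12, -35, 6, 0, 0, -37⟩, (.cons (nat_lit 5169) (nat_lit 3586) (nat_lit 3893) (nat_lit 1)
 (.cons (nat_lit 328) (nat_lit 439) (nat_lit 1069) (nat_lit 1) .nil)), (nat_lit 1), (nat_lit 23), (nat_lit 39),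
 (nat_lit 1), (3, 19, 0), [1112, 765], 42⟩,
  mz,
  ⟨⟨-1, 24, -36, 30, -17, -30, -18, -12, -19⟩, (.cons (nat_lit 6858) (nat_lit 2585) (nat_lit 5291) (nat_lit 1)
 (.cons (nat_lit 915) (nat_lit 1216) (nat_lit 369) (nat_lit 1) .nil)), (nat_lit 42), (nat_lit 7), (nat_lit 42),
 (nat_lit 1), (10, 33, 32), [6147, 1243], 7⟩,
  ⟨⟨27, -4, 20, -10, 33, 20, 30, 12, -23⟩, (.cons (nat_lit 6858) (nat_lit 4856) (nat_lit 5972) (nat_lit 1)
 (.cons (nat_lit 956) (nat_lit 231) (nat_lit 837) (nat_lit 1) .nil)), (nat_lit 42), (nat_lit 41), (nat_lit 36),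
 (nat_lit 1), (22, 22, 8), [6697, 731], 39⟩,
  ⟨⟨39, -4, -8, 10, 17, -40, 14, -28, -19⟩, (.cons (nat_lit 6858) (nat_lit 538) (nat_lit 4698) (nat_lit 1)
 (.cons (nat_lit 1035) (nat_lit 1264) (nat_lit 1002) (nat_lit 1) .nil)), (nat_lit 42), (nat_lit 32), (nat_lit
 5), (nat_lit 1), (11, 18, 3), [2819, 537], 23⟩,
  ⟨⟨-31, 24, 27, 8, -5, 36, 8, 32, -1⟩, (.cons (nat_lit 6858) (nat_lit 3302) (nat_lit 4843) (nat_lit 1) (.cons
 (nat_lit 772) (nat_lit 1294) (nat_lit 1010) (nat_lit 1) .nil)), (nat_lit 42), (nat_lit 26), (nat_lit 8),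
 (nat_lit 1), (26, 10, 10), [2916, 1227], 7⟩,
  mz,
  ⟨⟨-3, 40, 8, 32, 5, -36, -16, 16, -19⟩, (.cons (nat_lit 2223) (nat_lit 3542) (nat_lit 1076) (nat_lit 1)
 (.cons (nat_lit 495) (nat_lit 1269) (nat_lit 275) (nat_lit 1) .nil)), (nat_lit 7), (nat_lit 16), (nat_lit 14),
 (nat_lit 1), (27, 8, 33), [20, 615], 12⟩,
  ⟨⟨11, -12, 36, 8, 35, 6, 32, -8, -13⟩, (.cons (nat_lit 3376) (nat_lit 6583) (nat_lit 1) (nat_lit 1995) (.cons
 (nat_lit 1084) (nat_lit 1165) (nat_lit 1271) (nat_lit 1) .nil)), (nat_lit 9), (nat_lit 35), (nat_lit 7),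
 (nat_lit 1), (3, 19, 2), [5254, 1111], 3⟩,
  ⟨⟨-31, -24, 4, 8, 5, -44, 8, -32, -7⟩, (.cons (nat_lit 6006) (nat_lit 3442) (nat_lit 3252) (nat_lit 1) (.cons
 (nat_lit 909) (nat_lit 886) (nat_lit 864) (nat_lit 1) .nil)), (nat_lit 1), (nat_lit 26), (nat_lit 35),
 (nat_lit 1), (15, 20, 20), [805, 676], 36⟩,
  ⟨⟨39, 4, -8, 10, -17, -40, 14, 28, -19⟩, (.cons (nat_lit 4261) (nat_lit 1628) (nat_lit 1779) (nat_lit 1)
 (.cons (nat_lit 653) (nat_lit 543) (nat_lit 261) (nat_lit 1) .nil)), (nat_lit 40), (nat_lit 17), (nat_lit 12),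
 (nat_lit 1), (29, 34, 18), [5072, 1306], 38⟩,
  ⟨⟨39, -8, -28, -8, -5, -36, 8, -32, -1⟩, (.cons (nat_lit 5007) (nat_lit 3970) (nat_lit 126) (nat_lit 1)
 (.cons (nat_lit 713) (nat_lit 1078) (nat_lit 357) (nat_lit 1) .nil)), (nat_lit 1), (nat_lit 3), (nat_lit 31),
 (nat_lit 1), (22, 23, 14), [2492, 813], 7⟩,
  ⟨⟨25, -24, -36, 10, -17, 30, -14, -28, -5⟩, (.cons (nat_lit 1809) (nat_lit 215) (nat_lit 796) (nat_lit 1)
 (.cons (nat_lit 349) (nat_lit 781) (nat_lit 1335) (nat_lit 1) .nil)), (nat_lit 14), (nat_lit 23), (nat_lit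
 39), (nat_lit 1), (21, 1, 6), [3879, 892], 9⟩,
  ⟨⟨3, 40, 5, -32, 5, -4, 16, 16, -35⟩, (.cons (nat_lit 1753) (nat_lit 6086) (nat_lit 6758) (nat_lit 1) (.cons
 (nat_lit 1191) (nat_lit 675) (nat_lit 748) (nat_lit 1) .nil)), (nat_lit 36), (nat_lit 16), (nat_lit 29),
 (nat_lit 1), (29, 36, 19), [4791, 1286], 12⟩,
  ⟨⟨39, 8, -11, 8, -5, -44, 8, 32, -7⟩, (.cons (nat_lit 3998) (nat_lit 1260) (nat_lit 1540) (nat_lit 1) (.cons
 (nat_lit 878) (nat_lit 1045) (nat_lit 389) (nat_lit 1) .nil)), (nat_lit 23), (nat_lit 27), (nat_lit 14),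
 (nat_lit 1), (4, 16, 16), [2240, 966], 23⟩,
  mz,
  ⟨⟨3, -40, 5, 32, 5, 4, 16, -16, -35⟩, (.cons (nat_lit 2645) (nat_lit 603) (nat_lit 6503) (nat_lit 1) (.cons
 (nat_lit 697) (nat_lit 192) (nat_lit 1004) (nat_lit 1) .nil)), (nat_lit 6), (nat_lit 33), (nat_lit 41),
 (nat_lit 1), (34, 5, 21), [5026, 411], 2⟩,
  ⟨⟨1, 24, -37, -30, -17, 0, 18, -12, -37⟩, (.cons (nat_lit 973) (nat_lit 6294) (nat_lit 4784) (nat_lit 1)
 (.cons (nat_lit 281) (nat_lit 1244) (nat_lit 757) (nat_lit 1) .nil)), (nat_lit 1), (nat_lit 7), (nat_lit 1),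
 (nat_lit 1), (23, 13, 7), [6712, 924], 7⟩,
  ⟨⟨27, -4, -47, -10, 33, -10, 30, 12, -7⟩, (.cons (nat_lit 2) (nat_lit 4601) (nat_lit 2332) (nat_lit 1) (.cons
 (nat_lit 565) (nat_lit 1112) (nat_lit 307) (nat_lit 1) .nil)), (nat_lit 32), (nat_lit 37), (nat_lit 27),
 (nat_lit 1), (15, 15, 29), [6310, 62], 40⟩,
  ⟨⟨27, 4, -47, 10, 33, 10, 30, -12, -7⟩, (.cons (nat_lit 2975) (nat_lit 2740) (nat_lit 4205) (nat_lit 1)
 (.cons (nat_lit 270) (nat_lit 896) (nat_lit 85) (nat_lit 1) .nil)), (nat_lit 39), (nat_lit 24), (nat_lit 21),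
 (nat_lit 1), (33, 4, 12), [4858, 774], 38⟩,
  mz,
  ⟨⟨-35, -12, -1, 12, -35, -6, 0, 0, -37⟩, (.cons (nat_lit 970) (nat_lit 5952) (nat_lit 3099) (nat_lit 1)
 (.cons (nat_lit 99) (nat_lit 393) (nat_lit 720) (nat_lit 1) .nil)), (nat_lit 1), (nat_lit 20), (nat_lit 4),
 (nat_lit 1), (23, 27, 0), [2081, 847], 42⟩,
  ⟨⟨-39, 4, 31, -10, -17, -30, -14, 28, -5⟩, (.cons (nat_lit 4600) (nat_lit 3055) (nat_lit 678) (nat_lit 1)
 (.cons (nat_lit 105) (nat_lit 287) (nat_lit 18) (nat_lit 1) .nil)), (nat_lit 3), (nat_lit 17), (nat_lit 31),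
 (nat_lit 1), (3, 15, 21), [3398, 954], 38⟩,
  mz,
  mz,
  ⟨⟨-13, 24, -27, -32, 5, 36, -16, -16, -19⟩, (.cons (nat_lit 1809) (nat_lit 1327) (nat_lit 2776) (nat_lit 1)
 (.cons (nat_lit 847) (nat_lit 255) (nat_lit 1053) (nat_lit 1) .nil)), (nat_lit 6), (nat_lit 10), (nat_lit 2),
 (nat_lit 1), (3, 33, 35), [5292, 713], 2⟩,
  mz,
  ⟨⟨21, -4, -49, -8, 35, -6, 32, 8, -13⟩, (.cons (nat_lit 2534) (nat_lit 529) (nat_lit 1183) (nat_lit 1) (.cons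
 (nat_lit 1285) (nat_lit 416) (nat_lit 1145) (nat_lit 1) .nil)), (nat_lit 19), (nat_lit 23), (nat_lit 4),
 (nat_lit 1), (18, 9, 1), [5716, 8], 8⟩,
  ⟨⟨17, 36, 0, 30, -17, 0, 18, 12, -37⟩, (.cons (nat_lit 6858) (nat_lit 861) (nat_lit 3602) (nat_lit 1) (.cons
 (nat_lit 927) (nat_lit 402) (nat_lit 331) (nat_lit 1) .nil)), (nat_lit 42), (nat_lit 5), (nat_lit 33),
 (nat_lit 1), (35, 3, 24), [2119, 658], 7⟩]

/-- Moves. -/
noncomputable def t1_8 : List Mv := [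
  mz,
  ⟨⟨3, -16, -43, 10, 33, -20, 30, -12, -23⟩, (.cons (nat_lit 4386) (nat_lit 5246) (nat_lit 2855) (nat_lit 1)
 (.cons (nat_lit 1309) (nat_lit 52) (nat_lit 1287) (nat_lit 1) .nil)), (nat_lit 1), (nat_lit 35), (nat_lit 34),
 (nat_lit 1), (25, 34, 28), [2502, 97], 39⟩,
  mz,
  mz,
  ⟨⟨21, 4, 28, 8, 35, -14, 32, -8, -19⟩, (.cons (nat_lit 6858) (nat_lit 3383) (nat_lit 2075) (nat_lit 1) (.cons
 (nat_lit 347) (nat_lit 876) (nat_lit 96) (nat_lit 1) .nil)), (nat_lit 42), (nat_lit 11), (nat_lit 16),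
 (nat_lit 1), (33, 2, 8), [109, 240], 13⟩,
  ⟨⟨21, -4, 28, -8, 35, 14, 32, 8, -19⟩, (.cons (nat_lit 6858) (nat_lit 5348) (nat_lit 3319) (nat_lit 1) (.cons
 (nat_lit 173) (nat_lit 276) (nat_lit 42) (nat_lit 1) .nil)), (nat_lit 42), (nat_lit 37), (nat_lit 28),
 (nat_lit 1), (15, 26, 7), [1231, 467], 13⟩,
  mz,
  ⟨⟨-17, 36, 17, 30, 17, -30, -18, 12, -19⟩, (.cons (nat_lit 1814) (nat_lit 3119) (nat_lit 6759) (nat_lit 1)
 (.cons (nat_lit 287) (nat_lit 659) (nat_lit 10) (nat_lit 1) .nil)), (nat_lit 33), (nat_lit 42), (nat_lit 26),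
 (nat_lit 1), (36, 17, 12), [1990, 542], 33⟩,
  ⟨⟨35, -12, -36, -12, -35, 6, 0, 0, -37⟩, (.cons (nat_lit 2432) (nat_lit 3693) (nat_lit 1) (nat_lit 4427)
 (.cons (nat_lit 510) (nat_lit 245) (nat_lit 924) (nat_lit 1) .nil)), (nat_lit 42), (nat_lit 20), (nat_lit 39),
 (nat_lit 1), (34, 19, 0), [2705, 15], 42⟩,
  mz,
  ⟨⟨-17, -36, 17, 30, -17, -30, -18, -12, -19⟩, (.cons (nat_lit 5287) (nat_lit 3490) (nat_lit 2984) (nat_lit 1)
 (.cons (nat_lit 501) (nat_lit 874) (nat_lit 837) (nat_lit 1) .nil)), (nat_lit 1), (nat_lit 36), (nat_lit 42),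
 (nat_lit 1), (22, 33, 32), [2310, 1360], 7⟩,
  ⟨⟨27, -4, 20, -10, 33, 20, 30, 12, -23⟩, (.cons (nat_lit 6858) (nat_lit 4856) (nat_lit 5972) (nat_lit 1)
 (.cons (nat_lit 956) (nat_lit 231) (nat_lit 837) (nat_lit 1) .nil)), (nat_lit 42), (nat_lit 41), (nat_lit 36),
 (nat_lit 1), (22, 22, 8), [6697, 731], 39⟩,
  ⟨⟨-25, -24, -11, -10, -17, 40, 14, -28, -19⟩, (.cons (nat_lit 4266) (nat_lit 6329) (nat_lit 2150) (nat_lit 1)
 (.cons (nat_lit 69) (nat_lit 1170) (nat_lit 672) (nat_lit 1) .nil)), (nat_lit 29), (nat_lit 23), (nat_lit 4),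
 (nat_lit 1), (29, 19, 3), [688, 365], 9⟩,
  ⟨⟨-31, 24, 27, -8, 5, -36, 8, 32, -1⟩, (.cons (nat_lit 658) (nat_lit 11) (nat_lit 63) (nat_lit 1) (.cons
 (nat_lit 858) (nat_lit 617) (nat_lit 347) (nat_lit 1) .nil)), (nat_lit 15), (nat_lit 18), (nat_lit 38),
 (nat_lit 1), (26, 27, 10), [1295, 1046], 28⟩,
  mz,
  ⟨⟨-3, 40, 8, 32, 5, -36, -16, 16, -19⟩, (.cons (nat_lit 2223) (nat_lit 3542) (nat_lit 1076) (nat_lit 1)
 (.cons (nat_lit 495) (nat_lit 1269) (nat_lit 275) (nat_lit 1) .nil)), (nat_lit 7), (nat_lit 16), (nat_lit 14),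
 (nat_lit 1), (27, 8, 33), [20, 615], 12⟩,
  ⟨⟨21, 4, -49, -8, -35, -6, 32, -8, -13⟩, (.cons (nat_lit 2218) (nat_lit 3895) (nat_lit 297) (nat_lit 1)
 (.cons (nat_lit 778) (nat_lit 427) (nat_lit 940) (nat_lit 1) .nil)), (nat_lit 1), (nat_lit 37), (nat_lit 15),
 (nat_lit 1), (36, 18, 2), [2237, 854], 30⟩,
  ⟨⟨39, -8, -11, 8, 5, -44, 8, -32, -7⟩, (.cons (nat_lit 6858) (nat_lit 3742) (nat_lit 4232) (nat_lit 1) (.cons
 (nat_lit 1239) (nat_lit 78) (nat_lit 1283) (nat_lit 1) .nil)), (nat_lit 42), (nat_lit 17), (nat_lit 35),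
 (nat_lit 1), (5, 20, 20), [431, 267], 36⟩,
  ⟨⟨39, 4, -8, -10, 17, 40, 14, 28, -19⟩, (.cons (nat_lit 6858) (nat_lit 3508) (nat_lit 3399) (nat_lit 1)
 (.cons (nat_lit 865) (nat_lit 517) (nat_lit 1267) (nat_lit 1) .nil)), (nat_lit 42), (nat_lit 25), (nat_lit
 15), (nat_lit 1), (29, 3, 18), [5761, 1161], 23⟩,
  ⟨⟨-31, -24, 27, 8, 5, 36, 8, -32, -1⟩, (.cons (nat_lit 5556) (nat_lit 615) (nat_lit 6640) (nat_lit 1) (.cons
 (nat_lit 248) (nat_lit 294) (nat_lit 1223) (nat_lit 1) .nil)), (nat_lit 23), (nat_lit 16), (nat_lit 29),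
 (nat_lit 1), (29, 14, 14), [3346, 636], 20⟩,
  ⟨⟨-39, -4, 31, -10, 17, -30, -14, -28, -5⟩, (.cons (nat_lit 3929) (nat_lit 4030) (nat_lit 5460) (nat_lit 1)
 (.cons (nat_lit 603) (nat_lit 1052) (nat_lit 189) (nat_lit 1) .nil)), (nat_lit 1), (nat_lit 32), (nat_lit 38),
 (nat_lit 1), (22, 36, 6), [3457, 280], 23⟩,
  ⟨⟨3, 40, 5, 32, -5, 4, 16, 16, -35⟩, (.cons (nat_lit 6858) (nat_lit 993) (nat_lit 1057) (nat_lit 1) (.cons
 (nat_lit 637) (nat_lit 88) (nat_lit 684) (nat_lit 1) .nil)), (nat_lit 42), (nat_lit 40), (nat_lit 13),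
 (nat_lit 1), (29, 1, 19), [384, 681], 30⟩,
  ⟨⟨-31, 24, 4, -8, 5, 44, 8, 32, -7⟩, (.cons (nat_lit 4885) (nat_lit 3802) (nat_lit 1800) (nat_lit 1) (.cons
 (nat_lit 168) (nat_lit 965) (nat_lit 1261) (nat_lit 1) .nil)), (nat_lit 1), (nat_lit 40), (nat_lit 12),
 (nat_lit 1), (12, 21, 16), [2914, 344], 36⟩,
  mz,
  ⟨⟨13, 24, -40, -32, -5, -4, 16, -16, -35⟩, (.cons (nat_lit 5365) (nat_lit 484) (nat_lit 1846) (nat_lit 1)
 (.cons (nat_lit 1050) (nat_lit 506) (nat_lit 422) (nat_lit 1) .nil)), (nat_lit 1), (nat_lit 21), (nat_lit 8),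
 (nat_lit 1), (24, 32, 21), [5053, 287], 30⟩,
  ⟨⟨1, 24, -37, -30, -17, 0, 18, -12, -37⟩, (.cons (nat_lit 973) (nat_lit 6294) (nat_lit 4784) (nat_lit 1)
 (.cons (nat_lit 281) (nat_lit 1244) (nat_lit 757) (nat_lit 1) .nil)), (nat_lit 1), (nat_lit 7), (nat_lit 1),
 (nat_lit 1), (23, 13, 7), [6712, 924], 7⟩,
  ⟨⟨27, -4, -47, -10, 33, -10, 30, 12, -7⟩, (.cons (nat_lit 2) (nat_lit 4601) (nat_lit 2332) (nat_lit 1) (.cons
 (nat_lit 565) (nat_lit 1112) (nat_lit 307) (nat_lit 1) .nil)), (nat_lit 32), (nat_lit 37), (nat_lit 27),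
 (nat_lit 1), (15, 15, 29), [6310, 62], 40⟩,
  ⟨⟨27, 4, -47, -10, -33, -10, 30, -12, -7⟩, (.cons (nat_lit 3255) (nat_lit 3704) (nat_lit 2053) (nat_lit 1)
 (.cons (nat_lit 1228) (nat_lit 103) (nat_lit 189) (nat_lit 1) .nil)), (nat_lit 1), (nat_lit 41), (nat_lit 7),
 (nat_lit 1), (33, 33, 12), [6391, 442], 4⟩,
  mz,
  ⟨⟨-35, -12, -1, 12, -35, -6, 0, 0, -37⟩, (.cons (nat_lit 970) (nat_lit 5952) (nat_lit 3099) (nat_lit 1)
 (.cons (nat_lit 99) (nat_lit 393) (nat_lit 720) (nat_lit 1) .nil)), (nat_lit 1), (nat_lit 20), (nat_lit 4),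
 (nat_lit 1), (23, 27, 0), [2081, 847], 42⟩,
  ⟨⟨25, 24, -36, -10, -17, -30, -14, 28, -5⟩, (.cons (nat_lit 4603) (nat_lit 4910) (nat_lit 5577) (nat_lit 1)
 (.cons (nat_lit 464) (nat_lit 608) (nat_lit 1) (nat_lit 259) .nil)), (nat_lit 40), (nat_lit 26), (nat_lit 31),
 (nat_lit 1), (18, 15, 21), [2431, 465], 38⟩,
  mz,
  mz,
  ⟨⟨-3, -40, 8, 32, -5, -36, -16, -16, -19⟩, (.cons (nat_lit 1740) (nat_lit 1497) (nat_lit 4831) (nat_lit 1)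
 (.cons (nat_lit 1060) (nat_lit 1205) (nat_lit 223) (nat_lit 1) .nil)), (nat_lit 1), (nat_lit 22), (nat_lit
 35), (nat_lit 1), (32, 4, 35), [5161, 700], 30⟩,
  mz,
  ⟨⟨11, 12, 36, -8, 35, -6, 32, 8, -13⟩, (.cons (nat_lit 2014) (nat_lit 1341) (nat_lit 1859) (nat_lit 1) (.cons
 (nat_lit 785) (nat_lit 956) (nat_lit 500) (nat_lit 1) .nil)), (nat_lit 24), (nat_lit 20), (nat_lit 4),
 (nat_lit 1), (20, 9, 1), [5961, 803], 8⟩,
  ⟨⟨1, -24, -37, 30, -17, 0, 18, 12, -37⟩, (.cons (nat_lit 688) (nat_lit 4361) (nat_lit 4349) (nat_lit 1)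
 (.cons (nat_lit 194) (nat_lit 541) (nat_lit 218) (nat_lit 1) .nil)), (nat_lit 1), (nat_lit 38), (nat_lit 33),
 (nat_lit 1), (26, 3, 24), [6142, 10], 7⟩]

/-- Moves. -/
noncomputable def t4_1 : List Mv := [
  mz,
  ⟨⟨33, -32, -5, 2, 15, 44, 36, 12, -25⟩, (.cons (nat_lit 5179) (nat_lit 6588) (nat_lit 2608) (nat_lit 1)
 (.cons (nat_lit 808) (nat_lit 169) (nat_lit 187) (nat_lit 1) .nil)), (nat_lit 21), (nat_lit 0), (nat_lit 0),
 (nat_lit 0), (9, 24, 2), [4855, 362], 0⟩,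
  mz,
  mz,
  ⟨⟨19, 36, -36, -20, -13, -30, 34, -8, -35⟩, (.cons (nat_lit 1657) (nat_lit 3816) (nat_lit 6225) (nat_lit 1)
 (.cons (nat_lit 330) (nat_lit 415) (nat_lit 385) (nat_lit 1) .nil)), (nat_lit 18), (nat_lit 0), (nat_lit 0),
 (nat_lit 0), (14, 26, 16), [2859, 183], 0⟩,
  ⟨⟨33, -32, -28, 2, 15, -46, 36, 12, -11⟩, (.cons (nat_lit 296) (nat_lit 3331) (nat_lit 6473) (nat_lit 1)
 (.cons (nat_lit 578) (nat_lit 108) (nat_lit 1282) (nat_lit 1) .nil)), (nat_lit 21), (nat_lit 0), (nat_lit 0),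
 (nat_lit 0), (19, 22, 9), [3408, 385], 0⟩,
  ⟨⟨-37, -24, 0, -20, 37, 0, 2, -8, -43⟩, (.cons (nat_lit 6858) (nat_lit 2323) (nat_lit 4812) (nat_lit 1)
 (.cons (nat_lit 1368) (nat_lit 1006) (nat_lit 532) (nat_lit 1) .nil)), (nat_lit 6), (nat_lit 0), (nat_lit 0),
 (nat_lit 0), (12, 3, 4), [5950, 960], 0⟩,
  ⟨⟨-3, -32, 40, 20, 27, 20, 30, -24, -13⟩, (.cons (nat_lit 6352) (nat_lit 3277) (nat_lit 3738) (nat_lit 1)
 (.cons (nat_lit 250) (nat_lit 1040) (nat_lit 226) (nat_lit 1) .nil)), (nat_lit 30), (nat_lit 0), (nat_lit 0),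
 (nat_lit 0), (1, 22, 33), [3355, 964], 0⟩,
  ⟨⟨-39, -16, -4, 20, -37, -20, -2, 8, -41⟩, (.cons (nat_lit 1476) (nat_lit 5689) (nat_lit 5659) (nat_lit 1)
 (.cons (nat_lit 109) (nat_lit 1340) (nat_lit 964) (nat_lit 1) .nil)), (nat_lit 37), (nat_lit 0), (nat_lit 0),
 (nat_lit 0), (6, 30, 40), [4204, 663], 0⟩,
  ⟨⟨-29, 0, -27, 0, -43, 0, 18, 0, -47⟩, (.cons (nat_lit 4391) (nat_lit 3660) (nat_lit 1329) (nat_lit 1) (.cons
 (nat_lit 568) (nat_lit 1312) (nat_lit 294) (nat_lit 1) .nil)), (nat_lit 34), (nat_lit 0), (nat_lit 0),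
 (nat_lit 0), (33, 0, 24), [2913, 1087], 0⟩,
  ⟨⟨-9, -16, -44, 38, 15, -34, 12, -36, -13⟩, (.cons (nat_lit 4482) (nat_lit 29) (nat_lit 1) (nat_lit 4978)
 (.cons (nat_lit 1295) (nat_lit 855) (nat_lit 20) (nat_lit 1) .nil)), (nat_lit 5), (nat_lit 0), (nat_lit 0),
 (nat_lit 0), (15, 37, 23), [6733, 778], 0⟩,
  mz,
  ⟨⟨-15, 44, 16, 20, 13, -50, -34, 8, -1⟩, (.cons (nat_lit 4767) (nat_lit 1274) (nat_lit 613) (nat_lit 1)
 (.cons (nat_lit 1222) (nat_lit 1314) (nat_lit 1059) (nat_lit 1) .nil)), (nat_lit 25), (nat_lit 0), (nat_lit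
 0), (nat_lit 0), (28, 20, 9), [6368, 1158], 0⟩,
  ⟨⟨33, 8, 20, 20, 27, -40, 30, -24, -17⟩, (.cons (nat_lit 1406) (nat_lit 4659) (nat_lit 1) (nat_lit 5453)
 (.cons (nat_lit 1368) (nat_lit 776) (nat_lit 944) (nat_lit 1) .nil)), (nat_lit 13), (nat_lit 0), (nat_lit 0),
 (nat_lit 0), (4, 35, 31), [1787, 114], 0⟩,
  mz,
  mz,
  mz,
  ⟨⟨9, -4, -56, 40, -13, -10, 14, 32, -25⟩, (.cons (nat_lit 5362) (nat_lit 3029) (nat_lit 6066) (nat_lit 1)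
 (.cons (nat_lit 219) (nat_lit 2) (nat_lit 1096) (nat_lit 1) .nil)), (nat_lit 12), (nat_lit 0), (nat_lit 0),
 (nat_lit 0), (19, 8, 20), [6450, 1330], 0⟩,
  ⟨⟨-5, -36, 36, 40, -13, -30, -14, -32, -11⟩, (.cons (nat_lit 1544) (nat_lit 6836) (nat_lit 4918) (nat_lit 1)
 (.cons (nat_lit 419) (nat_lit 1347) (nat_lit 227) (nat_lit 1) .nil)), (nat_lit 4), (nat_lit 0), (nat_lit 0),
 (nat_lit 0), (11, 41, 5), [1327, 1340], 0⟩,
  mz,
  mz,
  ⟨⟨21, 20, 31, -38, 15, 34, 12, 36, -13⟩, (.cons (nat_lit 3997) (nat_lit 6324) (nat_lit 1504) (nat_lit 1)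
 (.cons (nat_lit 1042) (nat_lit 503) (nat_lit 913) (nat_lit 1) .nil)), (nat_lit 1), (nat_lit 0), (nat_lit 0),
 (nat_lit 0), (12, 9, 13), [3739, 1192], 0⟩,
  ⟨⟨9, 16, -53, -38, -15, 4, -12, 36, -1⟩, (.cons (nat_lit 1904) (nat_lit 4957) (nat_lit 3496) (nat_lit 1)
 (.cons (nat_lit 831) (nat_lit 888) (nat_lit 920) (nat_lit 1) .nil)), (nat_lit 5), (nat_lit 0), (nat_lit 0),
 (nat_lit 0), (1, 34, 13), [6005, 768], 0⟩,
  mz,
  mz,
  ⟨⟨9, 4, -56, 40, 13, -10, 14, -32, -25⟩, (.cons (nat_lit 6659) (nat_lit 1017) (nat_lit 5997) (nat_lit 1)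
 (.cons (nat_lit 149) (nat_lit 1350) (nat_lit 1013) (nat_lit 1) .nil)), (nat_lit 12), (nat_lit 0), (nat_lit 0),
 (nat_lit 0), (37, 2, 5), [4176, 307], 0⟩,
  ⟨⟨-5, 36, 36, -40, -13, 30, -14, 32, -11⟩, (.cons (nat_lit 972) (nat_lit 5822) (nat_lit 542) (nat_lit 1)
 (.cons (nat_lit 1283) (nat_lit 991) (nat_lit 1265) (nat_lit 1) .nil)), (nat_lit 31), (nat_lit 0), (nat_lit 0),
 (nat_lit 0), (1, 8, 20), [2152, 661], 0⟩,
  mz,
  mz,
  mz,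
  ⟨⟨-3, 32, 40, -20, 27, -20, 30, 24, -13⟩, (.cons (nat_lit 947) (nat_lit 3808) (nat_lit 6217) (nat_lit 1)
 (.cons (nat_lit 115) (nat_lit 872) (nat_lit 21) (nat_lit 1) .nil)), (nat_lit 7), (nat_lit 0), (nat_lit 0),
 (nat_lit 0), (16, 35, 12), [4678, 772], 0⟩,
  ⟨⟨19, -36, -36, 20, -13, 30, 34, 8, -35⟩, (.cons (nat_lit 374) (nat_lit 3734) (nat_lit 3062) (nat_lit 1)
 (.cons (nat_lit 780) (nat_lit 505) (nat_lit 349) (nat_lit 1) .nil)), (nat_lit 26), (nat_lit 0), (nat_lit 0),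
 (nat_lit 0), (24, 23, 9), [5937, 436], 0⟩,
  mz,
  ⟨⟨-21, -20, 52, 38, -15, -4, -12, -36, -1⟩, (.cons (nat_lit 942) (nat_lit 642) (nat_lit 693) (nat_lit 1)
 (.cons (nat_lit 23) (nat_lit 499) (nat_lit 958) (nat_lit 1) .nil)), (nat_lit 1), (nat_lit 0), (nat_lit 0),
 (nat_lit 0), (8, 6, 23), [1855, 651], 0⟩,
  ⟨⟨-47, 0, 27, 0, -43, 0, -18, 0, -29⟩, (.cons (nat_lit 5311) (nat_lit 146) (nat_lit 6451) (nat_lit 1) (.cons
 (nat_lit 94) (nat_lit 1251) (nat_lit 1113) (nat_lit 1) .nil)), (nat_lit 9), (nat_lit 0), (nat_lit 0), (nat_lit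
 0), (34, 0, 24), [1816, 1197], 0⟩,
  ⟨⟨-37, 24, 0, -20, -37, 0, 2, 8, -43⟩, (.cons (nat_lit 5960) (nat_lit 511) (nat_lit 506) (nat_lit 1) (.cons
 (nat_lit 220) (nat_lit 686) (nat_lit 1133) (nat_lit 1) .nil)), (nat_lit 6), (nat_lit 0), (nat_lit 0), (nat_lit
 0), (34, 30, 40), [4261, 1329], 0⟩,
  ⟨⟨33, -8, 20, -20, 27, 40, 30, 24, -17⟩, (.cons (nat_lit 6858) (nat_lit 4415) (nat_lit 2817) (nat_lit 1)
 (.cons (nat_lit 1368) (nat_lit 1067) (nat_lit 106) (nat_lit 1) .nil)), (nat_lit 36), (nat_lit 0), (nat_lit 0),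
 (nat_lit 0), (11, 22, 10), [4037, 741], 0⟩,
  ⟨⟨37, -24, -37, -20, -37, 20, -2, -8, -41⟩, (.cons (nat_lit 5036) (nat_lit 3902) (nat_lit 1) (nat_lit 893)
 (.cons (nat_lit 1326) (nat_lit 553) (nat_lit 1132) (nat_lit 1) .nil)), (nat_lit 35), (nat_lit 0), (nat_lit 0),
 (nat_lit 0), (12, 40, 4), [5266, 339], 0⟩,
  ⟨⟨3, -44, -20, -2, 15, -44, 36, -12, -25⟩, (.cons (nat_lit 2881) (nat_lit 6043) (nat_lit 254) (nat_lit 1)
 (.cons (nat_lit 177) (nat_lit 725) (nat_lit 161) (nat_lit 1) .nil)), (nat_lit 33), (nat_lit 0), (nat_lit 0),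
 (nat_lit 0), (10, 22, 34), [2932, 345], 0⟩,
  ⟨⟨-15, -44, 16, -20, 13, 50, -34, -8, -1⟩, (.cons (nat_lit 536) (nat_lit 3812) (nat_lit 4415) (nat_lit 1)
 (.cons (nat_lit 1267) (nat_lit 1088) (nat_lit 192) (nat_lit 1) .nil)), (nat_lit 17), (nat_lit 0), (nat_lit 0),
 (nat_lit 0), (2, 17, 16), [6421, 571], 0⟩,
  mz,
  mz,
  ⟨⟨33, 32, -28, 2, -15, -46, 36, -12, -11⟩, (.cons (nat_lit 2896) (nat_lit 4206) (nat_lit 1242) (nat_lit 1)
 (.cons (nat_lit 615) (nat_lit 784) (nat_lit 275) (nat_lit 1) .nil)), (nat_lit 21), (nat_lit 0), (nat_lit 0),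
 (nat_lit 0), (34, 19, 41), [6038, 867], 0⟩]

/-- Moves. -/
noncomputable def t4_2 : List Mv := [
  mz,
  ⟨⟨3, 44, -20, 2, 15, 44, 36, 12, -25⟩, (.cons (nat_lit 6052) (nat_lit 2720) (nat_lit 1) (nat_lit 6327) (.cons
 (nat_lit 851) (nat_lit 866) (nat_lit 696) (nat_lit 1) .nil)), (nat_lit 22), (nat_lit 0), (nat_lit 0), (nat_lit
 0), (36, 24, 2), [3006, 1259], 0⟩,
  mz,
  mz,
  ⟨⟨19, 36, -36, -20, -13, -30, 34, -8, -35⟩, (.cons (nat_lit 1657) (nat_lit 3816) (nat_lit 6225) (nat_lit 1)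
 (.cons (nat_lit 330) (nat_lit 415) (nat_lit 385) (nat_lit 1) .nil)), (nat_lit 18), (nat_lit 0), (nat_lit 0),
 (nat_lit 0), (14, 26, 16), [2859, 183], 0⟩,
  ⟨⟨3, 44, 17, 2, 15, -46, 36, 12, -11⟩, (.cons (nat_lit 6560) (nat_lit 599) (nat_lit 2736) (nat_lit 1) (.cons
 (nat_lit 542) (nat_lit 592) (nat_lit 1045) (nat_lit 1) .nil)), (nat_lit 22), (nat_lit 0), (nat_lit 0),
 (nat_lit 0), (33, 22, 9), [925, 448], 0⟩,
  ⟨⟨-37, -24, 0, -20, 37, 0, 2, -8, -43⟩, (.cons (nat_lit 6858) (nat_lit 2323) (nat_lit 4812) (nat_lit 1)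
 (.cons (nat_lit 1368) (nat_lit 1006) (nat_lit 532) (nat_lit 1) .nil)), (nat_lit 6), (nat_lit 0), (nat_lit 0),
 (nat_lit 0), (12, 3, 4), [5950, 960], 0⟩,
  ⟨⟨33, 8, -53, -20, -27, -20, 30, -24, -13⟩, (.cons (nat_lit 4224) (nat_lit 1192) (nat_lit 1375) (nat_lit 1)
 (.cons (nat_lit 471) (nat_lit 16) (nat_lit 1228) (nat_lit 1) .nil)), (nat_lit 36), (nat_lit 0), (nat_lit 0),
 (nat_lit 0), (32, 21, 33), [4336, 473], 0⟩,
  ⟨⟨-39, -16, -4, -20, 37, 20, -2, 8, -41⟩, (.cons (nat_lit 6858) (nat_lit 2904) (nat_lit 1974) (nat_lit 1)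
 (.cons (nat_lit 1368) (nat_lit 1176) (nat_lit 1181) (nat_lit 1) .nil)), (nat_lit 8), (nat_lit 0), (nat_lit 0),
 (nat_lit 0), (6, 13, 40), [1371, 405], 0⟩,
  ⟨⟨-29, 0, -27, 0, -43, 0, 18, 0, -47⟩, (.cons (nat_lit 4391) (nat_lit 3660) (nat_lit 1329) (nat_lit 1) (.cons
 (nat_lit 568) (nat_lit 1312) (nat_lit 294) (nat_lit 1) .nil)), (nat_lit 34), (nat_lit 0), (nat_lit 0),
 (nat_lit 0), (33, 0, 24), [2913, 1087], 0⟩,
  ⟨⟨21, -20, 31, 38, 15, -34, 12, -36, -13⟩, (.cons (nat_lit 3492) (nat_lit 4631) (nat_lit 6466) (nat_lit 1)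
 (.cons (nat_lit 744) (nat_lit 257) (nat_lit 307) (nat_lit 1) .nil)), (nat_lit 38), (nat_lit 0), (nat_lit 0),
 (nat_lit 0), (8, 37, 23), [2663, 1139], 0⟩,
  mz,
  ⟨⟨-15, 44, 16, -20, -13, 50, -34, 8, -1⟩, (.cons (nat_lit 252) (nat_lit 4900) (nat_lit 925) (nat_lit 1)
 (.cons (nat_lit 1344) (nat_lit 50) (nat_lit 20) (nat_lit 1) .nil)), (nat_lit 17), (nat_lit 0), (nat_lit 0),
 (nat_lit 0), (28, 23, 9), [1897, 267], 0⟩,
  ⟨⟨33, 8, 20, 20, 27, -40, 30, -24, -17⟩, (.cons (nat_lit 1406) (nat_lit 4659) (nat_lit 1) (nat_lit 5453)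
 (.cons (nat_lit 1368) (nat_lit 776) (nat_lit 944) (nat_lit 1) .nil)), (nat_lit 13), (nat_lit 0), (nat_lit 0),
 (nat_lit 0), (4, 35, 31), [1787, 114], 0⟩,
  mz,
  mz,
  mz,
  ⟨⟨9, -4, -56, -40, 13, 10, 14, 32, -25⟩, (.cons (nat_lit 6104) (nat_lit 4139) (nat_lit 6710) (nat_lit 1)
 (.cons (nat_lit 255) (nat_lit 467) (nat_lit 324) (nat_lit 1) .nil)), (nat_lit 39), (nat_lit 0), (nat_lit 0),
 (nat_lit 0), (19, 35, 20), [3509, 626], 0⟩,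
  ⟨⟨-5, -36, 36, 40, -13, -30, -14, -32, -11⟩, (.cons (nat_lit 1544) (nat_lit 6836) (nat_lit 4918) (nat_lit 1)
 (.cons (nat_lit 419) (nat_lit 1347) (nat_lit 227) (nat_lit 1) .nil)), (nat_lit 4), (nat_lit 0), (nat_lit 0),
 (nat_lit 0), (11, 41, 5), [1327, 1340], 0⟩,
  mz,
  mz,
  ⟨⟨21, 20, 31, 38, -15, -34, 12, 36, -13⟩, (.cons (nat_lit 1342) (nat_lit 1433) (nat_lit 2839) (nat_lit 1)
 (.cons (nat_lit 733) (nat_lit 831) (nat_lit 169) (nat_lit 1) .nil)), (nat_lit 38), (nat_lit 0), (nat_lit 0),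
 (nat_lit 0), (12, 34, 13), [5288, 1183], 0⟩,
  ⟨⟨-21, 20, 52, 38, 15, -4, -12, 36, -1⟩, (.cons (nat_lit 2185) (nat_lit 5086) (nat_lit 17) (nat_lit 1) (.cons
 (nat_lit 238) (nat_lit 611) (nat_lit 1) (nat_lit 1295) .nil)), (nat_lit 1), (nat_lit 0), (nat_lit 0), (nat_lit
 0), (12, 9, 13), [4500, 848], 0⟩,
  mz,
  mz,
  ⟨⟨5, -36, 31, -40, -13, 10, 14, -32, -25⟩, (.cons (nat_lit 4905) (nat_lit 3976) (nat_lit 569) (nat_lit 1)
 (.cons (nat_lit 761) (nat_lit 982) (nat_lit 1367) (nat_lit 1) .nil)), (nat_lit 4), (nat_lit 0), (nat_lit 0),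
 (nat_lit 0), (11, 41, 5), [5550, 810], 0⟩,
  ⟨⟨-5, 36, 36, 40, 13, -30, -14, 32, -11⟩, (.cons (nat_lit 2411) (nat_lit 5279) (nat_lit 1056) (nat_lit 1)
 (.cons (nat_lit 741) (nat_lit 933) (nat_lit 1049) (nat_lit 1) .nil)), (nat_lit 4), (nat_lit 0), (nat_lit 0),
 (nat_lit 0), (1, 35, 20), [288, 1343], 0⟩,
  mz,
  mz,
  mz,
  ⟨⟨33, -8, -53, -20, 27, -20, 30, 24, -13⟩, (.cons (nat_lit 167) (nat_lit 1307) (nat_lit 4630) (nat_lit 1)
 (.cons (nat_lit 1323) (nat_lit 1125) (nat_lit 871) (nat_lit 1) .nil)), (nat_lit 36), (nat_lit 0), (nat_lit 0),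
 (nat_lit 0), (39, 35, 12), [6434, 1217], 0⟩,
  ⟨⟨19, -36, -36, -20, 13, -30, 34, 8, -35⟩, (.cons (nat_lit 6123) (nat_lit 5322) (nat_lit 81) (nat_lit 1)
 (.cons (nat_lit 884) (nat_lit 391) (nat_lit 709) (nat_lit 1) .nil)), (nat_lit 18), (nat_lit 0), (nat_lit 0),
 (nat_lit 0), (24, 20, 9), [5998, 515], 0⟩,
  mz,
  ⟨⟨-21, -20, 52, 38, -15, -4, -12, -36, -1⟩, (.cons (nat_lit 942) (nat_lit 642) (nat_lit 693) (nat_lit 1)
 (.cons (nat_lit 23) (nat_lit 499) (nat_lit 958) (nat_lit 1) .nil)), (nat_lit 1), (nat_lit 0), (nat_lit 0),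
 (nat_lit 0), (8, 6, 23), [1855, 651], 0⟩,
  ⟨⟨-47, 0, 27, 0, -43, 0, -18, 0, -29⟩, (.cons (nat_lit 5311) (nat_lit 146) (nat_lit 6451) (nat_lit 1) (.cons
 (nat_lit 94) (nat_lit 1251) (nat_lit 1113) (nat_lit 1) .nil)), (nat_lit 9), (nat_lit 0), (nat_lit 0), (nat_lit
 0), (34, 0, 24), [1816, 1197], 0⟩,
  ⟨⟨-37, 24, 0, -20, -37, 0, 2, 8, -43⟩, (.cons (nat_lit 5960) (nat_lit 511) (nat_lit 506) (nat_lit 1) (.cons
 (nat_lit 220) (nat_lit 686) (nat_lit 1133) (nat_lit 1) .nil)), (nat_lit 6), (nat_lit 0), (nat_lit 0), (nat_lit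
 0), (34, 30, 40), [4261, 1329], 0⟩,
  ⟨⟨33, -8, 20, 20, -27, -40, 30, 24, -17⟩, (.cons (nat_lit 405) (nat_lit 6387) (nat_lit 1106) (nat_lit 1)
 (.cons (nat_lit 176) (nat_lit 484) (nat_lit 881) (nat_lit 1) .nil)), (nat_lit 13), (nat_lit 0), (nat_lit 0),
 (nat_lit 0), (11, 21, 10), [1566, 368], 0⟩,
  ⟨⟨-39, 16, -4, 20, 37, -20, -2, -8, -41⟩, (.cons (nat_lit 6858) (nat_lit 1064) (nat_lit 6851) (nat_lit 1)
 (.cons (nat_lit 1368) (nat_lit 1041) (nat_lit 706) (nat_lit 1) .nil)), (nat_lit 37), (nat_lit 0), (nat_lit 0),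
 (nat_lit 0), (35, 3, 4), [2446, 644], 0⟩,
  ⟨⟨3, -44, -20, -2, 15, -44, 36, -12, -25⟩, (.cons (nat_lit 2881) (nat_lit 6043) (nat_lit 254) (nat_lit 1)
 (.cons (nat_lit 177) (nat_lit 725) (nat_lit 161) (nat_lit 1) .nil)), (nat_lit 33), (nat_lit 0), (nat_lit 0),
 (nat_lit 0), (10, 22, 34), [2932, 345], 0⟩,
  ⟨⟨-15, -44, 16, 20, -13, -50, -34, -8, -1⟩, (.cons (nat_lit 4715) (nat_lit 2065) (nat_lit 2691) (nat_lit 1)
 (.cons (nat_lit 321) (nat_lit 70) (nat_lit 125) (nat_lit 1) .nil)), (nat_lit 25), (nat_lit 0), (nat_lit 0),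
 (nat_lit 0), (2, 26, 16), [3387, 1031], 0⟩,
  mz,
  mz,
  ⟨⟨33, 32, -28, 2, -15, -46, 36, -12, -11⟩, (.cons (nat_lit 2896) (nat_lit 4206) (nat_lit 1242) (nat_lit 1)
 (.cons (nat_lit 615) (nat_lit 784) (nat_lit 275) (nat_lit 1) .nil)), (nat_lit 21), (nat_lit 0), (nat_lit 0),
 (nat_lit 0), (34, 19, 41), [6038, 867], 0⟩]

/-- Moves. -/
noncomputable def t4_8 : List Mv := [
  mz,
  ⟨⟨3, 44, -20, 2, 15, 44, 36, 12, -25⟩, (.cons (nat_lit 6052) (nat_lit 2720) (nat_lit 1) (nat_lit 6327) (.cons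
 (nat_lit 851) (nat_lit 866) (nat_lit 696) (nat_lit 1) .nil)), (nat_lit 22), (nat_lit 0), (nat_lit 0), (nat_lit
 0), (36, 24, 2), [3006, 1259], 0⟩,
  mz,
  mz,
  ⟨⟨15, -44, 1, -20, -13, -30, 34, -8, -35⟩, (.cons (nat_lit 4630) (nat_lit 676) (nat_lit 6245) (nat_lit 1)
 (.cons (nat_lit 1029) (nat_lit 1213) (nat_lit 689) (nat_lit 1) .nil)), (nat_lit 25), (nat_lit 0), (nat_lit 0),
 (nat_lit 0), (2, 26, 16), [813, 507], 0⟩,
  ⟨⟨33, -32, -28, -2, -15, 46, 36, 12, -11⟩, (.cons (nat_lit 399) (nat_lit 3102) (nat_lit 580) (nat_lit 1)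
 (.cons (nat_lit 616) (nat_lit 385) (nat_lit 1) (nat_lit 962) .nil)), (nat_lit 10), (nat_lit 0), (nat_lit 0),
 (nat_lit 0), (19, 21, 9), [4639, 1237], 0⟩,
  ⟨⟨-37, -24, 0, -20, 37, 0, 2, -8, -43⟩, (.cons (nat_lit 6858) (nat_lit 2323) (nat_lit 4812) (nat_lit 1)
 (.cons (nat_lit 1368) (nat_lit 1006) (nat_lit 532) (nat_lit 1) .nil)), (nat_lit 6), (nat_lit 0), (nat_lit 0),
 (nat_lit 0), (12, 3, 4), [5950, 960], 0⟩,
  ⟨⟨33, 8, -53, -20, -27, -20, 30, -24, -13⟩, (.cons (nat_lit 4224) (nat_lit 1192) (nat_lit 1375) (nat_lit 1)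
 (.cons (nat_lit 471) (nat_lit 16) (nat_lit 1228) (nat_lit 1) .nil)), (nat_lit 36), (nat_lit 0), (nat_lit 0),
 (nat_lit 0), (32, 21, 33), [4336, 473], 0⟩,
  ⟨⟨-39, -16, -4, -20, 37, 20, -2, 8, -41⟩, (.cons (nat_lit 6858) (nat_lit 2904) (nat_lit 1974) (nat_lit 1)
 (.cons (nat_lit 1368) (nat_lit 1176) (nat_lit 1181) (nat_lit 1) .nil)), (nat_lit 8), (nat_lit 0), (nat_lit 0),
 (nat_lit 0), (6, 13, 40), [1371, 405], 0⟩,
  ⟨⟨47, 0, -20, 0, -43, 0, 18, 0, -47⟩, (.cons (nat_lit 6858) (nat_lit 2487) (nat_lit 5483) (nat_lit 1) (.cons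
 (nat_lit 1368) (nat_lit 346) (nat_lit 838) (nat_lit 1) .nil)), (nat_lit 9), (nat_lit 0), (nat_lit 0), (nat_lit
 0), (34, 0, 24), [4646, 1045], 0⟩,
  ⟨⟨21, -20, 31, 38, 15, -34, 12, -36, -13⟩, (.cons (nat_lit 3492) (nat_lit 4631) (nat_lit 6466) (nat_lit 1)
 (.cons (nat_lit 744) (nat_lit 257) (nat_lit 307) (nat_lit 1) .nil)), (nat_lit 38), (nat_lit 0), (nat_lit 0),
 (nat_lit 0), (8, 37, 23), [2663, 1139], 0⟩,
  mz,
  ⟨⟨-15, 44, 16, 20, 13, -50, -34, 8, -1⟩, (.cons (nat_lit 4767) (nat_lit 1274) (nat_lit 613) (nat_lit 1)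
 (.cons (nat_lit 1222) (nat_lit 1314) (nat_lit 1059) (nat_lit 1) .nil)), (nat_lit 25), (nat_lit 0), (nat_lit
 0), (nat_lit 0), (28, 20, 9), [6368, 1158], 0⟩,
  ⟨⟨33, 8, 20, -20, -27, 40, 30, -24, -17⟩, (.cons (nat_lit 5013) (nat_lit 6640) (nat_lit 4553) (nat_lit 1)
 (.cons (nat_lit 1299) (nat_lit 1024) (nat_lit 65) (nat_lit 1) .nil)), (nat_lit 36), (nat_lit 0), (nat_lit 0),
 (nat_lit 0), (4, 8, 31), [2922, 227], 0⟩,
  mz,
  mz,
  mz,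
  ⟨⟨9, -4, -56, 40, -13, -10, 14, 32, -25⟩, (.cons (nat_lit 5362) (nat_lit 3029) (nat_lit 6066) (nat_lit 1)
 (.cons (nat_lit 219) (nat_lit 2) (nat_lit 1096) (nat_lit 1) .nil)), (nat_lit 12), (nat_lit 0), (nat_lit 0),
 (nat_lit 0), (19, 8, 20), [6450, 1330], 0⟩,
  ⟨⟨-5, -36, 36, -40, 13, 30, -14, -32, -11⟩, (.cons (nat_lit 4203) (nat_lit 5692) (nat_lit 2507) (nat_lit 1)
 (.cons (nat_lit 971) (nat_lit 921) (nat_lit 168) (nat_lit 1) .nil)), (nat_lit 31), (nat_lit 0), (nat_lit 0),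
 (nat_lit 0), (11, 2, 5), [5243, 719], 0⟩,
  mz,
  mz,
  ⟨⟨-9, 16, -44, 38, -15, -34, 12, 36, -13⟩, (.cons (nat_lit 672) (nat_lit 4461) (nat_lit 5609) (nat_lit 1)
 (.cons (nat_lit 1324) (nat_lit 753) (nat_lit 192) (nat_lit 1) .nil)), (nat_lit 5), (nat_lit 0), (nat_lit 0),
 (nat_lit 0), (1, 34, 13), [3571, 705], 0⟩,
  ⟨⟨-21, 20, 52, 38, 15, -4, -12, 36, -1⟩, (.cons (nat_lit 2185) (nat_lit 5086) (nat_lit 17) (nat_lit 1) (.cons
 (nat_lit 238) (nat_lit 611) (nat_lit 1) (nat_lit 1295) .nil)), (nat_lit 1), (nat_lit 0), (nat_lit 0), (nat_lit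
 0), (12, 9, 13), [4500, 848], 0⟩,
  mz,
  mz,
  ⟨⟨9, 4, -56, 40, 13, -10, 14, -32, -25⟩, (.cons (nat_lit 6659) (nat_lit 1017) (nat_lit 5997) (nat_lit 1)
 (.cons (nat_lit 149) (nat_lit 1350) (nat_lit 1013) (nat_lit 1) .nil)), (nat_lit 12), (nat_lit 0), (nat_lit 0),
 (nat_lit 0), (37, 2, 5), [4176, 307], 0⟩,
  ⟨⟨-5, 36, 36, 40, 13, -30, -14, 32, -11⟩, (.cons (nat_lit 2411) (nat_lit 5279) (nat_lit 1056) (nat_lit 1)
 (.cons (nat_lit 741) (nat_lit 933) (nat_lit 1049) (nat_lit 1) .nil)), (nat_lit 4), (nat_lit 0), (nat_lit 0),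
 (nat_lit 0), (1, 35, 20), [288, 1343], 0⟩,
  mz,
  mz,
  mz,
  ⟨⟨33, -8, -53, -20, 27, -20, 30, 24, -13⟩, (.cons (nat_lit 167) (nat_lit 1307) (nat_lit 4630) (nat_lit 1)
 (.cons (nat_lit 1323) (nat_lit 1125) (nat_lit 871) (nat_lit 1) .nil)), (nat_lit 36), (nat_lit 0), (nat_lit 0),
 (nat_lit 0), (39, 35, 12), [6434, 1217], 0⟩,
  ⟨⟨19, -36, -36, -20, 13, -30, 34, 8, -35⟩, (.cons (nat_lit 6123) (nat_lit 5322) (nat_lit 81) (nat_lit 1)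
 (.cons (nat_lit 884) (nat_lit 391) (nat_lit 709) (nat_lit 1) .nil)), (nat_lit 18), (nat_lit 0), (nat_lit 0),
 (nat_lit 0), (24, 20, 9), [5998, 515], 0⟩,
  mz,
  ⟨⟨-21, -20, 52, -38, 15, 4, -12, -36, -1⟩, (.cons (nat_lit 6240) (nat_lit 2462) (nat_lit 6328) (nat_lit 1)
 (.cons (nat_lit 874) (nat_lit 197) (nat_lit 293) (nat_lit 1) .nil)), (nat_lit 38), (nat_lit 0), (nat_lit 0),
 (nat_lit 0), (8, 37, 23), [6160, 613], 0⟩,
  ⟨⟨29, 0, -56, 0, 43, 0, -18, 0, -29⟩, (.cons (nat_lit 6858) (nat_lit 4197) (nat_lit 2557) (nat_lit 1) (.cons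
 (nat_lit 1368) (nat_lit 271) (nat_lit 235) (nat_lit 1) .nil)), (nat_lit 34), (nat_lit 0), (nat_lit 0),
 (nat_lit 0), (33, 0, 24), [4588, 498], 0⟩,
  ⟨⟨39, -16, -43, -20, -37, 0, 2, 8, -43⟩, (.cons (nat_lit 4142) (nat_lit 2824) (nat_lit 4673) (nat_lit 1)
 (.cons (nat_lit 191) (nat_lit 1159) (nat_lit 90) (nat_lit 1) .nil)), (nat_lit 37), (nat_lit 0), (nat_lit 0),
 (nat_lit 0), (6, 30, 40), [6824, 882], 0⟩,
  ⟨⟨-3, 32, -37, 20, -27, -40, 30, 24, -17⟩, (.cons (nat_lit 6284) (nat_lit 3894) (nat_lit 958) (nat_lit 1)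
 (.cons (nat_lit 744) (nat_lit 828) (nat_lit 882) (nat_lit 1) .nil)), (nat_lit 30), (nat_lit 0), (nat_lit 0),
 (nat_lit 0), (42, 21, 10), [2151, 101], 0⟩,
  ⟨⟨-39, 16, -4, 20, 37, -20, -2, -8, -41⟩, (.cons (nat_lit 6858) (nat_lit 1064) (nat_lit 6851) (nat_lit 1)
 (.cons (nat_lit 1368) (nat_lit 1041) (nat_lit 706) (nat_lit 1) .nil)), (nat_lit 37), (nat_lit 0), (nat_lit 0),
 (nat_lit 0), (35, 3, 4), [2446, 644], 0⟩,
  ⟨⟨3, -44, -20, -2, 15, -44, 36, -12, -25⟩, (.cons (nat_lit 2881) (nat_lit 6043) (nat_lit 254) (nat_lit 1)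
 (.cons (nat_lit 177) (nat_lit 725) (nat_lit 161) (nat_lit 1) .nil)), (nat_lit 33), (nat_lit 0), (nat_lit 0),
 (nat_lit 0), (10, 22, 34), [2932, 345], 0⟩,
  ⟨⟨-15, -44, 16, 20, -13, -50, -34, -8, -1⟩, (.cons (nat_lit 4715) (nat_lit 2065) (nat_lit 2691) (nat_lit 1)
 (.cons (nat_lit 321) (nat_lit 70) (nat_lit 125) (nat_lit 1) .nil)), (nat_lit 25), (nat_lit 0), (nat_lit 0),
 (nat_lit 0), (2, 26, 16), [3387, 1031], 0⟩,
  mz,
  mz,
  ⟨⟨33, 32, -28, 2, -15, -46, 36, -12, -11⟩, (.cons (nat_lit 2896) (nat_lit 4206) (nat_lit 1242) (nat_lit 1)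
 (.cons (nat_lit 615) (nat_lit 784) (nat_lit 275) (nat_lit 1) .nil)), (nat_lit 21), (nat_lit 0), (nat_lit 0),
 (nat_lit 0), (34, 19, 41), [6038, 867], 0⟩]

/-- All the moves. -/
noncomputable def tabs : List (List (List Mv)) := [[[], t0_1, t0_2, [], [], [], [], [], t0_8], [[], t1_1, t1_2, [], [], [], [], [], t1_8], [], [], [[], t4_1, t4_2, [], [], [], [], [], t4_8]]

/-- Subtrie. -/
noncomputable def T1 : Tr := (.ev (nat_lit 20) (nat_lit 4733087789904) (.nd (nat_lit 33) (.br (nat_lit 19) (.br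
 (nat_lit 11) (.br (nat_lit 7) (.br (nat_lit 4) (.ch (nat_lit 1) (.ev (nat_lit 52) (nat_lit 550829556768) (.ev
 (nat_lit 148) (nat_lit 67108864) (.ev (nat_lit 384) (nat_lit 208312336514) .dd)))) (.br (nat_lit 5) (.ch
 (nat_lit 4) (.ev (nat_lit 52) (nat_lit 1073741984) (.ev (nat_lit 96) (nat_lit 758135260162) .dd))) (.ch
 (nat_lit 5) (.ev (nat_lit 52) (nat_lit 759202578560) (.ev (nat_lit 148) (nat_lit 2) (.ev (nat_lit 372)
 (nat_lit 32) (.ev (nat_lit 404) (nat_lit 2097152) (.ev (nat_lit 1456) (nat_lit 4194304) (.nd (nat_lit 1696)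
 (.br (nat_lit 6) (.br (nat_lit 4) (.ch (nat_lit 2) (.ev (nat_lit 1712) (nat_lit 132096) .dd)) (.ch (nat_lit 4)
 (.ev (nat_lit 1712) (nat_lit 132096) .dd))) (.br (nat_lit 9) (.ch (nat_lit 6) (.ev (nat_lit 1712) (nat_lit
 132096) .dd)) (.br (nat_lit 15) (.ch (nat_lit 9) (.nd (nat_lit 1904) (.br (nat_lit 15) (.ch (nat_lit 4) (.fin
 (nat_lit 576381037733954164))) (.ch (nat_lit 15) (.ev (nat_lit 1920) (nat_lit 132096) .dd))))) (.ch (nat_lit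
 15) (.ev (nat_lit 1712) (nat_lit 132096) .dd)))))))))))))) (.br (nat_lit 8) (.ch (nat_lit 7) (.ev (nat_lit 52)
 (nat_lit 550831652866) (.ev (nat_lit 116) (nat_lit 2147483648) (.ev (nat_lit 276) (nat_lit 67108864) (.ev
 (nat_lit 436) (nat_lit 68719476736) (.ev (nat_lit 596) (nat_lit 32) (.ev (nat_lit 756) (nat_lit 128) (.ev
 (nat_lit 964) (nat_lit 4194304) (.nd (nat_lit 1696) (.br (nat_lit 9) (.br (nat_lit 4) (.ch (nat_lit 1) (.ev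
 (nat_lit 1712) (nat_lit 137439085568) .dd)) (.ch (nat_lit 4) (.ev (nat_lit 1712) (nat_lit 132096) (.ev
 (nat_lit 1725) (nat_lit 137438953472) .dd)))) (.br (nat_lit 10) (.ch (nat_lit 9) (.ev (nat_lit 1712) (nat_lit
 137438953472) (.nd (nat_lit 1904) (.br (nat_lit 15) (.ch (nat_lit 4) (.fin (nat_lit 576381037733954164))) (.ch
 (nat_lit 15) (.ev (nat_lit 1920) (nat_lit 132096) .dd)))))) (.br (nat_lit 18) (.ch (nat_lit 10) (.ev (nat_lit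
 1712) (nat_lit 137439085568) .dd)) (.ch (nat_lit 18) (.ev (nat_lit 1712) (nat_lit 131072) (.ev (nat_lit 1732)
 (nat_lit 137438953472) (.ev (nat_lit 1741) (nat_lit 1024) .dd)))))))))))))))) (.br (nat_lit 10) (.ch (nat_lit
 8) (.ev (nat_lit 52) (nat_lit 137445377024) (.ev (nat_lit 416) (nat_lit 621763625122) .dd))) (.ch (nat_lit 10)
 (.ev (nat_lit 52) (nat_lit 549755815042) (.ev (nat_lit 256) (nat_lit 209453187104) .dd)))))) (.br (nat_lit 15)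
 (.br (nat_lit 12) (.ch (nat_lit 11) (.ev (nat_lit 52) (nat_lit 137508159616) (.ev (nat_lit 84) (nat_lit
 549755813888) (.ev (nat_lit 148) (nat_lit 2147483648) (.ev (nat_lit 404) (nat_lit 68719476736) (.ev (nat_lit
 532) (nat_lit 4194304) (.ev (nat_lit 868) (nat_lit 1024) (.ev (nat_lit 1044) (nat_lit 32) (.ev (nat_lit 1616)
 (nat_lit 131072) (.nd (nat_lit 1696) (.br (nat_lit 9) (.br (nat_lit 6) (.ch (nat_lit 1) (.ev (nat_lit 1712)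
 (nat_lit 2) (.ev (nat_lit 1725) (nat_lit 1073741824) .dd))) (.br (nat_lit 7) (.ch (nat_lit 6) (.ev (nat_lit
 1712) (nat_lit 1073741826) .dd)) (.ch (nat_lit 7) (.ev (nat_lit 1712) (nat_lit 1073741826) .dd)))) (.br
 (nat_lit 12) (.ch (nat_lit 9) (.ev (nat_lit 1744) (nat_lit 1073741824) (.ev (nat_lit 1757) (nat_lit 2) .dd)))
 (.br (nat_lit 18) (.ch (nat_lit 12) (.ev (nat_lit 1712) (nat_lit 1073741824) (.ev (nat_lit 1725) (nat_lit 2)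
 .dd))) (.ch (nat_lit 18) (.ev (nat_lit 1712) (nat_lit 1073741826) .dd))))))))))))))) (.br (nat_lit 13) (.ch
 (nat_lit 12) (.ev (nat_lit 52) (nat_lit 687262007298) (.ev (nat_lit 116) (nat_lit 2097152) (.ev (nat_lit 148)
 (nat_lit 128) (.ev (nat_lit 736) (nat_lit 71944897568) .dd))))) (.ch (nat_lit 13) (.ev (nat_lit 52) (nat_lit
 550898893986) (.ev (nat_lit 340) (nat_lit 2147483648) (.ev (nat_lit 564) (nat_lit 68719476736) (.nd (nat_lit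
 1696) (.br (nat_lit 12) (.ch (nat_lit 4) (.ev (nat_lit 1712) (nat_lit 137443147776) .dd)) (.br (nat_lit 15)
 (.ch (nat_lit 12) (.ev (nat_lit 1712) (nat_lit 4194304) (.ev (nat_lit 1725) (nat_lit 137438953472) .dd))) (.ch
 (nat_lit 15) (.nd (nat_lit 1904) (.br (nat_lit 12) (.ch (nat_lit 6) (.fin (nat_lit 576490988938674664))) (.ch
 (nat_lit 12) (.ev (nat_lit 1920) (nat_lit 4194304) (.ev (nat_lit 1933) (nat_lit 137438953472)
 .dd))))))))))))))) (.br (nat_lit 17) (.br (nat_lit 16) (.ch (nat_lit 15) (.ev (nat_lit 52) (nat_lit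
 206164853760) (.ev (nat_lit 436) (nat_lit 67108864) (.ev (nat_lit 692) (nat_lit 549755813888) (.ev (nat_lit
 1360) (nat_lit 2147483648) (.nd (nat_lit 1696) (.br (nat_lit 6) (.br (nat_lit 4) (.ch (nat_lit 2) (.ev
 (nat_lit 1712) (nat_lit 1073741986) .dd)) (.ch (nat_lit 4) (.ev (nat_lit 1712) (nat_lit 1073741984) (.ev
 (nat_lit 1725) (nat_lit 2) .dd)))) (.br (nat_lit 9) (.ch (nat_lit 6) (.ev (nat_lit 1712) (nat_lit 2) (.ev
 (nat_lit 1888) (nat_lit 1073741824) (.nd (nat_lit 1904) (.br (nat_lit 3) (.ch (nat_lit 0) (.fin (nat_lit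
 576581148837626485))) (.ch (nat_lit 3) (.ev (nat_lit 1920) (nat_lit 160) .dd))))))) (.br (nat_lit 15) (.ch
 (nat_lit 9) (.ev (nat_lit 1712) (nat_lit 1073741856) (.nd (nat_lit 1904) (.br (nat_lit 14) (.ch (nat_lit 5)
 (.ev (nat_lit 1920) (nat_lit 128) (.ev (nat_lit 1933) (nat_lit 2) .dd))) (.ch (nat_lit 14) (.fin (nat_lit
 576470098154832458))))))) (.ch (nat_lit 15) (.ev (nat_lit 1712) (nat_lit 1073741986) .dd))))))))))) (.ch
 (nat_lit 16) (.ev (nat_lit 52) (nat_lit 68719607938) (.ev (nat_lit 128) (nat_lit 690489394208) .dd)))) (.br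
 (nat_lit 18) (.ch (nat_lit 17) (.ev (nat_lit 52) (nat_lit 755985678368) (.ev (nat_lit 436) (nat_lit
 3221225472) (.ev (nat_lit 628) (nat_lit 2) (.ev (nat_lit 1584) (nat_lit 1024) (.nd (nat_lit 1696) (.br
 (nat_lit 6) (.br (nat_lit 2) (.ch (nat_lit 1) (.ev (nat_lit 1712) (nat_lit 2097280) .dd)) (.br (nat_lit 4)
 (.ch (nat_lit 2) (.ev (nat_lit 1712) (nat_lit 128) (.ev (nat_lit 1725) (nat_lit 2097152) .dd))) (.ch (nat_lit
 4) (.ev (nat_lit 1712) (nat_lit 128) (.ev (nat_lit 1725) (nat_lit 2097152) .dd))))) (.br (nat_lit 12) (.br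
 (nat_lit 7) (.ch (nat_lit 6) (.ev (nat_lit 1712) (nat_lit 2097280) .dd)) (.ch (nat_lit 7) (.ev (nat_lit 1712)
 (nat_lit 2097280) .dd))) (.br (nat_lit 18) (.ch (nat_lit 12) (.ev (nat_lit 1712) (nat_lit 2097280) .dd)) (.ch
 (nat_lit 18) (.ev (nat_lit 1872) (nat_lit 128) (.ev (nat_lit 1885) (nat_lit 2097152) .dd)))))))))))) (.ch
 (nat_lit 18) (.ev (nat_lit 52) (nat_lit 68786585634) (.ev (nat_lit 276) (nat_lit 2147483776) (.ev (nat_lit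
 340) (nat_lit 1073741824) (.ev (nat_lit 436) (nat_lit 2097152) (.ev (nat_lit 500) (nat_lit 131072) (.ev
 (nat_lit 836) (nat_lit 549755813888) (.ev (nat_lit 932) (nat_lit 1024) (.nd (nat_lit 1696) (.br (nat_lit 12)
 (.br (nat_lit 4) (.ch (nat_lit 1) (.ev (nat_lit 1712) (nat_lit 137443147776) .dd)) (.br (nat_lit 10) (.ch
 (nat_lit 4) (.ev (nat_lit 1712) (nat_lit 137443147776) .dd)) (.ch (nat_lit 10) (.ev (nat_lit 1712) (nat_lit
 137443147776) .dd)))) (.br (nat_lit 15) (.ch (nat_lit 12) (.ev (nat_lit 1712) (nat_lit 4194304) (.ev (nat_lit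
 1725) (nat_lit 137438953472) .dd))) (.br (nat_lit 18) (.ch (nat_lit 15) (.fin (nat_lit 576490988938674664)))
 (.ch (nat_lit 18) (.ev (nat_lit 1712) (nat_lit 137443147776) .dd)))))))))))))))))) (.br (nat_lit 26) (.br
 (nat_lit 22) (.br (nat_lit 20) (.ch (nat_lit 19) (.ev (nat_lit 52) (nat_lit 3223454850) (.ev (nat_lit 404)
 (nat_lit 67108864) (.ev (nat_lit 660) (nat_lit 4194304) (.ev (nat_lit 804) (nat_lit 137438953472) (.ev
 (nat_lit 976) (nat_lit 618475290656) .dd)))))) (.br (nat_lit 21) (.ch (nat_lit 20) (.ev (nat_lit 52) (nat_lit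
 1140981794) (.ev (nat_lit 116) (nat_lit 68719476736) (.ev (nat_lit 180) (nat_lit 549755813888) (.ev (nat_lit
 704) (nat_lit 139592729728) .dd))))) (.ch (nat_lit 21) (.ev (nat_lit 52) (nat_lit 690489394304) (.ev (nat_lit
 308) (nat_lit 32) (.ev (nat_lit 404) (nat_lit 2) (.ev (nat_lit 756) (nat_lit 68719476736) (.ev (nat_lit 765)
 (nat_lit 131072) .dd)))))))) (.br (nat_lit 24) (.ch (nat_lit 22) (.ev (nat_lit 52) (nat_lit 70938263586) (.ev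
 (nat_lit 532) (nat_lit 131072) (.ev (nat_lit 608) (nat_lit 688270607488) .dd)))) (.br (nat_lit 25) (.ch
 (nat_lit 24) (.ev (nat_lit 52) (nat_lit 1147143296) (.ev (nat_lit 544) (nat_lit 758061858850) .dd))) (.ch
 (nat_lit 25) (.ev (nat_lit 52) (nat_lit 70866960416) (.ev (nat_lit 84) (nat_lit 4194304) (.ev (nat_lit 116)
 (nat_lit 2) (.ev (nat_lit 212) (nat_lit 137438953472) (.ev (nat_lit 468) (nat_lit 131072) (.ev (nat_lit 804)
 (nat_lit 1024) (.ev (nat_lit 1664) (nat_lit 67108864) (.nd (nat_lit 1696) (.br (nat_lit 7) (.br (nat_lit 6)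
 (.ch (nat_lit 1) (.ev (nat_lit 1712) (nat_lit 2097280) (.fin (nat_lit 576462401487454693)))) (.ch (nat_lit 6)
 (.ev (nat_lit 1712) (nat_lit 550831652864) (.ev (nat_lit 1725) (nat_lit 128) .dd)))) (.br (nat_lit 10) (.ch
 (nat_lit 7) (.ev (nat_lit 1712) (nat_lit 549755814016) (.nd (nat_lit 1904) (.br (nat_lit 18) (.ch (nat_lit 12)
 (.ev (nat_lit 1920) (nat_lit 1073741824) (.ev (nat_lit 1933) (nat_lit 2097152) .dd))) (.ch (nat_lit 18) (.fin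
 (nat_lit 576465700116709958))))))) (.ch (nat_lit 10) (.ev (nat_lit 1712) (nat_lit 550829555712) (.ev (nat_lit
 1732) (nat_lit 2097152) (.ev (nat_lit 1741) (nat_lit 128) .dd)))))))))))))))))) (.br (nat_lit 30) (.br
 (nat_lit 27) (.ch (nat_lit 26) (.ev (nat_lit 276) (nat_lit 68719476736) (.ev (nat_lit 308) (nat_lit
 137438953472) (.ev (nat_lit 340) (nat_lit 2097152) (.ev (nat_lit 372) (nat_lit 1024) (.ev (nat_lit 756)
 (nat_lit 67108864) (.ev (nat_lit 1392) (nat_lit 4194304) (.ev (nat_lit 1680) (nat_lit 2147483648) (.nd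
 (nat_lit 1696) (.br (nat_lit 10) (.br (nat_lit 4) (.ch (nat_lit 1) (.ev (nat_lit 1712) (nat_lit 131104) (.ev
 (nat_lit 1732) (nat_lit 549755813888) (.ev (nat_lit 1776) (nat_lit 128) (.ev (nat_lit 1856) (nat_lit
 1073741824) (.ev (nat_lit 1869) (nat_lit 2) .dd)))))) (.br (nat_lit 6) (.ch (nat_lit 4) (.ev (nat_lit 1712)
 (nat_lit 550829686944) (.ev (nat_lit 1725) (nat_lit 2) .dd))) (.ch (nat_lit 6) (.ev (nat_lit 1712) (nat_lit
 549755813888) (.ev (nat_lit 1732) (nat_lit 1073741858) (.ev (nat_lit 1856) (nat_lit 128) (.ev (nat_lit 1869)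
 (nat_lit 131072) .dd))))))) (.br (nat_lit 12) (.br (nat_lit 11) (.ch (nat_lit 10) (.ev (nat_lit 1712) (nat_lit
 130) (.ev (nat_lit 1732) (nat_lit 131072) (.ev (nat_lit 1760) (nat_lit 1073741824) (.ev (nat_lit 1796)
 (nat_lit 32) (.ev (nat_lit 1805) (nat_lit 549755813888) .dd)))))) (.ch (nat_lit 11) (.ev (nat_lit 1712)
 (nat_lit 549755944994) (.fin (nat_lit 576462401572389439))))) (.br (nat_lit 18) (.ch (nat_lit 12) (.ev
 (nat_lit 1712) (nat_lit 550829686946) .dd)) (.ch (nat_lit 18) (.ev (nat_lit 1712) (nat_lit 550829686818) (.ev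
 (nat_lit 1725) (nat_lit 128) .dd))))))))))))))) (.br (nat_lit 29) (.ch (nat_lit 27) (.ev (nat_lit 52) (nat_lit
 70871285762) (.ev (nat_lit 1472) (nat_lit 67108864) (.ev (nat_lit 1568) (nat_lit 137438953472) (.nd (nat_lit
 1696) (.br (nat_lit 9) (.br (nat_lit 2) (.ch (nat_lit 1) (.ev (nat_lit 1712) (nat_lit 550831653920) (.ev
 (nat_lit 1725) (nat_lit 128) .dd))) (.br (nat_lit 7) (.ch (nat_lit 2) (.ev (nat_lit 1712) (nat_lit 1075840160)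
 (.ev (nat_lit 1725) (nat_lit 549755813888) .dd))) (.ch (nat_lit 7) (.ev (nat_lit 1712) (nat_lit 549755814016)
 (.ev (nat_lit 1732) (nat_lit 32) (.ev (nat_lit 1760) (nat_lit 1073741824) (.ev (nat_lit 1796) (nat_lit
 2097152) (.ev (nat_lit 1805) (nat_lit 1024) .dd)))))))) (.br (nat_lit 11) (.br (nat_lit 10) (.ch (nat_lit 9)
 (.ev (nat_lit 1712) (nat_lit 2097184) (.ev (nat_lit 1732) (nat_lit 1024) (.ev (nat_lit 1776) (nat_lit 128)
 (.ev (nat_lit 1856) (nat_lit 1073741824) (.ev (nat_lit 1869) (nat_lit 549755813888) .dd)))))) (.ch (nat_lit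
 10) (.ev (nat_lit 1712) (nat_lit 1024) (.ev (nat_lit 1732) (nat_lit 550831652864) (.ev (nat_lit 1856) (nat_lit
 128) (.ev (nat_lit 1869) (nat_lit 32) .dd)))))) (.br (nat_lit 15) (.ch (nat_lit 11) (.ev (nat_lit 1712)
 (nat_lit 549757912096) (.fin (nat_lit 576462401572389439)))) (.ch (nat_lit 15) (.ev (nat_lit 1712) (nat_lit
 550831654048) .dd)))))))))) (.ch (nat_lit 29) (.ev (nat_lit 52) (nat_lit 551976698880) (.ev (nat_lit 628)
 (nat_lit 1073741824) (.ev (nat_lit 996) (nat_lit 68719476736) (.ev (nat_lit 1328) (nat_lit 137439084544) (.nd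
 (nat_lit 1696) (.br (nat_lit 9) (.ch (nat_lit 6) (.ev (nat_lit 1712) (nat_lit 2) (.fin (nat_lit
 576581148837626485)))) (.br (nat_lit 12) (.ch (nat_lit 9) (.ev (nat_lit 1712) (nat_lit 32) (.nd (nat_lit 1904)
 (.br (nat_lit 14) (.ch (nat_lit 8) (.ev (nat_lit 1920) (nat_lit 128) (.ev (nat_lit 1933) (nat_lit 2) .dd)))
 (.ch (nat_lit 14) (.fin (nat_lit 576470098154832458))))))) (.ch (nat_lit 12) (.ev (nat_lit 1712) (nat_lit 160)
 (.ev (nat_lit 1725) (nat_lit 2) .dd))))))))))))) (.br (nat_lit 35) (.br (nat_lit 33) (.ch (nat_lit 30) (.ev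
 (nat_lit 52) (nat_lit 2147614880) (.ev (nat_lit 244) (nat_lit 137438953472) (.ev (nat_lit 340) (nat_lit 2)
 (.ev (nat_lit 724) (nat_lit 67108864) (.ev (nat_lit 1264) (nat_lit 68723672064) (.nd (nat_lit 1696) (.br
 (nat_lit 2) (.ch (nat_lit 1) (.ev (nat_lit 1712) (nat_lit 2097152) (.nd (nat_lit 1904) (.br (nat_lit 7) (.ch
 (nat_lit 5) (.ev (nat_lit 1920) (nat_lit 1073741824) (.ev (nat_lit 1933) (nat_lit 549755813888) .dd))) (.ch
 (nat_lit 7) (.fin (nat_lit 576462401487454693))))))) (.br (nat_lit 7) (.ch (nat_lit 2) (.ev (nat_lit 1712)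
 (nat_lit 1073741824) (.ev (nat_lit 1732) (nat_lit 2097152) (.ev (nat_lit 1741) (nat_lit 549755813888) .dd))))
 (.ch (nat_lit 7) (.ev (nat_lit 1712) (nat_lit 549755813888) (.nd (nat_lit 1904) (.br (nat_lit 18) (.ch
 (nat_lit 9) (.ev (nat_lit 1920) (nat_lit 1073741824) (.ev (nat_lit 1933) (nat_lit 2097152) .dd))) (.ch
 (nat_lit 18) (.fin (nat_lit 576465700116709958)))))))))))))))) (.ch (nat_lit 33) (.ev (nat_lit 52) (nat_lit
 620629197824) (.ev (nat_lit 116) (nat_lit 67108864) (.ev (nat_lit 212) (nat_lit 32) (.ev (nat_lit 596)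
 (nat_lit 137438953472) (.ev (nat_lit 628) (nat_lit 128) (.ev (nat_lit 724) (nat_lit 2) (.ev (nat_lit 733)
 (nat_lit 1073741824) .dd))))))))) (.br (nat_lit 36) (.ch (nat_lit 35) (.ev (nat_lit 52) (nat_lit 759135469568)
 (.ev (nat_lit 320) (nat_lit 73532578) .dd))) (.ch (nat_lit 36) (.ev (nat_lit 52) (nat_lit 139590631456) (.ev
 (nat_lit 180) (nat_lit 131072) (.ev (nat_lit 244) (nat_lit 1024) (.ev (nat_lit 276) (nat_lit 2) (.ev (nat_lit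
 404) (nat_lit 1073741824) (.ev (nat_lit 436) (nat_lit 128) (.ev (nat_lit 564) (nat_lit 69206016) (.ev (nat_lit
 1300) (nat_lit 549755813888) (.ev (nat_lit 1309) (nat_lit 68719476736) .dd)))))))))))))))))

/-- Subtrie. -/
noncomputable def T2 : Tr := (.ev (nat_lit 20) (nat_lit 5145440290448) (.nd (nat_lit 33) (.br (nat_lit 19) (.br
 (nat_lit 11) (.br (nat_lit 7) (.br (nat_lit 4) (.ch (nat_lit 1) (.ev (nat_lit 52) (nat_lit 1073742112) (.ev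
 (nat_lit 212) (nat_lit 343597383680) (.ev (nat_lit 276) (nat_lit 4096) (.ev (nat_lit 468) (nat_lit 64) (.ev
 (nat_lit 868) (nat_lit 33554432) (.nd (nat_lit 1696) (.br (nat_lit 7) (.br (nat_lit 6) (.ch (nat_lit 2) (.ev
 (nat_lit 1712) (nat_lit 2151817218) .dd)) (.ch (nat_lit 6) (.ev (nat_lit 1712) (nat_lit 2151686146) (.ev
 (nat_lit 1725) (nat_lit 131072) .dd)))) (.br (nat_lit 10) (.ch (nat_lit 7) (.ev (nat_lit 1712) (nat_lit
 2151817218) .dd)) (.br (nat_lit 12) (.ch (nat_lit 10) (.ev (nat_lit 1712) (nat_lit 139266) (.fin (nat_lit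
 576405226861838925)))) (.ch (nat_lit 12) (.ev (nat_lit 1712) (nat_lit 2151677952) (.ev (nat_lit 1744) (nat_lit
 8192) (.nd (nat_lit 1904) (.br (nat_lit 13) (.ch (nat_lit 6) (.ev (nat_lit 1920) (nat_lit 2) (.ev (nat_lit
 1933) (nat_lit 131072) .dd))) (.ch (nat_lit 13) (.fin (nat_lit 576365644529222093)))))))))))))))))) (.br
 (nat_lit 5) (.ch (nat_lit 4) (.ev (nat_lit 52) (nat_lit 1073754464) (.ev (nat_lit 212) (nat_lit 33554432) (.ev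
 (nat_lit 468) (nat_lit 4194304) (.ev (nat_lit 596) (nat_lit 274877906944) (.ev (nat_lit 628) (nat_lit 131072)
 (.ev (nat_lit 804) (nat_lit 2147483648) (.ev (nat_lit 1188) (nat_lit 68719476736) (.ev (nat_lit 1197) (nat_lit
 2) .dd))))))))) (.ch (nat_lit 5) (.ev (nat_lit 52) (nat_lit 71940702208) (.ev (nat_lit 404) (nat_lit 32) (.ev
 (nat_lit 468) (nat_lit 8192) (.ev (nat_lit 1088) (nat_lit 274911461440) (.ev (nat_lit 1188) (nat_lit 256) (.nd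
 (nat_lit 1696) (.br (nat_lit 11) (.br (nat_lit 6) (.ch (nat_lit 0) (.ev (nat_lit 1712) (nat_lit 135168) (.fin
 (nat_lit 576464600600887876)))) (.ch (nat_lit 6) (.ev (nat_lit 1712) (nat_lit 4329474) .dd))) (.br (nat_lit
 12) (.ch (nat_lit 11) (.ev (nat_lit 1712) (nat_lit 4325378) (.ev (nat_lit 1725) (nat_lit 4096) .dd))) (.br
 (nat_lit 15) (.ch (nat_lit 12) (.ev (nat_lit 1712) (nat_lit 4198402) (.ev (nat_lit 1725) (nat_lit 131072)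
 .dd))) (.ch (nat_lit 15) (.ev (nat_lit 1712) (nat_lit 4194306) (.ev (nat_lit 1828) (nat_lit 131072) (.ev
 (nat_lit 1837) (nat_lit 4096) .dd)))))))))))))))) (.br (nat_lit 8) (.ch (nat_lit 7) (.ev (nat_lit 52) (nat_lit
 275951652930) (.ev (nat_lit 244) (nat_lit 68719476736) (.ev (nat_lit 340) (nat_lit 32) (.ev (nat_lit 672)
 (nat_lit 2185371904) .dd))))) (.br (nat_lit 10) (.ch (nat_lit 8) (.ev (nat_lit 52) (nat_lit 4329472) (.ev
 (nat_lit 308) (nat_lit 256) (.ev (nat_lit 468) (nat_lit 2) (.ev (nat_lit 836) (nat_lit 64) (.ev (nat_lit 868)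
 (nat_lit 2147483648) (.ev (nat_lit 1012) (nat_lit 33554432) (.ev (nat_lit 1248) (nat_lit 8224) (.nd (nat_lit
 1696) (.br (nat_lit 10) (.ch (nat_lit 7) (.ev (nat_lit 1712) (nat_lit 343597383680) (.ev (nat_lit 1725)
 (nat_lit 1073741824) .dd))) (.br (nat_lit 13) (.ch (nat_lit 10) (.ev (nat_lit 1712) (nat_lit 68719476736) (.nd
 (nat_lit 1904) (.br (nat_lit 14) (.ch (nat_lit 1) (.ev (nat_lit 1920) (nat_lit 274877906944) (.ev (nat_lit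
 1933) (nat_lit 1073741824) .dd))) (.ch (nat_lit 14) (.fin (nat_lit 576470098152735306))))))) (.ch (nat_lit 13)
 (.ev (nat_lit 1712) (nat_lit 1073741824) (.fin (nat_lit 576341455283896840))))))))))))))) (.ch (nat_lit 10)
 (.ev (nat_lit 52) (nat_lit 274877911042) (.ev (nat_lit 64) (nat_lit 71978590560) .dd)))))) (.br (nat_lit 15)
 (.br (nat_lit 12) (.ch (nat_lit 11) (.ev (nat_lit 52) (nat_lit 4096) (.ev (nat_lit 84) (nat_lit 64) (.ev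
 (nat_lit 564) (nat_lit 131072) (.nd (nat_lit 1696) (.br (nat_lit 6) (.br (nat_lit 2) (.ch (nat_lit 0) (.ev
 (nat_lit 1712) (nat_lit 277058953248) (.ev (nat_lit 1776) (nat_lit 256) (.ev (nat_lit 1840) (nat_lit
 68719476736) (.ev (nat_lit 1856) (nat_lit 1073741824) (.nd (nat_lit 1904) (.br (nat_lit 8) (.ch (nat_lit 1)
 (.ev (nat_lit 1920) (nat_lit 4194306) .dd)) (.br (nat_lit 18) (.ch (nat_lit 8) (.ev (nat_lit 1920) (nat_lit
 4194306) .dd)) (.ch (nat_lit 18) (.fin (nat_lit 576464600600887876))))))))))) (.br (nat_lit 5) (.ch (nat_lit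
 2) (.ev (nat_lit 1712) (nat_lit 346852163874) (.ev (nat_lit 1760) (nat_lit 4202496) .dd))) (.ch (nat_lit 5)
 (.ev (nat_lit 1712) (nat_lit 70866968610) (.ev (nat_lit 1732) (nat_lit 1111490560) (.ev (nat_lit 1808)
 (nat_lit 274877906944) (.ev (nat_lit 1821) (nat_lit 256) .dd))))))) (.br (nat_lit 15) (.br (nat_lit 10) (.ch
 (nat_lit 6) (.ev (nat_lit 1712) (nat_lit 346856366368) (.ev (nat_lit 1725) (nat_lit 2) .dd))) (.ch (nat_lit
 10) (.ev (nat_lit 1712) (nat_lit 343635140640) (.ev (nat_lit 1732) (nat_lit 2147483648) (.ev (nat_lit 1796)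
 (nat_lit 2) (.ev (nat_lit 1828) (nat_lit 256) (.ev (nat_lit 1837) (nat_lit 1073741824) .dd))))))) (.br
 (nat_lit 16) (.ch (nat_lit 15) (.ev (nat_lit 1712) (nat_lit 344708882434) (.ev (nat_lit 1760) (nat_lit 256)
 (.nd (nat_lit 1904) (.br (nat_lit 10) (.ch (nat_lit 5) (.ev (nat_lit 1920) (nat_lit 2147483680) .dd)) (.ch
 (nat_lit 10) (.fin (nat_lit 576543765494710819)))))))) (.ch (nat_lit 16) (.ev (nat_lit 1712) (nat_lit
 70871163170) (.ev (nat_lit 1760) (nat_lit 1073741824) (.nd (nat_lit 1904) (.br (nat_lit 3) (.ch (nat_lit 2)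
 (.fin (nat_lit 576556959552455347))) (.ch (nat_lit 3) (.ev (nat_lit 1920) (nat_lit 274911461376)
 .dd))))))))))))))) (.br (nat_lit 13) (.ch (nat_lit 12) (.ev (nat_lit 52) (nat_lit 274878046210) (.ev (nat_lit
 116) (nat_lit 32) (.ev (nat_lit 480) (nat_lit 71978455360) .dd)))) (.ch (nat_lit 13) (.ev (nat_lit 52)
 (nat_lit 275985334370) (.ev (nat_lit 532) (nat_lit 4194304) (.ev (nat_lit 932) (nat_lit 2147483648) (.ev
 (nat_lit 1312) (nat_lit 12288) (.nd (nat_lit 1696) (.br (nat_lit 11) (.br (nat_lit 5) (.ch (nat_lit 0) (.ev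
 (nat_lit 1712) (nat_lit 256) (.ev (nat_lit 1725) (nat_lit 68719476736) .dd))) (.ch (nat_lit 5) (.ev (nat_lit
 1712) (nat_lit 68719476736) (.ev (nat_lit 1725) (nat_lit 256) .dd)))) (.br (nat_lit 16) (.ch (nat_lit 11) (.ev
 (nat_lit 1712) (nat_lit 256) (.ev (nat_lit 1725) (nat_lit 68719476736) .dd))) (.ch (nat_lit 16) (.ev (nat_lit
 1712) (nat_lit 68719476736) (.ev (nat_lit 1725) (nat_lit 256) .dd))))))))))))) (.br (nat_lit 17) (.br (nat_lit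
 16) (.ch (nat_lit 15) (.ev (nat_lit 52) (nat_lit 68757368896) (.ev (nat_lit 372) (nat_lit 2147483648) (.ev
 (nat_lit 836) (nat_lit 2) (.ev (nat_lit 944) (nat_lit 275951649056) .dd))))) (.ch (nat_lit 16) (.ev (nat_lit
 52) (nat_lit 68719620418) (.ev (nat_lit 308) (nat_lit 1073741824) (.ev (nat_lit 724) (nat_lit 32) (.nd
 (nat_lit 1696) (.br (nat_lit 11) (.br (nat_lit 10) (.ch (nat_lit 0) (.ev (nat_lit 1712) (nat_lit 277063139328)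
 .dd)) (.ch (nat_lit 10) (.ev (nat_lit 1712) (nat_lit 274911461376) (.fin (nat_lit 576405226861838925))))) (.br
 (nat_lit 12) (.ch (nat_lit 11) (.ev (nat_lit 1712) (nat_lit 274882101248) (.ev (nat_lit 1828) (nat_lit
 2147483648) (.ev (nat_lit 1837) (nat_lit 33554432) .dd)))) (.br (nat_lit 16) (.ch (nat_lit 12) (.ev (nat_lit
 1712) (nat_lit 2185232384) (.ev (nat_lit 1725) (nat_lit 274877906944) .dd))) (.ch (nat_lit 16) (.ev (nat_lit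
 1712) (nat_lit 2151677952) (.nd (nat_lit 1904) (.br (nat_lit 5) (.ch (nat_lit 2) (.fin (nat_lit
 576556959552455347))) (.ch (nat_lit 5) (.ev (nat_lit 1920) (nat_lit 274911461376) .dd))))))))))))))) (.br
 (nat_lit 18) (.ch (nat_lit 17) (.ev (nat_lit 52) (nat_lit 343601717280) (.ev (nat_lit 116) (nat_lit 4096) (.ev
 (nat_lit 244) (nat_lit 3221225472) (.ev (nat_lit 660) (nat_lit 66) (.nd (nat_lit 1696) (.br (nat_lit 6) (.ch
 (nat_lit 5) (.nd (nat_lit 1904) (.br (nat_lit 17) (.ch (nat_lit 2) (.fin (nat_lit 576497585943429596))) (.ch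
 (nat_lit 17) (.ev (nat_lit 1920) (nat_lit 33554432) (.ev (nat_lit 1933) (nat_lit 256) .dd)))))) (.br (nat_lit
 7) (.ch (nat_lit 6) (.ev (nat_lit 1712) (nat_lit 33554688) .dd)) (.ch (nat_lit 7) (.ev (nat_lit 1712) (nat_lit
 33554432) (.ev (nat_lit 1725) (nat_lit 256) .dd))))))))))) (.ch (nat_lit 18) (.ev (nat_lit 52) (nat_lit
 343630942498) (.ev (nat_lit 596) (nat_lit 1073741824) (.ev (nat_lit 816) (nat_lit 2151817280) .dd)))))))) (.br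
 (nat_lit 26) (.br (nat_lit 22) (.br (nat_lit 20) (.ch (nat_lit 19) (.ev (nat_lit 52) (nat_lit 278132822018)
 (.ev (nat_lit 640) (nat_lit 68723679584) .dd))) (.br (nat_lit 21) (.ch (nat_lit 20) (.ev (nat_lit 52) (nat_lit
 1107427426) (.ev (nat_lit 180) (nat_lit 8192) (.ev (nat_lit 308) (nat_lit 2147483648) (.ev (nat_lit 404)
 (nat_lit 4096) (.ev (nat_lit 1124) (nat_lit 256) (.ev (nat_lit 1204) (nat_lit 4194304) (.ev (nat_lit 1216)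
 (nat_lit 343597383680) .dd)))))))) (.ch (nat_lit 21) (.ev (nat_lit 52) (nat_lit 3225419840) (.ev (nat_lit 436)
 (nat_lit 131072) (.ev (nat_lit 532) (nat_lit 2) (.ev (nat_lit 660) (nat_lit 8192) (.ev (nat_lit 756) (nat_lit
 32) (.ev (nat_lit 1488) (nat_lit 33554432) (.ev (nat_lit 1600) (nat_lit 4096) (.nd (nat_lit 1696) (.br
 (nat_lit 13) (.br (nat_lit 10) (.ch (nat_lit 7) (.ev (nat_lit 1712) (nat_lit 343597383936) .dd)) (.br (nat_lit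
 11) (.ch (nat_lit 10) (.ev (nat_lit 1712) (nat_lit 68719476736) (.ev (nat_lit 1796) (nat_lit 256) (.ev
 (nat_lit 1805) (nat_lit 274877906944) .dd)))) (.ch (nat_lit 11) (.ev (nat_lit 1712) (nat_lit 343597383936)
 .dd)))) (.br (nat_lit 15) (.ch (nat_lit 13) (.ev (nat_lit 1712) (nat_lit 256) (.fin (nat_lit
 576341455283896840)))) (.br (nat_lit 16) (.ch (nat_lit 15) (.ev (nat_lit 1712) (nat_lit 343597383936) .dd))
 (.ch (nat_lit 16) (.ev (nat_lit 1712) (nat_lit 343597383680) (.ev (nat_lit 1725) (nat_lit 256)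
 .dd))))))))))))))))) (.br (nat_lit 24) (.ch (nat_lit 22) (.ev (nat_lit 52) (nat_lit 70904721698) (.ev (nat_lit
 900) (nat_lit 1073741824) (.ev (nat_lit 1536) (nat_lit 274877906944) (.nd (nat_lit 1696) (.br (nat_lit 6) (.br
 (nat_lit 2) (.ch (nat_lit 0) (.ev (nat_lit 1712) (nat_lit 131136) .dd)) (.br (nat_lit 5) (.ch (nat_lit 2) (.ev
 (nat_lit 1872) (nat_lit 64) (.ev (nat_lit 1885) (nat_lit 131072) .dd))) (.ch (nat_lit 5) (.ev (nat_lit 1712)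
 (nat_lit 131136) .dd)))) (.br (nat_lit 13) (.br (nat_lit 11) (.ch (nat_lit 6) (.ev (nat_lit 1712) (nat_lit 64)
 (.ev (nat_lit 1725) (nat_lit 131072) .dd))) (.ch (nat_lit 11) (.ev (nat_lit 1712) (nat_lit 131136) .dd))) (.br
 (nat_lit 15) (.ch (nat_lit 13) (.ev (nat_lit 1712) (nat_lit 131136) .dd)) (.ch (nat_lit 15) (.ev (nat_lit
 1712) (nat_lit 64) (.ev (nat_lit 1725) (nat_lit 131072) .dd))))))))))) (.br (nat_lit 25) (.ch (nat_lit 24)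
 (.ev (nat_lit 52) (nat_lit 1077940480) (.ev (nat_lit 148) (nat_lit 131072) (.ev (nat_lit 244) (nat_lit
 33554432) (.ev (nat_lit 692) (nat_lit 2) (.ev (nat_lit 836) (nat_lit 8192) (.ev (nat_lit 1504) (nat_lit 64)
 (.ev (nat_lit 1632) (nat_lit 274877906944) (.nd (nat_lit 1696) (.br (nat_lit 7) (.br (nat_lit 5) (.ch (nat_lit
 0) (.ev (nat_lit 1712) (nat_lit 2147483680) (.ev (nat_lit 1725) (nat_lit 68719476736) .dd))) (.br (nat_lit 6)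
 (.ch (nat_lit 5) (.ev (nat_lit 1712) (nat_lit 70866960416) .dd)) (.ch (nat_lit 6) (.ev (nat_lit 1712) (nat_lit
 70866960416) .dd)))) (.br (nat_lit 11) (.ch (nat_lit 7) (.ev (nat_lit 1712) (nat_lit 70866960416) .dd)) (.br
 (nat_lit 15) (.ch (nat_lit 11) (.ev (nat_lit 1712) (nat_lit 32) (.ev (nat_lit 1796) (nat_lit 68719476736) (.ev
 (nat_lit 1805) (nat_lit 2147483648) .dd)))) (.ch (nat_lit 15) (.ev (nat_lit 1712) (nat_lit 68719476736) (.fin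
 (nat_lit 576543765494710819)))))))))))))))) (.ch (nat_lit 25) (.ev (nat_lit 52) (nat_lit 70866960672) (.ev
 (nat_lit 160) (nat_lit 275989540930) .dd)))))) (.br (nat_lit 30) (.br (nat_lit 27) (.ch (nat_lit 26) (.ev
 (nat_lit 52) (nat_lit 274911469568) (.ev (nat_lit 116) (nat_lit 131072) (.ev (nat_lit 212) (nat_lit
 1073741824) (.ev (nat_lit 512) (nat_lit 70871159138) .dd))))) (.br (nat_lit 29) (.ch (nat_lit 27) (.ev
 (nat_lit 52) (nat_lit 70871285826) (.ev (nat_lit 148) (nat_lit 32) (.ev (nat_lit 692) (nat_lit 8192) (.nd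
 (nat_lit 1696) (.br (nat_lit 7) (.br (nat_lit 5) (.ch (nat_lit 2) (.ev (nat_lit 1712) (nat_lit 275985207552)
 .dd)) (.ch (nat_lit 5) (.ev (nat_lit 1712) (nat_lit 274877911040) (.ev (nat_lit 1744) (nat_lit 1073741824)
 (.nd (nat_lit 1904) (.br (nat_lit 17) (.ch (nat_lit 2) (.fin (nat_lit 576497585943429596))) (.ch (nat_lit 17)
 (.ev (nat_lit 1920) (nat_lit 33554432) (.ev (nat_lit 1933) (nat_lit 256) .dd))))))))) (.br (nat_lit 12) (.ch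
 (nat_lit 7) (.ev (nat_lit 1712) (nat_lit 275985207296) (.ev (nat_lit 1725) (nat_lit 256) .dd))) (.br (nat_lit
 13) (.ch (nat_lit 12) (.ev (nat_lit 1712) (nat_lit 1107296512) (.fin (nat_lit 576378838626812376)))) (.ch
 (nat_lit 13) (.ev (nat_lit 1712) (nat_lit 275985207552) .dd)))))))))) (.ch (nat_lit 29) (.ev (nat_lit 52)
 (nat_lit 2185232704) (.ev (nat_lit 84) (nat_lit 8194) (.ev (nat_lit 276) (nat_lit 32) (.ev (nat_lit 308)
 (nat_lit 274877906944) (.ev (nat_lit 772) (nat_lit 4096) (.ev (nat_lit 996) (nat_lit 131072) (.ev (nat_lit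
 1056) (nat_lit 69793218560) .dd)))))))))) (.br (nat_lit 35) (.br (nat_lit 33) (.ch (nat_lit 30) (.ev (nat_lit
 52) (nat_lit 277059076128) (.ev (nat_lit 448) (nat_lit 69797425474) .dd))) (.ch (nat_lit 33) (.ev (nat_lit 52)
 (nat_lit 70904848640) (.ev (nat_lit 500) (nat_lit 2) (.ev (nat_lit 1440) (nat_lit 32) (.nd (nat_lit 1696) (.br
 (nat_lit 7) (.br (nat_lit 6) (.ch (nat_lit 2) (.ev (nat_lit 1712) (nat_lit 275951652928) .dd)) (.ch (nat_lit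
 6) (.ev (nat_lit 1712) (nat_lit 275951652928) .dd))) (.br (nat_lit 10) (.ch (nat_lit 7) (.ev (nat_lit 1712)
 (nat_lit 274877911104) (.ev (nat_lit 1725) (nat_lit 1073741824) .dd))) (.br (nat_lit 12) (.ch (nat_lit 10)
 (.ev (nat_lit 1712) (nat_lit 4160) (.nd (nat_lit 1904) (.br (nat_lit 14) (.ch (nat_lit 1) (.ev (nat_lit 1920)
 (nat_lit 274877906944) (.ev (nat_lit 1933) (nat_lit 1073741824) .dd))) (.ch (nat_lit 14) (.fin (nat_lit
 576470098152735306))))))) (.ch (nat_lit 12) (.ev (nat_lit 1712) (nat_lit 1073741824) (.ev (nat_lit 1888)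
 (nat_lit 64) (.nd (nat_lit 1904) (.br (nat_lit 18) (.ch (nat_lit 1) (.fin (nat_lit 576378838626812376))) (.ch
 (nat_lit 18) (.ev (nat_lit 1920) (nat_lit 274877911040) .dd)))))))))))))))) (.br (nat_lit 36) (.ch (nat_lit
 35) (.ev (nat_lit 52) (nat_lit 346852171776) (.ev (nat_lit 180) (nat_lit 4194304) (.ev (nat_lit 500) (nat_lit
 64) (.ev (nat_lit 564) (nat_lit 4096) (.ev (nat_lit 804) (nat_lit 256) (.ev (nat_lit 1408) (nat_lit 32) (.nd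
 (nat_lit 1696) (.br (nat_lit 7) (.br (nat_lit 5) (.ch (nat_lit 2) (.ev (nat_lit 1712) (nat_lit 131074) .dd))
 (.ch (nat_lit 5) (.ev (nat_lit 1712) (nat_lit 131074) .dd))) (.br (nat_lit 12) (.ch (nat_lit 7) (.ev (nat_lit
 1712) (nat_lit 131074) .dd)) (.br (nat_lit 13) (.ch (nat_lit 12) (.nd (nat_lit 1904) (.br (nat_lit 13) (.ch
 (nat_lit 7) (.ev (nat_lit 1920) (nat_lit 131074) .dd)) (.ch (nat_lit 13) (.fin (nat_lit
 576365644529222093)))))) (.ch (nat_lit 13) (.ev (nat_lit 1712) (nat_lit 131074) .dd))))))))))))) (.ch (nat_lit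
 36) (.ev (nat_lit 52) (nat_lit 2151686176) (.ev (nat_lit 180) (nat_lit 66) (.ev (nat_lit 308) (nat_lit
 68719476736) (.ev (nat_lit 340) (nat_lit 4096) (.ev (nat_lit 372) (nat_lit 1073742080) (.ev (nat_lit 932)
 (nat_lit 274877906944) (.ev (nat_lit 1286) (nat_lit 33554432) (.ev (nat_lit 1293) (nat_lit 131072)
 .dd))))))))))))))))

/-- Subtrie. -/
noncomputable def T8 : Tr := (.ev (nat_lit 20) (nat_lit 5363441210560) (.nd (nat_lit 33) (.br (nat_lit 19) (.br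
 (nat_lit 11) (.br (nat_lit 7) (.br (nat_lit 4) (.ch (nat_lit 1) (.ev (nat_lit 52) (nat_lit 17180131616) (.ev
 (nat_lit 192) (nat_lit 111675449874) .dd))) (.br (nat_lit 5) (.ch (nat_lit 4) (.ev (nat_lit 52) (nat_lit
 271152) (.ev (nat_lit 308) (nat_lit 2) (.ev (nat_lit 576) (nat_lit 128855310336) .dd)))) (.ch (nat_lit 5) (.ev
 (nat_lit 52) (nat_lit 103079215616) (.ev (nat_lit 468) (nat_lit 256) (.ev (nat_lit 692) (nat_lit 262144) (.ev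
 (nat_lit 1136) (nat_lit 17179877392) (.ev (nat_lit 1236) (nat_lit 8589934592) (.nd (nat_lit 1696) (.br
 (nat_lit 8) (.br (nat_lit 6) (.ch (nat_lit 4) (.ev (nat_lit 1712) (nat_lit 2097184) (.fin (nat_lit
 576464600600887876)))) (.ch (nat_lit 6) (.ev (nat_lit 1712) (nat_lit 6291490) .dd))) (.br (nat_lit 9) (.ch
 (nat_lit 8) (.ev (nat_lit 1712) (nat_lit 6291458) (.ev (nat_lit 1725) (nat_lit 32) .dd))) (.br (nat_lit 14)
 (.ch (nat_lit 9) (.ev (nat_lit 1712) (nat_lit 4194306) (.ev (nat_lit 1828) (nat_lit 32) (.ev (nat_lit 1837)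
 (nat_lit 2097152) .dd)))) (.ch (nat_lit 14) (.ev (nat_lit 1712) (nat_lit 4194338) (.ev (nat_lit 1725) (nat_lit
 2097152) .dd))))))))))))))) (.br (nat_lit 8) (.ch (nat_lit 7) (.ev (nat_lit 52) (nat_lit 2097666) (.ev
 (nat_lit 84) (nat_lit 256) (.ev (nat_lit 180) (nat_lit 16) (.ev (nat_lit 532) (nat_lit 8192) (.ev (nat_lit
 836) (nat_lit 262144) (.ev (nat_lit 900) (nat_lit 4194304) (.ev (nat_lit 1648) (nat_lit 34359738368) (.nd
 (nat_lit 1696) (.br (nat_lit 9) (.br (nat_lit 8) (.ch (nat_lit 6) (.ev (nat_lit 1712) (nat_lit 8589934624)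
 (.ev (nat_lit 1732) (nat_lit 68719476736) (.ev (nat_lit 1741) (nat_lit 17179869184) .dd)))) (.ch (nat_lit 8)
 (.ev (nat_lit 1712) (nat_lit 85899345920) (.fin (nat_lit 576482192898081400))))) (.br (nat_lit 13) (.ch
 (nat_lit 9) (.ev (nat_lit 1712) (nat_lit 77309411360) (.ev (nat_lit 1725) (nat_lit 17179869184) .dd))) (.ch
 (nat_lit 13) (.ev (nat_lit 1712) (nat_lit 17179869216) (.nd (nat_lit 1904) (.br (nat_lit 14) (.ch (nat_lit 0)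
 (.fin (nat_lit 576465700097835582))) (.ch (nat_lit 14) (.ev (nat_lit 1920) (nat_lit 8589934592) (.ev (nat_lit
 1933) (nat_lit 68719476736) .dd)))))))))))))))))) (.br (nat_lit 10) (.ch (nat_lit 8) (.ev (nat_lit 52)
 (nat_lit 42956226576) (.ev (nat_lit 180) (nat_lit 68719476736) (.ev (nat_lit 660) (nat_lit 8192) (.ev (nat_lit
 756) (nat_lit 32) (.ev (nat_lit 868) (nat_lit 512) (.ev (nat_lit 900) (nat_lit 17179869184) (.ev (nat_lit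
 1104) (nat_lit 2) (.ev (nat_lit 1117) (nat_lit 256) .dd))))))))) (.ch (nat_lit 10) (.ev (nat_lit 52) (nat_lit
 34359738882) (.ev (nat_lit 84) (nat_lit 262144) (.ev (nat_lit 244) (nat_lit 4194304) (.ev (nat_lit 276)
 (nat_lit 2097152) (.ev (nat_lit 372) (nat_lit 17179869184) (.ev (nat_lit 692) (nat_lit 256) (.nd (nat_lit
 1696) (.br (nat_lit 13) (.br (nat_lit 6) (.ch (nat_lit 4) (.ev (nat_lit 1712) (nat_lit 77309419568) .dd)) (.br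
 (nat_lit 8) (.ch (nat_lit 6) (.ev (nat_lit 1712) (nat_lit 77309419568) .dd)) (.ch (nat_lit 8) (.ev (nat_lit
 1712) (nat_lit 8208) (.ev (nat_lit 1776) (nat_lit 68719476736) (.nd (nat_lit 1904) (.br (nat_lit 5) (.ch
 (nat_lit 3) (.fin (nat_lit 576482192898081400))) (.br (nat_lit 11) (.ch (nat_lit 5) (.ev (nat_lit 1920)
 (nat_lit 8589934624) .dd)) (.ch (nat_lit 11) (.ev (nat_lit 1920) (nat_lit 8589934624) .dd)))))))))) (.br
 (nat_lit 15) (.br (nat_lit 14) (.ch (nat_lit 13) (.ev (nat_lit 1712) (nat_lit 8192) (.ev (nat_lit 1796)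
 (nat_lit 32) (.ev (nat_lit 1828) (nat_lit 8589934592) (.ev (nat_lit 1872) (nat_lit 16) (.ev (nat_lit 1885)
 (nat_lit 68719476736) .dd)))))) (.ch (nat_lit 14) (.ev (nat_lit 1712) (nat_lit 8589942832) (.ev (nat_lit 1725)
 (nat_lit 68719476736) .dd)))) (.br (nat_lit 16) (.ch (nat_lit 15) (.ev (nat_lit 1712) (nat_lit 8589934624)
 (.ev (nat_lit 1856) (nat_lit 68719476736) (.nd (nat_lit 1904) (.br (nat_lit 13) (.ch (nat_lit 4) (.fin
 (nat_lit 576460202634068452))) (.br (nat_lit 15) (.ch (nat_lit 13) (.ev (nat_lit 1920) (nat_lit 8208) .dd))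
 (.ch (nat_lit 15) (.ev (nat_lit 1920) (nat_lit 8208) .dd)))))))) (.ch (nat_lit 16) (.ev (nat_lit 1712)
 (nat_lit 77309419568) .dd)))))))))))))))) (.br (nat_lit 15) (.br (nat_lit 12) (.ch (nat_lit 11) (.ev (nat_lit
 52) (nat_lit 17181966336) (.ev (nat_lit 628) (nat_lit 32) (.nd (nat_lit 1696) (.br (nat_lit 10) (.br (nat_lit
 4) (.ch (nat_lit 3) (.ev (nat_lit 1712) (nat_lit 103083680258) (.ev (nat_lit 1760) (nat_lit 256) (.nd (nat_lit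
 1904) (.br (nat_lit 18) (.ch (nat_lit 12) (.ev (nat_lit 1920) (nat_lit 8589934608) .dd)) (.ch (nat_lit 18)
 (.fin (nat_lit 576517377047872051)))))))) (.br (nat_lit 8) (.ch (nat_lit 4) (.ev (nat_lit 1712) (nat_lit
 111669411856) (.ev (nat_lit 1776) (nat_lit 256) (.ev (nat_lit 1840) (nat_lit 8192) (.ev (nat_lit 1856)
 (nat_lit 512) (.nd (nat_lit 1904) (.br (nat_lit 7) (.ch (nat_lit 0) (.fin (nat_lit 576464600600887876))) (.br
 (nat_lit 10) (.ch (nat_lit 7) (.ev (nat_lit 1920) (nat_lit 4194306) .dd)) (.ch (nat_lit 10) (.ev (nat_lit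
 1920) (nat_lit 4194306) .dd)))))))))) (.ch (nat_lit 8) (.ev (nat_lit 1712) (nat_lit 77313614098) (.ev (nat_lit
 1760) (nat_lit 512) (.nd (nat_lit 1904) (.br (nat_lit 16) (.ch (nat_lit 2) (.ev (nat_lit 1920) (nat_lit
 34360000512) .dd)) (.ch (nat_lit 16) (.fin (nat_lit 576425018178093499)))))))))) (.br (nat_lit 15) (.br
 (nat_lit 14) (.ch (nat_lit 10) (.ev (nat_lit 1712) (nat_lit 77313613840) (.ev (nat_lit 1732) (nat_lit
 34359738882) (.ev (nat_lit 1808) (nat_lit 262144) (.ev (nat_lit 1821) (nat_lit 256) .dd))))) (.ch (nat_lit 14)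
 (.ev (nat_lit 1712) (nat_lit 42954138384) (.ev (nat_lit 1760) (nat_lit 68719476738) .dd)))) (.br (nat_lit 16)
 (.ch (nat_lit 15) (.ev (nat_lit 1712) (nat_lit 111669420818) (.ev (nat_lit 1725) (nat_lit 4194304) .dd))) (.ch
 (nat_lit 16) (.ev (nat_lit 1712) (nat_lit 103079485458) (.ev (nat_lit 1732) (nat_lit 8589934592) (.ev (nat_lit
 1796) (nat_lit 4194304) (.ev (nat_lit 1828) (nat_lit 256) (.ev (nat_lit 1837) (nat_lit 512) .dd)))))))))))))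
 (.br (nat_lit 13) (.ch (nat_lit 12) (.ev (nat_lit 52) (nat_lit 17180139522) (.ev (nat_lit 148) (nat_lit
 2097184) (.ev (nat_lit 868) (nat_lit 4194304) (.ev (nat_lit 1152) (nat_lit 34359738880) (.ev (nat_lit 1300)
 (nat_lit 16) (.nd (nat_lit 1696) (.br (nat_lit 13) (.ch (nat_lit 6) (.ev (nat_lit 1712) (nat_lit 8589934592)
 (.ev (nat_lit 1732) (nat_lit 256) (.ev (nat_lit 1741) (nat_lit 68719476736) .dd)))) (.br (nat_lit 16) (.ch
 (nat_lit 13) (.ev (nat_lit 1712) (nat_lit 256) (.nd (nat_lit 1904) (.br (nat_lit 14) (.ch (nat_lit 0) (.fin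
 (nat_lit 576465700097835582))) (.ch (nat_lit 14) (.ev (nat_lit 1920) (nat_lit 8589934592) (.ev (nat_lit 1933)
 (nat_lit 68719476736) .dd))))))) (.ch (nat_lit 16) (.ev (nat_lit 1712) (nat_lit 68719476736) (.nd (nat_lit
 1904) (.br (nat_lit 7) (.ch (nat_lit 6) (.fin (nat_lit 576431615310774936))) (.ch (nat_lit 7) (.ev (nat_lit
 1920) (nat_lit 8589934592) (.ev (nat_lit 1933) (nat_lit 256) .dd)))))))))))))))) (.ch (nat_lit 13) (.ev
 (nat_lit 52) (nat_lit 2097714) (.ev (nat_lit 372) (nat_lit 4194304) (.ev (nat_lit 964) (nat_lit 68719476736)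
 (.ev (nat_lit 1076) (nat_lit 8192) (.ev (nat_lit 1424) (nat_lit 17179869184) (.ev (nat_lit 1552) (nat_lit
 8589934592) (.nd (nat_lit 1696) (.br (nat_lit 10) (.br (nat_lit 8) (.ch (nat_lit 3) (.ev (nat_lit 1712)
 (nat_lit 34360000768) .dd)) (.ch (nat_lit 8) (.ev (nat_lit 1712) (nat_lit 256) (.nd (nat_lit 1904) (.br
 (nat_lit 16) (.ch (nat_lit 12) (.ev (nat_lit 1920) (nat_lit 262144) (.ev (nat_lit 1933) (nat_lit 34359738368)
 .dd))) (.ch (nat_lit 16) (.fin (nat_lit 576425018178093499)))))))) (.br (nat_lit 18) (.ch (nat_lit 10) (.ev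
 (nat_lit 1712) (nat_lit 262144) (.ev (nat_lit 1732) (nat_lit 34359738368) (.ev (nat_lit 1741) (nat_lit 256)
 .dd)))) (.ch (nat_lit 18) (.ev (nat_lit 1712) (nat_lit 34360000512) (.ev (nat_lit 1725) (nat_lit 256)
 .dd))))))))))))))) (.br (nat_lit 17) (.br (nat_lit 16) (.ch (nat_lit 15) (.ev (nat_lit 52) (nat_lit
 77315710992) (.ev (nat_lit 244) (nat_lit 512) (.ev (nat_lit 784) (nat_lit 51539869986) .dd)))) (.ch (nat_lit
 16) (.ev (nat_lit 52) (nat_lit 85899354386) (.ev (nat_lit 212) (nat_lit 4194304) (.ev (nat_lit 340) (nat_lit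
 2097152) (.ev (nat_lit 724) (nat_lit 34359738368) (.ev (nat_lit 912) (nat_lit 8590197280) .dd))))))) (.br
 (nat_lit 18) (.ch (nat_lit 17) (.ev (nat_lit 52) (nat_lit 94493745200) (.ev (nat_lit 564) (nat_lit
 34359738368) (.ev (nat_lit 660) (nat_lit 256) (.ev (nat_lit 1024) (nat_lit 2097666) .dd))))) (.ch (nat_lit 18)
 (.ev (nat_lit 52) (nat_lit 85899608354) (.ev (nat_lit 116) (nat_lit 34359738368) (.ev (nat_lit 436) (nat_lit
 2097152) (.ev (nat_lit 804) (nat_lit 4194304) (.ev (nat_lit 900) (nat_lit 512) (.ev (nat_lit 964) (nat_lit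
 8589934592) (.nd (nat_lit 1696) (.br (nat_lit 14) (.br (nat_lit 8) (.ch (nat_lit 3) (.ev (nat_lit 1712)
 (nat_lit 8192) (.ev (nat_lit 1725) (nat_lit 16) .dd))) (.br (nat_lit 9) (.ch (nat_lit 8) (.ev (nat_lit 1712)
 (nat_lit 8208) .dd)) (.ch (nat_lit 9) (.ev (nat_lit 1712) (nat_lit 8208) .dd)))) (.br (nat_lit 15) (.ch
 (nat_lit 14) (.ev (nat_lit 1712) (nat_lit 8208) .dd)) (.br (nat_lit 16) (.ch (nat_lit 15) (.fin (nat_lit
 576460202634068452))) (.ch (nat_lit 16) (.ev (nat_lit 1712) (nat_lit 8208) .dd))))))))))))))))) (.br (nat_lit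
 26) (.br (nat_lit 22) (.br (nat_lit 20) (.ch (nat_lit 19) (.ev (nat_lit 52) (nat_lit 34362098178) (.ev
 (nat_lit 596) (nat_lit 17179869184) (.ev (nat_lit 1044) (nat_lit 4194304) (.ev (nat_lit 1076) (nat_lit
 68719476736) (.ev (nat_lit 1376) (nat_lit 48) (.nd (nat_lit 1696) (.br (nat_lit 6) (.br (nat_lit 4) (.ch
 (nat_lit 3) (.ev (nat_lit 1712) (nat_lit 8589943040) .dd)) (.ch (nat_lit 4) (.ev (nat_lit 1712) (nat_lit
 8589934848) (.ev (nat_lit 1725) (nat_lit 8192) .dd)))) (.br (nat_lit 16) (.ch (nat_lit 6) (.ev (nat_lit 1712)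
 (nat_lit 8589934592) (.ev (nat_lit 1732) (nat_lit 256) (.ev (nat_lit 1741) (nat_lit 8192) .dd)))) (.ch
 (nat_lit 16) (.ev (nat_lit 1712) (nat_lit 8192) (.nd (nat_lit 1904) (.br (nat_lit 7) (.ch (nat_lit 6) (.fin
 (nat_lit 576431615310774936))) (.ch (nat_lit 7) (.ev (nat_lit 1920) (nat_lit 8589934592) (.ev (nat_lit 1933)
 (nat_lit 256) .dd)))))))))))))))) (.br (nat_lit 21) (.ch (nat_lit 20) (.ev (nat_lit 52) (nat_lit 562) (.ev
 (nat_lit 288) (nat_lit 128855580928) .dd))) (.ch (nat_lit 21) (.ev (nat_lit 52) (nat_lit 8596488192) (.ev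
 (nat_lit 84) (nat_lit 16) (.ev (nat_lit 148) (nat_lit 34359738368) (.ev (nat_lit 244) (nat_lit 17179869184)
 (.ev (nat_lit 372) (nat_lit 2) (.ev (nat_lit 468) (nat_lit 68719476736) (.ev (nat_lit 1344) (nat_lit 544) (.nd
 (nat_lit 1696) (.br (nat_lit 14) (.br (nat_lit 6) (.ch (nat_lit 4) (.ev (nat_lit 1712) (nat_lit 256) (.ev
 (nat_lit 1725) (nat_lit 8192) .dd))) (.br (nat_lit 8) (.ch (nat_lit 6) (.ev (nat_lit 1712) (nat_lit 256) (.ev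
 (nat_lit 1725) (nat_lit 8192) .dd))) (.ch (nat_lit 8) (.ev (nat_lit 1712) (nat_lit 8448) .dd)))) (.br (nat_lit
 16) (.ch (nat_lit 14) (.ev (nat_lit 1712) (nat_lit 8448) .dd)) (.br (nat_lit 18) (.ch (nat_lit 16) (.ev
 (nat_lit 1712) (nat_lit 8192) (.ev (nat_lit 1725) (nat_lit 256) .dd))) (.ch (nat_lit 18) (.ev (nat_lit 1712)
 (nat_lit 8192) (.ev (nat_lit 1725) (nat_lit 256) .dd))))))))))))))))) (.br (nat_lit 24) (.ch (nat_lit 22) (.ev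
 (nat_lit 52) (nat_lit 94493745442) (.ev (nat_lit 628) (nat_lit 34359738368) (.ev (nat_lit 932) (nat_lit 512)
 (.ev (nat_lit 996) (nat_lit 2097152) (.ev (nat_lit 1005) (nat_lit 16) .dd)))))) (.br (nat_lit 25) (.ch
 (nat_lit 24) (.ev (nat_lit 52) (nat_lit 42956226832) (.ev (nat_lit 500) (nat_lit 8192) (.ev (nat_lit 724)
 (nat_lit 32) (.ev (nat_lit 880) (nat_lit 85899346434) .dd))))) (.ch (nat_lit 25) (.ev (nat_lit 52) (nat_lit
 94489280816) (.ev (nat_lit 276) (nat_lit 34359738368) (.ev (nat_lit 468) (nat_lit 8192) (.nd (nat_lit 1696)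
 (.br (nat_lit 10) (.br (nat_lit 6) (.ch (nat_lit 3) (.ev (nat_lit 1712) (nat_lit 4456448) (.ev (nat_lit 1856)
 (nat_lit 512) (.nd (nat_lit 1904) (.br (nat_lit 8) (.ch (nat_lit 1) (.ev (nat_lit 1920) (nat_lit 2097154)
 .dd)) (.br (nat_lit 11) (.ch (nat_lit 8) (.ev (nat_lit 1920) (nat_lit 2097154) .dd)) (.ch (nat_lit 11) (.fin
 (nat_lit 576440411456225893))))))))) (.br (nat_lit 9) (.ch (nat_lit 6) (.ev (nat_lit 1712) (nat_lit 6554114)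
 .dd)) (.ch (nat_lit 9) (.ev (nat_lit 1712) (nat_lit 6554114) .dd)))) (.br (nat_lit 16) (.br (nat_lit 13) (.ch
 (nat_lit 10) (.ev (nat_lit 1712) (nat_lit 2097152) (.ev (nat_lit 1796) (nat_lit 4194304) (.ev (nat_lit 1828)
 (nat_lit 262144) (.ev (nat_lit 1872) (nat_lit 2) (.ev (nat_lit 1885) (nat_lit 512) .dd)))))) (.ch (nat_lit 13)
 (.ev (nat_lit 1712) (nat_lit 6554114) .dd))) (.br (nat_lit 18) (.ch (nat_lit 16) (.ev (nat_lit 1712) (nat_lit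
 6553602) (.ev (nat_lit 1725) (nat_lit 512) .dd))) (.ch (nat_lit 18) (.ev (nat_lit 1712) (nat_lit 2097154) (.ev
 (nat_lit 1776) (nat_lit 512) (.nd (nat_lit 1904) (.br (nat_lit 9) (.ch (nat_lit 7) (.ev (nat_lit 1920)
 (nat_lit 4456448) .dd)) (.br (nat_lit 16) (.ch (nat_lit 9) (.ev (nat_lit 1920) (nat_lit 4456448) .dd)) (.ch
 (nat_lit 16) (.fin (nat_lit 576541566431609533)))))))))))))))))))) (.br (nat_lit 30) (.br (nat_lit 27) (.ch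
 (nat_lit 26) (.ev (nat_lit 52) (nat_lit 42949681680) (.ev (nat_lit 352) (nat_lit 85905899810) .dd))) (.br
 (nat_lit 29) (.ch (nat_lit 27) (.ev (nat_lit 52) (nat_lit 68723671554) (.ev (nat_lit 84) (nat_lit 8192) (.ev
 (nat_lit 116) (nat_lit 32) (.ev (nat_lit 404) (nat_lit 34359738368) (.ev (nat_lit 500) (nat_lit 262400) (.ev
 (nat_lit 692) (nat_lit 16) (.ev (nat_lit 1520) (nat_lit 8589934592) (.nd (nat_lit 1696) (.br (nat_lit 10) (.br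
 (nat_lit 6) (.ch (nat_lit 3) (.ev (nat_lit 1712) (nat_lit 17179869184) (.ev (nat_lit 1725) (nat_lit 2097152)
 .dd))) (.br (nat_lit 9) (.ch (nat_lit 6) (.ev (nat_lit 1712) (nat_lit 2097152) (.ev (nat_lit 1725) (nat_lit
 17179869184) .dd))) (.ch (nat_lit 9) (.ev (nat_lit 1744) (nat_lit 17179869184) (.ev (nat_lit 1757) (nat_lit
 2097152) .dd))))) (.br (nat_lit 13) (.ch (nat_lit 10) (.ev (nat_lit 1712) (nat_lit 17181966336) .dd)) (.br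
 (nat_lit 15) (.ch (nat_lit 13) (.ev (nat_lit 1712) (nat_lit 17181966336) .dd)) (.ch (nat_lit 15) (.ev (nat_lit
 1712) (nat_lit 17181966336) .dd)))))))))))))) (.ch (nat_lit 29) (.ev (nat_lit 52) (nat_lit 8596226304) (.ev
 (nat_lit 224) (nat_lit 120259355186) .dd))))) (.br (nat_lit 35) (.br (nat_lit 33) (.ch (nat_lit 30) (.ev
 (nat_lit 52) (nat_lit 34360001056) (.ev (nat_lit 84) (nat_lit 68719476736) (.ev (nat_lit 500) (nat_lit 16)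
 (.ev (nat_lit 564) (nat_lit 2097152) (.ev (nat_lit 596) (nat_lit 2) (.ev (nat_lit 804) (nat_lit 17179869184)
 (.ev (nat_lit 1124) (nat_lit 4194304) (.ev (nat_lit 1168) (nat_lit 8589942784) (.ev (nat_lit 1181) (nat_lit
 256) .dd)))))))))) (.ch (nat_lit 33) (.ev (nat_lit 52) (nat_lit 111675449600) (.ev (nat_lit 308) (nat_lit
 17179869184) (.ev (nat_lit 848) (nat_lit 262706) .dd))))) (.br (nat_lit 36) (.ch (nat_lit 35) (.ev (nat_lit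
 52) (nat_lit 120259092480) (.ev (nat_lit 212) (nat_lit 2) (.ev (nat_lit 340) (nat_lit 32) (.ev (nat_lit 756)
 (nat_lit 2097152) (.ev (nat_lit 964) (nat_lit 256) (.ev (nat_lit 1044) (nat_lit 512) (.nd (nat_lit 1696) (.br
 (nat_lit 15) (.br (nat_lit 8) (.ch (nat_lit 3) (.ev (nat_lit 1712) (nat_lit 4456448) (.fin (nat_lit
 576517377047872051)))) (.ch (nat_lit 8) (.ev (nat_lit 1712) (nat_lit 8594128912) (.ev (nat_lit 1725) (nat_lit
 262144) .dd)))) (.br (nat_lit 16) (.ch (nat_lit 15) (.ev (nat_lit 1712) (nat_lit 262160) (.ev (nat_lit 1828)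
 (nat_lit 8589934592) (.ev (nat_lit 1837) (nat_lit 4194304) .dd)))) (.br (nat_lit 18) (.ch (nat_lit 16) (.ev
 (nat_lit 1712) (nat_lit 8594391056) .dd)) (.ch (nat_lit 18) (.ev (nat_lit 1712) (nat_lit 8589934608) (.nd
 (nat_lit 1904) (.br (nat_lit 16) (.ch (nat_lit 14) (.ev (nat_lit 1920) (nat_lit 4456448) .dd)) (.ch (nat_lit
 16) (.fin (nat_lit 576541566431609533)))))))))))))))))) (.ch (nat_lit 36) (.ev (nat_lit 52) (nat_lit
 17184071728) (.ev (nat_lit 180) (nat_lit 8589934592) (.ev (nat_lit 212) (nat_lit 512) (.ev (nat_lit 500)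
 (nat_lit 68719476736) (.ev (nat_lit 532) (nat_lit 262400) (.nd (nat_lit 1696) (.br (nat_lit 6) (.br (nat_lit
 4) (.ch (nat_lit 3) (.ev (nat_lit 1712) (nat_lit 34359738368) (.nd (nat_lit 1904) (.br (nat_lit 12) (.ch
 (nat_lit 11) (.fin (nat_lit 576440411456225893))) (.ch (nat_lit 12) (.ev (nat_lit 1920) (nat_lit 2097154)
 .dd)))))) (.ch (nat_lit 4) (.ev (nat_lit 1712) (nat_lit 34361835522) .dd))) (.br (nat_lit 9) (.ch (nat_lit 6)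
 (.ev (nat_lit 1712) (nat_lit 2097154) (.ev (nat_lit 1725) (nat_lit 34359738368) .dd))) (.br (nat_lit 10) (.ch
 (nat_lit 9) (.ev (nat_lit 1712) (nat_lit 2097152) (.ev (nat_lit 1732) (nat_lit 34359738368) (.ev (nat_lit
 1741) (nat_lit 2) .dd)))) (.ch (nat_lit 10) (.ev (nat_lit 1712) (nat_lit 34361835522) .dd)))))))))))))))))))

/-- The trie. -/
noncomputable def T : Tr := .nd (nat_lit 1000000) (.br (nat_lit 7) (.br (nat_lit 2) (.br (nat_lit 1) (.ch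
 (nat_lit 0) (.ev (nat_lit 0) (nat_lit 8796093022207) .dd)) (.ch (nat_lit 1) T1)) (.br (nat_lit 3) (.ch
 (nat_lit 2) T2) (.br (nat_lit 4) (.ch (nat_lit 3) (.ev (nat_lit 0) (nat_lit 8796093022207) .dd)) (.ch (nat_lit
 4) (.ev (nat_lit 0) (nat_lit 8796093022207) .dd))))) (.br (nat_lit 9) (.br (nat_lit 8) (.ch (nat_lit 7) (.ev
 (nat_lit 0) (nat_lit 8796093022207) .dd)) (.ch (nat_lit 8) T8)) (.br (nat_lit 14) (.ch (nat_lit 9) (.ev
 (nat_lit 0) (nat_lit 8796093022207) .dd)) (.br (nat_lit 18) (.ch (nat_lit 14) (.ev (nat_lit 0) (nat_lit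
 8796093022207) .dd)) (.ch (nat_lit 18) (.ev (nat_lit 0) (nat_lit 8796093022207) .dd))))))

/-- The possible values. -/
noncomputable def oks : List ℕ := [7, 85, 234, 29869]

/-- The parameters. -/
noncomputable def S : Pr := ⟨fun i l e => lget mz (lget [] (lget [] tabs i) l) e, oks, [(nat_lit 0), (nat_lit
 1), (nat_lit 0), (nat_lit 0)], T, (nat_lit 8796093022207), (nat_lit 3303796230157), (nat_lit 43), [(nat_lit
 279193), (nat_lit 23899161165)], [(nat_lit 6859), (nat_lit 1369)]⟩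

/-- Nothing known. -/
noncomputable def cs0 : Cs := (.cons (nat_lit 19) (nat_lit 0) (nat_lit 1) (.cons (nat_lit 37) (nat_lit 0) (nat_lit 1) .nil))

theorem part_1 : part S cs0 (nat_lit 1) = true := by decide +kernel

theorem part_2 : part S cs0 (nat_lit 2) = true := by decide +kernel

theorem part_8 : part S cs0 (nat_lit 8) = true := by decide +kernel

/-- Data of a prime. -/
noncomputable def D0 : PD := ⟨(nat_lit 19), (nat_lit 3), (2737, 3, 5), (2233, 2359, 280), (4154, 6154, 3804)⟩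

theorem D0_ok : D0.Ok := pdb_sound (s := 9) (C := ⟨⟨21, 6, -28, 11, 14, 17, -4, 7, -1⟩, (2, 11, 15)⟩) (by show Nat.Prime 19; norm_num) (by decide +kernel)

/-- Lines of the first type. -/
noncomputable def Cl0 : List C1 := [⟨⟨11, 14, -28, 21, 6, 7, 4, -7, -5⟩, (12, 16, 13)⟩,
  ⟨⟨0, 0, 0, 0, 0, 0, 0, 0, 0⟩, (0, 0, 0)⟩,
  ⟨⟨0, 0, 0, 0, 0, 0, 0, 0, 0⟩, (0, 0, 0)⟩,
  ⟨⟨9, 6, -32, 1, 26, 7, 8, -1, -1⟩, (8, 3, 5)⟩,
  ⟨⟨-9, -6, -23, -1, -26, 8, 8, -1, -7⟩, (13, 12, 18)⟩,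
  ⟨⟨0, 0, 0, 0, 0, 0, 0, 0, 0⟩, (0, 0, 0)⟩,
  ⟨⟨0, 0, 0, 0, 0, 0, 0, 0, 0⟩, (0, 0, 0)⟩,
  ⟨⟨9, -6, -32, 1, -26, 7, 8, 1, -1⟩, (5, 9, 15)⟩,
  ⟨⟨0, 0, 0, 0, 0, 0, 0, 0, 0⟩, (0, 0, 0)⟩,
  ⟨⟨21, -6, -28, 11, -14, 17, -4, -7, -1⟩, (16, 12, 6)⟩,
  ⟨⟨0, 0, 0, 0, 0, 0, 0, 0, 0⟩, (0, 0, 0)⟩,
  ⟨⟨0, 0, 0, 0, 0, 0, 0, 0, 0⟩, (0, 0, 0)⟩,
  ⟨⟨0, 0, 0, 0, 0, 0, 0, 0, 0⟩, (0, 0, 0)⟩,
  ⟨⟨0, 0, 0, 0, 0, 0, 0, 0, 0⟩, (0, 0, 0)⟩,
  ⟨⟨11, -14, -28, 21, -6, 7, 4, 7, -5⟩, (5, 13, 7)⟩,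
  ⟨⟨0, 0, 0, 0, 0, 0, 0, 0, 0⟩, (0, 0, 0)⟩,
  ⟨⟨0, 0, 0, 0, 0, 0, 0, 0, 0⟩, (0, 0, 0)⟩,
  ⟨⟨0, 0, 0, 0, 0, 0, 0, 0, 0⟩, (0, 0, 0)⟩,
  ⟨⟨-9, 6, -23, -1, 26, 8, 8, 1, -7⟩, (16, 6, 9)⟩]

/-- Data of a prime. -/
noncomputable def D1 : PD := ⟨(nat_lit 37), (nat_lit 2), (556, 16, 5), (1239, 947, 1101), (730, 506, 467)⟩

theorem D1_ok : D1.Ok := pdb_sound (s := 2) (C := ⟨⟨43, 22, -44, 23, -2, 41, 6, -15, -7⟩, (6, 23, 6)⟩) (by show Nat.Prime 37; norm_num) (by decide +kernel)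

/-- Lines of the first type. -/
noncomputable def Cl1 : List C1 := [⟨⟨23, -2, -64, 43, 22, 1, -6, 15, -1⟩, (31, 29, 8)⟩,
  ⟨⟨0, 0, 0, 0, 0, 0, 0, 0, 0⟩, (0, 0, 0)⟩,
  ⟨⟨-7, 22, -49, 27, 42, 4, 14, -7, -13⟩, (1, 12, 35)⟩,
  ⟨⟨-13, 38, -31, -47, -22, 16, 6, -9, -17⟩, (20, 4, 5)⟩,
  ⟨⟨0, 0, 0, 0, 0, 0, 0, 0, 0⟩, (0, 0, 0)⟩,
  ⟨⟨0, 0, 0, 0, 0, 0, 0, 0, 0⟩, (0, 0, 0)⟩,
  ⟨⟨7, 22, -56, -27, 42, 31, 14, 7, -1⟩, (18, 31, 36)⟩,
  ⟨⟨0, 0, 0, 0, 0, 0, 0, 0, 0⟩, (0, 0, 0)⟩,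
  ⟨⟨0, 0, 0, 0, 0, 0, 0, 0, 0⟩, (0, 0, 0)⟩,
  ⟨⟨13, -38, -44, -47, -22, 31, -6, 9, -11⟩, (18, 26, 23)⟩,
  ⟨⟨0, 0, 0, 0, 0, 0, 0, 0, 0⟩, (0, 0, 0)⟩,
  ⟨⟨0, 0, 0, 0, 0, 0, 0, 0, 0⟩, (0, 0, 0)⟩,
  ⟨⟨0, 0, 0, 0, 0, 0, 0, 0, 0⟩, (0, 0, 0)⟩,
  ⟨⟨0, 0, 0, 0, 0, 0, 0, 0, 0⟩, (0, 0, 0)⟩,
  ⟨⟨13, 38, -44, -47, 22, 31, -6, -9, -11⟩, (4, 14, 1)⟩,
  ⟨⟨0, 0, 0, 0, 0, 0, 0, 0, 0⟩, (0, 0, 0)⟩,
  ⟨⟨0, 0, 0, 0, 0, 0, 0, 0, 0⟩, (0, 0, 0)⟩,
  ⟨⟨0, 0, 0, 0, 0, 0, 0, 0, 0⟩, (0, 0, 0)⟩,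
  ⟨⟨0, 0, 0, 0, 0, 0, 0, 0, 0⟩, (0, 0, 0)⟩,
  ⟨⟨0, 0, 0, 0, 0, 0, 0, 0, 0⟩, (0, 0, 0)⟩,
  ⟨⟨0, 0, 0, 0, 0, 0, 0, 0, 0⟩, (0, 0, 0)⟩,
  ⟨⟨0, 0, 0, 0, 0, 0, 0, 0, 0⟩, (0, 0, 0)⟩,
  ⟨⟨0, 0, 0, 0, 0, 0, 0, 0, 0⟩, (0, 0, 0)⟩,
  ⟨⟨-7, -22, -49, 27, -42, 4, 14, 7, -13⟩, (13, 8, 11)⟩,
  ⟨⟨0, 0, 0, 0, 0, 0, 0, 0, 0⟩, (0, 0, 0)⟩,
  ⟨⟨0, 0, 0, 0, 0, 0, 0, 0, 0⟩, (0, 0, 0)⟩,
  ⟨⟨0, 0, 0, 0, 0, 0, 0, 0, 0⟩, (0, 0, 0)⟩,
  ⟨⟨0, 0, 0, 0, 0, 0, 0, 0, 0⟩, (0, 0, 0)⟩,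
  ⟨⟨23, 2, -64, 43, -22, 1, -6, -15, -1⟩, (3, 4, 33)⟩,
  ⟨⟨0, 0, 0, 0, 0, 0, 0, 0, 0⟩, (0, 0, 0)⟩,
  ⟨⟨0, 0, 0, 0, 0, 0, 0, 0, 0⟩, (0, 0, 0)⟩,
  ⟨⟨-13, -38, -31, -47, 22, 16, 6, 9, -17⟩, (34, 29, 27)⟩,
  ⟨⟨7, -22, -56, -27, -42, 31, 14, -7, -1⟩, (30, 27, 23)⟩,
  ⟨⟨0, 0, 0, 0, 0, 0, 0, 0, 0⟩, (0, 0, 0)⟩,
  ⟨⟨43, -22, -44, 23, 2, 41, 6, 15, -7⟩, (12, 9, 12)⟩,
  ⟨⟨0, 0, 0, 0, 0, 0, 0, 0, 0⟩, (0, 0, 0)⟩,
  ⟨⟨0, 0, 0, 0, 0, 0, 0, 0, 0⟩, (0, 0, 0)⟩]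

/-- Data of a prime. -/
noncomputable def Dm : PD := ⟨(nat_lit 43), (nat_lit 2), (989, 1, 17), (1652, 774, 636), (172, 5, 130)⟩

theorem Dm_ok : Dm.Ok := pdb_sound (s := 1) (C := ⟨⟨43, -38, -44, 43, 38, 1, 0, 9, -19⟩, (5, 38, 9)⟩) (by show Nat.Prime 43; norm_num) (by decide +kernel)

/-- Lines of the first type. -/
noncomputable def Clm : List C1 := [⟨⟨43, 38, -44, 43, -38, 1, 0, -9, -19⟩, (42, 1, 24)⟩,
  ⟨⟨0, 0, 0, 0, 0, 0, 0, 0, 0⟩, (0, 0, 0)⟩,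
  ⟨⟨57, -18, -16, -17, -58, 1, 4, 1, -23⟩, (41, 27, 24)⟩,
  ⟨⟨7, -38, -56, -33, -42, 49, -16, 7, -1⟩, (28, 40, 22)⟩,
  ⟨⟨0, 0, 0, 0, 0, 0, 0, 0, 0⟩, (0, 0, 0)⟩,
  ⟨⟨0, 0, 0, 0, 0, 0, 0, 0, 0⟩, (0, 0, 0)⟩,
  ⟨⟨0, 0, 0, 0, 0, 0, 0, 0, 0⟩, (0, 0, 0)⟩,
  ⟨⟨0, 0, 0, 0, 0, 0, 0, 0, 0⟩, (0, 0, 0)⟩,
  ⟨⟨0, 0, 0, 0, 0, 0, 0, 0, 0⟩, (0, 0, 0)⟩,
  ⟨⟨0, 0, 0, 0, 0, 0, 0, 0, 0⟩, (0, 0, 0)⟩,
  ⟨⟨0, 0, 0, 0, 0, 0, 0, 0, 0⟩, (0, 0, 0)⟩,
  ⟨⟨27, -18, -71, -53, -22, 4, -4, 17, -7⟩, (6, 36, 23)⟩,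
  ⟨⟨0, 0, 0, 0, 0, 0, 0, 0, 0⟩, (0, 0, 0)⟩,
  ⟨⟨0, 0, 0, 0, 0, 0, 0, 0, 0⟩, (0, 0, 0)⟩,
  ⟨⟨-7, -2, -64, -47, -38, 31, 12, -15, -7⟩, (37, 15, 41)⟩,
  ⟨⟨-7, 2, -64, -47, 38, 31, 12, 15, -7⟩, (3, 14, 1)⟩,
  ⟨⟨-7, 38, -49, 33, 42, 16, 16, -7, -17⟩, (27, 14, 12)⟩,
  ⟨⟨0, 0, 0, 0, 0, 0, 0, 0, 0⟩, (0, 0, 0)⟩,
  ⟨⟨0, 0, 0, 0, 0, 0, 0, 0, 0⟩, (0, 0, 0)⟩,
  ⟨⟨57, 18, -16, -17, 58, 1, 4, -1, -23⟩, (36, 30, 41)⟩,
  ⟨⟨53, 22, -49, 27, -18, 44, 4, -17, -11⟩, (6, 42, 11)⟩,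
  ⟨⟨0, 0, 0, 0, 0, 0, 0, 0, 0⟩, (0, 0, 0)⟩,
  ⟨⟨0, 0, 0, 0, 0, 0, 0, 0, 0⟩, (0, 0, 0)⟩,
  ⟨⟨27, 18, -71, -53, 22, 4, -4, -17, -7⟩, (1, 6, 11)⟩,
  ⟨⟨57, -18, -41, -17, -58, 16, -4, -1, -19⟩, (7, 13, 41)⟩,
  ⟨⟨0, 0, 0, 0, 0, 0, 0, 0, 0⟩, (0, 0, 0)⟩,
  ⟨⟨0, 0, 0, 0, 0, 0, 0, 0, 0⟩, (0, 0, 0)⟩,
  ⟨⟨7, 38, -56, -33, 42, 49, -16, -7, -1⟩, (27, 14, 12)⟩,
  ⟨⟨7, 2, -71, -47, -38, 16, 12, -15, -5⟩, (3, 29, 42)⟩,
  ⟨⟨7, -2, -71, -47, 38, 16, 12, 15, -5⟩, (37, 28, 2)⟩,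
  ⟨⟨0, 0, 0, 0, 0, 0, 0, 0, 0⟩, (0, 0, 0)⟩,
  ⟨⟨0, 0, 0, 0, 0, 0, 0, 0, 0⟩, (0, 0, 0)⟩,
  ⟨⟨53, -22, -49, 27, 18, 44, 4, 17, -11⟩, (36, 37, 23)⟩,
  ⟨⟨0, 0, 0, 0, 0, 0, 0, 0, 0⟩, (0, 0, 0)⟩,
  ⟨⟨0, 0, 0, 0, 0, 0, 0, 0, 0⟩, (0, 0, 0)⟩,
  ⟨⟨0, 0, 0, 0, 0, 0, 0, 0, 0⟩, (0, 0, 0)⟩,
  ⟨⟨0, 0, 0, 0, 0, 0, 0, 0, 0⟩, (0, 0, 0)⟩,
  ⟨⟨0, 0, 0, 0, 0, 0, 0, 0, 0⟩, (0, 0, 0)⟩,
  ⟨⟨0, 0, 0, 0, 0, 0, 0, 0, 0⟩, (0, 0, 0)⟩,
  ⟨⟨0, 0, 0, 0, 0, 0, 0, 0, 0⟩, (0, 0, 0)⟩,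
  ⟨⟨-7, -38, -49, 33, -42, 16, 16, 7, -17⟩, (28, 40, 22)⟩,
  ⟨⟨57, 18, -41, -17, 58, 16, -4, 1, -19⟩, (2, 16, 24)⟩,
  ⟨⟨0, 0, 0, 0, 0, 0, 0, 0, 0⟩, (0, 0, 0)⟩]

/-- Unit moves. -/
noncomputable def U : List Mv := [mz,
  mz,
  mz,
  mz,
  mz,
  ⟨⟨-1, 0, 1, 0, 1, 0, 0, 0, 1⟩, .nil, (nat_lit 18), (nat_lit 9), (nat_lit 4), (nat_lit 1), (0, 0, 0), [], 18⟩,
  ⟨⟨-1, 0, 1, 0, -1, 0, 0, 0, 1⟩, .nil, (nat_lit 0), (nat_lit 12), (nat_lit 1), (nat_lit 0), (0, 0, 0), [], 7⟩,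
  mz,
  mz,
  mz,
  ⟨⟨1, 0, 0, 0, -1, 0, 0, 0, 1⟩, .nil, (nat_lit 18), (nat_lit 14), (nat_lit 2), (nat_lit 1), (0, 0, 0), [], 10⟩,
  ⟨⟨-1, 0, 1, 0, -1, 0, 0, 0, 1⟩, .nil, (nat_lit 0), (nat_lit 12), (nat_lit 1), (nat_lit 0), (0, 0, 0), [], 7⟩,
  ⟨⟨-1, 0, 1, 0, -1, 0, 0, 0, 1⟩, .nil, (nat_lit 0), (nat_lit 12), (nat_lit 1), (nat_lit 0), (0, 0, 0), [], 7⟩,
  ⟨⟨-1, 0, 1, 0, 1, 0, 0, 0, 1⟩, .nil, (nat_lit 18), (nat_lit 9), (nat_lit 4), (nat_lit 1), (0, 0, 0), [], 18⟩,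
  mz,
  ⟨⟨-1, 0, 1, 0, 1, 0, 0, 0, 1⟩, .nil, (nat_lit 18), (nat_lit 9), (nat_lit 4), (nat_lit 1), (0, 0, 0), [], 18⟩,
  ⟨⟨1, 0, 0, 0, -1, 0, 0, 0, 1⟩, .nil, (nat_lit 18), (nat_lit 14), (nat_lit 2), (nat_lit 1), (0, 0, 0), [], 10⟩,
  ⟨⟨1, 0, 0, 0, -1, 0, 0, 0, 1⟩, .nil, (nat_lit 18), (nat_lit 14), (nat_lit 2), (nat_lit 1), (0, 0, 0), [], 10⟩,
  mz]

theorem v_ty : tyb Dm S.ty1 Clm = true := by decide +kernel

theorem v_ty0 : tyb D0 (S.tys.getD 0 0) Cl0 = true := by decide +kernel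

theorem v_ty1 : tyb D1 (S.tys.getD 1 0) Cl1 = true := by decide +kernel

theorem v_msc : mscb S D0 [D1] Dm (nat_lit 262) = true := by decide +kernel

theorem v_mv0 : mvsn (nat_lit 17362056379) S D0 [D1] Dm (nat_lit 262) 0 D0 = true := by decide +kernel

theorem v_mv1 : mvsn (nat_lit 17362056379) S D0 [D1] Dm (nat_lit 262) 1 D1 = true := by decide +kernel

theorem v_mm : mmsn (nat_lit 17362056379) S D0 [D1] Dm (nat_lit 262) = true := by decide +kernel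

theorem v_un : unb S D0 (nat_lit 262) U = true := by decide +kernel

theorem v_ok : okb S.oks [(0, 0, 0), (2, 9, 0), (0, 0, 0), (90, 147, 4)] = true := by decide +kernel

theorem v_part : ∀ d < D0.p, (nat_lit 262).testBit d = true → part S (zc (D0 :: [D1])) d = true := by
  intro d hd h
  have h1 : ∀ d < 19, (nat_lit 262).testBit d = true → d = 1 ∨ d = 2 ∨ d = 8 := by decide
  rcases h1 d hd h with rfl | rfl | rfl
  · exact part_1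
  · exact part_2
  · exact part_8

theorem main (n : ℕ) (ho : Odd n) (hr : ¬ Rep n) (h0 : Split 19 n) (h1 : Split 37 n) (hm : Split 43 n) :
    n ∈ EE := by
  refine concln (W := nat_lit 17362056379) (S := S) (P0 := D0) (Pl := [D1]) (Pm := Dm) (cn := nat_lit 262) ?_ Dm_ok v_ty ?_ ?_ v_msc ?_ v_mm v_un v_part v_ok
    n ho hr ?_ hm
  · simp only [List.forall_mem_cons]
    exact ⟨D0_ok, D1_ok, fun _ h => absurd h (by simp)⟩
  · exact all2 (φ := fun j P => ∃ L, tyb P (S.tys.getD j 0) L = true) ⟨_, v_ty0⟩ ⟨_, v_ty1⟩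
  · exact all2 (φ := fun j P => Nat.ble (S.pks.getD j 0) (Nat.pow P.p P.K) = true) (by decide +kernel) (by decide +kernel)
  · exact all2 (φ := fun i P => mvsn (nat_lit 17362056379) S D0 [D1] Dm (nat_lit 262) i P = true) v_mv0 v_mv1
  · simp only [List.forall_mem_cons]
    exact ⟨h0, h1, fun _ h => absurd h (by simp)⟩

end Pool.Agent.Work.MP_9954fe_nt.P19_37_43

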