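import Pool.Agent.Work.MP_9954fe_nt.Fast

/-!
Certificates for the sets {11, 13}, {11, 17}, {11, 43, 71}, {11, 53, 71}, {13, 31, 47}, {13, 53, 71}, {19, 37, 47} of split primes.
-/

set_option autoImplicit false
set_option linter.all false
set_option maxRecDepth 100000

namespace Pool.Agent.Work.MP_9954fe_nt.P11_13

/-- Dummy move. -/
noncomputable def mz : Mv := ⟨⟨0, 0, 0, 0, 0, 0, 0, 0, 0⟩, .nil, (nat_lit 0), (nat_lit 0), (nat_lit 0), (nat_lit 0), (0, 0, 0), [], 0⟩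

/-- Moves. -/
noncomputable def t0_1 : List Mv := [
  ⟨⟨3, 8, -11, -10, -1, 0, 4, -4, -11⟩, (.cons (nat_lit 190627356) (nat_lit 45256707) (nat_lit 60772611) (nat_lit 1) .nil), (nat_lit 4), (nat_lit 4), (nat_lit 0), (nat_lit 1), (4, 5, 9), [209703232], 8⟩,
  ⟨⟨3, 8, -11, 10, 1, 0, 4, -4, -11⟩, (.cons (nat_lit 142600801) (nat_lit 192447588) (nat_lit 142600814) (nat_lit 1) .nil), (nat_lit 10), (nat_lit 9), (nat_lit 10), (nat_lit 1), (4, 6, 9), [1], 4⟩,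
  ⟨⟨1, -12, 0, 10, 1, 0, 4, -4, -11⟩, (.cons (nat_lit 52461243) (nat_lit 135666999) (nat_lit 135667000) (nat_lit 1) .nil), (nat_lit 0), (nat_lit 4), (nat_lit 1), (nat_lit 1), (5, 6, 9), [160046820], 5⟩,
  ⟨⟨1, -12, 0, -10, -1, 0, 4, -4, -11⟩, (.cons (nat_lit 166646686) (nat_lit 155461000) (nat_lit 166646697) (nat_lit 1) .nil), (nat_lit 12), (nat_lit 9), (nat_lit 4), (nat_lit 1), (5, 5, 9), [170348203], 9⟩,
  ⟨⟨1, -12, 0, -10, -1, 0, 4, -4, -11⟩, (.cons (nat_lit 166646686) (nat_lit 155461000) (nat_lit 166646697) (nat_lit 1) .nil), (nat_lit 12), (nat_lit 9), (nat_lit 4), (nat_lit 1), (5, 5, 9), [170348203], 9⟩,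
  ⟨⟨1, -12, 0, 10, 1, 0, 4, -4, -11⟩, (.cons (nat_lit 52461243) (nat_lit 135666999) (nat_lit 135667000) (nat_lit 1) .nil), (nat_lit 0), (nat_lit 4), (nat_lit 1), (nat_lit 1), (5, 6, 9), [160046820], 5⟩,
  ⟨⟨1, -12, 0, -10, -1, 0, 4, -4, -11⟩, (.cons (nat_lit 166646686) (nat_lit 155461000) (nat_lit 166646697) (nat_lit 1) .nil), (nat_lit 12), (nat_lit 9), (nat_lit 4), (nat_lit 1), (5, 5, 9), [170348203], 9⟩,
  ⟨⟨3, 8, -11, 10, 1, 0, 4, -4, -11⟩, (.cons (nat_lit 142600801) (nat_lit 192447588) (nat_lit 142600814) (nat_lit 1) .nil), (nat_lit 10), (nat_lit 9), (nat_lit 10), (nat_lit 1), (4, 6, 9), [1], 4⟩,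
  ⟨⟨1, -12, 0, -10, -1, 0, 4, -4, -11⟩, (.cons (nat_lit 166646686) (nat_lit 155461000) (nat_lit 166646697) (nat_lit 1) .nil), (nat_lit 12), (nat_lit 9), (nat_lit 4), (nat_lit 1), (5, 5, 9), [170348203], 9⟩,
  ⟨⟨3, 8, -11, -10, -1, 0, 4, -4, -11⟩, (.cons (nat_lit 190627356) (nat_lit 45256707) (nat_lit 60772611) (nat_lit 1) .nil), (nat_lit 4), (nat_lit 4), (nat_lit 0), (nat_lit 1), (4, 5, 9), [209703232], 8⟩,
  ⟨⟨1, -12, 0, -10, -1, 0, 4, -4, -11⟩, (.cons (nat_lit 166646686) (nat_lit 155461000) (nat_lit 166646697) (nat_lit 1) .nil), (nat_lit 12), (nat_lit 9), (nat_lit 4), (nat_lit 1), (5, 5, 9), [170348203], 9⟩]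

/-- Moves. -/
noncomputable def t0_4 : List Mv := [
  ⟨⟨-11, 0, 0, -4, 5, 12, -2, 8, -5⟩, (.cons (nat_lit 141021348) (nat_lit 116108829) (nat_lit 88845060) (nat_lit 1) .nil), (nat_lit 12), (nat_lit 6), (nat_lit 6), (nat_lit 1), (0, 5, 8), [13330250], 9⟩,
  ⟨⟨9, 8, -5, 4, -5, -12, -2, 8, -5⟩, (.cons (nat_lit 142996434) (nat_lit 103416704) (nat_lit 18545247) (nat_lit 1) .nil), (nat_lit 3), (nat_lit 7), (nat_lit 2), (nat_lit 1), (8, 6, 8), [23996836], 9⟩,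
  ⟨⟨9, 8, -5, 4, -5, -12, -2, 8, -5⟩, (.cons (nat_lit 142996434) (nat_lit 103416704) (nat_lit 18545247) (nat_lit 1) .nil), (nat_lit 3), (nat_lit 7), (nat_lit 2), (nat_lit 1), (8, 6, 8), [23996836], 9⟩,
  ⟨⟨9, 8, -5, 4, -5, -12, -2, 8, -5⟩, (.cons (nat_lit 142996434) (nat_lit 103416704) (nat_lit 18545247) (nat_lit 1) .nil), (nat_lit 3), (nat_lit 7), (nat_lit 2), (nat_lit 1), (8, 6, 8), [23996836], 9⟩,
  ⟨⟨9, 8, -5, -4, 5, 12, -2, 8, -5⟩, (.cons (nat_lit 38891884) (nat_lit 147925956) (nat_lit 122565851) (nat_lit 1) .nil), (nat_lit 6), (nat_lit 5), (nat_lit 11), (nat_lit 1), (8, 5, 8), [135521676], 6⟩,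
  ⟨⟨-11, 0, 0, 4, -5, -12, -2, 8, -5⟩, (.cons (nat_lit 170754840) (nat_lit 60399397) (nat_lit 74934078) (nat_lit 1) .nil), (nat_lit 4), (nat_lit 11), (nat_lit 9), (nat_lit 1), (0, 6, 8), [184838769], 5⟩,
  ⟨⟨9, 8, -5, 4, -5, -12, -2, 8, -5⟩, (.cons (nat_lit 142996434) (nat_lit 103416704) (nat_lit 18545247) (nat_lit 1) .nil), (nat_lit 3), (nat_lit 7), (nat_lit 2), (nat_lit 1), (8, 6, 8), [23996836], 9⟩,
  ⟨⟨9, 8, -5, -4, 5, 12, -2, 8, -5⟩, (.cons (nat_lit 38891884) (nat_lit 147925956) (nat_lit 122565851) (nat_lit 1) .nil), (nat_lit 6), (nat_lit 5), (nat_lit 11), (nat_lit 1), (8, 5, 8), [135521676], 6⟩,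
  ⟨⟨-11, 0, 0, 4, -5, -12, -2, 8, -5⟩, (.cons (nat_lit 170754840) (nat_lit 60399397) (nat_lit 74934078) (nat_lit 1) .nil), (nat_lit 4), (nat_lit 11), (nat_lit 9), (nat_lit 1), (0, 6, 8), [184838769], 5⟩,
  ⟨⟨9, 8, -5, 4, -5, -12, -2, 8, -5⟩, (.cons (nat_lit 142996434) (nat_lit 103416704) (nat_lit 18545247) (nat_lit 1) .nil), (nat_lit 3), (nat_lit 7), (nat_lit 2), (nat_lit 1), (8, 6, 8), [23996836], 9⟩,
  ⟨⟨9, 8, -5, 4, -5, -12, -2, 8, -5⟩, (.cons (nat_lit 142996434) (nat_lit 103416704) (nat_lit 18545247) (nat_lit 1) .nil), (nat_lit 3), (nat_lit 7), (nat_lit 2), (nat_lit 1), (8, 6, 8), [23996836], 9⟩]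

/-- Moves. -/
noncomputable def t4_1 : List Mv := [
  mz,
  mz,
  ⟨⟨9, 4, -16, 8, 5, 6, 8, -8, -7⟩, (.cons (nat_lit 53862904) (nat_lit 162868293) (nat_lit 1) (nat_lit 60802423) .nil), (nat_lit 8), (nat_lit 0), (nat_lit 0), (nat_lit 0), (6, 1, 1), [95463039], 0⟩,
  mz,
  ⟨⟨-5, -12, -4, -12, 5, 6, 0, 0, -13⟩, (.cons (nat_lit 214358880) (nat_lit 93855985) (nat_lit 44506467) (nat_lit 1) .nil), (nat_lit 4), (nat_lit 0), (nat_lit 0), (nat_lit 0), (1, 5, 0), [92132371], 0⟩,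
  ⟨⟨-7, -12, 0, 10, -7, 0, 2, -4, -13⟩, (.cons (nat_lit 71147850) (nat_lit 71452972) (nat_lit 1) (nat_lit 305107) .nil), (nat_lit 7), (nat_lit 0), (nat_lit 0), (nat_lit 0), (10, 8, 12), [130997047], 0⟩,
  ⟨⟨7, -12, -7, 10, 7, -10, -2, -4, -11⟩, (.cons (nat_lit 207496305) (nat_lit 98699854) (nat_lit 207132632) (nat_lit 1) .nil), (nat_lit 5), (nat_lit 0), (nat_lit 0), (nat_lit 0), (11, 12, 8), [145307471], 0⟩,
  ⟨⟨-7, 12, 0, -10, -7, 0, 2, 4, -13⟩, (.cons (nat_lit 73984680) (nat_lit 151766943) (nat_lit 172246621) (nat_lit 1) .nil), (nat_lit 5), (nat_lit 0), (nat_lit 0), (nat_lit 0), (11, 12, 8), [45485650], 0⟩,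
  ⟨⟨-1, -12, -8, -8, -5, 14, 8, -8, -1⟩, (.cons (nat_lit 39157767) (nat_lit 55909440) (nat_lit 70685750) (nat_lit 1) .nil), (nat_lit 2), (nat_lit 0), (nat_lit 0), (nat_lit 0), (2, 3, 10), [137571678], 0⟩,
  ⟨⟨5, -12, -9, 12, 5, -6, 0, 0, -13⟩, (.cons (nat_lit 11705629) (nat_lit 199604674) (nat_lit 138930868) (nat_lit 1) .nil), (nat_lit 4), (nat_lit 0), (nat_lit 0), (nat_lit 0), (11, 3, 0), [213453701], 0⟩,
  ⟨⟨9, -4, 7, 8, -5, -14, 8, 8, -1⟩, (.cons (nat_lit 45634868) (nat_lit 208456300) (nat_lit 213374262) (nat_lit 1) .nil), (nat_lit 8), (nat_lit 0), (nat_lit 0), (nat_lit 0), (12, 2, 2), [210229237], 0⟩,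
  ⟨⟨-9, -8, -4, -10, 7, 10, -2, 4, -11⟩, (.cons (nat_lit 214358880) (nat_lit 82167083) (nat_lit 144875424) (nat_lit 1) .nil), (nat_lit 11), (nat_lit 0), (nat_lit 0), (nat_lit 0), (5, 7, 4), [105212846], 0⟩,
  ⟨⟨-1, 12, 9, -8, 5, -6, 8, 8, -7⟩, (.cons (nat_lit 203487331) (nat_lit 190429781) (nat_lit 64697637) (nat_lit 1) .nil), (nat_lit 2), (nat_lit 0), (nat_lit 0), (nat_lit 0), (9, 7, 6), [3933189], 0⟩]

/-- Moves. -/
noncomputable def t4_4 : List Mv := [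
  mz,
  mz,
  ⟨⟨-1, -12, 9, -8, -5, -6, 8, -8, -7⟩, (.cons (nat_lit 214358880) (nat_lit 68854720) (nat_lit 174040061) (nat_lit 1) .nil), (nat_lit 2), (nat_lit 0), (nat_lit 0), (nat_lit 0), (8, 12, 1), [42900009], 0⟩,
  mz,
  ⟨⟨-5, -12, -4, -12, 5, 6, 0, 0, -13⟩, (.cons (nat_lit 214358880) (nat_lit 93855985) (nat_lit 44506467) (nat_lit 1) .nil), (nat_lit 4), (nat_lit 0), (nat_lit 0), (nat_lit 0), (1, 5, 0), [92132371], 0⟩,
  ⟨⟨9, 8, -13, -10, 7, 0, 2, -4, -13⟩, (.cons (nat_lit 167052235) (nat_lit 123895233) (nat_lit 79559420) (nat_lit 1) .nil), (nat_lit 6), (nat_lit 0), (nat_lit 0), (nat_lit 0), (2, 5, 12), [187824520], 0⟩,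
  ⟨⟨-9, 8, -4, 10, 7, -10, -2, -4, -11⟩, (.cons (nat_lit 214358880) (nat_lit 112224183) (nat_lit 65397329) (nat_lit 1) .nil), (nat_lit 6), (nat_lit 0), (nat_lit 0), (nat_lit 0), (10, 12, 8), [41025606], 0⟩,
  ⟨⟨9, -8, -13, -10, -7, 0, 2, 4, -13⟩, (.cons (nat_lit 72460007) (nat_lit 121226736) (nat_lit 188691022) (nat_lit 1) .nil), (nat_lit 6), (nat_lit 0), (nat_lit 0), (nat_lit 0), (10, 12, 8), [133546606], 0⟩,
  ⟨⟨9, 4, 7, -8, -5, 14, 8, -8, -1⟩, (.cons (nat_lit 64840515) (nat_lit 185223289) (nat_lit 54433912) (nat_lit 1) .nil), (nat_lit 10), (nat_lit 0), (nat_lit 0), (nat_lit 0), (8, 3, 10), [118177360], 0⟩,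
  ⟨⟨5, -12, -9, -12, -5, 6, 0, 0, -13⟩, (.cons (nat_lit 149311459) (nat_lit 110827095) (nat_lit 1) (nat_lit 65047422) .nil), (nat_lit 9), (nat_lit 0), (nat_lit 0), (nat_lit 0), (11, 10, 0), [99832349], 0⟩,
  ⟨⟨-1, 12, -8, 8, -5, -14, 8, 8, -1⟩, (.cons (nat_lit 188926262) (nat_lit 91837280) (nat_lit 195587070) (nat_lit 1) .nil), (nat_lit 12), (nat_lit 0), (nat_lit 0), (nat_lit 0), (3, 2, 2), [145838613], 0⟩,
  ⟨⟨-9, -8, -4, -10, 7, 10, -2, 4, -11⟩, (.cons (nat_lit 214358880) (nat_lit 82167083) (nat_lit 144875424) (nat_lit 1) .nil), (nat_lit 11), (nat_lit 0), (nat_lit 0), (nat_lit 0), (5, 7, 4), [105212846], 0⟩,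
  ⟨⟨-1, 12, 9, 8, -5, 6, 8, 8, -7⟩, (.cons (nat_lit 214358880) (nat_lit 59045163) (nat_lit 106404521) (nat_lit 1) .nil), (nat_lit 12), (nat_lit 0), (nat_lit 0), (nat_lit 0), (9, 6, 6), [91161997], 0⟩]

/-- All the moves. -/
noncomputable def tabs : List (List (List Mv)) := [[[], t0_1, [], [], t0_4], [], [], [], [[], t4_1, [], [], t4_4]]

/-- Subtrie. -/
noncomputable def T1 : Tr := (.ev (nat_lit 20) (nat_lit 4608) (.nd (nat_lit 32) (.br (nat_lit 5) (.br (nat_lit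
 1) (.ch (nat_lit 0) (.ev (nat_lit 48) (nat_lit 2052) (.nd (nat_lit 224) (.br (nat_lit 4) (.br (nat_lit 2) (.ch
 (nat_lit 1) (.ev (nat_lit 240) (nat_lit 32) (.nd (nat_lit 416) (.br (nat_lit 3) (.br (nat_lit 1) (.ch (nat_lit
 0) (.nd (nat_lit 832) (.br (nat_lit 3) (.br (nat_lit 2) (.ch (nat_lit 1) (.ev (nat_lit 848) (nat_lit 16) (.ev
 (nat_lit 1140) (nat_lit 256) (.ev (nat_lit 2692) (nat_lit 64) (.fin (nat_lit 576648219141292553)))))) (.ch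
 (nat_lit 2) (.ev (nat_lit 848) (nat_lit 320) (.ev (nat_lit 896) (nat_lit 128) (.ev (nat_lit 2356) (nat_lit 16)
 (.ev (nat_lit 2365) (nat_lit 1024) .dd)))))) (.br (nat_lit 8) (.ch (nat_lit 3) (.ev (nat_lit 848) (nat_lit
 1152) (.ev (nat_lit 1588) (nat_lit 16) (.fin (nat_lit 576562457188188692))))) (.br (nat_lit 9) (.ch (nat_lit
 8) (.ev (nat_lit 848) (nat_lit 400) (.ev (nat_lit 964) (nat_lit 64) (.ev (nat_lit 973) (nat_lit 1024) .dd))))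
 (.ch (nat_lit 9) (.ev (nat_lit 848) (nat_lit 1024) (.ev (nat_lit 980) (nat_lit 64) (.ev (nat_lit 3572)
 (nat_lit 128) (.nd (nat_lit 4384) (.br (nat_lit 8) (.ch (nat_lit 1) (.ev (nat_lit 4400) (nat_lit 256) (.ev
 (nat_lit 4413) (nat_lit 16) .dd))) (.br (nat_lit 10) (.ch (nat_lit 8) (.ev (nat_lit 4516) (nat_lit 16) (.ev
 (nat_lit 4525) (nat_lit 256) .dd))) (.ch (nat_lit 10) (.ev (nat_lit 4400) (nat_lit 16) (.ev (nat_lit 4413)
 (nat_lit 256) .dd))))))))))))))) (.br (nat_lit 2) (.ch (nat_lit 1) (.ev (nat_lit 432) (nat_lit 16) (.ev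
 (nat_lit 756) (nat_lit 256) (.nd (nat_lit 992) (.br (nat_lit 3) (.br (nat_lit 1) (.ch (nat_lit 0) (.ev
 (nat_lit 1008) (nat_lit 1024) (.ev (nat_lit 1396) (nat_lit 128) (.ev (nat_lit 1405) (nat_lit 64) .dd)))) (.br
 (nat_lit 2) (.ch (nat_lit 1) (.ev (nat_lit 1008) (nat_lit 1024) (.ev (nat_lit 1396) (nat_lit 128) (.ev
 (nat_lit 1405) (nat_lit 64) .dd)))) (.ch (nat_lit 2) (.ev (nat_lit 1008) (nat_lit 1088) (.ev (nat_lit 1021)
 (nat_lit 128) .dd))))) (.br (nat_lit 6) (.br (nat_lit 4) (.ch (nat_lit 3) (.ev (nat_lit 1008) (nat_lit 128)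
 (.ev (nat_lit 1028) (nat_lit 64) (.ev (nat_lit 1037) (nat_lit 1024) .dd)))) (.ch (nat_lit 4) (.ev (nat_lit
 1008) (nat_lit 128) (.fin (nat_lit 576455804482699821))))) (.br (nat_lit 7) (.ch (nat_lit 6) (.ev (nat_lit
 1028) (nat_lit 1024) (.ev (nat_lit 1140) (nat_lit 64) (.ev (nat_lit 1149) (nat_lit 128) .dd)))) (.ch (nat_lit
 7) (.ev (nat_lit 1008) (nat_lit 64) (.ev (nat_lit 1860) (nat_lit 1024) (.ev (nat_lit 1869) (nat_lit 128)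
 .dd))))))))))) (.ch (nat_lit 2) (.ev (nat_lit 432) (nat_lit 400) (.nd (nat_lit 1088) (.br (nat_lit 2) (.ch
 (nat_lit 0) (.ev (nat_lit 2884) (nat_lit 1024) (.ev (nat_lit 2893) (nat_lit 64) .dd))) (.br (nat_lit 7) (.ch
 (nat_lit 2) (.nd (nat_lit 4448) (.br (nat_lit 7) (.ch (nat_lit 2) (.fin (nat_lit 576451406316651082))) (.ch
 (nat_lit 7) (.ev (nat_lit 4500) (nat_lit 1024) (.ev (nat_lit 4509) (nat_lit 64) .dd)))))) (.ch (nat_lit 7)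
 (.ev (nat_lit 1124) (nat_lit 1024) (.ev (nat_lit 1133) (nat_lit 64) .dd)))))))))) (.br (nat_lit 7) (.br
 (nat_lit 5) (.ch (nat_lit 3) (.ev (nat_lit 432) (nat_lit 384) (.nd (nat_lit 992) (.br (nat_lit 3) (.br
 (nat_lit 1) (.ch (nat_lit 0) (.ev (nat_lit 1008) (nat_lit 1024) (.ev (nat_lit 1316) (nat_lit 16) (.ev (nat_lit
 1325) (nat_lit 64) .dd)))) (.br (nat_lit 2) (.ch (nat_lit 1) (.ev (nat_lit 1008) (nat_lit 1024) (.ev (nat_lit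
 1716) (nat_lit 16) (.ev (nat_lit 1725) (nat_lit 64) .dd)))) (.ch (nat_lit 2) (.ev (nat_lit 1008) (nat_lit 64)
 (.ev (nat_lit 1028) (nat_lit 1024) (.ev (nat_lit 1037) (nat_lit 16) .dd)))))) (.br (nat_lit 5) (.ch (nat_lit
 3) (.ev (nat_lit 1008) (nat_lit 16) (.ev (nat_lit 1284) (nat_lit 64) (.ev (nat_lit 1293) (nat_lit 1024)
 .dd)))) (.br (nat_lit 9) (.ch (nat_lit 5) (.ev (nat_lit 1008) (nat_lit 64) (.ev (nat_lit 2016) (nat_lit 1024)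
 (.ev (nat_lit 2029) (nat_lit 16) .dd)))) (.ch (nat_lit 9) (.ev (nat_lit 1008) (nat_lit 16) (.ev (nat_lit 1268)
 (nat_lit 64) (.ev (nat_lit 1277) (nat_lit 1024) .dd)))))))))) (.ch (nat_lit 5) (.ev (nat_lit 432) (nat_lit
 1216) (.nd (nat_lit 1952) (.br (nat_lit 7) (.ch (nat_lit 0) (.ev (nat_lit 2052) (nat_lit 16) (.ev (nat_lit
 2061) (nat_lit 256) .dd))) (.br (nat_lit 8) (.ch (nat_lit 7) (.fin (nat_lit 576441510858801801))) (.ch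
 (nat_lit 8) (.ev (nat_lit 2052) (nat_lit 16) (.ev (nat_lit 2061) (nat_lit 256) .dd))))))))) (.br (nat_lit 8)
 (.ch (nat_lit 7) (.ev (nat_lit 432) (nat_lit 1088) (.nd (nat_lit 928) (.br (nat_lit 4) (.br (nat_lit 1) (.ch
 (nat_lit 0) (.ev (nat_lit 944) (nat_lit 272) (.ev (nat_lit 957) (nat_lit 128) .dd))) (.br (nat_lit 2) (.ch
 (nat_lit 1) (.ev (nat_lit 944) (nat_lit 384) (.ev (nat_lit 957) (nat_lit 16) .dd))) (.ch (nat_lit 2) (.ev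
 (nat_lit 1172) (nat_lit 16) (.ev (nat_lit 1268) (nat_lit 128) (.ev (nat_lit 1277) (nat_lit 256) .dd)))))) (.br
 (nat_lit 8) (.br (nat_lit 7) (.ch (nat_lit 4) (.ev (nat_lit 1268) (nat_lit 128) (.nd (nat_lit 5024) (.br
 (nat_lit 6) (.ch (nat_lit 3) (.fin (nat_lit 576412923556479482))) (.br (nat_lit 8) (.ch (nat_lit 6) (.ev
 (nat_lit 5040) (nat_lit 16) (.ev (nat_lit 5053) (nat_lit 256) .dd))) (.ch (nat_lit 8) (.ev (nat_lit 5040)
 (nat_lit 16) (.ev (nat_lit 5053) (nat_lit 256) .dd)))))))) (.ch (nat_lit 7) (.ev (nat_lit 944) (nat_lit 16)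
 (.ev (nat_lit 1268) (nat_lit 128) (.ev (nat_lit 1277) (nat_lit 256) .dd))))) (.br (nat_lit 10) (.ch (nat_lit
 8) (.ev (nat_lit 944) (nat_lit 384) (.ev (nat_lit 957) (nat_lit 16) .dd))) (.ch (nat_lit 10) (.ev (nat_lit
 1028) (nat_lit 16) (.ev (nat_lit 1460) (nat_lit 256) (.ev (nat_lit 1469) (nat_lit 128) .dd)))))))))) (.ch
 (nat_lit 8) (.ev (nat_lit 432) (nat_lit 256) (.nd (nat_lit 832) (.br (nat_lit 6) (.br (nat_lit 3) (.ch
 (nat_lit 2) (.ev (nat_lit 848) (nat_lit 16) (.ev (nat_lit 3904) (nat_lit 1024) (.fin (nat_lit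
 576475595743379985))))) (.br (nat_lit 5) (.ch (nat_lit 3) (.ev (nat_lit 848) (nat_lit 16) (.ev (nat_lit 964)
 (nat_lit 64) (.ev (nat_lit 1616) (nat_lit 128) (.ev (nat_lit 1629) (nat_lit 1024) .dd))))) (.ch (nat_lit 5)
 (.ev (nat_lit 848) (nat_lit 192) (.ev (nat_lit 2000) (nat_lit 1040) .dd))))) (.br (nat_lit 8) (.br (nat_lit 7)
 (.ch (nat_lit 6) (.ev (nat_lit 848) (nat_lit 208) (.ev (nat_lit 861) (nat_lit 1024) .dd))) (.ch (nat_lit 7)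
 (.ev (nat_lit 848) (nat_lit 1024) (.ev (nat_lit 2100) (nat_lit 128) (.ev (nat_lit 2468) (nat_lit 16) (.ev
 (nat_lit 2477) (nat_lit 64) .dd)))))) (.br (nat_lit 10) (.ch (nat_lit 8) (.ev (nat_lit 2160) (nat_lit 1024)
 (.nd (nat_lit 4768) (.br (nat_lit 10) (.ch (nat_lit 0) (.ev (nat_lit 4784) (nat_lit 64) (.ev (nat_lit 5172)
 (nat_lit 128) (.ev (nat_lit 5181) (nat_lit 16) .dd)))) (.ch (nat_lit 10) (.ev (nat_lit 4784) (nat_lit 16)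
 (.fin (nat_lit 576447008399114784)))))))) (.ch (nat_lit 10) (.ev (nat_lit 848) (nat_lit 1024) (.ev (nat_lit
 964) (nat_lit 64) (.ev (nat_lit 1060) (nat_lit 16) (.ev (nat_lit 1069) (nat_lit 128) .dd))))))))))))))))) (.br
 (nat_lit 3) (.ch (nat_lit 2) (.ev (nat_lit 240) (nat_lit 96) (.nd (nat_lit 464) (.br (nat_lit 4) (.br (nat_lit
 1) (.ch (nat_lit 0) (.ev (nat_lit 480) (nat_lit 128) (.nd (nat_lit 1360) (.br (nat_lit 8) (.br (nat_lit 2)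
 (.ch (nat_lit 0) (.ev (nat_lit 1376) (nat_lit 1024) (.ev (nat_lit 1808) (nat_lit 256) (.ev (nat_lit 1821)
 (nat_lit 16) .dd)))) (.br (nat_lit 3) (.ch (nat_lit 2) (.ev (nat_lit 1376) (nat_lit 16) (.ev (nat_lit 1396)
 (nat_lit 256) (.ev (nat_lit 1405) (nat_lit 1024) .dd)))) (.ch (nat_lit 3) (.ev (nat_lit 2544) (nat_lit 1024)
 (.ev (nat_lit 2660) (nat_lit 256) (.ev (nat_lit 2669) (nat_lit 16) .dd)))))) (.br (nat_lit 9) (.ch (nat_lit 8)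
 (.ev (nat_lit 1376) (nat_lit 1280) (.ev (nat_lit 1389) (nat_lit 16) .dd))) (.br (nat_lit 10) (.ch (nat_lit 9)
 (.ev (nat_lit 1376) (nat_lit 256) (.ev (nat_lit 3412) (nat_lit 16) (.ev (nat_lit 3421) (nat_lit 1024) .dd))))
 (.ch (nat_lit 10) (.ev (nat_lit 1376) (nat_lit 1040) (.ev (nat_lit 1389) (nat_lit 256) .dd))))))))) (.br
 (nat_lit 2) (.ch (nat_lit 1) (.ev (nat_lit 480) (nat_lit 16) (.ev (nat_lit 1332) (nat_lit 128) (.ev (nat_lit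
 2788) (nat_lit 256) (.ev (nat_lit 2797) (nat_lit 1024) .dd))))) (.ch (nat_lit 2) (.ev (nat_lit 480) (nat_lit
 1024) (.nd (nat_lit 1360) (.br (nat_lit 4) (.br (nat_lit 1) (.ch (nat_lit 0) (.ev (nat_lit 1376) (nat_lit 400)
 .dd)) (.br (nat_lit 2) (.ch (nat_lit 1) (.ev (nat_lit 1376) (nat_lit 16) (.ev (nat_lit 1396) (nat_lit 128)
 (.ev (nat_lit 1405) (nat_lit 256) .dd)))) (.ch (nat_lit 2) (.ev (nat_lit 1872) (nat_lit 16) (.fin (nat_lit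
 576479993746899542)))))) (.br (nat_lit 8) (.br (nat_lit 7) (.ch (nat_lit 4) (.ev (nat_lit 1396) (nat_lit 256)
 (.ev (nat_lit 1428) (nat_lit 128) (.ev (nat_lit 1437) (nat_lit 16) .dd)))) (.ch (nat_lit 7) (.ev (nat_lit
 1376) (nat_lit 16) (.ev (nat_lit 1396) (nat_lit 128) (.ev (nat_lit 1405) (nat_lit 256) .dd))))) (.br (nat_lit
 10) (.ch (nat_lit 8) (.ev (nat_lit 1396) (nat_lit 256) (.ev (nat_lit 2100) (nat_lit 16) (.ev (nat_lit 2109)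
 (nat_lit 128) .dd)))) (.ch (nat_lit 10) (.ev (nat_lit 1376) (nat_lit 384) (.ev (nat_lit 1389) (nat_lit 16)
 .dd))))))))))) (.br (nat_lit 7) (.br (nat_lit 6) (.ch (nat_lit 4) (.ev (nat_lit 480) (nat_lit 272) (.nd
 (nat_lit 1360) (.br (nat_lit 3) (.br (nat_lit 2) (.ch (nat_lit 1) (.ev (nat_lit 1828) (nat_lit 128) (.ev
 (nat_lit 1837) (nat_lit 1024) .dd))) (.ch (nat_lit 2) (.ev (nat_lit 1428) (nat_lit 128) (.ev (nat_lit 1437)
 (nat_lit 1024) .dd)))) (.br (nat_lit 4) (.ch (nat_lit 3) (.ev (nat_lit 1428) (nat_lit 128) (.ev (nat_lit 1437)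
 (nat_lit 1024) .dd))) (.br (nat_lit 7) (.ch (nat_lit 4) (.ev (nat_lit 1728) (nat_lit 1024) (.ev (nat_lit 1741)
 (nat_lit 128) .dd))) (.ch (nat_lit 7) (.ev (nat_lit 1684) (nat_lit 128) (.ev (nat_lit 1693) (nat_lit 1024)
 .dd))))))))) (.ch (nat_lit 6) (.ev (nat_lit 480) (nat_lit 384) (.nd (nat_lit 3664) (.br (nat_lit 6) (.ch
 (nat_lit 2) (.ev (nat_lit 4292) (nat_lit 1024) (.ev (nat_lit 4301) (nat_lit 16) .dd))) (.br (nat_lit 8) (.ch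
 (nat_lit 6) (.ev (nat_lit 3680) (nat_lit 1024) (.ev (nat_lit 3693) (nat_lit 16) .dd))) (.ch (nat_lit 8) (.ev
 (nat_lit 3680) (nat_lit 16) (.ev (nat_lit 3693) (nat_lit 1024) .dd))))))))) (.br (nat_lit 10) (.ch (nat_lit 7)
 (.ev (nat_lit 480) (nat_lit 1152) (.ev (nat_lit 564) (nat_lit 256) (.ev (nat_lit 573) (nat_lit 16) .dd))))
 (.ch (nat_lit 10) (.ev (nat_lit 480) (nat_lit 16) (.ev (nat_lit 548) (nat_lit 256) (.nd (nat_lit 3664) (.br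
 (nat_lit 6) (.ch (nat_lit 2) (.ev (nat_lit 3680) (nat_lit 1024) (.ev (nat_lit 3693) (nat_lit 128) .dd))) (.br
 (nat_lit 8) (.ch (nat_lit 6) (.ev (nat_lit 3680) (nat_lit 128) (.ev (nat_lit 3693) (nat_lit 1024) .dd))) (.ch
 (nat_lit 8) (.ev (nat_lit 3828) (nat_lit 1024) (.ev (nat_lit 3837) (nat_lit 128) .dd))))))))))))))) (.ch
 (nat_lit 3) (.ev (nat_lit 240) (nat_lit 144) (.nd (nat_lit 464) (.br (nat_lit 4) (.br (nat_lit 2) (.ch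
 (nat_lit 0) (.nd (nat_lit 1952) (.br (nat_lit 5) (.br (nat_lit 4) (.ch (nat_lit 3) (.ev (nat_lit 1968)
 (nat_lit 1024) (.ev (nat_lit 2260) (nat_lit 256) (.ev (nat_lit 2468) (nat_lit 32) (.ev (nat_lit 2477) (nat_lit
 64) .dd))))) (.ch (nat_lit 4) (.ev (nat_lit 2052) (nat_lit 1088) (.ev (nat_lit 2292) (nat_lit 256) (.ev
 (nat_lit 2301) (nat_lit 32) .dd))))) (.br (nat_lit 7) (.ch (nat_lit 5) (.ev (nat_lit 2612) (nat_lit 1024) (.ev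
 (nat_lit 3476) (nat_lit 64) (.nd (nat_lit 5712) (.br (nat_lit 4) (.ch (nat_lit 2) (.ev (nat_lit 5728) (nat_lit
 288) .dd)) (.ch (nat_lit 4) (.fin (nat_lit 576509680530440805)))))))) (.br (nat_lit 9) (.ch (nat_lit 7) (.ev
 (nat_lit 1968) (nat_lit 256) (.ev (nat_lit 2080) (nat_lit 32) (.ev (nat_lit 2452) (nat_lit 1024) (.ev (nat_lit
 2461) (nat_lit 64) .dd))))) (.ch (nat_lit 9) (.ev (nat_lit 1968) (nat_lit 1280) (.ev (nat_lit 2324) (nat_lit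
 32) (.ev (nat_lit 2333) (nat_lit 64) .dd))))))))) (.br (nat_lit 3) (.ch (nat_lit 2) (.ev (nat_lit 480)
 (nat_lit 288) (.ev (nat_lit 548) (nat_lit 64) (.ev (nat_lit 557) (nat_lit 1024) .dd)))) (.ch (nat_lit 3) (.ev
 (nat_lit 480) (nat_lit 96) (.nd (nat_lit 3664) (.br (nat_lit 2) (.ch (nat_lit 1) (.ev (nat_lit 3700) (nat_lit
 256) (.ev (nat_lit 3709) (nat_lit 1024) .dd))) (.ch (nat_lit 2) (.fin (nat_lit 576488789851456020)))))))))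
 (.br (nat_lit 9) (.br (nat_lit 6) (.ch (nat_lit 4) (.ev (nat_lit 480) (nat_lit 1024) (.ev (nat_lit 740)
 (nat_lit 256) (.nd (nat_lit 1952) (.br (nat_lit 4) (.br (nat_lit 2) (.ch (nat_lit 0) (.ev (nat_lit 2052)
 (nat_lit 64) (.ev (nat_lit 2061) (nat_lit 32) .dd))) (.ch (nat_lit 2) (.ev (nat_lit 1968) (nat_lit 32) (.ev
 (nat_lit 1981) (nat_lit 64) .dd)))) (.br (nat_lit 6) (.ch (nat_lit 4) (.ev (nat_lit 3444) (nat_lit 64) (.ev
 (nat_lit 3453) (nat_lit 32) .dd))) (.ch (nat_lit 6) (.ev (nat_lit 3268) (nat_lit 32) (.ev (nat_lit 3277)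
 (nat_lit 64) .dd))))))))) (.ch (nat_lit 6) (.ev (nat_lit 480) (nat_lit 1280) (.ev (nat_lit 548) (nat_lit 64)
 (.ev (nat_lit 557) (nat_lit 32) .dd))))) (.br (nat_lit 10) (.ch (nat_lit 9) (.ev (nat_lit 480) (nat_lit 288)
 (.nd (nat_lit 1360) (.br (nat_lit 10) (.ch (nat_lit 6) (.ev (nat_lit 2852) (nat_lit 64) (.ev (nat_lit 2861)
 (nat_lit 1024) .dd))) (.ch (nat_lit 10) (.ev (nat_lit 2852) (nat_lit 64) (.ev (nat_lit 2861) (nat_lit 1024)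
 .dd))))))) (.ch (nat_lit 10) (.ev (nat_lit 480) (nat_lit 96) (.nd (nat_lit 3664) (.br (nat_lit 10) (.ch
 (nat_lit 9) (.ev (nat_lit 4580) (nat_lit 256) (.ev (nat_lit 4589) (nat_lit 1024) .dd))) (.ch (nat_lit 10) (.ev
 (nat_lit 3700) (nat_lit 1024) (.ev (nat_lit 3709) (nat_lit 256) .dd))))))))))))))) (.br (nat_lit 7) (.br
 (nat_lit 5) (.ch (nat_lit 4) (.ev (nat_lit 240) (nat_lit 1344) (.nd (nat_lit 832) (.br (nat_lit 5) (.br
 (nat_lit 3) (.ch (nat_lit 0) (.nd (nat_lit 1360) (.br (nat_lit 6) (.br (nat_lit 3) (.ch (nat_lit 0) (.ev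
 (nat_lit 1376) (nat_lit 16) (.ev (nat_lit 1396) (nat_lit 32) (.ev (nat_lit 1405) (nat_lit 128) .dd)))) (.br
 (nat_lit 4) (.ch (nat_lit 3) (.ev (nat_lit 1376) (nat_lit 160) (.ev (nat_lit 1389) (nat_lit 16) .dd))) (.ch
 (nat_lit 4) (.ev (nat_lit 4032) (nat_lit 16) (.ev (nat_lit 5156) (nat_lit 32) (.ev (nat_lit 5165) (nat_lit
 128) .dd)))))) (.br (nat_lit 9) (.ch (nat_lit 6) (.ev (nat_lit 1376) (nat_lit 128) (.ev (nat_lit 2420)
 (nat_lit 16) (.ev (nat_lit 2429) (nat_lit 32) .dd)))) (.br (nat_lit 10) (.ch (nat_lit 9) (.ev (nat_lit 1376)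
 (nat_lit 32) (.ev (nat_lit 2852) (nat_lit 16) (.ev (nat_lit 2861) (nat_lit 128) .dd)))) (.ch (nat_lit 10) (.ev
 (nat_lit 1376) (nat_lit 128) (.ev (nat_lit 1428) (nat_lit 16) (.ev (nat_lit 1437) (nat_lit 32) .dd)))))))))
 (.br (nat_lit 4) (.ch (nat_lit 3) (.ev (nat_lit 848) (nat_lit 32) (.nd (nat_lit 3664) (.br (nat_lit 3) (.ch
 (nat_lit 2) (.ev (nat_lit 3700) (nat_lit 16) (.ev (nat_lit 3709) (nat_lit 128) .dd))) (.br (nat_lit 9) (.ch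
 (nat_lit 3) (.fin (nat_lit 576522874717160016))) (.ch (nat_lit 9) (.ev (nat_lit 3680) (nat_lit 16) (.ev
 (nat_lit 3693) (nat_lit 128) .dd)))))))) (.ch (nat_lit 4) (.ev (nat_lit 848) (nat_lit 128) (.nd (nat_lit 1232)
 (.br (nat_lit 5) (.br (nat_lit 2) (.ch (nat_lit 0) (.ev (nat_lit 1684) (nat_lit 32) (.ev (nat_lit 1693)
 (nat_lit 16) .dd))) (.br (nat_lit 4) (.ch (nat_lit 2) (.ev (nat_lit 1248) (nat_lit 32) (.ev (nat_lit 1261)
 (nat_lit 16) .dd))) (.ch (nat_lit 4) (.ev (nat_lit 1248) (nat_lit 48) .dd)))) (.br (nat_lit 8) (.ch (nat_lit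
 5) (.ev (nat_lit 1396) (nat_lit 16) (.ev (nat_lit 1405) (nat_lit 32) .dd))) (.br (nat_lit 9) (.ch (nat_lit 8)
 (.ev (nat_lit 1248) (nat_lit 32) (.ev (nat_lit 1261) (nat_lit 16) .dd))) (.ch (nat_lit 9) (.ev (nat_lit 1428)
 (nat_lit 16) (.ev (nat_lit 1437) (nat_lit 32) .dd))))))))))) (.br (nat_lit 8) (.br (nat_lit 6) (.ch (nat_lit
 5) (.ev (nat_lit 848) (nat_lit 144) (.ev (nat_lit 861) (nat_lit 32) .dd))) (.ch (nat_lit 6) (.ev (nat_lit 848)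
 (nat_lit 32) (.nd (nat_lit 3312) (.br (nat_lit 7) (.ch (nat_lit 2) (.ev (nat_lit 3364) (nat_lit 16) (.ev
 (nat_lit 3373) (nat_lit 128) .dd))) (.ch (nat_lit 7) (.ev (nat_lit 3364) (nat_lit 16) (.ev (nat_lit 3373)
 (nat_lit 128) .dd)))))))) (.br (nat_lit 10) (.ch (nat_lit 8) (.ev (nat_lit 848) (nat_lit 16) (.nd (nat_lit
 1952) (.br (nat_lit 7) (.br (nat_lit 3) (.ch (nat_lit 2) (.ev (nat_lit 1968) (nat_lit 128) (.ev (nat_lit 1981)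
 (nat_lit 32) .dd))) (.br (nat_lit 5) (.ch (nat_lit 3) (.ev (nat_lit 1968) (nat_lit 32) (.ev (nat_lit 1981)
 (nat_lit 128) .dd))) (.ch (nat_lit 5) (.ev (nat_lit 1968) (nat_lit 32) (.ev (nat_lit 1981) (nat_lit 128)
 .dd))))) (.br (nat_lit 9) (.ch (nat_lit 7) (.ev (nat_lit 1968) (nat_lit 128) (.ev (nat_lit 1981) (nat_lit 32)
 .dd))) (.br (nat_lit 10) (.ch (nat_lit 9) (.ev (nat_lit 1968) (nat_lit 128) (.ev (nat_lit 1981) (nat_lit 32)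
 .dd))) (.ch (nat_lit 10) (.ev (nat_lit 1968) (nat_lit 160) .dd)))))))) (.ch (nat_lit 10) (.ev (nat_lit 848)
 (nat_lit 128) (.nd (nat_lit 3792) (.br (nat_lit 6) (.br (nat_lit 3) (.ch (nat_lit 0) (.ev (nat_lit 3808)
 (nat_lit 32) (.ev (nat_lit 3821) (nat_lit 16) .dd))) (.br (nat_lit 5) (.ch (nat_lit 3) (.ev (nat_lit 3808)
 (nat_lit 48) .dd)) (.ch (nat_lit 5) (.ev (nat_lit 3808) (nat_lit 48) .dd)))) (.br (nat_lit 7) (.ch (nat_lit 6)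
 (.ev (nat_lit 3808) (nat_lit 16) (.ev (nat_lit 3821) (nat_lit 32) .dd))) (.br (nat_lit 9) (.ch (nat_lit 7)
 (.fin (nat_lit 576492088402068036))) (.ch (nat_lit 9) (.ev (nat_lit 3808) (nat_lit 48) .dd)))))))))))))) (.ch
 (nat_lit 5) (.ev (nat_lit 240) (nat_lit 80) (.nd (nat_lit 416) (.br (nat_lit 5) (.br (nat_lit 1) (.ch (nat_lit
 0) (.ev (nat_lit 432) (nat_lit 1056) (.nd (nat_lit 928) (.br (nat_lit 6) (.br (nat_lit 5) (.ch (nat_lit 1)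
 (.ev (nat_lit 2756) (nat_lit 256) (.ev (nat_lit 2765) (nat_lit 128) .dd))) (.ch (nat_lit 5) (.ev (nat_lit 944)
 (nat_lit 256) (.ev (nat_lit 957) (nat_lit 128) .dd)))) (.br (nat_lit 10) (.ch (nat_lit 6) (.nd (nat_lit 4384)
 (.ch (nat_lit 5) (.nd (nat_lit 5744) (.br (nat_lit 3) (.ch (nat_lit 1) (.ev (nat_lit 5812) (nat_lit 256) (.ev
 (nat_lit 5821) (nat_lit 128) .dd))) (.ch (nat_lit 3) (.fin (nat_lit 576563556561404491)))))))) (.ch (nat_lit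
 10) (.ev (nat_lit 1540) (nat_lit 256) (.ev (nat_lit 1549) (nat_lit 128) .dd)))))))) (.br (nat_lit 2) (.ch
 (nat_lit 1) (.ev (nat_lit 432) (nat_lit 128) (.nd (nat_lit 1232) (.br (nat_lit 7) (.br (nat_lit 4) (.ch
 (nat_lit 3) (.ev (nat_lit 1248) (nat_lit 256) (.fin (nat_lit 576505282573058636)))) (.br (nat_lit 6) (.ch
 (nat_lit 4) (.ev (nat_lit 1248) (nat_lit 32) (.ev (nat_lit 1396) (nat_lit 1024) (.ev (nat_lit 1405) (nat_lit
 256) .dd)))) (.ch (nat_lit 6) (.ev (nat_lit 1248) (nat_lit 1280) (.ev (nat_lit 1261) (nat_lit 32) .dd)))))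
 (.br (nat_lit 8) (.ch (nat_lit 7) (.ev (nat_lit 1248) (nat_lit 1024) (.ev (nat_lit 1428) (nat_lit 256) (.ev
 (nat_lit 1437) (nat_lit 32) .dd)))) (.br (nat_lit 9) (.ch (nat_lit 8) (.ev (nat_lit 2724) (nat_lit 256) (.ev
 (nat_lit 3412) (nat_lit 1024) (.ev (nat_lit 3421) (nat_lit 32) .dd)))) (.ch (nat_lit 9) (.ev (nat_lit 1248)
 (nat_lit 256) (.ev (nat_lit 3444) (nat_lit 1024) (.ev (nat_lit 3453) (nat_lit 32) .dd)))))))))) (.ch (nat_lit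
 2) (.ev (nat_lit 432) (nat_lit 1184) (.ev (nat_lit 445) (nat_lit 256) .dd))))) (.br (nat_lit 9) (.br (nat_lit
 7) (.ch (nat_lit 5) (.ev (nat_lit 432) (nat_lit 32) (.nd (nat_lit 928) (.br (nat_lit 6) (.br (nat_lit 3) (.ch
 (nat_lit 1) (.ev (nat_lit 944) (nat_lit 128) (.ev (nat_lit 1332) (nat_lit 256) (.ev (nat_lit 1341) (nat_lit
 1024) .dd)))) (.ch (nat_lit 3) (.ev (nat_lit 944) (nat_lit 256) (.ev (nat_lit 1044) (nat_lit 1024) (.ev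
 (nat_lit 1053) (nat_lit 128) .dd))))) (.br (nat_lit 7) (.ch (nat_lit 6) (.ev (nat_lit 944) (nat_lit 1024) (.ev
 (nat_lit 2356) (nat_lit 128) (.ev (nat_lit 2365) (nat_lit 256) .dd)))) (.br (nat_lit 8) (.ch (nat_lit 7) (.ev
 (nat_lit 1044) (nat_lit 1024) (.ev (nat_lit 3188) (nat_lit 256) (.ev (nat_lit 3197) (nat_lit 128) .dd)))) (.ch
 (nat_lit 8) (.ev (nat_lit 1044) (nat_lit 128) (.ev (nat_lit 1792) (nat_lit 1024) (.ev (nat_lit 1805) (nat_lit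
 256) .dd)))))))))) (.ch (nat_lit 7) (.ev (nat_lit 452) (nat_lit 128) (.ev (nat_lit 916) (nat_lit 32) (.nd
 (nat_lit 1232) (.br (nat_lit 6) (.br (nat_lit 1) (.ch (nat_lit 0) (.ev (nat_lit 1248) (nat_lit 256) (.ev
 (nat_lit 1261) (nat_lit 1024) .dd))) (.br (nat_lit 3) (.ch (nat_lit 1) (.ev (nat_lit 1248) (nat_lit 256) (.ev
 (nat_lit 1261) (nat_lit 1024) .dd))) (.ch (nat_lit 3) (.ev (nat_lit 1248) (nat_lit 256) (.ev (nat_lit 1261)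
 (nat_lit 1024) .dd))))) (.br (nat_lit 7) (.ch (nat_lit 6) (.ev (nat_lit 1248) (nat_lit 1024) (.ev (nat_lit
 1261) (nat_lit 256) .dd))) (.br (nat_lit 9) (.ch (nat_lit 7) (.ev (nat_lit 1248) (nat_lit 1024) (.ev (nat_lit
 1261) (nat_lit 256) .dd))) (.ch (nat_lit 9) (.nd (nat_lit 4720) (.br (nat_lit 6) (.ch (nat_lit 5) (.fin
 (nat_lit 576442610363089439))) (.ch (nat_lit 6) (.ev (nat_lit 4736) (nat_lit 256) (.ev (nat_lit 4749) (nat_lit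
 1024) .dd)))))))))))))) (.br (nat_lit 10) (.ch (nat_lit 9) (.ev (nat_lit 432) (nat_lit 1280) (.nd (nat_lit
 1952) (.br (nat_lit 2) (.ch (nat_lit 0) (.ev (nat_lit 1968) (nat_lit 128) (.ev (nat_lit 1981) (nat_lit 32)
 .dd))) (.br (nat_lit 3) (.ch (nat_lit 2) (.ev (nat_lit 1968) (nat_lit 128) (.ev (nat_lit 1981) (nat_lit 32)
 .dd))) (.ch (nat_lit 3) (.ev (nat_lit 4272) (nat_lit 160) .dd))))))) (.ch (nat_lit 10) (.ev (nat_lit 432)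
 (nat_lit 256) (.nd (nat_lit 1232) (.br (nat_lit 3) (.br (nat_lit 1) (.ch (nat_lit 0) (.ev (nat_lit 1268)
 (nat_lit 128) (.ev (nat_lit 1828) (nat_lit 1024) (.ev (nat_lit 1837) (nat_lit 32) .dd)))) (.br (nat_lit 2)
 (.ch (nat_lit 1) (.ev (nat_lit 1248) (nat_lit 32) (.fin (nat_lit 576474496205537872)))) (.ch (nat_lit 2) (.ev
 (nat_lit 1248) (nat_lit 1024) (.ev (nat_lit 2528) (nat_lit 160) .dd))))) (.br (nat_lit 5) (.ch (nat_lit 3)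
 (.ev (nat_lit 1248) (nat_lit 128) (.ev (nat_lit 1396) (nat_lit 1024) (.ev (nat_lit 1405) (nat_lit 32) .dd))))
 (.br (nat_lit 10) (.ch (nat_lit 5) (.ev (nat_lit 1248) (nat_lit 1056) (.ev (nat_lit 1261) (nat_lit 128) .dd)))
 (.ch (nat_lit 10) (.ev (nat_lit 1396) (nat_lit 1024) (.ev (nat_lit 2052) (nat_lit 32) (.ev (nat_lit 2061)
 (nat_lit 128) .dd))))))))))))))))) (.br (nat_lit 8) (.ch (nat_lit 7) (.ev (nat_lit 240) (nat_lit 128) (.nd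
 (nat_lit 464) (.br (nat_lit 6) (.br (nat_lit 2) (.ch (nat_lit 0) (.ev (nat_lit 480) (nat_lit 352) (.nd
 (nat_lit 1232) (.br (nat_lit 3) (.br (nat_lit 2) (.ch (nat_lit 1) (.ev (nat_lit 1248) (nat_lit 1024) (.ev
 (nat_lit 1261) (nat_lit 16) .dd))) (.ch (nat_lit 2) (.ev (nat_lit 1248) (nat_lit 16) (.ev (nat_lit 1261)
 (nat_lit 1024) .dd)))) (.br (nat_lit 6) (.ch (nat_lit 3) (.ev (nat_lit 1248) (nat_lit 1024) (.ev (nat_lit
 1261) (nat_lit 16) .dd))) (.br (nat_lit 8) (.ch (nat_lit 6) (.ev (nat_lit 2660) (nat_lit 1024) (.ev (nat_lit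
 2669) (nat_lit 16) .dd))) (.ch (nat_lit 8) (.ev (nat_lit 1716) (nat_lit 16) (.ev (nat_lit 1725) (nat_lit 1024)
 .dd))))))))) (.br (nat_lit 5) (.ch (nat_lit 2) (.ev (nat_lit 480) (nat_lit 80) (.nd (nat_lit 1232) (.br
 (nat_lit 6) (.br (nat_lit 1) (.ch (nat_lit 0) (.ev (nat_lit 1248) (nat_lit 1056) (.ev (nat_lit 1261) (nat_lit
 256) .dd))) (.br (nat_lit 3) (.ch (nat_lit 1) (.ev (nat_lit 1248) (nat_lit 256) (.ev (nat_lit 2612) (nat_lit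
 32) (.ev (nat_lit 2621) (nat_lit 1024) .dd)))) (.ch (nat_lit 3) (.ev (nat_lit 1248) (nat_lit 288) (.ev
 (nat_lit 1261) (nat_lit 1024) .dd))))) (.br (nat_lit 8) (.br (nat_lit 7) (.ch (nat_lit 6) (.ev (nat_lit 1396)
 (nat_lit 256) (.ev (nat_lit 1520) (nat_lit 1024) (.ev (nat_lit 1533) (nat_lit 32) .dd)))) (.ch (nat_lit 7)
 (.ev (nat_lit 1248) (nat_lit 1024) (.ev (nat_lit 2180) (nat_lit 32) (.ev (nat_lit 2189) (nat_lit 256) .dd)))))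
 (.br (nat_lit 10) (.ch (nat_lit 8) (.ev (nat_lit 1248) (nat_lit 256) (.ev (nat_lit 4064) (nat_lit 32) (.ev
 (nat_lit 4077) (nat_lit 1024) .dd)))) (.ch (nat_lit 10) (.ev (nat_lit 1248) (nat_lit 1280) (.ev (nat_lit 1261)
 (nat_lit 32) .dd))))))))) (.ch (nat_lit 5) (.ev (nat_lit 480) (nat_lit 1312) (.nd (nat_lit 1360) (.br (nat_lit
 7) (.ch (nat_lit 1) (.ev (nat_lit 1376) (nat_lit 16) (.ev (nat_lit 1389) (nat_lit 64) .dd))) (.br (nat_lit 8)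
 (.ch (nat_lit 7) (.ev (nat_lit 3524) (nat_lit 16) (.ev (nat_lit 3533) (nat_lit 64) .dd))) (.ch (nat_lit 8)
 (.ev (nat_lit 3412) (nat_lit 64) (.ev (nat_lit 3421) (nat_lit 16) .dd)))))))))) (.br (nat_lit 9) (.br (nat_lit
 8) (.ch (nat_lit 6) (.ev (nat_lit 480) (nat_lit 1280) (.ev (nat_lit 692) (nat_lit 64) (.nd (nat_lit 1952) (.br
 (nat_lit 7) (.ch (nat_lit 6) (.ev (nat_lit 2836) (nat_lit 16) (.ev (nat_lit 2845) (nat_lit 32) .dd))) (.ch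
 (nat_lit 7) (.ev (nat_lit 1968) (nat_lit 48) .dd))))))) (.ch (nat_lit 8) (.ev (nat_lit 480) (nat_lit 64) (.nd
 (nat_lit 832) (.br (nat_lit 6) (.br (nat_lit 3) (.ch (nat_lit 2) (.ev (nat_lit 848) (nat_lit 48) (.ev (nat_lit
 2932) (nat_lit 256) (.ev (nat_lit 2941) (nat_lit 1024) .dd)))) (.br (nat_lit 4) (.ch (nat_lit 3) (.ev (nat_lit
 848) (nat_lit 1040) (.ev (nat_lit 1588) (nat_lit 256) (.ev (nat_lit 1597) (nat_lit 32) .dd)))) (.ch (nat_lit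
 4) (.ev (nat_lit 848) (nat_lit 48) (.ev (nat_lit 2756) (nat_lit 256) (.ev (nat_lit 2765) (nat_lit 1024)
 .dd)))))) (.br (nat_lit 8) (.br (nat_lit 7) (.ch (nat_lit 6) (.ev (nat_lit 848) (nat_lit 1056) (.ev (nat_lit
 2228) (nat_lit 256) (.ev (nat_lit 2237) (nat_lit 16) .dd)))) (.ch (nat_lit 7) (.ev (nat_lit 848) (nat_lit
 1024) (.ev (nat_lit 1460) (nat_lit 256) (.ev (nat_lit 2100) (nat_lit 16) (.ev (nat_lit 2109) (nat_lit 32)
 .dd)))))) (.br (nat_lit 10) (.ch (nat_lit 8) (.ev (nat_lit 848) (nat_lit 272) (.ev (nat_lit 2368) (nat_lit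
 1024) (.ev (nat_lit 2381) (nat_lit 32) .dd)))) (.ch (nat_lit 10) (.ev (nat_lit 848) (nat_lit 1312) (.ev
 (nat_lit 861) (nat_lit 16) .dd)))))))))) (.br (nat_lit 10) (.ch (nat_lit 9) (.ev (nat_lit 480) (nat_lit 1024)
 (.nd (nat_lit 928) (.br (nat_lit 6) (.br (nat_lit 3) (.ch (nat_lit 0) (.ev (nat_lit 944) (nat_lit 288) (.fin
 (nat_lit 576465700170187355)))) (.br (nat_lit 5) (.ch (nat_lit 3) (.ev (nat_lit 944) (nat_lit 32) (.ev
 (nat_lit 1140) (nat_lit 64) (.ev (nat_lit 1652) (nat_lit 256) (.ev (nat_lit 1661) (nat_lit 16) .dd))))) (.ch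
 (nat_lit 5) (.ev (nat_lit 1428) (nat_lit 256) (.ev (nat_lit 1716) (nat_lit 32) (.ev (nat_lit 2192) (nat_lit
 16) (.ev (nat_lit 2205) (nat_lit 64) .dd))))))) (.br (nat_lit 9) (.ch (nat_lit 6) (.ev (nat_lit 944) (nat_lit
 272) (.fin (nat_lit 576492088420942466)))) (.br (nat_lit 10) (.ch (nat_lit 9) (.ev (nat_lit 944) (nat_lit 80)
 (.ev (nat_lit 1408) (nat_lit 288) .dd))) (.ch (nat_lit 10) (.ev (nat_lit 944) (nat_lit 16) (.ev (nat_lit 1764)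
 (nat_lit 32) (.nd (nat_lit 4384) (.br (nat_lit 8) (.ch (nat_lit 5) (.ev (nat_lit 4400) (nat_lit 256) (.ev
 (nat_lit 4413) (nat_lit 64) .dd))) (.ch (nat_lit 8) (.fin (nat_lit 576509680588112540)))))))))))))) (.ch
 (nat_lit 10) (.ev (nat_lit 480) (nat_lit 16) (.nd (nat_lit 832) (.br (nat_lit 6) (.br (nat_lit 4) (.ch
 (nat_lit 1) (.ev (nat_lit 848) (nat_lit 1312) (.ev (nat_lit 861) (nat_lit 64) .dd))) (.br (nat_lit 5) (.ch
 (nat_lit 4) (.ev (nat_lit 848) (nat_lit 1024) (.ev (nat_lit 964) (nat_lit 64) (.ev (nat_lit 1588) (nat_lit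
 256) (.ev (nat_lit 1597) (nat_lit 32) .dd))))) (.ch (nat_lit 5) (.ev (nat_lit 848) (nat_lit 96) (.ev (nat_lit
 1124) (nat_lit 1024) (.ev (nat_lit 1133) (nat_lit 256) .dd)))))) (.br (nat_lit 8) (.ch (nat_lit 6) (.ev
 (nat_lit 848) (nat_lit 288) (.ev (nat_lit 4884) (nat_lit 64) (.ev (nat_lit 4893) (nat_lit 1024) .dd)))) (.br
 (nat_lit 9) (.ch (nat_lit 8) (.ev (nat_lit 1140) (nat_lit 32) (.ev (nat_lit 3188) (nat_lit 1024) (.nd (nat_lit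
 4848) (.br (nat_lit 7) (.ch (nat_lit 4) (.nd (nat_lit 6128) (.ch (nat_lit 7) (.nd (nat_lit 6224) (.br (nat_lit
 5) (.ch (nat_lit 1) (.ev (nat_lit 6240) (nat_lit 320) .dd)) (.ch (nat_lit 5) (.fin (nat_lit
 576291977208217919)))))))) (.ch (nat_lit 7) (.ev (nat_lit 4864) (nat_lit 64) (.ev (nat_lit 4877) (nat_lit 256)
 .dd)))))))) (.ch (nat_lit 9) (.ev (nat_lit 848) (nat_lit 256) (.ev (nat_lit 1124) (nat_lit 1024) (.ev (nat_lit
 1460) (nat_lit 64) (.ev (nat_lit 1469) (nat_lit 32) .dd))))))))))))))))) (.ch (nat_lit 8) (.ev (nat_lit 240)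
 (nat_lit 1408) (.nd (nat_lit 640) (.br (nat_lit 3) (.br (nat_lit 1) (.ch (nat_lit 0) (.ev (nat_lit 656)
 (nat_lit 16) (.nd (nat_lit 1232) (.br (nat_lit 1) (.ch (nat_lit 0) (.ev (nat_lit 3444) (nat_lit 64) (.ev
 (nat_lit 3453) (nat_lit 32) .dd))) (.br (nat_lit 8) (.ch (nat_lit 1) (.ev (nat_lit 1396) (nat_lit 64) (.ev
 (nat_lit 1405) (nat_lit 32) .dd))) (.ch (nat_lit 8) (.ev (nat_lit 1396) (nat_lit 64) (.ev (nat_lit 1405)
 (nat_lit 32) .dd)))))))) (.br (nat_lit 2) (.ch (nat_lit 1) (.nd (nat_lit 1232) (.br (nat_lit 2) (.br (nat_lit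
 1) (.ch (nat_lit 0) (.ev (nat_lit 1248) (nat_lit 16) (.ev (nat_lit 1508) (nat_lit 64) (.ev (nat_lit 1517)
 (nat_lit 32) .dd)))) (.ch (nat_lit 1) (.ev (nat_lit 1248) (nat_lit 32) (.ev (nat_lit 1396) (nat_lit 64) (.ev
 (nat_lit 1405) (nat_lit 16) .dd))))) (.br (nat_lit 8) (.ch (nat_lit 2) (.ev (nat_lit 2624) (nat_lit 64) (.ev
 (nat_lit 2868) (nat_lit 32) (.ev (nat_lit 2877) (nat_lit 16) .dd)))) (.ch (nat_lit 8) (.ev (nat_lit 1248)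
 (nat_lit 64) (.ev (nat_lit 3476) (nat_lit 16) (.ev (nat_lit 3485) (nat_lit 32) .dd)))))))) (.ch (nat_lit 2)
 (.ev (nat_lit 656) (nat_lit 16) (.nd (nat_lit 1952) (.br (nat_lit 8) (.br (nat_lit 5) (.ch (nat_lit 4) (.ev
 (nat_lit 1968) (nat_lit 32) (.ev (nat_lit 1981) (nat_lit 64) .dd))) (.ch (nat_lit 5) (.ev (nat_lit 1968)
 (nat_lit 64) (.ev (nat_lit 1981) (nat_lit 32) .dd)))) (.br (nat_lit 10) (.ch (nat_lit 8) (.ev (nat_lit 1968)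
 (nat_lit 32) (.ev (nat_lit 1981) (nat_lit 64) .dd))) (.ch (nat_lit 10) (.fin (nat_lit
 576463501118620147)))))))))) (.br (nat_lit 7) (.ch (nat_lit 3) (.ev (nat_lit 656) (nat_lit 96) (.ev (nat_lit
 669) (nat_lit 16) .dd))) (.br (nat_lit 9) (.ch (nat_lit 7) (.nd (nat_lit 1088) (.br (nat_lit 5) (.br (nat_lit
 3) (.ch (nat_lit 0) (.ev (nat_lit 1104) (nat_lit 32) (.ev (nat_lit 2228) (nat_lit 64) (.ev (nat_lit 2237)
 (nat_lit 16) .dd)))) (.br (nat_lit 4) (.ch (nat_lit 3) (.ev (nat_lit 1104) (nat_lit 48) (.ev (nat_lit 1117)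
 (nat_lit 64) .dd))) (.ch (nat_lit 4) (.ev (nat_lit 1716) (nat_lit 32) (.ev (nat_lit 2116) (nat_lit 64) (.ev
 (nat_lit 2125) (nat_lit 16) .dd)))))) (.br (nat_lit 6) (.ch (nat_lit 5) (.ev (nat_lit 1104) (nat_lit 32) (.ev
 (nat_lit 2116) (nat_lit 64) (.ev (nat_lit 2125) (nat_lit 16) .dd)))) (.br (nat_lit 9) (.ch (nat_lit 6) (.ev
 (nat_lit 1104) (nat_lit 80) (.ev (nat_lit 1117) (nat_lit 32) .dd))) (.ch (nat_lit 9) (.ev (nat_lit 1104)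
 (nat_lit 64) (.ev (nat_lit 1488) (nat_lit 48) .dd)))))))) (.ch (nat_lit 9) (.nd (nat_lit 1232) (.br (nat_lit
 5) (.br (nat_lit 3) (.ch (nat_lit 1) (.ev (nat_lit 1248) (nat_lit 32) (.ev (nat_lit 1396) (nat_lit 64) (.ev
 (nat_lit 1405) (nat_lit 16) .dd)))) (.br (nat_lit 4) (.ch (nat_lit 3) (.ev (nat_lit 1248) (nat_lit 64) (.ev
 (nat_lit 1268) (nat_lit 16) (.ev (nat_lit 1277) (nat_lit 32) .dd)))) (.ch (nat_lit 4) (.ev (nat_lit 1248)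
 (nat_lit 64) (.ev (nat_lit 1440) (nat_lit 48) .dd))))) (.br (nat_lit 9) (.br (nat_lit 6) (.ch (nat_lit 5) (.ev
 (nat_lit 1248) (nat_lit 16) (.ev (nat_lit 2692) (nat_lit 32) (.ev (nat_lit 2701) (nat_lit 64) .dd)))) (.ch
 (nat_lit 6) (.ev (nat_lit 1396) (nat_lit 64) (.nd (nat_lit 5376) (.ch (nat_lit 2) (.nd (nat_lit 6144) (.br
 (nat_lit 7) (.ch (nat_lit 3) (.ev (nat_lit 6160) (nat_lit 48) .dd)) (.ch (nat_lit 7) (.fin (nat_lit
 576410724504912395)))))))))) (.br (nat_lit 10) (.ch (nat_lit 9) (.ev (nat_lit 1248) (nat_lit 80) (.ev (nat_lit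
 1261) (nat_lit 32) .dd))) (.ch (nat_lit 10) (.ev (nat_lit 1248) (nat_lit 48) (.ev (nat_lit 1261) (nat_lit 64)
 .dd)))))))))))))))))))) (.br (nat_lit 2) (.ch (nat_lit 1) (.ev (nat_lit 48) (nat_lit 64) (.nd (nat_lit 64)
 (.br (nat_lit 5) (.br (nat_lit 3) (.ch (nat_lit 2) (.ev (nat_lit 80) (nat_lit 32) (.ev (nat_lit 276) (nat_lit
 16) (.ev (nat_lit 372) (nat_lit 1024) (.nd (nat_lit 640) (.br (nat_lit 6) (.br (nat_lit 3) (.ch (nat_lit 2)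
 (.ev (nat_lit 656) (nat_lit 256) (.ev (nat_lit 676) (nat_lit 128) (.ev (nat_lit 740) (nat_lit 2048) (.ev
 (nat_lit 749) (nat_lit 4) .dd))))) (.br (nat_lit 4) (.ch (nat_lit 3) (.ev (nat_lit 656) (nat_lit 2052) (.ev
 (nat_lit 756) (nat_lit 256) (.ev (nat_lit 765) (nat_lit 128) .dd)))) (.ch (nat_lit 4) (.ev (nat_lit 656)
 (nat_lit 2048) (.ev (nat_lit 788) (nat_lit 128) (.fin (nat_lit 576461302059713087))))))) (.br (nat_lit 8) (.br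
 (nat_lit 7) (.ch (nat_lit 6) (.ev (nat_lit 656) (nat_lit 4) (.ev (nat_lit 692) (nat_lit 256) (.ev (nat_lit
 2836) (nat_lit 128) (.ev (nat_lit 2845) (nat_lit 2048) .dd))))) (.ch (nat_lit 7) (.ev (nat_lit 656) (nat_lit
 132) (.ev (nat_lit 756) (nat_lit 2048) (.ev (nat_lit 765) (nat_lit 256) .dd))))) (.br (nat_lit 10) (.ch
 (nat_lit 8) (.ev (nat_lit 656) (nat_lit 2304) (.ev (nat_lit 676) (nat_lit 128) (.ev (nat_lit 685) (nat_lit 4)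
 .dd)))) (.ch (nat_lit 10) (.ev (nat_lit 656) (nat_lit 384) (.ev (nat_lit 772) (nat_lit 4) (.ev (nat_lit 781)
 (nat_lit 2048) .dd)))))))))))) (.br (nat_lit 4) (.ch (nat_lit 3) (.ev (nat_lit 80) (nat_lit 3076) (.nd
 (nat_lit 384) (.br (nat_lit 4) (.br (nat_lit 1) (.ch (nat_lit 0) (.ev (nat_lit 400) (nat_lit 16) (.ev (nat_lit
 548) (nat_lit 32) (.nd (nat_lit 1952) (.br (nat_lit 1) (.ch (nat_lit 0) (.ev (nat_lit 3412) (nat_lit 128) (.ev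
 (nat_lit 3421) (nat_lit 256) .dd))) (.br (nat_lit 5) (.ch (nat_lit 1) (.ev (nat_lit 3524) (nat_lit 256) (.ev
 (nat_lit 3533) (nat_lit 128) .dd))) (.ch (nat_lit 5) (.ev (nat_lit 1968) (nat_lit 256) (.ev (nat_lit 1981)
 (nat_lit 128) .dd))))))))) (.br (nat_lit 2) (.ch (nat_lit 1) (.ev (nat_lit 400) (nat_lit 256) (.nd (nat_lit
 1360) (.br (nat_lit 5) (.br (nat_lit 3) (.ch (nat_lit 0) (.ev (nat_lit 1376) (nat_lit 48) (.ev (nat_lit 1389)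
 (nat_lit 128) .dd))) (.br (nat_lit 4) (.ch (nat_lit 3) (.ev (nat_lit 1376) (nat_lit 32) (.ev (nat_lit 1520)
 (nat_lit 144) .dd))) (.ch (nat_lit 4) (.ev (nat_lit 1376) (nat_lit 128) (.nd (nat_lit 5264) (.br (nat_lit 6)
 (.ch (nat_lit 1) (.ev (nat_lit 5280) (nat_lit 32) (.ev (nat_lit 5293) (nat_lit 16) .dd))) (.ch (nat_lit 6)
 (.fin (nat_lit 576455804565537360))))))))) (.br (nat_lit 7) (.ch (nat_lit 5) (.ev (nat_lit 1376) (nat_lit 144)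
 (.ev (nat_lit 1389) (nat_lit 32) .dd))) (.br (nat_lit 8) (.ch (nat_lit 7) (.ev (nat_lit 1716) (nat_lit 128)
 (.ev (nat_lit 2564) (nat_lit 32) (.ev (nat_lit 2573) (nat_lit 16) .dd)))) (.ch (nat_lit 8) (.ev (nat_lit 1376)
 (nat_lit 32) (.ev (nat_lit 1652) (nat_lit 128) (.ev (nat_lit 1661) (nat_lit 16) .dd)))))))))) (.ch (nat_lit 2)
 (.ev (nat_lit 400) (nat_lit 384) (.nd (nat_lit 1952) (.br (nat_lit 7) (.br (nat_lit 2) (.ch (nat_lit 1) (.ev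
 (nat_lit 1968) (nat_lit 16) (.ev (nat_lit 1981) (nat_lit 32) .dd))) (.ch (nat_lit 2) (.ev (nat_lit 1968)
 (nat_lit 16) (.ev (nat_lit 1981) (nat_lit 32) .dd)))) (.br (nat_lit 10) (.ch (nat_lit 7) (.ev (nat_lit 2724)
 (nat_lit 16) (.ev (nat_lit 2733) (nat_lit 32) .dd))) (.ch (nat_lit 10) (.ev (nat_lit 1968) (nat_lit 32) (.ev
 (nat_lit 1981) (nat_lit 16) .dd)))))))))) (.br (nat_lit 9) (.br (nat_lit 5) (.ch (nat_lit 4) (.ev (nat_lit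
 400) (nat_lit 32) (.nd (nat_lit 1360) (.br (nat_lit 6) (.br (nat_lit 2) (.ch (nat_lit 0) (.ev (nat_lit 1376)
 (nat_lit 16) (.ev (nat_lit 2052) (nat_lit 256) (.ev (nat_lit 2061) (nat_lit 128) .dd)))) (.br (nat_lit 5) (.ch
 (nat_lit 2) (.ev (nat_lit 1376) (nat_lit 256) (.ev (nat_lit 1460) (nat_lit 128) (.ev (nat_lit 1469) (nat_lit
 16) .dd)))) (.ch (nat_lit 5) (.ev (nat_lit 2660) (nat_lit 128) (.ev (nat_lit 3412) (nat_lit 16) (.ev (nat_lit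
 3421) (nat_lit 256) .dd)))))) (.br (nat_lit 7) (.ch (nat_lit 6) (.ev (nat_lit 1376) (nat_lit 16) (.ev (nat_lit
 1396) (nat_lit 128) (.ev (nat_lit 1405) (nat_lit 256) .dd)))) (.br (nat_lit 10) (.ch (nat_lit 7) (.ev (nat_lit
 1376) (nat_lit 384) (.ev (nat_lit 1389) (nat_lit 16) .dd))) (.ch (nat_lit 10) (.ev (nat_lit 2116) (nat_lit
 128) (.ev (nat_lit 3492) (nat_lit 256) (.ev (nat_lit 3501) (nat_lit 16) .dd)))))))))) (.ch (nat_lit 5) (.nd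
 (nat_lit 832) (.br (nat_lit 8) (.br (nat_lit 4) (.ch (nat_lit 0) (.ev (nat_lit 2756) (nat_lit 128) (.ev
 (nat_lit 3476) (nat_lit 256) (.ev (nat_lit 4932) (nat_lit 16) (.ev (nat_lit 4941) (nat_lit 32) .dd))))) (.br
 (nat_lit 5) (.ch (nat_lit 4) (.ev (nat_lit 848) (nat_lit 16) (.ev (nat_lit 2356) (nat_lit 256) (.ev (nat_lit
 2528) (nat_lit 160) .dd)))) (.ch (nat_lit 5) (.ev (nat_lit 2592) (nat_lit 32) (.ev (nat_lit 3220) (nat_lit 16)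
 (.fin (nat_lit 576522874727645808))))))) (.br (nat_lit 9) (.ch (nat_lit 8) (.ev (nat_lit 848) (nat_lit 144)
 (.ev (nat_lit 1844) (nat_lit 32) (.ev (nat_lit 1853) (nat_lit 256) .dd)))) (.br (nat_lit 10) (.ch (nat_lit 9)
 (.ev (nat_lit 848) (nat_lit 288) (.ev (nat_lit 1028) (nat_lit 16) (.ev (nat_lit 1037) (nat_lit 128) .dd))))
 (.ch (nat_lit 10) (.ev (nat_lit 848) (nat_lit 128) (.ev (nat_lit 1028) (nat_lit 16) (.ev (nat_lit 2576)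
 (nat_lit 256) (.ev (nat_lit 2589) (nat_lit 32) .dd))))))))))) (.br (nat_lit 10) (.ch (nat_lit 9) (.ev (nat_lit
 400) (nat_lit 176) (.ev (nat_lit 413) (nat_lit 256) .dd))) (.ch (nat_lit 10) (.ev (nat_lit 400) (nat_lit 144)
 (.ev (nat_lit 612) (nat_lit 256) (.ev (nat_lit 621) (nat_lit 32) .dd)))))))))) (.ch (nat_lit 4) (.ev (nat_lit
 80) (nat_lit 3360) (.nd (nat_lit 416) (.br (nat_lit 6) (.br (nat_lit 1) (.ch (nat_lit 0) (.nd (nat_lit 928)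
 (.br (nat_lit 7) (.br (nat_lit 1) (.ch (nat_lit 0) (.ev (nat_lit 4148) (nat_lit 128) (.nd (nat_lit 5472) (.br
 (nat_lit 10) (.ch (nat_lit 0) (.fin (nat_lit 576478894273020428))) (.ch (nat_lit 10) (.ev (nat_lit 5488)
 (nat_lit 20) .dd)))))) (.br (nat_lit 6) (.ch (nat_lit 1) (.ev (nat_lit 944) (nat_lit 16) (.ev (nat_lit 3444)
 (nat_lit 128) (.ev (nat_lit 3453) (nat_lit 4) .dd)))) (.ch (nat_lit 6) (.ev (nat_lit 1860) (nat_lit 4) (.ev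
 (nat_lit 3412) (nat_lit 128) (.ev (nat_lit 3421) (nat_lit 16) .dd)))))) (.br (nat_lit 9) (.ch (nat_lit 7) (.ev
 (nat_lit 944) (nat_lit 132) (.ev (nat_lit 957) (nat_lit 16) .dd))) (.br (nat_lit 10) (.ch (nat_lit 9) (.ev
 (nat_lit 944) (nat_lit 16) (.ev (nat_lit 2324) (nat_lit 128) (.ev (nat_lit 2333) (nat_lit 4) .dd)))) (.ch
 (nat_lit 10) (.ev (nat_lit 2080) (nat_lit 128) (.ev (nat_lit 2612) (nat_lit 4) (.ev (nat_lit 2621) (nat_lit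
 16) .dd))))))))) (.br (nat_lit 4) (.ch (nat_lit 1) (.ev (nat_lit 432) (nat_lit 128) (.nd (nat_lit 3312) (.br
 (nat_lit 10) (.ch (nat_lit 8) (.ev (nat_lit 3444) (nat_lit 4) (.ev (nat_lit 3453) (nat_lit 16) .dd))) (.ch
 (nat_lit 10) (.ev (nat_lit 3508) (nat_lit 16) (.ev (nat_lit 3517) (nat_lit 4) .dd))))))) (.ch (nat_lit 4) (.ev
 (nat_lit 432) (nat_lit 132) (.ev (nat_lit 445) (nat_lit 16) .dd))))) (.br (nat_lit 9) (.br (nat_lit 8) (.ch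
 (nat_lit 6) (.ev (nat_lit 432) (nat_lit 132) (.ev (nat_lit 445) (nat_lit 16) .dd))) (.ch (nat_lit 8) (.ev
 (nat_lit 432) (nat_lit 16) (.ev (nat_lit 452) (nat_lit 4) (.ev (nat_lit 461) (nat_lit 128) .dd))))) (.br
 (nat_lit 10) (.ch (nat_lit 9) (.ev (nat_lit 432) (nat_lit 16) (.nd (nat_lit 1952) (.br (nat_lit 6) (.br
 (nat_lit 5) (.ch (nat_lit 4) (.ev (nat_lit 3476) (nat_lit 128) (.ev (nat_lit 3485) (nat_lit 4) .dd))) (.ch
 (nat_lit 5) (.ev (nat_lit 3444) (nat_lit 4) (.ev (nat_lit 3453) (nat_lit 128) .dd)))) (.br (nat_lit 7) (.ch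
 (nat_lit 6) (.ev (nat_lit 1968) (nat_lit 128) (.ev (nat_lit 1981) (nat_lit 4) .dd))) (.ch (nat_lit 7) (.ev
 (nat_lit 2052) (nat_lit 4) (.ev (nat_lit 2061) (nat_lit 128) .dd)))))))) (.ch (nat_lit 10) (.ev (nat_lit 432)
 (nat_lit 128) (.ev (nat_lit 596) (nat_lit 16) (.ev (nat_lit 605) (nat_lit 4) .dd)))))))))))) (.br (nat_lit 9)
 (.br (nat_lit 7) (.ch (nat_lit 5) (.ev (nat_lit 80) (nat_lit 384) (.nd (nat_lit 384) (.br (nat_lit 4) (.br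
 (nat_lit 2) (.ch (nat_lit 1) (.ev (nat_lit 400) (nat_lit 20) (.ev (nat_lit 740) (nat_lit 2048) (.nd (nat_lit
 1360) (.br (nat_lit 5) (.br (nat_lit 2) (.ch (nat_lit 1) (.ev (nat_lit 1428) (nat_lit 32) (.ev (nat_lit 1437)
 (nat_lit 1024) .dd))) (.br (nat_lit 3) (.ch (nat_lit 2) (.fin (nat_lit 576487690259087925))) (.ch (nat_lit 3)
 (.ev (nat_lit 1376) (nat_lit 1024) (.ev (nat_lit 1389) (nat_lit 32) .dd))))) (.br (nat_lit 9) (.br (nat_lit 8)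
 (.ch (nat_lit 5) (.ev (nat_lit 1376) (nat_lit 1024) (.ev (nat_lit 1389) (nat_lit 32) .dd))) (.ch (nat_lit 8)
 (.ev (nat_lit 1376) (nat_lit 32) (.ev (nat_lit 1389) (nat_lit 1024) .dd)))) (.br (nat_lit 10) (.ch (nat_lit 9)
 (.ev (nat_lit 1428) (nat_lit 32) (.ev (nat_lit 1437) (nat_lit 1024) .dd))) (.ch (nat_lit 10) (.ev (nat_lit
 1376) (nat_lit 32) (.ev (nat_lit 1389) (nat_lit 1024) .dd)))))))))) (.br (nat_lit 3) (.ch (nat_lit 2) (.ev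
 (nat_lit 400) (nat_lit 2100) (.ev (nat_lit 413) (nat_lit 1024) .dd))) (.ch (nat_lit 3) (.ev (nat_lit 400)
 (nat_lit 32) (.ev (nat_lit 740) (nat_lit 16) (.nd (nat_lit 1360) (.br (nat_lit 4) (.br (nat_lit 2) (.ch
 (nat_lit 0) (.ev (nat_lit 1376) (nat_lit 1024) (.ev (nat_lit 1428) (nat_lit 4) (.ev (nat_lit 1437) (nat_lit
 2048) .dd)))) (.br (nat_lit 3) (.ch (nat_lit 2) (.ev (nat_lit 1376) (nat_lit 4) (.ev (nat_lit 1396) (nat_lit
 2048) (.ev (nat_lit 1405) (nat_lit 1024) .dd)))) (.ch (nat_lit 3) (.ev (nat_lit 1376) (nat_lit 1024) (.ev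
 (nat_lit 2068) (nat_lit 4) (.ev (nat_lit 2077) (nat_lit 2048) .dd)))))) (.br (nat_lit 9) (.ch (nat_lit 4) (.ev
 (nat_lit 1376) (nat_lit 2048) (.ev (nat_lit 1588) (nat_lit 1024) (.ev (nat_lit 1597) (nat_lit 4) .dd)))) (.br
 (nat_lit 10) (.ch (nat_lit 9) (.ev (nat_lit 1376) (nat_lit 2052) (.ev (nat_lit 1389) (nat_lit 1024) .dd)))
 (.ch (nat_lit 10) (.ev (nat_lit 1428) (nat_lit 1024) (.ev (nat_lit 1588) (nat_lit 2048) (.ev (nat_lit 1597)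
 (nat_lit 4) .dd))))))))))))) (.br (nat_lit 9) (.br (nat_lit 6) (.ch (nat_lit 4) (.ev (nat_lit 400) (nat_lit
 1024) (.nd (nat_lit 832) (.br (nat_lit 6) (.br (nat_lit 2) (.ch (nat_lit 1) (.ev (nat_lit 848) (nat_lit 32)
 (.ev (nat_lit 1284) (nat_lit 4) (.ev (nat_lit 2724) (nat_lit 16) (.ev (nat_lit 2733) (nat_lit 2048) .dd)))))
 (.br (nat_lit 5) (.ch (nat_lit 2) (.ev (nat_lit 848) (nat_lit 16) (.ev (nat_lit 1460) (nat_lit 32) (.fin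
 (nat_lit 576478894231077348))))) (.ch (nat_lit 5) (.ev (nat_lit 848) (nat_lit 2048) (.ev (nat_lit 964)
 (nat_lit 4) (.ev (nat_lit 1028) (nat_lit 32) (.ev (nat_lit 1037) (nat_lit 16) .dd))))))) (.br (nat_lit 8) (.br
 (nat_lit 7) (.ch (nat_lit 6) (.ev (nat_lit 848) (nat_lit 2080) (.ev (nat_lit 1428) (nat_lit 16) (.ev (nat_lit
 1437) (nat_lit 4) .dd)))) (.ch (nat_lit 7) (.ev (nat_lit 848) (nat_lit 2068) (.ev (nat_lit 861) (nat_lit 32)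
 .dd)))) (.br (nat_lit 10) (.ch (nat_lit 8) (.ev (nat_lit 848) (nat_lit 2064) (.ev (nat_lit 1028) (nat_lit 32)
 (.ev (nat_lit 1037) (nat_lit 4) .dd)))) (.ch (nat_lit 10) (.ev (nat_lit 848) (nat_lit 4) (.ev (nat_lit 1284)
 (nat_lit 32) (.nd (nat_lit 4768) (.ch (nat_lit 2) (.nd (nat_lit 5984) (.br (nat_lit 9) (.ch (nat_lit 2) (.fin
 (nat_lit 576409624954487446))) (.ch (nat_lit 9) (.ev (nat_lit 6000) (nat_lit 2064) .dd))))))))))))))) (.ch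
 (nat_lit 6) (.nd (nat_lit 928) (.br (nat_lit 4) (.br (nat_lit 1) (.ch (nat_lit 0) (.ev (nat_lit 944) (nat_lit
 16) (.nd (nat_lit 4336) (.ch (nat_lit 4) (.nd (nat_lit 6080) (.br (nat_lit 9) (.ch (nat_lit 1) (.ev (nat_lit
 6096) (nat_lit 2080) (.fin (nat_lit 576551462264849001)))) (.ch (nat_lit 9) (.ev (nat_lit 6096) (nat_lit 1028)
 (.fin (nat_lit 576404127314559516)))))))))) (.br (nat_lit 2) (.ch (nat_lit 1) (.ev (nat_lit 944) (nat_lit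
 2084) (.ev (nat_lit 1268) (nat_lit 1024) (.ev (nat_lit 1277) (nat_lit 16) .dd)))) (.ch (nat_lit 2) (.ev
 (nat_lit 944) (nat_lit 1024) (.ev (nat_lit 1044) (nat_lit 32) (.ev (nat_lit 1140) (nat_lit 2048) (.ev (nat_lit
 2324) (nat_lit 16) (.ev (nat_lit 2333) (nat_lit 4) .dd)))))))) (.br (nat_lit 6) (.br (nat_lit 5) (.ch (nat_lit
 4) (.ev (nat_lit 944) (nat_lit 2064) (.ev (nat_lit 1268) (nat_lit 1024) (.ev (nat_lit 1300) (nat_lit 4) (.ev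
 (nat_lit 1309) (nat_lit 32) .dd))))) (.ch (nat_lit 5) (.ev (nat_lit 944) (nat_lit 2048) (.ev (nat_lit 1028)
 (nat_lit 4) (.ev (nat_lit 1124) (nat_lit 16) (.nd (nat_lit 4640) (.br (nat_lit 9) (.ch (nat_lit 4) (.ev
 (nat_lit 4656) (nat_lit 1024) (.ev (nat_lit 4669) (nat_lit 32) .dd))) (.ch (nat_lit 9) (.ev (nat_lit 4916)
 (nat_lit 1024) (.ev (nat_lit 4925) (nat_lit 32) .dd)))))))))) (.br (nat_lit 8) (.ch (nat_lit 6) (.ev (nat_lit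
 944) (nat_lit 1060) (.ev (nat_lit 1124) (nat_lit 2048) (.ev (nat_lit 1133) (nat_lit 16) .dd)))) (.ch (nat_lit
 8) (.ev (nat_lit 944) (nat_lit 1024) (.ev (nat_lit 1124) (nat_lit 16) (.ev (nat_lit 1460) (nat_lit 2048) (.ev
 (nat_lit 3140) (nat_lit 4) (.ev (nat_lit 3149) (nat_lit 32) .dd)))))))))))) (.br (nat_lit 10) (.ch (nat_lit 9)
 (.ev (nat_lit 400) (nat_lit 3104) (.nd (nat_lit 3792) (.ch (nat_lit 2) (.nd (nat_lit 5568) (.br (nat_lit 8)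
 (.ch (nat_lit 0) (.fin (nat_lit 576478894300283430))) (.ch (nat_lit 8) (.ev (nat_lit 5700) (nat_lit 16) (.ev
 (nat_lit 5709) (nat_lit 4) .dd))))))))) (.ch (nat_lit 10) (.ev (nat_lit 400) (nat_lit 2048) (.ev (nat_lit 740)
 (nat_lit 1040) (.nd (nat_lit 1232) (.br (nat_lit 5) (.br (nat_lit 2) (.ch (nat_lit 0) (.ev (nat_lit 1248)
 (nat_lit 36) .dd)) (.ch (nat_lit 2) (.nd (nat_lit 4720) (.br (nat_lit 3) (.ch (nat_lit 2) (.ev (nat_lit 4736)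
 (nat_lit 4) (.ev (nat_lit 4749) (nat_lit 32) .dd))) (.br (nat_lit 4) (.ch (nat_lit 3) (.ev (nat_lit 4736)
 (nat_lit 4) (.ev (nat_lit 4749) (nat_lit 32) .dd))) (.ch (nat_lit 4) (.nd (nat_lit 6016) (.br (nat_lit 9) (.ch
 (nat_lit 0) (.fin (nat_lit 576478894288749083))) (.ch (nat_lit 9) (.ev (nat_lit 6032) (nat_lit 36)
 .dd)))))))))) (.br (nat_lit 6) (.ch (nat_lit 5) (.ev (nat_lit 1248) (nat_lit 32) (.ev (nat_lit 1261) (nat_lit
 4) .dd))) (.br (nat_lit 8) (.ch (nat_lit 6) (.ev (nat_lit 2692) (nat_lit 4) (.ev (nat_lit 2701) (nat_lit 32)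
 .dd))) (.ch (nat_lit 8) (.ev (nat_lit 1248) (nat_lit 32) (.ev (nat_lit 1261) (nat_lit 4) .dd))))))))))))))))
 (.ch (nat_lit 7) (.ev (nat_lit 80) (nat_lit 304) (.nd (nat_lit 416) (.br (nat_lit 7) (.br (nat_lit 1) (.ch
 (nat_lit 0) (.ev (nat_lit 432) (nat_lit 132) (.nd (nat_lit 1360) (.br (nat_lit 7) (.ch (nat_lit 1) (.ev
 (nat_lit 1396) (nat_lit 2048) (.ev (nat_lit 1405) (nat_lit 1024) .dd))) (.br (nat_lit 10) (.ch (nat_lit 7)
 (.ev (nat_lit 1396) (nat_lit 1024) (.ev (nat_lit 1405) (nat_lit 2048) .dd))) (.ch (nat_lit 10) (.ev (nat_lit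
 1396) (nat_lit 1024) (.ev (nat_lit 1405) (nat_lit 2048) .dd)))))))) (.br (nat_lit 6) (.ch (nat_lit 1) (.ev
 (nat_lit 432) (nat_lit 2048) (.nd (nat_lit 1232) (.br (nat_lit 8) (.br (nat_lit 3) (.ch (nat_lit 2) (.ev
 (nat_lit 2068) (nat_lit 4) (.ev (nat_lit 3572) (nat_lit 1024) (.ev (nat_lit 3581) (nat_lit 128) .dd)))) (.ch
 (nat_lit 3) (.ev (nat_lit 1248) (nat_lit 1024) (.ev (nat_lit 2068) (nat_lit 4) (.ev (nat_lit 2077) (nat_lit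
 128) .dd))))) (.br (nat_lit 10) (.ch (nat_lit 8) (.ev (nat_lit 1248) (nat_lit 128) (.ev (nat_lit 1396)
 (nat_lit 4) (.ev (nat_lit 1405) (nat_lit 1024) .dd)))) (.ch (nat_lit 10) (.ev (nat_lit 1248) (nat_lit 4) (.fin
 (nat_lit 576436013345751633))))))))) (.ch (nat_lit 6) (.ev (nat_lit 432) (nat_lit 1024) (.ev (nat_lit 500)
 (nat_lit 128) (.nd (nat_lit 992) (.br (nat_lit 7) (.br (nat_lit 6) (.ch (nat_lit 3) (.ev (nat_lit 1008)
 (nat_lit 4) (.ev (nat_lit 1021) (nat_lit 2048) .dd))) (.ch (nat_lit 6) (.ev (nat_lit 1008) (nat_lit 2048) (.ev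
 (nat_lit 1021) (nat_lit 4) .dd)))) (.br (nat_lit 9) (.ch (nat_lit 7) (.fin (nat_lit 576443709808656974))) (.ch
 (nat_lit 9) (.ev (nat_lit 1396) (nat_lit 2048) (.ev (nat_lit 1405) (nat_lit 4) .dd))))))))))) (.br (nat_lit 8)
 (.ch (nat_lit 7) (.ev (nat_lit 432) (nat_lit 3072) (.nd (nat_lit 1952) (.br (nat_lit 5) (.ch (nat_lit 1) (.ev
 (nat_lit 2052) (nat_lit 4) (.ev (nat_lit 2061) (nat_lit 128) .dd))) (.br (nat_lit 10) (.ch (nat_lit 5) (.fin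
 (nat_lit 576443709843260015))) (.ch (nat_lit 10) (.ev (nat_lit 2052) (nat_lit 4) (.ev (nat_lit 2061) (nat_lit
 128) .dd)))))))) (.br (nat_lit 9) (.ch (nat_lit 8) (.nd (nat_lit 992) (.br (nat_lit 7) (.br (nat_lit 2) (.ch
 (nat_lit 1) (.ev (nat_lit 1124) (nat_lit 1024) (.ev (nat_lit 1268) (nat_lit 128) (.ev (nat_lit 3444) (nat_lit
 4) (.ev (nat_lit 3453) (nat_lit 2048) .dd))))) (.br (nat_lit 5) (.ch (nat_lit 2) (.ev (nat_lit 1008) (nat_lit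
 2052) (.ev (nat_lit 1428) (nat_lit 128) (.ev (nat_lit 1437) (nat_lit 1024) .dd)))) (.ch (nat_lit 5) (.ev
 (nat_lit 1008) (nat_lit 1028) (.ev (nat_lit 1268) (nat_lit 128) (.ev (nat_lit 1277) (nat_lit 2048) .dd))))))
 (.br (nat_lit 9) (.br (nat_lit 8) (.ch (nat_lit 7) (.ev (nat_lit 1008) (nat_lit 3072) (.ev (nat_lit 2180)
 (nat_lit 4) (.ev (nat_lit 2189) (nat_lit 128) .dd)))) (.ch (nat_lit 8) (.ev (nat_lit 1008) (nat_lit 4) (.ev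
 (nat_lit 1124) (nat_lit 1024) (.ev (nat_lit 1716) (nat_lit 2048) (.ev (nat_lit 1725) (nat_lit 128) .dd))))))
 (.br (nat_lit 10) (.ch (nat_lit 9) (.ev (nat_lit 1008) (nat_lit 128) (.ev (nat_lit 3168) (nat_lit 4) (.fin
 (nat_lit 576562457072845332))))) (.ch (nat_lit 10) (.ev (nat_lit 1008) (nat_lit 1152) (.ev (nat_lit 1028)
 (nat_lit 4) (.ev (nat_lit 1037) (nat_lit 2048) .dd))))))))) (.ch (nat_lit 9) (.ev (nat_lit 500) (nat_lit 128)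
 (.nd (nat_lit 928) (.br (nat_lit 7) (.br (nat_lit 2) (.ch (nat_lit 1) (.ev (nat_lit 1156) (nat_lit 4) (.ev
 (nat_lit 1540) (nat_lit 2048) (.ev (nat_lit 1549) (nat_lit 1024) .dd)))) (.br (nat_lit 6) (.ch (nat_lit 2)
 (.ev (nat_lit 944) (nat_lit 1024) (.nd (nat_lit 4448) (.ch (nat_lit 2) (.fin (nat_lit 576445908630585929))))))
 (.ch (nat_lit 6) (.ev (nat_lit 944) (nat_lit 1028) (.ev (nat_lit 957) (nat_lit 2048) .dd))))) (.br (nat_lit 9)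
 (.ch (nat_lit 7) (.ev (nat_lit 944) (nat_lit 2048) (.nd (nat_lit 4224) (.br (nat_lit 10) (.ch (nat_lit 4) (.ev
 (nat_lit 4240) (nat_lit 4) (.ev (nat_lit 4253) (nat_lit 1024) .dd))) (.ch (nat_lit 10) (.fin (nat_lit
 576478894335935048))))))) (.br (nat_lit 10) (.ch (nat_lit 9) (.ev (nat_lit 944) (nat_lit 2048) (.ev (nat_lit
 2228) (nat_lit 4) (.ev (nat_lit 2237) (nat_lit 1024) .dd)))) (.ch (nat_lit 10) (.ev (nat_lit 944) (nat_lit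
 2052) (.ev (nat_lit 957) (nat_lit 1024) .dd)))))))))))))))) (.br (nat_lit 10) (.ch (nat_lit 9) (.ev (nat_lit
 80) (nat_lit 20) (.nd (nat_lit 384) (.br (nat_lit 6) (.br (nat_lit 2) (.ch (nat_lit 0) (.ev (nat_lit 400)
 (nat_lit 32) (.nd (nat_lit 928) (.br (nat_lit 4) (.br (nat_lit 2) (.ch (nat_lit 1) (.ev (nat_lit 944) (nat_lit
 1152) (.ev (nat_lit 2660) (nat_lit 2048) (.ev (nat_lit 2669) (nat_lit 256) .dd)))) (.br (nat_lit 3) (.ch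
 (nat_lit 2) (.ev (nat_lit 944) (nat_lit 2176) (.ev (nat_lit 1124) (nat_lit 1024) (.ev (nat_lit 1133) (nat_lit
 256) .dd)))) (.ch (nat_lit 3) (.ev (nat_lit 944) (nat_lit 2304) (.ev (nat_lit 1428) (nat_lit 128) (.ev
 (nat_lit 1437) (nat_lit 1024) .dd)))))) (.br (nat_lit 6) (.ch (nat_lit 4) (.ev (nat_lit 944) (nat_lit 256)
 (.ev (nat_lit 2948) (nat_lit 1024) (.nd (nat_lit 4960) (.br (nat_lit 7) (.ch (nat_lit 5) (.fin (nat_lit
 576587745932558989))) (.ch (nat_lit 7) (.ev (nat_lit 4996) (nat_lit 2048) (.ev (nat_lit 5005) (nat_lit 128)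
 .dd)))))))) (.br (nat_lit 10) (.ch (nat_lit 6) (.ev (nat_lit 1124) (nat_lit 1024) (.ev (nat_lit 1268) (nat_lit
 256) (.ev (nat_lit 2612) (nat_lit 2048) (.ev (nat_lit 2621) (nat_lit 128) .dd))))) (.ch (nat_lit 10) (.ev
 (nat_lit 944) (nat_lit 128) (.ev (nat_lit 1124) (nat_lit 2048) (.fin (nat_lit 576522874711917153)))))))))))
 (.br (nat_lit 5) (.ch (nat_lit 2) (.ev (nat_lit 400) (nat_lit 2048) (.ev (nat_lit 740) (nat_lit 32) (.nd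
 (nat_lit 1360) (.br (nat_lit 5) (.br (nat_lit 2) (.ch (nat_lit 0) (.ev (nat_lit 1652) (nat_lit 256) (.ev
 (nat_lit 2068) (nat_lit 128) (.ev (nat_lit 2077) (nat_lit 1024) .dd)))) (.br (nat_lit 3) (.ch (nat_lit 2) (.ev
 (nat_lit 1376) (nat_lit 256) (.ev (nat_lit 2068) (nat_lit 128) (.ev (nat_lit 2077) (nat_lit 1024) .dd)))) (.ch
 (nat_lit 3) (.ev (nat_lit 1652) (nat_lit 256) (.ev (nat_lit 2228) (nat_lit 1024) (.ev (nat_lit 2237) (nat_lit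
 128) .dd)))))) (.br (nat_lit 6) (.ch (nat_lit 5) (.ev (nat_lit 1376) (nat_lit 1024) (.ev (nat_lit 2052)
 (nat_lit 128) (.ev (nat_lit 2061) (nat_lit 256) .dd)))) (.br (nat_lit 9) (.ch (nat_lit 6) (.ev (nat_lit 1376)
 (nat_lit 384) (.ev (nat_lit 1389) (nat_lit 1024) .dd))) (.ch (nat_lit 9) (.ev (nat_lit 1376) (nat_lit 128)
 (.ev (nat_lit 1396) (nat_lit 1024) (.ev (nat_lit 1405) (nat_lit 256) .dd))))))))))) (.ch (nat_lit 5) (.ev
 (nat_lit 400) (nat_lit 3104) (.nd (nat_lit 3792) (.ch (nat_lit 8) (.nd (nat_lit 5536) (.br (nat_lit 10) (.ch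
 (nat_lit 6) (.fin (nat_lit 576399729421140522))) (.ch (nat_lit 10) (.ev (nat_lit 5700) (nat_lit 128) (.ev
 (nat_lit 5709) (nat_lit 256) .dd))))))))))) (.br (nat_lit 9) (.br (nat_lit 8) (.ch (nat_lit 6) (.ev (nat_lit
 400) (nat_lit 384) (.ev (nat_lit 740) (nat_lit 2048) (.ev (nat_lit 2756) (nat_lit 1024) (.ev (nat_lit 2765)
 (nat_lit 32) .dd))))) (.ch (nat_lit 8) (.ev (nat_lit 400) (nat_lit 32) (.ev (nat_lit 740) (nat_lit 128) (.nd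
 (nat_lit 928) (.br (nat_lit 3) (.br (nat_lit 1) (.ch (nat_lit 0) (.ev (nat_lit 944) (nat_lit 1024) (.fin
 (nat_lit 576399729351934440)))) (.br (nat_lit 2) (.ch (nat_lit 1) (.ev (nat_lit 944) (nat_lit 2304) (.ev
 (nat_lit 957) (nat_lit 1024) .dd))) (.ch (nat_lit 2) (.ev (nat_lit 1460) (nat_lit 256) (.ev (nat_lit 1588)
 (nat_lit 1024) (.ev (nat_lit 1597) (nat_lit 2048) .dd)))))) (.br (nat_lit 7) (.br (nat_lit 5) (.ch (nat_lit 3)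
 (.ev (nat_lit 944) (nat_lit 1024) (.ev (nat_lit 1044) (nat_lit 256) (.ev (nat_lit 1053) (nat_lit 2048) .dd))))
 (.ch (nat_lit 5) (.ev (nat_lit 944) (nat_lit 2048) (.ev (nat_lit 1268) (nat_lit 1024) (.ev (nat_lit 1277)
 (nat_lit 256) .dd))))) (.br (nat_lit 10) (.ch (nat_lit 7) (.ev (nat_lit 944) (nat_lit 3072) (.ev (nat_lit 957)
 (nat_lit 256) .dd))) (.ch (nat_lit 10) (.ev (nat_lit 944) (nat_lit 256) (.ev (nat_lit 1540) (nat_lit 1024)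
 (.ev (nat_lit 1549) (nat_lit 2048) .dd)))))))))))) (.br (nat_lit 10) (.ch (nat_lit 9) (.ev (nat_lit 400)
 (nat_lit 1024) (.ev (nat_lit 740) (nat_lit 128) (.nd (nat_lit 992) (.br (nat_lit 4) (.br (nat_lit 2) (.ch
 (nat_lit 1) (.ev (nat_lit 1008) (nat_lit 288) (.ev (nat_lit 1021) (nat_lit 2048) .dd))) (.br (nat_lit 3) (.ch
 (nat_lit 2) (.ev (nat_lit 1588) (nat_lit 32) (.fin (nat_lit 576643820828443199)))) (.ch (nat_lit 3) (.ev
 (nat_lit 1008) (nat_lit 2048) (.ev (nat_lit 2356) (nat_lit 256) (.ev (nat_lit 2365) (nat_lit 32) .dd))))))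
 (.br (nat_lit 6) (.ch (nat_lit 4) (.ev (nat_lit 1008) (nat_lit 2048) (.ev (nat_lit 1284) (nat_lit 32) (.ev
 (nat_lit 1293) (nat_lit 256) .dd)))) (.br (nat_lit 10) (.ch (nat_lit 6) (.ev (nat_lit 1652) (nat_lit 32) (.ev
 (nat_lit 3124) (nat_lit 2048) (.ev (nat_lit 3133) (nat_lit 256) .dd)))) (.ch (nat_lit 10) (.ev (nat_lit 1008)
 (nat_lit 2080) (.ev (nat_lit 1021) (nat_lit 256) .dd)))))))))) (.ch (nat_lit 10) (.ev (nat_lit 400) (nat_lit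
 2432) (.nd (nat_lit 3312) (.br (nat_lit 3) (.ch (nat_lit 0) (.ev (nat_lit 3364) (nat_lit 32) (.ev (nat_lit
 3373) (nat_lit 1024) .dd))) (.ch (nat_lit 3) (.ev (nat_lit 3364) (nat_lit 1024) (.ev (nat_lit 3373) (nat_lit
 32) .dd))))))))))))) (.ch (nat_lit 10) (.ev (nat_lit 80) (nat_lit 132) (.nd (nat_lit 384) (.br (nat_lit 4)
 (.br (nat_lit 1) (.ch (nat_lit 0) (.ev (nat_lit 400) (nat_lit 1280) (.nd (nat_lit 832) (.br (nat_lit 4) (.br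
 (nat_lit 1) (.ch (nat_lit 0) (.ev (nat_lit 1028) (nat_lit 16) (.ev (nat_lit 2228) (nat_lit 32) (.ev (nat_lit
 2237) (nat_lit 2048) .dd)))) (.ch (nat_lit 1) (.ev (nat_lit 848) (nat_lit 2048) (.ev (nat_lit 2900) (nat_lit
 16) (.ev (nat_lit 2909) (nat_lit 32) .dd))))) (.br (nat_lit 6) (.ch (nat_lit 4) (.ev (nat_lit 1028) (nat_lit
 16) (.ev (nat_lit 1428) (nat_lit 32) (.ev (nat_lit 1437) (nat_lit 2048) .dd)))) (.br (nat_lit 7) (.ch (nat_lit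
 6) (.ev (nat_lit 2704) (nat_lit 32) (.ev (nat_lit 4484) (nat_lit 2048) (.ev (nat_lit 4493) (nat_lit 16)
 .dd)))) (.ch (nat_lit 7) (.ev (nat_lit 848) (nat_lit 2048) (.ev (nat_lit 1044) (nat_lit 16) (.ev (nat_lit
 1053) (nat_lit 32) .dd)))))))))) (.br (nat_lit 2) (.ch (nat_lit 1) (.ev (nat_lit 400) (nat_lit 16) (.nd
 (nat_lit 832) (.br (nat_lit 6) (.br (nat_lit 1) (.ch (nat_lit 0) (.ev (nat_lit 848) (nat_lit 2304) (.ev
 (nat_lit 1508) (nat_lit 32) (.ev (nat_lit 1517) (nat_lit 1024) .dd)))) (.br (nat_lit 3) (.ch (nat_lit 1) (.ev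
 (nat_lit 848) (nat_lit 1056) (.ev (nat_lit 1028) (nat_lit 256) (.ev (nat_lit 1037) (nat_lit 2048) .dd)))) (.ch
 (nat_lit 3) (.ev (nat_lit 848) (nat_lit 3328) (.ev (nat_lit 861) (nat_lit 32) .dd))))) (.br (nat_lit 8) (.br
 (nat_lit 7) (.ch (nat_lit 6) (.ev (nat_lit 848) (nat_lit 1280) (.ev (nat_lit 1460) (nat_lit 32) (.ev (nat_lit
 1469) (nat_lit 2048) .dd)))) (.ch (nat_lit 7) (.ev (nat_lit 848) (nat_lit 32) (.ev (nat_lit 1472) (nat_lit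
 1024) (.fin (nat_lit 576522874687799882)))))) (.br (nat_lit 10) (.ch (nat_lit 8) (.ev (nat_lit 1428) (nat_lit
 288) (.ev (nat_lit 2468) (nat_lit 1024) (.ev (nat_lit 2477) (nat_lit 2048) .dd)))) (.ch (nat_lit 10) (.ev
 (nat_lit 848) (nat_lit 256) (.ev (nat_lit 1124) (nat_lit 1024) (.ev (nat_lit 1428) (nat_lit 32) (.ev (nat_lit
 1437) (nat_lit 2048) .dd))))))))))) (.ch (nat_lit 2) (.ev (nat_lit 400) (nat_lit 2080) (.nd (nat_lit 928) (.br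
 (nat_lit 6) (.br (nat_lit 1) (.ch (nat_lit 0) (.ev (nat_lit 944) (nat_lit 16) (.ev (nat_lit 3200) (nat_lit
 1280) .dd))) (.br (nat_lit 4) (.ch (nat_lit 1) (.ev (nat_lit 944) (nat_lit 256) (.ev (nat_lit 3412) (nat_lit
 1024) (.ev (nat_lit 3421) (nat_lit 16) .dd)))) (.ch (nat_lit 4) (.ev (nat_lit 944) (nat_lit 256) (.ev (nat_lit
 2500) (nat_lit 1024) (.ev (nat_lit 2509) (nat_lit 16) .dd)))))) (.br (nat_lit 7) (.ch (nat_lit 6) (.ev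
 (nat_lit 944) (nat_lit 1040) (.ev (nat_lit 957) (nat_lit 256) .dd))) (.br (nat_lit 10) (.ch (nat_lit 7) (.ev
 (nat_lit 944) (nat_lit 16) (.ev (nat_lit 3412) (nat_lit 1024) (.ev (nat_lit 3421) (nat_lit 256) .dd)))) (.ch
 (nat_lit 10) (.ev (nat_lit 944) (nat_lit 1024) (.ev (nat_lit 2148) (nat_lit 16) (.ev (nat_lit 2157) (nat_lit
 256) .dd)))))))))))) (.br (nat_lit 8) (.br (nat_lit 7) (.ch (nat_lit 4) (.ev (nat_lit 400) (nat_lit 48) (.ev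
 (nat_lit 548) (nat_lit 1024) (.nd (nat_lit 1360) (.br (nat_lit 8) (.br (nat_lit 3) (.ch (nat_lit 2) (.ev
 (nat_lit 2052) (nat_lit 2048) (.ev (nat_lit 2061) (nat_lit 256) .dd))) (.br (nat_lit 5) (.ch (nat_lit 3) (.ev
 (nat_lit 1376) (nat_lit 2304) .dd)) (.ch (nat_lit 5) (.ev (nat_lit 1376) (nat_lit 2048) (.ev (nat_lit 1389)
 (nat_lit 256) .dd))))) (.br (nat_lit 9) (.ch (nat_lit 8) (.ev (nat_lit 2052) (nat_lit 2048) (.ev (nat_lit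
 2061) (nat_lit 256) .dd))) (.br (nat_lit 10) (.ch (nat_lit 9) (.ev (nat_lit 1376) (nat_lit 256) (.ev (nat_lit
 1389) (nat_lit 2048) .dd))) (.ch (nat_lit 10) (.ev (nat_lit 1376) (nat_lit 2304) .dd))))))))) (.ch (nat_lit 7)
 (.ev (nat_lit 400) (nat_lit 3072) (.nd (nat_lit 1232) (.br (nat_lit 5) (.br (nat_lit 4) (.ch (nat_lit 1) (.ev
 (nat_lit 1248) (nat_lit 272) (.ev (nat_lit 1261) (nat_lit 32) .dd))) (.ch (nat_lit 4) (.ev (nat_lit 1248)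
 (nat_lit 48) (.ev (nat_lit 1261) (nat_lit 256) .dd)))) (.br (nat_lit 7) (.ch (nat_lit 5) (.ev (nat_lit 1248)
 (nat_lit 48) (.ev (nat_lit 1261) (nat_lit 256) .dd))) (.br (nat_lit 8) (.ch (nat_lit 7) (.ev (nat_lit 1428)
 (nat_lit 32) (.fin (nat_lit 576399729399120405)))) (.ch (nat_lit 8) (.ev (nat_lit 1248) (nat_lit 256) (.ev
 (nat_lit 2260) (nat_lit 32) (.ev (nat_lit 2269) (nat_lit 16) .dd))))))))))) (.br (nat_lit 10) (.ch (nat_lit 8)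
 (.ev (nat_lit 400) (nat_lit 1024) (.nd (nat_lit 832) (.br (nat_lit 3) (.br (nat_lit 1) (.ch (nat_lit 0) (.ev
 (nat_lit 1316) (nat_lit 16) (.ev (nat_lit 4052) (nat_lit 2048) (.nd (nat_lit 4640) (.br (nat_lit 8) (.ch
 (nat_lit 1) (.ev (nat_lit 4656) (nat_lit 256) (.ev (nat_lit 4669) (nat_lit 32) .dd))) (.br (nat_lit 9) (.ch
 (nat_lit 8) (.ev (nat_lit 4656) (nat_lit 256) (.ev (nat_lit 4669) (nat_lit 32) .dd))) (.ch (nat_lit 9) (.fin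
 (nat_lit 576399729456792140))))))))) (.br (nat_lit 2) (.ch (nat_lit 1) (.ev (nat_lit 848) (nat_lit 2080) (.ev
 (nat_lit 2192) (nat_lit 256) (.ev (nat_lit 2205) (nat_lit 16) .dd)))) (.ch (nat_lit 2) (.ev (nat_lit 848)
 (nat_lit 288) (.ev (nat_lit 1140) (nat_lit 2048) (.ev (nat_lit 1149) (nat_lit 16) .dd)))))) (.br (nat_lit 8)
 (.br (nat_lit 6) (.ch (nat_lit 3) (.ev (nat_lit 848) (nat_lit 2048) (.ev (nat_lit 1508) (nat_lit 16) (.nd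
 (nat_lit 4768) (.br (nat_lit 8) (.ch (nat_lit 2) (.ev (nat_lit 4784) (nat_lit 256) (.ev (nat_lit 4797)
 (nat_lit 32) .dd))) (.ch (nat_lit 8) (.fin (nat_lit 576648218933674505)))))))) (.ch (nat_lit 6) (.ev (nat_lit
 848) (nat_lit 304) (.ev (nat_lit 861) (nat_lit 2048) .dd)))) (.br (nat_lit 10) (.ch (nat_lit 8) (.ev (nat_lit
 848) (nat_lit 32) (.ev (nat_lit 868) (nat_lit 16) (.ev (nat_lit 1140) (nat_lit 2048) (.ev (nat_lit 1149)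
 (nat_lit 256) .dd))))) (.ch (nat_lit 10) (.ev (nat_lit 848) (nat_lit 272) (.ev (nat_lit 1540) (nat_lit 2048)
 (.ev (nat_lit 1549) (nat_lit 32) .dd)))))))))) (.ch (nat_lit 10) (.ev (nat_lit 400) (nat_lit 288) (.nd
 (nat_lit 928) (.br (nat_lit 8) (.br (nat_lit 2) (.ch (nat_lit 1) (.ev (nat_lit 3300) (nat_lit 1024) (.ev
 (nat_lit 3412) (nat_lit 16) (.ev (nat_lit 3421) (nat_lit 2048) .dd)))) (.br (nat_lit 3) (.ch (nat_lit 2) (.ev
 (nat_lit 944) (nat_lit 1024) (.ev (nat_lit 1684) (nat_lit 16) (.ev (nat_lit 1693) (nat_lit 2048) .dd)))) (.ch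
 (nat_lit 3) (.ev (nat_lit 944) (nat_lit 2048) (.ev (nat_lit 1300) (nat_lit 16) (.ev (nat_lit 1309) (nat_lit
 1024) .dd)))))) (.br (nat_lit 9) (.ch (nat_lit 8) (.ev (nat_lit 944) (nat_lit 16) (.ev (nat_lit 3364) (nat_lit
 2048) (.ev (nat_lit 3373) (nat_lit 1024) .dd)))) (.br (nat_lit 10) (.ch (nat_lit 9) (.ev (nat_lit 944)
 (nat_lit 1024) (.ev (nat_lit 1028) (nat_lit 16) (.ev (nat_lit 1037) (nat_lit 2048) .dd)))) (.ch (nat_lit 10)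
 (.ev (nat_lit 944) (nat_lit 16) (.ev (nat_lit 1396) (nat_lit 1024) (.ev (nat_lit 1405) (nat_lit 2048)
 .dd)))))))))))))))))))))) (.ch (nat_lit 2) (.ev (nat_lit 48) (nat_lit 2304) (.nd (nat_lit 320) (.br (nat_lit
 7) (.br (nat_lit 2) (.ch (nat_lit 1) (.ev (nat_lit 336) (nat_lit 16) (.nd (nat_lit 640) (.br (nat_lit 6) (.br
 (nat_lit 3) (.ch (nat_lit 2) (.ev (nat_lit 656) (nat_lit 1124) (.ev (nat_lit 669) (nat_lit 128) .dd))) (.br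
 (nat_lit 5) (.ch (nat_lit 3) (.ev (nat_lit 656) (nat_lit 36) (.ev (nat_lit 740) (nat_lit 1024) (.ev (nat_lit
 820) (nat_lit 64) (.ev (nat_lit 829) (nat_lit 128) .dd))))) (.ch (nat_lit 5) (.ev (nat_lit 740) (nat_lit 32)
 (.nd (nat_lit 1088) (.br (nat_lit 6) (.br (nat_lit 3) (.ch (nat_lit 2) (.ev (nat_lit 1104) (nat_lit 1216) (.ev
 (nat_lit 1117) (nat_lit 4) .dd))) (.br (nat_lit 4) (.ch (nat_lit 3) (.ev (nat_lit 1104) (nat_lit 128) (.ev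
 (nat_lit 1284) (nat_lit 4) (.fin (nat_lit 576465700185915900))))) (.ch (nat_lit 4) (.ev (nat_lit 1104)
 (nat_lit 1216) (.ev (nat_lit 1117) (nat_lit 4) .dd))))) (.br (nat_lit 8) (.br (nat_lit 7) (.ch (nat_lit 6)
 (.ev (nat_lit 1104) (nat_lit 1024) (.ev (nat_lit 1284) (nat_lit 64) (.ev (nat_lit 2228) (nat_lit 4) (.ev
 (nat_lit 2237) (nat_lit 128) .dd))))) (.ch (nat_lit 7) (.nd (nat_lit 4384) (.br (nat_lit 7) (.ch (nat_lit 4)
 (.ev (nat_lit 4400) (nat_lit 1152) (.fin (nat_lit 576412923517682243)))) (.ch (nat_lit 7) (.ev (nat_lit 4400)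
 (nat_lit 68) (.fin (nat_lit 576378838618423915)))))))) (.br (nat_lit 10) (.ch (nat_lit 8) (.ev (nat_lit 1104)
 (nat_lit 132) (.ev (nat_lit 2788) (nat_lit 1024) (.ev (nat_lit 2797) (nat_lit 64) .dd)))) (.ch (nat_lit 10)
 (.ev (nat_lit 1104) (nat_lit 1028) (.nd (nat_lit 5552) (.ch (nat_lit 7) (.fin (nat_lit
 576518476687426122)))))))))))))) (.br (nat_lit 8) (.br (nat_lit 7) (.ch (nat_lit 6) (.ev (nat_lit 656)
 (nat_lit 96) (.nd (nat_lit 1088) (.br (nat_lit 6) (.br (nat_lit 2) (.ch (nat_lit 0) (.ev (nat_lit 1104)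
 (nat_lit 1024) (.ev (nat_lit 1460) (nat_lit 4) (.ev (nat_lit 1469) (nat_lit 128) .dd)))) (.br (nat_lit 3) (.ch
 (nat_lit 2) (.ev (nat_lit 2192) (nat_lit 128) (.fin (nat_lit 576320564609106432)))) (.ch (nat_lit 3) (.ev
 (nat_lit 1104) (nat_lit 132) (.ev (nat_lit 1117) (nat_lit 1024) .dd))))) (.br (nat_lit 7) (.ch (nat_lit 6)
 (.ev (nat_lit 1104) (nat_lit 128) (.ev (nat_lit 1408) (nat_lit 1028) .dd))) (.br (nat_lit 8) (.ch (nat_lit 7)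
 (.ev (nat_lit 1104) (nat_lit 128) (.ev (nat_lit 1124) (nat_lit 1024) (.ev (nat_lit 1133) (nat_lit 4) .dd))))
 (.ch (nat_lit 8) (.ev (nat_lit 1104) (nat_lit 1028) (.ev (nat_lit 1117) (nat_lit 128) .dd))))))))) (.ch
 (nat_lit 7) (.ev (nat_lit 656) (nat_lit 192) (.ev (nat_lit 740) (nat_lit 1024) (.nd (nat_lit 3792) (.br
 (nat_lit 3) (.br (nat_lit 2) (.ch (nat_lit 0) (.ev (nat_lit 3808) (nat_lit 4) (.ev (nat_lit 3821) (nat_lit 32)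
 .dd))) (.ch (nat_lit 2) (.ev (nat_lit 3828) (nat_lit 4) (.ev (nat_lit 3837) (nat_lit 32) .dd)))) (.br (nat_lit
 6) (.ch (nat_lit 3) (.ev (nat_lit 3808) (nat_lit 36) .dd)) (.br (nat_lit 10) (.ch (nat_lit 6) (.ev (nat_lit
 3808) (nat_lit 36) .dd)) (.ch (nat_lit 10) (.fin (nat_lit 576399729412751851))))))))))) (.br (nat_lit 10) (.ch
 (nat_lit 8) (.ev (nat_lit 656) (nat_lit 1028) (.ev (nat_lit 884) (nat_lit 64) (.ev (nat_lit 3028) (nat_lit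
 128) (.ev (nat_lit 3037) (nat_lit 32) .dd))))) (.ch (nat_lit 10) (.ev (nat_lit 656) (nat_lit 128) (.nd
 (nat_lit 1088) (.br (nat_lit 5) (.br (nat_lit 2) (.ch (nat_lit 1) (.ev (nat_lit 1268) (nat_lit 4) (.ev
 (nat_lit 1284) (nat_lit 64) (.ev (nat_lit 1508) (nat_lit 32) (.ev (nat_lit 1517) (nat_lit 1024) .dd))))) (.br
 (nat_lit 3) (.ch (nat_lit 2) (.ev (nat_lit 1104) (nat_lit 96) (.ev (nat_lit 1268) (nat_lit 1024) (.ev (nat_lit
 1277) (nat_lit 4) .dd)))) (.ch (nat_lit 3) (.ev (nat_lit 1104) (nat_lit 4) (.ev (nat_lit 2116) (nat_lit 1024)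
 (.nd (nat_lit 5296) (.br (nat_lit 10) (.ch (nat_lit 6) (.ev (nat_lit 5332) (nat_lit 32) (.ev (nat_lit 5341)
 (nat_lit 64) .dd))) (.ch (nat_lit 10) (.fin (nat_lit 576212812475875791)))))))))) (.br (nat_lit 7) (.br
 (nat_lit 6) (.ch (nat_lit 5) (.ev (nat_lit 1104) (nat_lit 36) (.ev (nat_lit 1268) (nat_lit 1024) (.ev (nat_lit
 1277) (nat_lit 64) .dd)))) (.ch (nat_lit 6) (.ev (nat_lit 1104) (nat_lit 1056) (.ev (nat_lit 2692) (nat_lit 4)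
 (.ev (nat_lit 2701) (nat_lit 64) .dd))))) (.br (nat_lit 9) (.ch (nat_lit 7) (.ev (nat_lit 1104) (nat_lit 68)
 (.ev (nat_lit 1396) (nat_lit 32) (.ev (nat_lit 1405) (nat_lit 1024) .dd)))) (.ch (nat_lit 9) (.ev (nat_lit
 1104) (nat_lit 1028) (.ev (nat_lit 1268) (nat_lit 64) (.ev (nat_lit 1277) (nat_lit 32) .dd))))))))))))))))
 (.br (nat_lit 6) (.ch (nat_lit 2) (.ev (nat_lit 336) (nat_lit 116) (.nd (nat_lit 704) (.br (nat_lit 7) (.br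
 (nat_lit 4) (.ch (nat_lit 2) (.nd (nat_lit 1360) (.br (nat_lit 7) (.br (nat_lit 3) (.ch (nat_lit 1) (.ev
 (nat_lit 1488) (nat_lit 1152) .dd)) (.br (nat_lit 6) (.ch (nat_lit 3) (.ev (nat_lit 1376) (nat_lit 1024) (.ev
 (nat_lit 1389) (nat_lit 128) .dd))) (.ch (nat_lit 6) (.ev (nat_lit 1376) (nat_lit 1152) .dd)))) (.br (nat_lit
 8) (.ch (nat_lit 7) (.nd (nat_lit 4720) (.br (nat_lit 9) (.ch (nat_lit 8) (.ev (nat_lit 4736) (nat_lit 1024)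
 (.ev (nat_lit 4749) (nat_lit 128) .dd))) (.ch (nat_lit 9) (.fin (nat_lit 576245797896012329)))))) (.br
 (nat_lit 9) (.ch (nat_lit 8) (.ev (nat_lit 1376) (nat_lit 1024) (.ev (nat_lit 1389) (nat_lit 128) .dd))) (.ch
 (nat_lit 9) (.ev (nat_lit 1376) (nat_lit 128) (.ev (nat_lit 1389) (nat_lit 1024) .dd)))))))) (.br (nat_lit 6)
 (.ch (nat_lit 4) (.nd (nat_lit 3792) (.br (nat_lit 4) (.br (nat_lit 2) (.ch (nat_lit 0) (.ev (nat_lit 3808)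
 (nat_lit 1152) .dd)) (.ch (nat_lit 2) (.ev (nat_lit 3808) (nat_lit 1024) (.ev (nat_lit 3821) (nat_lit 128)
 .dd)))) (.br (nat_lit 7) (.ch (nat_lit 4) (.fin (nat_lit 576507481478873707))) (.ch (nat_lit 7) (.ev (nat_lit
 3828) (nat_lit 128) (.ev (nat_lit 3837) (nat_lit 1024) .dd))))))) (.ch (nat_lit 6) (.ev (nat_lit 720) (nat_lit
 128) (.ev (nat_lit 733) (nat_lit 1024) .dd))))) (.br (nat_lit 8) (.ch (nat_lit 7) (.nd (nat_lit 1360) (.br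
 (nat_lit 9) (.br (nat_lit 8) (.ch (nat_lit 5) (.ev (nat_lit 3044) (nat_lit 128) (.ev (nat_lit 3053) (nat_lit
 1024) .dd))) (.ch (nat_lit 8) (.ev (nat_lit 1376) (nat_lit 128) (.ev (nat_lit 1389) (nat_lit 1024) .dd))))
 (.br (nat_lit 10) (.ch (nat_lit 9) (.ev (nat_lit 1376) (nat_lit 1024) (.ev (nat_lit 1389) (nat_lit 128) .dd)))
 (.ch (nat_lit 10) (.ev (nat_lit 3044) (nat_lit 128) (.ev (nat_lit 3053) (nat_lit 1024) .dd))))))) (.br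
 (nat_lit 9) (.ch (nat_lit 8) (.ev (nat_lit 720) (nat_lit 128) (.ev (nat_lit 733) (nat_lit 1024) .dd))) (.ch
 (nat_lit 9) (.ev (nat_lit 720) (nat_lit 1024) (.ev (nat_lit 733) (nat_lit 128) .dd))))))))) (.ch (nat_lit 6)
 (.ev (nat_lit 336) (nat_lit 1088) (.nd (nat_lit 640) (.br (nat_lit 6) (.br (nat_lit 2) (.ch (nat_lit 0) (.ev
 (nat_lit 656) (nat_lit 48) (.nd (nat_lit 1088) (.br (nat_lit 4) (.ch (nat_lit 3) (.ev (nat_lit 1124) (nat_lit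
 128) (.ev (nat_lit 1133) (nat_lit 4) .dd))) (.br (nat_lit 7) (.ch (nat_lit 4) (.ev (nat_lit 1716) (nat_lit
 128) (.ev (nat_lit 1725) (nat_lit 4) .dd))) (.ch (nat_lit 7) (.ev (nat_lit 1124) (nat_lit 128) (.ev (nat_lit
 1133) (nat_lit 4) .dd)))))))) (.br (nat_lit 3) (.ch (nat_lit 2) (.ev (nat_lit 656) (nat_lit 32) (.nd (nat_lit
 1088) (.br (nat_lit 6) (.br (nat_lit 1) (.ch (nat_lit 0) (.ev (nat_lit 1104) (nat_lit 20) (.ev (nat_lit 1117)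
 (nat_lit 128) .dd))) (.br (nat_lit 3) (.ch (nat_lit 1) (.ev (nat_lit 1124) (nat_lit 16) (.ev (nat_lit 1268)
 (nat_lit 128) (.ev (nat_lit 1277) (nat_lit 4) .dd)))) (.ch (nat_lit 3) (.ev (nat_lit 1652) (nat_lit 128) (.nd
 (nat_lit 4448) (.br (nat_lit 6) (.ch (nat_lit 0) (.ev (nat_lit 4692) (nat_lit 16) (.ev (nat_lit 4701) (nat_lit
 4) .dd))) (.br (nat_lit 9) (.ch (nat_lit 6) (.ev (nat_lit 4464) (nat_lit 16) (.ev (nat_lit 4477) (nat_lit 4)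
 .dd))) (.ch (nat_lit 9) (.fin (nat_lit 576476695214113357)))))))))) (.br (nat_lit 9) (.br (nat_lit 7) (.ch
 (nat_lit 6) (.ev (nat_lit 1104) (nat_lit 128) (.ev (nat_lit 2516) (nat_lit 16) (.ev (nat_lit 2525) (nat_lit 4)
 .dd)))) (.ch (nat_lit 7) (.ev (nat_lit 1104) (nat_lit 20) (.ev (nat_lit 1117) (nat_lit 128) .dd)))) (.br
 (nat_lit 10) (.ch (nat_lit 9) (.ev (nat_lit 2052) (nat_lit 128) (.ev (nat_lit 2080) (nat_lit 20) .dd))) (.ch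
 (nat_lit 10) (.ev (nat_lit 1104) (nat_lit 132) (.ev (nat_lit 1117) (nat_lit 16) .dd))))))))) (.ch (nat_lit 3)
 (.ev (nat_lit 656) (nat_lit 4) (.nd (nat_lit 1232) (.br (nat_lit 3) (.br (nat_lit 1) (.ch (nat_lit 0) (.ev
 (nat_lit 1248) (nat_lit 16) (.ev (nat_lit 2000) (nat_lit 160) .dd))) (.br (nat_lit 2) (.ch (nat_lit 1) (.ev
 (nat_lit 1248) (nat_lit 144) (.ev (nat_lit 1261) (nat_lit 32) .dd))) (.ch (nat_lit 2) (.ev (nat_lit 1248)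
 (nat_lit 32) (.ev (nat_lit 1460) (nat_lit 128) (.ev (nat_lit 1469) (nat_lit 16) .dd)))))) (.br (nat_lit 8)
 (.br (nat_lit 5) (.ch (nat_lit 3) (.ev (nat_lit 1268) (nat_lit 32) (.ev (nat_lit 2724) (nat_lit 16) (.ev
 (nat_lit 2733) (nat_lit 128) .dd)))) (.ch (nat_lit 5) (.ev (nat_lit 1248) (nat_lit 32) (.ev (nat_lit 1268)
 (nat_lit 128) (.ev (nat_lit 1277) (nat_lit 16) .dd))))) (.br (nat_lit 9) (.ch (nat_lit 8) (.ev (nat_lit 1248)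
 (nat_lit 128) (.ev (nat_lit 1268) (nat_lit 32) (.ev (nat_lit 1277) (nat_lit 16) .dd)))) (.ch (nat_lit 9) (.ev
 (nat_lit 1248) (nat_lit 128) (.ev (nat_lit 1616) (nat_lit 16) (.ev (nat_lit 1629) (nat_lit 32) .dd))))))))))))
 (.br (nat_lit 8) (.br (nat_lit 7) (.ch (nat_lit 6) (.ev (nat_lit 676) (nat_lit 128) (.nd (nat_lit 1088) (.br
 (nat_lit 5) (.br (nat_lit 2) (.ch (nat_lit 1) (.ev (nat_lit 1104) (nat_lit 20) (.ev (nat_lit 1117) (nat_lit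
 32) .dd))) (.ch (nat_lit 2) (.ev (nat_lit 1104) (nat_lit 32) (.ev (nat_lit 1540) (nat_lit 4) (.ev (nat_lit
 1549) (nat_lit 16) .dd))))) (.br (nat_lit 6) (.ch (nat_lit 5) (.ev (nat_lit 1124) (nat_lit 16) (.ev (nat_lit
 1684) (nat_lit 4) (.ev (nat_lit 1693) (nat_lit 32) .dd)))) (.br (nat_lit 7) (.ch (nat_lit 6) (.ev (nat_lit
 1104) (nat_lit 20) (.ev (nat_lit 1117) (nat_lit 32) .dd))) (.ch (nat_lit 7) (.ev (nat_lit 1104) (nat_lit 48)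
 (.ev (nat_lit 1117) (nat_lit 4) .dd))))))))) (.ch (nat_lit 7) (.ev (nat_lit 656) (nat_lit 128) (.nd (nat_lit
 1088) (.br (nat_lit 3) (.br (nat_lit 1) (.ch (nat_lit 0) (.ev (nat_lit 1104) (nat_lit 36) (.ev (nat_lit 1117)
 (nat_lit 16) .dd))) (.br (nat_lit 2) (.ch (nat_lit 1) (.ev (nat_lit 1104) (nat_lit 36) (.ev (nat_lit 1117)
 (nat_lit 16) .dd))) (.ch (nat_lit 2) (.ev (nat_lit 1104) (nat_lit 32) (.ev (nat_lit 1460) (nat_lit 4) (.ev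
 (nat_lit 1469) (nat_lit 16) .dd)))))) (.br (nat_lit 6) (.br (nat_lit 4) (.ch (nat_lit 3) (.ev (nat_lit 1104)
 (nat_lit 16) (.ev (nat_lit 1428) (nat_lit 4) (.ev (nat_lit 1437) (nat_lit 32) .dd)))) (.ch (nat_lit 4) (.ev
 (nat_lit 1104) (nat_lit 20) (.ev (nat_lit 1117) (nat_lit 32) .dd)))) (.br (nat_lit 7) (.ch (nat_lit 6) (.ev
 (nat_lit 1284) (nat_lit 4) (.ev (nat_lit 2052) (nat_lit 32) (.ev (nat_lit 2061) (nat_lit 16) .dd)))) (.ch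
 (nat_lit 7) (.ev (nat_lit 2756) (nat_lit 32) (.nd (nat_lit 5472) (.ch (nat_lit 6) (.nd (nat_lit 6176) (.br
 (nat_lit 5) (.ch (nat_lit 2) (.fin (nat_lit 576436013265011303))) (.ch (nat_lit 5) (.ev (nat_lit 6192)
 (nat_lit 20) .dd))))))))))))))) (.br (nat_lit 9) (.ch (nat_lit 8) (.ev (nat_lit 656) (nat_lit 148) (.ev
 (nat_lit 669) (nat_lit 32) .dd))) (.ch (nat_lit 9) (.ev (nat_lit 656) (nat_lit 20) (.nd (nat_lit 4160) (.br
 (nat_lit 5) (.ch (nat_lit 3) (.ev (nat_lit 4176) (nat_lit 160) .dd)) (.br (nat_lit 6) (.ch (nat_lit 5) (.fin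
 (nat_lit 576462401572389440))) (.ch (nat_lit 6) (.ev (nat_lit 4176) (nat_lit 160) .dd))))))))))))))) (.br
 (nat_lit 9) (.br (nat_lit 8) (.ch (nat_lit 7) (.ev (nat_lit 336) (nat_lit 1024) (.nd (nat_lit 704) (.br
 (nat_lit 5) (.br (nat_lit 3) (.ch (nat_lit 2) (.ev (nat_lit 720) (nat_lit 128) (.nd (nat_lit 992) (.br
 (nat_lit 5) (.br (nat_lit 3) (.ch (nat_lit 0) (.ev (nat_lit 1008) (nat_lit 100) (.ev (nat_lit 1021) (nat_lit
 16) .dd))) (.br (nat_lit 4) (.ch (nat_lit 3) (.ev (nat_lit 1268) (nat_lit 4) (.ev (nat_lit 1428) (nat_lit 16)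
 (.ev (nat_lit 1600) (nat_lit 32) (.ev (nat_lit 1613) (nat_lit 64) .dd))))) (.ch (nat_lit 4) (.ev (nat_lit
 1008) (nat_lit 16) (.ev (nat_lit 1588) (nat_lit 64) (.ev (nat_lit 2384) (nat_lit 32) (.ev (nat_lit 2397)
 (nat_lit 4) .dd))))))) (.br (nat_lit 8) (.br (nat_lit 7) (.ch (nat_lit 5) (.ev (nat_lit 1008) (nat_lit 84)
 (.ev (nat_lit 1021) (nat_lit 32) .dd))) (.ch (nat_lit 7) (.ev (nat_lit 1008) (nat_lit 16) (.ev (nat_lit 1124)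
 (nat_lit 64) (.ev (nat_lit 1268) (nat_lit 4) (.ev (nat_lit 1277) (nat_lit 32) .dd)))))) (.br (nat_lit 9) (.ch
 (nat_lit 8) (.ev (nat_lit 1008) (nat_lit 112) (.ev (nat_lit 1021) (nat_lit 4) .dd))) (.ch (nat_lit 9) (.ev
 (nat_lit 1008) (nat_lit 4) (.ev (nat_lit 1124) (nat_lit 64) (.nd (nat_lit 5440) (.br (nat_lit 7) (.ch (nat_lit
 1) (.ev (nat_lit 5456) (nat_lit 32) (.ev (nat_lit 5469) (nat_lit 16) .dd))) (.br (nat_lit 9) (.ch (nat_lit 7)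
 (.ev (nat_lit 5456) (nat_lit 32) (.ev (nat_lit 5469) (nat_lit 16) .dd))) (.ch (nat_lit 9) (.fin (nat_lit
 576470098094015082))))))))))))))) (.br (nat_lit 4) (.ch (nat_lit 3) (.ev (nat_lit 720) (nat_lit 16) (.nd
 (nat_lit 992) (.br (nat_lit 7) (.br (nat_lit 1) (.ch (nat_lit 0) (.ev (nat_lit 1008) (nat_lit 128) (.ev
 (nat_lit 1268) (nat_lit 4) (.ev (nat_lit 1540) (nat_lit 32) (.ev (nat_lit 1549) (nat_lit 64) .dd))))) (.br
 (nat_lit 6) (.ch (nat_lit 1) (.ev (nat_lit 1008) (nat_lit 64) (.ev (nat_lit 1268) (nat_lit 4) (.ev (nat_lit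
 1300) (nat_lit 128) (.ev (nat_lit 1309) (nat_lit 32) .dd))))) (.ch (nat_lit 6) (.ev (nat_lit 1008) (nat_lit
 36) (.nd (nat_lit 5760) (.ch (nat_lit 9) (.fin (nat_lit 576332659182485997)))))))) (.br (nat_lit 8) (.ch
 (nat_lit 7) (.ev (nat_lit 1008) (nat_lit 68) (.ev (nat_lit 2148) (nat_lit 128) (.ev (nat_lit 2157) (nat_lit
 32) .dd)))) (.br (nat_lit 9) (.ch (nat_lit 8) (.ev (nat_lit 1008) (nat_lit 160) (.fin (nat_lit
 576466799650357821)))) (.ch (nat_lit 9) (.ev (nat_lit 1008) (nat_lit 32) (.ev (nat_lit 1268) (nat_lit 4) (.ev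
 (nat_lit 2756) (nat_lit 128) (.ev (nat_lit 2765) (nat_lit 64) .dd))))))))))) (.ch (nat_lit 4) (.ev (nat_lit
 720) (nat_lit 128) (.nd (nat_lit 1088) (.br (nat_lit 5) (.br (nat_lit 4) (.ch (nat_lit 2) (.ev (nat_lit 1104)
 (nat_lit 68) (.ev (nat_lit 1396) (nat_lit 16) (.ev (nat_lit 1405) (nat_lit 32) .dd)))) (.ch (nat_lit 4) (.ev
 (nat_lit 1460) (nat_lit 16) (.ev (nat_lit 1940) (nat_lit 4) (.ev (nat_lit 3892) (nat_lit 64) (.ev (nat_lit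
 3901) (nat_lit 32) .dd)))))) (.br (nat_lit 8) (.ch (nat_lit 5) (.ev (nat_lit 1104) (nat_lit 96) (.ev (nat_lit
 1460) (nat_lit 16) (.ev (nat_lit 1469) (nat_lit 4) .dd)))) (.br (nat_lit 10) (.ch (nat_lit 8) (.ev (nat_lit
 1104) (nat_lit 48) (.fin (nat_lit 576416222125965884)))) (.ch (nat_lit 10) (.ev (nat_lit 1104) (nat_lit 48)
 (.ev (nat_lit 3508) (nat_lit 64) (.ev (nat_lit 3517) (nat_lit 4) .dd)))))))))))) (.br (nat_lit 9) (.br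
 (nat_lit 7) (.ch (nat_lit 5) (.ev (nat_lit 720) (nat_lit 32) (.nd (nat_lit 992) (.br (nat_lit 5) (.br (nat_lit
 2) (.ch (nat_lit 1) (.ev (nat_lit 1008) (nat_lit 192) (.ev (nat_lit 3492) (nat_lit 16) (.ev (nat_lit 3501)
 (nat_lit 4) .dd)))) (.br (nat_lit 4) (.ch (nat_lit 2) (.nd (nat_lit 4224) (.br (nat_lit 5) (.ch (nat_lit 2)
 (.ev (nat_lit 4240) (nat_lit 148) (.ev (nat_lit 4253) (nat_lit 64) .dd))) (.br (nat_lit 6) (.ch (nat_lit 5)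
 (.ev (nat_lit 4240) (nat_lit 132) (.fin (nat_lit 576558059036819976)))) (.ch (nat_lit 6) (.ev (nat_lit 4240)
 (nat_lit 80) (.fin (nat_lit 576291977331950247)))))))) (.ch (nat_lit 4) (.ev (nat_lit 1008) (nat_lit 20) (.ev
 (nat_lit 1472) (nat_lit 128) (.ev (nat_lit 1485) (nat_lit 64) .dd)))))) (.br (nat_lit 7) (.br (nat_lit 6) (.ch
 (nat_lit 5) (.ev (nat_lit 1008) (nat_lit 148) (.ev (nat_lit 1021) (nat_lit 64) .dd))) (.ch (nat_lit 6) (.ev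
 (nat_lit 1008) (nat_lit 192) (.ev (nat_lit 1652) (nat_lit 4) (.ev (nat_lit 1661) (nat_lit 16) .dd))))) (.br
 (nat_lit 9) (.ch (nat_lit 7) (.ev (nat_lit 1008) (nat_lit 64) (.ev (nat_lit 1428) (nat_lit 16) (.ev (nat_lit
 1652) (nat_lit 128) (.ev (nat_lit 1661) (nat_lit 4) .dd))))) (.ch (nat_lit 9) (.ev (nat_lit 1008) (nat_lit 64)
 (.ev (nat_lit 2564) (nat_lit 4) (.ev (nat_lit 3076) (nat_lit 16) (.ev (nat_lit 3085) (nat_lit 128)
 .dd))))))))))) (.ch (nat_lit 7) (.ev (nat_lit 720) (nat_lit 196) (.nd (nat_lit 1360) (.br (nat_lit 4) (.br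
 (nat_lit 3) (.ch (nat_lit 2) (.fin (nat_lit 576441510928007773))) (.ch (nat_lit 3) (.ev (nat_lit 1588)
 (nat_lit 32) (.ev (nat_lit 1597) (nat_lit 16) .dd)))) (.br (nat_lit 5) (.ch (nat_lit 4) (.ev (nat_lit 1428)
 (nat_lit 32) (.ev (nat_lit 1437) (nat_lit 16) .dd))) (.br (nat_lit 8) (.ch (nat_lit 5) (.ev (nat_lit 1716)
 (nat_lit 32) (.ev (nat_lit 1725) (nat_lit 16) .dd))) (.ch (nat_lit 8) (.ev (nat_lit 2640) (nat_lit 16) (.ev
 (nat_lit 2653) (nat_lit 32) .dd)))))))))) (.br (nat_lit 10) (.ch (nat_lit 9) (.ev (nat_lit 720) (nat_lit 84)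
 (.nd (nat_lit 992) (.br (nat_lit 7) (.br (nat_lit 5) (.ch (nat_lit 3) (.ev (nat_lit 1008) (nat_lit 32) (.ev
 (nat_lit 1021) (nat_lit 128) .dd))) (.br (nat_lit 6) (.ch (nat_lit 5) (.ev (nat_lit 1008) (nat_lit 128) (.ev
 (nat_lit 1021) (nat_lit 32) .dd))) (.ch (nat_lit 6) (.ev (nat_lit 1984) (nat_lit 160) .dd)))) (.br (nat_lit 8)
 (.ch (nat_lit 7) (.ev (nat_lit 1008) (nat_lit 32) (.ev (nat_lit 1021) (nat_lit 128) .dd))) (.br (nat_lit 10)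
 (.ch (nat_lit 8) (.ev (nat_lit 1008) (nat_lit 128) (.ev (nat_lit 1021) (nat_lit 32) .dd))) (.ch (nat_lit 10)
 (.ev (nat_lit 1284) (nat_lit 128) (.ev (nat_lit 1293) (nat_lit 32) .dd))))))))) (.ch (nat_lit 10) (.ev
 (nat_lit 720) (nat_lit 48) (.nd (nat_lit 1088) (.br (nat_lit 6) (.br (nat_lit 3) (.ch (nat_lit 2) (.ev
 (nat_lit 1124) (nat_lit 128) (.ev (nat_lit 1268) (nat_lit 64) (.ev (nat_lit 1277) (nat_lit 4) .dd)))) (.br
 (nat_lit 5) (.ch (nat_lit 3) (.ev (nat_lit 1104) (nat_lit 64) (.ev (nat_lit 1396) (nat_lit 4) (.ev (nat_lit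
 1405) (nat_lit 128) .dd)))) (.ch (nat_lit 5) (.ev (nat_lit 1104) (nat_lit 192) (.ev (nat_lit 1117) (nat_lit 4)
 .dd))))) (.br (nat_lit 7) (.ch (nat_lit 6) (.ev (nat_lit 1104) (nat_lit 64) (.ev (nat_lit 1828) (nat_lit 128)
 (.ev (nat_lit 1837) (nat_lit 4) .dd)))) (.br (nat_lit 8) (.ch (nat_lit 7) (.ev (nat_lit 1104) (nat_lit 4)
 (.fin (nat_lit 576447008387580470)))) (.ch (nat_lit 8) (.ev (nat_lit 1104) (nat_lit 128) (.ev (nat_lit 2180)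
 (nat_lit 64) (.ev (nat_lit 2189) (nat_lit 4) .dd)))))))))))))))) (.ch (nat_lit 8) (.ev (nat_lit 336) (nat_lit
 208) (.ev (nat_lit 356) (nat_lit 1024) (.nd (nat_lit 832) (.br (nat_lit 4) (.br (nat_lit 1) (.ch (nat_lit 0)
 (.ev (nat_lit 848) (nat_lit 4) (.ev (nat_lit 861) (nat_lit 32) .dd))) (.br (nat_lit 2) (.ch (nat_lit 1) (.nd
 (nat_lit 1360) (.br (nat_lit 3) (.ch (nat_lit 2) (.fin (nat_lit 576528372273201643))) (.br (nat_lit 9) (.ch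
 (nat_lit 3) (.nd (nat_lit 5632) (.ch (nat_lit 10) (.fin (nat_lit 576412923529216590))))) (.ch (nat_lit 9) (.ev
 (nat_lit 2260) (nat_lit 32) (.ev (nat_lit 2269) (nat_lit 4) .dd))))))) (.ch (nat_lit 2) (.ev (nat_lit 3012)
 (nat_lit 4) (.ev (nat_lit 3021) (nat_lit 32) .dd))))) (.br (nat_lit 6) (.br (nat_lit 5) (.ch (nat_lit 4) (.ev
 (nat_lit 848) (nat_lit 4) (.ev (nat_lit 861) (nat_lit 32) .dd))) (.ch (nat_lit 5) (.nd (nat_lit 3312) (.br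
 (nat_lit 5) (.ch (nat_lit 4) (.ev (nat_lit 3364) (nat_lit 32) (.ev (nat_lit 3373) (nat_lit 4) .dd))) (.ch
 (nat_lit 5) (.ev (nat_lit 3364) (nat_lit 32) (.ev (nat_lit 3373) (nat_lit 4) .dd))))))) (.br (nat_lit 8) (.ch
 (nat_lit 6) (.ev (nat_lit 848) (nat_lit 32) (.ev (nat_lit 861) (nat_lit 4) .dd))) (.ch (nat_lit 8) (.ev
 (nat_lit 848) (nat_lit 36) .dd)))))))))) (.br (nat_lit 10) (.ch (nat_lit 9) (.ev (nat_lit 336) (nat_lit 36)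
 (.nd (nat_lit 640) (.br (nat_lit 6) (.br (nat_lit 2) (.ch (nat_lit 0) (.ev (nat_lit 656) (nat_lit 128) (.ev
 (nat_lit 676) (nat_lit 1024) (.nd (nat_lit 1232) (.br (nat_lit 5) (.br (nat_lit 1) (.ch (nat_lit 0) (.ev
 (nat_lit 1248) (nat_lit 16) (.ev (nat_lit 1261) (nat_lit 64) .dd))) (.br (nat_lit 3) (.ch (nat_lit 1) (.ev
 (nat_lit 1268) (nat_lit 64) (.ev (nat_lit 1277) (nat_lit 16) .dd))) (.ch (nat_lit 3) (.ev (nat_lit 2432)
 (nat_lit 80) .dd)))) (.br (nat_lit 7) (.ch (nat_lit 5) (.ev (nat_lit 1588) (nat_lit 16) (.ev (nat_lit 1597)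
 (nat_lit 64) .dd))) (.br (nat_lit 8) (.ch (nat_lit 7) (.ev (nat_lit 1248) (nat_lit 80) .dd)) (.ch (nat_lit 8)
 (.ev (nat_lit 1508) (nat_lit 64) (.ev (nat_lit 1517) (nat_lit 16) .dd)))))))))) (.br (nat_lit 3) (.ch (nat_lit
 2) (.ev (nat_lit 656) (nat_lit 16) (.nd (nat_lit 992) (.br (nat_lit 5) (.br (nat_lit 1) (.ch (nat_lit 0) (.ev
 (nat_lit 1008) (nat_lit 128) (.ev (nat_lit 1696) (nat_lit 1024) (.ev (nat_lit 1709) (nat_lit 64) .dd)))) (.br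
 (nat_lit 2) (.ch (nat_lit 1) (.ev (nat_lit 1008) (nat_lit 1024) (.ev (nat_lit 2052) (nat_lit 128) (.ev
 (nat_lit 2061) (nat_lit 64) .dd)))) (.ch (nat_lit 2) (.ev (nat_lit 1008) (nat_lit 64) (.ev (nat_lit 1300)
 (nat_lit 128) (.ev (nat_lit 1309) (nat_lit 1024) .dd)))))) (.br (nat_lit 8) (.br (nat_lit 7) (.ch (nat_lit 5)
 (.ev (nat_lit 1008) (nat_lit 128) (.ev (nat_lit 1028) (nat_lit 64) (.ev (nat_lit 1037) (nat_lit 1024) .dd))))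
 (.ch (nat_lit 7) (.ev (nat_lit 1008) (nat_lit 1024) (.ev (nat_lit 1028) (nat_lit 128) (.ev (nat_lit 1037)
 (nat_lit 64) .dd))))) (.br (nat_lit 9) (.ch (nat_lit 8) (.ev (nat_lit 1008) (nat_lit 128) (.ev (nat_lit 2068)
 (nat_lit 64) (.ev (nat_lit 2077) (nat_lit 1024) .dd)))) (.ch (nat_lit 9) (.ev (nat_lit 1008) (nat_lit 64) (.ev
 (nat_lit 1028) (nat_lit 128) (.ev (nat_lit 1037) (nat_lit 1024) .dd)))))))))) (.ch (nat_lit 3) (.nd (nat_lit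
 992) (.br (nat_lit 6) (.br (nat_lit 2) (.ch (nat_lit 1) (.ev (nat_lit 1008) (nat_lit 1088) (.ev (nat_lit 1028)
 (nat_lit 128) (.ev (nat_lit 1037) (nat_lit 16) .dd)))) (.br (nat_lit 3) (.ch (nat_lit 2) (.ev (nat_lit 1008)
 (nat_lit 16) (.ev (nat_lit 1124) (nat_lit 64) (.fin (nat_lit 576478894312866398))))) (.ch (nat_lit 3) (.ev
 (nat_lit 1008) (nat_lit 128) (.nd (nat_lit 4224) (.br (nat_lit 8) (.ch (nat_lit 0) (.ev (nat_lit 4240)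
 (nat_lit 1024) (.ev (nat_lit 5092) (nat_lit 16) (.ev (nat_lit 5101) (nat_lit 64) .dd)))) (.ch (nat_lit 8) (.ev
 (nat_lit 4240) (nat_lit 64) (.fin (nat_lit 576498685487563325)))))))))) (.br (nat_lit 7) (.ch (nat_lit 6) (.ev
 (nat_lit 1008) (nat_lit 1040) (.ev (nat_lit 1652) (nat_lit 128) (.ev (nat_lit 1661) (nat_lit 64) .dd)))) (.br
 (nat_lit 9) (.ch (nat_lit 7) (.ev (nat_lit 1284) (nat_lit 128) (.ev (nat_lit 2500) (nat_lit 16) (.nd (nat_lit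
 4640) (.br (nat_lit 8) (.ch (nat_lit 0) (.fin (nat_lit 576454705002529355))) (.ch (nat_lit 8) (.ev (nat_lit
 4656) (nat_lit 64) (.ev (nat_lit 4669) (nat_lit 1024) .dd)))))))) (.ch (nat_lit 9) (.ev (nat_lit 1008)
 (nat_lit 80) (.ev (nat_lit 2420) (nat_lit 128) (.ev (nat_lit 2429) (nat_lit 1024) .dd))))))))))) (.br (nat_lit
 8) (.br (nat_lit 7) (.ch (nat_lit 6) (.ev (nat_lit 656) (nat_lit 1088) (.nd (nat_lit 1088) (.br (nat_lit 4)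
 (.br (nat_lit 1) (.ch (nat_lit 0) (.ev (nat_lit 2148) (nat_lit 16) (.ev (nat_lit 2157) (nat_lit 128) .dd)))
 (.ch (nat_lit 1) (.ev (nat_lit 1508) (nat_lit 16) (.ev (nat_lit 1517) (nat_lit 128) .dd)))) (.br (nat_lit 7)
 (.ch (nat_lit 4) (.ev (nat_lit 1316) (nat_lit 128) (.ev (nat_lit 1325) (nat_lit 16) .dd))) (.ch (nat_lit 7)
 (.ev (nat_lit 1104) (nat_lit 128) (.ev (nat_lit 1117) (nat_lit 16) .dd)))))))) (.ch (nat_lit 7) (.ev (nat_lit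
 656) (nat_lit 16) (.nd (nat_lit 1232) (.br (nat_lit 5) (.br (nat_lit 2) (.ch (nat_lit 0) (.ev (nat_lit 1248)
 (nat_lit 64) (.ev (nat_lit 1684) (nat_lit 1024) (.ev (nat_lit 1693) (nat_lit 128) .dd)))) (.br (nat_lit 4)
 (.ch (nat_lit 2) (.ev (nat_lit 1248) (nat_lit 1024) (.fin (nat_lit 576461302042935789)))) (.ch (nat_lit 4)
 (.ev (nat_lit 1248) (nat_lit 1152) (.ev (nat_lit 1261) (nat_lit 64) .dd))))) (.br (nat_lit 8) (.ch (nat_lit 5)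
 (.ev (nat_lit 1396) (nat_lit 64) (.ev (nat_lit 1540) (nat_lit 1024) (.ev (nat_lit 1549) (nat_lit 128) .dd))))
 (.br (nat_lit 9) (.ch (nat_lit 8) (.ev (nat_lit 1248) (nat_lit 1024) (.ev (nat_lit 1396) (nat_lit 64) (.ev
 (nat_lit 1405) (nat_lit 128) .dd)))) (.ch (nat_lit 9) (.ev (nat_lit 1248) (nat_lit 64) (.ev (nat_lit 2660)
 (nat_lit 128) (.ev (nat_lit 2669) (nat_lit 1024) .dd))))))))))) (.br (nat_lit 9) (.ch (nat_lit 8) (.ev
 (nat_lit 656) (nat_lit 144) (.nd (nat_lit 992) (.br (nat_lit 1) (.ch (nat_lit 0) (.ev (nat_lit 1508) (nat_lit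
 1024) (.ev (nat_lit 1517) (nat_lit 64) .dd))) (.br (nat_lit 9) (.ch (nat_lit 1) (.nd (nat_lit 4336) (.br
 (nat_lit 6) (.ch (nat_lit 3) (.ev (nat_lit 4436) (nat_lit 64) (.ev (nat_lit 4445) (nat_lit 1024) .dd))) (.ch
 (nat_lit 6) (.ev (nat_lit 4484) (nat_lit 1024) (.ev (nat_lit 4493) (nat_lit 64) .dd)))))) (.ch (nat_lit 9)
 (.ev (nat_lit 2292) (nat_lit 1024) (.ev (nat_lit 2301) (nat_lit 64) .dd)))))))) (.ch (nat_lit 9) (.ev (nat_lit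
 656) (nat_lit 1088) (.nd (nat_lit 1232) (.br (nat_lit 6) (.ch (nat_lit 0) (.ev (nat_lit 1428) (nat_lit 128)
 (.ev (nat_lit 1437) (nat_lit 16) .dd))) (.ch (nat_lit 6) (.ev (nat_lit 3940) (nat_lit 128) (.ev (nat_lit 3949)
 (nat_lit 16) .dd))))))))))))) (.ch (nat_lit 10) (.ev (nat_lit 336) (nat_lit 128) (.nd (nat_lit 640) (.br
 (nat_lit 5) (.br (nat_lit 2) (.ch (nat_lit 0) (.ev (nat_lit 656) (nat_lit 1088) (.ev (nat_lit 820) (nat_lit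
 16) (.nd (nat_lit 1088) (.br (nat_lit 6) (.br (nat_lit 4) (.ch (nat_lit 0) (.ev (nat_lit 1792) (nat_lit 32)
 (.ev (nat_lit 1805) (nat_lit 4) .dd))) (.ch (nat_lit 4) (.fin (nat_lit 576466799638823474)))) (.br (nat_lit 9)
 (.ch (nat_lit 6) (.ev (nat_lit 1104) (nat_lit 4) (.ev (nat_lit 1117) (nat_lit 32) .dd))) (.br (nat_lit 10)
 (.ch (nat_lit 9) (.ev (nat_lit 1104) (nat_lit 32) (.ev (nat_lit 1117) (nat_lit 4) .dd))) (.ch (nat_lit 10)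
 (.ev (nat_lit 1428) (nat_lit 32) (.ev (nat_lit 1437) (nat_lit 4) .dd)))))))))) (.br (nat_lit 4) (.ch (nat_lit
 2) (.ev (nat_lit 656) (nat_lit 64) (.nd (nat_lit 928) (.br (nat_lit 6) (.br (nat_lit 1) (.ch (nat_lit 0) (.ev
 (nat_lit 944) (nat_lit 20) (.ev (nat_lit 1508) (nat_lit 32) (.ev (nat_lit 1517) (nat_lit 1024) .dd)))) (.br
 (nat_lit 3) (.ch (nat_lit 1) (.ev (nat_lit 944) (nat_lit 20) (.ev (nat_lit 1588) (nat_lit 1024) (.ev (nat_lit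
 1597) (nat_lit 32) .dd)))) (.ch (nat_lit 3) (.ev (nat_lit 944) (nat_lit 4) (.ev (nat_lit 2468) (nat_lit 1024)
 (.fin (nat_lit 576668010130391615))))))) (.br (nat_lit 7) (.ch (nat_lit 6) (.ev (nat_lit 944) (nat_lit 48)
 (.ev (nat_lit 1428) (nat_lit 1024) (.ev (nat_lit 1437) (nat_lit 4) .dd)))) (.br (nat_lit 9) (.ch (nat_lit 7)
 (.ev (nat_lit 944) (nat_lit 1056) (.ev (nat_lit 1428) (nat_lit 16) (.ev (nat_lit 1437) (nat_lit 4) .dd))))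
 (.ch (nat_lit 9) (.ev (nat_lit 944) (nat_lit 1024) (.ev (nat_lit 2068) (nat_lit 4) (.ev (nat_lit 3092)
 (nat_lit 32) (.ev (nat_lit 3101) (nat_lit 16) .dd))))))))))) (.ch (nat_lit 4) (.ev (nat_lit 656) (nat_lit 36)
 (.ev (nat_lit 756) (nat_lit 16) (.nd (nat_lit 1232) (.br (nat_lit 8) (.ch (nat_lit 0) (.ev (nat_lit 1248)
 (nat_lit 64) (.ev (nat_lit 1261) (nat_lit 1024) .dd))) (.br (nat_lit 10) (.ch (nat_lit 8) (.ev (nat_lit 3492)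
 (nat_lit 1024) (.ev (nat_lit 3501) (nat_lit 64) .dd))) (.ch (nat_lit 10) (.ev (nat_lit 3412) (nat_lit 1024)
 (.ev (nat_lit 3421) (nat_lit 64) .dd))))))))))) (.br (nat_lit 7) (.br (nat_lit 6) (.ch (nat_lit 5) (.ev
 (nat_lit 656) (nat_lit 4) (.nd (nat_lit 928) (.br (nat_lit 3) (.br (nat_lit 1) (.ch (nat_lit 0) (.nd (nat_lit
 4640) (.br (nat_lit 7) (.ch (nat_lit 1) (.ev (nat_lit 4656) (nat_lit 1088) (.fin (nat_lit
 576570153788457565)))) (.ch (nat_lit 7) (.ev (nat_lit 4656) (nat_lit 48) (.fin (nat_lit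
 576512979141870177))))))) (.br (nat_lit 2) (.ch (nat_lit 1) (.ev (nat_lit 1508) (nat_lit 1024) (.ev (nat_lit
 2592) (nat_lit 16) (.ev (nat_lit 2724) (nat_lit 64) (.ev (nat_lit 2733) (nat_lit 32) .dd))))) (.ch (nat_lit 2)
 (.ev (nat_lit 944) (nat_lit 1024) (.ev (nat_lit 1124) (nat_lit 16) (.ev (nat_lit 1284) (nat_lit 64) (.ev
 (nat_lit 1293) (nat_lit 32) .dd))))))) (.br (nat_lit 4) (.ch (nat_lit 3) (.ev (nat_lit 944) (nat_lit 32) (.ev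
 (nat_lit 1124) (nat_lit 64) (.ev (nat_lit 2528) (nat_lit 1040) .dd)))) (.br (nat_lit 6) (.ch (nat_lit 4) (.ev
 (nat_lit 944) (nat_lit 80) (.ev (nat_lit 2116) (nat_lit 1024) (.ev (nat_lit 2125) (nat_lit 32) .dd)))) (.ch
 (nat_lit 6) (.ev (nat_lit 944) (nat_lit 1056) (.ev (nat_lit 1124) (nat_lit 16) (.ev (nat_lit 1133) (nat_lit
 64) .dd)))))))))) (.ch (nat_lit 6) (.ev (nat_lit 656) (nat_lit 1056) (.nd (nat_lit 992) (.br (nat_lit 9) (.br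
 (nat_lit 5) (.ch (nat_lit 3) (.ev (nat_lit 1008) (nat_lit 64) (.ev (nat_lit 1652) (nat_lit 16) (.ev (nat_lit
 1661) (nat_lit 4) .dd)))) (.ch (nat_lit 5) (.ev (nat_lit 1008) (nat_lit 64) (.ev (nat_lit 1124) (nat_lit 16)
 (.ev (nat_lit 1133) (nat_lit 4) .dd))))) (.br (nat_lit 10) (.ch (nat_lit 9) (.ev (nat_lit 1008) (nat_lit 4)
 (.ev (nat_lit 2756) (nat_lit 16) (.ev (nat_lit 2765) (nat_lit 64) .dd)))) (.ch (nat_lit 10) (.ev (nat_lit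
 1008) (nat_lit 64) (.nd (nat_lit 4384) (.ch (nat_lit 7) (.nd (nat_lit 5920) (.br (nat_lit 3) (.ch (nat_lit 1)
 (.fin (nat_lit 576412923460010508))) (.ch (nat_lit 3) (.ev (nat_lit 5940) (nat_lit 4) (.ev (nat_lit 5949)
 (nat_lit 16) .dd))))))))))))))) (.br (nat_lit 8) (.ch (nat_lit 7) (.ev (nat_lit 656) (nat_lit 16) (.nd
 (nat_lit 928) (.br (nat_lit 4) (.br (nat_lit 1) (.ch (nat_lit 0) (.ev (nat_lit 944) (nat_lit 68) (.ev (nat_lit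
 1028) (nat_lit 32) (.ev (nat_lit 1037) (nat_lit 1024) .dd)))) (.br (nat_lit 3) (.ch (nat_lit 1) (.ev (nat_lit
 944) (nat_lit 1088) (.ev (nat_lit 2052) (nat_lit 32) (.ev (nat_lit 2061) (nat_lit 4) .dd)))) (.ch (nat_lit 3)
 (.ev (nat_lit 944) (nat_lit 36) (.ev (nat_lit 1268) (nat_lit 64) (.ev (nat_lit 1277) (nat_lit 1024) .dd))))))
 (.br (nat_lit 5) (.ch (nat_lit 4) (.ev (nat_lit 944) (nat_lit 32) (.ev (nat_lit 2100) (nat_lit 1024) (.ev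
 (nat_lit 4324) (nat_lit 4) (.ev (nat_lit 4333) (nat_lit 64) .dd))))) (.br (nat_lit 6) (.ch (nat_lit 5) (.ev
 (nat_lit 1028) (nat_lit 32) (.ev (nat_lit 1268) (nat_lit 1088) (.ev (nat_lit 1277) (nat_lit 4) .dd)))) (.ch
 (nat_lit 6) (.ev (nat_lit 944) (nat_lit 4) (.ev (nat_lit 1268) (nat_lit 1088) (.ev (nat_lit 1277) (nat_lit 32)
 .dd)))))))))) (.ch (nat_lit 8) (.ev (nat_lit 656) (nat_lit 1072) (.fin (nat_lit
 576486590891115066)))))))))))))))))) (.br (nat_lit 9) (.br (nat_lit 7) (.ch (nat_lit 5) (.ev (nat_lit 48)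
 (nat_lit 148) (.nd (nat_lit 160) (.br (nat_lit 5) (.br (nat_lit 2) (.ch (nat_lit 1) (.ev (nat_lit 176)
 (nat_lit 2080) (.nd (nat_lit 416) (.br (nat_lit 5) (.br (nat_lit 2) (.ch (nat_lit 1) (.ev (nat_lit 432)
 (nat_lit 64) (.ev (nat_lit 756) (nat_lit 1024) (.ev (nat_lit 765) (nat_lit 256) .dd)))) (.br (nat_lit 3) (.ch
 (nat_lit 2) (.ev (nat_lit 432) (nat_lit 256) (.nd (nat_lit 1232) (.br (nat_lit 7) (.br (nat_lit 6) (.ch
 (nat_lit 0) (.fin (nat_lit 576536068688920997))) (.ch (nat_lit 6) (.ev (nat_lit 2452) (nat_lit 64) (.ev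
 (nat_lit 2461) (nat_lit 1024) .dd)))) (.br (nat_lit 9) (.ch (nat_lit 7) (.ev (nat_lit 1248) (nat_lit 64) (.ev
 (nat_lit 1261) (nat_lit 1024) .dd))) (.br (nat_lit 10) (.ch (nat_lit 9) (.ev (nat_lit 1248) (nat_lit 1024)
 (.ev (nat_lit 1261) (nat_lit 64) .dd))) (.ch (nat_lit 10) (.ev (nat_lit 1248) (nat_lit 64) (.ev (nat_lit 1261)
 (nat_lit 1024) .dd))))))))) (.ch (nat_lit 3) (.ev (nat_lit 432) (nat_lit 256) (.nd (nat_lit 992) (.br (nat_lit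
 8) (.ch (nat_lit 4) (.ev (nat_lit 1172) (nat_lit 64) (.ev (nat_lit 1181) (nat_lit 1024) .dd))) (.br (nat_lit
 9) (.ch (nat_lit 8) (.ev (nat_lit 2852) (nat_lit 1024) (.ev (nat_lit 2861) (nat_lit 64) .dd))) (.ch (nat_lit
 9) (.nd (nat_lit 4336) (.br (nat_lit 6) (.ch (nat_lit 2) (.fin (nat_lit 576394231848321454))) (.ch (nat_lit 6)
 (.fin (nat_lit 576522874654245528))))))))))))) (.br (nat_lit 6) (.ch (nat_lit 5) (.ev (nat_lit 432) (nat_lit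
 1024) (.nd (nat_lit 1088) (.br (nat_lit 2) (.br (nat_lit 1) (.ch (nat_lit 0) (.ev (nat_lit 1460) (nat_lit 64)
 (.ev (nat_lit 1469) (nat_lit 256) .dd))) (.ch (nat_lit 1) (.ev (nat_lit 1104) (nat_lit 64) (.ev (nat_lit 1117)
 (nat_lit 256) .dd)))) (.br (nat_lit 8) (.ch (nat_lit 2) (.ev (nat_lit 1104) (nat_lit 256) (.ev (nat_lit 1117)
 (nat_lit 64) .dd))) (.br (nat_lit 10) (.ch (nat_lit 8) (.ev (nat_lit 1140) (nat_lit 64) (.ev (nat_lit 1149)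
 (nat_lit 256) .dd))) (.ch (nat_lit 10) (.ev (nat_lit 2756) (nat_lit 64) (.ev (nat_lit 2765) (nat_lit 256)
 .dd))))))))) (.br (nat_lit 10) (.ch (nat_lit 6) (.ev (nat_lit 500) (nat_lit 256) (.nd (nat_lit 928) (.br
 (nat_lit 6) (.br (nat_lit 3) (.ch (nat_lit 2) (.ev (nat_lit 2500) (nat_lit 1024) (.ev (nat_lit 2509) (nat_lit
 64) .dd))) (.br (nat_lit 4) (.ch (nat_lit 3) (.ev (nat_lit 2100) (nat_lit 64) (.ev (nat_lit 2109) (nat_lit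
 1024) .dd))) (.ch (nat_lit 4) (.ev (nat_lit 944) (nat_lit 64) (.ev (nat_lit 957) (nat_lit 1024) .dd))))) (.br
 (nat_lit 8) (.ch (nat_lit 6) (.ev (nat_lit 944) (nat_lit 64) (.ev (nat_lit 957) (nat_lit 1024) .dd))) (.br
 (nat_lit 9) (.ch (nat_lit 8) (.ev (nat_lit 2180) (nat_lit 1024) (.ev (nat_lit 2189) (nat_lit 64) .dd))) (.ch
 (nat_lit 9) (.ev (nat_lit 944) (nat_lit 1024) (.ev (nat_lit 957) (nat_lit 64) .dd))))))))) (.ch (nat_lit 10)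
 (.ev (nat_lit 432) (nat_lit 64) (.ev (nat_lit 788) (nat_lit 256) (.ev (nat_lit 797) (nat_lit 1024)
 .dd)))))))))) (.br (nat_lit 3) (.ch (nat_lit 2) (.ev (nat_lit 176) (nat_lit 2304) (.nd (nat_lit 464) (.br
 (nat_lit 8) (.br (nat_lit 2) (.ch (nat_lit 1) (.nd (nat_lit 1952) (.br (nat_lit 4) (.br (nat_lit 2) (.ch
 (nat_lit 1) (.ev (nat_lit 3552) (nat_lit 32) (.fin (nat_lit 576414023077544528)))) (.ch (nat_lit 2) (.ev
 (nat_lit 1968) (nat_lit 1088) (.ev (nat_lit 1981) (nat_lit 32) .dd)))) (.br (nat_lit 5) (.ch (nat_lit 4) (.ev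
 (nat_lit 3716) (nat_lit 64) (.ev (nat_lit 3844) (nat_lit 32) (.ev (nat_lit 3853) (nat_lit 1024) .dd)))) (.ch
 (nat_lit 5) (.ev (nat_lit 1968) (nat_lit 32) (.ev (nat_lit 3476) (nat_lit 64) (.ev (nat_lit 3485) (nat_lit
 1024) .dd)))))))) (.br (nat_lit 3) (.ch (nat_lit 2) (.ev (nat_lit 480) (nat_lit 64) (.nd (nat_lit 1360) (.br
 (nat_lit 7) (.br (nat_lit 6) (.ch (nat_lit 1) (.ev (nat_lit 2116) (nat_lit 32) (.ev (nat_lit 2125) (nat_lit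
 1024) .dd))) (.ch (nat_lit 6) (.ev (nat_lit 1376) (nat_lit 1024) (.ev (nat_lit 1389) (nat_lit 32) .dd)))) (.br
 (nat_lit 8) (.ch (nat_lit 7) (.ev (nat_lit 1396) (nat_lit 1024) (.ev (nat_lit 1405) (nat_lit 32) .dd))) (.br
 (nat_lit 10) (.ch (nat_lit 8) (.ev (nat_lit 1376) (nat_lit 1024) (.ev (nat_lit 1389) (nat_lit 32) .dd))) (.ch
 (nat_lit 10) (.fin (nat_lit 576442610351555114))))))))) (.ch (nat_lit 3) (.ev (nat_lit 480) (nat_lit 32) (.nd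
 (nat_lit 1232) (.br (nat_lit 4) (.ch (nat_lit 2) (.ev (nat_lit 1568) (nat_lit 1088) .dd)) (.br (nat_lit 10)
 (.ch (nat_lit 4) (.ev (nat_lit 1268) (nat_lit 1024) (.ev (nat_lit 1277) (nat_lit 64) .dd))) (.ch (nat_lit 10)
 (.ev (nat_lit 2356) (nat_lit 64) (.ev (nat_lit 2365) (nat_lit 1024) .dd)))))))))) (.br (nat_lit 9) (.ch
 (nat_lit 8) (.ev (nat_lit 480) (nat_lit 96) (.ev (nat_lit 493) (nat_lit 1024) .dd))) (.br (nat_lit 10) (.ch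
 (nat_lit 9) (.ev (nat_lit 480) (nat_lit 1024) (.nd (nat_lit 1232) (.br (nat_lit 3) (.br (nat_lit 1) (.ch
 (nat_lit 0) (.ev (nat_lit 1316) (nat_lit 64) (.ev (nat_lit 1325) (nat_lit 32) .dd))) (.ch (nat_lit 1) (.ev
 (nat_lit 1248) (nat_lit 32) (.ev (nat_lit 1261) (nat_lit 64) .dd)))) (.br (nat_lit 4) (.ch (nat_lit 3) (.ev
 (nat_lit 1268) (nat_lit 64) (.ev (nat_lit 1277) (nat_lit 32) .dd))) (.ch (nat_lit 4) (.ev (nat_lit 1248)
 (nat_lit 64) (.ev (nat_lit 1261) (nat_lit 32) .dd)))))))) (.ch (nat_lit 10) (.nd (nat_lit 1232) (.br (nat_lit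
 7) (.br (nat_lit 3) (.ch (nat_lit 1) (.ev (nat_lit 1248) (nat_lit 32) (.ev (nat_lit 1396) (nat_lit 64) (.ev
 (nat_lit 1405) (nat_lit 1024) .dd)))) (.br (nat_lit 6) (.ch (nat_lit 3) (.ev (nat_lit 1248) (nat_lit 1024)
 (.ev (nat_lit 1396) (nat_lit 64) (.ev (nat_lit 1405) (nat_lit 32) .dd)))) (.ch (nat_lit 6) (.ev (nat_lit 1248)
 (nat_lit 64) (.ev (nat_lit 1780) (nat_lit 1024) (.ev (nat_lit 1789) (nat_lit 32) .dd)))))) (.br (nat_lit 9)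
 (.br (nat_lit 8) (.ch (nat_lit 7) (.ev (nat_lit 1268) (nat_lit 1024) (.ev (nat_lit 1748) (nat_lit 32) (.ev
 (nat_lit 1757) (nat_lit 64) .dd)))) (.ch (nat_lit 8) (.ev (nat_lit 1248) (nat_lit 64) (.ev (nat_lit 1652)
 (nat_lit 1024) (.ev (nat_lit 1661) (nat_lit 32) .dd))))) (.br (nat_lit 10) (.ch (nat_lit 9) (.ev (nat_lit
 1248) (nat_lit 32) (.ev (nat_lit 4612) (nat_lit 64) (.ev (nat_lit 4621) (nat_lit 1024) .dd)))) (.ch (nat_lit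
 10) (.ev (nat_lit 1248) (nat_lit 1024) (.ev (nat_lit 1396) (nat_lit 64) (.ev (nat_lit 1405) (nat_lit 32)
 .dd))))))))))))))) (.ch (nat_lit 3) (.ev (nat_lit 176) (nat_lit 1024) (.nd (nat_lit 384) (.br (nat_lit 4) (.br
 (nat_lit 1) (.ch (nat_lit 0) (.ev (nat_lit 400) (nat_lit 32) (.nd (nat_lit 832) (.br (nat_lit 6) (.br (nat_lit
 2) (.ch (nat_lit 0) (.ev (nat_lit 848) (nat_lit 256) (.ev (nat_lit 2500) (nat_lit 64) (.ev (nat_lit 2509)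
 (nat_lit 2048) .dd)))) (.ch (nat_lit 2) (.ev (nat_lit 848) (nat_lit 2048) (.ev (nat_lit 2260) (nat_lit 64)
 (.ev (nat_lit 2269) (nat_lit 256) .dd))))) (.br (nat_lit 8) (.ch (nat_lit 6) (.ev (nat_lit 848) (nat_lit 64)
 (.ev (nat_lit 2356) (nat_lit 256) (.ev (nat_lit 2365) (nat_lit 2048) .dd)))) (.br (nat_lit 10) (.ch (nat_lit
 8) (.ev (nat_lit 848) (nat_lit 256) (.ev (nat_lit 1028) (nat_lit 64) (.ev (nat_lit 1037) (nat_lit 2048)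
 .dd)))) (.ch (nat_lit 10) (.ev (nat_lit 848) (nat_lit 256) (.ev (nat_lit 2516) (nat_lit 2048) (.ev (nat_lit
 2525) (nat_lit 64) .dd)))))))))) (.br (nat_lit 2) (.ch (nat_lit 1) (.ev (nat_lit 400) (nat_lit 2368) (.ev
 (nat_lit 413) (nat_lit 32) .dd))) (.ch (nat_lit 2) (.ev (nat_lit 400) (nat_lit 2048) (.nd (nat_lit 1088) (.br
 (nat_lit 7) (.br (nat_lit 2) (.ch (nat_lit 0) (.ev (nat_lit 1104) (nat_lit 320) (.ev (nat_lit 1117) (nat_lit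
 32) .dd))) (.br (nat_lit 4) (.ch (nat_lit 2) (.ev (nat_lit 1104) (nat_lit 32) (.ev (nat_lit 1396) (nat_lit 64)
 (.ev (nat_lit 1405) (nat_lit 256) .dd)))) (.ch (nat_lit 4) (.ev (nat_lit 1104) (nat_lit 256) (.fin (nat_lit
 576470098169512516)))))) (.br (nat_lit 9) (.br (nat_lit 8) (.ch (nat_lit 7) (.ev (nat_lit 1396) (nat_lit 64)
 (.ev (nat_lit 2068) (nat_lit 32) (.ev (nat_lit 2077) (nat_lit 256) .dd)))) (.ch (nat_lit 8) (.ev (nat_lit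
 1104) (nat_lit 64) (.ev (nat_lit 2564) (nat_lit 32) (.ev (nat_lit 2573) (nat_lit 256) .dd))))) (.br (nat_lit
 10) (.ch (nat_lit 9) (.ev (nat_lit 1268) (nat_lit 32) (.ev (nat_lit 1828) (nat_lit 64) (.ev (nat_lit 1837)
 (nat_lit 256) .dd)))) (.ch (nat_lit 10) (.ev (nat_lit 1104) (nat_lit 96) (.ev (nat_lit 1117) (nat_lit 256)
 .dd))))))))))) (.br (nat_lit 6) (.br (nat_lit 5) (.ch (nat_lit 4) (.nd (nat_lit 832) (.br (nat_lit 8) (.br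
 (nat_lit 4) (.ch (nat_lit 0) (.ev (nat_lit 848) (nat_lit 2112) (.ev (nat_lit 2324) (nat_lit 256) (.ev (nat_lit
 2333) (nat_lit 32) .dd)))) (.br (nat_lit 7) (.ch (nat_lit 4) (.ev (nat_lit 848) (nat_lit 256) (.ev (nat_lit
 1028) (nat_lit 64) (.ev (nat_lit 3220) (nat_lit 32) (.ev (nat_lit 3229) (nat_lit 2048) .dd))))) (.ch (nat_lit
 7) (.ev (nat_lit 848) (nat_lit 2080) (.ev (nat_lit 2576) (nat_lit 320) .dd))))) (.br (nat_lit 9) (.ch (nat_lit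
 8) (.ev (nat_lit 848) (nat_lit 2304) (.ev (nat_lit 1028) (nat_lit 64) (.ev (nat_lit 1037) (nat_lit 32) .dd))))
 (.br (nat_lit 10) (.ch (nat_lit 9) (.ev (nat_lit 848) (nat_lit 32) (.ev (nat_lit 1284) (nat_lit 64) (.fin
 (nat_lit 576509680525197920))))) (.ch (nat_lit 10) (.ev (nat_lit 848) (nat_lit 2112) (.ev (nat_lit 1060)
 (nat_lit 32) (.ev (nat_lit 1069) (nat_lit 256) .dd))))))))) (.ch (nat_lit 5) (.ev (nat_lit 400) (nat_lit 2080)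
 (.nd (nat_lit 928) (.br (nat_lit 8) (.br (nat_lit 5) (.ch (nat_lit 3) (.ev (nat_lit 2068) (nat_lit 256) (.ev
 (nat_lit 2077) (nat_lit 64) .dd))) (.ch (nat_lit 5) (.ev (nat_lit 1844) (nat_lit 64) (.ev (nat_lit 1853)
 (nat_lit 256) .dd)))) (.br (nat_lit 9) (.ch (nat_lit 8) (.ev (nat_lit 944) (nat_lit 256) (.ev (nat_lit 957)
 (nat_lit 64) .dd))) (.br (nat_lit 10) (.ch (nat_lit 9) (.ev (nat_lit 3444) (nat_lit 64) (.ev (nat_lit 3453)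
 (nat_lit 256) .dd))) (.ch (nat_lit 10) (.ev (nat_lit 944) (nat_lit 256) (.ev (nat_lit 957) (nat_lit 64)
 .dd)))))))))) (.br (nat_lit 9) (.ch (nat_lit 6) (.nd (nat_lit 832) (.br (nat_lit 8) (.br (nat_lit 3) (.ch
 (nat_lit 0) (.ev (nat_lit 848) (nat_lit 2304) (.ev (nat_lit 2788) (nat_lit 32) (.ev (nat_lit 2797) (nat_lit
 64) .dd)))) (.br (nat_lit 5) (.ch (nat_lit 3) (.ev (nat_lit 848) (nat_lit 2048) (.ev (nat_lit 1588) (nat_lit
 32) (.ev (nat_lit 3968) (nat_lit 64) (.ev (nat_lit 3981) (nat_lit 256) .dd))))) (.ch (nat_lit 5) (.ev (nat_lit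
 848) (nat_lit 64) (.ev (nat_lit 964) (nat_lit 32) (.ev (nat_lit 1188) (nat_lit 256) (.ev (nat_lit 1197)
 (nat_lit 2048) .dd))))))) (.br (nat_lit 9) (.ch (nat_lit 8) (.ev (nat_lit 848) (nat_lit 32) (.ev (nat_lit
 1748) (nat_lit 64) (.nd (nat_lit 4720) (.br (nat_lit 8) (.ch (nat_lit 7) (.fin (nat_lit 576409625048859167)))
 (.ch (nat_lit 8) (.ev (nat_lit 4820) (nat_lit 2048) (.ev (nat_lit 4829) (nat_lit 256) .dd)))))))) (.br
 (nat_lit 10) (.ch (nat_lit 9) (.ev (nat_lit 848) (nat_lit 256) (.ev (nat_lit 1044) (nat_lit 2048) (.nd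
 (nat_lit 4768) (.ch (nat_lit 2) (.nd (nat_lit 5824) (.br (nat_lit 9) (.ch (nat_lit 6) (.fin (nat_lit
 576334858258170355))) (.ch (nat_lit 9) (.ev (nat_lit 5840) (nat_lit 64) (.ev (nat_lit 5853) (nat_lit 32)
 .dd)))))))))) (.ch (nat_lit 10) (.ev (nat_lit 848) (nat_lit 288) (.ev (nat_lit 1632) (nat_lit 2048) (.ev
 (nat_lit 1645) (nat_lit 64) .dd))))))))) (.ch (nat_lit 9) (.ev (nat_lit 400) (nat_lit 320) (.ev (nat_lit 4292)
 (nat_lit 32) (.ev (nat_lit 4301) (nat_lit 2048) .dd)))))))))))) (.br (nat_lit 9) (.br (nat_lit 8) (.ch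
 (nat_lit 5) (.ev (nat_lit 176) (nat_lit 1056) (.nd (nat_lit 832) (.br (nat_lit 6) (.br (nat_lit 2) (.ch
 (nat_lit 0) (.ev (nat_lit 868) (nat_lit 256) (.nd (nat_lit 3792) (.br (nat_lit 4) (.br (nat_lit 3) (.ch
 (nat_lit 0) (.ev (nat_lit 4260) (nat_lit 2048) (.ev (nat_lit 4269) (nat_lit 64) .dd))) (.ch (nat_lit 3) (.ev
 (nat_lit 3808) (nat_lit 64) (.ev (nat_lit 3821) (nat_lit 2048) .dd)))) (.br (nat_lit 10) (.ch (nat_lit 4) (.ev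
 (nat_lit 3808) (nat_lit 2048) (.ev (nat_lit 3821) (nat_lit 64) .dd))) (.ch (nat_lit 10) (.ev (nat_lit 3808)
 (nat_lit 64) (.ev (nat_lit 3821) (nat_lit 2048) .dd)))))))) (.ch (nat_lit 2) (.ev (nat_lit 848) (nat_lit 64)
 (.nd (nat_lit 3312) (.br (nat_lit 4) (.ch (nat_lit 2) (.ev (nat_lit 3412) (nat_lit 2048) (.ev (nat_lit 3421)
 (nat_lit 256) .dd))) (.br (nat_lit 8) (.ch (nat_lit 4) (.ev (nat_lit 3328) (nat_lit 2048) (.ev (nat_lit 3341)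
 (nat_lit 256) .dd))) (.ch (nat_lit 8) (.ev (nat_lit 3328) (nat_lit 256) (.ev (nat_lit 3341) (nat_lit 2048)
 .dd))))))))) (.br (nat_lit 8) (.ch (nat_lit 6) (.ev (nat_lit 868) (nat_lit 64) (.nd (nat_lit 3312) (.br
 (nat_lit 6) (.br (nat_lit 5) (.ch (nat_lit 2) (.ev (nat_lit 3328) (nat_lit 256) (.ev (nat_lit 3341) (nat_lit
 2048) .dd))) (.ch (nat_lit 5) (.ev (nat_lit 4116) (nat_lit 2048) (.ev (nat_lit 4125) (nat_lit 256) .dd))))
 (.br (nat_lit 7) (.ch (nat_lit 6) (.ev (nat_lit 3328) (nat_lit 2048) (.ev (nat_lit 3341) (nat_lit 256) .dd)))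
 (.ch (nat_lit 7) (.ev (nat_lit 3364) (nat_lit 2048) (.ev (nat_lit 3373) (nat_lit 256) .dd)))))))) (.br
 (nat_lit 9) (.ch (nat_lit 8) (.ev (nat_lit 848) (nat_lit 256) (.ev (nat_lit 868) (nat_lit 2048) (.ev (nat_lit
 877) (nat_lit 64) .dd)))) (.ch (nat_lit 9) (.ev (nat_lit 848) (nat_lit 2304) (.ev (nat_lit 861) (nat_lit 64)
 .dd))))))))) (.ch (nat_lit 8) (.ev (nat_lit 176) (nat_lit 2144) (.nd (nat_lit 832) (.br (nat_lit 3) (.ch
 (nat_lit 1) (.ev (nat_lit 884) (nat_lit 256) (.ev (nat_lit 893) (nat_lit 1024) .dd))) (.br (nat_lit 8) (.ch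
 (nat_lit 3) (.fin (nat_lit 576409625014256126))) (.ch (nat_lit 8) (.ev (nat_lit 884) (nat_lit 256) (.ev
 (nat_lit 893) (nat_lit 1024) .dd))))))))) (.br (nat_lit 10) (.ch (nat_lit 9) (.ev (nat_lit 176) (nat_lit 256)
 (.nd (nat_lit 464) (.br (nat_lit 7) (.br (nat_lit 4) (.ch (nat_lit 3) (.ev (nat_lit 480) (nat_lit 2048) (.nd
 (nat_lit 928) (.br (nat_lit 7) (.br (nat_lit 6) (.ch (nat_lit 1) (.ev (nat_lit 944) (nat_lit 64) (.ev (nat_lit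
 1652) (nat_lit 32) (.ev (nat_lit 1661) (nat_lit 1024) .dd)))) (.ch (nat_lit 6) (.ev (nat_lit 2068) (nat_lit
 1088) (.ev (nat_lit 2077) (nat_lit 32) .dd)))) (.br (nat_lit 8) (.ch (nat_lit 7) (.ev (nat_lit 944) (nat_lit
 1024) (.ev (nat_lit 1076) (nat_lit 32) (.ev (nat_lit 1085) (nat_lit 64) .dd)))) (.br (nat_lit 10) (.ch
 (nat_lit 8) (.ev (nat_lit 944) (nat_lit 1024) (.fin (nat_lit 576449207453827701)))) (.ch (nat_lit 10) (.ev
 (nat_lit 3572) (nat_lit 64) (.nd (nat_lit 5024) (.br (nat_lit 9) (.ch (nat_lit 2) (.ev (nat_lit 5156) (nat_lit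
 1024) (.ev (nat_lit 5165) (nat_lit 32) .dd))) (.ch (nat_lit 9) (.fin (nat_lit 576466799650357832)))))))))))))
 (.br (nat_lit 6) (.ch (nat_lit 4) (.ev (nat_lit 868) (nat_lit 1024) (.nd (nat_lit 1232) (.br (nat_lit 8) (.br
 (nat_lit 1) (.ch (nat_lit 0) (.ev (nat_lit 1248) (nat_lit 2048) (.ev (nat_lit 3540) (nat_lit 64) (.ev (nat_lit
 3549) (nat_lit 32) .dd)))) (.ch (nat_lit 1) (.ev (nat_lit 2468) (nat_lit 2048) (.fin (nat_lit
 576298574328316601))))) (.br (nat_lit 10) (.ch (nat_lit 8) (.ev (nat_lit 1248) (nat_lit 32) (.ev (nat_lit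
 2468) (nat_lit 2048) (.ev (nat_lit 2477) (nat_lit 64) .dd)))) (.ch (nat_lit 10) (.ev (nat_lit 1248) (nat_lit
 2144) .dd))))))) (.ch (nat_lit 6) (.ev (nat_lit 480) (nat_lit 1056) (.ev (nat_lit 868) (nat_lit 64) (.ev
 (nat_lit 877) (nat_lit 2048) .dd)))))) (.br (nat_lit 9) (.br (nat_lit 8) (.ch (nat_lit 7) (.ev (nat_lit 480)
 (nat_lit 2080) (.nd (nat_lit 3792) (.br (nat_lit 10) (.ch (nat_lit 3) (.ev (nat_lit 4196) (nat_lit 1024) (.ev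
 (nat_lit 4205) (nat_lit 64) .dd))) (.ch (nat_lit 10) (.fin (nat_lit 576470098161123911))))))) (.ch (nat_lit 8)
 (.ev (nat_lit 480) (nat_lit 1024) (.ev (nat_lit 868) (nat_lit 64) (.nd (nat_lit 1360) (.br (nat_lit 4) (.br
 (nat_lit 1) (.ch (nat_lit 0) (.ev (nat_lit 1376) (nat_lit 32) (.ev (nat_lit 1389) (nat_lit 2048) .dd))) (.br
 (nat_lit 3) (.ch (nat_lit 1) (.ev (nat_lit 1376) (nat_lit 2048) (.ev (nat_lit 1389) (nat_lit 32) .dd))) (.ch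
 (nat_lit 3) (.ev (nat_lit 1892) (nat_lit 32) (.ev (nat_lit 1901) (nat_lit 2048) .dd))))) (.br (nat_lit 8) (.br
 (nat_lit 5) (.ch (nat_lit 4) (.ev (nat_lit 1376) (nat_lit 32) (.ev (nat_lit 1389) (nat_lit 2048) .dd))) (.ch
 (nat_lit 5) (.ev (nat_lit 1376) (nat_lit 2048) (.ev (nat_lit 1389) (nat_lit 32) .dd)))) (.br (nat_lit 10) (.ch
 (nat_lit 8) (.ev (nat_lit 1376) (nat_lit 2048) (.ev (nat_lit 1389) (nat_lit 32) .dd))) (.ch (nat_lit 10) (.ev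
 (nat_lit 1396) (nat_lit 32) (.ev (nat_lit 1405) (nat_lit 2048) .dd))))))))))) (.br (nat_lit 10) (.ch (nat_lit
 9) (.ev (nat_lit 480) (nat_lit 96) (.nd (nat_lit 1952) (.br (nat_lit 4) (.br (nat_lit 2) (.ch (nat_lit 1) (.ev
 (nat_lit 2292) (nat_lit 2048) (.ev (nat_lit 2301) (nat_lit 1024) .dd))) (.br (nat_lit 3) (.ch (nat_lit 2) (.ev
 (nat_lit 1968) (nat_lit 1024) (.ev (nat_lit 1981) (nat_lit 2048) .dd))) (.ch (nat_lit 3) (.ev (nat_lit 1968)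
 (nat_lit 1024) (.ev (nat_lit 1981) (nat_lit 2048) .dd))))) (.br (nat_lit 7) (.ch (nat_lit 4) (.ev (nat_lit
 2100) (nat_lit 1024) (.ev (nat_lit 2109) (nat_lit 2048) .dd))) (.br (nat_lit 8) (.ch (nat_lit 7) (.ev (nat_lit
 2052) (nat_lit 1024) (.ev (nat_lit 2061) (nat_lit 2048) .dd))) (.ch (nat_lit 8) (.ev (nat_lit 1968) (nat_lit
 2048) (.ev (nat_lit 1981) (nat_lit 1024) .dd))))))))) (.ch (nat_lit 10) (.ev (nat_lit 480) (nat_lit 64) (.ev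
 (nat_lit 868) (nat_lit 1024) (.nd (nat_lit 1232) (.br (nat_lit 6) (.br (nat_lit 4) (.ch (nat_lit 0) (.ev
 (nat_lit 1248) (nat_lit 32) (.ev (nat_lit 1261) (nat_lit 2048) .dd))) (.br (nat_lit 5) (.ch (nat_lit 4) (.ev
 (nat_lit 1248) (nat_lit 2048) (.ev (nat_lit 1261) (nat_lit 32) .dd))) (.ch (nat_lit 5) (.ev (nat_lit 1248)
 (nat_lit 2048) (.ev (nat_lit 1261) (nat_lit 32) .dd))))) (.br (nat_lit 7) (.ch (nat_lit 6) (.ev (nat_lit 1508)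
 (nat_lit 32) (.ev (nat_lit 1517) (nat_lit 2048) .dd))) (.br (nat_lit 10) (.ch (nat_lit 7) (.ev (nat_lit 1248)
 (nat_lit 2048) (.ev (nat_lit 1261) (nat_lit 32) .dd))) (.ch (nat_lit 10) (.ev (nat_lit 1248) (nat_lit 2048)
 (.ev (nat_lit 1261) (nat_lit 32) .dd)))))))))))))))) (.ch (nat_lit 10) (.ev (nat_lit 176) (nat_lit 64) (.nd
 (nat_lit 704) (.br (nat_lit 6) (.br (nat_lit 4) (.ch (nat_lit 0) (.ev (nat_lit 720) (nat_lit 1056) (.ev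
 (nat_lit 2692) (nat_lit 2048) (.ev (nat_lit 2701) (nat_lit 256) .dd)))) (.br (nat_lit 5) (.ch (nat_lit 4) (.ev
 (nat_lit 720) (nat_lit 2304) (.nd (nat_lit 1952) (.br (nat_lit 10) (.ch (nat_lit 7) (.ev (nat_lit 2052)
 (nat_lit 32) (.ev (nat_lit 2061) (nat_lit 1024) .dd))) (.ch (nat_lit 10) (.ev (nat_lit 2052) (nat_lit 32) (.ev
 (nat_lit 2061) (nat_lit 1024) .dd))))))) (.ch (nat_lit 5) (.ev (nat_lit 720) (nat_lit 1024) (.nd (nat_lit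
 1952) (.br (nat_lit 6) (.ch (nat_lit 0) (.ev (nat_lit 3780) (nat_lit 256) (.ev (nat_lit 5172) (nat_lit 32)
 (.ev (nat_lit 5181) (nat_lit 2048) .dd)))) (.br (nat_lit 9) (.ch (nat_lit 6) (.ev (nat_lit 2052) (nat_lit
 2080) (.ev (nat_lit 2061) (nat_lit 256) .dd))) (.ch (nat_lit 9) (.ev (nat_lit 1968) (nat_lit 2048) (.ev
 (nat_lit 2868) (nat_lit 32) (.ev (nat_lit 2877) (nat_lit 256) .dd))))))))))) (.br (nat_lit 7) (.ch (nat_lit 6)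
 (.ev (nat_lit 740) (nat_lit 1024) (.ev (nat_lit 868) (nat_lit 256) (.nd (nat_lit 3312) (.br (nat_lit 8) (.br
 (nat_lit 7) (.ch (nat_lit 4) (.ev (nat_lit 3364) (nat_lit 2048) (.ev (nat_lit 3373) (nat_lit 32) .dd))) (.ch
 (nat_lit 7) (.ev (nat_lit 3328) (nat_lit 32) (.ev (nat_lit 3341) (nat_lit 2048) .dd)))) (.br (nat_lit 9) (.ch
 (nat_lit 8) (.fin (nat_lit 576404127440388668))) (.br (nat_lit 10) (.ch (nat_lit 9) (.ev (nat_lit 3328)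
 (nat_lit 32) (.ev (nat_lit 3341) (nat_lit 2048) .dd))) (.ch (nat_lit 10) (.ev (nat_lit 3328) (nat_lit 2048)
 (.ev (nat_lit 3341) (nat_lit 32) .dd)))))))))) (.br (nat_lit 9) (.ch (nat_lit 7) (.nd (nat_lit 1952) (.br
 (nat_lit 3) (.br (nat_lit 2) (.ch (nat_lit 1) (.ev (nat_lit 1968) (nat_lit 1056) (.ev (nat_lit 2292) (nat_lit
 2048) (.ev (nat_lit 2301) (nat_lit 256) .dd)))) (.ch (nat_lit 2) (.ev (nat_lit 1968) (nat_lit 288) (.ev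
 (nat_lit 2660) (nat_lit 2048) (.ev (nat_lit 2669) (nat_lit 1024) .dd))))) (.br (nat_lit 5) (.ch (nat_lit 3)
 (.ev (nat_lit 1968) (nat_lit 2048) (.ev (nat_lit 3364) (nat_lit 1024) (.ev (nat_lit 3412) (nat_lit 32) (.ev
 (nat_lit 3421) (nat_lit 256) .dd))))) (.br (nat_lit 6) (.ch (nat_lit 5) (.ev (nat_lit 2528) (nat_lit 1280)
 (.ev (nat_lit 3412) (nat_lit 32) (.ev (nat_lit 3421) (nat_lit 2048) .dd)))) (.ch (nat_lit 6) (.ev (nat_lit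
 1968) (nat_lit 288) (.ev (nat_lit 2052) (nat_lit 2048) (.ev (nat_lit 2061) (nat_lit 1024) .dd))))))))) (.ch
 (nat_lit 9) (.ev (nat_lit 720) (nat_lit 32) (.nd (nat_lit 1952) (.br (nat_lit 2) (.br (nat_lit 1) (.ch
 (nat_lit 0) (.ev (nat_lit 1968) (nat_lit 2048) (.ev (nat_lit 2672) (nat_lit 1280) .dd))) (.ch (nat_lit 1) (.ev
 (nat_lit 3392) (nat_lit 256) (.fin (nat_lit 576460202552279608))))) (.br (nat_lit 3) (.ch (nat_lit 2) (.ev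
 (nat_lit 1968) (nat_lit 2048) (.ev (nat_lit 3444) (nat_lit 1024) (.ev (nat_lit 3453) (nat_lit 256) .dd))))
 (.br (nat_lit 8) (.ch (nat_lit 3) (.ev (nat_lit 1968) (nat_lit 2048) (.ev (nat_lit 4324) (nat_lit 1024) (.ev
 (nat_lit 4333) (nat_lit 256) .dd)))) (.ch (nat_lit 8) (.ev (nat_lit 1968) (nat_lit 2048) (.ev (nat_lit 3700)
 (nat_lit 256) (.ev (nat_lit 3709) (nat_lit 1024) .dd)))))))))))))))))))))) (.ch (nat_lit 7) (.ev (nat_lit 48)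
 (nat_lit 1060) (.nd (nat_lit 320) (.br (nat_lit 4) (.br (nat_lit 1) (.ch (nat_lit 0) (.ev (nat_lit 336)
 (nat_lit 144) (.ev (nat_lit 356) (nat_lit 64) (.nd (nat_lit 832) (.br (nat_lit 6) (.br (nat_lit 4) (.ch
 (nat_lit 0) (.ev (nat_lit 3412) (nat_lit 256) (.ev (nat_lit 3421) (nat_lit 2048) .dd))) (.ch (nat_lit 4) (.nd
 (nat_lit 1952) (.br (nat_lit 6) (.br (nat_lit 1) (.ch (nat_lit 0) (.ev (nat_lit 2180) (nat_lit 2048) (.ev
 (nat_lit 2189) (nat_lit 256) .dd))) (.ch (nat_lit 1) (.ev (nat_lit 2292) (nat_lit 2048) (.ev (nat_lit 2301)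
 (nat_lit 256) .dd)))) (.br (nat_lit 8) (.ch (nat_lit 6) (.ev (nat_lit 2996) (nat_lit 2048) (.ev (nat_lit 3005)
 (nat_lit 256) .dd))) (.br (nat_lit 9) (.ch (nat_lit 8) (.ev (nat_lit 1968) (nat_lit 256) (.ev (nat_lit 1981)
 (nat_lit 2048) .dd))) (.ch (nat_lit 9) (.ev (nat_lit 1968) (nat_lit 256) (.ev (nat_lit 1981) (nat_lit 2048)
 .dd))))))))) (.br (nat_lit 9) (.ch (nat_lit 6) (.ev (nat_lit 848) (nat_lit 2048) (.ev (nat_lit 861) (nat_lit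
 256) .dd))) (.br (nat_lit 10) (.ch (nat_lit 9) (.nd (nat_lit 1952) (.br (nat_lit 6) (.ch (nat_lit 3) (.fin
 (nat_lit 576509680552460922))) (.br (nat_lit 8) (.ch (nat_lit 6) (.ev (nat_lit 2292) (nat_lit 256) (.ev
 (nat_lit 2301) (nat_lit 2048) .dd))) (.ch (nat_lit 8) (.fin (nat_lit 576365644525027771))))))) (.ch (nat_lit
 10) (.ev (nat_lit 848) (nat_lit 256) (.ev (nat_lit 861) (nat_lit 2048) .dd)))))))))) (.br (nat_lit 2) (.ch
 (nat_lit 1) (.ev (nat_lit 336) (nat_lit 64) (.nd (nat_lit 704) (.br (nat_lit 4) (.br (nat_lit 2) (.ch (nat_lit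
 0) (.ev (nat_lit 720) (nat_lit 272) (.nd (nat_lit 3792) (.br (nat_lit 6) (.br (nat_lit 4) (.ch (nat_lit 3)
 (.ev (nat_lit 3808) (nat_lit 128) (.ev (nat_lit 3821) (nat_lit 2048) .dd))) (.ch (nat_lit 4) (.ev (nat_lit
 3808) (nat_lit 2048) (.ev (nat_lit 3821) (nat_lit 128) .dd)))) (.br (nat_lit 7) (.ch (nat_lit 6) (.ev (nat_lit
 3808) (nat_lit 128) (.ev (nat_lit 3821) (nat_lit 2048) .dd))) (.ch (nat_lit 7) (.fin (nat_lit
 576426117683429936)))))))) (.br (nat_lit 3) (.ch (nat_lit 2) (.ev (nat_lit 720) (nat_lit 144) (.nd (nat_lit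
 1088) (.br (nat_lit 4) (.ch (nat_lit 2) (.ev (nat_lit 2068) (nat_lit 256) (.ev (nat_lit 2077) (nat_lit 2048)
 .dd))) (.br (nat_lit 9) (.ch (nat_lit 4) (.ev (nat_lit 1284) (nat_lit 256) (.ev (nat_lit 1293) (nat_lit 2048)
 .dd))) (.ch (nat_lit 9) (.ev (nat_lit 4308) (nat_lit 2048) (.ev (nat_lit 4317) (nat_lit 256) .dd)))))))) (.ch
 (nat_lit 3) (.ev (nat_lit 720) (nat_lit 256) (.nd (nat_lit 992) (.br (nat_lit 7) (.br (nat_lit 3) (.ch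
 (nat_lit 0) (.ev (nat_lit 2052) (nat_lit 2048) (.nd (nat_lit 5056) (.br (nat_lit 9) (.ch (nat_lit 7) (.ev
 (nat_lit 5140) (nat_lit 16) (.ev (nat_lit 5149) (nat_lit 128) .dd))) (.ch (nat_lit 9) (.ev (nat_lit 5140)
 (nat_lit 16) (.ev (nat_lit 5149) (nat_lit 128) .dd))))))) (.br (nat_lit 6) (.ch (nat_lit 3) (.ev (nat_lit
 1008) (nat_lit 128) (.ev (nat_lit 2260) (nat_lit 16) (.ev (nat_lit 2269) (nat_lit 2048) .dd)))) (.ch (nat_lit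
 6) (.ev (nat_lit 2080) (nat_lit 16) (.ev (nat_lit 2452) (nat_lit 128) (.ev (nat_lit 2461) (nat_lit 2048)
 .dd)))))) (.br (nat_lit 9) (.ch (nat_lit 7) (.ev (nat_lit 1460) (nat_lit 128) (.ev (nat_lit 2052) (nat_lit
 2048) (.ev (nat_lit 2061) (nat_lit 16) .dd)))) (.br (nat_lit 10) (.ch (nat_lit 9) (.ev (nat_lit 1008) (nat_lit
 128) (.ev (nat_lit 1028) (nat_lit 16) (.ev (nat_lit 1037) (nat_lit 2048) .dd)))) (.ch (nat_lit 10) (.ev
 (nat_lit 1008) (nat_lit 2064) (.ev (nat_lit 1021) (nat_lit 128) .dd))))))))))) (.br (nat_lit 7) (.br (nat_lit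
 5) (.ch (nat_lit 4) (.ev (nat_lit 720) (nat_lit 2048) (.nd (nat_lit 992) (.br (nat_lit 5) (.br (nat_lit 3)
 (.ch (nat_lit 2) (.ev (nat_lit 1124) (nat_lit 256) (.ev (nat_lit 1428) (nat_lit 128) (.ev (nat_lit 1437)
 (nat_lit 16) .dd)))) (.ch (nat_lit 3) (.ev (nat_lit 1460) (nat_lit 128) (.ev (nat_lit 1828) (nat_lit 256) (.ev
 (nat_lit 1837) (nat_lit 16) .dd))))) (.br (nat_lit 8) (.ch (nat_lit 5) (.ev (nat_lit 1008) (nat_lit 128) (.fin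
 (nat_lit 576436013294371382)))) (.br (nat_lit 9) (.ch (nat_lit 8) (.ev (nat_lit 1008) (nat_lit 128) (.ev
 (nat_lit 1460) (nat_lit 256) (.ev (nat_lit 1469) (nat_lit 16) .dd)))) (.ch (nat_lit 9) (.ev (nat_lit 1008)
 (nat_lit 256) (.ev (nat_lit 1652) (nat_lit 16) (.ev (nat_lit 1661) (nat_lit 128) .dd)))))))))) (.ch (nat_lit
 5) (.ev (nat_lit 720) (nat_lit 2064) (.nd (nat_lit 1360) (.br (nat_lit 3) (.ch (nat_lit 2) (.ev (nat_lit 1460)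
 (nat_lit 256) (.ev (nat_lit 1469) (nat_lit 128) .dd))) (.br (nat_lit 7) (.ch (nat_lit 3) (.ev (nat_lit 2052)
 (nat_lit 128) (.ev (nat_lit 2061) (nat_lit 256) .dd))) (.ch (nat_lit 7) (.ev (nat_lit 1460) (nat_lit 256) (.ev
 (nat_lit 1469) (nat_lit 128) .dd))))))))) (.br (nat_lit 8) (.ch (nat_lit 7) (.ev (nat_lit 868) (nat_lit 128)
 (.nd (nat_lit 1088) (.br (nat_lit 3) (.br (nat_lit 2) (.ch (nat_lit 0) (.ev (nat_lit 1428) (nat_lit 2048) (.nd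
 (nat_lit 4448) (.br (nat_lit 6) (.ch (nat_lit 4) (.ev (nat_lit 4464) (nat_lit 256) (.ev (nat_lit 4477)
 (nat_lit 16) .dd))) (.br (nat_lit 8) (.ch (nat_lit 6) (.nd (nat_lit 5888) (.br (nat_lit 3) (.ch (nat_lit 2)
 (.fin (nat_lit 576509680483254840))) (.ch (nat_lit 3) (.ev (nat_lit 5904) (nat_lit 16) (.ev (nat_lit 5917)
 (nat_lit 256) .dd)))))) (.ch (nat_lit 8) (.ev (nat_lit 4464) (nat_lit 256) (.ev (nat_lit 4477) (nat_lit 16)
 .dd)))))))) (.ch (nat_lit 2) (.ev (nat_lit 1104) (nat_lit 16) (.ev (nat_lit 1684) (nat_lit 256) (.ev (nat_lit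
 1693) (nat_lit 2048) .dd))))) (.br (nat_lit 8) (.ch (nat_lit 3) (.ev (nat_lit 1104) (nat_lit 2048) (.ev
 (nat_lit 1140) (nat_lit 256) (.ev (nat_lit 1149) (nat_lit 16) .dd)))) (.ch (nat_lit 8) (.ev (nat_lit 1104)
 (nat_lit 272) (.ev (nat_lit 1117) (nat_lit 2048) .dd)))))))) (.ch (nat_lit 8) (.ev (nat_lit 720) (nat_lit 128)
 (.nd (nat_lit 1088) (.br (nat_lit 3) (.br (nat_lit 1) (.ch (nat_lit 0) (.ev (nat_lit 1104) (nat_lit 272) (.ev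
 (nat_lit 1117) (nat_lit 2048) .dd))) (.br (nat_lit 2) (.ch (nat_lit 1) (.ev (nat_lit 1104) (nat_lit 2048)
 (.fin (nat_lit 576403027975946802)))) (.ch (nat_lit 2) (.ev (nat_lit 1104) (nat_lit 256) (.ev (nat_lit 2816)
 (nat_lit 2064) .dd))))) (.br (nat_lit 8) (.br (nat_lit 7) (.ch (nat_lit 3) (.ev (nat_lit 1104) (nat_lit 256)
 (.ev (nat_lit 1396) (nat_lit 2048) (.ev (nat_lit 1405) (nat_lit 16) .dd)))) (.ch (nat_lit 7) (.ev (nat_lit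
 1104) (nat_lit 2304) (.ev (nat_lit 1117) (nat_lit 16) .dd)))) (.br (nat_lit 10) (.ch (nat_lit 8) (.ev (nat_lit
 1104) (nat_lit 256) (.ev (nat_lit 2692) (nat_lit 2048) (.ev (nat_lit 2701) (nat_lit 16) .dd)))) (.ch (nat_lit
 10) (.ev (nat_lit 1104) (nat_lit 272) (.ev (nat_lit 1117) (nat_lit 2048) .dd))))))))))))))) (.ch (nat_lit 2)
 (.ev (nat_lit 336) (nat_lit 64) (.nd (nat_lit 640) (.br (nat_lit 5) (.br (nat_lit 2) (.ch (nat_lit 1) (.ev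
 (nat_lit 656) (nat_lit 272) (.nd (nat_lit 1360) (.br (nat_lit 5) (.ch (nat_lit 1) (.ev (nat_lit 1684) (nat_lit
 2048) (.ev (nat_lit 1693) (nat_lit 128) .dd))) (.br (nat_lit 7) (.ch (nat_lit 5) (.ev (nat_lit 1508) (nat_lit
 128) (.ev (nat_lit 1517) (nat_lit 2048) .dd))) (.ch (nat_lit 7) (.ev (nat_lit 1396) (nat_lit 128) (.ev
 (nat_lit 1405) (nat_lit 2048) .dd)))))))) (.br (nat_lit 4) (.ch (nat_lit 2) (.nd (nat_lit 928) (.br (nat_lit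
 9) (.br (nat_lit 7) (.ch (nat_lit 1) (.ev (nat_lit 944) (nat_lit 128) (.ev (nat_lit 1428) (nat_lit 256) (.ev
 (nat_lit 2452) (nat_lit 2048) (.ev (nat_lit 2461) (nat_lit 16) .dd))))) (.ch (nat_lit 7) (.ev (nat_lit 1140)
 (nat_lit 256) (.ev (nat_lit 1652) (nat_lit 2048) (.ev (nat_lit 3476) (nat_lit 128) (.ev (nat_lit 3485)
 (nat_lit 16) .dd)))))) (.br (nat_lit 10) (.ch (nat_lit 9) (.ev (nat_lit 944) (nat_lit 2048) (.ev (nat_lit
 1428) (nat_lit 144) (.ev (nat_lit 1437) (nat_lit 256) .dd)))) (.ch (nat_lit 10) (.ev (nat_lit 944) (nat_lit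
 16) (.ev (nat_lit 1428) (nat_lit 128) (.fin (nat_lit 576452506056868292))))))))) (.ch (nat_lit 4) (.ev
 (nat_lit 656) (nat_lit 128) (.ev (nat_lit 676) (nat_lit 2048) (.nd (nat_lit 1232) (.br (nat_lit 4) (.br
 (nat_lit 3) (.ch (nat_lit 1) (.ev (nat_lit 1268) (nat_lit 16) (.ev (nat_lit 1277) (nat_lit 256) .dd))) (.ch
 (nat_lit 3) (.ev (nat_lit 2660) (nat_lit 16) (.ev (nat_lit 2669) (nat_lit 256) .dd)))) (.br (nat_lit 6) (.ch
 (nat_lit 4) (.ev (nat_lit 1248) (nat_lit 256) (.ev (nat_lit 1261) (nat_lit 16) .dd))) (.ch (nat_lit 6) (.ev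
 (nat_lit 1248) (nat_lit 16) (.ev (nat_lit 1261) (nat_lit 256) .dd))))))))))) (.br (nat_lit 7) (.ch (nat_lit 5)
 (.ev (nat_lit 656) (nat_lit 256) (.nd (nat_lit 992) (.br (nat_lit 3) (.br (nat_lit 1) (.ch (nat_lit 0) (.ev
 (nat_lit 1008) (nat_lit 128) (.ev (nat_lit 1748) (nat_lit 16) (.ev (nat_lit 1757) (nat_lit 2048) .dd)))) (.ch
 (nat_lit 1) (.ev (nat_lit 1460) (nat_lit 2048) (.ev (nat_lit 1540) (nat_lit 128) (.ev (nat_lit 1549) (nat_lit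
 16) .dd))))) (.br (nat_lit 6) (.ch (nat_lit 3) (.ev (nat_lit 3492) (nat_lit 128) (.nd (nat_lit 5024) (.br
 (nat_lit 8) (.ch (nat_lit 0) (.ev (nat_lit 5040) (nat_lit 2048) (.ev (nat_lit 5053) (nat_lit 16) .dd))) (.ch
 (nat_lit 8) (.fin (nat_lit 576482192802660948))))))) (.br (nat_lit 7) (.ch (nat_lit 6) (.ev (nat_lit 1008)
 (nat_lit 128) (.fin (nat_lit 576352450486157818)))) (.ch (nat_lit 7) (.ev (nat_lit 2836) (nat_lit 2048) (.ev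
 (nat_lit 2852) (nat_lit 16) (.ev (nat_lit 2861) (nat_lit 128) .dd)))))))))) (.br (nat_lit 8) (.ch (nat_lit 7)
 (.ev (nat_lit 656) (nat_lit 2048) (.nd (nat_lit 1232) (.br (nat_lit 6) (.br (nat_lit 3) (.ch (nat_lit 0) (.ev
 (nat_lit 1408) (nat_lit 128) (.ev (nat_lit 2208) (nat_lit 272) .dd))) (.br (nat_lit 4) (.ch (nat_lit 3) (.ev
 (nat_lit 1248) (nat_lit 256) (.ev (nat_lit 2660) (nat_lit 16) (.ev (nat_lit 2669) (nat_lit 128) .dd)))) (.ch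
 (nat_lit 4) (.ev (nat_lit 1248) (nat_lit 16) (.ev (nat_lit 1268) (nat_lit 128) (.ev (nat_lit 1277) (nat_lit
 256) .dd)))))) (.br (nat_lit 9) (.br (nat_lit 8) (.ch (nat_lit 6) (.ev (nat_lit 1248) (nat_lit 16) (.fin
 (nat_lit 576412923580596753)))) (.ch (nat_lit 8) (.ev (nat_lit 1248) (nat_lit 256) (.ev (nat_lit 1284)
 (nat_lit 128) (.ev (nat_lit 1293) (nat_lit 16) .dd))))) (.br (nat_lit 10) (.ch (nat_lit 9) (.ev (nat_lit 1248)
 (nat_lit 128) (.ev (nat_lit 1268) (nat_lit 256) (.ev (nat_lit 1277) (nat_lit 16) .dd)))) (.ch (nat_lit 10)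
 (.ev (nat_lit 1248) (nat_lit 128) (.ev (nat_lit 1268) (nat_lit 256) (.ev (nat_lit 1277) (nat_lit 16)
 .dd)))))))))) (.ch (nat_lit 8) (.ev (nat_lit 656) (nat_lit 2064) (.nd (nat_lit 1952) (.br (nat_lit 10) (.ch
 (nat_lit 3) (.fin (nat_lit 576434913700954699))) (.ch (nat_lit 10) (.ev (nat_lit 2052) (nat_lit 128) (.ev
 (nat_lit 2061) (nat_lit 256) .dd))))))))))))))) (.br (nat_lit 9) (.br (nat_lit 5) (.ch (nat_lit 4) (.ev
 (nat_lit 336) (nat_lit 2304) (.nd (nat_lit 704) (.br (nat_lit 6) (.br (nat_lit 2) (.ch (nat_lit 0) (.ev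
 (nat_lit 720) (nat_lit 16) (.nd (nat_lit 1952) (.br (nat_lit 6) (.br (nat_lit 4) (.ch (nat_lit 1) (.ev
 (nat_lit 3444) (nat_lit 128) (.ev (nat_lit 3453) (nat_lit 64) .dd))) (.ch (nat_lit 4) (.ev (nat_lit 3476)
 (nat_lit 128) (.ev (nat_lit 3485) (nat_lit 64) .dd)))) (.br (nat_lit 8) (.ch (nat_lit 6) (.ev (nat_lit 2052)
 (nat_lit 128) (.ev (nat_lit 2061) (nat_lit 64) .dd))) (.br (nat_lit 9) (.ch (nat_lit 8) (.fin (nat_lit
 576404127440388624))) (.ch (nat_lit 9) (.ev (nat_lit 2052) (nat_lit 128) (.ev (nat_lit 2061) (nat_lit 64)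
 .dd))))))))) (.br (nat_lit 5) (.ch (nat_lit 2) (.nd (nat_lit 3664) (.br (nat_lit 8) (.br (nat_lit 6) (.ch
 (nat_lit 0) (.ev (nat_lit 3680) (nat_lit 192) (.ev (nat_lit 3693) (nat_lit 16) .dd))) (.ch (nat_lit 6) (.ev
 (nat_lit 3872) (nat_lit 16) (.ev (nat_lit 4272) (nat_lit 192) .dd)))) (.br (nat_lit 10) (.ch (nat_lit 8) (.ev
 (nat_lit 3680) (nat_lit 80) (.ev (nat_lit 3693) (nat_lit 128) .dd))) (.ch (nat_lit 10) (.ev (nat_lit 3680)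
 (nat_lit 128) (.fin (nat_lit 576464600588304964)))))))) (.ch (nat_lit 5) (.nd (nat_lit 1952) (.br (nat_lit 7)
 (.br (nat_lit 2) (.ch (nat_lit 0) (.ev (nat_lit 1968) (nat_lit 80) (.ev (nat_lit 1981) (nat_lit 128) .dd)))
 (.ch (nat_lit 2) (.ev (nat_lit 2052) (nat_lit 128) (.ev (nat_lit 2852) (nat_lit 16) (.ev (nat_lit 2861)
 (nat_lit 64) .dd))))) (.br (nat_lit 8) (.ch (nat_lit 7) (.ev (nat_lit 1968) (nat_lit 144) (.ev (nat_lit 1981)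
 (nat_lit 64) .dd))) (.br (nat_lit 10) (.ch (nat_lit 8) (.ev (nat_lit 2528) (nat_lit 192) (.ev (nat_lit 2541)
 (nat_lit 16) .dd))) (.ch (nat_lit 10) (.ev (nat_lit 1968) (nat_lit 80) (.ev (nat_lit 1981) (nat_lit 128)
 .dd)))))))))) (.br (nat_lit 7) (.ch (nat_lit 6) (.ev (nat_lit 720) (nat_lit 144) (.ev (nat_lit 733) (nat_lit
 64) .dd))) (.br (nat_lit 10) (.ch (nat_lit 7) (.ev (nat_lit 720) (nat_lit 64) (.ev (nat_lit 884) (nat_lit 16)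
 (.ev (nat_lit 893) (nat_lit 128) .dd)))) (.ch (nat_lit 10) (.ev (nat_lit 720) (nat_lit 128) (.nd (nat_lit
 3792) (.br (nat_lit 9) (.ch (nat_lit 2) (.ev (nat_lit 3844) (nat_lit 16) (.ev (nat_lit 3853) (nat_lit 64)
 .dd))) (.ch (nat_lit 9) (.ev (nat_lit 3828) (nat_lit 16) (.ev (nat_lit 3837) (nat_lit 64) .dd)))))))))))))
 (.ch (nat_lit 5) (.ev (nat_lit 336) (nat_lit 128) (.nd (nat_lit 832) (.br (nat_lit 7) (.br (nat_lit 4) (.ch
 (nat_lit 3) (.ev (nat_lit 848) (nat_lit 2064) (.nd (nat_lit 1232) (.br (nat_lit 6) (.br (nat_lit 5) (.ch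
 (nat_lit 1) (.ev (nat_lit 1248) (nat_lit 64) (.ev (nat_lit 1261) (nat_lit 256) .dd))) (.ch (nat_lit 5) (.ev
 (nat_lit 2420) (nat_lit 256) (.ev (nat_lit 2429) (nat_lit 64) .dd)))) (.br (nat_lit 7) (.ch (nat_lit 6) (.ev
 (nat_lit 1248) (nat_lit 256) (.ev (nat_lit 1261) (nat_lit 64) .dd))) (.br (nat_lit 10) (.ch (nat_lit 7) (.ev
 (nat_lit 1248) (nat_lit 64) (.ev (nat_lit 1261) (nat_lit 256) .dd))) (.ch (nat_lit 10) (.ev (nat_lit 1248)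
 (nat_lit 64) (.ev (nat_lit 1261) (nat_lit 256) .dd))))))))) (.br (nat_lit 6) (.ch (nat_lit 4) (.ev (nat_lit
 848) (nat_lit 2048) (.nd (nat_lit 1360) (.br (nat_lit 7) (.br (nat_lit 6) (.ch (nat_lit 1) (.ev (nat_lit 1376)
 (nat_lit 16) (.ev (nat_lit 1508) (nat_lit 256) (.ev (nat_lit 1517) (nat_lit 64) .dd)))) (.ch (nat_lit 6) (.ev
 (nat_lit 1376) (nat_lit 16) (.ev (nat_lit 1924) (nat_lit 64) (.ev (nat_lit 1933) (nat_lit 256) .dd))))) (.br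
 (nat_lit 8) (.ch (nat_lit 7) (.ev (nat_lit 1376) (nat_lit 256) (.ev (nat_lit 1924) (nat_lit 64) (.ev (nat_lit
 1933) (nat_lit 16) .dd)))) (.br (nat_lit 9) (.ch (nat_lit 8) (.ev (nat_lit 1376) (nat_lit 64) (.fin (nat_lit
 576466799625191940)))) (.ch (nat_lit 9) (.ev (nat_lit 1376) (nat_lit 64) (.ev (nat_lit 3524) (nat_lit 256)
 (.ev (nat_lit 3533) (nat_lit 16) .dd)))))))))) (.ch (nat_lit 6) (.ev (nat_lit 848) (nat_lit 320) (.nd (nat_lit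
 3792) (.br (nat_lit 4) (.ch (nat_lit 2) (.fin (nat_lit 576472297180185155))) (.br (nat_lit 9) (.ch (nat_lit 4)
 (.ev (nat_lit 4196) (nat_lit 2048) (.ev (nat_lit 4205) (nat_lit 16) .dd))) (.ch (nat_lit 9) (.ev (nat_lit
 4196) (nat_lit 16) (.ev (nat_lit 4205) (nat_lit 2048) .dd)))))))))) (.br (nat_lit 9) (.br (nat_lit 8) (.ch
 (nat_lit 7) (.ev (nat_lit 848) (nat_lit 16) (.ev (nat_lit 868) (nat_lit 2048) (.nd (nat_lit 1360) (.br
 (nat_lit 4) (.br (nat_lit 3) (.ch (nat_lit 0) (.ev (nat_lit 2228) (nat_lit 256) (.ev (nat_lit 2237) (nat_lit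
 64) .dd))) (.ch (nat_lit 3) (.ev (nat_lit 1376) (nat_lit 64) (.ev (nat_lit 1389) (nat_lit 256) .dd)))) (.br
 (nat_lit 8) (.ch (nat_lit 4) (.ev (nat_lit 1396) (nat_lit 256) (.ev (nat_lit 1405) (nat_lit 64) .dd))) (.br
 (nat_lit 10) (.ch (nat_lit 8) (.ev (nat_lit 1376) (nat_lit 64) (.ev (nat_lit 1389) (nat_lit 256) .dd))) (.ch
 (nat_lit 10) (.ev (nat_lit 1844) (nat_lit 256) (.ev (nat_lit 1853) (nat_lit 64) .dd)))))))))) (.ch (nat_lit 8)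
 (.ev (nat_lit 848) (nat_lit 2368) (.ev (nat_lit 861) (nat_lit 16) .dd)))) (.br (nat_lit 10) (.ch (nat_lit 9)
 (.ev (nat_lit 868) (nat_lit 16) (.ev (nat_lit 916) (nat_lit 64) (.nd (nat_lit 1232) (.br (nat_lit 7) (.br
 (nat_lit 3) (.ch (nat_lit 2) (.ev (nat_lit 1248) (nat_lit 2048) (.ev (nat_lit 1261) (nat_lit 256) .dd))) (.br
 (nat_lit 5) (.ch (nat_lit 3) (.ev (nat_lit 1248) (nat_lit 2048) (.ev (nat_lit 1261) (nat_lit 256) .dd))) (.ch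
 (nat_lit 5) (.ev (nat_lit 1248) (nat_lit 256) (.ev (nat_lit 1261) (nat_lit 2048) .dd))))) (.br (nat_lit 9)
 (.br (nat_lit 8) (.ch (nat_lit 7) (.nd (nat_lit 5104) (.br (nat_lit 9) (.ch (nat_lit 6) (.ev (nat_lit 5120)
 (nat_lit 256) (.ev (nat_lit 5133) (nat_lit 2048) .dd))) (.ch (nat_lit 9) (.fin (nat_lit
 576436013305905729)))))) (.ch (nat_lit 8) (.ev (nat_lit 1248) (nat_lit 256) (.ev (nat_lit 1261) (nat_lit 2048)
 .dd)))) (.br (nat_lit 10) (.ch (nat_lit 9) (.ev (nat_lit 1248) (nat_lit 2048) (.ev (nat_lit 1261) (nat_lit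
 256) .dd))) (.ch (nat_lit 10) (.ev (nat_lit 1248) (nat_lit 256) (.ev (nat_lit 1261) (nat_lit 2048)
 .dd)))))))))) (.ch (nat_lit 10) (.nd (nat_lit 1232) (.br (nat_lit 7) (.br (nat_lit 3) (.ch (nat_lit 2) (.ev
 (nat_lit 1248) (nat_lit 80) (.ev (nat_lit 1684) (nat_lit 256) (.ev (nat_lit 1693) (nat_lit 2048) .dd)))) (.br
 (nat_lit 5) (.ch (nat_lit 3) (.ev (nat_lit 1588) (nat_lit 64) (.ev (nat_lit 2356) (nat_lit 2048) (.ev (nat_lit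
 2516) (nat_lit 16) (.ev (nat_lit 2525) (nat_lit 256) .dd))))) (.ch (nat_lit 5) (.ev (nat_lit 1248) (nat_lit
 2112) (.fin (nat_lit 576340355765977385)))))) (.br (nat_lit 9) (.ch (nat_lit 7) (.ev (nat_lit 1248) (nat_lit
 2064) (.ev (nat_lit 1588) (nat_lit 64) (.ev (nat_lit 1597) (nat_lit 256) .dd)))) (.br (nat_lit 10) (.ch
 (nat_lit 9) (.ev (nat_lit 1248) (nat_lit 256) (.ev (nat_lit 1588) (nat_lit 64) (.ev (nat_lit 2052) (nat_lit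
 16) (.ev (nat_lit 2061) (nat_lit 2048) .dd))))) (.ch (nat_lit 10) (.ev (nat_lit 1248) (nat_lit 64) (.ev
 (nat_lit 2052) (nat_lit 2048) (.ev (nat_lit 3508) (nat_lit 256) (.ev (nat_lit 3517) (nat_lit 16)
 .dd))))))))))))))))) (.br (nat_lit 10) (.ch (nat_lit 9) (.ev (nat_lit 336) (nat_lit 2320) (.nd (nat_lit 640)
 (.br (nat_lit 8) (.ch (nat_lit 4) (.ev (nat_lit 676) (nat_lit 128) (.ev (nat_lit 685) (nat_lit 64) .dd))) (.br
 (nat_lit 9) (.ch (nat_lit 8) (.nd (nat_lit 1952) (.br (nat_lit 7) (.br (nat_lit 3) (.ch (nat_lit 2) (.fin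
 (nat_lit 576489889310655023))) (.ch (nat_lit 3) (.ev (nat_lit 2292) (nat_lit 64) (.ev (nat_lit 2301) (nat_lit
 128) .dd)))) (.br (nat_lit 8) (.ch (nat_lit 7) (.ev (nat_lit 2452) (nat_lit 64) (.ev (nat_lit 2461) (nat_lit
 128) .dd))) (.br (nat_lit 10) (.ch (nat_lit 8) (.ev (nat_lit 2468) (nat_lit 128) (.ev (nat_lit 2477) (nat_lit
 64) .dd))) (.ch (nat_lit 10) (.ev (nat_lit 2324) (nat_lit 128) (.ev (nat_lit 2333) (nat_lit 64) .dd))))))))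
 (.ch (nat_lit 9) (.nd (nat_lit 1360) (.br (nat_lit 8) (.ch (nat_lit 4) (.ev (nat_lit 3252) (nat_lit 64) (.ev
 (nat_lit 3261) (nat_lit 128) .dd))) (.br (nat_lit 9) (.ch (nat_lit 8) (.ev (nat_lit 2068) (nat_lit 128) (.ev
 (nat_lit 2077) (nat_lit 64) .dd))) (.ch (nat_lit 9) (.ev (nat_lit 3476) (nat_lit 128) (.ev (nat_lit 3485)
 (nat_lit 64) .dd)))))))))))) (.ch (nat_lit 10) (.ev (nat_lit 336) (nat_lit 16) (.nd (nat_lit 640) (.br
 (nat_lit 4) (.br (nat_lit 2) (.ch (nat_lit 1) (.ev (nat_lit 656) (nat_lit 64) (.nd (nat_lit 992) (.br (nat_lit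
 6) (.br (nat_lit 5) (.ch (nat_lit 3) (.ev (nat_lit 1008) (nat_lit 128) (.ev (nat_lit 1140) (nat_lit 256) (.ev
 (nat_lit 1149) (nat_lit 2048) .dd)))) (.ch (nat_lit 5) (.ev (nat_lit 1140) (nat_lit 256) (.ev (nat_lit 1684)
 (nat_lit 2048) (.ev (nat_lit 1693) (nat_lit 128) .dd))))) (.br (nat_lit 8) (.ch (nat_lit 6) (.ev (nat_lit
 1008) (nat_lit 256) (.ev (nat_lit 1428) (nat_lit 128) (.ev (nat_lit 1437) (nat_lit 2048) .dd)))) (.br (nat_lit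
 9) (.ch (nat_lit 8) (.ev (nat_lit 1008) (nat_lit 256) (.fin (nat_lit 576430515769786878)))) (.ch (nat_lit 9)
 (.ev (nat_lit 1008) (nat_lit 2048) (.ev (nat_lit 1748) (nat_lit 256) (.ev (nat_lit 1757) (nat_lit 128)
 .dd)))))))))) (.br (nat_lit 3) (.ch (nat_lit 2) (.nd (nat_lit 1088) (.br (nat_lit 5) (.br (nat_lit 3) (.ch
 (nat_lit 0) (.ev (nat_lit 1104) (nat_lit 64) (.ev (nat_lit 1600) (nat_lit 2048) (.ev (nat_lit 2564) (nat_lit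
 256) (.ev (nat_lit 2573) (nat_lit 128) .dd))))) (.br (nat_lit 4) (.ch (nat_lit 3) (.ev (nat_lit 1104) (nat_lit
 192) (.ev (nat_lit 1284) (nat_lit 256) (.ev (nat_lit 1293) (nat_lit 2048) .dd)))) (.ch (nat_lit 4) (.ev
 (nat_lit 1540) (nat_lit 128) (.nd (nat_lit 4384) (.br (nat_lit 4) (.ch (nat_lit 3) (.ev (nat_lit 4400)
 (nat_lit 64) (.fin (nat_lit 576467899142062645)))) (.br (nat_lit 7) (.ch (nat_lit 4) (.ev (nat_lit 4400)
 (nat_lit 2048) (.ev (nat_lit 4708) (nat_lit 256) (.ev (nat_lit 4717) (nat_lit 64) .dd)))) (.ch (nat_lit 7)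
 (.ev (nat_lit 4400) (nat_lit 2112) (.ev (nat_lit 4413) (nat_lit 256) .dd)))))))))) (.br (nat_lit 7) (.ch
 (nat_lit 5) (.ev (nat_lit 1104) (nat_lit 2304) (.ev (nat_lit 1268) (nat_lit 128) (.ev (nat_lit 1277) (nat_lit
 64) .dd)))) (.br (nat_lit 10) (.ch (nat_lit 7) (.ev (nat_lit 1104) (nat_lit 2048) (.ev (nat_lit 2100) (nat_lit
 256) (.ev (nat_lit 2148) (nat_lit 64) (.ev (nat_lit 2157) (nat_lit 128) .dd))))) (.ch (nat_lit 10) (.ev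
 (nat_lit 1104) (nat_lit 256) (.ev (nat_lit 4016) (nat_lit 128) (.ev (nat_lit 5236) (nat_lit 64) (.ev (nat_lit
 5245) (nat_lit 2048) .dd)))))))))) (.ch (nat_lit 3) (.ev (nat_lit 656) (nat_lit 2304) (.ev (nat_lit 2852)
 (nat_lit 128) (.ev (nat_lit 2861) (nat_lit 64) .dd)))))) (.br (nat_lit 9) (.ch (nat_lit 4) (.ev (nat_lit 656)
 (nat_lit 2112) (.nd (nat_lit 992) (.br (nat_lit 7) (.ch (nat_lit 0) (.ev (nat_lit 1508) (nat_lit 128) (.ev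
 (nat_lit 1517) (nat_lit 256) .dd))) (.br (nat_lit 8) (.ch (nat_lit 7) (.ev (nat_lit 1652) (nat_lit 128) (.ev
 (nat_lit 1661) (nat_lit 256) .dd))) (.ch (nat_lit 8) (.ev (nat_lit 1124) (nat_lit 256) (.ev (nat_lit 1133)
 (nat_lit 128) .dd)))))))) (.br (nat_lit 10) (.ch (nat_lit 9) (.ev (nat_lit 656) (nat_lit 256) (.ev (nat_lit
 676) (nat_lit 64) (.nd (nat_lit 1088) (.br (nat_lit 5) (.ch (nat_lit 4) (.ev (nat_lit 1652) (nat_lit 128) (.ev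
 (nat_lit 1661) (nat_lit 2048) .dd))) (.br (nat_lit 8) (.ch (nat_lit 5) (.ev (nat_lit 2116) (nat_lit 128) (.ev
 (nat_lit 2125) (nat_lit 2048) .dd))) (.ch (nat_lit 8) (.ev (nat_lit 2420) (nat_lit 128) (.ev (nat_lit 2429)
 (nat_lit 2048) .dd))))))))) (.ch (nat_lit 10) (.ev (nat_lit 656) (nat_lit 128) (.nd (nat_lit 1232) (.br
 (nat_lit 3) (.br (nat_lit 2) (.ch (nat_lit 0) (.ev (nat_lit 1396) (nat_lit 2048) (.ev (nat_lit 1428) (nat_lit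
 64) (.ev (nat_lit 1437) (nat_lit 256) .dd)))) (.ch (nat_lit 2) (.ev (nat_lit 1248) (nat_lit 2048) (.ev
 (nat_lit 1268) (nat_lit 64) (.ev (nat_lit 1277) (nat_lit 256) .dd))))) (.br (nat_lit 6) (.ch (nat_lit 3) (.ev
 (nat_lit 1248) (nat_lit 256) (.fin (nat_lit 576410724525883935)))) (.br (nat_lit 8) (.ch (nat_lit 6) (.ev
 (nat_lit 1248) (nat_lit 64) (.ev (nat_lit 1396) (nat_lit 2048) (.ev (nat_lit 1405) (nat_lit 256) .dd)))) (.ch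
 (nat_lit 8) (.ev (nat_lit 1396) (nat_lit 2048) (.fin (nat_lit 576403027941343761))))))))))))))))))))))) (.br
 (nat_lit 10) (.ch (nat_lit 9) (.ev (nat_lit 48) (nat_lit 464) (.nd (nat_lit 96) (.br (nat_lit 4) (.br (nat_lit
 2) (.ch (nat_lit 0) (.nd (nat_lit 384) (.br (nat_lit 4) (.br (nat_lit 2) (.ch (nat_lit 0) (.nd (nat_lit 928)
 (.br (nat_lit 6) (.br (nat_lit 4) (.ch (nat_lit 0) (.ev (nat_lit 2528) (nat_lit 36) (.fin (nat_lit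
 576443709843259905)))) (.ch (nat_lit 4) (.ev (nat_lit 944) (nat_lit 2048) (.ev (nat_lit 2324) (nat_lit 1024)
 (.fin (nat_lit 576412923501953588)))))) (.br (nat_lit 8) (.ch (nat_lit 6) (.ev (nat_lit 944) (nat_lit 1024)
 (.ev (nat_lit 1076) (nat_lit 4) (.ev (nat_lit 2724) (nat_lit 2048) (.ev (nat_lit 2733) (nat_lit 32) .dd)))))
 (.br (nat_lit 9) (.ch (nat_lit 8) (.ev (nat_lit 944) (nat_lit 1056) (.ev (nat_lit 2292) (nat_lit 2048) (.ev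
 (nat_lit 2301) (nat_lit 4) .dd)))) (.ch (nat_lit 9) (.ev (nat_lit 944) (nat_lit 1028) (.ev (nat_lit 1044)
 (nat_lit 32) (.ev (nat_lit 1053) (nat_lit 2048) .dd))))))))) (.br (nat_lit 3) (.ch (nat_lit 2) (.nd (nat_lit
 928) (.br (nat_lit 7) (.br (nat_lit 2) (.ch (nat_lit 0) (.ev (nat_lit 944) (nat_lit 32) (.ev (nat_lit 1860)
 (nat_lit 4) (.ev (nat_lit 2100) (nat_lit 2048) (.ev (nat_lit 2109) (nat_lit 1024) .dd))))) (.ch (nat_lit 2)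
 (.ev (nat_lit 944) (nat_lit 1028) (.ev (nat_lit 3540) (nat_lit 32) (.ev (nat_lit 3549) (nat_lit 2048) .dd)))))
 (.br (nat_lit 8) (.ch (nat_lit 7) (.ev (nat_lit 1396) (nat_lit 1024) (.ev (nat_lit 2052) (nat_lit 2080) (.ev
 (nat_lit 2061) (nat_lit 4) .dd)))) (.br (nat_lit 9) (.ch (nat_lit 8) (.ev (nat_lit 944) (nat_lit 32) (.ev
 (nat_lit 2052) (nat_lit 2048) (.ev (nat_lit 3476) (nat_lit 4) (.ev (nat_lit 3485) (nat_lit 1024) .dd))))) (.ch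
 (nat_lit 9) (.ev (nat_lit 944) (nat_lit 4) (.ev (nat_lit 2564) (nat_lit 1024) (.ev (nat_lit 3364) (nat_lit
 2048) (.ev (nat_lit 3373) (nat_lit 32) .dd)))))))))) (.ch (nat_lit 3) (.ev (nat_lit 400) (nat_lit 1056) (.nd
 (nat_lit 1952) (.br (nat_lit 6) (.ch (nat_lit 3) (.ev (nat_lit 2324) (nat_lit 2048) (.ev (nat_lit 2333)
 (nat_lit 4) .dd))) (.ch (nat_lit 6) (.ev (nat_lit 2292) (nat_lit 4) (.ev (nat_lit 2301) (nat_lit 2048)
 .dd))))))))) (.br (nat_lit 6) (.ch (nat_lit 4) (.ev (nat_lit 400) (nat_lit 32) (.nd (nat_lit 928) (.br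
 (nat_lit 4) (.ch (nat_lit 0) (.ev (nat_lit 3988) (nat_lit 4) (.ev (nat_lit 4884) (nat_lit 1024) (.ev (nat_lit
 4893) (nat_lit 2048) .dd)))) (.br (nat_lit 10) (.ch (nat_lit 4) (.ev (nat_lit 944) (nat_lit 2048) (.ev
 (nat_lit 1172) (nat_lit 1024) (.ev (nat_lit 1181) (nat_lit 4) .dd)))) (.ch (nat_lit 10) (.ev (nat_lit 3364)
 (nat_lit 2048) (.nd (nat_lit 4960) (.br (nat_lit 7) (.ch (nat_lit 5) (.fin (nat_lit 576501984036078143))) (.ch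
 (nat_lit 7) (.ev (nat_lit 4976) (nat_lit 4) (.ev (nat_lit 4989) (nat_lit 1024) .dd)))))))))))) (.br (nat_lit
 7) (.ch (nat_lit 6) (.ev (nat_lit 400) (nat_lit 2052) (.nd (nat_lit 1232) (.br (nat_lit 8) (.br (nat_lit 7)
 (.ch (nat_lit 3) (.ev (nat_lit 1684) (nat_lit 1024) (.ev (nat_lit 1693) (nat_lit 32) .dd))) (.ch (nat_lit 7)
 (.ev (nat_lit 1588) (nat_lit 1024) (.ev (nat_lit 1597) (nat_lit 32) .dd)))) (.br (nat_lit 9) (.ch (nat_lit 8)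
 (.ev (nat_lit 1396) (nat_lit 32) (.ev (nat_lit 1405) (nat_lit 1024) .dd))) (.ch (nat_lit 9) (.ev (nat_lit
 1540) (nat_lit 32) (.ev (nat_lit 1549) (nat_lit 1024) .dd)))))))) (.ch (nat_lit 7) (.ev (nat_lit 400) (nat_lit
 1024) (.nd (nat_lit 1232) (.br (nat_lit 4) (.br (nat_lit 3) (.ch (nat_lit 2) (.ev (nat_lit 1248) (nat_lit
 2048) (.ev (nat_lit 2100) (nat_lit 4) (.ev (nat_lit 2109) (nat_lit 32) .dd)))) (.ch (nat_lit 3) (.ev (nat_lit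
 1248) (nat_lit 2048) (.ev (nat_lit 1428) (nat_lit 4) (.ev (nat_lit 1437) (nat_lit 32) .dd))))) (.br (nat_lit
 6) (.ch (nat_lit 4) (.ev (nat_lit 1248) (nat_lit 2048) (.ev (nat_lit 2612) (nat_lit 4) (.ev (nat_lit 2621)
 (nat_lit 32) .dd)))) (.br (nat_lit 8) (.ch (nat_lit 6) (.ev (nat_lit 1844) (nat_lit 4) (.ev (nat_lit 2068)
 (nat_lit 32) (.ev (nat_lit 2077) (nat_lit 2048) .dd)))) (.ch (nat_lit 8) (.ev (nat_lit 1248) (nat_lit 2048)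
 (.ev (nat_lit 1268) (nat_lit 4) (.ev (nat_lit 1277) (nat_lit 32) .dd))))))))))))))) (.br (nat_lit 3) (.ch
 (nat_lit 2) (.ev (nat_lit 112) (nat_lit 4) (.ev (nat_lit 260) (nat_lit 2048) (.nd (nat_lit 704) (.br (nat_lit
 7) (.br (nat_lit 3) (.ch (nat_lit 1) (.ev (nat_lit 720) (nat_lit 1024) (.ev (nat_lit 733) (nat_lit 32) .dd)))
 (.br (nat_lit 6) (.ch (nat_lit 3) (.ev (nat_lit 720) (nat_lit 1056) .dd)) (.ch (nat_lit 6) (.nd (nat_lit 1952)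
 (.br (nat_lit 7) (.br (nat_lit 5) (.ch (nat_lit 3) (.ev (nat_lit 1968) (nat_lit 32) (.ev (nat_lit 1981)
 (nat_lit 1024) .dd))) (.br (nat_lit 6) (.ch (nat_lit 5) (.ev (nat_lit 2052) (nat_lit 1024) (.ev (nat_lit 2061)
 (nat_lit 32) .dd))) (.ch (nat_lit 6) (.ev (nat_lit 1968) (nat_lit 1024) (.ev (nat_lit 1981) (nat_lit 32)
 .dd))))) (.br (nat_lit 8) (.ch (nat_lit 7) (.ev (nat_lit 1968) (nat_lit 32) (.ev (nat_lit 1981) (nat_lit 1024)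
 .dd))) (.br (nat_lit 9) (.ch (nat_lit 8) (.ev (nat_lit 2052) (nat_lit 1024) (.ev (nat_lit 2061) (nat_lit 32)
 .dd))) (.ch (nat_lit 9) (.ev (nat_lit 2260) (nat_lit 32) (.ev (nat_lit 2269) (nat_lit 1024) .dd)))))))))) (.br
 (nat_lit 9) (.br (nat_lit 8) (.ch (nat_lit 7) (.nd (nat_lit 4160) (.br (nat_lit 5) (.ch (nat_lit 3) (.ev
 (nat_lit 4176) (nat_lit 32) (.ev (nat_lit 4189) (nat_lit 1024) .dd))) (.ch (nat_lit 5) (.nd (nat_lit 5600)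
 (.br (nat_lit 3) (.ch (nat_lit 2) (.ev (nat_lit 5616) (nat_lit 32) (.ev (nat_lit 5629) (nat_lit 1024) .dd)))
 (.br (nat_lit 8) (.ch (nat_lit 3) (.fin (nat_lit 576522874723451478))) (.ch (nat_lit 8) (.ev (nat_lit 5684)
 (nat_lit 1024) (.ev (nat_lit 5693) (nat_lit 32) .dd)))))))))) (.ch (nat_lit 8) (.ev (nat_lit 720) (nat_lit
 1024) (.ev (nat_lit 733) (nat_lit 32) .dd)))) (.br (nat_lit 10) (.ch (nat_lit 9) (.nd (nat_lit 1360) (.br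
 (nat_lit 7) (.br (nat_lit 3) (.ch (nat_lit 0) (.ev (nat_lit 2660) (nat_lit 32) (.ev (nat_lit 2669) (nat_lit
 1024) .dd))) (.ch (nat_lit 3) (.nd (nat_lit 4960) (.br (nat_lit 7) (.ch (nat_lit 4) (.ev (nat_lit 5012)
 (nat_lit 32) (.ev (nat_lit 5021) (nat_lit 1024) .dd))) (.ch (nat_lit 7) (.fin (nat_lit
 576359047398638133))))))) (.br (nat_lit 9) (.ch (nat_lit 7) (.ev (nat_lit 1376) (nat_lit 32) (.ev (nat_lit
 1389) (nat_lit 1024) .dd))) (.br (nat_lit 10) (.ch (nat_lit 9) (.ev (nat_lit 1376) (nat_lit 32) (.ev (nat_lit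
 1389) (nat_lit 1024) .dd))) (.ch (nat_lit 10) (.ev (nat_lit 1396) (nat_lit 1024) (.ev (nat_lit 1405) (nat_lit
 32) .dd)))))))) (.ch (nat_lit 10) (.ev (nat_lit 720) (nat_lit 32) (.ev (nat_lit 733) (nat_lit 1024)
 .dd)))))))))) (.ch (nat_lit 3) (.ev (nat_lit 112) (nat_lit 32) (.nd (nat_lit 832) (.br (nat_lit 6) (.br
 (nat_lit 2) (.ch (nat_lit 0) (.ev (nat_lit 848) (nat_lit 3072) (.ev (nat_lit 861) (nat_lit 4) .dd))) (.br
 (nat_lit 3) (.ch (nat_lit 2) (.ev (nat_lit 868) (nat_lit 1024) (.ev (nat_lit 3444) (nat_lit 4) (.ev (nat_lit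
 3453) (nat_lit 2048) .dd)))) (.ch (nat_lit 3) (.ev (nat_lit 848) (nat_lit 4) (.ev (nat_lit 868) (nat_lit 2048)
 (.ev (nat_lit 877) (nat_lit 1024) .dd)))))) (.br (nat_lit 9) (.br (nat_lit 8) (.ch (nat_lit 6) (.ev (nat_lit
 848) (nat_lit 2048) (.nd (nat_lit 3664) (.br (nat_lit 5) (.ch (nat_lit 1) (.ev (nat_lit 3680) (nat_lit 4) (.ev
 (nat_lit 3693) (nat_lit 1024) .dd))) (.br (nat_lit 6) (.ch (nat_lit 5) (.ev (nat_lit 3680) (nat_lit 1024) (.ev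
 (nat_lit 3693) (nat_lit 4) .dd))) (.ch (nat_lit 6) (.ev (nat_lit 4324) (nat_lit 1024) (.ev (nat_lit 4333)
 (nat_lit 4) .dd)))))))) (.ch (nat_lit 8) (.ev (nat_lit 848) (nat_lit 2052) (.ev (nat_lit 861) (nat_lit 1024)
 .dd)))) (.br (nat_lit 10) (.ch (nat_lit 9) (.ev (nat_lit 884) (nat_lit 1024) (.ev (nat_lit 3764) (nat_lit
 2048) (.ev (nat_lit 3773) (nat_lit 4) .dd)))) (.ch (nat_lit 10) (.ev (nat_lit 848) (nat_lit 1024) (.ev
 (nat_lit 2724) (nat_lit 4) (.ev (nat_lit 2733) (nat_lit 2048) .dd)))))))))))) (.br (nat_lit 7) (.br (nat_lit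
 5) (.ch (nat_lit 4) (.ev (nat_lit 112) (nat_lit 3072) (.nd (nat_lit 704) (.br (nat_lit 1) (.ch (nat_lit 0)
 (.ev (nat_lit 740) (nat_lit 32) (.ev (nat_lit 749) (nat_lit 4) .dd))) (.br (nat_lit 4) (.ch (nat_lit 1) (.nd
 (nat_lit 1952) (.br (nat_lit 4) (.br (nat_lit 1) (.ch (nat_lit 0) (.ev (nat_lit 2304) (nat_lit 36) .dd)) (.ch
 (nat_lit 1) (.ev (nat_lit 3412) (nat_lit 4) (.ev (nat_lit 3421) (nat_lit 32) .dd)))) (.br (nat_lit 8) (.ch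
 (nat_lit 4) (.ev (nat_lit 2660) (nat_lit 32) (.ev (nat_lit 2669) (nat_lit 4) .dd))) (.br (nat_lit 10) (.ch
 (nat_lit 8) (.ev (nat_lit 4132) (nat_lit 4) (.ev (nat_lit 4141) (nat_lit 32) .dd))) (.ch (nat_lit 10) (.ev
 (nat_lit 3364) (nat_lit 4) (.ev (nat_lit 3373) (nat_lit 32) .dd)))))))) (.ch (nat_lit 4) (.ev (nat_lit 3444)
 (nat_lit 4) (.ev (nat_lit 3453) (nat_lit 32) .dd)))))))) (.ch (nat_lit 5) (.ev (nat_lit 112) (nat_lit 2052)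
 (.nd (nat_lit 464) (.br (nat_lit 3) (.br (nat_lit 1) (.ch (nat_lit 0) (.ev (nat_lit 480) (nat_lit 32) (.ev
 (nat_lit 493) (nat_lit 1024) .dd))) (.br (nat_lit 2) (.ch (nat_lit 1) (.ev (nat_lit 480) (nat_lit 1024) (.ev
 (nat_lit 493) (nat_lit 32) .dd))) (.ch (nat_lit 2) (.ev (nat_lit 480) (nat_lit 1024) (.ev (nat_lit 493)
 (nat_lit 32) .dd))))) (.br (nat_lit 5) (.ch (nat_lit 3) (.nd (nat_lit 1952) (.br (nat_lit 6) (.br (nat_lit 5)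
 (.ch (nat_lit 3) (.ev (nat_lit 1968) (nat_lit 32) (.ev (nat_lit 1981) (nat_lit 1024) .dd))) (.ch (nat_lit 5)
 (.nd (nat_lit 5264) (.br (nat_lit 2) (.ch (nat_lit 0) (.fin (nat_lit 576416222125965851))) (.ch (nat_lit 2)
 (.ev (nat_lit 5280) (nat_lit 32) (.ev (nat_lit 5293) (nat_lit 1024) .dd))))))) (.br (nat_lit 10) (.ch (nat_lit
 6) (.ev (nat_lit 3588) (nat_lit 32) (.ev (nat_lit 3597) (nat_lit 1024) .dd))) (.ch (nat_lit 10) (.ev (nat_lit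
 2052) (nat_lit 1024) (.ev (nat_lit 2061) (nat_lit 32) .dd))))))) (.br (nat_lit 9) (.ch (nat_lit 5) (.nd
 (nat_lit 3664) (.br (nat_lit 7) (.br (nat_lit 3) (.ch (nat_lit 1) (.ev (nat_lit 3680) (nat_lit 1024) (.ev
 (nat_lit 3693) (nat_lit 32) .dd))) (.ch (nat_lit 3) (.nd (nat_lit 5440) (.br (nat_lit 4) (.ch (nat_lit 2)
 (.fin (nat_lit 576445908918944373))) (.br (nat_lit 9) (.ch (nat_lit 4) (.ev (nat_lit 5456) (nat_lit 32) (.ev
 (nat_lit 5469) (nat_lit 1024) .dd))) (.ch (nat_lit 9) (.ev (nat_lit 5456) (nat_lit 32) (.ev (nat_lit 5469)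
 (nat_lit 1024) .dd)))))))) (.br (nat_lit 9) (.ch (nat_lit 7) (.ev (nat_lit 3680) (nat_lit 32) (.ev (nat_lit
 3693) (nat_lit 1024) .dd))) (.ch (nat_lit 9) (.ev (nat_lit 3680) (nat_lit 1024) (.ev (nat_lit 3693) (nat_lit
 32) .dd))))))) (.ch (nat_lit 9) (.nd (nat_lit 1232) (.br (nat_lit 6) (.br (nat_lit 2) (.ch (nat_lit 1) (.ev
 (nat_lit 1408) (nat_lit 32) (.ev (nat_lit 1421) (nat_lit 1024) .dd))) (.br (nat_lit 3) (.ch (nat_lit 2) (.ev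
 (nat_lit 1248) (nat_lit 1024) (.ev (nat_lit 1261) (nat_lit 32) .dd))) (.ch (nat_lit 3) (.ev (nat_lit 1748)
 (nat_lit 32) (.ev (nat_lit 1757) (nat_lit 1024) .dd))))) (.br (nat_lit 9) (.br (nat_lit 8) (.ch (nat_lit 6)
 (.ev (nat_lit 1248) (nat_lit 32) (.ev (nat_lit 1261) (nat_lit 1024) .dd))) (.ch (nat_lit 8) (.ev (nat_lit
 1248) (nat_lit 1024) (.ev (nat_lit 1261) (nat_lit 32) .dd)))) (.br (nat_lit 10) (.ch (nat_lit 9) (.ev (nat_lit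
 1248) (nat_lit 32) (.ev (nat_lit 1261) (nat_lit 1024) .dd))) (.ch (nat_lit 10) (.ev (nat_lit 2228) (nat_lit
 32) (.ev (nat_lit 2237) (nat_lit 1024) .dd))))))))))))))) (.br (nat_lit 10) (.ch (nat_lit 7) (.ev (nat_lit
 112) (nat_lit 3072) (.nd (nat_lit 464) (.br (nat_lit 6) (.br (nat_lit 3) (.ch (nat_lit 1) (.ev (nat_lit 480)
 (nat_lit 4) (.ev (nat_lit 493) (nat_lit 32) .dd))) (.br (nat_lit 4) (.ch (nat_lit 3) (.ev (nat_lit 772)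
 (nat_lit 32) (.ev (nat_lit 781) (nat_lit 4) .dd))) (.ch (nat_lit 4) (.ev (nat_lit 2788) (nat_lit 4) (.ev
 (nat_lit 2797) (nat_lit 32) .dd))))) (.br (nat_lit 7) (.ch (nat_lit 6) (.ev (nat_lit 480) (nat_lit 32) (.ev
 (nat_lit 493) (nat_lit 4) .dd))) (.br (nat_lit 10) (.ch (nat_lit 7) (.ev (nat_lit 772) (nat_lit 4) (.ev
 (nat_lit 781) (nat_lit 32) .dd))) (.ch (nat_lit 10) (.ev (nat_lit 480) (nat_lit 4) (.ev (nat_lit 493) (nat_lit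
 32) .dd))))))))) (.ch (nat_lit 10) (.ev (nat_lit 112) (nat_lit 1056) (.nd (nat_lit 832) (.br (nat_lit 3) (.br
 (nat_lit 2) (.ch (nat_lit 0) (.ev (nat_lit 848) (nat_lit 2052) .dd)) (.ch (nat_lit 2) (.ev (nat_lit 848)
 (nat_lit 4) (.ev (nat_lit 861) (nat_lit 2048) .dd)))) (.br (nat_lit 6) (.ch (nat_lit 3) (.ev (nat_lit 868)
 (nat_lit 2048) (.ev (nat_lit 877) (nat_lit 4) .dd))) (.br (nat_lit 7) (.ch (nat_lit 6) (.ev (nat_lit 868)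
 (nat_lit 2048) (.ev (nat_lit 877) (nat_lit 4) .dd))) (.ch (nat_lit 7) (.nd (nat_lit 4160) (.br (nat_lit 4)
 (.br (nat_lit 3) (.ch (nat_lit 1) (.ev (nat_lit 4176) (nat_lit 4) (.ev (nat_lit 4189) (nat_lit 2048) .dd)))
 (.ch (nat_lit 3) (.ev (nat_lit 4176) (nat_lit 4) (.ev (nat_lit 4189) (nat_lit 2048) .dd)))) (.br (nat_lit 6)
 (.ch (nat_lit 4) (.ev (nat_lit 4176) (nat_lit 2052) .dd)) (.ch (nat_lit 6) (.fin (nat_lit
 576420620120048226))))))))))))))))))) (.ch (nat_lit 10) (.ev (nat_lit 48) (nat_lit 1376) (.nd (nat_lit 288)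
 (.br (nat_lit 6) (.br (nat_lit 2) (.ch (nat_lit 0) (.ev (nat_lit 304) (nat_lit 16) (.nd (nat_lit 512) (.br
 (nat_lit 6) (.br (nat_lit 2) (.ch (nat_lit 1) (.ev (nat_lit 528) (nat_lit 2048) (.nd (nat_lit 1952) (.br
 (nat_lit 3) (.br (nat_lit 1) (.ch (nat_lit 0) (.ev (nat_lit 2052) (nat_lit 128) (.ev (nat_lit 2061) (nat_lit
 4) .dd))) (.ch (nat_lit 1) (.ev (nat_lit 1968) (nat_lit 128) (.ev (nat_lit 1981) (nat_lit 4) .dd)))) (.br
 (nat_lit 7) (.ch (nat_lit 3) (.ev (nat_lit 1968) (nat_lit 4) (.ev (nat_lit 1981) (nat_lit 128) .dd))) (.br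
 (nat_lit 10) (.ch (nat_lit 7) (.ev (nat_lit 2756) (nat_lit 128) (.ev (nat_lit 2765) (nat_lit 4) .dd))) (.ch
 (nat_lit 10) (.ev (nat_lit 1968) (nat_lit 128) (.ev (nat_lit 1981) (nat_lit 4) .dd))))))))) (.br (nat_lit 3)
 (.ch (nat_lit 2) (.ev (nat_lit 528) (nat_lit 128) (.ev (nat_lit 548) (nat_lit 2048) (.ev (nat_lit 557)
 (nat_lit 4) .dd)))) (.ch (nat_lit 3) (.ev (nat_lit 628) (nat_lit 128) (.nd (nat_lit 1232) (.br (nat_lit 6)
 (.br (nat_lit 4) (.ch (nat_lit 1) (.ev (nat_lit 1248) (nat_lit 4) (.ev (nat_lit 1261) (nat_lit 2048) .dd)))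
 (.br (nat_lit 5) (.ch (nat_lit 4) (.ev (nat_lit 1248) (nat_lit 2048) (.ev (nat_lit 1261) (nat_lit 4) .dd)))
 (.ch (nat_lit 5) (.ev (nat_lit 1428) (nat_lit 4) (.ev (nat_lit 1437) (nat_lit 2048) .dd))))) (.br (nat_lit 7)
 (.ch (nat_lit 6) (.fin (nat_lit 576440411330396738))) (.br (nat_lit 10) (.ch (nat_lit 7) (.ev (nat_lit 1248)
 (nat_lit 2048) (.ev (nat_lit 1261) (nat_lit 4) .dd))) (.ch (nat_lit 10) (.ev (nat_lit 1268) (nat_lit 2048)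
 (.ev (nat_lit 1277) (nat_lit 4) .dd))))))))))) (.br (nat_lit 9) (.br (nat_lit 8) (.ch (nat_lit 6) (.ev
 (nat_lit 528) (nat_lit 2052) (.ev (nat_lit 541) (nat_lit 128) .dd))) (.ch (nat_lit 8) (.ev (nat_lit 528)
 (nat_lit 2176) (.ev (nat_lit 541) (nat_lit 4) .dd)))) (.br (nat_lit 10) (.ch (nat_lit 9) (.ev (nat_lit 528)
 (nat_lit 4) (.nd (nat_lit 1360) (.br (nat_lit 7) (.ch (nat_lit 1) (.ev (nat_lit 1396) (nat_lit 128) (.ev
 (nat_lit 1405) (nat_lit 2048) .dd))) (.br (nat_lit 9) (.ch (nat_lit 7) (.ev (nat_lit 2516) (nat_lit 2048) (.ev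
 (nat_lit 2525) (nat_lit 128) .dd))) (.ch (nat_lit 9) (.fin (nat_lit 576473396709638784)))))))) (.ch (nat_lit
 10) (.nd (nat_lit 928) (.br (nat_lit 6) (.br (nat_lit 2) (.ch (nat_lit 0) (.ev (nat_lit 944) (nat_lit 2176)
 (.ev (nat_lit 957) (nat_lit 4) .dd))) (.br (nat_lit 5) (.ch (nat_lit 2) (.ev (nat_lit 944) (nat_lit 2048) (.ev
 (nat_lit 2612) (nat_lit 128) (.ev (nat_lit 2621) (nat_lit 4) .dd)))) (.ch (nat_lit 5) (.ev (nat_lit 1396)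
 (nat_lit 4) (.nd (nat_lit 4336) (.br (nat_lit 9) (.ch (nat_lit 8) (.ev (nat_lit 4948) (nat_lit 128) (.ev
 (nat_lit 4957) (nat_lit 2048) .dd))) (.ch (nat_lit 9) (.ev (nat_lit 4352) (nat_lit 128) (.ev (nat_lit 4365)
 (nat_lit 2048) .dd))))))))) (.br (nat_lit 8) (.br (nat_lit 7) (.ch (nat_lit 6) (.ev (nat_lit 944) (nat_lit 4)
 (.ev (nat_lit 2564) (nat_lit 128) (.ev (nat_lit 2573) (nat_lit 2048) .dd)))) (.ch (nat_lit 7) (.ev (nat_lit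
 944) (nat_lit 2048) (.ev (nat_lit 1828) (nat_lit 4) (.ev (nat_lit 1837) (nat_lit 128) .dd))))) (.br (nat_lit
 9) (.ch (nat_lit 8) (.ev (nat_lit 944) (nat_lit 132) (.ev (nat_lit 957) (nat_lit 2048) .dd))) (.ch (nat_lit 9)
 (.ev (nat_lit 944) (nat_lit 4) (.ev (nat_lit 2624) (nat_lit 2176) .dd)))))))))))))) (.br (nat_lit 5) (.ch
 (nat_lit 2) (.ev (nat_lit 304) (nat_lit 144) (.nd (nat_lit 704) (.br (nat_lit 5) (.br (nat_lit 4) (.ch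
 (nat_lit 2) (.nd (nat_lit 3312) (.br (nat_lit 8) (.br (nat_lit 7) (.ch (nat_lit 4) (.ev (nat_lit 3328)
 (nat_lit 4) (.ev (nat_lit 3341) (nat_lit 2048) .dd))) (.ch (nat_lit 7) (.ev (nat_lit 3328) (nat_lit 2048) (.ev
 (nat_lit 3341) (nat_lit 4) .dd)))) (.br (nat_lit 9) (.ch (nat_lit 8) (.ev (nat_lit 3328) (nat_lit 4) (.ev
 (nat_lit 3341) (nat_lit 2048) .dd))) (.ch (nat_lit 9) (.fin (nat_lit 576493187841344076))))))) (.ch (nat_lit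
 4) (.ev (nat_lit 720) (nat_lit 2048) (.ev (nat_lit 733) (nat_lit 4) .dd)))) (.br (nat_lit 7) (.ch (nat_lit 5)
 (.nd (nat_lit 3664) (.br (nat_lit 5) (.ch (nat_lit 3) (.ev (nat_lit 4564) (nat_lit 2048) (.ev (nat_lit 4573)
 (nat_lit 4) .dd))) (.ch (nat_lit 5) (.ev (nat_lit 3700) (nat_lit 2048) (.ev (nat_lit 3709) (nat_lit 4)
 .dd)))))) (.br (nat_lit 9) (.ch (nat_lit 7) (.nd (nat_lit 1360) (.br (nat_lit 7) (.br (nat_lit 1) (.ch
 (nat_lit 0) (.ev (nat_lit 1376) (nat_lit 4) (.ev (nat_lit 1389) (nat_lit 2048) .dd))) (.br (nat_lit 6) (.ch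
 (nat_lit 1) (.fin (nat_lit 576509680614326855))) (.ch (nat_lit 6) (.ev (nat_lit 1376) (nat_lit 2048) (.ev
 (nat_lit 1389) (nat_lit 4) .dd))))) (.br (nat_lit 8) (.ch (nat_lit 7) (.ev (nat_lit 1376) (nat_lit 4) (.ev
 (nat_lit 1389) (nat_lit 2048) .dd))) (.br (nat_lit 10) (.ch (nat_lit 8) (.ev (nat_lit 2240) (nat_lit 2048)
 (.ev (nat_lit 2253) (nat_lit 4) .dd))) (.ch (nat_lit 10) (.ev (nat_lit 2260) (nat_lit 2048) (.ev (nat_lit
 2269) (nat_lit 4) .dd)))))))) (.ch (nat_lit 9) (.ev (nat_lit 720) (nat_lit 4) (.ev (nat_lit 733) (nat_lit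
 2048) .dd))))))))) (.ch (nat_lit 5) (.ev (nat_lit 304) (nat_lit 2180) (.ev (nat_lit 317) (nat_lit 16) .dd)))))
 (.br (nat_lit 9) (.br (nat_lit 7) (.ch (nat_lit 6) (.nd (nat_lit 464) (.br (nat_lit 4) (.br (nat_lit 1) (.ch
 (nat_lit 0) (.ev (nat_lit 480) (nat_lit 2048) (.nd (nat_lit 992) (.br (nat_lit 5) (.br (nat_lit 4) (.ch
 (nat_lit 3) (.ev (nat_lit 2420) (nat_lit 4) (.fin (nat_lit 576364544990331312)))) (.ch (nat_lit 4) (.ev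
 (nat_lit 1008) (nat_lit 16) (.ev (nat_lit 1316) (nat_lit 128) (.ev (nat_lit 1325) (nat_lit 4) .dd))))) (.br
 (nat_lit 7) (.ch (nat_lit 5) (.ev (nat_lit 1008) (nat_lit 16) (.ev (nat_lit 3156) (nat_lit 128) (.ev (nat_lit
 3165) (nat_lit 4) .dd)))) (.br (nat_lit 9) (.ch (nat_lit 7) (.ev (nat_lit 1828) (nat_lit 4) (.nd (nat_lit
 4448) (.br (nat_lit 10) (.ch (nat_lit 3) (.ev (nat_lit 4932) (nat_lit 128) (.ev (nat_lit 4941) (nat_lit 16)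
 .dd))) (.ch (nat_lit 10) (.ev (nat_lit 4484) (nat_lit 16) (.ev (nat_lit 4493) (nat_lit 128) .dd))))))) (.ch
 (nat_lit 9) (.ev (nat_lit 1008) (nat_lit 4) (.ev (nat_lit 1028) (nat_lit 16) (.ev (nat_lit 1037) (nat_lit 128)
 .dd)))))))))) (.br (nat_lit 3) (.ch (nat_lit 1) (.nd (nat_lit 992) (.br (nat_lit 6) (.br (nat_lit 5) (.ch
 (nat_lit 3) (.ev (nat_lit 1008) (nat_lit 128) (.ev (nat_lit 1284) (nat_lit 16) (.ev (nat_lit 1508) (nat_lit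
 2048) (.ev (nat_lit 1517) (nat_lit 4) .dd))))) (.ch (nat_lit 5) (.ev (nat_lit 1008) (nat_lit 132) (.ev
 (nat_lit 2916) (nat_lit 16) (.ev (nat_lit 2925) (nat_lit 2048) .dd))))) (.br (nat_lit 7) (.ch (nat_lit 6) (.nd
 (nat_lit 4336) (.br (nat_lit 3) (.ch (nat_lit 0) (.ev (nat_lit 4352) (nat_lit 2052) (.ev (nat_lit 4692)
 (nat_lit 16) (.ev (nat_lit 4701) (nat_lit 128) .dd)))) (.br (nat_lit 6) (.ch (nat_lit 3) (.ev (nat_lit 4352)
 (nat_lit 2048) (.ev (nat_lit 4756) (nat_lit 128) (.nd (nat_lit 5776) (.br (nat_lit 7) (.ch (nat_lit 0) (.fin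
 (nat_lit 576409624885281331))) (.ch (nat_lit 7) (.ev (nat_lit 5792) (nat_lit 16) (.ev (nat_lit 5805) (nat_lit
 4) .dd)))))))) (.ch (nat_lit 6) (.ev (nat_lit 4352) (nat_lit 20) (.fin (nat_lit 576498685508534865))))))))
 (.ch (nat_lit 7) (.ev (nat_lit 1008) (nat_lit 2064) (.ev (nat_lit 2724) (nat_lit 128) (.ev (nat_lit 2733)
 (nat_lit 4) .dd)))))))) (.ch (nat_lit 3) (.ev (nat_lit 480) (nat_lit 144) (.nd (nat_lit 1360) (.br (nat_lit 7)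
 (.ch (nat_lit 5) (.ev (nat_lit 1396) (nat_lit 2048) (.ev (nat_lit 1405) (nat_lit 4) .dd))) (.br (nat_lit 10)
 (.ch (nat_lit 7) (.ev (nat_lit 2692) (nat_lit 2048) (.ev (nat_lit 2701) (nat_lit 4) .dd))) (.ch (nat_lit 10)
 (.ev (nat_lit 1428) (nat_lit 4) (.ev (nat_lit 1437) (nat_lit 2048) .dd)))))))))) (.br (nat_lit 6) (.br
 (nat_lit 5) (.ch (nat_lit 4) (.ev (nat_lit 480) (nat_lit 2176) (.nd (nat_lit 1232) (.br (nat_lit 8) (.ch
 (nat_lit 3) (.nd (nat_lit 5104) (.ch (nat_lit 10) (.fin (nat_lit 576482192779592243))))) (.br (nat_lit 10)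
 (.ch (nat_lit 8) (.ev (nat_lit 1268) (nat_lit 4) (.ev (nat_lit 1277) (nat_lit 16) .dd))) (.ch (nat_lit 10)
 (.ev (nat_lit 1268) (nat_lit 4) (.ev (nat_lit 1277) (nat_lit 16) .dd)))))))) (.ch (nat_lit 5) (.ev (nat_lit
 480) (nat_lit 16) (.ev (nat_lit 500) (nat_lit 4) (.nd (nat_lit 992) (.br (nat_lit 6) (.br (nat_lit 2) (.ch
 (nat_lit 1) (.ev (nat_lit 1268) (nat_lit 2048) (.ev (nat_lit 1277) (nat_lit 128) .dd))) (.br (nat_lit 3) (.ch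
 (nat_lit 2) (.ev (nat_lit 1008) (nat_lit 128) (.ev (nat_lit 1021) (nat_lit 2048) .dd))) (.ch (nat_lit 3) (.ev
 (nat_lit 1028) (nat_lit 128) (.ev (nat_lit 1037) (nat_lit 2048) .dd))))) (.br (nat_lit 9) (.br (nat_lit 8)
 (.ch (nat_lit 6) (.ev (nat_lit 1008) (nat_lit 2048) (.ev (nat_lit 1021) (nat_lit 128) .dd))) (.ch (nat_lit 8)
 (.ev (nat_lit 1008) (nat_lit 2048) (.ev (nat_lit 1021) (nat_lit 128) .dd)))) (.br (nat_lit 10) (.ch (nat_lit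
 9) (.ev (nat_lit 1008) (nat_lit 128) (.ev (nat_lit 1021) (nat_lit 2048) .dd))) (.ch (nat_lit 10) (.ev (nat_lit
 1428) (nat_lit 2048) (.ev (nat_lit 1437) (nat_lit 128) .dd))))))))))) (.br (nat_lit 7) (.ch (nat_lit 6) (.ev
 (nat_lit 480) (nat_lit 132) (.nd (nat_lit 1088) (.br (nat_lit 6) (.br (nat_lit 3) (.ch (nat_lit 0) (.ev
 (nat_lit 1460) (nat_lit 16) (.ev (nat_lit 1469) (nat_lit 2048) .dd))) (.br (nat_lit 4) (.ch (nat_lit 3) (.ev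
 (nat_lit 1104) (nat_lit 2048) (.ev (nat_lit 1117) (nat_lit 16) .dd))) (.ch (nat_lit 4) (.ev (nat_lit 1124)
 (nat_lit 16) (.ev (nat_lit 1133) (nat_lit 2048) .dd))))) (.br (nat_lit 9) (.br (nat_lit 8) (.ch (nat_lit 6)
 (.ev (nat_lit 1508) (nat_lit 16) (.ev (nat_lit 1517) (nat_lit 2048) .dd))) (.ch (nat_lit 8) (.ev (nat_lit
 1104) (nat_lit 2048) (.ev (nat_lit 1117) (nat_lit 16) .dd)))) (.br (nat_lit 10) (.ch (nat_lit 9) (.ev (nat_lit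
 1104) (nat_lit 16) (.ev (nat_lit 1117) (nat_lit 2048) .dd))) (.ch (nat_lit 10) (.ev (nat_lit 1104) (nat_lit
 16) (.ev (nat_lit 1117) (nat_lit 2048) .dd))))))))) (.ch (nat_lit 7) (.ev (nat_lit 480) (nat_lit 4) (.nd
 (nat_lit 1232) (.br (nat_lit 5) (.br (nat_lit 1) (.ch (nat_lit 0) (.ev (nat_lit 1268) (nat_lit 16) (.ev
 (nat_lit 1396) (nat_lit 2048) (.ev (nat_lit 1405) (nat_lit 128) .dd)))) (.br (nat_lit 4) (.ch (nat_lit 1) (.ev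
 (nat_lit 1248) (nat_lit 16) (.fin (nat_lit 576459103072109197)))) (.ch (nat_lit 4) (.ev (nat_lit 1396)
 (nat_lit 128) (.ev (nat_lit 1764) (nat_lit 16) (.ev (nat_lit 1773) (nat_lit 2048) .dd)))))) (.br (nat_lit 9)
 (.ch (nat_lit 5) (.ev (nat_lit 1248) (nat_lit 2176) (.ev (nat_lit 1261) (nat_lit 16) .dd))) (.br (nat_lit 10)
 (.ch (nat_lit 9) (.ev (nat_lit 1348) (nat_lit 16) (.ev (nat_lit 1396) (nat_lit 2048) (.ev (nat_lit 1405)
 (nat_lit 128) .dd)))) (.ch (nat_lit 10) (.ev (nat_lit 1248) (nat_lit 16) (.ev (nat_lit 1396) (nat_lit 128)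
 (.ev (nat_lit 1405) (nat_lit 2048) .dd))))))))))))))) (.ch (nat_lit 7) (.ev (nat_lit 304) (nat_lit 2052) (.nd
 (nat_lit 704) (.br (nat_lit 7) (.br (nat_lit 2) (.ch (nat_lit 0) (.ev (nat_lit 720) (nat_lit 128) (.ev
 (nat_lit 733) (nat_lit 16) .dd))) (.br (nat_lit 6) (.ch (nat_lit 2) (.ev (nat_lit 720) (nat_lit 144) .dd))
 (.ch (nat_lit 6) (.nd (nat_lit 1232) (.br (nat_lit 8) (.br (nat_lit 7) (.ch (nat_lit 2) (.ev (nat_lit 1268)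
 (nat_lit 16) (.ev (nat_lit 1277) (nat_lit 128) .dd))) (.ch (nat_lit 7) (.ev (nat_lit 1540) (nat_lit 16) (.ev
 (nat_lit 1549) (nat_lit 128) .dd)))) (.br (nat_lit 10) (.ch (nat_lit 8) (.ev (nat_lit 1588) (nat_lit 16) (.ev
 (nat_lit 1597) (nat_lit 128) .dd))) (.ch (nat_lit 10) (.ev (nat_lit 2420) (nat_lit 128) (.ev (nat_lit 2429)
 (nat_lit 16) .dd))))))))) (.br (nat_lit 8) (.ch (nat_lit 7) (.ev (nat_lit 720) (nat_lit 16) (.ev (nat_lit 733)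
 (nat_lit 128) .dd))) (.br (nat_lit 9) (.ch (nat_lit 8) (.ev (nat_lit 2788) (nat_lit 128) (.ev (nat_lit 2797)
 (nat_lit 16) .dd))) (.ch (nat_lit 9) (.nd (nat_lit 3312) (.br (nat_lit 8) (.br (nat_lit 1) (.ch (nat_lit 0)
 (.ev (nat_lit 3328) (nat_lit 16) (.ev (nat_lit 3341) (nat_lit 128) .dd))) (.ch (nat_lit 1) (.ev (nat_lit 3328)
 (nat_lit 128) (.ev (nat_lit 3341) (nat_lit 16) .dd)))) (.br (nat_lit 9) (.ch (nat_lit 8) (.ev (nat_lit 3328)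
 (nat_lit 128) (.ev (nat_lit 3341) (nat_lit 16) .dd))) (.ch (nat_lit 9) (.ev (nat_lit 3412) (nat_lit 128) (.ev
 (nat_lit 3421) (nat_lit 16) .dd)))))))))))))) (.br (nat_lit 10) (.ch (nat_lit 9) (.ev (nat_lit 304) (nat_lit
 128) (.nd (nat_lit 640) (.br (nat_lit 4) (.br (nat_lit 1) (.ch (nat_lit 0) (.ev (nat_lit 676) (nat_lit 16)
 (.nd (nat_lit 3664) (.br (nat_lit 8) (.br (nat_lit 7) (.ch (nat_lit 1) (.ev (nat_lit 3680) (nat_lit 2048) (.ev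
 (nat_lit 3693) (nat_lit 4) .dd))) (.ch (nat_lit 7) (.ev (nat_lit 3680) (nat_lit 4) (.ev (nat_lit 3693)
 (nat_lit 2048) .dd)))) (.br (nat_lit 10) (.ch (nat_lit 8) (.ev (nat_lit 3680) (nat_lit 4) (.ev (nat_lit 3693)
 (nat_lit 2048) .dd))) (.ch (nat_lit 10) (.fin (nat_lit 576415122642649665)))))))) (.br (nat_lit 3) (.ch
 (nat_lit 1) (.ev (nat_lit 656) (nat_lit 2048) (.nd (nat_lit 992) (.br (nat_lit 5) (.ch (nat_lit 1) (.ev
 (nat_lit 1124) (nat_lit 16) (.ev (nat_lit 1133) (nat_lit 4) .dd))) (.br (nat_lit 6) (.ch (nat_lit 5) (.fin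
 (nat_lit 576536068741350056))) (.ch (nat_lit 6) (.nd (nat_lit 4336) (.br (nat_lit 9) (.ch (nat_lit 2) (.ev
 (nat_lit 4420) (nat_lit 4) (.ev (nat_lit 4429) (nat_lit 16) .dd))) (.ch (nat_lit 9) (.ev (nat_lit 4532)
 (nat_lit 4) (.ev (nat_lit 4541) (nat_lit 16) .dd))))))))))) (.ch (nat_lit 3) (.ev (nat_lit 656) (nat_lit 16)
 (.ev (nat_lit 740) (nat_lit 2048) (.ev (nat_lit 749) (nat_lit 4) .dd)))))) (.br (nat_lit 8) (.ch (nat_lit 4)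
 (.nd (nat_lit 1088) (.br (nat_lit 5) (.br (nat_lit 2) (.ch (nat_lit 0) (.ev (nat_lit 1104) (nat_lit 4) (.ev
 (nat_lit 1460) (nat_lit 2048) (.ev (nat_lit 1469) (nat_lit 16) .dd)))) (.br (nat_lit 4) (.ch (nat_lit 2) (.ev
 (nat_lit 1104) (nat_lit 2052) (.ev (nat_lit 1117) (nat_lit 16) .dd))) (.ch (nat_lit 4) (.ev (nat_lit 1284)
 (nat_lit 4) (.ev (nat_lit 1588) (nat_lit 2048) (.ev (nat_lit 1597) (nat_lit 16) .dd)))))) (.br (nat_lit 9)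
 (.ch (nat_lit 5) (.ev (nat_lit 1104) (nat_lit 16) (.ev (nat_lit 1284) (nat_lit 4) (.ev (nat_lit 1293) (nat_lit
 2048) .dd)))) (.br (nat_lit 10) (.ch (nat_lit 9) (.ev (nat_lit 1396) (nat_lit 2048) (.nd (nat_lit 5264) (.br
 (nat_lit 2) (.ch (nat_lit 1) (.ev (nat_lit 5280) (nat_lit 16) (.ev (nat_lit 5293) (nat_lit 4) .dd))) (.br
 (nat_lit 8) (.ch (nat_lit 2) (.fin (nat_lit 576509680579723814))) (.ch (nat_lit 8) (.ev (nat_lit 5280)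
 (nat_lit 16) (.ev (nat_lit 5293) (nat_lit 4) .dd)))))))) (.ch (nat_lit 10) (.ev (nat_lit 1104) (nat_lit 2048)
 (.ev (nat_lit 1428) (nat_lit 16) (.ev (nat_lit 1437) (nat_lit 4) .dd))))))))) (.br (nat_lit 10) (.ch (nat_lit
 8) (.ev (nat_lit 656) (nat_lit 2052) (.ev (nat_lit 669) (nat_lit 16) .dd))) (.ch (nat_lit 10) (.ev (nat_lit
 656) (nat_lit 4) (.nd (nat_lit 1360) (.br (nat_lit 3) (.ch (nat_lit 2) (.ev (nat_lit 4884) (nat_lit 16) (.ev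
 (nat_lit 4893) (nat_lit 2048) .dd))) (.br (nat_lit 9) (.ch (nat_lit 3) (.fin (nat_lit 576668010199597587)))
 (.ch (nat_lit 9) (.ev (nat_lit 1396) (nat_lit 2048) (.ev (nat_lit 1405) (nat_lit 16) .dd)))))))))))))) (.ch
 (nat_lit 10) (.nd (nat_lit 512) (.br (nat_lit 4) (.br (nat_lit 2) (.ch (nat_lit 0) (.ev (nat_lit 528) (nat_lit
 2048) (.nd (nat_lit 928) (.br (nat_lit 7) (.br (nat_lit 3) (.ch (nat_lit 1) (.ev (nat_lit 944) (nat_lit 128)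
 (.ev (nat_lit 1540) (nat_lit 16) (.ev (nat_lit 1549) (nat_lit 4) .dd)))) (.br (nat_lit 6) (.ch (nat_lit 3)
 (.ev (nat_lit 944) (nat_lit 16) (.ev (nat_lit 2736) (nat_lit 132) .dd))) (.ch (nat_lit 6) (.ev (nat_lit 944)
 (nat_lit 4) (.ev (nat_lit 1060) (nat_lit 128) (.ev (nat_lit 1069) (nat_lit 16) .dd)))))) (.br (nat_lit 9) (.br
 (nat_lit 8) (.ch (nat_lit 7) (.ev (nat_lit 1396) (nat_lit 16) (.ev (nat_lit 2208) (nat_lit 132) .dd))) (.ch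
 (nat_lit 8) (.ev (nat_lit 944) (nat_lit 4) (.ev (nat_lit 1396) (nat_lit 16) (.ev (nat_lit 1405) (nat_lit 128)
 .dd))))) (.br (nat_lit 10) (.ch (nat_lit 9) (.ev (nat_lit 944) (nat_lit 128) (.ev (nat_lit 1428) (nat_lit 16)
 (.ev (nat_lit 1437) (nat_lit 4) .dd)))) (.ch (nat_lit 10) (.ev (nat_lit 944) (nat_lit 16) (.ev (nat_lit 2916)
 (nat_lit 128) (.ev (nat_lit 2925) (nat_lit 4) .dd)))))))))) (.br (nat_lit 3) (.ch (nat_lit 2) (.ev (nat_lit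
 740) (nat_lit 16) (.nd (nat_lit 992) (.br (nat_lit 9) (.br (nat_lit 2) (.ch (nat_lit 1) (.ev (nat_lit 1652)
 (nat_lit 2048) (.nd (nat_lit 4336) (.br (nat_lit 7) (.ch (nat_lit 6) (.ev (nat_lit 4352) (nat_lit 4) (.ev
 (nat_lit 4365) (nat_lit 128) .dd))) (.br (nat_lit 9) (.ch (nat_lit 7) (.ev (nat_lit 4352) (nat_lit 4) (.ev
 (nat_lit 4365) (nat_lit 128) .dd))) (.ch (nat_lit 9) (.fin (nat_lit 576412923564868208)))))))) (.ch (nat_lit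
 2) (.ev (nat_lit 1008) (nat_lit 128) (.ev (nat_lit 1396) (nat_lit 2048) (.ev (nat_lit 1405) (nat_lit 4)
 .dd))))) (.br (nat_lit 10) (.ch (nat_lit 9) (.ev (nat_lit 1008) (nat_lit 2048) (.ev (nat_lit 1588) (nat_lit
 128) (.ev (nat_lit 1597) (nat_lit 4) .dd)))) (.ch (nat_lit 10) (.ev (nat_lit 1428) (nat_lit 4) (.nd (nat_lit
 4640) (.br (nat_lit 7) (.ch (nat_lit 3) (.fin (nat_lit 576624029770138055))) (.ch (nat_lit 7) (.ev (nat_lit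
 4804) (nat_lit 128) (.ev (nat_lit 4813) (nat_lit 2048) .dd)))))))))))) (.ch (nat_lit 3) (.ev (nat_lit 528)
 (nat_lit 4) (.ev (nat_lit 740) (nat_lit 16) (.nd (nat_lit 1232) (.br (nat_lit 4) (.br (nat_lit 3) (.ch
 (nat_lit 2) (.ev (nat_lit 1428) (nat_lit 2048) (.ev (nat_lit 1437) (nat_lit 128) .dd))) (.ch (nat_lit 3) (.ev
 (nat_lit 1396) (nat_lit 2048) (.ev (nat_lit 1405) (nat_lit 128) .dd)))) (.br (nat_lit 6) (.ch (nat_lit 4) (.ev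
 (nat_lit 1268) (nat_lit 128) (.ev (nat_lit 1277) (nat_lit 2048) .dd))) (.br (nat_lit 8) (.ch (nat_lit 6) (.ev
 (nat_lit 1472) (nat_lit 2048) (.ev (nat_lit 1485) (nat_lit 128) .dd))) (.ch (nat_lit 8) (.ev (nat_lit 1396)
 (nat_lit 2048) (.ev (nat_lit 1405) (nat_lit 128) .dd)))))))))))) (.br (nat_lit 9) (.ch (nat_lit 4) (.ev
 (nat_lit 528) (nat_lit 2176) (.nd (nat_lit 992) (.br (nat_lit 8) (.ch (nat_lit 5) (.nd (nat_lit 4224) (.br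
 (nat_lit 10) (.ch (nat_lit 4) (.fin (nat_lit 576582248324088215))) (.ch (nat_lit 10) (.ev (nat_lit 4836)
 (nat_lit 16) (.ev (nat_lit 4845) (nat_lit 4) .dd)))))) (.br (nat_lit 10) (.ch (nat_lit 8) (.ev (nat_lit 1568)
 (nat_lit 20) .dd)) (.ch (nat_lit 10) (.ev (nat_lit 1140) (nat_lit 4) (.ev (nat_lit 1149) (nat_lit 16)
 .dd)))))))) (.br (nat_lit 10) (.ch (nat_lit 9) (.ev (nat_lit 528) (nat_lit 132) (.nd (nat_lit 4160) (.br
 (nat_lit 9) (.ch (nat_lit 7) (.ev (nat_lit 4260) (nat_lit 16) (.ev (nat_lit 4269) (nat_lit 2048) .dd))) (.ch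
 (nat_lit 9) (.fin (nat_lit 576462401571340863))))))) (.ch (nat_lit 10) (.ev (nat_lit 528) (nat_lit 16) (.ev
 (nat_lit 740) (nat_lit 2048) (.nd (nat_lit 1360) (.br (nat_lit 3) (.br (nat_lit 1) (.ch (nat_lit 0) (.ev
 (nat_lit 1396) (nat_lit 4) (.ev (nat_lit 1405) (nat_lit 128) .dd))) (.ch (nat_lit 1) (.ev (nat_lit 1376)
 (nat_lit 128) (.ev (nat_lit 1389) (nat_lit 4) .dd)))) (.br (nat_lit 4) (.ch (nat_lit 3) (.ev (nat_lit 2228)
 (nat_lit 4) (.ev (nat_lit 2237) (nat_lit 128) .dd))) (.ch (nat_lit 4) (.ev (nat_lit 1376) (nat_lit 4) (.ev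
 (nat_lit 1389) (nat_lit 128) .dd)))))))))))))))))))))))))

/-- Subtrie. -/
noncomputable def T4 : Tr := (.ev (nat_lit 20) (nat_lit 1220) (.nd (nat_lit 32) (.br (nat_lit 5) (.br (nat_lit
 2) (.ch (nat_lit 0) (.ev (nat_lit 48) (nat_lit 4608) (.nd (nat_lit 320) (.br (nat_lit 3) (.br (nat_lit 1) (.ch
 (nat_lit 0) (.nd (nat_lit 512) (.br (nat_lit 5) (.br (nat_lit 1) (.ch (nat_lit 0) (.ev (nat_lit 528) (nat_lit
 16) (.nd (nat_lit 1360) (.br (nat_lit 3) (.br (nat_lit 2) (.ch (nat_lit 0) (.ev (nat_lit 1376) (nat_lit 256)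
 (.ev (nat_lit 3364) (nat_lit 2048) (.ev (nat_lit 3373) (nat_lit 32) .dd)))) (.ch (nat_lit 2) (.ev (nat_lit
 1376) (nat_lit 32) (.ev (nat_lit 1428) (nat_lit 256) (.ev (nat_lit 1437) (nat_lit 2048) .dd))))) (.br (nat_lit
 4) (.ch (nat_lit 3) (.ev (nat_lit 1376) (nat_lit 32) (.fin (nat_lit 576508581077533232)))) (.br (nat_lit 10)
 (.ch (nat_lit 4) (.ev (nat_lit 1376) (nat_lit 2304) (.ev (nat_lit 1389) (nat_lit 32) .dd))) (.ch (nat_lit 10)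
 (.ev (nat_lit 3364) (nat_lit 2048) (.ev (nat_lit 3540) (nat_lit 32) (.ev (nat_lit 3549) (nat_lit 256)
 .dd)))))))))) (.br (nat_lit 4) (.ch (nat_lit 1) (.ev (nat_lit 528) (nat_lit 2304) (.ev (nat_lit 676) (nat_lit
 16) (.ev (nat_lit 685) (nat_lit 32) .dd)))) (.ch (nat_lit 4) (.nd (nat_lit 992) (.br (nat_lit 6) (.br (nat_lit
 1) (.ch (nat_lit 0) (.ev (nat_lit 1508) (nat_lit 16) (.ev (nat_lit 2208) (nat_lit 2048) (.nd (nat_lit 4448)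
 (.br (nat_lit 10) (.ch (nat_lit 7) (.ev (nat_lit 4484) (nat_lit 32) (.ev (nat_lit 4493) (nat_lit 256) .dd)))
 (.ch (nat_lit 10) (.fin (nat_lit 576522874664731188)))))))) (.br (nat_lit 4) (.ch (nat_lit 1) (.ev (nat_lit
 1008) (nat_lit 16) (.ev (nat_lit 2260) (nat_lit 256) (.fin (nat_lit 576489889310655083))))) (.ch (nat_lit 4)
 (.ev (nat_lit 1008) (nat_lit 2304) (.ev (nat_lit 1124) (nat_lit 16) (.ev (nat_lit 1133) (nat_lit 32) .dd))))))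
 (.br (nat_lit 8) (.br (nat_lit 7) (.ch (nat_lit 6) (.ev (nat_lit 1008) (nat_lit 272) (.ev (nat_lit 2228)
 (nat_lit 32) (.ev (nat_lit 2237) (nat_lit 2048) .dd)))) (.ch (nat_lit 7) (.ev (nat_lit 1008) (nat_lit 2048)
 (.ev (nat_lit 1028) (nat_lit 256) (.fin (nat_lit 576412923598422582)))))) (.br (nat_lit 9) (.ch (nat_lit 8)
 (.ev (nat_lit 1008) (nat_lit 32) (.ev (nat_lit 1396) (nat_lit 2048) (.ev (nat_lit 1588) (nat_lit 256) (.ev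
 (nat_lit 1597) (nat_lit 16) .dd))))) (.ch (nat_lit 9) (.ev (nat_lit 1008) (nat_lit 288) (.ev (nat_lit 1396)
 (nat_lit 2048) (.ev (nat_lit 1405) (nat_lit 16) .dd))))))))))) (.br (nat_lit 9) (.br (nat_lit 7) (.ch (nat_lit
 5) (.ev (nat_lit 528) (nat_lit 2048) (.nd (nat_lit 928) (.br (nat_lit 4) (.br (nat_lit 2) (.ch (nat_lit 1)
 (.ev (nat_lit 944) (nat_lit 256) (.nd (nat_lit 4848) (.br (nat_lit 10) (.ch (nat_lit 4) (.ev (nat_lit 4864)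
 (nat_lit 16) (.ev (nat_lit 4877) (nat_lit 32) .dd))) (.ch (nat_lit 10) (.ev (nat_lit 4864) (nat_lit 32) (.ev
 (nat_lit 4877) (nat_lit 16) .dd))))))) (.br (nat_lit 3) (.ch (nat_lit 2) (.ev (nat_lit 944) (nat_lit 48) (.ev
 (nat_lit 957) (nat_lit 256) .dd))) (.ch (nat_lit 3) (.ev (nat_lit 1428) (nat_lit 256) (.fin (nat_lit
 576254593991131713)))))) (.br (nat_lit 7) (.br (nat_lit 6) (.ch (nat_lit 4) (.ev (nat_lit 944) (nat_lit 256)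
 (.ev (nat_lit 1428) (nat_lit 16) (.ev (nat_lit 1437) (nat_lit 32) .dd)))) (.ch (nat_lit 6) (.ev (nat_lit 944)
 (nat_lit 48) (.ev (nat_lit 957) (nat_lit 256) .dd)))) (.br (nat_lit 10) (.ch (nat_lit 7) (.ev (nat_lit 944)
 (nat_lit 272) (.ev (nat_lit 957) (nat_lit 32) .dd))) (.ch (nat_lit 10) (.ev (nat_lit 944) (nat_lit 272) (.ev
 (nat_lit 957) (nat_lit 32) .dd))))))))) (.ch (nat_lit 7) (.ev (nat_lit 528) (nat_lit 2336) (.ev (nat_lit 541)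
 (nat_lit 16) .dd)))) (.br (nat_lit 10) (.ch (nat_lit 9) (.ev (nat_lit 528) (nat_lit 32) (.nd (nat_lit 1088)
 (.br (nat_lit 5) (.br (nat_lit 2) (.ch (nat_lit 0) (.ev (nat_lit 2336) (nat_lit 2048) (.nd (nat_lit 6112) (.ch
 (nat_lit 4) (.nd (nat_lit 6208) (.ch (nat_lit 10) (.nd (nat_lit 6256) (.br (nat_lit 10) (.ch (nat_lit 2) (.fin
 (nat_lit 576386535159972452))) (.ch (nat_lit 10) (.ev (nat_lit 6272) (nat_lit 272) .dd)))))))))) (.br (nat_lit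
 3) (.ch (nat_lit 2) (.ev (nat_lit 1460) (nat_lit 256) (.ev (nat_lit 4548) (nat_lit 16) (.ev (nat_lit 4557)
 (nat_lit 2048) .dd)))) (.ch (nat_lit 3) (.ev (nat_lit 1104) (nat_lit 2304) (.ev (nat_lit 1117) (nat_lit 16)
 .dd))))) (.br (nat_lit 7) (.ch (nat_lit 5) (.ev (nat_lit 1104) (nat_lit 2064) (.ev (nat_lit 1117) (nat_lit
 256) .dd))) (.br (nat_lit 8) (.ch (nat_lit 7) (.ev (nat_lit 1104) (nat_lit 2064) (.ev (nat_lit 1117) (nat_lit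
 256) .dd))) (.ch (nat_lit 8) (.ev (nat_lit 1104) (nat_lit 272) (.ev (nat_lit 1117) (nat_lit 2048) .dd)))))))))
 (.ch (nat_lit 10) (.ev (nat_lit 528) (nat_lit 304) (.ev (nat_lit 541) (nat_lit 2048) .dd)))))))) (.br (nat_lit
 2) (.ch (nat_lit 1) (.ev (nat_lit 336) (nat_lit 16) (.nd (nat_lit 640) (.br (nat_lit 6) (.br (nat_lit 1) (.ch
 (nat_lit 0) (.ev (nat_lit 656) (nat_lit 2048) (.nd (nat_lit 1360) (.br (nat_lit 4) (.br (nat_lit 3) (.ch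
 (nat_lit 0) (.ev (nat_lit 1376) (nat_lit 256) (.ev (nat_lit 1389) (nat_lit 32) .dd))) (.ch (nat_lit 3) (.ev
 (nat_lit 3412) (nat_lit 256) (.ev (nat_lit 3421) (nat_lit 32) .dd)))) (.br (nat_lit 5) (.ch (nat_lit 4) (.ev
 (nat_lit 1376) (nat_lit 256) (.ev (nat_lit 1389) (nat_lit 32) .dd))) (.br (nat_lit 10) (.ch (nat_lit 5) (.ev
 (nat_lit 1376) (nat_lit 288) .dd)) (.ch (nat_lit 10) (.ev (nat_lit 1376) (nat_lit 32) (.ev (nat_lit 1389)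
 (nat_lit 256) .dd))))))))) (.br (nat_lit 2) (.ch (nat_lit 1) (.ev (nat_lit 656) (nat_lit 256) (.nd (nat_lit
 1360) (.br (nat_lit 8) (.br (nat_lit 4) (.ch (nat_lit 0) (.ev (nat_lit 1376) (nat_lit 2080) .dd)) (.br
 (nat_lit 6) (.ch (nat_lit 4) (.ev (nat_lit 1376) (nat_lit 32) (.ev (nat_lit 1389) (nat_lit 2048) .dd))) (.ch
 (nat_lit 6) (.ev (nat_lit 1376) (nat_lit 2080) .dd)))) (.br (nat_lit 9) (.ch (nat_lit 8) (.ev (nat_lit 1460)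
 (nat_lit 2048) (.ev (nat_lit 1469) (nat_lit 32) .dd))) (.br (nat_lit 10) (.ch (nat_lit 9) (.ev (nat_lit 1376)
 (nat_lit 2048) (.ev (nat_lit 1389) (nat_lit 32) .dd))) (.ch (nat_lit 10) (.ev (nat_lit 2672) (nat_lit 32) (.ev
 (nat_lit 2685) (nat_lit 2048) .dd))))))))) (.ch (nat_lit 2) (.ev (nat_lit 656) (nat_lit 256) (.nd (nat_lit
 1360) (.br (nat_lit 5) (.br (nat_lit 3) (.ch (nat_lit 1) (.fin (nat_lit 576461302015672823))) (.br (nat_lit 4)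
 (.ch (nat_lit 3) (.ev (nat_lit 1376) (nat_lit 32) (.ev (nat_lit 1389) (nat_lit 2048) .dd))) (.ch (nat_lit 4)
 (.ev (nat_lit 1376) (nat_lit 2080) .dd)))) (.br (nat_lit 9) (.br (nat_lit 6) (.ch (nat_lit 5) (.ev (nat_lit
 1376) (nat_lit 2080) .dd)) (.ch (nat_lit 6) (.ev (nat_lit 1428) (nat_lit 2048) (.ev (nat_lit 1437) (nat_lit
 32) .dd)))) (.br (nat_lit 10) (.ch (nat_lit 9) (.ev (nat_lit 1376) (nat_lit 32) (.ev (nat_lit 1389) (nat_lit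
 2048) .dd))) (.ch (nat_lit 10) (.ev (nat_lit 1780) (nat_lit 2048) (.ev (nat_lit 1789) (nat_lit 32)
 .dd))))))))))) (.br (nat_lit 9) (.br (nat_lit 7) (.ch (nat_lit 6) (.ev (nat_lit 656) (nat_lit 32) (.nd
 (nat_lit 1088) (.br (nat_lit 4) (.br (nat_lit 2) (.ch (nat_lit 0) (.ev (nat_lit 1104) (nat_lit 2048) (.ev
 (nat_lit 1117) (nat_lit 256) .dd))) (.ch (nat_lit 2) (.fin (nat_lit 576478894204863093)))) (.br (nat_lit 9)
 (.ch (nat_lit 4) (.ev (nat_lit 1460) (nat_lit 256) (.ev (nat_lit 1469) (nat_lit 2048) .dd))) (.br (nat_lit 10)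
 (.ch (nat_lit 9) (.ev (nat_lit 1104) (nat_lit 2048) (.ev (nat_lit 1117) (nat_lit 256) .dd))) (.ch (nat_lit 10)
 (.ev (nat_lit 2932) (nat_lit 2048) (.ev (nat_lit 2941) (nat_lit 256) .dd))))))))) (.ch (nat_lit 7) (.nd
 (nat_lit 1232) (.br (nat_lit 7) (.br (nat_lit 2) (.ch (nat_lit 1) (.ev (nat_lit 1248) (nat_lit 32) (.ev
 (nat_lit 1396) (nat_lit 256) (.ev (nat_lit 1405) (nat_lit 2048) .dd)))) (.br (nat_lit 5) (.ch (nat_lit 2) (.ev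
 (nat_lit 1248) (nat_lit 288) (.ev (nat_lit 1261) (nat_lit 2048) .dd))) (.ch (nat_lit 5) (.ev (nat_lit 1248)
 (nat_lit 2048) (.ev (nat_lit 2192) (nat_lit 32) (.ev (nat_lit 2205) (nat_lit 256) .dd)))))) (.br (nat_lit 9)
 (.br (nat_lit 8) (.ch (nat_lit 7) (.ev (nat_lit 1248) (nat_lit 288) (.ev (nat_lit 1261) (nat_lit 2048) .dd)))
 (.ch (nat_lit 8) (.ev (nat_lit 1248) (nat_lit 2048) (.ev (nat_lit 1268) (nat_lit 32) (.ev (nat_lit 1277)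
 (nat_lit 256) .dd))))) (.br (nat_lit 10) (.ch (nat_lit 9) (.ev (nat_lit 1268) (nat_lit 2048) (.ev (nat_lit
 2100) (nat_lit 256) (.ev (nat_lit 2109) (nat_lit 32) .dd)))) (.ch (nat_lit 10) (.ev (nat_lit 1268) (nat_lit
 2048) (.ev (nat_lit 2100) (nat_lit 256) (.ev (nat_lit 2109) (nat_lit 32) .dd)))))))))) (.br (nat_lit 10) (.ch
 (nat_lit 9) (.ev (nat_lit 656) (nat_lit 2048) (.nd (nat_lit 1360) (.br (nat_lit 5) (.br (nat_lit 1) (.ch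
 (nat_lit 0) (.ev (nat_lit 1376) (nat_lit 32) (.ev (nat_lit 1389) (nat_lit 256) .dd))) (.br (nat_lit 3) (.ch
 (nat_lit 1) (.ev (nat_lit 1376) (nat_lit 32) (.ev (nat_lit 1389) (nat_lit 256) .dd))) (.ch (nat_lit 3) (.ev
 (nat_lit 1376) (nat_lit 256) (.ev (nat_lit 1389) (nat_lit 32) .dd))))) (.br (nat_lit 9) (.ch (nat_lit 5) (.ev
 (nat_lit 1376) (nat_lit 256) (.ev (nat_lit 1389) (nat_lit 32) .dd))) (.br (nat_lit 10) (.ch (nat_lit 9) (.ev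
 (nat_lit 2724) (nat_lit 32) (.ev (nat_lit 2733) (nat_lit 256) .dd))) (.ch (nat_lit 10) (.ev (nat_lit 1376)
 (nat_lit 256) (.ev (nat_lit 1389) (nat_lit 32) .dd))))))))) (.ch (nat_lit 10) (.ev (nat_lit 656) (nat_lit 32)
 (.nd (nat_lit 1232) (.br (nat_lit 6) (.br (nat_lit 2) (.ch (nat_lit 0) (.ev (nat_lit 1248) (nat_lit 256) (.ev
 (nat_lit 1261) (nat_lit 2048) .dd))) (.br (nat_lit 3) (.ch (nat_lit 2) (.ev (nat_lit 1540) (nat_lit 2048) (.ev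
 (nat_lit 1549) (nat_lit 256) .dd))) (.ch (nat_lit 3) (.ev (nat_lit 1248) (nat_lit 256) (.ev (nat_lit 1261)
 (nat_lit 2048) .dd))))) (.br (nat_lit 7) (.ch (nat_lit 6) (.ev (nat_lit 1508) (nat_lit 2048) (.ev (nat_lit
 1517) (nat_lit 256) .dd))) (.br (nat_lit 9) (.ch (nat_lit 7) (.ev (nat_lit 1268) (nat_lit 256) (.ev (nat_lit
 1277) (nat_lit 2048) .dd))) (.ch (nat_lit 9) (.ev (nat_lit 1248) (nat_lit 2048) (.ev (nat_lit 1261) (nat_lit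
 256) .dd))))))))))))))) (.ch (nat_lit 2) (.ev (nat_lit 336) (nat_lit 288) (.nd (nat_lit 704) (.br (nat_lit 7)
 (.br (nat_lit 5) (.ch (nat_lit 3) (.ev (nat_lit 720) (nat_lit 2048) (.ev (nat_lit 733) (nat_lit 16) .dd)))
 (.br (nat_lit 6) (.ch (nat_lit 5) (.ev (nat_lit 720) (nat_lit 2048) (.ev (nat_lit 733) (nat_lit 16) .dd)))
 (.ch (nat_lit 6) (.nd (nat_lit 4224) (.br (nat_lit 8) (.ch (nat_lit 3) (.fin (nat_lit 576460202550182465)))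
 (.br (nat_lit 10) (.ch (nat_lit 8) (.ev (nat_lit 4240) (nat_lit 16) (.ev (nat_lit 4253) (nat_lit 2048) .dd)))
 (.ch (nat_lit 10) (.ev (nat_lit 4240) (nat_lit 2048) (.ev (nat_lit 4253) (nat_lit 16) .dd))))))))) (.br
 (nat_lit 9) (.ch (nat_lit 7) (.nd (nat_lit 1360) (.br (nat_lit 7) (.br (nat_lit 1) (.ch (nat_lit 0) (.ev
 (nat_lit 1376) (nat_lit 2048) (.ev (nat_lit 1389) (nat_lit 16) .dd))) (.ch (nat_lit 1) (.nd (nat_lit 4720)
 (.br (nat_lit 4) (.ch (nat_lit 3) (.fin (nat_lit 576340355992470125))) (.ch (nat_lit 4) (.ev (nat_lit 4820)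
 (nat_lit 2048) (.ev (nat_lit 4829) (nat_lit 16) .dd))))))) (.br (nat_lit 10) (.ch (nat_lit 7) (.ev (nat_lit
 1588) (nat_lit 16) (.ev (nat_lit 1597) (nat_lit 2048) .dd))) (.ch (nat_lit 10) (.ev (nat_lit 1376) (nat_lit
 16) (.ev (nat_lit 1389) (nat_lit 2048) .dd))))))) (.br (nat_lit 10) (.ch (nat_lit 9) (.ev (nat_lit 720)
 (nat_lit 16) (.ev (nat_lit 733) (nat_lit 2048) .dd))) (.ch (nat_lit 10) (.nd (nat_lit 1360) (.br (nat_lit 4)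
 (.br (nat_lit 2) (.ch (nat_lit 1) (.ev (nat_lit 1396) (nat_lit 16) (.ev (nat_lit 1405) (nat_lit 2048) .dd)))
 (.br (nat_lit 3) (.ch (nat_lit 2) (.ev (nat_lit 1508) (nat_lit 2048) (.ev (nat_lit 1517) (nat_lit 16) .dd)))
 (.ch (nat_lit 3) (.ev (nat_lit 1376) (nat_lit 2048) (.ev (nat_lit 1389) (nat_lit 16) .dd))))) (.br (nat_lit 7)
 (.br (nat_lit 5) (.ch (nat_lit 4) (.ev (nat_lit 1376) (nat_lit 16) (.ev (nat_lit 1389) (nat_lit 2048) .dd)))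
 (.ch (nat_lit 5) (.ev (nat_lit 1376) (nat_lit 2048) (.ev (nat_lit 1389) (nat_lit 16) .dd)))) (.br (nat_lit 8)
 (.ch (nat_lit 7) (.ev (nat_lit 1396) (nat_lit 2048) (.ev (nat_lit 1405) (nat_lit 16) .dd))) (.ch (nat_lit 8)
 (.ev (nat_lit 1376) (nat_lit 16) (.ev (nat_lit 1389) (nat_lit 2048) .dd)))))))))))))))) (.br (nat_lit 7) (.br
 (nat_lit 5) (.ch (nat_lit 3) (.ev (nat_lit 336) (nat_lit 2080) (.ev (nat_lit 356) (nat_lit 16) (.ev (nat_lit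
 365) (nat_lit 256) .dd)))) (.ch (nat_lit 5) (.ev (nat_lit 336) (nat_lit 256) (.nd (nat_lit 512) (.br (nat_lit
 6) (.br (nat_lit 1) (.ch (nat_lit 0) (.ev (nat_lit 528) (nat_lit 2048) (.nd (nat_lit 1232) (.br (nat_lit 4)
 (.br (nat_lit 1) (.ch (nat_lit 0) (.ev (nat_lit 1248) (nat_lit 48) .dd)) (.br (nat_lit 2) (.ch (nat_lit 1)
 (.ev (nat_lit 1332) (nat_lit 32) (.ev (nat_lit 1341) (nat_lit 16) .dd))) (.ch (nat_lit 2) (.ev (nat_lit 1748)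
 (nat_lit 32) (.ev (nat_lit 1757) (nat_lit 16) .dd))))) (.br (nat_lit 5) (.ch (nat_lit 4) (.ev (nat_lit 1268)
 (nat_lit 16) (.ev (nat_lit 1277) (nat_lit 32) .dd))) (.br (nat_lit 10) (.ch (nat_lit 5) (.ev (nat_lit 1248)
 (nat_lit 32) (.ev (nat_lit 1261) (nat_lit 16) .dd))) (.ch (nat_lit 10) (.ev (nat_lit 1248) (nat_lit 16) (.ev
 (nat_lit 1261) (nat_lit 32) .dd))))))))) (.br (nat_lit 5) (.ch (nat_lit 1) (.ev (nat_lit 528) (nat_lit 2096)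
 .dd)) (.ch (nat_lit 5) (.nd (nat_lit 928) (.br (nat_lit 4) (.br (nat_lit 1) (.ch (nat_lit 0) (.ev (nat_lit
 1284) (nat_lit 16) (.ev (nat_lit 2500) (nat_lit 32) (.ev (nat_lit 2509) (nat_lit 2048) .dd)))) (.br (nat_lit
 3) (.ch (nat_lit 1) (.ev (nat_lit 944) (nat_lit 2048) (.fin (nat_lit 576482192760717887)))) (.ch (nat_lit 3)
 (.ev (nat_lit 944) (nat_lit 2064) (.ev (nat_lit 957) (nat_lit 32) .dd))))) (.br (nat_lit 6) (.ch (nat_lit 4)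
 (.ev (nat_lit 944) (nat_lit 32) (.ev (nat_lit 1284) (nat_lit 16) (.ev (nat_lit 1293) (nat_lit 2048) .dd))))
 (.br (nat_lit 7) (.ch (nat_lit 6) (.ev (nat_lit 944) (nat_lit 16) (.fin (nat_lit 576475595743380092)))) (.ch
 (nat_lit 7) (.ev (nat_lit 944) (nat_lit 2064) (.ev (nat_lit 957) (nat_lit 32) .dd)))))))))) (.br (nat_lit 9)
 (.br (nat_lit 8) (.ch (nat_lit 6) (.ev (nat_lit 528) (nat_lit 48) (.ev (nat_lit 541) (nat_lit 2048) .dd)))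
 (.ch (nat_lit 8) (.nd (nat_lit 928) (.br (nat_lit 7) (.br (nat_lit 4) (.ch (nat_lit 0) (.ev (nat_lit 944)
 (nat_lit 2080) (.ev (nat_lit 957) (nat_lit 16) .dd))) (.br (nat_lit 5) (.ch (nat_lit 4) (.ev (nat_lit 944)
 (nat_lit 2064) (.ev (nat_lit 957) (nat_lit 32) .dd))) (.ch (nat_lit 5) (.ev (nat_lit 944) (nat_lit 16) (.ev
 (nat_lit 964) (nat_lit 2048) (.ev (nat_lit 973) (nat_lit 32) .dd)))))) (.br (nat_lit 8) (.ch (nat_lit 7) (.ev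
 (nat_lit 944) (nat_lit 32) (.nd (nat_lit 4224) (.br (nat_lit 3) (.ch (nat_lit 0) (.ev (nat_lit 4948) (nat_lit
 16) (.ev (nat_lit 4957) (nat_lit 2048) .dd))) (.ch (nat_lit 3) (.ev (nat_lit 4372) (nat_lit 2048) (.ev
 (nat_lit 4381) (nat_lit 16) .dd))))))) (.br (nat_lit 10) (.ch (nat_lit 8) (.ev (nat_lit 944) (nat_lit 16) (.ev
 (nat_lit 2660) (nat_lit 2048) (.ev (nat_lit 2669) (nat_lit 32) .dd)))) (.ch (nat_lit 10) (.ev (nat_lit 2612)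
 (nat_lit 2048) (.fin (nat_lit 576558059162649276)))))))))) (.br (nat_lit 10) (.ch (nat_lit 9) (.nd (nat_lit
 928) (.br (nat_lit 5) (.br (nat_lit 2) (.ch (nat_lit 1) (.ev (nat_lit 1268) (nat_lit 2048) (.ev (nat_lit 1428)
 (nat_lit 32) (.ev (nat_lit 1437) (nat_lit 16) .dd)))) (.br (nat_lit 4) (.ch (nat_lit 2) (.ev (nat_lit 1428)
 (nat_lit 32) (.ev (nat_lit 1460) (nat_lit 2048) (.ev (nat_lit 1469) (nat_lit 16) .dd)))) (.ch (nat_lit 4) (.ev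
 (nat_lit 944) (nat_lit 2064) (.ev (nat_lit 957) (nat_lit 32) .dd))))) (.br (nat_lit 7) (.br (nat_lit 6) (.ch
 (nat_lit 5) (.ev (nat_lit 944) (nat_lit 16) (.fin (nat_lit 576475595689902666)))) (.ch (nat_lit 6) (.ev
 (nat_lit 944) (nat_lit 32) (.ev (nat_lit 1124) (nat_lit 16) (.ev (nat_lit 1133) (nat_lit 2048) .dd))))) (.br
 (nat_lit 9) (.ch (nat_lit 7) (.ev (nat_lit 944) (nat_lit 2048) (.ev (nat_lit 1124) (nat_lit 16) (.ev (nat_lit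
 1133) (nat_lit 32) .dd)))) (.ch (nat_lit 9) (.ev (nat_lit 944) (nat_lit 2080) (.ev (nat_lit 957) (nat_lit 16)
 .dd)))))))) (.ch (nat_lit 10) (.ev (nat_lit 528) (nat_lit 2048) (.nd (nat_lit 1232) (.br (nat_lit 6) (.ch
 (nat_lit 2) (.ev (nat_lit 1268) (nat_lit 32) (.ev (nat_lit 1277) (nat_lit 16) .dd))) (.br (nat_lit 8) (.ch
 (nat_lit 6) (.ev (nat_lit 2900) (nat_lit 32) (.ev (nat_lit 2909) (nat_lit 16) .dd))) (.ch (nat_lit 8) (.nd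
 (nat_lit 4640) (.br (nat_lit 7) (.ch (nat_lit 1) (.ev (nat_lit 4676) (nat_lit 32) (.ev (nat_lit 4685) (nat_lit
 16) .dd))) (.ch (nat_lit 7) (.fin (nat_lit 576512979047498437)))))))))))))))))) (.br (nat_lit 10) (.ch
 (nat_lit 7) (.ev (nat_lit 336) (nat_lit 2048) (.nd (nat_lit 512) (.br (nat_lit 5) (.br (nat_lit 1) (.ch
 (nat_lit 0) (.ev (nat_lit 740) (nat_lit 16) (.nd (nat_lit 1360) (.br (nat_lit 7) (.br (nat_lit 4) (.ch
 (nat_lit 2) (.ev (nat_lit 1376) (nat_lit 256) (.ev (nat_lit 1389) (nat_lit 32) .dd))) (.br (nat_lit 6) (.ch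
 (nat_lit 4) (.ev (nat_lit 1376) (nat_lit 256) (.ev (nat_lit 1389) (nat_lit 32) .dd))) (.ch (nat_lit 6) (.ev
 (nat_lit 3412) (nat_lit 256) (.ev (nat_lit 3421) (nat_lit 32) .dd))))) (.br (nat_lit 8) (.ch (nat_lit 7) (.ev
 (nat_lit 1376) (nat_lit 32) (.ev (nat_lit 1389) (nat_lit 256) .dd))) (.br (nat_lit 9) (.ch (nat_lit 8) (.ev
 (nat_lit 3284) (nat_lit 32) (.ev (nat_lit 3293) (nat_lit 256) .dd))) (.ch (nat_lit 9) (.ev (nat_lit 1376)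
 (nat_lit 32) (.ev (nat_lit 1389) (nat_lit 256) .dd))))))))) (.br (nat_lit 2) (.ch (nat_lit 1) (.ev (nat_lit
 528) (nat_lit 32) (.nd (nat_lit 1088) (.br (nat_lit 7) (.br (nat_lit 2) (.ch (nat_lit 1) (.ev (nat_lit 2452)
 (nat_lit 16) (.ev (nat_lit 2461) (nat_lit 256) .dd))) (.br (nat_lit 6) (.ch (nat_lit 2) (.ev (nat_lit 1104)
 (nat_lit 16) (.ev (nat_lit 1117) (nat_lit 256) .dd))) (.ch (nat_lit 6) (.ev (nat_lit 1520) (nat_lit 272)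
 .dd)))) (.br (nat_lit 8) (.ch (nat_lit 7) (.ev (nat_lit 1104) (nat_lit 256) (.ev (nat_lit 1117) (nat_lit 16)
 .dd))) (.br (nat_lit 9) (.ch (nat_lit 8) (.ev (nat_lit 1540) (nat_lit 256) (.ev (nat_lit 1549) (nat_lit 16)
 .dd))) (.ch (nat_lit 9) (.ev (nat_lit 1104) (nat_lit 272) .dd)))))))) (.ch (nat_lit 2) (.ev (nat_lit 528)
 (nat_lit 272) (.ev (nat_lit 541) (nat_lit 32) .dd))))) (.br (nat_lit 8) (.br (nat_lit 7) (.ch (nat_lit 5) (.ev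
 (nat_lit 528) (nat_lit 256) (.nd (nat_lit 1952) (.br (nat_lit 4) (.ch (nat_lit 0) (.ev (nat_lit 2836) (nat_lit
 16) (.ev (nat_lit 2845) (nat_lit 32) .dd))) (.br (nat_lit 6) (.ch (nat_lit 4) (.ev (nat_lit 2836) (nat_lit 16)
 (.ev (nat_lit 2845) (nat_lit 32) .dd))) (.ch (nat_lit 6) (.ev (nat_lit 1968) (nat_lit 32) (.ev (nat_lit 1981)
 (nat_lit 16) .dd)))))))) (.ch (nat_lit 7) (.nd (nat_lit 1360) (.br (nat_lit 7) (.br (nat_lit 3) (.ch (nat_lit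
 1) (.ev (nat_lit 1376) (nat_lit 256) (.ev (nat_lit 2356) (nat_lit 32) (.ev (nat_lit 2365) (nat_lit 16) .dd))))
 (.br (nat_lit 6) (.ch (nat_lit 3) (.ev (nat_lit 1376) (nat_lit 32) (.ev (nat_lit 3364) (nat_lit 16) (.ev
 (nat_lit 3373) (nat_lit 256) .dd)))) (.ch (nat_lit 6) (.ev (nat_lit 2500) (nat_lit 32) (.ev (nat_lit 3364)
 (nat_lit 16) (.ev (nat_lit 3373) (nat_lit 256) .dd)))))) (.br (nat_lit 8) (.ch (nat_lit 7) (.ev (nat_lit 1376)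
 (nat_lit 272) (.ev (nat_lit 1389) (nat_lit 32) .dd))) (.br (nat_lit 10) (.ch (nat_lit 8) (.ev (nat_lit 3220)
 (nat_lit 256) (.ev (nat_lit 3444) (nat_lit 16) (.ev (nat_lit 3453) (nat_lit 32) .dd)))) (.ch (nat_lit 10) (.ev
 (nat_lit 1376) (nat_lit 16) (.ev (nat_lit 2468) (nat_lit 32) (.ev (nat_lit 2477) (nat_lit 256) .dd))))))))))
 (.br (nat_lit 9) (.ch (nat_lit 8) (.ev (nat_lit 528) (nat_lit 48) (.ev (nat_lit 541) (nat_lit 256) .dd))) (.ch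
 (nat_lit 9) (.ev (nat_lit 528) (nat_lit 272) (.ev (nat_lit 541) (nat_lit 32) .dd))))))))) (.ch (nat_lit 10)
 (.ev (nat_lit 336) (nat_lit 48) (.nd (nat_lit 704) (.br (nat_lit 7) (.br (nat_lit 4) (.ch (nat_lit 3) (.ev
 (nat_lit 720) (nat_lit 2304) .dd)) (.br (nat_lit 6) (.ch (nat_lit 4) (.ev (nat_lit 720) (nat_lit 2048) (.ev
 (nat_lit 733) (nat_lit 256) .dd))) (.ch (nat_lit 6) (.nd (nat_lit 1232) (.br (nat_lit 7) (.br (nat_lit 3) (.ch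
 (nat_lit 1) (.fin (nat_lit 576278783293080129))) (.br (nat_lit 6) (.ch (nat_lit 3) (.ev (nat_lit 1248)
 (nat_lit 2048) (.ev (nat_lit 1261) (nat_lit 256) .dd))) (.ch (nat_lit 6) (.ev (nat_lit 1248) (nat_lit 2304)
 .dd)))) (.br (nat_lit 9) (.br (nat_lit 8) (.ch (nat_lit 7) (.ev (nat_lit 1248) (nat_lit 2048) (.ev (nat_lit
 1261) (nat_lit 256) .dd))) (.ch (nat_lit 8) (.ev (nat_lit 1248) (nat_lit 256) (.ev (nat_lit 1261) (nat_lit
 2048) .dd)))) (.br (nat_lit 10) (.ch (nat_lit 9) (.nd (nat_lit 4768) (.ch (nat_lit 5) (.ev (nat_lit 4900)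
 (nat_lit 2048) (.ev (nat_lit 4909) (nat_lit 256) .dd))))) (.ch (nat_lit 10) (.ev (nat_lit 1248) (nat_lit 2304)
 .dd))))))))) (.br (nat_lit 9) (.br (nat_lit 8) (.ch (nat_lit 7) (.ev (nat_lit 720) (nat_lit 256) (.ev (nat_lit
 733) (nat_lit 2048) .dd))) (.ch (nat_lit 8) (.ev (nat_lit 720) (nat_lit 2048) (.ev (nat_lit 733) (nat_lit 256)
 .dd)))) (.br (nat_lit 10) (.ch (nat_lit 9) (.nd (nat_lit 3664) (.br (nat_lit 4) (.br (nat_lit 2) (.ch (nat_lit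
 1) (.ev (nat_lit 3680) (nat_lit 256) (.ev (nat_lit 3693) (nat_lit 2048) .dd))) (.br (nat_lit 3) (.ch (nat_lit
 2) (.ev (nat_lit 3680) (nat_lit 2048) (.ev (nat_lit 3693) (nat_lit 256) .dd))) (.ch (nat_lit 3) (.ev (nat_lit
 3680) (nat_lit 2304) .dd)))) (.br (nat_lit 7) (.ch (nat_lit 4) (.ev (nat_lit 3700) (nat_lit 256) (.ev (nat_lit
 3709) (nat_lit 2048) .dd))) (.br (nat_lit 10) (.ch (nat_lit 7) (.ev (nat_lit 3680) (nat_lit 2304) .dd)) (.ch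
 (nat_lit 10) (.fin (nat_lit 576522874715062819)))))))) (.ch (nat_lit 10) (.nd (nat_lit 1360) (.br (nat_lit 5)
 (.br (nat_lit 1) (.ch (nat_lit 0) (.ev (nat_lit 1428) (nat_lit 256) (.ev (nat_lit 1437) (nat_lit 2048) .dd)))
 (.br (nat_lit 4) (.ch (nat_lit 1) (.ev (nat_lit 1552) (nat_lit 2048) (.ev (nat_lit 1565) (nat_lit 256) .dd)))
 (.ch (nat_lit 4) (.ev (nat_lit 1396) (nat_lit 2048) (.ev (nat_lit 1405) (nat_lit 256) .dd))))) (.br (nat_lit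
 7) (.ch (nat_lit 5) (.ev (nat_lit 1376) (nat_lit 256) (.ev (nat_lit 1389) (nat_lit 2048) .dd))) (.br (nat_lit
 9) (.ch (nat_lit 7) (.ev (nat_lit 1376) (nat_lit 2304) .dd)) (.ch (nat_lit 9) (.ev (nat_lit 1376) (nat_lit
 2048) (.ev (nat_lit 1389) (nat_lit 256) .dd)))))))))))))))))))) (.br (nat_lit 4) (.ch (nat_lit 2) (.ev
 (nat_lit 48) (nat_lit 4096) (.nd (nat_lit 288) (.br (nat_lit 5) (.br (nat_lit 1) (.ch (nat_lit 0) (.ev
 (nat_lit 304) (nat_lit 2080) (.nd (nat_lit 704) (.br (nat_lit 7) (.br (nat_lit 4) (.ch (nat_lit 0) (.ev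
 (nat_lit 720) (nat_lit 272) (.ev (nat_lit 733) (nat_lit 512) .dd))) (.br (nat_lit 5) (.ch (nat_lit 4) (.ev
 (nat_lit 720) (nat_lit 512) (.nd (nat_lit 3312) (.br (nat_lit 4) (.br (nat_lit 3) (.ch (nat_lit 2) (.ev
 (nat_lit 3364) (nat_lit 16) (.ev (nat_lit 3373) (nat_lit 256) .dd))) (.ch (nat_lit 3) (.ev (nat_lit 3328)
 (nat_lit 256) (.ev (nat_lit 3341) (nat_lit 16) .dd)))) (.br (nat_lit 5) (.ch (nat_lit 4) (.ev (nat_lit 3364)
 (nat_lit 256) (.ev (nat_lit 3373) (nat_lit 16) .dd))) (.br (nat_lit 8) (.ch (nat_lit 5) (.ev (nat_lit 3328)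
 (nat_lit 272) .dd)) (.ch (nat_lit 8) (.ev (nat_lit 3328) (nat_lit 16) (.ev (nat_lit 3341) (nat_lit 256)
 .dd))))))))) (.ch (nat_lit 5) (.nd (nat_lit 3312) (.br (nat_lit 8) (.br (nat_lit 5) (.ch (nat_lit 0) (.ev
 (nat_lit 3328) (nat_lit 512) (.ev (nat_lit 4308) (nat_lit 16) (.ev (nat_lit 4317) (nat_lit 256) .dd)))) (.ch
 (nat_lit 5) (.ev (nat_lit 3376) (nat_lit 512) (.ev (nat_lit 3424) (nat_lit 272) .dd)))) (.br (nat_lit 10) (.ch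
 (nat_lit 8) (.ev (nat_lit 3328) (nat_lit 512) (.ev (nat_lit 3700) (nat_lit 16) (.ev (nat_lit 3709) (nat_lit
 256) .dd)))) (.ch (nat_lit 10) (.ev (nat_lit 3328) (nat_lit 16) (.fin (nat_lit 576458003520635449))))))))))
 (.br (nat_lit 9) (.br (nat_lit 8) (.ch (nat_lit 7) (.ev (nat_lit 720) (nat_lit 256) (.ev (nat_lit 740)
 (nat_lit 16) (.ev (nat_lit 749) (nat_lit 512) .dd)))) (.ch (nat_lit 8) (.ev (nat_lit 740) (nat_lit 512) (.ev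
 (nat_lit 2068) (nat_lit 256) (.ev (nat_lit 2077) (nat_lit 16) .dd))))) (.br (nat_lit 10) (.ch (nat_lit 9) (.ev
 (nat_lit 720) (nat_lit 528) (.ev (nat_lit 733) (nat_lit 256) .dd))) (.ch (nat_lit 10) (.ev (nat_lit 720)
 (nat_lit 272) (.ev (nat_lit 733) (nat_lit 512) .dd))))))))) (.br (nat_lit 4) (.ch (nat_lit 1) (.nd (nat_lit
 512) (.br (nat_lit 6) (.br (nat_lit 4) (.ch (nat_lit 2) (.ev (nat_lit 528) (nat_lit 784) (.ev (nat_lit 868)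
 (nat_lit 2048) (.ev (nat_lit 877) (nat_lit 32) .dd)))) (.br (nat_lit 5) (.ch (nat_lit 4) (.ev (nat_lit 528)
 (nat_lit 2064) (.nd (nat_lit 1232) (.br (nat_lit 6) (.br (nat_lit 2) (.ch (nat_lit 0) (.ev (nat_lit 2468)
 (nat_lit 256) (.ev (nat_lit 2724) (nat_lit 32) (.ev (nat_lit 2733) (nat_lit 512) .dd)))) (.br (nat_lit 3) (.ch
 (nat_lit 2) (.ev (nat_lit 1248) (nat_lit 32) (.ev (nat_lit 1268) (nat_lit 256) (.ev (nat_lit 1277) (nat_lit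
 512) .dd)))) (.ch (nat_lit 3) (.ev (nat_lit 1248) (nat_lit 768) (.ev (nat_lit 1261) (nat_lit 32) .dd))))) (.br
 (nat_lit 8) (.ch (nat_lit 6) (.ev (nat_lit 1248) (nat_lit 512) (.ev (nat_lit 1268) (nat_lit 256) (.ev (nat_lit
 1277) (nat_lit 32) .dd)))) (.br (nat_lit 10) (.ch (nat_lit 8) (.ev (nat_lit 3652) (nat_lit 512) (.nd (nat_lit
 5344) (.br (nat_lit 8) (.ch (nat_lit 4) (.ev (nat_lit 5360) (nat_lit 256) (.ev (nat_lit 5373) (nat_lit 32)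
 .dd))) (.ch (nat_lit 8) (.fin (nat_lit 576676806454100567))))))) (.ch (nat_lit 10) (.ev (nat_lit 1248)
 (nat_lit 256) (.ev (nat_lit 1284) (nat_lit 32) (.ev (nat_lit 1293) (nat_lit 512) .dd)))))))))) (.ch (nat_lit
 5) (.ev (nat_lit 528) (nat_lit 800) (.nd (nat_lit 1360) (.br (nat_lit 3) (.br (nat_lit 2) (.ch (nat_lit 0)
 (.ev (nat_lit 1428) (nat_lit 16) (.ev (nat_lit 1437) (nat_lit 2048) .dd))) (.ch (nat_lit 2) (.ev (nat_lit
 2884) (nat_lit 16) (.ev (nat_lit 2893) (nat_lit 2048) .dd)))) (.br (nat_lit 5) (.ch (nat_lit 3) (.ev (nat_lit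
 3444) (nat_lit 2048) (.ev (nat_lit 3453) (nat_lit 16) .dd))) (.br (nat_lit 6) (.ch (nat_lit 5) (.ev (nat_lit
 1376) (nat_lit 16) (.ev (nat_lit 1389) (nat_lit 2048) .dd))) (.ch (nat_lit 6) (.ev (nat_lit 1376) (nat_lit
 2064) .dd)))))))))) (.br (nat_lit 9) (.br (nat_lit 8) (.ch (nat_lit 6) (.ev (nat_lit 528) (nat_lit 32) (.nd
 (nat_lit 1088) (.br (nat_lit 6) (.br (nat_lit 4) (.ch (nat_lit 1) (.ev (nat_lit 1104) (nat_lit 272) (.ev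
 (nat_lit 2980) (nat_lit 512) (.ev (nat_lit 2989) (nat_lit 2048) .dd)))) (.br (nat_lit 5) (.ch (nat_lit 4) (.ev
 (nat_lit 1104) (nat_lit 2048) (.ev (nat_lit 1508) (nat_lit 16) (.ev (nat_lit 2480) (nat_lit 512) (.ev (nat_lit
 2493) (nat_lit 256) .dd))))) (.ch (nat_lit 5) (.ev (nat_lit 1104) (nat_lit 512) (.ev (nat_lit 1124) (nat_lit
 256) (.ev (nat_lit 2148) (nat_lit 16) (.ev (nat_lit 2157) (nat_lit 2048) .dd))))))) (.br (nat_lit 8) (.br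
 (nat_lit 7) (.ch (nat_lit 6) (.ev (nat_lit 1104) (nat_lit 2576) (.ev (nat_lit 1117) (nat_lit 256) .dd))) (.ch
 (nat_lit 7) (.ev (nat_lit 1104) (nat_lit 512) (.ev (nat_lit 2052) (nat_lit 2048) (.ev (nat_lit 2148) (nat_lit
 16) (.ev (nat_lit 2157) (nat_lit 256) .dd)))))) (.br (nat_lit 10) (.ch (nat_lit 8) (.ev (nat_lit 1104)
 (nat_lit 768) (.ev (nat_lit 2260) (nat_lit 16) (.ev (nat_lit 2269) (nat_lit 2048) .dd)))) (.ch (nat_lit 10)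
 (.ev (nat_lit 1104) (nat_lit 16) (.ev (nat_lit 2052) (nat_lit 2048) (.ev (nat_lit 2116) (nat_lit 256) (.ev
 (nat_lit 2125) (nat_lit 512) .dd))))))))))) (.ch (nat_lit 8) (.ev (nat_lit 528) (nat_lit 2576) (.ev (nat_lit
 804) (nat_lit 256) (.ev (nat_lit 813) (nat_lit 32) .dd))))) (.br (nat_lit 10) (.ch (nat_lit 9) (.ev (nat_lit
 528) (nat_lit 2080) (.ev (nat_lit 676) (nat_lit 16) (.ev (nat_lit 740) (nat_lit 512) (.ev (nat_lit 749)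
 (nat_lit 256) .dd))))) (.ch (nat_lit 10) (.ev (nat_lit 740) (nat_lit 512) (.nd (nat_lit 1232) (.br (nat_lit 4)
 (.br (nat_lit 1) (.ch (nat_lit 0) (.ev (nat_lit 1248) (nat_lit 2064) (.ev (nat_lit 1268) (nat_lit 256) (.ev
 (nat_lit 1277) (nat_lit 32) .dd)))) (.br (nat_lit 2) (.ch (nat_lit 1) (.ev (nat_lit 1248) (nat_lit 2304) (.fin
 (nat_lit 576410724504912395)))) (.ch (nat_lit 2) (.ev (nat_lit 1428) (nat_lit 16) (.ev (nat_lit 2324) (nat_lit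
 2048) (.ev (nat_lit 2836) (nat_lit 32) (.ev (nat_lit 2845) (nat_lit 256) .dd))))))) (.br (nat_lit 6) (.ch
 (nat_lit 4) (.ev (nat_lit 1248) (nat_lit 272) (.nd (nat_lit 5584) (.ch (nat_lit 9) (.fin (nat_lit
 576404127434097174)))))) (.br (nat_lit 8) (.ch (nat_lit 6) (.ev (nat_lit 1248) (nat_lit 2336) (.ev (nat_lit
 1261) (nat_lit 16) .dd))) (.ch (nat_lit 8) (.ev (nat_lit 1460) (nat_lit 16) (.nd (nat_lit 4384) (.br (nat_lit
 9) (.ch (nat_lit 0) (.ev (nat_lit 4400) (nat_lit 2048) (.fin (nat_lit 576443709858988500)))) (.ch (nat_lit 9)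
 (.ev (nat_lit 4400) (nat_lit 32) (.fin (nat_lit 576556959596495557))))))))))))))))))) (.ch (nat_lit 4) (.ev
 (nat_lit 304) (nat_lit 288) (.nd (nat_lit 832) (.br (nat_lit 4) (.br (nat_lit 2) (.ch (nat_lit 0) (.ev
 (nat_lit 848) (nat_lit 16) (.nd (nat_lit 3312) (.br (nat_lit 3) (.br (nat_lit 2) (.ch (nat_lit 1) (.ev
 (nat_lit 3328) (nat_lit 2048) (.ev (nat_lit 3341) (nat_lit 512) .dd))) (.ch (nat_lit 2) (.ev (nat_lit 4292)
 (nat_lit 512) (.ev (nat_lit 4301) (nat_lit 2048) .dd)))) (.br (nat_lit 9) (.ch (nat_lit 3) (.ev (nat_lit 3328)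
 (nat_lit 2560) .dd)) (.ch (nat_lit 9) (.ev (nat_lit 3364) (nat_lit 2048) (.ev (nat_lit 3373) (nat_lit 512)
 .dd)))))))) (.br (nat_lit 3) (.ch (nat_lit 2) (.ev (nat_lit 848) (nat_lit 2048) (.nd (nat_lit 3312) (.br
 (nat_lit 6) (.br (nat_lit 3) (.ch (nat_lit 1) (.ev (nat_lit 3328) (nat_lit 512) (.ev (nat_lit 3341) (nat_lit
 16) .dd))) (.ch (nat_lit 3) (.fin (nat_lit 576399729423237668)))) (.br (nat_lit 7) (.ch (nat_lit 6) (.ev
 (nat_lit 3328) (nat_lit 528) .dd)) (.br (nat_lit 9) (.ch (nat_lit 7) (.ev (nat_lit 3328) (nat_lit 16) (.ev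
 (nat_lit 3341) (nat_lit 512) .dd))) (.ch (nat_lit 9) (.ev (nat_lit 3328) (nat_lit 16) (.ev (nat_lit 3341)
 (nat_lit 512) .dd))))))))) (.ch (nat_lit 3) (.ev (nat_lit 848) (nat_lit 16) (.nd (nat_lit 1952) (.br (nat_lit
 4) (.br (nat_lit 2) (.ch (nat_lit 0) (.ev (nat_lit 1968) (nat_lit 2048) (.ev (nat_lit 1981) (nat_lit 512)
 .dd))) (.br (nat_lit 3) (.ch (nat_lit 2) (.ev (nat_lit 1968) (nat_lit 512) (.ev (nat_lit 1981) (nat_lit 2048)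
 .dd))) (.ch (nat_lit 3) (.ev (nat_lit 1968) (nat_lit 2048) (.ev (nat_lit 1981) (nat_lit 512) .dd))))) (.br
 (nat_lit 7) (.br (nat_lit 6) (.ch (nat_lit 4) (.ev (nat_lit 2468) (nat_lit 2048) (.ev (nat_lit 2477) (nat_lit
 512) .dd))) (.ch (nat_lit 6) (.ev (nat_lit 2292) (nat_lit 2048) (.ev (nat_lit 2301) (nat_lit 512) .dd)))) (.br
 (nat_lit 8) (.ch (nat_lit 7) (.ev (nat_lit 1968) (nat_lit 512) (.ev (nat_lit 1981) (nat_lit 2048) .dd))) (.ch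
 (nat_lit 8) (.ev (nat_lit 2032) (nat_lit 2560) .dd)))))))))) (.br (nat_lit 7) (.br (nat_lit 5) (.ch (nat_lit
 4) (.ev (nat_lit 848) (nat_lit 512) (.nd (nat_lit 1360) (.br (nat_lit 4) (.br (nat_lit 3) (.ch (nat_lit 0)
 (.ev (nat_lit 1396) (nat_lit 2048) (.ev (nat_lit 1405) (nat_lit 16) .dd))) (.ch (nat_lit 3) (.ev (nat_lit
 1376) (nat_lit 2048) (.ev (nat_lit 1389) (nat_lit 16) .dd)))) (.br (nat_lit 8) (.ch (nat_lit 4) (.ev (nat_lit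
 1716) (nat_lit 16) (.ev (nat_lit 1725) (nat_lit 2048) .dd))) (.br (nat_lit 9) (.ch (nat_lit 8) (.ev (nat_lit
 1376) (nat_lit 2048) (.ev (nat_lit 1389) (nat_lit 16) .dd))) (.ch (nat_lit 9) (.ev (nat_lit 1396) (nat_lit 16)
 (.ev (nat_lit 1405) (nat_lit 2048) .dd))))))))) (.ch (nat_lit 5) (.ev (nat_lit 848) (nat_lit 512) (.nd
 (nat_lit 3792) (.br (nat_lit 5) (.ch (nat_lit 3) (.ev (nat_lit 3828) (nat_lit 16) (.ev (nat_lit 3837) (nat_lit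
 2048) .dd))) (.br (nat_lit 6) (.ch (nat_lit 5) (.ev (nat_lit 3808) (nat_lit 16) (.ev (nat_lit 3821) (nat_lit
 2048) .dd))) (.ch (nat_lit 6) (.fin (nat_lit 576492088370610776))))))))) (.br (nat_lit 8) (.ch (nat_lit 7)
 (.nd (nat_lit 1360) (.br (nat_lit 5) (.br (nat_lit 3) (.ch (nat_lit 0) (.ev (nat_lit 1376) (nat_lit 16) (.ev
 (nat_lit 2672) (nat_lit 2560) .dd))) (.br (nat_lit 4) (.ch (nat_lit 3) (.ev (nat_lit 1376) (nat_lit 2048) (.ev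
 (nat_lit 1396) (nat_lit 16) (.ev (nat_lit 1405) (nat_lit 512) .dd)))) (.ch (nat_lit 4) (.ev (nat_lit 1376)
 (nat_lit 512) (.ev (nat_lit 2836) (nat_lit 2048) (.ev (nat_lit 2845) (nat_lit 16) .dd)))))) (.br (nat_lit 7)
 (.br (nat_lit 6) (.ch (nat_lit 5) (.ev (nat_lit 1376) (nat_lit 2048) (.ev (nat_lit 4080) (nat_lit 528) .dd)))
 (.ch (nat_lit 6) (.ev (nat_lit 1376) (nat_lit 512) (.ev (nat_lit 1396) (nat_lit 2048) (.ev (nat_lit 1405)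
 (nat_lit 16) .dd))))) (.br (nat_lit 9) (.ch (nat_lit 7) (.ev (nat_lit 1376) (nat_lit 528) (.ev (nat_lit 1389)
 (nat_lit 2048) .dd))) (.ch (nat_lit 9) (.ev (nat_lit 1396) (nat_lit 2048) (.ev (nat_lit 2384) (nat_lit 16)
 (.ev (nat_lit 2397) (nat_lit 512) .dd))))))))) (.ch (nat_lit 8) (.ev (nat_lit 848) (nat_lit 2048) (.nd
 (nat_lit 3312) (.br (nat_lit 3) (.br (nat_lit 2) (.ch (nat_lit 0) (.ev (nat_lit 3328) (nat_lit 512) (.ev
 (nat_lit 3341) (nat_lit 16) .dd))) (.ch (nat_lit 2) (.ev (nat_lit 3328) (nat_lit 16) (.ev (nat_lit 3341)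
 (nat_lit 512) .dd)))) (.br (nat_lit 10) (.ch (nat_lit 3) (.ev (nat_lit 3328) (nat_lit 16) (.ev (nat_lit 3341)
 (nat_lit 512) .dd))) (.ch (nat_lit 10) (.ev (nat_lit 3328) (nat_lit 512) (.ev (nat_lit 3341) (nat_lit 16)
 .dd)))))))))))))))) (.br (nat_lit 9) (.br (nat_lit 7) (.ch (nat_lit 5) (.ev (nat_lit 304) (nat_lit 560) (.nd
 (nat_lit 832) (.br (nat_lit 3) (.br (nat_lit 1) (.ch (nat_lit 0) (.nd (nat_lit 1952) (.br (nat_lit 4) (.br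
 (nat_lit 2) (.ch (nat_lit 0) (.ev (nat_lit 2052) (nat_lit 2048) (.ev (nat_lit 2061) (nat_lit 256) .dd))) (.ch
 (nat_lit 2) (.nd (nat_lit 5056) (.br (nat_lit 10) (.ch (nat_lit 1) (.ev (nat_lit 5140) (nat_lit 2048) (.ev
 (nat_lit 5149) (nat_lit 256) .dd))) (.ch (nat_lit 10) (.fin (nat_lit 576436013305905729))))))) (.br (nat_lit
 5) (.ch (nat_lit 4) (.ev (nat_lit 1968) (nat_lit 2304) .dd)) (.br (nat_lit 7) (.ch (nat_lit 5) (.ev (nat_lit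
 1968) (nat_lit 256) (.ev (nat_lit 1981) (nat_lit 2048) .dd))) (.ch (nat_lit 7) (.ev (nat_lit 1968) (nat_lit
 256) (.ev (nat_lit 1981) (nat_lit 2048) .dd)))))))) (.br (nat_lit 2) (.ch (nat_lit 1) (.ev (nat_lit 848)
 (nat_lit 2304) .dd)) (.ch (nat_lit 2) (.nd (nat_lit 4160) (.br (nat_lit 8) (.br (nat_lit 7) (.ch (nat_lit 3)
 (.ev (nat_lit 4176) (nat_lit 256) (.ev (nat_lit 4189) (nat_lit 2048) .dd))) (.ch (nat_lit 7) (.ev (nat_lit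
 4176) (nat_lit 256) (.ev (nat_lit 4189) (nat_lit 2048) .dd)))) (.br (nat_lit 10) (.ch (nat_lit 8) (.fin
 (nat_lit 576452505975079481))) (.ch (nat_lit 10) (.ev (nat_lit 4176) (nat_lit 2048) (.ev (nat_lit 4189)
 (nat_lit 256) .dd))))))))) (.br (nat_lit 6) (.br (nat_lit 5) (.ch (nat_lit 3) (.nd (nat_lit 1952) (.br
 (nat_lit 6) (.br (nat_lit 1) (.ch (nat_lit 0) (.ev (nat_lit 1968) (nat_lit 256) (.ev (nat_lit 1981) (nat_lit
 2048) .dd))) (.br (nat_lit 4) (.ch (nat_lit 1) (.ev (nat_lit 2324) (nat_lit 256) (.ev (nat_lit 2333) (nat_lit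
 2048) .dd))) (.ch (nat_lit 4) (.ev (nat_lit 1968) (nat_lit 2048) (.ev (nat_lit 1981) (nat_lit 256) .dd)))))
 (.br (nat_lit 9) (.br (nat_lit 8) (.ch (nat_lit 6) (.ev (nat_lit 1968) (nat_lit 2304) .dd)) (.ch (nat_lit 8)
 (.ev (nat_lit 2068) (nat_lit 2048) (.ev (nat_lit 2077) (nat_lit 256) .dd)))) (.br (nat_lit 10) (.ch (nat_lit
 9) (.ev (nat_lit 1968) (nat_lit 256) (.ev (nat_lit 1981) (nat_lit 2048) .dd))) (.ch (nat_lit 10) (.ev (nat_lit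
 1968) (nat_lit 2048) (.ev (nat_lit 1981) (nat_lit 256) .dd)))))))) (.ch (nat_lit 5) (.ev (nat_lit 848)
 (nat_lit 256) (.ev (nat_lit 861) (nat_lit 2048) .dd)))) (.br (nat_lit 9) (.ch (nat_lit 6) (.ev (nat_lit 848)
 (nat_lit 2048) (.ev (nat_lit 861) (nat_lit 256) .dd))) (.ch (nat_lit 9) (.ev (nat_lit 848) (nat_lit 2048) (.ev
 (nat_lit 861) (nat_lit 256) .dd))))))))) (.ch (nat_lit 7) (.ev (nat_lit 304) (nat_lit 528) (.nd (nat_lit 640)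
 (.br (nat_lit 8) (.br (nat_lit 5) (.ch (nat_lit 0) (.nd (nat_lit 1088) (.br (nat_lit 7) (.br (nat_lit 5) (.ch
 (nat_lit 0) (.ev (nat_lit 1104) (nat_lit 32) (.ev (nat_lit 2420) (nat_lit 256) (.ev (nat_lit 2429) (nat_lit
 2048) .dd)))) (.ch (nat_lit 5) (.ev (nat_lit 1104) (nat_lit 256) (.nd (nat_lit 4336) (.br (nat_lit 8) (.ch
 (nat_lit 5) (.ev (nat_lit 4372) (nat_lit 32) (.ev (nat_lit 4381) (nat_lit 2048) .dd))) (.ch (nat_lit 8) (.fin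
 (nat_lit 576518476806963812)))))))) (.br (nat_lit 8) (.ch (nat_lit 7) (.ev (nat_lit 1508) (nat_lit 32) (.ev
 (nat_lit 1588) (nat_lit 256) (.ev (nat_lit 1597) (nat_lit 2048) .dd)))) (.ch (nat_lit 8) (.ev (nat_lit 1104)
 (nat_lit 2048) (.ev (nat_lit 1124) (nat_lit 32) (.ev (nat_lit 1133) (nat_lit 256) .dd)))))))) (.br (nat_lit 6)
 (.ch (nat_lit 5) (.ev (nat_lit 656) (nat_lit 2048) (.nd (nat_lit 1232) (.br (nat_lit 9) (.br (nat_lit 4) (.ch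
 (nat_lit 2) (.ev (nat_lit 1248) (nat_lit 32) (.ev (nat_lit 1261) (nat_lit 256) .dd))) (.ch (nat_lit 4) (.ev
 (nat_lit 1248) (nat_lit 256) (.ev (nat_lit 1261) (nat_lit 32) .dd)))) (.br (nat_lit 10) (.ch (nat_lit 9) (.fin
 (nat_lit 576482192772252245))) (.ch (nat_lit 10) (.ev (nat_lit 2148) (nat_lit 256) (.ev (nat_lit 2157)
 (nat_lit 32) .dd)))))))) (.ch (nat_lit 6) (.ev (nat_lit 656) (nat_lit 288) (.ev (nat_lit 669) (nat_lit 2048)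
 .dd))))) (.br (nat_lit 9) (.ch (nat_lit 8) (.ev (nat_lit 676) (nat_lit 256) (.nd (nat_lit 1088) (.br (nat_lit
 5) (.br (nat_lit 2) (.ch (nat_lit 0) (.ev (nat_lit 1540) (nat_lit 2048) (.ev (nat_lit 1549) (nat_lit 32)
 .dd))) (.br (nat_lit 3) (.ch (nat_lit 2) (.ev (nat_lit 1104) (nat_lit 2080) .dd)) (.ch (nat_lit 3) (.ev
 (nat_lit 1104) (nat_lit 2048) (.ev (nat_lit 1117) (nat_lit 32) .dd))))) (.br (nat_lit 6) (.ch (nat_lit 5) (.ev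
 (nat_lit 1104) (nat_lit 2048) (.ev (nat_lit 1117) (nat_lit 32) .dd))) (.br (nat_lit 10) (.ch (nat_lit 6) (.ev
 (nat_lit 1104) (nat_lit 32) (.ev (nat_lit 1117) (nat_lit 2048) .dd))) (.ch (nat_lit 10) (.ev (nat_lit 1652)
 (nat_lit 32) (.ev (nat_lit 1661) (nat_lit 2048) .dd))))))))) (.br (nat_lit 10) (.ch (nat_lit 9) (.nd (nat_lit
 1088) (.br (nat_lit 6) (.br (nat_lit 3) (.ch (nat_lit 0) (.ev (nat_lit 1104) (nat_lit 32) (.ev (nat_lit 1428)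
 (nat_lit 256) (.ev (nat_lit 1437) (nat_lit 2048) .dd)))) (.br (nat_lit 4) (.ch (nat_lit 3) (.ev (nat_lit 1104)
 (nat_lit 2080) (.ev (nat_lit 1117) (nat_lit 256) .dd))) (.ch (nat_lit 4) (.ev (nat_lit 4628) (nat_lit 256)
 (.nd (nat_lit 5056) (.ch (nat_lit 1) (.nd (nat_lit 6048) (.br (nat_lit 10) (.ch (nat_lit 8) (.fin (nat_lit
 576589944939037282))) (.ch (nat_lit 10) (.ev (nat_lit 6064) (nat_lit 2080) .dd)))))))))) (.br (nat_lit 8) (.br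
 (nat_lit 7) (.ch (nat_lit 6) (.ev (nat_lit 1104) (nat_lit 256) (.fin (nat_lit 576447008420086304)))) (.ch
 (nat_lit 7) (.ev (nat_lit 1104) (nat_lit 256) (.ev (nat_lit 2788) (nat_lit 32) (.ev (nat_lit 2797) (nat_lit
 2048) .dd))))) (.br (nat_lit 9) (.ch (nat_lit 8) (.ev (nat_lit 1104) (nat_lit 32) (.ev (nat_lit 1764) (nat_lit
 2048) (.ev (nat_lit 1773) (nat_lit 256) .dd)))) (.ch (nat_lit 9) (.ev (nat_lit 1104) (nat_lit 2048) (.ev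
 (nat_lit 1588) (nat_lit 32) (.ev (nat_lit 1597) (nat_lit 256) .dd))))))))) (.ch (nat_lit 10) (.ev (nat_lit
 656) (nat_lit 2048) (.nd (nat_lit 1360) (.br (nat_lit 8) (.ch (nat_lit 4) (.ev (nat_lit 3860) (nat_lit 256)
 (.ev (nat_lit 3869) (nat_lit 32) .dd))) (.br (nat_lit 10) (.ch (nat_lit 8) (.fin (nat_lit
 576486590880629295))) (.ch (nat_lit 10) (.ev (nat_lit 3492) (nat_lit 256) (.ev (nat_lit 3501) (nat_lit 32)
 .dd))))))))))))))) (.br (nat_lit 10) (.ch (nat_lit 9) (.ev (nat_lit 304) (nat_lit 256) (.nd (nat_lit 512) (.br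
 (nat_lit 4) (.br (nat_lit 2) (.ch (nat_lit 1) (.nd (nat_lit 928) (.br (nat_lit 7) (.br (nat_lit 3) (.ch
 (nat_lit 2) (.ev (nat_lit 944) (nat_lit 528) (.ev (nat_lit 1684) (nat_lit 2048) (.ev (nat_lit 1693) (nat_lit
 32) .dd)))) (.br (nat_lit 5) (.ch (nat_lit 3) (.ev (nat_lit 2068) (nat_lit 32) (.ev (nat_lit 2116) (nat_lit
 512) (.ev (nat_lit 2452) (nat_lit 2048) (.ev (nat_lit 2461) (nat_lit 16) .dd))))) (.ch (nat_lit 5) (.ev
 (nat_lit 944) (nat_lit 32) (.ev (nat_lit 2148) (nat_lit 2048) (.nd (nat_lit 4848) (.ch (nat_lit 5) (.ev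
 (nat_lit 5204) (nat_lit 16) (.ev (nat_lit 5213) (nat_lit 512) .dd))))))))) (.br (nat_lit 9) (.br (nat_lit 8)
 (.ch (nat_lit 7) (.ev (nat_lit 944) (nat_lit 2576) (.ev (nat_lit 957) (nat_lit 32) .dd))) (.ch (nat_lit 8)
 (.ev (nat_lit 944) (nat_lit 2096) (.ev (nat_lit 957) (nat_lit 512) .dd)))) (.br (nat_lit 10) (.ch (nat_lit 9)
 (.ev (nat_lit 944) (nat_lit 2560) (.ev (nat_lit 1044) (nat_lit 32) (.ev (nat_lit 1053) (nat_lit 16) .dd))))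
 (.ch (nat_lit 10) (.ev (nat_lit 944) (nat_lit 2048) (.ev (nat_lit 1300) (nat_lit 512) (.ev (nat_lit 2052)
 (nat_lit 16) (.ev (nat_lit 2061) (nat_lit 32) .dd)))))))))) (.br (nat_lit 3) (.ch (nat_lit 2) (.ev (nat_lit
 528) (nat_lit 512) (.nd (nat_lit 1088) (.br (nat_lit 7) (.br (nat_lit 1) (.ch (nat_lit 0) (.ev (nat_lit 1104)
 (nat_lit 16) (.nd (nat_lit 4640) (.ch (nat_lit 4) (.fin (nat_lit 576461302080684607)))))) (.br (nat_lit 6)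
 (.ch (nat_lit 1) (.ev (nat_lit 1104) (nat_lit 2080) (.ev (nat_lit 1117) (nat_lit 16) .dd))) (.ch (nat_lit 6)
 (.ev (nat_lit 1104) (nat_lit 2064) (.ev (nat_lit 1117) (nat_lit 32) .dd))))) (.br (nat_lit 8) (.ch (nat_lit 7)
 (.ev (nat_lit 2052) (nat_lit 16) (.ev (nat_lit 5252) (nat_lit 2048) (.ev (nat_lit 5261) (nat_lit 32) .dd))))
 (.br (nat_lit 10) (.ch (nat_lit 8) (.ev (nat_lit 1104) (nat_lit 32) (.ev (nat_lit 1300) (nat_lit 2048) (.ev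
 (nat_lit 1309) (nat_lit 16) .dd)))) (.ch (nat_lit 10) (.ev (nat_lit 1552) (nat_lit 2048) (.ev (nat_lit 1684)
 (nat_lit 32) (.ev (nat_lit 1693) (nat_lit 16) .dd)))))))))) (.ch (nat_lit 3) (.ev (nat_lit 528) (nat_lit 2096)
 (.ev (nat_lit 541) (nat_lit 512) .dd))))) (.br (nat_lit 7) (.br (nat_lit 6) (.ch (nat_lit 4) (.ev (nat_lit
 528) (nat_lit 48) (.nd (nat_lit 1360) (.br (nat_lit 6) (.br (nat_lit 2) (.ch (nat_lit 1) (.ev (nat_lit 1376)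
 (nat_lit 512) (.ev (nat_lit 1389) (nat_lit 2048) .dd))) (.br (nat_lit 3) (.ch (nat_lit 2) (.ev (nat_lit 1376)
 (nat_lit 2048) (.ev (nat_lit 1389) (nat_lit 512) .dd))) (.ch (nat_lit 3) (.ev (nat_lit 1376) (nat_lit 512)
 (.ev (nat_lit 1389) (nat_lit 2048) .dd))))) (.br (nat_lit 9) (.br (nat_lit 8) (.ch (nat_lit 6) (.ev (nat_lit
 1376) (nat_lit 2048) (.ev (nat_lit 1389) (nat_lit 512) .dd))) (.ch (nat_lit 8) (.ev (nat_lit 1376) (nat_lit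
 512) (.ev (nat_lit 1389) (nat_lit 2048) .dd)))) (.br (nat_lit 10) (.ch (nat_lit 9) (.ev (nat_lit 1376)
 (nat_lit 2048) (.ev (nat_lit 1389) (nat_lit 512) .dd))) (.ch (nat_lit 10) (.nd (nat_lit 5296) (.br (nat_lit 8)
 (.ch (nat_lit 1) (.ev (nat_lit 5312) (nat_lit 2048) (.ev (nat_lit 5325) (nat_lit 512) .dd))) (.br (nat_lit 9)
 (.ch (nat_lit 8) (.ev (nat_lit 5312) (nat_lit 2048) (.ev (nat_lit 5325) (nat_lit 512) .dd))) (.ch (nat_lit 9)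
 (.fin (nat_lit 576412923559625243))))))))))))) (.ch (nat_lit 6) (.ev (nat_lit 528) (nat_lit 2048) (.ev
 (nat_lit 676) (nat_lit 512) (.nd (nat_lit 1360) (.br (nat_lit 5) (.br (nat_lit 3) (.ch (nat_lit 0) (.ev
 (nat_lit 1376) (nat_lit 32) (.ev (nat_lit 1389) (nat_lit 16) .dd))) (.ch (nat_lit 3) (.fin (nat_lit
 576481093193515555)))) (.br (nat_lit 6) (.ch (nat_lit 5) (.ev (nat_lit 1396) (nat_lit 32) (.ev (nat_lit 1405)
 (nat_lit 16) .dd))) (.br (nat_lit 9) (.ch (nat_lit 6) (.ev (nat_lit 1376) (nat_lit 16) (.ev (nat_lit 1389)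
 (nat_lit 32) .dd))) (.ch (nat_lit 9) (.ev (nat_lit 1376) (nat_lit 16) (.ev (nat_lit 1389) (nat_lit 32)
 .dd))))))))))) (.br (nat_lit 10) (.ch (nat_lit 7) (.ev (nat_lit 528) (nat_lit 2560) (.nd (nat_lit 928) (.br
 (nat_lit 3) (.ch (nat_lit 1) (.ev (nat_lit 2324) (nat_lit 32) (.ev (nat_lit 2333) (nat_lit 16) .dd))) (.br
 (nat_lit 4) (.ch (nat_lit 3) (.ev (nat_lit 1540) (nat_lit 32) (.ev (nat_lit 1549) (nat_lit 16) .dd))) (.ch
 (nat_lit 4) (.nd (nat_lit 4224) (.br (nat_lit 3) (.ch (nat_lit 0) (.ev (nat_lit 4420) (nat_lit 16) (.ev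
 (nat_lit 4429) (nat_lit 32) .dd))) (.ch (nat_lit 3) (.ev (nat_lit 4500) (nat_lit 32) (.ev (nat_lit 4509)
 (nat_lit 16) .dd))))))))))) (.ch (nat_lit 10) (.ev (nat_lit 528) (nat_lit 512) (.nd (nat_lit 992) (.br
 (nat_lit 5) (.br (nat_lit 1) (.ch (nat_lit 0) (.ev (nat_lit 2400) (nat_lit 32) (.fin (nat_lit
 576509680621666914)))) (.br (nat_lit 2) (.ch (nat_lit 1) (.ev (nat_lit 1008) (nat_lit 2080) (.ev (nat_lit
 1021) (nat_lit 16) .dd))) (.ch (nat_lit 2) (.ev (nat_lit 1008) (nat_lit 16) (.ev (nat_lit 1652) (nat_lit 32)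
 (.ev (nat_lit 1661) (nat_lit 2048) .dd)))))) (.br (nat_lit 8) (.br (nat_lit 7) (.ch (nat_lit 5) (.ev (nat_lit
 1028) (nat_lit 16) (.ev (nat_lit 1460) (nat_lit 2048) (.ev (nat_lit 1469) (nat_lit 32) .dd)))) (.ch (nat_lit
 7) (.ev (nat_lit 1008) (nat_lit 32) (.ev (nat_lit 1156) (nat_lit 2048) (.ev (nat_lit 1165) (nat_lit 16)
 .dd))))) (.br (nat_lit 9) (.ch (nat_lit 8) (.ev (nat_lit 1008) (nat_lit 2048) (.ev (nat_lit 1028) (nat_lit 16)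
 (.ev (nat_lit 1037) (nat_lit 32) .dd)))) (.ch (nat_lit 9) (.ev (nat_lit 1008) (nat_lit 2064) (.ev (nat_lit
 1021) (nat_lit 32) .dd))))))))))))))) (.ch (nat_lit 10) (.ev (nat_lit 304) (nat_lit 2048) (.nd (nat_lit 512)
 (.br (nat_lit 6) (.br (nat_lit 2) (.ch (nat_lit 0) (.ev (nat_lit 528) (nat_lit 288) (.nd (nat_lit 1232) (.br
 (nat_lit 4) (.ch (nat_lit 1) (.ev (nat_lit 1268) (nat_lit 16) (.ev (nat_lit 1277) (nat_lit 512) .dd))) (.br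
 (nat_lit 6) (.ch (nat_lit 4) (.ev (nat_lit 2260) (nat_lit 16) (.ev (nat_lit 2269) (nat_lit 512) .dd))) (.ch
 (nat_lit 6) (.ev (nat_lit 2068) (nat_lit 512) (.ev (nat_lit 2077) (nat_lit 16) .dd)))))))) (.br (nat_lit 5)
 (.ch (nat_lit 2) (.ev (nat_lit 528) (nat_lit 288) (.nd (nat_lit 1088) (.br (nat_lit 9) (.ch (nat_lit 5) (.ev
 (nat_lit 1684) (nat_lit 16) (.ev (nat_lit 1693) (nat_lit 512) .dd))) (.br (nat_lit 10) (.ch (nat_lit 9) (.ev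
 (nat_lit 2228) (nat_lit 16) (.ev (nat_lit 2237) (nat_lit 512) .dd))) (.ch (nat_lit 10) (.fin (nat_lit
 576465700107272835)))))))) (.ch (nat_lit 5) (.ev (nat_lit 528) (nat_lit 768) (.nd (nat_lit 1360) (.br (nat_lit
 8) (.ch (nat_lit 6) (.ev (nat_lit 3508) (nat_lit 32) (.ev (nat_lit 3517) (nat_lit 16) .dd))) (.ch (nat_lit 8)
 (.ev (nat_lit 3444) (nat_lit 16) (.ev (nat_lit 3453) (nat_lit 32) .dd))))))))) (.br (nat_lit 8) (.br (nat_lit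
 7) (.ch (nat_lit 6) (.ev (nat_lit 916) (nat_lit 256) (.nd (nat_lit 1088) (.br (nat_lit 3) (.br (nat_lit 1)
 (.ch (nat_lit 0) (.ev (nat_lit 1104) (nat_lit 16) (.nd (nat_lit 4768) (.br (nat_lit 8) (.ch (nat_lit 0) (.fin
 (nat_lit 576400828928573978))) (.ch (nat_lit 8) (.ev (nat_lit 4784) (nat_lit 32) (.ev (nat_lit 4797) (nat_lit
 512) .dd))))))) (.br (nat_lit 2) (.ch (nat_lit 1) (.ev (nat_lit 1124) (nat_lit 512) (.ev (nat_lit 2692)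
 (nat_lit 16) (.ev (nat_lit 2701) (nat_lit 32) .dd)))) (.ch (nat_lit 2) (.ev (nat_lit 1104) (nat_lit 512) (.ev
 (nat_lit 1268) (nat_lit 16) (.ev (nat_lit 1277) (nat_lit 32) .dd)))))) (.br (nat_lit 5) (.ch (nat_lit 3) (.ev
 (nat_lit 1104) (nat_lit 528) (.ev (nat_lit 1117) (nat_lit 32) .dd))) (.br (nat_lit 6) (.ch (nat_lit 5) (.ev
 (nat_lit 1104) (nat_lit 32) (.ev (nat_lit 1684) (nat_lit 512) (.ev (nat_lit 1693) (nat_lit 16) .dd)))) (.ch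
 (nat_lit 6) (.ev (nat_lit 1140) (nat_lit 32) (.ev (nat_lit 1268) (nat_lit 16) (.ev (nat_lit 1277) (nat_lit
 512) .dd)))))))))) (.ch (nat_lit 7) (.ev (nat_lit 528) (nat_lit 768) (.ev (nat_lit 2800) (nat_lit 48) .dd))))
 (.br (nat_lit 9) (.ch (nat_lit 8) (.ev (nat_lit 528) (nat_lit 16) (.ev (nat_lit 916) (nat_lit 256) (.nd
 (nat_lit 1232) (.br (nat_lit 9) (.br (nat_lit 8) (.ch (nat_lit 7) (.ev (nat_lit 1248) (nat_lit 512) (.ev
 (nat_lit 1261) (nat_lit 32) .dd))) (.ch (nat_lit 8) (.ev (nat_lit 4324) (nat_lit 512) (.ev (nat_lit 4333)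
 (nat_lit 32) .dd)))) (.br (nat_lit 10) (.ch (nat_lit 9) (.ev (nat_lit 1248) (nat_lit 512) (.ev (nat_lit 1261)
 (nat_lit 32) .dd))) (.ch (nat_lit 10) (.ev (nat_lit 1248) (nat_lit 512) (.ev (nat_lit 1261) (nat_lit 32)
 .dd))))))))) (.ch (nat_lit 9) (.ev (nat_lit 528) (nat_lit 528) (.fin (nat_lit
 576501983980503687)))))))))))))))) (.ch (nat_lit 4) (.ev (nat_lit 48) (nat_lit 2080) (.nd (nat_lit 128) (.br
 (nat_lit 4) (.br (nat_lit 2) (.ch (nat_lit 0) (.nd (nat_lit 416) (.br (nat_lit 5) (.br (nat_lit 3) (.ch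
 (nat_lit 2) (.nd (nat_lit 1952) (.br (nat_lit 6) (.br (nat_lit 1) (.ch (nat_lit 0) (.ev (nat_lit 1968)
 (nat_lit 4624) (.ev (nat_lit 1981) (nat_lit 256) .dd))) (.br (nat_lit 2) (.ch (nat_lit 1) (.ev (nat_lit 1968)
 (nat_lit 512) (.ev (nat_lit 4916) (nat_lit 4096) (.nd (nat_lit 5392) (.br (nat_lit 2) (.ch (nat_lit 1) (.fin
 (nat_lit 576455804496331388))) (.ch (nat_lit 2) (.ev (nat_lit 5428) (nat_lit 16) (.ev (nat_lit 5437) (nat_lit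
 256) .dd)))))))) (.ch (nat_lit 2) (.ev (nat_lit 1968) (nat_lit 784) (.ev (nat_lit 1981) (nat_lit 4096)
 .dd))))) (.br (nat_lit 9) (.br (nat_lit 7) (.ch (nat_lit 6) (.ev (nat_lit 1968) (nat_lit 272) (.ev (nat_lit
 3364) (nat_lit 512) (.ev (nat_lit 3373) (nat_lit 4096) .dd)))) (.ch (nat_lit 7) (.ev (nat_lit 2612) (nat_lit
 16) (.ev (nat_lit 3364) (nat_lit 4096) (.ev (nat_lit 3604) (nat_lit 256) (.ev (nat_lit 3613) (nat_lit 512)
 .dd)))))) (.br (nat_lit 10) (.ch (nat_lit 9) (.ev (nat_lit 1968) (nat_lit 4624) (.ev (nat_lit 1981) (nat_lit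
 256) .dd))) (.ch (nat_lit 10) (.ev (nat_lit 1968) (nat_lit 272) (.ev (nat_lit 3364) (nat_lit 4096) (.ev
 (nat_lit 3373) (nat_lit 512) .dd))))))))) (.br (nat_lit 4) (.ch (nat_lit 3) (.ev (nat_lit 432) (nat_lit 16)
 (.nd (nat_lit 3312) (.br (nat_lit 7) (.br (nat_lit 5) (.ch (nat_lit 2) (.ev (nat_lit 3328) (nat_lit 4864)
 .dd)) (.ch (nat_lit 5) (.ev (nat_lit 4116) (nat_lit 512) (.nd (nat_lit 5504) (.br (nat_lit 3) (.ch (nat_lit 1)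
 (.ev (nat_lit 5520) (nat_lit 4096) (.ev (nat_lit 5533) (nat_lit 256) .dd))) (.br (nat_lit 4) (.ch (nat_lit 3)
 (.fin (nat_lit 576511879637582423))) (.ch (nat_lit 4) (.ev (nat_lit 5520) (nat_lit 4096) (.ev (nat_lit 5533)
 (nat_lit 256) .dd))))))))) (.br (nat_lit 8) (.ch (nat_lit 7) (.ev (nat_lit 3328) (nat_lit 4096) (.ev (nat_lit
 3364) (nat_lit 512) (.ev (nat_lit 3373) (nat_lit 256) .dd)))) (.ch (nat_lit 8) (.ev (nat_lit 3328) (nat_lit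
 512) (.ev (nat_lit 3364) (nat_lit 4096) (.ev (nat_lit 3373) (nat_lit 256) .dd))))))))) (.ch (nat_lit 4) (.ev
 (nat_lit 432) (nat_lit 256) (.ev (nat_lit 2660) (nat_lit 512) (.ev (nat_lit 2692) (nat_lit 4096) (.ev (nat_lit
 2701) (nat_lit 16) .dd))))))) (.br (nat_lit 8) (.br (nat_lit 6) (.ch (nat_lit 5) (.ev (nat_lit 432) (nat_lit
 528) (.ev (nat_lit 2260) (nat_lit 256) (.ev (nat_lit 2269) (nat_lit 4096) .dd)))) (.ch (nat_lit 6) (.ev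
 (nat_lit 432) (nat_lit 4112) (.ev (nat_lit 500) (nat_lit 256) (.ev (nat_lit 509) (nat_lit 512) .dd))))) (.br
 (nat_lit 10) (.ch (nat_lit 8) (.ev (nat_lit 432) (nat_lit 768) (.nd (nat_lit 1952) (.br (nat_lit 3) (.br
 (nat_lit 2) (.ch (nat_lit 0) (.ev (nat_lit 1968) (nat_lit 16) (.ev (nat_lit 1981) (nat_lit 4096) .dd))) (.ch
 (nat_lit 2) (.ev (nat_lit 3508) (nat_lit 16) (.ev (nat_lit 3517) (nat_lit 4096) .dd)))) (.br (nat_lit 7) (.ch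
 (nat_lit 3) (.ev (nat_lit 3364) (nat_lit 4096) (.ev (nat_lit 3373) (nat_lit 16) .dd))) (.br (nat_lit 8) (.ch
 (nat_lit 7) (.ev (nat_lit 1968) (nat_lit 4096) (.ev (nat_lit 1981) (nat_lit 16) .dd))) (.ch (nat_lit 8) (.ev
 (nat_lit 2052) (nat_lit 16) (.ev (nat_lit 2061) (nat_lit 4096) .dd))))))))) (.ch (nat_lit 10) (.ev (nat_lit
 432) (nat_lit 4352) (.nd (nat_lit 992) (.br (nat_lit 4) (.br (nat_lit 2) (.ch (nat_lit 0) (.ev (nat_lit 1008)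
 (nat_lit 512) (.ev (nat_lit 1021) (nat_lit 16) .dd))) (.br (nat_lit 3) (.ch (nat_lit 2) (.ev (nat_lit 1008)
 (nat_lit 512) (.ev (nat_lit 1021) (nat_lit 16) .dd))) (.ch (nat_lit 3) (.ev (nat_lit 3188) (nat_lit 512) (.ev
 (nat_lit 3197) (nat_lit 16) .dd))))) (.br (nat_lit 6) (.ch (nat_lit 4) (.ev (nat_lit 4916) (nat_lit 512) (.ev
 (nat_lit 4925) (nat_lit 16) .dd))) (.br (nat_lit 7) (.ch (nat_lit 6) (.ev (nat_lit 1008) (nat_lit 16) (.ev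
 (nat_lit 1021) (nat_lit 512) .dd))) (.ch (nat_lit 7) (.ev (nat_lit 1008) (nat_lit 16) (.ev (nat_lit 1021)
 (nat_lit 512) .dd)))))))))))))) (.br (nat_lit 3) (.ch (nat_lit 2) (.ev (nat_lit 144) (nat_lit 256) (.nd
 (nat_lit 512) (.br (nat_lit 3) (.br (nat_lit 1) (.ch (nat_lit 0) (.nd (nat_lit 1088) (.br (nat_lit 3) (.br
 (nat_lit 2) (.ch (nat_lit 0) (.ev (nat_lit 2660) (nat_lit 16) (.ev (nat_lit 2788) (nat_lit 4096) (.ev (nat_lit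
 2797) (nat_lit 512) .dd)))) (.ch (nat_lit 2) (.ev (nat_lit 2788) (nat_lit 4096) (.nd (nat_lit 4448) (.br
 (nat_lit 1) (.ch (nat_lit 0) (.fin (nat_lit 576443709942874680))) (.ch (nat_lit 1) (.ev (nat_lit 4464)
 (nat_lit 528) .dd))))))) (.br (nat_lit 5) (.ch (nat_lit 3) (.ev (nat_lit 1104) (nat_lit 4096) (.ev (nat_lit
 3444) (nat_lit 16) (.ev (nat_lit 3453) (nat_lit 512) .dd)))) (.br (nat_lit 7) (.ch (nat_lit 5) (.ev (nat_lit
 1104) (nat_lit 512) (.ev (nat_lit 1124) (nat_lit 16) (.ev (nat_lit 1133) (nat_lit 4096) .dd)))) (.ch (nat_lit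
 7) (.ev (nat_lit 1104) (nat_lit 528) (.ev (nat_lit 1117) (nat_lit 4096) .dd)))))))) (.br (nat_lit 2) (.ch
 (nat_lit 1) (.ev (nat_lit 528) (nat_lit 4096) (.ev (nat_lit 548) (nat_lit 16) (.ev (nat_lit 557) (nat_lit 512)
 .dd)))) (.ch (nat_lit 2) (.ev (nat_lit 528) (nat_lit 512) (.ev (nat_lit 3492) (nat_lit 4096) (.ev (nat_lit
 3501) (nat_lit 16) .dd)))))) (.br (nat_lit 8) (.br (nat_lit 4) (.ch (nat_lit 3) (.ev (nat_lit 528) (nat_lit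
 16) (.nd (nat_lit 3664) (.br (nat_lit 8) (.br (nat_lit 7) (.ch (nat_lit 5) (.ev (nat_lit 3680) (nat_lit 512)
 (.ev (nat_lit 3693) (nat_lit 4096) .dd))) (.ch (nat_lit 7) (.ev (nat_lit 3680) (nat_lit 4096) (.ev (nat_lit
 3693) (nat_lit 512) .dd)))) (.br (nat_lit 10) (.ch (nat_lit 8) (.ev (nat_lit 3732) (nat_lit 512) (.ev (nat_lit
 3741) (nat_lit 4096) .dd))) (.ch (nat_lit 10) (.ev (nat_lit 3680) (nat_lit 4096) (.ev (nat_lit 3693) (nat_lit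
 512) .dd)))))))) (.ch (nat_lit 4) (.ev (nat_lit 528) (nat_lit 528) (.ev (nat_lit 541) (nat_lit 4096) .dd))))
 (.br (nat_lit 9) (.ch (nat_lit 8) (.ev (nat_lit 528) (nat_lit 4608) (.ev (nat_lit 541) (nat_lit 16) .dd)))
 (.ch (nat_lit 9) (.ev (nat_lit 528) (nat_lit 4096) (.ev (nat_lit 580) (nat_lit 512) (.ev (nat_lit 589)
 (nat_lit 16) .dd)))))))))) (.ch (nat_lit 3) (.nd (nat_lit 384) (.br (nat_lit 6) (.br (nat_lit 4) (.ch (nat_lit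
 1) (.ev (nat_lit 400) (nat_lit 256) (.ev (nat_lit 868) (nat_lit 4096) (.nd (nat_lit 992) (.br (nat_lit 8) (.br
 (nat_lit 3) (.ch (nat_lit 0) (.ev (nat_lit 1028) (nat_lit 512) (.ev (nat_lit 1037) (nat_lit 16) .dd))) (.br
 (nat_lit 5) (.ch (nat_lit 3) (.ev (nat_lit 1008) (nat_lit 16) (.ev (nat_lit 1021) (nat_lit 512) .dd))) (.ch
 (nat_lit 5) (.ev (nat_lit 1008) (nat_lit 512) (.ev (nat_lit 1021) (nat_lit 16) .dd))))) (.br (nat_lit 9) (.ch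
 (nat_lit 8) (.ev (nat_lit 1008) (nat_lit 512) (.ev (nat_lit 1021) (nat_lit 16) .dd))) (.br (nat_lit 10) (.ch
 (nat_lit 9) (.ev (nat_lit 4500) (nat_lit 16) (.ev (nat_lit 4509) (nat_lit 512) .dd))) (.ch (nat_lit 10) (.ev
 (nat_lit 2884) (nat_lit 512) (.ev (nat_lit 2893) (nat_lit 16) .dd)))))))))) (.br (nat_lit 5) (.ch (nat_lit 4)
 (.ev (nat_lit 400) (nat_lit 4608) (.nd (nat_lit 1088) (.br (nat_lit 3) (.ch (nat_lit 1) (.fin (nat_lit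
 576399729399120405))) (.ch (nat_lit 3) (.ev (nat_lit 2292) (nat_lit 16) (.ev (nat_lit 2301) (nat_lit 256)
 .dd))))))) (.ch (nat_lit 5) (.ev (nat_lit 400) (nat_lit 512) (.ev (nat_lit 868) (nat_lit 4096) (.nd (nat_lit
 1360) (.br (nat_lit 6) (.br (nat_lit 5) (.ch (nat_lit 4) (.ev (nat_lit 1376) (nat_lit 16) (.ev (nat_lit 1389)
 (nat_lit 256) .dd))) (.ch (nat_lit 5) (.ev (nat_lit 2516) (nat_lit 16) (.ev (nat_lit 2525) (nat_lit 256)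
 .dd)))) (.br (nat_lit 10) (.ch (nat_lit 6) (.ev (nat_lit 2116) (nat_lit 256) (.ev (nat_lit 2125) (nat_lit 16)
 .dd))) (.ch (nat_lit 10) (.ev (nat_lit 3444) (nat_lit 16) (.ev (nat_lit 3453) (nat_lit 256) .dd)))))))))))
 (.br (nat_lit 8) (.br (nat_lit 7) (.ch (nat_lit 6) (.ev (nat_lit 400) (nat_lit 4096) (.nd (nat_lit 832) (.br
 (nat_lit 4) (.br (nat_lit 2) (.ch (nat_lit 0) (.ev (nat_lit 2228) (nat_lit 16) (.nd (nat_lit 4848) (.br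
 (nat_lit 7) (.ch (nat_lit 6) (.ev (nat_lit 4864) (nat_lit 256) (.ev (nat_lit 4877) (nat_lit 512) .dd))) (.ch
 (nat_lit 7) (.ev (nat_lit 4864) (nat_lit 512) (.ev (nat_lit 4877) (nat_lit 256) .dd))))))) (.br (nat_lit 3)
 (.ch (nat_lit 2) (.ev (nat_lit 848) (nat_lit 512) (.ev (nat_lit 1156) (nat_lit 16) (.ev (nat_lit 1165)
 (nat_lit 256) .dd)))) (.ch (nat_lit 3) (.ev (nat_lit 848) (nat_lit 768) (.ev (nat_lit 861) (nat_lit 16)
 .dd))))) (.br (nat_lit 5) (.ch (nat_lit 4) (.ev (nat_lit 848) (nat_lit 256) (.ev (nat_lit 1460) (nat_lit 512)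
 (.ev (nat_lit 1469) (nat_lit 16) .dd)))) (.br (nat_lit 9) (.ch (nat_lit 5) (.ev (nat_lit 848) (nat_lit 16)
 (.nd (nat_lit 4224) (.br (nat_lit 5) (.ch (nat_lit 4) (.fin (nat_lit 576486590768431686))) (.ch (nat_lit 5)
 (.ev (nat_lit 4240) (nat_lit 512) (.ev (nat_lit 4253) (nat_lit 256) .dd))))))) (.ch (nat_lit 9) (.ev (nat_lit
 848) (nat_lit 256) (.ev (nat_lit 1300) (nat_lit 512) (.ev (nat_lit 1309) (nat_lit 16) .dd)))))))))) (.ch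
 (nat_lit 7) (.ev (nat_lit 400) (nat_lit 16) (.ev (nat_lit 868) (nat_lit 4096) (.nd (nat_lit 1088) (.br
 (nat_lit 4) (.br (nat_lit 2) (.ch (nat_lit 1) (.ev (nat_lit 1652) (nat_lit 512) (.ev (nat_lit 1661) (nat_lit
 256) .dd))) (.br (nat_lit 3) (.ch (nat_lit 2) (.ev (nat_lit 1104) (nat_lit 256) (.ev (nat_lit 1117) (nat_lit
 512) .dd))) (.ch (nat_lit 3) (.ev (nat_lit 1540) (nat_lit 512) (.ev (nat_lit 1549) (nat_lit 256) .dd))))) (.br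
 (nat_lit 7) (.ch (nat_lit 4) (.ev (nat_lit 1508) (nat_lit 512) (.ev (nat_lit 1517) (nat_lit 256) .dd))) (.br
 (nat_lit 9) (.ch (nat_lit 7) (.ev (nat_lit 1104) (nat_lit 768) .dd)) (.ch (nat_lit 9) (.ev (nat_lit 1428)
 (nat_lit 256) (.ev (nat_lit 1437) (nat_lit 512) .dd))))))))))) (.br (nat_lit 10) (.ch (nat_lit 8) (.ev
 (nat_lit 400) (nat_lit 4368) (.ev (nat_lit 413) (nat_lit 512) .dd))) (.ch (nat_lit 10) (.ev (nat_lit 400)
 (nat_lit 256) (.nd (nat_lit 992) (.br (nat_lit 5) (.br (nat_lit 2) (.ch (nat_lit 0) (.ev (nat_lit 1008)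
 (nat_lit 512) (.ev (nat_lit 3364) (nat_lit 4096) (.ev (nat_lit 3373) (nat_lit 16) .dd)))) (.br (nat_lit 4)
 (.ch (nat_lit 2) (.ev (nat_lit 1028) (nat_lit 512) (.ev (nat_lit 1664) (nat_lit 16) (.ev (nat_lit 1677)
 (nat_lit 4096) .dd)))) (.ch (nat_lit 4) (.ev (nat_lit 1008) (nat_lit 4096) (.ev (nat_lit 1284) (nat_lit 512)
 (.ev (nat_lit 1293) (nat_lit 16) .dd)))))) (.br (nat_lit 9) (.br (nat_lit 8) (.ch (nat_lit 5) (.ev (nat_lit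
 1008) (nat_lit 4608) (.ev (nat_lit 1021) (nat_lit 16) .dd))) (.ch (nat_lit 8) (.ev (nat_lit 1008) (nat_lit 16)
 (.ev (nat_lit 2900) (nat_lit 512) (.ev (nat_lit 2909) (nat_lit 4096) .dd))))) (.br (nat_lit 10) (.ch (nat_lit
 9) (.ev (nat_lit 1008) (nat_lit 4112) (.ev (nat_lit 1021) (nat_lit 512) .dd))) (.ch (nat_lit 10) (.ev (nat_lit
 1008) (nat_lit 16) (.fin (nat_lit 576519576145576551))))))))))))))))) (.br (nat_lit 9) (.br (nat_lit 7) (.ch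
 (nat_lit 4) (.ev (nat_lit 144) (nat_lit 512) (.ev (nat_lit 260) (nat_lit 4096) (.nd (nat_lit 704) (.br
 (nat_lit 7) (.br (nat_lit 3) (.ch (nat_lit 1) (.nd (nat_lit 1088) (.br (nat_lit 7) (.br (nat_lit 4) (.ch
 (nat_lit 3) (.ev (nat_lit 1104) (nat_lit 16) (.ev (nat_lit 1117) (nat_lit 256) .dd))) (.br (nat_lit 6) (.ch
 (nat_lit 4) (.ev (nat_lit 1104) (nat_lit 256) (.ev (nat_lit 1117) (nat_lit 16) .dd))) (.ch (nat_lit 6) (.ev
 (nat_lit 1140) (nat_lit 16) (.ev (nat_lit 1149) (nat_lit 256) .dd))))) (.br (nat_lit 9) (.br (nat_lit 8) (.ch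
 (nat_lit 7) (.ev (nat_lit 1284) (nat_lit 16) (.ev (nat_lit 1293) (nat_lit 256) .dd))) (.ch (nat_lit 8) (.ev
 (nat_lit 1104) (nat_lit 16) (.ev (nat_lit 1117) (nat_lit 256) .dd)))) (.br (nat_lit 10) (.ch (nat_lit 9) (.ev
 (nat_lit 2292) (nat_lit 256) (.ev (nat_lit 2301) (nat_lit 16) .dd))) (.ch (nat_lit 10) (.ev (nat_lit 1104)
 (nat_lit 256) (.ev (nat_lit 1117) (nat_lit 16) .dd)))))))) (.br (nat_lit 6) (.ch (nat_lit 3) (.ev (nat_lit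
 720) (nat_lit 16) (.ev (nat_lit 733) (nat_lit 256) .dd))) (.ch (nat_lit 6) (.ev (nat_lit 720) (nat_lit 256)
 (.ev (nat_lit 733) (nat_lit 16) .dd))))) (.br (nat_lit 9) (.br (nat_lit 8) (.ch (nat_lit 7) (.nd (nat_lit
 4160) (.br (nat_lit 8) (.br (nat_lit 2) (.ch (nat_lit 0) (.ev (nat_lit 4176) (nat_lit 272) .dd)) (.ch (nat_lit
 2) (.ev (nat_lit 4176) (nat_lit 272) .dd))) (.br (nat_lit 9) (.ch (nat_lit 8) (.ev (nat_lit 4176) (nat_lit 16)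
 (.ev (nat_lit 4189) (nat_lit 256) .dd))) (.ch (nat_lit 9) (.nd (nat_lit 5648) (.br (nat_lit 4) (.ch (nat_lit
 1) (.ev (nat_lit 5684) (nat_lit 256) (.ev (nat_lit 5693) (nat_lit 16) .dd))) (.br (nat_lit 7) (.ch (nat_lit 4)
 (.ev (nat_lit 5664) (nat_lit 16) (.ev (nat_lit 5677) (nat_lit 256) .dd))) (.ch (nat_lit 7) (.fin (nat_lit
 576443709928194582))))))))))) (.ch (nat_lit 8) (.nd (nat_lit 1088) (.br (nat_lit 4) (.br (nat_lit 2) (.ch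
 (nat_lit 0) (.ev (nat_lit 1104) (nat_lit 16) (.ev (nat_lit 1117) (nat_lit 256) .dd))) (.br (nat_lit 3) (.ch
 (nat_lit 2) (.nd (nat_lit 5024) (.br (nat_lit 8) (.ch (nat_lit 4) (.fin (nat_lit 576512978978292322))) (.ch
 (nat_lit 8) (.ev (nat_lit 5040) (nat_lit 16) (.ev (nat_lit 5053) (nat_lit 256) .dd)))))) (.ch (nat_lit 3) (.ev
 (nat_lit 1104) (nat_lit 256) (.ev (nat_lit 1117) (nat_lit 16) .dd))))) (.br (nat_lit 6) (.br (nat_lit 5) (.ch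
 (nat_lit 4) (.ev (nat_lit 1104) (nat_lit 16) (.ev (nat_lit 1117) (nat_lit 256) .dd))) (.ch (nat_lit 5) (.ev
 (nat_lit 1396) (nat_lit 256) (.ev (nat_lit 1405) (nat_lit 16) .dd)))) (.br (nat_lit 10) (.ch (nat_lit 6) (.ev
 (nat_lit 2692) (nat_lit 256) (.ev (nat_lit 2701) (nat_lit 16) .dd))) (.ch (nat_lit 10) (.ev (nat_lit 1104)
 (nat_lit 272) .dd)))))))) (.br (nat_lit 10) (.ch (nat_lit 9) (.ev (nat_lit 720) (nat_lit 256) (.ev (nat_lit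
 733) (nat_lit 16) .dd))) (.ch (nat_lit 10) (.ev (nat_lit 720) (nat_lit 272) .dd))))))))) (.ch (nat_lit 7) (.ev
 (nat_lit 144) (nat_lit 4880) .dd))) (.br (nat_lit 10) (.ch (nat_lit 9) (.ev (nat_lit 144) (nat_lit 768) (.ev
 (nat_lit 260) (nat_lit 4096) (.ev (nat_lit 269) (nat_lit 16) .dd)))) (.ch (nat_lit 10) (.ev (nat_lit 144)
 (nat_lit 4112) (.nd (nat_lit 832) (.br (nat_lit 4) (.br (nat_lit 2) (.ch (nat_lit 1) (.ev (nat_lit 848)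
 (nat_lit 512) (.ev (nat_lit 861) (nat_lit 256) .dd))) (.br (nat_lit 3) (.ch (nat_lit 2) (.ev (nat_lit 848)
 (nat_lit 256) (.ev (nat_lit 861) (nat_lit 512) .dd))) (.ch (nat_lit 3) (.nd (nat_lit 4160) (.br (nat_lit 9)
 (.br (nat_lit 6) (.ch (nat_lit 3) (.ev (nat_lit 4308) (nat_lit 512) (.ev (nat_lit 4317) (nat_lit 256) .dd)))
 (.ch (nat_lit 6) (.ev (nat_lit 4176) (nat_lit 512) (.ev (nat_lit 4189) (nat_lit 256) .dd)))) (.br (nat_lit 10)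
 (.ch (nat_lit 9) (.ev (nat_lit 4176) (nat_lit 768) .dd)) (.ch (nat_lit 10) (.ev (nat_lit 4176) (nat_lit 256)
 (.ev (nat_lit 4189) (nat_lit 512) .dd))))))))) (.br (nat_lit 7) (.br (nat_lit 6) (.ch (nat_lit 4) (.ev
 (nat_lit 848) (nat_lit 512) (.ev (nat_lit 861) (nat_lit 256) .dd))) (.ch (nat_lit 6) (.ev (nat_lit 848)
 (nat_lit 256) (.ev (nat_lit 861) (nat_lit 512) .dd)))) (.br (nat_lit 10) (.ch (nat_lit 7) (.ev (nat_lit 868)
 (nat_lit 512) (.ev (nat_lit 877) (nat_lit 256) .dd))) (.ch (nat_lit 10) (.ev (nat_lit 868) (nat_lit 512) (.ev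
 (nat_lit 877) (nat_lit 256) .dd))))))))))))))))) (.br (nat_lit 7) (.br (nat_lit 6) (.ch (nat_lit 5) (.ev
 (nat_lit 48) (nat_lit 2048) (.nd (nat_lit 192) (.br (nat_lit 5) (.br (nat_lit 3) (.ch (nat_lit 0) (.ev
 (nat_lit 208) (nat_lit 4864) (.nd (nat_lit 832) (.br (nat_lit 4) (.br (nat_lit 2) (.ch (nat_lit 0) (.ev
 (nat_lit 848) (nat_lit 32) (.ev (nat_lit 861) (nat_lit 16) .dd))) (.br (nat_lit 3) (.ch (nat_lit 2) (.ev
 (nat_lit 848) (nat_lit 32) (.ev (nat_lit 861) (nat_lit 16) .dd))) (.ch (nat_lit 3) (.nd (nat_lit 1952) (.br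
 (nat_lit 6) (.br (nat_lit 5) (.ch (nat_lit 4) (.ev (nat_lit 2052) (nat_lit 16) (.ev (nat_lit 2061) (nat_lit
 32) .dd))) (.ch (nat_lit 5) (.ev (nat_lit 1968) (nat_lit 16) (.ev (nat_lit 1981) (nat_lit 32) .dd)))) (.br
 (nat_lit 8) (.ch (nat_lit 6) (.fin (nat_lit 576466799555985968))) (.ch (nat_lit 8) (.ev (nat_lit 3540)
 (nat_lit 16) (.ev (nat_lit 3549) (nat_lit 32) .dd))))))))) (.br (nat_lit 7) (.br (nat_lit 6) (.ch (nat_lit 4)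
 (.nd (nat_lit 1952) (.br (nat_lit 9) (.br (nat_lit 2) (.ch (nat_lit 1) (.ev (nat_lit 3524) (nat_lit 16) (.ev
 (nat_lit 3533) (nat_lit 32) .dd))) (.ch (nat_lit 2) (.fin (nat_lit 576582248550580955)))) (.br (nat_lit 10)
 (.ch (nat_lit 9) (.ev (nat_lit 2500) (nat_lit 32) (.ev (nat_lit 2509) (nat_lit 16) .dd))) (.ch (nat_lit 10)
 (.ev (nat_lit 1968) (nat_lit 32) (.ev (nat_lit 1981) (nat_lit 16) .dd))))))) (.ch (nat_lit 6) (.ev (nat_lit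
 848) (nat_lit 16) (.ev (nat_lit 861) (nat_lit 32) .dd)))) (.br (nat_lit 8) (.ch (nat_lit 7) (.nd (nat_lit
 4160) (.br (nat_lit 2) (.ch (nat_lit 1) (.ev (nat_lit 4176) (nat_lit 32) (.ev (nat_lit 4189) (nat_lit 16)
 .dd))) (.br (nat_lit 9) (.ch (nat_lit 2) (.ev (nat_lit 4212) (nat_lit 16) (.ev (nat_lit 4221) (nat_lit 32)
 .dd))) (.ch (nat_lit 9) (.fin (nat_lit 576450306947629625))))))) (.ch (nat_lit 8) (.ev (nat_lit 848) (nat_lit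
 16) (.ev (nat_lit 861) (nat_lit 32) .dd))))))))) (.br (nat_lit 4) (.ch (nat_lit 3) (.nd (nat_lit 384) (.br
 (nat_lit 4) (.br (nat_lit 2) (.ch (nat_lit 0) (.ev (nat_lit 400) (nat_lit 4096) (.nd (nat_lit 928) (.br
 (nat_lit 4) (.br (nat_lit 3) (.ch (nat_lit 1) (.ev (nat_lit 944) (nat_lit 256) (.ev (nat_lit 1028) (nat_lit
 512) (.ev (nat_lit 1156) (nat_lit 16) (.ev (nat_lit 1165) (nat_lit 32) .dd))))) (.ch (nat_lit 3) (.ev (nat_lit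
 944) (nat_lit 560) (.ev (nat_lit 957) (nat_lit 256) .dd)))) (.br (nat_lit 5) (.ch (nat_lit 4) (.ev (nat_lit
 944) (nat_lit 304) (.ev (nat_lit 957) (nat_lit 512) .dd))) (.br (nat_lit 6) (.ch (nat_lit 5) (.ev (nat_lit
 944) (nat_lit 16) (.ev (nat_lit 2208) (nat_lit 256) (.ev (nat_lit 2868) (nat_lit 32) (.ev (nat_lit 2877)
 (nat_lit 512) .dd))))) (.ch (nat_lit 6) (.nd (nat_lit 4224) (.br (nat_lit 4) (.ch (nat_lit 1) (.ev (nat_lit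
 4240) (nat_lit 544) (.ev (nat_lit 4484) (nat_lit 16) (.ev (nat_lit 4493) (nat_lit 256) .dd)))) (.br (nat_lit
 8) (.ch (nat_lit 4) (.ev (nat_lit 4484) (nat_lit 16) (.ev (nat_lit 4516) (nat_lit 512) (.nd (nat_lit 5856)
 (.br (nat_lit 6) (.ch (nat_lit 3) (.fin (nat_lit 576543765362590229))) (.ch (nat_lit 6) (.ev (nat_lit 5872)
 (nat_lit 288) .dd))))))) (.ch (nat_lit 8) (.ev (nat_lit 4240) (nat_lit 768) (.fin (nat_lit
 576412923543896708)))))))))))))) (.br (nat_lit 3) (.ch (nat_lit 2) (.ev (nat_lit 400) (nat_lit 256) (.nd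
 (nat_lit 928) (.br (nat_lit 3) (.br (nat_lit 1) (.ch (nat_lit 0) (.ev (nat_lit 944) (nat_lit 4096) (.ev
 (nat_lit 1028) (nat_lit 512) (.ev (nat_lit 1124) (nat_lit 16) (.ev (nat_lit 1133) (nat_lit 32) .dd))))) (.br
 (nat_lit 2) (.ch (nat_lit 1) (.ev (nat_lit 944) (nat_lit 32) (.ev (nat_lit 2768) (nat_lit 16) (.ev (nat_lit
 2884) (nat_lit 4096) (.ev (nat_lit 2893) (nat_lit 512) .dd))))) (.ch (nat_lit 2) (.ev (nat_lit 944) (nat_lit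
 512) (.ev (nat_lit 1268) (nat_lit 4096) (.ev (nat_lit 2724) (nat_lit 16) (.ev (nat_lit 2733) (nat_lit 32)
 .dd))))))) (.br (nat_lit 7) (.br (nat_lit 5) (.ch (nat_lit 3) (.ev (nat_lit 944) (nat_lit 4608) (.ev (nat_lit
 1428) (nat_lit 16) (.ev (nat_lit 1437) (nat_lit 32) .dd)))) (.ch (nat_lit 5) (.ev (nat_lit 944) (nat_lit 16)
 (.ev (nat_lit 1124) (nat_lit 32) (.ev (nat_lit 1268) (nat_lit 4096) (.ev (nat_lit 1277) (nat_lit 512)
 .dd)))))) (.br (nat_lit 10) (.ch (nat_lit 7) (.ev (nat_lit 944) (nat_lit 4144) (.ev (nat_lit 957) (nat_lit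
 512) .dd))) (.ch (nat_lit 10) (.ev (nat_lit 944) (nat_lit 4128) (.fin (nat_lit 576403027944489542))))))))))
 (.ch (nat_lit 3) (.ev (nat_lit 400) (nat_lit 512) (.nd (nat_lit 832) (.br (nat_lit 4) (.br (nat_lit 2) (.ch
 (nat_lit 0) (.ev (nat_lit 848) (nat_lit 288) (.ev (nat_lit 2068) (nat_lit 16) (.ev (nat_lit 2077) (nat_lit
 4096) .dd)))) (.br (nat_lit 3) (.ch (nat_lit 2) (.ev (nat_lit 848) (nat_lit 48) (.ev (nat_lit 3952) (nat_lit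
 4352) .dd))) (.ch (nat_lit 3) (.ev (nat_lit 848) (nat_lit 4352) (.ev (nat_lit 2228) (nat_lit 32) (.ev (nat_lit
 2237) (nat_lit 16) .dd)))))) (.br (nat_lit 8) (.br (nat_lit 5) (.ch (nat_lit 4) (.ev (nat_lit 848) (nat_lit
 4096) (.ev (nat_lit 868) (nat_lit 256) (.ev (nat_lit 964) (nat_lit 32) (.ev (nat_lit 973) (nat_lit 16)
 .dd))))) (.ch (nat_lit 5) (.ev (nat_lit 848) (nat_lit 48) (.ev (nat_lit 2148) (nat_lit 4096) (.ev (nat_lit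
 2157) (nat_lit 256) .dd))))) (.br (nat_lit 9) (.ch (nat_lit 8) (.ev (nat_lit 1652) (nat_lit 256) (.ev (nat_lit
 2516) (nat_lit 32) (.nd (nat_lit 5104) (.br (nat_lit 1) (.ch (nat_lit 0) (.ev (nat_lit 5120) (nat_lit 16) (.ev
 (nat_lit 5133) (nat_lit 4096) .dd))) (.br (nat_lit 7) (.ch (nat_lit 1) (.ev (nat_lit 5120) (nat_lit 4112)
 .dd)) (.ch (nat_lit 7) (.ev (nat_lit 5120) (nat_lit 4096) (.ev (nat_lit 5133) (nat_lit 16) .dd))))))))) (.ch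
 (nat_lit 9) (.ev (nat_lit 848) (nat_lit 4096) (.ev (nat_lit 2052) (nat_lit 256) (.ev (nat_lit 2080) (nat_lit
 48) .dd)))))))))))) (.br (nat_lit 6) (.br (nat_lit 5) (.ch (nat_lit 4) (.ev (nat_lit 400) (nat_lit 4400) (.ev
 (nat_lit 413) (nat_lit 512) .dd))) (.ch (nat_lit 5) (.ev (nat_lit 400) (nat_lit 32) (.ev (nat_lit 692)
 (nat_lit 4096) (.nd (nat_lit 928) (.br (nat_lit 5) (.br (nat_lit 3) (.ch (nat_lit 1) (.ev (nat_lit 944)
 (nat_lit 784) .dd)) (.br (nat_lit 4) (.ch (nat_lit 3) (.ev (nat_lit 1044) (nat_lit 256) (.ev (nat_lit 1460)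
 (nat_lit 16) (.ev (nat_lit 1469) (nat_lit 512) .dd)))) (.ch (nat_lit 4) (.ev (nat_lit 944) (nat_lit 256) (.ev
 (nat_lit 1508) (nat_lit 16) (.ev (nat_lit 1517) (nat_lit 512) .dd)))))) (.br (nat_lit 9) (.br (nat_lit 6) (.ch
 (nat_lit 5) (.ev (nat_lit 1124) (nat_lit 512) (.ev (nat_lit 1844) (nat_lit 16) (.ev (nat_lit 1853) (nat_lit
 256) .dd)))) (.ch (nat_lit 6) (.ev (nat_lit 944) (nat_lit 256) (.ev (nat_lit 1616) (nat_lit 16) (.ev (nat_lit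
 1629) (nat_lit 512) .dd))))) (.br (nat_lit 10) (.ch (nat_lit 9) (.ev (nat_lit 1460) (nat_lit 512) (.fin
 (nat_lit 576486590827151946)))) (.ch (nat_lit 10) (.ev (nat_lit 944) (nat_lit 528) (.ev (nat_lit 957) (nat_lit
 256) .dd))))))))))) (.br (nat_lit 10) (.ch (nat_lit 6) (.ev (nat_lit 400) (nat_lit 48) (.nd (nat_lit 928) (.br
 (nat_lit 6) (.br (nat_lit 3) (.ch (nat_lit 1) (.ev (nat_lit 944) (nat_lit 4096) (.ev (nat_lit 1284) (nat_lit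
 256) (.ev (nat_lit 1293) (nat_lit 512) .dd)))) (.br (nat_lit 5) (.ch (nat_lit 3) (.ev (nat_lit 944) (nat_lit
 4608) (.ev (nat_lit 957) (nat_lit 256) .dd))) (.ch (nat_lit 5) (.ev (nat_lit 944) (nat_lit 256) (.fin (nat_lit
 576486590799888921)))))) (.br (nat_lit 9) (.ch (nat_lit 6) (.ev (nat_lit 944) (nat_lit 256) (.ev (nat_lit
 1428) (nat_lit 4096) (.ev (nat_lit 1437) (nat_lit 512) .dd)))) (.br (nat_lit 10) (.ch (nat_lit 9) (.ev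
 (nat_lit 944) (nat_lit 512) (.ev (nat_lit 1300) (nat_lit 256) (.ev (nat_lit 1309) (nat_lit 4096) .dd)))) (.ch
 (nat_lit 10) (.ev (nat_lit 2052) (nat_lit 256) (.ev (nat_lit 4884) (nat_lit 512) (.ev (nat_lit 4893) (nat_lit
 4096) .dd)))))))))) (.ch (nat_lit 10) (.ev (nat_lit 400) (nat_lit 4624) (.nd (nat_lit 928) (.br (nat_lit 4)
 (.ch (nat_lit 2) (.ev (nat_lit 980) (nat_lit 256) (.ev (nat_lit 989) (nat_lit 32) .dd))) (.br (nat_lit 10)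
 (.ch (nat_lit 4) (.fin (nat_lit 576476694956163671))) (.ch (nat_lit 10) (.ev (nat_lit 2420) (nat_lit 256) (.ev
 (nat_lit 2429) (nat_lit 32) .dd))))))))))))) (.ch (nat_lit 4) (.ev (nat_lit 208) (nat_lit 16) (.nd (nat_lit
 416) (.br (nat_lit 5) (.br (nat_lit 3) (.ch (nat_lit 1) (.ev (nat_lit 432) (nat_lit 4096) (.nd (nat_lit 1952)
 (.br (nat_lit 8) (.br (nat_lit 7) (.ch (nat_lit 4) (.ev (nat_lit 2080) (nat_lit 512) (.fin (nat_lit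
 576429416166933039)))) (.ch (nat_lit 7) (.ev (nat_lit 1968) (nat_lit 256) (.ev (nat_lit 3700) (nat_lit 512)
 (.ev (nat_lit 3709) (nat_lit 32) .dd))))) (.br (nat_lit 9) (.ch (nat_lit 8) (.ev (nat_lit 2192) (nat_lit 256)
 (.ev (nat_lit 3456) (nat_lit 512) (.ev (nat_lit 3469) (nat_lit 32) .dd)))) (.br (nat_lit 10) (.ch (nat_lit 9)
 (.ev (nat_lit 1968) (nat_lit 32) (.ev (nat_lit 3716) (nat_lit 256) (.ev (nat_lit 3725) (nat_lit 512) .dd))))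
 (.ch (nat_lit 10) (.ev (nat_lit 1968) (nat_lit 288) (.ev (nat_lit 1981) (nat_lit 512) .dd))))))))) (.br
 (nat_lit 4) (.ch (nat_lit 3) (.ev (nat_lit 432) (nat_lit 256) (.ev (nat_lit 564) (nat_lit 512) (.nd (nat_lit
 1952) (.br (nat_lit 5) (.br (nat_lit 2) (.ch (nat_lit 0) (.ev (nat_lit 1968) (nat_lit 4128) .dd)) (.br
 (nat_lit 4) (.ch (nat_lit 2) (.ev (nat_lit 1968) (nat_lit 4096) (.ev (nat_lit 1981) (nat_lit 32) .dd))) (.ch
 (nat_lit 4) (.ev (nat_lit 1968) (nat_lit 4128) .dd)))) (.br (nat_lit 8) (.ch (nat_lit 5) (.ev (nat_lit 1968)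
 (nat_lit 32) (.ev (nat_lit 1981) (nat_lit 4096) .dd))) (.br (nat_lit 10) (.ch (nat_lit 8) (.ev (nat_lit 2324)
 (nat_lit 4096) (.ev (nat_lit 2333) (nat_lit 32) .dd))) (.ch (nat_lit 10) (.ev (nat_lit 1968) (nat_lit 32) (.ev
 (nat_lit 1981) (nat_lit 4096) .dd)))))))))) (.ch (nat_lit 4) (.ev (nat_lit 432) (nat_lit 32) (.nd (nat_lit
 928) (.br (nat_lit 2) (.ch (nat_lit 1) (.ev (nat_lit 944) (nat_lit 256) (.ev (nat_lit 3476) (nat_lit 512) (.ev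
 (nat_lit 3485) (nat_lit 4096) .dd)))) (.br (nat_lit 4) (.ch (nat_lit 2) (.ev (nat_lit 2868) (nat_lit 256)
 (.fin (nat_lit 576443709900931700)))) (.ch (nat_lit 4) (.ev (nat_lit 944) (nat_lit 4096) (.ev (nat_lit 2836)
 (nat_lit 512) (.ev (nat_lit 2845) (nat_lit 256) .dd))))))))))) (.br (nat_lit 9) (.br (nat_lit 6) (.ch (nat_lit
 5) (.ev (nat_lit 432) (nat_lit 544) (.nd (nat_lit 1360) (.br (nat_lit 7) (.br (nat_lit 1) (.ch (nat_lit 0)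
 (.ev (nat_lit 1728) (nat_lit 256) (.ev (nat_lit 1741) (nat_lit 4096) .dd))) (.ch (nat_lit 1) (.ev (nat_lit
 1376) (nat_lit 4096) (.ev (nat_lit 1389) (nat_lit 256) .dd)))) (.br (nat_lit 8) (.ch (nat_lit 7) (.ev (nat_lit
 2564) (nat_lit 4096) (.ev (nat_lit 2573) (nat_lit 256) .dd))) (.br (nat_lit 10) (.ch (nat_lit 8) (.ev (nat_lit
 2420) (nat_lit 4096) (.ev (nat_lit 2429) (nat_lit 256) .dd))) (.ch (nat_lit 10) (.ev (nat_lit 1376) (nat_lit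
 256) (.ev (nat_lit 1389) (nat_lit 4096) .dd))))))))) (.ch (nat_lit 6) (.ev (nat_lit 432) (nat_lit 4128) (.ev
 (nat_lit 564) (nat_lit 256) (.ev (nat_lit 573) (nat_lit 512) .dd))))) (.br (nat_lit 10) (.ch (nat_lit 9) (.ev
 (nat_lit 432) (nat_lit 768) (.nd (nat_lit 928) (.br (nat_lit 6) (.br (nat_lit 3) (.ch (nat_lit 0) (.ev
 (nat_lit 944) (nat_lit 32) (.ev (nat_lit 957) (nat_lit 4096) .dd))) (.br (nat_lit 5) (.ch (nat_lit 3) (.ev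
 (nat_lit 944) (nat_lit 4128) .dd)) (.ch (nat_lit 5) (.ev (nat_lit 1300) (nat_lit 4096) (.ev (nat_lit 1309)
 (nat_lit 32) .dd))))) (.br (nat_lit 8) (.br (nat_lit 7) (.ch (nat_lit 6) (.ev (nat_lit 944) (nat_lit 4096)
 (.ev (nat_lit 957) (nat_lit 32) .dd))) (.ch (nat_lit 7) (.ev (nat_lit 944) (nat_lit 32) (.ev (nat_lit 957)
 (nat_lit 4096) .dd)))) (.br (nat_lit 10) (.ch (nat_lit 8) (.ev (nat_lit 1220) (nat_lit 4096) (.ev (nat_lit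
 1229) (nat_lit 32) .dd))) (.ch (nat_lit 10) (.ev (nat_lit 944) (nat_lit 32) (.ev (nat_lit 957) (nat_lit 4096)
 .dd))))))))) (.ch (nat_lit 10) (.ev (nat_lit 432) (nat_lit 4608) (.nd (nat_lit 1360) (.br (nat_lit 6) (.br
 (nat_lit 1) (.ch (nat_lit 0) (.ev (nat_lit 1376) (nat_lit 256) (.ev (nat_lit 1389) (nat_lit 32) .dd))) (.br
 (nat_lit 4) (.ch (nat_lit 1) (.ev (nat_lit 1376) (nat_lit 32) (.ev (nat_lit 1389) (nat_lit 256) .dd))) (.ch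
 (nat_lit 4) (.ev (nat_lit 1764) (nat_lit 32) (.ev (nat_lit 1773) (nat_lit 256) .dd))))) (.br (nat_lit 8) (.br
 (nat_lit 7) (.ch (nat_lit 6) (.ev (nat_lit 4596) (nat_lit 256) (.ev (nat_lit 4605) (nat_lit 32) .dd))) (.ch
 (nat_lit 7) (.ev (nat_lit 1376) (nat_lit 256) (.ev (nat_lit 1389) (nat_lit 32) .dd)))) (.br (nat_lit 9) (.ch
 (nat_lit 8) (.ev (nat_lit 1376) (nat_lit 288) .dd)) (.ch (nat_lit 9) (.ev (nat_lit 1376) (nat_lit 256) (.ev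
 (nat_lit 1389) (nat_lit 32) .dd))))))))))))))))) (.br (nat_lit 7) (.br (nat_lit 6) (.ch (nat_lit 5) (.ev
 (nat_lit 208) (nat_lit 512) (.nd (nat_lit 416) (.br (nat_lit 6) (.br (nat_lit 3) (.ch (nat_lit 2) (.ev
 (nat_lit 432) (nat_lit 288) (.nd (nat_lit 1360) (.br (nat_lit 8) (.br (nat_lit 3) (.ch (nat_lit 1) (.ev
 (nat_lit 1396) (nat_lit 16) (.ev (nat_lit 1405) (nat_lit 4096) .dd))) (.ch (nat_lit 3) (.ev (nat_lit 2228)
 (nat_lit 16) (.ev (nat_lit 2237) (nat_lit 4096) .dd)))) (.br (nat_lit 9) (.ch (nat_lit 8) (.ev (nat_lit 1376)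
 (nat_lit 4096) (.ev (nat_lit 1389) (nat_lit 16) .dd))) (.br (nat_lit 10) (.ch (nat_lit 9) (.ev (nat_lit 2640)
 (nat_lit 16) (.ev (nat_lit 2653) (nat_lit 4096) .dd))) (.ch (nat_lit 10) (.ev (nat_lit 1376) (nat_lit 4096)
 (.ev (nat_lit 1389) (nat_lit 16) .dd))))))))) (.br (nat_lit 5) (.ch (nat_lit 3) (.ev (nat_lit 432) (nat_lit
 256) (.nd (nat_lit 992) (.br (nat_lit 6) (.br (nat_lit 4) (.ch (nat_lit 2) (.ev (nat_lit 1008) (nat_lit 4112)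
 (.ev (nat_lit 1021) (nat_lit 32) .dd))) (.br (nat_lit 5) (.ch (nat_lit 4) (.ev (nat_lit 1008) (nat_lit 16)
 (.ev (nat_lit 2564) (nat_lit 32) (.ev (nat_lit 2573) (nat_lit 4096) .dd)))) (.ch (nat_lit 5) (.ev (nat_lit
 1008) (nat_lit 4096) (.ev (nat_lit 2468) (nat_lit 16) (.ev (nat_lit 2477) (nat_lit 32) .dd)))))) (.br (nat_lit
 9) (.br (nat_lit 7) (.ch (nat_lit 6) (.ev (nat_lit 1008) (nat_lit 32) (.ev (nat_lit 3476) (nat_lit 4096) (.ev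
 (nat_lit 3485) (nat_lit 16) .dd)))) (.ch (nat_lit 7) (.ev (nat_lit 1008) (nat_lit 16) (.ev (nat_lit 2240)
 (nat_lit 4096) (.ev (nat_lit 2253) (nat_lit 32) .dd))))) (.br (nat_lit 10) (.ch (nat_lit 9) (.ev (nat_lit
 1008) (nat_lit 48) (.ev (nat_lit 1021) (nat_lit 4096) .dd))) (.ch (nat_lit 10) (.ev (nat_lit 1008) (nat_lit
 32) (.ev (nat_lit 1396) (nat_lit 4096) (.ev (nat_lit 1405) (nat_lit 16) .dd)))))))))) (.ch (nat_lit 5) (.ev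
 (nat_lit 432) (nat_lit 4112) (.nd (nat_lit 1360) (.br (nat_lit 5) (.br (nat_lit 3) (.ch (nat_lit 2) (.ev
 (nat_lit 1376) (nat_lit 256) (.ev (nat_lit 1389) (nat_lit 32) .dd))) (.br (nat_lit 4) (.ch (nat_lit 3) (.ev
 (nat_lit 1376) (nat_lit 32) (.ev (nat_lit 1389) (nat_lit 256) .dd))) (.ch (nat_lit 4) (.fin (nat_lit
 576448107926471216))))) (.br (nat_lit 7) (.ch (nat_lit 5) (.ev (nat_lit 1376) (nat_lit 32) (.ev (nat_lit 1389)
 (nat_lit 256) .dd))) (.br (nat_lit 9) (.ch (nat_lit 7) (.ev (nat_lit 1376) (nat_lit 256) (.ev (nat_lit 1389)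
 (nat_lit 32) .dd))) (.ch (nat_lit 9) (.ev (nat_lit 1808) (nat_lit 32) (.ev (nat_lit 1821) (nat_lit 256)
 .dd))))))))))) (.br (nat_lit 8) (.br (nat_lit 7) (.ch (nat_lit 6) (.ev (nat_lit 432) (nat_lit 48) (.nd
 (nat_lit 1360) (.br (nat_lit 5) (.br (nat_lit 2) (.ch (nat_lit 0) (.ev (nat_lit 1376) (nat_lit 4096) (.ev
 (nat_lit 1389) (nat_lit 256) .dd))) (.br (nat_lit 4) (.ch (nat_lit 2) (.ev (nat_lit 3364) (nat_lit 4096) (.ev
 (nat_lit 3373) (nat_lit 256) .dd))) (.ch (nat_lit 4) (.ev (nat_lit 1376) (nat_lit 256) (.ev (nat_lit 1389)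
 (nat_lit 4096) .dd))))) (.br (nat_lit 8) (.ch (nat_lit 5) (.fin (nat_lit 576426117744247344))) (.br (nat_lit
 9) (.ch (nat_lit 8) (.ev (nat_lit 3412) (nat_lit 4096) (.ev (nat_lit 3421) (nat_lit 256) .dd))) (.ch (nat_lit
 9) (.ev (nat_lit 1376) (nat_lit 256) (.ev (nat_lit 1389) (nat_lit 4096) .dd))))))))) (.ch (nat_lit 7) (.ev
 (nat_lit 432) (nat_lit 4352) (.nd (nat_lit 992) (.br (nat_lit 4) (.br (nat_lit 3) (.ch (nat_lit 2) (.ev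
 (nat_lit 2612) (nat_lit 32) (.ev (nat_lit 2621) (nat_lit 16) .dd))) (.ch (nat_lit 3) (.ev (nat_lit 1008)
 (nat_lit 16) (.ev (nat_lit 1021) (nat_lit 32) .dd)))) (.br (nat_lit 9) (.ch (nat_lit 4) (.ev (nat_lit 1268)
 (nat_lit 16) (.ev (nat_lit 1277) (nat_lit 32) .dd))) (.br (nat_lit 10) (.ch (nat_lit 9) (.ev (nat_lit 1008)
 (nat_lit 32) (.ev (nat_lit 1021) (nat_lit 16) .dd))) (.ch (nat_lit 10) (.ev (nat_lit 1008) (nat_lit 16) (.ev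
 (nat_lit 1021) (nat_lit 32) .dd)))))))))) (.br (nat_lit 9) (.ch (nat_lit 8) (.ev (nat_lit 432) (nat_lit 16)
 (.nd (nat_lit 992) (.br (nat_lit 6) (.br (nat_lit 3) (.ch (nat_lit 1) (.ev (nat_lit 1008) (nat_lit 256) (.ev
 (nat_lit 2100) (nat_lit 32) (.ev (nat_lit 2109) (nat_lit 4096) .dd)))) (.br (nat_lit 5) (.ch (nat_lit 3) (.ev
 (nat_lit 1008) (nat_lit 4096) (.ev (nat_lit 1828) (nat_lit 256) (.ev (nat_lit 1837) (nat_lit 32) .dd)))) (.ch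
 (nat_lit 5) (.ev (nat_lit 1008) (nat_lit 32) (.ev (nat_lit 1348) (nat_lit 256) (.ev (nat_lit 1357) (nat_lit
 4096) .dd)))))) (.br (nat_lit 7) (.ch (nat_lit 6) (.ev (nat_lit 1008) (nat_lit 4096) (.ev (nat_lit 1028)
 (nat_lit 32) (.ev (nat_lit 1037) (nat_lit 256) .dd)))) (.br (nat_lit 8) (.ch (nat_lit 7) (.ev (nat_lit 1008)
 (nat_lit 256) (.ev (nat_lit 3412) (nat_lit 4096) (.ev (nat_lit 3421) (nat_lit 32) .dd)))) (.ch (nat_lit 8)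
 (.ev (nat_lit 1008) (nat_lit 4096) (.ev (nat_lit 1028) (nat_lit 32) (.ev (nat_lit 1037) (nat_lit 256)
 .dd)))))))))) (.ch (nat_lit 9) (.nd (nat_lit 928) (.br (nat_lit 5) (.br (nat_lit 1) (.ch (nat_lit 0) (.ev
 (nat_lit 944) (nat_lit 4096) (.ev (nat_lit 1268) (nat_lit 256) (.ev (nat_lit 1588) (nat_lit 16) (.ev (nat_lit
 1597) (nat_lit 32) .dd))))) (.br (nat_lit 4) (.ch (nat_lit 1) (.ev (nat_lit 1268) (nat_lit 256) (.ev (nat_lit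
 1396) (nat_lit 4096) (.ev (nat_lit 2836) (nat_lit 32) (.ev (nat_lit 2845) (nat_lit 16) .dd))))) (.ch (nat_lit
 4) (.ev (nat_lit 3920) (nat_lit 32) (.nd (nat_lit 4960) (.br (nat_lit 5) (.ch (nat_lit 0) (.ev (nat_lit 4976)
 (nat_lit 4096) (.ev (nat_lit 4996) (nat_lit 256) (.ev (nat_lit 5005) (nat_lit 16) .dd)))) (.ch (nat_lit 5)
 (.ev (nat_lit 5184) (nat_lit 4096) (.fin (nat_lit 576482192783786592)))))))))) (.br (nat_lit 9) (.br (nat_lit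
 7) (.ch (nat_lit 5) (.ev (nat_lit 944) (nat_lit 48) (.ev (nat_lit 1268) (nat_lit 256) (.ev (nat_lit 1277)
 (nat_lit 4096) .dd)))) (.ch (nat_lit 7) (.ev (nat_lit 944) (nat_lit 304) (.ev (nat_lit 957) (nat_lit 4096)
 .dd)))) (.br (nat_lit 10) (.ch (nat_lit 9) (.ev (nat_lit 944) (nat_lit 256) (.ev (nat_lit 1396) (nat_lit 4096)
 (.ev (nat_lit 1728) (nat_lit 16) (.ev (nat_lit 1741) (nat_lit 32) .dd))))) (.ch (nat_lit 10) (.ev (nat_lit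
 944) (nat_lit 4352) (.fin (nat_lit 576570153761194550))))))))))))))) (.ch (nat_lit 6) (.ev (nat_lit 208)
 (nat_lit 48) (.nd (nat_lit 512) (.br (nat_lit 7) (.br (nat_lit 4) (.ch (nat_lit 0) (.ev (nat_lit 740) (nat_lit
 4096) (.nd (nat_lit 1088) (.br (nat_lit 4) (.br (nat_lit 1) (.ch (nat_lit 0) (.ev (nat_lit 1104) (nat_lit 512)
 (.ev (nat_lit 1117) (nat_lit 256) .dd))) (.br (nat_lit 2) (.ch (nat_lit 1) (.ev (nat_lit 1104) (nat_lit 256)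
 (.ev (nat_lit 1117) (nat_lit 512) .dd))) (.ch (nat_lit 2) (.ev (nat_lit 1104) (nat_lit 256) (.ev (nat_lit
 1117) (nat_lit 512) .dd))))) (.br (nat_lit 9) (.br (nat_lit 5) (.ch (nat_lit 4) (.ev (nat_lit 4900) (nat_lit
 256) (.ev (nat_lit 4909) (nat_lit 512) .dd))) (.ch (nat_lit 5) (.ev (nat_lit 3168) (nat_lit 512) (.ev (nat_lit
 3181) (nat_lit 256) .dd)))) (.br (nat_lit 10) (.ch (nat_lit 9) (.ev (nat_lit 1104) (nat_lit 512) (.ev (nat_lit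
 1117) (nat_lit 256) .dd))) (.ch (nat_lit 10) (.ev (nat_lit 1104) (nat_lit 768) .dd)))))))) (.br (nat_lit 6)
 (.ch (nat_lit 4) (.ev (nat_lit 528) (nat_lit 4352) (.ev (nat_lit 541) (nat_lit 512) .dd))) (.ch (nat_lit 6)
 (.ev (nat_lit 528) (nat_lit 4096) (.nd (nat_lit 1952) (.br (nat_lit 6) (.br (nat_lit 4) (.ch (nat_lit 2) (.ev
 (nat_lit 1968) (nat_lit 256) (.ev (nat_lit 1981) (nat_lit 512) .dd))) (.ch (nat_lit 4) (.ev (nat_lit 2052)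
 (nat_lit 256) (.ev (nat_lit 2061) (nat_lit 512) .dd)))) (.br (nat_lit 7) (.ch (nat_lit 6) (.ev (nat_lit 2624)
 (nat_lit 512) (.ev (nat_lit 2637) (nat_lit 256) .dd))) (.ch (nat_lit 7) (.ev (nat_lit 1968) (nat_lit 512) (.ev
 (nat_lit 1981) (nat_lit 256) .dd)))))))))) (.br (nat_lit 8) (.ch (nat_lit 7) (.ev (nat_lit 740) (nat_lit 4096)
 (.nd (nat_lit 1952) (.br (nat_lit 4) (.br (nat_lit 2) (.ch (nat_lit 0) (.ev (nat_lit 1968) (nat_lit 256) (.ev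
 (nat_lit 1981) (nat_lit 512) .dd))) (.ch (nat_lit 2) (.ev (nat_lit 4100) (nat_lit 256) (.ev (nat_lit 4109)
 (nat_lit 512) .dd)))) (.br (nat_lit 5) (.ch (nat_lit 4) (.ev (nat_lit 2660) (nat_lit 256) (.ev (nat_lit 2669)
 (nat_lit 512) .dd))) (.br (nat_lit 6) (.ch (nat_lit 5) (.ev (nat_lit 2052) (nat_lit 256) (.ev (nat_lit 2061)
 (nat_lit 512) .dd))) (.ch (nat_lit 6) (.ev (nat_lit 1968) (nat_lit 768) .dd)))))))) (.br (nat_lit 10) (.ch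
 (nat_lit 8) (.ev (nat_lit 528) (nat_lit 256) (.nd (nat_lit 3312) (.br (nat_lit 4) (.br (nat_lit 3) (.ch
 (nat_lit 0) (.ev (nat_lit 3412) (nat_lit 512) (.ev (nat_lit 3421) (nat_lit 4096) .dd))) (.ch (nat_lit 3) (.ev
 (nat_lit 3620) (nat_lit 512) (.ev (nat_lit 3629) (nat_lit 4096) .dd)))) (.br (nat_lit 5) (.ch (nat_lit 4) (.ev
 (nat_lit 3328) (nat_lit 4096) (.ev (nat_lit 3341) (nat_lit 512) .dd))) (.ch (nat_lit 5) (.ev (nat_lit 3328)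
 (nat_lit 512) (.ev (nat_lit 3341) (nat_lit 4096) .dd)))))))) (.ch (nat_lit 10) (.ev (nat_lit 528) (nat_lit
 512) (.nd (nat_lit 1232) (.br (nat_lit 7) (.ch (nat_lit 6) (.ev (nat_lit 2948) (nat_lit 256) (.ev (nat_lit
 2957) (nat_lit 4096) .dd))) (.br (nat_lit 9) (.ch (nat_lit 7) (.ev (nat_lit 2788) (nat_lit 256) (.ev (nat_lit
 2797) (nat_lit 4096) .dd))) (.ch (nat_lit 9) (.ev (nat_lit 2420) (nat_lit 256) (.ev (nat_lit 2429) (nat_lit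
 4096) .dd))))))))))))))) (.br (nat_lit 9) (.ch (nat_lit 7) (.ev (nat_lit 208) (nat_lit 4368) (.nd (nat_lit
 832) (.br (nat_lit 6) (.br (nat_lit 4) (.ch (nat_lit 2) (.ev (nat_lit 848) (nat_lit 32) (.ev (nat_lit 861)
 (nat_lit 512) .dd))) (.br (nat_lit 5) (.ch (nat_lit 4) (.ev (nat_lit 848) (nat_lit 512) (.ev (nat_lit 861)
 (nat_lit 32) .dd))) (.ch (nat_lit 5) (.ev (nat_lit 848) (nat_lit 32) (.ev (nat_lit 861) (nat_lit 512) .dd)))))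
 (.br (nat_lit 9) (.br (nat_lit 7) (.ch (nat_lit 6) (.ev (nat_lit 868) (nat_lit 512) (.ev (nat_lit 877)
 (nat_lit 32) .dd))) (.ch (nat_lit 7) (.ev (nat_lit 848) (nat_lit 512) (.ev (nat_lit 861) (nat_lit 32) .dd))))
 (.br (nat_lit 10) (.ch (nat_lit 9) (.nd (nat_lit 4160) (.br (nat_lit 9) (.ch (nat_lit 5) (.ev (nat_lit 4292)
 (nat_lit 32) (.ev (nat_lit 4301) (nat_lit 512) .dd))) (.ch (nat_lit 9) (.ev (nat_lit 4196) (nat_lit 32) (.ev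
 (nat_lit 4205) (nat_lit 512) .dd)))))) (.ch (nat_lit 10) (.ev (nat_lit 848) (nat_lit 32) (.ev (nat_lit 861)
 (nat_lit 512) .dd))))))))) (.ch (nat_lit 9) (.ev (nat_lit 208) (nat_lit 544) (.nd (nat_lit 704) (.br (nat_lit
 6) (.br (nat_lit 1) (.ch (nat_lit 0) (.ev (nat_lit 720) (nat_lit 4368) .dd)) (.br (nat_lit 2) (.ch (nat_lit 1)
 (.ev (nat_lit 720) (nat_lit 4096) (.nd (nat_lit 3792) (.br (nat_lit 9) (.ch (nat_lit 1) (.ev (nat_lit 3808)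
 (nat_lit 256) (.ev (nat_lit 3821) (nat_lit 16) .dd))) (.br (nat_lit 10) (.ch (nat_lit 9) (.ev (nat_lit 3828)
 (nat_lit 256) (.ev (nat_lit 3837) (nat_lit 16) .dd))) (.ch (nat_lit 10) (.ev (nat_lit 3808) (nat_lit 16) (.ev
 (nat_lit 3821) (nat_lit 256) .dd)))))))) (.ch (nat_lit 2) (.ev (nat_lit 720) (nat_lit 4096) (.ev (nat_lit
 2836) (nat_lit 256) (.ev (nat_lit 2845) (nat_lit 16) .dd)))))) (.br (nat_lit 9) (.br (nat_lit 7) (.ch (nat_lit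
 6) (.ev (nat_lit 720) (nat_lit 256) (.ev (nat_lit 868) (nat_lit 4096) (.ev (nat_lit 877) (nat_lit 16) .dd))))
 (.ch (nat_lit 7) (.ev (nat_lit 3444) (nat_lit 256) (.nd (nat_lit 4160) (.br (nat_lit 9) (.ch (nat_lit 7) (.fin
 (nat_lit 576464600600887868))) (.ch (nat_lit 9) (.ev (nat_lit 4176) (nat_lit 4096) (.ev (nat_lit 4189)
 (nat_lit 16) .dd)))))))) (.br (nat_lit 10) (.ch (nat_lit 9) (.ev (nat_lit 720) (nat_lit 16) (.ev (nat_lit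
 1844) (nat_lit 256) (.ev (nat_lit 1853) (nat_lit 4096) .dd)))) (.ch (nat_lit 10) (.ev (nat_lit 720) (nat_lit
 16) (.nd (nat_lit 3664) (.br (nat_lit 5) (.br (nat_lit 1) (.ch (nat_lit 0) (.ev (nat_lit 3680) (nat_lit 256)
 (.ev (nat_lit 3693) (nat_lit 4096) .dd))) (.br (nat_lit 4) (.ch (nat_lit 1) (.ev (nat_lit 3680) (nat_lit 256)
 (.ev (nat_lit 3693) (nat_lit 4096) .dd))) (.ch (nat_lit 4) (.ev (nat_lit 3680) (nat_lit 256) (.ev (nat_lit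
 3693) (nat_lit 4096) .dd))))) (.br (nat_lit 6) (.ch (nat_lit 5) (.ev (nat_lit 4260) (nat_lit 4096) (.ev
 (nat_lit 4269) (nat_lit 256) .dd))) (.br (nat_lit 8) (.ch (nat_lit 6) (.ev (nat_lit 3680) (nat_lit 4352) .dd))
 (.ch (nat_lit 8) (.ev (nat_lit 3680) (nat_lit 4096) (.ev (nat_lit 3693) (nat_lit 256) .dd)))))))))))))))))))))
 (.ch (nat_lit 6) (.ev (nat_lit 48) (nat_lit 544) (.nd (nat_lit 320) (.br (nat_lit 5) (.br (nat_lit 3) (.ch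
 (nat_lit 2) (.ev (nat_lit 336) (nat_lit 6160) (.ev (nat_lit 349) (nat_lit 256) .dd))) (.br (nat_lit 4) (.ch
 (nat_lit 3) (.ev (nat_lit 336) (nat_lit 2048) (.nd (nat_lit 704) (.br (nat_lit 7) (.br (nat_lit 5) (.ch
 (nat_lit 0) (.nd (nat_lit 1088) (.br (nat_lit 4) (.br (nat_lit 3) (.ch (nat_lit 1) (.ev (nat_lit 1104)
 (nat_lit 256) (.ev (nat_lit 2116) (nat_lit 4096) (.ev (nat_lit 2125) (nat_lit 16) .dd)))) (.ch (nat_lit 3)
 (.ev (nat_lit 1104) (nat_lit 256) (.ev (nat_lit 1460) (nat_lit 4096) (.ev (nat_lit 1469) (nat_lit 16) .dd)))))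
 (.br (nat_lit 8) (.ch (nat_lit 4) (.ev (nat_lit 1124) (nat_lit 16) (.ev (nat_lit 1268) (nat_lit 256) (.ev
 (nat_lit 1277) (nat_lit 4096) .dd)))) (.br (nat_lit 9) (.ch (nat_lit 8) (.ev (nat_lit 1104) (nat_lit 16) (.ev
 (nat_lit 3476) (nat_lit 4096) (.ev (nat_lit 3485) (nat_lit 256) .dd)))) (.ch (nat_lit 9) (.ev (nat_lit 1332)
 (nat_lit 16) (.ev (nat_lit 3364) (nat_lit 4096) (.ev (nat_lit 3373) (nat_lit 256) .dd))))))))) (.br (nat_lit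
 6) (.ch (nat_lit 5) (.ev (nat_lit 720) (nat_lit 256) (.nd (nat_lit 1232) (.br (nat_lit 2) (.ch (nat_lit 1)
 (.ev (nat_lit 1248) (nat_lit 4096) (.ev (nat_lit 1261) (nat_lit 16) .dd))) (.br (nat_lit 5) (.ch (nat_lit 2)
 (.ev (nat_lit 2468) (nat_lit 4096) (.ev (nat_lit 2477) (nat_lit 16) .dd))) (.ch (nat_lit 5) (.nd (nat_lit
 5056) (.br (nat_lit 6) (.ch (nat_lit 1) (.ev (nat_lit 5072) (nat_lit 4096) (.ev (nat_lit 5085) (nat_lit 16)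
 .dd))) (.ch (nat_lit 6) (.fin (nat_lit 576498685424648805))))))))))) (.ch (nat_lit 6) (.nd (nat_lit 1088) (.br
 (nat_lit 3) (.br (nat_lit 2) (.ch (nat_lit 1) (.ev (nat_lit 1104) (nat_lit 272) (.ev (nat_lit 1117) (nat_lit
 4096) .dd))) (.ch (nat_lit 2) (.ev (nat_lit 1104) (nat_lit 4096) (.ev (nat_lit 1460) (nat_lit 16) (.ev
 (nat_lit 1469) (nat_lit 256) .dd))))) (.br (nat_lit 7) (.ch (nat_lit 3) (.ev (nat_lit 2528) (nat_lit 256) (.ev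
 (nat_lit 3988) (nat_lit 16) (.ev (nat_lit 3997) (nat_lit 4096) .dd)))) (.br (nat_lit 9) (.ch (nat_lit 7) (.ev
 (nat_lit 1104) (nat_lit 16) (.fin (nat_lit 576501983945900646)))) (.ch (nat_lit 9) (.ev (nat_lit 1104)
 (nat_lit 16) (.ev (nat_lit 2100) (nat_lit 4096) (.ev (nat_lit 2109) (nat_lit 256) .dd))))))))))) (.br (nat_lit
 8) (.ch (nat_lit 7) (.ev (nat_lit 720) (nat_lit 16) (.nd (nat_lit 1232) (.br (nat_lit 5) (.br (nat_lit 3) (.ch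
 (nat_lit 0) (.ev (nat_lit 1248) (nat_lit 4096) (.ev (nat_lit 1261) (nat_lit 256) .dd))) (.ch (nat_lit 3) (.ev
 (nat_lit 1248) (nat_lit 4096) (.ev (nat_lit 1261) (nat_lit 256) .dd)))) (.br (nat_lit 6) (.ch (nat_lit 5) (.ev
 (nat_lit 2068) (nat_lit 4096) (.ev (nat_lit 2077) (nat_lit 256) .dd))) (.br (nat_lit 10) (.ch (nat_lit 6) (.ev
 (nat_lit 1248) (nat_lit 4096) (.ev (nat_lit 1261) (nat_lit 256) .dd))) (.ch (nat_lit 10) (.ev (nat_lit 1248)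
 (nat_lit 4096) (.ev (nat_lit 1261) (nat_lit 256) .dd))))))))) (.br (nat_lit 10) (.ch (nat_lit 8) (.ev (nat_lit
 720) (nat_lit 272) (.ev (nat_lit 733) (nat_lit 4096) .dd))) (.ch (nat_lit 10) (.ev (nat_lit 720) (nat_lit
 4096) (.nd (nat_lit 1360) (.br (nat_lit 7) (.br (nat_lit 3) (.ch (nat_lit 2) (.ev (nat_lit 1540) (nat_lit 16)
 (.ev (nat_lit 1549) (nat_lit 256) .dd))) (.ch (nat_lit 3) (.ev (nat_lit 2452) (nat_lit 16) (.ev (nat_lit 2461)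
 (nat_lit 256) .dd)))) (.br (nat_lit 10) (.ch (nat_lit 7) (.ev (nat_lit 1540) (nat_lit 256) (.ev (nat_lit 1549)
 (nat_lit 16) .dd))) (.ch (nat_lit 10) (.ev (nat_lit 1396) (nat_lit 16) (.ev (nat_lit 1405) (nat_lit 256)
 .dd)))))))))))))) (.ch (nat_lit 4) (.ev (nat_lit 336) (nat_lit 4112) (.nd (nat_lit 704) (.br (nat_lit 7) (.br
 (nat_lit 4) (.ch (nat_lit 2) (.nd (nat_lit 1088) (.br (nat_lit 6) (.br (nat_lit 2) (.ch (nat_lit 0) (.fin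
 (nat_lit 576470098064655036))) (.ch (nat_lit 2) (.ev (nat_lit 1428) (nat_lit 256) (.ev (nat_lit 1437) (nat_lit
 2048) .dd)))) (.br (nat_lit 7) (.ch (nat_lit 6) (.ev (nat_lit 1124) (nat_lit 256) (.ev (nat_lit 1133) (nat_lit
 2048) .dd))) (.br (nat_lit 8) (.ch (nat_lit 7) (.ev (nat_lit 1104) (nat_lit 256) (.ev (nat_lit 1117) (nat_lit
 2048) .dd))) (.ch (nat_lit 8) (.ev (nat_lit 1104) (nat_lit 2048) (.ev (nat_lit 1117) (nat_lit 256) .dd))))))))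
 (.br (nat_lit 6) (.ch (nat_lit 4) (.nd (nat_lit 1232) (.br (nat_lit 8) (.br (nat_lit 3) (.ch (nat_lit 0) (.ev
 (nat_lit 1428) (nat_lit 256) (.ev (nat_lit 1437) (nat_lit 2048) .dd))) (.br (nat_lit 6) (.ch (nat_lit 3) (.ev
 (nat_lit 1248) (nat_lit 2048) (.ev (nat_lit 1261) (nat_lit 256) .dd))) (.ch (nat_lit 6) (.ev (nat_lit 1248)
 (nat_lit 256) (.ev (nat_lit 1261) (nat_lit 2048) .dd))))) (.br (nat_lit 9) (.ch (nat_lit 8) (.ev (nat_lit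
 1540) (nat_lit 256) (.ev (nat_lit 1549) (nat_lit 2048) .dd))) (.br (nat_lit 10) (.ch (nat_lit 9) (.ev (nat_lit
 2100) (nat_lit 2048) (.ev (nat_lit 2109) (nat_lit 256) .dd))) (.ch (nat_lit 10) (.ev (nat_lit 1248) (nat_lit
 2048) (.ev (nat_lit 1261) (nat_lit 256) .dd)))))))) (.ch (nat_lit 6) (.ev (nat_lit 720) (nat_lit 2048) (.ev
 (nat_lit 733) (nat_lit 256) .dd))))) (.br (nat_lit 8) (.ch (nat_lit 7) (.nd (nat_lit 1088) (.br (nat_lit 4)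
 (.ch (nat_lit 2) (.fin (nat_lit 576456904092893828))) (.br (nat_lit 10) (.ch (nat_lit 4) (.fin (nat_lit
 576471197525951030))) (.ch (nat_lit 10) (.ev (nat_lit 2756) (nat_lit 2048) (.ev (nat_lit 2765) (nat_lit 256)
 .dd))))))) (.br (nat_lit 9) (.ch (nat_lit 8) (.ev (nat_lit 720) (nat_lit 2048) (.ev (nat_lit 733) (nat_lit
 256) .dd))) (.ch (nat_lit 9) (.ev (nat_lit 720) (nat_lit 256) (.ev (nat_lit 733) (nat_lit 2048) .dd)))))))))))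
 (.br (nat_lit 8) (.br (nat_lit 6) (.ch (nat_lit 5) (.ev (nat_lit 336) (nat_lit 256) (.nd (nat_lit 704) (.br
 (nat_lit 3) (.br (nat_lit 1) (.ch (nat_lit 0) (.ev (nat_lit 720) (nat_lit 2048) (.ev (nat_lit 740) (nat_lit
 4096) (.ev (nat_lit 749) (nat_lit 16) .dd)))) (.br (nat_lit 2) (.ch (nat_lit 1) (.ev (nat_lit 720) (nat_lit
 2064) (.ev (nat_lit 733) (nat_lit 4096) .dd))) (.ch (nat_lit 2) (.ev (nat_lit 720) (nat_lit 4096) (.nd
 (nat_lit 1088) (.br (nat_lit 3) (.br (nat_lit 1) (.ch (nat_lit 0) (.ev (nat_lit 1104) (nat_lit 2048) (.ev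
 (nat_lit 1117) (nat_lit 16) .dd))) (.br (nat_lit 2) (.ch (nat_lit 1) (.ev (nat_lit 2624) (nat_lit 2064) .dd))
 (.ch (nat_lit 2) (.ev (nat_lit 1104) (nat_lit 2064) .dd)))) (.br (nat_lit 6) (.br (nat_lit 5) (.ch (nat_lit 3)
 (.ev (nat_lit 1104) (nat_lit 2048) (.ev (nat_lit 1117) (nat_lit 16) .dd))) (.ch (nat_lit 5) (.ev (nat_lit
 2564) (nat_lit 16) (.ev (nat_lit 2573) (nat_lit 2048) .dd)))) (.br (nat_lit 10) (.ch (nat_lit 6) (.ev (nat_lit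
 1104) (nat_lit 16) (.ev (nat_lit 1117) (nat_lit 2048) .dd))) (.ch (nat_lit 10) (.nd (nat_lit 4848) (.br
 (nat_lit 7) (.ch (nat_lit 2) (.ev (nat_lit 4864) (nat_lit 16) (.ev (nat_lit 4877) (nat_lit 2048) .dd))) (.ch
 (nat_lit 7) (.fin (nat_lit 576352450458894803)))))))))))))) (.br (nat_lit 7) (.br (nat_lit 4) (.ch (nat_lit 3)
 (.ev (nat_lit 720) (nat_lit 2048) (.ev (nat_lit 804) (nat_lit 4096) (.ev (nat_lit 813) (nat_lit 16) .dd))))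
 (.ch (nat_lit 4) (.nd (nat_lit 1088) (.br (nat_lit 7) (.br (nat_lit 2) (.ch (nat_lit 1) (.ev (nat_lit 2868)
 (nat_lit 4096) (.nd (nat_lit 5376) (.ch (nat_lit 0) (.nd (nat_lit 5952) (.br (nat_lit 6) (.ch (nat_lit 2)
 (.fin (nat_lit 576509680567141040))) (.ch (nat_lit 6) (.ev (nat_lit 5968) (nat_lit 2048) (.ev (nat_lit 5981)
 (nat_lit 16) .dd))))))))) (.br (nat_lit 6) (.ch (nat_lit 2) (.ev (nat_lit 1104) (nat_lit 6144) (.ev (nat_lit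
 1117) (nat_lit 16) .dd))) (.ch (nat_lit 6) (.ev (nat_lit 1104) (nat_lit 2064) (.ev (nat_lit 1117) (nat_lit
 4096) .dd))))) (.br (nat_lit 9) (.ch (nat_lit 7) (.ev (nat_lit 1104) (nat_lit 16) (.ev (nat_lit 1632) (nat_lit
 4096) (.ev (nat_lit 1645) (nat_lit 2048) .dd)))) (.br (nat_lit 10) (.ch (nat_lit 9) (.ev (nat_lit 1104)
 (nat_lit 4096) (.ev (nat_lit 1588) (nat_lit 2048) (.ev (nat_lit 1597) (nat_lit 16) .dd)))) (.ch (nat_lit 10)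
 (.ev (nat_lit 1124) (nat_lit 2048) (.ev (nat_lit 2736) (nat_lit 16) (.ev (nat_lit 2749) (nat_lit 4096)
 .dd)))))))))) (.br (nat_lit 9) (.ch (nat_lit 7) (.ev (nat_lit 720) (nat_lit 4096) (.nd (nat_lit 1360) (.br
 (nat_lit 3) (.ch (nat_lit 0) (.ev (nat_lit 1396) (nat_lit 2048) (.ev (nat_lit 1405) (nat_lit 16) .dd))) (.br
 (nat_lit 4) (.ch (nat_lit 3) (.fin (nat_lit 576254593921925741))) (.ch (nat_lit 4) (.ev (nat_lit 3108)
 (nat_lit 16) (.ev (nat_lit 3117) (nat_lit 2048) .dd)))))))) (.ch (nat_lit 9) (.ev (nat_lit 720) (nat_lit 4112)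
 (.ev (nat_lit 733) (nat_lit 2048) .dd))))))))) (.ch (nat_lit 6) (.ev (nat_lit 336) (nat_lit 272) (.nd (nat_lit
 704) (.br (nat_lit 3) (.br (nat_lit 2) (.ch (nat_lit 1) (.ev (nat_lit 720) (nat_lit 4096) (.ev (nat_lit 733)
 (nat_lit 2048) .dd))) (.ch (nat_lit 2) (.ev (nat_lit 2852) (nat_lit 2048) (.ev (nat_lit 2861) (nat_lit 4096)
 .dd)))) (.br (nat_lit 5) (.ch (nat_lit 3) (.ev (nat_lit 788) (nat_lit 2048) (.ev (nat_lit 797) (nat_lit 4096)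
 .dd))) (.br (nat_lit 6) (.ch (nat_lit 5) (.ev (nat_lit 740) (nat_lit 4096) (.ev (nat_lit 749) (nat_lit 2048)
 .dd))) (.ch (nat_lit 6) (.ev (nat_lit 720) (nat_lit 2048) (.ev (nat_lit 733) (nat_lit 4096) .dd)))))))))) (.br
 (nat_lit 10) (.ch (nat_lit 8) (.nd (nat_lit 512) (.br (nat_lit 5) (.br (nat_lit 1) (.ch (nat_lit 0) (.ev
 (nat_lit 528) (nat_lit 256) (.nd (nat_lit 992) (.br (nat_lit 3) (.br (nat_lit 1) (.ch (nat_lit 0) (.ev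
 (nat_lit 1008) (nat_lit 6144) (.ev (nat_lit 1021) (nat_lit 16) .dd))) (.br (nat_lit 2) (.ch (nat_lit 1) (.ev
 (nat_lit 1008) (nat_lit 2048) (.ev (nat_lit 2068) (nat_lit 16) (.ev (nat_lit 2077) (nat_lit 4096) .dd)))) (.ch
 (nat_lit 2) (.ev (nat_lit 1008) (nat_lit 4096) (.ev (nat_lit 1124) (nat_lit 16) (.ev (nat_lit 1133) (nat_lit
 2048) .dd)))))) (.br (nat_lit 7) (.br (nat_lit 4) (.ch (nat_lit 3) (.ev (nat_lit 1028) (nat_lit 2048) (.fin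
 (nat_lit 576486590768431697)))) (.ch (nat_lit 4) (.ev (nat_lit 1008) (nat_lit 4096) (.ev (nat_lit 1508)
 (nat_lit 16) (.ev (nat_lit 1517) (nat_lit 2048) .dd))))) (.br (nat_lit 9) (.ch (nat_lit 7) (.ev (nat_lit 1008)
 (nat_lit 16) (.ev (nat_lit 4004) (nat_lit 4096) (.ev (nat_lit 4013) (nat_lit 2048) .dd)))) (.ch (nat_lit 9)
 (.ev (nat_lit 1008) (nat_lit 16) (.ev (nat_lit 1124) (nat_lit 4096) (.ev (nat_lit 1133) (nat_lit 2048)
 .dd)))))))))) (.br (nat_lit 3) (.ch (nat_lit 1) (.nd (nat_lit 928) (.br (nat_lit 7) (.br (nat_lit 3) (.ch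
 (nat_lit 2) (.ev (nat_lit 944) (nat_lit 4352) (.ev (nat_lit 2500) (nat_lit 2048) (.ev (nat_lit 2509) (nat_lit
 16) .dd)))) (.br (nat_lit 5) (.ch (nat_lit 3) (.ev (nat_lit 944) (nat_lit 4352) (.ev (nat_lit 1044) (nat_lit
 2048) (.ev (nat_lit 1053) (nat_lit 16) .dd)))) (.ch (nat_lit 5) (.ev (nat_lit 944) (nat_lit 2064) (.fin
 (nat_lit 576476695171121735)))))) (.br (nat_lit 8) (.ch (nat_lit 7) (.ev (nat_lit 944) (nat_lit 4096) (.ev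
 (nat_lit 1508) (nat_lit 2048) (.nd (nat_lit 4384) (.br (nat_lit 5) (.ch (nat_lit 1) (.fin (nat_lit
 576445908888535615))) (.ch (nat_lit 5) (.ev (nat_lit 4676) (nat_lit 256) (.ev (nat_lit 4685) (nat_lit 16)
 .dd)))))))) (.br (nat_lit 10) (.ch (nat_lit 8) (.ev (nat_lit 1460) (nat_lit 2048) (.ev (nat_lit 2080) (nat_lit
 16) (.ev (nat_lit 2452) (nat_lit 256) (.ev (nat_lit 2461) (nat_lit 4096) .dd))))) (.ch (nat_lit 10) (.ev
 (nat_lit 944) (nat_lit 4096) (.ev (nat_lit 1124) (nat_lit 16) (.fin (nat_lit 576399729433723446)))))))))) (.ch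
 (nat_lit 3) (.ev (nat_lit 528) (nat_lit 6144) (.nd (nat_lit 1360) (.br (nat_lit 4) (.br (nat_lit 1) (.ch
 (nat_lit 0) (.ev (nat_lit 2692) (nat_lit 256) (.ev (nat_lit 2701) (nat_lit 16) .dd))) (.ch (nat_lit 1) (.ev
 (nat_lit 1652) (nat_lit 16) (.ev (nat_lit 1661) (nat_lit 256) .dd)))) (.br (nat_lit 9) (.ch (nat_lit 4) (.ev
 (nat_lit 1376) (nat_lit 256) (.ev (nat_lit 1389) (nat_lit 16) .dd))) (.br (nat_lit 10) (.ch (nat_lit 9) (.ev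
 (nat_lit 1508) (nat_lit 16) (.ev (nat_lit 1517) (nat_lit 256) .dd))) (.ch (nat_lit 10) (.ev (nat_lit 1376)
 (nat_lit 256) (.ev (nat_lit 1389) (nat_lit 16) .dd))))))))))) (.br (nat_lit 9) (.br (nat_lit 6) (.ch (nat_lit
 5) (.ev (nat_lit 528) (nat_lit 6160) (.ev (nat_lit 541) (nat_lit 256) .dd))) (.ch (nat_lit 6) (.ev (nat_lit
 528) (nat_lit 16) (.nd (nat_lit 992) (.br (nat_lit 5) (.br (nat_lit 2) (.ch (nat_lit 1) (.ev (nat_lit 1008)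
 (nat_lit 256) (.ev (nat_lit 3344) (nat_lit 6144) .dd))) (.br (nat_lit 4) (.ch (nat_lit 2) (.ev (nat_lit 1044)
 (nat_lit 256) (.ev (nat_lit 3444) (nat_lit 2048) (.ev (nat_lit 3453) (nat_lit 4096) .dd)))) (.ch (nat_lit 4)
 (.ev (nat_lit 1008) (nat_lit 4096) (.ev (nat_lit 1044) (nat_lit 256) (.ev (nat_lit 1053) (nat_lit 2048)
 .dd)))))) (.br (nat_lit 7) (.br (nat_lit 6) (.ch (nat_lit 5) (.ev (nat_lit 1008) (nat_lit 4096) (.ev (nat_lit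
 1716) (nat_lit 256) (.ev (nat_lit 1725) (nat_lit 2048) .dd)))) (.ch (nat_lit 6) (.ev (nat_lit 1008) (nat_lit
 2048) (.ev (nat_lit 1284) (nat_lit 4096) (.ev (nat_lit 1293) (nat_lit 256) .dd))))) (.br (nat_lit 9) (.ch
 (nat_lit 7) (.ev (nat_lit 1008) (nat_lit 256) (.ev (nat_lit 1428) (nat_lit 2048) (.ev (nat_lit 1437) (nat_lit
 4096) .dd)))) (.ch (nat_lit 9) (.ev (nat_lit 1008) (nat_lit 2048) (.ev (nat_lit 2100) (nat_lit 256) (.ev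
 (nat_lit 2109) (nat_lit 4096) .dd))))))))))) (.br (nat_lit 10) (.ch (nat_lit 9) (.ev (nat_lit 740) (nat_lit
 4096) (.nd (nat_lit 992) (.br (nat_lit 5) (.br (nat_lit 4) (.ch (nat_lit 3) (.ev (nat_lit 1008) (nat_lit 16)
 (.ev (nat_lit 2260) (nat_lit 2048) (.ev (nat_lit 2269) (nat_lit 256) .dd)))) (.ch (nat_lit 4) (.ev (nat_lit
 1008) (nat_lit 16) (.ev (nat_lit 1460) (nat_lit 2048) (.ev (nat_lit 1469) (nat_lit 256) .dd))))) (.br (nat_lit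
 10) (.ch (nat_lit 5) (.ev (nat_lit 1008) (nat_lit 2304) (.ev (nat_lit 1021) (nat_lit 16) .dd))) (.ch (nat_lit
 10) (.ev (nat_lit 1588) (nat_lit 16) (.nd (nat_lit 4448) (.br (nat_lit 7) (.ch (nat_lit 3) (.ev (nat_lit 4464)
 (nat_lit 2048) (.ev (nat_lit 4477) (nat_lit 256) .dd))) (.br (nat_lit 10) (.ch (nat_lit 7) (.ev (nat_lit 4464)
 (nat_lit 2048) (.ev (nat_lit 4477) (nat_lit 256) .dd))) (.ch (nat_lit 10) (.ev (nat_lit 4464) (nat_lit 256)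
 (.ev (nat_lit 4477) (nat_lit 2048) .dd))))))))))))) (.ch (nat_lit 10) (.ev (nat_lit 528) (nat_lit 272) (.nd
 (nat_lit 1952) (.br (nat_lit 4) (.ch (nat_lit 1) (.ev (nat_lit 1968) (nat_lit 4096) (.ev (nat_lit 1981)
 (nat_lit 2048) .dd))) (.br (nat_lit 5) (.ch (nat_lit 4) (.ev (nat_lit 2052) (nat_lit 2048) (.ev (nat_lit 2061)
 (nat_lit 4096) .dd))) (.ch (nat_lit 5) (.ev (nat_lit 1968) (nat_lit 4096) (.ev (nat_lit 1981) (nat_lit 2048)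
 .dd))))))))))))) (.ch (nat_lit 10) (.ev (nat_lit 336) (nat_lit 4096) (.nd (nat_lit 704) (.br (nat_lit 5) (.br
 (nat_lit 3) (.ch (nat_lit 0) (.nd (nat_lit 1088) (.br (nat_lit 6) (.br (nat_lit 5) (.ch (nat_lit 0) (.ev
 (nat_lit 1124) (nat_lit 2048) (.ev (nat_lit 3060) (nat_lit 256) (.ev (nat_lit 3069) (nat_lit 16) .dd)))) (.ch
 (nat_lit 5) (.ev (nat_lit 1104) (nat_lit 256) (.ev (nat_lit 1684) (nat_lit 16) (.ev (nat_lit 1693) (nat_lit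
 2048) .dd))))) (.br (nat_lit 7) (.ch (nat_lit 6) (.ev (nat_lit 1104) (nat_lit 256) (.ev (nat_lit 3476)
 (nat_lit 2048) (.ev (nat_lit 3485) (nat_lit 16) .dd)))) (.br (nat_lit 8) (.ch (nat_lit 7) (.ev (nat_lit 1284)
 (nat_lit 2048) (.ev (nat_lit 1396) (nat_lit 256) (.ev (nat_lit 1405) (nat_lit 16) .dd)))) (.ch (nat_lit 8)
 (.ev (nat_lit 3060) (nat_lit 256) (.fin (nat_lit 576364545116160612))))))))) (.br (nat_lit 4) (.ch (nat_lit 3)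
 (.ev (nat_lit 720) (nat_lit 16) (.nd (nat_lit 1360) (.br (nat_lit 5) (.ch (nat_lit 2) (.ev (nat_lit 1508)
 (nat_lit 256) (.ev (nat_lit 1517) (nat_lit 2048) .dd))) (.br (nat_lit 6) (.ch (nat_lit 5) (.fin (nat_lit
 576386535107543771))) (.ch (nat_lit 6) (.ev (nat_lit 1396) (nat_lit 256) (.ev (nat_lit 1405) (nat_lit 2048)
 .dd)))))))) (.ch (nat_lit 4) (.ev (nat_lit 720) (nat_lit 2048) (.nd (nat_lit 1952) (.br (nat_lit 6) (.br
 (nat_lit 1) (.ch (nat_lit 0) (.ev (nat_lit 1968) (nat_lit 256) (.ev (nat_lit 1981) (nat_lit 16) .dd))) (.br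
 (nat_lit 5) (.ch (nat_lit 1) (.ev (nat_lit 1968) (nat_lit 16) (.ev (nat_lit 1981) (nat_lit 256) .dd))) (.ch
 (nat_lit 5) (.fin (nat_lit 576481093262721527))))) (.br (nat_lit 7) (.ch (nat_lit 6) (.ev (nat_lit 2660)
 (nat_lit 16) (.ev (nat_lit 2669) (nat_lit 256) .dd))) (.br (nat_lit 9) (.ch (nat_lit 7) (.ev (nat_lit 1968)
 (nat_lit 256) (.ev (nat_lit 1981) (nat_lit 16) .dd))) (.ch (nat_lit 9) (.ev (nat_lit 1968) (nat_lit 256) (.ev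
 (nat_lit 1981) (nat_lit 16) .dd))))))))))) (.br (nat_lit 6) (.ch (nat_lit 5) (.ev (nat_lit 740) (nat_lit 256)
 (.nd (nat_lit 1360) (.br (nat_lit 8) (.br (nat_lit 4) (.ch (nat_lit 2) (.ev (nat_lit 1376) (nat_lit 2048) (.ev
 (nat_lit 1389) (nat_lit 16) .dd))) (.ch (nat_lit 4) (.ev (nat_lit 1376) (nat_lit 16) (.ev (nat_lit 1389)
 (nat_lit 2048) .dd)))) (.br (nat_lit 9) (.ch (nat_lit 8) (.ev (nat_lit 1396) (nat_lit 2048) (.ev (nat_lit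
 1405) (nat_lit 16) .dd))) (.ch (nat_lit 9) (.nd (nat_lit 5392) (.br (nat_lit 1) (.ch (nat_lit 0) (.ev (nat_lit
 5408) (nat_lit 2048) (.ev (nat_lit 5421) (nat_lit 16) .dd))) (.br (nat_lit 5) (.ch (nat_lit 1) (.ev (nat_lit
 5408) (nat_lit 2048) (.ev (nat_lit 5421) (nat_lit 16) .dd))) (.ch (nat_lit 5) (.fin (nat_lit
 576452505907970658)))))))))))) (.br (nat_lit 9) (.ch (nat_lit 6) (.ev (nat_lit 720) (nat_lit 2064) (.ev
 (nat_lit 733) (nat_lit 256) .dd))) (.ch (nat_lit 9) (.ev (nat_lit 720) (nat_lit 256) (.nd (nat_lit 1360) (.br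
 (nat_lit 7) (.br (nat_lit 3) (.ch (nat_lit 2) (.ev (nat_lit 1376) (nat_lit 16) (.ev (nat_lit 1389) (nat_lit
 2048) .dd))) (.ch (nat_lit 3) (.ev (nat_lit 1376) (nat_lit 2048) (.ev (nat_lit 1389) (nat_lit 16) .dd)))) (.br
 (nat_lit 9) (.ch (nat_lit 7) (.ev (nat_lit 1428) (nat_lit 2048) (.ev (nat_lit 1437) (nat_lit 16) .dd))) (.ch
 (nat_lit 9) (.ev (nat_lit 1428) (nat_lit 2048) (.ev (nat_lit 1437) (nat_lit 16) .dd))))))))))))))))))))) (.br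
 (nat_lit 8) (.ch (nat_lit 7) (.ev (nat_lit 48) (nat_lit 272) (.nd (nat_lit 288) (.br (nat_lit 4) (.br (nat_lit
 2) (.ch (nat_lit 1) (.ev (nat_lit 304) (nat_lit 2080) (.nd (nat_lit 704) (.br (nat_lit 7) (.br (nat_lit 2)
 (.ch (nat_lit 0) (.ev (nat_lit 2964) (nat_lit 4096) (.ev (nat_lit 2973) (nat_lit 512) .dd))) (.br (nat_lit 3)
 (.ch (nat_lit 2) (.ev (nat_lit 3636) (nat_lit 4096) (.ev (nat_lit 3645) (nat_lit 512) .dd))) (.ch (nat_lit 3)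
 (.ev (nat_lit 720) (nat_lit 512) (.ev (nat_lit 733) (nat_lit 4096) .dd))))) (.br (nat_lit 8) (.ch (nat_lit 7)
 (.ev (nat_lit 720) (nat_lit 4096) (.ev (nat_lit 733) (nat_lit 512) .dd))) (.br (nat_lit 10) (.ch (nat_lit 8)
 (.ev (nat_lit 720) (nat_lit 4096) (.ev (nat_lit 733) (nat_lit 512) .dd))) (.ch (nat_lit 10) (.ev (nat_lit 720)
 (nat_lit 512) (.ev (nat_lit 733) (nat_lit 4096) .dd))))))))) (.br (nat_lit 3) (.ch (nat_lit 2) (.ev (nat_lit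
 304) (nat_lit 32) (.nd (nat_lit 704) (.br (nat_lit 4) (.br (nat_lit 2) (.ch (nat_lit 0) (.ev (nat_lit 740)
 (nat_lit 512) (.ev (nat_lit 2660) (nat_lit 4096) (.ev (nat_lit 2669) (nat_lit 2048) .dd)))) (.br (nat_lit 3)
 (.ch (nat_lit 2) (.ev (nat_lit 720) (nat_lit 6144) (.ev (nat_lit 733) (nat_lit 512) .dd))) (.ch (nat_lit 3)
 (.ev (nat_lit 720) (nat_lit 6144) (.ev (nat_lit 733) (nat_lit 512) .dd))))) (.br (nat_lit 7) (.br (nat_lit 5)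
 (.ch (nat_lit 4) (.ev (nat_lit 720) (nat_lit 512) (.nd (nat_lit 1360) (.br (nat_lit 6) (.br (nat_lit 2) (.ch
 (nat_lit 0) (.ev (nat_lit 1376) (nat_lit 2048) (.ev (nat_lit 1389) (nat_lit 4096) .dd))) (.br (nat_lit 3) (.ch
 (nat_lit 2) (.ev (nat_lit 1376) (nat_lit 2048) (.ev (nat_lit 1389) (nat_lit 4096) .dd))) (.ch (nat_lit 3) (.ev
 (nat_lit 5204) (nat_lit 2048) (.ev (nat_lit 5213) (nat_lit 4096) .dd))))) (.br (nat_lit 9) (.ch (nat_lit 6)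
 (.ev (nat_lit 1376) (nat_lit 2048) (.ev (nat_lit 1389) (nat_lit 4096) .dd))) (.br (nat_lit 10) (.ch (nat_lit
 9) (.ev (nat_lit 1376) (nat_lit 2048) (.ev (nat_lit 1389) (nat_lit 4096) .dd))) (.ch (nat_lit 10) (.ev
 (nat_lit 1376) (nat_lit 4096) (.ev (nat_lit 1389) (nat_lit 2048) .dd))))))))) (.ch (nat_lit 5) (.nd (nat_lit
 1952) (.br (nat_lit 5) (.ch (nat_lit 3) (.ev (nat_lit 1968) (nat_lit 2048) (.ev (nat_lit 3376) (nat_lit 4608)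
 .dd))) (.br (nat_lit 9) (.ch (nat_lit 5) (.ev (nat_lit 1968) (nat_lit 2048) (.ev (nat_lit 2052) (nat_lit 4096)
 (.ev (nat_lit 2061) (nat_lit 512) .dd)))) (.ch (nat_lit 9) (.ev (nat_lit 2116) (nat_lit 4096) (.fin (nat_lit
 576458003518538300))))))))) (.br (nat_lit 10) (.ch (nat_lit 7) (.ev (nat_lit 720) (nat_lit 512) (.nd (nat_lit
 1952) (.br (nat_lit 7) (.br (nat_lit 3) (.ch (nat_lit 0) (.fin (nat_lit 576505282478686812))) (.br (nat_lit 6)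
 (.ch (nat_lit 3) (.ev (nat_lit 3344) (nat_lit 6144) .dd)) (.ch (nat_lit 6) (.ev (nat_lit 1968) (nat_lit 4096)
 (.ev (nat_lit 1981) (nat_lit 2048) .dd))))) (.br (nat_lit 8) (.ch (nat_lit 7) (.ev (nat_lit 1968) (nat_lit
 2048) (.ev (nat_lit 1981) (nat_lit 4096) .dd))) (.br (nat_lit 10) (.ch (nat_lit 8) (.ev (nat_lit 3364)
 (nat_lit 2048) (.ev (nat_lit 3373) (nat_lit 4096) .dd))) (.ch (nat_lit 10) (.ev (nat_lit 1968) (nat_lit 4096)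
 (.ev (nat_lit 1981) (nat_lit 2048) .dd))))))))) (.ch (nat_lit 10) (.ev (nat_lit 740) (nat_lit 512) (.nd
 (nat_lit 1360) (.br (nat_lit 6) (.br (nat_lit 4) (.ch (nat_lit 0) (.ev (nat_lit 1376) (nat_lit 4096) (.ev
 (nat_lit 1389) (nat_lit 2048) .dd))) (.br (nat_lit 5) (.ch (nat_lit 4) (.ev (nat_lit 1376) (nat_lit 2048) (.ev
 (nat_lit 1389) (nat_lit 4096) .dd))) (.ch (nat_lit 5) (.ev (nat_lit 1376) (nat_lit 2048) (.ev (nat_lit 1389)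
 (nat_lit 4096) .dd))))) (.br (nat_lit 8) (.br (nat_lit 7) (.ch (nat_lit 6) (.ev (nat_lit 1376) (nat_lit 6144)
 .dd)) (.ch (nat_lit 7) (.ev (nat_lit 2260) (nat_lit 4096) (.ev (nat_lit 2269) (nat_lit 2048) .dd)))) (.br
 (nat_lit 10) (.ch (nat_lit 8) (.ev (nat_lit 3444) (nat_lit 2048) (.ev (nat_lit 3453) (nat_lit 4096) .dd)))
 (.ch (nat_lit 10) (.ev (nat_lit 2612) (nat_lit 4096) (.ev (nat_lit 2621) (nat_lit 2048) .dd)))))))))))))))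
 (.ch (nat_lit 3) (.nd (nat_lit 464) (.br (nat_lit 2) (.br (nat_lit 1) (.ch (nat_lit 0) (.nd (nat_lit 1232)
 (.br (nat_lit 6) (.br (nat_lit 1) (.ch (nat_lit 0) (.ev (nat_lit 1248) (nat_lit 4096) (.ev (nat_lit 1268)
 (nat_lit 2048) (.fin (nat_lit 576465700170187305))))) (.br (nat_lit 5) (.ch (nat_lit 1) (.ev (nat_lit 1248)
 (nat_lit 6144) (.ev (nat_lit 2260) (nat_lit 512) (.ev (nat_lit 2269) (nat_lit 32) .dd)))) (.ch (nat_lit 5)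
 (.ev (nat_lit 1716) (nat_lit 512) (.ev (nat_lit 1748) (nat_lit 4096) (.ev (nat_lit 2420) (nat_lit 2048) (.ev
 (nat_lit 2429) (nat_lit 32) .dd))))))) (.br (nat_lit 8) (.ch (nat_lit 6) (.ev (nat_lit 1248) (nat_lit 512)
 (.ev (nat_lit 1396) (nat_lit 4096) (.ev (nat_lit 2500) (nat_lit 32) (.ev (nat_lit 2509) (nat_lit 2048)
 .dd))))) (.br (nat_lit 9) (.ch (nat_lit 8) (.ev (nat_lit 1248) (nat_lit 2560) (.ev (nat_lit 2356) (nat_lit 32)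
 (.ev (nat_lit 2365) (nat_lit 4096) .dd)))) (.ch (nat_lit 9) (.ev (nat_lit 1248) (nat_lit 544) (.ev (nat_lit
 2516) (nat_lit 2048) (.ev (nat_lit 2525) (nat_lit 4096) .dd))))))))) (.ch (nat_lit 1) (.ev (nat_lit 480)
 (nat_lit 512) (.nd (nat_lit 992) (.br (nat_lit 6) (.ch (nat_lit 2) (.ev (nat_lit 1008) (nat_lit 4096) (.ev
 (nat_lit 3236) (nat_lit 2048) (.ev (nat_lit 3245) (nat_lit 32) .dd)))) (.br (nat_lit 7) (.ch (nat_lit 6) (.ev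
 (nat_lit 2100) (nat_lit 32) (.fin (nat_lit 576522874727645768)))) (.ch (nat_lit 7) (.ev (nat_lit 1008)
 (nat_lit 2048) (.ev (nat_lit 3492) (nat_lit 32) (.ev (nat_lit 3501) (nat_lit 4096) .dd)))))))))) (.br (nat_lit
 5) (.ch (nat_lit 2) (.ev (nat_lit 480) (nat_lit 2080) (.nd (nat_lit 1952) (.br (nat_lit 3) (.ch (nat_lit 1)
 (.ev (nat_lit 2052) (nat_lit 4096) (.ev (nat_lit 2061) (nat_lit 512) .dd))) (.br (nat_lit 6) (.ch (nat_lit 3)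
 (.ev (nat_lit 2292) (nat_lit 512) (.ev (nat_lit 2301) (nat_lit 4096) .dd))) (.ch (nat_lit 6) (.ev (nat_lit
 2052) (nat_lit 512) (.ev (nat_lit 2061) (nat_lit 4096) .dd)))))))) (.br (nat_lit 7) (.ch (nat_lit 5) (.ev
 (nat_lit 480) (nat_lit 4128) (.ev (nat_lit 4308) (nat_lit 2048) (.ev (nat_lit 4317) (nat_lit 512) .dd)))) (.ch
 (nat_lit 7) (.ev (nat_lit 692) (nat_lit 32) (.nd (nat_lit 992) (.br (nat_lit 7) (.br (nat_lit 4) (.ch (nat_lit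
 3) (.ev (nat_lit 1008) (nat_lit 2048) (.ev (nat_lit 1028) (nat_lit 4096) (.ev (nat_lit 1037) (nat_lit 512)
 .dd)))) (.br (nat_lit 6) (.ch (nat_lit 4) (.ev (nat_lit 1028) (nat_lit 4096) (.nd (nat_lit 4720) (.br (nat_lit
 9) (.ch (nat_lit 6) (.fin (nat_lit 576400828913893935))) (.ch (nat_lit 9) (.ev (nat_lit 4804) (nat_lit 512)
 (.ev (nat_lit 4813) (nat_lit 2048) .dd))))))) (.ch (nat_lit 6) (.ev (nat_lit 1008) (nat_lit 512) (.ev (nat_lit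
 1204) (nat_lit 2048) (.ev (nat_lit 1213) (nat_lit 4096) .dd)))))) (.br (nat_lit 9) (.ch (nat_lit 7) (.ev
 (nat_lit 1008) (nat_lit 512) (.ev (nat_lit 1028) (nat_lit 4096) (.ev (nat_lit 1037) (nat_lit 2048) .dd))))
 (.br (nat_lit 10) (.ch (nat_lit 9) (.ev (nat_lit 1008) (nat_lit 2048) (.ev (nat_lit 1284) (nat_lit 512) (.ev
 (nat_lit 1293) (nat_lit 4096) .dd)))) (.ch (nat_lit 10) (.ev (nat_lit 1008) (nat_lit 4096) (.ev (nat_lit 1652)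
 (nat_lit 2048) (.ev (nat_lit 1661) (nat_lit 512) .dd))))))))))))))))) (.br (nat_lit 9) (.br (nat_lit 5) (.ch
 (nat_lit 4) (.ev (nat_lit 304) (nat_lit 2048) (.nd (nat_lit 640) (.br (nat_lit 3) (.br (nat_lit 1) (.ch
 (nat_lit 0) (.ev (nat_lit 656) (nat_lit 4128) (.ev (nat_lit 669) (nat_lit 512) .dd))) (.br (nat_lit 2) (.ch
 (nat_lit 1) (.ev (nat_lit 656) (nat_lit 4608) (.ev (nat_lit 669) (nat_lit 32) .dd))) (.ch (nat_lit 2) (.nd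
 (nat_lit 1232) (.br (nat_lit 6) (.br (nat_lit 2) (.ch (nat_lit 1) (.ev (nat_lit 1248) (nat_lit 4608) (.ev
 (nat_lit 1261) (nat_lit 32) .dd))) (.br (nat_lit 3) (.ch (nat_lit 2) (.ev (nat_lit 4900) (nat_lit 4096) (.nd
 (nat_lit 5344) (.br (nat_lit 2) (.ch (nat_lit 1) (.fin (nat_lit 576412923538653753))) (.br (nat_lit 9) (.ch
 (nat_lit 2) (.ev (nat_lit 5360) (nat_lit 32) (.ev (nat_lit 5373) (nat_lit 512) .dd))) (.ch (nat_lit 9) (.ev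
 (nat_lit 5360) (nat_lit 32) (.ev (nat_lit 5373) (nat_lit 512) .dd)))))))) (.ch (nat_lit 3) (.ev (nat_lit 1248)
 (nat_lit 32) (.ev (nat_lit 1316) (nat_lit 4096) (.ev (nat_lit 1325) (nat_lit 512) .dd)))))) (.br (nat_lit 7)
 (.ch (nat_lit 6) (.ev (nat_lit 1248) (nat_lit 32) (.ev (nat_lit 1396) (nat_lit 512) (.ev (nat_lit 1405)
 (nat_lit 4096) .dd)))) (.br (nat_lit 10) (.ch (nat_lit 7) (.ev (nat_lit 1248) (nat_lit 512) (.fin (nat_lit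
 576403027941343802)))) (.ch (nat_lit 10) (.ev (nat_lit 1248) (nat_lit 4096) (.ev (nat_lit 1396) (nat_lit 512)
 (.ev (nat_lit 1405) (nat_lit 32) .dd))))))))))) (.br (nat_lit 5) (.ch (nat_lit 3) (.ev (nat_lit 656) (nat_lit
 32) (.ev (nat_lit 676) (nat_lit 512) (.ev (nat_lit 685) (nat_lit 4096) .dd)))) (.br (nat_lit 6) (.ch (nat_lit
 5) (.nd (nat_lit 992) (.br (nat_lit 5) (.br (nat_lit 3) (.ch (nat_lit 2) (.ev (nat_lit 1008) (nat_lit 512)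
 (.ev (nat_lit 5140) (nat_lit 4096) (.ev (nat_lit 5149) (nat_lit 32) .dd)))) (.ch (nat_lit 3) (.ev (nat_lit
 1008) (nat_lit 4096) (.ev (nat_lit 1284) (nat_lit 32) (.ev (nat_lit 1293) (nat_lit 512) .dd))))) (.br (nat_lit
 8) (.ch (nat_lit 5) (.ev (nat_lit 1028) (nat_lit 512) (.ev (nat_lit 2128) (nat_lit 4096) (.ev (nat_lit 2141)
 (nat_lit 32) .dd)))) (.br (nat_lit 10) (.ch (nat_lit 8) (.ev (nat_lit 3988) (nat_lit 4096) (.ev (nat_lit 5220)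
 (nat_lit 512) (.ev (nat_lit 5229) (nat_lit 32) .dd)))) (.ch (nat_lit 10) (.ev (nat_lit 1008) (nat_lit 32) (.ev
 (nat_lit 2100) (nat_lit 4096) (.ev (nat_lit 2109) (nat_lit 512) .dd))))))))) (.ch (nat_lit 6) (.ev (nat_lit
 656) (nat_lit 512) (.nd (nat_lit 1232) (.br (nat_lit 1) (.ch (nat_lit 0) (.ev (nat_lit 1248) (nat_lit 32) (.ev
 (nat_lit 1261) (nat_lit 4096) .dd))) (.br (nat_lit 8) (.ch (nat_lit 1) (.ev (nat_lit 2868) (nat_lit 32) (.ev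
 (nat_lit 2877) (nat_lit 4096) .dd))) (.ch (nat_lit 8) (.ev (nat_lit 1248) (nat_lit 32) (.ev (nat_lit 1261)
 (nat_lit 4096) .dd)))))))))))))) (.ch (nat_lit 5) (.ev (nat_lit 304) (nat_lit 6656) (.ev (nat_lit 317)
 (nat_lit 32) .dd)))) (.br (nat_lit 10) (.ch (nat_lit 9) (.nd (nat_lit 832) (.br (nat_lit 4) (.br (nat_lit 2)
 (.ch (nat_lit 1) (.ev (nat_lit 2500) (nat_lit 512) (.ev (nat_lit 3860) (nat_lit 32) (.nd (nat_lit 4224) (.br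
 (nat_lit 5) (.br (nat_lit 1) (.ch (nat_lit 0) (.ev (nat_lit 4240) (nat_lit 2048) (.ev (nat_lit 4253) (nat_lit
 4096) .dd))) (.br (nat_lit 4) (.ch (nat_lit 1) (.ev (nat_lit 4240) (nat_lit 2048) (.ev (nat_lit 4253) (nat_lit
 4096) .dd))) (.ch (nat_lit 4) (.ev (nat_lit 4260) (nat_lit 2048) (.ev (nat_lit 4269) (nat_lit 4096) .dd)))))
 (.br (nat_lit 7) (.ch (nat_lit 5) (.ev (nat_lit 4260) (nat_lit 2048) (.ev (nat_lit 4269) (nat_lit 4096) .dd)))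
 (.br (nat_lit 9) (.ch (nat_lit 7) (.ev (nat_lit 4240) (nat_lit 4096) (.ev (nat_lit 4253) (nat_lit 2048) .dd)))
 (.ch (nat_lit 9) (.ev (nat_lit 4240) (nat_lit 6144) .dd))))))))) (.br (nat_lit 3) (.ch (nat_lit 2) (.ev
 (nat_lit 848) (nat_lit 2048) (.ev (nat_lit 1860) (nat_lit 4096) (.nd (nat_lit 3664) (.br (nat_lit 5) (.ch
 (nat_lit 1) (.ev (nat_lit 3700) (nat_lit 32) (.ev (nat_lit 3709) (nat_lit 512) .dd))) (.br (nat_lit 10) (.ch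
 (nat_lit 5) (.fin (nat_lit 576522874706674256))) (.ch (nat_lit 10) (.ev (nat_lit 3680) (nat_lit 32) (.ev
 (nat_lit 3693) (nat_lit 512) .dd))))))))) (.ch (nat_lit 3) (.ev (nat_lit 848) (nat_lit 4640) (.ev (nat_lit
 861) (nat_lit 2048) .dd))))) (.br (nat_lit 7) (.br (nat_lit 5) (.ch (nat_lit 4) (.ev (nat_lit 848) (nat_lit
 2048) (.nd (nat_lit 3312) (.br (nat_lit 4) (.ch (nat_lit 3) (.ev (nat_lit 3328) (nat_lit 4096) (.ev (nat_lit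
 4272) (nat_lit 544) .dd))) (.br (nat_lit 7) (.ch (nat_lit 4) (.ev (nat_lit 3328) (nat_lit 32) (.ev (nat_lit
 3364) (nat_lit 512) (.ev (nat_lit 3373) (nat_lit 4096) .dd)))) (.ch (nat_lit 7) (.ev (nat_lit 3412) (nat_lit
 512) (.fin (nat_lit 576462401575535161))))))))) (.ch (nat_lit 5) (.ev (nat_lit 848) (nat_lit 2592) (.ev
 (nat_lit 861) (nat_lit 4096) .dd)))) (.br (nat_lit 8) (.ch (nat_lit 7) (.ev (nat_lit 848) (nat_lit 4096) (.ev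
 (nat_lit 2868) (nat_lit 32) (.ev (nat_lit 3364) (nat_lit 512) (.ev (nat_lit 3373) (nat_lit 2048) .dd))))) (.ch
 (nat_lit 8) (.ev (nat_lit 848) (nat_lit 4096) (.ev (nat_lit 868) (nat_lit 32) (.nd (nat_lit 3312) (.br
 (nat_lit 6) (.ch (nat_lit 4) (.ev (nat_lit 4100) (nat_lit 512) (.ev (nat_lit 4109) (nat_lit 2048) .dd))) (.br
 (nat_lit 10) (.ch (nat_lit 6) (.ev (nat_lit 3364) (nat_lit 512) (.ev (nat_lit 3373) (nat_lit 2048) .dd))) (.ch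
 (nat_lit 10) (.ev (nat_lit 3328) (nat_lit 512) (.ev (nat_lit 3341) (nat_lit 2048) .dd)))))))))))))) (.ch
 (nat_lit 10) (.ev (nat_lit 304) (nat_lit 4608) (.nd (nat_lit 832) (.br (nat_lit 5) (.br (nat_lit 1) (.ch
 (nat_lit 0) (.ev (nat_lit 884) (nat_lit 2048) (.ev (nat_lit 893) (nat_lit 32) .dd))) (.br (nat_lit 4) (.ch
 (nat_lit 1) (.ev (nat_lit 1540) (nat_lit 2048) (.ev (nat_lit 1549) (nat_lit 32) .dd))) (.ch (nat_lit 4) (.ev
 (nat_lit 848) (nat_lit 2080) .dd)))) (.br (nat_lit 6) (.ch (nat_lit 5) (.ev (nat_lit 2452) (nat_lit 32) (.ev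
 (nat_lit 2461) (nat_lit 2048) .dd))) (.br (nat_lit 9) (.ch (nat_lit 6) (.ev (nat_lit 1908) (nat_lit 2048) (.ev
 (nat_lit 1917) (nat_lit 32) .dd))) (.ch (nat_lit 9) (.ev (nat_lit 2260) (nat_lit 32) (.ev (nat_lit 2269)
 (nat_lit 2048) .dd))))))))))))))) (.ch (nat_lit 8) (.ev (nat_lit 48) (nat_lit 816) (.nd (nat_lit 224) (.br
 (nat_lit 3) (.br (nat_lit 1) (.ch (nat_lit 0) (.ev (nat_lit 240) (nat_lit 6144) .dd)) (.br (nat_lit 2) (.ch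
 (nat_lit 1) (.ev (nat_lit 240) (nat_lit 4096) (.ev (nat_lit 253) (nat_lit 2048) .dd))) (.ch (nat_lit 2) (.ev
 (nat_lit 240) (nat_lit 2048) (.ev (nat_lit 253) (nat_lit 4096) .dd))))) (.br (nat_lit 6) (.br (nat_lit 4) (.ch
 (nat_lit 3) (.nd (nat_lit 832) (.br (nat_lit 5) (.br (nat_lit 2) (.ch (nat_lit 0) (.ev (nat_lit 848) (nat_lit
 2048) (.ev (nat_lit 861) (nat_lit 4096) .dd))) (.br (nat_lit 4) (.ch (nat_lit 2) (.ev (nat_lit 848) (nat_lit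
 2048) (.ev (nat_lit 861) (nat_lit 4096) .dd))) (.ch (nat_lit 4) (.ev (nat_lit 848) (nat_lit 4096) (.ev
 (nat_lit 861) (nat_lit 2048) .dd))))) (.br (nat_lit 7) (.br (nat_lit 6) (.ch (nat_lit 5) (.ev (nat_lit 848)
 (nat_lit 4096) (.ev (nat_lit 861) (nat_lit 2048) .dd))) (.ch (nat_lit 6) (.ev (nat_lit 848) (nat_lit 2048)
 (.ev (nat_lit 861) (nat_lit 4096) .dd)))) (.br (nat_lit 8) (.ch (nat_lit 7) (.ev (nat_lit 848) (nat_lit 4096)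
 (.ev (nat_lit 861) (nat_lit 2048) .dd))) (.ch (nat_lit 8) (.nd (nat_lit 3312) (.br (nat_lit 5) (.br (nat_lit
 2) (.ch (nat_lit 0) (.ev (nat_lit 3328) (nat_lit 2048) (.ev (nat_lit 3341) (nat_lit 4096) .dd))) (.br (nat_lit
 3) (.ch (nat_lit 2) (.ev (nat_lit 3328) (nat_lit 2048) (.ev (nat_lit 3341) (nat_lit 4096) .dd))) (.ch (nat_lit
 3) (.fin (nat_lit 576486590765285946))))) (.br (nat_lit 6) (.ch (nat_lit 5) (.ev (nat_lit 3364) (nat_lit 4096)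
 (.ev (nat_lit 3373) (nat_lit 2048) .dd))) (.br (nat_lit 10) (.ch (nat_lit 6) (.ev (nat_lit 3328) (nat_lit
 6144) .dd)) (.ch (nat_lit 10) (.ev (nat_lit 3328) (nat_lit 4096) (.ev (nat_lit 3341) (nat_lit 2048)
 .dd))))))))))))) (.ch (nat_lit 4) (.nd (nat_lit 832) (.br (nat_lit 3) (.br (nat_lit 2) (.ch (nat_lit 0) (.ev
 (nat_lit 3476) (nat_lit 2048) (.ev (nat_lit 3485) (nat_lit 4096) .dd))) (.ch (nat_lit 2) (.ev (nat_lit 2756)
 (nat_lit 2048) (.ev (nat_lit 2765) (nat_lit 4096) .dd)))) (.br (nat_lit 9) (.ch (nat_lit 3) (.ev (nat_lit 848)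
 (nat_lit 4096) (.ev (nat_lit 861) (nat_lit 2048) .dd))) (.br (nat_lit 10) (.ch (nat_lit 9) (.ev (nat_lit 848)
 (nat_lit 2048) (.ev (nat_lit 861) (nat_lit 4096) .dd))) (.ch (nat_lit 10) (.ev (nat_lit 3748) (nat_lit 4096)
 (.ev (nat_lit 3757) (nat_lit 2048) .dd))))))))) (.br (nat_lit 8) (.ch (nat_lit 6) (.nd (nat_lit 640) (.br
 (nat_lit 5) (.br (nat_lit 1) (.ch (nat_lit 0) (.nd (nat_lit 1952) (.br (nat_lit 5) (.br (nat_lit 1) (.ch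
 (nat_lit 0) (.ev (nat_lit 1968) (nat_lit 2048) (.ev (nat_lit 1981) (nat_lit 4096) .dd))) (.br (nat_lit 2) (.ch
 (nat_lit 1) (.ev (nat_lit 2704) (nat_lit 4096) (.ev (nat_lit 2717) (nat_lit 2048) .dd))) (.ch (nat_lit 2) (.ev
 (nat_lit 1968) (nat_lit 2048) (.ev (nat_lit 1981) (nat_lit 4096) .dd))))) (.br (nat_lit 9) (.br (nat_lit 7)
 (.ch (nat_lit 5) (.fin (nat_lit 576445908877001213))) (.ch (nat_lit 7) (.ev (nat_lit 2272) (nat_lit 6144)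
 .dd))) (.br (nat_lit 10) (.ch (nat_lit 9) (.ev (nat_lit 1968) (nat_lit 6144) .dd)) (.ch (nat_lit 10) (.ev
 (nat_lit 1968) (nat_lit 4096) (.ev (nat_lit 1981) (nat_lit 2048) .dd)))))))) (.br (nat_lit 3) (.ch (nat_lit 1)
 (.nd (nat_lit 3312) (.br (nat_lit 6) (.br (nat_lit 3) (.ch (nat_lit 1) (.ev (nat_lit 3328) (nat_lit 4096) (.ev
 (nat_lit 3341) (nat_lit 2048) .dd))) (.br (nat_lit 4) (.ch (nat_lit 3) (.ev (nat_lit 3328) (nat_lit 6144)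
 .dd)) (.ch (nat_lit 4) (.ev (nat_lit 4900) (nat_lit 2048) (.ev (nat_lit 4909) (nat_lit 4096) .dd))))) (.br
 (nat_lit 9) (.ch (nat_lit 6) (.ev (nat_lit 3328) (nat_lit 2048) (.ev (nat_lit 3341) (nat_lit 4096) .dd))) (.br
 (nat_lit 10) (.ch (nat_lit 9) (.ev (nat_lit 3328) (nat_lit 2048) (.ev (nat_lit 3341) (nat_lit 4096) .dd)))
 (.ch (nat_lit 10) (.ev (nat_lit 3328) (nat_lit 2048) (.ev (nat_lit 3341) (nat_lit 4096) .dd)))))))) (.ch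
 (nat_lit 3) (.ev (nat_lit 656) (nat_lit 6144) .dd)))) (.br (nat_lit 9) (.br (nat_lit 6) (.ch (nat_lit 5) (.ev
 (nat_lit 656) (nat_lit 6144) .dd)) (.ch (nat_lit 6) (.nd (nat_lit 1952) (.br (nat_lit 6) (.br (nat_lit 3) (.ch
 (nat_lit 1) (.ev (nat_lit 1968) (nat_lit 2048) (.ev (nat_lit 1981) (nat_lit 4096) .dd))) (.br (nat_lit 4) (.ch
 (nat_lit 3) (.ev (nat_lit 1968) (nat_lit 4096) (.ev (nat_lit 1981) (nat_lit 2048) .dd))) (.ch (nat_lit 4) (.ev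
 (nat_lit 2068) (nat_lit 4096) (.ev (nat_lit 2077) (nat_lit 2048) .dd))))) (.br (nat_lit 9) (.ch (nat_lit 6)
 (.ev (nat_lit 1968) (nat_lit 4096) (.ev (nat_lit 1981) (nat_lit 2048) .dd))) (.br (nat_lit 10) (.ch (nat_lit
 9) (.ev (nat_lit 3344) (nat_lit 6144) .dd)) (.ch (nat_lit 10) (.ev (nat_lit 3524) (nat_lit 4096) (.ev (nat_lit
 3533) (nat_lit 2048) .dd))))))))) (.br (nat_lit 10) (.ch (nat_lit 9) (.ev (nat_lit 2292) (nat_lit 4096) (.ev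
 (nat_lit 2301) (nat_lit 2048) .dd))) (.ch (nat_lit 10) (.ev (nat_lit 2660) (nat_lit 2048) (.ev (nat_lit 2669)
 (nat_lit 4096) .dd)))))))) (.ch (nat_lit 8) (.ev (nat_lit 240) (nat_lit 2048) (.ev (nat_lit 253) (nat_lit
 4096) .dd))))))))))))))

/-- The trie. -/
noncomputable def T : Tr := .nd (nat_lit 1000000) (.br (nat_lit 4) (.br (nat_lit 1) (.ch (nat_lit 0) (.ev
 (nat_lit 0) (nat_lit 8191) .dd)) (.ch (nat_lit 1) T1)) (.br (nat_lit 5) (.ch (nat_lit 4) T4) (.br (nat_lit 10)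
 (.ch (nat_lit 5) (.ev (nat_lit 0) (nat_lit 8191) .dd)) (.ch (nat_lit 10) (.ev (nat_lit 0) (nat_lit 8191)
 .dd)))))

/-- The possible values. -/
noncomputable def oks : List ℕ := [3, 4, 9, 133, 276, 610, 724, 1329, 1923, 2610, 5490, 7881, 7890, 7947, 8154, 8178, 8490, 9090, 9135, 9546, 14356, 15090, 21090, 36001, 43410, 131052]

/-- The parameters. -/
noncomputable def S : Pr := ⟨fun i l e => lget mz (lget [] (lget [] tabs i) l) e, oks, [(nat_lit 0), (nat_lit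
 0), (nat_lit 0), (nat_lit 0), (nat_lit 0), (nat_lit 0), (nat_lit 0), (nat_lit 0)], T, (nat_lit 8191), (nat_lit
 11), (nat_lit 13), [(nat_lit 1057)], [(nat_lit 214358881)]⟩

/-- Nothing known. -/
noncomputable def cs0 : Cs := (.cons (nat_lit 11) (nat_lit 0) (nat_lit 1) .nil)

theorem part_1 : part S cs0 (nat_lit 1) = true := by decide +kernel

theorem part_4 : part S cs0 (nat_lit 4) = true := by decide +kernel

/-- Data of a prime. -/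
noncomputable def D0 : PD := ⟨(nat_lit 11), (nat_lit 8), (142600811, 3, 3), (70842763, 72673395, 1830652), (169266158, 214358866, 214358846)⟩

theorem D0_ok : D0.Ok := pdb_sound (s := 1) (C := ⟨⟨9, -6, -17, -1, -14, 8, -4, -1, -1⟩, (9, 10, 7)⟩) (by show Nat.Prime 11; norm_num) (by decide +kernel)

/-- Lines of the first type. -/
noncomputable def Cl0 : List C1 := [⟨⟨-9, 6, -8, 1, 14, 7, 4, 1, -5⟩, (4, 2, 8)⟩,
  ⟨⟨0, 0, 0, 0, 0, 0, 0, 0, 0⟩, (0, 0, 0)⟩,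
  ⟨⟨0, 0, 0, 0, 0, 0, 0, 0, 0⟩, (0, 0, 0)⟩,
  ⟨⟨0, 0, 0, 0, 0, 0, 0, 0, 0⟩, (0, 0, 0)⟩,
  ⟨⟨0, 0, 0, 0, 0, 0, 0, 0, 0⟩, (0, 0, 0)⟩,
  ⟨⟨9, 6, -17, -1, 14, 8, -4, 1, -1⟩, (8, 4, 5)⟩,
  ⟨⟨0, 0, 0, 0, 0, 0, 0, 0, 0⟩, (0, 0, 0)⟩,
  ⟨⟨0, 0, 0, 0, 0, 0, 0, 0, 0⟩, (0, 0, 0)⟩,
  ⟨⟨0, 0, 0, 0, 0, 0, 0, 0, 0⟩, (0, 0, 0)⟩,
  ⟨⟨0, 0, 0, 0, 0, 0, 0, 0, 0⟩, (0, 0, 0)⟩,
  ⟨⟨-9, -6, -8, 1, -14, 7, 4, -1, -5⟩, (7, 9, 3)⟩]

/-- Data of a prime. -/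
noncomputable def Dm : PD := ⟨(nat_lit 13), (nat_lit 2), (118, 6, 3), (20, 53, 120), (3, 96, 144)⟩

theorem Dm_ok : Dm.Ok := pdb_sound (s := 2) (C := ⟨⟨3, 18, -4, -17, 2, 1, 2, -1, -7⟩, (3, 9, 2)⟩) (by show Nat.Prime 13; norm_num) (by decide +kernel)

/-- Lines of the first type. -/
noncomputable def Clm : List C1 := [⟨⟨17, -2, -16, 3, 18, 1, -2, 1, -5⟩, (10, 1, 8)⟩,
  ⟨⟨3, -18, -4, -17, -2, 1, 2, 1, -7⟩, (5, 2, 12)⟩,
  ⟨⟨0, 0, 0, 0, 0, 0, 0, 0, 0⟩, (0, 0, 0)⟩,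
  ⟨⟨17, 2, -16, 3, -18, 1, -2, -1, -5⟩, (8, 6, 9)⟩,
  ⟨⟨0, 0, 0, 0, 0, 0, 0, 0, 0⟩, (0, 0, 0)⟩,
  ⟨⟨0, 0, 0, 0, 0, 0, 0, 0, 0⟩, (0, 0, 0)⟩,
  ⟨⟨0, 0, 0, 0, 0, 0, 0, 0, 0⟩, (0, 0, 0)⟩,
  ⟨⟨0, 0, 0, 0, 0, 0, 0, 0, 0⟩, (0, 0, 0)⟩,
  ⟨⟨0, 0, 0, 0, 0, 0, 0, 0, 0⟩, (0, 0, 0)⟩,
  ⟨⟨0, 0, 0, 0, 0, 0, 0, 0, 0⟩, (0, 0, 0)⟩,
  ⟨⟨0, 0, 0, 0, 0, 0, 0, 0, 0⟩, (0, 0, 0)⟩,
  ⟨⟨0, 0, 0, 0, 0, 0, 0, 0, 0⟩, (0, 0, 0)⟩,
  ⟨⟨0, 0, 0, 0, 0, 0, 0, 0, 0⟩, (0, 0, 0)⟩]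

/-- Unit moves. -/
noncomputable def U : List Mv := [mz,
  mz,
  ⟨⟨-1, 0, 1, 0, 1, 0, 0, 0, 1⟩, .nil, (nat_lit 10), (nat_lit 5), (nat_lit 1), (nat_lit 1), (0, 0, 0), [], 6⟩,
  ⟨⟨1, 0, 0, 0, -1, 0, 0, 0, 1⟩, .nil, (nat_lit 10), (nat_lit 10), (nat_lit 2), (nat_lit 1), (0, 0, 0), [], 10⟩,
  mz,
  mz,
  ⟨⟨-1, 0, 1, 0, -1, 0, 0, 0, 1⟩, .nil, (nat_lit 0), (nat_lit 6), (nat_lit 1), (nat_lit 0), (0, 0, 0), [], 5⟩,
  ⟨⟨-1, 0, 1, 0, -1, 0, 0, 0, 1⟩, .nil, (nat_lit 0), (nat_lit 6), (nat_lit 1), (nat_lit 0), (0, 0, 0), [], 5⟩,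
  ⟨⟨1, 0, 0, 0, -1, 0, 0, 0, 1⟩, .nil, (nat_lit 10), (nat_lit 10), (nat_lit 2), (nat_lit 1), (0, 0, 0), [], 10⟩,
  ⟨⟨-1, 0, 1, 0, 1, 0, 0, 0, 1⟩, .nil, (nat_lit 10), (nat_lit 5), (nat_lit 1), (nat_lit 1), (0, 0, 0), [], 6⟩,
  mz]

theorem v_ty : tyb Dm S.ty1 Clm = true := by decide +kernel

theorem v_ty0 : tyb D0 (S.tys.getD 0 0) Cl0 = true := by decide +kernel

theorem v_msc : mscb S D0 [] Dm (nat_lit 18) = true := by decide +kernel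

theorem v_mv0 : mvsn (nat_lit 36226650889) S D0 [] Dm (nat_lit 18) 0 D0 = true := by decide +kernel

theorem v_mm : mmsn (nat_lit 36226650889) S D0 [] Dm (nat_lit 18) = true := by decide +kernel

theorem v_un : unb S D0 (nat_lit 18) U = true := by decide +kernel

theorem v_ok : okb S.oks [(0, 0, 0), (0, 0, 0), (0, 3, 0), (0, 0, 0), (0, 0, 0), (0, 0, 0), (0, 0, 0), (8, 35,
 2), (8, 43, 1), (0, 0, 0), (0, 0, 0), (40, 79, 2), (0, 0, 0), (4, 89, 1), (0, 0, 0), (0, 0, 0), (0, 0, 0), (0,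
 0, 0), (10, 95, 1), (0, 0, 0), (0, 0, 0), (0, 0, 0), (0, 0, 0), (60, 179, 6), (0, 0, 0), (0, 0, 0)] = true :=
 by decide +kernel

theorem v_part : ∀ d < D0.p, (nat_lit 18).testBit d = true → part S (zc (D0 :: [])) d = true := by
  intro d hd h
  have h1 : ∀ d < 11, (nat_lit 18).testBit d = true → d = 1 ∨ d = 4 := by decide
  rcases h1 d hd h with rfl | rfl
  · exact part_1
  · exact part_4

theorem main (n : ℕ) (ho : Odd n) (hr : ¬ Rep n) (h0 : Split 11 n) (hm : Split 13 n) :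
    n ∈ EE := by
  refine concln (W := nat_lit 36226650889) (S := S) (P0 := D0) (Pl := []) (Pm := Dm) (cn := nat_lit 18) ?_ Dm_ok v_ty ?_ ?_ v_msc ?_ v_mm v_un v_part v_ok
    n ho hr ?_ hm
  · simp only [List.forall_mem_cons]
    exact ⟨D0_ok, fun _ h => absurd h (by simp)⟩
  · exact all1 (φ := fun j P => ∃ L, tyb P (S.tys.getD j 0) L = true) ⟨_, v_ty0⟩
  · exact all1 (φ := fun j P => Nat.ble (S.pks.getD j 0) (Nat.pow P.p P.K) = true) (by decide +kernel)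
  · exact all1 (φ := fun i P => mvsn (nat_lit 36226650889) S D0 [] Dm (nat_lit 18) i P = true) v_mv0
  · simp only [List.forall_mem_cons]
    exact ⟨h0, fun _ h => absurd h (by simp)⟩

end Pool.Agent.Work.MP_9954fe_nt.P11_13

namespace Pool.Agent.Work.MP_9954fe_nt.P11_17

/-- Dummy move. -/
noncomputable def mz : Mv := ⟨⟨0, 0, 0, 0, 0, 0, 0, 0, 0⟩, .nil, (nat_lit 0), (nat_lit 0), (nat_lit 0), (nat_lit 0), (0, 0, 0), [], 0⟩

/-- Moves. -/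
noncomputable def t0_1 : List Mv := [
  ⟨⟨3, 8, -11, -10, -1, 0, 4, -4, -11⟩, (.cons (nat_lit 15242817) (nat_lit 6282365) (nat_lit 2311098) (nat_lit 1) .nil), (nat_lit 15), (nat_lit 11), (nat_lit 0), (nat_lit 1), (4, 5, 9), [14831522], 5⟩,
  ⟨⟨3, 8, -11, 10, 1, 0, 4, -4, -11⟩, (.cons (nat_lit 6190604) (nat_lit 17063049) (nat_lit 6190617) (nat_lit 1) .nil), (nat_lit 10), (nat_lit 3), (nat_lit 10), (nat_lit 1), (4, 6, 9), [1], 1⟩,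
  ⟨⟨1, -12, 0, 10, 1, 0, 4, -4, -11⟩, (.cons (nat_lit 13486901) (nat_lit 18743973) (nat_lit 18743974) (nat_lit 1) .nil), (nat_lit 0), (nat_lit 6), (nat_lit 6), (nat_lit 1), (5, 6, 9), [4149452], 5⟩,
  ⟨⟨1, -12, 0, -10, -1, 0, 4, -4, -11⟩, (.cons (nat_lit 10749318) (nat_lit 19050803) (nat_lit 10749329) (nat_lit 1) .nil), (nat_lit 16), (nat_lit 5), (nat_lit 9), (nat_lit 1), (5, 5, 9), [14450835], 4⟩,
  ⟨⟨1, -12, 0, -10, -1, 0, 4, -4, -11⟩, (.cons (nat_lit 10749318) (nat_lit 19050803) (nat_lit 10749329) (nat_lit 1) .nil), (nat_lit 16), (nat_lit 5), (nat_lit 9), (nat_lit 1), (5, 5, 9), [14450835], 4⟩,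
  ⟨⟨1, -12, 0, 10, 1, 0, 4, -4, -11⟩, (.cons (nat_lit 13486901) (nat_lit 18743973) (nat_lit 18743974) (nat_lit 1) .nil), (nat_lit 0), (nat_lit 6), (nat_lit 6), (nat_lit 1), (5, 6, 9), [4149452], 5⟩,
  ⟨⟨1, -12, 0, -10, -1, 0, 4, -4, -11⟩, (.cons (nat_lit 10749318) (nat_lit 19050803) (nat_lit 10749329) (nat_lit 1) .nil), (nat_lit 16), (nat_lit 5), (nat_lit 9), (nat_lit 1), (5, 5, 9), [14450835], 4⟩,
  ⟨⟨3, 8, -11, 10, 1, 0, 4, -4, -11⟩, (.cons (nat_lit 6190604) (nat_lit 17063049) (nat_lit 6190617) (nat_lit 1) .nil), (nat_lit 10), (nat_lit 3), (nat_lit 10), (nat_lit 1), (4, 6, 9), [1], 1⟩,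
  ⟨⟨1, -12, 0, -10, -1, 0, 4, -4, -11⟩, (.cons (nat_lit 10749318) (nat_lit 19050803) (nat_lit 10749329) (nat_lit 1) .nil), (nat_lit 16), (nat_lit 5), (nat_lit 9), (nat_lit 1), (5, 5, 9), [14450835], 4⟩,
  ⟨⟨3, 8, -11, -10, -1, 0, 4, -4, -11⟩, (.cons (nat_lit 15242817) (nat_lit 6282365) (nat_lit 2311098) (nat_lit 1) .nil), (nat_lit 15), (nat_lit 11), (nat_lit 0), (nat_lit 1), (4, 5, 9), [14831522], 5⟩,
  ⟨⟨1, -12, 0, -10, -1, 0, 4, -4, -11⟩, (.cons (nat_lit 10749318) (nat_lit 19050803) (nat_lit 10749329) (nat_lit 1) .nil), (nat_lit 16), (nat_lit 5), (nat_lit 9), (nat_lit 1), (5, 5, 9), [14450835], 4⟩]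

/-- Moves. -/
noncomputable def t0_4 : List Mv := [
  ⟨⟨-11, 0, 0, -4, 5, 12, -2, 8, -5⟩, (.cons (nat_lit 4611151) (nat_lit 18672974) (nat_lit 10896376) (nat_lit 1) .nil), (nat_lit 16), (nat_lit 3), (nat_lit 0), (nat_lit 1), (0, 5, 8), [13330250], 6⟩,
  ⟨⟨9, 8, -5, 4, -5, -12, -2, 8, -5⟩, (.cons (nat_lit 6586237) (nat_lit 5980849) (nat_lit 18545247) (nat_lit 1) .nil), (nat_lit 0), (nat_lit 5), (nat_lit 11), (nat_lit 1), (8, 6, 8), [4509665], 7⟩,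
  ⟨⟨9, 8, -5, 4, -5, -12, -2, 8, -5⟩, (.cons (nat_lit 6586237) (nat_lit 5980849) (nat_lit 18545247) (nat_lit 1) .nil), (nat_lit 0), (nat_lit 5), (nat_lit 11), (nat_lit 1), (8, 6, 8), [4509665], 7⟩,
  ⟨⟨9, 8, -5, 4, -5, -12, -2, 8, -5⟩, (.cons (nat_lit 6586237) (nat_lit 5980849) (nat_lit 18545247) (nat_lit 1) .nil), (nat_lit 0), (nat_lit 5), (nat_lit 11), (nat_lit 1), (8, 6, 8), [4509665], 7⟩,
  ⟨⟨9, 8, -5, -4, 5, 12, -2, 8, -5⟩, (.cons (nat_lit 19404713) (nat_lit 11515759) (nat_lit 5642825) (nat_lit 1) .nil), (nat_lit 14), (nat_lit 6), (nat_lit 10), (nat_lit 1), (8, 5, 8), [18598650], 13⟩,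
  ⟨⟨-11, 0, 0, 4, -5, -12, -2, 8, -5⟩, (.cons (nat_lit 14857472) (nat_lit 1937884) (nat_lit 16472565) (nat_lit 1) .nil), (nat_lit 8), (nat_lit 11), (nat_lit 8), (nat_lit 1), (0, 6, 8), [9454230], 13⟩,
  ⟨⟨9, 8, -5, 4, -5, -12, -2, 8, -5⟩, (.cons (nat_lit 6586237) (nat_lit 5980849) (nat_lit 18545247) (nat_lit 1) .nil), (nat_lit 0), (nat_lit 5), (nat_lit 11), (nat_lit 1), (8, 6, 8), [4509665], 7⟩,
  ⟨⟨9, 8, -5, -4, 5, 12, -2, 8, -5⟩, (.cons (nat_lit 19404713) (nat_lit 11515759) (nat_lit 5642825) (nat_lit 1) .nil), (nat_lit 14), (nat_lit 6), (nat_lit 10), (nat_lit 1), (8, 5, 8), [18598650], 13⟩,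
  ⟨⟨-11, 0, 0, 4, -5, -12, -2, 8, -5⟩, (.cons (nat_lit 14857472) (nat_lit 1937884) (nat_lit 16472565) (nat_lit 1) .nil), (nat_lit 8), (nat_lit 11), (nat_lit 8), (nat_lit 1), (0, 6, 8), [9454230], 13⟩,
  ⟨⟨9, 8, -5, 4, -5, -12, -2, 8, -5⟩, (.cons (nat_lit 6586237) (nat_lit 5980849) (nat_lit 18545247) (nat_lit 1) .nil), (nat_lit 0), (nat_lit 5), (nat_lit 11), (nat_lit 1), (8, 6, 8), [4509665], 7⟩,
  ⟨⟨9, 8, -5, 4, -5, -12, -2, 8, -5⟩, (.cons (nat_lit 6586237) (nat_lit 5980849) (nat_lit 18545247) (nat_lit 1) .nil), (nat_lit 0), (nat_lit 5), (nat_lit 11), (nat_lit 1), (8, 6, 8), [4509665], 7⟩]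

/-- Moves. -/
noncomputable def t4_1 : List Mv := [
  mz,
  mz,
  mz,
  ⟨⟨13, -12, 0, 10, 13, 0, 10, -4, -17⟩, (.cons (nat_lit 3020758) (nat_lit 15341816) (nat_lit 5212447) (nat_lit 1) .nil), (nat_lit 11), (nat_lit 0), (nat_lit 0), (nat_lit 0), (15, 5, 5), [360671], 0⟩,
  mz,
  ⟨⟨-13, 12, 13, 10, 13, -10, -10, 4, -7⟩, (.cons (nat_lit 13680870) (nat_lit 6340803) (nat_lit 13181836) (nat_lit 1) .nil), (nat_lit 3), (nat_lit 0), (nat_lit 0), (nat_lit 0), (8, 3, 14), [9019485], 0⟩,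
  ⟨⟨-13, -12, 13, 10, -13, -10, -10, -4, -7⟩, (.cons (nat_lit 11565581) (nat_lit 8594856) (nat_lit 7584141) (nat_lit 1) .nil), (nat_lit 3), (nat_lit 0), (nat_lit 0), (nat_lit 0), (3, 16, 1), [1220784], 0⟩,
  ⟨⟨-15, 8, -1, 8, 15, -4, 0, 0, -17⟩, (.cons (nat_lit 19487170) (nat_lit 3207845) (nat_lit 13678978) (nat_lit 1) .nil), (nat_lit 7), (nat_lit 0), (nat_lit 0), (nat_lit 0), (10, 6, 0), [1680022], 0⟩,
  mz,
  ⟨⟨9, -16, -1, -10, -3, 20, -6, -12, -5⟩, (.cons (nat_lit 15128429) (nat_lit 8928713) (nat_lit 14551797) (nat_lit 1) .nil), (nat_lit 13), (nat_lit 0), (nat_lit 0), (nat_lit 0), (2, 11, 10), [2162641], 0⟩,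
  ⟨⟨15, 8, -16, 8, -15, -4, 0, 0, -17⟩, (.cons (nat_lit 4407744) (nat_lit 18257497) (nat_lit 1) (nat_lit 15079427) .nil), (nat_lit 10), (nat_lit 0), (nat_lit 0), (nat_lit 0), (16, 4, 0), [5433277], 0⟩,
  ⟨⟨13, 12, 0, -10, 13, 0, 10, 4, -17⟩, (.cons (nat_lit 5735590) (nat_lit 12680573) (nat_lit 18346972) (nat_lit 1) .nil), (nat_lit 3), (nat_lit 0), (nat_lit 0), (nat_lit 0), (3, 16, 1), [5660693], 0⟩,
  ⟨⟨9, 16, -1, 10, -3, -20, -6, 12, -5⟩, (.cons (nat_lit 7625414) (nat_lit 3921107) (nat_lit 2232851) (nat_lit 1) .nil), (nat_lit 14), (nat_lit 0), (nat_lit 0), (nat_lit 0), (3, 9, 15), [14145698], 0⟩,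
  ⟨⟨-9, 16, 8, -10, -3, -10, 6, 12, -11⟩, (.cons (nat_lit 5431035) (nat_lit 9891064) (nat_lit 9671804) (nat_lit 1) .nil), (nat_lit 14), (nat_lit 0), (nat_lit 0), (nat_lit 0), (13, 5, 14), [8129126], 0⟩,
  ⟨⟨-9, -16, 8, -10, 3, -10, 6, -12, -11⟩, (.cons (nat_lit 19487170) (nat_lit 9637871) (nat_lit 6793376) (nat_lit 1) .nil), (nat_lit 14), (nat_lit 0), (nat_lit 0), (nat_lit 0), (12, 2, 9), [18244409], 0⟩]

/-- Moves. -/
noncomputable def t4_4 : List Mv := [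
  mz,
  mz,
  mz,
  ⟨⟨13, -12, 0, -10, -13, 0, 10, -4, -17⟩, (.cons (nat_lit 19487170) (nat_lit 15852047) (nat_lit 11394804) (nat_lit 1) .nil), (nat_lit 3), (nat_lit 0), (nat_lit 0), (nat_lit 0), (15, 12, 5), [10366149], 0⟩,
  mz,
  ⟨⟨-13, 12, 13, 10, 13, -10, -10, 4, -7⟩, (.cons (nat_lit 13680870) (nat_lit 6340803) (nat_lit 13181836) (nat_lit 1) .nil), (nat_lit 3), (nat_lit 0), (nat_lit 0), (nat_lit 0), (8, 3, 14), [9019485], 0⟩,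
  ⟨⟨-13, -12, 13, -10, 13, 10, -10, -4, -7⟩, (.cons (nat_lit 8306068) (nat_lit 13994939) (nat_lit 18470338) (nat_lit 1) .nil), (nat_lit 11), (nat_lit 0), (nat_lit 0), (nat_lit 0), (3, 1, 1), [5048020], 0⟩,
  ⟨⟨-15, 8, -1, 8, 15, -4, 0, 0, -17⟩, (.cons (nat_lit 19487170) (nat_lit 3207845) (nat_lit 13678978) (nat_lit 1) .nil), (nat_lit 7), (nat_lit 0), (nat_lit 0), (nat_lit 0), (10, 6, 0), [1680022], 0⟩,
  mz,
  ⟨⟨9, -16, -1, 10, 3, -20, -6, -12, -5⟩, (.cons (nat_lit 14219499) (nat_lit 2045302) (nat_lit 11727032) (nat_lit 1) .nil), (nat_lit 14), (nat_lit 0), (nat_lit 0), (nat_lit 0), (2, 6, 10), [3762991], 0⟩,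
  ⟨⟨15, 8, -16, 8, -15, -4, 0, 0, -17⟩, (.cons (nat_lit 4407744) (nat_lit 18257497) (nat_lit 1) (nat_lit 15079427) .nil), (nat_lit 10), (nat_lit 0), (nat_lit 0), (nat_lit 0), (16, 4, 0), [5433277], 0⟩,
  ⟨⟨-3, -8, -17, -10, 13, 0, 10, 4, -17⟩, (.cons (nat_lit 15765553) (nat_lit 6754669) (nat_lit 8202209) (nat_lit 1) .nil), (nat_lit 6), (nat_lit 0), (nat_lit 0), (nat_lit 0), (15, 16, 1), [11896180], 0⟩,
  ⟨⟨9, 16, -1, 10, -3, -20, -6, 12, -5⟩, (.cons (nat_lit 7625414) (nat_lit 3921107) (nat_lit 2232851) (nat_lit 1) .nil), (nat_lit 14), (nat_lit 0), (nat_lit 0), (nat_lit 0), (3, 9, 15), [14145698], 0⟩,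
  ⟨⟨15, -4, -19, -10, -3, -10, 6, 12, -11⟩, (.cons (nat_lit 11263952) (nat_lit 12826239) (nat_lit 3126679) (nat_lit 1) .nil), (nat_lit 9), (nat_lit 0), (nat_lit 0), (nat_lit 0), (1, 5, 14), [11424838], 0⟩,
  ⟨⟨15, 4, -19, -10, 3, -10, 6, -12, -11⟩, (.cons (nat_lit 8155715) (nat_lit 1252044) (nat_lit 2941964) (nat_lit 1) .nil), (nat_lit 9), (nat_lit 0), (nat_lit 0), (nat_lit 0), (14, 2, 9), [15092632], 0⟩]

/-- All the moves. -/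
noncomputable def tabs : List (List (List Mv)) := [[[], t0_1, [], [], t0_4], [], [], [], [[], t4_1, [], [], t4_4]]

/-- Subtrie. -/
noncomputable def T1 : Tr := (.ev (nat_lit 20) (nat_lit 29792) (.nd (nat_lit 32) (.br (nat_lit 5) (.br (nat_lit
 1) (.ch (nat_lit 0) (.ev (nat_lit 48) (nat_lit 2696) .dd)) (.br (nat_lit 2) (.ch (nat_lit 1) (.ev (nat_lit 48)
 (nat_lit 2184) (.ev (nat_lit 61) (nat_lit 512) .dd))) (.ch (nat_lit 2) (.ev (nat_lit 48) (nat_lit 640) (.nd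
 (nat_lit 80) (.br (nat_lit 8) (.br (nat_lit 6) (.ch (nat_lit 2) (.ev (nat_lit 96) (nat_lit 2048) (.ev (nat_lit
 109) (nat_lit 8) .dd))) (.ch (nat_lit 6) (.fin (nat_lit 576462401572389440)))) (.br (nat_lit 9) (.ch (nat_lit
 8) (.ev (nat_lit 96) (nat_lit 8) (.ev (nat_lit 109) (nat_lit 2048) .dd))) (.br (nat_lit 10) (.ch (nat_lit 9)
 (.ev (nat_lit 96) (nat_lit 2048) (.ev (nat_lit 109) (nat_lit 8) .dd))) (.ch (nat_lit 10) (.ev (nat_lit 96)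
 (nat_lit 8) (.ev (nat_lit 109) (nat_lit 2048) .dd))))))))))) (.br (nat_lit 9) (.br (nat_lit 7) (.ch (nat_lit
 5) (.ev (nat_lit 48) (nat_lit 136) (.nd (nat_lit 80) (.br (nat_lit 5) (.br (nat_lit 2) (.ch (nat_lit 1) (.ev
 (nat_lit 116) (nat_lit 2048) (.ev (nat_lit 125) (nat_lit 512) .dd))) (.br (nat_lit 3) (.ch (nat_lit 2) (.ev
 (nat_lit 96) (nat_lit 512) (.ev (nat_lit 109) (nat_lit 2048) .dd))) (.ch (nat_lit 3) (.ev (nat_lit 96)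
 (nat_lit 2048) (.ev (nat_lit 109) (nat_lit 512) .dd))))) (.br (nat_lit 9) (.br (nat_lit 8) (.ch (nat_lit 5)
 (.ev (nat_lit 96) (nat_lit 2048) (.ev (nat_lit 109) (nat_lit 512) .dd))) (.ch (nat_lit 8) (.ev (nat_lit 96)
 (nat_lit 2048) (.ev (nat_lit 109) (nat_lit 512) .dd)))) (.br (nat_lit 10) (.ch (nat_lit 9) (.ev (nat_lit 96)
 (nat_lit 2560) .dd)) (.ch (nat_lit 10) (.nd (nat_lit 160) (.br (nat_lit 6) (.ch (nat_lit 5) (.ev (nat_lit 176)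
 (nat_lit 512) (.ev (nat_lit 189) (nat_lit 2048) .dd))) (.br (nat_lit 9) (.ch (nat_lit 6) (.ev (nat_lit 176)
 (nat_lit 2560) .dd)) (.ch (nat_lit 9) (.fin (nat_lit 576462401569243720))))))))))))) (.ch (nat_lit 7) (.ev
 (nat_lit 48) (nat_lit 2048) (.nd (nat_lit 80) (.br (nat_lit 4) (.br (nat_lit 1) (.ch (nat_lit 0) (.ev (nat_lit
 96) (nat_lit 640) (.ev (nat_lit 109) (nat_lit 8) .dd))) (.br (nat_lit 2) (.ch (nat_lit 1) (.ev (nat_lit 96)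
 (nat_lit 8) (.nd (nat_lit 160) (.br (nat_lit 5) (.ch (nat_lit 2) (.ev (nat_lit 176) (nat_lit 128) (.ev
 (nat_lit 189) (nat_lit 512) .dd))) (.ch (nat_lit 5) (.fin (nat_lit 576458003523781182))))))) (.ch (nat_lit 2)
 (.ev (nat_lit 96) (nat_lit 520) (.ev (nat_lit 109) (nat_lit 128) .dd))))) (.br (nat_lit 9) (.br (nat_lit 5)
 (.ch (nat_lit 4) (.ev (nat_lit 96) (nat_lit 512) (.nd (nat_lit 160) (.br (nat_lit 2) (.ch (nat_lit 0) (.ev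
 (nat_lit 176) (nat_lit 136) .dd)) (.br (nat_lit 10) (.ch (nat_lit 2) (.fin (nat_lit 576464600588304964))) (.ch
 (nat_lit 10) (.ev (nat_lit 176) (nat_lit 128) (.ev (nat_lit 189) (nat_lit 8) .dd)))))))) (.ch (nat_lit 5) (.ev
 (nat_lit 96) (nat_lit 648) .dd))) (.br (nat_lit 10) (.ch (nat_lit 9) (.ev (nat_lit 116) (nat_lit 8) (.ev
 (nat_lit 132) (nat_lit 512) (.ev (nat_lit 141) (nat_lit 128) .dd)))) (.ch (nat_lit 10) (.ev (nat_lit 96)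
 (nat_lit 136) (.ev (nat_lit 109) (nat_lit 512) .dd)))))))))) (.br (nat_lit 10) (.ch (nat_lit 9) (.ev (nat_lit
 48) (nat_lit 8) (.nd (nat_lit 80) (.br (nat_lit 4) (.br (nat_lit 2) (.ch (nat_lit 0) (.ev (nat_lit 96)
 (nat_lit 128) (.ev (nat_lit 116) (nat_lit 512) (.ev (nat_lit 125) (nat_lit 2048) .dd)))) (.br (nat_lit 3) (.ch
 (nat_lit 2) (.ev (nat_lit 96) (nat_lit 2560) (.ev (nat_lit 109) (nat_lit 128) .dd))) (.ch (nat_lit 3) (.ev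
 (nat_lit 96) (nat_lit 2176) (.ev (nat_lit 109) (nat_lit 512) .dd))))) (.br (nat_lit 7) (.br (nat_lit 5) (.ch
 (nat_lit 4) (.ev (nat_lit 96) (nat_lit 128) (.nd (nat_lit 160) (.br (nat_lit 7) (.ch (nat_lit 4) (.ev (nat_lit
 176) (nat_lit 2560) .dd)) (.br (nat_lit 10) (.ch (nat_lit 7) (.ev (nat_lit 176) (nat_lit 2048) (.ev (nat_lit
 189) (nat_lit 512) .dd))) (.ch (nat_lit 10) (.nd (nat_lit 224) (.br (nat_lit 6) (.ch (nat_lit 3) (.ev (nat_lit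
 240) (nat_lit 512) (.ev (nat_lit 253) (nat_lit 2048) .dd))) (.br (nat_lit 9) (.ch (nat_lit 6) (.ev (nat_lit
 240) (nat_lit 2048) (.ev (nat_lit 253) (nat_lit 512) .dd))) (.ch (nat_lit 9) (.fin (nat_lit
 576483292283880024)))))))))))) (.ch (nat_lit 5) (.ev (nat_lit 96) (nat_lit 2688) .dd))) (.br (nat_lit 10) (.ch
 (nat_lit 7) (.ev (nat_lit 96) (nat_lit 2048) (.nd (nat_lit 160) (.br (nat_lit 6) (.br (nat_lit 2) (.ch
 (nat_lit 1) (.ev (nat_lit 176) (nat_lit 512) (.ev (nat_lit 189) (nat_lit 128) .dd))) (.ch (nat_lit 2) (.ev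
 (nat_lit 176) (nat_lit 128) (.ev (nat_lit 189) (nat_lit 512) .dd)))) (.br (nat_lit 7) (.ch (nat_lit 6) (.ev
 (nat_lit 176) (nat_lit 512) (.ev (nat_lit 189) (nat_lit 128) .dd))) (.br (nat_lit 10) (.ch (nat_lit 7) (.ev
 (nat_lit 176) (nat_lit 128) (.ev (nat_lit 189) (nat_lit 512) .dd))) (.ch (nat_lit 10) (.nd (nat_lit 224) (.br
 (nat_lit 8) (.ch (nat_lit 3) (.ev (nat_lit 240) (nat_lit 128) (.ev (nat_lit 253) (nat_lit 512) .dd))) (.ch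
 (nat_lit 8) (.fin (nat_lit 576436013289128508)))))))))))) (.ch (nat_lit 10) (.nd (nat_lit 160) (.br (nat_lit
 9) (.ch (nat_lit 1) (.ev (nat_lit 176) (nat_lit 128) (.nd (nat_lit 224) (.br (nat_lit 8) (.ch (nat_lit 6) (.ev
 (nat_lit 260) (nat_lit 512) (.ev (nat_lit 269) (nat_lit 2048) .dd))) (.ch (nat_lit 8) (.fin (nat_lit
 576363445538472480))))))) (.ch (nat_lit 9) (.nd (nat_lit 224) (.br (nat_lit 8) (.ch (nat_lit 0) (.nd (nat_lit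
 272) (.br (nat_lit 7) (.ch (nat_lit 0) (.ev (nat_lit 288) (nat_lit 512) (.fin (nat_lit 576452505964593736))))
 (.ch (nat_lit 7) (.ev (nat_lit 288) (nat_lit 2048) (.fin (nat_lit 576429416286470780))))))) (.ch (nat_lit 8)
 (.ev (nat_lit 240) (nat_lit 2048) (.ev (nat_lit 260) (nat_lit 512) (.ev (nat_lit 269) (nat_lit 128)
 .dd)))))))))))))))) (.ch (nat_lit 10) (.ev (nat_lit 48) (nat_lit 2048) (.nd (nat_lit 80) (.br (nat_lit 6) (.br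
 (nat_lit 2) (.ch (nat_lit 0) (.ev (nat_lit 96) (nat_lit 520) (.ev (nat_lit 109) (nat_lit 128) .dd))) (.br
 (nat_lit 5) (.ch (nat_lit 2) (.ev (nat_lit 96) (nat_lit 648) .dd)) (.ch (nat_lit 5) (.ev (nat_lit 96) (nat_lit
 136) (.ev (nat_lit 109) (nat_lit 512) .dd))))) (.br (nat_lit 9) (.br (nat_lit 7) (.ch (nat_lit 6) (.ev
 (nat_lit 96) (nat_lit 136) (.ev (nat_lit 109) (nat_lit 512) .dd))) (.ch (nat_lit 7) (.ev (nat_lit 96) (nat_lit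
 640) (.ev (nat_lit 109) (nat_lit 8) .dd)))) (.br (nat_lit 10) (.ch (nat_lit 9) (.nd (nat_lit 160) (.br
 (nat_lit 3) (.br (nat_lit 1) (.ch (nat_lit 0) (.ev (nat_lit 176) (nat_lit 128) (.nd (nat_lit 352) (.ch
 (nat_lit 3) (.nd (nat_lit 384) (.ch (nat_lit 9) (.nd (nat_lit 400) (.br (nat_lit 6) (.ch (nat_lit 0) (.ev
 (nat_lit 416) (nat_lit 8) (.ev (nat_lit 429) (nat_lit 512) .dd))) (.ch (nat_lit 6) (.fin (nat_lit
 576448107928568380))))))))))) (.ch (nat_lit 1) (.ev (nat_lit 176) (nat_lit 136) (.ev (nat_lit 189) (nat_lit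
 512) .dd)))) (.br (nat_lit 5) (.ch (nat_lit 3) (.ev (nat_lit 176) (nat_lit 520) (.ev (nat_lit 189) (nat_lit
 128) .dd))) (.br (nat_lit 8) (.ch (nat_lit 5) (.ev (nat_lit 176) (nat_lit 512) (.nd (nat_lit 224) (.br
 (nat_lit 10) (.ch (nat_lit 6) (.fin (nat_lit 576541566438949424))) (.ch (nat_lit 10) (.ev (nat_lit 240)
 (nat_lit 128) (.ev (nat_lit 253) (nat_lit 8) .dd))))))) (.ch (nat_lit 8) (.ev (nat_lit 176) (nat_lit 520) (.ev
 (nat_lit 189) (nat_lit 128) .dd)))))))) (.ch (nat_lit 10) (.ev (nat_lit 96) (nat_lit 512) (.nd (nat_lit 224)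
 (.ch (nat_lit 7) (.nd (nat_lit 272) (.br (nat_lit 9) (.ch (nat_lit 8) (.fin (nat_lit 576470098175803956)))
 (.ch (nat_lit 9) (.ev (nat_lit 308) (nat_lit 8) (.ev (nat_lit 317) (nat_lit 128) .dd))))))))))))))))))))

/-- Subtrie. -/
noncomputable def T4 : Tr := (.ev (nat_lit 20) (nat_lit 4136) (.nd (nat_lit 32) (.br (nat_lit 5) (.br (nat_lit
 2) (.ch (nat_lit 0) (.ev (nat_lit 48) (nat_lit 17600) (.nd (nat_lit 80) (.br (nat_lit 5) (.br (nat_lit 3) (.ch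
 (nat_lit 2) (.ev (nat_lit 96) (nat_lit 512) (.ev (nat_lit 116) (nat_lit 2048) (.ev (nat_lit 125) (nat_lit
 8192) .dd)))) (.ch (nat_lit 3) (.nd (nat_lit 160) (.br (nat_lit 4) (.ch (nat_lit 1) (.nd (nat_lit 224) (.br
 (nat_lit 4) (.ch (nat_lit 1) (.ev (nat_lit 240) (nat_lit 8192) (.fin (nat_lit 576521775116403296)))) (.ch
 (nat_lit 4) (.ev (nat_lit 260) (nat_lit 2048) (.nd (nat_lit 320) (.ch (nat_lit 9) (.nd (nat_lit 352) (.br
 (nat_lit 9) (.ch (nat_lit 2) (.ev (nat_lit 368) (nat_lit 512) (.ev (nat_lit 381) (nat_lit 8192) .dd))) (.ch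
 (nat_lit 9) (.fin (nat_lit 576461302047130168)))))))))))) (.br (nat_lit 7) (.ch (nat_lit 4) (.ev (nat_lit 176)
 (nat_lit 512) (.ev (nat_lit 196) (nat_lit 8192) (.ev (nat_lit 205) (nat_lit 2048) .dd)))) (.ch (nat_lit 7)
 (.ev (nat_lit 176) (nat_lit 8192) (.fin (nat_lit 576439311837643304))))))))) (.br (nat_lit 7) (.ch (nat_lit 5)
 (.ev (nat_lit 96) (nat_lit 512) (.ev (nat_lit 116) (nat_lit 8192) (.ev (nat_lit 125) (nat_lit 2048) .dd))))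
 (.br (nat_lit 10) (.ch (nat_lit 7) (.ev (nat_lit 96) (nat_lit 8192) (.ev (nat_lit 132) (nat_lit 2048) (.ev
 (nat_lit 141) (nat_lit 512) .dd)))) (.ch (nat_lit 10) (.ev (nat_lit 96) (nat_lit 10240) (.ev (nat_lit 109)
 (nat_lit 512) .dd))))))))) (.br (nat_lit 4) (.ch (nat_lit 2) (.ev (nat_lit 48) (nat_lit 3648) (.nd (nat_lit
 80) (.br (nat_lit 7) (.br (nat_lit 5) (.ch (nat_lit 0) (.ev (nat_lit 96) (nat_lit 8192) (.fin (nat_lit
 576464600600887879)))) (.ch (nat_lit 5) (.ev (nat_lit 96) (nat_lit 16384) (.nd (nat_lit 160) (.br (nat_lit 5)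
 (.ch (nat_lit 3) (.fin (nat_lit 576464600593547841))) (.ch (nat_lit 5) (.ev (nat_lit 176) (nat_lit 128) (.ev
 (nat_lit 189) (nat_lit 8192) .dd)))))))) (.br (nat_lit 9) (.ch (nat_lit 7) (.ev (nat_lit 96) (nat_lit 16384)
 (.ev (nat_lit 116) (nat_lit 128) (.ev (nat_lit 125) (nat_lit 8192) .dd)))) (.br (nat_lit 10) (.ch (nat_lit 9)
 (.ev (nat_lit 96) (nat_lit 8320) (.ev (nat_lit 109) (nat_lit 16384) .dd))) (.ch (nat_lit 10) (.ev (nat_lit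
 116) (nat_lit 8192) (.ev (nat_lit 148) (nat_lit 128) (.ev (nat_lit 157) (nat_lit 16384) .dd)))))))))) (.ch
 (nat_lit 4) (.ev (nat_lit 48) (nat_lit 10880) (.nd (nat_lit 80) (.br (nat_lit 7) (.br (nat_lit 4) (.ch
 (nat_lit 3) (.ev (nat_lit 116) (nat_lit 64) (.ev (nat_lit 148) (nat_lit 1024) (.ev (nat_lit 157) (nat_lit
 16384) .dd)))) (.ch (nat_lit 4) (.ev (nat_lit 96) (nat_lit 1088) (.ev (nat_lit 109) (nat_lit 16384) .dd))))
 (.br (nat_lit 9) (.ch (nat_lit 7) (.ev (nat_lit 96) (nat_lit 16384) (.nd (nat_lit 160) (.br (nat_lit 6) (.ch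
 (nat_lit 1) (.fin (nat_lit 576473396667695699))) (.br (nat_lit 7) (.ch (nat_lit 6) (.ev (nat_lit 176) (nat_lit
 1024) (.ev (nat_lit 189) (nat_lit 64) .dd))) (.ch (nat_lit 7) (.nd (nat_lit 224) (.br (nat_lit 10) (.ch
 (nat_lit 4) (.nd (nat_lit 320) (.ch (nat_lit 1) (.nd (nat_lit 352) (.br (nat_lit 7) (.ch (nat_lit 4) (.ev
 (nat_lit 368) (nat_lit 64) (.ev (nat_lit 381) (nat_lit 1024) .dd))) (.ch (nat_lit 7) (.fin (nat_lit
 576541566438949529)))))))) (.ch (nat_lit 10) (.ev (nat_lit 240) (nat_lit 1024) (.ev (nat_lit 253) (nat_lit 64)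
 .dd))))))))))) (.br (nat_lit 10) (.ch (nat_lit 9) (.nd (nat_lit 160) (.br (nat_lit 9) (.ch (nat_lit 0) (.ev
 (nat_lit 176) (nat_lit 64) (.fin (nat_lit 576470098165318188)))) (.ch (nat_lit 9) (.nd (nat_lit 224) (.br
 (nat_lit 10) (.ch (nat_lit 9) (.ev (nat_lit 240) (nat_lit 64) (.fin (nat_lit 576429416286470631)))) (.ch
 (nat_lit 10) (.ev (nat_lit 240) (nat_lit 1024) (.fin (nat_lit 576474496192954952)))))))))) (.ch (nat_lit 10)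
 (.ev (nat_lit 96) (nat_lit 17408) (.ev (nat_lit 109) (nat_lit 64) .dd))))))))))) (.br (nat_lit 7) (.br
 (nat_lit 6) (.ch (nat_lit 5) (.ev (nat_lit 48) (nat_lit 26816) (.nd (nat_lit 80) (.br (nat_lit 6) (.br
 (nat_lit 3) (.ch (nat_lit 0) (.ev (nat_lit 96) (nat_lit 1536) .dd)) (.ch (nat_lit 3) (.ev (nat_lit 96)
 (nat_lit 1024) (.ev (nat_lit 109) (nat_lit 512) .dd)))) (.br (nat_lit 7) (.ch (nat_lit 6) (.ev (nat_lit 132)
 (nat_lit 1024) (.ev (nat_lit 141) (nat_lit 512) .dd))) (.br (nat_lit 9) (.ch (nat_lit 7) (.ev (nat_lit 96)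
 (nat_lit 512) (.ev (nat_lit 109) (nat_lit 1024) .dd))) (.ch (nat_lit 9) (.nd (nat_lit 160) (.br (nat_lit 10)
 (.ch (nat_lit 7) (.fin (nat_lit 576464600600887868))) (.ch (nat_lit 10) (.ev (nat_lit 176) (nat_lit 512) (.ev
 (nat_lit 189) (nat_lit 1024) .dd)))))))))))) (.ch (nat_lit 6) (.ev (nat_lit 48) (nat_lit 64) (.ev (nat_lit 68)
 (nat_lit 8192) (.nd (nat_lit 80) (.br (nat_lit 5) (.br (nat_lit 3) (.ch (nat_lit 2) (.ev (nat_lit 96) (nat_lit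
 16512) (.nd (nat_lit 160) (.br (nat_lit 7) (.ch (nat_lit 5) (.ev (nat_lit 176) (nat_lit 1536) (.ev (nat_lit
 189) (nat_lit 2048) .dd))) (.br (nat_lit 9) (.ch (nat_lit 7) (.ev (nat_lit 176) (nat_lit 512) (.nd (nat_lit
 224) (.br (nat_lit 5) (.ch (nat_lit 0) (.ev (nat_lit 240) (nat_lit 2048) (.ev (nat_lit 253) (nat_lit 1024)
 .dd))) (.ch (nat_lit 5) (.fin (nat_lit 576449207411884616))))))) (.ch (nat_lit 9) (.ev (nat_lit 212) (nat_lit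
 1024) (.nd (nat_lit 224) (.br (nat_lit 3) (.ch (nat_lit 1) (.ev (nat_lit 240) (nat_lit 512) (.ev (nat_lit 253)
 (nat_lit 2048) .dd))) (.br (nat_lit 10) (.ch (nat_lit 3) (.ev (nat_lit 240) (nat_lit 2048) (.ev (nat_lit 253)
 (nat_lit 512) .dd))) (.ch (nat_lit 10) (.fin (nat_lit 576363445538472480))))))))))))) (.br (nat_lit 4) (.ch
 (nat_lit 3) (.ev (nat_lit 96) (nat_lit 128) (.ev (nat_lit 116) (nat_lit 2048) (.ev (nat_lit 132) (nat_lit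
 1024) (.nd (nat_lit 160) (.br (nat_lit 5) (.ch (nat_lit 0) (.ev (nat_lit 176) (nat_lit 16384) (.ev (nat_lit
 189) (nat_lit 512) .dd))) (.br (nat_lit 7) (.ch (nat_lit 5) (.fin (nat_lit 576465700110418498))) (.ch (nat_lit
 7) (.ev (nat_lit 176) (nat_lit 512) (.ev (nat_lit 189) (nat_lit 16384) .dd)))))))))) (.ch (nat_lit 4) (.ev
 (nat_lit 96) (nat_lit 2560) (.nd (nat_lit 160) (.br (nat_lit 8) (.br (nat_lit 6) (.ch (nat_lit 2) (.ev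
 (nat_lit 176) (nat_lit 1152) (.ev (nat_lit 189) (nat_lit 16384) .dd))) (.ch (nat_lit 6) (.ev (nat_lit 176)
 (nat_lit 16384) (.fin (nat_lit 576486590828200515))))) (.br (nat_lit 9) (.ch (nat_lit 8) (.ev (nat_lit 176)
 (nat_lit 16512) (.ev (nat_lit 189) (nat_lit 1024) .dd))) (.br (nat_lit 10) (.ch (nat_lit 9) (.ev (nat_lit 176)
 (nat_lit 17408) (.ev (nat_lit 189) (nat_lit 128) .dd))) (.ch (nat_lit 10) (.ev (nat_lit 196) (nat_lit 128)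
 (.nd (nat_lit 224) (.br (nat_lit 7) (.ch (nat_lit 5) (.ev (nat_lit 240) (nat_lit 1024) (.ev (nat_lit 253)
 (nat_lit 16384) .dd))) (.ch (nat_lit 7) (.fin (nat_lit 576486590832394835))))))))))))))) (.br (nat_lit 8) (.br
 (nat_lit 6) (.ch (nat_lit 5) (.ev (nat_lit 96) (nat_lit 18944) (.ev (nat_lit 116) (nat_lit 128) (.ev (nat_lit
 125) (nat_lit 1024) .dd)))) (.ch (nat_lit 6) (.ev (nat_lit 96) (nat_lit 18560) (.nd (nat_lit 160) (.br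
 (nat_lit 9) (.ch (nat_lit 7) (.ev (nat_lit 196) (nat_lit 512) (.ev (nat_lit 205) (nat_lit 1024) .dd))) (.ch
 (nat_lit 9) (.nd (nat_lit 224) (.br (nat_lit 6) (.ch (nat_lit 1) (.fin (nat_lit 576449207407690296))) (.ch
 (nat_lit 6) (.ev (nat_lit 260) (nat_lit 512) (.ev (nat_lit 269) (nat_lit 1024) .dd))))))))))) (.br (nat_lit
 10) (.ch (nat_lit 8) (.ev (nat_lit 96) (nat_lit 18048) (.ev (nat_lit 109) (nat_lit 2048) .dd))) (.ch (nat_lit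
 10) (.ev (nat_lit 96) (nat_lit 1536) (.nd (nat_lit 224) (.ch (nat_lit 2) (.nd (nat_lit 272) (.br (nat_lit 10)
 (.ch (nat_lit 5) (.nd (nat_lit 320) (.br (nat_lit 9) (.ch (nat_lit 1) (.ev (nat_lit 336) (nat_lit 2048) (.fin
 (nat_lit 576493187990241833)))) (.ch (nat_lit 9) (.ev (nat_lit 336) (nat_lit 16384) (.fin (nat_lit
 576470098156929592))))))) (.ch (nat_lit 10) (.ev (nat_lit 288) (nat_lit 2048) (.ev (nat_lit 308) (nat_lit 128)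
 (.ev (nat_lit 317) (nat_lit 16384) .dd)))))))))))))))))) (.br (nat_lit 8) (.ch (nat_lit 7) (.ev (nat_lit 48)
 (nat_lit 17024) (.nd (nat_lit 80) (.br (nat_lit 4) (.br (nat_lit 2) (.ch (nat_lit 1) (.ev (nat_lit 96)
 (nat_lit 11264) (.ev (nat_lit 109) (nat_lit 64) .dd))) (.br (nat_lit 3) (.ch (nat_lit 2) (.ev (nat_lit 96)
 (nat_lit 8256) (.nd (nat_lit 160) (.br (nat_lit 5) (.ch (nat_lit 2) (.ev (nat_lit 176) (nat_lit 2048) (.ev
 (nat_lit 189) (nat_lit 1024) .dd))) (.ch (nat_lit 5) (.fin (nat_lit 576464600602985028))))))) (.ch (nat_lit 3)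
 (.ev (nat_lit 96) (nat_lit 1088) (.ev (nat_lit 116) (nat_lit 2048) (.ev (nat_lit 125) (nat_lit 8192) .dd))))))
 (.br (nat_lit 9) (.br (nat_lit 5) (.ch (nat_lit 4) (.ev (nat_lit 116) (nat_lit 1024) (.ev (nat_lit 132)
 (nat_lit 8192) (.nd (nat_lit 160) (.br (nat_lit 3) (.br (nat_lit 1) (.ch (nat_lit 0) (.ev (nat_lit 176)
 (nat_lit 64) (.ev (nat_lit 189) (nat_lit 2048) .dd))) (.ch (nat_lit 1) (.ev (nat_lit 176) (nat_lit 2048) (.ev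
 (nat_lit 189) (nat_lit 64) .dd)))) (.br (nat_lit 5) (.ch (nat_lit 3) (.ev (nat_lit 176) (nat_lit 64) (.ev
 (nat_lit 189) (nat_lit 2048) .dd))) (.br (nat_lit 10) (.ch (nat_lit 5) (.fin (nat_lit 576461302055518786)))
 (.ch (nat_lit 10) (.ev (nat_lit 176) (nat_lit 2048) (.ev (nat_lit 189) (nat_lit 64) .dd)))))))))) (.ch
 (nat_lit 5) (.ev (nat_lit 96) (nat_lit 2112) (.ev (nat_lit 116) (nat_lit 8192) (.ev (nat_lit 125) (nat_lit
 1024) .dd))))) (.br (nat_lit 10) (.ch (nat_lit 9) (.ev (nat_lit 96) (nat_lit 3072) (.fin (nat_lit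
 576462401575535161)))) (.ch (nat_lit 10) (.ev (nat_lit 96) (nat_lit 3136) (.ev (nat_lit 109) (nat_lit 8192)
 .dd))))))))) (.ch (nat_lit 8) (.ev (nat_lit 48) (nat_lit 18944) (.nd (nat_lit 80) (.br (nat_lit 3) (.br
 (nat_lit 1) (.ch (nat_lit 0) (.ev (nat_lit 96) (nat_lit 128) (.nd (nat_lit 160) (.br (nat_lit 2) (.ch (nat_lit
 0) (.ev (nat_lit 212) (nat_lit 64) (.nd (nat_lit 224) (.br (nat_lit 6) (.ch (nat_lit 1) (.fin (nat_lit
 576493187805692457))) (.ch (nat_lit 6) (.ev (nat_lit 240) (nat_lit 1024) (.ev (nat_lit 253) (nat_lit 8192)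
 .dd))))))) (.br (nat_lit 9) (.ch (nat_lit 2) (.ev (nat_lit 176) (nat_lit 1024) (.nd (nat_lit 224) (.br
 (nat_lit 7) (.ch (nat_lit 5) (.ev (nat_lit 240) (nat_lit 8192) (.ev (nat_lit 253) (nat_lit 64) .dd))) (.br
 (nat_lit 9) (.ch (nat_lit 7) (.fin (nat_lit 576521775284175447))) (.ch (nat_lit 9) (.ev (nat_lit 240) (nat_lit
 64) (.ev (nat_lit 253) (nat_lit 8192) .dd)))))))) (.ch (nat_lit 9) (.ev (nat_lit 176) (nat_lit 8192) (.fin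
 (nat_lit 576452505945719340))))))))) (.br (nat_lit 2) (.ch (nat_lit 1) (.ev (nat_lit 96) (nat_lit 1152) (.ev
 (nat_lit 116) (nat_lit 8192) (.ev (nat_lit 125) (nat_lit 64) .dd)))) (.ch (nat_lit 2) (.ev (nat_lit 96)
 (nat_lit 64) (.nd (nat_lit 160) (.br (nat_lit 4) (.br (nat_lit 1) (.ch (nat_lit 0) (.ev (nat_lit 176) (nat_lit
 9216) (.ev (nat_lit 189) (nat_lit 128) .dd))) (.ch (nat_lit 1) (.ev (nat_lit 176) (nat_lit 1152) (.ev (nat_lit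
 189) (nat_lit 8192) .dd)))) (.br (nat_lit 8) (.ch (nat_lit 4) (.ev (nat_lit 176) (nat_lit 8192) (.nd (nat_lit
 352) (.ch (nat_lit 6) (.nd (nat_lit 384) (.ch (nat_lit 2) (.nd (nat_lit 400) (.br (nat_lit 4) (.ch (nat_lit 1)
 (.fin (nat_lit 576381037711934039))) (.ch (nat_lit 4) (.ev (nat_lit 416) (nat_lit 128) (.ev (nat_lit 429)
 (nat_lit 1024) .dd))))))))))) (.br (nat_lit 10) (.ch (nat_lit 8) (.ev (nat_lit 176) (nat_lit 1152) (.ev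
 (nat_lit 189) (nat_lit 8192) .dd))) (.ch (nat_lit 10) (.ev (nat_lit 196) (nat_lit 128) (.nd (nat_lit 224) (.br
 (nat_lit 9) (.ch (nat_lit 2) (.fin (nat_lit 576449207458021949))) (.ch (nat_lit 9) (.ev (nat_lit 240) (nat_lit
 1024) (.ev (nat_lit 253) (nat_lit 8192) .dd))))))))))))))) (.br (nat_lit 6) (.br (nat_lit 4) (.ch (nat_lit 3)
 (.ev (nat_lit 96) (nat_lit 1216) (.ev (nat_lit 109) (nat_lit 8192) .dd))) (.ch (nat_lit 4) (.ev (nat_lit 96)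
 (nat_lit 1088) (.nd (nat_lit 160) (.br (nat_lit 6) (.ch (nat_lit 4) (.nd (nat_lit 224) (.br (nat_lit 8) (.ch
 (nat_lit 6) (.fin (nat_lit 576452505979273812))) (.ch (nat_lit 8) (.ev (nat_lit 260) (nat_lit 8192) (.ev
 (nat_lit 269) (nat_lit 128) .dd)))))) (.ch (nat_lit 6) (.ev (nat_lit 176) (nat_lit 128) (.ev (nat_lit 189)
 (nat_lit 8192) .dd)))))))) (.br (nat_lit 8) (.ch (nat_lit 6) (.ev (nat_lit 96) (nat_lit 8192) (.ev (nat_lit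
 116) (nat_lit 128) (.ev (nat_lit 132) (nat_lit 64) (.ev (nat_lit 141) (nat_lit 1024) .dd))))) (.ch (nat_lit 8)
 (.ev (nat_lit 96) (nat_lit 9344) (.ev (nat_lit 109) (nat_lit 64) .dd))))))))))))))

/-- The trie. -/
noncomputable def T : Tr := .nd (nat_lit 1000000) (.br (nat_lit 4) (.br (nat_lit 1) (.ch (nat_lit 0) (.ev
 (nat_lit 0) (nat_lit 131071) .dd)) (.ch (nat_lit 1) T1)) (.br (nat_lit 5) (.ch (nat_lit 4) T4) (.br (nat_lit
 10) (.ch (nat_lit 5) (.ev (nat_lit 0) (nat_lit 131071) .dd)) (.ch (nat_lit 10) (.ev (nat_lit 0) (nat_lit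
 131071) .dd)))))

/-- The possible values. -/
noncomputable def oks : List ℕ := [3, 31, 58, 133, 466, 1467, 1554, 20403]

/-- The parameters. -/
noncomputable def S : Pr := ⟨fun i l e => lget mz (lget [] (lget [] tabs i) l) e, oks, [(nat_lit 0), (nat_lit
 0), (nat_lit 0), (nat_lit 0), (nat_lit 0), (nat_lit 0), (nat_lit 0)], T, (nat_lit 131071), (nat_lit 98583),
 (nat_lit 17), [(nat_lit 1057)], [(nat_lit 19487171)]⟩

/-- Nothing known. -/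
noncomputable def cs0 : Cs := (.cons (nat_lit 11) (nat_lit 0) (nat_lit 1) .nil)

theorem part_1 : part S cs0 (nat_lit 1) = true := by decide +kernel

theorem part_4 : part S cs0 (nat_lit 4) = true := by decide +kernel

/-- Data of a prime. -/
noncomputable def D0 : PD := ⟨(nat_lit 11), (nat_lit 7), (6190614, 3, 3), (12381250, 14211882, 1830652), (13368790, 19487156, 19487136)⟩

theorem D0_ok : D0.Ok := pdb_sound (s := 1) (C := ⟨⟨9, -6, -17, -1, -14, 8, -4, -1, -1⟩, (9, 10, 7)⟩) (by show Nat.Prime 11; norm_num) (by decide +kernel)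

/-- Lines of the first type. -/
noncomputable def Cl0 : List C1 := [⟨⟨-9, 6, -8, 1, 14, 7, 4, 1, -5⟩, (4, 2, 8)⟩,
  ⟨⟨0, 0, 0, 0, 0, 0, 0, 0, 0⟩, (0, 0, 0)⟩,
  ⟨⟨0, 0, 0, 0, 0, 0, 0, 0, 0⟩, (0, 0, 0)⟩,
  ⟨⟨0, 0, 0, 0, 0, 0, 0, 0, 0⟩, (0, 0, 0)⟩,
  ⟨⟨0, 0, 0, 0, 0, 0, 0, 0, 0⟩, (0, 0, 0)⟩,
  ⟨⟨9, 6, -17, -1, 14, 8, -4, 1, -1⟩, (8, 4, 5)⟩,
  ⟨⟨0, 0, 0, 0, 0, 0, 0, 0, 0⟩, (0, 0, 0)⟩,
  ⟨⟨0, 0, 0, 0, 0, 0, 0, 0, 0⟩, (0, 0, 0)⟩,
  ⟨⟨0, 0, 0, 0, 0, 0, 0, 0, 0⟩, (0, 0, 0)⟩,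
  ⟨⟨0, 0, 0, 0, 0, 0, 0, 0, 0⟩, (0, 0, 0)⟩,
  ⟨⟨-9, -6, -8, 1, -14, 7, 4, -1, -5⟩, (7, 9, 3)⟩]

/-- Data of a prime. -/
noncomputable def Dm : PD := ⟨(nat_lit 17), (nat_lit 2), (154, 6, 5), (89, 107, 202), (117, 260, 284)⟩

theorem Dm_ok : Dm.Ok := pdb_sound (s := 3) (C := ⟨⟨3, 18, -19, -23, -2, 4, 2, -5, -7⟩, (3, 11, 2)⟩) (by show Nat.Prime 17; norm_num) (by decide +kernel)

/-- Lines of the first type. -/
noncomputable def Clm : List C1 := [⟨⟨23, 2, -19, 3, 18, 16, -2, 5, -5⟩, (14, 7, 1)⟩,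
  ⟨⟨3, -18, -19, -23, 2, 4, 2, 5, -7⟩, (1, 15, 12)⟩,
  ⟨⟨-13, 2, -16, -7, 22, 11, 6, 3, -7⟩, (14, 1, 4)⟩,
  ⟨⟨0, 0, 0, 0, 0, 0, 0, 0, 0⟩, (0, 0, 0)⟩,
  ⟨⟨-13, -2, -16, -7, -22, 11, 6, -3, -7⟩, (16, 6, 7)⟩,
  ⟨⟨0, 0, 0, 0, 0, 0, 0, 0, 0⟩, (0, 0, 0)⟩,
  ⟨⟨0, 0, 0, 0, 0, 0, 0, 0, 0⟩, (0, 0, 0)⟩,
  ⟨⟨0, 0, 0, 0, 0, 0, 0, 0, 0⟩, (0, 0, 0)⟩,
  ⟨⟨13, 2, -29, 7, 22, 4, -6, 3, -1⟩, (9, 14, 5)⟩,
  ⟨⟨0, 0, 0, 0, 0, 0, 0, 0, 0⟩, (0, 0, 0)⟩,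
  ⟨⟨0, 0, 0, 0, 0, 0, 0, 0, 0⟩, (0, 0, 0)⟩,
  ⟨⟨0, 0, 0, 0, 0, 0, 0, 0, 0⟩, (0, 0, 0)⟩,
  ⟨⟨0, 0, 0, 0, 0, 0, 0, 0, 0⟩, (0, 0, 0)⟩,
  ⟨⟨0, 0, 0, 0, 0, 0, 0, 0, 0⟩, (0, 0, 0)⟩,
  ⟨⟨0, 0, 0, 0, 0, 0, 0, 0, 0⟩, (0, 0, 0)⟩,
  ⟨⟨23, -2, -19, 3, -18, 16, -2, -5, -5⟩, (16, 8, 6)⟩,
  ⟨⟨13, -2, -29, 7, -22, 4, -6, -3, -1⟩, (11, 2, 8)⟩]

/-- Unit moves. -/
noncomputable def U : List Mv := [mz,
  mz,
  ⟨⟨-1, 0, 1, 0, 1, 0, 0, 0, 1⟩, .nil, (nat_lit 10), (nat_lit 5), (nat_lit 1), (nat_lit 1), (0, 0, 0), [], 6⟩,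
  ⟨⟨1, 0, 0, 0, -1, 0, 0, 0, 1⟩, .nil, (nat_lit 10), (nat_lit 10), (nat_lit 2), (nat_lit 1), (0, 0, 0), [], 10⟩,
  mz,
  mz,
  ⟨⟨-1, 0, 1, 0, -1, 0, 0, 0, 1⟩, .nil, (nat_lit 0), (nat_lit 6), (nat_lit 1), (nat_lit 0), (0, 0, 0), [], 5⟩,
  ⟨⟨-1, 0, 1, 0, -1, 0, 0, 0, 1⟩, .nil, (nat_lit 0), (nat_lit 6), (nat_lit 1), (nat_lit 0), (0, 0, 0), [], 5⟩,
  ⟨⟨1, 0, 0, 0, -1, 0, 0, 0, 1⟩, .nil, (nat_lit 10), (nat_lit 10), (nat_lit 2), (nat_lit 1), (0, 0, 0), [], 10⟩,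
  ⟨⟨-1, 0, 1, 0, 1, 0, 0, 0, 1⟩, .nil, (nat_lit 10), (nat_lit 5), (nat_lit 1), (nat_lit 1), (0, 0, 0), [], 6⟩,
  mz]

theorem v_ty : tyb Dm S.ty1 Clm = true := by decide +kernel

theorem v_ty0 : tyb D0 (S.tys.getD 0 0) Cl0 = true := by decide +kernel

theorem v_msc : mscb S D0 [] Dm (nat_lit 18) = true := by decide +kernel

theorem v_mv0 : mvsn (nat_lit 5631792419) S D0 [] Dm (nat_lit 18) 0 D0 = true := by decide +kernel

theorem v_mm : mmsn (nat_lit 5631792419) S D0 [] Dm (nat_lit 18) = true := by decide +kernel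

theorem v_un : unb S D0 (nat_lit 18) U = true := by decide +kernel

theorem v_ok : okb S.oks [(0, 0, 0), (0, 0, 0), (0, 0, 0), (0, 0, 0), (0, 0, 0), (9, 36, 3), (0, 0, 0), (52, 133, 1)] = true := by decide +kernel

theorem v_part : ∀ d < D0.p, (nat_lit 18).testBit d = true → part S (zc (D0 :: [])) d = true := by
  intro d hd h
  have h1 : ∀ d < 11, (nat_lit 18).testBit d = true → d = 1 ∨ d = 4 := by decide
  rcases h1 d hd h with rfl | rfl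
  · exact part_1
  · exact part_4

theorem main (n : ℕ) (ho : Odd n) (hr : ¬ Rep n) (h0 : Split 11 n) (hm : Split 17 n) :
    n ∈ EE := by
  refine concln (W := nat_lit 5631792419) (S := S) (P0 := D0) (Pl := []) (Pm := Dm) (cn := nat_lit 18) ?_ Dm_ok v_ty ?_ ?_ v_msc ?_ v_mm v_un v_part v_ok
    n ho hr ?_ hm
  · simp only [List.forall_mem_cons]
    exact ⟨D0_ok, fun _ h => absurd h (by simp)⟩
  · exact all1 (φ := fun j P => ∃ L, tyb P (S.tys.getD j 0) L = true) ⟨_, v_ty0⟩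
  · exact all1 (φ := fun j P => Nat.ble (S.pks.getD j 0) (Nat.pow P.p P.K) = true) (by decide +kernel)
  · exact all1 (φ := fun i P => mvsn (nat_lit 5631792419) S D0 [] Dm (nat_lit 18) i P = true) v_mv0
  · simp only [List.forall_mem_cons]
    exact ⟨h0, fun _ h => absurd h (by simp)⟩

end Pool.Agent.Work.MP_9954fe_nt.P11_17

namespace Pool.Agent.Work.MP_9954fe_nt.P11_71_43

/-- Dummy move. -/
noncomputable def mz : Mv := ⟨⟨0, 0, 0, 0, 0, 0, 0, 0, 0⟩, .nil, (nat_lit 0), (nat_lit 0), (nat_lit 0), (nat_lit 0), (0, 0, 0), [], 0⟩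

/-- Moves. -/
noncomputable def t0_1 : List Mv := [
  ⟨⟨3, 8, -11, -10, -1, 0, 4, -4, -11⟩, (.cons (nat_lit 84) (nat_lit 45) (nat_lit 119) (nat_lit 1) (.cons
 (nat_lit 4806) (nat_lit 1674) (nat_lit 1237) (nat_lit 1) .nil)), (nat_lit 1), (nat_lit 10), (nat_lit 36),
 (nat_lit 1), (4, 5, 9), [68, 424], 36⟩,
  ⟨⟨3, 8, -11, 10, 1, 0, 4, -4, -11⟩, (.cons (nat_lit 2) (nat_lit 113) (nat_lit 15) (nat_lit 1) (.cons (nat_lit 3249) (nat_lit 1678) (nat_lit 4640) (nat_lit 1) .nil)), (nat_lit 25), (nat_lit 21), (nat_lit 13), (nat_lit 1), (4, 6, 9), [1, 1922], 24⟩,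
  ⟨⟨1, -12, 0, 10, 1, 0, 4, -4, -11⟩, (.cons (nat_lit 120) (nat_lit 105) (nat_lit 106) (nat_lit 1) (.cons
 (nat_lit 3069) (nat_lit 2353) (nat_lit 4114) (nat_lit 1) .nil)), (nat_lit 18), (nat_lit 22), (nat_lit 13),
 (nat_lit 1), (5, 6, 9), [120, 3147], 24⟩,
  ⟨⟨1, -12, 0, -10, -1, 0, 4, -4, -11⟩, (.cons (nat_lit 41) (nat_lit 79) (nat_lit 52) (nat_lit 1) (.cons
 (nat_lit 5040) (nat_lit 159) (nat_lit 2969) (nat_lit 1) .nil)), (nat_lit 42), (nat_lit 33), (nat_lit 36),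
 (nat_lit 1), (5, 5, 9), [47, 4479], 36⟩,
  ⟨⟨1, -12, 0, -10, -1, 0, 4, -4, -11⟩, (.cons (nat_lit 41) (nat_lit 79) (nat_lit 52) (nat_lit 1) (.cons
 (nat_lit 5040) (nat_lit 159) (nat_lit 2969) (nat_lit 1) .nil)), (nat_lit 42), (nat_lit 33), (nat_lit 36),
 (nat_lit 1), (5, 5, 9), [47, 4479], 36⟩,
  ⟨⟨1, -12, 0, 10, 1, 0, 4, -4, -11⟩, (.cons (nat_lit 120) (nat_lit 105) (nat_lit 106) (nat_lit 1) (.cons
 (nat_lit 3069) (nat_lit 2353) (nat_lit 4114) (nat_lit 1) .nil)), (nat_lit 18), (nat_lit 22), (nat_lit 13),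
 (nat_lit 1), (5, 6, 9), [120, 3147], 24⟩,
  ⟨⟨1, -12, 0, -10, -1, 0, 4, -4, -11⟩, (.cons (nat_lit 41) (nat_lit 79) (nat_lit 52) (nat_lit 1) (.cons
 (nat_lit 5040) (nat_lit 159) (nat_lit 2969) (nat_lit 1) .nil)), (nat_lit 42), (nat_lit 33), (nat_lit 36),
 (nat_lit 1), (5, 5, 9), [47, 4479], 36⟩,
  ⟨⟨3, 8, -11, 10, 1, 0, 4, -4, -11⟩, (.cons (nat_lit 2) (nat_lit 113) (nat_lit 15) (nat_lit 1) (.cons (nat_lit 3249) (nat_lit 1678) (nat_lit 4640) (nat_lit 1) .nil)), (nat_lit 25), (nat_lit 21), (nat_lit 13), (nat_lit 1), (4, 6, 9), [1, 1922], 24⟩,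
  ⟨⟨1, -12, 0, -10, -1, 0, 4, -4, -11⟩, (.cons (nat_lit 41) (nat_lit 79) (nat_lit 52) (nat_lit 1) (.cons
 (nat_lit 5040) (nat_lit 159) (nat_lit 2969) (nat_lit 1) .nil)), (nat_lit 42), (nat_lit 33), (nat_lit 36),
 (nat_lit 1), (5, 5, 9), [47, 4479], 36⟩,
  ⟨⟨3, 8, -11, -10, -1, 0, 4, -4, -11⟩, (.cons (nat_lit 84) (nat_lit 45) (nat_lit 119) (nat_lit 1) (.cons
 (nat_lit 4806) (nat_lit 1674) (nat_lit 1237) (nat_lit 1) .nil)), (nat_lit 1), (nat_lit 10), (nat_lit 36),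
 (nat_lit 1), (4, 5, 9), [68, 424], 36⟩,
  ⟨⟨1, -12, 0, -10, -1, 0, 4, -4, -11⟩, (.cons (nat_lit 41) (nat_lit 79) (nat_lit 52) (nat_lit 1) (.cons
 (nat_lit 5040) (nat_lit 159) (nat_lit 2969) (nat_lit 1) .nil)), (nat_lit 42), (nat_lit 33), (nat_lit 36),
 (nat_lit 1), (5, 5, 9), [47, 4479], 36⟩]

/-- Moves. -/
noncomputable def t0_4 : List Mv := [
  ⟨⟨-11, 0, 0, -4, 5, 12, -2, 8, -5⟩, (.cons (nat_lit 83) (nat_lit 12) (nat_lit 84) (nat_lit 1) (.cons (nat_lit 5040) (nat_lit 4958) (nat_lit 1033) (nat_lit 1) .nil)), (nat_lit 42), (nat_lit 12), (nat_lit 34), (nat_lit 1), (0, 5, 8), [43, 451], 16⟩,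
  ⟨⟨9, 8, -5, 4, -5, -12, -2, 8, -5⟩, (.cons (nat_lit 86) (nat_lit 61) (nat_lit 61) (nat_lit 1) (.cons (nat_lit 1543) (nat_lit 1942) (nat_lit 1497) (nat_lit 1) .nil)), (nat_lit 7), (nat_lit 4), (nat_lit 25), (nat_lit 1), (8, 6, 8), [116, 3040], 9⟩,
  ⟨⟨9, 8, -5, 4, -5, -12, -2, 8, -5⟩, (.cons (nat_lit 86) (nat_lit 61) (nat_lit 61) (nat_lit 1) (.cons (nat_lit 1543) (nat_lit 1942) (nat_lit 1497) (nat_lit 1) .nil)), (nat_lit 7), (nat_lit 4), (nat_lit 25), (nat_lit 1), (8, 6, 8), [116, 3040], 9⟩,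
  ⟨⟨9, 8, -5, 4, -5, -12, -2, 8, -5⟩, (.cons (nat_lit 86) (nat_lit 61) (nat_lit 61) (nat_lit 1) (.cons (nat_lit 1543) (nat_lit 1942) (nat_lit 1497) (nat_lit 1) .nil)), (nat_lit 7), (nat_lit 4), (nat_lit 25), (nat_lit 1), (8, 6, 8), [116, 3040], 9⟩,
  ⟨⟨9, 8, -5, -4, 5, 12, -2, 8, -5⟩, (.cons (nat_lit 64) (nat_lit 68) (nat_lit 111) (nat_lit 1) (.cons (nat_lit 1554) (nat_lit 4397) (nat_lit 1866) (nat_lit 1) .nil)), (nat_lit 1), (nat_lit 31), (nat_lit 34), (nat_lit 1), (8, 5, 8), [103, 1828], 16⟩,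
  ⟨⟨-11, 0, 0, 4, -5, -12, -2, 8, -5⟩, (.cons (nat_lit 3) (nat_lit 69) (nat_lit 109) (nat_lit 1) (.cons (nat_lit 987) (nat_lit 2474) (nat_lit 3509) (nat_lit 1) .nil)), (nat_lit 36), (nat_lit 39), (nat_lit 25), (nat_lit 1), (0, 6, 8), [16, 1488], 9⟩,
  ⟨⟨9, 8, -5, 4, -5, -12, -2, 8, -5⟩, (.cons (nat_lit 86) (nat_lit 61) (nat_lit 61) (nat_lit 1) (.cons (nat_lit 1543) (nat_lit 1942) (nat_lit 1497) (nat_lit 1) .nil)), (nat_lit 7), (nat_lit 4), (nat_lit 25), (nat_lit 1), (8, 6, 8), [116, 3040], 9⟩,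
  ⟨⟨9, 8, -5, -4, 5, 12, -2, 8, -5⟩, (.cons (nat_lit 64) (nat_lit 68) (nat_lit 111) (nat_lit 1) (.cons (nat_lit 1554) (nat_lit 4397) (nat_lit 1866) (nat_lit 1) .nil)), (nat_lit 1), (nat_lit 31), (nat_lit 34), (nat_lit 1), (8, 5, 8), [103, 1828], 16⟩,
  ⟨⟨-11, 0, 0, 4, -5, -12, -2, 8, -5⟩, (.cons (nat_lit 3) (nat_lit 69) (nat_lit 109) (nat_lit 1) (.cons (nat_lit 987) (nat_lit 2474) (nat_lit 3509) (nat_lit 1) .nil)), (nat_lit 36), (nat_lit 39), (nat_lit 25), (nat_lit 1), (0, 6, 8), [16, 1488], 9⟩,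
  ⟨⟨9, 8, -5, 4, -5, -12, -2, 8, -5⟩, (.cons (nat_lit 86) (nat_lit 61) (nat_lit 61) (nat_lit 1) (.cons (nat_lit 1543) (nat_lit 1942) (nat_lit 1497) (nat_lit 1) .nil)), (nat_lit 7), (nat_lit 4), (nat_lit 25), (nat_lit 1), (8, 6, 8), [116, 3040], 9⟩,
  ⟨⟨9, 8, -5, 4, -5, -12, -2, 8, -5⟩, (.cons (nat_lit 86) (nat_lit 61) (nat_lit 61) (nat_lit 1) (.cons (nat_lit 1543) (nat_lit 1942) (nat_lit 1497) (nat_lit 1) .nil)), (nat_lit 7), (nat_lit 4), (nat_lit 25), (nat_lit 1), (8, 6, 8), [116, 3040], 9⟩]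

/-- Moves. -/
noncomputable def t1_1 : List Mv := [
  mz,
  ⟨⟨63, 40, -56, 10, 21, 70, -12, 60, -13⟩, (.cons (nat_lit 120) (nat_lit 54) (nat_lit 26) (nat_lit 1) (.cons
 (nat_lit 4580) (nat_lit 4789) (nat_lit 4651) (nat_lit 1) .nil)), (nat_lit 42), (nat_lit 26), (nat_lit 6),
 (nat_lit 1), (31, 50, 11), [51, 2962], 10⟩,
  mz,
  ⟨⟨65, -24, -72, -4, 55, -48, -10, -40, -49⟩, (.cons (nat_lit 120) (nat_lit 55) (nat_lit 120) (nat_lit 1)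
 (.cons (nat_lit 1440) (nat_lit 3833) (nat_lit 2184) (nat_lit 1) .nil)), (nat_lit 42), (nat_lit 11), (nat_lit
 5), (nat_lit 1), (37, 1, 38), [38, 1772], 20⟩,
  ⟨⟨27, 68, 16, 64, -15, -62, -6, 48, -43⟩, (.cons (nat_lit 83) (nat_lit 13) (nat_lit 24) (nat_lit 1) (.cons
 (nat_lit 4658) (nat_lit 1186) (nat_lit 3642) (nat_lit 1) .nil)), (nat_lit 29), (nat_lit 5), (nat_lit 26),
 (nat_lit 1), (60, 16, 34), [76, 342], 10⟩,
  ⟨⟨-33, 20, -59, -64, -15, 62, -6, -48, -43⟩, (.cons (nat_lit 77) (nat_lit 62) (nat_lit 17) (nat_lit 1) (.cons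
 (nat_lit 828) (nat_lit 2296) (nat_lit 4968) (nat_lit 1) .nil)), (nat_lit 40), (nat_lit 3), (nat_lit 40),
 (nat_lit 1), (23, 36, 30), [34, 2958], 4⟩,
  mz,
  ⟨⟨-29, 72, 20, 56, 25, -68, -38, 16, -35⟩, (.cons (nat_lit 47) (nat_lit 85) (nat_lit 97) (nat_lit 1) (.cons
 (nat_lit 4898) (nat_lit 188) (nat_lit 3186) (nat_lit 1) .nil)), (nat_lit 8), (nat_lit 7), (nat_lit 1),
 (nat_lit 1), (33, 44, 31), [73, 768], 28⟩,
  ⟨⟨3, 40, -76, -64, -25, 12, 26, -32, -67⟩, (.cons (nat_lit 62) (nat_lit 36) (nat_lit 20) (nat_lit 1) (.cons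
 (nat_lit 2626) (nat_lit 27) (nat_lit 185) (nat_lit 1) .nil)), (nat_lit 30), (nat_lit 18), (nat_lit 6),
 (nat_lit 1), (14, 9, 3), [12, 2369], 34⟩,
  mz,
  mz,
  ⟨⟨33, -20, -92, 64, 15, -2, 6, 48, -49⟩, (.cons (nat_lit 72) (nat_lit 55) (nat_lit 81) (nat_lit 1) (.cons
 (nat_lit 3059) (nat_lit 1467) (nat_lit 959) (nat_lit 1) .nil)), (nat_lit 17), (nat_lit 1), (nat_lit 20),
 (nat_lit 1), (67, 3, 38), [102, 2396], 41⟩,
  ⟨⟨-51, -52, -5, 44, -15, -82, -42, 24, -25⟩, (.cons (nat_lit 64) (nat_lit 25) (nat_lit 1) (nat_lit 88) (.cons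
 (nat_lit 2231) (nat_lit 111) (nat_lit 2420) (nat_lit 1) .nil)), (nat_lit 14), (nat_lit 1), (nat_lit 42),
 (nat_lit 1), (61, 49, 21), [114, 4257], 10⟩,
  mz,
  mz,
  ⟨⟨51, -52, -56, -44, -15, -38, 42, 24, -67⟩, (.cons (nat_lit 12) (nat_lit 91) (nat_lit 46) (nat_lit 1) (.cons
 (nat_lit 2153) (nat_lit 1733) (nat_lit 1524) (nat_lit 1) .nil)), (nat_lit 29), (nat_lit 1), (nat_lit 1),
 (nat_lit 1), (24, 67, 49), [96, 2545], 10⟩,
  ⟨⟨17, 24, -89, -36, -55, -12, 54, -24, -53⟩, (.cons (nat_lit 92) (nat_lit 108) (nat_lit 12) (nat_lit 1)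
 (.cons (nat_lit 2888) (nat_lit 4686) (nat_lit 1661) (nat_lit 1) .nil)), (nat_lit 1), (nat_lit 20), (nat_lit
 32), (nat_lit 1), (7, 52, 64), [58, 2295], 4⟩,
  mz,
  ⟨⟨9, 56, -64, -56, -25, -12, 38, -16, -73⟩, (.cons (nat_lit 38) (nat_lit 119) (nat_lit 95) (nat_lit 1) (.cons
 (nat_lit 3600) (nat_lit 115) (nat_lit 2053) (nat_lit 1) .nil)), (nat_lit 33), (nat_lit 35), (nat_lit 26),
 (nat_lit 1), (56, 46, 55), [26, 609], 3⟩,
  ⟨⟨-61, -48, 25, 44, -55, -32, -22, -8, -55⟩, (.cons (nat_lit 65) (nat_lit 39) (nat_lit 93) (nat_lit 1) (.cons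
 (nat_lit 2149) (nat_lit 4607) (nat_lit 2684) (nat_lit 1) .nil)), (nat_lit 1), (nat_lit 8), (nat_lit 1),
 (nat_lit 1), (9, 68, 37), [12, 2507], 24⟩,
  mz,
  mz,
  ⟨⟨37, 48, -73, -36, 55, 48, 54, 24, -1⟩, (.cons (nat_lit 25) (nat_lit 83) (nat_lit 63) (nat_lit 1) (.cons
 (nat_lit 2163) (nat_lit 1758) (nat_lit 3450) (nat_lit 1) .nil)), (nat_lit 1), (nat_lit 23), (nat_lit 11),
 (nat_lit 1), (15, 66, 43), [50, 1386], 39⟩,
  ⟨⟨-61, 48, 25, 44, 55, -32, -22, 8, -55⟩, (.cons (nat_lit 38) (nat_lit 34) (nat_lit 86) (nat_lit 1) (.cons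
 (nat_lit 3039) (nat_lit 4132) (nat_lit 952) (nat_lit 1) .nil)), (nat_lit 7), (nat_lit 1), (nat_lit 17),
 (nat_lit 1), (13, 43, 14), [68, 1355], 21⟩,
  ⟨⟨-39, 40, -41, 44, 55, -12, 22, -8, -77⟩, (.cons (nat_lit 86) (nat_lit 101) (nat_lit 106) (nat_lit 1) (.cons
 (nat_lit 2593) (nat_lit 4782) (nat_lit 1471) (nat_lit 1) .nil)), (nat_lit 37), (nat_lit 6), (nat_lit 16),
 (nat_lit 1), (2, 56, 28), [52, 466], 25⟩,
  mz,
  ⟨⟨51, -4, 40, 10, -69, -20, 60, 12, -49⟩, (.cons (nat_lit 104) (nat_lit 17) (nat_lit 52) (nat_lit 1) (.cons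
 (nat_lit 4832) (nat_lit 4434) (nat_lit 3130) (nat_lit 1) .nil)), (nat_lit 32), (nat_lit 33), (nat_lit 41),
 (nat_lit 1), (60, 41, 33), [38, 4285], 35⟩,
  mz,
  mz,
  ⟨⟨9, 28, -85, 70, -11, -30, -4, -44, -49⟩, (.cons (nat_lit 3) (nat_lit 87) (nat_lit 45) (nat_lit 1) (.cons
 (nat_lit 3285) (nat_lit 1597) (nat_lit 51) (nat_lit 1) .nil)), (nat_lit 5), (nat_lit 12), (nat_lit 17),
 (nat_lit 1), (40, 35, 69), [64, 2494], 18⟩,
  mz,
  ⟨⟨-11, 72, -25, 50, -11, -80, -44, 4, -29⟩, (.cons (nat_lit 81) (nat_lit 92) (nat_lit 106) (nat_lit 1) (.cons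
 (nat_lit 1101) (nat_lit 3638) (nat_lit 3681) (nat_lit 1) .nil)), (nat_lit 26), (nat_lit 32), (nat_lit 31),
 (nat_lit 1), (44, 13, 34), [34, 3560], 42⟩,
  mz,
  ⟨⟨-29, -72, 20, 56, -25, -68, -38, -16, -35⟩, (.cons (nat_lit 41) (nat_lit 97) (nat_lit 27) (nat_lit 1)
 (.cons (nat_lit 1527) (nat_lit 1751) (nat_lit 4229) (nat_lit 1) .nil)), (nat_lit 33), (nat_lit 8), (nat_lit
 17), (nat_lit 1), (27, 36, 6), [86, 3264], 3⟩,
  ⟨⟨75, 20, -32, 10, -21, -80, 12, 60, -25⟩, (.cons (nat_lit 3) (nat_lit 89) (nat_lit 11) (nat_lit 1) (.cons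
 (nat_lit 3179) (nat_lit 4361) (nat_lit 427) (nat_lit 1) .nil)), (nat_lit 22), (nat_lit 25), (nat_lit 5),
 (nat_lit 1), (30, 4, 19), [37, 1161], 40⟩,
  mz,
  ⟨⟨3, -40, -76, -64, 25, 12, 26, 32, -67⟩, (.cons (nat_lit 84) (nat_lit 83) (nat_lit 5) (nat_lit 1) (.cons
 (nat_lit 4667) (nat_lit 156) (nat_lit 1811) (nat_lit 1) .nil)), (nat_lit 8), (nat_lit 5), (nat_lit 10),
 (nat_lit 1), (58, 17, 53), [94, 4447], 28⟩,
  mz,
  ⟨⟨17, -24, -89, 36, -55, 12, 54, 24, -53⟩, (.cons (nat_lit 37) (nat_lit 60) (nat_lit 37) (nat_lit 1) (.cons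
 (nat_lit 2704) (nat_lit 2777) (nat_lit 491) (nat_lit 1) .nil)), (nat_lit 1), (nat_lit 12), (nat_lit 39),
 (nat_lit 1), (5, 44, 66), [113, 4774], 4⟩,
  ⟨⟨-23, -72, 32, 64, -25, -52, -26, -32, -41⟩, (.cons (nat_lit 86) (nat_lit 51) (nat_lit 58) (nat_lit 1)
 (.cons (nat_lit 4464) (nat_lit 2391) (nat_lit 1952) (nat_lit 1) .nil)), (nat_lit 30), (nat_lit 25), (nat_lit
 37), (nat_lit 1), (21, 28, 33), [27, 4884], 34⟩,
  mz,
  mz,
  ⟨⟨75, 16, -52, 4, -55, -52, 10, 40, -59⟩, (.cons (nat_lit 17) (nat_lit 13) (nat_lit 10) (nat_lit 1) (.cons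
 (nat_lit 4002) (nat_lit 1655) (nat_lit 398) (nat_lit 1) .nil)), (nat_lit 3), (nat_lit 26), (nat_lit 31),
 (nat_lit 1), (5, 5, 48), [84, 642], 5⟩,
  ⟨⟨11, -72, -36, -50, 11, -30, 44, -4, -73⟩, (.cons (nat_lit 108) (nat_lit 54) (nat_lit 49) (nat_lit 1) (.cons
 (nat_lit 4386) (nat_lit 3651) (nat_lit 2553) (nat_lit 1) .nil)), (nat_lit 31), (nat_lit 5), (nat_lit 5),
 (nat_lit 1), (69, 22, 63), [92, 4192], 39⟩,
  ⟨⟨-39, -40, -41, 44, -55, -12, 22, 8, -77⟩, (.cons (nat_lit 54) (nat_lit 14) (nat_lit 43) (nat_lit 1) (.cons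
 (nat_lit 3645) (nat_lit 3408) (nat_lit 2591) (nat_lit 1) .nil)), (nat_lit 1), (nat_lit 5), (nat_lit 36),
 (nat_lit 1), (46, 10, 5), [67, 4733], 24⟩,
  mz,
  ⟨⟨51, 52, -56, -44, 15, -38, 42, -24, -67⟩, (.cons (nat_lit 94) (nat_lit 86) (nat_lit 88) (nat_lit 1) (.cons
 (nat_lit 41) (nat_lit 2210) (nat_lit 3118) (nat_lit 1) .nil)), (nat_lit 17), (nat_lit 29), (nat_lit 17),
 (nat_lit 1), (52, 15, 47), [69, 4733], 41⟩,
  ⟨⟨9, -16, 80, -10, -69, -10, 60, -12, -11⟩, (.cons (nat_lit 120) (nat_lit 42) (nat_lit 71) (nat_lit 1) (.cons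
 (nat_lit 3883) (nat_lit 2036) (nat_lit 2551) (nat_lit 1) .nil)), (nat_lit 42), (nat_lit 21), (nat_lit 29),
 (nat_lit 1), (33, 58, 7), [78, 2277], 34⟩,
  ⟨⟨9, -16, -89, -10, -69, 20, 60, -12, -49⟩, (.cons (nat_lit 96) (nat_lit 24) (nat_lit 51) (nat_lit 1) (.cons
 (nat_lit 3729) (nat_lit 1199) (nat_lit 1664) (nat_lit 1) .nil)), (nat_lit 4), (nat_lit 40), (nat_lit 35),
 (nat_lit 1), (19, 42, 32), [107, 212], 1⟩,
  ⟨⟨9, -56, -64, -56, 25, -12, 38, 16, -73⟩, (.cons (nat_lit 18) (nat_lit 91) (nat_lit 120) (nat_lit 1) (.cons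
 (nat_lit 1617) (nat_lit 4009) (nat_lit 3515) (nat_lit 1) .nil)), (nat_lit 8), (nat_lit 36), (nat_lit 42),
 (nat_lit 1), (4, 54, 9), [116, 4618], 28⟩,
  ⟨⟨-75, 16, 23, 4, 55, 48, -10, 40, -49⟩, (.cons (nat_lit 106) (nat_lit 34) (nat_lit 12) (nat_lit 1) (.cons
 (nat_lit 1533) (nat_lit 4938) (nat_lit 1) (nat_lit 3195) .nil)), (nat_lit 1), (nat_lit 18), (nat_lit 28),
 (nat_lit 1), (26, 45, 65), [96, 3227], 20⟩,
  ⟨⟨9, -76, -20, 44, 15, -82, -42, -24, -25⟩, (.cons (nat_lit 93) (nat_lit 113) (nat_lit 65) (nat_lit 1) (.cons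
 (nat_lit 4198) (nat_lit 2702) (nat_lit 3885) (nat_lit 1) .nil)), (nat_lit 17), (nat_lit 14), (nat_lit 26),
 (nat_lit 1), (1, 68, 19), [37, 2751], 41⟩,
  mz,
  ⟨⟨13, -72, 23, -70, -11, 40, 4, -44, -53⟩, (.cons (nat_lit 42) (nat_lit 36) (nat_lit 101) (nat_lit 1) (.cons
 (nat_lit 3059) (nat_lit 1222) (nat_lit 94) (nat_lit 1) .nil)), (nat_lit 5), (nat_lit 31), (nat_lit 26),
 (nat_lit 1), (14, 12, 48), [15, 4134], 18⟩,
  ⟨⟨9, 16, 80, -10, 69, -10, 60, 12, -11⟩, (.cons (nat_lit 119) (nat_lit 102) (nat_lit 9) (nat_lit 1) (.cons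
 (nat_lit 4177) (nat_lit 2304) (nat_lit 3089) (nat_lit 1) .nil)), (nat_lit 39), (nat_lit 40), (nat_lit 8),
 (nat_lit 1), (58, 46, 8), [101, 28], 42⟩,
  ⟨⟨75, -20, -32, 10, 21, -80, 12, -60, -25⟩, (.cons (nat_lit 120) (nat_lit 42) (nat_lit 90) (nat_lit 1) (.cons
 (nat_lit 2260) (nat_lit 1735) (nat_lit 409) (nat_lit 1) .nil)), (nat_lit 42), (nat_lit 13), (nat_lit 12),
 (nat_lit 1), (52, 59, 14), [73, 1615], 10⟩,
  mz,
  ⟨⟨-11, -72, -25, 50, 11, -80, -44, -4, -29⟩, (.cons (nat_lit 58) (nat_lit 77) (nat_lit 43) (nat_lit 1) (.cons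
 (nat_lit 4149) (nat_lit 3936) (nat_lit 2726) (nat_lit 1) .nil)), (nat_lit 12), (nat_lit 5), (nat_lit 38),
 (nat_lit 1), (38, 8, 10), [95, 3180], 39⟩,
  ⟨⟨-75, -20, 43, 10, -21, 70, -12, -60, -13⟩, (.cons (nat_lit 69) (nat_lit 71) (nat_lit 12) (nat_lit 1) (.cons
 (nat_lit 3667) (nat_lit 170) (nat_lit 3188) (nat_lit 1) .nil)), (nat_lit 41), (nat_lit 36), (nat_lit 10),
 (nat_lit 1), (2, 66, 6), [54, 3947], 31⟩,
  mz,
  mz,
  mz,
  ⟨⟨11, 72, -36, 50, 11, 30, 44, 4, -73⟩, (.cons (nat_lit 59) (nat_lit 37) (nat_lit 29) (nat_lit 1) (.cons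
 (nat_lit 4497) (nat_lit 1862) (nat_lit 1092) (nat_lit 1) .nil)), (nat_lit 25), (nat_lit 20), (nat_lit 18),
 (nat_lit 1), (4, 44, 16), [1, 2716], 37⟩,
  mz,
  ⟨⟨-13, 72, 36, 70, 11, -30, -4, 44, -49⟩, (.cons (nat_lit 80) (nat_lit 65) (nat_lit 100) (nat_lit 1) (.cons
 (nat_lit 370) (nat_lit 1435) (nat_lit 3217) (nat_lit 1) .nil)), (nat_lit 31), (nat_lit 25), (nat_lit 1),
 (nat_lit 1), (35, 30, 49), [108, 1531], 39⟩,
  ⟨⟨75, -16, -52, 4, 55, -52, 10, -40, -59⟩, (.cons (nat_lit 120) (nat_lit 53) (nat_lit 7) (nat_lit 1) (.cons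
 (nat_lit 321) (nat_lit 2803) (nat_lit 1402) (nat_lit 1) .nil)), (nat_lit 42), (nat_lit 32), (nat_lit 38),
 (nat_lit 1), (51, 51, 21), [34, 2546], 20⟩,
  mz,
  ⟨⟨-27, -68, 43, 64, -15, -2, 6, -48, -49⟩, (.cons (nat_lit 9) (nat_lit 100) (nat_lit 40) (nat_lit 1) (.cons
 (nat_lit 4695) (nat_lit 3393) (nat_lit 4644) (nat_lit 1) .nil)), (nat_lit 40), (nat_lit 40), (nat_lit 3),
 (nat_lit 1), (60, 55, 34), [100, 4313], 4⟩,
  ⟨⟨-9, -28, -76, -70, 11, 40, 4, 44, -53⟩, (.cons (nat_lit 97) (nat_lit 3) (nat_lit 90) (nat_lit 1) (.cons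
 (nat_lit 2789) (nat_lit 3617) (nat_lit 2165) (nat_lit 1) .nil)), (nat_lit 31), (nat_lit 18), (nat_lit 42),
 (nat_lit 1), (8, 7, 28), [59, 657], 39⟩,
  ⟨⟨-23, 72, 32, 64, 25, -52, -26, 32, -41⟩, (.cons (nat_lit 91) (nat_lit 12) (nat_lit 61) (nat_lit 1) (.cons
 (nat_lit 4155) (nat_lit 2570) (nat_lit 4905) (nat_lit 1) .nil)), (nat_lit 8), (nat_lit 38), (nat_lit 33),
 (nat_lit 1), (27, 36, 12), [106, 805], 28⟩,
  ⟨⟨17, 24, 72, 36, 55, -48, 54, -24, -1⟩, (.cons (nat_lit 120) (nat_lit 52) (nat_lit 25) (nat_lit 1) (.cons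
 (nat_lit 2263) (nat_lit 3813) (nat_lit 3346) (nat_lit 1) .nil)), (nat_lit 42), (nat_lit 12), (nat_lit 4),
 (nat_lit 1), (30, 51, 41), [48, 2305], 39⟩]

/-- Moves. -/
noncomputable def t1_4 : List Mv := [
  mz,
  ⟨⟨63, 40, -56, 10, 21, 70, -12, 60, -13⟩, (.cons (nat_lit 120) (nat_lit 54) (nat_lit 26) (nat_lit 1) (.cons
 (nat_lit 4580) (nat_lit 4789) (nat_lit 4651) (nat_lit 1) .nil)), (nat_lit 42), (nat_lit 26), (nat_lit 6),
 (nat_lit 1), (31, 50, 11), [51, 2962], 10⟩,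
  mz,
  ⟨⟨65, -24, -72, -4, 55, -48, -10, -40, -49⟩, (.cons (nat_lit 120) (nat_lit 55) (nat_lit 120) (nat_lit 1)
 (.cons (nat_lit 1440) (nat_lit 3833) (nat_lit 2184) (nat_lit 1) .nil)), (nat_lit 42), (nat_lit 11), (nat_lit
 5), (nat_lit 1), (37, 1, 38), [38, 1772], 20⟩,
  ⟨⟨-33, -20, -59, 64, -15, -62, -6, 48, -43⟩, (.cons (nat_lit 5) (nat_lit 89) (nat_lit 10) (nat_lit 1) (.cons
 (nat_lit 1893) (nat_lit 4515) (nat_lit 1336) (nat_lit 1) .nil)), (nat_lit 14), (nat_lit 38), (nat_lit 26),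
 (nat_lit 1), (45, 16, 34), [36, 1111], 10⟩,
  ⟨⟨27, -68, 16, 64, 15, -62, -6, -48, -43⟩, (.cons (nat_lit 112) (nat_lit 48) (nat_lit 66) (nat_lit 1) (.cons
 (nat_lit 3930) (nat_lit 94) (nat_lit 1419) (nat_lit 1) .nil)), (nat_lit 38), (nat_lit 16), (nat_lit 42),
 (nat_lit 1), (7, 35, 30), [23, 3431], 36⟩,
  mz,
  ⟨⟨-29, 72, 20, 56, 25, -68, -38, 16, -35⟩, (.cons (nat_lit 47) (nat_lit 85) (nat_lit 97) (nat_lit 1) (.cons
 (nat_lit 4898) (nat_lit 188) (nat_lit 3186) (nat_lit 1) .nil)), (nat_lit 8), (nat_lit 7), (nat_lit 1),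
 (nat_lit 1), (33, 44, 31), [73, 768], 28⟩,
  ⟨⟨3, 40, -76, 64, 25, -12, 26, -32, -67⟩, (.cons (nat_lit 103) (nat_lit 78) (nat_lit 52) (nat_lit 1) (.cons
 (nat_lit 4214) (nat_lit 2664) (nat_lit 2164) (nat_lit 1) .nil)), (nat_lit 27), (nat_lit 26), (nat_lit 16),
 (nat_lit 1), (14, 62, 3), [57, 1181], 30⟩,
  mz,
  mz,
  ⟨⟨33, -20, -92, 64, 15, -2, 6, 48, -49⟩, (.cons (nat_lit 72) (nat_lit 55) (nat_lit 81) (nat_lit 1) (.cons
 (nat_lit 3059) (nat_lit 1467) (nat_lit 959) (nat_lit 1) .nil)), (nat_lit 17), (nat_lit 1), (nat_lit 20),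
 (nat_lit 1), (67, 3, 38), [102, 2396], 41⟩,
  ⟨⟨9, 76, -20, -44, 15, 82, -42, 24, -25⟩, (.cons (nat_lit 79) (nat_lit 11) (nat_lit 14) (nat_lit 1) (.cons
 (nat_lit 381) (nat_lit 2442) (nat_lit 1190) (nat_lit 1) .nil)), (nat_lit 38), (nat_lit 5), (nat_lit 14),
 (nat_lit 1), (31, 22, 21), [1, 1983], 36⟩,
  mz,
  mz,
  ⟨⟨-9, 76, -11, -44, -15, -38, 42, 24, -67⟩, (.cons (nat_lit 27) (nat_lit 83) (nat_lit 9) (nat_lit 1) (.cons
 (nat_lit 2322) (nat_lit 2751) (nat_lit 2508) (nat_lit 1) .nil)), (nat_lit 14), (nat_lit 42), (nat_lit 1),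
 (nat_lit 1), (25, 67, 49), [58, 1098], 10⟩,
  ⟨⟨17, 24, -89, -36, -55, -12, 54, -24, -53⟩, (.cons (nat_lit 92) (nat_lit 108) (nat_lit 12) (nat_lit 1)
 (.cons (nat_lit 2888) (nat_lit 4686) (nat_lit 1661) (nat_lit 1) .nil)), (nat_lit 1), (nat_lit 20), (nat_lit
 32), (nat_lit 1), (7, 52, 64), [58, 2295], 4⟩,
  mz,
  ⟨⟨9, 56, -64, -56, -25, -12, 38, -16, -73⟩, (.cons (nat_lit 38) (nat_lit 119) (nat_lit 95) (nat_lit 1) (.cons
 (nat_lit 3600) (nat_lit 115) (nat_lit 2053) (nat_lit 1) .nil)), (nat_lit 33), (nat_lit 35), (nat_lit 26),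
 (nat_lit 1), (56, 46, 55), [26, 609], 3⟩,
  ⟨⟨39, 40, -80, 44, -55, -32, -22, -8, -55⟩, (.cons (nat_lit 120) (nat_lit 47) (nat_lit 54) (nat_lit 1) (.cons
 (nat_lit 779) (nat_lit 518) (nat_lit 1106) (nat_lit 1) .nil)), (nat_lit 42), (nat_lit 35), (nat_lit 1),
 (nat_lit 1), (28, 68, 37), [21, 2545], 24⟩,
  mz,
  mz,
  ⟨⟨17, -24, 72, 36, -55, -48, 54, 24, -1⟩, (.cons (nat_lit 8) (nat_lit 89) (nat_lit 83) (nat_lit 1) (.cons
 (nat_lit 808) (nat_lit 4357) (nat_lit 825) (nat_lit 1) .nil)), (nat_lit 8), (nat_lit 32), (nat_lit 15),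
 (nat_lit 1), (28, 5, 43), [21, 516], 28⟩,
  ⟨⟨-61, 48, 25, -44, -55, 32, -22, 8, -55⟩, (.cons (nat_lit 65) (nat_lit 58) (nat_lit 109) (nat_lit 1) (.cons
 (nat_lit 2279) (nat_lit 1410) (nat_lit 3129) (nat_lit 1) .nil)), (nat_lit 1), (nat_lit 38), (nat_lit 7),
 (nat_lit 1), (13, 28, 14), [56, 3777], 24⟩,
  ⟨⟨61, -48, -36, -44, -55, 12, 22, -8, -77⟩, (.cons (nat_lit 120) (nat_lit 80) (nat_lit 87) (nat_lit 1) (.cons
 (nat_lit 3009) (nat_lit 272) (nat_lit 3489) (nat_lit 1) .nil)), (nat_lit 42), (nat_lit 8), (nat_lit 42),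
 (nat_lit 1), (26, 15, 28), [54, 1709], 24⟩,
  mz,
  ⟨⟨51, -4, 40, 10, -69, -20, 60, 12, -49⟩, (.cons (nat_lit 104) (nat_lit 17) (nat_lit 52) (nat_lit 1) (.cons
 (nat_lit 4832) (nat_lit 4434) (nat_lit 3130) (nat_lit 1) .nil)), (nat_lit 32), (nat_lit 33), (nat_lit 41),
 (nat_lit 1), (60, 41, 33), [38, 4285], 35⟩,
  mz,
  mz,
  ⟨⟨-13, -72, 36, 70, -11, -30, -4, -44, -49⟩, (.cons (nat_lit 105) (nat_lit 117) (nat_lit 1) (nat_lit 55)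
 (.cons (nat_lit 1837) (nat_lit 1195) (nat_lit 1) (nat_lit 3195) .nil)), (nat_lit 38), (nat_lit 31), (nat_lit
 17), (nat_lit 1), (29, 35, 69), [2, 4745], 18⟩,
  mz,
  ⟨⟨-33, -68, -4, -50, 11, 80, -44, 4, -29⟩, (.cons (nat_lit 5) (nat_lit 106) (nat_lit 34) (nat_lit 1) (.cons
 (nat_lit 2984) (nat_lit 3737) (nat_lit 3999) (nat_lit 1) .nil)), (nat_lit 25), (nat_lit 23), (nat_lit 25),
 (nat_lit 1), (61, 58, 34), [23, 245], 37⟩,
  mz,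
  ⟨⟨-29, -72, 20, -56, 25, 68, -38, -16, -35⟩, (.cons (nat_lit 85) (nat_lit 84) (nat_lit 59) (nat_lit 1) (.cons
 (nat_lit 3447) (nat_lit 1332) (nat_lit 3344) (nat_lit 1) .nil)), (nat_lit 27), (nat_lit 37), (nat_lit 31),
 (nat_lit 1), (27, 35, 6), [98, 442], 30⟩,
  ⟨⟨-63, 40, 7, 10, -21, -80, 12, 60, -25⟩, (.cons (nat_lit 114) (nat_lit 13) (nat_lit 84) (nat_lit 1) (.cons
 (nat_lit 3531) (nat_lit 156) (nat_lit 4966) (nat_lit 1) .nil)), (nat_lit 21), (nat_lit 18), (nat_lit 5),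
 (nat_lit 1), (60, 4, 19), [105, 4933], 40⟩,
  mz,
  ⟨⟨3, -40, -76, 64, -25, -12, 26, 32, -67⟩, (.cons (nat_lit 104) (nat_lit 13) (nat_lit 70) (nat_lit 1) (.cons
 (nat_lit 554) (nat_lit 3966) (nat_lit 2625) (nat_lit 1) .nil)), (nat_lit 33), (nat_lit 42), (nat_lit 36),
 (nat_lit 1), (58, 54, 53), [114, 531], 3⟩,
  mz,
  ⟨⟨37, 48, 36, 36, -55, 12, 54, 24, -53⟩, (.cons (nat_lit 120) (nat_lit 55) (nat_lit 5) (nat_lit 1) (.cons
 (nat_lit 2394) (nat_lit 323) (nat_lit 3116) (nat_lit 1) .nil)), (nat_lit 42), (nat_lit 31), (nat_lit 39),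
 (nat_lit 1), (61, 44, 66), [6, 4126], 4⟩,
  ⟨⟨-23, -72, 32, 64, -25, -52, -26, -32, -41⟩, (.cons (nat_lit 86) (nat_lit 51) (nat_lit 58) (nat_lit 1)
 (.cons (nat_lit 4464) (nat_lit 2391) (nat_lit 1952) (nat_lit 1) .nil)), (nat_lit 30), (nat_lit 25), (nat_lit
 37), (nat_lit 1), (21, 28, 33), [27, 4884], 34⟩,
  mz,
  mz,
  ⟨⟨-65, 24, -7, -4, 55, 52, 10, 40, -59⟩, (.cons (nat_lit 8) (nat_lit 91) (nat_lit 25) (nat_lit 1) (.cons
 (nat_lit 4971) (nat_lit 535) (nat_lit 2015) (nat_lit 1) .nil)), (nat_lit 1), (nat_lit 25), (nat_lit 15),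
 (nat_lit 1), (43, 66, 48), [94, 679], 20⟩,
  ⟨⟨33, 68, -37, -50, 11, -30, 44, -4, -73⟩, (.cons (nat_lit 119) (nat_lit 35) (nat_lit 1) (nat_lit 22) (.cons
 (nat_lit 4907) (nat_lit 3138) (nat_lit 2453) (nat_lit 1) .nil)), (nat_lit 12), (nat_lit 38), (nat_lit 5),
 (nat_lit 1), (65, 22, 63), [43, 41], 39⟩,
  ⟨⟨-39, -40, -41, 44, -55, -12, 22, 8, -77⟩, (.cons (nat_lit 54) (nat_lit 14) (nat_lit 43) (nat_lit 1) (.cons
 (nat_lit 3645) (nat_lit 3408) (nat_lit 2591) (nat_lit 1) .nil)), (nat_lit 1), (nat_lit 5), (nat_lit 36),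
 (nat_lit 1), (46, 10, 5), [67, 4733], 24⟩,
  mz,
  ⟨⟨51, 52, -56, -44, 15, -38, 42, -24, -67⟩, (.cons (nat_lit 94) (nat_lit 86) (nat_lit 88) (nat_lit 1) (.cons
 (nat_lit 41) (nat_lit 2210) (nat_lit 3118) (nat_lit 1) .nil)), (nat_lit 17), (nat_lit 29), (nat_lit 17),
 (nat_lit 1), (52, 15, 47), [69, 4733], 41⟩,
  ⟨⟨51, 4, -91, 10, 69, 10, 60, -12, -11⟩, (.cons (nat_lit 29) (nat_lit 30) (nat_lit 94) (nat_lit 1) (.cons
 (nat_lit 2037) (nat_lit 4520) (nat_lit 3659) (nat_lit 1) .nil)), (nat_lit 11), (nat_lit 33), (nat_lit 2),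
 (nat_lit 1), (45, 13, 7), [37, 2878], 8⟩,
  ⟨⟨9, -16, -89, 10, 69, -20, 60, -12, -49⟩, (.cons (nat_lit 63) (nat_lit 6) (nat_lit 9) (nat_lit 1) (.cons
 (nat_lit 2301) (nat_lit 4905) (nat_lit 1577) (nat_lit 1) .nil)), (nat_lit 1), (nat_lit 16), (nat_lit 13),
 (nat_lit 1), (19, 29, 32), [34, 10], 9⟩,
  ⟨⟨9, -56, -64, 56, -25, 12, 38, 16, -73⟩, (.cons (nat_lit 18) (nat_lit 89) (nat_lit 16) (nat_lit 1) (.cons
 (nat_lit 3188) (nat_lit 2350) (nat_lit 394) (nat_lit 1) .nil)), (nat_lit 30), (nat_lit 13), (nat_lit 5),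
 (nat_lit 1), (4, 17, 9), [1, 209], 34⟩,
  ⟨⟨-75, 16, 23, -4, -55, -48, -10, 40, -49⟩, (.cons (nat_lit 45) (nat_lit 58) (nat_lit 16) (nat_lit 1) (.cons
 (nat_lit 774) (nat_lit 4292) (nat_lit 1859) (nat_lit 1) .nil)), (nat_lit 40), (nat_lit 26), (nat_lit 12),
 (nat_lit 1), (26, 26, 65), [15, 3192], 5⟩,
  ⟨⟨-51, 52, -5, -44, -15, 82, -42, -24, -25⟩, (.cons (nat_lit 97) (nat_lit 79) (nat_lit 119) (nat_lit 1)
 (.cons (nat_lit 4340) (nat_lit 422) (nat_lit 2221) (nat_lit 1) .nil)), (nat_lit 40), (nat_lit 28), (nat_lit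
 35), (nat_lit 1), (18, 3, 19), [45, 337], 4⟩,
  mz,
  ⟨⟨13, -72, 23, 70, 11, -40, 4, -44, -53⟩, (.cons (nat_lit 110) (nat_lit 78) (nat_lit 61) (nat_lit 1) (.cons
 (nat_lit 4841) (nat_lit 1750) (nat_lit 2908) (nat_lit 1) .nil)), (nat_lit 18), (nat_lit 4), (nat_lit 39),
 (nat_lit 1), (14, 59, 48), [41, 2831], 37⟩,
  ⟨⟨51, -4, -91, 10, -69, 10, 60, 12, -11⟩, (.cons (nat_lit 73) (nat_lit 46) (nat_lit 69) (nat_lit 1) (.cons
 (nat_lit 4597) (nat_lit 3443) (nat_lit 4588) (nat_lit 1) .nil)), (nat_lit 1), (nat_lit 27), (nat_lit 30),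
 (nat_lit 1), (21, 25, 8), [72, 3475], 34⟩,
  ⟨⟨75, -20, -32, -10, -21, 80, 12, -60, -25⟩, (.cons (nat_lit 81) (nat_lit 51) (nat_lit 77) (nat_lit 1) (.cons
 (nat_lit 3993) (nat_lit 2116) (nat_lit 1527) (nat_lit 1) .nil)), (nat_lit 2), (nat_lit 36), (nat_lit 33),
 (nat_lit 1), (52, 12, 14), [31, 4142], 31⟩,
  mz,
  ⟨⟨-33, 68, -4, -50, -11, 80, -44, -4, -29⟩, (.cons (nat_lit 108) (nat_lit 57) (nat_lit 1) (nat_lit 0) (.cons
 (nat_lit 2624) (nat_lit 1676) (nat_lit 853) (nat_lit 1) .nil)), (nat_lit 38), (nat_lit 1), (nat_lit 11),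
 (nat_lit 1), (43, 63, 10), [54, 401], 18⟩,
  ⟨⟨-75, -20, 43, -10, 21, -70, -12, -60, -13⟩, (.cons (nat_lit 78) (nat_lit 18) (nat_lit 1) (nat_lit 110)
 (.cons (nat_lit 2500) (nat_lit 553) (nat_lit 252) (nat_lit 1) .nil)), (nat_lit 1), (nat_lit 13), (nat_lit 31),
 (nat_lit 1), (2, 5, 6), [119, 4292], 10⟩,
  mz,
  mz,
  mz,
  ⟨⟨33, -68, -37, -50, -11, -30, 44, 4, -73⟩, (.cons (nat_lit 49) (nat_lit 51) (nat_lit 12) (nat_lit 1) (.cons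
 (nat_lit 1677) (nat_lit 212) (nat_lit 1812) (nat_lit 1) .nil)), (nat_lit 26), (nat_lit 11), (nat_lit 12),
 (nat_lit 1), (12, 27, 16), [78, 649], 42⟩,
  mz,
  ⟨⟨-13, 72, 36, 70, 11, -30, -4, 44, -49⟩, (.cons (nat_lit 80) (nat_lit 65) (nat_lit 100) (nat_lit 1) (.cons
 (nat_lit 370) (nat_lit 1435) (nat_lit 3217) (nat_lit 1) .nil)), (nat_lit 31), (nat_lit 25), (nat_lit 1),
 (nat_lit 1), (35, 30, 49), [108, 1531], 39⟩,
  ⟨⟨-65, -24, -7, -4, -55, 52, 10, -40, -59⟩, (.cons (nat_lit 78) (nat_lit 74) (nat_lit 83) (nat_lit 1) (.cons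
 (nat_lit 1725) (nat_lit 3750) (nat_lit 1632) (nat_lit 1) .nil)), (nat_lit 14), (nat_lit 23), (nat_lit 4),
 (nat_lit 1), (41, 20, 21), [26, 3542], 34⟩,
  mz,
  ⟨⟨33, 20, -92, 64, -15, -2, 6, -48, -49⟩, (.cons (nat_lit 24) (nat_lit 57) (nat_lit 107) (nat_lit 1) (.cons
 (nat_lit 267) (nat_lit 40) (nat_lit 5010) (nat_lit 1) .nil)), (nat_lit 3), (nat_lit 3), (nat_lit 3), (nat_lit
 1), (45, 55, 34), [40, 1507], 4⟩,
  ⟨⟨-9, -28, -76, 70, -11, -40, 4, 44, -53⟩, (.cons (nat_lit 0) (nat_lit 23) (nat_lit 28) (nat_lit 1) (.cons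
 (nat_lit 1931) (nat_lit 4697) (nat_lit 4543) (nat_lit 1) .nil)), (nat_lit 17), (nat_lit 26), (nat_lit 28),
 (nat_lit 1), (8, 64, 28), [107, 3028], 42⟩,
  ⟨⟨-23, 72, 32, -64, -25, 52, -26, 32, -41⟩, (.cons (nat_lit 74) (nat_lit 69) (nat_lit 26) (nat_lit 1) (.cons
 (nat_lit 3613) (nat_lit 1694) (nat_lit 1756) (nat_lit 1) .nil)), (nat_lit 33), (nat_lit 1), (nat_lit 7),
 (nat_lit 1), (27, 35, 12), [31, 1902], 3⟩,
  ⟨⟨37, -48, -73, 36, 55, -48, 54, -24, -1⟩, (.cons (nat_lit 36) (nat_lit 18) (nat_lit 120) (nat_lit 1) (.cons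
 (nat_lit 3354) (nat_lit 2953) (nat_lit 944) (nat_lit 1) .nil)), (nat_lit 1), (nat_lit 31), (nat_lit 4),
 (nat_lit 1), (11, 51, 41), [83, 3395], 39⟩]

/-- Moves. -/
noncomputable def t4_1 : List Mv := [
  mz,
  ⟨⟨3, 44, -20, 2, 15, 44, 36, 12, -25⟩, (.cons (nat_lit 81) (nat_lit 102) (nat_lit 42) (nat_lit 1) (.cons
 (nat_lit 745) (nat_lit 3192) (nat_lit 3226) (nat_lit 1) .nil)), (nat_lit 22), (nat_lit 0), (nat_lit 0),
 (nat_lit 0), (36, 24, 2), [45, 250], 0⟩,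
  mz,
  mz,
  ⟨⟨19, 36, -36, 20, 13, 30, 34, -8, -35⟩, (.cons (nat_lit 38) (nat_lit 9) (nat_lit 79) (nat_lit 1) (.cons
 (nat_lit 3592) (nat_lit 2500) (nat_lit 1626) (nat_lit 1) .nil)), (nat_lit 26), (nat_lit 0), (nat_lit 0),
 (nat_lit 0), (14, 17, 16), [101, 4901], 0⟩,
  ⟨⟨33, -32, -28, 2, 15, -46, 36, 12, -11⟩, (.cons (nat_lit 68) (nat_lit 59) (nat_lit 4) (nat_lit 1) (.cons
 (nat_lit 3882) (nat_lit 4654) (nat_lit 1616) (nat_lit 1) .nil)), (nat_lit 21), (nat_lit 0), (nat_lit 0),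
 (nat_lit 0), (19, 22, 9), [36, 3735], 0⟩,
  ⟨⟨-37, -24, 0, 20, -37, 0, 2, -8, -43⟩, (.cons (nat_lit 113) (nat_lit 103) (nat_lit 116) (nat_lit 1) (.cons
 (nat_lit 4780) (nat_lit 2405) (nat_lit 1949) (nat_lit 1) .nil)), (nat_lit 35), (nat_lit 0), (nat_lit 0),
 (nat_lit 0), (12, 40, 4), [100, 2673], 0⟩,
  ⟨⟨33, 8, -53, -20, -27, -20, 30, -24, -13⟩, (.cons (nat_lit 62) (nat_lit 95) (nat_lit 24) (nat_lit 1) (.cons
 (nat_lit 1072) (nat_lit 2194) (nat_lit 2530) (nat_lit 1) .nil)), (nat_lit 36), (nat_lit 0), (nat_lit 0),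
 (nat_lit 0), (32, 21, 33), [26, 3265], 0⟩,
  ⟨⟨-39, -16, -4, 20, -37, -20, -2, 8, -41⟩, (.cons (nat_lit 37) (nat_lit 12) (nat_lit 32) (nat_lit 1) (.cons
 (nat_lit 1383) (nat_lit 1478) (nat_lit 4004) (nat_lit 1) .nil)), (nat_lit 37), (nat_lit 0), (nat_lit 0),
 (nat_lit 0), (6, 30, 40), [38, 1559], 0⟩,
  ⟨⟨47, 0, -20, 0, -43, 0, 18, 0, -47⟩, (.cons (nat_lit 120) (nat_lit 105) (nat_lit 47) (nat_lit 1) (.cons
 (nat_lit 5040) (nat_lit 2618) (nat_lit 719) (nat_lit 1) .nil)), (nat_lit 9), (nat_lit 0), (nat_lit 0),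
 (nat_lit 0), (34, 0, 24), [107, 2588], 0⟩,
  ⟨⟨21, -20, 31, 38, 15, -34, 12, -36, -13⟩, (.cons (nat_lit 60) (nat_lit 46) (nat_lit 54) (nat_lit 1) (.cons
 (nat_lit 2029) (nat_lit 2026) (nat_lit 2535) (nat_lit 1) .nil)), (nat_lit 38), (nat_lit 0), (nat_lit 0),
 (nat_lit 0), (8, 37, 23), [51, 1411], 0⟩,
  mz,
  ⟨⟨-19, -36, -17, 20, 13, -50, -34, 8, -1⟩, (.cons (nat_lit 68) (nat_lit 26) (nat_lit 93) (nat_lit 1) (.cons
 (nat_lit 1970) (nat_lit 2527) (nat_lit 2321) (nat_lit 1) .nil)), (nat_lit 18), (nat_lit 0), (nat_lit 0),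
 (nat_lit 0), (24, 20, 9), [15, 1938], 0⟩,
  ⟨⟨33, 8, 20, 20, 27, -40, 30, -24, -17⟩, (.cons (nat_lit 120) (nat_lit 29) (nat_lit 17) (nat_lit 1) (.cons
 (nat_lit 5040) (nat_lit 4810) (nat_lit 803) (nat_lit 1) .nil)), (nat_lit 13), (nat_lit 0), (nat_lit 0),
 (nat_lit 0), (4, 35, 31), [67, 3747], 0⟩,
  mz,
  mz,
  mz,
  ⟨⟨5, 36, 31, -40, 13, 10, 14, 32, -25⟩, (.cons (nat_lit 90) (nat_lit 25) (nat_lit 113) (nat_lit 1) (.cons
 (nat_lit 905) (nat_lit 2701) (nat_lit 2603) (nat_lit 1) .nil)), (nat_lit 4), (nat_lit 0), (nat_lit 0),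
 (nat_lit 0), (1, 35, 20), [114, 2790], 0⟩,
  ⟨⟨-9, 4, -47, -40, 13, 30, -14, -32, -11⟩, (.cons (nat_lit 105) (nat_lit 53) (nat_lit 36) (nat_lit 1) (.cons
 (nat_lit 3759) (nat_lit 3292) (nat_lit 1332) (nat_lit 1) .nil)), (nat_lit 12), (nat_lit 0), (nat_lit 0),
 (nat_lit 0), (37, 2, 5), [89, 3744], 0⟩,
  mz,
  mz,
  ⟨⟨21, 20, 31, -38, 15, 34, 12, 36, -13⟩, (.cons (nat_lit 72) (nat_lit 8) (nat_lit 19) (nat_lit 1) (.cons
 (nat_lit 3506) (nat_lit 3952) (nat_lit 3215) (nat_lit 1) .nil)), (nat_lit 1), (nat_lit 0), (nat_lit 0),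
 (nat_lit 0), (12, 9, 13), [52, 1132], 0⟩,
  ⟨⟨9, 16, -53, -38, -15, 4, -12, 36, -1⟩, (.cons (nat_lit 73) (nat_lit 25) (nat_lit 29) (nat_lit 1) (.cons
 (nat_lit 1254) (nat_lit 1896) (nat_lit 4852) (nat_lit 1) .nil)), (nat_lit 5), (nat_lit 0), (nat_lit 0),
 (nat_lit 0), (1, 34, 13), [36, 1967], 0⟩,
  mz,
  mz,
  ⟨⟨9, 4, -56, -40, -13, 10, 14, -32, -25⟩, (.cons (nat_lit 64) (nat_lit 110) (nat_lit 74) (nat_lit 1) (.cons
 (nat_lit 2551) (nat_lit 3985) (nat_lit 4041) (nat_lit 1) .nil)), (nat_lit 39), (nat_lit 0), (nat_lit 0),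
 (nat_lit 0), (37, 41, 5), [119, 4922], 0⟩,
  ⟨⟨-5, 36, 36, 40, 13, -30, -14, 32, -11⟩, (.cons (nat_lit 86) (nat_lit 73) (nat_lit 103) (nat_lit 1) (.cons
 (nat_lit 661) (nat_lit 948) (nat_lit 3988) (nat_lit 1) .nil)), (nat_lit 4), (nat_lit 0), (nat_lit 0), (nat_lit
 0), (1, 35, 20), [63, 3595], 0⟩,
  mz,
  mz,
  mz,
  ⟨⟨33, -8, -53, -20, 27, -20, 30, 24, -13⟩, (.cons (nat_lit 114) (nat_lit 99) (nat_lit 66) (nat_lit 1) (.cons
 (nat_lit 3240) (nat_lit 4632) (nat_lit 4159) (nat_lit 1) .nil)), (nat_lit 36), (nat_lit 0), (nat_lit 0),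
 (nat_lit 0), (39, 35, 12), [62, 2636], 0⟩,
  ⟨⟨19, -36, -36, -20, 13, -30, 34, 8, -35⟩, (.cons (nat_lit 28) (nat_lit 86) (nat_lit 87) (nat_lit 1) (.cons
 (nat_lit 3737) (nat_lit 2003) (nat_lit 3026) (nat_lit 1) .nil)), (nat_lit 18), (nat_lit 0), (nat_lit 0),
 (nat_lit 0), (24, 20, 9), [7, 2807], 0⟩,
  mz,
  ⟨⟨-21, -20, 52, 38, -15, -4, -12, -36, -1⟩, (.cons (nat_lit 79) (nat_lit 31) (nat_lit 36) (nat_lit 1) (.cons
 (nat_lit 1468) (nat_lit 1077) (nat_lit 4897) (nat_lit 1) .nil)), (nat_lit 1), (nat_lit 0), (nat_lit 0),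
 (nat_lit 0), (8, 6, 23), [63, 2868], 0⟩,
  ⟨⟨-47, 0, 27, 0, -43, 0, -18, 0, -29⟩, (.cons (nat_lit 41) (nat_lit 86) (nat_lit 114) (nat_lit 1) (.cons (nat_lit 1729) (nat_lit 716) (nat_lit 2157) (nat_lit 1) .nil)), (nat_lit 9), (nat_lit 0), (nat_lit 0), (nat_lit 0), (34, 0, 24), [60, 850], 0⟩,
  ⟨⟨-37, 24, 0, -20, -37, 0, 2, 8, -43⟩, (.cons (nat_lit 15) (nat_lit 28) (nat_lit 75) (nat_lit 1) (.cons
 (nat_lit 4365) (nat_lit 2578) (nat_lit 1823) (nat_lit 1) .nil)), (nat_lit 6), (nat_lit 0), (nat_lit 0),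
 (nat_lit 0), (34, 30, 40), [115, 2056], 0⟩,
  ⟨⟨-3, 32, -37, -20, 27, 40, 30, 24, -17⟩, (.cons (nat_lit 41) (nat_lit 98) (nat_lit 105) (nat_lit 1) (.cons
 (nat_lit 3682) (nat_lit 2415) (nat_lit 308) (nat_lit 1) .nil)), (nat_lit 7), (nat_lit 0), (nat_lit 0),
 (nat_lit 0), (42, 22, 10), [96, 2940], 0⟩,
  ⟨⟨-39, 16, -4, 20, 37, -20, -2, -8, -41⟩, (.cons (nat_lit 120) (nat_lit 4) (nat_lit 73) (nat_lit 1) (.cons
 (nat_lit 5040) (nat_lit 898) (nat_lit 4717) (nat_lit 1) .nil)), (nat_lit 37), (nat_lit 0), (nat_lit 0),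
 (nat_lit 0), (35, 3, 4), [106, 4172], 0⟩,
  ⟨⟨3, -44, -20, -2, 15, -44, 36, -12, -25⟩, (.cons (nat_lit 104) (nat_lit 53) (nat_lit 52) (nat_lit 1) (.cons
 (nat_lit 2833) (nat_lit 3836) (nat_lit 2460) (nat_lit 1) .nil)), (nat_lit 33), (nat_lit 0), (nat_lit 0),
 (nat_lit 0), (10, 22, 34), [67, 4050], 0⟩,
  ⟨⟨-15, -44, 16, 20, -13, -50, -34, -8, -1⟩, (.cons (nat_lit 104) (nat_lit 55) (nat_lit 48) (nat_lit 1) (.cons
 (nat_lit 4132) (nat_lit 2927) (nat_lit 3421) (nat_lit 1) .nil)), (nat_lit 25), (nat_lit 0), (nat_lit 0),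
 (nat_lit 0), (2, 26, 16), [27, 2307], 0⟩,
  mz,
  mz,
  ⟨⟨33, 32, -28, 2, -15, -46, 36, -12, -11⟩, (.cons (nat_lit 75) (nat_lit 113) (nat_lit 85) (nat_lit 1) (.cons
 (nat_lit 223) (nat_lit 947) (nat_lit 2537) (nat_lit 1) .nil)), (nat_lit 21), (nat_lit 0), (nat_lit 0),
 (nat_lit 0), (34, 19, 41), [84, 4457], 0⟩]

/-- Moves. -/
noncomputable def t4_4 : List Mv := [
  mz,
  ⟨⟨33, -32, -5, 2, 15, 44, 36, 12, -25⟩, (.cons (nat_lit 79) (nat_lit 94) (nat_lit 72) (nat_lit 1) (.cons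
 (nat_lit 1399) (nat_lit 1129) (nat_lit 3828) (nat_lit 1) .nil)), (nat_lit 21), (nat_lit 0), (nat_lit 0),
 (nat_lit 0), (9, 24, 2), [10, 1786], 0⟩,
  mz,
  mz,
  ⟨⟨15, -44, 1, 20, 13, 30, 34, -8, -35⟩, (.cons (nat_lit 39) (nat_lit 114) (nat_lit 70) (nat_lit 1) (.cons
 (nat_lit 635) (nat_lit 3846) (nat_lit 543) (nat_lit 1) .nil)), (nat_lit 17), (nat_lit 0), (nat_lit 0),
 (nat_lit 0), (2, 17, 16), [1, 2821], 0⟩,
  ⟨⟨3, 44, 17, 2, 15, -46, 36, 12, -11⟩, (.cons (nat_lit 63) (nat_lit 119) (nat_lit 109) (nat_lit 1) (.cons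
 (nat_lit 3831) (nat_lit 505) (nat_lit 3196) (nat_lit 1) .nil)), (nat_lit 22), (nat_lit 0), (nat_lit 0),
 (nat_lit 0), (33, 22, 9), [17, 3313], 0⟩,
  ⟨⟨39, 16, -43, 20, -37, 0, 2, -8, -43⟩, (.cons (nat_lit 12) (nat_lit 31) (nat_lit 92) (nat_lit 1) (.cons
 (nat_lit 3015) (nat_lit 3652) (nat_lit 1808) (nat_lit 1) .nil)), (nat_lit 8), (nat_lit 0), (nat_lit 0),
 (nat_lit 0), (35, 40, 4), [90, 1734], 0⟩,
  ⟨⟨33, 8, -53, -20, -27, -20, 30, -24, -13⟩, (.cons (nat_lit 62) (nat_lit 95) (nat_lit 24) (nat_lit 1) (.cons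
 (nat_lit 1072) (nat_lit 2194) (nat_lit 2530) (nat_lit 1) .nil)), (nat_lit 36), (nat_lit 0), (nat_lit 0),
 (nat_lit 0), (32, 21, 33), [26, 3265], 0⟩,
  ⟨⟨37, 24, -37, 20, -37, -20, -2, 8, -41⟩, (.cons (nat_lit 111) (nat_lit 68) (nat_lit 73) (nat_lit 1) (.cons
 (nat_lit 525) (nat_lit 3321) (nat_lit 3549) (nat_lit 1) .nil)), (nat_lit 6), (nat_lit 0), (nat_lit 0),
 (nat_lit 0), (34, 30, 40), [46, 1581], 0⟩,
  ⟨⟨47, 0, -20, 0, -43, 0, 18, 0, -47⟩, (.cons (nat_lit 120) (nat_lit 105) (nat_lit 47) (nat_lit 1) (.cons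
 (nat_lit 5040) (nat_lit 2618) (nat_lit 719) (nat_lit 1) .nil)), (nat_lit 9), (nat_lit 0), (nat_lit 0),
 (nat_lit 0), (34, 0, 24), [107, 2588], 0⟩,
  ⟨⟨21, -20, 31, 38, 15, -34, 12, -36, -13⟩, (.cons (nat_lit 60) (nat_lit 46) (nat_lit 54) (nat_lit 1) (.cons
 (nat_lit 2029) (nat_lit 2026) (nat_lit 2535) (nat_lit 1) .nil)), (nat_lit 38), (nat_lit 0), (nat_lit 0),
 (nat_lit 0), (8, 37, 23), [51, 1411], 0⟩,
  mz,
  ⟨⟨-15, 44, 16, 20, 13, -50, -34, 8, -1⟩, (.cons (nat_lit 20) (nat_lit 64) (nat_lit 63) (nat_lit 1) (.cons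
 (nat_lit 3501) (nat_lit 405) (nat_lit 1639) (nat_lit 1) .nil)), (nat_lit 25), (nat_lit 0), (nat_lit 0),
 (nat_lit 0), (28, 20, 9), [30, 3311], 0⟩,
  ⟨⟨33, 8, 20, 20, 27, -40, 30, -24, -17⟩, (.cons (nat_lit 120) (nat_lit 29) (nat_lit 17) (nat_lit 1) (.cons
 (nat_lit 5040) (nat_lit 4810) (nat_lit 803) (nat_lit 1) .nil)), (nat_lit 13), (nat_lit 0), (nat_lit 0),
 (nat_lit 0), (4, 35, 31), [67, 3747], 0⟩,
  mz,
  mz,
  mz,
  ⟨⟨9, -4, -56, 40, -13, -10, 14, 32, -25⟩, (.cons (nat_lit 50) (nat_lit 57) (nat_lit 19) (nat_lit 1) (.cons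
 (nat_lit 5027) (nat_lit 3450) (nat_lit 1556) (nat_lit 1) .nil)), (nat_lit 12), (nat_lit 0), (nat_lit 0),
 (nat_lit 0), (19, 8, 20), [12, 771], 0⟩,
  ⟨⟨-5, -36, 36, 40, -13, -30, -14, -32, -11⟩, (.cons (nat_lit 24) (nat_lit 74) (nat_lit 96) (nat_lit 1) (.cons
 (nat_lit 644) (nat_lit 480) (nat_lit 3741) (nat_lit 1) .nil)), (nat_lit 4), (nat_lit 0), (nat_lit 0), (nat_lit
 0), (11, 41, 5), [4, 3797], 0⟩,
  mz,
  mz,
  ⟨⟨21, 20, 31, 38, -15, -34, 12, 36, -13⟩, (.cons (nat_lit 71) (nat_lit 70) (nat_lit 18) (nat_lit 1) (.cons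
 (nat_lit 4320) (nat_lit 3817) (nat_lit 1985) (nat_lit 1) .nil)), (nat_lit 38), (nat_lit 0), (nat_lit 0),
 (nat_lit 0), (12, 34, 13), [56, 4079], 0⟩,
  ⟨⟨-21, 20, 52, 38, 15, -4, -12, 36, -1⟩, (.cons (nat_lit 3) (nat_lit 57) (nat_lit 116) (nat_lit 1) (.cons
 (nat_lit 2057) (nat_lit 2479) (nat_lit 3115) (nat_lit 1) .nil)), (nat_lit 1), (nat_lit 0), (nat_lit 0),
 (nat_lit 0), (12, 9, 13), [42, 3769], 0⟩,
  mz,
  mz,
  ⟨⟨9, 4, -56, 40, 13, -10, 14, -32, -25⟩, (.cons (nat_lit 115) (nat_lit 21) (nat_lit 15) (nat_lit 1) (.cons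
 (nat_lit 4586) (nat_lit 2799) (nat_lit 4718) (nat_lit 1) .nil)), (nat_lit 12), (nat_lit 0), (nat_lit 0),
 (nat_lit 0), (37, 2, 5), [112, 4759], 0⟩,
  ⟨⟨-9, -4, -47, 40, 13, -30, -14, 32, -11⟩, (.cons (nat_lit 110) (nat_lit 96) (nat_lit 91) (nat_lit 1) (.cons
 (nat_lit 2900) (nat_lit 5030) (nat_lit 3533) (nat_lit 1) .nil)), (nat_lit 39), (nat_lit 0), (nat_lit 0),
 (nat_lit 0), (19, 35, 20), [53, 3828], 0⟩,
  mz,
  mz,
  mz,
  ⟨⟨33, -8, -53, -20, 27, -20, 30, 24, -13⟩, (.cons (nat_lit 114) (nat_lit 99) (nat_lit 66) (nat_lit 1) (.cons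
 (nat_lit 3240) (nat_lit 4632) (nat_lit 4159) (nat_lit 1) .nil)), (nat_lit 36), (nat_lit 0), (nat_lit 0),
 (nat_lit 0), (39, 35, 12), [62, 2636], 0⟩,
  ⟨⟨19, -36, -36, -20, 13, -30, 34, 8, -35⟩, (.cons (nat_lit 28) (nat_lit 86) (nat_lit 87) (nat_lit 1) (.cons
 (nat_lit 3737) (nat_lit 2003) (nat_lit 3026) (nat_lit 1) .nil)), (nat_lit 18), (nat_lit 0), (nat_lit 0),
 (nat_lit 0), (24, 20, 9), [7, 2807], 0⟩,
  mz,
  ⟨⟨-21, -20, 52, -38, 15, 4, -12, -36, -1⟩, (.cons (nat_lit 64) (nat_lit 117) (nat_lit 60) (nat_lit 1) (.cons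
 (nat_lit 4057) (nat_lit 3956) (nat_lit 960) (nat_lit 1) .nil)), (nat_lit 38), (nat_lit 0), (nat_lit 0),
 (nat_lit 0), (8, 37, 23), [4, 2572], 0⟩,
  ⟨⟨-47, 0, 27, 0, -43, 0, -18, 0, -29⟩, (.cons (nat_lit 41) (nat_lit 86) (nat_lit 114) (nat_lit 1) (.cons (nat_lit 1729) (nat_lit 716) (nat_lit 2157) (nat_lit 1) .nil)), (nat_lit 9), (nat_lit 0), (nat_lit 0), (nat_lit 0), (34, 0, 24), [60, 850], 0⟩,
  ⟨⟨-37, 24, 0, -20, -37, 0, 2, 8, -43⟩, (.cons (nat_lit 15) (nat_lit 28) (nat_lit 75) (nat_lit 1) (.cons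
 (nat_lit 4365) (nat_lit 2578) (nat_lit 1823) (nat_lit 1) .nil)), (nat_lit 6), (nat_lit 0), (nat_lit 0),
 (nat_lit 0), (34, 30, 40), [115, 2056], 0⟩,
  ⟨⟨-3, 32, -37, 20, -27, -40, 30, 24, -17⟩, (.cons (nat_lit 69) (nat_lit 66) (nat_lit 44) (nat_lit 1) (.cons
 (nat_lit 2799) (nat_lit 484) (nat_lit 3669) (nat_lit 1) .nil)), (nat_lit 30), (nat_lit 0), (nat_lit 0),
 (nat_lit 0), (42, 21, 10), [58, 3828], 0⟩,
  ⟨⟨-39, 16, -4, 20, 37, -20, -2, -8, -41⟩, (.cons (nat_lit 120) (nat_lit 4) (nat_lit 73) (nat_lit 1) (.cons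
 (nat_lit 5040) (nat_lit 898) (nat_lit 4717) (nat_lit 1) .nil)), (nat_lit 37), (nat_lit 0), (nat_lit 0),
 (nat_lit 0), (35, 3, 4), [106, 4172], 0⟩,
  ⟨⟨3, -44, -20, -2, 15, -44, 36, -12, -25⟩, (.cons (nat_lit 104) (nat_lit 53) (nat_lit 52) (nat_lit 1) (.cons
 (nat_lit 2833) (nat_lit 3836) (nat_lit 2460) (nat_lit 1) .nil)), (nat_lit 33), (nat_lit 0), (nat_lit 0),
 (nat_lit 0), (10, 22, 34), [67, 4050], 0⟩,
  ⟨⟨-19, 36, -17, -20, 13, 50, -34, -8, -1⟩, (.cons (nat_lit 117) (nat_lit 21) (nat_lit 1) (nat_lit 44) (.cons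
 (nat_lit 3892) (nat_lit 2484) (nat_lit 1412) (nat_lit 1) .nil)), (nat_lit 26), (nat_lit 0), (nat_lit 0),
 (nat_lit 0), (14, 17, 16), [1, 903], 0⟩,
  mz,
  mz,
  ⟨⟨33, 32, -28, 2, -15, -46, 36, -12, -11⟩, (.cons (nat_lit 75) (nat_lit 113) (nat_lit 85) (nat_lit 1) (.cons
 (nat_lit 223) (nat_lit 947) (nat_lit 2537) (nat_lit 1) .nil)), (nat_lit 21), (nat_lit 0), (nat_lit 0),
 (nat_lit 0), (34, 19, 41), [84, 4457], 0⟩]

/-- All the moves. -/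
noncomputable def tabs : List (List (List Mv)) := [[[], t0_1, [], [], t0_4], [[], t1_1, [], [], t1_4], [], [], [[], t4_1, [], [], t4_4]]

/-- Subtrie. -/
noncomputable def T1 : Tr := (.ev (nat_lit 20) (nat_lit 4563402753312) (.nd (nat_lit 33) (.br (nat_lit 39) (.br
 (nat_lit 19) (.br (nat_lit 8) (.br (nat_lit 4) (.br (nat_lit 3) (.ch (nat_lit 1) (.ev (nat_lit 52) (nat_lit
 549858709696) (.ev (nat_lit 84) (nat_lit 68719476736) (.ev (nat_lit 276) (nat_lit 262144) (.ev (nat_lit 308)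
 (nat_lit 16) (.ev (nat_lit 1124) (nat_lit 8192) (.ev (nat_lit 1268) (nat_lit 512) (.ev (nat_lit 1488) (nat_lit
 34359738370) (.nd (nat_lit 1888) (.br (nat_lit 5) (.ch (nat_lit 1) (.ev (nat_lit 1904) (nat_lit 275951648768)
 (.ev (nat_lit 1917) (nat_lit 4194304) .dd))) (.br (nat_lit 9) (.ch (nat_lit 5) (.ev (nat_lit 1904) (nat_lit
 4194304) (.fin (nat_lit 576470098152735306)))) (.ch (nat_lit 9) (.ev (nat_lit 1904) (nat_lit 275955843072)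
 .dd))))))))))))) (.ch (nat_lit 3) (.ev (nat_lit 52) (nat_lit 343702373010) (.ev (nat_lit 384) (nat_lit
 585191665728) .dd)))) (.br (nat_lit 5) (.ch (nat_lit 4) (.ev (nat_lit 52) (nat_lit 309237645522) (.ev (nat_lit
 84) (nat_lit 67108864) (.ev (nat_lit 96) (nat_lit 619589284352) .dd)))) (.br (nat_lit 7) (.ch (nat_lit 5) (.ev
 (nat_lit 52) (nat_lit 310317678658) (.ev (nat_lit 308) (nat_lit 68719476736) (.ev (nat_lit 404) (nat_lit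
 33554432) (.ev (nat_lit 692) (nat_lit 8192) (.ev (nat_lit 724) (nat_lit 128) (.ev (nat_lit 948) (nat_lit 512)
 (.ev (nat_lit 1332) (nat_lit 131072) (.ev (nat_lit 1552) (nat_lit 67108864) (.nd (nat_lit 1888) (.ch (nat_lit
 0) (.ev (nat_lit 1920) (nat_lit 549755813904) (.fin (nat_lit 576474496205537872)))))))))))))) (.ch (nat_lit 7)
 (.ev (nat_lit 52) (nat_lit 309338321090) (.ev (nat_lit 352) (nat_lit 619555717648) .dd)))))) (.br (nat_lit 15)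
 (.br (nat_lit 11) (.ch (nat_lit 8) (.ev (nat_lit 52) (nat_lit 1080304256) (.ev (nat_lit 148) (nat_lit
 33554432) (.ev (nat_lit 244) (nat_lit 64) (.ev (nat_lit 276) (nat_lit 68719476736) (.ev (nat_lit 724) (nat_lit
 34359738368) (.ev (nat_lit 1680) (nat_lit 549755813888) (.nd (nat_lit 1888) (.br (nat_lit 10) (.ch (nat_lit 9)
 (.ev (nat_lit 1904) (nat_lit 274945015826) (.ev (nat_lit 1920) (nat_lit 135168) .dd))) (.ch (nat_lit 10) (.ev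
 (nat_lit 1904) (nat_lit 135168) (.ev (nat_lit 1920) (nat_lit 67108880) (.fin (nat_lit
 576462401572389418)))))))))))))) (.br (nat_lit 12) (.ch (nat_lit 11) (.ev (nat_lit 52) (nat_lit 893353198144)
 (.ev (nat_lit 64) (nat_lit 35540840594) .dd))) (.ch (nat_lit 12) (.ev (nat_lit 52) (nat_lit 585227174418) (.ev
 (nat_lit 148) (nat_lit 67108864) (.ev (nat_lit 548) (nat_lit 128) (.ev (nat_lit 1060) (nat_lit 274877906944)
 (.ev (nat_lit 1332) (nat_lit 8192) (.ev (nat_lit 1568) (nat_lit 64) (.nd (nat_lit 1888) (.ch (nat_lit 0) (.ev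
 (nat_lit 1920) (nat_lit 68721573888) (.fin (nat_lit 576474496205537872)))))))))))))) (.br (nat_lit 16) (.ch
 (nat_lit 15) (.ev (nat_lit 52) (nat_lit 549825290258) (.ev (nat_lit 192) (nat_lit 379068748480) .dd))) (.br
 (nat_lit 18) (.ch (nat_lit 16) (.ev (nat_lit 52) (nat_lit 1176514578) (.ev (nat_lit 84) (nat_lit 549755813888)
 (.ev (nat_lit 580) (nat_lit 64) (.ev (nat_lit 916) (nat_lit 4194304) (.ev (nat_lit 980) (nat_lit 512) (.ev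
 (nat_lit 1220) (nat_lit 274877906944) (.ev (nat_lit 1584) (nat_lit 34359738368) (.nd (nat_lit 1888) (.br
 (nat_lit 5) (.ch (nat_lit 1) (.ev (nat_lit 1904) (nat_lit 68719607936) (.ev (nat_lit 1917) (nat_lit 262144)
 .dd))) (.br (nat_lit 9) (.ch (nat_lit 5) (.ev (nat_lit 1904) (nat_lit 393216) (.fin (nat_lit
 576452505952010812)))) (.ch (nat_lit 9) (.ev (nat_lit 1904) (nat_lit 68719739008) (.ev (nat_lit 1917) (nat_lit
 131072) .dd)))))))))))))) (.ch (nat_lit 18) (.ev (nat_lit 52) (nat_lit 274980675794) (.ev (nat_lit 212)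
 (nat_lit 68719476736) (.ev (nat_lit 560) (nat_lit 585193886208) .dd)))))))) (.br (nat_lit 29) (.br (nat_lit
 23) (.br (nat_lit 22) (.ch (nat_lit 19) (.ev (nat_lit 52) (nat_lit 34433413200) (.ev (nat_lit 116) (nat_lit
 549755813888) (.ev (nat_lit 464) (nat_lit 344704811650) .dd)))) (.ch (nat_lit 22) (.ev (nat_lit 52) (nat_lit
 860071800898) (.ev (nat_lit 692) (nat_lit 512) (.ev (nat_lit 1220) (nat_lit 2097152) (.ev (nat_lit 1536)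
 (nat_lit 16) (.nd (nat_lit 1888) (.br (nat_lit 5) (.ch (nat_lit 0) (.ev (nat_lit 1904) (nat_lit 68786585728)
 (.ev (nat_lit 1917) (nat_lit 33554432) .dd))) (.br (nat_lit 10) (.ch (nat_lit 5) (.ev (nat_lit 1904) (nat_lit
 100663296) (.fin (nat_lit 576452505952010812)))) (.ch (nat_lit 10) (.ev (nat_lit 1904) (nat_lit 68753031296)
 (.ev (nat_lit 1917) (nat_lit 67108864) .dd)))))))))))) (.br (nat_lit 24) (.ch (nat_lit 23) (.ev (nat_lit 52)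
 (nat_lit 652904497232) (.ev (nat_lit 84) (nat_lit 4096) (.ev (nat_lit 340) (nat_lit 128) (.ev (nat_lit 432)
 (nat_lit 275989537282) .dd))))) (.br (nat_lit 26) (.ch (nat_lit 24) (.ev (nat_lit 52) (nat_lit 585229275650)
 (.ev (nat_lit 212) (nat_lit 262144) (.ev (nat_lit 704) (nat_lit 343664500944) .dd)))) (.ch (nat_lit 26) (.ev
 (nat_lit 52) (nat_lit 35437810256) (.ev (nat_lit 244) (nat_lit 68719476736) (.ev (nat_lit 288) (nat_lit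
 824736751746) .dd))))))) (.br (nat_lit 34) (.br (nat_lit 31) (.ch (nat_lit 29) (.ev (nat_lit 52) (nat_lit
 860104957954) (.ev (nat_lit 212) (nat_lit 64) (.ev (nat_lit 244) (nat_lit 16) (.ev (nat_lit 372) (nat_lit 128)
 (.ev (nat_lit 548) (nat_lit 68719476736) (.ev (nat_lit 644) (nat_lit 4096) (.ev (nat_lit 1396) (nat_lit
 131072) (.nd (nat_lit 1888) (.br (nat_lit 9) (.br (nat_lit 5) (.ch (nat_lit 0) (.ev (nat_lit 1904) (nat_lit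
 262656) (.ev (nat_lit 1936) (nat_lit 2097152) (.ev (nat_lit 1949) (nat_lit 67108864) .dd)))) (.ch (nat_lit 5)
 (.ev (nat_lit 1904) (nat_lit 69206528) (.ev (nat_lit 1917) (nat_lit 262144) .dd)))) (.br (nat_lit 10) (.ch
 (nat_lit 9) (.ev (nat_lit 1904) (nat_lit 67371520) (.ev (nat_lit 1917) (nat_lit 2097152) .dd))) (.ch (nat_lit
 10) (.ev (nat_lit 1904) (nat_lit 69468160) (.ev (nat_lit 1917) (nat_lit 512) .dd)))))))))))))) (.br (nat_lit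
 33) (.ch (nat_lit 31) (.ev (nat_lit 52) (nat_lit 310414414528) (.ev (nat_lit 612) (nat_lit 549755813888) (.ev
 (nat_lit 980) (nat_lit 4194304) (.ev (nat_lit 1428) (nat_lit 8192) (.nd (nat_lit 1888) (.br (nat_lit 2) (.br
 (nat_lit 1) (.ch (nat_lit 0) (.ev (nat_lit 1904) (nat_lit 131090) (.ev (nat_lit 1917) (nat_lit 68719476736)
 .dd))) (.ch (nat_lit 1) (.ev (nat_lit 1904) (nat_lit 68719607810) (.ev (nat_lit 1917) (nat_lit 16) .dd))))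
 (.br (nat_lit 7) (.ch (nat_lit 2) (.ev (nat_lit 1904) (nat_lit 131088) (.ev (nat_lit 1936) (nat_lit
 68719476736) (.ev (nat_lit 1949) (nat_lit 2) .dd)))) (.ch (nat_lit 7) (.ev (nat_lit 1904) (nat_lit
 68719476754) (.ev (nat_lit 1917) (nat_lit 131072) .dd))))))))))) (.ch (nat_lit 33) (.ev (nat_lit 52) (nat_lit
 928791265346) (.ev (nat_lit 340) (nat_lit 4096) (.ev (nat_lit 1696) (nat_lit 33554432) (.nd (nat_lit 1888)
 (.br (nat_lit 2) (.ch (nat_lit 0) (.ev (nat_lit 1904) (nat_lit 2105984) (.ev (nat_lit 1920) (nat_lit 67108880)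
 .dd))) (.ch (nat_lit 2) (.ev (nat_lit 1904) (nat_lit 67108880) (.ev (nat_lit 1920) (nat_lit 2097280) (.fin
 (nat_lit 576471197644440130))))))))))))) (.br (nat_lit 36) (.ch (nat_lit 34) (.ev (nat_lit 52) (nat_lit
 103150915602) (.ev (nat_lit 116) (nat_lit 128) (.ev (nat_lit 180) (nat_lit 64) (.ev (nat_lit 244) (nat_lit
 549755813888) (.ev (nat_lit 884) (nat_lit 274877906944) (.ev (nat_lit 948) (nat_lit 8192) (.ev (nat_lit 1012)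
 (nat_lit 1073742336) (.nd (nat_lit 1888) (.br (nat_lit 1) (.ch (nat_lit 0) (.ev (nat_lit 1936) (nat_lit
 35651584) .dd)) (.ch (nat_lit 1) (.ev (nat_lit 1904) (nat_lit 35651584) .dd)))))))))))) (.br (nat_lit 38) (.ch
 (nat_lit 36) (.ev (nat_lit 52) (nat_lit 69866619536) (.ev (nat_lit 84) (nat_lit 262144) (.ev (nat_lit 180)
 (nat_lit 34359738368) (.ev (nat_lit 580) (nat_lit 4096) (.ev (nat_lit 644) (nat_lit 64) (.ev (nat_lit 1156)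
 (nat_lit 131072) (.ev (nat_lit 1600) (nat_lit 8192) (.nd (nat_lit 1888) (.br (nat_lit 2) (.br (nat_lit 1) (.ch
 (nat_lit 0) (.ev (nat_lit 1904) (nat_lit 824633720834) (.ev (nat_lit 1917) (nat_lit 33554432) .dd))) (.ch
 (nat_lit 1) (.ev (nat_lit 1904) (nat_lit 274911461378) (.ev (nat_lit 1917) (nat_lit 549755813888) .dd)))) (.br
 (nat_lit 10) (.ch (nat_lit 2) (.ev (nat_lit 1904) (nat_lit 824633720834) (.ev (nat_lit 1917) (nat_lit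
 33554432) .dd))) (.ch (nat_lit 10) (.ev (nat_lit 1904) (nat_lit 549789368320) (.fin (nat_lit
 576460202549133910))))))))))))))) (.ch (nat_lit 38) (.ev (nat_lit 52) (nat_lit 893355688080) (.ev (nat_lit
 116) (nat_lit 4096) (.ev (nat_lit 148) (nat_lit 34359738368) (.ev (nat_lit 340) (nat_lit 64) (.ev (nat_lit
 580) (nat_lit 33554432) (.ev (nat_lit 820) (nat_lit 67108864) (.ev (nat_lit 884) (nat_lit 1073741826) (.ev
 (nat_lit 1232) (nat_lit 4203008) .dd)))))))))))))) (.br (nat_lit 54) (.br (nat_lit 47) (.br (nat_lit 43) (.br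
 (nat_lit 42) (.ch (nat_lit 39) (.ev (nat_lit 52) (nat_lit 379070722050) (.ev (nat_lit 84) (nat_lit 64) (.ev
 (nat_lit 148) (nat_lit 16) (.ev (nat_lit 580) (nat_lit 262144) (.ev (nat_lit 612) (nat_lit 128) (.ev (nat_lit
 756) (nat_lit 67108864) (.ev (nat_lit 884) (nat_lit 512) (.nd (nat_lit 1888) (.br (nat_lit 5) (.br (nat_lit 1)
 (.ch (nat_lit 0) (.ev (nat_lit 1904) (nat_lit 549755813888) (.ev (nat_lit 1917) (nat_lit 131072) .dd))) (.ch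
 (nat_lit 1) (.ev (nat_lit 1904) (nat_lit 131072) (.ev (nat_lit 1917) (nat_lit 549755813888) .dd)))) (.br
 (nat_lit 9) (.ch (nat_lit 5) (.ev (nat_lit 1904) (nat_lit 549755944960) .dd)) (.br (nat_lit 10) (.ch (nat_lit
 9) (.ev (nat_lit 1904) (nat_lit 549755944960) .dd)) (.ch (nat_lit 10) (.ev (nat_lit 1904) (nat_lit
 549755944960) .dd)))))))))))))) (.ch (nat_lit 42) (.ev (nat_lit 52) (nat_lit 276056781376) (.ev (nat_lit 148)
 (nat_lit 549755813888) (.ev (nat_lit 484) (nat_lit 128) (.ev (nat_lit 736) (nat_lit 103081443346) .dd))))))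
 (.br (nat_lit 44) (.ch (nat_lit 43) (.ev (nat_lit 52) (nat_lit 68820279888) (.ev (nat_lit 180) (nat_lit
 549755813888) (.ev (nat_lit 256) (nat_lit 310317944962) .dd)))) (.br (nat_lit 46) (.ch (nat_lit 44) (.ev
 (nat_lit 52) (nat_lit 824671605456) (.ev (nat_lit 340) (nat_lit 67108864) (.ev (nat_lit 624) (nat_lit
 104155324418) .dd)))) (.ch (nat_lit 46) (.ev (nat_lit 52) (nat_lit 343666855936) (.ev (nat_lit 340) (nat_lit
 16) (.ev (nat_lit 372) (nat_lit 33554432) (.ev (nat_lit 404) (nat_lit 34359738368) (.ev (nat_lit 484) (nat_lit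
 549755813888) (.ev (nat_lit 644) (nat_lit 128) (.ev (nat_lit 948) (nat_lit 131072) (.ev (nat_lit 1476)
 (nat_lit 2) (.ev (nat_lit 1872) (nat_lit 64) (.nd (nat_lit 1888) (.br (nat_lit 7) (.br (nat_lit 2) (.ch
 (nat_lit 0) (.ev (nat_lit 1904) (nat_lit 4203008) (.ev (nat_lit 1917) (nat_lit 1073741824) .dd))) (.ch
 (nat_lit 2) (.ev (nat_lit 1904) (nat_lit 1077944832) .dd))) (.br (nat_lit 9) (.ch (nat_lit 7) (.ev (nat_lit
 1904) (nat_lit 1077944320) (.ev (nat_lit 1917) (nat_lit 512) .dd))) (.br (nat_lit 10) (.ch (nat_lit 9) (.ev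
 (nat_lit 1904) (nat_lit 1073742336) (.fin (nat_lit 576465700116709950)))) (.ch (nat_lit 10) (.ev (nat_lit
 1904) (nat_lit 1077944320) (.ev (nat_lit 1917) (nat_lit 512) .dd)))))))))))))))))))) (.br (nat_lit 50) (.br
 (nat_lit 48) (.ch (nat_lit 47) (.ev (nat_lit 52) (nat_lit 549825032706) (.ev (nat_lit 160) (nat_lit
 379069006032) .dd))) (.br (nat_lit 49) (.ch (nat_lit 48) (.ev (nat_lit 52) (nat_lit 584153301712) (.ev
 (nat_lit 180) (nat_lit 68719476736) (.ev (nat_lit 404) (nat_lit 4096) (.ev (nat_lit 548) (nat_lit 262144) (.ev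
 (nat_lit 612) (nat_lit 67108864) (.ev (nat_lit 852) (nat_lit 2105344) (.ev (nat_lit 1012) (nat_lit 131072)
 (.ev (nat_lit 1188) (nat_lit 2) (.ev (nat_lit 1440) (nat_lit 1073741824) (.ev (nat_lit 1453) (nat_lit
 274877906944) .dd))))))))))) (.ch (nat_lit 49) (.ev (nat_lit 52) (nat_lit 379031257090) (.ev (nat_lit 128)
 (nat_lit 549862781648) .dd))))) (.br (nat_lit 51) (.ch (nat_lit 50) (.ev (nat_lit 52) (nat_lit 275987702274)
 (.ev (nat_lit 180) (nat_lit 67108864) (.ev (nat_lit 212) (nat_lit 34359738368) (.ev (nat_lit 724) (nat_lit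
 68719476736) (.ev (nat_lit 756) (nat_lit 64) (.ev (nat_lit 852) (nat_lit 4194304) (.ev (nat_lit 1840) (nat_lit
 4096) (.nd (nat_lit 1888) (.br (nat_lit 2) (.br (nat_lit 1) (.ch (nat_lit 0) (.ev (nat_lit 1904) (nat_lit 144)
 (.ev (nat_lit 1917) (nat_lit 549755813888) .dd))) (.ch (nat_lit 1) (.ev (nat_lit 1936) (nat_lit 549755813904)
 (.ev (nat_lit 1949) (nat_lit 128) .dd)))) (.br (nat_lit 5) (.ch (nat_lit 2) (.ev (nat_lit 1904) (nat_lit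
 549755813904) (.ev (nat_lit 1917) (nat_lit 128) .dd))) (.ch (nat_lit 5) (.ev (nat_lit 1904) (nat_lit
 549755814032) .dd))))))))))))) (.br (nat_lit 53) (.ch (nat_lit 51) (.ev (nat_lit 52) (nat_lit 274915791552)
 (.ev (nat_lit 212) (nat_lit 549755813888) (.ev (nat_lit 320) (nat_lit 104222433298) .dd)))) (.ch (nat_lit 53)
 (.ev (nat_lit 52) (nat_lit 310313754704) (.ev (nat_lit 148) (nat_lit 68719476736) (.ev (nat_lit 308) (nat_lit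
 549755813888) (.ev (nat_lit 1060) (nat_lit 131072) (.ev (nat_lit 1156) (nat_lit 514) (.ev (nat_lit 1300)
 (nat_lit 4194304) (.ev (nat_lit 1616) (nat_lit 128) (.nd (nat_lit 1888) (.br (nat_lit 9) (.br (nat_lit 7) (.ch
 (nat_lit 1) (.ev (nat_lit 1904) (nat_lit 100663296) (.ev (nat_lit 1917) (nat_lit 4096) .dd))) (.ch (nat_lit 7)
 (.ev (nat_lit 1904) (nat_lit 100667392) .dd))) (.br (nat_lit 10) (.ch (nat_lit 9) (.ev (nat_lit 1904) (nat_lit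
 4096) (.ev (nat_lit 1952) (nat_lit 100663296) .dd))) (.ch (nat_lit 10) (.ev (nat_lit 1904) (nat_lit 100667392)
 .dd))))))))))))))))) (.br (nat_lit 64) (.br (nat_lit 57) (.br (nat_lit 55) (.ch (nat_lit 54) (.ev (nat_lit 52)
 (nat_lit 893355561488) (.ev (nat_lit 224) (nat_lit 35538477250) .dd))) (.ch (nat_lit 55) (.ev (nat_lit 52)
 (nat_lit 824738848848) (.ev (nat_lit 244) (nat_lit 34359738368) (.ev (nat_lit 528) (nat_lit 69795451522)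
 .dd))))) (.br (nat_lit 58) (.ch (nat_lit 57) (.ev (nat_lit 52) (nat_lit 585256796866) (.ev (nat_lit 276)
 (nat_lit 4096) (.ev (nat_lit 592) (nat_lit 343637237776) .dd)))) (.br (nat_lit 62) (.ch (nat_lit 58) (.ev
 (nat_lit 52) (nat_lit 585225342992) (.ev (nat_lit 212) (nat_lit 128) (.ev (nat_lit 276) (nat_lit 64) (.ev
 (nat_lit 692) (nat_lit 274877906944) (.ev (nat_lit 916) (nat_lit 512) (.ev (nat_lit 948) (nat_lit 2) (.ev
 (nat_lit 1648) (nat_lit 68719476736) (.nd (nat_lit 1888) (.br (nat_lit 7) (.ch (nat_lit 0) (.ev (nat_lit 1904)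
 (nat_lit 4202496) (.ev (nat_lit 1917) (nat_lit 67108864) .dd))) (.br (nat_lit 9) (.ch (nat_lit 7) (.ev
 (nat_lit 1904) (nat_lit 71311360) .dd)) (.ch (nat_lit 9) (.ev (nat_lit 1904) (nat_lit 67108864) (.fin (nat_lit
 576465700116709950))))))))))))))) (.ch (nat_lit 62) (.ev (nat_lit 52) (nat_lit 103117365760) (.ev (nat_lit
 308) (nat_lit 4096) (.ev (nat_lit 756) (nat_lit 128) (.ev (nat_lit 1396) (nat_lit 1073741824) (.ev (nat_lit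
 1428) (nat_lit 2097152) (.ev (nat_lit 1632) (nat_lit 274877907008) (.nd (nat_lit 1888) (.br (nat_lit 2) (.br
 (nat_lit 1) (.ch (nat_lit 0) (.ev (nat_lit 1904) (nat_lit 549755813906) (.ev (nat_lit 1917) (nat_lit 67108864)
 .dd))) (.ch (nat_lit 1) (.ev (nat_lit 1904) (nat_lit 2) (.ev (nat_lit 1920) (nat_lit 67108864) (.ev (nat_lit
 1968) (nat_lit 549755813904) .dd))))) (.br (nat_lit 9) (.ch (nat_lit 2) (.ev (nat_lit 1904) (nat_lit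
 549822922752) (.ev (nat_lit 1920) (nat_lit 18) .dd))) (.ch (nat_lit 9) (.ev (nat_lit 1904) (nat_lit
 549822922770) .dd))))))))))))))) (.br (nat_lit 68) (.br (nat_lit 65) (.ch (nat_lit 64) (.ev (nat_lit 52)
 (nat_lit 343603810498) (.ev (nat_lit 116) (nat_lit 262144) (.ev (nat_lit 452) (nat_lit 549755813888) (.ev
 (nat_lit 1156) (nat_lit 1073741824) (.ev (nat_lit 1664) (nat_lit 8192) (.ev (nat_lit 1856) (nat_lit
 34359738368) (.nd (nat_lit 1888) (.br (nat_lit 9) (.br (nat_lit 7) (.ch (nat_lit 0) (.ev (nat_lit 1904)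
 (nat_lit 67109376) (.ev (nat_lit 1920) (nat_lit 33554448) .dd))) (.ch (nat_lit 7) (.ev (nat_lit 1904) (nat_lit
 100663824) .dd))) (.br (nat_lit 10) (.ch (nat_lit 9) (.ev (nat_lit 1904) (nat_lit 33554960) (.ev (nat_lit
 1917) (nat_lit 67108864) .dd))) (.ch (nat_lit 10) (.ev (nat_lit 1904) (nat_lit 33554432) (.ev (nat_lit 1920)
 (nat_lit 67108864) (.ev (nat_lit 1968) (nat_lit 528) .dd)))))))))))))) (.br (nat_lit 67) (.ch (nat_lit 65)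
 (.ev (nat_lit 52) (nat_lit 652904628866) (.ev (nat_lit 84) (nat_lit 16) (.ev (nat_lit 308) (nat_lit 33554432)
 (.ev (nat_lit 372) (nat_lit 4096) (.ev (nat_lit 404) (nat_lit 64) (.ev (nat_lit 1364) (nat_lit 1077936128)
 (.nd (nat_lit 1888) (.br (nat_lit 7) (.br (nat_lit 5) (.ch (nat_lit 1) (.ev (nat_lit 1904) (nat_lit 8192) (.ev
 (nat_lit 1917) (nat_lit 274877906944) .dd))) (.ch (nat_lit 5) (.ev (nat_lit 1904) (nat_lit 274877906944) (.ev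
 (nat_lit 1917) (nat_lit 8192) .dd)))) (.br (nat_lit 10) (.ch (nat_lit 7) (.ev (nat_lit 1904) (nat_lit
 274877915136) .dd)) (.ch (nat_lit 10) (.ev (nat_lit 1904) (nat_lit 274877915136) .dd)))))))))))) (.ch (nat_lit
 67) (.ev (nat_lit 52) (nat_lit 34366042626) (.ev (nat_lit 116) (nat_lit 33554432) (.ev (nat_lit 180) (nat_lit
 128) (.ev (nat_lit 484) (nat_lit 68719476736) (.ev (nat_lit 724) (nat_lit 67108864) (.ev (nat_lit 820)
 (nat_lit 549755813952) (.ev (nat_lit 916) (nat_lit 131072) (.ev (nat_lit 1792) (nat_lit 262144) (.nd (nat_lit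
 1888) (.br (nat_lit 5) (.br (nat_lit 2) (.ch (nat_lit 1) (.ev (nat_lit 1904) (nat_lit 275951648768) (.ev
 (nat_lit 1917) (nat_lit 16) .dd))) (.ch (nat_lit 2) (.ev (nat_lit 1904) (nat_lit 275951648784) .dd))) (.br
 (nat_lit 7) (.ch (nat_lit 5) (.ev (nat_lit 1904) (nat_lit 16) (.fin (nat_lit 576470098152735306)))) (.br
 (nat_lit 9) (.ch (nat_lit 7) (.ev (nat_lit 1904) (nat_lit 275951648784) .dd)) (.ch (nat_lit 9) (.ev (nat_lit
 1904) (nat_lit 275951648784) .dd))))))))))))))))) (.br (nat_lit 69) (.ch (nat_lit 68) (.ev (nat_lit 52)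
 (nat_lit 103152615618) (.ev (nat_lit 180) (nat_lit 4096) (.ev (nat_lit 692) (nat_lit 1073741824) (.ev (nat_lit
 724) (nat_lit 16) (.ev (nat_lit 820) (nat_lit 262144) (.ev (nat_lit 1124) (nat_lit 131072) (.ev (nat_lit 1744)
 (nat_lit 274877906944) (.nd (nat_lit 1888) (.br (nat_lit 2) (.ch (nat_lit 1) (.ev (nat_lit 1904) (nat_lit
 549789377024) .dd)) (.ch (nat_lit 2) (.ev (nat_lit 1936) (nat_lit 549789368320) (.fin (nat_lit
 576451406477083198)))))))))))))) (.br (nat_lit 70) (.ch (nat_lit 69) (.ev (nat_lit 52) (nat_lit 893359628482)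
 (.ev (nat_lit 372) (nat_lit 67108864) (.ev (nat_lit 404) (nat_lit 262144) (.ev (nat_lit 800) (nat_lit
 35467039248) .dd))))) (.ch (nat_lit 70) (.ev (nat_lit 52) (nat_lit 927817797842) (.ev (nat_lit 148) (nat_lit
 262144) (.ev (nat_lit 916) (nat_lit 1073741824) (.ev (nat_lit 1072) (nat_lit 2236928) .dd)))))))))))))

/-- Subtrie. -/
noncomputable def T4 : Tr := (.ev (nat_lit 20) (nat_lit 4865160254592) (.nd (nat_lit 33) (.br (nat_lit 39) (.br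
 (nat_lit 19) (.br (nat_lit 8) (.br (nat_lit 4) (.br (nat_lit 3) (.ch (nat_lit 1) (.ev (nat_lit 52) (nat_lit
 549822923072) (.ev (nat_lit 180) (nat_lit 16) (.ev (nat_lit 1092) (nat_lit 512) (.ev (nat_lit 1252) (nat_lit
 32) (.ev (nat_lit 1504) (nat_lit 4202496) (.nd (nat_lit 1888) (.br (nat_lit 4) (.ch (nat_lit 0) (.ev (nat_lit
 1904) (nat_lit 77309411328) (.ev (nat_lit 1917) (nat_lit 2) .dd))) (.br (nat_lit 8) (.ch (nat_lit 4) (.ev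
 (nat_lit 1904) (nat_lit 2) (.fin (nat_lit 576456904023687746)))) (.ch (nat_lit 8) (.ev (nat_lit 1904) (nat_lit
 77309411330) .dd))))))))))) (.ch (nat_lit 3) (.ev (nat_lit 52) (nat_lit 68790780690) (.ev (nat_lit 180)
 (nat_lit 8589934592) (.ev (nat_lit 452) (nat_lit 8192) (.ev (nat_lit 660) (nat_lit 549755813888) (.ev (nat_lit
 1280) (nat_lit 96) .dd))))))) (.br (nat_lit 5) (.ch (nat_lit 4) (.ev (nat_lit 52) (nat_lit 8589934706) (.ev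
 (nat_lit 212) (nat_lit 512) (.ev (nat_lit 244) (nat_lit 8192) (.ev (nat_lit 276) (nat_lit 4194304) (.ev
 (nat_lit 548) (nat_lit 68719476736) (.ev (nat_lit 980) (nat_lit 256) (.nd (nat_lit 1888) (.br (nat_lit 5) (.ch
 (nat_lit 4) (.ev (nat_lit 1904) (nat_lit 549822922752) .dd)) (.br (nat_lit 6) (.ch (nat_lit 5) (.fin (nat_lit
 576474496195052112))) (.ch (nat_lit 6) (.ev (nat_lit 1904) (nat_lit 549822922752) .dd)))))))))))) (.br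
 (nat_lit 7) (.ch (nat_lit 5) (.ev (nat_lit 52) (nat_lit 4194626) (.ev (nat_lit 884) (nat_lit 67108864) (.ev
 (nat_lit 1012) (nat_lit 549755813888) (.ev (nat_lit 1460) (nat_lit 68719476736) (.ev (nat_lit 1808) (nat_lit
 8589934592) (.nd (nat_lit 1888) (.br (nat_lit 5) (.br (nat_lit 4) (.ch (nat_lit 0) (.ev (nat_lit 1904)
 (nat_lit 8240) (.ev (nat_lit 1917) (nat_lit 512) .dd))) (.ch (nat_lit 4) (.ev (nat_lit 1904) (nat_lit 8240)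
 (.ev (nat_lit 1917) (nat_lit 512) .dd)))) (.br (nat_lit 6) (.ch (nat_lit 5) (.ev (nat_lit 1904) (nat_lit 528)
 (.fin (nat_lit 576452505968788034)))) (.br (nat_lit 7) (.ch (nat_lit 6) (.ev (nat_lit 1904) (nat_lit 8736)
 (.ev (nat_lit 1917) (nat_lit 16) .dd))) (.ch (nat_lit 7) (.ev (nat_lit 1904) (nat_lit 8752) .dd))))))))))))
 (.ch (nat_lit 7) (.ev (nat_lit 52) (nat_lit 8657052002) (.ev (nat_lit 1028) (nat_lit 549755813888) (.ev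
 (nat_lit 1136) (nat_lit 68723671568) .dd))))))) (.br (nat_lit 15) (.br (nat_lit 11) (.ch (nat_lit 8) (.ev
 (nat_lit 52) (nat_lit 8594137888) (.ev (nat_lit 276) (nat_lit 2) (.ev (nat_lit 516) (nat_lit 64) (.ev (nat_lit
 1060) (nat_lit 67108864) (.ev (nat_lit 1188) (nat_lit 549755813888) (.ev (nat_lit 1376) (nat_lit 68719476752)
 .dd))))))) (.br (nat_lit 12) (.ch (nat_lit 11) (.ev (nat_lit 52) (nat_lit 627065226080) (.ev (nat_lit 84)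
 (nat_lit 16) (.ev (nat_lit 340) (nat_lit 4194304) (.ev (nat_lit 548) (nat_lit 2) (.ev (nat_lit 644) (nat_lit
 8192) (.ev (nat_lit 653) (nat_lit 67108864) .dd))))))) (.ch (nat_lit 12) (.ev (nat_lit 52) (nat_lit
 558349943314) (.ev (nat_lit 180) (nat_lit 32) (.ev (nat_lit 372) (nat_lit 68719476736) (.ev (nat_lit 724)
 (nat_lit 8192) (.ev (nat_lit 916) (nat_lit 64) (.ev (nat_lit 1012) (nat_lit 256) (.ev (nat_lit 1021) (nat_lit
 67108864) .dd)))))))))) (.br (nat_lit 16) (.ch (nat_lit 15) (.ev (nat_lit 52) (nat_lit 549822931218) (.ev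
 (nat_lit 84) (nat_lit 32) (.ev (nat_lit 116) (nat_lit 512) (.ev (nat_lit 1776) (nat_lit 64) (.nd (nat_lit
 1888) (.br (nat_lit 4) (.br (nat_lit 2) (.ch (nat_lit 0) (.ev (nat_lit 1904) (nat_lit 77313605632) .dd)) (.ch
 (nat_lit 2) (.ev (nat_lit 1904) (nat_lit 77313605632) .dd))) (.br (nat_lit 7) (.ch (nat_lit 4) (.ev (nat_lit
 1904) (nat_lit 4194304) (.fin (nat_lit 576456904023687746)))) (.br (nat_lit 8) (.ch (nat_lit 7) (.ev (nat_lit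
 1904) (nat_lit 77313605632) .dd)) (.ch (nat_lit 8) (.ev (nat_lit 1904) (nat_lit 77309411328) (.ev (nat_lit
 1917) (nat_lit 4194304) .dd)))))))))))) (.br (nat_lit 18) (.ch (nat_lit 16) (.ev (nat_lit 52) (nat_lit
 67117362) (.ev (nat_lit 864) (nat_lit 627069420096) .dd))) (.ch (nat_lit 18) (.ev (nat_lit 52) (nat_lit
 67117426) (.ev (nat_lit 308) (nat_lit 8589934592) (.ev (nat_lit 484) (nat_lit 512) (.ev (nat_lit 916) (nat_lit
 549755813888) (.nd (nat_lit 1888) (.br (nat_lit 5) (.br (nat_lit 4) (.ch (nat_lit 2) (.ev (nat_lit 1904)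
 (nat_lit 68723671040) .dd)) (.ch (nat_lit 4) (.ev (nat_lit 1904) (nat_lit 68723671040) .dd))) (.br (nat_lit 6)
 (.ch (nat_lit 5) (.ev (nat_lit 1904) (nat_lit 68723671040) .dd)) (.br (nat_lit 8) (.ch (nat_lit 6) (.ev
 (nat_lit 1904) (nat_lit 4194304) (.ev (nat_lit 1917) (nat_lit 68719476736) .dd))) (.ch (nat_lit 8) (.ev
 (nat_lit 1904) (nat_lit 68719476736) (.ev (nat_lit 1917) (nat_lit 4194304) .dd)))))))))))))))) (.br (nat_lit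
 29) (.br (nat_lit 23) (.br (nat_lit 22) (.ch (nat_lit 19) (.ev (nat_lit 52) (nat_lit 71311696) (.ev (nat_lit
 484) (nat_lit 8589934592) (.ev (nat_lit 580) (nat_lit 512) (.ev (nat_lit 612) (nat_lit 2) (.ev (nat_lit 1060)
 (nat_lit 549755813888) (.ev (nat_lit 1344) (nat_lit 68719476768) .dd))))))) (.ch (nat_lit 22) (.ev (nat_lit
 52) (nat_lit 558349951042) (.ev (nat_lit 896) (nat_lit 68786586416) .dd)))) (.br (nat_lit 24) (.ch (nat_lit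
 23) (.ev (nat_lit 52) (nat_lit 627132334192) (.ev (nat_lit 148) (nat_lit 512) (.ev (nat_lit 404) (nat_lit
 8192) (.ev (nat_lit 452) (nat_lit 4194304) (.ev (nat_lit 644) (nat_lit 2) (.ev (nat_lit 653) (nat_lit 256)
 .dd))))))) (.br (nat_lit 26) (.ch (nat_lit 24) (.ev (nat_lit 52) (nat_lit 558349943554) (.ev (nat_lit 116)
 (nat_lit 68719476736) (.ev (nat_lit 452) (nat_lit 32) (.ev (nat_lit 980) (nat_lit 64) (.ev (nat_lit 1124)
 (nat_lit 67108864) (.ev (nat_lit 1312) (nat_lit 8208) .dd))))))) (.ch (nat_lit 26) (.ev (nat_lit 52) (nat_lit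
 8594129488) (.ev (nat_lit 180) (nat_lit 68719476736) (.ev (nat_lit 832) (nat_lit 549822931234) .dd))))))) (.br
 (nat_lit 34) (.br (nat_lit 31) (.ch (nat_lit 29) (.ev (nat_lit 52) (nat_lit 558349951266) (.ev (nat_lit 992)
 (nat_lit 68786586192) .dd))) (.br (nat_lit 33) (.ch (nat_lit 31) (.ev (nat_lit 52) (nat_lit 67109696) (.ev
 (nat_lit 116) (nat_lit 32) (.ev (nat_lit 404) (nat_lit 68719476736) (.ev (nat_lit 548) (nat_lit 16) (.ev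
 (nat_lit 1520) (nat_lit 8192) (.nd (nat_lit 1888) (.br (nat_lit 7) (.ch (nat_lit 0) (.ev (nat_lit 1936)
 (nat_lit 549755813890) (.fin (nat_lit 576440411339833918)))) (.ch (nat_lit 7) (.ev (nat_lit 1904) (nat_lit
 558349942786) .dd)))))))))) (.ch (nat_lit 33) (.ev (nat_lit 52) (nat_lit 618479485026) (.ev (nat_lit 884)
 (nat_lit 256) (.ev (nat_lit 1760) (nat_lit 8589934592) (.nd (nat_lit 1888) (.br (nat_lit 7) (.br (nat_lit 4)
 (.ch (nat_lit 0) (.ev (nat_lit 1904) (nat_lit 67117568) (.ev (nat_lit 1917) (nat_lit 16) .dd))) (.ch (nat_lit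
 4) (.ev (nat_lit 1904) (nat_lit 8720) (.ev (nat_lit 1917) (nat_lit 67108864) .dd)))) (.br (nat_lit 8) (.ch
 (nat_lit 7) (.ev (nat_lit 1904) (nat_lit 8720) (.ev (nat_lit 1917) (nat_lit 67108864) .dd))) (.ch (nat_lit 8)
 (.ev (nat_lit 1904) (nat_lit 67108880) (.fin (nat_lit 576451406477083198))))))))))))) (.br (nat_lit 36) (.ch
 (nat_lit 34) (.ev (nat_lit 52) (nat_lit 77380714514) (.ev (nat_lit 852) (nat_lit 549755813952) (.ev (nat_lit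
 1728) (nat_lit 256) (.nd (nat_lit 1888) (.br (nat_lit 5) (.ch (nat_lit 4) (.ev (nat_lit 1904) (nat_lit 8224)
 (.ev (nat_lit 1917) (nat_lit 512) .dd))) (.br (nat_lit 6) (.ch (nat_lit 5) (.ev (nat_lit 1904) (nat_lit 512)
 (.fin (nat_lit 576452505968788034)))) (.ch (nat_lit 6) (.ev (nat_lit 1904) (nat_lit 8736) .dd))))))))) (.br
 (nat_lit 38) (.ch (nat_lit 36) (.ev (nat_lit 52) (nat_lit 77380715056) (.ev (nat_lit 660) (nat_lit 64) (.ev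
 (nat_lit 1060) (nat_lit 256) (.ev (nat_lit 1220) (nat_lit 549755813888) (.ev (nat_lit 1408) (nat_lit 8194)
 .dd)))))) (.ch (nat_lit 38) (.ev (nat_lit 52) (nat_lit 618475290928) (.ev (nat_lit 548) (nat_lit 4194304) (.ev
 (nat_lit 820) (nat_lit 512) (.ev (nat_lit 948) (nat_lit 64) (.ev (nat_lit 1092) (nat_lit 8192) (.ev (nat_lit
 1200) (nat_lit 8657043458) .dd)))))))))))) (.br (nat_lit 54) (.br (nat_lit 47) (.br (nat_lit 43) (.br (nat_lit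
 42) (.ch (nat_lit 39) (.ev (nat_lit 52) (nat_lit 77313613826) (.ev (nat_lit 372) (nat_lit 16) (.ev (nat_lit
 788) (nat_lit 549755813888) (.ev (nat_lit 960) (nat_lit 67109728) .dd))))) (.ch (nat_lit 42) (.ev (nat_lit 52)
 (nat_lit 71311968) (.ev (nat_lit 276) (nat_lit 68719476736) (.ev (nat_lit 724) (nat_lit 8589934592) (.ev
 (nat_lit 1824) (nat_lit 256) (.nd (nat_lit 1888) (.br (nat_lit 6) (.br (nat_lit 4) (.ch (nat_lit 0) (.ev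
 (nat_lit 1936) (nat_lit 549755813904) (.ev (nat_lit 1949) (nat_lit 2) .dd))) (.ch (nat_lit 4) (.ev (nat_lit
 1904) (nat_lit 18) (.ev (nat_lit 1917) (nat_lit 549755813888) .dd)))) (.br (nat_lit 7) (.ch (nat_lit 6) (.ev
 (nat_lit 1904) (nat_lit 549755813906) .dd)) (.ch (nat_lit 7) (.ev (nat_lit 1904) (nat_lit 549755813904) (.ev
 (nat_lit 1917) (nat_lit 2) .dd)))))))))))) (.br (nat_lit 44) (.ch (nat_lit 43) (.ev (nat_lit 52) (nat_lit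
 77376529232) (.ev (nat_lit 84) (nat_lit 2) (.ev (nat_lit 212) (nat_lit 32) (.ev (nat_lit 484) (nat_lit
 4194304) (.ev (nat_lit 493) (nat_lit 549755813888) .dd)))))) (.br (nat_lit 46) (.ch (nat_lit 44) (.ev (nat_lit
 52) (nat_lit 558349943632) (.ev (nat_lit 84) (nat_lit 8192) (.ev (nat_lit 212) (nat_lit 68719476736) (.ev
 (nat_lit 276) (nat_lit 32) (.ev (nat_lit 404) (nat_lit 2) (.ev (nat_lit 413) (nat_lit 67108864) .dd)))))))
 (.ch (nat_lit 46) (.ev (nat_lit 52) (nat_lit 68786585632) (.ev (nat_lit 308) (nat_lit 2) (.ev (nat_lit 420)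
 (nat_lit 549755813888) (.ev (nat_lit 612) (nat_lit 8589934592) (.ev (nat_lit 928) (nat_lit 4203344)
 .dd))))))))) (.br (nat_lit 50) (.br (nat_lit 48) (.ch (nat_lit 47) (.ev (nat_lit 52) (nat_lit 549822931714)
 (.ev (nat_lit 84) (nat_lit 68719476736) (.ev (nat_lit 148) (nat_lit 32) (.ev (nat_lit 756) (nat_lit 16) (.ev
 (nat_lit 1268) (nat_lit 64) (.ev (nat_lit 1460) (nat_lit 8589934592) (.ev (nat_lit 1469) (nat_lit 4194304)
 .dd)))))))) (.br (nat_lit 49) (.ch (nat_lit 48) (.ev (nat_lit 52) (nat_lit 558349943408) (.ev (nat_lit 244)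
 (nat_lit 68719476736) (.ev (nat_lit 308) (nat_lit 8192) (.ev (nat_lit 372) (nat_lit 2) (.ev (nat_lit 500)
 (nat_lit 67108864) (.ev (nat_lit 509) (nat_lit 256) .dd))))))) (.ch (nat_lit 49) (.ev (nat_lit 52) (nat_lit
 68719477026) (.ev (nat_lit 212) (nat_lit 16) (.ev (nat_lit 276) (nat_lit 8589934592) (.ev (nat_lit 340)
 (nat_lit 8192) (.ev (nat_lit 452) (nat_lit 512) (.ev (nat_lit 1168) (nat_lit 549827117120) .dd))))))))) (.br
 (nat_lit 51) (.ch (nat_lit 50) (.ev (nat_lit 52) (nat_lit 8589943330) (.ev (nat_lit 244) (nat_lit 4194304)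
 (.ev (nat_lit 580) (nat_lit 16) (.ev (nat_lit 644) (nat_lit 68719476736) (.ev (nat_lit 852) (nat_lit 67108864)
 (.ev (nat_lit 980) (nat_lit 549755813888) (.nd (nat_lit 1888) (.br (nat_lit 6) (.br (nat_lit 2) (.ch (nat_lit
 0) (.ev (nat_lit 1904) (nat_lit 320) .dd)) (.ch (nat_lit 2) (.ev (nat_lit 1904) (nat_lit 320) .dd))) (.br
 (nat_lit 8) (.ch (nat_lit 6) (.fin (nat_lit 576461302059713084))) (.ch (nat_lit 8) (.ev (nat_lit 1904)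
 (nat_lit 320) .dd)))))))))))) (.br (nat_lit 53) (.ch (nat_lit 51) (.ev (nat_lit 52) (nat_lit 8594129504) (.ev
 (nat_lit 116) (nat_lit 2) (.ev (nat_lit 148) (nat_lit 8192) (.ev (nat_lit 452) (nat_lit 16) (.ev (nat_lit 484)
 (nat_lit 68719476736) (.ev (nat_lit 1300) (nat_lit 256) (.nd (nat_lit 1888) (.br (nat_lit 5) (.ch (nat_lit 2)
 (.ev (nat_lit 1904) (nat_lit 549822922752) .dd)) (.br (nat_lit 8) (.ch (nat_lit 5) (.fin (nat_lit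
 576474496195052112))) (.ch (nat_lit 8) (.ev (nat_lit 1904) (nat_lit 549822922752) .dd)))))))))))) (.ch
 (nat_lit 53) (.ev (nat_lit 52) (nat_lit 8589943152) (.ev (nat_lit 148) (nat_lit 2) (.ev (nat_lit 372) (nat_lit
 512) (.ev (nat_lit 580) (nat_lit 68719476736) (.ev (nat_lit 756) (nat_lit 4194304) (.ev (nat_lit 772) (nat_lit
 549755813888) (.ev (nat_lit 781) (nat_lit 67108864) .dd)))))))))))) (.br (nat_lit 64) (.br (nat_lit 57) (.br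
 (nat_lit 55) (.ch (nat_lit 54) (.ev (nat_lit 52) (nat_lit 618475291408) (.ev (nat_lit 116) (nat_lit 8192) (.ev
 (nat_lit 212) (nat_lit 8589934592) (.ev (nat_lit 244) (nat_lit 32) (.ev (nat_lit 308) (nat_lit 4194304) (.ev
 (nat_lit 692) (nat_lit 64) (.ev (nat_lit 756) (nat_lit 2) (.ev (nat_lit 765) (nat_lit 67108864) .dd)))))))))
 (.ch (nat_lit 55) (.ev (nat_lit 52) (nat_lit 558417060176) (.ev (nat_lit 340) (nat_lit 68719476736) (.ev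
 (nat_lit 1092) (nat_lit 2) (.nd (nat_lit 1888) (.br (nat_lit 7) (.ch (nat_lit 4) (.ev (nat_lit 1936) (nat_lit
 544) .dd)) (.ch (nat_lit 7) (.ev (nat_lit 1904) (nat_lit 544) .dd))))))))) (.br (nat_lit 58) (.ch (nat_lit 57)
 (.ev (nat_lit 52) (nat_lit 549822923330) (.ev (nat_lit 244) (nat_lit 16) (.ev (nat_lit 580) (nat_lit 32) (.ev
 (nat_lit 692) (nat_lit 256) (.ev (nat_lit 820) (nat_lit 68719476736) (.nd (nat_lit 1888) (.br (nat_lit 4) (.br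
 (nat_lit 2) (.ch (nat_lit 0) (.ev (nat_lit 1904) (nat_lit 8192) (.fin (nat_lit 576482192781689410)))) (.ch
 (nat_lit 2) (.ev (nat_lit 1904) (nat_lit 8594128896) (.ev (nat_lit 1917) (nat_lit 8192) .dd)))) (.br (nat_lit
 5) (.ch (nat_lit 4) (.ev (nat_lit 1904) (nat_lit 8594137088) .dd)) (.ch (nat_lit 5) (.ev (nat_lit 1904)
 (nat_lit 8594137088) .dd))))))))))) (.br (nat_lit 62) (.ch (nat_lit 58) (.ev (nat_lit 52) (nat_lit
 549755813936) (.ev (nat_lit 84) (nat_lit 4194304) (.ev (nat_lit 340) (nat_lit 2) (.ev (nat_lit 672) (nat_lit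
 77376529216) .dd))))) (.ch (nat_lit 62) (.ev (nat_lit 52) (nat_lit 68723680032) (.ev (nat_lit 452) (nat_lit
 8589934592) (.ev (nat_lit 692) (nat_lit 549755813888) (.ev (nat_lit 1712) (nat_lit 64) (.nd (nat_lit 1888)
 (.br (nat_lit 7) (.br (nat_lit 5) (.ch (nat_lit 4) (.ev (nat_lit 1904) (nat_lit 16) (.ev (nat_lit 1952)
 (nat_lit 67108866) .dd))) (.ch (nat_lit 5) (.ev (nat_lit 1904) (nat_lit 67108866) (.ev (nat_lit 1917) (nat_lit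
 16) .dd)))) (.br (nat_lit 8) (.ch (nat_lit 7) (.ev (nat_lit 1904) (nat_lit 67108882) .dd)) (.ch (nat_lit 8)
 (.ev (nat_lit 1904) (nat_lit 67108882) .dd))))))))))))) (.br (nat_lit 68) (.br (nat_lit 65) (.ch (nat_lit 64)
 (.ev (nat_lit 52) (nat_lit 77313605954) (.ev (nat_lit 372) (nat_lit 32) (.ev (nat_lit 548) (nat_lit 512) (.ev
 (nat_lit 1104) (nat_lit 549822930960) .dd))))) (.br (nat_lit 67) (.ch (nat_lit 65) (.ev (nat_lit 52) (nat_lit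
 627132334626) (.ev (nat_lit 116) (nat_lit 16) (.ev (nat_lit 612) (nat_lit 8192) (.ev (nat_lit 644) (nat_lit
 4194304) (.nd (nat_lit 1888) (.br (nat_lit 6) (.br (nat_lit 2) (.ch (nat_lit 0) (.ev (nat_lit 1904) (nat_lit
 320) .dd)) (.ch (nat_lit 2) (.ev (nat_lit 1904) (nat_lit 320) .dd))) (.br (nat_lit 7) (.ch (nat_lit 6) (.fin
 (nat_lit 576461302059713084))) (.ch (nat_lit 7) (.ev (nat_lit 1904) (nat_lit 320) .dd)))))))))) (.ch (nat_lit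
 67) (.ev (nat_lit 52) (nat_lit 4203298) (.ev (nat_lit 452) (nat_lit 68719476736) (.ev (nat_lit 1040) (nat_lit
 558412857424) .dd)))))) (.br (nat_lit 69) (.ch (nat_lit 68) (.ev (nat_lit 52) (nat_lit 68790780002) (.ev
 (nat_lit 484) (nat_lit 16) (.ev (nat_lit 948) (nat_lit 256) (.ev (nat_lit 1124) (nat_lit 549755813888) (.nd
 (nat_lit 1888) (.br (nat_lit 6) (.br (nat_lit 5) (.ch (nat_lit 2) (.ev (nat_lit 1904) (nat_lit 8589943296)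
 .dd)) (.ch (nat_lit 5) (.ev (nat_lit 1904) (nat_lit 8704) (.ev (nat_lit 1917) (nat_lit 8589934592) .dd))))
 (.br (nat_lit 8) (.ch (nat_lit 6) (.ev (nat_lit 1904) (nat_lit 8589943296) .dd)) (.ch (nat_lit 8) (.ev
 (nat_lit 1904) (nat_lit 8589934592) (.fin (nat_lit 576471197644440130)))))))))))) (.br (nat_lit 70) (.ch
 (nat_lit 69) (.ev (nat_lit 52) (nat_lit 627069427778) (.ev (nat_lit 612) (nat_lit 32) (.ev (nat_lit 1092)
 (nat_lit 16) (.ev (nat_lit 1188) (nat_lit 67108864) (.ev (nat_lit 1252) (nat_lit 512) (.ev (nat_lit 1261)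
 (nat_lit 256) .dd))))))) (.ch (nat_lit 70) (.ev (nat_lit 52) (nat_lit 627136528498) (.ev (nat_lit 1188)
 (nat_lit 256) (.ev (nat_lit 1252) (nat_lit 8192) (.ev (nat_lit 1261) (nat_lit 512) .dd)))))))))))))

/-- The trie. -/
noncomputable def T : Tr := .nd (nat_lit 1000000) (.br (nat_lit 4) (.br (nat_lit 1) (.ch (nat_lit 0) (.ev
 (nat_lit 0) (nat_lit 8796093022207) .dd)) (.ch (nat_lit 1) T1)) (.br (nat_lit 5) (.ch (nat_lit 4) T4) (.br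
 (nat_lit 10) (.ch (nat_lit 5) (.ev (nat_lit 0) (nat_lit 8796093022207) .dd)) (.ch (nat_lit 10) (.ev (nat_lit
 0) (nat_lit 8796093022207) .dd)))))

/-- The possible values. -/
noncomputable def oks : List ℕ := [34, 234, 610, 1015]

/-- The parameters. -/
noncomputable def S : Pr := ⟨fun i l e => lget mz (lget [] (lget [] tabs i) l) e, oks, [(nat_lit 0), (nat_lit
 1), (nat_lit 0)], T, (nat_lit 8796093022207), (nat_lit 3303796230157), (nat_lit 43), [(nat_lit 1057), (nat_lit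
 87122173451996128837)], [(nat_lit 121), (nat_lit 5041)]⟩

/-- Nothing known. -/
noncomputable def cs0 : Cs := (.cons (nat_lit 11) (nat_lit 0) (nat_lit 1) (.cons (nat_lit 71) (nat_lit 0) (nat_lit 1) .nil))

theorem part_1 : part S cs0 (nat_lit 1) = true := by decide +kernel

theorem part_4 : part S cs0 (nat_lit 4) = true := by decide +kernel

/-- Data of a prime. -/
noncomputable def D0 : PD := ⟨(nat_lit 11), (nat_lit 2), (12, 3, 3), (46, 69, 43), (105, 106, 86)⟩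

theorem D0_ok : D0.Ok := pdb_sound (s := 1) (C := ⟨⟨9, -6, -17, -1, -14, 8, -4, -1, -1⟩, (9, 10, 7)⟩) (by show Nat.Prime 11; norm_num) (by decide +kernel)

/-- Lines of the first type. -/
noncomputable def Cl0 : List C1 := [⟨⟨-9, 6, -8, 1, 14, 7, 4, 1, -5⟩, (4, 2, 8)⟩,
  ⟨⟨0, 0, 0, 0, 0, 0, 0, 0, 0⟩, (0, 0, 0)⟩,
  ⟨⟨0, 0, 0, 0, 0, 0, 0, 0, 0⟩, (0, 0, 0)⟩,
  ⟨⟨0, 0, 0, 0, 0, 0, 0, 0, 0⟩, (0, 0, 0)⟩,
  ⟨⟨0, 0, 0, 0, 0, 0, 0, 0, 0⟩, (0, 0, 0)⟩,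
  ⟨⟨9, 6, -17, -1, 14, 8, -4, 1, -1⟩, (8, 4, 5)⟩,
  ⟨⟨0, 0, 0, 0, 0, 0, 0, 0, 0⟩, (0, 0, 0)⟩,
  ⟨⟨0, 0, 0, 0, 0, 0, 0, 0, 0⟩, (0, 0, 0)⟩,
  ⟨⟨0, 0, 0, 0, 0, 0, 0, 0, 0⟩, (0, 0, 0)⟩,
  ⟨⟨0, 0, 0, 0, 0, 0, 0, 0, 0⟩, (0, 0, 0)⟩,
  ⟨⟨-9, -6, -8, 1, -14, 7, 4, -1, -5⟩, (7, 9, 3)⟩]

/-- Data of a prime. -/
noncomputable def D1 : PD := ⟨(nat_lit 71), (nat_lit 2), (72, 9, 33), (3977, 4536, 3372), (4173, 4400, 3526)⟩

theorem D1_ok : D1.Ok := pdb_sound (s := 11) (C := ⟨⟨59, 34, -112, -29, 94, 37, -24, -3, -11⟩, (59, 42, 47)⟩) (by show Nat.Prime 71; norm_num) (by decide +kernel)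

/-- Lines of the first type. -/
noncomputable def Cl1 : List C1 := [⟨⟨-59, -34, -53, 29, -94, 8, 24, 3, -35⟩, (17, 47, 34)⟩,
  ⟨⟨0, 0, 0, 0, 0, 0, 0, 0, 0⟩, (0, 0, 0)⟩,
  ⟨⟨49, -74, -77, 79, 14, 28, 12, 21, -29⟩, (59, 56, 13)⟩,
  ⟨⟨0, 0, 0, 0, 0, 0, 0, 0, 0⟩, (0, 0, 0)⟩,
  ⟨⟨0, 0, 0, 0, 0, 0, 0, 0, 0⟩, (0, 0, 0)⟩,
  ⟨⟨0, 0, 0, 0, 0, 0, 0, 0, 0⟩, (0, 0, 0)⟩,
  ⟨⟨79, -14, -107, 49, 74, 28, -12, 21, -17⟩, (44, 21, 5)⟩,
  ⟨⟨0, 0, 0, 0, 0, 0, 0, 0, 0⟩, (0, 0, 0)⟩,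
  ⟨⟨0, 0, 0, 0, 0, 0, 0, 0, 0⟩, (0, 0, 0)⟩,
  ⟨⟨39, 66, -92, -89, 46, 37, -8, -19, -23⟩, (13, 65, 21)⟩,
  ⟨⟨19, 46, -107, -91, -26, 8, 12, -27, -19⟩, (7, 30, 53)⟩,
  ⟨⟨0, 0, 0, 0, 0, 0, 0, 0, 0⟩, (0, 0, 0)⟩,
  ⟨⟨0, 0, 0, 0, 0, 0, 0, 0, 0⟩, (0, 0, 0)⟩,
  ⟨⟨99, 6, -67, 11, -94, 32, -4, -11, -31⟩, (13, 33, 59)⟩,
  ⟨⟨-39, -66, -53, -89, 46, 52, 8, 19, -31⟩, (17, 57, 22)⟩,
  ⟨⟨0, 0, 0, 0, 0, 0, 0, 0, 0⟩, (0, 0, 0)⟩,
  ⟨⟨0, 0, 0, 0, 0, 0, 0, 0, 0⟩, (0, 0, 0)⟩,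
  ⟨⟨19, -46, -107, -91, 26, 8, 12, 27, -19⟩, (15, 44, 2)⟩,
  ⟨⟨0, 0, 0, 0, 0, 0, 0, 0, 0⟩, (0, 0, 0)⟩,
  ⟨⟨0, 0, 0, 0, 0, 0, 0, 0, 0⟩, (0, 0, 0)⟩,
  ⟨⟨51, 66, -88, -59, 74, 67, -20, -5, -17⟩, (59, 64, 59)⟩,
  ⟨⟨49, 74, -77, 79, -14, 28, 12, -21, -29⟩, (6, 43, 29)⟩,
  ⟨⟨0, 0, 0, 0, 0, 0, 0, 0, 0⟩, (0, 0, 0)⟩,
  ⟨⟨0, 0, 0, 0, 0, 0, 0, 0, 0⟩, (0, 0, 0)⟩,
  ⟨⟨0, 0, 0, 0, 0, 0, 0, 0, 0⟩, (0, 0, 0)⟩,
  ⟨⟨31, 74, -83, -81, 54, 68, -16, -13, -19⟩, (8, 2, 60)⟩,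
  ⟨⟨0, 0, 0, 0, 0, 0, 0, 0, 0⟩, (0, 0, 0)⟩,
  ⟨⟨11, 94, -43, -99, 6, 32, 4, -11, -35⟩, (69, 18, 38)⟩,
  ⟨⟨-51, 66, -37, 59, 74, 8, 20, -5, -37⟩, (25, 56, 25)⟩,
  ⟨⟨0, 0, 0, 0, 0, 0, 0, 0, 0⟩, (0, 0, 0)⟩,
  ⟨⟨39, -66, -92, -89, -46, 37, -8, 19, -23⟩, (43, 2, 64)⟩,
  ⟨⟨0, 0, 0, 0, 0, 0, 0, 0, 0⟩, (0, 0, 0)⟩,
  ⟨⟨59, -34, -112, -29, -94, 37, -24, 3, -11⟩, (9, 4, 18)⟩,
  ⟨⟨0, 0, 0, 0, 0, 0, 0, 0, 0⟩, (0, 0, 0)⟩,
  ⟨⟨0, 0, 0, 0, 0, 0, 0, 0, 0⟩, (0, 0, 0)⟩,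
  ⟨⟨-59, 34, -53, 29, 94, 8, 24, -3, -35⟩, (8, 43, 16)⟩,
  ⟨⟨0, 0, 0, 0, 0, 0, 0, 0, 0⟩, (0, 0, 0)⟩,
  ⟨⟨11, -94, -43, -99, -6, 32, 4, 11, -35⟩, (2, 53, 33)⟩,
  ⟨⟨0, 0, 0, 0, 0, 0, 0, 0, 0⟩, (0, 0, 0)⟩,
  ⟨⟨0, 0, 0, 0, 0, 0, 0, 0, 0⟩, (0, 0, 0)⟩,
  ⟨⟨51, -66, -88, -59, -74, 67, -20, 5, -17⟩, (18, 46, 18)⟩,
  ⟨⟨-19, -46, -88, -91, -26, 83, -12, 27, -7⟩, (26, 61, 65)⟩,
  ⟨⟨0, 0, 0, 0, 0, 0, 0, 0, 0⟩, (0, 0, 0)⟩,
  ⟨⟨0, 0, 0, 0, 0, 0, 0, 0, 0⟩, (0, 0, 0)⟩,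
  ⟨⟨0, 0, 0, 0, 0, 0, 0, 0, 0⟩, (0, 0, 0)⟩,
  ⟨⟨-19, 46, -88, -91, 26, 83, -12, -27, -7⟩, (18, 4, 45)⟩,
  ⟨⟨0, 0, 0, 0, 0, 0, 0, 0, 0⟩, (0, 0, 0)⟩,
  ⟨⟨0, 0, 0, 0, 0, 0, 0, 0, 0⟩, (0, 0, 0)⟩,
  ⟨⟨0, 0, 0, 0, 0, 0, 0, 0, 0⟩, (0, 0, 0)⟩,
  ⟨⟨0, 0, 0, 0, 0, 0, 0, 0, 0⟩, (0, 0, 0)⟩,
  ⟨⟨0, 0, 0, 0, 0, 0, 0, 0, 0⟩, (0, 0, 0)⟩,
  ⟨⟨0, 0, 0, 0, 0, 0, 0, 0, 0⟩, (0, 0, 0)⟩,
  ⟨⟨99, -6, -67, 11, 94, 32, -4, 11, -31⟩, (48, 29, 54)⟩,
  ⟨⟨0, 0, 0, 0, 0, 0, 0, 0, 0⟩, (0, 0, 0)⟩,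
  ⟨⟨0, 0, 0, 0, 0, 0, 0, 0, 0⟩, (0, 0, 0)⟩,
  ⟨⟨0, 0, 0, 0, 0, 0, 0, 0, 0⟩, (0, 0, 0)⟩,
  ⟨⟨-51, -66, -37, 59, -74, 8, 20, 5, -37⟩, (55, 38, 55)⟩,
  ⟨⟨0, 0, 0, 0, 0, 0, 0, 0, 0⟩, (0, 0, 0)⟩,
  ⟨⟨0, 0, 0, 0, 0, 0, 0, 0, 0⟩, (0, 0, 0)⟩,
  ⟨⟨-31, -74, -52, -81, 54, 13, 16, 13, -35⟩, (64, 55, 54)⟩,
  ⟨⟨-31, 74, -52, -81, -54, 13, 16, -13, -35⟩, (11, 15, 47)⟩,
  ⟨⟨-39, 66, -53, -89, -46, 52, 8, -19, -31⟩, (58, 65, 50)⟩,
  ⟨⟨0, 0, 0, 0, 0, 0, 0, 0, 0⟩, (0, 0, 0)⟩,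
  ⟨⟨79, 14, -107, 49, -74, 28, -12, -21, -17⟩, (57, 3, 21)⟩,
  ⟨⟨0, 0, 0, 0, 0, 0, 0, 0, 0⟩, (0, 0, 0)⟩,
  ⟨⟨0, 0, 0, 0, 0, 0, 0, 0, 0⟩, (0, 0, 0)⟩,
  ⟨⟨31, -74, -83, -81, -54, 68, -16, 13, -19⟩, (61, 33, 67)⟩,
  ⟨⟨0, 0, 0, 0, 0, 0, 0, 0, 0⟩, (0, 0, 0)⟩,
  ⟨⟨0, 0, 0, 0, 0, 0, 0, 0, 0⟩, (0, 0, 0)⟩,
  ⟨⟨0, 0, 0, 0, 0, 0, 0, 0, 0⟩, (0, 0, 0)⟩,
  ⟨⟨0, 0, 0, 0, 0, 0, 0, 0, 0⟩, (0, 0, 0)⟩]

/-- Data of a prime. -/
noncomputable def Dm : PD := ⟨(nat_lit 43), (nat_lit 2), (989, 1, 17), (1652, 774, 636), (172, 5, 130)⟩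

theorem Dm_ok : Dm.Ok := pdb_sound (s := 1) (C := ⟨⟨43, -38, -44, 43, 38, 1, 0, 9, -19⟩, (5, 38, 9)⟩) (by show Nat.Prime 43; norm_num) (by decide +kernel)

/-- Lines of the first type. -/
noncomputable def Clm : List C1 := [⟨⟨43, 38, -44, 43, -38, 1, 0, -9, -19⟩, (42, 1, 24)⟩,
  ⟨⟨0, 0, 0, 0, 0, 0, 0, 0, 0⟩, (0, 0, 0)⟩,
  ⟨⟨57, -18, -16, -17, -58, 1, 4, 1, -23⟩, (41, 27, 24)⟩,
  ⟨⟨7, -38, -56, -33, -42, 49, -16, 7, -1⟩, (28, 40, 22)⟩,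
  ⟨⟨0, 0, 0, 0, 0, 0, 0, 0, 0⟩, (0, 0, 0)⟩,
  ⟨⟨0, 0, 0, 0, 0, 0, 0, 0, 0⟩, (0, 0, 0)⟩,
  ⟨⟨0, 0, 0, 0, 0, 0, 0, 0, 0⟩, (0, 0, 0)⟩,
  ⟨⟨0, 0, 0, 0, 0, 0, 0, 0, 0⟩, (0, 0, 0)⟩,
  ⟨⟨0, 0, 0, 0, 0, 0, 0, 0, 0⟩, (0, 0, 0)⟩,
  ⟨⟨0, 0, 0, 0, 0, 0, 0, 0, 0⟩, (0, 0, 0)⟩,
  ⟨⟨0, 0, 0, 0, 0, 0, 0, 0, 0⟩, (0, 0, 0)⟩,
  ⟨⟨27, -18, -71, -53, -22, 4, -4, 17, -7⟩, (6, 36, 23)⟩,
  ⟨⟨0, 0, 0, 0, 0, 0, 0, 0, 0⟩, (0, 0, 0)⟩,
  ⟨⟨0, 0, 0, 0, 0, 0, 0, 0, 0⟩, (0, 0, 0)⟩,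
  ⟨⟨-7, -2, -64, -47, -38, 31, 12, -15, -7⟩, (37, 15, 41)⟩,
  ⟨⟨-7, 2, -64, -47, 38, 31, 12, 15, -7⟩, (3, 14, 1)⟩,
  ⟨⟨-7, 38, -49, 33, 42, 16, 16, -7, -17⟩, (27, 14, 12)⟩,
  ⟨⟨0, 0, 0, 0, 0, 0, 0, 0, 0⟩, (0, 0, 0)⟩,
  ⟨⟨0, 0, 0, 0, 0, 0, 0, 0, 0⟩, (0, 0, 0)⟩,
  ⟨⟨57, 18, -16, -17, 58, 1, 4, -1, -23⟩, (36, 30, 41)⟩,
  ⟨⟨53, 22, -49, 27, -18, 44, 4, -17, -11⟩, (6, 42, 11)⟩,
  ⟨⟨0, 0, 0, 0, 0, 0, 0, 0, 0⟩, (0, 0, 0)⟩,
  ⟨⟨0, 0, 0, 0, 0, 0, 0, 0, 0⟩, (0, 0, 0)⟩,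
  ⟨⟨27, 18, -71, -53, 22, 4, -4, -17, -7⟩, (1, 6, 11)⟩,
  ⟨⟨57, -18, -41, -17, -58, 16, -4, -1, -19⟩, (7, 13, 41)⟩,
  ⟨⟨0, 0, 0, 0, 0, 0, 0, 0, 0⟩, (0, 0, 0)⟩,
  ⟨⟨0, 0, 0, 0, 0, 0, 0, 0, 0⟩, (0, 0, 0)⟩,
  ⟨⟨7, 38, -56, -33, 42, 49, -16, -7, -1⟩, (27, 14, 12)⟩,
  ⟨⟨7, 2, -71, -47, -38, 16, 12, -15, -5⟩, (3, 29, 42)⟩,
  ⟨⟨7, -2, -71, -47, 38, 16, 12, 15, -5⟩, (37, 28, 2)⟩,
  ⟨⟨0, 0, 0, 0, 0, 0, 0, 0, 0⟩, (0, 0, 0)⟩,
  ⟨⟨0, 0, 0, 0, 0, 0, 0, 0, 0⟩, (0, 0, 0)⟩,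
  ⟨⟨53, -22, -49, 27, 18, 44, 4, 17, -11⟩, (36, 37, 23)⟩,
  ⟨⟨0, 0, 0, 0, 0, 0, 0, 0, 0⟩, (0, 0, 0)⟩,
  ⟨⟨0, 0, 0, 0, 0, 0, 0, 0, 0⟩, (0, 0, 0)⟩,
  ⟨⟨0, 0, 0, 0, 0, 0, 0, 0, 0⟩, (0, 0, 0)⟩,
  ⟨⟨0, 0, 0, 0, 0, 0, 0, 0, 0⟩, (0, 0, 0)⟩,
  ⟨⟨0, 0, 0, 0, 0, 0, 0, 0, 0⟩, (0, 0, 0)⟩,
  ⟨⟨0, 0, 0, 0, 0, 0, 0, 0, 0⟩, (0, 0, 0)⟩,
  ⟨⟨0, 0, 0, 0, 0, 0, 0, 0, 0⟩, (0, 0, 0)⟩,
  ⟨⟨-7, -38, -49, 33, -42, 16, 16, 7, -17⟩, (28, 40, 22)⟩,
  ⟨⟨57, 18, -41, -17, 58, 16, -4, 1, -19⟩, (2, 16, 24)⟩,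
  ⟨⟨0, 0, 0, 0, 0, 0, 0, 0, 0⟩, (0, 0, 0)⟩]

/-- Unit moves. -/
noncomputable def U : List Mv := [mz,
  mz,
  ⟨⟨-1, 0, 1, 0, 1, 0, 0, 0, 1⟩, .nil, (nat_lit 10), (nat_lit 5), (nat_lit 1), (nat_lit 1), (0, 0, 0), [], 6⟩,
  ⟨⟨1, 0, 0, 0, -1, 0, 0, 0, 1⟩, .nil, (nat_lit 10), (nat_lit 10), (nat_lit 2), (nat_lit 1), (0, 0, 0), [], 10⟩,
  mz,
  mz,
  ⟨⟨-1, 0, 1, 0, -1, 0, 0, 0, 1⟩, .nil, (nat_lit 0), (nat_lit 6), (nat_lit 1), (nat_lit 0), (0, 0, 0), [], 5⟩,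
  ⟨⟨-1, 0, 1, 0, -1, 0, 0, 0, 1⟩, .nil, (nat_lit 0), (nat_lit 6), (nat_lit 1), (nat_lit 0), (0, 0, 0), [], 5⟩,
  ⟨⟨1, 0, 0, 0, -1, 0, 0, 0, 1⟩, .nil, (nat_lit 10), (nat_lit 10), (nat_lit 2), (nat_lit 1), (0, 0, 0), [], 10⟩,
  ⟨⟨-1, 0, 1, 0, 1, 0, 0, 0, 1⟩, .nil, (nat_lit 10), (nat_lit 5), (nat_lit 1), (nat_lit 1), (0, 0, 0), [], 6⟩,
  mz]

theorem v_ty : tyb Dm S.ty1 Clm = true := by decide +kernel

theorem v_ty0 : tyb D0 (S.tys.getD 0 0) Cl0 = true := by decide +kernel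

theorem v_ty1 : tyb D1 (S.tys.getD 1 0) Cl1 = true := by decide +kernel

theorem v_msc : mscb S D0 [D1] Dm (nat_lit 18) = true := by decide +kernel

theorem v_mv0 : mvsn (nat_lit 1127817889) S D0 [D1] Dm (nat_lit 18) 0 D0 = true := by decide +kernel

theorem v_mv1 : mvsn (nat_lit 1127817889) S D0 [D1] Dm (nat_lit 18) 1 D1 = true := by decide +kernel

theorem v_mm : mmsn (nat_lit 1127817889) S D0 [D1] Dm (nat_lit 18) = true := by decide +kernel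

theorem v_un : unb S D0 (nat_lit 18) U = true := by decide +kernel

theorem v_ok : okb S.oks [(0, 0, 0), (0, 0, 0), (0, 0, 0), (5, 30, 3)] = true := by decide +kernel

theorem v_part : ∀ d < D0.p, (nat_lit 18).testBit d = true → part S (zc (D0 :: [D1])) d = true := by
  intro d hd h
  have h1 : ∀ d < 11, (nat_lit 18).testBit d = true → d = 1 ∨ d = 4 := by decide
  rcases h1 d hd h with rfl | rfl
  · exact part_1
  · exact part_4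

theorem main (n : ℕ) (ho : Odd n) (hr : ¬ Rep n) (h0 : Split 11 n) (h1 : Split 71 n) (hm : Split 43 n) :
    n ∈ EE := by
  refine concln (W := nat_lit 1127817889) (S := S) (P0 := D0) (Pl := [D1]) (Pm := Dm) (cn := nat_lit 18) ?_ Dm_ok v_ty ?_ ?_ v_msc ?_ v_mm v_un v_part v_ok
    n ho hr ?_ hm
  · simp only [List.forall_mem_cons]
    exact ⟨D0_ok, D1_ok, fun _ h => absurd h (by simp)⟩
  · exact all2 (φ := fun j P => ∃ L, tyb P (S.tys.getD j 0) L = true) ⟨_, v_ty0⟩ ⟨_, v_ty1⟩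
  · exact all2 (φ := fun j P => Nat.ble (S.pks.getD j 0) (Nat.pow P.p P.K) = true) (by decide +kernel) (by decide +kernel)
  · exact all2 (φ := fun i P => mvsn (nat_lit 1127817889) S D0 [D1] Dm (nat_lit 18) i P = true) v_mv0 v_mv1
  · simp only [List.forall_mem_cons]
    exact ⟨h0, h1, fun _ h => absurd h (by simp)⟩

end Pool.Agent.Work.MP_9954fe_nt.P11_71_43

namespace Pool.Agent.Work.MP_9954fe_nt.P11_71_53

/-- Dummy move. -/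
noncomputable def mz : Mv := ⟨⟨0, 0, 0, 0, 0, 0, 0, 0, 0⟩, .nil, (nat_lit 0), (nat_lit 0), (nat_lit 0), (nat_lit 0), (0, 0, 0), [], 0⟩

/-- Moves. -/
noncomputable def t0_1 : List Mv := [
  ⟨⟨3, 8, -11, -10, -1, 0, 4, -4, -11⟩, (.cons (nat_lit 205) (nat_lit 45) (nat_lit 482) (nat_lit 1) (.cons
 (nat_lit 4806) (nat_lit 1674) (nat_lit 1237) (nat_lit 1) .nil)), (nat_lit 8), (nat_lit 38), (nat_lit 33),
 (nat_lit 1), (4, 5, 9), [189, 424], 32⟩,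
  ⟨⟨3, 8, -11, 10, 1, 0, 4, -4, -11⟩, (.cons (nat_lit 123) (nat_lit 960) (nat_lit 136) (nat_lit 1) (.cons
 (nat_lit 3249) (nat_lit 1678) (nat_lit 4640) (nat_lit 1) .nil)), (nat_lit 38), (nat_lit 50), (nat_lit 8),
 (nat_lit 1), (4, 6, 9), [1, 1922], 46⟩,
  ⟨⟨1, -12, 0, 10, 1, 0, 4, -4, -11⟩, (.cons (nat_lit 1209) (nat_lit 831) (nat_lit 832) (nat_lit 1) (.cons
 (nat_lit 3069) (nat_lit 2353) (nat_lit 4114) (nat_lit 1) .nil)), (nat_lit 27), (nat_lit 49), (nat_lit 3),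
 (nat_lit 1), (5, 6, 9), [725, 3147], 48⟩,
  ⟨⟨1, -12, 0, -10, -1, 0, 4, -4, -11⟩, (.cons (nat_lit 162) (nat_lit 200) (nat_lit 173) (nat_lit 1) (.cons
 (nat_lit 5040) (nat_lit 159) (nat_lit 2969) (nat_lit 1) .nil)), (nat_lit 52), (nat_lit 33), (nat_lit 5),
 (nat_lit 1), (5, 5, 9), [168, 4479], 29⟩,
  ⟨⟨1, -12, 0, -10, -1, 0, 4, -4, -11⟩, (.cons (nat_lit 162) (nat_lit 200) (nat_lit 173) (nat_lit 1) (.cons
 (nat_lit 5040) (nat_lit 159) (nat_lit 2969) (nat_lit 1) .nil)), (nat_lit 52), (nat_lit 33), (nat_lit 5),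
 (nat_lit 1), (5, 5, 9), [168, 4479], 29⟩,
  ⟨⟨1, -12, 0, 10, 1, 0, 4, -4, -11⟩, (.cons (nat_lit 1209) (nat_lit 831) (nat_lit 832) (nat_lit 1) (.cons
 (nat_lit 3069) (nat_lit 2353) (nat_lit 4114) (nat_lit 1) .nil)), (nat_lit 27), (nat_lit 49), (nat_lit 3),
 (nat_lit 1), (5, 6, 9), [725, 3147], 48⟩,
  ⟨⟨1, -12, 0, -10, -1, 0, 4, -4, -11⟩, (.cons (nat_lit 162) (nat_lit 200) (nat_lit 173) (nat_lit 1) (.cons
 (nat_lit 5040) (nat_lit 159) (nat_lit 2969) (nat_lit 1) .nil)), (nat_lit 52), (nat_lit 33), (nat_lit 5),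
 (nat_lit 1), (5, 5, 9), [168, 4479], 29⟩,
  ⟨⟨3, 8, -11, 10, 1, 0, 4, -4, -11⟩, (.cons (nat_lit 123) (nat_lit 960) (nat_lit 136) (nat_lit 1) (.cons
 (nat_lit 3249) (nat_lit 1678) (nat_lit 4640) (nat_lit 1) .nil)), (nat_lit 38), (nat_lit 50), (nat_lit 8),
 (nat_lit 1), (4, 6, 9), [1, 1922], 46⟩,
  ⟨⟨1, -12, 0, -10, -1, 0, 4, -4, -11⟩, (.cons (nat_lit 162) (nat_lit 200) (nat_lit 173) (nat_lit 1) (.cons
 (nat_lit 5040) (nat_lit 159) (nat_lit 2969) (nat_lit 1) .nil)), (nat_lit 52), (nat_lit 33), (nat_lit 5),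
 (nat_lit 1), (5, 5, 9), [168, 4479], 29⟩,
  ⟨⟨3, 8, -11, -10, -1, 0, 4, -4, -11⟩, (.cons (nat_lit 205) (nat_lit 45) (nat_lit 482) (nat_lit 1) (.cons
 (nat_lit 4806) (nat_lit 1674) (nat_lit 1237) (nat_lit 1) .nil)), (nat_lit 8), (nat_lit 38), (nat_lit 33),
 (nat_lit 1), (4, 5, 9), [189, 424], 32⟩,
  ⟨⟨1, -12, 0, -10, -1, 0, 4, -4, -11⟩, (.cons (nat_lit 162) (nat_lit 200) (nat_lit 173) (nat_lit 1) (.cons
 (nat_lit 5040) (nat_lit 159) (nat_lit 2969) (nat_lit 1) .nil)), (nat_lit 52), (nat_lit 33), (nat_lit 5),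
 (nat_lit 1), (5, 5, 9), [168, 4479], 29⟩]

/-- Moves. -/
noncomputable def t0_4 : List Mv := [
  ⟨⟨-11, 0, 0, -4, 5, 12, -2, 8, -5⟩, (.cons (nat_lit 567) (nat_lit 375) (nat_lit 810) (nat_lit 1) (.cons
 (nat_lit 5040) (nat_lit 4958) (nat_lit 1033) (nat_lit 1) .nil)), (nat_lit 52), (nat_lit 49), (nat_lit 2),
 (nat_lit 1), (0, 5, 8), [285, 451], 24⟩,
  ⟨⟨9, 8, -5, 4, -5, -12, -2, 8, -5⟩, (.cons (nat_lit 449) (nat_lit 666) (nat_lit 424) (nat_lit 1) (.cons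
 (nat_lit 1543) (nat_lit 1942) (nat_lit 1497) (nat_lit 1) .nil)), (nat_lit 23), (nat_lit 38), (nat_lit 40),
 (nat_lit 1), (8, 6, 8), [237, 3040], 16⟩,
  ⟨⟨9, 8, -5, 4, -5, -12, -2, 8, -5⟩, (.cons (nat_lit 449) (nat_lit 666) (nat_lit 424) (nat_lit 1) (.cons
 (nat_lit 1543) (nat_lit 1942) (nat_lit 1497) (nat_lit 1) .nil)), (nat_lit 23), (nat_lit 38), (nat_lit 40),
 (nat_lit 1), (8, 6, 8), [237, 3040], 16⟩,
  ⟨⟨9, 8, -5, 4, -5, -12, -2, 8, -5⟩, (.cons (nat_lit 449) (nat_lit 666) (nat_lit 424) (nat_lit 1) (.cons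
 (nat_lit 1543) (nat_lit 1942) (nat_lit 1497) (nat_lit 1) .nil)), (nat_lit 23), (nat_lit 38), (nat_lit 40),
 (nat_lit 1), (8, 6, 8), [237, 3040], 16⟩,
  ⟨⟨9, 8, -5, -4, 5, 12, -2, 8, -5⟩, (.cons (nat_lit 64) (nat_lit 1278) (nat_lit 716) (nat_lit 1) (.cons
 (nat_lit 1554) (nat_lit 4397) (nat_lit 1866) (nat_lit 1) .nil)), (nat_lit 50), (nat_lit 50), (nat_lit 26),
 (nat_lit 1), (8, 5, 8), [587, 1828], 23⟩,
  ⟨⟨-11, 0, 0, 4, -5, -12, -2, 8, -5⟩, (.cons (nat_lit 850) (nat_lit 1279) (nat_lit 109) (nat_lit 1) (.cons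
 (nat_lit 987) (nat_lit 2474) (nat_lit 3509) (nat_lit 1) .nil)), (nat_lit 10), (nat_lit 33), (nat_lit 1),
 (nat_lit 1), (0, 6, 8), [137, 1488], 41⟩,
  ⟨⟨9, 8, -5, 4, -5, -12, -2, 8, -5⟩, (.cons (nat_lit 449) (nat_lit 666) (nat_lit 424) (nat_lit 1) (.cons
 (nat_lit 1543) (nat_lit 1942) (nat_lit 1497) (nat_lit 1) .nil)), (nat_lit 23), (nat_lit 38), (nat_lit 40),
 (nat_lit 1), (8, 6, 8), [237, 3040], 16⟩,
  ⟨⟨9, 8, -5, -4, 5, 12, -2, 8, -5⟩, (.cons (nat_lit 64) (nat_lit 1278) (nat_lit 716) (nat_lit 1) (.cons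
 (nat_lit 1554) (nat_lit 4397) (nat_lit 1866) (nat_lit 1) .nil)), (nat_lit 50), (nat_lit 50), (nat_lit 26),
 (nat_lit 1), (8, 5, 8), [587, 1828], 23⟩,
  ⟨⟨-11, 0, 0, 4, -5, -12, -2, 8, -5⟩, (.cons (nat_lit 850) (nat_lit 1279) (nat_lit 109) (nat_lit 1) (.cons
 (nat_lit 987) (nat_lit 2474) (nat_lit 3509) (nat_lit 1) .nil)), (nat_lit 10), (nat_lit 33), (nat_lit 1),
 (nat_lit 1), (0, 6, 8), [137, 1488], 41⟩,
  ⟨⟨9, 8, -5, 4, -5, -12, -2, 8, -5⟩, (.cons (nat_lit 449) (nat_lit 666) (nat_lit 424) (nat_lit 1) (.cons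
 (nat_lit 1543) (nat_lit 1942) (nat_lit 1497) (nat_lit 1) .nil)), (nat_lit 23), (nat_lit 38), (nat_lit 40),
 (nat_lit 1), (8, 6, 8), [237, 3040], 16⟩,
  ⟨⟨9, 8, -5, 4, -5, -12, -2, 8, -5⟩, (.cons (nat_lit 449) (nat_lit 666) (nat_lit 424) (nat_lit 1) (.cons
 (nat_lit 1543) (nat_lit 1942) (nat_lit 1497) (nat_lit 1) .nil)), (nat_lit 23), (nat_lit 38), (nat_lit 40),
 (nat_lit 1), (8, 6, 8), [237, 3040], 16⟩]

/-- Moves. -/
noncomputable def t1_1 : List Mv := [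
  mz,
  ⟨⟨63, 40, -56, 10, 21, 70, -12, 60, -13⟩, (.cons (nat_lit 1330) (nat_lit 659) (nat_lit 1236) (nat_lit 1)
 (.cons (nat_lit 4580) (nat_lit 4789) (nat_lit 4651) (nat_lit 1) .nil)), (nat_lit 52), (nat_lit 12), (nat_lit
 45), (nat_lit 1), (31, 50, 11), [656, 2962], 39⟩,
  mz,
  ⟨⟨65, -24, -72, -4, 55, -48, -10, -40, -49⟩, (.cons (nat_lit 1330) (nat_lit 55) (nat_lit 846) (nat_lit 1)
 (.cons (nat_lit 1440) (nat_lit 3833) (nat_lit 2184) (nat_lit 1) .nil)), (nat_lit 52), (nat_lit 17), (nat_lit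
 14), (nat_lit 1), (37, 1, 38), [159, 1772], 9⟩,
  ⟨⟨27, 68, 16, 64, -15, -62, -6, 48, -43⟩, (.cons (nat_lit 688) (nat_lit 860) (nat_lit 992) (nat_lit 1) (.cons
 (nat_lit 4658) (nat_lit 1186) (nat_lit 3642) (nat_lit 1) .nil)), (nat_lit 11), (nat_lit 31), (nat_lit 1),
 (nat_lit 1), (60, 16, 34), [560, 342], 11⟩,
  ⟨⟨-33, 20, -59, -64, -15, 62, -6, -48, -43⟩, (.cons (nat_lit 1166) (nat_lit 304) (nat_lit 259) (nat_lit 1)
 (.cons (nat_lit 828) (nat_lit 2296) (nat_lit 4968) (nat_lit 1) .nil)), (nat_lit 36), (nat_lit 16), (nat_lit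
 52), (nat_lit 1), (23, 36, 30), [1123, 2958], 18⟩,
  mz,
  ⟨⟨-29, 72, 20, 56, 25, -68, -38, 16, -35⟩, (.cons (nat_lit 168) (nat_lit 448) (nat_lit 1307) (nat_lit 1)
 (.cons (nat_lit 4898) (nat_lit 188) (nat_lit 3186) (nat_lit 1) .nil)), (nat_lit 40), (nat_lit 12), (nat_lit
 1), (nat_lit 1), (33, 44, 31), [678, 768], 27⟩,
  ⟨⟨3, 40, -76, -64, -25, 12, 26, -32, -67⟩, (.cons (nat_lit 788) (nat_lit 1004) (nat_lit 504) (nat_lit 1)
 (.cons (nat_lit 2626) (nat_lit 27) (nat_lit 185) (nat_lit 1) .nil)), (nat_lit 20), (nat_lit 4), (nat_lit 8),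
 (nat_lit 1), (14, 9, 3), [738, 2369], 4⟩,
  mz,
  mz,
  ⟨⟨33, -20, -92, 64, 15, -2, 6, 48, -49⟩, (.cons (nat_lit 1040) (nat_lit 781) (nat_lit 686) (nat_lit 1) (.cons
 (nat_lit 3059) (nat_lit 1467) (nat_lit 959) (nat_lit 1) .nil)), (nat_lit 28), (nat_lit 17), (nat_lit 15),
 (nat_lit 1), (67, 3, 38), [102, 2396], 5⟩,
  ⟨⟨-51, -52, -5, 44, -15, -82, -42, 24, -25⟩, (.cons (nat_lit 185) (nat_lit 993) (nat_lit 1) (nat_lit 88)
 (.cons (nat_lit 2231) (nat_lit 111) (nat_lit 2420) (nat_lit 1) .nil)), (nat_lit 28), (nat_lit 29), (nat_lit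
 28), (nat_lit 1), (61, 49, 21), [719, 4257], 14⟩,
  mz,
  mz,
  ⟨⟨51, -52, -56, -44, -15, -38, 42, 24, -67⟩, (.cons (nat_lit 12) (nat_lit 1180) (nat_lit 1256) (nat_lit 1)
 (.cons (nat_lit 2153) (nat_lit 1733) (nat_lit 1524) (nat_lit 1) .nil)), (nat_lit 25), (nat_lit 35), (nat_lit
 32), (nat_lit 1), (24, 67, 49), [701, 2545], 6⟩,
  ⟨⟨17, 24, -89, -36, -55, -12, 54, -24, -53⟩, (.cons (nat_lit 334) (nat_lit 955) (nat_lit 980) (nat_lit 1)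
 (.cons (nat_lit 2888) (nat_lit 4686) (nat_lit 1661) (nat_lit 1) .nil)), (nat_lit 32), (nat_lit 25), (nat_lit
 24), (nat_lit 1), (7, 52, 64), [300, 2295], 48⟩,
  mz,
  ⟨⟨9, 56, -64, -56, -25, -12, 38, -16, -73⟩, (.cons (nat_lit 522) (nat_lit 482) (nat_lit 942) (nat_lit 1)
 (.cons (nat_lit 3600) (nat_lit 115) (nat_lit 2053) (nat_lit 1) .nil)), (nat_lit 24), (nat_lit 37), (nat_lit
 6), (nat_lit 1), (56, 46, 55), [510, 609], 13⟩,
  ⟨⟨-61, -48, 25, 44, -55, -32, -22, -8, -55⟩, (.cons (nat_lit 65) (nat_lit 1249) (nat_lit 335) (nat_lit 1)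
 (.cons (nat_lit 2149) (nat_lit 4607) (nat_lit 2684) (nat_lit 1) .nil)), (nat_lit 25), (nat_lit 32), (nat_lit
 5), (nat_lit 1), (9, 68, 37), [254, 2507], 45⟩,
  mz,
  mz,
  ⟨⟨37, 48, -73, -36, 55, 48, 54, 24, -1⟩, (.cons (nat_lit 267) (nat_lit 567) (nat_lit 547) (nat_lit 1) (.cons
 (nat_lit 2163) (nat_lit 1758) (nat_lit 3450) (nat_lit 1) .nil)), (nat_lit 5), (nat_lit 34), (nat_lit 39),
 (nat_lit 1), (15, 66, 43), [1139, 1386], 19⟩,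
  ⟨⟨-61, 48, 25, 44, 55, -32, -22, 8, -55⟩, (.cons (nat_lit 1127) (nat_lit 760) (nat_lit 1175) (nat_lit 1)
 (.cons (nat_lit 3039) (nat_lit 4132) (nat_lit 952) (nat_lit 1) .nil)), (nat_lit 46), (nat_lit 42), (nat_lit
 47), (nat_lit 1), (13, 43, 14), [673, 1355], 11⟩,
  ⟨⟨-39, 40, -41, 44, 55, -12, 22, -8, -77⟩, (.cons (nat_lit 933) (nat_lit 343) (nat_lit 469) (nat_lit 1)
 (.cons (nat_lit 2593) (nat_lit 4782) (nat_lit 1471) (nat_lit 1) .nil)), (nat_lit 15), (nat_lit 6), (nat_lit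
 37), (nat_lit 1), (2, 56, 28), [778, 466], 37⟩,
  mz,
  ⟨⟨51, -4, 40, 10, -69, -20, 60, 12, -49⟩, (.cons (nat_lit 1072) (nat_lit 1106) (nat_lit 1141) (nat_lit 1)
 (.cons (nat_lit 4832) (nat_lit 4434) (nat_lit 3130) (nat_lit 1) .nil)), (nat_lit 17), (nat_lit 49), (nat_lit
 29), (nat_lit 1), (60, 41, 33), [1006, 4285], 9⟩,
  mz,
  mz,
  ⟨⟨9, 28, -85, 70, -11, -30, -4, -44, -49⟩, (.cons (nat_lit 1092) (nat_lit 1176) (nat_lit 1134) (nat_lit 1)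
 (.cons (nat_lit 3285) (nat_lit 1597) (nat_lit 51) (nat_lit 1) .nil)), (nat_lit 16), (nat_lit 25), (nat_lit
 32), (nat_lit 1), (40, 35, 69), [548, 2494], 39⟩,
  mz,
  ⟨⟨-11, 72, -25, 50, -11, -80, -44, 4, -29⟩, (.cons (nat_lit 323) (nat_lit 818) (nat_lit 1074) (nat_lit 1)
 (.cons (nat_lit 1101) (nat_lit 3638) (nat_lit 3681) (nat_lit 1) .nil)), (nat_lit 10), (nat_lit 15), (nat_lit
 51), (nat_lit 1), (44, 13, 34), [518, 3560], 31⟩,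
  mz,
  ⟨⟨-29, -72, 20, 56, -25, -68, -38, -16, -35⟩, (.cons (nat_lit 1130) (nat_lit 823) (nat_lit 148) (nat_lit 1)
 (.cons (nat_lit 1527) (nat_lit 1751) (nat_lit 4229) (nat_lit 1) .nil)), (nat_lit 8), (nat_lit 21), (nat_lit
 42), (nat_lit 1), (27, 36, 6), [207, 3264], 44⟩,
  ⟨⟨75, 20, -32, 10, -21, -80, 12, 60, -25⟩, (.cons (nat_lit 850) (nat_lit 1299) (nat_lit 11) (nat_lit 1)
 (.cons (nat_lit 3179) (nat_lit 4361) (nat_lit 427) (nat_lit 1) .nil)), (nat_lit 0), (nat_lit 41), (nat_lit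
 13), (nat_lit 1), (30, 4, 19), [158, 1161], 52⟩,
  mz,
  ⟨⟨3, -40, -76, -64, 25, 12, 26, 32, -67⟩, (.cons (nat_lit 447) (nat_lit 83) (nat_lit 1215) (nat_lit 1) (.cons
 (nat_lit 4667) (nat_lit 156) (nat_lit 1811) (nat_lit 1) .nil)), (nat_lit 7), (nat_lit 43), (nat_lit 40),
 (nat_lit 1), (58, 17, 53), [578, 4447], 12⟩,
  mz,
  ⟨⟨17, -24, -89, 36, -55, 12, 54, 24, -53⟩, (.cons (nat_lit 642) (nat_lit 786) (nat_lit 1126) (nat_lit 1)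
 (.cons (nat_lit 2704) (nat_lit 2777) (nat_lit 491) (nat_lit 1) .nil)), (nat_lit 32), (nat_lit 44), (nat_lit
 4), (nat_lit 1), (5, 44, 66), [718, 4774], 48⟩,
  ⟨⟨-23, -72, 32, 64, -25, -52, -26, -32, -41⟩, (.cons (nat_lit 691) (nat_lit 1019) (nat_lit 1268) (nat_lit 1)
 (.cons (nat_lit 4464) (nat_lit 2391) (nat_lit 1952) (nat_lit 1) .nil)), (nat_lit 42), (nat_lit 36), (nat_lit
 13), (nat_lit 1), (21, 28, 33), [874, 4884], 36⟩,
  mz,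
  mz,
  ⟨⟨75, 16, -52, 4, -55, -52, 10, 40, -59⟩, (.cons (nat_lit 17) (nat_lit 981) (nat_lit 494) (nat_lit 1) (.cons
 (nat_lit 4002) (nat_lit 1655) (nat_lit 398) (nat_lit 1) .nil)), (nat_lit 24), (nat_lit 14), (nat_lit 27),
 (nat_lit 1), (5, 5, 48), [1294, 642], 41⟩,
  ⟨⟨11, -72, -36, -50, 11, -30, 44, -4, -73⟩, (.cons (nat_lit 108) (nat_lit 175) (nat_lit 49) (nat_lit 1)
 (.cons (nat_lit 4386) (nat_lit 3651) (nat_lit 2553) (nat_lit 1) .nil)), (nat_lit 33), (nat_lit 48), (nat_lit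
 34), (nat_lit 1), (69, 22, 63), [455, 4192], 50⟩,
  ⟨⟨-39, -40, -41, 44, -55, -12, 22, 8, -77⟩, (.cons (nat_lit 780) (nat_lit 861) (nat_lit 1253) (nat_lit 1)
 (.cons (nat_lit 3645) (nat_lit 3408) (nat_lit 2591) (nat_lit 1) .nil)), (nat_lit 17), (nat_lit 12), (nat_lit
 2), (nat_lit 1), (46, 10, 5), [1277, 4733], 20⟩,
  mz,
  ⟨⟨51, 52, -56, -44, 15, -38, 42, -24, -67⟩, (.cons (nat_lit 578) (nat_lit 933) (nat_lit 88) (nat_lit 1)
 (.cons (nat_lit 41) (nat_lit 2210) (nat_lit 3118) (nat_lit 1) .nil)), (nat_lit 28), (nat_lit 1), (nat_lit 43),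
 (nat_lit 1), (52, 15, 47), [1158, 4733], 5⟩,
  ⟨⟨9, -16, 80, -10, -69, -10, 60, -12, -11⟩, (.cons (nat_lit 1330) (nat_lit 647) (nat_lit 918) (nat_lit 1)
 (.cons (nat_lit 3883) (nat_lit 2036) (nat_lit 2551) (nat_lit 1) .nil)), (nat_lit 52), (nat_lit 21), (nat_lit
 24), (nat_lit 1), (33, 58, 7), [1167, 2277], 26⟩,
  ⟨⟨9, -16, -89, -10, -69, 20, 60, -12, -49⟩, (.cons (nat_lit 1064) (nat_lit 629) (nat_lit 1261) (nat_lit 1)
 (.cons (nat_lit 3729) (nat_lit 1199) (nat_lit 1664) (nat_lit 1) .nil)), (nat_lit 20), (nat_lit 11), (nat_lit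
 6), (nat_lit 1), (19, 42, 32), [712, 212], 33⟩,
  ⟨⟨9, -56, -64, -56, 25, -12, 38, 16, -73⟩, (.cons (nat_lit 502) (nat_lit 817) (nat_lit 725) (nat_lit 1)
 (.cons (nat_lit 1617) (nat_lit 4009) (nat_lit 3515) (nat_lit 1) .nil)), (nat_lit 7), (nat_lit 38), (nat_lit
 9), (nat_lit 1), (4, 54, 9), [237, 4618], 12⟩,
  ⟨⟨-75, 16, 23, 4, 55, 48, -10, 40, -49⟩, (.cons (nat_lit 590) (nat_lit 1123) (nat_lit 1222) (nat_lit 1)
 (.cons (nat_lit 1533) (nat_lit 4938) (nat_lit 1) (nat_lit 3195) .nil)), (nat_lit 4), (nat_lit 51), (nat_lit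
 31), (nat_lit 1), (26, 45, 65), [96, 3227], 22⟩,
  ⟨⟨9, -76, -20, 44, 15, -82, -42, -24, -25⟩, (.cons (nat_lit 93) (nat_lit 718) (nat_lit 1033) (nat_lit 1)
 (.cons (nat_lit 4198) (nat_lit 2702) (nat_lit 3885) (nat_lit 1) .nil)), (nat_lit 35), (nat_lit 51), (nat_lit
 12), (nat_lit 1), (1, 68, 19), [642, 2751], 51⟩,
  mz,
  ⟨⟨13, -72, 23, -70, -11, 40, 4, -44, -53⟩, (.cons (nat_lit 1010) (nat_lit 1125) (nat_lit 222) (nat_lit 1)
 (.cons (nat_lit 3059) (nat_lit 1222) (nat_lit 94) (nat_lit 1) .nil)), (nat_lit 1), (nat_lit 10), (nat_lit 22),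
 (nat_lit 1), (14, 12, 48), [499, 4134], 33⟩,
  ⟨⟨9, 16, 80, -10, 69, -10, 60, 12, -11⟩, (.cons (nat_lit 1208) (nat_lit 102) (nat_lit 1219) (nat_lit 1)
 (.cons (nat_lit 4177) (nat_lit 2304) (nat_lit 3089) (nat_lit 1) .nil)), (nat_lit 25), (nat_lit 40), (nat_lit
 16), (nat_lit 1), (58, 46, 8), [222, 28], 46⟩,
  ⟨⟨75, -20, -32, 10, 21, -80, 12, -60, -25⟩, (.cons (nat_lit 1330) (nat_lit 284) (nat_lit 695) (nat_lit 1)
 (.cons (nat_lit 2260) (nat_lit 1735) (nat_lit 409) (nat_lit 1) .nil)), (nat_lit 52), (nat_lit 3), (nat_lit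
 21), (nat_lit 1), (52, 59, 14), [1283, 1615], 39⟩,
  mz,
  ⟨⟨-11, -72, -25, 50, 11, -80, -44, -4, -29⟩, (.cons (nat_lit 421) (nat_lit 1045) (nat_lit 1011) (nat_lit 1)
 (.cons (nat_lit 4149) (nat_lit 3936) (nat_lit 2726) (nat_lit 1) .nil)), (nat_lit 33), (nat_lit 4), (nat_lit
 14), (nat_lit 1), (38, 8, 10), [700, 3180], 43⟩,
  ⟨⟨-75, -20, 43, 10, -21, 70, -12, -60, -13⟩, (.cons (nat_lit 916) (nat_lit 1160) (nat_lit 980) (nat_lit 1)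
 (.cons (nat_lit 3667) (nat_lit 170) (nat_lit 3188) (nat_lit 1) .nil)), (nat_lit 12), (nat_lit 20), (nat_lit
 35), (nat_lit 1), (2, 66, 6), [1143, 3947], 35⟩,
  mz,
  mz,
  mz,
  ⟨⟨11, 72, -36, 50, 11, 30, 44, 4, -73⟩, (.cons (nat_lit 59) (nat_lit 521) (nat_lit 392) (nat_lit 1) (.cons
 (nat_lit 4497) (nat_lit 1862) (nat_lit 1092) (nat_lit 1) .nil)), (nat_lit 26), (nat_lit 47), (nat_lit 37),
 (nat_lit 1), (4, 44, 16), [969, 2716], 12⟩,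
  mz,
  ⟨⟨-13, 72, 36, 70, 11, -30, -4, 44, -49⟩, (.cons (nat_lit 564) (nat_lit 307) (nat_lit 1189) (nat_lit 1)
 (.cons (nat_lit 370) (nat_lit 1435) (nat_lit 3217) (nat_lit 1) .nil)), (nat_lit 51), (nat_lit 41), (nat_lit
 21), (nat_lit 1), (35, 30, 49), [713, 1531], 48⟩,
  ⟨⟨75, -16, -52, 4, 55, -52, 10, -40, -59⟩, (.cons (nat_lit 1330) (nat_lit 174) (nat_lit 854) (nat_lit 1)
 (.cons (nat_lit 321) (nat_lit 2803) (nat_lit 1402) (nat_lit 1) .nil)), (nat_lit 52), (nat_lit 16), (nat_lit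
 20), (nat_lit 1), (51, 51, 21), [881, 2546], 1⟩,
  mz,
  ⟨⟨-27, -68, 43, 64, -15, -2, 6, -48, -49⟩, (.cons (nat_lit 614) (nat_lit 1310) (nat_lit 403) (nat_lit 1)
 (.cons (nat_lit 4695) (nat_lit 3393) (nat_lit 4644) (nat_lit 1) .nil)), (nat_lit 11), (nat_lit 43), (nat_lit
 27), (nat_lit 1), (60, 55, 34), [1068, 4313], 30⟩,
  ⟨⟨-9, -28, -76, -70, 11, 40, 4, 44, -53⟩, (.cons (nat_lit 944) (nat_lit 608) (nat_lit 90) (nat_lit 1) (.cons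
 (nat_lit 2789) (nat_lit 3617) (nat_lit 2165) (nat_lit 1) .nil)), (nat_lit 33), (nat_lit 27), (nat_lit 31),
 (nat_lit 1), (8, 7, 28), [543, 657], 50⟩,
  ⟨⟨-23, 72, 32, 64, 25, -52, -26, 32, -41⟩, (.cons (nat_lit 817) (nat_lit 1101) (nat_lit 545) (nat_lit 1)
 (.cons (nat_lit 4155) (nat_lit 2570) (nat_lit 4905) (nat_lit 1) .nil)), (nat_lit 40), (nat_lit 46), (nat_lit
 21), (nat_lit 1), (27, 36, 12), [227, 805], 27⟩,
  ⟨⟨17, 24, 72, 36, 55, -48, 54, -24, -1⟩, (.cons (nat_lit 1330) (nat_lit 899) (nat_lit 872) (nat_lit 1) (.cons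
 (nat_lit 2263) (nat_lit 3813) (nat_lit 3346) (nat_lit 1) .nil)), (nat_lit 52), (nat_lit 23), (nat_lit 48),
 (nat_lit 1), (30, 51, 41), [532, 2305], 15⟩]

/-- Moves. -/
noncomputable def t1_4 : List Mv := [
  mz,
  ⟨⟨63, 40, -56, 10, 21, 70, -12, 60, -13⟩, (.cons (nat_lit 1330) (nat_lit 659) (nat_lit 1236) (nat_lit 1)
 (.cons (nat_lit 4580) (nat_lit 4789) (nat_lit 4651) (nat_lit 1) .nil)), (nat_lit 52), (nat_lit 12), (nat_lit
 45), (nat_lit 1), (31, 50, 11), [656, 2962], 39⟩,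
  mz,
  ⟨⟨65, -24, -72, -4, 55, -48, -10, -40, -49⟩, (.cons (nat_lit 1330) (nat_lit 55) (nat_lit 846) (nat_lit 1)
 (.cons (nat_lit 1440) (nat_lit 3833) (nat_lit 2184) (nat_lit 1) .nil)), (nat_lit 52), (nat_lit 17), (nat_lit
 14), (nat_lit 1), (37, 1, 38), [159, 1772], 9⟩,
  ⟨⟨-33, -20, -59, 64, -15, -62, -6, 48, -43⟩, (.cons (nat_lit 852) (nat_lit 936) (nat_lit 736) (nat_lit 1)
 (.cons (nat_lit 1893) (nat_lit 4515) (nat_lit 1336) (nat_lit 1) .nil)), (nat_lit 29), (nat_lit 22), (nat_lit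
 4), (nat_lit 1), (45, 16, 34), [762, 1111], 2⟩,
  ⟨⟨27, -68, 16, 64, 15, -62, -6, -48, -43⟩, (.cons (nat_lit 1080) (nat_lit 1258) (nat_lit 792) (nat_lit 1)
 (.cons (nat_lit 3930) (nat_lit 94) (nat_lit 1419) (nat_lit 1) .nil)), (nat_lit 36), (nat_lit 17), (nat_lit
 42), (nat_lit 1), (7, 35, 30), [386, 3431], 14⟩,
  mz,
  ⟨⟨-29, 72, 20, 56, 25, -68, -38, 16, -35⟩, (.cons (nat_lit 168) (nat_lit 448) (nat_lit 1307) (nat_lit 1)
 (.cons (nat_lit 4898) (nat_lit 188) (nat_lit 3186) (nat_lit 1) .nil)), (nat_lit 40), (nat_lit 12), (nat_lit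
 1), (nat_lit 1), (33, 44, 31), [678, 768], 27⟩,
  ⟨⟨3, 40, -76, 64, 25, -12, 26, -32, -67⟩, (.cons (nat_lit 103) (nat_lit 441) (nat_lit 1141) (nat_lit 1)
 (.cons (nat_lit 4214) (nat_lit 2664) (nat_lit 2164) (nat_lit 1) .nil)), (nat_lit 4), (nat_lit 5), (nat_lit
 49), (nat_lit 1), (14, 62, 3), [178, 1181], 8⟩,
  mz,
  mz,
  ⟨⟨33, -20, -92, 64, 15, -2, 6, 48, -49⟩, (.cons (nat_lit 1040) (nat_lit 781) (nat_lit 686) (nat_lit 1) (.cons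
 (nat_lit 3059) (nat_lit 1467) (nat_lit 959) (nat_lit 1) .nil)), (nat_lit 28), (nat_lit 17), (nat_lit 15),
 (nat_lit 1), (67, 3, 38), [102, 2396], 5⟩,
  ⟨⟨9, 76, -20, -44, 15, 82, -42, 24, -25⟩, (.cons (nat_lit 805) (nat_lit 858) (nat_lit 135) (nat_lit 1) (.cons
 (nat_lit 381) (nat_lit 2442) (nat_lit 1190) (nat_lit 1) .nil)), (nat_lit 36), (nat_lit 24), (nat_lit 43),
 (nat_lit 1), (31, 22, 21), [1090, 1983], 14⟩,
  mz,
  mz,
  ⟨⟨-9, 76, -11, -44, -15, -38, 42, 24, -67⟩, (.cons (nat_lit 995) (nat_lit 930) (nat_lit 977) (nat_lit 1)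
 (.cons (nat_lit 2322) (nat_lit 2751) (nat_lit 2508) (nat_lit 1) .nil)), (nat_lit 29), (nat_lit 25), (nat_lit
 12), (nat_lit 1), (25, 67, 49), [300, 1098], 2⟩,
  ⟨⟨17, 24, -89, -36, -55, -12, 54, -24, -53⟩, (.cons (nat_lit 334) (nat_lit 955) (nat_lit 980) (nat_lit 1)
 (.cons (nat_lit 2888) (nat_lit 4686) (nat_lit 1661) (nat_lit 1) .nil)), (nat_lit 32), (nat_lit 25), (nat_lit
 24), (nat_lit 1), (7, 52, 64), [300, 2295], 48⟩,
  mz,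
  ⟨⟨9, 56, -64, -56, -25, -12, 38, -16, -73⟩, (.cons (nat_lit 522) (nat_lit 482) (nat_lit 942) (nat_lit 1)
 (.cons (nat_lit 3600) (nat_lit 115) (nat_lit 2053) (nat_lit 1) .nil)), (nat_lit 24), (nat_lit 37), (nat_lit
 6), (nat_lit 1), (56, 46, 55), [510, 609], 13⟩,
  ⟨⟨39, 40, -80, 44, -55, -32, -22, -8, -55⟩, (.cons (nat_lit 1330) (nat_lit 1136) (nat_lit 1264) (nat_lit 1)
 (.cons (nat_lit 779) (nat_lit 518) (nat_lit 1106) (nat_lit 1) .nil)), (nat_lit 52), (nat_lit 13), (nat_lit 7),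
 (nat_lit 1), (28, 68, 37), [21, 2545], 40⟩,
  mz,
  mz,
  ⟨⟨17, -24, 72, 36, -55, -48, 54, 24, -1⟩, (.cons (nat_lit 976) (nat_lit 1299) (nat_lit 688) (nat_lit 1)
 (.cons (nat_lit 808) (nat_lit 4357) (nat_lit 825) (nat_lit 1) .nil)), (nat_lit 47), (nat_lit 8), (nat_lit 36),
 (nat_lit 1), (28, 5, 43), [626, 516], 8⟩,
  ⟨⟨-61, 48, 25, -44, -55, 32, -22, 8, -55⟩, (.cons (nat_lit 186) (nat_lit 905) (nat_lit 1198) (nat_lit 1)
 (.cons (nat_lit 2279) (nat_lit 1410) (nat_lit 3129) (nat_lit 1) .nil)), (nat_lit 25), (nat_lit 18), (nat_lit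
 3), (nat_lit 1), (13, 28, 14), [540, 3777], 45⟩,
  ⟨⟨61, -48, -36, -44, -55, 12, 22, -8, -77⟩, (.cons (nat_lit 1330) (nat_lit 80) (nat_lit 813) (nat_lit 1)
 (.cons (nat_lit 3009) (nat_lit 272) (nat_lit 3489) (nat_lit 1) .nil)), (nat_lit 52), (nat_lit 10), (nat_lit
 29), (nat_lit 1), (26, 15, 28), [659, 1709], 9⟩,
  mz,
  ⟨⟨51, -4, 40, 10, -69, -20, 60, 12, -49⟩, (.cons (nat_lit 1072) (nat_lit 1106) (nat_lit 1141) (nat_lit 1)
 (.cons (nat_lit 4832) (nat_lit 4434) (nat_lit 3130) (nat_lit 1) .nil)), (nat_lit 17), (nat_lit 49), (nat_lit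
 29), (nat_lit 1), (60, 41, 33), [1006, 4285], 9⟩,
  mz,
  mz,
  ⟨⟨-13, -72, 36, 70, -11, -30, -4, -44, -49⟩, (.cons (nat_lit 710) (nat_lit 601) (nat_lit 1) (nat_lit 176)
 (.cons (nat_lit 1837) (nat_lit 1195) (nat_lit 1) (nat_lit 3195) .nil)), (nat_lit 51), (nat_lit 35), (nat_lit
 13), (nat_lit 1), (29, 35, 69), [365, 4745], 11⟩,
  mz,
  ⟨⟨-33, -68, -4, -50, 11, 80, -44, 4, -29⟩, (.cons (nat_lit 368) (nat_lit 1195) (nat_lit 155) (nat_lit 1)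
 (.cons (nat_lit 2984) (nat_lit 3737) (nat_lit 3999) (nat_lit 1) .nil)), (nat_lit 45), (nat_lit 4), (nat_lit
 36), (nat_lit 1), (61, 58, 34), [144, 245], 20⟩,
  mz,
  ⟨⟨-29, -72, 20, -56, 25, 68, -38, -16, -35⟩, (.cons (nat_lit 932) (nat_lit 1173) (nat_lit 301) (nat_lit 1)
 (.cons (nat_lit 3447) (nat_lit 1332) (nat_lit 3344) (nat_lit 1) .nil)), (nat_lit 38), (nat_lit 9), (nat_lit
 17), (nat_lit 1), (27, 35, 6), [824, 442], 50⟩,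
  ⟨⟨-63, 40, 7, 10, -21, -80, 12, 60, -25⟩, (.cons (nat_lit 356) (nat_lit 981) (nat_lit 1173) (nat_lit 1)
 (.cons (nat_lit 3531) (nat_lit 156) (nat_lit 4966) (nat_lit 1) .nil)), (nat_lit 31), (nat_lit 16), (nat_lit
 28), (nat_lit 1), (60, 4, 19), [1194, 4933], 33⟩,
  mz,
  ⟨⟨3, -40, -76, 64, -25, -12, 26, 32, -67⟩, (.cons (nat_lit 1072) (nat_lit 860) (nat_lit 675) (nat_lit 1)
 (.cons (nat_lit 554) (nat_lit 3966) (nat_lit 2625) (nat_lit 1) .nil)), (nat_lit 24), (nat_lit 11), (nat_lit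
 25), (nat_lit 1), (58, 54, 53), [840, 531], 13⟩,
  mz,
  ⟨⟨37, 48, 36, 36, -55, 12, 54, 24, -53⟩, (.cons (nat_lit 1330) (nat_lit 297) (nat_lit 610) (nat_lit 1) (.cons
 (nat_lit 2394) (nat_lit 323) (nat_lit 3116) (nat_lit 1) .nil)), (nat_lit 52), (nat_lit 43), (nat_lit 51),
 (nat_lit 1), (61, 44, 66), [974, 4126], 46⟩,
  ⟨⟨-23, -72, 32, 64, -25, -52, -26, -32, -41⟩, (.cons (nat_lit 691) (nat_lit 1019) (nat_lit 1268) (nat_lit 1)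
 (.cons (nat_lit 4464) (nat_lit 2391) (nat_lit 1952) (nat_lit 1) .nil)), (nat_lit 42), (nat_lit 36), (nat_lit
 13), (nat_lit 1), (21, 28, 33), [874, 4884], 36⟩,
  mz,
  mz,
  ⟨⟨-65, 24, -7, -4, 55, 52, 10, 40, -59⟩, (.cons (nat_lit 855) (nat_lit 817) (nat_lit 25) (nat_lit 1) (.cons
 (nat_lit 4971) (nat_lit 535) (nat_lit 2015) (nat_lit 1) .nil)), (nat_lit 40), (nat_lit 27), (nat_lit 32),
 (nat_lit 1), (43, 66, 48), [94, 679], 8⟩,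
  ⟨⟨33, 68, -37, -50, 11, -30, 44, -4, -73⟩, (.cons (nat_lit 966) (nat_lit 761) (nat_lit 1) (nat_lit 264)
 (.cons (nat_lit 4907) (nat_lit 3138) (nat_lit 2453) (nat_lit 1) .nil)), (nat_lit 34), (nat_lit 17), (nat_lit
 28), (nat_lit 1), (65, 22, 63), [1011, 41], 6⟩,
  ⟨⟨-39, -40, -41, 44, -55, -12, 22, 8, -77⟩, (.cons (nat_lit 780) (nat_lit 861) (nat_lit 1253) (nat_lit 1)
 (.cons (nat_lit 3645) (nat_lit 3408) (nat_lit 2591) (nat_lit 1) .nil)), (nat_lit 17), (nat_lit 12), (nat_lit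
 2), (nat_lit 1), (46, 10, 5), [1277, 4733], 20⟩,
  mz,
  ⟨⟨51, 52, -56, -44, 15, -38, 42, -24, -67⟩, (.cons (nat_lit 578) (nat_lit 933) (nat_lit 88) (nat_lit 1)
 (.cons (nat_lit 41) (nat_lit 2210) (nat_lit 3118) (nat_lit 1) .nil)), (nat_lit 28), (nat_lit 1), (nat_lit 43),
 (nat_lit 1), (52, 15, 47), [1158, 4733], 5⟩,
  ⟨⟨51, 4, -91, 10, 69, 10, 60, -12, -11⟩, (.cons (nat_lit 997) (nat_lit 1119) (nat_lit 578) (nat_lit 1) (.cons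
 (nat_lit 2037) (nat_lit 4520) (nat_lit 3659) (nat_lit 1) .nil)), (nat_lit 8), (nat_lit 18), (nat_lit 5),
 (nat_lit 1), (45, 13, 7), [884, 2878], 8⟩,
  ⟨⟨9, -16, -89, 10, 69, -20, 60, -12, -49⟩, (.cons (nat_lit 1273) (nat_lit 248) (nat_lit 372) (nat_lit 1)
 (.cons (nat_lit 2301) (nat_lit 4905) (nat_lit 1577) (nat_lit 1) .nil)), (nat_lit 42), (nat_lit 43), (nat_lit
 40), (nat_lit 1), (19, 29, 32), [881, 10], 6⟩,
  ⟨⟨9, -56, -64, 56, -25, 12, 38, 16, -73⟩, (.cons (nat_lit 744) (nat_lit 1299) (nat_lit 258) (nat_lit 1)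
 (.cons (nat_lit 3188) (nat_lit 2350) (nat_lit 394) (nat_lit 1) .nil)), (nat_lit 20), (nat_lit 50), (nat_lit
 7), (nat_lit 1), (4, 17, 9), [1211, 209], 4⟩,
  ⟨⟨-75, 16, 23, -4, -55, -48, -10, 40, -49⟩, (.cons (nat_lit 408) (nat_lit 58) (nat_lit 16) (nat_lit 1) (.cons
 (nat_lit 774) (nat_lit 4292) (nat_lit 1859) (nat_lit 1) .nil)), (nat_lit 41), (nat_lit 45), (nat_lit 39),
 (nat_lit 1), (26, 26, 65), [983, 3192], 6⟩,
  ⟨⟨-51, 52, -5, -44, -15, 82, -42, -24, -25⟩, (.cons (nat_lit 339) (nat_lit 805) (nat_lit 724) (nat_lit 1)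
 (.cons (nat_lit 4340) (nat_lit 422) (nat_lit 2221) (nat_lit 1) .nil)), (nat_lit 11), (nat_lit 23), (nat_lit
 9), (nat_lit 1), (18, 3, 19), [650, 337], 30⟩,
  mz,
  ⟨⟨13, -72, 23, 70, 11, -40, 4, -44, -53⟩, (.cons (nat_lit 1199) (nat_lit 199) (nat_lit 908) (nat_lit 1)
 (.cons (nat_lit 4841) (nat_lit 1750) (nat_lit 2908) (nat_lit 1) .nil)), (nat_lit 39), (nat_lit 26), (nat_lit
 21), (nat_lit 1), (14, 59, 48), [1009, 2831], 10⟩,
  ⟨⟨51, -4, -91, 10, -69, 10, 60, 12, -11⟩, (.cons (nat_lit 436) (nat_lit 1014) (nat_lit 190) (nat_lit 1)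
 (.cons (nat_lit 4597) (nat_lit 3443) (nat_lit 4588) (nat_lit 1) .nil)), (nat_lit 24), (nat_lit 28), (nat_lit
 47), (nat_lit 1), (21, 25, 8), [1161, 3475], 42⟩,
  ⟨⟨75, -20, -32, -10, -21, 80, 12, -60, -25⟩, (.cons (nat_lit 202) (nat_lit 1140) (nat_lit 440) (nat_lit 1)
 (.cons (nat_lit 3993) (nat_lit 2116) (nat_lit 1527) (nat_lit 1) .nil)), (nat_lit 4), (nat_lit 48), (nat_lit
 1), (nat_lit 0), (52, 12, 14), [999, 4142], 37⟩,
  mz,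
  ⟨⟨-33, 68, -4, -50, -11, 80, -44, -4, -29⟩, (.cons (nat_lit 471) (nat_lit 904) (nat_lit 1) (nat_lit 484)
 (.cons (nat_lit 2624) (nat_lit 1676) (nat_lit 853) (nat_lit 1) .nil)), (nat_lit 51), (nat_lit 15), (nat_lit
 48), (nat_lit 1), (43, 63, 10), [1143, 401], 11⟩,
  ⟨⟨-75, -20, 43, -10, 21, -70, -12, -60, -13⟩, (.cons (nat_lit 562) (nat_lit 623) (nat_lit 1) (nat_lit 1199)
 (.cons (nat_lit 2500) (nat_lit 553) (nat_lit 252) (nat_lit 1) .nil)), (nat_lit 22), (nat_lit 0), (nat_lit 7),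
 (nat_lit 1), (2, 5, 6), [724, 4292], 25⟩,
  mz,
  mz,
  mz,
  ⟨⟨33, -68, -37, -50, -11, -30, 44, 4, -73⟩, (.cons (nat_lit 170) (nat_lit 414) (nat_lit 859) (nat_lit 1)
 (.cons (nat_lit 1677) (nat_lit 212) (nat_lit 1812) (nat_lit 1) .nil)), (nat_lit 1), (nat_lit 43), (nat_lit
 31), (nat_lit 1), (12, 27, 16), [1046, 649], 33⟩,
  mz,
  ⟨⟨-13, 72, 36, 70, 11, -30, -4, 44, -49⟩, (.cons (nat_lit 564) (nat_lit 307) (nat_lit 1189) (nat_lit 1)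
 (.cons (nat_lit 370) (nat_lit 1435) (nat_lit 3217) (nat_lit 1) .nil)), (nat_lit 51), (nat_lit 41), (nat_lit
 21), (nat_lit 1), (35, 30, 49), [713, 1531], 48⟩,
  ⟨⟨-65, -24, -7, -4, -55, 52, 10, -40, -59⟩, (.cons (nat_lit 199) (nat_lit 437) (nat_lit 809) (nat_lit 1)
 (.cons (nat_lit 1725) (nat_lit 3750) (nat_lit 1632) (nat_lit 1) .nil)), (nat_lit 22), (nat_lit 17), (nat_lit
 43), (nat_lit 1), (41, 20, 21), [26, 3542], 42⟩,
  mz,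
  ⟨⟨33, 20, -92, 64, -15, -2, 6, -48, -49⟩, (.cons (nat_lit 629) (nat_lit 420) (nat_lit 712) (nat_lit 1) (.cons
 (nat_lit 267) (nat_lit 40) (nat_lit 5010) (nat_lit 1) .nil)), (nat_lit 29), (nat_lit 44), (nat_lit 30),
 (nat_lit 1), (45, 55, 34), [1008, 1507], 29⟩,
  ⟨⟨-9, -28, -76, 70, -11, -40, 4, 44, -53⟩, (.cons (nat_lit 1089) (nat_lit 1233) (nat_lit 633) (nat_lit 1)
 (.cons (nat_lit 1931) (nat_lit 4697) (nat_lit 4543) (nat_lit 1) .nil)), (nat_lit 26), (nat_lit 34), (nat_lit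
 24), (nat_lit 1), (8, 64, 28), [1075, 3028], 16⟩,
  ⟨⟨-23, 72, 32, -64, -25, 52, -26, 32, -41⟩, (.cons (nat_lit 195) (nat_lit 916) (nat_lit 268) (nat_lit 1)
 (.cons (nat_lit 3613) (nat_lit 1694) (nat_lit 1756) (nat_lit 1) .nil)), (nat_lit 8), (nat_lit 24), (nat_lit
 50), (nat_lit 1), (27, 35, 12), [999, 1902], 44⟩,
  ⟨⟨37, -48, -73, 36, 55, -48, 54, -24, -1⟩, (.cons (nat_lit 1246) (nat_lit 260) (nat_lit 1209) (nat_lit 1)
 (.cons (nat_lit 3354) (nat_lit 2953) (nat_lit 944) (nat_lit 1) .nil)), (nat_lit 5), (nat_lit 45), (nat_lit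
 33), (nat_lit 1), (11, 51, 41), [688, 3395], 19⟩]

/-- Moves. -/
noncomputable def t4_1 : List Mv := [
  mz,
  mz,
  mz,
  mz,
  ⟨⟨51, 20, -47, 10, -47, -30, -2, 20, -47⟩, (.cons (nat_lit 82) (nat_lit 874) (nat_lit 1) (nat_lit 1254)
 (.cons (nat_lit 4169) (nat_lit 3973) (nat_lit 4779) (nat_lit 1) .nil)), (nat_lit 15), (nat_lit 0), (nat_lit
 0), (nat_lit 0), (24, 39, 24), [1033, 4568], 0⟩,
  ⟨⟨51, -20, -47, -10, -47, 30, -2, -20, -47⟩, (.cons (nat_lit 92) (nat_lit 527) (nat_lit 1102) (nat_lit 1)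
 (.cons (nat_lit 886) (nat_lit 2219) (nat_lit 649) (nat_lit 1) .nil)), (nat_lit 12), (nat_lit 0), (nat_lit 0),
 (nat_lit 0), (12, 7, 12), [296, 427], 0⟩,
  ⟨⟨25, -48, -36, -28, 5, -36, 40, 8, -47⟩, (.cons (nat_lit 1278) (nat_lit 104) (nat_lit 193) (nat_lit 1)
 (.cons (nat_lit 4102) (nat_lit 4156) (nat_lit 4114) (nat_lit 1) .nil)), (nat_lit 36), (nat_lit 0), (nat_lit
 0), (nat_lit 0), (37, 37, 38), [837, 3374], 0⟩,
  mz,
  mz,
  ⟨⟨-33, -20, -32, -8, -45, 34, 24, -24, -49⟩, (.cons (nat_lit 930) (nat_lit 1190) (nat_lit 810) (nat_lit 1)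
 (.cons (nat_lit 507) (nat_lit 3918) (nat_lit 1443) (nat_lit 1) .nil)), (nat_lit 42), (nat_lit 0), (nat_lit 0),
 (nat_lit 0), (35, 39, 42), [215, 975], 0⟩,
  ⟨⟨-15, -56, 4, -28, 5, 64, -40, -8, -7⟩, (.cons (nat_lit 908) (nat_lit 480) (nat_lit 445) (nat_lit 1) (.cons
 (nat_lit 1593) (nat_lit 3901) (nat_lit 2651) (nat_lit 1) .nil)), (nat_lit 37), (nat_lit 0), (nat_lit 0),
 (nat_lit 0), (10, 1, 9), [894, 4459], 0⟩,
  ⟨⟨15, -32, 44, 50, 17, -30, 14, -44, -19⟩, (.cons (nat_lit 308) (nat_lit 691) (nat_lit 718) (nat_lit 1)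
 (.cons (nat_lit 1712) (nat_lit 3542) (nat_lit 1130) (nat_lit 1) .nil)), (nat_lit 41), (nat_lit 0), (nat_lit
 0), (nat_lit 0), (29, 26, 20), [1057, 61], 0⟩,
  ⟨⟨53, 0, -53, -10, -47, -20, 2, 20, -49⟩, (.cons (nat_lit 1114) (nat_lit 1224) (nat_lit 885) (nat_lit 1)
 (.cons (nat_lit 165) (nat_lit 1858) (nat_lit 3817) (nat_lit 1) .nil)), (nat_lit 5), (nat_lit 0), (nat_lit 0),
 (nat_lit 0), (0, 25, 48), [112, 529], 0⟩,
  mz,
  mz,
  ⟨⟨-51, -20, 4, -10, 47, -20, 2, -20, -49⟩, (.cons (nat_lit 1330) (nat_lit 1006) (nat_lit 363) (nat_lit 1)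
 (.cons (nat_lit 5040) (nat_lit 3207) (nat_lit 4071) (nat_lit 1) .nil)), (nat_lit 15), (nat_lit 0), (nat_lit
 0), (nat_lit 0), (36, 32, 36), [915, 871], 0⟩,
  ⟨⟨31, -48, -27, 10, 17, -60, 46, 4, -11⟩, (.cons (nat_lit 609) (nat_lit 1257) (nat_lit 193) (nat_lit 1)
 (.cons (nat_lit 2388) (nat_lit 812) (nat_lit 3102) (nat_lit 1) .nil)), (nat_lit 43), (nat_lit 0), (nat_lit 0),
 (nat_lit 0), (39, 16, 10), [1271, 3670], 0⟩,
  ⟨⟨31, -48, -4, 10, 17, 50, 46, 4, -35⟩, (.cons (nat_lit 1200) (nat_lit 1251) (nat_lit 972) (nat_lit 1) (.cons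
 (nat_lit 4226) (nat_lit 2228) (nat_lit 1467) (nat_lit 1) .nil)), (nat_lit 43), (nat_lit 0), (nat_lit 0),
 (nat_lit 0), (18, 40, 25), [1115, 3171], 0⟩,
  ⟨⟨-57, -4, 40, 8, -45, 26, -24, -24, -25⟩, (.cons (nat_lit 1054) (nat_lit 1240) (nat_lit 270) (nat_lit 1)
 (.cons (nat_lit 1331) (nat_lit 495) (nat_lit 204) (nat_lit 1) .nil)), (nat_lit 21), (nat_lit 0), (nat_lit 0),
 (nat_lit 0), (12, 29, 19), [879, 3470], 0⟩,
  mz,
  mz,
  ⟨⟨-33, 20, -32, 8, -45, -34, 24, 24, -49⟩, (.cons (nat_lit 764) (nat_lit 312) (nat_lit 25) (nat_lit 1) (.cons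
 (nat_lit 3901) (nat_lit 4749) (nat_lit 674) (nat_lit 1) .nil)), (nat_lit 18), (nat_lit 0), (nat_lit 0),
 (nat_lit 0), (47, 40, 14), [228, 3974], 0⟩,
  ⟨⟨45, 28, -49, 28, -45, -14, 0, 0, -53⟩, (.cons (nat_lit 1330) (nat_lit 1057) (nat_lit 174) (nat_lit 1)
 (.cons (nat_lit 5040) (nat_lit 4392) (nat_lit 1801) (nat_lit 1) .nil)), (nat_lit 22), (nat_lit 0), (nat_lit
 0), (nat_lit 0), (24, 22, 0), [537, 95], 0⟩,
  mz,
  ⟨⟨-13, 48, -27, 30, -17, -60, 30, 36, -7⟩, (.cons (nat_lit 876) (nat_lit 962) (nat_lit 1) (nat_lit 1276)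
 (.cons (nat_lit 3124) (nat_lit 1604) (nat_lit 4236) (nat_lit 1) .nil)), (nat_lit 29), (nat_lit 0), (nat_lit
 0), (nat_lit 0), (11, 48, 48), [1090, 2737], 0⟩,
  mz,
  ⟨⟨-25, -48, -11, 28, 5, -64, -40, 8, -7⟩, (.cons (nat_lit 697) (nat_lit 229) (nat_lit 1053) (nat_lit 1)
 (.cons (nat_lit 1464) (nat_lit 3490) (nat_lit 3948) (nat_lit 1) .nil)), (nat_lit 36), (nat_lit 0), (nat_lit
 0), (nat_lit 0), (2, 2, 35), [326, 159], 0⟩,
  mz,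
  ⟨⟨-1, -48, 37, -52, -5, 16, 8, -40, -31⟩, (.cons (nat_lit 1280) (nat_lit 791) (nat_lit 965) (nat_lit 1)
 (.cons (nat_lit 3697) (nat_lit 1451) (nat_lit 2751) (nat_lit 1) .nil)), (nat_lit 39), (nat_lit 0), (nat_lit
 0), (nat_lit 0), (29, 24, 33), [9, 4918], 0⟩,
  ⟨⟨43, -12, -63, -30, 17, -30, 30, 36, -23⟩, (.cons (nat_lit 44) (nat_lit 1181) (nat_lit 509) (nat_lit 1)
 (.cons (nat_lit 2843) (nat_lit 1933) (nat_lit 1) (nat_lit 4331) .nil)), (nat_lit 24), (nat_lit 0), (nat_lit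
 0), (nat_lit 0), (16, 48, 5), [1311, 1424], 0⟩,
  mz,
  ⟨⟨-45, 28, -4, -28, -45, 14, 0, 0, -53⟩, (.cons (nat_lit 232) (nat_lit 977) (nat_lit 469) (nat_lit 1) (.cons
 (nat_lit 2060) (nat_lit 62) (nat_lit 1567) (nat_lit 1) .nil)), (nat_lit 22), (nat_lit 0), (nat_lit 0),
 (nat_lit 0), (14, 4, 0), [877, 4023], 0⟩,
  mz,
  ⟨⟨-39, 28, -17, 10, -33, -50, 18, 36, -37⟩, (.cons (nat_lit 16) (nat_lit 515) (nat_lit 565) (nat_lit 1)
 (.cons (nat_lit 2490) (nat_lit 3254) (nat_lit 1437) (nat_lit 1) .nil)), (nat_lit 50), (nat_lit 0), (nat_lit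
 0), (nat_lit 0), (43, 8, 25), [1192, 1348], 0⟩,
  mz,
  mz,
  ⟨⟨1, -48, 36, -52, 5, 36, -8, -40, -23⟩, (.cons (nat_lit 226) (nat_lit 454) (nat_lit 305) (nat_lit 1) (.cons
 (nat_lit 102) (nat_lit 4573) (nat_lit 3816) (nat_lit 1) .nil)), (nat_lit 6), (nat_lit 0), (nat_lit 0),
 (nat_lit 0), (41, 41, 43), [223, 2613], 0⟩,
  ⟨⟨-1, 48, 37, 52, -5, -16, 8, 40, -31⟩, (.cons (nat_lit 339) (nat_lit 97) (nat_lit 927) (nat_lit 1) (.cons
 (nat_lit 4214) (nat_lit 2716) (nat_lit 1154) (nat_lit 1) .nil)), (nat_lit 6), (nat_lit 0), (nat_lit 0),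
 (nat_lit 0), (26, 26, 4), [1268, 1619], 0⟩,
  ⟨⟨-57, 8, 37, 10, 33, 40, -18, 36, -19⟩, (.cons (nat_lit 1280) (nat_lit 885) (nat_lit 1137) (nat_lit 1)
 (.cons (nat_lit 821) (nat_lit 2499) (nat_lit 2705) (nat_lit 1) .nil)), (nat_lit 33), (nat_lit 0), (nat_lit 0),
 (nat_lit 0), (40, 6, 21), [813, 2961], 0⟩,
  ⟨⟨15, -56, -11, -28, -5, -36, 40, -8, -47⟩, (.cons (nat_lit 1070) (nat_lit 146) (nat_lit 306) (nat_lit 1)
 (.cons (nat_lit 1264) (nat_lit 860) (nat_lit 1026) (nat_lit 1) .nil)), (nat_lit 28), (nat_lit 0), (nat_lit 0),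
 (nat_lit 0), (31, 34, 12), [829, 1736], 0⟩,
  ⟨⟨-9, -8, -59, 52, 5, -36, -8, 40, -23⟩, (.cons (nat_lit 705) (nat_lit 69) (nat_lit 671) (nat_lit 1) (.cons
 (nat_lit 3058) (nat_lit 3454) (nat_lit 3510) (nat_lit 1) .nil)), (nat_lit 10), (nat_lit 0), (nat_lit 0),
 (nat_lit 0), (29, 15, 14), [717, 834], 0⟩,
  ⟨⟨31, 48, -4, -10, 17, -50, 46, -4, -35⟩, (.cons (nat_lit 469) (nat_lit 685) (nat_lit 1) (nat_lit 704) (.cons
 (nat_lit 2494) (nat_lit 3125) (nat_lit 4740) (nat_lit 1) .nil)), (nat_lit 11), (nat_lit 0), (nat_lit 0),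
 (nat_lit 0), (15, 2, 12), [1028, 1249], 0⟩,
  ⟨⟨-57, 4, 40, -8, -45, -26, -24, 24, -25⟩, (.cons (nat_lit 156) (nat_lit 700) (nat_lit 85) (nat_lit 1) (.cons
 (nat_lit 348) (nat_lit 2647) (nat_lit 1936) (nat_lit 1) .nil)), (nat_lit 9), (nat_lit 0), (nat_lit 0),
 (nat_lit 0), (25, 50, 44), [79, 1057], 0⟩,
  ⟨⟨-1, 12, -63, 50, -17, -30, 14, 44, -19⟩, (.cons (nat_lit 212) (nat_lit 1047) (nat_lit 345) (nat_lit 1)
 (.cons (nat_lit 3367) (nat_lit 3259) (nat_lit 518) (nat_lit 1) .nil)), (nat_lit 16), (nat_lit 0), (nat_lit 0),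
 (nat_lit 0), (30, 37, 4), [34, 2902], 0⟩,
  ⟨⟨-15, 32, 59, 50, 17, -20, -14, 44, -5⟩, (.cons (nat_lit 701) (nat_lit 681) (nat_lit 438) (nat_lit 1) (.cons
 (nat_lit 1965) (nat_lit 4275) (nat_lit 2635) (nat_lit 1) .nil)), (nat_lit 17), (nat_lit 0), (nat_lit 0),
 (nat_lit 0), (6, 33, 48), [769, 3994], 0⟩,
  mz,
  ⟨⟨-13, -48, -27, 30, 17, -60, 30, -36, -7⟩, (.cons (nat_lit 1174) (nat_lit 2) (nat_lit 573) (nat_lit 1)
 (.cons (nat_lit 1907) (nat_lit 3941) (nat_lit 2245) (nat_lit 1) .nil)), (nat_lit 29), (nat_lit 0), (nat_lit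
 0), (nat_lit 0), (14, 37, 37), [153, 4268], 0⟩,
  ⟨⟨1, -12, -64, 50, -17, -20, -14, -44, -5⟩, (.cons (nat_lit 732) (nat_lit 491) (nat_lit 584) (nat_lit 1)
 (.cons (nat_lit 1392) (nat_lit 4822) (nat_lit 1752) (nat_lit 1) .nil)), (nat_lit 48), (nat_lit 0), (nat_lit
 0), (nat_lit 0), (3, 44, 11), [123, 3272], 0⟩,
  ⟨⟨15, -52, 16, -10, 17, 60, 46, -4, -11⟩, (.cons (nat_lit 1311) (nat_lit 503) (nat_lit 1032) (nat_lit 1)
 (.cons (nat_lit 1387) (nat_lit 1293) (nat_lit 4779) (nat_lit 1) .nil)), (nat_lit 47), (nat_lit 0), (nat_lit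
 0), (nat_lit 0), (14, 26, 50), [47, 3548], 0⟩,
  ⟨⟨-39, -28, -17, 10, 33, -50, 18, -36, -37⟩, (.cons (nat_lit 454) (nat_lit 292) (nat_lit 107) (nat_lit 1)
 (.cons (nat_lit 4844) (nat_lit 1261) (nat_lit 4175) (nat_lit 1) .nil)), (nat_lit 50), (nat_lit 0), (nat_lit
 0), (nat_lit 0), (5, 49, 14), [1267, 1298], 0⟩,
  ⟨⟨-57, -8, 37, -10, 33, -40, -18, -36, -19⟩, (.cons (nat_lit 730) (nat_lit 1131) (nat_lit 419) (nat_lit 1)
 (.cons (nat_lit 2738) (nat_lit 467) (nat_lit 1838) (nat_lit 1) .nil)), (nat_lit 49), (nat_lit 0), (nat_lit 0),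
 (nat_lit 0), (14, 35, 10), [1275, 1612], 0⟩,
  mz,
  ⟨⟨-13, -48, 40, 30, 17, 30, 30, -36, -23⟩, (.cons (nat_lit 1170) (nat_lit 305) (nat_lit 970) (nat_lit 1)
 (.cons (nat_lit 4976) (nat_lit 571) (nat_lit 1929) (nat_lit 1) .nil)), (nat_lit 29), (nat_lit 0), (nat_lit 0),
 (nat_lit 0), (45, 47, 47), [86, 951], 0⟩]

/-- Moves. -/
noncomputable def t4_4 : List Mv := [
  mz,
  mz,
  mz,
  mz,
  ⟨⟨-53, 0, 0, 10, -47, -30, -2, 20, -47⟩, (.cons (nat_lit 1320) (nat_lit 670) (nat_lit 879) (nat_lit 1) (.cons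
 (nat_lit 4527) (nat_lit 2123) (nat_lit 3653) (nat_lit 1) .nil)), (nat_lit 5), (nat_lit 0), (nat_lit 0),
 (nat_lit 0), (0, 39, 24), [592, 886], 0⟩,
  ⟨⟨-53, 0, 0, -10, -47, 30, -2, -20, -47⟩, (.cons (nat_lit 639) (nat_lit 452) (nat_lit 1) (nat_lit 957) (.cons
 (nat_lit 3717) (nat_lit 3015) (nat_lit 2253) (nat_lit 1) .nil)), (nat_lit 4), (nat_lit 0), (nat_lit 0),
 (nat_lit 0), (0, 7, 12), [460, 4636], 0⟩,
  ⟨⟨25, -48, -36, 28, -5, 36, 40, 8, -47⟩, (.cons (nat_lit 1152) (nat_lit 919) (nat_lit 1) (nat_lit 616) (.cons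
 (nat_lit 2247) (nat_lit 2572) (nat_lit 705) (nat_lit 1) .nil)), (nat_lit 40), (nat_lit 0), (nat_lit 0),
 (nat_lit 0), (37, 16, 38), [362, 3049], 0⟩,
  mz,
  mz,
  ⟨⟨-33, -20, -32, 8, 45, -34, 24, -24, -49⟩, (.cons (nat_lit 554) (nat_lit 72) (nat_lit 809) (nat_lit 1)
 (.cons (nat_lit 756) (nat_lit 1401) (nat_lit 2441) (nat_lit 1) .nil)), (nat_lit 18), (nat_lit 0), (nat_lit 0),
 (nat_lit 0), (35, 14, 42), [856, 2363], 0⟩,
  ⟨⟨-25, 48, -11, -28, 5, 64, -40, -8, -7⟩, (.cons (nat_lit 1112) (nat_lit 470) (nat_lit 539) (nat_lit 1)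
 (.cons (nat_lit 483) (nat_lit 289) (nat_lit 3487) (nat_lit 1) .nil)), (nat_lit 40), (nat_lit 0), (nat_lit 0),
 (nat_lit 0), (52, 1, 9), [321, 590], 0⟩,
  ⟨⟨15, -32, 44, 50, 17, -30, 14, -44, -19⟩, (.cons (nat_lit 308) (nat_lit 691) (nat_lit 718) (nat_lit 1)
 (.cons (nat_lit 1712) (nat_lit 3542) (nat_lit 1130) (nat_lit 1) .nil)), (nat_lit 41), (nat_lit 0), (nat_lit
 0), (nat_lit 0), (29, 26, 20), [1057, 61], 0⟩,
  ⟨⟨-51, 20, 4, 10, 47, 20, 2, 20, -49⟩, (.cons (nat_lit 1330) (nat_lit 145) (nat_lit 144) (nat_lit 1) (.cons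
 (nat_lit 5040) (nat_lit 2318) (nat_lit 138) (nat_lit 1) .nil)), (nat_lit 12), (nat_lit 0), (nat_lit 0),
 (nat_lit 0), (48, 28, 48), [699, 4019], 0⟩,
  mz,
  mz,
  ⟨⟨-51, -20, 4, -10, 47, -20, 2, -20, -49⟩, (.cons (nat_lit 1330) (nat_lit 1006) (nat_lit 363) (nat_lit 1)
 (.cons (nat_lit 5040) (nat_lit 3207) (nat_lit 4071) (nat_lit 1) .nil)), (nat_lit 15), (nat_lit 0), (nat_lit
 0), (nat_lit 0), (36, 32, 36), [915, 871], 0⟩,
  ⟨⟨15, 52, 16, 10, 17, -60, 46, 4, -11⟩, (.cons (nat_lit 694) (nat_lit 39) (nat_lit 228) (nat_lit 1) (.cons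
 (nat_lit 4895) (nat_lit 3399) (nat_lit 4500) (nat_lit 1) .nil)), (nat_lit 44), (nat_lit 0), (nat_lit 0),
 (nat_lit 0), (24, 16, 10), [588, 823], 0⟩,
  ⟨⟨15, 52, -31, 10, 17, 50, 46, 4, -35⟩, (.cons (nat_lit 150) (nat_lit 337) (nat_lit 850) (nat_lit 1) (.cons
 (nat_lit 1883) (nat_lit 652) (nat_lit 3680) (nat_lit 1) .nil)), (nat_lit 44), (nat_lit 0), (nat_lit 0),
 (nat_lit 0), (7, 40, 25), [831, 2206], 0⟩,
  ⟨⟨-57, -4, 40, -8, 45, -26, -24, -24, -25⟩, (.cons (nat_lit 949) (nat_lit 884) (nat_lit 246) (nat_lit 1)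
 (.cons (nat_lit 3354) (nat_lit 4299) (nat_lit 4511) (nat_lit 1) .nil)), (nat_lit 9), (nat_lit 0), (nat_lit 0),
 (nat_lit 0), (12, 24, 19), [587, 3082], 0⟩,
  mz,
  mz,
  ⟨⟨-33, 20, -32, 8, -45, -34, 24, 24, -49⟩, (.cons (nat_lit 764) (nat_lit 312) (nat_lit 25) (nat_lit 1) (.cons
 (nat_lit 3901) (nat_lit 4749) (nat_lit 674) (nat_lit 1) .nil)), (nat_lit 18), (nat_lit 0), (nat_lit 0),
 (nat_lit 0), (47, 40, 14), [228, 3974], 0⟩,
  ⟨⟨-45, -28, -4, 28, -45, -14, 0, 0, -53⟩, (.cons (nat_lit 1222) (nat_lit 13) (nat_lit 543) (nat_lit 1) (.cons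
 (nat_lit 2983) (nat_lit 1571) (nat_lit 3687) (nat_lit 1) .nil)), (nat_lit 31), (nat_lit 0), (nat_lit 0),
 (nat_lit 0), (29, 22, 0), [569, 2035], 0⟩,
  mz,
  ⟨⟨-13, 48, -27, 30, -17, -60, 30, 36, -7⟩, (.cons (nat_lit 876) (nat_lit 962) (nat_lit 1) (nat_lit 1276)
 (.cons (nat_lit 3124) (nat_lit 1604) (nat_lit 4236) (nat_lit 1) .nil)), (nat_lit 29), (nat_lit 0), (nat_lit
 0), (nat_lit 0), (11, 48, 48), [1090, 2737], 0⟩,
  mz,
  ⟨⟨-25, -48, -11, 28, 5, -64, -40, 8, -7⟩, (.cons (nat_lit 697) (nat_lit 229) (nat_lit 1053) (nat_lit 1)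
 (.cons (nat_lit 1464) (nat_lit 3490) (nat_lit 3948) (nat_lit 1) .nil)), (nat_lit 36), (nat_lit 0), (nat_lit
 0), (nat_lit 0), (2, 2, 35), [326, 159], 0⟩,
  mz,
  ⟨⟨-1, -48, 37, 52, 5, -16, 8, -40, -31⟩, (.cons (nat_lit 584) (nat_lit 396) (nat_lit 369) (nat_lit 1) (.cons
 (nat_lit 2755) (nat_lit 57) (nat_lit 1762) (nat_lit 1) .nil)), (nat_lit 6), (nat_lit 0), (nat_lit 0), (nat_lit
 0), (29, 29, 33), [475, 4921], 0⟩,
  ⟨⟨-13, 48, 40, -30, 17, -30, 30, 36, -23⟩, (.cons (nat_lit 124) (nat_lit 779) (nat_lit 841) (nat_lit 1)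
 (.cons (nat_lit 4343) (nat_lit 319) (nat_lit 495) (nat_lit 1) .nil)), (nat_lit 52), (nat_lit 0), (nat_lit 0),
 (nat_lit 0), (42, 48, 5), [653, 2612], 0⟩,
  mz,
  ⟨⟨45, -28, -49, 28, 45, -14, 0, 0, -53⟩, (.cons (nat_lit 45) (nat_lit 382) (nat_lit 291) (nat_lit 1) (.cons
 (nat_lit 3764) (nat_lit 4956) (nat_lit 2974) (nat_lit 1) .nil)), (nat_lit 22), (nat_lit 0), (nat_lit 0),
 (nat_lit 0), (39, 49, 0), [857, 3256], 0⟩,
  mz,
  ⟨⟨-39, 28, -17, -10, 33, 50, 18, 36, -37⟩, (.cons (nat_lit 1070) (nat_lit 722) (nat_lit 1275) (nat_lit 1)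
 (.cons (nat_lit 1578) (nat_lit 3681) (nat_lit 1237) (nat_lit 1) .nil)), (nat_lit 38), (nat_lit 0), (nat_lit
 0), (nat_lit 0), (43, 45, 25), [794, 730], 0⟩,
  mz,
  mz,
  ⟨⟨-9, 8, -59, 52, -5, -36, -8, -40, -23⟩, (.cons (nat_lit 236) (nat_lit 1223) (nat_lit 871) (nat_lit 1)
 (.cons (nat_lit 4456) (nat_lit 1488) (nat_lit 4217) (nat_lit 1) .nil)), (nat_lit 10), (nat_lit 0), (nat_lit
 0), (nat_lit 0), (2, 12, 43), [207, 4687], 0⟩,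
  ⟨⟨9, -8, -68, -52, 5, 16, 8, 40, -31⟩, (.cons (nat_lit 365) (nat_lit 492) (nat_lit 1288) (nat_lit 1) (.cons
 (nat_lit 481) (nat_lit 3912) (nat_lit 242) (nat_lit 1) .nil)), (nat_lit 10), (nat_lit 0), (nat_lit 0),
 (nat_lit 0), (31, 27, 4), [1277, 3090], 0⟩,
  ⟨⟨39, 28, -56, 10, 33, 40, -18, 36, -19⟩, (.cons (nat_lit 1330) (nat_lit 1309) (nat_lit 1281) (nat_lit 1)
 (.cons (nat_lit 5040) (nat_lit 3083) (nat_lit 1565) (nat_lit 1) .nil)), (nat_lit 38), (nat_lit 0), (nat_lit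
 0), (nat_lit 0), (34, 6, 21), [1120, 4681], 0⟩,
  ⟨⟨15, -56, -11, -28, -5, -36, 40, -8, -47⟩, (.cons (nat_lit 1070) (nat_lit 146) (nat_lit 306) (nat_lit 1)
 (.cons (nat_lit 1264) (nat_lit 860) (nat_lit 1026) (nat_lit 1) .nil)), (nat_lit 28), (nat_lit 0), (nat_lit 0),
 (nat_lit 0), (31, 34, 12), [829, 1736], 0⟩,
  ⟨⟨1, 48, 36, -52, -5, 36, -8, 40, -23⟩, (.cons (nat_lit 1045) (nat_lit 310) (nat_lit 290) (nat_lit 1) (.cons
 (nat_lit 940) (nat_lit 2000) (nat_lit 2712) (nat_lit 1) .nil)), (nat_lit 6), (nat_lit 0), (nat_lit 0),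
 (nat_lit 0), (38, 38, 14), [237, 4524], 0⟩,
  ⟨⟨31, 48, -4, -10, 17, -50, 46, -4, -35⟩, (.cons (nat_lit 469) (nat_lit 685) (nat_lit 1) (nat_lit 704) (.cons
 (nat_lit 2494) (nat_lit 3125) (nat_lit 4740) (nat_lit 1) .nil)), (nat_lit 11), (nat_lit 0), (nat_lit 0),
 (nat_lit 0), (15, 2, 12), [1028, 1249], 0⟩,
  ⟨⟨-57, 4, 40, -8, -45, -26, -24, 24, -25⟩, (.cons (nat_lit 156) (nat_lit 700) (nat_lit 85) (nat_lit 1) (.cons
 (nat_lit 348) (nat_lit 2647) (nat_lit 1936) (nat_lit 1) .nil)), (nat_lit 9), (nat_lit 0), (nat_lit 0),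
 (nat_lit 0), (25, 50, 44), [79, 1057], 0⟩,
  ⟨⟨15, 32, 44, -50, 17, 30, 14, 44, -19⟩, (.cons (nat_lit 254) (nat_lit 355) (nat_lit 678) (nat_lit 1) (.cons
 (nat_lit 2604) (nat_lit 479) (nat_lit 1010) (nat_lit 1) .nil)), (nat_lit 17), (nat_lit 0), (nat_lit 0),
 (nat_lit 0), (27, 16, 4), [114, 439], 0⟩,
  ⟨⟨-15, 32, 59, 50, 17, -20, -14, 44, -5⟩, (.cons (nat_lit 701) (nat_lit 681) (nat_lit 438) (nat_lit 1) (.cons
 (nat_lit 1965) (nat_lit 4275) (nat_lit 2635) (nat_lit 1) .nil)), (nat_lit 17), (nat_lit 0), (nat_lit 0),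
 (nat_lit 0), (6, 33, 48), [769, 3994], 0⟩,
  mz,
  ⟨⟨43, 12, 20, 30, 17, -60, 30, -36, -7⟩, (.cons (nat_lit 1330) (nat_lit 661) (nat_lit 212) (nat_lit 1) (.cons
 (nat_lit 5040) (nat_lit 2270) (nat_lit 580) (nat_lit 1) .nil)), (nat_lit 46), (nat_lit 0), (nat_lit 0),
 (nat_lit 0), (23, 37, 37), [69, 2331], 0⟩,
  ⟨⟨1, -12, -64, 50, -17, -20, -14, -44, -5⟩, (.cons (nat_lit 732) (nat_lit 491) (nat_lit 584) (nat_lit 1)
 (.cons (nat_lit 1392) (nat_lit 4822) (nat_lit 1752) (nat_lit 1) .nil)), (nat_lit 48), (nat_lit 0), (nat_lit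
 0), (nat_lit 0), (3, 44, 11), [123, 3272], 0⟩,
  ⟨⟨15, -52, 16, -10, 17, 60, 46, -4, -11⟩, (.cons (nat_lit 1311) (nat_lit 503) (nat_lit 1032) (nat_lit 1)
 (.cons (nat_lit 1387) (nat_lit 1293) (nat_lit 4779) (nat_lit 1) .nil)), (nat_lit 47), (nat_lit 0), (nat_lit
 0), (nat_lit 0), (14, 26, 50), [47, 3548], 0⟩,
  ⟨⟨-39, -28, -17, 10, 33, -50, 18, -36, -37⟩, (.cons (nat_lit 454) (nat_lit 292) (nat_lit 107) (nat_lit 1)
 (.cons (nat_lit 4844) (nat_lit 1261) (nat_lit 4175) (nat_lit 1) .nil)), (nat_lit 50), (nat_lit 0), (nat_lit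
 0), (nat_lit 0), (5, 49, 14), [1267, 1298], 0⟩,
  ⟨⟨39, -28, -56, -10, 33, -40, -18, -36, -19⟩, (.cons (nat_lit 1330) (nat_lit 158) (nat_lit 1106) (nat_lit 1)
 (.cons (nat_lit 5040) (nat_lit 1579) (nat_lit 4834) (nat_lit 1) .nil)), (nat_lit 50), (nat_lit 0), (nat_lit
 0), (nat_lit 0), (49, 35, 10), [599, 2761], 0⟩,
  mz,
  ⟨⟨43, 12, -63, -30, -17, -30, 30, -36, -23⟩, (.cons (nat_lit 1074) (nat_lit 20) (nat_lit 930) (nat_lit 1)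
 (.cons (nat_lit 3841) (nat_lit 3024) (nat_lit 2274) (nat_lit 1) .nil)), (nat_lit 24), (nat_lit 0), (nat_lit
 0), (nat_lit 0), (2, 6, 47), [1171, 2377], 0⟩]

/-- All the moves. -/
noncomputable def tabs : List (List (List Mv)) := [[[], t0_1, [], [], t0_4], [[], t1_1, [], [], t1_4], [], [], [[], t4_1, [], [], t4_4]]

/-- Subtrie. -/
noncomputable def T1 : Tr := (.ev (nat_lit 20) (nat_lit 73263625537552) (.nd (nat_lit 33) (.br (nat_lit 39)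
 (.br (nat_lit 19) (.br (nat_lit 8) (.br (nat_lit 4) (.br (nat_lit 3) (.ch (nat_lit 1) (.ev (nat_lit 52)
 (nat_lit 4789816264888416) (.ev (nat_lit 148) (nat_lit 562949953421312) (.ev (nat_lit 276) (nat_lit
 8796093022208) (.ev (nat_lit 308) (nat_lit 512) (.ev (nat_lit 436) (nat_lit 536870912) (.ev (nat_lit 500)
 (nat_lit 1099511660544) (.ev (nat_lit 948) (nat_lit 2147483648) (.ev (nat_lit 1044) (nat_lit 17592186044416)
 (.ev (nat_lit 1712) (nat_lit 140737488355328) (.nd (nat_lit 2048) (.br (nat_lit 7) (.br (nat_lit 5) (.ch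
 (nat_lit 1) (.ev (nat_lit 2064) (nat_lit 1125899907171328) (.ev (nat_lit 2077) (nat_lit 268435456) .dd))) (.ch
 (nat_lit 5) (.ev (nat_lit 2064) (nat_lit 268764160) (.ev (nat_lit 2077) (nat_lit 1125899906842624) .dd))))
 (.br (nat_lit 9) (.ch (nat_lit 7) (.ev (nat_lit 2064) (nat_lit 268500992) (.ev (nat_lit 2368) (nat_lit
 1125899906842624) (.ev (nat_lit 2384) (nat_lit 1024) (.ev (nat_lit 2397) (nat_lit 262144) .dd))))) (.ch
 (nat_lit 9) (.ev (nat_lit 2064) (nat_lit 1125899907104768) (.ev (nat_lit 2116) (nat_lit 1024) (.ev (nat_lit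
 2208) (nat_lit 268500992) .dd))))))))))))))))) (.ch (nat_lit 3) (.ev (nat_lit 52) (nat_lit 4943404832298560)
 (.ev (nat_lit 148) (nat_lit 4398046511104) (.ev (nat_lit 576) (nat_lit 1699091478544416) .dd))))) (.br
 (nat_lit 5) (.ch (nat_lit 4) (.ev (nat_lit 52) (nat_lit 5789272586126880) (.ev (nat_lit 244) (nat_lit 4096)
 (.ev (nat_lit 372) (nat_lit 536870912) (.ev (nat_lit 596) (nat_lit 8796093022208) (.ev (nat_lit 768) (nat_lit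
 848825141329984) .dd)))))) (.br (nat_lit 7) (.ch (nat_lit 5) (.ev (nat_lit 52) (nat_lit 1567148472402944) (.ev
 (nat_lit 212) (nat_lit 4096) (.ev (nat_lit 308) (nat_lit 8796093022208) (.ev (nat_lit 436) (nat_lit 32) (.ev
 (nat_lit 532) (nat_lit 512) (.ev (nat_lit 724) (nat_lit 4398046511104) (.ev (nat_lit 1204) (nat_lit
 2147483648) (.ev (nat_lit 1680) (nat_lit 16777216) (.nd (nat_lit 2048) (.br (nat_lit 5) (.br (nat_lit 1) (.ch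
 (nat_lit 0) (.ev (nat_lit 2064) (nat_lit 562949953519680) (.ev (nat_lit 2336) (nat_lit 4503599627370496) (.ev
 (nat_lit 2349) (nat_lit 262144) .dd)))) (.ch (nat_lit 1) (.ev (nat_lit 2064) (nat_lit 4503599627632640) (.ev
 (nat_lit 2176) (nat_lit 32768) (.ev (nat_lit 2356) (nat_lit 562949953421376) (.ev (nat_lit 2365) (nat_lit
 65536) .dd)))))) (.br (nat_lit 7) (.ch (nat_lit 5) (.ev (nat_lit 2064) (nat_lit 5066549581152256) (.ev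
 (nat_lit 2077) (nat_lit 64) .dd))) (.ch (nat_lit 7) (.ev (nat_lit 2064) (nat_lit 98368) (.ev (nat_lit 2116)
 (nat_lit 562949953421312) (.ev (nat_lit 2356) (nat_lit 262144) (.ev (nat_lit 2365) (nat_lit 4503599627370496)
 .dd))))))))))))))))) (.ch (nat_lit 7) (.ev (nat_lit 52) (nat_lit 6334355744261152) (.ev (nat_lit 352) (nat_lit
 312538613092928) .dd)))))) (.br (nat_lit 15) (.br (nat_lit 11) (.ch (nat_lit 8) (.ev (nat_lit 52) (nat_lit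
 4531364728968192) (.ev (nat_lit 116) (nat_lit 64) (.ev (nat_lit 180) (nat_lit 65536) (.ev (nat_lit 340)
 (nat_lit 512) (.ev (nat_lit 372) (nat_lit 68719476736) (.ev (nat_lit 404) (nat_lit 562949953421312) (.ev
 (nat_lit 468) (nat_lit 1125899906842624) (.ev (nat_lit 1216) (nat_lit 285873560092704) (.ev (nat_lit 1808)
 (nat_lit 140737488355328) (.ev (nat_lit 1821) (nat_lit 131072) .dd))))))))))) (.br (nat_lit 12) (.ch (nat_lit
 11) (.ev (nat_lit 52) (nat_lit 572914563121216) (.ev (nat_lit 128) (nat_lit 6073979794232864) .dd))) (.ch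
 (nat_lit 12) (.ev (nat_lit 52) (nat_lit 4802669743407712) (.ev (nat_lit 180) (nat_lit 16777216) (.ev (nat_lit
 276) (nat_lit 4096) (.ev (nat_lit 404) (nat_lit 1125899906842624) (.ev (nat_lit 1172) (nat_lit 1099511627776)
 (.ev (nat_lit 1632) (nat_lit 140737488355328) (.nd (nat_lit 2048) (.br (nat_lit 5) (.br (nat_lit 2) (.ch
 (nat_lit 0) (.ev (nat_lit 2064) (nat_lit 563293550806016) (.ev (nat_lit 2336) (nat_lit 8796093022208) (.ev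
 (nat_lit 2349) (nat_lit 4398046511104) .dd)))) (.ch (nat_lit 2) (.ev (nat_lit 2064) (nat_lit 13537736918016)
 (.ev (nat_lit 2077) (nat_lit 562949953421312) .dd)))) (.br (nat_lit 7) (.ch (nat_lit 5) (.ev (nat_lit 2064)
 (nat_lit 563018672899072) (.ev (nat_lit 2116) (nat_lit 274877906944) (.ev (nat_lit 2356) (nat_lit
 4398046511104) (.ev (nat_lit 2365) (nat_lit 8796093022208) .dd))))) (.ch (nat_lit 7) (.ev (nat_lit 2064)
 (nat_lit 13194139533312) (.ev (nat_lit 2176) (nat_lit 68719476736) (.ev (nat_lit 2356) (nat_lit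
 563224831328256) (.ev (nat_lit 2365) (nat_lit 1024) .dd))))))))))))))))) (.br (nat_lit 16) (.ch (nat_lit 15)
 (.ev (nat_lit 52) (nat_lit 431077294768736) (.ev (nat_lit 212) (nat_lit 536870912) (.ev (nat_lit 436) (nat_lit
 4096) (.ev (nat_lit 500) (nat_lit 268435456) (.ev (nat_lit 640) (nat_lit 6215816257274880) .dd)))))) (.br
 (nat_lit 18) (.ch (nat_lit 16) (.ev (nat_lit 52) (nat_lit 6202345092744224) (.ev (nat_lit 244) (nat_lit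
 140737488355392) (.ev (nat_lit 404) (nat_lit 4398046511104) (.ev (nat_lit 564) (nat_lit 2147483648) (.ev
 (nat_lit 788) (nat_lit 536870912) (.ev (nat_lit 948) (nat_lit 274877906944) (.ev (nat_lit 1204) (nat_lit
 17592186044416) (.ev (nat_lit 1828) (nat_lit 281474976710656) (.nd (nat_lit 2048) (.br (nat_lit 9) (.br
 (nat_lit 5) (.ch (nat_lit 1) (.ev (nat_lit 2064) (nat_lit 69004726784) .dd)) (.ch (nat_lit 5) (.ev (nat_lit
 2064) (nat_lit 285245952) (.ev (nat_lit 2208) (nat_lit 4096) (.ev (nat_lit 2221) (nat_lit 68719476736)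
 .dd))))) (.br (nat_lit 10) (.ch (nat_lit 9) (.ev (nat_lit 2064) (nat_lit 68736290816) (.ev (nat_lit 2320)
 (nat_lit 268435968) .dd))) (.ch (nat_lit 10) (.ev (nat_lit 2064) (nat_lit 68719481344) (.ev (nat_lit 2356)
 (nat_lit 32768) (.ev (nat_lit 2368) (nat_lit 268435456) (.ev (nat_lit 2381) (nat_lit 16777216)
 .dd))))))))))))))))) (.ch (nat_lit 18) (.ev (nat_lit 52) (nat_lit 5656231695913024) (.ev (nat_lit 84) (nat_lit
 512) (.ev (nat_lit 404) (nat_lit 140737488355328) (.ev (nat_lit 608) (nat_lit 849925173085216) .dd)))))))))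
 (.br (nat_lit 29) (.br (nat_lit 23) (.br (nat_lit 22) (.ch (nat_lit 19) (.ev (nat_lit 52) (nat_lit
 589613916192768) (.ev (nat_lit 148) (nat_lit 512) (.ev (nat_lit 180) (nat_lit 281474976710656) (.ev (nat_lit
 416) (nat_lit 5775805464450144) .dd))))) (.ch (nat_lit 22) (.ev (nat_lit 52) (nat_lit 2134154233807360) (.ev
 (nat_lit 340) (nat_lit 68719476736) (.ev (nat_lit 372) (nat_lit 65568) (.ev (nat_lit 1012) (nat_lit
 274877906944) (.ev (nat_lit 1076) (nat_lit 268435456) (.ev (nat_lit 1172) (nat_lit 131072) (.ev (nat_lit 1764)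
 (nat_lit 8796093022208) (.nd (nat_lit 2048) (.br (nat_lit 7) (.br (nat_lit 5) (.ch (nat_lit 0) (.ev (nat_lit
 2064) (nat_lit 537134144) (.ev (nat_lit 2320) (nat_lit 4503599627374592) .dd))) (.ch (nat_lit 5) (.ev (nat_lit
 2064) (nat_lit 4503600164507648) (.ev (nat_lit 2208) (nat_lit 64) (.ev (nat_lit 2221) (nat_lit 1024) .dd)))))
 (.br (nat_lit 10) (.ch (nat_lit 7) (.ev (nat_lit 2064) (nat_lit 4503599627371584) (.ev (nat_lit 2356) (nat_lit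
 536870912) (.ev (nat_lit 2368) (nat_lit 4096) (.ev (nat_lit 2381) (nat_lit 262144) .dd))))) (.ch (nat_lit 10)
 (.ev (nat_lit 2064) (nat_lit 4503600164508736) .dd)))))))))))))) (.br (nat_lit 24) (.ch (nat_lit 23) (.ev
 (nat_lit 52) (nat_lit 6064906138948160) (.ev (nat_lit 192) (nat_lit 581988218405920) .dd))) (.br (nat_lit 26)
 (.ch (nat_lit 24) (.ev (nat_lit 52) (nat_lit 1578967417030176) (.ev (nat_lit 116) (nat_lit 536870912) (.ev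
 (nat_lit 148) (nat_lit 4096) (.ev (nat_lit 532) (nat_lit 64) (.ev (nat_lit 672) (nat_lit 5067926403448832)
 .dd)))))) (.ch (nat_lit 26) (.ev (nat_lit 52) (nat_lit 5212787312099328) (.ev (nat_lit 84) (nat_lit 16777216)
 (.ev (nat_lit 224) (nat_lit 1434107028477536) .dd))))))) (.br (nat_lit 34) (.br (nat_lit 31) (.ch (nat_lit 29)
 (.ev (nat_lit 52) (nat_lit 4802736331980864) (.ev (nat_lit 372) (nat_lit 4398046511104) (.ev (nat_lit 500)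
 (nat_lit 131072) (.ev (nat_lit 692) (nat_lit 1125899906842624) (.ev (nat_lit 724) (nat_lit 32) (.ev (nat_lit
 788) (nat_lit 140737488355328) (.ev (nat_lit 1264) (nat_lit 4608) (.ev (nat_lit 2016) (nat_lit 1099511627776)
 (.nd (nat_lit 2048) (.br (nat_lit 7) (.br (nat_lit 5) (.ch (nat_lit 0) (.ev (nat_lit 2064) (nat_lit
 571748193992704) (.ev (nat_lit 2144) (nat_lit 1024) (.ev (nat_lit 2157) (nat_lit 274877906944) .dd)))) (.ch
 (nat_lit 5) (.ev (nat_lit 2064) (nat_lit 563226978878464) (.ev (nat_lit 2077) (nat_lit 8796093022208) .dd))))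
 (.br (nat_lit 9) (.ch (nat_lit 7) (.ev (nat_lit 2064) (nat_lit 9073118478336) (.ev (nat_lit 2116) (nat_lit
 562949953421312) (.ev (nat_lit 2125) (nat_lit 1024) .dd)))) (.br (nat_lit 10) (.ch (nat_lit 9) (.ev (nat_lit
 2064) (nat_lit 572020924351488) (.ev (nat_lit 2116) (nat_lit 65536) (.ev (nat_lit 2125) (nat_lit 2147483648)
 .dd)))) (.ch (nat_lit 10) (.ev (nat_lit 2064) (nat_lit 9070970994688) (.ev (nat_lit 2416) (nat_lit
 562949953422336) (.ev (nat_lit 2429) (nat_lit 2147483648) .dd))))))))))))))))) (.br (nat_lit 33) (.ch (nat_lit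
 31) (.ev (nat_lit 52) (nat_lit 1417547513922144) (.ev (nat_lit 148) (nat_lit 140737488355328) (.ev (nat_lit
 436) (nat_lit 68719476736) (.ev (nat_lit 852) (nat_lit 1024) (.ev (nat_lit 948) (nat_lit 4503599627370496)
 (.ev (nat_lit 1568) (nat_lit 567347999932416) (.ev (nat_lit 2032) (nat_lit 32768) (.nd (nat_lit 2048) (.br
 (nat_lit 2) (.br (nat_lit 1) (.ch (nat_lit 0) (.ev (nat_lit 2064) (nat_lit 17592991481856) (.ev (nat_lit 2116)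
 (nat_lit 4096) (.ev (nat_lit 2125) (nat_lit 16777216) .dd)))) (.ch (nat_lit 1) (.ev (nat_lit 2064) (nat_lit
 822083584) (.ev (nat_lit 2416) (nat_lit 17592186175488) (.ev (nat_lit 2429) (nat_lit 4096) .dd))))) (.br
 (nat_lit 7) (.ch (nat_lit 2) (.ev (nat_lit 2064) (nat_lit 553783296) (.ev (nat_lit 2144) (nat_lit
 17592186044416) (.ev (nat_lit 2157) (nat_lit 268435456) .dd)))) (.br (nat_lit 9) (.ch (nat_lit 7) (.ev
 (nat_lit 2064) (nat_lit 17592471392256) (.ev (nat_lit 2077) (nat_lit 536870912) .dd))) (.ch (nat_lit 9) (.ev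
 (nat_lit 2064) (nat_lit 822087680) (.ev (nat_lit 2116) (nat_lit 131072) (.ev (nat_lit 2125) (nat_lit
 17592186044416) .dd)))))))))))))))) (.ch (nat_lit 33) (.ev (nat_lit 52) (nat_lit 5098779837468768) (.ev
 (nat_lit 500) (nat_lit 262144) (.ev (nat_lit 756) (nat_lit 1024) (.ev (nat_lit 852) (nat_lit 131072) (.ev
 (nat_lit 1076) (nat_lit 32768) (.ev (nat_lit 1232) (nat_lit 1407377031037440) (.ev (nat_lit 1744) (nat_lit
 65536) (.ev (nat_lit 1757) (nat_lit 140737488355328) .dd))))))))))) (.br (nat_lit 36) (.ch (nat_lit 34) (.ev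
 (nat_lit 52) (nat_lit 4926911889441792) (.ev (nat_lit 244) (nat_lit 4466765987840) (.ev (nat_lit 404) (nat_lit
 512) (.ev (nat_lit 436) (nat_lit 64) (.ev (nat_lit 628) (nat_lit 8796093022208) (.ev (nat_lit 788) (nat_lit
 1125899906842624) (.ev (nat_lit 1012) (nat_lit 262144) (.ev (nat_lit 1280) (nat_lit 2147483680) (.nd (nat_lit
 2048) (.ch (nat_lit 1) (.ev (nat_lit 2288) (nat_lit 274877972480) (.ev (nat_lit 2448) (nat_lit 536870912) (.ev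
 (nat_lit 2464) (nat_lit 4096) (.fin (nat_lit 576479993789891122)))))))))))))))) (.br (nat_lit 38) (.ch
 (nat_lit 36) (.ev (nat_lit 52) (nat_lit 1834056799000128) (.ev (nat_lit 84) (nat_lit 8796093022208) (.ev
 (nat_lit 340) (nat_lit 65536) (.ev (nat_lit 564) (nat_lit 17592186044416) (.ev (nat_lit 1108) (nat_lit 262144)
 (.ev (nat_lit 1728) (nat_lit 4503599627370496) (.nd (nat_lit 2048) (.br (nat_lit 2) (.br (nat_lit 1) (.ch
 (nat_lit 0) (.ev (nat_lit 2064) (nat_lit 281475245277216) (.ev (nat_lit 2116) (nat_lit 274877906944) (.ev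
 (nat_lit 2272) (nat_lit 1099528404992) .dd)))) (.ch (nat_lit 1) (.ev (nat_lit 2064) (nat_lit 1374406311968)
 (.ev (nat_lit 2080) (nat_lit 281474976710656) (.ev (nat_lit 2432) (nat_lit 268566528) .dd))))) (.br (nat_lit
 5) (.ch (nat_lit 2) (.ev (nat_lit 2064) (nat_lit 1374406443008) (.ev (nat_lit 2116) (nat_lit 281474976710656)
 (.nd (nat_lit 2640) (.br (nat_lit 9) (.ch (nat_lit 1) (.fin (nat_lit 576425018166559297))) (.ch (nat_lit 9)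
 (.ev (nat_lit 2656) (nat_lit 268435456) (.ev (nat_lit 2669) (nat_lit 32) .dd)))))))) (.br (nat_lit 10) (.ch
 (nat_lit 5) (.ev (nat_lit 2064) (nat_lit 282574773551104) (.ev (nat_lit 2356) (nat_lit 131072) (.ev (nat_lit
 2448) (nat_lit 274877906944) (.ev (nat_lit 2461) (nat_lit 32) .dd))))) (.ch (nat_lit 10) (.ev (nat_lit 2064)
 (nat_lit 282849651589152) .dd))))))))))))) (.ch (nat_lit 38) (.ev (nat_lit 52) (nat_lit 295015666418176) (.ev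
 (nat_lit 308) (nat_lit 65536) (.ev (nat_lit 372) (nat_lit 140737488355328) (.ev (nat_lit 564) (nat_lit
 1099511889920) (.ev (nat_lit 628) (nat_lit 4096) (.ev (nat_lit 660) (nat_lit 1125899906842624) (.ev (nat_lit
 916) (nat_lit 4503599627370496) (.ev (nat_lit 1044) (nat_lit 131072) (.ev (nat_lit 1600) (nat_lit
 17592186044416) (.nd (nat_lit 2048) (.br (nat_lit 9) (.ch (nat_lit 7) (.ev (nat_lit 2064) (nat_lit 16777280)
 (.ev (nat_lit 2384) (nat_lit 562949953454080) (.ev (nat_lit 2416) (nat_lit 1056) .dd)))) (.br (nat_lit 10)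
 (.ch (nat_lit 9) (.ev (nat_lit 2064) (nat_lit 16810080) (.ev (nat_lit 2116) (nat_lit 1024) (.ev (nat_lit 2125)
 (nat_lit 562949953421312) .dd)))) (.ch (nat_lit 10) (.ev (nat_lit 2064) (nat_lit 562949953454112) (.ev
 (nat_lit 2160) (nat_lit 64) (.ev (nat_lit 2432) (nat_lit 16778240) .dd)))))))))))))))))))))) (.br (nat_lit 54)
 (.br (nat_lit 47) (.br (nat_lit 43) (.br (nat_lit 42) (.ch (nat_lit 39) (.ev (nat_lit 52) (nat_lit
 4534731714594400) (.ev (nat_lit 148) (nat_lit 281474976710656) (.ev (nat_lit 468) (nat_lit 140737488355328)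
 (.ev (nat_lit 980) (nat_lit 262144) (.ev (nat_lit 1108) (nat_lit 32768) (.ev (nat_lit 1968) (nat_lit 131072)
 (.nd (nat_lit 2048) (.br (nat_lit 5) (.br (nat_lit 1) (.ch (nat_lit 0) (.ev (nat_lit 2064) (nat_lit
 1689950177263616) (.ev (nat_lit 2077) (nat_lit 4096) .dd))) (.ch (nat_lit 1) (.ev (nat_lit 2064) (nat_lit
 1126999686975488) (.ev (nat_lit 2384) (nat_lit 562950490292224) .dd)))) (.br (nat_lit 9) (.ch (nat_lit 5) (.ev
 (nat_lit 2064) (nat_lit 562950758793216) (.ev (nat_lit 2304) (nat_lit 1125899906842624) (.fin (nat_lit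
 576497585933992546))))) (.br (nat_lit 10) (.ch (nat_lit 9) (.ev (nat_lit 2064) (nat_lit 1125900443717632) (.ev
 (nat_lit 2116) (nat_lit 562949953421312) (.ev (nat_lit 2224) (nat_lit 268435456) (.ev (nat_lit 2384) (nat_lit
 1099511627776) (.ev (nat_lit 2397) (nat_lit 65536) .dd)))))) (.ch (nat_lit 10) (.ev (nat_lit 2064) (nat_lit
 564050270359552) (.ev (nat_lit 2356) (nat_lit 65536) (.ev (nat_lit 2365) (nat_lit 1125899906842624)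
 .dd))))))))))))))) (.ch (nat_lit 42) (.ev (nat_lit 52) (nat_lit 312261856265312) (.ev (nat_lit 84) (nat_lit
 1125899906842624) (.ev (nat_lit 276) (nat_lit 68719476736) (.ev (nat_lit 532) (nat_lit 562949953421312) (.ev
 (nat_lit 628) (nat_lit 140737488355328) (.ev (nat_lit 704) (nat_lit 4504976432992768) .dd)))))))) (.br
 (nat_lit 44) (.ch (nat_lit 43) (.ev (nat_lit 52) (nat_lit 5211687532008448) (.ev (nat_lit 256) (nat_lit
 1435206825345632) .dd))) (.br (nat_lit 46) (.ch (nat_lit 44) (.ev (nat_lit 52) (nat_lit 1004129011302400) (.ev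
 (nat_lit 116) (nat_lit 4096) (.ev (nat_lit 148) (nat_lit 32) (.ev (nat_lit 340) (nat_lit 536870912) (.ev
 (nat_lit 512) (nat_lit 5642764809176640) .dd)))))) (.ch (nat_lit 46) (.ev (nat_lit 52) (nat_lit
 23091908645888) (.ev (nat_lit 116) (nat_lit 562949953421312) (.ev (nat_lit 276) (nat_lit 64) (.ev (nat_lit
 308) (nat_lit 140737488355328) (.ev (nat_lit 372) (nat_lit 8796093022208) (.ev (nat_lit 532) (nat_lit
 68719476736) (.ev (nat_lit 596) (nat_lit 1125899906842624) (.ev (nat_lit 788) (nat_lit 512) (.ev (nat_lit 820)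
 (nat_lit 262144) (.ev (nat_lit 1012) (nat_lit 268435456) (.ev (nat_lit 1536) (nat_lit 281749854617600) (.nd
 (nat_lit 2048) (.br (nat_lit 7) (.br (nat_lit 2) (.ch (nat_lit 0) (.ev (nat_lit 2064) (nat_lit
 4503600164274176) (.ev (nat_lit 2077) (nat_lit 32) .dd))) (.ch (nat_lit 2) (.ev (nat_lit 2064) (nat_lit
 536903712) (.ev (nat_lit 2077) (nat_lit 4503599627370496) .dd)))) (.br (nat_lit 9) (.ch (nat_lit 7) (.ev
 (nat_lit 2304) (nat_lit 536870912) (.ev (nat_lit 2356) (nat_lit 4503599627370496) (.ev (nat_lit 2480) (nat_lit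
 32768) (.ev (nat_lit 2493) (nat_lit 32) .dd))))) (.br (nat_lit 10) (.ch (nat_lit 9) (.ev (nat_lit 2064)
 (nat_lit 4503600164241440) (.ev (nat_lit 2077) (nat_lit 32768) .dd))) (.ch (nat_lit 10) (.ev (nat_lit 2064)
 (nat_lit 4503600164274208) .dd))))))))))))))))))))) (.br (nat_lit 50) (.br (nat_lit 48) (.ch (nat_lit 47) (.ev
 (nat_lit 52) (nat_lit 1408751437353472) (.ev (nat_lit 64) (nat_lit 5238142920000608) .dd))) (.br (nat_lit 49)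
 (.ch (nat_lit 48) (.ev (nat_lit 52) (nat_lit 5370086462586912) (.ev (nat_lit 276) (nat_lit 140737488355328)
 (.ev (nat_lit 372) (nat_lit 512) (.ev (nat_lit 404) (nat_lit 65536) (.ev (nat_lit 468) (nat_lit 16777216) (.ev
 (nat_lit 852) (nat_lit 274877906944) (.ev (nat_lit 1012) (nat_lit 131072) (.ev (nat_lit 1376) (nat_lit
 1099511631872) (.nd (nat_lit 2048) (.br (nat_lit 9) (.br (nat_lit 2) (.ch (nat_lit 1) (.ev (nat_lit 2064)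
 (nat_lit 1024) (.ev (nat_lit 2224) (nat_lit 32832) (.ev (nat_lit 2368) (nat_lit 8796093022208) (.ev (nat_lit
 2381) (nat_lit 1125899906842624) .dd))))) (.ch (nat_lit 2) (.ev (nat_lit 2064) (nat_lit 1134695999897664) (.ev
 (nat_lit 2077) (nat_lit 1024) .dd)))) (.br (nat_lit 10) (.ch (nat_lit 9) (.ev (nat_lit 2064) (nat_lit
 1134695999864896) (.ev (nat_lit 2400) (nat_lit 32768) (.ev (nat_lit 2413) (nat_lit 1024) .dd)))) (.ch (nat_lit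
 10) (.ev (nat_lit 2064) (nat_lit 8796093056064) (.ev (nat_lit 2077) (nat_lit 1125899906842624)
 .dd))))))))))))))) (.ch (nat_lit 49) (.ev (nat_lit 52) (nat_lit 1830962560276000) (.ev (nat_lit 84) (nat_lit
 68719476736) (.ev (nat_lit 276) (nat_lit 4398046511104) (.ev (nat_lit 308) (nat_lit 64) (.ev (nat_lit 564)
 (nat_lit 131072) (.ev (nat_lit 596) (nat_lit 65536) (.ev (nat_lit 660) (nat_lit 8796093022208) (.ev (nat_lit
 1120) (nat_lit 4802668937871360) .dd))))))))))) (.br (nat_lit 51) (.ch (nat_lit 50) (.ev (nat_lit 52) (nat_lit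
 4670728079380992) (.ev (nat_lit 84) (nat_lit 64) (.ev (nat_lit 116) (nat_lit 68719476736) (.ev (nat_lit 212)
 (nat_lit 1125899923619840) (.ev (nat_lit 244) (nat_lit 562949953421312) (.ev (nat_lit 532) (nat_lit
 4398046511104) (.ev (nat_lit 820) (nat_lit 274877906944) (.ev (nat_lit 916) (nat_lit 262144) (.nd (nat_lit
 2048) (.br (nat_lit 2) (.br (nat_lit 1) (.ch (nat_lit 0) (.ev (nat_lit 2064) (nat_lit 281475245147136) (.ev
 (nat_lit 2080) (nat_lit 1099511627776) (.ev (nat_lit 2093) (nat_lit 32) .dd)))) (.ch (nat_lit 1) (.ev (nat_lit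
 2064) (nat_lit 1099780064288) (.ev (nat_lit 2077) (nat_lit 281474976710656) .dd)))) (.br (nat_lit 5) (.ch
 (nat_lit 2) (.ev (nat_lit 2064) (nat_lit 1099511628800) (.ev (nat_lit 2256) (nat_lit 281474976710656) (.fin
 (nat_lit 576425018166559297))))) (.br (nat_lit 10) (.ch (nat_lit 5) (.ev (nat_lit 2064) (nat_lit
 282574756773920) (.ev (nat_lit 2077) (nat_lit 1024) .dd))) (.ch (nat_lit 10) (.ev (nat_lit 2064) (nat_lit
 282574488338464) (.fin (nat_lit 576539367428276818))))))))))))))))) (.br (nat_lit 53) (.ch (nat_lit 51) (.ev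
 (nat_lit 52) (nat_lit 4939006768911360) (.ev (nat_lit 96) (nat_lit 1707887588442720) .dd))) (.ch (nat_lit 53)
 (.ev (nat_lit 52) (nat_lit 4512467409573472) (.ev (nat_lit 116) (nat_lit 4398046511104) (.ev (nat_lit 436)
 (nat_lit 562949953421312) (.ev (nat_lit 468) (nat_lit 281474976710656) (.ev (nat_lit 532) (nat_lit 65536) (.ev
 (nat_lit 884) (nat_lit 262144) (.ev (nat_lit 916) (nat_lit 1099511627776) (.ev (nat_lit 1776) (nat_lit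
 140737488355328) (.nd (nat_lit 2048) (.br (nat_lit 9) (.br (nat_lit 7) (.ch (nat_lit 1) (.ev (nat_lit 2116)
 (nat_lit 17592186044416) (.ev (nat_lit 2534) (nat_lit 32768) (.nd (nat_lit 2640) (.br (nat_lit 7) (.br
 (nat_lit 3) (.ch (nat_lit 2) (.ev (nat_lit 2656) (nat_lit 1126174784749568) .dd)) (.ch (nat_lit 3) (.fin
 (nat_lit 576501983990989387)))) (.br (nat_lit 9) (.ch (nat_lit 7) (.ev (nat_lit 2656) (nat_lit
 1126174784749568) .dd)) (.ch (nat_lit 9) (.ev (nat_lit 2656) (nat_lit 1126174784749568) .dd)))))))) (.ch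
 (nat_lit 7) (.ev (nat_lit 2064) (nat_lit 1143492092887040) (.nd (nat_lit 2640) (.br (nat_lit 4) (.ch (nat_lit
 1) (.fin (nat_lit 576374440621195798))) (.ch (nat_lit 4) (.ev (nat_lit 2656) (nat_lit 274877939712) .dd)))))))
 (.br (nat_lit 10) (.ch (nat_lit 9) (.ev (nat_lit 2064) (nat_lit 1143766970826752) .dd)) (.ch (nat_lit 10) (.ev
 (nat_lit 2064) (nat_lit 1126174784782336) (.ev (nat_lit 2077) (nat_lit 17592186044416) .dd)))))))))))))))))))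
 (.br (nat_lit 64) (.br (nat_lit 57) (.br (nat_lit 55) (.ch (nat_lit 54) (.ev (nat_lit 52) (nat_lit
 1135042030174720) (.ev (nat_lit 244) (nat_lit 32) (.ev (nat_lit 448) (nat_lit 5511852327179328) .dd)))) (.ch
 (nat_lit 55) (.ev (nat_lit 52) (nat_lit 580611395884576) (.ev (nat_lit 84) (nat_lit 281474976710656) (.ev
 (nat_lit 180) (nat_lit 1125899906842624) (.ev (nat_lit 320) (nat_lit 4658908077916224) .dd)))))) (.br (nat_lit
 58) (.ch (nat_lit 57) (.ev (nat_lit 52) (nat_lit 1412116544291424) (.ev (nat_lit 160) (nat_lit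
 5234777813062656) .dd))) (.br (nat_lit 62) (.ch (nat_lit 58) (.ev (nat_lit 52) (nat_lit 1135796317159488) (.ev
 (nat_lit 84) (nat_lit 4096) (.ev (nat_lit 276) (nat_lit 562949953421312) (.ev (nat_lit 404) (nat_lit 16777216)
 (.ev (nat_lit 468) (nat_lit 68719477248) (.ev (nat_lit 884) (nat_lit 17592186044416) (.ev (nat_lit 1044)
 (nat_lit 2147483648) (.ev (nat_lit 1108) (nat_lit 274877906944) (.ev (nat_lit 1140) (nat_lit 140737488355328)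
 (.ev (nat_lit 1408) (nat_lit 4785074604081152) (.nd (nat_lit 2048) (.br (nat_lit 7) (.br (nat_lit 5) (.ch
 (nat_lit 0) (.ev (nat_lit 2064) (nat_lit 132096) (.ev (nat_lit 2356) (nat_lit 32) (.ev (nat_lit 2365) (nat_lit
 4398046511104) .dd)))) (.ch (nat_lit 5) (.ev (nat_lit 2064) (nat_lit 4398046511104) (.ev (nat_lit 2356)
 (nat_lit 1024) (.ev (nat_lit 2368) (nat_lit 131104) .dd))))) (.br (nat_lit 9) (.ch (nat_lit 7) (.ev (nat_lit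
 2064) (nat_lit 4398046642208) (.ev (nat_lit 2077) (nat_lit 1024) .dd))) (.ch (nat_lit 9) (.ev (nat_lit 2064)
 (nat_lit 4398046511136) (.ev (nat_lit 2356) (nat_lit 131072) (.ev (nat_lit 2365) (nat_lit 1024)
 .dd)))))))))))))))))) (.ch (nat_lit 62) (.ev (nat_lit 52) (nat_lit 584940723279360) (.ev (nat_lit 84) (nat_lit
 65536) (.ev (nat_lit 212) (nat_lit 8796093022208) (.ev (nat_lit 340) (nat_lit 281474976710656) (.ev (nat_lit
 596) (nat_lit 64) (.ev (nat_lit 628) (nat_lit 1125899906842624) (.ev (nat_lit 1552) (nat_lit 4503599895805952)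
 (.nd (nat_lit 2048) (.br (nat_lit 2) (.br (nat_lit 1) (.ch (nat_lit 0) (.ev (nat_lit 2064) (nat_lit
 141014513745952) (.ev (nat_lit 2116) (nat_lit 68719476736) (.ev (nat_lit 2256) (nat_lit 16777216) (.ev
 (nat_lit 2269) (nat_lit 1099511627776) .dd))))) (.ch (nat_lit 1) (.ev (nat_lit 2064) (nat_lit 142182761627680)
 .dd))) (.br (nat_lit 7) (.ch (nat_lit 2) (.ev (nat_lit 2064) (nat_lit 1445273272320) (.ev (nat_lit 2128)
 (nat_lit 140737488355328) (.ev (nat_lit 2141) (nat_lit 32) .dd)))) (.br (nat_lit 9) (.ch (nat_lit 7) (.ev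
 (nat_lit 2064) (nat_lit 141839164244000) (.ev (nat_lit 2256) (nat_lit 274877906944) (.ev (nat_lit 2269)
 (nat_lit 68719476736) .dd)))) (.ch (nat_lit 9) (.ev (nat_lit 2064) (nat_lit 1443125788704) (.ev (nat_lit 2080)
 (nat_lit 140737488355328) (.ev (nat_lit 2093) (nat_lit 2147483648) .dd))))))))))))))))))) (.br (nat_lit 68)
 (.br (nat_lit 65) (.ch (nat_lit 64) (.ev (nat_lit 52) (nat_lit 4649837375067232) (.ev (nat_lit 596) (nat_lit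
 562949953421312) (.ev (nat_lit 660) (nat_lit 512) (.ev (nat_lit 884) (nat_lit 32768) (.ev (nat_lit 1424)
 (nat_lit 281474976841728) (.nd (nat_lit 2048) (.br (nat_lit 7) (.br (nat_lit 5) (.ch (nat_lit 0) (.ev (nat_lit
 2064) (nat_lit 1152563332251648) (.ev (nat_lit 2128) (nat_lit 262144) (.ev (nat_lit 2141) (nat_lit
 68719476736) .dd)))) (.ch (nat_lit 5) (.ev (nat_lit 2064) (nat_lit 17936052125696) (.ev (nat_lit 2256)
 (nat_lit 8796093022208) (.ev (nat_lit 2269) (nat_lit 1125899906842624) .dd))))) (.br (nat_lit 9) (.ch (nat_lit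
 7) (.ev (nat_lit 2064) (nat_lit 1152357173821440) (.ev (nat_lit 2080) (nat_lit 262144) (.ev (nat_lit 2093)
 (nat_lit 274877906944) .dd)))) (.br (nat_lit 10) (.ch (nat_lit 9) (.ev (nat_lit 2064) (nat_lit 9139690668032)
 (.ev (nat_lit 2116) (nat_lit 1125899906842624) (.ev (nat_lit 2256) (nat_lit 268435456) (.ev (nat_lit 2269)
 (nat_lit 17592186044416) .dd))))) (.ch (nat_lit 10) (.ev (nat_lit 2064) (nat_lit 1152632051990528)
 .dd)))))))))))) (.br (nat_lit 67) (.ch (nat_lit 65) (.ev (nat_lit 52) (nat_lit 4939008396689440) (.ev (nat_lit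
 116) (nat_lit 1125899906842624) (.ev (nat_lit 436) (nat_lit 512) (.ev (nat_lit 692) (nat_lit 536870912) (.nd
 (nat_lit 2048) (.br (nat_lit 7) (.br (nat_lit 5) (.ch (nat_lit 1) (.ev (nat_lit 2064) (nat_lit 1168499577856)
 (.ev (nat_lit 2096) (nat_lit 274877906944) (.ev (nat_lit 2550) (nat_lit 64) (.nd (nat_lit 2640) (.br (nat_lit
 7) (.ch (nat_lit 5) (.fin (nat_lit 576479993789891122))) (.ch (nat_lit 7) (.ev (nat_lit 2656) (nat_lit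
 562949953421312) (.ev (nat_lit 2669) (nat_lit 17592186044416) .dd))))))))) (.ch (nat_lit 5) (.ev (nat_lit
 2064) (nat_lit 580817285840960) (.ev (nat_lit 2096) (nat_lit 1024) (.ev (nat_lit 2566) (nat_lit 68719476736)
 (.nd (nat_lit 2640) (.br (nat_lit 10) (.ch (nat_lit 8) (.ev (nat_lit 2656) (nat_lit 1099511627776) (.ev
 (nat_lit 2669) (nat_lit 4096) .dd))) (.ch (nat_lit 10) (.fin (nat_lit 576425018187530782)))))))))) (.br
 (nat_lit 10) (.ch (nat_lit 7) (.ev (nat_lit 2064) (nat_lit 581641919530048) (.ev (nat_lit 2516) (nat_lit 4096)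
 (.ev (nat_lit 2582) (nat_lit 68719476736) (.nd (nat_lit 2640) (.br (nat_lit 2) (.ch (nat_lit 1) (.fin (nat_lit
 576374440621195798))) (.ch (nat_lit 2) (.ev (nat_lit 2656) (nat_lit 274877939712) .dd)))))))) (.ch (nat_lit
 10) (.ev (nat_lit 2064) (nat_lit 564393062469632) (.ev (nat_lit 2516) (nat_lit 17592186044416) (.ev (nat_lit
 2614) (nat_lit 64) (.nd (nat_lit 2640) (.br (nat_lit 7) (.ch (nat_lit 6) (.ev (nat_lit 2656) (nat_lit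
 268436480) .dd)) (.ch (nat_lit 7) (.fin (nat_lit 576383236693246510))))))))))))))))) (.ch (nat_lit 67) (.ev
 (nat_lit 52) (nat_lit 858787569340480) (.ev (nat_lit 276) (nat_lit 65536) (.ev (nat_lit 404) (nat_lit
 536870912) (.ev (nat_lit 468) (nat_lit 32) (.ev (nat_lit 628) (nat_lit 16777216) (.ev (nat_lit 756) (nat_lit
 4521191813414912) (.ev (nat_lit 820) (nat_lit 1024) (.ev (nat_lit 980) (nat_lit 274877906944) (.ev (nat_lit
 1696) (nat_lit 32768) (.nd (nat_lit 2048) (.br (nat_lit 5) (.br (nat_lit 2) (.ch (nat_lit 1) (.ev (nat_lit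
 2064) (nat_lit 140737488617984) (.ev (nat_lit 2304) (nat_lit 2147483648) (.ev (nat_lit 2317) (nat_lit
 1125899906842624) .dd)))) (.ch (nat_lit 2) (.ev (nat_lit 2064) (nat_lit 1125902054588416) (.ev (nat_lit 2116)
 (nat_lit 140737488355328) (.ev (nat_lit 2125) (nat_lit 512) .dd))))) (.br (nat_lit 7) (.ch (nat_lit 5) (.ev
 (nat_lit 2064) (nat_lit 140739636101632) (.ev (nat_lit 2077) (nat_lit 1125899906842624) .dd))) (.br (nat_lit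
 9) (.ch (nat_lit 7) (.ev (nat_lit 2064) (nat_lit 1266639542682112) (.ev (nat_lit 2077) (nat_lit 262144) .dd)))
 (.ch (nat_lit 9) (.ev (nat_lit 2064) (nat_lit 1125902054588416) (.ev (nat_lit 2304) (nat_lit 140737488355328)
 (.ev (nat_lit 2317) (nat_lit 512) .dd)))))))))))))))))))) (.br (nat_lit 69) (.ch (nat_lit 68) (.ev (nat_lit
 52) (nat_lit 4504699692680192) (.ev (nat_lit 212) (nat_lit 64) (.ev (nat_lit 244) (nat_lit 65536) (.ev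
 (nat_lit 308) (nat_lit 4398046511136) (.ev (nat_lit 436) (nat_lit 281474976710656) (.ev (nat_lit 596) (nat_lit
 4096) (.ev (nat_lit 628) (nat_lit 512) (.ev (nat_lit 660) (nat_lit 562949953421312) (.ev (nat_lit 788)
 (nat_lit 68719476736) (.ev (nat_lit 820) (nat_lit 131072) (.ev (nat_lit 1360) (nat_lit 140737488617472) (.nd
 (nat_lit 2048) (.ch (nat_lit 1) (.ev (nat_lit 2240) (nat_lit 17592186044416) (.ev (nat_lit 2400) (nat_lit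
 8798508941312) (.fin (nat_lit 576501983990989387)))))))))))))))))) (.br (nat_lit 70) (.ch (nat_lit 69) (.ev
 (nat_lit 52) (nat_lit 1830689813299296) (.ev (nat_lit 148) (nat_lit 16777216) (.ev (nat_lit 288) (nat_lit
 4816204527277568) .dd)))) (.ch (nat_lit 70) (.ev (nat_lit 52) (nat_lit 158673540681792) (.ev (nat_lit 180)
 (nat_lit 32) (.ev (nat_lit 384) (nat_lit 6488220816672256) .dd))))))))))))

/-- Subtrie. -/
noncomputable def T4 : Tr := (.ev (nat_lit 20) (nat_lit 6216709963057664) (.nd (nat_lit 33) (.br (nat_lit 39)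
 (.br (nat_lit 19) (.br (nat_lit 8) (.br (nat_lit 4) (.br (nat_lit 3) (.ch (nat_lit 1) (.ev (nat_lit 52)
 (nat_lit 282437049520224) (.ev (nat_lit 84) (nat_lit 2097152) (.ev (nat_lit 244) (nat_lit 32768) (.ev (nat_lit
 404) (nat_lit 1024) (.ev (nat_lit 692) (nat_lit 536870912) (.ev (nat_lit 756) (nat_lit 140737488355328) (.ev
 (nat_lit 1584) (nat_lit 4194304) (.nd (nat_lit 2048) (.br (nat_lit 6) (.br (nat_lit 4) (.ch (nat_lit 0) (.ev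
 (nat_lit 2064) (nat_lit 79173427134480) (.ev (nat_lit 2077) (nat_lit 1099511627776) .dd))) (.ch (nat_lit 4)
 (.ev (nat_lit 2064) (nat_lit 71476845740048) (.ev (nat_lit 2077) (nat_lit 8796093022208) .dd)))) (.br (nat_lit
 8) (.ch (nat_lit 6) (.ev (nat_lit 2064) (nat_lit 1108101562368) (.ev (nat_lit 2368) (nat_lit 8796093022208)
 (.ev (nat_lit 2384) (nat_lit 16) (.ev (nat_lit 2397) (nat_lit 70368744177664) .dd))))) (.ch (nat_lit 8) (.ev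
 (nat_lit 2064) (nat_lit 79164837199872) (.ev (nat_lit 2116) (nat_lit 16) (.ev (nat_lit 2208) (nat_lit
 1108101562368) .dd))))))))))))))) (.ch (nat_lit 3) (.ev (nat_lit 52) (nat_lit 422213008397376) (.ev (nat_lit
 244) (nat_lit 549755813888) (.ev (nat_lit 832) (nat_lit 80685255622704) .dd))))) (.br (nat_lit 5) (.ch
 (nat_lit 4) (.ev (nat_lit 52) (nat_lit 142249316844576) (.ev (nat_lit 148) (nat_lit 8589934592) (.ev (nat_lit
 180) (nat_lit 131072) (.ev (nat_lit 532) (nat_lit 32768) (.ev (nat_lit 628) (nat_lit 4194304) (.ev (nat_lit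
 692) (nat_lit 2097152) (.ev (nat_lit 724) (nat_lit 8796093022208) (.ev (nat_lit 820) (nat_lit 281474976710656)
 (.ev (nat_lit 884) (nat_lit 70368744177664) (.ev (nat_lit 1140) (nat_lit 536870912) (.nd (nat_lit 2048) (.br
 (nat_lit 6) (.br (nat_lit 5) (.ch (nat_lit 4) (.ev (nat_lit 2064) (nat_lit 549755813952) (.ev (nat_lit 2320)
 (nat_lit 4096) (.ev (nat_lit 2333) (nat_lit 16) .dd)))) (.ch (nat_lit 5) (.ev (nat_lit 2064) (nat_lit 4112)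
 (.ev (nat_lit 2192) (nat_lit 64) (.ev (nat_lit 2205) (nat_lit 549755813888) .dd))))) (.br (nat_lit 8) (.ch
 (nat_lit 6) (.ev (nat_lit 2064) (nat_lit 549755818064) .dd)) (.ch (nat_lit 8) (.ev (nat_lit 2064) (nat_lit
 549755818048) (.ev (nat_lit 2077) (nat_lit 16) .dd))))))))))))))))) (.br (nat_lit 7) (.ch (nat_lit 5) (.ev
 (nat_lit 52) (nat_lit 423724832654352) (.ev (nat_lit 84) (nat_lit 32768) (.ev (nat_lit 340) (nat_lit
 8589934592) (.ev (nat_lit 564) (nat_lit 70368744177664) (.ev (nat_lit 1440) (nat_lit 8796093022272) (.nd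
 (nat_lit 2048) (.br (nat_lit 5) (.br (nat_lit 4) (.ch (nat_lit 0) (.ev (nat_lit 2064) (nat_lit 549760012320)
 .dd)) (.ch (nat_lit 4) (.ev (nat_lit 2304) (nat_lit 549755813888) (.ev (nat_lit 2356) (nat_lit 4096) (.ev
 (nat_lit 2480) (nat_lit 32) (.ev (nat_lit 2493) (nat_lit 4194304) .dd)))))) (.br (nat_lit 6) (.ch (nat_lit 5)
 (.ev (nat_lit 2064) (nat_lit 549760012288) (.ev (nat_lit 2077) (nat_lit 32) .dd))) (.br (nat_lit 7) (.ch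
 (nat_lit 6) (.ev (nat_lit 2064) (nat_lit 549755818016) (.ev (nat_lit 2077) (nat_lit 4194304) .dd))) (.ch
 (nat_lit 7) (.ev (nat_lit 2064) (nat_lit 549760008224) (.ev (nat_lit 2077) (nat_lit 4096) .dd)))))))))))))
 (.ch (nat_lit 7) (.ev (nat_lit 52) (nat_lit 212902065767472) (.ev (nat_lit 180) (nat_lit 2097152) (.ev
 (nat_lit 1012) (nat_lit 64) (.ev (nat_lit 1024) (nat_lit 290545951969280) .dd)))))))) (.br (nat_lit 15) (.br
 (nat_lit 11) (.ch (nat_lit 8) (.ev (nat_lit 52) (nat_lit 10728834634752) (.ev (nat_lit 736) (nat_lit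
 492719185199216) .dd))) (.br (nat_lit 12) (.ch (nat_lit 11) (.ev (nat_lit 52) (nat_lit 10591389384768) (.ev
 (nat_lit 116) (nat_lit 2097152) (.ev (nat_lit 276) (nat_lit 1024) (.ev (nat_lit 500) (nat_lit 16) (.ev
 (nat_lit 884) (nat_lit 140737488355328) (.ev (nat_lit 1648) (nat_lit 281475513581568) (.nd (nat_lit 2048) (.br
 (nat_lit 7) (.br (nat_lit 2) (.ch (nat_lit 0) (.ev (nat_lit 2064) (nat_lit 70368744181792) (.ev (nat_lit 2356)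
 (nat_lit 274878038016) (.ev (nat_lit 2365) (nat_lit 4194304) .dd)))) (.ch (nat_lit 2) (.ev (nat_lit 2064)
 (nat_lit 274882232320) (.ev (nat_lit 2368) (nat_lit 4096) (.ev (nat_lit 2496) (nat_lit 70368744177696)
 .dd))))) (.br (nat_lit 8) (.ch (nat_lit 7) (.ev (nat_lit 2064) (nat_lit 4329504) (.ev (nat_lit 2320) (nat_lit
 70643622084608) .dd))) (.ch (nat_lit 8) (.ev (nat_lit 2064) (nat_lit 70643626414080) (.ev (nat_lit 2077)
 (nat_lit 32) .dd))))))))))))) (.ch (nat_lit 12) (.ev (nat_lit 52) (nat_lit 281475513745504) (.ev (nat_lit 340)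
 (nat_lit 4194304) (.ev (nat_lit 436) (nat_lit 137438953472) (.ev (nat_lit 724) (nat_lit 558345748480) (.ev
 (nat_lit 756) (nat_lit 1099511627776) (.ev (nat_lit 1616) (nat_lit 140737488355328) (.ev (nat_lit 1984)
 (nat_lit 2097152) (.nd (nat_lit 2048) (.br (nat_lit 6) (.br (nat_lit 5) (.ch (nat_lit 2) (.ev (nat_lit 2064)
 (nat_lit 79164837199888) (.ev (nat_lit 2356) (nat_lit 274877907968) (.ev (nat_lit 2365) (nat_lit 4096) .dd))))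
 (.ch (nat_lit 5) (.ev (nat_lit 2064) (nat_lit 70368744182800) (.ev (nat_lit 2320) (nat_lit 9070970929152)
 .dd)))) (.br (nat_lit 7) (.ch (nat_lit 6) (.ev (nat_lit 2064) (nat_lit 274877912064) (.ev (nat_lit 2368)
 (nat_lit 16) (.ev (nat_lit 2496) (nat_lit 79164837199872) .dd)))) (.ch (nat_lit 7) (.ev (nat_lit 2064)
 (nat_lit 9070970934288) (.ev (nat_lit 2077) (nat_lit 70368744177664) .dd)))))))))))))))) (.br (nat_lit 16)
 (.ch (nat_lit 15) (.ev (nat_lit 52) (nat_lit 501377306624096) (.ev (nat_lit 180) (nat_lit 549755813888) (.ev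
 (nat_lit 308) (nat_lit 137438953472) (.ev (nat_lit 532) (nat_lit 536870912) (.ev (nat_lit 596) (nat_lit 1024)
 (.ev (nat_lit 1904) (nat_lit 4096) (.nd (nat_lit 2048) (.br (nat_lit 4) (.br (nat_lit 2) (.ch (nat_lit 0) (.ev
 (nat_lit 2064) (nat_lit 1108101562384) (.ev (nat_lit 2304) (nat_lit 274877906944) (.ev (nat_lit 2317) (nat_lit
 2097152) .dd)))) (.ch (nat_lit 2) (.ev (nat_lit 2064) (nat_lit 283469938704) (.ev (nat_lit 2077) (nat_lit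
 1099511627776) .dd)))) (.br (nat_lit 7) (.ch (nat_lit 4) (.ev (nat_lit 2064) (nat_lit 1374391631888) (.ev
 (nat_lit 2077) (nat_lit 8589934592) .dd))) (.br (nat_lit 8) (.ch (nat_lit 7) (.ev (nat_lit 2064) (nat_lit
 1108101562384) (.ev (nat_lit 2116) (nat_lit 274877906944) (.ev (nat_lit 2125) (nat_lit 2097152) .dd)))) (.ch
 (nat_lit 8) (.ev (nat_lit 2064) (nat_lit 1374391631872) (.ev (nat_lit 2304) (nat_lit 16) (.ev (nat_lit 2317)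
 (nat_lit 8589934592) .dd))))))))))))))) (.br (nat_lit 18) (.ch (nat_lit 16) (.ev (nat_lit 52) (nat_lit
 10033050027040) (.ev (nat_lit 148) (nat_lit 536870912) (.ev (nat_lit 308) (nat_lit 8589934592) (.ev (nat_lit
 500) (nat_lit 140737488355328) (.ev (nat_lit 756) (nat_lit 351843720888320) (.ev (nat_lit 980) (nat_lit 16)
 (.ev (nat_lit 1056) (nat_lit 824633757760) .dd)))))))) (.ch (nat_lit 18) (.ev (nat_lit 52) (nat_lit
 79585746128976) (.ev (nat_lit 116) (nat_lit 131072) (.ev (nat_lit 2000) (nat_lit 4194304) (.nd (nat_lit 2048)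
 (.br (nat_lit 5) (.br (nat_lit 4) (.ch (nat_lit 2) (.ev (nat_lit 2064) (nat_lit 422212465066016) (.ev (nat_lit
 2116) (nat_lit 1099511627776) (.ev (nat_lit 2224) (nat_lit 1024) (.ev (nat_lit 2384) (nat_lit 549755813888)
 (.ev (nat_lit 2397) (nat_lit 536870912) .dd)))))) (.ch (nat_lit 4) (.ev (nat_lit 2064) (nat_lit
 283124244153376) (.ev (nat_lit 2356) (nat_lit 536870912) (.ev (nat_lit 2365) (nat_lit 140737488355328)
 .dd))))) (.br (nat_lit 6) (.ch (nat_lit 5) (.ev (nat_lit 2064) (nat_lit 1100048499744) (.ev (nat_lit 2304)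
 (nat_lit 140737488355328) (.fin (nat_lit 576490988864225842))))) (.br (nat_lit 8) (.ch (nat_lit 6) (.ev
 (nat_lit 2064) (nat_lit 142387292668960) (.ev (nat_lit 2077) (nat_lit 281474976710656) .dd))) (.ch (nat_lit 8)
 (.ev (nat_lit 2064) (nat_lit 422762757751808) (.ev (nat_lit 2384) (nat_lit 1099511627808) .dd)))))))))))))))
 (.br (nat_lit 29) (.br (nat_lit 23) (.br (nat_lit 22) (.ch (nat_lit 19) (.ev (nat_lit 52) (nat_lit
 9621265874944) (.ev (nat_lit 212) (nat_lit 137438953472) (.ev (nat_lit 596) (nat_lit 8589934592) (.ev (nat_lit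
 660) (nat_lit 1024) (.ev (nat_lit 724) (nat_lit 4194304) (.ev (nat_lit 1472) (nat_lit 282574488338432) (.nd
 (nat_lit 2048) (.br (nat_lit 7) (.ch (nat_lit 6) (.ev (nat_lit 2064) (nat_lit 140737488359536) (.ev (nat_lit
 2077) (nat_lit 70368744177664) .dd))) (.br (nat_lit 8) (.ch (nat_lit 7) (.ev (nat_lit 2240) (nat_lit 4128)
 (.ev (nat_lit 2356) (nat_lit 140737488355392) (.ev (nat_lit 2416) (nat_lit 70368744177680) .dd)))) (.ch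
 (nat_lit 8) (.ev (nat_lit 2064) (nat_lit 211106232537184) (.ev (nat_lit 2077) (nat_lit 16) .dd)))))))))))))
 (.ch (nat_lit 22) (.ev (nat_lit 52) (nat_lit 423999171493888) (.ev (nat_lit 116) (nat_lit 8589934592) (.ev
 (nat_lit 308) (nat_lit 536870912) (.ev (nat_lit 544) (nat_lit 79439721534576) .dd)))))) (.br (nat_lit 24) (.ch
 (nat_lit 23) (.ev (nat_lit 52) (nat_lit 431154587111488) (.ev (nat_lit 692) (nat_lit 1024) (.ev (nat_lit 724)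
 (nat_lit 536870912) (.ev (nat_lit 916) (nat_lit 32) (.ev (nat_lit 1108) (nat_lit 274877906944) (.ev (nat_lit
 1248) (nat_lit 1649267441664) (.ev (nat_lit 1664) (nat_lit 32768) (.nd (nat_lit 2048) (.br (nat_lit 7) (.ch
 (nat_lit 6) (.ev (nat_lit 2064) (nat_lit 2097152) (.ev (nat_lit 2116) (nat_lit 4194320) (.ev (nat_lit 2125)
 (nat_lit 70368744177664) .dd)))) (.br (nat_lit 8) (.ch (nat_lit 7) (.ev (nat_lit 2064) (nat_lit 4194320) (.ev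
 (nat_lit 2116) (nat_lit 2097152) (.ev (nat_lit 2125) (nat_lit 70368744177664) .dd)))) (.ch (nat_lit 8) (.ev
 (nat_lit 2064) (nat_lit 6291456) (.ev (nat_lit 2356) (nat_lit 16) (.ev (nat_lit 2365) (nat_lit 70368744177664)
 .dd))))))))))))))) (.br (nat_lit 26) (.ch (nat_lit 24) (.ev (nat_lit 52) (nat_lit 501385892201504) (.ev
 (nat_lit 116) (nat_lit 549755813888) (.ev (nat_lit 180) (nat_lit 4194304) (.ev (nat_lit 596) (nat_lit 2097152)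
 (.ev (nat_lit 852) (nat_lit 274877906944) (.nd (nat_lit 2048) (.br (nat_lit 5) (.br (nat_lit 2) (.ch (nat_lit
 0) (.ev (nat_lit 2064) (nat_lit 536907840) (.ev (nat_lit 2176) (nat_lit 1099511627776) (.ev (nat_lit 2356)
 (nat_lit 131072) (.ev (nat_lit 2400) (nat_lit 137438953472) (.ev (nat_lit 2413) (nat_lit 16) .dd)))))) (.ch
 (nat_lit 2) (.ev (nat_lit 2064) (nat_lit 137438986304) (.ev (nat_lit 2116) (nat_lit 4112) (.ev (nat_lit 2224)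
 (nat_lit 1099511758848) (.ev (nat_lit 2237) (nat_lit 536870912) .dd)))))) (.br (nat_lit 7) (.ch (nat_lit 5)
 (.ev (nat_lit 2064) (nat_lit 1099511758864) (.ev (nat_lit 2116) (nat_lit 536903680) (.ev (nat_lit 2224)
 (nat_lit 137438953536) (.ev (nat_lit 2237) (nat_lit 4096) .dd))))) (.ch (nat_lit 7) (.ev (nat_lit 2064)
 (nat_lit 1100048502800) (.ev (nat_lit 2176) (nat_lit 64) (.ev (nat_lit 2356) (nat_lit 137438953472) (.ev
 (nat_lit 2400) (nat_lit 131072) (.ev (nat_lit 2413) (nat_lit 32768) .dd))))))))))))))) (.ch (nat_lit 26) (.ev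
 (nat_lit 52) (nat_lit 141983570067472) (.ev (nat_lit 480) (nat_lit 361464449766496) .dd)))))) (.br (nat_lit
 34) (.br (nat_lit 31) (.ch (nat_lit 29) (.ev (nat_lit 52) (nat_lit 352394017800272) (.ev (nat_lit 84) (nat_lit
 131072) (.ev (nat_lit 436) (nat_lit 1024) (.ev (nat_lit 564) (nat_lit 1099511627776) (.ev (nat_lit 800)
 (nat_lit 149954490273824) .dd)))))) (.br (nat_lit 33) (.ch (nat_lit 31) (.ev (nat_lit 52) (nat_lit
 362563961356400) (.ev (nat_lit 532) (nat_lit 4194304) (.ev (nat_lit 1328) (nat_lit 140738025226240) (.nd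
 (nat_lit 2048) (.ch (nat_lit 7) (.ev (nat_lit 2240) (nat_lit 8589934592) (.ev (nat_lit 2400) (nat_lit
 137438990336) (.fin (nat_lit 576431615257297431)))))))))) (.ch (nat_lit 33) (.ev (nat_lit 52) (nat_lit
 10179609366640) (.ev (nat_lit 148) (nat_lit 4194304) (.ev (nat_lit 948) (nat_lit 140737488355328) (.ev
 (nat_lit 1792) (nat_lit 281474976710656) (.nd (nat_lit 2048) (.br (nat_lit 6) (.br (nat_lit 4) (.ch (nat_lit
 0) (.ev (nat_lit 2064) (nat_lit 687194931200) (.ev (nat_lit 2080) (nat_lit 2097152) (.ev (nat_lit 2432)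
 (nat_lit 70368744178688) .dd)))) (.ch (nat_lit 4) (.ev (nat_lit 2064) (nat_lit 70368746406912) (.ev (nat_lit
 2116) (nat_lit 137438953472) (.ev (nat_lit 2272) (nat_lit 549755846656) .dd))))) (.br (nat_lit 7) (.ch
 (nat_lit 6) (.ev (nat_lit 2064) (nat_lit 549757944832) (.ev (nat_lit 2356) (nat_lit 70368744177664) (.ev
 (nat_lit 2448) (nat_lit 137438953472) (.ev (nat_lit 2461) (nat_lit 131072) .dd))))) (.br (nat_lit 8) (.ch
 (nat_lit 7) (.ev (nat_lit 2064) (nat_lit 71055938977792) (.ev (nat_lit 2116) (nat_lit 2097152) (.nd (nat_lit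
 2640) (.br (nat_lit 10) (.ch (nat_lit 9) (.fin (nat_lit 576490988864225897))) (.ch (nat_lit 10) (.ev (nat_lit
 2656) (nat_lit 1024) (.ev (nat_lit 2669) (nat_lit 131072) .dd)))))))) (.ch (nat_lit 8) (.ev (nat_lit 2064)
 (nat_lit 71055941207040) .dd))))))))))))) (.br (nat_lit 36) (.ch (nat_lit 34) (.ev (nat_lit 52) (nat_lit
 423320568890384) (.ev (nat_lit 116) (nat_lit 4194304) (.ev (nat_lit 244) (nat_lit 137438953472) (.ev (nat_lit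
 372) (nat_lit 8796093022208) (.ev (nat_lit 564) (nat_lit 4096) (.ev (nat_lit 1344) (nat_lit 274877907008) (.nd
 (nat_lit 2048) (.br (nat_lit 6) (.br (nat_lit 5) (.ch (nat_lit 4) (.ev (nat_lit 2064) (nat_lit 70368744177696)
 (.ev (nat_lit 2356) (nat_lit 536870912) (.ev (nat_lit 2365) (nat_lit 549755813888) .dd)))) (.ch (nat_lit 5)
 (.ev (nat_lit 2064) (nat_lit 550292684800) (.ev (nat_lit 2356) (nat_lit 32) (.ev (nat_lit 2365) (nat_lit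
 70368744177664) .dd))))) (.br (nat_lit 7) (.ch (nat_lit 6) (.ev (nat_lit 2064) (nat_lit 550292684832) (.ev
 (nat_lit 2077) (nat_lit 70368744177664) .dd))) (.ch (nat_lit 7) (.ev (nat_lit 2064) (nat_lit 536870912) (.ev
 (nat_lit 2356) (nat_lit 70368744177664) (.ev (nat_lit 2368) (nat_lit 549755813920) .dd)))))))))))))) (.br
 (nat_lit 38) (.ch (nat_lit 36) (.ev (nat_lit 52) (nat_lit 211244212589632) (.ev (nat_lit 500) (nat_lit
 274877906944) (.ev (nat_lit 660) (nat_lit 131072) (.ev (nat_lit 852) (nat_lit 32) (.ev (nat_lit 992) (nat_lit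
 291928929206288) .dd)))))) (.ch (nat_lit 38) (.ev (nat_lit 52) (nat_lit 290555074445328) (.ev (nat_lit 84)
 (nat_lit 549755813888) (.ev (nat_lit 404) (nat_lit 4194304) (.ev (nat_lit 1044) (nat_lit 140737488359424) (.ev
 (nat_lit 1140) (nat_lit 131072) (.ev (nat_lit 1296) (nat_lit 1099511627840) (.ev (nat_lit 1488) (nat_lit
 33792) (.nd (nat_lit 2048) (.br (nat_lit 7) (.ch (nat_lit 6) (.ev (nat_lit 2064) (nat_lit 70368746274848) (.ev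
 (nat_lit 2077) (nat_lit 137438953472) .dd))) (.br (nat_lit 8) (.ch (nat_lit 7) (.ev (nat_lit 2256) (nat_lit
 137438953504) (.ev (nat_lit 2432) (nat_lit 70368746274816) .dd))) (.ch (nat_lit 8) (.ev (nat_lit 2064)
 (nat_lit 70506185228288) (.ev (nat_lit 2077) (nat_lit 32) .dd))))))))))))))))))) (.br (nat_lit 54) (.br
 (nat_lit 47) (.br (nat_lit 43) (.br (nat_lit 42) (.ch (nat_lit 39) (.ev (nat_lit 52) (nat_lit 9766759826544)
 (.ev (nat_lit 404) (nat_lit 536870912) (.ev (nat_lit 864) (nat_lit 493680723136512) .dd)))) (.ch (nat_lit 42)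
 (.ev (nat_lit 52) (nat_lit 360640354976880) (.ev (nat_lit 148) (nat_lit 131072) (.ev (nat_lit 180) (nat_lit
 137438953472) (.ev (nat_lit 212) (nat_lit 2097152) (.ev (nat_lit 308) (nat_lit 32768) (.ev (nat_lit 596)
 (nat_lit 549755813888) (.nd (nat_lit 2048) (.br (nat_lit 6) (.br (nat_lit 4) (.ch (nat_lit 0) (.ev (nat_lit
 2064) (nat_lit 141845589921792) (.ev (nat_lit 2077) (nat_lit 274877906944) .dd))) (.ch (nat_lit 4) (.ev
 (nat_lit 2064) (nat_lit 1382979469312) (.ev (nat_lit 2080) (nat_lit 4096) (.ev (nat_lit 2093) (nat_lit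
 140737488355328) .dd))))) (.br (nat_lit 7) (.ch (nat_lit 6) (.ev (nat_lit 2064) (nat_lit 141020956200960) (.ev
 (nat_lit 2077) (nat_lit 1099511627776) .dd))) (.br (nat_lit 8) (.ch (nat_lit 7) (.ev (nat_lit 2064) (nat_lit
 1099511631872) (.ev (nat_lit 2256) (nat_lit 274877906944) (.fin (nat_lit 576479993726976562))))) (.ch (nat_lit
 8) (.ev (nat_lit 2064) (nat_lit 141012366266368) (.fin (nat_lit 576493187814081075)))))))))))))))) (.br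
 (nat_lit 44) (.ch (nat_lit 43) (.ev (nat_lit 52) (nat_lit 140746080556032) (.ev (nat_lit 180) (nat_lit
 536870912) (.ev (nat_lit 436) (nat_lit 4194304) (.ev (nat_lit 532) (nat_lit 137438953472) (.ev (nat_lit 788)
 (nat_lit 8796093022208) (.ev (nat_lit 1044) (nat_lit 274877906944) (.ev (nat_lit 1312) (nat_lit
 282574488338432) (.nd (nat_lit 2048) (.br (nat_lit 7) (.ch (nat_lit 4) (.ev (nat_lit 2064) (nat_lit
 70918499991648) (.ev (nat_lit 2077) (nat_lit 16) .dd))) (.br (nat_lit 8) (.ch (nat_lit 7) (.ev (nat_lit 2064)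
 (nat_lit 70368744177696) (.ev (nat_lit 2432) (nat_lit 16) (.fin (nat_lit 576385435758445133))))) (.ch (nat_lit
 8) (.ev (nat_lit 2064) (nat_lit 549755813952) (.ev (nat_lit 2240) (nat_lit 70368744177664) (.ev (nat_lit 2356)
 (nat_lit 32) (.ev (nat_lit 2365) (nat_lit 16) .dd)))))))))))))))) (.br (nat_lit 46) (.ch (nat_lit 44) (.ev
 (nat_lit 52) (nat_lit 423586856828944) (.ev (nat_lit 180) (nat_lit 1024) (.ev (nat_lit 212) (nat_lit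
 549755813888) (.ev (nat_lit 596) (nat_lit 4194304) (.ev (nat_lit 788) (nat_lit 32768) (.ev (nat_lit 852)
 (nat_lit 70368744177664) (.ev (nat_lit 1456) (nat_lit 8796629893120) (.ev (nat_lit 1936) (nat_lit 4096) (.nd
 (nat_lit 2048) (.br (nat_lit 7) (.ch (nat_lit 6) (.ev (nat_lit 2064) (nat_lit 8589934656) (.ev (nat_lit 2356)
 (nat_lit 32) (.ev (nat_lit 2365) (nat_lit 137438953472) .dd)))) (.br (nat_lit 8) (.ch (nat_lit 7) (.ev
 (nat_lit 2064) (nat_lit 8589934624) (.ev (nat_lit 2116) (nat_lit 64) (.ev (nat_lit 2125) (nat_lit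
 137438953472) .dd)))) (.ch (nat_lit 8) (.ev (nat_lit 2064) (nat_lit 64) (.ev (nat_lit 2116) (nat_lit
 8589934624) (.ev (nat_lit 2125) (nat_lit 137438953472) .dd)))))))))))))))) (.ch (nat_lit 46) (.ev (nat_lit 52)
 (nat_lit 72018013852688) (.ev (nat_lit 84) (nat_lit 137438953472) (.ev (nat_lit 628) (nat_lit 8796093022208)
 (.ev (nat_lit 692) (nat_lit 32768) (.ev (nat_lit 820) (nat_lit 274877906944) (.ev (nat_lit 928) (nat_lit
 422221596065888) .dd)))))))))) (.br (nat_lit 50) (.br (nat_lit 48) (.ch (nat_lit 47) (.ev (nat_lit 52)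
 (nat_lit 353355555672064) (.ev (nat_lit 84) (nat_lit 536870912) (.ev (nat_lit 116) (nat_lit 1024) (.ev
 (nat_lit 180) (nat_lit 8796093022208) (.ev (nat_lit 340) (nat_lit 549755813888) (.ev (nat_lit 1392) (nat_lit
 140737488486400) (.nd (nat_lit 2048) (.br (nat_lit 5) (.br (nat_lit 4) (.ch (nat_lit 2) (.ev (nat_lit 2064)
 (nat_lit 8589934592) (.ev (nat_lit 2224) (nat_lit 32784) (.ev (nat_lit 2368) (nat_lit 32) (.ev (nat_lit 2381)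
 (nat_lit 64) .dd))))) (.ch (nat_lit 4) (.ev (nat_lit 2064) (nat_lit 32864) (.ev (nat_lit 2400) (nat_lit 16)
 (.ev (nat_lit 2413) (nat_lit 8589934592) .dd))))) (.br (nat_lit 7) (.ch (nat_lit 5) (.ev (nat_lit 2064)
 (nat_lit 32880) (.ev (nat_lit 2077) (nat_lit 8589934592) .dd))) (.ch (nat_lit 7) (.ev (nat_lit 2064) (nat_lit
 8589967408) (.ev (nat_lit 2077) (nat_lit 64) .dd))))))))))))) (.br (nat_lit 49) (.ch (nat_lit 48) (.ev
 (nat_lit 52) (nat_lit 281484107710496) (.ev (nat_lit 308) (nat_lit 131072) (.ev (nat_lit 340) (nat_lit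
 2097152) (.ev (nat_lit 500) (nat_lit 70368744177664) (.ev (nat_lit 628) (nat_lit 1024) (.ev (nat_lit 916)
 (nat_lit 16) (.ev (nat_lit 980) (nat_lit 4096) (.ev (nat_lit 1076) (nat_lit 1099511627776) (.ev (nat_lit 1840)
 (nat_lit 140737488355328) (.nd (nat_lit 2048) (.br (nat_lit 4) (.br (nat_lit 2) (.ch (nat_lit 0) (.ev (nat_lit
 2064) (nat_lit 9345848868928) (.nd (nat_lit 2640) (.br (nat_lit 5) (.ch (nat_lit 0) (.ev (nat_lit 2656)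
 (nat_lit 137438953472) (.ev (nat_lit 2669) (nat_lit 274877906944) .dd))) (.ch (nat_lit 5) (.fin (nat_lit
 576493187814081130))))))) (.ch (nat_lit 2) (.ev (nat_lit 2064) (nat_lit 9208409882624) (.ev (nat_lit 2116)
 (nat_lit 549755813888) (.ev (nat_lit 2144) (nat_lit 32768) (.ev (nat_lit 2157) (nat_lit 64) .dd)))))) (.br
 (nat_lit 5) (.ch (nat_lit 4) (.ev (nat_lit 2064) (nat_lit 412316893248) (.ev (nat_lit 2160) (nat_lit
 549755813888) (.ev (nat_lit 2173) (nat_lit 8796093022208) .dd)))) (.br (nat_lit 8) (.ch (nat_lit 5) (.ev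
 (nat_lit 2064) (nat_lit 687194767424) (.ev (nat_lit 2416) (nat_lit 8796093054976) (.ev (nat_lit 2429) (nat_lit
 274877906944) .dd)))) (.ch (nat_lit 8) (.ev (nat_lit 2064) (nat_lit 9620726775872) (.ev (nat_lit 2077)
 (nat_lit 137438953472) .dd))))))))))))))))) (.ch (nat_lit 49) (.ev (nat_lit 52) (nat_lit 213168353743904) (.ev
 (nat_lit 116) (nat_lit 8796093022208) (.ev (nat_lit 276) (nat_lit 8589934592) (.ev (nat_lit 468) (nat_lit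
 2097152) (.ev (nat_lit 564) (nat_lit 16) (.ev (nat_lit 884) (nat_lit 64) (.ev (nat_lit 980) (nat_lit
 281474976710656) (.ev (nat_lit 1184) (nat_lit 131072) (.ev (nat_lit 1197) (nat_lit 4194304) .dd))))))))))))
 (.br (nat_lit 51) (.ch (nat_lit 50) (.ev (nat_lit 52) (nat_lit 220452620505088) (.ev (nat_lit 660) (nat_lit
 8589934592) (.ev (nat_lit 692) (nat_lit 4194304) (.ev (nat_lit 724) (nat_lit 1024) (.ev (nat_lit 756) (nat_lit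
 32) (.ev (nat_lit 820) (nat_lit 16) (.ev (nat_lit 916) (nat_lit 281474976710656) (.nd (nat_lit 2048) (.br
 (nat_lit 6) (.br (nat_lit 2) (.ch (nat_lit 0) (.ev (nat_lit 2516) (nat_lit 64) (.ev (nat_lit 2624) (nat_lit
 1099511627776) (.nd (nat_lit 2640) (.br (nat_lit 5) (.br (nat_lit 2) (.ch (nat_lit 0) (.ev (nat_lit 2656)
 (nat_lit 412316860416) .dd)) (.ch (nat_lit 2) (.ev (nat_lit 2656) (nat_lit 412316860416) .dd))) (.br (nat_lit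
 7) (.ch (nat_lit 5) (.fin (nat_lit 576493187814081130))) (.ch (nat_lit 7) (.ev (nat_lit 2656) (nat_lit
 412316860416) .dd)))))))) (.ch (nat_lit 2) (.ev (nat_lit 2064) (nat_lit 412316860416) (.nd (nat_lit 2640) (.br
 (nat_lit 9) (.ch (nat_lit 7) (.fin (nat_lit 576539367344390773))) (.ch (nat_lit 9) (.ev (nat_lit 2656)
 (nat_lit 1099511627776) (.ev (nat_lit 2669) (nat_lit 64) .dd)))))))) (.br (nat_lit 8) (.ch (nat_lit 6) (.ev
 (nat_lit 2064) (nat_lit 1511828488256) .dd)) (.ch (nat_lit 8) (.ev (nat_lit 2064) (nat_lit 1374389534784) (.ev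
 (nat_lit 2077) (nat_lit 137438953472) .dd)))))))))))))) (.br (nat_lit 53) (.ch (nat_lit 51) (.ev (nat_lit 52)
 (nat_lit 431696296023056) (.ev (nat_lit 180) (nat_lit 32768) (.ev (nat_lit 372) (nat_lit 131072) (.ev (nat_lit
 852) (nat_lit 64) (.ev (nat_lit 1076) (nat_lit 274877906944) (.nd (nat_lit 2048) (.br (nat_lit 7) (.br
 (nat_lit 5) (.ch (nat_lit 2) (.ev (nat_lit 2064) (nat_lit 71476845740064) .dd)) (.ch (nat_lit 5) (.ev (nat_lit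
 2064) (nat_lit 1099511627808) (.ev (nat_lit 2192) (nat_lit 70368744177664) (.ev (nat_lit 2205) (nat_lit
 8589934592) .dd))))) (.br (nat_lit 8) (.ch (nat_lit 7) (.ev (nat_lit 2064) (nat_lit 71476845740032) (.ev
 (nat_lit 2077) (nat_lit 32) .dd))) (.ch (nat_lit 8) (.ev (nat_lit 2064) (nat_lit 70377334112256) (.ev (nat_lit
 2320) (nat_lit 1099511627776) (.ev (nat_lit 2333) (nat_lit 32) .dd))))))))))))) (.ch (nat_lit 53) (.ev
 (nat_lit 52) (nat_lit 79165374207072) (.ev (nat_lit 532) (nat_lit 549755813888) (.ev (nat_lit 756) (nat_lit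
 16) (.ev (nat_lit 980) (nat_lit 140737488355328) (.ev (nat_lit 1140) (nat_lit 2097152) (.ev (nat_lit 1504)
 (nat_lit 281483566645248) (.nd (nat_lit 2048) (.br (nat_lit 6) (.ch (nat_lit 0) (.ev (nat_lit 2064) (nat_lit
 274877939712) (.ev (nat_lit 2240) (nat_lit 1099511627776) (.ev (nat_lit 2356) (nat_lit 4194304) (.ev (nat_lit
 2365) (nat_lit 137438953472) .dd))))) (.br (nat_lit 7) (.ch (nat_lit 6) (.ev (nat_lit 2064) (nat_lit
 1374393761792) (.ev (nat_lit 2077) (nat_lit 137438953472) .dd))) (.ch (nat_lit 7) (.ev (nat_lit 2064) (nat_lit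
 1099515822080) (.ev (nat_lit 2432) (nat_lit 137438953472) (.fin (nat_lit 576374440621195798)))))))))))))))))))
 (.br (nat_lit 64) (.br (nat_lit 57) (.br (nat_lit 55) (.ch (nat_lit 54) (.ev (nat_lit 52) (nat_lit
 79439721562112) (.ev (nat_lit 340) (nat_lit 1024) (.ev (nat_lit 372) (nat_lit 549755813888) (.ev (nat_lit 404)
 (nat_lit 137438953472) (.ev (nat_lit 468) (nat_lit 536870912) (.ev (nat_lit 884) (nat_lit 281474976710656)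
 (.ev (nat_lit 1856) (nat_lit 140737488355328) (.nd (nat_lit 2048) (.br (nat_lit 6) (.br (nat_lit 5) (.ch
 (nat_lit 2) (.ev (nat_lit 2064) (nat_lit 1108101566496) (.ev (nat_lit 2160) (nat_lit 64) (.ev (nat_lit 2173)
 (nat_lit 16) .dd)))) (.ch (nat_lit 5) (.ev (nat_lit 2064) (nat_lit 1108101562384) (.ev (nat_lit 2116) (nat_lit
 64) (.ev (nat_lit 2144) (nat_lit 32) (.ev (nat_lit 2157) (nat_lit 4096) .dd)))))) (.br (nat_lit 7) (.ch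
 (nat_lit 6) (.ev (nat_lit 2064) (nat_lit 8589938752) (.ev (nat_lit 2416) (nat_lit 48) (.ev (nat_lit 2429)
 (nat_lit 1099511627776) .dd)))) (.br (nat_lit 8) (.ch (nat_lit 7) (.ev (nat_lit 2064) (nat_lit 1099511631984)
 (.ev (nat_lit 2077) (nat_lit 8589934592) .dd))) (.ch (nat_lit 8) (.ev (nat_lit 2064) (nat_lit 4208) (.nd
 (nat_lit 2640) (.br (nat_lit 3) (.ch (nat_lit 1) (.fin (nat_lit 576493187814081075))) (.ch (nat_lit 3) (.ev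
 (nat_lit 2656) (nat_lit 8589934592) (.ev (nat_lit 2669) (nat_lit 1099511627776) .dd))))))))))))))))))) (.ch
 (nat_lit 55) (.ev (nat_lit 52) (nat_lit 70506720007200) (.ev (nat_lit 404) (nat_lit 32768) (.ev (nat_lit 500)
 (nat_lit 1099511627776) (.ev (nat_lit 692) (nat_lit 549755813888) (.ev (nat_lit 916) (nat_lit 274877906944)
 (.ev (nat_lit 1140) (nat_lit 4194304) (.ev (nat_lit 1520) (nat_lit 290271069732864) (.nd (nat_lit 2048) (.ch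
 (nat_lit 7) (.ev (nat_lit 2288) (nat_lit 131088) (.ev (nat_lit 2448) (nat_lit 2097152) (.ev (nat_lit 2464)
 (nat_lit 64) (.fin (nat_lit 576442610394546766)))))))))))))))) (.br (nat_lit 58) (.ch (nat_lit 57) (.ev
 (nat_lit 52) (nat_lit 282299616723056) (.ev (nat_lit 116) (nat_lit 32768) (.ev (nat_lit 148) (nat_lit
 137438953472) (.ev (nat_lit 244) (nat_lit 131072) (.ev (nat_lit 308) (nat_lit 8796093022208) (.ev (nat_lit
 372) (nat_lit 8589934592) (.ev (nat_lit 660) (nat_lit 536870912) (.ev (nat_lit 1076) (nat_lit 4096) (.ev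
 (nat_lit 1920) (nat_lit 140737488355328) (.nd (nat_lit 2048) (.br (nat_lit 4) (.br (nat_lit 2) (.ch (nat_lit
 0) (.ev (nat_lit 2064) (nat_lit 71468255806464) .dd)) (.ch (nat_lit 2) (.ev (nat_lit 2064) (nat_lit
 70368744177664) (.ev (nat_lit 2116) (nat_lit 1024) (.ev (nat_lit 2125) (nat_lit 1099511627776) .dd))))) (.br
 (nat_lit 5) (.ch (nat_lit 4) (.ev (nat_lit 2064) (nat_lit 71468255806464) .dd)) (.br (nat_lit 8) (.ch (nat_lit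
 5) (.ev (nat_lit 2064) (nat_lit 1099511628800) (.ev (nat_lit 2077) (nat_lit 70368744177664) .dd))) (.ch
 (nat_lit 8) (.ev (nat_lit 2064) (nat_lit 1099511628800) (.ev (nat_lit 2077) (nat_lit 70368744177664)
 .dd))))))))))))))))) (.br (nat_lit 62) (.ch (nat_lit 58) (.ev (nat_lit 52) (nat_lit 80814641545296) (.ev
 (nat_lit 212) (nat_lit 1024) (.ev (nat_lit 468) (nat_lit 137439084544) (.ev (nat_lit 660) (nat_lit 4194304)
 (.ev (nat_lit 960) (nat_lit 422495935008800) .dd)))))) (.ch (nat_lit 62) (.ev (nat_lit 52) (nat_lit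
 146570122240) (.ev (nat_lit 564) (nat_lit 32) (.ev (nat_lit 628) (nat_lit 2097152) (.ev (nat_lit 692) (nat_lit
 8796093022208) (.ev (nat_lit 948) (nat_lit 1099511627792) (.ev (nat_lit 1012) (nat_lit 140737488355328) (.ev
 (nat_lit 1872) (nat_lit 274877906944) (.nd (nat_lit 2048) (.br (nat_lit 7) (.br (nat_lit 5) (.ch (nat_lit 4)
 (.ev (nat_lit 2064) (nat_lit 352393476702272) .dd)) (.ch (nat_lit 5) (.ev (nat_lit 2116) (nat_lit
 70368744177664) (.ev (nat_lit 2592) (nat_lit 64) (.nd (nat_lit 2640) (.br (nat_lit 6) (.br (nat_lit 4) (.ch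
 (nat_lit 0) (.ev (nat_lit 2656) (nat_lit 282024732524544) .dd)) (.ch (nat_lit 4) (.fin (nat_lit
 576431615257297486)))) (.br (nat_lit 9) (.ch (nat_lit 6) (.ev (nat_lit 2656) (nat_lit 282024732524544) .dd))
 (.ch (nat_lit 9) (.ev (nat_lit 2656) (nat_lit 282024732524544) .dd))))))))) (.br (nat_lit 8) (.ch (nat_lit 7)
 (.ev (nat_lit 2064) (nat_lit 351843720888320) (.nd (nat_lit 2640) (.br (nat_lit 2) (.ch (nat_lit 1) (.fin
 (nat_lit 576385435758445133))) (.ch (nat_lit 2) (.ev (nat_lit 2656) (nat_lit 549755813952) .dd)))))) (.ch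
 (nat_lit 8) (.ev (nat_lit 2064) (nat_lit 282024732524608) (.ev (nat_lit 2077) (nat_lit 70368744177664)
 .dd))))))))))))))))) (.br (nat_lit 68) (.br (nat_lit 65) (.ch (nat_lit 64) (.ev (nat_lit 52) (nat_lit
 212893475804256) (.ev (nat_lit 212) (nat_lit 131072) (.ev (nat_lit 340) (nat_lit 8796093022208) (.ev (nat_lit
 788) (nat_lit 4194304) (.ev (nat_lit 852) (nat_lit 16) (.ev (nat_lit 1088) (nat_lit 281758446682112)
 .dd))))))) (.br (nat_lit 67) (.ch (nat_lit 65) (.ev (nat_lit 52) (nat_lit 501927058210864) (.ev (nat_lit 212)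
 (nat_lit 4194304) (.ev (nat_lit 436) (nat_lit 536870912) (.ev (nat_lit 468) (nat_lit 1024) (.ev (nat_lit 660)
 (nat_lit 137438953472) (.ev (nat_lit 692) (nat_lit 8589934592) (.ev (nat_lit 788) (nat_lit 2097152) (.ev
 (nat_lit 884) (nat_lit 4096) (.nd (nat_lit 2048) (.br (nat_lit 6) (.br (nat_lit 2) (.ch (nat_lit 0) (.ev
 (nat_lit 2064) (nat_lit 1374389567488) (.ev (nat_lit 2077) (nat_lit 64) .dd))) (.ch (nat_lit 2) (.ev (nat_lit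
 2516) (nat_lit 274877906944) (.ev (nat_lit 2592) (nat_lit 32768) (.nd (nat_lit 2640) (.br (nat_lit 5) (.br
 (nat_lit 1) (.ch (nat_lit 0) (.ev (nat_lit 2656) (nat_lit 1099511627840) .dd)) (.ch (nat_lit 1) (.ev (nat_lit
 2656) (nat_lit 1099511627840) .dd))) (.br (nat_lit 7) (.ch (nat_lit 5) (.ev (nat_lit 2656) (nat_lit
 1099511627840) .dd)) (.ch (nat_lit 7) (.fin (nat_lit 576539367344390773)))))))))) (.br (nat_lit 7) (.ch
 (nat_lit 6) (.ev (nat_lit 2064) (nat_lit 1374389567552) .dd)) (.ch (nat_lit 7) (.ev (nat_lit 2064) (nat_lit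
 1099511627840) (.nd (nat_lit 2640) (.br (nat_lit 10) (.ch (nat_lit 5) (.fin (nat_lit 576548163500327530)))
 (.ch (nat_lit 10) (.ev (nat_lit 2656) (nat_lit 32768) (.ev (nat_lit 2669) (nat_lit 274877906944)
 .dd))))))))))))))))))) (.ch (nat_lit 67) (.ev (nat_lit 52) (nat_lit 362435110375488) (.ev (nat_lit 212)
 (nat_lit 32768) (.ev (nat_lit 372) (nat_lit 4194304) (.ev (nat_lit 896) (nat_lit 141012905231408) .dd)))))))
 (.br (nat_lit 69) (.ch (nat_lit 68) (.ev (nat_lit 52) (nat_lit 72155993768976) (.ev (nat_lit 148) (nat_lit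
 8796093022208) (.ev (nat_lit 212) (nat_lit 8589934592) (.ev (nat_lit 980) (nat_lit 274877906944) (.ev (nat_lit
 1012) (nat_lit 32) (.ev (nat_lit 1108) (nat_lit 140737488355328) (.ev (nat_lit 1952) (nat_lit 64) (.nd
 (nat_lit 2048) (.br (nat_lit 6) (.br (nat_lit 5) (.ch (nat_lit 2) (.ev (nat_lit 2064) (nat_lit
 281474976845824) .dd)) (.ch (nat_lit 5) (.ev (nat_lit 2064) (nat_lit 131072) (.ev (nat_lit 2116) (nat_lit
 4096) (.ev (nat_lit 2125) (nat_lit 281474976710656) .dd))))) (.br (nat_lit 7) (.ch (nat_lit 6) (.ev (nat_lit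
 2064) (nat_lit 281474976714752) (.ev (nat_lit 2077) (nat_lit 131072) .dd))) (.br (nat_lit 8) (.ch (nat_lit 7)
 (.ev (nat_lit 2064) (nat_lit 281474976714752) (.ev (nat_lit 2077) (nat_lit 131072) .dd))) (.ch (nat_lit 8)
 (.ev (nat_lit 2064) (nat_lit 281474976845824) .dd)))))))))))))) (.br (nat_lit 70) (.ch (nat_lit 69) (.ev
 (nat_lit 52) (nat_lit 212756043137136) (.ev (nat_lit 244) (nat_lit 8589934592) (.ev (nat_lit 276) (nat_lit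
 131072) (.ev (nat_lit 564) (nat_lit 274877906944) (.ev (nat_lit 628) (nat_lit 137438953472) (.ev (nat_lit 724)
 (nat_lit 32768) (.ev (nat_lit 820) (nat_lit 4096) (.ev (nat_lit 948) (nat_lit 281474976710656) (.ev (nat_lit
 1152) (nat_lit 8796093022208) (.ev (nat_lit 1165) (nat_lit 1024) .dd))))))))))) (.ch (nat_lit 70) (.ev
 (nat_lit 52) (nat_lit 211389706801216) (.ev (nat_lit 84) (nat_lit 8796093022208) (.ev (nat_lit 340) (nat_lit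
 536903680) (.ev (nat_lit 1888) (nat_lit 1024) (.nd (nat_lit 2048) (.br (nat_lit 6) (.ch (nat_lit 2) (.ev
 (nat_lit 2064) (nat_lit 137438953488) (.ev (nat_lit 2384) (nat_lit 282024732524544) (.ev (nat_lit 2416)
 (nat_lit 1099511627808) .dd)))) (.br (nat_lit 8) (.ch (nat_lit 6) (.ev (nat_lit 2064) (nat_lit 1786706395152)
 (.ev (nat_lit 2116) (nat_lit 32) (.ev (nat_lit 2125) (nat_lit 281474976710656) .dd)))) (.ch (nat_lit 8) (.ev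
 (nat_lit 2064) (nat_lit 283124244152320) (.ev (nat_lit 2160) (nat_lit 137438953472) (.ev (nat_lit 2432)
 (nat_lit 48) .dd))))))))))))))))))))

/-- The trie. -/
noncomputable def T : Tr := .nd (nat_lit 1000000) (.br (nat_lit 4) (.br (nat_lit 1) (.ch (nat_lit 0) (.ev
 (nat_lit 0) (nat_lit 9007199254740991) .dd)) (.ch (nat_lit 1) T1)) (.br (nat_lit 5) (.ch (nat_lit 4) T4) (.br
 (nat_lit 10) (.ch (nat_lit 5) (.ev (nat_lit 0) (nat_lit 9007199254740991) .dd)) (.ch (nat_lit 10) (.ev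
 (nat_lit 0) (nat_lit 9007199254740991) .dd)))))

/-- The possible values. -/
noncomputable def oks : List ℕ := [3535, 16415]

/-- The parameters. -/
noncomputable def S : Pr := ⟨fun i l e => lget mz (lget [] (lget [] tabs i) l) e, oks, [(nat_lit 0), (nat_lit
 1), (nat_lit 0), (nat_lit 0)], T, (nat_lit 9007199254740991), (nat_lit 2287041271849359), (nat_lit 53),
 [(nat_lit 1057), (nat_lit 87122173451996128837)], [(nat_lit 1331), (nat_lit 5041)]⟩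

/-- Nothing known. -/
noncomputable def cs0 : Cs := (.cons (nat_lit 11) (nat_lit 0) (nat_lit 1) (.cons (nat_lit 71) (nat_lit 0) (nat_lit 1) .nil))

theorem part_1 : part S cs0 (nat_lit 1) = true := by decide +kernel

theorem part_4 : part S cs0 (nat_lit 4) = true := by decide +kernel

/-- Data of a prime. -/
noncomputable def D0 : PD := ⟨(nat_lit 11), (nat_lit 3), (133, 3, 3), (288, 795, 527), (226, 1316, 1296)⟩

theorem D0_ok : D0.Ok := pdb_sound (s := 1) (C := ⟨⟨9, -6, -17, -1, -14, 8, -4, -1, -1⟩, (9, 10, 7)⟩) (by show Nat.Prime 11; norm_num) (by decide +kernel)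

/-- Lines of the first type. -/
noncomputable def Cl0 : List C1 := [⟨⟨-9, 6, -8, 1, 14, 7, 4, 1, -5⟩, (4, 2, 8)⟩,
  ⟨⟨0, 0, 0, 0, 0, 0, 0, 0, 0⟩, (0, 0, 0)⟩,
  ⟨⟨0, 0, 0, 0, 0, 0, 0, 0, 0⟩, (0, 0, 0)⟩,
  ⟨⟨0, 0, 0, 0, 0, 0, 0, 0, 0⟩, (0, 0, 0)⟩,
  ⟨⟨0, 0, 0, 0, 0, 0, 0, 0, 0⟩, (0, 0, 0)⟩,
  ⟨⟨9, 6, -17, -1, 14, 8, -4, 1, -1⟩, (8, 4, 5)⟩,
  ⟨⟨0, 0, 0, 0, 0, 0, 0, 0, 0⟩, (0, 0, 0)⟩,
  ⟨⟨0, 0, 0, 0, 0, 0, 0, 0, 0⟩, (0, 0, 0)⟩,
  ⟨⟨0, 0, 0, 0, 0, 0, 0, 0, 0⟩, (0, 0, 0)⟩,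
  ⟨⟨0, 0, 0, 0, 0, 0, 0, 0, 0⟩, (0, 0, 0)⟩,
  ⟨⟨-9, -6, -8, 1, -14, 7, 4, -1, -5⟩, (7, 9, 3)⟩]

/-- Data of a prime. -/
noncomputable def D1 : PD := ⟨(nat_lit 71), (nat_lit 2), (72, 9, 33), (3977, 4536, 3372), (4173, 4400, 3526)⟩

theorem D1_ok : D1.Ok := pdb_sound (s := 11) (C := ⟨⟨59, 34, -112, -29, 94, 37, -24, -3, -11⟩, (59, 42, 47)⟩) (by show Nat.Prime 71; norm_num) (by decide +kernel)

/-- Lines of the first type. -/
noncomputable def Cl1 : List C1 := [⟨⟨-59, -34, -53, 29, -94, 8, 24, 3, -35⟩, (17, 47, 34)⟩,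
  ⟨⟨0, 0, 0, 0, 0, 0, 0, 0, 0⟩, (0, 0, 0)⟩,
  ⟨⟨49, -74, -77, 79, 14, 28, 12, 21, -29⟩, (59, 56, 13)⟩,
  ⟨⟨0, 0, 0, 0, 0, 0, 0, 0, 0⟩, (0, 0, 0)⟩,
  ⟨⟨0, 0, 0, 0, 0, 0, 0, 0, 0⟩, (0, 0, 0)⟩,
  ⟨⟨0, 0, 0, 0, 0, 0, 0, 0, 0⟩, (0, 0, 0)⟩,
  ⟨⟨79, -14, -107, 49, 74, 28, -12, 21, -17⟩, (44, 21, 5)⟩,
  ⟨⟨0, 0, 0, 0, 0, 0, 0, 0, 0⟩, (0, 0, 0)⟩,
  ⟨⟨0, 0, 0, 0, 0, 0, 0, 0, 0⟩, (0, 0, 0)⟩,
  ⟨⟨39, 66, -92, -89, 46, 37, -8, -19, -23⟩, (13, 65, 21)⟩,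
  ⟨⟨19, 46, -107, -91, -26, 8, 12, -27, -19⟩, (7, 30, 53)⟩,
  ⟨⟨0, 0, 0, 0, 0, 0, 0, 0, 0⟩, (0, 0, 0)⟩,
  ⟨⟨0, 0, 0, 0, 0, 0, 0, 0, 0⟩, (0, 0, 0)⟩,
  ⟨⟨99, 6, -67, 11, -94, 32, -4, -11, -31⟩, (13, 33, 59)⟩,
  ⟨⟨-39, -66, -53, -89, 46, 52, 8, 19, -31⟩, (17, 57, 22)⟩,
  ⟨⟨0, 0, 0, 0, 0, 0, 0, 0, 0⟩, (0, 0, 0)⟩,
  ⟨⟨0, 0, 0, 0, 0, 0, 0, 0, 0⟩, (0, 0, 0)⟩,
  ⟨⟨19, -46, -107, -91, 26, 8, 12, 27, -19⟩, (15, 44, 2)⟩,
  ⟨⟨0, 0, 0, 0, 0, 0, 0, 0, 0⟩, (0, 0, 0)⟩,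
  ⟨⟨0, 0, 0, 0, 0, 0, 0, 0, 0⟩, (0, 0, 0)⟩,
  ⟨⟨51, 66, -88, -59, 74, 67, -20, -5, -17⟩, (59, 64, 59)⟩,
  ⟨⟨49, 74, -77, 79, -14, 28, 12, -21, -29⟩, (6, 43, 29)⟩,
  ⟨⟨0, 0, 0, 0, 0, 0, 0, 0, 0⟩, (0, 0, 0)⟩,
  ⟨⟨0, 0, 0, 0, 0, 0, 0, 0, 0⟩, (0, 0, 0)⟩,
  ⟨⟨0, 0, 0, 0, 0, 0, 0, 0, 0⟩, (0, 0, 0)⟩,
  ⟨⟨31, 74, -83, -81, 54, 68, -16, -13, -19⟩, (8, 2, 60)⟩,
  ⟨⟨0, 0, 0, 0, 0, 0, 0, 0, 0⟩, (0, 0, 0)⟩,
  ⟨⟨11, 94, -43, -99, 6, 32, 4, -11, -35⟩, (69, 18, 38)⟩,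
  ⟨⟨-51, 66, -37, 59, 74, 8, 20, -5, -37⟩, (25, 56, 25)⟩,
  ⟨⟨0, 0, 0, 0, 0, 0, 0, 0, 0⟩, (0, 0, 0)⟩,
  ⟨⟨39, -66, -92, -89, -46, 37, -8, 19, -23⟩, (43, 2, 64)⟩,
  ⟨⟨0, 0, 0, 0, 0, 0, 0, 0, 0⟩, (0, 0, 0)⟩,
  ⟨⟨59, -34, -112, -29, -94, 37, -24, 3, -11⟩, (9, 4, 18)⟩,
  ⟨⟨0, 0, 0, 0, 0, 0, 0, 0, 0⟩, (0, 0, 0)⟩,
  ⟨⟨0, 0, 0, 0, 0, 0, 0, 0, 0⟩, (0, 0, 0)⟩,
  ⟨⟨-59, 34, -53, 29, 94, 8, 24, -3, -35⟩, (8, 43, 16)⟩,
  ⟨⟨0, 0, 0, 0, 0, 0, 0, 0, 0⟩, (0, 0, 0)⟩,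
  ⟨⟨11, -94, -43, -99, -6, 32, 4, 11, -35⟩, (2, 53, 33)⟩,
  ⟨⟨0, 0, 0, 0, 0, 0, 0, 0, 0⟩, (0, 0, 0)⟩,
  ⟨⟨0, 0, 0, 0, 0, 0, 0, 0, 0⟩, (0, 0, 0)⟩,
  ⟨⟨51, -66, -88, -59, -74, 67, -20, 5, -17⟩, (18, 46, 18)⟩,
  ⟨⟨-19, -46, -88, -91, -26, 83, -12, 27, -7⟩, (26, 61, 65)⟩,
  ⟨⟨0, 0, 0, 0, 0, 0, 0, 0, 0⟩, (0, 0, 0)⟩,
  ⟨⟨0, 0, 0, 0, 0, 0, 0, 0, 0⟩, (0, 0, 0)⟩,
  ⟨⟨0, 0, 0, 0, 0, 0, 0, 0, 0⟩, (0, 0, 0)⟩,
  ⟨⟨-19, 46, -88, -91, 26, 83, -12, -27, -7⟩, (18, 4, 45)⟩,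
  ⟨⟨0, 0, 0, 0, 0, 0, 0, 0, 0⟩, (0, 0, 0)⟩,
  ⟨⟨0, 0, 0, 0, 0, 0, 0, 0, 0⟩, (0, 0, 0)⟩,
  ⟨⟨0, 0, 0, 0, 0, 0, 0, 0, 0⟩, (0, 0, 0)⟩,
  ⟨⟨0, 0, 0, 0, 0, 0, 0, 0, 0⟩, (0, 0, 0)⟩,
  ⟨⟨0, 0, 0, 0, 0, 0, 0, 0, 0⟩, (0, 0, 0)⟩,
  ⟨⟨0, 0, 0, 0, 0, 0, 0, 0, 0⟩, (0, 0, 0)⟩,
  ⟨⟨99, -6, -67, 11, 94, 32, -4, 11, -31⟩, (48, 29, 54)⟩,
  ⟨⟨0, 0, 0, 0, 0, 0, 0, 0, 0⟩, (0, 0, 0)⟩,
  ⟨⟨0, 0, 0, 0, 0, 0, 0, 0, 0⟩, (0, 0, 0)⟩,
  ⟨⟨0, 0, 0, 0, 0, 0, 0, 0, 0⟩, (0, 0, 0)⟩,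
  ⟨⟨-51, -66, -37, 59, -74, 8, 20, 5, -37⟩, (55, 38, 55)⟩,
  ⟨⟨0, 0, 0, 0, 0, 0, 0, 0, 0⟩, (0, 0, 0)⟩,
  ⟨⟨0, 0, 0, 0, 0, 0, 0, 0, 0⟩, (0, 0, 0)⟩,
  ⟨⟨-31, -74, -52, -81, 54, 13, 16, 13, -35⟩, (64, 55, 54)⟩,
  ⟨⟨-31, 74, -52, -81, -54, 13, 16, -13, -35⟩, (11, 15, 47)⟩,
  ⟨⟨-39, 66, -53, -89, -46, 52, 8, -19, -31⟩, (58, 65, 50)⟩,
  ⟨⟨0, 0, 0, 0, 0, 0, 0, 0, 0⟩, (0, 0, 0)⟩,
  ⟨⟨79, 14, -107, 49, -74, 28, -12, -21, -17⟩, (57, 3, 21)⟩,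
  ⟨⟨0, 0, 0, 0, 0, 0, 0, 0, 0⟩, (0, 0, 0)⟩,
  ⟨⟨0, 0, 0, 0, 0, 0, 0, 0, 0⟩, (0, 0, 0)⟩,
  ⟨⟨31, -74, -83, -81, -54, 68, -16, 13, -19⟩, (61, 33, 67)⟩,
  ⟨⟨0, 0, 0, 0, 0, 0, 0, 0, 0⟩, (0, 0, 0)⟩,
  ⟨⟨0, 0, 0, 0, 0, 0, 0, 0, 0⟩, (0, 0, 0)⟩,
  ⟨⟨0, 0, 0, 0, 0, 0, 0, 0, 0⟩, (0, 0, 0)⟩,
  ⟨⟨0, 0, 0, 0, 0, 0, 0, 0, 0⟩, (0, 0, 0)⟩]

/-- Data of a prime. -/
noncomputable def Dm : PD := ⟨(nat_lit 53), (nat_lit 2), (2545, 8, 14), (2610, 800, 1557), (1968, 957, 2439)⟩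

theorem Dm_ok : Dm.Ok := pdb_sound (s := 12) (C := ⟨⟨-13, 2, -76, -47, -58, 31, 18, -15, -13⟩, (40, 6, 18)⟩) (by show Nat.Prime 53; norm_num) (by decide +kernel)

/-- Lines of the first type. -/
noncomputable def Clm : List C1 := [⟨⟨13, -2, -89, -47, -58, 16, 18, -15, -5⟩, (17, 16, 48)⟩,
  ⟨⟨-23, 38, -56, 43, 58, 1, 18, -9, -23⟩, (9, 50, 16)⟩,
  ⟨⟨-23, -38, -56, 43, -58, 1, 18, 9, -23⟩, (18, 47, 32)⟩,
  ⟨⟨-13, -2, -76, -47, 58, 31, 18, 15, -13⟩, (20, 3, 9)⟩,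
  ⟨⟨0, 0, 0, 0, 0, 0, 0, 0, 0⟩, (0, 0, 0)⟩,
  ⟨⟨0, 0, 0, 0, 0, 0, 0, 0, 0⟩, (0, 0, 0)⟩,
  ⟨⟨0, 0, 0, 0, 0, 0, 0, 0, 0⟩, (0, 0, 0)⟩,
  ⟨⟨23, -38, -79, -43, -58, 44, -18, 9, -5⟩, (29, 8, 28)⟩,
  ⟨⟨33, -18, -89, 67, 2, 4, 2, 23, -7⟩, (12, 34, 20)⟩,
  ⟨⟨0, 0, 0, 0, 0, 0, 0, 0, 0⟩, (0, 0, 0)⟩,
  ⟨⟨0, 0, 0, 0, 0, 0, 0, 0, 0⟩, (0, 0, 0)⟩,
  ⟨⟨0, 0, 0, 0, 0, 0, 0, 0, 0⟩, (0, 0, 0)⟩,
  ⟨⟨0, 0, 0, 0, 0, 0, 0, 0, 0⟩, (0, 0, 0)⟩,
  ⟨⟨27, 42, -76, 7, 58, 49, 22, -7, -5⟩, (1, 14, 44)⟩,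
  ⟨⟨33, 18, -89, 67, -2, 4, 2, -23, -7⟩, (44, 1, 38)⟩,
  ⟨⟨0, 0, 0, 0, 0, 0, 0, 0, 0⟩, (0, 0, 0)⟩,
  ⟨⟨0, 0, 0, 0, 0, 0, 0, 0, 0⟩, (0, 0, 0)⟩,
  ⟨⟨0, 0, 0, 0, 0, 0, 0, 0, 0⟩, (0, 0, 0)⟩,
  ⟨⟨0, 0, 0, 0, 0, 0, 0, 0, 0⟩, (0, 0, 0)⟩,
  ⟨⟨57, 42, -56, -37, 62, 41, -10, 1, -19⟩, (20, 27, 3)⟩,
  ⟨⟨13, 2, -89, -47, 58, 16, 18, 15, -5⟩, (50, 19, 4)⟩,
  ⟨⟨0, 0, 0, 0, 0, 0, 0, 0, 0⟩, (0, 0, 0)⟩,
  ⟨⟨0, 0, 0, 0, 0, 0, 0, 0, 0⟩, (0, 0, 0)⟩,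
  ⟨⟨57, -42, -56, -37, -62, 41, -10, -1, -19⟩, (16, 11, 13)⟩,
  ⟨⟨0, 0, 0, 0, 0, 0, 0, 0, 0⟩, (0, 0, 0)⟩,
  ⟨⟨7, 58, -56, 27, 42, 49, 22, -7, -17⟩, (20, 9, 25)⟩,
  ⟨⟨0, 0, 0, 0, 0, 0, 0, 0, 0⟩, (0, 0, 0)⟩,
  ⟨⟨67, -2, -71, 33, 18, 56, -2, 23, -5⟩, (28, 13, 49)⟩,
  ⟨⟨0, 0, 0, 0, 0, 0, 0, 0, 0⟩, (0, 0, 0)⟩,
  ⟨⟨0, 0, 0, 0, 0, 0, 0, 0, 0⟩, (0, 0, 0)⟩,
  ⟨⟨23, 38, -79, -43, 58, 44, -18, -9, -5⟩, (20, 11, 12)⟩,
  ⟨⟨0, 0, 0, 0, 0, 0, 0, 0, 0⟩, (0, 0, 0)⟩,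
  ⟨⟨7, -58, -56, 27, -42, 49, 22, 7, -17⟩, (17, 5, 8)⟩,
  ⟨⟨0, 0, 0, 0, 0, 0, 0, 0, 0⟩, (0, 0, 0)⟩,
  ⟨⟨67, 2, -71, 33, -18, 56, -2, -23, -5⟩, (8, 34, 14)⟩,
  ⟨⟨27, -42, -76, 7, -58, 49, 22, 7, -5⟩, (50, 11, 27)⟩,
  ⟨⟨0, 0, 0, 0, 0, 0, 0, 0, 0⟩, (0, 0, 0)⟩,
  ⟨⟨0, 0, 0, 0, 0, 0, 0, 0, 0⟩, (0, 0, 0)⟩,
  ⟨⟨0, 0, 0, 0, 0, 0, 0, 0, 0⟩, (0, 0, 0)⟩,
  ⟨⟨0, 0, 0, 0, 0, 0, 0, 0, 0⟩, (0, 0, 0)⟩,
  ⟨⟨0, 0, 0, 0, 0, 0, 0, 0, 0⟩, (0, 0, 0)⟩,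
  ⟨⟨0, 0, 0, 0, 0, 0, 0, 0, 0⟩, (0, 0, 0)⟩,
  ⟨⟨0, 0, 0, 0, 0, 0, 0, 0, 0⟩, (0, 0, 0)⟩,
  ⟨⟨0, 0, 0, 0, 0, 0, 0, 0, 0⟩, (0, 0, 0)⟩,
  ⟨⟨0, 0, 0, 0, 0, 0, 0, 0, 0⟩, (0, 0, 0)⟩,
  ⟨⟨-37, 62, -4, -57, -42, 1, 10, -1, -29⟩, (22, 21, 27)⟩,
  ⟨⟨0, 0, 0, 0, 0, 0, 0, 0, 0⟩, (0, 0, 0)⟩,
  ⟨⟨0, 0, 0, 0, 0, 0, 0, 0, 0⟩, (0, 0, 0)⟩,
  ⟨⟨0, 0, 0, 0, 0, 0, 0, 0, 0⟩, (0, 0, 0)⟩,
  ⟨⟨0, 0, 0, 0, 0, 0, 0, 0, 0⟩, (0, 0, 0)⟩,
  ⟨⟨0, 0, 0, 0, 0, 0, 0, 0, 0⟩, (0, 0, 0)⟩,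
  ⟨⟨-37, -62, -4, -57, 42, 1, 10, 1, -29⟩, (6, 25, 17)⟩,
  ⟨⟨0, 0, 0, 0, 0, 0, 0, 0, 0⟩, (0, 0, 0)⟩]

/-- Unit moves. -/
noncomputable def U : List Mv := [mz,
  mz,
  ⟨⟨-1, 0, 1, 0, 1, 0, 0, 0, 1⟩, .nil, (nat_lit 10), (nat_lit 5), (nat_lit 1), (nat_lit 1), (0, 0, 0), [], 6⟩,
  ⟨⟨1, 0, 0, 0, -1, 0, 0, 0, 1⟩, .nil, (nat_lit 10), (nat_lit 10), (nat_lit 2), (nat_lit 1), (0, 0, 0), [], 10⟩,
  mz,
  mz,
  ⟨⟨-1, 0, 1, 0, -1, 0, 0, 0, 1⟩, .nil, (nat_lit 0), (nat_lit 6), (nat_lit 1), (nat_lit 0), (0, 0, 0), [], 5⟩,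
  ⟨⟨-1, 0, 1, 0, -1, 0, 0, 0, 1⟩, .nil, (nat_lit 0), (nat_lit 6), (nat_lit 1), (nat_lit 0), (0, 0, 0), [], 5⟩,
  ⟨⟨1, 0, 0, 0, -1, 0, 0, 0, 1⟩, .nil, (nat_lit 10), (nat_lit 10), (nat_lit 2), (nat_lit 1), (0, 0, 0), [], 10⟩,
  ⟨⟨-1, 0, 1, 0, 1, 0, 0, 0, 1⟩, .nil, (nat_lit 10), (nat_lit 5), (nat_lit 1), (nat_lit 1), (0, 0, 0), [], 6⟩,
  mz]

theorem v_ty : tyb Dm S.ty1 Clm = true := by decide +kernel

theorem v_ty0 : tyb D0 (S.tys.getD 0 0) Cl0 = true := by decide +kernel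

theorem v_ty1 : tyb D1 (S.tys.getD 1 0) Cl1 = true := by decide +kernel

theorem v_msc : mscb S D0 [D1] Dm (nat_lit 18) = true := by decide +kernel

theorem v_mv0 : mvsn (nat_lit 18847184939) S D0 [D1] Dm (nat_lit 18) 0 D0 = true := by decide +kernel

theorem v_mv1 : mvsn (nat_lit 18847184939) S D0 [D1] Dm (nat_lit 18) 1 D1 = true := by decide +kernel

theorem v_mm : mmsn (nat_lit 18847184939) S D0 [D1] Dm (nat_lit 18) = true := by decide +kernel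

theorem v_un : unb S D0 (nat_lit 18) U = true := by decide +kernel

theorem v_ok : okb S.oks [(9, 58, 3), (23, 126, 1)] = true := by decide +kernel

theorem v_part : ∀ d < D0.p, (nat_lit 18).testBit d = true → part S (zc (D0 :: [D1])) d = true := by
  intro d hd h
  have h1 : ∀ d < 11, (nat_lit 18).testBit d = true → d = 1 ∨ d = 4 := by decide
  rcases h1 d hd h with rfl | rfl
  · exact part_1
  · exact part_4

theorem main (n : ℕ) (ho : Odd n) (hr : ¬ Rep n) (h0 : Split 11 n) (h1 : Split 71 n) (hm : Split 53 n) :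
    n ∈ EE := by
  refine concln (W := nat_lit 18847184939) (S := S) (P0 := D0) (Pl := [D1]) (Pm := Dm) (cn := nat_lit 18) ?_ Dm_ok v_ty ?_ ?_ v_msc ?_ v_mm v_un v_part v_ok
    n ho hr ?_ hm
  · simp only [List.forall_mem_cons]
    exact ⟨D0_ok, D1_ok, fun _ h => absurd h (by simp)⟩
  · exact all2 (φ := fun j P => ∃ L, tyb P (S.tys.getD j 0) L = true) ⟨_, v_ty0⟩ ⟨_, v_ty1⟩
  · exact all2 (φ := fun j P => Nat.ble (S.pks.getD j 0) (Nat.pow P.p P.K) = true) (by decide +kernel) (by decide +kernel)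
  · exact all2 (φ := fun i P => mvsn (nat_lit 18847184939) S D0 [D1] Dm (nat_lit 18) i P = true) v_mv0 v_mv1
  · simp only [List.forall_mem_cons]
    exact ⟨h0, h1, fun _ h => absurd h (by simp)⟩

end Pool.Agent.Work.MP_9954fe_nt.P11_71_53

namespace Pool.Agent.Work.MP_9954fe_nt.P13_47_31

/-- Dummy move. -/
noncomputable def mz : Mv := ⟨⟨0, 0, 0, 0, 0, 0, 0, 0, 0⟩, .nil, (nat_lit 0), (nat_lit 0), (nat_lit 0), (nat_lit 0), (0, 0, 0), [], 0⟩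

/-- Moves. -/
noncomputable def t0_2 : List Mv := [
  ⟨⟨-1, -12, 9, 8, 5, 6, 8, -8, -7⟩, (.cons (nat_lit 1124) (nat_lit 173) (nat_lit 1983) (nat_lit 1) (.cons
 (nat_lit 1381) (nat_lit 2098) (nat_lit 1087) (nat_lit 1) .nil)), (nat_lit 20), (nat_lit 23), (nat_lit 28),
 (nat_lit 1), (8, 1, 1), [1400, 1777], 21⟩,
  ⟨⟨9, 4, -16, -8, -5, -6, 8, -8, -7⟩, (.cons (nat_lit 2069) (nat_lit 1980) (nat_lit 385) (nat_lit 1) (.cons
 (nat_lit 1317) (nat_lit 901) (nat_lit 2172) (nat_lit 1) .nil)), (nat_lit 25), (nat_lit 2), (nat_lit 13),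
 (nat_lit 1), (6, 12, 1), [69, 134], 13⟩,
  ⟨⟨9, 4, -16, -8, -5, -6, 8, -8, -7⟩, (.cons (nat_lit 2069) (nat_lit 1980) (nat_lit 385) (nat_lit 1) (.cons
 (nat_lit 1317) (nat_lit 901) (nat_lit 2172) (nat_lit 1) .nil)), (nat_lit 25), (nat_lit 2), (nat_lit 13),
 (nat_lit 1), (6, 12, 1), [69, 134], 13⟩,
  ⟨⟨-1, -12, 9, -8, -5, -6, 8, -8, -7⟩, (.cons (nat_lit 1594) (nat_lit 334) (nat_lit 1902) (nat_lit 1) (.cons
 (nat_lit 2208) (nat_lit 509) (nat_lit 574) (nat_lit 1) .nil)), (nat_lit 30), (nat_lit 15), (nat_lit 23),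
 (nat_lit 1), (8, 12, 1), [1259, 1309], 28⟩,
  ⟨⟨-1, -12, 9, 8, 5, 6, 8, -8, -7⟩, (.cons (nat_lit 1124) (nat_lit 173) (nat_lit 1983) (nat_lit 1) (.cons
 (nat_lit 1381) (nat_lit 2098) (nat_lit 1087) (nat_lit 1) .nil)), (nat_lit 20), (nat_lit 23), (nat_lit 28),
 (nat_lit 1), (8, 1, 1), [1400, 1777], 21⟩,
  ⟨⟨9, 4, -16, 8, 5, 6, 8, -8, -7⟩, (.cons (nat_lit 309) (nat_lit 1036) (nat_lit 1493) (nat_lit 1) (.cons
 (nat_lit 1063) (nat_lit 1850) (nat_lit 1557) (nat_lit 1) .nil)), (nat_lit 23), (nat_lit 1), (nat_lit 2),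
 (nat_lit 1), (6, 1, 1), [249, 1683], 25⟩,
  ⟨⟨9, 4, -16, 8, 5, 6, 8, -8, -7⟩, (.cons (nat_lit 309) (nat_lit 1036) (nat_lit 1493) (nat_lit 1) (.cons
 (nat_lit 1063) (nat_lit 1850) (nat_lit 1557) (nat_lit 1) .nil)), (nat_lit 23), (nat_lit 1), (nat_lit 2),
 (nat_lit 1), (6, 1, 1), [249, 1683], 25⟩,
  ⟨⟨-1, -12, 9, -8, -5, -6, 8, -8, -7⟩, (.cons (nat_lit 1594) (nat_lit 334) (nat_lit 1902) (nat_lit 1) (.cons
 (nat_lit 2208) (nat_lit 509) (nat_lit 574) (nat_lit 1) .nil)), (nat_lit 30), (nat_lit 15), (nat_lit 23),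
 (nat_lit 1), (8, 12, 1), [1259, 1309], 28⟩,
  ⟨⟨-1, -12, 9, -8, -5, -6, 8, -8, -7⟩, (.cons (nat_lit 1594) (nat_lit 334) (nat_lit 1902) (nat_lit 1) (.cons
 (nat_lit 2208) (nat_lit 509) (nat_lit 574) (nat_lit 1) .nil)), (nat_lit 30), (nat_lit 15), (nat_lit 23),
 (nat_lit 1), (8, 12, 1), [1259, 1309], 28⟩,
  ⟨⟨-1, -12, 9, -8, -5, -6, 8, -8, -7⟩, (.cons (nat_lit 1594) (nat_lit 334) (nat_lit 1902) (nat_lit 1) (.cons
 (nat_lit 2208) (nat_lit 509) (nat_lit 574) (nat_lit 1) .nil)), (nat_lit 30), (nat_lit 15), (nat_lit 23),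
 (nat_lit 1), (8, 12, 1), [1259, 1309], 28⟩,
  ⟨⟨-1, -12, 9, 8, 5, 6, 8, -8, -7⟩, (.cons (nat_lit 1124) (nat_lit 173) (nat_lit 1983) (nat_lit 1) (.cons
 (nat_lit 1381) (nat_lit 2098) (nat_lit 1087) (nat_lit 1) .nil)), (nat_lit 20), (nat_lit 23), (nat_lit 28),
 (nat_lit 1), (8, 1, 1), [1400, 1777], 21⟩,
  ⟨⟨-1, -12, 9, -8, -5, -6, 8, -8, -7⟩, (.cons (nat_lit 1594) (nat_lit 334) (nat_lit 1902) (nat_lit 1) (.cons
 (nat_lit 2208) (nat_lit 509) (nat_lit 574) (nat_lit 1) .nil)), (nat_lit 30), (nat_lit 15), (nat_lit 23),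
 (nat_lit 1), (8, 12, 1), [1259, 1309], 28⟩,
  ⟨⟨-1, -12, 9, -8, -5, -6, 8, -8, -7⟩, (.cons (nat_lit 1594) (nat_lit 334) (nat_lit 1902) (nat_lit 1) (.cons
 (nat_lit 2208) (nat_lit 509) (nat_lit 574) (nat_lit 1) .nil)), (nat_lit 30), (nat_lit 15), (nat_lit 23),
 (nat_lit 1), (8, 12, 1), [1259, 1309], 28⟩]

/-- Moves. -/
noncomputable def t0_4 : List Mv := [
  ⟨⟨5, 12, -9, -12, 5, 6, 0, 0, -13⟩, (.cons (nat_lit 344) (nat_lit 106) (nat_lit 1760) (nat_lit 1) (.cons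
 (nat_lit 1035) (nat_lit 2135) (nat_lit 427) (nat_lit 1) .nil)), (nat_lit 1), (nat_lit 6), (nat_lit 19),
 (nat_lit 1), (12, 5, 0), [1668, 2108], 12⟩,
  ⟨⟨-5, -12, -4, -12, 5, 6, 0, 0, -13⟩, (.cons (nat_lit 907) (nat_lit 1531) (nat_lit 230) (nat_lit 1) (.cons
 (nat_lit 2208) (nat_lit 591) (nat_lit 1038) (nat_lit 1) .nil)), (nat_lit 30), (nat_lit 28), (nat_lit 25),
 (nat_lit 1), (1, 5, 0), [297, 1732], 1⟩,
  ⟨⟨-5, -12, -4, -12, 5, 6, 0, 0, -13⟩, (.cons (nat_lit 907) (nat_lit 1531) (nat_lit 230) (nat_lit 1) (.cons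
 (nat_lit 2208) (nat_lit 591) (nat_lit 1038) (nat_lit 1) .nil)), (nat_lit 30), (nat_lit 28), (nat_lit 25),
 (nat_lit 1), (1, 5, 0), [297, 1732], 1⟩,
  ⟨⟨-5, -12, -4, 12, -5, -6, 0, 0, -13⟩, (.cons (nat_lit 391) (nat_lit 1594) (nat_lit 1459) (nat_lit 1) (.cons
 (nat_lit 1505) (nat_lit 153) (nat_lit 1356) (nat_lit 1) .nil)), (nat_lit 1), (nat_lit 18), (nat_lit 26),
 (nat_lit 1), (1, 8, 0), [829, 211], 26⟩,
  ⟨⟨5, 12, -9, 12, -5, -6, 0, 0, -13⟩, (.cons (nat_lit 472) (nat_lit 935) (nat_lit 1769) (nat_lit 1) (.cons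
 (nat_lit 2208) (nat_lit 834) (nat_lit 1873) (nat_lit 1) .nil)), (nat_lit 30), (nat_lit 26), (nat_lit 21),
 (nat_lit 1), (12, 8, 0), [798, 258], 19⟩,
  ⟨⟨5, 12, -9, 12, -5, -6, 0, 0, -13⟩, (.cons (nat_lit 472) (nat_lit 935) (nat_lit 1769) (nat_lit 1) (.cons
 (nat_lit 2208) (nat_lit 834) (nat_lit 1873) (nat_lit 1) .nil)), (nat_lit 30), (nat_lit 26), (nat_lit 21),
 (nat_lit 1), (12, 8, 0), [798, 258], 19⟩,
  ⟨⟨5, 12, -9, -12, 5, 6, 0, 0, -13⟩, (.cons (nat_lit 344) (nat_lit 106) (nat_lit 1760) (nat_lit 1) (.cons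
 (nat_lit 1035) (nat_lit 2135) (nat_lit 427) (nat_lit 1) .nil)), (nat_lit 1), (nat_lit 6), (nat_lit 19),
 (nat_lit 1), (12, 5, 0), [1668, 2108], 12⟩,
  ⟨⟨5, 12, -9, 12, -5, -6, 0, 0, -13⟩, (.cons (nat_lit 472) (nat_lit 935) (nat_lit 1769) (nat_lit 1) (.cons
 (nat_lit 2208) (nat_lit 834) (nat_lit 1873) (nat_lit 1) .nil)), (nat_lit 30), (nat_lit 26), (nat_lit 21),
 (nat_lit 1), (12, 8, 0), [798, 258], 19⟩,
  ⟨⟨5, 12, -9, 12, -5, -6, 0, 0, -13⟩, (.cons (nat_lit 472) (nat_lit 935) (nat_lit 1769) (nat_lit 1) (.cons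
 (nat_lit 2208) (nat_lit 834) (nat_lit 1873) (nat_lit 1) .nil)), (nat_lit 30), (nat_lit 26), (nat_lit 21),
 (nat_lit 1), (12, 8, 0), [798, 258], 19⟩,
  ⟨⟨-5, -12, -4, 12, -5, -6, 0, 0, -13⟩, (.cons (nat_lit 391) (nat_lit 1594) (nat_lit 1459) (nat_lit 1) (.cons
 (nat_lit 1505) (nat_lit 153) (nat_lit 1356) (nat_lit 1) .nil)), (nat_lit 1), (nat_lit 18), (nat_lit 26),
 (nat_lit 1), (1, 8, 0), [829, 211], 26⟩,
  ⟨⟨5, 12, -9, 12, -5, -6, 0, 0, -13⟩, (.cons (nat_lit 472) (nat_lit 935) (nat_lit 1769) (nat_lit 1) (.cons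
 (nat_lit 2208) (nat_lit 834) (nat_lit 1873) (nat_lit 1) .nil)), (nat_lit 30), (nat_lit 26), (nat_lit 21),
 (nat_lit 1), (12, 8, 0), [798, 258], 19⟩,
  ⟨⟨5, 12, -9, -12, 5, 6, 0, 0, -13⟩, (.cons (nat_lit 344) (nat_lit 106) (nat_lit 1760) (nat_lit 1) (.cons
 (nat_lit 1035) (nat_lit 2135) (nat_lit 427) (nat_lit 1) .nil)), (nat_lit 1), (nat_lit 6), (nat_lit 19),
 (nat_lit 1), (12, 5, 0), [1668, 2108], 12⟩,
  ⟨⟨5, 12, -9, 12, -5, -6, 0, 0, -13⟩, (.cons (nat_lit 472) (nat_lit 935) (nat_lit 1769) (nat_lit 1) (.cons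
 (nat_lit 2208) (nat_lit 834) (nat_lit 1873) (nat_lit 1) .nil)), (nat_lit 30), (nat_lit 26), (nat_lit 21),
 (nat_lit 1), (12, 8, 0), [798, 258], 19⟩]

/-- Moves. -/
noncomputable def t0_5 : List Mv := [
  ⟨⟨9, 8, -13, 10, -7, 0, 2, -4, -13⟩, (.cons (nat_lit 174) (nat_lit 316) (nat_lit 1278) (nat_lit 1) (.cons
 (nat_lit 1605) (nat_lit 1343) (nat_lit 239) (nat_lit 1) .nil)), (nat_lit 5), (nat_lit 5), (nat_lit 10),
 (nat_lit 1), (2, 8, 12), [574, 1084], 4⟩,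
  ⟨⟨9, 8, -13, -10, 7, 0, 2, -4, -13⟩, (.cons (nat_lit 1016) (nat_lit 1868) (nat_lit 945) (nat_lit 1) (.cons
 (nat_lit 894) (nat_lit 1046) (nat_lit 472) (nat_lit 1) .nil)), (nat_lit 12), (nat_lit 11), (nat_lit 0),
 (nat_lit 1), (2, 5, 12), [53, 534], 30⟩,
  ⟨⟨9, 8, -13, -10, 7, 0, 2, -4, -13⟩, (.cons (nat_lit 1016) (nat_lit 1868) (nat_lit 945) (nat_lit 1) (.cons
 (nat_lit 894) (nat_lit 1046) (nat_lit 472) (nat_lit 1) .nil)), (nat_lit 12), (nat_lit 11), (nat_lit 0),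
 (nat_lit 1), (2, 5, 12), [53, 534], 30⟩,
  ⟨⟨9, 8, -13, -10, 7, 0, 2, -4, -13⟩, (.cons (nat_lit 1016) (nat_lit 1868) (nat_lit 945) (nat_lit 1) (.cons
 (nat_lit 894) (nat_lit 1046) (nat_lit 472) (nat_lit 1) .nil)), (nat_lit 12), (nat_lit 11), (nat_lit 0),
 (nat_lit 1), (2, 5, 12), [53, 534], 30⟩,
  ⟨⟨-7, -12, 0, 10, -7, 0, 2, -4, -13⟩, (.cons (nat_lit 666) (nat_lit 1192) (nat_lit 2190) (nat_lit 1) (.cons
 (nat_lit 275) (nat_lit 1383) (nat_lit 1132) (nat_lit 1) .nil)), (nat_lit 0), (nat_lit 7), (nat_lit 18),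
 (nat_lit 1), (10, 8, 12), [1975, 1554], 26⟩,
  ⟨⟨9, 8, -13, 10, -7, 0, 2, -4, -13⟩, (.cons (nat_lit 174) (nat_lit 316) (nat_lit 1278) (nat_lit 1) (.cons
 (nat_lit 1605) (nat_lit 1343) (nat_lit 239) (nat_lit 1) .nil)), (nat_lit 5), (nat_lit 5), (nat_lit 10),
 (nat_lit 1), (2, 8, 12), [574, 1084], 4⟩,
  ⟨⟨9, 8, -13, 10, -7, 0, 2, -4, -13⟩, (.cons (nat_lit 174) (nat_lit 316) (nat_lit 1278) (nat_lit 1) (.cons
 (nat_lit 1605) (nat_lit 1343) (nat_lit 239) (nat_lit 1) .nil)), (nat_lit 5), (nat_lit 5), (nat_lit 10),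
 (nat_lit 1), (2, 8, 12), [574, 1084], 4⟩,
  ⟨⟨9, 8, -13, -10, 7, 0, 2, -4, -13⟩, (.cons (nat_lit 1016) (nat_lit 1868) (nat_lit 945) (nat_lit 1) (.cons
 (nat_lit 894) (nat_lit 1046) (nat_lit 472) (nat_lit 1) .nil)), (nat_lit 12), (nat_lit 11), (nat_lit 0),
 (nat_lit 1), (2, 5, 12), [53, 534], 30⟩,
  ⟨⟨-7, -12, 0, 10, -7, 0, 2, -4, -13⟩, (.cons (nat_lit 666) (nat_lit 1192) (nat_lit 2190) (nat_lit 1) (.cons
 (nat_lit 275) (nat_lit 1383) (nat_lit 1132) (nat_lit 1) .nil)), (nat_lit 0), (nat_lit 7), (nat_lit 18),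
 (nat_lit 1), (10, 8, 12), [1975, 1554], 26⟩,
  ⟨⟨-7, -12, 0, -10, 7, 0, 2, -4, -13⟩, (.cons (nat_lit 1329) (nat_lit 1668) (nat_lit 2026) (nat_lit 1) (.cons
 (nat_lit 2208) (nat_lit 2150) (nat_lit 566) (nat_lit 1) .nil)), (nat_lit 30), (nat_lit 3), (nat_lit 1),
 (nat_lit 1), (10, 5, 12), [947, 1145], 10⟩,
  ⟨⟨9, 8, -13, -10, 7, 0, 2, -4, -13⟩, (.cons (nat_lit 1016) (nat_lit 1868) (nat_lit 945) (nat_lit 1) (.cons
 (nat_lit 894) (nat_lit 1046) (nat_lit 472) (nat_lit 1) .nil)), (nat_lit 12), (nat_lit 11), (nat_lit 0),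
 (nat_lit 1), (2, 5, 12), [53, 534], 30⟩,
  ⟨⟨9, 8, -13, -10, 7, 0, 2, -4, -13⟩, (.cons (nat_lit 1016) (nat_lit 1868) (nat_lit 945) (nat_lit 1) (.cons
 (nat_lit 894) (nat_lit 1046) (nat_lit 472) (nat_lit 1) .nil)), (nat_lit 12), (nat_lit 11), (nat_lit 0),
 (nat_lit 1), (2, 5, 12), [53, 534], 30⟩,
  ⟨⟨9, 8, -13, -10, 7, 0, 2, -4, -13⟩, (.cons (nat_lit 1016) (nat_lit 1868) (nat_lit 945) (nat_lit 1) (.cons
 (nat_lit 894) (nat_lit 1046) (nat_lit 472) (nat_lit 1) .nil)), (nat_lit 12), (nat_lit 11), (nat_lit 0),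
 (nat_lit 1), (2, 5, 12), [53, 534], 30⟩]

/-- Moves. -/
noncomputable def t1_2 : List Mv := [
  mz,
  ⟨⟨-25, 12, -36, 22, -35, -36, 20, 28, -37⟩, (.cons (nat_lit 1930) (nat_lit 361) (nat_lit 848) (nat_lit 1)
 (.cons (nat_lit 206) (nat_lit 375) (nat_lit 1748) (nat_lit 1) .nil)), (nat_lit 10), (nat_lit 0), (nat_lit 25),
 (nat_lit 1), (2, 2, 36), [1427, 1430], 26⟩,
  ⟨⟨21, -32, -49, 2, 35, -36, -28, -20, -13⟩, (.cons (nat_lit 1531) (nat_lit 513) (nat_lit 828) (nat_lit 1)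
 (.cons (nat_lit 578) (nat_lit 370) (nat_lit 1159) (nat_lit 1) .nil)), (nat_lit 28), (nat_lit 26), (nat_lit 1),
 (nat_lit 0), (33, 30, 3), [313, 1915], 13⟩,
  ⟨⟨-51, 4, 19, -2, -45, -14, -12, 12, -37⟩, (.cons (nat_lit 1947) (nat_lit 712) (nat_lit 1) (nat_lit 1521)
 (.cons (nat_lit 361) (nat_lit 1112) (nat_lit 790) (nat_lit 1) .nil)), (nat_lit 10), (nat_lit 30), (nat_lit
 29), (nat_lit 1), (7, 27, 21), [1861, 1146], 27⟩,
  mz,
  ⟨⟨25, -12, -61, 22, -35, 14, -20, -28, -17⟩, (.cons (nat_lit 554) (nat_lit 1026) (nat_lit 378) (nat_lit 1)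
 (.cons (nat_lit 1626) (nat_lit 1016) (nat_lit 1098) (nat_lit 1) .nil)), (nat_lit 19), (nat_lit 24), (nat_lit
 12), (nat_lit 1), (9, 38, 21), [267, 1603], 5⟩,
  mz,
  mz,
  mz,
  ⟨⟨27, 32, -47, -40, 17, 0, 10, -16, -47⟩, (.cons (nat_lit 1941) (nat_lit 1820) (nat_lit 900) (nat_lit 1)
 (.cons (nat_lit 1211) (nat_lit 1316) (nat_lit 278) (nat_lit 1) .nil)), (nat_lit 12), (nat_lit 13), (nat_lit
 27), (nat_lit 1), (43, 39, 2), [1970, 152], 30⟩,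
  mz,
  ⟨⟨-27, -32, -20, -40, 17, 40, -10, 16, -37⟩, (.cons (nat_lit 2196) (nat_lit 177) (nat_lit 1655) (nat_lit 1)
 (.cons (nat_lit 1746) (nat_lit 756) (nat_lit 163) (nat_lit 1) .nil)), (nat_lit 30), (nat_lit 18), (nat_lit
 27), (nat_lit 1), (46, 2, 24), [607, 13], 20⟩,
  ⟨⟨17, -36, -45, 20, -23, 30, 38, 8, -37⟩, (.cons (nat_lit 912) (nat_lit 1284) (nat_lit 621) (nat_lit 1)
 (.cons (nat_lit 853) (nat_lit 288) (nat_lit 1619) (nat_lit 1) .nil)), (nat_lit 27), (nat_lit 14), (nat_lit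
 12), (nat_lit 1), (19, 3, 1), [758, 1529], 24⟩,
  mz,
  ⟨⟨-51, -4, 19, -2, 45, -14, -12, -12, -37⟩, (.cons (nat_lit 860) (nat_lit 1504) (nat_lit 693) (nat_lit 1)
 (.cons (nat_lit 414) (nat_lit 95) (nat_lit 51) (nat_lit 1) .nil)), (nat_lit 18), (nat_lit 17), (nat_lit 0),
 (nat_lit 1), (25, 36, 28), [599, 2196], 9⟩,
  ⟨⟨9, 4, -61, 40, 23, -10, 22, -32, -29⟩, (.cons (nat_lit 255) (nat_lit 979) (nat_lit 1162) (nat_lit 1) (.cons
 (nat_lit 892) (nat_lit 661) (nat_lit 1320) (nat_lit 1) .nil)), (nat_lit 5), (nat_lit 26), (nat_lit 8),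
 (nat_lit 1), (18, 33, 44), [86, 927], 7⟩,
  ⟨⟨-13, 36, 45, 40, 23, -30, -22, 32, -7⟩, (.cons (nat_lit 343) (nat_lit 2012) (nat_lit 674) (nat_lit 1)
 (.cons (nat_lit 2015) (nat_lit 1298) (nat_lit 2026) (nat_lit 1) .nil)), (nat_lit 25), (nat_lit 24), (nat_lit
 2), (nat_lit 1), (5, 28, 41), [1773, 977], 4⟩,
  mz,
  ⟨⟨23, 0, 40, 0, -47, 0, 42, 0, -23⟩, (.cons (nat_lit 2196) (nat_lit 2065) (nat_lit 1589) (nat_lit 1) (.cons
 (nat_lit 2012) (nat_lit 749) (nat_lit 728) (nat_lit 1) .nil)), (nat_lit 30), (nat_lit 8), (nat_lit 17),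
 (nat_lit 1), (7, 0, 23), [170, 154], 9⟩,
  ⟨⟨45, -8, -49, 20, 33, 20, 6, 24, -41⟩, (.cons (nat_lit 1511) (nat_lit 2042) (nat_lit 193) (nat_lit 1) (.cons
 (nat_lit 2116) (nat_lit 1643) (nat_lit 1452) (nat_lit 1) .nil)), (nat_lit 7), (nat_lit 1), (nat_lit 10),
 (nat_lit 1), (29, 39, 7), [1559, 9], 17⟩,
  ⟨⟨17, -36, 28, 20, -23, -50, 38, 8, -1⟩, (.cons (nat_lit 1894) (nat_lit 1828) (nat_lit 374) (nat_lit 1)
 (.cons (nat_lit 1665) (nat_lit 1449) (nat_lit 1658) (nat_lit 1) .nil)), (nat_lit 8), (nat_lit 10), (nat_lit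
 5), (nat_lit 1), (2, 30, 10), [1876, 406], 10⟩,
  ⟨⟨21, 32, -49, -2, 35, 36, -28, 20, -13⟩, (.cons (nat_lit 408) (nat_lit 1918) (nat_lit 360) (nat_lit 1)
 (.cons (nat_lit 1823) (nat_lit 293) (nat_lit 1561) (nat_lit 1) .nil)), (nat_lit 27), (nat_lit 1), (nat_lit
 22), (nat_lit 1), (30, 24, 7), [1270, 496], 13⟩,
  ⟨⟨-39, -32, 8, -20, 33, -20, 6, -24, -41⟩, (.cons (nat_lit 2196) (nat_lit 980) (nat_lit 231) (nat_lit 1)
 (.cons (nat_lit 1868) (nat_lit 2069) (nat_lit 1794) (nat_lit 1) .nil)), (nat_lit 30), (nat_lit 7), (nat_lit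
 17), (nat_lit 1), (28, 24, 21), [164, 1202], 2⟩,
  mz,
  mz,
  ⟨⟨-45, 8, -4, 20, 33, -40, -6, -24, -35⟩, (.cons (nat_lit 2196) (nat_lit 722) (nat_lit 1352) (nat_lit 1)
 (.cons (nat_lit 1084) (nat_lit 431) (nat_lit 1459) (nat_lit 1) .nil)), (nat_lit 30), (nat_lit 12), (nat_lit
 15), (nat_lit 1), (40, 24, 21), [1136, 1820], 18⟩,
  ⟨⟨-21, 32, -28, -2, -35, -34, 28, 20, -41⟩, (.cons (nat_lit 331) (nat_lit 1434) (nat_lit 430) (nat_lit 1)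
 (.cons (nat_lit 1274) (nat_lit 140) (nat_lit 1035) (nat_lit 1) .nil)), (nat_lit 10), (nat_lit 28), (nat_lit
 0), (nat_lit 1), (30, 23, 7), [335, 41], 26⟩,
  ⟨⟨17, 36, -45, 20, 23, 30, 38, -8, -37⟩, (.cons (nat_lit 1217) (nat_lit 1051) (nat_lit 1420) (nat_lit 1)
 (.cons (nat_lit 2117) (nat_lit 855) (nat_lit 53) (nat_lit 1) .nil)), (nat_lit 5), (nat_lit 4), (nat_lit 21),
 (nat_lit 1), (45, 17, 37), [2153, 982], 7⟩,
  ⟨⟨39, 32, -31, -20, 33, 40, -6, 24, -35⟩, (.cons (nat_lit 490) (nat_lit 1252) (nat_lit 2098) (nat_lit 1)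
 (.cons (nat_lit 1918) (nat_lit 830) (nat_lit 472) (nat_lit 1) .nil)), (nat_lit 9), (nat_lit 22), (nat_lit 3),
 (nat_lit 1), (25, 39, 7), [2025, 1058], 13⟩,
  ⟨⟨19, 0, 44, 0, -47, 0, 42, 0, -19⟩, (.cons (nat_lit 2196) (nat_lit 594) (nat_lit 895) (nat_lit 1) (.cons
 (nat_lit 1626) (nat_lit 16) (nat_lit 1962) (nat_lit 1) .nil)), (nat_lit 30), (nat_lit 19), (nat_lit 26),
 (nat_lit 1), (31, 0, 24), [2021, 1160], 16⟩,
  mz,
  ⟨⟨9, -4, -61, 40, -23, -10, 22, 32, -29⟩, (.cons (nat_lit 1361) (nat_lit 1890) (nat_lit 2195) (nat_lit 1)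
 (.cons (nat_lit 1469) (nat_lit 1394) (nat_lit 1785) (nat_lit 1) .nil)), (nat_lit 17), (nat_lit 28), (nat_lit
 28), (nat_lit 1), (36, 19, 41), [43, 1696], 27⟩,
  ⟨⟨-9, 4, -52, 40, -23, -30, -22, -32, -7⟩, (.cons (nat_lit 1031) (nat_lit 285) (nat_lit 2062) (nat_lit 1)
 (.cons (nat_lit 2082) (nat_lit 45) (nat_lit 1124) (nat_lit 1) .nil)), (nat_lit 11), (nat_lit 23), (nat_lit
 23), (nat_lit 1), (18, 14, 44), [317, 100], 20⟩,
  ⟨⟨-39, -8, -17, -2, -45, 16, 12, -12, -49⟩, (.cons (nat_lit 1690) (nat_lit 38) (nat_lit 1907) (nat_lit 1)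
 (.cons (nat_lit 455) (nat_lit 686) (nat_lit 324) (nat_lit 1) .nil)), (nat_lit 28), (nat_lit 28), (nat_lit 25),
 (nat_lit 1), (3, 11, 28), [214, 909], 26⟩,
  mz,
  ⟨⟨17, 36, 28, 20, 23, -50, 38, -8, -1⟩, (.cons (nat_lit 1424) (nat_lit 1177) (nat_lit 2083) (nat_lit 1)
 (.cons (nat_lit 168) (nat_lit 1196) (nat_lit 34) (nat_lit 1) .nil)), (nat_lit 7), (nat_lit 15), (nat_lit 25),
 (nat_lit 1), (28, 44, 46), [203, 734], 29⟩,
  ⟨⟨27, -32, -47, -40, -17, 0, 10, 16, -47⟩, (.cons (nat_lit 1349) (nat_lit 1127) (nat_lit 2064) (nat_lit 1)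
 (.cons (nat_lit 59) (nat_lit 2000) (nat_lit 1111) (nat_lit 1) .nil)), (nat_lit 11), (nat_lit 25), (nat_lit
 19), (nat_lit 1), (46, 45, 24), [985, 313], 16⟩,
  mz,
  ⟨⟨17, -48, -17, -40, -17, 40, -10, -16, -37⟩, (.cons (nat_lit 1070) (nat_lit 263) (nat_lit 1702) (nat_lit 1)
 (.cons (nat_lit 1210) (nat_lit 127) (nat_lit 172) (nat_lit 1) .nil)), (nat_lit 17), (nat_lit 9), (nat_lit 18),
 (nat_lit 1), (6, 8, 2), [2006, 1456], 5⟩,
  mz,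
  mz,
  mz,
  ⟨⟨45, -16, -1, -22, -35, 36, 20, -28, -37⟩, (.cons (nat_lit 1177) (nat_lit 2056) (nat_lit 1318) (nat_lit 1)
 (.cons (nat_lit 994) (nat_lit 1716) (nat_lit 689) (nat_lit 1) .nil)), (nat_lit 25), (nat_lit 5), (nat_lit 1),
 (nat_lit 1), (12, 38, 21), [1705, 485], 10⟩,
  mz,
  ⟨⟨-39, 8, -17, -2, 45, 16, 12, 12, -49⟩, (.cons (nat_lit 956) (nat_lit 1462) (nat_lit 242) (nat_lit 1) (.cons
 (nat_lit 914) (nat_lit 1444) (nat_lit 618) (nat_lit 1) .nil)), (nat_lit 19), (nat_lit 0), (nat_lit 5),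
 (nat_lit 1), (14, 20, 21), [1297, 958], 25⟩,
  ⟨⟨-21, -32, -28, -2, 35, -34, 28, -20, -41⟩, (.cons (nat_lit 1603) (nat_lit 1286) (nat_lit 1969) (nat_lit 1)
 (.cons (nat_lit 1271) (nat_lit 1430) (nat_lit 1918) (nat_lit 1) .nil)), (nat_lit 27), (nat_lit 18), (nat_lit
 29), (nat_lit 1), (33, 30, 3), [1835, 2109], 16⟩,
  ⟨⟨-45, 16, 44, -22, -35, -14, -20, 28, -17⟩, (.cons (nat_lit 2030) (nat_lit 113) (nat_lit 1571) (nat_lit 1)
 (.cons (nat_lit 1571) (nat_lit 299) (nat_lit 225) (nat_lit 1) .nil)), (nat_lit 20), (nat_lit 29), (nat_lit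
 30), (nat_lit 1), (34, 2, 36), [633, 1643], 22⟩]

/-- Moves. -/
noncomputable def t1_4 : List Mv := [
  mz,
  ⟨⟨45, 16, -1, 22, -35, -36, 20, 28, -37⟩, (.cons (nat_lit 1916) (nat_lit 808) (nat_lit 2178) (nat_lit 1)
 (.cons (nat_lit 217) (nat_lit 236) (nat_lit 197) (nat_lit 1) .nil)), (nat_lit 18), (nat_lit 16), (nat_lit 4),
 (nat_lit 1), (34, 2, 36), [903, 114], 8⟩,
  ⟨⟨21, -32, -49, 2, 35, -36, -28, -20, -13⟩, (.cons (nat_lit 1531) (nat_lit 513) (nat_lit 828) (nat_lit 1)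
 (.cons (nat_lit 578) (nat_lit 370) (nat_lit 1159) (nat_lit 1) .nil)), (nat_lit 28), (nat_lit 26), (nat_lit 1),
 (nat_lit 0), (33, 30, 3), [313, 1915], 13⟩,
  ⟨⟨39, 8, -56, -2, -45, -14, -12, 12, -37⟩, (.cons (nat_lit 1174) (nat_lit 1836) (nat_lit 1172) (nat_lit 1)
 (.cons (nat_lit 1190) (nat_lit 1050) (nat_lit 1824) (nat_lit 1) .nil)), (nat_lit 18), (nat_lit 6), (nat_lit
 1), (nat_lit 0), (14, 27, 21), [530, 1193], 28⟩,
  mz,
  ⟨⟨-45, -16, 44, -22, 35, -14, -20, -28, -17⟩, (.cons (nat_lit 270) (nat_lit 2103) (nat_lit 44) (nat_lit 1)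
 (.cons (nat_lit 823) (nat_lit 911) (nat_lit 1116) (nat_lit 1) .nil)), (nat_lit 23), (nat_lit 20), (nat_lit
 15), (nat_lit 1), (12, 9, 21), [564, 287], 1⟩,
  mz,
  mz,
  mz,
  ⟨⟨27, 32, -47, -40, 17, 0, 10, -16, -47⟩, (.cons (nat_lit 1941) (nat_lit 1820) (nat_lit 900) (nat_lit 1)
 (.cons (nat_lit 1211) (nat_lit 1316) (nat_lit 278) (nat_lit 1) .nil)), (nat_lit 12), (nat_lit 13), (nat_lit
 27), (nat_lit 1), (43, 39, 2), [1970, 152], 30⟩,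
  mz,
  ⟨⟨17, 48, -17, 40, -17, -40, -10, 16, -37⟩, (.cons (nat_lit 892) (nat_lit 418) (nat_lit 1074) (nat_lit 1)
 (.cons (nat_lit 1602) (nat_lit 1282) (nat_lit 178) (nat_lit 1) .nil)), (nat_lit 7), (nat_lit 6), (nat_lit 12),
 (nat_lit 1), (25, 45, 24), [365, 933], 14⟩,
  ⟨⟨17, -36, -45, -20, 23, -30, 38, 8, -37⟩, (.cons (nat_lit 1996) (nat_lit 1204) (nat_lit 912) (nat_lit 1)
 (.cons (nat_lit 570) (nat_lit 1135) (nat_lit 2077) (nat_lit 1) .nil)), (nat_lit 29), (nat_lit 4), (nat_lit 5),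
 (nat_lit 1), (19, 44, 1), [812, 178], 20⟩,
  mz,
  ⟨⟨-51, -4, 19, -2, 45, -14, -12, -12, -37⟩, (.cons (nat_lit 860) (nat_lit 1504) (nat_lit 693) (nat_lit 1)
 (.cons (nat_lit 414) (nat_lit 95) (nat_lit 51) (nat_lit 1) .nil)), (nat_lit 18), (nat_lit 17), (nat_lit 0),
 (nat_lit 1), (25, 36, 28), [599, 2196], 9⟩,
  ⟨⟨13, -36, 32, -40, -23, 10, 22, -32, -29⟩, (.cons (nat_lit 1983) (nat_lit 498) (nat_lit 1588) (nat_lit 1)
 (.cons (nat_lit 1166) (nat_lit 1678) (nat_lit 736) (nat_lit 1) .nil)), (nat_lit 7), (nat_lit 28), (nat_lit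
 30), (nat_lit 1), (26, 14, 44), [1045, 989], 2⟩,
  ⟨⟨-13, 36, 45, 40, 23, -30, -22, 32, -7⟩, (.cons (nat_lit 343) (nat_lit 2012) (nat_lit 674) (nat_lit 1)
 (.cons (nat_lit 2015) (nat_lit 1298) (nat_lit 2026) (nat_lit 1) .nil)), (nat_lit 25), (nat_lit 24), (nat_lit
 2), (nat_lit 1), (5, 28, 41), [1773, 977], 4⟩,
  mz,
  ⟨⟨19, 0, -63, 0, -47, 0, 42, 0, -23⟩, (.cons (nat_lit 668) (nat_lit 1476) (nat_lit 1302) (nat_lit 1) (.cons
 (nat_lit 1748) (nat_lit 1366) (nat_lit 963) (nat_lit 1) .nil)), (nat_lit 20), (nat_lit 25), (nat_lit 19),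
 (nat_lit 1), (16, 0, 23), [839, 1564], 26⟩,
  ⟨⟨-39, 32, 8, -20, -33, -20, 6, 24, -41⟩, (.cons (nat_lit 1723) (nat_lit 2161) (nat_lit 1862) (nat_lit 1)
 (.cons (nat_lit 1775) (nat_lit 303) (nat_lit 587) (nat_lit 1) .nil)), (nat_lit 26), (nat_lit 15), (nat_lit 7),
 (nat_lit 1), (25, 8, 7), [302, 1575], 24⟩,
  ⟨⟨17, -36, 28, -20, 23, 50, 38, 8, -1⟩, (.cons (nat_lit 179) (nat_lit 1713) (nat_lit 2195) (nat_lit 1) (.cons
 (nat_lit 1095) (nat_lit 1205) (nat_lit 1666) (nat_lit 1) .nil)), (nat_lit 17), (nat_lit 12), (nat_lit 12),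
 (nat_lit 1), (2, 17, 10), [1931, 663], 17⟩,
  ⟨⟨-49, -12, 36, -2, 35, 36, -28, 20, -13⟩, (.cons (nat_lit 387) (nat_lit 1688) (nat_lit 1561) (nat_lit 1)
 (.cons (nat_lit 1608) (nat_lit 788) (nat_lit 1091) (nat_lit 1) .nil)), (nat_lit 23), (nat_lit 23), (nat_lit
 9), (nat_lit 1), (24, 24, 7), [2007, 1201], 1⟩,
  ⟨⟨-39, -32, 8, 20, -33, 20, 6, -24, -41⟩, (.cons (nat_lit 1562) (nat_lit 1307) (nat_lit 384) (nat_lit 1)
 (.cons (nat_lit 1041) (nat_lit 324) (nat_lit 928) (nat_lit 1) .nil)), (nat_lit 6), (nat_lit 3), (nat_lit 20),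
 (nat_lit 1), (28, 23, 21), [831, 1416], 27⟩,
  mz,
  mz,
  ⟨⟨-45, 8, -4, 20, 33, -40, -6, -24, -35⟩, (.cons (nat_lit 2196) (nat_lit 722) (nat_lit 1352) (nat_lit 1)
 (.cons (nat_lit 1084) (nat_lit 431) (nat_lit 1459) (nat_lit 1) .nil)), (nat_lit 30), (nat_lit 12), (nat_lit
 15), (nat_lit 1), (40, 24, 21), [1136, 1820], 18⟩,
  ⟨⟨-21, 32, -28, -2, -35, -34, 28, 20, -41⟩, (.cons (nat_lit 331) (nat_lit 1434) (nat_lit 430) (nat_lit 1)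
 (.cons (nat_lit 1274) (nat_lit 140) (nat_lit 1035) (nat_lit 1) .nil)), (nat_lit 10), (nat_lit 28), (nat_lit
 0), (nat_lit 1), (30, 23, 7), [335, 41], 26⟩,
  ⟨⟨17, 36, -45, -20, -23, -30, 38, -8, -37⟩, (.cons (nat_lit 1790) (nat_lit 2125) (nat_lit 1762) (nat_lit 1)
 (.cons (nat_lit 404) (nat_lit 600) (nat_lit 653) (nat_lit 1) .nil)), (nat_lit 17), (nat_lit 14), (nat_lit 25),
 (nat_lit 1), (45, 30, 37), [1603, 403], 27⟩,
  ⟨⟨39, 32, -31, -20, 33, 40, -6, 24, -35⟩, (.cons (nat_lit 490) (nat_lit 1252) (nat_lit 2098) (nat_lit 1)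
 (.cons (nat_lit 1918) (nat_lit 830) (nat_lit 472) (nat_lit 1) .nil)), (nat_lit 9), (nat_lit 22), (nat_lit 3),
 (nat_lit 1), (25, 39, 7), [2025, 1058], 13⟩,
  ⟨⟨19, 0, 44, 0, -47, 0, 42, 0, -19⟩, (.cons (nat_lit 2196) (nat_lit 594) (nat_lit 895) (nat_lit 1) (.cons
 (nat_lit 1626) (nat_lit 16) (nat_lit 1962) (nat_lit 1) .nil)), (nat_lit 30), (nat_lit 19), (nat_lit 26),
 (nat_lit 1), (31, 0, 24), [2021, 1160], 16⟩,
  mz,
  ⟨⟨9, -4, -61, -40, 23, 10, 22, 32, -29⟩, (.cons (nat_lit 2126) (nat_lit 618) (nat_lit 643) (nat_lit 1) (.cons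
 (nat_lit 361) (nat_lit 1237) (nat_lit 105) (nat_lit 1) .nil)), (nat_lit 29), (nat_lit 18), (nat_lit 8),
 (nat_lit 1), (36, 28, 41), [1176, 807], 20⟩,
  ⟨⟨-13, -36, 45, -40, 23, 30, -22, -32, -7⟩, (.cons (nat_lit 470) (nat_lit 946) (nat_lit 1972) (nat_lit 1)
 (.cons (nat_lit 292) (nat_lit 1196) (nat_lit 369) (nat_lit 1) .nil)), (nat_lit 15), (nat_lit 2), (nat_lit 18),
 (nat_lit 1), (26, 33, 44), [1129, 768], 5⟩,
  ⟨⟨-39, -8, -17, 2, 45, -16, 12, -12, -49⟩, (.cons (nat_lit 631) (nat_lit 80) (nat_lit 2117) (nat_lit 1)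
 (.cons (nat_lit 1332) (nat_lit 777) (nat_lit 592) (nat_lit 1) .nil)), (nat_lit 19), (nat_lit 18), (nat_lit 0),
 (nat_lit 1), (3, 36, 28), [907, 820], 25⟩,
  mz,
  ⟨⟨17, 36, 28, 20, 23, -50, 38, -8, -1⟩, (.cons (nat_lit 1424) (nat_lit 1177) (nat_lit 2083) (nat_lit 1)
 (.cons (nat_lit 168) (nat_lit 1196) (nat_lit 34) (nat_lit 1) .nil)), (nat_lit 7), (nat_lit 15), (nat_lit 25),
 (nat_lit 1), (28, 44, 46), [203, 734], 29⟩,
  ⟨⟨27, -32, -47, -40, -17, 0, 10, 16, -47⟩, (.cons (nat_lit 1349) (nat_lit 1127) (nat_lit 2064) (nat_lit 1)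
 (.cons (nat_lit 59) (nat_lit 2000) (nat_lit 1111) (nat_lit 1) .nil)), (nat_lit 11), (nat_lit 25), (nat_lit
 19), (nat_lit 1), (46, 45, 24), [985, 313], 16⟩,
  mz,
  ⟨⟨-27, 32, -20, 40, 17, -40, -10, -16, -37⟩, (.cons (nat_lit 2196) (nat_lit 1041) (nat_lit 1128) (nat_lit 1)
 (.cons (nat_lit 798) (nat_lit 802) (nat_lit 1243) (nat_lit 1) .nil)), (nat_lit 30), (nat_lit 12), (nat_lit
 26), (nat_lit 1), (43, 39, 2), [1134, 171], 14⟩,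
  mz,
  mz,
  mz,
  ⟨⟨45, -16, -1, 22, 35, -36, 20, -28, -37⟩, (.cons (nat_lit 1864) (nat_lit 779) (nat_lit 1978) (nat_lit 1)
 (.cons (nat_lit 630) (nat_lit 554) (nat_lit 296) (nat_lit 1) .nil)), (nat_lit 27), (nat_lit 11), (nat_lit 2),
 (nat_lit 1), (12, 9, 21), [1075, 2097], 13⟩,
  mz,
  ⟨⟨51, 4, -32, 2, -45, -16, 12, 12, -49⟩, (.cons (nat_lit 1018) (nat_lit 1151) (nat_lit 454) (nat_lit 1)
 (.cons (nat_lit 1664) (nat_lit 1547) (nat_lit 331) (nat_lit 1) .nil)), (nat_lit 17), (nat_lit 22), (nat_lit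
 1), (nat_lit 0), (7, 27, 21), [1934, 2095], 20⟩,
  ⟨⟨49, 12, -13, 2, -35, 34, 28, -20, -41⟩, (.cons (nat_lit 86) (nat_lit 816) (nat_lit 1634) (nat_lit 1) (.cons
 (nat_lit 174) (nat_lit 576) (nat_lit 1819) (nat_lit 1) .nil)), (nat_lit 19), (nat_lit 6), (nat_lit 17),
 (nat_lit 1), (17, 17, 3), [1905, 1705], 5⟩,
  ⟨⟨-45, 16, 44, -22, -35, -14, -20, 28, -17⟩, (.cons (nat_lit 2030) (nat_lit 113) (nat_lit 1571) (nat_lit 1)
 (.cons (nat_lit 1571) (nat_lit 299) (nat_lit 225) (nat_lit 1) .nil)), (nat_lit 20), (nat_lit 29), (nat_lit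
 30), (nat_lit 1), (34, 2, 36), [633, 1643], 22⟩]

/-- Moves. -/
noncomputable def t1_5 : List Mv := [
  mz,
  ⟨⟨45, 16, -1, 22, -35, -36, 20, 28, -37⟩, (.cons (nat_lit 1916) (nat_lit 808) (nat_lit 2178) (nat_lit 1)
 (.cons (nat_lit 217) (nat_lit 236) (nat_lit 197) (nat_lit 1) .nil)), (nat_lit 18), (nat_lit 16), (nat_lit 4),
 (nat_lit 1), (34, 2, 36), [903, 114], 8⟩,
  ⟨⟨-49, 12, 36, -2, -35, 36, -28, -20, -13⟩, (.cons (nat_lit 1909) (nat_lit 709) (nat_lit 357) (nat_lit 1)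
 (.cons (nat_lit 1674) (nat_lit 1981) (nat_lit 1580) (nat_lit 1) .nil)), (nat_lit 28), (nat_lit 0), (nat_lit
 13), (nat_lit 1), (17, 17, 3), [2107, 362], 17⟩,
  ⟨⟨-51, 4, 19, 2, 45, 14, -12, 12, -37⟩, (.cons (nat_lit 1588) (nat_lit 573) (nat_lit 179) (nat_lit 1) (.cons
 (nat_lit 1698) (nat_lit 1801) (nat_lit 985) (nat_lit 1) .nil)), (nat_lit 18), (nat_lit 0), (nat_lit 3),
 (nat_lit 1), (7, 20, 21), [1704, 1540], 9⟩,
  mz,
  ⟨⟨-45, -16, 44, -22, 35, -14, -20, -28, -17⟩, (.cons (nat_lit 270) (nat_lit 2103) (nat_lit 44) (nat_lit 1)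
 (.cons (nat_lit 823) (nat_lit 911) (nat_lit 1116) (nat_lit 1) .nil)), (nat_lit 23), (nat_lit 20), (nat_lit
 15), (nat_lit 1), (12, 9, 21), [564, 287], 1⟩,
  mz,
  mz,
  mz,
  ⟨⟨-17, -48, 0, 40, -17, 0, 10, -16, -47⟩, (.cons (nat_lit 480) (nat_lit 459) (nat_lit 1) (nat_lit 1196)
 (.cons (nat_lit 1728) (nat_lit 1589) (nat_lit 1) (nat_lit 846) .nil)), (nat_lit 24), (nat_lit 25), (nat_lit
 20), (nat_lit 1), (6, 8, 2), [1397, 2059], 21⟩,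
  mz,
  ⟨⟨-27, -32, -20, -40, 17, 40, -10, 16, -37⟩, (.cons (nat_lit 2196) (nat_lit 177) (nat_lit 1655) (nat_lit 1)
 (.cons (nat_lit 1746) (nat_lit 756) (nat_lit 163) (nat_lit 1) .nil)), (nat_lit 30), (nat_lit 18), (nat_lit
 27), (nat_lit 1), (46, 2, 24), [607, 13], 20⟩,
  ⟨⟨21, 44, 8, 20, -23, 30, 38, 8, -37⟩, (.cons (nat_lit 1928) (nat_lit 1302) (nat_lit 2141) (nat_lit 1) (.cons
 (nat_lit 463) (nat_lit 276) (nat_lit 1337) (nat_lit 1) .nil)), (nat_lit 11), (nat_lit 27), (nat_lit 15),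
 (nat_lit 1), (29, 3, 1), [83, 354], 20⟩,
  mz,
  ⟨⟨-51, -4, 19, -2, 45, -14, -12, -12, -37⟩, (.cons (nat_lit 860) (nat_lit 1504) (nat_lit 693) (nat_lit 1)
 (.cons (nat_lit 414) (nat_lit 95) (nat_lit 51) (nat_lit 1) .nil)), (nat_lit 18), (nat_lit 17), (nat_lit 0),
 (nat_lit 1), (25, 36, 28), [599, 2196], 9⟩,
  ⟨⟨9, 4, -61, 40, 23, -10, 22, -32, -29⟩, (.cons (nat_lit 255) (nat_lit 979) (nat_lit 1162) (nat_lit 1) (.cons
 (nat_lit 892) (nat_lit 661) (nat_lit 1320) (nat_lit 1) .nil)), (nat_lit 5), (nat_lit 26), (nat_lit 8),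
 (nat_lit 1), (18, 33, 44), [86, 927], 7⟩,
  ⟨⟨-13, 36, 45, -40, -23, 30, -22, 32, -7⟩, (.cons (nat_lit 1125) (nat_lit 1126) (nat_lit 21) (nat_lit 1)
 (.cons (nat_lit 1931) (nat_lit 499) (nat_lit 909) (nat_lit 1) .nil)), (nat_lit 23), (nat_lit 19), (nat_lit 3),
 (nat_lit 1), (5, 19, 41), [1730, 1024], 17⟩,
  mz,
  ⟨⟨23, 0, 40, 0, -47, 0, 42, 0, -23⟩, (.cons (nat_lit 2196) (nat_lit 2065) (nat_lit 1589) (nat_lit 1) (.cons
 (nat_lit 2012) (nat_lit 749) (nat_lit 728) (nat_lit 1) .nil)), (nat_lit 30), (nat_lit 8), (nat_lit 17),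
 (nat_lit 1), (7, 0, 23), [170, 154], 9⟩,
  ⟨⟨-39, 32, 8, -20, -33, -20, 6, 24, -41⟩, (.cons (nat_lit 1723) (nat_lit 2161) (nat_lit 1862) (nat_lit 1)
 (.cons (nat_lit 1775) (nat_lit 303) (nat_lit 587) (nat_lit 1) .nil)), (nat_lit 26), (nat_lit 15), (nat_lit 7),
 (nat_lit 1), (25, 8, 7), [302, 1575], 24⟩,
  ⟨⟨17, -36, 28, -20, 23, 50, 38, 8, -1⟩, (.cons (nat_lit 179) (nat_lit 1713) (nat_lit 2195) (nat_lit 1) (.cons
 (nat_lit 1095) (nat_lit 1205) (nat_lit 1666) (nat_lit 1) .nil)), (nat_lit 17), (nat_lit 12), (nat_lit 12),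
 (nat_lit 1), (2, 17, 10), [1931, 663], 17⟩,
  ⟨⟨21, 32, -49, 2, -35, -36, -28, 20, -13⟩, (.cons (nat_lit 694) (nat_lit 1981) (nat_lit 1308) (nat_lit 1)
 (.cons (nat_lit 333) (nat_lit 1589) (nat_lit 1486) (nat_lit 1) .nil)), (nat_lit 18), (nat_lit 2), (nat_lit 1),
 (nat_lit 1), (30, 23, 7), [2008, 500], 8⟩,
  ⟨⟨-39, -32, 8, -20, 33, -20, 6, -24, -41⟩, (.cons (nat_lit 2196) (nat_lit 980) (nat_lit 231) (nat_lit 1)
 (.cons (nat_lit 1868) (nat_lit 2069) (nat_lit 1794) (nat_lit 1) .nil)), (nat_lit 30), (nat_lit 7), (nat_lit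
 17), (nat_lit 1), (28, 24, 21), [164, 1202], 2⟩,
  mz,
  mz,
  ⟨⟨-45, 8, -4, 20, 33, -40, -6, -24, -35⟩, (.cons (nat_lit 2196) (nat_lit 722) (nat_lit 1352) (nat_lit 1)
 (.cons (nat_lit 1084) (nat_lit 431) (nat_lit 1459) (nat_lit 1) .nil)), (nat_lit 30), (nat_lit 12), (nat_lit
 15), (nat_lit 1), (40, 24, 21), [1136, 1820], 18⟩,
  ⟨⟨49, -12, -13, -2, -35, -34, 28, 20, -41⟩, (.cons (nat_lit 28) (nat_lit 1751) (nat_lit 445) (nat_lit 1)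
 (.cons (nat_lit 418) (nat_lit 471) (nat_lit 2163) (nat_lit 1) .nil)), (nat_lit 5), (nat_lit 6), (nat_lit 26),
 (nat_lit 1), (24, 23, 7), [944, 2203], 2⟩,
  ⟨⟨17, 36, -45, 20, 23, 30, 38, -8, -37⟩, (.cons (nat_lit 1217) (nat_lit 1051) (nat_lit 1420) (nat_lit 1)
 (.cons (nat_lit 2117) (nat_lit 855) (nat_lit 53) (nat_lit 1) .nil)), (nat_lit 5), (nat_lit 4), (nat_lit 21),
 (nat_lit 1), (45, 17, 37), [2153, 982], 7⟩,
  ⟨⟨-45, -8, -4, 20, -33, -40, -6, 24, -35⟩, (.cons (nat_lit 72) (nat_lit 56) (nat_lit 233) (nat_lit 1) (.cons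
 (nat_lit 1239) (nat_lit 596) (nat_lit 450) (nat_lit 1) .nil)), (nat_lit 26), (nat_lit 19), (nat_lit 30),
 (nat_lit 1), (29, 8, 7), [1303, 1881], 24⟩,
  ⟨⟨19, 0, 44, 0, -47, 0, 42, 0, -19⟩, (.cons (nat_lit 2196) (nat_lit 594) (nat_lit 895) (nat_lit 1) (.cons
 (nat_lit 1626) (nat_lit 16) (nat_lit 1962) (nat_lit 1) .nil)), (nat_lit 30), (nat_lit 19), (nat_lit 26),
 (nat_lit 1), (31, 0, 24), [2021, 1160], 16⟩,
  mz,
  ⟨⟨13, 36, 32, 40, -23, -10, 22, 32, -29⟩, (.cons (nat_lit 49) (nat_lit 2112) (nat_lit 547) (nat_lit 1) (.cons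
 (nat_lit 1774) (nat_lit 768) (nat_lit 1033) (nat_lit 1) .nil)), (nat_lit 17), (nat_lit 6), (nat_lit 24),
 (nat_lit 1), (5, 19, 41), [1553, 1461], 14⟩,
  ⟨⟨-13, -36, 45, 40, -23, -30, -22, -32, -7⟩, (.cons (nat_lit 1641) (nat_lit 1711) (nat_lit 2007) (nat_lit 1)
 (.cons (nat_lit 2007) (nat_lit 1130) (nat_lit 43) (nat_lit 1) .nil)), (nat_lit 11), (nat_lit 1), (nat_lit 4),
 (nat_lit 1), (26, 14, 44), [673, 194], 12⟩,
  ⟨⟨51, -4, -32, 2, 45, -16, 12, -12, -49⟩, (.cons (nat_lit 2196) (nat_lit 1518) (nat_lit 702) (nat_lit 1)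
 (.cons (nat_lit 1770) (nat_lit 69) (nat_lit 122) (nat_lit 1) .nil)), (nat_lit 30), (nat_lit 26), (nat_lit 1),
 (nat_lit 1), (25, 36, 28), [2127, 21], 29⟩,
  mz,
  ⟨⟨17, 36, 28, 20, 23, -50, 38, -8, -1⟩, (.cons (nat_lit 1424) (nat_lit 1177) (nat_lit 2083) (nat_lit 1)
 (.cons (nat_lit 168) (nat_lit 1196) (nat_lit 34) (nat_lit 1) .nil)), (nat_lit 7), (nat_lit 15), (nat_lit 25),
 (nat_lit 1), (28, 44, 46), [203, 734], 29⟩,
  ⟨⟨-17, 48, 0, -40, -17, 0, 10, 16, -47⟩, (.cons (nat_lit 1339) (nat_lit 2045) (nat_lit 1158) (nat_lit 1)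
 (.cons (nat_lit 599) (nat_lit 1807) (nat_lit 312) (nat_lit 1) .nil)), (nat_lit 22), (nat_lit 8), (nat_lit 25),
 (nat_lit 1), (25, 45, 24), [1930, 2099], 27⟩,
  mz,
  ⟨⟨17, -48, -17, -40, -17, 40, -10, -16, -37⟩, (.cons (nat_lit 1070) (nat_lit 263) (nat_lit 1702) (nat_lit 1)
 (.cons (nat_lit 1210) (nat_lit 127) (nat_lit 172) (nat_lit 1) .nil)), (nat_lit 17), (nat_lit 9), (nat_lit 18),
 (nat_lit 1), (6, 8, 2), [2006, 1456], 5⟩,
  mz,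
  mz,
  mz,
  ⟨⟨45, -16, -1, 22, 35, -36, 20, -28, -37⟩, (.cons (nat_lit 1864) (nat_lit 779) (nat_lit 1978) (nat_lit 1)
 (.cons (nat_lit 630) (nat_lit 554) (nat_lit 296) (nat_lit 1) .nil)), (nat_lit 27), (nat_lit 11), (nat_lit 2),
 (nat_lit 1), (12, 9, 21), [1075, 2097], 13⟩,
  mz,
  ⟨⟨51, 4, -32, 2, -45, -16, 12, 12, -49⟩, (.cons (nat_lit 1018) (nat_lit 1151) (nat_lit 454) (nat_lit 1)
 (.cons (nat_lit 1664) (nat_lit 1547) (nat_lit 331) (nat_lit 1) .nil)), (nat_lit 17), (nat_lit 22), (nat_lit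
 1), (nat_lit 0), (7, 27, 21), [1934, 2095], 20⟩,
  ⟨⟨-21, -32, -28, 2, -35, 34, 28, -20, -41⟩, (.cons (nat_lit 592) (nat_lit 1211) (nat_lit 1496) (nat_lit 1)
 (.cons (nat_lit 2082) (nat_lit 411) (nat_lit 2054) (nat_lit 1) .nil)), (nat_lit 14), (nat_lit 28), (nat_lit
 14), (nat_lit 1), (33, 17, 3), [1637, 483], 3⟩,
  ⟨⟨25, 12, -61, 22, 35, 14, -20, 28, -17⟩, (.cons (nat_lit 2127) (nat_lit 243) (nat_lit 1033) (nat_lit 1)
 (.cons (nat_lit 409) (nat_lit 39) (nat_lit 391) (nat_lit 1) .nil)), (nat_lit 23), (nat_lit 8), (nat_lit 21),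
 (nat_lit 1), (2, 45, 36), [1096, 1586], 26⟩]

/-- Moves. -/
noncomputable def t4_2 : List Mv := [
  mz,
  ⟨⟨3, 20, 29, 4, -25, 18, 26, 8, -7⟩, (.cons (nat_lit 2070) (nat_lit 264) (nat_lit 1073) (nat_lit 1) (.cons
 (nat_lit 1699) (nat_lit 647) (nat_lit 1961) (nat_lit 1) .nil)), (nat_lit 26), (nat_lit 0), (nat_lit 0),
 (nat_lit 0), (26, 14, 29), [434, 1330], 0⟩,
  ⟨⟨3, -20, 29, 4, 25, 18, 26, -8, -7⟩, (.cons (nat_lit 1097) (nat_lit 1729) (nat_lit 1523) (nat_lit 1) (.cons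
 (nat_lit 2164) (nat_lit 972) (nat_lit 1256) (nat_lit 1) .nil)), (nat_lit 26), (nat_lit 0), (nat_lit 0),
 (nat_lit 0), (19, 15, 20), [690, 390], 0⟩,
  mz,
  ⟨⟨27, 16, -28, -4, -15, -28, -6, 24, -11⟩, (.cons (nat_lit 386) (nat_lit 125) (nat_lit 1353) (nat_lit 1)
 (.cons (nat_lit 286) (nat_lit 1762) (nat_lit 860) (nat_lit 1) .nil)), (nat_lit 14), (nat_lit 0), (nat_lit 0),
 (nat_lit 0), (15, 15, 7), [148, 1704], 0⟩,
  mz,
  ⟨⟨21, -4, -40, 16, 25, 2, 22, -16, -5⟩, (.cons (nat_lit 218) (nat_lit 1871) (nat_lit 1408) (nat_lit 1) (.cons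
 (nat_lit 1972) (nat_lit 535) (nat_lit 1877) (nat_lit 1) .nil)), (nat_lit 23), (nat_lit 0), (nat_lit 0),
 (nat_lit 0), (21, 16, 22), [1643, 672], 0⟩,
  mz,
  ⟨⟨-31, 0, 0, 10, 19, -30, -4, -20, -19⟩, (.cons (nat_lit 2196) (nat_lit 1242) (nat_lit 2084) (nat_lit 1)
 (.cons (nat_lit 2208) (nat_lit 291) (nat_lit 1993) (nat_lit 1) .nil)), (nat_lit 8), (nat_lit 0), (nat_lit 0),
 (nat_lit 0), (0, 5, 29), [635, 167], 0⟩,
  mz,
  mz,
  mz,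
  mz,
  ⟨⟨27, 20, -19, 10, -19, -30, -4, 20, -19⟩, (.cons (nat_lit 113) (nat_lit 744) (nat_lit 116) (nat_lit 1)
 (.cons (nat_lit 761) (nat_lit 898) (nat_lit 939) (nat_lit 1) .nil)), (nat_lit 25), (nat_lit 0), (nat_lit 0),
 (nat_lit 0), (5, 3, 5), [1828, 716], 0⟩,
  ⟨⟨27, -16, -28, -4, 15, -28, -6, -24, -11⟩, (.cons (nat_lit 2196) (nat_lit 2105) (nat_lit 331) (nat_lit 1)
 (.cons (nat_lit 2208) (nat_lit 1558) (nat_lit 96) (nat_lit 1) .nil)), (nat_lit 14), (nat_lit 0), (nat_lit 0),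
 (nat_lit 0), (28, 28, 11), [729, 2157], 0⟩,
  ⟨⟨3, 20, -32, 4, -25, -22, 26, 8, -19⟩, (.cons (nat_lit 1450) (nat_lit 1345) (nat_lit 447) (nat_lit 1) (.cons
 (nat_lit 1690) (nat_lit 1066) (nat_lit 1940) (nat_lit 1) .nil)), (nat_lit 26), (nat_lit 0), (nat_lit 0),
 (nat_lit 0), (10, 3, 4), [1701, 268], 0⟩,
  mz,
  mz,
  ⟨⟨21, -4, 19, 16, 25, -18, 22, -16, -17⟩, (.cons (nat_lit 1262) (nat_lit 87) (nat_lit 506) (nat_lit 1) (.cons
 (nat_lit 1390) (nat_lit 1677) (nat_lit 824) (nat_lit 1) .nil)), (nat_lit 23), (nat_lit 0), (nat_lit 0),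
 (nat_lit 0), (7, 26, 28), [769, 1450], 0⟩,
  ⟨⟨-9, 8, -31, -10, -29, 0, 20, -4, -31⟩, (.cons (nat_lit 1746) (nat_lit 1708) (nat_lit 1257) (nat_lit 1)
 (.cons (nat_lit 95) (nat_lit 552) (nat_lit 533) (nat_lit 1) .nil)), (nat_lit 20), (nat_lit 0), (nat_lit 0),
 (nat_lit 0), (2, 16, 30), [517, 1208], 0⟩,
  ⟨⟨9, 8, -40, 10, -29, -10, -20, -4, -11⟩, (.cons (nat_lit 2196) (nat_lit 1167) (nat_lit 1280) (nat_lit 1)
 (.cons (nat_lit 2208) (nat_lit 458) (nat_lit 1911) (nat_lit 1) .nil)), (nat_lit 20), (nat_lit 0), (nat_lit 0),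
 (nat_lit 0), (27, 30, 2), [1775, 738], 0⟩,
  ⟨⟨33, 8, -16, 4, -15, -32, 6, 24, -17⟩, (.cons (nat_lit 1920) (nat_lit 543) (nat_lit 1306) (nat_lit 1) (.cons
 (nat_lit 2072) (nat_lit 682) (nat_lit 644) (nat_lit 1) .nil)), (nat_lit 27), (nat_lit 0), (nat_lit 0),
 (nat_lit 0), (1, 2, 3), [1682, 999], 0⟩,
  ⟨⟨9, -8, -40, 10, 29, -10, -20, 4, -11⟩, (.cons (nat_lit 1318) (nat_lit 259) (nat_lit 664) (nat_lit 1) (.cons
 (nat_lit 68) (nat_lit 520) (nat_lit 1279) (nat_lit 1) .nil)), (nat_lit 20), (nat_lit 0), (nat_lit 0), (nat_lit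
 0), (18, 20, 22), [22, 984], 0⟩,
  ⟨⟨23, 12, 13, 4, 25, -22, 26, -8, -19⟩, (.cons (nat_lit 430) (nat_lit 2136) (nat_lit 2120) (nat_lit 1) (.cons
 (nat_lit 383) (nat_lit 528) (nat_lit 295) (nat_lit 1) .nil)), (nat_lit 18), (nat_lit 0), (nat_lit 0), (nat_lit
 0), (23, 4, 26), [457, 1067], 0⟩,
  ⟨⟨29, 12, 0, 10, -29, 0, 20, 4, -31⟩, (.cons (nat_lit 2196) (nat_lit 1828) (nat_lit 1574) (nat_lit 1) (.cons
 (nat_lit 2208) (nat_lit 926) (nat_lit 322) (nat_lit 1) .nil)), (nat_lit 24), (nat_lit 0), (nat_lit 0),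
 (nat_lit 0), (26, 25, 19), [540, 1302], 0⟩,
  ⟨⟨31, 0, -31, -10, 19, -20, 4, -20, -23⟩, (.cons (nat_lit 1233) (nat_lit 1959) (nat_lit 1911) (nat_lit 1)
 (.cons (nat_lit 283) (nat_lit 432) (nat_lit 686) (nat_lit 1) .nil)), (nat_lit 8), (nat_lit 0), (nat_lit 0),
 (nat_lit 0), (0, 22, 16), [114, 1953], 0⟩,
  ⟨⟨1, 12, 35, -16, 25, -2, 22, 16, -5⟩, (.cons (nat_lit 1464) (nat_lit 1885) (nat_lit 283) (nat_lit 1) (.cons
 (nat_lit 1669) (nat_lit 1347) (nat_lit 77) (nat_lit 1) .nil)), (nat_lit 2), (nat_lit 0), (nat_lit 0), (nat_lit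
 0), (30, 16, 9), [1039, 262], 0⟩,
  ⟨⟨33, -8, -16, 4, 15, -32, 6, -24, -17⟩, (.cons (nat_lit 2196) (nat_lit 1798) (nat_lit 1210) (nat_lit 1)
 (.cons (nat_lit 2208) (nat_lit 1168) (nat_lit 186) (nat_lit 1) .nil)), (nat_lit 27), (nat_lit 0), (nat_lit 0),
 (nat_lit 0), (23, 15, 7), [1702, 1687], 0⟩,
  ⟨⟨1, 12, -36, -16, 25, 18, 22, 16, -17⟩, (.cons (nat_lit 923) (nat_lit 708) (nat_lit 712) (nat_lit 1) (.cons
 (nat_lit 134) (nat_lit 546) (nat_lit 162) (nat_lit 1) .nil)), (nat_lit 2), (nat_lit 0), (nat_lit 0), (nat_lit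
 0), (19, 6, 15), [337, 1302], 0⟩,
  ⟨⟨-27, 20, 8, 10, 19, 20, 4, 20, -23⟩, (.cons (nat_lit 2196) (nat_lit 911) (nat_lit 1562) (nat_lit 1) (.cons
 (nat_lit 2208) (nat_lit 1597) (nat_lit 17) (nat_lit 1) .nil)), (nat_lit 29), (nat_lit 0), (nat_lit 0),
 (nat_lit 0), (23, 11, 23), [1090, 2188], 0⟩]

/-- Moves. -/
noncomputable def t4_4 : List Mv := [
  mz,
  ⟨⟨3, 20, 29, -4, 25, -18, 26, 8, -7⟩, (.cons (nat_lit 2126) (nat_lit 1387) (nat_lit 1394) (nat_lit 1) (.cons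
 (nat_lit 1951) (nat_lit 291) (nat_lit 25) (nat_lit 1) .nil)), (nat_lit 6), (nat_lit 0), (nat_lit 0), (nat_lit
 0), (26, 17, 29), [1465, 1578], 0⟩,
  ⟨⟨23, 12, -36, -4, -25, -18, 26, -8, -7⟩, (.cons (nat_lit 2089) (nat_lit 1766) (nat_lit 1) (nat_lit 1378)
 (.cons (nat_lit 1665) (nat_lit 1018) (nat_lit 1977) (nat_lit 1) .nil)), (nat_lit 28), (nat_lit 0), (nat_lit
 0), (nat_lit 0), (1, 16, 20), [1862, 571], 0⟩,
  mz,
  ⟨⟨27, 16, -28, -4, -15, -28, -6, 24, -11⟩, (.cons (nat_lit 386) (nat_lit 125) (nat_lit 1353) (nat_lit 1)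
 (.cons (nat_lit 286) (nat_lit 1762) (nat_lit 860) (nat_lit 1) .nil)), (nat_lit 14), (nat_lit 0), (nat_lit 0),
 (nat_lit 0), (15, 15, 7), [148, 1704], 0⟩,
  mz,
  ⟨⟨1, -12, 35, -16, -25, -2, 22, -16, -5⟩, (.cons (nat_lit 66) (nat_lit 1765) (nat_lit 2096) (nat_lit 1)
 (.cons (nat_lit 571) (nat_lit 640) (nat_lit 1013) (nat_lit 1) .nil)), (nat_lit 2), (nat_lit 0), (nat_lit 0),
 (nat_lit 0), (1, 15, 22), [609, 1800], 0⟩,
  mz,
  ⟨⟨-31, 0, 0, 10, 19, -30, -4, -20, -19⟩, (.cons (nat_lit 2196) (nat_lit 1242) (nat_lit 2084) (nat_lit 1)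
 (.cons (nat_lit 2208) (nat_lit 291) (nat_lit 1993) (nat_lit 1) .nil)), (nat_lit 8), (nat_lit 0), (nat_lit 0),
 (nat_lit 0), (0, 5, 29), [635, 167], 0⟩,
  mz,
  mz,
  mz,
  mz,
  ⟨⟨-31, 0, 0, 10, -19, -30, -4, 20, -19⟩, (.cons (nat_lit 2141) (nat_lit 1424) (nat_lit 1) (nat_lit 1430)
 (.cons (nat_lit 649) (nat_lit 2016) (nat_lit 1362) (nat_lit 1) .nil)), (nat_lit 8), (nat_lit 0), (nat_lit 0),
 (nat_lit 0), (0, 3, 5), [74, 2126], 0⟩,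
  ⟨⟨27, -16, -28, -4, 15, -28, -6, -24, -11⟩, (.cons (nat_lit 2196) (nat_lit 2105) (nat_lit 331) (nat_lit 1)
 (.cons (nat_lit 2208) (nat_lit 1558) (nat_lit 96) (nat_lit 1) .nil)), (nat_lit 14), (nat_lit 0), (nat_lit 0),
 (nat_lit 0), (28, 28, 11), [729, 2157], 0⟩,
  ⟨⟨3, 20, -32, 4, -25, -22, 26, 8, -19⟩, (.cons (nat_lit 1450) (nat_lit 1345) (nat_lit 447) (nat_lit 1) (.cons
 (nat_lit 1690) (nat_lit 1066) (nat_lit 1940) (nat_lit 1) .nil)), (nat_lit 26), (nat_lit 0), (nat_lit 0),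
 (nat_lit 0), (10, 3, 4), [1701, 268], 0⟩,
  mz,
  mz,
  ⟨⟨1, -12, -36, 16, 25, -18, 22, -16, -17⟩, (.cons (nat_lit 326) (nat_lit 1824) (nat_lit 824) (nat_lit 1)
 (.cons (nat_lit 1524) (nat_lit 1284) (nat_lit 1294) (nat_lit 1) .nil)), (nat_lit 1), (nat_lit 0), (nat_lit 0),
 (nat_lit 0), (21, 26, 28), [841, 1732], 0⟩,
  ⟨⟨-9, 8, -31, 10, 29, 0, 20, -4, -31⟩, (.cons (nat_lit 1187) (nat_lit 722) (nat_lit 1185) (nat_lit 1) (.cons
 (nat_lit 179) (nat_lit 1665) (nat_lit 1030) (nat_lit 1) .nil)), (nat_lit 22), (nat_lit 0), (nat_lit 0),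
 (nat_lit 0), (2, 15, 30), [1159, 1684], 0⟩,
  ⟨⟨9, 8, -40, -10, 29, 10, -20, -4, -11⟩, (.cons (nat_lit 2192) (nat_lit 1295) (nat_lit 1123) (nat_lit 1)
 (.cons (nat_lit 1137) (nat_lit 772) (nat_lit 1508) (nat_lit 1) .nil)), (nat_lit 22), (nat_lit 0), (nat_lit 0),
 (nat_lit 0), (27, 1, 2), [550, 1120], 0⟩,
  ⟨⟨-27, 16, -1, 4, -15, -32, 6, 24, -17⟩, (.cons (nat_lit 421) (nat_lit 665) (nat_lit 788) (nat_lit 1) (.cons
 (nat_lit 1218) (nat_lit 1997) (nat_lit 503) (nat_lit 1) .nil)), (nat_lit 14), (nat_lit 0), (nat_lit 0),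
 (nat_lit 0), (2, 2, 3), [133, 952], 0⟩,
  ⟨⟨9, -8, -40, -10, -29, 10, -20, 4, -11⟩, (.cons (nat_lit 2196) (nat_lit 1965) (nat_lit 778) (nat_lit 1)
 (.cons (nat_lit 2208) (nat_lit 907) (nat_lit 1652) (nat_lit 1) .nil)), (nat_lit 22), (nat_lit 0), (nat_lit 0),
 (nat_lit 0), (18, 11, 22), [1783, 1537], 0⟩,
  ⟨⟨23, 12, 13, -4, -25, 22, 26, -8, -19⟩, (.cons (nat_lit 528) (nat_lit 2141) (nat_lit 91) (nat_lit 1) (.cons
 (nat_lit 118) (nat_lit 978) (nat_lit 1902) (nat_lit 1) .nil)), (nat_lit 28), (nat_lit 0), (nat_lit 0),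
 (nat_lit 0), (23, 27, 26), [781, 349], 0⟩,
  ⟨⟨-9, -8, -31, 10, -29, 0, 20, 4, -31⟩, (.cons (nat_lit 628) (nat_lit 1494) (nat_lit 566) (nat_lit 1) (.cons
 (nat_lit 1881) (nat_lit 1001) (nat_lit 1591) (nat_lit 1) .nil)), (nat_lit 22), (nat_lit 0), (nat_lit 0),
 (nat_lit 0), (24, 25, 19), [1622, 503], 0⟩,
  ⟨⟨31, 0, -31, -10, 19, -20, 4, -20, -23⟩, (.cons (nat_lit 1233) (nat_lit 1959) (nat_lit 1911) (nat_lit 1)
 (.cons (nat_lit 283) (nat_lit 432) (nat_lit 686) (nat_lit 1) .nil)), (nat_lit 8), (nat_lit 0), (nat_lit 0),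
 (nat_lit 0), (0, 22, 16), [114, 1953], 0⟩,
  ⟨⟨1, 12, 35, -16, 25, -2, 22, 16, -5⟩, (.cons (nat_lit 1464) (nat_lit 1885) (nat_lit 283) (nat_lit 1) (.cons
 (nat_lit 1669) (nat_lit 1347) (nat_lit 77) (nat_lit 1) .nil)), (nat_lit 2), (nat_lit 0), (nat_lit 0), (nat_lit
 0), (30, 16, 9), [1039, 262], 0⟩,
  ⟨⟨33, -8, -16, 4, 15, -32, 6, -24, -17⟩, (.cons (nat_lit 2196) (nat_lit 1798) (nat_lit 1210) (nat_lit 1)
 (.cons (nat_lit 2208) (nat_lit 1168) (nat_lit 186) (nat_lit 1) .nil)), (nat_lit 27), (nat_lit 0), (nat_lit 0),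
 (nat_lit 0), (23, 15, 7), [1702, 1687], 0⟩,
  ⟨⟨1, 12, -36, 16, -25, -18, 22, 16, -17⟩, (.cons (nat_lit 1645) (nat_lit 2195) (nat_lit 167) (nat_lit 1)
 (.cons (nat_lit 1878) (nat_lit 1251) (nat_lit 1178) (nat_lit 1) .nil)), (nat_lit 1), (nat_lit 0), (nat_lit 0),
 (nat_lit 0), (19, 25, 15), [167, 1114], 0⟩,
  ⟨⟨31, 0, -31, -10, -19, -20, 4, 20, -23⟩, (.cons (nat_lit 682) (nat_lit 822) (nat_lit 675) (nat_lit 1) (.cons
 (nat_lit 9) (nat_lit 512) (nat_lit 1458) (nat_lit 1) .nil)), (nat_lit 8), (nat_lit 0), (nat_lit 0), (nat_lit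
 0), (0, 20, 23), [1332, 387], 0⟩]

/-- Moves. -/
noncomputable def t4_5 : List Mv := [
  mz,
  ⟨⟨23, -12, -36, -4, 25, -18, 26, 8, -7⟩, (.cons (nat_lit 1198) (nat_lit 199) (nat_lit 2058) (nat_lit 1)
 (.cons (nat_lit 634) (nat_lit 2106) (nat_lit 1999) (nat_lit 1) .nil)), (nat_lit 28), (nat_lit 0), (nat_lit 0),
 (nat_lit 0), (3, 17, 29), [450, 779], 0⟩,
  ⟨⟨3, -20, 29, -4, -25, -18, 26, -8, -7⟩, (.cons (nat_lit 1964) (nat_lit 406) (nat_lit 634) (nat_lit 1) (.cons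
 (nat_lit 1296) (nat_lit 1144) (nat_lit 1507) (nat_lit 1) .nil)), (nat_lit 6), (nat_lit 0), (nat_lit 0),
 (nat_lit 0), (19, 16, 20), [1545, 712], 0⟩,
  mz,
  ⟨⟨-33, 8, 17, 4, 15, 28, -6, 24, -11⟩, (.cons (nat_lit 1666) (nat_lit 93) (nat_lit 1488) (nat_lit 1) (.cons
 (nat_lit 1364) (nat_lit 37) (nat_lit 1214) (nat_lit 1) .nil)), (nat_lit 21), (nat_lit 0), (nat_lit 0),
 (nat_lit 0), (23, 16, 7), [1952, 1734], 0⟩,
  mz,
  ⟨⟨1, -12, 35, -16, -25, -2, 22, -16, -5⟩, (.cons (nat_lit 66) (nat_lit 1765) (nat_lit 2096) (nat_lit 1)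
 (.cons (nat_lit 571) (nat_lit 640) (nat_lit 1013) (nat_lit 1) .nil)), (nat_lit 2), (nat_lit 0), (nat_lit 0),
 (nat_lit 0), (1, 15, 22), [609, 1800], 0⟩,
  mz,
  ⟨⟨27, -20, -19, 10, 19, -30, -4, -20, -19⟩, (.cons (nat_lit 2099) (nat_lit 843) (nat_lit 533) (nat_lit 1)
 (.cons (nat_lit 1928) (nat_lit 2106) (nat_lit 583) (nat_lit 1) .nil)), (nat_lit 25), (nat_lit 0), (nat_lit 0),
 (nat_lit 0), (29, 5, 29), [750, 543], 0⟩,
  mz,
  mz,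
  mz,
  mz,
  ⟨⟨-31, 0, 0, 10, -19, -30, -4, 20, -19⟩, (.cons (nat_lit 2141) (nat_lit 1424) (nat_lit 1) (nat_lit 1430)
 (.cons (nat_lit 649) (nat_lit 2016) (nat_lit 1362) (nat_lit 1) .nil)), (nat_lit 8), (nat_lit 0), (nat_lit 0),
 (nat_lit 0), (0, 3, 5), [74, 2126], 0⟩,
  ⟨⟨27, -16, -28, -4, 15, -28, -6, -24, -11⟩, (.cons (nat_lit 2196) (nat_lit 2105) (nat_lit 331) (nat_lit 1)
 (.cons (nat_lit 2208) (nat_lit 1558) (nat_lit 96) (nat_lit 1) .nil)), (nat_lit 14), (nat_lit 0), (nat_lit 0),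
 (nat_lit 0), (28, 28, 11), [729, 2157], 0⟩,
  ⟨⟨3, 20, -32, 4, -25, -22, 26, 8, -19⟩, (.cons (nat_lit 1450) (nat_lit 1345) (nat_lit 447) (nat_lit 1) (.cons
 (nat_lit 1690) (nat_lit 1066) (nat_lit 1940) (nat_lit 1) .nil)), (nat_lit 26), (nat_lit 0), (nat_lit 0),
 (nat_lit 0), (10, 3, 4), [1701, 268], 0⟩,
  mz,
  mz,
  ⟨⟨1, -12, -36, 16, 25, -18, 22, -16, -17⟩, (.cons (nat_lit 326) (nat_lit 1824) (nat_lit 824) (nat_lit 1)
 (.cons (nat_lit 1524) (nat_lit 1284) (nat_lit 1294) (nat_lit 1) .nil)), (nat_lit 1), (nat_lit 0), (nat_lit 0),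
 (nat_lit 0), (21, 26, 28), [841, 1732], 0⟩,
  ⟨⟨29, -12, 0, 10, 29, 0, 20, -4, -31⟩, (.cons (nat_lit 1711) (nat_lit 2052) (nat_lit 1943) (nat_lit 1) (.cons
 (nat_lit 1842) (nat_lit 1061) (nat_lit 1124) (nat_lit 1) .nil)), (nat_lit 24), (nat_lit 0), (nat_lit 0),
 (nat_lit 0), (28, 15, 30), [1174, 2201], 0⟩,
  ⟨⟨9, 8, -40, 10, -29, -10, -20, -4, -11⟩, (.cons (nat_lit 2196) (nat_lit 1167) (nat_lit 1280) (nat_lit 1)
 (.cons (nat_lit 2208) (nat_lit 458) (nat_lit 1911) (nat_lit 1) .nil)), (nat_lit 20), (nat_lit 0), (nat_lit 0),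
 (nat_lit 0), (27, 30, 2), [1775, 738], 0⟩,
  ⟨⟨-27, 16, -1, -4, 15, 32, 6, 24, -17⟩, (.cons (nat_lit 1866) (nat_lit 25) (nat_lit 400) (nat_lit 1) (.cons
 (nat_lit 847) (nat_lit 1796) (nat_lit 1136) (nat_lit 1) .nil)), (nat_lit 4), (nat_lit 0), (nat_lit 0),
 (nat_lit 0), (2, 29, 3), [501, 2110], 0⟩,
  ⟨⟨9, -8, -40, 10, 29, -10, -20, 4, -11⟩, (.cons (nat_lit 1318) (nat_lit 259) (nat_lit 664) (nat_lit 1) (.cons
 (nat_lit 68) (nat_lit 520) (nat_lit 1279) (nat_lit 1) .nil)), (nat_lit 20), (nat_lit 0), (nat_lit 0), (nat_lit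
 0), (18, 20, 22), [22, 984], 0⟩,
  ⟨⟨3, -20, -32, -4, -25, 22, 26, -8, -19⟩, (.cons (nat_lit 1421) (nat_lit 1876) (nat_lit 699) (nat_lit 1)
 (.cons (nat_lit 1715) (nat_lit 1419) (nat_lit 1667) (nat_lit 1) .nil)), (nat_lit 6), (nat_lit 0), (nat_lit 0),
 (nat_lit 0), (3, 27, 26), [2039, 1759], 0⟩,
  ⟨⟨29, 12, 0, -10, 29, 0, 20, 4, -31⟩, (.cons (nat_lit 330) (nat_lit 1713) (nat_lit 334) (nat_lit 1) (.cons
 (nat_lit 632) (nat_lit 984) (nat_lit 930) (nat_lit 1) .nil)), (nat_lit 19), (nat_lit 0), (nat_lit 0), (nat_lit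
 0), (26, 6, 19), [776, 1031], 0⟩,
  ⟨⟨31, 0, -31, 10, -19, 20, 4, -20, -23⟩, (.cons (nat_lit 1186) (nat_lit 810) (nat_lit 835) (nat_lit 1) (.cons
 (nat_lit 209) (nat_lit 83) (nat_lit 350) (nat_lit 1) .nil)), (nat_lit 13), (nat_lit 0), (nat_lit 0), (nat_lit
 0), (0, 9, 16), [735, 574], 0⟩,
  ⟨⟨1, 12, 35, 16, -25, 2, 22, 16, -5⟩, (.cons (nat_lit 2024) (nat_lit 1732) (nat_lit 1081) (nat_lit 1) (.cons
 (nat_lit 732) (nat_lit 1331) (nat_lit 398) (nat_lit 1) .nil)), (nat_lit 1), (nat_lit 0), (nat_lit 0), (nat_lit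
 0), (30, 15, 9), [522, 430], 0⟩,
  ⟨⟨33, -8, -16, 4, 15, -32, 6, -24, -17⟩, (.cons (nat_lit 2196) (nat_lit 1798) (nat_lit 1210) (nat_lit 1)
 (.cons (nat_lit 2208) (nat_lit 1168) (nat_lit 186) (nat_lit 1) .nil)), (nat_lit 27), (nat_lit 0), (nat_lit 0),
 (nat_lit 0), (23, 15, 7), [1702, 1687], 0⟩,
  ⟨⟨1, 12, -36, 16, -25, -18, 22, 16, -17⟩, (.cons (nat_lit 1645) (nat_lit 2195) (nat_lit 167) (nat_lit 1)
 (.cons (nat_lit 1878) (nat_lit 1251) (nat_lit 1178) (nat_lit 1) .nil)), (nat_lit 1), (nat_lit 0), (nat_lit 0),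
 (nat_lit 0), (19, 25, 15), [167, 1114], 0⟩,
  ⟨⟨-27, 20, 8, 10, 19, 20, 4, 20, -23⟩, (.cons (nat_lit 2196) (nat_lit 911) (nat_lit 1562) (nat_lit 1) (.cons
 (nat_lit 2208) (nat_lit 1597) (nat_lit 17) (nat_lit 1) .nil)), (nat_lit 29), (nat_lit 0), (nat_lit 0),
 (nat_lit 0), (23, 11, 23), [1090, 2188], 0⟩]

/-- All the moves. -/
noncomputable def tabs : List (List (List Mv)) := [[[], [], t0_2, [], t0_4, t0_5], [[], [], t1_2, [], t1_4, t1_5], [], [], [[], [], t4_2, [], t4_4, t4_5]]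

/-- Subtrie. -/
noncomputable def T2 : Tr := (.ev (nat_lit 20) (nat_lit 7913488) (.nd (nat_lit 33) (.br (nat_lit 25) (.br
 (nat_lit 14) (.br (nat_lit 5) (.br (nat_lit 2) (.ch (nat_lit 1) (.ev (nat_lit 52) (nat_lit 209723456) (.ev
 (nat_lit 116) (nat_lit 285212672) (.nd (nat_lit 496) (.br (nat_lit 9) (.br (nat_lit 5) (.ch (nat_lit 4) (.ev
 (nat_lit 512) (nat_lit 537133062) (.ev (nat_lit 528) (nat_lit 33554432) (.ev (nat_lit 541) (nat_lit 256)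
 .dd)))) (.ch (nat_lit 5) (.ev (nat_lit 512) (nat_lit 536871168) (.ev (nat_lit 592) (nat_lit 4) (.ev (nat_lit
 1408) (nat_lit 262144) (.ev (nat_lit 1872) (nat_lit 33554434) .dd)))))) (.br (nat_lit 10) (.ch (nat_lit 9)
 (.ev (nat_lit 512) (nat_lit 570425602) (.ev (nat_lit 756) (nat_lit 4) (.ev (nat_lit 765) (nat_lit 262144)
 .dd)))) (.ch (nat_lit 10) (.ev (nat_lit 512) (nat_lit 33816832) (.ev (nat_lit 1476) (nat_lit 4) (.nd (nat_lit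
 2256) (.br (nat_lit 12) (.ch (nat_lit 6) (.fin (nat_lit 576448107907596860))) (.ch (nat_lit 12) (.ev (nat_lit
 2272) (nat_lit 536870914) .dd))))))))))))) (.br (nat_lit 3) (.ch (nat_lit 2) (.ev (nat_lit 52) (nat_lit
 327163908) (.ev (nat_lit 84) (nat_lit 262144) (.ev (nat_lit 116) (nat_lit 67108864) (.ev (nat_lit 144)
 (nat_lit 671088962) .dd))))) (.ch (nat_lit 3) (.ev (nat_lit 52) (nat_lit 301990144) (.ev (nat_lit 84) (nat_lit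
 70) (.nd (nat_lit 496) (.br (nat_lit 9) (.br (nat_lit 5) (.ch (nat_lit 1) (.ev (nat_lit 512) (nat_lit
 738467840) (.ev (nat_lit 1072) (nat_lit 8388608) (.ev (nat_lit 1085) (nat_lit 16777216) .dd)))) (.br (nat_lit
 6) (.ch (nat_lit 5) (.ev (nat_lit 512) (nat_lit 679747584) (.ev (nat_lit 1734) (nat_lit 83886080) .dd))) (.ch
 (nat_lit 6) (.ev (nat_lit 512) (nat_lit 545521664) (.ev (nat_lit 1088) (nat_lit 67108864) (.ev (nat_lit 1152)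
 (nat_lit 8192) (.ev (nat_lit 1476) (nat_lit 134217728) (.ev (nat_lit 1485) (nat_lit 16777216) .dd)))))))) (.br
 (nat_lit 10) (.ch (nat_lit 9) (.ev (nat_lit 512) (nat_lit 8388608) (.ev (nat_lit 836) (nat_lit 262144) (.ev
 (nat_lit 1476) (nat_lit 8192) (.ev (nat_lit 1488) (nat_lit 134217728) (.ev (nat_lit 1604) (nat_lit 16777216)
 (.ev (nat_lit 1984) (nat_lit 536870912) (.ev (nat_lit 1997) (nat_lit 67108864) .dd)))))))) (.br (nat_lit 12)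
 (.ch (nat_lit 10) (.ev (nat_lit 512) (nat_lit 134488064) (.ev (nat_lit 580) (nat_lit 8388608) (.ev (nat_lit
 1556) (nat_lit 16777216) (.nd (nat_lit 2256) (.br (nat_lit 6) (.ch (nat_lit 0) (.ev (nat_lit 2272) (nat_lit
 536870912) (.ev (nat_lit 2285) (nat_lit 67108864) .dd))) (.ch (nat_lit 6) (.fin (nat_lit
 576453605481464388))))))))) (.ch (nat_lit 12) (.ev (nat_lit 512) (nat_lit 696262656) (.ev (nat_lit 1136)
 (nat_lit 67108864) (.ev (nat_lit 1149) (nat_lit 262144) .dd))))))))))))) (.br (nat_lit 11) (.br (nat_lit 9)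
 (.ch (nat_lit 5) (.ev (nat_lit 52) (nat_lit 453246980) (.ev (nat_lit 164) (nat_lit 256) (.ev (nat_lit 308)
 (nat_lit 2) (.nd (nat_lit 496) (.br (nat_lit 5) (.br (nat_lit 4) (.ch (nat_lit 0) (.ev (nat_lit 512) (nat_lit
 75505728) (.ev (nat_lit 525) (nat_lit 536870912) .dd))) (.ch (nat_lit 4) (.ev (nat_lit 512) (nat_lit 8388608)
 (.ev (nat_lit 560) (nat_lit 67108864) (.ev (nat_lit 1264) (nat_lit 64) (.ev (nat_lit 1782) (nat_lit 536879104)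
 .dd)))))) (.br (nat_lit 10) (.ch (nat_lit 5) (.ev (nat_lit 512) (nat_lit 536879104) (.ev (nat_lit 528)
 (nat_lit 8388608) (.ev (nat_lit 1408) (nat_lit 64) (.ev (nat_lit 1421) (nat_lit 67108864) .dd))))) (.ch
 (nat_lit 10) (.ev (nat_lit 512) (nat_lit 545259584) (.ev (nat_lit 740) (nat_lit 8192) (.ev (nat_lit 749)
 (nat_lit 67108864) .dd))))))))))) (.ch (nat_lit 9) (.ev (nat_lit 52) (nat_lit 813957440) (.ev (nat_lit 96)
 (nat_lit 251666438) .dd)))) (.br (nat_lit 12) (.ch (nat_lit 11) (.ev (nat_lit 52) (nat_lit 621019460) (.ev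
 (nat_lit 84) (nat_lit 8388610) (.nd (nat_lit 496) (.br (nat_lit 5) (.br (nat_lit 4) (.ch (nat_lit 1) (.ev
 (nat_lit 560) (nat_lit 268435456) (.ev (nat_lit 612) (nat_lit 33554432) (.ev (nat_lit 1332) (nat_lit 8192)
 (.ev (nat_lit 1341) (nat_lit 134217728) .dd))))) (.ch (nat_lit 4) (.ev (nat_lit 512) (nat_lit 268435456) (.ev
 (nat_lit 544) (nat_lit 8192) (.ev (nat_lit 2048) (nat_lit 33554432) (.ev (nat_lit 2061) (nat_lit 134217728)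
 .dd)))))) (.br (nat_lit 9) (.ch (nat_lit 5) (.ev (nat_lit 512) (nat_lit 402661376) (.ev (nat_lit 525) (nat_lit
 33554432) .dd))) (.br (nat_lit 12) (.ch (nat_lit 9) (.ev (nat_lit 512) (nat_lit 134217728) (.ev (nat_lit 580)
 (nat_lit 268435456) (.ev (nat_lit 2112) (nat_lit 33562624) .dd)))) (.ch (nat_lit 12) (.ev (nat_lit 512)
 (nat_lit 436215808) .dd))))))))) (.ch (nat_lit 12) (.ev (nat_lit 52) (nat_lit 268706116) (.ev (nat_lit 116)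
 (nat_lit 33554432) (.nd (nat_lit 496) (.br (nat_lit 6) (.br (nat_lit 1) (.ch (nat_lit 0) (.ev (nat_lit 512)
 (nat_lit 629145602) (.ev (nat_lit 525) (nat_lit 134217728) .dd))) (.ch (nat_lit 1) (.ev (nat_lit 512) (nat_lit
 75497474) (.ev (nat_lit 580) (nat_lit 16777216) (.ev (nat_lit 2080) (nat_lit 536870912) (.ev (nat_lit 2093)
 (nat_lit 134217728) .dd)))))) (.br (nat_lit 9) (.ch (nat_lit 6) (.ev (nat_lit 512) (nat_lit 536870914) (.ev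
 (nat_lit 544) (nat_lit 67108864) (.ev (nat_lit 644) (nat_lit 134217728) (.ev (nat_lit 820) (nat_lit 16777216)
 (.ev (nat_lit 829) (nat_lit 8388608) .dd)))))) (.br (nat_lit 10) (.ch (nat_lit 9) (.ev (nat_lit 512) (nat_lit
 696254466) (.ev (nat_lit 525) (nat_lit 67108864) .dd))) (.ch (nat_lit 10) (.ev (nat_lit 512) (nat_lit
 67108864) (.ev (nat_lit 676) (nat_lit 134217728) (.ev (nat_lit 708) (nat_lit 16777216) (.ev (nat_lit 1172)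
 (nat_lit 8388608) (.fin (nat_lit 576474496213926468))))))))))))))))) (.br (nat_lit 19) (.br (nat_lit 16) (.br
 (nat_lit 15) (.ch (nat_lit 14) (.ev (nat_lit 52) (nat_lit 671358976) (.ev (nat_lit 64) (nat_lit 394264902)
 .dd))) (.ch (nat_lit 15) (.ev (nat_lit 52) (nat_lit 151265346) (.ev (nat_lit 84) (nat_lit 536870912) (.ev
 (nat_lit 116) (nat_lit 33554432) (.ev (nat_lit 144) (nat_lit 343933188) .dd)))))) (.br (nat_lit 18) (.ch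
 (nat_lit 16) (.ev (nat_lit 52) (nat_lit 33816640) (.ev (nat_lit 84) (nat_lit 553648384) (.ev (nat_lit 116)
 (nat_lit 8388612) (.ev (nat_lit 244) (nat_lit 268435456) (.nd (nat_lit 496) (.br (nat_lit 9) (.br (nat_lit 4)
 (.ch (nat_lit 1) (.ev (nat_lit 512) (nat_lit 67108866) (.ev (nat_lit 592) (nat_lit 8192) (.ev (nat_lit 605)
 (nat_lit 134217728) .dd)))) (.ch (nat_lit 4) (.ev (nat_lit 512) (nat_lit 201326592) (.fin (nat_lit
 576462401578680898))))) (.br (nat_lit 10) (.ch (nat_lit 9) (.ev (nat_lit 512) (nat_lit 201334786) .dd)) (.ch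
 (nat_lit 10) (.ev (nat_lit 512) (nat_lit 2) (.ev (nat_lit 560) (nat_lit 8192) (.fin (nat_lit
 576465700104127060))))))))))))) (.ch (nat_lit 18) (.ev (nat_lit 52) (nat_lit 142614790) (.ev (nat_lit 84)
 (nat_lit 16777216) (.nd (nat_lit 496) (.br (nat_lit 4) (.br (nat_lit 1) (.ch (nat_lit 0) (.ev (nat_lit 512)
 (nat_lit 335806528) (.ev (nat_lit 1136) (nat_lit 536870912) (.ev (nat_lit 1149) (nat_lit 33554432) .dd))))
 (.br (nat_lit 2) (.ch (nat_lit 1) (.ev (nat_lit 512) (nat_lit 369360896) (.nd (nat_lit 2256) (.br (nat_lit 9)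
 (.ch (nat_lit 0) (.fin (nat_lit 576464600599839301))) (.ch (nat_lit 9) (.ev (nat_lit 2272) (nat_lit 536870912)
 (.ev (nat_lit 2285) (nat_lit 64) .dd))))))) (.ch (nat_lit 2) (.ev (nat_lit 512) (nat_lit 369360896) (.ev
 (nat_lit 1088) (nat_lit 536870912) (.ev (nat_lit 1101) (nat_lit 64) .dd)))))) (.br (nat_lit 5) (.ch (nat_lit
 4) (.ev (nat_lit 512) (nat_lit 268697600) (.ev (nat_lit 1636) (nat_lit 67108864) (.ev (nat_lit 1952) (nat_lit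
 64) (.ev (nat_lit 1972) (nat_lit 33554432) (.ev (nat_lit 1981) (nat_lit 536870912) .dd)))))) (.br (nat_lit 10)
 (.ch (nat_lit 5) (.ev (nat_lit 512) (nat_lit 637534208) (.ev (nat_lit 580) (nat_lit 262144) (.ev (nat_lit
 1072) (nat_lit 268435456) (.ev (nat_lit 1085) (nat_lit 64) .dd))))) (.ch (nat_lit 10) (.ev (nat_lit 512)
 (nat_lit 33816576) (.ev (nat_lit 580) (nat_lit 268435456) (.ev (nat_lit 1152) (nat_lit 64) (.fin (nat_lit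
 576468998640058940))))))))))))))) (.br (nat_lit 21) (.br (nat_lit 20) (.ch (nat_lit 19) (.ev (nat_lit 52)
 (nat_lit 578814210) (.ev (nat_lit 84) (nat_lit 64) (.ev (nat_lit 116) (nat_lit 134225920) (.ev (nat_lit 164)
 (nat_lit 4) (.ev (nat_lit 196) (nat_lit 268435456) (.nd (nat_lit 496) (.br (nat_lit 6) (.br (nat_lit 4) (.ch
 (nat_lit 1) (.ev (nat_lit 512) (nat_lit 67108864) (.ev (nat_lit 688) (nat_lit 16777216) (.ev (nat_lit 701)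
 (nat_lit 262144) .dd)))) (.br (nat_lit 5) (.ch (nat_lit 4) (.ev (nat_lit 512) (nat_lit 84148224) .dd)) (.ch
 (nat_lit 5) (.ev (nat_lit 512) (nat_lit 262144) (.ev (nat_lit 804) (nat_lit 67108864) (.ev (nat_lit 813)
 (nat_lit 16777216) .dd)))))) (.br (nat_lit 10) (.br (nat_lit 9) (.ch (nat_lit 6) (.ev (nat_lit 512) (nat_lit
 16777216) (.fin (nat_lit 576470098150638148)))) (.ch (nat_lit 9) (.ev (nat_lit 512) (nat_lit 16777216) (.ev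
 (nat_lit 740) (nat_lit 67108864) (.ev (nat_lit 749) (nat_lit 262144) .dd))))) (.br (nat_lit 12) (.ch (nat_lit
 10) (.ev (nat_lit 512) (nat_lit 67371008) (.ev (nat_lit 525) (nat_lit 16777216) .dd))) (.ch (nat_lit 12) (.ev
 (nat_lit 512) (nat_lit 16777216) (.ev (nat_lit 772) (nat_lit 67108864) (.ev (nat_lit 781) (nat_lit 262144)
 .dd)))))))))))))) (.ch (nat_lit 20) (.ev (nat_lit 52) (nat_lit 662962242) (.ev (nat_lit 116) (nat_lit 8448)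
 (.ev (nat_lit 212) (nat_lit 268435456) (.ev (nat_lit 320) (nat_lit 134217732) .dd)))))) (.br (nat_lit 22) (.ch
 (nat_lit 21) (.ev (nat_lit 52) (nat_lit 562299138) (.ev (nat_lit 84) (nat_lit 8196) (.ev (nat_lit 164)
 (nat_lit 67108864) (.nd (nat_lit 496) (.br (nat_lit 4) (.br (nat_lit 1) (.ch (nat_lit 0) (.ev (nat_lit 512)
 (nat_lit 268435520) (.ev (nat_lit 580) (nat_lit 134217728) (.ev (nat_lit 589) (nat_lit 33554432) .dd)))) (.br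
 (nat_lit 2) (.ch (nat_lit 1) (.ev (nat_lit 512) (nat_lit 33554432) (.ev (nat_lit 612) (nat_lit 268435456) (.ev
 (nat_lit 1840) (nat_lit 134217792) .dd)))) (.ch (nat_lit 2) (.ev (nat_lit 512) (nat_lit 436207680) .dd))))
 (.br (nat_lit 9) (.br (nat_lit 5) (.ch (nat_lit 4) (.ev (nat_lit 512) (nat_lit 268435520) (.ev (nat_lit 580)
 (nat_lit 33554432) (.ev (nat_lit 589) (nat_lit 134217728) .dd)))) (.ch (nat_lit 5) (.ev (nat_lit 512) (nat_lit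
 134217728) (.ev (nat_lit 580) (nat_lit 268435456) (.ev (nat_lit 688) (nat_lit 64) (.ev (nat_lit 701) (nat_lit
 33554432) .dd)))))) (.br (nat_lit 10) (.ch (nat_lit 9) (.ev (nat_lit 512) (nat_lit 268435520) (.ev (nat_lit
 1904) (nat_lit 167772160) .dd))) (.ch (nat_lit 10) (.ev (nat_lit 512) (nat_lit 436207616) (.ev (nat_lit 525)
 (nat_lit 64) .dd))))))))))) (.ch (nat_lit 22) (.ev (nat_lit 52) (nat_lit 570433540) (.ev (nat_lit 84) (nat_lit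
 201326592) (.ev (nat_lit 116) (nat_lit 2) (.ev (nat_lit 164) (nat_lit 262400) (.nd (nat_lit 496) (.br (nat_lit
 5) (.br (nat_lit 2) (.ch (nat_lit 1) (.ev (nat_lit 1524) (nat_lit 64) (.ev (nat_lit 1542) (nat_lit 293601280)
 .dd))) (.ch (nat_lit 2) (.ev (nat_lit 948) (nat_lit 268435456) (.ev (nat_lit 1252) (nat_lit 8388608) (.ev
 (nat_lit 1588) (nat_lit 64) (.ev (nat_lit 1597) (nat_lit 16777216) .dd)))))) (.br (nat_lit 6) (.ch (nat_lit 5)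
 (.ev (nat_lit 948) (nat_lit 64) (.ev (nat_lit 1524) (nat_lit 16777216) (.ev (nat_lit 1636) (nat_lit 8388608)
 (.ev (nat_lit 1645) (nat_lit 268435456) .dd))))) (.br (nat_lit 10) (.ch (nat_lit 6) (.ev (nat_lit 1524)
 (nat_lit 268435456) (.ev (nat_lit 1684) (nat_lit 64) (.ev (nat_lit 1748) (nat_lit 16777216) (.ev (nat_lit
 1757) (nat_lit 8388608) .dd))))) (.ch (nat_lit 10) (.ev (nat_lit 1044) (nat_lit 64) (.ev (nat_lit 1124)
 (nat_lit 285212672) (.ev (nat_lit 1133) (nat_lit 8388608) .dd))))))))))))))))) (.br (nat_lit 33) (.br (nat_lit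
 28) (.br (nat_lit 26) (.ch (nat_lit 25) (.ev (nat_lit 52) (nat_lit 536879364) (.ev (nat_lit 84) (nat_lit
 16777216) (.ev (nat_lit 116) (nat_lit 33554432) (.nd (nat_lit 496) (.br (nat_lit 5) (.br (nat_lit 4) (.ch
 (nat_lit 2) (.ev (nat_lit 512) (nat_lit 201588736) (.ev (nat_lit 612) (nat_lit 2) (.ev (nat_lit 1424) (nat_lit
 276824064) (.ev (nat_lit 1437) (nat_lit 64) .dd))))) (.ch (nat_lit 4) (.ev (nat_lit 512) (nat_lit 478412866)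
 .dd))) (.br (nat_lit 10) (.ch (nat_lit 5) (.ev (nat_lit 512) (nat_lit 402915328) (.ev (nat_lit 580) (nat_lit
 8388608) (.ev (nat_lit 612) (nat_lit 67108866) (.ev (nat_lit 621) (nat_lit 64) .dd))))) (.br (nat_lit 12) (.ch
 (nat_lit 10) (.ev (nat_lit 512) (nat_lit 8650752) (.ev (nat_lit 544) (nat_lit 64) (.ev (nat_lit 1124) (nat_lit
 2) (.ev (nat_lit 1424) (nat_lit 268435456) (.fin (nat_lit 576456904017396268))))))) (.ch (nat_lit 12) (.ev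
 (nat_lit 512) (nat_lit 478150720) (.ev (nat_lit 896) (nat_lit 2) (.ev (nat_lit 909) (nat_lit 262144)
 .dd)))))))))))) (.br (nat_lit 27) (.ch (nat_lit 26) (.ev (nat_lit 52) (nat_lit 109060102) (.ev (nat_lit 96)
 (nat_lit 956563776) .dd))) (.ch (nat_lit 27) (.ev (nat_lit 52) (nat_lit 495198466) (.nd (nat_lit 496) (.br
 (nat_lit 10) (.br (nat_lit 9) (.ch (nat_lit 1) (.ev (nat_lit 512) (nat_lit 33554436) (.fin (nat_lit
 576464600599839301)))) (.ch (nat_lit 9) (.ev (nat_lit 512) (nat_lit 64) (.ev (nat_lit 560) (nat_lit 536870912)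
 (.fin (nat_lit 576474496186663492)))))) (.br (nat_lit 12) (.ch (nat_lit 10) (.ev (nat_lit 512) (nat_lit
 33554496) (.ev (nat_lit 592) (nat_lit 536870912) (.ev (nat_lit 605) (nat_lit 4) .dd)))) (.ch (nat_lit 12) (.ev
 (nat_lit 512) (nat_lit 570425412) .dd))))))))) (.br (nat_lit 31) (.br (nat_lit 29) (.ch (nat_lit 28) (.ev
 (nat_lit 52) (nat_lit 58728706) (.ev (nat_lit 84) (nat_lit 134217732) (.ev (nat_lit 116) (nat_lit 64) (.ev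
 (nat_lit 164) (nat_lit 268435456) (.nd (nat_lit 496) (.br (nat_lit 5) (.br (nat_lit 2) (.ch (nat_lit 1) (.ev
 (nat_lit 512) (nat_lit 67371008) (.ev (nat_lit 525) (nat_lit 536870912) .dd))) (.br (nat_lit 4) (.ch (nat_lit
 2) (.ev (nat_lit 512) (nat_lit 604241920) .dd)) (.ch (nat_lit 4) (.ev (nat_lit 512) (nat_lit 262144) (.ev
 (nat_lit 1220) (nat_lit 536870912) (.ev (nat_lit 1229) (nat_lit 67108864) .dd)))))) (.br (nat_lit 9) (.br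
 (nat_lit 6) (.ch (nat_lit 5) (.ev (nat_lit 512) (nat_lit 536870912) (.ev (nat_lit 1284) (nat_lit 262144) (.ev
 (nat_lit 1293) (nat_lit 67108864) .dd)))) (.ch (nat_lit 6) (.ev (nat_lit 512) (nat_lit 536870912) (.fin
 (nat_lit 576470098150638148))))) (.br (nat_lit 12) (.ch (nat_lit 9) (.ev (nat_lit 512) (nat_lit 67108864) (.ev
 (nat_lit 1312) (nat_lit 536870912) (.ev (nat_lit 1325) (nat_lit 262144) .dd)))) (.ch (nat_lit 12) (.ev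
 (nat_lit 512) (nat_lit 536870912) (.ev (nat_lit 1332) (nat_lit 262144) (.ev (nat_lit 1341) (nat_lit 67108864)
 .dd))))))))))))) (.ch (nat_lit 29) (.ev (nat_lit 52) (nat_lit 729808902) (.ev (nat_lit 84) (nat_lit 67108928)
 (.nd (nat_lit 496) (.br (nat_lit 6) (.br (nat_lit 2) (.ch (nat_lit 1) (.ev (nat_lit 512) (nat_lit 262144) (.ev
 (nat_lit 1044) (nat_lit 268435456) (.ev (nat_lit 1172) (nat_lit 256) (.ev (nat_lit 1181) (nat_lit 8192)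
 .dd))))) (.br (nat_lit 4) (.ch (nat_lit 2) (.ev (nat_lit 512) (nat_lit 256) (.ev (nat_lit 1124) (nat_lit
 262144) (.ev (nat_lit 1172) (nat_lit 268435456) (.ev (nat_lit 1181) (nat_lit 8192) .dd))))) (.ch (nat_lit 4)
 (.ev (nat_lit 512) (nat_lit 268705792) (.ev (nat_lit 525) (nat_lit 256) .dd))))) (.br (nat_lit 10) (.ch
 (nat_lit 6) (.ev (nat_lit 512) (nat_lit 262400) (.ev (nat_lit 628) (nat_lit 8192) (.ev (nat_lit 637) (nat_lit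
 268435456) .dd)))) (.br (nat_lit 12) (.ch (nat_lit 10) (.ev (nat_lit 512) (nat_lit 262400) (.ev (nat_lit 628)
 (nat_lit 8192) (.ev (nat_lit 637) (nat_lit 268435456) .dd)))) (.ch (nat_lit 12) (.ev (nat_lit 512) (nat_lit
 268443904) (.ev (nat_lit 525) (nat_lit 262144) .dd))))))))))) (.br (nat_lit 32) (.ch (nat_lit 31) (.ev
 (nat_lit 52) (nat_lit 486539524) (.ev (nat_lit 84) (nat_lit 262144) (.ev (nat_lit 144) (nat_lit 578822210)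
 .dd)))) (.ch (nat_lit 32) (.ev (nat_lit 52) (nat_lit 1031798784) (.ev (nat_lit 84) (nat_lit 33554432) (.ev
 (nat_lit 164) (nat_lit 256) (.nd (nat_lit 496) (.br (nat_lit 4) (.br (nat_lit 2) (.ch (nat_lit 0) (.ev
 (nat_lit 512) (nat_lit 270342) (.ev (nat_lit 525) (nat_lit 64) .dd))) (.ch (nat_lit 2) (.ev (nat_lit 512)
 (nat_lit 262144) (.ev (nat_lit 560) (nat_lit 4) (.ev (nat_lit 612) (nat_lit 64) (.ev (nat_lit 720) (nat_lit 2)
 (.ev (nat_lit 733) (nat_lit 8192) .dd))))))) (.br (nat_lit 5) (.ch (nat_lit 4) (.ev (nat_lit 512) (nat_lit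
 270336) (.ev (nat_lit 580) (nat_lit 4) (.ev (nat_lit 2176) (nat_lit 66) .dd)))) (.br (nat_lit 6) (.ch (nat_lit
 5) (.ev (nat_lit 512) (nat_lit 8262) (.ev (nat_lit 525) (nat_lit 262144) .dd))) (.ch (nat_lit 6) (.ev (nat_lit
 512) (nat_lit 4) (.ev (nat_lit 544) (nat_lit 2) (.ev (nat_lit 1332) (nat_lit 64) (.ev (nat_lit 1424) (nat_lit
 8192) (.ev (nat_lit 1437) (nat_lit 262144) .dd))))))))))))))))) (.br (nat_lit 42) (.br (nat_lit 36) (.br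
 (nat_lit 35) (.ch (nat_lit 33) (.ev (nat_lit 52) (nat_lit 620765184) (.ev (nat_lit 84) (nat_lit 134217728)
 (.ev (nat_lit 164) (nat_lit 268435456) (.nd (nat_lit 496) (.br (nat_lit 6) (.br (nat_lit 4) (.ch (nat_lit 2)
 (.ev (nat_lit 512) (nat_lit 41943364) (.ev (nat_lit 1556) (nat_lit 262144) (.ev (nat_lit 1565) (nat_lit 2)
 .dd)))) (.br (nat_lit 5) (.ch (nat_lit 4) (.ev (nat_lit 512) (nat_lit 8651076) (.ev (nat_lit 1220) (nat_lit 2)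
 (.ev (nat_lit 1229) (nat_lit 33554432) .dd)))) (.ch (nat_lit 5) (.ev (nat_lit 512) (nat_lit 256) (.ev (nat_lit
 948) (nat_lit 64) (.ev (nat_lit 1220) (nat_lit 33554432) (.ev (nat_lit 1488) (nat_lit 8388608) (.ev (nat_lit
 1622) (nat_lit 262150) .dd)))))))) (.br (nat_lit 9) (.ch (nat_lit 6) (.ev (nat_lit 512) (nat_lit 33554692)
 (.ev (nat_lit 772) (nat_lit 8388608) (.ev (nat_lit 1152) (nat_lit 2) (.ev (nat_lit 1220) (nat_lit 64) (.ev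
 (nat_lit 1229) (nat_lit 262144) .dd)))))) (.br (nat_lit 12) (.ch (nat_lit 9) (.ev (nat_lit 512) (nat_lit
 41943104) (.ev (nat_lit 580) (nat_lit 256) (.ev (nat_lit 1764) (nat_lit 262144) (.nd (nat_lit 2256) (.br
 (nat_lit 5) (.ch (nat_lit 3) (.fin (nat_lit 576455804502622791))) (.ch (nat_lit 5) (.ev (nat_lit 2272)
 (nat_lit 4) (.ev (nat_lit 2285) (nat_lit 2) .dd))))))))) (.ch (nat_lit 12) (.ev (nat_lit 512) (nat_lit
 41943110) (.ev (nat_lit 1136) (nat_lit 262144) (.ev (nat_lit 1149) (nat_lit 256) .dd)))))))))))) (.ch (nat_lit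
 35) (.ev (nat_lit 52) (nat_lit 905969732) (.ev (nat_lit 84) (nat_lit 2) (.ev (nat_lit 144) (nat_lit 159654144)
 .dd))))) (.br (nat_lit 38) (.ch (nat_lit 36) (.ev (nat_lit 52) (nat_lit 503586816) (.ev (nat_lit 84) (nat_lit
 536871168) (.ev (nat_lit 116) (nat_lit 16777280) (.nd (nat_lit 496) (.br (nat_lit 6) (.br (nat_lit 2) (.ch
 (nat_lit 1) (.ev (nat_lit 512) (nat_lit 8388614) .dd)) (.br (nat_lit 4) (.ch (nat_lit 2) (.ev (nat_lit 512)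
 (nat_lit 2) (.fin (nat_lit 576461302066004536)))) (.ch (nat_lit 4) (.ev (nat_lit 512) (nat_lit 2) (.ev
 (nat_lit 708) (nat_lit 8388608) (.ev (nat_lit 717) (nat_lit 4) .dd)))))) (.br (nat_lit 10) (.ch (nat_lit 6)
 (.ev (nat_lit 512) (nat_lit 2) (.ev (nat_lit 756) (nat_lit 8388608) (.ev (nat_lit 765) (nat_lit 4) .dd))))
 (.br (nat_lit 12) (.ch (nat_lit 10) (.ev (nat_lit 512) (nat_lit 2) (.ev (nat_lit 788) (nat_lit 8388608) (.ev
 (nat_lit 797) (nat_lit 4) .dd)))) (.ch (nat_lit 12) (.ev (nat_lit 512) (nat_lit 8388612) (.ev (nat_lit 525)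
 (nat_lit 2) .dd))))))))))) (.ch (nat_lit 38) (.ev (nat_lit 52) (nat_lit 520101954) (.ev (nat_lit 84) (nat_lit
 536870912) (.ev (nat_lit 164) (nat_lit 262144) (.nd (nat_lit 496) (.br (nat_lit 6) (.br (nat_lit 2) (.ch
 (nat_lit 0) (.ev (nat_lit 512) (nat_lit 8388868) .dd)) (.br (nat_lit 5) (.ch (nat_lit 2) (.ev (nat_lit 512)
 (nat_lit 256) (.fin (nat_lit 576461302066004536)))) (.ch (nat_lit 5) (.ev (nat_lit 512) (nat_lit 256) (.ev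
 (nat_lit 1252) (nat_lit 4) (.ev (nat_lit 1261) (nat_lit 8388608) .dd)))))) (.br (nat_lit 9) (.ch (nat_lit 6)
 (.ev (nat_lit 512) (nat_lit 256) (.ev (nat_lit 1332) (nat_lit 8388608) (.ev (nat_lit 1341) (nat_lit 4) .dd))))
 (.br (nat_lit 10) (.ch (nat_lit 9) (.ev (nat_lit 512) (nat_lit 8388612) (.ev (nat_lit 525) (nat_lit 256)
 .dd))) (.ch (nat_lit 10) (.ev (nat_lit 512) (nat_lit 256) (.ev (nat_lit 1300) (nat_lit 4) (.ev (nat_lit 1309)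
 (nat_lit 8388608) .dd)))))))))))))) (.br (nat_lit 45) (.br (nat_lit 44) (.ch (nat_lit 42) (.ev (nat_lit 52)
 (nat_lit 201326912) (.ev (nat_lit 84) (nat_lit 2) (.ev (nat_lit 164) (nat_lit 16777216) (.nd (nat_lit 496)
 (.br (nat_lit 6) (.br (nat_lit 2) (.ch (nat_lit 0) (.ev (nat_lit 512) (nat_lit 310648836) (.ev (nat_lit 525)
 (nat_lit 536870912) .dd))) (.br (nat_lit 5) (.ch (nat_lit 2) (.ev (nat_lit 512) (nat_lit 42205188) (.ev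
 (nat_lit 708) (nat_lit 8192) (.ev (nat_lit 1014) (nat_lit 805306368) .dd)))) (.ch (nat_lit 5) (.ev (nat_lit
 512) (nat_lit 838868996) (.ev (nat_lit 544) (nat_lit 262144) (.ev (nat_lit 557) (nat_lit 8388608) .dd))))))
 (.br (nat_lit 9) (.ch (nat_lit 6) (.ev (nat_lit 512) (nat_lit 579076100) (.ev (nat_lit 580) (nat_lit 8192)
 (.ev (nat_lit 589) (nat_lit 268435456) .dd)))) (.br (nat_lit 10) (.ch (nat_lit 9) (.ev (nat_lit 512) (nat_lit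
 545521664) (.ev (nat_lit 676) (nat_lit 8192) (.ev (nat_lit 1376) (nat_lit 268435456) (.fin (nat_lit
 576448107934859836)))))) (.ch (nat_lit 10) (.ev (nat_lit 512) (nat_lit 579076100) (.ev (nat_lit 580) (nat_lit
 8192) (.ev (nat_lit 589) (nat_lit 268435456) .dd)))))))))))) (.ch (nat_lit 44) (.ev (nat_lit 52) (nat_lit
 50331968) (.ev (nat_lit 84) (nat_lit 262144) (.ev (nat_lit 116) (nat_lit 536870912) (.ev (nat_lit 340)
 (nat_lit 67108864) (.nd (nat_lit 496) (.br (nat_lit 6) (.br (nat_lit 4) (.ch (nat_lit 2) (.ev (nat_lit 512)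
 (nat_lit 276824064) (.ev (nat_lit 980) (nat_lit 2) (.ev (nat_lit 1136) (nat_lit 4) (.ev (nat_lit 1172)
 (nat_lit 8192) (.ev (nat_lit 1181) (nat_lit 134217728) .dd)))))) (.ch (nat_lit 4) (.ev (nat_lit 512) (nat_lit
 276824064) (.ev (nat_lit 1716) (nat_lit 134217728) (.ev (nat_lit 2004) (nat_lit 4) (.nd (nat_lit 2256) (.br
 (nat_lit 8) (.ch (nat_lit 6) (.fin (nat_lit 576462401578680898))) (.ch (nat_lit 8) (.ev (nat_lit 2272)
 (nat_lit 2) (.ev (nat_lit 2285) (nat_lit 8192) .dd)))))))))) (.br (nat_lit 9) (.ch (nat_lit 6) (.ev (nat_lit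
 512) (nat_lit 276824064) (.ev (nat_lit 1136) (nat_lit 8192) (.ev (nat_lit 1172) (nat_lit 6) (.ev (nat_lit
 1181) (nat_lit 134217728) .dd))))) (.br (nat_lit 10) (.ch (nat_lit 9) (.ev (nat_lit 512) (nat_lit 276824064)
 (.ev (nat_lit 2224) (nat_lit 8192) (.ev (nat_lit 2244) (nat_lit 134217728) (.nd (nat_lit 2256) (.br (nat_lit
 12) (.ch (nat_lit 3) (.fin (nat_lit 576466799618900537))) (.ch (nat_lit 12) (.ev (nat_lit 2272) (nat_lit 2)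
 (.ev (nat_lit 2285) (nat_lit 4) .dd))))))))) (.ch (nat_lit 10) (.ev (nat_lit 580) (nat_lit 268435456) (.ev
 (nat_lit 916) (nat_lit 8388608) (.ev (nat_lit 1172) (nat_lit 8192) (.ev (nat_lit 1748) (nat_lit 4) (.ev
 (nat_lit 1972) (nat_lit 134217728) (.ev (nat_lit 1981) (nat_lit 2) .dd))))))))))))))))) (.br (nat_lit 46) (.ch
 (nat_lit 45) (.ev (nat_lit 52) (nat_lit 536871238) (.ev (nat_lit 64) (nat_lit 528752640) .dd))) (.ch (nat_lit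
 46) (.ev (nat_lit 52) (nat_lit 805568514) (.ev (nat_lit 64) (nat_lit 260055364) .dd))))))))))

/-- Subtrie. -/
noncomputable def T4 : Tr := (.ev (nat_lit 20) (nat_lit 503619666) (.nd (nat_lit 33) (.br (nat_lit 25) (.br
 (nat_lit 14) (.br (nat_lit 5) (.br (nat_lit 2) (.ch (nat_lit 1) (.ev (nat_lit 52) (nat_lit 11534336) (.ev
 (nat_lit 96) (nat_lit 558383364) .dd))) (.br (nat_lit 3) (.ch (nat_lit 2) (.ev (nat_lit 52) (nat_lit 25690116)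
 (.ev (nat_lit 116) (nat_lit 256) (.ev (nat_lit 132) (nat_lit 536870912) (.ev (nat_lit 256) (nat_lit 7356416)
 .dd))))) (.ch (nat_lit 3) (.ev (nat_lit 52) (nat_lit 7340288) (.ev (nat_lit 276) (nat_lit 536870912) (.nd
 (nat_lit 496) (.br (nat_lit 6) (.br (nat_lit 2) (.ch (nat_lit 1) (.ev (nat_lit 512) (nat_lit 17317888) (.ev
 (nat_lit 612) (nat_lit 4) (.ev (nat_lit 621) (nat_lit 8388608) .dd)))) (.br (nat_lit 3) (.ch (nat_lit 2) (.ev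
 (nat_lit 512) (nat_lit 16384) (.ev (nat_lit 580) (nat_lit 524288) (.ev (nat_lit 916) (nat_lit 16777216) (.ev
 (nat_lit 1028) (nat_lit 4) (.ev (nat_lit 1037) (nat_lit 8388608) .dd)))))) (.ch (nat_lit 3) (.ev (nat_lit 512)
 (nat_lit 8404996) (.ev (nat_lit 580) (nat_lit 524288) (.ev (nat_lit 589) (nat_lit 16777216) .dd)))))) (.br
 (nat_lit 8) (.br (nat_lit 7) (.ch (nat_lit 6) (.ev (nat_lit 512) (nat_lit 8912896) (.ev (nat_lit 1252)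
 (nat_lit 16384) (.ev (nat_lit 1408) (nat_lit 4) (.ev (nat_lit 1421) (nat_lit 16777216) .dd))))) (.ch (nat_lit
 7) (.ev (nat_lit 512) (nat_lit 16777220) (.ev (nat_lit 580) (nat_lit 524288) (.ev (nat_lit 1124) (nat_lit
 16384) (.ev (nat_lit 1133) (nat_lit 8388608) .dd)))))) (.br (nat_lit 9) (.ch (nat_lit 8) (.ev (nat_lit 512)
 (nat_lit 17317888) (.ev (nat_lit 612) (nat_lit 4) (.ev (nat_lit 621) (nat_lit 8388608) .dd)))) (.ch (nat_lit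
 9) (.ev (nat_lit 512) (nat_lit 8404996) (.ev (nat_lit 580) (nat_lit 524288) (.ev (nat_lit 589) (nat_lit
 16777216) .dd))))))))))))) (.br (nat_lit 11) (.br (nat_lit 9) (.ch (nat_lit 5) (.ev (nat_lit 52) (nat_lit
 16793604) (.ev (nat_lit 96) (nat_lit 553124096) .dd))) (.ch (nat_lit 9) (.ev (nat_lit 52) (nat_lit 552616192)
 (.ev (nat_lit 116) (nat_lit 4) (.ev (nat_lit 384) (nat_lit 17301504) .dd))))) (.br (nat_lit 12) (.ch (nat_lit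
 11) (.ev (nat_lit 52) (nat_lit 556286212) (.ev (nat_lit 116) (nat_lit 8388608) (.ev (nat_lit 352) (nat_lit
 5242880) .dd)))) (.ch (nat_lit 12) (.ev (nat_lit 52) (nat_lit 3670276) (.ev (nat_lit 84) (nat_lit 25182208)
 (.ev (nat_lit 116) (nat_lit 4194304) (.ev (nat_lit 125) (nat_lit 536870912) .dd)))))))) (.br (nat_lit 19) (.br
 (nat_lit 16) (.br (nat_lit 15) (.ch (nat_lit 14) (.ev (nat_lit 52) (nat_lit 542113792) (.ev (nat_lit 84)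
 (nat_lit 16777216) (.ev (nat_lit 144) (nat_lit 11026692) .dd)))) (.ch (nat_lit 15) (.ev (nat_lit 52) (nat_lit
 23609344) (.ev (nat_lit 84) (nat_lit 4) (.ev (nat_lit 164) (nat_lit 536870912) (.nd (nat_lit 496) (.br
 (nat_lit 3) (.br (nat_lit 2) (.ch (nat_lit 1) (.ev (nat_lit 512) (nat_lit 9437440) .dd)) (.ch (nat_lit 2) (.ev
 (nat_lit 512) (nat_lit 1048832) (.ev (nat_lit 525) (nat_lit 8388608) .dd)))) (.br (nat_lit 6) (.ch (nat_lit 3)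
 (.ev (nat_lit 512) (nat_lit 1048832) (.ev (nat_lit 525) (nat_lit 8388608) .dd))) (.br (nat_lit 7) (.ch
 (nat_lit 6) (.ev (nat_lit 512) (nat_lit 9437440) .dd)) (.ch (nat_lit 7) (.ev (nat_lit 512) (nat_lit 8388608)
 (.ev (nat_lit 528) (nat_lit 256) (.ev (nat_lit 541) (nat_lit 1048576) .dd))))))))))))) (.br (nat_lit 18) (.ch
 (nat_lit 16) (.ev (nat_lit 52) (nat_lit 7880704) (.ev (nat_lit 84) (nat_lit 8388608) (.ev (nat_lit 164)
 (nat_lit 256) (.nd (nat_lit 496) (.br (nat_lit 6) (.br (nat_lit 3) (.ch (nat_lit 2) (.ev (nat_lit 512)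
 (nat_lit 4) (.ev (nat_lit 528) (nat_lit 536870912) (.ev (nat_lit 541) (nat_lit 16777216) .dd)))) (.ch (nat_lit
 3) (.ev (nat_lit 512) (nat_lit 553648132) .dd))) (.br (nat_lit 7) (.ch (nat_lit 6) (.ev (nat_lit 512) (nat_lit
 553648128) (.ev (nat_lit 525) (nat_lit 4) .dd))) (.br (nat_lit 8) (.ch (nat_lit 7) (.ev (nat_lit 512) (nat_lit
 553648128) (.ev (nat_lit 525) (nat_lit 4) .dd))) (.ch (nat_lit 8) (.ev (nat_lit 512) (nat_lit 553648132)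
 .dd)))))))))) (.ch (nat_lit 18) (.ev (nat_lit 52) (nat_lit 15745284) (.ev (nat_lit 276) (nat_lit 524288) (.ev
 (nat_lit 400) (nat_lit 553648128) .dd)))))) (.br (nat_lit 21) (.br (nat_lit 20) (.ch (nat_lit 19) (.ev
 (nat_lit 52) (nat_lit 549454080) (.ev (nat_lit 116) (nat_lit 16777216) (.ev (nat_lit 164) (nat_lit 524288)
 (.ev (nat_lit 224) (nat_lit 3162116) .dd))))) (.ch (nat_lit 20) (.ev (nat_lit 52) (nat_lit 566247424) (.ev
 (nat_lit 84) (nat_lit 3145732) (.ev (nat_lit 116) (nat_lit 524288) (.ev (nat_lit 125) (nat_lit 256) .dd))))))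
 (.br (nat_lit 22) (.ch (nat_lit 21) (.ev (nat_lit 52) (nat_lit 562561280) (.ev (nat_lit 84) (nat_lit 2097152)
 (.ev (nat_lit 308) (nat_lit 1048576) (.nd (nat_lit 496) (.br (nat_lit 7) (.br (nat_lit 3) (.ch (nat_lit 0)
 (.ev (nat_lit 512) (nat_lit 4210688) (.ev (nat_lit 525) (nat_lit 4) .dd))) (.ch (nat_lit 3) (.ev (nat_lit 512)
 (nat_lit 4194308) (.ev (nat_lit 525) (nat_lit 16384) .dd)))) (.br (nat_lit 8) (.ch (nat_lit 7) (.ev (nat_lit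
 512) (nat_lit 16384) (.ev (nat_lit 580) (nat_lit 4194304) (.ev (nat_lit 589) (nat_lit 4) .dd)))) (.ch (nat_lit
 8) (.ev (nat_lit 512) (nat_lit 4210692) .dd))))))))) (.ch (nat_lit 22) (.ev (nat_lit 52) (nat_lit 537919492)
 (.ev (nat_lit 84) (nat_lit 16777216) (.ev (nat_lit 196) (nat_lit 524288) (.ev (nat_lit 416) (nat_lit 16384)
 (.nd (nat_lit 496) (.br (nat_lit 6) (.br (nat_lit 2) (.ch (nat_lit 0) (.ev (nat_lit 512) (nat_lit 10486016)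
 (.ev (nat_lit 525) (nat_lit 4194304) .dd))) (.ch (nat_lit 2) (.ev (nat_lit 512) (nat_lit 10486016) (.ev
 (nat_lit 525) (nat_lit 4194304) .dd)))) (.br (nat_lit 8) (.ch (nat_lit 6) (.ev (nat_lit 512) (nat_lit
 12582912) (.ev (nat_lit 528) (nat_lit 2097152) (.ev (nat_lit 541) (nat_lit 256) .dd)))) (.br (nat_lit 9) (.ch
 (nat_lit 8) (.ev (nat_lit 512) (nat_lit 2097408) (.ev (nat_lit 560) (nat_lit 8388608) (.ev (nat_lit 573)
 (nat_lit 4194304) .dd)))) (.ch (nat_lit 9) (.ev (nat_lit 512) (nat_lit 10486016) (.ev (nat_lit 525) (nat_lit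
 4194304) .dd)))))))))))))))) (.br (nat_lit 33) (.br (nat_lit 28) (.br (nat_lit 26) (.ch (nat_lit 25) (.ev
 (nat_lit 52) (nat_lit 537395460) (.ev (nat_lit 116) (nat_lit 1048576) (.ev (nat_lit 164) (nat_lit 4194304)
 (.ev (nat_lit 224) (nat_lit 27279360) .dd))))) (.br (nat_lit 27) (.ch (nat_lit 26) (.ev (nat_lit 52) (nat_lit
 13631492) (.ev (nat_lit 116) (nat_lit 536870912) (.ev (nat_lit 132) (nat_lit 256) (.ev (nat_lit 176) (nat_lit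
 19415040) .dd))))) (.ch (nat_lit 27) (.ev (nat_lit 52) (nat_lit 29360384) (.ev (nat_lit 84) (nat_lit 1048576)
 (.ev (nat_lit 176) (nat_lit 539508740) .dd)))))) (.br (nat_lit 31) (.br (nat_lit 29) (.ch (nat_lit 28) (.ev
 (nat_lit 52) (nat_lit 25166080) (.ev (nat_lit 84) (nat_lit 1048576) (.ev (nat_lit 196) (nat_lit 4194304) (.ev
 (nat_lit 432) (nat_lit 2097152) (.nd (nat_lit 496) (.br (nat_lit 3) (.br (nat_lit 1) (.ch (nat_lit 0) (.ev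
 (nat_lit 512) (nat_lit 536887300) (.ev (nat_lit 525) (nat_lit 524288) .dd))) (.ch (nat_lit 1) (.ev (nat_lit
 512) (nat_lit 536887296) (.ev (nat_lit 560) (nat_lit 4) (.ev (nat_lit 573) (nat_lit 524288) .dd))))) (.br
 (nat_lit 7) (.ch (nat_lit 3) (.ev (nat_lit 512) (nat_lit 524292) (.ev (nat_lit 528) (nat_lit 16384) (.ev
 (nat_lit 541) (nat_lit 536870912) .dd)))) (.br (nat_lit 9) (.ch (nat_lit 7) (.ev (nat_lit 512) (nat_lit
 536887300) (.ev (nat_lit 525) (nat_lit 524288) .dd))) (.ch (nat_lit 9) (.ev (nat_lit 512) (nat_lit 536887300)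
 (.ev (nat_lit 525) (nat_lit 524288) .dd)))))))))))) (.ch (nat_lit 29) (.ev (nat_lit 52) (nat_lit 564674564)
 (.ev (nat_lit 256) (nat_lit 5243136) .dd)))) (.br (nat_lit 32) (.ch (nat_lit 31) (.ev (nat_lit 52) (nat_lit
 20447492) (.ev (nat_lit 84) (nat_lit 16384) (.ev (nat_lit 116) (nat_lit 4194304) (.ev (nat_lit 196) (nat_lit
 536870912) (.ev (nat_lit 205) (nat_lit 8388608) .dd)))))) (.ch (nat_lit 32) (.ev (nat_lit 52) (nat_lit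
 567296000) (.ev (nat_lit 84) (nat_lit 2097152) (.ev (nat_lit 116) (nat_lit 524288) (.ev (nat_lit 196) (nat_lit
 256) (.ev (nat_lit 205) (nat_lit 4) .dd))))))))) (.br (nat_lit 42) (.br (nat_lit 36) (.br (nat_lit 35) (.ch
 (nat_lit 33) (.ev (nat_lit 52) (nat_lit 554188800) (.ev (nat_lit 276) (nat_lit 256) (.nd (nat_lit 496) (.br
 (nat_lit 3) (.br (nat_lit 1) (.ch (nat_lit 0) (.ev (nat_lit 512) (nat_lit 10485764) (.ev (nat_lit 580)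
 (nat_lit 4194304) (.ev (nat_lit 589) (nat_lit 1048576) .dd)))) (.br (nat_lit 2) (.ch (nat_lit 1) (.ev (nat_lit
 512) (nat_lit 7340032) (.ev (nat_lit 612) (nat_lit 8388608) (.ev (nat_lit 621) (nat_lit 4) .dd)))) (.ch
 (nat_lit 2) (.ev (nat_lit 512) (nat_lit 9437184) (.ev (nat_lit 580) (nat_lit 4194304) (.ev (nat_lit 1124)
 (nat_lit 2097152) (.ev (nat_lit 1133) (nat_lit 4) .dd))))))) (.br (nat_lit 7) (.br (nat_lit 6) (.ch (nat_lit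
 3) (.ev (nat_lit 512) (nat_lit 4194308) (.ev (nat_lit 1252) (nat_lit 2097152) (.ev (nat_lit 1408) (nat_lit
 8388608) (.ev (nat_lit 1421) (nat_lit 1048576) .dd))))) (.ch (nat_lit 6) (.ev (nat_lit 512) (nat_lit 10485764)
 (.ev (nat_lit 580) (nat_lit 4194304) (.ev (nat_lit 589) (nat_lit 1048576) .dd))))) (.br (nat_lit 8) (.ch
 (nat_lit 7) (.ev (nat_lit 512) (nat_lit 2097152) (.ev (nat_lit 580) (nat_lit 4194304) (.ev (nat_lit 916)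
 (nat_lit 1048576) (.ev (nat_lit 1028) (nat_lit 8388608) (.ev (nat_lit 1037) (nat_lit 4) .dd)))))) (.ch
 (nat_lit 8) (.ev (nat_lit 512) (nat_lit 7340032) (.ev (nat_lit 612) (nat_lit 8388608) (.ev (nat_lit 621)
 (nat_lit 4) .dd))))))))))) (.ch (nat_lit 35) (.ev (nat_lit 52) (nat_lit 538443780) (.ev (nat_lit 84) (nat_lit
 16777216) (.ev (nat_lit 176) (nat_lit 14696704) .dd))))) (.br (nat_lit 38) (.ch (nat_lit 36) (.ev (nat_lit 52)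
 (nat_lit 5242880) (.ev (nat_lit 116) (nat_lit 538968064) (.ev (nat_lit 372) (nat_lit 524288) (.nd (nat_lit
 496) (.br (nat_lit 7) (.br (nat_lit 2) (.ch (nat_lit 1) (.ev (nat_lit 512) (nat_lit 16793856) (.ev (nat_lit
 1504) (nat_lit 4) (.ev (nat_lit 1517) (nat_lit 8388608) .dd)))) (.br (nat_lit 6) (.ch (nat_lit 2) (.ev
 (nat_lit 512) (nat_lit 16640) (.ev (nat_lit 1476) (nat_lit 4) (.ev (nat_lit 1556) (nat_lit 8388608) (.ev
 (nat_lit 1565) (nat_lit 16777216) .dd))))) (.ch (nat_lit 6) (.ev (nat_lit 512) (nat_lit 25182468) .dd)))) (.br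
 (nat_lit 8) (.ch (nat_lit 7) (.ev (nat_lit 512) (nat_lit 16777220) (.ev (nat_lit 580) (nat_lit 16384) (.ev
 (nat_lit 928) (nat_lit 256) (.ev (nat_lit 941) (nat_lit 8388608) .dd))))) (.br (nat_lit 9) (.ch (nat_lit 8)
 (.ev (nat_lit 512) (nat_lit 16777476) (.ev (nat_lit 1088) (nat_lit 8388608) (.ev (nat_lit 1101) (nat_lit
 16384) .dd)))) (.ch (nat_lit 9) (.ev (nat_lit 512) (nat_lit 16644) (.ev (nat_lit 1652) (nat_lit 8388608) (.ev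
 (nat_lit 1661) (nat_lit 16777216) .dd)))))))))))) (.ch (nat_lit 38) (.ev (nat_lit 52) (nat_lit 17301504) (.ev
 (nat_lit 116) (nat_lit 16640) (.ev (nat_lit 372) (nat_lit 4194304) (.nd (nat_lit 496) (.br (nat_lit 3) (.br
 (nat_lit 1) (.ch (nat_lit 0) (.ev (nat_lit 512) (nat_lit 547356672) (.ev (nat_lit 1652) (nat_lit 4) (.ev
 (nat_lit 1661) (nat_lit 1048576) .dd)))) (.br (nat_lit 2) (.ch (nat_lit 1) (.ev (nat_lit 512) (nat_lit
 546308096) (.ev (nat_lit 1088) (nat_lit 4) (.ev (nat_lit 1101) (nat_lit 2097152) .dd)))) (.ch (nat_lit 2) (.ev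
 (nat_lit 512) (nat_lit 9437184) (.ev (nat_lit 580) (nat_lit 2097152) (.ev (nat_lit 928) (nat_lit 536870912)
 (.ev (nat_lit 941) (nat_lit 4) .dd))))))) (.br (nat_lit 7) (.ch (nat_lit 3) (.ev (nat_lit 512) (nat_lit
 548405252) .dd)) (.br (nat_lit 8) (.ch (nat_lit 7) (.ev (nat_lit 512) (nat_lit 538968064) (.ev (nat_lit 1476)
 (nat_lit 8388608) (.ev (nat_lit 1556) (nat_lit 4) (.ev (nat_lit 1565) (nat_lit 1048576) .dd))))) (.ch (nat_lit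
 8) (.ev (nat_lit 512) (nat_lit 540016640) (.ev (nat_lit 1504) (nat_lit 8388608) (.ev (nat_lit 1517) (nat_lit
 4) .dd)))))))))))))) (.br (nat_lit 45) (.br (nat_lit 44) (.ch (nat_lit 42) (.ev (nat_lit 52) (nat_lit 6308096)
 (.ev (nat_lit 164) (nat_lit 4) (.nd (nat_lit 496) (.br (nat_lit 6) (.br (nat_lit 1) (.ch (nat_lit 0) (.ev
 (nat_lit 512) (nat_lit 563609600) .dd)) (.br (nat_lit 3) (.ch (nat_lit 1) (.ev (nat_lit 512) (nat_lit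
 563085312) (.ev (nat_lit 525) (nat_lit 524288) .dd))) (.ch (nat_lit 3) (.ev (nat_lit 512) (nat_lit 8912896)
 (.ev (nat_lit 880) (nat_lit 536870912) (.ev (nat_lit 1376) (nat_lit 1048576) (.ev (nat_lit 1389) (nat_lit
 16777216) .dd))))))) (.br (nat_lit 8) (.ch (nat_lit 6) (.ev (nat_lit 512) (nat_lit 563609600) .dd)) (.br
 (nat_lit 9) (.ch (nat_lit 8) (.ev (nat_lit 512) (nat_lit 555220992) (.ev (nat_lit 525) (nat_lit 8388608)
 .dd))) (.ch (nat_lit 9) (.ev (nat_lit 512) (nat_lit 538443776) (.ev (nat_lit 1124) (nat_lit 8388608) (.ev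
 (nat_lit 1133) (nat_lit 16777216) .dd))))))))))) (.ch (nat_lit 44) (.ev (nat_lit 52) (nat_lit 17301760) (.ev
 (nat_lit 84) (nat_lit 1048576) (.ev (nat_lit 144) (nat_lit 551567364) .dd))))) (.br (nat_lit 46) (.ch (nat_lit
 45) (.ev (nat_lit 52) (nat_lit 542114052) (.ev (nat_lit 84) (nat_lit 16384) (.ev (nat_lit 308) (nat_lit
 16777216) (.nd (nat_lit 496) (.br (nat_lit 6) (.br (nat_lit 2) (.ch (nat_lit 1) (.ev (nat_lit 512) (nat_lit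
 11010048) .dd)) (.ch (nat_lit 2) (.ev (nat_lit 512) (nat_lit 2097152) (.ev (nat_lit 580) (nat_lit 524288) (.ev
 (nat_lit 589) (nat_lit 8388608) .dd))))) (.br (nat_lit 9) (.ch (nat_lit 6) (.ev (nat_lit 512) (nat_lit
 8912896) (.ev (nat_lit 525) (nat_lit 2097152) .dd))) (.ch (nat_lit 9) (.ev (nat_lit 512) (nat_lit 2621440)
 (.ev (nat_lit 525) (nat_lit 8388608) .dd)))))))))) (.ch (nat_lit 46) (.ev (nat_lit 52) (nat_lit 539508736)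
 (.ev (nat_lit 164) (nat_lit 8388608) (.nd (nat_lit 496) (.br (nat_lit 6) (.br (nat_lit 1) (.ch (nat_lit 0)
 (.ev (nat_lit 512) (nat_lit 20971776) (.ev (nat_lit 1124) (nat_lit 4) (.ev (nat_lit 1133) (nat_lit 1048576)
 .dd)))) (.br (nat_lit 3) (.ch (nat_lit 1) (.ev (nat_lit 512) (nat_lit 22020352) (.ev (nat_lit 525) (nat_lit 4)
 .dd))) (.ch (nat_lit 3) (.ev (nat_lit 512) (nat_lit 22020356) .dd)))) (.br (nat_lit 8) (.ch (nat_lit 6) (.ev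
 (nat_lit 512) (nat_lit 4194308) (.ev (nat_lit 880) (nat_lit 256) (.ev (nat_lit 1376) (nat_lit 16777216) (.ev
 (nat_lit 1389) (nat_lit 1048576) .dd))))) (.br (nat_lit 9) (.ch (nat_lit 8) (.ev (nat_lit 512) (nat_lit
 17826052) (.ev (nat_lit 525) (nat_lit 4194304) .dd))) (.ch (nat_lit 9) (.ev (nat_lit 512) (nat_lit 22020356)
 .dd))))))))))))))))

/-- Subtrie. -/
noncomputable def T5 : Tr := (.ev (nat_lit 20) (nat_lit 1351680) (.nd (nat_lit 33) (.br (nat_lit 25) (.br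
 (nat_lit 14) (.br (nat_lit 5) (.br (nat_lit 2) (.ch (nat_lit 1) (.ev (nat_lit 52) (nat_lit 211812432) (.ev
 (nat_lit 84) (nat_lit 268435456) (.ev (nat_lit 116) (nat_lit 570949890) (.ev (nat_lit 276) (nat_lit 16384)
 (.nd (nat_lit 496) (.br (nat_lit 8) (.br (nat_lit 4) (.ch (nat_lit 1) (.ev (nat_lit 512) (nat_lit 20971520)
 (.ev (nat_lit 525) (nat_lit 4) .dd))) (.ch (nat_lit 4) (.ev (nat_lit 512) (nat_lit 16777220) (.ev (nat_lit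
 525) (nat_lit 4194304) .dd)))) (.br (nat_lit 9) (.ch (nat_lit 8) (.ev (nat_lit 512) (nat_lit 4194304) (.ev
 (nat_lit 580) (nat_lit 16777216) (.ev (nat_lit 589) (nat_lit 4) .dd)))) (.ch (nat_lit 9) (.ev (nat_lit 512)
 (nat_lit 20971524) .dd)))))))))) (.br (nat_lit 3) (.ch (nat_lit 2) (.ev (nat_lit 52) (nat_lit 327680004) (.ev
 (nat_lit 116) (nat_lit 16464) (.ev (nat_lit 276) (nat_lit 4194304) (.nd (nat_lit 496) (.br (nat_lit 8) (.br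
 (nat_lit 1) (.ch (nat_lit 0) (.ev (nat_lit 512) (nat_lit 671088898) (.ev (nat_lit 528) (nat_lit 2097152) (.ev
 (nat_lit 541) (nat_lit 67108864) .dd)))) (.ch (nat_lit 1) (.ev (nat_lit 512) (nat_lit 606077184) (.ev (nat_lit
 1396) (nat_lit 2) (.ev (nat_lit 1405) (nat_lit 134217728) .dd))))) (.br (nat_lit 9) (.ch (nat_lit 8) (.ev
 (nat_lit 512) (nat_lit 67109120) (.ev (nat_lit 592) (nat_lit 2) (.ev (nat_lit 1440) (nat_lit 134217728) (.ev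
 (nat_lit 2038) (nat_lit 538968064) .dd))))) (.ch (nat_lit 9) (.ev (nat_lit 512) (nat_lit 203423744) (.ev
 (nat_lit 1220) (nat_lit 2) (.nd (nat_lit 2256) (.br (nat_lit 11) (.ch (nat_lit 2) (.fin (nat_lit
 576461302042935864))) (.ch (nat_lit 11) (.ev (nat_lit 2272) (nat_lit 536871168) .dd)))))))))))))) (.ch
 (nat_lit 3) (.ev (nat_lit 52) (nat_lit 308281600) (.ev (nat_lit 84) (nat_lit 70) (.ev (nat_lit 164) (nat_lit
 134234112) (.nd (nat_lit 496) (.br (nat_lit 8) (.br (nat_lit 5) (.ch (nat_lit 4) (.ev (nat_lit 580) (nat_lit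
 16777216) (.ev (nat_lit 916) (nat_lit 524288) (.ev (nat_lit 1124) (nat_lit 8388608) (.ev (nat_lit 1572)
 (nat_lit 67108864) (.ev (nat_lit 2004) (nat_lit 536870912) (.ev (nat_lit 2013) (nat_lit 16) .dd))))))) (.ch
 (nat_lit 5) (.ev (nat_lit 512) (nat_lit 17301504) (.ev (nat_lit 1124) (nat_lit 8388608) (.ev (nat_lit 1136)
 (nat_lit 16) (.ev (nat_lit 1172) (nat_lit 536870912) (.ev (nat_lit 1181) (nat_lit 67108864) .dd))))))) (.br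
 (nat_lit 9) (.ch (nat_lit 8) (.ev (nat_lit 512) (nat_lit 17301504) (.ev (nat_lit 1636) (nat_lit 67108864) (.ev
 (nat_lit 2004) (nat_lit 16) (.nd (nat_lit 2256) (.br (nat_lit 8) (.ch (nat_lit 5) (.fin (nat_lit
 576460202542842433))) (.ch (nat_lit 8) (.ev (nat_lit 2272) (nat_lit 536870912) (.ev (nat_lit 2285) (nat_lit
 8388608) .dd))))))))) (.br (nat_lit 11) (.ch (nat_lit 9) (.ev (nat_lit 512) (nat_lit 17301504) (.ev (nat_lit
 1972) (nat_lit 16) (.ev (nat_lit 1984) (nat_lit 8388608) (.nd (nat_lit 2256) (.br (nat_lit 9) (.ch (nat_lit 2)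
 (.fin (nat_lit 576468998640058940))) (.ch (nat_lit 9) (.ev (nat_lit 2272) (nat_lit 536870912) (.ev (nat_lit
 2285) (nat_lit 67108864) .dd))))))))) (.ch (nat_lit 11) (.ev (nat_lit 512) (nat_lit 17301504) (.ev (nat_lit
 996) (nat_lit 16) (.ev (nat_lit 1124) (nat_lit 536870912) (.ev (nat_lit 1184) (nat_lit 75497472)
 .dd))))))))))))))) (.br (nat_lit 11) (.br (nat_lit 9) (.ch (nat_lit 5) (.ev (nat_lit 52) (nat_lit 453001236)
 (.ev (nat_lit 64) (nat_lit 619184450) .dd))) (.ch (nat_lit 9) (.ev (nat_lit 52) (nat_lit 820003136) (.nd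
 (nat_lit 496) (.br (nat_lit 5) (.br (nat_lit 1) (.ch (nat_lit 0) (.ev (nat_lit 512) (nat_lit 83886102) (.ev
 (nat_lit 580) (nat_lit 134217728) (.ev (nat_lit 676) (nat_lit 524288) (.ev (nat_lit 685) (nat_lit 33554432)
 .dd))))) (.br (nat_lit 4) (.ch (nat_lit 1) (.ev (nat_lit 512) (nat_lit 117964816) (.ev (nat_lit 580) (nat_lit
 4) (.ev (nat_lit 628) (nat_lit 2) (.ev (nat_lit 637) (nat_lit 134217728) .dd))))) (.ch (nat_lit 4) (.ev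
 (nat_lit 512) (nat_lit 167772160) (.ev (nat_lit 688) (nat_lit 67108864) (.ev (nat_lit 1396) (nat_lit 2) (.ev
 (nat_lit 2144) (nat_lit 20) (.fin (nat_lit 576462401572389440))))))))) (.br (nat_lit 9) (.br (nat_lit 6) (.ch
 (nat_lit 5) (.ev (nat_lit 512) (nat_lit 151519254) (.ev (nat_lit 528) (nat_lit 67108864) (.ev (nat_lit 541)
 (nat_lit 33554432) .dd)))) (.ch (nat_lit 6) (.ev (nat_lit 512) (nat_lit 67633174) (.ev (nat_lit 662) (nat_lit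
 184549376) .dd)))) (.br (nat_lit 11) (.ch (nat_lit 9) (.ev (nat_lit 512) (nat_lit 218628116) (.ev (nat_lit
 528) (nat_lit 2) (.ev (nat_lit 541) (nat_lit 33554432) .dd)))) (.ch (nat_lit 11) (.ev (nat_lit 512) (nat_lit
 50855942) (.ev (nat_lit 580) (nat_lit 16) (.ev (nat_lit 2128) (nat_lit 201326592) .dd))))))))))) (.br (nat_lit
 12) (.ch (nat_lit 11) (.ev (nat_lit 52) (nat_lit 623395140) (.ev (nat_lit 84) (nat_lit 2) (.ev (nat_lit 116)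
 (nat_lit 268435456) (.ev (nat_lit 372) (nat_lit 4194304) (.nd (nat_lit 496) (.br (nat_lit 5) (.br (nat_lit 1)
 (.ch (nat_lit 0) (.ev (nat_lit 512) (nat_lit 41943056) (.ev (nat_lit 525) (nat_lit 134217728) .dd))) (.ch
 (nat_lit 1) (.ev (nat_lit 512) (nat_lit 176160784) .dd))) (.br (nat_lit 8) (.ch (nat_lit 5) (.ev (nat_lit 560)
 (nat_lit 16) (.ev (nat_lit 612) (nat_lit 134217728) (.ev (nat_lit 708) (nat_lit 8388608) (.ev (nat_lit 717)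
 (nat_lit 33554432) .dd))))) (.br (nat_lit 11) (.ch (nat_lit 8) (.ev (nat_lit 512) (nat_lit 33554432) (.ev
 (nat_lit 580) (nat_lit 16) (.ev (nat_lit 1792) (nat_lit 142606336) .dd)))) (.ch (nat_lit 11) (.ev (nat_lit
 512) (nat_lit 16) (.ev (nat_lit 544) (nat_lit 8388608) (.ev (nat_lit 1888) (nat_lit 134217728) (.ev (nat_lit
 1901) (nat_lit 33554432) .dd)))))))))))))) (.ch (nat_lit 12) (.ev (nat_lit 52) (nat_lit 271057220) (.ev
 (nat_lit 84) (nat_lit 16777216) (.ev (nat_lit 116) (nat_lit 134217728) (.ev (nat_lit 164) (nat_lit 536870912)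
 (.ev (nat_lit 448) (nat_lit 2) (.nd (nat_lit 496) (.br (nat_lit 11) (.br (nat_lit 5) (.ch (nat_lit 1) (.ev
 (nat_lit 512) (nat_lit 67125264) (.ev (nat_lit 560) (nat_lit 33554432) (.ev (nat_lit 1172) (nat_lit 4194304)
 (.ev (nat_lit 1181) (nat_lit 8388608) .dd))))) (.ch (nat_lit 5) (.ev (nat_lit 512) (nat_lit 71319552) (.ev
 (nat_lit 592) (nat_lit 33554432) (.ev (nat_lit 916) (nat_lit 16) (.ev (nat_lit 925) (nat_lit 8388608)
 .dd)))))) (.br (nat_lit 12) (.ch (nat_lit 11) (.ev (nat_lit 512) (nat_lit 8405008) (.ev (nat_lit 1396)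
 (nat_lit 4194304) (.nd (nat_lit 2256) (.br (nat_lit 6) (.ch (nat_lit 1) (.ev (nat_lit 2272) (nat_lit
 100663296) .dd)) (.ch (nat_lit 6) (.fin (nat_lit 576458003530072635)))))))) (.ch (nat_lit 12) (.ev (nat_lit
 512) (nat_lit 113246224) (.ev (nat_lit 525) (nat_lit 16384) .dd))))))))))))))) (.br (nat_lit 19) (.br (nat_lit
 16) (.br (nat_lit 15) (.ch (nat_lit 14) (.ev (nat_lit 52) (nat_lit 675282944) (.ev (nat_lit 84) (nat_lit
 25690194) (.ev (nat_lit 116) (nat_lit 268435456) (.ev (nat_lit 164) (nat_lit 256) (.nd (nat_lit 496) (.br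
 (nat_lit 5) (.br (nat_lit 1) (.ch (nat_lit 0) (.ev (nat_lit 512) (nat_lit 16384) (.ev (nat_lit 580) (nat_lit
 4) (.ev (nat_lit 916) (nat_lit 67108864) (.ev (nat_lit 1220) (nat_lit 33554432) (.ev (nat_lit 1229) (nat_lit
 2097152) .dd)))))) (.br (nat_lit 4) (.ch (nat_lit 1) (.ev (nat_lit 512) (nat_lit 69206016) (.ev (nat_lit 580)
 (nat_lit 4) (.ev (nat_lit 1220) (nat_lit 33554432) (.ev (nat_lit 1229) (nat_lit 16384) .dd))))) (.ch (nat_lit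
 4) (.ev (nat_lit 512) (nat_lit 35667968) (.ev (nat_lit 580) (nat_lit 4) (.ev (nat_lit 589) (nat_lit 67108864)
 .dd)))))) (.br (nat_lit 8) (.br (nat_lit 6) (.ch (nat_lit 5) (.ev (nat_lit 512) (nat_lit 67125252) (.ev
 (nat_lit 612) (nat_lit 2097152) (.ev (nat_lit 621) (nat_lit 33554432) .dd)))) (.ch (nat_lit 6) (.ev (nat_lit
 512) (nat_lit 33554436) (.ev (nat_lit 1062) (nat_lit 2113536) (.ev (nat_lit 1069) (nat_lit 67108864) .dd)))))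
 (.br (nat_lit 9) (.ch (nat_lit 8) (.ev (nat_lit 512) (nat_lit 35667968) (.ev (nat_lit 580) (nat_lit 4) (.ev
 (nat_lit 589) (nat_lit 67108864) .dd)))) (.ch (nat_lit 9) (.ev (nat_lit 512) (nat_lit 67125252) (.ev (nat_lit
 612) (nat_lit 2097152) (.ev (nat_lit 621) (nat_lit 33554432) .dd))))))))))))) (.ch (nat_lit 15) (.ev (nat_lit
 52) (nat_lit 157827138) (.ev (nat_lit 84) (nat_lit 16) (.ev (nat_lit 96) (nat_lit 914358532) .dd))))) (.br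
 (nat_lit 18) (.ch (nat_lit 16) (.ev (nat_lit 52) (nat_lit 40386640) (.ev (nat_lit 84) (nat_lit 285212672) (.ev
 (nat_lit 164) (nat_lit 8388608) (.nd (nat_lit 496) (.br (nat_lit 6) (.br (nat_lit 4) (.ch (nat_lit 1) (.ev
 (nat_lit 512) (nat_lit 738197762) (.ev (nat_lit 525) (nat_lit 4) .dd))) (.ch (nat_lit 4) (.ev (nat_lit 512)
 (nat_lit 201326592) (.ev (nat_lit 544) (nat_lit 2) (.ev (nat_lit 644) (nat_lit 4) (.ev (nat_lit 1200) (nat_lit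
 256) (.ev (nat_lit 1213) (nat_lit 536870912) .dd))))))) (.br (nat_lit 8) (.ch (nat_lit 6) (.ev (nat_lit 512)
 (nat_lit 2) (.ev (nat_lit 1136) (nat_lit 4) (.ev (nat_lit 1252) (nat_lit 256) (.ev (nat_lit 1332) (nat_lit
 536870912) (.fin (nat_lit 576465700104127060))))))) (.br (nat_lit 12) (.ch (nat_lit 8) (.ev (nat_lit 512)
 (nat_lit 134217986) (.ev (nat_lit 580) (nat_lit 536870912) (.ev (nat_lit 1920) (nat_lit 67108868) .dd)))) (.ch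
 (nat_lit 12) (.ev (nat_lit 512) (nat_lit 738197764) (.ev (nat_lit 525) (nat_lit 2) .dd))))))))))) (.ch
 (nat_lit 18) (.ev (nat_lit 52) (nat_lit 148914454) (.ev (nat_lit 84) (nat_lit 268435456) (.nd (nat_lit 496)
 (.br (nat_lit 6) (.br (nat_lit 4) (.ch (nat_lit 0) (.ev (nat_lit 512) (nat_lit 603979840) (.ev (nat_lit 580)
 (nat_lit 16777216) (.ev (nat_lit 1136) (nat_lit 33554432) (.ev (nat_lit 1149) (nat_lit 524288) .dd))))) (.br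
 (nat_lit 5) (.ch (nat_lit 4) (.ev (nat_lit 512) (nat_lit 587726848) (.ev (nat_lit 966) (nat_lit 67108928)
 .dd))) (.ch (nat_lit 5) (.ev (nat_lit 512) (nat_lit 554172480) (.ev (nat_lit 1152) (nat_lit 67108864) (.ev
 (nat_lit 1165) (nat_lit 33554432) .dd)))))) (.br (nat_lit 9) (.ch (nat_lit 6) (.ev (nat_lit 512) (nat_lit
 17301504) (.ev (nat_lit 1952) (nat_lit 603979776) (.ev (nat_lit 2208) (nat_lit 33554496) .dd)))) (.br (nat_lit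
 11) (.ch (nat_lit 9) (.ev (nat_lit 512) (nat_lit 16777280) (.ev (nat_lit 580) (nat_lit 524288) (.ev (nat_lit
 1088) (nat_lit 33554432) (.fin (nat_lit 576468998640058940)))))) (.ch (nat_lit 11) (.ev (nat_lit 512) (nat_lit
 554172480) (.nd (nat_lit 2256) (.br (nat_lit 6) (.ch (nat_lit 4) (.ev (nat_lit 2272) (nat_lit 67108864) (.ev
 (nat_lit 2285) (nat_lit 33554432) .dd))) (.ch (nat_lit 6) (.fin (nat_lit 576458003530072635))))))))))))))))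
 (.br (nat_lit 21) (.br (nat_lit 20) (.ch (nat_lit 19) (.ev (nat_lit 52) (nat_lit 583008514) (.ev (nat_lit 84)
 (nat_lit 2097152) (.ev (nat_lit 116) (nat_lit 67108880) (.ev (nat_lit 164) (nat_lit 134217728) (.ev (nat_lit
 244) (nat_lit 16384) (.ev (nat_lit 464) (nat_lit 268435456) (.nd (nat_lit 496) (.br (nat_lit 4) (.br (nat_lit
 1) (.ch (nat_lit 0) (.ev (nat_lit 512) (nat_lit 524352) (.ev (nat_lit 528) (nat_lit 4) (.ev (nat_lit 541)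
 (nat_lit 16777216) .dd)))) (.ch (nat_lit 1) (.ev (nat_lit 512) (nat_lit 17301508) (.ev (nat_lit 525) (nat_lit
 64) .dd)))) (.br (nat_lit 5) (.ch (nat_lit 4) (.ev (nat_lit 512) (nat_lit 16777220) (.ev (nat_lit 560)
 (nat_lit 524288) (.ev (nat_lit 573) (nat_lit 64) .dd)))) (.br (nat_lit 6) (.ch (nat_lit 5) (.ev (nat_lit 512)
 (nat_lit 17301508) (.ev (nat_lit 525) (nat_lit 64) .dd))) (.ch (nat_lit 6) (.ev (nat_lit 512) (nat_lit
 17301508) (.ev (nat_lit 525) (nat_lit 64) .dd)))))))))))))) (.ch (nat_lit 20) (.ev (nat_lit 52) (nat_lit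
 666910786) (.ev (nat_lit 84) (nat_lit 524288) (.ev (nat_lit 116) (nat_lit 134217728) (.nd (nat_lit 496) (.br
 (nat_lit 4) (.br (nat_lit 1) (.ch (nat_lit 0) (.ev (nat_lit 512) (nat_lit 268435732) (.ev (nat_lit 525)
 (nat_lit 2097152) .dd))) (.ch (nat_lit 1) (.ev (nat_lit 512) (nat_lit 2097152) (.ev (nat_lit 560) (nat_lit
 268435456) (.ev (nat_lit 612) (nat_lit 256) (.ev (nat_lit 1252) (nat_lit 4) (.ev (nat_lit 1261) (nat_lit 16)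
 .dd))))))) (.br (nat_lit 6) (.ch (nat_lit 4) (.ev (nat_lit 512) (nat_lit 268435456) (.ev (nat_lit 544)
 (nat_lit 16) (.ev (nat_lit 708) (nat_lit 256) (.ev (nat_lit 1396) (nat_lit 2097152) (.ev (nat_lit 1405)
 (nat_lit 4) .dd)))))) (.br (nat_lit 9) (.ch (nat_lit 6) (.ev (nat_lit 512) (nat_lit 270532628) (.ev (nat_lit
 525) (nat_lit 256) .dd))) (.ch (nat_lit 9) (.ev (nat_lit 512) (nat_lit 2097156) (.ev (nat_lit 580) (nat_lit
 268435456) (.ev (nat_lit 1856) (nat_lit 16) (.ev (nat_lit 1869) (nat_lit 256) .dd)))))))))))))) (.br (nat_lit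
 22) (.ch (nat_lit 21) (.ev (nat_lit 52) (nat_lit 562561282) (.ev (nat_lit 84) (nat_lit 16) (.ev (nat_lit 116)
 (nat_lit 4194304) (.ev (nat_lit 164) (nat_lit 100663296) (.ev (nat_lit 196) (nat_lit 16384) (.nd (nat_lit 496)
 (.br (nat_lit 6) (.br (nat_lit 5) (.ch (nat_lit 1) (.ev (nat_lit 512) (nat_lit 404750340) (.ev (nat_lit 525)
 (nat_lit 64) .dd))) (.ch (nat_lit 5) (.ev (nat_lit 512) (nat_lit 4) (.ev (nat_lit 560) (nat_lit 268435456)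
 (.ev (nat_lit 1184) (nat_lit 2097152) (.ev (nat_lit 2096) (nat_lit 64) (.ev (nat_lit 2109) (nat_lit 134217728)
 .dd))))))) (.br (nat_lit 11) (.ch (nat_lit 6) (.ev (nat_lit 512) (nat_lit 134217792) (.ev (nat_lit 528)
 (nat_lit 4) (.ev (nat_lit 1184) (nat_lit 2097152) (.ev (nat_lit 1197) (nat_lit 268435456) .dd))))) (.ch
 (nat_lit 11) (.ev (nat_lit 512) (nat_lit 2097220) (.ev (nat_lit 1348) (nat_lit 134217728) (.ev (nat_lit 1357)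
 (nat_lit 268435456) .dd))))))))))))) (.ch (nat_lit 22) (.ev (nat_lit 52) (nat_lit 570425348) (.ev (nat_lit 64)
 (nat_lit 501760338) .dd))))))) (.br (nat_lit 33) (.br (nat_lit 28) (.br (nat_lit 26) (.ch (nat_lit 25) (.ev
 (nat_lit 52) (nat_lit 537395460) (.ev (nat_lit 84) (nat_lit 2097154) (.ev (nat_lit 164) (nat_lit 41943040)
 (.ev (nat_lit 244) (nat_lit 16384) (.nd (nat_lit 496) (.br (nat_lit 6) (.br (nat_lit 4) (.ch (nat_lit 1) (.ev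
 (nat_lit 512) (nat_lit 218103808) (.ev (nat_lit 612) (nat_lit 4194304) (.ev (nat_lit 1200) (nat_lit 64) (.ev
 (nat_lit 1360) (nat_lit 16) (.ev (nat_lit 1373) (nat_lit 268435456) .dd)))))) (.ch (nat_lit 4) (.ev (nat_lit
 512) (nat_lit 469762128) (.ev (nat_lit 864) (nat_lit 4194304) (.ev (nat_lit 877) (nat_lit 16777216) .dd)))))
 (.br (nat_lit 11) (.ch (nat_lit 6) (.ev (nat_lit 512) (nat_lit 16777232) (.ev (nat_lit 544) (nat_lit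
 268435456) (.ev (nat_lit 1456) (nat_lit 64) (.ev (nat_lit 1476) (nat_lit 4194304) (.fin (nat_lit
 576456904017396268))))))) (.br (nat_lit 12) (.ch (nat_lit 11) (.ev (nat_lit 512) (nat_lit 83886144) (.ev
 (nat_lit 580) (nat_lit 16) (.ev (nat_lit 612) (nat_lit 138412032) (.ev (nat_lit 621) (nat_lit 268435456)
 .dd))))) (.ch (nat_lit 12) (.ev (nat_lit 512) (nat_lit 490733648) .dd))))))))))) (.br (nat_lit 27) (.ch
 (nat_lit 26) (.ev (nat_lit 52) (nat_lit 113246214) (.ev (nat_lit 84) (nat_lit 18874368) (.ev (nat_lit 340)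
 (nat_lit 134217728) (.nd (nat_lit 496) (.br (nat_lit 9) (.br (nat_lit 6) (.ch (nat_lit 5) (.ev (nat_lit 512)
 (nat_lit 537411904) (.ev (nat_lit 580) (nat_lit 268435456) (.ev (nat_lit 589) (nat_lit 16) .dd)))) (.br
 (nat_lit 8) (.ch (nat_lit 6) (.ev (nat_lit 512) (nat_lit 805830992) (.ev (nat_lit 525) (nat_lit 16384) .dd)))
 (.ch (nat_lit 8) (.ev (nat_lit 512) (nat_lit 537411904) (.ev (nat_lit 580) (nat_lit 268435456) (.ev (nat_lit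
 589) (nat_lit 16) .dd)))))) (.br (nat_lit 11) (.ch (nat_lit 9) (.ev (nat_lit 512) (nat_lit 540736) (.ev
 (nat_lit 1124) (nat_lit 16) (.ev (nat_lit 1332) (nat_lit 268435456) (.fin (nat_lit 576461302078587464))))))
 (.br (nat_lit 12) (.ch (nat_lit 11) (.ev (nat_lit 512) (nat_lit 537395520) (.ev (nat_lit 1124) (nat_lit 16384)
 (.ev (nat_lit 1252) (nat_lit 16) (.ev (nat_lit 1261) (nat_lit 268435456) .dd))))) (.ch (nat_lit 12) (.ev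
 (nat_lit 512) (nat_lit 805323024) (.ev (nat_lit 544) (nat_lit 64) (.ev (nat_lit 557) (nat_lit 524288)
 .dd)))))))))))) (.ch (nat_lit 27) (.ev (nat_lit 52) (nat_lit 499122434) (.ev (nat_lit 84) (nat_lit 33554452)
 (.ev (nat_lit 116) (nat_lit 64) (.ev (nat_lit 164) (nat_lit 536870912) (.nd (nat_lit 496) (.br (nat_lit 8)
 (.br (nat_lit 5) (.ch (nat_lit 1) (.ev (nat_lit 512) (nat_lit 2637824) .dd)) (.ch (nat_lit 5) (.ev (nat_lit
 512) (nat_lit 540672) (.ev (nat_lit 525) (nat_lit 2097152) .dd)))) (.br (nat_lit 9) (.ch (nat_lit 8) (.ev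
 (nat_lit 512) (nat_lit 2637824) .dd)) (.br (nat_lit 12) (.ch (nat_lit 9) (.ev (nat_lit 512) (nat_lit 540672)
 (.ev (nat_lit 525) (nat_lit 2097152) .dd))) (.ch (nat_lit 12) (.ev (nat_lit 512) (nat_lit 2097152) (.ev
 (nat_lit 528) (nat_lit 524288) (.ev (nat_lit 541) (nat_lit 16384) .dd))))))))))))))) (.br (nat_lit 31) (.br
 (nat_lit 29) (.ch (nat_lit 28) (.ev (nat_lit 52) (nat_lit 58720514) (.ev (nat_lit 64) (nat_lit 1013465172)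
 .dd))) (.ch (nat_lit 29) (.ev (nat_lit 52) (nat_lit 732446742) (.ev (nat_lit 84) (nat_lit 268435712) (.ev
 (nat_lit 288) (nat_lit 71303232) .dd))))) (.br (nat_lit 32) (.ch (nat_lit 31) (.ev (nat_lit 52) (nat_lit
 489160980) (.ev (nat_lit 480) (nat_lit 16384) (.nd (nat_lit 496) (.br (nat_lit 8) (.br (nat_lit 6) (.ch
 (nat_lit 4) (.ev (nat_lit 512) (nat_lit 583008258) (.ev (nat_lit 525) (nat_lit 64) .dd))) (.ch (nat_lit 6)
 (.ev (nat_lit 512) (nat_lit 8388674) (.ev (nat_lit 592) (nat_lit 536870912) (.ev (nat_lit 1396) (nat_lit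
 4194304) (.ev (nat_lit 1405) (nat_lit 33554432) .dd)))))) (.br (nat_lit 9) (.ch (nat_lit 8) (.ev (nat_lit 512)
 (nat_lit 37748800) (.ev (nat_lit 916) (nat_lit 2) (.nd (nat_lit 2256) (.br (nat_lit 12) (.ch (nat_lit 5) (.fin
 (nat_lit 576460202542842433))) (.ch (nat_lit 12) (.ev (nat_lit 2272) (nat_lit 545259520) .dd))))))) (.ch
 (nat_lit 9) (.ev (nat_lit 512) (nat_lit 12582976) (.ev (nat_lit 560) (nat_lit 536870912) (.ev (nat_lit 1184)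
 (nat_lit 33554432) (.ev (nat_lit 1197) (nat_lit 2) .dd))))))))))) (.ch (nat_lit 32) (.ev (nat_lit 52) (nat_lit
 1036009488) (.ev (nat_lit 84) (nat_lit 64) (.ev (nat_lit 96) (nat_lit 36176134) .dd))))))) (.br (nat_lit 42)
 (.br (nat_lit 36) (.br (nat_lit 35) (.ch (nat_lit 33) (.ev (nat_lit 52) (nat_lit 621297664) (.ev (nat_lit 244)
 (nat_lit 4194304) (.nd (nat_lit 496) (.br (nat_lit 6) (.br (nat_lit 1) (.ch (nat_lit 0) (.ev (nat_lit 512)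
 (nat_lit 411042130) (.ev (nat_lit 740) (nat_lit 33554432) (.ev (nat_lit 980) (nat_lit 4) (.ev (nat_lit 989)
 (nat_lit 2097152) .dd))))) (.br (nat_lit 5) (.ch (nat_lit 1) (.ev (nat_lit 512) (nat_lit 312475670) (.ev
 (nat_lit 1172) (nat_lit 256) (.ev (nat_lit 1220) (nat_lit 134217728) (.ev (nat_lit 1229) (nat_lit 64) .dd)))))
 (.ch (nat_lit 5) (.ev (nat_lit 512) (nat_lit 33554694) (.ev (nat_lit 1088) (nat_lit 2097152) (.ev (nat_lit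
 1152) (nat_lit 16) (.ev (nat_lit 1476) (nat_lit 8388672) (.ev (nat_lit 1702) (nat_lit 402653184) .dd))))))))
 (.br (nat_lit 8) (.ch (nat_lit 6) (.ev (nat_lit 512) (nat_lit 41943126) (.ev (nat_lit 1942) (nat_lit
 270532864) (.ev (nat_lit 1949) (nat_lit 134217728) .dd)))) (.br (nat_lit 9) (.ch (nat_lit 8) (.ev (nat_lit
 512) (nat_lit 310378832) (.ev (nat_lit 1716) (nat_lit 2) (.ev (nat_lit 2020) (nat_lit 2097152) (.ev (nat_lit
 2198) (nat_lit 134217732) .dd))))) (.ch (nat_lit 9) (.ev (nat_lit 512) (nat_lit 268435780) (.ev (nat_lit 1152)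
 (nat_lit 134217728) (.ev (nat_lit 1220) (nat_lit 16) (.ev (nat_lit 1232) (nat_lit 8388608) (.ev (nat_lit 1476)
 (nat_lit 33554432) (.ev (nat_lit 1972) (nat_lit 2) (.ev (nat_lit 1981) (nat_lit 2097152) .dd)))))))))))))))
 (.ch (nat_lit 35) (.ev (nat_lit 52) (nat_lit 906494036) (.ev (nat_lit 96) (nat_lit 165691650) .dd)))) (.br
 (nat_lit 38) (.ch (nat_lit 36) (.ev (nat_lit 52) (nat_lit 507510800) (.ev (nat_lit 84) (nat_lit 4) (.ev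
 (nat_lit 196) (nat_lit 16384) (.nd (nat_lit 496) (.br (nat_lit 6) (.br (nat_lit 4) (.ch (nat_lit 1) (.ev
 (nat_lit 512) (nat_lit 564134144) (.ev (nat_lit 580) (nat_lit 64) (.ev (nat_lit 1284) (nat_lit 2) (.ev
 (nat_lit 1293) (nat_lit 524288) .dd))))) (.br (nat_lit 5) (.ch (nat_lit 4) (.ev (nat_lit 512) (nat_lit 66)
 (.ev (nat_lit 1284) (nat_lit 2097152) (.ev (nat_lit 1476) (nat_lit 8388608) (.ev (nat_lit 1824) (nat_lit
 536871168) (.fin (nat_lit 576462401572389440))))))) (.ch (nat_lit 5) (.ev (nat_lit 512) (nat_lit 19398914)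
 (.ev (nat_lit 580) (nat_lit 536870912) (.ev (nat_lit 628) (nat_lit 8388608) (.ev (nat_lit 637) (nat_lit 64)
 .dd))))))) (.br (nat_lit 11) (.br (nat_lit 8) (.ch (nat_lit 6) (.ev (nat_lit 512) (nat_lit 562561026) (.ev
 (nat_lit 580) (nat_lit 256) (.ev (nat_lit 1808) (nat_lit 2097152) (.ev (nat_lit 1821) (nat_lit 64) .dd)))))
 (.ch (nat_lit 8) (.ev (nat_lit 512) (nat_lit 562561344) (.ev (nat_lit 528) (nat_lit 2097152) (.ev (nat_lit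
 541) (nat_lit 2) .dd))))) (.br (nat_lit 12) (.ch (nat_lit 11) (.ev (nat_lit 512) (nat_lit 556269888) (.ev
 (nat_lit 528) (nat_lit 8388608) (.ev (nat_lit 541) (nat_lit 2) .dd)))) (.ch (nat_lit 12) (.ev (nat_lit 512)
 (nat_lit 547881216) (.ev (nat_lit 1104) (nat_lit 64) (.ev (nat_lit 1300) (nat_lit 16777216) (.ev (nat_lit
 1309) (nat_lit 2) .dd))))))))))))) (.ch (nat_lit 38) (.ev (nat_lit 52) (nat_lit 520618066) (.ev (nat_lit 84)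
 (nat_lit 256) (.ev (nat_lit 196) (nat_lit 16384) (.nd (nat_lit 496) (.br (nat_lit 8) (.br (nat_lit 4) (.ch
 (nat_lit 1) (.ev (nat_lit 512) (nat_lit 538968064) (.ev (nat_lit 1232) (nat_lit 4) (.ev (nat_lit 1668)
 (nat_lit 4194304) (.ev (nat_lit 1677) (nat_lit 8388608) .dd))))) (.br (nat_lit 5) (.ch (nat_lit 4) (.ev
 (nat_lit 512) (nat_lit 538968068) (.ev (nat_lit 1572) (nat_lit 4194304) (.ev (nat_lit 1581) (nat_lit 8388608)
 .dd)))) (.ch (nat_lit 5) (.ev (nat_lit 512) (nat_lit 4194308) (.ev (nat_lit 580) (nat_lit 536870912) (.ev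
 (nat_lit 916) (nat_lit 2097152) (.ev (nat_lit 925) (nat_lit 8388608) .dd))))))) (.br (nat_lit 11) (.ch
 (nat_lit 8) (.ev (nat_lit 512) (nat_lit 543162368) (.ev (nat_lit 1504) (nat_lit 4) (.ev (nat_lit 1517)
 (nat_lit 8388608) .dd)))) (.br (nat_lit 12) (.ch (nat_lit 11) (.ev (nat_lit 512) (nat_lit 6291460) (.ev
 (nat_lit 1028) (nat_lit 536870912) (.ev (nat_lit 1037) (nat_lit 8388608) .dd)))) (.ch (nat_lit 12) (.ev
 (nat_lit 512) (nat_lit 551550980) .dd)))))))))))) (.br (nat_lit 45) (.br (nat_lit 44) (.ch (nat_lit 42) (.ev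
 (nat_lit 52) (nat_lit 207634752) (.ev (nat_lit 64) (nat_lit 864550934) .dd))) (.ch (nat_lit 44) (.ev (nat_lit
 52) (nat_lit 50856272) (.ev (nat_lit 64) (nat_lit 1021329414) .dd)))) (.br (nat_lit 46) (.ch (nat_lit 45) (.ev
 (nat_lit 52) (nat_lit 541065542) (.ev (nat_lit 84) (nat_lit 167772160) (.ev (nat_lit 116) (nat_lit 8388608)
 (.ev (nat_lit 164) (nat_lit 67125248) (.nd (nat_lit 496) (.br (nat_lit 9) (.br (nat_lit 6) (.ch (nat_lit 5)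
 (.ev (nat_lit 512) (nat_lit 17301504) (.ev (nat_lit 854) (nat_lit 268435472) (.ev (nat_lit 861) (nat_lit
 2097152) .dd)))) (.br (nat_lit 8) (.ch (nat_lit 6) (.ev (nat_lit 512) (nat_lit 2621456) (.ev (nat_lit 1172)
 (nat_lit 16777216) (.ev (nat_lit 1181) (nat_lit 268435456) .dd)))) (.ch (nat_lit 8) (.ev (nat_lit 512)
 (nat_lit 271056912) (.ev (nat_lit 525) (nat_lit 16777216) .dd))))) (.br (nat_lit 11) (.ch (nat_lit 9) (.ev
 (nat_lit 512) (nat_lit 287309840) (.ev (nat_lit 525) (nat_lit 524288) .dd))) (.br (nat_lit 12) (.ch (nat_lit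
 11) (.ev (nat_lit 512) (nat_lit 287834128) .dd)) (.ch (nat_lit 12) (.ev (nat_lit 512) (nat_lit 287834128)
 .dd))))))))))) (.ch (nat_lit 46) (.ev (nat_lit 52) (nat_lit 807944210) (.ev (nat_lit 84) (nat_lit 201326592)
 (.ev (nat_lit 116) (nat_lit 16777216) (.ev (nat_lit 276) (nat_lit 4194304) (.ev (nat_lit 308) (nat_lit 4) (.nd
 (nat_lit 496) (.br (nat_lit 8) (.br (nat_lit 4) (.ch (nat_lit 1) (.ev (nat_lit 512) (nat_lit 256) (.ev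
 (nat_lit 580) (nat_lit 64) (.ev (nat_lit 1312) (nat_lit 33554432) (.ev (nat_lit 1325) (nat_lit 8388608)
 .dd))))) (.br (nat_lit 6) (.ch (nat_lit 4) (.ev (nat_lit 512) (nat_lit 33554496) (.ev (nat_lit 580) (nat_lit
 256) (.ev (nat_lit 589) (nat_lit 8388608) .dd)))) (.ch (nat_lit 6) (.ev (nat_lit 512) (nat_lit 8388608) (.ev
 (nat_lit 612) (nat_lit 64) (.ev (nat_lit 2160) (nat_lit 33554688) .dd)))))) (.br (nat_lit 11) (.br (nat_lit 9)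
 (.ch (nat_lit 8) (.ev (nat_lit 512) (nat_lit 41943360) .dd)) (.ch (nat_lit 9) (.ev (nat_lit 512) (nat_lit
 33554496) (.ev (nat_lit 2064) (nat_lit 256) (.ev (nat_lit 2077) (nat_lit 8388608) .dd))))) (.br (nat_lit 12)
 (.ch (nat_lit 11) (.ev (nat_lit 512) (nat_lit 8388928) (.ev (nat_lit 525) (nat_lit 33554432) .dd))) (.ch
 (nat_lit 12) (.ev (nat_lit 512) (nat_lit 33554496) (.ev (nat_lit 580) (nat_lit 8388608) (.ev (nat_lit 589)
 (nat_lit 256) .dd)))))))))))))))))))))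

/-- The trie. -/
noncomputable def T : Tr := .nd (nat_lit 1000000) (.br (nat_lit 3) (.br (nat_lit 1) (.ch (nat_lit 0) (.ev
 (nat_lit 0) (nat_lit 2147483647) .dd)) (.br (nat_lit 2) (.ch (nat_lit 1) (.ev (nat_lit 0) (nat_lit 2147483647)
 .dd)) (.ch (nat_lit 2) T2))) (.br (nat_lit 4) (.ch (nat_lit 3) (.ev (nat_lit 0) (nat_lit 2147483647) .dd))
 (.br (nat_lit 5) (.ch (nat_lit 4) T4) (.ch (nat_lit 5) T5))))

/-- The possible values. -/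
noncomputable def oks : List ℕ := [3, 79, 178, 243, 706]

/-- The parameters. -/
noncomputable def S : Pr := ⟨fun i l e => lget mz (lget [] (lget [] tabs i) l) e, oks, [(nat_lit 0), (nat_lit
 1), (nat_lit 0), (nat_lit 0)], T, (nat_lit 2147483647), (nat_lit 1073946281), (nat_lit 31), [(nat_lit 11),
 (nat_lit 12800101590481)], [(nat_lit 2197), (nat_lit 2209)]⟩

/-- Nothing known. -/
noncomputable def cs0 : Cs := (.cons (nat_lit 13) (nat_lit 0) (nat_lit 1) (.cons (nat_lit 47) (nat_lit 0) (nat_lit 1) .nil))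

theorem part_2 : part S cs0 (nat_lit 2) = true := by decide +kernel

theorem part_4 : part S cs0 (nat_lit 4) = true := by decide +kernel

theorem part_5 : part S cs0 (nat_lit 5) = true := by decide +kernel

/-- Data of a prime. -/
noncomputable def D0 : PD := ⟨(nat_lit 13), (nat_lit 3), (963, 6, 3), (1541, 898, 2148), (848, 1279, 820)⟩

theorem D0_ok : D0.Ok := pdb_sound (s := 2) (C := ⟨⟨3, 18, -4, -17, 2, 1, 2, -1, -7⟩, (3, 9, 2)⟩) (by show Nat.Prime 13; norm_num) (by decide +kernel)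

/-- Lines of the first type. -/
noncomputable def Cl0 : List C1 := [⟨⟨17, -2, -16, 3, 18, 1, -2, 1, -5⟩, (10, 1, 8)⟩,
  ⟨⟨3, -18, -4, -17, -2, 1, 2, 1, -7⟩, (5, 2, 12)⟩,
  ⟨⟨0, 0, 0, 0, 0, 0, 0, 0, 0⟩, (0, 0, 0)⟩,
  ⟨⟨17, 2, -16, 3, -18, 1, -2, -1, -5⟩, (8, 6, 9)⟩,
  ⟨⟨0, 0, 0, 0, 0, 0, 0, 0, 0⟩, (0, 0, 0)⟩,
  ⟨⟨0, 0, 0, 0, 0, 0, 0, 0, 0⟩, (0, 0, 0)⟩,
  ⟨⟨0, 0, 0, 0, 0, 0, 0, 0, 0⟩, (0, 0, 0)⟩,
  ⟨⟨0, 0, 0, 0, 0, 0, 0, 0, 0⟩, (0, 0, 0)⟩,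
  ⟨⟨0, 0, 0, 0, 0, 0, 0, 0, 0⟩, (0, 0, 0)⟩,
  ⟨⟨0, 0, 0, 0, 0, 0, 0, 0, 0⟩, (0, 0, 0)⟩,
  ⟨⟨0, 0, 0, 0, 0, 0, 0, 0, 0⟩, (0, 0, 0)⟩,
  ⟨⟨0, 0, 0, 0, 0, 0, 0, 0, 0⟩, (0, 0, 0)⟩,
  ⟨⟨0, 0, 0, 0, 0, 0, 0, 0, 0⟩, (0, 0, 0)⟩]

/-- Data of a prime. -/
noncomputable def D1 : PD := ⟨(nat_lit 47), (nat_lit 2), (1034, 1, 9), (105, 517, 2039), (987, 5, 190)⟩

theorem D1_ok : D1.Ok := pdb_sound (s := 1) (C := ⟨⟨47, 2, -76, 47, -2, 29, 0, -21, -1⟩, (2, 45, 26)⟩) (by show Nat.Prime 47; norm_num) (by decide +kernel)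

/-- Lines of the first type. -/
noncomputable def Cl1 : List C1 := [⟨⟨47, -2, -76, 47, 2, 29, 0, 21, -1⟩, (9, 38, 23)⟩,
  ⟨⟨0, 0, 0, 0, 0, 0, 0, 0, 0⟩, (0, 0, 0)⟩,
  ⟨⟨0, 0, 0, 0, 0, 0, 0, 0, 0⟩, (0, 0, 0)⟩,
  ⟨⟨0, 0, 0, 0, 0, 0, 0, 0, 0⟩, (0, 0, 0)⟩,
  ⟨⟨17, 22, -76, -63, 18, 19, -4, -19, -7⟩, (10, 21, 17)⟩,
  ⟨⟨0, 0, 0, 0, 0, 0, 0, 0, 0⟩, (0, 0, 0)⟩,
  ⟨⟨57, -18, -61, -23, -62, 4, -8, 5, -17⟩, (3, 26, 7)⟩,
  ⟨⟨57, 18, -61, -23, 62, 4, -8, -5, -17⟩, (16, 29, 6)⟩,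
  ⟨⟨53, -22, -64, -13, -62, 29, -12, -3, -13⟩, (46, 10, 2)⟩,
  ⟨⟨0, 0, 0, 0, 0, 0, 0, 0, 0⟩, (0, 0, 0)⟩,
  ⟨⟨43, -38, -59, 3, -42, 56, -16, -11, -1⟩, (35, 9, 46)⟩,
  ⟨⟨0, 0, 0, 0, 0, 0, 0, 0, 0⟩, (0, 0, 0)⟩,
  ⟨⟨0, 0, 0, 0, 0, 0, 0, 0, 0⟩, (0, 0, 0)⟩,
  ⟨⟨-17, -22, -59, -63, 18, 44, 4, 19, -11⟩, (15, 39, 2)⟩,
  ⟨⟨0, 0, 0, 0, 0, 0, 0, 0, 0⟩, (0, 0, 0)⟩,
  ⟨⟨0, 0, 0, 0, 0, 0, 0, 0, 0⟩, (0, 0, 0)⟩,
  ⟨⟨0, 0, 0, 0, 0, 0, 0, 0, 0⟩, (0, 0, 0)⟩,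
  ⟨⟨53, 22, -64, -13, 62, 29, -12, 3, -13⟩, (41, 13, 12)⟩,
  ⟨⟨0, 0, 0, 0, 0, 0, 0, 0, 0⟩, (0, 0, 0)⟩,
  ⟨⟨0, 0, 0, 0, 0, 0, 0, 0, 0⟩, (0, 0, 0)⟩,
  ⟨⟨0, 0, 0, 0, 0, 0, 0, 0, 0⟩, (0, 0, 0)⟩,
  ⟨⟨0, 0, 0, 0, 0, 0, 0, 0, 0⟩, (0, 0, 0)⟩,
  ⟨⟨0, 0, 0, 0, 0, 0, 0, 0, 0⟩, (0, 0, 0)⟩,
  ⟨⟨43, 38, -59, 3, 42, 56, -16, 11, -1⟩, (5, 8, 20)⟩,
  ⟨⟨3, -42, -59, 43, -38, 16, 16, 11, -17⟩, (39, 42, 20)⟩,
  ⟨⟨0, 0, 0, 0, 0, 0, 0, 0, 0⟩, (0, 0, 0)⟩,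
  ⟨⟨0, 0, 0, 0, 0, 0, 0, 0, 0⟩, (0, 0, 0)⟩,
  ⟨⟨0, 0, 0, 0, 0, 0, 0, 0, 0⟩, (0, 0, 0)⟩,
  ⟨⟨0, 0, 0, 0, 0, 0, 0, 0, 0⟩, (0, 0, 0)⟩,
  ⟨⟨0, 0, 0, 0, 0, 0, 0, 0, 0⟩, (0, 0, 0)⟩,
  ⟨⟨-13, -62, -16, 53, -22, 11, 12, 3, -25⟩, (34, 6, 12)⟩,
  ⟨⟨0, 0, 0, 0, 0, 0, 0, 0, 0⟩, (0, 0, 0)⟩,
  ⟨⟨0, 0, 0, 0, 0, 0, 0, 0, 0⟩, (0, 0, 0)⟩,
  ⟨⟨0, 0, 0, 0, 0, 0, 0, 0, 0⟩, (0, 0, 0)⟩,
  ⟨⟨17, -22, -76, -63, -18, 19, -4, 19, -7⟩, (15, 8, 2)⟩,
  ⟨⟨0, 0, 0, 0, 0, 0, 0, 0, 0⟩, (0, 0, 0)⟩,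
  ⟨⟨0, 0, 0, 0, 0, 0, 0, 0, 0⟩, (0, 0, 0)⟩,
  ⟨⟨3, 42, -59, 43, 38, 16, 16, -11, -17⟩, (38, 12, 46)⟩,
  ⟨⟨0, 0, 0, 0, 0, 0, 0, 0, 0⟩, (0, 0, 0)⟩,
  ⟨⟨-13, 62, -16, 53, 22, 11, 12, -3, -25⟩, (37, 1, 2)⟩,
  ⟨⟨23, 62, -19, 57, -18, 4, 8, -5, -25⟩, (29, 31, 6)⟩,
  ⟨⟨23, -62, -19, 57, 18, 4, 8, 5, -25⟩, (26, 44, 7)⟩,
  ⟨⟨0, 0, 0, 0, 0, 0, 0, 0, 0⟩, (0, 0, 0)⟩,
  ⟨⟨-17, 22, -59, -63, -18, 44, 4, -19, -11⟩, (10, 26, 17)⟩,
  ⟨⟨0, 0, 0, 0, 0, 0, 0, 0, 0⟩, (0, 0, 0)⟩,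
  ⟨⟨0, 0, 0, 0, 0, 0, 0, 0, 0⟩, (0, 0, 0)⟩,
  ⟨⟨0, 0, 0, 0, 0, 0, 0, 0, 0⟩, (0, 0, 0)⟩]

/-- Data of a prime. -/
noncomputable def Dm : PD := ⟨(nat_lit 31), (nat_lit 2), (435, 8, 13), (281, 829, 278), (666, 926, 286)⟩

theorem Dm_ok : Dm.Ok := pdb_sound (s := 3) (C := ⟨⟨11, 26, -43, -19, 34, 32, -12, -3, -1⟩, (11, 12, 19)⟩) (by show Nat.Prime 31; norm_num) (by decide +kernel)

/-- Lines of the first type. -/
noncomputable def Clm : List C1 := [⟨⟨-11, -26, -32, 19, -34, 13, 12, 3, -13⟩, (22, 24, 7)⟩,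
  ⟨⟨0, 0, 0, 0, 0, 0, 0, 0, 0⟩, (0, 0, 0)⟩,
  ⟨⟨0, 0, 0, 0, 0, 0, 0, 0, 0⟩, (0, 0, 0)⟩,
  ⟨⟨29, 26, -37, 21, 6, 32, 8, -11, -7⟩, (2, 10, 23)⟩,
  ⟨⟨0, 0, 0, 0, 0, 0, 0, 0, 0⟩, (0, 0, 0)⟩,
  ⟨⟨21, 6, -53, 29, 26, 8, 8, -11, -1⟩, (6, 26, 20)⟩,
  ⟨⟨0, 0, 0, 0, 0, 0, 0, 0, 0⟩, (0, 0, 0)⟩,
  ⟨⟨29, -26, -37, 21, -6, 32, 8, 11, -7⟩, (27, 11, 16)⟩,
  ⟨⟨0, 0, 0, 0, 0, 0, 0, 0, 0⟩, (0, 0, 0)⟩,
  ⟨⟨-9, -6, -43, -41, 14, 28, 4, 13, -5⟩, (4, 1, 12)⟩,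
  ⟨⟨9, -6, -52, -41, -14, 13, -4, 13, -1⟩, (29, 16, 25)⟩,
  ⟨⟨21, -6, -53, 29, -26, 8, 8, 11, -1⟩, (7, 20, 13)⟩,
  ⟨⟨9, 6, -52, -41, 14, 13, -4, -13, -1⟩, (28, 24, 22)⟩,
  ⟨⟨0, 0, 0, 0, 0, 0, 0, 0, 0⟩, (0, 0, 0)⟩,
  ⟨⟨0, 0, 0, 0, 0, 0, 0, 0, 0⟩, (0, 0, 0)⟩,
  ⟨⟨0, 0, 0, 0, 0, 0, 0, 0, 0⟩, (0, 0, 0)⟩,
  ⟨⟨11, -26, -43, -19, -34, 32, -12, 3, -1⟩, (25, 16, 15)⟩,
  ⟨⟨-9, 6, -43, -41, -14, 28, 4, -13, -5⟩, (3, 24, 9)⟩,
  ⟨⟨0, 0, 0, 0, 0, 0, 0, 0, 0⟩, (0, 0, 0)⟩,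
  ⟨⟨0, 0, 0, 0, 0, 0, 0, 0, 0⟩, (0, 0, 0)⟩,
  ⟨⟨0, 0, 0, 0, 0, 0, 0, 0, 0⟩, (0, 0, 0)⟩,
  ⟨⟨0, 0, 0, 0, 0, 0, 0, 0, 0⟩, (0, 0, 0)⟩,
  ⟨⟨0, 0, 0, 0, 0, 0, 0, 0, 0⟩, (0, 0, 0)⟩,
  ⟨⟨0, 0, 0, 0, 0, 0, 0, 0, 0⟩, (0, 0, 0)⟩,
  ⟨⟨0, 0, 0, 0, 0, 0, 0, 0, 0⟩, (0, 0, 0)⟩,
  ⟨⟨0, 0, 0, 0, 0, 0, 0, 0, 0⟩, (0, 0, 0)⟩,
  ⟨⟨0, 0, 0, 0, 0, 0, 0, 0, 0⟩, (0, 0, 0)⟩,
  ⟨⟨0, 0, 0, 0, 0, 0, 0, 0, 0⟩, (0, 0, 0)⟩,
  ⟨⟨0, 0, 0, 0, 0, 0, 0, 0, 0⟩, (0, 0, 0)⟩,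
  ⟨⟨0, 0, 0, 0, 0, 0, 0, 0, 0⟩, (0, 0, 0)⟩,
  ⟨⟨-11, 26, -32, 19, 34, 13, 12, -3, -13⟩, (28, 8, 23)⟩]

/-- Unit moves. -/
noncomputable def U : List Mv := [mz,
  mz,
  mz,
  mz,
  mz,
  mz,
  ⟨⟨-1, 0, 1, 0, 1, 0, 0, 0, 1⟩, .nil, (nat_lit 12), (nat_lit 1), (nat_lit 4), (nat_lit 1), (0, 0, 0), [], 5⟩,
  ⟨⟨1, 0, 0, 0, -1, 0, 0, 0, 1⟩, .nil, (nat_lit 12), (nat_lit 3), (nat_lit 12), (nat_lit 1), (0, 0, 0), [], 11⟩,
  ⟨⟨-1, 0, 1, 0, -1, 0, 0, 0, 1⟩, .nil, (nat_lit 0), (nat_lit 3), (nat_lit 1), (nat_lit 0), (0, 0, 0), [], 10⟩,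
  ⟨⟨1, 0, 0, 0, -1, 0, 0, 0, 1⟩, .nil, (nat_lit 12), (nat_lit 3), (nat_lit 12), (nat_lit 1), (0, 0, 0), [], 11⟩,
  ⟨⟨-1, 0, 1, 0, 1, 0, 0, 0, 1⟩, .nil, (nat_lit 12), (nat_lit 1), (nat_lit 4), (nat_lit 1), (0, 0, 0), [], 5⟩,
  ⟨⟨-1, 0, 1, 0, -1, 0, 0, 0, 1⟩, .nil, (nat_lit 0), (nat_lit 3), (nat_lit 1), (nat_lit 0), (0, 0, 0), [], 10⟩,
  ⟨⟨1, 0, 0, 0, -1, 0, 0, 0, 1⟩, .nil, (nat_lit 12), (nat_lit 3), (nat_lit 12), (nat_lit 1), (0, 0, 0), [], 11⟩]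

theorem v_ty : tyb Dm S.ty1 Clm = true := by decide +kernel

theorem v_ty0 : tyb D0 (S.tys.getD 0 0) Cl0 = true := by decide +kernel

theorem v_ty1 : tyb D1 (S.tys.getD 1 0) Cl1 = true := by decide +kernel

theorem v_msc : mscb S D0 [D1] Dm (nat_lit 52) = true := by decide +kernel

theorem v_mv0 : mvsn (nat_lit 4663899253) S D0 [D1] Dm (nat_lit 52) 0 D0 = true := by decide +kernel

theorem v_mv1 : mvsn (nat_lit 4663899253) S D0 [D1] Dm (nat_lit 52) 1 D1 = true := by decide +kernel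

theorem v_mm : mmsn (nat_lit 4663899253) S D0 [D1] Dm (nat_lit 52) = true := by decide +kernel

theorem v_un : unb S D0 (nat_lit 52) U = true := by decide +kernel

theorem v_ok : okb S.oks [(0, 0, 0), (0, 0, 0), (0, 0, 0), (8, 13, 1), (0, 0, 0)] = true := by decide +kernel

theorem v_part : ∀ d < D0.p, (nat_lit 52).testBit d = true → part S (zc (D0 :: [D1])) d = true := by
  intro d hd h
  have h1 : ∀ d < 13, (nat_lit 52).testBit d = true → d = 2 ∨ d = 4 ∨ d = 5 := by decide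
  rcases h1 d hd h with rfl | rfl | rfl
  · exact part_2
  · exact part_4
  · exact part_5

theorem main (n : ℕ) (ho : Odd n) (hr : ¬ Rep n) (h0 : Split 13 n) (h1 : Split 47 n) (hm : Split 31 n) :
    n ∈ EE := by
  refine concln (W := nat_lit 4663899253) (S := S) (P0 := D0) (Pl := [D1]) (Pm := Dm) (cn := nat_lit 52) ?_ Dm_ok v_ty ?_ ?_ v_msc ?_ v_mm v_un v_part v_ok
    n ho hr ?_ hm
  · simp only [List.forall_mem_cons]
    exact ⟨D0_ok, D1_ok, fun _ h => absurd h (by simp)⟩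
  · exact all2 (φ := fun j P => ∃ L, tyb P (S.tys.getD j 0) L = true) ⟨_, v_ty0⟩ ⟨_, v_ty1⟩
  · exact all2 (φ := fun j P => Nat.ble (S.pks.getD j 0) (Nat.pow P.p P.K) = true) (by decide +kernel) (by decide +kernel)
  · exact all2 (φ := fun i P => mvsn (nat_lit 4663899253) S D0 [D1] Dm (nat_lit 52) i P = true) v_mv0 v_mv1
  · simp only [List.forall_mem_cons]
    exact ⟨h0, h1, fun _ h => absurd h (by simp)⟩

end Pool.Agent.Work.MP_9954fe_nt.P13_47_31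

namespace Pool.Agent.Work.MP_9954fe_nt.P13_71_53

/-- Dummy move. -/
noncomputable def mz : Mv := ⟨⟨0, 0, 0, 0, 0, 0, 0, 0, 0⟩, .nil, (nat_lit 0), (nat_lit 0), (nat_lit 0), (nat_lit 0), (0, 0, 0), [], 0⟩

/-- Moves. -/
noncomputable def t0_2 : List Mv := [
  ⟨⟨-1, -12, 9, 8, 5, 6, 8, -8, -7⟩, (.cons (nat_lit 1124) (nat_lit 173) (nat_lit 1983) (nat_lit 1) (.cons
 (nat_lit 1710) (nat_lit 1539) (nat_lit 4531) (nat_lit 1) .nil)), (nat_lit 29), (nat_lit 22), (nat_lit 0),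
 (nat_lit 1), (8, 1, 1), [1400, 2389], 47⟩,
  ⟨⟨9, 4, -16, -8, -5, -6, 8, -8, -7⟩, (.cons (nat_lit 2069) (nat_lit 1980) (nat_lit 385) (nat_lit 1) (.cons
 (nat_lit 4785) (nat_lit 1751) (nat_lit 2707) (nat_lit 1) .nil)), (nat_lit 0), (nat_lit 22), (nat_lit 23),
 (nat_lit 1), (6, 12, 1), [69, 1585], 6⟩,
  ⟨⟨9, 4, -16, -8, -5, -6, 8, -8, -7⟩, (.cons (nat_lit 2069) (nat_lit 1980) (nat_lit 385) (nat_lit 1) (.cons
 (nat_lit 4785) (nat_lit 1751) (nat_lit 2707) (nat_lit 1) .nil)), (nat_lit 0), (nat_lit 22), (nat_lit 23),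
 (nat_lit 1), (6, 12, 1), [69, 1585], 6⟩,
  ⟨⟨-1, -12, 9, -8, -5, -6, 8, -8, -7⟩, (.cons (nat_lit 1594) (nat_lit 334) (nat_lit 1902) (nat_lit 1) (.cons
 (nat_lit 5040) (nat_lit 4002) (nat_lit 2893) (nat_lit 1) .nil)), (nat_lit 52), (nat_lit 31), (nat_lit 35),
 (nat_lit 1), (8, 12, 1), [1259, 2947], 33⟩,
  ⟨⟨-1, -12, 9, 8, 5, 6, 8, -8, -7⟩, (.cons (nat_lit 1124) (nat_lit 173) (nat_lit 1983) (nat_lit 1) (.cons
 (nat_lit 1710) (nat_lit 1539) (nat_lit 4531) (nat_lit 1) .nil)), (nat_lit 29), (nat_lit 22), (nat_lit 0),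
 (nat_lit 1), (8, 1, 1), [1400, 2389], 47⟩,
  ⟨⟨9, 4, -16, 8, 5, 6, 8, -8, -7⟩, (.cons (nat_lit 309) (nat_lit 1036) (nat_lit 1493) (nat_lit 1) (.cons
 (nat_lit 945) (nat_lit 1332) (nat_lit 3509) (nat_lit 1) .nil)), (nat_lit 25), (nat_lit 31), (nat_lit 41),
 (nat_lit 1), (6, 1, 1), [249, 4573], 20⟩,
  ⟨⟨9, 4, -16, 8, 5, 6, 8, -8, -7⟩, (.cons (nat_lit 309) (nat_lit 1036) (nat_lit 1493) (nat_lit 1) (.cons
 (nat_lit 945) (nat_lit 1332) (nat_lit 3509) (nat_lit 1) .nil)), (nat_lit 25), (nat_lit 31), (nat_lit 41),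
 (nat_lit 1), (6, 1, 1), [249, 4573], 20⟩,
  ⟨⟨-1, -12, 9, -8, -5, -6, 8, -8, -7⟩, (.cons (nat_lit 1594) (nat_lit 334) (nat_lit 1902) (nat_lit 1) (.cons
 (nat_lit 5040) (nat_lit 4002) (nat_lit 2893) (nat_lit 1) .nil)), (nat_lit 52), (nat_lit 31), (nat_lit 35),
 (nat_lit 1), (8, 12, 1), [1259, 2947], 33⟩,
  ⟨⟨-1, -12, 9, -8, -5, -6, 8, -8, -7⟩, (.cons (nat_lit 1594) (nat_lit 334) (nat_lit 1902) (nat_lit 1) (.cons
 (nat_lit 5040) (nat_lit 4002) (nat_lit 2893) (nat_lit 1) .nil)), (nat_lit 52), (nat_lit 31), (nat_lit 35),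
 (nat_lit 1), (8, 12, 1), [1259, 2947], 33⟩,
  ⟨⟨-1, -12, 9, -8, -5, -6, 8, -8, -7⟩, (.cons (nat_lit 1594) (nat_lit 334) (nat_lit 1902) (nat_lit 1) (.cons
 (nat_lit 5040) (nat_lit 4002) (nat_lit 2893) (nat_lit 1) .nil)), (nat_lit 52), (nat_lit 31), (nat_lit 35),
 (nat_lit 1), (8, 12, 1), [1259, 2947], 33⟩,
  ⟨⟨-1, -12, 9, 8, 5, 6, 8, -8, -7⟩, (.cons (nat_lit 1124) (nat_lit 173) (nat_lit 1983) (nat_lit 1) (.cons
 (nat_lit 1710) (nat_lit 1539) (nat_lit 4531) (nat_lit 1) .nil)), (nat_lit 29), (nat_lit 22), (nat_lit 0),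
 (nat_lit 1), (8, 1, 1), [1400, 2389], 47⟩,
  ⟨⟨-1, -12, 9, -8, -5, -6, 8, -8, -7⟩, (.cons (nat_lit 1594) (nat_lit 334) (nat_lit 1902) (nat_lit 1) (.cons
 (nat_lit 5040) (nat_lit 4002) (nat_lit 2893) (nat_lit 1) .nil)), (nat_lit 52), (nat_lit 31), (nat_lit 35),
 (nat_lit 1), (8, 12, 1), [1259, 2947], 33⟩,
  ⟨⟨-1, -12, 9, -8, -5, -6, 8, -8, -7⟩, (.cons (nat_lit 1594) (nat_lit 334) (nat_lit 1902) (nat_lit 1) (.cons
 (nat_lit 5040) (nat_lit 4002) (nat_lit 2893) (nat_lit 1) .nil)), (nat_lit 52), (nat_lit 31), (nat_lit 35),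
 (nat_lit 1), (8, 12, 1), [1259, 2947], 33⟩]

/-- Moves. -/
noncomputable def t0_4 : List Mv := [
  ⟨⟨5, 12, -9, -12, 5, 6, 0, 0, -13⟩, (.cons (nat_lit 344) (nat_lit 106) (nat_lit 1760) (nat_lit 1) (.cons
 (nat_lit 1989) (nat_lit 2633) (nat_lit 2884) (nat_lit 1) .nil)), (nat_lit 1), (nat_lit 36), (nat_lit 43),
 (nat_lit 1), (12, 5, 0), [1668, 2922], 24⟩,
  ⟨⟨-5, -12, -4, -12, 5, 6, 0, 0, -13⟩, (.cons (nat_lit 907) (nat_lit 1531) (nat_lit 230) (nat_lit 1) (.cons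
 (nat_lit 5040) (nat_lit 4688) (nat_lit 3914) (nat_lit 1) .nil)), (nat_lit 52), (nat_lit 28), (nat_lit 49),
 (nat_lit 1), (1, 5, 0), [297, 250], 12⟩,
  ⟨⟨-5, -12, -4, -12, 5, 6, 0, 0, -13⟩, (.cons (nat_lit 907) (nat_lit 1531) (nat_lit 230) (nat_lit 1) (.cons
 (nat_lit 5040) (nat_lit 4688) (nat_lit 3914) (nat_lit 1) .nil)), (nat_lit 52), (nat_lit 28), (nat_lit 49),
 (nat_lit 1), (1, 5, 0), [297, 250], 12⟩,
  ⟨⟨-5, -12, -4, 12, -5, -6, 0, 0, -13⟩, (.cons (nat_lit 391) (nat_lit 1594) (nat_lit 1459) (nat_lit 1) (.cons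
 (nat_lit 1918) (nat_lit 1725) (nat_lit 2213) (nat_lit 1) .nil)), (nat_lit 1), (nat_lit 37), (nat_lit 28),
 (nat_lit 1), (1, 8, 0), [829, 3192], 46⟩,
  ⟨⟨5, 12, -9, 12, -5, -6, 0, 0, -13⟩, (.cons (nat_lit 472) (nat_lit 935) (nat_lit 1769) (nat_lit 1) (.cons
 (nat_lit 5040) (nat_lit 1980) (nat_lit 319) (nat_lit 1) .nil)), (nat_lit 52), (nat_lit 40), (nat_lit 17),
 (nat_lit 1), (12, 8, 0), [798, 716], 51⟩,
  ⟨⟨5, 12, -9, 12, -5, -6, 0, 0, -13⟩, (.cons (nat_lit 472) (nat_lit 935) (nat_lit 1769) (nat_lit 1) (.cons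
 (nat_lit 5040) (nat_lit 1980) (nat_lit 319) (nat_lit 1) .nil)), (nat_lit 52), (nat_lit 40), (nat_lit 17),
 (nat_lit 1), (12, 8, 0), [798, 716], 51⟩,
  ⟨⟨5, 12, -9, -12, 5, 6, 0, 0, -13⟩, (.cons (nat_lit 344) (nat_lit 106) (nat_lit 1760) (nat_lit 1) (.cons
 (nat_lit 1989) (nat_lit 2633) (nat_lit 2884) (nat_lit 1) .nil)), (nat_lit 1), (nat_lit 36), (nat_lit 43),
 (nat_lit 1), (12, 5, 0), [1668, 2922], 24⟩,
  ⟨⟨5, 12, -9, 12, -5, -6, 0, 0, -13⟩, (.cons (nat_lit 472) (nat_lit 935) (nat_lit 1769) (nat_lit 1) (.cons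
 (nat_lit 5040) (nat_lit 1980) (nat_lit 319) (nat_lit 1) .nil)), (nat_lit 52), (nat_lit 40), (nat_lit 17),
 (nat_lit 1), (12, 8, 0), [798, 716], 51⟩,
  ⟨⟨5, 12, -9, 12, -5, -6, 0, 0, -13⟩, (.cons (nat_lit 472) (nat_lit 935) (nat_lit 1769) (nat_lit 1) (.cons
 (nat_lit 5040) (nat_lit 1980) (nat_lit 319) (nat_lit 1) .nil)), (nat_lit 52), (nat_lit 40), (nat_lit 17),
 (nat_lit 1), (12, 8, 0), [798, 716], 51⟩,
  ⟨⟨-5, -12, -4, 12, -5, -6, 0, 0, -13⟩, (.cons (nat_lit 391) (nat_lit 1594) (nat_lit 1459) (nat_lit 1) (.cons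
 (nat_lit 1918) (nat_lit 1725) (nat_lit 2213) (nat_lit 1) .nil)), (nat_lit 1), (nat_lit 37), (nat_lit 28),
 (nat_lit 1), (1, 8, 0), [829, 3192], 46⟩,
  ⟨⟨5, 12, -9, 12, -5, -6, 0, 0, -13⟩, (.cons (nat_lit 472) (nat_lit 935) (nat_lit 1769) (nat_lit 1) (.cons
 (nat_lit 5040) (nat_lit 1980) (nat_lit 319) (nat_lit 1) .nil)), (nat_lit 52), (nat_lit 40), (nat_lit 17),
 (nat_lit 1), (12, 8, 0), [798, 716], 51⟩,
  ⟨⟨5, 12, -9, -12, 5, 6, 0, 0, -13⟩, (.cons (nat_lit 344) (nat_lit 106) (nat_lit 1760) (nat_lit 1) (.cons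
 (nat_lit 1989) (nat_lit 2633) (nat_lit 2884) (nat_lit 1) .nil)), (nat_lit 1), (nat_lit 36), (nat_lit 43),
 (nat_lit 1), (12, 5, 0), [1668, 2922], 24⟩,
  ⟨⟨5, 12, -9, 12, -5, -6, 0, 0, -13⟩, (.cons (nat_lit 472) (nat_lit 935) (nat_lit 1769) (nat_lit 1) (.cons
 (nat_lit 5040) (nat_lit 1980) (nat_lit 319) (nat_lit 1) .nil)), (nat_lit 52), (nat_lit 40), (nat_lit 17),
 (nat_lit 1), (12, 8, 0), [798, 716], 51⟩]

/-- Moves. -/
noncomputable def t0_5 : List Mv := [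
  ⟨⟨9, 8, -13, 10, -7, 0, 2, -4, -13⟩, (.cons (nat_lit 174) (nat_lit 316) (nat_lit 1278) (nat_lit 1) (.cons
 (nat_lit 1049) (nat_lit 590) (nat_lit 1022) (nat_lit 1) .nil)), (nat_lit 23), (nat_lit 36), (nat_lit 10),
 (nat_lit 1), (2, 8, 12), [574, 3570], 18⟩,
  ⟨⟨9, 8, -13, -10, 7, 0, 2, -4, -13⟩, (.cons (nat_lit 1016) (nat_lit 1868) (nat_lit 945) (nat_lit 1) (.cons
 (nat_lit 4735) (nat_lit 1277) (nat_lit 361) (nat_lit 1) .nil)), (nat_lit 8), (nat_lit 40), (nat_lit 3),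
 (nat_lit 1), (2, 5, 12), [53, 3190], 25⟩,
  ⟨⟨9, 8, -13, -10, 7, 0, 2, -4, -13⟩, (.cons (nat_lit 1016) (nat_lit 1868) (nat_lit 945) (nat_lit 1) (.cons
 (nat_lit 4735) (nat_lit 1277) (nat_lit 361) (nat_lit 1) .nil)), (nat_lit 8), (nat_lit 40), (nat_lit 3),
 (nat_lit 1), (2, 5, 12), [53, 3190], 25⟩,
  ⟨⟨9, 8, -13, -10, 7, 0, 2, -4, -13⟩, (.cons (nat_lit 1016) (nat_lit 1868) (nat_lit 945) (nat_lit 1) (.cons
 (nat_lit 4735) (nat_lit 1277) (nat_lit 361) (nat_lit 1) .nil)), (nat_lit 8), (nat_lit 40), (nat_lit 3),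
 (nat_lit 1), (2, 5, 12), [53, 3190], 25⟩,
  ⟨⟨-7, -12, 0, 10, -7, 0, 2, -4, -13⟩, (.cons (nat_lit 666) (nat_lit 1192) (nat_lit 2190) (nat_lit 1) (.cons
 (nat_lit 4427) (nat_lit 3779) (nat_lit 1939) (nat_lit 1) .nil)), (nat_lit 31), (nat_lit 28), (nat_lit 32),
 (nat_lit 1), (10, 8, 12), [1975, 417], 9⟩,
  ⟨⟨9, 8, -13, 10, -7, 0, 2, -4, -13⟩, (.cons (nat_lit 174) (nat_lit 316) (nat_lit 1278) (nat_lit 1) (.cons
 (nat_lit 1049) (nat_lit 590) (nat_lit 1022) (nat_lit 1) .nil)), (nat_lit 23), (nat_lit 36), (nat_lit 10),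
 (nat_lit 1), (2, 8, 12), [574, 3570], 18⟩,
  ⟨⟨9, 8, -13, 10, -7, 0, 2, -4, -13⟩, (.cons (nat_lit 174) (nat_lit 316) (nat_lit 1278) (nat_lit 1) (.cons
 (nat_lit 1049) (nat_lit 590) (nat_lit 1022) (nat_lit 1) .nil)), (nat_lit 23), (nat_lit 36), (nat_lit 10),
 (nat_lit 1), (2, 8, 12), [574, 3570], 18⟩,
  ⟨⟨9, 8, -13, -10, 7, 0, 2, -4, -13⟩, (.cons (nat_lit 1016) (nat_lit 1868) (nat_lit 945) (nat_lit 1) (.cons
 (nat_lit 4735) (nat_lit 1277) (nat_lit 361) (nat_lit 1) .nil)), (nat_lit 8), (nat_lit 40), (nat_lit 3),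
 (nat_lit 1), (2, 5, 12), [53, 3190], 25⟩,
  ⟨⟨-7, -12, 0, 10, -7, 0, 2, -4, -13⟩, (.cons (nat_lit 666) (nat_lit 1192) (nat_lit 2190) (nat_lit 1) (.cons
 (nat_lit 4427) (nat_lit 3779) (nat_lit 1939) (nat_lit 1) .nil)), (nat_lit 31), (nat_lit 28), (nat_lit 32),
 (nat_lit 1), (10, 8, 12), [1975, 417], 9⟩,
  ⟨⟨-7, -12, 0, -10, 7, 0, 2, -4, -13⟩, (.cons (nat_lit 1329) (nat_lit 1668) (nat_lit 2026) (nat_lit 1) (.cons
 (nat_lit 5040) (nat_lit 1458) (nat_lit 535) (nat_lit 1) .nil)), (nat_lit 52), (nat_lit 37), (nat_lit 8),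
 (nat_lit 1), (10, 5, 12), [947, 2089], 8⟩,
  ⟨⟨9, 8, -13, -10, 7, 0, 2, -4, -13⟩, (.cons (nat_lit 1016) (nat_lit 1868) (nat_lit 945) (nat_lit 1) (.cons
 (nat_lit 4735) (nat_lit 1277) (nat_lit 361) (nat_lit 1) .nil)), (nat_lit 8), (nat_lit 40), (nat_lit 3),
 (nat_lit 1), (2, 5, 12), [53, 3190], 25⟩,
  ⟨⟨9, 8, -13, -10, 7, 0, 2, -4, -13⟩, (.cons (nat_lit 1016) (nat_lit 1868) (nat_lit 945) (nat_lit 1) (.cons
 (nat_lit 4735) (nat_lit 1277) (nat_lit 361) (nat_lit 1) .nil)), (nat_lit 8), (nat_lit 40), (nat_lit 3),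
 (nat_lit 1), (2, 5, 12), [53, 3190], 25⟩,
  ⟨⟨9, 8, -13, -10, 7, 0, 2, -4, -13⟩, (.cons (nat_lit 1016) (nat_lit 1868) (nat_lit 945) (nat_lit 1) (.cons
 (nat_lit 4735) (nat_lit 1277) (nat_lit 361) (nat_lit 1) .nil)), (nat_lit 8), (nat_lit 40), (nat_lit 3),
 (nat_lit 1), (2, 5, 12), [53, 3190], 25⟩]

/-- Moves. -/
noncomputable def t1_2 : List Mv := [
  mz,
  ⟨⟨-75, 20, 43, -10, -21, -70, -12, 60, -13⟩, (.cons (nat_lit 407) (nat_lit 500) (nat_lit 1519) (nat_lit 1)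
 (.cons (nat_lit 2183) (nat_lit 3088) (nat_lit 4696) (nat_lit 1) .nil)), (nat_lit 13), (nat_lit 5), (nat_lit
 22), (nat_lit 1), (51, 21, 11), [996, 1149], 50⟩,
  mz,
  ⟨⟨65, -24, -72, -4, 55, -48, -10, -40, -49⟩, (.cons (nat_lit 2196) (nat_lit 1140) (nat_lit 1045) (nat_lit 1)
 (.cons (nat_lit 1440) (nat_lit 3833) (nat_lit 2184) (nat_lit 1) .nil)), (nat_lit 52), (nat_lit 17), (nat_lit
 14), (nat_lit 1), (37, 1, 38), [68, 1772], 9⟩,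
  ⟨⟨27, 68, 16, 64, -15, -62, -6, 48, -43⟩, (.cons (nat_lit 912) (nat_lit 802) (nat_lit 1807) (nat_lit 1)
 (.cons (nat_lit 4658) (nat_lit 1186) (nat_lit 3642) (nat_lit 1) .nil)), (nat_lit 11), (nat_lit 31), (nat_lit
 1), (nat_lit 1), (60, 16, 34), [1143, 342], 11⟩,
  ⟨⟨27, -68, 16, -64, -15, 62, -6, -48, -43⟩, (.cons (nat_lit 265) (nat_lit 259) (nat_lit 523) (nat_lit 1)
 (.cons (nat_lit 3952) (nat_lit 3498) (nat_lit 4017) (nat_lit 1) .nil)), (nat_lit 17), (nat_lit 41), (nat_lit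
 39), (nat_lit 1), (7, 36, 30), [61, 1753], 38⟩,
  mz,
  ⟨⟨-9, -56, -55, 56, 25, -68, -38, 16, -35⟩, (.cons (nat_lit 1479) (nat_lit 332) (nat_lit 1862) (nat_lit 1)
 (.cons (nat_lit 4702) (nat_lit 4382) (nat_lit 3443) (nat_lit 1) .nil)), (nat_lit 40), (nat_lit 4), (nat_lit
 24), (nat_lit 1), (69, 44, 31), [2042, 4893], 1⟩,
  ⟨⟨3, 40, -76, -64, -25, 12, 26, -32, -67⟩, (.cons (nat_lit 329) (nat_lit 1679) (nat_lit 1) (nat_lit 1391)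
 (.cons (nat_lit 2626) (nat_lit 27) (nat_lit 185) (nat_lit 1) .nil)), (nat_lit 20), (nat_lit 4), (nat_lit 8),
 (nat_lit 1), (14, 9, 3), [1832, 2369], 4⟩,
  mz,
  mz,
  ⟨⟨33, -20, -92, 64, 15, -2, 6, 48, -49⟩, (.cons (nat_lit 1918) (nat_lit 1695) (nat_lit 2141) (nat_lit 1)
 (.cons (nat_lit 3059) (nat_lit 1467) (nat_lit 959) (nat_lit 1) .nil)), (nat_lit 28), (nat_lit 17), (nat_lit
 15), (nat_lit 1), (67, 3, 38), [1112, 2396], 5⟩,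
  ⟨⟨9, 76, -20, -44, 15, 82, -42, 24, -25⟩, (.cons (nat_lit 2134) (nat_lit 1329) (nat_lit 866) (nat_lit 1)
 (.cons (nat_lit 381) (nat_lit 2442) (nat_lit 1190) (nat_lit 1) .nil)), (nat_lit 36), (nat_lit 24), (nat_lit
 43), (nat_lit 1), (31, 22, 21), [1952, 1983], 14⟩,
  mz,
  mz,
  ⟨⟨-9, 76, -11, -44, -15, -38, 42, 24, -67⟩, (.cons (nat_lit 1457) (nat_lit 2118) (nat_lit 1485) (nat_lit 1)
 (.cons (nat_lit 2322) (nat_lit 2751) (nat_lit 2508) (nat_lit 1) .nil)), (nat_lit 29), (nat_lit 25), (nat_lit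
 12), (nat_lit 1), (25, 67, 49), [1471, 1098], 2⟩,
  ⟨⟨17, 24, -89, 36, 55, 12, 54, -24, -53⟩, (.cons (nat_lit 167) (nat_lit 157) (nat_lit 836) (nat_lit 1) (.cons
 (nat_lit 3133) (nat_lit 4721) (nat_lit 2760) (nat_lit 1) .nil)), (nat_lit 16), (nat_lit 32), (nat_lit 3),
 (nat_lit 1), (7, 19, 64), [1654, 4158], 44⟩,
  mz,
  ⟨⟨9, 56, -64, -56, -25, -12, 38, -16, -73⟩, (.cons (nat_lit 86) (nat_lit 480) (nat_lit 1303) (nat_lit 1)
 (.cons (nat_lit 3600) (nat_lit 115) (nat_lit 2053) (nat_lit 1) .nil)), (nat_lit 24), (nat_lit 37), (nat_lit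
 6), (nat_lit 1), (56, 46, 55), [961, 609], 13⟩,
  ⟨⟨39, 40, -80, -44, 55, 32, -22, -8, -55⟩, (.cons (nat_lit 335) (nat_lit 499) (nat_lit 2180) (nat_lit 1)
 (.cons (nat_lit 3096) (nat_lit 1564) (nat_lit 3237) (nat_lit 1) .nil)), (nat_lit 16), (nat_lit 35), (nat_lit
 19), (nat_lit 1), (28, 3, 37), [67, 3449], 22⟩,
  mz,
  mz,
  ⟨⟨37, 48, -73, 36, -55, -48, 54, 24, -1⟩, (.cons (nat_lit 1580) (nat_lit 786) (nat_lit 50) (nat_lit 1) (.cons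
 (nat_lit 1931) (nat_lit 544) (nat_lit 1028) (nat_lit 1) .nil)), (nat_lit 31), (nat_lit 27), (nat_lit 34),
 (nat_lit 1), (15, 5, 43), [2174, 2791], 13⟩,
  ⟨⟨39, -40, -80, 44, 55, -32, -22, 8, -55⟩, (.cons (nat_lit 1915) (nat_lit 110) (nat_lit 1797) (nat_lit 1)
 (.cons (nat_lit 2564) (nat_lit 1734) (nat_lit 3102) (nat_lit 1) .nil)), (nat_lit 10), (nat_lit 21), (nat_lit
 22), (nat_lit 1), (1, 43, 14), [383, 2598], 27⟩,
  ⟨⟨-39, 40, -41, 44, 55, -12, 22, -8, -77⟩, (.cons (nat_lit 625) (nat_lit 1373) (nat_lit 1462) (nat_lit 1)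
 (.cons (nat_lit 2593) (nat_lit 4782) (nat_lit 1471) (nat_lit 1) .nil)), (nat_lit 15), (nat_lit 6), (nat_lit
 37), (nat_lit 1), (2, 56, 28), [1876, 466], 37⟩,
  mz,
  ⟨⟨51, -4, 40, 10, -69, -20, 60, 12, -49⟩, (.cons (nat_lit 30) (nat_lit 1601) (nat_lit 188) (nat_lit 1) (.cons
 (nat_lit 4832) (nat_lit 4434) (nat_lit 3130) (nat_lit 1) .nil)), (nat_lit 17), (nat_lit 49), (nat_lit 29),
 (nat_lit 1), (60, 41, 33), [4, 4285], 9⟩,
  mz,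
  mz,
  ⟨⟨-13, -72, 36, 70, -11, -30, -4, -44, -49⟩, (.cons (nat_lit 310) (nat_lit 1284) (nat_lit 995) (nat_lit 1)
 (.cons (nat_lit 1837) (nat_lit 1195) (nat_lit 1) (nat_lit 3195) .nil)), (nat_lit 51), (nat_lit 35), (nat_lit
 13), (nat_lit 1), (29, 35, 69), [601, 4745], 11⟩,
  mz,
  ⟨⟨-11, 72, -25, 50, -11, -80, -44, 4, -29⟩, (.cons (nat_lit 1592) (nat_lit 1184) (nat_lit 55) (nat_lit 1)
 (.cons (nat_lit 1101) (nat_lit 3638) (nat_lit 3681) (nat_lit 1) .nil)), (nat_lit 10), (nat_lit 15), (nat_lit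
 51), (nat_lit 1), (44, 13, 34), [2150, 3560], 31⟩,
  mz,
  ⟨⟨-29, -72, 20, -56, 25, 68, -38, -16, -35⟩, (.cons (nat_lit 1644) (nat_lit 1623) (nat_lit 2017) (nat_lit 1)
 (.cons (nat_lit 3447) (nat_lit 1332) (nat_lit 3344) (nat_lit 1) .nil)), (nat_lit 38), (nat_lit 9), (nat_lit
 17), (nat_lit 1), (27, 35, 6), [346, 442], 50⟩,
  ⟨⟨75, 20, -32, 10, -21, -80, 12, 60, -25⟩, (.cons (nat_lit 370) (nat_lit 2148) (nat_lit 748) (nat_lit 1)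
 (.cons (nat_lit 3179) (nat_lit 4361) (nat_lit 427) (nat_lit 1) .nil)), (nat_lit 0), (nat_lit 41), (nat_lit
 13), (nat_lit 1), (30, 4, 19), [950, 1161], 52⟩,
  mz,
  ⟨⟨3, -40, -76, -64, 25, 12, 26, 32, -67⟩, (.cons (nat_lit 1025) (nat_lit 1751) (nat_lit 2149) (nat_lit 1)
 (.cons (nat_lit 4667) (nat_lit 156) (nat_lit 1811) (nat_lit 1) .nil)), (nat_lit 7), (nat_lit 43), (nat_lit
 40), (nat_lit 1), (58, 17, 53), [630, 4447], 12⟩,
  mz,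
  ⟨⟨17, -24, -89, -36, 55, -12, 54, 24, -53⟩, (.cons (nat_lit 1289) (nat_lit 1860) (nat_lit 1460) (nat_lit 1)
 (.cons (nat_lit 4185) (nat_lit 5006) (nat_lit 4447) (nat_lit 1) .nil)), (nat_lit 12), (nat_lit 47), (nat_lit
 16), (nat_lit 1), (5, 27, 66), [365, 3559], 36⟩,
  ⟨⟨-3, 40, -73, -64, 25, 52, -26, -32, -41⟩, (.cons (nat_lit 511) (nat_lit 1714) (nat_lit 2016) (nat_lit 1)
 (.cons (nat_lit 793) (nat_lit 2177) (nat_lit 4708) (nat_lit 1) .nil)), (nat_lit 4), (nat_lit 37), (nat_lit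
 10), (nat_lit 1), (12, 43, 33), [1576, 170], 16⟩,
  mz,
  mz,
  ⟨⟨-65, 24, -7, -4, 55, 52, 10, 40, -59⟩, (.cons (nat_lit 797) (nat_lit 566) (nat_lit 1132) (nat_lit 1) (.cons
 (nat_lit 4971) (nat_lit 535) (nat_lit 2015) (nat_lit 1) .nil)), (nat_lit 40), (nat_lit 27), (nat_lit 32),
 (nat_lit 1), (43, 66, 48), [2192, 679], 8⟩,
  ⟨⟨11, -72, -36, -50, 11, -30, 44, -4, -73⟩, (.cons (nat_lit 1953) (nat_lit 1575) (nat_lit 1251) (nat_lit 1)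
 (.cons (nat_lit 4386) (nat_lit 3651) (nat_lit 2553) (nat_lit 1) .nil)), (nat_lit 33), (nat_lit 48), (nat_lit
 34), (nat_lit 1), (69, 22, 63), [1152, 4192], 50⟩,
  ⟨⟨-39, -40, -41, -44, 55, 12, 22, 8, -77⟩, (.cons (nat_lit 1136) (nat_lit 191) (nat_lit 1661) (nat_lit 1)
 (.cons (nat_lit 2834) (nat_lit 3656) (nat_lit 762) (nat_lit 1) .nil)), (nat_lit 10), (nat_lit 15), (nat_lit
 13), (nat_lit 1), (46, 61, 5), [387, 4635], 9⟩,
  mz,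
  ⟨⟨51, 52, -56, -44, 15, -38, 42, -24, -67⟩, (.cons (nat_lit 163) (nat_lit 467) (nat_lit 943) (nat_lit 1)
 (.cons (nat_lit 41) (nat_lit 2210) (nat_lit 3118) (nat_lit 1) .nil)), (nat_lit 28), (nat_lit 1), (nat_lit 43),
 (nat_lit 1), (52, 15, 47), [956, 4733], 5⟩,
  ⟨⟨9, -16, 80, 10, 69, 10, 60, -12, -11⟩, (.cons (nat_lit 810) (nat_lit 1139) (nat_lit 1750) (nat_lit 1)
 (.cons (nat_lit 1300) (nat_lit 2298) (nat_lit 2964) (nat_lit 1) .nil)), (nat_lit 17), (nat_lit 9), (nat_lit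
 46), (nat_lit 1), (33, 13, 7), [607, 4622], 44⟩,
  ⟨⟨51, 4, 40, 10, 69, -20, 60, -12, -49⟩, (.cons (nat_lit 2196) (nat_lit 1025) (nat_lit 209) (nat_lit 1)
 (.cons (nat_lit 3825) (nat_lit 712) (nat_lit 4282) (nat_lit 1) .nil)), (nat_lit 52), (nat_lit 44), (nat_lit
 50), (nat_lit 1), (13, 29, 32), [215, 195], 27⟩,
  ⟨⟨29, 72, -9, 56, -25, 12, 38, 16, -73⟩, (.cons (nat_lit 82) (nat_lit 822) (nat_lit 765) (nat_lit 1) (.cons
 (nat_lit 4249) (nat_lit 3528) (nat_lit 688) (nat_lit 1) .nil)), (nat_lit 17), (nat_lit 49), (nat_lit 49),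
 (nat_lit 1), (5, 17, 9), [1932, 1706], 18⟩,
  ⟨⟨65, 24, -72, -4, -55, -48, -10, 40, -49⟩, (.cons (nat_lit 890) (nat_lit 1887) (nat_lit 310) (nat_lit 1)
 (.cons (nat_lit 533) (nat_lit 4828) (nat_lit 4201) (nat_lit 1) .nil)), (nat_lit 24), (nat_lit 23), (nat_lit
 51), (nat_lit 1), (39, 26, 65), [892, 3089], 41⟩,
  ⟨⟨-51, 52, -5, 44, 15, -82, -42, -24, -25⟩, (.cons (nat_lit 959) (nat_lit 1057) (nat_lit 973) (nat_lit 1)
 (.cons (nat_lit 4322) (nat_lit 2780) (nat_lit 4741) (nat_lit 1) .nil)), (nat_lit 25), (nat_lit 19), (nat_lit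
 31), (nat_lit 1), (18, 68, 19), [940, 1516], 24⟩,
  mz,
  ⟨⟨13, -72, 23, 70, 11, -40, 4, -44, -53⟩, (.cons (nat_lit 145) (nat_lit 799) (nat_lit 1) (nat_lit 936) (.cons
 (nat_lit 4841) (nat_lit 1750) (nat_lit 2908) (nat_lit 1) .nil)), (nat_lit 39), (nat_lit 26), (nat_lit 21),
 (nat_lit 1), (14, 59, 48), [1726, 2831], 10⟩,
  ⟨⟨9, 16, 80, 10, -69, 10, 60, 12, -11⟩, (.cons (nat_lit 2196) (nat_lit 1176) (nat_lit 360) (nat_lit 1) (.cons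
 (nat_lit 54) (nat_lit 3878) (nat_lit 1) (nat_lit 1349) .nil)), (nat_lit 52), (nat_lit 36), (nat_lit 18),
 (nat_lit 1), (58, 25, 8), [723, 3435], 31⟩,
  ⟨⟨75, -20, -32, -10, -21, 80, 12, -60, -25⟩, (.cons (nat_lit 1051) (nat_lit 968) (nat_lit 378) (nat_lit 1)
 (.cons (nat_lit 3993) (nat_lit 2116) (nat_lit 1527) (nat_lit 1) .nil)), (nat_lit 4), (nat_lit 48), (nat_lit
 1), (nat_lit 0), (52, 12, 14), [264, 4142], 37⟩,
  mz,
  ⟨⟨-11, -72, -25, -50, -11, 80, -44, -4, -29⟩, (.cons (nat_lit 340) (nat_lit 2125) (nat_lit 1330) (nat_lit 1)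
 (.cons (nat_lit 264) (nat_lit 1690) (nat_lit 3563) (nat_lit 1) .nil)), (nat_lit 1), (nat_lit 5), (nat_lit 44),
 (nat_lit 1), (38, 63, 10), [1415, 2789], 33⟩,
  ⟨⟨-75, -20, 43, -10, 21, -70, -12, -60, -13⟩, (.cons (nat_lit 418) (nat_lit 1182) (nat_lit 317) (nat_lit 1)
 (.cons (nat_lit 2500) (nat_lit 553) (nat_lit 252) (nat_lit 1) .nil)), (nat_lit 22), (nat_lit 0), (nat_lit 7),
 (nat_lit 1), (2, 5, 6), [1316, 4292], 25⟩,
  mz,
  mz,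
  mz,
  ⟨⟨11, 72, -36, 50, 11, 30, 44, 4, -73⟩, (.cons (nat_lit 1164) (nat_lit 1658) (nat_lit 1923) (nat_lit 1)
 (.cons (nat_lit 4497) (nat_lit 1862) (nat_lit 1092) (nat_lit 1) .nil)), (nat_lit 26), (nat_lit 47), (nat_lit
 37), (nat_lit 1), (4, 44, 16), [1930, 2716], 12⟩,
  mz,
  ⟨⟨9, -28, -85, -70, -11, 30, -4, 44, -49⟩, (.cons (nat_lit 2113) (nat_lit 543) (nat_lit 1870) (nat_lit 1)
 (.cons (nat_lit 4104) (nat_lit 2394) (nat_lit 3977) (nat_lit 1) .nil)), (nat_lit 1), (nat_lit 48), (nat_lit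
 9), (nat_lit 1), (14, 41, 49), [1072, 574], 33⟩,
  ⟨⟨75, -16, -52, 4, 55, -52, 10, -40, -59⟩, (.cons (nat_lit 2196) (nat_lit 1263) (nat_lit 191) (nat_lit 1)
 (.cons (nat_lit 321) (nat_lit 2803) (nat_lit 1402) (nat_lit 1) .nil)), (nat_lit 52), (nat_lit 16), (nat_lit
 20), (nat_lit 1), (51, 51, 21), [1999, 2546], 1⟩,
  mz,
  ⟨⟨-27, -68, 43, 64, -15, -2, 6, -48, -49⟩, (.cons (nat_lit 573) (nat_lit 1327) (nat_lit 1531) (nat_lit 1)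
 (.cons (nat_lit 4695) (nat_lit 3393) (nat_lit 4644) (nat_lit 1) .nil)), (nat_lit 11), (nat_lit 43), (nat_lit
 27), (nat_lit 1), (60, 55, 34), [1055, 4313], 30⟩,
  ⟨⟨13, 72, 23, -70, 11, 40, 4, 44, -53⟩, (.cons (nat_lit 362) (nat_lit 1088) (nat_lit 889) (nat_lit 1) (.cons
 (nat_lit 137) (nat_lit 1283) (nat_lit 2738) (nat_lit 1) .nil)), (nat_lit 33), (nat_lit 8), (nat_lit 7),
 (nat_lit 1), (20, 7, 28), [308, 4181], 43⟩,
  ⟨⟨-23, 72, 32, 64, 25, -52, -26, 32, -41⟩, (.cons (nat_lit 1185) (nat_lit 412) (nat_lit 642) (nat_lit 1)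
 (.cons (nat_lit 4155) (nat_lit 2570) (nat_lit 4905) (nat_lit 1) .nil)), (nat_lit 40), (nat_lit 46), (nat_lit
 21), (nat_lit 1), (27, 36, 12), [821, 805], 27⟩,
  ⟨⟨17, 24, 72, -36, -55, 48, 54, -24, -1⟩, (.cons (nat_lit 1355) (nat_lit 128) (nat_lit 312) (nat_lit 1)
 (.cons (nat_lit 844) (nat_lit 216) (nat_lit 2930) (nat_lit 1) .nil)), (nat_lit 44), (nat_lit 19), (nat_lit 6),
 (nat_lit 1), (30, 20, 41), [408, 3130], 12⟩]

/-- Moves. -/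
noncomputable def t1_4 : List Mv := [
  mz,
  ⟨⟨63, 40, -56, 10, 21, 70, -12, 60, -13⟩, (.cons (nat_lit 2196) (nat_lit 1879) (nat_lit 1916) (nat_lit 1)
 (.cons (nat_lit 4580) (nat_lit 4789) (nat_lit 4651) (nat_lit 1) .nil)), (nat_lit 52), (nat_lit 12), (nat_lit
 45), (nat_lit 1), (31, 50, 11), [1750, 2962], 39⟩,
  mz,
  ⟨⟨65, -24, -72, 4, -55, 48, -10, -40, -49⟩, (.cons (nat_lit 1844) (nat_lit 420) (nat_lit 1777) (nat_lit 1)
 (.cons (nat_lit 3683) (nat_lit 732) (nat_lit 1532) (nat_lit 1) .nil)), (nat_lit 42), (nat_lit 41), (nat_lit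
 31), (nat_lit 1), (37, 70, 38), [604, 1361], 32⟩,
  ⟨⟨27, 68, 16, 64, -15, -62, -6, 48, -43⟩, (.cons (nat_lit 912) (nat_lit 802) (nat_lit 1807) (nat_lit 1)
 (.cons (nat_lit 4658) (nat_lit 1186) (nat_lit 3642) (nat_lit 1) .nil)), (nat_lit 11), (nat_lit 31), (nat_lit
 1), (nat_lit 1), (60, 16, 34), [1143, 342], 11⟩,
  ⟨⟨27, -68, 16, 64, 15, -62, -6, -48, -43⟩, (.cons (nat_lit 1887) (nat_lit 1965) (nat_lit 129) (nat_lit 1)
 (.cons (nat_lit 3930) (nat_lit 94) (nat_lit 1419) (nat_lit 1) .nil)), (nat_lit 36), (nat_lit 17), (nat_lit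
 42), (nat_lit 1), (7, 35, 30), [1848, 3431], 14⟩,
  mz,
  ⟨⟨-29, 72, 20, 56, 25, -68, -38, 16, -35⟩, (.cons (nat_lit 665) (nat_lit 804) (nat_lit 1453) (nat_lit 1)
 (.cons (nat_lit 4898) (nat_lit 188) (nat_lit 3186) (nat_lit 1) .nil)), (nat_lit 40), (nat_lit 12), (nat_lit
 1), (nat_lit 1), (33, 44, 31), [1367, 768], 27⟩,
  ⟨⟨23, -72, 9, 64, 25, -12, 26, -32, -67⟩, (.cons (nat_lit 814) (nat_lit 390) (nat_lit 1237) (nat_lit 1)
 (.cons (nat_lit 3301) (nat_lit 620) (nat_lit 2506) (nat_lit 1) .nil)), (nat_lit 14), (nat_lit 15), (nat_lit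
 5), (nat_lit 1), (60, 62, 3), [628, 2832], 38⟩,
  mz,
  mz,
  ⟨⟨33, -20, -92, 64, 15, -2, 6, 48, -49⟩, (.cons (nat_lit 1918) (nat_lit 1695) (nat_lit 2141) (nat_lit 1)
 (.cons (nat_lit 3059) (nat_lit 1467) (nat_lit 959) (nat_lit 1) .nil)), (nat_lit 28), (nat_lit 17), (nat_lit
 15), (nat_lit 1), (67, 3, 38), [1112, 2396], 5⟩,
  ⟨⟨9, 76, -20, 44, -15, -82, -42, 24, -25⟩, (.cons (nat_lit 1055) (nat_lit 585) (nat_lit 1843) (nat_lit 1)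
 (.cons (nat_lit 2203) (nat_lit 4103) (nat_lit 2733) (nat_lit 1) .nil)), (nat_lit 11), (nat_lit 46), (nat_lit
 41), (nat_lit 1), (31, 49, 21), [1273, 4929], 11⟩,
  mz,
  mz,
  ⟨⟨51, -52, -56, -44, -15, -38, 42, 24, -67⟩, (.cons (nat_lit 970) (nat_lit 1425) (nat_lit 197) (nat_lit 1)
 (.cons (nat_lit 2153) (nat_lit 1733) (nat_lit 1524) (nat_lit 1) .nil)), (nat_lit 25), (nat_lit 35), (nat_lit
 32), (nat_lit 1), (24, 67, 49), [472, 2545], 6⟩,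
  ⟨⟨37, -48, 36, -36, -55, -12, 54, -24, -53⟩, (.cons (nat_lit 2196) (nat_lit 887) (nat_lit 1701) (nat_lit 1)
 (.cons (nat_lit 848) (nat_lit 3440) (nat_lit 2893) (nat_lit 1) .nil)), (nat_lit 52), (nat_lit 35), (nat_lit
 27), (nat_lit 1), (57, 52, 64), [1772, 4903], 38⟩,
  mz,
  ⟨⟨9, 56, -64, -56, -25, -12, 38, -16, -73⟩, (.cons (nat_lit 86) (nat_lit 480) (nat_lit 1303) (nat_lit 1)
 (.cons (nat_lit 3600) (nat_lit 115) (nat_lit 2053) (nat_lit 1) .nil)), (nat_lit 24), (nat_lit 37), (nat_lit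
 6), (nat_lit 1), (56, 46, 55), [961, 609], 13⟩,
  ⟨⟨-61, -48, 25, -44, 55, 32, -22, -8, -55⟩, (.cons (nat_lit 996) (nat_lit 903) (nat_lit 2182) (nat_lit 1)
 (.cons (nat_lit 885) (nat_lit 3698) (nat_lit 1119) (nat_lit 1) .nil)), (nat_lit 16), (nat_lit 25), (nat_lit
 4), (nat_lit 1), (9, 3, 37), [2018, 1484], 25⟩,
  mz,
  mz,
  ⟨⟨17, -24, 72, 36, -55, -48, 54, 24, -1⟩, (.cons (nat_lit 1803) (nat_lit 2098) (nat_lit 2093) (nat_lit 1)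
 (.cons (nat_lit 808) (nat_lit 4357) (nat_lit 825) (nat_lit 1) .nil)), (nat_lit 47), (nat_lit 8), (nat_lit 36),
 (nat_lit 1), (28, 5, 43), [1172, 516], 8⟩,
  ⟨⟨-61, 48, 25, 44, 55, -32, -22, 8, -55⟩, (.cons (nat_lit 2081) (nat_lit 1084) (nat_lit 423) (nat_lit 1)
 (.cons (nat_lit 3039) (nat_lit 4132) (nat_lit 952) (nat_lit 1) .nil)), (nat_lit 46), (nat_lit 42), (nat_lit
 47), (nat_lit 1), (13, 43, 14), [2123, 1355], 11⟩,
  ⟨⟨-39, 40, -41, 44, 55, -12, 22, -8, -77⟩, (.cons (nat_lit 625) (nat_lit 1373) (nat_lit 1462) (nat_lit 1)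
 (.cons (nat_lit 2593) (nat_lit 4782) (nat_lit 1471) (nat_lit 1) .nil)), (nat_lit 15), (nat_lit 6), (nat_lit
 37), (nat_lit 1), (2, 56, 28), [1876, 466], 37⟩,
  mz,
  ⟨⟨9, 16, -89, -10, 69, 20, 60, 12, -49⟩, (.cons (nat_lit 1361) (nat_lit 2036) (nat_lit 1978) (nat_lit 1)
 (.cons (nat_lit 2837) (nat_lit 4579) (nat_lit 1500) (nat_lit 1) .nil)), (nat_lit 42), (nat_lit 38), (nat_lit
 9), (nat_lit 1), (44, 30, 33), [1154, 179], 6⟩,
  mz,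
  mz,
  ⟨⟨-13, -72, 36, 70, -11, -30, -4, -44, -49⟩, (.cons (nat_lit 310) (nat_lit 1284) (nat_lit 995) (nat_lit 1)
 (.cons (nat_lit 1837) (nat_lit 1195) (nat_lit 1) (nat_lit 3195) .nil)), (nat_lit 51), (nat_lit 35), (nat_lit
 13), (nat_lit 1), (29, 35, 69), [601, 4745], 11⟩,
  mz,
  ⟨⟨-11, 72, -25, 50, -11, -80, -44, 4, -29⟩, (.cons (nat_lit 1592) (nat_lit 1184) (nat_lit 55) (nat_lit 1)
 (.cons (nat_lit 1101) (nat_lit 3638) (nat_lit 3681) (nat_lit 1) .nil)), (nat_lit 10), (nat_lit 15), (nat_lit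
 51), (nat_lit 1), (44, 13, 34), [2150, 3560], 31⟩,
  mz,
  ⟨⟨-29, -72, 20, 56, -25, -68, -38, -16, -35⟩, (.cons (nat_lit 1066) (nat_lit 656) (nat_lit 601) (nat_lit 1)
 (.cons (nat_lit 1527) (nat_lit 1751) (nat_lit 4229) (nat_lit 1) .nil)), (nat_lit 8), (nat_lit 21), (nat_lit
 42), (nat_lit 1), (27, 36, 6), [1408, 3264], 44⟩,
  ⟨⟨75, 20, -32, -10, 21, 80, 12, 60, -25⟩, (.cons (nat_lit 2196) (nat_lit 403) (nat_lit 1033) (nat_lit 1)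
 (.cons (nat_lit 4579) (nat_lit 1145) (nat_lit 2509) (nat_lit 1) .nil)), (nat_lit 52), (nat_lit 17), (nat_lit
 45), (nat_lit 1), (30, 67, 19), [1059, 4938], 8⟩,
  mz,
  ⟨⟨23, 72, 9, -64, 25, 12, 26, 32, -67⟩, (.cons (nat_lit 1128) (nat_lit 1434) (nat_lit 496) (nat_lit 1) (.cons
 (nat_lit 1928) (nat_lit 4361) (nat_lit 4091) (nat_lit 1) .nil)), (nat_lit 40), (nat_lit 44), (nat_lit 7),
 (nat_lit 1), (66, 17, 53), [703, 3865], 1⟩,
  mz,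
  ⟨⟨17, -24, -89, 36, -55, 12, 54, 24, -53⟩, (.cons (nat_lit 603) (nat_lit 1535) (nat_lit 1) (nat_lit 117)
 (.cons (nat_lit 2704) (nat_lit 2777) (nat_lit 491) (nat_lit 1) .nil)), (nat_lit 32), (nat_lit 44), (nat_lit
 4), (nat_lit 1), (5, 44, 66), [1371, 4774], 48⟩,
  ⟨⟨-23, -72, 32, 64, -25, -52, -26, -32, -41⟩, (.cons (nat_lit 1916) (nat_lit 863) (nat_lit 1441) (nat_lit 1)
 (.cons (nat_lit 4464) (nat_lit 2391) (nat_lit 1952) (nat_lit 1) .nil)), (nat_lit 42), (nat_lit 36), (nat_lit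
 13), (nat_lit 1), (21, 28, 33), [1535, 4884], 36⟩,
  mz,
  mz,
  ⟨⟨-65, 24, -7, -4, 55, 52, 10, 40, -59⟩, (.cons (nat_lit 797) (nat_lit 566) (nat_lit 1132) (nat_lit 1) (.cons
 (nat_lit 4971) (nat_lit 535) (nat_lit 2015) (nat_lit 1) .nil)), (nat_lit 40), (nat_lit 27), (nat_lit 32),
 (nat_lit 1), (43, 66, 48), [2192, 679], 8⟩,
  ⟨⟨11, -72, -36, -50, 11, -30, 44, -4, -73⟩, (.cons (nat_lit 1953) (nat_lit 1575) (nat_lit 1251) (nat_lit 1)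
 (.cons (nat_lit 4386) (nat_lit 3651) (nat_lit 2553) (nat_lit 1) .nil)), (nat_lit 33), (nat_lit 48), (nat_lit
 34), (nat_lit 1), (69, 22, 63), [1152, 4192], 50⟩,
  ⟨⟨61, 48, -36, 44, -55, -12, 22, 8, -77⟩, (.cons (nat_lit 2196) (nat_lit 1179) (nat_lit 899) (nat_lit 1)
 (.cons (nat_lit 1309) (nat_lit 813) (nat_lit 2781) (nat_lit 1) .nil)), (nat_lit 52), (nat_lit 4), (nat_lit
 36), (nat_lit 1), (30, 10, 5), [1576, 3765], 40⟩,
  mz,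
  ⟨⟨51, 52, -56, 44, -15, 38, 42, -24, -67⟩, (.cons (nat_lit 1125) (nat_lit 717) (nat_lit 1547) (nat_lit 1)
 (.cons (nat_lit 3954) (nat_lit 2515) (nat_lit 1734) (nat_lit 1) .nil)), (nat_lit 29), (nat_lit 2), (nat_lit
 24), (nat_lit 1), (52, 56, 47), [1316, 3409], 29⟩,
  ⟨⟨9, -16, 80, -10, -69, -10, 60, -12, -11⟩, (.cons (nat_lit 2196) (nat_lit 764) (nat_lit 44) (nat_lit 1)
 (.cons (nat_lit 3883) (nat_lit 2036) (nat_lit 2551) (nat_lit 1) .nil)), (nat_lit 52), (nat_lit 21), (nat_lit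
 24), (nat_lit 1), (33, 58, 7), [1332, 2277], 26⟩,
  ⟨⟨51, 4, 40, 10, 69, -20, 60, -12, -49⟩, (.cons (nat_lit 2196) (nat_lit 1025) (nat_lit 209) (nat_lit 1)
 (.cons (nat_lit 3825) (nat_lit 712) (nat_lit 4282) (nat_lit 1) .nil)), (nat_lit 52), (nat_lit 44), (nat_lit
 50), (nat_lit 1), (13, 29, 32), [215, 195], 27⟩,
  ⟨⟨9, -56, -64, -56, 25, -12, 38, 16, -73⟩, (.cons (nat_lit 1402) (nat_lit 911) (nat_lit 1947) (nat_lit 1)
 (.cons (nat_lit 1617) (nat_lit 4009) (nat_lit 3515) (nat_lit 1) .nil)), (nat_lit 7), (nat_lit 38), (nat_lit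
 9), (nat_lit 1), (4, 54, 9), [1007, 4618], 12⟩,
  ⟨⟨65, 24, -72, -4, -55, -48, -10, 40, -49⟩, (.cons (nat_lit 890) (nat_lit 1887) (nat_lit 310) (nat_lit 1)
 (.cons (nat_lit 533) (nat_lit 4828) (nat_lit 4201) (nat_lit 1) .nil)), (nat_lit 24), (nat_lit 23), (nat_lit
 51), (nat_lit 1), (39, 26, 65), [892, 3089], 41⟩,
  ⟨⟨9, -76, -20, 44, 15, -82, -42, -24, -25⟩, (.cons (nat_lit 1895) (nat_lit 633) (nat_lit 1511) (nat_lit 1)
 (.cons (nat_lit 4198) (nat_lit 2702) (nat_lit 3885) (nat_lit 1) .nil)), (nat_lit 35), (nat_lit 51), (nat_lit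
 12), (nat_lit 1), (1, 68, 19), [1272, 2751], 51⟩,
  mz,
  ⟨⟨-9, 28, -76, 70, 11, -40, 4, -44, -53⟩, (.cons (nat_lit 1515) (nat_lit 1251) (nat_lit 756) (nat_lit 1)
 (.cons (nat_lit 818) (nat_lit 2110) (nat_lit 43) (nat_lit 1) .nil)), (nat_lit 26), (nat_lit 6), (nat_lit 16),
 (nat_lit 1), (34, 59, 48), [344, 826], 12⟩,
  ⟨⟨9, 16, 80, -10, 69, -10, 60, 12, -11⟩, (.cons (nat_lit 1999) (nat_lit 1428) (nat_lit 1571) (nat_lit 1)
 (.cons (nat_lit 4177) (nat_lit 2304) (nat_lit 3089) (nat_lit 1) .nil)), (nat_lit 25), (nat_lit 40), (nat_lit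
 16), (nat_lit 1), (58, 46, 8), [1121, 28], 46⟩,
  ⟨⟨-63, -40, 7, -10, -21, 80, 12, -60, -25⟩, (.cons (nat_lit 556) (nat_lit 1019) (nat_lit 1281) (nat_lit 1)
 (.cons (nat_lit 618) (nat_lit 4729) (nat_lit 973) (nat_lit 1) .nil)), (nat_lit 49), (nat_lit 20), (nat_lit
 35), (nat_lit 1), (33, 12, 14), [891, 3307], 5⟩,
  mz,
  ⟨⟨-33, 68, -4, -50, -11, 80, -44, -4, -29⟩, (.cons (nat_lit 609) (nat_lit 1994) (nat_lit 1821) (nat_lit 1)
 (.cons (nat_lit 2624) (nat_lit 1676) (nat_lit 853) (nat_lit 1) .nil)), (nat_lit 51), (nat_lit 15), (nat_lit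
 48), (nat_lit 1), (43, 63, 10), [2187, 401], 11⟩,
  ⟨⟨-75, -20, 43, 10, -21, 70, -12, -60, -13⟩, (.cons (nat_lit 2093) (nat_lit 483) (nat_lit 1880) (nat_lit 1)
 (.cons (nat_lit 3667) (nat_lit 170) (nat_lit 3188) (nat_lit 1) .nil)), (nat_lit 12), (nat_lit 20), (nat_lit
 35), (nat_lit 1), (2, 66, 6), [668, 3947], 35⟩,
  mz,
  mz,
  mz,
  ⟨⟨33, -68, -37, 50, 11, 30, 44, 4, -73⟩, (.cons (nat_lit 2021) (nat_lit 349) (nat_lit 477) (nat_lit 1) (.cons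
 (nat_lit 729) (nat_lit 1371) (nat_lit 325) (nat_lit 1) .nil)), (nat_lit 45), (nat_lit 11), (nat_lit 3),
 (nat_lit 1), (12, 44, 16), [1234, 1238], 49⟩,
  mz,
  ⟨⟨9, -28, -85, -70, -11, 30, -4, 44, -49⟩, (.cons (nat_lit 2113) (nat_lit 543) (nat_lit 1870) (nat_lit 1)
 (.cons (nat_lit 4104) (nat_lit 2394) (nat_lit 3977) (nat_lit 1) .nil)), (nat_lit 1), (nat_lit 48), (nat_lit
 9), (nat_lit 1), (14, 41, 49), [1072, 574], 33⟩,
  ⟨⟨75, -16, -52, 4, 55, -52, 10, -40, -59⟩, (.cons (nat_lit 2196) (nat_lit 1263) (nat_lit 191) (nat_lit 1)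
 (.cons (nat_lit 321) (nat_lit 2803) (nat_lit 1402) (nat_lit 1) .nil)), (nat_lit 52), (nat_lit 16), (nat_lit
 20), (nat_lit 1), (51, 51, 21), [1999, 2546], 1⟩,
  mz,
  ⟨⟨33, 20, -92, 64, -15, -2, 6, -48, -49⟩, (.cons (nat_lit 202) (nat_lit 468) (nat_lit 1204) (nat_lit 1)
 (.cons (nat_lit 267) (nat_lit 40) (nat_lit 5010) (nat_lit 1) .nil)), (nat_lit 29), (nat_lit 44), (nat_lit 30),
 (nat_lit 1), (45, 55, 34), [2018, 1507], 29⟩,
  ⟨⟨13, 72, 23, -70, 11, 40, 4, 44, -53⟩, (.cons (nat_lit 362) (nat_lit 1088) (nat_lit 889) (nat_lit 1) (.cons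
 (nat_lit 137) (nat_lit 1283) (nat_lit 2738) (nat_lit 1) .nil)), (nat_lit 33), (nat_lit 8), (nat_lit 7),
 (nat_lit 1), (20, 7, 28), [308, 4181], 43⟩,
  ⟨⟨-23, 72, 32, -64, -25, 52, -26, 32, -41⟩, (.cons (nat_lit 507) (nat_lit 1876) (nat_lit 323) (nat_lit 1)
 (.cons (nat_lit 3613) (nat_lit 1694) (nat_lit 1756) (nat_lit 1) .nil)), (nat_lit 8), (nat_lit 24), (nat_lit
 50), (nat_lit 1), (27, 35, 12), [2006, 1902], 44⟩,
  ⟨⟨37, -48, -73, -36, -55, 48, 54, -24, -1⟩, (.cons (nat_lit 1605) (nat_lit 670) (nat_lit 587) (nat_lit 1)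
 (.cons (nat_lit 2076) (nat_lit 491) (nat_lit 2455) (nat_lit 1) .nil)), (nat_lit 10), (nat_lit 51), (nat_lit
 23), (nat_lit 1), (11, 20, 41), [9, 3571], 52⟩]

/-- Moves. -/
noncomputable def t1_5 : List Mv := [
  mz,
  ⟨⟨-75, 20, 43, -10, -21, -70, -12, 60, -13⟩, (.cons (nat_lit 407) (nat_lit 500) (nat_lit 1519) (nat_lit 1)
 (.cons (nat_lit 2183) (nat_lit 3088) (nat_lit 4696) (nat_lit 1) .nil)), (nat_lit 13), (nat_lit 5), (nat_lit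
 22), (nat_lit 1), (51, 21, 11), [996, 1149], 50⟩,
  mz,
  ⟨⟨65, -24, -72, -4, 55, -48, -10, -40, -49⟩, (.cons (nat_lit 2196) (nat_lit 1140) (nat_lit 1045) (nat_lit 1)
 (.cons (nat_lit 1440) (nat_lit 3833) (nat_lit 2184) (nat_lit 1) .nil)), (nat_lit 52), (nat_lit 17), (nat_lit
 14), (nat_lit 1), (37, 1, 38), [68, 1772], 9⟩,
  ⟨⟨-33, -20, -59, 64, -15, -62, -6, 48, -43⟩, (.cons (nat_lit 1210) (nat_lit 1395) (nat_lit 555) (nat_lit 1)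
 (.cons (nat_lit 1893) (nat_lit 4515) (nat_lit 1336) (nat_lit 1) .nil)), (nat_lit 29), (nat_lit 22), (nat_lit
 4), (nat_lit 1), (45, 16, 34), [808, 1111], 2⟩,
  ⟨⟨-33, 20, -59, 64, 15, -62, -6, -48, -43⟩, (.cons (nat_lit 2071) (nat_lit 1362) (nat_lit 1763) (nat_lit 1)
 (.cons (nat_lit 3721) (nat_lit 186) (nat_lit 3119) (nat_lit 1) .nil)), (nat_lit 17), (nat_lit 48), (nat_lit
 3), (nat_lit 1), (23, 35, 30), [1416, 3302], 46⟩,
  mz,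
  ⟨⟨-29, 72, 20, 56, 25, -68, -38, 16, -35⟩, (.cons (nat_lit 665) (nat_lit 804) (nat_lit 1453) (nat_lit 1)
 (.cons (nat_lit 4898) (nat_lit 188) (nat_lit 3186) (nat_lit 1) .nil)), (nat_lit 40), (nat_lit 12), (nat_lit
 1), (nat_lit 1), (33, 44, 31), [1367, 768], 27⟩,
  ⟨⟨3, 40, -76, 64, 25, -12, 26, -32, -67⟩, (.cons (nat_lit 1229) (nat_lit 534) (nat_lit 424) (nat_lit 1)
 (.cons (nat_lit 4214) (nat_lit 2664) (nat_lit 2164) (nat_lit 1) .nil)), (nat_lit 4), (nat_lit 5), (nat_lit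
 49), (nat_lit 1), (14, 62, 3), [1489, 1181], 8⟩,
  mz,
  mz,
  ⟨⟨33, -20, -92, 64, 15, -2, 6, 48, -49⟩, (.cons (nat_lit 1918) (nat_lit 1695) (nat_lit 2141) (nat_lit 1)
 (.cons (nat_lit 3059) (nat_lit 1467) (nat_lit 959) (nat_lit 1) .nil)), (nat_lit 28), (nat_lit 17), (nat_lit
 15), (nat_lit 1), (67, 3, 38), [1112, 2396], 5⟩,
  ⟨⟨9, 76, -20, 44, -15, -82, -42, 24, -25⟩, (.cons (nat_lit 1055) (nat_lit 585) (nat_lit 1843) (nat_lit 1)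
 (.cons (nat_lit 2203) (nat_lit 4103) (nat_lit 2733) (nat_lit 1) .nil)), (nat_lit 11), (nat_lit 46), (nat_lit
 41), (nat_lit 1), (31, 49, 21), [1273, 4929], 11⟩,
  mz,
  mz,
  ⟨⟨51, -52, -56, -44, -15, -38, 42, 24, -67⟩, (.cons (nat_lit 970) (nat_lit 1425) (nat_lit 197) (nat_lit 1)
 (.cons (nat_lit 2153) (nat_lit 1733) (nat_lit 1524) (nat_lit 1) .nil)), (nat_lit 25), (nat_lit 35), (nat_lit
 32), (nat_lit 1), (24, 67, 49), [472, 2545], 6⟩,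
  ⟨⟨17, 24, -89, -36, -55, -12, 54, -24, -53⟩, (.cons (nat_lit 2052) (nat_lit 412) (nat_lit 1) (nat_lit 1196)
 (.cons (nat_lit 2888) (nat_lit 4686) (nat_lit 1661) (nat_lit 1) .nil)), (nat_lit 32), (nat_lit 25), (nat_lit
 24), (nat_lit 1), (7, 52, 64), [1523, 2295], 48⟩,
  mz,
  ⟨⟨9, 56, -64, -56, -25, -12, 38, -16, -73⟩, (.cons (nat_lit 86) (nat_lit 480) (nat_lit 1303) (nat_lit 1)
 (.cons (nat_lit 3600) (nat_lit 115) (nat_lit 2053) (nat_lit 1) .nil)), (nat_lit 24), (nat_lit 37), (nat_lit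
 6), (nat_lit 1), (56, 46, 55), [961, 609], 13⟩,
  ⟨⟨-61, -48, 25, -44, 55, 32, -22, -8, -55⟩, (.cons (nat_lit 996) (nat_lit 903) (nat_lit 2182) (nat_lit 1)
 (.cons (nat_lit 885) (nat_lit 3698) (nat_lit 1119) (nat_lit 1) .nil)), (nat_lit 16), (nat_lit 25), (nat_lit
 4), (nat_lit 1), (9, 3, 37), [2018, 1484], 25⟩,
  mz,
  mz,
  ⟨⟨37, 48, -73, -36, 55, 48, 54, 24, -1⟩, (.cons (nat_lit 416) (nat_lit 518) (nat_lit 1697) (nat_lit 1) (.cons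
 (nat_lit 2163) (nat_lit 1758) (nat_lit 3450) (nat_lit 1) .nil)), (nat_lit 5), (nat_lit 34), (nat_lit 39),
 (nat_lit 1), (15, 66, 43), [1085, 1386], 19⟩,
  ⟨⟨-61, 48, 25, 44, 55, -32, -22, 8, -55⟩, (.cons (nat_lit 2081) (nat_lit 1084) (nat_lit 423) (nat_lit 1)
 (.cons (nat_lit 3039) (nat_lit 4132) (nat_lit 952) (nat_lit 1) .nil)), (nat_lit 46), (nat_lit 42), (nat_lit
 47), (nat_lit 1), (13, 43, 14), [2123, 1355], 11⟩,
  ⟨⟨-39, 40, -41, 44, 55, -12, 22, -8, -77⟩, (.cons (nat_lit 625) (nat_lit 1373) (nat_lit 1462) (nat_lit 1)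
 (.cons (nat_lit 2593) (nat_lit 4782) (nat_lit 1471) (nat_lit 1) .nil)), (nat_lit 15), (nat_lit 6), (nat_lit
 37), (nat_lit 1), (2, 56, 28), [1876, 466], 37⟩,
  mz,
  ⟨⟨51, -4, 40, -10, 69, 20, 60, 12, -49⟩, (.cons (nat_lit 2196) (nat_lit 883) (nat_lit 1506) (nat_lit 1)
 (.cons (nat_lit 26) (nat_lit 2129) (nat_lit 1) (nat_lit 994) .nil)), (nat_lit 52), (nat_lit 33), (nat_lit 10),
 (nat_lit 1), (60, 30, 33), [1851, 1490], 22⟩,
  mz,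
  mz,
  ⟨⟨-13, -72, 36, 70, -11, -30, -4, -44, -49⟩, (.cons (nat_lit 310) (nat_lit 1284) (nat_lit 995) (nat_lit 1)
 (.cons (nat_lit 1837) (nat_lit 1195) (nat_lit 1) (nat_lit 3195) .nil)), (nat_lit 51), (nat_lit 35), (nat_lit
 13), (nat_lit 1), (29, 35, 69), [601, 4745], 11⟩,
  mz,
  ⟨⟨-33, -68, -4, 50, -11, -80, -44, 4, -29⟩, (.cons (nat_lit 1835) (nat_lit 1105) (nat_lit 1295) (nat_lit 1)
 (.cons (nat_lit 4113) (nat_lit 4514) (nat_lit 2221) (nat_lit 1) .nil)), (nat_lit 42), (nat_lit 5), (nat_lit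
 43), (nat_lit 1), (61, 13, 34), [495, 5014], 40⟩,
  mz,
  ⟨⟨-29, -72, 20, 56, -25, -68, -38, -16, -35⟩, (.cons (nat_lit 1066) (nat_lit 656) (nat_lit 601) (nat_lit 1)
 (.cons (nat_lit 1527) (nat_lit 1751) (nat_lit 4229) (nat_lit 1) .nil)), (nat_lit 8), (nat_lit 21), (nat_lit
 42), (nat_lit 1), (27, 36, 6), [1408, 3264], 44⟩,
  ⟨⟨75, 20, -32, 10, -21, -80, 12, 60, -25⟩, (.cons (nat_lit 370) (nat_lit 2148) (nat_lit 748) (nat_lit 1)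
 (.cons (nat_lit 3179) (nat_lit 4361) (nat_lit 427) (nat_lit 1) .nil)), (nat_lit 0), (nat_lit 41), (nat_lit
 13), (nat_lit 1), (30, 4, 19), [950, 1161], 52⟩,
  mz,
  ⟨⟨23, 72, 9, 64, -25, -12, 26, 32, -67⟩, (.cons (nat_lit 777) (nat_lit 633) (nat_lit 982) (nat_lit 1) (.cons
 (nat_lit 3306) (nat_lit 1145) (nat_lit 2722) (nat_lit 1) .nil)), (nat_lit 25), (nat_lit 47), (nat_lit 47),
 (nat_lit 1), (66, 54, 53), [1749, 1954], 14⟩,
  mz,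
  ⟨⟨17, -24, -89, -36, 55, -12, 54, 24, -53⟩, (.cons (nat_lit 1289) (nat_lit 1860) (nat_lit 1460) (nat_lit 1)
 (.cons (nat_lit 4185) (nat_lit 5006) (nat_lit 4447) (nat_lit 1) .nil)), (nat_lit 12), (nat_lit 47), (nat_lit
 16), (nat_lit 1), (5, 27, 66), [365, 3559], 36⟩,
  ⟨⟨-23, -72, 32, 64, -25, -52, -26, -32, -41⟩, (.cons (nat_lit 1916) (nat_lit 863) (nat_lit 1441) (nat_lit 1)
 (.cons (nat_lit 4464) (nat_lit 2391) (nat_lit 1952) (nat_lit 1) .nil)), (nat_lit 42), (nat_lit 36), (nat_lit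
 13), (nat_lit 1), (21, 28, 33), [1535, 4884], 36⟩,
  mz,
  mz,
  ⟨⟨75, 16, -52, 4, -55, -52, 10, 40, -59⟩, (.cons (nat_lit 1111) (nat_lit 708) (nat_lit 567) (nat_lit 1)
 (.cons (nat_lit 4002) (nat_lit 1655) (nat_lit 398) (nat_lit 1) .nil)), (nat_lit 24), (nat_lit 14), (nat_lit
 27), (nat_lit 1), (5, 5, 48), [1711, 642], 41⟩,
  ⟨⟨33, 68, -37, -50, 11, -30, 44, -4, -73⟩, (.cons (nat_lit 2158) (nat_lit 1843) (nat_lit 500) (nat_lit 1)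
 (.cons (nat_lit 4907) (nat_lit 3138) (nat_lit 2453) (nat_lit 1) .nil)), (nat_lit 34), (nat_lit 17), (nat_lit
 28), (nat_lit 1), (65, 22, 63), [412, 41], 6⟩,
  ⟨⟨-39, -40, -41, -44, 55, 12, 22, 8, -77⟩, (.cons (nat_lit 1136) (nat_lit 191) (nat_lit 1661) (nat_lit 1)
 (.cons (nat_lit 2834) (nat_lit 3656) (nat_lit 762) (nat_lit 1) .nil)), (nat_lit 10), (nat_lit 15), (nat_lit
 13), (nat_lit 1), (46, 61, 5), [387, 4635], 9⟩,
  mz,
  ⟨⟨-9, -76, -11, -44, 15, -38, 42, -24, -67⟩, (.cons (nat_lit 1833) (nat_lit 502) (nat_lit 2025) (nat_lit 1)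
 (.cons (nat_lit 4528) (nat_lit 5031) (nat_lit 3554) (nat_lit 1) .nil)), (nat_lit 31), (nat_lit 30), (nat_lit
 41), (nat_lit 1), (66, 15, 47), [1314, 4781], 42⟩,
  ⟨⟨9, -16, 80, -10, -69, -10, 60, -12, -11⟩, (.cons (nat_lit 2196) (nat_lit 764) (nat_lit 44) (nat_lit 1)
 (.cons (nat_lit 3883) (nat_lit 2036) (nat_lit 2551) (nat_lit 1) .nil)), (nat_lit 52), (nat_lit 21), (nat_lit
 24), (nat_lit 1), (33, 58, 7), [1332, 2277], 26⟩,
  ⟨⟨51, 4, 40, 10, 69, -20, 60, -12, -49⟩, (.cons (nat_lit 2196) (nat_lit 1025) (nat_lit 209) (nat_lit 1)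
 (.cons (nat_lit 3825) (nat_lit 712) (nat_lit 4282) (nat_lit 1) .nil)), (nat_lit 52), (nat_lit 44), (nat_lit
 50), (nat_lit 1), (13, 29, 32), [215, 195], 27⟩,
  ⟨⟨9, -56, -64, 56, -25, 12, 38, 16, -73⟩, (.cons (nat_lit 1476) (nat_lit 1441) (nat_lit 1) (nat_lit 1352)
 (.cons (nat_lit 3188) (nat_lit 2350) (nat_lit 394) (nat_lit 1) .nil)), (nat_lit 20), (nat_lit 50), (nat_lit
 7), (nat_lit 1), (4, 17, 9), [1587, 209], 4⟩,
  ⟨⟨-75, 16, 23, 4, 55, 48, -10, 40, -49⟩, (.cons (nat_lit 1778) (nat_lit 2075) (nat_lit 1953) (nat_lit 1)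
 (.cons (nat_lit 1533) (nat_lit 4938) (nat_lit 1) (nat_lit 3195) .nil)), (nat_lit 4), (nat_lit 51), (nat_lit
 31), (nat_lit 1), (26, 45, 65), [995, 3227], 22⟩,
  ⟨⟨-51, 52, -5, -44, -15, 82, -42, -24, -25⟩, (.cons (nat_lit 1665) (nat_lit 1751) (nat_lit 862) (nat_lit 1)
 (.cons (nat_lit 4340) (nat_lit 422) (nat_lit 2221) (nat_lit 1) .nil)), (nat_lit 11), (nat_lit 23), (nat_lit
 9), (nat_lit 1), (18, 3, 19), [2056, 337], 30⟩,
  mz,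
  ⟨⟨-9, 28, -76, -70, -11, 40, 4, -44, -53⟩, (.cons (nat_lit 176) (nat_lit 1053) (nat_lit 568) (nat_lit 1)
 (.cons (nat_lit 2094) (nat_lit 1787) (nat_lit 2280) (nat_lit 1) .nil)), (nat_lit 24), (nat_lit 39), (nat_lit
 28), (nat_lit 1), (34, 12, 48), [257, 4179], 38⟩,
  ⟨⟨9, 16, 80, 10, -69, 10, 60, 12, -11⟩, (.cons (nat_lit 2196) (nat_lit 1176) (nat_lit 360) (nat_lit 1) (.cons
 (nat_lit 54) (nat_lit 3878) (nat_lit 1) (nat_lit 1349) .nil)), (nat_lit 52), (nat_lit 36), (nat_lit 18),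
 (nat_lit 1), (58, 25, 8), [723, 3435], 31⟩,
  ⟨⟨-63, -40, 7, 10, 21, -80, 12, -60, -25⟩, (.cons (nat_lit 657) (nat_lit 1164) (nat_lit 446) (nat_lit 1)
 (.cons (nat_lit 31) (nat_lit 3328) (nat_lit 440) (nat_lit 1) .nil)), (nat_lit 41), (nat_lit 0), (nat_lit 31),
 (nat_lit 1), (33, 59, 14), [355, 2642], 49⟩,
  mz,
  ⟨⟨-11, -72, -25, -50, -11, 80, -44, -4, -29⟩, (.cons (nat_lit 340) (nat_lit 2125) (nat_lit 1330) (nat_lit 1)
 (.cons (nat_lit 264) (nat_lit 1690) (nat_lit 3563) (nat_lit 1) .nil)), (nat_lit 1), (nat_lit 5), (nat_lit 44),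
 (nat_lit 1), (38, 63, 10), [1415, 2789], 33⟩,
  ⟨⟨-75, -20, 43, -10, 21, -70, -12, -60, -13⟩, (.cons (nat_lit 418) (nat_lit 1182) (nat_lit 317) (nat_lit 1)
 (.cons (nat_lit 2500) (nat_lit 553) (nat_lit 252) (nat_lit 1) .nil)), (nat_lit 22), (nat_lit 0), (nat_lit 7),
 (nat_lit 1), (2, 5, 6), [1316, 4292], 25⟩,
  mz,
  mz,
  mz,
  ⟨⟨11, 72, -36, -50, -11, -30, 44, 4, -73⟩, (.cons (nat_lit 2034) (nat_lit 577) (nat_lit 1804) (nat_lit 1)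
 (.cons (nat_lit 3262) (nat_lit 109) (nat_lit 4632) (nat_lit 1) .nil)), (nat_lit 26), (nat_lit 44), (nat_lit
 33), (nat_lit 1), (4, 27, 16), [173, 2567], 16⟩,
  mz,
  ⟨⟨-13, 72, 36, 70, 11, -30, -4, 44, -49⟩, (.cons (nat_lit 587) (nat_lit 25) (nat_lit 457) (nat_lit 1) (.cons
 (nat_lit 370) (nat_lit 1435) (nat_lit 3217) (nat_lit 1) .nil)), (nat_lit 51), (nat_lit 41), (nat_lit 21),
 (nat_lit 1), (35, 30, 49), [1649, 1531], 48⟩,
  ⟨⟨75, -16, -52, -4, -55, 52, 10, -40, -59⟩, (.cons (nat_lit 791) (nat_lit 207) (nat_lit 1888) (nat_lit 1)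
 (.cons (nat_lit 2223) (nat_lit 907) (nat_lit 58) (nat_lit 1) .nil)), (nat_lit 42), (nat_lit 48), (nat_lit 32),
 (nat_lit 1), (51, 20, 21), [1410, 27], 32⟩,
  mz,
  ⟨⟨-27, -68, 43, -64, 15, 2, 6, -48, -49⟩, (.cons (nat_lit 958) (nat_lit 227) (nat_lit 1) (nat_lit 611) (.cons
 (nat_lit 2185) (nat_lit 4004) (nat_lit 1148) (nat_lit 1) .nil)), (nat_lit 12), (nat_lit 11), (nat_lit 38),
 (nat_lit 1), (60, 16, 34), [2005, 2985], 6⟩,
  ⟨⟨13, 72, 23, 70, -11, -40, 4, 44, -53⟩, (.cons (nat_lit 1124) (nat_lit 524) (nat_lit 1330) (nat_lit 1)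
 (.cons (nat_lit 5039) (nat_lit 856) (nat_lit 4397) (nat_lit 1) .nil)), (nat_lit 10), (nat_lit 14), (nat_lit
 13), (nat_lit 1), (20, 64, 28), [226, 1793], 31⟩,
  ⟨⟨-23, 72, 32, 64, 25, -52, -26, 32, -41⟩, (.cons (nat_lit 1185) (nat_lit 412) (nat_lit 642) (nat_lit 1)
 (.cons (nat_lit 4155) (nat_lit 2570) (nat_lit 4905) (nat_lit 1) .nil)), (nat_lit 40), (nat_lit 46), (nat_lit
 21), (nat_lit 1), (27, 36, 12), [821, 805], 27⟩,
  ⟨⟨17, 24, 72, 36, 55, -48, 54, -24, -1⟩, (.cons (nat_lit 2196) (nat_lit 1488) (nat_lit 194) (nat_lit 1)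
 (.cons (nat_lit 2263) (nat_lit 3813) (nat_lit 3346) (nat_lit 1) .nil)), (nat_lit 52), (nat_lit 23), (nat_lit
 48), (nat_lit 1), (30, 51, 41), [2167, 2305], 15⟩]

/-- Moves. -/
noncomputable def t4_2 : List Mv := [
  mz,
  mz,
  mz,
  mz,
  ⟨⟨51, 20, -47, 10, -47, -30, -2, 20, -47⟩, (.cons (nat_lit 1558) (nat_lit 1986) (nat_lit 1) (nat_lit 572)
 (.cons (nat_lit 4169) (nat_lit 3973) (nat_lit 4779) (nat_lit 1) .nil)), (nat_lit 15), (nat_lit 0), (nat_lit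
 0), (nat_lit 0), (24, 39, 24), [1420, 4568], 0⟩,
  ⟨⟨51, -20, -47, 10, 47, -30, -2, -20, -47⟩, (.cons (nat_lit 227) (nat_lit 816) (nat_lit 641) (nat_lit 1)
 (.cons (nat_lit 4465) (nat_lit 1185) (nat_lit 3043) (nat_lit 1) .nil)), (nat_lit 15), (nat_lit 0), (nat_lit
 0), (nat_lit 0), (12, 46, 12), [1373, 1505], 0⟩,
  ⟨⟨15, 56, -11, -28, 5, -36, 40, 8, -47⟩, (.cons (nat_lit 1985) (nat_lit 306) (nat_lit 1153) (nat_lit 1)
 (.cons (nat_lit 1709) (nat_lit 3407) (nat_lit 3260) (nat_lit 1) .nil)), (nat_lit 28), (nat_lit 0), (nat_lit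
 0), (nat_lit 0), (1, 37, 38), [938, 3887], 0⟩,
  mz,
  mz,
  ⟨⟨-33, -20, -32, -8, -45, 34, 24, -24, -49⟩, (.cons (nat_lit 1746) (nat_lit 276) (nat_lit 1247) (nat_lit 1)
 (.cons (nat_lit 507) (nat_lit 3918) (nat_lit 1443) (nat_lit 1) .nil)), (nat_lit 42), (nat_lit 0), (nat_lit 0),
 (nat_lit 0), (35, 39, 42), [1358, 975], 0⟩,
  ⟨⟨-15, -56, 4, 28, -5, -64, -40, -8, -7⟩, (.cons (nat_lit 215) (nat_lit 2029) (nat_lit 1990) (nat_lit 1)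
 (.cons (nat_lit 2999) (nat_lit 2851) (nat_lit 1545) (nat_lit 1) .nil)), (nat_lit 28), (nat_lit 0), (nat_lit
 0), (nat_lit 0), (10, 52, 9), [1632, 2749], 0⟩,
  ⟨⟨15, -32, 44, 50, 17, -30, 14, -44, -19⟩, (.cons (nat_lit 801) (nat_lit 375) (nat_lit 875) (nat_lit 1)
 (.cons (nat_lit 1712) (nat_lit 3542) (nat_lit 1130) (nat_lit 1) .nil)), (nat_lit 41), (nat_lit 0), (nat_lit
 0), (nat_lit 0), (29, 26, 20), [660, 61], 0⟩,
  ⟨⟨-51, 20, 4, 10, 47, 20, 2, 20, -49⟩, (.cons (nat_lit 2196) (nat_lit 2090) (nat_lit 1750) (nat_lit 1) (.cons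
 (nat_lit 5040) (nat_lit 2318) (nat_lit 138) (nat_lit 1) .nil)), (nat_lit 12), (nat_lit 0), (nat_lit 0),
 (nat_lit 0), (48, 28, 48), [348, 4019], 0⟩,
  mz,
  mz,
  ⟨⟨-51, -20, 4, 10, -47, 20, 2, -20, -49⟩, (.cons (nat_lit 282) (nat_lit 734) (nat_lit 360) (nat_lit 1) (.cons
 (nat_lit 593) (nat_lit 3459) (nat_lit 4657) (nat_lit 1) .nil)), (nat_lit 12), (nat_lit 0), (nat_lit 0),
 (nat_lit 0), (36, 21, 36), [1475, 3855], 0⟩,
  ⟨⟨15, 52, 16, 10, 17, -60, 46, 4, -11⟩, (.cons (nat_lit 2103) (nat_lit 1629) (nat_lit 531) (nat_lit 1) (.cons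
 (nat_lit 4895) (nat_lit 3399) (nat_lit 4500) (nat_lit 1) .nil)), (nat_lit 44), (nat_lit 0), (nat_lit 0),
 (nat_lit 0), (24, 16, 10), [736, 823], 0⟩,
  ⟨⟨31, -48, -4, 10, 17, 50, 46, 4, -35⟩, (.cons (nat_lit 1613) (nat_lit 1429) (nat_lit 55) (nat_lit 1) (.cons
 (nat_lit 4226) (nat_lit 2228) (nat_lit 1467) (nat_lit 1) .nil)), (nat_lit 43), (nat_lit 0), (nat_lit 0),
 (nat_lit 0), (18, 40, 25), [217, 3171], 0⟩,
  ⟨⟨-57, -4, 40, -8, 45, -26, -24, -24, -25⟩, (.cons (nat_lit 1525) (nat_lit 1625) (nat_lit 1940) (nat_lit 1)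
 (.cons (nat_lit 3354) (nat_lit 4299) (nat_lit 4511) (nat_lit 1) .nil)), (nat_lit 9), (nat_lit 0), (nat_lit 0),
 (nat_lit 0), (12, 24, 19), [1083, 3082], 0⟩,
  mz,
  mz,
  ⟨⟨57, 4, -17, -8, 45, 34, 24, 24, -49⟩, (.cons (nat_lit 2196) (nat_lit 684) (nat_lit 1161) (nat_lit 1) (.cons
 (nat_lit 5040) (nat_lit 4120) (nat_lit 36) (nat_lit 1) .nil)), (nat_lit 21), (nat_lit 0), (nat_lit 0),
 (nat_lit 0), (20, 13, 14), [696, 2094], 0⟩,
  ⟨⟨45, 28, -49, -28, 45, 14, 0, 0, -53⟩, (.cons (nat_lit 1093) (nat_lit 645) (nat_lit 774) (nat_lit 1) (.cons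
 (nat_lit 1279) (nat_lit 2854) (nat_lit 2209) (nat_lit 1) .nil)), (nat_lit 31), (nat_lit 0), (nat_lit 0),
 (nat_lit 0), (24, 31, 0), [2109, 2901], 0⟩,
  mz,
  ⟨⟨-13, 48, -27, -30, 17, 60, 30, 36, -7⟩, (.cons (nat_lit 1673) (nat_lit 1603) (nat_lit 1708) (nat_lit 1)
 (.cons (nat_lit 4037) (nat_lit 1414) (nat_lit 4564) (nat_lit 1) .nil)), (nat_lit 52), (nat_lit 0), (nat_lit
 0), (nat_lit 0), (11, 5, 48), [470, 3842], 0⟩,
  mz,
  ⟨⟨-25, -48, -11, 28, 5, -64, -40, 8, -7⟩, (.cons (nat_lit 2047) (nat_lit 1646) (nat_lit 2072) (nat_lit 1)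
 (.cons (nat_lit 1464) (nat_lit 3490) (nat_lit 3948) (nat_lit 1) .nil)), (nat_lit 36), (nat_lit 0), (nat_lit
 0), (nat_lit 0), (2, 2, 35), [320, 159], 0⟩,
  mz,
  ⟨⟨-1, -48, 37, 52, 5, -16, 8, -40, -31⟩, (.cons (nat_lit 2083) (nat_lit 1929) (nat_lit 1819) (nat_lit 1)
 (.cons (nat_lit 2755) (nat_lit 57) (nat_lit 1762) (nat_lit 1) .nil)), (nat_lit 6), (nat_lit 0), (nat_lit 0),
 (nat_lit 0), (29, 29, 33), [1292, 4921], 0⟩,
  ⟨⟨-13, 48, 40, 30, -17, 30, 30, 36, -23⟩, (.cons (nat_lit 2196) (nat_lit 109) (nat_lit 1440) (nat_lit 1)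
 (.cons (nat_lit 5040) (nat_lit 1420) (nat_lit 1824) (nat_lit 1) .nil)), (nat_lit 29), (nat_lit 0), (nat_lit
 0), (nat_lit 0), (42, 5, 5), [1106, 2219], 0⟩,
  mz,
  ⟨⟨45, -28, -49, 28, 45, -14, 0, 0, -53⟩, (.cons (nat_lit 599) (nat_lit 317) (nat_lit 2138) (nat_lit 1) (.cons
 (nat_lit 3764) (nat_lit 4956) (nat_lit 2974) (nat_lit 1) .nil)), (nat_lit 22), (nat_lit 0), (nat_lit 0),
 (nat_lit 0), (39, 49, 0), [796, 3256], 0⟩,
  mz,
  ⟨⟨-39, 28, -17, 10, -33, -50, 18, 36, -37⟩, (.cons (nat_lit 573) (nat_lit 918) (nat_lit 1163) (nat_lit 1)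
 (.cons (nat_lit 2490) (nat_lit 3254) (nat_lit 1437) (nat_lit 1) .nil)), (nat_lit 50), (nat_lit 0), (nat_lit
 0), (nat_lit 0), (43, 8, 25), [1256, 1348], 0⟩,
  mz,
  mz,
  ⟨⟨1, -48, 36, 52, -5, -36, -8, -40, -23⟩, (.cons (nat_lit 10) (nat_lit 950) (nat_lit 21) (nat_lit 1) (.cons
 (nat_lit 1848) (nat_lit 3543) (nat_lit 2969) (nat_lit 1) .nil)), (nat_lit 39), (nat_lit 0), (nat_lit 0),
 (nat_lit 0), (41, 12, 43), [63, 4291], 0⟩,
  ⟨⟨-1, 48, 37, 52, -5, -16, 8, 40, -31⟩, (.cons (nat_lit 537) (nat_lit 1449) (nat_lit 455) (nat_lit 1) (.cons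
 (nat_lit 4214) (nat_lit 2716) (nat_lit 1154) (nat_lit 1) .nil)), (nat_lit 6), (nat_lit 0), (nat_lit 0),
 (nat_lit 0), (26, 26, 4), [550, 1619], 0⟩,
  ⟨⟨39, 28, -56, -10, -33, -40, -18, 36, -19⟩, (.cons (nat_lit 1089) (nat_lit 1292) (nat_lit 1907) (nat_lit 1)
 (.cons (nat_lit 3329) (nat_lit 719) (nat_lit 936) (nat_lit 1) .nil)), (nat_lit 50), (nat_lit 0), (nat_lit 0),
 (nat_lit 0), (34, 47, 21), [2149, 1966], 0⟩,
  ⟨⟨25, 48, -36, -28, -5, -36, 40, -8, -47⟩, (.cons (nat_lit 1538) (nat_lit 2102) (nat_lit 657) (nat_lit 1)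
 (.cons (nat_lit 4580) (nat_lit 39) (nat_lit 2598) (nat_lit 1) .nil)), (nat_lit 36), (nat_lit 0), (nat_lit 0),
 (nat_lit 0), (34, 34, 12), [462, 629], 0⟩,
  ⟨⟨1, 48, 36, 52, 5, -36, -8, 40, -23⟩, (.cons (nat_lit 1311) (nat_lit 1035) (nat_lit 1972) (nat_lit 1) (.cons
 (nat_lit 4747) (nat_lit 548) (nat_lit 89) (nat_lit 1) .nil)), (nat_lit 39), (nat_lit 0), (nat_lit 0), (nat_lit
 0), (38, 15, 14), [1005, 658], 0⟩,
  ⟨⟨31, 48, -4, -10, 17, -50, 46, -4, -35⟩, (.cons (nat_lit 96) (nat_lit 1349) (nat_lit 1683) (nat_lit 1)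
 (.cons (nat_lit 2494) (nat_lit 3125) (nat_lit 4740) (nat_lit 1) .nil)), (nat_lit 11), (nat_lit 0), (nat_lit
 0), (nat_lit 0), (15, 2, 12), [1264, 1249], 0⟩,
  ⟨⟨-57, 4, 40, -8, -45, -26, -24, 24, -25⟩, (.cons (nat_lit 1856) (nat_lit 1842) (nat_lit 1206) (nat_lit 1)
 (.cons (nat_lit 348) (nat_lit 2647) (nat_lit 1936) (nat_lit 1) .nil)), (nat_lit 9), (nat_lit 0), (nat_lit 0),
 (nat_lit 0), (25, 50, 44), [223, 1057], 0⟩,
  ⟨⟨15, 32, 44, -50, 17, 30, 14, 44, -19⟩, (.cons (nat_lit 79) (nat_lit 1353) (nat_lit 49) (nat_lit 1) (.cons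
 (nat_lit 2604) (nat_lit 479) (nat_lit 1010) (nat_lit 1) .nil)), (nat_lit 17), (nat_lit 0), (nat_lit 0),
 (nat_lit 0), (27, 16, 4), [945, 439], 0⟩,
  ⟨⟨-15, 32, 59, 50, 17, -20, -14, 44, -5⟩, (.cons (nat_lit 2007) (nat_lit 1403) (nat_lit 1784) (nat_lit 1)
 (.cons (nat_lit 1965) (nat_lit 4275) (nat_lit 2635) (nat_lit 1) .nil)), (nat_lit 17), (nat_lit 0), (nat_lit
 0), (nat_lit 0), (6, 33, 48), [1516, 3994], 0⟩,
  mz,
  ⟨⟨43, 12, 20, 30, 17, -60, 30, -36, -7⟩, (.cons (nat_lit 2196) (nat_lit 1151) (nat_lit 234) (nat_lit 1)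
 (.cons (nat_lit 5040) (nat_lit 2270) (nat_lit 580) (nat_lit 1) .nil)), (nat_lit 46), (nat_lit 0), (nat_lit 0),
 (nat_lit 0), (23, 37, 37), [846, 2331], 0⟩,
  ⟨⟨-15, -32, 59, 50, -17, -20, -14, -44, -5⟩, (.cons (nat_lit 1024) (nat_lit 693) (nat_lit 1960) (nat_lit 1)
 (.cons (nat_lit 4092) (nat_lit 1139) (nat_lit 317) (nat_lit 1) .nil)), (nat_lit 17), (nat_lit 0), (nat_lit 0),
 (nat_lit 0), (8, 44, 11), [394, 590], 0⟩,
  ⟨⟨31, 48, -27, -10, 17, 60, 46, -4, -11⟩, (.cons (nat_lit 834) (nat_lit 1316) (nat_lit 450) (nat_lit 1)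
 (.cons (nat_lit 136) (nat_lit 4982) (nat_lit 3615) (nat_lit 1) .nil)), (nat_lit 11), (nat_lit 0), (nat_lit 0),
 (nat_lit 0), (36, 26, 50), [4, 4350], 0⟩,
  ⟨⟨-39, -28, -17, -10, -33, 50, 18, -36, -37⟩, (.cons (nat_lit 1279) (nat_lit 464) (nat_lit 1570) (nat_lit 1)
 (.cons (nat_lit 3292) (nat_lit 1112) (nat_lit 2661) (nat_lit 1) .nil)), (nat_lit 38), (nat_lit 0), (nat_lit
 0), (nat_lit 0), (5, 4, 14), [1879, 104], 0⟩,
  ⟨⟨39, -28, -56, 10, -33, 40, -18, -36, -19⟩, (.cons (nat_lit 1850) (nat_lit 136) (nat_lit 432) (nat_lit 1)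
 (.cons (nat_lit 2547) (nat_lit 3631) (nat_lit 401) (nat_lit 1) .nil)), (nat_lit 38), (nat_lit 0), (nat_lit 0),
 (nat_lit 0), (49, 18, 10), [675, 1910], 0⟩,
  mz,
  ⟨⟨43, 12, -63, -30, -17, -30, 30, -36, -23⟩, (.cons (nat_lit 1849) (nat_lit 2003) (nat_lit 1194) (nat_lit 1)
 (.cons (nat_lit 3841) (nat_lit 3024) (nat_lit 2274) (nat_lit 1) .nil)), (nat_lit 24), (nat_lit 0), (nat_lit
 0), (nat_lit 0), (2, 6, 47), [996, 2377], 0⟩]

/-- Moves. -/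
noncomputable def t4_4 : List Mv := [
  mz,
  mz,
  mz,
  mz,
  ⟨⟨51, 20, -47, -10, 47, 30, -2, 20, -47⟩, (.cons (nat_lit 786) (nat_lit 53) (nat_lit 1496) (nat_lit 1) (.cons
 (nat_lit 3187) (nat_lit 2680) (nat_lit 1960) (nat_lit 1) .nil)), (nat_lit 12), (nat_lit 0), (nat_lit 0),
 (nat_lit 0), (24, 14, 24), [1685, 1576], 0⟩,
  ⟨⟨51, -20, -47, 10, 47, -30, -2, -20, -47⟩, (.cons (nat_lit 227) (nat_lit 816) (nat_lit 641) (nat_lit 1)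
 (.cons (nat_lit 4465) (nat_lit 1185) (nat_lit 3043) (nat_lit 1) .nil)), (nat_lit 15), (nat_lit 0), (nat_lit
 0), (nat_lit 0), (12, 46, 12), [1373, 1505], 0⟩,
  ⟨⟨25, -48, -36, 28, -5, 36, 40, 8, -47⟩, (.cons (nat_lit 106) (nat_lit 617) (nat_lit 798) (nat_lit 1) (.cons
 (nat_lit 2247) (nat_lit 2572) (nat_lit 705) (nat_lit 1) .nil)), (nat_lit 40), (nat_lit 0), (nat_lit 0),
 (nat_lit 0), (37, 16, 38), [405, 3049], 0⟩,
  mz,
  mz,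
  ⟨⟨57, -4, -17, 8, 45, -34, 24, -24, -49⟩, (.cons (nat_lit 2196) (nat_lit 79) (nat_lit 127) (nat_lit 1) (.cons
 (nat_lit 5040) (nat_lit 1386) (nat_lit 2382) (nat_lit 1) .nil)), (nat_lit 9), (nat_lit 0), (nat_lit 0),
 (nat_lit 0), (7, 14, 42), [128, 3899], 0⟩,
  ⟨⟨-25, 48, -11, -28, 5, 64, -40, -8, -7⟩, (.cons (nat_lit 523) (nat_lit 1524) (nat_lit 1021) (nat_lit 1)
 (.cons (nat_lit 483) (nat_lit 289) (nat_lit 3487) (nat_lit 1) .nil)), (nat_lit 40), (nat_lit 0), (nat_lit 0),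
 (nat_lit 0), (52, 1, 9), [265, 590], 0⟩,
  ⟨⟨15, -32, 44, 50, 17, -30, 14, -44, -19⟩, (.cons (nat_lit 801) (nat_lit 375) (nat_lit 875) (nat_lit 1)
 (.cons (nat_lit 1712) (nat_lit 3542) (nat_lit 1130) (nat_lit 1) .nil)), (nat_lit 41), (nat_lit 0), (nat_lit
 0), (nat_lit 0), (29, 26, 20), [660, 61], 0⟩,
  ⟨⟨-51, 20, 4, -10, -47, -20, 2, 20, -49⟩, (.cons (nat_lit 1862) (nat_lit 2023) (nat_lit 1962) (nat_lit 1)
 (.cons (nat_lit 5024) (nat_lit 3352) (nat_lit 3554) (nat_lit 1) .nil)), (nat_lit 15), (nat_lit 0), (nat_lit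
 0), (nat_lit 0), (48, 25, 48), [1107, 34], 0⟩,
  mz,
  mz,
  ⟨⟨-51, -20, 4, 10, -47, 20, 2, -20, -49⟩, (.cons (nat_lit 282) (nat_lit 734) (nat_lit 360) (nat_lit 1) (.cons
 (nat_lit 593) (nat_lit 3459) (nat_lit 4657) (nat_lit 1) .nil)), (nat_lit 12), (nat_lit 0), (nat_lit 0),
 (nat_lit 0), (36, 21, 36), [1475, 3855], 0⟩,
  ⟨⟨15, 52, 16, 10, 17, -60, 46, 4, -11⟩, (.cons (nat_lit 2103) (nat_lit 1629) (nat_lit 531) (nat_lit 1) (.cons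
 (nat_lit 4895) (nat_lit 3399) (nat_lit 4500) (nat_lit 1) .nil)), (nat_lit 44), (nat_lit 0), (nat_lit 0),
 (nat_lit 0), (24, 16, 10), [736, 823], 0⟩,
  ⟨⟨31, -48, -4, -10, -17, -50, 46, 4, -35⟩, (.cons (nat_lit 134) (nat_lit 1705) (nat_lit 1184) (nat_lit 1)
 (.cons (nat_lit 2680) (nat_lit 4865) (nat_lit 1472) (nat_lit 1) .nil)), (nat_lit 11), (nat_lit 0), (nat_lit
 0), (nat_lit 0), (18, 13, 25), [54, 24], 0⟩,
  ⟨⟨-57, -4, 40, -8, 45, -26, -24, -24, -25⟩, (.cons (nat_lit 1525) (nat_lit 1625) (nat_lit 1940) (nat_lit 1)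
 (.cons (nat_lit 3354) (nat_lit 4299) (nat_lit 4511) (nat_lit 1) .nil)), (nat_lit 9), (nat_lit 0), (nat_lit 0),
 (nat_lit 0), (12, 24, 19), [1083, 3082], 0⟩,
  mz,
  mz,
  ⟨⟨-33, 20, -32, 8, -45, -34, 24, 24, -49⟩, (.cons (nat_lit 1594) (nat_lit 1939) (nat_lit 2088) (nat_lit 1)
 (.cons (nat_lit 3901) (nat_lit 4749) (nat_lit 674) (nat_lit 1) .nil)), (nat_lit 18), (nat_lit 0), (nat_lit 0),
 (nat_lit 0), (47, 40, 14), [2101, 3974], 0⟩,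
  ⟨⟨45, 28, -49, -28, 45, 14, 0, 0, -53⟩, (.cons (nat_lit 1093) (nat_lit 645) (nat_lit 774) (nat_lit 1) (.cons
 (nat_lit 1279) (nat_lit 2854) (nat_lit 2209) (nat_lit 1) .nil)), (nat_lit 31), (nat_lit 0), (nat_lit 0),
 (nat_lit 0), (24, 31, 0), [2109, 2901], 0⟩,
  mz,
  ⟨⟨-13, 48, -27, -30, 17, 60, 30, 36, -7⟩, (.cons (nat_lit 1673) (nat_lit 1603) (nat_lit 1708) (nat_lit 1)
 (.cons (nat_lit 4037) (nat_lit 1414) (nat_lit 4564) (nat_lit 1) .nil)), (nat_lit 52), (nat_lit 0), (nat_lit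
 0), (nat_lit 0), (11, 5, 48), [470, 3842], 0⟩,
  mz,
  ⟨⟨-25, -48, -11, 28, 5, -64, -40, 8, -7⟩, (.cons (nat_lit 2047) (nat_lit 1646) (nat_lit 2072) (nat_lit 1)
 (.cons (nat_lit 1464) (nat_lit 3490) (nat_lit 3948) (nat_lit 1) .nil)), (nat_lit 36), (nat_lit 0), (nat_lit
 0), (nat_lit 0), (2, 2, 35), [320, 159], 0⟩,
  mz,
  ⟨⟨-1, -48, 37, 52, 5, -16, 8, -40, -31⟩, (.cons (nat_lit 2083) (nat_lit 1929) (nat_lit 1819) (nat_lit 1)
 (.cons (nat_lit 2755) (nat_lit 57) (nat_lit 1762) (nat_lit 1) .nil)), (nat_lit 6), (nat_lit 0), (nat_lit 0),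
 (nat_lit 0), (29, 29, 33), [1292, 4921], 0⟩,
  ⟨⟨-13, 48, 40, -30, 17, -30, 30, 36, -23⟩, (.cons (nat_lit 2147) (nat_lit 2022) (nat_lit 1606) (nat_lit 1)
 (.cons (nat_lit 4343) (nat_lit 319) (nat_lit 495) (nat_lit 1) .nil)), (nat_lit 52), (nat_lit 0), (nat_lit 0),
 (nat_lit 0), (42, 48, 5), [463, 2612], 0⟩,
  mz,
  ⟨⟨45, -28, -49, 28, 45, -14, 0, 0, -53⟩, (.cons (nat_lit 599) (nat_lit 317) (nat_lit 2138) (nat_lit 1) (.cons
 (nat_lit 3764) (nat_lit 4956) (nat_lit 2974) (nat_lit 1) .nil)), (nat_lit 22), (nat_lit 0), (nat_lit 0),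
 (nat_lit 0), (39, 49, 0), [796, 3256], 0⟩,
  mz,
  ⟨⟨-39, 28, -17, 10, -33, -50, 18, 36, -37⟩, (.cons (nat_lit 573) (nat_lit 918) (nat_lit 1163) (nat_lit 1)
 (.cons (nat_lit 2490) (nat_lit 3254) (nat_lit 1437) (nat_lit 1) .nil)), (nat_lit 50), (nat_lit 0), (nat_lit
 0), (nat_lit 0), (43, 8, 25), [1256, 1348], 0⟩,
  mz,
  mz,
  ⟨⟨-9, 8, -59, -52, 5, 36, -8, -40, -23⟩, (.cons (nat_lit 1948) (nat_lit 1212) (nat_lit 1830) (nat_lit 1)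
 (.cons (nat_lit 4707) (nat_lit 1189) (nat_lit 2931) (nat_lit 1) .nil)), (nat_lit 26), (nat_lit 0), (nat_lit
 0), (nat_lit 0), (2, 41, 43), [1410, 3166], 0⟩,
  ⟨⟨-1, 48, 37, -52, 5, 16, 8, 40, -31⟩, (.cons (nat_lit 58) (nat_lit 206) (nat_lit 1878) (nat_lit 1) (.cons
 (nat_lit 2458) (nat_lit 4309) (nat_lit 2073) (nat_lit 1) .nil)), (nat_lit 39), (nat_lit 0), (nat_lit 0),
 (nat_lit 0), (26, 27, 4), [723, 798], 0⟩,
  ⟨⟨-57, 8, 37, -10, -33, -40, -18, 36, -19⟩, (.cons (nat_lit 1984) (nat_lit 2164) (nat_lit 466) (nat_lit 1)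
 (.cons (nat_lit 1248) (nat_lit 3540) (nat_lit 1091) (nat_lit 1) .nil)), (nat_lit 49), (nat_lit 0), (nat_lit
 0), (nat_lit 0), (40, 47, 21), [357, 3004], 0⟩,
  ⟨⟨15, -56, -11, 28, 5, 36, 40, -8, -47⟩, (.cons (nat_lit 947) (nat_lit 451) (nat_lit 1104) (nat_lit 1) (.cons
 (nat_lit 4920) (nat_lit 2166) (nat_lit 3824) (nat_lit 1) .nil)), (nat_lit 37), (nat_lit 0), (nat_lit 0),
 (nat_lit 0), (31, 19, 12), [1085, 3521], 0⟩,
  ⟨⟨-9, -8, -59, 52, 5, -36, -8, 40, -23⟩, (.cons (nat_lit 1088) (nat_lit 623) (nat_lit 834) (nat_lit 1) (.cons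
 (nat_lit 3058) (nat_lit 3454) (nat_lit 3510) (nat_lit 1) .nil)), (nat_lit 10), (nat_lit 0), (nat_lit 0),
 (nat_lit 0), (29, 15, 14), [106, 834], 0⟩,
  ⟨⟨31, 48, -4, 10, -17, 50, 46, -4, -35⟩, (.cons (nat_lit 416) (nat_lit 684) (nat_lit 1388) (nat_lit 1) (.cons
 (nat_lit 2457) (nat_lit 2543) (nat_lit 2813) (nat_lit 1) .nil)), (nat_lit 43), (nat_lit 0), (nat_lit 0),
 (nat_lit 0), (15, 51, 12), [193, 4479], 0⟩,
  ⟨⟨-57, 4, 40, -8, -45, -26, -24, 24, -25⟩, (.cons (nat_lit 1856) (nat_lit 1842) (nat_lit 1206) (nat_lit 1)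
 (.cons (nat_lit 348) (nat_lit 2647) (nat_lit 1936) (nat_lit 1) .nil)), (nat_lit 9), (nat_lit 0), (nat_lit 0),
 (nat_lit 0), (25, 50, 44), [223, 1057], 0⟩,
  ⟨⟨15, 32, 44, 50, -17, -30, 14, 44, -19⟩, (.cons (nat_lit 1920) (nat_lit 526) (nat_lit 1) (nat_lit 1209)
 (.cons (nat_lit 1032) (nat_lit 1985) (nat_lit 600) (nat_lit 1) .nil)), (nat_lit 41), (nat_lit 0), (nat_lit 0),
 (nat_lit 0), (27, 37, 4), [917, 4688], 0⟩,
  ⟨⟨-15, 32, 59, 50, 17, -20, -14, 44, -5⟩, (.cons (nat_lit 2007) (nat_lit 1403) (nat_lit 1784) (nat_lit 1)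
 (.cons (nat_lit 1965) (nat_lit 4275) (nat_lit 2635) (nat_lit 1) .nil)), (nat_lit 17), (nat_lit 0), (nat_lit
 0), (nat_lit 0), (6, 33, 48), [1516, 3994], 0⟩,
  mz,
  ⟨⟨-13, -48, -27, 30, 17, -60, 30, -36, -7⟩, (.cons (nat_lit 958) (nat_lit 1363) (nat_lit 848) (nat_lit 1)
 (.cons (nat_lit 1907) (nat_lit 3941) (nat_lit 2245) (nat_lit 1) .nil)), (nat_lit 29), (nat_lit 0), (nat_lit
 0), (nat_lit 0), (14, 37, 37), [522, 4268], 0⟩,
  ⟨⟨-15, -32, 59, -50, 17, 20, -14, -44, -5⟩, (.cons (nat_lit 1575) (nat_lit 2102) (nat_lit 767) (nat_lit 1)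
 (.cons (nat_lit 2187) (nat_lit 1257) (nat_lit 4170) (nat_lit 1) .nil)), (nat_lit 41), (nat_lit 0), (nat_lit
 0), (nat_lit 0), (8, 9, 11), [1705, 4949], 0⟩,
  ⟨⟨15, -52, 16, -10, 17, 60, 46, -4, -11⟩, (.cons (nat_lit 964) (nat_lit 242) (nat_lit 1) (nat_lit 1053)
 (.cons (nat_lit 1387) (nat_lit 1293) (nat_lit 4779) (nat_lit 1) .nil)), (nat_lit 47), (nat_lit 0), (nat_lit
 0), (nat_lit 0), (14, 26, 50), [2101, 3548], 0⟩,
  ⟨⟨57, -8, -20, 10, 33, -50, 18, -36, -37⟩, (.cons (nat_lit 2196) (nat_lit 1920) (nat_lit 1887) (nat_lit 1)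
 (.cons (nat_lit 5040) (nat_lit 261) (nat_lit 3685) (nat_lit 1) .nil)), (nat_lit 49), (nat_lit 0), (nat_lit 0),
 (nat_lit 0), (9, 49, 14), [1176, 66], 0⟩,
  ⟨⟨39, -28, -56, -10, 33, -40, -18, -36, -19⟩, (.cons (nat_lit 2196) (nat_lit 635) (nat_lit 242) (nat_lit 1)
 (.cons (nat_lit 5040) (nat_lit 1579) (nat_lit 4834) (nat_lit 1) .nil)), (nat_lit 50), (nat_lit 0), (nat_lit
 0), (nat_lit 0), (49, 35, 10), [284, 2761], 0⟩,
  mz,
  ⟨⟨43, 12, -63, -30, -17, -30, 30, -36, -23⟩, (.cons (nat_lit 1849) (nat_lit 2003) (nat_lit 1194) (nat_lit 1)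
 (.cons (nat_lit 3841) (nat_lit 3024) (nat_lit 2274) (nat_lit 1) .nil)), (nat_lit 24), (nat_lit 0), (nat_lit
 0), (nat_lit 0), (2, 6, 47), [996, 2377], 0⟩]

/-- Moves. -/
noncomputable def t4_5 : List Mv := [
  mz,
  mz,
  mz,
  mz,
  ⟨⟨51, 20, -47, 10, -47, -30, -2, 20, -47⟩, (.cons (nat_lit 1558) (nat_lit 1986) (nat_lit 1) (nat_lit 572)
 (.cons (nat_lit 4169) (nat_lit 3973) (nat_lit 4779) (nat_lit 1) .nil)), (nat_lit 15), (nat_lit 0), (nat_lit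
 0), (nat_lit 0), (24, 39, 24), [1420, 4568], 0⟩,
  ⟨⟨51, -20, -47, 10, 47, -30, -2, -20, -47⟩, (.cons (nat_lit 227) (nat_lit 816) (nat_lit 641) (nat_lit 1)
 (.cons (nat_lit 4465) (nat_lit 1185) (nat_lit 3043) (nat_lit 1) .nil)), (nat_lit 15), (nat_lit 0), (nat_lit
 0), (nat_lit 0), (12, 46, 12), [1373, 1505], 0⟩,
  ⟨⟨15, 56, -11, -28, 5, -36, 40, 8, -47⟩, (.cons (nat_lit 1985) (nat_lit 306) (nat_lit 1153) (nat_lit 1)
 (.cons (nat_lit 1709) (nat_lit 3407) (nat_lit 3260) (nat_lit 1) .nil)), (nat_lit 28), (nat_lit 0), (nat_lit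
 0), (nat_lit 0), (1, 37, 38), [938, 3887], 0⟩,
  mz,
  mz,
  ⟨⟨-33, -20, -32, -8, -45, 34, 24, -24, -49⟩, (.cons (nat_lit 1746) (nat_lit 276) (nat_lit 1247) (nat_lit 1)
 (.cons (nat_lit 507) (nat_lit 3918) (nat_lit 1443) (nat_lit 1) .nil)), (nat_lit 42), (nat_lit 0), (nat_lit 0),
 (nat_lit 0), (35, 39, 42), [1358, 975], 0⟩,
  ⟨⟨-25, 48, -11, 28, -5, -64, -40, -8, -7⟩, (.cons (nat_lit 264) (nat_lit 936) (nat_lit 557) (nat_lit 1)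
 (.cons (nat_lit 2723) (nat_lit 1140) (nat_lit 507) (nat_lit 1) .nil)), (nat_lit 36), (nat_lit 0), (nat_lit 0),
 (nat_lit 0), (52, 52, 9), [823, 4388], 0⟩,
  ⟨⟨-1, -12, -63, -50, -17, 30, 14, -44, -19⟩, (.cons (nat_lit 1736) (nat_lit 304) (nat_lit 932) (nat_lit 1)
 (.cons (nat_lit 556) (nat_lit 2558) (nat_lit 1419) (nat_lit 1) .nil)), (nat_lit 48), (nat_lit 0), (nat_lit 0),
 (nat_lit 0), (44, 27, 20), [155, 601], 0⟩,
  ⟨⟨-51, 20, 4, -10, -47, -20, 2, 20, -49⟩, (.cons (nat_lit 1862) (nat_lit 2023) (nat_lit 1962) (nat_lit 1)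
 (.cons (nat_lit 5024) (nat_lit 3352) (nat_lit 3554) (nat_lit 1) .nil)), (nat_lit 15), (nat_lit 0), (nat_lit
 0), (nat_lit 0), (48, 25, 48), [1107, 34], 0⟩,
  mz,
  mz,
  ⟨⟨53, 0, -53, -10, 47, -20, 2, -20, -49⟩, (.cons (nat_lit 271) (nat_lit 761) (nat_lit 2049) (nat_lit 1)
 (.cons (nat_lit 1269) (nat_lit 3494) (nat_lit 4880) (nat_lit 1) .nil)), (nat_lit 5), (nat_lit 0), (nat_lit 0),
 (nat_lit 0), (0, 32, 36), [981, 1489], 0⟩,
  ⟨⟨15, 52, 16, -10, -17, 60, 46, 4, -11⟩, (.cons (nat_lit 833) (nat_lit 1296) (nat_lit 1980) (nat_lit 1)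
 (.cons (nat_lit 403) (nat_lit 4871) (nat_lit 3043) (nat_lit 1) .nil)), (nat_lit 47), (nat_lit 0), (nat_lit 0),
 (nat_lit 0), (24, 37, 10), [1057, 626], 0⟩,
  ⟨⟨15, 52, -31, 10, 17, 50, 46, 4, -35⟩, (.cons (nat_lit 1191) (nat_lit 944) (nat_lit 1952) (nat_lit 1) (.cons
 (nat_lit 1883) (nat_lit 652) (nat_lit 3680) (nat_lit 1) .nil)), (nat_lit 44), (nat_lit 0), (nat_lit 0),
 (nat_lit 0), (7, 40, 25), [187, 2206], 0⟩,
  ⟨⟨33, -20, -65, 8, -45, 26, -24, -24, -25⟩, (.cons (nat_lit 987) (nat_lit 1551) (nat_lit 1) (nat_lit 2119)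
 (.cons (nat_lit 800) (nat_lit 4438) (nat_lit 1648) (nat_lit 1) .nil)), (nat_lit 42), (nat_lit 0), (nat_lit 0),
 (nat_lit 0), (7, 29, 19), [854, 2136], 0⟩,
  mz,
  mz,
  ⟨⟨57, 4, -17, -8, 45, 34, 24, 24, -49⟩, (.cons (nat_lit 2196) (nat_lit 684) (nat_lit 1161) (nat_lit 1) (.cons
 (nat_lit 5040) (nat_lit 4120) (nat_lit 36) (nat_lit 1) .nil)), (nat_lit 21), (nat_lit 0), (nat_lit 0),
 (nat_lit 0), (20, 13, 14), [696, 2094], 0⟩,
  ⟨⟨45, 28, -49, 28, -45, -14, 0, 0, -53⟩, (.cons (nat_lit 2196) (nat_lit 1037) (nat_lit 1782) (nat_lit 1)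
 (.cons (nat_lit 5040) (nat_lit 4392) (nat_lit 1801) (nat_lit 1) .nil)), (nat_lit 22), (nat_lit 0), (nat_lit
 0), (nat_lit 0), (24, 22, 0), [1705, 95], 0⟩,
  mz,
  ⟨⟨-13, 48, -27, 30, -17, -60, 30, 36, -7⟩, (.cons (nat_lit 271) (nat_lit 1647) (nat_lit 738) (nat_lit 1)
 (.cons (nat_lit 3124) (nat_lit 1604) (nat_lit 4236) (nat_lit 1) .nil)), (nat_lit 29), (nat_lit 0), (nat_lit
 0), (nat_lit 0), (11, 48, 48), [1340, 2737], 0⟩,
  mz,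
  ⟨⟨-25, -48, -11, 28, 5, -64, -40, 8, -7⟩, (.cons (nat_lit 2047) (nat_lit 1646) (nat_lit 2072) (nat_lit 1)
 (.cons (nat_lit 1464) (nat_lit 3490) (nat_lit 3948) (nat_lit 1) .nil)), (nat_lit 36), (nat_lit 0), (nat_lit
 0), (nat_lit 0), (2, 2, 35), [320, 159], 0⟩,
  mz,
  ⟨⟨9, 8, -68, -52, -5, 16, 8, -40, -31⟩, (.cons (nat_lit 327) (nat_lit 11) (nat_lit 1779) (nat_lit 1) (.cons
 (nat_lit 827) (nat_lit 1411) (nat_lit 2699) (nat_lit 1) .nil)), (nat_lit 10), (nat_lit 0), (nat_lit 0),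
 (nat_lit 0), (4, 24, 33), [418, 4256], 0⟩,
  ⟨⟨43, -12, -63, -30, 17, -30, 30, 36, -23⟩, (.cons (nat_lit 227) (nat_lit 1818) (nat_lit 1643) (nat_lit 1)
 (.cons (nat_lit 2843) (nat_lit 1933) (nat_lit 1) (nat_lit 4331) .nil)), (nat_lit 24), (nat_lit 0), (nat_lit
 0), (nat_lit 0), (16, 48, 5), [653, 1424], 0⟩,
  mz,
  ⟨⟨45, -28, -49, 28, 45, -14, 0, 0, -53⟩, (.cons (nat_lit 599) (nat_lit 317) (nat_lit 2138) (nat_lit 1) (.cons
 (nat_lit 3764) (nat_lit 4956) (nat_lit 2974) (nat_lit 1) .nil)), (nat_lit 22), (nat_lit 0), (nat_lit 0),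
 (nat_lit 0), (39, 49, 0), [796, 3256], 0⟩,
  mz,
  ⟨⟨-39, 28, -17, 10, -33, -50, 18, 36, -37⟩, (.cons (nat_lit 573) (nat_lit 918) (nat_lit 1163) (nat_lit 1)
 (.cons (nat_lit 2490) (nat_lit 3254) (nat_lit 1437) (nat_lit 1) .nil)), (nat_lit 50), (nat_lit 0), (nat_lit
 0), (nat_lit 0), (43, 8, 25), [1256, 1348], 0⟩,
  mz,
  mz,
  ⟨⟨-9, 8, -59, 52, -5, -36, -8, -40, -23⟩, (.cons (nat_lit 491) (nat_lit 1794) (nat_lit 1138) (nat_lit 1)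
 (.cons (nat_lit 4456) (nat_lit 1488) (nat_lit 4217) (nat_lit 1) .nil)), (nat_lit 10), (nat_lit 0), (nat_lit
 0), (nat_lit 0), (2, 12, 43), [790, 4687], 0⟩,
  ⟨⟨-1, 48, 37, 52, -5, -16, 8, 40, -31⟩, (.cons (nat_lit 537) (nat_lit 1449) (nat_lit 455) (nat_lit 1) (.cons
 (nat_lit 4214) (nat_lit 2716) (nat_lit 1154) (nat_lit 1) .nil)), (nat_lit 6), (nat_lit 0), (nat_lit 0),
 (nat_lit 0), (26, 26, 4), [550, 1619], 0⟩,
  ⟨⟨-57, 8, 37, -10, -33, -40, -18, 36, -19⟩, (.cons (nat_lit 1984) (nat_lit 2164) (nat_lit 466) (nat_lit 1)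
 (.cons (nat_lit 1248) (nat_lit 3540) (nat_lit 1091) (nat_lit 1) .nil)), (nat_lit 49), (nat_lit 0), (nat_lit
 0), (nat_lit 0), (40, 47, 21), [357, 3004], 0⟩,
  ⟨⟨25, 48, -36, 28, 5, 36, 40, -8, -47⟩, (.cons (nat_lit 305) (nat_lit 693) (nat_lit 518) (nat_lit 1) (.cons
 (nat_lit 4338) (nat_lit 2128) (nat_lit 2075) (nat_lit 1) .nil)), (nat_lit 40), (nat_lit 0), (nat_lit 0),
 (nat_lit 0), (34, 19, 12), [1184, 4694], 0⟩,
  ⟨⟨-9, -8, -59, 52, 5, -36, -8, 40, -23⟩, (.cons (nat_lit 1088) (nat_lit 623) (nat_lit 834) (nat_lit 1) (.cons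
 (nat_lit 3058) (nat_lit 3454) (nat_lit 3510) (nat_lit 1) .nil)), (nat_lit 10), (nat_lit 0), (nat_lit 0),
 (nat_lit 0), (29, 15, 14), [106, 834], 0⟩,
  ⟨⟨31, 48, -4, 10, -17, 50, 46, -4, -35⟩, (.cons (nat_lit 416) (nat_lit 684) (nat_lit 1388) (nat_lit 1) (.cons
 (nat_lit 2457) (nat_lit 2543) (nat_lit 2813) (nat_lit 1) .nil)), (nat_lit 43), (nat_lit 0), (nat_lit 0),
 (nat_lit 0), (15, 51, 12), [193, 4479], 0⟩,
  ⟨⟨33, 20, -65, -8, -45, -26, -24, 24, -25⟩, (.cons (nat_lit 247) (nat_lit 940) (nat_lit 1665) (nat_lit 1)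
 (.cons (nat_lit 1506) (nat_lit 738) (nat_lit 3325) (nat_lit 1) .nil)), (nat_lit 18), (nat_lit 0), (nat_lit 0),
 (nat_lit 0), (19, 50, 44), [1738, 2912], 0⟩,
  ⟨⟨15, 32, 44, 50, -17, -30, 14, 44, -19⟩, (.cons (nat_lit 1920) (nat_lit 526) (nat_lit 1) (nat_lit 1209)
 (.cons (nat_lit 1032) (nat_lit 1985) (nat_lit 600) (nat_lit 1) .nil)), (nat_lit 41), (nat_lit 0), (nat_lit 0),
 (nat_lit 0), (27, 37, 4), [917, 4688], 0⟩,
  ⟨⟨1, 12, -64, -50, -17, 20, -14, 44, -5⟩, (.cons (nat_lit 1005) (nat_lit 1817) (nat_lit 216) (nat_lit 1)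
 (.cons (nat_lit 1899) (nat_lit 2820) (nat_lit 4036) (nat_lit 1) .nil)), (nat_lit 16), (nat_lit 0), (nat_lit
 0), (nat_lit 0), (42, 20, 48), [717, 450], 0⟩,
  mz,
  ⟨⟨43, 12, 20, 30, 17, -60, 30, -36, -7⟩, (.cons (nat_lit 2196) (nat_lit 1151) (nat_lit 234) (nat_lit 1)
 (.cons (nat_lit 5040) (nat_lit 2270) (nat_lit 580) (nat_lit 1) .nil)), (nat_lit 46), (nat_lit 0), (nat_lit 0),
 (nat_lit 0), (23, 37, 37), [846, 2331], 0⟩,
  ⟨⟨1, -12, -64, -50, 17, 20, -14, -44, -5⟩, (.cons (nat_lit 1535) (nat_lit 1122) (nat_lit 1348) (nat_lit 1)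
 (.cons (nat_lit 2877) (nat_lit 113) (nat_lit 1506) (nat_lit 1) .nil)), (nat_lit 16), (nat_lit 0), (nat_lit 0),
 (nat_lit 0), (3, 9, 11), [360, 4875], 0⟩,
  ⟨⟨15, -52, 16, 10, -17, -60, 46, -4, -11⟩, (.cons (nat_lit 1672) (nat_lit 859) (nat_lit 603) (nat_lit 1)
 (.cons (nat_lit 1570) (nat_lit 2105) (nat_lit 1384) (nat_lit 1) .nil)), (nat_lit 44), (nat_lit 0), (nat_lit
 0), (nat_lit 0), (14, 27, 50), [1667, 2424], 0⟩,
  ⟨⟨-39, -28, -17, -10, -33, 50, 18, -36, -37⟩, (.cons (nat_lit 1279) (nat_lit 464) (nat_lit 1570) (nat_lit 1)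
 (.cons (nat_lit 3292) (nat_lit 1112) (nat_lit 2661) (nat_lit 1) .nil)), (nat_lit 38), (nat_lit 0), (nat_lit
 0), (nat_lit 0), (5, 4, 14), [1879, 104], 0⟩,
  ⟨⟨39, -28, -56, -10, 33, -40, -18, -36, -19⟩, (.cons (nat_lit 2196) (nat_lit 635) (nat_lit 242) (nat_lit 1)
 (.cons (nat_lit 5040) (nat_lit 1579) (nat_lit 4834) (nat_lit 1) .nil)), (nat_lit 50), (nat_lit 0), (nat_lit
 0), (nat_lit 0), (49, 35, 10), [284, 2761], 0⟩,
  mz,
  ⟨⟨43, 12, -63, -30, -17, -30, 30, -36, -23⟩, (.cons (nat_lit 1849) (nat_lit 2003) (nat_lit 1194) (nat_lit 1)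
 (.cons (nat_lit 3841) (nat_lit 3024) (nat_lit 2274) (nat_lit 1) .nil)), (nat_lit 24), (nat_lit 0), (nat_lit
 0), (nat_lit 0), (2, 6, 47), [996, 2377], 0⟩]

/-- All the moves. -/
noncomputable def tabs : List (List (List Mv)) := [[[], [], t0_2, [], t0_4, t0_5], [[], [], t1_2, [], t1_4, t1_5], [], [], [[], [], t4_2, [], t4_4, t4_5]]

/-- Subtrie. -/
noncomputable def T2 : Tr := (.ev (nat_lit 20) (nat_lit 143084755355696) (.nd (nat_lit 33) (.br (nat_lit 39)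
 (.br (nat_lit 19) (.br (nat_lit 8) (.br (nat_lit 4) (.br (nat_lit 3) (.ch (nat_lit 1) (.ev (nat_lit 52)
 (nat_lit 4790366020702272) (.ev (nat_lit 84) (nat_lit 268435456) (.ev (nat_lit 148) (nat_lit 70368744177664)
 (.ev (nat_lit 180) (nat_lit 1099511627776) (.ev (nat_lit 372) (nat_lit 512) (.ev (nat_lit 436) (nat_lit 65536)
 (.ev (nat_lit 724) (nat_lit 8796093022208) (.ev (nat_lit 916) (nat_lit 2097152) (.nd (nat_lit 1552) (.br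
 (nat_lit 6) (.br (nat_lit 4) (.ch (nat_lit 1) (.ev (nat_lit 1568) (nat_lit 1125900447940608) (.nd (nat_lit
 2128) (.br (nat_lit 8) (.br (nat_lit 3) (.ch (nat_lit 0) (.ev (nat_lit 2144) (nat_lit 17592186045440) (.ev
 (nat_lit 2157) (nat_lit 562949953421312) .dd))) (.ch (nat_lit 3) (.ev (nat_lit 2928) (nat_lit 562949953421312)
 (.fin (nat_lit 576465700132438613))))) (.br (nat_lit 9) (.ch (nat_lit 8) (.ev (nat_lit 2144) (nat_lit
 562949953422336) (.ev (nat_lit 2157) (nat_lit 17592186044416) .dd))) (.br (nat_lit 12) (.ch (nat_lit 9) (.ev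
 (nat_lit 2144) (nat_lit 580542139466752) .dd)) (.ch (nat_lit 12) (.ev (nat_lit 2144) (nat_lit 580542139465728)
 (.ev (nat_lit 2157) (nat_lit 1024) .dd))))))))) (.br (nat_lit 5) (.ch (nat_lit 4) (.ev (nat_lit 1568) (nat_lit
 1706442587406336) (.ev (nat_lit 1581) (nat_lit 1024) .dd))) (.ch (nat_lit 5) (.ev (nat_lit 1568) (nat_lit
 1706442587407360) .dd)))) (.br (nat_lit 9) (.ch (nat_lit 6) (.ev (nat_lit 1568) (nat_lit 580542680531968) (.ev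
 (nat_lit 2224) (nat_lit 1125899906842624) (.ev (nat_lit 2237) (nat_lit 32768) .dd)))) (.br (nat_lit 12) (.ch
 (nat_lit 9) (.ev (nat_lit 1568) (nat_lit 1143492092887040) (.nd (nat_lit 2128) (.br (nat_lit 10) (.br (nat_lit
 9) (.ch (nat_lit 5) (.ev (nat_lit 2144) (nat_lit 562950494519296) (.ev (nat_lit 2157) (nat_lit 1024) .dd)))
 (.ch (nat_lit 9) (.ev (nat_lit 2144) (nat_lit 536871936) (.ev (nat_lit 2244) (nat_lit 32768) (.ev (nat_lit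
 3236) (nat_lit 4194304) (.ev (nat_lit 3245) (nat_lit 562949953421312) .dd)))))) (.br (nat_lit 11) (.ch
 (nat_lit 10) (.ev (nat_lit 2144) (nat_lit 562950494519296) (.ev (nat_lit 2157) (nat_lit 1024) .dd))) (.ch
 (nat_lit 11) (.ev (nat_lit 2144) (nat_lit 562949957649408) (.ev (nat_lit 2157) (nat_lit 536870912) .dd))))))))
 (.ch (nat_lit 12) (.ev (nat_lit 1568) (nat_lit 1688849864459264) (.nd (nat_lit 2128) (.br (nat_lit 9) (.br
 (nat_lit 8) (.ch (nat_lit 4) (.ev (nat_lit 2144) (nat_lit 17592722915328) (.ev (nat_lit 2157) (nat_lit 32768)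
 .dd))) (.ch (nat_lit 8) (.ev (nat_lit 2144) (nat_lit 17592722915328) (.ev (nat_lit 2157) (nat_lit 32768)
 .dd)))) (.br (nat_lit 11) (.ch (nat_lit 9) (.ev (nat_lit 2144) (nat_lit 17592186077184) (.ev (nat_lit 2157)
 (nat_lit 536870912) .dd))) (.br (nat_lit 12) (.ch (nat_lit 11) (.ev (nat_lit 2144) (nat_lit 536903680) (.ev
 (nat_lit 2157) (nat_lit 17592186044416) .dd))) (.ch (nat_lit 12) (.ev (nat_lit 2144) (nat_lit 17592722915328)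
 (.ev (nat_lit 2157) (nat_lit 32768) .dd)))))))))))))))))))))) (.ch (nat_lit 3) (.ev (nat_lit 52) (nat_lit
 4802667350234688) (.ev (nat_lit 212) (nat_lit 68719476736) (.ev (nat_lit 340) (nat_lit 268435456) (.ev
 (nat_lit 628) (nat_lit 4398046511104) (.ev (nat_lit 820) (nat_lit 1099511627776) (.ev (nat_lit 1268) (nat_lit
 562949953421312) (.ev (nat_lit 1376) (nat_lit 1205889377828864) .dd))))))))) (.br (nat_lit 5) (.ch (nat_lit 4)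
 (.ev (nat_lit 52) (nat_lit 5648535097771520) (.ev (nat_lit 212) (nat_lit 131072) (.ev (nat_lit 276) (nat_lit
 2097152) (.ev (nat_lit 564) (nat_lit 32768) (.ev (nat_lit 788) (nat_lit 4398046511104) (.ev (nat_lit 948)
 (nat_lit 70368744177664) (.ev (nat_lit 1152) (nat_lit 853771336814656) .dd)))))))) (.br (nat_lit 7) (.ch
 (nat_lit 5) (.ev (nat_lit 52) (nat_lit 1426410986144768) (.ev (nat_lit 404) (nat_lit 4096) (.ev (nat_lit 436)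
 (nat_lit 4194304) (.ev (nat_lit 596) (nat_lit 562949953421312) (.ev (nat_lit 724) (nat_lit 64) (.nd (nat_lit
 1552) (.br (nat_lit 5) (.br (nat_lit 1) (.ch (nat_lit 0) (.ev (nat_lit 1568) (nat_lit 4517343539528192) (.ev
 (nat_lit 2644) (nat_lit 70368744177664) (.ev (nat_lit 2653) (nat_lit 65536) .dd)))) (.br (nat_lit 2) (.ch
 (nat_lit 1) (.ev (nat_lit 1568) (nat_lit 79714609889280) (.nd (nat_lit 2128) (.br (nat_lit 9) (.br (nat_lit 3)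
 (.ch (nat_lit 1) (.ev (nat_lit 2144) (nat_lit 4503599627371008) (.ev (nat_lit 2157) (nat_lit 4398046511104)
 .dd))) (.br (nat_lit 8) (.ch (nat_lit 3) (.ev (nat_lit 2144) (nat_lit 4398046511616) (.ev (nat_lit 2157)
 (nat_lit 4503599627370496) .dd))) (.ch (nat_lit 8) (.ev (nat_lit 2144) (nat_lit 4398046511616) (.ev (nat_lit
 2157) (nat_lit 4503599627370496) .dd))))) (.br (nat_lit 10) (.ch (nat_lit 9) (.ev (nat_lit 2144) (nat_lit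
 4503599627370496) (.ev (nat_lit 2244) (nat_lit 4398046511104) (.ev (nat_lit 2253) (nat_lit 512) .dd)))) (.br
 (nat_lit 12) (.ch (nat_lit 10) (.ev (nat_lit 2144) (nat_lit 4507997673881600) (.ev (nat_lit 2157) (nat_lit
 512) .dd))) (.ch (nat_lit 12) (.ev (nat_lit 2144) (nat_lit 512) (.ev (nat_lit 2244) (nat_lit 4398046511104)
 (.ev (nat_lit 2253) (nat_lit 4503599627370496) .dd)))))))))) (.ch (nat_lit 2) (.ev (nat_lit 1568) (nat_lit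
 83562900488704) (.ev (nat_lit 2244) (nat_lit 65536) (.ev (nat_lit 2528) (nat_lit 549755813888) (.ev (nat_lit
 2992) (nat_lit 4503599627370496) (.ev (nat_lit 3005) (nat_lit 32768) .dd)))))))) (.br (nat_lit 10) (.ch
 (nat_lit 5) (.ev (nat_lit 1568) (nat_lit 4587712266960896) (.nd (nat_lit 2128) (.br (nat_lit 10) (.br (nat_lit
 8) (.ch (nat_lit 0) (.ev (nat_lit 2144) (nat_lit 16810496) .dd)) (.br (nat_lit 9) (.ch (nat_lit 8) (.ev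
 (nat_lit 2144) (nat_lit 16810496) .dd)) (.ch (nat_lit 9) (.ev (nat_lit 2144) (nat_lit 16810496) .dd)))) (.br
 (nat_lit 11) (.ch (nat_lit 10) (.ev (nat_lit 2144) (nat_lit 16810496) .dd)) (.br (nat_lit 12) (.ch (nat_lit
 11) (.ev (nat_lit 2144) (nat_lit 16810496) .dd)) (.ch (nat_lit 12) (.ev (nat_lit 2160) (nat_lit 512) (.ev
 (nat_lit 2340) (nat_lit 32768) (.ev (nat_lit 2349) (nat_lit 16777216) .dd)))))))))) (.br (nat_lit 12) (.ch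
 (nat_lit 10) (.ev (nat_lit 1568) (nat_lit 4578916173971968) (.ev (nat_lit 2160) (nat_lit 16777216) (.ev
 (nat_lit 2173) (nat_lit 8796093022208) .dd)))) (.ch (nat_lit 12) (.ev (nat_lit 1568) (nat_lit 79164854042624)
 (.ev (nat_lit 1684) (nat_lit 4398046511104) (.ev (nat_lit 3040) (nat_lit 4503599627370496) (.ev (nat_lit 3088)
 (nat_lit 549755814400) (.ev (nat_lit 3101) (nat_lit 32768) .dd)))))))))))))))) (.ch (nat_lit 7) (.ev (nat_lit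
 52) (nat_lit 6264536755635200) (.ev (nat_lit 660) (nat_lit 4398046511104) (.ev (nat_lit 852) (nat_lit
 281474976710656) (.ev (nat_lit 980) (nat_lit 131072) (.ev (nat_lit 1236) (nat_lit 512) (.nd (nat_lit 1552)
 (.br (nat_lit 6) (.br (nat_lit 1) (.ch (nat_lit 0) (.ev (nat_lit 1568) (nat_lit 9070973095936) (.ev (nat_lit
 2340) (nat_lit 16777216) (.ev (nat_lit 2468) (nat_lit 4194304) (.ev (nat_lit 3200) (nat_lit 268435456) (.ev
 (nat_lit 3732) (nat_lit 64) (.ev (nat_lit 3741) (nat_lit 17592186044416) .dd))))))) (.br (nat_lit 2) (.ch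
 (nat_lit 1) (.ev (nat_lit 1568) (nat_lit 8796382494720) (.nd (nat_lit 2128) (.br (nat_lit 6) (.br (nat_lit 3)
 (.ch (nat_lit 0) (.ev (nat_lit 2144) (nat_lit 2101312) (.ev (nat_lit 2192) (nat_lit 17592186044416) (.ev
 (nat_lit 2205) (nat_lit 274877906944) .dd)))) (.ch (nat_lit 3) (.ev (nat_lit 2144) (nat_lit 4160) (.ev
 (nat_lit 2244) (nat_lit 2097152) (.ev (nat_lit 3072) (nat_lit 17592186044416) (.ev (nat_lit 3085) (nat_lit
 274877906944) .dd)))))) (.br (nat_lit 8) (.ch (nat_lit 6) (.ev (nat_lit 2144) (nat_lit 17867066048512) (.ev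
 (nat_lit 2340) (nat_lit 64) (.ev (nat_lit 2349) (nat_lit 4096) .dd)))) (.br (nat_lit 12) (.ch (nat_lit 8) (.ev
 (nat_lit 2144) (nat_lit 17592188141568) (.ev (nat_lit 2244) (nat_lit 64) (.ev (nat_lit 2320) (nat_lit 4096)
 (.ev (nat_lit 2333) (nat_lit 274877906944) .dd))))) (.ch (nat_lit 12) (.ev (nat_lit 2144) (nat_lit
 274880008256) (.ev (nat_lit 2157) (nat_lit 17592186044416) .dd))))))))) (.ch (nat_lit 2) (.ev (nat_lit 1568)
 (nat_lit 8796363554816) (.ev (nat_lit 1588) (nat_lit 65536) (.ev (nat_lit 2656) (nat_lit 16777216) (.ev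
 (nat_lit 2948) (nat_lit 274877906944) (.ev (nat_lit 2960) (nat_lit 4096) (.ev (nat_lit 3236) (nat_lit 4194304)
 (.ev (nat_lit 3668) (nat_lit 17592186044416) (.ev (nat_lit 3677) (nat_lit 64) .dd))))))))))) (.br (nat_lit 10)
 (.br (nat_lit 9) (.ch (nat_lit 6) (.ev (nat_lit 1568) (nat_lit 275167383552) (.ev (nat_lit 2576) (nat_lit
 17592186044416) (.ev (nat_lit 3008) (nat_lit 2097152) (.ev (nat_lit 3104) (nat_lit 8796093022208) (.ev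
 (nat_lit 3117) (nat_lit 64) .dd)))))) (.ch (nat_lit 9) (.ev (nat_lit 1568) (nat_lit 275148443648) (.nd
 (nat_lit 2128) (.br (nat_lit 9) (.br (nat_lit 6) (.ch (nat_lit 3) (.ev (nat_lit 2144) (nat_lit 17592190304256)
 (.ev (nat_lit 2720) (nat_lit 16777216) (.ev (nat_lit 2948) (nat_lit 64) (.ev (nat_lit 2957) (nat_lit
 8796093022208) .dd))))) (.ch (nat_lit 6) (.ev (nat_lit 2144) (nat_lit 8796113993792) (.ev (nat_lit 2244)
 (nat_lit 17592186044416) (.ev (nat_lit 2253) (nat_lit 65536) .dd))))) (.br (nat_lit 10) (.ch (nat_lit 9) (.ev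
 (nat_lit 2144) (nat_lit 26388283260928) (.ev (nat_lit 2176) (nat_lit 64) (.ev (nat_lit 2948) (nat_lit 65536)
 (.ev (nat_lit 2957) (nat_lit 16777216) .dd))))) (.ch (nat_lit 10) (.ev (nat_lit 2144) (nat_lit 8796093087808)
 (.ev (nat_lit 2244) (nat_lit 17592190238720) (.ev (nat_lit 2253) (nat_lit 16777216) .dd)))))))))) (.br
 (nat_lit 12) (.ch (nat_lit 10) (.ev (nat_lit 1568) (nat_lit 26663177949248) (.ev (nat_lit 2256) (nat_lit
 268435456) (.ev (nat_lit 2468) (nat_lit 2097152) (.ev (nat_lit 2477) (nat_lit 65536) .dd))))) (.ch (nat_lit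
 12) (.ev (nat_lit 1568) (nat_lit 17867355525184) (.ev (nat_lit 1581) (nat_lit 8796093022208)
 .dd)))))))))))))))) (.br (nat_lit 15) (.br (nat_lit 11) (.ch (nat_lit 8) (.ev (nat_lit 52) (nat_lit
 4531912343327744) (.ev (nat_lit 84) (nat_lit 1125899906842624) (.ev (nat_lit 628) (nat_lit 536870912) (.ev
 (nat_lit 788) (nat_lit 64) (.ev (nat_lit 1236) (nat_lit 4398046511104) (.nd (nat_lit 1552) (.br (nat_lit 9)
 (.br (nat_lit 5) (.ch (nat_lit 0) (.ev (nat_lit 1568) (nat_lit 914793674441216) (.ev (nat_lit 2480) (nat_lit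
 65536) (.ev (nat_lit 2493) (nat_lit 68719476736) .dd)))) (.br (nat_lit 6) (.ch (nat_lit 5) (.ev (nat_lit 1568)
 (nat_lit 633387417272832) (.ev (nat_lit 1581) (nat_lit 281474976710656) .dd))) (.ch (nat_lit 6) (.ev (nat_lit
 1568) (nat_lit 844493649805312) (.ev (nat_lit 2548) (nat_lit 70368744177664) (.ev (nat_lit 2557) (nat_lit 512)
 .dd)))))) (.br (nat_lit 10) (.ch (nat_lit 9) (.ev (nat_lit 1568) (nat_lit 633318697730048) (.ev (nat_lit 1828)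
 (nat_lit 512) (.ev (nat_lit 2468) (nat_lit 281474976710656) (.fin (nat_lit 576474496186663492)))))) (.br
 (nat_lit 12) (.ch (nat_lit 10) (.ev (nat_lit 1568) (nat_lit 70368744178176) (.ev (nat_lit 1588) (nat_lit
 65536) (.ev (nat_lit 2176) (nat_lit 562949953552384) (.ev (nat_lit 2352) (nat_lit 68719476736) (.ev (nat_lit
 2365) (nat_lit 281474976710656) .dd)))))) (.ch (nat_lit 12) (.ev (nat_lit 1568) (nat_lit 281543696384000) (.nd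
 (nat_lit 2128) (.br (nat_lit 8) (.ch (nat_lit 1) (.ev (nat_lit 2144) (nat_lit 633318697598976) (.ev (nat_lit
 2157) (nat_lit 512) .dd))) (.br (nat_lit 10) (.ch (nat_lit 8) (.ev (nat_lit 2144) (nat_lit 512) (.ev (nat_lit
 2244) (nat_lit 562949953421312) (.ev (nat_lit 2253) (nat_lit 70368744177664) .dd)))) (.ch (nat_lit 10) (.ev
 (nat_lit 2144) (nat_lit 70368744177664) (.fin (nat_lit 576470098147492391))))))))))))))))))) (.br (nat_lit 12)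
 (.ch (nat_lit 11) (.ev (nat_lit 52) (nat_lit 573464318672960) (.ev (nat_lit 116) (nat_lit 4194304) (.ev
 (nat_lit 608) (nat_lit 6003608904668672) .dd)))) (.ch (nat_lit 12) (.ev (nat_lit 52) (nat_lit
 4802667595661888) (.ev (nat_lit 84) (nat_lit 68719476736) (.ev (nat_lit 116) (nat_lit 2097152) (.ev (nat_lit
 244) (nat_lit 4194304) (.ev (nat_lit 724) (nat_lit 16781312) (.ev (nat_lit 1536) (nat_lit 8796093022208) (.nd
 (nat_lit 1552) (.br (nat_lit 6) (.br (nat_lit 2) (.ch (nat_lit 0) (.ev (nat_lit 1568) (nat_lit 76690936037376)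
 (.nd (nat_lit 2128) (.br (nat_lit 8) (.br (nat_lit 2) (.ch (nat_lit 0) (.ev (nat_lit 2144) (nat_lit
 562949953422336) (.ev (nat_lit 2157) (nat_lit 1125899906842624) .dd))) (.ch (nat_lit 2) (.ev (nat_lit 2144)
 (nat_lit 1125899906843648) (.ev (nat_lit 2157) (nat_lit 562949953421312) .dd)))) (.br (nat_lit 12) (.ch
 (nat_lit 8) (.ev (nat_lit 2144) (nat_lit 562949953421312) (.ev (nat_lit 2948) (nat_lit 1125899906842624) (.ev
 (nat_lit 2957) (nat_lit 1024) .dd)))) (.ch (nat_lit 12) (.ev (nat_lit 2144) (nat_lit 1125899906842624) (.ev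
 (nat_lit 2960) (nat_lit 562949953421312) (.ev (nat_lit 2973) (nat_lit 1024) .dd))))))))) (.br (nat_lit 5) (.ch
 (nat_lit 2) (.ev (nat_lit 1568) (nat_lit 1764716162581504) (.ev (nat_lit 2592) (nat_lit 549755813888) (.ev
 (nat_lit 2605) (nat_lit 274877906944) .dd)))) (.ch (nat_lit 5) (.ev (nat_lit 1568) (nat_lit 635242842948608)
 (.nd (nat_lit 2128) (.br (nat_lit 9) (.br (nat_lit 8) (.ch (nat_lit 0) (.ev (nat_lit 2144) (nat_lit
 1125899906842624) (.ev (nat_lit 2157) (nat_lit 4398046511104) .dd))) (.ch (nat_lit 8) (.ev (nat_lit 2144)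
 (nat_lit 1130297953353728) .dd))) (.br (nat_lit 11) (.ch (nat_lit 9) (.ev (nat_lit 3360) (nat_lit
 1130297953353728) .dd)) (.br (nat_lit 12) (.ch (nat_lit 11) (.ev (nat_lit 2144) (nat_lit 1125899906842624)
 (.ev (nat_lit 2157) (nat_lit 4398046511104) .dd))) (.ch (nat_lit 12) (.ev (nat_lit 2144) (nat_lit
 4398046511104) (.ev (nat_lit 2157) (nat_lit 1125899906842624) .dd))))))))))) (.br (nat_lit 9) (.ch (nat_lit 6)
 (.ev (nat_lit 1568) (nat_lit 1690774005613568) (.ev (nat_lit 2960) (nat_lit 70368744177664) (.ev (nat_lit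
 2973) (nat_lit 4398046511104) .dd)))) (.br (nat_lit 12) (.ch (nat_lit 9) (.ev (nat_lit 1568) (nat_lit
 76416058130432) (.ev (nat_lit 1924) (nat_lit 562949953421312) (.ev (nat_lit 2948) (nat_lit 1024) (.ev (nat_lit
 2960) (nat_lit 274877906944) (.ev (nat_lit 2973) (nat_lit 1125899906842624) .dd)))))) (.ch (nat_lit 12) (.ev
 (nat_lit 1568) (nat_lit 1688849860264960) (.ev (nat_lit 2084) (nat_lit 4398046511104) (.ev (nat_lit 2656)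
 (nat_lit 70368744177664) (.ev (nat_lit 3008) (nat_lit 274877906944) (.ev (nat_lit 3236) (nat_lit 549755813888)
 (.ev (nat_lit 3245) (nat_lit 1099511627776) .dd)))))))))))))))))))) (.br (nat_lit 16) (.ch (nat_lit 15) (.ev
 (nat_lit 52) (nat_lit 360708554523200) (.ev (nat_lit 212) (nat_lit 549755813888) (.ev (nat_lit 340) (nat_lit
 274877906944) (.ev (nat_lit 404) (nat_lit 536870912) (.ev (nat_lit 660) (nat_lit 268435456) (.ev (nat_lit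
 1012) (nat_lit 1099511627776) (.ev (nat_lit 1236) (nat_lit 1125899906842624) (.nd (nat_lit 1552) (.br (nat_lit
 5) (.br (nat_lit 2) (.ch (nat_lit 1) (.ev (nat_lit 1568) (nat_lit 5070947627302912) (.ev (nat_lit 1588)
 (nat_lit 17592186044416) (.nd (nat_lit 2128) (.br (nat_lit 6) (.br (nat_lit 1) (.ch (nat_lit 0) (.ev (nat_lit
 2144) (nat_lit 2162688) (.ev (nat_lit 2480) (nat_lit 4096) (.ev (nat_lit 2493) (nat_lit 1024) .dd)))) (.br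
 (nat_lit 3) (.ch (nat_lit 1) (.ev (nat_lit 2144) (nat_lit 66560) (.ev (nat_lit 2256) (nat_lit 4096) (.ev
 (nat_lit 2269) (nat_lit 2097152) .dd)))) (.ch (nat_lit 3) (.ev (nat_lit 2144) (nat_lit 4096) (.ev (nat_lit
 2244) (nat_lit 2162688) (.ev (nat_lit 2253) (nat_lit 1024) .dd)))))) (.br (nat_lit 10) (.ch (nat_lit 6) (.ev
 (nat_lit 2144) (nat_lit 2167808) .dd)) (.br (nat_lit 12) (.ch (nat_lit 10) (.ev (nat_lit 2144) (nat_lit
 2167808) .dd)) (.ch (nat_lit 12) (.ev (nat_lit 2144) (nat_lit 2167808) .dd))))))))) (.br (nat_lit 4) (.ch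
 (nat_lit 2) (.ev (nat_lit 1568) (nat_lit 567348002029568) (.ev (nat_lit 2176) (nat_lit 1024) (.ev (nat_lit
 2244) (nat_lit 65536) (.ev (nat_lit 2656) (nat_lit 4096) (.ev (nat_lit 3056) (nat_lit 4503599627370496) (.ev
 (nat_lit 3069) (nat_lit 17592186044416) .dd))))))) (.ch (nat_lit 4) (.ev (nat_lit 1568) (nat_lit
 5084141768934400) (.ev (nat_lit 1588) (nat_lit 65536) (.ev (nat_lit 3600) (nat_lit 4398046515200) .dd))))))
 (.br (nat_lit 9) (.ch (nat_lit 5) (.ev (nat_lit 1568) (nat_lit 5084141766905856) (.ev (nat_lit 1588) (nat_lit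
 4398046511104) (.nd (nat_lit 2128) (.br (nat_lit 4) (.br (nat_lit 2) (.ch (nat_lit 0) (.ev (nat_lit 2144)
 (nat_lit 2097152) (.ev (nat_lit 2157) (nat_lit 1024) .dd))) (.br (nat_lit 3) (.ch (nat_lit 2) (.ev (nat_lit
 2144) (nat_lit 2097152) (.ev (nat_lit 2157) (nat_lit 1024) .dd))) (.ch (nat_lit 3) (.ev (nat_lit 2144)
 (nat_lit 2097152) (.ev (nat_lit 2157) (nat_lit 1024) .dd))))) (.br (nat_lit 10) (.ch (nat_lit 4) (.ev (nat_lit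
 2144) (nat_lit 1024) (.ev (nat_lit 2157) (nat_lit 2097152) .dd))) (.br (nat_lit 11) (.ch (nat_lit 10) (.ev
 (nat_lit 2496) (nat_lit 2097152) (.ev (nat_lit 2509) (nat_lit 1024) .dd))) (.ch (nat_lit 11) (.ev (nat_lit
 2144) (nat_lit 2097152) (.ev (nat_lit 2157) (nat_lit 1024) .dd)))))))))) (.br (nat_lit 12) (.ch (nat_lit 9)
 (.ev (nat_lit 1568) (nat_lit 4521191813485568) (.nd (nat_lit 2128) (.br (nat_lit 8) (.br (nat_lit 5) (.ch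
 (nat_lit 3) (.ev (nat_lit 2144) (nat_lit 567348002029568) .dd)) (.ch (nat_lit 5) (.ev (nat_lit 2144) (nat_lit
 567347999932416) (.ev (nat_lit 2157) (nat_lit 2097152) .dd)))) (.br (nat_lit 9) (.ch (nat_lit 8) (.ev (nat_lit
 2144) (nat_lit 562949953421312) (.ev (nat_lit 2560) (nat_lit 4398048608256) .dd))) (.br (nat_lit 11) (.ch
 (nat_lit 9) (.ev (nat_lit 2144) (nat_lit 2097152) (.ev (nat_lit 3236) (nat_lit 4398046511104) (.ev (nat_lit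
 3245) (nat_lit 562949953421312) .dd)))) (.ch (nat_lit 11) (.ev (nat_lit 2144) (nat_lit 4398046511104) (.ev
 (nat_lit 3536) (nat_lit 562949955518464) .dd))))))))) (.ch (nat_lit 12) (.ev (nat_lit 1568) (nat_lit 2167808)
 (.ev (nat_lit 1588) (nat_lit 4398046511104) (.ev (nat_lit 2948) (nat_lit 4503599627370496) (.ev (nat_lit 3088)
 (nat_lit 17592186044416) (.ev (nat_lit 3101) (nat_lit 562949953421312) .dd)))))))))))))))))) (.br (nat_lit 18)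
 (.ch (nat_lit 16) (.ev (nat_lit 52) (nat_lit 6202345098773504) (.ev (nat_lit 948) (nat_lit 281474976710656)
 (.ev (nat_lit 1108) (nat_lit 32768) (.nd (nat_lit 1552) (.br (nat_lit 6) (.br (nat_lit 5) (.ch (nat_lit 2)
 (.ev (nat_lit 1568) (nat_lit 92978274107392) (.ev (nat_lit 2432) (nat_lit 4096) (.ev (nat_lit 2960) (nat_lit
 512) (.ev (nat_lit 2976) (nat_lit 274877906944) (.ev (nat_lit 2989) (nat_lit 64) .dd)))))) (.ch (nat_lit 5)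
 (.ev (nat_lit 1568) (nat_lit 92977452028416) (.ev (nat_lit 1828) (nat_lit 268435456) (.nd (nat_lit 2128) (.br
 (nat_lit 10) (.br (nat_lit 3) (.ch (nat_lit 0) (.ev (nat_lit 2144) (nat_lit 275431555072) (.ev (nat_lit 2157)
 (nat_lit 64) .dd))) (.ch (nat_lit 3) (.ev (nat_lit 2144) (nat_lit 274877907008) (.ev (nat_lit 2256) (nat_lit
 16777216) (.ev (nat_lit 2269) (nat_lit 536870912) .dd))))) (.br (nat_lit 11) (.ch (nat_lit 10) (.ev (nat_lit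
 2144) (nat_lit 16777280) (.ev (nat_lit 3408) (nat_lit 275414777856) .dd))) (.br (nat_lit 12) (.ch (nat_lit 11)
 (.ev (nat_lit 2144) (nat_lit 553648192) (.ev (nat_lit 2157) (nat_lit 274877906944) .dd))) (.ch (nat_lit 12)
 (.ev (nat_lit 2144) (nat_lit 275414777856) (.ev (nat_lit 2644) (nat_lit 64) (.ev (nat_lit 2653) (nat_lit
 16777216) .dd)))))))))))) (.br (nat_lit 9) (.ch (nat_lit 6) (.ev (nat_lit 1568) (nat_lit 75660697534976) (.ev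
 (nat_lit 3184) (nat_lit 17592186044416) (.ev (nat_lit 3236) (nat_lit 4160) (.ev (nat_lit 3245) (nat_lit
 268435456) .dd))))) (.br (nat_lit 12) (.ch (nat_lit 9) (.ev (nat_lit 1568) (nat_lit 75660429103168) (.nd
 (nat_lit 2128) (.br (nat_lit 6) (.br (nat_lit 5) (.ch (nat_lit 0) (.ev (nat_lit 2144) (nat_lit 17592722915328)
 (.ev (nat_lit 2157) (nat_lit 512) .dd))) (.ch (nat_lit 5) (.ev (nat_lit 2144) (nat_lit 512) (.ev (nat_lit
 2244) (nat_lit 17592186044416) (.ev (nat_lit 2253) (nat_lit 536870912) .dd))))) (.br (nat_lit 8) (.ch (nat_lit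
 6) (.ev (nat_lit 2144) (nat_lit 17592186044416) (.ev (nat_lit 3236) (nat_lit 536870912) (.ev (nat_lit 3245)
 (nat_lit 512) .dd)))) (.ch (nat_lit 8) (.ev (nat_lit 2144) (nat_lit 17592186044928) (.ev (nat_lit 2157)
 (nat_lit 536870912) .dd)))))))) (.ch (nat_lit 12) (.ev (nat_lit 1568) (nat_lit 553652288) (.nd (nat_lit 2128)
 (.br (nat_lit 8) (.br (nat_lit 1) (.ch (nat_lit 0) (.ev (nat_lit 2144) (nat_lit 75041668596224) (.ev (nat_lit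
 2244) (nat_lit 17592186044416) (.ev (nat_lit 2468) (nat_lit 268435456) (.ev (nat_lit 2672) (nat_lit
 618475290624) .dd))))) (.br (nat_lit 4) (.ch (nat_lit 1) (.ev (nat_lit 2144) (nat_lit 70368744177664) (.ev
 (nat_lit 2244) (nat_lit 274877906944) (.ev (nat_lit 2272) (nat_lit 4398046511104) (.ev (nat_lit 2468) (nat_lit
 268435456) (.ev (nat_lit 2548) (nat_lit 549755813888) (.ev (nat_lit 2592) (nat_lit 17592186044416) (.ev
 (nat_lit 2948) (nat_lit 512) (.ev (nat_lit 2957) (nat_lit 68719476736) .dd))))))))) (.ch (nat_lit 4) (.ev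
 (nat_lit 2144) (nat_lit 22883854188544) (.ev (nat_lit 2948) (nat_lit 70368744177664) (.ev (nat_lit 2957)
 (nat_lit 512) .dd)))))) (.br (nat_lit 10) (.br (nat_lit 9) (.ch (nat_lit 8) (.ev (nat_lit 2144) (nat_lit
 87961198658048) (.ev (nat_lit 2548) (nat_lit 68719476736) (.ev (nat_lit 2592) (nat_lit 549755813888) (.ev
 (nat_lit 2864) (nat_lit 4398046511104) (.ev (nat_lit 2877) (nat_lit 274877906944) .dd)))))) (.ch (nat_lit 9)
 (.ev (nat_lit 2144) (nat_lit 22265378898432) (.ev (nat_lit 2496) (nat_lit 70437463654400) (.ev (nat_lit 2509)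
 (nat_lit 549755813888) .dd))))) (.br (nat_lit 11) (.ch (nat_lit 10) (.ev (nat_lit 2144) (nat_lit
 93252598366720) .dd)) (.ch (nat_lit 11) (.ev (nat_lit 2144) (nat_lit 75041668596224) (.ev (nat_lit 2244)
 (nat_lit 17592186044416) (.ev (nat_lit 2468) (nat_lit 268435456) (.fin (nat_lit
 576465700110418496)))))))))))))))))))) (.ch (nat_lit 18) (.ev (nat_lit 52) (nat_lit 5726600442187840) (.ev
 (nat_lit 244) (nat_lit 65536) (.ev (nat_lit 308) (nat_lit 4194304) (.ev (nat_lit 372) (nat_lit 549755813888)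
 (.ev (nat_lit 788) (nat_lit 131072) (.ev (nat_lit 884) (nat_lit 562949953421312) (.ev (nat_lit 948) (nat_lit
 1024) (.ev (nat_lit 1172) (nat_lit 536870912) (.nd (nat_lit 1552) (.br (nat_lit 5) (.br (nat_lit 2) (.ch
 (nat_lit 1) (.ev (nat_lit 1568) (nat_lit 286972534849536) (.ev (nat_lit 1581) (nat_lit 512) .dd))) (.br
 (nat_lit 4) (.ch (nat_lit 2) (.ev (nat_lit 1568) (nat_lit 286972534849536) (.ev (nat_lit 1581) (nat_lit 512)
 .dd))) (.ch (nat_lit 4) (.ev (nat_lit 1568) (nat_lit 285873023222272) (.ev (nat_lit 1581) (nat_lit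
 1099511627776) .dd))))) (.br (nat_lit 6) (.ch (nat_lit 5) (.ev (nat_lit 1568) (nat_lit 282574488338432) (.nd
 (nat_lit 2128) (.br (nat_lit 9) (.br (nat_lit 4) (.ch (nat_lit 2) (.ev (nat_lit 2144) (nat_lit 512) (.ev
 (nat_lit 2157) (nat_lit 4398046511104) .dd))) (.ch (nat_lit 4) (.ev (nat_lit 2144) (nat_lit 4398046511616)
 .dd))) (.br (nat_lit 12) (.ch (nat_lit 9) (.ev (nat_lit 2144) (nat_lit 4398046511104) (.ev (nat_lit 2157)
 (nat_lit 512) .dd))) (.ch (nat_lit 12) (.ev (nat_lit 2144) (nat_lit 4398046511616) .dd))))))) (.br (nat_lit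
 10) (.ch (nat_lit 6) (.ev (nat_lit 1568) (nat_lit 5497558139392) (.ev (nat_lit 1581) (nat_lit 281474976710656)
 .dd))) (.ch (nat_lit 10) (.ev (nat_lit 1568) (nat_lit 512) (.ev (nat_lit 2340) (nat_lit 4398046511104) (.ev
 (nat_lit 2948) (nat_lit 281474976710656) (.ev (nat_lit 2957) (nat_lit 1099511627776) .dd))))))))))))))))))))))
 (.br (nat_lit 29) (.br (nat_lit 23) (.br (nat_lit 22) (.ch (nat_lit 19) (.ev (nat_lit 52) (nat_lit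
 590163673841664) (.ev (nat_lit 340) (nat_lit 4398046511104) (.ev (nat_lit 628) (nat_lit 4608) (.ev (nat_lit
 692) (nat_lit 4194304) (.ev (nat_lit 820) (nat_lit 70368744177664) (.nd (nat_lit 1552) (.br (nat_lit 9) (.br
 (nat_lit 4) (.ch (nat_lit 0) (.ev (nat_lit 1568) (nat_lit 4786242835185728) (.ev (nat_lit 3104) (nat_lit
 1125899906842624) (.ev (nat_lit 3312) (nat_lit 16778240) .dd)))) (.br (nat_lit 6) (.ch (nat_lit 4) (.ev
 (nat_lit 1568) (nat_lit 1407443619808320) (.ev (nat_lit 2340) (nat_lit 1099511627776) (.ev (nat_lit 2349)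
 (nat_lit 4503599627370496) .dd)))) (.ch (nat_lit 6) (.ev (nat_lit 1568) (nat_lit 1168231105600) (.ev (nat_lit
 2468) (nat_lit 1125899906842624) (.ev (nat_lit 2560) (nat_lit 16777216) (.ev (nat_lit 2948) (nat_lit
 4503599627370496) (.ev (nat_lit 2957) (nat_lit 281474976710656) .dd)))))))) (.br (nat_lit 10) (.ch (nat_lit 9)
 (.ev (nat_lit 1568) (nat_lit 4786174132486144) (.nd (nat_lit 2128) (.br (nat_lit 10) (.br (nat_lit 9) (.ch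
 (nat_lit 3) (.ev (nat_lit 2144) (nat_lit 1125968626320384) (.ev (nat_lit 2157) (nat_lit 64) .dd))) (.ch
 (nat_lit 9) (.ev (nat_lit 2144) (nat_lit 68719476736) (.ev (nat_lit 2656) (nat_lit 64) (.ev (nat_lit 3072)
 (nat_lit 1125899906842624) (.ev (nat_lit 3085) (nat_lit 1024) .dd)))))) (.br (nat_lit 12) (.ch (nat_lit 10)
 (.ev (nat_lit 2144) (nat_lit 1125899906843648) (.ev (nat_lit 3168) (nat_lit 68719476800) .dd))) (.ch (nat_lit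
 12) (.ev (nat_lit 2144) (nat_lit 68719477824) (.ev (nat_lit 2157) (nat_lit 1125899906842624) .dd)))))))) (.br
 (nat_lit 12) (.ch (nat_lit 10) (.ev (nat_lit 1568) (nat_lit 1125968643097664) (.ev (nat_lit 2560) (nat_lit
 4503599627370496) (.nd (nat_lit 3776) (.br (nat_lit 7) (.ch (nat_lit 6) (.fin (nat_lit 576448107907596860)))
 (.ch (nat_lit 7) (.ev (nat_lit 3792) (nat_lit 282574488338432) .dd))))))) (.ch (nat_lit 12) (.ev (nat_lit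
 1568) (nat_lit 5911043247178816) (.ev (nat_lit 1581) (nat_lit 1099511627776) .dd))))))))))))) (.ch (nat_lit
 22) (.ev (nat_lit 52) (nat_lit 1993964353782272) (.ev (nat_lit 372) (nat_lit 131072) (.ev (nat_lit 852)
 (nat_lit 4194304) (.ev (nat_lit 980) (nat_lit 68719480832) (.nd (nat_lit 1552) (.br (nat_lit 6) (.br (nat_lit
 2) (.ch (nat_lit 1) (.ev (nat_lit 1568) (nat_lit 8796898329664) (.nd (nat_lit 2128) (.br (nat_lit 6) (.br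
 (nat_lit 3) (.ch (nat_lit 2) (.ev (nat_lit 2144) (nat_lit 4574243249520640) (.ev (nat_lit 2157) (nat_lit
 2097152) .dd))) (.ch (nat_lit 3) (.ev (nat_lit 2144) (nat_lit 4574243249520640) (.ev (nat_lit 2157) (nat_lit
 2097152) .dd)))) (.br (nat_lit 8) (.ch (nat_lit 6) (.ev (nat_lit 2144) (nat_lit 4574243249455104) (.ev
 (nat_lit 2256) (nat_lit 2162688) .dd))) (.br (nat_lit 9) (.ch (nat_lit 8) (.ev (nat_lit 2144) (nat_lit
 70368746340352) (.ev (nat_lit 2352) (nat_lit 274877906944) (.ev (nat_lit 2365) (nat_lit 4503599627370496)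
 .dd)))) (.ch (nat_lit 9) (.ev (nat_lit 2144) (nat_lit 2162688) (.ev (nat_lit 2160) (nat_lit 4503874505277440)
 (.ev (nat_lit 2173) (nat_lit 70368744177664) .dd)))))))))) (.br (nat_lit 4) (.ch (nat_lit 2) (.ev (nat_lit
 1568) (nat_lit 79440522575872) (.ev (nat_lit 2644) (nat_lit 64) (.ev (nat_lit 2656) (nat_lit 1024) (.ev
 (nat_lit 2669) (nat_lit 4503599627370496) .dd))))) (.ch (nat_lit 4) (.ev (nat_lit 1568) (nat_lit
 4512395722555456) (.ev (nat_lit 1588) (nat_lit 274877906944) (.ev (nat_lit 2160) (nat_lit 536871936) (.ev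
 (nat_lit 2384) (nat_lit 70368744177664) (.ev (nat_lit 2397) (nat_lit 268435456) .dd)))))))) (.br (nat_lit 9)
 (.ch (nat_lit 6) (.ev (nat_lit 1568) (nat_lit 4583040149947392) (.ev (nat_lit 1581) (nat_lit 64) .dd))) (.br
 (nat_lit 10) (.ch (nat_lit 9) (.ev (nat_lit 1568) (nat_lit 4573968642080832) (.ev (nat_lit 2116) (nat_lit
 1024) (.ev (nat_lit 2752) (nat_lit 8796093087744) (.ev (nat_lit 2912) (nat_lit 536870912) (.ev (nat_lit 2925)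
 (nat_lit 274877906944) .dd)))))) (.ch (nat_lit 10) (.ev (nat_lit 1568) (nat_lit 4583039879414848) (.ev
 (nat_lit 2644) (nat_lit 268435456) (.ev (nat_lit 2653) (nat_lit 2097152) .dd)))))))))))))) (.br (nat_lit 24)
 (.ch (nat_lit 23) (.ev (nat_lit 52) (nat_lit 5924168650592832) (.ev (nat_lit 276) (nat_lit 1024) (.ev (nat_lit
 340) (nat_lit 536870912) (.ev (nat_lit 404) (nat_lit 268435456) (.ev (nat_lit 596) (nat_lit 32768) (.ev
 (nat_lit 724) (nat_lit 549755813888) (.ev (nat_lit 788) (nat_lit 16777216) (.ev (nat_lit 1236) (nat_lit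
 274877906944) (.nd (nat_lit 1552) (.br (nat_lit 6) (.br (nat_lit 4) (.ch (nat_lit 2) (.ev (nat_lit 1568)
 (nat_lit 652079121039360) (.ev (nat_lit 1581) (nat_lit 65536) .dd))) (.br (nat_lit 5) (.ch (nat_lit 4) (.ev
 (nat_lit 1568) (nat_lit 89129167618048) (.ev (nat_lit 1782) (nat_lit 65536) (.ev (nat_lit 1789) (nat_lit
 562949953421312) .dd)))) (.ch (nat_lit 5) (.ev (nat_lit 1568) (nat_lit 650979603185664) (.nd (nat_lit 2128)
 (.br (nat_lit 10) (.br (nat_lit 9) (.ch (nat_lit 3) (.ev (nat_lit 2144) (nat_lit 6291456) (.ev (nat_lit 2157)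
 (nat_lit 1099511627776) .dd))) (.ch (nat_lit 9) (.ev (nat_lit 2144) (nat_lit 6291456) (.ev (nat_lit 2157)
 (nat_lit 1099511627776) .dd)))) (.br (nat_lit 11) (.ch (nat_lit 10) (.ev (nat_lit 2144) (nat_lit
 1099511627776) (.ev (nat_lit 2160) (nat_lit 4194304) (.ev (nat_lit 2173) (nat_lit 2097152) .dd)))) (.br
 (nat_lit 12) (.ch (nat_lit 11) (.ev (nat_lit 2144) (nat_lit 4194304) (.ev (nat_lit 2160) (nat_lit
 1099513724928) .dd))) (.ch (nat_lit 12) (.ev (nat_lit 2144) (nat_lit 1099511627776) (.ev (nat_lit 2688)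
 (nat_lit 6291456) .dd))))))))))) (.br (nat_lit 9) (.ch (nat_lit 6) (.ev (nat_lit 1568) (nat_lit
 564118184591360) (.ev (nat_lit 2416) (nat_lit 70368744177664) (.ev (nat_lit 2948) (nat_lit 2097152) (.ev
 (nat_lit 2960) (nat_lit 17592190238720) .dd))))) (.br (nat_lit 10) (.ch (nat_lit 9) (.ev (nat_lit 1568)
 (nat_lit 89060448141312) (.nd (nat_lit 2128) (.br (nat_lit 9) (.br (nat_lit 6) (.ch (nat_lit 0) (.ev (nat_lit
 2144) (nat_lit 562949953421312) (.ev (nat_lit 2176) (nat_lit 68719542272) .dd))) (.ch (nat_lit 6) (.ev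
 (nat_lit 2144) (nat_lit 68719542272) (.ev (nat_lit 2157) (nat_lit 562949953421312) .dd)))) (.br (nat_lit 10)
 (.ch (nat_lit 9) (.ev (nat_lit 2144) (nat_lit 562949953421312) (.fin (nat_lit 576448107934859836)))) (.br
 (nat_lit 12) (.ch (nat_lit 10) (.ev (nat_lit 2144) (nat_lit 562949953486848) (.ev (nat_lit 2157) (nat_lit
 68719476736) .dd))) (.ch (nat_lit 12) (.ev (nat_lit 2144) (nat_lit 563018672963584) .dd)))))))) (.ch (nat_lit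
 10) (.ev (nat_lit 1568) (nat_lit 87960932384768) (.ev (nat_lit 2948) (nat_lit 562949957615616) (.ev (nat_lit
 2960) (nat_lit 1099511627776) (.ev (nat_lit 2973) (nat_lit 68719476736) .dd)))))))))))))))))) (.br (nat_lit
 26) (.ch (nat_lit 24) (.ev (nat_lit 52) (nat_lit 1508598672852480) (.ev (nat_lit 384) (nat_lit
 5068474554683456) .dd))) (.ch (nat_lit 26) (.ev (nat_lit 52) (nat_lit 5072047680192512) (.ev (nat_lit 64)
 (nat_lit 1505025547343424) .dd)))))) (.br (nat_lit 34) (.br (nat_lit 31) (.ch (nat_lit 29) (.ev (nat_lit 52)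
 (nat_lit 4873654835904576) (.ev (nat_lit 84) (nat_lit 131072) (.ev (nat_lit 372) (nat_lit 4096) (.ev (nat_lit
 820) (nat_lit 2097152) (.ev (nat_lit 852) (nat_lit 1099511627776) (.ev (nat_lit 1216) (nat_lit
 1702318877771264) .dd))))))) (.br (nat_lit 33) (.ch (nat_lit 31) (.ev (nat_lit 52) (nat_lit 1488463868265024)
 (.ev (nat_lit 212) (nat_lit 536870912) (.ev (nat_lit 704) (nat_lit 5088608822400000) .dd)))) (.ch (nat_lit 33)
 (.ev (nat_lit 52) (nat_lit 5098779837468736) (.ev (nat_lit 212) (nat_lit 1125899906842624) (.ev (nat_lit 724)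
 (nat_lit 512) (.ev (nat_lit 1396) (nat_lit 131072) (.ev (nat_lit 1408) (nat_lit 70368744210432) (.nd (nat_lit
 1552) (.br (nat_lit 2) (.br (nat_lit 1) (.ch (nat_lit 0) (.ev (nat_lit 1568) (nat_lit 549760008192) (.ev
 (nat_lit 2244) (nat_lit 281474976710656) (.ev (nat_lit 2272) (nat_lit 2097152) (.ev (nat_lit 2960) (nat_lit
 65536) (.ev (nat_lit 2973) (nat_lit 1024) .dd)))))) (.ch (nat_lit 1) (.ev (nat_lit 1568) (nat_lit
 282024736719872) (.ev (nat_lit 2340) (nat_lit 2097152) (.ev (nat_lit 2349) (nat_lit 65536) .dd))))) (.br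
 (nat_lit 4) (.ch (nat_lit 2) (.ev (nat_lit 1568) (nat_lit 281474978807808) (.ev (nat_lit 2288) (nat_lit
 549760008192) (.ev (nat_lit 3136) (nat_lit 65536) (.ev (nat_lit 3149) (nat_lit 1024) .dd))))) (.br (nat_lit
 10) (.ch (nat_lit 4) (.ev (nat_lit 1568) (nat_lit 281474983067648) (.ev (nat_lit 2548) (nat_lit 549755813888)
 (.ev (nat_lit 2557) (nat_lit 1024) .dd)))) (.ch (nat_lit 10) (.ev (nat_lit 1568) (nat_lit 66560) (.ev (nat_lit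
 3184) (nat_lit 281474976710656) (.ev (nat_lit 3328) (nat_lit 4194304) (.fin (nat_lit
 576456904017396268)))))))))))))))))) (.br (nat_lit 36) (.ch (nat_lit 34) (.ev (nat_lit 52) (nat_lit
 4786174403183616) (.ev (nat_lit 84) (nat_lit 4398046511104) (.ev (nat_lit 212) (nat_lit 274877906944) (.ev
 (nat_lit 276) (nat_lit 70368744177664) (.ev (nat_lit 404) (nat_lit 64) (.ev (nat_lit 660) (nat_lit
 68719476736) (.ev (nat_lit 960) (nat_lit 1715788436279808) .dd)))))))) (.br (nat_lit 38) (.ch (nat_lit 36)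
 (.ev (nat_lit 52) (nat_lit 1763685911533120) (.ev (nat_lit 308) (nat_lit 2162688) (.ev (nat_lit 660) (nat_lit
 9070970929152) (.ev (nat_lit 1472) (nat_lit 16908288) (.nd (nat_lit 1552) (.br (nat_lit 9) (.br (nat_lit 6)
 (.ch (nat_lit 5) (.ev (nat_lit 1568) (nat_lit 4803216545939456) (.nd (nat_lit 2128) (.br (nat_lit 9) (.br
 (nat_lit 3) (.ch (nat_lit 2) (.ev (nat_lit 2144) (nat_lit 1099511627776) (.ev (nat_lit 2157) (nat_lit
 268435456) .dd))) (.ch (nat_lit 3) (.ev (nat_lit 2144) (nat_lit 1099780063232) .dd))) (.br (nat_lit 11) (.ch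
 (nat_lit 9) (.ev (nat_lit 2144) (nat_lit 268435456) (.ev (nat_lit 2157) (nat_lit 1099511627776) .dd))) (.ch
 (nat_lit 11) (.ev (nat_lit 2144) (nat_lit 268435456) (.ev (nat_lit 2157) (nat_lit 1099511627776) .dd))))))))
 (.ch (nat_lit 6) (.ev (nat_lit 1568) (nat_lit 1649267441664) (.ev (nat_lit 2244) (nat_lit 4503599627370496)
 (.ev (nat_lit 2288) (nat_lit 281474976710656) (.ev (nat_lit 2784) (nat_lit 268435456) (.ev (nat_lit 2797)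
 (nat_lit 17592186044416) .dd))))))) (.br (nat_lit 10) (.ch (nat_lit 9) (.ev (nat_lit 1568) (nat_lit
 4505249163247616) (.nd (nat_lit 2128) (.br (nat_lit 8) (.br (nat_lit 6) (.ch (nat_lit 3) (.ev (nat_lit 2144)
 (nat_lit 299067162755072) .dd)) (.ch (nat_lit 6) (.ev (nat_lit 2144) (nat_lit 281474976710656) (.ev (nat_lit
 2157) (nat_lit 17592186044416) .dd)))) (.br (nat_lit 9) (.ch (nat_lit 8) (.ev (nat_lit 2144) (nat_lit
 299067162755072) .dd)) (.br (nat_lit 12) (.ch (nat_lit 9) (.ev (nat_lit 2340) (nat_lit 17592186044416) (.ev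
 (nat_lit 2349) (nat_lit 281474976710656) .dd))) (.ch (nat_lit 12) (.ev (nat_lit 2192) (nat_lit
 299067162755072) .dd)))))))) (.br (nat_lit 12) (.ch (nat_lit 10) (.ev (nat_lit 1568) (nat_lit 17592454479872)
 (.ev (nat_lit 2432) (nat_lit 4503599627370496) (.ev (nat_lit 2948) (nat_lit 549755813888) (.fin (nat_lit
 576474496213926468)))))) (.ch (nat_lit 12) (.ev (nat_lit 1568) (nat_lit 4785074604081152) (.ev (nat_lit 2244)
 (nat_lit 1099511627776) (.ev (nat_lit 2656) (nat_lit 549755813888) (.ev (nat_lit 2948) (nat_lit 268435456)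
 (.ev (nat_lit 2957) (nat_lit 17592186044416) .dd))))))))))))))) (.ch (nat_lit 38) (.ev (nat_lit 52) (nat_lit
 295013518934528) (.ev (nat_lit 84) (nat_lit 549755813888) (.ev (nat_lit 180) (nat_lit 17592186044416) (.ev
 (nat_lit 244) (nat_lit 70368744177664) (.ev (nat_lit 372) (nat_lit 16777216) (.ev (nat_lit 436) (nat_lit 1024)
 (.ev (nat_lit 1172) (nat_lit 4503599627370496) (.nd (nat_lit 1552) (.br (nat_lit 5) (.br (nat_lit 1) (.ch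
 (nat_lit 0) (.ev (nat_lit 1568) (nat_lit 1099511730240) (.ev (nat_lit 2368) (nat_lit 562949953421312) (.ev
 (nat_lit 2548) (nat_lit 4194304) (.ev (nat_lit 2992) (nat_lit 1125899906973696) (.ev (nat_lit 3005) (nat_lit
 2097152) .dd)))))) (.br (nat_lit 2) (.ch (nat_lit 1) (.ev (nat_lit 1568) (nat_lit 1125899913166912) (.nd
 (nat_lit 2128) (.br (nat_lit 6) (.br (nat_lit 3) (.ch (nat_lit 2) (.ev (nat_lit 2144) (nat_lit
 562949953622016) (.ev (nat_lit 2157) (nat_lit 1099511627776) .dd))) (.ch (nat_lit 3) (.ev (nat_lit 2144)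
 (nat_lit 1099511828480) (.ev (nat_lit 2157) (nat_lit 562949953421312) .dd)))) (.br (nat_lit 9) (.ch (nat_lit
 6) (.ev (nat_lit 2144) (nat_lit 564049465049088) (.ev (nat_lit 2160) (nat_lit 65536) (.ev (nat_lit 2832)
 (nat_lit 4096) (.ev (nat_lit 2845) (nat_lit 131072) .dd))))) (.ch (nat_lit 9) (.ev (nat_lit 2144) (nat_lit
 135168) (.ev (nat_lit 3056) (nat_lit 1099511627776) (.ev (nat_lit 3088) (nat_lit 562949953486848) .dd)))))))))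
 (.ch (nat_lit 2) (.ev (nat_lit 1568) (nat_lit 562949959811072) (.ev (nat_lit 1588) (nat_lit 131072) (.ev
 (nat_lit 2192) (nat_lit 1099511627776) (.ev (nat_lit 2480) (nat_lit 1125899906842624) (.ev (nat_lit 2560)
 (nat_lit 4096) (.ev (nat_lit 2573) (nat_lit 64) .dd))))))))) (.br (nat_lit 6) (.ch (nat_lit 5) (.ev (nat_lit
 1568) (nat_lit 1688849864659008) (.nd (nat_lit 2128) (.br (nat_lit 10) (.br (nat_lit 8) (.ch (nat_lit 0) (.ev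
 (nat_lit 2244) (nat_lit 32768) (.ev (nat_lit 3136) (nat_lit 1099513724928) .dd))) (.ch (nat_lit 8) (.ev
 (nat_lit 2144) (nat_lit 1099513757696) .dd))) (.br (nat_lit 12) (.ch (nat_lit 10) (.ev (nat_lit 2144) (nat_lit
 2129920) (.ev (nat_lit 2157) (nat_lit 1099511627776) .dd))) (.ch (nat_lit 12) (.ev (nat_lit 2144) (nat_lit
 1099511627776) (.ev (nat_lit 2244) (nat_lit 32768) (.ev (nat_lit 2253) (nat_lit 2097152) .dd))))))))) (.br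
 (nat_lit 12) (.ch (nat_lit 6) (.ev (nat_lit 1568) (nat_lit 1689949374222336) (.ev (nat_lit 2448) (nat_lit
 4194304) (.ev (nat_lit 2461) (nat_lit 64) .dd)))) (.ch (nat_lit 12) (.ev (nat_lit 1568) (nat_lit
 1689949378383936) (.ev (nat_lit 1581) (nat_lit 32768) .dd)))))))))))))))))))) (.br (nat_lit 54) (.br (nat_lit
 47) (.br (nat_lit 43) (.br (nat_lit 42) (.ch (nat_lit 39) (.ev (nat_lit 52) (nat_lit 4535279327118912) (.ev
 (nat_lit 340) (nat_lit 4096) (.ev (nat_lit 500) (nat_lit 1099511627776) (.nd (nat_lit 1552) (.br (nat_lit 5)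
 (.br (nat_lit 2) (.ch (nat_lit 0) (.ev (nat_lit 1568) (nat_lit 1688849860296704) (.ev (nat_lit 1588) (nat_lit
 70368744177664) (.nd (nat_lit 2128) (.br (nat_lit 7) (.br (nat_lit 5) (.ch (nat_lit 2) (.ev (nat_lit 2144)
 (nat_lit 196608) (.ev (nat_lit 2948) (nat_lit 536870912) (.ev (nat_lit 3248) (nat_lit 2097152) (.ev (nat_lit
 3716) (nat_lit 281474976710656) (.ev (nat_lit 3725) (nat_lit 268435456) .dd)))))) (.ch (nat_lit 5) (.ev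
 (nat_lit 2144) (nat_lit 281475784114176) (.ev (nat_lit 2340) (nat_lit 65536) (.ev (nat_lit 2349) (nat_lit
 131072) .dd))))) (.br (nat_lit 10) (.ch (nat_lit 7) (.ev (nat_lit 2144) (nat_lit 281475782082560) (.ev
 (nat_lit 2948) (nat_lit 131072) (.ev (nat_lit 2957) (nat_lit 2097152) .dd)))) (.br (nat_lit 12) (.ch (nat_lit
 10) (.ev (nat_lit 2144) (nat_lit 281475784310784) .dd)) (.ch (nat_lit 12) (.ev (nat_lit 2144) (nat_lit
 281475782213632) (.ev (nat_lit 2157) (nat_lit 2097152) .dd)))))))))) (.br (nat_lit 4) (.ch (nat_lit 2) (.ev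
 (nat_lit 1568) (nat_lit 914794481942528) (.ev (nat_lit 1581) (nat_lit 1125899906842624) .dd))) (.ch (nat_lit
 4) (.ev (nat_lit 1568) (nat_lit 562950492422144) (.ev (nat_lit 1984) (nat_lit 131072) (.ev (nat_lit 2244)
 (nat_lit 281474976710656) (.ev (nat_lit 2480) (nat_lit 70368744177664) (.ev (nat_lit 2948) (nat_lit
 1125899906842624) (.ev (nat_lit 3120) (nat_lit 65536) (.ev (nat_lit 3133) (nat_lit 268435456) .dd))))))))))
 (.br (nat_lit 10) (.br (nat_lit 6) (.ch (nat_lit 5) (.ev (nat_lit 1568) (nat_lit 1759218604638208) (.ev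
 (nat_lit 1924) (nat_lit 32768) (.nd (nat_lit 2128) (.br (nat_lit 11) (.br (nat_lit 10) (.ch (nat_lit 8) (.ev
 (nat_lit 2144) (nat_lit 281475515678720) (.ev (nat_lit 2157) (nat_lit 268435456) .dd))) (.ch (nat_lit 10) (.ev
 (nat_lit 2144) (nat_lit 805306368) (.ev (nat_lit 2244) (nat_lit 281474976710656) (.ev (nat_lit 2253) (nat_lit
 2097152) .dd))))) (.br (nat_lit 12) (.ch (nat_lit 11) (.ev (nat_lit 2144) (nat_lit 281474976710656) (.ev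
 (nat_lit 2256) (nat_lit 807403520) .dd))) (.ch (nat_lit 12) (.ev (nat_lit 2144) (nat_lit 805306368) (.ev
 (nat_lit 2176) (nat_lit 281474976710656) (.ev (nat_lit 2189) (nat_lit 2097152) .dd)))))))))) (.ch (nat_lit 6)
 (.ev (nat_lit 1568) (nat_lit 633319236763648) (.ev (nat_lit 2468) (nat_lit 1125899906842624) (.ev (nat_lit
 2656) (nat_lit 281474976710656) (.ev (nat_lit 2672) (nat_lit 268435456) (.ev (nat_lit 2685) (nat_lit 32768)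
 .dd))))))) (.br (nat_lit 12) (.ch (nat_lit 10) (.ev (nat_lit 1568) (nat_lit 1196269190021120) (.ev (nat_lit
 2468) (nat_lit 65536) (.ev (nat_lit 3236) (nat_lit 562949953421312) (.ev (nat_lit 3300) (nat_lit 131072) (.ev
 (nat_lit 3684) (nat_lit 268435456) (.ev (nat_lit 3693) (nat_lit 281474976710656) .dd))))))) (.ch (nat_lit 12)
 (.ev (nat_lit 1568) (nat_lit 1407375691153408) (.ev (nat_lit 2272) (nat_lit 562949953421312) (.ev (nat_lit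
 2548) (nat_lit 32768) (.ev (nat_lit 2557) (nat_lit 70368744177664) .dd))))))))))))) (.ch (nat_lit 42) (.ev
 (nat_lit 52) (nat_lit 382630604375104) (.ev (nat_lit 340) (nat_lit 549755813888) (.ev (nat_lit 404) (nat_lit
 4503599627370496) (.ev (nat_lit 564) (nat_lit 562949953421312) (.ev (nat_lit 660) (nat_lit 1125899906842624)
 (.ev (nat_lit 788) (nat_lit 274877906944) (.ev (nat_lit 1012) (nat_lit 2097152) (.ev (nat_lit 1172) (nat_lit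
 131072) (.nd (nat_lit 1552) (.br (nat_lit 9) (.br (nat_lit 5) (.ch (nat_lit 0) (.ev (nat_lit 1568) (nat_lit
 1168231141888) (.ev (nat_lit 1581) (nat_lit 268435456) .dd))) (.ch (nat_lit 5) (.ev (nat_lit 1568) (nat_lit
 68987949056) (.ev (nat_lit 1664) (nat_lit 1099511627776) (.ev (nat_lit 1677) (nat_lit 512) .dd))))) (.br
 (nat_lit 10) (.ch (nat_lit 9) (.ev (nat_lit 1568) (nat_lit 1099780067328) (.nd (nat_lit 2128) (.br (nat_lit 9)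
 (.br (nat_lit 6) (.ch (nat_lit 3) (.ev (nat_lit 2144) (nat_lit 68719476736) (.ev (nat_lit 2244) (nat_lit 512)
 (.ev (nat_lit 2253) (nat_lit 32768) .dd)))) (.ch (nat_lit 6) (.ev (nat_lit 2144) (nat_lit 68719509504) (.ev
 (nat_lit 2157) (nat_lit 512) .dd)))) (.br (nat_lit 12) (.ch (nat_lit 9) (.ev (nat_lit 2144) (nat_lit 512) (.ev
 (nat_lit 3056) (nat_lit 68719509504) .dd))) (.ch (nat_lit 12) (.ev (nat_lit 2144) (nat_lit 68719509504) (.ev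
 (nat_lit 2157) (nat_lit 512) .dd)))))))) (.br (nat_lit 12) (.ch (nat_lit 10) (.ev (nat_lit 1568) (nat_lit
 1099511665152) (.ev (nat_lit 3024) (nat_lit 68719476736) (.ev (nat_lit 3037) (nat_lit 268435456) .dd)))) (.ch
 (nat_lit 12) (.ev (nat_lit 1568) (nat_lit 68987912704) (.ev (nat_lit 1588) (nat_lit 32768) (.ev (nat_lit 2176)
 (nat_lit 1099511627776) (.ev (nat_lit 2189) (nat_lit 4096) .dd))))))))))))))))))) (.br (nat_lit 44) (.ch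
 (nat_lit 43) (.ev (nat_lit 52) (nat_lit 5070947898004480) (.ev (nat_lit 192) (nat_lit 1506125329531456) .dd)))
 (.br (nat_lit 46) (.ch (nat_lit 44) (.ev (nat_lit 52) (nat_lit 863391524782080) (.ev (nat_lit 468) (nat_lit
 32768) (.ev (nat_lit 692) (nat_lit 70368744177664) (.ev (nat_lit 1396) (nat_lit 1125899906842624) (.nd
 (nat_lit 1552) (.br (nat_lit 6) (.br (nat_lit 1) (.ch (nat_lit 0) (.ev (nat_lit 1568) (nat_lit
 4517412246394432) (.ev (nat_lit 2272) (nat_lit 536870912) (.ev (nat_lit 2285) (nat_lit 268435456) .dd)))) (.br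
 (nat_lit 2) (.ch (nat_lit 1) (.ev (nat_lit 1568) (nat_lit 13194949035072) (.nd (nat_lit 2128) (.br (nat_lit 9)
 (.br (nat_lit 8) (.ch (nat_lit 2) (.ev (nat_lit 2144) (nat_lit 4504149383188480) (.ev (nat_lit 2256) (nat_lit
 68719477248) .dd))) (.ch (nat_lit 8) (.ev (nat_lit 2144) (nat_lit 68719480832) (.ev (nat_lit 2176) (nat_lit
 549755813888) (.ev (nat_lit 2948) (nat_lit 512) (.ev (nat_lit 2957) (nat_lit 4503599627370496) .dd)))))) (.br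
 (nat_lit 10) (.ch (nat_lit 9) (.ev (nat_lit 2144) (nat_lit 68719481344) (.ev (nat_lit 2720) (nat_lit
 4503599627370496) (.ev (nat_lit 2733) (nat_lit 549755813888) .dd)))) (.ch (nat_lit 10) (.ev (nat_lit 2144)
 (nat_lit 549755814400) (.ev (nat_lit 2560) (nat_lit 68719476736) (.ev (nat_lit 2576) (nat_lit
 4503599627374592) .dd))))))))) (.ch (nat_lit 2) (.ev (nat_lit 1568) (nat_lit 13194944839744) (.ev (nat_lit
 1604) (nat_lit 512) (.ev (nat_lit 2400) (nat_lit 4096) (.ev (nat_lit 2656) (nat_lit 549755813888) (.ev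
 (nat_lit 2672) (nat_lit 4503668346847232) (.ev (nat_lit 2768) (nat_lit 1024) (.ev (nat_lit 2781) (nat_lit
 4194304) .dd)))))))))) (.br (nat_lit 10) (.br (nat_lit 9) (.ch (nat_lit 6) (.ev (nat_lit 1568) (nat_lit
 4517413051700224) (.ev (nat_lit 2948) (nat_lit 512) (.ev (nat_lit 2957) (nat_lit 64) .dd)))) (.ch (nat_lit 9)
 (.ev (nat_lit 1568) (nat_lit 4503600432681472) (.ev (nat_lit 1984) (nat_lit 8796093022208) (.ev (nat_lit 2340)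
 (nat_lit 1024) (.ev (nat_lit 2480) (nat_lit 549755813888) (.ev (nat_lit 2548) (nat_lit 64) (.ev (nat_lit 2672)
 (nat_lit 4194304) (.ev (nat_lit 3120) (nat_lit 4398046511104) (.ev (nat_lit 3133) (nat_lit 68719476736)
 .dd)))))))))) (.br (nat_lit 12) (.ch (nat_lit 10) (.ev (nat_lit 1568) (nat_lit 4503599900005952) (.ev (nat_lit
 2244) (nat_lit 536870912) (.ev (nat_lit 2340) (nat_lit 4398046511104) (.ev (nat_lit 2576) (nat_lit
 68719476736) (.ev (nat_lit 3008) (nat_lit 8796093022208) (.ev (nat_lit 3021) (nat_lit 549755813888) .dd)))))))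
 (.ch (nat_lit 12) (.ev (nat_lit 1568) (nat_lit 809502272) (.nd (nat_lit 2128) (.br (nat_lit 10) (.br (nat_lit
 9) (.ch (nat_lit 0) (.ev (nat_lit 2144) (nat_lit 4517412242198528) .dd)) (.ch (nat_lit 9) (.ev (nat_lit 2144)
 (nat_lit 4504218102661120) (.ev (nat_lit 2468) (nat_lit 4398046511104) (.ev (nat_lit 3504) (nat_lit
 8796093026304) .dd))))) (.br (nat_lit 11) (.ch (nat_lit 10) (.ev (nat_lit 2144) (nat_lit 13812614823936) (.ev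
 (nat_lit 2256) (nat_lit 4096) (.ev (nat_lit 2269) (nat_lit 4503599627370496) .dd)))) (.br (nat_lit 12) (.ch
 (nat_lit 11) (.ev (nat_lit 2144) (nat_lit 13194139533312) (.ev (nat_lit 2468) (nat_lit 4503599627370496) (.ev
 (nat_lit 2800) (nat_lit 4096) (.fin (nat_lit 576456904011104832)))))) (.ch (nat_lit 12) (.ev (nat_lit 2144)
 (nat_lit 5016521805824) (.ev (nat_lit 2340) (nat_lit 4503599627370496) (.ev (nat_lit 2349) (nat_lit
 8796093022208) .dd))))))))))))))))))) (.ch (nat_lit 46) (.ev (nat_lit 52) (nat_lit 94008263250944) (.ev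
 (nat_lit 404) (nat_lit 68719476736) (.ev (nat_lit 500) (nat_lit 281474976710656) (.ev (nat_lit 768) (nat_lit
 6201521268097600) .dd)))))))) (.br (nat_lit 50) (.br (nat_lit 48) (.ch (nat_lit 47) (.ev (nat_lit 52) (nat_lit
 1479118040338944) (.ev (nat_lit 116) (nat_lit 17592186044416) (.ev (nat_lit 660) (nat_lit 4503599627370496)
 (.ev (nat_lit 1044) (nat_lit 65536) (.ev (nat_lit 1204) (nat_lit 562949953421312) (.ev (nat_lit 1396) (nat_lit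
 68719476736) (.nd (nat_lit 1552) (.br (nat_lit 4) (.br (nat_lit 1) (.ch (nat_lit 0) (.ev (nat_lit 1568)
 (nat_lit 13744163946496) (.ev (nat_lit 2948) (nat_lit 536870912) (.ev (nat_lit 3008) (nat_lit 1024) (.ev
 (nat_lit 3021) (nat_lit 64) .dd))))) (.br (nat_lit 2) (.ch (nat_lit 1) (.ev (nat_lit 1568) (nat_lit
 13194944872512) (.nd (nat_lit 2128) (.br (nat_lit 9) (.br (nat_lit 3) (.ch (nat_lit 0) (.ev (nat_lit 2144)
 (nat_lit 549755944960) (.ev (nat_lit 2157) (nat_lit 1024) .dd))) (.br (nat_lit 6) (.ch (nat_lit 3) (.ev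
 (nat_lit 2144) (nat_lit 549755944960) (.ev (nat_lit 2157) (nat_lit 1024) .dd))) (.ch (nat_lit 6) (.ev (nat_lit
 2144) (nat_lit 549755814912) (.ev (nat_lit 2157) (nat_lit 131072) .dd))))) (.br (nat_lit 10) (.ch (nat_lit 9)
 (.ev (nat_lit 2144) (nat_lit 549755945984) .dd)) (.br (nat_lit 12) (.ch (nat_lit 10) (.ev (nat_lit 2144)
 (nat_lit 132096) (.ev (nat_lit 2157) (nat_lit 549755813888) .dd))) (.ch (nat_lit 12) (.ev (nat_lit 2244)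
 (nat_lit 131072) (.ev (nat_lit 2340) (nat_lit 1024) (.ev (nat_lit 2349) (nat_lit 549755813888) .dd))))))))))
 (.ch (nat_lit 2) (.ev (nat_lit 1568) (nat_lit 13744700817408) (.ev (nat_lit 2352) (nat_lit 64) (.ev (nat_lit
 2365) (nat_lit 1024) .dd)))))) (.br (nat_lit 10) (.ch (nat_lit 4) (.ev (nat_lit 1568) (nat_lit 8796629926976)
 (.ev (nat_lit 1588) (nat_lit 4398046511104) (.ev (nat_lit 3056) (nat_lit 549755813888) (.ev (nat_lit 3184)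
 (nat_lit 131072) (.ev (nat_lit 3197) (nat_lit 268435456) .dd)))))) (.br (nat_lit 12) (.ch (nat_lit 10) (.ev
 (nat_lit 1568) (nat_lit 164928) (.ev (nat_lit 1588) (nat_lit 4398046511104) (.ev (nat_lit 2340) (nat_lit
 536870912) (.ev (nat_lit 3236) (nat_lit 8796361457664) (.ev (nat_lit 3245) (nat_lit 549755813888) .dd))))))
 (.ch (nat_lit 12) (.ev (nat_lit 1568) (nat_lit 9346385839168) (.ev (nat_lit 2244) (nat_lit 4398046511104) (.ev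
 (nat_lit 2576) (nat_lit 268435456) (.ev (nat_lit 2589) (nat_lit 32768) .dd)))))))))))))))) (.br (nat_lit 49)
 (.ch (nat_lit 48) (.ev (nat_lit 52) (nat_lit 5370084319035392) (.ev (nat_lit 148) (nat_lit 1099511693312) (.ev
 (nat_lit 244) (nat_lit 2097152) (.ev (nat_lit 640) (nat_lit 1205889394710080) .dd))))) (.ch (nat_lit 49) (.ev
 (nat_lit 52) (nat_lit 1761143571912192) (.ev (nat_lit 148) (nat_lit 17592186044416) (.ev (nat_lit 212)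
 (nat_lit 4398046511104) (.nd (nat_lit 1552) (.br (nat_lit 6) (.br (nat_lit 4) (.ch (nat_lit 1) (.ev (nat_lit
 1568) (nat_lit 290271076089856) (.nd (nat_lit 2128) (.br (nat_lit 9) (.br (nat_lit 8) (.ch (nat_lit 0) (.ev
 (nat_lit 2144) (nat_lit 68719476800) (.ev (nat_lit 2948) (nat_lit 131072) (.ev (nat_lit 2957) (nat_lit
 4503599627370496) .dd)))) (.ch (nat_lit 8) (.ev (nat_lit 2144) (nat_lit 64) (.ev (nat_lit 2948) (nat_lit
 68719607808) (.ev (nat_lit 2957) (nat_lit 4503599627370496) .dd))))) (.br (nat_lit 10) (.ch (nat_lit 9) (.ev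
 (nat_lit 2144) (nat_lit 68719607872) (.ev (nat_lit 2157) (nat_lit 4503599627370496) .dd))) (.br (nat_lit 12)
 (.ch (nat_lit 10) (.ev (nat_lit 2144) (nat_lit 4503668346978368) .dd)) (.ch (nat_lit 12) (.ev (nat_lit 2144)
 (nat_lit 4503668346978304) (.ev (nat_lit 2157) (nat_lit 64) .dd))))))))) (.br (nat_lit 5) (.ch (nat_lit 4)
 (.ev (nat_lit 1568) (nat_lit 290339795697728) (.ev (nat_lit 1581) (nat_lit 4503599627370496) .dd))) (.ch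
 (nat_lit 5) (.ev (nat_lit 1568) (nat_lit 4503668353269760) (.nd (nat_lit 2128) (.br (nat_lit 8) (.br (nat_lit
 4) (.ch (nat_lit 2) (.ev (nat_lit 2144) (nat_lit 290271069798400) (.ev (nat_lit 2157) (nat_lit 64) .dd))) (.ch
 (nat_lit 4) (.ev (nat_lit 2144) (nat_lit 8796093087744) (.ev (nat_lit 2672) (nat_lit 281474976710720) .dd))))
 (.br (nat_lit 12) (.ch (nat_lit 8) (.ev (nat_lit 2144) (nat_lit 8796093022272) (.ev (nat_lit 2244) (nat_lit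
 65536) (.ev (nat_lit 2253) (nat_lit 281474976710656) .dd)))) (.ch (nat_lit 12) (.ev (nat_lit 2144) (nat_lit
 281474976776192) (.ev (nat_lit 2244) (nat_lit 8796093022208) (.ev (nat_lit 2253) (nat_lit 64) .dd)))))))))))
 (.br (nat_lit 9) (.ch (nat_lit 6) (.ev (nat_lit 1568) (nat_lit 4785143327948864) (.ev (nat_lit 2340) (nat_lit
 2097152) (.ev (nat_lit 2349) (nat_lit 8796093022208) .dd)))) (.br (nat_lit 12) (.ch (nat_lit 9) (.ev (nat_lit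
 1568) (nat_lit 4512464442097664) (.nd (nat_lit 2128) (.br (nat_lit 9) (.br (nat_lit 6) (.ch (nat_lit 3) (.ev
 (nat_lit 2144) (nat_lit 4259840) (.ev (nat_lit 2948) (nat_lit 64) (.ev (nat_lit 2957) (nat_lit
 281474976710656) .dd)))) (.ch (nat_lit 6) (.ev (nat_lit 2144) (nat_lit 281474980905024) (.ev (nat_lit 2157)
 (nat_lit 65536) .dd)))) (.br (nat_lit 11) (.ch (nat_lit 9) (.ev (nat_lit 2144) (nat_lit 281474976710720) (.ev
 (nat_lit 2400) (nat_lit 4259840) .dd))) (.br (nat_lit 12) (.ch (nat_lit 11) (.ev (nat_lit 2144) (nat_lit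
 281474980970496) (.ev (nat_lit 2157) (nat_lit 64) .dd))) (.ch (nat_lit 12) (.ev (nat_lit 2144) (nat_lit 64)
 (.ev (nat_lit 2352) (nat_lit 4194304) (.ev (nat_lit 2976) (nat_lit 281474976710656) (.ev (nat_lit 2989)
 (nat_lit 65536) .dd))))))))))) (.ch (nat_lit 12) (.ev (nat_lit 1568) (nat_lit 281474983198784) (.nd (nat_lit
 2128) (.br (nat_lit 9) (.br (nat_lit 4) (.ch (nat_lit 0) (.ev (nat_lit 2144) (nat_lit 4503599627370496) (.ev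
 (nat_lit 2340) (nat_lit 68719476736) (.ev (nat_lit 2349) (nat_lit 8796093022208) .dd)))) (.ch (nat_lit 4) (.ev
 (nat_lit 2144) (nat_lit 68719476736) (.ev (nat_lit 2644) (nat_lit 4503599627370496) (.ev (nat_lit 2653)
 (nat_lit 8796093022208) .dd))))) (.br (nat_lit 10) (.ch (nat_lit 9) (.ev (nat_lit 2144) (nat_lit
 4503668346847232) (.ev (nat_lit 2157) (nat_lit 8796093022208) .dd))) (.br (nat_lit 12) (.ch (nat_lit 10) (.ev
 (nat_lit 2144) (nat_lit 4512464439869440) .dd)) (.ch (nat_lit 12) (.ev (nat_lit 2144) (nat_lit 8864812498944)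
 (.ev (nat_lit 2157) (nat_lit 4503599627370496) .dd))))))))))))))))))) (.br (nat_lit 51) (.ch (nat_lit 50) (.ev
 (nat_lit 52) (nat_lit 4600906945630720) (.ev (nat_lit 84) (nat_lit 64) (.ev (nat_lit 212) (nat_lit 268435456)
 (.ev (nat_lit 276) (nat_lit 4194304) (.ev (nat_lit 404) (nat_lit 1125899906842624) (.ev (nat_lit 692) (nat_lit
 1024) (.nd (nat_lit 1552) (.br (nat_lit 5) (.br (nat_lit 2) (.ch (nat_lit 0) (.ev (nat_lit 1568) (nat_lit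
 287316149010432) (.ev (nat_lit 1581) (nat_lit 562949953421312) .dd))) (.br (nat_lit 4) (.ch (nat_lit 2) (.ev
 (nat_lit 1568) (nat_lit 849166590803968) (.ev (nat_lit 1581) (nat_lit 1099511627776) .dd))) (.ch (nat_lit 4)
 (.ev (nat_lit 1568) (nat_lit 282918102499328) (.ev (nat_lit 1588) (nat_lit 562949953421312) (.ev (nat_lit
 1597) (nat_lit 4398046511104) .dd)))))) (.br (nat_lit 10) (.br (nat_lit 6) (.ch (nat_lit 5) (.ev (nat_lit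
 1568) (nat_lit 567691597316096) (.nd (nat_lit 2128) (.br (nat_lit 4) (.br (nat_lit 3) (.ch (nat_lit 2) (.ev
 (nat_lit 2144) (nat_lit 282574505115648) .dd)) (.ch (nat_lit 3) (.ev (nat_lit 2144) (nat_lit 282574488338432)
 (.ev (nat_lit 2157) (nat_lit 16777216) .dd)))) (.br (nat_lit 9) (.ch (nat_lit 4) (.ev (nat_lit 2144) (nat_lit
 1099528404992) (.ev (nat_lit 2157) (nat_lit 281474976710656) .dd))) (.br (nat_lit 12) (.ch (nat_lit 9) (.ev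
 (nat_lit 2144) (nat_lit 16777216) (.fin (nat_lit 576439311824011851)))) (.ch (nat_lit 12) (.ev (nat_lit 2144)
 (nat_lit 282574488338432) (.ev (nat_lit 2157) (nat_lit 16777216) .dd))))))))) (.ch (nat_lit 6) (.ev (nat_lit
 1568) (nat_lit 564393062432768) (.ev (nat_lit 2468) (nat_lit 16777216) (.ev (nat_lit 2880) (nat_lit
 4398046511104) (.ev (nat_lit 2893) (nat_lit 281474976710656) .dd)))))) (.br (nat_lit 12) (.ch (nat_lit 10)
 (.ev (nat_lit 1568) (nat_lit 844699808038912) (.ev (nat_lit 2468) (nat_lit 1099511627776) (.ev (nat_lit 2644)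
 (nat_lit 68719476736) (.ev (nat_lit 2656) (nat_lit 4398046511104) (.ev (nat_lit 2669) (nat_lit 16777216)
 .dd)))))) (.ch (nat_lit 12) (.ev (nat_lit 1568) (nat_lit 286972551626752) (.ev (nat_lit 2340) (nat_lit
 562949953421312) (.ev (nat_lit 3200) (nat_lit 68719476736) (.ev (nat_lit 3213) (nat_lit 274877906944)
 .dd)))))))))))))))) (.br (nat_lit 53) (.ch (nat_lit 51) (.ev (nat_lit 52) (nat_lit 4798819042661376) (.ev
 (nat_lit 500) (nat_lit 17592186044416) (.ev (nat_lit 756) (nat_lit 32768) (.nd (nat_lit 1552) (.br (nat_lit 6)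
 (.br (nat_lit 2) (.ch (nat_lit 0) (.ev (nat_lit 1568) (nat_lit 634762075046400) (.ev (nat_lit 1588) (nat_lit
 64) (.ev (nat_lit 2468) (nat_lit 131072) (.ev (nat_lit 3040) (nat_lit 16777216) (.ev (nat_lit 3053) (nat_lit
 1125899906842624) .dd)))))) (.br (nat_lit 4) (.ch (nat_lit 2) (.ev (nat_lit 1568) (nat_lit 1760661981888512)
 (.ev (nat_lit 2948) (nat_lit 16908288) (.ev (nat_lit 3104) (nat_lit 512) (.ev (nat_lit 3117) (nat_lit 64)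
 .dd))))) (.ch (nat_lit 4) (.ev (nat_lit 1568) (nat_lit 1168247882304) (.nd (nat_lit 2128) (.br (nat_lit 6)
 (.br (nat_lit 3) (.ch (nat_lit 0) (.ev (nat_lit 2144) (nat_lit 70643622215680) (.ev (nat_lit 2560) (nat_lit
 1125899906842624) (.ev (nat_lit 2800) (nat_lit 562949953421312) (.ev (nat_lit 2813) (nat_lit 268435456)
 .dd))))) (.br (nat_lit 5) (.ch (nat_lit 3) (.ev (nat_lit 2144) (nat_lit 1196543797493760) (.ev (nat_lit 2157)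
 (nat_lit 562949953421312) .dd))) (.ch (nat_lit 5) (.ev (nat_lit 2144) (nat_lit 1759218873008128) (.ev (nat_lit
 2157) (nat_lit 274877906944) .dd))))) (.br (nat_lit 8) (.ch (nat_lit 6) (.ev (nat_lit 2144) (nat_lit
 563225099894784) (.ev (nat_lit 3152) (nat_lit 1196268651020288) .dd))) (.br (nat_lit 11) (.ch (nat_lit 8) (.ev
 (nat_lit 2144) (nat_lit 268566528) (.ev (nat_lit 2160) (nat_lit 1196268651020288) (.ev (nat_lit 2480) (nat_lit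
 274877906944) (.ev (nat_lit 2493) (nat_lit 562949953421312) .dd))))) (.ch (nat_lit 11) (.ev (nat_lit 2144)
 (nat_lit 1689125006606336) (.ev (nat_lit 2176) (nat_lit 70368744177664) (.ev (nat_lit 2189) (nat_lit 131072)
 .dd)))))))))))) (.br (nat_lit 9) (.ch (nat_lit 6) (.ev (nat_lit 1568) (nat_lit 1690292986184256) (.ev (nat_lit
 2468) (nat_lit 70368744177664) (.ev (nat_lit 2477) (nat_lit 268435456) .dd)))) (.br (nat_lit 12) (.ch (nat_lit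
 9) (.ev (nat_lit 1568) (nat_lit 634693355700800) (.nd (nat_lit 2128) (.br (nat_lit 10) (.br (nat_lit 3) (.ch
 (nat_lit 0) (.ev (nat_lit 2144) (nat_lit 1125899906842624) (.ev (nat_lit 2272) (nat_lit 68736253952) .dd)))
 (.br (nat_lit 9) (.ch (nat_lit 3) (.ev (nat_lit 2144) (nat_lit 1125968643096576) .dd)) (.ch (nat_lit 9) (.ev
 (nat_lit 2340) (nat_lit 16777216) (.ev (nat_lit 2644) (nat_lit 1125899906842624) (.ev (nat_lit 2653) (nat_lit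
 68719476736) .dd)))))) (.br (nat_lit 11) (.ch (nat_lit 10) (.ev (nat_lit 2144) (nat_lit 68736253952) (.ev
 (nat_lit 2157) (nat_lit 1125899906842624) .dd))) (.br (nat_lit 12) (.ch (nat_lit 11) (.ev (nat_lit 2144)
 (nat_lit 68719476736) (.ev (nat_lit 2352) (nat_lit 1125899906842624) (.ev (nat_lit 2365) (nat_lit 16777216)
 .dd)))) (.ch (nat_lit 12) (.ev (nat_lit 2144) (nat_lit 1125968643096576) .dd)))))))) (.ch (nat_lit 12) (.ev
 (nat_lit 1568) (nat_lit 1196268936364096) (.nd (nat_lit 2128) (.br (nat_lit 10) (.br (nat_lit 9) (.ch (nat_lit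
 0) (.ev (nat_lit 2144) (nat_lit 563224831328256) (.ev (nat_lit 2192) (nat_lit 512) (.ev (nat_lit 2608)
 (nat_lit 1168231104512) .dd)))) (.ch (nat_lit 9) (.ev (nat_lit 2144) (nat_lit 563293550805504) (.ev (nat_lit
 2157) (nat_lit 1099511627776) .dd)))) (.br (nat_lit 11) (.ch (nat_lit 10) (.ev (nat_lit 2144) (nat_lit
 1443109011456) (.fin (nat_lit 576470098147492391)))) (.ch (nat_lit 11) (.ev (nat_lit 2144) (nat_lit
 562949953421824) (.ev (nat_lit 2352) (nat_lit 68719476736) (.ev (nat_lit 2688) (nat_lit 274877906944) (.ev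
 (nat_lit 2701) (nat_lit 1099511627776) .dd)))))))))))))))))) (.ch (nat_lit 53) (.ev (nat_lit 52) (nat_lit
 4582834006267456) (.ev (nat_lit 276) (nat_lit 65536) (.ev (nat_lit 436) (nat_lit 17592186044416) (.ev (nat_lit
 532) (nat_lit 562949953421312) (.ev (nat_lit 916) (nat_lit 281474976710656) (.ev (nat_lit 1396) (nat_lit
 274877906944) (.nd (nat_lit 1552) (.br (nat_lit 9) (.br (nat_lit 2) (.ch (nat_lit 0) (.ev (nat_lit 1568)
 (nat_lit 1131947225022464) (.ev (nat_lit 1581) (nat_lit 2097152) .dd))) (.br (nat_lit 4) (.ch (nat_lit 2) (.ev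
 (nat_lit 1568) (nat_lit 4398048608256) (.ev (nat_lit 1588) (nat_lit 32768) (.ev (nat_lit 2948) (nat_lit
 4194304) (.ev (nat_lit 3236) (nat_lit 1126449662656512) (.ev (nat_lit 3245) (nat_lit 1099511627776) .dd))))))
 (.ch (nat_lit 4) (.ev (nat_lit 1568) (nat_lit 1649273765888) (.ev (nat_lit 3136) (nat_lit 1125899906842624)
 (.ev (nat_lit 3149) (nat_lit 4398046511104) .dd)))))) (.br (nat_lit 10) (.ch (nat_lit 9) (.ev (nat_lit 1568)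
 (nat_lit 1649267441664) (.nd (nat_lit 2128) (.br (nat_lit 6) (.br (nat_lit 3) (.ch (nat_lit 0) (.ev (nat_lit
 2144) (nat_lit 1130297957580800) (.ev (nat_lit 2157) (nat_lit 2097152) .dd))) (.ch (nat_lit 3) (.ev (nat_lit
 2144) (nat_lit 6324224) (.ev (nat_lit 2160) (nat_lit 4398046511104) (.ev (nat_lit 2173) (nat_lit
 1125899906842624) .dd))))) (.br (nat_lit 8) (.ch (nat_lit 6) (.ev (nat_lit 2144) (nat_lit 4398052835328) (.ev
 (nat_lit 2157) (nat_lit 1125899906842624) .dd))) (.ch (nat_lit 8) (.ev (nat_lit 2144) (nat_lit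
 1125899908939776) (.ev (nat_lit 2832) (nat_lit 4194304) (.fin (nat_lit 576478894232126003)))))))))) (.br
 (nat_lit 12) (.ch (nat_lit 10) (.ev (nat_lit 1568) (nat_lit 1131397469208576) (.fin (nat_lit
 576465700104127060)))) (.ch (nat_lit 12) (.ev (nat_lit 1568) (nat_lit 1130847715459072) (.ev (nat_lit 2948)
 (nat_lit 32768) (.ev (nat_lit 2957) (nat_lit 1099511627776) .dd))))))))))))))))))) (.br (nat_lit 64) (.br
 (nat_lit 57) (.br (nat_lit 55) (.ch (nat_lit 54) (.ev (nat_lit 52) (nat_lit 1205408633160192) (.ev (nat_lit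
 84) (nat_lit 4503599627370496) (.ev (nat_lit 244) (nat_lit 1024) (.ev (nat_lit 308) (nat_lit 17592186044416)
 (.ev (nat_lit 692) (nat_lit 1099511627776) (.ev (nat_lit 1172) (nat_lit 4096) (.nd (nat_lit 1552) (.br
 (nat_lit 4) (.br (nat_lit 2) (.ch (nat_lit 1) (.ev (nat_lit 1568) (nat_lit 844975222816768) (.nd (nat_lit
 2128) (.br (nat_lit 8) (.br (nat_lit 6) (.ch (nat_lit 0) (.ev (nat_lit 2144) (nat_lit 4398046511168) .dd))
 (.ch (nat_lit 6) (.ev (nat_lit 2144) (nat_lit 64) (.ev (nat_lit 2157) (nat_lit 4398046511104) .dd)))) (.br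
 (nat_lit 9) (.ch (nat_lit 8) (.ev (nat_lit 2144) (nat_lit 4398046511104) (.ev (nat_lit 2157) (nat_lit 64)
 .dd))) (.ch (nat_lit 9) (.ev (nat_lit 2144) (nat_lit 4398046511104) (.ev (nat_lit 2157) (nat_lit 64)
 .dd)))))))) (.ch (nat_lit 2) (.ev (nat_lit 1568) (nat_lit 849373269327872) (.ev (nat_lit 1581) (nat_lit 64)
 .dd)))) (.br (nat_lit 9) (.ch (nat_lit 4) (.ev (nat_lit 1568) (nat_lit 550292684864) (.ev (nat_lit 1588)
 (nat_lit 562949953421312) (.ev (nat_lit 2244) (nat_lit 281474976710656) (.ev (nat_lit 2253) (nat_lit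
 4398046511104) .dd))))) (.br (nat_lit 12) (.ch (nat_lit 9) (.ev (nat_lit 1568) (nat_lit 285873023221760) (.nd
 (nat_lit 2128) (.br (nat_lit 10) (.br (nat_lit 3) (.ch (nat_lit 0) (.ev (nat_lit 2144) (nat_lit
 563499709235200) (.ev (nat_lit 2560) (nat_lit 536870976) .dd))) (.ch (nat_lit 3) (.ev (nat_lit 2144) (nat_lit
 563499709235200) (.ev (nat_lit 2208) (nat_lit 64) (.ev (nat_lit 2221) (nat_lit 536870912) .dd))))) (.br
 (nat_lit 12) (.ch (nat_lit 10) (.ev (nat_lit 2144) (nat_lit 563500246106176) .dd)) (.ch (nat_lit 12) (.ev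
 (nat_lit 2144) (nat_lit 536870912) (.ev (nat_lit 2560) (nat_lit 64) (.ev (nat_lit 2704) (nat_lit
 562949953421312) (.ev (nat_lit 2717) (nat_lit 549755813888) .dd)))))))))) (.ch (nat_lit 12) (.ev (nat_lit
 1568) (nat_lit 844424930132032) (.nd (nat_lit 2128) (.br (nat_lit 11) (.br (nat_lit 8) (.ch (nat_lit 4) (.ev
 (nat_lit 2144) (nat_lit 4948339195904) .dd)) (.ch (nat_lit 8) (.ev (nat_lit 2144) (nat_lit 536870912) (.ev
 (nat_lit 2244) (nat_lit 4398046511104) (.ev (nat_lit 2253) (nat_lit 549755813888) .dd))))) (.br (nat_lit 12)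
 (.ch (nat_lit 11) (.ev (nat_lit 2144) (nat_lit 549755813888) (.ev (nat_lit 2244) (nat_lit 4398046511104) (.ev
 (nat_lit 2253) (nat_lit 536870912) .dd)))) (.ch (nat_lit 12) (.ev (nat_lit 2144) (nat_lit 4947802324992) (.ev
 (nat_lit 2157) (nat_lit 536870912) .dd))))))))))))))))))) (.ch (nat_lit 55) (.ev (nat_lit 52) (nat_lit
 650980140062208) (.ev (nat_lit 148) (nat_lit 2097152) (.ev (nat_lit 404) (nat_lit 16777216) (.ev (nat_lit 628)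
 (nat_lit 274877906944) (.ev (nat_lit 916) (nat_lit 1099511627776) (.nd (nat_lit 1552) (.br (nat_lit 6) (.br
 (nat_lit 1) (.ch (nat_lit 0) (.ev (nat_lit 1568) (nat_lit 5643243698159680) (.ev (nat_lit 2548) (nat_lit
 281474976710656) (.ev (nat_lit 2557) (nat_lit 4194304) .dd)))) (.br (nat_lit 5) (.ch (nat_lit 1) (.ev (nat_lit
 1568) (nat_lit 5920320632553472) (.ev (nat_lit 1814) (nat_lit 4398046511104) (.ev (nat_lit 1821) (nat_lit 64)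
 .dd)))) (.ch (nat_lit 5) (.ev (nat_lit 1568) (nat_lit 4508547429859328) (.ev (nat_lit 1952) (nat_lit
 8796093022208) (.ev (nat_lit 2160) (nat_lit 1125899906842624) (.ev (nat_lit 2244) (nat_lit 272629760) (.ev
 (nat_lit 2340) (nat_lit 281474976710656) (.ev (nat_lit 2349) (nat_lit 64) .dd))))))))) (.br (nat_lit 9) (.ch
 (nat_lit 6) (.ev (nat_lit 1568) (nat_lit 4785624360058944) (.ev (nat_lit 1588) (nat_lit 4194304) (.ev (nat_lit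
 2244) (nat_lit 1125899906842624) (.ev (nat_lit 2512) (nat_lit 268435456) (.ev (nat_lit 2644) (nat_lit
 4398046511104) (.ev (nat_lit 2653) (nat_lit 8796093022208) .dd))))))) (.br (nat_lit 10) (.ch (nat_lit 9) (.ev
 (nat_lit 1568) (nat_lit 4512945748967424) (.ev (nat_lit 2976) (nat_lit 281474976710656) (.ev (nat_lit 3236)
 (nat_lit 1125899906842624) (.ev (nat_lit 3264) (nat_lit 64) (.fin (nat_lit 576478894232126003))))))) (.ch
 (nat_lit 10) (.ev (nat_lit 1568) (nat_lit 1411772934291520) (.ev (nat_lit 1588) (nat_lit 268435456) (.ev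
 (nat_lit 2976) (nat_lit 4503599627370496) (.ev (nat_lit 3024) (nat_lit 131072) (.ev (nat_lit 3236) (nat_lit
 549755813888) (.ev (nat_lit 3245) (nat_lit 8796093022208) .dd)))))))))))))))))) (.br (nat_lit 58) (.ch
 (nat_lit 57) (.ev (nat_lit 52) (nat_lit 1412666306396736) (.ev (nat_lit 276) (nat_lit 1099511627776) (.ev
 (nat_lit 372) (nat_lit 8796093022208) (.ev (nat_lit 724) (nat_lit 4503599627370496) (.ev (nat_lit 788)
 (nat_lit 805306368) (.nd (nat_lit 1552) (.br (nat_lit 6) (.br (nat_lit 1) (.ch (nat_lit 0) (.ev (nat_lit 1568)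
 (nat_lit 650910883812352) .dd)) (.br (nat_lit 5) (.ch (nat_lit 1) (.ev (nat_lit 1568) (nat_lit 163840) (.nd
 (nat_lit 2128) (.br (nat_lit 8) (.br (nat_lit 2) (.ch (nat_lit 1) (.ev (nat_lit 2144) (nat_lit
 580542139469824) (.ev (nat_lit 2256) (nat_lit 1024) (.ev (nat_lit 2269) (nat_lit 70368744177664) .dd)))) (.br
 (nat_lit 3) (.ch (nat_lit 2) (.ev (nat_lit 2144) (nat_lit 650910883647488) (.ev (nat_lit 2157) (nat_lit 1024)
 .dd))) (.ch (nat_lit 3) (.ev (nat_lit 2144) (nat_lit 70368744181760) (.ev (nat_lit 3040) (nat_lit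
 562949953421312) (.fin (nat_lit 576456903989084715))))))) (.br (nat_lit 9) (.ch (nat_lit 8) (.ev (nat_lit
 2144) (nat_lit 580542139466752) (.ev (nat_lit 2176) (nat_lit 70368744177664) (.ev (nat_lit 2189) (nat_lit
 4096) .dd)))) (.br (nat_lit 10) (.ch (nat_lit 9) (.ev (nat_lit 2144) (nat_lit 17592186049536) (.ev (nat_lit
 2160) (nat_lit 70368744177664) (.ev (nat_lit 2173) (nat_lit 562949953421312) .dd)))) (.ch (nat_lit 10) (.ev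
 (nat_lit 2144) (nat_lit 87960930227200) (.ev (nat_lit 2157) (nat_lit 562949953421312) .dd))))))))) (.ch
 (nat_lit 5) (.ev (nat_lit 1568) (nat_lit 650910883778560) (.ev (nat_lit 1846) (nat_lit 32768) (.ev (nat_lit
 1853) (nat_lit 1024) .dd)))))) (.br (nat_lit 10) (.ch (nat_lit 6) (.ev (nat_lit 1568) (nat_lit
 562949953590272) (.ev (nat_lit 2468) (nat_lit 70368744177664) (.ev (nat_lit 2477) (nat_lit 17592186044416)
 .dd)))) (.br (nat_lit 12) (.ch (nat_lit 10) (.ev (nat_lit 1568) (nat_lit 650910883677184) (.ev (nat_lit 3152)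
 (nat_lit 131072) (.ev (nat_lit 3165) (nat_lit 4096) .dd)))) (.ch (nat_lit 12) (.ev (nat_lit 1568) (nat_lit
 650910883812352) .dd)))))))))))) (.br (nat_lit 62) (.ch (nat_lit 58) (.ev (nat_lit 52) (nat_lit
 1206714816888896) (.ev (nat_lit 116) (nat_lit 281474976710656) (.ev (nat_lit 660) (nat_lit 135168) (.ev
 (nat_lit 948) (nat_lit 17592186044416) (.ev (nat_lit 1012) (nat_lit 1024) (.nd (nat_lit 1552) (.br (nat_lit 4)
 (.br (nat_lit 1) (.ch (nat_lit 0) (.ev (nat_lit 1568) (nat_lit 4508272555983360) (.ev (nat_lit 2468) (nat_lit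
 16777216) (.ev (nat_lit 2656) (nat_lit 562949953421312) (.ev (nat_lit 3088) (nat_lit 68721573888) .dd)))))
 (.br (nat_lit 2) (.ch (nat_lit 1) (.ev (nat_lit 1568) (nat_lit 563293573874176) (.nd (nat_lit 2128) (.br
 (nat_lit 8) (.br (nat_lit 6) (.ch (nat_lit 0) (.ev (nat_lit 2144) (nat_lit 4398046511104) (.ev (nat_lit 2157)
 (nat_lit 4503599627370496) .dd))) (.ch (nat_lit 6) (.ev (nat_lit 2144) (nat_lit 4503599627370496) (.ev
 (nat_lit 2157) (nat_lit 4398046511104) .dd)))) (.br (nat_lit 9) (.ch (nat_lit 8) (.ev (nat_lit 2144) (nat_lit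
 4507997673881600) .dd)) (.br (nat_lit 12) (.ch (nat_lit 9) (.ev (nat_lit 3300) (nat_lit 4398046511104) (.ev
 (nat_lit 3309) (nat_lit 4503599627370496) .dd))) (.ch (nat_lit 12) (.ev (nat_lit 2144) (nat_lit 4398046511104)
 (.ev (nat_lit 2157) (nat_lit 4503599627370496) .dd))))))))) (.ch (nat_lit 2) (.ev (nat_lit 1568) (nat_lit
 5070947629400064) (.ev (nat_lit 2340) (nat_lit 512) (.ev (nat_lit 2468) (nat_lit 68719476736) (.ev (nat_lit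
 2948) (nat_lit 16777216) (.ev (nat_lit 3136) (nat_lit 274877906944) (.ev (nat_lit 3149) (nat_lit 4194304)
 .dd))))))))) (.br (nat_lit 5) (.ch (nat_lit 4) (.ev (nat_lit 1568) (nat_lit 68742545920) (.ev (nat_lit 2656)
 (nat_lit 4503599627370496) (.ev (nat_lit 2784) (nat_lit 4398046511104) (.ev (nat_lit 3024) (nat_lit
 562949953421312) (.ev (nat_lit 3037) (nat_lit 274877906944) .dd)))))) (.br (nat_lit 9) (.ch (nat_lit 5) (.ev
 (nat_lit 1568) (nat_lit 5071291241463808) (.nd (nat_lit 2128) (.br (nat_lit 10) (.br (nat_lit 4) (.ch (nat_lit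
 3) (.ev (nat_lit 2144) (nat_lit 6291456) (.ev (nat_lit 2157) (nat_lit 512) .dd))) (.br (nat_lit 9) (.ch
 (nat_lit 4) (.ev (nat_lit 2144) (nat_lit 512) (.ev (nat_lit 2160) (nat_lit 4194304) (.ev (nat_lit 2173)
 (nat_lit 2097152) .dd)))) (.ch (nat_lit 9) (.ev (nat_lit 2144) (nat_lit 2097664) (.ev (nat_lit 2157) (nat_lit
 4194304) .dd))))) (.br (nat_lit 11) (.ch (nat_lit 10) (.ev (nat_lit 2144) (nat_lit 6291456) (.ev (nat_lit
 2157) (nat_lit 512) .dd))) (.br (nat_lit 12) (.ch (nat_lit 11) (.ev (nat_lit 2144) (nat_lit 6291968) .dd))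
 (.ch (nat_lit 12) (.ev (nat_lit 2144) (nat_lit 512) (.ev (nat_lit 2976) (nat_lit 4194304) (.ev (nat_lit 2989)
 (nat_lit 2097152) .dd)))))))))) (.ch (nat_lit 9) (.ev (nat_lit 1568) (nat_lit 4503599646244864) (.nd (nat_lit
 2128) (.br (nat_lit 10) (.br (nat_lit 5) (.ch (nat_lit 0) (.ev (nat_lit 2144) (nat_lit 567416723603456) (.ev
 (nat_lit 2244) (nat_lit 512) (.ev (nat_lit 2253) (nat_lit 274877906944) .dd)))) (.br (nat_lit 8) (.ch (nat_lit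
 5) (.ev (nat_lit 2144) (nat_lit 562949953421824) (.ev (nat_lit 2468) (nat_lit 4194304) (.ev (nat_lit 3056)
 (nat_lit 274877906944) (.ev (nat_lit 3236) (nat_lit 4398046511104) (.ev (nat_lit 3245) (nat_lit 68719476736)
 .dd)))))) (.ch (nat_lit 8) (.ev (nat_lit 2144) (nat_lit 567691601510912) .dd)))) (.br (nat_lit 11) (.ch
 (nat_lit 10) (.ev (nat_lit 2144) (nat_lit 563224835523072) (.ev (nat_lit 2704) (nat_lit 4466765987840) .dd)))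
 (.br (nat_lit 12) (.ch (nat_lit 11) (.ev (nat_lit 2144) (nat_lit 567691601510912) .dd)) (.ch (nat_lit 12) (.ev
 (nat_lit 2144) (nat_lit 4741643895296) (.ev (nat_lit 2256) (nat_lit 562949957615616) .dd)))))))))))))))))))
 (.ch (nat_lit 62) (.ev (nat_lit 52) (nat_lit 584940727211520) (.ev (nat_lit 212) (nat_lit 4503599627370496)
 (.ev (nat_lit 308) (nat_lit 281474976710656) (.ev (nat_lit 340) (nat_lit 64) (.ev (nat_lit 404) (nat_lit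
 8796093022208) (.ev (nat_lit 1172) (nat_lit 68719476736) (.nd (nat_lit 1552) (.br (nat_lit 6) (.br (nat_lit 2)
 (.ch (nat_lit 1) (.ev (nat_lit 1568) (nat_lit 1196818694144000) (.ev (nat_lit 1972) (nat_lit 1099511627776)
 (.ev (nat_lit 2208) (nat_lit 274877972480) .dd)))) (.br (nat_lit 5) (.ch (nat_lit 2) (.ev (nat_lit 1568)
 (nat_lit 1197368433246208) (.ev (nat_lit 2960) (nat_lit 16777216) (.ev (nat_lit 3216) (nat_lit 549755813888)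
 (.ev (nat_lit 3229) (nat_lit 274877906944) .dd))))) (.ch (nat_lit 5) (.ev (nat_lit 1568) (nat_lit
 1196818694209536) (.nd (nat_lit 2128) (.br (nat_lit 9) (.br (nat_lit 8) (.ch (nat_lit 0) (.ev (nat_lit 2144)
 (nat_lit 274877906944) (.ev (nat_lit 2157) (nat_lit 1099511627776) .dd))) (.ch (nat_lit 8) (.ev (nat_lit 2144)
 (nat_lit 1099511627776) (.ev (nat_lit 2157) (nat_lit 274877906944) .dd)))) (.br (nat_lit 11) (.ch (nat_lit 9)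
 (.ev (nat_lit 2144) (nat_lit 1374389534720) .dd)) (.br (nat_lit 12) (.ch (nat_lit 11) (.ev (nat_lit 2144)
 (nat_lit 274877906944) (.ev (nat_lit 2157) (nat_lit 1099511627776) .dd))) (.ch (nat_lit 12) (.ev (nat_lit
 2144) (nat_lit 274877906944) (.ev (nat_lit 2157) (nat_lit 1099511627776) .dd))))))))))) (.br (nat_lit 9) (.ch
 (nat_lit 6) (.ev (nat_lit 1568) (nat_lit 1924164288512) (.ev (nat_lit 3152) (nat_lit 1125900175278080) (.ev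
 (nat_lit 3165) (nat_lit 70368744177664) .dd)))) (.br (nat_lit 10) (.ch (nat_lit 9) (.ev (nat_lit 1568)
 (nat_lit 72293158027264) (.nd (nat_lit 2128) (.br (nat_lit 6) (.br (nat_lit 3) (.ch (nat_lit 0) (.ev (nat_lit
 2144) (nat_lit 1125899923619840) (.ev (nat_lit 2157) (nat_lit 2097152) .dd))) (.ch (nat_lit 3) (.ev (nat_lit
 2144) (nat_lit 2097152) (.ev (nat_lit 2160) (nat_lit 16777216) (.ev (nat_lit 2173) (nat_lit 1125899906842624)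
 .dd))))) (.br (nat_lit 8) (.ch (nat_lit 6) (.ev (nat_lit 2144) (nat_lit 18874368) (.ev (nat_lit 2157) (nat_lit
 1125899906842624) .dd))) (.br (nat_lit 9) (.ch (nat_lit 8) (.ev (nat_lit 2144) (nat_lit 1125899923619840) (.ev
 (nat_lit 2157) (nat_lit 2097152) .dd))) (.ch (nat_lit 9) (.ev (nat_lit 2144) (nat_lit 2097152) (.ev (nat_lit
 2688) (nat_lit 1125899923619840) .dd))))))))) (.ch (nat_lit 10) (.ev (nat_lit 1568) (nat_lit 1197643325767680)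
 (.ev (nat_lit 2160) (nat_lit 65536) (.ev (nat_lit 2948) (nat_lit 2097152) (.ev (nat_lit 2957) (nat_lit
 549755813888) .dd))))))))))))))))))) (.br (nat_lit 68) (.br (nat_lit 65) (.ch (nat_lit 64) (.ev (nat_lit 52)
 (nat_lit 4580016239219776) (.ev (nat_lit 788) (nat_lit 1125899906842624) (.ev (nat_lit 948) (nat_lit 2097152)
 (.ev (nat_lit 1140) (nat_lit 562949953421312) (.ev (nat_lit 1172) (nat_lit 268435456) (.nd (nat_lit 1552) (.br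
 (nat_lit 5) (.br (nat_lit 2) (.ch (nat_lit 1) (.ev (nat_lit 1568) (nat_lit 290271073960448) (.ev (nat_lit
 1952) (nat_lit 131072) (.ev (nat_lit 2244) (nat_lit 17592186044416) (.ev (nat_lit 2340) (nat_lit 68719476736)
 (.ev (nat_lit 2349) (nat_lit 274877906944) .dd)))))) (.br (nat_lit 4) (.ch (nat_lit 2) (.ev (nat_lit 1568)
 (nat_lit 307863260004352) (.ev (nat_lit 1588) (nat_lit 68719476736) (.ev (nat_lit 3104) (nat_lit 274877906944)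
 (.ev (nat_lit 3552) (nat_lit 131584) .dd))))) (.ch (nat_lit 4) (.ev (nat_lit 1568) (nat_lit 308206857519104)
 (.ev (nat_lit 1581) (nat_lit 512) .dd))))) (.br (nat_lit 10) (.ch (nat_lit 5) (.ev (nat_lit 1568) (nat_lit
 308206857519104) (.ev (nat_lit 1581) (nat_lit 512) .dd))) (.br (nat_lit 12) (.ch (nat_lit 10) (.ev (nat_lit
 1568) (nat_lit 17867063984640) (.ev (nat_lit 1588) (nat_lit 68719476736) (.ev (nat_lit 2656) (nat_lit
 281474976710656) (.ev (nat_lit 2704) (nat_lit 131072) (.ev (nat_lit 3056) (nat_lit 4194304) (.ev (nat_lit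
 3069) (nat_lit 8796093022208) .dd))))))) (.ch (nat_lit 12) (.ev (nat_lit 1568) (nat_lit 290339793534976) (.ev
 (nat_lit 2468) (nat_lit 32768) (.ev (nat_lit 3008) (nat_lit 274877906944) (.ev (nat_lit 3072) (nat_lit
 17592186044416) (.ev (nat_lit 3085) (nat_lit 512) .dd)))))))))))))))) (.br (nat_lit 67) (.ch (nat_lit 65) (.ev
 (nat_lit 52) (nat_lit 4869187260579840) (.ev (nat_lit 84) (nat_lit 274877906944) (.ev (nat_lit 320) (nat_lit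
 1707611089049152) .dd)))) (.ch (nat_lit 67) (.ev (nat_lit 52) (nat_lit 929706069332032) (.ev (nat_lit 372)
 (nat_lit 4503599627370496) (.ev (nat_lit 500) (nat_lit 4194304) (.ev (nat_lit 628) (nat_lit 1125899906842624)
 (.ev (nat_lit 980) (nat_lit 274877906944) (.nd (nat_lit 1552) (.br (nat_lit 5) (.br (nat_lit 2) (.ch (nat_lit
 0) (.ev (nat_lit 1568) (nat_lit 17592188174848) (.ev (nat_lit 1588) (nat_lit 65536) (.ev (nat_lit 3008)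
 (nat_lit 1024) (.ev (nat_lit 3120) (nat_lit 16777216) (.ev (nat_lit 3133) (nat_lit 536870912) .dd)))))) (.br
 (nat_lit 4) (.ch (nat_lit 2) (.ev (nat_lit 1568) (nat_lit 555746816) (.ev (nat_lit 1588) (nat_lit
 17592186044416) (.ev (nat_lit 3376) (nat_lit 98304) .dd)))) (.ch (nat_lit 4) (.ev (nat_lit 1568) (nat_lit
 17592204952576) (.ev (nat_lit 3236) (nat_lit 65536) (.ev (nat_lit 3456) (nat_lit 512) (.ev (nat_lit 3469)
 (nat_lit 536870912) .dd))))))) (.br (nat_lit 6) (.ch (nat_lit 5) (.ev (nat_lit 1568) (nat_lit 17592739726336)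
 (.ev (nat_lit 1588) (nat_lit 65536) (.ev (nat_lit 2070) (nat_lit 2097152) (.ev (nat_lit 2077) (nat_lit 512)
 .dd))))) (.br (nat_lit 9) (.ch (nat_lit 6) (.ev (nat_lit 1568) (nat_lit 536937472) (.ev (nat_lit 1588)
 (nat_lit 16777216) (.ev (nat_lit 2340) (nat_lit 2097152) (.ev (nat_lit 2704) (nat_lit 32768) (.ev (nat_lit
 3120) (nat_lit 17592186044416) (.ev (nat_lit 3133) (nat_lit 512) .dd))))))) (.ch (nat_lit 9) (.ev (nat_lit
 1568) (nat_lit 536936960) (.ev (nat_lit 1952) (nat_lit 32768) (.ev (nat_lit 2160) (nat_lit 2097152) (.ev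
 (nat_lit 2244) (nat_lit 17592186044416) (.ev (nat_lit 2548) (nat_lit 1024) (.ev (nat_lit 2557) (nat_lit
 16777216) .dd))))))))))))))))))) (.br (nat_lit 69) (.ch (nat_lit 68) (.ev (nat_lit 52) (nat_lit
 4575618198963200) (.ev (nat_lit 180) (nat_lit 65536) (.ev (nat_lit 372) (nat_lit 4398046511104) (.ev (nat_lit
 628) (nat_lit 8796093022208) (.ev (nat_lit 1012) (nat_lit 281474976710656) (.ev (nat_lit 1236) (nat_lit
 131072) (.nd (nat_lit 1552) (.br (nat_lit 4) (.br (nat_lit 1) (.ch (nat_lit 0) (.ev (nat_lit 1568) (nat_lit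
 343865823744) (.ev (nat_lit 2340) (nat_lit 64) (.ev (nat_lit 2512) (nat_lit 17592186044416) (.ev (nat_lit
 3072) (nat_lit 562949953421312) (.ev (nat_lit 3085) (nat_lit 1125899906842624) .dd)))))) (.ch (nat_lit 1) (.ev
 (nat_lit 1568) (nat_lit 1125968894758976) (.nd (nat_lit 2128) (.br (nat_lit 8) (.br (nat_lit 6) (.ch (nat_lit
 1) (.ev (nat_lit 2144) (nat_lit 580542139465728) (.ev (nat_lit 2160) (nat_lit 512) (.ev (nat_lit 2173)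
 (nat_lit 274877906944) .dd)))) (.ch (nat_lit 6) (.ev (nat_lit 2144) (nat_lit 580817017373184) .dd))) (.br
 (nat_lit 10) (.ch (nat_lit 8) (.ev (nat_lit 2144) (nat_lit 580542139466240) (.ev (nat_lit 2157) (nat_lit
 274877906944) .dd))) (.br (nat_lit 12) (.ch (nat_lit 10) (.ev (nat_lit 2144) (nat_lit 274877907456) (.ev
 (nat_lit 2256) (nat_lit 562949953421312) (.ev (nat_lit 2269) (nat_lit 17592186044416) .dd)))) (.ch (nat_lit
 12) (.ev (nat_lit 2144) (nat_lit 580817017373184) .dd))))))))) (.br (nat_lit 10) (.ch (nat_lit 4) (.ev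
 (nat_lit 1568) (nat_lit 1706785643692096) (.ev (nat_lit 1588) (nat_lit 268435456) (.ev (nat_lit 2160) (nat_lit
 512) (.ev (nat_lit 2173) (nat_lit 4096) .dd))))) (.br (nat_lit 12) (.ch (nat_lit 10) (.ev (nat_lit 1568)
 (nat_lit 1706716924219968) (.ev (nat_lit 2576) (nat_lit 68719476736) (.ev (nat_lit 2589) (nat_lit 268435456)
 .dd)))) (.ch (nat_lit 12) (.ev (nat_lit 1568) (nat_lit 1126175053189696) (.nd (nat_lit 2128) (.br (nat_lit 9)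
 (.br (nat_lit 8) (.ch (nat_lit 7) (.ev (nat_lit 3104) (nat_lit 580610858942464) .dd)) (.ch (nat_lit 8) (.ev
 (nat_lit 2144) (nat_lit 563018672898048) (.ev (nat_lit 2157) (nat_lit 17592186044416) .dd)))) (.br (nat_lit
 10) (.ch (nat_lit 9) (.ev (nat_lit 2144) (nat_lit 17660905521152) (.ev (nat_lit 2157) (nat_lit
 562949953421312) .dd))) (.ch (nat_lit 10) (.ev (nat_lit 2144) (nat_lit 68719476736) (.ev (nat_lit 2948)
 (nat_lit 17592186044416) (.ev (nat_lit 2957) (nat_lit 562949953421312) .dd)))))))))))))))))))) (.br (nat_lit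
 70) (.ch (nat_lit 69) (.ev (nat_lit 52) (nat_lit 1760868683481152) (.ev (nat_lit 352) (nat_lit
 4816204544054784) .dd))) (.ch (nat_lit 70) (.ev (nat_lit 52) (nat_lit 88304802533440) (.ev (nat_lit 180)
 (nat_lit 1024) (.ev (nat_lit 372) (nat_lit 1125899906842624) (.ev (nat_lit 628) (nat_lit 16777216) (.ev
 (nat_lit 980) (nat_lit 4398583382016) (.ev (nat_lit 1300) (nat_lit 562949953421312) (.ev (nat_lit 1424)
 (nat_lit 4503599627403264) (.nd (nat_lit 1552) (.br (nat_lit 2) (.br (nat_lit 1) (.ch (nat_lit 0) (.ev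
 (nat_lit 1568) (nat_lit 291920337175040) .dd)) (.ch (nat_lit 1) (.ev (nat_lit 1568) (nat_lit 291370581361152)
 (.ev (nat_lit 1581) (nat_lit 549755813888) .dd)))) (.br (nat_lit 5) (.ch (nat_lit 2) (.ev (nat_lit 1568)
 (nat_lit 291370581361152) (.ev (nat_lit 1581) (nat_lit 549755813888) .dd))) (.br (nat_lit 9) (.ch (nat_lit 5)
 (.ev (nat_lit 1568) (nat_lit 549755813888) (.nd (nat_lit 2128) (.br (nat_lit 9) (.br (nat_lit 4) (.ch (nat_lit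
 0) (.ev (nat_lit 2144) (nat_lit 291370581361152) .dd)) (.ch (nat_lit 4) (.ev (nat_lit 2144) (nat_lit
 291370581361152) .dd))) (.br (nat_lit 10) (.ch (nat_lit 9) (.ev (nat_lit 2144) (nat_lit 8796093022208) (.ev
 (nat_lit 2176) (nat_lit 512) (.fin (nat_lit 576483292297511477))))) (.br (nat_lit 11) (.ch (nat_lit 10) (.ev
 (nat_lit 2144) (nat_lit 281474976710656) (.ev (nat_lit 2948) (nat_lit 512) (.ev (nat_lit 3104) (nat_lit
 9895604649984) .dd)))) (.ch (nat_lit 11) (.ev (nat_lit 2144) (nat_lit 290271069733376) (.ev (nat_lit 2157)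
 (nat_lit 1099511627776) .dd))))))))) (.ch (nat_lit 9) (.ev (nat_lit 1568) (nat_lit 1099511628288) (.nd
 (nat_lit 2128) (.br (nat_lit 8) (.br (nat_lit 5) (.ch (nat_lit 3) (.ev (nat_lit 2144) (nat_lit
 281474976710656) (.ev (nat_lit 2244) (nat_lit 8796093022208) (.ev (nat_lit 2253) (nat_lit 549755813888)
 .dd)))) (.ch (nat_lit 5) (.ev (nat_lit 2144) (nat_lit 9345848836096) (.ev (nat_lit 2157) (nat_lit
 281474976710656) .dd)))) (.br (nat_lit 9) (.ch (nat_lit 8) (.ev (nat_lit 2144) (nat_lit 282024732524544) (.ev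
 (nat_lit 2157) (nat_lit 8796093022208) .dd))) (.ch (nat_lit 9) (.ev (nat_lit 2144) (nat_lit 290271069732864)
 (.ev (nat_lit 2157) (nat_lit 549755813888) .dd))))))))))))))))))))))))))))

/-- Subtrie. -/
noncomputable def T4 : Tr := (.ev (nat_lit 20) (nat_lit 5718568836990976) (.nd (nat_lit 33) (.br (nat_lit 39)
 (.br (nat_lit 19) (.br (nat_lit 8) (.br (nat_lit 4) (.br (nat_lit 3) (.ch (nat_lit 1) (.ev (nat_lit 52)
 (nat_lit 286903832154208) (.ev (nat_lit 852) (nat_lit 1024) (.ev (nat_lit 916) (nat_lit 32768) (.ev (nat_lit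
 1012) (nat_lit 536870912) (.ev (nat_lit 1172) (nat_lit 562949953421312) (.ev (nat_lit 1332) (nat_lit 4194304)
 (.nd (nat_lit 1552) (.br (nat_lit 7) (.br (nat_lit 1) (.ch (nat_lit 0) (.ev (nat_lit 1568) (nat_lit
 149535728861200) (.ev (nat_lit 2176) (nat_lit 512) (.ev (nat_lit 2592) (nat_lit 67108864) (.ev (nat_lit 2605)
 (nat_lit 2199023255552) .dd))))) (.br (nat_lit 2) (.ch (nat_lit 1) (.ev (nat_lit 1568) (nat_lit 8796093022720)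
 (.ev (nat_lit 2116) (nat_lit 16) (.ev (nat_lit 2340) (nat_lit 67108864) (.ev (nat_lit 2672) (nat_lit
 140737488355328) (.ev (nat_lit 3072) (nat_lit 2201170739200) .dd)))))) (.ch (nat_lit 2) (.ev (nat_lit 1568)
 (nat_lit 140739702948368) (.ev (nat_lit 2208) (nat_lit 8796093022208) (.ev (nat_lit 2221) (nat_lit
 2199023255552) .dd)))))) (.br (nat_lit 8) (.ch (nat_lit 7) (.ev (nat_lit 1568) (nat_lit 151734819226112) (.ev
 (nat_lit 1581) (nat_lit 16) .dd))) (.br (nat_lit 11) (.ch (nat_lit 8) (.ev (nat_lit 1568) (nat_lit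
 151732671741952) (.ev (nat_lit 2960) (nat_lit 2147483648) (.nd (nat_lit 3904) (.br (nat_lit 12) (.ch (nat_lit
 10) (.ev (nat_lit 3920) (nat_lit 528) .dd)) (.ch (nat_lit 12) (.fin (nat_lit 576443709860037155)))))))) (.ch
 (nat_lit 11) (.ev (nat_lit 1568) (nat_lit 151734819226128) .dd))))))))))))) (.ch (nat_lit 3) (.ev (nat_lit 52)
 (nat_lit 424412046202432) (.ev (nat_lit 756) (nat_lit 68719476736) (.ev (nat_lit 948) (nat_lit 16) (.ev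
 (nat_lit 1108) (nat_lit 8796093022208) (.ev (nat_lit 1204) (nat_lit 67108864) (.nd (nat_lit 1552) (.br
 (nat_lit 7) (.br (nat_lit 1) (.ch (nat_lit 0) (.ev (nat_lit 1568) (nat_lit 567762464276512) (.ev (nat_lit
 1581) (nat_lit 549755813888) .dd))) (.br (nat_lit 3) (.ch (nat_lit 1) (.ev (nat_lit 1568) (nat_lit
 563637148188672) (.ev (nat_lit 2244) (nat_lit 4398046511104) (.ev (nat_lit 2560) (nat_lit 2147483648) (.ev
 (nat_lit 2848) (nat_lit 274877906944) (.ev (nat_lit 2861) (nat_lit 32) .dd)))))) (.ch (nat_lit 3) (.ev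
 (nat_lit 1568) (nat_lit 567760316792864) (.ev (nat_lit 1588) (nat_lit 549755813888) (.ev (nat_lit 1597)
 (nat_lit 2147483648) .dd)))))) (.br (nat_lit 9) (.br (nat_lit 8) (.ch (nat_lit 7) (.ev (nat_lit 1568) (nat_lit
 5087388762112) (.ev (nat_lit 2256) (nat_lit 274877906944) (.fin (nat_lit 576472297193816669))))) (.ch (nat_lit
 8) (.ev (nat_lit 1568) (nat_lit 568312220090368) (.ev (nat_lit 1581) (nat_lit 32) .dd)))) (.br (nat_lit 11)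
 (.ch (nat_lit 9) (.ev (nat_lit 1568) (nat_lit 563226978811936) (.ev (nat_lit 3236) (nat_lit 687194767360) (.ev
 (nat_lit 3245) (nat_lit 4398046511104) .dd)))) (.ch (nat_lit 11) (.ev (nat_lit 1568) (nat_lit 5085241278496)
 (.ev (nat_lit 1796) (nat_lit 274877906944) (.ev (nat_lit 2800) (nat_lit 2147483648) (.ev (nat_lit 2813)
 (nat_lit 562949953421312) .dd)))))))))))))))) (.br (nat_lit 5) (.ch (nat_lit 4) (.ev (nat_lit 52) (nat_lit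
 143417615058464) (.ev (nat_lit 148) (nat_lit 16777216) (.ev (nat_lit 1012) (nat_lit 32768) (.ev (nat_lit 1108)
 (nat_lit 4194304) (.ev (nat_lit 1204) (nat_lit 8796093022208) (.nd (nat_lit 1552) (.br (nat_lit 6) (.br
 (nat_lit 2) (.ch (nat_lit 0) (.ev (nat_lit 1568) (nat_lit 848825661001744) (.ev (nat_lit 2340) (nat_lit
 549755813888) (.ev (nat_lit 2349) (nat_lit 64) .dd)))) (.br (nat_lit 3) (.ch (nat_lit 2) (.ev (nat_lit 1568)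
 (nat_lit 282027416883264) (.ev (nat_lit 3280) (nat_lit 562949953421312) (.fin (nat_lit 576465700116709948)))))
 (.ch (nat_lit 3) (.ev (nat_lit 1568) (nat_lit 567350147420176) (.ev (nat_lit 2256) (nat_lit 536870912) (.ev
 (nat_lit 2624) (nat_lit 281474976710656) (.ev (nat_lit 2992) (nat_lit 549755813888) (.ev (nat_lit 3005)
 (nat_lit 64) .dd)))))))) (.br (nat_lit 8) (.ch (nat_lit 6) (.ev (nat_lit 1568) (nat_lit 285873560096832) (.ev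
 (nat_lit 2816) (nat_lit 2147483648) (.ev (nat_lit 2976) (nat_lit 549755813888) (.ev (nat_lit 2992) (nat_lit
 562949953421312) (.ev (nat_lit 3005) (nat_lit 16) .dd)))))) (.br (nat_lit 9) (.ch (nat_lit 8) (.ev (nat_lit
 1568) (nat_lit 849374879940672) (.ev (nat_lit 2644) (nat_lit 4096) (.ev (nat_lit 2948) (nat_lit 536870912)
 (.ev (nat_lit 2957) (nat_lit 16) .dd))))) (.ch (nat_lit 9) (.ev (nat_lit 1568) (nat_lit 563502393593856) (.ev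
 (nat_lit 1588) (nat_lit 16) (.ev (nat_lit 2468) (nat_lit 4398046511104) (.ev (nat_lit 3072) (nat_lit 64) (.ev
 (nat_lit 3085) (nat_lit 281474976710656) .dd)))))))))))))))) (.br (nat_lit 7) (.ch (nat_lit 5) (.ev (nat_lit
 52) (nat_lit 422694105383952) (.ev (nat_lit 448) (nat_lit 578895040516704) .dd))) (.ch (nat_lit 7) (.ev
 (nat_lit 52) (nat_lit 704443892925488) (.ev (nat_lit 436) (nat_lit 512) (.ev (nat_lit 724) (nat_lit
 274877906944) (.ev (nat_lit 916) (nat_lit 4398046511104) (.ev (nat_lit 1088) (nat_lit 292472328556608)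
 .dd))))))))) (.br (nat_lit 15) (.br (nat_lit 11) (.ch (nat_lit 8) (.ev (nat_lit 52) (nat_lit 9622962344960)
 (.ev (nat_lit 116) (nat_lit 4398046511104) (.ev (nat_lit 244) (nat_lit 512) (.ev (nat_lit 820) (nat_lit 64)
 (.ev (nat_lit 1076) (nat_lit 137438953472) (.ev (nat_lit 1332) (nat_lit 68719476736) (.nd (nat_lit 1552) (.br
 (nat_lit 6) (.br (nat_lit 1) (.ch (nat_lit 0) (.ev (nat_lit 1568) (nat_lit 281475513581616) (.ev (nat_lit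
 2480) (nat_lit 562949953421312) (.ev (nat_lit 3088) (nat_lit 2199023255552) (.ev (nat_lit 3101) (nat_lit
 140737488355328) .dd))))) (.br (nat_lit 3) (.ch (nat_lit 1) (.ev (nat_lit 1568) (nat_lit 987361441742848) (.ev
 (nat_lit 2176) (nat_lit 16) (.ev (nat_lit 2352) (nat_lit 536870912) (.ev (nat_lit 2365) (nat_lit 32) .dd)))))
 (.ch (nat_lit 3) (.ev (nat_lit 1568) (nat_lit 846623953387552) (.ev (nat_lit 1588) (nat_lit 16) (.ev (nat_lit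
 3300) (nat_lit 140737488355328) (.ev (nat_lit 3309) (nat_lit 536870912) .dd))))))) (.br (nat_lit 9) (.ch
 (nat_lit 6) (.ev (nat_lit 1568) (nat_lit 536870960) (.ev (nat_lit 2960) (nat_lit 2199023255552) (.ev (nat_lit
 2976) (nat_lit 422212465065984) (.ev (nat_lit 2989) (nat_lit 562949953421312) .dd))))) (.br (nat_lit 11) (.ch
 (nat_lit 9) (.ev (nat_lit 1568) (nat_lit 987361441742880) (.ev (nat_lit 3236) (nat_lit 536870912) (.ev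
 (nat_lit 3245) (nat_lit 16) .dd)))) (.ch (nat_lit 11) (.ev (nat_lit 1568) (nat_lit 987361978613808)
 .dd))))))))))))) (.br (nat_lit 12) (.ch (nat_lit 11) (.ev (nat_lit 52) (nat_lit 574701000753216) (.ev (nat_lit
 576) (nat_lit 426888145147440) .dd))) (.ch (nat_lit 12) (.ev (nat_lit 52) (nat_lit 281477728207456) (.ev
 (nat_lit 564) (nat_lit 137438953472) (.ev (nat_lit 788) (nat_lit 274877906944) (.ev (nat_lit 1204) (nat_lit
 549755813888) (.ev (nat_lit 1332) (nat_lit 142936511610880) (.nd (nat_lit 1552) (.br (nat_lit 3) (.br (nat_lit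
 1) (.ch (nat_lit 0) (.ev (nat_lit 1568) (nat_lit 4466770186256) (.ev (nat_lit 2656) (nat_lit 8796093022208)
 (.ev (nat_lit 3056) (nat_lit 1024) (.ev (nat_lit 3104) (nat_lit 562949970198528) .dd))))) (.br (nat_lit 2)
 (.ch (nat_lit 1) (.ev (nat_lit 1568) (nat_lit 571814770118656) (.ev (nat_lit 1588) (nat_lit 16) (.ev (nat_lit
 2644) (nat_lit 4398046511104) (.ev (nat_lit 3024) (nat_lit 16777216) (.ev (nat_lit 3037) (nat_lit 1024)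
 .dd)))))) (.ch (nat_lit 2) (.ev (nat_lit 1568) (nat_lit 571814782702592) (.ev (nat_lit 2976) (nat_lit 4194304)
 (.fin (nat_lit 576465700116709948))))))) (.br (nat_lit 6) (.ch (nat_lit 3) (.ev (nat_lit 1568) (nat_lit
 567348020909056) (.ev (nat_lit 2548) (nat_lit 68719476736) (.ev (nat_lit 2992) (nat_lit 8796093022208) (.ev
 (nat_lit 3005) (nat_lit 16) .dd))))) (.br (nat_lit 7) (.ch (nat_lit 6) (.ev (nat_lit 1568) (nat_lit
 13262863209488) (.ev (nat_lit 2256) (nat_lit 562949953421312) (.ev (nat_lit 2269) (nat_lit 16777216) .dd))))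
 (.ch (nat_lit 7) (.ev (nat_lit 1568) (nat_lit 13262875788288) (.ev (nat_lit 1876) (nat_lit 4096) (.ev (nat_lit
 2976) (nat_lit 4194304) (.ev (nat_lit 3024) (nat_lit 562949953421312) (.ev (nat_lit 3037) (nat_lit 16)
 .dd)))))))))))))))))) (.br (nat_lit 16) (.ch (nat_lit 15) (.ev (nat_lit 52) (nat_lit 433276388934240) (.ev
 (nat_lit 404) (nat_lit 4096) (.ev (nat_lit 692) (nat_lit 1024) (.ev (nat_lit 756) (nat_lit 549755813888) (.ev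
 (nat_lit 1248) (nat_lit 567763001147408) .dd)))))) (.br (nat_lit 18) (.ch (nat_lit 16) (.ev (nat_lit 52)
 (nat_lit 571883489592352) (.ev (nat_lit 724) (nat_lit 4096) (.ev (nat_lit 852) (nat_lit 4398046511104) (.ev
 (nat_lit 916) (nat_lit 64) (.ev (nat_lit 1108) (nat_lit 2199023255552) (.nd (nat_lit 1552) (.br (nat_lit 7)
 (.br (nat_lit 2) (.ch (nat_lit 1) (.ev (nat_lit 1568) (nat_lit 282370477425168) (.ev (nat_lit 2244) (nat_lit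
 536870912) (.ev (nat_lit 3184) (nat_lit 67108864) (.ev (nat_lit 3300) (nat_lit 16777216) (.ev (nat_lit 3309)
 (nat_lit 140737488355328) .dd)))))) (.ch (nat_lit 2) (.ev (nat_lit 1568) (nat_lit 141358715142672) (.ev
 (nat_lit 2340) (nat_lit 16777216) (.ev (nat_lit 3236) (nat_lit 274877906944) (.ev (nat_lit 3245) (nat_lit
 281474976710656) .dd)))))) (.br (nat_lit 8) (.ch (nat_lit 7) (.ev (nat_lit 1568) (nat_lit 282095683403776)
 (.ev (nat_lit 2468) (nat_lit 512) (.ev (nat_lit 2548) (nat_lit 140737488355344) (.ev (nat_lit 3494) (nat_lit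
 275414777856) .dd))))) (.br (nat_lit 9) (.ch (nat_lit 8) (.ev (nat_lit 1568) (nat_lit 141012433371648) (.ev
 (nat_lit 2644) (nat_lit 16) (.ev (nat_lit 2784) (nat_lit 2684354560) (.ev (nat_lit 2948) (nat_lit 16777216)
 (.ev (nat_lit 2960) (nat_lit 32768) (.ev (nat_lit 3236) (nat_lit 281474976710656) (.fin (nat_lit
 576465700110418496))))))))) (.ch (nat_lit 9) (.ev (nat_lit 1568) (nat_lit 896054362624) (.ev (nat_lit 1636)
 (nat_lit 67108864) (.ev (nat_lit 2960) (nat_lit 16) (.ev (nat_lit 2976) (nat_lit 281474976710656) (.ev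
 (nat_lit 2989) (nat_lit 140737488355328) .dd)))))))))))))))) (.ch (nat_lit 18) (.ev (nat_lit 52) (nat_lit
 9277213282384) (.ev (nat_lit 436) (nat_lit 4398046511104) (.ev (nat_lit 724) (nat_lit 562949953421312) (.ev
 (nat_lit 916) (nat_lit 512) (.ev (nat_lit 1056) (nat_lit 424963932685344) .dd)))))))))) (.br (nat_lit 29) (.br
 (nat_lit 23) (.br (nat_lit 22) (.ch (nat_lit 19) (.ev (nat_lit 52) (nat_lit 574770240323584) (.ev (nat_lit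
 308) (nat_lit 16777216) (.ev (nat_lit 756) (nat_lit 2147483648) (.ev (nat_lit 788) (nat_lit 32) (.nd (nat_lit
 1552) (.br (nat_lit 6) (.br (nat_lit 1) (.ch (nat_lit 0) (.ev (nat_lit 1568) (nat_lit 426610515776016) (.ev
 (nat_lit 2400) (nat_lit 64) (.ev (nat_lit 2468) (nat_lit 1024) (.ev (nat_lit 2644) (nat_lit 68719476736) (.ev
 (nat_lit 2656) (nat_lit 67108864) (.ev (nat_lit 2669) (nat_lit 137438953472) .dd))))))) (.br (nat_lit 2) (.ch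
 (nat_lit 1) (.ev (nat_lit 1568) (nat_lit 426679235248640) (.ev (nat_lit 2656) (nat_lit 1024) (.ev (nat_lit
 3248) (nat_lit 16) (.ev (nat_lit 3424) (nat_lit 4160) (.fin (nat_lit 576456904017396284))))))) (.ch (nat_lit
 2) (.ev (nat_lit 1568) (nat_lit 426679231055424) (.ev (nat_lit 1984) (nat_lit 4096) (.ev (nat_lit 2480)
 (nat_lit 71303168) (.ev (nat_lit 3120) (nat_lit 16) (.ev (nat_lit 3133) (nat_lit 137438953472) .dd))))))))
 (.br (nat_lit 9) (.br (nat_lit 8) (.ch (nat_lit 6) (.ev (nat_lit 1568) (nat_lit 281543700385808) (.ev (nat_lit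
 2256) (nat_lit 4398046511104) (.ev (nat_lit 2340) (nat_lit 140737488355328) (.ev (nat_lit 2560) (nat_lit
 137438953472) (.ev (nat_lit 2576) (nat_lit 64) (.ev (nat_lit 2948) (nat_lit 67109376) (.ev (nat_lit 2957)
 (nat_lit 1024) .dd)))))))) (.ch (nat_lit 8) (.ev (nat_lit 1568) (nat_lit 145273045128784) (.ev (nat_lit 2256)
 (nat_lit 68719476736) (.ev (nat_lit 2269) (nat_lit 281474976710656) .dd))))) (.br (nat_lit 11) (.ch (nat_lit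
 9) (.ev (nat_lit 1568) (nat_lit 281543696188992) (.ev (nat_lit 1604) (nat_lit 4194304) (.ev (nat_lit 2576)
 (nat_lit 137438953472) (.ev (nat_lit 2848) (nat_lit 4398046511104) (.ev (nat_lit 3008) (nat_lit 4096) (.ev
 (nat_lit 3104) (nat_lit 140737488355328) (.ev (nat_lit 3152) (nat_lit 67108880) .dd)))))))) (.ch (nat_lit 11)
 (.ev (nat_lit 1568) (nat_lit 426816737121360) (.ev (nat_lit 2948) (nat_lit 4194304) (.ev (nat_lit 2957)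
 (nat_lit 512) .dd))))))))))))) (.ch (nat_lit 22) (.ev (nat_lit 52) (nat_lit 992448847315456) (.ev (nat_lit
 116) (nat_lit 64) (.ev (nat_lit 148) (nat_lit 1024) (.ev (nat_lit 1044) (nat_lit 536870912) (.ev (nat_lit
 1076) (nat_lit 8796093022208) (.ev (nat_lit 1488) (nat_lit 68719476768) (.nd (nat_lit 1552) (.br (nat_lit 2)
 (.br (nat_lit 1) (.ch (nat_lit 0) (.ev (nat_lit 1568) (nat_lit 274949214224) .dd)) (.ch (nat_lit 1) (.ev
 (nat_lit 1568) (nat_lit 4198400) (.ev (nat_lit 2192) (nat_lit 274877906944) (.ev (nat_lit 2256) (nat_lit 16)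
 (.ev (nat_lit 2269) (nat_lit 67108864) .dd)))))) (.br (nat_lit 3) (.ch (nat_lit 2) (.ev (nat_lit 1568)
 (nat_lit 16) (.nd (nat_lit 2128) (.br (nat_lit 11) (.br (nat_lit 3) (.ch (nat_lit 0) (.ev (nat_lit 2144)
 (nat_lit 67108864) (.ev (nat_lit 2576) (nat_lit 4194304) (.fin (nat_lit 576472297160262189))))) (.ch (nat_lit
 3) (.ev (nat_lit 2144) (nat_lit 274877906944) (.ev (nat_lit 2960) (nat_lit 71307264) .dd)))) (.br (nat_lit 12)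
 (.ch (nat_lit 11) (.ev (nat_lit 2144) (nat_lit 274949214208) .dd)) (.ch (nat_lit 12) (.ev (nat_lit 2144)
 (nat_lit 71307264) (.ev (nat_lit 2157) (nat_lit 274877906944) .dd)))))))) (.br (nat_lit 6) (.ch (nat_lit 3)
 (.ev (nat_lit 1568) (nat_lit 274949214208) (.ev (nat_lit 1581) (nat_lit 16) .dd))) (.ch (nat_lit 6) (.ev
 (nat_lit 1568) (nat_lit 274949214208) (.ev (nat_lit 1581) (nat_lit 16) .dd))))))))))))))) (.br (nat_lit 24)
 (.ch (nat_lit 23) (.ev (nat_lit 52) (nat_lit 437743066812992) (.ev (nat_lit 512) (nat_lit 563846079087664)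
 .dd))) (.br (nat_lit 26) (.ch (nat_lit 24) (.ev (nat_lit 52) (nat_lit 437674347333152) (.ev (nat_lit 544)
 (nat_lit 563914798567504) .dd))) (.ch (nat_lit 26) (.ev (nat_lit 52) (nat_lit 708225615790096) (.ev (nat_lit
 244) (nat_lit 1024) (.ev (nat_lit 308) (nat_lit 33280) (.ev (nat_lit 660) (nat_lit 4096) (.ev (nat_lit 1332)
 (nat_lit 67108864) (.nd (nat_lit 1552) (.br (nat_lit 6) (.br (nat_lit 2) (.ch (nat_lit 1) (.ev (nat_lit 1568)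
 (nat_lit 293088568279104) (.ev (nat_lit 3056) (nat_lit 32) (.ev (nat_lit 3168) (nat_lit 274877906944) (.ev
 (nat_lit 3181) (nat_lit 16777216) .dd))))) (.br (nat_lit 3) (.ch (nat_lit 2) (.ev (nat_lit 1568) (nat_lit
 293088585056320) (.ev (nat_lit 2256) (nat_lit 32) (.ev (nat_lit 2269) (nat_lit 274877906944) .dd)))) (.ch
 (nat_lit 3) (.ev (nat_lit 1568) (nat_lit 9620743520288) (.ev (nat_lit 1588) (nat_lit 2199023255552) (.ev
 (nat_lit 3136) (nat_lit 68719476800) (.ev (nat_lit 3149) (nat_lit 281474976710656) .dd))))))) (.br (nat_lit 7)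
 (.ch (nat_lit 6) (.ev (nat_lit 1568) (nat_lit 893353197600) (.ev (nat_lit 1588) (nat_lit 2199023255552) (.ev
 (nat_lit 1636) (nat_lit 8796093022208) (.ev (nat_lit 2948) (nat_lit 64) (.ev (nat_lit 3236) (nat_lit 16777216)
 (.ev (nat_lit 3245) (nat_lit 281474976710656) .dd))))))) (.br (nat_lit 8) (.ch (nat_lit 7) (.ev (nat_lit 1568)
 (nat_lit 9139707183200) (.ev (nat_lit 2160) (nat_lit 2199023255552) (.ev (nat_lit 2496) (nat_lit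
 281474976710656) (.ev (nat_lit 2509) (nat_lit 549755813888) .dd))))) (.ch (nat_lit 8) (.ev (nat_lit 1568)
 (nat_lit 293294743486464) (.ev (nat_lit 2340) (nat_lit 68719476736) (.ev (nat_lit 2976) (nat_lit 64) (.ev
 (nat_lit 2989) (nat_lit 32) .dd)))))))))))))))))) (.br (nat_lit 34) (.br (nat_lit 31) (.ch (nat_lit 29) (.ev
 (nat_lit 52) (nat_lit 282094076985424) (.ev (nat_lit 340) (nat_lit 32) (.ev (nat_lit 468) (nat_lit
 137438953472) (.ev (nat_lit 596) (nat_lit 2147483648) (.ev (nat_lit 980) (nat_lit 562949953421312) (.ev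
 (nat_lit 1044) (nat_lit 512) (.nd (nat_lit 1552) (.br (nat_lit 8) (.br (nat_lit 6) (.ch (nat_lit 0) (.ev
 (nat_lit 1568) (nat_lit 154206505799680) (.ev (nat_lit 2244) (nat_lit 1024) (.ev (nat_lit 2253) (nat_lit
 2199023255552) .dd)))) (.br (nat_lit 7) (.ch (nat_lit 6) (.ev (nat_lit 1568) (nat_lit 9070970934272) (.ev
 (nat_lit 2468) (nat_lit 4398046511104) (.ev (nat_lit 3136) (nat_lit 140737488355328) (.ev (nat_lit 3149)
 (nat_lit 2199023255552) .dd))))) (.ch (nat_lit 7) (.ev (nat_lit 1568) (nat_lit 156130651145216) (.ev (nat_lit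
 1910) (nat_lit 274877906944) (.ev (nat_lit 1917) (nat_lit 4096) .dd)))))) (.br (nat_lit 9) (.ch (nat_lit 8)
 (.ev (nat_lit 1568) (nat_lit 147609436029952) (.ev (nat_lit 2480) (nat_lit 8796093022208) (.ev (nat_lit 2493)
 (nat_lit 4096) .dd)))) (.br (nat_lit 11) (.ch (nat_lit 9) (.ev (nat_lit 1568) (nat_lit 6597069766656) (.ev
 (nat_lit 2560) (nat_lit 1024) (.ev (nat_lit 2688) (nat_lit 274877906944) (.ev (nat_lit 2948) (nat_lit 4096)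
 (.ev (nat_lit 3136) (nat_lit 140737488355328) (.ev (nat_lit 3149) (nat_lit 8796093022208) .dd))))))) (.ch
 (nat_lit 11) (.ev (nat_lit 1568) (nat_lit 152007482545152) (.ev (nat_lit 1581) (nat_lit 4398046511104)
 .dd)))))))))))))) (.br (nat_lit 33) (.ch (nat_lit 31) (.ev (nat_lit 52) (nat_lit 291097850937968) (.ev
 (nat_lit 468) (nat_lit 140737488355328) (.ev (nat_lit 564) (nat_lit 68719476736) (.ev (nat_lit 736) (nat_lit
 569685087130624) .dd))))) (.ch (nat_lit 33) (.ev (nat_lit 52) (nat_lit 576488311099504) (.ev (nat_lit 148)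
 (nat_lit 32768) (.ev (nat_lit 468) (nat_lit 4194304) (.ev (nat_lit 948) (nat_lit 1024) (.ev (nat_lit 1344)
 (nat_lit 425100830573056) .dd)))))))) (.br (nat_lit 36) (.ch (nat_lit 34) (.ev (nat_lit 52) (nat_lit
 422212548985872) (.ev (nat_lit 84) (nat_lit 32) (.ev (nat_lit 276) (nat_lit 64) (.ev (nat_lit 1108) (nat_lit
 2147483648) (.ev (nat_lit 1236) (nat_lit 562949953421312) (.ev (nat_lit 1268) (nat_lit 4194304) (.ev (nat_lit
 1364) (nat_lit 8796093022208) (.ev (nat_lit 1440) (nat_lit 549755817984) (.nd (nat_lit 1552) (.br (nat_lit 6)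
 (.br (nat_lit 3) (.ch (nat_lit 0) (.ev (nat_lit 1568) (nat_lit 7009923498496) (.ev (nat_lit 1581) (nat_lit
 68719476736) .dd))) (.ch (nat_lit 3) (.ev (nat_lit 1568) (nat_lit 206158430208) (.ev (nat_lit 2256) (nat_lit
 512) (.ev (nat_lit 2272) (nat_lit 4398046511104) (.ev (nat_lit 2960) (nat_lit 536870912) (.ev (nat_lit 3120)
 (nat_lit 2473901162496) .dd))))))) (.br (nat_lit 8) (.ch (nat_lit 6) (.ev (nat_lit 1568) (nat_lit
 6941204021760) (.ev (nat_lit 1581) (nat_lit 137438953472) .dd))) (.br (nat_lit 11) (.ch (nat_lit 8) (.ev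
 (nat_lit 1568) (nat_lit 7009386627072) (.ev (nat_lit 2592) (nat_lit 512) (.ev (nat_lit 3024) (nat_lit
 536870912) (.ev (nat_lit 3037) (nat_lit 68719476736) .dd))))) (.ch (nat_lit 11) (.ev (nat_lit 1568) (nat_lit
 6940667150336) (.ev (nat_lit 2512) (nat_lit 536870912) (.ev (nat_lit 3072) (nat_lit 512) (.ev (nat_lit 3085)
 (nat_lit 137438953472) .dd)))))))))))))))))) (.br (nat_lit 38) (.ch (nat_lit 36) (.ev (nat_lit 52) (nat_lit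
 708294402414144) (.ev (nat_lit 116) (nat_lit 16) (.ev (nat_lit 468) (nat_lit 2199023255552) (.ev (nat_lit 852)
 (nat_lit 16777216) (.ev (nat_lit 1268) (nat_lit 549755813888) (.nd (nat_lit 1552) (.br (nat_lit 7) (.br
 (nat_lit 1) (.ch (nat_lit 0) (.ev (nat_lit 1568) (nat_lit 281749854617632) (.ev (nat_lit 1581) (nat_lit
 8796093022208) .dd))) (.br (nat_lit 6) (.ch (nat_lit 1) (.ev (nat_lit 1568) (nat_lit 290545947639808) (.ev
 (nat_lit 1581) (nat_lit 32) .dd))) (.ch (nat_lit 6) (.ev (nat_lit 1568) (nat_lit 274877906976) (.ev (nat_lit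
 2192) (nat_lit 281474976710656) (.ev (nat_lit 2205) (nat_lit 8796093022208) .dd)))))) (.br (nat_lit 8) (.ch
 (nat_lit 7) (.ev (nat_lit 1568) (nat_lit 8796093022208) (.ev (nat_lit 1744) (nat_lit 281474976710656) (.ev
 (nat_lit 2948) (nat_lit 274877906944) (.ev (nat_lit 2957) (nat_lit 32) .dd))))) (.br (nat_lit 11) (.ch
 (nat_lit 8) (.ev (nat_lit 1568) (nat_lit 281749854617632) (.ev (nat_lit 1581) (nat_lit 8796093022208) .dd)))
 (.ch (nat_lit 11) (.ev (nat_lit 1568) (nat_lit 290271069732896) (.ev (nat_lit 1581) (nat_lit 274877906944)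
 .dd))))))))))))) (.ch (nat_lit 38) (.ev (nat_lit 52) (nat_lit 297214488347152) (.ev (nat_lit 116) (nat_lit
 1024) (.ev (nat_lit 148) (nat_lit 64) (.ev (nat_lit 1044) (nat_lit 16777216) (.ev (nat_lit 1076) (nat_lit
 140737488355328) (.ev (nat_lit 1504) (nat_lit 137438957568) (.nd (nat_lit 1552) (.br (nat_lit 7) (.br (nat_lit
 6) (.ch (nat_lit 3) (.ev (nat_lit 1568) (nat_lit 563499713429536) (.ev (nat_lit 1581) (nat_lit 32768) .dd)))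
 (.ch (nat_lit 6) (.ev (nat_lit 1568) (nat_lit 563499713429536) (.ev (nat_lit 1581) (nat_lit 32768) .dd))))
 (.br (nat_lit 8) (.ch (nat_lit 7) (.ev (nat_lit 1568) (nat_lit 32768) (.ev (nat_lit 2960) (nat_lit
 549760008192) (.fin (nat_lit 576472297193816669))))) (.br (nat_lit 9) (.ch (nat_lit 8) (.ev (nat_lit 1568)
 (nat_lit 4194336) (.ev (nat_lit 2192) (nat_lit 562949953421312) (.ev (nat_lit 2256) (nat_lit 32768) (.ev
 (nat_lit 2269) (nat_lit 549755813888) .dd))))) (.ch (nat_lit 9) (.ev (nat_lit 1568) (nat_lit 563499713462304)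
 .dd)))))))))))))))))) (.br (nat_lit 54) (.br (nat_lit 47) (.br (nat_lit 43) (.br (nat_lit 42) (.ch (nat_lit
 39) (.ev (nat_lit 52) (nat_lit 14227100141168) (.ev (nat_lit 116) (nat_lit 32768) (.ev (nat_lit 596) (nat_lit
 281474976710656) (.ev (nat_lit 852) (nat_lit 536870912) (.ev (nat_lit 1300) (nat_lit 67108864) (.nd (nat_lit
 1552) (.br (nat_lit 8) (.br (nat_lit 2) (.ch (nat_lit 1) (.ev (nat_lit 1568) (nat_lit 565148976680960) (.ev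
 (nat_lit 1581) (nat_lit 140737488355328) .dd))) (.br (nat_lit 3) (.ch (nat_lit 2) (.ev (nat_lit 1568) (nat_lit
 140737488355328) (.ev (nat_lit 1744) (nat_lit 2199023255552) (.ev (nat_lit 2948) (nat_lit 562949953421312)
 (.ev (nat_lit 2957) (nat_lit 4096) .dd))))) (.ch (nat_lit 3) (.ev (nat_lit 1568) (nat_lit 562949953425408)
 (.ev (nat_lit 2192) (nat_lit 2199023255552) (.ev (nat_lit 2205) (nat_lit 140737488355328) .dd)))))) (.br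
 (nat_lit 9) (.ch (nat_lit 8) (.ev (nat_lit 1568) (nat_lit 705886465032192) (.ev (nat_lit 1581) (nat_lit 4096)
 .dd))) (.br (nat_lit 11) (.ch (nat_lit 9) (.ev (nat_lit 1568) (nat_lit 565148976680960) (.ev (nat_lit 1581)
 (nat_lit 140737488355328) .dd))) (.ch (nat_lit 11) (.ev (nat_lit 1568) (nat_lit 142936511614976) (.ev (nat_lit
 1581) (nat_lit 562949953421312) .dd))))))))))))) (.ch (nat_lit 42) (.ev (nat_lit 52) (nat_lit 296868697343088)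
 (.ev (nat_lit 884) (nat_lit 137438953472) (.ev (nat_lit 948) (nat_lit 32768) (.ev (nat_lit 1108) (nat_lit
 140737488355328) (.ev (nat_lit 1140) (nat_lit 549755813888) (.nd (nat_lit 1552) (.br (nat_lit 6) (.br (nat_lit
 1) (.ch (nat_lit 0) (.ev (nat_lit 1568) (nat_lit 563226978816000) (.ev (nat_lit 3236) (nat_lit 67109376) (.ev
 (nat_lit 3245) (nat_lit 68719476736) .dd)))) (.br (nat_lit 2) (.ch (nat_lit 1) (.ev (nat_lit 1568) (nat_lit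
 563295765398016) (.ev (nat_lit 1581) (nat_lit 4096) .dd))) (.ch (nat_lit 2) (.ev (nat_lit 1568) (nat_lit
 70934069760) (.ev (nat_lit 2256) (nat_lit 562949953421312) (.fin (nat_lit 576472297160262189))))))) (.br
 (nat_lit 9) (.br (nat_lit 8) (.ch (nat_lit 6) (.ev (nat_lit 1568) (nat_lit 563293550809600) (.ev (nat_lit
 1588) (nat_lit 67108864) (.ev (nat_lit 1597) (nat_lit 2147483648) .dd)))) (.ch (nat_lit 8) (.ev (nat_lit 1568)
 (nat_lit 343664492544) (.ev (nat_lit 2244) (nat_lit 512) (.ev (nat_lit 2560) (nat_lit 2147483648) (.ev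
 (nat_lit 2848) (nat_lit 562949953421312) (.ev (nat_lit 2861) (nat_lit 4096) .dd))))))) (.br (nat_lit 11) (.ch
 (nat_lit 9) (.ev (nat_lit 1568) (nat_lit 563295698293248) (.ev (nat_lit 1581) (nat_lit 67108864) .dd))) (.ch
 (nat_lit 11) (.ev (nat_lit 1568) (nat_lit 68786590208) (.ev (nat_lit 1796) (nat_lit 562949953421312) (.ev
 (nat_lit 2800) (nat_lit 2147483648) (.ev (nat_lit 2813) (nat_lit 274877906944) .dd)))))))))))))))) (.br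
 (nat_lit 44) (.ch (nat_lit 43) (.ev (nat_lit 52) (nat_lit 710286726173696) (.ev (nat_lit 468) (nat_lit
 8796093022208) (.ev (nat_lit 532) (nat_lit 137438953472) (.ev (nat_lit 864) (nat_lit 282368887751280) .dd)))))
 (.br (nat_lit 46) (.ch (nat_lit 44) (.ev (nat_lit 52) (nat_lit 985437380280336) (.ev (nat_lit 308) (nat_lit
 536870912) (.ev (nat_lit 788) (nat_lit 4096) (.ev (nat_lit 884) (nat_lit 2147483648) (.nd (nat_lit 1552) (.br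
 (nat_lit 7) (.br (nat_lit 1) (.ch (nat_lit 0) (.ev (nat_lit 1568) (nat_lit 6734508721216) (.ev (nat_lit 1604)
 (nat_lit 4194304) (.ev (nat_lit 2576) (nat_lit 68719476736) (.ev (nat_lit 2848) (nat_lit 512) (.ev (nat_lit
 3008) (nat_lit 32) (.ev (nat_lit 3104) (nat_lit 8796093022208) (.ev (nat_lit 3152) (nat_lit 549755846656)
 .dd)))))))) (.br (nat_lit 3) (.ch (nat_lit 1) (.ev (nat_lit 1568) (nat_lit 13812619052640) (.ev (nat_lit 2256)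
 (nat_lit 137438953472) (.ev (nat_lit 2269) (nat_lit 2199023255552) .dd)))) (.ch (nat_lit 3) (.ev (nat_lit
 1568) (nat_lit 2336466436128) (.ev (nat_lit 2256) (nat_lit 512) (.ev (nat_lit 2340) (nat_lit 8796093022208)
 (.ev (nat_lit 2560) (nat_lit 68719476736) (.ev (nat_lit 2576) (nat_lit 1024) (.ev (nat_lit 2948) (nat_lit
 4947802324992) (.ev (nat_lit 2957) (nat_lit 64) .dd)))))))))) (.br (nat_lit 9) (.br (nat_lit 8) (.ch (nat_lit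
 7) (.ev (nat_lit 1568) (nat_lit 15530601743936) (.ev (nat_lit 1984) (nat_lit 32) (.ev (nat_lit 2480) (nat_lit
 549760008192) (.ev (nat_lit 3120) (nat_lit 32768) (.ev (nat_lit 3133) (nat_lit 68719476736) .dd)))))) (.ch
 (nat_lit 8) (.ev (nat_lit 1568) (nat_lit 15530605937152) (.ev (nat_lit 2656) (nat_lit 64) (.ev (nat_lit 3248)
 (nat_lit 32768) (.ev (nat_lit 3424) (nat_lit 1056) (.fin (nat_lit 576456904011104832)))))))) (.br (nat_lit 11)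
 (.ch (nat_lit 9) (.ev (nat_lit 1568) (nat_lit 15393167016480) (.ev (nat_lit 2400) (nat_lit 1024) (.ev (nat_lit
 2468) (nat_lit 64) (.ev (nat_lit 2644) (nat_lit 137438953472) (.ev (nat_lit 2656) (nat_lit 549755813888) (.ev
 (nat_lit 2669) (nat_lit 68719476736) .dd))))))) (.ch (nat_lit 11) (.ev (nat_lit 1568) (nat_lit 11751030556256)
 (.ev (nat_lit 2948) (nat_lit 4194304) (.ev (nat_lit 2957) (nat_lit 4398046511104) .dd))))))))))))) (.ch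
 (nat_lit 46) (.ev (nat_lit 52) (nat_lit 7148989846544) (.ev (nat_lit 532) (nat_lit 68719476736) (.ev (nat_lit
 788) (nat_lit 562949953421312) (.ev (nat_lit 1140) (nat_lit 67108864) (.ev (nat_lit 1332) (nat_lit
 8796093022208) (.ev (nat_lit 1364) (nat_lit 281474976710656) (.nd (nat_lit 1552) (.br (nat_lit 7) (.br
 (nat_lit 3) (.ch (nat_lit 2) (.ev (nat_lit 1568) (nat_lit 140875464180288) (.ev (nat_lit 1876) (nat_lit 32)
 (.ev (nat_lit 2976) (nat_lit 4194304) (.ev (nat_lit 3024) (nat_lit 274877906944) (.ev (nat_lit 3037) (nat_lit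
 32768) .dd)))))) (.br (nat_lit 6) (.ch (nat_lit 3) (.ev (nat_lit 1568) (nat_lit 140874931536480) (.ev (nat_lit
 2256) (nat_lit 274877906944) (.ev (nat_lit 2269) (nat_lit 536870912) .dd)))) (.ch (nat_lit 6) (.ev (nat_lit
 1568) (nat_lit 275418972768) (.ev (nat_lit 2548) (nat_lit 137438953472) (.ev (nat_lit 2992) (nat_lit
 140737488355328) (.ev (nat_lit 3005) (nat_lit 32768) .dd))))))) (.br (nat_lit 8) (.ch (nat_lit 7) (.ev
 (nat_lit 1568) (nat_lit 141150342086752) (.ev (nat_lit 2976) (nat_lit 4194304) (.fin (nat_lit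
 576465700097835592))))) (.br (nat_lit 9) (.ch (nat_lit 8) (.ev (nat_lit 1568) (nat_lit 141149809410080) (.ev
 (nat_lit 1588) (nat_lit 32768) (.ev (nat_lit 2644) (nat_lit 512) (.ev (nat_lit 3024) (nat_lit 536870912) (.ev
 (nat_lit 3037) (nat_lit 64) .dd)))))) (.ch (nat_lit 9) (.ev (nat_lit 1568) (nat_lit 137443181088) (.ev
 (nat_lit 2656) (nat_lit 140737488355328) (.ev (nat_lit 3056) (nat_lit 64) (.ev (nat_lit 3104) (nat_lit
 275414777856) .dd))))))))))))))))))) (.br (nat_lit 50) (.br (nat_lit 48) (.ch (nat_lit 47) (.ev (nat_lit 52)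
 (nat_lit 284088485286400) (.ev (nat_lit 180) (nat_lit 536870912) (.ev (nat_lit 500) (nat_lit 4398046511168)
 (.ev (nat_lit 756) (nat_lit 8796093022208) (.nd (nat_lit 1552) (.br (nat_lit 7) (.br (nat_lit 1) (.ch (nat_lit
 0) (.ev (nat_lit 1568) (nat_lit 549755846672) (.ev (nat_lit 1588) (nat_lit 562950020530176) (.ev (nat_lit
 2244) (nat_lit 32) (.ev (nat_lit 2992) (nat_lit 1024) (.ev (nat_lit 3040) (nat_lit 140737488355328) (.ev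
 (nat_lit 3053) (nat_lit 68719476736) .dd))))))) (.br (nat_lit 6) (.ch (nat_lit 1) (.ev (nat_lit 1568) (nat_lit
 704305917067264) (.ev (nat_lit 2244) (nat_lit 32) (.ev (nat_lit 2340) (nat_lit 16) (.ev (nat_lit 2948)
 (nat_lit 1024) (.ev (nat_lit 3236) (nat_lit 67108864) (.ev (nat_lit 3245) (nat_lit 32768) .dd))))))) (.ch
 (nat_lit 6) (.ev (nat_lit 1568) (nat_lit 563018740006944) (.ev (nat_lit 2244) (nat_lit 16) (.ev (nat_lit 2644)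
 (nat_lit 140737488355328) (.ev (nat_lit 3088) (nat_lit 549755846656) (.ev (nat_lit 3101) (nat_lit 1024)
 .dd)))))))) (.br (nat_lit 9) (.ch (nat_lit 7) (.ev (nat_lit 1568) (nat_lit 67109904) (.ev (nat_lit 1588)
 (nat_lit 618475290624) (.ev (nat_lit 2160) (nat_lit 32768) (.ev (nat_lit 2244) (nat_lit 140737488355328) (.ev
 (nat_lit 2352) (nat_lit 32) (.ev (nat_lit 2365) (nat_lit 562949953421312) .dd))))))) (.br (nat_lit 11) (.ch
 (nat_lit 9) (.ev (nat_lit 1568) (nat_lit 704237264733232) (.ev (nat_lit 1581) (nat_lit 68719476736) .dd)))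
 (.ch (nat_lit 11) (.ev (nat_lit 1568) (nat_lit 141356030788656) (.ev (nat_lit 1581) (nat_lit 562949953421312)
 .dd)))))))))))) (.br (nat_lit 49) (.ch (nat_lit 48) (.ev (nat_lit 52) (nat_lit 851093407924256) (.ev (nat_lit
 180) (nat_lit 16777216) (.ev (nat_lit 500) (nat_lit 1536) (.ev (nat_lit 756) (nat_lit 140737488355328) (.nd
 (nat_lit 1552) (.br (nat_lit 8) (.br (nat_lit 2) (.ch (nat_lit 0) (.ev (nat_lit 1568) (nat_lit 9620793888848)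
 (.ev (nat_lit 1581) (nat_lit 137438953472) .dd))) (.br (nat_lit 3) (.ch (nat_lit 2) (.ev (nat_lit 1568)
 (nat_lit 549755846720) (.ev (nat_lit 1588) (nat_lit 137506062336) (.nd (nat_lit 2128) (.br (nat_lit 3) (.br
 (nat_lit 1) (.ch (nat_lit 0) (.ev (nat_lit 2144) (nat_lit 4112) (.ev (nat_lit 2160) (nat_lit 8796093022208)
 (.ev (nat_lit 2173) (nat_lit 274877906944) .dd)))) (.br (nat_lit 2) (.ch (nat_lit 1) (.ev (nat_lit 2144)
 (nat_lit 8796093026320) (.ev (nat_lit 2157) (nat_lit 274877906944) .dd))) (.ch (nat_lit 2) (.ev (nat_lit 2144)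
 (nat_lit 9070970929152) (.ev (nat_lit 2160) (nat_lit 16) (.ev (nat_lit 2173) (nat_lit 4096) .dd)))))) (.br
 (nat_lit 11) (.ch (nat_lit 3) (.ev (nat_lit 2144) (nat_lit 274877911056) (.ev (nat_lit 2157) (nat_lit
 8796093022208) .dd))) (.br (nat_lit 12) (.ch (nat_lit 11) (.ev (nat_lit 2144) (nat_lit 9070970933264) .dd))
 (.ch (nat_lit 12) (.ev (nat_lit 2144) (nat_lit 4112) (.ev (nat_lit 2244) (nat_lit 8796093022208) (.ev (nat_lit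
 2253) (nat_lit 274877906944) .dd))))))))))) (.ch (nat_lit 3) (.ev (nat_lit 1568) (nat_lit 962072678400) (.ev
 (nat_lit 2244) (nat_lit 32768) (.ev (nat_lit 2644) (nat_lit 8796093022208) (.ev (nat_lit 3088) (nat_lit
 67108880) (.ev (nat_lit 3101) (nat_lit 64) .dd)))))))) (.br (nat_lit 9) (.ch (nat_lit 8) (.ev (nat_lit 1568)
 (nat_lit 9208476991488) (.ev (nat_lit 2244) (nat_lit 4096) (.ev (nat_lit 2340) (nat_lit 32768) (.ev (nat_lit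
 2948) (nat_lit 64) (.ev (nat_lit 3236) (nat_lit 549755813888) (.ev (nat_lit 3245) (nat_lit 16) .dd))))))) (.br
 (nat_lit 11) (.ch (nat_lit 9) (.ev (nat_lit 1568) (nat_lit 67141648) (.ev (nat_lit 1588) (nat_lit
 824633720832) (.ev (nat_lit 2244) (nat_lit 4096) (.ev (nat_lit 2992) (nat_lit 64) (.ev (nat_lit 3040) (nat_lit
 8796093022208) (.ev (nat_lit 3053) (nat_lit 137438953472) .dd))))))) (.ch (nat_lit 11) (.ev (nat_lit 1568)
 (nat_lit 9483354935376) (.ev (nat_lit 1581) (nat_lit 274877906944) .dd)))))))))))) (.ch (nat_lit 49) (.ev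
 (nat_lit 52) (nat_lit 704650068137504) (.ev (nat_lit 148) (nat_lit 16) (.ev (nat_lit 596) (nat_lit 4194304)
 (.ev (nat_lit 948) (nat_lit 64) (.ev (nat_lit 1312) (nat_lit 296939073568768) .dd)))))))) (.br (nat_lit 51)
 (.ch (nat_lit 50) (.ev (nat_lit 52) (nat_lit 152285111947776) (.ev (nat_lit 372) (nat_lit 32) (.ev (nat_lit
 436) (nat_lit 16) (.ev (nat_lit 532) (nat_lit 4194304) (.ev (nat_lit 1120) (nat_lit 849304029758528) .dd))))))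
 (.br (nat_lit 53) (.ch (nat_lit 51) (.ev (nat_lit 52) (nat_lit 438293363692560) (.ev (nat_lit 404) (nat_lit
 32) (.ev (nat_lit 692) (nat_lit 64) (.ev (nat_lit 884) (nat_lit 67108864) (.ev (nat_lit 1280) (nat_lit
 563295715099136) .dd)))))) (.ch (nat_lit 53) (.ev (nat_lit 52) (nat_lit 8867580745312) (.ev (nat_lit 340)
 (nat_lit 274877906944) (.ev (nat_lit 404) (nat_lit 562949953421312) (.ev (nat_lit 564) (nat_lit 549755813888)
 (.ev (nat_lit 1044) (nat_lit 16) (.nd (nat_lit 1552) (.br (nat_lit 3) (.br (nat_lit 1) (.ch (nat_lit 0) (.ev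
 (nat_lit 1568) (nat_lit 428946973786112) (.ev (nat_lit 2644) (nat_lit 32768) (.ev (nat_lit 2653) (nat_lit
 4194304) .dd)))) (.br (nat_lit 2) (.ch (nat_lit 1) (.ev (nat_lit 1568) (nat_lit 281474980904960) (.ev (nat_lit
 2992) (nat_lit 140737488355328) (.ev (nat_lit 3236) (nat_lit 2199023255552) (.ev (nat_lit 3248) (nat_lit
 137438953472) (.fin (nat_lit 576443709889397325))))))) (.ch (nat_lit 2) (.ev (nat_lit 1568) (nat_lit
 147334562349056) (.ev (nat_lit 1718) (nat_lit 137438953472) (.ev (nat_lit 1725) (nat_lit 281474976710656)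
 .dd)))))) (.br (nat_lit 8) (.ch (nat_lit 3) (.ev (nat_lit 1568) (nat_lit 422349908246528) (.ev (nat_lit 2480)
 (nat_lit 2199023255552) (.ev (nat_lit 2493) (nat_lit 4398046511104) .dd)))) (.br (nat_lit 11) (.ch (nat_lit 8)
 (.ev (nat_lit 1568) (nat_lit 428946978013184) .dd)) (.ch (nat_lit 11) (.ev (nat_lit 1568) (nat_lit
 428946978013184) .dd)))))))))))))))) (.br (nat_lit 64) (.br (nat_lit 57) (.br (nat_lit 55) (.ch (nat_lit 54)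
 (.ev (nat_lit 52) (nat_lit 9141858894336) (.ev (nat_lit 244) (nat_lit 64) (.ev (nat_lit 308) (nat_lit
 4398046511120) (.ev (nat_lit 660) (nat_lit 32) (.ev (nat_lit 1364) (nat_lit 549755813888) (.nd (nat_lit 1552)
 (.br (nat_lit 6) (.br (nat_lit 2) (.ch (nat_lit 1) (.ev (nat_lit 1568) (nat_lit 987362045722624) (.ev (nat_lit
 2340) (nat_lit 137438953472) (.ev (nat_lit 2976) (nat_lit 1024) (.ev (nat_lit 2989) (nat_lit 4096) .dd)))))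
 (.br (nat_lit 3) (.ch (nat_lit 2) (.ev (nat_lit 1568) (nat_lit 703825417606144) (.ev (nat_lit 2160) (nat_lit
 281474976710656) (.ev (nat_lit 2496) (nat_lit 2199023255552) (.ev (nat_lit 2509) (nat_lit 67108864) .dd)))))
 (.ch (nat_lit 3) (.ev (nat_lit 1568) (nat_lit 563087459487744) (.ev (nat_lit 1588) (nat_lit 281474976710656)
 (.ev (nat_lit 1636) (nat_lit 140737488355328) (.ev (nat_lit 2948) (nat_lit 1024) (.ev (nat_lit 3236) (nat_lit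
 536870912) (.ev (nat_lit 3245) (nat_lit 2199023255552) .dd))))))))) (.br (nat_lit 7) (.ch (nat_lit 6) (.ev
 (nat_lit 1568) (nat_lit 703688045760512) (.ev (nat_lit 1588) (nat_lit 281474976710656) (.ev (nat_lit 3136)
 (nat_lit 137438954496) (.ev (nat_lit 3149) (nat_lit 2199023255552) .dd))))) (.br (nat_lit 8) (.ch (nat_lit 7)
 (.ev (nat_lit 1568) (nat_lit 424549531255808) (.ev (nat_lit 2256) (nat_lit 4096) (.ev (nat_lit 2269) (nat_lit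
 562949953421312) .dd)))) (.ch (nat_lit 8) (.ev (nat_lit 1568) (nat_lit 424548994384896) (.ev (nat_lit 3056)
 (nat_lit 4096) (.ev (nat_lit 3168) (nat_lit 562949953421312) (.ev (nat_lit 3181) (nat_lit 536870912)
 .dd))))))))))))))) (.ch (nat_lit 55) (.ev (nat_lit 52) (nat_lit 565355739092512) (.ev (nat_lit 852) (nat_lit
 64) (.ev (nat_lit 916) (nat_lit 16) (.ev (nat_lit 1012) (nat_lit 16777216) (.ev (nat_lit 1172) (nat_lit
 274877906944) (.ev (nat_lit 1364) (nat_lit 4194304) (.nd (nat_lit 1552) (.br (nat_lit 8) (.br (nat_lit 2) (.ch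
 (nat_lit 1) (.ev (nat_lit 1568) (nat_lit 431558313902080) (.ev (nat_lit 2960) (nat_lit 2147483648) (.nd
 (nat_lit 3840) (.br (nat_lit 11) (.ch (nat_lit 0) (.ev (nat_lit 3856) (nat_lit 4398046543872) .dd)) (.ch
 (nat_lit 11) (.fin (nat_lit 576443709889397325)))))))) (.br (nat_lit 7) (.ch (nat_lit 2) (.ev (nat_lit 1568)
 (nat_lit 435958507896832) (.ev (nat_lit 1581) (nat_lit 32768) .dd))) (.ch (nat_lit 7) (.ev (nat_lit 1568)
 (nat_lit 13746042863616) (.ev (nat_lit 2208) (nat_lit 140737488355328) (.ev (nat_lit 2221) (nat_lit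
 281474976710656) .dd)))))) (.br (nat_lit 9) (.ch (nat_lit 8) (.ev (nat_lit 1568) (nat_lit 145135534866432)
 (.ev (nat_lit 2116) (nat_lit 32768) (.ev (nat_lit 2340) (nat_lit 549755813888) (.ev (nat_lit 2672) (nat_lit
 8796093022208) (.ev (nat_lit 3072) (nat_lit 281477124194304) .dd)))))) (.br (nat_lit 11) (.ch (nat_lit 9) (.ev
 (nat_lit 1568) (nat_lit 149535728893952) (.ev (nat_lit 2176) (nat_lit 4398046511104) (.ev (nat_lit 2592)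
 (nat_lit 549755813888) (.ev (nat_lit 2605) (nat_lit 281474976710656) .dd))))) (.ch (nat_lit 11) (.ev (nat_lit
 1568) (nat_lit 435958507929600) .dd)))))))))))))) (.br (nat_lit 58) (.ch (nat_lit 57) (.ev (nat_lit 52)
 (nat_lit 286766397391472) (.ev (nat_lit 532) (nat_lit 2147483648) (.ev (nat_lit 820) (nat_lit 32768) (.nd
 (nat_lit 1552) (.br (nat_lit 7) (.br (nat_lit 2) (.ch (nat_lit 0) (.ev (nat_lit 1568) (nat_lit 10995653153792)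
 (.ev (nat_lit 2340) (nat_lit 140737488355328) (.ev (nat_lit 2592) (nat_lit 562949953421312) (.ev (nat_lit
 3024) (nat_lit 137438953472) (.ev (nat_lit 3037) (nat_lit 67108864) .dd)))))) (.ch (nat_lit 2) (.ev (nat_lit
 1568) (nat_lit 140738092340224) (.ev (nat_lit 1664) (nat_lit 8796093022208) (.ev (nat_lit 2244) (nat_lit
 2199023255552) (.ev (nat_lit 2256) (nat_lit 562949953421312) (.ev (nat_lit 2269) (nat_lit 137438953472)
 .dd))))))) (.br (nat_lit 8) (.ch (nat_lit 7) (.ev (nat_lit 1568) (nat_lit 714820064117760) (.ev (nat_lit 2192)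
 (nat_lit 536870912) (.ev (nat_lit 2205) (nat_lit 4096) .dd)))) (.br (nat_lit 11) (.ch (nat_lit 8) (.ev
 (nat_lit 1568) (nat_lit 706024507965440) (.ev (nat_lit 1588) (nat_lit 4096) (.ev (nat_lit 2244) (nat_lit
 8796093022208) (.ev (nat_lit 2253) (nat_lit 1024) .dd))))) (.ch (nat_lit 11) (.ev (nat_lit 1568) (nat_lit
 151732671747072) (.ev (nat_lit 3104) (nat_lit 137438953472) (.ev (nat_lit 3236) (nat_lit 536870912) (.ev
 (nat_lit 3245) (nat_lit 562949953421312) .dd))))))))))))) (.br (nat_lit 62) (.ch (nat_lit 58) (.ev (nat_lit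
 52) (nat_lit 11545408995408) (.ev (nat_lit 84) (nat_lit 4096) (.ev (nat_lit 276) (nat_lit 1024) (.ev (nat_lit
 1076) (nat_lit 2147483648) (.ev (nat_lit 1236) (nat_lit 274877906944) (.ev (nat_lit 1300) (nat_lit 4194304)
 (.ev (nat_lit 1364) (nat_lit 140737488355328) (.ev (nat_lit 1456) (nat_lit 67108896) (.nd (nat_lit 1552) (.br
 (nat_lit 6) (.br (nat_lit 3) (.ch (nat_lit 1) (.ev (nat_lit 1568) (nat_lit 844493649609216) (.ev (nat_lit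
 2592) (nat_lit 4398046511104) (.ev (nat_lit 3024) (nat_lit 16777216) (.ev (nat_lit 3037) (nat_lit
 137438953472) .dd))))) (.ch (nat_lit 3) (.ev (nat_lit 1568) (nat_lit 848960432374272) (.ev (nat_lit 1581)
 (nat_lit 68719476736) .dd)))) (.br (nat_lit 9) (.ch (nat_lit 6) (.ev (nat_lit 1568) (nat_lit 206158430208)
 (.ev (nat_lit 2256) (nat_lit 4398046511104) (.ev (nat_lit 2272) (nat_lit 512) (.ev (nat_lit 2960) (nat_lit
 16777216) (.ev (nat_lit 3120) (nat_lit 844424930131968) .dd)))))) (.br (nat_lit 11) (.ch (nat_lit 9) (.ev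
 (nat_lit 1568) (nat_lit 848891712897536) (.ev (nat_lit 1581) (nat_lit 137438953472) .dd))) (.ch (nat_lit 11)
 (.ev (nat_lit 1568) (nat_lit 844562369085952) (.ev (nat_lit 2512) (nat_lit 16777216) (.ev (nat_lit 3072)
 (nat_lit 4398046511104) (.ev (nat_lit 3085) (nat_lit 68719476736) .dd)))))))))))))))))) (.ch (nat_lit 62) (.ev
 (nat_lit 52) (nat_lit 569685070353920) (.ev (nat_lit 564) (nat_lit 2147483648) (.ev (nat_lit 820) (nat_lit 16)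
 (.nd (nat_lit 1552) (.br (nat_lit 7) (.br (nat_lit 2) (.ch (nat_lit 1) (.ev (nat_lit 1568) (nat_lit
 291164439707648) (.ev (nat_lit 1588) (nat_lit 32) (.ev (nat_lit 2244) (nat_lit 140737488355328) (.ev (nat_lit
 2253) (nat_lit 64) .dd))))) (.ch (nat_lit 2) (.ev (nat_lit 1568) (nat_lit 431901911285824) (.ev (nat_lit 2192)
 (nat_lit 16777216) (.ev (nat_lit 2205) (nat_lit 32) .dd))))) (.br (nat_lit 9) (.ch (nat_lit 7) (.ev (nat_lit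
 1568) (nat_lit 9345865613408) (.ev (nat_lit 1664) (nat_lit 140737488355328) (.ev (nat_lit 2244) (nat_lit
 281474976710656) (.ev (nat_lit 2256) (nat_lit 274877906944) (.ev (nat_lit 2269) (nat_lit 68719476736)
 .dd)))))) (.br (nat_lit 11) (.ch (nat_lit 9) (.ev (nat_lit 1568) (nat_lit 422212481843296) (.ev (nat_lit 2340)
 (nat_lit 8796093022208) (.ev (nat_lit 2592) (nat_lit 274877906944) (.ev (nat_lit 3024) (nat_lit 68719476736)
 (.ev (nat_lit 3037) (nat_lit 549755813888) .dd)))))) (.ch (nat_lit 11) (.ev (nat_lit 1568) (nat_lit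
 431558313902176) (.ev (nat_lit 3104) (nat_lit 68719476736) (.ev (nat_lit 3236) (nat_lit 16777216) (.ev
 (nat_lit 3245) (nat_lit 274877906944) .dd)))))))))))))))) (.br (nat_lit 68) (.br (nat_lit 65) (.ch (nat_lit
 64) (.ev (nat_lit 52) (nat_lit 145825430770784) (.ev (nat_lit 340) (nat_lit 562949953421312) (.ev (nat_lit
 404) (nat_lit 274877906944) (.ev (nat_lit 532) (nat_lit 67108864) (.ev (nat_lit 1044) (nat_lit 32768) (.nd
 (nat_lit 1552) (.br (nat_lit 8) (.br (nat_lit 6) (.ch (nat_lit 1) (.ev (nat_lit 1568) (nat_lit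
 292538816659984) .dd)) (.br (nat_lit 7) (.ch (nat_lit 6) (.ev (nat_lit 1568) (nat_lit 11063839948816) (.ev
 (nat_lit 2480) (nat_lit 281474976710656) (.ev (nat_lit 2493) (nat_lit 512) .dd)))) (.ch (nat_lit 7) (.ev
 (nat_lit 1568) (nat_lit 290271073927696) (.ev (nat_lit 1622) (nat_lit 68719476736) (.ev (nat_lit 1629)
 (nat_lit 2199023255552) .dd)))))) (.br (nat_lit 9) (.ch (nat_lit 8) (.ev (nat_lit 1568) (nat_lit
 2199027449856) (.ev (nat_lit 2992) (nat_lit 8796093022208) (.ev (nat_lit 3236) (nat_lit 281474976710656) (.ev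
 (nat_lit 3248) (nat_lit 68719476736) (.fin (nat_lit 576443709860037155))))))) (.br (nat_lit 11) (.ch (nat_lit
 9) (.ev (nat_lit 1568) (nat_lit 292538812465664) (.ev (nat_lit 2644) (nat_lit 16) (.ev (nat_lit 2653) (nat_lit
 4194304) .dd)))) (.ch (nat_lit 11) (.ev (nat_lit 1568) (nat_lit 292538816659984) .dd)))))))))))) (.br (nat_lit
 67) (.ch (nat_lit 65) (.ev (nat_lit 52) (nat_lit 435958591782960) (.ev (nat_lit 372) (nat_lit 4096) (.ev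
 (nat_lit 436) (nat_lit 32768) (.ev (nat_lit 564) (nat_lit 4194304) (.ev (nat_lit 1184) (nat_lit
 565630549886528) .dd)))))) (.ch (nat_lit 67) (.ev (nat_lit 52) (nat_lit 858374983913536) (.ev (nat_lit 148)
 (nat_lit 536870912) (.ev (nat_lit 1012) (nat_lit 16) (.ev (nat_lit 1076) (nat_lit 4194304) (.ev (nat_lit 1204)
 (nat_lit 140737488355328) (.nd (nat_lit 1552) (.br (nat_lit 6) (.br (nat_lit 1) (.ch (nat_lit 0) (.ev (nat_lit
 1568) (nat_lit 277109276704) (.ev (nat_lit 1588) (nat_lit 32768) (.ev (nat_lit 2468) (nat_lit 512) (.ev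
 (nat_lit 3072) (nat_lit 1024) (.ev (nat_lit 3085) (nat_lit 2199023255552) .dd)))))) (.br (nat_lit 3) (.ch
 (nat_lit 1) (.ev (nat_lit 1568) (nat_lit 2476115756544) (.ev (nat_lit 2644) (nat_lit 32) (.ev (nat_lit 2948)
 (nat_lit 16777216) (.ev (nat_lit 2957) (nat_lit 32768) .dd))))) (.ch (nat_lit 3) (.ev (nat_lit 1568) (nat_lit
 2199040034336) (.ev (nat_lit 2816) (nat_lit 2147483648) (.ev (nat_lit 2976) (nat_lit 67108864) (.ev (nat_lit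
 2992) (nat_lit 274877906944) (.ev (nat_lit 3005) (nat_lit 32768) .dd)))))))) (.br (nat_lit 7) (.ch (nat_lit 6)
 (.ev (nat_lit 1568) (nat_lit 277025423904) (.ev (nat_lit 2256) (nat_lit 16777216) (.ev (nat_lit 2624) (nat_lit
 2199023255552) (.ev (nat_lit 2992) (nat_lit 67108864) (.ev (nat_lit 3005) (nat_lit 1024) .dd)))))) (.br
 (nat_lit 9) (.ch (nat_lit 7) (.ev (nat_lit 1568) (nat_lit 2201254626336) (.ev (nat_lit 3280) (nat_lit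
 274877906944) (.fin (nat_lit 576465700097835592))))) (.ch (nat_lit 9) (.ev (nat_lit 1568) (nat_lit
 2476065456672) (.ev (nat_lit 2340) (nat_lit 67108864) (.ev (nat_lit 2349) (nat_lit 1024) .dd))))))))))))))))
 (.br (nat_lit 69) (.ch (nat_lit 68) (.ev (nat_lit 52) (nat_lit 2886843008016) (.ev (nat_lit 340) (nat_lit
 4096) (.ev (nat_lit 468) (nat_lit 2147483648) (.ev (nat_lit 596) (nat_lit 68719476736) (.ev (nat_lit 980)
 (nat_lit 274877906944) (.ev (nat_lit 1044) (nat_lit 4398046511104) (.nd (nat_lit 1552) (.br (nat_lit 3) (.br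
 (nat_lit 1) (.ch (nat_lit 0) (.ev (nat_lit 1568) (nat_lit 281474976711168) (.ev (nat_lit 2560) (nat_lit 64)
 (.ev (nat_lit 2688) (nat_lit 562949953421312) (.ev (nat_lit 2948) (nat_lit 32) (.ev (nat_lit 3136) (nat_lit
 8796093022208) (.ev (nat_lit 3149) (nat_lit 140737488355328) .dd))))))) (.br (nat_lit 2) (.ch (nat_lit 1) (.ev
 (nat_lit 1568) (nat_lit 853221023154752) (.ev (nat_lit 2480) (nat_lit 140737488355328) (.ev (nat_lit 2493)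
 (nat_lit 32) .dd)))) (.ch (nat_lit 2) (.ev (nat_lit 1568) (nat_lit 431008558088768) (.ev (nat_lit 1702)
 (nat_lit 562949953421312) (.ev (nat_lit 1709) (nat_lit 32) .dd)))))) (.br (nat_lit 9) (.ch (nat_lit 3) (.ev
 (nat_lit 1568) (nat_lit 703687441776736) (.ev (nat_lit 2468) (nat_lit 512) (.ev (nat_lit 3136) (nat_lit
 8796093022208) (.ev (nat_lit 3149) (nat_lit 281474976710656) .dd))))) (.br (nat_lit 11) (.ch (nat_lit 9) (.ev
 (nat_lit 1568) (nat_lit 712483534799392) (.ev (nat_lit 2244) (nat_lit 64) (.ev (nat_lit 2253) (nat_lit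
 281474976710656) .dd)))) (.ch (nat_lit 11) (.ev (nat_lit 1568) (nat_lit 993958511509600) (.ev (nat_lit 1581)
 (nat_lit 512) .dd)))))))))))))) (.br (nat_lit 70) (.ch (nat_lit 69) (.ev (nat_lit 52) (nat_lit
 704239953248368) (.ev (nat_lit 116) (nat_lit 512) (.ev (nat_lit 244) (nat_lit 4398046511104) (.ev (nat_lit
 820) (nat_lit 1024) (.ev (nat_lit 1108) (nat_lit 68719476736) (.ev (nat_lit 1364) (nat_lit 137438953472) (.nd
 (nat_lit 1552) (.br (nat_lit 8) (.br (nat_lit 3) (.ch (nat_lit 0) (.ev (nat_lit 1568) (nat_lit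
 292744970899456) (.ev (nat_lit 3236) (nat_lit 16777216) (.ev (nat_lit 3245) (nat_lit 32768) .dd)))) (.br
 (nat_lit 6) (.ch (nat_lit 3) (.ev (nat_lit 1568) (nat_lit 16814080) (.ev (nat_lit 2960) (nat_lit
 281474976710656) (.ev (nat_lit 2976) (nat_lit 10995116277760) (.ev (nat_lit 2989) (nat_lit 274877906944)
 .dd))))) (.ch (nat_lit 6) (.ev (nat_lit 1568) (nat_lit 283948877877248) (.ev (nat_lit 1588) (nat_lit 32768)
 (.ev (nat_lit 3300) (nat_lit 8796093022208) (.ev (nat_lit 3309) (nat_lit 16777216) .dd))))))) (.br (nat_lit 9)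
 (.ch (nat_lit 8) (.ev (nat_lit 1568) (nat_lit 292744970895360) (.ev (nat_lit 2176) (nat_lit 32768) (.ev
 (nat_lit 2352) (nat_lit 16777216) (.ev (nat_lit 2365) (nat_lit 4096) .dd))))) (.br (nat_lit 11) (.ch (nat_lit
 9) (.ev (nat_lit 1568) (nat_lit 2199040069632) (.ev (nat_lit 2480) (nat_lit 274877906944) (.ev (nat_lit 3088)
 (nat_lit 281474976710656) (.ev (nat_lit 3101) (nat_lit 8796093022208) .dd))))) (.ch (nat_lit 11) (.ev (nat_lit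
 1568) (nat_lit 292744987709440) .dd))))))))))))) (.ch (nat_lit 70) (.ev (nat_lit 52) (nat_lit 141081089937472)
 (.ev (nat_lit 724) (nat_lit 32) (.ev (nat_lit 852) (nat_lit 512) (.ev (nat_lit 916) (nat_lit 1024) (.ev
 (nat_lit 1076) (nat_lit 281474976710656) (.nd (nat_lit 1552) (.br (nat_lit 2) (.br (nat_lit 1) (.ch (nat_lit
 0) (.ev (nat_lit 1568) (nat_lit 567488207126544) (.ev (nat_lit 1764) (nat_lit 549755813888) (.ev (nat_lit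
 2960) (nat_lit 32768) (.ev (nat_lit 2976) (nat_lit 2199023255552) (.ev (nat_lit 2989) (nat_lit 8796093022208)
 .dd)))))) (.ch (nat_lit 1) (.ev (nat_lit 1568) (nat_lit 576693848768512) (.ev (nat_lit 2644) (nat_lit 32768)
 (.ev (nat_lit 2784) (nat_lit 2164260864) (.ev (nat_lit 2948) (nat_lit 536870912) (.ev (nat_lit 2960) (nat_lit
 16) (.ev (nat_lit 3236) (nat_lit 2199023255552) (.fin (nat_lit 576465700104127044)))))))))) (.br (nat_lit 7)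
 (.ch (nat_lit 2) (.ev (nat_lit 1568) (nat_lit 2888969486352) (.nd (nat_lit 2128) (.br (nat_lit 6) (.br
 (nat_lit 5) (.ch (nat_lit 1) (.ev (nat_lit 2144) (nat_lit 562949970198528) (.ev (nat_lit 2244) (nat_lit
 4398046543872) (.ev (nat_lit 2253) (nat_lit 8796093022208) .dd)))) (.ch (nat_lit 5) (.ev (nat_lit 2144)
 (nat_lit 13194139566080) (.ev (nat_lit 3632) (nat_lit 562949970198528) .dd)))) (.br (nat_lit 12) (.ch (nat_lit
 6) (.ev (nat_lit 2144) (nat_lit 13194156343296) (.ev (nat_lit 2157) (nat_lit 562949953421312) .dd))) (.ch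
 (nat_lit 12) (.ev (nat_lit 2144) (nat_lit 567348016709632) (.ev (nat_lit 2352) (nat_lit 8796093054976)
 .dd)))))))) (.br (nat_lit 8) (.ch (nat_lit 7) (.ev (nat_lit 1568) (nat_lit 13883565703184) (.ev (nat_lit 2340)
 (nat_lit 536870912) (.ev (nat_lit 3236) (nat_lit 562949953421312) (.ev (nat_lit 3245) (nat_lit 2199023255552)
 .dd))))) (.ch (nat_lit 8) (.ev (nat_lit 1568) (nat_lit 569686676766736) (.ev (nat_lit 2244) (nat_lit 16777216)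
 (.ev (nat_lit 3184) (nat_lit 549755813888) (.ev (nat_lit 3300) (nat_lit 536870912) (.ev (nat_lit 3309)
 (nat_lit 8796093022208) .dd))))))))))))))))))))))))

/-- Subtrie. -/
noncomputable def T5 : Tr := (.ev (nat_lit 20) (nat_lit 1407521537392720) (.nd (nat_lit 33) (.br (nat_lit 39)
 (.br (nat_lit 19) (.br (nat_lit 8) (.br (nat_lit 4) (.br (nat_lit 3) (.ch (nat_lit 1) (.ev (nat_lit 52)
 (nat_lit 4508891027216416) (.ev (nat_lit 180) (nat_lit 32768) (.ev (nat_lit 224) (nat_lit 803745418249728)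
 .dd)))) (.ch (nat_lit 3) (.ev (nat_lit 52) (nat_lit 4664128327294464) (.ev (nat_lit 276) (nat_lit
 274877906944) (.ev (nat_lit 672) (nat_lit 648233240297504) .dd))))) (.br (nat_lit 5) (.ch (nat_lit 4) (.ev
 (nat_lit 52) (nat_lit 4665571702539808) (.ev (nat_lit 212) (nat_lit 549755813888) (.ev (nat_lit 276) (nat_lit
 32768) (.ev (nat_lit 692) (nat_lit 262144) (.nd (nat_lit 1552) (.br (nat_lit 8) (.br (nat_lit 1) (.ch (nat_lit
 0) (.ev (nat_lit 1568) (nat_lit 8798242734080) (.nd (nat_lit 2128) (.br (nat_lit 5) (.br (nat_lit 2) (.ch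
 (nat_lit 1) (.ev (nat_lit 2144) (nat_lit 637716744116224) .dd)) (.ch (nat_lit 2) (.ev (nat_lit 2144) (nat_lit
 74766790690816) (.ev (nat_lit 2244) (nat_lit 562949953421312) (.ev (nat_lit 2253) (nat_lit 4096) .dd))))) (.br
 (nat_lit 8) (.ch (nat_lit 5) (.ev (nat_lit 2144) (nat_lit 637716744116224) .dd)) (.br (nat_lit 11) (.ch
 (nat_lit 8) (.ev (nat_lit 2144) (nat_lit 562949953425408) (.ev (nat_lit 2644) (nat_lit 70368744177664) (.ev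
 (nat_lit 3702) (nat_lit 4398046513152) .dd)))) (.ch (nat_lit 11) (.ev (nat_lit 2144) (nat_lit 74766790694912)
 (.ev (nat_lit 2157) (nat_lit 562949953421312) .dd))))))))) (.br (nat_lit 5) (.ch (nat_lit 1) (.ev (nat_lit
 1568) (nat_lit 642116940337152) (.nd (nat_lit 2128) (.br (nat_lit 7) (.br (nat_lit 6) (.ch (nat_lit 1) (.ev
 (nat_lit 2144) (nat_lit 4398046511104) (.ev (nat_lit 2157) (nat_lit 2048) .dd))) (.ch (nat_lit 6) (.ev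
 (nat_lit 2144) (nat_lit 4398046511104) (.ev (nat_lit 2157) (nat_lit 2048) .dd)))) (.br (nat_lit 8) (.ch
 (nat_lit 7) (.ev (nat_lit 2144) (nat_lit 2048) (.ev (nat_lit 2157) (nat_lit 4398046511104) .dd))) (.ch
 (nat_lit 8) (.ev (nat_lit 2144) (nat_lit 2048) (.ev (nat_lit 2157) (nat_lit 4398046511104) .dd)))))))) (.ch
 (nat_lit 5) (.ev (nat_lit 1568) (nat_lit 637718893697024) (.nd (nat_lit 2128) (.br (nat_lit 10) (.ch (nat_lit
 8) (.ev (nat_lit 2144) (nat_lit 131072) (.ev (nat_lit 2157) (nat_lit 8796093022208) .dd))) (.ch (nat_lit 10)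
 (.fin (nat_lit 576445908870709811))))))))) (.br (nat_lit 11) (.br (nat_lit 9) (.ch (nat_lit 8) (.ev (nat_lit
 1568) (nat_lit 2149711872) (.ev (nat_lit 2244) (nat_lit 4398046511104) (.ev (nat_lit 2560) (nat_lit
 70368744177664) (.ev (nat_lit 2576) (nat_lit 2048) (.ev (nat_lit 2948) (nat_lit 562949953421312) (.ev (nat_lit
 3008) (nat_lit 8796093022208) (.ev (nat_lit 3021) (nat_lit 4096) .dd)))))))) (.ch (nat_lit 9) (.ev (nat_lit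
 1568) (nat_lit 79164837199872) (.nd (nat_lit 2128) (.br (nat_lit 8) (.br (nat_lit 3) (.ch (nat_lit 1) (.ev
 (nat_lit 2144) (nat_lit 4400196225024) (.ev (nat_lit 2976) (nat_lit 4096) (.ev (nat_lit 2989) (nat_lit
 562949953421312) .dd)))) (.ch (nat_lit 3) (.ev (nat_lit 2144) (nat_lit 4400196229120) (.ev (nat_lit 2157)
 (nat_lit 562949953421312) .dd)))) (.br (nat_lit 10) (.ch (nat_lit 8) (.ev (nat_lit 2144) (nat_lit
 567350147422208) (.ev (nat_lit 2244) (nat_lit 2097152) (.ev (nat_lit 2253) (nat_lit 131072) .dd)))) (.br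
 (nat_lit 12) (.ch (nat_lit 10) (.ev (nat_lit 2144) (nat_lit 567350147549184) (.ev (nat_lit 2244) (nat_lit
 2097152) (.ev (nat_lit 2253) (nat_lit 4096) .dd)))) (.ch (nat_lit 12) (.ev (nat_lit 2480) (nat_lit 131072)
 (.ev (nat_lit 2608) (nat_lit 2097152) (.ev (nat_lit 2880) (nat_lit 562949953421312) (.ev (nat_lit 2960)
 (nat_lit 2147487744) (.ev (nat_lit 3668) (nat_lit 4398046511104) (.ev (nat_lit 3677) (nat_lit 2048)
 .dd)))))))))))))) (.br (nat_lit 12) (.ch (nat_lit 11) (.ev (nat_lit 1568) (nat_lit 633318697734144) (.nd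
 (nat_lit 2128) (.br (nat_lit 4) (.br (nat_lit 2) (.ch (nat_lit 1) (.ev (nat_lit 2144) (nat_lit 8798242605056)
 (.ev (nat_lit 2157) (nat_lit 4398046511104) .dd))) (.ch (nat_lit 2) (.ev (nat_lit 2144) (nat_lit
 4400196093952) (.ev (nat_lit 2157) (nat_lit 8796093022208) .dd)))) (.br (nat_lit 6) (.ch (nat_lit 4) (.ev
 (nat_lit 2144) (nat_lit 4398046513152) (.ev (nat_lit 2244) (nat_lit 8796093022208) (.ev (nat_lit 2768)
 (nat_lit 2097152) (.ev (nat_lit 2781) (nat_lit 2147483648) .dd))))) (.br (nat_lit 12) (.ch (nat_lit 6) (.ev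
 (nat_lit 2144) (nat_lit 8796095119360) (.ev (nat_lit 2176) (nat_lit 2147485696) (.ev (nat_lit 2189) (nat_lit
 4398046511104) .dd)))) (.ch (nat_lit 12) (.ev (nat_lit 2144) (nat_lit 13196289114112) (.ev (nat_lit 2157)
 (nat_lit 2048) .dd))))))))) (.ch (nat_lit 12) (.ev (nat_lit 1568) (nat_lit 576146242672640) (.ev (nat_lit
 1581) (nat_lit 70368744177664) .dd)))))))))))) (.br (nat_lit 7) (.ch (nat_lit 5) (.ev (nat_lit 52) (nat_lit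
 159773054075904) (.ev (nat_lit 116) (nat_lit 65536) (.ev (nat_lit 276) (nat_lit 32) (.ev (nat_lit 820)
 (nat_lit 262144) (.ev (nat_lit 1108) (nat_lit 4503599627370496) (.nd (nat_lit 1552) (.br (nat_lit 8) (.br
 (nat_lit 4) (.ch (nat_lit 0) (.ev (nat_lit 1568) (nat_lit 73119670766080) (.ev (nat_lit 1588) (nat_lit
 4398046511104) (.ev (nat_lit 1764) (nat_lit 8796093022208) (.ev (nat_lit 3088) (nat_lit 4096) (.ev (nat_lit
 3101) (nat_lit 562949953421312) .dd)))))) (.br (nat_lit 5) (.ch (nat_lit 4) (.ev (nat_lit 1568) (nat_lit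
 633870600931840) (.ev (nat_lit 2244) (nat_lit 4398046511104) (.ev (nat_lit 2340) (nat_lit 2199023255552) (.ev
 (nat_lit 2992) (nat_lit 8796093022208) (.ev (nat_lit 3005) (nat_lit 4096) .dd)))))) (.ch (nat_lit 5) (.ev
 (nat_lit 1568) (nat_lit 86311662815744) (.nd (nat_lit 2128) (.br (nat_lit 8) (.br (nat_lit 5) (.ch (nat_lit 4)
 (.ev (nat_lit 2244) (nat_lit 562949953421312) (.ev (nat_lit 2672) (nat_lit 2147483648) (.ev (nat_lit 2685)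
 (nat_lit 4096) .dd)))) (.br (nat_lit 6) (.ch (nat_lit 5) (.ev (nat_lit 2144) (nat_lit 562952100909056) .dd))
 (.ch (nat_lit 6) (.ev (nat_lit 2144) (nat_lit 2147487744) (.ev (nat_lit 2157) (nat_lit 562949953421312)
 .dd))))) (.br (nat_lit 10) (.ch (nat_lit 8) (.ev (nat_lit 2144) (nat_lit 2147483648) (.ev (nat_lit 2244)
 (nat_lit 562949953421312) (.ev (nat_lit 2253) (nat_lit 4096) .dd)))) (.br (nat_lit 12) (.ch (nat_lit 10) (.ev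
 (nat_lit 2144) (nat_lit 562952100909056) .dd)) (.ch (nat_lit 12) (.ev (nat_lit 2144) (nat_lit 562949953421312)
 (.ev (nat_lit 3312) (nat_lit 2147487744) .dd))))))))))) (.br (nat_lit 11) (.ch (nat_lit 8) (.ev (nat_lit 1568)
 (nat_lit 6599217287168) (.ev (nat_lit 2244) (nat_lit 562949953421312) (.ev (nat_lit 2468) (nat_lit
 70368744177664) (.ev (nat_lit 2948) (nat_lit 2048) (.ev (nat_lit 3040) (nat_lit 8796093022208) (.ev (nat_lit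
 3236) (nat_lit 512) (.ev (nat_lit 3245) (nat_lit 549755813888) .dd)))))))) (.br (nat_lit 12) (.ch (nat_lit 11)
 (.ev (nat_lit 1568) (nat_lit 576693848773120) (.nd (nat_lit 2128) (.br (nat_lit 4) (.br (nat_lit 2) (.ch
 (nat_lit 0) (.ev (nat_lit 2144) (nat_lit 72569914918912) (.ev (nat_lit 2157) (nat_lit 32768) .dd))) (.ch
 (nat_lit 2) (.ev (nat_lit 2144) (nat_lit 70370891694080) (.fin (nat_lit 576445908925235763))))) (.br (nat_lit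
 8) (.ch (nat_lit 4) (.ev (nat_lit 2144) (nat_lit 2199023255552) (.ev (nat_lit 2160) (nat_lit 2147485696) (.ev
 (nat_lit 2244) (nat_lit 70368744177664) (.ev (nat_lit 2253) (nat_lit 32768) .dd))))) (.ch (nat_lit 8) (.ev
 (nat_lit 2144) (nat_lit 70368744179712) (.ev (nat_lit 2160) (nat_lit 2201170771968) .dd)))))))) (.ch (nat_lit
 12) (.ev (nat_lit 1568) (nat_lit 648714007910400) (.ev (nat_lit 2688) (nat_lit 549755813888) (.ev (nat_lit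
 2701) (nat_lit 512) .dd)))))))))))))) (.ch (nat_lit 7) (.ev (nat_lit 52) (nat_lit 5279373800541216) (.ev
 (nat_lit 660) (nat_lit 268435456) (.ev (nat_lit 692) (nat_lit 2199023255552) (.ev (nat_lit 820) (nat_lit
 65536) (.ev (nat_lit 1172) (nat_lit 2147483648) (.nd (nat_lit 1552) (.br (nat_lit 6) (.br (nat_lit 5) (.ch
 (nat_lit 4) (.ev (nat_lit 1568) (nat_lit 31061203619840) (.ev (nat_lit 2352) (nat_lit 2097152) (.ev (nat_lit
 2365) (nat_lit 512) .dd)))) (.ch (nat_lit 5) (.ev (nat_lit 1568) (nat_lit 21990234653184) (.nd (nat_lit 2128)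
 (.br (nat_lit 3) (.br (nat_lit 1) (.ch (nat_lit 0) (.ev (nat_lit 2144) (nat_lit 8796093157376) (.ev (nat_lit
 2157) (nat_lit 274877906944) .dd))) (.ch (nat_lit 1) (.ev (nat_lit 2144) (nat_lit 9070970929152) (.ev (nat_lit
 2244) (nat_lit 131072) (.ev (nat_lit 2253) (nat_lit 4096) .dd))))) (.br (nat_lit 10) (.ch (nat_lit 3) (.ev
 (nat_lit 2144) (nat_lit 274878038016) (.ev (nat_lit 2896) (nat_lit 8796093026304) .dd))) (.ch (nat_lit 10)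
 (.ev (nat_lit 2144) (nat_lit 274877911040) (.fin (nat_lit 576476695250813517)))))))))) (.br (nat_lit 8) (.ch
 (nat_lit 6) (.ev (nat_lit 1568) (nat_lit 13194139537920) (.nd (nat_lit 2128) (.br (nat_lit 5) (.br (nat_lit 4)
 (.ch (nat_lit 1) (.ev (nat_lit 2144) (nat_lit 2228224) (.ev (nat_lit 2160) (nat_lit 17867063951360) .dd)))
 (.ch (nat_lit 4) (.ev (nat_lit 2144) (nat_lit 17867066179584) .dd))) (.br (nat_lit 12) (.ch (nat_lit 5) (.ev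
 (nat_lit 2144) (nat_lit 17867066048512) (.ev (nat_lit 2157) (nat_lit 131072) .dd))) (.ch (nat_lit 12) (.ev
 (nat_lit 2144) (nat_lit 17592186175488) (.ev (nat_lit 2736) (nat_lit 274880004096) .dd)))))))) (.br (nat_lit
 12) (.ch (nat_lit 8) (.ev (nat_lit 1568) (nat_lit 9070973161472) (.ev (nat_lit 1588) (nat_lit 512) (.ev
 (nat_lit 2192) (nat_lit 4398046511104) (.ev (nat_lit 2205) (nat_lit 17592186044416) .dd))))) (.ch (nat_lit 12)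
 (.ev (nat_lit 1568) (nat_lit 13469019673088) (.ev (nat_lit 1581) (nat_lit 17592186044416) .dd))))))))))))))))
 (.br (nat_lit 15) (.br (nat_lit 11) (.ch (nat_lit 8) (.ev (nat_lit 52) (nat_lit 4531914470102016) (.ev
 (nat_lit 148) (nat_lit 140737488355328) (.ev (nat_lit 500) (nat_lit 68719476736) (.ev (nat_lit 820) (nat_lit
 2199023255552) (.nd (nat_lit 1552) (.br (nat_lit 4) (.br (nat_lit 1) (.ch (nat_lit 0) (.ev (nat_lit 1568)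
 (nat_lit 198688) (.nd (nat_lit 2128) (.br (nat_lit 11) (.br (nat_lit 8) (.ch (nat_lit 0) (.ev (nat_lit 2144)
 (nat_lit 4398046511616) (.ev (nat_lit 2816) (nat_lit 633318697598976) .dd))) (.ch (nat_lit 8) (.ev (nat_lit
 2144) (nat_lit 567347999932416) (.ev (nat_lit 2548) (nat_lit 70368744177664) (.ev (nat_lit 2557) (nat_lit 512)
 .dd))))) (.br (nat_lit 12) (.ch (nat_lit 11) (.ev (nat_lit 2144) (nat_lit 74766790688768) (.fin (nat_lit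
 576452505974030937)))) (.ch (nat_lit 12) (.ev (nat_lit 2144) (nat_lit 633318697599488) (.ev (nat_lit 2157)
 (nat_lit 4398046511104) .dd)))))))) (.ch (nat_lit 1) (.ev (nat_lit 1568) (nat_lit 637716744110624) (.ev
 (nat_lit 1588) (nat_lit 65536) (.nd (nat_lit 2128) (.br (nat_lit 8) (.br (nat_lit 7) (.ch (nat_lit 3) (.ev
 (nat_lit 2144) (nat_lit 131072) (.ev (nat_lit 2157) (nat_lit 2048) .dd))) (.ch (nat_lit 7) (.ev (nat_lit 2144)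
 (nat_lit 2048) (.ev (nat_lit 2157) (nat_lit 131072) .dd)))) (.br (nat_lit 10) (.ch (nat_lit 8) (.ev (nat_lit
 2176) (nat_lit 133120) .dd)) (.ch (nat_lit 10) (.ev (nat_lit 2144) (nat_lit 133120) .dd))))))))) (.br (nat_lit
 9) (.ch (nat_lit 4) (.ev (nat_lit 1568) (nat_lit 637716744243712) (.ev (nat_lit 3040) (nat_lit 65536) (.ev
 (nat_lit 3053) (nat_lit 32) .dd)))) (.br (nat_lit 11) (.ch (nat_lit 9) (.ev (nat_lit 1568) (nat_lit
 633318697666560) (.nd (nat_lit 2128) (.br (nat_lit 10) (.ch (nat_lit 2) (.ev (nat_lit 2144) (nat_lit 544) (.ev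
 (nat_lit 3040) (nat_lit 4398046642176) .dd))) (.br (nat_lit 12) (.ch (nat_lit 10) (.ev (nat_lit 2144) (nat_lit
 131584) (.ev (nat_lit 3072) (nat_lit 4398046511136) .dd))) (.ch (nat_lit 12) (.ev (nat_lit 2144) (nat_lit
 4398046642208) (.ev (nat_lit 2157) (nat_lit 512) .dd)))))))) (.ch (nat_lit 11) (.ev (nat_lit 1568) (nat_lit
 637716744178208) (.ev (nat_lit 1581) (nat_lit 131072) .dd)))))))))))) (.br (nat_lit 12) (.ch (nat_lit 11) (.ev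
 (nat_lit 52) (nat_lit 575663325415424) (.ev (nat_lit 532) (nat_lit 4096) (.ev (nat_lit 1012) (nat_lit
 4398046511104) (.ev (nat_lit 1044) (nat_lit 140737488355328) (.ev (nat_lit 1396) (nat_lit 17592186044416) (.ev
 (nat_lit 1520) (nat_lit 70368744177664) (.nd (nat_lit 1552) (.br (nat_lit 5) (.br (nat_lit 1) (.ch (nat_lit 0)
 (.ev (nat_lit 1568) (nat_lit 4503601777083424) (.nd (nat_lit 2128) (.br (nat_lit 8) (.br (nat_lit 2) (.ch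
 (nat_lit 0) (.ev (nat_lit 2144) (nat_lit 512) (.ev (nat_lit 2157) (nat_lit 274877906944) .dd))) (.ch (nat_lit
 2) (.ev (nat_lit 2144) (nat_lit 274877906944) (.ev (nat_lit 2157) (nat_lit 512) .dd)))) (.br (nat_lit 11) (.ch
 (nat_lit 8) (.ev (nat_lit 2144) (nat_lit 274877907456) .dd)) (.br (nat_lit 12) (.ch (nat_lit 11) (.ev (nat_lit
 2144) (nat_lit 512) (.ev (nat_lit 2157) (nat_lit 274877906944) .dd))) (.ch (nat_lit 12) (.ev (nat_lit 2144)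
 (nat_lit 512) (.ev (nat_lit 2157) (nat_lit 274877906944) .dd))))))))) (.br (nat_lit 4) (.ch (nat_lit 1) (.ev
 (nat_lit 1568) (nat_lit 4503876652893696) (.nd (nat_lit 2128) (.br (nat_lit 4) (.br (nat_lit 3) (.ch (nat_lit
 0) (.ev (nat_lit 2340) (nat_lit 2097152) (.ev (nat_lit 2349) (nat_lit 32) .dd))) (.ch (nat_lit 3) (.ev
 (nat_lit 2144) (nat_lit 2097152) (.ev (nat_lit 2157) (nat_lit 32) .dd)))) (.br (nat_lit 7) (.ch (nat_lit 4)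
 (.ev (nat_lit 2144) (nat_lit 32) (.ev (nat_lit 2157) (nat_lit 2097152) .dd))) (.br (nat_lit 8) (.ch (nat_lit
 7) (.ev (nat_lit 2144) (nat_lit 2097184) .dd)) (.ch (nat_lit 8) (.ev (nat_lit 2144) (nat_lit 2097184)
 .dd)))))))) (.ch (nat_lit 4) (.ev (nat_lit 1568) (nat_lit 277025523232) (.ev (nat_lit 3584) (nat_lit
 4503599629467648) .dd))))) (.br (nat_lit 6) (.ch (nat_lit 5) (.ev (nat_lit 1568) (nat_lit 2149581344) (.nd
 (nat_lit 2128) (.br (nat_lit 8) (.br (nat_lit 3) (.ch (nat_lit 1) (.ev (nat_lit 2144) (nat_lit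
 4503874505408512) (.ev (nat_lit 2157) (nat_lit 1024) .dd))) (.br (nat_lit 5) (.ch (nat_lit 3) (.ev (nat_lit
 2144) (nat_lit 274878039040) (.ev (nat_lit 2157) (nat_lit 4503599627370496) .dd))) (.ch (nat_lit 5) (.ev
 (nat_lit 2144) (nat_lit 4503599627502592) (.ev (nat_lit 2157) (nat_lit 274877906944) .dd))))) (.br (nat_lit
 10) (.ch (nat_lit 8) (.ev (nat_lit 2144) (nat_lit 4503874505408512) (.ev (nat_lit 2157) (nat_lit 1024) .dd)))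
 (.br (nat_lit 12) (.ch (nat_lit 10) (.ev (nat_lit 2144) (nat_lit 4503599627371520) (.ev (nat_lit 2160)
 (nat_lit 274878038016) .dd))) (.ch (nat_lit 12) (.ev (nat_lit 2144) (nat_lit 4503599627502592) (.ev (nat_lit
 2157) (nat_lit 274877906944) .dd))))))))) (.br (nat_lit 9) (.ch (nat_lit 6) (.ev (nat_lit 1568) (nat_lit
 277027488288) (.ev (nat_lit 2960) (nat_lit 4503599627370496) (.ev (nat_lit 2976) (nat_lit 131072) (.ev
 (nat_lit 2989) (nat_lit 1024) .dd))))) (.ch (nat_lit 9) (.ev (nat_lit 1568) (nat_lit 4503599627502592) (.ev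
 (nat_lit 1856) (nat_lit 32) (.ev (nat_lit 2480) (nat_lit 2147483648) (.ev (nat_lit 2548) (nat_lit 2097152)
 (.ev (nat_lit 3056) (nat_lit 274877906944) (.ev (nat_lit 3069) (nat_lit 512) .dd)))))))))))))))))) (.ch
 (nat_lit 12) (.ev (nat_lit 52) (nat_lit 4521194229828128) (.ev (nat_lit 116) (nat_lit 562949953421312) (.ev
 (nat_lit 180) (nat_lit 68719476736) (.ev (nat_lit 800) (nat_lit 228423542772736) .dd))))))) (.br (nat_lit 16)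
 (.ch (nat_lit 15) (.ev (nat_lit 52) (nat_lit 222170068714016) (.ev (nat_lit 436) (nat_lit 4398046511104) (.ev
 (nat_lit 564) (nat_lit 4096) (.ev (nat_lit 628) (nat_lit 2097152) (.ev (nat_lit 692) (nat_lit 274877906944)
 (.ev (nat_lit 980) (nat_lit 2147483648) (.nd (nat_lit 1552) (.br (nat_lit 9) (.br (nat_lit 4) (.ch (nat_lit 0)
 (.ev (nat_lit 1568) (nat_lit 5085791302714368) (.nd (nat_lit 2128) (.br (nat_lit 5) (.br (nat_lit 2) (.ch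
 (nat_lit 1) (.ev (nat_lit 2144) (nat_lit 65536) (.ev (nat_lit 2157) (nat_lit 2048) .dd))) (.ch (nat_lit 2)
 (.ev (nat_lit 2144) (nat_lit 2048) (.ev (nat_lit 2157) (nat_lit 65536) .dd)))) (.br (nat_lit 8) (.ch (nat_lit
 5) (.ev (nat_lit 2144) (nat_lit 67584) .dd)) (.ch (nat_lit 8) (.ev (nat_lit 2144) (nat_lit 65536) (.ev
 (nat_lit 2157) (nat_lit 2048) .dd)))))))) (.br (nat_lit 5) (.ch (nat_lit 4) (.ev (nat_lit 1568) (nat_lit
 564049465117696) (.ev (nat_lit 2160) (nat_lit 17592186044416) (.ev (nat_lit 2244) (nat_lit 4504149383184384)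
 (.ev (nat_lit 2253) (nat_lit 268435456) .dd))))) (.ch (nat_lit 5) (.ev (nat_lit 1568) (nat_lit
 4522291593546752) (.ev (nat_lit 1942) (nat_lit 562949953421312) (.ev (nat_lit 1949) (nat_lit 549755813888)
 .dd)))))) (.br (nat_lit 11) (.ch (nat_lit 9) (.ev (nat_lit 1568) (nat_lit 5084691522716672) (.ev (nat_lit
 2468) (nat_lit 268435456) (.ev (nat_lit 2992) (nat_lit 1099511627776) (.ev (nat_lit 3005) (nat_lit 2048)
 .dd))))) (.br (nat_lit 12) (.ch (nat_lit 11) (.ev (nat_lit 1568) (nat_lit 5067099605108736) (.nd (nat_lit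
 2128) (.br (nat_lit 5) (.br (nat_lit 3) (.ch (nat_lit 2) (.ev (nat_lit 2144) (nat_lit 1099511628800) (.ev
 (nat_lit 2157) (nat_lit 17592186044416) .dd))) (.br (nat_lit 4) (.ch (nat_lit 3) (.ev (nat_lit 2144) (nat_lit
 18691697672192) (.ev (nat_lit 2157) (nat_lit 1024) .dd))) (.ch (nat_lit 4) (.ev (nat_lit 2144) (nat_lit
 1099511627776) (.ev (nat_lit 2256) (nat_lit 1024) (.ev (nat_lit 2269) (nat_lit 17592186044416) .dd)))))) (.br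
 (nat_lit 6) (.ch (nat_lit 5) (.ev (nat_lit 2144) (nat_lit 17592186045440) (.ev (nat_lit 2157) (nat_lit
 1099511627776) .dd))) (.br (nat_lit 12) (.ch (nat_lit 6) (.ev (nat_lit 2144) (nat_lit 1099511628800) (.ev
 (nat_lit 2157) (nat_lit 17592186044416) .dd))) (.ch (nat_lit 12) (.ev (nat_lit 2144) (nat_lit 17592186044416)
 (.ev (nat_lit 2352) (nat_lit 1024) (.ev (nat_lit 2365) (nat_lit 1099511627776) .dd)))))))))) (.ch (nat_lit 12)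
 (.ev (nat_lit 1568) (nat_lit 563499709302784) (.nd (nat_lit 2128) (.br (nat_lit 9) (.ch (nat_lit 4) (.ev
 (nat_lit 2144) (nat_lit 4503599627370496) (.ev (nat_lit 2244) (nat_lit 1024) (.ev (nat_lit 2272) (nat_lit
 17592186044416) (.ev (nat_lit 2976) (nat_lit 1099511627776) (.ev (nat_lit 2989) (nat_lit 268435456) .dd))))))
 (.br (nat_lit 12) (.ch (nat_lit 9) (.ev (nat_lit 2144) (nat_lit 4503599895806976) (.ev (nat_lit 2528) (nat_lit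
 1099511627776) (.ev (nat_lit 2541) (nat_lit 17592186044416) .dd)))) (.ch (nat_lit 12) (.ev (nat_lit 2144)
 (nat_lit 268436480) (.ev (nat_lit 2608) (nat_lit 17592186044416) (.ev (nat_lit 3040) (nat_lit
 4504699138998272) .dd)))))))))))))))))))) (.br (nat_lit 18) (.ch (nat_lit 16) (.ev (nat_lit 52) (nat_lit
 5076445188000800) (.ev (nat_lit 148) (nat_lit 4398046511104) (.ev (nat_lit 500) (nat_lit 32768) (.ev (nat_lit
 756) (nat_lit 4096) (.ev (nat_lit 916) (nat_lit 140737488355328) (.nd (nat_lit 1552) (.br (nat_lit 5) (.br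
 (nat_lit 1) (.ch (nat_lit 0) (.ev (nat_lit 1568) (nat_lit 20343381032960) (.ev (nat_lit 1972) (nat_lit
 274877906944) (.ev (nat_lit 2340) (nat_lit 68719476736) (.ev (nat_lit 2656) (nat_lit 512) (.ev (nat_lit 2669)
 (nat_lit 70368744177664) .dd)))))) (.br (nat_lit 4) (.ch (nat_lit 1) (.ev (nat_lit 1568) (nat_lit
 90987003118080) (.ev (nat_lit 1581) (nat_lit 68719476736) .dd))) (.ch (nat_lit 4) (.ev (nat_lit 1568) (nat_lit
 70714489044992) (.ev (nat_lit 2256) (nat_lit 512) (.ev (nat_lit 3056) (nat_lit 549755813888) (.ev (nat_lit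
 3236) (nat_lit 17592186044416) (.fin (nat_lit 576483292289122911))))))))) (.br (nat_lit 6) (.ch (nat_lit 5)
 (.ev (nat_lit 1568) (nat_lit 90436978868736) (.ev (nat_lit 1588) (nat_lit 68719476736) (.ev (nat_lit 3136)
 (nat_lit 549755813888) (.ev (nat_lit 3149) (nat_lit 268435456) .dd))))) (.br (nat_lit 8) (.ch (nat_lit 6) (.ev
 (nat_lit 1568) (nat_lit 3023656976896) (.ev (nat_lit 1588) (nat_lit 268435456) (.nd (nat_lit 2128) (.br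
 (nat_lit 5) (.br (nat_lit 4) (.ch (nat_lit 1) (.ev (nat_lit 2144) (nat_lit 70370891661312) (.ev (nat_lit 2468)
 (nat_lit 17592186044416) (.ev (nat_lit 2477) (nat_lit 68719476736) .dd)))) (.ch (nat_lit 4) (.ev (nat_lit
 2144) (nat_lit 87963077705728) (.ev (nat_lit 2157) (nat_lit 68719476736) .dd)))) (.br (nat_lit 10) (.ch
 (nat_lit 5) (.ev (nat_lit 2144) (nat_lit 88029649698816) (.ev (nat_lit 2157) (nat_lit 2147483648) .dd))) (.br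
 (nat_lit 12) (.ch (nat_lit 10) (.ev (nat_lit 2144) (nat_lit 17660905521152) (.ev (nat_lit 2304) (nat_lit
 2147483648) (.ev (nat_lit 2317) (nat_lit 70368744177664) .dd)))) (.ch (nat_lit 12) (.ev (nat_lit 2144)
 (nat_lit 70437463654400) (.ev (nat_lit 2468) (nat_lit 17592186044416) (.ev (nat_lit 2477) (nat_lit 2147483648)
 .dd))))))))))) (.ch (nat_lit 8) (.ev (nat_lit 1568) (nat_lit 72911633252352) (.ev (nat_lit 2176) (nat_lit
 549755813888) (.ev (nat_lit 2352) (nat_lit 2147483648) (.ev (nat_lit 3104) (nat_lit 17592186044928)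
 .dd))))))))))))))) (.ch (nat_lit 18) (.ev (nat_lit 52) (nat_lit 4600700518567936) (.ev (nat_lit 308) (nat_lit
 65536) (.ev (nat_lit 480) (nat_lit 711935926865440) .dd)))))))) (.br (nat_lit 29) (.br (nat_lit 23) (.br
 (nat_lit 22) (.ch (nat_lit 19) (.ev (nat_lit 52) (nat_lit 592362160490496) (.ev (nat_lit 308) (nat_lit
 68719476736) (.ev (nat_lit 596) (nat_lit 512) (.ev (nat_lit 692) (nat_lit 4398046511104) (.ev (nat_lit 724)
 (nat_lit 2147483648) (.ev (nat_lit 1140) (nat_lit 4503599627370496) (.nd (nat_lit 1552) (.br (nat_lit 6) (.br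
 (nat_lit 1) (.ch (nat_lit 0) (.ev (nat_lit 1568) (nat_lit 141836999984128) (.nd (nat_lit 2128) (.br (nat_lit
 5) (.br (nat_lit 2) (.ch (nat_lit 1) (.ev (nat_lit 2144) (nat_lit 70368744181792) .dd)) (.br (nat_lit 4) (.ch
 (nat_lit 2) (.ev (nat_lit 2144) (nat_lit 70368744177664) (.fin (nat_lit 576461302049227332)))) (.ch (nat_lit
 4) (.ev (nat_lit 2144) (nat_lit 4096) (.ev (nat_lit 2244) (nat_lit 32) (.ev (nat_lit 2253) (nat_lit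
 70368744177664) .dd)))))) (.br (nat_lit 9) (.ch (nat_lit 5) (.ev (nat_lit 2144) (nat_lit 70368744181760) (.ev
 (nat_lit 2157) (nat_lit 32) .dd))) (.br (nat_lit 12) (.ch (nat_lit 9) (.ev (nat_lit 2144) (nat_lit
 70368744181792) .dd)) (.ch (nat_lit 12) (.ev (nat_lit 2144) (nat_lit 70368744177696) (.ev (nat_lit 2157)
 (nat_lit 4096) .dd))))))))) (.br (nat_lit 4) (.ch (nat_lit 1) (.ev (nat_lit 1568) (nat_lit 71468255809568)
 (.nd (nat_lit 2128) (.br (nat_lit 4) (.br (nat_lit 2) (.ch (nat_lit 0) (.ev (nat_lit 2144) (nat_lit 1024) (.ev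
 (nat_lit 2157) (nat_lit 140737488355328) .dd))) (.br (nat_lit 3) (.ch (nat_lit 2) (.ev (nat_lit 2144) (nat_lit
 1024) (.ev (nat_lit 2157) (nat_lit 140737488355328) .dd))) (.ch (nat_lit 3) (.ev (nat_lit 2144) (nat_lit
 140737488355328) (.ev (nat_lit 2157) (nat_lit 1024) .dd))))) (.br (nat_lit 6) (.ch (nat_lit 4) (.ev (nat_lit
 2144) (nat_lit 140737488356352) .dd)) (.br (nat_lit 10) (.ch (nat_lit 6) (.ev (nat_lit 2144) (nat_lit
 140737488355328) (.ev (nat_lit 2157) (nat_lit 1024) .dd))) (.ch (nat_lit 10) (.ev (nat_lit 2144) (nat_lit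
 140737488356352) .dd)))))))) (.ch (nat_lit 4) (.ev (nat_lit 1568) (nat_lit 212205744161824) (.ev (nat_lit
 1581) (nat_lit 4096) .dd))))) (.br (nat_lit 9) (.ch (nat_lit 6) (.ev (nat_lit 1568) (nat_lit 32) (.ev (nat_lit
 1588) (nat_lit 140737488355328) (.nd (nat_lit 2128) (.br (nat_lit 8) (.br (nat_lit 1) (.ch (nat_lit 0) (.ev
 (nat_lit 2144) (nat_lit 1099511627776) (.ev (nat_lit 2192) (nat_lit 4096) (.ev (nat_lit 2340) (nat_lit 1024)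
 (.ev (nat_lit 2349) (nat_lit 70368744177664) .dd))))) (.br (nat_lit 5) (.ch (nat_lit 1) (.ev (nat_lit 2144)
 (nat_lit 70368744178688) (.ev (nat_lit 2656) (nat_lit 1099511627776) (.ev (nat_lit 2669) (nat_lit 4096)
 .dd)))) (.ch (nat_lit 5) (.ev (nat_lit 2144) (nat_lit 70368744178688) (.ev (nat_lit 2256) (nat_lit 4096) (.ev
 (nat_lit 2269) (nat_lit 1099511627776) .dd)))))) (.br (nat_lit 10) (.ch (nat_lit 8) (.ev (nat_lit 2144)
 (nat_lit 71468255806464) (.ev (nat_lit 2157) (nat_lit 4096) .dd))) (.br (nat_lit 12) (.ch (nat_lit 10) (.ev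
 (nat_lit 2144) (nat_lit 71468255810560) .dd)) (.ch (nat_lit 12) (.ev (nat_lit 2144) (nat_lit 1099511627776)
 (.ev (nat_lit 2340) (nat_lit 1024) (.ev (nat_lit 2976) (nat_lit 70368744177664) (.ev (nat_lit 2989) (nat_lit
 4096) .dd)))))))))))) (.br (nat_lit 11) (.ch (nat_lit 9) (.ev (nat_lit 1568) (nat_lit 71468255806464) (.ev
 (nat_lit 3236) (nat_lit 4096) (.ev (nat_lit 3392) (nat_lit 140737488355360) .dd)))) (.ch (nat_lit 11) (.ev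
 (nat_lit 1568) (nat_lit 211106232537120) (.nd (nat_lit 2128) (.br (nat_lit 5) (.br (nat_lit 2) (.ch (nat_lit
 1) (.ev (nat_lit 2144) (nat_lit 1024) (.ev (nat_lit 2157) (nat_lit 1099511627776) .dd))) (.br (nat_lit 3) (.ch
 (nat_lit 2) (.ev (nat_lit 2144) (nat_lit 1099511627776) (.ev (nat_lit 2157) (nat_lit 1024) .dd))) (.ch
 (nat_lit 3) (.ev (nat_lit 2176) (nat_lit 1024) (.ev (nat_lit 2189) (nat_lit 1099511627776) .dd))))) (.br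
 (nat_lit 8) (.ch (nat_lit 5) (.ev (nat_lit 2144) (nat_lit 1099511628800) .dd)) (.br (nat_lit 12) (.ch (nat_lit
 8) (.ev (nat_lit 2144) (nat_lit 1099511627776) (.ev (nat_lit 2157) (nat_lit 1024) .dd))) (.ch (nat_lit 12)
 (.ev (nat_lit 2144) (nat_lit 1099511628800) .dd))))))))))))))))))) (.ch (nat_lit 22) (.ev (nat_lit 52)
 (nat_lit 729528112546304) (.ev (nat_lit 84) (nat_lit 2048) (.ev (nat_lit 244) (nat_lit 68719476736) (.ev
 (nat_lit 308) (nat_lit 262144) (.ev (nat_lit 500) (nat_lit 8796093087744) (.nd (nat_lit 1552) (.br (nat_lit 8)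
 (.br (nat_lit 5) (.ch (nat_lit 1) (.ev (nat_lit 1568) (nat_lit 4574243517890560) (.ev (nat_lit 1588) (nat_lit
 4096) (.nd (nat_lit 2128) (.br (nat_lit 7) (.br (nat_lit 4) (.ch (nat_lit 2) (.ev (nat_lit 2144) (nat_lit
 1056) (.ev (nat_lit 2244) (nat_lit 2097152) (.ev (nat_lit 2253) (nat_lit 131072) .dd)))) (.ch (nat_lit 4) (.ev
 (nat_lit 2144) (nat_lit 132128) (.ev (nat_lit 2157) (nat_lit 2097152) .dd)))) (.br (nat_lit 8) (.ch (nat_lit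
 7) (.ev (nat_lit 2144) (nat_lit 2097184) (.ev (nat_lit 2244) (nat_lit 131072) (.ev (nat_lit 2253) (nat_lit
 1024) .dd)))) (.br (nat_lit 10) (.ch (nat_lit 8) (.ev (nat_lit 2144) (nat_lit 2228256) (.ev (nat_lit 2157)
 (nat_lit 1024) .dd))) (.ch (nat_lit 10) (.ev (nat_lit 2144) (nat_lit 1024) (.ev (nat_lit 2160) (nat_lit
 2097152) (.ev (nat_lit 2244) (nat_lit 32) (.ev (nat_lit 2253) (nat_lit 131072) .dd)))))))))))) (.br (nat_lit
 6) (.ch (nat_lit 5) (.ev (nat_lit 1568) (nat_lit 4574243251683360) (.ev (nat_lit 1588) (nat_lit 1024) (.ev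
 (nat_lit 2102) (nat_lit 268435456) (.ev (nat_lit 2109) (nat_lit 4096) .dd))))) (.ch (nat_lit 6) (.ev (nat_lit
 1568) (nat_lit 70643622089760) (.nd (nat_lit 2128) (.br (nat_lit 3) (.br (nat_lit 1) (.ch (nat_lit 0) (.ev
 (nat_lit 2144) (nat_lit 4503599897903104) (.ev (nat_lit 2157) (nat_lit 131072) .dd))) (.ch (nat_lit 1) (.ev
 (nat_lit 2144) (nat_lit 4503599627501568) (.ev (nat_lit 2160) (nat_lit 270532608) .dd)))) (.br (nat_lit 7)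
 (.ch (nat_lit 3) (.ev (nat_lit 2144) (nat_lit 270663680) (.ev (nat_lit 2157) (nat_lit 4503599627370496) .dd)))
 (.br (nat_lit 12) (.ch (nat_lit 7) (.ev (nat_lit 2144) (nat_lit 270532608) (.ev (nat_lit 2992) (nat_lit
 4503599627370496) (.ev (nat_lit 3005) (nat_lit 131072) .dd)))) (.ch (nat_lit 12) (.ev (nat_lit 2144) (nat_lit
 268435456) (.ev (nat_lit 2480) (nat_lit 4503599627370496) (.ev (nat_lit 2948) (nat_lit 2097152) (.ev (nat_lit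
 2957) (nat_lit 131072) .dd))))))))))))) (.br (nat_lit 9) (.ch (nat_lit 8) (.ev (nat_lit 1568) (nat_lit
 4574243520122912) (.ev (nat_lit 1581) (nat_lit 1024) .dd))) (.br (nat_lit 12) (.ch (nat_lit 9) (.ev (nat_lit
 1568) (nat_lit 70368746275872) (.nd (nat_lit 2128) (.br (nat_lit 10) (.br (nat_lit 4) (.ch (nat_lit 1) (.ev
 (nat_lit 2144) (nat_lit 4503874505408512) (.ev (nat_lit 2948) (nat_lit 268435456) (.ev (nat_lit 2957) (nat_lit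
 4096) .dd)))) (.br (nat_lit 8) (.ch (nat_lit 4) (.ev (nat_lit 2144) (nat_lit 4503874505412608) (.ev (nat_lit
 2157) (nat_lit 268435456) .dd))) (.ch (nat_lit 8) (.ev (nat_lit 2144) (nat_lit 4503874773716992) (.ev (nat_lit
 2157) (nat_lit 131072) .dd))))) (.br (nat_lit 11) (.ch (nat_lit 10) (.ev (nat_lit 2144) (nat_lit
 4503874773848064) .dd)) (.br (nat_lit 12) (.ch (nat_lit 11) (.ev (nat_lit 2144) (nat_lit 4503599627374592)
 (.ev (nat_lit 2192) (nat_lit 268435456) (.ev (nat_lit 2816) (nat_lit 274878038016) .dd)))) (.ch (nat_lit 12)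
 (.ev (nat_lit 2144) (nat_lit 268566528) (.ev (nat_lit 2704) (nat_lit 4503599627370496) (.fin (nat_lit
 576450306961261139))))))))))) (.ch (nat_lit 12) (.ev (nat_lit 1568) (nat_lit 275148574720) (.ev (nat_lit 1888)
 (nat_lit 32) (.ev (nat_lit 2548) (nat_lit 1024) (.ev (nat_lit 2560) (nat_lit 4503599627370496) (.ev (nat_lit
 2573) (nat_lit 70368744177664) .dd))))))))))))))))) (.br (nat_lit 24) (.ch (nat_lit 23) (.ev (nat_lit 52)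
 (nat_lit 4659730278652416) (.ev (nat_lit 116) (nat_lit 68719476736) (.ev (nat_lit 256) (nat_lit
 652837447369760) .dd)))) (.br (nat_lit 26) (.ch (nat_lit 24) (.ev (nat_lit 52) (nat_lit 244160300910112) (.ev
 (nat_lit 340) (nat_lit 2147483648) (.ev (nat_lit 532) (nat_lit 1099511627776) (.ev (nat_lit 724) (nat_lit
 131072) (.ev (nat_lit 992) (nat_lit 5067374485346304) .dd)))))) (.ch (nat_lit 26) (.ev (nat_lit 52) (nat_lit
 5212786775228416) (.ev (nat_lit 308) (nat_lit 1024) (.ev (nat_lit 340) (nat_lit 268435456) (.ev (nat_lit 660)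
 (nat_lit 70368744177664) (.ev (nat_lit 852) (nat_lit 68719476736) (.ev (nat_lit 948) (nat_lit 274877906944)
 (.nd (nat_lit 1552) (.br (nat_lit 6) (.br (nat_lit 5) (.ch (nat_lit 0) (.ev (nat_lit 1568) (nat_lit
 18141943960096) (.ev (nat_lit 1648) (nat_lit 2199023255552) (.ev (nat_lit 2176) (nat_lit 8796093022208) (.ev
 (nat_lit 2512) (nat_lit 2048) (.ev (nat_lit 2525) (nat_lit 32768) .dd)))))) (.ch (nat_lit 5) (.ev (nat_lit
 1568) (nat_lit 20340967246368) (.nd (nat_lit 2128) (.br (nat_lit 8) (.br (nat_lit 4) (.ch (nat_lit 0) (.ev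
 (nat_lit 2144) (nat_lit 8796093022208) (.ev (nat_lit 2157) (nat_lit 4096) .dd))) (.ch (nat_lit 4) (.ev
 (nat_lit 2256) (nat_lit 8796093026304) .dd))) (.br (nat_lit 12) (.ch (nat_lit 8) (.ev (nat_lit 2144) (nat_lit
 8796093026304) .dd)) (.ch (nat_lit 12) (.ev (nat_lit 2144) (nat_lit 8796093022208) (.ev (nat_lit 2157)
 (nat_lit 4096) .dd))))))))) (.br (nat_lit 11) (.ch (nat_lit 6) (.ev (nat_lit 1568) (nat_lit 11544874224160)
 (.ev (nat_lit 2160) (nat_lit 17592186044416) (.ev (nat_lit 2173) (nat_lit 4096) .dd)))) (.br (nat_lit 12) (.ch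
 (nat_lit 11) (.ev (nat_lit 1568) (nat_lit 11544872096288) (.nd (nat_lit 2128) (.br (nat_lit 6) (.br (nat_lit
 2) (.ch (nat_lit 1) (.ev (nat_lit 2144) (nat_lit 17592186079232) (.ev (nat_lit 2157) (nat_lit 2097152) .dd)))
 (.br (nat_lit 5) (.ch (nat_lit 2) (.ev (nat_lit 2144) (nat_lit 17592188174336) (.ev (nat_lit 2157) (nat_lit
 2048) .dd))) (.ch (nat_lit 5) (.ev (nat_lit 2144) (nat_lit 17592188174336) (.ev (nat_lit 2157) (nat_lit 2048)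
 .dd))))) (.br (nat_lit 8) (.ch (nat_lit 6) (.ev (nat_lit 2144) (nat_lit 17592188176384) .dd)) (.br (nat_lit
 12) (.ch (nat_lit 8) (.ev (nat_lit 2144) (nat_lit 2099200) (.ev (nat_lit 2256) (nat_lit 17592186044416) (.ev
 (nat_lit 2269) (nat_lit 32768) .dd)))) (.ch (nat_lit 12) (.ev (nat_lit 2144) (nat_lit 17592188174336) (.ev
 (nat_lit 2157) (nat_lit 2048) .dd))))))))) (.ch (nat_lit 12) (.ev (nat_lit 1568) (nat_lit 28587304423424) (.nd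
 (nat_lit 2128) (.br (nat_lit 11) (.br (nat_lit 5) (.ch (nat_lit 4) (.ev (nat_lit 2144) (nat_lit 32) (.ev
 (nat_lit 2256) (nat_lit 512) (.ev (nat_lit 2644) (nat_lit 549755813888) (.ev (nat_lit 3104) (nat_lit 34816)
 .dd))))) (.ch (nat_lit 5) (.ev (nat_lit 2144) (nat_lit 2560) (.ev (nat_lit 2176) (nat_lit 32768) (.ev (nat_lit
 2244) (nat_lit 549755813888) (.ev (nat_lit 2253) (nat_lit 32) .dd)))))) (.br (nat_lit 12) (.ch (nat_lit 11)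
 (.ev (nat_lit 2144) (nat_lit 33280) (.ev (nat_lit 2244) (nat_lit 32) (.ev (nat_lit 2948) (nat_lit
 549755813888) (.ev (nat_lit 2957) (nat_lit 2048) .dd))))) (.ch (nat_lit 12) (.ev (nat_lit 2144) (nat_lit
 549755813888) (.ev (nat_lit 2244) (nat_lit 32) (.ev (nat_lit 2352) (nat_lit 512) (.ev (nat_lit 2960) (nat_lit
 2048) (.ev (nat_lit 2973) (nat_lit 32768) .dd))))))))))))))))))))))))) (.br (nat_lit 34) (.br (nat_lit 31)
 (.ch (nat_lit 29) (.ev (nat_lit 52) (nat_lit 4592179301613568) (.ev (nat_lit 96) (nat_lit 720457143885344)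
 .dd))) (.br (nat_lit 33) (.ch (nat_lit 31) (.ev (nat_lit 52) (nat_lit 81091132457504) (.ev (nat_lit 180)
 (nat_lit 2199023255552) (.ev (nat_lit 500) (nat_lit 4398046511104) (.ev (nat_lit 628) (nat_lit 268435456) (.ev
 (nat_lit 852) (nat_lit 32768) (.ev (nat_lit 980) (nat_lit 131072) (.ev (nat_lit 1300) (nat_lit 4096) (.nd
 (nat_lit 1552) (.br (nat_lit 8) (.br (nat_lit 5) (.ch (nat_lit 0) (.ev (nat_lit 1568) (nat_lit
 5224879255194624) (.ev (nat_lit 1581) (nat_lit 68719476736) .dd))) (.br (nat_lit 6) (.ch (nat_lit 5) (.ev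
 (nat_lit 1568) (nat_lit 5084141766839296) (.nd (nat_lit 2128) (.br (nat_lit 5) (.br (nat_lit 1) (.ch (nat_lit
 0) (.ev (nat_lit 2144) (nat_lit 140737488355328) (.ev (nat_lit 2157) (nat_lit 68719476736) .dd))) (.ch
 (nat_lit 1) (.ev (nat_lit 2144) (nat_lit 68719476736) (.ev (nat_lit 2157) (nat_lit 140737488355328) .dd))))
 (.br (nat_lit 12) (.ch (nat_lit 5) (.ev (nat_lit 3568) (nat_lit 140806207832064) .dd)) (.ch (nat_lit 12) (.ev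
 (nat_lit 2144) (nat_lit 140806207832064) .dd))))))) (.ch (nat_lit 6) (.ev (nat_lit 1568) (nat_lit
 17660905523200) (.ev (nat_lit 2948) (nat_lit 562949953421312) (.ev (nat_lit 2976) (nat_lit 140737488355328)
 (.ev (nat_lit 3120) (nat_lit 4503599627370496) (.ev (nat_lit 3133) (nat_lit 1024) .dd)))))))) (.br (nat_lit 9)
 (.ch (nat_lit 8) (.ev (nat_lit 1568) (nat_lit 140806207833088) (.ev (nat_lit 1588) (nat_lit 17592186044416)
 (.ev (nat_lit 2352) (nat_lit 2048) (.ev (nat_lit 3088) (nat_lit 562949953421312) (.ev (nat_lit 3101) (nat_lit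
 4503599627370496) .dd)))))) (.br (nat_lit 12) (.ch (nat_lit 9) (.ev (nat_lit 1568) (nat_lit 703687441777664)
 (.ev (nat_lit 2052) (nat_lit 68719476736) (.ev (nat_lit 2340) (nat_lit 4503599627370496) (.nd (nat_lit 3744)
 (.br (nat_lit 10) (.ch (nat_lit 2) (.fin (nat_lit 576461302042935864))) (.ch (nat_lit 10) (.ev (nat_lit 3760)
 (nat_lit 17592186046464) .dd)))))))) (.ch (nat_lit 12) (.ev (nat_lit 1568) (nat_lit 5066618300269568) (.ev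
 (nat_lit 1796) (nat_lit 17592186044416) (.ev (nat_lit 2468) (nat_lit 2048) (.ev (nat_lit 2477) (nat_lit
 140737488355328) .dd))))))))))))))))) (.ch (nat_lit 33) (.ev (nat_lit 52) (nat_lit 5098779283820576) (.ev
 (nat_lit 148) (nat_lit 65536) (.ev (nat_lit 180) (nat_lit 262144) (.ev (nat_lit 340) (nat_lit 131072) (.ev
 (nat_lit 628) (nat_lit 70368744177664) (.ev (nat_lit 756) (nat_lit 512) (.ev (nat_lit 1044) (nat_lit 1024)
 (.nd (nat_lit 1552) (.br (nat_lit 8) (.br (nat_lit 4) (.ch (nat_lit 1) (.ev (nat_lit 1568) (nat_lit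
 141289393752064) (.nd (nat_lit 2128) (.br (nat_lit 6) (.br (nat_lit 4) (.ch (nat_lit 3) (.ev (nat_lit 2144)
 (nat_lit 32768) (.ev (nat_lit 2157) (nat_lit 2199023255552) .dd))) (.ch (nat_lit 4) (.ev (nat_lit 2144)
 (nat_lit 2199023288320) .dd))) (.br (nat_lit 8) (.ch (nat_lit 6) (.ev (nat_lit 2144) (nat_lit 32768) (.ev
 (nat_lit 2157) (nat_lit 2199023255552) .dd))) (.ch (nat_lit 8) (.ev (nat_lit 2144) (nat_lit 2199023255552)
 (.ev (nat_lit 2157) (nat_lit 32768) .dd)))))))) (.br (nat_lit 6) (.ch (nat_lit 4) (.ev (nat_lit 1568) (nat_lit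
 142938659129344) (.ev (nat_lit 2160) (nat_lit 2097152) (.ev (nat_lit 2173) (nat_lit 549755813888) .dd)))) (.ch
 (nat_lit 6) (.ev (nat_lit 1568) (nat_lit 140737488390144) (.nd (nat_lit 2128) (.br (nat_lit 7) (.br (nat_lit
 5) (.ch (nat_lit 4) (.ev (nat_lit 2144) (nat_lit 549757911040) (.ev (nat_lit 2244) (nat_lit 2199023255552)
 (.ev (nat_lit 2253) (nat_lit 2147483648) .dd)))) (.ch (nat_lit 5) (.ev (nat_lit 2144) (nat_lit 2748779069440)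
 (.ev (nat_lit 2368) (nat_lit 2097152) (.ev (nat_lit 2381) (nat_lit 2147483648) .dd))))) (.br (nat_lit 10) (.ch
 (nat_lit 7) (.ev (nat_lit 2144) (nat_lit 551903297536) (.ev (nat_lit 2480) (nat_lit 2199025352704) .dd))) (.br
 (nat_lit 12) (.ch (nat_lit 10) (.ev (nat_lit 2144) (nat_lit 551905394688) (.ev (nat_lit 2157) (nat_lit
 2199023255552) .dd))) (.ch (nat_lit 12) (.ev (nat_lit 2144) (nat_lit 2199023255552) (.ev (nat_lit 2352)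
 (nat_lit 2147483648) (.fin (nat_lit 576456904017396268))))))))))))) (.br (nat_lit 11) (.ch (nat_lit 8) (.ev
 (nat_lit 1568) (nat_lit 143486269556736) (.ev (nat_lit 1581) (nat_lit 2147483648) .dd))) (.br (nat_lit 12)
 (.ch (nat_lit 11) (.ev (nat_lit 1568) (nat_lit 141289393750016) (.ev (nat_lit 1856) (nat_lit 32768) (.fin
 (nat_lit 576476695196287565))))) (.ch (nat_lit 12) (.ev (nat_lit 1568) (nat_lit 2199023288320) (.ev (nat_lit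
 1588) (nat_lit 2097152) (.nd (nat_lit 2128) (.br (nat_lit 6) (.br (nat_lit 5) (.ch (nat_lit 0) (.ev (nat_lit
 2144) (nat_lit 551903299584) (.ev (nat_lit 2157) (nat_lit 140737488355328) .dd))) (.ch (nat_lit 5) (.ev
 (nat_lit 2144) (nat_lit 141287244171264) (.ev (nat_lit 2157) (nat_lit 2147483648) .dd)))) (.br (nat_lit 9)
 (.ch (nat_lit 6) (.ev (nat_lit 2144) (nat_lit 141289391652864) (.ev (nat_lit 2157) (nat_lit 2048) .dd))) (.br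
 (nat_lit 11) (.ch (nat_lit 9) (.ev (nat_lit 2144) (nat_lit 141287244171264) (.ev (nat_lit 2157) (nat_lit
 2147483648) .dd))) (.ch (nat_lit 11) (.ev (nat_lit 2144) (nat_lit 140739635841024) (.ev (nat_lit 2157)
 (nat_lit 549755813888) .dd)))))))))))))))))))))))) (.br (nat_lit 36) (.ch (nat_lit 34) (.ev (nat_lit 52)
 (nat_lit 4645436898051072) (.ev (nat_lit 180) (nat_lit 4398046576640) (.ev (nat_lit 212) (nat_lit
 17592186044416) (.ev (nat_lit 436) (nat_lit 562949953421312) (.ev (nat_lit 1044) (nat_lit 262144) (.nd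
 (nat_lit 1552) (.br (nat_lit 9) (.br (nat_lit 4) (.ch (nat_lit 1) (.ev (nat_lit 1568) (nat_lit 73463268117024)
 (.nd (nat_lit 2128) (.br (nat_lit 7) (.br (nat_lit 4) (.ch (nat_lit 3) (.ev (nat_lit 2144) (nat_lit 4096) (.ev
 (nat_lit 2157) (nat_lit 8796093022208) .dd))) (.ch (nat_lit 4) (.ev (nat_lit 2144) (nat_lit 4096) (.ev
 (nat_lit 2157) (nat_lit 8796093022208) .dd)))) (.br (nat_lit 8) (.ch (nat_lit 7) (.ev (nat_lit 2144) (nat_lit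
 8796093022208) (.ev (nat_lit 2157) (nat_lit 4096) .dd))) (.br (nat_lit 10) (.ch (nat_lit 8) (.ev (nat_lit
 2144) (nat_lit 8796093026304) .dd)) (.ch (nat_lit 10) (.ev (nat_lit 2468) (nat_lit 4096) (.ev (nat_lit 2477)
 (nat_lit 8796093022208) .dd))))))))) (.br (nat_lit 6) (.ch (nat_lit 4) (.ev (nat_lit 1568) (nat_lit
 70714489047552) (.ev (nat_lit 2548) (nat_lit 2199023255552) (.ev (nat_lit 2784) (nat_lit 4096) (.ev (nat_lit
 3024) (nat_lit 32) (.fin (nat_lit 576465700132438575))))))) (.ch (nat_lit 6) (.ev (nat_lit 1568) (nat_lit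
 11544872097824) (.ev (nat_lit 1588) (nat_lit 68719476736) (.nd (nat_lit 2128) (.br (nat_lit 8) (.br (nat_lit
 3) (.ch (nat_lit 1) (.ev (nat_lit 2144) (nat_lit 70370891661824) (.ev (nat_lit 2157) (nat_lit 274877906944)
 .dd))) (.br (nat_lit 4) (.ch (nat_lit 3) (.ev (nat_lit 2144) (nat_lit 70643622085120) (.ev (nat_lit 2157)
 (nat_lit 2147483648) .dd))) (.ch (nat_lit 4) (.ev (nat_lit 2144) (nat_lit 70643622085120) (.ev (nat_lit 2157)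
 (nat_lit 2147483648) .dd))))) (.br (nat_lit 10) (.ch (nat_lit 8) (.ev (nat_lit 2144) (nat_lit 70645769568256)
 (.ev (nat_lit 2157) (nat_lit 512) .dd))) (.br (nat_lit 12) (.ch (nat_lit 10) (.ev (nat_lit 2144) (nat_lit
 70368744178176) (.ev (nat_lit 2160) (nat_lit 2147483648) (.ev (nat_lit 2173) (nat_lit 274877906944) .dd))))
 (.ch (nat_lit 12) (.ev (nat_lit 2144) (nat_lit 2147484160) (.ev (nat_lit 2340) (nat_lit 274877906944) (.ev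
 (nat_lit 2349) (nat_lit 70368744177664) .dd))))))))))))) (.br (nat_lit 11) (.ch (nat_lit 9) (.ev (nat_lit
 1568) (nat_lit 79989470921216) (.nd (nat_lit 2128) (.br (nat_lit 4) (.br (nat_lit 2) (.ch (nat_lit 1) (.ev
 (nat_lit 2144) (nat_lit 2269890220032) (.ev (nat_lit 2468) (nat_lit 2048) (.ev (nat_lit 2477) (nat_lit 32)
 .dd)))) (.br (nat_lit 3) (.ch (nat_lit 2) (.ev (nat_lit 2144) (nat_lit 70866966560) (.ev (nat_lit 2157)
 (nat_lit 2199023255552) .dd))) (.ch (nat_lit 3) (.ev (nat_lit 2144) (nat_lit 2269890217984) (.ev (nat_lit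
 2176) (nat_lit 4096) (.ev (nat_lit 2189) (nat_lit 32) .dd)))))) (.br (nat_lit 9) (.ch (nat_lit 4) (.ev
 (nat_lit 2144) (nat_lit 2267742738464) (.ev (nat_lit 2157) (nat_lit 2147483648) .dd))) (.br (nat_lit 12) (.ch
 (nat_lit 9) (.ev (nat_lit 2144) (nat_lit 2201170741280) (.ev (nat_lit 2244) (nat_lit 68719476736) (.ev
 (nat_lit 2253) (nat_lit 4096) .dd)))) (.ch (nat_lit 12) (.ev (nat_lit 2144) (nat_lit 2269890215936) (.ev
 (nat_lit 2468) (nat_lit 2048) (.ev (nat_lit 2548) (nat_lit 32) (.ev (nat_lit 2557) (nat_lit 4096)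
 .dd))))))))))) (.br (nat_lit 12) (.ch (nat_lit 11) (.ev (nat_lit 1568) (nat_lit 71193377903136) (.ev (nat_lit
 1588) (nat_lit 2048) (.ev (nat_lit 2244) (nat_lit 8796093022208) (.ev (nat_lit 2352) (nat_lit 68719476736)
 (.ev (nat_lit 3136) (nat_lit 2199023255552) (.ev (nat_lit 3149) (nat_lit 2147483648) .dd))))))) (.ch (nat_lit
 12) (.ev (nat_lit 1568) (nat_lit 82259361141248) (.ev (nat_lit 2340) (nat_lit 32) (.ev (nat_lit 2349) (nat_lit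
 2048) .dd)))))))))))))) (.br (nat_lit 38) (.ch (nat_lit 36) (.ev (nat_lit 52) (nat_lit 778525099466240) (.ev
 (nat_lit 244) (nat_lit 65536) (.ev (nat_lit 436) (nat_lit 262144) (.ev (nat_lit 468) (nat_lit
 4503599627370496) (.ev (nat_lit 1076) (nat_lit 1099511627776) (.nd (nat_lit 1552) (.br (nat_lit 9) (.br
 (nat_lit 5) (.ch (nat_lit 0) (.ev (nat_lit 1568) (nat_lit 18417090428960) (.ev (nat_lit 1728) (nat_lit
 8796093022208) (.ev (nat_lit 1741) (nat_lit 2199023255552) .dd)))) (.br (nat_lit 6) (.ch (nat_lit 5) (.ev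
 (nat_lit 1568) (nat_lit 29412206575648) (.ev (nat_lit 1581) (nat_lit 131072) .dd))) (.ch (nat_lit 6) (.ev
 (nat_lit 1568) (nat_lit 11544874188832) (.ev (nat_lit 2644) (nat_lit 268435456) (.ev (nat_lit 3056) (nat_lit
 131072) (.ev (nat_lit 3184) (nat_lit 17867063951360) .dd))))))) (.br (nat_lit 11) (.ch (nat_lit 9) (.ev
 (nat_lit 1568) (nat_lit 27212912918528) (.ev (nat_lit 2020) (nat_lit 32) (.ev (nat_lit 3072) (nat_lit
 2199023255552) (.ev (nat_lit 3088) (nat_lit 2097152) (.ev (nat_lit 3101) (nat_lit 268435456) .dd)))))) (.br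
 (nat_lit 12) (.ch (nat_lit 11) (.ev (nat_lit 1568) (nat_lit 26938305413152) (.nd (nat_lit 2128) (.br (nat_lit
 5) (.br (nat_lit 2) (.ch (nat_lit 1) (.ev (nat_lit 2144) (nat_lit 2473901162496) (.ev (nat_lit 2157) (nat_lit
 131072) .dd))) (.ch (nat_lit 2) (.ev (nat_lit 2144) (nat_lit 274878038016) (.ev (nat_lit 2157) (nat_lit
 2199023255552) .dd)))) (.br (nat_lit 6) (.ch (nat_lit 5) (.ev (nat_lit 2144) (nat_lit 131072) (.ev (nat_lit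
 2528) (nat_lit 2199023255552) (.ev (nat_lit 2541) (nat_lit 274877906944) .dd)))) (.br (nat_lit 8) (.ch
 (nat_lit 6) (.ev (nat_lit 2144) (nat_lit 2473901293568) .dd)) (.ch (nat_lit 8) (.ev (nat_lit 2144) (nat_lit
 274877906944) (.ev (nat_lit 3120) (nat_lit 2199023386624) .dd))))))))) (.ch (nat_lit 12) (.ev (nat_lit 1568)
 (nat_lit 28862180360192) (.ev (nat_lit 2960) (nat_lit 32) (.ev (nat_lit 3152) (nat_lit 550026346496)
 .dd)))))))))))))) (.ch (nat_lit 38) (.ev (nat_lit 52) (nat_lit 15739176094208) (.ev (nat_lit 128) (nat_lit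
 5296897269404704) .dd)))))))) (.br (nat_lit 54) (.br (nat_lit 47) (.br (nat_lit 43) (.br (nat_lit 42) (.ch
 (nat_lit 39) (.ev (nat_lit 52) (nat_lit 4535281453631008) (.ev (nat_lit 180) (nat_lit 140737488355328) (.ev
 (nat_lit 436) (nat_lit 32768) (.ev (nat_lit 928) (nat_lit 636617503479808) .dd))))) (.ch (nat_lit 42) (.ev
 (nat_lit 52) (nat_lit 103354093341728) (.ev (nat_lit 404) (nat_lit 2097152) (.ev (nat_lit 468) (nat_lit 512)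
 (.ev (nat_lit 564) (nat_lit 4503599627370496) (.ev (nat_lit 628) (nat_lit 131072) (.ev (nat_lit 1012) (nat_lit
 562949953421312) (.ev (nat_lit 1140) (nat_lit 1099511627776) (.nd (nat_lit 1552) (.br (nat_lit 9) (.br
 (nat_lit 4) (.ch (nat_lit 0) (.ev (nat_lit 1568) (nat_lit 141358379569152) (.ev (nat_lit 2006) (nat_lit 32768)
 (.ev (nat_lit 2013) (nat_lit 274877906944) .dd)))) (.br (nat_lit 8) (.ch (nat_lit 4) (.ev (nat_lit 1568)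
 (nat_lit 141083233255424) (.ev (nat_lit 1684) (nat_lit 549755813888) (.ev (nat_lit 2548) (nat_lit 268435456)
 (.ev (nat_lit 2557) (nat_lit 4096) .dd))))) (.ch (nat_lit 8) (.ev (nat_lit 1568) (nat_lit 895769153536) (.ev
 (nat_lit 1581) (nat_lit 140737488355328) .dd))))) (.br (nat_lit 11) (.ch (nat_lit 9) (.ev (nat_lit 1568)
 (nat_lit 618475323392) (.ev (nat_lit 2192) (nat_lit 268435456) (.ev (nat_lit 2340) (nat_lit 140737488355328)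
 (.ev (nat_lit 2560) (nat_lit 2147483648) (.nd (nat_lit 3744) (.br (nat_lit 12) (.ch (nat_lit 10) (.ev (nat_lit
 3760) (nat_lit 274877911040) .dd)) (.ch (nat_lit 12) (.fin (nat_lit 576450306961261139)))))))))) (.br (nat_lit
 12) (.ch (nat_lit 11) (.ev (nat_lit 1568) (nat_lit 141287244173312) (.ev (nat_lit 2548) (nat_lit 268435456)
 (.ev (nat_lit 2688) (nat_lit 32768) (.ev (nat_lit 2948) (nat_lit 277025390592) (.ev (nat_lit 2957) (nat_lit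
 68719476736) .dd)))))) (.ch (nat_lit 12) (.ev (nat_lit 1568) (nat_lit 346013339648) (.ev (nat_lit 2208)
 (nat_lit 141287244169216) .dd)))))))))))))))) (.br (nat_lit 44) (.ch (nat_lit 43) (.ev (nat_lit 52) (nat_lit
 5213886557361152) (.ev (nat_lit 500) (nat_lit 274877906944) (.ev (nat_lit 596) (nat_lit 1099511627776) (.ev
 (nat_lit 820) (nat_lit 68719476736) (.ev (nat_lit 1332) (nat_lit 512) (.nd (nat_lit 1552) (.br (nat_lit 8)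
 (.br (nat_lit 5) (.ch (nat_lit 4) (.ev (nat_lit 1568) (nat_lit 70368744179712) (.ev (nat_lit 2208) (nat_lit
 65536) (.ev (nat_lit 2368) (nat_lit 17592186044416) (.ev (nat_lit 2912) (nat_lit 32) (.fin (nat_lit
 576456903989084753))))))) (.br (nat_lit 6) (.ch (nat_lit 5) (.ev (nat_lit 1568) (nat_lit 88510686038048) (.nd
 (nat_lit 2128) (.br (nat_lit 8) (.br (nat_lit 3) (.ch (nat_lit 0) (.ev (nat_lit 2144) (nat_lit 8796093022208)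
 (.ev (nat_lit 2157) (nat_lit 65536) .dd))) (.ch (nat_lit 3) (.ev (nat_lit 2144) (nat_lit 8796093022208) (.ev
 (nat_lit 2157) (nat_lit 65536) .dd)))) (.br (nat_lit 10) (.ch (nat_lit 8) (.ev (nat_lit 2144) (nat_lit 65536)
 (.ev (nat_lit 2157) (nat_lit 8796093022208) .dd))) (.br (nat_lit 12) (.ch (nat_lit 10) (.ev (nat_lit 2256)
 (nat_lit 65536) (.ev (nat_lit 2269) (nat_lit 8796093022208) .dd))) (.ch (nat_lit 12) (.ev (nat_lit 2144)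
 (nat_lit 8796093087744) .dd)))))))) (.ch (nat_lit 6) (.ev (nat_lit 1568) (nat_lit 26388279134240) (.ev
 (nat_lit 2352) (nat_lit 549755813888) (.ev (nat_lit 2365) (nat_lit 70368744177664) .dd)))))) (.br (nat_lit 9)
 (.ch (nat_lit 8) (.ev (nat_lit 1568) (nat_lit 26388279066624) (.ev (nat_lit 1588) (nat_lit 549755813888) (.ev
 (nat_lit 2976) (nat_lit 32) (.ev (nat_lit 3236) (nat_lit 70368744179712) (.ev (nat_lit 3245) (nat_lit 65536)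
 .dd)))))) (.br (nat_lit 11) (.ch (nat_lit 9) (.ev (nat_lit 1568) (nat_lit 79714593079328) (.fin (nat_lit
 576461302078587464)))) (.ch (nat_lit 11) (.ev (nat_lit 1568) (nat_lit 79714593081376) (.ev (nat_lit 1581)
 (nat_lit 17592186044416) .dd))))))))))))) (.br (nat_lit 46) (.ch (nat_lit 44) (.ev (nat_lit 52) (nat_lit
 722654019913728) (.ev (nat_lit 116) (nat_lit 8796093022208) (.ev (nat_lit 212) (nat_lit 2147483648) (.ev
 (nat_lit 276) (nat_lit 68719476736) (.ev (nat_lit 404) (nat_lit 549755813888) (.ev (nat_lit 1140) (nat_lit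
 512) (.ev (nat_lit 1236) (nat_lit 268435456) (.ev (nat_lit 1300) (nat_lit 4503599627370496) (.ev (nat_lit
 1396) (nat_lit 70368744177664) (.nd (nat_lit 1552) (.br (nat_lit 5) (.br (nat_lit 1) (.ch (nat_lit 0) (.ev
 (nat_lit 1568) (nat_lit 6597069767680) (.ev (nat_lit 1888) (nat_lit 32768) (.fin (nat_lit
 576461302049227332))))) (.br (nat_lit 4) (.ch (nat_lit 1) (.ev (nat_lit 1568) (nat_lit 32) (.ev (nat_lit 1588)
 (nat_lit 1024) (.nd (nat_lit 2128) (.br (nat_lit 6) (.br (nat_lit 2) (.ch (nat_lit 1) (.ev (nat_lit 2144)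
 (nat_lit 6597069799424) (.ev (nat_lit 2157) (nat_lit 4096) .dd))) (.br (nat_lit 4) (.ch (nat_lit 2) (.ev
 (nat_lit 2144) (nat_lit 4398046543872) (.ev (nat_lit 2548) (nat_lit 2199023255552) (.ev (nat_lit 2557)
 (nat_lit 4096) .dd)))) (.ch (nat_lit 4) (.ev (nat_lit 2144) (nat_lit 2199023255552) (.ev (nat_lit 2244)
 (nat_lit 32768) (.ev (nat_lit 2592) (nat_lit 4096) (.ev (nat_lit 2605) (nat_lit 4398046511104) .dd))))))) (.br
 (nat_lit 7) (.ch (nat_lit 6) (.ev (nat_lit 2144) (nat_lit 2199023255552) (.ev (nat_lit 2468) (nat_lit 32768)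
 (.ev (nat_lit 3236) (nat_lit 4096) (.ev (nat_lit 3245) (nat_lit 4398046511104) .dd))))) (.br (nat_lit 10) (.ch
 (nat_lit 7) (.ev (nat_lit 2144) (nat_lit 4398046543872) (.ev (nat_lit 2256) (nat_lit 4096) (.ev (nat_lit 2269)
 (nat_lit 2199023255552) .dd)))) (.ch (nat_lit 10) (.ev (nat_lit 2144) (nat_lit 6597069803520) .dd)))))))))
 (.ch (nat_lit 4) (.ev (nat_lit 1568) (nat_lit 37920) (.ev (nat_lit 2340) (nat_lit 2199023255552) (.ev (nat_lit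
 2349) (nat_lit 4398046511104) .dd)))))) (.br (nat_lit 8) (.ch (nat_lit 5) (.ev (nat_lit 1568) (nat_lit
 6597069800480) (.ev (nat_lit 1581) (nat_lit 4096) .dd))) (.br (nat_lit 11) (.ch (nat_lit 8) (.ev (nat_lit
 1568) (nat_lit 6597069799424) (.ev (nat_lit 3236) (nat_lit 4096) (.ev (nat_lit 3616) (nat_lit 1056) .dd))))
 (.ch (nat_lit 11) (.ev (nat_lit 1568) (nat_lit 2199023292448) (.ev (nat_lit 2038) (nat_lit 1024) (.ev (nat_lit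
 2045) (nat_lit 4398046511104) .dd)))))))))))))))))) (.ch (nat_lit 46) (.ev (nat_lit 52) (nat_lit
 96209417214976) (.ev (nat_lit 372) (nat_lit 268435456) (.ev (nat_lit 436) (nat_lit 274877906944) (.ev (nat_lit
 532) (nat_lit 4503599627370496) (.ev (nat_lit 820) (nat_lit 562949953421312) (.ev (nat_lit 948) (nat_lit
 140737488355328) (.nd (nat_lit 1552) (.br (nat_lit 6) (.br (nat_lit 5) (.ch (nat_lit 0) (.ev (nat_lit 1568)
 (nat_lit 512) (.nd (nat_lit 2128) (.br (nat_lit 4) (.br (nat_lit 1) (.ch (nat_lit 0) (.ev (nat_lit 2144)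
 (nat_lit 8796093317152) (.ev (nat_lit 2157) (nat_lit 68719476736) .dd))) (.br (nat_lit 2) (.ch (nat_lit 1)
 (.ev (nat_lit 2144) (nat_lit 8864812531744) (.ev (nat_lit 2157) (nat_lit 262144) .dd))) (.ch (nat_lit 2) (.ev
 (nat_lit 2144) (nat_lit 8864812793856) (.ev (nat_lit 2157) (nat_lit 32) .dd))))) (.br (nat_lit 8) (.br
 (nat_lit 5) (.ch (nat_lit 4) (.ev (nat_lit 2144) (nat_lit 8796093055008) (.ev (nat_lit 2244) (nat_lit
 68719476736) (.ev (nat_lit 2253) (nat_lit 262144) .dd)))) (.ch (nat_lit 5) (.ev (nat_lit 2144) (nat_lit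
 68719771680) (.ev (nat_lit 2157) (nat_lit 8796093022208) .dd)))) (.br (nat_lit 12) (.ch (nat_lit 8) (.ev
 (nat_lit 2144) (nat_lit 8864812498944) (.ev (nat_lit 3264) (nat_lit 32) (.ev (nat_lit 3440) (nat_lit 294912)
 .dd)))) (.ch (nat_lit 12) (.ev (nat_lit 2144) (nat_lit 8864812761088) (.ev (nat_lit 2244) (nat_lit 32) (.ev
 (nat_lit 2253) (nat_lit 32768) .dd)))))))))) (.ch (nat_lit 5) (.ev (nat_lit 1568) (nat_lit 68719510048) (.nd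
 (nat_lit 2128) (.br (nat_lit 4) (.br (nat_lit 3) (.ch (nat_lit 1) (.ev (nat_lit 2144) (nat_lit 262144) (.ev
 (nat_lit 2157) (nat_lit 8796093022208) .dd))) (.ch (nat_lit 3) (.ev (nat_lit 2144) (nat_lit 262144) (.ev
 (nat_lit 2157) (nat_lit 8796093022208) .dd)))) (.br (nat_lit 6) (.ch (nat_lit 4) (.ev (nat_lit 2144) (nat_lit
 8796093284352) .dd)) (.br (nat_lit 8) (.ch (nat_lit 6) (.ev (nat_lit 2144) (nat_lit 8796093284352) .dd)) (.ch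
 (nat_lit 8) (.ev (nat_lit 2144) (nat_lit 8796093022208) (.ev (nat_lit 2157) (nat_lit 262144) .dd))))))))))
 (.br (nat_lit 9) (.ch (nat_lit 6) (.ev (nat_lit 1568) (nat_lit 8864812761120) (.nd (nat_lit 2128) (.br
 (nat_lit 4) (.br (nat_lit 1) (.ch (nat_lit 0) (.ev (nat_lit 2144) (nat_lit 33280) .dd)) (.ch (nat_lit 1) (.fin
 (nat_lit 576456904023687736)))) (.br (nat_lit 8) (.ch (nat_lit 4) (.ev (nat_lit 2144) (nat_lit 512) (.ev
 (nat_lit 2157) (nat_lit 32768) .dd))) (.br (nat_lit 12) (.ch (nat_lit 8) (.ev (nat_lit 2144) (nat_lit 33280)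
 .dd)) (.ch (nat_lit 12) (.ev (nat_lit 2244) (nat_lit 32768) (.ev (nat_lit 2253) (nat_lit 512) .dd)))))))))
 (.br (nat_lit 11) (.ch (nat_lit 9) (.ev (nat_lit 1568) (nat_lit 8796093055008) (.ev (nat_lit 2244) (nat_lit
 68719476736) (.ev (nat_lit 2340) (nat_lit 262144) (.ev (nat_lit 2349) (nat_lit 512) .dd))))) (.ch (nat_lit 11)
 (.ev (nat_lit 1568) (nat_lit 295456) (.ev (nat_lit 2244) (nat_lit 8796093022208) (.ev (nat_lit 2253) (nat_lit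
 68719476736) .dd)))))))))))))))))) (.br (nat_lit 50) (.br (nat_lit 48) (.ch (nat_lit 47) (.ev (nat_lit 52)
 (nat_lit 73944306555392) (.ev (nat_lit 160) (nat_lit 5238692138943520) .dd))) (.br (nat_lit 49) (.ch (nat_lit
 48) (.ev (nat_lit 52) (nat_lit 5090809972260896) (.ev (nat_lit 84) (nat_lit 70368744177664) (.ev (nat_lit 244)
 (nat_lit 8796093022208) (.ev (nat_lit 372) (nat_lit 131072) (.ev (nat_lit 896) (nat_lit 142661635907072)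
 .dd)))))) (.ch (nat_lit 49) (.ev (nat_lit 52) (nat_lit 775980599778848) (.ev (nat_lit 84) (nat_lit 2097152)
 (.ev (nat_lit 116) (nat_lit 262144) (.ev (nat_lit 820) (nat_lit 8796093022208) (.ev (nat_lit 916) (nat_lit
 68719476736) (.nd (nat_lit 1552) (.br (nat_lit 5) (.br (nat_lit 1) (.ch (nat_lit 0) (.ev (nat_lit 1568)
 (nat_lit 4521193961029632) (.nd (nat_lit 2128) (.br (nat_lit 2) (.br (nat_lit 1) (.ch (nat_lit 0) (.ev
 (nat_lit 2144) (nat_lit 2199023321088) (.ev (nat_lit 2157) (nat_lit 4398046511104) .dd))) (.ch (nat_lit 1)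
 (.ev (nat_lit 2144) (nat_lit 65536) (.ev (nat_lit 2244) (nat_lit 2199023255552) (.ev (nat_lit 2253) (nat_lit
 4398046511104) .dd))))) (.br (nat_lit 5) (.ch (nat_lit 2) (.ev (nat_lit 2144) (nat_lit 2199023321088) (.ev
 (nat_lit 2157) (nat_lit 4398046511104) .dd))) (.br (nat_lit 11) (.ch (nat_lit 5) (.ev (nat_lit 2144) (nat_lit
 6597069766656) (.ev (nat_lit 2157) (nat_lit 65536) .dd))) (.ch (nat_lit 11) (.ev (nat_lit 2144) (nat_lit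
 6597069832192) .dd)))))))) (.br (nat_lit 4) (.ch (nat_lit 1) (.ev (nat_lit 1568) (nat_lit 4525592007409664)
 (.ev (nat_lit 1588) (nat_lit 65536) (.nd (nat_lit 2128) (.br (nat_lit 6) (.br (nat_lit 4) (.ch (nat_lit 3)
 (.ev (nat_lit 2144) (nat_lit 2199023386624) .dd)) (.ch (nat_lit 4) (.ev (nat_lit 2144) (nat_lit 2199023255552)
 (.ev (nat_lit 2157) (nat_lit 131072) .dd)))) (.br (nat_lit 7) (.ch (nat_lit 6) (.ev (nat_lit 2144) (nat_lit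
 2199023386624) .dd)) (.br (nat_lit 8) (.ch (nat_lit 7) (.ev (nat_lit 2144) (nat_lit 131072) (.ev (nat_lit
 2157) (nat_lit 2199023255552) .dd))) (.ch (nat_lit 8) (.ev (nat_lit 2144) (nat_lit 2199023386624) .dd)))))))))
 (.ch (nat_lit 4) (.ev (nat_lit 1568) (nat_lit 4525592007540736) (.ev (nat_lit 2244) (nat_lit 2199023255552)
 (.ev (nat_lit 2253) (nat_lit 65536) .dd)))))) (.br (nat_lit 6) (.ch (nat_lit 5) (.ev (nat_lit 1568) (nat_lit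
 4527791030861824) .dd)) (.br (nat_lit 9) (.ch (nat_lit 6) (.ev (nat_lit 1568) (nat_lit 6599217315840) (.nd
 (nat_lit 2128) (.br (nat_lit 7) (.br (nat_lit 5) (.ch (nat_lit 4) (.ev (nat_lit 2144) (nat_lit
 4521191813414912) (.ev (nat_lit 2157) (nat_lit 131072) .dd))) (.ch (nat_lit 5) (.ev (nat_lit 2144) (nat_lit
 4521191813414912) (.ev (nat_lit 2157) (nat_lit 131072) .dd)))) (.br (nat_lit 10) (.ch (nat_lit 7) (.ev
 (nat_lit 2144) (nat_lit 131072) (.ev (nat_lit 2340) (nat_lit 17592186044416) (.ev (nat_lit 2349) (nat_lit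
 4503599627370496) .dd)))) (.ch (nat_lit 10) (.ev (nat_lit 2144) (nat_lit 17592186044416) (.ev (nat_lit 2672)
 (nat_lit 4503599627501568) .dd)))))))) (.ch (nat_lit 9) (.ev (nat_lit 1568) (nat_lit 6597069832192) (.nd
 (nat_lit 2128) (.br (nat_lit 8) (.br (nat_lit 2) (.ch (nat_lit 1) (.ev (nat_lit 2144) (nat_lit
 4521193961029632) .dd)) (.br (nat_lit 3) (.ch (nat_lit 2) (.ev (nat_lit 2144) (nat_lit 4503601774985216) (.ev
 (nat_lit 2157) (nat_lit 17592186044416) .dd))) (.ch (nat_lit 3) (.ev (nat_lit 2144) (nat_lit 17594333659136)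
 (.ev (nat_lit 2157) (nat_lit 4503599627370496) .dd))))) (.br (nat_lit 9) (.ch (nat_lit 8) (.ev (nat_lit 2144)
 (nat_lit 4521191813414912) (.ev (nat_lit 3168) (nat_lit 2147614720) .dd))) (.br (nat_lit 10) (.ch (nat_lit 9)
 (.ev (nat_lit 2144) (nat_lit 4521193961029632) .dd)) (.ch (nat_lit 10) (.ev (nat_lit 2144) (nat_lit
 4503601774985216) (.ev (nat_lit 2157) (nat_lit 17592186044416) .dd))))))))))))))))))))) (.br (nat_lit 51) (.ch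
 (nat_lit 50) (.ev (nat_lit 52) (nat_lit 4743845067854336) (.ev (nat_lit 276) (nat_lit 4398046511104) (.ev
 (nat_lit 724) (nat_lit 268435456) (.ev (nat_lit 916) (nat_lit 562949953421312) (.ev (nat_lit 1044) (nat_lit
 32) (.nd (nat_lit 1552) (.br (nat_lit 8) (.br (nat_lit 6) (.ch (nat_lit 0) (.ev (nat_lit 1568) (nat_lit
 1168231107584) (.nd (nat_lit 2128) (.br (nat_lit 8) (.br (nat_lit 4) (.ch (nat_lit 2) (.ev (nat_lit 2144)
 (nat_lit 262144) (.ev (nat_lit 2157) (nat_lit 274877906944) .dd))) (.br (nat_lit 5) (.ch (nat_lit 4) (.ev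
 (nat_lit 2144) (nat_lit 274877906944) (.ev (nat_lit 2157) (nat_lit 262144) .dd))) (.ch (nat_lit 5) (.ev
 (nat_lit 2144) (nat_lit 274877906944) (.ev (nat_lit 2157) (nat_lit 262144) .dd))))) (.br (nat_lit 9) (.ch
 (nat_lit 8) (.ev (nat_lit 2144) (nat_lit 262144) (.ev (nat_lit 2157) (nat_lit 274877906944) .dd))) (.br
 (nat_lit 11) (.ch (nat_lit 9) (.ev (nat_lit 2144) (nat_lit 274877906944) (.ev (nat_lit 2157) (nat_lit 262144)
 .dd))) (.ch (nat_lit 11) (.ev (nat_lit 2144) (nat_lit 274878169088) .dd)))))))) (.ch (nat_lit 6) (.ev (nat_lit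
 1568) (nat_lit 1374389798912) (.ev (nat_lit 2160) (nat_lit 1024) (.ev (nat_lit 2173) (nat_lit 68719476736)
 .dd))))) (.br (nat_lit 9) (.ch (nat_lit 8) (.ev (nat_lit 1568) (nat_lit 343597645824) (.ev (nat_lit 1588)
 (nat_lit 2048) (.ev (nat_lit 2244) (nat_lit 1024) (.ev (nat_lit 2253) (nat_lit 1099511627776) .dd))))) (.br
 (nat_lit 12) (.ch (nat_lit 9) (.ev (nat_lit 1568) (nat_lit 1099511890944) (.ev (nat_lit 2256) (nat_lit
 68719476736) (.ev (nat_lit 2720) (nat_lit 274877908992) .dd)))) (.ch (nat_lit 12) (.ev (nat_lit 1568) (nat_lit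
 1443109014528) (.ev (nat_lit 1581) (nat_lit 262144) .dd))))))))))))) (.br (nat_lit 53) (.ch (nat_lit 51) (.ev
 (nat_lit 52) (nat_lit 4660280036496384) (.ev (nat_lit 212) (nat_lit 70368744177664) (.ev (nat_lit 372)
 (nat_lit 2048) (.ev (nat_lit 852) (nat_lit 274877906944) (.ev (nat_lit 1012) (nat_lit 32) (.ev (nat_lit 1044)
 (nat_lit 68719476736) (.nd (nat_lit 1552) (.br (nat_lit 8) (.br (nat_lit 1) (.ch (nat_lit 0) (.ev (nat_lit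
 1568) (nat_lit 18694114017280) (.nd (nat_lit 2128) (.br (nat_lit 11) (.ch (nat_lit 5) (.ev (nat_lit 2144)
 (nat_lit 512) (.ev (nat_lit 2157) (nat_lit 562949953421312) .dd))) (.ch (nat_lit 11) (.fin (nat_lit
 576452505974030937))))))) (.br (nat_lit 5) (.ch (nat_lit 1) (.ev (nat_lit 1568) (nat_lit 581644067045888) (.nd
 (nat_lit 2128) (.br (nat_lit 4) (.br (nat_lit 3) (.ch (nat_lit 0) (.ev (nat_lit 2144) (nat_lit 131072) (.ev
 (nat_lit 2157) (nat_lit 262144) .dd))) (.ch (nat_lit 3) (.ev (nat_lit 2144) (nat_lit 131072) (.ev (nat_lit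
 2157) (nat_lit 262144) .dd)))) (.br (nat_lit 8) (.ch (nat_lit 4) (.ev (nat_lit 2144) (nat_lit 131072) (.ev
 (nat_lit 2157) (nat_lit 262144) .dd))) (.br (nat_lit 10) (.ch (nat_lit 8) (.ev (nat_lit 2144) (nat_lit 262144)
 (.ev (nat_lit 2157) (nat_lit 131072) .dd))) (.ch (nat_lit 10) (.ev (nat_lit 2144) (nat_lit 262144) (.ev
 (nat_lit 2157) (nat_lit 131072) .dd))))))))) (.ch (nat_lit 5) (.ev (nat_lit 1568) (nat_lit 18693845156352)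
 (.ev (nat_lit 2020) (nat_lit 562949953421312) (.ev (nat_lit 2576) (nat_lit 262144) (.ev (nat_lit 2848)
 (nat_lit 32768) (.ev (nat_lit 3104) (nat_lit 268435456) (.ev (nat_lit 3117) (nat_lit 131072) .dd))))))))) (.br
 (nat_lit 11) (.br (nat_lit 9) (.ch (nat_lit 8) (.ev (nat_lit 1568) (nat_lit 564051881394688) (.ev (nat_lit
 1581) (nat_lit 17592186044416) .dd))) (.ch (nat_lit 9) (.ev (nat_lit 1568) (nat_lit 268468736) (.nd (nat_lit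
 2128) (.br (nat_lit 9) (.br (nat_lit 2) (.ch (nat_lit 1) (.ev (nat_lit 2144) (nat_lit 580544287080448) (.ev
 (nat_lit 2244) (nat_lit 262144) (.ev (nat_lit 2253) (nat_lit 1099511627776) .dd)))) (.ch (nat_lit 2) (.ev
 (nat_lit 2144) (nat_lit 564051612794880) (.ev (nat_lit 2656) (nat_lit 17592186175488) .dd)))) (.br (nat_lit
 10) (.ch (nat_lit 9) (.ev (nat_lit 2144) (nat_lit 393216) (.ev (nat_lit 2176) (nat_lit 2147483648) (.ev
 (nat_lit 2272) (nat_lit 17592186044416) (.ev (nat_lit 2368) (nat_lit 564049465049088) .dd))))) (.br (nat_lit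
 11) (.ch (nat_lit 10) (.ev (nat_lit 2144) (nat_lit 18693845549056) (.ev (nat_lit 2157) (nat_lit
 562949953421312) .dd))) (.ch (nat_lit 11) (.ev (nat_lit 2144) (nat_lit 581641651093504) (.ev (nat_lit 2176)
 (nat_lit 262144) (.ev (nat_lit 2400) (nat_lit 2147614720) .dd))))))))))) (.br (nat_lit 12) (.ch (nat_lit 11)
 (.ev (nat_lit 1568) (nat_lit 562950221890048) (.nd (nat_lit 2128) (.br (nat_lit 4) (.br (nat_lit 3) (.ch
 (nat_lit 0) (.ev (nat_lit 2144) (nat_lit 18693845549056) .dd)) (.ch (nat_lit 3) (.ev (nat_lit 2144) (nat_lit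
 17592186437632) (.ev (nat_lit 2656) (nat_lit 1099511627776) (.ev (nat_lit 2669) (nat_lit 2147483648) .dd)))))
 (.br (nat_lit 8) (.ch (nat_lit 4) (.ev (nat_lit 2144) (nat_lit 18691698065408) (.ev (nat_lit 2157) (nat_lit
 2147483648) .dd))) (.br (nat_lit 12) (.ch (nat_lit 8) (.ev (nat_lit 2144) (nat_lit 1101659111424) (.ev
 (nat_lit 2548) (nat_lit 17592186044416) (.ev (nat_lit 3654) (nat_lit 393216) .dd)))) (.ch (nat_lit 12) (.ev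
 (nat_lit 2144) (nat_lit 18693845549056) .dd)))))))) (.ch (nat_lit 12) (.ev (nat_lit 1568) (nat_lit
 580542139465728) (.nd (nat_lit 2128) (.br (nat_lit 6) (.br (nat_lit 5) (.ch (nat_lit 0) (.ev (nat_lit 2144)
 (nat_lit 2147910144) (.ev (nat_lit 2352) (nat_lit 1099511627776) (.ev (nat_lit 2365) (nat_lit 268435456)
 .dd)))) (.ch (nat_lit 5) (.ev (nat_lit 2144) (nat_lit 1099780489216) (.ev (nat_lit 2244) (nat_lit 2147483648)
 (.ev (nat_lit 2253) (nat_lit 512) .dd))))) (.br (nat_lit 7) (.ch (nat_lit 6) (.ev (nat_lit 2548) (nat_lit 512)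
 (.ev (nat_lit 2800) (nat_lit 2147483648) (.ev (nat_lit 2960) (nat_lit 1099511627776) (.ev (nat_lit 2976)
 (nat_lit 32768) (.ev (nat_lit 3248) (nat_lit 268435456) (.ev (nat_lit 3716) (nat_lit 262144) (.ev (nat_lit
 3725) (nat_lit 131072) .dd)))))))) (.br (nat_lit 12) (.ch (nat_lit 7) (.ev (nat_lit 2144) (nat_lit
 1101659537408) (.ev (nat_lit 2548) (nat_lit 512) (.ev (nat_lit 2557) (nat_lit 268435456) .dd)))) (.ch (nat_lit
 12) (.ev (nat_lit 2144) (nat_lit 268861952) (.ev (nat_lit 2244) (nat_lit 2147483648) (.ev (nat_lit 2253)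
 (nat_lit 1099511627776) .dd))))))))))))))))))))) (.ch (nat_lit 53) (.ev (nat_lit 52) (nat_lit
 4582835600102944) (.ev (nat_lit 116) (nat_lit 2199023255552) (.ev (nat_lit 244) (nat_lit 140737488355328) (.ev
 (nat_lit 276) (nat_lit 562949953421312) (.ev (nat_lit 692) (nat_lit 32768) (.ev (nat_lit 1172) (nat_lit 2048)
 (.ev (nat_lit 1236) (nat_lit 17592186044416) (.nd (nat_lit 1552) (.br (nat_lit 8) (.br (nat_lit 4) (.ch
 (nat_lit 1) (.ev (nat_lit 1568) (nat_lit 1374389862400) (.nd (nat_lit 2128) (.br (nat_lit 4) (.br (nat_lit 2)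
 (.ch (nat_lit 1) (.ev (nat_lit 2144) (nat_lit 4947804422144) .dd)) (.ch (nat_lit 2) (.ev (nat_lit 2144)
 (nat_lit 4947802324992) (.ev (nat_lit 2157) (nat_lit 2097152) .dd)))) (.br (nat_lit 7) (.ch (nat_lit 4) (.ev
 (nat_lit 2144) (nat_lit 549755813888) (.ev (nat_lit 2272) (nat_lit 4398048608256) .dd))) (.br (nat_lit 8) (.ch
 (nat_lit 7) (.ev (nat_lit 2144) (nat_lit 2097152) (.ev (nat_lit 2160) (nat_lit 549755813888) (.ev (nat_lit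
 2173) (nat_lit 4398046511104) .dd)))) (.ch (nat_lit 8) (.ev (nat_lit 2144) (nat_lit 4947804422144) .dd))))))))
 (.br (nat_lit 6) (.ch (nat_lit 4) (.ev (nat_lit 1568) (nat_lit 1924147707904) (.ev (nat_lit 3350) (nat_lit
 4398046576640) .dd))) (.ch (nat_lit 6) (.ev (nat_lit 1568) (nat_lit 4672924680192) (.ev (nat_lit 2244)
 (nat_lit 65536) (.ev (nat_lit 2468) (nat_lit 1099511627776) (.nd (nat_lit 3808) (.br (nat_lit 12) (.ch
 (nat_lit 3) (.ev (nat_lit 3824) (nat_lit 549757911040) .dd)) (.ch (nat_lit 12) (.fin (nat_lit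
 576465700104127060))))))))))) (.br (nat_lit 11) (.ch (nat_lit 8) (.ev (nat_lit 1568) (nat_lit 6322194219008)
 (.ev (nat_lit 1581) (nat_lit 65536) .dd))) (.br (nat_lit 12) (.ch (nat_lit 11) (.ev (nat_lit 1568) (nat_lit
 549757976576) (.ev (nat_lit 2244) (nat_lit 4398046511104) (.ev (nat_lit 2976) (nat_lit 1099511627776) (.ev
 (nat_lit 3168) (nat_lit 274877906944) (.ev (nat_lit 3181) (nat_lit 262144) .dd)))))) (.ch (nat_lit 12) (.ev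
 (nat_lit 1568) (nat_lit 4672924483584) (.ev (nat_lit 1588) (nat_lit 549755813888) (.ev (nat_lit 2352) (nat_lit
 2097152) (.ev (nat_lit 3040) (nat_lit 262144) (.ev (nat_lit 3053) (nat_lit 1099511627776)
 .dd)))))))))))))))))))))) (.br (nat_lit 64) (.br (nat_lit 57) (.br (nat_lit 55) (.ch (nat_lit 54) (.ev
 (nat_lit 52) (nat_lit 79510852829696) (.ev (nat_lit 212) (nat_lit 2048) (.ev (nat_lit 436) (nat_lit
 140737488355328) (.ev (nat_lit 468) (nat_lit 4096) (.ev (nat_lit 852) (nat_lit 2199023255552) (.ev (nat_lit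
 916) (nat_lit 32) (.ev (nat_lit 980) (nat_lit 17592186044416) (.ev (nat_lit 1204) (nat_lit 1099511627776) (.nd
 (nat_lit 1552) (.br (nat_lit 9) (.br (nat_lit 6) (.ch (nat_lit 1) (.ev (nat_lit 1568) (nat_lit
 5066549580792832) (.ev (nat_lit 1588) (nat_lit 549755813888) (.nd (nat_lit 2128) (.br (nat_lit 6) (.br
 (nat_lit 2) (.ch (nat_lit 0) (.ev (nat_lit 2144) (nat_lit 262144) (.ev (nat_lit 2157) (nat_lit 4398046511104)
 .dd))) (.ch (nat_lit 2) (.ev (nat_lit 2144) (nat_lit 262144) (.ev (nat_lit 2157) (nat_lit 4398046511104)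
 .dd)))) (.br (nat_lit 7) (.ch (nat_lit 6) (.ev (nat_lit 2144) (nat_lit 4398046511104) (.ev (nat_lit 2157)
 (nat_lit 262144) .dd))) (.ch (nat_lit 7) (.ev (nat_lit 2144) (nat_lit 262144) (.ev (nat_lit 2157) (nat_lit
 4398046511104) .dd))))))))) (.ch (nat_lit 6) (.ev (nat_lit 1568) (nat_lit 4398046773248) (.nd (nat_lit 2128)
 (.br (nat_lit 8) (.br (nat_lit 3) (.ch (nat_lit 0) (.ev (nat_lit 2144) (nat_lit 5067099336605696) (.ev
 (nat_lit 2157) (nat_lit 1024) .dd))) (.ch (nat_lit 3) (.ev (nat_lit 2144) (nat_lit 563499709235200) (.ev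
 (nat_lit 2176) (nat_lit 1024) (.ev (nat_lit 2189) (nat_lit 4503599627370496) .dd))))) (.br (nat_lit 10) (.ch
 (nat_lit 8) (.ev (nat_lit 2144) (nat_lit 5066549580792832) (.ev (nat_lit 2157) (nat_lit 549755813888) .dd)))
 (.br (nat_lit 12) (.ch (nat_lit 10) (.ev (nat_lit 2144) (nat_lit 5067099336606720) .dd)) (.ch (nat_lit 12)
 (.ev (nat_lit 2144) (nat_lit 4503599627371520) (.ev (nat_lit 3040) (nat_lit 549755813888) (.ev (nat_lit 3053)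
 (nat_lit 562949953421312) .dd))))))))))) (.br (nat_lit 11) (.ch (nat_lit 9) (.ev (nat_lit 1568) (nat_lit
 549756077056) (.ev (nat_lit 3216) (nat_lit 567347999932416) (.ev (nat_lit 3229) (nat_lit 4503599627370496)
 .dd)))) (.br (nat_lit 12) (.ch (nat_lit 11) (.ev (nat_lit 1568) (nat_lit 5067099336867840) (.nd (nat_lit 2128)
 (.br (nat_lit 4) (.ch (nat_lit 1) (.ev (nat_lit 2144) (nat_lit 1024) (.ev (nat_lit 2157) (nat_lit
 4398046511104) .dd))) (.br (nat_lit 8) (.ch (nat_lit 4) (.ev (nat_lit 2144) (nat_lit 4398046511104) (.ev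
 (nat_lit 2157) (nat_lit 1024) .dd))) (.ch (nat_lit 8) (.ev (nat_lit 2144) (nat_lit 4398046512128) .dd)))))))
 (.ch (nat_lit 12) (.ev (nat_lit 1568) (nat_lit 5071497383378944) (.ev (nat_lit 1581) (nat_lit 1024)
 .dd)))))))))))))))) (.ch (nat_lit 55) (.ev (nat_lit 52) (nat_lit 653178626446880) (.ev (nat_lit 84) (nat_lit
 268435456) (.ev (nat_lit 148) (nat_lit 32768) (.ev (nat_lit 788) (nat_lit 2147483648) (.ev (nat_lit 948)
 (nat_lit 4398046511104) (.ev (nat_lit 1044) (nat_lit 8796093022208) (.nd (nat_lit 1552) (.br (nat_lit 9) (.br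
 (nat_lit 5) (.ch (nat_lit 4) (.ev (nat_lit 1568) (nat_lit 142111880382464) (.ev (nat_lit 2256) (nat_lit
 4504149383184384) .dd))) (.br (nat_lit 6) (.ch (nat_lit 5) (.ev (nat_lit 1568) (nat_lit 549757913088) (.nd
 (nat_lit 2128) (.br (nat_lit 5) (.br (nat_lit 3) (.ch (nat_lit 0) (.ev (nat_lit 2144) (nat_lit
 4645436627615744) (.ev (nat_lit 2340) (nat_lit 131072) (.ev (nat_lit 2349) (nat_lit 274877906944) .dd)))) (.br
 (nat_lit 4) (.ch (nat_lit 3) (.ev (nat_lit 2144) (nat_lit 141012366655488) (.ev (nat_lit 2480) (nat_lit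
 4504699138998272) .dd))) (.ch (nat_lit 4) (.ev (nat_lit 2144) (nat_lit 393216) (.ev (nat_lit 2192) (nat_lit
 140737488355328) (.ev (nat_lit 2496) (nat_lit 274877906944) (.ev (nat_lit 2816) (nat_lit 4503599627370496)
 (.ev (nat_lit 2829) (nat_lit 1099511627776) .dd)))))))) (.br (nat_lit 6) (.ch (nat_lit 5) (.ev (nat_lit 2144)
 (nat_lit 4504974017036288) (.ev (nat_lit 2244) (nat_lit 262144) (.ev (nat_lit 2253) (nat_lit 140737488355328)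
 .dd)))) (.br (nat_lit 8) (.ch (nat_lit 6) (.ev (nat_lit 2144) (nat_lit 4504974017298432) (.ev (nat_lit 2157)
 (nat_lit 140737488355328) .dd))) (.ch (nat_lit 8) (.ev (nat_lit 2144) (nat_lit 4645711505653760) .dd))))))))
 (.ch (nat_lit 6) (.ev (nat_lit 1568) (nat_lit 1374391896064) (.nd (nat_lit 2128) (.br (nat_lit 8) (.br
 (nat_lit 1) (.ch (nat_lit 0) (.ev (nat_lit 2144) (nat_lit 4503599627370496) (.ev (nat_lit 2244) (nat_lit
 131072) (.ev (nat_lit 2560) (nat_lit 549755813888) (.ev (nat_lit 2573) (nat_lit 140737488355328) .dd))))) (.br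
 (nat_lit 7) (.ch (nat_lit 1) (.ev (nat_lit 2144) (nat_lit 4644886871670784) .dd)) (.ch (nat_lit 7) (.ev
 (nat_lit 2144) (nat_lit 549755813888) (.ev (nat_lit 2976) (nat_lit 131072) (.ev (nat_lit 3264) (nat_lit
 4503599627370496) (.ev (nat_lit 3277) (nat_lit 140737488355328) .dd))))))) (.br (nat_lit 10) (.ch (nat_lit 8)
 (.ev (nat_lit 2144) (nat_lit 4504149383315456) (.ev (nat_lit 2157) (nat_lit 140737488355328) .dd))) (.br
 (nat_lit 12) (.ch (nat_lit 10) (.ev (nat_lit 2144) (nat_lit 549755944960) (.ev (nat_lit 3120) (nat_lit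
 4644337115725824) .dd))) (.ch (nat_lit 12) (.ev (nat_lit 2144) (nat_lit 4503599627370496) (.ev (nat_lit 2384)
 (nat_lit 131072) (.ev (nat_lit 2672) (nat_lit 141287244169216) .dd)))))))))))) (.br (nat_lit 11) (.ch (nat_lit
 9) (.ev (nat_lit 1568) (nat_lit 4504149383317504) (.nd (nat_lit 2128) (.br (nat_lit 10) (.br (nat_lit 3) (.ch
 (nat_lit 1) (.ev (nat_lit 2144) (nat_lit 274877906944) (.ev (nat_lit 2192) (nat_lit 262144) (.ev (nat_lit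
 2256) (nat_lit 140737488355328) (.ev (nat_lit 3072) (nat_lit 1099513724928) .dd))))) (.br (nat_lit 9) (.ch
 (nat_lit 3) (.ev (nat_lit 2144) (nat_lit 142111879987200) (.ev (nat_lit 2157) (nat_lit 262144) .dd))) (.ch
 (nat_lit 9) (.ev (nat_lit 2144) (nat_lit 1374391631872) (.ev (nat_lit 2244) (nat_lit 262144) (.ev (nat_lit
 2253) (nat_lit 140737488355328) .dd)))))) (.br (nat_lit 11) (.ch (nat_lit 10) (.ev (nat_lit 2144) (nat_lit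
 141837002342400) (.ev (nat_lit 2157) (nat_lit 274877906944) .dd))) (.br (nat_lit 12) (.ch (nat_lit 11) (.ev
 (nat_lit 2144) (nat_lit 142111880249344) .dd)) (.ch (nat_lit 12) (.ev (nat_lit 2144) (nat_lit 140737488617472)
 (.ev (nat_lit 2244) (nat_lit 274877906944) (.ev (nat_lit 2340) (nat_lit 2097152) (.ev (nat_lit 2349) (nat_lit
 1099511627776) .dd))))))))))) (.br (nat_lit 12) (.ch (nat_lit 11) (.ev (nat_lit 1568) (nat_lit
 4645986385395712) (.ev (nat_lit 2948) (nat_lit 2048) (.ev (nat_lit 3236) (nat_lit 262144) (.ev (nat_lit 3245)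
 (nat_lit 274877906944) .dd))))) (.ch (nat_lit 12) (.ev (nat_lit 1568) (nat_lit 4645161749708800) (.nd (nat_lit
 2128) (.br (nat_lit 5) (.br (nat_lit 1) (.ch (nat_lit 0) (.ev (nat_lit 2144) (nat_lit 1099513858048) .dd))
 (.br (nat_lit 4) (.ch (nat_lit 1) (.ev (nat_lit 2144) (nat_lit 1099511629824) (.ev (nat_lit 2560) (nat_lit
 131072) (.ev (nat_lit 2573) (nat_lit 2097152) .dd)))) (.ch (nat_lit 4) (.ev (nat_lit 2144) (nat_lit 2230272)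
 (.ev (nat_lit 2157) (nat_lit 1099511627776) .dd))))) (.br (nat_lit 11) (.ch (nat_lit 5) (.ev (nat_lit 2144)
 (nat_lit 1099513858048) .dd)) (.br (nat_lit 12) (.ch (nat_lit 11) (.ev (nat_lit 2144) (nat_lit 131072) (.ev
 (nat_lit 2672) (nat_lit 2097152) (.ev (nat_lit 3072) (nat_lit 2048) (.ev (nat_lit 3085) (nat_lit
 1099511627776) .dd))))) (.ch (nat_lit 12) (.ev (nat_lit 2144) (nat_lit 2228224) (.ev (nat_lit 3040) (nat_lit
 1099511629824) .dd))))))))))))))))))))) (.br (nat_lit 58) (.ch (nat_lit 57) (.ev (nat_lit 52) (nat_lit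
 5291401873952) (.ev (nat_lit 84) (nat_lit 131072) (.ev (nat_lit 244) (nat_lit 2199023255552) (.ev (nat_lit
 276) (nat_lit 140737488355328) (.ev (nat_lit 692) (nat_lit 1024) (.ev (nat_lit 756) (nat_lit 4503599627370496)
 (.ev (nat_lit 948) (nat_lit 8796093022208) (.nd (nat_lit 1552) (.br (nat_lit 6) (.br (nat_lit 4) (.ch (nat_lit
 1) (.ev (nat_lit 1568) (nat_lit 634420625444864) (.ev (nat_lit 1581) (nat_lit 17592186044416) .dd))) (.br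
 (nat_lit 5) (.ch (nat_lit 4) (.ev (nat_lit 1568) (nat_lit 634420625444864) (.ev (nat_lit 1581) (nat_lit
 17592186044416) .dd))) (.ch (nat_lit 5) (.ev (nat_lit 1568) (nat_lit 650910883938304) (.nd (nat_lit 2128) (.br
 (nat_lit 6) (.br (nat_lit 1) (.ch (nat_lit 0) (.ev (nat_lit 2144) (nat_lit 1099780067328) (.ev (nat_lit 2157)
 (nat_lit 2147483648) .dd))) (.br (nat_lit 5) (.ch (nat_lit 1) (.ev (nat_lit 2144) (nat_lit 1101927550976)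
 .dd)) (.ch (nat_lit 5) (.ev (nat_lit 2144) (nat_lit 1099511631872) (.ev (nat_lit 2256) (nat_lit 268435456)
 (.ev (nat_lit 2269) (nat_lit 2147483648) .dd)))))) (.br (nat_lit 10) (.ch (nat_lit 6) (.ev (nat_lit 2144)
 (nat_lit 2147487744) (.ev (nat_lit 2656) (nat_lit 1099780063232) .dd))) (.br (nat_lit 12) (.ch (nat_lit 10)
 (.ev (nat_lit 2144) (nat_lit 1101927550976) .dd)) (.ch (nat_lit 12) (.ev (nat_lit 2144) (nat_lit
 1099780063232) (.ev (nat_lit 2256) (nat_lit 2147487744) .dd))))))))))) (.br (nat_lit 8) (.ch (nat_lit 6) (.ev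
 (nat_lit 1568) (nat_lit 17594602225664) (.ev (nat_lit 1588) (nat_lit 4096) (.nd (nat_lit 2128) (.br (nat_lit
 5) (.br (nat_lit 1) (.ch (nat_lit 0) (.ev (nat_lit 2144) (nat_lit 562949953454080) (.ev (nat_lit 2176)
 (nat_lit 70368744177664) (.ev (nat_lit 2189) (nat_lit 1099511627776) .dd)))) (.br (nat_lit 3) (.ch (nat_lit 1)
 (.ev (nat_lit 2144) (nat_lit 71468255805440) (.ev (nat_lit 2244) (nat_lit 32768) (.ev (nat_lit 2253) (nat_lit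
 562949953421312) .dd)))) (.ch (nat_lit 3) (.ev (nat_lit 2144) (nat_lit 634418209226752) (.ev (nat_lit 2157)
 (nat_lit 32768) .dd))))) (.br (nat_lit 7) (.ch (nat_lit 5) (.ev (nat_lit 2144) (nat_lit 70368744210432) (.ev
 (nat_lit 2244) (nat_lit 562949953421312) (.ev (nat_lit 2253) (nat_lit 1099511627776) .dd)))) (.br (nat_lit 10)
 (.ch (nat_lit 7) (.ev (nat_lit 2144) (nat_lit 634418209259520) .dd)) (.ch (nat_lit 10) (.ev (nat_lit 2144)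
 (nat_lit 1099511627776) (.ev (nat_lit 2244) (nat_lit 562949953421312) (.ev (nat_lit 3236) (nat_lit
 70368744177664) (.ev (nat_lit 3245) (nat_lit 32768) .dd)))))))))))) (.br (nat_lit 12) (.ch (nat_lit 8) (.ev
 (nat_lit 1568) (nat_lit 633318966329344) (.ev (nat_lit 1588) (nat_lit 4096) (.ev (nat_lit 3136) (nat_lit
 2147483648) (.ev (nat_lit 3472) (nat_lit 18691697672192) .dd))))) (.ch (nat_lit 12) (.ev (nat_lit 1568)
 (nat_lit 634418209263616) (.ev (nat_lit 2340) (nat_lit 262144) (.ev (nat_lit 2948) (nat_lit 2147483648) (.ev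
 (nat_lit 3088) (nat_lit 268435456) (.ev (nat_lit 3101) (nat_lit 17592186044416) .dd)))))))))))))))))) (.br
 (nat_lit 62) (.ch (nat_lit 58) (.ev (nat_lit 52) (nat_lit 83013396692992) (.ev (nat_lit 116) (nat_lit
 274877906944) (.ev (nat_lit 288) (nat_lit 5229348170898976) .dd)))) (.ch (nat_lit 62) (.ev (nat_lit 52)
 (nat_lit 587139209664000) (.ev (nat_lit 148) (nat_lit 32) (.ev (nat_lit 308) (nat_lit 274877906944) (.ev
 (nat_lit 340) (nat_lit 549755813888) (.ev (nat_lit 404) (nat_lit 2147483648) (.ev (nat_lit 628) (nat_lit 2048)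
 (.ev (nat_lit 884) (nat_lit 4503599627370496) (.ev (nat_lit 916) (nat_lit 65536) (.nd (nat_lit 1552) (.br
 (nat_lit 8) (.br (nat_lit 5) (.ch (nat_lit 1) (.ev (nat_lit 1568) (nat_lit 221002105618432) (.nd (nat_lit
 2128) (.br (nat_lit 4) (.br (nat_lit 3) (.ch (nat_lit 0) (.ev (nat_lit 2144) (nat_lit 2097152) (.ev (nat_lit
 2157) (nat_lit 68719476736) .dd))) (.ch (nat_lit 3) (.ev (nat_lit 2144) (nat_lit 68721573888) .dd))) (.br
 (nat_lit 8) (.ch (nat_lit 4) (.ev (nat_lit 2144) (nat_lit 68719476736) (.ev (nat_lit 2157) (nat_lit 2097152)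
 .dd))) (.ch (nat_lit 8) (.ev (nat_lit 2144) (nat_lit 2097152) (.ev (nat_lit 2157) (nat_lit 68719476736)
 .dd)))))))) (.br (nat_lit 6) (.ch (nat_lit 5) (.ev (nat_lit 1568) (nat_lit 212274465734656) (.nd (nat_lit
 2128) (.br (nat_lit 5) (.br (nat_lit 4) (.ch (nat_lit 1) (.ev (nat_lit 2144) (nat_lit 268435456) (.ev (nat_lit
 2157) (nat_lit 8796093022208) .dd))) (.ch (nat_lit 4) (.ev (nat_lit 2144) (nat_lit 8796361457664) .dd))) (.br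
 (nat_lit 6) (.ch (nat_lit 5) (.ev (nat_lit 2144) (nat_lit 8796093022208) (.ev (nat_lit 2157) (nat_lit
 268435456) .dd))) (.br (nat_lit 12) (.ch (nat_lit 6) (.ev (nat_lit 2256) (nat_lit 8796093022208) (.ev (nat_lit
 2269) (nat_lit 268435456) .dd))) (.ch (nat_lit 12) (.ev (nat_lit 2144) (nat_lit 8796093022208) (.ev (nat_lit
 2157) (nat_lit 268435456) .dd))))))))) (.ch (nat_lit 6) (.ev (nat_lit 1568) (nat_lit 150702080917504) (.ev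
 (nat_lit 2384) (nat_lit 70368744177664) (.ev (nat_lit 2397) (nat_lit 2097152) .dd)))))) (.br (nat_lit 9) (.ch
 (nat_lit 8) (.ev (nat_lit 1568) (nat_lit 80333338836992) (.ev (nat_lit 1581) (nat_lit 140737488355328) .dd)))
 (.br (nat_lit 11) (.ch (nat_lit 9) (.ev (nat_lit 1568) (nat_lit 79233558773760) (.nd (nat_lit 2128) (.br
 (nat_lit 9) (.br (nat_lit 8) (.ch (nat_lit 3) (.ev (nat_lit 2144) (nat_lit 1099780063232) (.ev (nat_lit 2157)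
 (nat_lit 140737488355328) .dd))) (.ch (nat_lit 8) (.ev (nat_lit 2144) (nat_lit 141837268418560) .dd))) (.br
 (nat_lit 10) (.ch (nat_lit 9) (.ev (nat_lit 2144) (nat_lit 140737488355328) (.ev (nat_lit 2948) (nat_lit
 268435456) (.ev (nat_lit 2957) (nat_lit 1099511627776) .dd)))) (.br (nat_lit 12) (.ch (nat_lit 10) (.ev
 (nat_lit 2144) (nat_lit 1099780063232) (.ev (nat_lit 2157) (nat_lit 140737488355328) .dd))) (.ch (nat_lit 12)
 (.ev (nat_lit 2144) (nat_lit 140737756790784) (.ev (nat_lit 2157) (nat_lit 1099511627776) .dd))))))))) (.ch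
 (nat_lit 11) (.ev (nat_lit 1568) (nat_lit 140737756790784) (.nd (nat_lit 2128) (.br (nat_lit 4) (.br (nat_lit
 1) (.ch (nat_lit 0) (.ev (nat_lit 2144) (nat_lit 80264348827648) (.ev (nat_lit 3024) (nat_lit 68719476736)
 (.ev (nat_lit 3037) (nat_lit 2097152) .dd)))) (.br (nat_lit 2) (.ch (nat_lit 1) (.ev (nat_lit 2144) (nat_lit
 71468257902592) (.ev (nat_lit 2480) (nat_lit 8864812498944) .dd))) (.ch (nat_lit 2) (.ev (nat_lit 2144)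
 (nat_lit 80264350924800) (.ev (nat_lit 2157) (nat_lit 68719476736) .dd))))) (.br (nat_lit 5) (.ch (nat_lit 4)
 (.ev (nat_lit 2144) (nat_lit 68719476736) (.ev (nat_lit 2244) (nat_lit 70368744177664) (.ev (nat_lit 2340)
 (nat_lit 8796093022208) (.ev (nat_lit 2960) (nat_lit 1099513724928) .dd))))) (.br (nat_lit 12) (.ch (nat_lit
 5) (.ev (nat_lit 2144) (nat_lit 8864814596096) (.ev (nat_lit 2244) (nat_lit 70368744177664) (.ev (nat_lit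
 2253) (nat_lit 1099511627776) .dd)))) (.ch (nat_lit 12) (.ev (nat_lit 2144) (nat_lit 8864814596096) (.ev
 (nat_lit 2340) (nat_lit 70368744177664) (.ev (nat_lit 2349) (nat_lit 1099511627776)
 .dd)))))))))))))))))))))))))) (.br (nat_lit 68) (.br (nat_lit 65) (.ch (nat_lit 64) (.ev (nat_lit 52) (nat_lit
 4720755321410592) (.ev (nat_lit 148) (nat_lit 68719476736) (.ev (nat_lit 500) (nat_lit 262144) (.ev (nat_lit
 1012) (nat_lit 274877906944) (.ev (nat_lit 1268) (nat_lit 512) (.nd (nat_lit 1552) (.br (nat_lit 8) (.br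
 (nat_lit 4) (.ch (nat_lit 0) (.ev (nat_lit 1568) (nat_lit 26388549732352) (.nd (nat_lit 2128) (.br (nat_lit 9)
 (.ch (nat_lit 2) (.ev (nat_lit 2144) (nat_lit 2199023255552) (.ev (nat_lit 2948) (nat_lit 562949953421312)
 (.ev (nat_lit 2957) (nat_lit 32768) .dd)))) (.ch (nat_lit 9) (.ev (nat_lit 2144) (nat_lit 562949953454080)
 (.ev (nat_lit 2157) (nat_lit 2199023255552) .dd))))))) (.br (nat_lit 5) (.ch (nat_lit 4) (.ev (nat_lit 1568)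
 (nat_lit 562950224119808) (.ev (nat_lit 2192) (nat_lit 2199023255552) (.ev (nat_lit 2948) (nat_lit
 17592186044416) (.ev (nat_lit 2957) (nat_lit 8796093022208) .dd))))) (.ch (nat_lit 5) (.ev (nat_lit 1568)
 (nat_lit 19791211563008) (.nd (nat_lit 2128) (.br (nat_lit 4) (.br (nat_lit 1) (.ch (nat_lit 0) (.ev (nat_lit
 2144) (nat_lit 8796361457664) (.ev (nat_lit 2157) (nat_lit 562949953421312) .dd))) (.br (nat_lit 3) (.ch
 (nat_lit 1) (.ev (nat_lit 2244) (nat_lit 562949953421312) (.ev (nat_lit 2480) (nat_lit 268435456) (.ev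
 (nat_lit 2493) (nat_lit 8796093022208) .dd)))) (.ch (nat_lit 3) (.ev (nat_lit 2144) (nat_lit 562950221856768)
 (.ev (nat_lit 2157) (nat_lit 8796093022208) .dd))))) (.br (nat_lit 6) (.ch (nat_lit 4) (.ev (nat_lit 2144)
 (nat_lit 562949953421312) (.ev (nat_lit 2256) (nat_lit 8796093022208) (.ev (nat_lit 2269) (nat_lit 268435456)
 .dd)))) (.br (nat_lit 10) (.ch (nat_lit 6) (.ev (nat_lit 2144) (nat_lit 562949953421312) (.ev (nat_lit 2352)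
 (nat_lit 268435456) (.ev (nat_lit 2365) (nat_lit 8796093022208) .dd)))) (.ch (nat_lit 10) (.ev (nat_lit 2144)
 (nat_lit 562950221856768) (.ev (nat_lit 2157) (nat_lit 8796093022208) .dd))))))))))) (.br (nat_lit 9) (.ch
 (nat_lit 8) (.ev (nat_lit 1568) (nat_lit 565149247375360) (.ev (nat_lit 2192) (nat_lit 8796093022208) (.ev
 (nat_lit 2205) (nat_lit 17592186044416) .dd)))) (.br (nat_lit 12) (.ch (nat_lit 9) (.ev (nat_lit 1568)
 (nat_lit 591537524211712) (.ev (nat_lit 2340) (nat_lit 2097152) (.ev (nat_lit 2960) (nat_lit 133120) .dd))))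
 (.ch (nat_lit 12) (.ev (nat_lit 1568) (nat_lit 591537255876608) (.ev (nat_lit 3104) (nat_lit 268435456) (.ev
 (nat_lit 3236) (nat_lit 32768) (.ev (nat_lit 3245) (nat_lit 2097152) .dd))))))))))))))) (.br (nat_lit 67) (.ch
 (nat_lit 65) (.ev (nat_lit 52) (nat_lit 4728451903195168) (.ev (nat_lit 116) (nat_lit 32768) (.ev (nat_lit
 180) (nat_lit 274877907968) (.ev (nat_lit 756) (nat_lit 1099511627776) (.nd (nat_lit 1552) (.br (nat_lit 8)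
 (.br (nat_lit 4) (.ch (nat_lit 1) (.ev (nat_lit 1568) (nat_lit 563018943435264) (.nd (nat_lit 2128) (.br
 (nat_lit 7) (.br (nat_lit 1) (.ch (nat_lit 0) (.ev (nat_lit 2144) (nat_lit 19791209299968) .dd)) (.ch (nat_lit
 1) (.ev (nat_lit 2144) (nat_lit 19791209299968) .dd))) (.br (nat_lit 8) (.ch (nat_lit 7) (.ev (nat_lit 2144)
 (nat_lit 17592186044416) (.ev (nat_lit 2157) (nat_lit 2199023255552) .dd))) (.br (nat_lit 10) (.ch (nat_lit 8)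
 (.ev (nat_lit 2144) (nat_lit 17592186044416) (.ev (nat_lit 2157) (nat_lit 2199023255552) .dd))) (.ch (nat_lit
 10) (.ev (nat_lit 2144) (nat_lit 2199023255552) (.ev (nat_lit 2157) (nat_lit 17592186044416) .dd))))))))) (.br
 (nat_lit 5) (.ch (nat_lit 4) (.ev (nat_lit 1568) (nat_lit 580610858942464) (.ev (nat_lit 2160) (nat_lit
 2097664) (.ev (nat_lit 3300) (nat_lit 4096) (.nd (nat_lit 3872) (.br (nat_lit 6) (.ch (nat_lit 1) (.ev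
 (nat_lit 3888) (nat_lit 2199291691008) .dd)) (.ch (nat_lit 6) (.fin (nat_lit 576439311832400417))))))))) (.ch
 (nat_lit 5) (.ev (nat_lit 1568) (nat_lit 582741433254400) (.nd (nat_lit 2128) (.br (nat_lit 10) (.ch (nat_lit
 1) (.ev (nat_lit 2144) (nat_lit 68719476736) (.ev (nat_lit 2157) (nat_lit 4096) .dd))) (.ch (nat_lit 10) (.ev
 (nat_lit 2160) (nat_lit 68719480832) .dd)))))))) (.br (nat_lit 9) (.ch (nat_lit 8) (.ev (nat_lit 1568)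
 (nat_lit 582810152731136) (.ev (nat_lit 1581) (nat_lit 4096) .dd))) (.br (nat_lit 11) (.ch (nat_lit 9) (.ev
 (nat_lit 1568) (nat_lit 68987916288) (.ev (nat_lit 2084) (nat_lit 2097152) (.ev (nat_lit 2976) (nat_lit 512)
 (.ev (nat_lit 3024) (nat_lit 17592186044416) (.ev (nat_lit 3088) (nat_lit 562949953421312) (.ev (nat_lit 3101)
 (nat_lit 2199023255552) .dd))))))) (.ch (nat_lit 11) (.ev (nat_lit 1568) (nat_lit 582741162725888) (.ev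
 (nat_lit 1876) (nat_lit 268435456) (.ev (nat_lit 2244) (nat_lit 68719476736) (.ev (nat_lit 2253) (nat_lit
 2097152) .dd)))))))))))))) (.ch (nat_lit 67) (.ev (nat_lit 52) (nat_lit 648231092623360) (.ev (nat_lit 180)
 (nat_lit 32) (.ev (nat_lit 244) (nat_lit 274877906944) (.ev (nat_lit 340) (nat_lit 2097152) (.ev (nat_lit 372)
 (nat_lit 17592186044416) (.ev (nat_lit 436) (nat_lit 2199023256576) (.ev (nat_lit 692) (nat_lit
 140737488355328) (.nd (nat_lit 1552) (.br (nat_lit 6) (.br (nat_lit 5) (.ch (nat_lit 0) (.ev (nat_lit 1568)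
 (nat_lit 4503601774886912) (.ev (nat_lit 2468) (nat_lit 262144) (.ev (nat_lit 2548) (nat_lit 65536) (.ev
 (nat_lit 2557) (nat_lit 512) .dd))))) (.ch (nat_lit 5) (.ev (nat_lit 1568) (nat_lit 512) (.ev (nat_lit 2052)
 (nat_lit 262144) (.ev (nat_lit 2288) (nat_lit 4503599627370496) (.ev (nat_lit 2960) (nat_lit 2147483648) (.ev
 (nat_lit 3520) (nat_lit 98304) .dd))))))) (.br (nat_lit 8) (.ch (nat_lit 6) (.ev (nat_lit 1568) (nat_lit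
 4503601775181824) (.nd (nat_lit 2128) (.br (nat_lit 5) (.br (nat_lit 3) (.ch (nat_lit 1) (.fin (nat_lit
 576456904023687736))) (.ch (nat_lit 3) (.ev (nat_lit 2144) (nat_lit 33280) .dd))) (.br (nat_lit 8) (.ch
 (nat_lit 5) (.ev (nat_lit 3248) (nat_lit 32768) (.ev (nat_lit 3261) (nat_lit 512) .dd))) (.ch (nat_lit 8) (.ev
 (nat_lit 2144) (nat_lit 512) (.ev (nat_lit 2157) (nat_lit 32768) .dd)))))))) (.br (nat_lit 9) (.ch (nat_lit 8)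
 (.ev (nat_lit 1568) (nat_lit 2147779072) (.ev (nat_lit 2976) (nat_lit 65536) (.ev (nat_lit 2989) (nat_lit
 4503599627370496) .dd)))) (.ch (nat_lit 9) (.ev (nat_lit 1568) (nat_lit 2147582464) (.ev (nat_lit 3300)
 (nat_lit 262144) (.ev (nat_lit 3309) (nat_lit 4503599627370496) .dd)))))))))))))))))) (.br (nat_lit 69) (.ch
 (nat_lit 68) (.ev (nat_lit 52) (nat_lit 4577816664378368) (.ev (nat_lit 116) (nat_lit 140737488355328) (.ev
 (nat_lit 416) (nat_lit 594082292765216) .dd)))) (.br (nat_lit 70) (.ch (nat_lit 69) (.ev (nat_lit 52) (nat_lit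
 775707871676448) (.ev (nat_lit 148) (nat_lit 274877906944) (.ev (nat_lit 212) (nat_lit 131072) (.ev (nat_lit
 852) (nat_lit 8796093022208) (.ev (nat_lit 1024) (nat_lit 4527857602762240) .dd)))))) (.ch (nat_lit 70) (.ev
 (nat_lit 52) (nat_lit 229042286956544) (.ev (nat_lit 244) (nat_lit 4398046511104) (.ev (nat_lit 308) (nat_lit
 32768) (.ev (nat_lit 832) (nat_lit 5079196111998496) .dd)))))))))))))

/-- The trie. -/
noncomputable def T : Tr := .nd (nat_lit 1000000) (.br (nat_lit 3) (.br (nat_lit 1) (.ch (nat_lit 0) (.ev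
 (nat_lit 0) (nat_lit 9007199254740991) .dd)) (.br (nat_lit 2) (.ch (nat_lit 1) (.ev (nat_lit 0) (nat_lit
 9007199254740991) .dd)) (.ch (nat_lit 2) T2))) (.br (nat_lit 4) (.ch (nat_lit 3) (.ev (nat_lit 0) (nat_lit
 9007199254740991) .dd)) (.br (nat_lit 5) (.ch (nat_lit 4) T4) (.ch (nat_lit 5) T5))))

/-- The possible values. -/
noncomputable def oks : List ℕ := [66, 274, 706, 1914]

/-- The parameters. -/
noncomputable def S : Pr := ⟨fun i l e => lget mz (lget [] (lget [] tabs i) l) e, oks, [(nat_lit 0), (nat_lit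
 1), (nat_lit 0), (nat_lit 0)], T, (nat_lit 9007199254740991), (nat_lit 2287041271849359), (nat_lit 53),
 [(nat_lit 11), (nat_lit 87122173451996128837)], [(nat_lit 2197), (nat_lit 5041)]⟩

/-- Nothing known. -/
noncomputable def cs0 : Cs := (.cons (nat_lit 13) (nat_lit 0) (nat_lit 1) (.cons (nat_lit 71) (nat_lit 0) (nat_lit 1) .nil))

theorem part_2 : part S cs0 (nat_lit 2) = true := by decide +kernel

theorem part_4 : part S cs0 (nat_lit 4) = true := by decide +kernel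

theorem part_5 : part S cs0 (nat_lit 5) = true := by decide +kernel

/-- Data of a prime. -/
noncomputable def D0 : PD := ⟨(nat_lit 13), (nat_lit 3), (963, 6, 3), (1541, 898, 2148), (848, 1279, 820)⟩

theorem D0_ok : D0.Ok := pdb_sound (s := 2) (C := ⟨⟨3, 18, -4, -17, 2, 1, 2, -1, -7⟩, (3, 9, 2)⟩) (by show Nat.Prime 13; norm_num) (by decide +kernel)

/-- Lines of the first type. -/
noncomputable def Cl0 : List C1 := [⟨⟨17, -2, -16, 3, 18, 1, -2, 1, -5⟩, (10, 1, 8)⟩,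
  ⟨⟨3, -18, -4, -17, -2, 1, 2, 1, -7⟩, (5, 2, 12)⟩,
  ⟨⟨0, 0, 0, 0, 0, 0, 0, 0, 0⟩, (0, 0, 0)⟩,
  ⟨⟨17, 2, -16, 3, -18, 1, -2, -1, -5⟩, (8, 6, 9)⟩,
  ⟨⟨0, 0, 0, 0, 0, 0, 0, 0, 0⟩, (0, 0, 0)⟩,
  ⟨⟨0, 0, 0, 0, 0, 0, 0, 0, 0⟩, (0, 0, 0)⟩,
  ⟨⟨0, 0, 0, 0, 0, 0, 0, 0, 0⟩, (0, 0, 0)⟩,
  ⟨⟨0, 0, 0, 0, 0, 0, 0, 0, 0⟩, (0, 0, 0)⟩,
  ⟨⟨0, 0, 0, 0, 0, 0, 0, 0, 0⟩, (0, 0, 0)⟩,
  ⟨⟨0, 0, 0, 0, 0, 0, 0, 0, 0⟩, (0, 0, 0)⟩,
  ⟨⟨0, 0, 0, 0, 0, 0, 0, 0, 0⟩, (0, 0, 0)⟩,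
  ⟨⟨0, 0, 0, 0, 0, 0, 0, 0, 0⟩, (0, 0, 0)⟩,
  ⟨⟨0, 0, 0, 0, 0, 0, 0, 0, 0⟩, (0, 0, 0)⟩]

/-- Data of a prime. -/
noncomputable def D1 : PD := ⟨(nat_lit 71), (nat_lit 2), (72, 9, 33), (3977, 4536, 3372), (4173, 4400, 3526)⟩

theorem D1_ok : D1.Ok := pdb_sound (s := 11) (C := ⟨⟨59, 34, -112, -29, 94, 37, -24, -3, -11⟩, (59, 42, 47)⟩) (by show Nat.Prime 71; norm_num) (by decide +kernel)

/-- Lines of the first type. -/
noncomputable def Cl1 : List C1 := [⟨⟨-59, -34, -53, 29, -94, 8, 24, 3, -35⟩, (17, 47, 34)⟩,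
  ⟨⟨0, 0, 0, 0, 0, 0, 0, 0, 0⟩, (0, 0, 0)⟩,
  ⟨⟨49, -74, -77, 79, 14, 28, 12, 21, -29⟩, (59, 56, 13)⟩,
  ⟨⟨0, 0, 0, 0, 0, 0, 0, 0, 0⟩, (0, 0, 0)⟩,
  ⟨⟨0, 0, 0, 0, 0, 0, 0, 0, 0⟩, (0, 0, 0)⟩,
  ⟨⟨0, 0, 0, 0, 0, 0, 0, 0, 0⟩, (0, 0, 0)⟩,
  ⟨⟨79, -14, -107, 49, 74, 28, -12, 21, -17⟩, (44, 21, 5)⟩,
  ⟨⟨0, 0, 0, 0, 0, 0, 0, 0, 0⟩, (0, 0, 0)⟩,
  ⟨⟨0, 0, 0, 0, 0, 0, 0, 0, 0⟩, (0, 0, 0)⟩,
  ⟨⟨39, 66, -92, -89, 46, 37, -8, -19, -23⟩, (13, 65, 21)⟩,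
  ⟨⟨19, 46, -107, -91, -26, 8, 12, -27, -19⟩, (7, 30, 53)⟩,
  ⟨⟨0, 0, 0, 0, 0, 0, 0, 0, 0⟩, (0, 0, 0)⟩,
  ⟨⟨0, 0, 0, 0, 0, 0, 0, 0, 0⟩, (0, 0, 0)⟩,
  ⟨⟨99, 6, -67, 11, -94, 32, -4, -11, -31⟩, (13, 33, 59)⟩,
  ⟨⟨-39, -66, -53, -89, 46, 52, 8, 19, -31⟩, (17, 57, 22)⟩,
  ⟨⟨0, 0, 0, 0, 0, 0, 0, 0, 0⟩, (0, 0, 0)⟩,
  ⟨⟨0, 0, 0, 0, 0, 0, 0, 0, 0⟩, (0, 0, 0)⟩,
  ⟨⟨19, -46, -107, -91, 26, 8, 12, 27, -19⟩, (15, 44, 2)⟩,
  ⟨⟨0, 0, 0, 0, 0, 0, 0, 0, 0⟩, (0, 0, 0)⟩,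
  ⟨⟨0, 0, 0, 0, 0, 0, 0, 0, 0⟩, (0, 0, 0)⟩,
  ⟨⟨51, 66, -88, -59, 74, 67, -20, -5, -17⟩, (59, 64, 59)⟩,
  ⟨⟨49, 74, -77, 79, -14, 28, 12, -21, -29⟩, (6, 43, 29)⟩,
  ⟨⟨0, 0, 0, 0, 0, 0, 0, 0, 0⟩, (0, 0, 0)⟩,
  ⟨⟨0, 0, 0, 0, 0, 0, 0, 0, 0⟩, (0, 0, 0)⟩,
  ⟨⟨0, 0, 0, 0, 0, 0, 0, 0, 0⟩, (0, 0, 0)⟩,
  ⟨⟨31, 74, -83, -81, 54, 68, -16, -13, -19⟩, (8, 2, 60)⟩,
  ⟨⟨0, 0, 0, 0, 0, 0, 0, 0, 0⟩, (0, 0, 0)⟩,
  ⟨⟨11, 94, -43, -99, 6, 32, 4, -11, -35⟩, (69, 18, 38)⟩,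
  ⟨⟨-51, 66, -37, 59, 74, 8, 20, -5, -37⟩, (25, 56, 25)⟩,
  ⟨⟨0, 0, 0, 0, 0, 0, 0, 0, 0⟩, (0, 0, 0)⟩,
  ⟨⟨39, -66, -92, -89, -46, 37, -8, 19, -23⟩, (43, 2, 64)⟩,
  ⟨⟨0, 0, 0, 0, 0, 0, 0, 0, 0⟩, (0, 0, 0)⟩,
  ⟨⟨59, -34, -112, -29, -94, 37, -24, 3, -11⟩, (9, 4, 18)⟩,
  ⟨⟨0, 0, 0, 0, 0, 0, 0, 0, 0⟩, (0, 0, 0)⟩,
  ⟨⟨0, 0, 0, 0, 0, 0, 0, 0, 0⟩, (0, 0, 0)⟩,
  ⟨⟨-59, 34, -53, 29, 94, 8, 24, -3, -35⟩, (8, 43, 16)⟩,
  ⟨⟨0, 0, 0, 0, 0, 0, 0, 0, 0⟩, (0, 0, 0)⟩,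
  ⟨⟨11, -94, -43, -99, -6, 32, 4, 11, -35⟩, (2, 53, 33)⟩,
  ⟨⟨0, 0, 0, 0, 0, 0, 0, 0, 0⟩, (0, 0, 0)⟩,
  ⟨⟨0, 0, 0, 0, 0, 0, 0, 0, 0⟩, (0, 0, 0)⟩,
  ⟨⟨51, -66, -88, -59, -74, 67, -20, 5, -17⟩, (18, 46, 18)⟩,
  ⟨⟨-19, -46, -88, -91, -26, 83, -12, 27, -7⟩, (26, 61, 65)⟩,
  ⟨⟨0, 0, 0, 0, 0, 0, 0, 0, 0⟩, (0, 0, 0)⟩,
  ⟨⟨0, 0, 0, 0, 0, 0, 0, 0, 0⟩, (0, 0, 0)⟩,
  ⟨⟨0, 0, 0, 0, 0, 0, 0, 0, 0⟩, (0, 0, 0)⟩,
  ⟨⟨-19, 46, -88, -91, 26, 83, -12, -27, -7⟩, (18, 4, 45)⟩,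
  ⟨⟨0, 0, 0, 0, 0, 0, 0, 0, 0⟩, (0, 0, 0)⟩,
  ⟨⟨0, 0, 0, 0, 0, 0, 0, 0, 0⟩, (0, 0, 0)⟩,
  ⟨⟨0, 0, 0, 0, 0, 0, 0, 0, 0⟩, (0, 0, 0)⟩,
  ⟨⟨0, 0, 0, 0, 0, 0, 0, 0, 0⟩, (0, 0, 0)⟩,
  ⟨⟨0, 0, 0, 0, 0, 0, 0, 0, 0⟩, (0, 0, 0)⟩,
  ⟨⟨0, 0, 0, 0, 0, 0, 0, 0, 0⟩, (0, 0, 0)⟩,
  ⟨⟨99, -6, -67, 11, 94, 32, -4, 11, -31⟩, (48, 29, 54)⟩,
  ⟨⟨0, 0, 0, 0, 0, 0, 0, 0, 0⟩, (0, 0, 0)⟩,
  ⟨⟨0, 0, 0, 0, 0, 0, 0, 0, 0⟩, (0, 0, 0)⟩,
  ⟨⟨0, 0, 0, 0, 0, 0, 0, 0, 0⟩, (0, 0, 0)⟩,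
  ⟨⟨-51, -66, -37, 59, -74, 8, 20, 5, -37⟩, (55, 38, 55)⟩,
  ⟨⟨0, 0, 0, 0, 0, 0, 0, 0, 0⟩, (0, 0, 0)⟩,
  ⟨⟨0, 0, 0, 0, 0, 0, 0, 0, 0⟩, (0, 0, 0)⟩,
  ⟨⟨-31, -74, -52, -81, 54, 13, 16, 13, -35⟩, (64, 55, 54)⟩,
  ⟨⟨-31, 74, -52, -81, -54, 13, 16, -13, -35⟩, (11, 15, 47)⟩,
  ⟨⟨-39, 66, -53, -89, -46, 52, 8, -19, -31⟩, (58, 65, 50)⟩,
  ⟨⟨0, 0, 0, 0, 0, 0, 0, 0, 0⟩, (0, 0, 0)⟩,
  ⟨⟨79, 14, -107, 49, -74, 28, -12, -21, -17⟩, (57, 3, 21)⟩,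
  ⟨⟨0, 0, 0, 0, 0, 0, 0, 0, 0⟩, (0, 0, 0)⟩,
  ⟨⟨0, 0, 0, 0, 0, 0, 0, 0, 0⟩, (0, 0, 0)⟩,
  ⟨⟨31, -74, -83, -81, -54, 68, -16, 13, -19⟩, (61, 33, 67)⟩,
  ⟨⟨0, 0, 0, 0, 0, 0, 0, 0, 0⟩, (0, 0, 0)⟩,
  ⟨⟨0, 0, 0, 0, 0, 0, 0, 0, 0⟩, (0, 0, 0)⟩,
  ⟨⟨0, 0, 0, 0, 0, 0, 0, 0, 0⟩, (0, 0, 0)⟩,
  ⟨⟨0, 0, 0, 0, 0, 0, 0, 0, 0⟩, (0, 0, 0)⟩]

/-- Data of a prime. -/
noncomputable def Dm : PD := ⟨(nat_lit 53), (nat_lit 2), (2545, 8, 14), (2610, 800, 1557), (1968, 957, 2439)⟩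

theorem Dm_ok : Dm.Ok := pdb_sound (s := 12) (C := ⟨⟨-13, 2, -76, -47, -58, 31, 18, -15, -13⟩, (40, 6, 18)⟩) (by show Nat.Prime 53; norm_num) (by decide +kernel)

/-- Lines of the first type. -/
noncomputable def Clm : List C1 := [⟨⟨13, -2, -89, -47, -58, 16, 18, -15, -5⟩, (17, 16, 48)⟩,
  ⟨⟨-23, 38, -56, 43, 58, 1, 18, -9, -23⟩, (9, 50, 16)⟩,
  ⟨⟨-23, -38, -56, 43, -58, 1, 18, 9, -23⟩, (18, 47, 32)⟩,
  ⟨⟨-13, -2, -76, -47, 58, 31, 18, 15, -13⟩, (20, 3, 9)⟩,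
  ⟨⟨0, 0, 0, 0, 0, 0, 0, 0, 0⟩, (0, 0, 0)⟩,
  ⟨⟨0, 0, 0, 0, 0, 0, 0, 0, 0⟩, (0, 0, 0)⟩,
  ⟨⟨0, 0, 0, 0, 0, 0, 0, 0, 0⟩, (0, 0, 0)⟩,
  ⟨⟨23, -38, -79, -43, -58, 44, -18, 9, -5⟩, (29, 8, 28)⟩,
  ⟨⟨33, -18, -89, 67, 2, 4, 2, 23, -7⟩, (12, 34, 20)⟩,
  ⟨⟨0, 0, 0, 0, 0, 0, 0, 0, 0⟩, (0, 0, 0)⟩,
  ⟨⟨0, 0, 0, 0, 0, 0, 0, 0, 0⟩, (0, 0, 0)⟩,
  ⟨⟨0, 0, 0, 0, 0, 0, 0, 0, 0⟩, (0, 0, 0)⟩,
  ⟨⟨0, 0, 0, 0, 0, 0, 0, 0, 0⟩, (0, 0, 0)⟩,
  ⟨⟨27, 42, -76, 7, 58, 49, 22, -7, -5⟩, (1, 14, 44)⟩,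
  ⟨⟨33, 18, -89, 67, -2, 4, 2, -23, -7⟩, (44, 1, 38)⟩,
  ⟨⟨0, 0, 0, 0, 0, 0, 0, 0, 0⟩, (0, 0, 0)⟩,
  ⟨⟨0, 0, 0, 0, 0, 0, 0, 0, 0⟩, (0, 0, 0)⟩,
  ⟨⟨0, 0, 0, 0, 0, 0, 0, 0, 0⟩, (0, 0, 0)⟩,
  ⟨⟨0, 0, 0, 0, 0, 0, 0, 0, 0⟩, (0, 0, 0)⟩,
  ⟨⟨57, 42, -56, -37, 62, 41, -10, 1, -19⟩, (20, 27, 3)⟩,
  ⟨⟨13, 2, -89, -47, 58, 16, 18, 15, -5⟩, (50, 19, 4)⟩,
  ⟨⟨0, 0, 0, 0, 0, 0, 0, 0, 0⟩, (0, 0, 0)⟩,
  ⟨⟨0, 0, 0, 0, 0, 0, 0, 0, 0⟩, (0, 0, 0)⟩,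
  ⟨⟨57, -42, -56, -37, -62, 41, -10, -1, -19⟩, (16, 11, 13)⟩,
  ⟨⟨0, 0, 0, 0, 0, 0, 0, 0, 0⟩, (0, 0, 0)⟩,
  ⟨⟨7, 58, -56, 27, 42, 49, 22, -7, -17⟩, (20, 9, 25)⟩,
  ⟨⟨0, 0, 0, 0, 0, 0, 0, 0, 0⟩, (0, 0, 0)⟩,
  ⟨⟨67, -2, -71, 33, 18, 56, -2, 23, -5⟩, (28, 13, 49)⟩,
  ⟨⟨0, 0, 0, 0, 0, 0, 0, 0, 0⟩, (0, 0, 0)⟩,
  ⟨⟨0, 0, 0, 0, 0, 0, 0, 0, 0⟩, (0, 0, 0)⟩,
  ⟨⟨23, 38, -79, -43, 58, 44, -18, -9, -5⟩, (20, 11, 12)⟩,
  ⟨⟨0, 0, 0, 0, 0, 0, 0, 0, 0⟩, (0, 0, 0)⟩,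
  ⟨⟨7, -58, -56, 27, -42, 49, 22, 7, -17⟩, (17, 5, 8)⟩,
  ⟨⟨0, 0, 0, 0, 0, 0, 0, 0, 0⟩, (0, 0, 0)⟩,
  ⟨⟨67, 2, -71, 33, -18, 56, -2, -23, -5⟩, (8, 34, 14)⟩,
  ⟨⟨27, -42, -76, 7, -58, 49, 22, 7, -5⟩, (50, 11, 27)⟩,
  ⟨⟨0, 0, 0, 0, 0, 0, 0, 0, 0⟩, (0, 0, 0)⟩,
  ⟨⟨0, 0, 0, 0, 0, 0, 0, 0, 0⟩, (0, 0, 0)⟩,
  ⟨⟨0, 0, 0, 0, 0, 0, 0, 0, 0⟩, (0, 0, 0)⟩,
  ⟨⟨0, 0, 0, 0, 0, 0, 0, 0, 0⟩, (0, 0, 0)⟩,
  ⟨⟨0, 0, 0, 0, 0, 0, 0, 0, 0⟩, (0, 0, 0)⟩,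
  ⟨⟨0, 0, 0, 0, 0, 0, 0, 0, 0⟩, (0, 0, 0)⟩,
  ⟨⟨0, 0, 0, 0, 0, 0, 0, 0, 0⟩, (0, 0, 0)⟩,
  ⟨⟨0, 0, 0, 0, 0, 0, 0, 0, 0⟩, (0, 0, 0)⟩,
  ⟨⟨0, 0, 0, 0, 0, 0, 0, 0, 0⟩, (0, 0, 0)⟩,
  ⟨⟨-37, 62, -4, -57, -42, 1, 10, -1, -29⟩, (22, 21, 27)⟩,
  ⟨⟨0, 0, 0, 0, 0, 0, 0, 0, 0⟩, (0, 0, 0)⟩,
  ⟨⟨0, 0, 0, 0, 0, 0, 0, 0, 0⟩, (0, 0, 0)⟩,
  ⟨⟨0, 0, 0, 0, 0, 0, 0, 0, 0⟩, (0, 0, 0)⟩,
  ⟨⟨0, 0, 0, 0, 0, 0, 0, 0, 0⟩, (0, 0, 0)⟩,
  ⟨⟨0, 0, 0, 0, 0, 0, 0, 0, 0⟩, (0, 0, 0)⟩,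
  ⟨⟨-37, -62, -4, -57, 42, 1, 10, 1, -29⟩, (6, 25, 17)⟩,
  ⟨⟨0, 0, 0, 0, 0, 0, 0, 0, 0⟩, (0, 0, 0)⟩]

/-- Unit moves. -/
noncomputable def U : List Mv := [mz,
  mz,
  mz,
  mz,
  mz,
  mz,
  ⟨⟨-1, 0, 1, 0, 1, 0, 0, 0, 1⟩, .nil, (nat_lit 12), (nat_lit 1), (nat_lit 4), (nat_lit 1), (0, 0, 0), [], 5⟩,
  ⟨⟨1, 0, 0, 0, -1, 0, 0, 0, 1⟩, .nil, (nat_lit 12), (nat_lit 3), (nat_lit 12), (nat_lit 1), (0, 0, 0), [], 11⟩,
  ⟨⟨-1, 0, 1, 0, -1, 0, 0, 0, 1⟩, .nil, (nat_lit 0), (nat_lit 3), (nat_lit 1), (nat_lit 0), (0, 0, 0), [], 10⟩,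
  ⟨⟨1, 0, 0, 0, -1, 0, 0, 0, 1⟩, .nil, (nat_lit 12), (nat_lit 3), (nat_lit 12), (nat_lit 1), (0, 0, 0), [], 11⟩,
  ⟨⟨-1, 0, 1, 0, 1, 0, 0, 0, 1⟩, .nil, (nat_lit 12), (nat_lit 1), (nat_lit 4), (nat_lit 1), (0, 0, 0), [], 5⟩,
  ⟨⟨-1, 0, 1, 0, -1, 0, 0, 0, 1⟩, .nil, (nat_lit 0), (nat_lit 3), (nat_lit 1), (nat_lit 0), (0, 0, 0), [], 10⟩,
  ⟨⟨1, 0, 0, 0, -1, 0, 0, 0, 1⟩, .nil, (nat_lit 12), (nat_lit 3), (nat_lit 12), (nat_lit 1), (0, 0, 0), [], 11⟩]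

theorem v_ty : tyb Dm S.ty1 Clm = true := by decide +kernel

theorem v_ty0 : tyb D0 (S.tys.getD 0 0) Cl0 = true := by decide +kernel

theorem v_ty1 : tyb D1 (S.tys.getD 1 0) Cl1 = true := by decide +kernel

theorem v_msc : mscb S D0 [D1] Dm (nat_lit 52) = true := by decide +kernel

theorem v_mv0 : mvsn (nat_lit 31109891293) S D0 [D1] Dm (nat_lit 52) 0 D0 = true := by decide +kernel

theorem v_mv1 : mvsn (nat_lit 31109891293) S D0 [D1] Dm (nat_lit 52) 1 D1 = true := by decide +kernel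

theorem v_mm : mmsn (nat_lit 31109891293) S D0 [D1] Dm (nat_lit 52) = true := by decide +kernel

theorem v_un : unb S D0 (nat_lit 52) U = true := by decide +kernel

theorem v_ok : okb S.oks [(0, 0, 0), (0, 0, 0), (0, 0, 0), (0, 0, 0)] = true := by decide +kernel

theorem v_part : ∀ d < D0.p, (nat_lit 52).testBit d = true → part S (zc (D0 :: [D1])) d = true := by
  intro d hd h
  have h1 : ∀ d < 13, (nat_lit 52).testBit d = true → d = 2 ∨ d = 4 ∨ d = 5 := by decide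
  rcases h1 d hd h with rfl | rfl | rfl
  · exact part_2
  · exact part_4
  · exact part_5

theorem main (n : ℕ) (ho : Odd n) (hr : ¬ Rep n) (h0 : Split 13 n) (h1 : Split 71 n) (hm : Split 53 n) :
    n ∈ EE := by
  refine concln (W := nat_lit 31109891293) (S := S) (P0 := D0) (Pl := [D1]) (Pm := Dm) (cn := nat_lit 52) ?_ Dm_ok v_ty ?_ ?_ v_msc ?_ v_mm v_un v_part v_ok
    n ho hr ?_ hm
  · simp only [List.forall_mem_cons]
    exact ⟨D0_ok, D1_ok, fun _ h => absurd h (by simp)⟩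
  · exact all2 (φ := fun j P => ∃ L, tyb P (S.tys.getD j 0) L = true) ⟨_, v_ty0⟩ ⟨_, v_ty1⟩
  · exact all2 (φ := fun j P => Nat.ble (S.pks.getD j 0) (Nat.pow P.p P.K) = true) (by decide +kernel) (by decide +kernel)
  · exact all2 (φ := fun i P => mvsn (nat_lit 31109891293) S D0 [D1] Dm (nat_lit 52) i P = true) v_mv0 v_mv1
  · simp only [List.forall_mem_cons]
    exact ⟨h0, h1, fun _ h => absurd h (by simp)⟩

end Pool.Agent.Work.MP_9954fe_nt.P13_71_53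

namespace Pool.Agent.Work.MP_9954fe_nt.P19_37_47

/-- Dummy move. -/
noncomputable def mz : Mv := ⟨⟨0, 0, 0, 0, 0, 0, 0, 0, 0⟩, .nil, (nat_lit 0), (nat_lit 0), (nat_lit 0), (nat_lit 0), (0, 0, 0), [], 0⟩

/-- Moves. -/
noncomputable def t0_1 : List Mv := [
  ⟨⟨15, -4, -23, -10, 9, -10, 12, 12, -7⟩, (.cons (nat_lit 1532261) (nat_lit 367811) (nat_lit 1571310) (nat_lit
 1) (.cons (nat_lit 1531543) (nat_lit 748935) (nat_lit 522834) (nat_lit 1) .nil)), (nat_lit 6), (nat_lit 2),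
 (nat_lit 9), (nat_lit 1), (18, 7, 3), [221342, 478084], 7⟩,
  ⟨⟨15, -4, -23, 10, -9, 10, 12, 12, -7⟩, (.cons (nat_lit 92011) (nat_lit 1913232) (nat_lit 1) (nat_lit
 1286072) (.cons (nat_lit 93230) (nat_lit 807611) (nat_lit 348096) (nat_lit 1) .nil)), (nat_lit 1), (nat_lit
 21), (nat_lit 3), (nat_lit 1), (18, 12, 3), [1913650, 784035], 3⟩,
  ⟨⟨15, -4, -23, -10, 9, -10, 12, 12, -7⟩, (.cons (nat_lit 1532261) (nat_lit 367811) (nat_lit 1571310) (nat_lit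
 1) (.cons (nat_lit 1531543) (nat_lit 748935) (nat_lit 522834) (nat_lit 1) .nil)), (nat_lit 6), (nat_lit 2),
 (nat_lit 9), (nat_lit 1), (18, 7, 3), [221342, 478084], 7⟩,
  ⟨⟨15, -4, -23, -10, 9, -10, 12, 12, -7⟩, (.cons (nat_lit 1532261) (nat_lit 367811) (nat_lit 1571310) (nat_lit
 1) (.cons (nat_lit 1531543) (nat_lit 748935) (nat_lit 522834) (nat_lit 1) .nil)), (nat_lit 6), (nat_lit 2),
 (nat_lit 9), (nat_lit 1), (18, 7, 3), [221342, 478084], 7⟩,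
  ⟨⟨-3, 16, 16, 10, -9, 10, 12, 12, -7⟩, (.cons (nat_lit 463037) (nat_lit 1963987) (nat_lit 463056) (nat_lit 1)
 (.cons (nat_lit 1874160) (nat_lit 1828930) (nat_lit 789613) (nat_lit 1) .nil)), (nat_lit 46), (nat_lit 26),
 (nat_lit 3), (nat_lit 1), (4, 12, 3), [996079, 1630685], 3⟩,
  ⟨⟨15, -4, -23, -10, 9, -10, 12, 12, -7⟩, (.cons (nat_lit 1532261) (nat_lit 367811) (nat_lit 1571310) (nat_lit
 1) (.cons (nat_lit 1531543) (nat_lit 748935) (nat_lit 522834) (nat_lit 1) .nil)), (nat_lit 6), (nat_lit 2),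
 (nat_lit 9), (nat_lit 1), (18, 7, 3), [221342, 478084], 7⟩,
  ⟨⟨15, -4, -23, 10, -9, 10, 12, 12, -7⟩, (.cons (nat_lit 92011) (nat_lit 1913232) (nat_lit 1) (nat_lit
 1286072) (.cons (nat_lit 93230) (nat_lit 807611) (nat_lit 348096) (nat_lit 1) .nil)), (nat_lit 1), (nat_lit
 21), (nat_lit 3), (nat_lit 1), (18, 12, 3), [1913650, 784035], 3⟩,
  ⟨⟨-3, 16, 16, -10, 9, -10, 12, 12, -7⟩, (.cons (nat_lit 1612883) (nat_lit 2472926) (nat_lit 960815) (nat_lit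
 1) (.cons (nat_lit 1241868) (nat_lit 1031664) (nat_lit 1597801) (nat_lit 1) .nil)), (nat_lit 41), (nat_lit
 45), (nat_lit 9), (nat_lit 1), (4, 7, 3), [275090, 1237656], 7⟩,
  ⟨⟨15, -4, -23, -10, 9, -10, 12, 12, -7⟩, (.cons (nat_lit 1532261) (nat_lit 367811) (nat_lit 1571310) (nat_lit
 1) (.cons (nat_lit 1531543) (nat_lit 748935) (nat_lit 522834) (nat_lit 1) .nil)), (nat_lit 6), (nat_lit 2),
 (nat_lit 9), (nat_lit 1), (18, 7, 3), [221342, 478084], 7⟩,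
  ⟨⟨15, -4, -23, -10, 9, -10, 12, 12, -7⟩, (.cons (nat_lit 1532261) (nat_lit 367811) (nat_lit 1571310) (nat_lit
 1) (.cons (nat_lit 1531543) (nat_lit 748935) (nat_lit 522834) (nat_lit 1) .nil)), (nat_lit 6), (nat_lit 2),
 (nat_lit 9), (nat_lit 1), (18, 7, 3), [221342, 478084], 7⟩,
  ⟨⟨15, -4, -23, -10, 9, -10, 12, 12, -7⟩, (.cons (nat_lit 1532261) (nat_lit 367811) (nat_lit 1571310) (nat_lit
 1) (.cons (nat_lit 1531543) (nat_lit 748935) (nat_lit 522834) (nat_lit 1) .nil)), (nat_lit 6), (nat_lit 2),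
 (nat_lit 9), (nat_lit 1), (18, 7, 3), [221342, 478084], 7⟩,
  ⟨⟨-3, 16, 16, -10, 9, -10, 12, 12, -7⟩, (.cons (nat_lit 1612883) (nat_lit 2472926) (nat_lit 960815) (nat_lit
 1) (.cons (nat_lit 1241868) (nat_lit 1031664) (nat_lit 1597801) (nat_lit 1) .nil)), (nat_lit 41), (nat_lit
 45), (nat_lit 9), (nat_lit 1), (4, 7, 3), [275090, 1237656], 7⟩,
  ⟨⟨15, -4, -23, 10, -9, 10, 12, 12, -7⟩, (.cons (nat_lit 92011) (nat_lit 1913232) (nat_lit 1) (nat_lit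
 1286072) (.cons (nat_lit 93230) (nat_lit 807611) (nat_lit 348096) (nat_lit 1) .nil)), (nat_lit 1), (nat_lit
 21), (nat_lit 3), (nat_lit 1), (18, 12, 3), [1913650, 784035], 3⟩,
  ⟨⟨15, -4, -23, -10, 9, -10, 12, 12, -7⟩, (.cons (nat_lit 1532261) (nat_lit 367811) (nat_lit 1571310) (nat_lit
 1) (.cons (nat_lit 1531543) (nat_lit 748935) (nat_lit 522834) (nat_lit 1) .nil)), (nat_lit 6), (nat_lit 2),
 (nat_lit 9), (nat_lit 1), (18, 7, 3), [221342, 478084], 7⟩,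
  ⟨⟨15, -4, -23, -10, 9, -10, 12, 12, -7⟩, (.cons (nat_lit 1532261) (nat_lit 367811) (nat_lit 1571310) (nat_lit
 1) (.cons (nat_lit 1531543) (nat_lit 748935) (nat_lit 522834) (nat_lit 1) .nil)), (nat_lit 6), (nat_lit 2),
 (nat_lit 9), (nat_lit 1), (18, 7, 3), [221342, 478084], 7⟩,
  ⟨⟨-3, 16, 16, -10, 9, -10, 12, 12, -7⟩, (.cons (nat_lit 1612883) (nat_lit 2472926) (nat_lit 960815) (nat_lit
 1) (.cons (nat_lit 1241868) (nat_lit 1031664) (nat_lit 1597801) (nat_lit 1) .nil)), (nat_lit 41), (nat_lit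
 45), (nat_lit 9), (nat_lit 1), (4, 7, 3), [275090, 1237656], 7⟩,
  ⟨⟨15, -4, -23, -10, 9, -10, 12, 12, -7⟩, (.cons (nat_lit 1532261) (nat_lit 367811) (nat_lit 1571310) (nat_lit
 1) (.cons (nat_lit 1531543) (nat_lit 748935) (nat_lit 522834) (nat_lit 1) .nil)), (nat_lit 6), (nat_lit 2),
 (nat_lit 9), (nat_lit 1), (18, 7, 3), [221342, 478084], 7⟩,
  ⟨⟨15, -4, -23, -10, 9, -10, 12, 12, -7⟩, (.cons (nat_lit 1532261) (nat_lit 367811) (nat_lit 1571310) (nat_lit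
 1) (.cons (nat_lit 1531543) (nat_lit 748935) (nat_lit 522834) (nat_lit 1) .nil)), (nat_lit 6), (nat_lit 2),
 (nat_lit 9), (nat_lit 1), (18, 7, 3), [221342, 478084], 7⟩,
  ⟨⟨-3, 16, 16, 10, -9, 10, 12, 12, -7⟩, (.cons (nat_lit 463037) (nat_lit 1963987) (nat_lit 463056) (nat_lit 1)
 (.cons (nat_lit 1874160) (nat_lit 1828930) (nat_lit 789613) (nat_lit 1) .nil)), (nat_lit 46), (nat_lit 26),
 (nat_lit 3), (nat_lit 1), (4, 12, 3), [996079, 1630685], 3⟩]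

/-- Moves. -/
noncomputable def t0_2 : List Mv := [
  ⟨⟨-11, 12, 20, 16, 5, 2, -2, 16, -5⟩, (.cons (nat_lit 1479509) (nat_lit 1461482) (nat_lit 59807) (nat_lit 1)
 (.cons (nat_lit 1328036) (nat_lit 456596) (nat_lit 674246) (nat_lit 1) .nil)), (nat_lit 18), (nat_lit 26),
 (nat_lit 5), (nat_lit 1), (15, 11, 1), [920235, 1697912], 34⟩,
  ⟨⟨9, 4, -25, -16, -5, -2, -2, 16, -5⟩, (.cons (nat_lit 1526221) (nat_lit 1108922) (nat_lit 1015758) (nat_lit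
 1) (.cons (nat_lit 1280180) (nat_lit 869837) (nat_lit 670812) (nat_lit 1) .nil)), (nat_lit 10), (nat_lit 2),
 (nat_lit 26), (nat_lit 1), (5, 8, 1), [2377237, 818389], 1⟩,
  ⟨⟨9, 4, -25, 16, 5, 2, -2, 16, -5⟩, (.cons (nat_lit 433875) (nat_lit 294752) (nat_lit 1551813) (nat_lit 1)
 (.cons (nat_lit 1299018) (nat_lit 1525552) (nat_lit 451102) (nat_lit 1) .nil)), (nat_lit 29), (nat_lit 21),
 (nat_lit 5), (nat_lit 1), (5, 11, 1), [2163726, 970013], 34⟩,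
  ⟨⟨9, 4, -25, -16, -5, -2, -2, 16, -5⟩, (.cons (nat_lit 1526221) (nat_lit 1108922) (nat_lit 1015758) (nat_lit
 1) (.cons (nat_lit 1280180) (nat_lit 869837) (nat_lit 670812) (nat_lit 1) .nil)), (nat_lit 10), (nat_lit 2),
 (nat_lit 26), (nat_lit 1), (5, 8, 1), [2377237, 818389], 1⟩,
  ⟨⟨9, 4, -25, -16, -5, -2, -2, 16, -5⟩, (.cons (nat_lit 1526221) (nat_lit 1108922) (nat_lit 1015758) (nat_lit
 1) (.cons (nat_lit 1280180) (nat_lit 869837) (nat_lit 670812) (nat_lit 1) .nil)), (nat_lit 10), (nat_lit 2),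
 (nat_lit 26), (nat_lit 1), (5, 8, 1), [2377237, 818389], 1⟩,
  ⟨⟨9, 4, -25, 16, 5, 2, -2, 16, -5⟩, (.cons (nat_lit 433875) (nat_lit 294752) (nat_lit 1551813) (nat_lit 1)
 (.cons (nat_lit 1299018) (nat_lit 1525552) (nat_lit 451102) (nat_lit 1) .nil)), (nat_lit 29), (nat_lit 21),
 (nat_lit 5), (nat_lit 1), (5, 11, 1), [2163726, 970013], 34⟩,
  ⟨⟨-11, 12, 20, 16, 5, 2, -2, 16, -5⟩, (.cons (nat_lit 1479509) (nat_lit 1461482) (nat_lit 59807) (nat_lit 1)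
 (.cons (nat_lit 1328036) (nat_lit 456596) (nat_lit 674246) (nat_lit 1) .nil)), (nat_lit 18), (nat_lit 26),
 (nat_lit 5), (nat_lit 1), (15, 11, 1), [920235, 1697912], 34⟩,
  ⟨⟨-11, 12, 20, -16, -5, -2, -2, 16, -5⟩, (.cons (nat_lit 522114) (nat_lit 541092) (nat_lit 108720) (nat_lit
 1) (.cons (nat_lit 1037595) (nat_lit 573942) (nat_lit 350017) (nat_lit 1) .nil)), (nat_lit 37), (nat_lit 45),
 (nat_lit 26), (nat_lit 1), (15, 8, 1), [2316183, 1159581], 1⟩,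
  ⟨⟨9, 4, -25, -16, -5, -2, -2, 16, -5⟩, (.cons (nat_lit 1526221) (nat_lit 1108922) (nat_lit 1015758) (nat_lit
 1) (.cons (nat_lit 1280180) (nat_lit 869837) (nat_lit 670812) (nat_lit 1) .nil)), (nat_lit 10), (nat_lit 2),
 (nat_lit 26), (nat_lit 1), (5, 8, 1), [2377237, 818389], 1⟩,
  ⟨⟨9, 4, -25, -16, -5, -2, -2, 16, -5⟩, (.cons (nat_lit 1526221) (nat_lit 1108922) (nat_lit 1015758) (nat_lit
 1) (.cons (nat_lit 1280180) (nat_lit 869837) (nat_lit 670812) (nat_lit 1) .nil)), (nat_lit 10), (nat_lit 2),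
 (nat_lit 26), (nat_lit 1), (5, 8, 1), [2377237, 818389], 1⟩,
  ⟨⟨9, 4, -25, -16, -5, -2, -2, 16, -5⟩, (.cons (nat_lit 1526221) (nat_lit 1108922) (nat_lit 1015758) (nat_lit
 1) (.cons (nat_lit 1280180) (nat_lit 869837) (nat_lit 670812) (nat_lit 1) .nil)), (nat_lit 10), (nat_lit 2),
 (nat_lit 26), (nat_lit 1), (5, 8, 1), [2377237, 818389], 1⟩,
  ⟨⟨9, 4, -25, -16, -5, -2, -2, 16, -5⟩, (.cons (nat_lit 1526221) (nat_lit 1108922) (nat_lit 1015758) (nat_lit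
 1) (.cons (nat_lit 1280180) (nat_lit 869837) (nat_lit 670812) (nat_lit 1) .nil)), (nat_lit 10), (nat_lit 2),
 (nat_lit 26), (nat_lit 1), (5, 8, 1), [2377237, 818389], 1⟩,
  ⟨⟨9, 4, -25, -16, -5, -2, -2, 16, -5⟩, (.cons (nat_lit 1526221) (nat_lit 1108922) (nat_lit 1015758) (nat_lit
 1) (.cons (nat_lit 1280180) (nat_lit 869837) (nat_lit 670812) (nat_lit 1) .nil)), (nat_lit 10), (nat_lit 2),
 (nat_lit 26), (nat_lit 1), (5, 8, 1), [2377237, 818389], 1⟩,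
  ⟨⟨-11, 12, 20, -16, -5, -2, -2, 16, -5⟩, (.cons (nat_lit 522114) (nat_lit 541092) (nat_lit 108720) (nat_lit
 1) (.cons (nat_lit 1037595) (nat_lit 573942) (nat_lit 350017) (nat_lit 1) .nil)), (nat_lit 37), (nat_lit 45),
 (nat_lit 26), (nat_lit 1), (15, 8, 1), [2316183, 1159581], 1⟩,
  ⟨⟨9, 4, -25, -16, -5, -2, -2, 16, -5⟩, (.cons (nat_lit 1526221) (nat_lit 1108922) (nat_lit 1015758) (nat_lit
 1) (.cons (nat_lit 1280180) (nat_lit 869837) (nat_lit 670812) (nat_lit 1) .nil)), (nat_lit 10), (nat_lit 2),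
 (nat_lit 26), (nat_lit 1), (5, 8, 1), [2377237, 818389], 1⟩,
  ⟨⟨9, 4, -25, 16, 5, 2, -2, 16, -5⟩, (.cons (nat_lit 433875) (nat_lit 294752) (nat_lit 1551813) (nat_lit 1)
 (.cons (nat_lit 1299018) (nat_lit 1525552) (nat_lit 451102) (nat_lit 1) .nil)), (nat_lit 29), (nat_lit 21),
 (nat_lit 5), (nat_lit 1), (5, 11, 1), [2163726, 970013], 34⟩,
  ⟨⟨-11, 12, 20, -16, -5, -2, -2, 16, -5⟩, (.cons (nat_lit 522114) (nat_lit 541092) (nat_lit 108720) (nat_lit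
 1) (.cons (nat_lit 1037595) (nat_lit 573942) (nat_lit 350017) (nat_lit 1) .nil)), (nat_lit 37), (nat_lit 45),
 (nat_lit 26), (nat_lit 1), (15, 8, 1), [2316183, 1159581], 1⟩,
  ⟨⟨9, 4, -25, -16, -5, -2, -2, 16, -5⟩, (.cons (nat_lit 1526221) (nat_lit 1108922) (nat_lit 1015758) (nat_lit
 1) (.cons (nat_lit 1280180) (nat_lit 869837) (nat_lit 670812) (nat_lit 1) .nil)), (nat_lit 10), (nat_lit 2),
 (nat_lit 26), (nat_lit 1), (5, 8, 1), [2377237, 818389], 1⟩,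
  ⟨⟨9, 4, -25, -16, -5, -2, -2, 16, -5⟩, (.cons (nat_lit 1526221) (nat_lit 1108922) (nat_lit 1015758) (nat_lit
 1) (.cons (nat_lit 1280180) (nat_lit 869837) (nat_lit 670812) (nat_lit 1) .nil)), (nat_lit 10), (nat_lit 2),
 (nat_lit 26), (nat_lit 1), (5, 8, 1), [2377237, 818389], 1⟩]

/-- Moves. -/
noncomputable def t0_8 : List Mv := [
  ⟨⟨17, -12, -9, -4, -5, -18, 14, 8, -13⟩, (.cons (nat_lit 1946579) (nat_lit 1445197) (nat_lit 1166019)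
 (nat_lit 1) (.cons (nat_lit 1198114) (nat_lit 846247) (nat_lit 651008) (nat_lit 1) .nil)), (nat_lit 10),
 (nat_lit 11), (nat_lit 9), (nat_lit 1), (9, 18, 13), [1292979, 361180], 1⟩,
  ⟨⟨17, -12, -9, -4, -5, -18, 14, 8, -13⟩, (.cons (nat_lit 1946579) (nat_lit 1445197) (nat_lit 1166019)
 (nat_lit 1) (.cons (nat_lit 1198114) (nat_lit 846247) (nat_lit 651008) (nat_lit 1) .nil)), (nat_lit 10),
 (nat_lit 11), (nat_lit 9), (nat_lit 1), (9, 18, 13), [1292979, 361180], 1⟩,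
  ⟨⟨17, -12, -9, -4, -5, -18, 14, 8, -13⟩, (.cons (nat_lit 1946579) (nat_lit 1445197) (nat_lit 1166019)
 (nat_lit 1) (.cons (nat_lit 1198114) (nat_lit 846247) (nat_lit 651008) (nat_lit 1) .nil)), (nat_lit 10),
 (nat_lit 11), (nat_lit 9), (nat_lit 1), (9, 18, 13), [1292979, 361180], 1⟩,
  ⟨⟨-3, 20, -4, -4, -5, -18, 14, 8, -13⟩, (.cons (nat_lit 1175155) (nat_lit 227420) (nat_lit 1232996) (nat_lit
 1) (.cons (nat_lit 1818638) (nat_lit 1445047) (nat_lit 403167) (nat_lit 1) .nil)), (nat_lit 37), (nat_lit 36),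
 (nat_lit 9), (nat_lit 1), (4, 18, 13), [943910, 807793], 1⟩,
  ⟨⟨-3, 20, -4, 4, 5, 18, 14, 8, -13⟩, (.cons (nat_lit 793917) (nat_lit 1538720) (nat_lit 1) (nat_lit 1447173)
 (.cons (nat_lit 1787307) (nat_lit 1816385) (nat_lit 927478) (nat_lit 1) .nil)), (nat_lit 34), (nat_lit 9),
 (nat_lit 18), (nat_lit 1), (4, 1, 13), [1487030, 1292800], 12⟩,
  ⟨⟨17, -12, -9, -4, -5, -18, 14, 8, -13⟩, (.cons (nat_lit 1946579) (nat_lit 1445197) (nat_lit 1166019)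
 (nat_lit 1) (.cons (nat_lit 1198114) (nat_lit 846247) (nat_lit 651008) (nat_lit 1) .nil)), (nat_lit 10),
 (nat_lit 11), (nat_lit 9), (nat_lit 1), (9, 18, 13), [1292979, 361180], 1⟩,
  ⟨⟨17, -12, -9, -4, -5, -18, 14, 8, -13⟩, (.cons (nat_lit 1946579) (nat_lit 1445197) (nat_lit 1166019)
 (nat_lit 1) (.cons (nat_lit 1198114) (nat_lit 846247) (nat_lit 651008) (nat_lit 1) .nil)), (nat_lit 10),
 (nat_lit 11), (nat_lit 9), (nat_lit 1), (9, 18, 13), [1292979, 361180], 1⟩,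
  ⟨⟨17, -12, -9, -4, -5, -18, 14, 8, -13⟩, (.cons (nat_lit 1946579) (nat_lit 1445197) (nat_lit 1166019)
 (nat_lit 1) (.cons (nat_lit 1198114) (nat_lit 846247) (nat_lit 651008) (nat_lit 1) .nil)), (nat_lit 10),
 (nat_lit 11), (nat_lit 9), (nat_lit 1), (9, 18, 13), [1292979, 361180], 1⟩,
  ⟨⟨17, -12, -9, 4, 5, 18, 14, 8, -13⟩, (.cons (nat_lit 234562) (nat_lit 2098260) (nat_lit 2402388) (nat_lit 1)
 (.cons (nat_lit 1552822) (nat_lit 965878) (nat_lit 466121) (nat_lit 1) .nil)), (nat_lit 13), (nat_lit 38),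
 (nat_lit 18), (nat_lit 1), (9, 1, 13), [1970514, 1113289], 12⟩,
  ⟨⟨17, -12, -9, -4, -5, -18, 14, 8, -13⟩, (.cons (nat_lit 1946579) (nat_lit 1445197) (nat_lit 1166019)
 (nat_lit 1) (.cons (nat_lit 1198114) (nat_lit 846247) (nat_lit 651008) (nat_lit 1) .nil)), (nat_lit 10),
 (nat_lit 11), (nat_lit 9), (nat_lit 1), (9, 18, 13), [1292979, 361180], 1⟩,
  ⟨⟨17, -12, -9, -4, -5, -18, 14, 8, -13⟩, (.cons (nat_lit 1946579) (nat_lit 1445197) (nat_lit 1166019)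
 (nat_lit 1) (.cons (nat_lit 1198114) (nat_lit 846247) (nat_lit 651008) (nat_lit 1) .nil)), (nat_lit 10),
 (nat_lit 11), (nat_lit 9), (nat_lit 1), (9, 18, 13), [1292979, 361180], 1⟩,
  ⟨⟨17, -12, -9, -4, -5, -18, 14, 8, -13⟩, (.cons (nat_lit 1946579) (nat_lit 1445197) (nat_lit 1166019)
 (nat_lit 1) (.cons (nat_lit 1198114) (nat_lit 846247) (nat_lit 651008) (nat_lit 1) .nil)), (nat_lit 10),
 (nat_lit 11), (nat_lit 9), (nat_lit 1), (9, 18, 13), [1292979, 361180], 1⟩,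
  ⟨⟨17, -12, -9, -4, -5, -18, 14, 8, -13⟩, (.cons (nat_lit 1946579) (nat_lit 1445197) (nat_lit 1166019)
 (nat_lit 1) (.cons (nat_lit 1198114) (nat_lit 846247) (nat_lit 651008) (nat_lit 1) .nil)), (nat_lit 10),
 (nat_lit 11), (nat_lit 9), (nat_lit 1), (9, 18, 13), [1292979, 361180], 1⟩,
  ⟨⟨-3, 20, -4, -4, -5, -18, 14, 8, -13⟩, (.cons (nat_lit 1175155) (nat_lit 227420) (nat_lit 1232996) (nat_lit
 1) (.cons (nat_lit 1818638) (nat_lit 1445047) (nat_lit 403167) (nat_lit 1) .nil)), (nat_lit 37), (nat_lit 36),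
 (nat_lit 9), (nat_lit 1), (4, 18, 13), [943910, 807793], 1⟩,
  ⟨⟨-3, 20, -4, 4, 5, 18, 14, 8, -13⟩, (.cons (nat_lit 793917) (nat_lit 1538720) (nat_lit 1) (nat_lit 1447173)
 (.cons (nat_lit 1787307) (nat_lit 1816385) (nat_lit 927478) (nat_lit 1) .nil)), (nat_lit 34), (nat_lit 9),
 (nat_lit 18), (nat_lit 1), (4, 1, 13), [1487030, 1292800], 12⟩,
  ⟨⟨17, -12, -9, 4, 5, 18, 14, 8, -13⟩, (.cons (nat_lit 234562) (nat_lit 2098260) (nat_lit 2402388) (nat_lit 1)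
 (.cons (nat_lit 1552822) (nat_lit 965878) (nat_lit 466121) (nat_lit 1) .nil)), (nat_lit 13), (nat_lit 38),
 (nat_lit 18), (nat_lit 1), (9, 1, 13), [1970514, 1113289], 12⟩,
  ⟨⟨17, -12, -9, 4, 5, 18, 14, 8, -13⟩, (.cons (nat_lit 234562) (nat_lit 2098260) (nat_lit 2402388) (nat_lit 1)
 (.cons (nat_lit 1552822) (nat_lit 965878) (nat_lit 466121) (nat_lit 1) .nil)), (nat_lit 13), (nat_lit 38),
 (nat_lit 18), (nat_lit 1), (9, 1, 13), [1970514, 1113289], 12⟩,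
  ⟨⟨17, -12, -9, -4, -5, -18, 14, 8, -13⟩, (.cons (nat_lit 1946579) (nat_lit 1445197) (nat_lit 1166019)
 (nat_lit 1) (.cons (nat_lit 1198114) (nat_lit 846247) (nat_lit 651008) (nat_lit 1) .nil)), (nat_lit 10),
 (nat_lit 11), (nat_lit 9), (nat_lit 1), (9, 18, 13), [1292979, 361180], 1⟩,
  ⟨⟨-3, 20, -4, -4, -5, -18, 14, 8, -13⟩, (.cons (nat_lit 1175155) (nat_lit 227420) (nat_lit 1232996) (nat_lit
 1) (.cons (nat_lit 1818638) (nat_lit 1445047) (nat_lit 403167) (nat_lit 1) .nil)), (nat_lit 37), (nat_lit 36),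
 (nat_lit 9), (nat_lit 1), (4, 18, 13), [943910, 807793], 1⟩]

/-- Moves. -/
noncomputable def t1_1 : List Mv := [
  mz,
  ⟨⟨3, -16, -43, 10, 33, -20, 30, -12, -23⟩, (.cons (nat_lit 2336446) (nat_lit 423645) (nat_lit 647601)
 (nat_lit 1) (.cons (nat_lit 613252) (nat_lit 1059658) (nat_lit 579005) (nat_lit 1) .nil)), (nat_lit 1),
 (nat_lit 18), (nat_lit 33), (nat_lit 1), (25, 34, 28), [1566354, 1167854], 8⟩,
  mz,
  mz,
  ⟨⟨21, 4, 28, 8, 35, -14, 32, -8, -19⟩, (.cons (nat_lit 2476098) (nat_lit 1135118) (nat_lit 1812851) (nat_lit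
 1) (.cons (nat_lit 1425476) (nat_lit 1018043) (nat_lit 1761999) (nat_lit 1) .nil)), (nat_lit 46), (nat_lit 7),
 (nat_lit 9), (nat_lit 1), (33, 2, 8), [1872616, 1716966], 18⟩,
  ⟨⟨11, 12, -47, 8, -35, -14, 32, 8, -19⟩, (.cons (nat_lit 1972401) (nat_lit 1369610) (nat_lit 2043091)
 (nat_lit 1) (.cons (nat_lit 1138918) (nat_lit 226903) (nat_lit 1747111) (nat_lit 1) .nil)), (nat_lit 20),
 (nat_lit 21), (nat_lit 24), (nat_lit 1), (29, 11, 7), [961079, 1053595], 1⟩,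
  mz,
  ⟨⟨-17, 36, 17, -30, -17, 30, -18, 12, -19⟩, (.cons (nat_lit 2234728) (nat_lit 2444300) (nat_lit 316056)
 (nat_lit 1) (.cons (nat_lit 1733113) (nat_lit 1233933) (nat_lit 457472) (nat_lit 1) .nil)), (nat_lit 1),
 (nat_lit 34), (nat_lit 26), (nat_lit 1), (36, 20, 12), [2254722, 141868], 6⟩,
  ⟨⟨-35, 12, -1, 12, 35, -6, 0, 0, -37⟩, (.cons (nat_lit 2476098) (nat_lit 1216266) (nat_lit 366947) (nat_lit
 1) (.cons (nat_lit 353825) (nat_lit 423693) (nat_lit 512773) (nat_lit 1) .nil)), (nat_lit 46), (nat_lit 33),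
 (nat_lit 31), (nat_lit 1), (3, 18, 0), [1498113, 388739], 41⟩,
  mz,
  ⟨⟨-1, 24, -36, 30, -17, -30, -18, -12, -19⟩, (.cons (nat_lit 2476098) (nat_lit 71175) (nat_lit 1802349)
 (nat_lit 1) (.cons (nat_lit 313047) (nat_lit 906125) (nat_lit 1155805) (nat_lit 1) .nil)), (nat_lit 46),
 (nat_lit 36), (nat_lit 12), (nat_lit 1), (10, 33, 32), [568585, 164154], 6⟩,
  ⟨⟨3, 16, -43, -10, 33, 20, 30, 12, -23⟩, (.cons (nat_lit 2150778) (nat_lit 1714614) (nat_lit 1216649)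
 (nat_lit 1) (.cons (nat_lit 209222) (nat_lit 1476997) (nat_lit 265110) (nat_lit 1) .nil)), (nat_lit 1),
 (nat_lit 23), (nat_lit 34), (nat_lit 1), (23, 22, 8), [1014784, 118121], 8⟩,
  ⟨⟨39, -4, -8, 10, 17, -40, 14, -28, -19⟩, (.cons (nat_lit 2476098) (nat_lit 926503) (nat_lit 368225) (nat_lit
 1) (.cons (nat_lit 1554850) (nat_lit 1613946) (nat_lit 285754) (nat_lit 1) .nil)), (nat_lit 46), (nat_lit 43),
 (nat_lit 13), (nat_lit 1), (11, 18, 3), [1086541, 179876], 40⟩,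
  ⟨⟨39, 8, -28, 8, -5, 36, 8, 32, -1⟩, (.cons (nat_lit 1531125) (nat_lit 1311046) (nat_lit 1115118) (nat_lit 1)
 (.cons (nat_lit 561018) (nat_lit 663195) (nat_lit 10159) (nat_lit 1) .nil)), (nat_lit 1), (nat_lit 35),
 (nat_lit 3), (nat_lit 1), (21, 10, 10), [1446815, 1102353], 41⟩,
  mz,
  ⟨⟨-13, -24, -27, 32, 5, -36, -16, 16, -19⟩, (.cons (nat_lit 2185765) (nat_lit 2403838) (nat_lit 1989499)
 (nat_lit 1) (.cons (nat_lit 796793) (nat_lit 623440) (nat_lit 327247) (nat_lit 1) .nil)), (nat_lit 32),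
 (nat_lit 15), (nat_lit 3), (nat_lit 1), (6, 8, 33), [493186, 654749], 11⟩,
  ⟨⟨21, 4, -49, -8, -35, -6, 32, -8, -13⟩, (.cons (nat_lit 1614083) (nat_lit 861270) (nat_lit 761646) (nat_lit
 1) (.cons (nat_lit 269102) (nat_lit 1406390) (nat_lit 1191970) (nat_lit 1) .nil)), (nat_lit 1), (nat_lit 45),
 (nat_lit 8), (nat_lit 1), (36, 18, 2), [1463204, 1126172], 29⟩,
  ⟨⟨39, -8, -11, -8, -5, 44, 8, -32, -7⟩, (.cons (nat_lit 1403314) (nat_lit 2200850) (nat_lit 421123) (nat_lit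
 1) (.cons (nat_lit 460752) (nat_lit 665154) (nat_lit 1172797) (nat_lit 1) .nil)), (nat_lit 34), (nat_lit 20),
 (nat_lit 4), (nat_lit 1), (5, 17, 20), [2223719, 1248849], 37⟩,
  ⟨⟨39, 4, -8, -10, 17, 40, 14, 28, -19⟩, (.cons (nat_lit 2476098) (nat_lit 1752553) (nat_lit 2163984) (nat_lit
 1) (.cons (nat_lit 448528) (nat_lit 502940) (nat_lit 1378481) (nat_lit 1) .nil)), (nat_lit 46), (nat_lit 18),
 (nat_lit 18), (nat_lit 1), (29, 3, 18), [1068906, 1274331], 40⟩,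
  ⟨⟨39, -8, -28, -8, -5, -36, 8, -32, -1⟩, (.cons (nat_lit 2186169) (nat_lit 833909) (nat_lit 1509106) (nat_lit
 1) (.cons (nat_lit 1371082) (nat_lit 881345) (nat_lit 452127) (nat_lit 1) .nil)), (nat_lit 1), (nat_lit 32),
 (nat_lit 40), (nat_lit 1), (22, 23, 14), [2149359, 10396], 41⟩,
  ⟨⟨-39, -4, 31, -10, 17, -30, -14, -28, -5⟩, (.cons (nat_lit 648675) (nat_lit 2178333) (nat_lit 2447264)
 (nat_lit 1) (.cons (nat_lit 1696794) (nat_lit 1439871) (nat_lit 1621085) (nat_lit 1) .nil)), (nat_lit 1),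
 (nat_lit 43), (nat_lit 34), (nat_lit 1), (22, 36, 6), [161214, 1618438], 40⟩,
  ⟨⟨13, -24, -40, -32, 5, -4, 16, 16, -35⟩, (.cons (nat_lit 2316296) (nat_lit 1040887) (nat_lit 1003595)
 (nat_lit 1) (.cons (nat_lit 790175) (nat_lit 546003) (nat_lit 1464450) (nat_lit 1) .nil)), (nat_lit 15),
 (nat_lit 15), (nat_lit 44), (nat_lit 1), (27, 36, 19), [439937, 620026], 11⟩,
  ⟨⟨39, 8, -11, 8, -5, -44, 8, 32, -7⟩, (.cons (nat_lit 655603) (nat_lit 927225) (nat_lit 488529) (nat_lit 1)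
 (.cons (nat_lit 425268) (nat_lit 1360462) (nat_lit 1420042) (nat_lit 1) .nil)), (nat_lit 18), (nat_lit 16),
 (nat_lit 22), (nat_lit 1), (4, 16, 16), [1140834, 517079], 3⟩,
  mz,
  ⟨⟨13, 24, -40, -32, -5, -4, 16, -16, -35⟩, (.cons (nat_lit 1774987) (nat_lit 1735811) (nat_lit 1099286)
 (nat_lit 1) (.cons (nat_lit 1860152) (nat_lit 1054636) (nat_lit 705457) (nat_lit 1) .nil)), (nat_lit 1),
 (nat_lit 42), (nat_lit 22), (nat_lit 1), (24, 32, 21), [128515, 1551364], 29⟩,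
  ⟨⟨1, 24, -37, 30, 17, 0, 18, -12, -37⟩, (.cons (nat_lit 2097731) (nat_lit 1390065) (nat_lit 1190910) (nat_lit
 1) (.cons (nat_lit 946131) (nat_lit 1605321) (nat_lit 295916) (nat_lit 1) .nil)), (nat_lit 33), (nat_lit 9),
 (nat_lit 17), (nat_lit 1), (23, 24, 7), [377586, 617443], 25⟩,
  ⟨⟨3, 16, 40, -10, 33, -10, 30, 12, -7⟩, (.cons (nat_lit 1848730) (nat_lit 806207) (nat_lit 244311) (nat_lit
 1) (.cons (nat_lit 1234046) (nat_lit 1538614) (nat_lit 1559607) (nat_lit 1) .nil)), (nat_lit 17), (nat_lit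
 18), (nat_lit 13), (nat_lit 1), (14, 15, 29), [744535, 1166116], 39⟩,
  ⟨⟨3, -16, 40, 10, 33, 10, 30, -12, -7⟩, (.cons (nat_lit 776651) (nat_lit 2061868) (nat_lit 1560008) (nat_lit
 1) (.cons (nat_lit 467981) (nat_lit 691966) (nat_lit 1571107) (nat_lit 1) .nil)), (nat_lit 36), (nat_lit 10),
 (nat_lit 2), (nat_lit 1), (16, 4, 12), [1357694, 90467], 19⟩,
  mz,
  ⟨⟨-35, -12, -1, 12, -35, -6, 0, 0, -37⟩, (.cons (nat_lit 1125846) (nat_lit 623262) (nat_lit 1807016) (nat_lit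
 1) (.cons (nat_lit 1066550) (nat_lit 1394035) (nat_lit 434693) (nat_lit 1) .nil)), (nat_lit 1), (nat_lit 3),
 (nat_lit 10), (nat_lit 1), (23, 27, 0), [852597, 1839414], 39⟩,
  ⟨⟨-39, 4, 31, -10, -17, -30, -14, 28, -5⟩, (.cons (nat_lit 1040309) (nat_lit 249979) (nat_lit 768886)
 (nat_lit 1) (.cons (nat_lit 603834) (nat_lit 328847) (nat_lit 657138) (nat_lit 1) .nil)), (nat_lit 5),
 (nat_lit 18), (nat_lit 34), (nat_lit 1), (3, 15, 21), [216027, 870269], 40⟩,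
  mz,
  mz,
  ⟨⟨-3, -40, 8, -32, 5, 36, -16, -16, -19⟩, (.cons (nat_lit 2350468) (nat_lit 2410408) (nat_lit 2158464)
 (nat_lit 1) (.cons (nat_lit 10120) (nat_lit 1414793) (nat_lit 811351) (nat_lit 1) .nil)), (nat_lit 22),
 (nat_lit 46), (nat_lit 19), (nat_lit 1), (32, 33, 35), [2442511, 1794862], 13⟩,
  mz,
  ⟨⟨21, -4, -49, -8, 35, -6, 32, 8, -13⟩, (.cons (nat_lit 832473) (nat_lit 1008802) (nat_lit 1928562) (nat_lit
 1) (.cons (nat_lit 1467484) (nat_lit 742414) (nat_lit 558328) (nat_lit 1) .nil)), (nat_lit 40), (nat_lit 6),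
 (nat_lit 27), (nat_lit 1), (18, 9, 1), [2344635, 1006223], 45⟩,
  ⟨⟨17, 36, 0, 30, -17, 0, 18, 12, -37⟩, (.cons (nat_lit 2476098) (nat_lit 577017) (nat_lit 1190209) (nat_lit
 1) (.cons (nat_lit 998928) (nat_lit 183848) (nat_lit 1849850) (nat_lit 1) .nil)), (nat_lit 46), (nat_lit 34),
 (nat_lit 21), (nat_lit 1), (35, 3, 24), [2183281, 653671], 6⟩]

/-- Moves. -/
noncomputable def t1_2 : List Mv := [
  mz,
  ⟨⟨3, -16, -43, -10, -33, 20, 30, -12, -23⟩, (.cons (nat_lit 1625666) (nat_lit 1590215) (nat_lit 343744)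
 (nat_lit 1) (.cons (nat_lit 298279) (nat_lit 1817436) (nat_lit 1785048) (nat_lit 1) .nil)), (nat_lit 30),
 (nat_lit 18), (nat_lit 34), (nat_lit 1), (25, 3, 28), [663622, 24429], 8⟩,
  mz,
  mz,
  ⟨⟨21, 4, 28, 8, 35, -14, 32, -8, -19⟩, (.cons (nat_lit 2476098) (nat_lit 1135118) (nat_lit 1812851) (nat_lit
 1) (.cons (nat_lit 1425476) (nat_lit 1018043) (nat_lit 1761999) (nat_lit 1) .nil)), (nat_lit 46), (nat_lit 7),
 (nat_lit 9), (nat_lit 1), (33, 2, 8), [1872616, 1716966], 18⟩,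
  ⟨⟨21, -4, 28, -8, 35, 14, 32, 8, -19⟩, (.cons (nat_lit 2476098) (nat_lit 677530) (nat_lit 2266789) (nat_lit
 1) (.cons (nat_lit 1028292) (nat_lit 691621) (nat_lit 580498) (nat_lit 1) .nil)), (nat_lit 46), (nat_lit 45),
 (nat_lit 39), (nat_lit 1), (15, 26, 7), [536233, 809546], 18⟩,
  mz,
  ⟨⟨-1, -24, -36, 30, 17, -30, -18, 12, -19⟩, (.cons (nat_lit 1071305) (nat_lit 1808001) (nat_lit 1888655)
 (nat_lit 1) (.cons (nat_lit 1499386) (nat_lit 885095) (nat_lit 110208) (nat_lit 1) .nil)), (nat_lit 37),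
 (nat_lit 43), (nat_lit 18), (nat_lit 1), (13, 17, 12), [1381269, 466968], 9⟩,
  ⟨⟨-35, 12, -1, -12, -35, 6, 0, 0, -37⟩, (.cons (nat_lit 252093) (nat_lit 874679) (nat_lit 1752938) (nat_lit
 1) (.cons (nat_lit 799824) (nat_lit 112697) (nat_lit 541824) (nat_lit 1) .nil)), (nat_lit 1), (nat_lit 44),
 (nat_lit 37), (nat_lit 1), (3, 19, 0), [707589, 974124], 39⟩,
  mz,
  ⟨⟨-1, 24, -36, 30, -17, -30, -18, -12, -19⟩, (.cons (nat_lit 2476098) (nat_lit 71175) (nat_lit 1802349)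
 (nat_lit 1) (.cons (nat_lit 313047) (nat_lit 906125) (nat_lit 1155805) (nat_lit 1) .nil)), (nat_lit 46),
 (nat_lit 36), (nat_lit 12), (nat_lit 1), (10, 33, 32), [568585, 164154], 6⟩,
  ⟨⟨27, -4, 20, -10, 33, 20, 30, 12, -23⟩, (.cons (nat_lit 2476098) (nat_lit 2192877) (nat_lit 12831) (nat_lit
 1) (.cons (nat_lit 1222104) (nat_lit 935258) (nat_lit 281482) (nat_lit 1) .nil)), (nat_lit 46), (nat_lit 24),
 (nat_lit 34), (nat_lit 1), (22, 22, 8), [809200, 1171226], 8⟩,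
  ⟨⟨39, -4, -8, 10, 17, -40, 14, -28, -19⟩, (.cons (nat_lit 2476098) (nat_lit 926503) (nat_lit 368225) (nat_lit
 1) (.cons (nat_lit 1554850) (nat_lit 1613946) (nat_lit 285754) (nat_lit 1) .nil)), (nat_lit 46), (nat_lit 43),
 (nat_lit 13), (nat_lit 1), (11, 18, 3), [1086541, 179876], 40⟩,
  ⟨⟨-31, 24, 27, 8, -5, 36, 8, 32, -1⟩, (.cons (nat_lit 2476098) (nat_lit 1176191) (nat_lit 1932222) (nat_lit
 1) (.cons (nat_lit 384092) (nat_lit 900727) (nat_lit 1038712) (nat_lit 1) .nil)), (nat_lit 46), (nat_lit 12),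
 (nat_lit 3), (nat_lit 1), (26, 10, 10), [1642217, 604956], 41⟩,
  mz,
  ⟨⟨-3, 40, 8, 32, 5, -36, -16, 16, -19⟩, (.cons (nat_lit 1915884) (nat_lit 1745728) (nat_lit 714412) (nat_lit
 1) (.cons (nat_lit 798622) (nat_lit 669341) (nat_lit 1419928) (nat_lit 1) .nil)), (nat_lit 15), (nat_lit 32),
 (nat_lit 3), (nat_lit 1), (27, 8, 33), [1838232, 1800850], 11⟩,
  ⟨⟨11, -12, 36, 8, 35, 6, 32, -8, -13⟩, (.cons (nat_lit 936200) (nat_lit 761073) (nat_lit 1) (nat_lit 379240)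
 (.cons (nat_lit 1621980) (nat_lit 49080) (nat_lit 836361) (nat_lit 1) .nil)), (nat_lit 27), (nat_lit 21),
 (nat_lit 23), (nat_lit 1), (3, 19, 2), [979232, 975839], 46⟩,
  ⟨⟨-31, -24, 4, 8, 5, -44, 8, -32, -7⟩, (.cons (nat_lit 986843) (nat_lit 2301207) (nat_lit 1333898) (nat_lit
 1) (.cons (nat_lit 1364433) (nat_lit 834607) (nat_lit 929046) (nat_lit 1) .nil)), (nat_lit 1), (nat_lit 12),
 (nat_lit 44), (nat_lit 1), (15, 20, 20), [2312288, 329236], 6⟩,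
  ⟨⟨39, 4, -8, 10, -17, -40, 14, 28, -19⟩, (.cons (nat_lit 1684716) (nat_lit 2203367) (nat_lit 1085501)
 (nat_lit 1) (.cons (nat_lit 101959) (nat_lit 470110) (nat_lit 1640323) (nat_lit 1) .nil)), (nat_lit 42),
 (nat_lit 18), (nat_lit 13), (nat_lit 1), (29, 34, 18), [1548347, 770684], 40⟩,
  ⟨⟨39, -8, -28, -8, -5, -36, 8, -32, -1⟩, (.cons (nat_lit 2186169) (nat_lit 833909) (nat_lit 1509106) (nat_lit
 1) (.cons (nat_lit 1371082) (nat_lit 881345) (nat_lit 452127) (nat_lit 1) .nil)), (nat_lit 1), (nat_lit 32),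
 (nat_lit 40), (nat_lit 1), (22, 23, 14), [2149359, 10396], 41⟩,
  ⟨⟨25, -24, -36, 10, -17, 30, -14, -28, -5⟩, (.cons (nat_lit 1551943) (nat_lit 1378874) (nat_lit 1640097)
 (nat_lit 1) (.cons (nat_lit 519200) (nat_lit 1049435) (nat_lit 1448368) (nat_lit 1) .nil)), (nat_lit 28),
 (nat_lit 34), (nat_lit 35), (nat_lit 1), (21, 1, 6), [1348243, 1382213], 11⟩,
  ⟨⟨3, 40, 5, -32, 5, -4, 16, 16, -35⟩, (.cons (nat_lit 1723362) (nat_lit 2386159) (nat_lit 857274) (nat_lit 1)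
 (.cons (nat_lit 149043) (nat_lit 1528479) (nat_lit 979583) (nat_lit 1) .nil)), (nat_lit 32), (nat_lit 32),
 (nat_lit 44), (nat_lit 1), (29, 36, 19), [1472617, 923992], 11⟩,
  ⟨⟨39, 8, -11, 8, -5, -44, 8, 32, -7⟩, (.cons (nat_lit 655603) (nat_lit 927225) (nat_lit 488529) (nat_lit 1)
 (.cons (nat_lit 425268) (nat_lit 1360462) (nat_lit 1420042) (nat_lit 1) .nil)), (nat_lit 18), (nat_lit 16),
 (nat_lit 22), (nat_lit 1), (4, 16, 16), [1140834, 517079], 3⟩,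
  mz,
  ⟨⟨3, -40, 5, 32, 5, 4, 16, -16, -35⟩, (.cons (nat_lit 1998614) (nat_lit 460156) (nat_lit 1645804) (nat_lit 1)
 (.cons (nat_lit 1633914) (nat_lit 1478712) (nat_lit 1474048) (nat_lit 1) .nil)), (nat_lit 25), (nat_lit 46),
 (nat_lit 28), (nat_lit 1), (34, 5, 21), [149065, 357720], 13⟩,
  ⟨⟨1, 24, -37, -30, -17, 0, 18, -12, -37⟩, (.cons (nat_lit 680014) (nat_lit 808797) (nat_lit 2419152) (nat_lit
 1) (.cons (nat_lit 331579) (nat_lit 1579701) (nat_lit 232118) (nat_lit 1) .nil)), (nat_lit 1), (nat_lit 36),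
 (nat_lit 35), (nat_lit 1), (23, 13, 7), [486842, 853811], 6⟩,
  ⟨⟨27, -4, -47, -10, 33, -10, 30, 12, -7⟩, (.cons (nat_lit 370388) (nat_lit 800245) (nat_lit 2327533) (nat_lit
 1) (.cons (nat_lit 274365) (nat_lit 283126) (nat_lit 1229669) (nat_lit 1) .nil)), (nat_lit 30), (nat_lit 29),
 (nat_lit 13), (nat_lit 1), (15, 15, 29), [376696, 653075], 39⟩,
  ⟨⟨27, 4, -47, 10, 33, 10, 30, -12, -7⟩, (.cons (nat_lit 503682) (nat_lit 880692) (nat_lit 1081068) (nat_lit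
 1) (.cons (nat_lit 699829) (nat_lit 70715) (nat_lit 1699014) (nat_lit 1) .nil)), (nat_lit 11), (nat_lit 37),
 (nat_lit 2), (nat_lit 1), (33, 4, 12), [39153, 1764046], 19⟩,
  mz,
  ⟨⟨-35, -12, -1, 12, -35, -6, 0, 0, -37⟩, (.cons (nat_lit 1125846) (nat_lit 623262) (nat_lit 1807016) (nat_lit
 1) (.cons (nat_lit 1066550) (nat_lit 1394035) (nat_lit 434693) (nat_lit 1) .nil)), (nat_lit 1), (nat_lit 3),
 (nat_lit 10), (nat_lit 1), (23, 27, 0), [852597, 1839414], 39⟩,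
  ⟨⟨-39, 4, 31, -10, -17, -30, -14, 28, -5⟩, (.cons (nat_lit 1040309) (nat_lit 249979) (nat_lit 768886)
 (nat_lit 1) (.cons (nat_lit 603834) (nat_lit 328847) (nat_lit 657138) (nat_lit 1) .nil)), (nat_lit 5),
 (nat_lit 18), (nat_lit 34), (nat_lit 1), (3, 15, 21), [216027, 870269], 40⟩,
  mz,
  mz,
  ⟨⟨-13, 24, -27, -32, 5, 36, -16, -16, -19⟩, (.cons (nat_lit 1126685) (nat_lit 1249665) (nat_lit 1937014)
 (nat_lit 1) (.cons (nat_lit 737369) (nat_lit 187808) (nat_lit 514428) (nat_lit 1) .nil)), (nat_lit 25),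
 (nat_lit 1), (nat_lit 19), (nat_lit 1), (3, 33, 35), [828372, 1831066], 13⟩,
  mz,
  ⟨⟨21, -4, -49, -8, 35, -6, 32, 8, -13⟩, (.cons (nat_lit 832473) (nat_lit 1008802) (nat_lit 1928562) (nat_lit
 1) (.cons (nat_lit 1467484) (nat_lit 742414) (nat_lit 558328) (nat_lit 1) .nil)), (nat_lit 40), (nat_lit 6),
 (nat_lit 27), (nat_lit 1), (18, 9, 1), [2344635, 1006223], 45⟩,
  ⟨⟨17, 36, 0, 30, -17, 0, 18, 12, -37⟩, (.cons (nat_lit 2476098) (nat_lit 577017) (nat_lit 1190209) (nat_lit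
 1) (.cons (nat_lit 998928) (nat_lit 183848) (nat_lit 1849850) (nat_lit 1) .nil)), (nat_lit 46), (nat_lit 34),
 (nat_lit 21), (nat_lit 1), (35, 3, 24), [2183281, 653671], 6⟩]

/-- Moves. -/
noncomputable def t1_8 : List Mv := [
  mz,
  ⟨⟨3, -16, -43, 10, 33, -20, 30, -12, -23⟩, (.cons (nat_lit 2336446) (nat_lit 423645) (nat_lit 647601)
 (nat_lit 1) (.cons (nat_lit 613252) (nat_lit 1059658) (nat_lit 579005) (nat_lit 1) .nil)), (nat_lit 1),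
 (nat_lit 18), (nat_lit 33), (nat_lit 1), (25, 34, 28), [1566354, 1167854], 8⟩,
  mz,
  mz,
  ⟨⟨21, 4, 28, 8, 35, -14, 32, -8, -19⟩, (.cons (nat_lit 2476098) (nat_lit 1135118) (nat_lit 1812851) (nat_lit
 1) (.cons (nat_lit 1425476) (nat_lit 1018043) (nat_lit 1761999) (nat_lit 1) .nil)), (nat_lit 46), (nat_lit 7),
 (nat_lit 9), (nat_lit 1), (33, 2, 8), [1872616, 1716966], 18⟩,
  ⟨⟨21, -4, 28, -8, 35, 14, 32, 8, -19⟩, (.cons (nat_lit 2476098) (nat_lit 677530) (nat_lit 2266789) (nat_lit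
 1) (.cons (nat_lit 1028292) (nat_lit 691621) (nat_lit 580498) (nat_lit 1) .nil)), (nat_lit 46), (nat_lit 45),
 (nat_lit 39), (nat_lit 1), (15, 26, 7), [536233, 809546], 18⟩,
  mz,
  ⟨⟨-17, 36, 17, 30, 17, -30, -18, 12, -19⟩, (.cons (nat_lit 1846885) (nat_lit 1052546) (nat_lit 356568)
 (nat_lit 1) (.cons (nat_lit 1077690) (nat_lit 505820) (nat_lit 768019) (nat_lit 1) .nil)), (nat_lit 10),
 (nat_lit 4), (nat_lit 18), (nat_lit 1), (36, 17, 12), [633018, 1547512], 9⟩,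
  ⟨⟨35, -12, -36, -12, -35, 6, 0, 0, -37⟩, (.cons (nat_lit 832371) (nat_lit 943376) (nat_lit 1) (nat_lit
 1643728) (.cons (nat_lit 731556) (nat_lit 1867561) (nat_lit 1731340) (nat_lit 1) .nil)), (nat_lit 46),
 (nat_lit 3), (nat_lit 37), (nat_lit 1), (34, 19, 0), [2074123, 815939], 39⟩,
  mz,
  ⟨⟨-17, -36, 17, 30, -17, -30, -18, -12, -19⟩, (.cons (nat_lit 2008115) (nat_lit 133811) (nat_lit 2444788)
 (nat_lit 1) (.cons (nat_lit 1058738) (nat_lit 929056) (nat_lit 756525) (nat_lit 1) .nil)), (nat_lit 1),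
 (nat_lit 11), (nat_lit 12), (nat_lit 1), (22, 33, 32), [132631, 1425120], 6⟩,
  ⟨⟨27, -4, 20, -10, 33, 20, 30, 12, -23⟩, (.cons (nat_lit 2476098) (nat_lit 2192877) (nat_lit 12831) (nat_lit
 1) (.cons (nat_lit 1222104) (nat_lit 935258) (nat_lit 281482) (nat_lit 1) .nil)), (nat_lit 46), (nat_lit 24),
 (nat_lit 34), (nat_lit 1), (22, 22, 8), [809200, 1171226], 8⟩,
  ⟨⟨-25, -24, -11, -10, -17, 40, 14, -28, -19⟩, (.cons (nat_lit 65997) (nat_lit 383574) (nat_lit 1003564)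
 (nat_lit 1) (.cons (nat_lit 390234) (nat_lit 1118274) (nat_lit 1469609) (nat_lit 1) .nil)), (nat_lit 19),
 (nat_lit 34), (nat_lit 12), (nat_lit 1), (29, 19, 3), [590562, 1476147], 11⟩,
  ⟨⟨-31, 24, 27, -8, 5, -36, 8, 32, -1⟩, (.cons (nat_lit 117261) (nat_lit 363538) (nat_lit 397885) (nat_lit 1)
 (.cons (nat_lit 1807938) (nat_lit 868563) (nat_lit 57845) (nat_lit 1) .nil)), (nat_lit 34), (nat_lit 27),
 (nat_lit 43), (nat_lit 1), (26, 27, 10), [2161880, 1459031], 10⟩,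
  mz,
  ⟨⟨-3, 40, 8, 32, 5, -36, -16, 16, -19⟩, (.cons (nat_lit 1915884) (nat_lit 1745728) (nat_lit 714412) (nat_lit
 1) (.cons (nat_lit 798622) (nat_lit 669341) (nat_lit 1419928) (nat_lit 1) .nil)), (nat_lit 15), (nat_lit 32),
 (nat_lit 3), (nat_lit 1), (27, 8, 33), [1838232, 1800850], 11⟩,
  ⟨⟨21, 4, -49, -8, -35, -6, 32, -8, -13⟩, (.cons (nat_lit 1614083) (nat_lit 861270) (nat_lit 761646) (nat_lit
 1) (.cons (nat_lit 269102) (nat_lit 1406390) (nat_lit 1191970) (nat_lit 1) .nil)), (nat_lit 1), (nat_lit 45),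
 (nat_lit 8), (nat_lit 1), (36, 18, 2), [1463204, 1126172], 29⟩,
  ⟨⟨39, -8, -11, 8, 5, -44, 8, -32, -7⟩, (.cons (nat_lit 2476098) (nat_lit 874835) (nat_lit 2164817) (nat_lit
 1) (.cons (nat_lit 275039) (nat_lit 1783885) (nat_lit 457160) (nat_lit 1) .nil)), (nat_lit 46), (nat_lit 35),
 (nat_lit 44), (nat_lit 1), (5, 20, 20), [1578001, 48182], 6⟩,
  ⟨⟨39, 4, -8, -10, 17, 40, 14, 28, -19⟩, (.cons (nat_lit 2476098) (nat_lit 1752553) (nat_lit 2163984) (nat_lit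
 1) (.cons (nat_lit 448528) (nat_lit 502940) (nat_lit 1378481) (nat_lit 1) .nil)), (nat_lit 46), (nat_lit 18),
 (nat_lit 18), (nat_lit 1), (29, 3, 18), [1068906, 1274331], 40⟩,
  ⟨⟨-31, -24, 27, 8, 5, 36, 8, -32, -1⟩, (.cons (nat_lit 1480241) (nat_lit 1790814) (nat_lit 1693954) (nat_lit
 1) (.cons (nat_lit 19414) (nat_lit 553370) (nat_lit 1403079) (nat_lit 1) .nil)), (nat_lit 18), (nat_lit 31),
 (nat_lit 25), (nat_lit 1), (29, 14, 14), [1676942, 10219], 44⟩,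
  ⟨⟨-39, -4, 31, -10, 17, -30, -14, -28, -5⟩, (.cons (nat_lit 648675) (nat_lit 2178333) (nat_lit 2447264)
 (nat_lit 1) (.cons (nat_lit 1696794) (nat_lit 1439871) (nat_lit 1621085) (nat_lit 1) .nil)), (nat_lit 1),
 (nat_lit 43), (nat_lit 34), (nat_lit 1), (22, 36, 6), [161214, 1618438], 40⟩,
  ⟨⟨3, 40, 5, 32, -5, 4, 16, 16, -35⟩, (.cons (nat_lit 2476098) (nat_lit 1798051) (nat_lit 1962731) (nat_lit 1)
 (.cons (nat_lit 423658) (nat_lit 1295162) (nat_lit 377159) (nat_lit 1) .nil)), (nat_lit 46), (nat_lit 16),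
 (nat_lit 1), (nat_lit 1), (29, 1, 19), [1660262, 1616101], 29⟩,
  ⟨⟨-31, 24, 4, -8, 5, 44, 8, 32, -7⟩, (.cons (nat_lit 1006299) (nat_lit 538804) (nat_lit 1942897) (nat_lit 1)
 (.cons (nat_lit 461521) (nat_lit 1176936) (nat_lit 1089616) (nat_lit 1) .nil)), (nat_lit 1), (nat_lit 15),
 (nat_lit 7), (nat_lit 1), (12, 21, 16), [1690228, 1822483], 6⟩,
  mz,
  ⟨⟨13, 24, -40, -32, -5, -4, 16, -16, -35⟩, (.cons (nat_lit 1774987) (nat_lit 1735811) (nat_lit 1099286)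
 (nat_lit 1) (.cons (nat_lit 1860152) (nat_lit 1054636) (nat_lit 705457) (nat_lit 1) .nil)), (nat_lit 1),
 (nat_lit 42), (nat_lit 22), (nat_lit 1), (24, 32, 21), [128515, 1551364], 29⟩,
  ⟨⟨1, 24, -37, -30, -17, 0, 18, -12, -37⟩, (.cons (nat_lit 680014) (nat_lit 808797) (nat_lit 2419152) (nat_lit
 1) (.cons (nat_lit 331579) (nat_lit 1579701) (nat_lit 232118) (nat_lit 1) .nil)), (nat_lit 1), (nat_lit 36),
 (nat_lit 35), (nat_lit 1), (23, 13, 7), [486842, 853811], 6⟩,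
  ⟨⟨27, -4, -47, -10, 33, -10, 30, 12, -7⟩, (.cons (nat_lit 370388) (nat_lit 800245) (nat_lit 2327533) (nat_lit
 1) (.cons (nat_lit 274365) (nat_lit 283126) (nat_lit 1229669) (nat_lit 1) .nil)), (nat_lit 30), (nat_lit 29),
 (nat_lit 13), (nat_lit 1), (15, 15, 29), [376696, 653075], 39⟩,
  ⟨⟨27, 4, -47, -10, -33, -10, 30, -12, -7⟩, (.cons (nat_lit 2328456) (nat_lit 1821339) (nat_lit 1106352)
 (nat_lit 1) (.cons (nat_lit 3966) (nat_lit 12424) (nat_lit 414996) (nat_lit 1) .nil)), (nat_lit 1), (nat_lit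
 24), (nat_lit 13), (nat_lit 1), (33, 33, 12), [2009219, 89427], 39⟩,
  mz,
  ⟨⟨-35, -12, -1, 12, -35, -6, 0, 0, -37⟩, (.cons (nat_lit 1125846) (nat_lit 623262) (nat_lit 1807016) (nat_lit
 1) (.cons (nat_lit 1066550) (nat_lit 1394035) (nat_lit 434693) (nat_lit 1) .nil)), (nat_lit 1), (nat_lit 3),
 (nat_lit 10), (nat_lit 1), (23, 27, 0), [852597, 1839414], 39⟩,
  ⟨⟨25, 24, -36, -10, -17, -30, -14, 28, -5⟩, (.cons (nat_lit 1849674) (nat_lit 1246389) (nat_lit 2385650)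
 (nat_lit 1) (.cons (nat_lit 1440652) (nat_lit 1870662) (nat_lit 1) (nat_lit 305546) .nil)), (nat_lit 42),
 (nat_lit 29), (nat_lit 34), (nat_lit 1), (18, 15, 21), [1312500, 1265421], 40⟩,
  mz,
  mz,
  ⟨⟨-3, -40, 8, 32, -5, -36, -16, -16, -19⟩, (.cons (nat_lit 1304950) (nat_lit 1181245) (nat_lit 2309455)
 (nat_lit 1) (.cons (nat_lit 1782129) (nat_lit 882841) (nat_lit 1226847) (nat_lit 1) .nil)), (nat_lit 1),
 (nat_lit 5), (nat_lit 25), (nat_lit 1), (32, 4, 35), [1335807, 1421722], 29⟩,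
  mz,
  ⟨⟨11, 12, 36, -8, 35, -6, 32, 8, -13⟩, (.cons (nat_lit 1984265) (nat_lit 2353978) (nat_lit 1037568) (nat_lit
 1) (.cons (nat_lit 1213719) (nat_lit 643017) (nat_lit 1869) (nat_lit 1) .nil)), (nat_lit 7), (nat_lit 41),
 (nat_lit 27), (nat_lit 1), (20, 9, 1), [2235136, 1122014], 45⟩,
  ⟨⟨1, -24, -37, 30, -17, 0, 18, 12, -37⟩, (.cons (nat_lit 1832041) (nat_lit 1890586) (nat_lit 772557) (nat_lit
 1) (.cons (nat_lit 614875) (nat_lit 167559) (nat_lit 862688) (nat_lit 1) .nil)), (nat_lit 1), (nat_lit 13),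
 (nat_lit 21), (nat_lit 1), (26, 3, 24), [205053, 234109], 6⟩]

/-- Moves. -/
noncomputable def t4_1 : List Mv := [
  mz,
  ⟨⟨-25, 12, -36, -22, 35, 36, 20, 28, -37⟩, (.cons (nat_lit 2320556) (nat_lit 945825) (nat_lit 930503)
 (nat_lit 1) (.cons (nat_lit 1376027) (nat_lit 1869287) (nat_lit 605264) (nat_lit 1) .nil)), (nat_lit 21),
 (nat_lit 0), (nat_lit 0), (nat_lit 0), (2, 45, 36), [1919491, 1313446], 0⟩,
  ⟨⟨21, -32, -49, 2, 35, -36, -28, -20, -13⟩, (.cons (nat_lit 2019957) (nat_lit 1905174) (nat_lit 195000)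
 (nat_lit 1) (.cons (nat_lit 1169762) (nat_lit 1485881) (nat_lit 1549988) (nat_lit 1) .nil)), (nat_lit 5),
 (nat_lit 0), (nat_lit 0), (nat_lit 0), (33, 30, 3), [1077068, 1411985], 0⟩,
  ⟨⟨-51, 4, 19, -2, -45, -14, -12, 12, -37⟩, (.cons (nat_lit 2207777) (nat_lit 1759687) (nat_lit 593316)
 (nat_lit 1) (.cons (nat_lit 1725981) (nat_lit 91299) (nat_lit 1435750) (nat_lit 1) .nil)), (nat_lit 33),
 (nat_lit 0), (nat_lit 0), (nat_lit 0), (7, 27, 21), [2223375, 1833774], 0⟩,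
  mz,
  ⟨⟨25, -12, -61, -22, 35, -14, -20, -28, -17⟩, (.cons (nat_lit 1155278) (nat_lit 1268827) (nat_lit 1229218)
 (nat_lit 1) (.cons (nat_lit 87743) (nat_lit 353382) (nat_lit 1644203) (nat_lit 1) .nil)), (nat_lit 2),
 (nat_lit 0), (nat_lit 0), (nat_lit 0), (9, 9, 21), [2325888, 1727335], 0⟩,
  mz,
  mz,
  mz,
  ⟨⟨-17, -48, 0, -40, 17, 0, 10, -16, -47⟩, (.cons (nat_lit 2476098) (nat_lit 619302) (nat_lit 863602) (nat_lit
 1) (.cons (nat_lit 1874160) (nat_lit 1322591) (nat_lit 969505) (nat_lit 1) .nil)), (nat_lit 9), (nat_lit 0),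
 (nat_lit 0), (nat_lit 0), (6, 39, 2), [1726196, 971986], 0⟩,
  mz,
  ⟨⟨17, 48, -17, -40, 17, 40, -10, 16, -37⟩, (.cons (nat_lit 1934851) (nat_lit 2195981) (nat_lit 1344101)
 (nat_lit 1) (.cons (nat_lit 3346) (nat_lit 555373) (nat_lit 868825) (nat_lit 1) .nil)), (nat_lit 36), (nat_lit
 0), (nat_lit 0), (nat_lit 0), (25, 2, 24), [2432365, 643222], 0⟩,
  ⟨⟨17, -36, -45, -20, 23, -30, 38, 8, -37⟩, (.cons (nat_lit 1613680) (nat_lit 1973815) (nat_lit 1337456)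
 (nat_lit 1) (.cons (nat_lit 404701) (nat_lit 562153) (nat_lit 1262842) (nat_lit 1) .nil)), (nat_lit 32),
 (nat_lit 0), (nat_lit 0), (nat_lit 0), (19, 44, 1), [95603, 82209], 0⟩,
  mz,
  ⟨⟨-51, -4, 19, 2, -45, 14, -12, -12, -37⟩, (.cons (nat_lit 653978) (nat_lit 773959) (nat_lit 305796) (nat_lit
 1) (.cons (nat_lit 447347) (nat_lit 675649) (nat_lit 893268) (nat_lit 1) .nil)), (nat_lit 44), (nat_lit 0),
 (nat_lit 0), (nat_lit 0), (25, 11, 28), [2210641, 1593188], 0⟩,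
  ⟨⟨9, 4, -61, 40, 23, -10, 22, -32, -29⟩, (.cons (nat_lit 2132889) (nat_lit 1200938) (nat_lit 317139) (nat_lit
 1) (.cons (nat_lit 36439) (nat_lit 1296283) (nat_lit 764498) (nat_lit 1) .nil)), (nat_lit 35), (nat_lit 0),
 (nat_lit 0), (nat_lit 0), (18, 33, 44), [1182905, 468026], 0⟩,
  ⟨⟨-13, 36, 45, 40, 23, -30, -22, 32, -7⟩, (.cons (nat_lit 838163) (nat_lit 1541186) (nat_lit 434125) (nat_lit
 1) (.cons (nat_lit 1486111) (nat_lit 1592425) (nat_lit 1115128) (nat_lit 1) .nil)), (nat_lit 27), (nat_lit 0),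
 (nat_lit 0), (nat_lit 0), (5, 28, 41), [876744, 164193], 0⟩,
  mz,
  ⟨⟨23, 0, 40, 0, -47, 0, 42, 0, -23⟩, (.cons (nat_lit 2476098) (nat_lit 1599582) (nat_lit 1292411) (nat_lit 1)
 (.cons (nat_lit 1874160) (nat_lit 1193758) (nat_lit 132083) (nat_lit 1) .nil)), (nat_lit 18), (nat_lit 0),
 (nat_lit 0), (nat_lit 0), (7, 0, 23), [962135, 977755], 0⟩,
  ⟨⟨-39, 32, 8, -20, -33, -20, 6, 24, -41⟩, (.cons (nat_lit 1498279) (nat_lit 718400) (nat_lit 1902000)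
 (nat_lit 1) (.cons (nat_lit 718844) (nat_lit 1593602) (nat_lit 1199626) (nat_lit 1) .nil)), (nat_lit 22),
 (nat_lit 0), (nat_lit 0), (nat_lit 0), (25, 8, 7), [105879, 1301614], 0⟩,
  ⟨⟨17, -36, 28, 20, -23, -50, 38, 8, -1⟩, (.cons (nat_lit 1252598) (nat_lit 1845323) (nat_lit 478651) (nat_lit
 1) (.cons (nat_lit 1572555) (nat_lit 1817229) (nat_lit 329634) (nat_lit 1) .nil)), (nat_lit 16), (nat_lit 0),
 (nat_lit 0), (nat_lit 0), (2, 30, 10), [14417, 402112], 0⟩,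
  ⟨⟨21, 32, -49, 2, -35, -36, -28, 20, -13⟩, (.cons (nat_lit 169925) (nat_lit 2153379) (nat_lit 2224345)
 (nat_lit 1) (.cons (nat_lit 1607336) (nat_lit 781511) (nat_lit 1647695) (nat_lit 1) .nil)), (nat_lit 5),
 (nat_lit 0), (nat_lit 0), (nat_lit 0), (30, 23, 7), [1761648, 289527], 0⟩,
  ⟨⟨-39, -32, 8, 20, -33, 20, 6, -24, -41⟩, (.cons (nat_lit 80878) (nat_lit 1383934) (nat_lit 170474) (nat_lit
 1) (.cons (nat_lit 186161) (nat_lit 25251) (nat_lit 1448974) (nat_lit 1) .nil)), (nat_lit 19), (nat_lit 0),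
 (nat_lit 0), (nat_lit 0), (28, 23, 21), [1026883, 317805], 0⟩,
  mz,
  mz,
  ⟨⟨-45, 8, -4, 20, 33, -40, -6, -24, -35⟩, (.cons (nat_lit 2476098) (nat_lit 1804733) (nat_lit 465940)
 (nat_lit 1) (.cons (nat_lit 1874160) (nat_lit 12708) (nat_lit 1101884) (nat_lit 1) .nil)), (nat_lit 25),
 (nat_lit 0), (nat_lit 0), (nat_lit 0), (40, 24, 21), [2134345, 1508729], 0⟩,
  ⟨⟨-21, 32, -28, -2, -35, -34, 28, 20, -41⟩, (.cons (nat_lit 171643) (nat_lit 2225638) (nat_lit 1512200)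
 (nat_lit 1) (.cons (nat_lit 523519) (nat_lit 325255) (nat_lit 571573) (nat_lit 1) .nil)), (nat_lit 5),
 (nat_lit 0), (nat_lit 0), (nat_lit 0), (30, 23, 7), [980298, 433311], 0⟩,
  ⟨⟨17, 36, -45, -20, -23, -30, 38, -8, -37⟩, (.cons (nat_lit 1738472) (nat_lit 842206) (nat_lit 2086187)
 (nat_lit 1) (.cons (nat_lit 1582306) (nat_lit 1321930) (nat_lit 430079) (nat_lit 1) .nil)), (nat_lit 32),
 (nat_lit 0), (nat_lit 0), (nat_lit 0), (45, 30, 37), [1383245, 1384108], 0⟩,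
  ⟨⟨39, 32, -31, 20, -33, -40, -6, 24, -35⟩, (.cons (nat_lit 558235) (nat_lit 2235000) (nat_lit 2365507)
 (nat_lit 1) (.cons (nat_lit 297711) (nat_lit 559915) (nat_lit 964878) (nat_lit 1) .nil)), (nat_lit 22),
 (nat_lit 0), (nat_lit 0), (nat_lit 0), (25, 8, 7), [2152864, 1434581], 0⟩,
  ⟨⟨19, 0, 44, 0, -47, 0, 42, 0, -19⟩, (.cons (nat_lit 2476098) (nat_lit 2235043) (nat_lit 820347) (nat_lit 1)
 (.cons (nat_lit 1874160) (nat_lit 1828508) (nat_lit 46963) (nat_lit 1) .nil)), (nat_lit 29), (nat_lit 0),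
 (nat_lit 0), (nat_lit 0), (31, 0, 24), [1366134, 71899], 0⟩,
  mz,
  ⟨⟨9, -4, -61, 40, -23, -10, 22, 32, -29⟩, (.cons (nat_lit 1415225) (nat_lit 2299593) (nat_lit 2338899)
 (nat_lit 1) (.cons (nat_lit 457173) (nat_lit 7902) (nat_lit 724711) (nat_lit 1) .nil)), (nat_lit 35), (nat_lit
 0), (nat_lit 0), (nat_lit 0), (36, 19, 41), [630465, 436242], 0⟩,
  ⟨⟨-13, -36, 45, 40, -23, -30, -22, -32, -7⟩, (.cons (nat_lit 225684) (nat_lit 368633) (nat_lit 1293546)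
 (nat_lit 1) (.cons (nat_lit 105673) (nat_lit 155406) (nat_lit 666083) (nat_lit 1) .nil)), (nat_lit 27),
 (nat_lit 0), (nat_lit 0), (nat_lit 0), (26, 14, 44), [311989, 337563], 0⟩,
  ⟨⟨51, -4, -32, 2, 45, -16, 12, -12, -49⟩, (.cons (nat_lit 2476098) (nat_lit 1858452) (nat_lit 1683637)
 (nat_lit 1) (.cons (nat_lit 1874160) (nat_lit 1208219) (nat_lit 1722855) (nat_lit 1) .nil)), (nat_lit 33),
 (nat_lit 0), (nat_lit 0), (nat_lit 0), (25, 36, 28), [631309, 1123338], 0⟩,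
  mz,
  ⟨⟨21, -44, -29, -20, -23, 50, 38, -8, -1⟩, (.cons (nat_lit 911693) (nat_lit 2116083) (nat_lit 673903)
 (nat_lit 1) (.cons (nat_lit 1606916) (nat_lit 1482773) (nat_lit 354917) (nat_lit 1) .nil)), (nat_lit 15),
 (nat_lit 0), (nat_lit 0), (nat_lit 0), (18, 3, 46), [2156549, 1619873], 0⟩,
  ⟨⟨27, -32, -47, 40, 17, 0, 10, 16, -47⟩, (.cons (nat_lit 692345) (nat_lit 318634) (nat_lit 775929) (nat_lit
 1) (.cons (nat_lit 1154407) (nat_lit 1509357) (nat_lit 213146) (nat_lit 1) .nil)), (nat_lit 11), (nat_lit 0),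
 (nat_lit 0), (nat_lit 0), (46, 2, 24), [1287542, 1689662], 0⟩,
  mz,
  ⟨⟨-27, 32, -20, 40, 17, -40, -10, -16, -37⟩, (.cons (nat_lit 2476098) (nat_lit 1902836) (nat_lit 538746)
 (nat_lit 1) (.cons (nat_lit 1874160) (nat_lit 490117) (nat_lit 1871257) (nat_lit 1) .nil)), (nat_lit 38),
 (nat_lit 0), (nat_lit 0), (nat_lit 0), (43, 39, 2), [225856, 660476], 0⟩,
  mz,
  mz,
  mz,
  ⟨⟨45, -16, -1, 22, 35, -36, 20, -28, -37⟩, (.cons (nat_lit 439532) (nat_lit 8129) (nat_lit 1030275) (nat_lit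
 1) (.cons (nat_lit 951442) (nat_lit 1076037) (nat_lit 1) (nat_lit 1195840) .nil)), (nat_lit 45), (nat_lit 0),
 (nat_lit 0), (nat_lit 0), (12, 9, 21), [1173984, 1732962], 0⟩,
  mz,
  ⟨⟨-39, 8, -17, 2, -45, -16, 12, 12, -49⟩, (.cons (nat_lit 1126538) (nat_lit 2136433) (nat_lit 1411325)
 (nat_lit 1) (.cons (nat_lit 1238932) (nat_lit 1472977) (nat_lit 1257368) (nat_lit 1) .nil)), (nat_lit 14),
 (nat_lit 0), (nat_lit 0), (nat_lit 0), (14, 27, 21), [159422, 446991], 0⟩,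
  ⟨⟨49, 12, -13, 2, -35, 34, 28, -20, -41⟩, (.cons (nat_lit 2235039) (nat_lit 1084476) (nat_lit 972320)
 (nat_lit 1) (.cons (nat_lit 978430) (nat_lit 241538) (nat_lit 915499) (nat_lit 1) .nil)), (nat_lit 1),
 (nat_lit 0), (nat_lit 0), (nat_lit 0), (17, 17, 3), [1656277, 669930], 0⟩,
  ⟨⟨-45, 16, 44, -22, -35, -14, -20, 28, -17⟩, (.cons (nat_lit 761213) (nat_lit 608079) (nat_lit 1) (nat_lit
 1150849) (.cons (nat_lit 1092754) (nat_lit 1166745) (nat_lit 598105) (nat_lit 1) .nil)), (nat_lit 45),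
 (nat_lit 0), (nat_lit 0), (nat_lit 0), (34, 2, 36), [36735, 436751], 0⟩]

/-- Moves. -/
noncomputable def t4_2 : List Mv := [
  mz,
  ⟨⟨45, 16, -1, 22, -35, -36, 20, 28, -37⟩, (.cons (nat_lit 46007) (nat_lit 2383617) (nat_lit 2154393) (nat_lit
 1) (.cons (nat_lit 326951) (nat_lit 431419) (nat_lit 813922) (nat_lit 1) .nil)), (nat_lit 45), (nat_lit 0),
 (nat_lit 0), (nat_lit 0), (34, 2, 36), [2211568, 90948], 0⟩,
  ⟨⟨21, -32, -49, 2, 35, -36, -28, -20, -13⟩, (.cons (nat_lit 2019957) (nat_lit 1905174) (nat_lit 195000)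
 (nat_lit 1) (.cons (nat_lit 1169762) (nat_lit 1485881) (nat_lit 1549988) (nat_lit 1) .nil)), (nat_lit 5),
 (nat_lit 0), (nat_lit 0), (nat_lit 0), (33, 30, 3), [1077068, 1411985], 0⟩,
  ⟨⟨-51, 4, 19, 2, 45, 14, -12, 12, -37⟩, (.cons (nat_lit 1253006) (nat_lit 881002) (nat_lit 1567917) (nat_lit
 1) (.cons (nat_lit 816291) (nat_lit 60562) (nat_lit 553987) (nat_lit 1) .nil)), (nat_lit 44), (nat_lit 0),
 (nat_lit 0), (nat_lit 0), (7, 20, 21), [276581, 489536], 0⟩,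
  mz,
  ⟨⟨-45, -16, 44, -22, 35, -14, -20, -28, -17⟩, (.cons (nat_lit 1315828) (nat_lit 2226082) (nat_lit 1838501)
 (nat_lit 1) (.cons (nat_lit 1051478) (nat_lit 651223) (nat_lit 1775803) (nat_lit 1) .nil)), (nat_lit 45),
 (nat_lit 0), (nat_lit 0), (nat_lit 0), (12, 9, 21), [827096, 254924], 0⟩,
  mz,
  mz,
  mz,
  ⟨⟨27, 32, -47, -40, 17, 0, 10, -16, -47⟩, (.cons (nat_lit 384374) (nat_lit 2130728) (nat_lit 2248409)
 (nat_lit 1) (.cons (nat_lit 1715438) (nat_lit 1294816) (nat_lit 925971) (nat_lit 1) .nil)), (nat_lit 38),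
 (nat_lit 0), (nat_lit 0), (nat_lit 0), (43, 39, 2), [1294800, 1159933], 0⟩,
  mz,
  ⟨⟨17, 48, -17, 40, -17, -40, -10, 16, -37⟩, (.cons (nat_lit 197563) (nat_lit 2351805) (nat_lit 1395442)
 (nat_lit 1) (.cons (nat_lit 1103872) (nat_lit 110809) (nat_lit 1380203) (nat_lit 1) .nil)), (nat_lit 9),
 (nat_lit 0), (nat_lit 0), (nat_lit 0), (25, 45, 24), [450663, 1297953], 0⟩,
  ⟨⟨17, -36, -45, -20, 23, -30, 38, 8, -37⟩, (.cons (nat_lit 1613680) (nat_lit 1973815) (nat_lit 1337456)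
 (nat_lit 1) (.cons (nat_lit 404701) (nat_lit 562153) (nat_lit 1262842) (nat_lit 1) .nil)), (nat_lit 32),
 (nat_lit 0), (nat_lit 0), (nat_lit 0), (19, 44, 1), [95603, 82209], 0⟩,
  mz,
  ⟨⟨-51, -4, 19, -2, 45, -14, -12, -12, -37⟩, (.cons (nat_lit 1249510) (nat_lit 2145568) (nat_lit 1591170)
 (nat_lit 1) (.cons (nat_lit 65672) (nat_lit 1479157) (nat_lit 1315316) (nat_lit 1) .nil)), (nat_lit 33),
 (nat_lit 0), (nat_lit 0), (nat_lit 0), (25, 36, 28), [1650927, 1651447], 0⟩,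
  ⟨⟨9, 4, -61, 40, 23, -10, 22, -32, -29⟩, (.cons (nat_lit 2132889) (nat_lit 1200938) (nat_lit 317139) (nat_lit
 1) (.cons (nat_lit 36439) (nat_lit 1296283) (nat_lit 764498) (nat_lit 1) .nil)), (nat_lit 35), (nat_lit 0),
 (nat_lit 0), (nat_lit 0), (18, 33, 44), [1182905, 468026], 0⟩,
  ⟨⟨-13, 36, 45, -40, -23, 30, -22, 32, -7⟩, (.cons (nat_lit 321909) (nat_lit 334379) (nat_lit 1096733)
 (nat_lit 1) (.cons (nat_lit 10608) (nat_lit 1327240) (nat_lit 549867) (nat_lit 1) .nil)), (nat_lit 12),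
 (nat_lit 0), (nat_lit 0), (nat_lit 0), (5, 19, 41), [2085869, 1659565], 0⟩,
  mz,
  ⟨⟨19, 0, -63, 0, -47, 0, 42, 0, -23⟩, (.cons (nat_lit 392874) (nat_lit 24763) (nat_lit 1200372) (nat_lit 1)
 (.cons (nat_lit 1064884) (nat_lit 49036) (nat_lit 632172) (nat_lit 1) .nil)), (nat_lit 29), (nat_lit 0),
 (nat_lit 0), (nat_lit 0), (16, 0, 23), [446127, 787389], 0⟩,
  ⟨⟨-39, 32, 8, -20, -33, -20, 6, 24, -41⟩, (.cons (nat_lit 1498279) (nat_lit 718400) (nat_lit 1902000)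
 (nat_lit 1) (.cons (nat_lit 718844) (nat_lit 1593602) (nat_lit 1199626) (nat_lit 1) .nil)), (nat_lit 22),
 (nat_lit 0), (nat_lit 0), (nat_lit 0), (25, 8, 7), [105879, 1301614], 0⟩,
  ⟨⟨17, -36, 28, -20, 23, 50, 38, 8, -1⟩, (.cons (nat_lit 713279) (nat_lit 1180704) (nat_lit 2263300) (nat_lit
 1) (.cons (nat_lit 1138397) (nat_lit 441781) (nat_lit 1760739) (nat_lit 1) .nil)), (nat_lit 32), (nat_lit 0),
 (nat_lit 0), (nat_lit 0), (2, 17, 10), [197217, 1012451], 0⟩,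
  ⟨⟨-49, -12, 36, -2, 35, 36, -28, 20, -13⟩, (.cons (nat_lit 50352) (nat_lit 1107766) (nat_lit 58222) (nat_lit
 1) (.cons (nat_lit 1575546) (nat_lit 773587) (nat_lit 570842) (nat_lit 1) .nil)), (nat_lit 1), (nat_lit 0),
 (nat_lit 0), (nat_lit 0), (24, 24, 7), [879365, 1213779], 0⟩,
  ⟨⟨45, 8, -49, -20, 33, -20, 6, -24, -41⟩, (.cons (nat_lit 2231765) (nat_lit 1787331) (nat_lit 44819) (nat_lit
 1) (.cons (nat_lit 982636) (nat_lit 1278406) (nat_lit 908834) (nat_lit 1) .nil)), (nat_lit 25), (nat_lit 0),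
 (nat_lit 0), (nat_lit 0), (40, 24, 21), [1674322, 748995], 0⟩,
  mz,
  mz,
  ⟨⟨39, -32, -31, 20, 33, -40, -6, -24, -35⟩, (.cons (nat_lit 1932943) (nat_lit 373904) (nat_lit 1179495)
 (nat_lit 1) (.cons (nat_lit 1651099) (nat_lit 832217) (nat_lit 208499) (nat_lit 1) .nil)), (nat_lit 22),
 (nat_lit 0), (nat_lit 0), (nat_lit 0), (28, 24, 21), [1282270, 1460985], 0⟩,
  ⟨⟨-21, 32, -28, -2, -35, -34, 28, 20, -41⟩, (.cons (nat_lit 171643) (nat_lit 2225638) (nat_lit 1512200)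
 (nat_lit 1) (.cons (nat_lit 523519) (nat_lit 325255) (nat_lit 571573) (nat_lit 1) .nil)), (nat_lit 5),
 (nat_lit 0), (nat_lit 0), (nat_lit 0), (30, 23, 7), [980298, 433311], 0⟩,
  ⟨⟨17, 36, -45, -20, -23, -30, 38, -8, -37⟩, (.cons (nat_lit 1738472) (nat_lit 842206) (nat_lit 2086187)
 (nat_lit 1) (.cons (nat_lit 1582306) (nat_lit 1321930) (nat_lit 430079) (nat_lit 1) .nil)), (nat_lit 32),
 (nat_lit 0), (nat_lit 0), (nat_lit 0), (45, 30, 37), [1383245, 1384108], 0⟩,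
  ⟨⟨-45, -8, -4, 20, -33, -40, -6, 24, -35⟩, (.cons (nat_lit 491583) (nat_lit 1012754) (nat_lit 1163290)
 (nat_lit 1) (.cons (nat_lit 1190372) (nat_lit 1039783) (nat_lit 1106871) (nat_lit 1) .nil)), (nat_lit 25),
 (nat_lit 0), (nat_lit 0), (nat_lit 0), (29, 8, 7), [2292684, 610454], 0⟩,
  ⟨⟨19, 0, 44, 0, -47, 0, 42, 0, -19⟩, (.cons (nat_lit 2476098) (nat_lit 2235043) (nat_lit 820347) (nat_lit 1)
 (.cons (nat_lit 1874160) (nat_lit 1828508) (nat_lit 46963) (nat_lit 1) .nil)), (nat_lit 29), (nat_lit 0),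
 (nat_lit 0), (nat_lit 0), (31, 0, 24), [1366134, 71899], 0⟩,
  mz,
  ⟨⟨9, -4, -61, 40, -23, -10, 22, 32, -29⟩, (.cons (nat_lit 1415225) (nat_lit 2299593) (nat_lit 2338899)
 (nat_lit 1) (.cons (nat_lit 457173) (nat_lit 7902) (nat_lit 724711) (nat_lit 1) .nil)), (nat_lit 35), (nat_lit
 0), (nat_lit 0), (nat_lit 0), (36, 19, 41), [630465, 436242], 0⟩,
  ⟨⟨-9, 4, -52, 40, -23, -30, -22, -32, -7⟩, (.cons (nat_lit 491871) (nat_lit 106672) (nat_lit 1) (nat_lit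
 311600) (.cons (nat_lit 1784878) (nat_lit 1814778) (nat_lit 1309618) (nat_lit 1) .nil)), (nat_lit 20),
 (nat_lit 0), (nat_lit 0), (nat_lit 0), (18, 14, 44), [185747, 362076], 0⟩,
  ⟨⟨51, -4, -32, 2, 45, -16, 12, -12, -49⟩, (.cons (nat_lit 2476098) (nat_lit 1858452) (nat_lit 1683637)
 (nat_lit 1) (.cons (nat_lit 1874160) (nat_lit 1208219) (nat_lit 1722855) (nat_lit 1) .nil)), (nat_lit 33),
 (nat_lit 0), (nat_lit 0), (nat_lit 0), (25, 36, 28), [631309, 1123338], 0⟩,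
  mz,
  ⟨⟨17, 36, 28, 20, 23, -50, 38, -8, -1⟩, (.cons (nat_lit 1161475) (nat_lit 1731353) (nat_lit 437072) (nat_lit
 1) (.cons (nat_lit 1363330) (nat_lit 690684) (nat_lit 162205) (nat_lit 1) .nil)), (nat_lit 16), (nat_lit 0),
 (nat_lit 0), (nat_lit 0), (28, 44, 46), [1517175, 1436169], 0⟩,
  ⟨⟨27, -32, -47, -40, -17, 0, 10, 16, -47⟩, (.cons (nat_lit 616020) (nat_lit 237594) (nat_lit 1885188)
 (nat_lit 1) (.cons (nat_lit 87724) (nat_lit 747805) (nat_lit 1548176) (nat_lit 1) .nil)), (nat_lit 38),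
 (nat_lit 0), (nat_lit 0), (nat_lit 0), (46, 45, 24), [1129089, 1080144], 0⟩,
  mz,
  ⟨⟨-27, 32, -20, 40, 17, -40, -10, -16, -37⟩, (.cons (nat_lit 2476098) (nat_lit 1902836) (nat_lit 538746)
 (nat_lit 1) (.cons (nat_lit 1874160) (nat_lit 490117) (nat_lit 1871257) (nat_lit 1) .nil)), (nat_lit 38),
 (nat_lit 0), (nat_lit 0), (nat_lit 0), (43, 39, 2), [225856, 660476], 0⟩,
  mz,
  mz,
  mz,
  ⟨⟨45, -16, -1, 22, 35, -36, 20, -28, -37⟩, (.cons (nat_lit 439532) (nat_lit 8129) (nat_lit 1030275) (nat_lit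
 1) (.cons (nat_lit 951442) (nat_lit 1076037) (nat_lit 1) (nat_lit 1195840) .nil)), (nat_lit 45), (nat_lit 0),
 (nat_lit 0), (nat_lit 0), (12, 9, 21), [1173984, 1732962], 0⟩,
  mz,
  ⟨⟨-39, 8, -17, -2, 45, 16, 12, 12, -49⟩, (.cons (nat_lit 1751803) (nat_lit 655698) (nat_lit 442171) (nat_lit
 1) (.cons (nat_lit 817860) (nat_lit 963749) (nat_lit 236413) (nat_lit 1) .nil)), (nat_lit 3), (nat_lit 0),
 (nat_lit 0), (nat_lit 0), (14, 20, 21), [914338, 824737], 0⟩,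
  ⟨⟨49, 12, -13, -2, 35, -34, 28, -20, -41⟩, (.cons (nat_lit 395071) (nat_lit 2444343) (nat_lit 1759590)
 (nat_lit 1) (.cons (nat_lit 796388) (nat_lit 1851836) (nat_lit 349411) (nat_lit 1) .nil)), (nat_lit 42),
 (nat_lit 0), (nat_lit 0), (nat_lit 0), (17, 30, 3), [1549737, 823262], 0⟩,
  ⟨⟨-45, 16, 44, -22, -35, -14, -20, 28, -17⟩, (.cons (nat_lit 761213) (nat_lit 608079) (nat_lit 1) (nat_lit
 1150849) (.cons (nat_lit 1092754) (nat_lit 1166745) (nat_lit 598105) (nat_lit 1) .nil)), (nat_lit 45),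
 (nat_lit 0), (nat_lit 0), (nat_lit 0), (34, 2, 36), [36735, 436751], 0⟩]

/-- Moves. -/
noncomputable def t4_8 : List Mv := [
  mz,
  ⟨⟨45, 16, -1, 22, -35, -36, 20, 28, -37⟩, (.cons (nat_lit 46007) (nat_lit 2383617) (nat_lit 2154393) (nat_lit
 1) (.cons (nat_lit 326951) (nat_lit 431419) (nat_lit 813922) (nat_lit 1) .nil)), (nat_lit 45), (nat_lit 0),
 (nat_lit 0), (nat_lit 0), (34, 2, 36), [2211568, 90948], 0⟩,
  ⟨⟨21, -32, -49, 2, 35, -36, -28, -20, -13⟩, (.cons (nat_lit 2019957) (nat_lit 1905174) (nat_lit 195000)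
 (nat_lit 1) (.cons (nat_lit 1169762) (nat_lit 1485881) (nat_lit 1549988) (nat_lit 1) .nil)), (nat_lit 5),
 (nat_lit 0), (nat_lit 0), (nat_lit 0), (33, 30, 3), [1077068, 1411985], 0⟩,
  ⟨⟨-51, 4, 19, -2, -45, -14, -12, 12, -37⟩, (.cons (nat_lit 2207777) (nat_lit 1759687) (nat_lit 593316)
 (nat_lit 1) (.cons (nat_lit 1725981) (nat_lit 91299) (nat_lit 1435750) (nat_lit 1) .nil)), (nat_lit 33),
 (nat_lit 0), (nat_lit 0), (nat_lit 0), (7, 27, 21), [2223375, 1833774], 0⟩,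
  mz,
  ⟨⟨25, -12, -61, -22, 35, -14, -20, -28, -17⟩, (.cons (nat_lit 1155278) (nat_lit 1268827) (nat_lit 1229218)
 (nat_lit 1) (.cons (nat_lit 87743) (nat_lit 353382) (nat_lit 1644203) (nat_lit 1) .nil)), (nat_lit 2),
 (nat_lit 0), (nat_lit 0), (nat_lit 0), (9, 9, 21), [2325888, 1727335], 0⟩,
  mz,
  mz,
  mz,
  ⟨⟨27, 32, -47, 40, -17, 0, 10, -16, -47⟩, (.cons (nat_lit 634544) (nat_lit 1306588) (nat_lit 986645) (nat_lit
 1) (.cons (nat_lit 577171) (nat_lit 2786) (nat_lit 861498) (nat_lit 1) .nil)), (nat_lit 11), (nat_lit 0),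
 (nat_lit 0), (nat_lit 0), (43, 8, 2), [923915, 368257], 0⟩,
  mz,
  ⟨⟨17, 48, -17, 40, -17, -40, -10, 16, -37⟩, (.cons (nat_lit 197563) (nat_lit 2351805) (nat_lit 1395442)
 (nat_lit 1) (.cons (nat_lit 1103872) (nat_lit 110809) (nat_lit 1380203) (nat_lit 1) .nil)), (nat_lit 9),
 (nat_lit 0), (nat_lit 0), (nat_lit 0), (25, 45, 24), [450663, 1297953], 0⟩,
  ⟨⟨17, -36, -45, 20, -23, 30, 38, 8, -37⟩, (.cons (nat_lit 1168203) (nat_lit 1875105) (nat_lit 1124771)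
 (nat_lit 1) (.cons (nat_lit 1449966) (nat_lit 1236595) (nat_lit 250649) (nat_lit 1) .nil)), (nat_lit 16),
 (nat_lit 0), (nat_lit 0), (nat_lit 0), (19, 3, 1), [1528652, 1286076], 0⟩,
  mz,
  ⟨⟨-51, -4, 19, -2, 45, -14, -12, -12, -37⟩, (.cons (nat_lit 1249510) (nat_lit 2145568) (nat_lit 1591170)
 (nat_lit 1) (.cons (nat_lit 65672) (nat_lit 1479157) (nat_lit 1315316) (nat_lit 1) .nil)), (nat_lit 33),
 (nat_lit 0), (nat_lit 0), (nat_lit 0), (25, 36, 28), [1650927, 1651447], 0⟩,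
  ⟨⟨9, 4, -61, 40, 23, -10, 22, -32, -29⟩, (.cons (nat_lit 2132889) (nat_lit 1200938) (nat_lit 317139) (nat_lit
 1) (.cons (nat_lit 36439) (nat_lit 1296283) (nat_lit 764498) (nat_lit 1) .nil)), (nat_lit 35), (nat_lit 0),
 (nat_lit 0), (nat_lit 0), (18, 33, 44), [1182905, 468026], 0⟩,
  ⟨⟨-9, -4, -52, -40, -23, 30, -22, 32, -7⟩, (.cons (nat_lit 553379) (nat_lit 2403075) (nat_lit 1360131)
 (nat_lit 1) (.cons (nat_lit 609579) (nat_lit 58292) (nat_lit 224343) (nat_lit 1) .nil)), (nat_lit 35),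
 (nat_lit 0), (nat_lit 0), (nat_lit 0), (36, 19, 41), [61673, 1233060], 0⟩,
  mz,
  ⟨⟨23, 0, 40, 0, -47, 0, 42, 0, -23⟩, (.cons (nat_lit 2476098) (nat_lit 1599582) (nat_lit 1292411) (nat_lit 1)
 (.cons (nat_lit 1874160) (nat_lit 1193758) (nat_lit 132083) (nat_lit 1) .nil)), (nat_lit 18), (nat_lit 0),
 (nat_lit 0), (nat_lit 0), (7, 0, 23), [962135, 977755], 0⟩,
  ⟨⟨-39, 32, 8, -20, -33, -20, 6, 24, -41⟩, (.cons (nat_lit 1498279) (nat_lit 718400) (nat_lit 1902000)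
 (nat_lit 1) (.cons (nat_lit 718844) (nat_lit 1593602) (nat_lit 1199626) (nat_lit 1) .nil)), (nat_lit 22),
 (nat_lit 0), (nat_lit 0), (nat_lit 0), (25, 8, 7), [105879, 1301614], 0⟩,
  ⟨⟨17, -36, 28, 20, -23, -50, 38, 8, -1⟩, (.cons (nat_lit 1252598) (nat_lit 1845323) (nat_lit 478651) (nat_lit
 1) (.cons (nat_lit 1572555) (nat_lit 1817229) (nat_lit 329634) (nat_lit 1) .nil)), (nat_lit 16), (nat_lit 0),
 (nat_lit 0), (nat_lit 0), (2, 30, 10), [14417, 402112], 0⟩,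
  ⟨⟨21, 32, -49, 2, -35, -36, -28, 20, -13⟩, (.cons (nat_lit 169925) (nat_lit 2153379) (nat_lit 2224345)
 (nat_lit 1) (.cons (nat_lit 1607336) (nat_lit 781511) (nat_lit 1647695) (nat_lit 1) .nil)), (nat_lit 5),
 (nat_lit 0), (nat_lit 0), (nat_lit 0), (30, 23, 7), [1761648, 289527], 0⟩,
  ⟨⟨45, 8, -49, 20, -33, 20, 6, -24, -41⟩, (.cons (nat_lit 2401386) (nat_lit 390638) (nat_lit 82267) (nat_lit
 1) (.cons (nat_lit 823505) (nat_lit 1406272) (nat_lit 559297) (nat_lit 1) .nil)), (nat_lit 28), (nat_lit 0),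
 (nat_lit 0), (nat_lit 0), (40, 23, 21), [862425, 1831661], 0⟩,
  mz,
  mz,
  ⟨⟨-45, 8, -4, 20, 33, -40, -6, -24, -35⟩, (.cons (nat_lit 2476098) (nat_lit 1804733) (nat_lit 465940)
 (nat_lit 1) (.cons (nat_lit 1874160) (nat_lit 12708) (nat_lit 1101884) (nat_lit 1) .nil)), (nat_lit 25),
 (nat_lit 0), (nat_lit 0), (nat_lit 0), (40, 24, 21), [2134345, 1508729], 0⟩,
  ⟨⟨-21, 32, -28, -2, -35, -34, 28, 20, -41⟩, (.cons (nat_lit 171643) (nat_lit 2225638) (nat_lit 1512200)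
 (nat_lit 1) (.cons (nat_lit 523519) (nat_lit 325255) (nat_lit 571573) (nat_lit 1) .nil)), (nat_lit 5),
 (nat_lit 0), (nat_lit 0), (nat_lit 0), (30, 23, 7), [980298, 433311], 0⟩,
  ⟨⟨17, 36, -45, 20, 23, 30, 38, -8, -37⟩, (.cons (nat_lit 2100266) (nat_lit 2147165) (nat_lit 909718) (nat_lit
 1) (.cons (nat_lit 1143627) (nat_lit 759835) (nat_lit 1104804) (nat_lit 1) .nil)), (nat_lit 16), (nat_lit 0),
 (nat_lit 0), (nat_lit 0), (45, 17, 37), [1405167, 559564], 0⟩,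
  ⟨⟨-45, -8, -4, 20, -33, -40, -6, 24, -35⟩, (.cons (nat_lit 491583) (nat_lit 1012754) (nat_lit 1163290)
 (nat_lit 1) (.cons (nat_lit 1190372) (nat_lit 1039783) (nat_lit 1106871) (nat_lit 1) .nil)), (nat_lit 25),
 (nat_lit 0), (nat_lit 0), (nat_lit 0), (29, 8, 7), [2292684, 610454], 0⟩,
  ⟨⟨19, 0, 44, 0, -47, 0, 42, 0, -19⟩, (.cons (nat_lit 2476098) (nat_lit 2235043) (nat_lit 820347) (nat_lit 1)
 (.cons (nat_lit 1874160) (nat_lit 1828508) (nat_lit 46963) (nat_lit 1) .nil)), (nat_lit 29), (nat_lit 0),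
 (nat_lit 0), (nat_lit 0), (31, 0, 24), [1366134, 71899], 0⟩,
  mz,
  ⟨⟨9, -4, -61, 40, -23, -10, 22, 32, -29⟩, (.cons (nat_lit 1415225) (nat_lit 2299593) (nat_lit 2338899)
 (nat_lit 1) (.cons (nat_lit 457173) (nat_lit 7902) (nat_lit 724711) (nat_lit 1) .nil)), (nat_lit 35), (nat_lit
 0), (nat_lit 0), (nat_lit 0), (36, 19, 41), [630465, 436242], 0⟩,
  ⟨⟨-13, -36, 45, 40, -23, -30, -22, -32, -7⟩, (.cons (nat_lit 225684) (nat_lit 368633) (nat_lit 1293546)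
 (nat_lit 1) (.cons (nat_lit 105673) (nat_lit 155406) (nat_lit 666083) (nat_lit 1) .nil)), (nat_lit 27),
 (nat_lit 0), (nat_lit 0), (nat_lit 0), (26, 14, 44), [311989, 337563], 0⟩,
  ⟨⟨51, -4, -32, 2, 45, -16, 12, -12, -49⟩, (.cons (nat_lit 2476098) (nat_lit 1858452) (nat_lit 1683637)
 (nat_lit 1) (.cons (nat_lit 1874160) (nat_lit 1208219) (nat_lit 1722855) (nat_lit 1) .nil)), (nat_lit 33),
 (nat_lit 0), (nat_lit 0), (nat_lit 0), (25, 36, 28), [631309, 1123338], 0⟩,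
  mz,
  ⟨⟨17, 36, 28, 20, 23, -50, 38, -8, -1⟩, (.cons (nat_lit 1161475) (nat_lit 1731353) (nat_lit 437072) (nat_lit
 1) (.cons (nat_lit 1363330) (nat_lit 690684) (nat_lit 162205) (nat_lit 1) .nil)), (nat_lit 16), (nat_lit 0),
 (nat_lit 0), (nat_lit 0), (28, 44, 46), [1517175, 1436169], 0⟩,
  ⟨⟨27, -32, -47, -40, -17, 0, 10, 16, -47⟩, (.cons (nat_lit 616020) (nat_lit 237594) (nat_lit 1885188)
 (nat_lit 1) (.cons (nat_lit 87724) (nat_lit 747805) (nat_lit 1548176) (nat_lit 1) .nil)), (nat_lit 38),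
 (nat_lit 0), (nat_lit 0), (nat_lit 0), (46, 45, 24), [1129089, 1080144], 0⟩,
  mz,
  ⟨⟨17, -48, -17, -40, -17, 40, -10, -16, -37⟩, (.cons (nat_lit 1659660) (nat_lit 936007) (nat_lit 343231)
 (nat_lit 1) (.cons (nat_lit 501954) (nat_lit 750754) (nat_lit 226102) (nat_lit 1) .nil)), (nat_lit 36),
 (nat_lit 0), (nat_lit 0), (nat_lit 0), (6, 8, 2), [1671139, 1463486], 0⟩,
  mz,
  mz,
  mz,
  ⟨⟨45, -16, -1, 22, 35, -36, 20, -28, -37⟩, (.cons (nat_lit 439532) (nat_lit 8129) (nat_lit 1030275) (nat_lit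
 1) (.cons (nat_lit 951442) (nat_lit 1076037) (nat_lit 1) (nat_lit 1195840) .nil)), (nat_lit 45), (nat_lit 0),
 (nat_lit 0), (nat_lit 0), (12, 9, 21), [1173984, 1732962], 0⟩,
  mz,
  ⟨⟨51, 4, -32, 2, -45, -16, 12, 12, -49⟩, (.cons (nat_lit 1967502) (nat_lit 1993681) (nat_lit 2428996)
 (nat_lit 1) (.cons (nat_lit 391292) (nat_lit 1829242) (nat_lit 714560) (nat_lit 1) .nil)), (nat_lit 33),
 (nat_lit 0), (nat_lit 0), (nat_lit 0), (7, 27, 21), [82271, 1557142], 0⟩,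
  ⟨⟨-21, -32, -28, 2, -35, 34, 28, -20, -41⟩, (.cons (nat_lit 1702001) (nat_lit 573516) (nat_lit 1964347)
 (nat_lit 1) (.cons (nat_lit 1202990) (nat_lit 969443) (nat_lit 438043) (nat_lit 1) .nil)), (nat_lit 46),
 (nat_lit 0), (nat_lit 0), (nat_lit 0), (33, 17, 3), [2074993, 1222205], 0⟩,
  ⟨⟨-45, 16, 44, -22, -35, -14, -20, 28, -17⟩, (.cons (nat_lit 761213) (nat_lit 608079) (nat_lit 1) (nat_lit
 1150849) (.cons (nat_lit 1092754) (nat_lit 1166745) (nat_lit 598105) (nat_lit 1) .nil)), (nat_lit 45),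
 (nat_lit 0), (nat_lit 0), (nat_lit 0), (34, 2, 36), [36735, 436751], 0⟩]

/-- All the moves. -/
noncomputable def tabs : List (List (List Mv)) := [[[], t0_1, t0_2, [], [], [], [], [], t0_8], [[], t1_1, t1_2, [], [], [], [], [], t1_8], [], [], [[], t4_1, t4_2, [], [], [], [], [], t4_8]]

/-- Subtrie. -/
noncomputable def T1 : Tr := (.ev (nat_lit 20) (nat_lit 70371666563084) (.nd (nat_lit 33) (.br (nat_lit 19)
 (.br (nat_lit 11) (.br (nat_lit 7) (.br (nat_lit 4) (.ch (nat_lit 1) (.ev (nat_lit 52) (nat_lit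
 17983028068866) (.ev (nat_lit 148) (nat_lit 16384) (.ev (nat_lit 352) (nat_lit 39582692116512) .dd)))) (.br
 (nat_lit 5) (.ch (nat_lit 4) (.ev (nat_lit 52) (nat_lit 22028887540226) (.ev (nat_lit 180) (nat_lit 524288)
 (.ev (nat_lit 308) (nat_lit 32768) (.ev (nat_lit 512) (nat_lit 35536832104480) .dd))))) (.ch (nat_lit 5) (.ev
 (nat_lit 52) (nat_lit 39659728338946) (.ev (nat_lit 84) (nat_lit 4227584) (.ev (nat_lit 116) (nat_lit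
 17592186044416) (.ev (nat_lit 500) (nat_lit 32) (.ev (nat_lit 532) (nat_lit 2048) (.ev (nat_lit 628) (nat_lit
 4294967296) (.nd (nat_lit 1376) (.br (nat_lit 6) (.br (nat_lit 2) (.ch (nat_lit 1) (.ev (nat_lit 1392)
 (nat_lit 275146342400) (.ev (nat_lit 1540) (nat_lit 524288) (.ev (nat_lit 1556) (nat_lit 16384) (.ev (nat_lit
 1565) (nat_lit 34359738368) .dd))))) (.br (nat_lit 4) (.ch (nat_lit 2) (.ev (nat_lit 1392) (nat_lit
 275146866688) (.ev (nat_lit 1664) (nat_lit 34359754752) .dd))) (.ch (nat_lit 4) (.ev (nat_lit 1392) (nat_lit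
 268451840) (.ev (nat_lit 1828) (nat_lit 274877906944) (.fin (nat_lit 576475595715068502))))))) (.br (nat_lit
 12) (.br (nat_lit 9) (.ch (nat_lit 6) (.ev (nat_lit 1392) (nat_lit 309506621440) .dd)) (.ch (nat_lit 9) (.ev
 (nat_lit 1392) (nat_lit 275146883072) (.ev (nat_lit 1405) (nat_lit 34359738368) .dd)))) (.br (nat_lit 15) (.ch
 (nat_lit 12) (.ev (nat_lit 1392) (nat_lit 34360279040) (.ev (nat_lit 1504) (nat_lit 268435456) (.ev (nat_lit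
 1517) (nat_lit 274877906944) .dd)))) (.ch (nat_lit 15) (.ev (nat_lit 1392) (nat_lit 309506621440)
 .dd))))))))))))))) (.br (nat_lit 8) (.ch (nat_lit 7) (.ev (nat_lit 52) (nat_lit 35292015313410) (.ev (nat_lit
 180) (nat_lit 32768) (.ev (nat_lit 852) (nat_lit 32) (.ev (nat_lit 948) (nat_lit 262144) (.ev (nat_lit 1012)
 (nat_lit 274877906944) (.ev (nat_lit 1056) (nat_lit 8589934592) (.nd (nat_lit 1376) (.br (nat_lit 9) (.br
 (nat_lit 4) (.ch (nat_lit 1) (.ev (nat_lit 1392) (nat_lit 21990236751872) .dd)) (.br (nat_lit 7) (.ch (nat_lit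
 4) (.ev (nat_lit 1392) (nat_lit 21990236751872) .dd)) (.ch (nat_lit 7) (.ev (nat_lit 1444) (nat_lit 2048) (.ev
 (nat_lit 1472) (nat_lit 4194304) (.ev (nat_lit 1492) (nat_lit 17592186044416) (.ev (nat_lit 1501) (nat_lit
 4398046511104) .dd))))))) (.br (nat_lit 10) (.ch (nat_lit 9) (.ev (nat_lit 1392) (nat_lit 21990236751872)
 .dd)) (.br (nat_lit 18) (.ch (nat_lit 10) (.ev (nat_lit 1392) (nat_lit 21990232555520) (.fin (nat_lit
 576473396706493002)))) (.ch (nat_lit 18) (.ev (nat_lit 1392) (nat_lit 21990236751872) .dd))))))))))))) (.br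
 (nat_lit 10) (.ch (nat_lit 8) (.ev (nat_lit 52) (nat_lit 356754915328) (.ev (nat_lit 128) (nat_lit
 57208965286434) .dd))) (.ch (nat_lit 10) (.ev (nat_lit 52) (nat_lit 4505424953856) (.ev (nat_lit 84) (nat_lit
 16384) (.ev (nat_lit 308) (nat_lit 524288) (.ev (nat_lit 416) (nat_lit 53060294707234) .dd)))))))) (.br
 (nat_lit 15) (.br (nat_lit 12) (.ch (nat_lit 11) (.ev (nat_lit 52) (nat_lit 57251914123776) (.ev (nat_lit 116)
 (nat_lit 4194304) (.ev (nat_lit 756) (nat_lit 274877906976) (.ev (nat_lit 820) (nat_lit 262144) (.nd (nat_lit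
 1376) (.br (nat_lit 9) (.br (nat_lit 6) (.br (nat_lit 2) (.ch (nat_lit 1) (.ev (nat_lit 1392) (nat_lit
 4563976194) (.ev (nat_lit 1405) (nat_lit 34359738368) .dd))) (.ch (nat_lit 2) (.ev (nat_lit 1392) (nat_lit
 4563435522) (.ev (nat_lit 1472) (nat_lit 16384) (.ev (nat_lit 1872) (nat_lit 524288) (.ev (nat_lit 1885)
 (nat_lit 34359738368) .dd)))))) (.br (nat_lit 7) (.ch (nat_lit 6) (.ev (nat_lit 1392) (nat_lit 38654722050)
 (.ev (nat_lit 1568) (nat_lit 268435456) (.ev (nat_lit 1872) (nat_lit 557056) .dd)))) (.ch (nat_lit 7) (.ev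
 (nat_lit 1392) (nat_lit 4563976194) (.ev (nat_lit 1405) (nat_lit 34359738368) .dd))))) (.br (nat_lit 15) (.br
 (nat_lit 12) (.ch (nat_lit 9) (.ev (nat_lit 1392) (nat_lit 38923681794) (.ev (nat_lit 1405) (nat_lit 32768)
 .dd))) (.ch (nat_lit 12) (.ev (nat_lit 1392) (nat_lit 38923714562) .dd))) (.br (nat_lit 18) (.ch (nat_lit 15)
 (.ev (nat_lit 1392) (nat_lit 4563943424) (.ev (nat_lit 1408) (nat_lit 2) (.ev (nat_lit 1680) (nat_lit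
 34359738368) (.ev (nat_lit 1693) (nat_lit 32768) .dd))))) (.ch (nat_lit 18) (.ev (nat_lit 1392) (nat_lit
 34628173826) (.ev (nat_lit 1856) (nat_lit 32768) (.ev (nat_lit 1888) (nat_lit 16384) (.fin (nat_lit
 576479993761579602))))))))))))))) (.br (nat_lit 13) (.ch (nat_lit 12) (.ev (nat_lit 52) (nat_lit
 35257391071232) (.ev (nat_lit 180) (nat_lit 34359738368) (.ev (nat_lit 276) (nat_lit 8589934592) (.ev (nat_lit
 372) (nat_lit 524288) (.ev (nat_lit 576) (nat_lit 22265378933282) .dd)))))) (.ch (nat_lit 13) (.ev (nat_lit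
 52) (nat_lit 17592458690560) (.ev (nat_lit 148) (nat_lit 512) (.ev (nat_lit 212) (nat_lit 32) (.ev (nat_lit
 308) (nat_lit 68719476736) (.ev (nat_lit 756) (nat_lit 2) (.ev (nat_lit 788) (nat_lit 35184372088832) (.ev
 (nat_lit 1012) (nat_lit 4398046511104) (.ev (nat_lit 1312) (nat_lit 2048) (.nd (nat_lit 1376) (.br (nat_lit
 10) (.br (nat_lit 6) (.ch (nat_lit 4) (.ev (nat_lit 1392) (nat_lit 98304) (.ev (nat_lit 1444) (nat_lit
 274877906944) (.ev (nat_lit 1696) (nat_lit 4295229440) (.ev (nat_lit 1872) (nat_lit 8589934592) (.fin (nat_lit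
 576475595715068502))))))) (.ch (nat_lit 6) (.ev (nat_lit 1392) (nat_lit 317828464640) (.ev (nat_lit 1405)
 (nat_lit 4294967296) .dd)))) (.br (nat_lit 12) (.ch (nat_lit 10) (.ev (nat_lit 1392) (nat_lit 47245492224)
 (.ev (nat_lit 1728) (nat_lit 32768) (.ev (nat_lit 1741) (nat_lit 274877906944) .dd)))) (.br (nat_lit 15) (.ch
 (nat_lit 12) (.ev (nat_lit 1392) (nat_lit 322123366400) (.ev (nat_lit 1405) (nat_lit 65536) .dd))) (.ch
 (nat_lit 15) (.ev (nat_lit 1392) (nat_lit 322123399168) (.ev (nat_lit 1405) (nat_lit 32768)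
 .dd)))))))))))))))))) (.br (nat_lit 17) (.br (nat_lit 16) (.ch (nat_lit 15) (.ev (nat_lit 52) (nat_lit
 4672928628770) (.ev (nat_lit 116) (nat_lit 2048) (.ev (nat_lit 148) (nat_lit 34359738368) (.ev (nat_lit 340)
 (nat_lit 4294967296) (.ev (nat_lit 468) (nat_lit 8589934592) (.ev (nat_lit 532) (nat_lit 68720001024) (.ev
 (nat_lit 660) (nat_lit 65536) (.nd (nat_lit 1376) (.br (nat_lit 7) (.br (nat_lit 4) (.ch (nat_lit 2) (.ev
 (nat_lit 1392) (nat_lit 35184640819200) (.ev (nat_lit 1504) (nat_lit 17592186044416) (.ev (nat_lit 1517)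
 (nat_lit 512) .dd)))) (.br (nat_lit 6) (.ch (nat_lit 4) (.ev (nat_lit 1392) (nat_lit 52776826863616) (.ev
 (nat_lit 1405) (nat_lit 512) .dd))) (.ch (nat_lit 6) (.ev (nat_lit 1392) (nat_lit 52776826831360) (.ev
 (nat_lit 1405) (nat_lit 32768) .dd))))) (.br (nat_lit 11) (.br (nat_lit 9) (.ch (nat_lit 7) (.ev (nat_lit
 1392) (nat_lit 268730368) (.ev (nat_lit 1828) (nat_lit 35184372088832) (.ev (nat_lit 1840) (nat_lit
 17592186044416) (.ev (nat_lit 1853) (nat_lit 512) .dd))))) (.ch (nat_lit 9) (.ev (nat_lit 1392) (nat_lit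
 52776826830848) (.ev (nat_lit 1588) (nat_lit 32768) (.ev (nat_lit 1597) (nat_lit 512) .dd))))) (.br (nat_lit
 15) (.ch (nat_lit 11) (.ev (nat_lit 1392) (nat_lit 52776558133760) (.ev (nat_lit 1616) (nat_lit 32768) (.ev
 (nat_lit 1840) (nat_lit 268697600) .dd)))) (.ch (nat_lit 15) (.ev (nat_lit 1392) (nat_lit 52776558395904)
 (.fin (nat_lit 576479993761579583)))))))))))))))) (.ch (nat_lit 16) (.ev (nat_lit 52) (nat_lit 52776558413856)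
 (.ev (nat_lit 84) (nat_lit 68719476736) (.ev (nat_lit 160) (nat_lit 4720442311170) .dd))))) (.br (nat_lit 18)
 (.ch (nat_lit 17) (.ev (nat_lit 52) (nat_lit 42950262786) (.ev (nat_lit 148) (nat_lit 32768) (.ev (nat_lit
 404) (nat_lit 268435456) (.ev (nat_lit 436) (nat_lit 16384) (.ev (nat_lit 500) (nat_lit 274877906944) (.ev
 (nat_lit 596) (nat_lit 512) (.ev (nat_lit 692) (nat_lit 32) (.ev (nat_lit 1012) (nat_lit 4294967296) (.ev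
 (nat_lit 1360) (nat_lit 68719476736) (.nd (nat_lit 1376) (.br (nat_lit 6) (.br (nat_lit 2) (.ch (nat_lit 1)
 (.ev (nat_lit 1392) (nat_lit 57174608840704) (.ev (nat_lit 1405) (nat_lit 262144) .dd))) (.br (nat_lit 4) (.ch
 (nat_lit 2) (.ev (nat_lit 1392) (nat_lit 52776562329600) (.ev (nat_lit 1444) (nat_lit 262144) (.ev (nat_lit
 1453) (nat_lit 4398046511104) .dd)))) (.ch (nat_lit 4) (.ev (nat_lit 1392) (nat_lit 57174608840704) (.ev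
 (nat_lit 1405) (nat_lit 262144) .dd))))) (.br (nat_lit 12) (.br (nat_lit 7) (.ch (nat_lit 6) (.ev (nat_lit
 1392) (nat_lit 39582423056384) (.ev (nat_lit 1760) (nat_lit 2048) (.ev (nat_lit 1773) (nat_lit 17592186044416)
 .dd)))) (.ch (nat_lit 7) (.ev (nat_lit 1392) (nat_lit 52776562591744) (.ev (nat_lit 1405) (nat_lit
 4398046511104) .dd)))) (.br (nat_lit 18) (.ch (nat_lit 12) (.ev (nat_lit 1392) (nat_lit 17592186308608) (.ev
 (nat_lit 1492) (nat_lit 4398046511104) (.nd (nat_lit 2001) (.ch (nat_lit 36) (.nd (nat_lit 2032) (.ch (nat_lit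
 9) (.fin (nat_lit 576468998659981902))))))))) (.ch (nat_lit 18) (.ev (nat_lit 1392) (nat_lit 57174609102848)
 .dd)))))))))))))))) (.ch (nat_lit 18) (.ev (nat_lit 52) (nat_lit 4564288000) (.ev (nat_lit 84) (nat_lit
 17592186044416) (.ev (nat_lit 564) (nat_lit 4398046511104) (.ev (nat_lit 596) (nat_lit 16384) (.nd (nat_lit
 1376) (.br (nat_lit 11) (.br (nat_lit 9) (.br (nat_lit 4) (.ch (nat_lit 1) (.ev (nat_lit 1392) (nat_lit
 35536563603490) (.ev (nat_lit 1405) (nat_lit 34359738368) .dd))) (.ch (nat_lit 4) (.ev (nat_lit 1392) (nat_lit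
 35536563603488) (.ev (nat_lit 1828) (nat_lit 2) (.ev (nat_lit 1837) (nat_lit 34359738368) .dd))))) (.br
 (nat_lit 10) (.ch (nat_lit 9) (.ev (nat_lit 1392) (nat_lit 35467839932450) (.ev (nat_lit 1472) (nat_lit
 68719476736) (.ev (nat_lit 1988) (nat_lit 4194304) (.ev (nat_lit 1997) (nat_lit 34359738368) .dd))))) (.ch
 (nat_lit 10) (.ev (nat_lit 1392) (nat_lit 35502199668770) (.ev (nat_lit 1904) (nat_lit 68719476736) (.fin
 (nat_lit 576473396706493002))))))) (.br (nat_lit 15) (.br (nat_lit 12) (.ch (nat_lit 11) (.ev (nat_lit 1392)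
 (nat_lit 103083411488) (.ev (nat_lit 1408) (nat_lit 35184372088832) (.ev (nat_lit 1828) (nat_lit 274877906946)
 (.ev (nat_lit 1837) (nat_lit 8589934592) .dd))))) (.ch (nat_lit 12) (.ev (nat_lit 1392) (nat_lit
 35570923341858) .dd))) (.br (nat_lit 18) (.ch (nat_lit 15) (.ev (nat_lit 1392) (nat_lit 343597385760) (.ev
 (nat_lit 1408) (nat_lit 8589934592) (.ev (nat_lit 1444) (nat_lit 35184372088832) (.ev (nat_lit 1792) (nat_lit
 34359738368) (.ev (nat_lit 1952) (nat_lit 4194306) .dd)))))) (.ch (nat_lit 18) (.ev (nat_lit 1392) (nat_lit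
 35570923341826) (.ev (nat_lit 1405) (nat_lit 32) .dd)))))))))))))))) (.br (nat_lit 26) (.br (nat_lit 22) (.br
 (nat_lit 20) (.ch (nat_lit 19) (.ev (nat_lit 52) (nat_lit 8590491680) (.ev (nat_lit 148) (nat_lit 68719476736)
 (.ev (nat_lit 212) (nat_lit 274877906944) (.ev (nat_lit 244) (nat_lit 4194304) (.ev (nat_lit 436) (nat_lit
 34359738368) (.ev (nat_lit 564) (nat_lit 4294967296) (.ev (nat_lit 628) (nat_lit 4398046511104) (.nd (nat_lit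
 1376) (.br (nat_lit 11) (.br (nat_lit 6) (.ch (nat_lit 4) (.ev (nat_lit 1392) (nat_lit 52776826650626) (.ev
 (nat_lit 1504) (nat_lit 2048) (.ev (nat_lit 1588) (nat_lit 262144) (.ev (nat_lit 1597) (nat_lit 512) .dd)))))
 (.br (nat_lit 9) (.ch (nat_lit 6) (.ev (nat_lit 1392) (nat_lit 35184640868354) (.ev (nat_lit 1828) (nat_lit
 17592186044416) (.ev (nat_lit 1888) (nat_lit 2560) .dd)))) (.ch (nat_lit 9) (.ev (nat_lit 1392) (nat_lit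
 52776826914818) (.ev (nat_lit 1405) (nat_lit 512) .dd))))) (.br (nat_lit 15) (.br (nat_lit 12) (.ch (nat_lit
 11) (.ev (nat_lit 1392) (nat_lit 52776558217218) (.ev (nat_lit 1540) (nat_lit 512) (.ev (nat_lit 1856)
 (nat_lit 268435456) (.ev (nat_lit 1869) (nat_lit 262144) .dd))))) (.ch (nat_lit 12) (.ev (nat_lit 1392)
 (nat_lit 52776826849794) (.ev (nat_lit 1405) (nat_lit 65536) .dd)))) (.br (nat_lit 18) (.ch (nat_lit 15) (.ev
 (nat_lit 1392) (nat_lit 52776826915328) (.ev (nat_lit 1405) (nat_lit 2) .dd))) (.ch (nat_lit 18) (.ev (nat_lit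
 1392) (nat_lit 17592454810114) (.ev (nat_lit 1456) (nat_lit 16384) (.ev (nat_lit 1469) (nat_lit
 35184372088832) .dd)))))))))))))))) (.br (nat_lit 21) (.ch (nat_lit 20) (.ev (nat_lit 52) (nat_lit 8594491392)
 (.ev (nat_lit 96) (nat_lit 57557125710370) .dd))) (.ch (nat_lit 21) (.ev (nat_lit 52) (nat_lit 4440996512288)
 (.ev (nat_lit 84) (nat_lit 2048) (.ev (nat_lit 148) (nat_lit 4194304) (.ev (nat_lit 276) (nat_lit 268435456)
 (.ev (nat_lit 596) (nat_lit 68719476736) (.ev (nat_lit 1232) (nat_lit 35184372088832) (.nd (nat_lit 1376) (.br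
 (nat_lit 10) (.br (nat_lit 2) (.ch (nat_lit 1) (.ev (nat_lit 1392) (nat_lit 17871358951424) (.ev (nat_lit
 1456) (nat_lit 524288) (.ev (nat_lit 1492) (nat_lit 2) (.ev (nat_lit 1501) (nat_lit 16384) .dd))))) (.br
 (nat_lit 9) (.ch (nat_lit 2) (.ev (nat_lit 1392) (nat_lit 279173398530) (.ev (nat_lit 1444) (nat_lit 32768)
 (.nd (nat_lit 2001) (.ch (nat_lit 34) (.nd (nat_lit 2032) (.br (nat_lit 11) (.ch (nat_lit 3) (.ev (nat_lit
 2048) (nat_lit 17592186060800) .dd)) (.ch (nat_lit 11) (.fin (nat_lit 576461302061810239)))))))))) (.ch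
 (nat_lit 9) (.ev (nat_lit 1392) (nat_lit 17871359459330) (.ev (nat_lit 1405) (nat_lit 32768) .dd))))) (.br
 (nat_lit 11) (.ch (nat_lit 10) (.ev (nat_lit 1392) (nat_lit 274878480386) (.ev (nat_lit 1520) (nat_lit
 17592186044416) (.ev (nat_lit 1533) (nat_lit 4294967296) .dd)))) (.br (nat_lit 18) (.ch (nat_lit 11) (.ev
 (nat_lit 1392) (nat_lit 17596481552384) (.ev (nat_lit 1492) (nat_lit 2) (.ev (nat_lit 1856) (nat_lit
 274877939712) .dd)))) (.ch (nat_lit 18) (.ev (nat_lit 1392) (nat_lit 17867063967746) (.ev (nat_lit 1632)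
 (nat_lit 32768) (.fin (nat_lit 576479993761579602)))))))))))))))))) (.br (nat_lit 24) (.ch (nat_lit 22) (.ev
 (nat_lit 52) (nat_lit 22029159907328) (.ev (nat_lit 116) (nat_lit 32768) (.ev (nat_lit 224) (nat_lit
 35536560261666) .dd)))) (.br (nat_lit 25) (.ch (nat_lit 24) (.ev (nat_lit 52) (nat_lit 52849841274914) (.ev
 (nat_lit 288) (nat_lit 4715878926848) .dd))) (.ch (nat_lit 25) (.ev (nat_lit 52) (nat_lit 53085800007712) (.ev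
 (nat_lit 84) (nat_lit 524288) (.ev (nat_lit 276) (nat_lit 65536) (.ev (nat_lit 404) (nat_lit 262144) (.ev
 (nat_lit 468) (nat_lit 268435456) (.ev (nat_lit 916) (nat_lit 8589934592) (.nd (nat_lit 1376) (.br (nat_lit
 10) (.br (nat_lit 6) (.ch (nat_lit 1) (.ev (nat_lit 1392) (nat_lit 4402341495298) (.ev (nat_lit 1405) (nat_lit
 68719476736) .dd))) (.br (nat_lit 7) (.ch (nat_lit 6) (.ev (nat_lit 1392) (nat_lit 4471060971522) (.ev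
 (nat_lit 1405) (nat_lit 512) .dd))) (.ch (nat_lit 7) (.ev (nat_lit 1392) (nat_lit 4471060971522) (.ev (nat_lit
 1405) (nat_lit 512) .dd))))) (.br (nat_lit 11) (.ch (nat_lit 10) (.ev (nat_lit 1392) (nat_lit 68719493632)
 (.ev (nat_lit 1840) (nat_lit 4402341478400) (.ev (nat_lit 1853) (nat_lit 2) .dd)))) (.br (nat_lit 12) (.ch
 (nat_lit 11) (.ev (nat_lit 1392) (nat_lit 4471060955138) (.ev (nat_lit 1648) (nat_lit 512) (.ev (nat_lit 1661)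
 (nat_lit 16384) .dd)))) (.ch (nat_lit 12) (.ev (nat_lit 1392) (nat_lit 4294983682) (.ev (nat_lit 1492)
 (nat_lit 512) (.nd (nat_lit 2001) (.ch (nat_lit 21) (.nd (nat_lit 2032) (.ch (nat_lit 12) (.fin (nat_lit
 576455804509962833))))))))))))))))))))))) (.br (nat_lit 30) (.br (nat_lit 27) (.ch (nat_lit 26) (.ev (nat_lit
 52) (nat_lit 274878220800) (.ev (nat_lit 308) (nat_lit 17592186044416) (.ev (nat_lit 372) (nat_lit
 34359738368) (.ev (nat_lit 564) (nat_lit 2) (.ev (nat_lit 788) (nat_lit 65536) (.ev (nat_lit 820) (nat_lit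
 8589934592) (.ev (nat_lit 1280) (nat_lit 268435456) (.nd (nat_lit 1376) (.br (nat_lit 10) (.br (nat_lit 4)
 (.ch (nat_lit 1) (.ev (nat_lit 1392) (nat_lit 39651142795296) (.ev (nat_lit 1405) (nat_lit 4294967296) .dd)))
 (.br (nat_lit 6) (.ch (nat_lit 4) (.ev (nat_lit 1392) (nat_lit 39651142271008) (.ev (nat_lit 1424) (nat_lit
 4294967296) (.ev (nat_lit 1437) (nat_lit 524288) .dd)))) (.ch (nat_lit 6) (.ev (nat_lit 1392) (nat_lit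
 39655437762592) .dd)))) (.br (nat_lit 12) (.br (nat_lit 11) (.ch (nat_lit 10) (.ev (nat_lit 1392) (nat_lit
 39651138600992) (.ev (nat_lit 1444) (nat_lit 4194304) (.ev (nat_lit 1453) (nat_lit 4294967296) .dd)))) (.ch
 (nat_lit 11) (.ev (nat_lit 1392) (nat_lit 39655433043968) (.ev (nat_lit 1444) (nat_lit 32) (.nd (nat_lit 2001)
 (.ch (nat_lit 1) (.nd (nat_lit 2032) (.br (nat_lit 3) (.ch (nat_lit 2) (.fin (nat_lit 576462401572389439)))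
 (.ch (nat_lit 3) (.ev (nat_lit 2048) (nat_lit 4718592) .dd)))))))))) (.br (nat_lit 18) (.ch (nat_lit 12) (.ev
 (nat_lit 1392) (nat_lit 4295491616) (.ev (nat_lit 1444) (nat_lit 4194304) (.ev (nat_lit 1888) (nat_lit
 35184372088832) (.fin (nat_lit 576455804509962833)))))) (.ch (nat_lit 18) (.ev (nat_lit 1392) (nat_lit
 39655437238304) (.ev (nat_lit 1405) (nat_lit 524288) .dd))))))))))))))) (.br (nat_lit 29) (.ch (nat_lit 27)
 (.ev (nat_lit 52) (nat_lit 343597664288) (.ev (nat_lit 116) (nat_lit 512) (.ev (nat_lit 148) (nat_lit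
 17592186044416) (.ev (nat_lit 212) (nat_lit 2) (.ev (nat_lit 308) (nat_lit 34359738368) (.ev (nat_lit 884)
 (nat_lit 8589934592) (.ev (nat_lit 1296) (nat_lit 4294967296) (.nd (nat_lit 1376) (.br (nat_lit 9) (.br
 (nat_lit 2) (.ch (nat_lit 1) (.ev (nat_lit 1392) (nat_lit 39582691328000) (.ev (nat_lit 1405) (nat_lit 524288)
 .dd))) (.br (nat_lit 7) (.ch (nat_lit 2) (.ev (nat_lit 1392) (nat_lit 39582691262464) (.ev (nat_lit 1424)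
 (nat_lit 65536) (.ev (nat_lit 1437) (nat_lit 524288) .dd)))) (.ch (nat_lit 7) (.ev (nat_lit 1392) (nat_lit
 39582687592448) (.ev (nat_lit 1444) (nat_lit 65536) (.ev (nat_lit 1453) (nat_lit 4194304) .dd)))))) (.br
 (nat_lit 11) (.br (nat_lit 10) (.ch (nat_lit 9) (.ev (nat_lit 1392) (nat_lit 39582691786752) (.ev (nat_lit
 1405) (nat_lit 65536) .dd))) (.ch (nat_lit 10) (.ev (nat_lit 1392) (nat_lit 39582691852288) .dd))) (.br
 (nat_lit 15) (.ch (nat_lit 11) (.ev (nat_lit 1392) (nat_lit 4398315044864) (.ev (nat_lit 1444) (nat_lit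
 35184372088832) (.nd (nat_lit 2001) (.ch (nat_lit 3) (.nd (nat_lit 2032) (.br (nat_lit 6) (.ch (nat_lit 2)
 (.fin (nat_lit 576462401572389439))) (.ch (nat_lit 6) (.ev (nat_lit 2048) (nat_lit 4718592) .dd))))))))) (.ch
 (nat_lit 15) (.ev (nat_lit 1392) (nat_lit 35184372678656) (.ev (nat_lit 1444) (nat_lit 4194304) (.ev (nat_lit
 1828) (nat_lit 4398046511104) (.fin (nat_lit 576479993761579583)))))))))))))))))) (.ch (nat_lit 29) (.ev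
 (nat_lit 52) (nat_lit 17626546424320) (.ev (nat_lit 212) (nat_lit 4398046511104) (.ev (nat_lit 244) (nat_lit
 68719476736) (.ev (nat_lit 308) (nat_lit 4194304) (.ev (nat_lit 500) (nat_lit 2) (.ev (nat_lit 724) (nat_lit
 8589934592) (.ev (nat_lit 820) (nat_lit 35184372088832) (.nd (nat_lit 1376) (.br (nat_lit 7) (.br (nat_lit 6)
 (.ch (nat_lit 4) (.ev (nat_lit 1392) (nat_lit 268435456) (.ev (nat_lit 1444) (nat_lit 262144) (.ev (nat_lit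
 1492) (nat_lit 32) (.ev (nat_lit 1872) (nat_lit 4294967296) (.ev (nat_lit 1885) (nat_lit 274877906944)
 .dd)))))) (.ch (nat_lit 6) (.ev (nat_lit 1392) (nat_lit 275146604576) (.ev (nat_lit 1405) (nat_lit 4294967296)
 .dd)))) (.br (nat_lit 9) (.ch (nat_lit 7) (.ev (nat_lit 1392) (nat_lit 4563664896) (.ev (nat_lit 1444)
 (nat_lit 274877906944) (.ev (nat_lit 1453) (nat_lit 32) .dd)))) (.br (nat_lit 12) (.ch (nat_lit 9) (.ev
 (nat_lit 1392) (nat_lit 279441571872) .dd)) (.ch (nat_lit 12) (.ev (nat_lit 1392) (nat_lit 279173136416) (.ev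
 (nat_lit 1405) (nat_lit 268435456) .dd))))))))))))))))) (.br (nat_lit 35) (.br (nat_lit 33) (.ch (nat_lit 30)
 (.ev (nat_lit 52) (nat_lit 17871628173312) (.ev (nat_lit 116) (nat_lit 16384) (.ev (nat_lit 244) (nat_lit
 2048) (.ev (nat_lit 308) (nat_lit 512) (.ev (nat_lit 372) (nat_lit 68723671040) (.ev (nat_lit 596) (nat_lit
 34359738368) (.ev (nat_lit 628) (nat_lit 32) (.ev (nat_lit 1024) (nat_lit 65538) (.nd (nat_lit 1376) (.br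
 (nat_lit 6) (.br (nat_lit 2) (.ch (nat_lit 1) (.ev (nat_lit 1392) (nat_lit 39591008534528) .dd)) (.ch (nat_lit
 2) (.ev (nat_lit 1392) (nat_lit 39591008534528) .dd))) (.br (nat_lit 7) (.ch (nat_lit 6) (.ev (nat_lit 1392)
 (nat_lit 39582418599936) (.ev (nat_lit 1405) (nat_lit 8589934592) .dd))) (.br (nat_lit 15) (.ch (nat_lit 7)
 (.ev (nat_lit 1392) (nat_lit 8589934592) (.ev (nat_lit 1408) (nat_lit 35184372088832) (.ev (nat_lit 1421)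
 (nat_lit 4398046511104) .dd)))) (.ch (nat_lit 15) (.ev (nat_lit 1392) (nat_lit 39582418599936) (.ev (nat_lit
 1405) (nat_lit 8589934592) .dd)))))))))))))))) (.ch (nat_lit 33) (.ev (nat_lit 52) (nat_lit 4432406808578)
 (.ev (nat_lit 180) (nat_lit 512) (.ev (nat_lit 340) (nat_lit 32) (.ev (nat_lit 564) (nat_lit 274877906944)
 (.ev (nat_lit 724) (nat_lit 65536) (.ev (nat_lit 820) (nat_lit 268435456) (.ev (nat_lit 1072) (nat_lit 262144)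
 (.nd (nat_lit 1376) (.br (nat_lit 10) (.br (nat_lit 4) (.ch (nat_lit 2) (.ev (nat_lit 1392) (nat_lit
 35257390727168) (.ev (nat_lit 1444) (nat_lit 8589934592) (.nd (nat_lit 2001) (.ch (nat_lit 24) (.nd (nat_lit
 2032) (.br (nat_lit 11) (.ch (nat_lit 6) (.ev (nat_lit 2048) (nat_lit 17592186060800) .dd)) (.ch (nat_lit 11)
 (.fin (nat_lit 576461302061810239)))))))))) (.br (nat_lit 7) (.ch (nat_lit 4) (.ev (nat_lit 1392) (nat_lit
 52849576787968) (.ev (nat_lit 1405) (nat_lit 8589934592) .dd))) (.ch (nat_lit 7) (.ev (nat_lit 1392) (nat_lit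
 35265976483840) (.ev (nat_lit 1520) (nat_lit 17592186044416) (.ev (nat_lit 1533) (nat_lit 4194304) .dd))))))
 (.br (nat_lit 12) (.ch (nat_lit 10) (.ev (nat_lit 1392) (nat_lit 52776562343936) (.ev (nat_lit 1492) (nat_lit
 4294967296) (.ev (nat_lit 1632) (nat_lit 8589934592) (.ev (nat_lit 1645) (nat_lit 68719476736) .dd))))) (.br
 (nat_lit 18) (.ch (nat_lit 12) (.ev (nat_lit 1392) (nat_lit 17665200504832) (.ev (nat_lit 1856) (nat_lit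
 8589934592) (.fin (nat_lit 576468998659981902))))) (.ch (nat_lit 18) (.ev (nat_lit 1392) (nat_lit
 17669499650048) (.ev (nat_lit 1456) (nat_lit 35184372088832) (.ev (nat_lit 1492) (nat_lit 4294967296) (.ev
 (nat_lit 1501) (nat_lit 16384) .dd)))))))))))))))))) (.br (nat_lit 36) (.ch (nat_lit 35) (.ev (nat_lit 52)
 (nat_lit 283468136480) (.ev (nat_lit 64) (nat_lit 57282252065282) .dd))) (.ch (nat_lit 36) (.ev (nat_lit 52)
 (nat_lit 35468108924928) (.ev (nat_lit 180) (nat_lit 4194304) (.ev (nat_lit 404) (nat_lit 65536) (.ev (nat_lit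
 436) (nat_lit 68719476736) (.nd (nat_lit 1376) (.br (nat_lit 7) (.br (nat_lit 4) (.br (nat_lit 2) (.ch
 (nat_lit 1) (.ev (nat_lit 1392) (nat_lit 22028887277602) (.ev (nat_lit 1444) (nat_lit 262144) (.ev (nat_lit
 1453) (nat_lit 512) .dd)))) (.ch (nat_lit 2) (.ev (nat_lit 1392) (nat_lit 38654984226) (.ev (nat_lit 1606)
 (nat_lit 21990232556032) .dd)))) (.br (nat_lit 6) (.ch (nat_lit 4) (.ev (nat_lit 1392) (nat_lit
 21994527801856) (.ev (nat_lit 1408) (nat_lit 34359738368) (.ev (nat_lit 1492) (nat_lit 2) (.ev (nat_lit 1501)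
 (nat_lit 32) .dd))))) (.ch (nat_lit 6) (.ev (nat_lit 1392) (nat_lit 22024592572450) (.ev (nat_lit 1444)
 (nat_lit 512) (.ev (nat_lit 1453) (nat_lit 4294967296) .dd)))))) (.br (nat_lit 11) (.br (nat_lit 10) (.ch
 (nat_lit 7) (.ev (nat_lit 1392) (nat_lit 22028887539746) (.ev (nat_lit 1405) (nat_lit 512) .dd))) (.ch
 (nat_lit 10) (.ev (nat_lit 1392) (nat_lit 38654984738) (.ev (nat_lit 1540) (nat_lit 4398046511104) (.ev
 (nat_lit 1549) (nat_lit 17592186044416) .dd))))) (.br (nat_lit 15) (.ch (nat_lit 11) (.ev (nat_lit 1392)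
 (nat_lit 21994527785472) (.ev (nat_lit 1444) (nat_lit 32) (.ev (nat_lit 1712) (nat_lit 2) (.ev (nat_lit 1744)
 (nat_lit 34359738368) (.ev (nat_lit 1757) (nat_lit 16384) .dd)))))) (.ch (nat_lit 15) (.ev (nat_lit 1392)
 (nat_lit 17630841029152) (.ev (nat_lit 1828) (nat_lit 2) (.ev (nat_lit 1837) (nat_lit 4398046511104)
 .dd))))))))))))))))))))

/-- Subtrie. -/
noncomputable def T2 : Tr := (.ev (nat_lit 20) (nat_lit 4443480054306) (.nd (nat_lit 33) (.br (nat_lit 19) (.br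
 (nat_lit 11) (.br (nat_lit 7) (.br (nat_lit 4) (.ch (nat_lit 1) (.ev (nat_lit 52) (nat_lit 17940615266304)
 (.ev (nat_lit 308) (nat_lit 35184372088832) (.ev (nat_lit 404) (nat_lit 65536) (.ev (nat_lit 596) (nat_lit 4)
 (.ev (nat_lit 628) (nat_lit 4194304) (.ev (nat_lit 788) (nat_lit 70368744177664) (.ev (nat_lit 852) (nat_lit
 1048584) (.nd (nat_lit 1376) (.br (nat_lit 10) (.br (nat_lit 6) (.ch (nat_lit 2) (.ev (nat_lit 1392) (nat_lit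
 169869312) .dd)) (.br (nat_lit 7) (.ch (nat_lit 6) (.ev (nat_lit 1392) (nat_lit 2097152) (.ev (nat_lit 1444)
 (nat_lit 33554432) (.ev (nat_lit 1453) (nat_lit 134217728) .dd)))) (.ch (nat_lit 7) (.ev (nat_lit 1392)
 (nat_lit 169869312) .dd)))) (.br (nat_lit 13) (.br (nat_lit 12) (.ch (nat_lit 10) (.ev (nat_lit 1392) (nat_lit
 136314880) (.ev (nat_lit 1405) (nat_lit 33554432) .dd))) (.ch (nat_lit 12) (.ev (nat_lit 1392) (nat_lit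
 136314880) (.ev (nat_lit 1405) (nat_lit 33554432) .dd)))) (.br (nat_lit 16) (.ch (nat_lit 13) (.ev (nat_lit
 1392) (nat_lit 33554432) (.ev (nat_lit 1456) (nat_lit 2097152) (.ev (nat_lit 1469) (nat_lit 134217728) .dd))))
 (.ch (nat_lit 16) (.ev (nat_lit 1392) (nat_lit 136314880) (.ev (nat_lit 1405) (nat_lit 33554432)
 .dd))))))))))))))) (.br (nat_lit 5) (.ch (nat_lit 4) (.ev (nat_lit 52) (nat_lit 17597019979776) (.ev (nat_lit
 84) (nat_lit 35184372088832) (.ev (nat_lit 180) (nat_lit 274877906944) (.ev (nat_lit 276) (nat_lit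
 68719476736) (.ev (nat_lit 788) (nat_lit 65536) (.ev (nat_lit 1152) (nat_lit 70368744177664) (.nd (nat_lit
 1376) (.br (nat_lit 11) (.br (nat_lit 5) (.ch (nat_lit 0) (.ev (nat_lit 1392) (nat_lit 173015048) (.ev
 (nat_lit 1405) (nat_lit 4) .dd))) (.ch (nat_lit 5) (.ev (nat_lit 1392) (nat_lit 139460620) (.ev (nat_lit 1405)
 (nat_lit 33554432) .dd)))) (.br (nat_lit 12) (.ch (nat_lit 11) (.ev (nat_lit 1392) (nat_lit 171966476) (.ev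
 (nat_lit 1405) (nat_lit 1048576) .dd))) (.br (nat_lit 13) (.ch (nat_lit 12) (.ev (nat_lit 1456) (nat_lit
 5242880) (.ev (nat_lit 1492) (nat_lit 134217736) (.ev (nat_lit 1504) (nat_lit 33554436) .dd)))) (.ch (nat_lit
 13) (.ev (nat_lit 1392) (nat_lit 168820748) (.ev (nat_lit 1405) (nat_lit 4194304) .dd)))))))))))))) (.ch
 (nat_lit 5) (.ev (nat_lit 52) (nat_lit 35253629550604) (.ev (nat_lit 180) (nat_lit 134217728) (.ev (nat_lit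
 276) (nat_lit 70368744177664) (.ev (nat_lit 308) (nat_lit 274877906944) (.ev (nat_lit 436) (nat_lit 2097152)
 (.ev (nat_lit 564) (nat_lit 4294967296) (.ev (nat_lit 628) (nat_lit 17592186044416) (.nd (nat_lit 1376) (.br
 (nat_lit 12) (.br (nat_lit 6) (.ch (nat_lit 0) (.ev (nat_lit 1392) (nat_lit 37748736) .dd)) (.br (nat_lit 11)
 (.ch (nat_lit 6) (.ev (nat_lit 1392) (nat_lit 37748736) .dd)) (.ch (nat_lit 11) (.ev (nat_lit 1392) (nat_lit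
 37748736) .dd)))) (.br (nat_lit 15) (.ch (nat_lit 12) (.nd (nat_lit 2001) (.ch (nat_lit 28) (.nd (nat_lit
 2032) (.ch (nat_lit 13) (.fin (nat_lit 576452505964593724))))))) (.br (nat_lit 16) (.ch (nat_lit 15) (.ev
 (nat_lit 1392) (nat_lit 37748736) .dd)) (.ch (nat_lit 16) (.ev (nat_lit 1392) (nat_lit 37748736)
 .dd)))))))))))))))) (.br (nat_lit 8) (.ch (nat_lit 7) (.ev (nat_lit 52) (nat_lit 35257523961860) (.ev (nat_lit
 436) (nat_lit 274877906944) (.ev (nat_lit 884) (nat_lit 70368744177664) (.ev (nat_lit 960) (nat_lit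
 17592760664072) .dd))))) (.br (nat_lit 10) (.ch (nat_lit 8) (.ev (nat_lit 52) (nat_lit 347897593864) (.ev
 (nat_lit 84) (nat_lit 2097152) (.ev (nat_lit 180) (nat_lit 35184372088832) (.ev (nat_lit 340) (nat_lit
 536870912) (.ev (nat_lit 820) (nat_lit 70368744177664) (.nd (nat_lit 1376) (.br (nat_lit 12) (.br (nat_lit 10)
 (.ch (nat_lit 7) (.ev (nat_lit 1392) (nat_lit 17592353816580) (.ev (nat_lit 1405) (nat_lit 65536) .dd))) (.ch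
 (nat_lit 10) (.ev (nat_lit 1392) (nat_lit 17592353882116) .dd))) (.br (nat_lit 13) (.ch (nat_lit 12) (.ev
 (nat_lit 1392) (nat_lit 17592219664384) (.ev (nat_lit 1444) (nat_lit 134217728) (.ev (nat_lit 1453) (nat_lit
 4) .dd)))) (.br (nat_lit 15) (.ch (nat_lit 13) (.ev (nat_lit 1392) (nat_lit 17592320327684) (.ev (nat_lit
 1405) (nat_lit 33554432) .dd))) (.ch (nat_lit 15) (.ev (nat_lit 1392) (nat_lit 65536) (.ev (nat_lit 1444)
 (nat_lit 17592186044416) (.ev (nat_lit 1492) (nat_lit 4) (.ev (nat_lit 1728) (nat_lit 33554432) (.ev (nat_lit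
 1741) (nat_lit 134217728) .dd)))))))))))))))) (.ch (nat_lit 10) (.ev (nat_lit 52) (nat_lit 73055404044) (.ev
 (nat_lit 212) (nat_lit 536870912) (.ev (nat_lit 992) (nat_lit 123420314435584) .dd))))))) (.br (nat_lit 15)
 (.br (nat_lit 12) (.ch (nat_lit 11) (.ev (nat_lit 52) (nat_lit 52845815595008) (.ev (nat_lit 212) (nat_lit
 4294967296) (.ev (nat_lit 340) (nat_lit 33554432) (.ev (nat_lit 404) (nat_lit 70368744177664) (.ev (nat_lit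
 564) (nat_lit 4194304) (.ev (nat_lit 596) (nat_lit 274877906944) (.ev (nat_lit 1168) (nat_lit 2097152) (.nd
 (nat_lit 1376) (.br (nat_lit 6) (.br (nat_lit 2) (.ch (nat_lit 0) (.ev (nat_lit 1392) (nat_lit 134217736) (.ev
 (nat_lit 1405) (nat_lit 4) .dd))) (.br (nat_lit 5) (.ch (nat_lit 2) (.ev (nat_lit 1392) (nat_lit 134217740)
 .dd)) (.ch (nat_lit 5) (.ev (nat_lit 1392) (nat_lit 134217732) (.ev (nat_lit 1405) (nat_lit 8) .dd))))) (.br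
 (nat_lit 15) (.br (nat_lit 10) (.ch (nat_lit 6) (.ev (nat_lit 1392) (nat_lit 12) (.ev (nat_lit 1405) (nat_lit
 134217728) .dd))) (.ch (nat_lit 10) (.ev (nat_lit 1392) (nat_lit 12) (.ev (nat_lit 1405) (nat_lit 134217728)
 .dd)))) (.br (nat_lit 16) (.ch (nat_lit 15) (.ev (nat_lit 1392) (nat_lit 12) (.ev (nat_lit 1405) (nat_lit
 134217728) .dd))) (.ch (nat_lit 16) (.ev (nat_lit 1392) (nat_lit 134217740) .dd)))))))))))))) (.br (nat_lit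
 13) (.ch (nat_lit 12) (.ev (nat_lit 52) (nat_lit 35257961218048) (.ev (nat_lit 116) (nat_lit 134217728) (.ev
 (nat_lit 736) (nat_lit 88235811274764) .dd)))) (.ch (nat_lit 13) (.ev (nat_lit 52) (nat_lit 87961068634112)
 (.ev (nat_lit 116) (nat_lit 274877906944) (.ev (nat_lit 212) (nat_lit 33554432) (.ev (nat_lit 244) (nat_lit
 2097152) (.ev (nat_lit 372) (nat_lit 4) (.ev (nat_lit 500) (nat_lit 4294967296) (.ev (nat_lit 692) (nat_lit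
 1048576) (.ev (nat_lit 980) (nat_lit 536870920) (.nd (nat_lit 1376) (.br (nat_lit 10) (.br (nat_lit 5) (.ch
 (nat_lit 0) (.ev (nat_lit 1392) (nat_lit 68719542272) (.ev (nat_lit 1405) (nat_lit 35184372088832) .dd))) (.br
 (nat_lit 6) (.ch (nat_lit 5) (.ev (nat_lit 1392) (nat_lit 35184372154368) (.ev (nat_lit 1405) (nat_lit
 68719476736) .dd))) (.ch (nat_lit 6) (.ev (nat_lit 1392) (nat_lit 35184372154368) (.ev (nat_lit 1405) (nat_lit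
 68719476736) .dd))))) (.br (nat_lit 11) (.ch (nat_lit 10) (.ev (nat_lit 1392) (nat_lit 35184372154368) (.ev
 (nat_lit 1405) (nat_lit 68719476736) .dd))) (.br (nat_lit 16) (.ch (nat_lit 11) (.ev (nat_lit 1392) (nat_lit
 35184372154368) (.ev (nat_lit 1405) (nat_lit 68719476736) .dd))) (.ch (nat_lit 16) (.ev (nat_lit 1392)
 (nat_lit 35253091565568) (.ev (nat_lit 1405) (nat_lit 65536) .dd)))))))))))))))))) (.br (nat_lit 17) (.br
 (nat_lit 16) (.ch (nat_lit 15) (.ev (nat_lit 52) (nat_lit 275422117888) (.ev (nat_lit 84) (nat_lit 134217728)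
 (.ev (nat_lit 500) (nat_lit 33554432) (.ev (nat_lit 596) (nat_lit 35184372088832) (.ev (nat_lit 660) (nat_lit
 70368744177664) (.ev (nat_lit 832) (nat_lit 17665200553996) .dd))))))) (.ch (nat_lit 16) (.ev (nat_lit 52)
 (nat_lit 123145973399556) (.ev (nat_lit 180) (nat_lit 2097152) (.ev (nat_lit 532) (nat_lit 274877906944) (.ev
 (nat_lit 564) (nat_lit 8) (.ev (nat_lit 884) (nat_lit 65536) (.ev (nat_lit 916) (nat_lit 68719476736) (.nd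
 (nat_lit 1376) (.br (nat_lit 12) (.br (nat_lit 10) (.ch (nat_lit 0) (.ev (nat_lit 1392) (nat_lit 4333764608)
 .dd)) (.br (nat_lit 11) (.ch (nat_lit 10) (.ev (nat_lit 1392) (nat_lit 4333764608) .dd)) (.ch (nat_lit 11)
 (.ev (nat_lit 1392) (nat_lit 4333764608) .dd)))) (.br (nat_lit 15) (.ch (nat_lit 12) (.ev (nat_lit 1392)
 (nat_lit 4296015872) (.fin (nat_lit 576470098156929604)))) (.br (nat_lit 16) (.ch (nat_lit 15) (.ev (nat_lit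
 1392) (nat_lit 4333764608) .dd)) (.ch (nat_lit 16) (.ev (nat_lit 1392) (nat_lit 37748736) (.nd (nat_lit 2001)
 (.ch (nat_lit 11) (.nd (nat_lit 2032) (.br (nat_lit 5) (.ch (nat_lit 3) (.ev (nat_lit 2048) (nat_lit
 4296015872) .dd)) (.ch (nat_lit 5) (.fin (nat_lit 576462401571340863))))))))))))))))))))) (.br (nat_lit 18)
 (.ch (nat_lit 17) (.ev (nat_lit 52) (nat_lit 34668552) (.ev (nat_lit 148) (nat_lit 2097152) (.ev (nat_lit 692)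
 (nat_lit 4294967296) (.ev (nat_lit 1328) (nat_lit 536870912) (.nd (nat_lit 1376) (.br (nat_lit 6) (.br
 (nat_lit 5) (.ch (nat_lit 2) (.ev (nat_lit 1392) (nat_lit 35528107884548) (.ev (nat_lit 1872) (nat_lit
 17592186044416) (.ev (nat_lit 1885) (nat_lit 70368744177664) .dd)))) (.ch (nat_lit 5) (.ev (nat_lit 1392)
 (nat_lit 105896852062212) (.ev (nat_lit 1405) (nat_lit 17592186044416) .dd)))) (.br (nat_lit 7) (.ch (nat_lit
 6) (.ev (nat_lit 1392) (nat_lit 17592186044420) (.ev (nat_lit 1444) (nat_lit 70368744177664) (.ev (nat_lit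
 1840) (nat_lit 343597383680) (.ev (nat_lit 1968) (nat_lit 134217728) (.fin (nat_lit 576468998659981902)))))))
 (.br (nat_lit 11) (.ch (nat_lit 7) (.ev (nat_lit 1392) (nat_lit 123489038106624) (.ev (nat_lit 1405) (nat_lit
 4) .dd))) (.ch (nat_lit 11) (.ev (nat_lit 1392) (nat_lit 123214160199684) (.ev (nat_lit 1405) (nat_lit
 274877906944) .dd)))))))))))) (.ch (nat_lit 18) (.ev (nat_lit 52) (nat_lit 4831903752) (.ev (nat_lit 244)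
 (nat_lit 4) (.ev (nat_lit 340) (nat_lit 4194304) (.ev (nat_lit 544) (nat_lit 123489070612480) .dd)))))))))
 (.br (nat_lit 26) (.br (nat_lit 22) (.br (nat_lit 20) (.ch (nat_lit 19) (.ev (nat_lit 52) (nat_lit 167772168)
 (.ev (nat_lit 192) (nat_lit 123493738938372) .dd))) (.br (nat_lit 21) (.ch (nat_lit 20) (.ev (nat_lit 52)
 (nat_lit 574685188) (.ev (nat_lit 596) (nat_lit 2097152) (.ev (nat_lit 884) (nat_lit 68719476736) (.ev
 (nat_lit 1248) (nat_lit 134217728) (.nd (nat_lit 1376) (.br (nat_lit 6) (.br (nat_lit 5) (.ch (nat_lit 2) (.ev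
 (nat_lit 1392) (nat_lit 279173922824) (.ev (nat_lit 1696) (nat_lit 17592186044416) (.ev (nat_lit 1792)
 (nat_lit 70368744177664) (.ev (nat_lit 1805) (nat_lit 35184372088832) .dd))))) (.ch (nat_lit 5) (.ev (nat_lit
 1392) (nat_lit 105832290189320) (.ev (nat_lit 1405) (nat_lit 17592186044416) .dd)))) (.br (nat_lit 12) (.ch
 (nat_lit 6) (.ev (nat_lit 1392) (nat_lit 52780854149128) (.ev (nat_lit 1408) (nat_lit 274877906944) (.ev
 (nat_lit 1421) (nat_lit 70368744177664) .dd)))) (.br (nat_lit 16) (.ch (nat_lit 12) (.ev (nat_lit 1392)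
 (nat_lit 123424476233728) (.ev (nat_lit 1405) (nat_lit 8) .dd))) (.ch (nat_lit 16) (.ev (nat_lit 1392)
 (nat_lit 123145302310912) (.ev (nat_lit 1712) (nat_lit 274877906944) (.ev (nat_lit 1808) (nat_lit 8) (.fin
 (nat_lit 576462401571340863))))))))))))))) (.ch (nat_lit 21) (.ev (nat_lit 52) (nat_lit 70368912015360) (.ev
 (nat_lit 116) (nat_lit 4) (.ev (nat_lit 244) (nat_lit 274877906944) (.ev (nat_lit 340) (nat_lit 8) (.ev
 (nat_lit 692) (nat_lit 536870912) (.nd (nat_lit 1376) (.br (nat_lit 11) (.br (nat_lit 7) (.br (nat_lit 6) (.ch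
 (nat_lit 2) (.ev (nat_lit 1392) (nat_lit 17596487303168) (.ev (nat_lit 1540) (nat_lit 1048576) (.ev (nat_lit
 1988) (nat_lit 68719476736) (.ev (nat_lit 1997) (nat_lit 35184372088832) .dd))))) (.ch (nat_lit 6) (.ev
 (nat_lit 1392) (nat_lit 52845278658560) (.ev (nat_lit 1408) (nat_lit 4294967296) (.ev (nat_lit 1444) (nat_lit
 4194304) (.ev (nat_lit 1453) (nat_lit 2097152) .dd)))))) (.br (nat_lit 10) (.ch (nat_lit 7) (.ev (nat_lit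
 1392) (nat_lit 52780858343424) (.ev (nat_lit 1828) (nat_lit 2097152) (.ev (nat_lit 1837) (nat_lit 68719476736)
 .dd)))) (.ch (nat_lit 10) (.ev (nat_lit 1392) (nat_lit 52849579917312) .dd)))) (.br (nat_lit 15) (.br (nat_lit
 13) (.ch (nat_lit 11) (.ev (nat_lit 1392) (nat_lit 52780859392000) (.ev (nat_lit 1828) (nat_lit 68719476736)
 (.ev (nat_lit 1837) (nat_lit 1048576) .dd)))) (.ch (nat_lit 13) (.ev (nat_lit 1392) (nat_lit 17660906569728)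
 (.ev (nat_lit 1444) (nat_lit 4294967296) (.ev (nat_lit 1712) (nat_lit 2097152) (.ev (nat_lit 1744) (nat_lit
 4194304) (.ev (nat_lit 1757) (nat_lit 35184372088832) .dd))))))) (.br (nat_lit 16) (.ch (nat_lit 15) (.ev
 (nat_lit 1392) (nat_lit 73021784064) (.ev (nat_lit 1504) (nat_lit 17592186044416) (.ev (nat_lit 1517) (nat_lit
 35184372088832) .dd)))) (.ch (nat_lit 16) (.ev (nat_lit 1392) (nat_lit 52849579917312) .dd)))))))))))))) (.br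
 (nat_lit 24) (.ch (nat_lit 22) (.ev (nat_lit 52) (nat_lit 17596486254592) (.ev (nat_lit 116) (nat_lit 2097152)
 (.ev (nat_lit 148) (nat_lit 4) (.ev (nat_lit 788) (nat_lit 68719476736) (.ev (nat_lit 1012) (nat_lit 8) (.ev
 (nat_lit 1344) (nat_lit 536870912) (.nd (nat_lit 1376) (.br (nat_lit 6) (.br (nat_lit 2) (.ch (nat_lit 0) (.ev
 (nat_lit 1392) (nat_lit 70643789922304) (.ev (nat_lit 1405) (nat_lit 35184372088832) .dd))) (.br (nat_lit 5)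
 (.ch (nat_lit 2) (.ev (nat_lit 1392) (nat_lit 105828162011136) .dd)) (.ch (nat_lit 5) (.ev (nat_lit 1392)
 (nat_lit 105553284038656) (.ev (nat_lit 1888) (nat_lit 65536) (.ev (nat_lit 1901) (nat_lit 274877906944)
 .dd)))))) (.br (nat_lit 13) (.br (nat_lit 11) (.ch (nat_lit 6) (.ev (nat_lit 1392) (nat_lit 275045744640) (.ev
 (nat_lit 1444) (nat_lit 70368744177664) (.ev (nat_lit 1453) (nat_lit 35184372088832) .dd)))) (.ch (nat_lit 11)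
 (.ev (nat_lit 1392) (nat_lit 35459417833472) (.ev (nat_lit 1405) (nat_lit 70368744177664) .dd)))) (.br
 (nat_lit 15) (.ch (nat_lit 13) (.ev (nat_lit 1392) (nat_lit 70643622150144) (.ev (nat_lit 1492) (nat_lit
 35184372088832) (.nd (nat_lit 2001) (.br (nat_lit 33) (.ch (nat_lit 25) (.ev (nat_lit 2017) (nat_lit
 167772160) .dd)) (.br (nat_lit 34) (.ch (nat_lit 33) (.ev (nat_lit 2017) (nat_lit 167772160) .dd)) (.ch
 (nat_lit 34) (.nd (nat_lit 2032) (.ch (nat_lit 18) (.fin (nat_lit 576475595708777015))))))))))) (.ch (nat_lit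
 15) (.ev (nat_lit 1392) (nat_lit 35459417833472) (.ev (nat_lit 1405) (nat_lit 70368744177664)
 .dd)))))))))))))) (.br (nat_lit 25) (.ch (nat_lit 24) (.ev (nat_lit 52) (nat_lit 123218317803520) (.ev
 (nat_lit 436) (nat_lit 4) (.ev (nat_lit 916) (nat_lit 65536) (.nd (nat_lit 1376) (.br (nat_lit 11) (.br
 (nat_lit 6) (.br (nat_lit 5) (.ch (nat_lit 0) (.ev (nat_lit 1392) (nat_lit 275588841480) .dd)) (.ch (nat_lit
 5) (.ev (nat_lit 1392) (nat_lit 275051970560) (.ev (nat_lit 1504) (nat_lit 8) (.ev (nat_lit 1517) (nat_lit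
 536870912) .dd))))) (.br (nat_lit 7) (.ch (nat_lit 6) (.ev (nat_lit 1392) (nat_lit 708837384) (.ev (nat_lit
 1712) (nat_lit 2097152) (.ev (nat_lit 1725) (nat_lit 274877906944) .dd)))) (.ch (nat_lit 7) (.ev (nat_lit
 1392) (nat_lit 275582550024) (.ev (nat_lit 1792) (nat_lit 4194304) (.ev (nat_lit 1805) (nat_lit 2097152)
 .dd)))))) (.br (nat_lit 13) (.br (nat_lit 12) (.ch (nat_lit 11) (.ev (nat_lit 1392) (nat_lit 275588841480)
 .dd)) (.ch (nat_lit 12) (.ev (nat_lit 1392) (nat_lit 275416875016) (.ev (nat_lit 1408) (nat_lit 33554432) (.ev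
 (nat_lit 1444) (nat_lit 134217728) (.ev (nat_lit 1453) (nat_lit 4194304) .dd)))))) (.br (nat_lit 15) (.ch
 (nat_lit 13) (.ev (nat_lit 1392) (nat_lit 171966472) (.ev (nat_lit 1540) (nat_lit 274877906944) (.ev (nat_lit
 1828) (nat_lit 536870912) (.ev (nat_lit 1837) (nat_lit 2097152) .dd))))) (.ch (nat_lit 15) (.ev (nat_lit 1392)
 (nat_lit 274880004104) (.ev (nat_lit 1444) (nat_lit 33554432) (.ev (nat_lit 1828) (nat_lit 4194304) (.ev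
 (nat_lit 1888) (nat_lit 134217728) (.ev (nat_lit 1901) (nat_lit 536870912) .dd)))))))))))))) (.ch (nat_lit 25)
 (.ev (nat_lit 52) (nat_lit 53051610103808) (.ev (nat_lit 212) (nat_lit 8) (.ev (nat_lit 672) (nat_lit
 70442296606724) .dd))))))) (.br (nat_lit 30) (.br (nat_lit 27) (.ch (nat_lit 26) (.ev (nat_lit 52) (nat_lit
 70643624181768) (.ev (nat_lit 116) (nat_lit 35184372088832) (.ev (nat_lit 320) (nat_lit 17665910439940)
 .dd)))) (.br (nat_lit 29) (.ch (nat_lit 27) (.ev (nat_lit 52) (nat_lit 343731601420) (.ev (nat_lit 340)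
 (nat_lit 1048576) (.ev (nat_lit 372) (nat_lit 35184372088832) (.ev (nat_lit 500) (nat_lit 17592722915328) (.ev
 (nat_lit 628) (nat_lit 33554432) (.ev (nat_lit 660) (nat_lit 65536) (.ev (nat_lit 756) (nat_lit 4294967296)
 (.nd (nat_lit 1376) (.br (nat_lit 10) (.br (nat_lit 5) (.ch (nat_lit 2) (.ev (nat_lit 1392) (nat_lit
 70368750469120) .dd)) (.br (nat_lit 7) (.ch (nat_lit 5) (.ev (nat_lit 1392) (nat_lit 70368746274816) (.ev
 (nat_lit 1405) (nat_lit 4194304) .dd))) (.ch (nat_lit 7) (.ev (nat_lit 1392) (nat_lit 70368744177664) (.ev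
 (nat_lit 1444) (nat_lit 4194304) (.ev (nat_lit 1453) (nat_lit 2097152) .dd)))))) (.br (nat_lit 12) (.br
 (nat_lit 11) (.ch (nat_lit 10) (.ev (nat_lit 1392) (nat_lit 70368746274816) (.ev (nat_lit 1405) (nat_lit
 4194304) .dd))) (.ch (nat_lit 11) (.ev (nat_lit 1392) (nat_lit 4194304) (.ev (nat_lit 1456) (nat_lit
 70368744177664) (.ev (nat_lit 1469) (nat_lit 2097152) .dd))))) (.br (nat_lit 13) (.ch (nat_lit 12) (.ev
 (nat_lit 1392) (nat_lit 70368746274816) (.ev (nat_lit 1405) (nat_lit 4194304) .dd))) (.ch (nat_lit 13) (.ev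
 (nat_lit 1392) (nat_lit 70368750469120) .dd)))))))))))))) (.ch (nat_lit 29) (.ev (nat_lit 52) (nat_lit
 17592353882112) (.ev (nat_lit 148) (nat_lit 35184372088832) (.ev (nat_lit 404) (nat_lit 68719476736) (.ev
 (nat_lit 480) (nat_lit 70648461262860) .dd))))))) (.br (nat_lit 35) (.br (nat_lit 33) (.ch (nat_lit 30) (.ev
 (nat_lit 52) (nat_lit 17871897886720) (.ev (nat_lit 212) (nat_lit 1048576) (.ev (nat_lit 608) (nat_lit
 105622007775244) .dd)))) (.ch (nat_lit 33) (.ev (nat_lit 52) (nat_lit 70369415266316) (.ev (nat_lit 340)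
 (nat_lit 4294967296) (.ev (nat_lit 500) (nat_lit 1048576) (.ev (nat_lit 852) (nat_lit 17592186044416) (.ev
 (nat_lit 980) (nat_lit 33554432) (.nd (nat_lit 1376) (.br (nat_lit 7) (.br (nat_lit 5) (.ch (nat_lit 2) (.ev
 (nat_lit 1392) (nat_lit 35459256287232) (.ev (nat_lit 1504) (nat_lit 65536) (.ev (nat_lit 1517) (nat_lit
 68719476736) .dd)))) (.br (nat_lit 6) (.ch (nat_lit 5) (.ev (nat_lit 1392) (nat_lit 35184378380288) (.ev
 (nat_lit 1616) (nat_lit 68719476736) (.ev (nat_lit 1760) (nat_lit 274877972480) .dd)))) (.ch (nat_lit 6) (.ev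
 (nat_lit 1392) (nat_lit 343599546368) (.fin (nat_lit 576468998659981902)))))) (.br (nat_lit 12) (.br (nat_lit
 10) (.ch (nat_lit 7) (.ev (nat_lit 1392) (nat_lit 35459256352768) (.ev (nat_lit 1405) (nat_lit 68719476736)
 .dd))) (.ch (nat_lit 10) (.ev (nat_lit 1392) (nat_lit 35459252158464) (.ev (nat_lit 1588) (nat_lit 4194304)
 (.ev (nat_lit 1597) (nat_lit 68719476736) .dd))))) (.br (nat_lit 15) (.ch (nat_lit 12) (.ev (nat_lit 1392)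
 (nat_lit 35527971635200) (.ev (nat_lit 1405) (nat_lit 4194304) .dd))) (.ch (nat_lit 15) (.ev (nat_lit 1392)
 (nat_lit 343597449216) (.ev (nat_lit 1840) (nat_lit 35184372088832) (.ev (nat_lit 1920) (nat_lit 6291456)
 .dd))))))))))))))) (.br (nat_lit 36) (.ch (nat_lit 35) (.ev (nat_lit 52) (nat_lit 70644161052680) (.ev
 (nat_lit 276) (nat_lit 65536) (.ev (nat_lit 468) (nat_lit 68719476736) (.ev (nat_lit 532) (nat_lit 4) (.ev
 (nat_lit 980) (nat_lit 17592190238720) (.nd (nat_lit 1376) (.br (nat_lit 6) (.br (nat_lit 2) (.ch (nat_lit 0)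
 (.ev (nat_lit 1392) (nat_lit 168820736) (.ev (nat_lit 1504) (nat_lit 35184372088832) (.ev (nat_lit 1517)
 (nat_lit 4294967296) .dd)))) (.br (nat_lit 5) (.ch (nat_lit 2) (.ev (nat_lit 1392) (nat_lit 35188801273856)
 (.ev (nat_lit 1888) (nat_lit 34603008) .dd))) (.ch (nat_lit 5) (.ev (nat_lit 1392) (nat_lit 35188835876864)
 .dd)))) (.br (nat_lit 12) (.br (nat_lit 7) (.ch (nat_lit 6) (.ev (nat_lit 1392) (nat_lit 35188667056128) (.ev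
 (nat_lit 1540) (nat_lit 134217728) (.ev (nat_lit 1556) (nat_lit 1048576) (.ev (nat_lit 1565) (nat_lit
 33554432) .dd))))) (.ch (nat_lit 7) (.ev (nat_lit 1392) (nat_lit 35188835876864) .dd))) (.br (nat_lit 13) (.ch
 (nat_lit 12) (.ev (nat_lit 1392) (nat_lit 35188802322432) (.ev (nat_lit 1405) (nat_lit 33554432) .dd))) (.ch
 (nat_lit 13) (.ev (nat_lit 1392) (nat_lit 35184373137408) (.ev (nat_lit 1856) (nat_lit 4294967296) (.fin
 (nat_lit 576475595708777015))))))))))))))) (.ch (nat_lit 36) (.ev (nat_lit 52) (nat_lit 105828129439748) (.nd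
 (nat_lit 1376) (.br (nat_lit 11) (.br (nat_lit 5) (.br (nat_lit 2) (.ch (nat_lit 0) (.ev (nat_lit 1392)
 (nat_lit 17592225955848) (.ev (nat_lit 1904) (nat_lit 73014444032) (.ev (nat_lit 1917) (nat_lit 536870912)
 .dd)))) (.ch (nat_lit 2) (.ev (nat_lit 1392) (nat_lit 17665206845448) (.ev (nat_lit 1792) (nat_lit 33554432)
 (.ev (nat_lit 1805) (nat_lit 536870912) .dd))))) (.br (nat_lit 10) (.ch (nat_lit 5) (.ev (nat_lit 1392)
 (nat_lit 4871749640) (.ev (nat_lit 1444) (nat_lit 68719476736) (.ev (nat_lit 1453) (nat_lit 17592186044416)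
 .dd)))) (.ch (nat_lit 10) (.ev (nat_lit 1392) (nat_lit 17660945432584) (.ev (nat_lit 1540) (nat_lit 536870912)
 (.ev (nat_lit 1549) (nat_lit 4294967296) .dd)))))) (.br (nat_lit 13) (.br (nat_lit 12) (.ch (nat_lit 11) (.ev
 (nat_lit 1392) (nat_lit 17597057794056) (.ev (nat_lit 1405) (nat_lit 68719476736) .dd))) (.ch (nat_lit 12)
 (.ev (nat_lit 1392) (nat_lit 17665739522048) (.ev (nat_lit 1408) (nat_lit 8) (.ev (nat_lit 1492) (nat_lit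
 33554432) (.ev (nat_lit 1501) (nat_lit 4194304) .dd)))))) (.br (nat_lit 16) (.ch (nat_lit 13) (.ev (nat_lit
 1392) (nat_lit 17597055696904) (.ev (nat_lit 1444) (nat_lit 2097152) (.ev (nat_lit 1453) (nat_lit 68719476736)
 .dd)))) (.ch (nat_lit 16) (.ev (nat_lit 1392) (nat_lit 17665739456512) (.ev (nat_lit 1444) (nat_lit 4194304)
 (.ev (nat_lit 1828) (nat_lit 33619968) (.ev (nat_lit 1837) (nat_lit 8) .dd))))))))))))))))))

/-- Subtrie. -/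
noncomputable def T8 : Tr := (.ev (nat_lit 20) (nat_lit 92435014795272) (.nd (nat_lit 33) (.br (nat_lit 19)
 (.br (nat_lit 11) (.br (nat_lit 7) (.br (nat_lit 4) (.ch (nat_lit 1) (.ev (nat_lit 52) (nat_lit 317827580418)
 (.ev (nat_lit 116) (nat_lit 4194304) (.ev (nat_lit 148) (nat_lit 262144) (.ev (nat_lit 640) (nat_lit
 35184539932708) .dd))))) (.br (nat_lit 5) (.ch (nat_lit 4) (.ev (nat_lit 52) (nat_lit 34360001026) (.ev
 (nat_lit 256) (nat_lit 35468011968548) .dd))) (.ch (nat_lit 5) (.ev (nat_lit 52) (nat_lit 35192962351110) (.ev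
 (nat_lit 84) (nat_lit 134217728) (.ev (nat_lit 468) (nat_lit 34359738368) (.ev (nat_lit 532) (nat_lit 4194304)
 (.ev (nat_lit 692) (nat_lit 4096) (.ev (nat_lit 820) (nat_lit 32) (.ev (nat_lit 852) (nat_lit 274877906944)
 (.ev (nat_lit 916) (nat_lit 33554432) (.nd (nat_lit 1376) (.br (nat_lit 8) (.br (nat_lit 4) (.ch (nat_lit 3)
 (.ev (nat_lit 1392) (nat_lit 2560) .dd)) (.br (nat_lit 6) (.ch (nat_lit 4) (.ev (nat_lit 1392) (nat_lit 2560)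
 .dd)) (.ch (nat_lit 6) (.ev (nat_lit 1392) (nat_lit 2560) .dd)))) (.br (nat_lit 9) (.ch (nat_lit 8) (.nd
 (nat_lit 2001) (.ch (nat_lit 35) (.nd (nat_lit 2032) (.ch (nat_lit 16) (.fin (nat_lit
 576461302055518776))))))) (.br (nat_lit 14) (.ch (nat_lit 9) (.ev (nat_lit 1392) (nat_lit 2560) .dd)) (.ch
 (nat_lit 14) (.ev (nat_lit 1392) (nat_lit 2560) .dd))))))))))))))))) (.br (nat_lit 8) (.ch (nat_lit 7) (.ev
 (nat_lit 52) (nat_lit 35218866110982) (.ev (nat_lit 276) (nat_lit 33554432) (.ev (nat_lit 948) (nat_lit 32)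
 (.nd (nat_lit 1376) (.br (nat_lit 10) (.br (nat_lit 8) (.ch (nat_lit 6) (.ev (nat_lit 1392) (nat_lit
 274877913088) (.ev (nat_lit 1840) (nat_lit 4194304) (.ev (nat_lit 1988) (nat_lit 262144) (.ev (nat_lit 1997)
 (nat_lit 8589934592) .dd))))) (.br (nat_lit 9) (.ch (nat_lit 8) (.ev (nat_lit 1392) (nat_lit 283472302080)
 (.ev (nat_lit 1405) (nat_lit 2048) .dd))) (.ch (nat_lit 9) (.ev (nat_lit 1392) (nat_lit 8594397184) (.ev
 (nat_lit 1405) (nat_lit 274877906944) .dd))))) (.br (nat_lit 13) (.ch (nat_lit 10) (.ev (nat_lit 1392)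
 (nat_lit 8594393088) (.ev (nat_lit 1872) (nat_lit 274877911040) .dd))) (.br (nat_lit 14) (.ch (nat_lit 13)
 (.ev (nat_lit 1392) (nat_lit 8594397184) (.ev (nat_lit 1405) (nat_lit 274877906944) .dd))) (.ch (nat_lit 14)
 (.ev (nat_lit 1392) (nat_lit 8590200832) (.ev (nat_lit 1492) (nat_lit 274877906944) (.nd (nat_lit 2001) (.br
 (nat_lit 18) (.ch (nat_lit 4) (.ev (nat_lit 2017) (nat_lit 4196352) .dd)) (.br (nat_lit 30) (.ch (nat_lit 18)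
 (.ev (nat_lit 2017) (nat_lit 4196352) .dd)) (.ch (nat_lit 30) (.nd (nat_lit 2032) (.ch (nat_lit 5) (.fin
 (nat_lit 576473396706493002))))))))))))))))))) (.br (nat_lit 10) (.ch (nat_lit 8) (.ev (nat_lit 52) (nat_lit
 283472039936) (.ev (nat_lit 372) (nat_lit 262144) (.ev (nat_lit 820) (nat_lit 4) (.ev (nat_lit 948) (nat_lit
 33619968) (.ev (nat_lit 1088) (nat_lit 35184372088832) (.nd (nat_lit 1376) (.br (nat_lit 13) (.br (nat_lit 6)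
 (.ch (nat_lit 3) (.ev (nat_lit 1392) (nat_lit 34493958690) .dd)) (.br (nat_lit 8) (.ch (nat_lit 6) (.ev
 (nat_lit 1392) (nat_lit 34493958690) .dd)) (.ch (nat_lit 8) (.ev (nat_lit 1392) (nat_lit 544) (.ev (nat_lit
 1444) (nat_lit 134219776) (.ev (nat_lit 1492) (nat_lit 2) (.ev (nat_lit 1501) (nat_lit 34359738368) .dd)))))))
 (.br (nat_lit 15) (.ch (nat_lit 13) (.ev (nat_lit 1392) (nat_lit 134217730) (.ev (nat_lit 1444) (nat_lit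
 34359738880) (.ev (nat_lit 1492) (nat_lit 32) (.ev (nat_lit 1501) (nat_lit 2048) .dd))))) (.br (nat_lit 18)
 (.ch (nat_lit 15) (.ev (nat_lit 1392) (nat_lit 34493958690) .dd)) (.ch (nat_lit 18) (.ev (nat_lit 1392)
 (nat_lit 34493958690) .dd)))))))))))) (.ch (nat_lit 10) (.ev (nat_lit 52) (nat_lit 34397557252) (.ev (nat_lit
 84) (nat_lit 2) (.ev (nat_lit 244) (nat_lit 8724152320) (.ev (nat_lit 468) (nat_lit 32) (.ev (nat_lit 692)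
 (nat_lit 274877906944) (.ev (nat_lit 1136) (nat_lit 262144) (.nd (nat_lit 1376) (.br (nat_lit 13) (.br
 (nat_lit 6) (.ch (nat_lit 4) (.ev (nat_lit 1392) (nat_lit 35184372088832) (.ev (nat_lit 1405) (nat_lit 2048)
 .dd))) (.br (nat_lit 8) (.ch (nat_lit 6) (.ev (nat_lit 1392) (nat_lit 35184372090880) .dd)) (.ch (nat_lit 8)
 (.ev (nat_lit 1392) (nat_lit 35184372090880) .dd)))) (.br (nat_lit 15) (.br (nat_lit 14) (.ch (nat_lit 13)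
 (.ev (nat_lit 1444) (nat_lit 2048) (.ev (nat_lit 1453) (nat_lit 35184372088832) .dd))) (.ch (nat_lit 14) (.ev
 (nat_lit 1392) (nat_lit 35184372088832) (.ev (nat_lit 1405) (nat_lit 2048) .dd)))) (.br (nat_lit 16) (.ch
 (nat_lit 15) (.ev (nat_lit 1392) (nat_lit 2048) (.ev (nat_lit 1405) (nat_lit 35184372088832) .dd))) (.ch
 (nat_lit 16) (.ev (nat_lit 1392) (nat_lit 2048) (.ev (nat_lit 1405) (nat_lit 35184372088832)
 .dd))))))))))))))))) (.br (nat_lit 15) (.br (nat_lit 12) (.ch (nat_lit 11) (.ev (nat_lit 52) (nat_lit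
 35192962091520) (.ev (nat_lit 596) (nat_lit 4194304) (.ev (nat_lit 628) (nat_lit 274877906944) (.ev (nat_lit
 660) (nat_lit 33554432) (.ev (nat_lit 724) (nat_lit 4) (.ev (nat_lit 852) (nat_lit 4096) (.ev (nat_lit 884)
 (nat_lit 34359738368) (.ev (nat_lit 1104) (nat_lit 32) (.nd (nat_lit 1376) (.br (nat_lit 10) (.br (nat_lit 4)
 (.ch (nat_lit 3) (.ev (nat_lit 1392) (nat_lit 262146) (.ev (nat_lit 1405) (nat_lit 134217728) .dd))) (.br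
 (nat_lit 8) (.ch (nat_lit 4) (.ev (nat_lit 1392) (nat_lit 134479872) (.ev (nat_lit 1405) (nat_lit 2) .dd)))
 (.ch (nat_lit 8) (.ev (nat_lit 1392) (nat_lit 134479874) .dd)))) (.br (nat_lit 15) (.br (nat_lit 14) (.ch
 (nat_lit 10) (.ev (nat_lit 1392) (nat_lit 134217730) (.ev (nat_lit 1405) (nat_lit 262144) .dd))) (.ch (nat_lit
 14) (.ev (nat_lit 1392) (nat_lit 134479874) .dd))) (.br (nat_lit 16) (.ch (nat_lit 15) (.ev (nat_lit 1392)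
 (nat_lit 262146) (.ev (nat_lit 1405) (nat_lit 134217728) .dd))) (.ch (nat_lit 16) (.ev (nat_lit 1392) (nat_lit
 262146) (.ev (nat_lit 1405) (nat_lit 134217728) .dd)))))))))))))))) (.br (nat_lit 13) (.ch (nat_lit 12) (.ev
 (nat_lit 52) (nat_lit 35184410165248) (.ev (nat_lit 276) (nat_lit 34359738368) (.ev (nat_lit 340) (nat_lit
 274877906944) (.ev (nat_lit 468) (nat_lit 2048) (.ev (nat_lit 532) (nat_lit 8589934592) (.ev (nat_lit 660)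
 (nat_lit 32) (.ev (nat_lit 1040) (nat_lit 134217732) (.nd (nat_lit 1376) (.br (nat_lit 9) (.br (nat_lit 6)
 (.ch (nat_lit 4) (.ev (nat_lit 1392) (nat_lit 4608) (.ev (nat_lit 1405) (nat_lit 2) .dd))) (.ch (nat_lit 6)
 (.ev (nat_lit 1392) (nat_lit 4610) .dd))) (.br (nat_lit 13) (.ch (nat_lit 9) (.ev (nat_lit 1392) (nat_lit
 4608) (.ev (nat_lit 1405) (nat_lit 2) .dd))) (.br (nat_lit 16) (.ch (nat_lit 13) (.ev (nat_lit 1392) (nat_lit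
 2) (.ev (nat_lit 1408) (nat_lit 512) (.ev (nat_lit 1421) (nat_lit 4096) .dd)))) (.ch (nat_lit 16) (.ev
 (nat_lit 1392) (nat_lit 4610) .dd)))))))))))))) (.ch (nat_lit 13) (.ev (nat_lit 52) (nat_lit 138416128) (.ev
 (nat_lit 564) (nat_lit 274877906944) (.ev (nat_lit 660) (nat_lit 34359738372) (.ev (nat_lit 756) (nat_lit
 35184372088832) (.ev (nat_lit 788) (nat_lit 65536) (.ev (nat_lit 1200) (nat_lit 8589934592) (.nd (nat_lit
 1376) (.br (nat_lit 13) (.br (nat_lit 8) (.ch (nat_lit 3) (.ev (nat_lit 1392) (nat_lit 33819170) .dd)) (.br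
 (nat_lit 10) (.ch (nat_lit 8) (.ev (nat_lit 1392) (nat_lit 33818658) (.ev (nat_lit 1405) (nat_lit 512) .dd)))
 (.ch (nat_lit 10) (.ev (nat_lit 1392) (nat_lit 546) (.ev (nat_lit 1840) (nat_lit 262144) (.ev (nat_lit 1856)
 (nat_lit 33554432) (.ev (nat_lit 1869) (nat_lit 2048) .dd))))))) (.br (nat_lit 16) (.ch (nat_lit 13) (.ev
 (nat_lit 1392) (nat_lit 33817090) (.ev (nat_lit 1556) (nat_lit 32) (.ev (nat_lit 1565) (nat_lit 2048) .dd))))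
 (.br (nat_lit 18) (.ch (nat_lit 16) (.ev (nat_lit 1392) (nat_lit 33818626) (.ev (nat_lit 1540) (nat_lit 512)
 (.ev (nat_lit 1549) (nat_lit 32) .dd)))) (.ch (nat_lit 18) (.ev (nat_lit 1392) (nat_lit 33819168) (.ev
 (nat_lit 1405) (nat_lit 2) .dd)))))))))))))))) (.br (nat_lit 17) (.br (nat_lit 16) (.ch (nat_lit 15) (.ev
 (nat_lit 52) (nat_lit 274882105378) (.ev (nat_lit 180) (nat_lit 134217728) (.ev (nat_lit 308) (nat_lit
 8589934592) (.ev (nat_lit 404) (nat_lit 512) (.ev (nat_lit 628) (nat_lit 35184372088832) (.ev (nat_lit 928)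
 (nat_lit 34393622532) .dd))))))) (.ch (nat_lit 16) (.ev (nat_lit 52) (nat_lit 35184506570788) (.ev (nat_lit
 84) (nat_lit 4194304) (.ev (nat_lit 468) (nat_lit 65536) (.ev (nat_lit 532) (nat_lit 2) (.ev (nat_lit 896)
 (nat_lit 317861138944) .dd))))))) (.br (nat_lit 18) (.ch (nat_lit 17) (.ev (nat_lit 52) (nat_lit 42983292930)
 (.ev (nat_lit 384) (nat_lit 35459388676644) .dd))) (.ch (nat_lit 18) (.ev (nat_lit 52) (nat_lit 328192) (.ev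
 (nat_lit 404) (nat_lit 32) (.ev (nat_lit 628) (nat_lit 4096) (.ev (nat_lit 724) (nat_lit 34359738368) (.nd
 (nat_lit 1376) (.br (nat_lit 14) (.br (nat_lit 9) (.br (nat_lit 8) (.ch (nat_lit 3) (.ev (nat_lit 1392)
 (nat_lit 35468011898886) .dd)) (.ch (nat_lit 8) (.ev (nat_lit 1392) (nat_lit 35467877681158) (.ev (nat_lit
 1405) (nat_lit 134217728) .dd)))) (.br (nat_lit 10) (.ch (nat_lit 9) (.ev (nat_lit 1392) (nat_lit
 35193100437510) (.ev (nat_lit 1792) (nat_lit 274877906944) (.ev (nat_lit 1805) (nat_lit 33554432) .dd)))) (.ch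
 (nat_lit 10) (.ev (nat_lit 1392) (nat_lit 35467978342402) (.ev (nat_lit 1472) (nat_lit 4) (.ev (nat_lit 1872)
 (nat_lit 33556480) .dd)))))) (.br (nat_lit 16) (.br (nat_lit 15) (.ch (nat_lit 14) (.ev (nat_lit 1392)
 (nat_lit 35468007702530) (.ev (nat_lit 1776) (nat_lit 4) (.fin (nat_lit 576473396706493002))))) (.ch (nat_lit
 15) (.ev (nat_lit 1392) (nat_lit 138412038) (.ev (nat_lit 1408) (nat_lit 35184372088832) (.ev (nat_lit 1444)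
 (nat_lit 8589934592) (.ev (nat_lit 1828) (nat_lit 2048) (.ev (nat_lit 1856) (nat_lit 33554432) (.ev (nat_lit
 1869) (nat_lit 274877906944) .dd)))))))) (.br (nat_lit 18) (.ch (nat_lit 16) (.ev (nat_lit 1392) (nat_lit
 35467978344454) (.ev (nat_lit 1405) (nat_lit 33554432) .dd))) (.ch (nat_lit 18) (.ev (nat_lit 1392) (nat_lit
 171968516) (.ev (nat_lit 1408) (nat_lit 8589934592) (.ev (nat_lit 1680) (nat_lit 35184372088834) (.ev (nat_lit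
 1693) (nat_lit 274877906944) .dd)))))))))))))))))) (.br (nat_lit 26) (.br (nat_lit 22) (.br (nat_lit 20) (.ch
 (nat_lit 19) (.ev (nat_lit 52) (nat_lit 8757710880) (.ev (nat_lit 436) (nat_lit 2) (.ev (nat_lit 468) (nat_lit
 512) (.ev (nat_lit 500) (nat_lit 35184372088832) (.ev (nat_lit 1184) (nat_lit 34359738368) (.nd (nat_lit 1376)
 (.br (nat_lit 10) (.br (nat_lit 4) (.ch (nat_lit 3) (.ev (nat_lit 1392) (nat_lit 274882430980) .dd)) (.br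
 (nat_lit 6) (.ch (nat_lit 4) (.ev (nat_lit 1392) (nat_lit 274882428932) (.ev (nat_lit 1405) (nat_lit 2048)
 .dd))) (.ch (nat_lit 6) (.ev (nat_lit 1392) (nat_lit 67588) (.ev (nat_lit 1776) (nat_lit 274877906944) (.ev
 (nat_lit 1936) (nat_lit 4194304) (.ev (nat_lit 1949) (nat_lit 262144) .dd))))))) (.br (nat_lit 14) (.ch
 (nat_lit 10) (.ev (nat_lit 1392) (nat_lit 274882168832) (.ev (nat_lit 1556) (nat_lit 4) (.ev (nat_lit 1565)
 (nat_lit 262144) .dd)))) (.br (nat_lit 16) (.ch (nat_lit 14) (.ev (nat_lit 1392) (nat_lit 274882365440) (.ev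
 (nat_lit 1540) (nat_lit 65536) (.ev (nat_lit 1549) (nat_lit 4) .dd)))) (.ch (nat_lit 16) (.ev (nat_lit 1392)
 (nat_lit 274882365444) (.ev (nat_lit 1405) (nat_lit 65536) .dd))))))))))))) (.br (nat_lit 21) (.ch (nat_lit
 20) (.ev (nat_lit 52) (nat_lit 8628013060) (.ev (nat_lit 660) (nat_lit 512) (.ev (nat_lit 768) (nat_lit
 35493743956002) .dd)))) (.ch (nat_lit 21) (.ev (nat_lit 52) (nat_lit 43117773344) (.ev (nat_lit 372) (nat_lit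
 2) (.ev (nat_lit 788) (nat_lit 4) (.ev (nat_lit 916) (nat_lit 2048) (.ev (nat_lit 1012) (nat_lit
 35184372088832) (.nd (nat_lit 1376) (.br (nat_lit 13) (.br (nat_lit 8) (.br (nat_lit 6) (.ch (nat_lit 4) (.ev
 (nat_lit 1392) (nat_lit 274882105344) .dd)) (.ch (nat_lit 6) (.ev (nat_lit 1392) (nat_lit 4198400) (.ev
 (nat_lit 1405) (nat_lit 274877906944) .dd)))) (.br (nat_lit 9) (.ch (nat_lit 8) (.ev (nat_lit 1392) (nat_lit
 274877911040) (.ev (nat_lit 1405) (nat_lit 4194304) .dd))) (.ch (nat_lit 9) (.ev (nat_lit 1392) (nat_lit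
 4198400) (.ev (nat_lit 1405) (nat_lit 274877906944) .dd))))) (.br (nat_lit 16) (.br (nat_lit 14) (.ch (nat_lit
 13) (.ev (nat_lit 1392) (nat_lit 4198400) (.ev (nat_lit 1405) (nat_lit 274877906944) .dd))) (.ch (nat_lit 14)
 (.ev (nat_lit 1392) (nat_lit 274882101248) (.ev (nat_lit 1405) (nat_lit 4096) .dd)))) (.br (nat_lit 18) (.ch
 (nat_lit 16) (.ev (nat_lit 1392) (nat_lit 4198400) (.ev (nat_lit 1405) (nat_lit 274877906944) .dd))) (.ch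
 (nat_lit 18) (.ev (nat_lit 1392) (nat_lit 274882105344) .dd)))))))))))))) (.br (nat_lit 24) (.ch (nat_lit 22)
 (.ev (nat_lit 52) (nat_lit 34363932672) (.ev (nat_lit 212) (nat_lit 35184372088832) (.ev (nat_lit 244)
 (nat_lit 2) (.ev (nat_lit 372) (nat_lit 134217728) (.ev (nat_lit 436) (nat_lit 8589934592) (.nd (nat_lit 1376)
 (.br (nat_lit 14) (.br (nat_lit 9) (.ch (nat_lit 4) (.ev (nat_lit 1392) (nat_lit 274911793700) (.ev (nat_lit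
 1405) (nat_lit 2048) .dd))) (.br (nat_lit 13) (.ch (nat_lit 9) (.ev (nat_lit 1392) (nat_lit 274911533604) (.ev
 (nat_lit 1405) (nat_lit 262144) .dd))) (.ch (nat_lit 13) (.ev (nat_lit 1392) (nat_lit 33884676) (.ev (nat_lit
 1664) (nat_lit 274877906976) (.ev (nat_lit 1677) (nat_lit 4096) .dd)))))) (.br (nat_lit 16) (.br (nat_lit 15)
 (.ch (nat_lit 14) (.ev (nat_lit 1392) (nat_lit 274911730208) (.ev (nat_lit 1456) (nat_lit 65536) (.ev (nat_lit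
 1469) (nat_lit 4) .dd)))) (.ch (nat_lit 15) (.ev (nat_lit 1392) (nat_lit 333860) (.ev (nat_lit 1540) (nat_lit
 274877906944) (.ev (nat_lit 1988) (nat_lit 512) (.ev (nat_lit 1997) (nat_lit 33554432) .dd)))))) (.br (nat_lit
 18) (.ch (nat_lit 16) (.ev (nat_lit 1392) (nat_lit 33888260) (.ev (nat_lit 1504) (nat_lit 32) (.ev (nat_lit
 1588) (nat_lit 512) (.ev (nat_lit 1597) (nat_lit 274877906944) .dd))))) (.ch (nat_lit 18) (.ev (nat_lit 1392)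
 (nat_lit 33888804) (.ev (nat_lit 1405) (nat_lit 274877906944) .dd))))))))))))) (.br (nat_lit 25) (.ch (nat_lit
 24) (.ev (nat_lit 52) (nat_lit 35184372355106) (.ev (nat_lit 148) (nat_lit 134217728) (.ev (nat_lit 448)
 (nat_lit 317865396740) .dd)))) (.ch (nat_lit 25) (.ev (nat_lit 52) (nat_lit 35493781706784) (.ev (nat_lit 180)
 (nat_lit 8589934592) (.ev (nat_lit 404) (nat_lit 4) (.ev (nat_lit 916) (nat_lit 65536) (.ev (nat_lit 1216)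
 (nat_lit 2) (.nd (nat_lit 1376) (.br (nat_lit 10) (.br (nat_lit 6) (.ch (nat_lit 3) (.ev (nat_lit 1392)
 (nat_lit 512) (.ev (nat_lit 1405) (nat_lit 262144) .dd))) (.br (nat_lit 9) (.ch (nat_lit 6) (.ev (nat_lit
 1392) (nat_lit 262656) .dd)) (.ch (nat_lit 9) (.ev (nat_lit 1392) (nat_lit 512) (.ev (nat_lit 1405) (nat_lit
 262144) .dd))))) (.br (nat_lit 16) (.br (nat_lit 13) (.ch (nat_lit 10) (.ev (nat_lit 1444) (nat_lit 512) (.ev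
 (nat_lit 1453) (nat_lit 262144) .dd))) (.ch (nat_lit 13) (.ev (nat_lit 1392) (nat_lit 262144) (.ev (nat_lit
 1405) (nat_lit 512) .dd)))) (.br (nat_lit 18) (.ch (nat_lit 16) (.ev (nat_lit 1392) (nat_lit 262144) (.ev
 (nat_lit 1405) (nat_lit 512) .dd))) (.ch (nat_lit 18) (.ev (nat_lit 1392) (nat_lit 262656) .dd)))))))))))))))
 (.br (nat_lit 30) (.br (nat_lit 27) (.ch (nat_lit 26) (.ev (nat_lit 52) (nat_lit 274878175744) (.ev (nat_lit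
 116) (nat_lit 2) (.ev (nat_lit 372) (nat_lit 4194304) (.ev (nat_lit 564) (nat_lit 35184372088832) (.ev
 (nat_lit 704) (nat_lit 43117510692) .dd)))))) (.br (nat_lit 29) (.ch (nat_lit 27) (.ev (nat_lit 52) (nat_lit
 275012388900) (.ev (nat_lit 724) (nat_lit 65536) (.ev (nat_lit 948) (nat_lit 34359738368) (.nd (nat_lit 1376)
 (.br (nat_lit 10) (.br (nat_lit 6) (.br (nat_lit 4) (.ch (nat_lit 3) (.ev (nat_lit 1392) (nat_lit
 35192999776770) .dd)) (.ch (nat_lit 4) (.ev (nat_lit 1392) (nat_lit 35184409837570) (.ev (nat_lit 1472)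
 (nat_lit 4096) (.ev (nat_lit 1680) (nat_lit 8589934592) (.ev (nat_lit 1693) (nat_lit 512) .dd)))))) (.br
 (nat_lit 9) (.ch (nat_lit 6) (.ev (nat_lit 1392) (nat_lit 35184409842178) (.ev (nat_lit 1405) (nat_lit
 8589934592) .dd))) (.ch (nat_lit 9) (.ev (nat_lit 1392) (nat_lit 35192966222338) (.ev (nat_lit 1405) (nat_lit
 33554432) .dd))))) (.br (nat_lit 15) (.br (nat_lit 13) (.ch (nat_lit 10) (.ev (nat_lit 1392) (nat_lit
 35192966217728) (.ev (nat_lit 1712) (nat_lit 33554432) (.ev (nat_lit 1744) (nat_lit 4096) (.fin (nat_lit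
 576455804495282769)))))) (.ch (nat_lit 13) (.ev (nat_lit 1392) (nat_lit 35184409842178) (.ev (nat_lit 1405)
 (nat_lit 8589934592) .dd)))) (.br (nat_lit 16) (.ch (nat_lit 15) (.ev (nat_lit 1392) (nat_lit 35192962027522)
 (.ev (nat_lit 1568) (nat_lit 4194304) (.ev (nat_lit 1952) (nat_lit 33554944) .dd)))) (.ch (nat_lit 16) (.ev
 (nat_lit 1392) (nat_lit 4198914) (.ev (nat_lit 1408) (nat_lit 35184372088832) (.ev (nat_lit 1828) (nat_lit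
 33554432) (.ev (nat_lit 1837) (nat_lit 8589934592) .dd))))))))))))) (.ch (nat_lit 29) (.ev (nat_lit 52)
 (nat_lit 34527578624) (.ev (nat_lit 212) (nat_lit 274877911040) (.ev (nat_lit 800) (nat_lit 35192966479910)
 .dd)))))) (.br (nat_lit 35) (.br (nat_lit 33) (.ch (nat_lit 30) (.ev (nat_lit 52) (nat_lit 274878169088) (.ev
 (nat_lit 340) (nat_lit 4096) (.ev (nat_lit 404) (nat_lit 2048) (.ev (nat_lit 532) (nat_lit 134217728) (.ev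
 (nat_lit 724) (nat_lit 33554432) (.ev (nat_lit 948) (nat_lit 512) (.ev (nat_lit 1264) (nat_lit 4194304) (.nd
 (nat_lit 1376) (.br (nat_lit 13) (.br (nat_lit 10) (.ch (nat_lit 9) (.ev (nat_lit 1392) (nat_lit
 35227321827334) (.ev (nat_lit 1405) (nat_lit 32) .dd))) (.ch (nat_lit 10) (.ev (nat_lit 1392) (nat_lit
 35218731892740) (.ev (nat_lit 1840) (nat_lit 32) (.ev (nat_lit 1920) (nat_lit 8589934592) (.ev (nat_lit 1933)
 (nat_lit 2) .dd)))))) (.br (nat_lit 15) (.ch (nat_lit 13) (.ev (nat_lit 1392) (nat_lit 35227321827362) (.ev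
 (nat_lit 1405) (nat_lit 4) .dd))) (.br (nat_lit 18) (.ch (nat_lit 15) (.ev (nat_lit 1392) (nat_lit
 34359803942) (.ev (nat_lit 1408) (nat_lit 35184372088832) (.ev (nat_lit 1421) (nat_lit 8589934592) .dd))))
 (.ch (nat_lit 18) (.ev (nat_lit 1392) (nat_lit 8589934626) (.ev (nat_lit 1856) (nat_lit 35184372088832) (.ev
 (nat_lit 1936) (nat_lit 4) (.fin (nat_lit 576462401573438015)))))))))))))))))) (.ch (nat_lit 33) (.ev (nat_lit
 52) (nat_lit 34493958150) (.ev (nat_lit 180) (nat_lit 4194304) (.ev (nat_lit 276) (nat_lit 512) (.ev (nat_lit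
 436) (nat_lit 262144) (.ev (nat_lit 724) (nat_lit 32) (.ev (nat_lit 864) (nat_lit 35467873554432) .dd))))))))
 (.br (nat_lit 36) (.ch (nat_lit 35) (.ev (nat_lit 52) (nat_lit 283468107808) (.ev (nat_lit 148) (nat_lit 2)
 (.ev (nat_lit 276) (nat_lit 4) (.ev (nat_lit 308) (nat_lit 134217728) (.ev (nat_lit 436) (nat_lit 4194304)
 (.ev (nat_lit 468) (nat_lit 33554432) (.ev (nat_lit 692) (nat_lit 35184372088832) (.nd (nat_lit 1376) (.br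
 (nat_lit 15) (.br (nat_lit 6) (.ch (nat_lit 3) (.ev (nat_lit 1392) (nat_lit 34359806464) .dd)) (.br (nat_lit
 8) (.ch (nat_lit 6) (.ev (nat_lit 1392) (nat_lit 34359806464) .dd)) (.ch (nat_lit 8) (.ev (nat_lit 1392)
 (nat_lit 34359803904) (.fin (nat_lit 576461302055518776)))))) (.br (nat_lit 16) (.ch (nat_lit 15) (.ev
 (nat_lit 1392) (nat_lit 34359806464) .dd)) (.br (nat_lit 18) (.ch (nat_lit 16) (.ev (nat_lit 1392) (nat_lit
 34359806464) .dd)) (.ch (nat_lit 18) (.ev (nat_lit 1392) (nat_lit 2560) (.nd (nat_lit 2001) (.ch (nat_lit 24)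
 (.nd (nat_lit 2032) (.br (nat_lit 14) (.ch (nat_lit 9) (.ev (nat_lit 2048) (nat_lit 34359803904) .dd)) (.ch
 (nat_lit 14) (.fin (nat_lit 576462401573438015))))))))))))))))))))) (.ch (nat_lit 36) (.ev (nat_lit 52)
 (nat_lit 35467974154244) (.ev (nat_lit 244) (nat_lit 262144) (.ev (nat_lit 276) (nat_lit 32) (.ev (nat_lit
 884) (nat_lit 33554432) (.ev (nat_lit 1120) (nat_lit 65536) (.nd (nat_lit 1376) (.br (nat_lit 8) (.br (nat_lit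
 4) (.ch (nat_lit 3) (.ev (nat_lit 1392) (nat_lit 34363933186) .dd)) (.br (nat_lit 6) (.ch (nat_lit 4) (.ev
 (nat_lit 1392) (nat_lit 34363933186) .dd)) (.ch (nat_lit 6) (.ev (nat_lit 1392) (nat_lit 34363933186) .dd))))
 (.br (nat_lit 9) (.ch (nat_lit 8) (.ev (nat_lit 1444) (nat_lit 512) (.ev (nat_lit 1472) (nat_lit 2) (.ev
 (nat_lit 1492) (nat_lit 34359738368) (.ev (nat_lit 1501) (nat_lit 4194304) .dd))))) (.br (nat_lit 10) (.ch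
 (nat_lit 9) (.ev (nat_lit 1392) (nat_lit 34363933186) .dd)) (.ch (nat_lit 10) (.ev (nat_lit 1392) (nat_lit
 34363932672) (.fin (nat_lit 576455804495282769)))))))))))))))))))))

/-- The trie. -/
noncomputable def T : Tr := .nd (nat_lit 1000000) (.br (nat_lit 7) (.br (nat_lit 2) (.br (nat_lit 1) (.ch
 (nat_lit 0) (.ev (nat_lit 0) (nat_lit 140737488355327) .dd)) (.ch (nat_lit 1) T1)) (.br (nat_lit 3) (.ch
 (nat_lit 2) T2) (.br (nat_lit 4) (.ch (nat_lit 3) (.ev (nat_lit 0) (nat_lit 140737488355327) .dd)) (.ch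
 (nat_lit 4) (.ev (nat_lit 0) (nat_lit 140737488355327) .dd))))) (.br (nat_lit 9) (.br (nat_lit 8) (.ch
 (nat_lit 7) (.ev (nat_lit 0) (nat_lit 140737488355327) .dd)) (.ch (nat_lit 8) T8)) (.br (nat_lit 14) (.ch
 (nat_lit 9) (.ev (nat_lit 0) (nat_lit 140737488355327) .dd)) (.br (nat_lit 18) (.ch (nat_lit 14) (.ev (nat_lit
 0) (nat_lit 140737488355327) .dd)) (.ch (nat_lit 18) (.ev (nat_lit 0) (nat_lit 140737488355327) .dd))))))

/-- The possible values. -/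
noncomputable def oks : List ℕ := [4, 7, 9, 178, 921]

/-- The parameters. -/
noncomputable def S : Pr := ⟨fun i l e => lget mz (lget [] (lget [] tabs i) l) e, oks, [(nat_lit 0), (nat_lit
 1), (nat_lit 0), (nat_lit 1), (nat_lit 0)], T, (nat_lit 140737488355327), (nat_lit 12800101590481), (nat_lit
 47), [(nat_lit 279193), (nat_lit 23899161165)], [(nat_lit 2476099), (nat_lit 1874161)]⟩

/-- Nothing known. -/
noncomputable def cs0 : Cs := (.cons (nat_lit 19) (nat_lit 0) (nat_lit 1) (.cons (nat_lit 37) (nat_lit 0) (nat_lit 1) .nil))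

theorem part_1 : part S cs0 (nat_lit 1) = true := by decide +kernel

theorem part_2 : part S cs0 (nat_lit 2) = true := by decide +kernel

theorem part_8 : part S cs0 (nat_lit 8) = true := by decide +kernel

/-- Data of a prime. -/
noncomputable def D0 : PD := ⟨(nat_lit 19), (nat_lit 5), (921843, 3, 5), (283452, 1051786, 1625863), (861529, 1144748, 833743)⟩

theorem D0_ok : D0.Ok := pdb_sound (s := 9) (C := ⟨⟨21, 6, -28, 11, 14, 17, -4, 7, -1⟩, (2, 11, 15)⟩) (by show Nat.Prime 19; norm_num) (by decide +kernel)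

/-- Lines of the first type. -/
noncomputable def Cl0 : List C1 := [⟨⟨11, 14, -28, 21, 6, 7, 4, -7, -5⟩, (12, 16, 13)⟩,
  ⟨⟨0, 0, 0, 0, 0, 0, 0, 0, 0⟩, (0, 0, 0)⟩,
  ⟨⟨0, 0, 0, 0, 0, 0, 0, 0, 0⟩, (0, 0, 0)⟩,
  ⟨⟨9, 6, -32, 1, 26, 7, 8, -1, -1⟩, (8, 3, 5)⟩,
  ⟨⟨-9, -6, -23, -1, -26, 8, 8, -1, -7⟩, (13, 12, 18)⟩,
  ⟨⟨0, 0, 0, 0, 0, 0, 0, 0, 0⟩, (0, 0, 0)⟩,
  ⟨⟨0, 0, 0, 0, 0, 0, 0, 0, 0⟩, (0, 0, 0)⟩,
  ⟨⟨9, -6, -32, 1, -26, 7, 8, 1, -1⟩, (5, 9, 15)⟩,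
  ⟨⟨0, 0, 0, 0, 0, 0, 0, 0, 0⟩, (0, 0, 0)⟩,
  ⟨⟨21, -6, -28, 11, -14, 17, -4, -7, -1⟩, (16, 12, 6)⟩,
  ⟨⟨0, 0, 0, 0, 0, 0, 0, 0, 0⟩, (0, 0, 0)⟩,
  ⟨⟨0, 0, 0, 0, 0, 0, 0, 0, 0⟩, (0, 0, 0)⟩,
  ⟨⟨0, 0, 0, 0, 0, 0, 0, 0, 0⟩, (0, 0, 0)⟩,
  ⟨⟨0, 0, 0, 0, 0, 0, 0, 0, 0⟩, (0, 0, 0)⟩,
  ⟨⟨11, -14, -28, 21, -6, 7, 4, 7, -5⟩, (5, 13, 7)⟩,
  ⟨⟨0, 0, 0, 0, 0, 0, 0, 0, 0⟩, (0, 0, 0)⟩,
  ⟨⟨0, 0, 0, 0, 0, 0, 0, 0, 0⟩, (0, 0, 0)⟩,
  ⟨⟨0, 0, 0, 0, 0, 0, 0, 0, 0⟩, (0, 0, 0)⟩,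
  ⟨⟨-9, 6, -23, -1, 26, 8, 8, 1, -7⟩, (16, 6, 9)⟩]

/-- Data of a prime. -/
noncomputable def D1 : PD := ⟨(nat_lit 37), (nat_lit 4), (1164206, 16, 5), (290098, 1020852, 1005947), (112988, 1391410, 1055966)⟩

theorem D1_ok : D1.Ok := pdb_sound (s := 2) (C := ⟨⟨43, 22, -44, 23, -2, 41, 6, -15, -7⟩, (6, 23, 6)⟩) (by show Nat.Prime 37; norm_num) (by decide +kernel)

/-- Lines of the first type. -/
noncomputable def Cl1 : List C1 := [⟨⟨23, -2, -64, 43, 22, 1, -6, 15, -1⟩, (31, 29, 8)⟩,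
  ⟨⟨0, 0, 0, 0, 0, 0, 0, 0, 0⟩, (0, 0, 0)⟩,
  ⟨⟨-7, 22, -49, 27, 42, 4, 14, -7, -13⟩, (1, 12, 35)⟩,
  ⟨⟨-13, 38, -31, -47, -22, 16, 6, -9, -17⟩, (20, 4, 5)⟩,
  ⟨⟨0, 0, 0, 0, 0, 0, 0, 0, 0⟩, (0, 0, 0)⟩,
  ⟨⟨0, 0, 0, 0, 0, 0, 0, 0, 0⟩, (0, 0, 0)⟩,
  ⟨⟨7, 22, -56, -27, 42, 31, 14, 7, -1⟩, (18, 31, 36)⟩,
  ⟨⟨0, 0, 0, 0, 0, 0, 0, 0, 0⟩, (0, 0, 0)⟩,
  ⟨⟨0, 0, 0, 0, 0, 0, 0, 0, 0⟩, (0, 0, 0)⟩,
  ⟨⟨13, -38, -44, -47, -22, 31, -6, 9, -11⟩, (18, 26, 23)⟩,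
  ⟨⟨0, 0, 0, 0, 0, 0, 0, 0, 0⟩, (0, 0, 0)⟩,
  ⟨⟨0, 0, 0, 0, 0, 0, 0, 0, 0⟩, (0, 0, 0)⟩,
  ⟨⟨0, 0, 0, 0, 0, 0, 0, 0, 0⟩, (0, 0, 0)⟩,
  ⟨⟨0, 0, 0, 0, 0, 0, 0, 0, 0⟩, (0, 0, 0)⟩,
  ⟨⟨13, 38, -44, -47, 22, 31, -6, -9, -11⟩, (4, 14, 1)⟩,
  ⟨⟨0, 0, 0, 0, 0, 0, 0, 0, 0⟩, (0, 0, 0)⟩,
  ⟨⟨0, 0, 0, 0, 0, 0, 0, 0, 0⟩, (0, 0, 0)⟩,
  ⟨⟨0, 0, 0, 0, 0, 0, 0, 0, 0⟩, (0, 0, 0)⟩,
  ⟨⟨0, 0, 0, 0, 0, 0, 0, 0, 0⟩, (0, 0, 0)⟩,
  ⟨⟨0, 0, 0, 0, 0, 0, 0, 0, 0⟩, (0, 0, 0)⟩,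
  ⟨⟨0, 0, 0, 0, 0, 0, 0, 0, 0⟩, (0, 0, 0)⟩,
  ⟨⟨0, 0, 0, 0, 0, 0, 0, 0, 0⟩, (0, 0, 0)⟩,
  ⟨⟨0, 0, 0, 0, 0, 0, 0, 0, 0⟩, (0, 0, 0)⟩,
  ⟨⟨-7, -22, -49, 27, -42, 4, 14, 7, -13⟩, (13, 8, 11)⟩,
  ⟨⟨0, 0, 0, 0, 0, 0, 0, 0, 0⟩, (0, 0, 0)⟩,
  ⟨⟨0, 0, 0, 0, 0, 0, 0, 0, 0⟩, (0, 0, 0)⟩,
  ⟨⟨0, 0, 0, 0, 0, 0, 0, 0, 0⟩, (0, 0, 0)⟩,
  ⟨⟨0, 0, 0, 0, 0, 0, 0, 0, 0⟩, (0, 0, 0)⟩,
  ⟨⟨23, 2, -64, 43, -22, 1, -6, -15, -1⟩, (3, 4, 33)⟩,
  ⟨⟨0, 0, 0, 0, 0, 0, 0, 0, 0⟩, (0, 0, 0)⟩,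
  ⟨⟨0, 0, 0, 0, 0, 0, 0, 0, 0⟩, (0, 0, 0)⟩,
  ⟨⟨-13, -38, -31, -47, 22, 16, 6, 9, -17⟩, (34, 29, 27)⟩,
  ⟨⟨7, -22, -56, -27, -42, 31, 14, -7, -1⟩, (30, 27, 23)⟩,
  ⟨⟨0, 0, 0, 0, 0, 0, 0, 0, 0⟩, (0, 0, 0)⟩,
  ⟨⟨43, -22, -44, 23, 2, 41, 6, 15, -7⟩, (12, 9, 12)⟩,
  ⟨⟨0, 0, 0, 0, 0, 0, 0, 0, 0⟩, (0, 0, 0)⟩,
  ⟨⟨0, 0, 0, 0, 0, 0, 0, 0, 0⟩, (0, 0, 0)⟩]

/-- Data of a prime. -/
noncomputable def Dm : PD := ⟨(nat_lit 47), (nat_lit 2), (1034, 1, 9), (105, 517, 2039), (987, 5, 190)⟩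

theorem Dm_ok : Dm.Ok := pdb_sound (s := 1) (C := ⟨⟨47, 2, -76, 47, -2, 29, 0, -21, -1⟩, (2, 45, 26)⟩) (by show Nat.Prime 47; norm_num) (by decide +kernel)

/-- Lines of the first type. -/
noncomputable def Clm : List C1 := [⟨⟨47, -2, -76, 47, 2, 29, 0, 21, -1⟩, (9, 38, 23)⟩,
  ⟨⟨0, 0, 0, 0, 0, 0, 0, 0, 0⟩, (0, 0, 0)⟩,
  ⟨⟨0, 0, 0, 0, 0, 0, 0, 0, 0⟩, (0, 0, 0)⟩,
  ⟨⟨0, 0, 0, 0, 0, 0, 0, 0, 0⟩, (0, 0, 0)⟩,
  ⟨⟨17, 22, -76, -63, 18, 19, -4, -19, -7⟩, (10, 21, 17)⟩,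
  ⟨⟨0, 0, 0, 0, 0, 0, 0, 0, 0⟩, (0, 0, 0)⟩,
  ⟨⟨57, -18, -61, -23, -62, 4, -8, 5, -17⟩, (3, 26, 7)⟩,
  ⟨⟨57, 18, -61, -23, 62, 4, -8, -5, -17⟩, (16, 29, 6)⟩,
  ⟨⟨53, -22, -64, -13, -62, 29, -12, -3, -13⟩, (46, 10, 2)⟩,
  ⟨⟨0, 0, 0, 0, 0, 0, 0, 0, 0⟩, (0, 0, 0)⟩,
  ⟨⟨43, -38, -59, 3, -42, 56, -16, -11, -1⟩, (35, 9, 46)⟩,
  ⟨⟨0, 0, 0, 0, 0, 0, 0, 0, 0⟩, (0, 0, 0)⟩,
  ⟨⟨0, 0, 0, 0, 0, 0, 0, 0, 0⟩, (0, 0, 0)⟩,
  ⟨⟨-17, -22, -59, -63, 18, 44, 4, 19, -11⟩, (15, 39, 2)⟩,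
  ⟨⟨0, 0, 0, 0, 0, 0, 0, 0, 0⟩, (0, 0, 0)⟩,
  ⟨⟨0, 0, 0, 0, 0, 0, 0, 0, 0⟩, (0, 0, 0)⟩,
  ⟨⟨0, 0, 0, 0, 0, 0, 0, 0, 0⟩, (0, 0, 0)⟩,
  ⟨⟨53, 22, -64, -13, 62, 29, -12, 3, -13⟩, (41, 13, 12)⟩,
  ⟨⟨0, 0, 0, 0, 0, 0, 0, 0, 0⟩, (0, 0, 0)⟩,
  ⟨⟨0, 0, 0, 0, 0, 0, 0, 0, 0⟩, (0, 0, 0)⟩,
  ⟨⟨0, 0, 0, 0, 0, 0, 0, 0, 0⟩, (0, 0, 0)⟩,
  ⟨⟨0, 0, 0, 0, 0, 0, 0, 0, 0⟩, (0, 0, 0)⟩,
  ⟨⟨0, 0, 0, 0, 0, 0, 0, 0, 0⟩, (0, 0, 0)⟩,
  ⟨⟨43, 38, -59, 3, 42, 56, -16, 11, -1⟩, (5, 8, 20)⟩,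
  ⟨⟨3, -42, -59, 43, -38, 16, 16, 11, -17⟩, (39, 42, 20)⟩,
  ⟨⟨0, 0, 0, 0, 0, 0, 0, 0, 0⟩, (0, 0, 0)⟩,
  ⟨⟨0, 0, 0, 0, 0, 0, 0, 0, 0⟩, (0, 0, 0)⟩,
  ⟨⟨0, 0, 0, 0, 0, 0, 0, 0, 0⟩, (0, 0, 0)⟩,
  ⟨⟨0, 0, 0, 0, 0, 0, 0, 0, 0⟩, (0, 0, 0)⟩,
  ⟨⟨0, 0, 0, 0, 0, 0, 0, 0, 0⟩, (0, 0, 0)⟩,
  ⟨⟨-13, -62, -16, 53, -22, 11, 12, 3, -25⟩, (34, 6, 12)⟩,
  ⟨⟨0, 0, 0, 0, 0, 0, 0, 0, 0⟩, (0, 0, 0)⟩,
  ⟨⟨0, 0, 0, 0, 0, 0, 0, 0, 0⟩, (0, 0, 0)⟩,
  ⟨⟨0, 0, 0, 0, 0, 0, 0, 0, 0⟩, (0, 0, 0)⟩,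
  ⟨⟨17, -22, -76, -63, -18, 19, -4, 19, -7⟩, (15, 8, 2)⟩,
  ⟨⟨0, 0, 0, 0, 0, 0, 0, 0, 0⟩, (0, 0, 0)⟩,
  ⟨⟨0, 0, 0, 0, 0, 0, 0, 0, 0⟩, (0, 0, 0)⟩,
  ⟨⟨3, 42, -59, 43, 38, 16, 16, -11, -17⟩, (38, 12, 46)⟩,
  ⟨⟨0, 0, 0, 0, 0, 0, 0, 0, 0⟩, (0, 0, 0)⟩,
  ⟨⟨-13, 62, -16, 53, 22, 11, 12, -3, -25⟩, (37, 1, 2)⟩,
  ⟨⟨23, 62, -19, 57, -18, 4, 8, -5, -25⟩, (29, 31, 6)⟩,
  ⟨⟨23, -62, -19, 57, 18, 4, 8, 5, -25⟩, (26, 44, 7)⟩,
  ⟨⟨0, 0, 0, 0, 0, 0, 0, 0, 0⟩, (0, 0, 0)⟩,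
  ⟨⟨-17, 22, -59, -63, -18, 44, 4, -19, -11⟩, (10, 26, 17)⟩,
  ⟨⟨0, 0, 0, 0, 0, 0, 0, 0, 0⟩, (0, 0, 0)⟩,
  ⟨⟨0, 0, 0, 0, 0, 0, 0, 0, 0⟩, (0, 0, 0)⟩,
  ⟨⟨0, 0, 0, 0, 0, 0, 0, 0, 0⟩, (0, 0, 0)⟩]

/-- Unit moves. -/
noncomputable def U : List Mv := [mz,
  mz,
  mz,
  mz,
  mz,
  ⟨⟨-1, 0, 1, 0, 1, 0, 0, 0, 1⟩, .nil, (nat_lit 18), (nat_lit 9), (nat_lit 4), (nat_lit 1), (0, 0, 0), [], 18⟩,
  ⟨⟨-1, 0, 1, 0, -1, 0, 0, 0, 1⟩, .nil, (nat_lit 0), (nat_lit 12), (nat_lit 1), (nat_lit 0), (0, 0, 0), [], 7⟩,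
  mz,
  mz,
  mz,
  ⟨⟨1, 0, 0, 0, -1, 0, 0, 0, 1⟩, .nil, (nat_lit 18), (nat_lit 14), (nat_lit 2), (nat_lit 1), (0, 0, 0), [], 10⟩,
  ⟨⟨-1, 0, 1, 0, -1, 0, 0, 0, 1⟩, .nil, (nat_lit 0), (nat_lit 12), (nat_lit 1), (nat_lit 0), (0, 0, 0), [], 7⟩,
  ⟨⟨-1, 0, 1, 0, -1, 0, 0, 0, 1⟩, .nil, (nat_lit 0), (nat_lit 12), (nat_lit 1), (nat_lit 0), (0, 0, 0), [], 7⟩,
  ⟨⟨-1, 0, 1, 0, 1, 0, 0, 0, 1⟩, .nil, (nat_lit 18), (nat_lit 9), (nat_lit 4), (nat_lit 1), (0, 0, 0), [], 18⟩,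
  mz,
  ⟨⟨-1, 0, 1, 0, 1, 0, 0, 0, 1⟩, .nil, (nat_lit 18), (nat_lit 9), (nat_lit 4), (nat_lit 1), (0, 0, 0), [], 18⟩,
  ⟨⟨1, 0, 0, 0, -1, 0, 0, 0, 1⟩, .nil, (nat_lit 18), (nat_lit 14), (nat_lit 2), (nat_lit 1), (0, 0, 0), [], 10⟩,
  ⟨⟨1, 0, 0, 0, -1, 0, 0, 0, 1⟩, .nil, (nat_lit 18), (nat_lit 14), (nat_lit 2), (nat_lit 1), (0, 0, 0), [], 10⟩,
  mz]

theorem v_ty : tyb Dm S.ty1 Clm = true := by decide +kernel

theorem v_ty0 : tyb D0 (S.tys.getD 0 0) Cl0 = true := by decide +kernel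

theorem v_ty1 : tyb D1 (S.tys.getD 1 0) Cl1 = true := by decide +kernel

theorem v_msc : mscb S D0 [D1] Dm (nat_lit 262) = true := by decide +kernel

theorem v_mv0 : mvsn (nat_lit 10251103465067251) S D0 [D1] Dm (nat_lit 262) 0 D0 = true := by decide +kernel

theorem v_mv1 : mvsn (nat_lit 10251103465067251) S D0 [D1] Dm (nat_lit 262) 1 D1 = true := by decide +kernel

theorem v_mm : mmsn (nat_lit 10251103465067251) S D0 [D1] Dm (nat_lit 262) = true := by decide +kernel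

theorem v_un : unb S D0 (nat_lit 262) U = true := by decide +kernel

theorem v_ok : okb S.oks [(0, 0, 0), (0, 0, 0), (0, 3, 0), (0, 0, 0), (16, 25, 2)] = true := by decide +kernel

theorem v_part : ∀ d < D0.p, (nat_lit 262).testBit d = true → part S (zc (D0 :: [D1])) d = true := by
  intro d hd h
  have h1 : ∀ d < 19, (nat_lit 262).testBit d = true → d = 1 ∨ d = 2 ∨ d = 8 := by decide
  rcases h1 d hd h with rfl | rfl | rfl
  · exact part_1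
  · exact part_2
  · exact part_8

theorem main (n : ℕ) (ho : Odd n) (hr : ¬ Rep n) (h0 : Split 19 n) (h1 : Split 37 n) (hm : Split 47 n) :
    n ∈ EE := by
  refine concln (W := nat_lit 10251103465067251) (S := S) (P0 := D0) (Pl := [D1]) (Pm := Dm) (cn := nat_lit 262) ?_ Dm_ok v_ty ?_ ?_ v_msc ?_ v_mm v_un v_part v_ok
    n ho hr ?_ hm
  · simp only [List.forall_mem_cons]
    exact ⟨D0_ok, D1_ok, fun _ h => absurd h (by simp)⟩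
  · exact all2 (φ := fun j P => ∃ L, tyb P (S.tys.getD j 0) L = true) ⟨_, v_ty0⟩ ⟨_, v_ty1⟩
  · exact all2 (φ := fun j P => Nat.ble (S.pks.getD j 0) (Nat.pow P.p P.K) = true) (by decide +kernel) (by decide +kernel)
  · exact all2 (φ := fun i P => mvsn (nat_lit 10251103465067251) S D0 [D1] Dm (nat_lit 262) i P = true) v_mv0 v_mv1
  · simp only [List.forall_mem_cons]
    exact ⟨h0, h1, fun _ h => absurd h (by simp)⟩

end Pool.Agent.Work.MP_9954fe_nt.P19_37_47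

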