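import Pool.Agent.Work.MP_9954fe_nt.Fast

/-!
Certificates for the sets {7, 37, 53}, {7, 43, 71}, {13, 17}, {19, 43, 47}, {19, 47, 53}, {31, 43, 53} of split primes.
-/

set_option autoImplicit false
set_option linter.all false
set_option maxRecDepth 100000

namespace Pool.Agent.Work.MP_9954fe_nt.P7_53_37

/-- Dummy move. -/
noncomputable def mz : Mv := ⟨⟨0, 0, 0, 0, 0, 0, 0, 0, 0⟩, .nil, (nat_lit 0), (nat_lit 0), (nat_lit 0), (nat_lit 0), (0, 0, 0), [], 0⟩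

/-- Moves. -/
noncomputable def t0_1 : List Mv := [
  ⟨⟨-3, 4, -5, 2, -5, -6, 4, 4, -5⟩, (.cons (nat_lit 193) (nat_lit 246) (nat_lit 334) (nat_lit 1) (.cons (nat_lit 1041) (nat_lit 255) (nat_lit 327) (nat_lit 1) .nil)), (nat_lit 13), (nat_lit 31), (nat_lit 29), (nat_lit 1), (3, 5, 3), [337, 563], 23⟩,
  ⟨⟨-3, 4, -5, -2, 5, 6, 4, 4, -5⟩, (.cons (nat_lit 290) (nat_lit 128) (nat_lit 312) (nat_lit 1) (.cons
 (nat_lit 2753) (nat_lit 1124) (nat_lit 1724) (nat_lit 1) .nil)), (nat_lit 15), (nat_lit 3), (nat_lit 16),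
 (nat_lit 1), (3, 2, 3), [142, 2646], 28⟩,
  ⟨⟨7, 0, 0, 2, -5, -6, 4, 4, -5⟩, (.cons (nat_lit 178) (nat_lit 209) (nat_lit 341) (nat_lit 1) (.cons (nat_lit 2186) (nat_lit 1740) (nat_lit 337) (nat_lit 1) .nil)), (nat_lit 33), (nat_lit 9), (nat_lit 5), (nat_lit 1), (0, 5, 3), [253, 546], 27⟩,
  ⟨⟨-3, 4, -5, 2, -5, -6, 4, 4, -5⟩, (.cons (nat_lit 193) (nat_lit 246) (nat_lit 334) (nat_lit 1) (.cons (nat_lit 1041) (nat_lit 255) (nat_lit 327) (nat_lit 1) .nil)), (nat_lit 13), (nat_lit 31), (nat_lit 29), (nat_lit 1), (3, 5, 3), [337, 563], 23⟩,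
  ⟨⟨-3, 4, -5, 2, -5, -6, 4, 4, -5⟩, (.cons (nat_lit 193) (nat_lit 246) (nat_lit 334) (nat_lit 1) (.cons (nat_lit 1041) (nat_lit 255) (nat_lit 327) (nat_lit 1) .nil)), (nat_lit 13), (nat_lit 31), (nat_lit 29), (nat_lit 1), (3, 5, 3), [337, 563], 23⟩,
  ⟨⟨-3, 4, -5, 2, -5, -6, 4, 4, -5⟩, (.cons (nat_lit 193) (nat_lit 246) (nat_lit 334) (nat_lit 1) (.cons (nat_lit 1041) (nat_lit 255) (nat_lit 327) (nat_lit 1) .nil)), (nat_lit 13), (nat_lit 31), (nat_lit 29), (nat_lit 1), (3, 5, 3), [337, 563], 23⟩,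
  ⟨⟨7, 0, 0, 2, -5, -6, 4, 4, -5⟩, (.cons (nat_lit 178) (nat_lit 209) (nat_lit 341) (nat_lit 1) (.cons (nat_lit 2186) (nat_lit 1740) (nat_lit 337) (nat_lit 1) .nil)), (nat_lit 33), (nat_lit 9), (nat_lit 5), (nat_lit 1), (0, 5, 3), [253, 546], 27⟩]

/-- Moves. -/
noncomputable def t0_3 : List Mv := [
  ⟨⟨1, 0, -9, 0, -7, 0, 6, 0, -5⟩, (.cons (nat_lit 146) (nat_lit 323) (nat_lit 145) (nat_lit 1) (.cons (nat_lit 85) (nat_lit 2446) (nat_lit 2134) (nat_lit 1) .nil)), (nat_lit 28), (nat_lit 29), (nat_lit 14), (nat_lit 1), (2, 0, 5), [41, 1090], 19⟩,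
  ⟨⟨1, 0, -9, 0, -7, 0, 6, 0, -5⟩, (.cons (nat_lit 146) (nat_lit 323) (nat_lit 145) (nat_lit 1) (.cons (nat_lit 85) (nat_lit 2446) (nat_lit 2134) (nat_lit 1) .nil)), (nat_lit 28), (nat_lit 29), (nat_lit 14), (nat_lit 1), (2, 0, 5), [41, 1090], 19⟩,
  ⟨⟨5, 0, 4, 0, 7, 0, 6, 0, -5⟩, (.cons (nat_lit 200) (nat_lit 19) (nat_lit 69) (nat_lit 1) (.cons (nat_lit 2808) (nat_lit 2260) (nat_lit 1276) (nat_lit 1) .nil)), (nat_lit 36), (nat_lit 29), (nat_lit 15), (nat_lit 1), (3, 0, 5), [82, 853], 18⟩,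
  ⟨⟨5, 0, 4, 0, -7, 0, 6, 0, -5⟩, (.cons (nat_lit 113) (nat_lit 83) (nat_lit 40) (nat_lit 1) (.cons (nat_lit 2808) (nat_lit 2306) (nat_lit 2653) (nat_lit 1) .nil)), (nat_lit 36), (nat_lit 8), (nat_lit 6), (nat_lit 1), (3, 0, 5), [223, 1281], 27⟩,
  ⟨⟨1, 0, -9, 0, -7, 0, 6, 0, -5⟩, (.cons (nat_lit 146) (nat_lit 323) (nat_lit 145) (nat_lit 1) (.cons (nat_lit 85) (nat_lit 2446) (nat_lit 2134) (nat_lit 1) .nil)), (nat_lit 28), (nat_lit 29), (nat_lit 14), (nat_lit 1), (2, 0, 5), [41, 1090], 19⟩,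
  ⟨⟨1, 0, -9, 0, 7, 0, 6, 0, -5⟩, (.cons (nat_lit 227) (nat_lit 317) (nat_lit 153) (nat_lit 1) (.cons (nat_lit 625) (nat_lit 915) (nat_lit 1005) (nat_lit 1) .nil)), (nat_lit 11), (nat_lit 8), (nat_lit 23), (nat_lit 1), (2, 0, 5), [89, 2769], 10⟩,
  ⟨⟨1, 0, -9, 0, -7, 0, 6, 0, -5⟩, (.cons (nat_lit 146) (nat_lit 323) (nat_lit 145) (nat_lit 1) (.cons (nat_lit 85) (nat_lit 2446) (nat_lit 2134) (nat_lit 1) .nil)), (nat_lit 28), (nat_lit 29), (nat_lit 14), (nat_lit 1), (2, 0, 5), [41, 1090], 19⟩]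

/-- Moves. -/
noncomputable def t1_1 : List Mv := [
  mz,
  mz,
  mz,
  mz,
  ⟨⟨-53, 0, 0, 10, -47, -30, -2, 20, -47⟩, (.cons (nat_lit 91) (nat_lit 45) (nat_lit 72) (nat_lit 1) (.cons
 (nat_lit 746) (nat_lit 51) (nat_lit 128) (nat_lit 1) .nil)), (nat_lit 6), (nat_lit 28), (nat_lit 32), (nat_lit
 1), (0, 39, 24), [199, 164], 32⟩,
  ⟨⟨-53, 0, 0, -10, -47, 30, -2, -20, -47⟩, (.cons (nat_lit 262) (nat_lit 215) (nat_lit 1) (nat_lit 175) (.cons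
 (nat_lit 1970) (nat_lit 2631) (nat_lit 837) (nat_lit 1) .nil)), (nat_lit 31), (nat_lit 20), (nat_lit 7),
 (nat_lit 1), (0, 7, 12), [181, 730], 5⟩,
  ⟨⟨15, 56, -11, -28, 5, -36, 40, 8, -47⟩, (.cons (nat_lit 115) (nat_lit 239) (nat_lit 173) (nat_lit 1) (.cons
 (nat_lit 2695) (nat_lit 350) (nat_lit 1620) (nat_lit 1) .nil)), (nat_lit 14), (nat_lit 17), (nat_lit 33),
 (nat_lit 1), (1, 37, 38), [43, 2505], 20⟩,
  mz,
  mz,
  ⟨⟨-33, -20, -32, 8, 45, -34, 24, -24, -49⟩, (.cons (nat_lit 302) (nat_lit 6) (nat_lit 196) (nat_lit 1) (.cons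
 (nat_lit 565) (nat_lit 1464) (nat_lit 1695) (nat_lit 1) .nil)), (nat_lit 0), (nat_lit 27), (nat_lit 26),
 (nat_lit 1), (35, 14, 42), [326, 2241], 16⟩,
  ⟨⟨-25, 48, -11, 28, -5, -64, -40, -8, -7⟩, (.cons (nat_lit 271) (nat_lit 257) (nat_lit 282) (nat_lit 1)
 (.cons (nat_lit 1455) (nat_lit 2755) (nat_lit 1785) (nat_lit 1) .nil)), (nat_lit 16), (nat_lit 21), (nat_lit
 24), (nat_lit 1), (52, 52, 9), [92, 2339], 36⟩,
  ⟨⟨-1, -12, -63, 50, 17, -30, 14, -44, -19⟩, (.cons (nat_lit 334) (nat_lit 337) (nat_lit 134) (nat_lit 1)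
 (.cons (nat_lit 964) (nat_lit 2139) (nat_lit 1266) (nat_lit 1) .nil)), (nat_lit 31), (nat_lit 36), (nat_lit
 14), (nat_lit 1), (44, 26, 20), [289, 866], 17⟩,
  ⟨⟨-51, 20, 4, -10, -47, -20, 2, 20, -49⟩, (.cons (nat_lit 21) (nat_lit 284) (nat_lit 61) (nat_lit 1) (.cons
 (nat_lit 1105) (nat_lit 2442) (nat_lit 2547) (nat_lit 1) .nil)), (nat_lit 6), (nat_lit 24), (nat_lit 25),
 (nat_lit 1), (48, 25, 48), [220, 2352], 32⟩,
  mz,
  mz,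
  ⟨⟨-51, -20, 4, -10, 47, -20, 2, -20, -49⟩, (.cons (nat_lit 342) (nat_lit 189) (nat_lit 166) (nat_lit 1)
 (.cons (nat_lit 2336) (nat_lit 1845) (nat_lit 2781) (nat_lit 1) .nil)), (nat_lit 36), (nat_lit 15), (nat_lit
 0), (nat_lit 1), (36, 32, 36), [332, 625], 21⟩,
  ⟨⟨15, 52, 16, 10, 17, -60, 46, 4, -11⟩, (.cons (nat_lit 5) (nat_lit 66) (nat_lit 209) (nat_lit 1) (.cons
 (nat_lit 1327) (nat_lit 2140) (nat_lit 995) (nat_lit 1) .nil)), (nat_lit 29), (nat_lit 23), (nat_lit 1),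
 (nat_lit 1), (24, 16, 10), [227, 1560], 15⟩,
  ⟨⟨31, -48, -4, -10, -17, -50, 46, 4, -35⟩, (.cons (nat_lit 171) (nat_lit 342) (nat_lit 293) (nat_lit 1)
 (.cons (nat_lit 256) (nat_lit 2259) (nat_lit 1541) (nat_lit 1) .nil)), (nat_lit 23), (nat_lit 29), (nat_lit
 10), (nat_lit 1), (18, 13, 25), [239, 2297], 20⟩,
  ⟨⟨-57, -4, 40, 8, -45, 26, -24, -24, -25⟩, (.cons (nat_lit 273) (nat_lit 156) (nat_lit 85) (nat_lit 1) (.cons
 (nat_lit 2200) (nat_lit 1790) (nat_lit 2303) (nat_lit 1) .nil)), (nat_lit 7), (nat_lit 34), (nat_lit 33),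
 (nat_lit 1), (12, 29, 19), [253, 2176], 6⟩,
  mz,
  mz,
  ⟨⟨-33, 20, -32, 8, -45, -34, 24, 24, -49⟩, (.cons (nat_lit 230) (nat_lit 135) (nat_lit 1) (nat_lit 21) (.cons
 (nat_lit 28) (nat_lit 1466) (nat_lit 402) (nat_lit 1) .nil)), (nat_lit 16), (nat_lit 11), (nat_lit 27),
 (nat_lit 1), (47, 40, 14), [183, 2223], 19⟩,
  ⟨⟨45, 28, -49, -28, 45, 14, 0, 0, -53⟩, (.cons (nat_lit 246) (nat_lit 231) (nat_lit 252) (nat_lit 1) (.cons
 (nat_lit 281) (nat_lit 225) (nat_lit 1305) (nat_lit 1) .nil)), (nat_lit 1), (nat_lit 17), (nat_lit 2),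
 (nat_lit 1), (24, 31, 0), [290, 1208], 10⟩,
  mz,
  ⟨⟨-13, 48, -27, 30, -17, -60, 30, 36, -7⟩, (.cons (nat_lit 222) (nat_lit 250) (nat_lit 181) (nat_lit 1)
 (.cons (nat_lit 882) (nat_lit 673) (nat_lit 745) (nat_lit 1) .nil)), (nat_lit 26), (nat_lit 0), (nat_lit 0),
 (nat_lit 1), (11, 48, 48), [233, 501], 28⟩,
  mz,
  ⟨⟨-25, -48, -11, 28, 5, -64, -40, 8, -7⟩, (.cons (nat_lit 311) (nat_lit 62) (nat_lit 37) (nat_lit 1) (.cons
 (nat_lit 2156) (nat_lit 1920) (nat_lit 1) (nat_lit 1219) .nil)), (nat_lit 4), (nat_lit 30), (nat_lit 16),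
 (nat_lit 1), (2, 2, 35), [141, 171], 31⟩,
  mz,
  ⟨⟨-1, -48, 37, 52, 5, -16, 8, -40, -31⟩, (.cons (nat_lit 173) (nat_lit 156) (nat_lit 255) (nat_lit 1) (.cons
 (nat_lit 2138) (nat_lit 2455) (nat_lit 1434) (nat_lit 1) .nil)), (nat_lit 8), (nat_lit 12), (nat_lit 32),
 (nat_lit 1), (29, 29, 33), [11, 1464], 22⟩,
  ⟨⟨-13, 48, 40, -30, 17, -30, 30, 36, -23⟩, (.cons (nat_lit 116) (nat_lit 246) (nat_lit 66) (nat_lit 1) (.cons
 (nat_lit 1679) (nat_lit 1827) (nat_lit 1024) (nat_lit 1) .nil)), (nat_lit 27), (nat_lit 34), (nat_lit 34),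
 (nat_lit 1), (42, 48, 5), [290, 1184], 8⟩,
  mz,
  ⟨⟨45, -28, -49, 28, 45, -14, 0, 0, -53⟩, (.cons (nat_lit 99) (nat_lit 112) (nat_lit 91) (nat_lit 1) (.cons
 (nat_lit 2384) (nat_lit 372) (nat_lit 1920) (nat_lit 1) .nil)), (nat_lit 1), (nat_lit 20), (nat_lit 35),
 (nat_lit 1), (39, 49, 0), [192, 1179], 10⟩,
  mz,
  ⟨⟨-39, 28, -17, 10, -33, -50, 18, 36, -37⟩, (.cons (nat_lit 178) (nat_lit 271) (nat_lit 321) (nat_lit 1)
 (.cons (nat_lit 1444) (nat_lit 968) (nat_lit 1303) (nat_lit 1) .nil)), (nat_lit 9), (nat_lit 6), (nat_lit 8),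
 (nat_lit 1), (43, 8, 25), [87, 1428], 32⟩,
  mz,
  mz,
  ⟨⟨-9, 8, -59, 52, -5, -36, -8, -40, -23⟩, (.cons (nat_lit 262) (nat_lit 237) (nat_lit 204) (nat_lit 1) (.cons
 (nat_lit 2549) (nat_lit 711) (nat_lit 610) (nat_lit 1) .nil)), (nat_lit 7), (nat_lit 1), (nat_lit 17),
 (nat_lit 1), (2, 12, 43), [275, 1425], 25⟩,
  ⟨⟨-1, 48, 37, 52, -5, -16, 8, 40, -31⟩, (.cons (nat_lit 250) (nat_lit 123) (nat_lit 237) (nat_lit 1) (.cons
 (nat_lit 1052) (nat_lit 1760) (nat_lit 1147) (nat_lit 1) .nil)), (nat_lit 16), (nat_lit 18), (nat_lit 28),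
 (nat_lit 1), (26, 26, 4), [85, 2003], 36⟩,
  ⟨⟨39, 28, -56, -10, -33, -40, -18, 36, -19⟩, (.cons (nat_lit 67) (nat_lit 341) (nat_lit 183) (nat_lit 1)
 (.cons (nat_lit 1911) (nat_lit 2057) (nat_lit 52) (nat_lit 1) .nil)), (nat_lit 32), (nat_lit 17), (nat_lit
 15), (nat_lit 1), (34, 47, 21), [311, 1689], 21⟩,
  ⟨⟨15, -56, -11, -28, -5, -36, 40, -8, -47⟩, (.cons (nat_lit 131) (nat_lit 282) (nat_lit 5) (nat_lit 1) (.cons
 (nat_lit 20) (nat_lit 996) (nat_lit 2522) (nat_lit 1) .nil)), (nat_lit 18), (nat_lit 9), (nat_lit 1), (nat_lit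
 0), (31, 34, 12), [127, 2163], 4⟩,
  ⟨⟨1, 48, 36, 52, 5, -36, -8, 40, -23⟩, (.cons (nat_lit 172) (nat_lit 102) (nat_lit 46) (nat_lit 1) (.cons
 (nat_lit 390) (nat_lit 1720) (nat_lit 1335) (nat_lit 1) .nil)), (nat_lit 25), (nat_lit 0), (nat_lit 24),
 (nat_lit 1), (38, 15, 14), [197, 1952], 30⟩,
  ⟨⟨31, 48, -4, 10, -17, 50, 46, -4, -35⟩, (.cons (nat_lit 159) (nat_lit 263) (nat_lit 155) (nat_lit 1) (.cons
 (nat_lit 1334) (nat_lit 2711) (nat_lit 2029) (nat_lit 1) .nil)), (nat_lit 32), (nat_lit 23), (nat_lit 30),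
 (nat_lit 1), (15, 51, 12), [207, 737], 17⟩,
  ⟨⟨-57, 4, 40, -8, -45, -26, -24, 24, -25⟩, (.cons (nat_lit 309) (nat_lit 2) (nat_lit 1) (nat_lit 266) (.cons
 (nat_lit 482) (nat_lit 1179) (nat_lit 1885) (nat_lit 1) .nil)), (nat_lit 30), (nat_lit 34), (nat_lit 33),
 (nat_lit 1), (25, 50, 44), [267, 14], 8⟩,
  ⟨⟨15, 32, 44, 50, -17, -30, 14, 44, -19⟩, (.cons (nat_lit 192) (nat_lit 268) (nat_lit 81) (nat_lit 1) (.cons
 (nat_lit 2239) (nat_lit 416) (nat_lit 2194) (nat_lit 1) .nil)), (nat_lit 22), (nat_lit 12), (nat_lit 6),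
 (nat_lit 1), (27, 37, 4), [127, 2460], 14⟩,
  ⟨⟨1, 12, -64, 50, 17, -20, -14, 44, -5⟩, (.cons (nat_lit 319) (nat_lit 55) (nat_lit 233) (nat_lit 1) (.cons
 (nat_lit 2794) (nat_lit 969) (nat_lit 2176) (nat_lit 1) .nil)), (nat_lit 5), (nat_lit 27), (nat_lit 15),
 (nat_lit 1), (42, 33, 48), [298, 1809], 36⟩,
  mz,
  ⟨⟨43, 12, 20, 30, 17, -60, 30, -36, -7⟩, (.cons (nat_lit 342) (nat_lit 250) (nat_lit 73) (nat_lit 1) (.cons
 (nat_lit 1953) (nat_lit 876) (nat_lit 410) (nat_lit 1) .nil)), (nat_lit 36), (nat_lit 10), (nat_lit 20),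
 (nat_lit 1), (23, 37, 37), [43, 464], 34⟩,
  ⟨⟨-15, -32, 59, 50, -17, -20, -14, -44, -5⟩, (.cons (nat_lit 100) (nat_lit 68) (nat_lit 324) (nat_lit 1)
 (.cons (nat_lit 2375) (nat_lit 609) (nat_lit 1128) (nat_lit 1) .nil)), (nat_lit 28), (nat_lit 35), (nat_lit
 18), (nat_lit 1), (8, 44, 11), [312, 1990], 12⟩,
  ⟨⟨15, -52, 16, 10, -17, -60, 46, -4, -11⟩, (.cons (nat_lit 100) (nat_lit 331) (nat_lit 24) (nat_lit 1) (.cons
 (nat_lit 1105) (nat_lit 1901) (nat_lit 1002) (nat_lit 1) .nil)), (nat_lit 15), (nat_lit 2), (nat_lit 34),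
 (nat_lit 1), (14, 27, 50), [327, 805], 3⟩,
  ⟨⟨-39, -28, -17, 10, 33, -50, 18, -36, -37⟩, (.cons (nat_lit 36) (nat_lit 340) (nat_lit 17) (nat_lit 1)
 (.cons (nat_lit 1333) (nat_lit 1082) (nat_lit 2453) (nat_lit 1) .nil)), (nat_lit 10), (nat_lit 12), (nat_lit
 18), (nat_lit 1), (5, 49, 14), [152, 1692], 34⟩,
  ⟨⟨39, -28, -56, 10, -33, 40, -18, -36, -19⟩, (.cons (nat_lit 128) (nat_lit 256) (nat_lit 243) (nat_lit 1)
 (.cons (nat_lit 1636) (nat_lit 2451) (nat_lit 481) (nat_lit 1) .nil)), (nat_lit 22), (nat_lit 33), (nat_lit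
 3), (nat_lit 1), (49, 18, 10), [159, 2485], 26⟩,
  mz,
  ⟨⟨43, 12, -63, -30, -17, -30, 30, -36, -23⟩, (.cons (nat_lit 316) (nat_lit 274) (nat_lit 41) (nat_lit 1)
 (.cons (nat_lit 2374) (nat_lit 2513) (nat_lit 1923) (nat_lit 1) .nil)), (nat_lit 27), (nat_lit 21), (nat_lit
 25), (nat_lit 1), (2, 6, 47), [13, 1454], 13⟩]

/-- Moves. -/
noncomputable def t1_3 : List Mv := [
  mz,
  mz,
  mz,
  mz,
  ⟨⟨51, 20, -47, 10, -47, -30, -2, 20, -47⟩, (.cons (nat_lit 49) (nat_lit 11) (nat_lit 16) (nat_lit 1) (.cons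
 (nat_lit 649) (nat_lit 549) (nat_lit 1128) (nat_lit 1) .nil)), (nat_lit 15), (nat_lit 10), (nat_lit 1),
 (nat_lit 0), (24, 39, 24), [129, 2166], 25⟩,
  ⟨⟨51, -20, -47, 10, 47, -30, -2, -20, -47⟩, (.cons (nat_lit 43) (nat_lit 21) (nat_lit 9) (nat_lit 1) (.cons
 (nat_lit 2774) (nat_lit 1863) (nat_lit 2153) (nat_lit 1) .nil)), (nat_lit 15), (nat_lit 18), (nat_lit 33),
 (nat_lit 1), (12, 46, 12), [192, 2631], 14⟩,
  ⟨⟨25, -48, -36, 28, -5, 36, 40, 8, -47⟩, (.cons (nat_lit 207) (nat_lit 145) (nat_lit 248) (nat_lit 1) (.cons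
 (nat_lit 414) (nat_lit 2791) (nat_lit 967) (nat_lit 1) .nil)), (nat_lit 35), (nat_lit 19), (nat_lit 3),
 (nat_lit 1), (37, 16, 38), [177, 1843], 19⟩,
  mz,
  mz,
  ⟨⟨-33, -20, -32, -8, -45, 34, 24, -24, -49⟩, (.cons (nat_lit 315) (nat_lit 222) (nat_lit 111) (nat_lit 1)
 (.cons (nat_lit 1145) (nat_lit 1745) (nat_lit 715) (nat_lit 1) .nil)), (nat_lit 21), (nat_lit 26), (nat_lit
 10), (nat_lit 1), (35, 39, 42), [337, 2143], 13⟩,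
  ⟨⟨-25, 48, -11, 28, -5, -64, -40, -8, -7⟩, (.cons (nat_lit 271) (nat_lit 257) (nat_lit 282) (nat_lit 1)
 (.cons (nat_lit 1455) (nat_lit 2755) (nat_lit 1785) (nat_lit 1) .nil)), (nat_lit 16), (nat_lit 21), (nat_lit
 24), (nat_lit 1), (52, 52, 9), [92, 2339], 36⟩,
  ⟨⟨15, -32, 44, 50, 17, -30, 14, -44, -19⟩, (.cons (nat_lit 289) (nat_lit 216) (nat_lit 204) (nat_lit 1)
 (.cons (nat_lit 2249) (nat_lit 1588) (nat_lit 82) (nat_lit 1) .nil)), (nat_lit 15), (nat_lit 7), (nat_lit 15),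
 (nat_lit 1), (29, 26, 20), [23, 1562], 34⟩,
  ⟨⟨-51, 20, 4, 10, 47, 20, 2, 20, -49⟩, (.cons (nat_lit 342) (nat_lit 81) (nat_lit 252) (nat_lit 1) (.cons
 (nat_lit 1810) (nat_lit 1913) (nat_lit 2262) (nat_lit 1) .nil)), (nat_lit 36), (nat_lit 21), (nat_lit 3),
 (nat_lit 1), (48, 28, 48), [276, 464], 12⟩,
  mz,
  mz,
  ⟨⟨-51, -20, 4, 10, -47, 20, 2, -20, -49⟩, (.cons (nat_lit 298) (nat_lit 89) (nat_lit 1) (nat_lit 84) (.cons
 (nat_lit 1733) (nat_lit 806) (nat_lit 1677) (nat_lit 1) .nil)), (nat_lit 31), (nat_lit 33), (nat_lit 2),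
 (nat_lit 1), (36, 21, 36), [286, 1609], 5⟩,
  ⟨⟨31, -48, -27, -10, -17, 60, 46, 4, -11⟩, (.cons (nat_lit 38) (nat_lit 228) (nat_lit 53) (nat_lit 1) (.cons
 (nat_lit 812) (nat_lit 2335) (nat_lit 2189) (nat_lit 1) .nil)), (nat_lit 6), (nat_lit 6), (nat_lit 27),
 (nat_lit 1), (39, 37, 10), [115, 932], 17⟩,
  ⟨⟨31, -48, -4, -10, -17, -50, 46, 4, -35⟩, (.cons (nat_lit 171) (nat_lit 342) (nat_lit 293) (nat_lit 1)
 (.cons (nat_lit 256) (nat_lit 2259) (nat_lit 1541) (nat_lit 1) .nil)), (nat_lit 23), (nat_lit 29), (nat_lit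
 10), (nat_lit 1), (18, 13, 25), [239, 2297], 20⟩,
  ⟨⟨33, -20, -65, -8, 45, -26, -24, -24, -25⟩, (.cons (nat_lit 342) (nat_lit 174) (nat_lit 140) (nat_lit 1)
 (.cons (nat_lit 2371) (nat_lit 843) (nat_lit 1071) (nat_lit 1) .nil)), (nat_lit 36), (nat_lit 28), (nat_lit
 10), (nat_lit 1), (7, 24, 19), [81, 1602], 19⟩,
  mz,
  mz,
  ⟨⟨-33, 20, -32, -8, 45, 34, 24, 24, -49⟩, (.cons (nat_lit 162) (nat_lit 294) (nat_lit 73) (nat_lit 1) (.cons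
 (nat_lit 1137) (nat_lit 1020) (nat_lit 2007) (nat_lit 1) .nil)), (nat_lit 0), (nat_lit 1), (nat_lit 36),
 (nat_lit 1), (47, 13, 14), [256, 1758], 16⟩,
  ⟨⟨45, 28, -49, 28, -45, -14, 0, 0, -53⟩, (.cons (nat_lit 140) (nat_lit 289) (nat_lit 1) (nat_lit 203) (.cons
 (nat_lit 358) (nat_lit 1201) (nat_lit 2700) (nat_lit 1) .nil)), (nat_lit 36), (nat_lit 22), (nat_lit 17),
 (nat_lit 1), (24, 22, 0), [265, 2053], 31⟩,
  mz,
  ⟨⟨43, -12, 20, 30, -17, -60, 30, 36, -7⟩, (.cons (nat_lit 268) (nat_lit 37) (nat_lit 111) (nat_lit 1) (.cons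
 (nat_lit 2801) (nat_lit 1047) (nat_lit 516) (nat_lit 1) .nil)), (nat_lit 11), (nat_lit 34), (nat_lit 7),
 (nat_lit 1), (37, 48, 48), [275, 1877], 31⟩,
  mz,
  ⟨⟨-25, -48, -11, 28, 5, -64, -40, 8, -7⟩, (.cons (nat_lit 311) (nat_lit 62) (nat_lit 37) (nat_lit 1) (.cons
 (nat_lit 2156) (nat_lit 1920) (nat_lit 1) (nat_lit 1219) .nil)), (nat_lit 4), (nat_lit 30), (nat_lit 16),
 (nat_lit 1), (2, 2, 35), [141, 171], 31⟩,
  mz,
  ⟨⟨-1, -48, 37, 52, 5, -16, 8, -40, -31⟩, (.cons (nat_lit 173) (nat_lit 156) (nat_lit 255) (nat_lit 1) (.cons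
 (nat_lit 2138) (nat_lit 2455) (nat_lit 1434) (nat_lit 1) .nil)), (nat_lit 8), (nat_lit 12), (nat_lit 32),
 (nat_lit 1), (29, 29, 33), [11, 1464], 22⟩,
  ⟨⟨-13, 48, 40, 30, -17, 30, 30, 36, -23⟩, (.cons (nat_lit 342) (nat_lit 128) (nat_lit 291) (nat_lit 1) (.cons
 (nat_lit 1192) (nat_lit 2417) (nat_lit 1399) (nat_lit 1) .nil)), (nat_lit 0), (nat_lit 36), (nat_lit 1),
 (nat_lit 0), (42, 5, 5), [111, 1845], 16⟩,
  mz,
  ⟨⟨45, -28, -49, 28, 45, -14, 0, 0, -53⟩, (.cons (nat_lit 99) (nat_lit 112) (nat_lit 91) (nat_lit 1) (.cons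
 (nat_lit 2384) (nat_lit 372) (nat_lit 1920) (nat_lit 1) .nil)), (nat_lit 1), (nat_lit 20), (nat_lit 35),
 (nat_lit 1), (39, 49, 0), [192, 1179], 10⟩,
  mz,
  ⟨⟨-39, 28, -17, 10, -33, -50, 18, 36, -37⟩, (.cons (nat_lit 178) (nat_lit 271) (nat_lit 321) (nat_lit 1)
 (.cons (nat_lit 1444) (nat_lit 968) (nat_lit 1303) (nat_lit 1) .nil)), (nat_lit 9), (nat_lit 6), (nat_lit 8),
 (nat_lit 1), (43, 8, 25), [87, 1428], 32⟩,
  mz,
  mz,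
  ⟨⟨-9, 8, -59, -52, 5, 36, -8, -40, -23⟩, (.cons (nat_lit 75) (nat_lit 152) (nat_lit 312) (nat_lit 1) (.cons
 (nat_lit 55) (nat_lit 1144) (nat_lit 2487) (nat_lit 1) .nil)), (nat_lit 28), (nat_lit 11), (nat_lit 33),
 (nat_lit 1), (2, 41, 43), [109, 2365], 32⟩,
  ⟨⟨-1, 48, 37, 52, -5, -16, 8, 40, -31⟩, (.cons (nat_lit 250) (nat_lit 123) (nat_lit 237) (nat_lit 1) (.cons
 (nat_lit 1052) (nat_lit 1760) (nat_lit 1147) (nat_lit 1) .nil)), (nat_lit 16), (nat_lit 18), (nat_lit 28),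
 (nat_lit 1), (26, 26, 4), [85, 2003], 36⟩,
  ⟨⟨-57, 8, 37, -10, -33, -40, -18, 36, -19⟩, (.cons (nat_lit 206) (nat_lit 93) (nat_lit 141) (nat_lit 1)
 (.cons (nat_lit 1745) (nat_lit 2058) (nat_lit 1273) (nat_lit 1) .nil)), (nat_lit 26), (nat_lit 13), (nat_lit
 5), (nat_lit 1), (40, 47, 21), [129, 101], 32⟩,
  ⟨⟨25, 48, -36, 28, 5, 36, 40, -8, -47⟩, (.cons (nat_lit 2) (nat_lit 139) (nat_lit 251) (nat_lit 1) (.cons
 (nat_lit 1869) (nat_lit 804) (nat_lit 321) (nat_lit 1) .nil)), (nat_lit 3), (nat_lit 0), (nat_lit 2), (nat_lit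
 1), (34, 19, 12), [102, 2213], 11⟩,
  ⟨⟨-9, -8, -59, -52, -5, 36, -8, 40, -23⟩, (.cons (nat_lit 5) (nat_lit 185) (nat_lit 36) (nat_lit 1) (.cons
 (nat_lit 1721) (nat_lit 135) (nat_lit 1964) (nat_lit 1) .nil)), (nat_lit 20), (nat_lit 7), (nat_lit 1),
 (nat_lit 0), (29, 38, 14), [232, 627], 36⟩,
  ⟨⟨31, 48, -4, -10, 17, -50, 46, -4, -35⟩, (.cons (nat_lit 235) (nat_lit 4) (nat_lit 80) (nat_lit 1) (.cons
 (nat_lit 1055) (nat_lit 332) (nat_lit 1604) (nat_lit 1) .nil)), (nat_lit 5), (nat_lit 2), (nat_lit 36),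
 (nat_lit 1), (15, 2, 12), [46, 572], 36⟩,
  ⟨⟨33, 20, -65, -8, -45, -26, -24, 24, -25⟩, (.cons (nat_lit 293) (nat_lit 131) (nat_lit 1) (nat_lit 301)
 (.cons (nat_lit 1583) (nat_lit 1834) (nat_lit 1887) (nat_lit 1) .nil)), (nat_lit 10), (nat_lit 0), (nat_lit
 36), (nat_lit 1), (19, 50, 44), [85, 1513], 12⟩,
  ⟨⟨15, 32, 44, 50, -17, -30, 14, 44, -19⟩, (.cons (nat_lit 192) (nat_lit 268) (nat_lit 81) (nat_lit 1) (.cons
 (nat_lit 2239) (nat_lit 416) (nat_lit 2194) (nat_lit 1) .nil)), (nat_lit 22), (nat_lit 12), (nat_lit 6),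
 (nat_lit 1), (27, 37, 4), [127, 2460], 14⟩,
  ⟨⟨-15, 32, 59, 50, 17, -20, -14, 44, -5⟩, (.cons (nat_lit 290) (nat_lit 302) (nat_lit 191) (nat_lit 1) (.cons
 (nat_lit 891) (nat_lit 482) (nat_lit 2029) (nat_lit 1) .nil)), (nat_lit 6), (nat_lit 11), (nat_lit 8),
 (nat_lit 1), (6, 33, 48), [291, 445], 20⟩,
  mz,
  ⟨⟨43, 12, 20, 30, 17, -60, 30, -36, -7⟩, (.cons (nat_lit 342) (nat_lit 250) (nat_lit 73) (nat_lit 1) (.cons
 (nat_lit 1953) (nat_lit 876) (nat_lit 410) (nat_lit 1) .nil)), (nat_lit 36), (nat_lit 10), (nat_lit 20),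
 (nat_lit 1), (23, 37, 37), [43, 464], 34⟩,
  ⟨⟨-15, -32, 59, 50, -17, -20, -14, -44, -5⟩, (.cons (nat_lit 100) (nat_lit 68) (nat_lit 324) (nat_lit 1)
 (.cons (nat_lit 2375) (nat_lit 609) (nat_lit 1128) (nat_lit 1) .nil)), (nat_lit 28), (nat_lit 35), (nat_lit
 18), (nat_lit 1), (8, 44, 11), [312, 1990], 12⟩,
  ⟨⟨31, 48, -27, -10, 17, 60, 46, -4, -11⟩, (.cons (nat_lit 214) (nat_lit 335) (nat_lit 15) (nat_lit 1) (.cons
 (nat_lit 1436) (nat_lit 2808) (nat_lit 92) (nat_lit 1) .nil)), (nat_lit 15), (nat_lit 32), (nat_lit 26),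
 (nat_lit 1), (36, 26, 50), [209, 1528], 26⟩,
  ⟨⟨-39, -28, -17, 10, 33, -50, 18, -36, -37⟩, (.cons (nat_lit 36) (nat_lit 340) (nat_lit 17) (nat_lit 1)
 (.cons (nat_lit 1333) (nat_lit 1082) (nat_lit 2453) (nat_lit 1) .nil)), (nat_lit 10), (nat_lit 12), (nat_lit
 18), (nat_lit 1), (5, 49, 14), [152, 1692], 34⟩,
  ⟨⟨-57, -8, 37, -10, 33, -40, -18, -36, -19⟩, (.cons (nat_lit 162) (nat_lit 143) (nat_lit 333) (nat_lit 1)
 (.cons (nat_lit 2538) (nat_lit 449) (nat_lit 929) (nat_lit 1) .nil)), (nat_lit 26), (nat_lit 21), (nat_lit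
 13), (nat_lit 1), (14, 35, 10), [341, 1149], 7⟩,
  mz,
  ⟨⟨-13, -48, 40, 30, 17, 30, 30, -36, -23⟩, (.cons (nat_lit 275) (nat_lit 264) (nat_lit 29) (nat_lit 1) (.cons
 (nat_lit 2662) (nat_lit 2301) (nat_lit 1086) (nat_lit 1) .nil)), (nat_lit 11), (nat_lit 33), (nat_lit 33),
 (nat_lit 1), (45, 47, 47), [173, 1832], 6⟩]

/-- Moves. -/
noncomputable def t4_1 : List Mv := [
  mz,
  ⟨⟨3, -16, -43, -10, -33, 20, 30, -12, -23⟩, (.cons (nat_lit 175) (nat_lit 51) (nat_lit 106) (nat_lit 1)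
 (.cons (nat_lit 2145) (nat_lit 1560) (nat_lit 239) (nat_lit 1) .nil)), (nat_lit 27), (nat_lit 0), (nat_lit 0),
 (nat_lit 0), (25, 3, 28), [95, 2177], 0⟩,
  mz,
  mz,
  ⟨⟨21, 4, 28, 8, 35, -14, 32, -8, -19⟩, (.cons (nat_lit 342) (nat_lit 252) (nat_lit 169) (nat_lit 1) (.cons
 (nat_lit 2808) (nat_lit 2034) (nat_lit 1169) (nat_lit 1) .nil)), (nat_lit 4), (nat_lit 0), (nat_lit 0),
 (nat_lit 0), (33, 2, 8), [51, 1568], 0⟩,
  ⟨⟨11, 12, -47, 8, -35, -14, 32, 8, -19⟩, (.cons (nat_lit 315) (nat_lit 57) (nat_lit 193) (nat_lit 1) (.cons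
 (nat_lit 2157) (nat_lit 798) (nat_lit 1794) (nat_lit 1) .nil)), (nat_lit 35), (nat_lit 0), (nat_lit 0),
 (nat_lit 0), (29, 11, 7), [246, 1983], 0⟩,
  mz,
  ⟨⟨-17, 36, 17, 30, 17, -30, -18, 12, -19⟩, (.cons (nat_lit 25) (nat_lit 58) (nat_lit 169) (nat_lit 1) (.cons
 (nat_lit 826) (nat_lit 1771) (nat_lit 1072) (nat_lit 1) .nil)), (nat_lit 25), (nat_lit 0), (nat_lit 0),
 (nat_lit 0), (36, 17, 12), [116, 2191], 0⟩,
  ⟨⟨-35, 12, -1, 12, 35, -6, 0, 0, -37⟩, (.cons (nat_lit 342) (nat_lit 200) (nat_lit 114) (nat_lit 1) (.cons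
 (nat_lit 2808) (nat_lit 2443) (nat_lit 75) (nat_lit 1) .nil)), (nat_lit 8), (nat_lit 0), (nat_lit 0), (nat_lit
 0), (3, 18, 0), [143, 1564], 0⟩,
  mz,
  ⟨⟨-17, -36, 17, 30, -17, -30, -18, -12, -19⟩, (.cons (nat_lit 57) (nat_lit 312) (nat_lit 74) (nat_lit 1)
 (.cons (nat_lit 2034) (nat_lit 2504) (nat_lit 624) (nat_lit 1) .nil)), (nat_lit 25), (nat_lit 0), (nat_lit 0),
 (nat_lit 0), (22, 33, 32), [135, 908], 0⟩,
  ⟨⟨3, 16, -43, 10, -33, -20, 30, 12, -23⟩, (.cons (nat_lit 92) (nat_lit 198) (nat_lit 1) (nat_lit 266) (.cons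
 (nat_lit 298) (nat_lit 339) (nat_lit 1004) (nat_lit 1) .nil)), (nat_lit 26), (nat_lit 0), (nat_lit 0),
 (nat_lit 0), (23, 15, 8), [179, 635], 0⟩,
  ⟨⟨39, -4, -8, 10, 17, -40, 14, -28, -19⟩, (.cons (nat_lit 342) (nat_lit 57) (nat_lit 67) (nat_lit 1) (.cons
 (nat_lit 2808) (nat_lit 2792) (nat_lit 1878) (nat_lit 1) .nil)), (nat_lit 12), (nat_lit 0), (nat_lit 0),
 (nat_lit 0), (11, 18, 3), [24, 1364], 0⟩,
  ⟨⟨-31, 24, 27, -8, 5, -36, 8, 32, -1⟩, (.cons (nat_lit 18) (nat_lit 15) (nat_lit 157) (nat_lit 1) (.cons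
 (nat_lit 276) (nat_lit 2141) (nat_lit 2574) (nat_lit 1) .nil)), (nat_lit 19), (nat_lit 0), (nat_lit 0),
 (nat_lit 0), (26, 27, 10), [33, 272], 0⟩,
  mz,
  ⟨⟨-3, 40, 8, 32, 5, -36, -16, 16, -19⟩, (.cons (nat_lit 288) (nat_lit 2) (nat_lit 1) (nat_lit 245) (.cons
 (nat_lit 693) (nat_lit 2793) (nat_lit 449) (nat_lit 1) .nil)), (nat_lit 24), (nat_lit 0), (nat_lit 0),
 (nat_lit 0), (27, 8, 33), [73, 2122], 0⟩,
  ⟨⟨11, -12, 36, -8, -35, -6, 32, -8, -13⟩, (.cons (nat_lit 342) (nat_lit 331) (nat_lit 133) (nat_lit 1) (.cons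
 (nat_lit 2808) (nat_lit 456) (nat_lit 1837) (nat_lit 1) .nil)), (nat_lit 16), (nat_lit 0), (nat_lit 0),
 (nat_lit 0), (3, 18, 2), [19, 605], 0⟩,
  ⟨⟨39, -8, -11, 8, 5, -44, 8, -32, -7⟩, (.cons (nat_lit 342) (nat_lit 33) (nat_lit 129) (nat_lit 1) (.cons
 (nat_lit 2808) (nat_lit 1061) (nat_lit 616) (nat_lit 1) .nil)), (nat_lit 17), (nat_lit 0), (nat_lit 0),
 (nat_lit 0), (5, 20, 20), [109, 2477], 0⟩,
  ⟨⟨39, 4, -8, 10, -17, -40, 14, 28, -19⟩, (.cons (nat_lit 1) (nat_lit 131) (nat_lit 183) (nat_lit 1) (.cons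
 (nat_lit 2336) (nat_lit 52) (nat_lit 1311) (nat_lit 1) .nil)), (nat_lit 12), (nat_lit 0), (nat_lit 0),
 (nat_lit 0), (29, 34, 18), [34, 2280], 0⟩,
  ⟨⟨39, -8, -28, -8, -5, -36, 8, -32, -1⟩, (.cons (nat_lit 22) (nat_lit 309) (nat_lit 55) (nat_lit 1) (.cons
 (nat_lit 2236) (nat_lit 279) (nat_lit 2390) (nat_lit 1) .nil)), (nat_lit 22), (nat_lit 0), (nat_lit 0),
 (nat_lit 0), (22, 23, 14), [311, 2061], 0⟩,
  ⟨⟨25, -24, -36, -10, 17, -30, -14, -28, -5⟩, (.cons (nat_lit 342) (nat_lit 111) (nat_lit 178) (nat_lit 1)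
 (.cons (nat_lit 2808) (nat_lit 2280) (nat_lit 1760) (nat_lit 1) .nil)), (nat_lit 20), (nat_lit 0), (nat_lit
 0), (nat_lit 0), (21, 36, 6), [150, 1133], 0⟩,
  ⟨⟨13, -24, -40, -32, 5, -4, 16, 16, -35⟩, (.cons (nat_lit 55) (nat_lit 135) (nat_lit 1) (nat_lit 189) (.cons
 (nat_lit 21) (nat_lit 275) (nat_lit 2005) (nat_lit 1) .nil)), (nat_lit 33), (nat_lit 0), (nat_lit 0), (nat_lit
 0), (27, 36, 19), [262, 1669], 0⟩,
  ⟨⟨39, 8, -11, 8, -5, -44, 8, 32, -7⟩, (.cons (nat_lit 219) (nat_lit 114) (nat_lit 195) (nat_lit 1) (.cons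
 (nat_lit 1990) (nat_lit 2009) (nat_lit 882) (nat_lit 1) .nil)), (nat_lit 17), (nat_lit 0), (nat_lit 0),
 (nat_lit 0), (4, 16, 16), [218, 950], 0⟩,
  mz,
  ⟨⟨13, 24, -40, -32, -5, -4, 16, -16, -35⟩, (.cons (nat_lit 204) (nat_lit 223) (nat_lit 231) (nat_lit 1)
 (.cons (nat_lit 1661) (nat_lit 2549) (nat_lit 390) (nat_lit 1) .nil)), (nat_lit 33), (nat_lit 0), (nat_lit 0),
 (nat_lit 0), (24, 32, 21), [271, 1365], 0⟩,
  ⟨⟨1, 24, -37, -30, -17, 0, 18, -12, -37⟩, (.cons (nat_lit 337) (nat_lit 157) (nat_lit 101) (nat_lit 1) (.cons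
 (nat_lit 1863) (nat_lit 797) (nat_lit 414) (nat_lit 1) .nil)), (nat_lit 10), (nat_lit 0), (nat_lit 0),
 (nat_lit 0), (23, 13, 7), [58, 1826], 0⟩,
  ⟨⟨27, -4, -47, -10, 33, -10, 30, 12, -7⟩, (.cons (nat_lit 70) (nat_lit 229) (nat_lit 41) (nat_lit 1) (.cons
 (nat_lit 575) (nat_lit 1705) (nat_lit 1354) (nat_lit 1) .nil)), (nat_lit 11), (nat_lit 0), (nat_lit 0),
 (nat_lit 0), (15, 15, 29), [255, 594], 0⟩,
  ⟨⟨27, 4, -47, 10, 33, 10, 30, -12, -7⟩, (.cons (nat_lit 55) (nat_lit 282) (nat_lit 1) (nat_lit 21) (.cons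
 (nat_lit 918) (nat_lit 510) (nat_lit 2509) (nat_lit 1) .nil)), (nat_lit 1), (nat_lit 0), (nat_lit 0), (nat_lit
 0), (33, 4, 12), [59, 1123], 0⟩,
  mz,
  ⟨⟨35, 12, -36, 12, -35, -6, 0, 0, -37⟩, (.cons (nat_lit 342) (nat_lit 256) (nat_lit 240) (nat_lit 1) (.cons
 (nat_lit 2808) (nat_lit 792) (nat_lit 8) (nat_lit 1) .nil)), (nat_lit 29), (nat_lit 0), (nat_lit 0), (nat_lit
 0), (14, 27, 0), [87, 1487], 0⟩,
  ⟨⟨-39, 4, 31, -10, -17, -30, -14, 28, -5⟩, (.cons (nat_lit 132) (nat_lit 292) (nat_lit 321) (nat_lit 1)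
 (.cons (nat_lit 1184) (nat_lit 1507) (nat_lit 1670) (nat_lit 1) .nil)), (nat_lit 12), (nat_lit 0), (nat_lit
 0), (nat_lit 0), (3, 15, 21), [272, 316], 0⟩,
  mz,
  mz,
  ⟨⟨-3, -40, 8, -32, 5, 36, -16, -16, -19⟩, (.cons (nat_lit 203) (nat_lit 247) (nat_lit 106) (nat_lit 1) (.cons
 (nat_lit 2274) (nat_lit 1057) (nat_lit 2446) (nat_lit 1) .nil)), (nat_lit 21), (nat_lit 0), (nat_lit 0),
 (nat_lit 0), (32, 33, 35), [206, 2558], 0⟩,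
  mz,
  ⟨⟨21, -4, -49, -8, 35, -6, 32, 8, -13⟩, (.cons (nat_lit 327) (nat_lit 226) (nat_lit 1) (nat_lit 105) (.cons
 (nat_lit 573) (nat_lit 613) (nat_lit 132) (nat_lit 1) .nil)), (nat_lit 5), (nat_lit 0), (nat_lit 0), (nat_lit
 0), (18, 9, 1), [136, 2040], 0⟩,
  ⟨⟨1, -24, -37, -30, 17, 0, 18, 12, -37⟩, (.cons (nat_lit 333) (nat_lit 236) (nat_lit 202) (nat_lit 1) (.cons
 (nat_lit 176) (nat_lit 1366) (nat_lit 1887) (nat_lit 1) .nil)), (nat_lit 10), (nat_lit 0), (nat_lit 0),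
 (nat_lit 0), (26, 34, 24), [158, 2117], 0⟩]

/-- Moves. -/
noncomputable def t4_3 : List Mv := [
  mz,
  ⟨⟨27, 4, 20, 10, 33, -20, 30, -12, -23⟩, (.cons (nat_lit 342) (nat_lit 342) (nat_lit 140) (nat_lit 1) (.cons
 (nat_lit 2808) (nat_lit 1270) (nat_lit 2605) (nat_lit 1) .nil)), (nat_lit 1), (nat_lit 0), (nat_lit 0),
 (nat_lit 0), (3, 34, 28), [2, 1194], 0⟩,
  mz,
  mz,
  ⟨⟨21, 4, 28, 8, 35, -14, 32, -8, -19⟩, (.cons (nat_lit 342) (nat_lit 252) (nat_lit 169) (nat_lit 1) (.cons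
 (nat_lit 2808) (nat_lit 2034) (nat_lit 1169) (nat_lit 1) .nil)), (nat_lit 4), (nat_lit 0), (nat_lit 0),
 (nat_lit 0), (33, 2, 8), [51, 1568], 0⟩,
  ⟨⟨21, -4, 28, 8, -35, -14, 32, 8, -19⟩, (.cons (nat_lit 63) (nat_lit 300) (nat_lit 74) (nat_lit 1) (.cons
 (nat_lit 1353) (nat_lit 2385) (nat_lit 852) (nat_lit 1) .nil)), (nat_lit 4), (nat_lit 0), (nat_lit 0),
 (nat_lit 0), (15, 11, 7), [15, 453], 0⟩,
  mz,
  ⟨⟨-1, -24, -36, 30, 17, -30, -18, 12, -19⟩, (.cons (nat_lit 87) (nat_lit 327) (nat_lit 155) (nat_lit 1)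
 (.cons (nat_lit 215) (nat_lit 2734) (nat_lit 2625) (nat_lit 1) .nil)), (nat_lit 10), (nat_lit 0), (nat_lit 0),
 (nat_lit 0), (13, 17, 12), [32, 2643], 0⟩,
  ⟨⟨-35, 12, -1, 12, 35, -6, 0, 0, -37⟩, (.cons (nat_lit 342) (nat_lit 200) (nat_lit 114) (nat_lit 1) (.cons
 (nat_lit 2808) (nat_lit 2443) (nat_lit 75) (nat_lit 1) .nil)), (nat_lit 8), (nat_lit 0), (nat_lit 0), (nat_lit
 0), (3, 18, 0), [143, 1564], 0⟩,
  mz,
  ⟨⟨-1, 24, -36, 30, -17, -30, -18, -12, -19⟩, (.cons (nat_lit 342) (nat_lit 38) (nat_lit 277) (nat_lit 1)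
 (.cons (nat_lit 2808) (nat_lit 2099) (nat_lit 2151) (nat_lit 1) .nil)), (nat_lit 10), (nat_lit 0), (nat_lit
 0), (nat_lit 0), (10, 33, 32), [149, 889], 0⟩,
  ⟨⟨27, -4, 20, 10, -33, -20, 30, 12, -23⟩, (.cons (nat_lit 118) (nat_lit 229) (nat_lit 1) (nat_lit 301) (.cons
 (nat_lit 2748) (nat_lit 1261) (nat_lit 782) (nat_lit 1) .nil)), (nat_lit 1), (nat_lit 0), (nat_lit 0),
 (nat_lit 0), (22, 15, 8), [235, 879], 0⟩,
  ⟨⟨39, -4, -8, -10, -17, 40, 14, -28, -19⟩, (.cons (nat_lit 1) (nat_lit 212) (nat_lit 160) (nat_lit 1) (.cons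
 (nat_lit 1259) (nat_lit 1948) (nat_lit 1143) (nat_lit 1) .nil)), (nat_lit 18), (nat_lit 0), (nat_lit 0),
 (nat_lit 0), (11, 19, 3), [34, 1123], 0⟩,
  ⟨⟨-31, 24, 27, 8, -5, 36, 8, 32, -1⟩, (.cons (nat_lit 342) (nat_lit 198) (nat_lit 284) (nat_lit 1) (.cons
 (nat_lit 2808) (nat_lit 1016) (nat_lit 664) (nat_lit 1) .nil)), (nat_lit 13), (nat_lit 0), (nat_lit 0),
 (nat_lit 0), (26, 10, 10), [17, 2458], 0⟩,
  mz,
  ⟨⟨-13, -24, -27, 32, 5, -36, -16, 16, -19⟩, (.cons (nat_lit 265) (nat_lit 327) (nat_lit 1) (nat_lit 133)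
 (.cons (nat_lit 2289) (nat_lit 40) (nat_lit 585) (nat_lit 1) .nil)), (nat_lit 33), (nat_lit 0), (nat_lit 0),
 (nat_lit 0), (6, 8, 33), [115, 205], 0⟩,
  ⟨⟨21, 4, -49, -8, -35, -6, 32, -8, -13⟩, (.cons (nat_lit 162) (nat_lit 299) (nat_lit 42) (nat_lit 1) (.cons
 (nat_lit 106) (nat_lit 2716) (nat_lit 264) (nat_lit 1) .nil)), (nat_lit 5), (nat_lit 0), (nat_lit 0), (nat_lit
 0), (36, 18, 2), [61, 579], 0⟩,
  ⟨⟨39, -8, -11, 8, 5, -44, 8, -32, -7⟩, (.cons (nat_lit 342) (nat_lit 33) (nat_lit 129) (nat_lit 1) (.cons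
 (nat_lit 2808) (nat_lit 1061) (nat_lit 616) (nat_lit 1) .nil)), (nat_lit 17), (nat_lit 0), (nat_lit 0),
 (nat_lit 0), (5, 20, 20), [109, 2477], 0⟩,
  ⟨⟨39, 4, -8, -10, 17, 40, 14, 28, -19⟩, (.cons (nat_lit 342) (nat_lit 223) (nat_lit 220) (nat_lit 1) (.cons
 (nat_lit 2808) (nat_lit 2414) (nat_lit 280) (nat_lit 1) .nil)), (nat_lit 18), (nat_lit 0), (nat_lit 0),
 (nat_lit 0), (29, 3, 18), [101, 550], 0⟩,
  ⟨⟨-31, -24, 27, 8, 5, 36, 8, -32, -1⟩, (.cons (nat_lit 324) (nat_lit 285) (nat_lit 239) (nat_lit 1) (.cons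
 (nat_lit 1089) (nat_lit 2730) (nat_lit 296) (nat_lit 1) .nil)), (nat_lit 13), (nat_lit 0), (nat_lit 0),
 (nat_lit 0), (29, 14, 14), [251, 1806], 0⟩,
  ⟨⟨25, -24, -36, -10, 17, -30, -14, -28, -5⟩, (.cons (nat_lit 342) (nat_lit 111) (nat_lit 178) (nat_lit 1)
 (.cons (nat_lit 2808) (nat_lit 2280) (nat_lit 1760) (nat_lit 1) .nil)), (nat_lit 20), (nat_lit 0), (nat_lit
 0), (nat_lit 0), (21, 36, 6), [150, 1133], 0⟩,
  ⟨⟨13, -24, -40, 32, -5, 4, 16, 16, -35⟩, (.cons (nat_lit 64) (nat_lit 21) (nat_lit 255) (nat_lit 1) (.cons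
 (nat_lit 2138) (nat_lit 2305) (nat_lit 2089) (nat_lit 1) .nil)), (nat_lit 15), (nat_lit 0), (nat_lit 0),
 (nat_lit 0), (27, 1, 19), [257, 1895], 0⟩,
  ⟨⟨39, 8, -11, 8, -5, -44, 8, 32, -7⟩, (.cons (nat_lit 219) (nat_lit 114) (nat_lit 195) (nat_lit 1) (.cons
 (nat_lit 1990) (nat_lit 2009) (nat_lit 882) (nat_lit 1) .nil)), (nat_lit 17), (nat_lit 0), (nat_lit 0),
 (nat_lit 0), (4, 16, 16), [218, 950], 0⟩,
  mz,
  ⟨⟨13, 24, -40, 32, 5, 4, 16, -16, -35⟩, (.cons (nat_lit 245) (nat_lit 131) (nat_lit 237) (nat_lit 1) (.cons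
 (nat_lit 835) (nat_lit 2124) (nat_lit 1491) (nat_lit 1) .nil)), (nat_lit 15), (nat_lit 0), (nat_lit 0),
 (nat_lit 0), (24, 5, 21), [115, 2723], 0⟩,
  ⟨⟨1, 24, -37, 30, 17, 0, 18, -12, -37⟩, (.cons (nat_lit 247) (nat_lit 80) (nat_lit 103) (nat_lit 1) (.cons
 (nat_lit 1867) (nat_lit 2545) (nat_lit 1393) (nat_lit 1) .nil)), (nat_lit 7), (nat_lit 0), (nat_lit 0),
 (nat_lit 0), (23, 24, 7), [268, 1691], 0⟩,
  ⟨⟨27, -4, -47, -10, 33, -10, 30, 12, -7⟩, (.cons (nat_lit 70) (nat_lit 229) (nat_lit 41) (nat_lit 1) (.cons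
 (nat_lit 575) (nat_lit 1705) (nat_lit 1354) (nat_lit 1) .nil)), (nat_lit 11), (nat_lit 0), (nat_lit 0),
 (nat_lit 0), (15, 15, 29), [255, 594], 0⟩,
  ⟨⟨27, 4, -47, -10, -33, -10, 30, -12, -7⟩, (.cons (nat_lit 211) (nat_lit 294) (nat_lit 10) (nat_lit 1) (.cons
 (nat_lit 1349) (nat_lit 2646) (nat_lit 1269) (nat_lit 1) .nil)), (nat_lit 11), (nat_lit 0), (nat_lit 0),
 (nat_lit 0), (33, 33, 12), [131, 1835], 0⟩,
  mz,
  ⟨⟨-35, -12, -1, 12, -35, -6, 0, 0, -37⟩, (.cons (nat_lit 218) (nat_lit 143) (nat_lit 254) (nat_lit 1) (.cons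
 (nat_lit 266) (nat_lit 2381) (nat_lit 2498) (nat_lit 1) .nil)), (nat_lit 8), (nat_lit 0), (nat_lit 0),
 (nat_lit 0), (23, 27, 0), [206, 2213], 0⟩,
  ⟨⟨25, 24, -36, -10, -17, -30, -14, 28, -5⟩, (.cons (nat_lit 29) (nat_lit 142) (nat_lit 97) (nat_lit 1) (.cons
 (nat_lit 2442) (nat_lit 2642) (nat_lit 1893) (nat_lit 1) .nil)), (nat_lit 20), (nat_lit 0), (nat_lit 0),
 (nat_lit 0), (18, 15, 21), [104, 637], 0⟩,
  mz,
  mz,
  ⟨⟨-13, 24, -27, 32, -5, -36, -16, -16, -19⟩, (.cons (nat_lit 342) (nat_lit 97) (nat_lit 105) (nat_lit 1)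
 (.cons (nat_lit 2808) (nat_lit 1888) (nat_lit 1097) (nat_lit 1) .nil)), (nat_lit 33), (nat_lit 0), (nat_lit
 0), (nat_lit 0), (3, 4, 35), [75, 260], 0⟩,
  mz,
  ⟨⟨21, -4, -49, -8, 35, -6, 32, 8, -13⟩, (.cons (nat_lit 327) (nat_lit 226) (nat_lit 1) (nat_lit 105) (.cons
 (nat_lit 573) (nat_lit 613) (nat_lit 132) (nat_lit 1) .nil)), (nat_lit 5), (nat_lit 0), (nat_lit 0), (nat_lit
 0), (18, 9, 1), [136, 2040], 0⟩,
  ⟨⟨1, -24, -37, 30, -17, 0, 18, 12, -37⟩, (.cons (nat_lit 211) (nat_lit 146) (nat_lit 75) (nat_lit 1) (.cons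
 (nat_lit 2658) (nat_lit 2508) (nat_lit 1991) (nat_lit 1) .nil)), (nat_lit 7), (nat_lit 0), (nat_lit 0),
 (nat_lit 0), (26, 3, 24), [149, 448], 0⟩]

/-- All the moves. -/
noncomputable def tabs : List (List (List Mv)) := [[[], t0_1, [], t0_3], [[], t1_1, [], t1_3], [], [], [[], t4_1, [], t4_3]]

/-- Subtrie. -/
noncomputable def T1 : Tr := (.ev (nat_lit 20) (nat_lit 104241565696) (.nd (nat_lit 33) (.br (nat_lit 31) (.br
 (nat_lit 16) (.br (nat_lit 10) (.br (nat_lit 6) (.br (nat_lit 5) (.ch (nat_lit 4) (.ev (nat_lit 52) (nat_lit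
 9262366720) (.ev (nat_lit 500) (nat_lit 131072) (.ev (nat_lit 532) (nat_lit 2097152) (.ev (nat_lit 628)
 (nat_lit 256) (.nd (nat_lit 1328) (.br (nat_lit 3) (.br (nat_lit 1) (.ch (nat_lit 0) (.ev (nat_lit 1344)
 (nat_lit 33622178) (.ev (nat_lit 2372) (nat_lit 1024) (.ev (nat_lit 2692) (nat_lit 16) (.ev (nat_lit 2701)
 (nat_lit 8192) .dd))))) (.ch (nat_lit 1) (.ev (nat_lit 1344) (nat_lit 11408) (.nd (nat_lit 1440) (.br (nat_lit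
 3) (.ch (nat_lit 0) (.ev (nat_lit 1456) (nat_lit 33554464) (.ev (nat_lit 1840) (nat_lit 2) (.ev (nat_lit 1853)
 (nat_lit 65536) .dd)))) (.br (nat_lit 5) (.ch (nat_lit 3) (.ev (nat_lit 1456) (nat_lit 2) (.ev (nat_lit 1728)
 (nat_lit 65568) (.ev (nat_lit 1741) (nat_lit 33554432) .dd)))) (.ch (nat_lit 5) (.ev (nat_lit 1636) (nat_lit
 65536) (.ev (nat_lit 1648) (nat_lit 32) (.ev (nat_lit 2004) (nat_lit 2) (.ev (nat_lit 2013) (nat_lit 33554432)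
 .dd))))))))))) (.br (nat_lit 6) (.ch (nat_lit 3) (.ev (nat_lit 1344) (nat_lit 73762) (.nd (nat_lit 1440) (.br
 (nat_lit 5) (.br (nat_lit 3) (.ch (nat_lit 0) (.ev (nat_lit 1456) (nat_lit 1168) (.ev (nat_lit 2096) (nat_lit
 2048) (.ev (nat_lit 2109) (nat_lit 33554432) .dd)))) (.ch (nat_lit 3) (.ev (nat_lit 1456) (nat_lit 144) (.ev
 (nat_lit 2176) (nat_lit 33554432) (.ev (nat_lit 2432) (nat_lit 2048) (.ev (nat_lit 2445) (nat_lit 1024)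
 .dd)))))) (.br (nat_lit 6) (.ch (nat_lit 5) (.ev (nat_lit 1456) (nat_lit 3088) (.ev (nat_lit 1648) (nat_lit
 128) (.ev (nat_lit 1661) (nat_lit 33554432) .dd)))) (.ch (nat_lit 6) (.ev (nat_lit 1456) (nat_lit 33554560)
 (.ev (nat_lit 2484) (nat_lit 16) (.fin (nat_lit 576466799628337727)))))))))) (.ch (nat_lit 6) (.ev (nat_lit
 1344) (nat_lit 33620112) (.ev (nat_lit 1664) (nat_lit 2) (.ev (nat_lit 2016) (nat_lit 32) (.ev (nat_lit 2484)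
 (nat_lit 2048) (.ev (nat_lit 2756) (nat_lit 8192) (.ev (nat_lit 2765) (nat_lit 1024) .dd))))))))))))))) (.ch
 (nat_lit 5) (.ev (nat_lit 52) (nat_lit 8593244416) (.ev (nat_lit 84) (nat_lit 16) (.ev (nat_lit 276) (nat_lit
 33554432) (.ev (nat_lit 404) (nat_lit 65536) (.nd (nat_lit 1328) (.br (nat_lit 3) (.br (nat_lit 1) (.ch
 (nat_lit 0) (.ev (nat_lit 1344) (nat_lit 264354) (.ev (nat_lit 1728) (nat_lit 1024) (.ev (nat_lit 2064)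
 (nat_lit 8192) (.ev (nat_lit 2484) (nat_lit 134217728) (.ev (nat_lit 2493) (nat_lit 536870912) .dd)))))) (.ch
 (nat_lit 1) (.ev (nat_lit 1344) (nat_lit 134489088) (.nd (nat_lit 1440) (.br (nat_lit 5) (.br (nat_lit 3) (.ch
 (nat_lit 0) (.ev (nat_lit 1456) (nat_lit 2208) (.ev (nat_lit 2512) (nat_lit 536870914) .dd))) (.ch (nat_lit 3)
 (.ev (nat_lit 1456) (nat_lit 536872960) (.ev (nat_lit 2148) (nat_lit 128) (.fin (nat_lit
 576462401583923775)))))) (.br (nat_lit 6) (.ch (nat_lit 5) (.ev (nat_lit 1456) (nat_lit 2176) (.ev (nat_lit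
 2160) (nat_lit 2) (.ev (nat_lit 2304) (nat_lit 32) (.ev (nat_lit 2317) (nat_lit 536870912) .dd))))) (.ch
 (nat_lit 6) (.ev (nat_lit 1456) (nat_lit 162) (.ev (nat_lit 1648) (nat_lit 2048) (.ev (nat_lit 1661) (nat_lit
 536870912) .dd)))))))))) (.br (nat_lit 6) (.ch (nat_lit 3) (.ev (nat_lit 1344) (nat_lit 671099906) (.ev
 (nat_lit 2230) (nat_lit 262304) .dd))) (.ch (nat_lit 6) (.ev (nat_lit 1344) (nat_lit 671090816) (.nd (nat_lit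
 1440) (.br (nat_lit 3) (.br (nat_lit 1) (.ch (nat_lit 0) (.ev (nat_lit 1456) (nat_lit 9248) (.ev (nat_lit
 2240) (nat_lit 262146) .dd))) (.ch (nat_lit 1) (.ev (nat_lit 1456) (nat_lit 263202) (.ev (nat_lit 1469)
 (nat_lit 8192) .dd)))) (.br (nat_lit 6) (.ch (nat_lit 3) (.ev (nat_lit 1456) (nat_lit 8192) (.ev (nat_lit
 1664) (nat_lit 1024) (.ev (nat_lit 2160) (nat_lit 2) (.ev (nat_lit 2326) (nat_lit 262176) .dd))))) (.ch
 (nat_lit 6) (.ev (nat_lit 1456) (nat_lit 1026) (.ev (nat_lit 1680) (nat_lit 8192) (.ev (nat_lit 2256) (nat_lit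
 32) (.ev (nat_lit 2269) (nat_lit 262144) .dd))))))))))))))))))) (.br (nat_lit 9) (.ch (nat_lit 6) (.ev
 (nat_lit 52) (nat_lit 170198274) (.ev (nat_lit 372) (nat_lit 131072) (.ev (nat_lit 1040) (nat_lit 8320) (.nd
 (nat_lit 1328) (.br (nat_lit 2) (.ch (nat_lit 0) (.ev (nat_lit 1344) (nat_lit 9127888928) (.ev (nat_lit 1357)
 (nat_lit 16) .dd))) (.br (nat_lit 6) (.ch (nat_lit 2) (.ev (nat_lit 1364) (nat_lit 16) (.nd (nat_lit 1440)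
 (.br (nat_lit 5) (.ch (nat_lit 1) (.ev (nat_lit 1456) (nat_lit 1083424) (.ev (nat_lit 1636) (nat_lit
 8589934592) (.ev (nat_lit 1645) (nat_lit 536870912) .dd)))) (.br (nat_lit 6) (.ch (nat_lit 5) (.ev (nat_lit
 1456) (nat_lit 8590983168) (.ev (nat_lit 1648) (nat_lit 32) (.ev (nat_lit 1696) (nat_lit 32768) (.ev (nat_lit
 1796) (nat_lit 2048) (.ev (nat_lit 1805) (nat_lit 536870912) .dd)))))) (.ch (nat_lit 6) (.ev (nat_lit 1456)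
 (nat_lit 9126807584) (.fin (nat_lit 576460202555425335))))))))) (.ch (nat_lit 6) (.ev (nat_lit 1344) (nat_lit
 9126838320) (.nd (nat_lit 1440) (.br (nat_lit 1) (.ch (nat_lit 0) (.ev (nat_lit 1456) (nat_lit 2048) (.ev
 (nat_lit 1469) (nat_lit 1048576) .dd))) (.br (nat_lit 5) (.ch (nat_lit 1) (.ev (nat_lit 1456) (nat_lit
 1050624) .dd)) (.ch (nat_lit 5) (.ev (nat_lit 1680) (nat_lit 1048576) (.ev (nat_lit 1693) (nat_lit 2048)
 .dd))))))))))))))) (.ch (nat_lit 9) (.ev (nat_lit 52) (nat_lit 135277584) (.ev (nat_lit 276) (nat_lit 256)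
 (.ev (nat_lit 416) (nat_lit 9162948770) .dd)))))) (.br (nat_lit 12) (.br (nat_lit 11) (.ch (nat_lit 10) (.ev
 (nat_lit 52) (nat_lit 8725203346) (.ev (nat_lit 116) (nat_lit 262144) (.ev (nat_lit 340) (nat_lit 32) (.ev
 (nat_lit 436) (nat_lit 536870912) (.nd (nat_lit 1328) (.br (nat_lit 2) (.br (nat_lit 1) (.ch (nat_lit 0) (.ev
 (nat_lit 1344) (nat_lit 2270208) (.ev (nat_lit 1392) (nat_lit 65536) (.ev (nat_lit 1405) (nat_lit 33554432)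
 .dd)))) (.ch (nat_lit 1) (.ev (nat_lit 1344) (nat_lit 35759104) (.ev (nat_lit 1357) (nat_lit 131072) .dd))))
 (.br (nat_lit 3) (.ch (nat_lit 2) (.ev (nat_lit 1344) (nat_lit 2301952) (.ev (nat_lit 2148) (nat_lit 33554432)
 (.ev (nat_lit 2496) (nat_lit 1024) (.ev (nat_lit 2509) (nat_lit 32768) .dd))))) (.br (nat_lit 6) (.ch (nat_lit
 3) (.ev (nat_lit 1344) (nat_lit 196608) (.nd (nat_lit 1440) (.br (nat_lit 3) (.br (nat_lit 1) (.ch (nat_lit 0)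
 (.ev (nat_lit 1456) (nat_lit 35684352) (.ev (nat_lit 2004) (nat_lit 8192) (.ev (nat_lit 2013) (nat_lit 1024)
 .dd)))) (.ch (nat_lit 1) (.ev (nat_lit 1456) (nat_lit 8192) (.ev (nat_lit 1796) (nat_lit 1024) (.ev (nat_lit
 2004) (nat_lit 2097152) (.ev (nat_lit 2208) (nat_lit 33554432) (.ev (nat_lit 2221) (nat_lit 32768) .dd)))))))
 (.br (nat_lit 5) (.ch (nat_lit 3) (.ev (nat_lit 1456) (nat_lit 9216) (.ev (nat_lit 1712) (nat_lit 2097152)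
 (.ev (nat_lit 2384) (nat_lit 32768) (.ev (nat_lit 2397) (nat_lit 33554432) .dd))))) (.ch (nat_lit 5) (.ev
 (nat_lit 1456) (nat_lit 2130944) (.ev (nat_lit 1712) (nat_lit 8192) (.ev (nat_lit 1725) (nat_lit 33554432)
 .dd))))))))) (.ch (nat_lit 6) (.ev (nat_lit 1344) (nat_lit 35750912) (.ev (nat_lit 1364) (nat_lit 131072) (.ev
 (nat_lit 1373) (nat_lit 8192) .dd))))))))))))) (.ch (nat_lit 11) (.ev (nat_lit 52) (nat_lit 9294578946) (.ev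
 (nat_lit 180) (nat_lit 16) (.ev (nat_lit 436) (nat_lit 131072) (.ev (nat_lit 1120) (nat_lit 128) (.nd (nat_lit
 1328) (.br (nat_lit 1) (.ch (nat_lit 0) (.ev (nat_lit 1344) (nat_lit 1148960) (.ev (nat_lit 1408) (nat_lit
 262144) (.ev (nat_lit 2004) (nat_lit 2097152) (.ev (nat_lit 2013) (nat_lit 8192) .dd))))) (.br (nat_lit 2)
 (.ch (nat_lit 1) (.ev (nat_lit 1344) (nat_lit 3448832) (.nd (nat_lit 1440) (.br (nat_lit 1) (.ch (nat_lit 0)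
 (.ev (nat_lit 1456) (nat_lit 2080) (.ev (nat_lit 1469) (nat_lit 65536) .dd))) (.br (nat_lit 3) (.ch (nat_lit
 1) (.ev (nat_lit 1456) (nat_lit 65536) (.ev (nat_lit 1472) (nat_lit 32) (.ev (nat_lit 1485) (nat_lit 2048)
 .dd)))) (.ch (nat_lit 3) (.ev (nat_lit 1456) (nat_lit 2048) (.ev (nat_lit 1504) (nat_lit 65568) .dd))))))))
 (.ch (nat_lit 2) (.ev (nat_lit 1344) (nat_lit 337920) (.nd (nat_lit 1440) (.br (nat_lit 5) (.ch (nat_lit 4)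
 (.ev (nat_lit 1456) (nat_lit 2129920) (.ev (nat_lit 1636) (nat_lit 32) (.ev (nat_lit 1645) (nat_lit 1048576)
 .dd)))) (.br (nat_lit 6) (.ch (nat_lit 5) (.ev (nat_lit 1456) (nat_lit 2129952) (.ev (nat_lit 1469) (nat_lit
 1048576) .dd))) (.ch (nat_lit 6) (.ev (nat_lit 1636) (nat_lit 32) (.ev (nat_lit 2048) (nat_lit 2097152) (.fin
 (nat_lit 576462401566097993))))))))))))))))))) (.br (nat_lit 15) (.ch (nat_lit 12) (.ev (nat_lit 52) (nat_lit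
 8592296192) (.ev (nat_lit 212) (nat_lit 16) (.ev (nat_lit 276) (nat_lit 536870912) (.ev (nat_lit 404) (nat_lit
 1024) (.ev (nat_lit 1008) (nat_lit 8192) (.ev (nat_lit 1312) (nat_lit 2) (.nd (nat_lit 1328) (.br (nat_lit 3)
 (.br (nat_lit 2) (.ch (nat_lit 1) (.ev (nat_lit 1344) (nat_lit 98336) (.ev (nat_lit 1796) (nat_lit 128) (.ev
 (nat_lit 2148) (nat_lit 131072) (.ev (nat_lit 2724) (nat_lit 1048576) (.nd (nat_lit 2944) (.br (nat_lit 1)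
 (.ch (nat_lit 0) (.fin (nat_lit 576466799628337734))) (.ch (nat_lit 1) (.ev (nat_lit 2960) (nat_lit 167772160)
 .dd))))))))) (.ch (nat_lit 2) (.ev (nat_lit 1344) (nat_lit 229376) (.ev (nat_lit 1636) (nat_lit 128) (.ev
 (nat_lit 2148) (nat_lit 33554432) (.ev (nat_lit 2288) (nat_lit 134217728) (.ev (nat_lit 2464) (nat_lit 32)
 (.ev (nat_lit 2477) (nat_lit 1048576) .dd)))))))) (.br (nat_lit 6) (.ch (nat_lit 3) (.ev (nat_lit 1344)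
 (nat_lit 135463040) (.ev (nat_lit 2148) (nat_lit 32768) (.ev (nat_lit 2496) (nat_lit 33554432) (.ev (nat_lit
 2509) (nat_lit 32) .dd))))) (.ch (nat_lit 6) (.ev (nat_lit 1344) (nat_lit 167936128) (.ev (nat_lit 1636)
 (nat_lit 65536) (.ev (nat_lit 2804) (nat_lit 32) (.ev (nat_lit 2813) (nat_lit 1048576) .dd))))))))))))))) (.ch
 (nat_lit 15) (.ev (nat_lit 52) (nat_lit 540319746) (.ev (nat_lit 436) (nat_lit 65536) (.ev (nat_lit 564)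
 (nat_lit 8590065664) (.nd (nat_lit 1328) (.br (nat_lit 2) (.ch (nat_lit 1) (.ev (nat_lit 1344) (nat_lit
 33555472) (.nd (nat_lit 1440) (.br (nat_lit 5) (.ch (nat_lit 0) (.ev (nat_lit 1456) (nat_lit 2208) (.ev
 (nat_lit 1712) (nat_lit 134217728) (.ev (nat_lit 1725) (nat_lit 256) .dd)))) (.br (nat_lit 6) (.ch (nat_lit 5)
 (.ev (nat_lit 1456) (nat_lit 2432) (.ev (nat_lit 1600) (nat_lit 134217760) .dd))) (.ch (nat_lit 6) (.ev
 (nat_lit 1456) (nat_lit 134218016) (.ev (nat_lit 2148) (nat_lit 128) (.ev (nat_lit 2157) (nat_lit 2048)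
 .dd))))))))) (.br (nat_lit 3) (.ch (nat_lit 2) (.nd (nat_lit 1440) (.br (nat_lit 5) (.ch (nat_lit 4) (.ev
 (nat_lit 1456) (nat_lit 134221056) (.ev (nat_lit 1616) (nat_lit 32) (.ev (nat_lit 2048) (nat_lit 33554432)
 (.ev (nat_lit 2484) (nat_lit 128) (.ev (nat_lit 2493) (nat_lit 16) .dd)))))) (.br (nat_lit 6) (.ch (nat_lit 5)
 (.ev (nat_lit 1456) (nat_lit 167772544) (.ev (nat_lit 1664) (nat_lit 1056) (.ev (nat_lit 1888) (nat_lit 2048)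
 (.ev (nat_lit 1901) (nat_lit 16) .dd))))) (.ch (nat_lit 6) (.ev (nat_lit 1456) (nat_lit 33554608) (.ev
 (nat_lit 1536) (nat_lit 1024) (.ev (nat_lit 1636) (nat_lit 134217728) (.ev (nat_lit 2048) (nat_lit 2048) (.ev
 (nat_lit 2061) (nat_lit 256) .dd)))))))))) (.ch (nat_lit 3) (.ev (nat_lit 1344) (nat_lit 134219808) (.nd
 (nat_lit 1440) (.br (nat_lit 5) (.ch (nat_lit 0) (.ev (nat_lit 1456) (nat_lit 400) (.ev (nat_lit 1520)
 (nat_lit 33555456) .dd))) (.br (nat_lit 6) (.ch (nat_lit 5) (.ev (nat_lit 1456) (nat_lit 1296) (.ev (nat_lit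
 1824) (nat_lit 33554432) (.ev (nat_lit 1837) (nat_lit 128) .dd)))) (.ch (nat_lit 6) (.ev (nat_lit 1456)
 (nat_lit 33555584) (.ev (nat_lit 2032) (nat_lit 272) .dd)))))))))))))))))) (.br (nat_lit 22) (.br (nat_lit 18)
 (.br (nat_lit 17) (.ch (nat_lit 16) (.ev (nat_lit 52) (nat_lit 9161408544) (.ev (nat_lit 84) (nat_lit 32768)
 (.ev (nat_lit 276) (nat_lit 134217728) (.ev (nat_lit 372) (nat_lit 65792) (.ev (nat_lit 500) (nat_lit 2) (.ev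
 (nat_lit 544) (nat_lit 2501776) .dd))))))) (.ch (nat_lit 17) (.ev (nat_lit 52) (nat_lit 539241600) (.ev
 (nat_lit 84) (nat_lit 32) (.ev (nat_lit 212) (nat_lit 32768) (.ev (nat_lit 512) (nat_lit 8758952210) .dd))))))
 (.br (nat_lit 21) (.ch (nat_lit 18) (.ev (nat_lit 52) (nat_lit 167905296) (.ev (nat_lit 84) (nat_lit 8192)
 (.ev (nat_lit 148) (nat_lit 128) (.ev (nat_lit 532) (nat_lit 1024) (.ev (nat_lit 628) (nat_lit 536870912) (.nd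
 (nat_lit 1328) (.br (nat_lit 2) (.br (nat_lit 1) (.ch (nat_lit 0) (.ev (nat_lit 1344) (nat_lit 1114402) (.ev
 (nat_lit 2592) (nat_lit 262144) (.ev (nat_lit 2608) (nat_lit 32768) (.nd (nat_lit 2976) (.br (nat_lit 6) (.ch
 (nat_lit 0) (.fin (nat_lit 576461302061810239))) (.ch (nat_lit 6) (.ev (nat_lit 2992) (nat_lit 8592031744)
 .dd)))))))) (.ch (nat_lit 1) (.ev (nat_lit 1344) (nat_lit 3440640) (.nd (nat_lit 1440) (.br (nat_lit 5) (.br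
 (nat_lit 3) (.ch (nat_lit 1) (.ev (nat_lit 1456) (nat_lit 65792) (.ev (nat_lit 2256) (nat_lit 32) (.ev
 (nat_lit 2352) (nat_lit 8589934594) .dd)))) (.ch (nat_lit 3) (.ev (nat_lit 1456) (nat_lit 8589934848) (.ev
 (nat_lit 2196) (nat_lit 65536) (.fin (nat_lit 576462401583923775)))))) (.br (nat_lit 6) (.ch (nat_lit 5) (.ev
 (nat_lit 1456) (nat_lit 288) (.ev (nat_lit 1636) (nat_lit 8589934592) (.ev (nat_lit 2580) (nat_lit 65536) (.ev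
 (nat_lit 2589) (nat_lit 2) .dd))))) (.ch (nat_lit 6) (.ev (nat_lit 1456) (nat_lit 8590000162) (.ev (nat_lit
 1469) (nat_lit 256) .dd))))))))) (.br (nat_lit 3) (.ch (nat_lit 2) (.ev (nat_lit 1344) (nat_lit 8590295298)
 (.ev (nat_lit 2004) (nat_lit 1048576) (.ev (nat_lit 2404) (nat_lit 2097152) (.ev (nat_lit 2413) (nat_lit 32)
 .dd))))) (.ch (nat_lit 3) (.ev (nat_lit 1344) (nat_lit 1114112) (.nd (nat_lit 1440) (.br (nat_lit 3) (.br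
 (nat_lit 1) (.ch (nat_lit 0) (.ev (nat_lit 1456) (nat_lit 8592064802) (.ev (nat_lit 1469) (nat_lit 262144)
 .dd))) (.ch (nat_lit 1) (.ev (nat_lit 1456) (nat_lit 8590229794) (.ev (nat_lit 1469) (nat_lit 2097152) .dd))))
 (.br (nat_lit 5) (.ch (nat_lit 3) (.ev (nat_lit 1456) (nat_lit 256) (.ev (nat_lit 1808) (nat_lit 294912) (.ev
 (nat_lit 2160) (nat_lit 32) (.ev (nat_lit 2288) (nat_lit 2) (.ev (nat_lit 2372) (nat_lit 2097152) (.ev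
 (nat_lit 2381) (nat_lit 8589934592) .dd))))))) (.br (nat_lit 6) (.ch (nat_lit 5) (.ev (nat_lit 1456) (nat_lit
 2392322) (.ev (nat_lit 2032) (nat_lit 8589934624) .dd))) (.ch (nat_lit 6) (.ev (nat_lit 1456) (nat_lit
 8592293920) (.ev (nat_lit 1636) (nat_lit 256) (.ev (nat_lit 2032) (nat_lit 32770) .dd))))))))))))))))))) (.ch
 (nat_lit 21) (.ev (nat_lit 52) (nat_lit 73890) (.ev (nat_lit 180) (nat_lit 262144) (.ev (nat_lit 404) (nat_lit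
 33554688) (.ev (nat_lit 436) (nat_lit 134217728) (.nd (nat_lit 1328) (.br (nat_lit 3) (.br (nat_lit 2) (.ch
 (nat_lit 0) (.ev (nat_lit 1344) (nat_lit 1215488) (.ev (nat_lit 2160) (nat_lit 16) (.ev (nat_lit 2176)
 (nat_lit 536870912) (.nd (nat_lit 2912) (.br (nat_lit 4) (.ch (nat_lit 0) (.fin (nat_lit 576461302061810239)))
 (.ch (nat_lit 4) (.ev (nat_lit 2928) (nat_lit 8592031744) .dd)))))))) (.ch (nat_lit 2) (.ev (nat_lit 1344)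
 (nat_lit 1179648) (.ev (nat_lit 1636) (nat_lit 32768) (.ev (nat_lit 2032) (nat_lit 16) (.ev (nat_lit 2148)
 (nat_lit 8589934592) (.ev (nat_lit 2464) (nat_lit 536871936) (.ev (nat_lit 2646) (nat_lit 2099200) .dd))))))))
 (.br (nat_lit 6) (.ch (nat_lit 3) (.ev (nat_lit 1344) (nat_lit 539099152) (.nd (nat_lit 1440) (.br (nat_lit 5)
 (.br (nat_lit 1) (.ch (nat_lit 0) (.ev (nat_lit 1456) (nat_lit 1081344) (.ev (nat_lit 2288) (nat_lit 2048)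
 (.ev (nat_lit 2660) (nat_lit 8589934592) (.ev (nat_lit 2669) (nat_lit 1024) .dd))))) (.ch (nat_lit 1) (.ev
 (nat_lit 1456) (nat_lit 8590986240) (.ev (nat_lit 1469) (nat_lit 32768) .dd)))) (.br (nat_lit 6) (.ch (nat_lit
 5) (.ev (nat_lit 1456) (nat_lit 33792) (.ev (nat_lit 2004) (nat_lit 1048576) (.ev (nat_lit 2160) (nat_lit
 8589934592) (.ev (nat_lit 2173) (nat_lit 2048) .dd))))) (.ch (nat_lit 6) (.ev (nat_lit 1456) (nat_lit
 8589967360) (.ev (nat_lit 2148) (nat_lit 1048576) (.fin (nat_lit 576466799628337727)))))))))) (.ch (nat_lit 6)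
 (.ev (nat_lit 1344) (nat_lit 9127888912) (.ev (nat_lit 2004) (nat_lit 131072) (.ev (nat_lit 2080) (nat_lit
 1024) (.ev (nat_lit 2093) (nat_lit 2097152) .dd))))))))))))))) (.br (nat_lit 26) (.br (nat_lit 24) (.ch
 (nat_lit 22) (.ev (nat_lit 52) (nat_lit 8761122978) (.ev (nat_lit 340) (nat_lit 2048) (.ev (nat_lit 768)
 (nat_lit 33024) (.ev (nat_lit 1168) (nat_lit 16) (.nd (nat_lit 1328) (.br (nat_lit 3) (.ch (nat_lit 2) (.ev
 (nat_lit 1344) (nat_lit 537068544) .dd)) (.br (nat_lit 6) (.ch (nat_lit 3) (.ev (nat_lit 1344) (nat_lit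
 196608) (.ev (nat_lit 1376) (nat_lit 536870912) (.ev (nat_lit 1389) (nat_lit 1024) .dd)))) (.ch (nat_lit 6)
 (.ev (nat_lit 1344) (nat_lit 536870912) (.nd (nat_lit 1440) (.br (nat_lit 3) (.ch (nat_lit 0) (.ev (nat_lit
 1636) (nat_lit 1024) (.ev (nat_lit 1796) (nat_lit 65536) (.ev (nat_lit 1805) (nat_lit 131072) .dd)))) (.br
 (nat_lit 5) (.ch (nat_lit 3) (.ev (nat_lit 1456) (nat_lit 1024) (.ev (nat_lit 2004) (nat_lit 65536) (.ev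
 (nat_lit 2013) (nat_lit 131072) .dd)))) (.ch (nat_lit 5) (.ev (nat_lit 1456) (nat_lit 132096) (.ev (nat_lit
 1469) (nat_lit 65536) .dd)))))))))))))))) (.ch (nat_lit 24) (.ev (nat_lit 52) (nat_lit 540082560) (.ev
 (nat_lit 116) (nat_lit 8192) (.ev (nat_lit 148) (nat_lit 262144) (.ev (nat_lit 372) (nat_lit 1024) (.ev
 (nat_lit 468) (nat_lit 2) (.ev (nat_lit 576) (nat_lit 8757872688) .dd)))))))) (.br (nat_lit 28) (.ch (nat_lit
 26) (.ev (nat_lit 52) (nat_lit 571509794) (.ev (nat_lit 340) (nat_lit 128) (.ev (nat_lit 436) (nat_lit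
 8589934592) (.ev (nat_lit 532) (nat_lit 131072) (.ev (nat_lit 596) (nat_lit 2097152) (.ev (nat_lit 656)
 (nat_lit 270336) (.nd (nat_lit 1328) (.br (nat_lit 1) (.ch (nat_lit 0) (.ev (nat_lit 1344) (nat_lit 256) (.nd
 (nat_lit 1440) (.br (nat_lit 6) (.ch (nat_lit 4) (.ev (nat_lit 1456) (nat_lit 65552) (.ev (nat_lit 1469)
 (nat_lit 134217728) .dd))) (.ch (nat_lit 6) (.ev (nat_lit 1456) (nat_lit 134217728) (.ev (nat_lit 1488)
 (nat_lit 16) (.ev (nat_lit 1501) (nat_lit 65536) .dd)))))))) (.br (nat_lit 3) (.ch (nat_lit 1) (.ev (nat_lit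
 1344) (nat_lit 65552) (.nd (nat_lit 1440) (.br (nat_lit 1) (.ch (nat_lit 0) (.ev (nat_lit 1456) (nat_lit 256)
 (.ev (nat_lit 1469) (nat_lit 134217728) .dd))) (.ch (nat_lit 1) (.ev (nat_lit 1488) (nat_lit 256) (.ev
 (nat_lit 1501) (nat_lit 134217728) .dd))))))) (.ch (nat_lit 3) (.ev (nat_lit 1344) (nat_lit 134283264) (.nd
 (nat_lit 1440) (.br (nat_lit 3) (.ch (nat_lit 1) (.ev (nat_lit 1456) (nat_lit 16) (.ev (nat_lit 1469) (nat_lit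
 256) .dd))) (.ch (nat_lit 3) (.ev (nat_lit 1456) (nat_lit 256) (.ev (nat_lit 1469) (nat_lit 16)
 .dd))))))))))))))))) (.br (nat_lit 29) (.ch (nat_lit 28) (.ev (nat_lit 52) (nat_lit 3637266) (.ev (nat_lit
 212) (nat_lit 32) (.ev (nat_lit 308) (nat_lit 128) (.ev (nat_lit 404) (nat_lit 134217728) (.ev (nat_lit 468)
 (nat_lit 33554432) (.ev (nat_lit 608) (nat_lit 9126817024) .dd))))))) (.ch (nat_lit 29) (.ev (nat_lit 52)
 (nat_lit 9160655120) (.ev (nat_lit 180) (nat_lit 2048) (.ev (nat_lit 404) (nat_lit 2097152) (.ev (nat_lit 944)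
 (nat_lit 1048578) (.nd (nat_lit 1328) (.br (nat_lit 3) (.ch (nat_lit 2) (.ev (nat_lit 1344) (nat_lit 204960)
 (.ev (nat_lit 1584) (nat_lit 1024) (.ev (nat_lit 1597) (nat_lit 134217728) .dd)))) (.br (nat_lit 6) (.ch
 (nat_lit 3) (.ev (nat_lit 1344) (nat_lit 134414336) (.nd (nat_lit 1440) (.br (nat_lit 3) (.ch (nat_lit 0) (.ev
 (nat_lit 1456) (nat_lit 8224) (.ev (nat_lit 1696) (nat_lit 1152) .dd))) (.ch (nat_lit 3) (.ev (nat_lit 1636)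
 (nat_lit 1024) (.ev (nat_lit 1968) (nat_lit 32) (.fin (nat_lit 576455804496331319))))))))) (.ch (nat_lit 6)
 (.ev (nat_lit 1344) (nat_lit 134227072) (.nd (nat_lit 1440) (.br (nat_lit 5) (.ch (nat_lit 0) (.ev (nat_lit
 2016) (nat_lit 32) (.ev (nat_lit 2176) (nat_lit 131072) (.ev (nat_lit 2189) (nat_lit 65536) .dd)))) (.ch
 (nat_lit 5) (.ev (nat_lit 1456) (nat_lit 32) (.ev (nat_lit 2532) (nat_lit 131072) (.ev (nat_lit 2541) (nat_lit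
 65536) .dd))))))))))))))))))))) (.br (nat_lit 42) (.br (nat_lit 38) (.br (nat_lit 36) (.br (nat_lit 33) (.ch
 (nat_lit 31) (.ev (nat_lit 52) (nat_lit 232464) (.ev (nat_lit 308) (nat_lit 8224) (.ev (nat_lit 340) (nat_lit
 262144) (.ev (nat_lit 500) (nat_lit 2097152) (.ev (nat_lit 564) (nat_lit 33554432) (.ev (nat_lit 640) (nat_lit
 384) (.ev (nat_lit 1232) (nat_lit 134217728) (.nd (nat_lit 1328) (.br (nat_lit 3) (.ch (nat_lit 0) (.ev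
 (nat_lit 1344) (nat_lit 1048578) (.ev (nat_lit 1376) (nat_lit 536870912) (.ev (nat_lit 1389) (nat_lit
 8589934592) .dd)))) (.br (nat_lit 6) (.ch (nat_lit 3) (.ev (nat_lit 1344) (nat_lit 536870912) (.ev (nat_lit
 2048) (nat_lit 8589934592) (.ev (nat_lit 2432) (nat_lit 2) (.ev (nat_lit 2445) (nat_lit 1048576) .dd))))) (.ch
 (nat_lit 6) (.ev (nat_lit 1344) (nat_lit 9127854082) .dd))))))))))))) (.ch (nat_lit 33) (.ev (nat_lit 52)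
 (nat_lit 9261056130) (.ev (nat_lit 352) (nat_lit 37170480) .dd)))) (.br (nat_lit 37) (.ch (nat_lit 36) (.ev
 (nat_lit 52) (nat_lit 2138160) (.ev (nat_lit 84) (nat_lit 128) (.ev (nat_lit 148) (nat_lit 2048) (.ev (nat_lit
 372) (nat_lit 33554432) (.ev (nat_lit 468) (nat_lit 8589934592) (.ev (nat_lit 532) (nat_lit 134217728) (.ev
 (nat_lit 596) (nat_lit 1024) (.nd (nat_lit 1328) (.br (nat_lit 2) (.br (nat_lit 1) (.ch (nat_lit 0) (.ev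
 (nat_lit 1344) (nat_lit 538050818) (.ev (nat_lit 1392) (nat_lit 65536) (.ev (nat_lit 1405) (nat_lit 262144)
 .dd)))) (.ch (nat_lit 1) (.ev (nat_lit 1344) (nat_lit 538247426) (.ev (nat_lit 1357) (nat_lit 131072) .dd))))
 (.br (nat_lit 3) (.ch (nat_lit 2) (.ev (nat_lit 1344) (nat_lit 1245186) (.ev (nat_lit 2196) (nat_lit 262144)
 (.ev (nat_lit 2784) (nat_lit 536870912) (.ev (nat_lit 2797) (nat_lit 256) .dd))))) (.br (nat_lit 6) (.ch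
 (nat_lit 3) (.ev (nat_lit 1344) (nat_lit 196608) (.nd (nat_lit 1440) (.br (nat_lit 5) (.br (nat_lit 3) (.ch
 (nat_lit 1) (.ev (nat_lit 1456) (nat_lit 537919488) (.ev (nat_lit 1712) (nat_lit 2) (.ev (nat_lit 2580)
 (nat_lit 262144) (.ev (nat_lit 2589) (nat_lit 256) .dd))))) (.ch (nat_lit 3) (.ev (nat_lit 1456) (nat_lit
 536871170) (.ev (nat_lit 1712) (nat_lit 1048576) (.ev (nat_lit 1725) (nat_lit 262144) .dd))))) (.br (nat_lit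
 6) (.ch (nat_lit 5) (.ev (nat_lit 1456) (nat_lit 262402) (.ev (nat_lit 2016) (nat_lit 1048576) (.ev (nat_lit
 2029) (nat_lit 536870912) .dd)))) (.ch (nat_lit 6) (.ev (nat_lit 1456) (nat_lit 1048576) (.ev (nat_lit 2004)
 (nat_lit 2) (.ev (nat_lit 2160) (nat_lit 536870912) (.ev (nat_lit 2404) (nat_lit 256) (.ev (nat_lit 2413)
 (nat_lit 262144) .dd))))))))))) (.ch (nat_lit 6) (.ev (nat_lit 1344) (nat_lit 537198850) (.ev (nat_lit 1364)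
 (nat_lit 131072) (.ev (nat_lit 1373) (nat_lit 1048576) .dd)))))))))))))))) (.ch (nat_lit 37) (.ev (nat_lit 52)
 (nat_lit 8590010400) (.ev (nat_lit 256) (nat_lit 708216210) .dd))))) (.br (nat_lit 40) (.br (nat_lit 39) (.ch
 (nat_lit 38) (.ev (nat_lit 52) (nat_lit 8592296208) (.ev (nat_lit 148) (nat_lit 8192) (.ev (nat_lit 468)
 (nat_lit 66560) (.ev (nat_lit 596) (nat_lit 131072) (.ev (nat_lit 628) (nat_lit 33554432) (.ev (nat_lit 1248)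
 (nat_lit 134217728) (.nd (nat_lit 1328) (.br (nat_lit 1) (.ch (nat_lit 0) (.ev (nat_lit 1344) (nat_lit
 537919650) (.ev (nat_lit 1357) (nat_lit 32768) .dd))) (.br (nat_lit 3) (.ch (nat_lit 1) (.ev (nat_lit 1344)
 (nat_lit 32896) (.nd (nat_lit 1440) (.br (nat_lit 1) (.ch (nat_lit 0) (.ev (nat_lit 1456) (nat_lit 537919522)
 .dd)) (.br (nat_lit 5) (.ch (nat_lit 1) (.ev (nat_lit 1456) (nat_lit 537919488) (.ev (nat_lit 1824) (nat_lit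
 34) .dd))) (.ch (nat_lit 5) (.ev (nat_lit 1456) (nat_lit 32) (.ev (nat_lit 1472) (nat_lit 1048576) (.ev
 (nat_lit 1520) (nat_lit 536870912) (.ev (nat_lit 1533) (nat_lit 2) .dd)))))))))) (.ch (nat_lit 3) (.ev
 (nat_lit 1344) (nat_lit 537919488) (.nd (nat_lit 1440) (.br (nat_lit 1) (.ch (nat_lit 0) (.ev (nat_lit 1456)
 (nat_lit 32770) (.ev (nat_lit 1584) (nat_lit 128) (.ev (nat_lit 1597) (nat_lit 32) .dd)))) (.br (nat_lit 3)
 (.ch (nat_lit 1) (.ev (nat_lit 1456) (nat_lit 32802) (.ev (nat_lit 1469) (nat_lit 128) .dd))) (.ch (nat_lit 3)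
 (.ev (nat_lit 1456) (nat_lit 160) (.ev (nat_lit 1536) (nat_lit 2) (.ev (nat_lit 1549) (nat_lit 32768)
 .dd))))))))))))))))))) (.ch (nat_lit 39) (.ev (nat_lit 52) (nat_lit 671352960) (.ev (nat_lit 116) (nat_lit 16)
 (.ev (nat_lit 384) (nat_lit 8626873634) .dd))))) (.br (nat_lit 41) (.ch (nat_lit 40) (.ev (nat_lit 52)
 (nat_lit 8725659696) (.ev (nat_lit 436) (nat_lit 2097152) (.ev (nat_lit 832) (nat_lit 33792) (.nd (nat_lit
 1328) (.br (nat_lit 2) (.ch (nat_lit 1) (.ev (nat_lit 1344) (nat_lit 10240) (.ev (nat_lit 1636) (nat_lit 2)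
 (.ev (nat_lit 1648) (nat_lit 33554432) (.ev (nat_lit 2016) (nat_lit 256) (.ev (nat_lit 2496) (nat_lit
 536871040) .dd)))))) (.br (nat_lit 3) (.ch (nat_lit 2) (.ev (nat_lit 1344) (nat_lit 570435586) (.ev (nat_lit
 2032) (nat_lit 128) (.ev (nat_lit 2045) (nat_lit 256) .dd)))) (.ch (nat_lit 3) (.nd (nat_lit 1440) (.br
 (nat_lit 3) (.ch (nat_lit 0) (.ev (nat_lit 1456) (nat_lit 536873090) (.ev (nat_lit 1616) (nat_lit 33554432)
 (.ev (nat_lit 1796) (nat_lit 256) (.ev (nat_lit 1805) (nat_lit 8192) .dd))))) (.br (nat_lit 5) (.ch (nat_lit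
 3) (.ev (nat_lit 1456) (nat_lit 33554688) (.ev (nat_lit 1636) (nat_lit 2) (.ev (nat_lit 1808) (nat_lit 2048)
 (.ev (nat_lit 2048) (nat_lit 536870912) (.fin (nat_lit 576466799625192009))))))) (.ch (nat_lit 5) (.ev
 (nat_lit 1456) (nat_lit 386) (.ev (nat_lit 1664) (nat_lit 33554432) (.ev (nat_lit 1776) (nat_lit 2048) (.ev
 (nat_lit 1888) (nat_lit 536870912) (.ev (nat_lit 1901) (nat_lit 8192) .dd))))))))))))))))) (.ch (nat_lit 41)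
 (.ev (nat_lit 52) (nat_lit 66946) (.ev (nat_lit 84) (nat_lit 1048576) (.ev (nat_lit 244) (nat_lit 32) (.ev
 (nat_lit 276) (nat_lit 131072) (.ev (nat_lit 308) (nat_lit 32768) (.ev (nat_lit 340) (nat_lit 8192) (.nd
 (nat_lit 1328) (.br (nat_lit 2) (.ch (nat_lit 1) (.ev (nat_lit 1344) (nat_lit 539230224) (.ev (nat_lit 1428)
 (nat_lit 33554432) (.ev (nat_lit 1636) (nat_lit 2048) (.ev (nat_lit 1840) (nat_lit 8589934592) (.ev (nat_lit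
 1853) (nat_lit 134217728) .dd)))))) (.br (nat_lit 6) (.ch (nat_lit 2) (.ev (nat_lit 1344) (nat_lit 8589936640)
 (.nd (nat_lit 1440) (.br (nat_lit 4) (.ch (nat_lit 0) (.ev (nat_lit 1456) (nat_lit 706740224) (.fin (nat_lit
 576462401573438018)))) (.br (nat_lit 6) (.ch (nat_lit 4) (.ev (nat_lit 1456) (nat_lit 673447952) (.ev (nat_lit
 1469) (nat_lit 33554432) .dd))) (.ch (nat_lit 6) (.ev (nat_lit 1456) (nat_lit 33816576) (.ev (nat_lit 1536)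
 (nat_lit 671088640) (.ev (nat_lit 1664) (nat_lit 16) (.ev (nat_lit 1677) (nat_lit 2097152) .dd)))))))))) (.ch
 (nat_lit 6) (.ev (nat_lit 1344) (nat_lit 9294579728) (.ev (nat_lit 1648) (nat_lit 262144) (.ev (nat_lit 1661)
 (nat_lit 2097152) .dd))))))))))))))))) (.br (nat_lit 47) (.br (nat_lit 44) (.br (nat_lit 43) (.ch (nat_lit 42)
 (.ev (nat_lit 52) (nat_lit 458786) (.ev (nat_lit 340) (nat_lit 16) (.ev (nat_lit 404) (nat_lit 8589934592)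
 (.ev (nat_lit 628) (nat_lit 2097152) (.ev (nat_lit 1184) (nat_lit 1048576) (.nd (nat_lit 1328) (.br (nat_lit
 2) (.br (nat_lit 1) (.ch (nat_lit 0) (.ev (nat_lit 1344) (nat_lit 536881536) (.ev (nat_lit 1428) (nat_lit
 1024) (.ev (nat_lit 2240) (nat_lit 134217728) (.ev (nat_lit 2336) (nat_lit 32768) (.ev (nat_lit 2349) (nat_lit
 33554432) .dd)))))) (.ch (nat_lit 1) (.ev (nat_lit 1344) (nat_lit 42112) (.nd (nat_lit 1440) (.br (nat_lit 3)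
 (.br (nat_lit 1) (.ch (nat_lit 0) (.ev (nat_lit 1456) (nat_lit 536873216) (.fin (nat_lit
 576466799628337734)))) (.ch (nat_lit 1) (.ev (nat_lit 1456) (nat_lit 570427392) (.ev (nat_lit 2372) (nat_lit
 134217728) (.ev (nat_lit 2381) (nat_lit 256) .dd))))) (.br (nat_lit 6) (.ch (nat_lit 3) (.ev (nat_lit 1456)
 (nat_lit 167772416) (.ev (nat_lit 1744) (nat_lit 536870912) (.ev (nat_lit 1757) (nat_lit 2048) .dd)))) (.ch
 (nat_lit 6) (.ev (nat_lit 1456) (nat_lit 2048) (.ev (nat_lit 2004) (nat_lit 536870912) (.ev (nat_lit 2484)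
 (nat_lit 33554432) (.ev (nat_lit 2628) (nat_lit 256) (.ev (nat_lit 2637) (nat_lit 134217728) .dd))))))))))))
 (.br (nat_lit 6) (.ch (nat_lit 2) (.ev (nat_lit 1344) (nat_lit 671098880) (.ev (nat_lit 2160) (nat_lit 128)
 (.ev (nat_lit 2404) (nat_lit 1024) (.ev (nat_lit 2484) (nat_lit 32768) (.ev (nat_lit 2772) (nat_lit 33554432)
 (.ev (nat_lit 2781) (nat_lit 256) .dd))))))) (.ch (nat_lit 6) (.ev (nat_lit 1344) (nat_lit 704676224) (.nd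
 (nat_lit 1440) (.br (nat_lit 3) (.ch (nat_lit 0) (.ev (nat_lit 1456) (nat_lit 1024) (.ev (nat_lit 1536)
 (nat_lit 8192) (.ev (nat_lit 1549) (nat_lit 2048) .dd)))) (.br (nat_lit 5) (.ch (nat_lit 3) (.ev (nat_lit
 1456) (nat_lit 10240) (.ev (nat_lit 1469) (nat_lit 1024) .dd))) (.ch (nat_lit 5) (.ev (nat_lit 1680) (nat_lit
 8192) (.ev (nat_lit 2064) (nat_lit 1024) (.ev (nat_lit 2077) (nat_lit 2048) .dd)))))))))))))))))) (.ch
 (nat_lit 43) (.ev (nat_lit 52) (nat_lit 537954688) (.ev (nat_lit 212) (nat_lit 8192) (.ev (nat_lit 276)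
 (nat_lit 1024) (.ev (nat_lit 468) (nat_lit 131072) (.ev (nat_lit 532) (nat_lit 2) (.nd (nat_lit 1328) (.br
 (nat_lit 2) (.ch (nat_lit 0) (.ev (nat_lit 1344) (nat_lit 8590196784) (.ev (nat_lit 1428) (nat_lit 2097152)
 (.ev (nat_lit 1636) (nat_lit 65536) (.ev (nat_lit 1808) (nat_lit 167772160) .dd))))) (.br (nat_lit 3) (.ch
 (nat_lit 2) (.ev (nat_lit 1344) (nat_lit 134283264) (.nd (nat_lit 1440) (.br (nat_lit 1) (.ch (nat_lit 0) (.ev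
 (nat_lit 1456) (nat_lit 8625586208) (.fin (nat_lit 576462401573438018)))) (.br (nat_lit 5) (.ch (nat_lit 1)
 (.ev (nat_lit 1456) (nat_lit 8623751216) (.ev (nat_lit 1469) (nat_lit 2097152) .dd))) (.ch (nat_lit 5) (.ev
 (nat_lit 1456) (nat_lit 2359296) (.ev (nat_lit 1504) (nat_lit 32) (.ev (nat_lit 1536) (nat_lit 33554432) (.ev
 (nat_lit 1664) (nat_lit 16) (.ev (nat_lit 1677) (nat_lit 8589934592) .dd))))))))))) (.ch (nat_lit 3) (.ev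
 (nat_lit 1344) (nat_lit 169934896) (.nd (nat_lit 1440) (.br (nat_lit 3) (.ch (nat_lit 0) (.ev (nat_lit 1648)
 (nat_lit 262144) (.ev (nat_lit 1661) (nat_lit 8589934592) .dd))) (.br (nat_lit 6) (.ch (nat_lit 3) (.ev
 (nat_lit 1456) (nat_lit 8589934592) (.ev (nat_lit 1469) (nat_lit 262144) .dd))) (.ch (nat_lit 6) (.ev (nat_lit
 1456) (nat_lit 8590196736) .dd))))))))))))))))) (.br (nat_lit 46) (.ch (nat_lit 44) (.ev (nat_lit 52) (nat_lit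
 673186178) (.ev (nat_lit 148) (nat_lit 32) (.ev (nat_lit 212) (nat_lit 262144) (.ev (nat_lit 308) (nat_lit 16)
 (.ev (nat_lit 372) (nat_lit 8589934592) (.ev (nat_lit 404) (nat_lit 131072) (.ev (nat_lit 1024) (nat_lit
 33554432) (.nd (nat_lit 1328) (.br (nat_lit 2) (.ch (nat_lit 0) (.ev (nat_lit 1344) (nat_lit 1051648) (.nd
 (nat_lit 1440) (.br (nat_lit 6) (.ch (nat_lit 4) (.ev (nat_lit 1456) (nat_lit 65536) (.ev (nat_lit 1648)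
 (nat_lit 40960) .dd))) (.ch (nat_lit 6) (.ev (nat_lit 1456) (nat_lit 32768) (.ev (nat_lit 1680) (nat_lit
 65536) (.ev (nat_lit 1693) (nat_lit 8192) .dd)))))))) (.br (nat_lit 6) (.ch (nat_lit 2) (.ev (nat_lit 1344)
 (nat_lit 1124352) (.nd (nat_lit 1440) (.br (nat_lit 6) (.ch (nat_lit 5) (.ev (nat_lit 1456) (nat_lit 32768)
 (.ev (nat_lit 1469) (nat_lit 1024) .dd))) (.ch (nat_lit 6) (.ev (nat_lit 1824) (nat_lit 33792) .dd)))))) (.ch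
 (nat_lit 6) (.ev (nat_lit 1344) (nat_lit 98304) (.nd (nat_lit 1440) (.br (nat_lit 1) (.ch (nat_lit 0) (.ev
 (nat_lit 1552) (nat_lit 8192) (.ev (nat_lit 1920) (nat_lit 1048576) (.ev (nat_lit 2096) (nat_lit 3072) .dd))))
 (.ch (nat_lit 1) (.ev (nat_lit 1456) (nat_lit 3072) (.ev (nat_lit 1872) (nat_lit 1056768)
 .dd)))))))))))))))))) (.ch (nat_lit 46) (.ev (nat_lit 52) (nat_lit 540017920) (.ev (nat_lit 148) (nat_lit
 32768) (.ev (nat_lit 180) (nat_lit 128) (.ev (nat_lit 244) (nat_lit 16) (.ev (nat_lit 276) (nat_lit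
 8589934592) (.ev (nat_lit 532) (nat_lit 65536) (.nd (nat_lit 1328) (.br (nat_lit 2) (.br (nat_lit 1) (.ch
 (nat_lit 0) (.ev (nat_lit 1344) (nat_lit 133154) (.nd (nat_lit 1440) (.br (nat_lit 4) (.br (nat_lit 1) (.ch
 (nat_lit 0) (.ev (nat_lit 1456) (nat_lit 168042496) .dd)) (.ch (nat_lit 1) (.ev (nat_lit 1456) (nat_lit
 134488064) (.ev (nat_lit 1469) (nat_lit 33554432) .dd)))) (.br (nat_lit 6) (.ch (nat_lit 4) (.ev (nat_lit
 1456) (nat_lit 33816576) (.ev (nat_lit 1636) (nat_lit 134217728) (.ev (nat_lit 1645) (nat_lit 8192) .dd))))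
 (.ch (nat_lit 6) (.ev (nat_lit 1456) (nat_lit 134217728) (.ev (nat_lit 1856) (nat_lit 262144) (.ev (nat_lit
 2004) (nat_lit 33554432) (.ev (nat_lit 2013) (nat_lit 8192) .dd)))))))))) (.ch (nat_lit 1) (.ev (nat_lit 1344)
 (nat_lit 272386) (.ev (nat_lit 1664) (nat_lit 33554432) (.ev (nat_lit 1744) (nat_lit 134217728) (.ev (nat_lit
 2484) (nat_lit 32) (.ev (nat_lit 2493) (nat_lit 131072) .dd))))))) (.br (nat_lit 6) (.ch (nat_lit 2) (.ev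
 (nat_lit 1344) (nat_lit 168173570) (.ev (nat_lit 1636) (nat_lit 2048) (.ev (nat_lit 1645) (nat_lit 32) .dd))))
 (.ch (nat_lit 6) (.ev (nat_lit 1344) (nat_lit 167913504) (.ev (nat_lit 1636) (nat_lit 2) (.ev (nat_lit 1645)
 (nat_lit 262144) .dd)))))))))))))))) (.br (nat_lit 49) (.br (nat_lit 48) (.ch (nat_lit 47) (.ev (nat_lit 52)
 (nat_lit 570690816) (.ev (nat_lit 244) (nat_lit 32768) (.ev (nat_lit 276) (nat_lit 2) (.ev (nat_lit 480)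
 (nat_lit 8727503024) .dd))))) (.ch (nat_lit 48) (.ev (nat_lit 52) (nat_lit 167936272) (.ev (nat_lit 84)
 (nat_lit 2048) (.ev (nat_lit 116) (nat_lit 1048576) (.ev (nat_lit 436) (nat_lit 1024) (.ev (nat_lit 500)
 (nat_lit 8590000128) (.ev (nat_lit 912) (nat_lit 8192) (.nd (nat_lit 1328) (.br (nat_lit 2) (.ch (nat_lit 1)
 (.ev (nat_lit 1344) (nat_lit 539230240) (.nd (nat_lit 1440) (.br (nat_lit 3) (.ch (nat_lit 0) (.ev (nat_lit
 1456) (nat_lit 128) (.ev (nat_lit 1469) (nat_lit 2) .dd))) (.ch (nat_lit 3) (.ev (nat_lit 1796) (nat_lit 2)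
 (.ev (nat_lit 1805) (nat_lit 128) .dd))))))) (.br (nat_lit 6) (.ch (nat_lit 2) (.ev (nat_lit 1344) (nat_lit
 2359298) (.nd (nat_lit 1440) (.br (nat_lit 6) (.ch (nat_lit 0) (.ev (nat_lit 1456) (nat_lit 536870912) (.ev
 (nat_lit 1648) (nat_lit 160) .dd))) (.ch (nat_lit 6) (.ev (nat_lit 1456) (nat_lit 128) (.ev (nat_lit 1636)
 (nat_lit 536870912) (.ev (nat_lit 1645) (nat_lit 32) .dd)))))))) (.ch (nat_lit 6) (.ev (nat_lit 1344) (nat_lit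
 536871040) (.nd (nat_lit 1440) (.br (nat_lit 3) (.ch (nat_lit 0) (.ev (nat_lit 1552) (nat_lit 2097184) (.ev
 (nat_lit 1600) (nat_lit 262146) .dd))) (.ch (nat_lit 3) (.ev (nat_lit 1456) (nat_lit 2097154) (.ev (nat_lit
 1840) (nat_lit 262176) .dd)))))))))))))))))) (.br (nat_lit 50) (.ch (nat_lit 49) (.ev (nat_lit 52) (nat_lit
 8593190144) (.ev (nat_lit 116) (nat_lit 32) (.ev (nat_lit 468) (nat_lit 134217728) (.ev (nat_lit 596) (nat_lit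
 2) (.ev (nat_lit 816) (nat_lit 144) (.nd (nat_lit 1328) (.br (nat_lit 3) (.ch (nat_lit 1) (.ev (nat_lit 1344)
 (nat_lit 262144) (.nd (nat_lit 1440) (.br (nat_lit 6) (.ch (nat_lit 5) (.ev (nat_lit 1664) (nat_lit 536870912)
 (.ev (nat_lit 1796) (nat_lit 33554432) (.ev (nat_lit 1805) (nat_lit 131072) .dd)))) (.ch (nat_lit 6) (.ev
 (nat_lit 1456) (nat_lit 537001984) (.ev (nat_lit 1469) (nat_lit 33554432) .dd))))))) (.br (nat_lit 6) (.ch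
 (nat_lit 3) (.ev (nat_lit 1344) (nat_lit 537001984) (.ev (nat_lit 1636) (nat_lit 33554432) (.ev (nat_lit 1645)
 (nat_lit 262144) .dd)))) (.ch (nat_lit 6) (.ev (nat_lit 1344) (nat_lit 570818560) .dd))))))))))) (.br (nat_lit
 52) (.ch (nat_lit 50) (.ev (nat_lit 52) (nat_lit 706904098) (.ev (nat_lit 180) (nat_lit 1048576) (.ev (nat_lit
 244) (nat_lit 262144) (.ev (nat_lit 532) (nat_lit 256) (.ev (nat_lit 1264) (nat_lit 128) (.nd (nat_lit 1328)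
 (.br (nat_lit 2) (.ch (nat_lit 0) (.ev (nat_lit 1344) (nat_lit 2064) (.ev (nat_lit 1472) (nat_lit 8192) (.ev
 (nat_lit 1552) (nat_lit 65536) (.ev (nat_lit 1856) (nat_lit 8589935616) .dd))))) (.br (nat_lit 3) (.ch
 (nat_lit 2) (.ev (nat_lit 1344) (nat_lit 8590011392) (.ev (nat_lit 1357) (nat_lit 16) .dd))) (.ch (nat_lit 3)
 (.ev (nat_lit 1344) (nat_lit 73728) (.ev (nat_lit 1536) (nat_lit 1024) (.ev (nat_lit 1904) (nat_lit
 8589934592) (.ev (nat_lit 2080) (nat_lit 16) (.ev (nat_lit 2093) (nat_lit 2048) .dd))))))))))))))) (.ch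
 (nat_lit 52) (.ev (nat_lit 52) (nat_lit 9127100704) (.ev (nat_lit 244) (nat_lit 8320) (.ev (nat_lit 448)
 (nat_lit 171117586) .dd))))))))))))

/-- Subtrie. -/
noncomputable def T3 : Tr := (.ev (nat_lit 20) (nat_lit 536872320) (.nd (nat_lit 33) (.br (nat_lit 31) (.br
 (nat_lit 16) (.br (nat_lit 10) (.br (nat_lit 6) (.br (nat_lit 5) (.ch (nat_lit 4) (.ev (nat_lit 52) (nat_lit
 9820209152) (.ev (nat_lit 116) (nat_lit 131072) (.ev (nat_lit 308) (nat_lit 2048) (.ev (nat_lit 320) (nat_lit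
 103182577714) .dd))))) (.ch (nat_lit 5) (.ev (nat_lit 52) (nat_lit 9734098944) (.ev (nat_lit 116) (nat_lit
 4194304) (.ev (nat_lit 288) (nat_lit 103264626738) .dd))))) (.br (nat_lit 9) (.ch (nat_lit 6) (.ev (nat_lit
 52) (nat_lit 237309954) (.ev (nat_lit 84) (nat_lit 4194304) (.ev (nat_lit 180) (nat_lit 131072) (.ev (nat_lit
 276) (nat_lit 16) (.ev (nat_lit 500) (nat_lit 32) (.ev (nat_lit 628) (nat_lit 524288) (.ev (nat_lit 864)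
 (nat_lit 1073750016) (.nd (nat_lit 1328) (.br (nat_lit 3) (.ch (nat_lit 0) (.ev (nat_lit 1344) (nat_lit
 8590983168) (.ev (nat_lit 1636) (nat_lit 2048) (.ev (nat_lit 1648) (nat_lit 34359738368) (.ev (nat_lit 1872)
 (nat_lit 16777216) (.ev (nat_lit 2016) (nat_lit 32768) (.ev (nat_lit 2029) (nat_lit 68719476736) .dd)))))))
 (.br (nat_lit 6) (.ch (nat_lit 3) (.ev (nat_lit 1344) (nat_lit 42967500800) (.ev (nat_lit 2420) (nat_lit
 32768) (.ev (nat_lit 2429) (nat_lit 68719476736) .dd)))) (.ch (nat_lit 6) (.ev (nat_lit 1636) (nat_lit 2048)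
 (.ev (nat_lit 1664) (nat_lit 34359738368) (.ev (nat_lit 2032) (nat_lit 8589934592) (.ev (nat_lit 2148)
 (nat_lit 68719476736) (.ev (nat_lit 2560) (nat_lit 16777216) (.nd (nat_lit 2880) (.br (nat_lit 4) (.ch
 (nat_lit 2) (.ev (nat_lit 2896) (nat_lit 1081344) .dd)) (.ch (nat_lit 4) (.fin (nat_lit
 576462401566097993)))))))))))))))))))))) (.ch (nat_lit 9) (.ev (nat_lit 52) (nat_lit 34495539216) (.ev
 (nat_lit 244) (nat_lit 4194304) (.ev (nat_lit 436) (nat_lit 16777216) (.ev (nat_lit 468) (nat_lit 1073741824)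
 (.ev (nat_lit 564) (nat_lit 33554432) (.ev (nat_lit 596) (nat_lit 32) (.ev (nat_lit 1200) (nat_lit
 68719476736) (.nd (nat_lit 1328) (.br (nat_lit 3) (.br (nat_lit 2) (.ch (nat_lit 0) (.ev (nat_lit 1344)
 (nat_lit 8592166914) (.ev (nat_lit 1428) (nat_lit 262144) (.ev (nat_lit 2276) (nat_lit 65536) (.ev (nat_lit
 2660) (nat_lit 67108864) (.ev (nat_lit 2669) (nat_lit 32768) .dd)))))) (.ch (nat_lit 2) (.ev (nat_lit 1344)
 (nat_lit 8659369984) (.ev (nat_lit 1680) (nat_lit 4096) (.ev (nat_lit 2160) (nat_lit 2) (.ev (nat_lit 2173)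
 (nat_lit 262144) .dd)))))) (.br (nat_lit 5) (.ch (nat_lit 3) (.ev (nat_lit 1344) (nat_lit 8657047554) (.ev
 (nat_lit 2148) (nat_lit 32768) (.ev (nat_lit 2160) (nat_lit 131072) (.ev (nat_lit 2372) (nat_lit 65536) (.ev
 (nat_lit 2532) (nat_lit 2097152) (.ev (nat_lit 2541) (nat_lit 262144) .dd))))))) (.ch (nat_lit 5) (.ev
 (nat_lit 1344) (nat_lit 430080) (.ev (nat_lit 2080) (nat_lit 8589934592) (.ev (nat_lit 2336) (nat_lit 2097152)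
 (.ev (nat_lit 2484) (nat_lit 2) (.fin (nat_lit 576462401583923778)))))))))))))))))))) (.br (nat_lit 12) (.br
 (nat_lit 11) (.ch (nat_lit 10) (.ev (nat_lit 52) (nat_lit 78518421522) (.ev (nat_lit 128) (nat_lit
 34484498464) .dd))) (.ch (nat_lit 11) (.ev (nat_lit 52) (nat_lit 9831448578) (.ev (nat_lit 372) (nat_lit 16)
 (.ev (nat_lit 736) (nat_lit 16785408) (.nd (nat_lit 1328) (.br (nat_lit 5) (.ch (nat_lit 3) (.ev (nat_lit
 1344) (nat_lit 103148847104) (.ev (nat_lit 1428) (nat_lit 524288) (.ev (nat_lit 1636) (nat_lit 2048) (.ev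
 (nat_lit 1680) (nat_lit 1048576) (.ev (nat_lit 1856) (nat_lit 4259840) (.fin (nat_lit
 576462401571340866)))))))) (.br (nat_lit 6) (.ch (nat_lit 5) (.ev (nat_lit 1344) (nat_lit 103080695840) (.ev
 (nat_lit 1568) (nat_lit 4194304) (.ev (nat_lit 1636) (nat_lit 2097152) (.ev (nat_lit 1808) (nat_lit 589824)
 (.ev (nat_lit 1821) (nat_lit 67108864) .dd)))))) (.ch (nat_lit 6) (.ev (nat_lit 1344) (nat_lit 71895072) (.ev
 (nat_lit 1364) (nat_lit 2097152) (.ev (nat_lit 1520) (nat_lit 103079215104) (.ev (nat_lit 1648) (nat_lit 4096)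
 (.ev (nat_lit 2004) (nat_lit 262144) (.ev (nat_lit 2016) (nat_lit 131072) (.fin (nat_lit
 576460202555425335))))))))))))))))) (.br (nat_lit 15) (.ch (nat_lit 12) (.ev (nat_lit 52) (nat_lit 9683343360)
 (.ev (nat_lit 436) (nat_lit 33554432) (.ev (nat_lit 500) (nat_lit 68719542272) (.ev (nat_lit 564) (nat_lit
 67108864) (.ev (nat_lit 976) (nat_lit 32768) (.ev (nat_lit 1280) (nat_lit 32) (.nd (nat_lit 1328) (.br
 (nat_lit 5) (.br (nat_lit 2) (.ch (nat_lit 0) (.ev (nat_lit 1344) (nat_lit 4202498) (.ev (nat_lit 1636)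
 (nat_lit 16) (.ev (nat_lit 2484) (nat_lit 1048576) (.ev (nat_lit 2836) (nat_lit 131072) (.nd (nat_lit 3008)
 (.br (nat_lit 4) (.ch (nat_lit 3) (.ev (nat_lit 3024) (nat_lit 34493956096) .dd)) (.ch (nat_lit 4) (.fin
 (nat_lit 576462401560855106)))))))))) (.ch (nat_lit 2) (.ev (nat_lit 1344) (nat_lit 34495012880) (.ev (nat_lit
 1636) (nat_lit 4194304) (.ev (nat_lit 2532) (nat_lit 2) (.ev (nat_lit 2541) (nat_lit 131072) .dd)))))) (.br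
 (nat_lit 6) (.ch (nat_lit 5) (.ev (nat_lit 1344) (nat_lit 139591696) (.ev (nat_lit 2080) (nat_lit 34359738368)
 (.ev (nat_lit 2148) (nat_lit 8192) (.ev (nat_lit 2157) (nat_lit 2) .dd))))) (.ch (nat_lit 6) (.ev (nat_lit
 1344) (nat_lit 5251072) (.ev (nat_lit 1636) (nat_lit 16) (.ev (nat_lit 2160) (nat_lit 2) (.ev (nat_lit 2420)
 (nat_lit 34359738368) (.ev (nat_lit 2464) (nat_lit 131072) (.ev (nat_lit 2477) (nat_lit 134217728)
 .dd))))))))))))))))) (.ch (nat_lit 15) (.ev (nat_lit 52) (nat_lit 20230146) (.ev (nat_lit 436) (nat_lit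
 68719476736) (.ev (nat_lit 500) (nat_lit 34393292800) (.ev (nat_lit 564) (nat_lit 134217728) (.ev (nat_lit
 992) (nat_lit 8589934592) (.ev (nat_lit 1296) (nat_lit 16) (.nd (nat_lit 1328) (.br (nat_lit 5) (.br (nat_lit
 3) (.ch (nat_lit 0) (.ev (nat_lit 1344) (nat_lit 1145176096) (.ev (nat_lit 2080) (nat_lit 65536) (.ev (nat_lit
 2148) (nat_lit 524288) (.ev (nat_lit 2157) (nat_lit 2048) .dd))))) (.ch (nat_lit 3) (.ev (nat_lit 1344)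
 (nat_lit 1141440544) (.ev (nat_lit 1636) (nat_lit 131072) (.ev (nat_lit 2532) (nat_lit 2048) (.ev (nat_lit
 2541) (nat_lit 4194304) .dd)))))) (.br (nat_lit 6) (.ch (nat_lit 5) (.ev (nat_lit 1344) (nat_lit 657408) (.ev
 (nat_lit 1636) (nat_lit 32) (.ev (nat_lit 2484) (nat_lit 1073741824) (.ev (nat_lit 2836) (nat_lit 4194304)
 (.nd (nat_lit 3040) (.br (nat_lit 6) (.ch (nat_lit 0) (.ev (nat_lit 3056) (nat_lit 67174400) .dd)) (.ch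
 (nat_lit 6) (.fin (nat_lit 576462401583923778)))))))))) (.ch (nat_lit 6) (.ev (nat_lit 1344) (nat_lit
 1074397184) (.ev (nat_lit 1636) (nat_lit 32) (.ev (nat_lit 2160) (nat_lit 2048) (.ev (nat_lit 2420) (nat_lit
 65536) (.ev (nat_lit 2464) (nat_lit 4194304) (.ev (nat_lit 2477) (nat_lit 67108864) .dd))))))))))))))))))))
 (.br (nat_lit 22) (.br (nat_lit 18) (.br (nat_lit 17) (.ch (nat_lit 16) (.ev (nat_lit 52) (nat_lit
 77415317536) (.ev (nat_lit 276) (nat_lit 262144) (.ev (nat_lit 340) (nat_lit 2048) (.ev (nat_lit 404) (nat_lit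
 16777216) (.ev (nat_lit 468) (nat_lit 16) (.ev (nat_lit 500) (nat_lit 1073741824) (.ev (nat_lit 628) (nat_lit
 134217728) (.ev (nat_lit 1136) (nat_lit 524288) (.nd (nat_lit 1328) (.br (nat_lit 5) (.ch (nat_lit 0) (.ev
 (nat_lit 1344) (nat_lit 2232322) (.ev (nat_lit 1636) (nat_lit 34359803904) (.fin (nat_lit
 576453605473075776))))) (.br (nat_lit 6) (.ch (nat_lit 5) (.ev (nat_lit 1344) (nat_lit 34359910402) (.ev
 (nat_lit 1408) (nat_lit 4096) (.ev (nat_lit 2004) (nat_lit 65536) (.ev (nat_lit 2013) (nat_lit 2097152)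
 .dd))))) (.ch (nat_lit 6) (.ev (nat_lit 1344) (nat_lit 2207744) (.ev (nat_lit 1504) (nat_lit 34359738370) (.ev
 (nat_lit 1517) (nat_lit 131072) .dd)))))))))))))))) (.ch (nat_lit 17) (.ev (nat_lit 52) (nat_lit 34362107904)
 (.ev (nat_lit 212) (nat_lit 131072) (.ev (nat_lit 704) (nat_lit 77309411328) (.nd (nat_lit 1328) (.br (nat_lit
 2) (.ch (nat_lit 0) (.ev (nat_lit 1344) (nat_lit 1329598498) (.ev (nat_lit 1840) (nat_lit 1048576) (.ev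
 (nat_lit 1888) (nat_lit 32768) (.ev (nat_lit 1936) (nat_lit 16) (.ev (nat_lit 2112) (nat_lit 589824) .dd))))))
 (.br (nat_lit 3) (.ch (nat_lit 2) (.ev (nat_lit 1344) (nat_lit 135888928) (.ev (nat_lit 1364) (nat_lit 16)
 (.ev (nat_lit 1488) (nat_lit 2) (.ev (nat_lit 1520) (nat_lit 67108864) (.ev (nat_lit 1648) (nat_lit 4096) (.ev
 (nat_lit 2016) (nat_lit 33554432) (.ev (nat_lit 2064) (nat_lit 1073741824) (.fin (nat_lit
 576468998635864647)))))))))) (.ch (nat_lit 3) (.ev (nat_lit 1344) (nat_lit 1191215122) (.ev (nat_lit 1428)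
 (nat_lit 1048576) (.ev (nat_lit 1636) (nat_lit 134217728) (.ev (nat_lit 1680) (nat_lit 4194304) (.ev (nat_lit
 1824) (nat_lit 589824) (.fin (nat_lit 576462401571340866)))))))))))))))) (.br (nat_lit 21) (.ch (nat_lit 18)
 (.ev (nat_lit 52) (nat_lit 34531842064) (.ev (nat_lit 212) (nat_lit 32768) (.ev (nat_lit 276) (nat_lit
 1090519040) (.ev (nat_lit 500) (nat_lit 8192) (.nd (nat_lit 1328) (.br (nat_lit 3) (.br (nat_lit 2) (.ch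
 (nat_lit 0) (.ev (nat_lit 1344) (nat_lit 8660254754) (.ev (nat_lit 1648) (nat_lit 524288) (.ev (nat_lit 2016)
 (nat_lit 68719738880) .dd)))) (.ch (nat_lit 2) (.ev (nat_lit 1344) (nat_lit 68723474466) (.ev (nat_lit 2016)
 (nat_lit 8657043456) .dd)))) (.br (nat_lit 5) (.ch (nat_lit 3) (.ev (nat_lit 1344) (nat_lit 77378420768) (.ev
 (nat_lit 2448) (nat_lit 2097154) .dd))) (.br (nat_lit 6) (.ch (nat_lit 5) (.ev (nat_lit 1344) (nat_lit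
 77379403778) (.ev (nat_lit 2004) (nat_lit 1048576) (.ev (nat_lit 2448) (nat_lit 65568) .dd)))) (.ch (nat_lit
 6) (.ev (nat_lit 1344) (nat_lit 1572864) (.ev (nat_lit 1796) (nat_lit 327680) (.ev (nat_lit 2148) (nat_lit
 67108864) (.ev (nat_lit 2196) (nat_lit 2) (.ev (nat_lit 2276) (nat_lit 68719476736) (.ev (nat_lit 2372)
 (nat_lit 2097152) (.ev (nat_lit 2676) (nat_lit 8589934592) (.ev (nat_lit 2685) (nat_lit 32)
 .dd)))))))))))))))))) (.ch (nat_lit 21) (.ev (nat_lit 52) (nat_lit 1141448738) (.ev (nat_lit 244) (nat_lit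
 131072) (.ev (nat_lit 436) (nat_lit 2097152) (.ev (nat_lit 468) (nat_lit 1048576) (.ev (nat_lit 564) (nat_lit
 68719476736) (.ev (nat_lit 596) (nat_lit 16) (.ev (nat_lit 1216) (nat_lit 33554432) (.nd (nat_lit 1328) (.br
 (nat_lit 3) (.br (nat_lit 2) (.ch (nat_lit 0) (.ev (nat_lit 1344) (nat_lit 8594395136) (.ev (nat_lit 2080)
 (nat_lit 32768) (.ev (nat_lit 2336) (nat_lit 16777216) (.ev (nat_lit 2484) (nat_lit 2048) (.fin (nat_lit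
 576462401560855106))))))) (.ch (nat_lit 2) (.ev (nat_lit 1344) (nat_lit 134514688) (.ev (nat_lit 2148)
 (nat_lit 8589934592) (.ev (nat_lit 2160) (nat_lit 4194304) (.ev (nat_lit 2372) (nat_lit 34359738368) (.ev
 (nat_lit 2532) (nat_lit 16777216) (.ev (nat_lit 2541) (nat_lit 4096) .dd)))))))) (.br (nat_lit 5) (.ch
 (nat_lit 3) (.ev (nat_lit 1344) (nat_lit 43104894976) (.ev (nat_lit 1680) (nat_lit 262144) (.ev (nat_lit 2160)
 (nat_lit 2048) (.ev (nat_lit 2173) (nat_lit 4096) .dd))))) (.ch (nat_lit 5) (.ev (nat_lit 1344) (nat_lit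
 21268480) (.ev (nat_lit 1428) (nat_lit 4096) (.ev (nat_lit 2276) (nat_lit 34359738368) (.ev (nat_lit 2660)
 (nat_lit 134217728) (.ev (nat_lit 2669) (nat_lit 8589934592) .dd))))))))))))))))))) (.br (nat_lit 26) (.br
 (nat_lit 24) (.ch (nat_lit 22) (.ev (nat_lit 52) (nat_lit 43125055522) (.ev (nat_lit 116) (nat_lit 32768) (.nd
 (nat_lit 1328) (.br (nat_lit 3) (.br (nat_lit 2) (.ch (nat_lit 0) (.ev (nat_lit 1344) (nat_lit 16783360) (.ev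
 (nat_lit 2004) (nat_lit 68719476736) (.ev (nat_lit 2148) (nat_lit 16) (.ev (nat_lit 2176) (nat_lit 67108864)
 (.ev (nat_lit 2532) (nat_lit 65536) (.ev (nat_lit 2580) (nat_lit 131072) (.ev (nat_lit 2708) (nat_lit 524288)
 (.ev (nat_lit 2717) (nat_lit 1073741824) .dd))))))))) (.ch (nat_lit 2) (.ev (nat_lit 1344) (nat_lit
 68720066560) (.ev (nat_lit 2004) (nat_lit 16777216) (.ev (nat_lit 2196) (nat_lit 67110912) (.ev (nat_lit 2276)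
 (nat_lit 4096) (.ev (nat_lit 2532) (nat_lit 16) (.ev (nat_lit 2820) (nat_lit 1073741824) (.ev (nat_lit 2829)
 (nat_lit 131072) .dd))))))))) (.br (nat_lit 6) (.ch (nat_lit 3) (.ev (nat_lit 1344) (nat_lit 1157632016) (.ev
 (nat_lit 1696) (nat_lit 68719476736) (.ev (nat_lit 2080) (nat_lit 2048) (.ev (nat_lit 2484) (nat_lit 131072)
 (.ev (nat_lit 2742) (nat_lit 589824) .dd)))))) (.ch (nat_lit 6) (.ev (nat_lit 1344) (nat_lit 68787240976) (.ev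
 (nat_lit 1696) (nat_lit 16777216) (.ev (nat_lit 2372) (nat_lit 4096) (.ev (nat_lit 2484) (nat_lit 1073807360)
 (.ev (nat_lit 2493) (nat_lit 2048) .dd)))))))))))) (.ch (nat_lit 24) (.ev (nat_lit 52) (nat_lit 1093730304)
 (.ev (nat_lit 372) (nat_lit 134217728) (.ev (nat_lit 784) (nat_lit 294912) (.ev (nat_lit 1088) (nat_lit
 131104) (.nd (nat_lit 1328) (.br (nat_lit 5) (.ch (nat_lit 2) (.ev (nat_lit 1344) (nat_lit 68791304192) (.ev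
 (nat_lit 1648) (nat_lit 2050) (.ev (nat_lit 1760) (nat_lit 34359738368) (.ev (nat_lit 1872) (nat_lit 16) (.ev
 (nat_lit 2016) (nat_lit 33562624) (.ev (nat_lit 2404) (nat_lit 4096) (.ev (nat_lit 2413) (nat_lit 8589934592)
 .dd)))))))) (.br (nat_lit 6) (.ch (nat_lit 5) (.ev (nat_lit 1344) (nat_lit 103083411472) (.nd (nat_lit 1440)
 (.br (nat_lit 4) (.ch (nat_lit 1) (.ev (nat_lit 1456) (nat_lit 8590467074) (.ev (nat_lit 2032) (nat_lit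
 67108864) (.ev (nat_lit 2532) (nat_lit 33554432) (.ev (nat_lit 2541) (nat_lit 4096) .dd))))) (.br (nat_lit 5)
 (.ch (nat_lit 4) (.ev (nat_lit 1456) (nat_lit 33558530) (.ev (nat_lit 1712) (nat_lit 8192) (.ev (nat_lit 1984)
 (nat_lit 67108864) (.fin (nat_lit 576468998635864640)))))) (.ch (nat_lit 5) (.ev (nat_lit 1456) (nat_lit
 8691126272) (.ev (nat_lit 1600) (nat_lit 8194) .dd)))))))) (.ch (nat_lit 6) (.ev (nat_lit 1344) (nat_lit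
 67645442) (.ev (nat_lit 1520) (nat_lit 2048) (.ev (nat_lit 1636) (nat_lit 68719476736) (.ev (nat_lit 1796)
 (nat_lit 34359738368) (.ev (nat_lit 2032) (nat_lit 8589934608) (.fin (nat_lit
 576466799612609084))))))))))))))))) (.br (nat_lit 28) (.ch (nat_lit 26) (.ev (nat_lit 52) (nat_lit 1175488546)
 (.ev (nat_lit 192) (nat_lit 111827431440) .dd))) (.br (nat_lit 29) (.ch (nat_lit 28) (.ev (nat_lit 52)
 (nat_lit 34363899922) (.ev (nat_lit 404) (nat_lit 8192) (.ev (nat_lit 564) (nat_lit 4096) (.ev (nat_lit 596)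
 (nat_lit 16777216) (.ev (nat_lit 928) (nat_lit 69793218560) (.nd (nat_lit 1328) (.br (nat_lit 5) (.ch (nat_lit
 3) (.ev (nat_lit 1344) (nat_lit 8829011968) (.ev (nat_lit 1357) (nat_lit 32) .dd))) (.br (nat_lit 6) (.ch
 (nat_lit 5) (.ev (nat_lit 1344) (nat_lit 8690599968) (.ev (nat_lit 1680) (nat_lit 4194304) (.ev (nat_lit 1693)
 (nat_lit 134217728) .dd)))) (.ch (nat_lit 6) (.ev (nat_lit 1364) (nat_lit 32) (.ev (nat_lit 1648) (nat_lit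
 2048) (.ev (nat_lit 1796) (nat_lit 134217728) (.ev (nat_lit 1952) (nat_lit 67108864) (.ev (nat_lit 2128)
 (nat_lit 8589934592) (.nd (nat_lit 2848) (.br (nat_lit 3) (.ch (nat_lit 1) (.fin (nat_lit
 576455804508914244))) (.ch (nat_lit 3) (.ev (nat_lit 2864) (nat_lit 37748736) .dd))))))))))))))))))) (.ch
 (nat_lit 29) (.ev (nat_lit 52) (nat_lit 8623788048) (.ev (nat_lit 244) (nat_lit 2) (.ev (nat_lit 372) (nat_lit
 34360262656) (.ev (nat_lit 404) (nat_lit 1048576) (.ev (nat_lit 436) (nat_lit 65536) (.ev (nat_lit 564)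
 (nat_lit 32) (.ev (nat_lit 596) (nat_lit 134217728) (.ev (nat_lit 1056) (nat_lit 68736253952) (.nd (nat_lit
 1328) (.br (nat_lit 3) (.ch (nat_lit 0) (.ev (nat_lit 1344) (nat_lit 1080172544) (.ev (nat_lit 1504) (nat_lit
 67110912) .dd))) (.br (nat_lit 5) (.ch (nat_lit 3) (.ev (nat_lit 1344) (nat_lit 1140858880) (.ev (nat_lit
 1648) (nat_lit 4194304) (.ev (nat_lit 1808) (nat_lit 2048) (.fin (nat_lit 576453605473075769)))))) (.ch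
 (nat_lit 5) (.ev (nat_lit 1344) (nat_lit 69339136) (.ev (nat_lit 2016) (nat_lit 4194304) (.ev (nat_lit 2148)
 (nat_lit 8192) (.ev (nat_lit 2157) (nat_lit 1073741824) .dd)))))))))))))))))))))) (.br (nat_lit 42) (.br
 (nat_lit 38) (.br (nat_lit 36) (.br (nat_lit 33) (.ch (nat_lit 31) (.ev (nat_lit 52) (nat_lit 69877864464)
 (.ev (nat_lit 116) (nat_lit 8589934592) (.nd (nat_lit 1328) (.br (nat_lit 5) (.br (nat_lit 3) (.ch (nat_lit 2)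
 (.ev (nat_lit 1344) (nat_lit 137625632) (.ev (nat_lit 1696) (nat_lit 33554432) (.ev (nat_lit 2080) (nat_lit 2)
 (.ev (nat_lit 2484) (nat_lit 4194304) (.ev (nat_lit 2772) (nat_lit 8192) (.ev (nat_lit 2781) (nat_lit
 34359738368) .dd))))))) (.ch (nat_lit 3) (.ev (nat_lit 1344) (nat_lit 34393300992) (.ev (nat_lit 2004)
 (nat_lit 2097152) (.ev (nat_lit 2196) (nat_lit 134217730) (.ev (nat_lit 2276) (nat_lit 262144) (.ev (nat_lit
 2532) (nat_lit 32) (.ev (nat_lit 2820) (nat_lit 1048576) (.ev (nat_lit 2829) (nat_lit 4194304) .dd)))))))))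
 (.br (nat_lit 6) (.ch (nat_lit 5) (.ev (nat_lit 1344) (nat_lit 2359298) (.ev (nat_lit 2004) (nat_lit 33554432)
 (.ev (nat_lit 2148) (nat_lit 32) (.ev (nat_lit 2176) (nat_lit 134217728) (.ev (nat_lit 2532) (nat_lit
 34359738368) (.ev (nat_lit 2580) (nat_lit 4194304) (.ev (nat_lit 2708) (nat_lit 8192) (.ev (nat_lit 2717)
 (nat_lit 1048576) .dd))))))))) (.ch (nat_lit 6) (.ev (nat_lit 1344) (nat_lit 171974688) (.ev (nat_lit 1696)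
 (nat_lit 2097152) (.ev (nat_lit 2372) (nat_lit 262144) (.ev (nat_lit 2484) (nat_lit 34360786944) (.ev (nat_lit
 2493) (nat_lit 2) .dd)))))))))))) (.ch (nat_lit 33) (.ev (nat_lit 52) (nat_lit 44174966786) (.ev (nat_lit 160)
 (nat_lit 68827953200) .dd)))) (.br (nat_lit 37) (.ch (nat_lit 36) (.ev (nat_lit 52) (nat_lit 35506925616) (.ev
 (nat_lit 116) (nat_lit 2) (.ev (nat_lit 148) (nat_lit 131072) (.ev (nat_lit 404) (nat_lit 65536) (.ev (nat_lit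
 436) (nat_lit 262144) (.ev (nat_lit 532) (nat_lit 1048576) (.ev (nat_lit 564) (nat_lit 524288) (.ev (nat_lit
 672) (nat_lit 8623489024) (.nd (nat_lit 1328) (.br (nat_lit 2) (.ch (nat_lit 0) (.ev (nat_lit 1344) (nat_lit
 134219776) (.ev (nat_lit 1648) (nat_lit 16777216) (.ev (nat_lit 1661) (nat_lit 68719476736) .dd)))) (.br
 (nat_lit 3) (.ch (nat_lit 2) (.ev (nat_lit 1344) (nat_lit 68853694464) (.ev (nat_lit 1488) (nat_lit 16777216)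
 (.ev (nat_lit 1501) (nat_lit 2048) .dd)))) (.ch (nat_lit 3) (.ev (nat_lit 1344) (nat_lit 16777216) (.ev
 (nat_lit 1488) (nat_lit 68719476736) (.ev (nat_lit 1568) (nat_lit 134217728) (.ev (nat_lit 1581) (nat_lit
 2048) .dd))))))))))))))))) (.ch (nat_lit 37) (.ev (nat_lit 52) (nat_lit 44044466208) (.ev (nat_lit 404)
 (nat_lit 524288) (.ev (nat_lit 564) (nat_lit 262144) (.ev (nat_lit 596) (nat_lit 2097152) (.ev (nat_lit 960)
 (nat_lit 34603008) (.nd (nat_lit 1328) (.br (nat_lit 2) (.ch (nat_lit 0) (.ev (nat_lit 1344) (nat_lit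
 68853727250) (.nd (nat_lit 1440) (.br (nat_lit 4) (.ch (nat_lit 2) (.ev (nat_lit 1456) (nat_lit 67108864) (.ev
 (nat_lit 1469) (nat_lit 131072) .dd))) (.br (nat_lit 5) (.ch (nat_lit 4) (.ev (nat_lit 1456) (nat_lit
 67239936) .dd)) (.ch (nat_lit 5) (.ev (nat_lit 1680) (nat_lit 131072) (.ev (nat_lit 1693) (nat_lit 67108864)
 .dd)))))))) (.br (nat_lit 6) (.ch (nat_lit 2) (.ev (nat_lit 1344) (nat_lit 68920967170) (.ev (nat_lit 1357)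
 (nat_lit 16) .dd))) (.ch (nat_lit 6) (.ev (nat_lit 1364) (nat_lit 16) (.ev (nat_lit 1648) (nat_lit 2) (.ev
 (nat_lit 1796) (nat_lit 67108864) (.ev (nat_lit 1952) (nat_lit 134217728) (.ev (nat_lit 2128) (nat_lit 32768)
 (.nd (nat_lit 2848) (.br (nat_lit 3) (.ch (nat_lit 1) (.ev (nat_lit 2864) (nat_lit 68719607808) .dd)) (.ch
 (nat_lit 3) (.fin (nat_lit 576455804496331332)))))))))))))))))))))) (.br (nat_lit 40) (.br (nat_lit 39) (.ch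
 (nat_lit 38) (.ev (nat_lit 52) (nat_lit 77399853072) (.ev (nat_lit 84) (nat_lit 32768) (.ev (nat_lit 276)
 (nat_lit 33554432) (.ev (nat_lit 372) (nat_lit 1073745920) (.ev (nat_lit 468) (nat_lit 134217728) (.ev
 (nat_lit 532) (nat_lit 32) (.ev (nat_lit 596) (nat_lit 65536) (.ev (nat_lit 880) (nat_lit 139264) (.nd
 (nat_lit 1328) (.br (nat_lit 3) (.ch (nat_lit 2) (.ev (nat_lit 1344) (nat_lit 34361311234) .dd)) (.br (nat_lit
 6) (.ch (nat_lit 3) (.ev (nat_lit 1344) (nat_lit 34360786944) (.ev (nat_lit 1636) (nat_lit 2) (.ev (nat_lit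
 1645) (nat_lit 524288) .dd)))) (.ch (nat_lit 6) (.ev (nat_lit 1344) (nat_lit 524288) (.nd (nat_lit 1440) (.br
 (nat_lit 4) (.ch (nat_lit 2) (.ev (nat_lit 1664) (nat_lit 34359738368) (.ev (nat_lit 1808) (nat_lit 2) (.ev
 (nat_lit 1821) (nat_lit 1048576) .dd)))) (.ch (nat_lit 4) (.ev (nat_lit 1456) (nat_lit 34360786944) (.ev
 (nat_lit 1469) (nat_lit 2) .dd))))))))))))))))))) (.ch (nat_lit 39) (.ev (nat_lit 52) (nat_lit 103297587200)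
 (.ev (nat_lit 84) (nat_lit 131072) (.ev (nat_lit 180) (nat_lit 4194304) (.ev (nat_lit 276) (nat_lit 32) (.ev
 (nat_lit 500) (nat_lit 16) (.ev (nat_lit 628) (nat_lit 8192) (.ev (nat_lit 800) (nat_lit 1572864) (.nd
 (nat_lit 1328) (.br (nat_lit 5) (.ch (nat_lit 2) (.ev (nat_lit 1344) (nat_lit 1075937282) (.ev (nat_lit 2420)
 (nat_lit 8589934592) (.ev (nat_lit 2429) (nat_lit 33554432) .dd)))) (.br (nat_lit 6) (.ch (nat_lit 5) (.ev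
 (nat_lit 1344) (nat_lit 1073774592) (.ev (nat_lit 1636) (nat_lit 2) (.ev (nat_lit 1648) (nat_lit 65536) (.ev
 (nat_lit 1872) (nat_lit 2097152) (.ev (nat_lit 2016) (nat_lit 8589934592) (.ev (nat_lit 2029) (nat_lit
 33554432) .dd))))))) (.ch (nat_lit 6) (.ev (nat_lit 1636) (nat_lit 2) (.ev (nat_lit 1664) (nat_lit 65536) (.ev
 (nat_lit 2032) (nat_lit 32768) (.ev (nat_lit 2148) (nat_lit 33554432) (.ev (nat_lit 2544) (nat_lit 2097152)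
 (.nd (nat_lit 2880) (.br (nat_lit 2) (.ch (nat_lit 0) (.fin (nat_lit 576462401578680905))) (.ch (nat_lit 2)
 (.ev (nat_lit 2896) (nat_lit 9663676416) .dd)))))))))))))))))))))) (.br (nat_lit 41) (.ch (nat_lit 40) (.ev
 (nat_lit 52) (nat_lit 8742961200) (.ev (nat_lit 116) (nat_lit 2048) (.ev (nat_lit 148) (nat_lit 4194304) (.ev
 (nat_lit 404) (nat_lit 34359738368) (.ev (nat_lit 436) (nat_lit 4096) (.ev (nat_lit 532) (nat_lit 1073741824)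
 (.ev (nat_lit 564) (nat_lit 8192) (.ev (nat_lit 688) (nat_lit 68719509504) (.nd (nat_lit 1328) (.br (nat_lit
 3) (.ch (nat_lit 2) (.ev (nat_lit 1344) (nat_lit 2097152) (.nd (nat_lit 1440) (.br (nat_lit 6) (.ch (nat_lit
 4) (.ev (nat_lit 1456) (nat_lit 100663296) (.ev (nat_lit 1469) (nat_lit 2) .dd))) (.ch (nat_lit 6) (.ev
 (nat_lit 1456) (nat_lit 2) (.ev (nat_lit 1488) (nat_lit 33554432) (.ev (nat_lit 1501) (nat_lit 67108864)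
 .dd)))))))) (.br (nat_lit 5) (.ch (nat_lit 3) (.ev (nat_lit 1344) (nat_lit 100663296) (.ev (nat_lit 1488)
 (nat_lit 2097152) (.ev (nat_lit 1501) (nat_lit 2) .dd)))) (.ch (nat_lit 5) (.ev (nat_lit 1344) (nat_lit
 67108866) (.ev (nat_lit 1648) (nat_lit 2097152) (.ev (nat_lit 1661) (nat_lit 33554432) .dd))))))))))))))))
 (.ch (nat_lit 41) (.ev (nat_lit 52) (nat_lit 17371138) (.ev (nat_lit 212) (nat_lit 4194304) (.ev (nat_lit 720)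
 (nat_lit 33587200) (.nd (nat_lit 1328) (.br (nat_lit 3) (.ch (nat_lit 2) (.ev (nat_lit 1344) (nat_lit
 77446776864) (.ev (nat_lit 1428) (nat_lit 1073741824) (.ev (nat_lit 1636) (nat_lit 67108864) (.ev (nat_lit
 1680) (nat_lit 131072) (.ev (nat_lit 1824) (nat_lit 34359746560) (.fin (nat_lit 576462401573438018))))))))
 (.br (nat_lit 5) (.ch (nat_lit 3) (.ev (nat_lit 1344) (nat_lit 44090531856) (.ev (nat_lit 1364) (nat_lit 32)
 (.ev (nat_lit 1488) (nat_lit 2048) (.ev (nat_lit 1520) (nat_lit 134217728) (.ev (nat_lit 1648) (nat_lit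
 262144) (.ev (nat_lit 2016) (nat_lit 68719476736) (.ev (nat_lit 2064) (nat_lit 1048576) (.fin (nat_lit
 576468998648447559)))))))))) (.ch (nat_lit 5) (.ev (nat_lit 1344) (nat_lit 68924344336) (.ev (nat_lit 1840)
 (nat_lit 1073741824) (.ev (nat_lit 1888) (nat_lit 8589934592) (.ev (nat_lit 1936) (nat_lit 32) (.ev (nat_lit
 2112) (nat_lit 34359746560) .dd)))))))))))))))) (.br (nat_lit 47) (.br (nat_lit 44) (.br (nat_lit 43) (.ch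
 (nat_lit 42) (.ev (nat_lit 52) (nat_lit 68791238690) (.ev (nat_lit 212) (nat_lit 8589934592) (.ev (nat_lit
 276) (nat_lit 3145728) (.ev (nat_lit 500) (nat_lit 524288) (.nd (nat_lit 1328) (.br (nat_lit 3) (.br (nat_lit
 2) (.ch (nat_lit 0) (.ev (nat_lit 1344) (nat_lit 184596480) (.ev (nat_lit 2004) (nat_lit 1073741824) (.ev
 (nat_lit 2448) (nat_lit 34359738384) .dd)))) (.ch (nat_lit 2) (.ev (nat_lit 1344) (nat_lit 35601297424) (.ev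
 (nat_lit 2448) (nat_lit 16779264) .dd)))) (.br (nat_lit 5) (.ch (nat_lit 3) (.ev (nat_lit 1344) (nat_lit
 35483826192) (.ev (nat_lit 2016) (nat_lit 134250496) .dd))) (.br (nat_lit 6) (.ch (nat_lit 5) (.ev (nat_lit
 1344) (nat_lit 35584509968) (.ev (nat_lit 1648) (nat_lit 8192) (.ev (nat_lit 2016) (nat_lit 33558528) .dd))))
 (.ch (nat_lit 6) (.ev (nat_lit 1344) (nat_lit 1073750016) (.ev (nat_lit 1796) (nat_lit 34359742464) (.ev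
 (nat_lit 2148) (nat_lit 134217728) (.ev (nat_lit 2196) (nat_lit 2048) (.ev (nat_lit 2276) (nat_lit 33554432)
 (.ev (nat_lit 2372) (nat_lit 16777216) (.ev (nat_lit 2676) (nat_lit 32768) (.ev (nat_lit 2685) (nat_lit 16)
 .dd)))))))))))))))))) (.ch (nat_lit 43) (.ev (nat_lit 52) (nat_lit 68787668992) (.ev (nat_lit 372) (nat_lit
 32) (.ev (nat_lit 752) (nat_lit 2621440) (.nd (nat_lit 1328) (.br (nat_lit 2) (.ch (nat_lit 0) (.ev (nat_lit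
 1344) (nat_lit 9701756946) (.ev (nat_lit 1568) (nat_lit 131072) (.ev (nat_lit 1636) (nat_lit 16777216) (.ev
 (nat_lit 1808) (nat_lit 34359746560) (.ev (nat_lit 1821) (nat_lit 134217728) .dd)))))) (.br (nat_lit 6) (.ch
 (nat_lit 2) (.ev (nat_lit 1344) (nat_lit 8778747904) (.ev (nat_lit 1428) (nat_lit 8192) (.ev (nat_lit 1636)
 (nat_lit 2) (.ev (nat_lit 1680) (nat_lit 1073741824) (.ev (nat_lit 1856) (nat_lit 34359869440) (.fin (nat_lit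
 576462401573438018)))))))) (.ch (nat_lit 6) (.ev (nat_lit 1344) (nat_lit 34494095378) (.ev (nat_lit 1364)
 (nat_lit 16777216) (.ev (nat_lit 1600) (nat_lit 33619968) (.ev (nat_lit 1648) (nat_lit 262144) (.ev (nat_lit
 2004) (nat_lit 4096) (.ev (nat_lit 2016) (nat_lit 4194304) (.fin (nat_lit 576460202542842423)))))))))))))))))
 (.br (nat_lit 46) (.ch (nat_lit 44) (.ev (nat_lit 52) (nat_lit 68855795714) (.ev (nat_lit 64) (nat_lit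
 44147124272) .dd))) (.ch (nat_lit 46) (.ev (nat_lit 52) (nat_lit 35453403136) (.ev (nat_lit 372) (nat_lit
 67108864) (.ev (nat_lit 848) (nat_lit 8589938688) (.ev (nat_lit 1104) (nat_lit 4194320) (.nd (nat_lit 1328)
 (.br (nat_lit 3) (.ch (nat_lit 0) (.ev (nat_lit 1344) (nat_lit 33751074) (.ev (nat_lit 1600) (nat_lit 2048)
 (.ev (nat_lit 1712) (nat_lit 524288) (.ev (nat_lit 2032) (nat_lit 134217728) (.ev (nat_lit 2532) (nat_lit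
 68719476736) (.ev (nat_lit 2544) (nat_lit 262144) (.fin (nat_lit 576468998648447552))))))))) (.br (nat_lit 6)
 (.ch (nat_lit 3) (.ev (nat_lit 1344) (nat_lit 167911424) (.ev (nat_lit 1648) (nat_lit 2050) (.ev (nat_lit
 1760) (nat_lit 65536) (.ev (nat_lit 1872) (nat_lit 32) (.ev (nat_lit 2016) (nat_lit 68720001024) (.ev (nat_lit
 2404) (nat_lit 262144) (.ev (nat_lit 2413) (nat_lit 32768) .dd)))))))) (.ch (nat_lit 6) (.ev (nat_lit 1344)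
 (nat_lit 135014400) (.ev (nat_lit 1520) (nat_lit 2) (.ev (nat_lit 1636) (nat_lit 33554432) (.ev (nat_lit 1796)
 (nat_lit 65536) (.ev (nat_lit 2148) (nat_lit 32768) (.ev (nat_lit 2160) (nat_lit 32) (.fin (nat_lit
 576466799625191996))))))))))))))))))) (.br (nat_lit 49) (.br (nat_lit 48) (.ch (nat_lit 47) (.ev (nat_lit 52)
 (nat_lit 117704704) (.ev (nat_lit 96) (nat_lit 112885215282) .dd))) (.ch (nat_lit 48) (.ev (nat_lit 52)
 (nat_lit 69961154576) (.ev (nat_lit 276) (nat_lit 4096) (.ev (nat_lit 340) (nat_lit 2) (.ev (nat_lit 404)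
 (nat_lit 2097152) (.ev (nat_lit 468) (nat_lit 32) (.ev (nat_lit 500) (nat_lit 1048576) (.ev (nat_lit 628)
 (nat_lit 67108864) (.ev (nat_lit 1152) (nat_lit 8192) (.nd (nat_lit 1328) (.br (nat_lit 5) (.ch (nat_lit 0)
 (.ev (nat_lit 1344) (nat_lit 8594720768) (.ev (nat_lit 1408) (nat_lit 262144) (.ev (nat_lit 2004) (nat_lit
 34359738368) (.ev (nat_lit 2013) (nat_lit 16777216) .dd))))) (.br (nat_lit 6) (.ch (nat_lit 5) (.ev (nat_lit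
 1344) (nat_lit 21235712) (.ev (nat_lit 1636) (nat_lit 34359803904) (.fin (nat_lit 576453605485658688))))) (.ch
 (nat_lit 6) (.ev (nat_lit 1344) (nat_lit 42967236608) (.ev (nat_lit 1584) (nat_lit 67584) (.ev (nat_lit 1597)
 (nat_lit 4194304) .dd))))))))))))))))) (.br (nat_lit 50) (.ch (nat_lit 49) (.ev (nat_lit 52) (nat_lit
 8660297728) (.ev (nat_lit 224) (nat_lit 104342622258) .dd))) (.br (nat_lit 52) (.ch (nat_lit 50) (.ev (nat_lit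
 52) (nat_lit 186814498) (.ev (nat_lit 84) (nat_lit 8589934592) (.ev (nat_lit 276) (nat_lit 68719476736) (.ev
 (nat_lit 372) (nat_lit 1310720) (.ev (nat_lit 468) (nat_lit 67108864) (.ev (nat_lit 532) (nat_lit 16) (.ev
 (nat_lit 596) (nat_lit 34359738368) (.ev (nat_lit 896) (nat_lit 4718592) (.nd (nat_lit 1328) (.br (nat_lit 3)
 (.ch (nat_lit 2) (.ev (nat_lit 1344) (nat_lit 1073807360) (.ev (nat_lit 1636) (nat_lit 2048) (.ev (nat_lit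
 1645) (nat_lit 8192) .dd)))) (.br (nat_lit 6) (.ch (nat_lit 3) (.ev (nat_lit 1344) (nat_lit 1073817600) .dd))
 (.ch (nat_lit 6) (.ev (nat_lit 1344) (nat_lit 8192) (.ev (nat_lit 1664) (nat_lit 65536) (.ev (nat_lit 1808)
 (nat_lit 2048) (.ev (nat_lit 1821) (nat_lit 1073741824) .dd))))))))))))))))) (.ch (nat_lit 52) (.ev (nat_lit
 52) (nat_lit 77309710368) (.ev (nat_lit 244) (nat_lit 2048) (.ev (nat_lit 372) (nat_lit 73728) (.ev (nat_lit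
 404) (nat_lit 1073741824) (.ev (nat_lit 436) (nat_lit 34359738368) (.ev (nat_lit 564) (nat_lit 16) (.ev
 (nat_lit 596) (nat_lit 67108864) (.ev (nat_lit 1072) (nat_lit 35651584) (.nd (nat_lit 1328) (.br (nat_lit 2)
 (.ch (nat_lit 0) (.ev (nat_lit 1344) (nat_lit 155189250) (.nd (nat_lit 1440) (.br (nat_lit 6) (.ch (nat_lit 5)
 (.ev (nat_lit 1456) (nat_lit 131072) (.ev (nat_lit 1796) (nat_lit 524288) (.ev (nat_lit 1805) (nat_lit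
 1048576) .dd)))) (.ch (nat_lit 6) (.ev (nat_lit 2016) (nat_lit 655360) (.ev (nat_lit 2029) (nat_lit 1048576)
 .dd))))))) (.br (nat_lit 5) (.ch (nat_lit 2) (.ev (nat_lit 1344) (nat_lit 135790592) (.ev (nat_lit 1648)
 (nat_lit 131072) (.ev (nat_lit 1808) (nat_lit 2) (.fin (nat_lit 576453605485658681)))))) (.ch (nat_lit 5) (.ev
 (nat_lit 1344) (nat_lit 22675456) (.ev (nat_lit 1504) (nat_lit 134217730) .dd)))))))))))))))))))))))

/-- The trie. -/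
noncomputable def T : Tr := .nd (nat_lit 1000000) (.br (nat_lit 1) (.ch (nat_lit 0) (.ev (nat_lit 0) (nat_lit 137438953471) .dd)) (.br (nat_lit 3) (.ch (nat_lit 1) T1) (.ch (nat_lit 3) T3)))

/-- The possible values. -/
noncomputable def oks : List ℕ := [4, 9, 219, 249]

/-- The parameters. -/
noncomputable def S : Pr := ⟨fun i l e => lget mz (lget [] (lget [] tabs i) l) e, oks, [(nat_lit 0), (nat_lit
 1), (nat_lit 0), (nat_lit 0)], T, (nat_lit 137438953471), (nat_lit 23899161165), (nat_lit 37), [(nat_lit 1),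
 (nat_lit 2287041271849359)], [(nat_lit 343), (nat_lit 2809)]⟩

/-- Nothing known. -/
noncomputable def cs0 : Cs := (.cons (nat_lit 7) (nat_lit 0) (nat_lit 1) (.cons (nat_lit 53) (nat_lit 0) (nat_lit 1) .nil))

theorem part_1 : part S cs0 (nat_lit 1) = true := by decide +kernel

theorem part_3 : part S cs0 (nat_lit 3) = true := by decide +kernel

/-- Data of a prime. -/
noncomputable def D0 : PD := ⟨(nat_lit 7), (nat_lit 3), (224, 1, 2), (328, 287, 60), (329, 250, 221)⟩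

theorem D0_ok : D0.Ok := pdb_sound (s := 1) (C := ⟨⟨7, -2, -11, 7, 2, 4, 0, 3, -1⟩, (5, 2, 3)⟩) (by show Nat.Prime 7; norm_num) (by decide +kernel)

/-- Lines of the first type. -/
noncomputable def Cl0 : List C1 := [⟨⟨7, 2, -11, 7, -2, 4, 0, -3, -1⟩, (6, 1, 5)⟩,
  ⟨⟨0, 0, 0, 0, 0, 0, 0, 0, 0⟩, (0, 0, 0)⟩,
  ⟨⟨0, 0, 0, 0, 0, 0, 0, 0, 0⟩, (0, 0, 0)⟩,
  ⟨⟨0, 0, 0, 0, 0, 0, 0, 0, 0⟩, (0, 0, 0)⟩,
  ⟨⟨0, 0, 0, 0, 0, 0, 0, 0, 0⟩, (0, 0, 0)⟩,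
  ⟨⟨0, 0, 0, 0, 0, 0, 0, 0, 0⟩, (0, 0, 0)⟩,
  ⟨⟨0, 0, 0, 0, 0, 0, 0, 0, 0⟩, (0, 0, 0)⟩]

/-- Data of a prime. -/
noncomputable def D1 : PD := ⟨(nat_lit 53), (nat_lit 2), (2545, 8, 14), (2610, 800, 1557), (1968, 957, 2439)⟩

theorem D1_ok : D1.Ok := pdb_sound (s := 12) (C := ⟨⟨-13, 2, -76, -47, -58, 31, 18, -15, -13⟩, (40, 6, 18)⟩) (by show Nat.Prime 53; norm_num) (by decide +kernel)

/-- Lines of the first type. -/
noncomputable def Cl1 : List C1 := [⟨⟨13, -2, -89, -47, -58, 16, 18, -15, -5⟩, (17, 16, 48)⟩,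
  ⟨⟨-23, 38, -56, 43, 58, 1, 18, -9, -23⟩, (9, 50, 16)⟩,
  ⟨⟨-23, -38, -56, 43, -58, 1, 18, 9, -23⟩, (18, 47, 32)⟩,
  ⟨⟨-13, -2, -76, -47, 58, 31, 18, 15, -13⟩, (20, 3, 9)⟩,
  ⟨⟨0, 0, 0, 0, 0, 0, 0, 0, 0⟩, (0, 0, 0)⟩,
  ⟨⟨0, 0, 0, 0, 0, 0, 0, 0, 0⟩, (0, 0, 0)⟩,
  ⟨⟨0, 0, 0, 0, 0, 0, 0, 0, 0⟩, (0, 0, 0)⟩,
  ⟨⟨23, -38, -79, -43, -58, 44, -18, 9, -5⟩, (29, 8, 28)⟩,
  ⟨⟨33, -18, -89, 67, 2, 4, 2, 23, -7⟩, (12, 34, 20)⟩,
  ⟨⟨0, 0, 0, 0, 0, 0, 0, 0, 0⟩, (0, 0, 0)⟩,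
  ⟨⟨0, 0, 0, 0, 0, 0, 0, 0, 0⟩, (0, 0, 0)⟩,
  ⟨⟨0, 0, 0, 0, 0, 0, 0, 0, 0⟩, (0, 0, 0)⟩,
  ⟨⟨0, 0, 0, 0, 0, 0, 0, 0, 0⟩, (0, 0, 0)⟩,
  ⟨⟨27, 42, -76, 7, 58, 49, 22, -7, -5⟩, (1, 14, 44)⟩,
  ⟨⟨33, 18, -89, 67, -2, 4, 2, -23, -7⟩, (44, 1, 38)⟩,
  ⟨⟨0, 0, 0, 0, 0, 0, 0, 0, 0⟩, (0, 0, 0)⟩,
  ⟨⟨0, 0, 0, 0, 0, 0, 0, 0, 0⟩, (0, 0, 0)⟩,
  ⟨⟨0, 0, 0, 0, 0, 0, 0, 0, 0⟩, (0, 0, 0)⟩,
  ⟨⟨0, 0, 0, 0, 0, 0, 0, 0, 0⟩, (0, 0, 0)⟩,
  ⟨⟨57, 42, -56, -37, 62, 41, -10, 1, -19⟩, (20, 27, 3)⟩,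
  ⟨⟨13, 2, -89, -47, 58, 16, 18, 15, -5⟩, (50, 19, 4)⟩,
  ⟨⟨0, 0, 0, 0, 0, 0, 0, 0, 0⟩, (0, 0, 0)⟩,
  ⟨⟨0, 0, 0, 0, 0, 0, 0, 0, 0⟩, (0, 0, 0)⟩,
  ⟨⟨57, -42, -56, -37, -62, 41, -10, -1, -19⟩, (16, 11, 13)⟩,
  ⟨⟨0, 0, 0, 0, 0, 0, 0, 0, 0⟩, (0, 0, 0)⟩,
  ⟨⟨7, 58, -56, 27, 42, 49, 22, -7, -17⟩, (20, 9, 25)⟩,
  ⟨⟨0, 0, 0, 0, 0, 0, 0, 0, 0⟩, (0, 0, 0)⟩,
  ⟨⟨67, -2, -71, 33, 18, 56, -2, 23, -5⟩, (28, 13, 49)⟩,
  ⟨⟨0, 0, 0, 0, 0, 0, 0, 0, 0⟩, (0, 0, 0)⟩,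
  ⟨⟨0, 0, 0, 0, 0, 0, 0, 0, 0⟩, (0, 0, 0)⟩,
  ⟨⟨23, 38, -79, -43, 58, 44, -18, -9, -5⟩, (20, 11, 12)⟩,
  ⟨⟨0, 0, 0, 0, 0, 0, 0, 0, 0⟩, (0, 0, 0)⟩,
  ⟨⟨7, -58, -56, 27, -42, 49, 22, 7, -17⟩, (17, 5, 8)⟩,
  ⟨⟨0, 0, 0, 0, 0, 0, 0, 0, 0⟩, (0, 0, 0)⟩,
  ⟨⟨67, 2, -71, 33, -18, 56, -2, -23, -5⟩, (8, 34, 14)⟩,
  ⟨⟨27, -42, -76, 7, -58, 49, 22, 7, -5⟩, (50, 11, 27)⟩,
  ⟨⟨0, 0, 0, 0, 0, 0, 0, 0, 0⟩, (0, 0, 0)⟩,
  ⟨⟨0, 0, 0, 0, 0, 0, 0, 0, 0⟩, (0, 0, 0)⟩,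
  ⟨⟨0, 0, 0, 0, 0, 0, 0, 0, 0⟩, (0, 0, 0)⟩,
  ⟨⟨0, 0, 0, 0, 0, 0, 0, 0, 0⟩, (0, 0, 0)⟩,
  ⟨⟨0, 0, 0, 0, 0, 0, 0, 0, 0⟩, (0, 0, 0)⟩,
  ⟨⟨0, 0, 0, 0, 0, 0, 0, 0, 0⟩, (0, 0, 0)⟩,
  ⟨⟨0, 0, 0, 0, 0, 0, 0, 0, 0⟩, (0, 0, 0)⟩,
  ⟨⟨0, 0, 0, 0, 0, 0, 0, 0, 0⟩, (0, 0, 0)⟩,
  ⟨⟨0, 0, 0, 0, 0, 0, 0, 0, 0⟩, (0, 0, 0)⟩,
  ⟨⟨-37, 62, -4, -57, -42, 1, 10, -1, -29⟩, (22, 21, 27)⟩,
  ⟨⟨0, 0, 0, 0, 0, 0, 0, 0, 0⟩, (0, 0, 0)⟩,
  ⟨⟨0, 0, 0, 0, 0, 0, 0, 0, 0⟩, (0, 0, 0)⟩,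
  ⟨⟨0, 0, 0, 0, 0, 0, 0, 0, 0⟩, (0, 0, 0)⟩,
  ⟨⟨0, 0, 0, 0, 0, 0, 0, 0, 0⟩, (0, 0, 0)⟩,
  ⟨⟨0, 0, 0, 0, 0, 0, 0, 0, 0⟩, (0, 0, 0)⟩,
  ⟨⟨-37, -62, -4, -57, 42, 1, 10, 1, -29⟩, (6, 25, 17)⟩,
  ⟨⟨0, 0, 0, 0, 0, 0, 0, 0, 0⟩, (0, 0, 0)⟩]

/-- Data of a prime. -/
noncomputable def Dm : PD := ⟨(nat_lit 37), (nat_lit 2), (556, 16, 5), (1239, 947, 1101), (730, 506, 467)⟩

theorem Dm_ok : Dm.Ok := pdb_sound (s := 2) (C := ⟨⟨43, 22, -44, 23, -2, 41, 6, -15, -7⟩, (6, 23, 6)⟩) (by show Nat.Prime 37; norm_num) (by decide +kernel)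

/-- Lines of the first type. -/
noncomputable def Clm : List C1 := [⟨⟨23, -2, -64, 43, 22, 1, -6, 15, -1⟩, (31, 29, 8)⟩,
  ⟨⟨0, 0, 0, 0, 0, 0, 0, 0, 0⟩, (0, 0, 0)⟩,
  ⟨⟨-7, 22, -49, 27, 42, 4, 14, -7, -13⟩, (1, 12, 35)⟩,
  ⟨⟨-13, 38, -31, -47, -22, 16, 6, -9, -17⟩, (20, 4, 5)⟩,
  ⟨⟨0, 0, 0, 0, 0, 0, 0, 0, 0⟩, (0, 0, 0)⟩,
  ⟨⟨0, 0, 0, 0, 0, 0, 0, 0, 0⟩, (0, 0, 0)⟩,
  ⟨⟨7, 22, -56, -27, 42, 31, 14, 7, -1⟩, (18, 31, 36)⟩,
  ⟨⟨0, 0, 0, 0, 0, 0, 0, 0, 0⟩, (0, 0, 0)⟩,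
  ⟨⟨0, 0, 0, 0, 0, 0, 0, 0, 0⟩, (0, 0, 0)⟩,
  ⟨⟨13, -38, -44, -47, -22, 31, -6, 9, -11⟩, (18, 26, 23)⟩,
  ⟨⟨0, 0, 0, 0, 0, 0, 0, 0, 0⟩, (0, 0, 0)⟩,
  ⟨⟨0, 0, 0, 0, 0, 0, 0, 0, 0⟩, (0, 0, 0)⟩,
  ⟨⟨0, 0, 0, 0, 0, 0, 0, 0, 0⟩, (0, 0, 0)⟩,
  ⟨⟨0, 0, 0, 0, 0, 0, 0, 0, 0⟩, (0, 0, 0)⟩,
  ⟨⟨13, 38, -44, -47, 22, 31, -6, -9, -11⟩, (4, 14, 1)⟩,
  ⟨⟨0, 0, 0, 0, 0, 0, 0, 0, 0⟩, (0, 0, 0)⟩,
  ⟨⟨0, 0, 0, 0, 0, 0, 0, 0, 0⟩, (0, 0, 0)⟩,
  ⟨⟨0, 0, 0, 0, 0, 0, 0, 0, 0⟩, (0, 0, 0)⟩,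
  ⟨⟨0, 0, 0, 0, 0, 0, 0, 0, 0⟩, (0, 0, 0)⟩,
  ⟨⟨0, 0, 0, 0, 0, 0, 0, 0, 0⟩, (0, 0, 0)⟩,
  ⟨⟨0, 0, 0, 0, 0, 0, 0, 0, 0⟩, (0, 0, 0)⟩,
  ⟨⟨0, 0, 0, 0, 0, 0, 0, 0, 0⟩, (0, 0, 0)⟩,
  ⟨⟨0, 0, 0, 0, 0, 0, 0, 0, 0⟩, (0, 0, 0)⟩,
  ⟨⟨-7, -22, -49, 27, -42, 4, 14, 7, -13⟩, (13, 8, 11)⟩,
  ⟨⟨0, 0, 0, 0, 0, 0, 0, 0, 0⟩, (0, 0, 0)⟩,
  ⟨⟨0, 0, 0, 0, 0, 0, 0, 0, 0⟩, (0, 0, 0)⟩,
  ⟨⟨0, 0, 0, 0, 0, 0, 0, 0, 0⟩, (0, 0, 0)⟩,
  ⟨⟨0, 0, 0, 0, 0, 0, 0, 0, 0⟩, (0, 0, 0)⟩,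
  ⟨⟨23, 2, -64, 43, -22, 1, -6, -15, -1⟩, (3, 4, 33)⟩,
  ⟨⟨0, 0, 0, 0, 0, 0, 0, 0, 0⟩, (0, 0, 0)⟩,
  ⟨⟨0, 0, 0, 0, 0, 0, 0, 0, 0⟩, (0, 0, 0)⟩,
  ⟨⟨-13, -38, -31, -47, 22, 16, 6, 9, -17⟩, (34, 29, 27)⟩,
  ⟨⟨7, -22, -56, -27, -42, 31, 14, -7, -1⟩, (30, 27, 23)⟩,
  ⟨⟨0, 0, 0, 0, 0, 0, 0, 0, 0⟩, (0, 0, 0)⟩,
  ⟨⟨43, -22, -44, 23, 2, 41, 6, 15, -7⟩, (12, 9, 12)⟩,
  ⟨⟨0, 0, 0, 0, 0, 0, 0, 0, 0⟩, (0, 0, 0)⟩,
  ⟨⟨0, 0, 0, 0, 0, 0, 0, 0, 0⟩, (0, 0, 0)⟩]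

/-- Unit moves. -/
noncomputable def U : List Mv := [mz,
  mz,
  ⟨⟨1, 0, 0, 0, -1, 0, 0, 0, 1⟩, .nil, (nat_lit 0), (nat_lit 2), (nat_lit 1), (nat_lit 0), (0, 0, 0), [], 2⟩,
  mz,
  ⟨⟨-1, 0, 1, 0, 1, 0, 0, 0, 1⟩, .nil, (nat_lit 6), (nat_lit 0), (nat_lit 0), (nat_lit 1), (0, 0, 0), [], 1⟩,
  ⟨⟨-1, 0, 1, 0, -1, 0, 0, 0, 1⟩, .nil, (nat_lit 0), (nat_lit 5), (nat_lit 1), (nat_lit 0), (0, 0, 0), [], 2⟩,
  ⟨⟨-1, 0, 1, 0, 1, 0, 0, 0, 1⟩, .nil, (nat_lit 6), (nat_lit 0), (nat_lit 0), (nat_lit 1), (0, 0, 0), [], 1⟩]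

theorem v_ty : tyb Dm S.ty1 Clm = true := by decide +kernel

theorem v_ty0 : tyb D0 (S.tys.getD 0 0) Cl0 = true := by decide +kernel

theorem v_ty1 : tyb D1 (S.tys.getD 1 0) Cl1 = true := by decide +kernel

theorem v_msc : mscb S D0 [D1] Dm (nat_lit 10) = true := by decide +kernel

theorem v_mv0 : mvsn (nat_lit 1319013703) S D0 [D1] Dm (nat_lit 10) 0 D0 = true := by decide +kernel

theorem v_mv1 : mvsn (nat_lit 1319013703) S D0 [D1] Dm (nat_lit 10) 1 D1 = true := by decide +kernel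

theorem v_mm : mmsn (nat_lit 1319013703) S D0 [D1] Dm (nat_lit 10) = true := by decide +kernel

theorem v_un : unb S D0 (nat_lit 10) U = true := by decide +kernel

theorem v_ok : okb S.oks [(0, 0, 0), (0, 3, 0), (0, 0, 0), (5, 8, 4)] = true := by decide +kernel

theorem v_part : ∀ d < D0.p, (nat_lit 10).testBit d = true → part S (zc (D0 :: [D1])) d = true := by
  intro d hd h
  have h1 : ∀ d < 7, (nat_lit 10).testBit d = true → d = 1 ∨ d = 3 := by decide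
  rcases h1 d hd h with rfl | rfl
  · exact part_1
  · exact part_3

theorem main (n : ℕ) (ho : Odd n) (hr : ¬ Rep n) (h0 : Split 7 n) (h1 : Split 53 n) (hm : Split 37 n) :
    n ∈ EE := by
  refine concln (W := nat_lit 1319013703) (S := S) (P0 := D0) (Pl := [D1]) (Pm := Dm) (cn := nat_lit 10) ?_ Dm_ok v_ty ?_ ?_ v_msc ?_ v_mm v_un v_part v_ok
    n ho hr ?_ hm
  · simp only [List.forall_mem_cons]
    exact ⟨D0_ok, D1_ok, fun _ h => absurd h (by simp)⟩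
  · exact all2 (φ := fun j P => ∃ L, tyb P (S.tys.getD j 0) L = true) ⟨_, v_ty0⟩ ⟨_, v_ty1⟩
  · exact all2 (φ := fun j P => Nat.ble (S.pks.getD j 0) (Nat.pow P.p P.K) = true) (by decide +kernel) (by decide +kernel)
  · exact all2 (φ := fun i P => mvsn (nat_lit 1319013703) S D0 [D1] Dm (nat_lit 10) i P = true) v_mv0 v_mv1
  · simp only [List.forall_mem_cons]
    exact ⟨h0, h1, fun _ h => absurd h (by simp)⟩

end Pool.Agent.Work.MP_9954fe_nt.P7_53_37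

namespace Pool.Agent.Work.MP_9954fe_nt.P7_43_71

/-- Dummy move. -/
noncomputable def mz : Mv := ⟨⟨0, 0, 0, 0, 0, 0, 0, 0, 0⟩, .nil, (nat_lit 0), (nat_lit 0), (nat_lit 0), (nat_lit 0), (0, 0, 0), [], 0⟩

/-- Moves. -/
noncomputable def t0_1 : List Mv := [
  ⟨⟨-3, 4, -5, 2, -5, -6, 4, 4, -5⟩, (.cons (nat_lit 2251) (nat_lit 589) (nat_lit 1020) (nat_lit 1) (.cons
 (nat_lit 657) (nat_lit 845) (nat_lit 1035) (nat_lit 1) .nil)), (nat_lit 45), (nat_lit 42), (nat_lit 47),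
 (nat_lit 1), (3, 5, 3), [680, 934], 13⟩,
  ⟨⟨-3, 4, -5, -2, 5, 6, 4, 4, -5⟩, (.cons (nat_lit 1319) (nat_lit 1843) (nat_lit 312) (nat_lit 1) (.cons
 (nat_lit 861) (nat_lit 545) (nat_lit 971) (nat_lit 1) .nil)), (nat_lit 63), (nat_lit 65), (nat_lit 60),
 (nat_lit 1), (3, 2, 3), [142, 1511], 50⟩,
  ⟨⟨7, 0, 0, 2, -5, -6, 4, 4, -5⟩, (.cons (nat_lit 1550) (nat_lit 209) (nat_lit 684) (nat_lit 1) (.cons (nat_lit 461) (nat_lit 1262) (nat_lit 519) (nat_lit 1) .nil)), (nat_lit 18), (nat_lit 50), (nat_lit 25), (nat_lit 1), (0, 5, 3), [253, 203], 38⟩,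
  ⟨⟨-3, 4, -5, 2, -5, -6, 4, 4, -5⟩, (.cons (nat_lit 2251) (nat_lit 589) (nat_lit 1020) (nat_lit 1) (.cons
 (nat_lit 657) (nat_lit 845) (nat_lit 1035) (nat_lit 1) .nil)), (nat_lit 45), (nat_lit 42), (nat_lit 47),
 (nat_lit 1), (3, 5, 3), [680, 934], 13⟩,
  ⟨⟨-3, 4, -5, 2, -5, -6, 4, 4, -5⟩, (.cons (nat_lit 2251) (nat_lit 589) (nat_lit 1020) (nat_lit 1) (.cons
 (nat_lit 657) (nat_lit 845) (nat_lit 1035) (nat_lit 1) .nil)), (nat_lit 45), (nat_lit 42), (nat_lit 47),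
 (nat_lit 1), (3, 5, 3), [680, 934], 13⟩,
  ⟨⟨-3, 4, -5, 2, -5, -6, 4, 4, -5⟩, (.cons (nat_lit 2251) (nat_lit 589) (nat_lit 1020) (nat_lit 1) (.cons
 (nat_lit 657) (nat_lit 845) (nat_lit 1035) (nat_lit 1) .nil)), (nat_lit 45), (nat_lit 42), (nat_lit 47),
 (nat_lit 1), (3, 5, 3), [680, 934], 13⟩,
  ⟨⟨7, 0, 0, 2, -5, -6, 4, 4, -5⟩, (.cons (nat_lit 1550) (nat_lit 209) (nat_lit 684) (nat_lit 1) (.cons (nat_lit 461) (nat_lit 1262) (nat_lit 519) (nat_lit 1) .nil)), (nat_lit 18), (nat_lit 50), (nat_lit 25), (nat_lit 1), (0, 5, 3), [253, 203], 38⟩]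

/-- Moves. -/
noncomputable def t0_3 : List Mv := [
  ⟨⟨1, 0, -9, 0, -7, 0, 6, 0, -5⟩, (.cons (nat_lit 489) (nat_lit 1009) (nat_lit 488) (nat_lit 1) (.cons (nat_lit 259) (nat_lit 833) (nat_lit 573) (nat_lit 1) .nil)), (nat_lit 43), (nat_lit 46), (nat_lit 65), (nat_lit 1), (2, 0, 5), [2099, 56], 39⟩,
  ⟨⟨1, 0, -9, 0, -7, 0, 6, 0, -5⟩, (.cons (nat_lit 489) (nat_lit 1009) (nat_lit 488) (nat_lit 1) (.cons (nat_lit 259) (nat_lit 833) (nat_lit 573) (nat_lit 1) .nil)), (nat_lit 43), (nat_lit 46), (nat_lit 65), (nat_lit 1), (2, 0, 5), [2099, 56], 39⟩,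
  ⟨⟨5, 0, 4, 0, 7, 0, 6, 0, -5⟩, (.cons (nat_lit 200) (nat_lit 705) (nat_lit 69) (nat_lit 1) (.cons (nat_lit 1848) (nat_lit 605) (nat_lit 1755) (nat_lit 1) .nil)), (nat_lit 70), (nat_lit 12), (nat_lit 21), (nat_lit 1), (3, 0, 5), [425, 1301], 67⟩,
  ⟨⟨5, 0, 4, 0, -7, 0, 6, 0, -5⟩, (.cons (nat_lit 1828) (nat_lit 426) (nat_lit 1412) (nat_lit 1) (.cons
 (nat_lit 1848) (nat_lit 1188) (nat_lit 1132) (nat_lit 1) .nil)), (nat_lit 70), (nat_lit 51), (nat_lit 23),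
 (nat_lit 1), (3, 0, 5), [566, 1389], 18⟩,
  ⟨⟨1, 0, -9, 0, -7, 0, 6, 0, -5⟩, (.cons (nat_lit 489) (nat_lit 1009) (nat_lit 488) (nat_lit 1) (.cons (nat_lit 259) (nat_lit 833) (nat_lit 573) (nat_lit 1) .nil)), (nat_lit 43), (nat_lit 46), (nat_lit 65), (nat_lit 1), (2, 0, 5), [2099, 56], 39⟩,
  ⟨⟨1, 0, -9, 0, 7, 0, 6, 0, -5⟩, (.cons (nat_lit 1599) (nat_lit 317) (nat_lit 496) (nat_lit 1) (.cons (nat_lit 646) (nat_lit 1803) (nat_lit 379) (nat_lit 1) .nil)), (nat_lit 61), (nat_lit 15), (nat_lit 32), (nat_lit 1), (2, 0, 5), [432, 828], 49⟩,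
  ⟨⟨1, 0, -9, 0, -7, 0, 6, 0, -5⟩, (.cons (nat_lit 489) (nat_lit 1009) (nat_lit 488) (nat_lit 1) (.cons (nat_lit 259) (nat_lit 833) (nat_lit 573) (nat_lit 1) .nil)), (nat_lit 43), (nat_lit 46), (nat_lit 65), (nat_lit 1), (2, 0, 5), [2099, 56], 39⟩]

/-- Moves. -/
noncomputable def t1_1 : List Mv := [
  mz,
  ⟨⟨3, 44, -20, 2, 15, 44, 36, 12, -25⟩, (.cons (nat_lit 455) (nat_lit 103) (nat_lit 1789) (nat_lit 1) (.cons
 (nat_lit 1146) (nat_lit 1615) (nat_lit 185) (nat_lit 1) .nil)), (nat_lit 35), (nat_lit 68), (nat_lit 31),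
 (nat_lit 1), (36, 24, 2), [176, 60], 37⟩,
  mz,
  mz,
  ⟨⟨19, 36, -36, -20, -13, -30, 34, -8, -35⟩, (.cons (nat_lit 1475) (nat_lit 177) (nat_lit 2153) (nat_lit 1)
 (.cons (nat_lit 749) (nat_lit 1193) (nat_lit 216) (nat_lit 1) .nil)), (nat_lit 57), (nat_lit 46), (nat_lit
 47), (nat_lit 1), (14, 26, 16), [1060, 1777], 61⟩,
  ⟨⟨33, -32, -28, 2, 15, -46, 36, 12, -11⟩, (.cons (nat_lit 1139) (nat_lit 1204) (nat_lit 1056) (nat_lit 1)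
 (.cons (nat_lit 667) (nat_lit 738) (nat_lit 1461) (nat_lit 1) .nil)), (nat_lit 48), (nat_lit 39), (nat_lit
 54), (nat_lit 1), (19, 22, 9), [495, 416], 43⟩,
  ⟨⟨-37, -24, 0, -20, 37, 0, 2, -8, -43⟩, (.cons (nat_lit 2400) (nat_lit 295) (nat_lit 1839) (nat_lit 1) (.cons
 (nat_lit 1390) (nat_lit 1579) (nat_lit 547) (nat_lit 1) .nil)), (nat_lit 70), (nat_lit 43), (nat_lit 40),
 (nat_lit 1), (12, 3, 4), [358, 1160], 50⟩,
  ⟨⟨-3, -32, 40, -20, -27, -20, 30, -24, -13⟩, (.cons (nat_lit 2400) (nat_lit 2131) (nat_lit 883) (nat_lit 1)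
 (.cons (nat_lit 752) (nat_lit 1209) (nat_lit 906) (nat_lit 1) .nil)), (nat_lit 70), (nat_lit 68), (nat_lit
 61), (nat_lit 1), (1, 21, 33), [1718, 6], 16⟩,
  ⟨⟨37, 24, -37, -20, 37, 20, -2, 8, -41⟩, (.cons (nat_lit 1870) (nat_lit 2237) (nat_lit 1439) (nat_lit 1)
 (.cons (nat_lit 1749) (nat_lit 532) (nat_lit 679) (nat_lit 1) .nil)), (nat_lit 29), (nat_lit 34), (nat_lit
 52), (nat_lit 1), (34, 13, 40), [22, 773], 14⟩,
  ⟨⟨-29, 0, -27, 0, -43, 0, 18, 0, -47⟩, (.cons (nat_lit 120) (nat_lit 167) (nat_lit 780) (nat_lit 1) (.cons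
 (nat_lit 988) (nat_lit 244) (nat_lit 1529) (nat_lit 1) .nil)), (nat_lit 54), (nat_lit 31), (nat_lit 33),
 (nat_lit 1), (33, 0, 24), [1690, 439], 61⟩,
  ⟨⟨21, -20, 31, 38, 15, -34, 12, -36, -13⟩, (.cons (nat_lit 1302) (nat_lit 1679) (nat_lit 181) (nat_lit 1)
 (.cons (nat_lit 1841) (nat_lit 1697) (nat_lit 681) (nat_lit 1) .nil)), (nat_lit 41), (nat_lit 38), (nat_lit
 50), (nat_lit 1), (8, 37, 23), [652, 40], 62⟩,
  mz,
  ⟨⟨-15, 44, 16, 20, 13, -50, -34, 8, -1⟩, (.cons (nat_lit 1423) (nat_lit 2272) (nat_lit 1007) (nat_lit 1)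
 (.cons (nat_lit 1138) (nat_lit 1770) (nat_lit 1523) (nat_lit 1) .nil)), (nat_lit 22), (nat_lit 50), (nat_lit
 6), (nat_lit 1), (28, 20, 9), [2267, 1270], 45⟩,
  ⟨⟨-3, -32, -37, 20, 27, -40, 30, -24, -17⟩, (.cons (nat_lit 1541) (nat_lit 2224) (nat_lit 1370) (nat_lit 1)
 (.cons (nat_lit 699) (nat_lit 253) (nat_lit 1352) (nat_lit 1) .nil)), (nat_lit 61), (nat_lit 29), (nat_lit
 40), (nat_lit 1), (27, 35, 31), [963, 708], 29⟩,
  mz,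
  mz,
  mz,
  ⟨⟨9, -4, -56, 40, -13, -10, 14, 32, -25⟩, (.cons (nat_lit 33) (nat_lit 2367) (nat_lit 1569) (nat_lit 1)
 (.cons (nat_lit 658) (nat_lit 1296) (nat_lit 148) (nat_lit 1) .nil)), (nat_lit 57), (nat_lit 42), (nat_lit
 65), (nat_lit 1), (19, 8, 20), [59, 703], 61⟩,
  ⟨⟨-9, 4, -47, 40, -13, -30, -14, -32, -11⟩, (.cons (nat_lit 1873) (nat_lit 1980) (nat_lit 758) (nat_lit 1)
 (.cons (nat_lit 1416) (nat_lit 1254) (nat_lit 635) (nat_lit 1) .nil)), (nat_lit 43), (nat_lit 48), (nat_lit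
 52), (nat_lit 1), (37, 41, 5), [1665, 196], 27⟩,
  mz,
  mz,
  ⟨⟨21, 20, 31, 38, -15, -34, 12, 36, -13⟩, (.cons (nat_lit 1684) (nat_lit 7) (nat_lit 2096) (nat_lit 1) (.cons
 (nat_lit 581) (nat_lit 1424) (nat_lit 1449) (nat_lit 1) .nil)), (nat_lit 60), (nat_lit 54), (nat_lit 68),
 (nat_lit 1), (12, 34, 13), [949, 689], 32⟩,
  ⟨⟨-21, 20, 52, 38, 15, -4, -12, 36, -1⟩, (.cons (nat_lit 2350) (nat_lit 451) (nat_lit 1) (nat_lit 805) (.cons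
 (nat_lit 59) (nat_lit 1353) (nat_lit 1392) (nat_lit 1) .nil)), (nat_lit 69), (nat_lit 65), (nat_lit 62),
 (nat_lit 1), (12, 9, 13), [1586, 814], 6⟩,
  mz,
  mz,
  ⟨⟨5, -36, 31, 40, 13, -10, 14, -32, -25⟩, (.cons (nat_lit 458) (nat_lit 296) (nat_lit 1593) (nat_lit 1)
 (.cons (nat_lit 517) (nat_lit 1690) (nat_lit 283) (nat_lit 1) .nil)), (nat_lit 58), (nat_lit 14), (nat_lit
 31), (nat_lit 1), (11, 2, 5), [1174, 711], 51⟩,
  ⟨⟨-5, 36, 36, 40, 13, -30, -14, 32, -11⟩, (.cons (nat_lit 2193) (nat_lit 1482) (nat_lit 93) (nat_lit 1)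
 (.cons (nat_lit 1289) (nat_lit 967) (nat_lit 677) (nat_lit 1) .nil)), (nat_lit 22), (nat_lit 25), (nat_lit
 12), (nat_lit 1), (1, 35, 20), [2211, 1176], 45⟩,
  mz,
  mz,
  mz,
  ⟨⟨33, -8, -53, 20, -27, 20, 30, 24, -13⟩, (.cons (nat_lit 617) (nat_lit 1164) (nat_lit 2263) (nat_lit 1)
 (.cons (nat_lit 1578) (nat_lit 1332) (nat_lit 1289) (nat_lit 1) .nil)), (nat_lit 7), (nat_lit 10), (nat_lit
 4), (nat_lit 1), (39, 8, 12), [381, 1347], 70⟩,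
  ⟨⟨15, 44, 1, -20, 13, -30, 34, 8, -35⟩, (.cons (nat_lit 173) (nat_lit 1614) (nat_lit 526) (nat_lit 1) (.cons
 (nat_lit 1547) (nat_lit 1757) (nat_lit 184) (nat_lit 1) .nil)), (nat_lit 60), (nat_lit 12), (nat_lit 57),
 (nat_lit 1), (28, 20, 9), [412, 15], 65⟩,
  mz,
  ⟨⟨-21, -20, 52, 38, -15, -4, -12, -36, -1⟩, (.cons (nat_lit 2175) (nat_lit 446) (nat_lit 245) (nat_lit 1)
 (.cons (nat_lit 269) (nat_lit 445) (nat_lit 1731) (nat_lit 1) .nil)), (nat_lit 48), (nat_lit 12), (nat_lit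
 69), (nat_lit 1), (8, 6, 23), [2368, 842], 28⟩,
  ⟨⟨29, 0, -56, 0, -43, 0, -18, 0, -29⟩, (.cons (nat_lit 2400) (nat_lit 1819) (nat_lit 88) (nat_lit 1) (.cons
 (nat_lit 1216) (nat_lit 1436) (nat_lit 744) (nat_lit 1) .nil)), (nat_lit 70), (nat_lit 2), (nat_lit 66),
 (nat_lit 1), (33, 0, 24), [528, 1554], 32⟩,
  ⟨⟨39, -16, -43, 20, 37, 0, 2, 8, -43⟩, (.cons (nat_lit 2297) (nat_lit 2152) (nat_lit 794) (nat_lit 1) (.cons
 (nat_lit 1824) (nat_lit 1292) (nat_lit 400) (nat_lit 1) .nil)), (nat_lit 49), (nat_lit 38), (nat_lit 8),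
 (nat_lit 1), (6, 13, 40), [253, 954], 31⟩,
  ⟨⟨33, -8, 20, 20, -27, -40, 30, 24, -17⟩, (.cons (nat_lit 2019) (nat_lit 886) (nat_lit 1972) (nat_lit 1)
 (.cons (nat_lit 1783) (nat_lit 953) (nat_lit 845) (nat_lit 1) .nil)), (nat_lit 42), (nat_lit 55), (nat_lit
 61), (nat_lit 1), (11, 21, 10), [816, 813], 38⟩,
  ⟨⟨37, -24, -37, 20, 37, -20, -2, -8, -41⟩, (.cons (nat_lit 575) (nat_lit 1982) (nat_lit 2207) (nat_lit 1)
 (.cons (nat_lit 606) (nat_lit 1510) (nat_lit 15) (nat_lit 1) .nil)), (nat_lit 29), (nat_lit 51), (nat_lit 11),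
 (nat_lit 1), (12, 3, 4), [1128, 1705], 14⟩,
  ⟨⟨33, 32, -5, 2, -15, 44, 36, -12, -25⟩, (.cons (nat_lit 1892) (nat_lit 1162) (nat_lit 820) (nat_lit 1)
 (.cons (nat_lit 1214) (nat_lit 602) (nat_lit 1700) (nat_lit 1) .nil)), (nat_lit 58), (nat_lit 63), (nat_lit
 32), (nat_lit 1), (24, 21, 34), [667, 311], 12⟩,
  ⟨⟨-19, 36, -17, 20, -13, -50, -34, -8, -1⟩, (.cons (nat_lit 1969) (nat_lit 604) (nat_lit 920) (nat_lit 1)
 (.cons (nat_lit 1054) (nat_lit 880) (nat_lit 694) (nat_lit 1) .nil)), (nat_lit 38), (nat_lit 22), (nat_lit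
 12), (nat_lit 1), (14, 26, 16), [1144, 504], 9⟩,
  mz,
  mz,
  ⟨⟨3, -44, 17, 2, -15, -46, 36, -12, -11⟩, (.cons (nat_lit 882) (nat_lit 124) (nat_lit 843) (nat_lit 1) (.cons
 (nat_lit 1454) (nat_lit 600) (nat_lit 1661) (nat_lit 1) .nil)), (nat_lit 41), (nat_lit 19), (nat_lit 29),
 (nat_lit 1), (7, 19, 41), [1707, 1465], 9⟩]

/-- Moves. -/
noncomputable def t1_3 : List Mv := [
  mz,
  ⟨⟨3, 44, -20, -2, -15, -44, 36, 12, -25⟩, (.cons (nat_lit 1158) (nat_lit 2148) (nat_lit 2009) (nat_lit 1)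
 (.cons (nat_lit 189) (nat_lit 471) (nat_lit 983) (nat_lit 1) .nil)), (nat_lit 37), (nat_lit 53), (nat_lit 3),
 (nat_lit 1), (36, 19, 2), [1019, 554], 63⟩,
  mz,
  mz,
  ⟨⟨15, -44, 1, -20, -13, -30, 34, -8, -35⟩, (.cons (nat_lit 1038) (nat_lit 1678) (nat_lit 1782) (nat_lit 1)
 (.cons (nat_lit 1100) (nat_lit 785) (nat_lit 732) (nat_lit 1) .nil)), (nat_lit 69), (nat_lit 51), (nat_lit
 17), (nat_lit 1), (2, 26, 16), [1340, 1519], 50⟩,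
  ⟨⟨33, -32, -28, 2, 15, -46, 36, 12, -11⟩, (.cons (nat_lit 1139) (nat_lit 1204) (nat_lit 1056) (nat_lit 1)
 (.cons (nat_lit 667) (nat_lit 738) (nat_lit 1461) (nat_lit 1) .nil)), (nat_lit 48), (nat_lit 39), (nat_lit
 54), (nat_lit 1), (19, 22, 9), [495, 416], 43⟩,
  ⟨⟨39, 16, -43, -20, 37, 0, 2, -8, -43⟩, (.cons (nat_lit 309) (nat_lit 2218) (nat_lit 2322) (nat_lit 1) (.cons
 (nat_lit 717) (nat_lit 872) (nat_lit 848) (nat_lit 1) .nil)), (nat_lit 49), (nat_lit 57), (nat_lit 29),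
 (nat_lit 1), (35, 3, 4), [911, 988], 31⟩,
  ⟨⟨33, 8, -53, -20, -27, -20, 30, -24, -13⟩, (.cons (nat_lit 1758) (nat_lit 1894) (nat_lit 274) (nat_lit 1)
 (.cons (nat_lit 1484) (nat_lit 81) (nat_lit 949) (nat_lit 1) .nil)), (nat_lit 7), (nat_lit 64), (nat_lit 45),
 (nat_lit 1), (32, 21, 33), [1452, 1425], 70⟩,
  ⟨⟨-39, -16, -4, 20, -37, -20, -2, 8, -41⟩, (.cons (nat_lit 810) (nat_lit 2075) (nat_lit 1486) (nat_lit 1)
 (.cons (nat_lit 962) (nat_lit 777) (nat_lit 1488) (nat_lit 1) .nil)), (nat_lit 34), (nat_lit 58), (nat_lit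
 28), (nat_lit 1), (6, 30, 40), [1513, 1438], 68⟩,
  ⟨⟨-29, 0, -27, 0, -43, 0, 18, 0, -47⟩, (.cons (nat_lit 120) (nat_lit 167) (nat_lit 780) (nat_lit 1) (.cons
 (nat_lit 988) (nat_lit 244) (nat_lit 1529) (nat_lit 1) .nil)), (nat_lit 54), (nat_lit 31), (nat_lit 33),
 (nat_lit 1), (33, 0, 24), [1690, 439], 61⟩,
  ⟨⟨-9, -16, -44, 38, 15, -34, 12, -36, -13⟩, (.cons (nat_lit 1127) (nat_lit 491) (nat_lit 286) (nat_lit 1)
 (.cons (nat_lit 1255) (nat_lit 1356) (nat_lit 1627) (nat_lit 1) .nil)), (nat_lit 35), (nat_lit 70), (nat_lit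
 22), (nat_lit 1), (15, 37, 23), [638, 900], 37⟩,
  mz,
  ⟨⟨-15, 44, 16, -20, -13, 50, -34, 8, -1⟩, (.cons (nat_lit 2110) (nat_lit 2111) (nat_lit 389) (nat_lit 1)
 (.cons (nat_lit 1529) (nat_lit 1492) (nat_lit 1299) (nat_lit 1) .nil)), (nat_lit 5), (nat_lit 3), (nat_lit
 30), (nat_lit 1), (28, 23, 9), [2099, 676], 34⟩,
  ⟨⟨33, 8, 20, 20, 27, -40, 30, -24, -17⟩, (.cons (nat_lit 2400) (nat_lit 513) (nat_lit 313) (nat_lit 1) (.cons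
 (nat_lit 290) (nat_lit 1037) (nat_lit 879) (nat_lit 1) .nil)), (nat_lit 70), (nat_lit 53), (nat_lit 22),
 (nat_lit 1), (4, 35, 31), [1635, 1525], 55⟩,
  mz,
  mz,
  mz,
  ⟨⟨5, 36, 31, 40, -13, -10, 14, 32, -25⟩, (.cons (nat_lit 198) (nat_lit 979) (nat_lit 1247) (nat_lit 1) (.cons
 (nat_lit 976) (nat_lit 381) (nat_lit 965) (nat_lit 1) .nil)), (nat_lit 38), (nat_lit 50), (nat_lit 28),
 (nat_lit 1), (1, 8, 20), [1816, 1262], 9⟩,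
  ⟨⟨-5, -36, 36, 40, -13, -30, -14, -32, -11⟩, (.cons (nat_lit 1382) (nat_lit 288) (nat_lit 1794) (nat_lit 1)
 (.cons (nat_lit 1809) (nat_lit 208) (nat_lit 807) (nat_lit 1) .nil)), (nat_lit 5), (nat_lit 54), (nat_lit 49),
 (nat_lit 1), (11, 41, 5), [1042, 1486], 34⟩,
  mz,
  mz,
  ⟨⟨-9, 16, -44, 38, -15, -34, 12, 36, -13⟩, (.cons (nat_lit 976) (nat_lit 1386) (nat_lit 1774) (nat_lit 1)
 (.cons (nat_lit 1483) (nat_lit 1715) (nat_lit 1148) (nat_lit 1) .nil)), (nat_lit 37), (nat_lit 48), (nat_lit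
 61), (nat_lit 1), (1, 34, 13), [67, 1], 63⟩,
  ⟨⟨9, 16, -53, 38, 15, -4, -12, 36, -1⟩, (.cons (nat_lit 1857) (nat_lit 228) (nat_lit 1) (nat_lit 392) (.cons
 (nat_lit 285) (nat_lit 1700) (nat_lit 446) (nat_lit 1) .nil)), (nat_lit 26), (nat_lit 3), (nat_lit 27),
 (nat_lit 1), (1, 9, 13), [445, 1674], 22⟩,
  mz,
  mz,
  ⟨⟨5, -36, 31, 40, 13, -10, 14, -32, -25⟩, (.cons (nat_lit 458) (nat_lit 296) (nat_lit 1593) (nat_lit 1)
 (.cons (nat_lit 517) (nat_lit 1690) (nat_lit 283) (nat_lit 1) .nil)), (nat_lit 58), (nat_lit 14), (nat_lit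
 31), (nat_lit 1), (11, 2, 5), [1174, 711], 51⟩,
  ⟨⟨-5, 36, 36, 40, 13, -30, -14, 32, -11⟩, (.cons (nat_lit 2193) (nat_lit 1482) (nat_lit 93) (nat_lit 1)
 (.cons (nat_lit 1289) (nat_lit 967) (nat_lit 677) (nat_lit 1) .nil)), (nat_lit 22), (nat_lit 25), (nat_lit
 12), (nat_lit 1), (1, 35, 20), [2211, 1176], 45⟩,
  mz,
  mz,
  mz,
  ⟨⟨33, -8, -53, -20, 27, -20, 30, 24, -13⟩, (.cons (nat_lit 1234) (nat_lit 267) (nat_lit 683) (nat_lit 1)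
 (.cons (nat_lit 210) (nat_lit 822) (nat_lit 830) (nat_lit 1) .nil)), (nat_lit 45), (nat_lit 17), (nat_lit 41),
 (nat_lit 1), (39, 35, 12), [383, 231], 9⟩,
  ⟨⟨15, 44, 1, -20, 13, -30, 34, 8, -35⟩, (.cons (nat_lit 173) (nat_lit 1614) (nat_lit 526) (nat_lit 1) (.cons
 (nat_lit 1547) (nat_lit 1757) (nat_lit 184) (nat_lit 1) .nil)), (nat_lit 60), (nat_lit 12), (nat_lit 57),
 (nat_lit 1), (28, 20, 9), [412, 15], 65⟩,
  mz,
  ⟨⟨9, -16, -53, 38, -15, -4, -12, -36, -1⟩, (.cons (nat_lit 1668) (nat_lit 2242) (nat_lit 602) (nat_lit 1)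
 (.cons (nat_lit 806) (nat_lit 1662) (nat_lit 11) (nat_lit 1) .nil)), (nat_lit 58), (nat_lit 15), (nat_lit 35),
 (nat_lit 1), (15, 6, 23), [254, 1014], 12⟩,
  ⟨⟨-47, 0, 27, 0, -43, 0, -18, 0, -29⟩, (.cons (nat_lit 2381) (nat_lit 939) (nat_lit 1194) (nat_lit 1) (.cons
 (nat_lit 203) (nat_lit 1746) (nat_lit 787) (nat_lit 1) .nil)), (nat_lit 25), (nat_lit 6), (nat_lit 27),
 (nat_lit 1), (34, 0, 24), [1319, 92], 69⟩,
  ⟨⟨39, -16, -43, -20, -37, 0, 2, 8, -43⟩, (.cons (nat_lit 1241) (nat_lit 535) (nat_lit 1335) (nat_lit 1)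
 (.cons (nat_lit 118) (nat_lit 320) (nat_lit 1428) (nat_lit 1) .nil)), (nat_lit 46), (nat_lit 16), (nat_lit 1),
 (nat_lit 1), (6, 30, 40), [57, 1710], 12⟩,
  ⟨⟨33, -8, 20, 20, -27, -40, 30, 24, -17⟩, (.cons (nat_lit 2019) (nat_lit 886) (nat_lit 1972) (nat_lit 1)
 (.cons (nat_lit 1783) (nat_lit 953) (nat_lit 845) (nat_lit 1) .nil)), (nat_lit 42), (nat_lit 55), (nat_lit
 61), (nat_lit 1), (11, 21, 10), [816, 813], 38⟩,
  ⟨⟨-39, 16, -4, 20, 37, -20, -2, -8, -41⟩, (.cons (nat_lit 2400) (nat_lit 237) (nat_lit 1969) (nat_lit 1)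
 (.cons (nat_lit 1716) (nat_lit 1629) (nat_lit 1047) (nat_lit 1) .nil)), (nat_lit 70), (nat_lit 46), (nat_lit
 31), (nat_lit 1), (35, 3, 4), [1436, 931], 54⟩,
  ⟨⟨3, -44, -20, -2, 15, -44, 36, -12, -25⟩, (.cons (nat_lit 615) (nat_lit 559) (nat_lit 1) (nat_lit 1589)
 (.cons (nat_lit 1151) (nat_lit 538) (nat_lit 1) (nat_lit 989) .nil)), (nat_lit 64), (nat_lit 2), (nat_lit 46),
 (nat_lit 1), (10, 22, 34), [1177, 666], 3⟩,
  ⟨⟨-15, -44, 16, -20, 13, 50, -34, -8, -1⟩, (.cons (nat_lit 536) (nat_lit 2211) (nat_lit 862) (nat_lit 1)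
 (.cons (nat_lit 1399) (nat_lit 570) (nat_lit 358) (nat_lit 1) .nil)), (nat_lit 30), (nat_lit 38), (nat_lit
 34), (nat_lit 1), (2, 17, 16), [1846, 729], 49⟩,
  mz,
  mz,
  ⟨⟨33, 32, -28, 2, -15, -46, 36, -12, -11⟩, (.cons (nat_lit 161) (nat_lit 751) (nat_lit 2222) (nat_lit 1)
 (.cons (nat_lit 610) (nat_lit 1464) (nat_lit 758) (nat_lit 1) .nil)), (nat_lit 10), (nat_lit 24), (nat_lit
 52), (nat_lit 1), (34, 19, 41), [1441, 1551], 55⟩]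

/-- Moves. -/
noncomputable def t4_1 : List Mv := [
  mz,
  ⟨⟨-75, 20, 43, -10, -21, -70, -12, 60, -13⟩, (.cons (nat_lit 714) (nat_lit 1149) (nat_lit 396) (nat_lit 1)
 (.cons (nat_lit 1010) (nat_lit 1358) (nat_lit 640) (nat_lit 1) .nil)), (nat_lit 55), (nat_lit 0), (nat_lit 0),
 (nat_lit 0), (51, 21, 11), [1957, 1244], 0⟩,
  mz,
  ⟨⟨65, -24, -72, -4, 55, -48, -10, -40, -49⟩, (.cons (nat_lit 2400) (nat_lit 1933) (nat_lit 295) (nat_lit 1)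
 (.cons (nat_lit 1848) (nat_lit 1473) (nat_lit 1467) (nat_lit 1) .nil)), (nat_lit 3), (nat_lit 0), (nat_lit 0),
 (nat_lit 0), (37, 1, 38), [1094, 708], 0⟩,
  ⟨⟨-33, -20, -59, -64, 15, 62, -6, 48, -43⟩, (.cons (nat_lit 1087) (nat_lit 1661) (nat_lit 1767) (nat_lit 1)
 (.cons (nat_lit 413) (nat_lit 1764) (nat_lit 1012) (nat_lit 1) .nil)), (nat_lit 12), (nat_lit 0), (nat_lit 0),
 (nat_lit 0), (45, 55, 34), [1459, 1761], 0⟩,
  ⟨⟨27, -68, 16, 64, 15, -62, -6, -48, -43⟩, (.cons (nat_lit 1914) (nat_lit 235) (nat_lit 1229) (nat_lit 1)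
 (.cons (nat_lit 1844) (nat_lit 575) (nat_lit 85) (nat_lit 1) .nil)), (nat_lit 46), (nat_lit 0), (nat_lit 0),
 (nat_lit 0), (7, 35, 30), [2288, 1756], 0⟩,
  mz,
  ⟨⟨-29, 72, 20, 56, 25, -68, -38, 16, -35⟩, (.cons (nat_lit 542) (nat_lit 299) (nat_lit 851) (nat_lit 1)
 (.cons (nat_lit 1169) (nat_lit 1039) (nat_lit 345) (nat_lit 1) .nil)), (nat_lit 8), (nat_lit 0), (nat_lit 0),
 (nat_lit 0), (33, 44, 31), [1712, 974], 0⟩,
  ⟨⟨23, -72, 9, 64, 25, -12, 26, -32, -67⟩, (.cons (nat_lit 1794) (nat_lit 1740) (nat_lit 2283) (nat_lit 1)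
 (.cons (nat_lit 1607) (nat_lit 1307) (nat_lit 317) (nat_lit 1) .nil)), (nat_lit 49), (nat_lit 0), (nat_lit 0),
 (nat_lit 0), (60, 62, 3), [1031, 1449], 0⟩,
  mz,
  mz,
  ⟨⟨33, -20, -92, 64, 15, -2, 6, 48, -49⟩, (.cons (nat_lit 1034) (nat_lit 1283) (nat_lit 1698) (nat_lit 1)
 (.cons (nat_lit 1006) (nat_lit 474) (nat_lit 493) (nat_lit 1) .nil)), (nat_lit 12), (nat_lit 0), (nat_lit 0),
 (nat_lit 0), (67, 3, 38), [2110, 1030], 0⟩,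
  ⟨⟨-51, -52, -5, -44, 15, 82, -42, 24, -25⟩, (.cons (nat_lit 550) (nat_lit 1231) (nat_lit 555) (nat_lit 1)
 (.cons (nat_lit 779) (nat_lit 1500) (nat_lit 1175) (nat_lit 1) .nil)), (nat_lit 4), (nat_lit 0), (nat_lit 0),
 (nat_lit 0), (61, 22, 21), [482, 810], 0⟩,
  mz,
  mz,
  ⟨⟨-9, 76, -11, -44, -15, -38, 42, 24, -67⟩, (.cons (nat_lit 1459) (nat_lit 2179) (nat_lit 606) (nat_lit 1)
 (.cons (nat_lit 487) (nat_lit 1289) (nat_lit 1334) (nat_lit 1) .nil)), (nat_lit 67), (nat_lit 0), (nat_lit 0),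
 (nat_lit 0), (25, 67, 49), [1461, 1128], 0⟩,
  ⟨⟨17, 24, -89, -36, -55, -12, 54, -24, -53⟩, (.cons (nat_lit 302) (nat_lit 17) (nat_lit 1833) (nat_lit 1)
 (.cons (nat_lit 560) (nat_lit 1439) (nat_lit 1580) (nat_lit 1) .nil)), (nat_lit 22), (nat_lit 0), (nat_lit 0),
 (nat_lit 0), (7, 52, 64), [1277, 993], 0⟩,
  mz,
  ⟨⟨9, 56, -64, -56, -25, -12, 38, -16, -73⟩, (.cons (nat_lit 1447) (nat_lit 1779) (nat_lit 608) (nat_lit 1)
 (.cons (nat_lit 1409) (nat_lit 1497) (nat_lit 499) (nat_lit 1) .nil)), (nat_lit 39), (nat_lit 0), (nat_lit 0),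
 (nat_lit 0), (56, 46, 55), [393, 304], 0⟩,
  ⟨⟨-61, -48, 25, -44, 55, 32, -22, -8, -55⟩, (.cons (nat_lit 938) (nat_lit 1059) (nat_lit 218) (nat_lit 1)
 (.cons (nat_lit 510) (nat_lit 381) (nat_lit 973) (nat_lit 1) .nil)), (nat_lit 44), (nat_lit 0), (nat_lit 0),
 (nat_lit 0), (9, 3, 37), [2196, 971], 0⟩,
  mz,
  mz,
  ⟨⟨17, -24, 72, -36, 55, 48, 54, 24, -1⟩, (.cons (nat_lit 2400) (nat_lit 640) (nat_lit 2052) (nat_lit 1)
 (.cons (nat_lit 1848) (nat_lit 708) (nat_lit 1559) (nat_lit 1) .nil)), (nat_lit 22), (nat_lit 0), (nat_lit 0),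
 (nat_lit 0), (28, 66, 43), [116, 1716], 0⟩,
  ⟨⟨-61, 48, 25, 44, 55, -32, -22, 8, -55⟩, (.cons (nat_lit 2136) (nat_lit 590) (nat_lit 1) (nat_lit 1568)
 (.cons (nat_lit 1039) (nat_lit 1463) (nat_lit 1608) (nat_lit 1) .nil)), (nat_lit 24), (nat_lit 0), (nat_lit
 0), (nat_lit 0), (13, 43, 14), [495, 1440], 0⟩,
  ⟨⟨-39, 40, -41, 44, 55, -12, 22, -8, -77⟩, (.cons (nat_lit 882) (nat_lit 1769) (nat_lit 1350) (nat_lit 1)
 (.cons (nat_lit 1413) (nat_lit 1812) (nat_lit 317) (nat_lit 1) .nil)), (nat_lit 23), (nat_lit 0), (nat_lit 0),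
 (nat_lit 0), (2, 56, 28), [166, 1186], 0⟩,
  mz,
  ⟨⟨51, -4, 40, -10, 69, 20, 60, 12, -49⟩, (.cons (nat_lit 2400) (nat_lit 215) (nat_lit 521) (nat_lit 1) (.cons
 (nat_lit 1848) (nat_lit 1570) (nat_lit 960) (nat_lit 1) .nil)), (nat_lit 26), (nat_lit 0), (nat_lit 0),
 (nat_lit 0), (60, 30, 33), [1024, 396], 0⟩,
  mz,
  mz,
  ⟨⟨-13, -72, 36, 70, -11, -30, -4, -44, -49⟩, (.cons (nat_lit 1753) (nat_lit 1965) (nat_lit 1278) (nat_lit 1)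
 (.cons (nat_lit 468) (nat_lit 891) (nat_lit 1522) (nat_lit 1) .nil)), (nat_lit 62), (nat_lit 0), (nat_lit 0),
 (nat_lit 0), (29, 35, 69), [2299, 319], 0⟩,
  mz,
  ⟨⟨-11, 72, -25, 50, -11, -80, -44, 4, -29⟩, (.cons (nat_lit 44) (nat_lit 773) (nat_lit 664) (nat_lit 1)
 (.cons (nat_lit 886) (nat_lit 892) (nat_lit 1794) (nat_lit 1) .nil)), (nat_lit 29), (nat_lit 0), (nat_lit 0),
 (nat_lit 0), (44, 13, 34), [789, 1633], 0⟩,
  mz,
  ⟨⟨-29, -72, 20, -56, 25, 68, -38, -16, -35⟩, (.cons (nat_lit 593) (nat_lit 96) (nat_lit 702) (nat_lit 1)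
 (.cons (nat_lit 414) (nat_lit 940) (nat_lit 719) (nat_lit 1) .nil)), (nat_lit 36), (nat_lit 0), (nat_lit 0),
 (nat_lit 0), (27, 35, 6), [1647, 847], 0⟩,
  ⟨⟨75, 20, -32, -10, 21, 80, 12, 60, -25⟩, (.cons (nat_lit 2400) (nat_lit 1283) (nat_lit 322) (nat_lit 1)
 (.cons (nat_lit 1848) (nat_lit 1565) (nat_lit 940) (nat_lit 1) .nil)), (nat_lit 34), (nat_lit 0), (nat_lit 0),
 (nat_lit 0), (30, 67, 19), [1401, 10], 0⟩,
  mz,
  ⟨⟨3, -40, -76, -64, 25, 12, 26, 32, -67⟩, (.cons (nat_lit 745) (nat_lit 510) (nat_lit 428) (nat_lit 1) (.cons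
 (nat_lit 1255) (nat_lit 1811) (nat_lit 1816) (nat_lit 1) .nil)), (nat_lit 33), (nat_lit 0), (nat_lit 0),
 (nat_lit 0), (58, 17, 53), [648, 71], 0⟩,
  mz,
  ⟨⟨17, -24, -89, 36, -55, 12, 54, 24, -53⟩, (.cons (nat_lit 1737) (nat_lit 2189) (nat_lit 1139) (nat_lit 1)
 (.cons (nat_lit 1807) (nat_lit 1431) (nat_lit 1286) (nat_lit 1) .nil)), (nat_lit 70), (nat_lit 0), (nat_lit
 0), (nat_lit 0), (5, 44, 66), [437, 434], 0⟩,
  ⟨⟨-23, -72, 32, 64, -25, -52, -26, -32, -41⟩, (.cons (nat_lit 2026) (nat_lit 2048) (nat_lit 2306) (nat_lit 1)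
 (.cons (nat_lit 374) (nat_lit 369) (nat_lit 123) (nat_lit 1) .nil)), (nat_lit 18), (nat_lit 0), (nat_lit 0),
 (nat_lit 0), (21, 28, 33), [1808, 851], 0⟩,
  mz,
  mz,
  ⟨⟨75, 16, -52, 4, -55, -52, 10, 40, -59⟩, (.cons (nat_lit 445) (nat_lit 1541) (nat_lit 178) (nat_lit 1)
 (.cons (nat_lit 1078) (nat_lit 1359) (nat_lit 117) (nat_lit 1) .nil)), (nat_lit 65), (nat_lit 0), (nat_lit 0),
 (nat_lit 0), (5, 5, 48), [2136, 1510], 0⟩,
  ⟨⟨11, -72, -36, 50, -11, 30, 44, -4, -73⟩, (.cons (nat_lit 1270) (nat_lit 636) (nat_lit 2241) (nat_lit 1)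
 (.cons (nat_lit 1500) (nat_lit 1848) (nat_lit 892) (nat_lit 1) .nil)), (nat_lit 64), (nat_lit 0), (nat_lit 0),
 (nat_lit 0), (69, 49, 63), [717, 276], 0⟩,
  ⟨⟨-39, -40, -41, -44, 55, 12, 22, 8, -77⟩, (.cons (nat_lit 804) (nat_lit 919) (nat_lit 1) (nat_lit 238)
 (.cons (nat_lit 910) (nat_lit 902) (nat_lit 241) (nat_lit 1) .nil)), (nat_lit 19), (nat_lit 0), (nat_lit 0),
 (nat_lit 0), (46, 61, 5), [712, 1225], 0⟩,
  mz,
  ⟨⟨51, 52, -56, -44, 15, -38, 42, -24, -67⟩, (.cons (nat_lit 2189) (nat_lit 1800) (nat_lit 1240) (nat_lit 1)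
 (.cons (nat_lit 1479) (nat_lit 115) (nat_lit 17) (nat_lit 1) .nil)), (nat_lit 5), (nat_lit 0), (nat_lit 0),
 (nat_lit 0), (52, 15, 47), [1844, 514], 0⟩,
  ⟨⟨9, -16, 80, -10, -69, -10, 60, -12, -11⟩, (.cons (nat_lit 2400) (nat_lit 114) (nat_lit 1901) (nat_lit 1)
 (.cons (nat_lit 1848) (nat_lit 494) (nat_lit 803) (nat_lit 1) .nil)), (nat_lit 47), (nat_lit 0), (nat_lit 0),
 (nat_lit 0), (33, 58, 7), [1244, 1324], 0⟩,
  ⟨⟨51, 4, 40, 10, 69, -20, 60, -12, -49⟩, (.cons (nat_lit 2400) (nat_lit 204) (nat_lit 2269) (nat_lit 1)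
 (.cons (nat_lit 1848) (nat_lit 1532) (nat_lit 1432) (nat_lit 1) .nil)), (nat_lit 48), (nat_lit 0), (nat_lit
 0), (nat_lit 0), (13, 29, 32), [1780, 1815], 0⟩,
  ⟨⟨9, -56, -64, -56, 25, -12, 38, 16, -73⟩, (.cons (nat_lit 3) (nat_lit 933) (nat_lit 45) (nat_lit 1) (.cons
 (nat_lit 1814) (nat_lit 853) (nat_lit 1074) (nat_lit 1) .nil)), (nat_lit 39), (nat_lit 0), (nat_lit 0),
 (nat_lit 0), (4, 54, 9), [1320, 673], 0⟩,
  ⟨⟨65, 24, -72, 4, 55, 48, -10, 40, -49⟩, (.cons (nat_lit 2400) (nat_lit 2154) (nat_lit 1543) (nat_lit 1)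
 (.cons (nat_lit 1848) (nat_lit 369) (nat_lit 1576) (nat_lit 1) .nil)), (nat_lit 50), (nat_lit 0), (nat_lit 0),
 (nat_lit 0), (39, 45, 65), [2151, 1525], 0⟩,
  ⟨⟨9, -76, -20, 44, 15, -82, -42, -24, -25⟩, (.cons (nat_lit 292) (nat_lit 2197) (nat_lit 2085) (nat_lit 1)
 (.cons (nat_lit 1737) (nat_lit 186) (nat_lit 241) (nat_lit 1) .nil)), (nat_lit 67), (nat_lit 0), (nat_lit 0),
 (nat_lit 0), (1, 68, 19), [1515, 1073], 0⟩,
  mz,
  ⟨⟨-9, 28, -76, 70, 11, -40, 4, -44, -53⟩, (.cons (nat_lit 794) (nat_lit 1240) (nat_lit 1860) (nat_lit 1)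
 (.cons (nat_lit 756) (nat_lit 1200) (nat_lit 770) (nat_lit 1) .nil)), (nat_lit 57), (nat_lit 0), (nat_lit 0),
 (nat_lit 0), (34, 59, 48), [2154, 424], 0⟩,
  ⟨⟨9, 16, 80, -10, 69, -10, 60, 12, -11⟩, (.cons (nat_lit 2396) (nat_lit 2245) (nat_lit 1464) (nat_lit 1)
 (.cons (nat_lit 39) (nat_lit 169) (nat_lit 51) (nat_lit 1) .nil)), (nat_lit 47), (nat_lit 0), (nat_lit 0),
 (nat_lit 0), (58, 46, 8), [1445, 859], 0⟩,
  ⟨⟨75, -20, -32, 10, 21, -80, 12, -60, -25⟩, (.cons (nat_lit 2400) (nat_lit 2107) (nat_lit 1665) (nat_lit 1)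
 (.cons (nat_lit 1848) (nat_lit 271) (nat_lit 1560) (nat_lit 1) .nil)), (nat_lit 55), (nat_lit 0), (nat_lit 0),
 (nat_lit 0), (52, 59, 14), [1737, 1214], 0⟩,
  mz,
  ⟨⟨-11, -72, -25, 50, 11, -80, -44, -4, -29⟩, (.cons (nat_lit 968) (nat_lit 1440) (nat_lit 1389) (nat_lit 1)
 (.cons (nat_lit 528) (nat_lit 822) (nat_lit 898) (nat_lit 1) .nil)), (nat_lit 29), (nat_lit 0), (nat_lit 0),
 (nat_lit 0), (38, 8, 10), [314, 512], 0⟩,
  ⟨⟨63, -40, -56, -10, 21, -70, -12, -60, -13⟩, (.cons (nat_lit 2400) (nat_lit 1806) (nat_lit 1086) (nat_lit 1)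
 (.cons (nat_lit 1848) (nat_lit 1105) (nat_lit 1751) (nat_lit 1) .nil)), (nat_lit 58), (nat_lit 0), (nat_lit
 0), (nat_lit 0), (4, 5, 6), [309, 1472], 0⟩,
  mz,
  mz,
  mz,
  ⟨⟨33, -68, -37, -50, -11, -30, 44, 4, -73⟩, (.cons (nat_lit 2179) (nat_lit 893) (nat_lit 1345) (nat_lit 1)
 (.cons (nat_lit 1445) (nat_lit 1731) (nat_lit 227) (nat_lit 1) .nil)), (nat_lit 53), (nat_lit 0), (nat_lit 0),
 (nat_lit 0), (12, 27, 16), [327, 85], 0⟩,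
  mz,
  ⟨⟨-13, 72, 36, -70, -11, 30, -4, 44, -49⟩, (.cons (nat_lit 2021) (nat_lit 1580) (nat_lit 1626) (nat_lit 1)
 (.cons (nat_lit 1049) (nat_lit 1049) (nat_lit 1735) (nat_lit 1) .nil)), (nat_lit 43), (nat_lit 0), (nat_lit
 0), (nat_lit 0), (35, 41, 49), [1279, 1332], 0⟩,
  ⟨⟨75, -16, -52, 4, 55, -52, 10, -40, -59⟩, (.cons (nat_lit 2400) (nat_lit 1504) (nat_lit 1126) (nat_lit 1)
 (.cons (nat_lit 1848) (nat_lit 462) (nat_lit 210) (nat_lit 1) .nil)), (nat_lit 65), (nat_lit 0), (nat_lit 0),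
 (nat_lit 0), (51, 51, 21), [1577, 966], 0⟩,
  mz,
  ⟨⟨-27, -68, 43, 64, -15, -2, 6, -48, -49⟩, (.cons (nat_lit 1853) (nat_lit 795) (nat_lit 750) (nat_lit 1)
 (.cons (nat_lit 1158) (nat_lit 1330) (nat_lit 992) (nat_lit 1) .nil)), (nat_lit 15), (nat_lit 0), (nat_lit 0),
 (nat_lit 0), (60, 55, 34), [2211, 1509], 0⟩,
  ⟨⟨13, 72, 23, 70, -11, -40, 4, 44, -53⟩, (.cons (nat_lit 1388) (nat_lit 887) (nat_lit 264) (nat_lit 1) (.cons
 (nat_lit 671) (nat_lit 1694) (nat_lit 1060) (nat_lit 1) .nil)), (nat_lit 43), (nat_lit 0), (nat_lit 0),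
 (nat_lit 0), (20, 64, 28), [1104, 1375], 0⟩,
  ⟨⟨-23, 72, 32, 64, 25, -52, -26, 32, -41⟩, (.cons (nat_lit 2397) (nat_lit 1086) (nat_lit 1280) (nat_lit 1)
 (.cons (nat_lit 1728) (nat_lit 1758) (nat_lit 1409) (nat_lit 1) .nil)), (nat_lit 18), (nat_lit 0), (nat_lit
 0), (nat_lit 0), (27, 36, 12), [1943, 1576], 0⟩,
  ⟨⟨37, -48, -73, 36, 55, -48, 54, -24, -1⟩, (.cons (nat_lit 1450) (nat_lit 72) (nat_lit 338) (nat_lit 1)
 (.cons (nat_lit 44) (nat_lit 1751) (nat_lit 735) (nat_lit 1) .nil)), (nat_lit 38), (nat_lit 0), (nat_lit 0),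
 (nat_lit 0), (11, 51, 41), [571, 1071], 0⟩]

/-- Moves. -/
noncomputable def t4_3 : List Mv := [
  mz,
  ⟨⟨63, 40, -56, -10, -21, -70, -12, 60, -13⟩, (.cons (nat_lit 105) (nat_lit 727) (nat_lit 1355) (nat_lit 1)
 (.cons (nat_lit 280) (nat_lit 534) (nat_lit 1070) (nat_lit 1) .nil)), (nat_lit 58), (nat_lit 0), (nat_lit 0),
 (nat_lit 0), (31, 21, 11), [347, 470], 0⟩,
  mz,
  ⟨⟨65, -24, -72, -4, 55, -48, -10, -40, -49⟩, (.cons (nat_lit 2400) (nat_lit 1933) (nat_lit 295) (nat_lit 1)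
 (.cons (nat_lit 1848) (nat_lit 1473) (nat_lit 1467) (nat_lit 1) .nil)), (nat_lit 3), (nat_lit 0), (nat_lit 0),
 (nat_lit 0), (37, 1, 38), [1094, 708], 0⟩,
  ⟨⟨27, 68, 16, 64, -15, -62, -6, 48, -43⟩, (.cons (nat_lit 123) (nat_lit 2029) (nat_lit 64) (nat_lit 1) (.cons
 (nat_lit 1491) (nat_lit 177) (nat_lit 671) (nat_lit 1) .nil)), (nat_lit 46), (nat_lit 0), (nat_lit 0),
 (nat_lit 0), (60, 16, 34), [1594, 1300], 0⟩,
  ⟨⟨27, -68, 16, 64, 15, -62, -6, -48, -43⟩, (.cons (nat_lit 1914) (nat_lit 235) (nat_lit 1229) (nat_lit 1)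
 (.cons (nat_lit 1844) (nat_lit 575) (nat_lit 85) (nat_lit 1) .nil)), (nat_lit 46), (nat_lit 0), (nat_lit 0),
 (nat_lit 0), (7, 35, 30), [2288, 1756], 0⟩,
  mz,
  ⟨⟨-29, 72, 20, 56, 25, -68, -38, 16, -35⟩, (.cons (nat_lit 542) (nat_lit 299) (nat_lit 851) (nat_lit 1)
 (.cons (nat_lit 1169) (nat_lit 1039) (nat_lit 345) (nat_lit 1) .nil)), (nat_lit 8), (nat_lit 0), (nat_lit 0),
 (nat_lit 0), (33, 44, 31), [1712, 974], 0⟩,
  ⟨⟨3, 40, -76, 64, 25, -12, 26, -32, -67⟩, (.cons (nat_lit 474) (nat_lit 2334) (nat_lit 2395) (nat_lit 1)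
 (.cons (nat_lit 242) (nat_lit 26) (nat_lit 1564) (nat_lit 1) .nil)), (nat_lit 7), (nat_lit 0), (nat_lit 0),
 (nat_lit 0), (14, 62, 3), [310, 1535], 0⟩,
  mz,
  mz,
  ⟨⟨-27, 68, 43, 64, 15, -2, 6, 48, -49⟩, (.cons (nat_lit 1920) (nat_lit 817) (nat_lit 886) (nat_lit 1) (.cons
 (nat_lit 69) (nat_lit 644) (nat_lit 1396) (nat_lit 1) .nil)), (nat_lit 15), (nat_lit 0), (nat_lit 0), (nat_lit
 0), (42, 3, 38), [1067, 1675], 0⟩,
  ⟨⟨9, 76, -20, 44, -15, -82, -42, 24, -25⟩, (.cons (nat_lit 641) (nat_lit 1045) (nat_lit 507) (nat_lit 1)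
 (.cons (nat_lit 1190) (nat_lit 386) (nat_lit 1633) (nat_lit 1) .nil)), (nat_lit 67), (nat_lit 0), (nat_lit 0),
 (nat_lit 0), (31, 49, 21), [1895, 483], 0⟩,
  mz,
  mz,
  ⟨⟨-9, 76, -11, -44, -15, -38, 42, 24, -67⟩, (.cons (nat_lit 1459) (nat_lit 2179) (nat_lit 606) (nat_lit 1)
 (.cons (nat_lit 487) (nat_lit 1289) (nat_lit 1334) (nat_lit 1) .nil)), (nat_lit 67), (nat_lit 0), (nat_lit 0),
 (nat_lit 0), (25, 67, 49), [1461, 1128], 0⟩,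
  ⟨⟨37, -48, 36, -36, -55, -12, 54, -24, -53⟩, (.cons (nat_lit 2400) (nat_lit 1901) (nat_lit 825) (nat_lit 1)
 (.cons (nat_lit 1848) (nat_lit 1614) (nat_lit 1623) (nat_lit 1) .nil)), (nat_lit 16), (nat_lit 0), (nat_lit
 0), (nat_lit 0), (57, 52, 64), [31, 1079], 0⟩,
  mz,
  ⟨⟨29, -72, -9, -56, -25, -12, 38, -16, -73⟩, (.cons (nat_lit 2368) (nat_lit 195) (nat_lit 860) (nat_lit 1)
 (.cons (nat_lit 311) (nat_lit 997) (nat_lit 69) (nat_lit 1) .nil)), (nat_lit 8), (nat_lit 0), (nat_lit 0),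
 (nat_lit 0), (70, 46, 55), [2318, 648], 0⟩,
  ⟨⟨39, 40, -80, 44, -55, -32, -22, -8, -55⟩, (.cons (nat_lit 2400) (nat_lit 503) (nat_lit 938) (nat_lit 1)
 (.cons (nat_lit 1848) (nat_lit 1540) (nat_lit 1334) (nat_lit 1) .nil)), (nat_lit 19), (nat_lit 0), (nat_lit
 0), (nat_lit 0), (28, 68, 37), [2288, 583], 0⟩,
  mz,
  mz,
  ⟨⟨17, -24, 72, 36, -55, -48, 54, 24, -1⟩, (.cons (nat_lit 2103) (nat_lit 234) (nat_lit 401) (nat_lit 1)
 (.cons (nat_lit 309) (nat_lit 204) (nat_lit 1348) (nat_lit 1) .nil)), (nat_lit 70), (nat_lit 0), (nat_lit 0),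
 (nat_lit 0), (28, 5, 43), [1012, 759], 0⟩,
  ⟨⟨39, -40, -80, 44, 55, -32, -22, 8, -55⟩, (.cons (nat_lit 328) (nat_lit 2336) (nat_lit 1) (nat_lit 770)
 (.cons (nat_lit 638) (nat_lit 1504) (nat_lit 920) (nat_lit 1) .nil)), (nat_lit 19), (nat_lit 0), (nat_lit 0),
 (nat_lit 0), (1, 43, 14), [1496, 1139], 0⟩,
  ⟨⟨-39, 40, -41, 44, 55, -12, 22, -8, -77⟩, (.cons (nat_lit 882) (nat_lit 1769) (nat_lit 1350) (nat_lit 1)
 (.cons (nat_lit 1413) (nat_lit 1812) (nat_lit 317) (nat_lit 1) .nil)), (nat_lit 23), (nat_lit 0), (nat_lit 0),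
 (nat_lit 0), (2, 56, 28), [166, 1186], 0⟩,
  mz,
  ⟨⟨51, -4, 40, 10, -69, -20, 60, 12, -49⟩, (.cons (nat_lit 1033) (nat_lit 1700) (nat_lit 1670) (nat_lit 1)
 (.cons (nat_lit 935) (nat_lit 1753) (nat_lit 170) (nat_lit 1) .nil)), (nat_lit 48), (nat_lit 0), (nat_lit 0),
 (nat_lit 0), (60, 41, 33), [1065, 1067], 0⟩,
  mz,
  mz,
  ⟨⟨-13, -72, 36, 70, -11, -30, -4, -44, -49⟩, (.cons (nat_lit 1753) (nat_lit 1965) (nat_lit 1278) (nat_lit 1)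
 (.cons (nat_lit 468) (nat_lit 891) (nat_lit 1522) (nat_lit 1) .nil)), (nat_lit 62), (nat_lit 0), (nat_lit 0),
 (nat_lit 0), (29, 35, 69), [2299, 319], 0⟩,
  mz,
  ⟨⟨-33, -68, -4, 50, -11, -80, -44, 4, -29⟩, (.cons (nat_lit 1902) (nat_lit 2321) (nat_lit 972) (nat_lit 1)
 (.cons (nat_lit 1608) (nat_lit 1086) (nat_lit 418) (nat_lit 1) .nil)), (nat_lit 53), (nat_lit 0), (nat_lit 0),
 (nat_lit 0), (61, 13, 34), [754, 859], 0⟩,
  mz,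
  ⟨⟨-29, -72, 20, 56, -25, -68, -38, -16, -35⟩, (.cons (nat_lit 145) (nat_lit 2225) (nat_lit 2045) (nat_lit 1)
 (.cons (nat_lit 119) (nat_lit 1083) (nat_lit 1092) (nat_lit 1) .nil)), (nat_lit 8), (nat_lit 0), (nat_lit 0),
 (nat_lit 0), (27, 36, 6), [1233, 1164], 0⟩,
  ⟨⟨-63, 40, 7, -10, 21, 80, 12, 60, -25⟩, (.cons (nat_lit 1191) (nat_lit 817) (nat_lit 1162) (nat_lit 1)
 (.cons (nat_lit 302) (nat_lit 1617) (nat_lit 123) (nat_lit 1) .nil)), (nat_lit 1), (nat_lit 0), (nat_lit 0),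
 (nat_lit 0), (60, 67, 19), [2066, 655], 0⟩,
  mz,
  ⟨⟨3, -40, -76, 64, -25, -12, 26, 32, -67⟩, (.cons (nat_lit 1727) (nat_lit 1125) (nat_lit 1264) (nat_lit 1)
 (.cons (nat_lit 1581) (nat_lit 1160) (nat_lit 767) (nat_lit 1) .nil)), (nat_lit 7), (nat_lit 0), (nat_lit 0),
 (nat_lit 0), (58, 54, 53), [2185, 1422], 0⟩,
  mz,
  ⟨⟨37, 48, 36, -36, 55, -12, 54, 24, -53⟩, (.cons (nat_lit 1818) (nat_lit 1114) (nat_lit 1676) (nat_lit 1)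
 (.cons (nat_lit 1403) (nat_lit 1165) (nat_lit 1179) (nat_lit 1) .nil)), (nat_lit 16), (nat_lit 0), (nat_lit
 0), (nat_lit 0), (61, 27, 66), [509, 1260], 0⟩,
  ⟨⟨-23, -72, 32, -64, 25, 52, -26, -32, -41⟩, (.cons (nat_lit 1601) (nat_lit 2090) (nat_lit 2386) (nat_lit 1)
 (.cons (nat_lit 1532) (nat_lit 447) (nat_lit 242) (nat_lit 1) .nil)), (nat_lit 49), (nat_lit 0), (nat_lit 0),
 (nat_lit 0), (21, 43, 33), [947, 73], 0⟩,
  mz,
  mz,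
  ⟨⟨75, 16, -52, -4, 55, 52, 10, 40, -59⟩, (.cons (nat_lit 2400) (nat_lit 674) (nat_lit 340) (nat_lit 1) (.cons
 (nat_lit 1848) (nat_lit 1480) (nat_lit 1004) (nat_lit 1) .nil)), (nat_lit 42), (nat_lit 0), (nat_lit 0),
 (nat_lit 0), (5, 66, 48), [1255, 149], 0⟩,
  ⟨⟨11, -72, -36, -50, 11, -30, 44, -4, -73⟩, (.cons (nat_lit 2259) (nat_lit 2343) (nat_lit 410) (nat_lit 1)
 (.cons (nat_lit 1579) (nat_lit 1553) (nat_lit 994) (nat_lit 1) .nil)), (nat_lit 29), (nat_lit 0), (nat_lit 0),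
 (nat_lit 0), (69, 22, 63), [2400, 1071], 0⟩,
  ⟨⟨-39, -40, -41, 44, -55, -12, 22, 8, -77⟩, (.cons (nat_lit 1926) (nat_lit 2128) (nat_lit 1046) (nat_lit 1)
 (.cons (nat_lit 1506) (nat_lit 521) (nat_lit 337) (nat_lit 1) .nil)), (nat_lit 23), (nat_lit 0), (nat_lit 0),
 (nat_lit 0), (46, 10, 5), [1938, 325], 0⟩,
  mz,
  ⟨⟨-9, -76, -11, -44, 15, -38, 42, -24, -67⟩, (.cons (nat_lit 1031) (nat_lit 2281) (nat_lit 2192) (nat_lit 1)
 (.cons (nat_lit 1832) (nat_lit 1476) (nat_lit 920) (nat_lit 1) .nil)), (nat_lit 67), (nat_lit 0), (nat_lit 0),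
 (nat_lit 0), (66, 15, 47), [2033, 729], 0⟩,
  ⟨⟨9, -16, 80, -10, -69, -10, 60, -12, -11⟩, (.cons (nat_lit 2400) (nat_lit 114) (nat_lit 1901) (nat_lit 1)
 (.cons (nat_lit 1848) (nat_lit 494) (nat_lit 803) (nat_lit 1) .nil)), (nat_lit 47), (nat_lit 0), (nat_lit 0),
 (nat_lit 0), (33, 58, 7), [1244, 1324], 0⟩,
  ⟨⟨51, 4, 40, 10, 69, -20, 60, -12, -49⟩, (.cons (nat_lit 2400) (nat_lit 204) (nat_lit 2269) (nat_lit 1)
 (.cons (nat_lit 1848) (nat_lit 1532) (nat_lit 1432) (nat_lit 1) .nil)), (nat_lit 48), (nat_lit 0), (nat_lit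
 0), (nat_lit 0), (13, 29, 32), [1780, 1815], 0⟩,
  ⟨⟨29, 72, -9, -56, 25, -12, 38, 16, -73⟩, (.cons (nat_lit 2223) (nat_lit 2392) (nat_lit 605) (nat_lit 1)
 (.cons (nat_lit 680) (nat_lit 609) (nat_lit 773) (nat_lit 1) .nil)), (nat_lit 8), (nat_lit 0), (nat_lit 0),
 (nat_lit 0), (5, 54, 9), [599, 1017], 0⟩,
  ⟨⟨65, 24, -72, -4, -55, -48, -10, 40, -49⟩, (.cons (nat_lit 410) (nat_lit 1196) (nat_lit 1579) (nat_lit 1)
 (.cons (nat_lit 648) (nat_lit 447) (nat_lit 1044) (nat_lit 1) .nil)), (nat_lit 3), (nat_lit 0), (nat_lit 0),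
 (nat_lit 0), (39, 26, 65), [1779, 435], 0⟩,
  ⟨⟨9, -76, -20, 44, 15, -82, -42, -24, -25⟩, (.cons (nat_lit 292) (nat_lit 2197) (nat_lit 2085) (nat_lit 1)
 (.cons (nat_lit 1737) (nat_lit 186) (nat_lit 241) (nat_lit 1) .nil)), (nat_lit 67), (nat_lit 0), (nat_lit 0),
 (nat_lit 0), (1, 68, 19), [1515, 1073], 0⟩,
  mz,
  ⟨⟨13, -72, 23, -70, -11, 40, 4, -44, -53⟩, (.cons (nat_lit 1698) (nat_lit 1118) (nat_lit 1942) (nat_lit 1)
 (.cons (nat_lit 865) (nat_lit 375) (nat_lit 1488) (nat_lit 1) .nil)), (nat_lit 62), (nat_lit 0), (nat_lit 0),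
 (nat_lit 0), (14, 12, 48), [2236, 921], 0⟩,
  ⟨⟨9, 16, 80, -10, 69, -10, 60, 12, -11⟩, (.cons (nat_lit 2396) (nat_lit 2245) (nat_lit 1464) (nat_lit 1)
 (.cons (nat_lit 39) (nat_lit 169) (nat_lit 51) (nat_lit 1) .nil)), (nat_lit 47), (nat_lit 0), (nat_lit 0),
 (nat_lit 0), (58, 46, 8), [1445, 859], 0⟩,
  ⟨⟨-63, -40, 7, -10, -21, 80, 12, -60, -25⟩, (.cons (nat_lit 1825) (nat_lit 1549) (nat_lit 1) (nat_lit 1708)
 (.cons (nat_lit 1503) (nat_lit 222) (nat_lit 1409) (nat_lit 1) .nil)), (nat_lit 1), (nat_lit 0), (nat_lit 0),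
 (nat_lit 0), (33, 12, 14), [9, 848], 0⟩,
  mz,
  ⟨⟨-33, 68, -4, 50, 11, -80, -44, -4, -29⟩, (.cons (nat_lit 1769) (nat_lit 954) (nat_lit 1431) (nat_lit 1)
 (.cons (nat_lit 203) (nat_lit 468) (nat_lit 855) (nat_lit 1) .nil)), (nat_lit 53), (nat_lit 0), (nat_lit 0),
 (nat_lit 0), (43, 8, 10), [1763, 1415], 0⟩,
  ⟨⟨63, -40, -56, -10, 21, -70, -12, -60, -13⟩, (.cons (nat_lit 2400) (nat_lit 1806) (nat_lit 1086) (nat_lit 1)
 (.cons (nat_lit 1848) (nat_lit 1105) (nat_lit 1751) (nat_lit 1) .nil)), (nat_lit 58), (nat_lit 0), (nat_lit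
 0), (nat_lit 0), (4, 5, 6), [309, 1472], 0⟩,
  mz,
  mz,
  mz,
  ⟨⟨11, 72, -36, -50, -11, -30, 44, 4, -73⟩, (.cons (nat_lit 2049) (nat_lit 192) (nat_lit 869) (nat_lit 1)
 (.cons (nat_lit 1608) (nat_lit 247) (nat_lit 700) (nat_lit 1) .nil)), (nat_lit 29), (nat_lit 0), (nat_lit 0),
 (nat_lit 0), (4, 27, 16), [656, 859], 0⟩,
  mz,
  ⟨⟨-13, 72, 36, 70, 11, -30, -4, 44, -49⟩, (.cons (nat_lit 236) (nat_lit 1826) (nat_lit 309) (nat_lit 1)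
 (.cons (nat_lit 1192) (nat_lit 1659) (nat_lit 646) (nat_lit 1) .nil)), (nat_lit 62), (nat_lit 0), (nat_lit 0),
 (nat_lit 0), (35, 30, 49), [20, 1630], 0⟩,
  ⟨⟨75, -16, -52, -4, -55, 52, 10, -40, -59⟩, (.cons (nat_lit 723) (nat_lit 2322) (nat_lit 960) (nat_lit 1)
 (.cons (nat_lit 1319) (nat_lit 1009) (nat_lit 993) (nat_lit 1) .nil)), (nat_lit 42), (nat_lit 0), (nat_lit 0),
 (nat_lit 0), (51, 20, 21), [109, 249], 0⟩,
  mz,
  ⟨⟨-27, -68, 43, 64, -15, -2, 6, -48, -49⟩, (.cons (nat_lit 1853) (nat_lit 795) (nat_lit 750) (nat_lit 1)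
 (.cons (nat_lit 1158) (nat_lit 1330) (nat_lit 992) (nat_lit 1) .nil)), (nat_lit 15), (nat_lit 0), (nat_lit 0),
 (nat_lit 0), (60, 55, 34), [2211, 1509], 0⟩,
  ⟨⟨13, 72, 23, -70, 11, 40, 4, 44, -53⟩, (.cons (nat_lit 317) (nat_lit 1756) (nat_lit 2400) (nat_lit 1) (.cons
 (nat_lit 141) (nat_lit 928) (nat_lit 472) (nat_lit 1) .nil)), (nat_lit 62), (nat_lit 0), (nat_lit 0), (nat_lit
 0), (20, 7, 28), [1679, 39], 0⟩,
  ⟨⟨-23, 72, 32, -64, -25, 52, -26, 32, -41⟩, (.cons (nat_lit 600) (nat_lit 212) (nat_lit 1851) (nat_lit 1)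
 (.cons (nat_lit 1796) (nat_lit 44) (nat_lit 480) (nat_lit 1) .nil)), (nat_lit 49), (nat_lit 0), (nat_lit 0),
 (nat_lit 0), (27, 35, 12), [666, 46], 0⟩,
  ⟨⟨17, 24, 72, 36, 55, -48, 54, -24, -1⟩, (.cons (nat_lit 2400) (nat_lit 607) (nat_lit 1339) (nat_lit 1)
 (.cons (nat_lit 1848) (nat_lit 700) (nat_lit 778) (nat_lit 1) .nil)), (nat_lit 70), (nat_lit 0), (nat_lit 0),
 (nat_lit 0), (30, 51, 41), [1320, 383], 0⟩]

/-- All the moves. -/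
noncomputable def tabs : List (List (List Mv)) := [[[], t0_1, [], t0_3], [[], t1_1, [], t1_3], [], [], [[], t4_1, [], t4_3]]

/-- Subtrie. -/
noncomputable def T1 : Tr := (.ev (nat_lit 20) (nat_lit 922537895895792683048) (.nd (nat_lit 33) (.br (nat_lit
 22) (.br (nat_lit 9) (.br (nat_lit 6) (.br (nat_lit 4) (.ch (nat_lit 1) (.ev (nat_lit 52) (nat_lit
 1346614146994456793232) (.ev (nat_lit 116) (nat_lit 256) (.ev (nat_lit 212) (nat_lit 4611686018427387904) (.ev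
 (nat_lit 244) (nat_lit 68719476736) (.ev (nat_lit 468) (nat_lit 17592186044416) (.ev (nat_lit 500) (nat_lit
 274945015808) (.ev (nat_lit 960) (nat_lit 297237575406452736) (.nd (nat_lit 1424) (.br (nat_lit 3) (.br
 (nat_lit 2) (.ch (nat_lit 1) (.ev (nat_lit 1440) (nat_lit 79164846112768) (.ev (nat_lit 1472) (nat_lit
 4398046511104) (.ev (nat_lit 1485) (nat_lit 2) .dd)))) (.ch (nat_lit 2) (.ev (nat_lit 1440) (nat_lit
 13194148446210) (.ev (nat_lit 1453) (nat_lit 70368744177664) .dd)))) (.br (nat_lit 6) (.ch (nat_lit 3) (.ev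
 (nat_lit 1440) (nat_lit 74766790688768) (.ev (nat_lit 1620) (nat_lit 8796093022208) (.ev (nat_lit 1700)
 (nat_lit 524288) (.nd (nat_lit 1920) (.br (nat_lit 3) (.ch (nat_lit 0) (.fin (nat_lit 576464600600887876)))
 (.br (nat_lit 5) (.ch (nat_lit 3) (.ev (nat_lit 1936) (nat_lit 8388610) .dd)) (.ch (nat_lit 5) (.ev (nat_lit
 1936) (nat_lit 8388610) .dd))))))))) (.ch (nat_lit 6) (.ev (nat_lit 1440) (nat_lit 74766799601666) (.ev
 (nat_lit 1453) (nat_lit 8796093022208) .dd)))))))))))))) (.br (nat_lit 5) (.ch (nat_lit 4) (.ev (nat_lit 52)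
 (nat_lit 1180888885041950134288) (.ev (nat_lit 288) (nat_lit 170634287045083660674) .dd))) (.ch (nat_lit 5)
 (.ev (nat_lit 52) (nat_lit 1333076260870305087888) (.ev (nat_lit 448) (nat_lit 18446911216728707074) .dd)))))
 (.br (nat_lit 7) (.ch (nat_lit 6) (.ev (nat_lit 52) (nat_lit 1199047402785371324562) (.ev (nat_lit 116)
 (nat_lit 4611686018427387904) (.ev (nat_lit 352) (nat_lit 147864083283235082496) .dd)))) (.br (nat_lit 8) (.ch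
 (nat_lit 7) (.ev (nat_lit 52) (nat_lit 1199038382726904283538) (.ev (nat_lit 84) (nat_lit 145135534866432)
 (.ev (nat_lit 148) (nat_lit 4194304) (.ev (nat_lit 276) (nat_lit 524288) (.ev (nat_lit 404) (nat_lit
 9007199254740992) (.ev (nat_lit 468) (nat_lit 8813272891392) (.nd (nat_lit 1424) (.br (nat_lit 3) (.ch
 (nat_lit 2) (.ev (nat_lit 1440) (nat_lit 289919226087505920) (.ev (nat_lit 1584) (nat_lit 536870912) (.ev
 (nat_lit 1620) (nat_lit 152185638608103800832) (.ev (nat_lit 1664) (nat_lit 8589934592) (.nd (nat_lit 1824)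
 (.br (nat_lit 4) (.ch (nat_lit 1) (.ev (nat_lit 1840) (nat_lit 70368744181760) .dd)) (.ch (nat_lit 4) (.fin
 (nat_lit 576461302003089983)))))))))) (.br (nat_lit 6) (.ch (nat_lit 3) (.ev (nat_lit 1440) (nat_lit
 152185708985974788096) (.ev (nat_lit 1584) (nat_lit 562949953421312) (.ev (nat_lit 1620) (nat_lit
 1125899973951488) (.ev (nat_lit 1664) (nat_lit 32768) (.nd (nat_lit 1824) (.br (nat_lit 5) (.ch (nat_lit 1)
 (.ev (nat_lit 1840) (nat_lit 288230376160100352) .dd)) (.ch (nat_lit 5) (.fin (nat_lit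
 576494287446295145)))))))))) (.ch (nat_lit 6) (.ev (nat_lit 1440) (nat_lit 152475628203472326656) (.ev
 (nat_lit 1648) (nat_lit 8589967360) .dd))))))))))))) (.ch (nat_lit 8) (.ev (nat_lit 52) (nat_lit
 170642120232204272002) (.ev (nat_lit 212) (nat_lit 70368744177664) (.ev (nat_lit 244) (nat_lit
 1180591620717411303424) (.ev (nat_lit 276) (nat_lit 67108880) (.ev (nat_lit 308) (nat_lit 4194304) (.ev
 (nat_lit 372) (nat_lit 1125899906842624) (.ev (nat_lit 436) (nat_lit 68719476736) (.ev (nat_lit 816) (nat_lit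
 4406636445696) (.nd (nat_lit 1424) (.br (nat_lit 1) (.ch (nat_lit 0) (.ev (nat_lit 1440) (nat_lit
 288230393339973632) .dd)) (.br (nat_lit 3) (.ch (nat_lit 1) (.ev (nat_lit 1440) (nat_lit 288230393339969536)
 (.ev (nat_lit 1453) (nat_lit 4096) .dd))) (.ch (nat_lit 3) (.ev (nat_lit 1620) (nat_lit 4096) (.ev (nat_lit
 1700) (nat_lit 17179869184) (.nd (nat_lit 1952) (.br (nat_lit 5) (.ch (nat_lit 3) (.ev (nat_lit 1968) (nat_lit
 288230376160100352) .dd)) (.br (nat_lit 6) (.ch (nat_lit 5) (.nd (nat_lit 2272) (.br (nat_lit 4) (.ch (nat_lit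
 2) (.ev (nat_lit 2288) (nat_lit 288230376160100352) .dd)) (.ch (nat_lit 4) (.fin (nat_lit
 576428316675228183)))))) (.ch (nat_lit 6) (.ev (nat_lit 1968) (nat_lit 288230376160100352)
 .dd))))))))))))))))))))))) (.br (nat_lit 13) (.br (nat_lit 10) (.ch (nat_lit 9) (.ev (nat_lit 52) (nat_lit
 152186936100611166464) (.ev (nat_lit 224) (nat_lit 1199336235986422628498) .dd))) (.br (nat_lit 12) (.ch
 (nat_lit 10) (.ev (nat_lit 52) (nat_lit 298033965968163090) (.ev (nat_lit 148) (nat_lit 4096) (.ev (nat_lit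
 244) (nat_lit 4194304) (.ev (nat_lit 480) (nat_lit 1351225138121061433472) .dd))))) (.ch (nat_lit 12) (.ev
 (nat_lit 52) (nat_lit 1346900780870665764994) (.ev (nat_lit 148) (nat_lit 32768) (.ev (nat_lit 244) (nat_lit
 8796093022208) (.ev (nat_lit 416) (nat_lit 4622382420274974992) .dd))))))) (.br (nat_lit 18) (.br (nat_lit 17)
 (.ch (nat_lit 13) (.ev (nat_lit 52) (nat_lit 152195925639434895744) (.ev (nat_lit 116) (nat_lit 8388608) (.ev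
 (nat_lit 148) (nat_lit 67108864) (.ev (nat_lit 340) (nat_lit 2) (.ev (nat_lit 468) (nat_lit 16) (.ev (nat_lit
 500) (nat_lit 17179869184) (.ev (nat_lit 640) (nat_lit 288793326105133056) (.ev (nat_lit 1264) (nat_lit
 68719476736) (.nd (nat_lit 1424) (.br (nat_lit 2) (.ch (nat_lit 0) (.ev (nat_lit 1440) (nat_lit
 1180591638593065193472) (.ev (nat_lit 1664) (nat_lit 18446814442453729280) .dd))) (.br (nat_lit 3) (.ch
 (nat_lit 2) (.ev (nat_lit 1440) (nat_lit 18446761674485530624) (.nd (nat_lit 1952) (.br (nat_lit 4) (.ch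
 (nat_lit 0) (.ev (nat_lit 1968) (nat_lit 1180591691361033392128) .dd)) (.br (nat_lit 5) (.ch (nat_lit 4) (.ev
 (nat_lit 1968) (nat_lit 1180591620992289210368) (.fin (nat_lit 576461302118433345)))) (.ch (nat_lit 5) (.ev
 (nat_lit 1968) (nat_lit 70368744181760) (.nd (nat_lit 2304) (.br (nat_lit 6) (.ch (nat_lit 1) (.fin (nat_lit
 576470098138055236))) (.ch (nat_lit 6) (.ev (nat_lit 2320) (nat_lit 1180591620992289210368) .dd)))))))))))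
 (.ch (nat_lit 3) (.ev (nat_lit 1440) (nat_lit 1199038435434742943744) (.ev (nat_lit 1536) (nat_lit 8589934592)
 (.ev (nat_lit 1549) (nat_lit 17592186044416) .dd)))))))))))))))) (.ch (nat_lit 17) (.ev (nat_lit 52) (nat_lit
 23348376007146999810) (.ev (nat_lit 180) (nat_lit 70368744177664) (.ev (nat_lit 372) (nat_lit 32768) (.ev
 (nat_lit 468) (nat_lit 524288) (.ev (nat_lit 656) (nat_lit 147582959788931153920) (.ev (nat_lit 1056) (nat_lit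
 1180591620786130780160) (.nd (nat_lit 1424) (.br (nat_lit 3) (.br (nat_lit 2) (.ch (nat_lit 0) (.ev (nat_lit
 1440) (nat_lit 145135543255424) (.ev (nat_lit 1520) (nat_lit 536870912) (.ev (nat_lit 1533) (nat_lit 16)
 .dd)))) (.ch (nat_lit 2) (.ev (nat_lit 1440) (nat_lit 4398583382416) (.ev (nat_lit 1796) (nat_lit
 140737488355328) (.ev (nat_lit 1805) (nat_lit 8388608) .dd))))) (.br (nat_lit 6) (.ch (nat_lit 3) (.ev
 (nat_lit 1440) (nat_lit 536870912) (.ev (nat_lit 1620) (nat_lit 8388608) (.ev (nat_lit 1712) (nat_lit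
 4398046511104) (.nd (nat_lit 1952) (.br (nat_lit 3) (.ch (nat_lit 1) (.ev (nat_lit 1968) (nat_lit 144) (.fin
 (nat_lit 576487690313613859)))) (.br (nat_lit 6) (.ch (nat_lit 3) (.ev (nat_lit 1968) (nat_lit 400) (.ev
 (nat_lit 1981) (nat_lit 140737488355328) .dd))) (.ch (nat_lit 6) (.ev (nat_lit 1968) (nat_lit 140737488355584)
 (.fin (nat_lit 576482192797418020))))))))))) (.ch (nat_lit 6) (.ev (nat_lit 1440) (nat_lit 145136080125952)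
 (.ev (nat_lit 1712) (nat_lit 256) (.fin (nat_lit 576440411324105308)))))))))))))))) (.br (nat_lit 21) (.ch
 (nat_lit 18) (.ev (nat_lit 52) (nat_lit 4910687511145644288) (.ev (nat_lit 212) (nat_lit 536870912) (.ev
 (nat_lit 276) (nat_lit 1180591629513504329728) (.ev (nat_lit 372) (nat_lit 147573952589676412944) (.ev
 (nat_lit 468) (nat_lit 18446744073709551616) (.ev (nat_lit 1104) (nat_lit 67108864) (.nd (nat_lit 1424) (.br
 (nat_lit 3) (.ch (nat_lit 1) (.ev (nat_lit 1440) (nat_lit 158398393876610) .dd)) (.br (nat_lit 6) (.ch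
 (nat_lit 3) (.ev (nat_lit 1440) (nat_lit 130) (.ev (nat_lit 1504) (nat_lit 68719476736) (.ev (nat_lit 1648)
 (nat_lit 17592186044416) (.ev (nat_lit 1661) (nat_lit 140737488355328) .dd))))) (.ch (nat_lit 6) (.ev (nat_lit
 1440) (nat_lit 158329674399744) (.ev (nat_lit 1488) (nat_lit 68719476736) (.nd (nat_lit 1824) (.br (nat_lit 5)
 (.ch (nat_lit 3) (.ev (nat_lit 1840) (nat_lit 130) .dd)) (.ch (nat_lit 5) (.nd (nat_lit 2144) (.br (nat_lit 6)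
 (.ch (nat_lit 0) (.fin (nat_lit 576437112764056087))) (.ch (nat_lit 6) (.ev (nat_lit 2160) (nat_lit 130)
 .dd)))))))))))))))))))) (.ch (nat_lit 21) (.ev (nat_lit 52) (nat_lit 166319271588538122498) (.ev (nat_lit 116)
 (nat_lit 562950490292224) (.ev (nat_lit 436) (nat_lit 4096) (.ev (nat_lit 468) (nat_lit 4194304) (.ev (nat_lit
 1120) (nat_lit 17179869184) (.nd (nat_lit 1424) (.br (nat_lit 3) (.br (nat_lit 2) (.ch (nat_lit 0) (.ev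
 (nat_lit 1440) (nat_lit 1185203319938568159376) (.ev (nat_lit 1456) (nat_lit 17592186044416) (.ev (nat_lit
 1469) (nat_lit 67108864) .dd)))) (.ch (nat_lit 2) (.ev (nat_lit 1440) (nat_lit 1185203328734728290448) (.ev
 (nat_lit 1453) (nat_lit 8796093022208) .dd)))) (.br (nat_lit 6) (.ch (nat_lit 3) (.ev (nat_lit 1440) (nat_lit
 1180591629513571434496) (.ev (nat_lit 1472) (nat_lit 4611686018427387904) (.ev (nat_lit 1504) (nat_lit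
 8589934592) (.ev (nat_lit 1620) (nat_lit 17592186044416) (.ev (nat_lit 1776) (nat_lit 4398046511104) (.nd
 (nat_lit 1984) (.br (nat_lit 3) (.ch (nat_lit 0) (.ev (nat_lit 2000) (nat_lit 144) .dd)) (.br (nat_lit 6) (.ch
 (nat_lit 3) (.ev (nat_lit 2000) (nat_lit 144) .dd)) (.ch (nat_lit 6) (.fin (nat_lit
 576482192797418020)))))))))))) (.ch (nat_lit 6) (.ev (nat_lit 1440) (nat_lit 4611716813410009088) (.ev
 (nat_lit 1456) (nat_lit 1180591620717411303424) (.fin (nat_lit 576440411324105308)))))))))))))))))) (.br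
 (nat_lit 34) (.br (nat_lit 30) (.br (nat_lit 25) (.ch (nat_lit 22) (.ev (nat_lit 52) (nat_lit
 1351224025484555194624) (.ev (nat_lit 116) (nat_lit 288230376151711744) (.ev (nat_lit 244) (nat_lit
 274877906944) (.ev (nat_lit 276) (nat_lit 1125899906842624) (.ev (nat_lit 308) (nat_lit 32768) (.ev (nat_lit
 340) (nat_lit 562949953421312) (.ev (nat_lit 944) (nat_lit 70368744177792) (.nd (nat_lit 1424) (.br (nat_lit
 3) (.br (nat_lit 2) (.ch (nat_lit 1) (.ev (nat_lit 1440) (nat_lit 9015995356151826) (.ev (nat_lit 1453)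
 (nat_lit 140737488355328) .dd))) (.ch (nat_lit 2) (.ev (nat_lit 1440) (nat_lit 9156732844507138) (.ev (nat_lit
 1453) (nat_lit 16) .dd)))) (.br (nat_lit 6) (.ch (nat_lit 3) (.ev (nat_lit 1440) (nat_lit 9147936743096320)
 (.ev (nat_lit 1620) (nat_lit 16) (.ev (nat_lit 1700) (nat_lit 8796093022208) (.nd (nat_lit 2016) (.br (nat_lit
 3) (.ch (nat_lit 0) (.fin (nat_lit 576464600600887876))) (.br (nat_lit 6) (.ch (nat_lit 3) (.ev (nat_lit 2032)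
 (nat_lit 8388610) .dd)) (.ch (nat_lit 6) (.ev (nat_lit 2032) (nat_lit 8388610) .dd))))))))) (.ch (nat_lit 6)
 (.ev (nat_lit 1440) (nat_lit 149533589766160) (.ev (nat_lit 1472) (nat_lit 9007199254740992) (.ev (nat_lit
 1485) (nat_lit 2) .dd))))))))))))))) (.br (nat_lit 26) (.ch (nat_lit 25) (.ev (nat_lit 52) (nat_lit
 1185492693798759698562) (.ev (nat_lit 180) (nat_lit 140737488355328) (.ev (nat_lit 212) (nat_lit
 562949953421312) (.ev (nat_lit 244) (nat_lit 17179869184) (.ev (nat_lit 276) (nat_lit 68723671040) (.ev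
 (nat_lit 340) (nat_lit 70368744177664) (.ev (nat_lit 436) (nat_lit 8589934592) (.ev (nat_lit 736) (nat_lit
 67109120) (.ev (nat_lit 1360) (nat_lit 274877906944) (.nd (nat_lit 1424) (.br (nat_lit 3) (.ch (nat_lit 1)
 (.ev (nat_lit 1440) (nat_lit 18455751272973205520) (.nd (nat_lit 1984) (.ch (nat_lit 5) (.nd (nat_lit 2336)
 (.br (nat_lit 5) (.ch (nat_lit 0) (.fin (nat_lit 576448107915985476))) (.ch (nat_lit 5) (.ev (nat_lit 2352)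
 (nat_lit 147573952589676445696) .dd)))))))) (.br (nat_lit 6) (.ch (nat_lit 3) (.ev (nat_lit 1440) (nat_lit
 166029703862640738320) (.ev (nat_lit 1568) (nat_lit 8388608) (.ev (nat_lit 1581) (nat_lit 524288) .dd)))) (.ch
 (nat_lit 6) (.ev (nat_lit 1440) (nat_lit 147573952589676969984) (.ev (nat_lit 1600) (nat_lit
 18446744073709551616) (.ev (nat_lit 1680) (nat_lit 9007199254740992) (.nd (nat_lit 1824) (.br (nat_lit 5) (.ch
 (nat_lit 0) (.fin (nat_lit 576441510839927401))) (.ch (nat_lit 5) (.ev (nat_lit 1840) (nat_lit 8388624)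
 .dd))))))))))))))))))))) (.ch (nat_lit 26) (.ev (nat_lit 52) (nat_lit 1180591845103691661442) (.ev (nat_lit
 256) (nat_lit 170931326983342133520) .dd))))) (.br (nat_lit 31) (.ch (nat_lit 30) (.ev (nat_lit 52) (nat_lit
 298930901230817536) (.ev (nat_lit 116) (nat_lit 140737488355328) (.ev (nat_lit 148) (nat_lit 17592186044416)
 (.ev (nat_lit 180) (nat_lit 8388608) (.ev (nat_lit 212) (nat_lit 128) (.ev (nat_lit 276) (nat_lit 32768) (.ev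
 (nat_lit 500) (nat_lit 8796093022208) (.ev (nat_lit 704) (nat_lit 147574022958420590592) (.ev (nat_lit 1248)
 (nat_lit 4611686018427387904) (.nd (nat_lit 1424) (.br (nat_lit 2) (.ch (nat_lit 1) (.ev (nat_lit 1440)
 (nat_lit 1199038365065999286288) (.ev (nat_lit 1664) (nat_lit 17179869186) .dd))) (.br (nat_lit 6) (.ch
 (nat_lit 2) (.ev (nat_lit 1440) (nat_lit 18446744090889420816) (.nd (nat_lit 2016) (.br (nat_lit 5) (.ch
 (nat_lit 1) (.ev (nat_lit 2032) (nat_lit 1180591620992289210368) (.fin (nat_lit 576494287372894825)))) (.br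
 (nat_lit 6) (.ch (nat_lit 5) (.ev (nat_lit 2032) (nat_lit 524290) (.nd (nat_lit 2400) (.br (nat_lit 1) (.ch
 (nat_lit 0) (.ev (nat_lit 2416) (nat_lit 1180591620992289210368) .dd)) (.ch (nat_lit 1) (.fin (nat_lit
 576470098138055236))))))) (.ch (nat_lit 6) (.ev (nat_lit 2032) (nat_lit 1180591620992289734658) .dd)))))))
 (.ch (nat_lit 6) (.ev (nat_lit 1440) (nat_lit 1180591621009469603842) (.ev (nat_lit 1536) (nat_lit
 18446744073709551616) (.ev (nat_lit 1549) (nat_lit 16) .dd))))))))))))))))) (.br (nat_lit 33) (.ch (nat_lit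
 31) (.ev (nat_lit 52) (nat_lit 4613586266658177282) (.ev (nat_lit 148) (nat_lit 16) (.ev (nat_lit 308)
 (nat_lit 8796093022208) (.ev (nat_lit 340) (nat_lit 4398046511104) (.ev (nat_lit 372) (nat_lit
 1180591620717411303424) (.ev (nat_lit 404) (nat_lit 288230376151711744) (.ev (nat_lit 752) (nat_lit
 18446744082299486208) (.ev (nat_lit 1376) (nat_lit 128) (.nd (nat_lit 1424) (.br (nat_lit 1) (.ch (nat_lit 0)
 (.ev (nat_lit 1440) (nat_lit 147573952589676449792) (.ev (nat_lit 1600) (nat_lit 68719476736) (.ev (nat_lit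
 1680) (nat_lit 536870912) (.nd (nat_lit 1824) (.br (nat_lit 5) (.ch (nat_lit 4) (.ev (nat_lit 1840) (nat_lit
 9024791440785408) .dd)) (.ch (nat_lit 5) (.fin (nat_lit 576496486473744961))))))))) (.br (nat_lit 2) (.ch
 (nat_lit 1) (.ev (nat_lit 1440) (nat_lit 9024860697137152) (.nd (nat_lit 2048) (.ch (nat_lit 5) (.nd (nat_lit
 2432) (.br (nat_lit 6) (.ch (nat_lit 0) (.fin (nat_lit 576448107915985476))) (.ch (nat_lit 6) (.ev (nat_lit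
 2448) (nat_lit 147573952589676445696) .dd)))))))) (.ch (nat_lit 2) (.ev (nat_lit 1440) (nat_lit
 147573970251118837760) (.ev (nat_lit 1568) (nat_lit 9007199254740992) (.ev (nat_lit 1581) (nat_lit 4096)
 .dd)))))))))))))))) (.ch (nat_lit 33) (.ev (nat_lit 52) (nat_lit 1199048524365077418384) (.ev (nat_lit 468)
 (nat_lit 147573952589676412928) (.ev (nat_lit 608) (nat_lit 288230651029651456) (.ev (nat_lit 848) (nat_lit
 70377334112256) (.ev (nat_lit 1344) (nat_lit 524288) (.nd (nat_lit 1424) (.br (nat_lit 2) (.ch (nat_lit 0)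
 (.ev (nat_lit 1440) (nat_lit 4612394103915675650) .dd)) (.br (nat_lit 6) (.ch (nat_lit 2) (.ev (nat_lit 1440)
 (nat_lit 562949953421314) (.ev (nat_lit 1744) (nat_lit 140737488355328) (.nd (nat_lit 2016) (.br (nat_lit 4)
 (.ch (nat_lit 0) (.ev (nat_lit 2032) (nat_lit 4611690416473899008) .dd)) (.br (nat_lit 6) (.ch (nat_lit 4)
 (.ev (nat_lit 2032) (nat_lit 4611690416473899008) .dd)) (.ch (nat_lit 6) (.fin (nat_lit
 576408525514162723))))))))) (.ch (nat_lit 6) (.ev (nat_lit 1440) (nat_lit 4611831153962254336) (.ev (nat_lit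
 1584) (nat_lit 2) (.ev (nat_lit 1597) (nat_lit 562949953421312) .dd)))))))))))))))) (.br (nat_lit 37) (.br
 (nat_lit 35) (.ch (nat_lit 34) (.ev (nat_lit 52) (nat_lit 4613036218782351376) (.ev (nat_lit 212) (nat_lit
 288230376151711744) (.ev (nat_lit 244) (nat_lit 147573952589676417024) (.ev (nat_lit 372) (nat_lit 8589934592)
 (.ev (nat_lit 500) (nat_lit 18446744073709551616) (.ev (nat_lit 1024) (nat_lit 1180591620786130780160) (.nd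
 (nat_lit 1424) (.br (nat_lit 3) (.ch (nat_lit 0) (.ev (nat_lit 1440) (nat_lit 563242015392130) (.ev (nat_lit
 1552) (nat_lit 536870912) (.nd (nat_lit 1984) (.ch (nat_lit 5) (.nd (nat_lit 2368) (.br (nat_lit 4) (.ch
 (nat_lit 3) (.ev (nat_lit 2384) (nat_lit 9024791440785408) .dd)) (.ch (nat_lit 4) (.fin (nat_lit
 576426117647778367)))))))))) (.br (nat_lit 6) (.ch (nat_lit 3) (.ev (nat_lit 1440) (nat_lit 9570149745033218)
 (.ev (nat_lit 1568) (nat_lit 17592186044544) (.ev (nat_lit 1632) (nat_lit 292061970688) .dd)))) (.ch (nat_lit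
 6) (.ev (nat_lit 1440) (nat_lit 9025084039627008) (.ev (nat_lit 1552) (nat_lit 562949953421312) (.nd (nat_lit
 2048) (.ch (nat_lit 5) (.nd (nat_lit 2464) (.br (nat_lit 1) (.ch (nat_lit 0) (.fin (nat_lit
 576485491357467241))) (.ch (nat_lit 1) (.ev (nat_lit 2480) (nat_lit 130) .dd))))))))))))))))))) (.br (nat_lit
 36) (.ch (nat_lit 35) (.ev (nat_lit 52) (nat_lit 1333075059877261873296) (.ev (nat_lit 116) (nat_lit 2) (.ev
 (nat_lit 244) (nat_lit 17592186044416) (.ev (nat_lit 404) (nat_lit 4398046511104) (.ev (nat_lit 436) (nat_lit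
 1125899906842624) (.ev (nat_lit 500) (nat_lit 68719509504) (.ev (nat_lit 880) (nat_lit 70643622084608) (.nd
 (nat_lit 1424) (.br (nat_lit 2) (.ch (nat_lit 0) (.ev (nat_lit 1440) (nat_lit 149533581377792) (.ev (nat_lit
 1453) (nat_lit 18446744073709551616) .dd))) (.br (nat_lit 3) (.ch (nat_lit 2) (.ev (nat_lit 1440) (nat_lit
 18446893607290929408) .dd)) (.ch (nat_lit 3) (.ev (nat_lit 1620) (nat_lit 18446744073709551616) (.ev (nat_lit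
 1700) (nat_lit 8796093022208) (.nd (nat_lit 2048) (.br (nat_lit 5) (.ch (nat_lit 1) (.nd (nat_lit 2496) (.br
 (nat_lit 5) (.ch (nat_lit 2) (.ev (nat_lit 2512) (nat_lit 140737488355584) .dd)) (.ch (nat_lit 5) (.fin
 (nat_lit 576434913807909469)))))) (.br (nat_lit 6) (.ch (nat_lit 5) (.ev (nat_lit 2064) (nat_lit
 140737488355584) .dd)) (.ch (nat_lit 6) (.ev (nat_lit 2064) (nat_lit 140737488355584) .dd)))))))))))))))))))
 (.ch (nat_lit 36) (.ev (nat_lit 52) (nat_lit 1203650693293714440192) (.ev (nat_lit 128) (nat_lit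
 147872478793319354770) .dd))))) (.br (nat_lit 39) (.br (nat_lit 38) (.ch (nat_lit 37) (.ev (nat_lit 52)
 (nat_lit 170922539772249374736) (.ev (nat_lit 436) (nat_lit 1180591620717411303424) (.ev (nat_lit 928)
 (nat_lit 33024) (.nd (nat_lit 1424) (.br (nat_lit 2) (.br (nat_lit 1) (.ch (nat_lit 0) (.ev (nat_lit 1440)
 (nat_lit 4398118338562) (.ev (nat_lit 1472) (nat_lit 128) (.ev (nat_lit 1620) (nat_lit 4096) (.ev (nat_lit
 1629) (nat_lit 9007199254740992) .dd))))) (.ch (nat_lit 1) (.ev (nat_lit 1440) (nat_lit 9011597301776514) (.ev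
 (nat_lit 1488) (nat_lit 4194304) (.fin (nat_lit 576462401619575353)))))) (.br (nat_lit 3) (.ch (nat_lit 2)
 (.ev (nat_lit 1440) (nat_lit 4194432) (.ev (nat_lit 1632) (nat_lit 9007199254740992) (.ev (nat_lit 1712)
 (nat_lit 4398046511104) (.nd (nat_lit 2080) (.br (nat_lit 4) (.ch (nat_lit 1) (.ev (nat_lit 2096) (nat_lit
 67112960) (.fin (nat_lit 576428316748628503)))) (.br (nat_lit 6) (.ch (nat_lit 4) (.ev (nat_lit 2096) (nat_lit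
 524290) (.fin (nat_lit 576462401619575353)))) (.ch (nat_lit 6) (.ev (nat_lit 2096) (nat_lit 67637248) (.ev
 (nat_lit 2109) (nat_lit 2) .dd)))))))))) (.ch (nat_lit 3) (.ev (nat_lit 1440) (nat_lit 9007199326048384) (.ev
 (nat_lit 1600) (nat_lit 524288) (.ev (nat_lit 1760) (nat_lit 4398046511104) (.ev (nat_lit 1773) (nat_lit 2)
 .dd)))))))))))) (.ch (nat_lit 38) (.ev (nat_lit 52) (nat_lit 1199049153483221500048) (.ev (nat_lit 84)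
 (nat_lit 2) (.ev (nat_lit 148) (nat_lit 147573952589676412928) (.ev (nat_lit 212) (nat_lit 8388608) (.ev
 (nat_lit 340) (nat_lit 4611686018427387904) (.ev (nat_lit 1184) (nat_lit 288230376151711744) (.nd (nat_lit
 1424) (.br (nat_lit 2) (.br (nat_lit 1) (.ch (nat_lit 0) (.ev (nat_lit 1440) (nat_lit 149550828916992) (.ev
 (nat_lit 1453) (nat_lit 68719476736) .dd))) (.ch (nat_lit 1) (.ev (nat_lit 1440) (nat_lit 149602301411584)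
 (.ev (nat_lit 1456) (nat_lit 17179869184) (.fin (nat_lit 576462401619575353)))))) (.br (nat_lit 3) (.ch
 (nat_lit 2) (.ev (nat_lit 1440) (nat_lit 85899378688) (.ev (nat_lit 1472) (nat_lit 256) (.ev (nat_lit 1504)
 (nat_lit 8796093022208) (.ev (nat_lit 1620) (nat_lit 524288) (.ev (nat_lit 1776) (nat_lit 140737488355328)
 (.nd (nat_lit 2080) (.br (nat_lit 5) (.ch (nat_lit 4) (.fin (nat_lit 576462401619575353))) (.br (nat_lit 6)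
 (.ch (nat_lit 5) (.ev (nat_lit 2096) (nat_lit 67112960) .dd)) (.ch (nat_lit 6) (.ev (nat_lit 2096) (nat_lit
 67112960) .dd))))))))))) (.ch (nat_lit 3) (.ev (nat_lit 1440) (nat_lit 149619547836672) (.ev (nat_lit 1456)
 (nat_lit 524288) (.ev (nat_lit 1469) (nat_lit 32768) .dd))))))))))))))) (.br (nat_lit 42) (.ch (nat_lit 39)
 (.ev (nat_lit 52) (nat_lit 1180880009707254747138) (.ev (nat_lit 116) (nat_lit 70368744177664) (.ev (nat_lit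
 148) (nat_lit 524288) (.ev (nat_lit 180) (nat_lit 562949953421312) (.ev (nat_lit 212) (nat_lit 256) (.ev
 (nat_lit 308) (nat_lit 1125968626319360) (.ev (nat_lit 340) (nat_lit 128) (.ev (nat_lit 372) (nat_lit
 17179869184) (.ev (nat_lit 436) (nat_lit 16) (.ev (nat_lit 468) (nat_lit 67108864) (.ev (nat_lit 1136)
 (nat_lit 8796093022208) (.nd (nat_lit 1424) (.br (nat_lit 1) (.ch (nat_lit 0) (.ev (nat_lit 1440) (nat_lit
 4611690416473899008) (.ev (nat_lit 1504) (nat_lit 147573952589676412928) (.ev (nat_lit 1648) (nat_lit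
 18446744073709551616) (.ev (nat_lit 1661) (nat_lit 9007199254740992) .dd))))) (.br (nat_lit 2) (.ch (nat_lit
 1) (.ev (nat_lit 1440) (nat_lit 170641394279114604544) .dd)) (.ch (nat_lit 2) (.ev (nat_lit 1440) (nat_lit
 18455751272964292608) (.ev (nat_lit 1488) (nat_lit 147573952589676412928) (.nd (nat_lit 1824) (.br (nat_lit 6)
 (.ch (nat_lit 0) (.ev (nat_lit 1840) (nat_lit 4611690416473899008) .dd)) (.ch (nat_lit 6) (.nd (nat_lit 2176)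
 (.br (nat_lit 5) (.ch (nat_lit 1) (.fin (nat_lit 576514078607360605))) (.ch (nat_lit 5) (.ev (nat_lit 2192)
 (nat_lit 4611690416473899008) .dd))))))))))))))))))))))))) (.ch (nat_lit 42) (.ev (nat_lit 52) (nat_lit
 166030280358992843138) (.ev (nat_lit 84) (nat_lit 536870912) (.ev (nat_lit 512) (nat_lit
 1185203447490506915840) (.ev (nat_lit 1232) (nat_lit 17592186044416) (.nd (nat_lit 1424) (.br (nat_lit 3) (.ch
 (nat_lit 0) (.ev (nat_lit 1440) (nat_lit 289356276066942992) (.ev (nat_lit 1453) (nat_lit 70368744177664)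
 .dd))) (.br (nat_lit 6) (.ch (nat_lit 3) (.ev (nat_lit 1440) (nat_lit 70368752566288) (.ev (nat_lit 1488)
 (nat_lit 1125899906842624) (.ev (nat_lit 1501) (nat_lit 288230376151711744) .dd)))) (.ch (nat_lit 6) (.ev
 (nat_lit 1440) (nat_lit 289426644802732032) (.fin (nat_lit 576481093281595927)))))))))))))))))))

/-- Subtrie. -/
noncomputable def T3 : Tr := (.ev (nat_lit 20) (nat_lit 1199040616600065544320) (.nd (nat_lit 33) (.br (nat_lit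
 22) (.br (nat_lit 9) (.br (nat_lit 6) (.br (nat_lit 4) (.ch (nat_lit 1) (.ev (nat_lit 52) (nat_lit
 1070057101617531289656) (.ev (nat_lit 116) (nat_lit 70368744177664) (.ev (nat_lit 148) (nat_lit 4398046511360)
 (.ev (nat_lit 244) (nat_lit 36028865738440704) (.ev (nat_lit 308) (nat_lit 18014398509481984) (.ev (nat_lit
 372) (nat_lit 8796093022208) (.ev (nat_lit 404) (nat_lit 281474976710656) (.ev (nat_lit 624) (nat_lit
 288230651029618690) (.ev (nat_lit 976) (nat_lit 9007201402224640) (.ev (nat_lit 1392) (nat_lit 8388608) (.nd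
 (nat_lit 1424) (.br (nat_lit 5) (.ch (nat_lit 3) (.ev (nat_lit 1440) (nat_lit 4611703610681067520) .dd)) (.br
 (nat_lit 6) (.ch (nat_lit 5) (.ev (nat_lit 1440) (nat_lit 17592253677568) (.ev (nat_lit 1584) (nat_lit 2048)
 (.ev (nat_lit 1597) (nat_lit 4611686018427387904) .dd)))) (.ch (nat_lit 6) (.ev (nat_lit 1440) (nat_lit
 4611686018427389952) (.ev (nat_lit 1744) (nat_lit 67108864) (.nd (nat_lit 2080) (.br (nat_lit 1) (.ch (nat_lit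
 0) (.ev (nat_lit 2096) (nat_lit 17592186568704) .dd)) (.br (nat_lit 3) (.ch (nat_lit 1) (.ev (nat_lit 2096)
 (nat_lit 17592186568704) .dd)) (.ch (nat_lit 3) (.fin (nat_lit 576461302034547215))))))))))))))))))))))) (.br
 (nat_lit 5) (.ch (nat_lit 4) (.ev (nat_lit 52) (nat_lit 351588995044311064) (.ev (nat_lit 276) (nat_lit
 549755813888) (.ev (nat_lit 436) (nat_lit 590295810358705651712) (.ev (nat_lit 500) (nat_lit 256) (.ev
 (nat_lit 672) (nat_lit 147574515539629834272) (.ev (nat_lit 1312) (nat_lit 36893488147419103232) (.nd (nat_lit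
 1424) (.br (nat_lit 3) (.ch (nat_lit 2) (.ev (nat_lit 1440) (nat_lit 299903851521407713282) (.nd (nat_lit
 1824) (.br (nat_lit 3) (.ch (nat_lit 2) (.ev (nat_lit 1840) (nat_lit 70368744179712) (.fin (nat_lit
 576514078607360595)))) (.ch (nat_lit 3) (.ev (nat_lit 1840) (nat_lit 1125902054326272) (.fin (nat_lit
 576474496195052092)))))))) (.br (nat_lit 5) (.ch (nat_lit 3) (.ev (nat_lit 1440) (nat_lit
 299760787468595496960) (.ev (nat_lit 1700) (nat_lit 144115188075855872) (.ev (nat_lit 1728) (nat_lit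
 140737488355328) (.nd (nat_lit 1856) (.br (nat_lit 6) (.ch (nat_lit 4) (.nd (nat_lit 2176) (.br (nat_lit 2)
 (.ch (nat_lit 1) (.fin (nat_lit 576415122598609465))) (.ch (nat_lit 2) (.ev (nat_lit 2192) (nat_lit
 4398046511106) .dd))))) (.ch (nat_lit 6) (.ev (nat_lit 1872) (nat_lit 4398046511106) .dd)))))))) (.ch (nat_lit
 5) (.ev (nat_lit 1440) (nat_lit 144330694502385666) (.ev (nat_lit 1520) (nat_lit 4611686018427387904) (.ev
 (nat_lit 1664) (nat_lit 1125899906842624) (.fin (nat_lit 576496486391956033)))))))))))))))) (.ch (nat_lit 5)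
 (.ev (nat_lit 52) (nat_lit 484526314945515948304) (.ev (nat_lit 84) (nat_lit 8) (.ev (nat_lit 148) (nat_lit
 17179869184) (.ev (nat_lit 244) (nat_lit 2) (.ev (nat_lit 276) (nat_lit 144123984168878080) (.ev (nat_lit 372)
 (nat_lit 140737488355328) (.nd (nat_lit 1424) (.br (nat_lit 5) (.br (nat_lit 2) (.ch (nat_lit 0) (.ev (nat_lit
 1440) (nat_lit 590349854106154205184) (.ev (nat_lit 1600) (nat_lit 17592186044416) (.ev (nat_lit 1760)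
 (nat_lit 67108864) (.fin (nat_lit 576481093258527255)))))) (.ch (nat_lit 2) (.ev (nat_lit 1440) (nat_lit
 17592270487584) (.ev (nat_lit 1456) (nat_lit 549755813888) (.ev (nat_lit 1488) (nat_lit 590295810358705651712)
 (.ev (nat_lit 1620) (nat_lit 36028797018963968) (.ev (nat_lit 1700) (nat_lit 2147483648) (.ev (nat_lit 1709)
 (nat_lit 18014398509481984) .dd)))))))) (.br (nat_lit 6) (.ch (nat_lit 5) (.ev (nat_lit 1440) (nat_lit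
 590313842901372108800) (.ev (nat_lit 1620) (nat_lit 32768) (.ev (nat_lit 1700) (nat_lit 32) (.fin (nat_lit
 576464600590402111)))))) (.ch (nat_lit 6) (.ev (nat_lit 1440) (nat_lit 590349854104073830432) (.ev (nat_lit
 1456) (nat_lit 2147483648) (.fin (nat_lit 576461302086976113))))))))))))))))) (.br (nat_lit 7) (.ch (nat_lit
 6) (.ev (nat_lit 52) (nat_lit 885633178985934096434) (.ev (nat_lit 148) (nat_lit 4899916394579099648) (.ev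
 (nat_lit 180) (nat_lit 32768) (.ev (nat_lit 244) (nat_lit 16777216) (.ev (nat_lit 308) (nat_lit 566935683072)
 (.ev (nat_lit 340) (nat_lit 1125899906842624) (.ev (nat_lit 468) (nat_lit 140737488355328) (.ev (nat_lit 992)
 (nat_lit 147573952864554319872) (.nd (nat_lit 1424) (.br (nat_lit 3) (.br (nat_lit 2) (.ch (nat_lit 0) (.ev
 (nat_lit 1440) (nat_lit 36912065564601483520) (.ev (nat_lit 1472) (nat_lit 65536) (.ev (nat_lit 1620) (nat_lit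
 8) (.ev (nat_lit 1629) (nat_lit 70368744177664) .dd))))) (.ch (nat_lit 2) (.ev (nat_lit 1440) (nat_lit
 633318697664776) (.ev (nat_lit 1600) (nat_lit 68719476736) (.ev (nat_lit 1760) (nat_lit 36893488147419103232)
 (.ev (nat_lit 1773) (nat_lit 18014398509481984) .dd)))))) (.br (nat_lit 6) (.ch (nat_lit 3) (.ev (nat_lit
 1440) (nat_lit 36911572983392305152) (.ev (nat_lit 1488) (nat_lit 562949953421312) (.fin (nat_lit
 576471197628711520))))) (.ch (nat_lit 6) (.ev (nat_lit 1440) (nat_lit 562949953486848) (.ev (nat_lit 1632)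
 (nat_lit 70368744177664) (.ev (nat_lit 1712) (nat_lit 36893488147419103232) (.nd (nat_lit 2112) (.br (nat_lit
 3) (.ch (nat_lit 2) (.ev (nat_lit 2128) (nat_lit 264) (.fin (nat_lit 576434913755480669)))) (.br (nat_lit 4)
 (.ch (nat_lit 3) (.ev (nat_lit 2128) (nat_lit 68719477000) (.ev (nat_lit 2141) (nat_lit 18014398509481984)
 .dd))) (.ch (nat_lit 4) (.ev (nat_lit 2128) (nat_lit 18014467228958720) (.fin (nat_lit
 576451406492811808))))))))))))))))))))))) (.br (nat_lit 8) (.ch (nat_lit 7) (.ev (nat_lit 52) (nat_lit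
 922481618286461321498) (.ev (nat_lit 96) (nat_lit 152538833096299612192) .dd))) (.ch (nat_lit 8) (.ev (nat_lit
 52) (nat_lit 152249419355650885930) (.ev (nat_lit 180) (nat_lit 67108864) (.ev (nat_lit 244) (nat_lit
 549755813888) (.ev (nat_lit 384) (nat_lit 922771031477287125008) .dd)))))))) (.br (nat_lit 13) (.br (nat_lit
 10) (.ch (nat_lit 9) (.ev (nat_lit 52) (nat_lit 189242835311756577032) (.ev (nat_lit 244) (nat_lit 48) (.ev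
 (nat_lit 340) (nat_lit 8912896) (.ev (nat_lit 372) (nat_lit 590295810908461465600) (.ev (nat_lit 768) (nat_lit
 70368744210432) (.nd (nat_lit 1424) (.br (nat_lit 3) (.ch (nat_lit 2) (.ev (nat_lit 1440) (nat_lit
 9570166388097026) (.ev (nat_lit 1568) (nat_lit 295147905179352825856) (.ev (nat_lit 1620) (nat_lit
 288230376151711744) (.ev (nat_lit 1648) (nat_lit 274877906944) (.nd (nat_lit 1856) (.br (nat_lit 6) (.ch
 (nat_lit 2) (.ev (nat_lit 1872) (nat_lit 36028797019226112) .dd)) (.ch (nat_lit 6) (.fin (nat_lit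
 576485491275678253)))))))))) (.br (nat_lit 6) (.ch (nat_lit 3) (.ev (nat_lit 1440) (nat_lit
 295472164627401670656) (.ev (nat_lit 1568) (nat_lit 9007199254740992) (.ev (nat_lit 1620) (nat_lit 2) (.ev
 (nat_lit 1648) (nat_lit 65536) (.nd (nat_lit 1856) (.br (nat_lit 6) (.ch (nat_lit 2) (.fin (nat_lit
 576485491357467181))) (.ch (nat_lit 6) (.ev (nat_lit 1872) (nat_lit 562967133290496) .dd))))))))) (.ch
 (nat_lit 6) (.ev (nat_lit 1440) (nat_lit 295481734793789767682) .dd))))))))))) (.br (nat_lit 12) (.ch (nat_lit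
 10) (.ev (nat_lit 52) (nat_lit 885903879639830989082) (.ev (nat_lit 84) (nat_lit 281474976710656) (.ev
 (nat_lit 148) (nat_lit 262144) (.nd (nat_lit 1424) (.br (nat_lit 5) (.br (nat_lit 2) (.ch (nat_lit 0) (.ev
 (nat_lit 1440) (nat_lit 36894614066670075936) (.ev (nat_lit 1456) (nat_lit 8796093022208) (.ev (nat_lit 1488)
 (nat_lit 4611686018427387904) (.ev (nat_lit 1620) (nat_lit 36028797018963968) (.ev (nat_lit 1700) (nat_lit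
 147573952589676412928) (.ev (nat_lit 1709) (nat_lit 67108864) .dd))))))) (.ch (nat_lit 2) (.ev (nat_lit 1440)
 (nat_lit 41541211776222232608) (.ev (nat_lit 1456) (nat_lit 147573952589676412928) (.fin (nat_lit
 576408525514162733)))))) (.br (nat_lit 6) (.ch (nat_lit 5) (.ev (nat_lit 1440) (nat_lit 189080261453737361408)
 (.ev (nat_lit 1620) (nat_lit 32) (.ev (nat_lit 1700) (nat_lit 17179869184) (.fin (nat_lit
 576464600590402111)))))) (.ch (nat_lit 6) (.ev (nat_lit 1440) (nat_lit 152221676201299673120) (.ev (nat_lit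
 1600) (nat_lit 2147483648) (.ev (nat_lit 1760) (nat_lit 36893488147419103232) (.fin (nat_lit
 576507481522913891))))))))))))) (.ch (nat_lit 12) (.ev (nat_lit 52) (nat_lit 147880431029970337794) (.ev
 (nat_lit 84) (nat_lit 8388608) (.ev (nat_lit 116) (nat_lit 2048) (.ev (nat_lit 244) (nat_lit 8796093022208)
 (.ev (nat_lit 308) (nat_lit 41514181365101232160) (.ev (nat_lit 436) (nat_lit 295292583317382103040) (.ev
 (nat_lit 896) (nat_lit 274877906960) (.ev (nat_lit 1072) (nat_lit 262400) (.nd (nat_lit 1424) (.br (nat_lit 5)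
 (.br (nat_lit 3) (.ch (nat_lit 2) (.ev (nat_lit 1440) (nat_lit 590332120630701359104) (.ev (nat_lit 1712)
 (nat_lit 8) (.fin (nat_lit 576471197702111840))))) (.ch (nat_lit 3) (.ev (nat_lit 1440) (nat_lit
 36310340715184136) (.ev (nat_lit 1520) (nat_lit 590295810358705651712) (.ev (nat_lit 1533) (nat_lit
 1125899906842624) .dd))))) (.br (nat_lit 6) (.ch (nat_lit 5) (.ev (nat_lit 1440) (nat_lit
 590297217802308681736) (.ev (nat_lit 1796) (nat_lit 36028797018963968) (.ev (nat_lit 1805) (nat_lit 32768)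
 .dd)))) (.ch (nat_lit 6) (.ev (nat_lit 1440) (nat_lit 590295810358705651712) (.ev (nat_lit 1620) (nat_lit
 32768) (.ev (nat_lit 1712) (nat_lit 281474976710656) (.nd (nat_lit 2112) (.br (nat_lit 2) (.ch (nat_lit 0)
 (.ev (nat_lit 2128) (nat_lit 36028797018963976) (.fin (nat_lit 576471197702111840)))) (.br (nat_lit 4) (.ch
 (nat_lit 2) (.ev (nat_lit 2128) (nat_lit 1125968626319360) (.fin (nat_lit 576415122546180637)))) (.ch (nat_lit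
 4) (.ev (nat_lit 2128) (nat_lit 1125968626319368) (.ev (nat_lit 2141) (nat_lit 36028797018963968)
 .dd)))))))))))))))))))))))) (.br (nat_lit 18) (.br (nat_lit 17) (.ch (nat_lit 13) (.ev (nat_lit 52) (nat_lit
 742527765344374587648) (.ev (nat_lit 116) (nat_lit 274877906944) (.ev (nat_lit 276) (nat_lit 562949953421312)
 (.ev (nat_lit 372) (nat_lit 2) (.ev (nat_lit 436) (nat_lit 16777216) (.ev (nat_lit 500) (nat_lit
 295147905179352825856) (.ev (nat_lit 560) (nat_lit 281475052208136) (.ev (nat_lit 1040) (nat_lit 70866960384)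
 (.ev (nat_lit 1280) (nat_lit 288230376151711776) (.nd (nat_lit 1424) (.br (nat_lit 3) (.ch (nat_lit 0) (.ev
 (nat_lit 1440) (nat_lit 37055617751184312336) (.ev (nat_lit 1552) (nat_lit 70368744177664) (.ev (nat_lit 1565)
 (nat_lit 17592186044416) .dd)))) (.br (nat_lit 5) (.ch (nat_lit 3) (.ev (nat_lit 1440) (nat_lit
 37055705694934663184) (.ev (nat_lit 1552) (nat_lit 17179869184) (.ev (nat_lit 1565) (nat_lit 2048) .dd))))
 (.ch (nat_lit 5) (.ev (nat_lit 1440) (nat_lit 70385924046848) (.ev (nat_lit 1620) (nat_lit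
 37055617734004441104) (.ev (nat_lit 1812) (nat_lit 2048) (.ev (nat_lit 1821) (nat_lit 17592186044416)
 .dd)))))))))))))))))) (.ch (nat_lit 17) (.ev (nat_lit 52) (nat_lit 632235045619060703242) (.ev (nat_lit 116)
 (nat_lit 8388608) (.ev (nat_lit 180) (nat_lit 65536) (.ev (nat_lit 212) (nat_lit 281474976710656) (.ev
 (nat_lit 276) (nat_lit 295147905179352825856) (.ev (nat_lit 308) (nat_lit 68719476736) (.ev (nat_lit 340)
 (nat_lit 147573952589676412928) (.ev (nat_lit 800) (nat_lit 9007749010554880) (.ev (nat_lit 1168) (nat_lit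
 32784) (.nd (nat_lit 1424) (.br (nat_lit 2) (.ch (nat_lit 0) (.ev (nat_lit 1440) (nat_lit 54258699807492352)
 (.ev (nat_lit 1520) (nat_lit 2147483648) (.ev (nat_lit 1664) (nat_lit 262144) (.fin (nat_lit
 576441510862996073)))))) (.br (nat_lit 6) (.ch (nat_lit 2) (.ev (nat_lit 1440) (nat_lit 18159536192356640)
 (.nd (nat_lit 1856) (.br (nat_lit 6) (.ch (nat_lit 3) (.ev (nat_lit 1872) (nat_lit 36028797019226112) (.fin
 (nat_lit 576474496195052092)))) (.ch (nat_lit 6) (.ev (nat_lit 1872) (nat_lit 70368744179712) (.fin (nat_lit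
 576437112845845075)))))))) (.ch (nat_lit 6) (.ev (nat_lit 1440) (nat_lit 36099167911413792) (.ev (nat_lit
 1700) (nat_lit 18014398509481984) (.ev (nat_lit 1728) (nat_lit 4398046511104) (.nd (nat_lit 1856) (.br
 (nat_lit 3) (.ch (nat_lit 2) (.nd (nat_lit 2208) (.br (nat_lit 4) (.ch (nat_lit 0) (.fin (nat_lit
 576487690313613859))) (.ch (nat_lit 4) (.ev (nat_lit 2224) (nat_lit 140737488355584) .dd))))) (.ch (nat_lit 3)
 (.ev (nat_lit 1872) (nat_lit 140737488355584) .dd)))))))))))))))))))))) (.br (nat_lit 21) (.ch (nat_lit 18)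
 (.ev (nat_lit 52) (nat_lit 42002334035722404096) (.ev (nat_lit 84) (nat_lit 2048) (.ev (nat_lit 160) (nat_lit
 1033018117347038527546) .dd)))) (.ch (nat_lit 21) (.ev (nat_lit 52) (nat_lit 1070227746150736036130) (.ev
 (nat_lit 84) (nat_lit 67108864) (.ev (nat_lit 148) (nat_lit 562949953421312) (.nd (nat_lit 1424) (.br (nat_lit
 5) (.br (nat_lit 3) (.ch (nat_lit 0) (.ev (nat_lit 1440) (nat_lit 4756095875619489800) (.ev (nat_lit 1620)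
 (nat_lit 16) (.ev (nat_lit 1700) (nat_lit 36028797018963968) (.fin (nat_lit 576458003520635457)))))) (.ch
 (nat_lit 3) (.ev (nat_lit 1440) (nat_lit 4648027093928509456) (.ev (nat_lit 1456) (nat_lit 2048) (.fin
 (nat_lit 576408525491094061)))))) (.br (nat_lit 6) (.ch (nat_lit 5) (.ev (nat_lit 1440) (nat_lit
 180165975327375384) (.ev (nat_lit 1456) (nat_lit 4611686018427387904) (.ev (nat_lit 1488) (nat_lit
 8796093022208) (.ev (nat_lit 1620) (nat_lit 17179869184) (.ev (nat_lit 1700) (nat_lit 2048) (.ev (nat_lit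
 1709) (nat_lit 281474976710656) .dd))))))) (.ch (nat_lit 6) (.ev (nat_lit 1440) (nat_lit 4611993898863036432)
 (.ev (nat_lit 1600) (nat_lit 144115188075855872) (.ev (nat_lit 1760) (nat_lit 4398046511104) (.fin (nat_lit
 576507481575342691))))))))))))))))) (.br (nat_lit 34) (.br (nat_lit 30) (.br (nat_lit 25) (.ch (nat_lit 22)
 (.ev (nat_lit 52) (nat_lit 1037665687044130079016) (.ev (nat_lit 84) (nat_lit 70368744177664) (.ev (nat_lit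
 148) (nat_lit 144255925564211200) (.ev (nat_lit 180) (nat_lit 1125899906842624) (.ev (nat_lit 244) (nat_lit
 2147483648) (.ev (nat_lit 308) (nat_lit 262144) (.ev (nat_lit 372) (nat_lit 562949953421328) (.ev (nat_lit
 436) (nat_lit 8796093022208) (.ev (nat_lit 576) (nat_lit 18014398509580290) (.ev (nat_lit 1200) (nat_lit
 8388608) (.nd (nat_lit 1424) (.br (nat_lit 2) (.ch (nat_lit 0) (.ev (nat_lit 1440) (nat_lit
 37181718523570817024) (.ev (nat_lit 1488) (nat_lit 9007199254740992) (.ev (nat_lit 1501) (nat_lit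
 274877906944) .dd)))) (.br (nat_lit 5) (.ch (nat_lit 2) (.ev (nat_lit 1440) (nat_lit 9007474132649984) (.fin
 (nat_lit 576507481575342663)))) (.ch (nat_lit 5) (.ev (nat_lit 1440) (nat_lit 37190725997703462912) (.ev
 (nat_lit 1453) (nat_lit 2048) .dd))))))))))))))))) (.br (nat_lit 26) (.ch (nat_lit 25) (.ev (nat_lit 52)
 (nat_lit 4937383904727597066) (.ev (nat_lit 116) (nat_lit 524288) (.ev (nat_lit 180) (nat_lit 274877906944)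
 (.ev (nat_lit 212) (nat_lit 67108864) (.ev (nat_lit 276) (nat_lit 9007199254740992) (.ev (nat_lit 308)
 (nat_lit 256) (.ev (nat_lit 340) (nat_lit 2048) (.ev (nat_lit 832) (nat_lit 885443715538058477568) (.ev
 (nat_lit 1152) (nat_lit 70368744177696) (.nd (nat_lit 1424) (.br (nat_lit 5) (.ch (nat_lit 3) (.ev (nat_lit
 1440) (nat_lit 37055758540220661776) (.nd (nat_lit 1888) (.br (nat_lit 5) (.ch (nat_lit 2) (.ev (nat_lit 1904)
 (nat_lit 147573952589676445696) (.fin (nat_lit 576437112764056147)))) (.ch (nat_lit 5) (.ev (nat_lit 1904)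
 (nat_lit 562967133290496) (.fin (nat_lit 576474496205537852)))))))) (.br (nat_lit 6) (.ch (nat_lit 5) (.ev
 (nat_lit 1440) (nat_lit 184485595958992732160) (.ev (nat_lit 1520) (nat_lit 144115188075855872) (.ev (nat_lit
 1664) (nat_lit 562949953421312) (.fin (nat_lit 576441510839927401)))))) (.ch (nat_lit 6) (.ev (nat_lit 1440)
 (nat_lit 147718630744893980688) (.ev (nat_lit 1700) (nat_lit 140737488355328) (.ev (nat_lit 1728) (nat_lit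
 36893488147419103232) (.nd (nat_lit 1888) (.br (nat_lit 2) (.ch (nat_lit 1) (.ev (nat_lit 1904) (nat_lit
 18014467228958720) .dd)) (.ch (nat_lit 2) (.nd (nat_lit 2208) (.br (nat_lit 3) (.ch (nat_lit 0) (.fin (nat_lit
 576487690366042659))) (.ch (nat_lit 3) (.ev (nat_lit 2224) (nat_lit 18014467228958720)
 .dd)))))))))))))))))))))))) (.ch (nat_lit 26) (.ev (nat_lit 52) (nat_lit 332221761700294918154) (.ev (nat_lit
 84) (nat_lit 147573952589676412928) (.ev (nat_lit 192) (nat_lit 595224737092789602608) .dd)))))) (.br (nat_lit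
 31) (.ch (nat_lit 30) (.ev (nat_lit 52) (nat_lit 443046632095809824) (.ev (nat_lit 64) (nat_lit
 1074577404750665123866) .dd))) (.br (nat_lit 33) (.ch (nat_lit 31) (.ev (nat_lit 52) (nat_lit
 299797801718019326242) (.ev (nat_lit 276) (nat_lit 590295810358705651712) (.ev (nat_lit 436) (nat_lit
 549755813888) (.ev (nat_lit 500) (nat_lit 68719476736) (.ev (nat_lit 688) (nat_lit 264208) (.ev (nat_lit 1328)
 (nat_lit 4398046511104) (.nd (nat_lit 1424) (.br (nat_lit 2) (.ch (nat_lit 0) (.ev (nat_lit 1440) (nat_lit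
 184917800701980082176) (.ev (nat_lit 1520) (nat_lit 8796093022208) (.ev (nat_lit 1664) (nat_lit 8) (.fin
 (nat_lit 576496486473744961)))))) (.br (nat_lit 3) (.ch (nat_lit 2) (.ev (nat_lit 1440) (nat_lit
 147727101365286109192) (.ev (nat_lit 1700) (nat_lit 2147483648) (.ev (nat_lit 1728) (nat_lit
 18014398509481984) (.nd (nat_lit 1888) (.br (nat_lit 4) (.ch (nat_lit 2) (.ev (nat_lit 1904) (nat_lit
 37181718523570814976) .dd)) (.ch (nat_lit 4) (.nd (nat_lit 2240) (.br (nat_lit 3) (.ch (nat_lit 2) (.ev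
 (nat_lit 2256) (nat_lit 37181718523570814976) .dd)) (.ch (nat_lit 3) (.fin (nat_lit
 576415122546180665)))))))))))) (.ch (nat_lit 3) (.ev (nat_lit 1440) (nat_lit 37208766511761588224) (.nd
 (nat_lit 1888) (.br (nat_lit 6) (.ch (nat_lit 5) (.ev (nat_lit 1904) (nat_lit 144115188075855880) (.fin
 (nat_lit 576474496205537852)))) (.ch (nat_lit 6) (.ev (nat_lit 1904) (nat_lit 147573952589676445696) (.fin
 (nat_lit 576514078630429267)))))))))))))))))) (.ch (nat_lit 33) (.ev (nat_lit 52) (nat_lit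
 627235768901308516624) (.ev (nat_lit 84) (nat_lit 32768) (.ev (nat_lit 148) (nat_lit 18014400656965632) (.ev
 (nat_lit 180) (nat_lit 8) (.ev (nat_lit 244) (nat_lit 144115188075855872) (.ev (nat_lit 308) (nat_lit
 562949953421312) (.ev (nat_lit 372) (nat_lit 262176) (.ev (nat_lit 436) (nat_lit 4611686018427387904) (.ev
 (nat_lit 544) (nat_lit 288441757262151680) (.ev (nat_lit 1216) (nat_lit 524288) (.nd (nat_lit 1424) (.br
 (nat_lit 3) (.ch (nat_lit 0) (.ev (nat_lit 1440) (nat_lit 295147909577399402498) (.ev (nat_lit 1453) (nat_lit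
 147573952589676412928) .dd))) (.br (nat_lit 5) (.ch (nat_lit 3) (.ev (nat_lit 1440) (nat_lit
 442721857769029304320) (.fin (nat_lit 576507481522913863)))) (.ch (nat_lit 5) (.ev (nat_lit 1440) (nat_lit
 147573956987722924034) (.ev (nat_lit 1488) (nat_lit 295147905179352825856) (.ev (nat_lit 1501) (nat_lit 65536)
 .dd))))))))))))))))))))) (.br (nat_lit 37) (.br (nat_lit 35) (.ch (nat_lit 34) (.ev (nat_lit 52) (nat_lit
 631964746338372452408) (.ev (nat_lit 276) (nat_lit 288230376151711746) (.ev (nat_lit 468) (nat_lit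
 36028814198833152) (.ev (nat_lit 784) (nat_lit 147573952589676414976) (.nd (nat_lit 1424) (.br (nat_lit 5)
 (.ch (nat_lit 0) (.ev (nat_lit 1440) (nat_lit 295147905248089407488) (.ev (nat_lit 1568) (nat_lit
 562949953421312) (.ev (nat_lit 1620) (nat_lit 274877906944) (.ev (nat_lit 1648) (nat_lit 256) (.nd (nat_lit
 1920) (.br (nat_lit 3) (.ch (nat_lit 2) (.fin (nat_lit 576426117647778367))) (.ch (nat_lit 3) (.ev (nat_lit
 1936) (nat_lit 9024791440785408) .dd))))))))) (.br (nat_lit 6) (.ch (nat_lit 5) (.ev (nat_lit 1440) (nat_lit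
 9588016272113920) (.ev (nat_lit 1568) (nat_lit 262144) (.ev (nat_lit 1620) (nat_lit 65536) (.ev (nat_lit 1648)
 (nat_lit 68719476736) (.nd (nat_lit 1920) (.br (nat_lit 1) (.ch (nat_lit 0) (.ev (nat_lit 1936) (nat_lit
 295147905179369603072) .dd)) (.ch (nat_lit 1) (.fin (nat_lit 576426117729567295)))))))))) (.ch (nat_lit 6)
 (.ev (nat_lit 1440) (nat_lit 295157493264361521408) .dd)))))))))) (.br (nat_lit 36) (.ch (nat_lit 35) (.ev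
 (nat_lit 52) (nat_lit 484669229692464136240) (.ev (nat_lit 148) (nat_lit 8796093022210) (.ev (nat_lit 180)
 (nat_lit 70368744177664) (.ev (nat_lit 244) (nat_lit 17592186044416) (.ev (nat_lit 308) (nat_lit
 590331839155724615680) (.ev (nat_lit 340) (nat_lit 8) (.ev (nat_lit 468) (nat_lit 18014398509481984) (.ev
 (nat_lit 1008) (nat_lit 67584) (.nd (nat_lit 1424) (.br (nat_lit 5) (.br (nat_lit 3) (.ch (nat_lit 2) (.ev
 (nat_lit 1440) (nat_lit 145410412806400) (.ev (nat_lit 1488) (nat_lit 262144) (.fin (nat_lit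
 576471197702111840))))) (.ch (nat_lit 3) (.ev (nat_lit 1440) (nat_lit 1126243504521216) (.ev (nat_lit 1600)
 (nat_lit 256) (.ev (nat_lit 1760) (nat_lit 4398046511104) (.ev (nat_lit 1773) (nat_lit 140737488355328)
 .dd)))))) (.br (nat_lit 6) (.ch (nat_lit 5) (.ev (nat_lit 1440) (nat_lit 145204254605568) (.ev (nat_lit 1472)
 (nat_lit 274877906944) (.ev (nat_lit 1620) (nat_lit 1125899906842624) (.ev (nat_lit 1629) (nat_lit 32768)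
 .dd))))) (.ch (nat_lit 6) (.ev (nat_lit 1440) (nat_lit 274878169088) (.ev (nat_lit 1632) (nat_lit 32768) (.ev
 (nat_lit 1712) (nat_lit 4398046511104) (.nd (nat_lit 2112) (.br (nat_lit 1) (.ch (nat_lit 0) (.ev (nat_lit
 2128) (nat_lit 140737488355584) (.fin (nat_lit 576471197702111840)))) (.br (nat_lit 2) (.ch (nat_lit 1) (.ev
 (nat_lit 2128) (nat_lit 1125968626319616) (.ev (nat_lit 2141) (nat_lit 140737488355328) .dd))) (.ch (nat_lit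
 2) (.ev (nat_lit 2128) (nat_lit 1125968626319360) (.fin (nat_lit 576434913807909469)))))))))))))))))))))))
 (.ch (nat_lit 36) (.ev (nat_lit 52) (nat_lit 926967547127746529288) (.ev (nat_lit 116) (nat_lit 65536) (.ev
 (nat_lit 276) (nat_lit 262144) (.ev (nat_lit 372) (nat_lit 288230376151711744) (.ev (nat_lit 436) (nat_lit
 17592186044416) (.ev (nat_lit 500) (nat_lit 9007199254740992) (.ev (nat_lit 528) (nat_lit 1407374951186432)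
 (.ev (nat_lit 720) (nat_lit 144115188075856128) (.ev (nat_lit 1296) (nat_lit 18) (.nd (nat_lit 1424) (.br
 (nat_lit 2) (.ch (nat_lit 0) (.ev (nat_lit 1440) (nat_lit 36028797018996736) (.ev (nat_lit 1620) (nat_lit
 145137682350112) (.ev (nat_lit 1812) (nat_lit 16777216) (.ev (nat_lit 1821) (nat_lit 147573952589676412928)
 .dd))))) (.br (nat_lit 5) (.ch (nat_lit 2) (.ev (nat_lit 1440) (nat_lit 145137699160096) (.ev (nat_lit 1552)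
 (nat_lit 36028797018963968) (.ev (nat_lit 1565) (nat_lit 147573952589676412928) .dd)))) (.ch (nat_lit 5) (.ev
 (nat_lit 1440) (nat_lit 147610126524377727008) (.ev (nat_lit 1552) (nat_lit 32768) (.ev (nat_lit 1565)
 (nat_lit 16777216) .dd))))))))))))))))))) (.br (nat_lit 39) (.br (nat_lit 38) (.ch (nat_lit 37) (.ev (nat_lit
 52) (nat_lit 447785830455368288272) (.ev (nat_lit 180) (nat_lit 281474976710656) (.ev (nat_lit 244) (nat_lit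
 590295810358705651712) (.ev (nat_lit 320) (nat_lit 36938529093710283050) .dd))))) (.ch (nat_lit 38) (.ev
 (nat_lit 52) (nat_lit 590360642789107304504) (.ev (nat_lit 116) (nat_lit 32768) (.ev (nat_lit 148) (nat_lit
 36893488216138579968) (.ev (nat_lit 244) (nat_lit 17179869440) (.ev (nat_lit 308) (nat_lit 140737488355328)
 (.ev (nat_lit 372) (nat_lit 4611686018427387904) (.ev (nat_lit 404) (nat_lit 67108864) (.ev (nat_lit 592)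
 (nat_lit 288230376151777282) (.ev (nat_lit 864) (nat_lit 295292020367428681728) (.ev (nat_lit 1408) (nat_lit
 524288) (.nd (nat_lit 1424) (.br (nat_lit 2) (.ch (nat_lit 0) (.ev (nat_lit 1440) (nat_lit 281475001876480)
 (.ev (nat_lit 1584) (nat_lit 147573952589676412928) (.ev (nat_lit 1597) (nat_lit 8796093022208) .dd)))) (.br
 (nat_lit 6) (.ch (nat_lit 2) (.ev (nat_lit 1440) (nat_lit 147574242860771311616) .dd)) (.ch (nat_lit 6) (.ev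
 (nat_lit 1440) (nat_lit 147573961385769435136) (.ev (nat_lit 1744) (nat_lit 281474976710656) (.nd (nat_lit
 2144) (.br (nat_lit 3) (.ch (nat_lit 1) (.fin (nat_lit 576461302086976015))) (.br (nat_lit 4) (.ch (nat_lit 3)
 (.ev (nat_lit 2160) (nat_lit 25165824) .dd)) (.ch (nat_lit 4) (.ev (nat_lit 2160) (nat_lit 25165824)
 .dd))))))))))))))))))))))) (.br (nat_lit 42) (.ch (nat_lit 39) (.ev (nat_lit 52) (nat_lit
 627676127345434986498) (.ev (nat_lit 84) (nat_lit 524288) (.ev (nat_lit 116) (nat_lit 147573952589676412928)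
 (.ev (nat_lit 244) (nat_lit 4611686018427387904) (.ev (nat_lit 308) (nat_lit 295147918373492359184) (.ev
 (nat_lit 436) (nat_lit 9007201402486784) (.ev (nat_lit 912) (nat_lit 65568) (.ev (nat_lit 1088) (nat_lit
 563018672898048) (.nd (nat_lit 1424) (.br (nat_lit 3) (.br (nat_lit 2) (.ch (nat_lit 0) (.ev (nat_lit 1440)
 (nat_lit 1126449729765640) (.ev (nat_lit 1796) (nat_lit 17179869184) (.ev (nat_lit 1805) (nat_lit
 70368744177664) .dd)))) (.ch (nat_lit 2) (.ev (nat_lit 1440) (nat_lit 1196285897998592) (.ev (nat_lit 1520)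
 (nat_lit 549755813888) (.ev (nat_lit 1533) (nat_lit 8) .dd))))) (.br (nat_lit 6) (.ch (nat_lit 3) (.ev
 (nat_lit 1440) (nat_lit 70935746969600) (.ev (nat_lit 1712) (nat_lit 1125899906842624) (.fin (nat_lit
 576471197628711520))))) (.ch (nat_lit 6) (.ev (nat_lit 1440) (nat_lit 549755813888) (.ev (nat_lit 1620)
 (nat_lit 70368744177664) (.ev (nat_lit 1712) (nat_lit 67108864) (.nd (nat_lit 2144) (.br (nat_lit 2) (.ch
 (nat_lit 0) (.ev (nat_lit 2160) (nat_lit 1125899906842888) (.ev (nat_lit 2173) (nat_lit 17179869184) .dd)))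
 (.br (nat_lit 4) (.ch (nat_lit 2) (.ev (nat_lit 2160) (nat_lit 264) (.fin (nat_lit 576415122598609437)))) (.ch
 (nat_lit 4) (.ev (nat_lit 2160) (nat_lit 1125917086711808) (.fin (nat_lit
 576451406492811808))))))))))))))))))))))) (.ch (nat_lit 42) (.ev (nat_lit 52) (nat_lit 479624929603461417258)
 (.ev (nat_lit 84) (nat_lit 1125899906842624) (.ev (nat_lit 148) (nat_lit 36028797018963968) (.ev (nat_lit 244)
 (nat_lit 288230376151711744) (.ev (nat_lit 276) (nat_lit 4611686020574871552) (.ev (nat_lit 372) (nat_lit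
 18014398509481984) (.nd (nat_lit 1424) (.br (nat_lit 5) (.br (nat_lit 3) (.ch (nat_lit 0) (.ev (nat_lit 1440)
 (nat_lit 590440348309027553280) (.ev (nat_lit 1620) (nat_lit 70368744177664) (.ev (nat_lit 1700) (nat_lit 16)
 (.fin (nat_lit 576458003520635457)))))) (.ch (nat_lit 3) (.ev (nat_lit 1440) (nat_lit 369435932098576) (.ev
 (nat_lit 1456) (nat_lit 590295810358705651712) (.ev (nat_lit 1488) (nat_lit 549755813888) (.ev (nat_lit 1620)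
 (nat_lit 17179869184) (.ev (nat_lit 1700) (nat_lit 144115188075855872) (.ev (nat_lit 1709) (nat_lit
 140737488355328) .dd)))))))) (.br (nat_lit 6) (.ch (nat_lit 5) (.ev (nat_lit 1440) (nat_lit
 590440154812135768064) (.ev (nat_lit 1600) (nat_lit 16777216) (.ev (nat_lit 1760) (nat_lit 281474976710656)
 (.fin (nat_lit 576481093281595927)))))) (.ch (nat_lit 6) (.ev (nat_lit 1440) (nat_lit 590296321099036622864)
 (.ev (nat_lit 1456) (nat_lit 144115188075855872) (.fin (nat_lit 576461302034547313))))))))))))))))))))))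

/-- The trie. -/
noncomputable def T : Tr := .nd (nat_lit 1000000) (.br (nat_lit 1) (.ch (nat_lit 0) (.ev (nat_lit 0) (nat_lit 2361183241434822606847) .dd)) (.br (nat_lit 3) (.ch (nat_lit 1) T1) (.ch (nat_lit 3) T3)))

/-- The possible values. -/
noncomputable def oks : List ℕ := [85, 610, 4165, 6052]

/-- The parameters. -/
noncomputable def S : Pr := ⟨fun i l e => lget mz (lget [] (lget [] tabs i) l) e, oks, [(nat_lit 0), (nat_lit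
 1), (nat_lit 0), (nat_lit 0), (nat_lit 0)], T, (nat_lit 2361183241434822606847), (nat_lit
 87122173451996128837), (nat_lit 71), [(nat_lit 1), (nat_lit 3303796230157)], [(nat_lit 2401), (nat_lit 1849)]⟩

/-- Nothing known. -/
noncomputable def cs0 : Cs := (.cons (nat_lit 7) (nat_lit 0) (nat_lit 1) (.cons (nat_lit 43) (nat_lit 0) (nat_lit 1) .nil))

theorem part_1 : part S cs0 (nat_lit 1) = true := by decide +kernel

theorem part_3 : part S cs0 (nat_lit 3) = true := by decide +kernel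

/-- Data of a prime. -/
noncomputable def D0 : PD := ⟨(nat_lit 7), (nat_lit 4), (2282, 1, 2), (2043, 1659, 1089), (1701, 1622, 907)⟩

theorem D0_ok : D0.Ok := pdb_sound (s := 1) (C := ⟨⟨7, -2, -11, 7, 2, 4, 0, 3, -1⟩, (5, 2, 3)⟩) (by show Nat.Prime 7; norm_num) (by decide +kernel)

/-- Lines of the first type. -/
noncomputable def Cl0 : List C1 := [⟨⟨7, 2, -11, 7, -2, 4, 0, -3, -1⟩, (6, 1, 5)⟩,
  ⟨⟨0, 0, 0, 0, 0, 0, 0, 0, 0⟩, (0, 0, 0)⟩,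
  ⟨⟨0, 0, 0, 0, 0, 0, 0, 0, 0⟩, (0, 0, 0)⟩,
  ⟨⟨0, 0, 0, 0, 0, 0, 0, 0, 0⟩, (0, 0, 0)⟩,
  ⟨⟨0, 0, 0, 0, 0, 0, 0, 0, 0⟩, (0, 0, 0)⟩,
  ⟨⟨0, 0, 0, 0, 0, 0, 0, 0, 0⟩, (0, 0, 0)⟩,
  ⟨⟨0, 0, 0, 0, 0, 0, 0, 0, 0⟩, (0, 0, 0)⟩]

/-- Data of a prime. -/
noncomputable def D1 : PD := ⟨(nat_lit 43), (nat_lit 2), (989, 1, 17), (1652, 774, 636), (172, 5, 130)⟩

theorem D1_ok : D1.Ok := pdb_sound (s := 1) (C := ⟨⟨43, -38, -44, 43, 38, 1, 0, 9, -19⟩, (5, 38, 9)⟩) (by show Nat.Prime 43; norm_num) (by decide +kernel)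

/-- Lines of the first type. -/
noncomputable def Cl1 : List C1 := [⟨⟨43, 38, -44, 43, -38, 1, 0, -9, -19⟩, (42, 1, 24)⟩,
  ⟨⟨0, 0, 0, 0, 0, 0, 0, 0, 0⟩, (0, 0, 0)⟩,
  ⟨⟨57, -18, -16, -17, -58, 1, 4, 1, -23⟩, (41, 27, 24)⟩,
  ⟨⟨7, -38, -56, -33, -42, 49, -16, 7, -1⟩, (28, 40, 22)⟩,
  ⟨⟨0, 0, 0, 0, 0, 0, 0, 0, 0⟩, (0, 0, 0)⟩,
  ⟨⟨0, 0, 0, 0, 0, 0, 0, 0, 0⟩, (0, 0, 0)⟩,
  ⟨⟨0, 0, 0, 0, 0, 0, 0, 0, 0⟩, (0, 0, 0)⟩,
  ⟨⟨0, 0, 0, 0, 0, 0, 0, 0, 0⟩, (0, 0, 0)⟩,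
  ⟨⟨0, 0, 0, 0, 0, 0, 0, 0, 0⟩, (0, 0, 0)⟩,
  ⟨⟨0, 0, 0, 0, 0, 0, 0, 0, 0⟩, (0, 0, 0)⟩,
  ⟨⟨0, 0, 0, 0, 0, 0, 0, 0, 0⟩, (0, 0, 0)⟩,
  ⟨⟨27, -18, -71, -53, -22, 4, -4, 17, -7⟩, (6, 36, 23)⟩,
  ⟨⟨0, 0, 0, 0, 0, 0, 0, 0, 0⟩, (0, 0, 0)⟩,
  ⟨⟨0, 0, 0, 0, 0, 0, 0, 0, 0⟩, (0, 0, 0)⟩,
  ⟨⟨-7, -2, -64, -47, -38, 31, 12, -15, -7⟩, (37, 15, 41)⟩,
  ⟨⟨-7, 2, -64, -47, 38, 31, 12, 15, -7⟩, (3, 14, 1)⟩,
  ⟨⟨-7, 38, -49, 33, 42, 16, 16, -7, -17⟩, (27, 14, 12)⟩,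
  ⟨⟨0, 0, 0, 0, 0, 0, 0, 0, 0⟩, (0, 0, 0)⟩,
  ⟨⟨0, 0, 0, 0, 0, 0, 0, 0, 0⟩, (0, 0, 0)⟩,
  ⟨⟨57, 18, -16, -17, 58, 1, 4, -1, -23⟩, (36, 30, 41)⟩,
  ⟨⟨53, 22, -49, 27, -18, 44, 4, -17, -11⟩, (6, 42, 11)⟩,
  ⟨⟨0, 0, 0, 0, 0, 0, 0, 0, 0⟩, (0, 0, 0)⟩,
  ⟨⟨0, 0, 0, 0, 0, 0, 0, 0, 0⟩, (0, 0, 0)⟩,
  ⟨⟨27, 18, -71, -53, 22, 4, -4, -17, -7⟩, (1, 6, 11)⟩,
  ⟨⟨57, -18, -41, -17, -58, 16, -4, -1, -19⟩, (7, 13, 41)⟩,
  ⟨⟨0, 0, 0, 0, 0, 0, 0, 0, 0⟩, (0, 0, 0)⟩,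
  ⟨⟨0, 0, 0, 0, 0, 0, 0, 0, 0⟩, (0, 0, 0)⟩,
  ⟨⟨7, 38, -56, -33, 42, 49, -16, -7, -1⟩, (27, 14, 12)⟩,
  ⟨⟨7, 2, -71, -47, -38, 16, 12, -15, -5⟩, (3, 29, 42)⟩,
  ⟨⟨7, -2, -71, -47, 38, 16, 12, 15, -5⟩, (37, 28, 2)⟩,
  ⟨⟨0, 0, 0, 0, 0, 0, 0, 0, 0⟩, (0, 0, 0)⟩,
  ⟨⟨0, 0, 0, 0, 0, 0, 0, 0, 0⟩, (0, 0, 0)⟩,
  ⟨⟨53, -22, -49, 27, 18, 44, 4, 17, -11⟩, (36, 37, 23)⟩,
  ⟨⟨0, 0, 0, 0, 0, 0, 0, 0, 0⟩, (0, 0, 0)⟩,
  ⟨⟨0, 0, 0, 0, 0, 0, 0, 0, 0⟩, (0, 0, 0)⟩,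
  ⟨⟨0, 0, 0, 0, 0, 0, 0, 0, 0⟩, (0, 0, 0)⟩,
  ⟨⟨0, 0, 0, 0, 0, 0, 0, 0, 0⟩, (0, 0, 0)⟩,
  ⟨⟨0, 0, 0, 0, 0, 0, 0, 0, 0⟩, (0, 0, 0)⟩,
  ⟨⟨0, 0, 0, 0, 0, 0, 0, 0, 0⟩, (0, 0, 0)⟩,
  ⟨⟨0, 0, 0, 0, 0, 0, 0, 0, 0⟩, (0, 0, 0)⟩,
  ⟨⟨-7, -38, -49, 33, -42, 16, 16, 7, -17⟩, (28, 40, 22)⟩,
  ⟨⟨57, 18, -41, -17, 58, 16, -4, 1, -19⟩, (2, 16, 24)⟩,
  ⟨⟨0, 0, 0, 0, 0, 0, 0, 0, 0⟩, (0, 0, 0)⟩]

/-- Data of a prime. -/
noncomputable def Dm : PD := ⟨(nat_lit 71), (nat_lit 2), (72, 9, 33), (3977, 4536, 3372), (4173, 4400, 3526)⟩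

theorem Dm_ok : Dm.Ok := pdb_sound (s := 11) (C := ⟨⟨59, 34, -112, -29, 94, 37, -24, -3, -11⟩, (59, 42, 47)⟩) (by show Nat.Prime 71; norm_num) (by decide +kernel)

/-- Lines of the first type. -/
noncomputable def Clm : List C1 := [⟨⟨-59, -34, -53, 29, -94, 8, 24, 3, -35⟩, (17, 47, 34)⟩,
  ⟨⟨0, 0, 0, 0, 0, 0, 0, 0, 0⟩, (0, 0, 0)⟩,
  ⟨⟨49, -74, -77, 79, 14, 28, 12, 21, -29⟩, (59, 56, 13)⟩,
  ⟨⟨0, 0, 0, 0, 0, 0, 0, 0, 0⟩, (0, 0, 0)⟩,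
  ⟨⟨0, 0, 0, 0, 0, 0, 0, 0, 0⟩, (0, 0, 0)⟩,
  ⟨⟨0, 0, 0, 0, 0, 0, 0, 0, 0⟩, (0, 0, 0)⟩,
  ⟨⟨79, -14, -107, 49, 74, 28, -12, 21, -17⟩, (44, 21, 5)⟩,
  ⟨⟨0, 0, 0, 0, 0, 0, 0, 0, 0⟩, (0, 0, 0)⟩,
  ⟨⟨0, 0, 0, 0, 0, 0, 0, 0, 0⟩, (0, 0, 0)⟩,
  ⟨⟨39, 66, -92, -89, 46, 37, -8, -19, -23⟩, (13, 65, 21)⟩,
  ⟨⟨19, 46, -107, -91, -26, 8, 12, -27, -19⟩, (7, 30, 53)⟩,
  ⟨⟨0, 0, 0, 0, 0, 0, 0, 0, 0⟩, (0, 0, 0)⟩,
  ⟨⟨0, 0, 0, 0, 0, 0, 0, 0, 0⟩, (0, 0, 0)⟩,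
  ⟨⟨99, 6, -67, 11, -94, 32, -4, -11, -31⟩, (13, 33, 59)⟩,
  ⟨⟨-39, -66, -53, -89, 46, 52, 8, 19, -31⟩, (17, 57, 22)⟩,
  ⟨⟨0, 0, 0, 0, 0, 0, 0, 0, 0⟩, (0, 0, 0)⟩,
  ⟨⟨0, 0, 0, 0, 0, 0, 0, 0, 0⟩, (0, 0, 0)⟩,
  ⟨⟨19, -46, -107, -91, 26, 8, 12, 27, -19⟩, (15, 44, 2)⟩,
  ⟨⟨0, 0, 0, 0, 0, 0, 0, 0, 0⟩, (0, 0, 0)⟩,
  ⟨⟨0, 0, 0, 0, 0, 0, 0, 0, 0⟩, (0, 0, 0)⟩,
  ⟨⟨51, 66, -88, -59, 74, 67, -20, -5, -17⟩, (59, 64, 59)⟩,
  ⟨⟨49, 74, -77, 79, -14, 28, 12, -21, -29⟩, (6, 43, 29)⟩,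
  ⟨⟨0, 0, 0, 0, 0, 0, 0, 0, 0⟩, (0, 0, 0)⟩,
  ⟨⟨0, 0, 0, 0, 0, 0, 0, 0, 0⟩, (0, 0, 0)⟩,
  ⟨⟨0, 0, 0, 0, 0, 0, 0, 0, 0⟩, (0, 0, 0)⟩,
  ⟨⟨31, 74, -83, -81, 54, 68, -16, -13, -19⟩, (8, 2, 60)⟩,
  ⟨⟨0, 0, 0, 0, 0, 0, 0, 0, 0⟩, (0, 0, 0)⟩,
  ⟨⟨11, 94, -43, -99, 6, 32, 4, -11, -35⟩, (69, 18, 38)⟩,
  ⟨⟨-51, 66, -37, 59, 74, 8, 20, -5, -37⟩, (25, 56, 25)⟩,
  ⟨⟨0, 0, 0, 0, 0, 0, 0, 0, 0⟩, (0, 0, 0)⟩,
  ⟨⟨39, -66, -92, -89, -46, 37, -8, 19, -23⟩, (43, 2, 64)⟩,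
  ⟨⟨0, 0, 0, 0, 0, 0, 0, 0, 0⟩, (0, 0, 0)⟩,
  ⟨⟨59, -34, -112, -29, -94, 37, -24, 3, -11⟩, (9, 4, 18)⟩,
  ⟨⟨0, 0, 0, 0, 0, 0, 0, 0, 0⟩, (0, 0, 0)⟩,
  ⟨⟨0, 0, 0, 0, 0, 0, 0, 0, 0⟩, (0, 0, 0)⟩,
  ⟨⟨-59, 34, -53, 29, 94, 8, 24, -3, -35⟩, (8, 43, 16)⟩,
  ⟨⟨0, 0, 0, 0, 0, 0, 0, 0, 0⟩, (0, 0, 0)⟩,
  ⟨⟨11, -94, -43, -99, -6, 32, 4, 11, -35⟩, (2, 53, 33)⟩,
  ⟨⟨0, 0, 0, 0, 0, 0, 0, 0, 0⟩, (0, 0, 0)⟩,
  ⟨⟨0, 0, 0, 0, 0, 0, 0, 0, 0⟩, (0, 0, 0)⟩,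
  ⟨⟨51, -66, -88, -59, -74, 67, -20, 5, -17⟩, (18, 46, 18)⟩,
  ⟨⟨-19, -46, -88, -91, -26, 83, -12, 27, -7⟩, (26, 61, 65)⟩,
  ⟨⟨0, 0, 0, 0, 0, 0, 0, 0, 0⟩, (0, 0, 0)⟩,
  ⟨⟨0, 0, 0, 0, 0, 0, 0, 0, 0⟩, (0, 0, 0)⟩,
  ⟨⟨0, 0, 0, 0, 0, 0, 0, 0, 0⟩, (0, 0, 0)⟩,
  ⟨⟨-19, 46, -88, -91, 26, 83, -12, -27, -7⟩, (18, 4, 45)⟩,
  ⟨⟨0, 0, 0, 0, 0, 0, 0, 0, 0⟩, (0, 0, 0)⟩,
  ⟨⟨0, 0, 0, 0, 0, 0, 0, 0, 0⟩, (0, 0, 0)⟩,
  ⟨⟨0, 0, 0, 0, 0, 0, 0, 0, 0⟩, (0, 0, 0)⟩,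
  ⟨⟨0, 0, 0, 0, 0, 0, 0, 0, 0⟩, (0, 0, 0)⟩,
  ⟨⟨0, 0, 0, 0, 0, 0, 0, 0, 0⟩, (0, 0, 0)⟩,
  ⟨⟨0, 0, 0, 0, 0, 0, 0, 0, 0⟩, (0, 0, 0)⟩,
  ⟨⟨99, -6, -67, 11, 94, 32, -4, 11, -31⟩, (48, 29, 54)⟩,
  ⟨⟨0, 0, 0, 0, 0, 0, 0, 0, 0⟩, (0, 0, 0)⟩,
  ⟨⟨0, 0, 0, 0, 0, 0, 0, 0, 0⟩, (0, 0, 0)⟩,
  ⟨⟨0, 0, 0, 0, 0, 0, 0, 0, 0⟩, (0, 0, 0)⟩,
  ⟨⟨-51, -66, -37, 59, -74, 8, 20, 5, -37⟩, (55, 38, 55)⟩,
  ⟨⟨0, 0, 0, 0, 0, 0, 0, 0, 0⟩, (0, 0, 0)⟩,
  ⟨⟨0, 0, 0, 0, 0, 0, 0, 0, 0⟩, (0, 0, 0)⟩,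
  ⟨⟨-31, -74, -52, -81, 54, 13, 16, 13, -35⟩, (64, 55, 54)⟩,
  ⟨⟨-31, 74, -52, -81, -54, 13, 16, -13, -35⟩, (11, 15, 47)⟩,
  ⟨⟨-39, 66, -53, -89, -46, 52, 8, -19, -31⟩, (58, 65, 50)⟩,
  ⟨⟨0, 0, 0, 0, 0, 0, 0, 0, 0⟩, (0, 0, 0)⟩,
  ⟨⟨79, 14, -107, 49, -74, 28, -12, -21, -17⟩, (57, 3, 21)⟩,
  ⟨⟨0, 0, 0, 0, 0, 0, 0, 0, 0⟩, (0, 0, 0)⟩,
  ⟨⟨0, 0, 0, 0, 0, 0, 0, 0, 0⟩, (0, 0, 0)⟩,
  ⟨⟨31, -74, -83, -81, -54, 68, -16, 13, -19⟩, (61, 33, 67)⟩,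
  ⟨⟨0, 0, 0, 0, 0, 0, 0, 0, 0⟩, (0, 0, 0)⟩,
  ⟨⟨0, 0, 0, 0, 0, 0, 0, 0, 0⟩, (0, 0, 0)⟩,
  ⟨⟨0, 0, 0, 0, 0, 0, 0, 0, 0⟩, (0, 0, 0)⟩,
  ⟨⟨0, 0, 0, 0, 0, 0, 0, 0, 0⟩, (0, 0, 0)⟩]

/-- Unit moves. -/
noncomputable def U : List Mv := [mz,
  mz,
  ⟨⟨1, 0, 0, 0, -1, 0, 0, 0, 1⟩, .nil, (nat_lit 0), (nat_lit 2), (nat_lit 1), (nat_lit 0), (0, 0, 0), [], 2⟩,
  mz,
  ⟨⟨-1, 0, 1, 0, 1, 0, 0, 0, 1⟩, .nil, (nat_lit 6), (nat_lit 0), (nat_lit 0), (nat_lit 1), (0, 0, 0), [], 1⟩,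
  ⟨⟨-1, 0, 1, 0, -1, 0, 0, 0, 1⟩, .nil, (nat_lit 0), (nat_lit 5), (nat_lit 1), (nat_lit 0), (0, 0, 0), [], 2⟩,
  ⟨⟨-1, 0, 1, 0, 1, 0, 0, 0, 1⟩, .nil, (nat_lit 6), (nat_lit 0), (nat_lit 0), (nat_lit 1), (0, 0, 0), [], 1⟩]

theorem v_ty : tyb Dm S.ty1 Clm = true := by decide +kernel

theorem v_ty0 : tyb D0 (S.tys.getD 0 0) Cl0 = true := by decide +kernel

theorem v_ty1 : tyb D1 (S.tys.getD 1 0) Cl1 = true := by decide +kernel

theorem v_msc : mscb S D0 [D1] Dm (nat_lit 10) = true := by decide +kernel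

theorem v_mv0 : mvsn (nat_lit 22379262409) S D0 [D1] Dm (nat_lit 10) 0 D0 = true := by decide +kernel

theorem v_mv1 : mvsn (nat_lit 22379262409) S D0 [D1] Dm (nat_lit 10) 1 D1 = true := by decide +kernel

theorem v_mm : mmsn (nat_lit 22379262409) S D0 [D1] Dm (nat_lit 10) = true := by decide +kernel

theorem v_un : unb S D0 (nat_lit 10) U = true := by decide +kernel

theorem v_ok : okb S.oks [(2, 9, 0), (0, 0, 0), (14, 63, 0), (0, 0, 0)] = true := by decide +kernel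

theorem v_part : ∀ d < D0.p, (nat_lit 10).testBit d = true → part S (zc (D0 :: [D1])) d = true := by
  intro d hd h
  have h1 : ∀ d < 7, (nat_lit 10).testBit d = true → d = 1 ∨ d = 3 := by decide
  rcases h1 d hd h with rfl | rfl
  · exact part_1
  · exact part_3

theorem main (n : ℕ) (ho : Odd n) (hr : ¬ Rep n) (h0 : Split 7 n) (h1 : Split 43 n) (hm : Split 71 n) :
    n ∈ EE := by
  refine concln (W := nat_lit 22379262409) (S := S) (P0 := D0) (Pl := [D1]) (Pm := Dm) (cn := nat_lit 10) ?_ Dm_ok v_ty ?_ ?_ v_msc ?_ v_mm v_un v_part v_ok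
    n ho hr ?_ hm
  · simp only [List.forall_mem_cons]
    exact ⟨D0_ok, D1_ok, fun _ h => absurd h (by simp)⟩
  · exact all2 (φ := fun j P => ∃ L, tyb P (S.tys.getD j 0) L = true) ⟨_, v_ty0⟩ ⟨_, v_ty1⟩
  · exact all2 (φ := fun j P => Nat.ble (S.pks.getD j 0) (Nat.pow P.p P.K) = true) (by decide +kernel) (by decide +kernel)
  · exact all2 (φ := fun i P => mvsn (nat_lit 22379262409) S D0 [D1] Dm (nat_lit 10) i P = true) v_mv0 v_mv1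
  · simp only [List.forall_mem_cons]
    exact ⟨h0, h1, fun _ h => absurd h (by simp)⟩

end Pool.Agent.Work.MP_9954fe_nt.P7_43_71

namespace Pool.Agent.Work.MP_9954fe_nt.P13_17

/-- Dummy move. -/
noncomputable def mz : Mv := ⟨⟨0, 0, 0, 0, 0, 0, 0, 0, 0⟩, .nil, (nat_lit 0), (nat_lit 0), (nat_lit 0), (nat_lit 0), (0, 0, 0), [], 0⟩

/-- Moves. -/
noncomputable def t0_2 : List Mv := [
  ⟨⟨-1, -12, 9, 8, 5, 6, 8, -8, -7⟩, (.cons (nat_lit 50066360) (nat_lit 32755246) (nat_lit 50412148) (nat_lit 1) .nil), (nat_lit 2), (nat_lit 16), (nat_lit 0), (nat_lit 1), (8, 1, 1), [20534562], 8⟩,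
  ⟨⟨9, 4, -16, -8, -5, -6, 8, -8, -7⟩, (.cons (nat_lit 60841393) (nat_lit 47712032) (nat_lit 15961590) (nat_lit 1) .nil), (nat_lit 0), (nat_lit 2), (nat_lit 15), (nat_lit 1), (6, 12, 1), [31232621], 16⟩,
  ⟨⟨9, 4, -16, -8, -5, -6, 8, -8, -7⟩, (.cons (nat_lit 60841393) (nat_lit 47712032) (nat_lit 15961590) (nat_lit 1) .nil), (nat_lit 0), (nat_lit 2), (nat_lit 15), (nat_lit 1), (6, 12, 1), [31232621], 16⟩,
  ⟨⟨-1, -12, 9, -8, -5, -6, 8, -8, -7⟩, (.cons (nat_lit 10149537) (nat_lit 28890884) (nat_lit 5074775) (nat_lit 1) .nil), (nat_lit 16), (nat_lit 8), (nat_lit 16), (nat_lit 1), (8, 12, 1), [7952202], 6⟩,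
  ⟨⟨-1, -12, 9, 8, 5, 6, 8, -8, -7⟩, (.cons (nat_lit 50066360) (nat_lit 32755246) (nat_lit 50412148) (nat_lit 1) .nil), (nat_lit 2), (nat_lit 16), (nat_lit 0), (nat_lit 1), (8, 1, 1), [20534562], 8⟩,
  ⟨⟨9, 4, -16, 8, 5, 6, 8, -8, -7⟩, (.cons (nat_lit 51111317) (nat_lit 26002531) (nat_lit 16320809) (nat_lit 1) .nil), (nat_lit 13), (nat_lit 4), (nat_lit 2), (nat_lit 1), (6, 1, 1), [48031063], 14⟩,
  ⟨⟨9, 4, -16, 8, 5, 6, 8, -8, -7⟩, (.cons (nat_lit 51111317) (nat_lit 26002531) (nat_lit 16320809) (nat_lit 1) .nil), (nat_lit 13), (nat_lit 4), (nat_lit 2), (nat_lit 1), (6, 1, 1), [48031063], 14⟩,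
  ⟨⟨-1, -12, 9, -8, -5, -6, 8, -8, -7⟩, (.cons (nat_lit 10149537) (nat_lit 28890884) (nat_lit 5074775) (nat_lit 1) .nil), (nat_lit 16), (nat_lit 8), (nat_lit 16), (nat_lit 1), (8, 12, 1), [7952202], 6⟩,
  ⟨⟨-1, -12, 9, -8, -5, -6, 8, -8, -7⟩, (.cons (nat_lit 10149537) (nat_lit 28890884) (nat_lit 5074775) (nat_lit 1) .nil), (nat_lit 16), (nat_lit 8), (nat_lit 16), (nat_lit 1), (8, 12, 1), [7952202], 6⟩,
  ⟨⟨-1, -12, 9, -8, -5, -6, 8, -8, -7⟩, (.cons (nat_lit 10149537) (nat_lit 28890884) (nat_lit 5074775) (nat_lit 1) .nil), (nat_lit 16), (nat_lit 8), (nat_lit 16), (nat_lit 1), (8, 12, 1), [7952202], 6⟩,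
  ⟨⟨-1, -12, 9, 8, 5, 6, 8, -8, -7⟩, (.cons (nat_lit 50066360) (nat_lit 32755246) (nat_lit 50412148) (nat_lit 1) .nil), (nat_lit 2), (nat_lit 16), (nat_lit 0), (nat_lit 1), (8, 1, 1), [20534562], 8⟩,
  ⟨⟨-1, -12, 9, -8, -5, -6, 8, -8, -7⟩, (.cons (nat_lit 10149537) (nat_lit 28890884) (nat_lit 5074775) (nat_lit 1) .nil), (nat_lit 16), (nat_lit 8), (nat_lit 16), (nat_lit 1), (8, 12, 1), [7952202], 6⟩,
  ⟨⟨-1, -12, 9, -8, -5, -6, 8, -8, -7⟩, (.cons (nat_lit 10149537) (nat_lit 28890884) (nat_lit 5074775) (nat_lit 1) .nil), (nat_lit 16), (nat_lit 8), (nat_lit 16), (nat_lit 1), (8, 12, 1), [7952202], 6⟩]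

/-- Moves. -/
noncomputable def t0_4 : List Mv := [
  ⟨⟨5, 12, -9, -12, 5, 6, 0, 0, -13⟩, (.cons (nat_lit 21902237) (nat_lit 41718939) (nat_lit 17902916) (nat_lit 1) .nil), (nat_lit 1), (nat_lit 9), (nat_lit 4), (nat_lit 1), (12, 5, 0), [60654247], 13⟩,
  ⟨⟨-5, -12, -4, -12, 5, 6, 0, 0, -13⟩, (.cons (nat_lit 29234189) (nat_lit 30170735) (nat_lit 38682809) (nat_lit 1) .nil), (nat_lit 16), (nat_lit 14), (nat_lit 7), (nat_lit 1), (1, 5, 0), [32834462], 5⟩,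
  ⟨⟨-5, -12, -4, -12, 5, 6, 0, 0, -13⟩, (.cons (nat_lit 29234189) (nat_lit 30170735) (nat_lit 38682809) (nat_lit 1) .nil), (nat_lit 16), (nat_lit 14), (nat_lit 7), (nat_lit 1), (1, 5, 0), [32834462], 5⟩,
  ⟨⟨-5, -12, -4, 12, -5, -6, 0, 0, -13⟩, (.cons (nat_lit 37621819) (nat_lit 9382784) (nat_lit 16123045) (nat_lit 1) .nil), (nat_lit 1), (nat_lit 13), (nat_lit 2), (nat_lit 1), (1, 8, 0), [54616052], 2⟩,
  ⟨⟨5, 12, -9, 12, -5, -6, 0, 0, -13⟩, (.cons (nat_lit 40886642) (nat_lit 14345148) (nat_lit 25908793) (nat_lit 1) .nil), (nat_lit 16), (nat_lit 12), (nat_lit 6), (nat_lit 1), (12, 8, 0), [60848910], 3⟩,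
  ⟨⟨5, 12, -9, 12, -5, -6, 0, 0, -13⟩, (.cons (nat_lit 40886642) (nat_lit 14345148) (nat_lit 25908793) (nat_lit 1) .nil), (nat_lit 16), (nat_lit 12), (nat_lit 6), (nat_lit 1), (12, 8, 0), [60848910], 3⟩,
  ⟨⟨5, 12, -9, -12, 5, 6, 0, 0, -13⟩, (.cons (nat_lit 21902237) (nat_lit 41718939) (nat_lit 17902916) (nat_lit 1) .nil), (nat_lit 1), (nat_lit 9), (nat_lit 4), (nat_lit 1), (12, 5, 0), [60654247], 13⟩,
  ⟨⟨5, 12, -9, 12, -5, -6, 0, 0, -13⟩, (.cons (nat_lit 40886642) (nat_lit 14345148) (nat_lit 25908793) (nat_lit 1) .nil), (nat_lit 16), (nat_lit 12), (nat_lit 6), (nat_lit 1), (12, 8, 0), [60848910], 3⟩,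
  ⟨⟨5, 12, -9, 12, -5, -6, 0, 0, -13⟩, (.cons (nat_lit 40886642) (nat_lit 14345148) (nat_lit 25908793) (nat_lit 1) .nil), (nat_lit 16), (nat_lit 12), (nat_lit 6), (nat_lit 1), (12, 8, 0), [60848910], 3⟩,
  ⟨⟨-5, -12, -4, 12, -5, -6, 0, 0, -13⟩, (.cons (nat_lit 37621819) (nat_lit 9382784) (nat_lit 16123045) (nat_lit 1) .nil), (nat_lit 1), (nat_lit 13), (nat_lit 2), (nat_lit 1), (1, 8, 0), [54616052], 2⟩,
  ⟨⟨5, 12, -9, 12, -5, -6, 0, 0, -13⟩, (.cons (nat_lit 40886642) (nat_lit 14345148) (nat_lit 25908793) (nat_lit 1) .nil), (nat_lit 16), (nat_lit 12), (nat_lit 6), (nat_lit 1), (12, 8, 0), [60848910], 3⟩,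
  ⟨⟨5, 12, -9, -12, 5, 6, 0, 0, -13⟩, (.cons (nat_lit 21902237) (nat_lit 41718939) (nat_lit 17902916) (nat_lit 1) .nil), (nat_lit 1), (nat_lit 9), (nat_lit 4), (nat_lit 1), (12, 5, 0), [60654247], 13⟩,
  ⟨⟨5, 12, -9, 12, -5, -6, 0, 0, -13⟩, (.cons (nat_lit 40886642) (nat_lit 14345148) (nat_lit 25908793) (nat_lit 1) .nil), (nat_lit 16), (nat_lit 12), (nat_lit 6), (nat_lit 1), (12, 8, 0), [60848910], 3⟩]

/-- Moves. -/
noncomputable def t0_5 : List Mv := [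
  ⟨⟨9, 8, -13, 10, -7, 0, 2, -4, -13⟩, (.cons (nat_lit 60237520) (nat_lit 5670773) (nat_lit 15933922) (nat_lit 1) .nil), (nat_lit 5), (nat_lit 16), (nat_lit 8), (nat_lit 1), (2, 8, 12), [19061746], 16⟩,
  ⟨⟨9, 8, -13, -10, 7, 0, 2, -4, -13⟩, (.cons (nat_lit 57272412) (nat_lit 37041091) (nat_lit 1218083) (nat_lit 1) .nil), (nat_lit 15), (nat_lit 8), (nat_lit 10), (nat_lit 1), (2, 5, 12), [58569876], 12⟩,
  ⟨⟨9, 8, -13, -10, 7, 0, 2, -4, -13⟩, (.cons (nat_lit 57272412) (nat_lit 37041091) (nat_lit 1218083) (nat_lit 1) .nil), (nat_lit 15), (nat_lit 8), (nat_lit 10), (nat_lit 1), (2, 5, 12), [58569876], 12⟩,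
  ⟨⟨9, 8, -13, -10, 7, 0, 2, -4, -13⟩, (.cons (nat_lit 57272412) (nat_lit 37041091) (nat_lit 1218083) (nat_lit 1) .nil), (nat_lit 15), (nat_lit 8), (nat_lit 10), (nat_lit 1), (2, 5, 12), [58569876], 12⟩,
  ⟨⟨-7, -12, 0, 10, -7, 0, 2, -4, -13⟩, (.cons (nat_lit 27423620) (nat_lit 48451633) (nat_lit 48301038) (nat_lit 1) .nil), (nat_lit 6), (nat_lit 4), (nat_lit 4), (nat_lit 1), (10, 8, 12), [29881175], 11⟩,
  ⟨⟨9, 8, -13, 10, -7, 0, 2, -4, -13⟩, (.cons (nat_lit 60237520) (nat_lit 5670773) (nat_lit 15933922) (nat_lit 1) .nil), (nat_lit 5), (nat_lit 16), (nat_lit 8), (nat_lit 1), (2, 8, 12), [19061746], 16⟩,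
  ⟨⟨9, 8, -13, 10, -7, 0, 2, -4, -13⟩, (.cons (nat_lit 60237520) (nat_lit 5670773) (nat_lit 15933922) (nat_lit 1) .nil), (nat_lit 5), (nat_lit 16), (nat_lit 8), (nat_lit 1), (2, 8, 12), [19061746], 16⟩,
  ⟨⟨9, 8, -13, -10, 7, 0, 2, -4, -13⟩, (.cons (nat_lit 57272412) (nat_lit 37041091) (nat_lit 1218083) (nat_lit 1) .nil), (nat_lit 15), (nat_lit 8), (nat_lit 10), (nat_lit 1), (2, 5, 12), [58569876], 12⟩,
  ⟨⟨-7, -12, 0, 10, -7, 0, 2, -4, -13⟩, (.cons (nat_lit 27423620) (nat_lit 48451633) (nat_lit 48301038) (nat_lit 1) .nil), (nat_lit 6), (nat_lit 4), (nat_lit 4), (nat_lit 1), (10, 8, 12), [29881175], 11⟩,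
  ⟨⟨-7, -12, 0, -10, 7, 0, 2, -4, -13⟩, (.cons (nat_lit 57771444) (nat_lit 22380310) (nat_lit 61753105) (nat_lit 1) .nil), (nat_lit 16), (nat_lit 2), (nat_lit 12), (nat_lit 1), (10, 5, 12), [18170137], 15⟩,
  ⟨⟨9, 8, -13, -10, 7, 0, 2, -4, -13⟩, (.cons (nat_lit 57272412) (nat_lit 37041091) (nat_lit 1218083) (nat_lit 1) .nil), (nat_lit 15), (nat_lit 8), (nat_lit 10), (nat_lit 1), (2, 5, 12), [58569876], 12⟩,
  ⟨⟨9, 8, -13, -10, 7, 0, 2, -4, -13⟩, (.cons (nat_lit 57272412) (nat_lit 37041091) (nat_lit 1218083) (nat_lit 1) .nil), (nat_lit 15), (nat_lit 8), (nat_lit 10), (nat_lit 1), (2, 5, 12), [58569876], 12⟩,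
  ⟨⟨9, 8, -13, -10, 7, 0, 2, -4, -13⟩, (.cons (nat_lit 57272412) (nat_lit 37041091) (nat_lit 1218083) (nat_lit 1) .nil), (nat_lit 15), (nat_lit 8), (nat_lit 10), (nat_lit 1), (2, 5, 12), [58569876], 12⟩]

/-- Moves. -/
noncomputable def t4_2 : List Mv := [
  mz,
  mz,
  mz,
  ⟨⟨-3, 8, -17, -10, -13, 0, 10, -4, -17⟩, (.cons (nat_lit 2158745) (nat_lit 60258453) (nat_lit 10181974) (nat_lit 1) .nil), (nat_lit 6), (nat_lit 0), (nat_lit 0), (nat_lit 0), (7, 12, 5), [30045644], 0⟩,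
  mz,
  ⟨⟨-13, 12, 13, 10, 13, -10, -10, 4, -7⟩, (.cons (nat_lit 35123919) (nat_lit 11970657) (nat_lit 1) (nat_lit 28983227) .nil), (nat_lit 3), (nat_lit 0), (nat_lit 0), (nat_lit 0), (8, 3, 14), [27102113], 0⟩,
  ⟨⟨-13, -12, 13, 10, -13, -10, -10, -4, -7⟩, (.cons (nat_lit 39716219) (nat_lit 60205377) (nat_lit 22661513) (nat_lit 1) .nil), (nat_lit 3), (nat_lit 0), (nat_lit 0), (nat_lit 0), (3, 16, 1), [33850693], 0⟩,
  ⟨⟨-15, 8, -1, -8, -15, 4, 0, 0, -17⟩, (.cons (nat_lit 58321641) (nat_lit 41148154) (nat_lit 58516426) (nat_lit 1) .nil), (nat_lit 10), (nat_lit 0), (nat_lit 0), (nat_lit 0), (10, 11, 0), [29645979], 0⟩,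
  mz,
  ⟨⟨9, -16, -1, 10, 3, -20, -6, -12, -5⟩, (.cons (nat_lit 40538533) (nat_lit 3217831) (nat_lit 23667147) (nat_lit 1) .nil), (nat_lit 14), (nat_lit 0), (nat_lit 0), (nat_lit 0), (2, 6, 10), [14837585], 0⟩,
  ⟨⟨15, 8, -16, 8, -15, -4, 0, 0, -17⟩, (.cons (nat_lit 62748516) (nat_lit 18808861) (nat_lit 50465946) (nat_lit 1) .nil), (nat_lit 10), (nat_lit 0), (nat_lit 0), (nat_lit 0), (16, 4, 0), [61317131], 0⟩,
  ⟨⟨13, 12, 0, -10, 13, 0, 10, 4, -17⟩, (.cons (nat_lit 32599023) (nat_lit 43244353) (nat_lit 22548928) (nat_lit 1) .nil), (nat_lit 3), (nat_lit 0), (nat_lit 0), (nat_lit 0), (3, 16, 1), [52695690], 0⟩,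
  ⟨⟨9, 16, -1, -10, 3, 20, -6, 12, -5⟩, (.cons (nat_lit 32341799) (nat_lit 38382106) (nat_lit 52763345) (nat_lit 1) .nil), (nat_lit 13), (nat_lit 0), (nat_lit 0), (nat_lit 0), (3, 8, 15), [10823380], 0⟩,
  ⟨⟨-9, 16, 8, -10, -3, -10, 6, 12, -11⟩, (.cons (nat_lit 50792113) (nat_lit 40621825) (nat_lit 16739889) (nat_lit 1) .nil), (nat_lit 14), (nat_lit 0), (nat_lit 0), (nat_lit 0), (13, 5, 14), [25649901], 0⟩,
  ⟨⟨-9, -16, 8, 10, -3, 10, 6, -12, -11⟩, (.cons (nat_lit 4697672) (nat_lit 19074252) (nat_lit 4367053) (nat_lit 1) .nil), (nat_lit 13), (nat_lit 0), (nat_lit 0), (nat_lit 0), (12, 15, 9), [56962447], 0⟩]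

/-- Moves. -/
noncomputable def t4_4 : List Mv := [
  mz,
  mz,
  mz,
  ⟨⟨-3, 8, -17, 10, 13, 0, 10, -4, -17⟩, (.cons (nat_lit 13020709) (nat_lit 23425386) (nat_lit 39022075) (nat_lit 1) .nil), (nat_lit 5), (nat_lit 0), (nat_lit 0), (nat_lit 0), (7, 5, 5), [51590941], 0⟩,
  mz,
  ⟨⟨3, -8, -20, -10, -13, 10, -10, 4, -7⟩, (.cons (nat_lit 62748516) (nat_lit 24902163) (nat_lit 35052143) (nat_lit 1) .nil), (nat_lit 5), (nat_lit 0), (nat_lit 0), (nat_lit 0), (6, 14, 14), [4241584], 0⟩,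
  ⟨⟨-13, -12, 13, 10, -13, -10, -10, -4, -7⟩, (.cons (nat_lit 39716219) (nat_lit 60205377) (nat_lit 22661513) (nat_lit 1) .nil), (nat_lit 3), (nat_lit 0), (nat_lit 0), (nat_lit 0), (3, 16, 1), [33850693], 0⟩,
  ⟨⟨15, -8, -16, 8, 15, -4, 0, 0, -17⟩, (.cons (nat_lit 26034555) (nat_lit 12345777) (nat_lit 12024303) (nat_lit 1) .nil), (nat_lit 10), (nat_lit 0), (nat_lit 0), (nat_lit 0), (7, 6, 0), [54264792], 0⟩,
  mz,
  ⟨⟨-15, 4, -4, -10, -3, 20, -6, -12, -5⟩, (.cons (nat_lit 17553437) (nat_lit 59388557) (nat_lit 38509635) (nat_lit 1) .nil), (nat_lit 12), (nat_lit 0), (nat_lit 0), (nat_lit 0), (8, 11, 10), [31491079], 0⟩,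
  ⟨⟨15, 8, -16, -8, 15, 4, 0, 0, -17⟩, (.cons (nat_lit 36228258) (nat_lit 38437072) (nat_lit 42951579) (nat_lit 1) .nil), (nat_lit 7), (nat_lit 0), (nat_lit 0), (nat_lit 0), (16, 13, 0), [15453890], 0⟩,
  ⟨⟨13, 12, 0, -10, 13, 0, 10, 4, -17⟩, (.cons (nat_lit 32599023) (nat_lit 43244353) (nat_lit 22548928) (nat_lit 1) .nil), (nat_lit 3), (nat_lit 0), (nat_lit 0), (nat_lit 0), (3, 16, 1), [52695690], 0⟩,
  ⟨⟨9, 16, -1, 10, -3, -20, -6, 12, -5⟩, (.cons (nat_lit 8043695) (nat_lit 49519006) (nat_lit 4745549) (nat_lit 1) .nil), (nat_lit 14), (nat_lit 0), (nat_lit 0), (nat_lit 0), (3, 9, 15), [54004501], 0⟩,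
  ⟨⟨15, -4, -19, 10, 3, 10, 6, 12, -11⟩, (.cons (nat_lit 55509522) (nat_lit 12836667) (nat_lit 41987874) (nat_lit 1) .nil), (nat_lit 12), (nat_lit 0), (nat_lit 0), (nat_lit 0), (1, 12, 14), [19889678], 0⟩,
  ⟨⟨-9, -16, 8, -10, 3, -10, 6, -12, -11⟩, (.cons (nat_lit 62748516) (nat_lit 5926842) (nat_lit 60922228) (nat_lit 1) .nil), (nat_lit 14), (nat_lit 0), (nat_lit 0), (nat_lit 0), (12, 2, 9), [59087712], 0⟩]

/-- Moves. -/
noncomputable def t4_5 : List Mv := [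
  mz,
  mz,
  mz,
  ⟨⟨13, -12, 0, 10, 13, 0, 10, -4, -17⟩, (.cons (nat_lit 48092051) (nat_lit 47402136) (nat_lit 5070345) (nat_lit 1) .nil), (nat_lit 11), (nat_lit 0), (nat_lit 0), (nat_lit 0), (15, 5, 5), [60539936], 0⟩,
  mz,
  ⟨⟨-13, 12, 13, 10, 13, -10, -10, 4, -7⟩, (.cons (nat_lit 35123919) (nat_lit 11970657) (nat_lit 1) (nat_lit 28983227) .nil), (nat_lit 3), (nat_lit 0), (nat_lit 0), (nat_lit 0), (8, 3, 14), [27102113], 0⟩,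
  ⟨⟨3, 8, -20, 10, -13, -10, -10, -4, -7⟩, (.cons (nat_lit 62748516) (nat_lit 25397392) (nat_lit 36536906) (nat_lit 1) .nil), (nat_lit 6), (nat_lit 0), (nat_lit 0), (nat_lit 0), (15, 16, 1), [30093456], 0⟩,
  ⟨⟨15, -8, -16, 8, 15, -4, 0, 0, -17⟩, (.cons (nat_lit 26034555) (nat_lit 12345777) (nat_lit 12024303) (nat_lit 1) .nil), (nat_lit 10), (nat_lit 0), (nat_lit 0), (nat_lit 0), (7, 6, 0), [54264792], 0⟩,
  mz,
  ⟨⟨9, -16, -1, 10, 3, -20, -6, -12, -5⟩, (.cons (nat_lit 40538533) (nat_lit 3217831) (nat_lit 23667147) (nat_lit 1) .nil), (nat_lit 14), (nat_lit 0), (nat_lit 0), (nat_lit 0), (2, 6, 10), [14837585], 0⟩,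
  ⟨⟨-15, -8, -1, 8, -15, -4, 0, 0, -17⟩, (.cons (nat_lit 15725542) (nat_lit 52764925) (nat_lit 31907401) (nat_lit 1) .nil), (nat_lit 7), (nat_lit 0), (nat_lit 0), (nat_lit 0), (1, 4, 0), [29008329], 0⟩,
  ⟨⟨13, 12, 0, -10, 13, 0, 10, 4, -17⟩, (.cons (nat_lit 32599023) (nat_lit 43244353) (nat_lit 22548928) (nat_lit 1) .nil), (nat_lit 3), (nat_lit 0), (nat_lit 0), (nat_lit 0), (3, 16, 1), [52695690], 0⟩,
  ⟨⟨9, 16, -1, 10, -3, -20, -6, 12, -5⟩, (.cons (nat_lit 8043695) (nat_lit 49519006) (nat_lit 4745549) (nat_lit 1) .nil), (nat_lit 14), (nat_lit 0), (nat_lit 0), (nat_lit 0), (3, 9, 15), [54004501], 0⟩,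
  ⟨⟨-9, 16, 8, -10, -3, -10, 6, 12, -11⟩, (.cons (nat_lit 50792113) (nat_lit 40621825) (nat_lit 16739889) (nat_lit 1) .nil), (nat_lit 14), (nat_lit 0), (nat_lit 0), (nat_lit 0), (13, 5, 14), [25649901], 0⟩,
  ⟨⟨15, 4, -19, 10, -3, 10, 6, -12, -11⟩, (.cons (nat_lit 15698544) (nat_lit 22941656) (nat_lit 29776111) (nat_lit 1) .nil), (nat_lit 12), (nat_lit 0), (nat_lit 0), (nat_lit 0), (14, 15, 9), [11844016], 0⟩]

/-- All the moves. -/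
noncomputable def tabs : List (List (List Mv)) := [[[], [], t0_2, [], t0_4, t0_5], [], [], [], [[], [], t4_2, [], t4_4, t4_5]]

/-- Subtrie. -/
noncomputable def T2 : Tr := (.ev (nat_lit 20) (nat_lit 11776) (.nd (nat_lit 32) (.br (nat_lit 5) (.br (nat_lit
 2) (.br (nat_lit 1) (.ch (nat_lit 0) (.ev (nat_lit 48) (nat_lit 4160) (.nd (nat_lit 352) (.br (nat_lit 6) (.br
 (nat_lit 4) (.br (nat_lit 2) (.ch (nat_lit 0) (.ev (nat_lit 368) (nat_lit 16512) (.nd (nat_lit 1296) (.br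
 (nat_lit 6) (.br (nat_lit 1) (.ch (nat_lit 0) (.nd (nat_lit 5152) (.br (nat_lit 4) (.ch (nat_lit 3) (.fin
 (nat_lit 576423918567900093))) (.br (nat_lit 8) (.ch (nat_lit 4) (.ev (nat_lit 5168) (nat_lit 32) (.ev
 (nat_lit 5181) (nat_lit 8) .dd))) (.ch (nat_lit 8) (.ev (nat_lit 5316) (nat_lit 8) (.ev (nat_lit 5325)
 (nat_lit 32) .dd))))))) (.br (nat_lit 4) (.ch (nat_lit 1) (.ev (nat_lit 1748) (nat_lit 8) (.ev (nat_lit 1757)
 (nat_lit 32) .dd))) (.ch (nat_lit 4) (.ev (nat_lit 1312) (nat_lit 32) (.ev (nat_lit 1325) (nat_lit 8) .dd)))))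
 (.br (nat_lit 8) (.br (nat_lit 7) (.ch (nat_lit 6) (.ev (nat_lit 1716) (nat_lit 32) (.ev (nat_lit 1725)
 (nat_lit 8) .dd))) (.ch (nat_lit 7) (.ev (nat_lit 1312) (nat_lit 8) (.ev (nat_lit 1325) (nat_lit 32) .dd))))
 (.br (nat_lit 10) (.ch (nat_lit 8) (.nd (nat_lit 5328) (.br (nat_lit 8) (.ch (nat_lit 1) (.fin (nat_lit
 576461302059713074))) (.br (nat_lit 9) (.ch (nat_lit 8) (.ev (nat_lit 5344) (nat_lit 8) (.ev (nat_lit 5357)
 (nat_lit 32) .dd))) (.ch (nat_lit 9) (.ev (nat_lit 5408) (nat_lit 32) (.ev (nat_lit 5421) (nat_lit 8)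
 .dd))))))) (.ch (nat_lit 10) (.ev (nat_lit 1312) (nat_lit 40) .dd)))))))) (.ch (nat_lit 2) (.ev (nat_lit 368)
 (nat_lit 8) (.ev (nat_lit 484) (nat_lit 128) (.nd (nat_lit 1440) (.br (nat_lit 8) (.ch (nat_lit 5) (.ev
 (nat_lit 1476) (nat_lit 16384) (.ev (nat_lit 1485) (nat_lit 32) .dd))) (.br (nat_lit 12) (.ch (nat_lit 8) (.ev
 (nat_lit 1716) (nat_lit 32) (.ev (nat_lit 1725) (nat_lit 16384) .dd))) (.ch (nat_lit 12) (.ev (nat_lit 1956)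
 (nat_lit 32) (.ev (nat_lit 1965) (nat_lit 16384) .dd)))))))))) (.br (nat_lit 5) (.ch (nat_lit 4) (.nd (nat_lit
 896) (.br (nat_lit 5) (.br (nat_lit 3) (.br (nat_lit 2) (.ch (nat_lit 1) (.ev (nat_lit 912) (nat_lit 136)
 (.fin (nat_lit 576487690282156678)))) (.ch (nat_lit 2) (.nd (nat_lit 3088) (.br (nat_lit 8) (.br (nat_lit 2)
 (.ch (nat_lit 1) (.ev (nat_lit 3104) (nat_lit 16512) (.ev (nat_lit 3924) (nat_lit 32) (.ev (nat_lit 3933)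
 (nat_lit 8) .dd)))) (.ch (nat_lit 2) (.ev (nat_lit 3104) (nat_lit 40) (.ev (nat_lit 3876) (nat_lit 128) (.ev
 (nat_lit 3885) (nat_lit 16384) .dd))))) (.br (nat_lit 10) (.ch (nat_lit 8) (.ev (nat_lit 3104) (nat_lit 128)
 (.ev (nat_lit 3248) (nat_lit 16384) (.ev (nat_lit 3924) (nat_lit 32) (.ev (nat_lit 3933) (nat_lit 8) .dd)))))
 (.ch (nat_lit 10) (.ev (nat_lit 3104) (nat_lit 16384) (.ev (nat_lit 3924) (nat_lit 32) (.ev (nat_lit 4068)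
 (nat_lit 8) (.ev (nat_lit 4077) (nat_lit 128) .dd)))))))))) (.br (nat_lit 4) (.ch (nat_lit 3) (.ev (nat_lit
 912) (nat_lit 40) (.ev (nat_lit 932) (nat_lit 128) (.ev (nat_lit 941) (nat_lit 16384) .dd)))) (.ch (nat_lit 4)
 (.ev (nat_lit 912) (nat_lit 40) (.nd (nat_lit 2896) (.br (nat_lit 4) (.ch (nat_lit 1) (.fin (nat_lit
 576903305724642097))) (.ch (nat_lit 4) (.ev (nat_lit 3828) (nat_lit 16384) (.ev (nat_lit 3837) (nat_lit 128)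
 .dd))))))))) (.br (nat_lit 8) (.br (nat_lit 7) (.ch (nat_lit 5) (.ev (nat_lit 912) (nat_lit 16512) (.ev
 (nat_lit 1076) (nat_lit 8) (.ev (nat_lit 1085) (nat_lit 32) .dd)))) (.ch (nat_lit 7) (.ev (nat_lit 912)
 (nat_lit 16416) (.ev (nat_lit 3764) (nat_lit 8) (.ev (nat_lit 3773) (nat_lit 128) .dd))))) (.br (nat_lit 9)
 (.ch (nat_lit 8) (.ev (nat_lit 912) (nat_lit 16384) (.nd (nat_lit 2896) (.br (nat_lit 5) (.br (nat_lit 1) (.ch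
 (nat_lit 0) (.ev (nat_lit 2912) (nat_lit 32) (.ev (nat_lit 4276) (nat_lit 8) (.ev (nat_lit 4285) (nat_lit 128)
 .dd)))) (.ch (nat_lit 1) (.ev (nat_lit 2912) (nat_lit 32) (.fin (nat_lit 576399729398071786))))) (.br (nat_lit
 7) (.ch (nat_lit 5) (.ev (nat_lit 2932) (nat_lit 8) (.ev (nat_lit 2980) (nat_lit 128) (.ev (nat_lit 2989)
 (nat_lit 32) .dd)))) (.br (nat_lit 9) (.ch (nat_lit 7) (.ev (nat_lit 2912) (nat_lit 128) (.ev (nat_lit 3764)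
 (nat_lit 32) (.ev (nat_lit 3773) (nat_lit 8) .dd)))) (.ch (nat_lit 9) (.ev (nat_lit 2912) (nat_lit 8) (.ev
 (nat_lit 2932) (nat_lit 128) (.ev (nat_lit 2941) (nat_lit 32) .dd)))))))))) (.br (nat_lit 11) (.ch (nat_lit 9)
 (.ev (nat_lit 912) (nat_lit 16416) (.nd (nat_lit 3088) (.br (nat_lit 11) (.br (nat_lit 6) (.ch (nat_lit 3)
 (.nd (nat_lit 6784) (.br (nat_lit 10) (.ch (nat_lit 7) (.fin (nat_lit 577490446201603498))) (.ch (nat_lit 10)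
 (.ev (nat_lit 6868) (nat_lit 128) (.ev (nat_lit 6877) (nat_lit 8) .dd)))))) (.ch (nat_lit 6) (.ev (nat_lit
 3124) (nat_lit 128) (.ev (nat_lit 3133) (nat_lit 8) .dd)))) (.br (nat_lit 12) (.ch (nat_lit 11) (.ev (nat_lit
 3124) (nat_lit 128) (.ev (nat_lit 3133) (nat_lit 8) .dd))) (.ch (nat_lit 12) (.ev (nat_lit 3104) (nat_lit 128)
 (.ev (nat_lit 3117) (nat_lit 8) .dd)))))))) (.ch (nat_lit 11) (.ev (nat_lit 912) (nat_lit 136) (.ev (nat_lit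
 1476) (nat_lit 32) (.ev (nat_lit 1485) (nat_lit 16384) .dd)))))))))) (.ch (nat_lit 5) (.ev (nat_lit 368)
 (nat_lit 16424) (.ev (nat_lit 381) (nat_lit 128) .dd))))) (.br (nat_lit 8) (.br (nat_lit 7) (.ch (nat_lit 6)
 (.ev (nat_lit 368) (nat_lit 168) (.ev (nat_lit 381) (nat_lit 16384) .dd))) (.ch (nat_lit 7) (.ev (nat_lit 368)
 (nat_lit 16512) (.nd (nat_lit 1216) (.br (nat_lit 6) (.br (nat_lit 2) (.ch (nat_lit 1) (.ev (nat_lit 1332)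
 (nat_lit 32) (.ev (nat_lit 1341) (nat_lit 8) .dd))) (.br (nat_lit 3) (.ch (nat_lit 2) (.nd (nat_lit 4176) (.br
 (nat_lit 10) (.ch (nat_lit 4) (.ev (nat_lit 4228) (nat_lit 32) (.ev (nat_lit 4237) (nat_lit 8) .dd))) (.ch
 (nat_lit 10) (.fin (nat_lit 576311768809685218)))))) (.ch (nat_lit 3) (.ev (nat_lit 1232) (nat_lit 32) (.ev
 (nat_lit 1245) (nat_lit 8) .dd))))) (.br (nat_lit 11) (.ch (nat_lit 6) (.nd (nat_lit 4176) (.br (nat_lit 6)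
 (.ch (nat_lit 0) (.ev (nat_lit 4324) (nat_lit 32) (.ev (nat_lit 4333) (nat_lit 8) .dd))) (.ch (nat_lit 6) (.ev
 (nat_lit 4692) (nat_lit 8) (.ev (nat_lit 4701) (nat_lit 32) .dd)))))) (.br (nat_lit 12) (.ch (nat_lit 11) (.ev
 (nat_lit 1232) (nat_lit 8) (.ev (nat_lit 1245) (nat_lit 32) .dd))) (.ch (nat_lit 12) (.ev (nat_lit 4340)
 (nat_lit 8) (.ev (nat_lit 4349) (nat_lit 32) .dd)))))))))) (.br (nat_lit 10) (.ch (nat_lit 8) (.nd (nat_lit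
 752) (.br (nat_lit 7) (.br (nat_lit 4) (.br (nat_lit 3) (.ch (nat_lit 1) (.ev (nat_lit 768) (nat_lit 40) (.fin
 (nat_lit 576716388730093943)))) (.ch (nat_lit 3) (.ev (nat_lit 768) (nat_lit 16512) (.nd (nat_lit 2240) (.br
 (nat_lit 10) (.br (nat_lit 6) (.ch (nat_lit 3) (.ev (nat_lit 4708) (nat_lit 8) (.ev (nat_lit 4717) (nat_lit
 32) .dd))) (.ch (nat_lit 6) (.ev (nat_lit 2256) (nat_lit 8) (.ev (nat_lit 2269) (nat_lit 32) .dd)))) (.br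
 (nat_lit 11) (.ch (nat_lit 10) (.ev (nat_lit 2256) (nat_lit 32) (.ev (nat_lit 2269) (nat_lit 8) .dd))) (.ch
 (nat_lit 11) (.ev (nat_lit 3412) (nat_lit 32) (.ev (nat_lit 3421) (nat_lit 8) .dd))))))))) (.br (nat_lit 5)
 (.ch (nat_lit 4) (.ev (nat_lit 768) (nat_lit 16384) (.nd (nat_lit 2144) (.br (nat_lit 8) (.br (nat_lit 4) (.ch
 (nat_lit 3) (.ev (nat_lit 2160) (nat_lit 128) (.ev (nat_lit 3204) (nat_lit 8) (.ev (nat_lit 3213) (nat_lit 32)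
 .dd)))) (.ch (nat_lit 4) (.ev (nat_lit 2160) (nat_lit 128) (.ev (nat_lit 2452) (nat_lit 32) (.ev (nat_lit
 2461) (nat_lit 8) .dd))))) (.br (nat_lit 10) (.ch (nat_lit 8) (.ev (nat_lit 2160) (nat_lit 8) (.fin (nat_lit
 576474496176177826)))) (.br (nat_lit 12) (.ch (nat_lit 10) (.ev (nat_lit 2160) (nat_lit 40) (.ev (nat_lit
 2173) (nat_lit 128) .dd))) (.ch (nat_lit 12) (.ev (nat_lit 2580) (nat_lit 128) (.ev (nat_lit 3204) (nat_lit 8)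
 (.ev (nat_lit 3213) (nat_lit 32) .dd)))))))))) (.ch (nat_lit 5) (.ev (nat_lit 768) (nat_lit 16512) (.nd
 (nat_lit 2144) (.br (nat_lit 9) (.ch (nat_lit 5) (.ev (nat_lit 2160) (nat_lit 32) (.ev (nat_lit 2173) (nat_lit
 8) .dd))) (.br (nat_lit 12) (.ch (nat_lit 9) (.ev (nat_lit 3876) (nat_lit 32) (.ev (nat_lit 3885) (nat_lit 8)
 .dd))) (.ch (nat_lit 12) (.ev (nat_lit 2160) (nat_lit 8) (.ev (nat_lit 2173) (nat_lit 32) .dd)))))))))) (.br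
 (nat_lit 9) (.br (nat_lit 8) (.ch (nat_lit 7) (.ev (nat_lit 768) (nat_lit 16416) (.ev (nat_lit 2020) (nat_lit
 128) (.ev (nat_lit 2029) (nat_lit 8) .dd)))) (.ch (nat_lit 8) (.ev (nat_lit 768) (nat_lit 136) (.nd (nat_lit
 2240) (.br (nat_lit 9) (.ch (nat_lit 6) (.fin (nat_lit 576460202552279623))) (.ch (nat_lit 9) (.ev (nat_lit
 5764) (nat_lit 32) (.ev (nat_lit 5773) (nat_lit 16384) .dd)))))))) (.br (nat_lit 10) (.ch (nat_lit 9) (.ev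
 (nat_lit 768) (nat_lit 136) (.fin (nat_lit 576346952875589763)))) (.br (nat_lit 11) (.ch (nat_lit 10) (.ev
 (nat_lit 768) (nat_lit 8) (.ev (nat_lit 1732) (nat_lit 32) (.nd (nat_lit 3088) (.br (nat_lit 11) (.br (nat_lit
 5) (.ch (nat_lit 3) (.ev (nat_lit 3104) (nat_lit 16384) (.ev (nat_lit 3117) (nat_lit 128) .dd))) (.ch (nat_lit
 5) (.ev (nat_lit 3184) (nat_lit 16384) (.ev (nat_lit 3197) (nat_lit 128) .dd)))) (.br (nat_lit 12) (.ch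
 (nat_lit 11) (.ev (nat_lit 3104) (nat_lit 128) (.ev (nat_lit 3117) (nat_lit 16384) .dd))) (.ch (nat_lit 12)
 (.ev (nat_lit 3104) (nat_lit 16384) (.ev (nat_lit 3117) (nat_lit 128) .dd))))))))) (.ch (nat_lit 11) (.ev
 (nat_lit 768) (nat_lit 32) (.nd (nat_lit 2144) (.br (nat_lit 10) (.ch (nat_lit 8) (.ev (nat_lit 2160) (nat_lit
 128) (.ev (nat_lit 3764) (nat_lit 8) (.ev (nat_lit 3773) (nat_lit 16384) .dd)))) (.br (nat_lit 12) (.ch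
 (nat_lit 10) (.ev (nat_lit 2160) (nat_lit 128) (.ev (nat_lit 2580) (nat_lit 8) (.ev (nat_lit 2589) (nat_lit
 16384) .dd)))) (.ch (nat_lit 12) (.ev (nat_lit 2160) (nat_lit 8) (.ev (nat_lit 3204) (nat_lit 16384) (.ev
 (nat_lit 3213) (nat_lit 128) .dd))))))))))))))) (.br (nat_lit 12) (.ch (nat_lit 10) (.ev (nat_lit 368)
 (nat_lit 8) (.ev (nat_lit 388) (nat_lit 128) (.ev (nat_lit 628) (nat_lit 32) (.ev (nat_lit 637) (nat_lit
 16384) .dd))))) (.ch (nat_lit 12) (.ev (nat_lit 368) (nat_lit 16416) (.nd (nat_lit 784) (.br (nat_lit 5) (.br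
 (nat_lit 3) (.ch (nat_lit 1) (.ev (nat_lit 800) (nat_lit 128) (.ev (nat_lit 813) (nat_lit 8) .dd))) (.br
 (nat_lit 4) (.ch (nat_lit 3) (.nd (nat_lit 2544) (.br (nat_lit 9) (.ch (nat_lit 4) (.ev (nat_lit 5108)
 (nat_lit 8) (.ev (nat_lit 5117) (nat_lit 128) .dd))) (.br (nat_lit 10) (.ch (nat_lit 9) (.ev (nat_lit 2560)
 (nat_lit 8) (.ev (nat_lit 2573) (nat_lit 128) .dd))) (.ch (nat_lit 10) (.ev (nat_lit 2580) (nat_lit 128) (.ev
 (nat_lit 2589) (nat_lit 8) .dd))))))) (.ch (nat_lit 4) (.ev (nat_lit 800) (nat_lit 8) (.ev (nat_lit 813)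
 (nat_lit 128) .dd))))) (.br (nat_lit 10) (.br (nat_lit 7) (.ch (nat_lit 5) (.fin (nat_lit
 576316166599295461))) (.ch (nat_lit 7) (.ev (nat_lit 800) (nat_lit 136) .dd))) (.br (nat_lit 11) (.ch (nat_lit
 10) (.nd (nat_lit 2544) (.br (nat_lit 6) (.br (nat_lit 4) (.ch (nat_lit 0) (.ev (nat_lit 4068) (nat_lit 128)
 (.ev (nat_lit 4077) (nat_lit 8) .dd))) (.ch (nat_lit 4) (.ev (nat_lit 3716) (nat_lit 8) (.ev (nat_lit 3725)
 (nat_lit 128) .dd)))) (.br (nat_lit 9) (.ch (nat_lit 6) (.ev (nat_lit 2560) (nat_lit 128) (.ev (nat_lit 2573)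
 (nat_lit 8) .dd))) (.ch (nat_lit 9) (.ev (nat_lit 3940) (nat_lit 8) (.ev (nat_lit 3949) (nat_lit 128)
 .dd))))))) (.ch (nat_lit 11) (.nd (nat_lit 2240) (.br (nat_lit 7) (.br (nat_lit 5) (.ch (nat_lit 2) (.ev
 (nat_lit 2420) (nat_lit 8) (.ev (nat_lit 2429) (nat_lit 128) .dd))) (.br (nat_lit 6) (.ch (nat_lit 5) (.ev
 (nat_lit 3316) (nat_lit 8) (.ev (nat_lit 3325) (nat_lit 128) .dd))) (.ch (nat_lit 6) (.ev (nat_lit 2372)
 (nat_lit 128) (.ev (nat_lit 2381) (nat_lit 8) .dd))))) (.br (nat_lit 11) (.br (nat_lit 8) (.ch (nat_lit 7)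
 (.nd (nat_lit 7344) (.br (nat_lit 4) (.ch (nat_lit 3) (.ev (nat_lit 7360) (nat_lit 128) (.ev (nat_lit 7373)
 (nat_lit 8) .dd))) (.br (nat_lit 5) (.ch (nat_lit 4) (.ev (nat_lit 7360) (nat_lit 128) (.ev (nat_lit 7373)
 (nat_lit 8) .dd))) (.ch (nat_lit 5) (.fin (nat_lit 576507481553322565))))))) (.ch (nat_lit 8) (.ev (nat_lit
 2256) (nat_lit 128) (.ev (nat_lit 2269) (nat_lit 8) .dd)))) (.br (nat_lit 12) (.ch (nat_lit 11) (.ev (nat_lit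
 2256) (nat_lit 136) .dd)) (.ch (nat_lit 12) (.ev (nat_lit 2256) (nat_lit 8) (.ev (nat_lit 2269) (nat_lit 128)
 .dd))))))))))))))))))))) (.ch (nat_lit 1) (.ev (nat_lit 48) (nat_lit 128) (.nd (nat_lit 64) (.br (nat_lit 6)
 (.br (nat_lit 2) (.br (nat_lit 1) (.ch (nat_lit 0) (.ev (nat_lit 80) (nat_lit 4096) (.nd (nat_lit 752) (.br
 (nat_lit 9) (.br (nat_lit 7) (.ch (nat_lit 6) (.ev (nat_lit 768) (nat_lit 72) (.nd (nat_lit 2240) (.br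
 (nat_lit 11) (.ch (nat_lit 7) (.ev (nat_lit 3876) (nat_lit 32) (.ev (nat_lit 3885) (nat_lit 16384) .dd))) (.ch
 (nat_lit 11) (.ev (nat_lit 3776) (nat_lit 16416) .dd)))))) (.br (nat_lit 8) (.ch (nat_lit 7) (.nd (nat_lit
 2144) (.br (nat_lit 2) (.br (nat_lit 1) (.ch (nat_lit 0) (.ev (nat_lit 2160) (nat_lit 16448) (.fin (nat_lit
 576461302108996141)))) (.ch (nat_lit 1) (.ev (nat_lit 2324) (nat_lit 8) (.ev (nat_lit 3908) (nat_lit 16384)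
 (.nd (nat_lit 6720) (.br (nat_lit 5) (.ch (nat_lit 4) (.ev (nat_lit 6736) (nat_lit 32) (.ev (nat_lit 6749)
 (nat_lit 64) .dd))) (.ch (nat_lit 5) (.fin (nat_lit 576553661019669106))))))))) (.br (nat_lit 3) (.ch (nat_lit
 2) (.ev (nat_lit 2180) (nat_lit 64) (.ev (nat_lit 3444) (nat_lit 8) (.fin (nat_lit 576646020412686841)))))
 (.br (nat_lit 11) (.ch (nat_lit 3) (.ev (nat_lit 2160) (nat_lit 16416) (.ev (nat_lit 2180) (nat_lit 64) (.ev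
 (nat_lit 2189) (nat_lit 8) .dd)))) (.ch (nat_lit 11) (.ev (nat_lit 2160) (nat_lit 16416) (.ev (nat_lit 2324)
 (nat_lit 8) (.ev (nat_lit 2333) (nat_lit 64) .dd))))))))) (.ch (nat_lit 8) (.ev (nat_lit 768) (nat_lit 16384)
 (.nd (nat_lit 2144) (.br (nat_lit 8) (.br (nat_lit 5) (.ch (nat_lit 0) (.ev (nat_lit 2276) (nat_lit 64) (.ev
 (nat_lit 3380) (nat_lit 8) (.ev (nat_lit 3389) (nat_lit 32) .dd)))) (.ch (nat_lit 5) (.ev (nat_lit 2160)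
 (nat_lit 8) (.ev (nat_lit 4276) (nat_lit 32) (.ev (nat_lit 4285) (nat_lit 64) .dd))))) (.br (nat_lit 9) (.ch
 (nat_lit 8) (.ev (nat_lit 4740) (nat_lit 32) (.fin (nat_lit 576483292337357403)))) (.ch (nat_lit 9) (.ev
 (nat_lit 2160) (nat_lit 64) (.ev (nat_lit 5060) (nat_lit 8) (.ev (nat_lit 5069) (nat_lit 32) .dd)))))))))))
 (.br (nat_lit 10) (.ch (nat_lit 9) (.ev (nat_lit 768) (nat_lit 16384) (.nd (nat_lit 2144) (.br (nat_lit 7)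
 (.br (nat_lit 2) (.ch (nat_lit 1) (.ev (nat_lit 2160) (nat_lit 8) (.ev (nat_lit 3332) (nat_lit 32) (.ev
 (nat_lit 3341) (nat_lit 64) .dd)))) (.ch (nat_lit 2) (.ev (nat_lit 2160) (nat_lit 32) (.ev (nat_lit 3428)
 (nat_lit 64) (.ev (nat_lit 3437) (nat_lit 8) .dd))))) (.br (nat_lit 10) (.ch (nat_lit 7) (.ev (nat_lit 2160)
 (nat_lit 64) (.ev (nat_lit 2324) (nat_lit 8) (.ev (nat_lit 2333) (nat_lit 32) .dd)))) (.ch (nat_lit 10) (.ev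
 (nat_lit 2160) (nat_lit 32) (.fin (nat_lit 576705393228989647))))))))) (.br (nat_lit 12) (.ch (nat_lit 10)
 (.ev (nat_lit 768) (nat_lit 32) (.nd (nat_lit 2544) (.br (nat_lit 3) (.ch (nat_lit 1) (.ev (nat_lit 2560)
 (nat_lit 16384) (.ev (nat_lit 4068) (nat_lit 8) (.ev (nat_lit 4077) (nat_lit 64) .dd)))) (.br (nat_lit 6) (.ch
 (nat_lit 3) (.ev (nat_lit 3828) (nat_lit 64) (.nd (nat_lit 6592) (.br (nat_lit 10) (.ch (nat_lit 6) (.fin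
 (nat_lit 576458003521684027))) (.ch (nat_lit 10) (.ev (nat_lit 6608) (nat_lit 8) (.ev (nat_lit 6621) (nat_lit
 16384) .dd))))))) (.ch (nat_lit 6) (.ev (nat_lit 2560) (nat_lit 8) (.fin (nat_lit 576478894159774294)))))))))
 (.ch (nat_lit 12) (.ev (nat_lit 768) (nat_lit 8) (.nd (nat_lit 2784) (.br (nat_lit 10) (.br (nat_lit 4) (.ch
 (nat_lit 3) (.ev (nat_lit 4100) (nat_lit 16384) (.ev (nat_lit 4276) (nat_lit 32) (.ev (nat_lit 4285) (nat_lit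
 64) .dd)))) (.ch (nat_lit 4) (.ev (nat_lit 2800) (nat_lit 16384) (.ev (nat_lit 4276) (nat_lit 32) (.ev
 (nat_lit 4285) (nat_lit 64) .dd))))) (.br (nat_lit 12) (.ch (nat_lit 10) (.ev (nat_lit 2800) (nat_lit 64) (.ev
 (nat_lit 3876) (nat_lit 16384) (.ev (nat_lit 3885) (nat_lit 32) .dd)))) (.ch (nat_lit 12) (.ev (nat_lit 2800)
 (nat_lit 16384) (.ev (nat_lit 4276) (nat_lit 32) (.ev (nat_lit 4285) (nat_lit 64) .dd))))))))))))))) (.ch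
 (nat_lit 1) (.nd (nat_lit 672) (.br (nat_lit 6) (.br (nat_lit 2) (.ch (nat_lit 1) (.ev (nat_lit 688) (nat_lit
 64) (.nd (nat_lit 2784) (.br (nat_lit 6) (.br (nat_lit 1) (.ch (nat_lit 0) (.ev (nat_lit 2800) (nat_lit 20480)
 (.ev (nat_lit 3360) (nat_lit 40) .dd))) (.br (nat_lit 3) (.ch (nat_lit 1) (.ev (nat_lit 2800) (nat_lit 4104)
 (.ev (nat_lit 3044) (nat_lit 16384) (.ev (nat_lit 3053) (nat_lit 32) .dd)))) (.ch (nat_lit 3) (.ev (nat_lit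
 2800) (nat_lit 40) (.ev (nat_lit 4048) (nat_lit 20480) .dd))))) (.br (nat_lit 9) (.br (nat_lit 8) (.ch
 (nat_lit 6) (.ev (nat_lit 4276) (nat_lit 4096) (.ev (nat_lit 4372) (nat_lit 32) (.ev (nat_lit 5572) (nat_lit
 8) (.ev (nat_lit 5581) (nat_lit 16384) .dd))))) (.ch (nat_lit 8) (.ev (nat_lit 2800) (nat_lit 32) (.ev
 (nat_lit 3668) (nat_lit 4096) (.ev (nat_lit 4404) (nat_lit 16384) (.ev (nat_lit 4413) (nat_lit 8) .dd))))))
 (.br (nat_lit 11) (.ch (nat_lit 9) (.ev (nat_lit 2800) (nat_lit 16384) (.ev (nat_lit 3316) (nat_lit 8) (.ev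
 (nat_lit 3668) (nat_lit 4096) (.ev (nat_lit 3677) (nat_lit 32) .dd))))) (.ch (nat_lit 11) (.ev (nat_lit 2800)
 (nat_lit 16392) (.ev (nat_lit 3152) (nat_lit 4128) .dd))))))))) (.br (nat_lit 3) (.ch (nat_lit 2) (.ev
 (nat_lit 688) (nat_lit 4096) (.ev (nat_lit 820) (nat_lit 64) (.ev (nat_lit 1268) (nat_lit 32) (.nd (nat_lit
 4176) (.br (nat_lit 2) (.br (nat_lit 1) (.ch (nat_lit 0) (.ev (nat_lit 4192) (nat_lit 8) (.ev (nat_lit 4205)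
 (nat_lit 16384) .dd))) (.ch (nat_lit 1) (.ev (nat_lit 4192) (nat_lit 16384) (.ev (nat_lit 4205) (nat_lit 8)
 .dd)))) (.br (nat_lit 9) (.ch (nat_lit 2) (.ev (nat_lit 4192) (nat_lit 16384) (.ev (nat_lit 4205) (nat_lit 8)
 .dd))) (.ch (nat_lit 9) (.ev (nat_lit 4192) (nat_lit 8) (.ev (nat_lit 4205) (nat_lit 16384) .dd)))))))))) (.ch
 (nat_lit 3) (.ev (nat_lit 688) (nat_lit 72) (.ev (nat_lit 1332) (nat_lit 4096) (.nd (nat_lit 3632) (.br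
 (nat_lit 6) (.br (nat_lit 3) (.ch (nat_lit 1) (.ev (nat_lit 3668) (nat_lit 16384) (.ev (nat_lit 3677) (nat_lit
 32) .dd))) (.ch (nat_lit 3) (.ev (nat_lit 3828) (nat_lit 16384) (.ev (nat_lit 3837) (nat_lit 32) .dd)))) (.br
 (nat_lit 7) (.ch (nat_lit 6) (.nd (nat_lit 7280) (.br (nat_lit 10) (.ch (nat_lit 9) (.fin (nat_lit
 576390933286175302))) (.ch (nat_lit 10) (.ev (nat_lit 7296) (nat_lit 16384) (.ev (nat_lit 7309) (nat_lit 32)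
 .dd)))))) (.br (nat_lit 9) (.ch (nat_lit 7) (.ev (nat_lit 3668) (nat_lit 16384) (.ev (nat_lit 3677) (nat_lit
 32) .dd))) (.ch (nat_lit 9) (.ev (nat_lit 3648) (nat_lit 32) (.ev (nat_lit 3661) (nat_lit 16384)
 .dd)))))))))))) (.br (nat_lit 7) (.ch (nat_lit 6) (.ev (nat_lit 688) (nat_lit 16424) (.nd (nat_lit 2784) (.br
 (nat_lit 6) (.ch (nat_lit 5) (.ev (nat_lit 4708) (nat_lit 4096) (.ev (nat_lit 4717) (nat_lit 64) .dd))) (.br
 (nat_lit 11) (.ch (nat_lit 6) (.ev (nat_lit 3828) (nat_lit 64) (.ev (nat_lit 3837) (nat_lit 4096) .dd))) (.ch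
 (nat_lit 11) (.ev (nat_lit 4708) (nat_lit 4096) (.ev (nat_lit 4717) (nat_lit 64) .dd)))))))) (.br (nat_lit 11)
 (.ch (nat_lit 7) (.ev (nat_lit 688) (nat_lit 20480) (.nd (nat_lit 2896) (.br (nat_lit 9) (.br (nat_lit 8) (.ch
 (nat_lit 4) (.ev (nat_lit 2912) (nat_lit 8) (.ev (nat_lit 4516) (nat_lit 64) (.ev (nat_lit 4525) (nat_lit 32)
 .dd)))) (.ch (nat_lit 8) (.ev (nat_lit 3876) (nat_lit 64) (.ev (nat_lit 4240) (nat_lit 40) .dd)))) (.br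
 (nat_lit 12) (.ch (nat_lit 9) (.ev (nat_lit 2912) (nat_lit 32) (.ev (nat_lit 4868) (nat_lit 8) (.ev (nat_lit
 4877) (nat_lit 64) .dd)))) (.ch (nat_lit 12) (.ev (nat_lit 2912) (nat_lit 8) (.ev (nat_lit 4580) (nat_lit 32)
 (.ev (nat_lit 4589) (nat_lit 64) .dd))))))))) (.ch (nat_lit 11) (.ev (nat_lit 688) (nat_lit 16384) (.ev
 (nat_lit 1348) (nat_lit 4096) (.nd (nat_lit 2896) (.br (nat_lit 2) (.br (nat_lit 1) (.ch (nat_lit 0) (.ev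
 (nat_lit 2912) (nat_lit 72) (.ev (nat_lit 2925) (nat_lit 32) .dd))) (.ch (nat_lit 1) (.ev (nat_lit 2932)
 (nat_lit 64) (.ev (nat_lit 3216) (nat_lit 8) (.ev (nat_lit 3229) (nat_lit 32) .dd))))) (.br (nat_lit 8) (.ch
 (nat_lit 2) (.ev (nat_lit 2912) (nat_lit 8) (.ev (nat_lit 4068) (nat_lit 64) (.ev (nat_lit 4077) (nat_lit 32)
 .dd)))) (.ch (nat_lit 8) (.ev (nat_lit 3924) (nat_lit 8) (.ev (nat_lit 3972) (nat_lit 64) (.ev (nat_lit 3981)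
 (nat_lit 32) .dd)))))))))))))))) (.br (nat_lit 3) (.ch (nat_lit 2) (.ev (nat_lit 80) (nat_lit 40) (.nd
 (nat_lit 848) (.br (nat_lit 8) (.br (nat_lit 3) (.ch (nat_lit 0) (.nd (nat_lit 2240) (.br (nat_lit 10) (.br
 (nat_lit 3) (.ch (nat_lit 2) (.ev (nat_lit 2256) (nat_lit 20480) (.ev (nat_lit 2269) (nat_lit 64) .dd))) (.ch
 (nat_lit 3) (.ev (nat_lit 3332) (nat_lit 64) (.ev (nat_lit 4676) (nat_lit 16384) (.ev (nat_lit 4685) (nat_lit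
 4096) .dd))))) (.br (nat_lit 11) (.ch (nat_lit 10) (.ev (nat_lit 2256) (nat_lit 4096) (.ev (nat_lit 3876)
 (nat_lit 64) (.ev (nat_lit 3885) (nat_lit 16384) .dd)))) (.ch (nat_lit 11) (.ev (nat_lit 2256) (nat_lit 4096)
 (.ev (nat_lit 3988) (nat_lit 16384) (.ev (nat_lit 3997) (nat_lit 64) .dd)))))))) (.br (nat_lit 5) (.ch
 (nat_lit 3) (.ev (nat_lit 864) (nat_lit 16384) (.ev (nat_lit 932) (nat_lit 64) (.ev (nat_lit 941) (nat_lit
 4096) .dd)))) (.ch (nat_lit 5) (.nd (nat_lit 2240) (.br (nat_lit 6) (.br (nat_lit 1) (.ch (nat_lit 0) (.ev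
 (nat_lit 2256) (nat_lit 64) (.ev (nat_lit 2884) (nat_lit 16384) (.ev (nat_lit 2893) (nat_lit 4096) .dd))))
 (.br (nat_lit 4) (.ch (nat_lit 1) (.ev (nat_lit 2256) (nat_lit 16448) (.ev (nat_lit 2269) (nat_lit 4096)
 .dd))) (.ch (nat_lit 4) (.ev (nat_lit 2256) (nat_lit 16448) (.ev (nat_lit 2269) (nat_lit 4096) .dd))))) (.br
 (nat_lit 8) (.br (nat_lit 7) (.ch (nat_lit 6) (.ev (nat_lit 2256) (nat_lit 16384) (.nd (nat_lit 6048) (.br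
 (nat_lit 5) (.ch (nat_lit 1) (.fin (nat_lit 576830737803068326))) (.br (nat_lit 6) (.ch (nat_lit 5) (.ev
 (nat_lit 6116) (nat_lit 4096) (.ev (nat_lit 6125) (nat_lit 64) .dd))) (.ch (nat_lit 6) (.ev (nat_lit 6180)
 (nat_lit 64) (.ev (nat_lit 6189) (nat_lit 4096) .dd)))))))) (.ch (nat_lit 7) (.ev (nat_lit 4324) (nat_lit
 4096) (.nd (nat_lit 6448) (.br (nat_lit 12) (.ch (nat_lit 4) (.fin (nat_lit 576451406439334458))) (.ch
 (nat_lit 12) (.ev (nat_lit 6484) (nat_lit 64) (.ev (nat_lit 6493) (nat_lit 16384) .dd)))))))) (.br (nat_lit 9)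
 (.ch (nat_lit 8) (.ev (nat_lit 2256) (nat_lit 64) (.ev (nat_lit 3172) (nat_lit 4096) (.ev (nat_lit 3181)
 (nat_lit 16384) .dd)))) (.ch (nat_lit 9) (.ev (nat_lit 2256) (nat_lit 4096) (.ev (nat_lit 4148) (nat_lit 64)
 (.ev (nat_lit 4157) (nat_lit 16384) .dd))))))))))) (.br (nat_lit 11) (.br (nat_lit 9) (.ch (nat_lit 8) (.ev
 (nat_lit 864) (nat_lit 4096) (.nd (nat_lit 2384) (.br (nat_lit 1) (.ch (nat_lit 0) (.ev (nat_lit 2436)
 (nat_lit 16384) (.ev (nat_lit 2445) (nat_lit 64) .dd))) (.br (nat_lit 11) (.ch (nat_lit 1) (.ev (nat_lit 2852)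
 (nat_lit 16384) (.ev (nat_lit 2861) (nat_lit 64) .dd))) (.ch (nat_lit 11) (.fin (nat_lit
 576276584103100217)))))))) (.ch (nat_lit 9) (.ev (nat_lit 864) (nat_lit 64) (.ev (nat_lit 1540) (nat_lit
 16384) (.ev (nat_lit 1549) (nat_lit 4096) .dd))))) (.br (nat_lit 12) (.ch (nat_lit 11) (.ev (nat_lit 864)
 (nat_lit 4096) (.ev (nat_lit 4676) (nat_lit 16384) (.ev (nat_lit 4685) (nat_lit 64) .dd)))) (.ch (nat_lit 12)
 (.ev (nat_lit 864) (nat_lit 16384) (.ev (nat_lit 1012) (nat_lit 64) (.ev (nat_lit 1021) (nat_lit 4096)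
 .dd)))))))))) (.ch (nat_lit 3) (.ev (nat_lit 80) (nat_lit 96) (.nd (nat_lit 752) (.br (nat_lit 4) (.br
 (nat_lit 2) (.br (nat_lit 1) (.ch (nat_lit 0) (.ev (nat_lit 2036) (nat_lit 4096) (.ev (nat_lit 3268) (nat_lit
 16384) (.ev (nat_lit 3277) (nat_lit 8) .dd)))) (.ch (nat_lit 1) (.ev (nat_lit 768) (nat_lit 20480) (.ev
 (nat_lit 781) (nat_lit 8) .dd)))) (.br (nat_lit 3) (.ch (nat_lit 2) (.ev (nat_lit 768) (nat_lit 16384) (.ev
 (nat_lit 884) (nat_lit 8) (.ev (nat_lit 893) (nat_lit 4096) .dd)))) (.ch (nat_lit 3) (.ev (nat_lit 768)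
 (nat_lit 8) (.ev (nat_lit 1380) (nat_lit 16384) (.ev (nat_lit 1389) (nat_lit 4096) .dd)))))) (.br (nat_lit 9)
 (.br (nat_lit 7) (.ch (nat_lit 4) (.ev (nat_lit 768) (nat_lit 16384) (.ev (nat_lit 884) (nat_lit 8) (.ev
 (nat_lit 893) (nat_lit 4096) .dd)))) (.ch (nat_lit 7) (.ev (nat_lit 768) (nat_lit 16392) (.ev (nat_lit 781)
 (nat_lit 4096) .dd)))) (.br (nat_lit 10) (.ch (nat_lit 9) (.ev (nat_lit 768) (nat_lit 4096) (.nd (nat_lit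
 2896) (.br (nat_lit 11) (.ch (nat_lit 9) (.ev (nat_lit 4592) (nat_lit 16392) .dd)) (.br (nat_lit 12) (.ch
 (nat_lit 11) (.ev (nat_lit 2912) (nat_lit 16384) (.ev (nat_lit 2925) (nat_lit 8) .dd))) (.ch (nat_lit 12) (.ev
 (nat_lit 3172) (nat_lit 16384) (.ev (nat_lit 3181) (nat_lit 8) .dd)))))))) (.br (nat_lit 11) (.ch (nat_lit 10)
 (.ev (nat_lit 768) (nat_lit 8) (.ev (nat_lit 1988) (nat_lit 4096) (.ev (nat_lit 1997) (nat_lit 16384) .dd))))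
 (.ch (nat_lit 11) (.ev (nat_lit 768) (nat_lit 4096) (.ev (nat_lit 2116) (nat_lit 8) (.ev (nat_lit 2125)
 (nat_lit 16384) .dd))))))))))))) (.br (nat_lit 9) (.br (nat_lit 8) (.ch (nat_lit 6) (.ev (nat_lit 80) (nat_lit
 72) (.nd (nat_lit 848) (.br (nat_lit 6) (.br (nat_lit 4) (.ch (nat_lit 2) (.ev (nat_lit 1680) (nat_lit 32)
 (.nd (nat_lit 2784) (.br (nat_lit 10) (.ch (nat_lit 1) (.ev (nat_lit 3172) (nat_lit 16384) (.ev (nat_lit 3181)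
 (nat_lit 4096) .dd))) (.ch (nat_lit 10) (.ev (nat_lit 2820) (nat_lit 16384) (.ev (nat_lit 2829) (nat_lit 4096)
 .dd))))))) (.br (nat_lit 5) (.ch (nat_lit 4) (.ev (nat_lit 864) (nat_lit 32) (.nd (nat_lit 2288) (.br (nat_lit
 11) (.br (nat_lit 4) (.ch (nat_lit 2) (.fin (nat_lit 576461302064955959))) (.ch (nat_lit 4) (.ev (nat_lit
 2468) (nat_lit 16384) (.ev (nat_lit 2477) (nat_lit 4096) .dd)))) (.br (nat_lit 12) (.ch (nat_lit 11) (.ev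
 (nat_lit 3380) (nat_lit 4096) (.ev (nat_lit 3389) (nat_lit 16384) .dd))) (.ch (nat_lit 12) (.ev (nat_lit 2324)
 (nat_lit 16384) (.ev (nat_lit 2333) (nat_lit 4096) .dd)))))))) (.ch (nat_lit 5) (.ev (nat_lit 864) (nat_lit
 4096) (.ev (nat_lit 1012) (nat_lit 16384) (.ev (nat_lit 1021) (nat_lit 32) .dd)))))) (.br (nat_lit 8) (.ch
 (nat_lit 6) (.ev (nat_lit 864) (nat_lit 4096) (.fin (nat_lit 576547064114528881)))) (.br (nat_lit 9) (.ch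
 (nat_lit 8) (.ev (nat_lit 864) (nat_lit 32) (.nd (nat_lit 2544) (.br (nat_lit 5) (.ch (nat_lit 0) (.ev
 (nat_lit 4276) (nat_lit 4096) (.ev (nat_lit 4285) (nat_lit 16384) .dd))) (.ch (nat_lit 5) (.ev (nat_lit 3332)
 (nat_lit 16384) (.ev (nat_lit 3341) (nat_lit 4096) .dd))))))) (.ch (nat_lit 9) (.ev (nat_lit 864) (nat_lit 32)
 (.nd (nat_lit 2288) (.br (nat_lit 10) (.ch (nat_lit 5) (.ev (nat_lit 3332) (nat_lit 4096) (.ev (nat_lit 3341)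
 (nat_lit 16384) .dd))) (.ch (nat_lit 10) (.ev (nat_lit 3332) (nat_lit 4096) (.ev (nat_lit 3341) (nat_lit
 16384) .dd))))))))))))) (.ch (nat_lit 8) (.ev (nat_lit 80) (nat_lit 20480) (.nd (nat_lit 1120) (.br (nat_lit
 5) (.br (nat_lit 3) (.br (nat_lit 2) (.ch (nat_lit 0) (.ev (nat_lit 1508) (nat_lit 64) (.nd (nat_lit 2896)
 (.br (nat_lit 8) (.br (nat_lit 4) (.ch (nat_lit 0) (.ev (nat_lit 4752) (nat_lit 40) .dd)) (.br (nat_lit 6)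
 (.ch (nat_lit 4) (.ev (nat_lit 4288) (nat_lit 40) .dd)) (.ch (nat_lit 6) (.ev (nat_lit 2912) (nat_lit 32) (.ev
 (nat_lit 2925) (nat_lit 8) .dd))))) (.br (nat_lit 9) (.ch (nat_lit 8) (.ev (nat_lit 2912) (nat_lit 32) (.ev
 (nat_lit 2925) (nat_lit 8) .dd))) (.br (nat_lit 12) (.ch (nat_lit 9) (.nd (nat_lit 6944) (.br (nat_lit 5) (.br
 (nat_lit 1) (.ch (nat_lit 0) (.ev (nat_lit 7092) (nat_lit 8) (.ev (nat_lit 7101) (nat_lit 32) .dd))) (.ch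
 (nat_lit 1) (.fin (nat_lit 576909903225371926)))) (.br (nat_lit 6) (.ch (nat_lit 5) (.ev (nat_lit 6960)
 (nat_lit 40) .dd)) (.br (nat_lit 10) (.ch (nat_lit 6) (.ev (nat_lit 6960) (nat_lit 32) (.ev (nat_lit 6973)
 (nat_lit 8) .dd))) (.ch (nat_lit 10) (.ev (nat_lit 6960) (nat_lit 40) .dd))))))) (.ch (nat_lit 12) (.ev
 (nat_lit 3776) (nat_lit 40) .dd)))))))) (.ch (nat_lit 2) (.ev (nat_lit 1136) (nat_lit 8) (.ev (nat_lit 1556)
 (nat_lit 64) (.ev (nat_lit 1565) (nat_lit 32) .dd))))) (.br (nat_lit 4) (.ch (nat_lit 3) (.ev (nat_lit 1136)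
 (nat_lit 104) .dd)) (.ch (nat_lit 4) (.ev (nat_lit 1136) (nat_lit 96) (.ev (nat_lit 1149) (nat_lit 8) .dd)))))
 (.br (nat_lit 7) (.br (nat_lit 6) (.ch (nat_lit 5) (.ev (nat_lit 1136) (nat_lit 40) (.ev (nat_lit 1149)
 (nat_lit 64) .dd))) (.ch (nat_lit 6) (.nd (nat_lit 5216) (.br (nat_lit 6) (.ch (nat_lit 2) (.ev (nat_lit 5232)
 (nat_lit 32) (.fin (nat_lit 576474496180372004)))) (.br (nat_lit 7) (.ch (nat_lit 6) (.ev (nat_lit 5232)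
 (nat_lit 8) (.ev (nat_lit 5408) (nat_lit 96) .dd))) (.ch (nat_lit 7) (.ev (nat_lit 5232) (nat_lit 8) (.ev
 (nat_lit 5476) (nat_lit 64) (.ev (nat_lit 5485) (nat_lit 32) .dd))))))))) (.br (nat_lit 10) (.ch (nat_lit 7)
 (.ev (nat_lit 1136) (nat_lit 8) (.ev (nat_lit 1332) (nat_lit 64) (.ev (nat_lit 1341) (nat_lit 32) .dd)))) (.br
 (nat_lit 12) (.ch (nat_lit 10) (.ev (nat_lit 1136) (nat_lit 32) (.ev (nat_lit 1268) (nat_lit 8) (.ev (nat_lit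
 1277) (nat_lit 64) .dd)))) (.ch (nat_lit 12) (.ev (nat_lit 1136) (nat_lit 64) (.ev (nat_lit 1732) (nat_lit 32)
 (.ev (nat_lit 1741) (nat_lit 8) .dd)))))))))))) (.br (nat_lit 10) (.ch (nat_lit 9) (.ev (nat_lit 80) (nat_lit
 16424) (.ev (nat_lit 468) (nat_lit 64) (.ev (nat_lit 477) (nat_lit 4096) .dd)))) (.br (nat_lit 12) (.ch
 (nat_lit 10) (.ev (nat_lit 80) (nat_lit 20480) (.ev (nat_lit 132) (nat_lit 8) (.nd (nat_lit 1632) (.br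
 (nat_lit 6) (.br (nat_lit 3) (.ch (nat_lit 1) (.ev (nat_lit 1648) (nat_lit 96) .dd)) (.br (nat_lit 5) (.ch
 (nat_lit 3) (.ev (nat_lit 1648) (nat_lit 32) (.ev (nat_lit 1661) (nat_lit 64) .dd))) (.ch (nat_lit 5) (.ev
 (nat_lit 1716) (nat_lit 64) (.ev (nat_lit 1725) (nat_lit 32) .dd))))) (.br (nat_lit 8) (.br (nat_lit 7) (.ch
 (nat_lit 6) (.ev (nat_lit 1648) (nat_lit 32) (.ev (nat_lit 1661) (nat_lit 64) .dd))) (.ch (nat_lit 7) (.ev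
 (nat_lit 1648) (nat_lit 32) (.ev (nat_lit 1661) (nat_lit 64) .dd)))) (.br (nat_lit 10) (.ch (nat_lit 8) (.nd
 (nat_lit 5792) (.br (nat_lit 6) (.ch (nat_lit 4) (.fin (nat_lit 576265589365359041))) (.br (nat_lit 10) (.ch
 (nat_lit 6) (.ev (nat_lit 5828) (nat_lit 32) (.ev (nat_lit 5837) (nat_lit 64) .dd))) (.ch (nat_lit 10) (.ev
 (nat_lit 5808) (nat_lit 64) (.ev (nat_lit 5821) (nat_lit 32) .dd))))))) (.ch (nat_lit 10) (.ev (nat_lit 1648)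
 (nat_lit 64) (.ev (nat_lit 1661) (nat_lit 32) .dd)))))))))) (.ch (nat_lit 12) (.ev (nat_lit 80) (nat_lit
 16480) (.nd (nat_lit 1440) (.br (nat_lit 4) (.br (nat_lit 2) (.ch (nat_lit 1) (.ev (nat_lit 1456) (nat_lit 8)
 (.ev (nat_lit 1469) (nat_lit 4096) .dd))) (.br (nat_lit 3) (.ch (nat_lit 2) (.ev (nat_lit 1456) (nat_lit 4096)
 (.ev (nat_lit 1469) (nat_lit 8) .dd))) (.ch (nat_lit 3) (.ev (nat_lit 1476) (nat_lit 8) (.ev (nat_lit 1485)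
 (nat_lit 4096) .dd))))) (.br (nat_lit 9) (.br (nat_lit 6) (.ch (nat_lit 4) (.ev (nat_lit 1456) (nat_lit 8)
 (.ev (nat_lit 1469) (nat_lit 4096) .dd))) (.ch (nat_lit 6) (.nd (nat_lit 5440) (.br (nat_lit 11) (.ch (nat_lit
 6) (.fin (nat_lit 576346952827356053))) (.br (nat_lit 12) (.ch (nat_lit 11) (.ev (nat_lit 5456) (nat_lit 4104)
 .dd)) (.ch (nat_lit 12) (.ev (nat_lit 5684) (nat_lit 4096) (.ev (nat_lit 5693) (nat_lit 8) .dd)))))))) (.br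
 (nat_lit 12) (.ch (nat_lit 9) (.ev (nat_lit 1476) (nat_lit 8) (.ev (nat_lit 1485) (nat_lit 4096) .dd))) (.ch
 (nat_lit 12) (.ev (nat_lit 1456) (nat_lit 4096) (.ev (nat_lit 1469) (nat_lit 8) .dd))))))))))))))))) (.br
 (nat_lit 4) (.ch (nat_lit 2) (.ev (nat_lit 48) (nat_lit 20640) (.nd (nat_lit 672) (.br (nat_lit 5) (.br
 (nat_lit 3) (.br (nat_lit 1) (.ch (nat_lit 0) (.ev (nat_lit 688) (nat_lit 64) (.ev (nat_lit 701) (nat_lit 8)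
 .dd))) (.ch (nat_lit 1) (.ev (nat_lit 688) (nat_lit 64) (.ev (nat_lit 701) (nat_lit 8) .dd)))) (.br (nat_lit
 4) (.ch (nat_lit 3) (.ev (nat_lit 688) (nat_lit 8) (.ev (nat_lit 701) (nat_lit 64) .dd))) (.ch (nat_lit 4)
 (.ev (nat_lit 708) (nat_lit 64) (.ev (nat_lit 717) (nat_lit 8) .dd))))) (.br (nat_lit 7) (.br (nat_lit 6) (.ch
 (nat_lit 5) (.ev (nat_lit 688) (nat_lit 8) (.ev (nat_lit 701) (nat_lit 64) .dd))) (.ch (nat_lit 6) (.fin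
 (nat_lit 576465700112515650)))) (.br (nat_lit 10) (.ch (nat_lit 7) (.ev (nat_lit 688) (nat_lit 64) (.ev
 (nat_lit 701) (nat_lit 8) .dd))) (.br (nat_lit 11) (.ch (nat_lit 10) (.ev (nat_lit 708) (nat_lit 8) (.ev
 (nat_lit 717) (nat_lit 64) .dd))) (.ch (nat_lit 11) (.ev (nat_lit 688) (nat_lit 8) (.ev (nat_lit 701) (nat_lit
 64) .dd)))))))))) (.ch (nat_lit 4) (.ev (nat_lit 48) (nat_lit 40) (.nd (nat_lit 96) (.br (nat_lit 6) (.br
 (nat_lit 4) (.br (nat_lit 3) (.ch (nat_lit 0) (.ev (nat_lit 112) (nat_lit 4224) (.nd (nat_lit 848) (.br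
 (nat_lit 6) (.br (nat_lit 3) (.br (nat_lit 2) (.ch (nat_lit 1) (.nd (nat_lit 3088) (.br (nat_lit 6) (.ch
 (nat_lit 4) (.ev (nat_lit 3204) (nat_lit 64) (.ev (nat_lit 3213) (nat_lit 16384) .dd))) (.br (nat_lit 10) (.ch
 (nat_lit 6) (.ev (nat_lit 3124) (nat_lit 64) (.ev (nat_lit 3133) (nat_lit 16384) .dd))) (.ch (nat_lit 10) (.ev
 (nat_lit 4628) (nat_lit 64) (.ev (nat_lit 4637) (nat_lit 16384) .dd))))))) (.ch (nat_lit 2) (.ev (nat_lit 864)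
 (nat_lit 16384) (.ev (nat_lit 877) (nat_lit 64) .dd)))) (.br (nat_lit 4) (.ch (nat_lit 3) (.ev (nat_lit 864)
 (nat_lit 64) (.ev (nat_lit 877) (nat_lit 16384) .dd))) (.ch (nat_lit 4) (.ev (nat_lit 864) (nat_lit 16384)
 (.ev (nat_lit 877) (nat_lit 64) .dd))))) (.br (nat_lit 9) (.br (nat_lit 7) (.ch (nat_lit 6) (.ev (nat_lit
 3316) (nat_lit 64) (.ev (nat_lit 3325) (nat_lit 16384) .dd))) (.ch (nat_lit 7) (.ev (nat_lit 864) (nat_lit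
 16448) .dd))) (.br (nat_lit 10) (.ch (nat_lit 9) (.ev (nat_lit 864) (nat_lit 64) (.ev (nat_lit 877) (nat_lit
 16384) .dd))) (.br (nat_lit 11) (.ch (nat_lit 10) (.ev (nat_lit 2100) (nat_lit 16384) (.ev (nat_lit 2109)
 (nat_lit 64) .dd))) (.ch (nat_lit 11) (.ev (nat_lit 864) (nat_lit 16384) (.ev (nat_lit 877) (nat_lit 64)
 .dd)))))))))) (.ch (nat_lit 3) (.ev (nat_lit 112) (nat_lit 128) (.nd (nat_lit 1040) (.br (nat_lit 8) (.br
 (nat_lit 2) (.ch (nat_lit 0) (.ev (nat_lit 1056) (nat_lit 16384) (.ev (nat_lit 1252) (nat_lit 4096) (.ev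
 (nat_lit 1261) (nat_lit 64) .dd)))) (.br (nat_lit 7) (.ch (nat_lit 2) (.ev (nat_lit 1056) (nat_lit 64) (.ev
 (nat_lit 1380) (nat_lit 16384) (.ev (nat_lit 1389) (nat_lit 4096) .dd)))) (.ch (nat_lit 7) (.nd (nat_lit 2784)
 (.br (nat_lit 7) (.br (nat_lit 3) (.ch (nat_lit 0) (.ev (nat_lit 4324) (nat_lit 64) (.ev (nat_lit 4468)
 (nat_lit 16384) (.ev (nat_lit 4477) (nat_lit 4096) .dd)))) (.br (nat_lit 5) (.ch (nat_lit 3) (.ev (nat_lit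
 2800) (nat_lit 16384) (.nd (nat_lit 6928) (.br (nat_lit 6) (.ch (nat_lit 4) (.fin (nat_lit
 577868676450435634))) (.br (nat_lit 7) (.ch (nat_lit 6) (.ev (nat_lit 7076) (nat_lit 4096) (.ev (nat_lit 7085)
 (nat_lit 64) .dd))) (.ch (nat_lit 7) (.ev (nat_lit 6980) (nat_lit 64) (.ev (nat_lit 6989) (nat_lit 4096)
 .dd)))))))) (.ch (nat_lit 5) (.ev (nat_lit 2800) (nat_lit 20480) (.ev (nat_lit 2813) (nat_lit 64) .dd)))))
 (.br (nat_lit 9) (.br (nat_lit 8) (.ch (nat_lit 7) (.ev (nat_lit 2800) (nat_lit 64) (.nd (nat_lit 7216) (.br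
 (nat_lit 4) (.ch (nat_lit 3) (.ev (nat_lit 7236) (nat_lit 16384) (.ev (nat_lit 7245) (nat_lit 4096) .dd)))
 (.ch (nat_lit 4) (.fin (nat_lit 576423918753497611))))))) (.ch (nat_lit 8) (.ev (nat_lit 2800) (nat_lit 4096)
 (.ev (nat_lit 4772) (nat_lit 64) (.ev (nat_lit 4781) (nat_lit 16384) .dd))))) (.br (nat_lit 10) (.ch (nat_lit
 9) (.ev (nat_lit 2800) (nat_lit 20480) (.ev (nat_lit 2813) (nat_lit 64) .dd))) (.ch (nat_lit 10) (.ev (nat_lit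
 2800) (nat_lit 4096) (.ev (nat_lit 3808) (nat_lit 16384) (.ev (nat_lit 3821) (nat_lit 64) .dd))))))))))) (.br
 (nat_lit 11) (.br (nat_lit 9) (.ch (nat_lit 8) (.ev (nat_lit 1056) (nat_lit 4096) (.fin (nat_lit
 576487690307322448)))) (.ch (nat_lit 9) (.ev (nat_lit 1748) (nat_lit 64) (.nd (nat_lit 4544) (.br (nat_lit 7)
 (.ch (nat_lit 5) (.ev (nat_lit 4560) (nat_lit 4096) (.ev (nat_lit 4573) (nat_lit 16384) .dd))) (.ch (nat_lit
 7) (.fin (nat_lit 576237001712812654)))))))) (.br (nat_lit 12) (.ch (nat_lit 11) (.ev (nat_lit 1056) (nat_lit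
 64) (.ev (nat_lit 4964) (nat_lit 4096) (.ev (nat_lit 4973) (nat_lit 16384) .dd)))) (.ch (nat_lit 12) (.ev
 (nat_lit 1056) (nat_lit 16384) (.ev (nat_lit 1156) (nat_lit 64) (.ev (nat_lit 1165) (nat_lit 4096)
 .dd))))))))))) (.br (nat_lit 5) (.ch (nat_lit 4) (.ev (nat_lit 112) (nat_lit 4096) (.ev (nat_lit 180) (nat_lit
 128) (.nd (nat_lit 784) (.br (nat_lit 9) (.br (nat_lit 5) (.ch (nat_lit 4) (.ev (nat_lit 3908) (nat_lit 16384)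
 (.ev (nat_lit 3917) (nat_lit 64) .dd))) (.br (nat_lit 8) (.ch (nat_lit 5) (.ev (nat_lit 800) (nat_lit 64) (.ev
 (nat_lit 813) (nat_lit 16384) .dd))) (.ch (nat_lit 8) (.ev (nat_lit 800) (nat_lit 64) (.ev (nat_lit 813)
 (nat_lit 16384) .dd))))) (.br (nat_lit 11) (.ch (nat_lit 9) (.ev (nat_lit 4228) (nat_lit 64) (.ev (nat_lit
 4237) (nat_lit 16384) .dd))) (.br (nat_lit 12) (.ch (nat_lit 11) (.nd (nat_lit 3088) (.br (nat_lit 11) (.br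
 (nat_lit 8) (.ch (nat_lit 6) (.ev (nat_lit 3280) (nat_lit 16448) .dd)) (.ch (nat_lit 8) (.ev (nat_lit 4420)
 (nat_lit 64) (.ev (nat_lit 4429) (nat_lit 16384) .dd)))) (.br (nat_lit 12) (.ch (nat_lit 11) (.ev (nat_lit
 3380) (nat_lit 64) (.ev (nat_lit 3389) (nat_lit 16384) .dd))) (.ch (nat_lit 12) (.ev (nat_lit 5556) (nat_lit
 16384) (.ev (nat_lit 5565) (nat_lit 64) .dd))))))) (.ch (nat_lit 12) (.nd (nat_lit 4176) (.br (nat_lit 12)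
 (.ch (nat_lit 10) (.ev (nat_lit 4852) (nat_lit 16384) (.ev (nat_lit 4861) (nat_lit 64) .dd))) (.ch (nat_lit
 12) (.ev (nat_lit 4276) (nat_lit 64) (.ev (nat_lit 4285) (nat_lit 16384) .dd))))))))))))) (.ch (nat_lit 5)
 (.ev (nat_lit 112) (nat_lit 16448) (.nd (nat_lit 1040) (.br (nat_lit 6) (.br (nat_lit 2) (.ch (nat_lit 1) (.ev
 (nat_lit 1056) (nat_lit 128) (.ev (nat_lit 1069) (nat_lit 4096) .dd))) (.br (nat_lit 5) (.ch (nat_lit 2) (.ev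
 (nat_lit 1056) (nat_lit 128) (.ev (nat_lit 1069) (nat_lit 4096) .dd))) (.ch (nat_lit 5) (.ev (nat_lit 1056)
 (nat_lit 128) (.ev (nat_lit 1069) (nat_lit 4096) .dd))))) (.br (nat_lit 8) (.br (nat_lit 7) (.ch (nat_lit 6)
 (.ev (nat_lit 1056) (nat_lit 4096) (.ev (nat_lit 1069) (nat_lit 128) .dd))) (.ch (nat_lit 7) (.ev (nat_lit
 1056) (nat_lit 4224) .dd))) (.br (nat_lit 12) (.ch (nat_lit 8) (.nd (nat_lit 3088) (.br (nat_lit 10) (.br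
 (nat_lit 8) (.ch (nat_lit 1) (.fin (nat_lit 576865922528527141))) (.ch (nat_lit 8) (.ev (nat_lit 3104)
 (nat_lit 128) (.ev (nat_lit 3117) (nat_lit 4096) .dd)))) (.br (nat_lit 11) (.ch (nat_lit 10) (.ev (nat_lit
 3104) (nat_lit 128) (.ev (nat_lit 3117) (nat_lit 4096) .dd))) (.br (nat_lit 12) (.ch (nat_lit 11) (.ev
 (nat_lit 3104) (nat_lit 4096) (.ev (nat_lit 3117) (nat_lit 128) .dd))) (.ch (nat_lit 12) (.ev (nat_lit 3104)
 (nat_lit 4096) (.ev (nat_lit 3117) (nat_lit 128) .dd)))))))) (.ch (nat_lit 12) (.nd (nat_lit 2288) (.br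
 (nat_lit 10) (.br (nat_lit 8) (.ch (nat_lit 1) (.ev (nat_lit 3076) (nat_lit 128) (.ev (nat_lit 3085) (nat_lit
 4096) .dd))) (.br (nat_lit 9) (.ch (nat_lit 8) (.nd (nat_lit 7376) (.br (nat_lit 11) (.ch (nat_lit 1) (.ev
 (nat_lit 7392) (nat_lit 128) (.ev (nat_lit 7405) (nat_lit 4096) .dd))) (.ch (nat_lit 11) (.fin (nat_lit
 576464600590402108)))))) (.ch (nat_lit 9) (.ev (nat_lit 2304) (nat_lit 4096) (.ev (nat_lit 2317) (nat_lit 128)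
 .dd))))) (.br (nat_lit 11) (.ch (nat_lit 10) (.ev (nat_lit 2304) (nat_lit 4096) (.ev (nat_lit 2317) (nat_lit
 128) .dd))) (.br (nat_lit 12) (.ch (nat_lit 11) (.ev (nat_lit 3204) (nat_lit 128) (.ev (nat_lit 3213) (nat_lit
 4096) .dd))) (.ch (nat_lit 12) (.ev (nat_lit 2304) (nat_lit 128) (.ev (nat_lit 2317) (nat_lit 4096)
 .dd)))))))))))))))) (.br (nat_lit 9) (.br (nat_lit 8) (.ch (nat_lit 6) (.nd (nat_lit 672) (.br (nat_lit 6)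
 (.br (nat_lit 4) (.ch (nat_lit 3) (.ev (nat_lit 688) (nat_lit 4096) (.nd (nat_lit 2288) (.br (nat_lit 5) (.br
 (nat_lit 3) (.ch (nat_lit 0) (.ev (nat_lit 2304) (nat_lit 64) (.fin (nat_lit 576529472127713587)))) (.ch
 (nat_lit 3) (.ev (nat_lit 3876) (nat_lit 16384) (.nd (nat_lit 6624) (.br (nat_lit 12) (.ch (nat_lit 2) (.ev
 (nat_lit 6640) (nat_lit 64) (.ev (nat_lit 6653) (nat_lit 128) .dd))) (.ch (nat_lit 12) (.fin (nat_lit
 576460202542842430)))))))) (.br (nat_lit 7) (.ch (nat_lit 5) (.ev (nat_lit 2304) (nat_lit 64) (.ev (nat_lit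
 4084) (nat_lit 16384) (.ev (nat_lit 4093) (nat_lit 128) .dd)))) (.br (nat_lit 12) (.ch (nat_lit 7) (.ev
 (nat_lit 2304) (nat_lit 128) (.ev (nat_lit 4004) (nat_lit 16384) (.ev (nat_lit 4013) (nat_lit 64) .dd)))) (.ch
 (nat_lit 12) (.ev (nat_lit 2304) (nat_lit 64) (.ev (nat_lit 2436) (nat_lit 16384) (.ev (nat_lit 2445) (nat_lit
 128) .dd)))))))))) (.br (nat_lit 5) (.ch (nat_lit 4) (.ev (nat_lit 688) (nat_lit 16448) (.nd (nat_lit 2784)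
 (.br (nat_lit 3) (.br (nat_lit 2) (.ch (nat_lit 1) (.ev (nat_lit 3172) (nat_lit 128) (.ev (nat_lit 3181)
 (nat_lit 4096) .dd))) (.ch (nat_lit 2) (.ev (nat_lit 2948) (nat_lit 4096) (.ev (nat_lit 2957) (nat_lit 128)
 .dd)))) (.br (nat_lit 12) (.ch (nat_lit 3) (.fin (nat_lit 576399729370808914))) (.ch (nat_lit 12) (.ev
 (nat_lit 2800) (nat_lit 128) (.ev (nat_lit 2813) (nat_lit 4096) .dd)))))))) (.ch (nat_lit 5) (.ev (nat_lit
 688) (nat_lit 16384) (.ev (nat_lit 820) (nat_lit 128) (.nd (nat_lit 2288) (.br (nat_lit 7) (.br (nat_lit 5)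
 (.ch (nat_lit 2) (.ev (nat_lit 3444) (nat_lit 64) (.ev (nat_lit 3453) (nat_lit 4096) .dd))) (.ch (nat_lit 5)
 (.ev (nat_lit 2304) (nat_lit 4096) (.ev (nat_lit 2317) (nat_lit 64) .dd)))) (.br (nat_lit 12) (.ch (nat_lit 7)
 (.ev (nat_lit 2304) (nat_lit 64) (.ev (nat_lit 2317) (nat_lit 4096) .dd))) (.ch (nat_lit 12) (.nd (nat_lit
 6352) (.br (nat_lit 7) (.ch (nat_lit 5) (.ev (nat_lit 6368) (nat_lit 64) (.ev (nat_lit 6381) (nat_lit 4096)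
 .dd))) (.ch (nat_lit 7) (.fin (nat_lit 576179827172131915)))))))))))))) (.br (nat_lit 7) (.ch (nat_lit 6) (.ev
 (nat_lit 688) (nat_lit 64) (.ev (nat_lit 836) (nat_lit 128) (.nd (nat_lit 2240) (.br (nat_lit 7) (.br (nat_lit
 1) (.ch (nat_lit 0) (.ev (nat_lit 3044) (nat_lit 4096) (.ev (nat_lit 3053) (nat_lit 16384) .dd))) (.ch
 (nat_lit 1) (.ev (nat_lit 2256) (nat_lit 4096) (.ev (nat_lit 2269) (nat_lit 16384) .dd)))) (.br (nat_lit 10)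
 (.ch (nat_lit 7) (.ev (nat_lit 2256) (nat_lit 16384) (.ev (nat_lit 2269) (nat_lit 4096) .dd))) (.br (nat_lit
 12) (.ch (nat_lit 10) (.ev (nat_lit 2256) (nat_lit 4096) (.ev (nat_lit 2269) (nat_lit 16384) .dd))) (.ch
 (nat_lit 12) (.fin (nat_lit 576386535329841706)))))))))) (.br (nat_lit 9) (.ch (nat_lit 7) (.ev (nat_lit 688)
 (nat_lit 16512) (.nd (nat_lit 2144) (.br (nat_lit 3) (.ch (nat_lit 0) (.fin (nat_lit 576476695273882181)))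
 (.br (nat_lit 11) (.ch (nat_lit 3) (.ev (nat_lit 3348) (nat_lit 4096) (.ev (nat_lit 3357) (nat_lit 64) .dd)))
 (.ch (nat_lit 11) (.ev (nat_lit 5044) (nat_lit 4096) (.ev (nat_lit 5053) (nat_lit 64) .dd)))))))) (.ch
 (nat_lit 9) (.ev (nat_lit 688) (nat_lit 4096) (.ev (nat_lit 1588) (nat_lit 128) (.nd (nat_lit 2288) (.br
 (nat_lit 5) (.br (nat_lit 2) (.ch (nat_lit 0) (.nd (nat_lit 7616) (.br (nat_lit 5) (.ch (nat_lit 2) (.ev
 (nat_lit 7632) (nat_lit 16448) .dd)) (.ch (nat_lit 5) (.fin (nat_lit 576485491341738535)))))) (.br (nat_lit 4)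
 (.ch (nat_lit 2) (.ev (nat_lit 2304) (nat_lit 64) (.ev (nat_lit 2317) (nat_lit 16384) .dd))) (.ch (nat_lit 4)
 (.ev (nat_lit 2304) (nat_lit 16384) (.ev (nat_lit 2317) (nat_lit 64) .dd))))) (.br (nat_lit 9) (.br (nat_lit
 7) (.ch (nat_lit 5) (.ev (nat_lit 2304) (nat_lit 16448) .dd)) (.ch (nat_lit 7) (.ev (nat_lit 2324) (nat_lit
 64) (.ev (nat_lit 2333) (nat_lit 16384) .dd)))) (.br (nat_lit 11) (.ch (nat_lit 9) (.ev (nat_lit 3428)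
 (nat_lit 16384) (.ev (nat_lit 3437) (nat_lit 64) .dd))) (.ch (nat_lit 11) (.ev (nat_lit 2304) (nat_lit 16384)
 (.ev (nat_lit 2317) (nat_lit 64) .dd))))))))))))))) (.ch (nat_lit 8) (.ev (nat_lit 112) (nat_lit 16512) (.nd
 (nat_lit 1440) (.br (nat_lit 6) (.br (nat_lit 1) (.ch (nat_lit 0) (.ev (nat_lit 1456) (nat_lit 4096) (.ev
 (nat_lit 1469) (nat_lit 64) .dd))) (.br (nat_lit 5) (.ch (nat_lit 1) (.ev (nat_lit 1456) (nat_lit 4096) (.ev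
 (nat_lit 1469) (nat_lit 64) .dd))) (.ch (nat_lit 5) (.ev (nat_lit 1456) (nat_lit 64) (.ev (nat_lit 1469)
 (nat_lit 4096) .dd))))) (.br (nat_lit 8) (.br (nat_lit 7) (.ch (nat_lit 6) (.nd (nat_lit 5632) (.br (nat_lit
 5) (.ch (nat_lit 4) (.fin (nat_lit 576120453648040479))) (.ch (nat_lit 5) (.ev (nat_lit 5700) (nat_lit 64)
 (.ev (nat_lit 5709) (nat_lit 4096) .dd)))))) (.ch (nat_lit 7) (.ev (nat_lit 1476) (nat_lit 64) (.ev (nat_lit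
 1485) (nat_lit 4096) .dd)))) (.br (nat_lit 12) (.ch (nat_lit 8) (.ev (nat_lit 1456) (nat_lit 64) (.ev (nat_lit
 1469) (nat_lit 4096) .dd))) (.ch (nat_lit 12) (.ev (nat_lit 1456) (nat_lit 4096) (.ev (nat_lit 1469) (nat_lit
 64) .dd)))))))))) (.br (nat_lit 11) (.ch (nat_lit 9) (.ev (nat_lit 112) (nat_lit 64) (.nd (nat_lit 1440) (.br
 (nat_lit 8) (.br (nat_lit 2) (.ch (nat_lit 1) (.ev (nat_lit 1456) (nat_lit 4096) (.fin (nat_lit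
 576465700108321342)))) (.br (nat_lit 5) (.ch (nat_lit 2) (.ev (nat_lit 1456) (nat_lit 128) (.ev (nat_lit 3828)
 (nat_lit 16384) (.ev (nat_lit 3837) (nat_lit 4096) .dd)))) (.ch (nat_lit 5) (.ev (nat_lit 1456) (nat_lit
 16384) (.ev (nat_lit 1668) (nat_lit 128) (.ev (nat_lit 1677) (nat_lit 4096) .dd)))))) (.br (nat_lit 9) (.ch
 (nat_lit 8) (.ev (nat_lit 1456) (nat_lit 16384) (.ev (nat_lit 1668) (nat_lit 128) (.ev (nat_lit 1677) (nat_lit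
 4096) .dd)))) (.br (nat_lit 11) (.ch (nat_lit 9) (.ev (nat_lit 1668) (nat_lit 16512) (.ev (nat_lit 1677)
 (nat_lit 4096) .dd))) (.ch (nat_lit 11) (.ev (nat_lit 1668) (nat_lit 16384) (.ev (nat_lit 3716) (nat_lit 4096)
 (.ev (nat_lit 3725) (nat_lit 128) .dd)))))))))) (.br (nat_lit 12) (.ch (nat_lit 11) (.ev (nat_lit 112)
 (nat_lit 16448) (.nd (nat_lit 1040) (.br (nat_lit 6) (.br (nat_lit 3) (.br (nat_lit 2) (.ch (nat_lit 0) (.ev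
 (nat_lit 3840) (nat_lit 128) (.ev (nat_lit 3853) (nat_lit 4096) .dd))) (.ch (nat_lit 2) (.ev (nat_lit 4116)
 (nat_lit 4096) (.ev (nat_lit 4125) (nat_lit 128) .dd)))) (.br (nat_lit 4) (.ch (nat_lit 3) (.ev (nat_lit 1188)
 (nat_lit 128) (.ev (nat_lit 1197) (nat_lit 4096) .dd))) (.ch (nat_lit 4) (.ev (nat_lit 1056) (nat_lit 128)
 (.ev (nat_lit 1069) (nat_lit 4096) .dd))))) (.br (nat_lit 9) (.br (nat_lit 8) (.ch (nat_lit 6) (.ev (nat_lit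
 1056) (nat_lit 128) (.ev (nat_lit 1069) (nat_lit 4096) .dd))) (.ch (nat_lit 8) (.ev (nat_lit 1076) (nat_lit
 128) (.ev (nat_lit 1085) (nat_lit 4096) .dd)))) (.br (nat_lit 11) (.ch (nat_lit 9) (.ev (nat_lit 1056)
 (nat_lit 4224) .dd)) (.br (nat_lit 12) (.ch (nat_lit 11) (.ev (nat_lit 1056) (nat_lit 4096) (.ev (nat_lit
 1069) (nat_lit 128) .dd))) (.ch (nat_lit 12) (.ev (nat_lit 1056) (nat_lit 4224) .dd))))))))) (.ch (nat_lit 12)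
 (.ev (nat_lit 112) (nat_lit 20608) (.ev (nat_lit 125) (nat_lit 64) .dd)))))))))))) (.br (nat_lit 9) (.br
 (nat_lit 6) (.ch (nat_lit 5) (.ev (nat_lit 48) (nat_lit 16448) (.nd (nat_lit 416) (.br (nat_lit 8) (.br
 (nat_lit 3) (.br (nat_lit 2) (.ch (nat_lit 0) (.ev (nat_lit 432) (nat_lit 160) (.nd (nat_lit 1632) (.br
 (nat_lit 7) (.br (nat_lit 3) (.ch (nat_lit 0) (.ev (nat_lit 1716) (nat_lit 8) (.ev (nat_lit 1725) (nat_lit
 4096) .dd))) (.br (nat_lit 5) (.ch (nat_lit 3) (.ev (nat_lit 1648) (nat_lit 4096) (.ev (nat_lit 1661) (nat_lit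
 8) .dd))) (.ch (nat_lit 5) (.ev (nat_lit 1648) (nat_lit 8) (.ev (nat_lit 1661) (nat_lit 4096) .dd))))) (.br
 (nat_lit 8) (.ch (nat_lit 7) (.nd (nat_lit 5712) (.br (nat_lit 3) (.ch (nat_lit 0) (.ev (nat_lit 5728)
 (nat_lit 4104) .dd)) (.br (nat_lit 12) (.ch (nat_lit 3) (.ev (nat_lit 5764) (nat_lit 4096) (.ev (nat_lit 5773)
 (nat_lit 8) .dd))) (.ch (nat_lit 12) (.fin (nat_lit 576239200736067717))))))) (.br (nat_lit 10) (.ch (nat_lit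
 8) (.ev (nat_lit 1648) (nat_lit 8) (.ev (nat_lit 1661) (nat_lit 4096) .dd))) (.ch (nat_lit 10) (.ev (nat_lit
 1648) (nat_lit 4096) (.ev (nat_lit 1661) (nat_lit 8) .dd))))))))) (.ch (nat_lit 2) (.ev (nat_lit 432) (nat_lit
 168) (.ev (nat_lit 445) (nat_lit 4096) .dd)))) (.br (nat_lit 4) (.ch (nat_lit 3) (.ev (nat_lit 432) (nat_lit
 4256) (.ev (nat_lit 445) (nat_lit 8) .dd))) (.ch (nat_lit 4) (.nd (nat_lit 848) (.br (nat_lit 6) (.br (nat_lit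
 2) (.ch (nat_lit 0) (.ev (nat_lit 864) (nat_lit 8) (.ev (nat_lit 1076) (nat_lit 128) (.ev (nat_lit 1696)
 (nat_lit 32) (.ev (nat_lit 1709) (nat_lit 4096) .dd))))) (.br (nat_lit 5) (.ch (nat_lit 2) (.ev (nat_lit 864)
 (nat_lit 4128) (.ev (nat_lit 1172) (nat_lit 128) (.ev (nat_lit 1181) (nat_lit 8) .dd)))) (.ch (nat_lit 5) (.ev
 (nat_lit 1076) (nat_lit 128) (.ev (nat_lit 1860) (nat_lit 32) (.nd (nat_lit 2784) (.br (nat_lit 8) (.br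
 (nat_lit 5) (.ch (nat_lit 1) (.ev (nat_lit 2800) (nat_lit 8) (.ev (nat_lit 2813) (nat_lit 4096) .dd))) (.ch
 (nat_lit 5) (.ev (nat_lit 2800) (nat_lit 4096) (.ev (nat_lit 2813) (nat_lit 8) .dd)))) (.br (nat_lit 9) (.ch
 (nat_lit 8) (.ev (nat_lit 2820) (nat_lit 8) (.ev (nat_lit 2829) (nat_lit 4096) .dd))) (.br (nat_lit 11) (.ch
 (nat_lit 9) (.fin (nat_lit 576465700173332986))) (.ch (nat_lit 11) (.ev (nat_lit 2800) (nat_lit 4104)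
 .dd))))))))))) (.br (nat_lit 11) (.br (nat_lit 9) (.ch (nat_lit 6) (.ev (nat_lit 864) (nat_lit 8) (.ev
 (nat_lit 1156) (nat_lit 32) (.nd (nat_lit 2784) (.br (nat_lit 7) (.ch (nat_lit 5) (.ev (nat_lit 2800) (nat_lit
 128) (.ev (nat_lit 2813) (nat_lit 4096) .dd))) (.ch (nat_lit 7) (.ev (nat_lit 3476) (nat_lit 4096) (.ev
 (nat_lit 3485) (nat_lit 128) .dd)))))))) (.ch (nat_lit 9) (.ev (nat_lit 864) (nat_lit 4224) (.nd (nat_lit
 3632) (.br (nat_lit 11) (.ch (nat_lit 8) (.ev (nat_lit 3716) (nat_lit 32) (.ev (nat_lit 3725) (nat_lit 8)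
 .dd))) (.ch (nat_lit 11) (.ev (nat_lit 3668) (nat_lit 8) (.ev (nat_lit 3677) (nat_lit 32) .dd)))))))) (.br
 (nat_lit 12) (.ch (nat_lit 11) (.ev (nat_lit 1028) (nat_lit 4096) (.nd (nat_lit 2288) (.br (nat_lit 9) (.br
 (nat_lit 8) (.ch (nat_lit 2) (.ev (nat_lit 2304) (nat_lit 40) (.ev (nat_lit 2317) (nat_lit 128) .dd))) (.ch
 (nat_lit 8) (.ev (nat_lit 2304) (nat_lit 32) (.ev (nat_lit 2612) (nat_lit 8) (.ev (nat_lit 2621) (nat_lit 128)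
 .dd))))) (.br (nat_lit 10) (.ch (nat_lit 9) (.ev (nat_lit 2304) (nat_lit 8) (.ev (nat_lit 3716) (nat_lit 128)
 (.ev (nat_lit 3725) (nat_lit 32) .dd)))) (.ch (nat_lit 10) (.ev (nat_lit 2304) (nat_lit 128) (.ev (nat_lit
 3908) (nat_lit 32) (.ev (nat_lit 3917) (nat_lit 8) .dd))))))))) (.ch (nat_lit 12) (.ev (nat_lit 864) (nat_lit
 160) (.nd (nat_lit 2384) (.br (nat_lit 12) (.ch (nat_lit 11) (.fin (nat_lit 576470098161123866))) (.ch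
 (nat_lit 12) (.ev (nat_lit 3380) (nat_lit 8) (.ev (nat_lit 3389) (nat_lit 4096) .dd)))))))))))))) (.br
 (nat_lit 10) (.br (nat_lit 9) (.ch (nat_lit 8) (.ev (nat_lit 432) (nat_lit 8) (.nd (nat_lit 1440) (.br
 (nat_lit 6) (.br (nat_lit 3) (.ch (nat_lit 2) (.ev (nat_lit 1456) (nat_lit 128) (.ev (nat_lit 1748) (nat_lit
 4096) (.ev (nat_lit 1757) (nat_lit 32) .dd)))) (.br (nat_lit 4) (.ch (nat_lit 3) (.ev (nat_lit 1456) (nat_lit
 4096) (.ev (nat_lit 1716) (nat_lit 32) (.ev (nat_lit 1725) (nat_lit 128) .dd)))) (.ch (nat_lit 4) (.ev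
 (nat_lit 1476) (nat_lit 128) (.nd (nat_lit 5904) (.br (nat_lit 8) (.br (nat_lit 3) (.ch (nat_lit 0) (.ev
 (nat_lit 5920) (nat_lit 4096) (.ev (nat_lit 5933) (nat_lit 32) .dd))) (.ch (nat_lit 3) (.ev (nat_lit 5920)
 (nat_lit 4128) .dd))) (.br (nat_lit 10) (.ch (nat_lit 8) (.fin (nat_lit 576456904007959101))) (.ch (nat_lit
 10) (.ev (nat_lit 5920) (nat_lit 32) (.ev (nat_lit 5933) (nat_lit 4096) .dd)))))))))) (.br (nat_lit 11) (.br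
 (nat_lit 8) (.ch (nat_lit 6) (.ev (nat_lit 1476) (nat_lit 4096) (.ev (nat_lit 3540) (nat_lit 128) (.ev
 (nat_lit 3549) (nat_lit 32) .dd)))) (.ch (nat_lit 8) (.ev (nat_lit 1456) (nat_lit 32) (.ev (nat_lit 1476)
 (nat_lit 128) (.ev (nat_lit 1485) (nat_lit 4096) .dd))))) (.br (nat_lit 12) (.ch (nat_lit 11) (.ev (nat_lit
 1456) (nat_lit 32) (.ev (nat_lit 1780) (nat_lit 4096) (.ev (nat_lit 1789) (nat_lit 128) .dd)))) (.ch (nat_lit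
 12) (.ev (nat_lit 1456) (nat_lit 4224) (.ev (nat_lit 1469) (nat_lit 32) .dd))))))))) (.ch (nat_lit 9) (.ev
 (nat_lit 432) (nat_lit 32) (.nd (nat_lit 896) (.br (nat_lit 7) (.br (nat_lit 2) (.br (nat_lit 1) (.ch (nat_lit
 0) (.ev (nat_lit 912) (nat_lit 8) (.ev (nat_lit 1828) (nat_lit 128) (.ev (nat_lit 1837) (nat_lit 4096) .dd))))
 (.ch (nat_lit 1) (.ev (nat_lit 912) (nat_lit 4096) (.ev (nat_lit 1696) (nat_lit 136) .dd)))) (.br (nat_lit 6)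
 (.ch (nat_lit 2) (.ev (nat_lit 912) (nat_lit 128) (.ev (nat_lit 1508) (nat_lit 4096) (.ev (nat_lit 1517)
 (nat_lit 8) .dd)))) (.ch (nat_lit 6) (.ev (nat_lit 912) (nat_lit 8) (.fin (nat_lit 576531670770336382))))))
 (.br (nat_lit 9) (.br (nat_lit 8) (.ch (nat_lit 7) (.ev (nat_lit 912) (nat_lit 128) (.ev (nat_lit 1332)
 (nat_lit 8) (.ev (nat_lit 1341) (nat_lit 4096) .dd)))) (.ch (nat_lit 8) (.ev (nat_lit 912) (nat_lit 4224) (.ev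
 (nat_lit 925) (nat_lit 8) .dd)))) (.br (nat_lit 10) (.ch (nat_lit 9) (.ev (nat_lit 912) (nat_lit 4224) (.ev
 (nat_lit 925) (nat_lit 8) .dd))) (.br (nat_lit 11) (.ch (nat_lit 10) (.ev (nat_lit 912) (nat_lit 8) (.ev
 (nat_lit 1492) (nat_lit 4096) (.ev (nat_lit 1501) (nat_lit 128) .dd)))) (.ch (nat_lit 11) (.ev (nat_lit 1716)
 (nat_lit 4096) (.ev (nat_lit 3588) (nat_lit 8) (.ev (nat_lit 3597) (nat_lit 128) .dd)))))))))))) (.br (nat_lit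
 11) (.ch (nat_lit 10) (.ev (nat_lit 432) (nat_lit 4096) (.nd (nat_lit 1440) (.br (nat_lit 7) (.br (nat_lit 3)
 (.ch (nat_lit 2) (.ev (nat_lit 1456) (nat_lit 160) (.ev (nat_lit 1469) (nat_lit 8) .dd))) (.br (nat_lit 6)
 (.ch (nat_lit 3) (.ev (nat_lit 1456) (nat_lit 128) (.fin (nat_lit 576442610373575219)))) (.ch (nat_lit 6) (.ev
 (nat_lit 1456) (nat_lit 32) (.ev (nat_lit 3764) (nat_lit 8) (.ev (nat_lit 3773) (nat_lit 128) .dd)))))) (.br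
 (nat_lit 11) (.br (nat_lit 10) (.ch (nat_lit 7) (.ev (nat_lit 1668) (nat_lit 32) (.ev (nat_lit 4676) (nat_lit
 8) (.ev (nat_lit 4685) (nat_lit 128) .dd)))) (.ch (nat_lit 10) (.ev (nat_lit 1456) (nat_lit 8) (.ev (nat_lit
 1492) (nat_lit 128) (.ev (nat_lit 1501) (nat_lit 32) .dd))))) (.br (nat_lit 12) (.ch (nat_lit 11) (.ev
 (nat_lit 1456) (nat_lit 128) (.ev (nat_lit 1476) (nat_lit 8) (.ev (nat_lit 1485) (nat_lit 32) .dd)))) (.ch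
 (nat_lit 12) (.ev (nat_lit 1456) (nat_lit 8) (.ev (nat_lit 3908) (nat_lit 32) (.ev (nat_lit 3917) (nat_lit
 128) .dd)))))))))) (.br (nat_lit 12) (.ch (nat_lit 11) (.ev (nat_lit 432) (nat_lit 4224) (.nd (nat_lit 960)
 (.br (nat_lit 5) (.br (nat_lit 1) (.ch (nat_lit 0) (.nd (nat_lit 2288) (.br (nat_lit 5) (.br (nat_lit 3) (.ch
 (nat_lit 2) (.ev (nat_lit 3316) (nat_lit 8) (.ev (nat_lit 3325) (nat_lit 32) .dd))) (.ch (nat_lit 3) (.ev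
 (nat_lit 3716) (nat_lit 8) (.ev (nat_lit 3725) (nat_lit 32) .dd)))) (.br (nat_lit 8) (.ch (nat_lit 5) (.ev
 (nat_lit 2304) (nat_lit 32) (.ev (nat_lit 2317) (nat_lit 8) .dd))) (.ch (nat_lit 8) (.ev (nat_lit 5012)
 (nat_lit 8) (.ev (nat_lit 5021) (nat_lit 32) .dd))))))) (.br (nat_lit 2) (.ch (nat_lit 1) (.nd (nat_lit 2544)
 (.br (nat_lit 6) (.br (nat_lit 3) (.ch (nat_lit 0) (.ev (nat_lit 4116) (nat_lit 32) (.ev (nat_lit 4125)
 (nat_lit 8) .dd))) (.br (nat_lit 5) (.ch (nat_lit 3) (.ev (nat_lit 2560) (nat_lit 40) .dd)) (.ch (nat_lit 5)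
 (.ev (nat_lit 2580) (nat_lit 8) (.ev (nat_lit 2589) (nat_lit 32) .dd))))) (.br (nat_lit 8) (.br (nat_lit 7)
 (.ch (nat_lit 6) (.ev (nat_lit 2948) (nat_lit 32) (.ev (nat_lit 2957) (nat_lit 8) .dd))) (.ch (nat_lit 7) (.ev
 (nat_lit 2560) (nat_lit 32) (.ev (nat_lit 2573) (nat_lit 8) .dd)))) (.br (nat_lit 9) (.ch (nat_lit 8) (.ev
 (nat_lit 2560) (nat_lit 32) (.ev (nat_lit 2573) (nat_lit 8) .dd))) (.ch (nat_lit 9) (.ev (nat_lit 4304)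
 (nat_lit 32) (.ev (nat_lit 4317) (nat_lit 8) .dd)))))))) (.ch (nat_lit 2) (.ev (nat_lit 976) (nat_lit 40)
 .dd)))) (.br (nat_lit 8) (.br (nat_lit 6) (.ch (nat_lit 5) (.nd (nat_lit 2544) (.br (nat_lit 6) (.br (nat_lit
 5) (.ch (nat_lit 1) (.ev (nat_lit 2560) (nat_lit 8) (.ev (nat_lit 2573) (nat_lit 32) .dd))) (.ch (nat_lit 5)
 (.ev (nat_lit 3972) (nat_lit 32) (.ev (nat_lit 3981) (nat_lit 8) .dd)))) (.br (nat_lit 12) (.ch (nat_lit 6)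
 (.ev (nat_lit 2596) (nat_lit 8) (.ev (nat_lit 2605) (nat_lit 32) .dd))) (.ch (nat_lit 12) (.nd (nat_lit 6304)
 (.br (nat_lit 11) (.ch (nat_lit 3) (.ev (nat_lit 6500) (nat_lit 32) (.ev (nat_lit 6509) (nat_lit 8) .dd)))
 (.ch (nat_lit 11) (.fin (nat_lit 576012701564093287)))))))))) (.ch (nat_lit 6) (.ev (nat_lit 976) (nat_lit 32)
 (.ev (nat_lit 989) (nat_lit 8) .dd)))) (.br (nat_lit 11) (.ch (nat_lit 8) (.ev (nat_lit 976) (nat_lit 40)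
 .dd)) (.ch (nat_lit 11) (.ev (nat_lit 996) (nat_lit 8) (.ev (nat_lit 1005) (nat_lit 32) .dd))))))))) (.ch
 (nat_lit 12) (.ev (nat_lit 432) (nat_lit 8) (.nd (nat_lit 960) (.br (nat_lit 6) (.br (nat_lit 3) (.br (nat_lit
 2) (.ch (nat_lit 0) (.ev (nat_lit 976) (nat_lit 4096) (.ev (nat_lit 1412) (nat_lit 32) (.ev (nat_lit 1421)
 (nat_lit 128) .dd)))) (.ch (nat_lit 2) (.nd (nat_lit 2144) (.br (nat_lit 7) (.br (nat_lit 5) (.ch (nat_lit 4)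
 (.ev (nat_lit 2160) (nat_lit 128) (.ev (nat_lit 3696) (nat_lit 4128) .dd))) (.ch (nat_lit 5) (.ev (nat_lit
 4580) (nat_lit 128) (.nd (nat_lit 6256) (.br (nat_lit 12) (.ch (nat_lit 4) (.ev (nat_lit 6272) (nat_lit 32)
 (.ev (nat_lit 6285) (nat_lit 4096) .dd))) (.ch (nat_lit 12) (.fin (nat_lit 576421719817274114)))))))) (.br
 (nat_lit 9) (.ch (nat_lit 7) (.ev (nat_lit 2160) (nat_lit 32) (.ev (nat_lit 2932) (nat_lit 4096) (.ev (nat_lit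
 2941) (nat_lit 128) .dd)))) (.ch (nat_lit 9) (.ev (nat_lit 2160) (nat_lit 128) (.ev (nat_lit 4724) (nat_lit
 32) (.ev (nat_lit 4733) (nat_lit 4096) .dd))))))))) (.br (nat_lit 4) (.ch (nat_lit 3) (.nd (nat_lit 2384) (.br
 (nat_lit 6) (.br (nat_lit 2) (.ch (nat_lit 1) (.ev (nat_lit 2400) (nat_lit 4096) (.ev (nat_lit 3972) (nat_lit
 128) (.ev (nat_lit 3981) (nat_lit 32) .dd)))) (.ch (nat_lit 2) (.ev (nat_lit 3972) (nat_lit 128) (.ev (nat_lit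
 4084) (nat_lit 32) (.ev (nat_lit 4093) (nat_lit 4096) .dd))))) (.br (nat_lit 10) (.ch (nat_lit 6) (.ev
 (nat_lit 2400) (nat_lit 32) (.ev (nat_lit 3972) (nat_lit 128) (.ev (nat_lit 3981) (nat_lit 4096) .dd)))) (.br
 (nat_lit 12) (.ch (nat_lit 10) (.ev (nat_lit 2400) (nat_lit 160) (.ev (nat_lit 2413) (nat_lit 4096) .dd)))
 (.ch (nat_lit 12) (.ev (nat_lit 2400) (nat_lit 4128) (.ev (nat_lit 2413) (nat_lit 128) .dd)))))))) (.ch
 (nat_lit 4) (.ev (nat_lit 976) (nat_lit 4096) (.ev (nat_lit 1156) (nat_lit 128) (.ev (nat_lit 1165) (nat_lit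
 32) .dd)))))) (.br (nat_lit 10) (.br (nat_lit 9) (.ch (nat_lit 6) (.ev (nat_lit 976) (nat_lit 4256) .dd)) (.ch
 (nat_lit 9) (.ev (nat_lit 976) (nat_lit 4128) (.ev (nat_lit 989) (nat_lit 128) .dd)))) (.br (nat_lit 11) (.ch
 (nat_lit 10) (.ev (nat_lit 976) (nat_lit 128) (.nd (nat_lit 2544) (.br (nat_lit 7) (.br (nat_lit 3) (.ch
 (nat_lit 1) (.ev (nat_lit 4324) (nat_lit 4096) (.ev (nat_lit 4333) (nat_lit 32) .dd))) (.br (nat_lit 6) (.ch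
 (nat_lit 3) (.ev (nat_lit 4916) (nat_lit 4096) (.ev (nat_lit 4925) (nat_lit 32) .dd))) (.ch (nat_lit 6) (.ev
 (nat_lit 3204) (nat_lit 4096) (.ev (nat_lit 3213) (nat_lit 32) .dd))))) (.br (nat_lit 8) (.ch (nat_lit 7) (.ev
 (nat_lit 4516) (nat_lit 4096) (.ev (nat_lit 4525) (nat_lit 32) .dd))) (.br (nat_lit 11) (.ch (nat_lit 8) (.ev
 (nat_lit 2560) (nat_lit 32) (.ev (nat_lit 2573) (nat_lit 4096) .dd))) (.ch (nat_lit 11) (.ev (nat_lit 2560)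
 (nat_lit 32) (.ev (nat_lit 2573) (nat_lit 4096) .dd))))))))) (.br (nat_lit 12) (.ch (nat_lit 11) (.ev (nat_lit
 976) (nat_lit 160) (.ev (nat_lit 989) (nat_lit 4096) .dd))) (.ch (nat_lit 12) (.ev (nat_lit 976) (nat_lit 160)
 (.ev (nat_lit 989) (nat_lit 4096) .dd))))))))))))))))) (.ch (nat_lit 6) (.ev (nat_lit 48) (nat_lit 8) (.nd
 (nat_lit 496) (.br (nat_lit 7) (.br (nat_lit 4) (.br (nat_lit 3) (.ch (nat_lit 1) (.ev (nat_lit 512) (nat_lit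
 16384) (.nd (nat_lit 896) (.br (nat_lit 7) (.br (nat_lit 5) (.br (nat_lit 1) (.ch (nat_lit 0) (.ev (nat_lit
 912) (nat_lit 64) (.ev (nat_lit 996) (nat_lit 128) (.nd (nat_lit 2240) (.br (nat_lit 8) (.ch (nat_lit 3) (.ev
 (nat_lit 3280) (nat_lit 4128) .dd)) (.ch (nat_lit 8) (.ev (nat_lit 2852) (nat_lit 4096) (.ev (nat_lit 2861)
 (nat_lit 32) .dd)))))))) (.ch (nat_lit 1) (.ev (nat_lit 912) (nat_lit 4256) (.ev (nat_lit 925) (nat_lit 64)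
 .dd)))) (.br (nat_lit 6) (.ch (nat_lit 5) (.ev (nat_lit 912) (nat_lit 96) (.nd (nat_lit 5632) (.ch (nat_lit 4)
 (.fin (nat_lit 576206215691321861)))))) (.ch (nat_lit 6) (.ev (nat_lit 912) (nat_lit 4096) (.nd (nat_lit 2240)
 (.br (nat_lit 4) (.br (nat_lit 3) (.ch (nat_lit 2) (.ev (nat_lit 2256) (nat_lit 64) (.ev (nat_lit 2500)
 (nat_lit 32) (.ev (nat_lit 2509) (nat_lit 128) .dd)))) (.ch (nat_lit 3) (.ev (nat_lit 2256) (nat_lit 64) (.ev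
 (nat_lit 2420) (nat_lit 32) (.ev (nat_lit 2429) (nat_lit 128) .dd))))) (.br (nat_lit 7) (.ch (nat_lit 4) (.ev
 (nat_lit 2256) (nat_lit 64) (.ev (nat_lit 3332) (nat_lit 128) (.ev (nat_lit 3341) (nat_lit 32) .dd)))) (.br
 (nat_lit 11) (.ch (nat_lit 7) (.ev (nat_lit 2256) (nat_lit 64) (.fin (nat_lit 576470098149589571)))) (.ch
 (nat_lit 11) (.ev (nat_lit 2256) (nat_lit 128) (.fin (nat_lit 576529471781683957)))))))))))) (.br (nat_lit 10)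
 (.br (nat_lit 9) (.ch (nat_lit 7) (.ev (nat_lit 912) (nat_lit 128) (.ev (nat_lit 2212) (nat_lit 32) (.nd
 (nat_lit 2384) (.br (nat_lit 7) (.br (nat_lit 4) (.ch (nat_lit 0) (.ev (nat_lit 2400) (nat_lit 64) (.ev
 (nat_lit 2413) (nat_lit 4096) .dd))) (.br (nat_lit 5) (.ch (nat_lit 4) (.ev (nat_lit 2400) (nat_lit 4096) (.ev
 (nat_lit 2413) (nat_lit 64) .dd))) (.ch (nat_lit 5) (.ev (nat_lit 2400) (nat_lit 4096) (.ev (nat_lit 2413)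
 (nat_lit 64) .dd))))) (.br (nat_lit 9) (.ch (nat_lit 7) (.nd (nat_lit 7408) (.br (nat_lit 6) (.ch (nat_lit 4)
 (.fin (nat_lit 576505282532164201))) (.br (nat_lit 8) (.ch (nat_lit 6) (.ev (nat_lit 7424) (nat_lit 4096) (.ev
 (nat_lit 7437) (nat_lit 64) .dd))) (.ch (nat_lit 8) (.ev (nat_lit 7424) (nat_lit 4096) (.ev (nat_lit 7437)
 (nat_lit 64) .dd))))))) (.br (nat_lit 11) (.ch (nat_lit 9) (.ev (nat_lit 2420) (nat_lit 64) (.ev (nat_lit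
 2429) (nat_lit 4096) .dd))) (.ch (nat_lit 11) (.ev (nat_lit 3268) (nat_lit 4096) (.ev (nat_lit 3277) (nat_lit
 64) .dd)))))))))) (.ch (nat_lit 9) (.nd (nat_lit 2544) (.br (nat_lit 8) (.br (nat_lit 2) (.ch (nat_lit 0) (.ev
 (nat_lit 2560) (nat_lit 192) (.ev (nat_lit 4208) (nat_lit 4128) .dd))) (.br (nat_lit 5) (.ch (nat_lit 2) (.ev
 (nat_lit 2560) (nat_lit 4224) (.ev (nat_lit 3668) (nat_lit 32) (.ev (nat_lit 3677) (nat_lit 64) .dd)))) (.ch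
 (nat_lit 5) (.ev (nat_lit 2560) (nat_lit 160) (.ev (nat_lit 3924) (nat_lit 4096) (.ev (nat_lit 3933) (nat_lit
 64) .dd)))))) (.br (nat_lit 10) (.ch (nat_lit 8) (.ev (nat_lit 2560) (nat_lit 4192) (.ev (nat_lit 2573)
 (nat_lit 128) .dd))) (.br (nat_lit 11) (.ch (nat_lit 10) (.ev (nat_lit 2560) (nat_lit 160) (.ev (nat_lit 4084)
 (nat_lit 64) (.ev (nat_lit 4093) (nat_lit 4096) .dd)))) (.ch (nat_lit 11) (.ev (nat_lit 2580) (nat_lit 64)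
 (.ev (nat_lit 3396) (nat_lit 128) (.ev (nat_lit 3668) (nat_lit 32) (.ev (nat_lit 3677) (nat_lit 4096)
 .dd))))))))))) (.br (nat_lit 11) (.ch (nat_lit 10) (.ev (nat_lit 912) (nat_lit 160) (.nd (nat_lit 2384) (.br
 (nat_lit 5) (.ch (nat_lit 4) (.ev (nat_lit 5092) (nat_lit 4096) (.ev (nat_lit 5101) (nat_lit 64) .dd))) (.ch
 (nat_lit 5) (.ev (nat_lit 2596) (nat_lit 64) (.ev (nat_lit 2605) (nat_lit 4096) .dd))))))) (.ch (nat_lit 11)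
 (.ev (nat_lit 912) (nat_lit 4160) (.nd (nat_lit 2992) (.br (nat_lit 9) (.br (nat_lit 8) (.ch (nat_lit 2) (.ev
 (nat_lit 3008) (nat_lit 128) (.ev (nat_lit 3021) (nat_lit 32) .dd))) (.ch (nat_lit 8) (.ev (nat_lit 3008)
 (nat_lit 128) (.ev (nat_lit 3021) (nat_lit 32) .dd)))) (.br (nat_lit 12) (.ch (nat_lit 9) (.ev (nat_lit 3236)
 (nat_lit 32) (.ev (nat_lit 3245) (nat_lit 128) .dd))) (.ch (nat_lit 12) (.ev (nat_lit 3236) (nat_lit 32) (.ev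
 (nat_lit 3245) (nat_lit 128) .dd)))))))))))))) (.ch (nat_lit 3) (.ev (nat_lit 512) (nat_lit 16608) (.ev
 (nat_lit 525) (nat_lit 4096) .dd)))) (.br (nat_lit 6) (.ch (nat_lit 4) (.ev (nat_lit 512) (nat_lit 160) (.nd
 (nat_lit 1040) (.br (nat_lit 6) (.br (nat_lit 3) (.ch (nat_lit 2) (.nd (nat_lit 2992) (.br (nat_lit 5) (.br
 (nat_lit 2) (.ch (nat_lit 0) (.ev (nat_lit 3124) (nat_lit 64) (.ev (nat_lit 3840) (nat_lit 16384) (.ev
 (nat_lit 3853) (nat_lit 4096) .dd)))) (.ch (nat_lit 2) (.ev (nat_lit 3008) (nat_lit 16384) (.ev (nat_lit 3172)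
 (nat_lit 64) (.ev (nat_lit 3181) (nat_lit 4096) .dd))))) (.br (nat_lit 8) (.ch (nat_lit 5) (.ev (nat_lit 3716)
 (nat_lit 4096) (.nd (nat_lit 6832) (.br (nat_lit 7) (.ch (nat_lit 0) (.fin (nat_lit 577235359747228750))) (.br
 (nat_lit 11) (.ch (nat_lit 7) (.ev (nat_lit 6868) (nat_lit 16384) (.ev (nat_lit 6877) (nat_lit 64) .dd))) (.ch
 (nat_lit 11) (.ev (nat_lit 6848) (nat_lit 16448) .dd))))))) (.br (nat_lit 12) (.ch (nat_lit 8) (.ev (nat_lit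
 3008) (nat_lit 64) (.nd (nat_lit 6080) (.br (nat_lit 2) (.ch (nat_lit 1) (.ev (nat_lit 6244) (nat_lit 16384)
 (.ev (nat_lit 6253) (nat_lit 4096) .dd))) (.ch (nat_lit 2) (.fin (nat_lit 576461301594145406))))))) (.ch
 (nat_lit 12) (.ev (nat_lit 3008) (nat_lit 4096) (.ev (nat_lit 3172) (nat_lit 64) (.ev (nat_lit 3181) (nat_lit
 16384) .dd))))))))) (.br (nat_lit 4) (.ch (nat_lit 3) (.nd (nat_lit 3088) (.br (nat_lit 10) (.ch (nat_lit 6)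
 (.ev (nat_lit 3828) (nat_lit 16384) (.ev (nat_lit 4016) (nat_lit 4160) .dd))) (.br (nat_lit 11) (.ch (nat_lit
 10) (.ev (nat_lit 3236) (nat_lit 16384) (.ev (nat_lit 3940) (nat_lit 64) (.ev (nat_lit 3949) (nat_lit 4096)
 .dd)))) (.ch (nat_lit 11) (.ev (nat_lit 3940) (nat_lit 64) (.ev (nat_lit 4724) (nat_lit 4096) (.ev (nat_lit
 4733) (nat_lit 16384) .dd)))))))) (.ch (nat_lit 4) (.nd (nat_lit 2896) (.br (nat_lit 9) (.br (nat_lit 1) (.ch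
 (nat_lit 0) (.ev (nat_lit 2912) (nat_lit 16384) (.ev (nat_lit 4228) (nat_lit 4096) (.ev (nat_lit 4237)
 (nat_lit 64) .dd)))) (.br (nat_lit 3) (.ch (nat_lit 1) (.ev (nat_lit 2912) (nat_lit 16448) (.ev (nat_lit 2925)
 (nat_lit 4096) .dd))) (.ch (nat_lit 3) (.ev (nat_lit 2912) (nat_lit 20480) (.ev (nat_lit 2925) (nat_lit 64)
 .dd))))) (.br (nat_lit 11) (.ch (nat_lit 9) (.ev (nat_lit 2912) (nat_lit 64) (.ev (nat_lit 4228) (nat_lit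
 4096) (.ev (nat_lit 4237) (nat_lit 16384) .dd)))) (.br (nat_lit 12) (.ch (nat_lit 11) (.ev (nat_lit 2912)
 (nat_lit 16384) (.fin (nat_lit 576452505905873406)))) (.ch (nat_lit 12) (.ev (nat_lit 3828) (nat_lit 64) (.ev
 (nat_lit 4228) (nat_lit 4096) (.ev (nat_lit 4237) (nat_lit 16384) .dd))))))))))) (.br (nat_lit 9) (.br
 (nat_lit 7) (.ch (nat_lit 6) (.ev (nat_lit 1056) (nat_lit 4096) (.nd (nat_lit 3632) (.br (nat_lit 2) (.ch
 (nat_lit 1) (.ev (nat_lit 3648) (nat_lit 16384) (.ev (nat_lit 3661) (nat_lit 64) .dd))) (.br (nat_lit 11) (.ch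
 (nat_lit 2) (.ev (nat_lit 3728) (nat_lit 64) (.ev (nat_lit 3741) (nat_lit 16384) .dd))) (.ch (nat_lit 11) (.ev
 (nat_lit 3648) (nat_lit 64) (.ev (nat_lit 3661) (nat_lit 16384) .dd)))))))) (.ch (nat_lit 7) (.ev (nat_lit
 1056) (nat_lit 16448) (.ev (nat_lit 1069) (nat_lit 4096) .dd)))) (.br (nat_lit 10) (.ch (nat_lit 9) (.ev
 (nat_lit 1056) (nat_lit 64) (.ev (nat_lit 1332) (nat_lit 4096) (.ev (nat_lit 1341) (nat_lit 16384) .dd))))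
 (.ch (nat_lit 10) (.ev (nat_lit 1056) (nat_lit 20480) (.ev (nat_lit 1069) (nat_lit 64) .dd))))))))) (.ch
 (nat_lit 6) (.ev (nat_lit 512) (nat_lit 16480) (.nd (nat_lit 1440) (.br (nat_lit 9) (.ch (nat_lit 7) (.fin
 (nat_lit 576353549795410417))) (.ch (nat_lit 9) (.ev (nat_lit 1924) (nat_lit 128) (.ev (nat_lit 1933) (nat_lit
 4096) .dd))))))))) (.br (nat_lit 10) (.br (nat_lit 9) (.ch (nat_lit 7) (.ev (nat_lit 512) (nat_lit 4160) (.nd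
 (nat_lit 960) (.br (nat_lit 6) (.br (nat_lit 3) (.br (nat_lit 2) (.ch (nat_lit 1) (.ev (nat_lit 976) (nat_lit
 16512) (.ev (nat_lit 989) (nat_lit 32) .dd))) (.ch (nat_lit 2) (.ev (nat_lit 976) (nat_lit 32) (.ev (nat_lit
 996) (nat_lit 128) (.ev (nat_lit 1005) (nat_lit 16384) .dd))))) (.br (nat_lit 5) (.ch (nat_lit 3) (.ev
 (nat_lit 976) (nat_lit 32) (.ev (nat_lit 996) (nat_lit 128) (.ev (nat_lit 1005) (nat_lit 16384) .dd)))) (.ch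
 (nat_lit 5) (.nd (nat_lit 4176) (.br (nat_lit 7) (.br (nat_lit 3) (.ch (nat_lit 1) (.ev (nat_lit 4192)
 (nat_lit 32) (.ev (nat_lit 4708) (nat_lit 16384) (.ev (nat_lit 4717) (nat_lit 128) .dd)))) (.br (nat_lit 5)
 (.ch (nat_lit 3) (.ev (nat_lit 4192) (nat_lit 16416) (.ev (nat_lit 4205) (nat_lit 128) .dd))) (.ch (nat_lit 5)
 (.ev (nat_lit 4192) (nat_lit 16384) (.ev (nat_lit 4228) (nat_lit 32) (.ev (nat_lit 4237) (nat_lit 128)
 .dd)))))) (.br (nat_lit 11) (.ch (nat_lit 7) (.ev (nat_lit 4192) (nat_lit 16416) (.ev (nat_lit 4205) (nat_lit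
 128) .dd))) (.br (nat_lit 12) (.ch (nat_lit 11) (.ev (nat_lit 4192) (nat_lit 16512) (.ev (nat_lit 4205)
 (nat_lit 32) .dd))) (.ch (nat_lit 12) (.ev (nat_lit 4192) (nat_lit 128) (.ev (nat_lit 4228) (nat_lit 32) (.ev
 (nat_lit 4237) (nat_lit 16384) .dd))))))))))) (.br (nat_lit 11) (.br (nat_lit 9) (.ch (nat_lit 6) (.ev
 (nat_lit 976) (nat_lit 16512) (.ev (nat_lit 989) (nat_lit 32) .dd))) (.ch (nat_lit 9) (.ev (nat_lit 976)
 (nat_lit 16416) (.ev (nat_lit 989) (nat_lit 128) .dd)))) (.br (nat_lit 12) (.ch (nat_lit 11) (.ev (nat_lit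
 1332) (nat_lit 16416) (.ev (nat_lit 1341) (nat_lit 128) .dd))) (.ch (nat_lit 12) (.ev (nat_lit 976) (nat_lit
 16384) (.nd (nat_lit 4432) (.br (nat_lit 8) (.br (nat_lit 6) (.ch (nat_lit 4) (.ev (nat_lit 4468) (nat_lit
 128) (.ev (nat_lit 4477) (nat_lit 32) .dd))) (.ch (nat_lit 6) (.ev (nat_lit 4448) (nat_lit 128) (.ev (nat_lit
 4461) (nat_lit 32) .dd)))) (.br (nat_lit 12) (.ch (nat_lit 8) (.ev (nat_lit 4676) (nat_lit 128) (.ev (nat_lit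
 4685) (nat_lit 32) .dd))) (.ch (nat_lit 12) (.ev (nat_lit 4468) (nat_lit 128) (.ev (nat_lit 4477) (nat_lit 32)
 .dd)))))))))))))) (.ch (nat_lit 9) (.ev (nat_lit 512) (nat_lit 32) (.nd (nat_lit 784) (.br (nat_lit 5) (.br
 (nat_lit 2) (.ch (nat_lit 1) (.ev (nat_lit 800) (nat_lit 128) (.nd (nat_lit 2240) (.br (nat_lit 9) (.br
 (nat_lit 8) (.ch (nat_lit 3) (.ev (nat_lit 2256) (nat_lit 16384) (.ev (nat_lit 2276) (nat_lit 64) (.ev
 (nat_lit 2285) (nat_lit 4096) .dd)))) (.ch (nat_lit 8) (.ev (nat_lit 2256) (nat_lit 4096) (.ev (nat_lit 3876)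
 (nat_lit 16384) (.ev (nat_lit 3885) (nat_lit 64) .dd))))) (.br (nat_lit 11) (.ch (nat_lit 9) (.ev (nat_lit
 2256) (nat_lit 64) (.ev (nat_lit 3776) (nat_lit 20480) .dd))) (.ch (nat_lit 11) (.ev (nat_lit 2256) (nat_lit
 64) (.ev (nat_lit 3876) (nat_lit 16384) (.ev (nat_lit 3885) (nat_lit 4096) .dd))))))))) (.br (nat_lit 3) (.ch
 (nat_lit 2) (.ev (nat_lit 1284) (nat_lit 4096) (.nd (nat_lit 2544) (.br (nat_lit 10) (.br (nat_lit 6) (.ch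
 (nat_lit 0) (.ev (nat_lit 2560) (nat_lit 64) (.ev (nat_lit 3124) (nat_lit 16384) (.ev (nat_lit 3133) (nat_lit
 128) .dd)))) (.ch (nat_lit 6) (.ev (nat_lit 2560) (nat_lit 16512) (.ev (nat_lit 2573) (nat_lit 64) .dd))))
 (.br (nat_lit 11) (.ch (nat_lit 10) (.ev (nat_lit 2560) (nat_lit 128) (.ev (nat_lit 3716) (nat_lit 16384) (.ev
 (nat_lit 3725) (nat_lit 64) .dd)))) (.br (nat_lit 12) (.ch (nat_lit 11) (.ev (nat_lit 2560) (nat_lit 16448)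
 (.ev (nat_lit 2573) (nat_lit 128) .dd))) (.ch (nat_lit 12) (.ev (nat_lit 2560) (nat_lit 16448) (.ev (nat_lit
 2573) (nat_lit 128) .dd))))))))) (.ch (nat_lit 3) (.ev (nat_lit 800) (nat_lit 16512) (.nd (nat_lit 2384) (.br
 (nat_lit 7) (.ch (nat_lit 4) (.ev (nat_lit 3172) (nat_lit 4096) (.ev (nat_lit 3181) (nat_lit 64) .dd))) (.br
 (nat_lit 9) (.ch (nat_lit 7) (.ev (nat_lit 2468) (nat_lit 64) (.ev (nat_lit 2477) (nat_lit 4096) .dd))) (.ch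
 (nat_lit 9) (.ev (nat_lit 3172) (nat_lit 4096) (.ev (nat_lit 3181) (nat_lit 64) .dd)))))))))) (.br (nat_lit
 10) (.br (nat_lit 7) (.ch (nat_lit 5) (.ev (nat_lit 800) (nat_lit 4096) (.nd (nat_lit 2288) (.br (nat_lit 10)
 (.ch (nat_lit 8) (.ev (nat_lit 3124) (nat_lit 16384) (.ev (nat_lit 3428) (nat_lit 64) (.ev (nat_lit 3437)
 (nat_lit 128) .dd)))) (.br (nat_lit 11) (.ch (nat_lit 10) (.ev (nat_lit 2324) (nat_lit 64) (.ev (nat_lit 3828)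
 (nat_lit 16384) (.ev (nat_lit 3837) (nat_lit 128) .dd)))) (.ch (nat_lit 11) (.ev (nat_lit 2304) (nat_lit
 16384) (.ev (nat_lit 4692) (nat_lit 128) (.ev (nat_lit 4701) (nat_lit 64) .dd))))))))) (.ch (nat_lit 7) (.ev
 (nat_lit 800) (nat_lit 16448) (.ev (nat_lit 1156) (nat_lit 4096) (.ev (nat_lit 1165) (nat_lit 128) .dd)))))
 (.br (nat_lit 12) (.ch (nat_lit 10) (.ev (nat_lit 800) (nat_lit 4096) (.ev (nat_lit 1348) (nat_lit 16384) (.ev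
 (nat_lit 2036) (nat_lit 64) (.ev (nat_lit 2045) (nat_lit 128) .dd))))) (.ch (nat_lit 12) (.ev (nat_lit 800)
 (nat_lit 64) (.ev (nat_lit 1156) (nat_lit 4096) (.ev (nat_lit 1364) (nat_lit 16384) (.ev (nat_lit 1373)
 (nat_lit 128) .dd)))))))))))) (.br (nat_lit 11) (.ch (nat_lit 10) (.ev (nat_lit 512) (nat_lit 20544) (.nd
 (nat_lit 1632) (.br (nat_lit 4) (.br (nat_lit 2) (.ch (nat_lit 0) (.ev (nat_lit 1648) (nat_lit 32) (.ev
 (nat_lit 1661) (nat_lit 128) .dd))) (.ch (nat_lit 2) (.ev (nat_lit 1680) (nat_lit 160) .dd))) (.br (nat_lit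
 10) (.ch (nat_lit 4) (.ev (nat_lit 1648) (nat_lit 128) (.ev (nat_lit 1661) (nat_lit 32) .dd))) (.ch (nat_lit
 10) (.fin (nat_lit 576487690345071194)))))))) (.br (nat_lit 12) (.ch (nat_lit 11) (.ev (nat_lit 512) (nat_lit
 4096) (.nd (nat_lit 1040) (.br (nat_lit 8) (.br (nat_lit 5) (.br (nat_lit 2) (.ch (nat_lit 1) (.ev (nat_lit
 1056) (nat_lit 128) (.nd (nat_lit 3632) (.br (nat_lit 6) (.ch (nat_lit 5) (.ev (nat_lit 4240) (nat_lit 64)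
 (.ev (nat_lit 4484) (nat_lit 16384) (.ev (nat_lit 4493) (nat_lit 32) .dd)))) (.ch (nat_lit 6) (.ev (nat_lit
 3648) (nat_lit 32) (.ev (nat_lit 4676) (nat_lit 16384) (.ev (nat_lit 4685) (nat_lit 64) .dd)))))))) (.ch
 (nat_lit 2) (.ev (nat_lit 1056) (nat_lit 32) (.ev (nat_lit 2772) (nat_lit 16384) (.ev (nat_lit 4324) (nat_lit
 128) (.ev (nat_lit 4333) (nat_lit 64) .dd)))))) (.br (nat_lit 7) (.ch (nat_lit 5) (.ev (nat_lit 1056) (nat_lit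
 64) (.ev (nat_lit 1156) (nat_lit 128) (.ev (nat_lit 1252) (nat_lit 32) (.ev (nat_lit 1261) (nat_lit 16384)
 .dd))))) (.ch (nat_lit 7) (.ev (nat_lit 1056) (nat_lit 160) (.ev (nat_lit 1252) (nat_lit 64) (.ev (nat_lit
 1261) (nat_lit 16384) .dd)))))) (.br (nat_lit 11) (.br (nat_lit 9) (.ch (nat_lit 8) (.ev (nat_lit 1056)
 (nat_lit 16448) (.nd (nat_lit 3088) (.br (nat_lit 7) (.br (nat_lit 5) (.ch (nat_lit 0) (.ev (nat_lit 3104)
 (nat_lit 128) (.ev (nat_lit 3117) (nat_lit 32) .dd))) (.ch (nat_lit 5) (.nd (nat_lit 6128) (.br (nat_lit 7)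
 (.ch (nat_lit 0) (.fin (nat_lit 576118254293434538))) (.ch (nat_lit 7) (.ev (nat_lit 6144) (nat_lit 128) (.ev
 (nat_lit 6157) (nat_lit 32) .dd))))))) (.br (nat_lit 9) (.ch (nat_lit 7) (.ev (nat_lit 3124) (nat_lit 32) (.ev
 (nat_lit 3133) (nat_lit 128) .dd))) (.ch (nat_lit 9) (.ev (nat_lit 4240) (nat_lit 32) (.ev (nat_lit 4253)
 (nat_lit 128) .dd)))))))) (.ch (nat_lit 9) (.ev (nat_lit 1056) (nat_lit 128) (.ev (nat_lit 1252) (nat_lit 32)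
 (.nd (nat_lit 4544) (.br (nat_lit 6) (.ch (nat_lit 5) (.ev (nat_lit 4560) (nat_lit 16448) .dd)) (.br (nat_lit
 8) (.ch (nat_lit 6) (.fin (nat_lit 576619631771861222))) (.ch (nat_lit 8) (.ev (nat_lit 4560) (nat_lit 16448)
 .dd))))))))) (.br (nat_lit 12) (.ch (nat_lit 11) (.ev (nat_lit 1056) (nat_lit 16384) (.ev (nat_lit 1348)
 (nat_lit 64) (.ev (nat_lit 1572) (nat_lit 32) (.ev (nat_lit 1581) (nat_lit 128) .dd))))) (.ch (nat_lit 12)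
 (.ev (nat_lit 1056) (nat_lit 96) (.ev (nat_lit 1172) (nat_lit 128) (.ev (nat_lit 1181) (nat_lit 16384)
 .dd)))))))))) (.ch (nat_lit 12) (.ev (nat_lit 512) (nat_lit 128) (.nd (nat_lit 1216) (.br (nat_lit 7) (.br
 (nat_lit 2) (.ch (nat_lit 0) (.ev (nat_lit 1232) (nat_lit 16416) (.ev (nat_lit 1732) (nat_lit 4096) (.ev
 (nat_lit 1741) (nat_lit 64) .dd)))) (.br (nat_lit 3) (.ch (nat_lit 2) (.ev (nat_lit 1492) (nat_lit 16384) (.ev
 (nat_lit 1764) (nat_lit 4096) (.nd (nat_lit 5280) (.br (nat_lit 7) (.br (nat_lit 5) (.ch (nat_lit 4) (.ev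
 (nat_lit 5296) (nat_lit 64) (.ev (nat_lit 5309) (nat_lit 32) .dd))) (.ch (nat_lit 5) (.ev (nat_lit 5316)
 (nat_lit 64) (.ev (nat_lit 5325) (nat_lit 32) .dd)))) (.br (nat_lit 10) (.ch (nat_lit 7) (.fin (nat_lit
 576769165156106739))) (.ch (nat_lit 10) (.ev (nat_lit 5296) (nat_lit 32) (.ev (nat_lit 5309) (nat_lit 64)
 .dd))))))))) (.ch (nat_lit 3) (.ev (nat_lit 1232) (nat_lit 20480) (.ev (nat_lit 1716) (nat_lit 32) (.ev
 (nat_lit 1725) (nat_lit 64) .dd)))))) (.br (nat_lit 10) (.ch (nat_lit 7) (.ev (nat_lit 1332) (nat_lit 64) (.ev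
 (nat_lit 1716) (nat_lit 32) (.nd (nat_lit 5152) (.br (nat_lit 11) (.br (nat_lit 4) (.ch (nat_lit 1) (.fin
 (nat_lit 576760369214081302))) (.ch (nat_lit 4) (.ev (nat_lit 5168) (nat_lit 4096) (.ev (nat_lit 5181)
 (nat_lit 16384) .dd)))) (.br (nat_lit 12) (.ch (nat_lit 11) (.ev (nat_lit 5168) (nat_lit 20480) .dd)) (.ch
 (nat_lit 12) (.ev (nat_lit 5268) (nat_lit 16384) (.ev (nat_lit 5277) (nat_lit 4096) .dd))))))))) (.br (nat_lit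
 12) (.ch (nat_lit 10) (.ev (nat_lit 1232) (nat_lit 96) (.nd (nat_lit 5280) (.br (nat_lit 4) (.ch (nat_lit 3)
 (.ev (nat_lit 5380) (nat_lit 4096) (.ev (nat_lit 5389) (nat_lit 16384) .dd))) (.ch (nat_lit 4) (.ev (nat_lit
 5316) (nat_lit 16384) (.ev (nat_lit 5325) (nat_lit 4096) .dd))))))) (.ch (nat_lit 12) (.ev (nat_lit 1232)
 (nat_lit 16416) (.nd (nat_lit 5328) (.br (nat_lit 6) (.ch (nat_lit 3) (.ev (nat_lit 5428) (nat_lit 64) (.ev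
 (nat_lit 5437) (nat_lit 4096) .dd))) (.ch (nat_lit 6) (.fin (nat_lit 576470098144346686)))))))))))))))))))))
 (.br (nat_lit 10) (.ch (nat_lit 9) (.ev (nat_lit 48) (nat_lit 20480) (.nd (nat_lit 240) (.br (nat_lit 8) (.br
 (nat_lit 5) (.br (nat_lit 3) (.ch (nat_lit 0) (.ev (nat_lit 256) (nat_lit 136) (.nd (nat_lit 1296) (.br
 (nat_lit 5) (.br (nat_lit 3) (.br (nat_lit 1) (.ch (nat_lit 0) (.ev (nat_lit 3572) (nat_lit 32) (.ev (nat_lit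
 3581) (nat_lit 64) .dd))) (.ch (nat_lit 1) (.ev (nat_lit 1312) (nat_lit 96) .dd))) (.br (nat_lit 4) (.ch
 (nat_lit 3) (.ev (nat_lit 1312) (nat_lit 64) (.ev (nat_lit 1325) (nat_lit 32) .dd))) (.ch (nat_lit 4) (.ev
 (nat_lit 1332) (nat_lit 64) (.ev (nat_lit 1341) (nat_lit 32) .dd))))) (.br (nat_lit 7) (.br (nat_lit 6) (.ch
 (nat_lit 5) (.ev (nat_lit 1508) (nat_lit 32) (.ev (nat_lit 1517) (nat_lit 64) .dd))) (.ch (nat_lit 6) (.ev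
 (nat_lit 1312) (nat_lit 32) (.ev (nat_lit 1325) (nat_lit 64) .dd)))) (.br (nat_lit 8) (.ch (nat_lit 7) (.ev
 (nat_lit 1716) (nat_lit 64) (.ev (nat_lit 1725) (nat_lit 32) .dd))) (.br (nat_lit 11) (.ch (nat_lit 8) (.ev
 (nat_lit 1312) (nat_lit 32) (.ev (nat_lit 1325) (nat_lit 64) .dd))) (.ch (nat_lit 11) (.ev (nat_lit 1312)
 (nat_lit 96) .dd))))))))) (.ch (nat_lit 3) (.ev (nat_lit 256) (nat_lit 64) (.nd (nat_lit 784) (.br (nat_lit 4)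
 (.br (nat_lit 2) (.ch (nat_lit 1) (.nd (nat_lit 2240) (.br (nat_lit 7) (.ch (nat_lit 3) (.ev (nat_lit 3668)
 (nat_lit 128) (.ev (nat_lit 3764) (nat_lit 32) (.ev (nat_lit 3773) (nat_lit 8) .dd)))) (.br (nat_lit 10) (.ch
 (nat_lit 7) (.ev (nat_lit 4724) (nat_lit 8) (.nd (nat_lit 6304) (.br (nat_lit 4) (.ch (nat_lit 1) (.ev
 (nat_lit 6340) (nat_lit 32) (.ev (nat_lit 6349) (nat_lit 128) .dd))) (.br (nat_lit 7) (.ch (nat_lit 4) (.ev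
 (nat_lit 6320) (nat_lit 128) (.ev (nat_lit 6333) (nat_lit 32) .dd))) (.ch (nat_lit 7) (.fin (nat_lit
 576324962559148774)))))))) (.ch (nat_lit 10) (.ev (nat_lit 2256) (nat_lit 128) (.ev (nat_lit 4724) (nat_lit 8)
 (.ev (nat_lit 4733) (nat_lit 32) .dd)))))))) (.br (nat_lit 3) (.ch (nat_lit 2) (.ev (nat_lit 800) (nat_lit
 136) (.ev (nat_lit 813) (nat_lit 32) .dd))) (.ch (nat_lit 3) (.ev (nat_lit 800) (nat_lit 160) (.ev (nat_lit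
 813) (nat_lit 8) .dd))))) (.br (nat_lit 6) (.br (nat_lit 5) (.ch (nat_lit 4) (.ev (nat_lit 800) (nat_lit 40)
 (.ev (nat_lit 813) (nat_lit 128) .dd))) (.ch (nat_lit 5) (.nd (nat_lit 2288) (.br (nat_lit 5) (.br (nat_lit 3)
 (.ch (nat_lit 0) (.ev (nat_lit 2304) (nat_lit 160) (.ev (nat_lit 2317) (nat_lit 8) .dd))) (.ch (nat_lit 3)
 (.ev (nat_lit 3908) (nat_lit 128) (.ev (nat_lit 3952) (nat_lit 40) .dd)))) (.br (nat_lit 6) (.ch (nat_lit 5)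
 (.ev (nat_lit 2304) (nat_lit 8) (.ev (nat_lit 2704) (nat_lit 160) .dd))) (.br (nat_lit 9) (.ch (nat_lit 6)
 (.ev (nat_lit 2304) (nat_lit 128) (.ev (nat_lit 4004) (nat_lit 32) (.ev (nat_lit 4013) (nat_lit 8) .dd))))
 (.ch (nat_lit 9) (.ev (nat_lit 2304) (nat_lit 136) (.ev (nat_lit 2317) (nat_lit 32) .dd))))))))) (.br (nat_lit
 7) (.ch (nat_lit 6) (.ev (nat_lit 800) (nat_lit 40) (.ev (nat_lit 813) (nat_lit 128) .dd))) (.ch (nat_lit 7)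
 (.nd (nat_lit 2784) (.br (nat_lit 5) (.br (nat_lit 3) (.ch (nat_lit 0) (.ev (nat_lit 2800) (nat_lit 128) (.ev
 (nat_lit 4884) (nat_lit 8) (.ev (nat_lit 4893) (nat_lit 32) .dd)))) (.ch (nat_lit 3) (.ev (nat_lit 2800)
 (nat_lit 8) (.ev (nat_lit 4484) (nat_lit 128) (.ev (nat_lit 4493) (nat_lit 32) .dd))))) (.br (nat_lit 7) (.ch
 (nat_lit 5) (.ev (nat_lit 4256) (nat_lit 32) (.ev (nat_lit 4628) (nat_lit 8) (.ev (nat_lit 4637) (nat_lit 128)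
 .dd)))) (.br (nat_lit 9) (.ch (nat_lit 7) (.ev (nat_lit 3172) (nat_lit 32) (.ev (nat_lit 3840) (nat_lit 8)
 (.ev (nat_lit 3853) (nat_lit 128) .dd)))) (.ch (nat_lit 9) (.ev (nat_lit 2800) (nat_lit 32) (.ev (nat_lit
 4500) (nat_lit 128) (.ev (nat_lit 4509) (nat_lit 8) .dd)))))))))))))))) (.br (nat_lit 6) (.ch (nat_lit 5) (.ev
 (nat_lit 256) (nat_lit 160) (.nd (nat_lit 1632) (.br (nat_lit 6) (.br (nat_lit 4) (.ch (nat_lit 3) (.ev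
 (nat_lit 1648) (nat_lit 72) .dd)) (.br (nat_lit 5) (.ch (nat_lit 4) (.ev (nat_lit 1668) (nat_lit 8) (.ev
 (nat_lit 1677) (nat_lit 64) .dd))) (.ch (nat_lit 5) (.ev (nat_lit 1668) (nat_lit 64) (.ev (nat_lit 1677)
 (nat_lit 8) .dd))))) (.br (nat_lit 10) (.ch (nat_lit 6) (.ev (nat_lit 1648) (nat_lit 64) (.ev (nat_lit 1661)
 (nat_lit 8) .dd))) (.br (nat_lit 11) (.ch (nat_lit 10) (.nd (nat_lit 5792) (.br (nat_lit 7) (.br (nat_lit 6)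
 (.ch (nat_lit 0) (.ev (nat_lit 5808) (nat_lit 72) .dd)) (.ch (nat_lit 6) (.ev (nat_lit 5808) (nat_lit 64) (.ev
 (nat_lit 5821) (nat_lit 8) .dd)))) (.br (nat_lit 12) (.ch (nat_lit 7) (.fin (nat_lit 576390933571388259)))
 (.ch (nat_lit 12) (.ev (nat_lit 5808) (nat_lit 8) (.ev (nat_lit 5821) (nat_lit 64) .dd))))))) (.ch (nat_lit
 11) (.ev (nat_lit 1668) (nat_lit 8) (.ev (nat_lit 1677) (nat_lit 64) .dd))))))))) (.ch (nat_lit 6) (.ev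
 (nat_lit 256) (nat_lit 96) (.nd (nat_lit 1296) (.br (nat_lit 5) (.br (nat_lit 2) (.ch (nat_lit 0) (.nd
 (nat_lit 5440) (.br (nat_lit 9) (.ch (nat_lit 5) (.nd (nat_lit 7824) (.br (nat_lit 3) (.ch (nat_lit 0) (.ev
 (nat_lit 7840) (nat_lit 8) (.ev (nat_lit 7853) (nat_lit 128) .dd))) (.br (nat_lit 8) (.ch (nat_lit 3) (.ev
 (nat_lit 7840) (nat_lit 8) (.ev (nat_lit 7853) (nat_lit 128) .dd))) (.ch (nat_lit 8) (.fin (nat_lit
 576443709884154388))))))) (.ch (nat_lit 9) (.ev (nat_lit 5456) (nat_lit 128) (.ev (nat_lit 5469) (nat_lit 8)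
 .dd)))))) (.br (nat_lit 3) (.ch (nat_lit 2) (.ev (nat_lit 1540) (nat_lit 128) (.ev (nat_lit 1549) (nat_lit 8)
 .dd))) (.ch (nat_lit 3) (.ev (nat_lit 1492) (nat_lit 128) (.ev (nat_lit 1501) (nat_lit 8) .dd))))) (.br
 (nat_lit 7) (.br (nat_lit 6) (.ch (nat_lit 5) (.ev (nat_lit 1312) (nat_lit 136) .dd)) (.ch (nat_lit 6) (.ev
 (nat_lit 1312) (nat_lit 128) (.ev (nat_lit 1325) (nat_lit 8) .dd)))) (.br (nat_lit 11) (.ch (nat_lit 7) (.ev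
 (nat_lit 1332) (nat_lit 8) (.ev (nat_lit 1341) (nat_lit 128) .dd))) (.ch (nat_lit 11) (.ev (nat_lit 1312)
 (nat_lit 128) (.ev (nat_lit 1325) (nat_lit 8) .dd))))))))))) (.br (nat_lit 10) (.br (nat_lit 9) (.ch (nat_lit
 8) (.ev (nat_lit 256) (nat_lit 232) .dd)) (.ch (nat_lit 9) (.nd (nat_lit 896) (.br (nat_lit 5) (.br (nat_lit
 2) (.br (nat_lit 1) (.ch (nat_lit 0) (.ev (nat_lit 912) (nat_lit 32) (.nd (nat_lit 2288) (.br (nat_lit 8) (.br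
 (nat_lit 1) (.ch (nat_lit 0) (.ev (nat_lit 2420) (nat_lit 128) (.ev (nat_lit 4132) (nat_lit 64) (.ev (nat_lit
 4141) (nat_lit 8) .dd)))) (.br (nat_lit 3) (.ch (nat_lit 1) (.ev (nat_lit 2964) (nat_lit 64) (.nd (nat_lit
 6048) (.br (nat_lit 12) (.ch (nat_lit 8) (.ev (nat_lit 6064) (nat_lit 128) (.ev (nat_lit 6077) (nat_lit 8)
 .dd))) (.ch (nat_lit 12) (.fin (nat_lit 576473396703347273))))))) (.ch (nat_lit 3) (.ev (nat_lit 2304)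
 (nat_lit 136) (.ev (nat_lit 2317) (nat_lit 64) .dd))))) (.br (nat_lit 10) (.ch (nat_lit 8) (.ev (nat_lit 4324)
 (nat_lit 64) (.nd (nat_lit 6128) (.br (nat_lit 5) (.br (nat_lit 3) (.ch (nat_lit 1) (.fin (nat_lit
 576804349549167074))) (.ch (nat_lit 3) (.ev (nat_lit 6144) (nat_lit 136) .dd))) (.br (nat_lit 9) (.ch (nat_lit
 5) (.ev (nat_lit 6164) (nat_lit 128) (.ev (nat_lit 6173) (nat_lit 8) .dd))) (.br (nat_lit 12) (.ch (nat_lit 9)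
 (.ev (nat_lit 6144) (nat_lit 136) .dd)) (.ch (nat_lit 12) (.ev (nat_lit 6144) (nat_lit 128) (.ev (nat_lit
 6157) (nat_lit 8) .dd))))))))) (.br (nat_lit 12) (.ch (nat_lit 10) (.ev (nat_lit 2304) (nat_lit 8) (.ev
 (nat_lit 2580) (nat_lit 64) (.ev (nat_lit 2589) (nat_lit 128) .dd)))) (.ch (nat_lit 12) (.ev (nat_lit 2304)
 (nat_lit 136) (.ev (nat_lit 2317) (nat_lit 64) .dd))))))))) (.ch (nat_lit 1) (.ev (nat_lit 912) (nat_lit 224)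
 (.ev (nat_lit 925) (nat_lit 8) .dd)))) (.br (nat_lit 3) (.ch (nat_lit 2) (.ev (nat_lit 912) (nat_lit 8) (.nd
 (nat_lit 2384) (.br (nat_lit 10) (.br (nat_lit 6) (.ch (nat_lit 0) (.ev (nat_lit 4788) (nat_lit 128) (.ev
 (nat_lit 4996) (nat_lit 32) (.ev (nat_lit 5005) (nat_lit 64) .dd)))) (.ch (nat_lit 6) (.ev (nat_lit 2400)
 (nat_lit 128) (.ev (nat_lit 2420) (nat_lit 64) (.ev (nat_lit 2429) (nat_lit 32) .dd))))) (.br (nat_lit 12)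
 (.ch (nat_lit 10) (.ev (nat_lit 2400) (nat_lit 32) (.ev (nat_lit 3696) (nat_lit 192) .dd))) (.ch (nat_lit 12)
 (.ev (nat_lit 2400) (nat_lit 32) (.ev (nat_lit 3268) (nat_lit 128) (.ev (nat_lit 3277) (nat_lit 64)
 .dd))))))))) (.ch (nat_lit 3) (.ev (nat_lit 912) (nat_lit 160) (.ev (nat_lit 996) (nat_lit 64) (.ev (nat_lit
 1005) (nat_lit 8) .dd)))))) (.br (nat_lit 8) (.br (nat_lit 6) (.ch (nat_lit 5) (.nd (nat_lit 2544) (.br
 (nat_lit 2) (.br (nat_lit 1) (.ch (nat_lit 0) (.ev (nat_lit 2560) (nat_lit 72) (.fin (nat_lit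
 576533869811417761)))) (.ch (nat_lit 1) (.ev (nat_lit 2560) (nat_lit 160) (.ev (nat_lit 2580) (nat_lit 8) (.ev
 (nat_lit 2589) (nat_lit 64) .dd))))) (.br (nat_lit 3) (.ch (nat_lit 2) (.ev (nat_lit 2560) (nat_lit 128) (.ev
 (nat_lit 4628) (nat_lit 32) (.nd (nat_lit 6512) (.br (nat_lit 11) (.ch (nat_lit 8) (.fin (nat_lit
 575882959315746925))) (.ch (nat_lit 11) (.ev (nat_lit 6528) (nat_lit 8) (.ev (nat_lit 6541) (nat_lit 64)
 .dd)))))))) (.br (nat_lit 7) (.ch (nat_lit 3) (.ev (nat_lit 2560) (nat_lit 8) (.ev (nat_lit 3988) (nat_lit 64)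
 (.nd (nat_lit 7024) (.br (nat_lit 12) (.ch (nat_lit 7) (.fin (nat_lit 575432160434405890))) (.ch (nat_lit 12)
 (.ev (nat_lit 7040) (nat_lit 128) (.ev (nat_lit 7053) (nat_lit 32) .dd)))))))) (.ch (nat_lit 7) (.ev (nat_lit
 2560) (nat_lit 192) (.ev (nat_lit 2868) (nat_lit 8) (.ev (nat_lit 2877) (nat_lit 32) .dd))))))))) (.ch
 (nat_lit 6) (.ev (nat_lit 912) (nat_lit 168) (.ev (nat_lit 925) (nat_lit 64) .dd)))) (.br (nat_lit 9) (.ch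
 (nat_lit 8) (.ev (nat_lit 912) (nat_lit 72) (.ev (nat_lit 996) (nat_lit 128) (.ev (nat_lit 1005) (nat_lit 32)
 .dd)))) (.br (nat_lit 10) (.ch (nat_lit 9) (.ev (nat_lit 912) (nat_lit 64) (.nd (nat_lit 2288) (.br (nat_lit
 8) (.br (nat_lit 4) (.ch (nat_lit 1) (.ev (nat_lit 2304) (nat_lit 32) (.ev (nat_lit 3316) (nat_lit 128) (.ev
 (nat_lit 3325) (nat_lit 8) .dd)))) (.ch (nat_lit 4) (.ev (nat_lit 3728) (nat_lit 32) (.ev (nat_lit 3828)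
 (nat_lit 128) (.ev (nat_lit 3837) (nat_lit 8) .dd))))) (.br (nat_lit 10) (.ch (nat_lit 8) (.ev (nat_lit 2324)
 (nat_lit 8) (.ev (nat_lit 3764) (nat_lit 128) (.ev (nat_lit 3773) (nat_lit 32) .dd)))) (.ch (nat_lit 10) (.ev
 (nat_lit 2304) (nat_lit 128) (.ev (nat_lit 4004) (nat_lit 8) (.ev (nat_lit 4013) (nat_lit 32) .dd)))))))))
 (.ch (nat_lit 10) (.ev (nat_lit 912) (nat_lit 192) (.nd (nat_lit 3632) (.br (nat_lit 9) (.br (nat_lit 7) (.ch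
 (nat_lit 2) (.ev (nat_lit 3648) (nat_lit 8) (.ev (nat_lit 3661) (nat_lit 32) .dd))) (.ch (nat_lit 7) (.ev
 (nat_lit 3648) (nat_lit 32) (.ev (nat_lit 3661) (nat_lit 8) .dd)))) (.br (nat_lit 10) (.ch (nat_lit 9) (.ev
 (nat_lit 3648) (nat_lit 8) (.ev (nat_lit 3661) (nat_lit 32) .dd))) (.ch (nat_lit 10) (.ev (nat_lit 4692)
 (nat_lit 8) (.ev (nat_lit 4701) (nat_lit 32) .dd))))))))))))))) (.br (nat_lit 11) (.ch (nat_lit 10) (.nd
 (nat_lit 784) (.br (nat_lit 4) (.br (nat_lit 1) (.ch (nat_lit 0) (.nd (nat_lit 2144) (.br (nat_lit 6) (.ch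
 (nat_lit 4) (.ev (nat_lit 2160) (nat_lit 160) (.ev (nat_lit 3348) (nat_lit 8) (.ev (nat_lit 3357) (nat_lit 64)
 .dd)))) (.br (nat_lit 10) (.ch (nat_lit 6) (.nd (nat_lit 6048) (.br (nat_lit 12) (.ch (nat_lit 2) (.ev
 (nat_lit 6064) (nat_lit 96) (.fin (nat_lit 576883513942819445)))) (.ch (nat_lit 12) (.ev (nat_lit 6064)
 (nat_lit 136) (.fin (nat_lit 576496486415024702))))))) (.ch (nat_lit 10) (.ev (nat_lit 2160) (nat_lit 192)
 (.ev (nat_lit 3412) (nat_lit 32) (.ev (nat_lit 3421) (nat_lit 8) .dd)))))))) (.br (nat_lit 2) (.ch (nat_lit 1)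
 (.ev (nat_lit 800) (nat_lit 32) (.nd (nat_lit 2144) (.br (nat_lit 8) (.br (nat_lit 5) (.ch (nat_lit 1) (.ev
 (nat_lit 2340) (nat_lit 8) (.ev (nat_lit 2820) (nat_lit 64) (.ev (nat_lit 2829) (nat_lit 128) .dd)))) (.br
 (nat_lit 6) (.ch (nat_lit 5) (.ev (nat_lit 2160) (nat_lit 192) (.ev (nat_lit 2173) (nat_lit 8) .dd))) (.ch
 (nat_lit 6) (.ev (nat_lit 2640) (nat_lit 128) (.nd (nat_lit 6656) (.br (nat_lit 12) (.ch (nat_lit 6) (.ev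
 (nat_lit 6672) (nat_lit 64) (.ev (nat_lit 6685) (nat_lit 8) .dd))) (.ch (nat_lit 12) (.fin (nat_lit
 576527272765768218))))))))) (.br (nat_lit 10) (.ch (nat_lit 8) (.ev (nat_lit 2160) (nat_lit 136) (.ev (nat_lit
 2173) (nat_lit 64) .dd))) (.br (nat_lit 12) (.ch (nat_lit 10) (.ev (nat_lit 2160) (nat_lit 72) (.ev (nat_lit
 2173) (nat_lit 128) .dd))) (.ch (nat_lit 12) (.ev (nat_lit 2160) (nat_lit 192) (.ev (nat_lit 2173) (nat_lit 8)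
 .dd))))))))) (.ch (nat_lit 2) (.ev (nat_lit 800) (nat_lit 136) (.nd (nat_lit 2240) (.br (nat_lit 11) (.ch
 (nat_lit 2) (.ev (nat_lit 2596) (nat_lit 32) (.ev (nat_lit 2605) (nat_lit 64) .dd))) (.ch (nat_lit 11) (.ev
 (nat_lit 3924) (nat_lit 64) (.ev (nat_lit 3933) (nat_lit 32) .dd))))))))) (.br (nat_lit 6) (.br (nat_lit 5)
 (.ch (nat_lit 4) (.ev (nat_lit 800) (nat_lit 72) (.ev (nat_lit 1732) (nat_lit 32) (.ev (nat_lit 1741) (nat_lit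
 128) .dd)))) (.ch (nat_lit 5) (.ev (nat_lit 800) (nat_lit 96) (.nd (nat_lit 2992) (.br (nat_lit 8) (.ch
 (nat_lit 6) (.ev (nat_lit 4324) (nat_lit 8) (.ev (nat_lit 4333) (nat_lit 128) .dd))) (.br (nat_lit 12) (.ch
 (nat_lit 8) (.ev (nat_lit 4324) (nat_lit 8) (.ev (nat_lit 4333) (nat_lit 128) .dd))) (.ch (nat_lit 12) (.ev
 (nat_lit 4324) (nat_lit 8) (.ev (nat_lit 4333) (nat_lit 128) .dd))))))))) (.br (nat_lit 7) (.ch (nat_lit 6)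
 (.ev (nat_lit 800) (nat_lit 128) (.nd (nat_lit 2384) (.br (nat_lit 4) (.br (nat_lit 2) (.ch (nat_lit 0) (.ev
 (nat_lit 2400) (nat_lit 64) (.fin (nat_lit 576461301990507018)))) (.ch (nat_lit 2) (.ev (nat_lit 2400)
 (nat_lit 40) (.ev (nat_lit 2413) (nat_lit 64) .dd)))) (.br (nat_lit 8) (.ch (nat_lit 4) (.ev (nat_lit 2400)
 (nat_lit 72) (.ev (nat_lit 2413) (nat_lit 32) .dd))) (.br (nat_lit 9) (.ch (nat_lit 8) (.ev (nat_lit 3716)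
 (nat_lit 32) (.ev (nat_lit 3764) (nat_lit 64) (.ev (nat_lit 3773) (nat_lit 8) .dd)))) (.ch (nat_lit 9) (.ev
 (nat_lit 2400) (nat_lit 64) (.ev (nat_lit 4084) (nat_lit 8) (.ev (nat_lit 4093) (nat_lit 32) .dd))))))))))
 (.ch (nat_lit 7) (.ev (nat_lit 1156) (nat_lit 128) (.ev (nat_lit 1188) (nat_lit 64) (.nd (nat_lit 2240) (.br
 (nat_lit 5) (.br (nat_lit 3) (.ch (nat_lit 1) (.fin (nat_lit 576498685485466211))) (.ch (nat_lit 3) (.ev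
 (nat_lit 2256) (nat_lit 40) .dd))) (.br (nat_lit 9) (.ch (nat_lit 5) (.ev (nat_lit 2256) (nat_lit 32) (.ev
 (nat_lit 2269) (nat_lit 8) .dd))) (.ch (nat_lit 9) (.ev (nat_lit 4324) (nat_lit 8) (.ev (nat_lit 4333)
 (nat_lit 32) .dd)))))))))))))) (.br (nat_lit 12) (.ch (nat_lit 11) (.ev (nat_lit 256) (nat_lit 8) (.nd
 (nat_lit 1296) (.br (nat_lit 5) (.br (nat_lit 1) (.ch (nat_lit 0) (.ev (nat_lit 1312) (nat_lit 96) (.ev
 (nat_lit 1325) (nat_lit 128) .dd))) (.br (nat_lit 4) (.ch (nat_lit 1) (.ev (nat_lit 1476) (nat_lit 64) (.ev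
 (nat_lit 1732) (nat_lit 32) (.ev (nat_lit 1741) (nat_lit 128) .dd)))) (.ch (nat_lit 4) (.ev (nat_lit 1732)
 (nat_lit 32) (.ev (nat_lit 4640) (nat_lit 128) (.ev (nat_lit 4653) (nat_lit 64) .dd)))))) (.br (nat_lit 9)
 (.br (nat_lit 6) (.ch (nat_lit 5) (.ev (nat_lit 1312) (nat_lit 192) (.ev (nat_lit 1325) (nat_lit 32) .dd)))
 (.ch (nat_lit 6) (.ev (nat_lit 3716) (nat_lit 32) (.ev (nat_lit 3728) (nat_lit 64) (.ev (nat_lit 3741)
 (nat_lit 128) .dd))))) (.br (nat_lit 12) (.ch (nat_lit 9) (.ev (nat_lit 1312) (nat_lit 160) (.ev (nat_lit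
 1325) (nat_lit 64) .dd))) (.ch (nat_lit 12) (.ev (nat_lit 1332) (nat_lit 128) (.fin (nat_lit
 576453605479367208)))))))))) (.ch (nat_lit 12) (.ev (nat_lit 256) (nat_lit 160) (.ev (nat_lit 452) (nat_lit
 64) (.ev (nat_lit 461) (nat_lit 8) .dd))))))))))) (.br (nat_lit 12) (.ch (nat_lit 10) (.ev (nat_lit 48)
 (nat_lit 16608) (.nd (nat_lit 592) (.br (nat_lit 6) (.br (nat_lit 3) (.br (nat_lit 2) (.ch (nat_lit 0) (.ev
 (nat_lit 608) (nat_lit 8) (.ev (nat_lit 621) (nat_lit 4096) .dd))) (.ch (nat_lit 2) (.ev (nat_lit 608)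
 (nat_lit 4104) .dd))) (.br (nat_lit 5) (.ch (nat_lit 3) (.ev (nat_lit 608) (nat_lit 4096) (.ev (nat_lit 621)
 (nat_lit 8) .dd))) (.ch (nat_lit 5) (.nd (nat_lit 1872) (.br (nat_lit 6) (.br (nat_lit 2) (.br (nat_lit 1)
 (.ch (nat_lit 0) (.ev (nat_lit 1888) (nat_lit 8) (.ev (nat_lit 1901) (nat_lit 4096) .dd))) (.ch (nat_lit 1)
 (.ev (nat_lit 1888) (nat_lit 4096) (.ev (nat_lit 1901) (nat_lit 8) .dd)))) (.br (nat_lit 5) (.ch (nat_lit 2)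
 (.ev (nat_lit 1888) (nat_lit 4096) (.ev (nat_lit 1901) (nat_lit 8) .dd))) (.ch (nat_lit 5) (.ev (nat_lit 1888)
 (nat_lit 4104) .dd)))) (.br (nat_lit 11) (.br (nat_lit 7) (.ch (nat_lit 6) (.ev (nat_lit 1888) (nat_lit 8)
 (.ev (nat_lit 1901) (nat_lit 4096) .dd))) (.ch (nat_lit 7) (.ev (nat_lit 1908) (nat_lit 8) (.ev (nat_lit 1917)
 (nat_lit 4096) .dd)))) (.br (nat_lit 12) (.ch (nat_lit 11) (.ev (nat_lit 1908) (nat_lit 8) (.ev (nat_lit 1917)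
 (nat_lit 4096) .dd))) (.ch (nat_lit 12) (.nd (nat_lit 5840) (.br (nat_lit 5) (.ch (nat_lit 1) (.ev (nat_lit
 5856) (nat_lit 8) (.ev (nat_lit 5869) (nat_lit 4096) .dd))) (.br (nat_lit 9) (.ch (nat_lit 5) (.nd (nat_lit
 7584) (.br (nat_lit 3) (.ch (nat_lit 0) (.fin (nat_lit 576547063820927581))) (.ch (nat_lit 3) (.ev (nat_lit
 7600) (nat_lit 4096) (.ev (nat_lit 7613) (nat_lit 8) .dd)))))) (.ch (nat_lit 9) (.ev (nat_lit 5856) (nat_lit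
 4104) .dd))))))))))))) (.br (nat_lit 8) (.br (nat_lit 7) (.ch (nat_lit 6) (.nd (nat_lit 1872) (.br (nat_lit 6)
 (.br (nat_lit 4) (.ch (nat_lit 0) (.fin (nat_lit 576473396669792835))) (.br (nat_lit 5) (.ch (nat_lit 4) (.ev
 (nat_lit 1988) (nat_lit 8) (.ev (nat_lit 1997) (nat_lit 4096) .dd))) (.ch (nat_lit 5) (.ev (nat_lit 1940)
 (nat_lit 8) (.ev (nat_lit 1949) (nat_lit 4096) .dd))))) (.br (nat_lit 8) (.br (nat_lit 7) (.ch (nat_lit 6)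
 (.ev (nat_lit 1888) (nat_lit 4096) (.ev (nat_lit 1901) (nat_lit 8) .dd))) (.ch (nat_lit 7) (.ev (nat_lit 1888)
 (nat_lit 4104) .dd))) (.br (nat_lit 11) (.ch (nat_lit 8) (.ev (nat_lit 1940) (nat_lit 8) (.ev (nat_lit 1949)
 (nat_lit 4096) .dd))) (.ch (nat_lit 11) (.ev (nat_lit 1888) (nat_lit 8) (.ev (nat_lit 1901) (nat_lit 4096)
 .dd)))))))) (.ch (nat_lit 7) (.ev (nat_lit 608) (nat_lit 8) (.ev (nat_lit 621) (nat_lit 4096) .dd)))) (.br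
 (nat_lit 9) (.ch (nat_lit 8) (.ev (nat_lit 608) (nat_lit 8) (.ev (nat_lit 621) (nat_lit 4096) .dd))) (.br
 (nat_lit 12) (.ch (nat_lit 9) (.ev (nat_lit 608) (nat_lit 4096) (.ev (nat_lit 621) (nat_lit 8) .dd))) (.ch
 (nat_lit 12) (.ev (nat_lit 724) (nat_lit 4096) (.ev (nat_lit 733) (nat_lit 8) .dd)))))))))) (.ch (nat_lit 12)
 (.ev (nat_lit 48) (nat_lit 168) (.nd (nat_lit 592) (.br (nat_lit 8) (.br (nat_lit 4) (.br (nat_lit 1) (.ch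
 (nat_lit 0) (.ev (nat_lit 628) (nat_lit 64) (.ev (nat_lit 644) (nat_lit 4096) (.ev (nat_lit 653) (nat_lit
 16384) .dd)))) (.ch (nat_lit 1) (.ev (nat_lit 608) (nat_lit 16384) (.ev (nat_lit 628) (nat_lit 64) (.ev
 (nat_lit 637) (nat_lit 4096) .dd))))) (.br (nat_lit 7) (.ch (nat_lit 4) (.ev (nat_lit 608) (nat_lit 4160) (.ev
 (nat_lit 621) (nat_lit 16384) .dd))) (.ch (nat_lit 7) (.ev (nat_lit 608) (nat_lit 16384) (.nd (nat_lit 1872)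
 (.br (nat_lit 5) (.br (nat_lit 3) (.br (nat_lit 1) (.ch (nat_lit 0) (.ev (nat_lit 1888) (nat_lit 4160) .dd))
 (.ch (nat_lit 1) (.ev (nat_lit 1888) (nat_lit 4160) .dd))) (.br (nat_lit 4) (.ch (nat_lit 3) (.ev (nat_lit
 1888) (nat_lit 64) (.ev (nat_lit 1901) (nat_lit 4096) .dd))) (.ch (nat_lit 4) (.ev (nat_lit 1924) (nat_lit
 4096) (.ev (nat_lit 1933) (nat_lit 64) .dd))))) (.br (nat_lit 8) (.br (nat_lit 7) (.ch (nat_lit 5) (.ev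
 (nat_lit 1888) (nat_lit 4160) .dd)) (.ch (nat_lit 7) (.fin (nat_lit 576466799606317652)))) (.br (nat_lit 10)
 (.ch (nat_lit 8) (.ev (nat_lit 1888) (nat_lit 4096) (.ev (nat_lit 1901) (nat_lit 64) .dd))) (.br (nat_lit 12)
 (.ch (nat_lit 10) (.ev (nat_lit 1924) (nat_lit 4096) (.ev (nat_lit 1933) (nat_lit 64) .dd))) (.ch (nat_lit 12)
 (.ev (nat_lit 1972) (nat_lit 4096) (.ev (nat_lit 1981) (nat_lit 64) .dd)))))))))))) (.br (nat_lit 10) (.br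
 (nat_lit 9) (.ch (nat_lit 8) (.ev (nat_lit 740) (nat_lit 64) (.nd (nat_lit 1632) (.br (nat_lit 7) (.br
 (nat_lit 3) (.ch (nat_lit 2) (.ev (nat_lit 1668) (nat_lit 16384) (.ev (nat_lit 1677) (nat_lit 4096) .dd)))
 (.br (nat_lit 5) (.ch (nat_lit 3) (.ev (nat_lit 1668) (nat_lit 16384) (.ev (nat_lit 1677) (nat_lit 4096)
 .dd))) (.ch (nat_lit 5) (.ev (nat_lit 1648) (nat_lit 4096) (.ev (nat_lit 1661) (nat_lit 16384) .dd))))) (.br
 (nat_lit 11) (.br (nat_lit 9) (.ch (nat_lit 7) (.ev (nat_lit 1648) (nat_lit 4096) (.ev (nat_lit 1661) (nat_lit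
 16384) .dd))) (.ch (nat_lit 9) (.ev (nat_lit 1668) (nat_lit 16384) (.ev (nat_lit 1677) (nat_lit 4096) .dd))))
 (.br (nat_lit 12) (.ch (nat_lit 11) (.ev (nat_lit 1648) (nat_lit 16384) (.ev (nat_lit 1661) (nat_lit 4096)
 .dd))) (.ch (nat_lit 12) (.ev (nat_lit 1648) (nat_lit 16384) (.ev (nat_lit 1661) (nat_lit 4096) .dd)))))))))
 (.ch (nat_lit 9) (.ev (nat_lit 608) (nat_lit 4096) (.nd (nat_lit 1872) (.br (nat_lit 8) (.br (nat_lit 2) (.ch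
 (nat_lit 0) (.nd (nat_lit 5904) (.ch (nat_lit 3) (.nd (nat_lit 7888) (.br (nat_lit 7) (.ch (nat_lit 0) (.fin
 (nat_lit 576492088291967701))) (.ch (nat_lit 7) (.ev (nat_lit 7904) (nat_lit 16384) (.ev (nat_lit 7917)
 (nat_lit 64) .dd)))))))) (.br (nat_lit 7) (.ch (nat_lit 2) (.ev (nat_lit 1888) (nat_lit 16384) (.ev (nat_lit
 1901) (nat_lit 64) .dd))) (.ch (nat_lit 7) (.ev (nat_lit 1908) (nat_lit 64) (.ev (nat_lit 1917) (nat_lit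
 16384) .dd))))) (.br (nat_lit 9) (.ch (nat_lit 8) (.ev (nat_lit 1888) (nat_lit 64) (.ev (nat_lit 1901)
 (nat_lit 16384) .dd))) (.br (nat_lit 10) (.ch (nat_lit 9) (.ev (nat_lit 1888) (nat_lit 16384) (.ev (nat_lit
 1901) (nat_lit 64) .dd))) (.ch (nat_lit 10) (.ev (nat_lit 1888) (nat_lit 16384) (.ev (nat_lit 1901) (nat_lit
 64) .dd)))))))))) (.br (nat_lit 11) (.ch (nat_lit 10) (.ev (nat_lit 608) (nat_lit 20544) .dd)) (.br (nat_lit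
 12) (.ch (nat_lit 11) (.ev (nat_lit 608) (nat_lit 20544) .dd)) (.ch (nat_lit 12) (.ev (nat_lit 608) (nat_lit
 64) (.nd (nat_lit 1872) (.br (nat_lit 8) (.br (nat_lit 4) (.ch (nat_lit 2) (.ev (nat_lit 1888) (nat_lit 16384)
 (.ev (nat_lit 1901) (nat_lit 4096) .dd))) (.br (nat_lit 7) (.ch (nat_lit 4) (.ev (nat_lit 1908) (nat_lit
 16384) (.ev (nat_lit 1917) (nat_lit 4096) .dd))) (.ch (nat_lit 7) (.ev (nat_lit 1888) (nat_lit 16384) (.ev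
 (nat_lit 1901) (nat_lit 4096) .dd))))) (.br (nat_lit 9) (.ch (nat_lit 8) (.ev (nat_lit 1888) (nat_lit 16384)
 (.ev (nat_lit 1901) (nat_lit 4096) .dd))) (.br (nat_lit 10) (.ch (nat_lit 9) (.ev (nat_lit 1888) (nat_lit
 4096) (.ev (nat_lit 1901) (nat_lit 16384) .dd))) (.ch (nat_lit 10) (.fin (nat_lit
 576461302091170358))))))))))))))))))))))

/-- Subtrie. -/
noncomputable def T4 : Tr := (.ev (nat_lit 20) (nat_lit 22592) (.nd (nat_lit 32) (.br (nat_lit 6) (.br (nat_lit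
 2) (.br (nat_lit 1) (.ch (nat_lit 0) (.ev (nat_lit 48) (nat_lit 9216) (.nd (nat_lit 592) (.br (nat_lit 5) (.br
 (nat_lit 3) (.br (nat_lit 2) (.ch (nat_lit 1) (.nd (nat_lit 1296) (.br (nat_lit 8) (.br (nat_lit 4) (.br
 (nat_lit 1) (.ch (nat_lit 0) (.ev (nat_lit 1312) (nat_lit 512) (.ev (nat_lit 1668) (nat_lit 128) (.ev (nat_lit
 3840) (nat_lit 32) (.ev (nat_lit 3853) (nat_lit 8) .dd))))) (.ch (nat_lit 1) (.ev (nat_lit 1312) (nat_lit 520)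
 (.nd (nat_lit 5440) (.br (nat_lit 12) (.ch (nat_lit 11) (.fin (nat_lit 576458003518538305))) (.ch (nat_lit 12)
 (.ev (nat_lit 5476) (nat_lit 128) (.ev (nat_lit 5485) (nat_lit 32) .dd)))))))) (.br (nat_lit 6) (.ch (nat_lit
 4) (.nd (nat_lit 2544) (.br (nat_lit 8) (.br (nat_lit 4) (.ch (nat_lit 2) (.ev (nat_lit 2560) (nat_lit 520)
 (.ev (nat_lit 3236) (nat_lit 32) (.ev (nat_lit 3245) (nat_lit 128) .dd)))) (.br (nat_lit 5) (.ch (nat_lit 4)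
 (.ev (nat_lit 2560) (nat_lit 160) (.fin (nat_lit 576437112779784721)))) (.ch (nat_lit 5) (.ev (nat_lit 2560)
 (nat_lit 136) (.ev (nat_lit 3236) (nat_lit 32) (.ev (nat_lit 3245) (nat_lit 512) .dd)))))) (.br (nat_lit 11)
 (.ch (nat_lit 8) (.ev (nat_lit 2560) (nat_lit 640) (.fin (nat_lit 576536068886053426)))) (.br (nat_lit 12)
 (.ch (nat_lit 11) (.ev (nat_lit 2560) (nat_lit 136) (.ev (nat_lit 2580) (nat_lit 32) (.ev (nat_lit 2589)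
 (nat_lit 512) .dd)))) (.ch (nat_lit 12) (.ev (nat_lit 2560) (nat_lit 32) (.ev (nat_lit 2580) (nat_lit 512)
 (.nd (nat_lit 6752) (.br (nat_lit 10) (.ch (nat_lit 6) (.ev (nat_lit 6768) (nat_lit 8) (.ev (nat_lit 6781)
 (nat_lit 128) .dd))) (.ch (nat_lit 10) (.fin (nat_lit 576529471938970627))))))))))))) (.ch (nat_lit 6) (.ev
 (nat_lit 1312) (nat_lit 520) (.ev (nat_lit 1716) (nat_lit 128) (.ev (nat_lit 1725) (nat_lit 32) .dd)))))) (.br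
 (nat_lit 11) (.br (nat_lit 10) (.ch (nat_lit 8) (.ev (nat_lit 1312) (nat_lit 128) (.nd (nat_lit 4176) (.br
 (nat_lit 7) (.br (nat_lit 4) (.ch (nat_lit 3) (.ev (nat_lit 4192) (nat_lit 512) (.ev (nat_lit 4724) (nat_lit
 32) (.ev (nat_lit 4733) (nat_lit 8) .dd)))) (.ch (nat_lit 4) (.ev (nat_lit 4228) (nat_lit 544) (.ev (nat_lit
 4237) (nat_lit 8) .dd)))) (.br (nat_lit 10) (.ch (nat_lit 7) (.ev (nat_lit 4192) (nat_lit 32) (.ev (nat_lit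
 5076) (nat_lit 8) (.ev (nat_lit 5085) (nat_lit 512) .dd)))) (.ch (nat_lit 10) (.ev (nat_lit 4192) (nat_lit
 512) (.ev (nat_lit 4228) (nat_lit 8) (.ev (nat_lit 4237) (nat_lit 32) .dd))))))))) (.ch (nat_lit 10) (.ev
 (nat_lit 1312) (nat_lit 136) (.fin (nat_lit 576802150857261665))))) (.br (nat_lit 12) (.ch (nat_lit 11) (.ev
 (nat_lit 1312) (nat_lit 160) (.nd (nat_lit 4176) (.br (nat_lit 8) (.ch (nat_lit 5) (.ev (nat_lit 4228)
 (nat_lit 512) (.ev (nat_lit 4237) (nat_lit 8) .dd))) (.br (nat_lit 12) (.ch (nat_lit 8) (.ev (nat_lit 4228)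
 (nat_lit 512) (.ev (nat_lit 4237) (nat_lit 8) .dd))) (.ch (nat_lit 12) (.ev (nat_lit 4228) (nat_lit 512) (.ev
 (nat_lit 4237) (nat_lit 8) .dd)))))))) (.ch (nat_lit 12) (.ev (nat_lit 1312) (nat_lit 160) (.ev (nat_lit 3316)
 (nat_lit 512) (.ev (nat_lit 3325) (nat_lit 8) .dd))))))))) (.ch (nat_lit 2) (.ev (nat_lit 608) (nat_lit 544)
 (.nd (nat_lit 1872) (.br (nat_lit 6) (.br (nat_lit 3) (.ch (nat_lit 1) (.ev (nat_lit 1888) (nat_lit 128) (.ev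
 (nat_lit 1901) (nat_lit 8) .dd))) (.br (nat_lit 5) (.ch (nat_lit 3) (.ev (nat_lit 1888) (nat_lit 136) .dd))
 (.ch (nat_lit 5) (.ev (nat_lit 1888) (nat_lit 8) (.ev (nat_lit 1901) (nat_lit 128) .dd))))) (.br (nat_lit 7)
 (.ch (nat_lit 6) (.nd (nat_lit 5792) (.br (nat_lit 7) (.br (nat_lit 5) (.ch (nat_lit 4) (.ev (nat_lit 5808)
 (nat_lit 128) (.ev (nat_lit 5821) (nat_lit 8) .dd))) (.ch (nat_lit 5) (.ev (nat_lit 5808) (nat_lit 8) (.ev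
 (nat_lit 5821) (nat_lit 128) .dd)))) (.br (nat_lit 9) (.ch (nat_lit 7) (.ev (nat_lit 5808) (nat_lit 128) (.ev
 (nat_lit 5821) (nat_lit 8) .dd))) (.ch (nat_lit 9) (.fin (nat_lit 576206215045398891))))))) (.br (nat_lit 8)
 (.ch (nat_lit 7) (.ev (nat_lit 1908) (nat_lit 8) (.ev (nat_lit 1917) (nat_lit 128) .dd))) (.ch (nat_lit 8)
 (.ev (nat_lit 1888) (nat_lit 136) .dd))))))))) (.br (nat_lit 4) (.ch (nat_lit 3) (.ev (nat_lit 608) (nat_lit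
 40) (.nd (nat_lit 1872) (.br (nat_lit 6) (.br (nat_lit 4) (.ch (nat_lit 0) (.ev (nat_lit 1888) (nat_lit 512)
 (.ev (nat_lit 1901) (nat_lit 128) .dd))) (.br (nat_lit 5) (.ch (nat_lit 4) (.ev (nat_lit 1888) (nat_lit 128)
 (.ev (nat_lit 1901) (nat_lit 512) .dd))) (.ch (nat_lit 5) (.ev (nat_lit 3204) (nat_lit 512) (.ev (nat_lit
 3213) (nat_lit 128) .dd))))) (.br (nat_lit 9) (.br (nat_lit 8) (.ch (nat_lit 6) (.ev (nat_lit 1888) (nat_lit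
 128) (.ev (nat_lit 1901) (nat_lit 512) .dd))) (.ch (nat_lit 8) (.ev (nat_lit 1908) (nat_lit 128) (.ev (nat_lit
 1917) (nat_lit 512) .dd)))) (.br (nat_lit 11) (.ch (nat_lit 9) (.ev (nat_lit 1888) (nat_lit 512) (.ev (nat_lit
 1901) (nat_lit 128) .dd))) (.ch (nat_lit 11) (.ev (nat_lit 3908) (nat_lit 128) (.ev (nat_lit 3917) (nat_lit
 512) .dd))))))))) (.ch (nat_lit 4) (.ev (nat_lit 608) (nat_lit 520) (.nd (nat_lit 1632) (.br (nat_lit 6) (.br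
 (nat_lit 4) (.ch (nat_lit 1) (.ev (nat_lit 1648) (nat_lit 160) .dd)) (.br (nat_lit 5) (.ch (nat_lit 4) (.ev
 (nat_lit 3908) (nat_lit 128) (.ev (nat_lit 3917) (nat_lit 32) .dd))) (.ch (nat_lit 5) (.ev (nat_lit 1668)
 (nat_lit 32) (.ev (nat_lit 1677) (nat_lit 128) .dd))))) (.br (nat_lit 8) (.br (nat_lit 7) (.ch (nat_lit 6)
 (.ev (nat_lit 3716) (nat_lit 128) (.ev (nat_lit 3725) (nat_lit 32) .dd))) (.ch (nat_lit 7) (.ev (nat_lit 1648)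
 (nat_lit 128) (.ev (nat_lit 1661) (nat_lit 32) .dd)))) (.br (nat_lit 11) (.ch (nat_lit 8) (.fin (nat_lit
 576390933332312650))) (.ch (nat_lit 11) (.ev (nat_lit 1648) (nat_lit 32) (.ev (nat_lit 1661) (nat_lit 128)
 .dd))))))))))) (.br (nat_lit 7) (.br (nat_lit 6) (.ch (nat_lit 5) (.ev (nat_lit 608) (nat_lit 128) (.nd
 (nat_lit 1216) (.br (nat_lit 7) (.br (nat_lit 4) (.br (nat_lit 3) (.ch (nat_lit 0) (.ev (nat_lit 4084)
 (nat_lit 8) (.nd (nat_lit 6000) (.br (nat_lit 7) (.ch (nat_lit 3) (.ev (nat_lit 6016) (nat_lit 32) (.ev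
 (nat_lit 6029) (nat_lit 512) .dd))) (.ch (nat_lit 7) (.nd (nat_lit 8176) (.br (nat_lit 9) (.ch (nat_lit 6)
 (.fin (nat_lit 576091866274415218))) (.ch (nat_lit 9) (.ev (nat_lit 8192) (nat_lit 32) (.ev (nat_lit 8205)
 (nat_lit 512) .dd)))))))))) (.ch (nat_lit 3) (.ev (nat_lit 1232) (nat_lit 512) (.ev (nat_lit 1252) (nat_lit
 32) (.ev (nat_lit 1261) (nat_lit 8) .dd))))) (.br (nat_lit 5) (.ch (nat_lit 4) (.ev (nat_lit 1232) (nat_lit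
 520) (.ev (nat_lit 1245) (nat_lit 32) .dd))) (.ch (nat_lit 5) (.ev (nat_lit 1232) (nat_lit 40) (.ev (nat_lit
 1245) (nat_lit 512) .dd))))) (.br (nat_lit 11) (.br (nat_lit 10) (.ch (nat_lit 7) (.ev (nat_lit 1232) (nat_lit
 32) (.nd (nat_lit 5216) (.br (nat_lit 8) (.br (nat_lit 5) (.ch (nat_lit 2) (.ev (nat_lit 5252) (nat_lit 8)
 (.ev (nat_lit 5261) (nat_lit 512) .dd))) (.ch (nat_lit 5) (.ev (nat_lit 5232) (nat_lit 8) (.ev (nat_lit 5245)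
 (nat_lit 512) .dd)))) (.br (nat_lit 11) (.ch (nat_lit 8) (.ev (nat_lit 5232) (nat_lit 8) (.ev (nat_lit 5245)
 (nat_lit 512) .dd))) (.ch (nat_lit 11) (.nd (nat_lit 7760) (.br (nat_lit 6) (.ch (nat_lit 2) (.fin (nat_lit
 576443709854794378))) (.ch (nat_lit 6) (.ev (nat_lit 7776) (nat_lit 512) (.ev (nat_lit 7789) (nat_lit 8)
 .dd))))))))))) (.ch (nat_lit 10) (.nd (nat_lit 4544) (.br (nat_lit 7) (.br (nat_lit 4) (.ch (nat_lit 2) (.ev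
 (nat_lit 4560) (nat_lit 544) (.ev (nat_lit 4573) (nat_lit 8) .dd))) (.ch (nat_lit 4) (.ev (nat_lit 4560)
 (nat_lit 8) (.ev (nat_lit 4708) (nat_lit 32) (.ev (nat_lit 4717) (nat_lit 512) .dd))))) (.br (nat_lit 8) (.ch
 (nat_lit 7) (.ev (nat_lit 4560) (nat_lit 40) (.ev (nat_lit 4573) (nat_lit 512) .dd))) (.ch (nat_lit 8) (.ev
 (nat_lit 4560) (nat_lit 544) (.ev (nat_lit 4573) (nat_lit 8) .dd)))))))) (.br (nat_lit 12) (.ch (nat_lit 11)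
 (.ev (nat_lit 1232) (nat_lit 40) (.ev (nat_lit 1245) (nat_lit 512) .dd))) (.ch (nat_lit 12) (.ev (nat_lit
 1232) (nat_lit 512) (.nd (nat_lit 3632) (.br (nat_lit 10) (.ch (nat_lit 4) (.ev (nat_lit 3648) (nat_lit 32)
 (.ev (nat_lit 3661) (nat_lit 8) .dd))) (.br (nat_lit 11) (.ch (nat_lit 10) (.ev (nat_lit 3716) (nat_lit 8)
 (.ev (nat_lit 3725) (nat_lit 32) .dd))) (.ch (nat_lit 11) (.ev (nat_lit 4356) (nat_lit 32) (.ev (nat_lit 4365)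
 (nat_lit 8) .dd)))))))))))))) (.ch (nat_lit 6) (.ev (nat_lit 608) (nat_lit 648) (.ev (nat_lit 621) (nat_lit
 32) .dd)))) (.br (nat_lit 8) (.ch (nat_lit 7) (.nd (nat_lit 1440) (.br (nat_lit 6) (.br (nat_lit 4) (.br
 (nat_lit 2) (.ch (nat_lit 0) (.ev (nat_lit 1456) (nat_lit 128) (.ev (nat_lit 1764) (nat_lit 32) (.nd (nat_lit
 5216) (.br (nat_lit 10) (.ch (nat_lit 4) (.nd (nat_lit 7552) (.br (nat_lit 10) (.ch (nat_lit 1) (.fin (nat_lit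
 575687246620343290))) (.ch (nat_lit 10) (.ev (nat_lit 7568) (nat_lit 512) (.ev (nat_lit 7581) (nat_lit 8)
 .dd)))))) (.ch (nat_lit 10) (.ev (nat_lit 5232) (nat_lit 8) (.ev (nat_lit 5245) (nat_lit 512) .dd)))))))) (.ch
 (nat_lit 2) (.ev (nat_lit 1476) (nat_lit 40) (.ev (nat_lit 1748) (nat_lit 128) (.ev (nat_lit 1757) (nat_lit
 512) .dd))))) (.br (nat_lit 5) (.ch (nat_lit 4) (.ev (nat_lit 1456) (nat_lit 8) (.ev (nat_lit 5396) (nat_lit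
 512) (.nd (nat_lit 5904) (.br (nat_lit 5) (.ch (nat_lit 2) (.ev (nat_lit 5920) (nat_lit 32) (.ev (nat_lit
 5933) (nat_lit 128) .dd))) (.br (nat_lit 12) (.ch (nat_lit 5) (.ev (nat_lit 5920) (nat_lit 128) (.ev (nat_lit
 5933) (nat_lit 32) .dd))) (.ch (nat_lit 12) (.fin (nat_lit 576716388939809193))))))))) (.ch (nat_lit 5) (.ev
 (nat_lit 1456) (nat_lit 552) (.ev (nat_lit 1469) (nat_lit 128) .dd))))) (.br (nat_lit 9) (.br (nat_lit 8) (.ch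
 (nat_lit 6) (.ev (nat_lit 1456) (nat_lit 520) (.ev (nat_lit 1668) (nat_lit 128) (.ev (nat_lit 1677) (nat_lit
 32) .dd)))) (.ch (nat_lit 8) (.ev (nat_lit 1456) (nat_lit 32) (.ev (nat_lit 1572) (nat_lit 8) (.ev (nat_lit
 1716) (nat_lit 128) (.ev (nat_lit 1725) (nat_lit 512) .dd)))))) (.br (nat_lit 11) (.ch (nat_lit 9) (.ev
 (nat_lit 1456) (nat_lit 544) (.ev (nat_lit 1716) (nat_lit 128) (.ev (nat_lit 1725) (nat_lit 8) .dd)))) (.ch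
 (nat_lit 11) (.ev (nat_lit 1456) (nat_lit 128) (.nd (nat_lit 5632) (.br (nat_lit 7) (.ch (nat_lit 5) (.ev
 (nat_lit 5648) (nat_lit 40) (.ev (nat_lit 5661) (nat_lit 512) .dd))) (.br (nat_lit 9) (.ch (nat_lit 7) (.ev
 (nat_lit 5648) (nat_lit 512) (.ev (nat_lit 5668) (nat_lit 8) (.ev (nat_lit 5677) (nat_lit 32) .dd)))) (.ch
 (nat_lit 9) (.ev (nat_lit 5648) (nat_lit 8) (.fin (nat_lit 576452505958302274)))))))))))))) (.br (nat_lit 12)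
 (.ch (nat_lit 8) (.ev (nat_lit 608) (nat_lit 168) (.ev (nat_lit 621) (nat_lit 512) .dd))) (.ch (nat_lit 12)
 (.ev (nat_lit 608) (nat_lit 128) (.nd (nat_lit 1632) (.br (nat_lit 8) (.br (nat_lit 7) (.ch (nat_lit 5) (.ev
 (nat_lit 1648) (nat_lit 8) (.ev (nat_lit 1940) (nat_lit 512) (.ev (nat_lit 1949) (nat_lit 32) .dd)))) (.ch
 (nat_lit 7) (.ev (nat_lit 1648) (nat_lit 512) (.ev (nat_lit 1668) (nat_lit 8) (.ev (nat_lit 1677) (nat_lit 32)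
 .dd))))) (.br (nat_lit 11) (.ch (nat_lit 8) (.ev (nat_lit 1648) (nat_lit 512) (.ev (nat_lit 1680) (nat_lit 40)
 .dd))) (.ch (nat_lit 11) (.ev (nat_lit 1648) (nat_lit 32) (.fin (nat_lit 576430515829555897))))))))))))))))
 (.ch (nat_lit 1) (.ev (nat_lit 48) (nat_lit 168) (.nd (nat_lit 592) (.br (nat_lit 5) (.br (nat_lit 3) (.br
 (nat_lit 1) (.ch (nat_lit 0) (.ev (nat_lit 608) (nat_lit 9216) (.ev (nat_lit 621) (nat_lit 512) .dd))) (.ch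
 (nat_lit 1) (.ev (nat_lit 608) (nat_lit 8704) (.ev (nat_lit 621) (nat_lit 1024) .dd)))) (.br (nat_lit 4) (.ch
 (nat_lit 3) (.nd (nat_lit 1872) (.br (nat_lit 8) (.br (nat_lit 4) (.ch (nat_lit 1) (.ev (nat_lit 1888)
 (nat_lit 9216) (.ev (nat_lit 1901) (nat_lit 512) .dd))) (.br (nat_lit 6) (.ch (nat_lit 4) (.ev (nat_lit 1888)
 (nat_lit 512) (.ev (nat_lit 1908) (nat_lit 1024) (.ev (nat_lit 1917) (nat_lit 8192) .dd)))) (.ch (nat_lit 6)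
 (.ev (nat_lit 1888) (nat_lit 8192) (.ev (nat_lit 1956) (nat_lit 512) (.ev (nat_lit 1965) (nat_lit 1024)
 .dd)))))) (.br (nat_lit 10) (.br (nat_lit 9) (.ch (nat_lit 8) (.ev (nat_lit 1908) (nat_lit 1024) (.fin
 (nat_lit 576479993766822465)))) (.ch (nat_lit 9) (.ev (nat_lit 1908) (nat_lit 8192) (.ev (nat_lit 2004)
 (nat_lit 512) (.ev (nat_lit 2013) (nat_lit 1024) .dd))))) (.br (nat_lit 12) (.ch (nat_lit 10) (.ev (nat_lit
 1888) (nat_lit 1024) (.ev (nat_lit 1956) (nat_lit 512) (.ev (nat_lit 1965) (nat_lit 8192) .dd)))) (.ch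
 (nat_lit 12) (.ev (nat_lit 1888) (nat_lit 512) (.ev (nat_lit 1908) (nat_lit 1024) (.ev (nat_lit 1917) (nat_lit
 8192) .dd))))))))) (.ch (nat_lit 4) (.ev (nat_lit 608) (nat_lit 9728) .dd)))) (.br (nat_lit 8) (.br (nat_lit
 6) (.ch (nat_lit 5) (.ev (nat_lit 608) (nat_lit 512) (.nd (nat_lit 1872) (.br (nat_lit 8) (.br (nat_lit 5)
 (.br (nat_lit 4) (.ch (nat_lit 2) (.ev (nat_lit 1888) (nat_lit 8192) (.ev (nat_lit 1901) (nat_lit 1024) .dd)))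
 (.ch (nat_lit 4) (.fin (nat_lit 576434913770160682)))) (.br (nat_lit 6) (.ch (nat_lit 5) (.ev (nat_lit 1888)
 (nat_lit 9216) .dd)) (.ch (nat_lit 6) (.ev (nat_lit 1908) (nat_lit 1024) (.ev (nat_lit 1917) (nat_lit 8192)
 .dd))))) (.br (nat_lit 11) (.br (nat_lit 9) (.ch (nat_lit 8) (.ev (nat_lit 1888) (nat_lit 1024) (.ev (nat_lit
 1901) (nat_lit 8192) .dd))) (.ch (nat_lit 9) (.ev (nat_lit 1888) (nat_lit 8192) (.ev (nat_lit 1901) (nat_lit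
 1024) .dd)))) (.br (nat_lit 12) (.ch (nat_lit 11) (.ev (nat_lit 1908) (nat_lit 1024) (.ev (nat_lit 1917)
 (nat_lit 8192) .dd))) (.ch (nat_lit 12) (.ev (nat_lit 1908) (nat_lit 1024) (.ev (nat_lit 1917) (nat_lit 8192)
 .dd))))))))) (.ch (nat_lit 6) (.ev (nat_lit 1716) (nat_lit 8192) (.nd (nat_lit 2144) (.br (nat_lit 9) (.br
 (nat_lit 6) (.ch (nat_lit 1) (.ev (nat_lit 2180) (nat_lit 512) (.ev (nat_lit 2189) (nat_lit 1024) .dd))) (.ch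
 (nat_lit 6) (.ev (nat_lit 2180) (nat_lit 512) (.ev (nat_lit 2189) (nat_lit 1024) .dd)))) (.br (nat_lit 11)
 (.ch (nat_lit 9) (.nd (nat_lit 5792) (.br (nat_lit 5) (.ch (nat_lit 4) (.ev (nat_lit 5876) (nat_lit 512) (.ev
 (nat_lit 5885) (nat_lit 1024) .dd))) (.ch (nat_lit 5) (.fin (nat_lit 576606437648056907)))))) (.br (nat_lit
 12) (.ch (nat_lit 11) (.ev (nat_lit 2160) (nat_lit 1024) (.ev (nat_lit 2173) (nat_lit 512) .dd))) (.ch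
 (nat_lit 12) (.ev (nat_lit 2160) (nat_lit 1024) (.ev (nat_lit 2173) (nat_lit 512) .dd)))))))))) (.br (nat_lit
 10) (.ch (nat_lit 8) (.ev (nat_lit 608) (nat_lit 1024) (.ev (nat_lit 628) (nat_lit 512) (.ev (nat_lit 637)
 (nat_lit 8192) .dd)))) (.br (nat_lit 11) (.ch (nat_lit 10) (.ev (nat_lit 608) (nat_lit 9216) (.ev (nat_lit
 621) (nat_lit 512) .dd))) (.ch (nat_lit 11) (.ev (nat_lit 628) (nat_lit 1024) (.ev (nat_lit 644) (nat_lit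
 8192) (.ev (nat_lit 653) (nat_lit 512) .dd)))))))))))) (.br (nat_lit 3) (.ch (nat_lit 2) (.ev (nat_lit 48)
 (nat_lit 9224) (.nd (nat_lit 672) (.br (nat_lit 5) (.br (nat_lit 2) (.br (nat_lit 1) (.ch (nat_lit 0) (.ev
 (nat_lit 688) (nat_lit 672) .dd)) (.ch (nat_lit 1) (.ev (nat_lit 688) (nat_lit 544) (.ev (nat_lit 701)
 (nat_lit 128) .dd)))) (.br (nat_lit 3) (.ch (nat_lit 2) (.ev (nat_lit 688) (nat_lit 128) (.nd (nat_lit 1872)
 (.br (nat_lit 8) (.br (nat_lit 3) (.br (nat_lit 2) (.ch (nat_lit 1) (.ev (nat_lit 1888) (nat_lit 32) (.ev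
 (nat_lit 1901) (nat_lit 512) .dd))) (.ch (nat_lit 2) (.ev (nat_lit 1888) (nat_lit 32) (.ev (nat_lit 1901)
 (nat_lit 512) .dd)))) (.br (nat_lit 5) (.ch (nat_lit 3) (.ev (nat_lit 1888) (nat_lit 544) .dd)) (.ch (nat_lit
 5) (.ev (nat_lit 1888) (nat_lit 512) (.ev (nat_lit 1901) (nat_lit 32) .dd))))) (.br (nat_lit 10) (.br (nat_lit
 9) (.ch (nat_lit 8) (.ev (nat_lit 1888) (nat_lit 512) (.ev (nat_lit 1901) (nat_lit 32) .dd))) (.ch (nat_lit 9)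
 (.nd (nat_lit 6000) (.br (nat_lit 7) (.ch (nat_lit 5) (.nd (nat_lit 8128) (.br (nat_lit 3) (.br (nat_lit 1)
 (.ch (nat_lit 0) (.fin (nat_lit 576091865989202138))) (.ch (nat_lit 1) (.ev (nat_lit 8144) (nat_lit 32) (.ev
 (nat_lit 8157) (nat_lit 512) .dd)))) (.br (nat_lit 6) (.ch (nat_lit 3) (.ev (nat_lit 8144) (nat_lit 544) .dd))
 (.br (nat_lit 11) (.ch (nat_lit 6) (.ev (nat_lit 8144) (nat_lit 544) .dd)) (.ch (nat_lit 11) (.ev (nat_lit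
 8164) (nat_lit 32) (.ev (nat_lit 8173) (nat_lit 512) .dd)))))))) (.br (nat_lit 11) (.ch (nat_lit 7) (.ev
 (nat_lit 6016) (nat_lit 32) (.ev (nat_lit 6029) (nat_lit 512) .dd))) (.ch (nat_lit 11) (.ev (nat_lit 6016)
 (nat_lit 32) (.ev (nat_lit 6029) (nat_lit 512) .dd)))))))) (.br (nat_lit 11) (.ch (nat_lit 10) (.ev (nat_lit
 1908) (nat_lit 32) (.ev (nat_lit 1917) (nat_lit 512) .dd))) (.br (nat_lit 12) (.ch (nat_lit 11) (.ev (nat_lit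
 4692) (nat_lit 32) (.ev (nat_lit 4701) (nat_lit 512) .dd))) (.ch (nat_lit 12) (.ev (nat_lit 1888) (nat_lit
 544) .dd))))))))) (.ch (nat_lit 3) (.nd (nat_lit 1872) (.br (nat_lit 8) (.br (nat_lit 2) (.ch (nat_lit 0) (.ev
 (nat_lit 1888) (nat_lit 128) (.ev (nat_lit 4228) (nat_lit 32) (.ev (nat_lit 4237) (nat_lit 512) .dd)))) (.br
 (nat_lit 5) (.ch (nat_lit 2) (.ev (nat_lit 1888) (nat_lit 672) .dd)) (.ch (nat_lit 5) (.ev (nat_lit 1888)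
 (nat_lit 128) (.ev (nat_lit 3204) (nat_lit 512) (.ev (nat_lit 3213) (nat_lit 32) .dd)))))) (.br (nat_lit 10)
 (.ch (nat_lit 8) (.ev (nat_lit 1888) (nat_lit 512) (.ev (nat_lit 2196) (nat_lit 128) (.ev (nat_lit 2205)
 (nat_lit 32) .dd)))) (.br (nat_lit 12) (.ch (nat_lit 10) (.ev (nat_lit 2196) (nat_lit 128) (.ev (nat_lit 3316)
 (nat_lit 32) (.ev (nat_lit 3325) (nat_lit 512) .dd)))) (.ch (nat_lit 12) (.nd (nat_lit 5952) (.br (nat_lit 9)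
 (.ch (nat_lit 0) (.ev (nat_lit 5988) (nat_lit 128) (.nd (nat_lit 7920) (.br (nat_lit 8) (.ch (nat_lit 6) (.fin
 (nat_lit 576467899124236871))) (.ch (nat_lit 8) (.ev (nat_lit 7936) (nat_lit 544) .dd)))))) (.br (nat_lit 10)
 (.ch (nat_lit 9) (.ev (nat_lit 5968) (nat_lit 160) (.ev (nat_lit 5981) (nat_lit 512) .dd))) (.ch (nat_lit 10)
 (.ev (nat_lit 5968) (nat_lit 512) (.fin (nat_lit 576316166452494871))))))))))))))) (.br (nat_lit 7) (.br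
 (nat_lit 6) (.ch (nat_lit 5) (.ev (nat_lit 708) (nat_lit 128) (.nd (nat_lit 1872) (.br (nat_lit 7) (.br
 (nat_lit 1) (.ch (nat_lit 0) (.ev (nat_lit 1888) (nat_lit 512) (.ev (nat_lit 1901) (nat_lit 32) .dd))) (.br
 (nat_lit 5) (.ch (nat_lit 1) (.ev (nat_lit 1888) (nat_lit 512) (.ev (nat_lit 1901) (nat_lit 32) .dd))) (.ch
 (nat_lit 5) (.ev (nat_lit 1888) (nat_lit 32) (.ev (nat_lit 1901) (nat_lit 512) .dd))))) (.br (nat_lit 9) (.ch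
 (nat_lit 7) (.ev (nat_lit 1908) (nat_lit 32) (.ev (nat_lit 1917) (nat_lit 512) .dd))) (.br (nat_lit 11) (.ch
 (nat_lit 9) (.ev (nat_lit 4692) (nat_lit 32) (.ev (nat_lit 4701) (nat_lit 512) .dd))) (.ch (nat_lit 11) (.ev
 (nat_lit 4724) (nat_lit 32) (.ev (nat_lit 4733) (nat_lit 512) .dd))))))))) (.ch (nat_lit 6) (.ev (nat_lit 688)
 (nat_lit 512) (.nd (nat_lit 1872) (.br (nat_lit 6) (.br (nat_lit 1) (.ch (nat_lit 0) (.ev (nat_lit 1888)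
 (nat_lit 32) (.ev (nat_lit 1901) (nat_lit 128) .dd))) (.br (nat_lit 2) (.ch (nat_lit 1) (.ev (nat_lit 1888)
 (nat_lit 32) (.ev (nat_lit 1901) (nat_lit 128) .dd))) (.ch (nat_lit 2) (.ev (nat_lit 1888) (nat_lit 32) (.ev
 (nat_lit 1901) (nat_lit 128) .dd))))) (.br (nat_lit 8) (.ch (nat_lit 6) (.ev (nat_lit 1908) (nat_lit 32) (.ev
 (nat_lit 1917) (nat_lit 128) .dd))) (.br (nat_lit 10) (.ch (nat_lit 8) (.fin (nat_lit 576434913776452134)))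
 (.ch (nat_lit 10) (.ev (nat_lit 1888) (nat_lit 32) (.ev (nat_lit 1901) (nat_lit 128) .dd)))))))))) (.br
 (nat_lit 11) (.ch (nat_lit 7) (.ev (nat_lit 688) (nat_lit 160) (.ev (nat_lit 701) (nat_lit 512) .dd))) (.br
 (nat_lit 12) (.ch (nat_lit 11) (.ev (nat_lit 688) (nat_lit 128) (.nd (nat_lit 1872) (.br (nat_lit 5) (.br
 (nat_lit 1) (.ch (nat_lit 0) (.ev (nat_lit 1888) (nat_lit 544) .dd)) (.br (nat_lit 3) (.ch (nat_lit 1) (.ev
 (nat_lit 1888) (nat_lit 32) (.ev (nat_lit 1901) (nat_lit 512) .dd))) (.ch (nat_lit 3) (.ev (nat_lit 1888)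
 (nat_lit 32) (.ev (nat_lit 1901) (nat_lit 512) .dd))))) (.br (nat_lit 9) (.br (nat_lit 8) (.ch (nat_lit 5)
 (.ev (nat_lit 1908) (nat_lit 512) (.ev (nat_lit 1917) (nat_lit 32) .dd))) (.ch (nat_lit 8) (.ev (nat_lit 1908)
 (nat_lit 32) (.ev (nat_lit 1917) (nat_lit 512) .dd)))) (.br (nat_lit 12) (.ch (nat_lit 9) (.ev (nat_lit 1888)
 (nat_lit 544) .dd)) (.ch (nat_lit 12) (.nd (nat_lit 6000) (.br (nat_lit 4) (.ch (nat_lit 0) (.ev (nat_lit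
 6036) (nat_lit 32) (.ev (nat_lit 6045) (nat_lit 512) .dd))) (.br (nat_lit 5) (.ch (nat_lit 4) (.ev (nat_lit
 6016) (nat_lit 512) (.ev (nat_lit 6029) (nat_lit 32) .dd))) (.ch (nat_lit 5) (.fin (nat_lit
 576344754171101489))))))))))))) (.ch (nat_lit 12) (.ev (nat_lit 688) (nat_lit 32) (.nd (nat_lit 1872) (.br
 (nat_lit 9) (.br (nat_lit 7) (.br (nat_lit 3) (.ch (nat_lit 1) (.ev (nat_lit 1888) (nat_lit 128) (.ev (nat_lit
 1901) (nat_lit 512) .dd))) (.ch (nat_lit 3) (.ev (nat_lit 1972) (nat_lit 128) (.ev (nat_lit 1981) (nat_lit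
 512) .dd)))) (.br (nat_lit 8) (.ch (nat_lit 7) (.ev (nat_lit 2020) (nat_lit 128) (.ev (nat_lit 2029) (nat_lit
 512) .dd))) (.ch (nat_lit 8) (.ev (nat_lit 1888) (nat_lit 128) (.ev (nat_lit 1901) (nat_lit 512) .dd))))) (.br
 (nat_lit 11) (.br (nat_lit 10) (.ch (nat_lit 9) (.ev (nat_lit 1888) (nat_lit 512) (.ev (nat_lit 1901) (nat_lit
 128) .dd))) (.ch (nat_lit 10) (.ev (nat_lit 1888) (nat_lit 512) (.ev (nat_lit 1901) (nat_lit 128) .dd)))) (.br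
 (nat_lit 12) (.ch (nat_lit 11) (.ev (nat_lit 1908) (nat_lit 512) (.ev (nat_lit 1917) (nat_lit 128) .dd))) (.ch
 (nat_lit 12) (.ev (nat_lit 1888) (nat_lit 640) .dd))))))))))))))) (.ch (nat_lit 3) (.ev (nat_lit 48) (nat_lit
 128) (.nd (nat_lit 544) (.br (nat_lit 8) (.br (nat_lit 3) (.br (nat_lit 1) (.ch (nat_lit 0) (.ev (nat_lit 560)
 (nat_lit 9216) (.nd (nat_lit 1632) (.br (nat_lit 7) (.br (nat_lit 2) (.ch (nat_lit 1) (.ev (nat_lit 1648)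
 (nat_lit 32) (.nd (nat_lit 6000) (.br (nat_lit 12) (.ch (nat_lit 6) (.ev (nat_lit 6036) (nat_lit 8) (.ev
 (nat_lit 6045) (nat_lit 512) .dd))) (.ch (nat_lit 12) (.fin (nat_lit 576459103041700421))))))) (.br (nat_lit
 6) (.ch (nat_lit 2) (.ev (nat_lit 1648) (nat_lit 8) (.ev (nat_lit 1668) (nat_lit 32) (.ev (nat_lit 1677)
 (nat_lit 512) .dd)))) (.ch (nat_lit 6) (.ev (nat_lit 1668) (nat_lit 32) (.ev (nat_lit 1764) (nat_lit 8) (.ev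
 (nat_lit 1773) (nat_lit 512) .dd)))))) (.br (nat_lit 9) (.br (nat_lit 8) (.ch (nat_lit 7) (.ev (nat_lit 1668)
 (nat_lit 8) (.ev (nat_lit 1732) (nat_lit 32) (.ev (nat_lit 1741) (nat_lit 512) .dd)))) (.ch (nat_lit 8) (.ev
 (nat_lit 1648) (nat_lit 40) (.ev (nat_lit 1661) (nat_lit 512) .dd)))) (.br (nat_lit 10) (.ch (nat_lit 9) (.ev
 (nat_lit 1648) (nat_lit 512) (.ev (nat_lit 3556) (nat_lit 8) (.ev (nat_lit 3565) (nat_lit 32) .dd)))) (.ch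
 (nat_lit 10) (.ev (nat_lit 1648) (nat_lit 512) (.ev (nat_lit 1668) (nat_lit 32) (.ev (nat_lit 1677) (nat_lit
 8) .dd)))))))))) (.ch (nat_lit 1) (.ev (nat_lit 560) (nat_lit 8) (.nd (nat_lit 1632) (.br (nat_lit 4) (.br
 (nat_lit 2) (.ch (nat_lit 0) (.ev (nat_lit 1648) (nat_lit 1024) (.ev (nat_lit 1668) (nat_lit 8192) (.nd
 (nat_lit 5712) (.br (nat_lit 9) (.ch (nat_lit 2) (.nd (nat_lit 8080) (.br (nat_lit 8) (.ch (nat_lit 7) (.ev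
 (nat_lit 8116) (nat_lit 32) (.ev (nat_lit 8125) (nat_lit 512) .dd))) (.br (nat_lit 9) (.ch (nat_lit 8) (.ev
 (nat_lit 8096) (nat_lit 512) (.ev (nat_lit 8109) (nat_lit 32) .dd))) (.ch (nat_lit 9) (.fin (nat_lit
 576527272891597174))))))) (.ch (nat_lit 9) (.ev (nat_lit 5728) (nat_lit 32) (.ev (nat_lit 5741) (nat_lit 512)
 .dd)))))))) (.br (nat_lit 3) (.ch (nat_lit 2) (.ev (nat_lit 1668) (nat_lit 8192) (.ev (nat_lit 3236) (nat_lit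
 1024) (.ev (nat_lit 4900) (nat_lit 32) (.ev (nat_lit 4909) (nat_lit 512) .dd))))) (.ch (nat_lit 3) (.ev
 (nat_lit 1648) (nat_lit 544) (.ev (nat_lit 1668) (nat_lit 8192) (.ev (nat_lit 1677) (nat_lit 1024) .dd))))))
 (.br (nat_lit 10) (.br (nat_lit 9) (.ch (nat_lit 4) (.ev (nat_lit 1648) (nat_lit 544) (.ev (nat_lit 3876)
 (nat_lit 8192) (.ev (nat_lit 3885) (nat_lit 1024) .dd)))) (.ch (nat_lit 9) (.ev (nat_lit 1668) (nat_lit 8736)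
 (.ev (nat_lit 1677) (nat_lit 1024) .dd)))) (.br (nat_lit 12) (.ch (nat_lit 10) (.ev (nat_lit 1648) (nat_lit
 1024) (.ev (nat_lit 4068) (nat_lit 32) (.ev (nat_lit 4100) (nat_lit 512) (.ev (nat_lit 4109) (nat_lit 8192)
 .dd))))) (.ch (nat_lit 12) (.ev (nat_lit 1648) (nat_lit 8224) (.ev (nat_lit 1668) (nat_lit 512) (.ev (nat_lit
 1677) (nat_lit 1024) .dd))))))))))) (.br (nat_lit 5) (.ch (nat_lit 3) (.ev (nat_lit 560) (nat_lit 1536) (.nd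
 (nat_lit 1216) (.br (nat_lit 5) (.br (nat_lit 2) (.br (nat_lit 1) (.ch (nat_lit 0) (.ev (nat_lit 1232)
 (nat_lit 8) (.nd (nat_lit 4544) (.br (nat_lit 7) (.br (nat_lit 6) (.ch (nat_lit 4) (.ev (nat_lit 4560)
 (nat_lit 8224) .dd)) (.ch (nat_lit 6) (.nd (nat_lit 7248) (.br (nat_lit 5) (.ch (nat_lit 2) (.ev (nat_lit
 7264) (nat_lit 32) (.ev (nat_lit 7277) (nat_lit 8192) .dd))) (.ch (nat_lit 5) (.fin (nat_lit
 576558059090297461))))))) (.br (nat_lit 11) (.ch (nat_lit 7) (.nd (nat_lit 6992) (.br (nat_lit 6) (.br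
 (nat_lit 5) (.ch (nat_lit 2) (.ev (nat_lit 7008) (nat_lit 8224) .dd)) (.ch (nat_lit 5) (.ev (nat_lit 7060)
 (nat_lit 32) (.ev (nat_lit 7069) (nat_lit 8192) .dd)))) (.br (nat_lit 8) (.ch (nat_lit 6) (.ev (nat_lit 7008)
 (nat_lit 8224) .dd)) (.br (nat_lit 12) (.ch (nat_lit 8) (.ev (nat_lit 7008) (nat_lit 32) (.ev (nat_lit 7021)
 (nat_lit 8192) .dd))) (.ch (nat_lit 12) (.fin (nat_lit 575687247375319090)))))))) (.ch (nat_lit 11) (.ev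
 (nat_lit 4580) (nat_lit 8192) (.ev (nat_lit 4589) (nat_lit 32) .dd)))))))) (.ch (nat_lit 1) (.ev (nat_lit
 1232) (nat_lit 8192) (.ev (nat_lit 1252) (nat_lit 8) (.ev (nat_lit 1261) (nat_lit 32) .dd))))) (.br (nat_lit
 4) (.ch (nat_lit 2) (.ev (nat_lit 1232) (nat_lit 40) (.ev (nat_lit 1245) (nat_lit 8192) .dd))) (.ch (nat_lit
 4) (.ev (nat_lit 1232) (nat_lit 8232) .dd)))) (.br (nat_lit 10) (.br (nat_lit 6) (.ch (nat_lit 5) (.ev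
 (nat_lit 1232) (nat_lit 40) (.ev (nat_lit 1245) (nat_lit 8192) .dd))) (.ch (nat_lit 6) (.nd (nat_lit 4544)
 (.br (nat_lit 5) (.ch (nat_lit 2) (.ev (nat_lit 4560) (nat_lit 32) (.fin (nat_lit 576527272482652794)))) (.ch
 (nat_lit 5) (.ev (nat_lit 4560) (nat_lit 8192) (.ev (nat_lit 4708) (nat_lit 32) (.ev (nat_lit 4717) (nat_lit
 8) .dd)))))))) (.br (nat_lit 11) (.ch (nat_lit 10) (.ev (nat_lit 1232) (nat_lit 8192) (.ev (nat_lit 4068)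
 (nat_lit 32) (.ev (nat_lit 4077) (nat_lit 8) .dd)))) (.br (nat_lit 12) (.ch (nat_lit 11) (.ev (nat_lit 1232)
 (nat_lit 32) (.ev (nat_lit 1396) (nat_lit 8192) (.ev (nat_lit 1405) (nat_lit 8) .dd)))) (.ch (nat_lit 12) (.nd
 (nat_lit 4432) (.br (nat_lit 10) (.ch (nat_lit 7) (.ev (nat_lit 4448) (nat_lit 32) (.ev (nat_lit 4932)
 (nat_lit 8) (.ev (nat_lit 4941) (nat_lit 8192) .dd)))) (.br (nat_lit 12) (.ch (nat_lit 10) (.ev (nat_lit 4448)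
 (nat_lit 8192) (.ev (nat_lit 4532) (nat_lit 8) (.ev (nat_lit 4541) (nat_lit 32) .dd)))) (.ch (nat_lit 12) (.ev
 (nat_lit 4448) (nat_lit 8192) (.ev (nat_lit 4468) (nat_lit 8) (.ev (nat_lit 4477) (nat_lit 32)
 .dd))))))))))))))) (.ch (nat_lit 5) (.ev (nat_lit 560) (nat_lit 40) (.ev (nat_lit 580) (nat_lit 512) (.nd
 (nat_lit 1872) (.br (nat_lit 7) (.br (nat_lit 4) (.ch (nat_lit 1) (.nd (nat_lit 5792) (.br (nat_lit 10) (.ch
 (nat_lit 7) (.fin (nat_lit 576206215691321747))) (.ch (nat_lit 10) (.ev (nat_lit 5828) (nat_lit 1024) (.ev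
 (nat_lit 5837) (nat_lit 8192) .dd)))))) (.br (nat_lit 5) (.ch (nat_lit 4) (.ev (nat_lit 1888) (nat_lit 1024)
 (.ev (nat_lit 1901) (nat_lit 8192) .dd))) (.ch (nat_lit 5) (.ev (nat_lit 1888) (nat_lit 8192) (.ev (nat_lit
 1901) (nat_lit 1024) .dd))))) (.br (nat_lit 10) (.ch (nat_lit 7) (.ev (nat_lit 1888) (nat_lit 1024) (.ev
 (nat_lit 1901) (nat_lit 8192) .dd))) (.br (nat_lit 11) (.ch (nat_lit 10) (.ev (nat_lit 1888) (nat_lit 8192)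
 (.ev (nat_lit 1901) (nat_lit 1024) .dd))) (.ch (nat_lit 11) (.ev (nat_lit 1888) (nat_lit 1024) (.ev (nat_lit
 1901) (nat_lit 8192) .dd)))))))))))) (.br (nat_lit 10) (.br (nat_lit 9) (.ch (nat_lit 8) (.ev (nat_lit 560)
 (nat_lit 1536) (.nd (nat_lit 1632) (.br (nat_lit 5) (.br (nat_lit 1) (.ch (nat_lit 0) (.ev (nat_lit 1648)
 (nat_lit 32) (.ev (nat_lit 3876) (nat_lit 8192) (.ev (nat_lit 3885) (nat_lit 8) .dd)))) (.br (nat_lit 3) (.ch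
 (nat_lit 1) (.ev (nat_lit 1648) (nat_lit 8) (.ev (nat_lit 3680) (nat_lit 32) (.ev (nat_lit 3693) (nat_lit
 8192) .dd)))) (.ch (nat_lit 3) (.ev (nat_lit 1648) (nat_lit 8192) (.fin (nat_lit 576479993768919620)))))) (.br
 (nat_lit 8) (.br (nat_lit 6) (.ch (nat_lit 5) (.ev (nat_lit 1668) (nat_lit 40) (.ev (nat_lit 1677) (nat_lit
 8192) .dd))) (.ch (nat_lit 6) (.ev (nat_lit 1648) (nat_lit 8224) (.ev (nat_lit 1661) (nat_lit 8) .dd)))) (.br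
 (nat_lit 9) (.ch (nat_lit 8) (.ev (nat_lit 1648) (nat_lit 8) (.ev (nat_lit 1716) (nat_lit 8192) (.ev (nat_lit
 1725) (nat_lit 32) .dd)))) (.ch (nat_lit 9) (.ev (nat_lit 1668) (nat_lit 8) (.ev (nat_lit 1716) (nat_lit 8192)
 (.ev (nat_lit 1725) (nat_lit 32) .dd)))))))))) (.ch (nat_lit 9) (.ev (nat_lit 560) (nat_lit 552) (.nd (nat_lit
 1632) (.br (nat_lit 7) (.br (nat_lit 3) (.ch (nat_lit 2) (.ev (nat_lit 1648) (nat_lit 8192) (.ev (nat_lit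
 1661) (nat_lit 1024) .dd))) (.br (nat_lit 4) (.ch (nat_lit 3) (.ev (nat_lit 1648) (nat_lit 1024) (.ev (nat_lit
 1661) (nat_lit 8192) .dd))) (.ch (nat_lit 4) (.ev (nat_lit 1668) (nat_lit 8192) (.ev (nat_lit 1677) (nat_lit
 1024) .dd))))) (.br (nat_lit 11) (.ch (nat_lit 7) (.ev (nat_lit 1648) (nat_lit 1024) (.ev (nat_lit 1661)
 (nat_lit 8192) .dd))) (.br (nat_lit 12) (.ch (nat_lit 11) (.nd (nat_lit 5328) (.br (nat_lit 8) (.br (nat_lit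
 4) (.ch (nat_lit 3) (.ev (nat_lit 5344) (nat_lit 9216) .dd)) (.ch (nat_lit 4) (.ev (nat_lit 5344) (nat_lit
 1024) (.ev (nat_lit 5357) (nat_lit 8192) .dd)))) (.br (nat_lit 12) (.ch (nat_lit 8) (.ev (nat_lit 5344)
 (nat_lit 8192) (.ev (nat_lit 5357) (nat_lit 1024) .dd))) (.ch (nat_lit 12) (.nd (nat_lit 7728) (.br (nat_lit
 5) (.ch (nat_lit 1) (.ev (nat_lit 7744) (nat_lit 1024) (.ev (nat_lit 7757) (nat_lit 8192) .dd))) (.ch (nat_lit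
 5) (.fin (nat_lit 576458003531121209)))))))))) (.ch (nat_lit 12) (.nd (nat_lit 5152) (.br (nat_lit 11) (.ch
 (nat_lit 6) (.ev (nat_lit 5168) (nat_lit 1024) (.ev (nat_lit 5181) (nat_lit 8192) .dd))) (.br (nat_lit 12)
 (.ch (nat_lit 11) (.nd (nat_lit 7520) (.br (nat_lit 12) (.ch (nat_lit 2) (.ev (nat_lit 7536) (nat_lit 8192)
 (.ev (nat_lit 7549) (nat_lit 1024) .dd))) (.ch (nat_lit 12) (.fin (nat_lit 576393132685869901)))))) (.ch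
 (nat_lit 12) (.ev (nat_lit 5188) (nat_lit 1024) (.ev (nat_lit 5197) (nat_lit 8192) .dd)))))))))))))) (.br
 (nat_lit 11) (.ch (nat_lit 10) (.ev (nat_lit 560) (nat_lit 8224) (.nd (nat_lit 1120) (.br (nat_lit 8) (.br
 (nat_lit 4) (.br (nat_lit 2) (.ch (nat_lit 0) (.ev (nat_lit 1136) (nat_lit 8) (.ev (nat_lit 1508) (nat_lit
 512) (.ev (nat_lit 1517) (nat_lit 1024) .dd)))) (.ch (nat_lit 2) (.ev (nat_lit 1136) (nat_lit 512) (.ev
 (nat_lit 3888) (nat_lit 8) (.ev (nat_lit 3901) (nat_lit 1024) .dd))))) (.br (nat_lit 7) (.ch (nat_lit 4) (.ev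
 (nat_lit 1136) (nat_lit 1024) (.ev (nat_lit 1844) (nat_lit 512) (.ev (nat_lit 1853) (nat_lit 8) .dd)))) (.ch
 (nat_lit 7) (.ev (nat_lit 1136) (nat_lit 512) (.ev (nat_lit 3696) (nat_lit 1024) (.ev (nat_lit 3709) (nat_lit
 8) .dd)))))) (.br (nat_lit 10) (.br (nat_lit 9) (.ch (nat_lit 8) (.ev (nat_lit 1136) (nat_lit 1536) (.ev
 (nat_lit 1149) (nat_lit 8) .dd))) (.ch (nat_lit 9) (.ev (nat_lit 1136) (nat_lit 1032) (.ev (nat_lit 1149)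
 (nat_lit 512) .dd)))) (.br (nat_lit 11) (.ch (nat_lit 10) (.ev (nat_lit 1136) (nat_lit 1024) (.ev (nat_lit
 1696) (nat_lit 520) .dd))) (.br (nat_lit 12) (.ch (nat_lit 11) (.ev (nat_lit 1136) (nat_lit 8) (.ev (nat_lit
 1524) (nat_lit 512) (.ev (nat_lit 1533) (nat_lit 1024) .dd)))) (.ch (nat_lit 12) (.ev (nat_lit 1136) (nat_lit
 8) (.fin (nat_lit 576531670839542398))))))))))) (.br (nat_lit 12) (.ch (nat_lit 11) (.ev (nat_lit 560)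
 (nat_lit 8232) (.nd (nat_lit 1632) (.br (nat_lit 5) (.br (nat_lit 1) (.ch (nat_lit 0) (.ev (nat_lit 1732)
 (nat_lit 512) (.ev (nat_lit 1741) (nat_lit 1024) .dd))) (.br (nat_lit 2) (.ch (nat_lit 1) (.ev (nat_lit 1648)
 (nat_lit 512) (.ev (nat_lit 1661) (nat_lit 1024) .dd))) (.ch (nat_lit 2) (.ev (nat_lit 1668) (nat_lit 512)
 (.ev (nat_lit 1677) (nat_lit 1024) .dd))))) (.br (nat_lit 10) (.ch (nat_lit 5) (.nd (nat_lit 5840) (.br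
 (nat_lit 12) (.ch (nat_lit 0) (.ev (nat_lit 5876) (nat_lit 512) (.ev (nat_lit 5885) (nat_lit 1024) .dd))) (.ch
 (nat_lit 12) (.fin (nat_lit 576206215391428751)))))) (.br (nat_lit 11) (.ch (nat_lit 10) (.ev (nat_lit 1648)
 (nat_lit 512) (.ev (nat_lit 1661) (nat_lit 1024) .dd))) (.ch (nat_lit 11) (.ev (nat_lit 1668) (nat_lit 512)
 (.ev (nat_lit 1677) (nat_lit 1024) .dd))))))))) (.ch (nat_lit 12) (.ev (nat_lit 560) (nat_lit 1024) (.nd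
 (nat_lit 960) (.br (nat_lit 7) (.br (nat_lit 4) (.ch (nat_lit 1) (.nd (nat_lit 2784) (.br (nat_lit 5) (.br
 (nat_lit 3) (.ch (nat_lit 1) (.ev (nat_lit 2800) (nat_lit 40) (.ev (nat_lit 3460) (nat_lit 8192) (.ev (nat_lit
 3469) (nat_lit 512) .dd)))) (.ch (nat_lit 3) (.ev (nat_lit 2800) (nat_lit 512) (.ev (nat_lit 2820) (nat_lit
 8192) (.ev (nat_lit 3940) (nat_lit 32) (.ev (nat_lit 3949) (nat_lit 8) .dd)))))) (.br (nat_lit 7) (.ch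
 (nat_lit 5) (.ev (nat_lit 2800) (nat_lit 544) (.nd (nat_lit 6448) (.br (nat_lit 10) (.ch (nat_lit 3) (.fin
 (nat_lit 576406325856519091))) (.ch (nat_lit 10) (.ev (nat_lit 6484) (nat_lit 8192) (.ev (nat_lit 6493)
 (nat_lit 8) .dd))))))) (.ch (nat_lit 7) (.ev (nat_lit 2800) (nat_lit 8224) (.ev (nat_lit 2820) (nat_lit 8)
 (.ev (nat_lit 2829) (nat_lit 512) .dd)))))))) (.br (nat_lit 6) (.ch (nat_lit 4) (.ev (nat_lit 976) (nat_lit
 40) (.nd (nat_lit 2992) (.br (nat_lit 3) (.ch (nat_lit 1) (.ev (nat_lit 3028) (nat_lit 512) (.ev (nat_lit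
 3037) (nat_lit 8192) .dd))) (.br (nat_lit 6) (.ch (nat_lit 3) (.fin (nat_lit 576536068791681646))) (.ch
 (nat_lit 6) (.ev (nat_lit 3028) (nat_lit 512) (.ev (nat_lit 3037) (nat_lit 8192) .dd)))))))) (.ch (nat_lit 6)
 (.ev (nat_lit 976) (nat_lit 8200) (.ev (nat_lit 1716) (nat_lit 512) (.ev (nat_lit 1725) (nat_lit 32) .dd))))))
 (.br (nat_lit 11) (.br (nat_lit 9) (.ch (nat_lit 7) (.ev (nat_lit 976) (nat_lit 512) (.nd (nat_lit 2384) (.br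
 (nat_lit 4) (.ch (nat_lit 0) (.ev (nat_lit 2400) (nat_lit 32) (.ev (nat_lit 3332) (nat_lit 8) (.ev (nat_lit
 3341) (nat_lit 8192) .dd)))) (.br (nat_lit 11) (.ch (nat_lit 4) (.ev (nat_lit 3764) (nat_lit 8) (.fin (nat_lit
 576492088409408111)))) (.ch (nat_lit 11) (.ev (nat_lit 4340) (nat_lit 32) (.ev (nat_lit 5028) (nat_lit 8) (.ev
 (nat_lit 5037) (nat_lit 8192) .dd))))))))) (.ch (nat_lit 9) (.ev (nat_lit 976) (nat_lit 8200) (.fin (nat_lit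
 576478894212203102))))) (.br (nat_lit 12) (.ch (nat_lit 11) (.ev (nat_lit 976) (nat_lit 512) (.nd (nat_lit
 2896) (.br (nat_lit 6) (.br (nat_lit 5) (.ch (nat_lit 2) (.ev (nat_lit 2932) (nat_lit 40) (.ev (nat_lit 2941)
 (nat_lit 8192) .dd))) (.ch (nat_lit 5) (.ev (nat_lit 4256) (nat_lit 8) (.fin (nat_lit 576443709787685418)))))
 (.br (nat_lit 8) (.ch (nat_lit 6) (.ev (nat_lit 2912) (nat_lit 32) (.ev (nat_lit 2932) (nat_lit 8192) (.ev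
 (nat_lit 2941) (nat_lit 8) .dd)))) (.br (nat_lit 12) (.ch (nat_lit 8) (.ev (nat_lit 2912) (nat_lit 8192) (.ev
 (nat_lit 4100) (nat_lit 32) (.ev (nat_lit 4109) (nat_lit 8) .dd)))) (.ch (nat_lit 12) (.ev (nat_lit 2912)
 (nat_lit 8) (.ev (nat_lit 3204) (nat_lit 8192) (.ev (nat_lit 3213) (nat_lit 32) .dd)))))))))) (.ch (nat_lit
 12) (.ev (nat_lit 976) (nat_lit 8224) (.ev (nat_lit 1012) (nat_lit 8) (.ev (nat_lit 1021) (nat_lit 512)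
 .dd))))))))))))))))))) (.br (nat_lit 8) (.br (nat_lit 7) (.ch (nat_lit 6) (.ev (nat_lit 48) (nat_lit 128) (.nd
 (nat_lit 544) (.br (nat_lit 4) (.br (nat_lit 2) (.br (nat_lit 1) (.ch (nat_lit 0) (.ev (nat_lit 560) (nat_lit
 32) (.nd (nat_lit 1216) (.br (nat_lit 5) (.br (nat_lit 2) (.ch (nat_lit 1) (.ev (nat_lit 1232) (nat_lit 8200)
 (.ev (nat_lit 3876) (nat_lit 512) (.ev (nat_lit 3885) (nat_lit 1024) .dd)))) (.br (nat_lit 3) (.ch (nat_lit 2)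
 (.ev (nat_lit 1232) (nat_lit 8200) (.ev (nat_lit 1252) (nat_lit 512) (.ev (nat_lit 1261) (nat_lit 1024)
 .dd)))) (.ch (nat_lit 3) (.ev (nat_lit 1252) (nat_lit 512) (.nd (nat_lit 2992) (.br (nat_lit 4) (.br (nat_lit
 1) (.ch (nat_lit 0) (.ev (nat_lit 3008) (nat_lit 8) (.ev (nat_lit 3028) (nat_lit 8192) (.ev (nat_lit 3037)
 (nat_lit 1024) .dd)))) (.br (nat_lit 2) (.ch (nat_lit 1) (.ev (nat_lit 3008) (nat_lit 1024) (.ev (nat_lit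
 4500) (nat_lit 8) (.ev (nat_lit 4509) (nat_lit 8192) .dd)))) (.ch (nat_lit 2) (.ev (nat_lit 3008) (nat_lit
 1024) (.ev (nat_lit 4900) (nat_lit 8) (.ev (nat_lit 4909) (nat_lit 8192) .dd)))))) (.br (nat_lit 9) (.br
 (nat_lit 8) (.ch (nat_lit 4) (.ev (nat_lit 3028) (nat_lit 8192) (.ev (nat_lit 3124) (nat_lit 1024) (.ev
 (nat_lit 3133) (nat_lit 8) .dd)))) (.ch (nat_lit 8) (.ev (nat_lit 3008) (nat_lit 8200) (.ev (nat_lit 3021)
 (nat_lit 1024) .dd)))) (.br (nat_lit 11) (.ch (nat_lit 9) (.ev (nat_lit 3008) (nat_lit 1024) (.ev (nat_lit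
 4304) (nat_lit 8) (.ev (nat_lit 4317) (nat_lit 8192) .dd)))) (.ch (nat_lit 11) (.ev (nat_lit 3008) (nat_lit 8)
 (.ev (nat_lit 3172) (nat_lit 1024) (.ev (nat_lit 3181) (nat_lit 8192) .dd)))))))))))) (.br (nat_lit 8) (.br
 (nat_lit 6) (.ch (nat_lit 5) (.ev (nat_lit 1232) (nat_lit 1024) (.ev (nat_lit 1252) (nat_lit 512) (.nd
 (nat_lit 2896) (.br (nat_lit 8) (.br (nat_lit 2) (.ch (nat_lit 1) (.ev (nat_lit 4740) (nat_lit 8) (.ev
 (nat_lit 4749) (nat_lit 8192) .dd))) (.ch (nat_lit 2) (.nd (nat_lit 6080) (.br (nat_lit 1) (.ch (nat_lit 0)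
 (.ev (nat_lit 6096) (nat_lit 8192) (.ev (nat_lit 6109) (nat_lit 8) .dd))) (.br (nat_lit 12) (.ch (nat_lit 1)
 (.ev (nat_lit 6292) (nat_lit 8192) (.ev (nat_lit 6301) (nat_lit 8) .dd))) (.ch (nat_lit 12) (.fin (nat_lit
 576527272625259334)))))))) (.br (nat_lit 12) (.ch (nat_lit 8) (.ev (nat_lit 2912) (nat_lit 8) (.ev (nat_lit
 2925) (nat_lit 8192) .dd))) (.ch (nat_lit 12) (.ev (nat_lit 3716) (nat_lit 8192) (.ev (nat_lit 3725) (nat_lit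
 8) .dd))))))))) (.ch (nat_lit 6) (.ev (nat_lit 1232) (nat_lit 520) (.ev (nat_lit 1252) (nat_lit 1024) (.ev
 (nat_lit 1261) (nat_lit 8192) .dd))))) (.br (nat_lit 9) (.ch (nat_lit 8) (.ev (nat_lit 1232) (nat_lit 1024)
 (.nd (nat_lit 2992) (.br (nat_lit 11) (.ch (nat_lit 0) (.ev (nat_lit 3972) (nat_lit 8) (.ev (nat_lit 4100)
 (nat_lit 8192) (.ev (nat_lit 4109) (nat_lit 512) .dd)))) (.br (nat_lit 12) (.ch (nat_lit 11) (.ev (nat_lit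
 3028) (nat_lit 8200) (.ev (nat_lit 3037) (nat_lit 512) .dd))) (.ch (nat_lit 12) (.ev (nat_lit 3008) (nat_lit
 512) (.ev (nat_lit 3988) (nat_lit 8192) (.ev (nat_lit 3997) (nat_lit 8) .dd))))))))) (.ch (nat_lit 9) (.ev
 (nat_lit 1252) (nat_lit 1544) (.ev (nat_lit 1261) (nat_lit 8192) .dd))))))))) (.ch (nat_lit 1) (.ev (nat_lit
 560) (nat_lit 1536) (.nd (nat_lit 1440) (.br (nat_lit 3) (.br (nat_lit 1) (.ch (nat_lit 0) (.ev (nat_lit 1456)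
 (nat_lit 8192) (.ev (nat_lit 3556) (nat_lit 32) (.ev (nat_lit 3565) (nat_lit 8) .dd)))) (.br (nat_lit 2) (.ch
 (nat_lit 1) (.ev (nat_lit 1456) (nat_lit 40) (.ev (nat_lit 1469) (nat_lit 8192) .dd))) (.ch (nat_lit 2) (.ev
 (nat_lit 1476) (nat_lit 32) (.ev (nat_lit 1732) (nat_lit 8) (.ev (nat_lit 1741) (nat_lit 8192) .dd)))))) (.br
 (nat_lit 8) (.br (nat_lit 7) (.ch (nat_lit 3) (.ev (nat_lit 1476) (nat_lit 8) (.ev (nat_lit 1764) (nat_lit 32)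
 (.ev (nat_lit 1773) (nat_lit 8192) .dd)))) (.ch (nat_lit 7) (.ev (nat_lit 1456) (nat_lit 32) (.ev (nat_lit
 1492) (nat_lit 8192) (.ev (nat_lit 1501) (nat_lit 8) .dd))))) (.br (nat_lit 12) (.ch (nat_lit 8) (.ev (nat_lit
 1456) (nat_lit 8) (.nd (nat_lit 5952) (.br (nat_lit 7) (.ch (nat_lit 0) (.ev (nat_lit 5988) (nat_lit 32) (.ev
 (nat_lit 5997) (nat_lit 8192) .dd))) (.ch (nat_lit 7) (.fin (nat_lit 576459103033311801))))))) (.ch (nat_lit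
 12) (.ev (nat_lit 1456) (nat_lit 8192) (.ev (nat_lit 1476) (nat_lit 8) (.ev (nat_lit 1485) (nat_lit 32)
 .dd))))))))))) (.br (nat_lit 3) (.ch (nat_lit 2) (.ev (nat_lit 560) (nat_lit 1024) (.nd (nat_lit 960) (.br
 (nat_lit 5) (.br (nat_lit 1) (.ch (nat_lit 0) (.ev (nat_lit 976) (nat_lit 520) (.ev (nat_lit 1012) (nat_lit
 32) (.ev (nat_lit 1021) (nat_lit 8192) .dd)))) (.br (nat_lit 3) (.ch (nat_lit 1) (.ev (nat_lit 976) (nat_lit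
 8192) (.nd (nat_lit 3632) (.br (nat_lit 8) (.br (nat_lit 6) (.ch (nat_lit 2) (.ev (nat_lit 3648) (nat_lit 32)
 (.ev (nat_lit 3668) (nat_lit 512) (.ev (nat_lit 3677) (nat_lit 8) .dd)))) (.ch (nat_lit 6) (.ev (nat_lit 3648)
 (nat_lit 512) (.ev (nat_lit 4100) (nat_lit 8) (.ev (nat_lit 4109) (nat_lit 32) .dd))))) (.br (nat_lit 9) (.ch
 (nat_lit 8) (.ev (nat_lit 3648) (nat_lit 8) (.ev (nat_lit 3668) (nat_lit 32) (.ev (nat_lit 3677) (nat_lit 512)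
 .dd)))) (.br (nat_lit 12) (.ch (nat_lit 9) (.ev (nat_lit 4256) (nat_lit 32) (.fin (nat_lit
 576443709961749062)))) (.ch (nat_lit 12) (.ev (nat_lit 3668) (nat_lit 40) (.ev (nat_lit 3677) (nat_lit 512)
 .dd))))))))) (.ch (nat_lit 3) (.ev (nat_lit 976) (nat_lit 544) (.nd (nat_lit 2992) (.br (nat_lit 8) (.ch
 (nat_lit 5) (.fin (nat_lit 576478894281409074))) (.ch (nat_lit 8) (.ev (nat_lit 3396) (nat_lit 8192) (.ev
 (nat_lit 3405) (nat_lit 8) .dd))))))))) (.br (nat_lit 8) (.br (nat_lit 6) (.ch (nat_lit 5) (.ev (nat_lit 976)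
 (nat_lit 8192) (.nd (nat_lit 2544) (.br (nat_lit 4) (.ch (nat_lit 0) (.ev (nat_lit 3764) (nat_lit 32) (.fin
 (nat_lit 576492088363270701)))) (.br (nat_lit 6) (.ch (nat_lit 4) (.ev (nat_lit 2560) (nat_lit 8) (.ev
 (nat_lit 3332) (nat_lit 32) (.ev (nat_lit 3341) (nat_lit 512) .dd)))) (.ch (nat_lit 6) (.ev (nat_lit 4340)
 (nat_lit 8) (.ev (nat_lit 5028) (nat_lit 32) (.ev (nat_lit 5037) (nat_lit 512) .dd))))))))) (.ch (nat_lit 6)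
 (.ev (nat_lit 976) (nat_lit 544) (.ev (nat_lit 1716) (nat_lit 8192) (.ev (nat_lit 1725) (nat_lit 8) .dd)))))
 (.br (nat_lit 11) (.ch (nat_lit 8) (.ev (nat_lit 976) (nat_lit 40) (.nd (nat_lit 5216) (.br (nat_lit 10) (.ch
 (nat_lit 0) (.fin (nat_lit 576536068911219286))) (.ch (nat_lit 10) (.ev (nat_lit 5252) (nat_lit 512) (.ev
 (nat_lit 5261) (nat_lit 8192) .dd))))))) (.ch (nat_lit 11) (.nd (nat_lit 2384) (.br (nat_lit 8) (.br (nat_lit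
 2) (.ch (nat_lit 1) (.ev (nat_lit 2400) (nat_lit 40) (.ev (nat_lit 3460) (nat_lit 512) (.ev (nat_lit 3469)
 (nat_lit 8192) .dd)))) (.ch (nat_lit 2) (.ev (nat_lit 2400) (nat_lit 8704) (.ev (nat_lit 2580) (nat_lit 32)
 (.ev (nat_lit 2589) (nat_lit 8) .dd))))) (.br (nat_lit 10) (.ch (nat_lit 8) (.ev (nat_lit 2400) (nat_lit 520)
 (.ev (nat_lit 2612) (nat_lit 32) (.ev (nat_lit 2621) (nat_lit 8192) .dd)))) (.br (nat_lit 12) (.ch (nat_lit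
 10) (.ev (nat_lit 2400) (nat_lit 8200) (.nd (nat_lit 8048) (.br (nat_lit 8) (.ch (nat_lit 1) (.ev (nat_lit
 8068) (nat_lit 32) (.ev (nat_lit 8077) (nat_lit 512) .dd))) (.ch (nat_lit 8) (.fin (nat_lit
 576406327102226587))))))) (.ch (nat_lit 12) (.ev (nat_lit 2400) (nat_lit 8192) (.ev (nat_lit 2420) (nat_lit
 512) (.ev (nat_lit 3940) (nat_lit 8) (.ev (nat_lit 3949) (nat_lit 32) .dd)))))))))))))))) (.ch (nat_lit 3)
 (.ev (nat_lit 560) (nat_lit 552) (.nd (nat_lit 1632) (.br (nat_lit 5) (.br (nat_lit 2) (.ch (nat_lit 1) (.ev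
 (nat_lit 1668) (nat_lit 8192) (.ev (nat_lit 1677) (nat_lit 1024) .dd))) (.br (nat_lit 3) (.ch (nat_lit 2) (.ev
 (nat_lit 1648) (nat_lit 8192) (.ev (nat_lit 1661) (nat_lit 1024) .dd))) (.ch (nat_lit 3) (.ev (nat_lit 1732)
 (nat_lit 8192) (.ev (nat_lit 1741) (nat_lit 1024) .dd))))) (.br (nat_lit 6) (.ch (nat_lit 5) (.ev (nat_lit
 1668) (nat_lit 8192) (.ev (nat_lit 1677) (nat_lit 1024) .dd))) (.br (nat_lit 11) (.ch (nat_lit 6) (.ev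
 (nat_lit 1648) (nat_lit 8192) (.ev (nat_lit 1661) (nat_lit 1024) .dd))) (.ch (nat_lit 11) (.nd (nat_lit 5712)
 (.br (nat_lit 7) (.ch (nat_lit 6) (.ev (nat_lit 5748) (nat_lit 1024) (.ev (nat_lit 5757) (nat_lit 8192) .dd)))
 (.ch (nat_lit 7) (.fin (nat_lit 576206215334806281)))))))))))))) (.br (nat_lit 6) (.br (nat_lit 5) (.ch
 (nat_lit 4) (.ev (nat_lit 560) (nat_lit 520) (.nd (nat_lit 1296) (.br (nat_lit 8) (.br (nat_lit 5) (.br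
 (nat_lit 3) (.ch (nat_lit 0) (.ev (nat_lit 1312) (nat_lit 8192) (.ev (nat_lit 3696) (nat_lit 1024) (.ev
 (nat_lit 3709) (nat_lit 32) .dd)))) (.ch (nat_lit 3) (.ev (nat_lit 1312) (nat_lit 1024) (.ev (nat_lit 1844)
 (nat_lit 8192) (.ev (nat_lit 1853) (nat_lit 32) .dd))))) (.br (nat_lit 7) (.ch (nat_lit 5) (.ev (nat_lit 1312)
 (nat_lit 8192) (.ev (nat_lit 3888) (nat_lit 32) (.ev (nat_lit 3901) (nat_lit 1024) .dd)))) (.ch (nat_lit 7)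
 (.ev (nat_lit 1312) (nat_lit 32) (.ev (nat_lit 1476) (nat_lit 1024) (.ev (nat_lit 1485) (nat_lit 8192)
 .dd)))))) (.br (nat_lit 10) (.br (nat_lit 9) (.ch (nat_lit 8) (.ev (nat_lit 1312) (nat_lit 32) (.fin (nat_lit
 576531670770336322)))) (.ch (nat_lit 9) (.ev (nat_lit 1312) (nat_lit 32) (.ev (nat_lit 1492) (nat_lit 1024)
 (.ev (nat_lit 1501) (nat_lit 8192) .dd))))) (.br (nat_lit 11) (.ch (nat_lit 10) (.ev (nat_lit 1312) (nat_lit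
 1024) (.ev (nat_lit 1696) (nat_lit 8224) .dd))) (.br (nat_lit 12) (.ch (nat_lit 11) (.ev (nat_lit 1312)
 (nat_lit 1056) (.ev (nat_lit 1325) (nat_lit 8192) .dd))) (.ch (nat_lit 12) (.ev (nat_lit 1312) (nat_lit 9216)
 (.ev (nat_lit 1325) (nat_lit 32) .dd)))))))))) (.ch (nat_lit 5) (.ev (nat_lit 560) (nat_lit 8232) (.nd
 (nat_lit 1632) (.br (nat_lit 8) (.br (nat_lit 4) (.ch (nat_lit 0) (.nd (nat_lit 5712) (.br (nat_lit 6) (.br
 (nat_lit 2) (.ch (nat_lit 1) (.ev (nat_lit 5728) (nat_lit 1024) (.ev (nat_lit 5741) (nat_lit 512) .dd))) (.ch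
 (nat_lit 2) (.ev (nat_lit 5728) (nat_lit 1536) .dd))) (.br (nat_lit 10) (.ch (nat_lit 6) (.nd (nat_lit 8016)
 (.br (nat_lit 10) (.ch (nat_lit 1) (.ev (nat_lit 8032) (nat_lit 1024) (.ev (nat_lit 8045) (nat_lit 512) .dd)))
 (.ch (nat_lit 10) (.fin (nat_lit 576464600600887868)))))) (.ch (nat_lit 10) (.ev (nat_lit 5728) (nat_lit 512)
 (.ev (nat_lit 5741) (nat_lit 1024) .dd))))))) (.br (nat_lit 7) (.ch (nat_lit 4) (.ev (nat_lit 1648) (nat_lit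
 1024) (.ev (nat_lit 1661) (nat_lit 512) .dd))) (.ch (nat_lit 7) (.ev (nat_lit 1668) (nat_lit 512) (.ev
 (nat_lit 1677) (nat_lit 1024) .dd))))) (.br (nat_lit 9) (.ch (nat_lit 8) (.ev (nat_lit 1648) (nat_lit 1024)
 (.ev (nat_lit 1661) (nat_lit 512) .dd))) (.br (nat_lit 12) (.ch (nat_lit 9) (.ev (nat_lit 1648) (nat_lit 512)
 (.ev (nat_lit 1661) (nat_lit 1024) .dd))) (.ch (nat_lit 12) (.nd (nat_lit 5280) (.br (nat_lit 2) (.ch (nat_lit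
 1) (.ev (nat_lit 5316) (nat_lit 512) (.ev (nat_lit 5325) (nat_lit 1024) .dd))) (.br (nat_lit 7) (.ch (nat_lit
 2) (.nd (nat_lit 7792) (.br (nat_lit 12) (.ch (nat_lit 2) (.fin (nat_lit 576393131993809141))) (.ch (nat_lit
 12) (.ev (nat_lit 7808) (nat_lit 512) (.ev (nat_lit 7821) (nat_lit 1024) .dd)))))) (.ch (nat_lit 7) (.ev
 (nat_lit 5296) (nat_lit 1024) (.ev (nat_lit 5309) (nat_lit 512) .dd)))))))))))))) (.br (nat_lit 9) (.ch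
 (nat_lit 6) (.ev (nat_lit 560) (nat_lit 9216) (.nd (nat_lit 1440) (.br (nat_lit 7) (.br (nat_lit 2) (.ch
 (nat_lit 1) (.ev (nat_lit 1456) (nat_lit 32) (.ev (nat_lit 3680) (nat_lit 8) (.ev (nat_lit 3693) (nat_lit 512)
 .dd)))) (.br (nat_lit 6) (.ch (nat_lit 2) (.ev (nat_lit 1456) (nat_lit 8) (.ev (nat_lit 3876) (nat_lit 512)
 (.ev (nat_lit 3885) (nat_lit 32) .dd)))) (.ch (nat_lit 6) (.ev (nat_lit 1492) (nat_lit 32) (.ev (nat_lit 1716)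
 (nat_lit 512) (.ev (nat_lit 1725) (nat_lit 8) .dd)))))) (.br (nat_lit 10) (.br (nat_lit 9) (.ch (nat_lit 7)
 (.ev (nat_lit 1456) (nat_lit 32) (.ev (nat_lit 1716) (nat_lit 512) (.ev (nat_lit 1725) (nat_lit 8) .dd))))
 (.ch (nat_lit 9) (.ev (nat_lit 1456) (nat_lit 520) (.ev (nat_lit 1469) (nat_lit 32) .dd)))) (.br (nat_lit 12)
 (.ch (nat_lit 10) (.ev (nat_lit 1476) (nat_lit 8) (.ev (nat_lit 1508) (nat_lit 32) (.ev (nat_lit 1517)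
 (nat_lit 512) .dd)))) (.ch (nat_lit 12) (.ev (nat_lit 1456) (nat_lit 512) (.fin (nat_lit
 576479993747948109)))))))))) (.br (nat_lit 11) (.ch (nat_lit 9) (.ev (nat_lit 560) (nat_lit 40) (.ev (nat_lit
 580) (nat_lit 8192) (.nd (nat_lit 1872) (.br (nat_lit 7) (.br (nat_lit 3) (.ch (nat_lit 0) (.nd (nat_lit 5952)
 (.br (nat_lit 12) (.ch (nat_lit 9) (.ev (nat_lit 5988) (nat_lit 512) (.ev (nat_lit 5997) (nat_lit 1024) .dd)))
 (.ch (nat_lit 12) (.fin (nat_lit 576206215034913285)))))) (.br (nat_lit 4) (.ch (nat_lit 3) (.ev (nat_lit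
 1888) (nat_lit 1024) (.ev (nat_lit 1901) (nat_lit 512) .dd))) (.ch (nat_lit 4) (.ev (nat_lit 1888) (nat_lit
 512) (.ev (nat_lit 1901) (nat_lit 1024) .dd))))) (.br (nat_lit 9) (.ch (nat_lit 7) (.ev (nat_lit 1888)
 (nat_lit 1024) (.ev (nat_lit 1901) (nat_lit 512) .dd))) (.br (nat_lit 10) (.ch (nat_lit 9) (.ev (nat_lit 1888)
 (nat_lit 512) (.ev (nat_lit 1901) (nat_lit 1024) .dd))) (.ch (nat_lit 10) (.ev (nat_lit 1888) (nat_lit 1024)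
 (.ev (nat_lit 1901) (nat_lit 512) .dd)))))))))) (.ch (nat_lit 11) (.ev (nat_lit 560) (nat_lit 9216) (.nd
 (nat_lit 1296) (.br (nat_lit 8) (.br (nat_lit 5) (.br (nat_lit 4) (.ch (nat_lit 3) (.ev (nat_lit 4708)
 (nat_lit 8) (.fin (nat_lit 576527273034203714)))) (.ch (nat_lit 4) (.ev (nat_lit 1312) (nat_lit 40) (.ev
 (nat_lit 1325) (nat_lit 512) .dd)))) (.br (nat_lit 7) (.ch (nat_lit 5) (.ev (nat_lit 1312) (nat_lit 552) .dd))
 (.ch (nat_lit 7) (.ev (nat_lit 1312) (nat_lit 40) (.ev (nat_lit 1325) (nat_lit 512) .dd))))) (.br (nat_lit 10)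
 (.br (nat_lit 9) (.ch (nat_lit 8) (.ev (nat_lit 1312) (nat_lit 512) (.ev (nat_lit 1332) (nat_lit 8) (.ev
 (nat_lit 1341) (nat_lit 32) .dd)))) (.ch (nat_lit 9) (.ev (nat_lit 1312) (nat_lit 32) (.nd (nat_lit 4544) (.br
 (nat_lit 6) (.br (nat_lit 5) (.ch (nat_lit 1) (.ev (nat_lit 4580) (nat_lit 512) (.ev (nat_lit 4589) (nat_lit
 8) .dd))) (.ch (nat_lit 5) (.nd (nat_lit 7472) (.br (nat_lit 4) (.br (nat_lit 1) (.ch (nat_lit 0) (.ev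
 (nat_lit 7488) (nat_lit 520) .dd)) (.ch (nat_lit 1) (.ev (nat_lit 7508) (nat_lit 8) (.ev (nat_lit 7517)
 (nat_lit 512) .dd)))) (.br (nat_lit 7) (.ch (nat_lit 4) (.ev (nat_lit 7488) (nat_lit 520) .dd)) (.br (nat_lit
 11) (.ch (nat_lit 7) (.fin (nat_lit 575687244374294926))) (.ch (nat_lit 11) (.ev (nat_lit 7488) (nat_lit 8)
 (.ev (nat_lit 7501) (nat_lit 512) .dd))))))))) (.br (nat_lit 8) (.ch (nat_lit 6) (.nd (nat_lit 7312) (.br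
 (nat_lit 8) (.ch (nat_lit 5) (.fin (nat_lit 576558059077714531))) (.ch (nat_lit 8) (.ev (nat_lit 7328)
 (nat_lit 8) (.ev (nat_lit 7341) (nat_lit 512) .dd)))))) (.ch (nat_lit 8) (.ev (nat_lit 4560) (nat_lit 520)
 .dd)))))))) (.br (nat_lit 11) (.ch (nat_lit 10) (.ev (nat_lit 4932) (nat_lit 32) (.ev (nat_lit 4980) (nat_lit
 512) (.ev (nat_lit 4989) (nat_lit 8) .dd)))) (.br (nat_lit 12) (.ch (nat_lit 11) (.ev (nat_lit 1312) (nat_lit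
 8) (.ev (nat_lit 1396) (nat_lit 512) (.ev (nat_lit 1405) (nat_lit 32) .dd)))) (.ch (nat_lit 12) (.ev (nat_lit
 1312) (nat_lit 512) (.ev (nat_lit 4068) (nat_lit 8) (.ev (nat_lit 4077) (nat_lit 32) .dd))))))))))))))))))
 (.ch (nat_lit 7) (.ev (nat_lit 48) (nat_lit 1568) (.nd (nat_lit 544) (.br (nat_lit 4) (.br (nat_lit 2) (.br
 (nat_lit 1) (.ch (nat_lit 0) (.ev (nat_lit 560) (nat_lit 128) (.nd (nat_lit 1216) (.br (nat_lit 6) (.br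
 (nat_lit 2) (.br (nat_lit 1) (.ch (nat_lit 0) (.ev (nat_lit 4692) (nat_lit 8) (.ev (nat_lit 4701) (nat_lit
 8192) .dd))) (.ch (nat_lit 1) (.ev (nat_lit 1556) (nat_lit 8192) (.ev (nat_lit 1565) (nat_lit 8) .dd)))) (.br
 (nat_lit 3) (.ch (nat_lit 2) (.nd (nat_lit 2992) (.br (nat_lit 6) (.br (nat_lit 1) (.ch (nat_lit 0) (.ev
 (nat_lit 3008) (nat_lit 8) (.ev (nat_lit 3021) (nat_lit 8192) .dd))) (.br (nat_lit 4) (.ch (nat_lit 1) (.ev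
 (nat_lit 3028) (nat_lit 8192) (.ev (nat_lit 3037) (nat_lit 8) .dd))) (.ch (nat_lit 4) (.ev (nat_lit 3008)
 (nat_lit 8) (.ev (nat_lit 3021) (nat_lit 8192) .dd))))) (.br (nat_lit 9) (.ch (nat_lit 6) (.nd (nat_lit 6080)
 (.br (nat_lit 4) (.br (nat_lit 2) (.ch (nat_lit 1) (.ev (nat_lit 6096) (nat_lit 8) (.ev (nat_lit 6109)
 (nat_lit 8192) .dd))) (.ch (nat_lit 2) (.fin (nat_lit 576091866318455382)))) (.br (nat_lit 9) (.ch (nat_lit 4)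
 (.ev (nat_lit 6164) (nat_lit 8) (.ev (nat_lit 6173) (nat_lit 8192) .dd))) (.br (nat_lit 12) (.ch (nat_lit 9)
 (.ev (nat_lit 6096) (nat_lit 8200) .dd)) (.ch (nat_lit 12) (.ev (nat_lit 6096) (nat_lit 8200) .dd))))))) (.br
 (nat_lit 12) (.ch (nat_lit 9) (.ev (nat_lit 4276) (nat_lit 8) (.ev (nat_lit 4285) (nat_lit 8192) .dd))) (.ch
 (nat_lit 12) (.ev (nat_lit 3124) (nat_lit 8) (.ev (nat_lit 3133) (nat_lit 8192) .dd)))))))) (.ch (nat_lit 3)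
 (.ev (nat_lit 1232) (nat_lit 8192) (.ev (nat_lit 1245) (nat_lit 8) .dd))))) (.br (nat_lit 9) (.br (nat_lit 8)
 (.ch (nat_lit 6) (.ev (nat_lit 1232) (nat_lit 8192) (.ev (nat_lit 1245) (nat_lit 8) .dd))) (.ch (nat_lit 8)
 (.ev (nat_lit 1232) (nat_lit 8200) .dd))) (.br (nat_lit 10) (.ch (nat_lit 9) (.ev (nat_lit 1232) (nat_lit 8)
 (.ev (nat_lit 1245) (nat_lit 8192) .dd))) (.br (nat_lit 12) (.ch (nat_lit 10) (.ev (nat_lit 1232) (nat_lit 8)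
 (.ev (nat_lit 1245) (nat_lit 8192) .dd))) (.ch (nat_lit 12) (.ev (nat_lit 1232) (nat_lit 8200) .dd)))))))))
 (.ch (nat_lit 1) (.ev (nat_lit 560) (nat_lit 8200) (.ev (nat_lit 573) (nat_lit 128) .dd)))) (.br (nat_lit 3)
 (.ch (nat_lit 2) (.ev (nat_lit 560) (nat_lit 8328) .dd)) (.ch (nat_lit 3) (.ev (nat_lit 560) (nat_lit 8) (.nd
 (nat_lit 1632) (.br (nat_lit 6) (.br (nat_lit 3) (.br (nat_lit 2) (.ch (nat_lit 1) (.ev (nat_lit 1972)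
 (nat_lit 128) (.ev (nat_lit 1981) (nat_lit 8192) .dd))) (.ch (nat_lit 2) (.ev (nat_lit 1648) (nat_lit 8320)
 .dd))) (.br (nat_lit 5) (.ch (nat_lit 3) (.ev (nat_lit 1648) (nat_lit 128) (.ev (nat_lit 1661) (nat_lit 8192)
 .dd))) (.ch (nat_lit 5) (.ev (nat_lit 1648) (nat_lit 128) (.ev (nat_lit 1661) (nat_lit 8192) .dd))))) (.br
 (nat_lit 8) (.br (nat_lit 7) (.ch (nat_lit 6) (.ev (nat_lit 1668) (nat_lit 8192) (.ev (nat_lit 1677) (nat_lit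
 128) .dd))) (.ch (nat_lit 7) (.ev (nat_lit 1648) (nat_lit 8192) (.ev (nat_lit 1661) (nat_lit 128) .dd)))) (.br
 (nat_lit 9) (.ch (nat_lit 8) (.ev (nat_lit 1648) (nat_lit 8192) (.ev (nat_lit 1661) (nat_lit 128) .dd))) (.br
 (nat_lit 10) (.ch (nat_lit 9) (.ev (nat_lit 1648) (nat_lit 128) (.ev (nat_lit 1661) (nat_lit 8192) .dd))) (.ch
 (nat_lit 10) (.ev (nat_lit 2020) (nat_lit 128) (.ev (nat_lit 2029) (nat_lit 8192) .dd)))))))))))) (.br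
 (nat_lit 9) (.br (nat_lit 8) (.ch (nat_lit 4) (.ev (nat_lit 560) (nat_lit 128) (.nd (nat_lit 1632) (.br
 (nat_lit 6) (.br (nat_lit 2) (.ch (nat_lit 1) (.ev (nat_lit 1648) (nat_lit 8) (.ev (nat_lit 1661) (nat_lit
 8192) .dd))) (.br (nat_lit 3) (.ch (nat_lit 2) (.ev (nat_lit 1648) (nat_lit 8200) .dd)) (.ch (nat_lit 3) (.nd
 (nat_lit 5632) (.br (nat_lit 8) (.ch (nat_lit 0) (.ev (nat_lit 5668) (nat_lit 8) (.ev (nat_lit 5677) (nat_lit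
 8192) .dd))) (.br (nat_lit 9) (.ch (nat_lit 8) (.fin (nat_lit 576344753485333221))) (.ch (nat_lit 9) (.ev
 (nat_lit 5648) (nat_lit 8192) (.ev (nat_lit 5661) (nat_lit 8) .dd))))))))) (.br (nat_lit 10) (.br (nat_lit 7)
 (.ch (nat_lit 6) (.ev (nat_lit 1648) (nat_lit 8200) .dd)) (.ch (nat_lit 7) (.ev (nat_lit 1668) (nat_lit 8192)
 (.ev (nat_lit 1677) (nat_lit 8) .dd)))) (.br (nat_lit 12) (.ch (nat_lit 10) (.ev (nat_lit 1668) (nat_lit 8192)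
 (.ev (nat_lit 1677) (nat_lit 8) .dd))) (.ch (nat_lit 12) (.ev (nat_lit 1648) (nat_lit 8) (.ev (nat_lit 1661)
 (nat_lit 8192) .dd))))))))) (.ch (nat_lit 8) (.ev (nat_lit 560) (nat_lit 136) (.ev (nat_lit 573) (nat_lit
 8192) .dd)))) (.br (nat_lit 10) (.ch (nat_lit 9) (.ev (nat_lit 560) (nat_lit 8192) (.nd (nat_lit 1872) (.br
 (nat_lit 8) (.br (nat_lit 4) (.ch (nat_lit 3) (.ev (nat_lit 1888) (nat_lit 8) (.ev (nat_lit 1901) (nat_lit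
 128) .dd))) (.br (nat_lit 5) (.ch (nat_lit 4) (.ev (nat_lit 1888) (nat_lit 8) (.ev (nat_lit 1901) (nat_lit
 128) .dd))) (.ch (nat_lit 5) (.ev (nat_lit 1888) (nat_lit 8) (.ev (nat_lit 1901) (nat_lit 128) .dd))))) (.br
 (nat_lit 10) (.ch (nat_lit 8) (.ev (nat_lit 1888) (nat_lit 8) (.ev (nat_lit 1901) (nat_lit 128) .dd))) (.br
 (nat_lit 12) (.ch (nat_lit 10) (.fin (nat_lit 576434913786937922))) (.ch (nat_lit 12) (.ev (nat_lit 1908)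
 (nat_lit 8) (.ev (nat_lit 1917) (nat_lit 128) .dd))))))))) (.br (nat_lit 12) (.ch (nat_lit 10) (.ev (nat_lit
 628) (nat_lit 128) (.nd (nat_lit 1296) (.br (nat_lit 7) (.br (nat_lit 3) (.ch (nat_lit 2) (.ev (nat_lit 1312)
 (nat_lit 8192) (.ev (nat_lit 1325) (nat_lit 8) .dd))) (.br (nat_lit 5) (.ch (nat_lit 3) (.ev (nat_lit 1312)
 (nat_lit 8192) (.ev (nat_lit 1325) (nat_lit 8) .dd))) (.ch (nat_lit 5) (.nd (nat_lit 3632) (.br (nat_lit 8)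
 (.br (nat_lit 6) (.ch (nat_lit 2) (.ev (nat_lit 3648) (nat_lit 8) (.ev (nat_lit 3661) (nat_lit 8192) .dd)))
 (.ch (nat_lit 6) (.ev (nat_lit 4228) (nat_lit 8) (.ev (nat_lit 4237) (nat_lit 8192) .dd)))) (.br (nat_lit 10)
 (.ch (nat_lit 8) (.ev (nat_lit 3648) (nat_lit 8192) (.ev (nat_lit 3661) (nat_lit 8) .dd))) (.br (nat_lit 12)
 (.ch (nat_lit 10) (.ev (nat_lit 4068) (nat_lit 8192) (.ev (nat_lit 4077) (nat_lit 8) .dd))) (.ch (nat_lit 12)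
 (.ev (nat_lit 3648) (nat_lit 8) (.ev (nat_lit 3661) (nat_lit 8192) .dd)))))))))) (.br (nat_lit 9) (.ch
 (nat_lit 7) (.ev (nat_lit 4692) (nat_lit 8) (.ev (nat_lit 4701) (nat_lit 8192) .dd))) (.br (nat_lit 11) (.ch
 (nat_lit 9) (.ev (nat_lit 1332) (nat_lit 8) (.ev (nat_lit 1341) (nat_lit 8192) .dd))) (.ch (nat_lit 11) (.ev
 (nat_lit 1312) (nat_lit 8) (.ev (nat_lit 1325) (nat_lit 8192) .dd))))))))) (.ch (nat_lit 12) (.nd (nat_lit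
 1040) (.br (nat_lit 7) (.br (nat_lit 2) (.ch (nat_lit 0) (.nd (nat_lit 2384) (.br (nat_lit 4) (.br (nat_lit 1)
 (.ch (nat_lit 0) (.ev (nat_lit 5892) (nat_lit 128) (.nd (nat_lit 7440) (.br (nat_lit 2) (.ch (nat_lit 0) (.ev
 (nat_lit 7456) (nat_lit 8200) .dd)) (.ch (nat_lit 2) (.fin (nat_lit 576467899136819775))))))) (.br (nat_lit 3)
 (.ch (nat_lit 1) (.ev (nat_lit 2400) (nat_lit 128) (.ev (nat_lit 3348) (nat_lit 8) (.ev (nat_lit 3357)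
 (nat_lit 8192) .dd)))) (.ch (nat_lit 3) (.ev (nat_lit 2400) (nat_lit 8192) (.fin (nat_lit
 576606437522227867)))))) (.br (nat_lit 7) (.br (nat_lit 6) (.ch (nat_lit 4) (.ev (nat_lit 2400) (nat_lit 8)
 (.ev (nat_lit 2420) (nat_lit 8192) (.ev (nat_lit 2429) (nat_lit 128) .dd)))) (.ch (nat_lit 6) (.ev (nat_lit
 2400) (nat_lit 128) (.ev (nat_lit 2484) (nat_lit 8192) (.ev (nat_lit 2493) (nat_lit 8) .dd))))) (.br (nat_lit
 10) (.ch (nat_lit 7) (.ev (nat_lit 2400) (nat_lit 8200) (.ev (nat_lit 2413) (nat_lit 128) .dd))) (.ch (nat_lit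
 10) (.ev (nat_lit 2400) (nat_lit 8320) (.ev (nat_lit 2413) (nat_lit 8) .dd)))))))) (.br (nat_lit 4) (.ch
 (nat_lit 2) (.ev (nat_lit 2196) (nat_lit 128) (.ev (nat_lit 3316) (nat_lit 8) (.ev (nat_lit 3325) (nat_lit
 8192) .dd)))) (.ch (nat_lit 4) (.ev (nat_lit 1056) (nat_lit 8192) (.ev (nat_lit 2196) (nat_lit 128) (.ev
 (nat_lit 2205) (nat_lit 8) .dd)))))) (.br (nat_lit 10) (.ch (nat_lit 7) (.ev (nat_lit 1056) (nat_lit 128) (.ev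
 (nat_lit 3204) (nat_lit 8192) (.ev (nat_lit 3213) (nat_lit 8) .dd)))) (.br (nat_lit 12) (.ch (nat_lit 10) (.ev
 (nat_lit 1056) (nat_lit 8328) .dd)) (.ch (nat_lit 12) (.ev (nat_lit 1056) (nat_lit 128) (.nd (nat_lit 3632)
 (.br (nat_lit 8) (.br (nat_lit 3) (.ch (nat_lit 0) (.ev (nat_lit 3648) (nat_lit 8192) (.ev (nat_lit 3661)
 (nat_lit 8) .dd))) (.ch (nat_lit 3) (.ev (nat_lit 3648) (nat_lit 8192) (.ev (nat_lit 3661) (nat_lit 8) .dd))))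
 (.br (nat_lit 10) (.ch (nat_lit 8) (.ev (nat_lit 4228) (nat_lit 8) (.ev (nat_lit 4237) (nat_lit 8192) .dd)))
 (.ch (nat_lit 10) (.ev (nat_lit 3648) (nat_lit 8) (.ev (nat_lit 3661) (nat_lit 8192) .dd)))))))))))))))))))))
 (.br (nat_lit 9) (.ch (nat_lit 8) (.ev (nat_lit 48) (nat_lit 168) (.nd (nat_lit 592) (.br (nat_lit 6) (.br
 (nat_lit 4) (.br (nat_lit 2) (.ch (nat_lit 0) (.ev (nat_lit 608) (nat_lit 1536) (.ev (nat_lit 621) (nat_lit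
 8192) .dd))) (.ch (nat_lit 2) (.ev (nat_lit 608) (nat_lit 1024) (.ev (nat_lit 628) (nat_lit 8192) (.ev
 (nat_lit 637) (nat_lit 512) .dd))))) (.br (nat_lit 5) (.ch (nat_lit 4) (.ev (nat_lit 1716) (nat_lit 512) (.nd
 (nat_lit 2144) (.br (nat_lit 4) (.br (nat_lit 2) (.ch (nat_lit 1) (.ev (nat_lit 2160) (nat_lit 1024) (.ev
 (nat_lit 2173) (nat_lit 8192) .dd))) (.ch (nat_lit 2) (.ev (nat_lit 2160) (nat_lit 1024) (.ev (nat_lit 2173)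
 (nat_lit 8192) .dd)))) (.br (nat_lit 7) (.ch (nat_lit 4) (.nd (nat_lit 5904) (.br (nat_lit 6) (.ch (nat_lit 5)
 (.fin (nat_lit 576606437543199417))) (.ch (nat_lit 6) (.ev (nat_lit 5940) (nat_lit 8192) (.ev (nat_lit 5949)
 (nat_lit 1024) .dd)))))) (.br (nat_lit 12) (.ch (nat_lit 7) (.ev (nat_lit 2180) (nat_lit 8192) (.ev (nat_lit
 2189) (nat_lit 1024) .dd))) (.ch (nat_lit 12) (.ev (nat_lit 2180) (nat_lit 8192) (.ev (nat_lit 2189) (nat_lit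
 1024) .dd))))))))) (.ch (nat_lit 5) (.ev (nat_lit 608) (nat_lit 8192) (.nd (nat_lit 2144) (.br (nat_lit 7)
 (.br (nat_lit 3) (.br (nat_lit 1) (.ch (nat_lit 0) (.ev (nat_lit 2160) (nat_lit 1536) .dd)) (.ch (nat_lit 1)
 (.fin (nat_lit 576434913793229374)))) (.br (nat_lit 6) (.ch (nat_lit 3) (.ev (nat_lit 2160) (nat_lit 512) (.ev
 (nat_lit 2173) (nat_lit 1024) .dd))) (.ch (nat_lit 6) (.ev (nat_lit 2180) (nat_lit 512) (.ev (nat_lit 2189)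
 (nat_lit 1024) .dd))))) (.br (nat_lit 10) (.br (nat_lit 9) (.ch (nat_lit 7) (.ev (nat_lit 2180) (nat_lit 512)
 (.ev (nat_lit 2189) (nat_lit 1024) .dd))) (.ch (nat_lit 9) (.ev (nat_lit 2160) (nat_lit 512) (.ev (nat_lit
 2173) (nat_lit 1024) .dd)))) (.br (nat_lit 12) (.ch (nat_lit 10) (.ev (nat_lit 2160) (nat_lit 1024) (.ev
 (nat_lit 2173) (nat_lit 512) .dd))) (.ch (nat_lit 12) (.ev (nat_lit 2180) (nat_lit 512) (.ev (nat_lit 2189)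
 (nat_lit 1024) .dd))))))))))) (.br (nat_lit 9) (.br (nat_lit 7) (.ch (nat_lit 6) (.ev (nat_lit 608) (nat_lit
 9728) .dd)) (.ch (nat_lit 7) (.nd (nat_lit 1872) (.br (nat_lit 6) (.br (nat_lit 3) (.ch (nat_lit 1) (.ev
 (nat_lit 1888) (nat_lit 1536) (.ev (nat_lit 1901) (nat_lit 8192) .dd))) (.br (nat_lit 5) (.ch (nat_lit 3) (.ev
 (nat_lit 1888) (nat_lit 8192) (.ev (nat_lit 1924) (nat_lit 1024) (.ev (nat_lit 1933) (nat_lit 512) .dd))))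
 (.ch (nat_lit 5) (.ev (nat_lit 1888) (nat_lit 1024) (.ev (nat_lit 1956) (nat_lit 8192) (.ev (nat_lit 1965)
 (nat_lit 512) .dd)))))) (.br (nat_lit 9) (.br (nat_lit 7) (.ch (nat_lit 6) (.ev (nat_lit 1908) (nat_lit 512)
 (.ev (nat_lit 2004) (nat_lit 8192) (.ev (nat_lit 2013) (nat_lit 1024) .dd)))) (.ch (nat_lit 7) (.ev (nat_lit
 1908) (nat_lit 1024) (.fin (nat_lit 576479993750045264))))) (.br (nat_lit 11) (.ch (nat_lit 9) (.ev (nat_lit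
 1888) (nat_lit 512) (.ev (nat_lit 1956) (nat_lit 8192) (.ev (nat_lit 1965) (nat_lit 1024) .dd)))) (.ch
 (nat_lit 11) (.ev (nat_lit 1888) (nat_lit 8192) (.ev (nat_lit 1908) (nat_lit 1024) (.ev (nat_lit 1917)
 (nat_lit 512) .dd)))))))))) (.br (nat_lit 10) (.ch (nat_lit 9) (.ev (nat_lit 608) (nat_lit 8704) (.ev (nat_lit
 621) (nat_lit 1024) .dd))) (.br (nat_lit 12) (.ch (nat_lit 10) (.ev (nat_lit 608) (nat_lit 1536) (.ev (nat_lit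
 621) (nat_lit 8192) .dd))) (.ch (nat_lit 12) (.ev (nat_lit 644) (nat_lit 512) (.ev (nat_lit 708) (nat_lit
 1024) (.ev (nat_lit 717) (nat_lit 8192) .dd))))))))))) (.br (nat_lit 11) (.ch (nat_lit 9) (.ev (nat_lit 48)
 (nat_lit 1536) (.nd (nat_lit 592) (.br (nat_lit 7) (.br (nat_lit 5) (.br (nat_lit 4) (.ch (nat_lit 0) (.ev
 (nat_lit 608) (nat_lit 128) (.nd (nat_lit 1632) (.br (nat_lit 8) (.br (nat_lit 7) (.ch (nat_lit 4) (.ev
 (nat_lit 1648) (nat_lit 8) (.fin (nat_lit 576430515640811947)))) (.ch (nat_lit 7) (.ev (nat_lit 1648) (nat_lit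
 8192) (.ev (nat_lit 1680) (nat_lit 40) .dd)))) (.br (nat_lit 10) (.ch (nat_lit 8) (.ev (nat_lit 1648) (nat_lit
 8192) (.ev (nat_lit 1668) (nat_lit 8) (.ev (nat_lit 1677) (nat_lit 32) .dd)))) (.ch (nat_lit 10) (.ev (nat_lit
 1648) (nat_lit 32) (.ev (nat_lit 1940) (nat_lit 8192) (.ev (nat_lit 1949) (nat_lit 8) .dd))))))))) (.ch
 (nat_lit 4) (.ev (nat_lit 608) (nat_lit 168) (.ev (nat_lit 621) (nat_lit 8192) .dd)))) (.br (nat_lit 6) (.ch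
 (nat_lit 5) (.nd (nat_lit 1440) (.br (nat_lit 6) (.br (nat_lit 4) (.br (nat_lit 2) (.ch (nat_lit 1) (.ev
 (nat_lit 1456) (nat_lit 8200) (.ev (nat_lit 1716) (nat_lit 128) (.ev (nat_lit 1725) (nat_lit 32) .dd)))) (.ch
 (nat_lit 2) (.ev (nat_lit 1456) (nat_lit 8) (.ev (nat_lit 1572) (nat_lit 32) (.ev (nat_lit 1716) (nat_lit 128)
 (.ev (nat_lit 1725) (nat_lit 8192) .dd)))))) (.br (nat_lit 5) (.ch (nat_lit 4) (.ev (nat_lit 1456) (nat_lit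
 8224) (.ev (nat_lit 1668) (nat_lit 128) (.ev (nat_lit 1677) (nat_lit 8) .dd)))) (.ch (nat_lit 5) (.ev (nat_lit
 1456) (nat_lit 8232) (.ev (nat_lit 1469) (nat_lit 128) .dd))))) (.br (nat_lit 10) (.br (nat_lit 8) (.ch
 (nat_lit 6) (.ev (nat_lit 1456) (nat_lit 32) (.nd (nat_lit 5328) (.br (nat_lit 8) (.ch (nat_lit 5) (.ev
 (nat_lit 5344) (nat_lit 128) (.ev (nat_lit 5364) (nat_lit 8) (.ev (nat_lit 5373) (nat_lit 8192) .dd)))) (.br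
 (nat_lit 11) (.ch (nat_lit 8) (.ev (nat_lit 5344) (nat_lit 8) (.ev (nat_lit 5364) (nat_lit 8192) (.ev (nat_lit
 5373) (nat_lit 128) .dd)))) (.ch (nat_lit 11) (.ev (nat_lit 5344) (nat_lit 8192) (.fin (nat_lit
 576716388577002431))))))))) (.ch (nat_lit 8) (.ev (nat_lit 1476) (nat_lit 40) (.ev (nat_lit 1748) (nat_lit
 128) (.ev (nat_lit 1757) (nat_lit 8192) .dd))))) (.br (nat_lit 12) (.ch (nat_lit 10) (.ev (nat_lit 1456)
 (nat_lit 128) (.ev (nat_lit 1764) (nat_lit 8) (.nd (nat_lit 5632) (.br (nat_lit 9) (.ch (nat_lit 2) (.nd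
 (nat_lit 7984) (.br (nat_lit 12) (.ch (nat_lit 3) (.ev (nat_lit 8000) (nat_lit 8192) (.ev (nat_lit 8013)
 (nat_lit 32) .dd))) (.ch (nat_lit 12) (.fin (nat_lit 575687245129270726)))))) (.ch (nat_lit 9) (.ev (nat_lit
 5648) (nat_lit 32) (.ev (nat_lit 5661) (nat_lit 8192) .dd)))))))) (.ch (nat_lit 12) (.ev (nat_lit 1456)
 (nat_lit 128) (.nd (nat_lit 5440) (.br (nat_lit 9) (.ch (nat_lit 7) (.ev (nat_lit 5456) (nat_lit 32) (.fin
 (nat_lit 576452505977176630)))) (.br (nat_lit 11) (.ch (nat_lit 9) (.ev (nat_lit 5456) (nat_lit 8192) (.ev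
 (nat_lit 5476) (nat_lit 8) (.ev (nat_lit 5485) (nat_lit 32) .dd)))) (.ch (nat_lit 11) (.ev (nat_lit 5456)
 (nat_lit 40) (.ev (nat_lit 5469) (nat_lit 8192) .dd))))))))))))) (.ch (nat_lit 6) (.ev (nat_lit 608) (nat_lit
 8352) (.ev (nat_lit 621) (nat_lit 8) .dd))))) (.br (nat_lit 9) (.br (nat_lit 8) (.ch (nat_lit 7) (.ev (nat_lit
 608) (nat_lit 128) (.nd (nat_lit 1296) (.br (nat_lit 8) (.br (nat_lit 4) (.br (nat_lit 3) (.ch (nat_lit 1)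
 (.ev (nat_lit 1312) (nat_lit 8) (.nd (nat_lit 4176) (.br (nat_lit 6) (.br (nat_lit 2) (.ch (nat_lit 0) (.ev
 (nat_lit 4192) (nat_lit 32) (.ev (nat_lit 4205) (nat_lit 8192) .dd))) (.ch (nat_lit 2) (.ev (nat_lit 4228)
 (nat_lit 32) (.ev (nat_lit 4237) (nat_lit 8192) .dd)))) (.br (nat_lit 9) (.ch (nat_lit 6) (.nd (nat_lit 7952)
 (.br (nat_lit 10) (.ch (nat_lit 6) (.ev (nat_lit 7968) (nat_lit 8192) (.ev (nat_lit 7981) (nat_lit 32) .dd)))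
 (.ch (nat_lit 10) (.fin (nat_lit 576443709894640102)))))) (.br (nat_lit 12) (.ch (nat_lit 9) (.ev (nat_lit
 4192) (nat_lit 32) (.ev (nat_lit 4205) (nat_lit 8192) .dd))) (.ch (nat_lit 12) (.ev (nat_lit 4192) (nat_lit
 32) (.ev (nat_lit 4205) (nat_lit 8192) .dd))))))))) (.ch (nat_lit 3) (.ev (nat_lit 1312) (nat_lit 40) (.ev
 (nat_lit 1325) (nat_lit 8192) .dd)))) (.br (nat_lit 5) (.ch (nat_lit 4) (.ev (nat_lit 1312) (nat_lit 8224)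
 (.ev (nat_lit 1325) (nat_lit 8) .dd))) (.ch (nat_lit 5) (.ev (nat_lit 1312) (nat_lit 8192) (.ev (nat_lit 1332)
 (nat_lit 8) (.ev (nat_lit 1341) (nat_lit 32) .dd)))))) (.br (nat_lit 10) (.br (nat_lit 9) (.ch (nat_lit 8)
 (.nd (nat_lit 3632) (.br (nat_lit 7) (.br (nat_lit 5) (.ch (nat_lit 3) (.ev (nat_lit 4084) (nat_lit 32) (.nd
 (nat_lit 6256) (.br (nat_lit 10) (.ch (nat_lit 0) (.fin (nat_lit 576091866033242302))) (.ch (nat_lit 10) (.ev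
 (nat_lit 6272) (nat_lit 8) (.ev (nat_lit 6285) (nat_lit 8192) .dd))))))) (.ch (nat_lit 5) (.ev (nat_lit 3876)
 (nat_lit 8192) (.ev (nat_lit 3988) (nat_lit 32) (.ev (nat_lit 3997) (nat_lit 8) .dd))))) (.br (nat_lit 11)
 (.ch (nat_lit 7) (.ev (nat_lit 3648) (nat_lit 8) (.ev (nat_lit 3668) (nat_lit 32) (.ev (nat_lit 3677) (nat_lit
 8192) .dd)))) (.ch (nat_lit 11) (.ev (nat_lit 3648) (nat_lit 8) (.ev (nat_lit 3668) (nat_lit 32) (.ev (nat_lit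
 3677) (nat_lit 8192) .dd)))))))) (.ch (nat_lit 9) (.ev (nat_lit 1312) (nat_lit 8192) (.ev (nat_lit 4356)
 (nat_lit 8) (.ev (nat_lit 4365) (nat_lit 32) .dd))))) (.br (nat_lit 11) (.ch (nat_lit 10) (.ev (nat_lit 1312)
 (nat_lit 40) (.ev (nat_lit 1325) (nat_lit 8192) .dd))) (.ch (nat_lit 11) (.nd (nat_lit 4176) (.br (nat_lit 4)
 (.br (nat_lit 2) (.ch (nat_lit 1) (.ev (nat_lit 4192) (nat_lit 8200) (.ev (nat_lit 4205) (nat_lit 32) .dd)))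
 (.ch (nat_lit 2) (.ev (nat_lit 4192) (nat_lit 32) (.ev (nat_lit 4708) (nat_lit 8) (.ev (nat_lit 4717) (nat_lit
 8192) .dd))))) (.br (nat_lit 11) (.ch (nat_lit 4) (.ev (nat_lit 4192) (nat_lit 8192) (.ev (nat_lit 4288)
 (nat_lit 8) (.ev (nat_lit 4301) (nat_lit 32) .dd)))) (.br (nat_lit 12) (.ch (nat_lit 11) (.ev (nat_lit 4192)
 (nat_lit 8200) (.ev (nat_lit 4205) (nat_lit 32) .dd))) (.ch (nat_lit 12) (.ev (nat_lit 4192) (nat_lit 40) (.ev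
 (nat_lit 4205) (nat_lit 8192) .dd)))))))))))))) (.ch (nat_lit 8) (.ev (nat_lit 608) (nat_lit 8224) (.nd
 (nat_lit 1440) (.br (nat_lit 3) (.br (nat_lit 1) (.ch (nat_lit 0) (.ev (nat_lit 1456) (nat_lit 128) (.ev
 (nat_lit 1469) (nat_lit 8) .dd))) (.br (nat_lit 2) (.ch (nat_lit 1) (.ev (nat_lit 3716) (nat_lit 128) (.ev
 (nat_lit 3725) (nat_lit 8) .dd))) (.ch (nat_lit 2) (.ev (nat_lit 1476) (nat_lit 8) (.ev (nat_lit 1485)
 (nat_lit 128) .dd))))) (.br (nat_lit 9) (.br (nat_lit 6) (.ch (nat_lit 3) (.ev (nat_lit 3908) (nat_lit 128)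
 (.ev (nat_lit 3917) (nat_lit 8) .dd))) (.ch (nat_lit 6) (.ev (nat_lit 1456) (nat_lit 136) .dd))) (.br (nat_lit
 12) (.ch (nat_lit 9) (.ev (nat_lit 1456) (nat_lit 8) (.ev (nat_lit 1469) (nat_lit 128) .dd))) (.ch (nat_lit
 12) (.fin (nat_lit 576390933300855286)))))))))) (.br (nat_lit 10) (.ch (nat_lit 9) (.ev (nat_lit 608) (nat_lit
 40) (.nd (nat_lit 1120) (.br (nat_lit 6) (.br (nat_lit 1) (.ch (nat_lit 0) (.ev (nat_lit 1136) (nat_lit 128)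
 (.ev (nat_lit 1149) (nat_lit 8192) .dd))) (.br (nat_lit 2) (.ch (nat_lit 1) (.nd (nat_lit 3088) (.br (nat_lit
 9) (.br (nat_lit 7) (.ch (nat_lit 0) (.ev (nat_lit 3124) (nat_lit 128) (.ev (nat_lit 3133) (nat_lit 8192)
 .dd))) (.ch (nat_lit 7) (.ev (nat_lit 3124) (nat_lit 8192) (.ev (nat_lit 3133) (nat_lit 128) .dd)))) (.br
 (nat_lit 11) (.ch (nat_lit 9) (.ev (nat_lit 3104) (nat_lit 8320) .dd)) (.br (nat_lit 12) (.ch (nat_lit 11)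
 (.ev (nat_lit 3124) (nat_lit 128) (.ev (nat_lit 3133) (nat_lit 8192) .dd))) (.ch (nat_lit 12) (.ev (nat_lit
 3104) (nat_lit 8192) (.ev (nat_lit 3117) (nat_lit 128) .dd)))))))) (.ch (nat_lit 2) (.ev (nat_lit 1136)
 (nat_lit 128) (.ev (nat_lit 1149) (nat_lit 8192) .dd))))) (.br (nat_lit 10) (.br (nat_lit 8) (.ch (nat_lit 6)
 (.ev (nat_lit 1136) (nat_lit 8192) (.ev (nat_lit 1149) (nat_lit 128) .dd))) (.ch (nat_lit 8) (.ev (nat_lit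
 3908) (nat_lit 128) (.ev (nat_lit 3917) (nat_lit 8192) .dd)))) (.br (nat_lit 11) (.ch (nat_lit 10) (.ev
 (nat_lit 1136) (nat_lit 8192) (.ev (nat_lit 1149) (nat_lit 128) .dd))) (.ch (nat_lit 11) (.ev (nat_lit 1268)
 (nat_lit 128) (.ev (nat_lit 1277) (nat_lit 8192) .dd))))))))) (.br (nat_lit 11) (.ch (nat_lit 10) (.ev
 (nat_lit 608) (nat_lit 8200) (.nd (nat_lit 1872) (.br (nat_lit 10) (.br (nat_lit 2) (.ch (nat_lit 0) (.ev
 (nat_lit 1888) (nat_lit 32) (.ev (nat_lit 1901) (nat_lit 128) .dd))) (.br (nat_lit 4) (.ch (nat_lit 2) (.ev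
 (nat_lit 1888) (nat_lit 160) .dd)) (.ch (nat_lit 4) (.ev (nat_lit 1888) (nat_lit 128) (.ev (nat_lit 1901)
 (nat_lit 32) .dd))))) (.br (nat_lit 11) (.ch (nat_lit 10) (.ev (nat_lit 1888) (nat_lit 160) .dd)) (.br
 (nat_lit 12) (.ch (nat_lit 11) (.ev (nat_lit 1908) (nat_lit 32) (.ev (nat_lit 1917) (nat_lit 128) .dd))) (.ch
 (nat_lit 12) (.nd (nat_lit 5952) (.br (nat_lit 10) (.br (nat_lit 8) (.ch (nat_lit 6) (.fin (nat_lit
 576206215680836141))) (.ch (nat_lit 8) (.ev (nat_lit 5968) (nat_lit 128) (.ev (nat_lit 5981) (nat_lit 32)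
 .dd)))) (.br (nat_lit 11) (.ch (nat_lit 10) (.ev (nat_lit 5968) (nat_lit 32) (.ev (nat_lit 5981) (nat_lit 128)
 .dd))) (.ch (nat_lit 11) (.ev (nat_lit 5968) (nat_lit 128) (.ev (nat_lit 5981) (nat_lit 32) .dd)))))))))))))
 (.ch (nat_lit 11) (.nd (nat_lit 960) (.br (nat_lit 6) (.br (nat_lit 4) (.br (nat_lit 3) (.ch (nat_lit 0) (.nd
 (nat_lit 2288) (.br (nat_lit 7) (.br (nat_lit 3) (.ch (nat_lit 0) (.ev (nat_lit 2304) (nat_lit 8224) (.ev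
 (nat_lit 3236) (nat_lit 8) (.ev (nat_lit 3245) (nat_lit 128) .dd)))) (.br (nat_lit 4) (.ch (nat_lit 3) (.ev
 (nat_lit 2304) (nat_lit 8) (.ev (nat_lit 2420) (nat_lit 8192) (.nd (nat_lit 7648) (.br (nat_lit 10) (.ch
 (nat_lit 6) (.fin (nat_lit 576393132497126341))) (.ch (nat_lit 10) (.ev (nat_lit 7664) (nat_lit 32) (.ev
 (nat_lit 7677) (nat_lit 128) .dd)))))))) (.ch (nat_lit 4) (.ev (nat_lit 2304) (nat_lit 160) (.ev (nat_lit
 2436) (nat_lit 8192) (.ev (nat_lit 2445) (nat_lit 8) .dd)))))) (.br (nat_lit 10) (.ch (nat_lit 7) (.ev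
 (nat_lit 2304) (nat_lit 8320) (.fin (nat_lit 576536068816847506)))) (.br (nat_lit 11) (.ch (nat_lit 10) (.ev
 (nat_lit 2304) (nat_lit 160) (.ev (nat_lit 3236) (nat_lit 8) (.ev (nat_lit 3245) (nat_lit 8192) .dd)))) (.ch
 (nat_lit 11) (.ev (nat_lit 2304) (nat_lit 136) (.fin (nat_lit 576437112830116441))))))))) (.ch (nat_lit 3)
 (.ev (nat_lit 976) (nat_lit 8224) (.nd (nat_lit 5216) (.br (nat_lit 1) (.ch (nat_lit 0) (.ev (nat_lit 5748)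
 (nat_lit 128) (.ev (nat_lit 5757) (nat_lit 8) .dd))) (.ch (nat_lit 1) (.fin (nat_lit
 576458003533218364)))))))) (.br (nat_lit 5) (.ch (nat_lit 4) (.ev (nat_lit 976) (nat_lit 8192) (.ev (nat_lit
 1668) (nat_lit 128) (.ev (nat_lit 3840) (nat_lit 8) (.ev (nat_lit 3853) (nat_lit 32) .dd))))) (.ch (nat_lit 5)
 (.ev (nat_lit 976) (nat_lit 136) (.nd (nat_lit 2784) (.br (nat_lit 4) (.ch (nat_lit 2) (.ev (nat_lit 3316)
 (nat_lit 8192) (.ev (nat_lit 3325) (nat_lit 32) .dd))) (.ch (nat_lit 4) (.ev (nat_lit 2820) (nat_lit 32) (.ev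
 (nat_lit 2829) (nat_lit 8192) .dd))))))))) (.br (nat_lit 9) (.br (nat_lit 7) (.ch (nat_lit 6) (.ev (nat_lit
 976) (nat_lit 136) (.nd (nat_lit 2784) (.br (nat_lit 9) (.br (nat_lit 3) (.ch (nat_lit 0) (.ev (nat_lit 4100)
 (nat_lit 8192) (.ev (nat_lit 4109) (nat_lit 32) .dd))) (.ch (nat_lit 3) (.ev (nat_lit 3716) (nat_lit 8192)
 (.ev (nat_lit 3725) (nat_lit 32) .dd)))) (.br (nat_lit 11) (.ch (nat_lit 9) (.ev (nat_lit 4228) (nat_lit 8192)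
 (.ev (nat_lit 4237) (nat_lit 32) .dd))) (.ch (nat_lit 11) (.ev (nat_lit 3908) (nat_lit 32) (.ev (nat_lit 3917)
 (nat_lit 8192) .dd)))))))) (.ch (nat_lit 7) (.ev (nat_lit 976) (nat_lit 160) (.fin (nat_lit
 576802150473483093))))) (.br (nat_lit 11) (.ch (nat_lit 9) (.ev (nat_lit 976) (nat_lit 128) (.nd (nat_lit
 2384) (.br (nat_lit 8) (.br (nat_lit 2) (.ch (nat_lit 1) (.ev (nat_lit 2420) (nat_lit 8) (.ev (nat_lit 2612)
 (nat_lit 8192) (.ev (nat_lit 2621) (nat_lit 32) .dd)))) (.ch (nat_lit 2) (.ev (nat_lit 2400) (nat_lit 8192)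
 (.ev (nat_lit 4724) (nat_lit 8) (.ev (nat_lit 4733) (nat_lit 32) .dd))))) (.br (nat_lit 11) (.ch (nat_lit 8)
 (.ev (nat_lit 2400) (nat_lit 8192) (.ev (nat_lit 3396) (nat_lit 32) (.ev (nat_lit 3405) (nat_lit 8) .dd))))
 (.ch (nat_lit 11) (.ev (nat_lit 2400) (nat_lit 8) (.ev (nat_lit 5076) (nat_lit 32) (.ev (nat_lit 5085)
 (nat_lit 8192) .dd))))))))) (.ch (nat_lit 11) (.ev (nat_lit 976) (nat_lit 8224) (.ev (nat_lit 1716) (nat_lit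
 128) (.ev (nat_lit 1725) (nat_lit 8) .dd)))))))))))))))) (.ch (nat_lit 11) (.ev (nat_lit 48) (nat_lit 8744)
 (.nd (nat_lit 672) (.br (nat_lit 6) (.br (nat_lit 4) (.br (nat_lit 2) (.ch (nat_lit 0) (.ev (nat_lit 688)
 (nat_lit 1024) (.ev (nat_lit 701) (nat_lit 128) .dd))) (.ch (nat_lit 2) (.ev (nat_lit 688) (nat_lit 1024) (.ev
 (nat_lit 701) (nat_lit 128) .dd)))) (.br (nat_lit 5) (.ch (nat_lit 4) (.ev (nat_lit 688) (nat_lit 128) (.ev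
 (nat_lit 701) (nat_lit 1024) .dd))) (.ch (nat_lit 5) (.fin (nat_lit 576463501084017217))))) (.br (nat_lit 10)
 (.br (nat_lit 8) (.ch (nat_lit 6) (.ev (nat_lit 688) (nat_lit 128) (.ev (nat_lit 701) (nat_lit 1024) .dd)))
 (.ch (nat_lit 8) (.ev (nat_lit 688) (nat_lit 1024) (.ev (nat_lit 701) (nat_lit 128) .dd)))) (.br (nat_lit 11)
 (.ch (nat_lit 10) (.ev (nat_lit 688) (nat_lit 1024) (.ev (nat_lit 701) (nat_lit 128) .dd))) (.br (nat_lit 12)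
 (.ch (nat_lit 11) (.ev (nat_lit 688) (nat_lit 128) (.ev (nat_lit 701) (nat_lit 1024) .dd))) (.ch (nat_lit 12)
 (.ev (nat_lit 688) (nat_lit 128) (.ev (nat_lit 701) (nat_lit 1024) .dd))))))))))))))))

/-- Subtrie. -/
noncomputable def T5 : Tr := (.ev (nat_lit 20) (nat_lit 672) (.nd (nat_lit 32) (.br (nat_lit 6) (.br (nat_lit
 4) (.br (nat_lit 1) (.ch (nat_lit 0) (.ev (nat_lit 48) (nat_lit 20552) (.nd (nat_lit 544) (.br (nat_lit 5)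
 (.br (nat_lit 2) (.br (nat_lit 1) (.ch (nat_lit 0) (.ev (nat_lit 560) (nat_lit 3072) (.ev (nat_lit 573)
 (nat_lit 8192) .dd))) (.ch (nat_lit 1) (.ev (nat_lit 560) (nat_lit 8192) (.nd (nat_lit 1120) (.br (nat_lit 3)
 (.br (nat_lit 1) (.ch (nat_lit 0) (.ev (nat_lit 1156) (nat_lit 2048) (.ev (nat_lit 1165) (nat_lit 1024) .dd)))
 (.br (nat_lit 2) (.ch (nat_lit 1) (.nd (nat_lit 3632) (.br (nat_lit 8) (.br (nat_lit 2) (.ch (nat_lit 0) (.ev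
 (nat_lit 3668) (nat_lit 2048) (.ev (nat_lit 3677) (nat_lit 1024) .dd))) (.br (nat_lit 7) (.ch (nat_lit 2) (.ev
 (nat_lit 3648) (nat_lit 1024) (.ev (nat_lit 3661) (nat_lit 2048) .dd))) (.ch (nat_lit 7) (.ev (nat_lit 3648)
 (nat_lit 2048) (.ev (nat_lit 3661) (nat_lit 1024) .dd))))) (.br (nat_lit 10) (.ch (nat_lit 8) (.ev (nat_lit
 3648) (nat_lit 1024) (.ev (nat_lit 3661) (nat_lit 2048) .dd))) (.br (nat_lit 12) (.ch (nat_lit 10) (.ev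
 (nat_lit 4276) (nat_lit 2048) (.ev (nat_lit 4285) (nat_lit 1024) .dd))) (.ch (nat_lit 12) (.ev (nat_lit 3908)
 (nat_lit 2048) (.ev (nat_lit 3917) (nat_lit 1024) .dd)))))))) (.ch (nat_lit 2) (.ev (nat_lit 1136) (nat_lit
 2048) (.ev (nat_lit 1149) (nat_lit 1024) .dd))))) (.br (nat_lit 8) (.br (nat_lit 4) (.ch (nat_lit 3) (.nd
 (nat_lit 4432) (.br (nat_lit 6) (.ch (nat_lit 3) (.ev (nat_lit 4448) (nat_lit 2048) (.ev (nat_lit 4461)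
 (nat_lit 1024) .dd))) (.br (nat_lit 11) (.ch (nat_lit 6) (.fin (nat_lit 576804349935043450))) (.ch (nat_lit
 11) (.ev (nat_lit 4468) (nat_lit 1024) (.ev (nat_lit 4477) (nat_lit 2048) .dd))))))) (.ch (nat_lit 4) (.ev
 (nat_lit 1588) (nat_lit 1024) (.ev (nat_lit 1597) (nat_lit 2048) .dd)))) (.br (nat_lit 9) (.ch (nat_lit 8)
 (.ev (nat_lit 1136) (nat_lit 3072) .dd)) (.ch (nat_lit 9) (.ev (nat_lit 1136) (nat_lit 1024) (.ev (nat_lit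
 1149) (nat_lit 2048) .dd)))))))))) (.br (nat_lit 4) (.ch (nat_lit 2) (.ev (nat_lit 560) (nat_lit 8192) (.nd
 (nat_lit 960) (.br (nat_lit 6) (.br (nat_lit 3) (.ch (nat_lit 0) (.ev (nat_lit 976) (nat_lit 1024) (.ev
 (nat_lit 989) (nat_lit 2048) .dd))) (.br (nat_lit 5) (.ch (nat_lit 3) (.ev (nat_lit 976) (nat_lit 2048) (.ev
 (nat_lit 989) (nat_lit 1024) .dd))) (.ch (nat_lit 5) (.nd (nat_lit 2288) (.br (nat_lit 4) (.br (nat_lit 1)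
 (.ch (nat_lit 0) (.ev (nat_lit 3316) (nat_lit 2048) (.ev (nat_lit 3325) (nat_lit 1024) .dd))) (.ch (nat_lit 1)
 (.nd (nat_lit 6688) (.br (nat_lit 6) (.ch (nat_lit 1) (.fin (nat_lit 576452505971933755))) (.ch (nat_lit 6)
 (.ev (nat_lit 6704) (nat_lit 1024) (.ev (nat_lit 6717) (nat_lit 2048) .dd))))))) (.br (nat_lit 8) (.ch
 (nat_lit 4) (.ev (nat_lit 2436) (nat_lit 1024) (.ev (nat_lit 2445) (nat_lit 2048) .dd))) (.ch (nat_lit 8) (.ev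
 (nat_lit 2516) (nat_lit 1024) (.ev (nat_lit 2525) (nat_lit 2048) .dd))))))))) (.br (nat_lit 9) (.ch (nat_lit
 6) (.ev (nat_lit 3380) (nat_lit 2048) (.ev (nat_lit 3389) (nat_lit 1024) .dd))) (.br (nat_lit 11) (.ch
 (nat_lit 9) (.fin (nat_lit 576716388440687381))) (.ch (nat_lit 11) (.ev (nat_lit 3268) (nat_lit 1024) (.ev
 (nat_lit 3277) (nat_lit 2048) .dd))))))))) (.ch (nat_lit 4) (.ev (nat_lit 660) (nat_lit 8192) (.nd (nat_lit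
 896) (.br (nat_lit 4) (.br (nat_lit 2) (.br (nat_lit 1) (.ch (nat_lit 0) (.nd (nat_lit 2992) (.br (nat_lit 5)
 (.br (nat_lit 3) (.ch (nat_lit 2) (.ev (nat_lit 3236) (nat_lit 2048) (.ev (nat_lit 3245) (nat_lit 1024) .dd)))
 (.ch (nat_lit 3) (.ev (nat_lit 3008) (nat_lit 1024) (.ev (nat_lit 3021) (nat_lit 2048) .dd)))) (.br (nat_lit
 8) (.ch (nat_lit 5) (.ev (nat_lit 4628) (nat_lit 2048) (.ev (nat_lit 4637) (nat_lit 1024) .dd))) (.ch (nat_lit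
 8) (.ev (nat_lit 3008) (nat_lit 2048) (.ev (nat_lit 3021) (nat_lit 1024) .dd))))))) (.ch (nat_lit 1) (.ev
 (nat_lit 912) (nat_lit 2048) (.ev (nat_lit 925) (nat_lit 1024) .dd)))) (.br (nat_lit 3) (.ch (nat_lit 2) (.ev
 (nat_lit 4724) (nat_lit 1024) (.ev (nat_lit 4733) (nat_lit 2048) .dd))) (.ch (nat_lit 3) (.ev (nat_lit 912)
 (nat_lit 1024) (.ev (nat_lit 925) (nat_lit 2048) .dd))))) (.br (nat_lit 9) (.br (nat_lit 8) (.ch (nat_lit 4)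
 (.ev (nat_lit 1348) (nat_lit 1024) (.ev (nat_lit 1357) (nat_lit 2048) .dd))) (.ch (nat_lit 8) (.ev (nat_lit
 912) (nat_lit 1024) (.ev (nat_lit 925) (nat_lit 2048) .dd)))) (.br (nat_lit 10) (.ch (nat_lit 9) (.ev (nat_lit
 912) (nat_lit 3072) .dd)) (.br (nat_lit 12) (.ch (nat_lit 10) (.ev (nat_lit 912) (nat_lit 2048) (.ev (nat_lit
 925) (nat_lit 1024) .dd))) (.ch (nat_lit 12) (.ev (nat_lit 912) (nat_lit 2048) (.ev (nat_lit 925) (nat_lit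
 1024) .dd)))))))))))) (.br (nat_lit 9) (.br (nat_lit 8) (.ch (nat_lit 5) (.ev (nat_lit 560) (nat_lit 2048)
 (.nd (nat_lit 1632) (.br (nat_lit 11) (.ch (nat_lit 4) (.ev (nat_lit 1716) (nat_lit 1024) (.ev (nat_lit 1725)
 (nat_lit 8192) .dd))) (.br (nat_lit 12) (.ch (nat_lit 11) (.fin (nat_lit 576487690351362646))) (.ch (nat_lit
 12) (.ev (nat_lit 1668) (nat_lit 1024) (.ev (nat_lit 1677) (nat_lit 8192) .dd)))))))) (.ch (nat_lit 8) (.ev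
 (nat_lit 560) (nat_lit 2048) (.nd (nat_lit 1872) (.br (nat_lit 3) (.ch (nat_lit 2) (.ev (nat_lit 1908)
 (nat_lit 8192) (.ev (nat_lit 1917) (nat_lit 1024) .dd))) (.br (nat_lit 10) (.ch (nat_lit 3) (.ev (nat_lit
 1888) (nat_lit 1024) (.ev (nat_lit 1901) (nat_lit 8192) .dd))) (.ch (nat_lit 10) (.fin (nat_lit
 576353549795410477))))))))) (.br (nat_lit 11) (.ch (nat_lit 9) (.nd (nat_lit 848) (.br (nat_lit 7) (.br
 (nat_lit 5) (.br (nat_lit 1) (.ch (nat_lit 0) (.ev (nat_lit 864) (nat_lit 2048) (.ev (nat_lit 1172) (nat_lit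
 1024) (.ev (nat_lit 1181) (nat_lit 8192) .dd)))) (.ch (nat_lit 1) (.ev (nat_lit 864) (nat_lit 8192) (.ev
 (nat_lit 2052) (nat_lit 1024) (.ev (nat_lit 2061) (nat_lit 2048) .dd))))) (.br (nat_lit 6) (.ch (nat_lit 5)
 (.ev (nat_lit 864) (nat_lit 9216) (.ev (nat_lit 877) (nat_lit 2048) .dd))) (.ch (nat_lit 6) (.ev (nat_lit 864)
 (nat_lit 2048) (.ev (nat_lit 1380) (nat_lit 1024) (.ev (nat_lit 1389) (nat_lit 8192) .dd)))))) (.br (nat_lit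
 9) (.br (nat_lit 8) (.ch (nat_lit 7) (.ev (nat_lit 864) (nat_lit 8192) (.nd (nat_lit 2240) (.br (nat_lit 8)
 (.br (nat_lit 3) (.ch (nat_lit 0) (.ev (nat_lit 2256) (nat_lit 1024) (.ev (nat_lit 2269) (nat_lit 2048) .dd)))
 (.ch (nat_lit 3) (.ev (nat_lit 2256) (nat_lit 2048) (.ev (nat_lit 2269) (nat_lit 1024) .dd)))) (.br (nat_lit
 11) (.ch (nat_lit 8) (.ev (nat_lit 3172) (nat_lit 1024) (.ev (nat_lit 3181) (nat_lit 2048) .dd))) (.br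
 (nat_lit 12) (.ch (nat_lit 11) (.ev (nat_lit 2256) (nat_lit 1024) (.ev (nat_lit 2269) (nat_lit 2048) .dd)))
 (.ch (nat_lit 12) (.ev (nat_lit 2580) (nat_lit 1024) (.ev (nat_lit 2589) (nat_lit 2048) .dd))))))))) (.ch
 (nat_lit 8) (.ev (nat_lit 1668) (nat_lit 8192) (.nd (nat_lit 2384) (.br (nat_lit 7) (.br (nat_lit 6) (.ch
 (nat_lit 5) (.ev (nat_lit 3444) (nat_lit 1024) (.ev (nat_lit 3453) (nat_lit 2048) .dd))) (.ch (nat_lit 6) (.ev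
 (nat_lit 4676) (nat_lit 2048) (.ev (nat_lit 4685) (nat_lit 1024) .dd)))) (.br (nat_lit 10) (.ch (nat_lit 7)
 (.ev (nat_lit 2400) (nat_lit 3072) .dd)) (.ch (nat_lit 10) (.ev (nat_lit 3876) (nat_lit 1024) (.ev (nat_lit
 3885) (nat_lit 2048) .dd))))))))) (.br (nat_lit 10) (.ch (nat_lit 9) (.ev (nat_lit 864) (nat_lit 9216) (.ev
 (nat_lit 877) (nat_lit 2048) .dd))) (.br (nat_lit 12) (.ch (nat_lit 10) (.ev (nat_lit 864) (nat_lit 3072) (.ev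
 (nat_lit 877) (nat_lit 8192) .dd))) (.ch (nat_lit 12) (.ev (nat_lit 864) (nat_lit 3072) (.ev (nat_lit 877)
 (nat_lit 8192) .dd))))))))) (.br (nat_lit 12) (.ch (nat_lit 11) (.ev (nat_lit 560) (nat_lit 11264) .dd)) (.ch
 (nat_lit 12) (.ev (nat_lit 560) (nat_lit 9216) (.ev (nat_lit 573) (nat_lit 2048) .dd)))))))))) (.ch (nat_lit
 1) (.ev (nat_lit 48) (nat_lit 12296) (.nd (nat_lit 416) (.br (nat_lit 4) (.br (nat_lit 2) (.br (nat_lit 1)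
 (.ch (nat_lit 0) (.ev (nat_lit 432) (nat_lit 18432) (.nd (nat_lit 1296) (.br (nat_lit 7) (.br (nat_lit 5) (.br
 (nat_lit 2) (.ch (nat_lit 0) (.ev (nat_lit 3764) (nat_lit 1024) (.ev (nat_lit 3773) (nat_lit 64) .dd))) (.ch
 (nat_lit 2) (.ev (nat_lit 1312) (nat_lit 64) (.ev (nat_lit 1325) (nat_lit 1024) .dd)))) (.br (nat_lit 6) (.ch
 (nat_lit 5) (.ev (nat_lit 1312) (nat_lit 1024) (.ev (nat_lit 1325) (nat_lit 64) .dd))) (.ch (nat_lit 6) (.ev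
 (nat_lit 1312) (nat_lit 1088) .dd)))) (.br (nat_lit 9) (.br (nat_lit 8) (.ch (nat_lit 7) (.ev (nat_lit 1716)
 (nat_lit 64) (.ev (nat_lit 1725) (nat_lit 1024) .dd))) (.ch (nat_lit 8) (.ev (nat_lit 4676) (nat_lit 1024)
 (.ev (nat_lit 4685) (nat_lit 64) .dd)))) (.br (nat_lit 11) (.ch (nat_lit 9) (.ev (nat_lit 1312) (nat_lit 1024)
 (.ev (nat_lit 1325) (nat_lit 64) .dd))) (.br (nat_lit 12) (.ch (nat_lit 11) (.ev (nat_lit 1332) (nat_lit 1024)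
 (.ev (nat_lit 1341) (nat_lit 64) .dd))) (.ch (nat_lit 12) (.ev (nat_lit 1312) (nat_lit 1088) .dd))))))))) (.ch
 (nat_lit 1) (.ev (nat_lit 432) (nat_lit 17472) (.ev (nat_lit 445) (nat_lit 2048) .dd)))) (.br (nat_lit 3) (.ch
 (nat_lit 2) (.ev (nat_lit 432) (nat_lit 1024) (.nd (nat_lit 1120) (.br (nat_lit 7) (.br (nat_lit 3) (.ch
 (nat_lit 2) (.nd (nat_lit 2896) (.br (nat_lit 6) (.br (nat_lit 5) (.ch (nat_lit 2) (.ev (nat_lit 2912)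
 (nat_lit 64) (.ev (nat_lit 2932) (nat_lit 16384) (.ev (nat_lit 2941) (nat_lit 2048) .dd)))) (.ch (nat_lit 5)
 (.ev (nat_lit 2912) (nat_lit 16384) (.fin (nat_lit 576461301678031162))))) (.br (nat_lit 10) (.ch (nat_lit 6)
 (.ev (nat_lit 2932) (nat_lit 16384) (.ev (nat_lit 3876) (nat_lit 2048) (.ev (nat_lit 3885) (nat_lit 64)
 .dd)))) (.ch (nat_lit 10) (.ev (nat_lit 2912) (nat_lit 64) (.ev (nat_lit 3972) (nat_lit 16384) (.ev (nat_lit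
 3981) (nat_lit 2048) .dd)))))))) (.br (nat_lit 6) (.ch (nat_lit 3) (.ev (nat_lit 1136) (nat_lit 16448) (.ev
 (nat_lit 1149) (nat_lit 2048) .dd))) (.ch (nat_lit 6) (.ev (nat_lit 1136) (nat_lit 2112) (.ev (nat_lit 1149)
 (nat_lit 16384) .dd))))) (.br (nat_lit 8) (.ch (nat_lit 7) (.nd (nat_lit 3088) (.br (nat_lit 3) (.br (nat_lit
 2) (.ch (nat_lit 1) (.ev (nat_lit 3104) (nat_lit 16384) (.ev (nat_lit 4372) (nat_lit 2048) (.ev (nat_lit 4381)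
 (nat_lit 64) .dd)))) (.ch (nat_lit 2) (.ev (nat_lit 3104) (nat_lit 2048) (.ev (nat_lit 4608) (nat_lit 16448)
 .dd)))) (.br (nat_lit 7) (.ch (nat_lit 3) (.ev (nat_lit 3104) (nat_lit 16448) (.ev (nat_lit 3117) (nat_lit
 2048) .dd))) (.br (nat_lit 12) (.ch (nat_lit 7) (.ev (nat_lit 3104) (nat_lit 16448) (.ev (nat_lit 3117)
 (nat_lit 2048) .dd))) (.ch (nat_lit 12) (.ev (nat_lit 3104) (nat_lit 2112) (.ev (nat_lit 3117) (nat_lit 16384)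
 .dd)))))))) (.br (nat_lit 11) (.ch (nat_lit 8) (.ev (nat_lit 1136) (nat_lit 2048) (.ev (nat_lit 2724) (nat_lit
 16384) (.ev (nat_lit 2733) (nat_lit 64) .dd)))) (.ch (nat_lit 11) (.ev (nat_lit 1284) (nat_lit 64) (.nd
 (nat_lit 2896) (.br (nat_lit 6) (.br (nat_lit 1) (.ch (nat_lit 0) (.fin (nat_lit 576742777125553483))) (.ch
 (nat_lit 1) (.ev (nat_lit 2912) (nat_lit 2048) (.ev (nat_lit 2925) (nat_lit 16384) .dd)))) (.br (nat_lit 12)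
 (.ch (nat_lit 6) (.ev (nat_lit 3268) (nat_lit 16384) (.ev (nat_lit 3277) (nat_lit 2048) .dd))) (.ch (nat_lit
 12) (.nd (nat_lit 6400) (.br (nat_lit 9) (.ch (nat_lit 1) (.ev (nat_lit 6416) (nat_lit 16384) (.ev (nat_lit
 6429) (nat_lit 2048) .dd))) (.ch (nat_lit 9) (.fin (nat_lit 576475595716117051))))))))))))))))) (.ch (nat_lit
 3) (.ev (nat_lit 432) (nat_lit 1024) (.nd (nat_lit 1296) (.br (nat_lit 10) (.br (nat_lit 1) (.ch (nat_lit 0)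
 (.ev (nat_lit 3716) (nat_lit 2048) (.nd (nat_lit 5328) (.br (nat_lit 6) (.br (nat_lit 5) (.ch (nat_lit 4) (.ev
 (nat_lit 5344) (nat_lit 16384) (.ev (nat_lit 5357) (nat_lit 64) .dd))) (.ch (nat_lit 5) (.ev (nat_lit 5344)
 (nat_lit 64) (.ev (nat_lit 5357) (nat_lit 16384) .dd)))) (.br (nat_lit 7) (.ch (nat_lit 6) (.ev (nat_lit 5344)
 (nat_lit 64) (.ev (nat_lit 5357) (nat_lit 16384) .dd))) (.ch (nat_lit 7) (.ev (nat_lit 5396) (nat_lit 16384)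
 (.ev (nat_lit 5405) (nat_lit 64) .dd)))))))) (.br (nat_lit 8) (.ch (nat_lit 1) (.ev (nat_lit 1312) (nat_lit
 2112) (.ev (nat_lit 1325) (nat_lit 16384) .dd))) (.ch (nat_lit 8) (.ev (nat_lit 1312) (nat_lit 64) (.ev
 (nat_lit 4740) (nat_lit 2048) (.ev (nat_lit 4749) (nat_lit 16384) .dd)))))) (.br (nat_lit 11) (.ch (nat_lit
 10) (.ev (nat_lit 1312) (nat_lit 16384) (.nd (nat_lit 4176) (.br (nat_lit 8) (.ch (nat_lit 0) (.fin (nat_lit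
 576461303779377834))) (.br (nat_lit 11) (.ch (nat_lit 8) (.ev (nat_lit 4192) (nat_lit 64) (.ev (nat_lit 4205)
 (nat_lit 2048) .dd))) (.ch (nat_lit 11) (.ev (nat_lit 4228) (nat_lit 2048) (.ev (nat_lit 4237) (nat_lit 64)
 .dd)))))))) (.br (nat_lit 12) (.ch (nat_lit 11) (.ev (nat_lit 1348) (nat_lit 2048) (.ev (nat_lit 1492)
 (nat_lit 16384) (.ev (nat_lit 1501) (nat_lit 64) .dd)))) (.ch (nat_lit 12) (.nd (nat_lit 4544) (.br (nat_lit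
 5) (.br (nat_lit 4) (.ch (nat_lit 0) (.ev (nat_lit 4816) (nat_lit 64) (.fin (nat_lit 576395331087319558))))
 (.ch (nat_lit 4) (.ev (nat_lit 4560) (nat_lit 2048) (.fin (nat_lit 576434913814200880))))) (.br (nat_lit 8)
 (.ch (nat_lit 5) (.ev (nat_lit 4580) (nat_lit 2048) (.ev (nat_lit 4980) (nat_lit 16384) (.ev (nat_lit 4989)
 (nat_lit 64) .dd)))) (.ch (nat_lit 8) (.ev (nat_lit 4560) (nat_lit 64) (.fin (nat_lit
 576547063921590903)))))))))))))))) (.br (nat_lit 7) (.br (nat_lit 6) (.ch (nat_lit 4) (.ev (nat_lit 432)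
 (nat_lit 18432) (.nd (nat_lit 1120) (.br (nat_lit 5) (.br (nat_lit 3) (.ch (nat_lit 1) (.ev (nat_lit 4340)
 (nat_lit 1024) (.ev (nat_lit 4349) (nat_lit 64) .dd))) (.br (nat_lit 4) (.ch (nat_lit 3) (.ev (nat_lit 1136)
 (nat_lit 1088) .dd)) (.ch (nat_lit 4) (.nd (nat_lit 3088) (.br (nat_lit 3) (.ch (nat_lit 0) (.ev (nat_lit
 3124) (nat_lit 1024) (.ev (nat_lit 3133) (nat_lit 64) .dd))) (.br (nat_lit 7) (.ch (nat_lit 3) (.ev (nat_lit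
 3124) (nat_lit 1024) (.ev (nat_lit 3133) (nat_lit 64) .dd))) (.ch (nat_lit 7) (.ev (nat_lit 3104) (nat_lit
 1088) .dd)))))))) (.br (nat_lit 8) (.br (nat_lit 6) (.ch (nat_lit 5) (.ev (nat_lit 1748) (nat_lit 64) (.ev
 (nat_lit 1757) (nat_lit 1024) .dd))) (.ch (nat_lit 6) (.ev (nat_lit 1136) (nat_lit 64) (.ev (nat_lit 1149)
 (nat_lit 1024) .dd)))) (.br (nat_lit 11) (.ch (nat_lit 8) (.nd (nat_lit 2896) (.br (nat_lit 3) (.ch (nat_lit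
 2) (.ev (nat_lit 2912) (nat_lit 1024) (.ev (nat_lit 2925) (nat_lit 64) .dd))) (.ch (nat_lit 3) (.fin (nat_lit
 576039090178703605)))))) (.ch (nat_lit 11) (.ev (nat_lit 1136) (nat_lit 1024) (.ev (nat_lit 1149) (nat_lit 64)
 .dd))))))))) (.ch (nat_lit 6) (.nd (nat_lit 1216) (.br (nat_lit 8) (.br (nat_lit 2) (.ch (nat_lit 0) (.nd
 (nat_lit 2992) (.br (nat_lit 10) (.br (nat_lit 7) (.ch (nat_lit 2) (.ev (nat_lit 3008) (nat_lit 16448) (.ev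
 (nat_lit 4676) (nat_lit 1024) (.ev (nat_lit 4685) (nat_lit 2048) .dd)))) (.ch (nat_lit 7) (.ev (nat_lit 3008)
 (nat_lit 2112) (.ev (nat_lit 3828) (nat_lit 16384) (.ev (nat_lit 3837) (nat_lit 1024) .dd))))) (.br (nat_lit
 11) (.ch (nat_lit 10) (.ev (nat_lit 3008) (nat_lit 16448) (.ev (nat_lit 4468) (nat_lit 2048) (.ev (nat_lit
 4477) (nat_lit 1024) .dd)))) (.br (nat_lit 12) (.ch (nat_lit 11) (.ev (nat_lit 3008) (nat_lit 3072) (.ev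
 (nat_lit 3124) (nat_lit 16384) (.ev (nat_lit 3133) (nat_lit 64) .dd)))) (.ch (nat_lit 12) (.ev (nat_lit 3124)
 (nat_lit 16384) (.ev (nat_lit 3764) (nat_lit 64) (.ev (nat_lit 4484) (nat_lit 2048) (.ev (nat_lit 4493)
 (nat_lit 1024) .dd)))))))))) (.br (nat_lit 4) (.ch (nat_lit 2) (.ev (nat_lit 1232) (nat_lit 17472) (.ev
 (nat_lit 1245) (nat_lit 2048) .dd))) (.ch (nat_lit 4) (.ev (nat_lit 1232) (nat_lit 18496) (.ev (nat_lit 1245)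
 (nat_lit 1024) .dd))))) (.br (nat_lit 11) (.br (nat_lit 10) (.ch (nat_lit 8) (.ev (nat_lit 1232) (nat_lit
 2048) (.ev (nat_lit 1252) (nat_lit 16384) (.nd (nat_lit 3088) (.ch (nat_lit 4) (.ev (nat_lit 3876) (nat_lit
 64) (.ev (nat_lit 3885) (nat_lit 1024) .dd))))))) (.ch (nat_lit 10) (.ev (nat_lit 1232) (nat_lit 1024) (.ev
 (nat_lit 1348) (nat_lit 2048) (.ev (nat_lit 3316) (nat_lit 16384) (.ev (nat_lit 3325) (nat_lit 64) .dd))))))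
 (.br (nat_lit 12) (.ch (nat_lit 11) (.ev (nat_lit 1232) (nat_lit 16384) (.ev (nat_lit 1332) (nat_lit 2048)
 (.nd (nat_lit 3632) (.br (nat_lit 6) (.br (nat_lit 3) (.ch (nat_lit 2) (.ev (nat_lit 3648) (nat_lit 1024) (.ev
 (nat_lit 3661) (nat_lit 64) .dd))) (.ch (nat_lit 3) (.nd (nat_lit 6592) (.br (nat_lit 6) (.ch (nat_lit 4) (.ev
 (nat_lit 6608) (nat_lit 64) (.ev (nat_lit 6621) (nat_lit 1024) .dd))) (.ch (nat_lit 6) (.fin (nat_lit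
 576597641442836890))))))) (.br (nat_lit 11) (.ch (nat_lit 6) (.ev (nat_lit 3648) (nat_lit 64) (.ev (nat_lit
 3661) (nat_lit 1024) .dd))) (.ch (nat_lit 11) (.ev (nat_lit 3648) (nat_lit 1088) .dd)))))))) (.ch (nat_lit 12)
 (.ev (nat_lit 1232) (nat_lit 16384) (.ev (nat_lit 1252) (nat_lit 1088) (.ev (nat_lit 1261) (nat_lit 2048)
 .dd)))))))))) (.br (nat_lit 8) (.ch (nat_lit 7) (.ev (nat_lit 432) (nat_lit 16448) (.nd (nat_lit 1440) (.br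
 (nat_lit 6) (.br (nat_lit 2) (.ch (nat_lit 0) (.ev (nat_lit 1456) (nat_lit 3072) .dd)) (.br (nat_lit 4) (.ch
 (nat_lit 2) (.ev (nat_lit 1524) (nat_lit 2048) (.ev (nat_lit 1533) (nat_lit 1024) .dd))) (.ch (nat_lit 4) (.ev
 (nat_lit 1456) (nat_lit 3072) .dd)))) (.br (nat_lit 10) (.br (nat_lit 8) (.ch (nat_lit 6) (.ev (nat_lit 1456)
 (nat_lit 1024) (.ev (nat_lit 1469) (nat_lit 2048) .dd))) (.ch (nat_lit 8) (.ev (nat_lit 1456) (nat_lit 2048)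
 (.ev (nat_lit 1469) (nat_lit 1024) .dd)))) (.br (nat_lit 11) (.ch (nat_lit 10) (.nd (nat_lit 5712) (.br
 (nat_lit 5) (.ch (nat_lit 0) (.ev (nat_lit 5728) (nat_lit 1024) (.ev (nat_lit 5741) (nat_lit 2048) .dd))) (.ch
 (nat_lit 5) (.nd (nat_lit 7856) (.br (nat_lit 10) (.ch (nat_lit 4) (.fin (nat_lit 576478894256243308))) (.br
 (nat_lit 11) (.ch (nat_lit 10) (.ev (nat_lit 7872) (nat_lit 2048) (.ev (nat_lit 7885) (nat_lit 1024) .dd)))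
 (.ch (nat_lit 11) (.ev (nat_lit 7872) (nat_lit 2048) (.ev (nat_lit 7885) (nat_lit 1024) .dd)))))))))) (.ch
 (nat_lit 11) (.ev (nat_lit 1476) (nat_lit 2048) (.ev (nat_lit 1485) (nat_lit 1024) .dd))))))))) (.br (nat_lit
 10) (.ch (nat_lit 8) (.nd (nat_lit 960) (.br (nat_lit 8) (.br (nat_lit 3) (.br (nat_lit 2) (.ch (nat_lit 0)
 (.ev (nat_lit 976) (nat_lit 1088) (.nd (nat_lit 2896) (.br (nat_lit 6) (.ch (nat_lit 0) (.fin (nat_lit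
 576690000778183594))) (.ch (nat_lit 6) (.ev (nat_lit 4356) (nat_lit 2048) (.ev (nat_lit 4365) (nat_lit 16384)
 .dd))))))) (.ch (nat_lit 2) (.ev (nat_lit 976) (nat_lit 1024) (.nd (nat_lit 2896) (.br (nat_lit 8) (.br
 (nat_lit 2) (.ch (nat_lit 0) (.ev (nat_lit 2912) (nat_lit 16384) (.nd (nat_lit 6192) (.br (nat_lit 5) (.ch
 (nat_lit 0) (.fin (nat_lit 576610835311837546))) (.ch (nat_lit 5) (.ev (nat_lit 6208) (nat_lit 64) (.ev
 (nat_lit 6221) (nat_lit 2048) .dd))))))) (.br (nat_lit 4) (.ch (nat_lit 2) (.ev (nat_lit 2912) (nat_lit 16384)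
 (.nd (nat_lit 6192) (.br (nat_lit 10) (.ch (nat_lit 1) (.ev (nat_lit 6208) (nat_lit 64) (.ev (nat_lit 6221)
 (nat_lit 2048) .dd))) (.ch (nat_lit 10) (.fin (nat_lit 576012701737109354))))))) (.ch (nat_lit 4) (.ev
 (nat_lit 2912) (nat_lit 2048) (.ev (nat_lit 4288) (nat_lit 16448) .dd))))) (.br (nat_lit 9) (.ch (nat_lit 8)
 (.ev (nat_lit 2912) (nat_lit 2048) (.ev (nat_lit 3236) (nat_lit 64) (.ev (nat_lit 3245) (nat_lit 16384)
 .dd)))) (.br (nat_lit 12) (.ch (nat_lit 9) (.ev (nat_lit 2912) (nat_lit 2048) (.ev (nat_lit 3764) (nat_lit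
 16384) (.ev (nat_lit 3773) (nat_lit 64) .dd)))) (.ch (nat_lit 12) (.ev (nat_lit 3764) (nat_lit 16384) (.nd
 (nat_lit 6128) (.br (nat_lit 8) (.br (nat_lit 4) (.ch (nat_lit 3) (.fin (nat_lit 576461302064955963))) (.ch
 (nat_lit 4) (.ev (nat_lit 6144) (nat_lit 64) (.ev (nat_lit 6157) (nat_lit 2048) .dd)))) (.br (nat_lit 9) (.ch
 (nat_lit 8) (.ev (nat_lit 6144) (nat_lit 2048) (.ev (nat_lit 6157) (nat_lit 64) .dd))) (.br (nat_lit 12) (.ch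
 (nat_lit 9) (.ev (nat_lit 6144) (nat_lit 2048) (.ev (nat_lit 6157) (nat_lit 64) .dd))) (.ch (nat_lit 12) (.ev
 (nat_lit 6144) (nat_lit 64) (.ev (nat_lit 6157) (nat_lit 2048) .dd)))))))))))))))) (.br (nat_lit 5) (.ch
 (nat_lit 3) (.ev (nat_lit 976) (nat_lit 3072) (.ev (nat_lit 996) (nat_lit 16384) (.ev (nat_lit 1005) (nat_lit
 64) .dd)))) (.ch (nat_lit 5) (.ev (nat_lit 976) (nat_lit 16384) (.nd (nat_lit 2384) (.br (nat_lit 8) (.br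
 (nat_lit 1) (.ch (nat_lit 0) (.ev (nat_lit 2400) (nat_lit 64) (.ev (nat_lit 2596) (nat_lit 1024) (.ev (nat_lit
 2605) (nat_lit 2048) .dd)))) (.ch (nat_lit 1) (.ev (nat_lit 2400) (nat_lit 2112) (.ev (nat_lit 2413) (nat_lit
 1024) .dd)))) (.br (nat_lit 10) (.ch (nat_lit 8) (.ev (nat_lit 2400) (nat_lit 2048) (.nd (nat_lit 6048) (.br
 (nat_lit 4) (.ch (nat_lit 1) (.ev (nat_lit 6064) (nat_lit 64) (.ev (nat_lit 6077) (nat_lit 1024) .dd))) (.ch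
 (nat_lit 4) (.fin (nat_lit 576118254679310914))))))) (.br (nat_lit 12) (.ch (nat_lit 10) (.ev (nat_lit 4324)
 (nat_lit 2048) (.nd (nat_lit 6304) (.br (nat_lit 12) (.ch (nat_lit 6) (.fin (nat_lit 576473396703347266)))
 (.ch (nat_lit 12) (.ev (nat_lit 6320) (nat_lit 1024) (.ev (nat_lit 6333) (nat_lit 64) .dd))))))) (.ch (nat_lit
 12) (.ev (nat_lit 2400) (nat_lit 1024) (.ev (nat_lit 4324) (nat_lit 2048) (.ev (nat_lit 4333) (nat_lit 64)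
 .dd)))))))))))) (.br (nat_lit 10) (.br (nat_lit 9) (.ch (nat_lit 8) (.ev (nat_lit 976) (nat_lit 64) (.nd
 (nat_lit 2784) (.br (nat_lit 9) (.br (nat_lit 8) (.ch (nat_lit 6) (.ev (nat_lit 2800) (nat_lit 16384) (.ev
 (nat_lit 3716) (nat_lit 2048) (.ev (nat_lit 3725) (nat_lit 1024) .dd)))) (.ch (nat_lit 8) (.ev (nat_lit 2800)
 (nat_lit 2048) (.ev (nat_lit 3268) (nat_lit 16384) (.ev (nat_lit 3277) (nat_lit 1024) .dd))))) (.br (nat_lit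
 12) (.ch (nat_lit 9) (.ev (nat_lit 2800) (nat_lit 2048) (.ev (nat_lit 3792) (nat_lit 17408) .dd))) (.ch
 (nat_lit 12) (.ev (nat_lit 2800) (nat_lit 1024) (.ev (nat_lit 3828) (nat_lit 2048) (.ev (nat_lit 3837)
 (nat_lit 16384) .dd))))))))) (.ch (nat_lit 9) (.ev (nat_lit 976) (nat_lit 1024) (.ev (nat_lit 1364) (nat_lit
 64) (.nd (nat_lit 3088) (.br (nat_lit 5) (.ch (nat_lit 4) (.fin (nat_lit 575775206478920538))) (.br (nat_lit
 9) (.ch (nat_lit 5) (.ev (nat_lit 3716) (nat_lit 16384) (.ev (nat_lit 3725) (nat_lit 2048) .dd))) (.ch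
 (nat_lit 9) (.ev (nat_lit 3104) (nat_lit 16384) (.ev (nat_lit 3117) (nat_lit 2048) .dd)))))))))) (.br (nat_lit
 11) (.ch (nat_lit 10) (.ev (nat_lit 976) (nat_lit 16448) (.nd (nat_lit 2896) (.br (nat_lit 10) (.br (nat_lit
 6) (.ch (nat_lit 5) (.ev (nat_lit 3716) (nat_lit 1024) (.ev (nat_lit 3725) (nat_lit 2048) .dd))) (.ch (nat_lit
 6) (.ev (nat_lit 4772) (nat_lit 2048) (.ev (nat_lit 4781) (nat_lit 1024) .dd)))) (.br (nat_lit 11) (.ch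
 (nat_lit 10) (.ev (nat_lit 3236) (nat_lit 2048) (.ev (nat_lit 3245) (nat_lit 1024) .dd))) (.ch (nat_lit 11)
 (.ev (nat_lit 2912) (nat_lit 1024) (.ev (nat_lit 2925) (nat_lit 2048) .dd)))))))) (.br (nat_lit 12) (.ch
 (nat_lit 11) (.ev (nat_lit 976) (nat_lit 18432) (.nd (nat_lit 2784) (.br (nat_lit 3) (.br (nat_lit 2) (.ch
 (nat_lit 1) (.nd (nat_lit 6256) (.br (nat_lit 12) (.ch (nat_lit 8) (.fin (nat_lit 576388734276551135))) (.ch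
 (nat_lit 12) (.ev (nat_lit 6272) (nat_lit 1024) (.ev (nat_lit 6285) (nat_lit 64) .dd)))))) (.ch (nat_lit 2)
 (.fin (nat_lit 577490443634689250)))) (.br (nat_lit 7) (.ch (nat_lit 3) (.ev (nat_lit 2800) (nat_lit 1024)
 (.ev (nat_lit 2813) (nat_lit 64) .dd))) (.ch (nat_lit 7) (.ev (nat_lit 2800) (nat_lit 1024) (.ev (nat_lit
 2813) (nat_lit 64) .dd)))))))) (.ch (nat_lit 12) (.ev (nat_lit 976) (nat_lit 18496) (.ev (nat_lit 989)
 (nat_lit 1024) .dd))))))))) (.ch (nat_lit 10) (.ev (nat_lit 432) (nat_lit 3136) (.ev (nat_lit 445) (nat_lit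
 16384) .dd))))))))))) (.br (nat_lit 5) (.ch (nat_lit 4) (.ev (nat_lit 48) (nat_lit 24640) (.nd (nat_lit 496)
 (.br (nat_lit 6) (.br (nat_lit 3) (.br (nat_lit 1) (.ch (nat_lit 0) (.ev (nat_lit 512) (nat_lit 4096) (.nd
 (nat_lit 1120) (.br (nat_lit 7) (.br (nat_lit 3) (.ch (nat_lit 1) (.ev (nat_lit 1136) (nat_lit 8) (.fin
 (nat_lit 576390933332312566)))) (.br (nat_lit 5) (.ch (nat_lit 3) (.ev (nat_lit 1136) (nat_lit 1024) (.ev
 (nat_lit 3508) (nat_lit 2048) (.ev (nat_lit 3517) (nat_lit 8) .dd)))) (.ch (nat_lit 5) (.ev (nat_lit 1136)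
 (nat_lit 1032) (.ev (nat_lit 1149) (nat_lit 2048) .dd))))) (.br (nat_lit 11) (.br (nat_lit 8) (.ch (nat_lit 7)
 (.ev (nat_lit 1476) (nat_lit 8) (.ev (nat_lit 3604) (nat_lit 1024) (.ev (nat_lit 3613) (nat_lit 2048) .dd))))
 (.ch (nat_lit 8) (.ev (nat_lit 1136) (nat_lit 2048) (.ev (nat_lit 1696) (nat_lit 1024) (.ev (nat_lit 1709)
 (nat_lit 8) .dd))))) (.br (nat_lit 12) (.ch (nat_lit 11) (.ev (nat_lit 1476) (nat_lit 8) (.ev (nat_lit 1508)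
 (nat_lit 1024) (.ev (nat_lit 1517) (nat_lit 2048) .dd)))) (.ch (nat_lit 12) (.ev (nat_lit 1136) (nat_lit 2048)
 (.ev (nat_lit 1812) (nat_lit 8) (.ev (nat_lit 1821) (nat_lit 1024) .dd)))))))))) (.ch (nat_lit 1) (.ev
 (nat_lit 512) (nat_lit 2048) (.nd (nat_lit 1120) (.br (nat_lit 6) (.br (nat_lit 3) (.br (nat_lit 2) (.ch
 (nat_lit 1) (.ev (nat_lit 1136) (nat_lit 4096) (.nd (nat_lit 4544) (.br (nat_lit 6) (.ch (nat_lit 5) (.ev
 (nat_lit 4560) (nat_lit 1024) (.ev (nat_lit 4573) (nat_lit 8) .dd))) (.br (nat_lit 11) (.ch (nat_lit 6) (.ev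
 (nat_lit 4560) (nat_lit 8) (.ev (nat_lit 4573) (nat_lit 1024) .dd))) (.ch (nat_lit 11) (.ev (nat_lit 4580)
 (nat_lit 1024) (.ev (nat_lit 4589) (nat_lit 8) .dd)))))))) (.ch (nat_lit 2) (.ev (nat_lit 1136) (nat_lit 1024)
 (.ev (nat_lit 1476) (nat_lit 8) (.ev (nat_lit 1485) (nat_lit 4096) .dd))))) (.br (nat_lit 5) (.ch (nat_lit 3)
 (.ev (nat_lit 1136) (nat_lit 1032) (.ev (nat_lit 1149) (nat_lit 4096) .dd))) (.ch (nat_lit 5) (.ev (nat_lit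
 1136) (nat_lit 1032) (.ev (nat_lit 1149) (nat_lit 4096) .dd))))) (.br (nat_lit 9) (.br (nat_lit 7) (.ch
 (nat_lit 6) (.ev (nat_lit 1136) (nat_lit 4104) (.ev (nat_lit 1149) (nat_lit 1024) .dd))) (.ch (nat_lit 7) (.ev
 (nat_lit 1136) (nat_lit 1024) (.ev (nat_lit 3876) (nat_lit 8) (.ev (nat_lit 3885) (nat_lit 4096) .dd))))) (.br
 (nat_lit 10) (.ch (nat_lit 9) (.ev (nat_lit 1136) (nat_lit 4096) (.ev (nat_lit 1428) (nat_lit 1024) (.ev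
 (nat_lit 1437) (nat_lit 8) .dd)))) (.br (nat_lit 12) (.ch (nat_lit 10) (.nd (nat_lit 2992) (.br (nat_lit 10)
 (.br (nat_lit 8) (.ch (nat_lit 3) (.ev (nat_lit 3008) (nat_lit 4096) (.ev (nat_lit 3940) (nat_lit 8) (.ev
 (nat_lit 3949) (nat_lit 1024) .dd)))) (.br (nat_lit 9) (.ch (nat_lit 8) (.ev (nat_lit 3008) (nat_lit 1024)
 (.ev (nat_lit 3172) (nat_lit 4096) (.ev (nat_lit 3181) (nat_lit 8) .dd)))) (.ch (nat_lit 9) (.ev (nat_lit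
 3008) (nat_lit 4096) (.ev (nat_lit 3940) (nat_lit 8) (.ev (nat_lit 3949) (nat_lit 1024) .dd)))))) (.br
 (nat_lit 11) (.ch (nat_lit 10) (.ev (nat_lit 3008) (nat_lit 1024) (.ev (nat_lit 3668) (nat_lit 8) (.ev
 (nat_lit 3677) (nat_lit 4096) .dd)))) (.br (nat_lit 12) (.ch (nat_lit 11) (.ev (nat_lit 3028) (nat_lit 1024)
 (.ev (nat_lit 3668) (nat_lit 8) (.ev (nat_lit 3677) (nat_lit 4096) .dd)))) (.ch (nat_lit 12) (.ev (nat_lit
 3764) (nat_lit 4096) (.ev (nat_lit 3940) (nat_lit 8) (.ev (nat_lit 3949) (nat_lit 1024) .dd))))))))) (.ch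
 (nat_lit 12) (.ev (nat_lit 1136) (nat_lit 4104) (.ev (nat_lit 1149) (nat_lit 1024) .dd))))))))))) (.br
 (nat_lit 4) (.ch (nat_lit 3) (.ev (nat_lit 512) (nat_lit 3072) (.nd (nat_lit 1440) (.br (nat_lit 8) (.br
 (nat_lit 4) (.ch (nat_lit 2) (.nd (nat_lit 5440) (.br (nat_lit 6) (.br (nat_lit 3) (.ch (nat_lit 0) (.ev
 (nat_lit 5476) (nat_lit 4096) (.ev (nat_lit 5485) (nat_lit 8) .dd))) (.ch (nat_lit 3) (.ev (nat_lit 5456)
 (nat_lit 8) (.ev (nat_lit 5469) (nat_lit 4096) .dd)))) (.br (nat_lit 9) (.ch (nat_lit 6) (.ev (nat_lit 5456)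
 (nat_lit 8) (.ev (nat_lit 5469) (nat_lit 4096) .dd))) (.ch (nat_lit 9) (.ev (nat_lit 5456) (nat_lit 4096) (.ev
 (nat_lit 5469) (nat_lit 8) .dd))))))) (.br (nat_lit 5) (.ch (nat_lit 4) (.ev (nat_lit 1456) (nat_lit 8) (.ev
 (nat_lit 1469) (nat_lit 4096) .dd))) (.ch (nat_lit 5) (.ev (nat_lit 1476) (nat_lit 8) (.ev (nat_lit 1485)
 (nat_lit 4096) .dd))))) (.br (nat_lit 11) (.ch (nat_lit 8) (.ev (nat_lit 4676) (nat_lit 4096) (.ev (nat_lit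
 4685) (nat_lit 8) .dd))) (.br (nat_lit 12) (.ch (nat_lit 11) (.ev (nat_lit 1456) (nat_lit 4096) (.ev (nat_lit
 1469) (nat_lit 8) .dd))) (.ch (nat_lit 12) (.ev (nat_lit 1456) (nat_lit 8) (.ev (nat_lit 1469) (nat_lit 4096)
 .dd))))))))) (.ch (nat_lit 4) (.ev (nat_lit 512) (nat_lit 4104) (.nd (nat_lit 1440) (.br (nat_lit 6) (.br
 (nat_lit 1) (.ch (nat_lit 0) (.ev (nat_lit 1456) (nat_lit 1024) (.ev (nat_lit 1469) (nat_lit 2048) .dd))) (.br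
 (nat_lit 5) (.ch (nat_lit 1) (.ev (nat_lit 1456) (nat_lit 2048) (.ev (nat_lit 1469) (nat_lit 1024) .dd))) (.ch
 (nat_lit 5) (.ev (nat_lit 1716) (nat_lit 2048) (.ev (nat_lit 1725) (nat_lit 1024) .dd))))) (.br (nat_lit 11)
 (.br (nat_lit 7) (.ch (nat_lit 6) (.ev (nat_lit 3524) (nat_lit 2048) (.ev (nat_lit 3533) (nat_lit 1024) .dd)))
 (.ch (nat_lit 7) (.ev (nat_lit 1456) (nat_lit 1024) (.ev (nat_lit 1469) (nat_lit 2048) .dd)))) (.br (nat_lit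
 12) (.ch (nat_lit 11) (.ev (nat_lit 1456) (nat_lit 2048) (.ev (nat_lit 1469) (nat_lit 1024) .dd))) (.ch
 (nat_lit 12) (.ev (nat_lit 1796) (nat_lit 1024) (.ev (nat_lit 1805) (nat_lit 2048) .dd))))))))))) (.br
 (nat_lit 8) (.br (nat_lit 7) (.ch (nat_lit 6) (.ev (nat_lit 512) (nat_lit 1024) (.nd (nat_lit 1120) (.br
 (nat_lit 4) (.br (nat_lit 2) (.ch (nat_lit 0) (.ev (nat_lit 1476) (nat_lit 8) (.ev (nat_lit 5492) (nat_lit
 2048) (.ev (nat_lit 5501) (nat_lit 4096) .dd)))) (.br (nat_lit 3) (.ch (nat_lit 2) (.ev (nat_lit 1136)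
 (nat_lit 4104) (.ev (nat_lit 1149) (nat_lit 2048) .dd))) (.ch (nat_lit 3) (.ev (nat_lit 1136) (nat_lit 2048)
 (.ev (nat_lit 1172) (nat_lit 4096) (.ev (nat_lit 1181) (nat_lit 8) .dd)))))) (.br (nat_lit 5) (.ch (nat_lit 4)
 (.ev (nat_lit 1716) (nat_lit 8) (.ev (nat_lit 4692) (nat_lit 2048) (.ev (nat_lit 4701) (nat_lit 4096) .dd))))
 (.br (nat_lit 6) (.ch (nat_lit 5) (.ev (nat_lit 1136) (nat_lit 2048) (.ev (nat_lit 1476) (nat_lit 8) (.ev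
 (nat_lit 1485) (nat_lit 4096) .dd)))) (.ch (nat_lit 6) (.ev (nat_lit 1136) (nat_lit 8) (.ev (nat_lit 1476)
 (nat_lit 2048) (.ev (nat_lit 1485) (nat_lit 4096) .dd)))))))))) (.ch (nat_lit 7) (.ev (nat_lit 512) (nat_lit
 2048) (.nd (nat_lit 1040) (.br (nat_lit 5) (.br (nat_lit 1) (.ch (nat_lit 0) (.ev (nat_lit 1056) (nat_lit
 1024) (.ev (nat_lit 1524) (nat_lit 8) (.ev (nat_lit 1533) (nat_lit 4096) .dd)))) (.br (nat_lit 4) (.ch
 (nat_lit 1) (.ev (nat_lit 1056) (nat_lit 4096) (.ev (nat_lit 3492) (nat_lit 1024) (.ev (nat_lit 3501) (nat_lit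
 8) .dd)))) (.ch (nat_lit 4) (.ev (nat_lit 1056) (nat_lit 4096) (.ev (nat_lit 1156) (nat_lit 8) (.ev (nat_lit
 1165) (nat_lit 1024) .dd)))))) (.br (nat_lit 11) (.br (nat_lit 7) (.ch (nat_lit 5) (.ev (nat_lit 1056)
 (nat_lit 4104) (.ev (nat_lit 1069) (nat_lit 1024) .dd))) (.ch (nat_lit 7) (.ev (nat_lit 3620) (nat_lit 8) (.ev
 (nat_lit 3680) (nat_lit 1024) (.ev (nat_lit 3693) (nat_lit 4096) .dd))))) (.br (nat_lit 12) (.ch (nat_lit 11)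
 (.ev (nat_lit 1056) (nat_lit 1024) (.nd (nat_lit 5840) (.br (nat_lit 6) (.br (nat_lit 5) (.ch (nat_lit 2) (.ev
 (nat_lit 5856) (nat_lit 8) (.ev (nat_lit 5869) (nat_lit 4096) .dd))) (.ch (nat_lit 5) (.fin (nat_lit
 576487690397499922)))) (.br (nat_lit 8) (.ch (nat_lit 6) (.ev (nat_lit 5856) (nat_lit 4104) .dd)) (.ch
 (nat_lit 8) (.ev (nat_lit 5856) (nat_lit 4104) .dd))))))) (.ch (nat_lit 12) (.ev (nat_lit 1056) (nat_lit 4104)
 (.ev (nat_lit 1069) (nat_lit 1024) .dd)))))))))) (.br (nat_lit 9) (.ch (nat_lit 8) (.ev (nat_lit 512) (nat_lit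
 1032) (.nd (nat_lit 1440) (.br (nat_lit 5) (.br (nat_lit 2) (.ch (nat_lit 1) (.ev (nat_lit 1456) (nat_lit
 4096) (.ev (nat_lit 1469) (nat_lit 2048) .dd))) (.br (nat_lit 4) (.ch (nat_lit 2) (.ev (nat_lit 1456) (nat_lit
 4096) (.ev (nat_lit 1469) (nat_lit 2048) .dd))) (.ch (nat_lit 4) (.ev (nat_lit 1456) (nat_lit 4096) (.ev
 (nat_lit 1469) (nat_lit 2048) .dd))))) (.br (nat_lit 8) (.ch (nat_lit 5) (.ev (nat_lit 1456) (nat_lit 2048)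
 (.ev (nat_lit 1469) (nat_lit 4096) .dd))) (.br (nat_lit 9) (.ch (nat_lit 8) (.ev (nat_lit 1456) (nat_lit 2048)
 (.ev (nat_lit 1469) (nat_lit 4096) .dd))) (.ch (nat_lit 9) (.ev (nat_lit 1680) (nat_lit 4096) (.ev (nat_lit
 1693) (nat_lit 2048) .dd))))))))) (.br (nat_lit 12) (.ch (nat_lit 9) (.ev (nat_lit 512) (nat_lit 4104) (.nd
 (nat_lit 1440) (.br (nat_lit 6) (.br (nat_lit 4) (.ch (nat_lit 2) (.ev (nat_lit 1456) (nat_lit 3072) .dd))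
 (.br (nat_lit 5) (.ch (nat_lit 4) (.ev (nat_lit 4628) (nat_lit 2048) (.ev (nat_lit 4637) (nat_lit 1024) .dd)))
 (.ch (nat_lit 5) (.ev (nat_lit 1476) (nat_lit 2048) (.ev (nat_lit 1485) (nat_lit 1024) .dd))))) (.br (nat_lit
 9) (.br (nat_lit 8) (.ch (nat_lit 6) (.ev (nat_lit 1456) (nat_lit 3072) .dd)) (.ch (nat_lit 8) (.ev (nat_lit
 3828) (nat_lit 1024) (.ev (nat_lit 3837) (nat_lit 2048) .dd)))) (.br (nat_lit 10) (.ch (nat_lit 9) (.ev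
 (nat_lit 1456) (nat_lit 1024) (.ev (nat_lit 1469) (nat_lit 2048) .dd))) (.ch (nat_lit 10) (.nd (nat_lit 3632)
 (.br (nat_lit 5) (.br (nat_lit 1) (.ch (nat_lit 0) (.ev (nat_lit 3648) (nat_lit 1024) (.ev (nat_lit 3661)
 (nat_lit 2048) .dd))) (.br (nat_lit 3) (.ch (nat_lit 1) (.ev (nat_lit 3648) (nat_lit 3072) .dd)) (.ch (nat_lit
 3) (.ev (nat_lit 3924) (nat_lit 1024) (.ev (nat_lit 3933) (nat_lit 2048) .dd))))) (.br (nat_lit 11) (.br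
 (nat_lit 8) (.ch (nat_lit 5) (.ev (nat_lit 3924) (nat_lit 1024) (.ev (nat_lit 3933) (nat_lit 2048) .dd))) (.ch
 (nat_lit 8) (.ev (nat_lit 3648) (nat_lit 1024) (.ev (nat_lit 3661) (nat_lit 2048) .dd)))) (.br (nat_lit 12)
 (.ch (nat_lit 11) (.ev (nat_lit 3668) (nat_lit 2048) (.ev (nat_lit 3677) (nat_lit 1024) .dd))) (.ch (nat_lit
 12) (.ev (nat_lit 3924) (nat_lit 1024) (.ev (nat_lit 3933) (nat_lit 2048) .dd)))))))))))))) (.ch (nat_lit 12)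
 (.ev (nat_lit 512) (nat_lit 5120) (.nd (nat_lit 1632) (.br (nat_lit 5) (.br (nat_lit 2) (.br (nat_lit 1) (.ch
 (nat_lit 0) (.fin (nat_lit 576462401572389440))) (.ch (nat_lit 1) (.ev (nat_lit 1668) (nat_lit 8) (.ev
 (nat_lit 1677) (nat_lit 2048) .dd)))) (.br (nat_lit 4) (.ch (nat_lit 2) (.ev (nat_lit 1648) (nat_lit 2048)
 (.ev (nat_lit 1661) (nat_lit 8) .dd))) (.ch (nat_lit 4) (.ev (nat_lit 1648) (nat_lit 2048) (.ev (nat_lit 1661)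
 (nat_lit 8) .dd))))) (.br (nat_lit 8) (.br (nat_lit 7) (.ch (nat_lit 5) (.ev (nat_lit 1648) (nat_lit 8) (.ev
 (nat_lit 1661) (nat_lit 2048) .dd))) (.ch (nat_lit 7) (.ev (nat_lit 1668) (nat_lit 8) (.ev (nat_lit 1677)
 (nat_lit 2048) .dd)))) (.br (nat_lit 9) (.ch (nat_lit 8) (.ev (nat_lit 1648) (nat_lit 2048) (.ev (nat_lit
 1661) (nat_lit 8) .dd))) (.br (nat_lit 10) (.ch (nat_lit 9) (.ev (nat_lit 1648) (nat_lit 8) (.ev (nat_lit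
 1661) (nat_lit 2048) .dd))) (.ch (nat_lit 10) (.ev (nat_lit 1648) (nat_lit 8) (.ev (nat_lit 1661) (nat_lit
 2048) .dd))))))))))))))))) (.ch (nat_lit 5) (.ev (nat_lit 48) (nat_lit 9280) (.nd (nat_lit 352) (.br (nat_lit
 5) (.br (nat_lit 3) (.br (nat_lit 1) (.ch (nat_lit 0) (.ev (nat_lit 368) (nat_lit 2048) (.nd (nat_lit 1440)
 (.br (nat_lit 7) (.br (nat_lit 6) (.ch (nat_lit 0) (.ev (nat_lit 1456) (nat_lit 8) (.ev (nat_lit 1680)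
 (nat_lit 20480) .dd))) (.ch (nat_lit 6) (.ev (nat_lit 1456) (nat_lit 4096) (.ev (nat_lit 1476) (nat_lit 16384)
 (.ev (nat_lit 1485) (nat_lit 8) .dd))))) (.br (nat_lit 11) (.ch (nat_lit 7) (.ev (nat_lit 1456) (nat_lit
 16384) (.fin (nat_lit 576449207451730493)))) (.ch (nat_lit 11) (.ev (nat_lit 1456) (nat_lit 8) (.ev (nat_lit
 1476) (nat_lit 16384) (.ev (nat_lit 1485) (nat_lit 4096) .dd))))))))) (.ch (nat_lit 1) (.ev (nat_lit 368)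
 (nat_lit 18440) (.ev (nat_lit 381) (nat_lit 4096) .dd)))) (.br (nat_lit 4) (.ch (nat_lit 3) (.nd (nat_lit 960)
 (.br (nat_lit 7) (.br (nat_lit 3) (.br (nat_lit 2) (.ch (nat_lit 1) (.ev (nat_lit 976) (nat_lit 4096) (.ev
 (nat_lit 1156) (nat_lit 16392) (.ev (nat_lit 1165) (nat_lit 2048) .dd)))) (.ch (nat_lit 2) (.ev (nat_lit 976)
 (nat_lit 2048) (.ev (nat_lit 1156) (nat_lit 16384) (.ev (nat_lit 3236) (nat_lit 4096) (.ev (nat_lit 3245)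
 (nat_lit 8) .dd)))))) (.br (nat_lit 6) (.ch (nat_lit 3) (.ev (nat_lit 976) (nat_lit 4104) (.ev (nat_lit 3908)
 (nat_lit 16384) (.ev (nat_lit 3917) (nat_lit 2048) .dd)))) (.ch (nat_lit 6) (.ev (nat_lit 976) (nat_lit 16384)
 (.ev (nat_lit 1156) (nat_lit 8) (.nd (nat_lit 2288) (.br (nat_lit 9) (.br (nat_lit 5) (.ch (nat_lit 3) (.ev
 (nat_lit 2304) (nat_lit 2048) (.ev (nat_lit 2317) (nat_lit 4096) .dd))) (.br (nat_lit 8) (.ch (nat_lit 5) (.ev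
 (nat_lit 2304) (nat_lit 4096) (.ev (nat_lit 2317) (nat_lit 2048) .dd))) (.ch (nat_lit 8) (.ev (nat_lit 2660)
 (nat_lit 4096) (.ev (nat_lit 2669) (nat_lit 2048) .dd))))) (.br (nat_lit 11) (.br (nat_lit 10) (.ch (nat_lit
 9) (.ev (nat_lit 2304) (nat_lit 4096) (.ev (nat_lit 2317) (nat_lit 2048) .dd))) (.ch (nat_lit 10) (.ev
 (nat_lit 2452) (nat_lit 4096) (.ev (nat_lit 2461) (nat_lit 2048) .dd)))) (.br (nat_lit 12) (.ch (nat_lit 11)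
 (.ev (nat_lit 2304) (nat_lit 2048) (.ev (nat_lit 2317) (nat_lit 4096) .dd))) (.ch (nat_lit 12) (.ev (nat_lit
 2304) (nat_lit 2048) (.ev (nat_lit 2317) (nat_lit 4096) .dd)))))))))))) (.br (nat_lit 10) (.br (nat_lit 8)
 (.ch (nat_lit 7) (.ev (nat_lit 1156) (nat_lit 8) (.ev (nat_lit 1204) (nat_lit 2048) (.ev (nat_lit 1492)
 (nat_lit 16384) (.ev (nat_lit 1501) (nat_lit 4096) .dd))))) (.ch (nat_lit 8) (.ev (nat_lit 976) (nat_lit
 20488) (.ev (nat_lit 989) (nat_lit 2048) .dd)))) (.br (nat_lit 11) (.ch (nat_lit 10) (.ev (nat_lit 976)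
 (nat_lit 18440) (.ev (nat_lit 989) (nat_lit 4096) .dd))) (.ch (nat_lit 11) (.ev (nat_lit 976) (nat_lit 2048)
 (.nd (nat_lit 2544) (.br (nat_lit 3) (.br (nat_lit 2) (.ch (nat_lit 1) (.ev (nat_lit 2560) (nat_lit 4096) (.ev
 (nat_lit 3124) (nat_lit 8) (.ev (nat_lit 3133) (nat_lit 16384) .dd)))) (.ch (nat_lit 2) (.ev (nat_lit 3124)
 (nat_lit 8) (.ev (nat_lit 3716) (nat_lit 4096) (.ev (nat_lit 3725) (nat_lit 16384) .dd))))) (.br (nat_lit 9)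
 (.ch (nat_lit 3) (.ev (nat_lit 3124) (nat_lit 8) (.ev (nat_lit 3716) (nat_lit 4096) (.ev (nat_lit 3725)
 (nat_lit 16384) .dd)))) (.ch (nat_lit 9) (.ev (nat_lit 3716) (nat_lit 20480) (.ev (nat_lit 3725) (nat_lit 8)
 .dd))))))))))))) (.ch (nat_lit 4) (.ev (nat_lit 368) (nat_lit 2048) (.nd (nat_lit 1120) (.br (nat_lit 6) (.br
 (nat_lit 3) (.br (nat_lit 2) (.ch (nat_lit 1) (.ev (nat_lit 1136) (nat_lit 16384) (.ev (nat_lit 1156) (nat_lit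
 4096) (.ev (nat_lit 1165) (nat_lit 8) .dd)))) (.ch (nat_lit 2) (.nd (nat_lit 2544) (.br (nat_lit 8) (.br
 (nat_lit 3) (.ch (nat_lit 2) (.ev (nat_lit 2560) (nat_lit 8) (.ev (nat_lit 2964) (nat_lit 4096) (.ev (nat_lit
 2973) (nat_lit 16384) .dd)))) (.br (nat_lit 7) (.ch (nat_lit 3) (.ev (nat_lit 2560) (nat_lit 16392) (.ev
 (nat_lit 2573) (nat_lit 4096) .dd))) (.ch (nat_lit 7) (.ev (nat_lit 2560) (nat_lit 4096) (.ev (nat_lit 2868)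
 (nat_lit 8) (.ev (nat_lit 2877) (nat_lit 16384) .dd)))))) (.br (nat_lit 9) (.ch (nat_lit 8) (.ev (nat_lit
 2560) (nat_lit 16384) (.ev (nat_lit 2580) (nat_lit 8) (.ev (nat_lit 2589) (nat_lit 4096) .dd)))) (.br (nat_lit
 10) (.ch (nat_lit 9) (.ev (nat_lit 2560) (nat_lit 16384) (.fin (nat_lit 576639423525372977)))) (.ch (nat_lit
 10) (.ev (nat_lit 2560) (nat_lit 4096) (.ev (nat_lit 3476) (nat_lit 8) (.ev (nat_lit 3485) (nat_lit 16384)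
 .dd)))))))))) (.br (nat_lit 5) (.ch (nat_lit 3) (.ev (nat_lit 1136) (nat_lit 4096) (.ev (nat_lit 1476)
 (nat_lit 16384) (.ev (nat_lit 1485) (nat_lit 8) .dd)))) (.ch (nat_lit 5) (.ev (nat_lit 1136) (nat_lit 4096)
 (.ev (nat_lit 4628) (nat_lit 8) (.ev (nat_lit 4637) (nat_lit 16384) .dd)))))) (.br (nat_lit 9) (.br (nat_lit
 7) (.ch (nat_lit 6) (.ev (nat_lit 1136) (nat_lit 16392) (.ev (nat_lit 1149) (nat_lit 4096) .dd))) (.ch
 (nat_lit 7) (.ev (nat_lit 1136) (nat_lit 8) (.ev (nat_lit 1476) (nat_lit 16384) (.ev (nat_lit 1485) (nat_lit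
 4096) .dd))))) (.br (nat_lit 10) (.ch (nat_lit 9) (.ev (nat_lit 1136) (nat_lit 16392) (.ev (nat_lit 1149)
 (nat_lit 4096) .dd))) (.ch (nat_lit 10) (.ev (nat_lit 1364) (nat_lit 4096) (.ev (nat_lit 1492) (nat_lit 16384)
 (.ev (nat_lit 1501) (nat_lit 8) .dd)))))))))))) (.br (nat_lit 8) (.br (nat_lit 6) (.ch (nat_lit 5) (.ev
 (nat_lit 368) (nat_lit 22528) (.ev (nat_lit 381) (nat_lit 8) .dd))) (.ch (nat_lit 6) (.ev (nat_lit 368)
 (nat_lit 4104) (.nd (nat_lit 1216) (.br (nat_lit 5) (.br (nat_lit 3) (.ch (nat_lit 1) (.nd (nat_lit 2992) (.br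
 (nat_lit 7) (.br (nat_lit 3) (.br (nat_lit 1) (.ch (nat_lit 0) (.ev (nat_lit 3008) (nat_lit 2048) (.ev
 (nat_lit 3021) (nat_lit 16384) .dd))) (.ch (nat_lit 1) (.ev (nat_lit 3716) (nat_lit 16384) (.ev (nat_lit 3725)
 (nat_lit 2048) .dd)))) (.br (nat_lit 6) (.ch (nat_lit 3) (.ev (nat_lit 3008) (nat_lit 16384) (.ev (nat_lit
 3021) (nat_lit 2048) .dd))) (.ch (nat_lit 6) (.ev (nat_lit 3008) (nat_lit 2048) (.ev (nat_lit 3021) (nat_lit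
 16384) .dd))))) (.br (nat_lit 10) (.br (nat_lit 9) (.ch (nat_lit 7) (.ev (nat_lit 3028) (nat_lit 2048) (.ev
 (nat_lit 3037) (nat_lit 16384) .dd))) (.ch (nat_lit 9) (.ev (nat_lit 3008) (nat_lit 16384) (.ev (nat_lit 3021)
 (nat_lit 2048) .dd)))) (.br (nat_lit 11) (.ch (nat_lit 10) (.ev (nat_lit 3008) (nat_lit 16384) (.ev (nat_lit
 3021) (nat_lit 2048) .dd))) (.ch (nat_lit 11) (.ev (nat_lit 3008) (nat_lit 2048) (.ev (nat_lit 3021) (nat_lit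
 16384) .dd)))))))) (.br (nat_lit 4) (.ch (nat_lit 3) (.nd (nat_lit 5840) (.br (nat_lit 5) (.br (nat_lit 3)
 (.ch (nat_lit 0) (.fin (nat_lit 576514078550737498))) (.ch (nat_lit 3) (.ev (nat_lit 5856) (nat_lit 18432)
 .dd))) (.br (nat_lit 9) (.ch (nat_lit 5) (.ev (nat_lit 5856) (nat_lit 2048) (.ev (nat_lit 5869) (nat_lit
 16384) .dd))) (.ch (nat_lit 9) (.ev (nat_lit 5856) (nat_lit 18432) .dd)))))) (.ch (nat_lit 4) (.ev (nat_lit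
 1540) (nat_lit 16384) (.ev (nat_lit 1549) (nat_lit 2048) .dd))))) (.br (nat_lit 8) (.ch (nat_lit 5) (.ev
 (nat_lit 1232) (nat_lit 16384) (.ev (nat_lit 1245) (nat_lit 2048) .dd))) (.br (nat_lit 12) (.ch (nat_lit 8)
 (.ev (nat_lit 1232) (nat_lit 16384) (.ev (nat_lit 1245) (nat_lit 2048) .dd))) (.ch (nat_lit 12) (.ev (nat_lit
 1232) (nat_lit 18432) .dd))))))))) (.br (nat_lit 10) (.ch (nat_lit 8) (.ev (nat_lit 368) (nat_lit 20480) (.nd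
 (nat_lit 1216) (.br (nat_lit 6) (.br (nat_lit 3) (.ch (nat_lit 2) (.ev (nat_lit 3380) (nat_lit 2048) (.ev
 (nat_lit 3389) (nat_lit 8) .dd))) (.br (nat_lit 4) (.ch (nat_lit 3) (.ev (nat_lit 1332) (nat_lit 8) (.ev
 (nat_lit 1341) (nat_lit 2048) .dd))) (.ch (nat_lit 4) (.ev (nat_lit 1332) (nat_lit 8) (.ev (nat_lit 1341)
 (nat_lit 2048) .dd))))) (.br (nat_lit 10) (.br (nat_lit 7) (.ch (nat_lit 6) (.ev (nat_lit 1232) (nat_lit 2048)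
 (.ev (nat_lit 1245) (nat_lit 8) .dd))) (.ch (nat_lit 7) (.ev (nat_lit 1232) (nat_lit 8) (.ev (nat_lit 1245)
 (nat_lit 2048) .dd)))) (.br (nat_lit 12) (.ch (nat_lit 10) (.nd (nat_lit 2784) (.br (nat_lit 7) (.br (nat_lit
 1) (.ch (nat_lit 0) (.ev (nat_lit 2800) (nat_lit 8) (.ev (nat_lit 2813) (nat_lit 2048) .dd))) (.br (nat_lit 3)
 (.ch (nat_lit 1) (.ev (nat_lit 2800) (nat_lit 2056) .dd)) (.ch (nat_lit 3) (.ev (nat_lit 2800) (nat_lit 2048)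
 (.ev (nat_lit 2813) (nat_lit 8) .dd))))) (.br (nat_lit 9) (.ch (nat_lit 7) (.ev (nat_lit 2932) (nat_lit 8)
 (.ev (nat_lit 2941) (nat_lit 2048) .dd))) (.br (nat_lit 10) (.ch (nat_lit 9) (.ev (nat_lit 2932) (nat_lit 8)
 (.ev (nat_lit 2941) (nat_lit 2048) .dd))) (.ch (nat_lit 10) (.nd (nat_lit 7680) (.ch (nat_lit 5) (.nd (nat_lit
 8240) (.br (nat_lit 10) (.ch (nat_lit 2) (.ev (nat_lit 8256) (nat_lit 2056) .dd)) (.ch (nat_lit 10) (.fin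
 (nat_lit 576426117670847006))))))))))))) (.ch (nat_lit 12) (.ev (nat_lit 1232) (nat_lit 2056) .dd)))))))) (.br
 (nat_lit 12) (.ch (nat_lit 10) (.ev (nat_lit 368) (nat_lit 16392) (.nd (nat_lit 1296) (.br (nat_lit 8) (.br
 (nat_lit 5) (.ch (nat_lit 4) (.fin (nat_lit 576518476756632406))) (.br (nat_lit 6) (.ch (nat_lit 5) (.ev
 (nat_lit 1312) (nat_lit 4096) (.ev (nat_lit 1325) (nat_lit 2048) .dd))) (.ch (nat_lit 6) (.fin (nat_lit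
 576463501088211515))))) (.br (nat_lit 11) (.br (nat_lit 10) (.ch (nat_lit 8) (.ev (nat_lit 1348) (nat_lit
 2048) (.ev (nat_lit 1357) (nat_lit 4096) .dd))) (.ch (nat_lit 10) (.ev (nat_lit 1312) (nat_lit 2048) (.ev
 (nat_lit 1325) (nat_lit 4096) .dd)))) (.br (nat_lit 12) (.ch (nat_lit 11) (.ev (nat_lit 1312) (nat_lit 4096)
 (.ev (nat_lit 1325) (nat_lit 2048) .dd))) (.ch (nat_lit 12) (.ev (nat_lit 1312) (nat_lit 2048) (.ev (nat_lit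
 1325) (nat_lit 4096) .dd))))))))) (.ch (nat_lit 12) (.nd (nat_lit 896) (.br (nat_lit 5) (.br (nat_lit 3) (.br
 (nat_lit 2) (.ch (nat_lit 1) (.ev (nat_lit 912) (nat_lit 2056) (.ev (nat_lit 1156) (nat_lit 4096) (.ev
 (nat_lit 1165) (nat_lit 16384) .dd)))) (.ch (nat_lit 2) (.ev (nat_lit 932) (nat_lit 8) (.ev (nat_lit 1492)
 (nat_lit 16384) (.nd (nat_lit 3632) (.br (nat_lit 8) (.br (nat_lit 2) (.ch (nat_lit 1) (.ev (nat_lit 3648)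
 (nat_lit 4096) (.ev (nat_lit 3661) (nat_lit 2048) .dd))) (.br (nat_lit 6) (.ch (nat_lit 2) (.ev (nat_lit 4288)
 (nat_lit 4096) (.ev (nat_lit 4301) (nat_lit 2048) .dd))) (.ch (nat_lit 6) (.ev (nat_lit 3648) (nat_lit 2048)
 (.ev (nat_lit 3661) (nat_lit 4096) .dd))))) (.br (nat_lit 10) (.ch (nat_lit 8) (.ev (nat_lit 3648) (nat_lit
 6144) .dd)) (.br (nat_lit 12) (.ch (nat_lit 10) (.ev (nat_lit 3648) (nat_lit 4096) (.ev (nat_lit 3661)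
 (nat_lit 2048) .dd))) (.ch (nat_lit 12) (.ev (nat_lit 3648) (nat_lit 4096) (.ev (nat_lit 3661) (nat_lit 2048)
 .dd))))))))))) (.br (nat_lit 4) (.ch (nat_lit 3) (.ev (nat_lit 912) (nat_lit 18440) (.ev (nat_lit 925)
 (nat_lit 4096) .dd))) (.ch (nat_lit 4) (.ev (nat_lit 912) (nat_lit 20480) (.fin (nat_lit
 576769165156107173)))))) (.br (nat_lit 8) (.br (nat_lit 6) (.ch (nat_lit 5) (.ev (nat_lit 912) (nat_lit 20480)
 (.ev (nat_lit 932) (nat_lit 8) (.ev (nat_lit 941) (nat_lit 2048) .dd)))) (.ch (nat_lit 6) (.ev (nat_lit 912)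
 (nat_lit 8) (.ev (nat_lit 1108) (nat_lit 2048) (.ev (nat_lit 5508) (nat_lit 16384) (.ev (nat_lit 5517)
 (nat_lit 4096) .dd)))))) (.br (nat_lit 9) (.ch (nat_lit 8) (.ev (nat_lit 912) (nat_lit 2048) (.ev (nat_lit
 4708) (nat_lit 16384) (.ev (nat_lit 4788) (nat_lit 8) (.ev (nat_lit 4797) (nat_lit 4096) .dd))))) (.ch
 (nat_lit 9) (.ev (nat_lit 912) (nat_lit 4096) (.ev (nat_lit 1492) (nat_lit 16384) (.nd (nat_lit 2384) (.br
 (nat_lit 7) (.br (nat_lit 2) (.ch (nat_lit 1) (.ev (nat_lit 2612) (nat_lit 8) (.ev (nat_lit 2621) (nat_lit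
 2048) .dd))) (.br (nat_lit 6) (.ch (nat_lit 2) (.nd (nat_lit 6688) (.br (nat_lit 9) (.ch (nat_lit 3) (.fin
 (nat_lit 576368943066202654))) (.br (nat_lit 10) (.ch (nat_lit 9) (.ev (nat_lit 6704) (nat_lit 8) (.ev
 (nat_lit 6717) (nat_lit 2048) .dd))) (.ch (nat_lit 10) (.ev (nat_lit 6704) (nat_lit 8) (.ev (nat_lit 6717)
 (nat_lit 2048) .dd))))))) (.ch (nat_lit 6) (.ev (nat_lit 2420) (nat_lit 8) (.ev (nat_lit 2429) (nat_lit 2048)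
 .dd))))) (.br (nat_lit 8) (.ch (nat_lit 7) (.ev (nat_lit 2400) (nat_lit 2048) (.ev (nat_lit 2413) (nat_lit 8)
 .dd))) (.br (nat_lit 9) (.ch (nat_lit 8) (.ev (nat_lit 2420) (nat_lit 8) (.ev (nat_lit 2429) (nat_lit 2048)
 .dd))) (.ch (nat_lit 9) (.ev (nat_lit 2400) (nat_lit 8) (.ev (nat_lit 2413) (nat_lit 2048)
 .dd)))))))))))))))))))))))) (.br (nat_lit 9) (.br (nat_lit 8) (.ch (nat_lit 6) (.ev (nat_lit 48) (nat_lit
 3072) (.nd (nat_lit 496) (.br (nat_lit 5) (.br (nat_lit 3) (.br (nat_lit 1) (.ch (nat_lit 0) (.ev (nat_lit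
 512) (nat_lit 20480) (.nd (nat_lit 1296) (.br (nat_lit 3) (.br (nat_lit 1) (.ch (nat_lit 0) (.ev (nat_lit
 1312) (nat_lit 8) (.nd (nat_lit 5280) (.br (nat_lit 1) (.ch (nat_lit 0) (.ev (nat_lit 5296) (nat_lit 64) (.ev
 (nat_lit 5309) (nat_lit 8192) .dd))) (.br (nat_lit 4) (.ch (nat_lit 1) (.ev (nat_lit 5396) (nat_lit 8192) (.ev
 (nat_lit 5405) (nat_lit 64) .dd))) (.ch (nat_lit 4) (.ev (nat_lit 5296) (nat_lit 8192) (.ev (nat_lit 5309)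
 (nat_lit 64) .dd)))))))) (.br (nat_lit 2) (.ch (nat_lit 1) (.ev (nat_lit 1312) (nat_lit 8192) (.nd (nat_lit
 5280) (.br (nat_lit 8) (.ch (nat_lit 7) (.ev (nat_lit 5316) (nat_lit 64) (.ev (nat_lit 5325) (nat_lit 8)
 .dd))) (.ch (nat_lit 8) (.fin (nat_lit 576448107941151256))))))) (.ch (nat_lit 2) (.ev (nat_lit 1312) (nat_lit
 8192) (.ev (nat_lit 1508) (nat_lit 64) (.ev (nat_lit 1517) (nat_lit 8) .dd)))))) (.br (nat_lit 8) (.ch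
 (nat_lit 3) (.ev (nat_lit 1312) (nat_lit 8) (.nd (nat_lit 5216) (.br (nat_lit 9) (.ch (nat_lit 6) (.ev
 (nat_lit 5232) (nat_lit 64) (.ev (nat_lit 5245) (nat_lit 8192) .dd))) (.br (nat_lit 11) (.ch (nat_lit 9) (.fin
 (nat_lit 576953884518858538))) (.ch (nat_lit 11) (.ev (nat_lit 5252) (nat_lit 64) (.ev (nat_lit 5261) (nat_lit
 8192) .dd)))))))) (.br (nat_lit 9) (.ch (nat_lit 8) (.ev (nat_lit 1312) (nat_lit 64) (.ev (nat_lit 1476)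
 (nat_lit 8) (.ev (nat_lit 1485) (nat_lit 8192) .dd)))) (.ch (nat_lit 9) (.ev (nat_lit 1312) (nat_lit 8256)
 (.ev (nat_lit 1325) (nat_lit 8) .dd))))))))) (.ch (nat_lit 1) (.ev (nat_lit 512) (nat_lit 20488) (.nd (nat_lit
 1216) (.br (nat_lit 7) (.br (nat_lit 3) (.ch (nat_lit 0) (.ev (nat_lit 1232) (nat_lit 64) (.ev (nat_lit 1245)
 (nat_lit 8192) .dd))) (.br (nat_lit 5) (.ch (nat_lit 3) (.nd (nat_lit 3632) (.br (nat_lit 11) (.ch (nat_lit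
 10) (.ev (nat_lit 3908) (nat_lit 64) (.ev (nat_lit 3917) (nat_lit 8192) .dd))) (.ch (nat_lit 11) (.fin
 (nat_lit 576197419139023642)))))) (.ch (nat_lit 5) (.ev (nat_lit 1232) (nat_lit 64) (.ev (nat_lit 1245)
 (nat_lit 8192) .dd))))) (.br (nat_lit 10) (.ch (nat_lit 7) (.ev (nat_lit 1268) (nat_lit 8192) (.ev (nat_lit
 1277) (nat_lit 64) .dd))) (.br (nat_lit 11) (.ch (nat_lit 10) (.ev (nat_lit 2756) (nat_lit 64) (.ev (nat_lit
 2765) (nat_lit 8192) .dd))) (.ch (nat_lit 11) (.nd (nat_lit 4432) (.br (nat_lit 2) (.ch (nat_lit 1) (.ev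
 (nat_lit 4628) (nat_lit 64) (.ev (nat_lit 4637) (nat_lit 8192) .dd))) (.ch (nat_lit 2) (.ev (nat_lit 4468)
 (nat_lit 64) (.ev (nat_lit 4477) (nat_lit 8192) .dd))))))))))))) (.br (nat_lit 4) (.ch (nat_lit 3) (.ev
 (nat_lit 512) (nat_lit 16392) (.nd (nat_lit 1040) (.br (nat_lit 7) (.br (nat_lit 4) (.br (nat_lit 2) (.ch
 (nat_lit 1) (.ev (nat_lit 1056) (nat_lit 64) (.nd (nat_lit 3088) (.br (nat_lit 10) (.ch (nat_lit 7) (.ev
 (nat_lit 3104) (nat_lit 4096) (.ev (nat_lit 3117) (nat_lit 8192) .dd))) (.br (nat_lit 12) (.ch (nat_lit 10)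
 (.ev (nat_lit 3696) (nat_lit 12288) .dd)) (.ch (nat_lit 12) (.ev (nat_lit 3104) (nat_lit 8192) (.ev (nat_lit
 3117) (nat_lit 4096) .dd)))))))) (.ch (nat_lit 2) (.ev (nat_lit 1056) (nat_lit 4096) (.ev (nat_lit 3828)
 (nat_lit 64) (.ev (nat_lit 3837) (nat_lit 8192) .dd))))) (.br (nat_lit 6) (.ch (nat_lit 4) (.ev (nat_lit 1056)
 (nat_lit 4096) (.ev (nat_lit 1348) (nat_lit 64) (.ev (nat_lit 1357) (nat_lit 8192) .dd)))) (.ch (nat_lit 6)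
 (.ev (nat_lit 1056) (nat_lit 4096) (.ev (nat_lit 1332) (nat_lit 64) (.ev (nat_lit 1341) (nat_lit 8192)
 .dd)))))) (.br (nat_lit 10) (.br (nat_lit 8) (.ch (nat_lit 7) (.ev (nat_lit 1056) (nat_lit 8192) (.ev (nat_lit
 4692) (nat_lit 64) (.ev (nat_lit 4701) (nat_lit 4096) .dd)))) (.ch (nat_lit 8) (.ev (nat_lit 1056) (nat_lit
 8192) (.ev (nat_lit 1696) (nat_lit 4160) .dd)))) (.br (nat_lit 11) (.ch (nat_lit 10) (.ev (nat_lit 1056)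
 (nat_lit 12288) (.ev (nat_lit 1069) (nat_lit 64) .dd))) (.br (nat_lit 12) (.ch (nat_lit 11) (.ev (nat_lit
 1056) (nat_lit 64) (.nd (nat_lit 3088) (.br (nat_lit 5) (.ch (nat_lit 3) (.ev (nat_lit 3776) (nat_lit 4096)
 (.ev (nat_lit 3789) (nat_lit 8192) .dd))) (.br (nat_lit 8) (.ch (nat_lit 5) (.ev (nat_lit 3104) (nat_lit 4096)
 (.ev (nat_lit 3117) (nat_lit 8192) .dd))) (.ch (nat_lit 8) (.ev (nat_lit 3104) (nat_lit 8192) (.ev (nat_lit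
 3117) (nat_lit 4096) .dd)))))))) (.ch (nat_lit 12) (.ev (nat_lit 1056) (nat_lit 8256) (.ev (nat_lit 1069)
 (nat_lit 4096) .dd)))))))))) (.ch (nat_lit 4) (.ev (nat_lit 512) (nat_lit 8256) (.ev (nat_lit 532) (nat_lit 8)
 (.nd (nat_lit 1440) (.br (nat_lit 4) (.br (nat_lit 2) (.br (nat_lit 1) (.ch (nat_lit 0) (.ev (nat_lit 1456)
 (nat_lit 4096) (.ev (nat_lit 1469) (nat_lit 16384) .dd))) (.ch (nat_lit 1) (.ev (nat_lit 1476) (nat_lit 16384)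
 (.ev (nat_lit 1485) (nat_lit 4096) .dd)))) (.br (nat_lit 3) (.ch (nat_lit 2) (.ev (nat_lit 1476) (nat_lit
 4096) (.ev (nat_lit 1485) (nat_lit 16384) .dd))) (.ch (nat_lit 3) (.ev (nat_lit 1456) (nat_lit 20480) .dd))))
 (.br (nat_lit 6) (.br (nat_lit 5) (.ch (nat_lit 4) (.ev (nat_lit 1456) (nat_lit 16384) (.ev (nat_lit 1469)
 (nat_lit 4096) .dd))) (.ch (nat_lit 5) (.ev (nat_lit 1456) (nat_lit 20480) .dd))) (.br (nat_lit 9) (.ch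
 (nat_lit 6) (.ev (nat_lit 1492) (nat_lit 4096) (.ev (nat_lit 1501) (nat_lit 16384) .dd))) (.br (nat_lit 11)
 (.ch (nat_lit 9) (.ev (nat_lit 1456) (nat_lit 20480) .dd)) (.ch (nat_lit 11) (.fin (nat_lit
 576461302059713086))))))))))))) (.br (nat_lit 8) (.br (nat_lit 7) (.ch (nat_lit 5) (.ev (nat_lit 512) (nat_lit
 20544) (.nd (nat_lit 1296) (.br (nat_lit 7) (.br (nat_lit 4) (.ch (nat_lit 2) (.nd (nat_lit 4432) (.br
 (nat_lit 11) (.ch (nat_lit 1) (.ev (nat_lit 4468) (nat_lit 8192) (.ev (nat_lit 4477) (nat_lit 8) .dd))) (.br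
 (nat_lit 12) (.ch (nat_lit 11) (.ev (nat_lit 4448) (nat_lit 8192) (.ev (nat_lit 4461) (nat_lit 8) .dd))) (.ch
 (nat_lit 12) (.ev (nat_lit 4692) (nat_lit 8) (.ev (nat_lit 4701) (nat_lit 8192) .dd))))))) (.br (nat_lit 5)
 (.ch (nat_lit 4) (.ev (nat_lit 1332) (nat_lit 8192) (.ev (nat_lit 1341) (nat_lit 8) .dd))) (.ch (nat_lit 5)
 (.ev (nat_lit 1332) (nat_lit 8) (.ev (nat_lit 1341) (nat_lit 8192) .dd))))) (.br (nat_lit 9) (.ch (nat_lit 7)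
 (.ev (nat_lit 1312) (nat_lit 8192) (.ev (nat_lit 1325) (nat_lit 8) .dd))) (.br (nat_lit 12) (.ch (nat_lit 9)
 (.ev (nat_lit 1312) (nat_lit 8) (.ev (nat_lit 1325) (nat_lit 8192) .dd))) (.ch (nat_lit 12) (.ev (nat_lit
 1312) (nat_lit 8192) (.ev (nat_lit 1325) (nat_lit 8) .dd))))))))) (.ch (nat_lit 7) (.ev (nat_lit 512) (nat_lit
 8256) (.nd (nat_lit 1296) (.br (nat_lit 8) (.br (nat_lit 2) (.ch (nat_lit 1) (.ev (nat_lit 1312) (nat_lit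
 16384) (.nd (nat_lit 3088) (.br (nat_lit 10) (.br (nat_lit 9) (.ch (nat_lit 4) (.ev (nat_lit 3104) (nat_lit
 4104) .dd)) (.ch (nat_lit 9) (.ev (nat_lit 4004) (nat_lit 4096) (.ev (nat_lit 4013) (nat_lit 8) .dd)))) (.br
 (nat_lit 11) (.ch (nat_lit 10) (.ev (nat_lit 3104) (nat_lit 8) (.ev (nat_lit 3117) (nat_lit 4096) .dd))) (.br
 (nat_lit 12) (.ch (nat_lit 11) (.ev (nat_lit 4228) (nat_lit 8) (.ev (nat_lit 4237) (nat_lit 4096) .dd))) (.ch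
 (nat_lit 12) (.fin (nat_lit 575968719602662762))))))))) (.br (nat_lit 4) (.ch (nat_lit 2) (.ev (nat_lit 1312)
 (nat_lit 16392) (.ev (nat_lit 1325) (nat_lit 4096) .dd))) (.ch (nat_lit 4) (.nd (nat_lit 4432) (.br (nat_lit
 6) (.br (nat_lit 5) (.ch (nat_lit 4) (.ev (nat_lit 4448) (nat_lit 16384) (.nd (nat_lit 6880) (.br (nat_lit 10)
 (.ch (nat_lit 0) (.fin (nat_lit 576522874781123125))) (.ch (nat_lit 10) (.ev (nat_lit 6896) (nat_lit 8) (.ev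
 (nat_lit 6909) (nat_lit 4096) .dd))))))) (.ch (nat_lit 5) (.ev (nat_lit 4448) (nat_lit 4096) (.fin (nat_lit
 576500884654474022))))) (.br (nat_lit 12) (.ch (nat_lit 6) (.ev (nat_lit 4448) (nat_lit 16384) (.ev (nat_lit
 4468) (nat_lit 4096) (.ev (nat_lit 4477) (nat_lit 8) .dd)))) (.ch (nat_lit 12) (.ev (nat_lit 4448) (nat_lit
 4104) (.ev (nat_lit 4461) (nat_lit 16384) .dd))))))))) (.br (nat_lit 11) (.br (nat_lit 9) (.ch (nat_lit 8)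
 (.ev (nat_lit 1312) (nat_lit 8) (.ev (nat_lit 1716) (nat_lit 16384) (.ev (nat_lit 1725) (nat_lit 4096) .dd))))
 (.ch (nat_lit 9) (.ev (nat_lit 1332) (nat_lit 20480) (.ev (nat_lit 1341) (nat_lit 8) .dd)))) (.br (nat_lit 12)
 (.ch (nat_lit 11) (.ev (nat_lit 1312) (nat_lit 4096) (.ev (nat_lit 4724) (nat_lit 16384) (.ev (nat_lit 4733)
 (nat_lit 8) .dd)))) (.ch (nat_lit 12) (.ev (nat_lit 1312) (nat_lit 4096) (.ev (nat_lit 3680) (nat_lit 16384)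
 (.ev (nat_lit 3693) (nat_lit 8) .dd))))))))))) (.br (nat_lit 10) (.ch (nat_lit 8) (.ev (nat_lit 512) (nat_lit
 4096) (.nd (nat_lit 1040) (.br (nat_lit 8) (.br (nat_lit 4) (.ch (nat_lit 2) (.ev (nat_lit 1056) (nat_lit
 8192) (.nd (nat_lit 2784) (.br (nat_lit 5) (.br (nat_lit 4) (.ch (nat_lit 0) (.ev (nat_lit 2820) (nat_lit 64)
 (.ev (nat_lit 3764) (nat_lit 8) (.ev (nat_lit 3773) (nat_lit 16384) .dd)))) (.ch (nat_lit 4) (.ev (nat_lit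
 2800) (nat_lit 8) (.ev (nat_lit 2820) (nat_lit 64) (.ev (nat_lit 2829) (nat_lit 16384) .dd))))) (.br (nat_lit
 6) (.ch (nat_lit 5) (.ev (nat_lit 2800) (nat_lit 16384) (.fin (nat_lit 576997862895208546)))) (.ch (nat_lit 6)
 (.ev (nat_lit 3124) (nat_lit 8) (.nd (nat_lit 6784) (.br (nat_lit 9) (.ch (nat_lit 7) (.ev (nat_lit 6820)
 (nat_lit 64) (.ev (nat_lit 6829) (nat_lit 16384) .dd))) (.br (nat_lit 11) (.ch (nat_lit 9) (.ev (nat_lit 6800)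
 (nat_lit 64) (.ev (nat_lit 6813) (nat_lit 16384) .dd))) (.ch (nat_lit 11) (.fin (nat_lit
 576364545043808779))))))))))))) (.br (nat_lit 7) (.ch (nat_lit 4) (.ev (nat_lit 1056) (nat_lit 16392) (.ev
 (nat_lit 1348) (nat_lit 8192) (.ev (nat_lit 1357) (nat_lit 64) .dd)))) (.ch (nat_lit 7) (.ev (nat_lit 1056)
 (nat_lit 16448) (.nd (nat_lit 3088) (.br (nat_lit 11) (.ch (nat_lit 7) (.ev (nat_lit 3764) (nat_lit 8192) (.ev
 (nat_lit 3773) (nat_lit 8) .dd))) (.ch (nat_lit 11) (.ev (nat_lit 3668) (nat_lit 8192) (.ev (nat_lit 3677)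
 (nat_lit 8) .dd))))))))) (.br (nat_lit 10) (.br (nat_lit 9) (.ch (nat_lit 8) (.ev (nat_lit 1056) (nat_lit
 8192) (.nd (nat_lit 2544) (.br (nat_lit 6) (.br (nat_lit 3) (.ch (nat_lit 1) (.ev (nat_lit 2560) (nat_lit 8)
 (.nd (nat_lit 6080) (.br (nat_lit 12) (.ch (nat_lit 6) (.ev (nat_lit 6340) (nat_lit 64) (.ev (nat_lit 6349)
 (nat_lit 16384) .dd))) (.ch (nat_lit 12) (.fin (nat_lit 576451406439334458))))))) (.ch (nat_lit 3) (.ev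
 (nat_lit 3332) (nat_lit 16384) (.fin (nat_lit 576382137218318434))))) (.br (nat_lit 12) (.ch (nat_lit 6) (.ev
 (nat_lit 2560) (nat_lit 64) (.ev (nat_lit 2736) (nat_lit 16392) .dd))) (.ch (nat_lit 12) (.ev (nat_lit 2948)
 (nat_lit 16384) (.ev (nat_lit 4340) (nat_lit 64) (.ev (nat_lit 4349) (nat_lit 8) .dd))))))))) (.ch (nat_lit 9)
 (.ev (nat_lit 1056) (nat_lit 16448) (.nd (nat_lit 2992) (.br (nat_lit 4) (.ch (nat_lit 1) (.ev (nat_lit 4276)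
 (nat_lit 8192) (.ev (nat_lit 4285) (nat_lit 8) .dd))) (.br (nat_lit 12) (.ch (nat_lit 4) (.ev (nat_lit 4276)
 (nat_lit 8192) (.ev (nat_lit 4285) (nat_lit 8) .dd))) (.ch (nat_lit 12) (.ev (nat_lit 3028) (nat_lit 8) (.ev
 (nat_lit 3037) (nat_lit 8192) .dd))))))))) (.br (nat_lit 11) (.ch (nat_lit 10) (.ev (nat_lit 1076) (nat_lit
 64) (.nd (nat_lit 2992) (.br (nat_lit 9) (.br (nat_lit 5) (.ch (nat_lit 4) (.ev (nat_lit 3008) (nat_lit 16384)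
 (.ev (nat_lit 4740) (nat_lit 8192) (.ev (nat_lit 4749) (nat_lit 8) .dd)))) (.ch (nat_lit 5) (.ev (nat_lit
 3028) (nat_lit 8) (.ev (nat_lit 3204) (nat_lit 16384) (.ev (nat_lit 3213) (nat_lit 8192) .dd))))) (.br
 (nat_lit 10) (.ch (nat_lit 9) (.ev (nat_lit 3008) (nat_lit 16384) (.ev (nat_lit 3764) (nat_lit 8) (.ev
 (nat_lit 3773) (nat_lit 8192) .dd)))) (.ch (nat_lit 10) (.ev (nat_lit 3008) (nat_lit 8192) (.ev (nat_lit 3204)
 (nat_lit 16384) (.ev (nat_lit 3213) (nat_lit 8) .dd))))))))) (.ch (nat_lit 11) (.nd (nat_lit 2992) (.br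
 (nat_lit 5) (.br (nat_lit 1) (.ch (nat_lit 0) (.ev (nat_lit 3008) (nat_lit 8200) (.fin (nat_lit
 576302972349662106)))) (.br (nat_lit 4) (.ch (nat_lit 1) (.ev (nat_lit 3008) (nat_lit 8192) (.ev (nat_lit
 4276) (nat_lit 16384) (.nd (nat_lit 6544) (.br (nat_lit 8) (.ch (nat_lit 1) (.fin (nat_lit
 576459103043797567))) (.br (nat_lit 9) (.ch (nat_lit 8) (.ev (nat_lit 6580) (nat_lit 8) (.ev (nat_lit 6589)
 (nat_lit 64) .dd))) (.ch (nat_lit 9) (.ev (nat_lit 6580) (nat_lit 8) (.ev (nat_lit 6589) (nat_lit 64)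
 .dd))))))))) (.ch (nat_lit 4) (.ev (nat_lit 3008) (nat_lit 8) (.ev (nat_lit 3808) (nat_lit 8192) (.ev (nat_lit
 3828) (nat_lit 64) (.ev (nat_lit 3837) (nat_lit 16384) .dd))))))) (.br (nat_lit 11) (.br (nat_lit 9) (.ch
 (nat_lit 5) (.ev (nat_lit 3008) (nat_lit 16392) (.ev (nat_lit 3204) (nat_lit 8192) (.ev (nat_lit 3213)
 (nat_lit 64) .dd)))) (.ch (nat_lit 9) (.ev (nat_lit 3008) (nat_lit 16384) (.ev (nat_lit 4324) (nat_lit 64)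
 (.nd (nat_lit 6192) (.br (nat_lit 5) (.ch (nat_lit 4) (.fin (nat_lit 576830738088281026))) (.ch (nat_lit 5)
 (.ev (nat_lit 6228) (nat_lit 8) (.ev (nat_lit 6237) (nat_lit 8192) .dd))))))))) (.br (nat_lit 12) (.ch
 (nat_lit 11) (.ev (nat_lit 3008) (nat_lit 8200) (.fin (nat_lit 577235357501177530)))) (.ch (nat_lit 12) (.ev
 (nat_lit 3008) (nat_lit 16448) (.nd (nat_lit 6192) (.br (nat_lit 12) (.ch (nat_lit 5) (.ev (nat_lit 6228)
 (nat_lit 8) (.ev (nat_lit 6237) (nat_lit 8192) .dd))) (.ch (nat_lit 12) (.fin (nat_lit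
 575053927671086386)))))))))))))))))) (.br (nat_lit 12) (.ch (nat_lit 10) (.ev (nat_lit 512) (nat_lit 8200)
 (.nd (nat_lit 1216) (.br (nat_lit 9) (.br (nat_lit 2) (.ch (nat_lit 0) (.ev (nat_lit 3332) (nat_lit 64) (.ev
 (nat_lit 4708) (nat_lit 16384) (.ev (nat_lit 4717) (nat_lit 4096) .dd)))) (.br (nat_lit 7) (.ch (nat_lit 2)
 (.ev (nat_lit 3716) (nat_lit 4096) (.ev (nat_lit 3828) (nat_lit 16384) (.ev (nat_lit 3837) (nat_lit 64)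
 .dd)))) (.ch (nat_lit 7) (.ev (nat_lit 1232) (nat_lit 64) (.ev (nat_lit 1696) (nat_lit 16384) (.ev (nat_lit
 1709) (nat_lit 4096) .dd)))))) (.br (nat_lit 11) (.br (nat_lit 10) (.ch (nat_lit 9) (.ev (nat_lit 1232)
 (nat_lit 64) (.ev (nat_lit 1252) (nat_lit 16384) (.ev (nat_lit 1261) (nat_lit 4096) .dd)))) (.ch (nat_lit 10)
 (.ev (nat_lit 1232) (nat_lit 4096) (.nd (nat_lit 3632) (.br (nat_lit 5) (.ch (nat_lit 4) (.ev (nat_lit 3716)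
 (nat_lit 16384) (.ev (nat_lit 3725) (nat_lit 64) .dd))) (.ch (nat_lit 5) (.ev (nat_lit 3668) (nat_lit 64) (.ev
 (nat_lit 3677) (nat_lit 16384) .dd)))))))) (.br (nat_lit 12) (.ch (nat_lit 11) (.ev (nat_lit 1232) (nat_lit
 20480) (.ev (nat_lit 1245) (nat_lit 64) .dd))) (.ch (nat_lit 12) (.ev (nat_lit 1232) (nat_lit 16384) (.nd
 (nat_lit 5152) (.br (nat_lit 10) (.ch (nat_lit 9) (.fin (nat_lit 576395331496264458))) (.ch (nat_lit 10) (.ev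
 (nat_lit 5188) (nat_lit 64) (.ev (nat_lit 5197) (nat_lit 4096) .dd))))))))))))) (.ch (nat_lit 12) (.ev
 (nat_lit 512) (nat_lit 8192) (.nd (nat_lit 1216) (.br (nat_lit 5) (.br (nat_lit 2) (.ch (nat_lit 0) (.ev
 (nat_lit 1232) (nat_lit 64) (.ev (nat_lit 1252) (nat_lit 8) (.nd (nat_lit 3088) (.br (nat_lit 10) (.ch
 (nat_lit 6) (.ev (nat_lit 3104) (nat_lit 16384) (.ev (nat_lit 3117) (nat_lit 4096) .dd))) (.br (nat_lit 11)
 (.ch (nat_lit 10) (.nd (nat_lit 6880) (.br (nat_lit 7) (.ch (nat_lit 3) (.ev (nat_lit 6896) (nat_lit 16384)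
 (.ev (nat_lit 6909) (nat_lit 4096) .dd))) (.br (nat_lit 12) (.ch (nat_lit 7) (.fin (nat_lit
 576498685368025717))) (.ch (nat_lit 12) (.ev (nat_lit 6916) (nat_lit 4096) (.ev (nat_lit 6925) (nat_lit 16384)
 .dd))))))) (.ch (nat_lit 11) (.ev (nat_lit 3828) (nat_lit 4096) (.ev (nat_lit 3837) (nat_lit 16384)
 .dd))))))))) (.br (nat_lit 3) (.ch (nat_lit 2) (.ev (nat_lit 1232) (nat_lit 4104) (.ev (nat_lit 1732) (nat_lit
 16384) (.ev (nat_lit 1741) (nat_lit 64) .dd)))) (.ch (nat_lit 3) (.ev (nat_lit 1232) (nat_lit 16392) (.nd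
 (nat_lit 3088) (.br (nat_lit 10) (.ch (nat_lit 7) (.ev (nat_lit 3172) (nat_lit 64) (.ev (nat_lit 3181)
 (nat_lit 4096) .dd))) (.ch (nat_lit 10) (.ev (nat_lit 3172) (nat_lit 64) (.ev (nat_lit 3181) (nat_lit 4096)
 .dd))))))))) (.br (nat_lit 9) (.br (nat_lit 6) (.ch (nat_lit 5) (.ev (nat_lit 1232) (nat_lit 64) (.nd (nat_lit
 2992) (.br (nat_lit 5) (.br (nat_lit 1) (.ch (nat_lit 0) (.ev (nat_lit 3124) (nat_lit 16384) (.ev (nat_lit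
 3840) (nat_lit 8) (.ev (nat_lit 3853) (nat_lit 4096) .dd)))) (.ch (nat_lit 1) (.ev (nat_lit 3008) (nat_lit 8)
 (.fin (nat_lit 576162234907442026))))) (.br (nat_lit 6) (.ch (nat_lit 5) (.ev (nat_lit 3008) (nat_lit 16384)
 (.fin (nat_lit 576725184982500362)))) (.br (nat_lit 7) (.ch (nat_lit 6) (.ev (nat_lit 3008) (nat_lit 4096)
 (.ev (nat_lit 3988) (nat_lit 8) (.ev (nat_lit 3997) (nat_lit 16384) .dd)))) (.ch (nat_lit 7) (.ev (nat_lit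
 3028) (nat_lit 8) (.ev (nat_lit 4256) (nat_lit 4096) (.ev (nat_lit 4269) (nat_lit 16384) .dd)))))))))) (.ch
 (nat_lit 6) (.ev (nat_lit 1232) (nat_lit 20480) (.ev (nat_lit 4356) (nat_lit 64) (.ev (nat_lit 4365) (nat_lit
 8) .dd))))) (.br (nat_lit 12) (.ch (nat_lit 9) (.ev (nat_lit 1232) (nat_lit 4104) (.ev (nat_lit 1252) (nat_lit
 64) (.ev (nat_lit 1261) (nat_lit 16384) .dd)))) (.ch (nat_lit 12) (.ev (nat_lit 1332) (nat_lit 16384) (.nd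
 (nat_lit 2784) (.br (nat_lit 8) (.br (nat_lit 4) (.ch (nat_lit 0) (.ev (nat_lit 2800) (nat_lit 8) (.ev
 (nat_lit 2932) (nat_lit 64) (.ev (nat_lit 2941) (nat_lit 4096) .dd)))) (.ch (nat_lit 4) (.ev (nat_lit 2800)
 (nat_lit 64) (.nd (nat_lit 6352) (.br (nat_lit 7) (.ch (nat_lit 6) (.fin (nat_lit 576444809392636479))) (.ch
 (nat_lit 7) (.ev (nat_lit 6388) (nat_lit 4096) (.ev (nat_lit 6397) (nat_lit 8) .dd)))))))) (.br (nat_lit 12)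
 (.ch (nat_lit 8) (.ev (nat_lit 2800) (nat_lit 64) (.ev (nat_lit 3316) (nat_lit 8) (.ev (nat_lit 3325) (nat_lit
 4096) .dd)))) (.ch (nat_lit 12) (.ev (nat_lit 2800) (nat_lit 4096) (.fin (nat_lit
 576217210892533681)))))))))))))))))))))) (.ch (nat_lit 8) (.ev (nat_lit 48) (nat_lit 22528) (.nd (nat_lit 144)
 (.br (nat_lit 6) (.br (nat_lit 2) (.br (nat_lit 1) (.ch (nat_lit 0) (.ev (nat_lit 160) (nat_lit 8264) (.ev
 (nat_lit 173) (nat_lit 1024) .dd))) (.ch (nat_lit 1) (.ev (nat_lit 160) (nat_lit 9280) (.ev (nat_lit 173)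
 (nat_lit 8) .dd)))) (.br (nat_lit 5) (.ch (nat_lit 2) (.ev (nat_lit 160) (nat_lit 1024) (.nd (nat_lit 784)
 (.br (nat_lit 6) (.br (nat_lit 2) (.ch (nat_lit 0) (.ev (nat_lit 884) (nat_lit 8192) (.nd (nat_lit 2288) (.br
 (nat_lit 9) (.br (nat_lit 8) (.ch (nat_lit 1) (.ev (nat_lit 3236) (nat_lit 8) (.ev (nat_lit 3245) (nat_lit 64)
 .dd))) (.ch (nat_lit 8) (.ev (nat_lit 2304) (nat_lit 72) .dd))) (.br (nat_lit 10) (.ch (nat_lit 9) (.ev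
 (nat_lit 3428) (nat_lit 64) (.ev (nat_lit 3437) (nat_lit 8) .dd))) (.br (nat_lit 12) (.ch (nat_lit 10) (.ev
 (nat_lit 2304) (nat_lit 64) (.ev (nat_lit 2317) (nat_lit 8) .dd))) (.ch (nat_lit 12) (.ev (nat_lit 2304)
 (nat_lit 64) (.ev (nat_lit 2317) (nat_lit 8) .dd))))))))) (.br (nat_lit 3) (.ch (nat_lit 2) (.ev (nat_lit
 1508) (nat_lit 64) (.ev (nat_lit 4676) (nat_lit 8) (.ev (nat_lit 4685) (nat_lit 8192) .dd)))) (.ch (nat_lit 3)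
 (.ev (nat_lit 800) (nat_lit 8256) (.ev (nat_lit 813) (nat_lit 8) .dd))))) (.br (nat_lit 10) (.br (nat_lit 7)
 (.ch (nat_lit 6) (.ev (nat_lit 800) (nat_lit 64) (.ev (nat_lit 2084) (nat_lit 8) (.ev (nat_lit 2093) (nat_lit
 8192) .dd)))) (.ch (nat_lit 7) (.ev (nat_lit 800) (nat_lit 8) (.ev (nat_lit 884) (nat_lit 8192) (.ev (nat_lit
 893) (nat_lit 64) .dd))))) (.br (nat_lit 11) (.ch (nat_lit 10) (.ev (nat_lit 800) (nat_lit 8) (.ev (nat_lit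
 3332) (nat_lit 8192) (.ev (nat_lit 3341) (nat_lit 64) .dd)))) (.ch (nat_lit 11) (.ev (nat_lit 800) (nat_lit
 8192) (.nd (nat_lit 2240) (.br (nat_lit 3) (.ch (nat_lit 0) (.nd (nat_lit 6352) (.ch (nat_lit 2) (.fin
 (nat_lit 577039644805775995))))) (.br (nat_lit 7) (.ch (nat_lit 3) (.ev (nat_lit 2964) (nat_lit 64) (.ev
 (nat_lit 2973) (nat_lit 8) .dd))) (.ch (nat_lit 7) (.ev (nat_lit 2852) (nat_lit 64) (.ev (nat_lit 2861)
 (nat_lit 8) .dd)))))))))))))) (.ch (nat_lit 5) (.ev (nat_lit 160) (nat_lit 8192) (.nd (nat_lit 784) (.br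
 (nat_lit 7) (.br (nat_lit 5) (.br (nat_lit 2) (.ch (nat_lit 0) (.ev (nat_lit 800) (nat_lit 1024) (.nd (nat_lit
 2784) (.br (nat_lit 12) (.ch (nat_lit 1) (.ev (nat_lit 2932) (nat_lit 8) (.ev (nat_lit 2941) (nat_lit 64)
 .dd))) (.ch (nat_lit 12) (.fin (nat_lit 575924741226317434))))))) (.ch (nat_lit 2) (.ev (nat_lit 820) (nat_lit
 8) (.nd (nat_lit 2992) (.br (nat_lit 7) (.br (nat_lit 1) (.ch (nat_lit 0) (.fin (nat_lit 576522874723451426)))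
 (.br (nat_lit 4) (.ch (nat_lit 1) (.ev (nat_lit 3008) (nat_lit 1088) .dd)) (.ch (nat_lit 4) (.ev (nat_lit
 3008) (nat_lit 64) (.ev (nat_lit 3021) (nat_lit 1024) .dd))))) (.br (nat_lit 8) (.ch (nat_lit 7) (.ev (nat_lit
 3008) (nat_lit 1024) (.ev (nat_lit 3021) (nat_lit 64) .dd))) (.br (nat_lit 10) (.ch (nat_lit 8) (.ev (nat_lit
 3124) (nat_lit 64) (.ev (nat_lit 3133) (nat_lit 1024) .dd))) (.ch (nat_lit 10) (.ev (nat_lit 3008) (nat_lit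
 1024) (.ev (nat_lit 3021) (nat_lit 64) .dd)))))))))) (.br (nat_lit 6) (.ch (nat_lit 5) (.ev (nat_lit 800)
 (nat_lit 1032) (.ev (nat_lit 813) (nat_lit 64) .dd))) (.ch (nat_lit 6) (.nd (nat_lit 2544) (.br (nat_lit 10)
 (.br (nat_lit 6) (.ch (nat_lit 2) (.ev (nat_lit 2560) (nat_lit 1024) (.ev (nat_lit 4340) (nat_lit 8) (.ev
 (nat_lit 4349) (nat_lit 64) .dd)))) (.br (nat_lit 7) (.ch (nat_lit 6) (.ev (nat_lit 2820) (nat_lit 8) (.nd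
 (nat_lit 6448) (.br (nat_lit 6) (.ch (nat_lit 1) (.ev (nat_lit 6464) (nat_lit 1024) (.ev (nat_lit 6477)
 (nat_lit 64) .dd))) (.br (nat_lit 10) (.ch (nat_lit 6) (.fin (nat_lit 576529471938969787))) (.ch (nat_lit 10)
 (.ev (nat_lit 6464) (nat_lit 1024) (.ev (nat_lit 6477) (nat_lit 64) .dd)))))))) (.ch (nat_lit 7) (.ev (nat_lit
 2560) (nat_lit 64) (.nd (nat_lit 6512) (.br (nat_lit 1) (.ch (nat_lit 0) (.fin (nat_lit 576462401578680895)))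
 (.ch (nat_lit 1) (.ev (nat_lit 6528) (nat_lit 8) (.ev (nat_lit 6541) (nat_lit 1024) .dd))))))))) (.br (nat_lit
 11) (.ch (nat_lit 10) (.ev (nat_lit 2560) (nat_lit 8) (.ev (nat_lit 2580) (nat_lit 1024) (.ev (nat_lit 2589)
 (nat_lit 64) .dd)))) (.br (nat_lit 12) (.ch (nat_lit 11) (.ev (nat_lit 2560) (nat_lit 1024) (.ev (nat_lit
 2948) (nat_lit 64) (.ev (nat_lit 2957) (nat_lit 8) .dd)))) (.ch (nat_lit 12) (.ev (nat_lit 2560) (nat_lit 8)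
 (.ev (nat_lit 4100) (nat_lit 1024) (.ev (nat_lit 4109) (nat_lit 64) .dd))))))))))) (.br (nat_lit 10) (.br
 (nat_lit 8) (.ch (nat_lit 7) (.ev (nat_lit 800) (nat_lit 64) (.ev (nat_lit 820) (nat_lit 8) (.ev (nat_lit 829)
 (nat_lit 1024) .dd)))) (.ch (nat_lit 8) (.ev (nat_lit 800) (nat_lit 8) (.ev (nat_lit 1572) (nat_lit 64) (.ev
 (nat_lit 1581) (nat_lit 1024) .dd))))) (.br (nat_lit 11) (.ch (nat_lit 10) (.ev (nat_lit 800) (nat_lit 1088)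
 (.ev (nat_lit 813) (nat_lit 8) .dd))) (.ch (nat_lit 11) (.ev (nat_lit 800) (nat_lit 72) (.ev (nat_lit 813)
 (nat_lit 1024) .dd))))))))))) (.br (nat_lit 9) (.br (nat_lit 8) (.ch (nat_lit 6) (.ev (nat_lit 160) (nat_lit
 72) (.nd (nat_lit 1632) (.br (nat_lit 8) (.br (nat_lit 4) (.br (nat_lit 3) (.ch (nat_lit 2) (.ev (nat_lit
 1648) (nat_lit 8192) (.ev (nat_lit 1661) (nat_lit 1024) .dd))) (.ch (nat_lit 3) (.ev (nat_lit 1648) (nat_lit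
 8192) (.ev (nat_lit 1661) (nat_lit 1024) .dd)))) (.br (nat_lit 5) (.ch (nat_lit 4) (.ev (nat_lit 3764)
 (nat_lit 1024) (.ev (nat_lit 3773) (nat_lit 8192) .dd))) (.ch (nat_lit 5) (.fin (nat_lit
 576456904015299138))))) (.br (nat_lit 10) (.br (nat_lit 9) (.ch (nat_lit 8) (.ev (nat_lit 1648) (nat_lit 1024)
 (.ev (nat_lit 1661) (nat_lit 8192) .dd))) (.ch (nat_lit 9) (.ev (nat_lit 1648) (nat_lit 9216) .dd))) (.br
 (nat_lit 12) (.ch (nat_lit 10) (.ev (nat_lit 1648) (nat_lit 1024) (.ev (nat_lit 1661) (nat_lit 8192) .dd)))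
 (.ch (nat_lit 12) (.ev (nat_lit 1648) (nat_lit 8192) (.ev (nat_lit 1661) (nat_lit 1024) .dd))))))))) (.ch
 (nat_lit 8) (.ev (nat_lit 160) (nat_lit 9280) (.ev (nat_lit 173) (nat_lit 8) .dd)))) (.br (nat_lit 11) (.ch
 (nat_lit 9) (.nd (nat_lit 672) (.br (nat_lit 6) (.br (nat_lit 1) (.ch (nat_lit 0) (.ev (nat_lit 688) (nat_lit
 1088) (.nd (nat_lit 2240) (.br (nat_lit 8) (.br (nat_lit 4) (.ch (nat_lit 2) (.ev (nat_lit 2324) (nat_lit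
 8192) (.ev (nat_lit 2333) (nat_lit 8) .dd))) (.ch (nat_lit 4) (.fin (nat_lit 576417321589359169)))) (.br
 (nat_lit 10) (.ch (nat_lit 8) (.ev (nat_lit 3412) (nat_lit 8) (.ev (nat_lit 3421) (nat_lit 8192) .dd))) (.ch
 (nat_lit 10) (.ev (nat_lit 2340) (nat_lit 8192) (.ev (nat_lit 2349) (nat_lit 8) .dd)))))))) (.br (nat_lit 3)
 (.ch (nat_lit 1) (.ev (nat_lit 688) (nat_lit 8200) (.ev (nat_lit 1076) (nat_lit 1024) (.ev (nat_lit 1085)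
 (nat_lit 64) .dd)))) (.ch (nat_lit 3) (.nd (nat_lit 2144) (.br (nat_lit 7) (.br (nat_lit 5) (.br (nat_lit 4)
 (.ch (nat_lit 1) (.ev (nat_lit 2160) (nat_lit 8200) (.ev (nat_lit 2324) (nat_lit 1024) (.ev (nat_lit 2333)
 (nat_lit 64) .dd)))) (.ch (nat_lit 4) (.ev (nat_lit 2160) (nat_lit 9216) (.ev (nat_lit 2324) (nat_lit 8) (.ev
 (nat_lit 2333) (nat_lit 64) .dd))))) (.br (nat_lit 6) (.ch (nat_lit 5) (.ev (nat_lit 2160) (nat_lit 8200)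
 (.fin (nat_lit 576464600588304959)))) (.ch (nat_lit 6) (.ev (nat_lit 2160) (nat_lit 64) (.ev (nat_lit 2276)
 (nat_lit 8192) (.ev (nat_lit 3172) (nat_lit 8) (.ev (nat_lit 3181) (nat_lit 1024) .dd))))))) (.br (nat_lit 10)
 (.br (nat_lit 8) (.ch (nat_lit 7) (.ev (nat_lit 2160) (nat_lit 72) (.ev (nat_lit 3060) (nat_lit 8192) (.ev
 (nat_lit 3069) (nat_lit 1024) .dd)))) (.ch (nat_lit 8) (.ev (nat_lit 2160) (nat_lit 1024) (.ev (nat_lit 2324)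
 (nat_lit 8) (.fin (nat_lit 576456903948190198)))))) (.br (nat_lit 12) (.ch (nat_lit 10) (.ev (nat_lit 2160)
 (nat_lit 72) (.ev (nat_lit 2276) (nat_lit 8192) (.ev (nat_lit 2285) (nat_lit 1024) .dd)))) (.ch (nat_lit 12)
 (.ev (nat_lit 2160) (nat_lit 9216) (.ev (nat_lit 2452) (nat_lit 64) (.ev (nat_lit 2461) (nat_lit 8)
 .dd))))))))))) (.br (nat_lit 7) (.ch (nat_lit 6) (.nd (nat_lit 2240) (.br (nat_lit 9) (.br (nat_lit 5) (.ch
 (nat_lit 3) (.ev (nat_lit 2256) (nat_lit 1088) (.ev (nat_lit 3988) (nat_lit 8) (.ev (nat_lit 3997) (nat_lit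
 8192) .dd)))) (.br (nat_lit 7) (.ch (nat_lit 5) (.ev (nat_lit 3124) (nat_lit 1024) (.ev (nat_lit 3876)
 (nat_lit 64) (.ev (nat_lit 4068) (nat_lit 8) (.ev (nat_lit 4077) (nat_lit 8192) .dd))))) (.ch (nat_lit 7) (.ev
 (nat_lit 2256) (nat_lit 1024) (.ev (nat_lit 2612) (nat_lit 64) (.ev (nat_lit 3828) (nat_lit 8) (.ev (nat_lit
 3837) (nat_lit 8192) .dd))))))) (.br (nat_lit 10) (.ch (nat_lit 9) (.ev (nat_lit 2256) (nat_lit 8200) (.ev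
 (nat_lit 3124) (nat_lit 1024) (.ev (nat_lit 3133) (nat_lit 64) .dd)))) (.br (nat_lit 11) (.ch (nat_lit 10)
 (.ev (nat_lit 2256) (nat_lit 72) (.fin (nat_lit 576056681592996277)))) (.ch (nat_lit 11) (.ev (nat_lit 2256)
 (nat_lit 1088) (.ev (nat_lit 2420) (nat_lit 8) (.ev (nat_lit 2429) (nat_lit 8192) .dd))))))))) (.br (nat_lit
 9) (.ch (nat_lit 7) (.ev (nat_lit 688) (nat_lit 9216) (.nd (nat_lit 2240) (.br (nat_lit 10) (.ch (nat_lit 0)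
 (.ev (nat_lit 2420) (nat_lit 8) (.ev (nat_lit 2429) (nat_lit 64) .dd))) (.br (nat_lit 12) (.ch (nat_lit 10)
 (.ev (nat_lit 3332) (nat_lit 8) (.ev (nat_lit 3341) (nat_lit 64) .dd))) (.ch (nat_lit 12) (.ev (nat_lit 4340)
 (nat_lit 8) (.ev (nat_lit 4349) (nat_lit 64) .dd)))))))) (.ch (nat_lit 9) (.ev (nat_lit 688) (nat_lit 9216)
 (.nd (nat_lit 2144) (.br (nat_lit 9) (.ch (nat_lit 2) (.fin (nat_lit 576531670550135069))) (.ch (nat_lit 9)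
 (.ev (nat_lit 5140) (nat_lit 8) (.ev (nat_lit 5149) (nat_lit 64) .dd)))))))))))) (.br (nat_lit 12) (.ch
 (nat_lit 11) (.ev (nat_lit 160) (nat_lit 8) (.nd (nat_lit 848) (.br (nat_lit 6) (.br (nat_lit 2) (.br (nat_lit
 1) (.ch (nat_lit 0) (.ev (nat_lit 864) (nat_lit 1024) (.nd (nat_lit 4432) (.br (nat_lit 9) (.br (nat_lit 8)
 (.ch (nat_lit 3) (.ev (nat_lit 4448) (nat_lit 64) (.ev (nat_lit 4461) (nat_lit 8192) .dd))) (.ch (nat_lit 8)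
 (.ev (nat_lit 4448) (nat_lit 8256) .dd))) (.br (nat_lit 12) (.ch (nat_lit 9) (.ev (nat_lit 4448) (nat_lit
 8256) .dd)) (.ch (nat_lit 12) (.ev (nat_lit 5540) (nat_lit 64) (.ev (nat_lit 5549) (nat_lit 8192) .dd))))))))
 (.ch (nat_lit 1) (.ev (nat_lit 864) (nat_lit 8256) (.ev (nat_lit 877) (nat_lit 1024) .dd)))) (.br (nat_lit 3)
 (.ch (nat_lit 2) (.ev (nat_lit 1076) (nat_lit 1024) (.ev (nat_lit 4276) (nat_lit 8192) (.ev (nat_lit 4285)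
 (nat_lit 64) .dd)))) (.ch (nat_lit 3) (.ev (nat_lit 864) (nat_lit 1024) (.ev (nat_lit 884) (nat_lit 8192) (.ev
 (nat_lit 893) (nat_lit 64) .dd)))))) (.br (nat_lit 8) (.br (nat_lit 7) (.ch (nat_lit 6) (.ev (nat_lit 864)
 (nat_lit 1088) (.ev (nat_lit 877) (nat_lit 8192) .dd))) (.ch (nat_lit 7) (.ev (nat_lit 864) (nat_lit 64) (.ev
 (nat_lit 3876) (nat_lit 1024) (.ev (nat_lit 3885) (nat_lit 8192) .dd))))) (.br (nat_lit 12) (.ch (nat_lit 8)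
 (.ev (nat_lit 864) (nat_lit 8192) (.ev (nat_lit 1172) (nat_lit 64) (.ev (nat_lit 1181) (nat_lit 1024) .dd))))
 (.ch (nat_lit 12) (.ev (nat_lit 4132) (nat_lit 1024) (.ev (nat_lit 4836) (nat_lit 64) (.ev (nat_lit 4845)
 (nat_lit 8192) .dd)))))))))) (.ch (nat_lit 12) (.ev (nat_lit 160) (nat_lit 1024) (.nd (nat_lit 1216) (.br
 (nat_lit 4) (.br (nat_lit 2) (.ch (nat_lit 1) (.ev (nat_lit 4980) (nat_lit 8192) (.nd (nat_lit 5328) (.br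
 (nat_lit 8) (.br (nat_lit 6) (.ch (nat_lit 4) (.ev (nat_lit 5344) (nat_lit 64) (.ev (nat_lit 5357) (nat_lit 8)
 .dd))) (.ch (nat_lit 6) (.fin (nat_lit 576439311784165959)))) (.br (nat_lit 10) (.ch (nat_lit 8) (.ev (nat_lit
 5364) (nat_lit 8) (.ev (nat_lit 5373) (nat_lit 64) .dd))) (.ch (nat_lit 10) (.ev (nat_lit 5364) (nat_lit 64)
 (.ev (nat_lit 5373) (nat_lit 8) .dd)))))))) (.br (nat_lit 3) (.ch (nat_lit 2) (.ev (nat_lit 1232) (nat_lit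
 8200) (.ev (nat_lit 1245) (nat_lit 64) .dd))) (.ch (nat_lit 3) (.ev (nat_lit 4804) (nat_lit 8) (.fin (nat_lit
 576606437493916082)))))) (.br (nat_lit 8) (.br (nat_lit 5) (.ch (nat_lit 4) (.ev (nat_lit 1232) (nat_lit 64)
 (.fin (nat_lit 576474496230703712)))) (.ch (nat_lit 5) (.ev (nat_lit 1476) (nat_lit 8) (.nd (nat_lit 4432)
 (.br (nat_lit 8) (.br (nat_lit 2) (.ch (nat_lit 1) (.ev (nat_lit 4788) (nat_lit 8192) (.ev (nat_lit 4797)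
 (nat_lit 64) .dd))) (.ch (nat_lit 2) (.nd (nat_lit 7168) (.br (nat_lit 2) (.ch (nat_lit 1) (.fin (nat_lit
 576399729340400125))) (.br (nat_lit 6) (.ch (nat_lit 2) (.ev (nat_lit 7204) (nat_lit 64) (.ev (nat_lit 7213)
 (nat_lit 8192) .dd))) (.ch (nat_lit 6) (.ev (nat_lit 7184) (nat_lit 8256) .dd))))))) (.br (nat_lit 9) (.ch
 (nat_lit 8) (.ev (nat_lit 4448) (nat_lit 8192) (.ev (nat_lit 4461) (nat_lit 64) .dd))) (.ch (nat_lit 9) (.ev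
 (nat_lit 4448) (nat_lit 64) (.ev (nat_lit 4461) (nat_lit 8192) .dd))))))))) (.br (nat_lit 10) (.ch (nat_lit 8)
 (.ev (nat_lit 1232) (nat_lit 8256) (.ev (nat_lit 1245) (nat_lit 8) .dd))) (.ch (nat_lit 10) (.ev (nat_lit
 1232) (nat_lit 8) (.ev (nat_lit 1364) (nat_lit 64) (.ev (nat_lit 1373) (nat_lit 8192) .dd))))))))))))))))))
 (.br (nat_lit 11) (.ch (nat_lit 9) (.ev (nat_lit 48) (nat_lit 9224) (.nd (nat_lit 304) (.br (nat_lit 8) (.br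
 (nat_lit 3) (.br (nat_lit 2) (.ch (nat_lit 1) (.ev (nat_lit 320) (nat_lit 20480) (.ev (nat_lit 340) (nat_lit
 64) (.ev (nat_lit 349) (nat_lit 2048) .dd)))) (.ch (nat_lit 2) (.ev (nat_lit 320) (nat_lit 4160) (.nd (nat_lit
 1632) (.br (nat_lit 5) (.ch (nat_lit 0) (.ev (nat_lit 1668) (nat_lit 2048) (.ev (nat_lit 1677) (nat_lit 16384)
 .dd))) (.ch (nat_lit 5) (.fin (nat_lit 576455804490039887)))))))) (.br (nat_lit 4) (.ch (nat_lit 3) (.ev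
 (nat_lit 320) (nat_lit 4160) (.nd (nat_lit 1296) (.br (nat_lit 6) (.br (nat_lit 4) (.ch (nat_lit 1) (.ev
 (nat_lit 1312) (nat_lit 16384) (.ev (nat_lit 1325) (nat_lit 2048) .dd))) (.br (nat_lit 5) (.ch (nat_lit 4)
 (.ev (nat_lit 3396) (nat_lit 2048) (.ev (nat_lit 3405) (nat_lit 16384) .dd))) (.ch (nat_lit 5) (.nd (nat_lit
 2896) (.br (nat_lit 4) (.br (nat_lit 2) (.ch (nat_lit 1) (.ev (nat_lit 2912) (nat_lit 16384) (.ev (nat_lit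
 2925) (nat_lit 2048) .dd))) (.ch (nat_lit 2) (.ev (nat_lit 2912) (nat_lit 2048) (.ev (nat_lit 2925) (nat_lit
 16384) .dd)))) (.br (nat_lit 6) (.ch (nat_lit 4) (.ev (nat_lit 2912) (nat_lit 16384) (.ev (nat_lit 2925)
 (nat_lit 2048) .dd))) (.br (nat_lit 10) (.ch (nat_lit 6) (.fin (nat_lit 576443709909320270))) (.ch (nat_lit
 10) (.ev (nat_lit 2932) (nat_lit 2048) (.ev (nat_lit 2941) (nat_lit 16384) .dd)))))))))) (.br (nat_lit 11)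
 (.br (nat_lit 9) (.ch (nat_lit 6) (.ev (nat_lit 1312) (nat_lit 2048) (.ev (nat_lit 1325) (nat_lit 16384)
 .dd))) (.ch (nat_lit 9) (.ev (nat_lit 1312) (nat_lit 16384) (.ev (nat_lit 1325) (nat_lit 2048) .dd)))) (.br
 (nat_lit 12) (.ch (nat_lit 11) (.ev (nat_lit 1332) (nat_lit 2048) (.ev (nat_lit 1341) (nat_lit 16384) .dd)))
 (.ch (nat_lit 12) (.ev (nat_lit 1312) (nat_lit 2048) (.ev (nat_lit 1325) (nat_lit 16384) .dd))))))))) (.ch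
 (nat_lit 4) (.ev (nat_lit 320) (nat_lit 16448) (.nd (nat_lit 1120) (.br (nat_lit 6) (.br (nat_lit 4) (.ch
 (nat_lit 3) (.nd (nat_lit 3088) (.br (nat_lit 5) (.br (nat_lit 2) (.ch (nat_lit 1) (.ev (nat_lit 3104)
 (nat_lit 2048) (.ev (nat_lit 3117) (nat_lit 4096) .dd))) (.br (nat_lit 3) (.ch (nat_lit 2) (.ev (nat_lit 3104)
 (nat_lit 4096) (.ev (nat_lit 3117) (nat_lit 2048) .dd))) (.ch (nat_lit 3) (.ev (nat_lit 3104) (nat_lit 2048)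
 (.ev (nat_lit 3117) (nat_lit 4096) .dd))))) (.br (nat_lit 6) (.ch (nat_lit 5) (.ev (nat_lit 3104) (nat_lit
 4096) (.ev (nat_lit 3117) (nat_lit 2048) .dd))) (.br (nat_lit 10) (.ch (nat_lit 6) (.ev (nat_lit 3764)
 (nat_lit 2048) (.ev (nat_lit 3773) (nat_lit 4096) .dd))) (.ch (nat_lit 10) (.ev (nat_lit 3104) (nat_lit 4096)
 (.ev (nat_lit 3117) (nat_lit 2048) .dd)))))))) (.br (nat_lit 5) (.ch (nat_lit 4) (.ev (nat_lit 1136) (nat_lit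
 4096) (.ev (nat_lit 1149) (nat_lit 2048) .dd))) (.ch (nat_lit 5) (.ev (nat_lit 1136) (nat_lit 4096) (.ev
 (nat_lit 1149) (nat_lit 2048) .dd))))) (.br (nat_lit 9) (.ch (nat_lit 6) (.ev (nat_lit 1136) (nat_lit 2048)
 (.ev (nat_lit 1149) (nat_lit 4096) .dd))) (.br (nat_lit 10) (.ch (nat_lit 9) (.ev (nat_lit 1136) (nat_lit
 4096) (.ev (nat_lit 1149) (nat_lit 2048) .dd))) (.ch (nat_lit 10) (.ev (nat_lit 3268) (nat_lit 2048) (.ev
 (nat_lit 3277) (nat_lit 4096) .dd))))))))))) (.br (nat_lit 10) (.br (nat_lit 9) (.ch (nat_lit 8) (.ev (nat_lit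
 320) (nat_lit 2048) (.nd (nat_lit 896) (.br (nat_lit 4) (.br (nat_lit 2) (.br (nat_lit 1) (.ch (nat_lit 0)
 (.ev (nat_lit 912) (nat_lit 4096) (.nd (nat_lit 2896) (.br (nat_lit 6) (.br (nat_lit 4) (.ch (nat_lit 2) (.ev
 (nat_lit 5604) (nat_lit 64) (.ev (nat_lit 5613) (nat_lit 16384) .dd))) (.br (nat_lit 5) (.ch (nat_lit 4) (.ev
 (nat_lit 4372) (nat_lit 16384) (.ev (nat_lit 4381) (nat_lit 64) .dd))) (.ch (nat_lit 5) (.ev (nat_lit 2912)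
 (nat_lit 64) (.ev (nat_lit 2925) (nat_lit 16384) .dd))))) (.br (nat_lit 10) (.br (nat_lit 9) (.ch (nat_lit 6)
 (.ev (nat_lit 2912) (nat_lit 64) (.ev (nat_lit 2925) (nat_lit 16384) .dd))) (.ch (nat_lit 9) (.ev (nat_lit
 2912) (nat_lit 16448) .dd))) (.br (nat_lit 12) (.ch (nat_lit 10) (.ev (nat_lit 2912) (nat_lit 16384) (.ev
 (nat_lit 2925) (nat_lit 64) .dd))) (.ch (nat_lit 12) (.ev (nat_lit 4084) (nat_lit 64) (.ev (nat_lit 4093)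
 (nat_lit 16384) .dd))))))))) (.ch (nat_lit 1) (.nd (nat_lit 2992) (.br (nat_lit 9) (.br (nat_lit 6) (.ch
 (nat_lit 4) (.ev (nat_lit 3008) (nat_lit 16384) (.ev (nat_lit 3236) (nat_lit 64) (.ev (nat_lit 3245) (nat_lit
 4096) .dd)))) (.ch (nat_lit 6) (.ev (nat_lit 3008) (nat_lit 16384) (.ev (nat_lit 3828) (nat_lit 4096) (.ev
 (nat_lit 3837) (nat_lit 64) .dd))))) (.br (nat_lit 12) (.ch (nat_lit 9) (.ev (nat_lit 3008) (nat_lit 4096)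
 (.ev (nat_lit 3184) (nat_lit 16448) .dd))) (.ch (nat_lit 12) (.ev (nat_lit 3716) (nat_lit 64) (.ev (nat_lit
 3876) (nat_lit 4096) (.ev (nat_lit 3885) (nat_lit 16384) .dd))))))))) (.br (nat_lit 3) (.ch (nat_lit 2) (.nd
 (nat_lit 2992) (.br (nat_lit 7) (.br (nat_lit 5) (.ch (nat_lit 0) (.ev (nat_lit 3172) (nat_lit 16384) (.ev
 (nat_lit 3716) (nat_lit 64) (.ev (nat_lit 3725) (nat_lit 4096) .dd)))) (.ch (nat_lit 5) (.ev (nat_lit 3172)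
 (nat_lit 16384) (.ev (nat_lit 3268) (nat_lit 4096) (.ev (nat_lit 3277) (nat_lit 64) .dd))))) (.br (nat_lit 10)
 (.ch (nat_lit 7) (.ev (nat_lit 3008) (nat_lit 16384) (.ev (nat_lit 3744) (nat_lit 4160) .dd))) (.ch (nat_lit
 10) (.ev (nat_lit 4240) (nat_lit 4096) (.fin (nat_lit 576478894266729114)))))))) (.ch (nat_lit 3) (.ev
 (nat_lit 1620) (nat_lit 64) (.nd (nat_lit 3632) (.br (nat_lit 2) (.br (nat_lit 1) (.ch (nat_lit 0) (.fin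
 (nat_lit 576461300644134554))) (.ch (nat_lit 1) (.ev (nat_lit 3648) (nat_lit 20480) .dd))) (.br (nat_lit 12)
 (.ch (nat_lit 2) (.ev (nat_lit 3668) (nat_lit 16384) (.ev (nat_lit 3677) (nat_lit 4096) .dd))) (.ch (nat_lit
 12) (.ev (nat_lit 3648) (nat_lit 4096) (.ev (nat_lit 3661) (nat_lit 16384) .dd)))))))))) (.br (nat_lit 11)
 (.br (nat_lit 6) (.ch (nat_lit 4) (.ev (nat_lit 912) (nat_lit 16448) (.ev (nat_lit 925) (nat_lit 4096) .dd)))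
 (.ch (nat_lit 6) (.ev (nat_lit 912) (nat_lit 20544) .dd))) (.br (nat_lit 12) (.ch (nat_lit 11) (.ev (nat_lit
 912) (nat_lit 16384) (.nd (nat_lit 2992) (.br (nat_lit 6) (.br (nat_lit 5) (.ch (nat_lit 1) (.ev (nat_lit
 3008) (nat_lit 4160) .dd)) (.ch (nat_lit 5) (.ev (nat_lit 4372) (nat_lit 4096) (.ev (nat_lit 4381) (nat_lit
 64) .dd)))) (.br (nat_lit 10) (.ch (nat_lit 6) (.fin (nat_lit 576232603941028570))) (.ch (nat_lit 10) (.ev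
 (nat_lit 3008) (nat_lit 4096) (.ev (nat_lit 3021) (nat_lit 64) .dd)))))))) (.ch (nat_lit 12) (.ev (nat_lit
 912) (nat_lit 4160) (.ev (nat_lit 925) (nat_lit 16384) .dd))))))))) (.ch (nat_lit 9) (.nd (nat_lit 848) (.br
 (nat_lit 8) (.br (nat_lit 3) (.br (nat_lit 2) (.ch (nat_lit 0) (.ev (nat_lit 864) (nat_lit 64) (.ev (nat_lit
 1988) (nat_lit 16384) (.ev (nat_lit 4608) (nat_lit 6144) .dd)))) (.ch (nat_lit 2) (.ev (nat_lit 864) (nat_lit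
 2112) (.nd (nat_lit 2544) (.br (nat_lit 4) (.br (nat_lit 1) (.ch (nat_lit 0) (.ev (nat_lit 2692) (nat_lit
 16384) (.ev (nat_lit 2701) (nat_lit 4096) .dd))) (.ch (nat_lit 1) (.ev (nat_lit 2692) (nat_lit 16384) (.ev
 (nat_lit 2701) (nat_lit 4096) .dd)))) (.br (nat_lit 8) (.ch (nat_lit 4) (.ev (nat_lit 2692) (nat_lit 16384)
 (.ev (nat_lit 2701) (nat_lit 4096) .dd))) (.br (nat_lit 11) (.ch (nat_lit 8) (.ev (nat_lit 2692) (nat_lit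
 16384) (.ev (nat_lit 2701) (nat_lit 4096) .dd))) (.ch (nat_lit 11) (.ev (nat_lit 2560) (nat_lit 16384) (.ev
 (nat_lit 2573) (nat_lit 4096) .dd)))))))))) (.br (nat_lit 6) (.ch (nat_lit 3) (.ev (nat_lit 1492) (nat_lit
 2048) (.nd (nat_lit 2544) (.br (nat_lit 7) (.br (nat_lit 1) (.ch (nat_lit 0) (.ev (nat_lit 2560) (nat_lit
 20480) (.ev (nat_lit 2573) (nat_lit 64) .dd))) (.br (nat_lit 6) (.ch (nat_lit 1) (.ev (nat_lit 2560) (nat_lit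
 16448) (.ev (nat_lit 2573) (nat_lit 4096) .dd))) (.ch (nat_lit 6) (.ev (nat_lit 2560) (nat_lit 16448) (.ev
 (nat_lit 2573) (nat_lit 4096) .dd))))) (.br (nat_lit 8) (.ch (nat_lit 7) (.ev (nat_lit 2560) (nat_lit 20480)
 (.ev (nat_lit 2573) (nat_lit 64) .dd))) (.br (nat_lit 9) (.ch (nat_lit 8) (.ev (nat_lit 2560) (nat_lit 4096)
 (.ev (nat_lit 3940) (nat_lit 16384) (.ev (nat_lit 3949) (nat_lit 64) .dd)))) (.ch (nat_lit 9) (.ev (nat_lit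
 2560) (nat_lit 64) (.ev (nat_lit 3940) (nat_lit 16384) (.ev (nat_lit 3949) (nat_lit 4096) .dd)))))))))) (.ch
 (nat_lit 6) (.ev (nat_lit 864) (nat_lit 4160) (.ev (nat_lit 1172) (nat_lit 2048) (.ev (nat_lit 1181) (nat_lit
 16384) .dd)))))) (.br (nat_lit 11) (.br (nat_lit 9) (.ch (nat_lit 8) (.ev (nat_lit 864) (nat_lit 2048) (.ev
 (nat_lit 1188) (nat_lit 16384) (.nd (nat_lit 2384) (.br (nat_lit 11) (.br (nat_lit 2) (.ch (nat_lit 0) (.fin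
 (nat_lit 576516278265005029))) (.ch (nat_lit 2) (.ev (nat_lit 2420) (nat_lit 64) (.ev (nat_lit 2429) (nat_lit
 4096) .dd)))) (.br (nat_lit 12) (.ch (nat_lit 11) (.nd (nat_lit 6400) (.br (nat_lit 12) (.ch (nat_lit 7) (.ev
 (nat_lit 6416) (nat_lit 4096) (.ev (nat_lit 6429) (nat_lit 64) .dd))) (.ch (nat_lit 12) (.fin (nat_lit
 576475595707728466)))))) (.ch (nat_lit 12) (.ev (nat_lit 3236) (nat_lit 64) (.ev (nat_lit 3245) (nat_lit 4096)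
 .dd))))))))) (.ch (nat_lit 9) (.ev (nat_lit 864) (nat_lit 22528) (.ev (nat_lit 877) (nat_lit 64) .dd)))) (.br
 (nat_lit 12) (.ch (nat_lit 11) (.ev (nat_lit 864) (nat_lit 16384) (.ev (nat_lit 1156) (nat_lit 4096) (.nd
 (nat_lit 2384) (.br (nat_lit 6) (.br (nat_lit 3) (.ch (nat_lit 1) (.fin (nat_lit 576461301309981259))) (.br
 (nat_lit 4) (.ch (nat_lit 3) (.ev (nat_lit 2400) (nat_lit 2048) (.ev (nat_lit 2413) (nat_lit 64) .dd))) (.ch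
 (nat_lit 4) (.ev (nat_lit 2852) (nat_lit 64) (.ev (nat_lit 2861) (nat_lit 2048) .dd))))) (.br (nat_lit 9) (.ch
 (nat_lit 6) (.ev (nat_lit 3460) (nat_lit 64) (.ev (nat_lit 3469) (nat_lit 2048) .dd))) (.br (nat_lit 12) (.ch
 (nat_lit 9) (.ev (nat_lit 2420) (nat_lit 64) (.ev (nat_lit 2429) (nat_lit 2048) .dd))) (.ch (nat_lit 12) (.ev
 (nat_lit 2400) (nat_lit 2112) .dd))))))))) (.ch (nat_lit 12) (.ev (nat_lit 864) (nat_lit 20480) (.ev (nat_lit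
 1508) (nat_lit 2048) (.ev (nat_lit 1517) (nat_lit 64) .dd)))))))))) (.br (nat_lit 11) (.ch (nat_lit 10) (.ev
 (nat_lit 320) (nat_lit 20480) (.nd (nat_lit 784) (.br (nat_lit 7) (.br (nat_lit 5) (.ch (nat_lit 0) (.ev
 (nat_lit 4772) (nat_lit 64) (.ev (nat_lit 4781) (nat_lit 2048) .dd))) (.br (nat_lit 6) (.ch (nat_lit 5) (.nd
 (nat_lit 2240) (.br (nat_lit 5) (.br (nat_lit 2) (.ch (nat_lit 1) (.ev (nat_lit 2256) (nat_lit 64) (.ev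
 (nat_lit 2269) (nat_lit 2048) .dd))) (.br (nat_lit 4) (.ch (nat_lit 2) (.ev (nat_lit 2256) (nat_lit 2048) (.ev
 (nat_lit 2269) (nat_lit 64) .dd))) (.ch (nat_lit 4) (.ev (nat_lit 2256) (nat_lit 64) (.ev (nat_lit 2269)
 (nat_lit 2048) .dd))))) (.br (nat_lit 9) (.ch (nat_lit 5) (.ev (nat_lit 2596) (nat_lit 64) (.ev (nat_lit 2605)
 (nat_lit 2048) .dd))) (.br (nat_lit 10) (.ch (nat_lit 9) (.ev (nat_lit 2420) (nat_lit 2048) (.ev (nat_lit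
 2429) (nat_lit 64) .dd))) (.ch (nat_lit 10) (.fin (nat_lit 576386535304675918)))))))) (.ch (nat_lit 6) (.fin
 (nat_lit 576498685358588099))))) (.br (nat_lit 10) (.br (nat_lit 9) (.ch (nat_lit 7) (.ev (nat_lit 800)
 (nat_lit 2048) (.ev (nat_lit 813) (nat_lit 64) .dd))) (.ch (nat_lit 9) (.ev (nat_lit 800) (nat_lit 64) (.ev
 (nat_lit 813) (nat_lit 2048) .dd)))) (.br (nat_lit 11) (.ch (nat_lit 10) (.ev (nat_lit 800) (nat_lit 2048)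
 (.ev (nat_lit 813) (nat_lit 64) .dd))) (.ch (nat_lit 11) (.ev (nat_lit 800) (nat_lit 64) (.ev (nat_lit 813)
 (nat_lit 2048) .dd))))))))) (.br (nat_lit 12) (.ch (nat_lit 11) (.ev (nat_lit 320) (nat_lit 2048) (.nd
 (nat_lit 1296) (.br (nat_lit 5) (.br (nat_lit 2) (.br (nat_lit 1) (.ch (nat_lit 0) (.ev (nat_lit 1312)
 (nat_lit 4096) (.ev (nat_lit 1332) (nat_lit 16384) (.ev (nat_lit 1341) (nat_lit 64) .dd)))) (.ch (nat_lit 1)
 (.nd (nat_lit 4432) (.br (nat_lit 10) (.br (nat_lit 5) (.ch (nat_lit 2) (.ev (nat_lit 4448) (nat_lit 64) (.fin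
 (nat_lit 576685602408710674)))) (.ch (nat_lit 5) (.ev (nat_lit 5252) (nat_lit 64) (.nd (nat_lit 7120) (.br
 (nat_lit 10) (.ch (nat_lit 4) (.fin (nat_lit 576461302150939151))) (.ch (nat_lit 10) (.ev (nat_lit 7136)
 (nat_lit 4096) (.ev (nat_lit 7149) (nat_lit 16384) .dd)))))))) (.br (nat_lit 12) (.ch (nat_lit 10) (.ev
 (nat_lit 4448) (nat_lit 16384) (.fin (nat_lit 576448107890819668)))) (.ch (nat_lit 12) (.ev (nat_lit 4448)
 (nat_lit 64) (.ev (nat_lit 4964) (nat_lit 16384) (.ev (nat_lit 4973) (nat_lit 4096) .dd))))))))) (.br (nat_lit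
 3) (.ch (nat_lit 2) (.ev (nat_lit 1312) (nat_lit 4160) (.ev (nat_lit 1325) (nat_lit 16384) .dd))) (.ch
 (nat_lit 3) (.nd (nat_lit 4176) (.br (nat_lit 6) (.br (nat_lit 3) (.ch (nat_lit 1) (.ev (nat_lit 4192)
 (nat_lit 16384) (.ev (nat_lit 5364) (nat_lit 4096) (.ev (nat_lit 5373) (nat_lit 64) .dd)))) (.br (nat_lit 5)
 (.ch (nat_lit 3) (.ev (nat_lit 4192) (nat_lit 64) (.ev (nat_lit 5188) (nat_lit 16384) (.ev (nat_lit 5197)
 (nat_lit 4096) .dd)))) (.ch (nat_lit 5) (.ev (nat_lit 4192) (nat_lit 16384) (.ev (nat_lit 5380) (nat_lit 64)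
 (.ev (nat_lit 5389) (nat_lit 4096) .dd)))))) (.br (nat_lit 8) (.ch (nat_lit 6) (.ev (nat_lit 4192) (nat_lit
 4160) (.ev (nat_lit 4205) (nat_lit 16384) .dd))) (.br (nat_lit 11) (.ch (nat_lit 8) (.ev (nat_lit 4192)
 (nat_lit 4096) (.fin (nat_lit 576430515758252561)))) (.ch (nat_lit 11) (.ev (nat_lit 4192) (nat_lit 4096) (.ev
 (nat_lit 5188) (nat_lit 16384) (.ev (nat_lit 5197) (nat_lit 64) .dd))))))))))) (.br (nat_lit 11) (.br (nat_lit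
 6) (.ch (nat_lit 5) (.ev (nat_lit 1312) (nat_lit 64) (.ev (nat_lit 1332) (nat_lit 4096) (.ev (nat_lit 1341)
 (nat_lit 16384) .dd)))) (.ch (nat_lit 6) (.ev (nat_lit 1312) (nat_lit 16384) (.ev (nat_lit 4772) (nat_lit
 4096) (.ev (nat_lit 4781) (nat_lit 64) .dd))))) (.br (nat_lit 12) (.ch (nat_lit 11) (.ev (nat_lit 1312)
 (nat_lit 4160) (.ev (nat_lit 1325) (nat_lit 16384) .dd))) (.ch (nat_lit 12) (.ev (nat_lit 1312) (nat_lit
 16384) (.ev (nat_lit 1476) (nat_lit 64) (.ev (nat_lit 1485) (nat_lit 4096) .dd)))))))))) (.ch (nat_lit 12)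
 (.ev (nat_lit 320) (nat_lit 2048) (.ev (nat_lit 404) (nat_lit 16384) (.ev (nat_lit 452) (nat_lit 4096) (.ev
 (nat_lit 461) (nat_lit 64) .dd)))))))))))) (.br (nat_lit 12) (.ch (nat_lit 11) (.ev (nat_lit 48) (nat_lit
 20480) (.nd (nat_lit 192) (.br (nat_lit 4) (.br (nat_lit 2) (.br (nat_lit 1) (.ch (nat_lit 0) (.ev (nat_lit
 208) (nat_lit 64) (.nd (nat_lit 752) (.br (nat_lit 7) (.br (nat_lit 3) (.br (nat_lit 2) (.ch (nat_lit 1) (.ev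
 (nat_lit 768) (nat_lit 2056) (.fin (nat_lit 576606437543199417)))) (.ch (nat_lit 2) (.ev (nat_lit 768)
 (nat_lit 3072) (.ev (nat_lit 996) (nat_lit 8) (.ev (nat_lit 1005) (nat_lit 8192) .dd))))) (.br (nat_lit 5)
 (.ch (nat_lit 3) (.nd (nat_lit 2144) (.br (nat_lit 8) (.br (nat_lit 2) (.ch (nat_lit 1) (.ev (nat_lit 2160)
 (nat_lit 2056) (.ev (nat_lit 2276) (nat_lit 1024) (.ev (nat_lit 2285) (nat_lit 8192) .dd)))) (.br (nat_lit 3)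
 (.ch (nat_lit 2) (.ev (nat_lit 2436) (nat_lit 1024) (.ev (nat_lit 2532) (nat_lit 8) (.ev (nat_lit 3396)
 (nat_lit 8192) (.ev (nat_lit 3405) (nat_lit 2048) .dd))))) (.ch (nat_lit 3) (.ev (nat_lit 2160) (nat_lit
 10240) (.ev (nat_lit 3296) (nat_lit 1032) .dd))))) (.br (nat_lit 11) (.br (nat_lit 9) (.ch (nat_lit 8) (.ev
 (nat_lit 2160) (nat_lit 8192) (.ev (nat_lit 2224) (nat_lit 8) (.fin (nat_lit 576415122576589371))))) (.ch
 (nat_lit 9) (.ev (nat_lit 2160) (nat_lit 3072) (.ev (nat_lit 2452) (nat_lit 8) (.ev (nat_lit 2461) (nat_lit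
 8192) .dd))))) (.br (nat_lit 12) (.ch (nat_lit 11) (.ev (nat_lit 2160) (nat_lit 1024) (.ev (nat_lit 2340)
 (nat_lit 2048) (.nd (nat_lit 6720) (.br (nat_lit 7) (.ch (nat_lit 6) (.fin (nat_lit 576454704984703553))) (.ch
 (nat_lit 7) (.ev (nat_lit 6736) (nat_lit 8192) (.ev (nat_lit 6749) (nat_lit 8) .dd)))))))) (.ch (nat_lit 12)
 (.ev (nat_lit 2160) (nat_lit 8200) (.ev (nat_lit 2356) (nat_lit 2048) (.ev (nat_lit 2365) (nat_lit 1024)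
 .dd))))))))) (.ch (nat_lit 5) (.ev (nat_lit 768) (nat_lit 8) (.ev (nat_lit 820) (nat_lit 1024) (.nd (nat_lit
 2288) (.br (nat_lit 8) (.br (nat_lit 2) (.ch (nat_lit 1) (.ev (nat_lit 2304) (nat_lit 8192) (.ev (nat_lit
 2317) (nat_lit 2048) .dd))) (.ch (nat_lit 2) (.ev (nat_lit 2468) (nat_lit 2048) (.ev (nat_lit 2477) (nat_lit
 8192) .dd)))) (.br (nat_lit 11) (.ch (nat_lit 8) (.ev (nat_lit 2304) (nat_lit 8192) (.ev (nat_lit 2317)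
 (nat_lit 2048) .dd))) (.ch (nat_lit 11) (.ev (nat_lit 3136) (nat_lit 8192) (.ev (nat_lit 3149) (nat_lit 2048)
 .dd))))))))))) (.br (nat_lit 11) (.br (nat_lit 9) (.ch (nat_lit 7) (.ev (nat_lit 768) (nat_lit 8200) (.nd
 (nat_lit 2384) (.br (nat_lit 9) (.br (nat_lit 3) (.ch (nat_lit 2) (.ev (nat_lit 3972) (nat_lit 1024) (.ev
 (nat_lit 3981) (nat_lit 2048) .dd))) (.ch (nat_lit 3) (.ev (nat_lit 2400) (nat_lit 1024) (.ev (nat_lit 2413)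
 (nat_lit 2048) .dd)))) (.br (nat_lit 12) (.ch (nat_lit 9) (.ev (nat_lit 3764) (nat_lit 1024) (.ev (nat_lit
 3773) (nat_lit 2048) .dd))) (.ch (nat_lit 12) (.ev (nat_lit 4032) (nat_lit 2048) (.ev (nat_lit 4045) (nat_lit
 1024) .dd)))))))) (.ch (nat_lit 9) (.ev (nat_lit 768) (nat_lit 8192) (.nd (nat_lit 2544) (.br (nat_lit 5) (.br
 (nat_lit 3) (.ch (nat_lit 1) (.ev (nat_lit 2560) (nat_lit 2056) (.ev (nat_lit 2573) (nat_lit 1024) .dd))) (.ch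
 (nat_lit 3) (.ev (nat_lit 2560) (nat_lit 1024) (.fin (nat_lit 576265588616675853))))) (.br (nat_lit 12) (.ch
 (nat_lit 5) (.ev (nat_lit 2560) (nat_lit 2056) (.ev (nat_lit 2573) (nat_lit 1024) .dd))) (.ch (nat_lit 12)
 (.ev (nat_lit 2560) (nat_lit 8) (.ev (nat_lit 5124) (nat_lit 1024) (.ev (nat_lit 5133) (nat_lit 2048)
 .dd)))))))))) (.br (nat_lit 12) (.ch (nat_lit 11) (.ev (nat_lit 768) (nat_lit 3072) (.nd (nat_lit 2896) (.br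
 (nat_lit 11) (.ch (nat_lit 3) (.ev (nat_lit 3348) (nat_lit 8192) (.ev (nat_lit 3357) (nat_lit 8) .dd))) (.ch
 (nat_lit 11) (.ev (nat_lit 3348) (nat_lit 8192) (.ev (nat_lit 3357) (nat_lit 8) .dd))))))) (.ch (nat_lit 12)
 (.ev (nat_lit 768) (nat_lit 1024) (.nd (nat_lit 2384) (.br (nat_lit 6) (.br (nat_lit 4) (.ch (nat_lit 1) (.ev
 (nat_lit 2400) (nat_lit 8) (.ev (nat_lit 4324) (nat_lit 8192) (.ev (nat_lit 4333) (nat_lit 2048) .dd)))) (.ch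
 (nat_lit 4) (.ev (nat_lit 2400) (nat_lit 8192) (.ev (nat_lit 3316) (nat_lit 8) (.ev (nat_lit 3325) (nat_lit
 2048) .dd))))) (.br (nat_lit 9) (.ch (nat_lit 6) (.ev (nat_lit 2400) (nat_lit 8200) (.ev (nat_lit 2413)
 (nat_lit 2048) .dd))) (.ch (nat_lit 9) (.ev (nat_lit 2400) (nat_lit 2048) (.ev (nat_lit 3316) (nat_lit 8) (.ev
 (nat_lit 3325) (nat_lit 8192) .dd))))))))))))))) (.ch (nat_lit 1) (.ev (nat_lit 208) (nat_lit 10248) (.ev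
 (nat_lit 468) (nat_lit 64) (.ev (nat_lit 477) (nat_lit 1024) .dd))))) (.br (nat_lit 3) (.ch (nat_lit 2) (.ev
 (nat_lit 208) (nat_lit 8192) (.ev (nat_lit 388) (nat_lit 1024) (.ev (nat_lit 580) (nat_lit 8) (.nd (nat_lit
 1440) (.br (nat_lit 8) (.br (nat_lit 4) (.br (nat_lit 3) (.ch (nat_lit 1) (.nd (nat_lit 5152) (.br (nat_lit 9)
 (.br (nat_lit 5) (.ch (nat_lit 2) (.fin (nat_lit 576423918694777373))) (.ch (nat_lit 5) (.ev (nat_lit 5364)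
 (nat_lit 2048) (.ev (nat_lit 5373) (nat_lit 64) .dd)))) (.br (nat_lit 12) (.ch (nat_lit 9) (.ev (nat_lit 5380)
 (nat_lit 64) (.ev (nat_lit 5389) (nat_lit 2048) .dd))) (.ch (nat_lit 12) (.ev (nat_lit 5204) (nat_lit 64) (.ev
 (nat_lit 5213) (nat_lit 2048) .dd))))))) (.ch (nat_lit 3) (.nd (nat_lit 5216) (.br (nat_lit 9) (.ch (nat_lit
 4) (.fin (nat_lit 576461302017770044))) (.ch (nat_lit 9) (.ev (nat_lit 5232) (nat_lit 2048) (.ev (nat_lit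
 5245) (nat_lit 64) .dd))))))) (.br (nat_lit 5) (.ch (nat_lit 4) (.ev (nat_lit 1456) (nat_lit 2048) (.ev
 (nat_lit 1469) (nat_lit 64) .dd))) (.ch (nat_lit 5) (.ev (nat_lit 1456) (nat_lit 2048) (.ev (nat_lit 1469)
 (nat_lit 64) .dd))))) (.br (nat_lit 10) (.br (nat_lit 9) (.ch (nat_lit 8) (.ev (nat_lit 1456) (nat_lit 64)
 (.ev (nat_lit 1469) (nat_lit 2048) .dd))) (.ch (nat_lit 9) (.ev (nat_lit 1456) (nat_lit 2112) .dd))) (.br
 (nat_lit 11) (.ch (nat_lit 10) (.ev (nat_lit 1456) (nat_lit 64) (.ev (nat_lit 1469) (nat_lit 2048) .dd))) (.ch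
 (nat_lit 11) (.ev (nat_lit 4788) (nat_lit 64) (.ev (nat_lit 4797) (nat_lit 2048) .dd))))))))))) (.ch (nat_lit
 3) (.ev (nat_lit 208) (nat_lit 2048) (.nd (nat_lit 672) (.br (nat_lit 3) (.br (nat_lit 1) (.ch (nat_lit 0)
 (.ev (nat_lit 688) (nat_lit 8200) (.fin (nat_lit 576716388577001897)))) (.br (nat_lit 2) (.ch (nat_lit 1) (.ev
 (nat_lit 932) (nat_lit 8) (.ev (nat_lit 2132) (nat_lit 8192) (.nd (nat_lit 2544) (.br (nat_lit 6) (.br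
 (nat_lit 3) (.ch (nat_lit 1) (.ev (nat_lit 2560) (nat_lit 1024) (.ev (nat_lit 2573) (nat_lit 64) .dd))) (.ch
 (nat_lit 3) (.ev (nat_lit 2560) (nat_lit 64) (.ev (nat_lit 2573) (nat_lit 1024) .dd)))) (.br (nat_lit 7) (.ch
 (nat_lit 6) (.fin (nat_lit 576448107897111006))) (.br (nat_lit 11) (.ch (nat_lit 7) (.ev (nat_lit 2560)
 (nat_lit 1024) (.ev (nat_lit 2573) (nat_lit 64) .dd))) (.ch (nat_lit 11) (.ev (nat_lit 2580) (nat_lit 1024)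
 (.ev (nat_lit 2589) (nat_lit 64) .dd)))))))))) (.ch (nat_lit 2) (.ev (nat_lit 688) (nat_lit 64) (.ev (nat_lit
 932) (nat_lit 8) (.ev (nat_lit 2004) (nat_lit 8192) (.ev (nat_lit 2013) (nat_lit 1024) .dd))))))) (.br
 (nat_lit 9) (.br (nat_lit 6) (.ch (nat_lit 3) (.ev (nat_lit 688) (nat_lit 64) (.nd (nat_lit 2144) (.br
 (nat_lit 4) (.ch (nat_lit 2) (.ev (nat_lit 3124) (nat_lit 1024) (.ev (nat_lit 4592) (nat_lit 8192) (.ev
 (nat_lit 4605) (nat_lit 8) .dd)))) (.br (nat_lit 12) (.ch (nat_lit 4) (.ev (nat_lit 2160) (nat_lit 8192) (.ev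
 (nat_lit 3204) (nat_lit 1024) (.ev (nat_lit 3213) (nat_lit 8) .dd)))) (.ch (nat_lit 12) (.ev (nat_lit 3028)
 (nat_lit 8) (.ev (nat_lit 3124) (nat_lit 1024) (.ev (nat_lit 3133) (nat_lit 8192) .dd))))))))) (.ch (nat_lit
 6) (.ev (nat_lit 688) (nat_lit 9216) (.ev (nat_lit 4740) (nat_lit 8) (.ev (nat_lit 4749) (nat_lit 64) .dd)))))
 (.br (nat_lit 12) (.ch (nat_lit 9) (.ev (nat_lit 688) (nat_lit 1024) (.ev (nat_lit 820) (nat_lit 64) (.ev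
 (nat_lit 1364) (nat_lit 8) (.ev (nat_lit 1373) (nat_lit 8192) .dd))))) (.ch (nat_lit 12) (.ev (nat_lit 688)
 (nat_lit 8) (.ev (nat_lit 820) (nat_lit 64) (.nd (nat_lit 2288) (.br (nat_lit 12) (.ch (nat_lit 10) (.ev
 (nat_lit 2304) (nat_lit 1024) (.ev (nat_lit 2317) (nat_lit 8192) .dd))) (.ch (nat_lit 12) (.ev (nat_lit 3236)
 (nat_lit 1024) (.ev (nat_lit 3245) (nat_lit 8192) .dd)))))))))))))))) (.br (nat_lit 6) (.br (nat_lit 5) (.ch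
 (nat_lit 4) (.ev (nat_lit 208) (nat_lit 1024) (.nd (nat_lit 752) (.br (nat_lit 7) (.br (nat_lit 1) (.ch
 (nat_lit 0) (.ev (nat_lit 884) (nat_lit 8) (.nd (nat_lit 2144) (.br (nat_lit 9) (.br (nat_lit 7) (.ch (nat_lit
 5) (.ev (nat_lit 2160) (nat_lit 64) (.ev (nat_lit 2868) (nat_lit 2048) (.ev (nat_lit 2877) (nat_lit 8192)
 .dd)))) (.ch (nat_lit 7) (.ev (nat_lit 2160) (nat_lit 10240) (.ev (nat_lit 2173) (nat_lit 64) .dd)))) (.br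
 (nat_lit 10) (.ch (nat_lit 9) (.ev (nat_lit 4164) (nat_lit 8192) (.nd (nat_lit 6624) (.br (nat_lit 7) (.ch
 (nat_lit 1) (.fin (nat_lit 576909903052357913))) (.br (nat_lit 11) (.ch (nat_lit 7) (.ev (nat_lit 6640)
 (nat_lit 2112) .dd)) (.ch (nat_lit 11) (.ev (nat_lit 6640) (nat_lit 2112) .dd))))))) (.br (nat_lit 11) (.ch
 (nat_lit 10) (.ev (nat_lit 2160) (nat_lit 2048) (.ev (nat_lit 3204) (nat_lit 8192) (.ev (nat_lit 3213)
 (nat_lit 64) .dd)))) (.ch (nat_lit 11) (.ev (nat_lit 2980) (nat_lit 2048) (.nd (nat_lit 6400) (.br (nat_lit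
 11) (.ch (nat_lit 3) (.ev (nat_lit 6436) (nat_lit 64) (.ev (nat_lit 6445) (nat_lit 8192) .dd))) (.ch (nat_lit
 11) (.fin (nat_lit 576444809392636466))))))))))))) (.br (nat_lit 5) (.ch (nat_lit 1) (.ev (nat_lit 768)
 (nat_lit 8256) (.ev (nat_lit 2068) (nat_lit 8) (.ev (nat_lit 2077) (nat_lit 2048) .dd)))) (.ch (nat_lit 5)
 (.ev (nat_lit 768) (nat_lit 2048) (.nd (nat_lit 2144) (.br (nat_lit 11) (.ch (nat_lit 6) (.ev (nat_lit 2580)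
 (nat_lit 64) (.ev (nat_lit 4640) (nat_lit 8192) (.ev (nat_lit 4653) (nat_lit 8) .dd)))) (.br (nat_lit 12) (.ch
 (nat_lit 11) (.ev (nat_lit 3460) (nat_lit 8) (.ev (nat_lit 3972) (nat_lit 64) (.ev (nat_lit 3981) (nat_lit
 8192) .dd)))) (.ch (nat_lit 12) (.ev (nat_lit 2580) (nat_lit 64) (.ev (nat_lit 3908) (nat_lit 8) (.ev (nat_lit
 3917) (nat_lit 8192) .dd))))))))))) (.br (nat_lit 10) (.br (nat_lit 9) (.ch (nat_lit 7) (.ev (nat_lit 768)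
 (nat_lit 64) (.ev (nat_lit 884) (nat_lit 8) (.ev (nat_lit 4656) (nat_lit 8192) (.ev (nat_lit 4669) (nat_lit
 2048) .dd))))) (.ch (nat_lit 9) (.ev (nat_lit 768) (nat_lit 2056) (.ev (nat_lit 1524) (nat_lit 64) (.ev
 (nat_lit 1533) (nat_lit 8192) .dd))))) (.br (nat_lit 12) (.ch (nat_lit 10) (.nd (nat_lit 2144) (.br (nat_lit
 9) (.br (nat_lit 6) (.ch (nat_lit 1) (.ev (nat_lit 2324) (nat_lit 2048) (.ev (nat_lit 2596) (nat_lit 8) (.nd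
 (nat_lit 6656) (.ch (nat_lit 11) (.nd (nat_lit 8208) (.br (nat_lit 6) (.ch (nat_lit 2) (.ev (nat_lit 8224)
 (nat_lit 8256) .dd)) (.ch (nat_lit 6) (.fin (nat_lit 576283180596151183)))))))))) (.br (nat_lit 8) (.ch
 (nat_lit 6) (.ev (nat_lit 2160) (nat_lit 10240) (.ev (nat_lit 2276) (nat_lit 8) (.ev (nat_lit 2285) (nat_lit
 64) .dd)))) (.ch (nat_lit 8) (.ev (nat_lit 2160) (nat_lit 8256) (.ev (nat_lit 3204) (nat_lit 8) (.ev (nat_lit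
 3213) (nat_lit 2048) .dd)))))) (.br (nat_lit 11) (.ch (nat_lit 9) (.ev (nat_lit 2160) (nat_lit 8192) (.ev
 (nat_lit 2276) (nat_lit 8) (.ev (nat_lit 3444) (nat_lit 2048) (.ev (nat_lit 3453) (nat_lit 64) .dd))))) (.br
 (nat_lit 12) (.ch (nat_lit 11) (.ev (nat_lit 2160) (nat_lit 8) (.ev (nat_lit 2324) (nat_lit 2048) (.ev
 (nat_lit 2832) (nat_lit 8192) (.ev (nat_lit 2845) (nat_lit 64) .dd))))) (.ch (nat_lit 12) (.ev (nat_lit 2160)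
 (nat_lit 2056) (.ev (nat_lit 2420) (nat_lit 64) (.ev (nat_lit 2429) (nat_lit 8192) .dd))))))))) (.ch (nat_lit
 12) (.ev (nat_lit 768) (nat_lit 8200) (.ev (nat_lit 820) (nat_lit 2048) (.ev (nat_lit 829) (nat_lit 64)
 .dd)))))))))) (.ch (nat_lit 5) (.ev (nat_lit 208) (nat_lit 3072) (.nd (nat_lit 752) (.br (nat_lit 9) (.br
 (nat_lit 7) (.ch (nat_lit 1) (.ev (nat_lit 768) (nat_lit 8256) (.ev (nat_lit 781) (nat_lit 8) .dd))) (.br
 (nat_lit 8) (.ch (nat_lit 7) (.ev (nat_lit 768) (nat_lit 8192) (.ev (nat_lit 1604) (nat_lit 8) (.ev (nat_lit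
 1613) (nat_lit 64) .dd)))) (.ch (nat_lit 8) (.ev (nat_lit 1156) (nat_lit 8) (.nd (nat_lit 3088) (.br (nat_lit
 9) (.br (nat_lit 4) (.ch (nat_lit 2) (.ev (nat_lit 3764) (nat_lit 64) (.ev (nat_lit 3773) (nat_lit 8192)
 .dd))) (.br (nat_lit 7) (.ch (nat_lit 4) (.ev (nat_lit 3316) (nat_lit 64) (.ev (nat_lit 3325) (nat_lit 8192)
 .dd))) (.ch (nat_lit 7) (.ev (nat_lit 3104) (nat_lit 8256) .dd)))) (.br (nat_lit 11) (.ch (nat_lit 9) (.ev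
 (nat_lit 3668) (nat_lit 8192) (.ev (nat_lit 3677) (nat_lit 64) .dd))) (.br (nat_lit 12) (.ch (nat_lit 11) (.ev
 (nat_lit 3104) (nat_lit 64) (.ev (nat_lit 3117) (nat_lit 8192) .dd))) (.ch (nat_lit 12) (.fin (nat_lit
 576531670774530618))))))))))) (.br (nat_lit 10) (.ch (nat_lit 9) (.nd (nat_lit 2896) (.br (nat_lit 7) (.br
 (nat_lit 3) (.br (nat_lit 2) (.ch (nat_lit 0) (.ev (nat_lit 2912) (nat_lit 8256) (.ev (nat_lit 2925) (nat_lit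
 8) .dd))) (.ch (nat_lit 2) (.ev (nat_lit 3204) (nat_lit 64) (.ev (nat_lit 4228) (nat_lit 8192) (.ev (nat_lit
 4237) (nat_lit 8) .dd))))) (.br (nat_lit 5) (.ch (nat_lit 3) (.ev (nat_lit 2912) (nat_lit 8256) (.ev (nat_lit
 2925) (nat_lit 8) .dd))) (.ch (nat_lit 5) (.ev (nat_lit 2912) (nat_lit 8192) (.ev (nat_lit 3876) (nat_lit 64)
 (.ev (nat_lit 3885) (nat_lit 8) .dd)))))) (.br (nat_lit 11) (.br (nat_lit 10) (.ch (nat_lit 7) (.ev (nat_lit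
 2912) (nat_lit 8) (.ev (nat_lit 3216) (nat_lit 8192) (.ev (nat_lit 3229) (nat_lit 64) .dd)))) (.ch (nat_lit
 10) (.ev (nat_lit 2912) (nat_lit 72) (.ev (nat_lit 2925) (nat_lit 8192) .dd)))) (.br (nat_lit 12) (.ch
 (nat_lit 11) (.ev (nat_lit 2912) (nat_lit 72) (.ev (nat_lit 2925) (nat_lit 8192) .dd))) (.ch (nat_lit 12) (.ev
 (nat_lit 2912) (nat_lit 8192) (.ev (nat_lit 3668) (nat_lit 8) (.ev (nat_lit 3677) (nat_lit 64) .dd)))))))))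
 (.br (nat_lit 12) (.ch (nat_lit 10) (.ev (nat_lit 768) (nat_lit 8) (.nd (nat_lit 2992) (.br (nat_lit 9) (.br
 (nat_lit 3) (.ch (nat_lit 1) (.ev (nat_lit 4068) (nat_lit 8192) (.ev (nat_lit 4077) (nat_lit 64) .dd))) (.ch
 (nat_lit 3) (.ev (nat_lit 3028) (nat_lit 64) (.ev (nat_lit 3037) (nat_lit 8192) .dd)))) (.br (nat_lit 11) (.ch
 (nat_lit 9) (.ev (nat_lit 4388) (nat_lit 64) (.ev (nat_lit 4397) (nat_lit 8192) .dd))) (.ch (nat_lit 11) (.ev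
 (nat_lit 5588) (nat_lit 8192) (.ev (nat_lit 5597) (nat_lit 64) .dd)))))))) (.ch (nat_lit 12) (.ev (nat_lit
 768) (nat_lit 8192) (.nd (nat_lit 3088) (.br (nat_lit 10) (.ch (nat_lit 6) (.ev (nat_lit 3124) (nat_lit 64)
 (.ev (nat_lit 3133) (nat_lit 8) .dd))) (.br (nat_lit 11) (.ch (nat_lit 10) (.fin (nat_lit
 576540466903204010))) (.ch (nat_lit 11) (.ev (nat_lit 4388) (nat_lit 64) (.ev (nat_lit 4397) (nat_lit 8)
 .dd))))))))))))))) (.br (nat_lit 8) (.ch (nat_lit 6) (.ev (nat_lit 208) (nat_lit 72) (.nd (nat_lit 752) (.br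
 (nat_lit 7) (.br (nat_lit 3) (.br (nat_lit 1) (.ch (nat_lit 0) (.ev (nat_lit 768) (nat_lit 9216) (.ev (nat_lit
 781) (nat_lit 2048) .dd))) (.ch (nat_lit 1) (.ev (nat_lit 768) (nat_lit 8192) (.ev (nat_lit 820) (nat_lit
 2048) (.ev (nat_lit 829) (nat_lit 1024) .dd))))) (.br (nat_lit 5) (.ch (nat_lit 3) (.ev (nat_lit 768) (nat_lit
 8192) (.nd (nat_lit 2896) (.br (nat_lit 6) (.br (nat_lit 3) (.ch (nat_lit 0) (.ev (nat_lit 2912) (nat_lit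
 2048) (.ev (nat_lit 2925) (nat_lit 1024) .dd))) (.ch (nat_lit 3) (.ev (nat_lit 2912) (nat_lit 1024) (.ev
 (nat_lit 2925) (nat_lit 2048) .dd)))) (.br (nat_lit 7) (.ch (nat_lit 6) (.nd (nat_lit 6832) (.br (nat_lit 12)
 (.ch (nat_lit 11) (.fin (nat_lit 575432157867491642))) (.ch (nat_lit 12) (.ev (nat_lit 6848) (nat_lit 2048)
 (.ev (nat_lit 6861) (nat_lit 1024) .dd)))))) (.ch (nat_lit 7) (.ev (nat_lit 2912) (nat_lit 2048) (.ev (nat_lit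
 2925) (nat_lit 1024) .dd)))))))) (.ch (nat_lit 5) (.ev (nat_lit 768) (nat_lit 2048) (.nd (nat_lit 3088) (.br
 (nat_lit 7) (.ch (nat_lit 0) (.ev (nat_lit 3856) (nat_lit 9216) .dd)) (.ch (nat_lit 7) (.ev (nat_lit 4084)
 (nat_lit 1024) (.ev (nat_lit 4093) (nat_lit 8192) .dd))))))))) (.br (nat_lit 11) (.br (nat_lit 10) (.ch
 (nat_lit 7) (.nd (nat_lit 2784) (.br (nat_lit 6) (.br (nat_lit 1) (.ch (nat_lit 0) (.ev (nat_lit 2800)
 (nat_lit 8192) (.ev (nat_lit 2964) (nat_lit 2048) (.ev (nat_lit 2973) (nat_lit 1024) .dd)))) (.br (nat_lit 3)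
 (.ch (nat_lit 1) (.ev (nat_lit 2800) (nat_lit 9216) (.ev (nat_lit 2813) (nat_lit 2048) .dd))) (.ch (nat_lit 3)
 (.ev (nat_lit 2800) (nat_lit 2048) (.fin (nat_lit 576522874750714506)))))) (.br (nat_lit 7) (.ch (nat_lit 6)
 (.ev (nat_lit 2800) (nat_lit 1024) (.nd (nat_lit 6544) (.br (nat_lit 11) (.ch (nat_lit 2) (.fin (nat_lit
 576464600591450693))) (.ch (nat_lit 11) (.ev (nat_lit 6560) (nat_lit 2048) (.ev (nat_lit 6573) (nat_lit 8192)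
 .dd))))))) (.br (nat_lit 10) (.ch (nat_lit 7) (.ev (nat_lit 2800) (nat_lit 8192) (.ev (nat_lit 4324) (nat_lit
 1024) (.ev (nat_lit 4333) (nat_lit 2048) .dd)))) (.ch (nat_lit 10) (.ev (nat_lit 2800) (nat_lit 10240) (.ev
 (nat_lit 2813) (nat_lit 1024) .dd)))))))) (.ch (nat_lit 10) (.ev (nat_lit 768) (nat_lit 2048) (.nd (nat_lit
 2384) (.br (nat_lit 12) (.ch (nat_lit 0) (.ev (nat_lit 3876) (nat_lit 1024) (.ev (nat_lit 3885) (nat_lit 8192)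
 .dd))) (.ch (nat_lit 12) (.fin (nat_lit 576019298375909711)))))))) (.br (nat_lit 12) (.ch (nat_lit 11) (.ev
 (nat_lit 768) (nat_lit 2048) (.ev (nat_lit 3828) (nat_lit 1024) (.ev (nat_lit 3837) (nat_lit 8192) .dd))))
 (.ch (nat_lit 12) (.ev (nat_lit 768) (nat_lit 9216) (.ev (nat_lit 781) (nat_lit 2048) .dd))))))))) (.br
 (nat_lit 12) (.ch (nat_lit 8) (.ev (nat_lit 208) (nat_lit 8264) (.ev (nat_lit 228) (nat_lit 2048) (.ev
 (nat_lit 237) (nat_lit 1024) .dd)))) (.ch (nat_lit 12) (.ev (nat_lit 208) (nat_lit 9224) (.ev (nat_lit 228)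
 (nat_lit 2048) (.ev (nat_lit 237) (nat_lit 64) .dd))))))))))) (.ch (nat_lit 12) (.ev (nat_lit 48) (nat_lit
 3072) (.nd (nat_lit 272) (.br (nat_lit 6) (.br (nat_lit 4) (.br (nat_lit 1) (.ch (nat_lit 0) (.ev (nat_lit
 288) (nat_lit 16448) (.nd (nat_lit 1040) (.br (nat_lit 8) (.br (nat_lit 2) (.ch (nat_lit 1) (.ev (nat_lit
 1056) (nat_lit 8192) (.nd (nat_lit 2896) (.br (nat_lit 10) (.ch (nat_lit 8) (.ev (nat_lit 3924) (nat_lit 8)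
 (.ev (nat_lit 3933) (nat_lit 4096) .dd))) (.ch (nat_lit 10) (.ev (nat_lit 3924) (nat_lit 8) (.ev (nat_lit
 3933) (nat_lit 4096) .dd))))))) (.br (nat_lit 7) (.ch (nat_lit 2) (.ev (nat_lit 1056) (nat_lit 4096) (.ev
 (nat_lit 1076) (nat_lit 8) (.ev (nat_lit 1085) (nat_lit 8192) .dd)))) (.ch (nat_lit 7) (.ev (nat_lit 1056)
 (nat_lit 8192) (.ev (nat_lit 1188) (nat_lit 4096) (.ev (nat_lit 1197) (nat_lit 8) .dd)))))) (.br (nat_lit 11)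
 (.ch (nat_lit 8) (.ev (nat_lit 1056) (nat_lit 8) (.ev (nat_lit 1972) (nat_lit 8192) (.ev (nat_lit 1981)
 (nat_lit 4096) .dd)))) (.br (nat_lit 12) (.ch (nat_lit 11) (.ev (nat_lit 1056) (nat_lit 8192) (.ev (nat_lit
 1172) (nat_lit 8) (.ev (nat_lit 1181) (nat_lit 4096) .dd)))) (.ch (nat_lit 12) (.ev (nat_lit 1732) (nat_lit
 8192) (.ev (nat_lit 2676) (nat_lit 8) (.ev (nat_lit 2685) (nat_lit 4096) .dd)))))))))) (.ch (nat_lit 1) (.ev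
 (nat_lit 288) (nat_lit 8192) (.nd (nat_lit 896) (.br (nat_lit 8) (.br (nat_lit 3) (.br (nat_lit 1) (.ch
 (nat_lit 0) (.ev (nat_lit 912) (nat_lit 16384) (.ev (nat_lit 1332) (nat_lit 4096) (.ev (nat_lit 3348) (nat_lit
 64) (.ev (nat_lit 3357) (nat_lit 8) .dd))))) (.ch (nat_lit 1) (.ev (nat_lit 912) (nat_lit 64) (.ev (nat_lit
 1156) (nat_lit 16384) (.ev (nat_lit 1252) (nat_lit 8) (.ev (nat_lit 1261) (nat_lit 4096) .dd)))))) (.br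
 (nat_lit 5) (.ch (nat_lit 3) (.ev (nat_lit 912) (nat_lit 4096) (.ev (nat_lit 932) (nat_lit 64) (.ev (nat_lit
 1348) (nat_lit 8) (.ev (nat_lit 1357) (nat_lit 16384) .dd))))) (.ch (nat_lit 5) (.ev (nat_lit 912) (nat_lit
 4168) (.ev (nat_lit 925) (nat_lit 16384) .dd))))) (.br (nat_lit 10) (.br (nat_lit 9) (.ch (nat_lit 8) (.ev
 (nat_lit 912) (nat_lit 4096) (.ev (nat_lit 1348) (nat_lit 8) (.ev (nat_lit 1492) (nat_lit 16384) (.ev (nat_lit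
 1501) (nat_lit 64) .dd))))) (.ch (nat_lit 9) (.ev (nat_lit 912) (nat_lit 4168) (.ev (nat_lit 925) (nat_lit
 16384) .dd)))) (.br (nat_lit 11) (.ch (nat_lit 10) (.ev (nat_lit 912) (nat_lit 16392) (.ev (nat_lit 3412)
 (nat_lit 4096) (.ev (nat_lit 3421) (nat_lit 64) .dd)))) (.br (nat_lit 12) (.ch (nat_lit 11) (.ev (nat_lit 912)
 (nat_lit 16456) (.ev (nat_lit 925) (nat_lit 4096) .dd))) (.ch (nat_lit 12) (.nd (nat_lit 2288) (.br (nat_lit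
 4) (.br (nat_lit 2) (.ch (nat_lit 0) (.ev (nat_lit 2304) (nat_lit 4096) (.ev (nat_lit 2596) (nat_lit 16384)
 (.ev (nat_lit 2820) (nat_lit 8) (.ev (nat_lit 2829) (nat_lit 64) .dd))))) (.ch (nat_lit 2) (.ev (nat_lit 2304)
 (nat_lit 16448) (.fin (nat_lit 576452505960399462))))) (.br (nat_lit 7) (.ch (nat_lit 4) (.ev (nat_lit 2304)
 (nat_lit 4096) (.ev (nat_lit 2580) (nat_lit 16384) (.ev (nat_lit 2948) (nat_lit 8) (.ev (nat_lit 2957)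
 (nat_lit 64) .dd))))) (.br (nat_lit 10) (.ch (nat_lit 7) (.ev (nat_lit 2932) (nat_lit 4096) (.ev (nat_lit
 2948) (nat_lit 8) (.fin (nat_lit 576646020018423111))))) (.ch (nat_lit 10) (.ev (nat_lit 2304) (nat_lit 72)
 (.ev (nat_lit 2948) (nat_lit 4096) (.ev (nat_lit 2957) (nat_lit 16384) .dd))))))))))))))))) (.br (nat_lit 5)
 (.ch (nat_lit 4) (.ev (nat_lit 288) (nat_lit 8192) (.nd (nat_lit 1216) (.br (nat_lit 7) (.br (nat_lit 5) (.br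
 (nat_lit 3) (.ch (nat_lit 1) (.ev (nat_lit 1232) (nat_lit 16456) (.ev (nat_lit 1245) (nat_lit 4096) .dd)))
 (.ch (nat_lit 3) (.ev (nat_lit 1232) (nat_lit 16384) (.nd (nat_lit 4544) (.br (nat_lit 10) (.ch (nat_lit 4)
 (.ev (nat_lit 4580) (nat_lit 64) (.fin (nat_lit 576316166627606830)))) (.br (nat_lit 11) (.ch (nat_lit 10)
 (.ev (nat_lit 4560) (nat_lit 8) (.nd (nat_lit 7104) (.br (nat_lit 1) (.ch (nat_lit 0) (.ev (nat_lit 7156)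
 (nat_lit 4096) (.ev (nat_lit 7165) (nat_lit 64) .dd))) (.ch (nat_lit 1) (.fin (nat_lit
 576375540107657769))))))) (.ch (nat_lit 11) (.ev (nat_lit 4804) (nat_lit 64) (.ev (nat_lit 4944) (nat_lit 8)
 (.ev (nat_lit 4957) (nat_lit 4096) .dd)))))))))) (.br (nat_lit 6) (.ch (nat_lit 5) (.ev (nat_lit 1232)
 (nat_lit 8) (.ev (nat_lit 1332) (nat_lit 4096) (.nd (nat_lit 6128) (.ch (nat_lit 7) (.fin (nat_lit
 576404127547343650))))))) (.ch (nat_lit 6) (.ev (nat_lit 1232) (nat_lit 4096) (.ev (nat_lit 1252) (nat_lit 64)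
 (.fin (nat_lit 576465700100981313))))))) (.br (nat_lit 9) (.br (nat_lit 8) (.ch (nat_lit 7) (.ev (nat_lit
 1332) (nat_lit 8) (.ev (nat_lit 1364) (nat_lit 16384) (.nd (nat_lit 5152) (.br (nat_lit 7) (.br (nat_lit 5)
 (.ch (nat_lit 2) (.ev (nat_lit 5168) (nat_lit 64) (.ev (nat_lit 5181) (nat_lit 4096) .dd))) (.ch (nat_lit 5)
 (.ev (nat_lit 5188) (nat_lit 4096) (.ev (nat_lit 5197) (nat_lit 64) .dd)))) (.br (nat_lit 9) (.ch (nat_lit 7)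
 (.ev (nat_lit 5168) (nat_lit 4096) (.ev (nat_lit 5181) (nat_lit 64) .dd))) (.br (nat_lit 12) (.ch (nat_lit 9)
 (.fin (nat_lit 576445908847641147))) (.ch (nat_lit 12) (.ev (nat_lit 5168) (nat_lit 64) (.ev (nat_lit 5181)
 (nat_lit 4096) .dd)))))))))) (.ch (nat_lit 8) (.ev (nat_lit 1232) (nat_lit 4168) (.ev (nat_lit 1245) (nat_lit
 16384) .dd)))) (.br (nat_lit 10) (.ch (nat_lit 9) (.ev (nat_lit 1232) (nat_lit 4160) (.ev (nat_lit 1332)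
 (nat_lit 16384) (.ev (nat_lit 1341) (nat_lit 8) .dd)))) (.br (nat_lit 11) (.ch (nat_lit 10) (.ev (nat_lit
 1232) (nat_lit 16456) (.ev (nat_lit 1245) (nat_lit 4096) .dd))) (.ch (nat_lit 11) (.ev (nat_lit 1232) (nat_lit
 16384) (.ev (nat_lit 1332) (nat_lit 8) (.ev (nat_lit 1348) (nat_lit 4096) (.ev (nat_lit 1357) (nat_lit 64)
 .dd)))))))))))) (.ch (nat_lit 5) (.ev (nat_lit 288) (nat_lit 4104) (.ev (nat_lit 644) (nat_lit 8192) (.nd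
 (nat_lit 1120) (.br (nat_lit 9) (.br (nat_lit 3) (.ch (nat_lit 0) (.ev (nat_lit 4804) (nat_lit 16384) (.ev
 (nat_lit 4813) (nat_lit 64) .dd))) (.br (nat_lit 4) (.ch (nat_lit 3) (.ev (nat_lit 1136) (nat_lit 64) (.ev
 (nat_lit 1149) (nat_lit 16384) .dd))) (.ch (nat_lit 4) (.ev (nat_lit 1156) (nat_lit 16384) (.ev (nat_lit 1165)
 (nat_lit 64) .dd))))) (.br (nat_lit 10) (.ch (nat_lit 9) (.ev (nat_lit 1136) (nat_lit 16384) (.ev (nat_lit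
 1149) (nat_lit 64) .dd))) (.br (nat_lit 12) (.ch (nat_lit 10) (.ev (nat_lit 4324) (nat_lit 64) (.ev (nat_lit
 4333) (nat_lit 16384) .dd))) (.ch (nat_lit 12) (.ev (nat_lit 5524) (nat_lit 16384) (.ev (nat_lit 5533)
 (nat_lit 64) .dd)))))))))))) (.br (nat_lit 9) (.br (nat_lit 7) (.ch (nat_lit 6) (.ev (nat_lit 288) (nat_lit
 8264) (.ev (nat_lit 388) (nat_lit 16384) (.ev (nat_lit 397) (nat_lit 4096) .dd)))) (.ch (nat_lit 7) (.ev
 (nat_lit 288) (nat_lit 4096) (.nd (nat_lit 752) (.br (nat_lit 3) (.br (nat_lit 1) (.ch (nat_lit 0) (.ev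
 (nat_lit 768) (nat_lit 8192) (.nd (nat_lit 2288) (.br (nat_lit 9) (.br (nat_lit 7) (.ch (nat_lit 6) (.ev
 (nat_lit 2436) (nat_lit 64) (.ev (nat_lit 3668) (nat_lit 8) (.ev (nat_lit 3677) (nat_lit 16384) .dd)))) (.ch
 (nat_lit 7) (.ev (nat_lit 2304) (nat_lit 16384) (.ev (nat_lit 4324) (nat_lit 8) (.ev (nat_lit 4333) (nat_lit
 64) .dd))))) (.br (nat_lit 12) (.ch (nat_lit 9) (.ev (nat_lit 3348) (nat_lit 64) (.ev (nat_lit 3668) (nat_lit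
 8) (.ev (nat_lit 3677) (nat_lit 16384) .dd)))) (.ch (nat_lit 12) (.ev (nat_lit 2304) (nat_lit 64) (.ev
 (nat_lit 3668) (nat_lit 8) (.ev (nat_lit 3677) (nat_lit 16384) .dd))))))))) (.br (nat_lit 2) (.ch (nat_lit 1)
 (.ev (nat_lit 768) (nat_lit 16392) (.nd (nat_lit 2240) (.br (nat_lit 3) (.ch (nat_lit 1) (.ev (nat_lit 3172)
 (nat_lit 64) (.ev (nat_lit 3181) (nat_lit 8192) .dd))) (.br (nat_lit 5) (.ch (nat_lit 3) (.ev (nat_lit 2596)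
 (nat_lit 8192) (.ev (nat_lit 2605) (nat_lit 64) .dd))) (.ch (nat_lit 5) (.ev (nat_lit 3828) (nat_lit 8192)
 (.ev (nat_lit 3837) (nat_lit 64) .dd)))))))) (.ch (nat_lit 2) (.ev (nat_lit 768) (nat_lit 72) (.ev (nat_lit
 3204) (nat_lit 8192) (.ev (nat_lit 3213) (nat_lit 16384) .dd)))))) (.br (nat_lit 6) (.br (nat_lit 4) (.ch
 (nat_lit 3) (.ev (nat_lit 768) (nat_lit 16448) (.fin (nat_lit 576577850636190107)))) (.ch (nat_lit 4) (.nd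
 (nat_lit 2144) (.br (nat_lit 6) (.br (nat_lit 4) (.ch (nat_lit 1) (.ev (nat_lit 2324) (nat_lit 16384) (.ev
 (nat_lit 5780) (nat_lit 8192) (.nd (nat_lit 6752) (.br (nat_lit 4) (.ch (nat_lit 0) (.ev (nat_lit 6768)
 (nat_lit 64) (.ev (nat_lit 6781) (nat_lit 8) .dd))) (.br (nat_lit 8) (.ch (nat_lit 4) (.fin (nat_lit
 576395331355755110))) (.ch (nat_lit 8) (.ev (nat_lit 6768) (nat_lit 64) (.ev (nat_lit 6781) (nat_lit 8)
 .dd))))))))) (.br (nat_lit 5) (.ch (nat_lit 4) (.ev (nat_lit 2160) (nat_lit 16392) (.fin (nat_lit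
 576462401575535161)))) (.ch (nat_lit 5) (.ev (nat_lit 2160) (nat_lit 24576) (.ev (nat_lit 2340) (nat_lit 64)
 (.ev (nat_lit 2349) (nat_lit 8) .dd)))))) (.br (nat_lit 8) (.br (nat_lit 7) (.ch (nat_lit 6) (.ev (nat_lit
 2160) (nat_lit 8256) (.ev (nat_lit 2628) (nat_lit 8) (.ev (nat_lit 2637) (nat_lit 16384) .dd)))) (.ch (nat_lit
 7) (.ev (nat_lit 2160) (nat_lit 8256) (.ev (nat_lit 2436) (nat_lit 8) (.ev (nat_lit 2445) (nat_lit 16384)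
 .dd))))) (.br (nat_lit 10) (.ch (nat_lit 8) (.ev (nat_lit 2160) (nat_lit 8200) (.ev (nat_lit 2324) (nat_lit
 16384) (.ev (nat_lit 2333) (nat_lit 64) .dd)))) (.ch (nat_lit 10) (.ev (nat_lit 2160) (nat_lit 8192) (.ev
 (nat_lit 2324) (nat_lit 16384) (.ev (nat_lit 2436) (nat_lit 8) (.ev (nat_lit 2445) (nat_lit 64) .dd)))))))))))
 (.br (nat_lit 11) (.ch (nat_lit 6) (.ev (nat_lit 768) (nat_lit 8192) (.ev (nat_lit 996) (nat_lit 16384) (.ev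
 (nat_lit 1092) (nat_lit 64) (.ev (nat_lit 1101) (nat_lit 8) .dd))))) (.ch (nat_lit 11) (.ev (nat_lit 948)
 (nat_lit 8) (.ev (nat_lit 1508) (nat_lit 16384) (.nd (nat_lit 5280) (.br (nat_lit 8) (.ch (nat_lit 1) (.ev
 (nat_lit 5296) (nat_lit 8192) (.ev (nat_lit 5309) (nat_lit 64) .dd))) (.br (nat_lit 12) (.ch (nat_lit 8) (.fin
 (nat_lit 576239200736068401))) (.ch (nat_lit 12) (.ev (nat_lit 5296) (nat_lit 8256) .dd))))))))))))))) (.br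
 (nat_lit 11) (.ch (nat_lit 9) (.ev (nat_lit 288) (nat_lit 20552) (.ev (nat_lit 301) (nat_lit 8192) .dd))) (.br
 (nat_lit 12) (.ch (nat_lit 11) (.ev (nat_lit 288) (nat_lit 16384) (.nd (nat_lit 848) (.br (nat_lit 6) (.br
 (nat_lit 4) (.ch (nat_lit 2) (.ev (nat_lit 864) (nat_lit 8192) (.ev (nat_lit 932) (nat_lit 4096) (.ev (nat_lit
 1556) (nat_lit 8) (.ev (nat_lit 1565) (nat_lit 64) .dd))))) (.br (nat_lit 5) (.ch (nat_lit 4) (.nd (nat_lit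
 2784) (.br (nat_lit 8) (.br (nat_lit 1) (.ch (nat_lit 0) (.ev (nat_lit 2800) (nat_lit 12288) (.ev (nat_lit
 2820) (nat_lit 64) (.ev (nat_lit 2829) (nat_lit 8) .dd)))) (.br (nat_lit 4) (.ch (nat_lit 1) (.ev (nat_lit
 2800) (nat_lit 4160) (.ev (nat_lit 3764) (nat_lit 8) (.ev (nat_lit 3773) (nat_lit 8192) .dd)))) (.ch (nat_lit
 4) (.ev (nat_lit 3028) (nat_lit 8) (.ev (nat_lit 5620) (nat_lit 4096) (.nd (nat_lit 7696) (.br (nat_lit 7)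
 (.ch (nat_lit 3) (.ev (nat_lit 7712) (nat_lit 8192) (.ev (nat_lit 7725) (nat_lit 64) .dd))) (.br (nat_lit 12)
 (.ch (nat_lit 7) (.fin (nat_lit 576276584505754247))) (.ch (nat_lit 12) (.ev (nat_lit 7712) (nat_lit 8192)
 (.ev (nat_lit 7725) (nat_lit 64) .dd))))))))))) (.br (nat_lit 11) (.br (nat_lit 10) (.ch (nat_lit 8) (.ev
 (nat_lit 2800) (nat_lit 8192) (.ev (nat_lit 3028) (nat_lit 8) (.ev (nat_lit 4356) (nat_lit 64) (.ev (nat_lit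
 4365) (nat_lit 4096) .dd))))) (.ch (nat_lit 10) (.ev (nat_lit 2800) (nat_lit 8256) (.ev (nat_lit 2932)
 (nat_lit 4096) (.ev (nat_lit 2941) (nat_lit 8) .dd))))) (.br (nat_lit 12) (.ch (nat_lit 11) (.ev (nat_lit
 2800) (nat_lit 8200) (.ev (nat_lit 4100) (nat_lit 4096) (.ev (nat_lit 4109) (nat_lit 64) .dd)))) (.ch (nat_lit
 12) (.ev (nat_lit 2800) (nat_lit 8200) (.ev (nat_lit 2932) (nat_lit 4096) (.ev (nat_lit 2941) (nat_lit 64)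
 .dd))))))))) (.ch (nat_lit 5) (.ev (nat_lit 864) (nat_lit 4104) (.ev (nat_lit 884) (nat_lit 64) (.ev (nat_lit
 893) (nat_lit 8192) .dd)))))) (.br (nat_lit 8) (.br (nat_lit 7) (.ch (nat_lit 6) (.ev (nat_lit 864) (nat_lit
 72) (.ev (nat_lit 3908) (nat_lit 4096) (.ev (nat_lit 3917) (nat_lit 8192) .dd)))) (.ch (nat_lit 7) (.ev
 (nat_lit 864) (nat_lit 4160) (.fin (nat_lit 576514078687052378))))) (.br (nat_lit 10) (.ch (nat_lit 8) (.ev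
 (nat_lit 864) (nat_lit 8192) (.ev (nat_lit 1252) (nat_lit 8) (.nd (nat_lit 3088) (.br (nat_lit 5) (.br
 (nat_lit 3) (.ch (nat_lit 0) (.fin (nat_lit 576470098215649922))) (.ch (nat_lit 3) (.ev (nat_lit 3124)
 (nat_lit 64) (.ev (nat_lit 3133) (nat_lit 4096) .dd)))) (.br (nat_lit 6) (.ch (nat_lit 5) (.ev (nat_lit 3104)
 (nat_lit 4096) (.ev (nat_lit 3117) (nat_lit 64) .dd))) (.ch (nat_lit 6) (.ev (nat_lit 3124) (nat_lit 64) (.ev
 (nat_lit 3133) (nat_lit 4096) .dd))))))))) (.ch (nat_lit 10) (.ev (nat_lit 1252) (nat_lit 8) (.ev (nat_lit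
 1492) (nat_lit 8192) (.nd (nat_lit 3632) (.br (nat_lit 7) (.ch (nat_lit 0) (.ev (nat_lit 3648) (nat_lit 64)
 (.ev (nat_lit 3661) (nat_lit 4096) .dd))) (.br (nat_lit 9) (.ch (nat_lit 7) (.ev (nat_lit 3668) (nat_lit 64)
 (.ev (nat_lit 3677) (nat_lit 4096) .dd))) (.ch (nat_lit 9) (.fin (nat_lit 577147396990385610)))))))))))))))
 (.ch (nat_lit 12) (.ev (nat_lit 288) (nat_lit 8264) (.nd (nat_lit 1632) (.br (nat_lit 10) (.ch (nat_lit 8)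
 (.fin (nat_lit 576442610354700848))) (.br (nat_lit 11) (.ch (nat_lit 10) (.ev (nat_lit 1648) (nat_lit 4096)
 (.ev (nat_lit 1661) (nat_lit 16384) .dd))) (.ch (nat_lit 11) (.ev (nat_lit 1716) (nat_lit 4096) (.ev (nat_lit
 1725) (nat_lit 16384) .dd)))))))))))))))))))))

/-- The trie. -/
noncomputable def T : Tr := .nd (nat_lit 1000000) (.br (nat_lit 3) (.br (nat_lit 1) (.ch (nat_lit 0) (.ev
 (nat_lit 0) (nat_lit 131071) .dd)) (.br (nat_lit 2) (.ch (nat_lit 1) (.ev (nat_lit 0) (nat_lit 131071) .dd))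
 (.ch (nat_lit 2) T2))) (.br (nat_lit 4) (.ch (nat_lit 3) (.ev (nat_lit 0) (nat_lit 131071) .dd)) (.br (nat_lit
 5) (.ch (nat_lit 4) T4) (.ch (nat_lit 5) T5))))

/-- The possible values. -/
noncomputable def oks : List ℕ := [3, 10, 74, 79, 82, 90, 114, 133, 194, 394, 719, 963, 1882, 3394, 3786, 4954, 5106, 14218, 14810, 18346, 19594, 54610, 148906, 336996, 403738, 407410, 1025554, 5395114]

/-- The parameters. -/
noncomputable def S : Pr := ⟨fun i l e => lget mz (lget [] (lget [] tabs i) l) e, oks, [(nat_lit 0), (nat_lit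
 0), (nat_lit 0), (nat_lit 0), (nat_lit 0), (nat_lit 0), (nat_lit 0)], T, (nat_lit 131071), (nat_lit 98583),
 (nat_lit 17), [(nat_lit 11)], [(nat_lit 62748517)]⟩

/-- Nothing known. -/
noncomputable def cs0 : Cs := (.cons (nat_lit 13) (nat_lit 0) (nat_lit 1) .nil)

theorem part_2 : part S cs0 (nat_lit 2) = true := by decide +kernel

theorem part_4 : part S cs0 (nat_lit 4) = true := by decide +kernel

theorem part_5 : part S cs0 (nat_lit 5) = true := by decide +kernel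

/-- Data of a prime. -/
noncomputable def D0 : PD := ⟨(nat_lit 13), (nat_lit 7), (36519497, 6, 3), (7858013, 8863596, 39174658), (3718172, 47513601, 39896143)⟩

theorem D0_ok : D0.Ok := pdb_sound (s := 2) (C := ⟨⟨3, 18, -4, -17, 2, 1, 2, -1, -7⟩, (3, 9, 2)⟩) (by show Nat.Prime 13; norm_num) (by decide +kernel)

/-- Lines of the first type. -/
noncomputable def Cl0 : List C1 := [⟨⟨17, -2, -16, 3, 18, 1, -2, 1, -5⟩, (10, 1, 8)⟩,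
  ⟨⟨3, -18, -4, -17, -2, 1, 2, 1, -7⟩, (5, 2, 12)⟩,
  ⟨⟨0, 0, 0, 0, 0, 0, 0, 0, 0⟩, (0, 0, 0)⟩,
  ⟨⟨17, 2, -16, 3, -18, 1, -2, -1, -5⟩, (8, 6, 9)⟩,
  ⟨⟨0, 0, 0, 0, 0, 0, 0, 0, 0⟩, (0, 0, 0)⟩,
  ⟨⟨0, 0, 0, 0, 0, 0, 0, 0, 0⟩, (0, 0, 0)⟩,
  ⟨⟨0, 0, 0, 0, 0, 0, 0, 0, 0⟩, (0, 0, 0)⟩,
  ⟨⟨0, 0, 0, 0, 0, 0, 0, 0, 0⟩, (0, 0, 0)⟩,
  ⟨⟨0, 0, 0, 0, 0, 0, 0, 0, 0⟩, (0, 0, 0)⟩,
  ⟨⟨0, 0, 0, 0, 0, 0, 0, 0, 0⟩, (0, 0, 0)⟩,
  ⟨⟨0, 0, 0, 0, 0, 0, 0, 0, 0⟩, (0, 0, 0)⟩,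
  ⟨⟨0, 0, 0, 0, 0, 0, 0, 0, 0⟩, (0, 0, 0)⟩,
  ⟨⟨0, 0, 0, 0, 0, 0, 0, 0, 0⟩, (0, 0, 0)⟩]

/-- Data of a prime. -/
noncomputable def Dm : PD := ⟨(nat_lit 17), (nat_lit 2), (154, 6, 5), (89, 107, 202), (117, 260, 284)⟩

theorem Dm_ok : Dm.Ok := pdb_sound (s := 3) (C := ⟨⟨3, 18, -19, -23, -2, 4, 2, -5, -7⟩, (3, 11, 2)⟩) (by show Nat.Prime 17; norm_num) (by decide +kernel)

/-- Lines of the first type. -/
noncomputable def Clm : List C1 := [⟨⟨23, 2, -19, 3, 18, 16, -2, 5, -5⟩, (14, 7, 1)⟩,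
  ⟨⟨3, -18, -19, -23, 2, 4, 2, 5, -7⟩, (1, 15, 12)⟩,
  ⟨⟨-13, 2, -16, -7, 22, 11, 6, 3, -7⟩, (14, 1, 4)⟩,
  ⟨⟨0, 0, 0, 0, 0, 0, 0, 0, 0⟩, (0, 0, 0)⟩,
  ⟨⟨-13, -2, -16, -7, -22, 11, 6, -3, -7⟩, (16, 6, 7)⟩,
  ⟨⟨0, 0, 0, 0, 0, 0, 0, 0, 0⟩, (0, 0, 0)⟩,
  ⟨⟨0, 0, 0, 0, 0, 0, 0, 0, 0⟩, (0, 0, 0)⟩,
  ⟨⟨0, 0, 0, 0, 0, 0, 0, 0, 0⟩, (0, 0, 0)⟩,
  ⟨⟨13, 2, -29, 7, 22, 4, -6, 3, -1⟩, (9, 14, 5)⟩,
  ⟨⟨0, 0, 0, 0, 0, 0, 0, 0, 0⟩, (0, 0, 0)⟩,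
  ⟨⟨0, 0, 0, 0, 0, 0, 0, 0, 0⟩, (0, 0, 0)⟩,
  ⟨⟨0, 0, 0, 0, 0, 0, 0, 0, 0⟩, (0, 0, 0)⟩,
  ⟨⟨0, 0, 0, 0, 0, 0, 0, 0, 0⟩, (0, 0, 0)⟩,
  ⟨⟨0, 0, 0, 0, 0, 0, 0, 0, 0⟩, (0, 0, 0)⟩,
  ⟨⟨0, 0, 0, 0, 0, 0, 0, 0, 0⟩, (0, 0, 0)⟩,
  ⟨⟨23, -2, -19, 3, -18, 16, -2, -5, -5⟩, (16, 8, 6)⟩,
  ⟨⟨13, -2, -29, 7, -22, 4, -6, -3, -1⟩, (11, 2, 8)⟩]

/-- Unit moves. -/
noncomputable def U : List Mv := [mz,
  mz,
  mz,
  mz,
  mz,
  mz,
  ⟨⟨-1, 0, 1, 0, 1, 0, 0, 0, 1⟩, .nil, (nat_lit 12), (nat_lit 1), (nat_lit 4), (nat_lit 1), (0, 0, 0), [], 5⟩,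
  ⟨⟨1, 0, 0, 0, -1, 0, 0, 0, 1⟩, .nil, (nat_lit 12), (nat_lit 3), (nat_lit 12), (nat_lit 1), (0, 0, 0), [], 11⟩,
  ⟨⟨-1, 0, 1, 0, -1, 0, 0, 0, 1⟩, .nil, (nat_lit 0), (nat_lit 3), (nat_lit 1), (nat_lit 0), (0, 0, 0), [], 10⟩,
  ⟨⟨1, 0, 0, 0, -1, 0, 0, 0, 1⟩, .nil, (nat_lit 12), (nat_lit 3), (nat_lit 12), (nat_lit 1), (0, 0, 0), [], 11⟩,
  ⟨⟨-1, 0, 1, 0, 1, 0, 0, 0, 1⟩, .nil, (nat_lit 12), (nat_lit 1), (nat_lit 4), (nat_lit 1), (0, 0, 0), [], 5⟩,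
  ⟨⟨-1, 0, 1, 0, -1, 0, 0, 0, 1⟩, .nil, (nat_lit 0), (nat_lit 3), (nat_lit 1), (nat_lit 0), (0, 0, 0), [], 10⟩,
  ⟨⟨1, 0, 0, 0, -1, 0, 0, 0, 1⟩, .nil, (nat_lit 12), (nat_lit 3), (nat_lit 12), (nat_lit 1), (0, 0, 0), [], 11⟩]

theorem v_ty : tyb Dm S.ty1 Clm = true := by decide +kernel

theorem v_ty0 : tyb D0 (S.tys.getD 0 0) Cl0 = true := by decide +kernel

theorem v_msc : mscb S D0 [] Dm (nat_lit 52) = true := by decide +kernel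

theorem v_mv0 : mvsn (nat_lit 18134321413) S D0 [] Dm (nat_lit 52) 0 D0 = true := by decide +kernel

theorem v_mm : mmsn (nat_lit 18134321413) S D0 [] Dm (nat_lit 52) = true := by decide +kernel

theorem v_un : unb S D0 (nat_lit 52) U = true := by decide +kernel

theorem v_ok : okb S.oks [(0, 0, 0), (0, 0, 0), (0, 0, 0), (0, 0, 0), (0, 0, 0), (0, 0, 0), (0, 0, 0), (0, 0,
 0), (0, 0, 0), (0, 0, 0), (15, 22, 1), (13, 28, 1), (0, 0, 0), (0, 0, 0), (0, 0, 0), (0, 0, 0), (0, 0, 0), (0,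
 0, 0), (0, 0, 0), (0, 0, 0), (0, 0, 0), (0, 0, 0), (0, 0, 0), (0, 0, 0), (0, 0, 0), (0, 0, 0), (0, 0, 0), (0,
 0, 0)] = true := by decide +kernel

theorem v_part : ∀ d < D0.p, (nat_lit 52).testBit d = true → part S (zc (D0 :: [])) d = true := by
  intro d hd h
  have h1 : ∀ d < 13, (nat_lit 52).testBit d = true → d = 2 ∨ d = 4 ∨ d = 5 := by decide
  rcases h1 d hd h with rfl | rfl | rfl
  · exact part_2
  · exact part_4
  · exact part_5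

theorem main (n : ℕ) (ho : Odd n) (hr : ¬ Rep n) (h0 : Split 13 n) (hm : Split 17 n) :
    n ∈ EE := by
  refine concln (W := nat_lit 18134321413) (S := S) (P0 := D0) (Pl := []) (Pm := Dm) (cn := nat_lit 52) ?_ Dm_ok v_ty ?_ ?_ v_msc ?_ v_mm v_un v_part v_ok
    n ho hr ?_ hm
  · simp only [List.forall_mem_cons]
    exact ⟨D0_ok, fun _ h => absurd h (by simp)⟩
  · exact all1 (φ := fun j P => ∃ L, tyb P (S.tys.getD j 0) L = true) ⟨_, v_ty0⟩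
  · exact all1 (φ := fun j P => Nat.ble (S.pks.getD j 0) (Nat.pow P.p P.K) = true) (by decide +kernel)
  · exact all1 (φ := fun i P => mvsn (nat_lit 18134321413) S D0 [] Dm (nat_lit 52) i P = true) v_mv0
  · simp only [List.forall_mem_cons]
    exact ⟨h0, fun _ h => absurd h (by simp)⟩

end Pool.Agent.Work.MP_9954fe_nt.P13_17

namespace Pool.Agent.Work.MP_9954fe_nt.P19_47_43

/-- Dummy move. -/
noncomputable def mz : Mv := ⟨⟨0, 0, 0, 0, 0, 0, 0, 0, 0⟩, .nil, (nat_lit 0), (nat_lit 0), (nat_lit 0), (nat_lit 0), (0, 0, 0), [], 0⟩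

/-- Moves. -/
noncomputable def t0_1 : List Mv := [
  ⟨⟨15, -4, -23, -10, 9, -10, 12, 12, -7⟩, (.cons (nat_lit 177) (nat_lit 313) (nat_lit 238) (nat_lit 1) (.cons
 (nat_lit 147) (nat_lit 660) (nat_lit 291) (nat_lit 1) .nil)), (nat_lit 41), (nat_lit 8), (nat_lit 7), (nat_lit
 1), (18, 7, 3), [49, 712], 16⟩,
  ⟨⟨15, -4, -23, 10, -9, 10, 12, 12, -7⟩, (.cons (nat_lit 317) (nat_lit 293) (nat_lit 1) (nat_lit 190) (.cons
 (nat_lit 800) (nat_lit 1713) (nat_lit 2071) (nat_lit 1) .nil)), (nat_lit 1), (nat_lit 37), (nat_lit 32),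
 (nat_lit 1), (18, 12, 3), [350, 1883], 31⟩,
  ⟨⟨15, -4, -23, -10, 9, -10, 12, 12, -7⟩, (.cons (nat_lit 177) (nat_lit 313) (nat_lit 238) (nat_lit 1) (.cons
 (nat_lit 147) (nat_lit 660) (nat_lit 291) (nat_lit 1) .nil)), (nat_lit 41), (nat_lit 8), (nat_lit 7), (nat_lit
 1), (18, 7, 3), [49, 712], 16⟩,
  ⟨⟨15, -4, -23, -10, 9, -10, 12, 12, -7⟩, (.cons (nat_lit 177) (nat_lit 313) (nat_lit 238) (nat_lit 1) (.cons
 (nat_lit 147) (nat_lit 660) (nat_lit 291) (nat_lit 1) .nil)), (nat_lit 41), (nat_lit 8), (nat_lit 7), (nat_lit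
 1), (18, 7, 3), [49, 712], 16⟩,
  ⟨⟨-3, 16, 16, 10, -9, 10, 12, 12, -7⟩, (.cons (nat_lit 235) (nat_lit 147) (nat_lit 254) (nat_lit 1) (.cons
 (nat_lit 2208) (nat_lit 2094) (nat_lit 1460) (nat_lit 1) .nil)), (nat_lit 42), (nat_lit 6), (nat_lit 32),
 (nat_lit 1), (4, 12, 3), [80, 285], 31⟩,
  ⟨⟨15, -4, -23, -10, 9, -10, 12, 12, -7⟩, (.cons (nat_lit 177) (nat_lit 313) (nat_lit 238) (nat_lit 1) (.cons
 (nat_lit 147) (nat_lit 660) (nat_lit 291) (nat_lit 1) .nil)), (nat_lit 41), (nat_lit 8), (nat_lit 7), (nat_lit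
 1), (18, 7, 3), [49, 712], 16⟩,
  ⟨⟨15, -4, -23, 10, -9, 10, 12, 12, -7⟩, (.cons (nat_lit 317) (nat_lit 293) (nat_lit 1) (nat_lit 190) (.cons
 (nat_lit 800) (nat_lit 1713) (nat_lit 2071) (nat_lit 1) .nil)), (nat_lit 1), (nat_lit 37), (nat_lit 32),
 (nat_lit 1), (18, 12, 3), [350, 1883], 31⟩,
  ⟨⟨-3, 16, 16, -10, 9, -10, 12, 12, -7⟩, (.cons (nat_lit 296) (nat_lit 76) (nat_lit 194) (nat_lit 1) (.cons
 (nat_lit 1498) (nat_lit 515) (nat_lit 244) (nat_lit 1) .nil)), (nat_lit 2), (nat_lit 35), (nat_lit 7),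
 (nat_lit 1), (4, 7, 3), [8, 2075], 16⟩,
  ⟨⟨15, -4, -23, -10, 9, -10, 12, 12, -7⟩, (.cons (nat_lit 177) (nat_lit 313) (nat_lit 238) (nat_lit 1) (.cons
 (nat_lit 147) (nat_lit 660) (nat_lit 291) (nat_lit 1) .nil)), (nat_lit 41), (nat_lit 8), (nat_lit 7), (nat_lit
 1), (18, 7, 3), [49, 712], 16⟩,
  ⟨⟨15, -4, -23, -10, 9, -10, 12, 12, -7⟩, (.cons (nat_lit 177) (nat_lit 313) (nat_lit 238) (nat_lit 1) (.cons
 (nat_lit 147) (nat_lit 660) (nat_lit 291) (nat_lit 1) .nil)), (nat_lit 41), (nat_lit 8), (nat_lit 7), (nat_lit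
 1), (18, 7, 3), [49, 712], 16⟩,
  ⟨⟨15, -4, -23, -10, 9, -10, 12, 12, -7⟩, (.cons (nat_lit 177) (nat_lit 313) (nat_lit 238) (nat_lit 1) (.cons
 (nat_lit 147) (nat_lit 660) (nat_lit 291) (nat_lit 1) .nil)), (nat_lit 41), (nat_lit 8), (nat_lit 7), (nat_lit
 1), (18, 7, 3), [49, 712], 16⟩,
  ⟨⟨-3, 16, 16, -10, 9, -10, 12, 12, -7⟩, (.cons (nat_lit 296) (nat_lit 76) (nat_lit 194) (nat_lit 1) (.cons
 (nat_lit 1498) (nat_lit 515) (nat_lit 244) (nat_lit 1) .nil)), (nat_lit 2), (nat_lit 35), (nat_lit 7),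
 (nat_lit 1), (4, 7, 3), [8, 2075], 16⟩,
  ⟨⟨15, -4, -23, 10, -9, 10, 12, 12, -7⟩, (.cons (nat_lit 317) (nat_lit 293) (nat_lit 1) (nat_lit 190) (.cons
 (nat_lit 800) (nat_lit 1713) (nat_lit 2071) (nat_lit 1) .nil)), (nat_lit 1), (nat_lit 37), (nat_lit 32),
 (nat_lit 1), (18, 12, 3), [350, 1883], 31⟩,
  ⟨⟨15, -4, -23, -10, 9, -10, 12, 12, -7⟩, (.cons (nat_lit 177) (nat_lit 313) (nat_lit 238) (nat_lit 1) (.cons
 (nat_lit 147) (nat_lit 660) (nat_lit 291) (nat_lit 1) .nil)), (nat_lit 41), (nat_lit 8), (nat_lit 7), (nat_lit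
 1), (18, 7, 3), [49, 712], 16⟩,
  ⟨⟨15, -4, -23, -10, 9, -10, 12, 12, -7⟩, (.cons (nat_lit 177) (nat_lit 313) (nat_lit 238) (nat_lit 1) (.cons
 (nat_lit 147) (nat_lit 660) (nat_lit 291) (nat_lit 1) .nil)), (nat_lit 41), (nat_lit 8), (nat_lit 7), (nat_lit
 1), (18, 7, 3), [49, 712], 16⟩,
  ⟨⟨-3, 16, 16, -10, 9, -10, 12, 12, -7⟩, (.cons (nat_lit 296) (nat_lit 76) (nat_lit 194) (nat_lit 1) (.cons
 (nat_lit 1498) (nat_lit 515) (nat_lit 244) (nat_lit 1) .nil)), (nat_lit 2), (nat_lit 35), (nat_lit 7),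
 (nat_lit 1), (4, 7, 3), [8, 2075], 16⟩,
  ⟨⟨15, -4, -23, -10, 9, -10, 12, 12, -7⟩, (.cons (nat_lit 177) (nat_lit 313) (nat_lit 238) (nat_lit 1) (.cons
 (nat_lit 147) (nat_lit 660) (nat_lit 291) (nat_lit 1) .nil)), (nat_lit 41), (nat_lit 8), (nat_lit 7), (nat_lit
 1), (18, 7, 3), [49, 712], 16⟩,
  ⟨⟨15, -4, -23, -10, 9, -10, 12, 12, -7⟩, (.cons (nat_lit 177) (nat_lit 313) (nat_lit 238) (nat_lit 1) (.cons
 (nat_lit 147) (nat_lit 660) (nat_lit 291) (nat_lit 1) .nil)), (nat_lit 41), (nat_lit 8), (nat_lit 7), (nat_lit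
 1), (18, 7, 3), [49, 712], 16⟩,
  ⟨⟨-3, 16, 16, 10, -9, 10, 12, 12, -7⟩, (.cons (nat_lit 235) (nat_lit 147) (nat_lit 254) (nat_lit 1) (.cons
 (nat_lit 2208) (nat_lit 2094) (nat_lit 1460) (nat_lit 1) .nil)), (nat_lit 42), (nat_lit 6), (nat_lit 32),
 (nat_lit 1), (4, 12, 3), [80, 285], 31⟩]

/-- Moves. -/
noncomputable def t0_2 : List Mv := [
  ⟨⟨-11, 12, 20, 16, 5, 2, -2, 16, -5⟩, (.cons (nat_lit 131) (nat_lit 154) (nat_lit 242) (nat_lit 1) (.cons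
 (nat_lit 159) (nat_lit 2000) (nat_lit 1791) (nat_lit 1) .nil)), (nat_lit 23), (nat_lit 7), (nat_lit 29),
 (nat_lit 1), (15, 11, 1), [46, 2102], 20⟩,
  ⟨⟨9, 4, -25, -16, -5, -2, -2, 16, -5⟩, (.cons (nat_lit 274) (nat_lit 291) (nat_lit 265) (nat_lit 1) (.cons
 (nat_lit 574) (nat_lit 1177) (nat_lit 919) (nat_lit 1) .nil)), (nat_lit 33), (nat_lit 13), (nat_lit 34),
 (nat_lit 1), (5, 8, 1), [52, 800], 12⟩,
  ⟨⟨9, 4, -25, 16, 5, 2, -2, 16, -5⟩, (.cons (nat_lit 314) (nat_lit 176) (nat_lit 235) (nat_lit 1) (.cons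
 (nat_lit 1580) (nat_lit 1807) (nat_lit 616) (nat_lit 1) .nil)), (nat_lit 20), (nat_lit 36), (nat_lit 29),
 (nat_lit 1), (5, 11, 1), [253, 1068], 20⟩,
  ⟨⟨9, 4, -25, -16, -5, -2, -2, 16, -5⟩, (.cons (nat_lit 274) (nat_lit 291) (nat_lit 265) (nat_lit 1) (.cons
 (nat_lit 574) (nat_lit 1177) (nat_lit 919) (nat_lit 1) .nil)), (nat_lit 33), (nat_lit 13), (nat_lit 34),
 (nat_lit 1), (5, 8, 1), [52, 800], 12⟩,
  ⟨⟨9, 4, -25, -16, -5, -2, -2, 16, -5⟩, (.cons (nat_lit 274) (nat_lit 291) (nat_lit 265) (nat_lit 1) (.cons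
 (nat_lit 574) (nat_lit 1177) (nat_lit 919) (nat_lit 1) .nil)), (nat_lit 33), (nat_lit 13), (nat_lit 34),
 (nat_lit 1), (5, 8, 1), [52, 800], 12⟩,
  ⟨⟨9, 4, -25, 16, 5, 2, -2, 16, -5⟩, (.cons (nat_lit 314) (nat_lit 176) (nat_lit 235) (nat_lit 1) (.cons
 (nat_lit 1580) (nat_lit 1807) (nat_lit 616) (nat_lit 1) .nil)), (nat_lit 20), (nat_lit 36), (nat_lit 29),
 (nat_lit 1), (5, 11, 1), [253, 1068], 20⟩,
  ⟨⟨-11, 12, 20, 16, 5, 2, -2, 16, -5⟩, (.cons (nat_lit 131) (nat_lit 154) (nat_lit 242) (nat_lit 1) (.cons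
 (nat_lit 159) (nat_lit 2000) (nat_lit 1791) (nat_lit 1) .nil)), (nat_lit 23), (nat_lit 7), (nat_lit 29),
 (nat_lit 1), (15, 11, 1), [46, 2102], 20⟩,
  ⟨⟨-11, 12, 20, -16, -5, -2, -2, 16, -5⟩, (.cons (nat_lit 108) (nat_lit 314) (nat_lit 59) (nat_lit 1) (.cons
 (nat_lit 930) (nat_lit 2207) (nat_lit 1859) (nat_lit 1) .nil)), (nat_lit 10), (nat_lit 30), (nat_lit 34),
 (nat_lit 1), (15, 8, 1), [7, 48], 12⟩,
  ⟨⟨9, 4, -25, -16, -5, -2, -2, 16, -5⟩, (.cons (nat_lit 274) (nat_lit 291) (nat_lit 265) (nat_lit 1) (.cons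
 (nat_lit 574) (nat_lit 1177) (nat_lit 919) (nat_lit 1) .nil)), (nat_lit 33), (nat_lit 13), (nat_lit 34),
 (nat_lit 1), (5, 8, 1), [52, 800], 12⟩,
  ⟨⟨9, 4, -25, -16, -5, -2, -2, 16, -5⟩, (.cons (nat_lit 274) (nat_lit 291) (nat_lit 265) (nat_lit 1) (.cons
 (nat_lit 574) (nat_lit 1177) (nat_lit 919) (nat_lit 1) .nil)), (nat_lit 33), (nat_lit 13), (nat_lit 34),
 (nat_lit 1), (5, 8, 1), [52, 800], 12⟩,
  ⟨⟨9, 4, -25, -16, -5, -2, -2, 16, -5⟩, (.cons (nat_lit 274) (nat_lit 291) (nat_lit 265) (nat_lit 1) (.cons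
 (nat_lit 574) (nat_lit 1177) (nat_lit 919) (nat_lit 1) .nil)), (nat_lit 33), (nat_lit 13), (nat_lit 34),
 (nat_lit 1), (5, 8, 1), [52, 800], 12⟩,
  ⟨⟨9, 4, -25, -16, -5, -2, -2, 16, -5⟩, (.cons (nat_lit 274) (nat_lit 291) (nat_lit 265) (nat_lit 1) (.cons
 (nat_lit 574) (nat_lit 1177) (nat_lit 919) (nat_lit 1) .nil)), (nat_lit 33), (nat_lit 13), (nat_lit 34),
 (nat_lit 1), (5, 8, 1), [52, 800], 12⟩,
  ⟨⟨9, 4, -25, -16, -5, -2, -2, 16, -5⟩, (.cons (nat_lit 274) (nat_lit 291) (nat_lit 265) (nat_lit 1) (.cons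
 (nat_lit 574) (nat_lit 1177) (nat_lit 919) (nat_lit 1) .nil)), (nat_lit 33), (nat_lit 13), (nat_lit 34),
 (nat_lit 1), (5, 8, 1), [52, 800], 12⟩,
  ⟨⟨-11, 12, 20, -16, -5, -2, -2, 16, -5⟩, (.cons (nat_lit 108) (nat_lit 314) (nat_lit 59) (nat_lit 1) (.cons
 (nat_lit 930) (nat_lit 2207) (nat_lit 1859) (nat_lit 1) .nil)), (nat_lit 10), (nat_lit 30), (nat_lit 34),
 (nat_lit 1), (15, 8, 1), [7, 48], 12⟩,
  ⟨⟨9, 4, -25, -16, -5, -2, -2, 16, -5⟩, (.cons (nat_lit 274) (nat_lit 291) (nat_lit 265) (nat_lit 1) (.cons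
 (nat_lit 574) (nat_lit 1177) (nat_lit 919) (nat_lit 1) .nil)), (nat_lit 33), (nat_lit 13), (nat_lit 34),
 (nat_lit 1), (5, 8, 1), [52, 800], 12⟩,
  ⟨⟨9, 4, -25, 16, 5, 2, -2, 16, -5⟩, (.cons (nat_lit 314) (nat_lit 176) (nat_lit 235) (nat_lit 1) (.cons
 (nat_lit 1580) (nat_lit 1807) (nat_lit 616) (nat_lit 1) .nil)), (nat_lit 20), (nat_lit 36), (nat_lit 29),
 (nat_lit 1), (5, 11, 1), [253, 1068], 20⟩,
  ⟨⟨-11, 12, 20, -16, -5, -2, -2, 16, -5⟩, (.cons (nat_lit 108) (nat_lit 314) (nat_lit 59) (nat_lit 1) (.cons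
 (nat_lit 930) (nat_lit 2207) (nat_lit 1859) (nat_lit 1) .nil)), (nat_lit 10), (nat_lit 30), (nat_lit 34),
 (nat_lit 1), (15, 8, 1), [7, 48], 12⟩,
  ⟨⟨9, 4, -25, -16, -5, -2, -2, 16, -5⟩, (.cons (nat_lit 274) (nat_lit 291) (nat_lit 265) (nat_lit 1) (.cons
 (nat_lit 574) (nat_lit 1177) (nat_lit 919) (nat_lit 1) .nil)), (nat_lit 33), (nat_lit 13), (nat_lit 34),
 (nat_lit 1), (5, 8, 1), [52, 800], 12⟩,
  ⟨⟨9, 4, -25, -16, -5, -2, -2, 16, -5⟩, (.cons (nat_lit 274) (nat_lit 291) (nat_lit 265) (nat_lit 1) (.cons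
 (nat_lit 574) (nat_lit 1177) (nat_lit 919) (nat_lit 1) .nil)), (nat_lit 33), (nat_lit 13), (nat_lit 34),
 (nat_lit 1), (5, 8, 1), [52, 800], 12⟩]

/-- Moves. -/
noncomputable def t0_8 : List Mv := [
  ⟨⟨17, -12, -9, -4, -5, -18, 14, 8, -13⟩, (.cons (nat_lit 67) (nat_lit 114) (nat_lit 350) (nat_lit 1) (.cons
 (nat_lit 151) (nat_lit 998) (nat_lit 1184) (nat_lit 1) .nil)), (nat_lit 33), (nat_lit 2), (nat_lit 6),
 (nat_lit 1), (9, 18, 13), [238, 1928], 12⟩,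
  ⟨⟨17, -12, -9, -4, -5, -18, 14, 8, -13⟩, (.cons (nat_lit 67) (nat_lit 114) (nat_lit 350) (nat_lit 1) (.cons
 (nat_lit 151) (nat_lit 998) (nat_lit 1184) (nat_lit 1) .nil)), (nat_lit 33), (nat_lit 2), (nat_lit 6),
 (nat_lit 1), (9, 18, 13), [238, 1928], 12⟩,
  ⟨⟨17, -12, -9, -4, -5, -18, 14, 8, -13⟩, (.cons (nat_lit 67) (nat_lit 114) (nat_lit 350) (nat_lit 1) (.cons
 (nat_lit 151) (nat_lit 998) (nat_lit 1184) (nat_lit 1) .nil)), (nat_lit 33), (nat_lit 2), (nat_lit 6),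
 (nat_lit 1), (9, 18, 13), [238, 1928], 12⟩,
  ⟨⟨-3, 20, -4, -4, -5, -18, 14, 8, -13⟩, (.cons (nat_lit 100) (nat_lit 351) (nat_lit 181) (nat_lit 1) (.cons
 (nat_lit 37) (nat_lit 83) (nat_lit 2124) (nat_lit 1) .nil)), (nat_lit 10), (nat_lit 41), (nat_lit 6), (nat_lit
 1), (4, 18, 13), [256, 1], 12⟩,
  ⟨⟨-3, 20, -4, 4, 5, 18, 14, 8, -13⟩, (.cons (nat_lit 78) (nat_lit 138) (nat_lit 1) (nat_lit 285) (.cons
 (nat_lit 1820) (nat_lit 432) (nat_lit 864) (nat_lit 1) .nil)), (nat_lit 15), (nat_lit 24), (nat_lit 38),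
 (nat_lit 1), (4, 1, 13), [71, 623], 28⟩,
  ⟨⟨17, -12, -9, -4, -5, -18, 14, 8, -13⟩, (.cons (nat_lit 67) (nat_lit 114) (nat_lit 350) (nat_lit 1) (.cons
 (nat_lit 151) (nat_lit 998) (nat_lit 1184) (nat_lit 1) .nil)), (nat_lit 33), (nat_lit 2), (nat_lit 6),
 (nat_lit 1), (9, 18, 13), [238, 1928], 12⟩,
  ⟨⟨17, -12, -9, -4, -5, -18, 14, 8, -13⟩, (.cons (nat_lit 67) (nat_lit 114) (nat_lit 350) (nat_lit 1) (.cons
 (nat_lit 151) (nat_lit 998) (nat_lit 1184) (nat_lit 1) .nil)), (nat_lit 33), (nat_lit 2), (nat_lit 6),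
 (nat_lit 1), (9, 18, 13), [238, 1928], 12⟩,
  ⟨⟨17, -12, -9, -4, -5, -18, 14, 8, -13⟩, (.cons (nat_lit 67) (nat_lit 114) (nat_lit 350) (nat_lit 1) (.cons
 (nat_lit 151) (nat_lit 998) (nat_lit 1184) (nat_lit 1) .nil)), (nat_lit 33), (nat_lit 2), (nat_lit 6),
 (nat_lit 1), (9, 18, 13), [238, 1928], 12⟩,
  ⟨⟨17, -12, -9, 4, 5, 18, 14, 8, -13⟩, (.cons (nat_lit 273) (nat_lit 128) (nat_lit 294) (nat_lit 1) (.cons
 (nat_lit 1470) (nat_lit 1965) (nat_lit 1099) (nat_lit 1) .nil)), (nat_lit 28), (nat_lit 19), (nat_lit 38),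
 (nat_lit 1), (9, 1, 13), [176, 1986], 28⟩,
  ⟨⟨17, -12, -9, -4, -5, -18, 14, 8, -13⟩, (.cons (nat_lit 67) (nat_lit 114) (nat_lit 350) (nat_lit 1) (.cons
 (nat_lit 151) (nat_lit 998) (nat_lit 1184) (nat_lit 1) .nil)), (nat_lit 33), (nat_lit 2), (nat_lit 6),
 (nat_lit 1), (9, 18, 13), [238, 1928], 12⟩,
  ⟨⟨17, -12, -9, -4, -5, -18, 14, 8, -13⟩, (.cons (nat_lit 67) (nat_lit 114) (nat_lit 350) (nat_lit 1) (.cons
 (nat_lit 151) (nat_lit 998) (nat_lit 1184) (nat_lit 1) .nil)), (nat_lit 33), (nat_lit 2), (nat_lit 6),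
 (nat_lit 1), (9, 18, 13), [238, 1928], 12⟩,
  ⟨⟨17, -12, -9, -4, -5, -18, 14, 8, -13⟩, (.cons (nat_lit 67) (nat_lit 114) (nat_lit 350) (nat_lit 1) (.cons
 (nat_lit 151) (nat_lit 998) (nat_lit 1184) (nat_lit 1) .nil)), (nat_lit 33), (nat_lit 2), (nat_lit 6),
 (nat_lit 1), (9, 18, 13), [238, 1928], 12⟩,
  ⟨⟨17, -12, -9, -4, -5, -18, 14, 8, -13⟩, (.cons (nat_lit 67) (nat_lit 114) (nat_lit 350) (nat_lit 1) (.cons
 (nat_lit 151) (nat_lit 998) (nat_lit 1184) (nat_lit 1) .nil)), (nat_lit 33), (nat_lit 2), (nat_lit 6),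
 (nat_lit 1), (9, 18, 13), [238, 1928], 12⟩,
  ⟨⟨-3, 20, -4, -4, -5, -18, 14, 8, -13⟩, (.cons (nat_lit 100) (nat_lit 351) (nat_lit 181) (nat_lit 1) (.cons
 (nat_lit 37) (nat_lit 83) (nat_lit 2124) (nat_lit 1) .nil)), (nat_lit 10), (nat_lit 41), (nat_lit 6), (nat_lit
 1), (4, 18, 13), [256, 1], 12⟩,
  ⟨⟨-3, 20, -4, 4, 5, 18, 14, 8, -13⟩, (.cons (nat_lit 78) (nat_lit 138) (nat_lit 1) (nat_lit 285) (.cons
 (nat_lit 1820) (nat_lit 432) (nat_lit 864) (nat_lit 1) .nil)), (nat_lit 15), (nat_lit 24), (nat_lit 38),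
 (nat_lit 1), (4, 1, 13), [71, 623], 28⟩,
  ⟨⟨17, -12, -9, 4, 5, 18, 14, 8, -13⟩, (.cons (nat_lit 273) (nat_lit 128) (nat_lit 294) (nat_lit 1) (.cons
 (nat_lit 1470) (nat_lit 1965) (nat_lit 1099) (nat_lit 1) .nil)), (nat_lit 28), (nat_lit 19), (nat_lit 38),
 (nat_lit 1), (9, 1, 13), [176, 1986], 28⟩,
  ⟨⟨17, -12, -9, 4, 5, 18, 14, 8, -13⟩, (.cons (nat_lit 273) (nat_lit 128) (nat_lit 294) (nat_lit 1) (.cons
 (nat_lit 1470) (nat_lit 1965) (nat_lit 1099) (nat_lit 1) .nil)), (nat_lit 28), (nat_lit 19), (nat_lit 38),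
 (nat_lit 1), (9, 1, 13), [176, 1986], 28⟩,
  ⟨⟨17, -12, -9, -4, -5, -18, 14, 8, -13⟩, (.cons (nat_lit 67) (nat_lit 114) (nat_lit 350) (nat_lit 1) (.cons
 (nat_lit 151) (nat_lit 998) (nat_lit 1184) (nat_lit 1) .nil)), (nat_lit 33), (nat_lit 2), (nat_lit 6),
 (nat_lit 1), (9, 18, 13), [238, 1928], 12⟩,
  ⟨⟨-3, 20, -4, -4, -5, -18, 14, 8, -13⟩, (.cons (nat_lit 100) (nat_lit 351) (nat_lit 181) (nat_lit 1) (.cons
 (nat_lit 37) (nat_lit 83) (nat_lit 2124) (nat_lit 1) .nil)), (nat_lit 10), (nat_lit 41), (nat_lit 6), (nat_lit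
 1), (4, 18, 13), [256, 1], 12⟩]

/-- Moves. -/
noncomputable def t1_1 : List Mv := [
  mz,
  ⟨⟨-25, 12, -36, -22, 35, 36, 20, 28, -37⟩, (.cons (nat_lit 48) (nat_lit 5) (nat_lit 206) (nat_lit 1) (.cons
 (nat_lit 1079) (nat_lit 710) (nat_lit 405) (nat_lit 1) .nil)), (nat_lit 18), (nat_lit 8), (nat_lit 33),
 (nat_lit 1), (2, 45, 36), [54, 699], 5⟩,
  ⟨⟨21, -32, -49, 2, 35, -36, -28, -20, -13⟩, (.cons (nat_lit 162) (nat_lit 177) (nat_lit 60) (nat_lit 1)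
 (.cons (nat_lit 578) (nat_lit 370) (nat_lit 1159) (nat_lit 1) .nil)), (nat_lit 25), (nat_lit 7), (nat_lit 36),
 (nat_lit 1), (33, 30, 3), [205, 1915], 5⟩,
  ⟨⟨-51, 4, 19, -2, -45, -14, -12, 12, -37⟩, (.cons (nat_lit 262) (nat_lit 173) (nat_lit 193) (nat_lit 1)
 (.cons (nat_lit 361) (nat_lit 1112) (nat_lit 790) (nat_lit 1) .nil)), (nat_lit 11), (nat_lit 41), (nat_lit 9),
 (nat_lit 1), (7, 27, 21), [337, 1146], 13⟩,
  mz,
  ⟨⟨25, -12, -61, -22, 35, -14, -20, -28, -17⟩, (.cons (nat_lit 78) (nat_lit 273) (nat_lit 13) (nat_lit 1)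
 (.cons (nat_lit 211) (nat_lit 781) (nat_lit 2056) (nat_lit 1) .nil)), (nat_lit 31), (nat_lit 41), (nat_lit 2),
 (nat_lit 1), (9, 9, 21), [326, 1791], 32⟩,
  mz,
  mz,
  mz,
  ⟨⟨-17, -48, 0, -40, 17, 0, 10, -16, -47⟩, (.cons (nat_lit 360) (nat_lit 187) (nat_lit 90) (nat_lit 1) (.cons
 (nat_lit 1515) (nat_lit 1316) (nat_lit 419) (nat_lit 1) .nil)), (nat_lit 42), (nat_lit 19), (nat_lit 13),
 (nat_lit 1), (6, 39, 2), [255, 152], 40⟩,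
  mz,
  ⟨⟨17, 48, -17, -40, 17, 40, -10, 16, -37⟩, (.cons (nat_lit 252) (nat_lit 18) (nat_lit 98) (nat_lit 1) (.cons
 (nat_lit 1779) (nat_lit 466) (nat_lit 398) (nat_lit 1) .nil)), (nat_lit 1), (nat_lit 22), (nat_lit 22),
 (nat_lit 1), (25, 2, 24), [308, 342], 40⟩,
  ⟨⟨17, -36, -45, -20, 23, -30, 38, 8, -37⟩, (.cons (nat_lit 10) (nat_lit 228) (nat_lit 312) (nat_lit 1) (.cons
 (nat_lit 570) (nat_lit 1135) (nat_lit 2077) (nat_lit 1) .nil)), (nat_lit 28), (nat_lit 13), (nat_lit 20),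
 (nat_lit 1), (19, 44, 1), [299, 178], 18⟩,
  mz,
  ⟨⟨-51, -4, 19, 2, -45, 14, -12, -12, -37⟩, (.cons (nat_lit 207) (nat_lit 336) (nat_lit 29) (nat_lit 1) (.cons
 (nat_lit 1390) (nat_lit 1499) (nat_lit 1307) (nat_lit 1) .nil)), (nat_lit 4), (nat_lit 35), (nat_lit 36),
 (nat_lit 1), (25, 11, 28), [238, 629], 36⟩,
  ⟨⟨9, 4, -61, 40, 23, -10, 22, -32, -29⟩, (.cons (nat_lit 101) (nat_lit 252) (nat_lit 181) (nat_lit 1) (.cons
 (nat_lit 892) (nat_lit 661) (nat_lit 1320) (nat_lit 1) .nil)), (nat_lit 20), (nat_lit 2), (nat_lit 13),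
 (nat_lit 1), (18, 33, 44), [269, 927], 19⟩,
  ⟨⟨-13, 36, 45, 40, 23, -30, -22, 32, -7⟩, (.cons (nat_lit 282) (nat_lit 77) (nat_lit 203) (nat_lit 1) (.cons
 (nat_lit 2015) (nat_lit 1298) (nat_lit 2026) (nat_lit 1) .nil)), (nat_lit 28), (nat_lit 14), (nat_lit 37),
 (nat_lit 1), (5, 28, 41), [236, 977], 18⟩,
  mz,
  ⟨⟨23, 0, 40, 0, -47, 0, 42, 0, -23⟩, (.cons (nat_lit 360) (nat_lit 352) (nat_lit 31) (nat_lit 1) (.cons (nat_lit 2012) (nat_lit 749) (nat_lit 728) (nat_lit 1) .nil)), (nat_lit 42), (nat_lit 4), (nat_lit 18), (nat_lit 1), (7, 0, 23), [70, 154], 9⟩,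
  ⟨⟨-39, 32, 8, -20, -33, -20, 6, 24, -41⟩, (.cons (nat_lit 129) (nat_lit 10) (nat_lit 252) (nat_lit 1) (.cons
 (nat_lit 1775) (nat_lit 303) (nat_lit 587) (nat_lit 1) .nil)), (nat_lit 9), (nat_lit 22), (nat_lit 13),
 (nat_lit 1), (25, 8, 7), [106, 1575], 33⟩,
  ⟨⟨17, -36, 28, 20, -23, -50, 38, 8, -1⟩, (.cons (nat_lit 289) (nat_lit 252) (nat_lit 326) (nat_lit 1) (.cons
 (nat_lit 1665) (nat_lit 1449) (nat_lit 1658) (nat_lit 1) .nil)), (nat_lit 23), (nat_lit 21), (nat_lit 9),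
 (nat_lit 1), (2, 30, 10), [338, 406], 24⟩,
  ⟨⟨21, 32, -49, 2, -35, -36, -28, 20, -13⟩, (.cons (nat_lit 255) (nat_lit 14) (nat_lit 224) (nat_lit 1) (.cons
 (nat_lit 333) (nat_lit 1589) (nat_lit 1486) (nat_lit 1) .nil)), (nat_lit 26), (nat_lit 21), (nat_lit 16),
 (nat_lit 1), (30, 23, 7), [329, 500], 7⟩,
  ⟨⟨-39, -32, 8, 20, -33, 20, 6, -24, -41⟩, (.cons (nat_lit 14) (nat_lit 221) (nat_lit 82) (nat_lit 1) (.cons
 (nat_lit 1041) (nat_lit 324) (nat_lit 928) (nat_lit 1) .nil)), (nat_lit 24), (nat_lit 31), (nat_lit 32),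
 (nat_lit 1), (28, 23, 21), [199, 1416], 2⟩,
  mz,
  mz,
  ⟨⟨-45, 8, -4, 20, 33, -40, -6, -24, -35⟩, (.cons (nat_lit 360) (nat_lit 94) (nat_lit 250) (nat_lit 1) (.cons
 (nat_lit 1084) (nat_lit 431) (nat_lit 1459) (nat_lit 1) .nil)), (nat_lit 42), (nat_lit 39), (nat_lit 2),
 (nat_lit 1), (40, 24, 21), [113, 1820], 28⟩,
  ⟨⟨-21, 32, -28, -2, -35, -34, 28, 20, -41⟩, (.cons (nat_lit 168) (nat_lit 73) (nat_lit 332) (nat_lit 1)
 (.cons (nat_lit 1274) (nat_lit 140) (nat_lit 1035) (nat_lit 1) .nil)), (nat_lit 17), (nat_lit 21), (nat_lit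
 27), (nat_lit 1), (30, 23, 7), [183, 41], 7⟩,
  ⟨⟨17, 36, -45, -20, -23, -30, 38, -8, -37⟩, (.cons (nat_lit 257) (nat_lit 354) (nat_lit 329) (nat_lit 1)
 (.cons (nat_lit 404) (nat_lit 600) (nat_lit 653) (nat_lit 1) .nil)), (nat_lit 39), (nat_lit 10), (nat_lit 3),
 (nat_lit 1), (45, 30, 37), [254, 403], 7⟩,
  ⟨⟨39, 32, -31, 20, -33, -40, -6, 24, -35⟩, (.cons (nat_lit 129) (nat_lit 49) (nat_lit 235) (nat_lit 1) (.cons
 (nat_lit 2004) (nat_lit 156) (nat_lit 262) (nat_lit 1) .nil)), (nat_lit 34), (nat_lit 22), (nat_lit 30),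
 (nat_lit 1), (25, 8, 7), [221, 894], 33⟩,
  ⟨⟨19, 0, 44, 0, -47, 0, 42, 0, -19⟩, (.cons (nat_lit 360) (nat_lit 92) (nat_lit 155) (nat_lit 1) (.cons
 (nat_lit 1626) (nat_lit 16) (nat_lit 1962) (nat_lit 1) .nil)), (nat_lit 42), (nat_lit 12), (nat_lit 11),
 (nat_lit 1), (31, 0, 24), [110, 1160], 27⟩,
  mz,
  ⟨⟨9, -4, -61, 40, -23, -10, 22, 32, -29⟩, (.cons (nat_lit 105) (nat_lit 23) (nat_lit 341) (nat_lit 1) (.cons
 (nat_lit 1469) (nat_lit 1394) (nat_lit 1785) (nat_lit 1) .nil)), (nat_lit 39), (nat_lit 28), (nat_lit 41),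
 (nat_lit 1), (36, 19, 41), [159, 1696], 7⟩,
  ⟨⟨-13, -36, 45, 40, -23, -30, -22, -32, -7⟩, (.cons (nat_lit 59) (nat_lit 52) (nat_lit 83) (nat_lit 1) (.cons
 (nat_lit 2007) (nat_lit 1130) (nat_lit 43) (nat_lit 1) .nil)), (nat_lit 32), (nat_lit 24), (nat_lit 33),
 (nat_lit 1), (26, 14, 44), [85, 194], 30⟩,
  ⟨⟨51, -4, -32, 2, 45, -16, 12, -12, -49⟩, (.cons (nat_lit 360) (nat_lit 24) (nat_lit 294) (nat_lit 1) (.cons
 (nat_lit 1770) (nat_lit 69) (nat_lit 122) (nat_lit 1) .nil)), (nat_lit 42), (nat_lit 6), (nat_lit 22),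
 (nat_lit 1), (25, 36, 28), [281, 21], 16⟩,
  mz,
  ⟨⟨21, -44, -29, -20, -23, 50, 38, -8, -1⟩, (.cons (nat_lit 168) (nat_lit 262) (nat_lit 277) (nat_lit 1)
 (.cons (nat_lit 1483) (nat_lit 45) (nat_lit 1136) (nat_lit 1) .nil)), (nat_lit 28), (nat_lit 30), (nat_lit
 23), (nat_lit 1), (18, 3, 46), [296, 1039], 25⟩,
  ⟨⟨27, -32, -47, 40, 17, 0, 10, 16, -47⟩, (.cons (nat_lit 308) (nat_lit 232) (nat_lit 140) (nat_lit 1) (.cons
 (nat_lit 316) (nat_lit 2207) (nat_lit 738) (nat_lit 1) .nil)), (nat_lit 1), (nat_lit 21), (nat_lit 21),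
 (nat_lit 1), (46, 2, 24), [216, 417], 40⟩,
  mz,
  ⟨⟨-27, 32, -20, 40, 17, -40, -10, -16, -37⟩, (.cons (nat_lit 360) (nat_lit 5) (nat_lit 134) (nat_lit 1)
 (.cons (nat_lit 798) (nat_lit 802) (nat_lit 1243) (nat_lit 1) .nil)), (nat_lit 42), (nat_lit 24), (nat_lit
 30), (nat_lit 1), (43, 39, 2), [231, 171], 40⟩,
  mz,
  mz,
  mz,
  ⟨⟨45, -16, -1, 22, 35, -36, 20, -28, -37⟩, (.cons (nat_lit 195) (nat_lit 187) (nat_lit 342) (nat_lit 1)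
 (.cons (nat_lit 630) (nat_lit 554) (nat_lit 296) (nat_lit 1) .nil)), (nat_lit 31), (nat_lit 2), (nat_lit 41),
 (nat_lit 1), (12, 9, 21), [12, 2097], 32⟩,
  mz,
  ⟨⟨-39, 8, -17, 2, -45, -16, 12, 12, -49⟩, (.cons (nat_lit 218) (nat_lit 35) (nat_lit 176) (nat_lit 1) (.cons
 (nat_lit 357) (nat_lit 1884) (nat_lit 989) (nat_lit 1) .nil)), (nat_lit 11), (nat_lit 2), (nat_lit 34),
 (nat_lit 1), (14, 27, 21), [221, 732], 13⟩,
  ⟨⟨49, 12, -13, 2, -35, 34, 28, -20, -41⟩, (.cons (nat_lit 88) (nat_lit 32) (nat_lit 147) (nat_lit 1) (.cons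
 (nat_lit 174) (nat_lit 576) (nat_lit 1819) (nat_lit 1) .nil)), (nat_lit 5), (nat_lit 13), (nat_lit 21),
 (nat_lit 1), (17, 17, 3), [9, 1705], 3⟩,
  ⟨⟨-45, 16, 44, -22, -35, -14, -20, 28, -17⟩, (.cons (nat_lit 225) (nat_lit 155) (nat_lit 1) (nat_lit 342)
 (.cons (nat_lit 1571) (nat_lit 299) (nat_lit 225) (nat_lit 1) .nil)), (nat_lit 17), (nat_lit 6), (nat_lit 30),
 (nat_lit 1), (34, 2, 36), [274, 1643], 7⟩]

/-- Moves. -/
noncomputable def t1_2 : List Mv := [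
  mz,
  ⟨⟨45, 16, -1, 22, -35, -36, 20, 28, -37⟩, (.cons (nat_lit 160) (nat_lit 295) (nat_lit 306) (nat_lit 1) (.cons
 (nat_lit 217) (nat_lit 236) (nat_lit 197) (nat_lit 1) .nil)), (nat_lit 26), (nat_lit 6), (nat_lit 13),
 (nat_lit 1), (34, 2, 36), [82, 114], 7⟩,
  ⟨⟨21, -32, -49, 2, 35, -36, -28, -20, -13⟩, (.cons (nat_lit 162) (nat_lit 177) (nat_lit 60) (nat_lit 1)
 (.cons (nat_lit 578) (nat_lit 370) (nat_lit 1159) (nat_lit 1) .nil)), (nat_lit 25), (nat_lit 7), (nat_lit 36),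
 (nat_lit 1), (33, 30, 3), [205, 1915], 5⟩,
  ⟨⟨-51, 4, 19, 2, 45, 14, -12, 12, -37⟩, (.cons (nat_lit 336) (nat_lit 162) (nat_lit 94) (nat_lit 1) (.cons
 (nat_lit 1698) (nat_lit 1801) (nat_lit 985) (nat_lit 1) .nil)), (nat_lit 1), (nat_lit 24), (nat_lit 16),
 (nat_lit 1), (7, 20, 21), [55, 1540], 16⟩,
  mz,
  ⟨⟨-45, -16, 44, -22, 35, -14, -20, -28, -17⟩, (.cons (nat_lit 344) (nat_lit 156) (nat_lit 289) (nat_lit 1)
 (.cons (nat_lit 823) (nat_lit 911) (nat_lit 1116) (nat_lit 1) .nil)), (nat_lit 12), (nat_lit 2), (nat_lit 2),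
 (nat_lit 1), (12, 9, 21), [45, 287], 32⟩,
  mz,
  mz,
  mz,
  ⟨⟨27, 32, -47, -40, 17, 0, 10, -16, -47⟩, (.cons (nat_lit 270) (nat_lit 106) (nat_lit 101) (nat_lit 1) (.cons
 (nat_lit 1211) (nat_lit 1316) (nat_lit 278) (nat_lit 1) .nil)), (nat_lit 1), (nat_lit 24), (nat_lit 13),
 (nat_lit 1), (43, 39, 2), [254, 152], 40⟩,
  mz,
  ⟨⟨17, 48, -17, 40, -17, -40, -10, 16, -37⟩, (.cons (nat_lit 96) (nat_lit 251) (nat_lit 177) (nat_lit 1)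
 (.cons (nat_lit 1602) (nat_lit 1282) (nat_lit 178) (nat_lit 1) .nil)), (nat_lit 38), (nat_lit 33), (nat_lit
 2), (nat_lit 1), (25, 45, 24), [135, 933], 17⟩,
  ⟨⟨17, -36, -45, -20, 23, -30, 38, 8, -37⟩, (.cons (nat_lit 10) (nat_lit 228) (nat_lit 312) (nat_lit 1) (.cons
 (nat_lit 570) (nat_lit 1135) (nat_lit 2077) (nat_lit 1) .nil)), (nat_lit 28), (nat_lit 13), (nat_lit 20),
 (nat_lit 1), (19, 44, 1), [299, 178], 18⟩,
  mz,
  ⟨⟨-51, -4, 19, -2, 45, -14, -12, -12, -37⟩, (.cons (nat_lit 89) (nat_lit 145) (nat_lit 243) (nat_lit 1)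
 (.cons (nat_lit 414) (nat_lit 95) (nat_lit 51) (nat_lit 1) .nil)), (nat_lit 1), (nat_lit 6), (nat_lit 21),
 (nat_lit 1), (25, 36, 28), [74, 2196], 16⟩,
  ⟨⟨9, 4, -61, 40, 23, -10, 22, -32, -29⟩, (.cons (nat_lit 101) (nat_lit 252) (nat_lit 181) (nat_lit 1) (.cons
 (nat_lit 892) (nat_lit 661) (nat_lit 1320) (nat_lit 1) .nil)), (nat_lit 20), (nat_lit 2), (nat_lit 13),
 (nat_lit 1), (18, 33, 44), [269, 927], 19⟩,
  ⟨⟨-13, 36, 45, -40, -23, 30, -22, 32, -7⟩, (.cons (nat_lit 258) (nat_lit 93) (nat_lit 15) (nat_lit 1) (.cons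
 (nat_lit 1931) (nat_lit 499) (nat_lit 909) (nat_lit 1) .nil)), (nat_lit 39), (nat_lit 15), (nat_lit 2),
 (nat_lit 1), (5, 19, 41), [11, 1024], 7⟩,
  mz,
  ⟨⟨19, 0, -63, 0, -47, 0, 42, 0, -23⟩, (.cons (nat_lit 106) (nat_lit 215) (nat_lit 47) (nat_lit 1) (.cons
 (nat_lit 1748) (nat_lit 1366) (nat_lit 963) (nat_lit 1) .nil)), (nat_lit 1), (nat_lit 39), (nat_lit 18),
 (nat_lit 1), (16, 0, 23), [292, 1564], 9⟩,
  ⟨⟨-39, 32, 8, -20, -33, -20, 6, 24, -41⟩, (.cons (nat_lit 129) (nat_lit 10) (nat_lit 252) (nat_lit 1) (.cons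
 (nat_lit 1775) (nat_lit 303) (nat_lit 587) (nat_lit 1) .nil)), (nat_lit 9), (nat_lit 22), (nat_lit 13),
 (nat_lit 1), (25, 8, 7), [106, 1575], 33⟩,
  ⟨⟨17, -36, 28, -20, 23, 50, 38, 8, -1⟩, (.cons (nat_lit 304) (nat_lit 234) (nat_lit 191) (nat_lit 1) (.cons
 (nat_lit 1095) (nat_lit 1205) (nat_lit 1666) (nat_lit 1) .nil)), (nat_lit 4), (nat_lit 10), (nat_lit 40),
 (nat_lit 1), (2, 17, 10), [111, 663], 36⟩,
  ⟨⟨-49, -12, 36, -2, 35, 36, -28, 20, -13⟩, (.cons (nat_lit 173) (nat_lit 218) (nat_lit 101) (nat_lit 1)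
 (.cons (nat_lit 1608) (nat_lit 788) (nat_lit 1091) (nat_lit 1) .nil)), (nat_lit 12), (nat_lit 33), (nat_lit
 34), (nat_lit 1), (24, 24, 7), [330, 1201], 32⟩,
  ⟨⟨45, 8, -49, -20, 33, -20, 6, -24, -41⟩, (.cons (nat_lit 63) (nat_lit 20) (nat_lit 55) (nat_lit 1) (.cons
 (nat_lit 1469) (nat_lit 751) (nat_lit 243) (nat_lit 1) .nil)), (nat_lit 1), (nat_lit 39), (nat_lit 41),
 (nat_lit 1), (40, 24, 21), [4, 2095], 28⟩,
  mz,
  mz,
  ⟨⟨39, -32, -31, 20, 33, -40, -6, -24, -35⟩, (.cons (nat_lit 149) (nat_lit 269) (nat_lit 108) (nat_lit 1)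
 (.cons (nat_lit 2065) (nat_lit 979) (nat_lit 1224) (nat_lit 1) .nil)), (nat_lit 1), (nat_lit 4), (nat_lit 2),
 (nat_lit 1), (28, 24, 21), [359, 1162], 28⟩,
  ⟨⟨-21, 32, -28, -2, -35, -34, 28, 20, -41⟩, (.cons (nat_lit 168) (nat_lit 73) (nat_lit 332) (nat_lit 1)
 (.cons (nat_lit 1274) (nat_lit 140) (nat_lit 1035) (nat_lit 1) .nil)), (nat_lit 17), (nat_lit 21), (nat_lit
 27), (nat_lit 1), (30, 23, 7), [183, 41], 7⟩,
  ⟨⟨17, 36, -45, -20, -23, -30, 38, -8, -37⟩, (.cons (nat_lit 257) (nat_lit 354) (nat_lit 329) (nat_lit 1)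
 (.cons (nat_lit 404) (nat_lit 600) (nat_lit 653) (nat_lit 1) .nil)), (nat_lit 39), (nat_lit 10), (nat_lit 3),
 (nat_lit 1), (45, 30, 37), [254, 403], 7⟩,
  ⟨⟨-45, -8, -4, 20, -33, -40, -6, 24, -35⟩, (.cons (nat_lit 262) (nat_lit 149) (nat_lit 148) (nat_lit 1)
 (.cons (nat_lit 1239) (nat_lit 596) (nat_lit 450) (nat_lit 1) .nil)), (nat_lit 9), (nat_lit 21), (nat_lit 30),
 (nat_lit 1), (29, 8, 7), [334, 1881], 33⟩,
  ⟨⟨19, 0, 44, 0, -47, 0, 42, 0, -19⟩, (.cons (nat_lit 360) (nat_lit 92) (nat_lit 155) (nat_lit 1) (.cons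
 (nat_lit 1626) (nat_lit 16) (nat_lit 1962) (nat_lit 1) .nil)), (nat_lit 42), (nat_lit 12), (nat_lit 11),
 (nat_lit 1), (31, 0, 24), [110, 1160], 27⟩,
  mz,
  ⟨⟨9, -4, -61, 40, -23, -10, 22, 32, -29⟩, (.cons (nat_lit 105) (nat_lit 23) (nat_lit 341) (nat_lit 1) (.cons
 (nat_lit 1469) (nat_lit 1394) (nat_lit 1785) (nat_lit 1) .nil)), (nat_lit 39), (nat_lit 28), (nat_lit 41),
 (nat_lit 1), (36, 19, 41), [159, 1696], 7⟩,
  ⟨⟨-9, 4, -52, 40, -23, -30, -22, -32, -7⟩, (.cons (nat_lit 189) (nat_lit 177) (nat_lit 1) (nat_lit 57) (.cons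
 (nat_lit 2082) (nat_lit 45) (nat_lit 1124) (nat_lit 1) .nil)), (nat_lit 11), (nat_lit 19), (nat_lit 33),
 (nat_lit 1), (18, 14, 44), [193, 100], 30⟩,
  ⟨⟨51, -4, -32, 2, 45, -16, 12, -12, -49⟩, (.cons (nat_lit 360) (nat_lit 24) (nat_lit 294) (nat_lit 1) (.cons
 (nat_lit 1770) (nat_lit 69) (nat_lit 122) (nat_lit 1) .nil)), (nat_lit 42), (nat_lit 6), (nat_lit 22),
 (nat_lit 1), (25, 36, 28), [281, 21], 16⟩,
  mz,
  ⟨⟨17, 36, 28, 20, 23, -50, 38, -8, -1⟩, (.cons (nat_lit 138) (nat_lit 358) (nat_lit 262) (nat_lit 1) (.cons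
 (nat_lit 168) (nat_lit 1196) (nat_lit 34) (nat_lit 1) .nil)), (nat_lit 11), (nat_lit 36), (nat_lit 21),
 (nat_lit 1), (28, 44, 46), [253, 734], 13⟩,
  ⟨⟨27, -32, -47, -40, -17, 0, 10, 16, -47⟩, (.cons (nat_lit 154) (nat_lit 56) (nat_lit 46) (nat_lit 1) (.cons
 (nat_lit 59) (nat_lit 2000) (nat_lit 1111) (nat_lit 1) .nil)), (nat_lit 38), (nat_lit 10), (nat_lit 41),
 (nat_lit 1), (46, 45, 24), [242, 313], 17⟩,
  mz,
  ⟨⟨-27, 32, -20, 40, 17, -40, -10, -16, -37⟩, (.cons (nat_lit 360) (nat_lit 5) (nat_lit 134) (nat_lit 1)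
 (.cons (nat_lit 798) (nat_lit 802) (nat_lit 1243) (nat_lit 1) .nil)), (nat_lit 42), (nat_lit 24), (nat_lit
 30), (nat_lit 1), (43, 39, 2), [231, 171], 40⟩,
  mz,
  mz,
  mz,
  ⟨⟨45, -16, -1, 22, 35, -36, 20, -28, -37⟩, (.cons (nat_lit 195) (nat_lit 187) (nat_lit 342) (nat_lit 1)
 (.cons (nat_lit 630) (nat_lit 554) (nat_lit 296) (nat_lit 1) .nil)), (nat_lit 31), (nat_lit 2), (nat_lit 41),
 (nat_lit 1), (12, 9, 21), [12, 2097], 32⟩,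
  mz,
  ⟨⟨-39, 8, -17, -2, 45, 16, 12, 12, -49⟩, (.cons (nat_lit 231) (nat_lit 122) (nat_lit 307) (nat_lit 1) (.cons
 (nat_lit 914) (nat_lit 1444) (nat_lit 618) (nat_lit 1) .nil)), (nat_lit 1), (nat_lit 19), (nat_lit 27),
 (nat_lit 1), (14, 20, 21), [286, 958], 16⟩,
  ⟨⟨49, 12, -13, -2, 35, -34, 28, -20, -41⟩, (.cons (nat_lit 137) (nat_lit 12) (nat_lit 76) (nat_lit 1) (.cons
 (nat_lit 233) (nat_lit 1296) (nat_lit 790) (nat_lit 1) .nil)), (nat_lit 25), (nat_lit 36), (nat_lit 7),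
 (nat_lit 1), (17, 30, 3), [325, 840], 5⟩,
  ⟨⟨-45, 16, 44, -22, -35, -14, -20, 28, -17⟩, (.cons (nat_lit 225) (nat_lit 155) (nat_lit 1) (nat_lit 342)
 (.cons (nat_lit 1571) (nat_lit 299) (nat_lit 225) (nat_lit 1) .nil)), (nat_lit 17), (nat_lit 6), (nat_lit 30),
 (nat_lit 1), (34, 2, 36), [274, 1643], 7⟩]

/-- Moves. -/
noncomputable def t1_8 : List Mv := [
  mz,
  ⟨⟨45, 16, -1, 22, -35, -36, 20, 28, -37⟩, (.cons (nat_lit 160) (nat_lit 295) (nat_lit 306) (nat_lit 1) (.cons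
 (nat_lit 217) (nat_lit 236) (nat_lit 197) (nat_lit 1) .nil)), (nat_lit 26), (nat_lit 6), (nat_lit 13),
 (nat_lit 1), (34, 2, 36), [82, 114], 7⟩,
  ⟨⟨21, -32, -49, 2, 35, -36, -28, -20, -13⟩, (.cons (nat_lit 162) (nat_lit 177) (nat_lit 60) (nat_lit 1)
 (.cons (nat_lit 578) (nat_lit 370) (nat_lit 1159) (nat_lit 1) .nil)), (nat_lit 25), (nat_lit 7), (nat_lit 36),
 (nat_lit 1), (33, 30, 3), [205, 1915], 5⟩,
  ⟨⟨-51, 4, 19, -2, -45, -14, -12, 12, -37⟩, (.cons (nat_lit 262) (nat_lit 173) (nat_lit 193) (nat_lit 1)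
 (.cons (nat_lit 361) (nat_lit 1112) (nat_lit 790) (nat_lit 1) .nil)), (nat_lit 11), (nat_lit 41), (nat_lit 9),
 (nat_lit 1), (7, 27, 21), [337, 1146], 13⟩,
  mz,
  ⟨⟨25, -12, -61, -22, 35, -14, -20, -28, -17⟩, (.cons (nat_lit 78) (nat_lit 273) (nat_lit 13) (nat_lit 1)
 (.cons (nat_lit 211) (nat_lit 781) (nat_lit 2056) (nat_lit 1) .nil)), (nat_lit 31), (nat_lit 41), (nat_lit 2),
 (nat_lit 1), (9, 9, 21), [326, 1791], 32⟩,
  mz,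
  mz,
  mz,
  ⟨⟨27, 32, -47, 40, -17, 0, 10, -16, -47⟩, (.cons (nat_lit 267) (nat_lit 129) (nat_lit 32) (nat_lit 1) (.cons
 (nat_lit 1562) (nat_lit 1560) (nat_lit 1) (nat_lit 1363) .nil)), (nat_lit 17), (nat_lit 41), (nat_lit 9),
 (nat_lit 1), (43, 8, 2), [116, 179], 11⟩,
  mz,
  ⟨⟨17, 48, -17, 40, -17, -40, -10, 16, -37⟩, (.cons (nat_lit 96) (nat_lit 251) (nat_lit 177) (nat_lit 1)
 (.cons (nat_lit 1602) (nat_lit 1282) (nat_lit 178) (nat_lit 1) .nil)), (nat_lit 38), (nat_lit 33), (nat_lit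
 2), (nat_lit 1), (25, 45, 24), [135, 933], 17⟩,
  ⟨⟨17, -36, -45, 20, -23, 30, 38, 8, -37⟩, (.cons (nat_lit 7) (nat_lit 71) (nat_lit 256) (nat_lit 1) (.cons
 (nat_lit 853) (nat_lit 288) (nat_lit 1619) (nat_lit 1) .nil)), (nat_lit 32), (nat_lit 36), (nat_lit 22),
 (nat_lit 1), (19, 3, 1), [178, 1529], 30⟩,
  mz,
  ⟨⟨-51, -4, 19, -2, 45, -14, -12, -12, -37⟩, (.cons (nat_lit 89) (nat_lit 145) (nat_lit 243) (nat_lit 1)
 (.cons (nat_lit 414) (nat_lit 95) (nat_lit 51) (nat_lit 1) .nil)), (nat_lit 1), (nat_lit 6), (nat_lit 21),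
 (nat_lit 1), (25, 36, 28), [74, 2196], 16⟩,
  ⟨⟨9, 4, -61, 40, 23, -10, 22, -32, -29⟩, (.cons (nat_lit 101) (nat_lit 252) (nat_lit 181) (nat_lit 1) (.cons
 (nat_lit 892) (nat_lit 661) (nat_lit 1320) (nat_lit 1) .nil)), (nat_lit 20), (nat_lit 2), (nat_lit 13),
 (nat_lit 1), (18, 33, 44), [269, 927], 19⟩,
  ⟨⟨-9, -4, -52, -40, -23, 30, -22, 32, -7⟩, (.cons (nat_lit 327) (nat_lit 259) (nat_lit 244) (nat_lit 1)
 (.cons (nat_lit 137) (nat_lit 1193) (nat_lit 580) (nat_lit 1) .nil)), (nat_lit 4), (nat_lit 28), (nat_lit 2),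
 (nat_lit 1), (36, 19, 41), [303, 1823], 7⟩,
  mz,
  ⟨⟨23, 0, 40, 0, -47, 0, 42, 0, -23⟩, (.cons (nat_lit 360) (nat_lit 352) (nat_lit 31) (nat_lit 1) (.cons (nat_lit 2012) (nat_lit 749) (nat_lit 728) (nat_lit 1) .nil)), (nat_lit 42), (nat_lit 4), (nat_lit 18), (nat_lit 1), (7, 0, 23), [70, 154], 9⟩,
  ⟨⟨-39, 32, 8, -20, -33, -20, 6, 24, -41⟩, (.cons (nat_lit 129) (nat_lit 10) (nat_lit 252) (nat_lit 1) (.cons
 (nat_lit 1775) (nat_lit 303) (nat_lit 587) (nat_lit 1) .nil)), (nat_lit 9), (nat_lit 22), (nat_lit 13),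
 (nat_lit 1), (25, 8, 7), [106, 1575], 33⟩,
  ⟨⟨17, -36, 28, 20, -23, -50, 38, 8, -1⟩, (.cons (nat_lit 289) (nat_lit 252) (nat_lit 326) (nat_lit 1) (.cons
 (nat_lit 1665) (nat_lit 1449) (nat_lit 1658) (nat_lit 1) .nil)), (nat_lit 23), (nat_lit 21), (nat_lit 9),
 (nat_lit 1), (2, 30, 10), [338, 406], 24⟩,
  ⟨⟨21, 32, -49, 2, -35, -36, -28, 20, -13⟩, (.cons (nat_lit 255) (nat_lit 14) (nat_lit 224) (nat_lit 1) (.cons
 (nat_lit 333) (nat_lit 1589) (nat_lit 1486) (nat_lit 1) .nil)), (nat_lit 26), (nat_lit 21), (nat_lit 16),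
 (nat_lit 1), (30, 23, 7), [329, 500], 7⟩,
  ⟨⟨45, 8, -49, 20, -33, 20, 6, -24, -41⟩, (.cons (nat_lit 14) (nat_lit 36) (nat_lit 320) (nat_lit 1) (.cons
 (nat_lit 557) (nat_lit 381) (nat_lit 2009) (nat_lit 1) .nil)), (nat_lit 19), (nat_lit 12), (nat_lit 32),
 (nat_lit 1), (40, 23, 21), [357, 1651], 2⟩,
  mz,
  mz,
  ⟨⟨-45, 8, -4, 20, 33, -40, -6, -24, -35⟩, (.cons (nat_lit 360) (nat_lit 94) (nat_lit 250) (nat_lit 1) (.cons
 (nat_lit 1084) (nat_lit 431) (nat_lit 1459) (nat_lit 1) .nil)), (nat_lit 42), (nat_lit 39), (nat_lit 2),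
 (nat_lit 1), (40, 24, 21), [113, 1820], 28⟩,
  ⟨⟨-21, 32, -28, -2, -35, -34, 28, 20, -41⟩, (.cons (nat_lit 168) (nat_lit 73) (nat_lit 332) (nat_lit 1)
 (.cons (nat_lit 1274) (nat_lit 140) (nat_lit 1035) (nat_lit 1) .nil)), (nat_lit 17), (nat_lit 21), (nat_lit
 27), (nat_lit 1), (30, 23, 7), [183, 41], 7⟩,
  ⟨⟨17, 36, -45, 20, 23, 30, 38, -8, -37⟩, (.cons (nat_lit 329) (nat_lit 298) (nat_lit 359) (nat_lit 1) (.cons
 (nat_lit 2117) (nat_lit 855) (nat_lit 53) (nat_lit 1) .nil)), (nat_lit 20), (nat_lit 21), (nat_lit 34),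
 (nat_lit 1), (45, 17, 37), [155, 982], 19⟩,
  ⟨⟨-45, -8, -4, 20, -33, -40, -6, 24, -35⟩, (.cons (nat_lit 262) (nat_lit 149) (nat_lit 148) (nat_lit 1)
 (.cons (nat_lit 1239) (nat_lit 596) (nat_lit 450) (nat_lit 1) .nil)), (nat_lit 9), (nat_lit 21), (nat_lit 30),
 (nat_lit 1), (29, 8, 7), [334, 1881], 33⟩,
  ⟨⟨19, 0, 44, 0, -47, 0, 42, 0, -19⟩, (.cons (nat_lit 360) (nat_lit 92) (nat_lit 155) (nat_lit 1) (.cons
 (nat_lit 1626) (nat_lit 16) (nat_lit 1962) (nat_lit 1) .nil)), (nat_lit 42), (nat_lit 12), (nat_lit 11),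
 (nat_lit 1), (31, 0, 24), [110, 1160], 27⟩,
  mz,
  ⟨⟨9, -4, -61, 40, -23, -10, 22, 32, -29⟩, (.cons (nat_lit 105) (nat_lit 23) (nat_lit 341) (nat_lit 1) (.cons
 (nat_lit 1469) (nat_lit 1394) (nat_lit 1785) (nat_lit 1) .nil)), (nat_lit 39), (nat_lit 28), (nat_lit 41),
 (nat_lit 1), (36, 19, 41), [159, 1696], 7⟩,
  ⟨⟨-13, -36, 45, 40, -23, -30, -22, -32, -7⟩, (.cons (nat_lit 59) (nat_lit 52) (nat_lit 83) (nat_lit 1) (.cons
 (nat_lit 2007) (nat_lit 1130) (nat_lit 43) (nat_lit 1) .nil)), (nat_lit 32), (nat_lit 24), (nat_lit 33),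
 (nat_lit 1), (26, 14, 44), [85, 194], 30⟩,
  ⟨⟨51, -4, -32, 2, 45, -16, 12, -12, -49⟩, (.cons (nat_lit 360) (nat_lit 24) (nat_lit 294) (nat_lit 1) (.cons
 (nat_lit 1770) (nat_lit 69) (nat_lit 122) (nat_lit 1) .nil)), (nat_lit 42), (nat_lit 6), (nat_lit 22),
 (nat_lit 1), (25, 36, 28), [281, 21], 16⟩,
  mz,
  ⟨⟨17, 36, 28, 20, 23, -50, 38, -8, -1⟩, (.cons (nat_lit 138) (nat_lit 358) (nat_lit 262) (nat_lit 1) (.cons
 (nat_lit 168) (nat_lit 1196) (nat_lit 34) (nat_lit 1) .nil)), (nat_lit 11), (nat_lit 36), (nat_lit 21),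
 (nat_lit 1), (28, 44, 46), [253, 734], 13⟩,
  ⟨⟨27, -32, -47, -40, -17, 0, 10, 16, -47⟩, (.cons (nat_lit 154) (nat_lit 56) (nat_lit 46) (nat_lit 1) (.cons
 (nat_lit 59) (nat_lit 2000) (nat_lit 1111) (nat_lit 1) .nil)), (nat_lit 38), (nat_lit 10), (nat_lit 41),
 (nat_lit 1), (46, 45, 24), [242, 313], 17⟩,
  mz,
  ⟨⟨17, -48, -17, -40, -17, 40, -10, -16, -37⟩, (.cons (nat_lit 143) (nat_lit 295) (nat_lit 281) (nat_lit 1)
 (.cons (nat_lit 1210) (nat_lit 127) (nat_lit 172) (nat_lit 1) .nil)), (nat_lit 17), (nat_lit 2), (nat_lit 34),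
 (nat_lit 1), (6, 8, 2), [70, 1456], 11⟩,
  mz,
  mz,
  mz,
  ⟨⟨45, -16, -1, 22, 35, -36, 20, -28, -37⟩, (.cons (nat_lit 195) (nat_lit 187) (nat_lit 342) (nat_lit 1)
 (.cons (nat_lit 630) (nat_lit 554) (nat_lit 296) (nat_lit 1) .nil)), (nat_lit 31), (nat_lit 2), (nat_lit 41),
 (nat_lit 1), (12, 9, 21), [12, 2097], 32⟩,
  mz,
  ⟨⟨51, 4, -32, 2, -45, -16, 12, 12, -49⟩, (.cons (nat_lit 52) (nat_lit 239) (nat_lit 188) (nat_lit 1) (.cons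
 (nat_lit 1664) (nat_lit 1547) (nat_lit 331) (nat_lit 1) .nil)), (nat_lit 32), (nat_lit 41), (nat_lit 34),
 (nat_lit 1), (7, 27, 21), [324, 2095], 13⟩,
  ⟨⟨-21, -32, -28, 2, -35, 34, 28, -20, -41⟩, (.cons (nat_lit 247) (nat_lit 248) (nat_lit 146) (nat_lit 1)
 (.cons (nat_lit 2082) (nat_lit 411) (nat_lit 2054) (nat_lit 1) .nil)), (nat_lit 38), (nat_lit 30), (nat_lit
 21), (nat_lit 1), (33, 17, 3), [326, 483], 3⟩,
  ⟨⟨-45, 16, 44, -22, -35, -14, -20, 28, -17⟩, (.cons (nat_lit 225) (nat_lit 155) (nat_lit 1) (nat_lit 342)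
 (.cons (nat_lit 1571) (nat_lit 299) (nat_lit 225) (nat_lit 1) .nil)), (nat_lit 17), (nat_lit 6), (nat_lit 30),
 (nat_lit 1), (34, 2, 36), [274, 1643], 7⟩]

/-- Moves. -/
noncomputable def t4_1 : List Mv := [
  mz,
  ⟨⟨33, -32, -5, 2, 15, 44, 36, 12, -25⟩, (.cons (nat_lit 125) (nat_lit 90) (nat_lit 81) (nat_lit 1) (.cons
 (nat_lit 603) (nat_lit 921) (nat_lit 508) (nat_lit 1) .nil)), (nat_lit 21), (nat_lit 0), (nat_lit 0), (nat_lit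
 0), (9, 24, 2), [162, 1540], 0⟩,
  mz,
  mz,
  ⟨⟨19, 36, -36, -20, -13, -30, 34, -8, -35⟩, (.cons (nat_lit 213) (nat_lit 206) (nat_lit 88) (nat_lit 1)
 (.cons (nat_lit 1314) (nat_lit 1871) (nat_lit 1490) (nat_lit 1) .nil)), (nat_lit 18), (nat_lit 0), (nat_lit
 0), (nat_lit 0), (14, 26, 16), [332, 99], 0⟩,
  ⟨⟨33, -32, -28, 2, 15, -46, 36, 12, -11⟩, (.cons (nat_lit 296) (nat_lit 82) (nat_lit 336) (nat_lit 1) (.cons
 (nat_lit 202) (nat_lit 591) (nat_lit 1716) (nat_lit 1) .nil)), (nat_lit 21), (nat_lit 0), (nat_lit 0),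
 (nat_lit 0), (19, 22, 9), [159, 1220], 0⟩,
  ⟨⟨-37, -24, 0, -20, 37, 0, 2, -8, -43⟩, (.cons (nat_lit 360) (nat_lit 157) (nat_lit 119) (nat_lit 1) (.cons
 (nat_lit 2208) (nat_lit 1011) (nat_lit 1198) (nat_lit 1) .nil)), (nat_lit 6), (nat_lit 0), (nat_lit 0),
 (nat_lit 0), (12, 3, 4), [174, 896], 0⟩,
  ⟨⟨-3, -32, 40, 20, 27, 20, 30, -24, -13⟩, (.cons (nat_lit 215) (nat_lit 28) (nat_lit 128) (nat_lit 1) (.cons
 (nat_lit 1132) (nat_lit 2089) (nat_lit 1809) (nat_lit 1) .nil)), (nat_lit 30), (nat_lit 0), (nat_lit 0),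
 (nat_lit 0), (1, 22, 33), [106, 716], 0⟩,
  ⟨⟨-39, -16, -4, 20, -37, -20, -2, 8, -41⟩, (.cons (nat_lit 32) (nat_lit 274) (nat_lit 244) (nat_lit 1) (.cons
 (nat_lit 489) (nat_lit 985) (nat_lit 150) (nat_lit 1) .nil)), (nat_lit 37), (nat_lit 0), (nat_lit 0), (nat_lit
 0), (6, 30, 40), [233, 1229], 0⟩,
  ⟨⟨-29, 0, -27, 0, -43, 0, 18, 0, -47⟩, (.cons (nat_lit 59) (nat_lit 50) (nat_lit 246) (nat_lit 1) (.cons
 (nat_lit 2022) (nat_lit 1421) (nat_lit 1483) (nat_lit 1) .nil)), (nat_lit 34), (nat_lit 0), (nat_lit 0),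
 (nat_lit 0), (33, 0, 24), [25, 1774], 0⟩,
  ⟨⟨-9, -16, -44, 38, 15, -34, 12, -36, -13⟩, (.cons (nat_lit 150) (nat_lit 29) (nat_lit 1) (nat_lit 285)
 (.cons (nat_lit 1277) (nat_lit 1220) (nat_lit 955) (nat_lit 1) .nil)), (nat_lit 5), (nat_lit 0), (nat_lit 0),
 (nat_lit 0), (15, 37, 23), [235, 506], 0⟩,
  mz,
  ⟨⟨-15, 44, 16, 20, 13, -50, -34, 8, -1⟩, (.cons (nat_lit 74) (nat_lit 191) (nat_lit 252) (nat_lit 1) (.cons
 (nat_lit 582) (nat_lit 396) (nat_lit 2164) (nat_lit 1) .nil)), (nat_lit 25), (nat_lit 0), (nat_lit 0),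
 (nat_lit 0), (28, 20, 9), [231, 464], 0⟩,
  ⟨⟨33, 8, 20, 20, 27, -40, 30, -24, -17⟩, (.cons (nat_lit 323) (nat_lit 327) (nat_lit 1) (nat_lit 38) (.cons
 (nat_lit 2208) (nat_lit 1747) (nat_lit 902) (nat_lit 1) .nil)), (nat_lit 13), (nat_lit 0), (nat_lit 0),
 (nat_lit 0), (4, 35, 31), [343, 319], 0⟩,
  mz,
  mz,
  mz,
  ⟨⟨9, -4, -56, 40, -13, -10, 14, 32, -25⟩, (.cons (nat_lit 308) (nat_lit 141) (nat_lit 290) (nat_lit 1) (.cons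
 (nat_lit 45) (nat_lit 587) (nat_lit 2098) (nat_lit 1) .nil)), (nat_lit 12), (nat_lit 0), (nat_lit 0), (nat_lit
 0), (19, 8, 20), [313, 1744], 0⟩,
  ⟨⟨-5, -36, 36, 40, -13, -30, -14, -32, -11⟩, (.cons (nat_lit 100) (nat_lit 338) (nat_lit 225) (nat_lit 1)
 (.cons (nat_lit 775) (nat_lit 1288) (nat_lit 557) (nat_lit 1) .nil)), (nat_lit 4), (nat_lit 0), (nat_lit 0),
 (nat_lit 0), (11, 41, 5), [244, 13], 0⟩,
  mz,
  mz,
  ⟨⟨21, 20, 31, -38, 15, 34, 12, 36, -13⟩, (.cons (nat_lit 26) (nat_lit 187) (nat_lit 60) (nat_lit 1) (.cons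
 (nat_lit 370) (nat_lit 1625) (nat_lit 2014) (nat_lit 1) .nil)), (nat_lit 1), (nat_lit 0), (nat_lit 0),
 (nat_lit 0), (12, 9, 13), [129, 1249], 0⟩,
  ⟨⟨9, 16, -53, -38, -15, 4, -12, 36, -1⟩, (.cons (nat_lit 99) (nat_lit 264) (nat_lit 247) (nat_lit 1) (.cons
 (nat_lit 1232) (nat_lit 599) (nat_lit 1170) (nat_lit 1) .nil)), (nat_lit 5), (nat_lit 0), (nat_lit 0),
 (nat_lit 0), (1, 34, 13), [229, 1657], 0⟩,
  mz,
  mz,
  ⟨⟨9, 4, -56, 40, 13, -10, 14, -32, -25⟩, (.cons (nat_lit 161) (nat_lit 295) (nat_lit 221) (nat_lit 1) (.cons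
 (nat_lit 1021) (nat_lit 2140) (nat_lit 1765) (nat_lit 1) .nil)), (nat_lit 12), (nat_lit 0), (nat_lit 0),
 (nat_lit 0), (37, 2, 5), [205, 1148], 0⟩,
  ⟨⟨-5, 36, 36, -40, -13, 30, -14, 32, -11⟩, (.cons (nat_lit 250) (nat_lit 46) (nat_lit 181) (nat_lit 1) (.cons
 (nat_lit 1596) (nat_lit 1011) (nat_lit 816) (nat_lit 1) .nil)), (nat_lit 31), (nat_lit 0), (nat_lit 0),
 (nat_lit 0), (1, 8, 20), [347, 1697], 0⟩,
  mz,
  mz,
  mz,
  ⟨⟨-3, 32, 40, -20, 27, -20, 30, 24, -13⟩, (.cons (nat_lit 225) (nat_lit 198) (nat_lit 80) (nat_lit 1) (.cons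
 (nat_lit 482) (nat_lit 406) (nat_lit 617) (nat_lit 1) .nil)), (nat_lit 7), (nat_lit 0), (nat_lit 0), (nat_lit
 0), (16, 35, 12), [346, 1866], 0⟩,
  ⟨⟨19, -36, -36, 20, -13, 30, 34, 8, -35⟩, (.cons (nat_lit 13) (nat_lit 124) (nat_lit 174) (nat_lit 1) (.cons
 (nat_lit 1809) (nat_lit 153) (nat_lit 1677) (nat_lit 1) .nil)), (nat_lit 26), (nat_lit 0), (nat_lit 0),
 (nat_lit 0), (24, 23, 9), [161, 765], 0⟩,
  mz,
  ⟨⟨-21, -20, 52, 38, -15, -4, -12, -36, -1⟩, (.cons (nat_lit 220) (nat_lit 281) (nat_lit 332) (nat_lit 1)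
 (.cons (nat_lit 1189) (nat_lit 68) (nat_lit 803) (nat_lit 1) .nil)), (nat_lit 1), (nat_lit 0), (nat_lit 0),
 (nat_lit 0), (8, 6, 23), [50, 1694], 0⟩,
  ⟨⟨-47, 0, 27, 0, -43, 0, -18, 0, -29⟩, (.cons (nat_lit 257) (nat_lit 146) (nat_lit 314) (nat_lit 1) (.cons
 (nat_lit 189) (nat_lit 929) (nat_lit 256) (nat_lit 1) .nil)), (nat_lit 9), (nat_lit 0), (nat_lit 0), (nat_lit
 0), (34, 0, 24), [11, 1680], 0⟩,
  ⟨⟨-37, 24, 0, -20, -37, 0, 2, 8, -43⟩, (.cons (nat_lit 184) (nat_lit 150) (nat_lit 145) (nat_lit 1) (.cons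
 (nat_lit 348) (nat_lit 2) (nat_lit 837) (nat_lit 1) .nil)), (nat_lit 6), (nat_lit 0), (nat_lit 0), (nat_lit
 0), (34, 30, 40), [290, 1793], 0⟩,
  ⟨⟨33, -8, 20, -20, 27, 40, 30, 24, -17⟩, (.cons (nat_lit 360) (nat_lit 83) (nat_lit 290) (nat_lit 1) (.cons
 (nat_lit 2208) (nat_lit 609) (nat_lit 951) (nat_lit 1) .nil)), (nat_lit 36), (nat_lit 0), (nat_lit 0),
 (nat_lit 0), (11, 22, 10), [66, 1823], 0⟩,
  ⟨⟨37, -24, -37, -20, -37, 20, -2, -8, -41⟩, (.cons (nat_lit 343) (nat_lit 292) (nat_lit 1) (nat_lit 171)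
 (.cons (nat_lit 371) (nat_lit 2199) (nat_lit 378) (nat_lit 1) .nil)), (nat_lit 35), (nat_lit 0), (nat_lit 0),
 (nat_lit 0), (12, 40, 4), [212, 1773], 0⟩,
  ⟨⟨3, -44, -20, -2, 15, -44, 36, -12, -25⟩, (.cons (nat_lit 354) (nat_lit 267) (nat_lit 254) (nat_lit 1)
 (.cons (nat_lit 1510) (nat_lit 928) (nat_lit 419) (nat_lit 1) .nil)), (nat_lit 33), (nat_lit 0), (nat_lit 0),
 (nat_lit 0), (10, 22, 34), [44, 1014], 0⟩,
  ⟨⟨-15, -44, 16, -20, 13, 50, -34, -8, -1⟩, (.cons (nat_lit 175) (nat_lit 202) (nat_lit 83) (nat_lit 1) (.cons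
 (nat_lit 2149) (nat_lit 1822) (nat_lit 240) (nat_lit 1) .nil)), (nat_lit 17), (nat_lit 0), (nat_lit 0),
 (nat_lit 0), (2, 17, 16), [284, 1806], 0⟩,
  mz,
  mz,
  ⟨⟨33, 32, -28, 2, -15, -46, 36, -12, -11⟩, (.cons (nat_lit 8) (nat_lit 235) (nat_lit 159) (nat_lit 1) (.cons
 (nat_lit 1982) (nat_lit 310) (nat_lit 808) (nat_lit 1) .nil)), (nat_lit 21), (nat_lit 0), (nat_lit 0),
 (nat_lit 0), (34, 19, 41), [262, 481], 0⟩]

/-- Moves. -/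
noncomputable def t4_2 : List Mv := [
  mz,
  ⟨⟨3, 44, -20, 2, 15, 44, 36, 12, -25⟩, (.cons (nat_lit 276) (nat_lit 193) (nat_lit 1) (nat_lit 190) (.cons
 (nat_lit 2076) (nat_lit 1100) (nat_lit 2200) (nat_lit 1) .nil)), (nat_lit 22), (nat_lit 0), (nat_lit 0),
 (nat_lit 0), (36, 24, 2), [118, 271], 0⟩,
  mz,
  mz,
  ⟨⟨19, 36, -36, -20, -13, -30, 34, -8, -35⟩, (.cons (nat_lit 213) (nat_lit 206) (nat_lit 88) (nat_lit 1)
 (.cons (nat_lit 1314) (nat_lit 1871) (nat_lit 1490) (nat_lit 1) .nil)), (nat_lit 18), (nat_lit 0), (nat_lit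
 0), (nat_lit 0), (14, 26, 16), [332, 99], 0⟩,
  ⟨⟨3, 44, 17, 2, 15, -46, 36, 12, -11⟩, (.cons (nat_lit 62) (nat_lit 238) (nat_lit 209) (nat_lit 1) (.cons
 (nat_lit 1490) (nat_lit 2135) (nat_lit 1810) (nat_lit 1) .nil)), (nat_lit 22), (nat_lit 0), (nat_lit 0),
 (nat_lit 0), (33, 22, 9), [203, 1643], 0⟩,
  ⟨⟨-37, -24, 0, -20, 37, 0, 2, -8, -43⟩, (.cons (nat_lit 360) (nat_lit 157) (nat_lit 119) (nat_lit 1) (.cons
 (nat_lit 2208) (nat_lit 1011) (nat_lit 1198) (nat_lit 1) .nil)), (nat_lit 6), (nat_lit 0), (nat_lit 0),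
 (nat_lit 0), (12, 3, 4), [174, 896], 0⟩,
  ⟨⟨33, 8, -53, -20, -27, -20, 30, -24, -13⟩, (.cons (nat_lit 253) (nat_lit 109) (nat_lit 292) (nat_lit 1)
 (.cons (nat_lit 1599) (nat_lit 656) (nat_lit 1822) (nat_lit 1) .nil)), (nat_lit 36), (nat_lit 0), (nat_lit 0),
 (nat_lit 0), (32, 21, 33), [4, 104], 0⟩,
  ⟨⟨-39, -16, -4, -20, 37, 20, -2, 8, -41⟩, (.cons (nat_lit 360) (nat_lit 16) (nat_lit 169) (nat_lit 1) (.cons
 (nat_lit 2208) (nat_lit 1577) (nat_lit 1236) (nat_lit 1) .nil)), (nat_lit 8), (nat_lit 0), (nat_lit 0),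
 (nat_lit 0), (6, 13, 40), [288, 1648], 0⟩,
  ⟨⟨-29, 0, -27, 0, -43, 0, 18, 0, -47⟩, (.cons (nat_lit 59) (nat_lit 50) (nat_lit 246) (nat_lit 1) (.cons
 (nat_lit 2022) (nat_lit 1421) (nat_lit 1483) (nat_lit 1) .nil)), (nat_lit 34), (nat_lit 0), (nat_lit 0),
 (nat_lit 0), (33, 0, 24), [25, 1774], 0⟩,
  ⟨⟨21, -20, 31, 38, 15, -34, 12, -36, -13⟩, (.cons (nat_lit 243) (nat_lit 299) (nat_lit 329) (nat_lit 1)
 (.cons (nat_lit 2060) (nat_lit 2164) (nat_lit 1472) (nat_lit 1) .nil)), (nat_lit 38), (nat_lit 0), (nat_lit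
 0), (nat_lit 0), (8, 37, 23), [136, 1070], 0⟩,
  mz,
  ⟨⟨-15, 44, 16, -20, -13, 50, -34, 8, -1⟩, (.cons (nat_lit 252) (nat_lit 207) (nat_lit 203) (nat_lit 1) (.cons
 (nat_lit 540) (nat_lit 1116) (nat_lit 297) (nat_lit 1) .nil)), (nat_lit 17), (nat_lit 0), (nat_lit 0),
 (nat_lit 0), (28, 23, 9), [92, 1047], 0⟩,
  ⟨⟨33, 8, 20, 20, 27, -40, 30, -24, -17⟩, (.cons (nat_lit 323) (nat_lit 327) (nat_lit 1) (nat_lit 38) (.cons
 (nat_lit 2208) (nat_lit 1747) (nat_lit 902) (nat_lit 1) .nil)), (nat_lit 13), (nat_lit 0), (nat_lit 0),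
 (nat_lit 0), (4, 35, 31), [343, 319], 0⟩,
  mz,
  mz,
  mz,
  ⟨⟨9, -4, -56, -40, 13, 10, 14, 32, -25⟩, (.cons (nat_lit 328) (nat_lit 168) (nat_lit 212) (nat_lit 1) (.cons
 (nat_lit 1804) (nat_lit 104) (nat_lit 4) (nat_lit 1) .nil)), (nat_lit 39), (nat_lit 0), (nat_lit 0), (nat_lit
 0), (19, 35, 20), [260, 41], 0⟩,
  ⟨⟨-5, -36, 36, 40, -13, -30, -14, -32, -11⟩, (.cons (nat_lit 100) (nat_lit 338) (nat_lit 225) (nat_lit 1)
 (.cons (nat_lit 775) (nat_lit 1288) (nat_lit 557) (nat_lit 1) .nil)), (nat_lit 4), (nat_lit 0), (nat_lit 0),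
 (nat_lit 0), (11, 41, 5), [244, 13], 0⟩,
  mz,
  mz,
  ⟨⟨21, 20, 31, 38, -15, -34, 12, 36, -13⟩, (.cons (nat_lit 259) (nat_lit 350) (nat_lit 312) (nat_lit 1) (.cons
 (nat_lit 715) (nat_lit 1657) (nat_lit 1321) (nat_lit 1) .nil)), (nat_lit 38), (nat_lit 0), (nat_lit 0),
 (nat_lit 0), (12, 34, 13), [234, 529], 0⟩,
  ⟨⟨-21, 20, 52, 38, 15, -4, -12, 36, -1⟩, (.cons (nat_lit 19) (nat_lit 32) (nat_lit 17) (nat_lit 1) (.cons
 (nat_lit 382) (nat_lit 1719) (nat_lit 1229) (nat_lit 1) .nil)), (nat_lit 1), (nat_lit 0), (nat_lit 0),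
 (nat_lit 0), (12, 9, 13), [168, 2095], 0⟩,
  mz,
  mz,
  ⟨⟨5, -36, 31, -40, -13, 10, 14, -32, -25⟩, (.cons (nat_lit 212) (nat_lit 5) (nat_lit 208) (nat_lit 1) (.cons
 (nat_lit 964) (nat_lit 1006) (nat_lit 477) (nat_lit 1) .nil)), (nat_lit 4), (nat_lit 0), (nat_lit 0), (nat_lit
 0), (11, 41, 5), [135, 1893], 0⟩,
  ⟨⟨-5, 36, 36, 40, 13, -30, -14, 32, -11⟩, (.cons (nat_lit 245) (nat_lit 225) (nat_lit 334) (nat_lit 1) (.cons
 (nat_lit 206) (nat_lit 1917) (nat_lit 43) (nat_lit 1) .nil)), (nat_lit 4), (nat_lit 0), (nat_lit 0), (nat_lit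
 0), (1, 35, 20), [288, 934], 0⟩,
  mz,
  mz,
  mz,
  ⟨⟨33, -8, -53, -20, 27, -20, 30, 24, -13⟩, (.cons (nat_lit 167) (nat_lit 224) (nat_lit 298) (nat_lit 1)
 (.cons (nat_lit 1257) (nat_lit 1333) (nat_lit 2168) (nat_lit 1) .nil)), (nat_lit 36), (nat_lit 0), (nat_lit
 0), (nat_lit 0), (39, 35, 12), [297, 738], 0⟩,
  ⟨⟨19, -36, -36, -20, 13, -30, 34, 8, -35⟩, (.cons (nat_lit 347) (nat_lit 268) (nat_lit 81) (nat_lit 1) (.cons
 (nat_lit 1428) (nat_lit 591) (nat_lit 1643) (nat_lit 1) .nil)), (nat_lit 18), (nat_lit 0), (nat_lit 0),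
 (nat_lit 0), (24, 20, 9), [222, 511], 0⟩,
  mz,
  ⟨⟨-21, -20, 52, 38, -15, -4, -12, -36, -1⟩, (.cons (nat_lit 220) (nat_lit 281) (nat_lit 332) (nat_lit 1)
 (.cons (nat_lit 1189) (nat_lit 68) (nat_lit 803) (nat_lit 1) .nil)), (nat_lit 1), (nat_lit 0), (nat_lit 0),
 (nat_lit 0), (8, 6, 23), [50, 1694], 0⟩,
  ⟨⟨-47, 0, 27, 0, -43, 0, -18, 0, -29⟩, (.cons (nat_lit 257) (nat_lit 146) (nat_lit 314) (nat_lit 1) (.cons
 (nat_lit 189) (nat_lit 929) (nat_lit 256) (nat_lit 1) .nil)), (nat_lit 9), (nat_lit 0), (nat_lit 0), (nat_lit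
 0), (34, 0, 24), [11, 1680], 0⟩,
  ⟨⟨-37, 24, 0, -20, -37, 0, 2, 8, -43⟩, (.cons (nat_lit 184) (nat_lit 150) (nat_lit 145) (nat_lit 1) (.cons
 (nat_lit 348) (nat_lit 2) (nat_lit 837) (nat_lit 1) .nil)), (nat_lit 6), (nat_lit 0), (nat_lit 0), (nat_lit
 0), (34, 30, 40), [290, 1793], 0⟩,
  ⟨⟨33, -8, 20, 20, -27, -40, 30, 24, -17⟩, (.cons (nat_lit 44) (nat_lit 250) (nat_lit 23) (nat_lit 1) (.cons
 (nat_lit 1226) (nat_lit 1107) (nat_lit 729) (nat_lit 1) .nil)), (nat_lit 13), (nat_lit 0), (nat_lit 0),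
 (nat_lit 0), (11, 21, 10), [122, 1963], 0⟩,
  ⟨⟨-39, 16, -4, 20, 37, -20, -2, -8, -41⟩, (.cons (nat_lit 360) (nat_lit 342) (nat_lit 353) (nat_lit 1) (.cons
 (nat_lit 2208) (nat_lit 1433) (nat_lit 1998) (nat_lit 1) .nil)), (nat_lit 37), (nat_lit 0), (nat_lit 0),
 (nat_lit 0), (35, 3, 4), [280, 1601], 0⟩,
  ⟨⟨3, -44, -20, -2, 15, -44, 36, -12, -25⟩, (.cons (nat_lit 354) (nat_lit 267) (nat_lit 254) (nat_lit 1)
 (.cons (nat_lit 1510) (nat_lit 928) (nat_lit 419) (nat_lit 1) .nil)), (nat_lit 33), (nat_lit 0), (nat_lit 0),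
 (nat_lit 0), (10, 22, 34), [44, 1014], 0⟩,
  ⟨⟨-15, -44, 16, 20, -13, -50, -34, -8, -1⟩, (.cons (nat_lit 22) (nat_lit 260) (nat_lit 164) (nat_lit 1)
 (.cons (nat_lit 327) (nat_lit 1654) (nat_lit 1847) (nat_lit 1) .nil)), (nat_lit 25), (nat_lit 0), (nat_lit 0),
 (nat_lit 0), (2, 26, 16), [138, 1133], 0⟩,
  mz,
  mz,
  ⟨⟨33, 32, -28, 2, -15, -46, 36, -12, -11⟩, (.cons (nat_lit 8) (nat_lit 235) (nat_lit 159) (nat_lit 1) (.cons
 (nat_lit 1982) (nat_lit 310) (nat_lit 808) (nat_lit 1) .nil)), (nat_lit 21), (nat_lit 0), (nat_lit 0),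
 (nat_lit 0), (34, 19, 41), [262, 481], 0⟩]

/-- Moves. -/
noncomputable def t4_8 : List Mv := [
  mz,
  ⟨⟨3, 44, -20, 2, 15, 44, 36, 12, -25⟩, (.cons (nat_lit 276) (nat_lit 193) (nat_lit 1) (nat_lit 190) (.cons
 (nat_lit 2076) (nat_lit 1100) (nat_lit 2200) (nat_lit 1) .nil)), (nat_lit 22), (nat_lit 0), (nat_lit 0),
 (nat_lit 0), (36, 24, 2), [118, 271], 0⟩,
  mz,
  mz,
  ⟨⟨15, -44, 1, -20, -13, -30, 34, -8, -35⟩, (.cons (nat_lit 298) (nat_lit 315) (nat_lit 108) (nat_lit 1)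
 (.cons (nat_lit 566) (nat_lit 526) (nat_lit 1725) (nat_lit 1) .nil)), (nat_lit 25), (nat_lit 0), (nat_lit 0),
 (nat_lit 0), (2, 26, 16), [91, 1556], 0⟩,
  ⟨⟨33, -32, -28, -2, -15, 46, 36, 12, -11⟩, (.cons (nat_lit 38) (nat_lit 214) (nat_lit 219) (nat_lit 1) (.cons
 (nat_lit 429) (nat_lit 153) (nat_lit 1179) (nat_lit 1) .nil)), (nat_lit 10), (nat_lit 0), (nat_lit 0),
 (nat_lit 0), (19, 21, 9), [307, 67], 0⟩,
  ⟨⟨-37, -24, 0, -20, 37, 0, 2, -8, -43⟩, (.cons (nat_lit 360) (nat_lit 157) (nat_lit 119) (nat_lit 1) (.cons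
 (nat_lit 2208) (nat_lit 1011) (nat_lit 1198) (nat_lit 1) .nil)), (nat_lit 6), (nat_lit 0), (nat_lit 0),
 (nat_lit 0), (12, 3, 4), [174, 896], 0⟩,
  ⟨⟨33, 8, -53, -20, -27, -20, 30, -24, -13⟩, (.cons (nat_lit 253) (nat_lit 109) (nat_lit 292) (nat_lit 1)
 (.cons (nat_lit 1599) (nat_lit 656) (nat_lit 1822) (nat_lit 1) .nil)), (nat_lit 36), (nat_lit 0), (nat_lit 0),
 (nat_lit 0), (32, 21, 33), [4, 104], 0⟩,
  ⟨⟨-39, -16, -4, -20, 37, 20, -2, 8, -41⟩, (.cons (nat_lit 360) (nat_lit 16) (nat_lit 169) (nat_lit 1) (.cons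
 (nat_lit 2208) (nat_lit 1577) (nat_lit 1236) (nat_lit 1) .nil)), (nat_lit 8), (nat_lit 0), (nat_lit 0),
 (nat_lit 0), (6, 13, 40), [288, 1648], 0⟩,
  ⟨⟨47, 0, -20, 0, -43, 0, 18, 0, -47⟩, (.cons (nat_lit 360) (nat_lit 321) (nat_lit 68) (nat_lit 1) (.cons
 (nat_lit 2208) (nat_lit 1869) (nat_lit 919) (nat_lit 1) .nil)), (nat_lit 9), (nat_lit 0), (nat_lit 0),
 (nat_lit 0), (34, 0, 24), [314, 599], 0⟩,
  ⟨⟨21, -20, 31, 38, 15, -34, 12, -36, -13⟩, (.cons (nat_lit 243) (nat_lit 299) (nat_lit 329) (nat_lit 1)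
 (.cons (nat_lit 2060) (nat_lit 2164) (nat_lit 1472) (nat_lit 1) .nil)), (nat_lit 38), (nat_lit 0), (nat_lit
 0), (nat_lit 0), (8, 37, 23), [136, 1070], 0⟩,
  mz,
  ⟨⟨-15, 44, 16, 20, 13, -50, -34, 8, -1⟩, (.cons (nat_lit 74) (nat_lit 191) (nat_lit 252) (nat_lit 1) (.cons
 (nat_lit 582) (nat_lit 396) (nat_lit 2164) (nat_lit 1) .nil)), (nat_lit 25), (nat_lit 0), (nat_lit 0),
 (nat_lit 0), (28, 20, 9), [231, 464], 0⟩,
  ⟨⟨33, 8, 20, -20, -27, 40, 30, -24, -17⟩, (.cons (nat_lit 320) (nat_lit 142) (nat_lit 221) (nat_lit 1) (.cons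
 (nat_lit 200) (nat_lit 1709) (nat_lit 2203) (nat_lit 1) .nil)), (nat_lit 36), (nat_lit 0), (nat_lit 0),
 (nat_lit 0), (4, 8, 31), [34, 1095], 0⟩,
  mz,
  mz,
  mz,
  ⟨⟨9, -4, -56, 40, -13, -10, 14, 32, -25⟩, (.cons (nat_lit 308) (nat_lit 141) (nat_lit 290) (nat_lit 1) (.cons
 (nat_lit 45) (nat_lit 587) (nat_lit 2098) (nat_lit 1) .nil)), (nat_lit 12), (nat_lit 0), (nat_lit 0), (nat_lit
 0), (19, 8, 20), [313, 1744], 0⟩,
  ⟨⟨-5, -36, 36, -40, 13, 30, -14, -32, -11⟩, (.cons (nat_lit 232) (nat_lit 277) (nat_lit 341) (nat_lit 1)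
 (.cons (nat_lit 1632) (nat_lit 821) (nat_lit 350) (nat_lit 1) .nil)), (nat_lit 31), (nat_lit 0), (nat_lit 0),
 (nat_lit 0), (11, 2, 5), [189, 584], 0⟩,
  mz,
  mz,
  ⟨⟨-9, 16, -44, 38, -15, -34, 12, 36, -13⟩, (.cons (nat_lit 311) (nat_lit 129) (nat_lit 194) (nat_lit 1)
 (.cons (nat_lit 1870) (nat_lit 1539) (nat_lit 757) (nat_lit 1) .nil)), (nat_lit 5), (nat_lit 0), (nat_lit 0),
 (nat_lit 0), (1, 34, 13), [322, 1610], 0⟩,
  ⟨⟨-21, 20, 52, 38, 15, -4, -12, 36, -1⟩, (.cons (nat_lit 19) (nat_lit 32) (nat_lit 17) (nat_lit 1) (.cons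
 (nat_lit 382) (nat_lit 1719) (nat_lit 1229) (nat_lit 1) .nil)), (nat_lit 1), (nat_lit 0), (nat_lit 0),
 (nat_lit 0), (12, 9, 13), [168, 2095], 0⟩,
  mz,
  mz,
  ⟨⟨9, 4, -56, 40, 13, -10, 14, -32, -25⟩, (.cons (nat_lit 161) (nat_lit 295) (nat_lit 221) (nat_lit 1) (.cons
 (nat_lit 1021) (nat_lit 2140) (nat_lit 1765) (nat_lit 1) .nil)), (nat_lit 12), (nat_lit 0), (nat_lit 0),
 (nat_lit 0), (37, 2, 5), [205, 1148], 0⟩,
  ⟨⟨-5, 36, 36, 40, 13, -30, -14, 32, -11⟩, (.cons (nat_lit 245) (nat_lit 225) (nat_lit 334) (nat_lit 1) (.cons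
 (nat_lit 206) (nat_lit 1917) (nat_lit 43) (nat_lit 1) .nil)), (nat_lit 4), (nat_lit 0), (nat_lit 0), (nat_lit
 0), (1, 35, 20), [288, 934], 0⟩,
  mz,
  mz,
  mz,
  ⟨⟨33, -8, -53, -20, 27, -20, 30, 24, -13⟩, (.cons (nat_lit 167) (nat_lit 224) (nat_lit 298) (nat_lit 1)
 (.cons (nat_lit 1257) (nat_lit 1333) (nat_lit 2168) (nat_lit 1) .nil)), (nat_lit 36), (nat_lit 0), (nat_lit
 0), (nat_lit 0), (39, 35, 12), [297, 738], 0⟩,
  ⟨⟨19, -36, -36, -20, 13, -30, 34, 8, -35⟩, (.cons (nat_lit 347) (nat_lit 268) (nat_lit 81) (nat_lit 1) (.cons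
 (nat_lit 1428) (nat_lit 591) (nat_lit 1643) (nat_lit 1) .nil)), (nat_lit 18), (nat_lit 0), (nat_lit 0),
 (nat_lit 0), (24, 20, 9), [222, 511], 0⟩,
  mz,
  ⟨⟨-21, -20, 52, -38, 15, 4, -12, -36, -1⟩, (.cons (nat_lit 103) (nat_lit 296) (nat_lit 191) (nat_lit 1)
 (.cons (nat_lit 572) (nat_lit 1553) (nat_lit 1113) (nat_lit 1) .nil)), (nat_lit 38), (nat_lit 0), (nat_lit 0),
 (nat_lit 0), (8, 37, 23), [23, 1493], 0⟩,
  ⟨⟨29, 0, -56, 0, 43, 0, -18, 0, -29⟩, (.cons (nat_lit 360) (nat_lit 226) (nat_lit 30) (nat_lit 1) (.cons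
 (nat_lit 2208) (nat_lit 1072) (nat_lit 2085) (nat_lit 1) .nil)), (nat_lit 34), (nat_lit 0), (nat_lit 0),
 (nat_lit 0), (33, 0, 24), [256, 1031], 0⟩,
  ⟨⟨39, -16, -43, -20, -37, 0, 2, 8, -43⟩, (.cons (nat_lit 171) (nat_lit 297) (nat_lit 341) (nat_lit 1) (.cons
 (nat_lit 780) (nat_lit 1173) (nat_lit 1166) (nat_lit 1) .nil)), (nat_lit 37), (nat_lit 0), (nat_lit 0),
 (nat_lit 0), (6, 30, 40), [326, 947], 0⟩,
  ⟨⟨-3, 32, -37, 20, -27, -40, 30, 24, -17⟩, (.cons (nat_lit 147) (nat_lit 284) (nat_lit 236) (nat_lit 1)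
 (.cons (nat_lit 1970) (nat_lit 491) (nat_lit 1246) (nat_lit 1) .nil)), (nat_lit 30), (nat_lit 0), (nat_lit 0),
 (nat_lit 0), (42, 21, 10), [346, 1258], 0⟩,
  ⟨⟨-39, 16, -4, 20, 37, -20, -2, -8, -41⟩, (.cons (nat_lit 360) (nat_lit 342) (nat_lit 353) (nat_lit 1) (.cons
 (nat_lit 2208) (nat_lit 1433) (nat_lit 1998) (nat_lit 1) .nil)), (nat_lit 37), (nat_lit 0), (nat_lit 0),
 (nat_lit 0), (35, 3, 4), [280, 1601], 0⟩,
  ⟨⟨3, -44, -20, -2, 15, -44, 36, -12, -25⟩, (.cons (nat_lit 354) (nat_lit 267) (nat_lit 254) (nat_lit 1)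
 (.cons (nat_lit 1510) (nat_lit 928) (nat_lit 419) (nat_lit 1) .nil)), (nat_lit 33), (nat_lit 0), (nat_lit 0),
 (nat_lit 0), (10, 22, 34), [44, 1014], 0⟩,
  ⟨⟨-15, -44, 16, 20, -13, -50, -34, -8, -1⟩, (.cons (nat_lit 22) (nat_lit 260) (nat_lit 164) (nat_lit 1)
 (.cons (nat_lit 327) (nat_lit 1654) (nat_lit 1847) (nat_lit 1) .nil)), (nat_lit 25), (nat_lit 0), (nat_lit 0),
 (nat_lit 0), (2, 26, 16), [138, 1133], 0⟩,
  mz,
  mz,
  ⟨⟨33, 32, -28, 2, -15, -46, 36, -12, -11⟩, (.cons (nat_lit 8) (nat_lit 235) (nat_lit 159) (nat_lit 1) (.cons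
 (nat_lit 1982) (nat_lit 310) (nat_lit 808) (nat_lit 1) .nil)), (nat_lit 21), (nat_lit 0), (nat_lit 0),
 (nat_lit 0), (34, 19, 41), [262, 481], 0⟩]

/-- All the moves. -/
noncomputable def tabs : List (List (List Mv)) := [[[], t0_1, t0_2, [], [], [], [], [], t0_8], [[], t1_1, t1_2, [], [], [], [], [], t1_8], [], [], [[], t4_1, t4_2, [], [], [], [], [], t4_8]]

/-- Subtrie. -/
noncomputable def T1 : Tr := (.ev (nat_lit 20) (nat_lit 4733087789904) (.nd (nat_lit 33) (.br (nat_lit 25) (.br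
 (nat_lit 14) (.br (nat_lit 5) (.br (nat_lit 2) (.ch (nat_lit 1) (.ev (nat_lit 52) (nat_lit 550900858912) (.ev
 (nat_lit 436) (nat_lit 128) (.ev (nat_lit 500) (nat_lit 137438953472) (.ev (nat_lit 580) (nat_lit 2097152)
 (.ev (nat_lit 980) (nat_lit 131072) (.ev (nat_lit 1332) (nat_lit 2147483650) (.ev (nat_lit 1492) (nat_lit
 1024) (.ev (nat_lit 1501) (nat_lit 68719476736) .dd))))))))) (.br (nat_lit 3) (.ch (nat_lit 2) (.ev (nat_lit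
 52) (nat_lit 206158430368) (.ev (nat_lit 64) (nat_lit 553050571778) .dd))) (.ch (nat_lit 3) (.ev (nat_lit 52)
 (nat_lit 206229864480) (.ev (nat_lit 416) (nat_lit 552979137666) .dd))))) (.br (nat_lit 11) (.br (nat_lit 9)
 (.ch (nat_lit 5) (.ev (nat_lit 52) (nat_lit 70936298626) (.ev (nat_lit 148) (nat_lit 1073741824) (.ev (nat_lit
 340) (nat_lit 549755813888) (.ev (nat_lit 804) (nat_lit 4194304) (.ev (nat_lit 1124) (nat_lit 32) (.ev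
 (nat_lit 1133) (nat_lit 137438953472) .dd))))))) (.ch (nat_lit 9) (.ev (nat_lit 52) (nat_lit 755916341378)
 (.ev (nat_lit 308) (nat_lit 32) (.ev (nat_lit 340) (nat_lit 4194304) (.ev (nat_lit 1172) (nat_lit 1073741824)
 (.ev (nat_lit 1428) (nat_lit 131072) (.ev (nat_lit 1440) (nat_lit 2214592512) (.ev (nat_lit 1453) (nat_lit
 1024) .dd))))))))) (.br (nat_lit 12) (.ch (nat_lit 11) (.ev (nat_lit 52) (nat_lit 3290562720) (.ev (nat_lit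
 180) (nat_lit 4194304) (.ev (nat_lit 212) (nat_lit 549755813888) (.ev (nat_lit 532) (nat_lit 1024) (.ev
 (nat_lit 836) (nat_lit 137438953472) (.ev (nat_lit 1700) (nat_lit 68719476736) (.ev (nat_lit 1709) (nat_lit 2)
 .dd)))))))) (.ch (nat_lit 12) (.ev (nat_lit 52) (nat_lit 68788683776) (.ev (nat_lit 128) (nat_lit
 690420318370) .dd)))))) (.br (nat_lit 19) (.br (nat_lit 16) (.br (nat_lit 15) (.ch (nat_lit 14) (.ev (nat_lit
 52) (nat_lit 687198961666) (.ev (nat_lit 84) (nat_lit 2147483648) (.ev (nat_lit 308) (nat_lit 1024) (.ev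
 (nat_lit 340) (nat_lit 131072) (.ev (nat_lit 468) (nat_lit 1073741824) (.ev (nat_lit 708) (nat_lit 67108864)
 (.ev (nat_lit 1652) (nat_lit 160) (.ev (nat_lit 1728) (nat_lit 68721573888) .dd))))))))) (.ch (nat_lit 15)
 (.ev (nat_lit 52) (nat_lit 3288335362) (.ev (nat_lit 84) (nat_lit 128) (.ev (nat_lit 244) (nat_lit
 137438953472) (.ev (nat_lit 580) (nat_lit 68719476736) (.ev (nat_lit 612) (nat_lit 131072) (.ev (nat_lit 772)
 (nat_lit 549755813888) (.ev (nat_lit 948) (nat_lit 32) (.ev (nat_lit 1716) (nat_lit 2097152) (.ev (nat_lit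
 1725) (nat_lit 4194304) .dd))))))))))) (.br (nat_lit 18) (.ch (nat_lit 16) (.ev (nat_lit 52) (nat_lit
 755920535712) (.ev (nat_lit 436) (nat_lit 2) (.ev (nat_lit 708) (nat_lit 2147483648) (.ev (nat_lit 1124)
 (nat_lit 1024) (.ev (nat_lit 1284) (nat_lit 1140850688) (.ev (nat_lit 1293) (nat_lit 131072) .dd))))))) (.ch
 (nat_lit 18) (.ev (nat_lit 52) (nat_lit 140733580418) (.ev (nat_lit 500) (nat_lit 32) (.ev (nat_lit 1680)
 (nat_lit 549755944960) (.ev (nat_lit 1693) (nat_lit 68719476736) .dd))))))) (.br (nat_lit 21) (.br (nat_lit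
 20) (.ch (nat_lit 19) (.ev (nat_lit 52) (nat_lit 2153775136) (.ev (nat_lit 644) (nat_lit 67108864) (.ev
 (nat_lit 804) (nat_lit 131072) (.ev (nat_lit 884) (nat_lit 137438953472) (.ev (nat_lit 1220) (nat_lit 1024)
 (.ev (nat_lit 1748) (nat_lit 68719476738) (.ev (nat_lit 1780) (nat_lit 549755813888) (.nd (nat_lit 2064) (.ch
 (nat_lit 11) (.fin (nat_lit 576462401572389439)))))))))))) (.ch (nat_lit 20) (.ev (nat_lit 52) (nat_lit
 138586095744) (.ev (nat_lit 560) (nat_lit 620622906402) .dd)))) (.br (nat_lit 22) (.ch (nat_lit 21) (.ev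
 (nat_lit 52) (nat_lit 756988116994) (.ev (nat_lit 372) (nat_lit 32) (.ev (nat_lit 644) (nat_lit 128) (.ev
 (nat_lit 996) (nat_lit 1024) (.ev (nat_lit 1312) (nat_lit 2220883968) .dd)))))) (.ch (nat_lit 22) (.ev
 (nat_lit 52) (nat_lit 689346577442) (.ev (nat_lit 580) (nat_lit 67108864) (.ev (nat_lit 2004) (nat_lit
 68721573888) (.nd (nat_lit 2064) (.ch (nat_lit 11) (.fin (nat_lit 576462401572389439)))))))))))) (.br (nat_lit
 33) (.br (nat_lit 28) (.br (nat_lit 26) (.ch (nat_lit 25) (.ev (nat_lit 52) (nat_lit 549825020930) (.ev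
 (nat_lit 276) (nat_lit 4194304) (.ev (nat_lit 448) (nat_lit 209379786912) .dd)))) (.br (nat_lit 27) (.ch
 (nat_lit 26) (.ev (nat_lit 52) (nat_lit 138579804290) (.ev (nat_lit 244) (nat_lit 1024) (.ev (nat_lit 384)
 (nat_lit 620629196832) .dd)))) (.ch (nat_lit 27) (.ev (nat_lit 52) (nat_lit 206164853762) (.ev (nat_lit 436)
 (nat_lit 67108864) (.ev (nat_lit 708) (nat_lit 1073741824) (.ev (nat_lit 1264) (nat_lit 551903297696)
 .dd))))))) (.br (nat_lit 31) (.br (nat_lit 29) (.ch (nat_lit 28) (.ev (nat_lit 52) (nat_lit 551909590050) (.ev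
 (nat_lit 372) (nat_lit 137438953472) (.ev (nat_lit 436) (nat_lit 1073741824) (.ev (nat_lit 468) (nat_lit
 68719476736) (.ev (nat_lit 1172) (nat_lit 67108864) (.ev (nat_lit 1956) (nat_lit 131072) (.ev (nat_lit 1965)
 (nat_lit 128) .dd)))))))) (.ch (nat_lit 29) (.ev (nat_lit 52) (nat_lit 618481714208) (.ev (nat_lit 404)
 (nat_lit 67108864) (.ev (nat_lit 1152) (nat_lit 140660179074) .dd))))) (.br (nat_lit 32) (.ch (nat_lit 31)
 (.ev (nat_lit 52) (nat_lit 618481582242) (.ev (nat_lit 624) (nat_lit 140727419904) .dd))) (.ch (nat_lit 32)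
 (.ev (nat_lit 52) (nat_lit 3221357602) (.ev (nat_lit 148) (nat_lit 67108992) (.ev (nat_lit 212) (nat_lit
 4194304) (.ev (nat_lit 404) (nat_lit 68719476736) (.ev (nat_lit 1060) (nat_lit 549755813888) (.ev (nat_lit
 2036) (nat_lit 137438953472) (.ev (nat_lit 2045) (nat_lit 2097152) .dd))))))))))) (.br (nat_lit 42) (.br
 (nat_lit 36) (.br (nat_lit 35) (.ch (nat_lit 33) (.ev (nat_lit 52) (nat_lit 1075840002) (.ev (nat_lit 468)
 (nat_lit 128) (.ev (nat_lit 708) (nat_lit 68719476736) (.ev (nat_lit 772) (nat_lit 131072) (.ev (nat_lit 836)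
 (nat_lit 32) (.ev (nat_lit 948) (nat_lit 137438953472) (.ev (nat_lit 1332) (nat_lit 67108864) (.ev (nat_lit
 1460) (nat_lit 2147483648) (.ev (nat_lit 1828) (nat_lit 549755813888) (.ev (nat_lit 1837) (nat_lit 4194304)
 .dd))))))))))) (.ch (nat_lit 35) (.ev (nat_lit 52) (nat_lit 138517021856) (.ev (nat_lit 84) (nat_lit 2) (.ev
 (nat_lit 468) (nat_lit 67108864) (.ev (nat_lit 644) (nat_lit 2147483648) (.ev (nat_lit 980) (nat_lit
 549755813888) (.ev (nat_lit 1508) (nat_lit 2097152) (.ev (nat_lit 1517) (nat_lit 68719476736) .dd)))))))))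
 (.br (nat_lit 38) (.ch (nat_lit 36) (.ev (nat_lit 52) (nat_lit 621767951392) (.ev (nat_lit 436) (nat_lit
 2097152) (.ev (nat_lit 1172) (nat_lit 128) (.ev (nat_lit 1492) (nat_lit 137438953472) (.ev (nat_lit 1501)
 (nat_lit 2) .dd)))))) (.ch (nat_lit 38) (.ev (nat_lit 52) (nat_lit 621700711554) (.ev (nat_lit 84) (nat_lit
 2097152) (.ev (nat_lit 276) (nat_lit 131072) (.ev (nat_lit 1460) (nat_lit 67108864) (.ev (nat_lit 1540)
 (nat_lit 32) (.ev (nat_lit 1549) (nat_lit 137438953472) .dd))))))))) (.br (nat_lit 45) (.br (nat_lit 44) (.ch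
 (nat_lit 42) (.ev (nat_lit 52) (nat_lit 70938394784) (.ev (nat_lit 180) (nat_lit 549755813888) (.ev (nat_lit
 404) (nat_lit 2) (.ev (nat_lit 1172) (nat_lit 2097152) (.ev (nat_lit 1220) (nat_lit 137438953472) (.ev
 (nat_lit 1636) (nat_lit 1024) (.ev (nat_lit 1645) (nat_lit 1073741824) .dd)))))))) (.ch (nat_lit 44) (.ev
 (nat_lit 52) (nat_lit 2216821920) (.ev (nat_lit 916) (nat_lit 137438953472) (.ev (nat_lit 1028) (nat_lit
 4194304) (.ev (nat_lit 1972) (nat_lit 550829555712) (.ev (nat_lit 1984) (nat_lit 68719476738) .dd))))))) (.br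
 (nat_lit 46) (.ch (nat_lit 45) (.ev (nat_lit 52) (nat_lit 209379655840) (.ev (nat_lit 84) (nat_lit 67108864)
 (.ev (nat_lit 148) (nat_lit 2097152) (.ev (nat_lit 180) (nat_lit 131072) (.ev (nat_lit 276) (nat_lit
 549755813888) (.ev (nat_lit 916) (nat_lit 1024) (.ev (nat_lit 2052) (nat_lit 2) (.ev (nat_lit 2061) (nat_lit
 4194304) .dd))))))))) (.ch (nat_lit 46) (.ev (nat_lit 52) (nat_lit 550831784962) (.ev (nat_lit 532) (nat_lit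
 32) (.ev (nat_lit 688) (nat_lit 208377217152) .dd)))))))))))

/-- Subtrie. -/
noncomputable def T2 : Tr := (.ev (nat_lit 20) (nat_lit 5145440290448) (.nd (nat_lit 33) (.br (nat_lit 25) (.br
 (nat_lit 14) (.br (nat_lit 5) (.br (nat_lit 2) (.ch (nat_lit 1) (.ev (nat_lit 52) (nat_lit 1111498784) (.ev
 (nat_lit 244) (nat_lit 68719476736) (.ev (nat_lit 340) (nat_lit 2) (.ev (nat_lit 752) (nat_lit 277025526080)
 .dd))))) (.br (nat_lit 3) (.ch (nat_lit 2) (.ev (nat_lit 52) (nat_lit 343630950752) (.ev (nat_lit 212)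
 (nat_lit 2) (.ev (nat_lit 372) (nat_lit 1073741824) (.ev (nat_lit 404) (nat_lit 131072) (.ev (nat_lit 532)
 (nat_lit 2147483648) (.ev (nat_lit 541) (nat_lit 4194304) .dd))))))) (.ch (nat_lit 3) (.ev (nat_lit 52)
 (nat_lit 343601713440) (.ev (nat_lit 916) (nat_lit 1073741824) (.ev (nat_lit 1072) (nat_lit 2181046338)
 .dd)))))) (.br (nat_lit 11) (.br (nat_lit 9) (.ch (nat_lit 5) (.ev (nat_lit 52) (nat_lit 345778556930) (.ev
 (nat_lit 404) (nat_lit 32) (.ev (nat_lit 500) (nat_lit 256) (.ev (nat_lit 1092) (nat_lit 64) (.ev (nat_lit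
 1364) (nat_lit 8192) (.ev (nat_lit 1540) (nat_lit 1073741824) (.ev (nat_lit 1549) (nat_lit 4194304)
 .dd)))))))) (.ch (nat_lit 9) (.ev (nat_lit 52) (nat_lit 68753043458) (.ev (nat_lit 192) (nat_lit 278103458144)
 .dd)))) (.br (nat_lit 12) (.ch (nat_lit 11) (.ev (nat_lit 52) (nat_lit 278099275808) (.ev (nat_lit 116)
 (nat_lit 33554432) (.ev (nat_lit 804) (nat_lit 64) (.ev (nat_lit 1092) (nat_lit 4194304) (.ev (nat_lit 1188)
 (nat_lit 256) (.ev (nat_lit 1492) (nat_lit 68719476736) (.ev (nat_lit 1501) (nat_lit 2) .dd)))))))) (.ch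
 (nat_lit 12) (.ev (nat_lit 52) (nat_lit 343630946624) (.ev (nat_lit 308) (nat_lit 1073741824) (.ev (nat_lit
 548) (nat_lit 2) (.ev (nat_lit 708) (nat_lit 32) (.ev (nat_lit 852) (nat_lit 4194304) (.ev (nat_lit 1300)
 (nat_lit 4096) (.ev (nat_lit 1760) (nat_lit 2147614720) .dd))))))))))) (.br (nat_lit 19) (.br (nat_lit 16)
 (.br (nat_lit 15) (.ch (nat_lit 14) (.ev (nat_lit 52) (nat_lit 37757186) (.ev (nat_lit 256) (nat_lit
 346818744416) .dd))) (.ch (nat_lit 15) (.ev (nat_lit 52) (nat_lit 278099144706) (.ev (nat_lit 580) (nat_lit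
 131072) (.ev (nat_lit 740) (nat_lit 64) (.ev (nat_lit 1008) (nat_lit 68757225760) .dd)))))) (.br (nat_lit 18)
 (.ch (nat_lit 16) (.ev (nat_lit 52) (nat_lit 343635132448) (.ev (nat_lit 244) (nat_lit 1073741824) (.ev
 (nat_lit 916) (nat_lit 256) (.ev (nat_lit 1284) (nat_lit 131072) (.ev (nat_lit 1364) (nat_lit 2) (.ev (nat_lit
 1716) (nat_lit 64) (.ev (nat_lit 1924) (nat_lit 2147483648) (.ev (nat_lit 1936) (nat_lit 12288) .dd)))))))))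
 (.ch (nat_lit 18) (.ev (nat_lit 52) (nat_lit 278103326978) (.ev (nat_lit 84) (nat_lit 131072) (.ev (nat_lit
 784) (nat_lit 68753043552) .dd)))))) (.br (nat_lit 21) (.br (nat_lit 20) (.ch (nat_lit 19) (.ev (nat_lit 52)
 (nat_lit 277063143712) (.ev (nat_lit 180) (nat_lit 8194) (.ev (nat_lit 676) (nat_lit 1073741824) (.ev (nat_lit
 948) (nat_lit 68719476736) (.ev (nat_lit 1700) (nat_lit 131072) (.ev (nat_lit 1709) (nat_lit 64) .dd)))))))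
 (.ch (nat_lit 20) (.ev (nat_lit 52) (nat_lit 1111490880) (.ev (nat_lit 84) (nat_lit 32) (.ev (nat_lit 532)
 (nat_lit 274877906944) (.ev (nat_lit 644) (nat_lit 4096) (.ev (nat_lit 740) (nat_lit 8192) (.ev (nat_lit 884)
 (nat_lit 2147483648) (.ev (nat_lit 1396) (nat_lit 68719476736) (.ev (nat_lit 1812) (nat_lit 2) (.ev (nat_lit
 1821) (nat_lit 131072) .dd))))))))))) (.br (nat_lit 22) (.ch (nat_lit 21) (.ev (nat_lit 52) (nat_lit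
 69793358146) (.ev (nat_lit 116) (nat_lit 2147483648) (.ev (nat_lit 740) (nat_lit 4194304) (.ev (nat_lit 836)
 (nat_lit 274877906944) (.ev (nat_lit 1124) (nat_lit 33554432) (.ev (nat_lit 1700) (nat_lit 4096) (.ev (nat_lit
 1709) (nat_lit 32) .dd)))))))) (.ch (nat_lit 22) (.ev (nat_lit 52) (nat_lit 2151809058) (.ev (nat_lit 116)
 (nat_lit 274877906944) (.ev (nat_lit 148) (nat_lit 4096) (.ev (nat_lit 676) (nat_lit 256) (.ev (nat_lit 1060)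
 (nat_lit 64) (.ev (nat_lit 1092) (nat_lit 8192) (.ev (nat_lit 1252) (nat_lit 33554432) (.ev (nat_lit 1588)
 (nat_lit 68719476736) (.ev (nat_lit 1597) (nat_lit 1073741824) .dd)))))))))))))) (.br (nat_lit 33) (.br
 (nat_lit 28) (.br (nat_lit 26) (.ch (nat_lit 25) (.ev (nat_lit 52) (nat_lit 274877911106) (.ev (nat_lit 148)
 (nat_lit 131072) (.ev (nat_lit 244) (nat_lit 2147483648) (.ev (nat_lit 308) (nat_lit 33554688) (.ev (nat_lit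
 1060) (nat_lit 8192) (.ev (nat_lit 1220) (nat_lit 1073741824) (.ev (nat_lit 1364) (nat_lit 4194304) (.ev
 (nat_lit 1844) (nat_lit 32) (.ev (nat_lit 1853) (nat_lit 68719476736) .dd)))))))))) (.br (nat_lit 27) (.ch
 (nat_lit 26) (.ev (nat_lit 52) (nat_lit 1073750338) (.ev (nat_lit 320) (nat_lit 345782751264) .dd))) (.ch
 (nat_lit 27) (.ev (nat_lit 52) (nat_lit 68723810370) (.ev (nat_lit 372) (nat_lit 2147483648) (.ev (nat_lit
 468) (nat_lit 4096) (.ev (nat_lit 676) (nat_lit 33554432) (.ev (nat_lit 1124) (nat_lit 274877906944) (.ev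
 (nat_lit 1396) (nat_lit 256) (.ev (nat_lit 2036) (nat_lit 1073741824) (.ev (nat_lit 2045) (nat_lit 32)
 .dd))))))))))) (.br (nat_lit 31) (.br (nat_lit 29) (.ch (nat_lit 28) (.ev (nat_lit 52) (nat_lit 277029589026)
 (.ev (nat_lit 116) (nat_lit 1073741824) (.ev (nat_lit 676) (nat_lit 68719476736) (.ev (nat_lit 1040) (nat_lit
 33694016) .dd))))) (.ch (nat_lit 29) (.ev (nat_lit 52) (nat_lit 68757368928) (.ev (nat_lit 916) (nat_lit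
 274877906944) (.ev (nat_lit 1556) (nat_lit 2) (.ev (nat_lit 1668) (nat_lit 256) (.ev (nat_lit 1876) (nat_lit
 2147483648) (.ev (nat_lit 1885) (nat_lit 1073741824) .dd)))))))) (.br (nat_lit 32) (.ch (nat_lit 31) (.ev
 (nat_lit 52) (nat_lit 343601578082) (.ev (nat_lit 532) (nat_lit 1073741824) (.ev (nat_lit 612) (nat_lit 8192)
 (.ev (nat_lit 960) (nat_lit 2181173504) .dd))))) (.ch (nat_lit 32) (.ev (nat_lit 52) (nat_lit 3221369122) (.ev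
 (nat_lit 244) (nat_lit 33554432) (.ev (nat_lit 612) (nat_lit 64) (.ev (nat_lit 1508) (nat_lit 4194304) (.ev
 (nat_lit 1556) (nat_lit 68719476736) (.ev (nat_lit 1565) (nat_lit 274877906944) .dd)))))))))) (.br (nat_lit
 42) (.br (nat_lit 36) (.br (nat_lit 35) (.ch (nat_lit 33) (.ev (nat_lit 52) (nat_lit 1107296322) (.ev (nat_lit
 160) (nat_lit 345749205280) .dd))) (.ch (nat_lit 35) (.ev (nat_lit 52) (nat_lit 1078067488) (.ev (nat_lit 308)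
 (nat_lit 2147483648) (.ev (nat_lit 500) (nat_lit 68719476736) (.ev (nat_lit 592) (nat_lit 274911473730)
 .dd)))))) (.br (nat_lit 38) (.ch (nat_lit 36) (.ev (nat_lit 52) (nat_lit 346822947104) (.ev (nat_lit 212)
 (nat_lit 64) (.ev (nat_lit 836) (nat_lit 33554432) (.ev (nat_lit 845) (nat_lit 2) .dd))))) (.ch (nat_lit 38)
 (.ev (nat_lit 52) (nat_lit 71978451010) (.ev (nat_lit 148) (nat_lit 32) (.ev (nat_lit 436) (nat_lit 131072)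
 (.ev (nat_lit 804) (nat_lit 8192) (.ev (nat_lit 1408) (nat_lit 274877911040) (.ev (nat_lit 1421) (nat_lit 256)
 .dd))))))))) (.br (nat_lit 45) (.br (nat_lit 44) (.ch (nat_lit 42) (.ev (nat_lit 52) (nat_lit 70871289888)
 (.ev (nat_lit 372) (nat_lit 33554432) (.ev (nat_lit 720) (nat_lit 275951657282) .dd)))) (.ch (nat_lit 44) (.ev
 (nat_lit 52) (nat_lit 277025521760) (.ev (nat_lit 116) (nat_lit 256) (.ev (nat_lit 580) (nat_lit 4096) (.ev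
 (nat_lit 884) (nat_lit 69793218560) (.ev (nat_lit 1344) (nat_lit 37756930) .dd))))))) (.br (nat_lit 46) (.ch
 (nat_lit 45) (.ev (nat_lit 52) (nat_lit 346818609504) (.ev (nat_lit 84) (nat_lit 4096) (.ev (nat_lit 500)
 (nat_lit 33554432) (.ev (nat_lit 612) (nat_lit 4194304) (.ev (nat_lit 1028) (nat_lit 2) (.ev (nat_lit 1956)
 (nat_lit 8192) (.ev (nat_lit 1965) (nat_lit 131072) .dd)))))))) (.ch (nat_lit 46) (.ev (nat_lit 52) (nat_lit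
 275985342466) (.ev (nat_lit 116) (nat_lit 68719476736) (.ev (nat_lit 404) (nat_lit 4096) (.ev (nat_lit 772)
 (nat_lit 64) (.ev (nat_lit 948) (nat_lit 2147483648) (.ev (nat_lit 1332) (nat_lit 32) (.ev (nat_lit 1796)
 (nat_lit 256) (.ev (nat_lit 1805) (nat_lit 4194304) .dd))))))))))))))))

/-- Subtrie. -/
noncomputable def T8 : Tr := (.ev (nat_lit 20) (nat_lit 5363441210560) (.nd (nat_lit 33) (.br (nat_lit 25) (.br
 (nat_lit 14) (.br (nat_lit 5) (.br (nat_lit 2) (.ch (nat_lit 1) (.ev (nat_lit 52) (nat_lit 8594399792) (.ev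
 (nat_lit 148) (nat_lit 2097152) (.ev (nat_lit 180) (nat_lit 256) (.ev (nat_lit 532) (nat_lit 2) (.ev (nat_lit
 836) (nat_lit 17179869184) (.ev (nat_lit 2016) (nat_lit 103079215104) .dd))))))) (.br (nat_lit 3) (.ch
 (nat_lit 2) (.ev (nat_lit 52) (nat_lit 103079224096) (.ev (nat_lit 116) (nat_lit 17179869184) (.ev (nat_lit
 772) (nat_lit 8590196736) (.ev (nat_lit 1092) (nat_lit 16) (.ev (nat_lit 1284) (nat_lit 2097152) (.ev (nat_lit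
 1636) (nat_lit 4194304) (.ev (nat_lit 1645) (nat_lit 2) .dd)))))))) (.ch (nat_lit 3) (.ev (nat_lit 52)
 (nat_lit 94493475104) (.ev (nat_lit 340) (nat_lit 16) (.ev (nat_lit 532) (nat_lit 512) (.ev (nat_lit 928)
 (nat_lit 34362105858) .dd))))))) (.br (nat_lit 11) (.br (nat_lit 9) (.ch (nat_lit 5) (.ev (nat_lit 52)
 (nat_lit 85901443074) (.ev (nat_lit 84) (nat_lit 32) (.ev (nat_lit 180) (nat_lit 8192) (.ev (nat_lit 612)
 (nat_lit 8589934592) (.ev (nat_lit 708) (nat_lit 34359738368) (.ev (nat_lit 740) (nat_lit 256) (.ev (nat_lit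
 1252) (nat_lit 4194304) (.ev (nat_lit 1364) (nat_lit 16) (.ev (nat_lit 1908) (nat_lit 512) (.ev (nat_lit 1917)
 (nat_lit 262144) .dd))))))))))) (.ch (nat_lit 9) (.ev (nat_lit 52) (nat_lit 77311779346) (.ev (nat_lit 500)
 (nat_lit 17179869184) (.ev (nat_lit 644) (nat_lit 32) (.ev (nat_lit 1556) (nat_lit 34359738368) (.ev (nat_lit
 1652) (nat_lit 4194304) (.ev (nat_lit 1661) (nat_lit 256) .dd)))))))) (.br (nat_lit 12) (.ch (nat_lit 11) (.ev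
 (nat_lit 52) (nat_lit 60131647536) (.ev (nat_lit 212) (nat_lit 262144) (.ev (nat_lit 372) (nat_lit 2) (.ev
 (nat_lit 948) (nat_lit 4194304) (.ev (nat_lit 1428) (nat_lit 256) (.ev (nat_lit 1892) (nat_lit 68719476736)
 (.ev (nat_lit 1901) (nat_lit 512) .dd)))))))) (.ch (nat_lit 12) (.ev (nat_lit 52) (nat_lit 128851124480) (.ev
 (nat_lit 836) (nat_lit 4194304) (.ev (nat_lit 1028) (nat_lit 16) (.ev (nat_lit 1092) (nat_lit 262144) (.ev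
 (nat_lit 1616) (nat_lit 546) .dd))))))))) (.br (nat_lit 19) (.br (nat_lit 16) (.br (nat_lit 15) (.ch (nat_lit
 14) (.ev (nat_lit 52) (nat_lit 25774268674) (.ev (nat_lit 468) (nat_lit 2097152) (.ev (nat_lit 612) (nat_lit
 16) (.ev (nat_lit 1200) (nat_lit 103079215648) .dd))))) (.ch (nat_lit 15) (.ev (nat_lit 52) (nat_lit
 42949681666) (.ev (nat_lit 288) (nat_lit 85905899824) .dd)))) (.br (nat_lit 18) (.ch (nat_lit 16) (.ev
 (nat_lit 52) (nat_lit 85905637424) (.ev (nat_lit 116) (nat_lit 2) (.ev (nat_lit 148) (nat_lit 34359738368)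
 (.ev (nat_lit 340) (nat_lit 8192) (.ev (nat_lit 676) (nat_lit 512) (.ev (nat_lit 1428) (nat_lit 8589934592)
 (.ev (nat_lit 1780) (nat_lit 262144) (.ev (nat_lit 1789) (nat_lit 256) .dd))))))))) (.ch (nat_lit 18) (.ev
 (nat_lit 52) (nat_lit 8596488466) (.ev (nat_lit 212) (nat_lit 68719476736) (.ev (nat_lit 1252) (nat_lit
 17179869696) (.ev (nat_lit 1472) (nat_lit 8224) (.ev (nat_lit 1485) (nat_lit 34359738368) .dd)))))))) (.br
 (nat_lit 21) (.br (nat_lit 20) (.ch (nat_lit 19) (.ev (nat_lit 52) (nat_lit 8596226352) (.ev (nat_lit 308)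
 (nat_lit 17179869184) (.ev (nat_lit 864) (nat_lit 103079485954) .dd)))) (.ch (nat_lit 20) (.ev (nat_lit 52)
 (nat_lit 8596226816) (.ev (nat_lit 224) (nat_lit 120259354674) .dd)))) (.br (nat_lit 22) (.ch (nat_lit 21)
 (.ev (nat_lit 52) (nat_lit 103079224066) (.ev (nat_lit 276) (nat_lit 262144) (.ev (nat_lit 500) (nat_lit
 4194304) (.ev (nat_lit 1104) (nat_lit 25771900976) .dd))))) (.ch (nat_lit 22) (.ev (nat_lit 52) (nat_lit
 8594128946) (.ev (nat_lit 276) (nat_lit 68719484928) (.ev (nat_lit 644) (nat_lit 34359738368) (.ev (nat_lit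
 980) (nat_lit 262144) (.ev (nat_lit 1060) (nat_lit 256) (.ev (nat_lit 1396) (nat_lit 17179869184) (.ev
 (nat_lit 1636) (nat_lit 512) (.ev (nat_lit 1645) (nat_lit 2097152) .dd))))))))))))) (.br (nat_lit 33) (.br
 (nat_lit 28) (.br (nat_lit 26) (.ch (nat_lit 25) (.ev (nat_lit 52) (nat_lit 8592031762) (.ev (nat_lit 116)
 (nat_lit 4194304) (.ev (nat_lit 244) (nat_lit 17179869184) (.ev (nat_lit 372) (nat_lit 512) (.ev (nat_lit 436)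
 (nat_lit 32) (.ev (nat_lit 468) (nat_lit 34359738368) (.ev (nat_lit 1028) (nat_lit 256) (.ev (nat_lit 1604)
 (nat_lit 68719476736) (.ev (nat_lit 1860) (nat_lit 8192) (.ev (nat_lit 1869) (nat_lit 262144) .dd)))))))))))
 (.br (nat_lit 27) (.ch (nat_lit 26) (.ev (nat_lit 52) (nat_lit 51539616018) (.ev (nat_lit 512) (nat_lit
 77315965472) .dd))) (.ch (nat_lit 27) (.ev (nat_lit 52) (nat_lit 120265646082) (.ev (nat_lit 212) (nat_lit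
 8589934592) (.ev (nat_lit 884) (nat_lit 512) (.ev (nat_lit 980) (nat_lit 272) (.ev (nat_lit 989) (nat_lit 32)
 .dd)))))))) (.br (nat_lit 31) (.br (nat_lit 29) (.ch (nat_lit 28) (.ev (nat_lit 52) (nat_lit 34366292002) (.ev
 (nat_lit 180) (nat_lit 8589934592) (.ev (nat_lit 656) (nat_lit 85899354896) .dd)))) (.ch (nat_lit 29) (.ev
 (nat_lit 52) (nat_lit 111675449376) (.ev (nat_lit 212) (nat_lit 256) (.ev (nat_lit 340) (nat_lit 262144) (.ev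
 (nat_lit 1232) (nat_lit 17179869714) .dd)))))) (.br (nat_lit 32) (.ch (nat_lit 31) (.ev (nat_lit 52) (nat_lit
 68726030898) (.ev (nat_lit 340) (nat_lit 8589934592) (.ev (nat_lit 1140) (nat_lit 34359738368) (.ev (nat_lit
 1376) (nat_lit 17179877632) .dd))))) (.ch (nat_lit 32) (.ev (nat_lit 52) (nat_lit 25769812258) (.ev (nat_lit
 352) (nat_lit 103085769232) .dd)))))) (.br (nat_lit 42) (.br (nat_lit 36) (.br (nat_lit 35) (.ch (nat_lit 33)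
 (.ev (nat_lit 52) (nat_lit 34362098194) (.ev (nat_lit 740) (nat_lit 68719476736) (.ev (nat_lit 772) (nat_lit
 256) (.ev (nat_lit 884) (nat_lit 4194304) (.ev (nat_lit 1124) (nat_lit 17179869184) (.ev (nat_lit 1460)
 (nat_lit 32) (.ev (nat_lit 1572) (nat_lit 8589934592) (.ev (nat_lit 1581) (nat_lit 8192) .dd))))))))) (.ch
 (nat_lit 35) (.ev (nat_lit 52) (nat_lit 42954130208) (.ev (nat_lit 676) (nat_lit 17179869184) (.ev (nat_lit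
 1028) (nat_lit 8192) (.ev (nat_lit 1060) (nat_lit 16) (.ev (nat_lit 1520) (nat_lit 68721573888) (.ev (nat_lit
 1533) (nat_lit 2) .dd)))))))) (.br (nat_lit 38) (.ch (nat_lit 36) (.ev (nat_lit 52) (nat_lit 68723680032) (.ev
 (nat_lit 180) (nat_lit 262144) (.ev (nat_lit 816) (nat_lit 60131639314) .dd)))) (.ch (nat_lit 38) (.ev
 (nat_lit 52) (nat_lit 85903802386) (.ev (nat_lit 276) (nat_lit 8589934592) (.ev (nat_lit 404) (nat_lit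
 2097152) (.ev (nat_lit 580) (nat_lit 32) (.ev (nat_lit 804) (nat_lit 8192) (.ev (nat_lit 916) (nat_lit 512)
 (.ev (nat_lit 1172) (nat_lit 34359738368) (.ev (nat_lit 1181) (nat_lit 256) .dd))))))))))) (.br (nat_lit 45)
 (.br (nat_lit 44) (.ch (nat_lit 42) (.ev (nat_lit 52) (nat_lit 77313868320) (.ev (nat_lit 480) (nat_lit
 51541713170) .dd))) (.ch (nat_lit 44) (.ev (nat_lit 52) (nat_lit 34361836064) (.ev (nat_lit 96) (nat_lit
 94493745426) .dd)))) (.br (nat_lit 46) (.ch (nat_lit 45) (.ev (nat_lit 52) (nat_lit 120259346720) (.ev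
 (nat_lit 308) (nat_lit 2) (.ev (nat_lit 580) (nat_lit 2097152) (.ev (nat_lit 740) (nat_lit 8589934592) (.ev
 (nat_lit 804) (nat_lit 16) (.ev (nat_lit 1220) (nat_lit 512) (.ev (nat_lit 1540) (nat_lit 4194304) (.ev
 (nat_lit 1549) (nat_lit 8192) .dd))))))))) (.ch (nat_lit 46) (.ev (nat_lit 52) (nat_lit 17182236690) (.ev
 (nat_lit 244) (nat_lit 4194304) (.ev (nat_lit 896) (nat_lit 111669150496) .dd)))))))))))

/-- The trie. -/
noncomputable def T : Tr := .nd (nat_lit 1000000) (.br (nat_lit 7) (.br (nat_lit 2) (.br (nat_lit 1) (.ch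
 (nat_lit 0) (.ev (nat_lit 0) (nat_lit 8796093022207) .dd)) (.ch (nat_lit 1) T1)) (.br (nat_lit 3) (.ch
 (nat_lit 2) T2) (.br (nat_lit 4) (.ch (nat_lit 3) (.ev (nat_lit 0) (nat_lit 8796093022207) .dd)) (.ch (nat_lit
 4) (.ev (nat_lit 0) (nat_lit 8796093022207) .dd))))) (.br (nat_lit 9) (.br (nat_lit 8) (.ch (nat_lit 7) (.ev
 (nat_lit 0) (nat_lit 8796093022207) .dd)) (.ch (nat_lit 8) T8)) (.br (nat_lit 14) (.ch (nat_lit 9) (.ev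
 (nat_lit 0) (nat_lit 8796093022207) .dd)) (.br (nat_lit 18) (.ch (nat_lit 14) (.ev (nat_lit 0) (nat_lit
 8796093022207) .dd)) (.ch (nat_lit 18) (.ev (nat_lit 0) (nat_lit 8796093022207) .dd))))))

/-- The possible values. -/
noncomputable def oks : List ℕ := [7]

/-- The parameters. -/
noncomputable def S : Pr := ⟨fun i l e => lget mz (lget [] (lget [] tabs i) l) e, oks, [(nat_lit 0), (nat_lit
 1), (nat_lit 0)], T, (nat_lit 8796093022207), (nat_lit 3303796230157), (nat_lit 43), [(nat_lit 279193),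
 (nat_lit 12800101590481)], [(nat_lit 361), (nat_lit 2209)]⟩

/-- Nothing known. -/
noncomputable def cs0 : Cs := (.cons (nat_lit 19) (nat_lit 0) (nat_lit 1) (.cons (nat_lit 47) (nat_lit 0) (nat_lit 1) .nil))

theorem part_1 : part S cs0 (nat_lit 1) = true := by decide +kernel

theorem part_2 : part S cs0 (nat_lit 2) = true := by decide +kernel

theorem part_8 : part S cs0 (nat_lit 8) = true := by decide +kernel

/-- Data of a prime. -/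
noncomputable def D0 : PD := ⟨(nat_lit 19), (nat_lit 2), (210, 3, 5), (67, 193, 280), (183, 17, 194)⟩

theorem D0_ok : D0.Ok := pdb_sound (s := 9) (C := ⟨⟨21, 6, -28, 11, 14, 17, -4, 7, -1⟩, (2, 11, 15)⟩) (by show Nat.Prime 19; norm_num) (by decide +kernel)

/-- Lines of the first type. -/
noncomputable def Cl0 : List C1 := [⟨⟨11, 14, -28, 21, 6, 7, 4, -7, -5⟩, (12, 16, 13)⟩,
  ⟨⟨0, 0, 0, 0, 0, 0, 0, 0, 0⟩, (0, 0, 0)⟩,
  ⟨⟨0, 0, 0, 0, 0, 0, 0, 0, 0⟩, (0, 0, 0)⟩,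
  ⟨⟨9, 6, -32, 1, 26, 7, 8, -1, -1⟩, (8, 3, 5)⟩,
  ⟨⟨-9, -6, -23, -1, -26, 8, 8, -1, -7⟩, (13, 12, 18)⟩,
  ⟨⟨0, 0, 0, 0, 0, 0, 0, 0, 0⟩, (0, 0, 0)⟩,
  ⟨⟨0, 0, 0, 0, 0, 0, 0, 0, 0⟩, (0, 0, 0)⟩,
  ⟨⟨9, -6, -32, 1, -26, 7, 8, 1, -1⟩, (5, 9, 15)⟩,
  ⟨⟨0, 0, 0, 0, 0, 0, 0, 0, 0⟩, (0, 0, 0)⟩,
  ⟨⟨21, -6, -28, 11, -14, 17, -4, -7, -1⟩, (16, 12, 6)⟩,
  ⟨⟨0, 0, 0, 0, 0, 0, 0, 0, 0⟩, (0, 0, 0)⟩,
  ⟨⟨0, 0, 0, 0, 0, 0, 0, 0, 0⟩, (0, 0, 0)⟩,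
  ⟨⟨0, 0, 0, 0, 0, 0, 0, 0, 0⟩, (0, 0, 0)⟩,
  ⟨⟨0, 0, 0, 0, 0, 0, 0, 0, 0⟩, (0, 0, 0)⟩,
  ⟨⟨11, -14, -28, 21, -6, 7, 4, 7, -5⟩, (5, 13, 7)⟩,
  ⟨⟨0, 0, 0, 0, 0, 0, 0, 0, 0⟩, (0, 0, 0)⟩,
  ⟨⟨0, 0, 0, 0, 0, 0, 0, 0, 0⟩, (0, 0, 0)⟩,
  ⟨⟨0, 0, 0, 0, 0, 0, 0, 0, 0⟩, (0, 0, 0)⟩,
  ⟨⟨-9, 6, -23, -1, 26, 8, 8, 1, -7⟩, (16, 6, 9)⟩]

/-- Data of a prime. -/
noncomputable def D1 : PD := ⟨(nat_lit 47), (nat_lit 2), (1034, 1, 9), (105, 517, 2039), (987, 5, 190)⟩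

theorem D1_ok : D1.Ok := pdb_sound (s := 1) (C := ⟨⟨47, 2, -76, 47, -2, 29, 0, -21, -1⟩, (2, 45, 26)⟩) (by show Nat.Prime 47; norm_num) (by decide +kernel)

/-- Lines of the first type. -/
noncomputable def Cl1 : List C1 := [⟨⟨47, -2, -76, 47, 2, 29, 0, 21, -1⟩, (9, 38, 23)⟩,
  ⟨⟨0, 0, 0, 0, 0, 0, 0, 0, 0⟩, (0, 0, 0)⟩,
  ⟨⟨0, 0, 0, 0, 0, 0, 0, 0, 0⟩, (0, 0, 0)⟩,
  ⟨⟨0, 0, 0, 0, 0, 0, 0, 0, 0⟩, (0, 0, 0)⟩,
  ⟨⟨17, 22, -76, -63, 18, 19, -4, -19, -7⟩, (10, 21, 17)⟩,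
  ⟨⟨0, 0, 0, 0, 0, 0, 0, 0, 0⟩, (0, 0, 0)⟩,
  ⟨⟨57, -18, -61, -23, -62, 4, -8, 5, -17⟩, (3, 26, 7)⟩,
  ⟨⟨57, 18, -61, -23, 62, 4, -8, -5, -17⟩, (16, 29, 6)⟩,
  ⟨⟨53, -22, -64, -13, -62, 29, -12, -3, -13⟩, (46, 10, 2)⟩,
  ⟨⟨0, 0, 0, 0, 0, 0, 0, 0, 0⟩, (0, 0, 0)⟩,
  ⟨⟨43, -38, -59, 3, -42, 56, -16, -11, -1⟩, (35, 9, 46)⟩,
  ⟨⟨0, 0, 0, 0, 0, 0, 0, 0, 0⟩, (0, 0, 0)⟩,
  ⟨⟨0, 0, 0, 0, 0, 0, 0, 0, 0⟩, (0, 0, 0)⟩,
  ⟨⟨-17, -22, -59, -63, 18, 44, 4, 19, -11⟩, (15, 39, 2)⟩,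
  ⟨⟨0, 0, 0, 0, 0, 0, 0, 0, 0⟩, (0, 0, 0)⟩,
  ⟨⟨0, 0, 0, 0, 0, 0, 0, 0, 0⟩, (0, 0, 0)⟩,
  ⟨⟨0, 0, 0, 0, 0, 0, 0, 0, 0⟩, (0, 0, 0)⟩,
  ⟨⟨53, 22, -64, -13, 62, 29, -12, 3, -13⟩, (41, 13, 12)⟩,
  ⟨⟨0, 0, 0, 0, 0, 0, 0, 0, 0⟩, (0, 0, 0)⟩,
  ⟨⟨0, 0, 0, 0, 0, 0, 0, 0, 0⟩, (0, 0, 0)⟩,
  ⟨⟨0, 0, 0, 0, 0, 0, 0, 0, 0⟩, (0, 0, 0)⟩,
  ⟨⟨0, 0, 0, 0, 0, 0, 0, 0, 0⟩, (0, 0, 0)⟩,
  ⟨⟨0, 0, 0, 0, 0, 0, 0, 0, 0⟩, (0, 0, 0)⟩,
  ⟨⟨43, 38, -59, 3, 42, 56, -16, 11, -1⟩, (5, 8, 20)⟩,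
  ⟨⟨3, -42, -59, 43, -38, 16, 16, 11, -17⟩, (39, 42, 20)⟩,
  ⟨⟨0, 0, 0, 0, 0, 0, 0, 0, 0⟩, (0, 0, 0)⟩,
  ⟨⟨0, 0, 0, 0, 0, 0, 0, 0, 0⟩, (0, 0, 0)⟩,
  ⟨⟨0, 0, 0, 0, 0, 0, 0, 0, 0⟩, (0, 0, 0)⟩,
  ⟨⟨0, 0, 0, 0, 0, 0, 0, 0, 0⟩, (0, 0, 0)⟩,
  ⟨⟨0, 0, 0, 0, 0, 0, 0, 0, 0⟩, (0, 0, 0)⟩,
  ⟨⟨-13, -62, -16, 53, -22, 11, 12, 3, -25⟩, (34, 6, 12)⟩,
  ⟨⟨0, 0, 0, 0, 0, 0, 0, 0, 0⟩, (0, 0, 0)⟩,
  ⟨⟨0, 0, 0, 0, 0, 0, 0, 0, 0⟩, (0, 0, 0)⟩,
  ⟨⟨0, 0, 0, 0, 0, 0, 0, 0, 0⟩, (0, 0, 0)⟩,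
  ⟨⟨17, -22, -76, -63, -18, 19, -4, 19, -7⟩, (15, 8, 2)⟩,
  ⟨⟨0, 0, 0, 0, 0, 0, 0, 0, 0⟩, (0, 0, 0)⟩,
  ⟨⟨0, 0, 0, 0, 0, 0, 0, 0, 0⟩, (0, 0, 0)⟩,
  ⟨⟨3, 42, -59, 43, 38, 16, 16, -11, -17⟩, (38, 12, 46)⟩,
  ⟨⟨0, 0, 0, 0, 0, 0, 0, 0, 0⟩, (0, 0, 0)⟩,
  ⟨⟨-13, 62, -16, 53, 22, 11, 12, -3, -25⟩, (37, 1, 2)⟩,
  ⟨⟨23, 62, -19, 57, -18, 4, 8, -5, -25⟩, (29, 31, 6)⟩,
  ⟨⟨23, -62, -19, 57, 18, 4, 8, 5, -25⟩, (26, 44, 7)⟩,
  ⟨⟨0, 0, 0, 0, 0, 0, 0, 0, 0⟩, (0, 0, 0)⟩,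
  ⟨⟨-17, 22, -59, -63, -18, 44, 4, -19, -11⟩, (10, 26, 17)⟩,
  ⟨⟨0, 0, 0, 0, 0, 0, 0, 0, 0⟩, (0, 0, 0)⟩,
  ⟨⟨0, 0, 0, 0, 0, 0, 0, 0, 0⟩, (0, 0, 0)⟩,
  ⟨⟨0, 0, 0, 0, 0, 0, 0, 0, 0⟩, (0, 0, 0)⟩]

/-- Data of a prime. -/
noncomputable def Dm : PD := ⟨(nat_lit 43), (nat_lit 2), (989, 1, 17), (1652, 774, 636), (172, 5, 130)⟩

theorem Dm_ok : Dm.Ok := pdb_sound (s := 1) (C := ⟨⟨43, -38, -44, 43, 38, 1, 0, 9, -19⟩, (5, 38, 9)⟩) (by show Nat.Prime 43; norm_num) (by decide +kernel)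

/-- Lines of the first type. -/
noncomputable def Clm : List C1 := [⟨⟨43, 38, -44, 43, -38, 1, 0, -9, -19⟩, (42, 1, 24)⟩,
  ⟨⟨0, 0, 0, 0, 0, 0, 0, 0, 0⟩, (0, 0, 0)⟩,
  ⟨⟨57, -18, -16, -17, -58, 1, 4, 1, -23⟩, (41, 27, 24)⟩,
  ⟨⟨7, -38, -56, -33, -42, 49, -16, 7, -1⟩, (28, 40, 22)⟩,
  ⟨⟨0, 0, 0, 0, 0, 0, 0, 0, 0⟩, (0, 0, 0)⟩,
  ⟨⟨0, 0, 0, 0, 0, 0, 0, 0, 0⟩, (0, 0, 0)⟩,
  ⟨⟨0, 0, 0, 0, 0, 0, 0, 0, 0⟩, (0, 0, 0)⟩,
  ⟨⟨0, 0, 0, 0, 0, 0, 0, 0, 0⟩, (0, 0, 0)⟩,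
  ⟨⟨0, 0, 0, 0, 0, 0, 0, 0, 0⟩, (0, 0, 0)⟩,
  ⟨⟨0, 0, 0, 0, 0, 0, 0, 0, 0⟩, (0, 0, 0)⟩,
  ⟨⟨0, 0, 0, 0, 0, 0, 0, 0, 0⟩, (0, 0, 0)⟩,
  ⟨⟨27, -18, -71, -53, -22, 4, -4, 17, -7⟩, (6, 36, 23)⟩,
  ⟨⟨0, 0, 0, 0, 0, 0, 0, 0, 0⟩, (0, 0, 0)⟩,
  ⟨⟨0, 0, 0, 0, 0, 0, 0, 0, 0⟩, (0, 0, 0)⟩,
  ⟨⟨-7, -2, -64, -47, -38, 31, 12, -15, -7⟩, (37, 15, 41)⟩,
  ⟨⟨-7, 2, -64, -47, 38, 31, 12, 15, -7⟩, (3, 14, 1)⟩,
  ⟨⟨-7, 38, -49, 33, 42, 16, 16, -7, -17⟩, (27, 14, 12)⟩,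
  ⟨⟨0, 0, 0, 0, 0, 0, 0, 0, 0⟩, (0, 0, 0)⟩,
  ⟨⟨0, 0, 0, 0, 0, 0, 0, 0, 0⟩, (0, 0, 0)⟩,
  ⟨⟨57, 18, -16, -17, 58, 1, 4, -1, -23⟩, (36, 30, 41)⟩,
  ⟨⟨53, 22, -49, 27, -18, 44, 4, -17, -11⟩, (6, 42, 11)⟩,
  ⟨⟨0, 0, 0, 0, 0, 0, 0, 0, 0⟩, (0, 0, 0)⟩,
  ⟨⟨0, 0, 0, 0, 0, 0, 0, 0, 0⟩, (0, 0, 0)⟩,
  ⟨⟨27, 18, -71, -53, 22, 4, -4, -17, -7⟩, (1, 6, 11)⟩,
  ⟨⟨57, -18, -41, -17, -58, 16, -4, -1, -19⟩, (7, 13, 41)⟩,
  ⟨⟨0, 0, 0, 0, 0, 0, 0, 0, 0⟩, (0, 0, 0)⟩,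
  ⟨⟨0, 0, 0, 0, 0, 0, 0, 0, 0⟩, (0, 0, 0)⟩,
  ⟨⟨7, 38, -56, -33, 42, 49, -16, -7, -1⟩, (27, 14, 12)⟩,
  ⟨⟨7, 2, -71, -47, -38, 16, 12, -15, -5⟩, (3, 29, 42)⟩,
  ⟨⟨7, -2, -71, -47, 38, 16, 12, 15, -5⟩, (37, 28, 2)⟩,
  ⟨⟨0, 0, 0, 0, 0, 0, 0, 0, 0⟩, (0, 0, 0)⟩,
  ⟨⟨0, 0, 0, 0, 0, 0, 0, 0, 0⟩, (0, 0, 0)⟩,
  ⟨⟨53, -22, -49, 27, 18, 44, 4, 17, -11⟩, (36, 37, 23)⟩,
  ⟨⟨0, 0, 0, 0, 0, 0, 0, 0, 0⟩, (0, 0, 0)⟩,
  ⟨⟨0, 0, 0, 0, 0, 0, 0, 0, 0⟩, (0, 0, 0)⟩,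
  ⟨⟨0, 0, 0, 0, 0, 0, 0, 0, 0⟩, (0, 0, 0)⟩,
  ⟨⟨0, 0, 0, 0, 0, 0, 0, 0, 0⟩, (0, 0, 0)⟩,
  ⟨⟨0, 0, 0, 0, 0, 0, 0, 0, 0⟩, (0, 0, 0)⟩,
  ⟨⟨0, 0, 0, 0, 0, 0, 0, 0, 0⟩, (0, 0, 0)⟩,
  ⟨⟨0, 0, 0, 0, 0, 0, 0, 0, 0⟩, (0, 0, 0)⟩,
  ⟨⟨-7, -38, -49, 33, -42, 16, 16, 7, -17⟩, (28, 40, 22)⟩,
  ⟨⟨57, 18, -41, -17, 58, 16, -4, 1, -19⟩, (2, 16, 24)⟩,
  ⟨⟨0, 0, 0, 0, 0, 0, 0, 0, 0⟩, (0, 0, 0)⟩]

/-- Unit moves. -/
noncomputable def U : List Mv := [mz,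
  mz,
  mz,
  mz,
  mz,
  ⟨⟨-1, 0, 1, 0, 1, 0, 0, 0, 1⟩, .nil, (nat_lit 18), (nat_lit 9), (nat_lit 4), (nat_lit 1), (0, 0, 0), [], 18⟩,
  ⟨⟨-1, 0, 1, 0, -1, 0, 0, 0, 1⟩, .nil, (nat_lit 0), (nat_lit 12), (nat_lit 1), (nat_lit 0), (0, 0, 0), [], 7⟩,
  mz,
  mz,
  mz,
  ⟨⟨1, 0, 0, 0, -1, 0, 0, 0, 1⟩, .nil, (nat_lit 18), (nat_lit 14), (nat_lit 2), (nat_lit 1), (0, 0, 0), [], 10⟩,
  ⟨⟨-1, 0, 1, 0, -1, 0, 0, 0, 1⟩, .nil, (nat_lit 0), (nat_lit 12), (nat_lit 1), (nat_lit 0), (0, 0, 0), [], 7⟩,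
  ⟨⟨-1, 0, 1, 0, -1, 0, 0, 0, 1⟩, .nil, (nat_lit 0), (nat_lit 12), (nat_lit 1), (nat_lit 0), (0, 0, 0), [], 7⟩,
  ⟨⟨-1, 0, 1, 0, 1, 0, 0, 0, 1⟩, .nil, (nat_lit 18), (nat_lit 9), (nat_lit 4), (nat_lit 1), (0, 0, 0), [], 18⟩,
  mz,
  ⟨⟨-1, 0, 1, 0, 1, 0, 0, 0, 1⟩, .nil, (nat_lit 18), (nat_lit 9), (nat_lit 4), (nat_lit 1), (0, 0, 0), [], 18⟩,
  ⟨⟨1, 0, 0, 0, -1, 0, 0, 0, 1⟩, .nil, (nat_lit 18), (nat_lit 14), (nat_lit 2), (nat_lit 1), (0, 0, 0), [], 10⟩,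
  ⟨⟨1, 0, 0, 0, -1, 0, 0, 0, 1⟩, .nil, (nat_lit 18), (nat_lit 14), (nat_lit 2), (nat_lit 1), (0, 0, 0), [], 10⟩,
  mz]

theorem v_ty : tyb Dm S.ty1 Clm = true := by decide +kernel

theorem v_ty0 : tyb D0 (S.tys.getD 0 0) Cl0 = true := by decide +kernel

theorem v_ty1 : tyb D1 (S.tys.getD 1 0) Cl1 = true := by decide +kernel

theorem v_msc : mscb S D0 [D1] Dm (nat_lit 262) = true := by decide +kernel

theorem v_mv0 : mvsn (nat_lit 1474483201) S D0 [D1] Dm (nat_lit 262) 0 D0 = true := by decide +kernel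

theorem v_mv1 : mvsn (nat_lit 1474483201) S D0 [D1] Dm (nat_lit 262) 1 D1 = true := by decide +kernel

theorem v_mm : mmsn (nat_lit 1474483201) S D0 [D1] Dm (nat_lit 262) = true := by decide +kernel

theorem v_un : unb S D0 (nat_lit 262) U = true := by decide +kernel

theorem v_ok : okb S.oks [(0, 0, 0)] = true := by decide +kernel

theorem v_part : ∀ d < D0.p, (nat_lit 262).testBit d = true → part S (zc (D0 :: [D1])) d = true := by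
  intro d hd h
  have h1 : ∀ d < 19, (nat_lit 262).testBit d = true → d = 1 ∨ d = 2 ∨ d = 8 := by decide
  rcases h1 d hd h with rfl | rfl | rfl
  · exact part_1
  · exact part_2
  · exact part_8

theorem main (n : ℕ) (ho : Odd n) (hr : ¬ Rep n) (h0 : Split 19 n) (h1 : Split 47 n) (hm : Split 43 n) :
    n ∈ EE := by
  refine concln (W := nat_lit 1474483201) (S := S) (P0 := D0) (Pl := [D1]) (Pm := Dm) (cn := nat_lit 262) ?_ Dm_ok v_ty ?_ ?_ v_msc ?_ v_mm v_un v_part v_ok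
    n ho hr ?_ hm
  · simp only [List.forall_mem_cons]
    exact ⟨D0_ok, D1_ok, fun _ h => absurd h (by simp)⟩
  · exact all2 (φ := fun j P => ∃ L, tyb P (S.tys.getD j 0) L = true) ⟨_, v_ty0⟩ ⟨_, v_ty1⟩
  · exact all2 (φ := fun j P => Nat.ble (S.pks.getD j 0) (Nat.pow P.p P.K) = true) (by decide +kernel) (by decide +kernel)
  · exact all2 (φ := fun i P => mvsn (nat_lit 1474483201) S D0 [D1] Dm (nat_lit 262) i P = true) v_mv0 v_mv1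
  · simp only [List.forall_mem_cons]
    exact ⟨h0, h1, fun _ h => absurd h (by simp)⟩

end Pool.Agent.Work.MP_9954fe_nt.P19_47_43

namespace Pool.Agent.Work.MP_9954fe_nt.P19_53_47

/-- Dummy move. -/
noncomputable def mz : Mv := ⟨⟨0, 0, 0, 0, 0, 0, 0, 0, 0⟩, .nil, (nat_lit 0), (nat_lit 0), (nat_lit 0), (nat_lit 0), (0, 0, 0), [], 0⟩

/-- Moves. -/
noncomputable def t0_1 : List Mv := [
  ⟨⟨15, -4, -23, -10, 9, -10, 12, 12, -7⟩, (.cons (nat_lit 177) (nat_lit 313) (nat_lit 238) (nat_lit 1) (.cons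
 (nat_lit 1578) (nat_lit 2723) (nat_lit 88) (nat_lit 1) .nil)), (nat_lit 6), (nat_lit 2), (nat_lit 9), (nat_lit
 1), (18, 7, 3), [49, 2425], 7⟩,
  ⟨⟨15, -4, -23, 10, -9, 10, 12, 12, -7⟩, (.cons (nat_lit 317) (nat_lit 293) (nat_lit 1) (nat_lit 190) (.cons
 (nat_lit 2250) (nat_lit 2332) (nat_lit 2799) (nat_lit 1) .nil)), (nat_lit 1), (nat_lit 21), (nat_lit 3),
 (nat_lit 1), (18, 12, 3), [350, 127], 3⟩,
  ⟨⟨15, -4, -23, -10, 9, -10, 12, 12, -7⟩, (.cons (nat_lit 177) (nat_lit 313) (nat_lit 238) (nat_lit 1) (.cons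
 (nat_lit 1578) (nat_lit 2723) (nat_lit 88) (nat_lit 1) .nil)), (nat_lit 6), (nat_lit 2), (nat_lit 9), (nat_lit
 1), (18, 7, 3), [49, 2425], 7⟩,
  ⟨⟨15, -4, -23, -10, 9, -10, 12, 12, -7⟩, (.cons (nat_lit 177) (nat_lit 313) (nat_lit 238) (nat_lit 1) (.cons
 (nat_lit 1578) (nat_lit 2723) (nat_lit 88) (nat_lit 1) .nil)), (nat_lit 6), (nat_lit 2), (nat_lit 9), (nat_lit
 1), (18, 7, 3), [49, 2425], 7⟩,
  ⟨⟨-3, 16, 16, 10, -9, 10, 12, 12, -7⟩, (.cons (nat_lit 235) (nat_lit 147) (nat_lit 254) (nat_lit 1) (.cons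
 (nat_lit 2808) (nat_lit 2388) (nat_lit 1282) (nat_lit 1) .nil)), (nat_lit 46), (nat_lit 26), (nat_lit 3),
 (nat_lit 1), (4, 12, 3), [80, 1849], 3⟩,
  ⟨⟨15, -4, -23, -10, 9, -10, 12, 12, -7⟩, (.cons (nat_lit 177) (nat_lit 313) (nat_lit 238) (nat_lit 1) (.cons
 (nat_lit 1578) (nat_lit 2723) (nat_lit 88) (nat_lit 1) .nil)), (nat_lit 6), (nat_lit 2), (nat_lit 9), (nat_lit
 1), (18, 7, 3), [49, 2425], 7⟩,
  ⟨⟨15, -4, -23, 10, -9, 10, 12, 12, -7⟩, (.cons (nat_lit 317) (nat_lit 293) (nat_lit 1) (nat_lit 190) (.cons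
 (nat_lit 2250) (nat_lit 2332) (nat_lit 2799) (nat_lit 1) .nil)), (nat_lit 1), (nat_lit 21), (nat_lit 3),
 (nat_lit 1), (18, 12, 3), [350, 127], 3⟩,
  ⟨⟨-3, 16, 16, -10, 9, -10, 12, 12, -7⟩, (.cons (nat_lit 296) (nat_lit 76) (nat_lit 194) (nat_lit 1) (.cons
 (nat_lit 505) (nat_lit 453) (nat_lit 1) (nat_lit 1643) .nil)), (nat_lit 41), (nat_lit 45), (nat_lit 9),
 (nat_lit 1), (4, 7, 3), [8, 2512], 7⟩,
  ⟨⟨15, -4, -23, -10, 9, -10, 12, 12, -7⟩, (.cons (nat_lit 177) (nat_lit 313) (nat_lit 238) (nat_lit 1) (.cons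
 (nat_lit 1578) (nat_lit 2723) (nat_lit 88) (nat_lit 1) .nil)), (nat_lit 6), (nat_lit 2), (nat_lit 9), (nat_lit
 1), (18, 7, 3), [49, 2425], 7⟩,
  ⟨⟨15, -4, -23, -10, 9, -10, 12, 12, -7⟩, (.cons (nat_lit 177) (nat_lit 313) (nat_lit 238) (nat_lit 1) (.cons
 (nat_lit 1578) (nat_lit 2723) (nat_lit 88) (nat_lit 1) .nil)), (nat_lit 6), (nat_lit 2), (nat_lit 9), (nat_lit
 1), (18, 7, 3), [49, 2425], 7⟩,
  ⟨⟨15, -4, -23, -10, 9, -10, 12, 12, -7⟩, (.cons (nat_lit 177) (nat_lit 313) (nat_lit 238) (nat_lit 1) (.cons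
 (nat_lit 1578) (nat_lit 2723) (nat_lit 88) (nat_lit 1) .nil)), (nat_lit 6), (nat_lit 2), (nat_lit 9), (nat_lit
 1), (18, 7, 3), [49, 2425], 7⟩,
  ⟨⟨-3, 16, 16, -10, 9, -10, 12, 12, -7⟩, (.cons (nat_lit 296) (nat_lit 76) (nat_lit 194) (nat_lit 1) (.cons
 (nat_lit 505) (nat_lit 453) (nat_lit 1) (nat_lit 1643) .nil)), (nat_lit 41), (nat_lit 45), (nat_lit 9),
 (nat_lit 1), (4, 7, 3), [8, 2512], 7⟩,
  ⟨⟨15, -4, -23, 10, -9, 10, 12, 12, -7⟩, (.cons (nat_lit 317) (nat_lit 293) (nat_lit 1) (nat_lit 190) (.cons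
 (nat_lit 2250) (nat_lit 2332) (nat_lit 2799) (nat_lit 1) .nil)), (nat_lit 1), (nat_lit 21), (nat_lit 3),
 (nat_lit 1), (18, 12, 3), [350, 127], 3⟩,
  ⟨⟨15, -4, -23, -10, 9, -10, 12, 12, -7⟩, (.cons (nat_lit 177) (nat_lit 313) (nat_lit 238) (nat_lit 1) (.cons
 (nat_lit 1578) (nat_lit 2723) (nat_lit 88) (nat_lit 1) .nil)), (nat_lit 6), (nat_lit 2), (nat_lit 9), (nat_lit
 1), (18, 7, 3), [49, 2425], 7⟩,
  ⟨⟨15, -4, -23, -10, 9, -10, 12, 12, -7⟩, (.cons (nat_lit 177) (nat_lit 313) (nat_lit 238) (nat_lit 1) (.cons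
 (nat_lit 1578) (nat_lit 2723) (nat_lit 88) (nat_lit 1) .nil)), (nat_lit 6), (nat_lit 2), (nat_lit 9), (nat_lit
 1), (18, 7, 3), [49, 2425], 7⟩,
  ⟨⟨-3, 16, 16, -10, 9, -10, 12, 12, -7⟩, (.cons (nat_lit 296) (nat_lit 76) (nat_lit 194) (nat_lit 1) (.cons
 (nat_lit 505) (nat_lit 453) (nat_lit 1) (nat_lit 1643) .nil)), (nat_lit 41), (nat_lit 45), (nat_lit 9),
 (nat_lit 1), (4, 7, 3), [8, 2512], 7⟩,
  ⟨⟨15, -4, -23, -10, 9, -10, 12, 12, -7⟩, (.cons (nat_lit 177) (nat_lit 313) (nat_lit 238) (nat_lit 1) (.cons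
 (nat_lit 1578) (nat_lit 2723) (nat_lit 88) (nat_lit 1) .nil)), (nat_lit 6), (nat_lit 2), (nat_lit 9), (nat_lit
 1), (18, 7, 3), [49, 2425], 7⟩,
  ⟨⟨15, -4, -23, -10, 9, -10, 12, 12, -7⟩, (.cons (nat_lit 177) (nat_lit 313) (nat_lit 238) (nat_lit 1) (.cons
 (nat_lit 1578) (nat_lit 2723) (nat_lit 88) (nat_lit 1) .nil)), (nat_lit 6), (nat_lit 2), (nat_lit 9), (nat_lit
 1), (18, 7, 3), [49, 2425], 7⟩,
  ⟨⟨-3, 16, 16, 10, -9, 10, 12, 12, -7⟩, (.cons (nat_lit 235) (nat_lit 147) (nat_lit 254) (nat_lit 1) (.cons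
 (nat_lit 2808) (nat_lit 2388) (nat_lit 1282) (nat_lit 1) .nil)), (nat_lit 46), (nat_lit 26), (nat_lit 3),
 (nat_lit 1), (4, 12, 3), [80, 1849], 3⟩]

/-- Moves. -/
noncomputable def t0_2 : List Mv := [
  ⟨⟨-11, 12, 20, 16, 5, 2, -2, 16, -5⟩, (.cons (nat_lit 131) (nat_lit 154) (nat_lit 242) (nat_lit 1) (.cons
 (nat_lit 1472) (nat_lit 2311) (nat_lit 590) (nat_lit 1) .nil)), (nat_lit 18), (nat_lit 26), (nat_lit 5),
 (nat_lit 1), (15, 11, 1), [46, 975], 34⟩,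
  ⟨⟨9, 4, -25, -16, -5, -2, -2, 16, -5⟩, (.cons (nat_lit 274) (nat_lit 291) (nat_lit 265) (nat_lit 1) (.cons
 (nat_lit 2630) (nat_lit 2314) (nat_lit 2643) (nat_lit 1) .nil)), (nat_lit 10), (nat_lit 2), (nat_lit 26),
 (nat_lit 1), (5, 8, 1), [52, 2791], 1⟩,
  ⟨⟨9, 4, -25, 16, 5, 2, -2, 16, -5⟩, (.cons (nat_lit 314) (nat_lit 176) (nat_lit 235) (nat_lit 1) (.cons (nat_lit 2648) (nat_lit 755) (nat_lit 2443) (nat_lit 1) .nil)), (nat_lit 29), (nat_lit 21), (nat_lit 5), (nat_lit 1), (5, 11, 1), [253, 1], 34⟩,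
  ⟨⟨9, 4, -25, -16, -5, -2, -2, 16, -5⟩, (.cons (nat_lit 274) (nat_lit 291) (nat_lit 265) (nat_lit 1) (.cons
 (nat_lit 2630) (nat_lit 2314) (nat_lit 2643) (nat_lit 1) .nil)), (nat_lit 10), (nat_lit 2), (nat_lit 26),
 (nat_lit 1), (5, 8, 1), [52, 2791], 1⟩,
  ⟨⟨9, 4, -25, -16, -5, -2, -2, 16, -5⟩, (.cons (nat_lit 274) (nat_lit 291) (nat_lit 265) (nat_lit 1) (.cons
 (nat_lit 2630) (nat_lit 2314) (nat_lit 2643) (nat_lit 1) .nil)), (nat_lit 10), (nat_lit 2), (nat_lit 26),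
 (nat_lit 1), (5, 8, 1), [52, 2791], 1⟩,
  ⟨⟨9, 4, -25, 16, 5, 2, -2, 16, -5⟩, (.cons (nat_lit 314) (nat_lit 176) (nat_lit 235) (nat_lit 1) (.cons (nat_lit 2648) (nat_lit 755) (nat_lit 2443) (nat_lit 1) .nil)), (nat_lit 29), (nat_lit 21), (nat_lit 5), (nat_lit 1), (5, 11, 1), [253, 1], 34⟩,
  ⟨⟨-11, 12, 20, 16, 5, 2, -2, 16, -5⟩, (.cons (nat_lit 131) (nat_lit 154) (nat_lit 242) (nat_lit 1) (.cons
 (nat_lit 1472) (nat_lit 2311) (nat_lit 590) (nat_lit 1) .nil)), (nat_lit 18), (nat_lit 26), (nat_lit 5),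
 (nat_lit 1), (15, 11, 1), [46, 975], 34⟩,
  ⟨⟨-11, 12, 20, -16, -5, -2, -2, 16, -5⟩, (.cons (nat_lit 108) (nat_lit 314) (nat_lit 59) (nat_lit 1) (.cons
 (nat_lit 2775) (nat_lit 2198) (nat_lit 909) (nat_lit 1) .nil)), (nat_lit 37), (nat_lit 45), (nat_lit 26),
 (nat_lit 1), (15, 8, 1), [7, 1478], 1⟩,
  ⟨⟨9, 4, -25, -16, -5, -2, -2, 16, -5⟩, (.cons (nat_lit 274) (nat_lit 291) (nat_lit 265) (nat_lit 1) (.cons
 (nat_lit 2630) (nat_lit 2314) (nat_lit 2643) (nat_lit 1) .nil)), (nat_lit 10), (nat_lit 2), (nat_lit 26),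
 (nat_lit 1), (5, 8, 1), [52, 2791], 1⟩,
  ⟨⟨9, 4, -25, -16, -5, -2, -2, 16, -5⟩, (.cons (nat_lit 274) (nat_lit 291) (nat_lit 265) (nat_lit 1) (.cons
 (nat_lit 2630) (nat_lit 2314) (nat_lit 2643) (nat_lit 1) .nil)), (nat_lit 10), (nat_lit 2), (nat_lit 26),
 (nat_lit 1), (5, 8, 1), [52, 2791], 1⟩,
  ⟨⟨9, 4, -25, -16, -5, -2, -2, 16, -5⟩, (.cons (nat_lit 274) (nat_lit 291) (nat_lit 265) (nat_lit 1) (.cons
 (nat_lit 2630) (nat_lit 2314) (nat_lit 2643) (nat_lit 1) .nil)), (nat_lit 10), (nat_lit 2), (nat_lit 26),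
 (nat_lit 1), (5, 8, 1), [52, 2791], 1⟩,
  ⟨⟨9, 4, -25, -16, -5, -2, -2, 16, -5⟩, (.cons (nat_lit 274) (nat_lit 291) (nat_lit 265) (nat_lit 1) (.cons
 (nat_lit 2630) (nat_lit 2314) (nat_lit 2643) (nat_lit 1) .nil)), (nat_lit 10), (nat_lit 2), (nat_lit 26),
 (nat_lit 1), (5, 8, 1), [52, 2791], 1⟩,
  ⟨⟨9, 4, -25, -16, -5, -2, -2, 16, -5⟩, (.cons (nat_lit 274) (nat_lit 291) (nat_lit 265) (nat_lit 1) (.cons
 (nat_lit 2630) (nat_lit 2314) (nat_lit 2643) (nat_lit 1) .nil)), (nat_lit 10), (nat_lit 2), (nat_lit 26),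
 (nat_lit 1), (5, 8, 1), [52, 2791], 1⟩,
  ⟨⟨-11, 12, 20, -16, -5, -2, -2, 16, -5⟩, (.cons (nat_lit 108) (nat_lit 314) (nat_lit 59) (nat_lit 1) (.cons
 (nat_lit 2775) (nat_lit 2198) (nat_lit 909) (nat_lit 1) .nil)), (nat_lit 37), (nat_lit 45), (nat_lit 26),
 (nat_lit 1), (15, 8, 1), [7, 1478], 1⟩,
  ⟨⟨9, 4, -25, -16, -5, -2, -2, 16, -5⟩, (.cons (nat_lit 274) (nat_lit 291) (nat_lit 265) (nat_lit 1) (.cons
 (nat_lit 2630) (nat_lit 2314) (nat_lit 2643) (nat_lit 1) .nil)), (nat_lit 10), (nat_lit 2), (nat_lit 26),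
 (nat_lit 1), (5, 8, 1), [52, 2791], 1⟩,
  ⟨⟨9, 4, -25, 16, 5, 2, -2, 16, -5⟩, (.cons (nat_lit 314) (nat_lit 176) (nat_lit 235) (nat_lit 1) (.cons (nat_lit 2648) (nat_lit 755) (nat_lit 2443) (nat_lit 1) .nil)), (nat_lit 29), (nat_lit 21), (nat_lit 5), (nat_lit 1), (5, 11, 1), [253, 1], 34⟩,
  ⟨⟨-11, 12, 20, -16, -5, -2, -2, 16, -5⟩, (.cons (nat_lit 108) (nat_lit 314) (nat_lit 59) (nat_lit 1) (.cons
 (nat_lit 2775) (nat_lit 2198) (nat_lit 909) (nat_lit 1) .nil)), (nat_lit 37), (nat_lit 45), (nat_lit 26),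
 (nat_lit 1), (15, 8, 1), [7, 1478], 1⟩,
  ⟨⟨9, 4, -25, -16, -5, -2, -2, 16, -5⟩, (.cons (nat_lit 274) (nat_lit 291) (nat_lit 265) (nat_lit 1) (.cons
 (nat_lit 2630) (nat_lit 2314) (nat_lit 2643) (nat_lit 1) .nil)), (nat_lit 10), (nat_lit 2), (nat_lit 26),
 (nat_lit 1), (5, 8, 1), [52, 2791], 1⟩,
  ⟨⟨9, 4, -25, -16, -5, -2, -2, 16, -5⟩, (.cons (nat_lit 274) (nat_lit 291) (nat_lit 265) (nat_lit 1) (.cons
 (nat_lit 2630) (nat_lit 2314) (nat_lit 2643) (nat_lit 1) .nil)), (nat_lit 10), (nat_lit 2), (nat_lit 26),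
 (nat_lit 1), (5, 8, 1), [52, 2791], 1⟩]

/-- Moves. -/
noncomputable def t0_8 : List Mv := [
  ⟨⟨17, -12, -9, -4, -5, -18, 14, 8, -13⟩, (.cons (nat_lit 67) (nat_lit 114) (nat_lit 350) (nat_lit 1) (.cons
 (nat_lit 2312) (nat_lit 950) (nat_lit 260) (nat_lit 1) .nil)), (nat_lit 10), (nat_lit 11), (nat_lit 9),
 (nat_lit 1), (9, 18, 13), [238, 2632], 1⟩,
  ⟨⟨17, -12, -9, -4, -5, -18, 14, 8, -13⟩, (.cons (nat_lit 67) (nat_lit 114) (nat_lit 350) (nat_lit 1) (.cons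
 (nat_lit 2312) (nat_lit 950) (nat_lit 260) (nat_lit 1) .nil)), (nat_lit 10), (nat_lit 11), (nat_lit 9),
 (nat_lit 1), (9, 18, 13), [238, 2632], 1⟩,
  ⟨⟨17, -12, -9, -4, -5, -18, 14, 8, -13⟩, (.cons (nat_lit 67) (nat_lit 114) (nat_lit 350) (nat_lit 1) (.cons
 (nat_lit 2312) (nat_lit 950) (nat_lit 260) (nat_lit 1) .nil)), (nat_lit 10), (nat_lit 11), (nat_lit 9),
 (nat_lit 1), (9, 18, 13), [238, 2632], 1⟩,
  ⟨⟨-3, 20, -4, -4, -5, -18, 14, 8, -13⟩, (.cons (nat_lit 100) (nat_lit 351) (nat_lit 181) (nat_lit 1) (.cons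
 (nat_lit 1020) (nat_lit 1110) (nat_lit 297) (nat_lit 1) .nil)), (nat_lit 37), (nat_lit 36), (nat_lit 9),
 (nat_lit 1), (4, 18, 13), [256, 2752], 1⟩,
  ⟨⟨-3, 20, -4, 4, 5, 18, 14, 8, -13⟩, (.cons (nat_lit 78) (nat_lit 138) (nat_lit 1) (nat_lit 285) (.cons
 (nat_lit 1082) (nat_lit 2317) (nat_lit 2072) (nat_lit 1) .nil)), (nat_lit 34), (nat_lit 9), (nat_lit 18),
 (nat_lit 1), (4, 1, 13), [71, 1896], 12⟩,
  ⟨⟨17, -12, -9, -4, -5, -18, 14, 8, -13⟩, (.cons (nat_lit 67) (nat_lit 114) (nat_lit 350) (nat_lit 1) (.cons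
 (nat_lit 2312) (nat_lit 950) (nat_lit 260) (nat_lit 1) .nil)), (nat_lit 10), (nat_lit 11), (nat_lit 9),
 (nat_lit 1), (9, 18, 13), [238, 2632], 1⟩,
  ⟨⟨17, -12, -9, -4, -5, -18, 14, 8, -13⟩, (.cons (nat_lit 67) (nat_lit 114) (nat_lit 350) (nat_lit 1) (.cons
 (nat_lit 2312) (nat_lit 950) (nat_lit 260) (nat_lit 1) .nil)), (nat_lit 10), (nat_lit 11), (nat_lit 9),
 (nat_lit 1), (9, 18, 13), [238, 2632], 1⟩,
  ⟨⟨17, -12, -9, -4, -5, -18, 14, 8, -13⟩, (.cons (nat_lit 67) (nat_lit 114) (nat_lit 350) (nat_lit 1) (.cons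
 (nat_lit 2312) (nat_lit 950) (nat_lit 260) (nat_lit 1) .nil)), (nat_lit 10), (nat_lit 11), (nat_lit 9),
 (nat_lit 1), (9, 18, 13), [238, 2632], 1⟩,
  ⟨⟨17, -12, -9, 4, 5, 18, 14, 8, -13⟩, (.cons (nat_lit 273) (nat_lit 128) (nat_lit 294) (nat_lit 1) (.cons
 (nat_lit 1321) (nat_lit 2471) (nat_lit 667) (nat_lit 1) .nil)), (nat_lit 13), (nat_lit 38), (nat_lit 18),
 (nat_lit 1), (9, 1, 13), [176, 433], 12⟩,
  ⟨⟨17, -12, -9, -4, -5, -18, 14, 8, -13⟩, (.cons (nat_lit 67) (nat_lit 114) (nat_lit 350) (nat_lit 1) (.cons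
 (nat_lit 2312) (nat_lit 950) (nat_lit 260) (nat_lit 1) .nil)), (nat_lit 10), (nat_lit 11), (nat_lit 9),
 (nat_lit 1), (9, 18, 13), [238, 2632], 1⟩,
  ⟨⟨17, -12, -9, -4, -5, -18, 14, 8, -13⟩, (.cons (nat_lit 67) (nat_lit 114) (nat_lit 350) (nat_lit 1) (.cons
 (nat_lit 2312) (nat_lit 950) (nat_lit 260) (nat_lit 1) .nil)), (nat_lit 10), (nat_lit 11), (nat_lit 9),
 (nat_lit 1), (9, 18, 13), [238, 2632], 1⟩,
  ⟨⟨17, -12, -9, -4, -5, -18, 14, 8, -13⟩, (.cons (nat_lit 67) (nat_lit 114) (nat_lit 350) (nat_lit 1) (.cons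
 (nat_lit 2312) (nat_lit 950) (nat_lit 260) (nat_lit 1) .nil)), (nat_lit 10), (nat_lit 11), (nat_lit 9),
 (nat_lit 1), (9, 18, 13), [238, 2632], 1⟩,
  ⟨⟨17, -12, -9, -4, -5, -18, 14, 8, -13⟩, (.cons (nat_lit 67) (nat_lit 114) (nat_lit 350) (nat_lit 1) (.cons
 (nat_lit 2312) (nat_lit 950) (nat_lit 260) (nat_lit 1) .nil)), (nat_lit 10), (nat_lit 11), (nat_lit 9),
 (nat_lit 1), (9, 18, 13), [238, 2632], 1⟩,
  ⟨⟨-3, 20, -4, -4, -5, -18, 14, 8, -13⟩, (.cons (nat_lit 100) (nat_lit 351) (nat_lit 181) (nat_lit 1) (.cons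
 (nat_lit 1020) (nat_lit 1110) (nat_lit 297) (nat_lit 1) .nil)), (nat_lit 37), (nat_lit 36), (nat_lit 9),
 (nat_lit 1), (4, 18, 13), [256, 2752], 1⟩,
  ⟨⟨-3, 20, -4, 4, 5, 18, 14, 8, -13⟩, (.cons (nat_lit 78) (nat_lit 138) (nat_lit 1) (nat_lit 285) (.cons
 (nat_lit 1082) (nat_lit 2317) (nat_lit 2072) (nat_lit 1) .nil)), (nat_lit 34), (nat_lit 9), (nat_lit 18),
 (nat_lit 1), (4, 1, 13), [71, 1896], 12⟩,
  ⟨⟨17, -12, -9, 4, 5, 18, 14, 8, -13⟩, (.cons (nat_lit 273) (nat_lit 128) (nat_lit 294) (nat_lit 1) (.cons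
 (nat_lit 1321) (nat_lit 2471) (nat_lit 667) (nat_lit 1) .nil)), (nat_lit 13), (nat_lit 38), (nat_lit 18),
 (nat_lit 1), (9, 1, 13), [176, 433], 12⟩,
  ⟨⟨17, -12, -9, 4, 5, 18, 14, 8, -13⟩, (.cons (nat_lit 273) (nat_lit 128) (nat_lit 294) (nat_lit 1) (.cons
 (nat_lit 1321) (nat_lit 2471) (nat_lit 667) (nat_lit 1) .nil)), (nat_lit 13), (nat_lit 38), (nat_lit 18),
 (nat_lit 1), (9, 1, 13), [176, 433], 12⟩,
  ⟨⟨17, -12, -9, -4, -5, -18, 14, 8, -13⟩, (.cons (nat_lit 67) (nat_lit 114) (nat_lit 350) (nat_lit 1) (.cons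
 (nat_lit 2312) (nat_lit 950) (nat_lit 260) (nat_lit 1) .nil)), (nat_lit 10), (nat_lit 11), (nat_lit 9),
 (nat_lit 1), (9, 18, 13), [238, 2632], 1⟩,
  ⟨⟨-3, 20, -4, -4, -5, -18, 14, 8, -13⟩, (.cons (nat_lit 100) (nat_lit 351) (nat_lit 181) (nat_lit 1) (.cons
 (nat_lit 1020) (nat_lit 1110) (nat_lit 297) (nat_lit 1) .nil)), (nat_lit 37), (nat_lit 36), (nat_lit 9),
 (nat_lit 1), (4, 18, 13), [256, 2752], 1⟩]

/-- Moves. -/
noncomputable def t1_1 : List Mv := [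
  mz,
  mz,
  mz,
  mz,
  ⟨⟨-53, 0, 0, 10, -47, -30, -2, 20, -47⟩, (.cons (nat_lit 95) (nat_lit 215) (nat_lit 14) (nat_lit 1) (.cons
 (nat_lit 746) (nat_lit 51) (nat_lit 128) (nat_lit 1) .nil)), (nat_lit 20), (nat_lit 33), (nat_lit 16),
 (nat_lit 1), (0, 39, 24), [348, 164], 40⟩,
  ⟨⟨51, -20, -47, 10, 47, -30, -2, -20, -47⟩, (.cons (nat_lit 9) (nat_lit 323) (nat_lit 22) (nat_lit 1) (.cons
 (nat_lit 2774) (nat_lit 1863) (nat_lit 2153) (nat_lit 1) .nil)), (nat_lit 1), (nat_lit 34), (nat_lit 37),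
 (nat_lit 1), (12, 46, 12), [340, 2631], 22⟩,
  ⟨⟨15, 56, -11, -28, 5, -36, 40, 8, -47⟩, (.cons (nat_lit 279) (nat_lit 228) (nat_lit 22) (nat_lit 1) (.cons
 (nat_lit 2695) (nat_lit 350) (nat_lit 1620) (nat_lit 1) .nil)), (nat_lit 37), (nat_lit 6), (nat_lit 3),
 (nat_lit 1), (1, 37, 38), [166, 2505], 27⟩,
  mz,
  mz,
  ⟨⟨-33, -20, -32, 8, 45, -34, 24, -24, -49⟩, (.cons (nat_lit 312) (nat_lit 139) (nat_lit 72) (nat_lit 1)
 (.cons (nat_lit 565) (nat_lit 1464) (nat_lit 1695) (nat_lit 1) .nil)), (nat_lit 1), (nat_lit 45), (nat_lit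
 12), (nat_lit 1), (35, 14, 42), [176, 2241], 9⟩,
  ⟨⟨-25, 48, -11, 28, -5, -64, -40, -8, -7⟩, (.cons (nat_lit 268) (nat_lit 88) (nat_lit 148) (nat_lit 1) (.cons
 (nat_lit 1455) (nat_lit 2755) (nat_lit 1785) (nat_lit 1) .nil)), (nat_lit 9), (nat_lit 19), (nat_lit 22),
 (nat_lit 1), (52, 52, 9), [85, 2339], 37⟩,
  ⟨⟨15, -32, 44, -50, -17, 30, 14, -44, -19⟩, (.cons (nat_lit 97) (nat_lit 164) (nat_lit 310) (nat_lit 1)
 (.cons (nat_lit 1320) (nat_lit 1688) (nat_lit 352) (nat_lit 1) .nil)), (nat_lit 12), (nat_lit 45), (nat_lit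
 26), (nat_lit 1), (29, 27, 20), [71, 2652], 8⟩,
  ⟨⟨53, 0, -53, 10, 47, 20, 2, 20, -49⟩, (.cons (nat_lit 150) (nat_lit 175) (nat_lit 285) (nat_lit 1) (.cons
 (nat_lit 416) (nat_lit 492) (nat_lit 2224) (nat_lit 1) .nil)), (nat_lit 1), (nat_lit 44), (nat_lit 35),
 (nat_lit 1), (0, 28, 48), [125, 1091], 22⟩,
  mz,
  mz,
  ⟨⟨53, 0, -53, 10, -47, 20, 2, -20, -49⟩, (.cons (nat_lit 105) (nat_lit 223) (nat_lit 154) (nat_lit 1) (.cons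
 (nat_lit 2023) (nat_lit 577) (nat_lit 1526) (nat_lit 1) .nil)), (nat_lit 7), (nat_lit 43), (nat_lit 29),
 (nat_lit 1), (0, 21, 36), [186, 738], 33⟩,
  ⟨⟨15, 52, 16, 10, 17, -60, 46, 4, -11⟩, (.cons (nat_lit 154) (nat_lit 23) (nat_lit 37) (nat_lit 1) (.cons
 (nat_lit 1327) (nat_lit 2140) (nat_lit 995) (nat_lit 1) .nil)), (nat_lit 12), (nat_lit 11), (nat_lit 38),
 (nat_lit 1), (24, 16, 10), [119, 1560], 39⟩,
  ⟨⟨31, -48, -4, 10, 17, 50, 46, 4, -35⟩, (.cons (nat_lit 193) (nat_lit 335) (nat_lit 318) (nat_lit 1) (.cons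
 (nat_lit 961) (nat_lit 526) (nat_lit 1160) (nat_lit 1) .nil)), (nat_lit 18), (nat_lit 17), (nat_lit 24),
 (nat_lit 1), (18, 40, 25), [290, 2455], 37⟩,
  ⟨⟨-57, -4, 40, 8, -45, 26, -24, -24, -25⟩, (.cons (nat_lit 181) (nat_lit 227) (nat_lit 141) (nat_lit 1)
 (.cons (nat_lit 2200) (nat_lit 1790) (nat_lit 2303) (nat_lit 1) .nil)), (nat_lit 30), (nat_lit 21), (nat_lit
 24), (nat_lit 1), (12, 29, 19), [186, 2176], 24⟩,
  mz,
  mz,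
  ⟨⟨-33, 20, -32, 8, -45, -34, 24, 24, -49⟩, (.cons (nat_lit 2) (nat_lit 268) (nat_lit 79) (nat_lit 1) (.cons
 (nat_lit 28) (nat_lit 1466) (nat_lit 402) (nat_lit 1) .nil)), (nat_lit 11), (nat_lit 4), (nat_lit 18),
 (nat_lit 1), (47, 40, 14), [22, 2223], 37⟩,
  ⟨⟨45, 28, -49, 28, -45, -14, 0, 0, -53⟩, (.cons (nat_lit 342) (nat_lit 83) (nat_lit 1) (nat_lit 19) (.cons
 (nat_lit 358) (nat_lit 1201) (nat_lit 2700) (nat_lit 1) .nil)), (nat_lit 46), (nat_lit 15), (nat_lit 44),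
 (nat_lit 1), (24, 22, 0), [294, 2053], 29⟩,
  mz,
  ⟨⟨-13, 48, -27, 30, -17, -60, 30, 36, -7⟩, (.cons (nat_lit 351) (nat_lit 300) (nat_lit 127) (nat_lit 1)
 (.cons (nat_lit 882) (nat_lit 673) (nat_lit 745) (nat_lit 1) .nil)), (nat_lit 29), (nat_lit 25), (nat_lit 42),
 (nat_lit 1), (11, 48, 48), [35, 501], 16⟩,
  mz,
  ⟨⟨-25, -48, -11, 28, 5, -64, -40, 8, -7⟩, (.cons (nat_lit 49) (nat_lit 134) (nat_lit 250) (nat_lit 1) (.cons
 (nat_lit 2156) (nat_lit 1920) (nat_lit 1) (nat_lit 1219) .nil)), (nat_lit 37), (nat_lit 41), (nat_lit 44),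
 (nat_lit 1), (2, 2, 35), [32, 171], 27⟩,
  mz,
  ⟨⟨-1, -48, 37, 52, 5, -16, 8, -40, -31⟩, (.cons (nat_lit 22) (nat_lit 38) (nat_lit 238) (nat_lit 1) (.cons
 (nat_lit 2138) (nat_lit 2455) (nat_lit 1434) (nat_lit 1) .nil)), (nat_lit 14), (nat_lit 10), (nat_lit 5),
 (nat_lit 1), (29, 29, 33), [202, 1464], 28⟩,
  ⟨⟨-13, 48, 40, -30, 17, -30, 30, 36, -23⟩, (.cons (nat_lit 278) (nat_lit 16) (nat_lit 331) (nat_lit 1) (.cons
 (nat_lit 1679) (nat_lit 1827) (nat_lit 1024) (nat_lit 1) .nil)), (nat_lit 34), (nat_lit 43), (nat_lit 18),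
 (nat_lit 1), (42, 48, 5), [258, 1184], 22⟩,
  mz,
  ⟨⟨-45, 28, -4, -28, -45, 14, 0, 0, -53⟩, (.cons (nat_lit 248) (nat_lit 214) (nat_lit 154) (nat_lit 1) (.cons
 (nat_lit 1091) (nat_lit 219) (nat_lit 1907) (nat_lit 1) .nil)), (nat_lit 1), (nat_lit 15), (nat_lit 3),
 (nat_lit 1), (14, 4, 0), [2, 810], 29⟩,
  mz,
  ⟨⟨-39, 28, -17, 10, -33, -50, 18, 36, -37⟩, (.cons (nat_lit 26) (nat_lit 207) (nat_lit 244) (nat_lit 1)
 (.cons (nat_lit 1444) (nat_lit 968) (nat_lit 1303) (nat_lit 1) .nil)), (nat_lit 14), (nat_lit 12), (nat_lit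
 7), (nat_lit 1), (43, 8, 25), [175, 1428], 44⟩,
  mz,
  mz,
  ⟨⟨-9, 8, -59, 52, -5, -36, -8, -40, -23⟩, (.cons (nat_lit 295) (nat_lit 32) (nat_lit 21) (nat_lit 1) (.cons
 (nat_lit 2549) (nat_lit 711) (nat_lit 610) (nat_lit 1) .nil)), (nat_lit 21), (nat_lit 24), (nat_lit 8),
 (nat_lit 1), (2, 12, 43), [235, 1425], 8⟩,
  ⟨⟨-1, 48, 37, 52, -5, -16, 8, 40, -31⟩, (.cons (nat_lit 192) (nat_lit 86) (nat_lit 208) (nat_lit 1) (.cons
 (nat_lit 1052) (nat_lit 1760) (nat_lit 1147) (nat_lit 1) .nil)), (nat_lit 9), (nat_lit 31), (nat_lit 15),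
 (nat_lit 1), (26, 26, 4), [351, 2003], 37⟩,
  ⟨⟨39, 28, -56, -10, -33, -40, -18, 36, -19⟩, (.cons (nat_lit 165) (nat_lit 108) (nat_lit 341) (nat_lit 1)
 (.cons (nat_lit 1911) (nat_lit 2057) (nat_lit 52) (nat_lit 1) .nil)), (nat_lit 33), (nat_lit 12), (nat_lit
 40), (nat_lit 1), (34, 47, 21), [124, 1689], 44⟩,
  ⟨⟨15, -56, -11, -28, -5, -36, 40, -8, -47⟩, (.cons (nat_lit 157) (nat_lit 291) (nat_lit 167) (nat_lit 1)
 (.cons (nat_lit 20) (nat_lit 996) (nat_lit 2522) (nat_lit 1) .nil)), (nat_lit 9), (nat_lit 28), (nat_lit 25),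
 (nat_lit 1), (31, 34, 12), [112, 2163], 37⟩,
  ⟨⟨1, 48, 36, 52, 5, -36, -8, 40, -23⟩, (.cons (nat_lit 64) (nat_lit 252) (nat_lit 162) (nat_lit 1) (.cons
 (nat_lit 390) (nat_lit 1720) (nat_lit 1335) (nat_lit 1) .nil)), (nat_lit 10), (nat_lit 15), (nat_lit 27),
 (nat_lit 1), (38, 15, 14), [305, 1952], 27⟩,
  ⟨⟨31, 48, -4, -10, 17, -50, 46, -4, -35⟩, (.cons (nat_lit 248) (nat_lit 329) (nat_lit 277) (nat_lit 1) (.cons
 (nat_lit 1055) (nat_lit 332) (nat_lit 1604) (nat_lit 1) .nil)), (nat_lit 34), (nat_lit 9), (nat_lit 16),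
 (nat_lit 1), (15, 2, 12), [82, 572], 2⟩,
  ⟨⟨-57, 4, 40, -8, -45, -26, -24, 24, -25⟩, (.cons (nat_lit 351) (nat_lit 297) (nat_lit 227) (nat_lit 1)
 (.cons (nat_lit 482) (nat_lit 1179) (nat_lit 1885) (nat_lit 1) .nil)), (nat_lit 11), (nat_lit 43), (nat_lit
 29), (nat_lit 1), (25, 50, 44), [198, 14], 37⟩,
  ⟨⟨15, 32, 44, -50, 17, 30, 14, 44, -19⟩, (.cons (nat_lit 260) (nat_lit 262) (nat_lit 350) (nat_lit 1) (.cons
 (nat_lit 482) (nat_lit 634) (nat_lit 2139) (nat_lit 1) .nil)), (nat_lit 34), (nat_lit 33), (nat_lit 30),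
 (nat_lit 1), (27, 16, 4), [256, 1706], 2⟩,
  ⟨⟨-15, 32, 59, 50, 17, -20, -14, 44, -5⟩, (.cons (nat_lit 339) (nat_lit 222) (nat_lit 261) (nat_lit 1) (.cons
 (nat_lit 891) (nat_lit 482) (nat_lit 2029) (nat_lit 1) .nil)), (nat_lit 13), (nat_lit 33), (nat_lit 17),
 (nat_lit 1), (6, 33, 48), [18, 445], 2⟩,
  mz,
  ⟨⟨-13, -48, -27, -30, -17, 60, 30, -36, -7⟩, (.cons (nat_lit 198) (nat_lit 288) (nat_lit 299) (nat_lit 1)
 (.cons (nat_lit 1878) (nat_lit 2054) (nat_lit 1355) (nat_lit 1) .nil)), (nat_lit 13), (nat_lit 43), (nat_lit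
 29), (nat_lit 1), (14, 16, 37), [149, 382], 25⟩,
  ⟨⟨-15, -32, 59, 50, -17, -20, -14, -44, -5⟩, (.cons (nat_lit 224) (nat_lit 175) (nat_lit 96) (nat_lit 1)
 (.cons (nat_lit 2375) (nat_lit 609) (nat_lit 1128) (nat_lit 1) .nil)), (nat_lit 35), (nat_lit 45), (nat_lit
 21), (nat_lit 1), (8, 44, 11), [215, 1990], 8⟩,
  ⟨⟨15, -52, 16, 10, -17, -60, 46, -4, -11⟩, (.cons (nat_lit 1) (nat_lit 56) (nat_lit 105) (nat_lit 1) (.cons
 (nat_lit 1105) (nat_lit 1901) (nat_lit 1002) (nat_lit 1) .nil)), (nat_lit 18), (nat_lit 30), (nat_lit 23),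
 (nat_lit 1), (14, 27, 50), [317, 805], 10⟩,
  ⟨⟨-39, -28, -17, 10, 33, -50, 18, -36, -37⟩, (.cons (nat_lit 10) (nat_lit 291) (nat_lit 353) (nat_lit 1)
 (.cons (nat_lit 1333) (nat_lit 1082) (nat_lit 2453) (nat_lit 1) .nil)), (nat_lit 1), (nat_lit 2), (nat_lit 4),
 (nat_lit 1), (5, 49, 14), [91, 1692], 5⟩,
  ⟨⟨39, -28, -56, -10, 33, -40, -18, -36, -19⟩, (.cons (nat_lit 360) (nat_lit 175) (nat_lit 181) (nat_lit 1)
 (.cons (nat_lit 1760) (nat_lit 1943) (nat_lit 2452) (nat_lit 1) .nil)), (nat_lit 46), (nat_lit 2), (nat_lit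
 43), (nat_lit 1), (49, 35, 10), [178, 1221], 5⟩,
  mz,
  ⟨⟨-13, -48, 40, 30, 17, 30, 30, -36, -23⟩, (.cons (nat_lit 274) (nat_lit 309) (nat_lit 278) (nat_lit 1)
 (.cons (nat_lit 2662) (nat_lit 2301) (nat_lit 1086) (nat_lit 1) .nil)), (nat_lit 18), (nat_lit 25), (nat_lit
 5), (nat_lit 1), (45, 47, 47), [153, 1832], 31⟩]

/-- Moves. -/
noncomputable def t1_2 : List Mv := [
  mz,
  mz,
  mz,
  mz,
  ⟨⟨51, 20, -47, -10, 47, 30, -2, 20, -47⟩, (.cons (nat_lit 142) (nat_lit 59) (nat_lit 323) (nat_lit 1) (.cons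
 (nat_lit 771) (nat_lit 182) (nat_lit 1005) (nat_lit 1) .nil)), (nat_lit 1), (nat_lit 3), (nat_lit 12),
 (nat_lit 1), (24, 14, 24), [359, 2363], 22⟩,
  ⟨⟨51, -20, -47, 10, 47, -30, -2, -20, -47⟩, (.cons (nat_lit 9) (nat_lit 323) (nat_lit 22) (nat_lit 1) (.cons
 (nat_lit 2774) (nat_lit 1863) (nat_lit 2153) (nat_lit 1) .nil)), (nat_lit 1), (nat_lit 34), (nat_lit 37),
 (nat_lit 1), (12, 46, 12), [340, 2631], 22⟩,
  ⟨⟨15, 56, -11, -28, 5, -36, 40, 8, -47⟩, (.cons (nat_lit 279) (nat_lit 228) (nat_lit 22) (nat_lit 1) (.cons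
 (nat_lit 2695) (nat_lit 350) (nat_lit 1620) (nat_lit 1) .nil)), (nat_lit 37), (nat_lit 6), (nat_lit 3),
 (nat_lit 1), (1, 37, 38), [166, 2505], 27⟩,
  mz,
  mz,
  ⟨⟨57, -4, -17, 8, 45, -34, 24, -24, -49⟩, (.cons (nat_lit 360) (nat_lit 29) (nat_lit 182) (nat_lit 1) (.cons
 (nat_lit 2048) (nat_lit 38) (nat_lit 1794) (nat_lit 1) .nil)), (nat_lit 46), (nat_lit 2), (nat_lit 12),
 (nat_lit 1), (7, 14, 42), [12, 1517], 9⟩,
  ⟨⟨-25, 48, -11, 28, -5, -64, -40, -8, -7⟩, (.cons (nat_lit 268) (nat_lit 88) (nat_lit 148) (nat_lit 1) (.cons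
 (nat_lit 1455) (nat_lit 2755) (nat_lit 1785) (nat_lit 1) .nil)), (nat_lit 9), (nat_lit 19), (nat_lit 22),
 (nat_lit 1), (52, 52, 9), [85, 2339], 37⟩,
  ⟨⟨15, -32, 44, 50, 17, -30, 14, -44, -19⟩, (.cons (nat_lit 115) (nat_lit 70) (nat_lit 274) (nat_lit 1) (.cons
 (nat_lit 2249) (nat_lit 1588) (nat_lit 82) (nat_lit 1) .nil)), (nat_lit 18), (nat_lit 26), (nat_lit 41),
 (nat_lit 1), (29, 26, 20), [6, 1562], 37⟩,
  ⟨⟨-51, 20, 4, -10, -47, -20, 2, 20, -49⟩, (.cons (nat_lit 57) (nat_lit 117) (nat_lit 85) (nat_lit 1) (.cons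
 (nat_lit 1105) (nat_lit 2442) (nat_lit 2547) (nat_lit 1) .nil)), (nat_lit 20), (nat_lit 14), (nat_lit 31),
 (nat_lit 1), (48, 25, 48), [253, 2352], 40⟩,
  mz,
  mz,
  ⟨⟨-51, -20, 4, -10, 47, -20, 2, -20, -49⟩, (.cons (nat_lit 360) (nat_lit 161) (nat_lit 226) (nat_lit 1)
 (.cons (nat_lit 2336) (nat_lit 1845) (nat_lit 2781) (nat_lit 1) .nil)), (nat_lit 46), (nat_lit 34), (nat_lit
 10), (nat_lit 1), (36, 32, 36), [312, 625], 22⟩,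
  ⟨⟨31, -48, -27, -10, -17, 60, 46, 4, -11⟩, (.cons (nat_lit 111) (nat_lit 231) (nat_lit 48) (nat_lit 1) (.cons
 (nat_lit 812) (nat_lit 2335) (nat_lit 2189) (nat_lit 1) .nil)), (nat_lit 13), (nat_lit 9), (nat_lit 31),
 (nat_lit 1), (39, 37, 10), [210, 932], 45⟩,
  ⟨⟨31, -48, -4, -10, -17, -50, 46, 4, -35⟩, (.cons (nat_lit 67) (nat_lit 203) (nat_lit 168) (nat_lit 1) (.cons
 (nat_lit 256) (nat_lit 2259) (nat_lit 1541) (nat_lit 1) .nil)), (nat_lit 4), (nat_lit 8), (nat_lit 37),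
 (nat_lit 1), (18, 13, 25), [317, 2297], 34⟩,
  ⟨⟨-57, -4, 40, -8, 45, -26, -24, -24, -25⟩, (.cons (nat_lit 221) (nat_lit 327) (nat_lit 333) (nat_lit 1)
 (.cons (nat_lit 504) (nat_lit 282) (nat_lit 1911) (nat_lit 1) .nil)), (nat_lit 1), (nat_lit 2), (nat_lit 35),
 (nat_lit 1), (12, 24, 19), [245, 930], 9⟩,
  mz,
  mz,
  ⟨⟨-33, 20, -32, 8, -45, -34, 24, 24, -49⟩, (.cons (nat_lit 2) (nat_lit 268) (nat_lit 79) (nat_lit 1) (.cons
 (nat_lit 28) (nat_lit 1466) (nat_lit 402) (nat_lit 1) .nil)), (nat_lit 11), (nat_lit 4), (nat_lit 18),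
 (nat_lit 1), (47, 40, 14), [22, 2223], 37⟩,
  ⟨⟨-45, -28, -4, 28, -45, -14, 0, 0, -53⟩, (.cons (nat_lit 115) (nat_lit 299) (nat_lit 340) (nat_lit 1) (.cons
 (nat_lit 1779) (nat_lit 2569) (nat_lit 1526) (nat_lit 1) .nil)), (nat_lit 1), (nat_lit 32), (nat_lit 44),
 (nat_lit 1), (29, 22, 0), [97, 2769], 29⟩,
  mz,
  ⟨⟨-13, 48, -27, -30, 17, 60, 30, 36, -7⟩, (.cons (nat_lit 187) (nat_lit 49) (nat_lit 324) (nat_lit 1) (.cons
 (nat_lit 1516) (nat_lit 1300) (nat_lit 1770) (nat_lit 1) .nil)), (nat_lit 1), (nat_lit 28), (nat_lit 35),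
 (nat_lit 1), (11, 5, 48), [227, 1087], 1⟩,
  mz,
  ⟨⟨-15, 56, 4, -28, -5, 64, -40, 8, -7⟩, (.cons (nat_lit 17) (nat_lit 297) (nat_lit 163) (nat_lit 1) (.cons
 (nat_lit 2761) (nat_lit 2703) (nat_lit 1858) (nat_lit 1) .nil)), (nat_lit 26), (nat_lit 7), (nat_lit 33),
 (nat_lit 1), (33, 51, 35), [338, 2539], 8⟩,
  mz,
  ⟨⟨-1, -48, 37, 52, 5, -16, 8, -40, -31⟩, (.cons (nat_lit 22) (nat_lit 38) (nat_lit 238) (nat_lit 1) (.cons
 (nat_lit 2138) (nat_lit 2455) (nat_lit 1434) (nat_lit 1) .nil)), (nat_lit 14), (nat_lit 10), (nat_lit 5),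
 (nat_lit 1), (29, 29, 33), [202, 1464], 28⟩,
  ⟨⟨43, -12, -63, -30, 17, -30, 30, 36, -23⟩, (.cons (nat_lit 36) (nat_lit 30) (nat_lit 121) (nat_lit 1) (.cons
 (nat_lit 470) (nat_lit 618) (nat_lit 2144) (nat_lit 1) .nil)), (nat_lit 13), (nat_lit 4), (nat_lit 18),
 (nat_lit 1), (16, 48, 5), [126, 1326], 22⟩,
  mz,
  ⟨⟨45, -28, -49, 28, 45, -14, 0, 0, -53⟩, (.cons (nat_lit 134) (nat_lit 238) (nat_lit 232) (nat_lit 1) (.cons
 (nat_lit 2384) (nat_lit 372) (nat_lit 1920) (nat_lit 1) .nil)), (nat_lit 1), (nat_lit 16), (nat_lit 22),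
 (nat_lit 1), (39, 49, 0), [300, 1179], 38⟩,
  mz,
  ⟨⟨-39, 28, -17, 10, -33, -50, 18, 36, -37⟩, (.cons (nat_lit 26) (nat_lit 207) (nat_lit 244) (nat_lit 1)
 (.cons (nat_lit 1444) (nat_lit 968) (nat_lit 1303) (nat_lit 1) .nil)), (nat_lit 14), (nat_lit 12), (nat_lit
 7), (nat_lit 1), (43, 8, 25), [175, 1428], 44⟩,
  mz,
  mz,
  ⟨⟨-9, 8, -59, 52, -5, -36, -8, -40, -23⟩, (.cons (nat_lit 295) (nat_lit 32) (nat_lit 21) (nat_lit 1) (.cons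
 (nat_lit 2549) (nat_lit 711) (nat_lit 610) (nat_lit 1) .nil)), (nat_lit 21), (nat_lit 24), (nat_lit 8),
 (nat_lit 1), (2, 12, 43), [235, 1425], 8⟩,
  ⟨⟨9, -8, -68, 52, -5, -16, 8, 40, -31⟩, (.cons (nat_lit 85) (nat_lit 25) (nat_lit 224) (nat_lit 1) (.cons
 (nat_lit 2653) (nat_lit 630) (nat_lit 206) (nat_lit 1) .nil)), (nat_lit 38), (nat_lit 16), (nat_lit 15),
 (nat_lit 1), (31, 26, 4), [246, 722], 37⟩,
  ⟨⟨39, 28, -56, -10, -33, -40, -18, 36, -19⟩, (.cons (nat_lit 165) (nat_lit 108) (nat_lit 341) (nat_lit 1)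
 (.cons (nat_lit 1911) (nat_lit 2057) (nat_lit 52) (nat_lit 1) .nil)), (nat_lit 33), (nat_lit 12), (nat_lit
 40), (nat_lit 1), (34, 47, 21), [124, 1689], 44⟩,
  ⟨⟨15, -56, -11, -28, -5, -36, 40, -8, -47⟩, (.cons (nat_lit 157) (nat_lit 291) (nat_lit 167) (nat_lit 1)
 (.cons (nat_lit 20) (nat_lit 996) (nat_lit 2522) (nat_lit 1) .nil)), (nat_lit 9), (nat_lit 28), (nat_lit 25),
 (nat_lit 1), (31, 34, 12), [112, 2163], 37⟩,
  ⟨⟨-9, -8, -59, 52, 5, -36, -8, 40, -23⟩, (.cons (nat_lit 32) (nat_lit 173) (nat_lit 190) (nat_lit 1) (.cons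
 (nat_lit 793) (nat_lit 1430) (nat_lit 1770) (nat_lit 1) .nil)), (nat_lit 37), (nat_lit 32), (nat_lit 27),
 (nat_lit 1), (29, 15, 14), [33, 2207], 27⟩,
  ⟨⟨31, 48, -4, -10, 17, -50, 46, -4, -35⟩, (.cons (nat_lit 248) (nat_lit 329) (nat_lit 277) (nat_lit 1) (.cons
 (nat_lit 1055) (nat_lit 332) (nat_lit 1604) (nat_lit 1) .nil)), (nat_lit 34), (nat_lit 9), (nat_lit 16),
 (nat_lit 1), (15, 2, 12), [82, 572], 2⟩,
  ⟨⟨-57, 4, 40, -8, -45, -26, -24, 24, -25⟩, (.cons (nat_lit 351) (nat_lit 297) (nat_lit 227) (nat_lit 1)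
 (.cons (nat_lit 482) (nat_lit 1179) (nat_lit 1885) (nat_lit 1) .nil)), (nat_lit 11), (nat_lit 43), (nat_lit
 29), (nat_lit 1), (25, 50, 44), [198, 14], 37⟩,
  ⟨⟨15, 32, 44, -50, 17, 30, 14, 44, -19⟩, (.cons (nat_lit 260) (nat_lit 262) (nat_lit 350) (nat_lit 1) (.cons
 (nat_lit 482) (nat_lit 634) (nat_lit 2139) (nat_lit 1) .nil)), (nat_lit 34), (nat_lit 33), (nat_lit 30),
 (nat_lit 1), (27, 16, 4), [256, 1706], 2⟩,
  ⟨⟨-15, 32, 59, 50, 17, -20, -14, 44, -5⟩, (.cons (nat_lit 339) (nat_lit 222) (nat_lit 261) (nat_lit 1) (.cons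
 (nat_lit 891) (nat_lit 482) (nat_lit 2029) (nat_lit 1) .nil)), (nat_lit 13), (nat_lit 33), (nat_lit 17),
 (nat_lit 1), (6, 33, 48), [18, 445], 2⟩,
  mz,
  ⟨⟨-13, -48, -27, 30, 17, -60, 30, -36, -7⟩, (.cons (nat_lit 168) (nat_lit 311) (nat_lit 349) (nat_lit 1)
 (.cons (nat_lit 774) (nat_lit 1255) (nat_lit 2260) (nat_lit 1) .nil)), (nat_lit 1), (nat_lit 13), (nat_lit
 32), (nat_lit 1), (14, 37, 37), [208, 1564], 1⟩,
  ⟨⟨1, -12, -64, 50, -17, -20, -14, -44, -5⟩, (.cons (nat_lit 98) (nat_lit 7) (nat_lit 359) (nat_lit 1) (.cons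
 (nat_lit 1336) (nat_lit 6) (nat_lit 1185) (nat_lit 1) .nil)), (nat_lit 12), (nat_lit 2), (nat_lit 21),
 (nat_lit 1), (3, 44, 11), [160, 2653], 8⟩,
  ⟨⟨15, -52, 16, -10, 17, 60, 46, -4, -11⟩, (.cons (nat_lit 70) (nat_lit 232) (nat_lit 140) (nat_lit 1) (.cons
 (nat_lit 1467) (nat_lit 2250) (nat_lit 1849) (nat_lit 1) .nil)), (nat_lit 4), (nat_lit 39), (nat_lit 10),
 (nat_lit 1), (14, 26, 50), [92, 1463], 13⟩,
  ⟨⟨-39, -28, -17, -10, -33, 50, 18, -36, -37⟩, (.cons (nat_lit 90) (nat_lit 176) (nat_lit 226) (nat_lit 1)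
 (.cons (nat_lit 1516) (nat_lit 1780) (nat_lit 648) (nat_lit 1) .nil)), (nat_lit 37), (nat_lit 21), (nat_lit
 24), (nat_lit 1), (5, 4, 14), [172, 234], 29⟩,
  ⟨⟨39, -28, -56, -10, 33, -40, -18, -36, -19⟩, (.cons (nat_lit 360) (nat_lit 175) (nat_lit 181) (nat_lit 1)
 (.cons (nat_lit 1760) (nat_lit 1943) (nat_lit 2452) (nat_lit 1) .nil)), (nat_lit 46), (nat_lit 2), (nat_lit
 43), (nat_lit 1), (49, 35, 10), [178, 1221], 5⟩,
  mz,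
  ⟨⟨43, 12, -63, 30, 17, 30, 30, -36, -23⟩, (.cons (nat_lit 31) (nat_lit 97) (nat_lit 117) (nat_lit 1) (.cons
 (nat_lit 1990) (nat_lit 2628) (nat_lit 1495) (nat_lit 1) .nil)), (nat_lit 29), (nat_lit 22), (nat_lit 5),
 (nat_lit 1), (2, 47, 47), [128, 112], 31⟩]

/-- Moves. -/
noncomputable def t1_8 : List Mv := [
  mz,
  mz,
  mz,
  mz,
  ⟨⟨51, 20, -47, 10, -47, -30, -2, 20, -47⟩, (.cons (nat_lit 306) (nat_lit 352) (nat_lit 167) (nat_lit 1)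
 (.cons (nat_lit 649) (nat_lit 549) (nat_lit 1128) (nat_lit 1) .nil)), (nat_lit 27), (nat_lit 14), (nat_lit
 16), (nat_lit 1), (24, 39, 24), [212, 2166], 40⟩,
  ⟨⟨-53, 0, 0, -10, -47, 30, -2, -20, -47⟩, (.cons (nat_lit 232) (nat_lit 299) (nat_lit 1) (nat_lit 19) (.cons
 (nat_lit 1970) (nat_lit 2631) (nat_lit 837) (nat_lit 1) .nil)), (nat_lit 40), (nat_lit 43), (nat_lit 18),
 (nat_lit 1), (0, 7, 12), [267, 730], 33⟩,
  ⟨⟨25, -48, -36, 28, -5, 36, 40, 8, -47⟩, (.cons (nat_lit 146) (nat_lit 131) (nat_lit 1) (nat_lit 228) (.cons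
 (nat_lit 414) (nat_lit 2791) (nat_lit 967) (nat_lit 1) .nil)), (nat_lit 26), (nat_lit 40), (nat_lit 14),
 (nat_lit 1), (37, 16, 38), [27, 1843], 8⟩,
  mz,
  mz,
  ⟨⟨-33, -20, -32, -8, -45, 34, 24, -24, -49⟩, (.cons (nat_lit 36) (nat_lit 138) (nat_lit 131) (nat_lit 1)
 (.cons (nat_lit 1145) (nat_lit 1745) (nat_lit 715) (nat_lit 1) .nil)), (nat_lit 30), (nat_lit 26), (nat_lit
 23), (nat_lit 1), (35, 39, 42), [298, 2143], 24⟩,
  ⟨⟨-25, 48, -11, 28, -5, -64, -40, -8, -7⟩, (.cons (nat_lit 268) (nat_lit 88) (nat_lit 148) (nat_lit 1) (.cons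
 (nat_lit 1455) (nat_lit 2755) (nat_lit 1785) (nat_lit 1) .nil)), (nat_lit 9), (nat_lit 19), (nat_lit 22),
 (nat_lit 1), (52, 52, 9), [85, 2339], 37⟩,
  ⟨⟨-1, -12, -63, 50, 17, -30, 14, -44, -19⟩, (.cons (nat_lit 348) (nat_lit 115) (nat_lit 263) (nat_lit 1)
 (.cons (nat_lit 964) (nat_lit 2139) (nat_lit 1266) (nat_lit 1) .nil)), (nat_lit 29), (nat_lit 21), (nat_lit
 41), (nat_lit 1), (44, 26, 20), [249, 866], 37⟩,
  ⟨⟨-51, 20, 4, -10, -47, -20, 2, 20, -49⟩, (.cons (nat_lit 57) (nat_lit 117) (nat_lit 85) (nat_lit 1) (.cons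
 (nat_lit 1105) (nat_lit 2442) (nat_lit 2547) (nat_lit 1) .nil)), (nat_lit 20), (nat_lit 14), (nat_lit 31),
 (nat_lit 1), (48, 25, 48), [253, 2352], 40⟩,
  mz,
  mz,
  ⟨⟨53, 0, -53, -10, 47, -20, 2, -20, -49⟩, (.cons (nat_lit 321) (nat_lit 285) (nat_lit 158) (nat_lit 1) (.cons
 (nat_lit 1549) (nat_lit 203) (nat_lit 331) (nat_lit 1) .nil)), (nat_lit 1), (nat_lit 13), (nat_lit 10),
 (nat_lit 1), (0, 32, 36), [334, 1037], 22⟩,
  ⟨⟨15, 52, 16, 10, 17, -60, 46, 4, -11⟩, (.cons (nat_lit 154) (nat_lit 23) (nat_lit 37) (nat_lit 1) (.cons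
 (nat_lit 1327) (nat_lit 2140) (nat_lit 995) (nat_lit 1) .nil)), (nat_lit 12), (nat_lit 11), (nat_lit 38),
 (nat_lit 1), (24, 16, 10), [119, 1560], 39⟩,
  ⟨⟨31, -48, -4, 10, 17, 50, 46, 4, -35⟩, (.cons (nat_lit 193) (nat_lit 335) (nat_lit 318) (nat_lit 1) (.cons
 (nat_lit 961) (nat_lit 526) (nat_lit 1160) (nat_lit 1) .nil)), (nat_lit 18), (nat_lit 17), (nat_lit 24),
 (nat_lit 1), (18, 40, 25), [290, 2455], 37⟩,
  ⟨⟨-57, -4, 40, -8, 45, -26, -24, -24, -25⟩, (.cons (nat_lit 221) (nat_lit 327) (nat_lit 333) (nat_lit 1)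
 (.cons (nat_lit 504) (nat_lit 282) (nat_lit 1911) (nat_lit 1) .nil)), (nat_lit 1), (nat_lit 2), (nat_lit 35),
 (nat_lit 1), (12, 24, 19), [245, 930], 9⟩,
  mz,
  mz,
  ⟨⟨-33, 20, -32, 8, -45, -34, 24, 24, -49⟩, (.cons (nat_lit 2) (nat_lit 268) (nat_lit 79) (nat_lit 1) (.cons
 (nat_lit 28) (nat_lit 1466) (nat_lit 402) (nat_lit 1) .nil)), (nat_lit 11), (nat_lit 4), (nat_lit 18),
 (nat_lit 1), (47, 40, 14), [22, 2223], 37⟩,
  ⟨⟨45, 28, -49, 28, -45, -14, 0, 0, -53⟩, (.cons (nat_lit 342) (nat_lit 83) (nat_lit 1) (nat_lit 19) (.cons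
 (nat_lit 358) (nat_lit 1201) (nat_lit 2700) (nat_lit 1) .nil)), (nat_lit 46), (nat_lit 15), (nat_lit 44),
 (nat_lit 1), (24, 22, 0), [294, 2053], 29⟩,
  mz,
  ⟨⟨-13, 48, -27, 30, -17, -60, 30, 36, -7⟩, (.cons (nat_lit 351) (nat_lit 300) (nat_lit 127) (nat_lit 1)
 (.cons (nat_lit 882) (nat_lit 673) (nat_lit 745) (nat_lit 1) .nil)), (nat_lit 29), (nat_lit 25), (nat_lit 42),
 (nat_lit 1), (11, 48, 48), [35, 501], 16⟩,
  mz,
  ⟨⟨-25, -48, -11, 28, 5, -64, -40, 8, -7⟩, (.cons (nat_lit 49) (nat_lit 134) (nat_lit 250) (nat_lit 1) (.cons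
 (nat_lit 2156) (nat_lit 1920) (nat_lit 1) (nat_lit 1219) .nil)), (nat_lit 37), (nat_lit 41), (nat_lit 44),
 (nat_lit 1), (2, 2, 35), [32, 171], 27⟩,
  mz,
  ⟨⟨-1, -48, 37, 52, 5, -16, 8, -40, -31⟩, (.cons (nat_lit 22) (nat_lit 38) (nat_lit 238) (nat_lit 1) (.cons
 (nat_lit 2138) (nat_lit 2455) (nat_lit 1434) (nat_lit 1) .nil)), (nat_lit 14), (nat_lit 10), (nat_lit 5),
 (nat_lit 1), (29, 29, 33), [202, 1464], 28⟩,
  ⟨⟨43, -12, -63, -30, 17, -30, 30, 36, -23⟩, (.cons (nat_lit 36) (nat_lit 30) (nat_lit 121) (nat_lit 1) (.cons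
 (nat_lit 470) (nat_lit 618) (nat_lit 2144) (nat_lit 1) .nil)), (nat_lit 13), (nat_lit 4), (nat_lit 18),
 (nat_lit 1), (16, 48, 5), [126, 1326], 22⟩,
  mz,
  ⟨⟨45, -28, -49, 28, 45, -14, 0, 0, -53⟩, (.cons (nat_lit 134) (nat_lit 238) (nat_lit 232) (nat_lit 1) (.cons
 (nat_lit 2384) (nat_lit 372) (nat_lit 1920) (nat_lit 1) .nil)), (nat_lit 1), (nat_lit 16), (nat_lit 22),
 (nat_lit 1), (39, 49, 0), [300, 1179], 38⟩,
  mz,
  ⟨⟨57, 8, -20, 10, -33, -50, 18, 36, -37⟩, (.cons (nat_lit 108) (nat_lit 335) (nat_lit 333) (nat_lit 1) (.cons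
 (nat_lit 885) (nat_lit 511) (nat_lit 2495) (nat_lit 1) .nil)), (nat_lit 33), (nat_lit 35), (nat_lit 7),
 (nat_lit 1), (35, 8, 25), [352, 1226], 44⟩,
  mz,
  mz,
  ⟨⟨-9, 8, -59, 52, -5, -36, -8, -40, -23⟩, (.cons (nat_lit 295) (nat_lit 32) (nat_lit 21) (nat_lit 1) (.cons
 (nat_lit 2549) (nat_lit 711) (nat_lit 610) (nat_lit 1) .nil)), (nat_lit 21), (nat_lit 24), (nat_lit 8),
 (nat_lit 1), (2, 12, 43), [235, 1425], 8⟩,
  ⟨⟨-1, 48, 37, 52, -5, -16, 8, 40, -31⟩, (.cons (nat_lit 192) (nat_lit 86) (nat_lit 208) (nat_lit 1) (.cons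
 (nat_lit 1052) (nat_lit 1760) (nat_lit 1147) (nat_lit 1) .nil)), (nat_lit 9), (nat_lit 31), (nat_lit 15),
 (nat_lit 1), (26, 26, 4), [351, 2003], 37⟩,
  ⟨⟨-57, 8, 37, -10, -33, -40, -18, 36, -19⟩, (.cons (nat_lit 357) (nat_lit 343) (nat_lit 182) (nat_lit 1)
 (.cons (nat_lit 1745) (nat_lit 2058) (nat_lit 1273) (nat_lit 1) .nil)), (nat_lit 14), (nat_lit 35), (nat_lit
 40), (nat_lit 1), (40, 47, 21), [225, 101], 44⟩,
  ⟨⟨25, 48, -36, 28, 5, 36, 40, -8, -47⟩, (.cons (nat_lit 220) (nat_lit 154) (nat_lit 99) (nat_lit 1) (.cons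
 (nat_lit 1869) (nat_lit 804) (nat_lit 321) (nat_lit 1) .nil)), (nat_lit 33), (nat_lit 22), (nat_lit 2),
 (nat_lit 1), (34, 19, 12), [349, 2213], 28⟩,
  ⟨⟨1, 48, 36, -52, -5, 36, -8, 40, -23⟩, (.cons (nat_lit 323) (nat_lit 234) (nat_lit 225) (nat_lit 1) (.cons
 (nat_lit 2556) (nat_lit 311) (nat_lit 2228) (nat_lit 1) .nil)), (nat_lit 38), (nat_lit 31), (nat_lit 32),
 (nat_lit 1), (38, 38, 14), [129, 2147], 37⟩,
  ⟨⟨31, 48, -4, -10, 17, -50, 46, -4, -35⟩, (.cons (nat_lit 248) (nat_lit 329) (nat_lit 277) (nat_lit 1) (.cons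
 (nat_lit 1055) (nat_lit 332) (nat_lit 1604) (nat_lit 1) .nil)), (nat_lit 34), (nat_lit 9), (nat_lit 16),
 (nat_lit 1), (15, 2, 12), [82, 572], 2⟩,
  ⟨⟨-57, 4, 40, -8, -45, -26, -24, 24, -25⟩, (.cons (nat_lit 351) (nat_lit 297) (nat_lit 227) (nat_lit 1)
 (.cons (nat_lit 482) (nat_lit 1179) (nat_lit 1885) (nat_lit 1) .nil)), (nat_lit 11), (nat_lit 43), (nat_lit
 29), (nat_lit 1), (25, 50, 44), [198, 14], 37⟩,
  ⟨⟨15, 32, 44, 50, -17, -30, 14, 44, -19⟩, (.cons (nat_lit 108) (nat_lit 182) (nat_lit 348) (nat_lit 1) (.cons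
 (nat_lit 2239) (nat_lit 416) (nat_lit 2194) (nat_lit 1) .nil)), (nat_lit 4), (nat_lit 44), (nat_lit 11),
 (nat_lit 1), (27, 37, 4), [79, 2460], 34⟩,
  ⟨⟨1, 12, -64, -50, -17, 20, -14, 44, -5⟩, (.cons (nat_lit 143) (nat_lit 321) (nat_lit 124) (nat_lit 1) (.cons
 (nat_lit 1187) (nat_lit 1178) (nat_lit 104) (nat_lit 1) .nil)), (nat_lit 4), (nat_lit 3), (nat_lit 36),
 (nat_lit 1), (42, 20, 48), [70, 2271], 34⟩,
  mz,
  ⟨⟨-13, -48, -27, 30, 17, -60, 30, -36, -7⟩, (.cons (nat_lit 168) (nat_lit 311) (nat_lit 349) (nat_lit 1)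
 (.cons (nat_lit 774) (nat_lit 1255) (nat_lit 2260) (nat_lit 1) .nil)), (nat_lit 1), (nat_lit 13), (nat_lit
 32), (nat_lit 1), (14, 37, 37), [208, 1564], 1⟩,
  ⟨⟨-15, -32, 59, 50, -17, -20, -14, -44, -5⟩, (.cons (nat_lit 224) (nat_lit 175) (nat_lit 96) (nat_lit 1)
 (.cons (nat_lit 2375) (nat_lit 609) (nat_lit 1128) (nat_lit 1) .nil)), (nat_lit 35), (nat_lit 45), (nat_lit
 21), (nat_lit 1), (8, 44, 11), [215, 1990], 8⟩,
  ⟨⟨15, -52, 16, 10, -17, -60, 46, -4, -11⟩, (.cons (nat_lit 1) (nat_lit 56) (nat_lit 105) (nat_lit 1) (.cons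
 (nat_lit 1105) (nat_lit 1901) (nat_lit 1002) (nat_lit 1) .nil)), (nat_lit 18), (nat_lit 30), (nat_lit 23),
 (nat_lit 1), (14, 27, 50), [317, 805], 10⟩,
  ⟨⟨57, -8, -20, -10, -33, 50, 18, -36, -37⟩, (.cons (nat_lit 117) (nat_lit 154) (nat_lit 27) (nat_lit 1)
 (.cons (nat_lit 171) (nat_lit 923) (nat_lit 222) (nat_lit 1) .nil)), (nat_lit 10), (nat_lit 26), (nat_lit 24),
 (nat_lit 1), (9, 4, 14), [261, 322], 29⟩,
  ⟨⟨39, -28, -56, -10, 33, -40, -18, -36, -19⟩, (.cons (nat_lit 360) (nat_lit 175) (nat_lit 181) (nat_lit 1)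
 (.cons (nat_lit 1760) (nat_lit 1943) (nat_lit 2452) (nat_lit 1) .nil)), (nat_lit 46), (nat_lit 2), (nat_lit
 43), (nat_lit 1), (49, 35, 10), [178, 1221], 5⟩,
  mz,
  ⟨⟨43, 12, -63, -30, -17, -30, 30, -36, -23⟩, (.cons (nat_lit 139) (nat_lit 48) (nat_lit 89) (nat_lit 1)
 (.cons (nat_lit 2374) (nat_lit 2513) (nat_lit 1923) (nat_lit 1) .nil)), (nat_lit 1), (nat_lit 19), (nat_lit
 12), (nat_lit 1), (2, 6, 47), [283, 1454], 46⟩]

/-- Moves. -/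
noncomputable def t4_1 : List Mv := [
  mz,
  ⟨⟨-25, 12, -36, -22, 35, 36, 20, 28, -37⟩, (.cons (nat_lit 48) (nat_lit 5) (nat_lit 206) (nat_lit 1) (.cons
 (nat_lit 282) (nat_lit 2117) (nat_lit 1082) (nat_lit 1) .nil)), (nat_lit 21), (nat_lit 0), (nat_lit 0),
 (nat_lit 0), (2, 45, 36), [54, 1834], 0⟩,
  ⟨⟨21, -32, -49, 2, 35, -36, -28, -20, -13⟩, (.cons (nat_lit 162) (nat_lit 177) (nat_lit 60) (nat_lit 1)
 (.cons (nat_lit 674) (nat_lit 1959) (nat_lit 2802) (nat_lit 1) .nil)), (nat_lit 5), (nat_lit 0), (nat_lit 0),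
 (nat_lit 0), (33, 30, 3), [205, 780], 0⟩,
  ⟨⟨-51, 4, 19, -2, -45, -14, -12, 12, -37⟩, (.cons (nat_lit 262) (nat_lit 173) (nat_lit 193) (nat_lit 1)
 (.cons (nat_lit 965) (nat_lit 2738) (nat_lit 2168) (nat_lit 1) .nil)), (nat_lit 33), (nat_lit 0), (nat_lit 0),
 (nat_lit 0), (7, 27, 21), [337, 957], 0⟩,
  mz,
  ⟨⟨25, -12, -61, -22, 35, -14, -20, -28, -17⟩, (.cons (nat_lit 78) (nat_lit 273) (nat_lit 13) (nat_lit 1)
 (.cons (nat_lit 696) (nat_lit 1710) (nat_lit 2063) (nat_lit 1) .nil)), (nat_lit 2), (nat_lit 0), (nat_lit 0),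
 (nat_lit 0), (9, 9, 21), [326, 272], 0⟩,
  mz,
  mz,
  mz,
  ⟨⟨-17, -48, 0, -40, 17, 0, 10, -16, -47⟩, (.cons (nat_lit 360) (nat_lit 187) (nat_lit 90) (nat_lit 1) (.cons
 (nat_lit 2808) (nat_lit 2023) (nat_lit 2584) (nat_lit 1) .nil)), (nat_lit 9), (nat_lit 0), (nat_lit 0),
 (nat_lit 0), (6, 39, 2), [255, 2643], 0⟩,
  mz,
  ⟨⟨17, 48, -17, -40, 17, 40, -10, 16, -37⟩, (.cons (nat_lit 252) (nat_lit 18) (nat_lit 98) (nat_lit 1) (.cons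
 (nat_lit 762) (nat_lit 351) (nat_lit 112) (nat_lit 1) .nil)), (nat_lit 36), (nat_lit 0), (nat_lit 0), (nat_lit
 0), (25, 2, 24), [308, 45], 0⟩,
  ⟨⟨17, -36, -45, -20, 23, -30, 38, 8, -37⟩, (.cons (nat_lit 10) (nat_lit 228) (nat_lit 312) (nat_lit 1) (.cons
 (nat_lit 2305) (nat_lit 1306) (nat_lit 2293) (nat_lit 1) .nil)), (nat_lit 32), (nat_lit 0), (nat_lit 0),
 (nat_lit 0), (19, 44, 1), [299, 421], 0⟩,
  mz,
  ⟨⟨-51, -4, 19, 2, -45, 14, -12, -12, -37⟩, (.cons (nat_lit 207) (nat_lit 336) (nat_lit 29) (nat_lit 1) (.cons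
 (nat_lit 784) (nat_lit 1637) (nat_lit 546) (nat_lit 1) .nil)), (nat_lit 44), (nat_lit 0), (nat_lit 0),
 (nat_lit 0), (25, 11, 28), [238, 2577], 0⟩,
  ⟨⟨9, 4, -61, 40, 23, -10, 22, -32, -29⟩, (.cons (nat_lit 101) (nat_lit 252) (nat_lit 181) (nat_lit 1) (.cons
 (nat_lit 2557) (nat_lit 2620) (nat_lit 290) (nat_lit 1) .nil)), (nat_lit 35), (nat_lit 0), (nat_lit 0),
 (nat_lit 0), (18, 33, 44), [269, 2418], 0⟩,
  ⟨⟨-13, 36, 45, 40, 23, -30, -22, 32, -7⟩, (.cons (nat_lit 282) (nat_lit 77) (nat_lit 203) (nat_lit 1) (.cons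
 (nat_lit 1162) (nat_lit 678) (nat_lit 1062) (nat_lit 1) .nil)), (nat_lit 27), (nat_lit 0), (nat_lit 0),
 (nat_lit 0), (5, 28, 41), [236, 2383], 0⟩,
  mz,
  ⟨⟨23, 0, 40, 0, -47, 0, 42, 0, -23⟩, (.cons (nat_lit 360) (nat_lit 352) (nat_lit 31) (nat_lit 1) (.cons (nat_lit 2808) (nat_lit 738) (nat_lit 415) (nat_lit 1) .nil)), (nat_lit 18), (nat_lit 0), (nat_lit 0), (nat_lit 0), (7, 0, 23), [70, 1388], 0⟩,
  ⟨⟨-39, 32, 8, -20, -33, -20, 6, 24, -41⟩, (.cons (nat_lit 129) (nat_lit 10) (nat_lit 252) (nat_lit 1) (.cons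
 (nat_lit 2528) (nat_lit 2551) (nat_lit 1190) (nat_lit 1) .nil)), (nat_lit 22), (nat_lit 0), (nat_lit 0),
 (nat_lit 0), (25, 8, 7), [106, 1864], 0⟩,
  ⟨⟨17, -36, 28, 20, -23, -50, 38, 8, -1⟩, (.cons (nat_lit 289) (nat_lit 252) (nat_lit 326) (nat_lit 1) (.cons
 (nat_lit 1530) (nat_lit 2585) (nat_lit 1735) (nat_lit 1) .nil)), (nat_lit 16), (nat_lit 0), (nat_lit 0),
 (nat_lit 0), (2, 30, 10), [338, 838], 0⟩,
  ⟨⟨21, 32, -49, 2, -35, -36, -28, 20, -13⟩, (.cons (nat_lit 255) (nat_lit 14) (nat_lit 224) (nat_lit 1) (.cons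
 (nat_lit 885) (nat_lit 2142) (nat_lit 2350) (nat_lit 1) .nil)), (nat_lit 5), (nat_lit 0), (nat_lit 0),
 (nat_lit 0), (30, 23, 7), [329, 776], 0⟩,
  ⟨⟨-39, -32, 8, 20, -33, 20, 6, -24, -41⟩, (.cons (nat_lit 14) (nat_lit 221) (nat_lit 82) (nat_lit 1) (.cons
 (nat_lit 2799) (nat_lit 229) (nat_lit 664) (nat_lit 1) .nil)), (nat_lit 19), (nat_lit 0), (nat_lit 0),
 (nat_lit 0), (28, 23, 21), [199, 1006], 0⟩,
  mz,
  mz,
  ⟨⟨-45, 8, -4, 20, 33, -40, -6, -24, -35⟩, (.cons (nat_lit 360) (nat_lit 94) (nat_lit 250) (nat_lit 1) (.cons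
 (nat_lit 2808) (nat_lit 525) (nat_lit 1775) (nat_lit 1) .nil)), (nat_lit 25), (nat_lit 0), (nat_lit 0),
 (nat_lit 0), (40, 24, 21), [113, 2565], 0⟩,
  ⟨⟨-21, 32, -28, -2, -35, -34, 28, 20, -41⟩, (.cons (nat_lit 168) (nat_lit 73) (nat_lit 332) (nat_lit 1)
 (.cons (nat_lit 768) (nat_lit 1206) (nat_lit 570) (nat_lit 1) .nil)), (nat_lit 5), (nat_lit 0), (nat_lit 0),
 (nat_lit 0), (30, 23, 7), [183, 43], 0⟩,
  ⟨⟨17, 36, -45, -20, -23, -30, 38, -8, -37⟩, (.cons (nat_lit 257) (nat_lit 354) (nat_lit 329) (nat_lit 1)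
 (.cons (nat_lit 139) (nat_lit 1671) (nat_lit 1217) (nat_lit 1) .nil)), (nat_lit 32), (nat_lit 0), (nat_lit 0),
 (nat_lit 0), (45, 30, 37), [254, 2389], 0⟩,
  ⟨⟨39, 32, -31, 20, -33, -40, -6, 24, -35⟩, (.cons (nat_lit 129) (nat_lit 49) (nat_lit 235) (nat_lit 1) (.cons
 (nat_lit 2489) (nat_lit 43) (nat_lit 168) (nat_lit 1) .nil)), (nat_lit 22), (nat_lit 0), (nat_lit 0), (nat_lit
 0), (25, 8, 7), [221, 2175], 0⟩,
  ⟨⟨19, 0, 44, 0, -47, 0, 42, 0, -19⟩, (.cons (nat_lit 360) (nat_lit 92) (nat_lit 155) (nat_lit 1) (.cons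
 (nat_lit 2808) (nat_lit 1245) (nat_lit 1608) (nat_lit 1) .nil)), (nat_lit 29), (nat_lit 0), (nat_lit 0),
 (nat_lit 0), (31, 0, 24), [110, 906], 0⟩,
  mz,
  ⟨⟨9, -4, -61, 40, -23, -10, 22, 32, -29⟩, (.cons (nat_lit 105) (nat_lit 23) (nat_lit 341) (nat_lit 1) (.cons
 (nat_lit 457) (nat_lit 2081) (nat_lit 2434) (nat_lit 1) .nil)), (nat_lit 35), (nat_lit 0), (nat_lit 0),
 (nat_lit 0), (36, 19, 41), [159, 481], 0⟩,
  ⟨⟨-13, -36, 45, 40, -23, -30, -22, -32, -7⟩, (.cons (nat_lit 59) (nat_lit 52) (nat_lit 83) (nat_lit 1) (.cons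
 (nat_lit 2324) (nat_lit 1443) (nat_lit 355) (nat_lit 1) .nil)), (nat_lit 27), (nat_lit 0), (nat_lit 0),
 (nat_lit 0), (26, 14, 44), [85, 839], 0⟩,
  ⟨⟨51, -4, -32, 2, 45, -16, 12, -12, -49⟩, (.cons (nat_lit 360) (nat_lit 24) (nat_lit 294) (nat_lit 1) (.cons
 (nat_lit 2808) (nat_lit 655) (nat_lit 957) (nat_lit 1) .nil)), (nat_lit 33), (nat_lit 0), (nat_lit 0),
 (nat_lit 0), (25, 36, 28), [281, 500], 0⟩,
  mz,
  ⟨⟨21, -44, -29, -20, -23, 50, 38, -8, -1⟩, (.cons (nat_lit 168) (nat_lit 262) (nat_lit 277) (nat_lit 1)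
 (.cons (nat_lit 1215) (nat_lit 2106) (nat_lit 1584) (nat_lit 1) .nil)), (nat_lit 15), (nat_lit 0), (nat_lit
 0), (nat_lit 0), (18, 3, 46), [296, 2228], 0⟩,
  ⟨⟨27, -32, -47, 40, 17, 0, 10, 16, -47⟩, (.cons (nat_lit 308) (nat_lit 232) (nat_lit 140) (nat_lit 1) (.cons
 (nat_lit 1810) (nat_lit 2333) (nat_lit 2337) (nat_lit 1) .nil)), (nat_lit 11), (nat_lit 0), (nat_lit 0),
 (nat_lit 0), (46, 2, 24), [216, 2562], 0⟩,
  mz,
  ⟨⟨-27, 32, -20, 40, 17, -40, -10, -16, -37⟩, (.cons (nat_lit 360) (nat_lit 5) (nat_lit 134) (nat_lit 1)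
 (.cons (nat_lit 2808) (nat_lit 736) (nat_lit 2199) (nat_lit 1) .nil)), (nat_lit 38), (nat_lit 0), (nat_lit 0),
 (nat_lit 0), (43, 39, 2), [231, 2674], 0⟩,
  mz,
  mz,
  mz,
  ⟨⟨45, -16, -1, 22, 35, -36, 20, -28, -37⟩, (.cons (nat_lit 195) (nat_lit 187) (nat_lit 342) (nat_lit 1)
 (.cons (nat_lit 850) (nat_lit 235) (nat_lit 200) (nat_lit 1) .nil)), (nat_lit 45), (nat_lit 0), (nat_lit 0),
 (nat_lit 0), (12, 9, 21), [12, 502], 0⟩,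
  mz,
  ⟨⟨-39, 8, -17, 2, -45, -16, 12, 12, -49⟩, (.cons (nat_lit 218) (nat_lit 35) (nat_lit 176) (nat_lit 1) (.cons
 (nat_lit 713) (nat_lit 1363) (nat_lit 1153) (nat_lit 1) .nil)), (nat_lit 14), (nat_lit 0), (nat_lit 0),
 (nat_lit 0), (14, 27, 21), [221, 2684], 0⟩,
  ⟨⟨49, 12, -13, 2, -35, 34, 28, -20, -41⟩, (.cons (nat_lit 88) (nat_lit 32) (nat_lit 147) (nat_lit 1) (.cons
 (nat_lit 1156) (nat_lit 1496) (nat_lit 809) (nat_lit 1) .nil)), (nat_lit 1), (nat_lit 0), (nat_lit 0),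
 (nat_lit 0), (17, 17, 3), [9, 803], 0⟩,
  ⟨⟨-45, 16, 44, -22, -35, -14, -20, 28, -17⟩, (.cons (nat_lit 225) (nat_lit 155) (nat_lit 1) (nat_lit 342)
 (.cons (nat_lit 2321) (nat_lit 150) (nat_lit 1631) (nat_lit 1) .nil)), (nat_lit 45), (nat_lit 0), (nat_lit 0),
 (nat_lit 0), (34, 2, 36), [274, 1777], 0⟩]

/-- Moves. -/
noncomputable def t4_2 : List Mv := [
  mz,
  ⟨⟨45, 16, -1, 22, -35, -36, 20, 28, -37⟩, (.cons (nat_lit 160) (nat_lit 295) (nat_lit 306) (nat_lit 1) (.cons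
 (nat_lit 1786) (nat_lit 2312) (nat_lit 1761) (nat_lit 1) .nil)), (nat_lit 45), (nat_lit 0), (nat_lit 0),
 (nat_lit 0), (34, 2, 36), [82, 2684], 0⟩,
  ⟨⟨21, -32, -49, 2, 35, -36, -28, -20, -13⟩, (.cons (nat_lit 162) (nat_lit 177) (nat_lit 60) (nat_lit 1)
 (.cons (nat_lit 674) (nat_lit 1959) (nat_lit 2802) (nat_lit 1) .nil)), (nat_lit 5), (nat_lit 0), (nat_lit 0),
 (nat_lit 0), (33, 30, 3), [205, 780], 0⟩,
  ⟨⟨-51, 4, 19, 2, 45, 14, -12, 12, -37⟩, (.cons (nat_lit 336) (nat_lit 162) (nat_lit 94) (nat_lit 1) (.cons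
 (nat_lit 870) (nat_lit 2027) (nat_lit 1614) (nat_lit 1) .nil)), (nat_lit 44), (nat_lit 0), (nat_lit 0),
 (nat_lit 0), (7, 20, 21), [55, 2058], 0⟩,
  mz,
  ⟨⟨-45, -16, 44, -22, 35, -14, -20, -28, -17⟩, (.cons (nat_lit 344) (nat_lit 156) (nat_lit 289) (nat_lit 1)
 (.cons (nat_lit 1668) (nat_lit 1306) (nat_lit 489) (nat_lit 1) .nil)), (nat_lit 45), (nat_lit 0), (nat_lit 0),
 (nat_lit 0), (12, 9, 21), [45, 920], 0⟩,
  mz,
  mz,
  mz,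
  ⟨⟨27, 32, -47, -40, 17, 0, 10, -16, -47⟩, (.cons (nat_lit 270) (nat_lit 106) (nat_lit 101) (nat_lit 1) (.cons
 (nat_lit 2711) (nat_lit 2721) (nat_lit 1923) (nat_lit 1) .nil)), (nat_lit 38), (nat_lit 0), (nat_lit 0),
 (nat_lit 0), (43, 39, 2), [254, 548], 0⟩,
  mz,
  ⟨⟨17, 48, -17, 40, -17, -40, -10, 16, -37⟩, (.cons (nat_lit 96) (nat_lit 251) (nat_lit 177) (nat_lit 1)
 (.cons (nat_lit 467) (nat_lit 2328) (nat_lit 205) (nat_lit 1) .nil)), (nat_lit 9), (nat_lit 0), (nat_lit 0),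
 (nat_lit 0), (25, 45, 24), [135, 1871], 0⟩,
  ⟨⟨17, -36, -45, -20, 23, -30, 38, 8, -37⟩, (.cons (nat_lit 10) (nat_lit 228) (nat_lit 312) (nat_lit 1) (.cons
 (nat_lit 2305) (nat_lit 1306) (nat_lit 2293) (nat_lit 1) .nil)), (nat_lit 32), (nat_lit 0), (nat_lit 0),
 (nat_lit 0), (19, 44, 1), [299, 421], 0⟩,
  mz,
  ⟨⟨-51, -4, 19, -2, 45, -14, -12, -12, -37⟩, (.cons (nat_lit 89) (nat_lit 145) (nat_lit 243) (nat_lit 1)
 (.cons (nat_lit 75) (nat_lit 2535) (nat_lit 2103) (nat_lit 1) .nil)), (nat_lit 33), (nat_lit 0), (nat_lit 0),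
 (nat_lit 0), (25, 36, 28), [74, 1581], 0⟩,
  ⟨⟨9, 4, -61, 40, 23, -10, 22, -32, -29⟩, (.cons (nat_lit 101) (nat_lit 252) (nat_lit 181) (nat_lit 1) (.cons
 (nat_lit 2557) (nat_lit 2620) (nat_lit 290) (nat_lit 1) .nil)), (nat_lit 35), (nat_lit 0), (nat_lit 0),
 (nat_lit 0), (18, 33, 44), [269, 2418], 0⟩,
  ⟨⟨-13, 36, 45, -40, -23, 30, -22, 32, -7⟩, (.cons (nat_lit 258) (nat_lit 93) (nat_lit 15) (nat_lit 1) (.cons
 (nat_lit 2137) (nat_lit 2456) (nat_lit 1780) (nat_lit 1) .nil)), (nat_lit 12), (nat_lit 0), (nat_lit 0),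
 (nat_lit 0), (5, 19, 41), [11, 2531], 0⟩,
  mz,
  ⟨⟨19, 0, -63, 0, -47, 0, 42, 0, -23⟩, (.cons (nat_lit 106) (nat_lit 215) (nat_lit 47) (nat_lit 1) (.cons
 (nat_lit 1268) (nat_lit 845) (nat_lit 1757) (nat_lit 1) .nil)), (nat_lit 29), (nat_lit 0), (nat_lit 0),
 (nat_lit 0), (16, 0, 23), [292, 279], 0⟩,
  ⟨⟨-39, 32, 8, -20, -33, -20, 6, 24, -41⟩, (.cons (nat_lit 129) (nat_lit 10) (nat_lit 252) (nat_lit 1) (.cons
 (nat_lit 2528) (nat_lit 2551) (nat_lit 1190) (nat_lit 1) .nil)), (nat_lit 22), (nat_lit 0), (nat_lit 0),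
 (nat_lit 0), (25, 8, 7), [106, 1864], 0⟩,
  ⟨⟨17, -36, 28, -20, 23, 50, 38, 8, -1⟩, (.cons (nat_lit 304) (nat_lit 234) (nat_lit 191) (nat_lit 1) (.cons
 (nat_lit 1917) (nat_lit 1024) (nat_lit 881) (nat_lit 1) .nil)), (nat_lit 32), (nat_lit 0), (nat_lit 0),
 (nat_lit 0), (2, 17, 10), [111, 1511], 0⟩,
  ⟨⟨-49, -12, 36, -2, 35, 36, -28, 20, -13⟩, (.cons (nat_lit 173) (nat_lit 218) (nat_lit 101) (nat_lit 1)
 (.cons (nat_lit 767) (nat_lit 2672) (nat_lit 1570) (nat_lit 1) .nil)), (nat_lit 1), (nat_lit 0), (nat_lit 0),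
 (nat_lit 0), (24, 24, 7), [330, 1980], 0⟩,
  ⟨⟨45, 8, -49, -20, 33, -20, 6, -24, -41⟩, (.cons (nat_lit 63) (nat_lit 20) (nat_lit 55) (nat_lit 1) (.cons
 (nat_lit 236) (nat_lit 2083) (nat_lit 2241) (nat_lit 1) .nil)), (nat_lit 25), (nat_lit 0), (nat_lit 0),
 (nat_lit 0), (40, 24, 21), [4, 2149], 0⟩,
  mz,
  mz,
  ⟨⟨39, -32, -31, 20, 33, -40, -6, -24, -35⟩, (.cons (nat_lit 149) (nat_lit 269) (nat_lit 108) (nat_lit 1)
 (.cons (nat_lit 2321) (nat_lit 2455) (nat_lit 907) (nat_lit 1) .nil)), (nat_lit 22), (nat_lit 0), (nat_lit 0),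
 (nat_lit 0), (28, 24, 21), [359, 2555], 0⟩,
  ⟨⟨-21, 32, -28, -2, -35, -34, 28, 20, -41⟩, (.cons (nat_lit 168) (nat_lit 73) (nat_lit 332) (nat_lit 1)
 (.cons (nat_lit 768) (nat_lit 1206) (nat_lit 570) (nat_lit 1) .nil)), (nat_lit 5), (nat_lit 0), (nat_lit 0),
 (nat_lit 0), (30, 23, 7), [183, 43], 0⟩,
  ⟨⟨17, 36, -45, -20, -23, -30, 38, -8, -37⟩, (.cons (nat_lit 257) (nat_lit 354) (nat_lit 329) (nat_lit 1)
 (.cons (nat_lit 139) (nat_lit 1671) (nat_lit 1217) (nat_lit 1) .nil)), (nat_lit 32), (nat_lit 0), (nat_lit 0),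
 (nat_lit 0), (45, 30, 37), [254, 2389], 0⟩,
  ⟨⟨-45, -8, -4, 20, -33, -40, -6, 24, -35⟩, (.cons (nat_lit 262) (nat_lit 149) (nat_lit 148) (nat_lit 1)
 (.cons (nat_lit 196) (nat_lit 2694) (nat_lit 1165) (nat_lit 1) .nil)), (nat_lit 25), (nat_lit 0), (nat_lit 0),
 (nat_lit 0), (29, 8, 7), [334, 168], 0⟩,
  ⟨⟨19, 0, 44, 0, -47, 0, 42, 0, -19⟩, (.cons (nat_lit 360) (nat_lit 92) (nat_lit 155) (nat_lit 1) (.cons
 (nat_lit 2808) (nat_lit 1245) (nat_lit 1608) (nat_lit 1) .nil)), (nat_lit 29), (nat_lit 0), (nat_lit 0),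
 (nat_lit 0), (31, 0, 24), [110, 906], 0⟩,
  mz,
  ⟨⟨9, -4, -61, 40, -23, -10, 22, 32, -29⟩, (.cons (nat_lit 105) (nat_lit 23) (nat_lit 341) (nat_lit 1) (.cons
 (nat_lit 457) (nat_lit 2081) (nat_lit 2434) (nat_lit 1) .nil)), (nat_lit 35), (nat_lit 0), (nat_lit 0),
 (nat_lit 0), (36, 19, 41), [159, 481], 0⟩,
  ⟨⟨-9, 4, -52, 40, -23, -30, -22, -32, -7⟩, (.cons (nat_lit 189) (nat_lit 177) (nat_lit 1) (nat_lit 57) (.cons
 (nat_lit 1225) (nat_lit 1223) (nat_lit 2240) (nat_lit 1) .nil)), (nat_lit 20), (nat_lit 0), (nat_lit 0),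
 (nat_lit 0), (18, 14, 44), [193, 88], 0⟩,
  ⟨⟨51, -4, -32, 2, 45, -16, 12, -12, -49⟩, (.cons (nat_lit 360) (nat_lit 24) (nat_lit 294) (nat_lit 1) (.cons
 (nat_lit 2808) (nat_lit 655) (nat_lit 957) (nat_lit 1) .nil)), (nat_lit 33), (nat_lit 0), (nat_lit 0),
 (nat_lit 0), (25, 36, 28), [281, 500], 0⟩,
  mz,
  ⟨⟨17, 36, 28, 20, 23, -50, 38, -8, -1⟩, (.cons (nat_lit 138) (nat_lit 358) (nat_lit 262) (nat_lit 1) (.cons
 (nat_lit 215) (nat_lit 291) (nat_lit 2196) (nat_lit 1) .nil)), (nat_lit 16), (nat_lit 0), (nat_lit 0),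
 (nat_lit 0), (28, 44, 46), [253, 1995], 0⟩,
  ⟨⟨27, -32, -47, -40, -17, 0, 10, 16, -47⟩, (.cons (nat_lit 154) (nat_lit 56) (nat_lit 46) (nat_lit 1) (.cons
 (nat_lit 403) (nat_lit 903) (nat_lit 1726) (nat_lit 1) .nil)), (nat_lit 38), (nat_lit 0), (nat_lit 0),
 (nat_lit 0), (46, 45, 24), [242, 2023], 0⟩,
  mz,
  ⟨⟨-27, 32, -20, 40, 17, -40, -10, -16, -37⟩, (.cons (nat_lit 360) (nat_lit 5) (nat_lit 134) (nat_lit 1)
 (.cons (nat_lit 2808) (nat_lit 736) (nat_lit 2199) (nat_lit 1) .nil)), (nat_lit 38), (nat_lit 0), (nat_lit 0),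
 (nat_lit 0), (43, 39, 2), [231, 2674], 0⟩,
  mz,
  mz,
  mz,
  ⟨⟨45, -16, -1, 22, 35, -36, 20, -28, -37⟩, (.cons (nat_lit 195) (nat_lit 187) (nat_lit 342) (nat_lit 1)
 (.cons (nat_lit 850) (nat_lit 235) (nat_lit 200) (nat_lit 1) .nil)), (nat_lit 45), (nat_lit 0), (nat_lit 0),
 (nat_lit 0), (12, 9, 21), [12, 502], 0⟩,
  mz,
  ⟨⟨-39, 8, -17, -2, 45, 16, 12, 12, -49⟩, (.cons (nat_lit 231) (nat_lit 122) (nat_lit 307) (nat_lit 1) (.cons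
 (nat_lit 1101) (nat_lit 1428) (nat_lit 1083) (nat_lit 1) .nil)), (nat_lit 3), (nat_lit 0), (nat_lit 0),
 (nat_lit 0), (14, 20, 21), [286, 241], 0⟩,
  ⟨⟨49, 12, -13, -2, 35, -34, 28, -20, -41⟩, (.cons (nat_lit 137) (nat_lit 12) (nat_lit 76) (nat_lit 1) (.cons
 (nat_lit 1193) (nat_lit 545) (nat_lit 165) (nat_lit 1) .nil)), (nat_lit 42), (nat_lit 0), (nat_lit 0),
 (nat_lit 0), (17, 30, 3), [325, 1848], 0⟩,
  ⟨⟨-45, 16, 44, -22, -35, -14, -20, 28, -17⟩, (.cons (nat_lit 225) (nat_lit 155) (nat_lit 1) (nat_lit 342)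
 (.cons (nat_lit 2321) (nat_lit 150) (nat_lit 1631) (nat_lit 1) .nil)), (nat_lit 45), (nat_lit 0), (nat_lit 0),
 (nat_lit 0), (34, 2, 36), [274, 1777], 0⟩]

/-- Moves. -/
noncomputable def t4_8 : List Mv := [
  mz,
  ⟨⟨45, 16, -1, 22, -35, -36, 20, 28, -37⟩, (.cons (nat_lit 160) (nat_lit 295) (nat_lit 306) (nat_lit 1) (.cons
 (nat_lit 1786) (nat_lit 2312) (nat_lit 1761) (nat_lit 1) .nil)), (nat_lit 45), (nat_lit 0), (nat_lit 0),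
 (nat_lit 0), (34, 2, 36), [82, 2684], 0⟩,
  ⟨⟨21, -32, -49, 2, 35, -36, -28, -20, -13⟩, (.cons (nat_lit 162) (nat_lit 177) (nat_lit 60) (nat_lit 1)
 (.cons (nat_lit 674) (nat_lit 1959) (nat_lit 2802) (nat_lit 1) .nil)), (nat_lit 5), (nat_lit 0), (nat_lit 0),
 (nat_lit 0), (33, 30, 3), [205, 780], 0⟩,
  ⟨⟨-51, 4, 19, -2, -45, -14, -12, 12, -37⟩, (.cons (nat_lit 262) (nat_lit 173) (nat_lit 193) (nat_lit 1)
 (.cons (nat_lit 965) (nat_lit 2738) (nat_lit 2168) (nat_lit 1) .nil)), (nat_lit 33), (nat_lit 0), (nat_lit 0),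
 (nat_lit 0), (7, 27, 21), [337, 957], 0⟩,
  mz,
  ⟨⟨25, -12, -61, -22, 35, -14, -20, -28, -17⟩, (.cons (nat_lit 78) (nat_lit 273) (nat_lit 13) (nat_lit 1)
 (.cons (nat_lit 696) (nat_lit 1710) (nat_lit 2063) (nat_lit 1) .nil)), (nat_lit 2), (nat_lit 0), (nat_lit 0),
 (nat_lit 0), (9, 9, 21), [326, 272], 0⟩,
  mz,
  mz,
  mz,
  ⟨⟨27, 32, -47, 40, -17, 0, 10, -16, -47⟩, (.cons (nat_lit 267) (nat_lit 129) (nat_lit 32) (nat_lit 1) (.cons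
 (nat_lit 1203) (nat_lit 2798) (nat_lit 577) (nat_lit 1) .nil)), (nat_lit 11), (nat_lit 0), (nat_lit 0),
 (nat_lit 0), (43, 8, 2), [116, 916], 0⟩,
  mz,
  ⟨⟨17, 48, -17, 40, -17, -40, -10, 16, -37⟩, (.cons (nat_lit 96) (nat_lit 251) (nat_lit 177) (nat_lit 1)
 (.cons (nat_lit 467) (nat_lit 2328) (nat_lit 205) (nat_lit 1) .nil)), (nat_lit 9), (nat_lit 0), (nat_lit 0),
 (nat_lit 0), (25, 45, 24), [135, 1871], 0⟩,
  ⟨⟨17, -36, -45, 20, -23, 30, 38, 8, -37⟩, (.cons (nat_lit 7) (nat_lit 71) (nat_lit 256) (nat_lit 1) (.cons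
 (nat_lit 1509) (nat_lit 1776) (nat_lit 2193) (nat_lit 1) .nil)), (nat_lit 16), (nat_lit 0), (nat_lit 0),
 (nat_lit 0), (19, 3, 1), [178, 2104], 0⟩,
  mz,
  ⟨⟨-51, -4, 19, -2, 45, -14, -12, -12, -37⟩, (.cons (nat_lit 89) (nat_lit 145) (nat_lit 243) (nat_lit 1)
 (.cons (nat_lit 75) (nat_lit 2535) (nat_lit 2103) (nat_lit 1) .nil)), (nat_lit 33), (nat_lit 0), (nat_lit 0),
 (nat_lit 0), (25, 36, 28), [74, 1581], 0⟩,
  ⟨⟨9, 4, -61, 40, 23, -10, 22, -32, -29⟩, (.cons (nat_lit 101) (nat_lit 252) (nat_lit 181) (nat_lit 1) (.cons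
 (nat_lit 2557) (nat_lit 2620) (nat_lit 290) (nat_lit 1) .nil)), (nat_lit 35), (nat_lit 0), (nat_lit 0),
 (nat_lit 0), (18, 33, 44), [269, 2418], 0⟩,
  ⟨⟨-9, -4, -52, -40, -23, 30, -22, 32, -7⟩, (.cons (nat_lit 327) (nat_lit 259) (nat_lit 244) (nat_lit 1)
 (.cons (nat_lit 601) (nat_lit 2076) (nat_lit 434) (nat_lit 1) .nil)), (nat_lit 35), (nat_lit 0), (nat_lit 0),
 (nat_lit 0), (36, 19, 41), [303, 2393], 0⟩,
  mz,
  ⟨⟨23, 0, 40, 0, -47, 0, 42, 0, -23⟩, (.cons (nat_lit 360) (nat_lit 352) (nat_lit 31) (nat_lit 1) (.cons (nat_lit 2808) (nat_lit 738) (nat_lit 415) (nat_lit 1) .nil)), (nat_lit 18), (nat_lit 0), (nat_lit 0), (nat_lit 0), (7, 0, 23), [70, 1388], 0⟩,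
  ⟨⟨-39, 32, 8, -20, -33, -20, 6, 24, -41⟩, (.cons (nat_lit 129) (nat_lit 10) (nat_lit 252) (nat_lit 1) (.cons
 (nat_lit 2528) (nat_lit 2551) (nat_lit 1190) (nat_lit 1) .nil)), (nat_lit 22), (nat_lit 0), (nat_lit 0),
 (nat_lit 0), (25, 8, 7), [106, 1864], 0⟩,
  ⟨⟨17, -36, 28, 20, -23, -50, 38, 8, -1⟩, (.cons (nat_lit 289) (nat_lit 252) (nat_lit 326) (nat_lit 1) (.cons
 (nat_lit 1530) (nat_lit 2585) (nat_lit 1735) (nat_lit 1) .nil)), (nat_lit 16), (nat_lit 0), (nat_lit 0),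
 (nat_lit 0), (2, 30, 10), [338, 838], 0⟩,
  ⟨⟨21, 32, -49, 2, -35, -36, -28, 20, -13⟩, (.cons (nat_lit 255) (nat_lit 14) (nat_lit 224) (nat_lit 1) (.cons
 (nat_lit 885) (nat_lit 2142) (nat_lit 2350) (nat_lit 1) .nil)), (nat_lit 5), (nat_lit 0), (nat_lit 0),
 (nat_lit 0), (30, 23, 7), [329, 776], 0⟩,
  ⟨⟨45, 8, -49, 20, -33, 20, 6, -24, -41⟩, (.cons (nat_lit 14) (nat_lit 36) (nat_lit 320) (nat_lit 1) (.cons
 (nat_lit 79) (nat_lit 2221) (nat_lit 773) (nat_lit 1) .nil)), (nat_lit 28), (nat_lit 0), (nat_lit 0), (nat_lit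
 0), (40, 23, 21), [357, 1087], 0⟩,
  mz,
  mz,
  ⟨⟨-45, 8, -4, 20, 33, -40, -6, -24, -35⟩, (.cons (nat_lit 360) (nat_lit 94) (nat_lit 250) (nat_lit 1) (.cons
 (nat_lit 2808) (nat_lit 525) (nat_lit 1775) (nat_lit 1) .nil)), (nat_lit 25), (nat_lit 0), (nat_lit 0),
 (nat_lit 0), (40, 24, 21), [113, 2565], 0⟩,
  ⟨⟨-21, 32, -28, -2, -35, -34, 28, 20, -41⟩, (.cons (nat_lit 168) (nat_lit 73) (nat_lit 332) (nat_lit 1)
 (.cons (nat_lit 768) (nat_lit 1206) (nat_lit 570) (nat_lit 1) .nil)), (nat_lit 5), (nat_lit 0), (nat_lit 0),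
 (nat_lit 0), (30, 23, 7), [183, 43], 0⟩,
  ⟨⟨17, 36, -45, 20, 23, 30, 38, -8, -37⟩, (.cons (nat_lit 329) (nat_lit 298) (nat_lit 359) (nat_lit 1) (.cons
 (nat_lit 278) (nat_lit 2528) (nat_lit 2518) (nat_lit 1) .nil)), (nat_lit 16), (nat_lit 0), (nat_lit 0),
 (nat_lit 0), (45, 17, 37), [155, 1305], 0⟩,
  ⟨⟨-45, -8, -4, 20, -33, -40, -6, 24, -35⟩, (.cons (nat_lit 262) (nat_lit 149) (nat_lit 148) (nat_lit 1)
 (.cons (nat_lit 196) (nat_lit 2694) (nat_lit 1165) (nat_lit 1) .nil)), (nat_lit 25), (nat_lit 0), (nat_lit 0),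
 (nat_lit 0), (29, 8, 7), [334, 168], 0⟩,
  ⟨⟨19, 0, 44, 0, -47, 0, 42, 0, -19⟩, (.cons (nat_lit 360) (nat_lit 92) (nat_lit 155) (nat_lit 1) (.cons
 (nat_lit 2808) (nat_lit 1245) (nat_lit 1608) (nat_lit 1) .nil)), (nat_lit 29), (nat_lit 0), (nat_lit 0),
 (nat_lit 0), (31, 0, 24), [110, 906], 0⟩,
  mz,
  ⟨⟨9, -4, -61, 40, -23, -10, 22, 32, -29⟩, (.cons (nat_lit 105) (nat_lit 23) (nat_lit 341) (nat_lit 1) (.cons
 (nat_lit 457) (nat_lit 2081) (nat_lit 2434) (nat_lit 1) .nil)), (nat_lit 35), (nat_lit 0), (nat_lit 0),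
 (nat_lit 0), (36, 19, 41), [159, 481], 0⟩,
  ⟨⟨-13, -36, 45, 40, -23, -30, -22, -32, -7⟩, (.cons (nat_lit 59) (nat_lit 52) (nat_lit 83) (nat_lit 1) (.cons
 (nat_lit 2324) (nat_lit 1443) (nat_lit 355) (nat_lit 1) .nil)), (nat_lit 27), (nat_lit 0), (nat_lit 0),
 (nat_lit 0), (26, 14, 44), [85, 839], 0⟩,
  ⟨⟨51, -4, -32, 2, 45, -16, 12, -12, -49⟩, (.cons (nat_lit 360) (nat_lit 24) (nat_lit 294) (nat_lit 1) (.cons
 (nat_lit 2808) (nat_lit 655) (nat_lit 957) (nat_lit 1) .nil)), (nat_lit 33), (nat_lit 0), (nat_lit 0),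
 (nat_lit 0), (25, 36, 28), [281, 500], 0⟩,
  mz,
  ⟨⟨17, 36, 28, 20, 23, -50, 38, -8, -1⟩, (.cons (nat_lit 138) (nat_lit 358) (nat_lit 262) (nat_lit 1) (.cons
 (nat_lit 215) (nat_lit 291) (nat_lit 2196) (nat_lit 1) .nil)), (nat_lit 16), (nat_lit 0), (nat_lit 0),
 (nat_lit 0), (28, 44, 46), [253, 1995], 0⟩,
  ⟨⟨27, -32, -47, -40, -17, 0, 10, 16, -47⟩, (.cons (nat_lit 154) (nat_lit 56) (nat_lit 46) (nat_lit 1) (.cons
 (nat_lit 403) (nat_lit 903) (nat_lit 1726) (nat_lit 1) .nil)), (nat_lit 38), (nat_lit 0), (nat_lit 0),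
 (nat_lit 0), (46, 45, 24), [242, 2023], 0⟩,
  mz,
  ⟨⟨17, -48, -17, -40, -17, 40, -10, -16, -37⟩, (.cons (nat_lit 143) (nat_lit 295) (nat_lit 281) (nat_lit 1)
 (.cons (nat_lit 1171) (nat_lit 1580) (nat_lit 1334) (nat_lit 1) .nil)), (nat_lit 36), (nat_lit 0), (nat_lit
 0), (nat_lit 0), (6, 8, 2), [70, 1020], 0⟩,
  mz,
  mz,
  mz,
  ⟨⟨45, -16, -1, 22, 35, -36, 20, -28, -37⟩, (.cons (nat_lit 195) (nat_lit 187) (nat_lit 342) (nat_lit 1)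
 (.cons (nat_lit 850) (nat_lit 235) (nat_lit 200) (nat_lit 1) .nil)), (nat_lit 45), (nat_lit 0), (nat_lit 0),
 (nat_lit 0), (12, 9, 21), [12, 502], 0⟩,
  mz,
  ⟨⟨51, 4, -32, 2, -45, -16, 12, 12, -49⟩, (.cons (nat_lit 52) (nat_lit 239) (nat_lit 188) (nat_lit 1) (.cons
 (nat_lit 759) (nat_lit 351) (nat_lit 1594) (nat_lit 1) .nil)), (nat_lit 33), (nat_lit 0), (nat_lit 0),
 (nat_lit 0), (7, 27, 21), [324, 796], 0⟩,
  ⟨⟨-21, -32, -28, 2, -35, 34, 28, -20, -41⟩, (.cons (nat_lit 247) (nat_lit 248) (nat_lit 146) (nat_lit 1)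
 (.cons (nat_lit 236) (nat_lit 1117) (nat_lit 2726) (nat_lit 1) .nil)), (nat_lit 46), (nat_lit 0), (nat_lit 0),
 (nat_lit 0), (33, 17, 3), [326, 2295], 0⟩,
  ⟨⟨-45, 16, 44, -22, -35, -14, -20, 28, -17⟩, (.cons (nat_lit 225) (nat_lit 155) (nat_lit 1) (nat_lit 342)
 (.cons (nat_lit 2321) (nat_lit 150) (nat_lit 1631) (nat_lit 1) .nil)), (nat_lit 45), (nat_lit 0), (nat_lit 0),
 (nat_lit 0), (34, 2, 36), [274, 1777], 0⟩]

/-- All the moves. -/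
noncomputable def tabs : List (List (List Mv)) := [[[], t0_1, t0_2, [], [], [], [], [], t0_8], [[], t1_1, t1_2, [], [], [], [], [], t1_8], [], [], [[], t4_1, t4_2, [], [], [], [], [], t4_8]]

/-- Subtrie. -/
noncomputable def T1 : Tr := (.ev (nat_lit 20) (nat_lit 70371666563084) (.nd (nat_lit 33) (.br (nat_lit 31)
 (.br (nat_lit 16) (.br (nat_lit 10) (.br (nat_lit 6) (.br (nat_lit 5) (.ch (nat_lit 4) (.ev (nat_lit 52)
 (nat_lit 21994531719168) (.ev (nat_lit 148) (nat_lit 32768) (.ev (nat_lit 308) (nat_lit 68719476736) (.ev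
 (nat_lit 340) (nat_lit 524288) (.ev (nat_lit 436) (nat_lit 2) (.ev (nat_lit 468) (nat_lit 35192962023424) (.ev
 (nat_lit 564) (nat_lit 268435456) (.ev (nat_lit 756) (nat_lit 274877906944) (.ev (nat_lit 820) (nat_lit 65536)
 (.ev (nat_lit 1108) (nat_lit 32) (.ev (nat_lit 1140) (nat_lit 262144) (.ev (nat_lit 1636) (nat_lit 16384) (.ev
 (nat_lit 2086) (nat_lit 34359738368) (.ev (nat_lit 2093) (nat_lit 512) .dd))))))))))))))) (.ch (nat_lit 5)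
 (.ev (nat_lit 52) (nat_lit 35502200274978) (.ev (nat_lit 340) (nat_lit 68719476736) (.ev (nat_lit 480)
 (nat_lit 21994800450048) .dd))))) (.br (nat_lit 9) (.ch (nat_lit 6) (.ev (nat_lit 52) (nat_lit 39625372813312)
 (.ev (nat_lit 116) (nat_lit 524288) (.ev (nat_lit 308) (nat_lit 32768) (.ev (nat_lit 500) (nat_lit
 68719476736) (.ev (nat_lit 532) (nat_lit 268435456) (.ev (nat_lit 596) (nat_lit 512) (.ev (nat_lit 628)
 (nat_lit 2) (.ev (nat_lit 692) (nat_lit 17592186044416) (.ev (nat_lit 1920) (nat_lit 279172874240) (.ev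
 (nat_lit 1933) (nat_lit 32) .dd))))))))))) (.ch (nat_lit 9) (.ev (nat_lit 52) (nat_lit 35562329229856) (.ev
 (nat_lit 180) (nat_lit 4194304) (.ev (nat_lit 372) (nat_lit 268435456) (.ev (nat_lit 532) (nat_lit 8589934592)
 (.ev (nat_lit 916) (nat_lit 4398046511104) (.ev (nat_lit 1236) (nat_lit 65536) (.ev (nat_lit 1316) (nat_lit
 262144) (.ev (nat_lit 1396) (nat_lit 4294967296) (.ev (nat_lit 2196) (nat_lit 32768) (.ev (nat_lit 2500)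
 (nat_lit 2) (.ev (nat_lit 2532) (nat_lit 524288) (.ev (nat_lit 2541) (nat_lit 17592186044416)
 .dd))))))))))))))) (.br (nat_lit 12) (.br (nat_lit 11) (.ch (nat_lit 10) (.ev (nat_lit 52) (nat_lit
 22003386450432) (.ev (nat_lit 116) (nat_lit 16384) (.ev (nat_lit 276) (nat_lit 2048) (.ev (nat_lit 404)
 (nat_lit 65536) (.ev (nat_lit 564) (nat_lit 262144) (.ev (nat_lit 980) (nat_lit 68719476736) (.ev (nat_lit
 2164) (nat_lit 274877906944) (.ev (nat_lit 2176) (nat_lit 34363932706) (.ev (nat_lit 2189) (nat_lit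
 35184372088832) .dd)))))))))) (.ch (nat_lit 11) (.ev (nat_lit 52) (nat_lit 39857565467170) (.ev (nat_lit 180)
 (nat_lit 2048) (.ev (nat_lit 276) (nat_lit 34359738368) (.ev (nat_lit 340) (nat_lit 17592186044416) (.ev
 (nat_lit 436) (nat_lit 4294967296) (.ev (nat_lit 468) (nat_lit 65536) (.ev (nat_lit 788) (nat_lit 32768) (.ev
 (nat_lit 1428) (nat_lit 8589934592) (.ev (nat_lit 2260) (nat_lit 4194304) (.ev (nat_lit 2644) (nat_lit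
 68719476736) (.ev (nat_lit 2708) (nat_lit 262144) (.ev (nat_lit 2717) (nat_lit 16384) .dd)))))))))))))) (.br
 (nat_lit 15) (.ch (nat_lit 12) (.ev (nat_lit 52) (nat_lit 17695265292322) (.ev (nat_lit 340) (nat_lit 16384)
 (.ev (nat_lit 564) (nat_lit 35184372088832) (.ev (nat_lit 724) (nat_lit 4194304) (.ev (nat_lit 852) (nat_lit
 268435456) (.ev (nat_lit 948) (nat_lit 4672924418048) (.ev (nat_lit 980) (nat_lit 512) (.ev (nat_lit 1712)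
 (nat_lit 589824) (.ev (nat_lit 2624) (nat_lit 12885166080) .dd)))))))))) (.ch (nat_lit 15) (.ev (nat_lit 52)
 (nat_lit 39591276986880) (.ev (nat_lit 244) (nat_lit 68719476736) (.ev (nat_lit 500) (nat_lit 34359738368)
 (.ev (nat_lit 596) (nat_lit 32768) (.ev (nat_lit 1012) (nat_lit 262144) (.ev (nat_lit 1076) (nat_lit
 274877906944) (.ev (nat_lit 1680) (nat_lit 4299161632) (.ev (nat_lit 1908) (nat_lit 2) (.ev (nat_lit 2260)
 (nat_lit 17592186044416) (.ev (nat_lit 2512) (nat_lit 67584) (.ev (nat_lit 2525) (nat_lit 524288)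
 .dd))))))))))))))) (.br (nat_lit 22) (.br (nat_lit 18) (.br (nat_lit 17) (.ch (nat_lit 16) (.ev (nat_lit 52)
 (nat_lit 272664608) (.ev (nat_lit 64) (nat_lit 57565447537154) .dd))) (.ch (nat_lit 17) (.ev (nat_lit 52)
 (nat_lit 35197530210818) (.ev (nat_lit 84) (nat_lit 32768) (.ev (nat_lit 180) (nat_lit 17592186044416) (.ev
 (nat_lit 244) (nat_lit 34359738368) (.ev (nat_lit 820) (nat_lit 262144) (.ev (nat_lit 2452) (nat_lit
 4398046511104) (.ev (nat_lit 2500) (nat_lit 32) (.ev (nat_lit 2548) (nat_lit 16384) (.ev (nat_lit 2660)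
 (nat_lit 274877906944) (.ev (nat_lit 2806) (nat_lit 68719478784) .dd)))))))))))) (.br (nat_lit 21) (.ch
 (nat_lit 18) (.ev (nat_lit 52) (nat_lit 39934605986306) (.ev (nat_lit 180) (nat_lit 32768) (.ev (nat_lit 596)
 (nat_lit 34359738368) (.ev (nat_lit 2068) (nat_lit 268435456) (.ev (nat_lit 2164) (nat_lit 32) (.ev (nat_lit
 2196) (nat_lit 524288) (.ev (nat_lit 2388) (nat_lit 262144) (.ev (nat_lit 2532) (nat_lit 4194304) (.ev
 (nat_lit 2580) (nat_lit 4294967296) (.nd (nat_lit 2896) (.ch (nat_lit 2) (.fin (nat_lit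
 576461302061810239)))))))))))))) (.ch (nat_lit 21) (.ev (nat_lit 52) (nat_lit 343597419040) (.ev (nat_lit 308)
 (nat_lit 34359738368) (.ev (nat_lit 372) (nat_lit 262144) (.ev (nat_lit 660) (nat_lit 268435456) (.ev (nat_lit
 1012) (nat_lit 8589934592) (.ev (nat_lit 1572) (nat_lit 4294967296) (.ev (nat_lit 2228) (nat_lit
 35184372088832) (.ev (nat_lit 2260) (nat_lit 524288) (.ev (nat_lit 2468) (nat_lit 2) (.ev (nat_lit 2644)
 (nat_lit 4194304) (.ev (nat_lit 2676) (nat_lit 4398046511104) (.ev (nat_lit 2740) (nat_lit 65536) (.nd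
 (nat_lit 2896) (.ch (nat_lit 2) (.fin (nat_lit 576461302061810239))))))))))))))))))) (.br (nat_lit 26) (.br
 (nat_lit 24) (.ch (nat_lit 22) (.ev (nat_lit 52) (nat_lit 21994528426530) (.ev (nat_lit 148) (nat_lit
 34359738368) (.ev (nat_lit 596) (nat_lit 4194304) (.ev (nat_lit 1140) (nat_lit 35184372088832) (.ev (nat_lit
 1456) (nat_lit 352455753728) .dd)))))) (.ch (nat_lit 24) (.ev (nat_lit 52) (nat_lit 111669969410) (.ev
 (nat_lit 212) (nat_lit 4294967296) (.ev (nat_lit 320) (nat_lit 57449755265056) .dd))))) (.br (nat_lit 28) (.ch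
 (nat_lit 26) (.ev (nat_lit 52) (nat_lit 17669499732002) (.ev (nat_lit 224) (nat_lit 39896220469760) .dd)))
 (.br (nat_lit 29) (.ch (nat_lit 28) (.ev (nat_lit 52) (nat_lit 356750755842) (.ev (nat_lit 276) (nat_lit
 17592186044416) (.ev (nat_lit 628) (nat_lit 4398046511104) (.ev (nat_lit 788) (nat_lit 512) (.ev (nat_lit
 1796) (nat_lit 32) (.ev (nat_lit 1872) (nat_lit 35184376545280) (.ev (nat_lit 2240) (nat_lit 34360328192) (.ev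
 (nat_lit 2253) (nat_lit 16384) .dd))))))))) (.ch (nat_lit 29) (.ev (nat_lit 52) (nat_lit 35506494703648) (.ev
 (nat_lit 500) (nat_lit 16384) (.ev (nat_lit 756) (nat_lit 4398046511104) (.ev (nat_lit 788) (nat_lit
 17592186044416) (.ev (nat_lit 2100) (nat_lit 512) (.ev (nat_lit 2228) (nat_lit 262144) (.ev (nat_lit 2260)
 (nat_lit 32768) (.ev (nat_lit 2308) (nat_lit 2) (.ev (nat_lit 2356) (nat_lit 268435456) (.ev (nat_lit 2772)
 (nat_lit 68719476736) (.nd (nat_lit 2896) (.ch (nat_lit 11) (.fin (nat_lit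
 576462401572389439)))))))))))))))))))) (.br (nat_lit 42) (.br (nat_lit 38) (.br (nat_lit 36) (.br (nat_lit 33)
 (.ch (nat_lit 31) (.ev (nat_lit 52) (nat_lit 4754801786914) (.ev (nat_lit 276) (nat_lit 524288) (.ev (nat_lit
 596) (nat_lit 16384) (.ev (nat_lit 724) (nat_lit 34359738368) (.ev (nat_lit 820) (nat_lit 35184372088832) (.ev
 (nat_lit 2612) (nat_lit 17592186044416) (.ev (nat_lit 2752) (nat_lit 2560) .dd)))))))) (.ch (nat_lit 33) (.ev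
 (nat_lit 52) (nat_lit 39934878826496) (.ev (nat_lit 84) (nat_lit 2048) (.ev (nat_lit 576) (nat_lit
 17630841373218) .dd))))) (.br (nat_lit 37) (.ch (nat_lit 36) (.ev (nat_lit 52) (nat_lit 107379280384) (.ev
 (nat_lit 84) (nat_lit 17592186044416) (.ev (nat_lit 660) (nat_lit 8589934592) (.ev (nat_lit 756) (nat_lit 32)
 (.ev (nat_lit 1044) (nat_lit 2) (.ev (nat_lit 1488) (nat_lit 39857564942336) .dd))))))) (.ch (nat_lit 37) (.ev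
 (nat_lit 52) (nat_lit 22265378998784) (.ev (nat_lit 160) (nat_lit 35300341202978) .dd))))) (.br (nat_lit 40)
 (.br (nat_lit 39) (.ch (nat_lit 38) (.ev (nat_lit 52) (nat_lit 35192962566688) (.ev (nat_lit 128) (nat_lit
 22372757635074) .dd))) (.ch (nat_lit 39) (.ev (nat_lit 52) (nat_lit 17905987928098) (.ev (nat_lit 84) (nat_lit
 4194304) (.ev (nat_lit 960) (nat_lit 39659728079360) .dd))))) (.br (nat_lit 41) (.ch (nat_lit 40) (.ev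
 (nat_lit 52) (nat_lit 35566629224992) (.ev (nat_lit 148) (nat_lit 16384) (.ev (nat_lit 308) (nat_lit 2048)
 (.ev (nat_lit 724) (nat_lit 32768) (.ev (nat_lit 1172) (nat_lit 4398046511104) (.ev (nat_lit 1364) (nat_lit
 8589934592) (.ev (nat_lit 1616) (nat_lit 17592454479872) (.ev (nat_lit 1629) (nat_lit 2) .dd))))))))) (.ch
 (nat_lit 41) (.ev (nat_lit 52) (nat_lit 22097611522048) (.ev (nat_lit 84) (nat_lit 512) (.ev (nat_lit 148)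
 (nat_lit 2048) (.ev (nat_lit 372) (nat_lit 35184372088832) (.ev (nat_lit 672) (nat_lit 283736588322)
 .dd))))))))) (.br (nat_lit 47) (.br (nat_lit 44) (.br (nat_lit 43) (.ch (nat_lit 42) (.ev (nat_lit 52)
 (nat_lit 22338124909058) (.ev (nat_lit 84) (nat_lit 16384) (.ev (nat_lit 244) (nat_lit 4194304) (.ev (nat_lit
 404) (nat_lit 262144) (.ev (nat_lit 704) (nat_lit 35227590819872) .dd)))))) (.ch (nat_lit 43) (.ev (nat_lit
 52) (nat_lit 4466770200578) (.ev (nat_lit 180) (nat_lit 524288) (.ev (nat_lit 500) (nat_lit 512) (.ev (nat_lit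
 532) (nat_lit 262144) (.ev (nat_lit 948) (nat_lit 4294967296) (.ev (nat_lit 1012) (nat_lit 35184372088832)
 (.ev (nat_lit 1044) (nat_lit 32) (.ev (nat_lit 1396) (nat_lit 274877906944) (.ev (nat_lit 1728) (nat_lit
 17592454479872) (.ev (nat_lit 2404) (nat_lit 8589934592) (.ev (nat_lit 2708) (nat_lit 65536) (.ev (nat_lit
 2822) (nat_lit 34359771136) .dd)))))))))))))) (.br (nat_lit 46) (.ch (nat_lit 44) (.ev (nat_lit 52) (nat_lit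
 35261685958690) (.ev (nat_lit 148) (nat_lit 524288) (.ev (nat_lit 212) (nat_lit 274877906944) (.ev (nat_lit
 308) (nat_lit 17592186044416) (.ev (nat_lit 768) (nat_lit 4436969767424) .dd)))))) (.ch (nat_lit 46) (.ev
 (nat_lit 52) (nat_lit 22058956538368) (.ev (nat_lit 212) (nat_lit 2) (.ev (nat_lit 500) (nat_lit 524288) (.ev
 (nat_lit 628) (nat_lit 32) (.ev (nat_lit 692) (nat_lit 34359738368) (.ev (nat_lit 916) (nat_lit 274877906944)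
 (.ev (nat_lit 1044) (nat_lit 4294967296) (.ev (nat_lit 1140) (nat_lit 268435456) (.ev (nat_lit 1476) (nat_lit
 2048) (.ev (nat_lit 1952) (nat_lit 35192962023424) (.ev (nat_lit 1965) (nat_lit 65536) .dd)))))))))))))) (.br
 (nat_lit 49) (.br (nat_lit 48) (.ch (nat_lit 47) (.ev (nat_lit 52) (nat_lit 22265379684896) (.ev (nat_lit 288)
 (nat_lit 35300340516866) .dd))) (.ch (nat_lit 48) (.ev (nat_lit 52) (nat_lit 309506654208) (.ev (nat_lit 96)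
 (nat_lit 57256213547554) .dd)))) (.br (nat_lit 50) (.ch (nat_lit 49) (.ev (nat_lit 52) (nat_lit
 52810918660610) (.ev (nat_lit 256) (nat_lit 4754801541152) .dd))) (.br (nat_lit 52) (.ch (nat_lit 50) (.ev
 (nat_lit 52) (nat_lit 53154787885056) (.ev (nat_lit 116) (nat_lit 512) (.ev (nat_lit 244) (nat_lit 32768) (.ev
 (nat_lit 308) (nat_lit 524288) (.ev (nat_lit 564) (nat_lit 65536) (.ev (nat_lit 980) (nat_lit 2048) (.ev
 (nat_lit 1076) (nat_lit 4294967296) (.ev (nat_lit 1172) (nat_lit 32) (.ev (nat_lit 1540) (nat_lit 8589934592)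
 (.ev (nat_lit 1572) (nat_lit 2) (.ev (nat_lit 2036) (nat_lit 262144) (.ev (nat_lit 2596) (nat_lit
 4398046511104) (.ev (nat_lit 2605) (nat_lit 16384) .dd)))))))))))))) (.ch (nat_lit 52) (.ev (nat_lit 52)
 (nat_lit 53055999526912) (.ev (nat_lit 404) (nat_lit 8589934592) (.ev (nat_lit 788) (nat_lit 34359738368) (.ev
 (nat_lit 916) (nat_lit 32) (.ev (nat_lit 2100) (nat_lit 32768) (.ev (nat_lit 2308) (nat_lit 4398046511104)
 (.ev (nat_lit 2356) (nat_lit 262144) (.ev (nat_lit 2532) (nat_lit 68719476736) (.ev (nat_lit 2580) (nat_lit 2)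
 (.ev (nat_lit 2772) (nat_lit 512) (.nd (nat_lit 2896) (.ch (nat_lit 11) (.fin (nat_lit
 576462401572389439)))))))))))))))))))))))

/-- Subtrie. -/
noncomputable def T2 : Tr := (.ev (nat_lit 20) (nat_lit 4443480054306) (.nd (nat_lit 33) (.br (nat_lit 31) (.br
 (nat_lit 16) (.br (nat_lit 10) (.br (nat_lit 6) (.br (nat_lit 5) (.ch (nat_lit 4) (.ev (nat_lit 52) (nat_lit
 87965232529416) (.ev (nat_lit 340) (nat_lit 35184372088832) (.ev (nat_lit 436) (nat_lit 33554432) (.ev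
 (nat_lit 2132) (nat_lit 65536) (.ev (nat_lit 2144) (nat_lit 69390565380) (.ev (nat_lit 2157) (nat_lit
 274877906944) .dd))))))) (.ch (nat_lit 5) (.ev (nat_lit 52) (nat_lit 35459384279044) (.ev (nat_lit 468)
 (nat_lit 70437463654400) (.ev (nat_lit 1044) (nat_lit 8) (.ev (nat_lit 1204) (nat_lit 33554432) (.ev (nat_lit
 1744) (nat_lit 4831838208) (.ev (nat_lit 1908) (nat_lit 17592190238720) (.ev (nat_lit 2452) (nat_lit 1048576)
 (.ev (nat_lit 2461) (nat_lit 2097152) .dd)))))))))) (.br (nat_lit 9) (.ch (nat_lit 6) (.ev (nat_lit 52)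
 (nat_lit 105553155129352) (.ev (nat_lit 1844) (nat_lit 4294967296) (.ev (nat_lit 1940) (nat_lit 274877906944)
 (.ev (nat_lit 2196) (nat_lit 4) (.ev (nat_lit 2228) (nat_lit 68719476736) (.ev (nat_lit 2500) (nat_lit
 17592186044416) (.ev (nat_lit 2560) (nat_lit 673185792) .dd)))))))) (.ch (nat_lit 9) (.ev (nat_lit 52)
 (nat_lit 105896713650180) (.ev (nat_lit 148) (nat_lit 2097152) (.ev (nat_lit 180) (nat_lit 134217728) (.ev
 (nat_lit 916) (nat_lit 33554432) (.ev (nat_lit 1076) (nat_lit 536870912) (.ev (nat_lit 1172) (nat_lit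
 4294967296) (.ev (nat_lit 1204) (nat_lit 8) (.ev (nat_lit 1396) (nat_lit 4194304) (.ev (nat_lit 1584) (nat_lit
 17592187158528) .dd)))))))))))) (.br (nat_lit 12) (.br (nat_lit 11) (.ch (nat_lit 10) (.ev (nat_lit 52)
 (nat_lit 87965898375176) (.ev (nat_lit 736) (nat_lit 35528008335364) .dd))) (.ch (nat_lit 11) (.ev (nat_lit
 52) (nat_lit 35459788963848) (.ev (nat_lit 308) (nat_lit 134217728) (.ev (nat_lit 852) (nat_lit 65536) (.ev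
 (nat_lit 884) (nat_lit 33554432) (.ev (nat_lit 948) (nat_lit 17592186044416) (.ev (nat_lit 1044) (nat_lit
 4194304) (.ev (nat_lit 1076) (nat_lit 1048576) (.ev (nat_lit 1540) (nat_lit 70368744177664) (.ev (nat_lit
 1604) (nat_lit 4294967296) (.ev (nat_lit 1776) (nat_lit 68719476736) (.ev (nat_lit 1789) (nat_lit 4)
 .dd))))))))))))) (.br (nat_lit 15) (.ch (nat_lit 12) (.ev (nat_lit 52) (nat_lit 17661075390472) (.ev (nat_lit
 212) (nat_lit 1048576) (.ev (nat_lit 564) (nat_lit 70368744177664) (.ev (nat_lit 896) (nat_lit 35464086093828)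
 .dd))))) (.ch (nat_lit 15) (.ev (nat_lit 52) (nat_lit 105553117315076) (.ev (nat_lit 192) (nat_lit
 17940789395464) .dd)))))) (.br (nat_lit 22) (.br (nat_lit 18) (.br (nat_lit 17) (.ch (nat_lit 16) (.ev
 (nat_lit 52) (nat_lit 40894472) (.ev (nat_lit 436) (nat_lit 17592186044416) (.ev (nat_lit 692) (nat_lit
 274877906944) (.ev (nat_lit 852) (nat_lit 70368744177664) (.ev (nat_lit 1364) (nat_lit 65536) (.ev (nat_lit
 1940) (nat_lit 134217732) (.ev (nat_lit 2452) (nat_lit 4294967296) (.ev (nat_lit 2548) (nat_lit 68719476736)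
 (.ev (nat_lit 2660) (nat_lit 536870912) (.ev (nat_lit 2669) (nat_lit 35184372088832) .dd))))))))))) (.ch
 (nat_lit 17) (.ev (nat_lit 52) (nat_lit 35188672364544) (.ev (nat_lit 116) (nat_lit 134217728) (.ev (nat_lit
 276) (nat_lit 274877906944) (.ev (nat_lit 404) (nat_lit 70368744177664) (.ev (nat_lit 628) (nat_lit 33554432)
 (.ev (nat_lit 1172) (nat_lit 17592186044416) (.ev (nat_lit 1364) (nat_lit 68719476736) (.ev (nat_lit 2164)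
 (nat_lit 536870912) (.ev (nat_lit 2480) (nat_lit 2097164) .dd))))))))))) (.br (nat_lit 21) (.ch (nat_lit 18)
 (.ev (nat_lit 52) (nat_lit 35527969538052) (.ev (nat_lit 416) (nat_lit 87965937172488) .dd))) (.ch (nat_lit
 21) (.ev (nat_lit 52) (nat_lit 70712344707080) (.ev (nat_lit 148) (nat_lit 134217728) (.ev (nat_lit 276)
 (nat_lit 4) (.ev (nat_lit 500) (nat_lit 35184372088832) (.ev (nat_lit 756) (nat_lit 33554432) (.ev (nat_lit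
 1184) (nat_lit 17597022142464) .dd))))))))) (.br (nat_lit 26) (.br (nat_lit 24) (.ch (nat_lit 22) (.ev
 (nat_lit 52) (nat_lit 87965795680256) (.ev (nat_lit 340) (nat_lit 274877906944) (.ev (nat_lit 596) (nat_lit
 134217732) (.ev (nat_lit 852) (nat_lit 68719476736) (.ev (nat_lit 1204) (nat_lit 1048576) (.ev (nat_lit 1268)
 (nat_lit 8) (.ev (nat_lit 2288) (nat_lit 35184378380288) .dd)))))))) (.ch (nat_lit 24) (.ev (nat_lit 52)
 (nat_lit 68855791628) (.ev (nat_lit 212) (nat_lit 17592190238720) (.ev (nat_lit 372) (nat_lit 70368744177664)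
 (.ev (nat_lit 916) (nat_lit 536870912) (.ev (nat_lit 1108) (nat_lit 33554432) (.ev (nat_lit 1476) (nat_lit
 274877906944) (.ev (nat_lit 2432) (nat_lit 35188667121664) (.ev (nat_lit 2445) (nat_lit 1048576) .dd))))))))))
 (.br (nat_lit 28) (.ch (nat_lit 26) (.ev (nat_lit 52) (nat_lit 17661614424068) (.ev (nat_lit 148) (nat_lit
 274877906944) (.ev (nat_lit 180) (nat_lit 2097152) (.ev (nat_lit 436) (nat_lit 1048576) (.ev (nat_lit 980)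
 (nat_lit 35184372088832) (.ev (nat_lit 1076) (nat_lit 4294967296) (.ev (nat_lit 1316) (nat_lit 70368744177664)
 (.ev (nat_lit 1325) (nat_lit 8) .dd))))))))) (.br (nat_lit 29) (.ch (nat_lit 28) (.ev (nat_lit 52) (nat_lit
 348599091200) (.ev (nat_lit 436) (nat_lit 4194304) (.ev (nat_lit 564) (nat_lit 65536) (.ev (nat_lit 1152)
 (nat_lit 123145303359500) .dd))))) (.ch (nat_lit 29) (.ev (nat_lit 52) (nat_lit 35464249671688) (.ev (nat_lit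
 692) (nat_lit 2097152) (.ev (nat_lit 1088) (nat_lit 88029654941700) .dd))))))))) (.br (nat_lit 42) (.br
 (nat_lit 38) (.br (nat_lit 36) (.br (nat_lit 33) (.ch (nat_lit 31) (.ev (nat_lit 52) (nat_lit 70717177659400)
 (.ev (nat_lit 148) (nat_lit 35184372088832) (.ev (nat_lit 340) (nat_lit 4) (.ev (nat_lit 884) (nat_lit
 17592186044416) (.ev (nat_lit 1268) (nat_lit 1048576) (.ev (nat_lit 1552) (nat_lit 169869312) .dd))))))) (.ch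
 (nat_lit 33) (.ev (nat_lit 52) (nat_lit 35528111030276) (.ev (nat_lit 532) (nat_lit 70368744177664) (.ev
 (nat_lit 1172) (nat_lit 8) (.ev (nat_lit 1248) (nat_lit 17597051502592) .dd)))))) (.br (nat_lit 37) (.ch
 (nat_lit 36) (.ev (nat_lit 52) (nat_lit 70441763930112) (.ev (nat_lit 180) (nat_lit 4) (.ev (nat_lit 276)
 (nat_lit 35184372088832) (.ev (nat_lit 308) (nat_lit 2097152) (.ev (nat_lit 884) (nat_lit 8) (.ev (nat_lit
 1044) (nat_lit 536870912) (.ev (nat_lit 1376) (nat_lit 17867231723520) .dd)))))))) (.ch (nat_lit 37) (.ev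
 (nat_lit 52) (nat_lit 17867768659972) (.ev (nat_lit 212) (nat_lit 8) (.ev (nat_lit 404) (nat_lit 68719476736)
 (.ev (nat_lit 436) (nat_lit 4294967296) (.ev (nat_lit 596) (nat_lit 2097152) (.ev (nat_lit 788) (nat_lit
 35184372088832) (.ev (nat_lit 948) (nat_lit 1048576) (.ev (nat_lit 1428) (nat_lit 70368744177664) (.ev
 (nat_lit 1437) (nat_lit 4194304) .dd)))))))))))) (.br (nat_lit 40) (.br (nat_lit 39) (.ch (nat_lit 38) (.ev
 (nat_lit 52) (nat_lit 35185079877636) (.ev (nat_lit 244) (nat_lit 274877906944) (.ev (nat_lit 864) (nat_lit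
 88033948925960) .dd)))) (.ch (nat_lit 39) (.ev (nat_lit 52) (nat_lit 17871359967240) (.ev (nat_lit 276)
 (nat_lit 134217728) (.ev (nat_lit 436) (nat_lit 536870912) (.ev (nat_lit 608) (nat_lit 105621875654660)
 .dd)))))) (.br (nat_lit 41) (.ch (nat_lit 40) (.ev (nat_lit 52) (nat_lit 35532269748232) (.ev (nat_lit 1024)
 (nat_lit 87961636962308) .dd))) (.ch (nat_lit 41) (.ev (nat_lit 52) (nat_lit 17665372520448) (.ev (nat_lit 84)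
 (nat_lit 274880004096) (.ev (nat_lit 244) (nat_lit 35184372088832) (.ev (nat_lit 724) (nat_lit 4) (.ev
 (nat_lit 1012) (nat_lit 70368744177664) (.ev (nat_lit 1604) (nat_lit 8) (.ev (nat_lit 1824) (nat_lit
 536870912) (.ev (nat_lit 1837) (nat_lit 1048576) .dd)))))))))))) (.br (nat_lit 47) (.br (nat_lit 44) (.br
 (nat_lit 43) (.ch (nat_lit 42) (.ev (nat_lit 52) (nat_lit 17940214710272) (.ev (nat_lit 212) (nat_lit
 33554432) (.ev (nat_lit 436) (nat_lit 8) (.ev (nat_lit 628) (nat_lit 4194304) (.ev (nat_lit 660) (nat_lit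
 70368744177664) (.ev (nat_lit 884) (nat_lit 1048576) (.ev (nat_lit 1668) (nat_lit 65536) (.ev (nat_lit 2532)
 (nat_lit 4) (.ev (nat_lit 2580) (nat_lit 536870912) (.ev (nat_lit 2589) (nat_lit 35184372088832)
 .dd))))))))))) (.ch (nat_lit 43) (.ev (nat_lit 52) (nat_lit 70438038274052) (.ev (nat_lit 84) (nat_lit
 35184372088832) (.ev (nat_lit 244) (nat_lit 134217728) (.ev (nat_lit 532) (nat_lit 65536) (.ev (nat_lit 1108)
 (nat_lit 4294967296) (.ev (nat_lit 1508) (nat_lit 274877906944) (.ev (nat_lit 1636) (nat_lit 2097152) (.ev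
 (nat_lit 2324) (nat_lit 1048576) (.ev (nat_lit 2784) (nat_lit 17592186044424) .dd))))))))))) (.br (nat_lit 46)
 (.ch (nat_lit 44) (.ev (nat_lit 52) (nat_lit 105621875589120) (.ev (nat_lit 404) (nat_lit 65536) (.ev (nat_lit
 692) (nat_lit 4) (.ev (nat_lit 1056) (nat_lit 17872031055880) .dd))))) (.ch (nat_lit 46) (.ev (nat_lit 52)
 (nat_lit 17660912861188) (.ev (nat_lit 212) (nat_lit 536870912) (.ev (nat_lit 660) (nat_lit 65536) (.ev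
 (nat_lit 928) (nat_lit 105832456912904) .dd))))))) (.br (nat_lit 49) (.br (nat_lit 48) (.ch (nat_lit 47) (.ev
 (nat_lit 52) (nat_lit 88235808129028) (.ev (nat_lit 116) (nat_lit 2097152) (.ev (nat_lit 788) (nat_lit
 134217728) (.ev (nat_lit 1108) (nat_lit 8) (.ev (nat_lit 1204) (nat_lit 536870912) (.ev (nat_lit 1268)
 (nat_lit 4194304) (.ev (nat_lit 1444) (nat_lit 33554432) (.ev (nat_lit 1508) (nat_lit 35184372088832) (.ev
 (nat_lit 2740) (nat_lit 68719476736) (.ev (nat_lit 2864) (nat_lit 65536) (.nd (nat_lit 2896) (.ch (nat_lit 16)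
 (.fin (nat_lit 576462401571340863))))))))))))))) (.ch (nat_lit 48) (.ev (nat_lit 52) (nat_lit 70643789856772)
 (.ev (nat_lit 116) (nat_lit 35184372088832) (.ev (nat_lit 756) (nat_lit 4194304) (.ev (nat_lit 1140) (nat_lit
 65536) (.ev (nat_lit 1268) (nat_lit 536870912) (.ev (nat_lit 1332) (nat_lit 17592186044416) (.ev (nat_lit
 1396) (nat_lit 8) (.ev (nat_lit 2196) (nat_lit 2097152) (.ev (nat_lit 2848) (nat_lit 68719476736) (.nd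
 (nat_lit 2896) (.ch (nat_lit 16) (.fin (nat_lit 576462401571340863))))))))))))))) (.br (nat_lit 50) (.ch
 (nat_lit 49) (.ev (nat_lit 52) (nat_lit 52776593784844) (.ev (nat_lit 756) (nat_lit 4294967296) (.ev (nat_lit
 1236) (nat_lit 70368744243200) (.ev (nat_lit 1316) (nat_lit 68719476736) (.ev (nat_lit 1572) (nat_lit 4194304)
 (.ev (nat_lit 1760) (nat_lit 274878955520) (.ev (nat_lit 2644) (nat_lit 134217728) (.ev (nat_lit 2653)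
 (nat_lit 536870912) .dd))))))))) (.br (nat_lit 52) (.ch (nat_lit 50) (.ev (nat_lit 52) (nat_lit
 123489442856972) (.ev (nat_lit 500) (nat_lit 134217728) (.ev (nat_lit 916) (nat_lit 1048576) (.ev (nat_lit
 2276) (nat_lit 65536) (.ev (nat_lit 2308) (nat_lit 33554432) (.ev (nat_lit 2317) (nat_lit 4294967296)
 .dd))))))) (.ch (nat_lit 52) (.ev (nat_lit 52) (nat_lit 123425013170176) (.ev (nat_lit 84) (nat_lit 134217728)
 (.ev (nat_lit 116) (nat_lit 4) (.ev (nat_lit 660) (nat_lit 68719476736) (.ev (nat_lit 948) (nat_lit 4194304)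
 (.ev (nat_lit 1888) (nat_lit 2097160) (.ev (nat_lit 1901) (nat_lit 33554432) .dd))))))))))))))))

/-- Subtrie. -/
noncomputable def T8 : Tr := (.ev (nat_lit 20) (nat_lit 92435014795272) (.nd (nat_lit 33) (.br (nat_lit 31)
 (.br (nat_lit 16) (.br (nat_lit 10) (.br (nat_lit 6) (.br (nat_lit 5) (.ch (nat_lit 4) (.ev (nat_lit 52)
 (nat_lit 4200448) (.ev (nat_lit 468) (nat_lit 34359738368) (.ev (nat_lit 852) (nat_lit 512) (.ev (nat_lit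
 1108) (nat_lit 35184372088832) (.ev (nat_lit 1140) (nat_lit 32) (.ev (nat_lit 1696) (nat_lit 167772164) (.ev
 (nat_lit 1972) (nat_lit 8589934592) (.ev (nat_lit 2208) (nat_lit 274878234626) .dd))))))))) (.ch (nat_lit 5)
 (.ev (nat_lit 52) (nat_lit 35502333952038) (.ev (nat_lit 532) (nat_lit 33554432) (.ev (nat_lit 916) (nat_lit
 4096) (.ev (nat_lit 1428) (nat_lit 512) (.ev (nat_lit 1668) (nat_lit 2048) (.ev (nat_lit 2336) (nat_lit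
 4456448) .dd)))))))) (.br (nat_lit 9) (.ch (nat_lit 6) (.ev (nat_lit 52) (nat_lit 35227359840256) (.ev
 (nat_lit 244) (nat_lit 2) (.ev (nat_lit 372) (nat_lit 4) (.ev (nat_lit 724) (nat_lit 134217728) (.ev (nat_lit
 756) (nat_lit 274877906944) (.ev (nat_lit 820) (nat_lit 512) (.ev (nat_lit 1268) (nat_lit 4096) (.ev (nat_lit
 1277) (nat_lit 32) .dd))))))))) (.ch (nat_lit 9) (.ev (nat_lit 52) (nat_lit 35493609736740) (.ev (nat_lit 84)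
 (nat_lit 2) (.ev (nat_lit 244) (nat_lit 262144) (.ev (nat_lit 724) (nat_lit 8589934592) (.ev (nat_lit 1236)
 (nat_lit 65536) (.ev (nat_lit 1636) (nat_lit 4194304) (.ev (nat_lit 2228) (nat_lit 33554432) (.ev (nat_lit
 2260) (nat_lit 134217728) (.ev (nat_lit 2269) (nat_lit 4096) .dd)))))))))))) (.br (nat_lit 12) (.br (nat_lit
 11) (.ch (nat_lit 10) (.ev (nat_lit 52) (nat_lit 8724156928) (.ev (nat_lit 212) (nat_lit 274877906944) (.ev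
 (nat_lit 352) (nat_lit 35218769905702) .dd)))) (.ch (nat_lit 11) (.ev (nat_lit 52) (nat_lit 35459249996322)
 (.ev (nat_lit 308) (nat_lit 8589934592) (.ev (nat_lit 756) (nat_lit 4096) (.ev (nat_lit 788) (nat_lit
 134217728) (.ev (nat_lit 1508) (nat_lit 4194304) (.ev (nat_lit 2004) (nat_lit 2052) (.ev (nat_lit 2132)
 (nat_lit 34359738368) (.ev (nat_lit 2368) (nat_lit 327680) (.ev (nat_lit 2381) (nat_lit 33554432)
 .dd))))))))))) (.br (nat_lit 15) (.ch (nat_lit 12) (.ev (nat_lit 52) (nat_lit 34527510562) (.ev (nat_lit 84)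
 (nat_lit 262144) (.ev (nat_lit 404) (nat_lit 2048) (.ev (nat_lit 640) (nat_lit 35467844194820) .dd))))) (.ch
 (nat_lit 15) (.ev (nat_lit 52) (nat_lit 35192962028036) (.ev (nat_lit 116) (nat_lit 262144) (.ev (nat_lit 532)
 (nat_lit 32) (.ev (nat_lit 660) (nat_lit 34359738368) (.ev (nat_lit 1140) (nat_lit 2048) (.ev (nat_lit 1796)
 (nat_lit 274877906944) (.ev (nat_lit 1856) (nat_lit 65538) (.ev (nat_lit 1972) (nat_lit 134217728) (.ev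
 (nat_lit 2048) (nat_lit 33554432) (.ev (nat_lit 2061) (nat_lit 4194304) .dd)))))))))))))) (.br (nat_lit 22)
 (.br (nat_lit 18) (.br (nat_lit 17) (.ch (nat_lit 16) (.ev (nat_lit 52) (nat_lit 37754912) (.ev (nat_lit 116)
 (nat_lit 2) (.ev (nat_lit 436) (nat_lit 35184372088832) (.ev (nat_lit 980) (nat_lit 8724152320) (.ev (nat_lit
 1012) (nat_lit 512) (.ev (nat_lit 1284) (nat_lit 4) (.ev (nat_lit 2644) (nat_lit 262144) (.ev (nat_lit 2832)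
 (nat_lit 274877906944) (.nd (nat_lit 2896) (.ch (nat_lit 18) (.fin (nat_lit 576462401573438015)))))))))))))
 (.ch (nat_lit 17) (.ev (nat_lit 52) (nat_lit 35192966287874) (.ev (nat_lit 84) (nat_lit 134217728) (.ev
 (nat_lit 372) (nat_lit 33554432) (.ev (nat_lit 884) (nat_lit 274877906944) (.ev (nat_lit 1364) (nat_lit 2048)
 (.ev (nat_lit 1668) (nat_lit 34359738368) (.ev (nat_lit 2016) (nat_lit 262148) (.ev (nat_lit 2029) (nat_lit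
 32) .dd)))))))))) (.br (nat_lit 21) (.ch (nat_lit 18) (.ev (nat_lit 52) (nat_lit 35467840002566) (.ev (nat_lit
 500) (nat_lit 4194304) (.ev (nat_lit 820) (nat_lit 34359738368) (.ev (nat_lit 2228) (nat_lit 32) (.ev (nat_lit
 2688) (nat_lit 168034304) .dd)))))) (.ch (nat_lit 21) (.ev (nat_lit 52) (nat_lit 274877909536) (.ev (nat_lit
 116) (nat_lit 8589934592) (.ev (nat_lit 404) (nat_lit 34359738368) (.ev (nat_lit 544) (nat_lit 35184544387078)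
 .dd))))))) (.br (nat_lit 26) (.br (nat_lit 24) (.ch (nat_lit 22) (.ev (nat_lit 52) (nat_lit 33884706) (.ev
 (nat_lit 148) (nat_lit 4194304) (.ev (nat_lit 276) (nat_lit 8724152320) (.ev (nat_lit 948) (nat_lit
 35184372088832) (.ev (nat_lit 1108) (nat_lit 274877906944) (.ev (nat_lit 1604) (nat_lit 4096) (.ev (nat_lit
 2404) (nat_lit 4) (.ev (nat_lit 2413) (nat_lit 34359738368) .dd))))))))) (.ch (nat_lit 24) (.ev (nat_lit 52)
 (nat_lit 43084153350) (.ev (nat_lit 468) (nat_lit 33554432) (.ev (nat_lit 832) (nat_lit 35459254261792)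
 .dd))))) (.br (nat_lit 28) (.ch (nat_lit 26) (.ev (nat_lit 52) (nat_lit 8761970726) (.ev (nat_lit 660)
 (nat_lit 2048) (.ev (nat_lit 1296) (nat_lit 35493609996800) .dd)))) (.br (nat_lit 29) (.ch (nat_lit 28) (.ev
 (nat_lit 52) (nat_lit 283635619842) (.ev (nat_lit 532) (nat_lit 65536) (.ev (nat_lit 724) (nat_lit 4194304)
 (.ev (nat_lit 820) (nat_lit 4) (.ev (nat_lit 852) (nat_lit 34359738368) (.ev (nat_lit 1172) (nat_lit
 35184372088832) (.ev (nat_lit 1984) (nat_lit 262176) (.ev (nat_lit 1997) (nat_lit 512) .dd))))))))) (.ch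
 (nat_lit 29) (.ev (nat_lit 52) (nat_lit 35502367508512) (.ev (nat_lit 1120) (nat_lit 4461062) .dd)))))))) (.br
 (nat_lit 42) (.br (nat_lit 38) (.br (nat_lit 36) (.br (nat_lit 33) (.ch (nat_lit 31) (.ev (nat_lit 52)
 (nat_lit 283472363554) (.ev (nat_lit 468) (nat_lit 512) (.ev (nat_lit 820) (nat_lit 33554432) (.ev (nat_lit
 852) (nat_lit 4) (.ev (nat_lit 1216) (nat_lit 35218866051072) .dd)))))) (.ch (nat_lit 33) (.ev (nat_lit 52)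
 (nat_lit 35467978604548) (.ev (nat_lit 212) (nat_lit 4096) (.ev (nat_lit 372) (nat_lit 512) (.ev (nat_lit
 1012) (nat_lit 2048) (.ev (nat_lit 1316) (nat_lit 65536) (.ev (nat_lit 1508) (nat_lit 2) (.ev (nat_lit 2228)
 (nat_lit 34359738368) (.ev (nat_lit 2388) (nat_lit 33554432) (.ev (nat_lit 2397) (nat_lit 32) .dd)))))))))))
 (.br (nat_lit 37) (.ch (nat_lit 36) (.ev (nat_lit 52) (nat_lit 34364262912) (.ev (nat_lit 372) (nat_lit 32)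
 (.ev (nat_lit 884) (nat_lit 35184372088832) (.ev (nat_lit 1540) (nat_lit 4) (.ev (nat_lit 2260) (nat_lit 2)
 (.ev (nat_lit 2452) (nat_lit 4096) (.ev (nat_lit 2644) (nat_lit 8589934592) (.ev (nat_lit 2708) (nat_lit
 33554432) (.ev (nat_lit 2720) (nat_lit 275012124672) .dd)))))))))) (.ch (nat_lit 37) (.ev (nat_lit 52)
 (nat_lit 275045751300) (.ev (nat_lit 180) (nat_lit 262144) (.ev (nat_lit 564) (nat_lit 34359738368) (.ev
 (nat_lit 788) (nat_lit 4194304) (.ev (nat_lit 980) (nat_lit 2) (.ev (nat_lit 1520) (nat_lit 35192962023456)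
 .dd))))))))) (.br (nat_lit 40) (.br (nat_lit 39) (.ch (nat_lit 38) (.ev (nat_lit 52) (nat_lit 35193129798180)
 (.ev (nat_lit 628) (nat_lit 274877906944) (.ev (nat_lit 692) (nat_lit 262144) (.ev (nat_lit 724) (nat_lit 2)
 (.ev (nat_lit 1808) (nat_lit 34363932672) (.ev (nat_lit 2112) (nat_lit 65536) (.ev (nat_lit 2125) (nat_lit
 4096) .dd)))))))) (.ch (nat_lit 39) (.ev (nat_lit 52) (nat_lit 309237907490) (.ev (nat_lit 84) (nat_lit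
 8589934592) (.ev (nat_lit 468) (nat_lit 4) (.ev (nat_lit 564) (nat_lit 33554432) (.ev (nat_lit 596) (nat_lit
 134217728) (.ev (nat_lit 692) (nat_lit 4194304) (.ev (nat_lit 1044) (nat_lit 35184372088832) (.ev (nat_lit
 1316) (nat_lit 2048) (.ev (nat_lit 1648) (nat_lit 4608) (.ev (nat_lit 1661) (nat_lit 65536) .dd))))))))))))
 (.br (nat_lit 41) (.ch (nat_lit 40) (.ev (nat_lit 52) (nat_lit 35493614256672) (.ev (nat_lit 308) (nat_lit 2)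
 (.ev (nat_lit 340) (nat_lit 134217728) (.ev (nat_lit 404) (nat_lit 4) (.ev (nat_lit 692) (nat_lit 8589934592)
 (.ev (nat_lit 1204) (nat_lit 4096) (.ev (nat_lit 1428) (nat_lit 33554432) (.ev (nat_lit 1437) (nat_lit 2048)
 .dd))))))))) (.ch (nat_lit 41) (.ev (nat_lit 52) (nat_lit 34531770368) (.ev (nat_lit 148) (nat_lit 262144)
 (.ev (nat_lit 340) (nat_lit 2) (.ev (nat_lit 532) (nat_lit 4) (.ev (nat_lit 628) (nat_lit 35184372088832) (.ev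
 (nat_lit 820) (nat_lit 2048) (.ev (nat_lit 1344) (nat_lit 283467846176) .dd))))))))))) (.br (nat_lit 47) (.br
 (nat_lit 44) (.br (nat_lit 43) (.ch (nat_lit 42) (.ev (nat_lit 52) (nat_lit 275012127234) (.ev (nat_lit 372)
 (nat_lit 65536) (.ev (nat_lit 512) (nat_lit 35227359776804) .dd)))) (.ch (nat_lit 43) (.ev (nat_lit 52)
 (nat_lit 37750790) (.ev (nat_lit 384) (nat_lit 35502334218784) .dd)))) (.br (nat_lit 46) (.ch (nat_lit 44)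
 (.ev (nat_lit 52) (nat_lit 35193000036386) (.ev (nat_lit 148) (nat_lit 134217728) (.ev (nat_lit 1364) (nat_lit
 4) (.ev (nat_lit 1444) (nat_lit 512) (.ev (nat_lit 2164) (nat_lit 274877906944) (.ev (nat_lit 2880) (nat_lit
 4096) (.nd (nat_lit 2896) (.ch (nat_lit 18) (.fin (nat_lit 576462401573438015))))))))))) (.ch (nat_lit 46)
 (.ev (nat_lit 52) (nat_lit 4461060) (.ev (nat_lit 448) (nat_lit 35502367508514) .dd))))) (.br (nat_lit 49)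
 (.br (nat_lit 48) (.ch (nat_lit 47) (.ev (nat_lit 52) (nat_lit 274878169636) (.ev (nat_lit 180) (nat_lit 2)
 (.ev (nat_lit 276) (nat_lit 4194304) (.ev (nat_lit 308) (nat_lit 134217728) (.ev (nat_lit 372) (nat_lit
 34359738368) (.ev (nat_lit 404) (nat_lit 65536) (.ev (nat_lit 884) (nat_lit 4096) (.ev (nat_lit 1408) (nat_lit
 35192995579904) .dd))))))))) (.ch (nat_lit 48) (.ev (nat_lit 52) (nat_lit 309405417476) (.ev (nat_lit 244)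
 (nat_lit 4194304) (.ev (nat_lit 468) (nat_lit 65536) (.ev (nat_lit 628) (nat_lit 4096) (.ev (nat_lit 992)
 (nat_lit 35192962288162) .dd))))))) (.br (nat_lit 50) (.ch (nat_lit 49) (.ev (nat_lit 52) (nat_lit
 35218765650438) (.ev (nat_lit 564) (nat_lit 32) (.ev (nat_lit 1476) (nat_lit 8594128896) (.ev (nat_lit 2420)
 (nat_lit 65536) (.ev (nat_lit 2532) (nat_lit 134217728) (.ev (nat_lit 2541) (nat_lit 274877906944) .dd)))))))
 (.br (nat_lit 52) (.ch (nat_lit 50) (.ev (nat_lit 52) (nat_lit 35493613932548) (.ev (nat_lit 180) (nat_lit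
 8589934592) (.ev (nat_lit 800) (nat_lit 168102434) .dd)))) (.ch (nat_lit 52) (.ev (nat_lit 52) (nat_lit
 35459250067456) (.ev (nat_lit 116) (nat_lit 134217728) (.ev (nat_lit 340) (nat_lit 4194304) (.ev (nat_lit 500)
 (nat_lit 262144) (.ev (nat_lit 660) (nat_lit 32) (.ev (nat_lit 1012) (nat_lit 4) (.ev (nat_lit 1236) (nat_lit
 512) (.ev (nat_lit 2068) (nat_lit 33554432) (.ev (nat_lit 2196) (nat_lit 2) (.ev (nat_lit 2388) (nat_lit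
 34359738368) (.ev (nat_lit 2397) (nat_lit 8589934592) .dd))))))))))))))))))))

/-- The trie. -/
noncomputable def T : Tr := .nd (nat_lit 1000000) (.br (nat_lit 7) (.br (nat_lit 2) (.br (nat_lit 1) (.ch
 (nat_lit 0) (.ev (nat_lit 0) (nat_lit 140737488355327) .dd)) (.ch (nat_lit 1) T1)) (.br (nat_lit 3) (.ch
 (nat_lit 2) T2) (.br (nat_lit 4) (.ch (nat_lit 3) (.ev (nat_lit 0) (nat_lit 140737488355327) .dd)) (.ch
 (nat_lit 4) (.ev (nat_lit 0) (nat_lit 140737488355327) .dd))))) (.br (nat_lit 9) (.br (nat_lit 8) (.ch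
 (nat_lit 7) (.ev (nat_lit 0) (nat_lit 140737488355327) .dd)) (.ch (nat_lit 8) T8)) (.br (nat_lit 14) (.ch
 (nat_lit 9) (.ev (nat_lit 0) (nat_lit 140737488355327) .dd)) (.br (nat_lit 18) (.ch (nat_lit 14) (.ev (nat_lit
 0) (nat_lit 140737488355327) .dd)) (.ch (nat_lit 18) (.ev (nat_lit 0) (nat_lit 140737488355327) .dd))))))

/-- The possible values. -/
noncomputable def oks : List ℕ := [4, 7, 9]

/-- The parameters. -/
noncomputable def S : Pr := ⟨fun i l e => lget mz (lget [] (lget [] tabs i) l) e, oks, [(nat_lit 0), (nat_lit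
 1), (nat_lit 0)], T, (nat_lit 140737488355327), (nat_lit 12800101590481), (nat_lit 47), [(nat_lit 279193),
 (nat_lit 2287041271849359)], [(nat_lit 361), (nat_lit 2809)]⟩

/-- Nothing known. -/
noncomputable def cs0 : Cs := (.cons (nat_lit 19) (nat_lit 0) (nat_lit 1) (.cons (nat_lit 53) (nat_lit 0) (nat_lit 1) .nil))

theorem part_1 : part S cs0 (nat_lit 1) = true := by decide +kernel

theorem part_2 : part S cs0 (nat_lit 2) = true := by decide +kernel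

theorem part_8 : part S cs0 (nat_lit 8) = true := by decide +kernel

/-- Data of a prime. -/
noncomputable def D0 : PD := ⟨(nat_lit 19), (nat_lit 2), (210, 3, 5), (67, 193, 280), (183, 17, 194)⟩

theorem D0_ok : D0.Ok := pdb_sound (s := 9) (C := ⟨⟨21, 6, -28, 11, 14, 17, -4, 7, -1⟩, (2, 11, 15)⟩) (by show Nat.Prime 19; norm_num) (by decide +kernel)

/-- Lines of the first type. -/
noncomputable def Cl0 : List C1 := [⟨⟨11, 14, -28, 21, 6, 7, 4, -7, -5⟩, (12, 16, 13)⟩,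
  ⟨⟨0, 0, 0, 0, 0, 0, 0, 0, 0⟩, (0, 0, 0)⟩,
  ⟨⟨0, 0, 0, 0, 0, 0, 0, 0, 0⟩, (0, 0, 0)⟩,
  ⟨⟨9, 6, -32, 1, 26, 7, 8, -1, -1⟩, (8, 3, 5)⟩,
  ⟨⟨-9, -6, -23, -1, -26, 8, 8, -1, -7⟩, (13, 12, 18)⟩,
  ⟨⟨0, 0, 0, 0, 0, 0, 0, 0, 0⟩, (0, 0, 0)⟩,
  ⟨⟨0, 0, 0, 0, 0, 0, 0, 0, 0⟩, (0, 0, 0)⟩,
  ⟨⟨9, -6, -32, 1, -26, 7, 8, 1, -1⟩, (5, 9, 15)⟩,
  ⟨⟨0, 0, 0, 0, 0, 0, 0, 0, 0⟩, (0, 0, 0)⟩,
  ⟨⟨21, -6, -28, 11, -14, 17, -4, -7, -1⟩, (16, 12, 6)⟩,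
  ⟨⟨0, 0, 0, 0, 0, 0, 0, 0, 0⟩, (0, 0, 0)⟩,
  ⟨⟨0, 0, 0, 0, 0, 0, 0, 0, 0⟩, (0, 0, 0)⟩,
  ⟨⟨0, 0, 0, 0, 0, 0, 0, 0, 0⟩, (0, 0, 0)⟩,
  ⟨⟨0, 0, 0, 0, 0, 0, 0, 0, 0⟩, (0, 0, 0)⟩,
  ⟨⟨11, -14, -28, 21, -6, 7, 4, 7, -5⟩, (5, 13, 7)⟩,
  ⟨⟨0, 0, 0, 0, 0, 0, 0, 0, 0⟩, (0, 0, 0)⟩,
  ⟨⟨0, 0, 0, 0, 0, 0, 0, 0, 0⟩, (0, 0, 0)⟩,
  ⟨⟨0, 0, 0, 0, 0, 0, 0, 0, 0⟩, (0, 0, 0)⟩,
  ⟨⟨-9, 6, -23, -1, 26, 8, 8, 1, -7⟩, (16, 6, 9)⟩]

/-- Data of a prime. -/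
noncomputable def D1 : PD := ⟨(nat_lit 53), (nat_lit 2), (2545, 8, 14), (2610, 800, 1557), (1968, 957, 2439)⟩

theorem D1_ok : D1.Ok := pdb_sound (s := 12) (C := ⟨⟨-13, 2, -76, -47, -58, 31, 18, -15, -13⟩, (40, 6, 18)⟩) (by show Nat.Prime 53; norm_num) (by decide +kernel)

/-- Lines of the first type. -/
noncomputable def Cl1 : List C1 := [⟨⟨13, -2, -89, -47, -58, 16, 18, -15, -5⟩, (17, 16, 48)⟩,
  ⟨⟨-23, 38, -56, 43, 58, 1, 18, -9, -23⟩, (9, 50, 16)⟩,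
  ⟨⟨-23, -38, -56, 43, -58, 1, 18, 9, -23⟩, (18, 47, 32)⟩,
  ⟨⟨-13, -2, -76, -47, 58, 31, 18, 15, -13⟩, (20, 3, 9)⟩,
  ⟨⟨0, 0, 0, 0, 0, 0, 0, 0, 0⟩, (0, 0, 0)⟩,
  ⟨⟨0, 0, 0, 0, 0, 0, 0, 0, 0⟩, (0, 0, 0)⟩,
  ⟨⟨0, 0, 0, 0, 0, 0, 0, 0, 0⟩, (0, 0, 0)⟩,
  ⟨⟨23, -38, -79, -43, -58, 44, -18, 9, -5⟩, (29, 8, 28)⟩,
  ⟨⟨33, -18, -89, 67, 2, 4, 2, 23, -7⟩, (12, 34, 20)⟩,
  ⟨⟨0, 0, 0, 0, 0, 0, 0, 0, 0⟩, (0, 0, 0)⟩,
  ⟨⟨0, 0, 0, 0, 0, 0, 0, 0, 0⟩, (0, 0, 0)⟩,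
  ⟨⟨0, 0, 0, 0, 0, 0, 0, 0, 0⟩, (0, 0, 0)⟩,
  ⟨⟨0, 0, 0, 0, 0, 0, 0, 0, 0⟩, (0, 0, 0)⟩,
  ⟨⟨27, 42, -76, 7, 58, 49, 22, -7, -5⟩, (1, 14, 44)⟩,
  ⟨⟨33, 18, -89, 67, -2, 4, 2, -23, -7⟩, (44, 1, 38)⟩,
  ⟨⟨0, 0, 0, 0, 0, 0, 0, 0, 0⟩, (0, 0, 0)⟩,
  ⟨⟨0, 0, 0, 0, 0, 0, 0, 0, 0⟩, (0, 0, 0)⟩,
  ⟨⟨0, 0, 0, 0, 0, 0, 0, 0, 0⟩, (0, 0, 0)⟩,
  ⟨⟨0, 0, 0, 0, 0, 0, 0, 0, 0⟩, (0, 0, 0)⟩,
  ⟨⟨57, 42, -56, -37, 62, 41, -10, 1, -19⟩, (20, 27, 3)⟩,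
  ⟨⟨13, 2, -89, -47, 58, 16, 18, 15, -5⟩, (50, 19, 4)⟩,
  ⟨⟨0, 0, 0, 0, 0, 0, 0, 0, 0⟩, (0, 0, 0)⟩,
  ⟨⟨0, 0, 0, 0, 0, 0, 0, 0, 0⟩, (0, 0, 0)⟩,
  ⟨⟨57, -42, -56, -37, -62, 41, -10, -1, -19⟩, (16, 11, 13)⟩,
  ⟨⟨0, 0, 0, 0, 0, 0, 0, 0, 0⟩, (0, 0, 0)⟩,
  ⟨⟨7, 58, -56, 27, 42, 49, 22, -7, -17⟩, (20, 9, 25)⟩,
  ⟨⟨0, 0, 0, 0, 0, 0, 0, 0, 0⟩, (0, 0, 0)⟩,
  ⟨⟨67, -2, -71, 33, 18, 56, -2, 23, -5⟩, (28, 13, 49)⟩,
  ⟨⟨0, 0, 0, 0, 0, 0, 0, 0, 0⟩, (0, 0, 0)⟩,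
  ⟨⟨0, 0, 0, 0, 0, 0, 0, 0, 0⟩, (0, 0, 0)⟩,
  ⟨⟨23, 38, -79, -43, 58, 44, -18, -9, -5⟩, (20, 11, 12)⟩,
  ⟨⟨0, 0, 0, 0, 0, 0, 0, 0, 0⟩, (0, 0, 0)⟩,
  ⟨⟨7, -58, -56, 27, -42, 49, 22, 7, -17⟩, (17, 5, 8)⟩,
  ⟨⟨0, 0, 0, 0, 0, 0, 0, 0, 0⟩, (0, 0, 0)⟩,
  ⟨⟨67, 2, -71, 33, -18, 56, -2, -23, -5⟩, (8, 34, 14)⟩,
  ⟨⟨27, -42, -76, 7, -58, 49, 22, 7, -5⟩, (50, 11, 27)⟩,
  ⟨⟨0, 0, 0, 0, 0, 0, 0, 0, 0⟩, (0, 0, 0)⟩,
  ⟨⟨0, 0, 0, 0, 0, 0, 0, 0, 0⟩, (0, 0, 0)⟩,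
  ⟨⟨0, 0, 0, 0, 0, 0, 0, 0, 0⟩, (0, 0, 0)⟩,
  ⟨⟨0, 0, 0, 0, 0, 0, 0, 0, 0⟩, (0, 0, 0)⟩,
  ⟨⟨0, 0, 0, 0, 0, 0, 0, 0, 0⟩, (0, 0, 0)⟩,
  ⟨⟨0, 0, 0, 0, 0, 0, 0, 0, 0⟩, (0, 0, 0)⟩,
  ⟨⟨0, 0, 0, 0, 0, 0, 0, 0, 0⟩, (0, 0, 0)⟩,
  ⟨⟨0, 0, 0, 0, 0, 0, 0, 0, 0⟩, (0, 0, 0)⟩,
  ⟨⟨0, 0, 0, 0, 0, 0, 0, 0, 0⟩, (0, 0, 0)⟩,
  ⟨⟨-37, 62, -4, -57, -42, 1, 10, -1, -29⟩, (22, 21, 27)⟩,
  ⟨⟨0, 0, 0, 0, 0, 0, 0, 0, 0⟩, (0, 0, 0)⟩,
  ⟨⟨0, 0, 0, 0, 0, 0, 0, 0, 0⟩, (0, 0, 0)⟩,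
  ⟨⟨0, 0, 0, 0, 0, 0, 0, 0, 0⟩, (0, 0, 0)⟩,
  ⟨⟨0, 0, 0, 0, 0, 0, 0, 0, 0⟩, (0, 0, 0)⟩,
  ⟨⟨0, 0, 0, 0, 0, 0, 0, 0, 0⟩, (0, 0, 0)⟩,
  ⟨⟨-37, -62, -4, -57, 42, 1, 10, 1, -29⟩, (6, 25, 17)⟩,
  ⟨⟨0, 0, 0, 0, 0, 0, 0, 0, 0⟩, (0, 0, 0)⟩]

/-- Data of a prime. -/
noncomputable def Dm : PD := ⟨(nat_lit 47), (nat_lit 2), (1034, 1, 9), (105, 517, 2039), (987, 5, 190)⟩

theorem Dm_ok : Dm.Ok := pdb_sound (s := 1) (C := ⟨⟨47, 2, -76, 47, -2, 29, 0, -21, -1⟩, (2, 45, 26)⟩) (by show Nat.Prime 47; norm_num) (by decide +kernel)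

/-- Lines of the first type. -/
noncomputable def Clm : List C1 := [⟨⟨47, -2, -76, 47, 2, 29, 0, 21, -1⟩, (9, 38, 23)⟩,
  ⟨⟨0, 0, 0, 0, 0, 0, 0, 0, 0⟩, (0, 0, 0)⟩,
  ⟨⟨0, 0, 0, 0, 0, 0, 0, 0, 0⟩, (0, 0, 0)⟩,
  ⟨⟨0, 0, 0, 0, 0, 0, 0, 0, 0⟩, (0, 0, 0)⟩,
  ⟨⟨17, 22, -76, -63, 18, 19, -4, -19, -7⟩, (10, 21, 17)⟩,
  ⟨⟨0, 0, 0, 0, 0, 0, 0, 0, 0⟩, (0, 0, 0)⟩,
  ⟨⟨57, -18, -61, -23, -62, 4, -8, 5, -17⟩, (3, 26, 7)⟩,
  ⟨⟨57, 18, -61, -23, 62, 4, -8, -5, -17⟩, (16, 29, 6)⟩,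
  ⟨⟨53, -22, -64, -13, -62, 29, -12, -3, -13⟩, (46, 10, 2)⟩,
  ⟨⟨0, 0, 0, 0, 0, 0, 0, 0, 0⟩, (0, 0, 0)⟩,
  ⟨⟨43, -38, -59, 3, -42, 56, -16, -11, -1⟩, (35, 9, 46)⟩,
  ⟨⟨0, 0, 0, 0, 0, 0, 0, 0, 0⟩, (0, 0, 0)⟩,
  ⟨⟨0, 0, 0, 0, 0, 0, 0, 0, 0⟩, (0, 0, 0)⟩,
  ⟨⟨-17, -22, -59, -63, 18, 44, 4, 19, -11⟩, (15, 39, 2)⟩,
  ⟨⟨0, 0, 0, 0, 0, 0, 0, 0, 0⟩, (0, 0, 0)⟩,
  ⟨⟨0, 0, 0, 0, 0, 0, 0, 0, 0⟩, (0, 0, 0)⟩,
  ⟨⟨0, 0, 0, 0, 0, 0, 0, 0, 0⟩, (0, 0, 0)⟩,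
  ⟨⟨53, 22, -64, -13, 62, 29, -12, 3, -13⟩, (41, 13, 12)⟩,
  ⟨⟨0, 0, 0, 0, 0, 0, 0, 0, 0⟩, (0, 0, 0)⟩,
  ⟨⟨0, 0, 0, 0, 0, 0, 0, 0, 0⟩, (0, 0, 0)⟩,
  ⟨⟨0, 0, 0, 0, 0, 0, 0, 0, 0⟩, (0, 0, 0)⟩,
  ⟨⟨0, 0, 0, 0, 0, 0, 0, 0, 0⟩, (0, 0, 0)⟩,
  ⟨⟨0, 0, 0, 0, 0, 0, 0, 0, 0⟩, (0, 0, 0)⟩,
  ⟨⟨43, 38, -59, 3, 42, 56, -16, 11, -1⟩, (5, 8, 20)⟩,
  ⟨⟨3, -42, -59, 43, -38, 16, 16, 11, -17⟩, (39, 42, 20)⟩,
  ⟨⟨0, 0, 0, 0, 0, 0, 0, 0, 0⟩, (0, 0, 0)⟩,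
  ⟨⟨0, 0, 0, 0, 0, 0, 0, 0, 0⟩, (0, 0, 0)⟩,
  ⟨⟨0, 0, 0, 0, 0, 0, 0, 0, 0⟩, (0, 0, 0)⟩,
  ⟨⟨0, 0, 0, 0, 0, 0, 0, 0, 0⟩, (0, 0, 0)⟩,
  ⟨⟨0, 0, 0, 0, 0, 0, 0, 0, 0⟩, (0, 0, 0)⟩,
  ⟨⟨-13, -62, -16, 53, -22, 11, 12, 3, -25⟩, (34, 6, 12)⟩,
  ⟨⟨0, 0, 0, 0, 0, 0, 0, 0, 0⟩, (0, 0, 0)⟩,
  ⟨⟨0, 0, 0, 0, 0, 0, 0, 0, 0⟩, (0, 0, 0)⟩,
  ⟨⟨0, 0, 0, 0, 0, 0, 0, 0, 0⟩, (0, 0, 0)⟩,
  ⟨⟨17, -22, -76, -63, -18, 19, -4, 19, -7⟩, (15, 8, 2)⟩,
  ⟨⟨0, 0, 0, 0, 0, 0, 0, 0, 0⟩, (0, 0, 0)⟩,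
  ⟨⟨0, 0, 0, 0, 0, 0, 0, 0, 0⟩, (0, 0, 0)⟩,
  ⟨⟨3, 42, -59, 43, 38, 16, 16, -11, -17⟩, (38, 12, 46)⟩,
  ⟨⟨0, 0, 0, 0, 0, 0, 0, 0, 0⟩, (0, 0, 0)⟩,
  ⟨⟨-13, 62, -16, 53, 22, 11, 12, -3, -25⟩, (37, 1, 2)⟩,
  ⟨⟨23, 62, -19, 57, -18, 4, 8, -5, -25⟩, (29, 31, 6)⟩,
  ⟨⟨23, -62, -19, 57, 18, 4, 8, 5, -25⟩, (26, 44, 7)⟩,
  ⟨⟨0, 0, 0, 0, 0, 0, 0, 0, 0⟩, (0, 0, 0)⟩,
  ⟨⟨-17, 22, -59, -63, -18, 44, 4, -19, -11⟩, (10, 26, 17)⟩,
  ⟨⟨0, 0, 0, 0, 0, 0, 0, 0, 0⟩, (0, 0, 0)⟩,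
  ⟨⟨0, 0, 0, 0, 0, 0, 0, 0, 0⟩, (0, 0, 0)⟩,
  ⟨⟨0, 0, 0, 0, 0, 0, 0, 0, 0⟩, (0, 0, 0)⟩]

/-- Unit moves. -/
noncomputable def U : List Mv := [mz,
  mz,
  mz,
  mz,
  mz,
  ⟨⟨-1, 0, 1, 0, 1, 0, 0, 0, 1⟩, .nil, (nat_lit 18), (nat_lit 9), (nat_lit 4), (nat_lit 1), (0, 0, 0), [], 18⟩,
  ⟨⟨-1, 0, 1, 0, -1, 0, 0, 0, 1⟩, .nil, (nat_lit 0), (nat_lit 12), (nat_lit 1), (nat_lit 0), (0, 0, 0), [], 7⟩,
  mz,
  mz,
  mz,
  ⟨⟨1, 0, 0, 0, -1, 0, 0, 0, 1⟩, .nil, (nat_lit 18), (nat_lit 14), (nat_lit 2), (nat_lit 1), (0, 0, 0), [], 10⟩,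
  ⟨⟨-1, 0, 1, 0, -1, 0, 0, 0, 1⟩, .nil, (nat_lit 0), (nat_lit 12), (nat_lit 1), (nat_lit 0), (0, 0, 0), [], 7⟩,
  ⟨⟨-1, 0, 1, 0, -1, 0, 0, 0, 1⟩, .nil, (nat_lit 0), (nat_lit 12), (nat_lit 1), (nat_lit 0), (0, 0, 0), [], 7⟩,
  ⟨⟨-1, 0, 1, 0, 1, 0, 0, 0, 1⟩, .nil, (nat_lit 18), (nat_lit 9), (nat_lit 4), (nat_lit 1), (0, 0, 0), [], 18⟩,
  mz,
  ⟨⟨-1, 0, 1, 0, 1, 0, 0, 0, 1⟩, .nil, (nat_lit 18), (nat_lit 9), (nat_lit 4), (nat_lit 1), (0, 0, 0), [], 18⟩,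
  ⟨⟨1, 0, 0, 0, -1, 0, 0, 0, 1⟩, .nil, (nat_lit 18), (nat_lit 14), (nat_lit 2), (nat_lit 1), (0, 0, 0), [], 10⟩,
  ⟨⟨1, 0, 0, 0, -1, 0, 0, 0, 1⟩, .nil, (nat_lit 18), (nat_lit 14), (nat_lit 2), (nat_lit 1), (0, 0, 0), [], 10⟩,
  mz]

theorem v_ty : tyb Dm S.ty1 Clm = true := by decide +kernel

theorem v_ty0 : tyb D0 (S.tys.getD 0 0) Cl0 = true := by decide +kernel

theorem v_ty1 : tyb D1 (S.tys.getD 1 0) Cl1 = true := by decide +kernel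

theorem v_msc : mscb S D0 [D1] Dm (nat_lit 262) = true := by decide +kernel

theorem v_mv0 : mvsn (nat_lit 2240034241) S D0 [D1] Dm (nat_lit 262) 0 D0 = true := by decide +kernel

theorem v_mv1 : mvsn (nat_lit 2240034241) S D0 [D1] Dm (nat_lit 262) 1 D1 = true := by decide +kernel

theorem v_mm : mmsn (nat_lit 2240034241) S D0 [D1] Dm (nat_lit 262) = true := by decide +kernel

theorem v_un : unb S D0 (nat_lit 262) U = true := by decide +kernel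

theorem v_ok : okb S.oks [(0, 0, 0), (0, 0, 0), (0, 3, 0)] = true := by decide +kernel

theorem v_part : ∀ d < D0.p, (nat_lit 262).testBit d = true → part S (zc (D0 :: [D1])) d = true := by
  intro d hd h
  have h1 : ∀ d < 19, (nat_lit 262).testBit d = true → d = 1 ∨ d = 2 ∨ d = 8 := by decide
  rcases h1 d hd h with rfl | rfl | rfl
  · exact part_1
  · exact part_2
  · exact part_8

theorem main (n : ℕ) (ho : Odd n) (hr : ¬ Rep n) (h0 : Split 19 n) (h1 : Split 53 n) (hm : Split 47 n) :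
    n ∈ EE := by
  refine concln (W := nat_lit 2240034241) (S := S) (P0 := D0) (Pl := [D1]) (Pm := Dm) (cn := nat_lit 262) ?_ Dm_ok v_ty ?_ ?_ v_msc ?_ v_mm v_un v_part v_ok
    n ho hr ?_ hm
  · simp only [List.forall_mem_cons]
    exact ⟨D0_ok, D1_ok, fun _ h => absurd h (by simp)⟩
  · exact all2 (φ := fun j P => ∃ L, tyb P (S.tys.getD j 0) L = true) ⟨_, v_ty0⟩ ⟨_, v_ty1⟩
  · exact all2 (φ := fun j P => Nat.ble (S.pks.getD j 0) (Nat.pow P.p P.K) = true) (by decide +kernel) (by decide +kernel)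
  · exact all2 (φ := fun i P => mvsn (nat_lit 2240034241) S D0 [D1] Dm (nat_lit 262) i P = true) v_mv0 v_mv1
  · simp only [List.forall_mem_cons]
    exact ⟨h0, h1, fun _ h => absurd h (by simp)⟩

end Pool.Agent.Work.MP_9954fe_nt.P19_53_47

namespace Pool.Agent.Work.MP_9954fe_nt.P31_43_53

/-- Dummy move. -/
noncomputable def mz : Mv := ⟨⟨0, 0, 0, 0, 0, 0, 0, 0, 0⟩, .nil, (nat_lit 0), (nat_lit 0), (nat_lit 0), (nat_lit 0), (0, 0, 0), [], 0⟩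

/-- Moves. -/
noncomputable def t0_1 : List Mv := [
  ⟨⟨3, 20, 29, -4, 25, -18, 26, 8, -7⟩, (.cons (nat_lit 874268) (nat_lit 408568) (nat_lit 660332) (nat_lit 1)
 (.cons (nat_lit 2031669) (nat_lit 2051759) (nat_lit 697453) (nat_lit 1) .nil)), (nat_lit 31), (nat_lit 5),
 (nat_lit 37), (nat_lit 1), (26, 17, 29), [537057, 2925666], 4⟩,
  ⟨⟨23, -12, -36, -4, 25, -18, 26, 8, -7⟩, (.cons (nat_lit 62853) (nat_lit 638527) (nat_lit 805292) (nat_lit 1)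
 (.cons (nat_lit 668301) (nat_lit 915628) (nat_lit 1123153) (nat_lit 1) .nil)), (nat_lit 36), (nat_lit 15),
 (nat_lit 19), (nat_lit 1), (3, 17, 29), [170912, 338657], 19⟩,
  ⟨⟨3, 20, 29, -4, 25, -18, 26, 8, -7⟩, (.cons (nat_lit 874268) (nat_lit 408568) (nat_lit 660332) (nat_lit 1)
 (.cons (nat_lit 2031669) (nat_lit 2051759) (nat_lit 697453) (nat_lit 1) .nil)), (nat_lit 31), (nat_lit 5),
 (nat_lit 37), (nat_lit 1), (26, 17, 29), [537057, 2925666], 4⟩,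
  ⟨⟨3, 20, 29, -4, 25, -18, 26, 8, -7⟩, (.cons (nat_lit 874268) (nat_lit 408568) (nat_lit 660332) (nat_lit 1)
 (.cons (nat_lit 2031669) (nat_lit 2051759) (nat_lit 697453) (nat_lit 1) .nil)), (nat_lit 31), (nat_lit 5),
 (nat_lit 37), (nat_lit 1), (26, 17, 29), [537057, 2925666], 4⟩,
  ⟨⟨23, -12, -36, -4, 25, -18, 26, 8, -7⟩, (.cons (nat_lit 62853) (nat_lit 638527) (nat_lit 805292) (nat_lit 1)
 (.cons (nat_lit 668301) (nat_lit 915628) (nat_lit 1123153) (nat_lit 1) .nil)), (nat_lit 36), (nat_lit 15),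
 (nat_lit 19), (nat_lit 1), (3, 17, 29), [170912, 338657], 19⟩,
  ⟨⟨3, 20, 29, -4, 25, -18, 26, 8, -7⟩, (.cons (nat_lit 874268) (nat_lit 408568) (nat_lit 660332) (nat_lit 1)
 (.cons (nat_lit 2031669) (nat_lit 2051759) (nat_lit 697453) (nat_lit 1) .nil)), (nat_lit 31), (nat_lit 5),
 (nat_lit 37), (nat_lit 1), (26, 17, 29), [537057, 2925666], 4⟩,
  ⟨⟨3, 20, 29, -4, 25, -18, 26, 8, -7⟩, (.cons (nat_lit 874268) (nat_lit 408568) (nat_lit 660332) (nat_lit 1)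
 (.cons (nat_lit 2031669) (nat_lit 2051759) (nat_lit 697453) (nat_lit 1) .nil)), (nat_lit 31), (nat_lit 5),
 (nat_lit 37), (nat_lit 1), (26, 17, 29), [537057, 2925666], 4⟩,
  ⟨⟨23, -12, -36, 4, -25, 18, 26, 8, -7⟩, (.cons (nat_lit 248673) (nat_lit 428752) (nat_lit 744046) (nat_lit 1)
 (.cons (nat_lit 621541) (nat_lit 3108670) (nat_lit 1184119) (nat_lit 1) .nil)), (nat_lit 20), (nat_lit 12),
 (nat_lit 38), (nat_lit 1), (3, 14, 29), [26410, 2602855], 1⟩,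
  ⟨⟨3, 20, 29, -4, 25, -18, 26, 8, -7⟩, (.cons (nat_lit 874268) (nat_lit 408568) (nat_lit 660332) (nat_lit 1)
 (.cons (nat_lit 2031669) (nat_lit 2051759) (nat_lit 697453) (nat_lit 1) .nil)), (nat_lit 31), (nat_lit 5),
 (nat_lit 37), (nat_lit 1), (26, 17, 29), [537057, 2925666], 4⟩,
  ⟨⟨23, -12, -36, 4, -25, 18, 26, 8, -7⟩, (.cons (nat_lit 248673) (nat_lit 428752) (nat_lit 744046) (nat_lit 1)
 (.cons (nat_lit 621541) (nat_lit 3108670) (nat_lit 1184119) (nat_lit 1) .nil)), (nat_lit 20), (nat_lit 12),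
 (nat_lit 38), (nat_lit 1), (3, 14, 29), [26410, 2602855], 1⟩,
  ⟨⟨3, 20, 29, -4, 25, -18, 26, 8, -7⟩, (.cons (nat_lit 874268) (nat_lit 408568) (nat_lit 660332) (nat_lit 1)
 (.cons (nat_lit 2031669) (nat_lit 2051759) (nat_lit 697453) (nat_lit 1) .nil)), (nat_lit 31), (nat_lit 5),
 (nat_lit 37), (nat_lit 1), (26, 17, 29), [537057, 2925666], 4⟩,
  ⟨⟨23, -12, -36, -4, 25, -18, 26, 8, -7⟩, (.cons (nat_lit 62853) (nat_lit 638527) (nat_lit 805292) (nat_lit 1)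
 (.cons (nat_lit 668301) (nat_lit 915628) (nat_lit 1123153) (nat_lit 1) .nil)), (nat_lit 36), (nat_lit 15),
 (nat_lit 19), (nat_lit 1), (3, 17, 29), [170912, 338657], 19⟩,
  ⟨⟨3, 20, 29, -4, 25, -18, 26, 8, -7⟩, (.cons (nat_lit 874268) (nat_lit 408568) (nat_lit 660332) (nat_lit 1)
 (.cons (nat_lit 2031669) (nat_lit 2051759) (nat_lit 697453) (nat_lit 1) .nil)), (nat_lit 31), (nat_lit 5),
 (nat_lit 37), (nat_lit 1), (26, 17, 29), [537057, 2925666], 4⟩,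
  ⟨⟨23, -12, -36, 4, -25, 18, 26, 8, -7⟩, (.cons (nat_lit 248673) (nat_lit 428752) (nat_lit 744046) (nat_lit 1)
 (.cons (nat_lit 621541) (nat_lit 3108670) (nat_lit 1184119) (nat_lit 1) .nil)), (nat_lit 20), (nat_lit 12),
 (nat_lit 38), (nat_lit 1), (3, 14, 29), [26410, 2602855], 1⟩,
  ⟨⟨3, 20, 29, -4, 25, -18, 26, 8, -7⟩, (.cons (nat_lit 874268) (nat_lit 408568) (nat_lit 660332) (nat_lit 1)
 (.cons (nat_lit 2031669) (nat_lit 2051759) (nat_lit 697453) (nat_lit 1) .nil)), (nat_lit 31), (nat_lit 5),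
 (nat_lit 37), (nat_lit 1), (26, 17, 29), [537057, 2925666], 4⟩,
  ⟨⟨3, 20, 29, -4, 25, -18, 26, 8, -7⟩, (.cons (nat_lit 874268) (nat_lit 408568) (nat_lit 660332) (nat_lit 1)
 (.cons (nat_lit 2031669) (nat_lit 2051759) (nat_lit 697453) (nat_lit 1) .nil)), (nat_lit 31), (nat_lit 5),
 (nat_lit 37), (nat_lit 1), (26, 17, 29), [537057, 2925666], 4⟩,
  ⟨⟨23, -12, -36, -4, 25, -18, 26, 8, -7⟩, (.cons (nat_lit 62853) (nat_lit 638527) (nat_lit 805292) (nat_lit 1)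
 (.cons (nat_lit 668301) (nat_lit 915628) (nat_lit 1123153) (nat_lit 1) .nil)), (nat_lit 36), (nat_lit 15),
 (nat_lit 19), (nat_lit 1), (3, 17, 29), [170912, 338657], 19⟩,
  ⟨⟨3, 20, 29, -4, 25, -18, 26, 8, -7⟩, (.cons (nat_lit 874268) (nat_lit 408568) (nat_lit 660332) (nat_lit 1)
 (.cons (nat_lit 2031669) (nat_lit 2051759) (nat_lit 697453) (nat_lit 1) .nil)), (nat_lit 31), (nat_lit 5),
 (nat_lit 37), (nat_lit 1), (26, 17, 29), [537057, 2925666], 4⟩,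
  ⟨⟨23, -12, -36, -4, 25, -18, 26, 8, -7⟩, (.cons (nat_lit 62853) (nat_lit 638527) (nat_lit 805292) (nat_lit 1)
 (.cons (nat_lit 668301) (nat_lit 915628) (nat_lit 1123153) (nat_lit 1) .nil)), (nat_lit 36), (nat_lit 15),
 (nat_lit 19), (nat_lit 1), (3, 17, 29), [170912, 338657], 19⟩,
  ⟨⟨3, 20, 29, 4, -25, 18, 26, 8, -7⟩, (.cons (nat_lit 446117) (nat_lit 138005) (nat_lit 349873) (nat_lit 1)
 (.cons (nat_lit 3333255) (nat_lit 1131345) (nat_lit 1869238) (nat_lit 1) .nil)), (nat_lit 23), (nat_lit 4),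
 (nat_lit 13), (nat_lit 1), (26, 14, 29), [671195, 819602], 2⟩,
  ⟨⟨3, 20, 29, 4, -25, 18, 26, 8, -7⟩, (.cons (nat_lit 446117) (nat_lit 138005) (nat_lit 349873) (nat_lit 1)
 (.cons (nat_lit 3333255) (nat_lit 1131345) (nat_lit 1869238) (nat_lit 1) .nil)), (nat_lit 23), (nat_lit 4),
 (nat_lit 13), (nat_lit 1), (26, 14, 29), [671195, 819602], 2⟩,
  ⟨⟨3, 20, 29, -4, 25, -18, 26, 8, -7⟩, (.cons (nat_lit 874268) (nat_lit 408568) (nat_lit 660332) (nat_lit 1)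
 (.cons (nat_lit 2031669) (nat_lit 2051759) (nat_lit 697453) (nat_lit 1) .nil)), (nat_lit 31), (nat_lit 5),
 (nat_lit 37), (nat_lit 1), (26, 17, 29), [537057, 2925666], 4⟩,
  ⟨⟨3, 20, 29, -4, 25, -18, 26, 8, -7⟩, (.cons (nat_lit 874268) (nat_lit 408568) (nat_lit 660332) (nat_lit 1)
 (.cons (nat_lit 2031669) (nat_lit 2051759) (nat_lit 697453) (nat_lit 1) .nil)), (nat_lit 31), (nat_lit 5),
 (nat_lit 37), (nat_lit 1), (26, 17, 29), [537057, 2925666], 4⟩,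
  ⟨⟨3, 20, 29, 4, -25, 18, 26, 8, -7⟩, (.cons (nat_lit 446117) (nat_lit 138005) (nat_lit 349873) (nat_lit 1)
 (.cons (nat_lit 3333255) (nat_lit 1131345) (nat_lit 1869238) (nat_lit 1) .nil)), (nat_lit 23), (nat_lit 4),
 (nat_lit 13), (nat_lit 1), (26, 14, 29), [671195, 819602], 2⟩,
  ⟨⟨3, 20, 29, -4, 25, -18, 26, 8, -7⟩, (.cons (nat_lit 874268) (nat_lit 408568) (nat_lit 660332) (nat_lit 1)
 (.cons (nat_lit 2031669) (nat_lit 2051759) (nat_lit 697453) (nat_lit 1) .nil)), (nat_lit 31), (nat_lit 5),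
 (nat_lit 37), (nat_lit 1), (26, 17, 29), [537057, 2925666], 4⟩,
  ⟨⟨23, -12, -36, 4, -25, 18, 26, 8, -7⟩, (.cons (nat_lit 248673) (nat_lit 428752) (nat_lit 744046) (nat_lit 1)
 (.cons (nat_lit 621541) (nat_lit 3108670) (nat_lit 1184119) (nat_lit 1) .nil)), (nat_lit 20), (nat_lit 12),
 (nat_lit 38), (nat_lit 1), (3, 14, 29), [26410, 2602855], 1⟩,
  ⟨⟨3, 20, 29, 4, -25, 18, 26, 8, -7⟩, (.cons (nat_lit 446117) (nat_lit 138005) (nat_lit 349873) (nat_lit 1)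
 (.cons (nat_lit 3333255) (nat_lit 1131345) (nat_lit 1869238) (nat_lit 1) .nil)), (nat_lit 23), (nat_lit 4),
 (nat_lit 13), (nat_lit 1), (26, 14, 29), [671195, 819602], 2⟩,
  ⟨⟨3, 20, 29, -4, 25, -18, 26, 8, -7⟩, (.cons (nat_lit 874268) (nat_lit 408568) (nat_lit 660332) (nat_lit 1)
 (.cons (nat_lit 2031669) (nat_lit 2051759) (nat_lit 697453) (nat_lit 1) .nil)), (nat_lit 31), (nat_lit 5),
 (nat_lit 37), (nat_lit 1), (26, 17, 29), [537057, 2925666], 4⟩,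
  ⟨⟨23, -12, -36, 4, -25, 18, 26, 8, -7⟩, (.cons (nat_lit 248673) (nat_lit 428752) (nat_lit 744046) (nat_lit 1)
 (.cons (nat_lit 621541) (nat_lit 3108670) (nat_lit 1184119) (nat_lit 1) .nil)), (nat_lit 20), (nat_lit 12),
 (nat_lit 38), (nat_lit 1), (3, 14, 29), [26410, 2602855], 1⟩,
  ⟨⟨3, 20, 29, 4, -25, 18, 26, 8, -7⟩, (.cons (nat_lit 446117) (nat_lit 138005) (nat_lit 349873) (nat_lit 1)
 (.cons (nat_lit 3333255) (nat_lit 1131345) (nat_lit 1869238) (nat_lit 1) .nil)), (nat_lit 23), (nat_lit 4),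
 (nat_lit 13), (nat_lit 1), (26, 14, 29), [671195, 819602], 2⟩,
  ⟨⟨3, 20, 29, -4, 25, -18, 26, 8, -7⟩, (.cons (nat_lit 874268) (nat_lit 408568) (nat_lit 660332) (nat_lit 1)
 (.cons (nat_lit 2031669) (nat_lit 2051759) (nat_lit 697453) (nat_lit 1) .nil)), (nat_lit 31), (nat_lit 5),
 (nat_lit 37), (nat_lit 1), (26, 17, 29), [537057, 2925666], 4⟩]

/-- Moves. -/
noncomputable def t0_4 : List Mv := [
  ⟨⟨-33, 8, 17, 4, 15, 28, -6, 24, -11⟩, (.cons (nat_lit 784049) (nat_lit 406848) (nat_lit 368240) (nat_lit 1)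
 (.cons (nat_lit 140009) (nat_lit 1515586) (nat_lit 3052643) (nat_lit 1) .nil)), (nat_lit 22), (nat_lit 46),
 (nat_lit 6), (nat_lit 1), (23, 16, 7), [347233, 3394149], 23⟩,
  ⟨⟨27, 16, -28, -4, -15, -28, -6, 24, -11⟩, (.cons (nat_lit 287127) (nat_lit 339787) (nat_lit 502393) (nat_lit
 1) (.cons (nat_lit 2772863) (nat_lit 3031119) (nat_lit 23247) (nat_lit 1) .nil)), (nat_lit 47), (nat_lit 52),
 (nat_lit 12), (nat_lit 1), (15, 15, 7), [69039, 1818082], 27⟩,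
  ⟨⟨27, 16, -28, -4, -15, -28, -6, 24, -11⟩, (.cons (nat_lit 287127) (nat_lit 339787) (nat_lit 502393) (nat_lit
 1) (.cons (nat_lit 2772863) (nat_lit 3031119) (nat_lit 23247) (nat_lit 1) .nil)), (nat_lit 47), (nat_lit 52),
 (nat_lit 12), (nat_lit 1), (15, 15, 7), [69039, 1818082], 27⟩,
  ⟨⟨27, 16, -28, -4, -15, -28, -6, 24, -11⟩, (.cons (nat_lit 287127) (nat_lit 339787) (nat_lit 502393) (nat_lit
 1) (.cons (nat_lit 2772863) (nat_lit 3031119) (nat_lit 23247) (nat_lit 1) .nil)), (nat_lit 47), (nat_lit 52),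
 (nat_lit 12), (nat_lit 1), (15, 15, 7), [69039, 1818082], 27⟩,
  ⟨⟨-33, 8, 17, -4, -15, -28, -6, 24, -11⟩, (.cons (nat_lit 834846) (nat_lit 358312) (nat_lit 388240) (nat_lit
 1) (.cons (nat_lit 2300621) (nat_lit 940361) (nat_lit 3155582) (nat_lit 1) .nil)), (nat_lit 40), (nat_lit 24),
 (nat_lit 42), (nat_lit 1), (23, 15, 7), [247804, 3258539], 10⟩,
  ⟨⟨-33, 8, 17, 4, 15, 28, -6, 24, -11⟩, (.cons (nat_lit 784049) (nat_lit 406848) (nat_lit 368240) (nat_lit 1)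
 (.cons (nat_lit 140009) (nat_lit 1515586) (nat_lit 3052643) (nat_lit 1) .nil)), (nat_lit 22), (nat_lit 46),
 (nat_lit 6), (nat_lit 1), (23, 16, 7), [347233, 3394149], 23⟩,
  ⟨⟨-33, 8, 17, -4, -15, -28, -6, 24, -11⟩, (.cons (nat_lit 834846) (nat_lit 358312) (nat_lit 388240) (nat_lit
 1) (.cons (nat_lit 2300621) (nat_lit 940361) (nat_lit 3155582) (nat_lit 1) .nil)), (nat_lit 40), (nat_lit 24),
 (nat_lit 42), (nat_lit 1), (23, 15, 7), [247804, 3258539], 10⟩,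
  ⟨⟨27, 16, -28, -4, -15, -28, -6, 24, -11⟩, (.cons (nat_lit 287127) (nat_lit 339787) (nat_lit 502393) (nat_lit
 1) (.cons (nat_lit 2772863) (nat_lit 3031119) (nat_lit 23247) (nat_lit 1) .nil)), (nat_lit 47), (nat_lit 52),
 (nat_lit 12), (nat_lit 1), (15, 15, 7), [69039, 1818082], 27⟩,
  ⟨⟨27, 16, -28, -4, -15, -28, -6, 24, -11⟩, (.cons (nat_lit 287127) (nat_lit 339787) (nat_lit 502393) (nat_lit
 1) (.cons (nat_lit 2772863) (nat_lit 3031119) (nat_lit 23247) (nat_lit 1) .nil)), (nat_lit 47), (nat_lit 52),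
 (nat_lit 12), (nat_lit 1), (15, 15, 7), [69039, 1818082], 27⟩,
  ⟨⟨27, 16, -28, -4, -15, -28, -6, 24, -11⟩, (.cons (nat_lit 287127) (nat_lit 339787) (nat_lit 502393) (nat_lit
 1) (.cons (nat_lit 2772863) (nat_lit 3031119) (nat_lit 23247) (nat_lit 1) .nil)), (nat_lit 47), (nat_lit 52),
 (nat_lit 12), (nat_lit 1), (15, 15, 7), [69039, 1818082], 27⟩,
  ⟨⟨27, 16, -28, -4, -15, -28, -6, 24, -11⟩, (.cons (nat_lit 287127) (nat_lit 339787) (nat_lit 502393) (nat_lit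
 1) (.cons (nat_lit 2772863) (nat_lit 3031119) (nat_lit 23247) (nat_lit 1) .nil)), (nat_lit 47), (nat_lit 52),
 (nat_lit 12), (nat_lit 1), (15, 15, 7), [69039, 1818082], 27⟩,
  ⟨⟨27, 16, -28, -4, -15, -28, -6, 24, -11⟩, (.cons (nat_lit 287127) (nat_lit 339787) (nat_lit 502393) (nat_lit
 1) (.cons (nat_lit 2772863) (nat_lit 3031119) (nat_lit 23247) (nat_lit 1) .nil)), (nat_lit 47), (nat_lit 52),
 (nat_lit 12), (nat_lit 1), (15, 15, 7), [69039, 1818082], 27⟩,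
  ⟨⟨27, 16, -28, 4, 15, 28, -6, 24, -11⟩, (.cons (nat_lit 48462) (nat_lit 824621) (nat_lit 704764) (nat_lit 1)
 (.cons (nat_lit 3418800) (nat_lit 3126049) (nat_lit 1122115) (nat_lit 1) .nil)), (nat_lit 52), (nat_lit 29),
 (nat_lit 37), (nat_lit 1), (15, 16, 7), [615892, 1207040], 10⟩,
  ⟨⟨27, 16, -28, -4, -15, -28, -6, 24, -11⟩, (.cons (nat_lit 287127) (nat_lit 339787) (nat_lit 502393) (nat_lit
 1) (.cons (nat_lit 2772863) (nat_lit 3031119) (nat_lit 23247) (nat_lit 1) .nil)), (nat_lit 47), (nat_lit 52),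
 (nat_lit 12), (nat_lit 1), (15, 15, 7), [69039, 1818082], 27⟩,
  ⟨⟨27, 16, -28, -4, -15, -28, -6, 24, -11⟩, (.cons (nat_lit 287127) (nat_lit 339787) (nat_lit 502393) (nat_lit
 1) (.cons (nat_lit 2772863) (nat_lit 3031119) (nat_lit 23247) (nat_lit 1) .nil)), (nat_lit 47), (nat_lit 52),
 (nat_lit 12), (nat_lit 1), (15, 15, 7), [69039, 1818082], 27⟩,
  ⟨⟨-33, 8, 17, 4, 15, 28, -6, 24, -11⟩, (.cons (nat_lit 784049) (nat_lit 406848) (nat_lit 368240) (nat_lit 1)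
 (.cons (nat_lit 140009) (nat_lit 1515586) (nat_lit 3052643) (nat_lit 1) .nil)), (nat_lit 22), (nat_lit 46),
 (nat_lit 6), (nat_lit 1), (23, 16, 7), [347233, 3394149], 23⟩,
  ⟨⟨27, 16, -28, -4, -15, -28, -6, 24, -11⟩, (.cons (nat_lit 287127) (nat_lit 339787) (nat_lit 502393) (nat_lit
 1) (.cons (nat_lit 2772863) (nat_lit 3031119) (nat_lit 23247) (nat_lit 1) .nil)), (nat_lit 47), (nat_lit 52),
 (nat_lit 12), (nat_lit 1), (15, 15, 7), [69039, 1818082], 27⟩,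
  ⟨⟨27, 16, -28, -4, -15, -28, -6, 24, -11⟩, (.cons (nat_lit 287127) (nat_lit 339787) (nat_lit 502393) (nat_lit
 1) (.cons (nat_lit 2772863) (nat_lit 3031119) (nat_lit 23247) (nat_lit 1) .nil)), (nat_lit 47), (nat_lit 52),
 (nat_lit 12), (nat_lit 1), (15, 15, 7), [69039, 1818082], 27⟩,
  ⟨⟨27, 16, -28, -4, -15, -28, -6, 24, -11⟩, (.cons (nat_lit 287127) (nat_lit 339787) (nat_lit 502393) (nat_lit
 1) (.cons (nat_lit 2772863) (nat_lit 3031119) (nat_lit 23247) (nat_lit 1) .nil)), (nat_lit 47), (nat_lit 52),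
 (nat_lit 12), (nat_lit 1), (15, 15, 7), [69039, 1818082], 27⟩,
  ⟨⟨27, 16, -28, -4, -15, -28, -6, 24, -11⟩, (.cons (nat_lit 287127) (nat_lit 339787) (nat_lit 502393) (nat_lit
 1) (.cons (nat_lit 2772863) (nat_lit 3031119) (nat_lit 23247) (nat_lit 1) .nil)), (nat_lit 47), (nat_lit 52),
 (nat_lit 12), (nat_lit 1), (15, 15, 7), [69039, 1818082], 27⟩,
  ⟨⟨27, 16, -28, 4, 15, 28, -6, 24, -11⟩, (.cons (nat_lit 48462) (nat_lit 824621) (nat_lit 704764) (nat_lit 1)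
 (.cons (nat_lit 3418800) (nat_lit 3126049) (nat_lit 1122115) (nat_lit 1) .nil)), (nat_lit 52), (nat_lit 29),
 (nat_lit 37), (nat_lit 1), (15, 16, 7), [615892, 1207040], 10⟩,
  ⟨⟨-33, 8, 17, -4, -15, -28, -6, 24, -11⟩, (.cons (nat_lit 834846) (nat_lit 358312) (nat_lit 388240) (nat_lit
 1) (.cons (nat_lit 2300621) (nat_lit 940361) (nat_lit 3155582) (nat_lit 1) .nil)), (nat_lit 40), (nat_lit 24),
 (nat_lit 42), (nat_lit 1), (23, 15, 7), [247804, 3258539], 10⟩,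
  ⟨⟨27, 16, -28, -4, -15, -28, -6, 24, -11⟩, (.cons (nat_lit 287127) (nat_lit 339787) (nat_lit 502393) (nat_lit
 1) (.cons (nat_lit 2772863) (nat_lit 3031119) (nat_lit 23247) (nat_lit 1) .nil)), (nat_lit 47), (nat_lit 52),
 (nat_lit 12), (nat_lit 1), (15, 15, 7), [69039, 1818082], 27⟩,
  ⟨⟨27, 16, -28, -4, -15, -28, -6, 24, -11⟩, (.cons (nat_lit 287127) (nat_lit 339787) (nat_lit 502393) (nat_lit
 1) (.cons (nat_lit 2772863) (nat_lit 3031119) (nat_lit 23247) (nat_lit 1) .nil)), (nat_lit 47), (nat_lit 52),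
 (nat_lit 12), (nat_lit 1), (15, 15, 7), [69039, 1818082], 27⟩,
  ⟨⟨27, 16, -28, 4, 15, 28, -6, 24, -11⟩, (.cons (nat_lit 48462) (nat_lit 824621) (nat_lit 704764) (nat_lit 1)
 (.cons (nat_lit 3418800) (nat_lit 3126049) (nat_lit 1122115) (nat_lit 1) .nil)), (nat_lit 52), (nat_lit 29),
 (nat_lit 37), (nat_lit 1), (15, 16, 7), [615892, 1207040], 10⟩,
  ⟨⟨-33, 8, 17, 4, 15, 28, -6, 24, -11⟩, (.cons (nat_lit 784049) (nat_lit 406848) (nat_lit 368240) (nat_lit 1)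
 (.cons (nat_lit 140009) (nat_lit 1515586) (nat_lit 3052643) (nat_lit 1) .nil)), (nat_lit 22), (nat_lit 46),
 (nat_lit 6), (nat_lit 1), (23, 16, 7), [347233, 3394149], 23⟩,
  ⟨⟨-33, 8, 17, -4, -15, -28, -6, 24, -11⟩, (.cons (nat_lit 834846) (nat_lit 358312) (nat_lit 388240) (nat_lit
 1) (.cons (nat_lit 2300621) (nat_lit 940361) (nat_lit 3155582) (nat_lit 1) .nil)), (nat_lit 40), (nat_lit 24),
 (nat_lit 42), (nat_lit 1), (23, 15, 7), [247804, 3258539], 10⟩,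
  ⟨⟨-33, 8, 17, -4, -15, -28, -6, 24, -11⟩, (.cons (nat_lit 834846) (nat_lit 358312) (nat_lit 388240) (nat_lit
 1) (.cons (nat_lit 2300621) (nat_lit 940361) (nat_lit 3155582) (nat_lit 1) .nil)), (nat_lit 40), (nat_lit 24),
 (nat_lit 42), (nat_lit 1), (23, 15, 7), [247804, 3258539], 10⟩,
  ⟨⟨-33, 8, 17, 4, 15, 28, -6, 24, -11⟩, (.cons (nat_lit 784049) (nat_lit 406848) (nat_lit 368240) (nat_lit 1)
 (.cons (nat_lit 140009) (nat_lit 1515586) (nat_lit 3052643) (nat_lit 1) .nil)), (nat_lit 22), (nat_lit 46),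
 (nat_lit 6), (nat_lit 1), (23, 16, 7), [347233, 3394149], 23⟩,
  ⟨⟨27, 16, -28, 4, 15, 28, -6, 24, -11⟩, (.cons (nat_lit 48462) (nat_lit 824621) (nat_lit 704764) (nat_lit 1)
 (.cons (nat_lit 3418800) (nat_lit 3126049) (nat_lit 1122115) (nat_lit 1) .nil)), (nat_lit 52), (nat_lit 29),
 (nat_lit 37), (nat_lit 1), (15, 16, 7), [615892, 1207040], 10⟩,
  ⟨⟨27, 16, -28, -4, -15, -28, -6, 24, -11⟩, (.cons (nat_lit 287127) (nat_lit 339787) (nat_lit 502393) (nat_lit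
 1) (.cons (nat_lit 2772863) (nat_lit 3031119) (nat_lit 23247) (nat_lit 1) .nil)), (nat_lit 47), (nat_lit 52),
 (nat_lit 12), (nat_lit 1), (15, 15, 7), [69039, 1818082], 27⟩]

/-- Moves. -/
noncomputable def t0_6 : List Mv := [
  ⟨⟨1, -12, 35, -16, -25, -2, 22, -16, -5⟩, (.cons (nat_lit 376541) (nat_lit 474676) (nat_lit 547793) (nat_lit
 1) (.cons (nat_lit 1739073) (nat_lit 2182003) (nat_lit 358537) (nat_lit 1) .nil)), (nat_lit 46), (nat_lit 24),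
 (nat_lit 14), (nat_lit 1), (1, 15, 22), [912191, 919878], 20⟩,
  ⟨⟨21, -4, -40, 16, 25, 2, 22, -16, -5⟩, (.cons (nat_lit 677072) (nat_lit 527740) (nat_lit 226916) (nat_lit 1)
 (.cons (nat_lit 2284693) (nat_lit 2875602) (nat_lit 2096002) (nat_lit 1) .nil)), (nat_lit 35), (nat_lit 29),
 (nat_lit 24), (nat_lit 1), (21, 16, 22), [71781, 2058026], 20⟩,
  ⟨⟨1, -12, 35, -16, -25, -2, 22, -16, -5⟩, (.cons (nat_lit 376541) (nat_lit 474676) (nat_lit 547793) (nat_lit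
 1) (.cons (nat_lit 1739073) (nat_lit 2182003) (nat_lit 358537) (nat_lit 1) .nil)), (nat_lit 46), (nat_lit 24),
 (nat_lit 14), (nat_lit 1), (1, 15, 22), [912191, 919878], 20⟩,
  ⟨⟨1, -12, 35, -16, -25, -2, 22, -16, -5⟩, (.cons (nat_lit 376541) (nat_lit 474676) (nat_lit 547793) (nat_lit
 1) (.cons (nat_lit 1739073) (nat_lit 2182003) (nat_lit 358537) (nat_lit 1) .nil)), (nat_lit 46), (nat_lit 24),
 (nat_lit 14), (nat_lit 1), (1, 15, 22), [912191, 919878], 20⟩,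
  ⟨⟨1, -12, 35, -16, -25, -2, 22, -16, -5⟩, (.cons (nat_lit 376541) (nat_lit 474676) (nat_lit 547793) (nat_lit
 1) (.cons (nat_lit 1739073) (nat_lit 2182003) (nat_lit 358537) (nat_lit 1) .nil)), (nat_lit 46), (nat_lit 24),
 (nat_lit 14), (nat_lit 1), (1, 15, 22), [912191, 919878], 20⟩,
  ⟨⟨21, -4, -40, -16, -25, -2, 22, -16, -5⟩, (.cons (nat_lit 262436) (nat_lit 721453) (nat_lit 61834) (nat_lit
 1) (.cons (nat_lit 2786032) (nat_lit 1900718) (nat_lit 3193914) (nat_lit 1) .nil)), (nat_lit 20), (nat_lit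
 52), (nat_lit 21), (nat_lit 1), (21, 15, 22), [303982, 1431664], 1⟩,
  ⟨⟨21, -4, -40, 16, 25, 2, 22, -16, -5⟩, (.cons (nat_lit 677072) (nat_lit 527740) (nat_lit 226916) (nat_lit 1)
 (.cons (nat_lit 2284693) (nat_lit 2875602) (nat_lit 2096002) (nat_lit 1) .nil)), (nat_lit 35), (nat_lit 29),
 (nat_lit 24), (nat_lit 1), (21, 16, 22), [71781, 2058026], 20⟩,
  ⟨⟨21, -4, -40, -16, -25, -2, 22, -16, -5⟩, (.cons (nat_lit 262436) (nat_lit 721453) (nat_lit 61834) (nat_lit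
 1) (.cons (nat_lit 2786032) (nat_lit 1900718) (nat_lit 3193914) (nat_lit 1) .nil)), (nat_lit 20), (nat_lit
 52), (nat_lit 21), (nat_lit 1), (21, 15, 22), [303982, 1431664], 1⟩,
  ⟨⟨1, -12, 35, -16, -25, -2, 22, -16, -5⟩, (.cons (nat_lit 376541) (nat_lit 474676) (nat_lit 547793) (nat_lit
 1) (.cons (nat_lit 1739073) (nat_lit 2182003) (nat_lit 358537) (nat_lit 1) .nil)), (nat_lit 46), (nat_lit 24),
 (nat_lit 14), (nat_lit 1), (1, 15, 22), [912191, 919878], 20⟩,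
  ⟨⟨1, -12, 35, -16, -25, -2, 22, -16, -5⟩, (.cons (nat_lit 376541) (nat_lit 474676) (nat_lit 547793) (nat_lit
 1) (.cons (nat_lit 1739073) (nat_lit 2182003) (nat_lit 358537) (nat_lit 1) .nil)), (nat_lit 46), (nat_lit 24),
 (nat_lit 14), (nat_lit 1), (1, 15, 22), [912191, 919878], 20⟩,
  ⟨⟨1, -12, 35, -16, -25, -2, 22, -16, -5⟩, (.cons (nat_lit 376541) (nat_lit 474676) (nat_lit 547793) (nat_lit
 1) (.cons (nat_lit 1739073) (nat_lit 2182003) (nat_lit 358537) (nat_lit 1) .nil)), (nat_lit 46), (nat_lit 24),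
 (nat_lit 14), (nat_lit 1), (1, 15, 22), [912191, 919878], 20⟩,
  ⟨⟨21, -4, -40, -16, -25, -2, 22, -16, -5⟩, (.cons (nat_lit 262436) (nat_lit 721453) (nat_lit 61834) (nat_lit
 1) (.cons (nat_lit 2786032) (nat_lit 1900718) (nat_lit 3193914) (nat_lit 1) .nil)), (nat_lit 20), (nat_lit
 52), (nat_lit 21), (nat_lit 1), (21, 15, 22), [303982, 1431664], 1⟩,
  ⟨⟨1, -12, 35, -16, -25, -2, 22, -16, -5⟩, (.cons (nat_lit 376541) (nat_lit 474676) (nat_lit 547793) (nat_lit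
 1) (.cons (nat_lit 1739073) (nat_lit 2182003) (nat_lit 358537) (nat_lit 1) .nil)), (nat_lit 46), (nat_lit 24),
 (nat_lit 14), (nat_lit 1), (1, 15, 22), [912191, 919878], 20⟩,
  ⟨⟨1, -12, 35, -16, -25, -2, 22, -16, -5⟩, (.cons (nat_lit 376541) (nat_lit 474676) (nat_lit 547793) (nat_lit
 1) (.cons (nat_lit 1739073) (nat_lit 2182003) (nat_lit 358537) (nat_lit 1) .nil)), (nat_lit 46), (nat_lit 24),
 (nat_lit 14), (nat_lit 1), (1, 15, 22), [912191, 919878], 20⟩,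
  ⟨⟨1, -12, 35, 16, 25, 2, 22, -16, -5⟩, (.cons (nat_lit 112872) (nat_lit 816616) (nat_lit 629921) (nat_lit 1)
 (.cons (nat_lit 2046267) (nat_lit 1577994) (nat_lit 698) (nat_lit 1) .nil)), (nat_lit 12), (nat_lit 46),
 (nat_lit 33), (nat_lit 1), (1, 16, 22), [410422, 2591527], 46⟩,
  ⟨⟨21, -4, -40, -16, -25, -2, 22, -16, -5⟩, (.cons (nat_lit 262436) (nat_lit 721453) (nat_lit 61834) (nat_lit
 1) (.cons (nat_lit 2786032) (nat_lit 1900718) (nat_lit 3193914) (nat_lit 1) .nil)), (nat_lit 20), (nat_lit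
 52), (nat_lit 21), (nat_lit 1), (21, 15, 22), [303982, 1431664], 1⟩,
  ⟨⟨21, -4, -40, 16, 25, 2, 22, -16, -5⟩, (.cons (nat_lit 677072) (nat_lit 527740) (nat_lit 226916) (nat_lit 1)
 (.cons (nat_lit 2284693) (nat_lit 2875602) (nat_lit 2096002) (nat_lit 1) .nil)), (nat_lit 35), (nat_lit 29),
 (nat_lit 24), (nat_lit 1), (21, 16, 22), [71781, 2058026], 20⟩,
  ⟨⟨1, -12, 35, -16, -25, -2, 22, -16, -5⟩, (.cons (nat_lit 376541) (nat_lit 474676) (nat_lit 547793) (nat_lit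
 1) (.cons (nat_lit 1739073) (nat_lit 2182003) (nat_lit 358537) (nat_lit 1) .nil)), (nat_lit 46), (nat_lit 24),
 (nat_lit 14), (nat_lit 1), (1, 15, 22), [912191, 919878], 20⟩,
  ⟨⟨21, -4, -40, -16, -25, -2, 22, -16, -5⟩, (.cons (nat_lit 262436) (nat_lit 721453) (nat_lit 61834) (nat_lit
 1) (.cons (nat_lit 2786032) (nat_lit 1900718) (nat_lit 3193914) (nat_lit 1) .nil)), (nat_lit 20), (nat_lit
 52), (nat_lit 21), (nat_lit 1), (21, 15, 22), [303982, 1431664], 1⟩,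
  ⟨⟨21, -4, -40, 16, 25, 2, 22, -16, -5⟩, (.cons (nat_lit 677072) (nat_lit 527740) (nat_lit 226916) (nat_lit 1)
 (.cons (nat_lit 2284693) (nat_lit 2875602) (nat_lit 2096002) (nat_lit 1) .nil)), (nat_lit 35), (nat_lit 29),
 (nat_lit 24), (nat_lit 1), (21, 16, 22), [71781, 2058026], 20⟩,
  ⟨⟨1, -12, 35, -16, -25, -2, 22, -16, -5⟩, (.cons (nat_lit 376541) (nat_lit 474676) (nat_lit 547793) (nat_lit
 1) (.cons (nat_lit 1739073) (nat_lit 2182003) (nat_lit 358537) (nat_lit 1) .nil)), (nat_lit 46), (nat_lit 24),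
 (nat_lit 14), (nat_lit 1), (1, 15, 22), [912191, 919878], 20⟩,
  ⟨⟨1, -12, 35, -16, -25, -2, 22, -16, -5⟩, (.cons (nat_lit 376541) (nat_lit 474676) (nat_lit 547793) (nat_lit
 1) (.cons (nat_lit 1739073) (nat_lit 2182003) (nat_lit 358537) (nat_lit 1) .nil)), (nat_lit 46), (nat_lit 24),
 (nat_lit 14), (nat_lit 1), (1, 15, 22), [912191, 919878], 20⟩,
  ⟨⟨1, -12, 35, -16, -25, -2, 22, -16, -5⟩, (.cons (nat_lit 376541) (nat_lit 474676) (nat_lit 547793) (nat_lit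
 1) (.cons (nat_lit 1739073) (nat_lit 2182003) (nat_lit 358537) (nat_lit 1) .nil)), (nat_lit 46), (nat_lit 24),
 (nat_lit 14), (nat_lit 1), (1, 15, 22), [912191, 919878], 20⟩,
  ⟨⟨1, -12, 35, 16, 25, 2, 22, -16, -5⟩, (.cons (nat_lit 112872) (nat_lit 816616) (nat_lit 629921) (nat_lit 1)
 (.cons (nat_lit 2046267) (nat_lit 1577994) (nat_lit 698) (nat_lit 1) .nil)), (nat_lit 12), (nat_lit 46),
 (nat_lit 33), (nat_lit 1), (1, 16, 22), [410422, 2591527], 46⟩,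
  ⟨⟨1, -12, 35, 16, 25, 2, 22, -16, -5⟩, (.cons (nat_lit 112872) (nat_lit 816616) (nat_lit 629921) (nat_lit 1)
 (.cons (nat_lit 2046267) (nat_lit 1577994) (nat_lit 698) (nat_lit 1) .nil)), (nat_lit 12), (nat_lit 46),
 (nat_lit 33), (nat_lit 1), (1, 16, 22), [410422, 2591527], 46⟩,
  ⟨⟨1, -12, 35, -16, -25, -2, 22, -16, -5⟩, (.cons (nat_lit 376541) (nat_lit 474676) (nat_lit 547793) (nat_lit
 1) (.cons (nat_lit 1739073) (nat_lit 2182003) (nat_lit 358537) (nat_lit 1) .nil)), (nat_lit 46), (nat_lit 24),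
 (nat_lit 14), (nat_lit 1), (1, 15, 22), [912191, 919878], 20⟩,
  ⟨⟨21, -4, -40, 16, 25, 2, 22, -16, -5⟩, (.cons (nat_lit 677072) (nat_lit 527740) (nat_lit 226916) (nat_lit 1)
 (.cons (nat_lit 2284693) (nat_lit 2875602) (nat_lit 2096002) (nat_lit 1) .nil)), (nat_lit 35), (nat_lit 29),
 (nat_lit 24), (nat_lit 1), (21, 16, 22), [71781, 2058026], 20⟩,
  ⟨⟨1, -12, 35, -16, -25, -2, 22, -16, -5⟩, (.cons (nat_lit 376541) (nat_lit 474676) (nat_lit 547793) (nat_lit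
 1) (.cons (nat_lit 1739073) (nat_lit 2182003) (nat_lit 358537) (nat_lit 1) .nil)), (nat_lit 46), (nat_lit 24),
 (nat_lit 14), (nat_lit 1), (1, 15, 22), [912191, 919878], 20⟩,
  ⟨⟨1, -12, 35, -16, -25, -2, 22, -16, -5⟩, (.cons (nat_lit 376541) (nat_lit 474676) (nat_lit 547793) (nat_lit
 1) (.cons (nat_lit 1739073) (nat_lit 2182003) (nat_lit 358537) (nat_lit 1) .nil)), (nat_lit 46), (nat_lit 24),
 (nat_lit 14), (nat_lit 1), (1, 15, 22), [912191, 919878], 20⟩,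
  ⟨⟨1, -12, 35, 16, 25, 2, 22, -16, -5⟩, (.cons (nat_lit 112872) (nat_lit 816616) (nat_lit 629921) (nat_lit 1)
 (.cons (nat_lit 2046267) (nat_lit 1577994) (nat_lit 698) (nat_lit 1) .nil)), (nat_lit 12), (nat_lit 46),
 (nat_lit 33), (nat_lit 1), (1, 16, 22), [410422, 2591527], 46⟩,
  ⟨⟨1, -12, 35, -16, -25, -2, 22, -16, -5⟩, (.cons (nat_lit 376541) (nat_lit 474676) (nat_lit 547793) (nat_lit
 1) (.cons (nat_lit 1739073) (nat_lit 2182003) (nat_lit 358537) (nat_lit 1) .nil)), (nat_lit 46), (nat_lit 24),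
 (nat_lit 14), (nat_lit 1), (1, 15, 22), [912191, 919878], 20⟩]

/-- Moves. -/
noncomputable def t0_8 : List Mv := [
  ⟨⟨-31, 0, 0, 10, 19, -30, -4, -20, -19⟩, (.cons (nat_lit 703073) (nat_lit 546912) (nat_lit 87888) (nat_lit 1)
 (.cons (nat_lit 3418800) (nat_lit 25936) (nat_lit 1485685) (nat_lit 1) .nil)), (nat_lit 52), (nat_lit 30),
 (nat_lit 9), (nat_lit 1), (0, 5, 29), [198704, 883205], 26⟩,
  ⟨⟨-31, 0, 0, -10, -19, 30, -4, -20, -19⟩, (.cons (nat_lit 405997) (nat_lit 648594) (nat_lit 94709) (nat_lit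
 1) (.cons (nat_lit 2166100) (nat_lit 1722094) (nat_lit 2950193) (nat_lit 1) .nil)), (nat_lit 27), (nat_lit 7),
 (nat_lit 50), (nat_lit 1), (0, 26, 29), [207355, 1132568], 49⟩,
  ⟨⟨-31, 0, 0, -10, -19, 30, -4, -20, -19⟩, (.cons (nat_lit 405997) (nat_lit 648594) (nat_lit 94709) (nat_lit
 1) (.cons (nat_lit 2166100) (nat_lit 1722094) (nat_lit 2950193) (nat_lit 1) .nil)), (nat_lit 27), (nat_lit 7),
 (nat_lit 50), (nat_lit 1), (0, 26, 29), [207355, 1132568], 49⟩,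
  ⟨⟨-31, 0, 0, -10, -19, 30, -4, -20, -19⟩, (.cons (nat_lit 405997) (nat_lit 648594) (nat_lit 94709) (nat_lit
 1) (.cons (nat_lit 2166100) (nat_lit 1722094) (nat_lit 2950193) (nat_lit 1) .nil)), (nat_lit 27), (nat_lit 7),
 (nat_lit 50), (nat_lit 1), (0, 26, 29), [207355, 1132568], 49⟩,
  ⟨⟨-31, 0, 0, 10, 19, -30, -4, -20, -19⟩, (.cons (nat_lit 703073) (nat_lit 546912) (nat_lit 87888) (nat_lit 1)
 (.cons (nat_lit 3418800) (nat_lit 25936) (nat_lit 1485685) (nat_lit 1) .nil)), (nat_lit 52), (nat_lit 30),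
 (nat_lit 9), (nat_lit 1), (0, 5, 29), [198704, 883205], 26⟩,
  ⟨⟨-31, 0, 0, 10, 19, -30, -4, -20, -19⟩, (.cons (nat_lit 703073) (nat_lit 546912) (nat_lit 87888) (nat_lit 1)
 (.cons (nat_lit 3418800) (nat_lit 25936) (nat_lit 1485685) (nat_lit 1) .nil)), (nat_lit 52), (nat_lit 30),
 (nat_lit 9), (nat_lit 1), (0, 5, 29), [198704, 883205], 26⟩,
  ⟨⟨-31, 0, 0, -10, -19, 30, -4, -20, -19⟩, (.cons (nat_lit 405997) (nat_lit 648594) (nat_lit 94709) (nat_lit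
 1) (.cons (nat_lit 2166100) (nat_lit 1722094) (nat_lit 2950193) (nat_lit 1) .nil)), (nat_lit 27), (nat_lit 7),
 (nat_lit 50), (nat_lit 1), (0, 26, 29), [207355, 1132568], 49⟩,
  ⟨⟨27, -20, -19, 10, 19, -30, -4, -20, -19⟩, (.cons (nat_lit 830371) (nat_lit 566503) (nat_lit 715629)
 (nat_lit 1) (.cons (nat_lit 1009555) (nat_lit 2453186) (nat_lit 3299640) (nat_lit 1) .nil)), (nat_lit 50),
 (nat_lit 1), (nat_lit 19), (nat_lit 1), (29, 5, 29), [666999, 757129], 46⟩,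
  ⟨⟨27, -20, -19, -10, -19, 30, -4, -20, -19⟩, (.cons (nat_lit 4112) (nat_lit 599309) (nat_lit 228553) (nat_lit
 1) (.cons (nat_lit 680801) (nat_lit 1018597) (nat_lit 1599262) (nat_lit 1) .nil)), (nat_lit 18), (nat_lit 2),
 (nat_lit 30), (nat_lit 1), (29, 26, 29), [921913, 2425191], 23⟩,
  ⟨⟨27, -20, -19, 10, 19, -30, -4, -20, -19⟩, (.cons (nat_lit 830371) (nat_lit 566503) (nat_lit 715629)
 (nat_lit 1) (.cons (nat_lit 1009555) (nat_lit 2453186) (nat_lit 3299640) (nat_lit 1) .nil)), (nat_lit 50),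
 (nat_lit 1), (nat_lit 19), (nat_lit 1), (29, 5, 29), [666999, 757129], 46⟩,
  ⟨⟨-31, 0, 0, 10, 19, -30, -4, -20, -19⟩, (.cons (nat_lit 703073) (nat_lit 546912) (nat_lit 87888) (nat_lit 1)
 (.cons (nat_lit 3418800) (nat_lit 25936) (nat_lit 1485685) (nat_lit 1) .nil)), (nat_lit 52), (nat_lit 30),
 (nat_lit 9), (nat_lit 1), (0, 5, 29), [198704, 883205], 26⟩,
  ⟨⟨-31, 0, 0, 10, 19, -30, -4, -20, -19⟩, (.cons (nat_lit 703073) (nat_lit 546912) (nat_lit 87888) (nat_lit 1)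
 (.cons (nat_lit 3418800) (nat_lit 25936) (nat_lit 1485685) (nat_lit 1) .nil)), (nat_lit 52), (nat_lit 30),
 (nat_lit 9), (nat_lit 1), (0, 5, 29), [198704, 883205], 26⟩,
  ⟨⟨27, -20, -19, -10, -19, 30, -4, -20, -19⟩, (.cons (nat_lit 4112) (nat_lit 599309) (nat_lit 228553) (nat_lit
 1) (.cons (nat_lit 680801) (nat_lit 1018597) (nat_lit 1599262) (nat_lit 1) .nil)), (nat_lit 18), (nat_lit 2),
 (nat_lit 30), (nat_lit 1), (29, 26, 29), [921913, 2425191], 23⟩,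
  ⟨⟨27, -20, -19, -10, -19, 30, -4, -20, -19⟩, (.cons (nat_lit 4112) (nat_lit 599309) (nat_lit 228553) (nat_lit
 1) (.cons (nat_lit 680801) (nat_lit 1018597) (nat_lit 1599262) (nat_lit 1) .nil)), (nat_lit 18), (nat_lit 2),
 (nat_lit 30), (nat_lit 1), (29, 26, 29), [921913, 2425191], 23⟩,
  ⟨⟨-31, 0, 0, 10, 19, -30, -4, -20, -19⟩, (.cons (nat_lit 703073) (nat_lit 546912) (nat_lit 87888) (nat_lit 1)
 (.cons (nat_lit 3418800) (nat_lit 25936) (nat_lit 1485685) (nat_lit 1) .nil)), (nat_lit 52), (nat_lit 30),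
 (nat_lit 9), (nat_lit 1), (0, 5, 29), [198704, 883205], 26⟩,
  ⟨⟨-31, 0, 0, 10, 19, -30, -4, -20, -19⟩, (.cons (nat_lit 703073) (nat_lit 546912) (nat_lit 87888) (nat_lit 1)
 (.cons (nat_lit 3418800) (nat_lit 25936) (nat_lit 1485685) (nat_lit 1) .nil)), (nat_lit 52), (nat_lit 30),
 (nat_lit 9), (nat_lit 1), (0, 5, 29), [198704, 883205], 26⟩,
  ⟨⟨27, -20, -19, -10, -19, 30, -4, -20, -19⟩, (.cons (nat_lit 4112) (nat_lit 599309) (nat_lit 228553) (nat_lit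
 1) (.cons (nat_lit 680801) (nat_lit 1018597) (nat_lit 1599262) (nat_lit 1) .nil)), (nat_lit 18), (nat_lit 2),
 (nat_lit 30), (nat_lit 1), (29, 26, 29), [921913, 2425191], 23⟩,
  ⟨⟨-31, 0, 0, -10, -19, 30, -4, -20, -19⟩, (.cons (nat_lit 405997) (nat_lit 648594) (nat_lit 94709) (nat_lit
 1) (.cons (nat_lit 2166100) (nat_lit 1722094) (nat_lit 2950193) (nat_lit 1) .nil)), (nat_lit 27), (nat_lit 7),
 (nat_lit 50), (nat_lit 1), (0, 26, 29), [207355, 1132568], 49⟩,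
  ⟨⟨27, -20, -19, 10, 19, -30, -4, -20, -19⟩, (.cons (nat_lit 830371) (nat_lit 566503) (nat_lit 715629)
 (nat_lit 1) (.cons (nat_lit 1009555) (nat_lit 2453186) (nat_lit 3299640) (nat_lit 1) .nil)), (nat_lit 50),
 (nat_lit 1), (nat_lit 19), (nat_lit 1), (29, 5, 29), [666999, 757129], 46⟩,
  ⟨⟨27, -20, -19, 10, 19, -30, -4, -20, -19⟩, (.cons (nat_lit 830371) (nat_lit 566503) (nat_lit 715629)
 (nat_lit 1) (.cons (nat_lit 1009555) (nat_lit 2453186) (nat_lit 3299640) (nat_lit 1) .nil)), (nat_lit 50),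
 (nat_lit 1), (nat_lit 19), (nat_lit 1), (29, 5, 29), [666999, 757129], 46⟩,
  ⟨⟨-31, 0, 0, 10, 19, -30, -4, -20, -19⟩, (.cons (nat_lit 703073) (nat_lit 546912) (nat_lit 87888) (nat_lit 1)
 (.cons (nat_lit 3418800) (nat_lit 25936) (nat_lit 1485685) (nat_lit 1) .nil)), (nat_lit 52), (nat_lit 30),
 (nat_lit 9), (nat_lit 1), (0, 5, 29), [198704, 883205], 26⟩,
  ⟨⟨-31, 0, 0, 10, 19, -30, -4, -20, -19⟩, (.cons (nat_lit 703073) (nat_lit 546912) (nat_lit 87888) (nat_lit 1)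
 (.cons (nat_lit 3418800) (nat_lit 25936) (nat_lit 1485685) (nat_lit 1) .nil)), (nat_lit 52), (nat_lit 30),
 (nat_lit 9), (nat_lit 1), (0, 5, 29), [198704, 883205], 26⟩,
  ⟨⟨27, -20, -19, -10, -19, 30, -4, -20, -19⟩, (.cons (nat_lit 4112) (nat_lit 599309) (nat_lit 228553) (nat_lit
 1) (.cons (nat_lit 680801) (nat_lit 1018597) (nat_lit 1599262) (nat_lit 1) .nil)), (nat_lit 18), (nat_lit 2),
 (nat_lit 30), (nat_lit 1), (29, 26, 29), [921913, 2425191], 23⟩,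
  ⟨⟨-31, 0, 0, 10, 19, -30, -4, -20, -19⟩, (.cons (nat_lit 703073) (nat_lit 546912) (nat_lit 87888) (nat_lit 1)
 (.cons (nat_lit 3418800) (nat_lit 25936) (nat_lit 1485685) (nat_lit 1) .nil)), (nat_lit 52), (nat_lit 30),
 (nat_lit 9), (nat_lit 1), (0, 5, 29), [198704, 883205], 26⟩,
  ⟨⟨-31, 0, 0, 10, 19, -30, -4, -20, -19⟩, (.cons (nat_lit 703073) (nat_lit 546912) (nat_lit 87888) (nat_lit 1)
 (.cons (nat_lit 3418800) (nat_lit 25936) (nat_lit 1485685) (nat_lit 1) .nil)), (nat_lit 52), (nat_lit 30),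
 (nat_lit 9), (nat_lit 1), (0, 5, 29), [198704, 883205], 26⟩,
  ⟨⟨-31, 0, 0, 10, 19, -30, -4, -20, -19⟩, (.cons (nat_lit 703073) (nat_lit 546912) (nat_lit 87888) (nat_lit 1)
 (.cons (nat_lit 3418800) (nat_lit 25936) (nat_lit 1485685) (nat_lit 1) .nil)), (nat_lit 52), (nat_lit 30),
 (nat_lit 9), (nat_lit 1), (0, 5, 29), [198704, 883205], 26⟩,
  ⟨⟨-31, 0, 0, 10, 19, -30, -4, -20, -19⟩, (.cons (nat_lit 703073) (nat_lit 546912) (nat_lit 87888) (nat_lit 1)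
 (.cons (nat_lit 3418800) (nat_lit 25936) (nat_lit 1485685) (nat_lit 1) .nil)), (nat_lit 52), (nat_lit 30),
 (nat_lit 9), (nat_lit 1), (0, 5, 29), [198704, 883205], 26⟩,
  ⟨⟨-31, 0, 0, 10, 19, -30, -4, -20, -19⟩, (.cons (nat_lit 703073) (nat_lit 546912) (nat_lit 87888) (nat_lit 1)
 (.cons (nat_lit 3418800) (nat_lit 25936) (nat_lit 1485685) (nat_lit 1) .nil)), (nat_lit 52), (nat_lit 30),
 (nat_lit 9), (nat_lit 1), (0, 5, 29), [198704, 883205], 26⟩,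
  ⟨⟨-31, 0, 0, 10, 19, -30, -4, -20, -19⟩, (.cons (nat_lit 703073) (nat_lit 546912) (nat_lit 87888) (nat_lit 1)
 (.cons (nat_lit 3418800) (nat_lit 25936) (nat_lit 1485685) (nat_lit 1) .nil)), (nat_lit 52), (nat_lit 30),
 (nat_lit 9), (nat_lit 1), (0, 5, 29), [198704, 883205], 26⟩,
  ⟨⟨27, -20, -19, 10, 19, -30, -4, -20, -19⟩, (.cons (nat_lit 830371) (nat_lit 566503) (nat_lit 715629)
 (nat_lit 1) (.cons (nat_lit 1009555) (nat_lit 2453186) (nat_lit 3299640) (nat_lit 1) .nil)), (nat_lit 50),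
 (nat_lit 1), (nat_lit 19), (nat_lit 1), (29, 5, 29), [666999, 757129], 46⟩,
  ⟨⟨-31, 0, 0, 10, 19, -30, -4, -20, -19⟩, (.cons (nat_lit 703073) (nat_lit 546912) (nat_lit 87888) (nat_lit 1)
 (.cons (nat_lit 3418800) (nat_lit 25936) (nat_lit 1485685) (nat_lit 1) .nil)), (nat_lit 52), (nat_lit 30),
 (nat_lit 9), (nat_lit 1), (0, 5, 29), [198704, 883205], 26⟩]

/-- Moves. -/
noncomputable def t0_19 : List Mv := [
  ⟨⟨-9, 8, -31, -10, -29, 0, 20, -4, -31⟩, (.cons (nat_lit 528090) (nat_lit 14735) (nat_lit 903999) (nat_lit 1)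
 (.cons (nat_lit 2553298) (nat_lit 3352902) (nat_lit 2535146) (nat_lit 1) .nil)), (nat_lit 8), (nat_lit 47),
 (nat_lit 4), (nat_lit 1), (2, 16, 30), [877313, 2419962], 15⟩,
  ⟨⟨-9, 8, -31, -10, -29, 0, 20, -4, -31⟩, (.cons (nat_lit 528090) (nat_lit 14735) (nat_lit 903999) (nat_lit 1)
 (.cons (nat_lit 2553298) (nat_lit 3352902) (nat_lit 2535146) (nat_lit 1) .nil)), (nat_lit 8), (nat_lit 47),
 (nat_lit 4), (nat_lit 1), (2, 16, 30), [877313, 2419962], 15⟩,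
  ⟨⟨-9, 8, -31, -10, -29, 0, 20, -4, -31⟩, (.cons (nat_lit 528090) (nat_lit 14735) (nat_lit 903999) (nat_lit 1)
 (.cons (nat_lit 2553298) (nat_lit 3352902) (nat_lit 2535146) (nat_lit 1) .nil)), (nat_lit 8), (nat_lit 47),
 (nat_lit 4), (nat_lit 1), (2, 16, 30), [877313, 2419962], 15⟩,
  ⟨⟨-9, 8, -31, -10, -29, 0, 20, -4, -31⟩, (.cons (nat_lit 528090) (nat_lit 14735) (nat_lit 903999) (nat_lit 1)
 (.cons (nat_lit 2553298) (nat_lit 3352902) (nat_lit 2535146) (nat_lit 1) .nil)), (nat_lit 8), (nat_lit 47),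
 (nat_lit 4), (nat_lit 1), (2, 16, 30), [877313, 2419962], 15⟩,
  ⟨⟨29, -12, 0, 10, 29, 0, 20, -4, -31⟩, (.cons (nat_lit 884659) (nat_lit 910208) (nat_lit 489940) (nat_lit 1)
 (.cons (nat_lit 2295801) (nat_lit 2400228) (nat_lit 2562656) (nat_lit 1) .nil)), (nat_lit 13), (nat_lit 43),
 (nat_lit 34), (nat_lit 1), (28, 15, 30), [296465, 1792141], 28⟩,
  ⟨⟨-9, 8, -31, -10, -29, 0, 20, -4, -31⟩, (.cons (nat_lit 528090) (nat_lit 14735) (nat_lit 903999) (nat_lit 1)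
 (.cons (nat_lit 2553298) (nat_lit 3352902) (nat_lit 2535146) (nat_lit 1) .nil)), (nat_lit 8), (nat_lit 47),
 (nat_lit 4), (nat_lit 1), (2, 16, 30), [877313, 2419962], 15⟩,
  ⟨⟨-9, 8, -31, -10, -29, 0, 20, -4, -31⟩, (.cons (nat_lit 528090) (nat_lit 14735) (nat_lit 903999) (nat_lit 1)
 (.cons (nat_lit 2553298) (nat_lit 3352902) (nat_lit 2535146) (nat_lit 1) .nil)), (nat_lit 8), (nat_lit 47),
 (nat_lit 4), (nat_lit 1), (2, 16, 30), [877313, 2419962], 15⟩,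
  ⟨⟨29, -12, 0, 10, 29, 0, 20, -4, -31⟩, (.cons (nat_lit 884659) (nat_lit 910208) (nat_lit 489940) (nat_lit 1)
 (.cons (nat_lit 2295801) (nat_lit 2400228) (nat_lit 2562656) (nat_lit 1) .nil)), (nat_lit 13), (nat_lit 43),
 (nat_lit 34), (nat_lit 1), (28, 15, 30), [296465, 1792141], 28⟩,
  ⟨⟨29, -12, 0, 10, 29, 0, 20, -4, -31⟩, (.cons (nat_lit 884659) (nat_lit 910208) (nat_lit 489940) (nat_lit 1)
 (.cons (nat_lit 2295801) (nat_lit 2400228) (nat_lit 2562656) (nat_lit 1) .nil)), (nat_lit 13), (nat_lit 43),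
 (nat_lit 34), (nat_lit 1), (28, 15, 30), [296465, 1792141], 28⟩,
  ⟨⟨-9, 8, -31, -10, -29, 0, 20, -4, -31⟩, (.cons (nat_lit 528090) (nat_lit 14735) (nat_lit 903999) (nat_lit 1)
 (.cons (nat_lit 2553298) (nat_lit 3352902) (nat_lit 2535146) (nat_lit 1) .nil)), (nat_lit 8), (nat_lit 47),
 (nat_lit 4), (nat_lit 1), (2, 16, 30), [877313, 2419962], 15⟩,
  ⟨⟨-9, 8, -31, 10, 29, 0, 20, -4, -31⟩, (.cons (nat_lit 318883) (nat_lit 474188) (nat_lit 28556) (nat_lit 1)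
 (.cons (nat_lit 934359) (nat_lit 2908380) (nat_lit 1527388) (nat_lit 1) .nil)), (nat_lit 24), (nat_lit 44),
 (nat_lit 24), (nat_lit 1), (2, 15, 30), [71257, 1378782], 20⟩,
  ⟨⟨-9, 8, -31, -10, -29, 0, 20, -4, -31⟩, (.cons (nat_lit 528090) (nat_lit 14735) (nat_lit 903999) (nat_lit 1)
 (.cons (nat_lit 2553298) (nat_lit 3352902) (nat_lit 2535146) (nat_lit 1) .nil)), (nat_lit 8), (nat_lit 47),
 (nat_lit 4), (nat_lit 1), (2, 16, 30), [877313, 2419962], 15⟩,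
  ⟨⟨-9, 8, -31, 10, 29, 0, 20, -4, -31⟩, (.cons (nat_lit 318883) (nat_lit 474188) (nat_lit 28556) (nat_lit 1)
 (.cons (nat_lit 934359) (nat_lit 2908380) (nat_lit 1527388) (nat_lit 1) .nil)), (nat_lit 24), (nat_lit 44),
 (nat_lit 24), (nat_lit 1), (2, 15, 30), [71257, 1378782], 20⟩,
  ⟨⟨-9, 8, -31, 10, 29, 0, 20, -4, -31⟩, (.cons (nat_lit 318883) (nat_lit 474188) (nat_lit 28556) (nat_lit 1)
 (.cons (nat_lit 934359) (nat_lit 2908380) (nat_lit 1527388) (nat_lit 1) .nil)), (nat_lit 24), (nat_lit 44),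
 (nat_lit 24), (nat_lit 1), (2, 15, 30), [71257, 1378782], 20⟩,
  ⟨⟨-9, 8, -31, -10, -29, 0, 20, -4, -31⟩, (.cons (nat_lit 528090) (nat_lit 14735) (nat_lit 903999) (nat_lit 1)
 (.cons (nat_lit 2553298) (nat_lit 3352902) (nat_lit 2535146) (nat_lit 1) .nil)), (nat_lit 8), (nat_lit 47),
 (nat_lit 4), (nat_lit 1), (2, 16, 30), [877313, 2419962], 15⟩,
  ⟨⟨-9, 8, -31, 10, 29, 0, 20, -4, -31⟩, (.cons (nat_lit 318883) (nat_lit 474188) (nat_lit 28556) (nat_lit 1)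
 (.cons (nat_lit 934359) (nat_lit 2908380) (nat_lit 1527388) (nat_lit 1) .nil)), (nat_lit 24), (nat_lit 44),
 (nat_lit 24), (nat_lit 1), (2, 15, 30), [71257, 1378782], 20⟩,
  ⟨⟨29, -12, 0, 10, 29, 0, 20, -4, -31⟩, (.cons (nat_lit 884659) (nat_lit 910208) (nat_lit 489940) (nat_lit 1)
 (.cons (nat_lit 2295801) (nat_lit 2400228) (nat_lit 2562656) (nat_lit 1) .nil)), (nat_lit 13), (nat_lit 43),
 (nat_lit 34), (nat_lit 1), (28, 15, 30), [296465, 1792141], 28⟩,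
  ⟨⟨-9, 8, -31, 10, 29, 0, 20, -4, -31⟩, (.cons (nat_lit 318883) (nat_lit 474188) (nat_lit 28556) (nat_lit 1)
 (.cons (nat_lit 934359) (nat_lit 2908380) (nat_lit 1527388) (nat_lit 1) .nil)), (nat_lit 24), (nat_lit 44),
 (nat_lit 24), (nat_lit 1), (2, 15, 30), [71257, 1378782], 20⟩,
  ⟨⟨29, -12, 0, -10, -29, 0, 20, -4, -31⟩, (.cons (nat_lit 96517) (nat_lit 144252) (nat_lit 734177) (nat_lit 1)
 (.cons (nat_lit 3418800) (nat_lit 300077) (nat_lit 2451124) (nat_lit 1) .nil)), (nat_lit 52), (nat_lit 11),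
 (nat_lit 15), (nat_lit 1), (28, 16, 30), [213630, 2911968], 48⟩,
  ⟨⟨29, -12, 0, -10, -29, 0, 20, -4, -31⟩, (.cons (nat_lit 96517) (nat_lit 144252) (nat_lit 734177) (nat_lit 1)
 (.cons (nat_lit 3418800) (nat_lit 300077) (nat_lit 2451124) (nat_lit 1) .nil)), (nat_lit 52), (nat_lit 11),
 (nat_lit 15), (nat_lit 1), (28, 16, 30), [213630, 2911968], 48⟩,
  ⟨⟨-9, 8, -31, -10, -29, 0, 20, -4, -31⟩, (.cons (nat_lit 528090) (nat_lit 14735) (nat_lit 903999) (nat_lit 1)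
 (.cons (nat_lit 2553298) (nat_lit 3352902) (nat_lit 2535146) (nat_lit 1) .nil)), (nat_lit 8), (nat_lit 47),
 (nat_lit 4), (nat_lit 1), (2, 16, 30), [877313, 2419962], 15⟩,
  ⟨⟨-9, 8, -31, -10, -29, 0, 20, -4, -31⟩, (.cons (nat_lit 528090) (nat_lit 14735) (nat_lit 903999) (nat_lit 1)
 (.cons (nat_lit 2553298) (nat_lit 3352902) (nat_lit 2535146) (nat_lit 1) .nil)), (nat_lit 8), (nat_lit 47),
 (nat_lit 4), (nat_lit 1), (2, 16, 30), [877313, 2419962], 15⟩,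
  ⟨⟨29, -12, 0, -10, -29, 0, 20, -4, -31⟩, (.cons (nat_lit 96517) (nat_lit 144252) (nat_lit 734177) (nat_lit 1)
 (.cons (nat_lit 3418800) (nat_lit 300077) (nat_lit 2451124) (nat_lit 1) .nil)), (nat_lit 52), (nat_lit 11),
 (nat_lit 15), (nat_lit 1), (28, 16, 30), [213630, 2911968], 48⟩,
  ⟨⟨-9, 8, -31, -10, -29, 0, 20, -4, -31⟩, (.cons (nat_lit 528090) (nat_lit 14735) (nat_lit 903999) (nat_lit 1)
 (.cons (nat_lit 2553298) (nat_lit 3352902) (nat_lit 2535146) (nat_lit 1) .nil)), (nat_lit 8), (nat_lit 47),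
 (nat_lit 4), (nat_lit 1), (2, 16, 30), [877313, 2419962], 15⟩,
  ⟨⟨29, -12, 0, -10, -29, 0, 20, -4, -31⟩, (.cons (nat_lit 96517) (nat_lit 144252) (nat_lit 734177) (nat_lit 1)
 (.cons (nat_lit 3418800) (nat_lit 300077) (nat_lit 2451124) (nat_lit 1) .nil)), (nat_lit 52), (nat_lit 11),
 (nat_lit 15), (nat_lit 1), (28, 16, 30), [213630, 2911968], 48⟩,
  ⟨⟨-9, 8, -31, -10, -29, 0, 20, -4, -31⟩, (.cons (nat_lit 528090) (nat_lit 14735) (nat_lit 903999) (nat_lit 1)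
 (.cons (nat_lit 2553298) (nat_lit 3352902) (nat_lit 2535146) (nat_lit 1) .nil)), (nat_lit 8), (nat_lit 47),
 (nat_lit 4), (nat_lit 1), (2, 16, 30), [877313, 2419962], 15⟩,
  ⟨⟨29, -12, 0, 10, 29, 0, 20, -4, -31⟩, (.cons (nat_lit 884659) (nat_lit 910208) (nat_lit 489940) (nat_lit 1)
 (.cons (nat_lit 2295801) (nat_lit 2400228) (nat_lit 2562656) (nat_lit 1) .nil)), (nat_lit 13), (nat_lit 43),
 (nat_lit 34), (nat_lit 1), (28, 15, 30), [296465, 1792141], 28⟩,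
  ⟨⟨-9, 8, -31, -10, -29, 0, 20, -4, -31⟩, (.cons (nat_lit 528090) (nat_lit 14735) (nat_lit 903999) (nat_lit 1)
 (.cons (nat_lit 2553298) (nat_lit 3352902) (nat_lit 2535146) (nat_lit 1) .nil)), (nat_lit 8), (nat_lit 47),
 (nat_lit 4), (nat_lit 1), (2, 16, 30), [877313, 2419962], 15⟩,
  ⟨⟨-9, 8, -31, -10, -29, 0, 20, -4, -31⟩, (.cons (nat_lit 528090) (nat_lit 14735) (nat_lit 903999) (nat_lit 1)
 (.cons (nat_lit 2553298) (nat_lit 3352902) (nat_lit 2535146) (nat_lit 1) .nil)), (nat_lit 8), (nat_lit 47),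
 (nat_lit 4), (nat_lit 1), (2, 16, 30), [877313, 2419962], 15⟩,
  ⟨⟨-9, 8, -31, -10, -29, 0, 20, -4, -31⟩, (.cons (nat_lit 528090) (nat_lit 14735) (nat_lit 903999) (nat_lit 1)
 (.cons (nat_lit 2553298) (nat_lit 3352902) (nat_lit 2535146) (nat_lit 1) .nil)), (nat_lit 8), (nat_lit 47),
 (nat_lit 4), (nat_lit 1), (2, 16, 30), [877313, 2419962], 15⟩,
  ⟨⟨-9, 8, -31, -10, -29, 0, 20, -4, -31⟩, (.cons (nat_lit 528090) (nat_lit 14735) (nat_lit 903999) (nat_lit 1)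
 (.cons (nat_lit 2553298) (nat_lit 3352902) (nat_lit 2535146) (nat_lit 1) .nil)), (nat_lit 8), (nat_lit 47),
 (nat_lit 4), (nat_lit 1), (2, 16, 30), [877313, 2419962], 15⟩]

/-- Moves. -/
noncomputable def t1_1 : List Mv := [
  mz,
  ⟨⟨33, -32, -5, -2, -15, -44, 36, 12, -25⟩, (.cons (nat_lit 24557) (nat_lit 886086) (nat_lit 127667) (nat_lit
 1) (.cons (nat_lit 2677034) (nat_lit 1639807) (nat_lit 2765582) (nat_lit 1) .nil)), (nat_lit 33), (nat_lit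
 26), (nat_lit 22), (nat_lit 1), (9, 19, 2), [753661, 968054], 37⟩,
  mz,
  mz,
  ⟨⟨19, 36, -36, -20, -13, -30, 34, -8, -35⟩, (.cons (nat_lit 124362) (nat_lit 897774) (nat_lit 90949) (nat_lit
 1) (.cons (nat_lit 398284) (nat_lit 640947) (nat_lit 1995287) (nat_lit 1) .nil)), (nat_lit 28), (nat_lit 34),
 (nat_lit 25), (nat_lit 1), (14, 26, 16), [140361, 1928435], 48⟩,
  ⟨⟨3, 44, 17, -2, -15, 46, 36, 12, -11⟩, (.cons (nat_lit 676207) (nat_lit 764977) (nat_lit 537724) (nat_lit 1)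
 (.cons (nat_lit 1174876) (nat_lit 630350) (nat_lit 927034) (nat_lit 1) .nil)), (nat_lit 15), (nat_lit 36),
 (nat_lit 29), (nat_lit 1), (33, 21, 9), [692503, 435100], 8⟩,
  ⟨⟨39, 16, -43, -20, 37, 0, 2, -8, -43⟩, (.cons (nat_lit 416311) (nat_lit 281140) (nat_lit 4174) (nat_lit 1)
 (.cons (nat_lit 374215) (nat_lit 2513663) (nat_lit 1389447) (nat_lit 1) .nil)), (nat_lit 8), (nat_lit 44),
 (nat_lit 49), (nat_lit 1), (35, 3, 4), [798129, 1901760], 38⟩,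
  ⟨⟨33, 8, -53, -20, -27, -20, 30, -24, -13⟩, (.cons (nat_lit 587054) (nat_lit 187200) (nat_lit 315827)
 (nat_lit 1) (.cons (nat_lit 791007) (nat_lit 726738) (nat_lit 1258269) (nat_lit 1) .nil)), (nat_lit 24),
 (nat_lit 10), (nat_lit 52), (nat_lit 1), (32, 21, 33), [96372, 983244], 22⟩,
  ⟨⟨-39, -16, -4, 20, -37, -20, -2, 8, -41⟩, (.cons (nat_lit 241493) (nat_lit 188183) (nat_lit 34847) (nat_lit
 1) (.cons (nat_lit 400346) (nat_lit 1836834) (nat_lit 423060) (nat_lit 1) .nil)), (nat_lit 6), (nat_lit 51),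
 (nat_lit 17), (nat_lit 1), (6, 30, 40), [313687, 543195], 29⟩,
  ⟨⟨-29, 0, -27, 0, -43, 0, 18, 0, -47⟩, (.cons (nat_lit 649420) (nat_lit 98627) (nat_lit 1) (nat_lit 179955)
 (.cons (nat_lit 1293439) (nat_lit 2522280) (nat_lit 1454843) (nat_lit 1) .nil)), (nat_lit 44), (nat_lit 47),
 (nat_lit 16), (nat_lit 1), (33, 0, 24), [8624, 1337266], 22⟩,
  ⟨⟨21, -20, 31, 38, 15, -34, 12, -36, -13⟩, (.cons (nat_lit 188282) (nat_lit 380110) (nat_lit 1) (nat_lit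
 297104) (.cons (nat_lit 2902922) (nat_lit 2287061) (nat_lit 2361854) (nat_lit 1) .nil)), (nat_lit 28),
 (nat_lit 33), (nat_lit 16), (nat_lit 1), (8, 37, 23), [16596, 2525774], 35⟩,
  mz,
  ⟨⟨-19, -36, -17, 20, 13, -50, -34, 8, -1⟩, (.cons (nat_lit 815783) (nat_lit 546284) (nat_lit 901871) (nat_lit
 1) (.cons (nat_lit 1337581) (nat_lit 955625) (nat_lit 2888285) (nat_lit 1) .nil)), (nat_lit 22), (nat_lit 52),
 (nat_lit 10), (nat_lit 1), (24, 20, 9), [546088, 1729010], 2⟩,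
  ⟨⟨33, 8, 20, 20, 27, -40, 30, -24, -17⟩, (.cons (nat_lit 923520) (nat_lit 612083) (nat_lit 382216) (nat_lit
 1) (.cons (nat_lit 94589) (nat_lit 1143719) (nat_lit 2900111) (nat_lit 1) .nil)), (nat_lit 52), (nat_lit 52),
 (nat_lit 2), (nat_lit 1), (4, 35, 31), [359954, 1484423], 10⟩,
  mz,
  mz,
  mz,
  ⟨⟨9, -4, -56, -40, 13, 10, 14, 32, -25⟩, (.cons (nat_lit 269604) (nat_lit 528682) (nat_lit 905270) (nat_lit
 1) (.cons (nat_lit 2705623) (nat_lit 626502) (nat_lit 1083165) (nat_lit 1) .nil)), (nat_lit 44), (nat_lit 28),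
 (nat_lit 40), (nat_lit 1), (19, 35, 20), [781481, 2314885], 1⟩,
  ⟨⟨-9, 4, -47, -40, 13, 30, -14, -32, -11⟩, (.cons (nat_lit 686979) (nat_lit 51608) (nat_lit 713166) (nat_lit
 1) (.cons (nat_lit 837340) (nat_lit 1642974) (nat_lit 1606455) (nat_lit 1) .nil)), (nat_lit 41), (nat_lit 41),
 (nat_lit 14), (nat_lit 1), (37, 2, 5), [442241, 724616], 23⟩,
  mz,
  mz,
  ⟨⟨21, 20, 31, -38, 15, 34, 12, 36, -13⟩, (.cons (nat_lit 746794) (nat_lit 97835) (nat_lit 466716) (nat_lit 1)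
 (.cons (nat_lit 2115914) (nat_lit 218525) (nat_lit 483290) (nat_lit 1) .nil)), (nat_lit 15), (nat_lit 9),
 (nat_lit 10), (nat_lit 1), (12, 9, 13), [427527, 2068446], 45⟩,
  ⟨⟨-21, 20, 52, 38, 15, -4, -12, 36, -1⟩, (.cons (nat_lit 609247) (nat_lit 750069) (nat_lit 704855) (nat_lit
 1) (.cons (nat_lit 527024) (nat_lit 1293804) (nat_lit 2000161) (nat_lit 1) .nil)), (nat_lit 16), (nat_lit 12),
 (nat_lit 49), (nat_lit 1), (12, 9, 13), [658943, 1197117], 49⟩,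
  mz,
  mz,
  ⟨⟨5, -36, 31, 40, 13, -10, 14, -32, -25⟩, (.cons (nat_lit 8114) (nat_lit 322072) (nat_lit 225490) (nat_lit 1)
 (.cons (nat_lit 2753678) (nat_lit 1482739) (nat_lit 1004290) (nat_lit 1) .nil)), (nat_lit 48), (nat_lit 6),
 (nat_lit 5), (nat_lit 1), (11, 2, 5), [534377, 814271], 21⟩,
  ⟨⟨-5, 36, 36, 40, 13, -30, -14, 32, -11⟩, (.cons (nat_lit 846013) (nat_lit 855694) (nat_lit 125580) (nat_lit
 1) (.cons (nat_lit 108531) (nat_lit 441029) (nat_lit 2746442) (nat_lit 1) .nil)), (nat_lit 48), (nat_lit 29),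
 (nat_lit 42), (nat_lit 1), (1, 35, 20), [127667, 221207], 40⟩,
  mz,
  mz,
  mz,
  ⟨⟨33, -8, -53, 20, -27, 20, 30, 24, -13⟩, (.cons (nat_lit 262422) (nat_lit 327623) (nat_lit 572304) (nat_lit
 1) (.cons (nat_lit 3057975) (nat_lit 925832) (nat_lit 88192) (nat_lit 1) .nil)), (nat_lit 24), (nat_lit 7),
 (nat_lit 44), (nat_lit 1), (39, 8, 12), [618350, 112287], 22⟩,
  ⟨⟨19, -36, -36, -20, 13, -30, 34, 8, -35⟩, (.cons (nat_lit 389016) (nat_lit 170411) (nat_lit 429304) (nat_lit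
 1) (.cons (nat_lit 2519070) (nat_lit 1996840) (nat_lit 1506087) (nat_lit 1) .nil)), (nat_lit 44), (nat_lit
 38), (nat_lit 49), (nat_lit 1), (24, 20, 9), [515749, 1010859], 1⟩,
  mz,
  ⟨⟨-21, -20, 52, 38, -15, -4, -12, -36, -1⟩, (.cons (nat_lit 127134) (nat_lit 645395) (nat_lit 197498)
 (nat_lit 1) (.cons (nat_lit 3008592) (nat_lit 3132651) (nat_lit 2852889) (nat_lit 1) .nil)), (nat_lit 13),
 (nat_lit 28), (nat_lit 25), (nat_lit 1), (8, 6, 23), [230481, 1200843], 20⟩,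
  ⟨⟨-47, 0, 27, 0, -43, 0, -18, 0, -29⟩, (.cons (nat_lit 621054) (nat_lit 56466) (nat_lit 810866) (nat_lit 1)
 (.cons (nat_lit 2962301) (nat_lit 1608527) (nat_lit 1452252) (nat_lit 1) .nil)), (nat_lit 47), (nat_lit 17),
 (nat_lit 43), (nat_lit 1), (34, 0, 24), [676240, 2337228], 50⟩,
  ⟨⟨-37, 24, 0, 20, 37, 0, 2, 8, -43⟩, (.cons (nat_lit 923520) (nat_lit 528497) (nat_lit 907112) (nat_lit 1)
 (.cons (nat_lit 2427977) (nat_lit 2517261) (nat_lit 69372) (nat_lit 1) .nil)), (nat_lit 52), (nat_lit 36),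
 (nat_lit 47), (nat_lit 1), (34, 13, 40), [379795, 515363], 23⟩,
  ⟨⟨33, -8, 20, 20, -27, -40, 30, 24, -17⟩, (.cons (nat_lit 902701) (nat_lit 770496) (nat_lit 117869) (nat_lit
 1) (.cons (nat_lit 2978673) (nat_lit 2535932) (nat_lit 3179276) (nat_lit 1) .nil)), (nat_lit 47), (nat_lit
 15), (nat_lit 37), (nat_lit 1), (11, 21, 10), [99821, 298502], 45⟩,
  ⟨⟨-39, 16, -4, 20, 37, -20, -2, -8, -41⟩, (.cons (nat_lit 923520) (nat_lit 623746) (nat_lit 589824) (nat_lit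
 1) (.cons (nat_lit 3377990) (nat_lit 2301785) (nat_lit 2863299) (nat_lit 1) .nil)), (nat_lit 52), (nat_lit
 42), (nat_lit 10), (nat_lit 1), (35, 3, 4), [662670, 881055], 23⟩,
  ⟨⟨3, -44, -20, -2, 15, -44, 36, -12, -25⟩, (.cons (nat_lit 83344) (nat_lit 191443) (nat_lit 1) (nat_lit
 242110) (.cons (nat_lit 1243679) (nat_lit 1372496) (nat_lit 1) (nat_lit 463239) .nil)), (nat_lit 8), (nat_lit
 22), (nat_lit 5), (nat_lit 1), (10, 22, 34), [893235, 3412071], 13⟩,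
  ⟨⟨-15, -44, 16, 20, -13, -50, -34, -8, -1⟩, (.cons (nat_lit 375742) (nat_lit 529395) (nat_lit 304920)
 (nat_lit 1) (.cons (nat_lit 1675946) (nat_lit 1144855) (nat_lit 435123) (nat_lit 1) .nil)), (nat_lit 35),
 (nat_lit 21), (nat_lit 38), (nat_lit 1), (2, 26, 16), [777941, 991310], 2⟩,
  mz,
  mz,
  ⟨⟨33, 32, -28, 2, -15, -46, 36, -12, -11⟩, (.cons (nat_lit 841836) (nat_lit 561781) (nat_lit 342757) (nat_lit
 1) (.cons (nat_lit 797529) (nat_lit 469261) (nat_lit 24795) (nat_lit 1) .nil)), (nat_lit 20), (nat_lit 11),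
 (nat_lit 25), (nat_lit 1), (34, 19, 41), [53471, 349163], 47⟩]

/-- Moves. -/
noncomputable def t1_4 : List Mv := [
  mz,
  ⟨⟨3, 44, -20, -2, -15, -44, 36, 12, -25⟩, (.cons (nat_lit 803045) (nat_lit 604467) (nat_lit 174004) (nat_lit
 1) (.cons (nat_lit 1645799) (nat_lit 1481520) (nat_lit 1938735) (nat_lit 1) .nil)), (nat_lit 49), (nat_lit 6),
 (nat_lit 47), (nat_lit 1), (36, 19, 2), [478643, 1559261], 2⟩,
  mz,
  mz,
  ⟨⟨19, 36, -36, -20, -13, -30, 34, -8, -35⟩, (.cons (nat_lit 124362) (nat_lit 897774) (nat_lit 90949) (nat_lit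
 1) (.cons (nat_lit 398284) (nat_lit 640947) (nat_lit 1995287) (nat_lit 1) .nil)), (nat_lit 28), (nat_lit 34),
 (nat_lit 25), (nat_lit 1), (14, 26, 16), [140361, 1928435], 48⟩,
  ⟨⟨3, 44, 17, -2, -15, 46, 36, 12, -11⟩, (.cons (nat_lit 676207) (nat_lit 764977) (nat_lit 537724) (nat_lit 1)
 (.cons (nat_lit 1174876) (nat_lit 630350) (nat_lit 927034) (nat_lit 1) .nil)), (nat_lit 15), (nat_lit 36),
 (nat_lit 29), (nat_lit 1), (33, 21, 9), [692503, 435100], 8⟩,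
  ⟨⟨39, 16, -43, 20, -37, 0, 2, -8, -43⟩, (.cons (nat_lit 816200) (nat_lit 669013) (nat_lit 43652) (nat_lit 1)
 (.cons (nat_lit 1849349) (nat_lit 3200185) (nat_lit 1916000) (nat_lit 1) .nil)), (nat_lit 31), (nat_lit 47),
 (nat_lit 16), (nat_lit 1), (35, 40, 4), [814689, 2025630], 2⟩,
  ⟨⟨33, 8, -53, -20, -27, -20, 30, -24, -13⟩, (.cons (nat_lit 587054) (nat_lit 187200) (nat_lit 315827)
 (nat_lit 1) (.cons (nat_lit 791007) (nat_lit 726738) (nat_lit 1258269) (nat_lit 1) .nil)), (nat_lit 24),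
 (nat_lit 10), (nat_lit 52), (nat_lit 1), (32, 21, 33), [96372, 983244], 22⟩,
  ⟨⟨37, 24, -37, 20, -37, -20, -2, 8, -41⟩, (.cons (nat_lit 650288) (nat_lit 223415) (nat_lit 816722) (nat_lit
 1) (.cons (nat_lit 2451070) (nat_lit 1214575) (nat_lit 2836177) (nat_lit 1) .nil)), (nat_lit 12), (nat_lit
 19), (nat_lit 20), (nat_lit 1), (34, 30, 40), [341102, 2470885], 23⟩,
  ⟨⟨-29, 0, -27, 0, -43, 0, 18, 0, -47⟩, (.cons (nat_lit 649420) (nat_lit 98627) (nat_lit 1) (nat_lit 179955)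
 (.cons (nat_lit 1293439) (nat_lit 2522280) (nat_lit 1454843) (nat_lit 1) .nil)), (nat_lit 44), (nat_lit 47),
 (nat_lit 16), (nat_lit 1), (33, 0, 24), [8624, 1337266], 22⟩,
  ⟨⟨21, -20, 31, 38, 15, -34, 12, -36, -13⟩, (.cons (nat_lit 188282) (nat_lit 380110) (nat_lit 1) (nat_lit
 297104) (.cons (nat_lit 2902922) (nat_lit 2287061) (nat_lit 2361854) (nat_lit 1) .nil)), (nat_lit 28),
 (nat_lit 33), (nat_lit 16), (nat_lit 1), (8, 37, 23), [16596, 2525774], 35⟩,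
  mz,
  ⟨⟨-15, 44, 16, 20, 13, -50, -34, 8, -1⟩, (.cons (nat_lit 47267) (nat_lit 854189) (nat_lit 335949) (nat_lit 1)
 (.cons (nat_lit 1539506) (nat_lit 79428) (nat_lit 2482881) (nat_lit 1) .nil)), (nat_lit 48), (nat_lit 24),
 (nat_lit 11), (nat_lit 1), (28, 20, 9), [198905, 1384322], 40⟩,
  ⟨⟨33, 8, 20, 20, 27, -40, 30, -24, -17⟩, (.cons (nat_lit 923520) (nat_lit 612083) (nat_lit 382216) (nat_lit
 1) (.cons (nat_lit 94589) (nat_lit 1143719) (nat_lit 2900111) (nat_lit 1) .nil)), (nat_lit 52), (nat_lit 52),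
 (nat_lit 2), (nat_lit 1), (4, 35, 31), [359954, 1484423], 10⟩,
  mz,
  mz,
  mz,
  ⟨⟨5, 36, 31, 40, -13, -10, 14, 32, -25⟩, (.cons (nat_lit 132974) (nat_lit 164577) (nat_lit 330634) (nat_lit
 1) (.cons (nat_lit 2817003) (nat_lit 3117795) (nat_lit 2188332) (nat_lit 1) .nil)), (nat_lit 10), (nat_lit
 40), (nat_lit 47), (nat_lit 1), (1, 8, 20), [501224, 71524], 44⟩,
  ⟨⟨-5, -36, 36, 40, -13, -30, -14, -32, -11⟩, (.cons (nat_lit 392401) (nat_lit 752328) (nat_lit 66975)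
 (nat_lit 1) (.cons (nat_lit 611979) (nat_lit 1218699) (nat_lit 1655662) (nat_lit 1) .nil)), (nat_lit 36),
 (nat_lit 48), (nat_lit 1), (nat_lit 1), (11, 41, 5), [282502, 593166], 39⟩,
  mz,
  mz,
  ⟨⟨-9, 16, -44, -38, 15, 34, 12, 36, -13⟩, (.cons (nat_lit 314244) (nat_lit 271712) (nat_lit 1) (nat_lit
 245055) (.cons (nat_lit 2495664) (nat_lit 2513566) (nat_lit 2036020) (nat_lit 1) .nil)), (nat_lit 8), (nat_lit
 18), (nat_lit 12), (nat_lit 1), (1, 9, 13), [109776, 22463], 13⟩,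
  ⟨⟨9, 16, -53, 38, 15, -4, -12, 36, -1⟩, (.cons (nat_lit 582025) (nat_lit 549962) (nat_lit 121022) (nat_lit 1)
 (.cons (nat_lit 3372861) (nat_lit 1310792) (nat_lit 2759154) (nat_lit 1) .nil)), (nat_lit 36), (nat_lit 4),
 (nat_lit 41), (nat_lit 1), (1, 9, 13), [272985, 2671630], 45⟩,
  mz,
  mz,
  ⟨⟨5, -36, 31, -40, -13, 10, 14, -32, -25⟩, (.cons (nat_lit 280552) (nat_lit 758082) (nat_lit 451548) (nat_lit
 1) (.cons (nat_lit 3015630) (nat_lit 1625995) (nat_lit 2042768) (nat_lit 1) .nil)), (nat_lit 1), (nat_lit 39),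
 (nat_lit 11), (nat_lit 1), (11, 41, 5), [677368, 1735418], 40⟩,
  ⟨⟨-5, 36, 36, 40, 13, -30, -14, 32, -11⟩, (.cons (nat_lit 846013) (nat_lit 855694) (nat_lit 125580) (nat_lit
 1) (.cons (nat_lit 108531) (nat_lit 441029) (nat_lit 2746442) (nat_lit 1) .nil)), (nat_lit 48), (nat_lit 29),
 (nat_lit 42), (nat_lit 1), (1, 35, 20), [127667, 221207], 40⟩,
  mz,
  mz,
  mz,
  ⟨⟨33, -8, -53, -20, 27, -20, 30, 24, -13⟩, (.cons (nat_lit 524324) (nat_lit 227036) (nat_lit 890335) (nat_lit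
 1) (.cons (nat_lit 26096) (nat_lit 1705600) (nat_lit 1004837) (nat_lit 1) .nil)), (nat_lit 47), (nat_lit 30),
 (nat_lit 26), (nat_lit 1), (39, 35, 12), [820867, 1817798], 16⟩,
  ⟨⟨15, 44, 1, 20, -13, 30, 34, 8, -35⟩, (.cons (nat_lit 238822) (nat_lit 445466) (nat_lit 219394) (nat_lit 1)
 (.cons (nat_lit 2087187) (nat_lit 2739925) (nat_lit 3165954) (nat_lit 1) .nil)), (nat_lit 16), (nat_lit 49),
 (nat_lit 43), (nat_lit 1), (28, 23, 9), [484563, 1487823], 28⟩,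
  mz,
  ⟨⟨-21, -20, 52, 38, -15, -4, -12, -36, -1⟩, (.cons (nat_lit 127134) (nat_lit 645395) (nat_lit 197498)
 (nat_lit 1) (.cons (nat_lit 3008592) (nat_lit 3132651) (nat_lit 2852889) (nat_lit 1) .nil)), (nat_lit 13),
 (nat_lit 28), (nat_lit 25), (nat_lit 1), (8, 6, 23), [230481, 1200843], 20⟩,
  ⟨⟨-47, 0, 27, 0, 43, 0, -18, 0, -29⟩, (.cons (nat_lit 294175) (nat_lit 431605) (nat_lit 411664) (nat_lit 1)
 (.cons (nat_lit 2984907) (nat_lit 3263417) (nat_lit 1152297) (nat_lit 1) .nil)), (nat_lit 34), (nat_lit 41),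
 (nat_lit 32), (nat_lit 1), (34, 0, 24), [39483, 2055983], 7⟩,
  ⟨⟨-37, 24, 0, -20, -37, 0, 2, 8, -43⟩, (.cons (nat_lit 338089) (nat_lit 51601) (nat_lit 338329) (nat_lit 1)
 (.cons (nat_lit 3298369) (nat_lit 633887) (nat_lit 339107) (nat_lit 1) .nil)), (nat_lit 6), (nat_lit 40),
 (nat_lit 23), (nat_lit 1), (34, 30, 40), [350670, 1945267], 29⟩,
  ⟨⟨-3, 32, -37, -20, 27, 40, 30, 24, -17⟩, (.cons (nat_lit 251667) (nat_lit 437894) (nat_lit 524777) (nat_lit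
 1) (.cons (nat_lit 352663) (nat_lit 1943269) (nat_lit 799508) (nat_lit 1) .nil)), (nat_lit 42), (nat_lit 4),
 (nat_lit 42), (nat_lit 1), (42, 22, 10), [770545, 1680257], 41⟩,
  ⟨⟨-39, 16, -4, -20, -37, 20, -2, -8, -41⟩, (.cons (nat_lit 896262) (nat_lit 444763) (nat_lit 514785) (nat_lit
 1) (.cons (nat_lit 2422334) (nat_lit 1032130) (nat_lit 1341489) (nat_lit 1) .nil)), (nat_lit 9), (nat_lit 18),
 (nat_lit 6), (nat_lit 1), (35, 40, 4), [828895, 1564644], 17⟩,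
  ⟨⟨3, -44, -20, -2, 15, -44, 36, -12, -25⟩, (.cons (nat_lit 83344) (nat_lit 191443) (nat_lit 1) (nat_lit
 242110) (.cons (nat_lit 1243679) (nat_lit 1372496) (nat_lit 1) (nat_lit 463239) .nil)), (nat_lit 8), (nat_lit
 22), (nat_lit 5), (nat_lit 1), (10, 22, 34), [893235, 3412071], 13⟩,
  ⟨⟨-15, -44, 16, -20, 13, 50, -34, -8, -1⟩, (.cons (nat_lit 156157) (nat_lit 764721) (nat_lit 35601) (nat_lit
 1) (.cons (nat_lit 1800476) (nat_lit 2648338) (nat_lit 2276477) (nat_lit 1) .nil)), (nat_lit 47), (nat_lit 9),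
 (nat_lit 28), (nat_lit 1), (2, 17, 16), [609195, 2459899], 36⟩,
  mz,
  mz,
  ⟨⟨33, 32, -28, 2, -15, -46, 36, -12, -11⟩, (.cons (nat_lit 841836) (nat_lit 561781) (nat_lit 342757) (nat_lit
 1) (.cons (nat_lit 797529) (nat_lit 469261) (nat_lit 24795) (nat_lit 1) .nil)), (nat_lit 20), (nat_lit 11),
 (nat_lit 25), (nat_lit 1), (34, 19, 41), [53471, 349163], 47⟩]

/-- Moves. -/
noncomputable def t1_6 : List Mv := [
  mz,
  ⟨⟨3, 44, -20, -2, -15, -44, 36, 12, -25⟩, (.cons (nat_lit 803045) (nat_lit 604467) (nat_lit 174004) (nat_lit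
 1) (.cons (nat_lit 1645799) (nat_lit 1481520) (nat_lit 1938735) (nat_lit 1) .nil)), (nat_lit 49), (nat_lit 6),
 (nat_lit 47), (nat_lit 1), (36, 19, 2), [478643, 1559261], 2⟩,
  mz,
  mz,
  ⟨⟨19, 36, -36, -20, -13, -30, 34, -8, -35⟩, (.cons (nat_lit 124362) (nat_lit 897774) (nat_lit 90949) (nat_lit
 1) (.cons (nat_lit 398284) (nat_lit 640947) (nat_lit 1995287) (nat_lit 1) .nil)), (nat_lit 28), (nat_lit 34),
 (nat_lit 25), (nat_lit 1), (14, 26, 16), [140361, 1928435], 48⟩,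
  ⟨⟨33, -32, -28, 2, 15, -46, 36, 12, -11⟩, (.cons (nat_lit 830617) (nat_lit 737628) (nat_lit 770238) (nat_lit
 1) (.cons (nat_lit 2753828) (nat_lit 455592) (nat_lit 1839367) (nat_lit 1) .nil)), (nat_lit 13), (nat_lit 37),
 (nat_lit 49), (nat_lit 1), (19, 22, 9), [377894, 1270679], 33⟩,
  ⟨⟨-37, -24, 0, -20, 37, 0, 2, -8, -43⟩, (.cons (nat_lit 923520) (nat_lit 630067) (nat_lit 7952) (nat_lit 1)
 (.cons (nat_lit 2602933) (nat_lit 2320225) (nat_lit 2713030) (nat_lit 1) .nil)), (nat_lit 52), (nat_lit 43),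
 (nat_lit 39), (nat_lit 1), (12, 3, 4), [83209, 2562025], 32⟩,
  ⟨⟨33, 8, -53, -20, -27, -20, 30, -24, -13⟩, (.cons (nat_lit 587054) (nat_lit 187200) (nat_lit 315827)
 (nat_lit 1) (.cons (nat_lit 791007) (nat_lit 726738) (nat_lit 1258269) (nat_lit 1) .nil)), (nat_lit 24),
 (nat_lit 10), (nat_lit 52), (nat_lit 1), (32, 21, 33), [96372, 983244], 22⟩,
  ⟨⟨-39, -16, -4, 20, -37, -20, -2, 8, -41⟩, (.cons (nat_lit 241493) (nat_lit 188183) (nat_lit 34847) (nat_lit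
 1) (.cons (nat_lit 400346) (nat_lit 1836834) (nat_lit 423060) (nat_lit 1) .nil)), (nat_lit 6), (nat_lit 51),
 (nat_lit 17), (nat_lit 1), (6, 30, 40), [313687, 543195], 29⟩,
  ⟨⟨-29, 0, -27, 0, 43, 0, 18, 0, -47⟩, (.cons (nat_lit 436823) (nat_lit 897714) (nat_lit 11564) (nat_lit 1)
 (.cons (nat_lit 792474) (nat_lit 1111492) (nat_lit 2527107) (nat_lit 1) .nil)), (nat_lit 39), (nat_lit 44),
 (nat_lit 24), (nat_lit 1), (33, 0, 24), [571038, 1130022], 47⟩,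
  ⟨⟨21, -20, 31, 38, 15, -34, 12, -36, -13⟩, (.cons (nat_lit 188282) (nat_lit 380110) (nat_lit 1) (nat_lit
 297104) (.cons (nat_lit 2902922) (nat_lit 2287061) (nat_lit 2361854) (nat_lit 1) .nil)), (nat_lit 28),
 (nat_lit 33), (nat_lit 16), (nat_lit 1), (8, 37, 23), [16596, 2525774], 35⟩,
  mz,
  ⟨⟨-15, 44, 16, 20, 13, -50, -34, 8, -1⟩, (.cons (nat_lit 47267) (nat_lit 854189) (nat_lit 335949) (nat_lit 1)
 (.cons (nat_lit 1539506) (nat_lit 79428) (nat_lit 2482881) (nat_lit 1) .nil)), (nat_lit 48), (nat_lit 24),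
 (nat_lit 11), (nat_lit 1), (28, 20, 9), [198905, 1384322], 40⟩,
  ⟨⟨-3, -32, -37, 20, 27, -40, 30, -24, -17⟩, (.cons (nat_lit 48245) (nat_lit 813801) (nat_lit 624378) (nat_lit
 1) (.cons (nat_lit 973273) (nat_lit 2370671) (nat_lit 2430938) (nat_lit 1) .nil)), (nat_lit 42), (nat_lit 24),
 (nat_lit 7), (nat_lit 1), (27, 35, 31), [628875, 3360341], 41⟩,
  mz,
  mz,
  mz,
  ⟨⟨5, 36, 31, 40, -13, -10, 14, 32, -25⟩, (.cons (nat_lit 132974) (nat_lit 164577) (nat_lit 330634) (nat_lit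
 1) (.cons (nat_lit 2817003) (nat_lit 3117795) (nat_lit 2188332) (nat_lit 1) .nil)), (nat_lit 10), (nat_lit
 40), (nat_lit 47), (nat_lit 1), (1, 8, 20), [501224, 71524], 44⟩,
  ⟨⟨-5, -36, 36, 40, -13, -30, -14, -32, -11⟩, (.cons (nat_lit 392401) (nat_lit 752328) (nat_lit 66975)
 (nat_lit 1) (.cons (nat_lit 611979) (nat_lit 1218699) (nat_lit 1655662) (nat_lit 1) .nil)), (nat_lit 36),
 (nat_lit 48), (nat_lit 1), (nat_lit 1), (11, 41, 5), [282502, 593166], 39⟩,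
  mz,
  mz,
  ⟨⟨21, 20, 31, 38, -15, -34, 12, 36, -13⟩, (.cons (nat_lit 511526) (nat_lit 490575) (nat_lit 757021) (nat_lit
 1) (.cons (nat_lit 1348502) (nat_lit 2904354) (nat_lit 2033500) (nat_lit 1) .nil)), (nat_lit 40), (nat_lit
 21), (nat_lit 24), (nat_lit 1), (12, 34, 13), [199363, 148609], 29⟩,
  ⟨⟨-21, 20, 52, -38, -15, 4, -12, 36, -1⟩, (.cons (nat_lit 767956) (nat_lit 203069) (nat_lit 771404) (nat_lit
 1) (.cons (nat_lit 823231) (nat_lit 2615507) (nat_lit 2445084) (nat_lit 1) .nil)), (nat_lit 32), (nat_lit 15),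
 (nat_lit 9), (nat_lit 1), (12, 34, 13), [460868, 2976180], 30⟩,
  mz,
  mz,
  ⟨⟨9, 4, -56, -40, -13, 10, 14, -32, -25⟩, (.cons (nat_lit 896079) (nat_lit 672260) (nat_lit 514380) (nat_lit
 1) (.cons (nat_lit 867743) (nat_lit 1213682) (nat_lit 563740) (nat_lit 1) .nil)), (nat_lit 50), (nat_lit 10),
 (nat_lit 8), (nat_lit 1), (37, 41, 5), [45529, 2416409], 18⟩,
  ⟨⟨-9, -4, -47, 40, 13, -30, -14, 32, -11⟩, (.cons (nat_lit 853085) (nat_lit 256765) (nat_lit 891850) (nat_lit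
 1) (.cons (nat_lit 464616) (nat_lit 3001766) (nat_lit 2612497) (nat_lit 1) .nil)), (nat_lit 21), (nat_lit 46),
 (nat_lit 18), (nat_lit 1), (19, 35, 20), [522954, 351669], 39⟩,
  mz,
  mz,
  mz,
  ⟨⟨33, -8, -53, -20, 27, -20, 30, 24, -13⟩, (.cons (nat_lit 524324) (nat_lit 227036) (nat_lit 890335) (nat_lit
 1) (.cons (nat_lit 26096) (nat_lit 1705600) (nat_lit 1004837) (nat_lit 1) .nil)), (nat_lit 47), (nat_lit 30),
 (nat_lit 26), (nat_lit 1), (39, 35, 12), [820867, 1817798], 16⟩,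
  ⟨⟨19, -36, -36, -20, 13, -30, 34, 8, -35⟩, (.cons (nat_lit 389016) (nat_lit 170411) (nat_lit 429304) (nat_lit
 1) (.cons (nat_lit 2519070) (nat_lit 1996840) (nat_lit 1506087) (nat_lit 1) .nil)), (nat_lit 44), (nat_lit
 38), (nat_lit 49), (nat_lit 1), (24, 20, 9), [515749, 1010859], 1⟩,
  mz,
  ⟨⟨9, -16, -53, -38, 15, 4, -12, -36, -1⟩, (.cons (nat_lit 405023) (nat_lit 627861) (nat_lit 599215) (nat_lit
 1) (.cons (nat_lit 174770) (nat_lit 612048) (nat_lit 1801996) (nat_lit 1) .nil)), (nat_lit 46), (nat_lit 40),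
 (nat_lit 44), (nat_lit 1), (15, 37, 23), [210967, 2670438], 32⟩,
  ⟨⟨29, 0, -56, 0, -43, 0, -18, 0, -29⟩, (.cons (nat_lit 923520) (nat_lit 197038) (nat_lit 496339) (nat_lit 1)
 (.cons (nat_lit 3209231) (nat_lit 1530559) (nat_lit 1502132) (nat_lit 1) .nil)), (nat_lit 52), (nat_lit 48),
 (nat_lit 6), (nat_lit 1), (33, 0, 24), [362581, 785530], 28⟩,
  ⟨⟨-37, 24, 0, 20, 37, 0, 2, 8, -43⟩, (.cons (nat_lit 923520) (nat_lit 528497) (nat_lit 907112) (nat_lit 1)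
 (.cons (nat_lit 2427977) (nat_lit 2517261) (nat_lit 69372) (nat_lit 1) .nil)), (nat_lit 52), (nat_lit 36),
 (nat_lit 47), (nat_lit 1), (34, 13, 40), [379795, 515363], 23⟩,
  ⟨⟨33, -8, 20, -20, 27, 40, 30, 24, -17⟩, (.cons (nat_lit 923520) (nat_lit 43916) (nat_lit 469561) (nat_lit 1)
 (.cons (nat_lit 164283) (nat_lit 1518532) (nat_lit 194498) (nat_lit 1) .nil)), (nat_lit 52), (nat_lit 12),
 (nat_lit 30), (nat_lit 1), (11, 22, 10), [210687, 1054263], 47⟩,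
  ⟨⟨-39, 16, -4, 20, 37, -20, -2, -8, -41⟩, (.cons (nat_lit 923520) (nat_lit 623746) (nat_lit 589824) (nat_lit
 1) (.cons (nat_lit 3377990) (nat_lit 2301785) (nat_lit 2863299) (nat_lit 1) .nil)), (nat_lit 52), (nat_lit
 42), (nat_lit 10), (nat_lit 1), (35, 3, 4), [662670, 881055], 23⟩,
  ⟨⟨3, -44, -20, -2, 15, -44, 36, -12, -25⟩, (.cons (nat_lit 83344) (nat_lit 191443) (nat_lit 1) (nat_lit
 242110) (.cons (nat_lit 1243679) (nat_lit 1372496) (nat_lit 1) (nat_lit 463239) .nil)), (nat_lit 8), (nat_lit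
 22), (nat_lit 5), (nat_lit 1), (10, 22, 34), [893235, 3412071], 13⟩,
  ⟨⟨-19, 36, -17, -20, 13, 50, -34, -8, -1⟩, (.cons (nat_lit 360212) (nat_lit 793970) (nat_lit 19339) (nat_lit
 1) (.cons (nat_lit 1861576) (nat_lit 2926526) (nat_lit 2049652) (nat_lit 1) .nil)), (nat_lit 48), (nat_lit
 18), (nat_lit 37), (nat_lit 1), (14, 17, 16), [74027, 3276856], 21⟩,
  mz,
  mz,
  ⟨⟨33, 32, -28, 2, -15, -46, 36, -12, -11⟩, (.cons (nat_lit 841836) (nat_lit 561781) (nat_lit 342757) (nat_lit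
 1) (.cons (nat_lit 797529) (nat_lit 469261) (nat_lit 24795) (nat_lit 1) .nil)), (nat_lit 20), (nat_lit 11),
 (nat_lit 25), (nat_lit 1), (34, 19, 41), [53471, 349163], 47⟩]

/-- Moves. -/
noncomputable def t1_8 : List Mv := [
  mz,
  ⟨⟨33, -32, -5, 2, 15, 44, 36, 12, -25⟩, (.cons (nat_lit 594433) (nat_lit 535378) (nat_lit 781019) (nat_lit 1)
 (.cons (nat_lit 1410716) (nat_lit 2660945) (nat_lit 1333744) (nat_lit 1) .nil)), (nat_lit 46), (nat_lit 10),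
 (nat_lit 17), (nat_lit 1), (9, 24, 2), [262148, 1724876], 32⟩,
  mz,
  mz,
  ⟨⟨19, 36, -36, -20, -13, -30, 34, -8, -35⟩, (.cons (nat_lit 124362) (nat_lit 897774) (nat_lit 90949) (nat_lit
 1) (.cons (nat_lit 398284) (nat_lit 640947) (nat_lit 1995287) (nat_lit 1) .nil)), (nat_lit 28), (nat_lit 34),
 (nat_lit 25), (nat_lit 1), (14, 26, 16), [140361, 1928435], 48⟩,
  ⟨⟨3, 44, 17, 2, 15, -46, 36, 12, -11⟩, (.cons (nat_lit 915145) (nat_lit 296294) (nat_lit 911246) (nat_lit 1)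
 (.cons (nat_lit 2543858) (nat_lit 396410) (nat_lit 1120622) (nat_lit 1) .nil)), (nat_lit 45), (nat_lit 40),
 (nat_lit 46), (nat_lit 1), (33, 22, 9), [796321, 1315227], 17⟩,
  ⟨⟨-37, -24, 0, -20, 37, 0, 2, -8, -43⟩, (.cons (nat_lit 923520) (nat_lit 630067) (nat_lit 7952) (nat_lit 1)
 (.cons (nat_lit 2602933) (nat_lit 2320225) (nat_lit 2713030) (nat_lit 1) .nil)), (nat_lit 52), (nat_lit 43),
 (nat_lit 39), (nat_lit 1), (12, 3, 4), [83209, 2562025], 32⟩,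
  ⟨⟨33, 8, -53, -20, -27, -20, 30, -24, -13⟩, (.cons (nat_lit 587054) (nat_lit 187200) (nat_lit 315827)
 (nat_lit 1) (.cons (nat_lit 791007) (nat_lit 726738) (nat_lit 1258269) (nat_lit 1) .nil)), (nat_lit 24),
 (nat_lit 10), (nat_lit 52), (nat_lit 1), (32, 21, 33), [96372, 983244], 22⟩,
  ⟨⟨-39, -16, -4, 20, -37, -20, -2, 8, -41⟩, (.cons (nat_lit 241493) (nat_lit 188183) (nat_lit 34847) (nat_lit
 1) (.cons (nat_lit 400346) (nat_lit 1836834) (nat_lit 423060) (nat_lit 1) .nil)), (nat_lit 6), (nat_lit 51),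
 (nat_lit 17), (nat_lit 1), (6, 30, 40), [313687, 543195], 29⟩,
  ⟨⟨-29, 0, -27, 0, -43, 0, 18, 0, -47⟩, (.cons (nat_lit 649420) (nat_lit 98627) (nat_lit 1) (nat_lit 179955)
 (.cons (nat_lit 1293439) (nat_lit 2522280) (nat_lit 1454843) (nat_lit 1) .nil)), (nat_lit 44), (nat_lit 47),
 (nat_lit 16), (nat_lit 1), (33, 0, 24), [8624, 1337266], 22⟩,
  ⟨⟨21, -20, 31, -38, -15, 34, 12, -36, -13⟩, (.cons (nat_lit 565124) (nat_lit 321393) (nat_lit 545375)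
 (nat_lit 1) (.cons (nat_lit 3217896) (nat_lit 3139333) (nat_lit 2471889) (nat_lit 1) .nil)), (nat_lit 45),
 (nat_lit 49), (nat_lit 17), (nat_lit 1), (8, 6, 23), [451088, 487684], 36⟩,
  mz,
  ⟨⟨-15, 44, 16, 20, 13, -50, -34, 8, -1⟩, (.cons (nat_lit 47267) (nat_lit 854189) (nat_lit 335949) (nat_lit 1)
 (.cons (nat_lit 1539506) (nat_lit 79428) (nat_lit 2482881) (nat_lit 1) .nil)), (nat_lit 48), (nat_lit 24),
 (nat_lit 11), (nat_lit 1), (28, 20, 9), [198905, 1384322], 40⟩,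
  ⟨⟨33, 8, 20, 20, 27, -40, 30, -24, -17⟩, (.cons (nat_lit 923520) (nat_lit 612083) (nat_lit 382216) (nat_lit
 1) (.cons (nat_lit 94589) (nat_lit 1143719) (nat_lit 2900111) (nat_lit 1) .nil)), (nat_lit 52), (nat_lit 52),
 (nat_lit 2), (nat_lit 1), (4, 35, 31), [359954, 1484423], 10⟩,
  mz,
  mz,
  mz,
  ⟨⟨9, -4, -56, 40, -13, -10, 14, 32, -25⟩, (.cons (nat_lit 55449) (nat_lit 548403) (nat_lit 449311) (nat_lit
 1) (.cons (nat_lit 2524543) (nat_lit 276797) (nat_lit 1671644) (nat_lit 1) .nil)), (nat_lit 28), (nat_lit 37),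
 (nat_lit 33), (nat_lit 1), (19, 8, 20), [412758, 2992385], 48⟩,
  ⟨⟨-5, -36, 36, 40, -13, -30, -14, -32, -11⟩, (.cons (nat_lit 392401) (nat_lit 752328) (nat_lit 66975)
 (nat_lit 1) (.cons (nat_lit 611979) (nat_lit 1218699) (nat_lit 1655662) (nat_lit 1) .nil)), (nat_lit 36),
 (nat_lit 48), (nat_lit 1), (nat_lit 1), (11, 41, 5), [282502, 593166], 39⟩,
  mz,
  mz,
  ⟨⟨21, 20, 31, 38, -15, -34, 12, 36, -13⟩, (.cons (nat_lit 511526) (nat_lit 490575) (nat_lit 757021) (nat_lit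
 1) (.cons (nat_lit 1348502) (nat_lit 2904354) (nat_lit 2033500) (nat_lit 1) .nil)), (nat_lit 40), (nat_lit
 21), (nat_lit 24), (nat_lit 1), (12, 34, 13), [199363, 148609], 29⟩,
  ⟨⟨9, 16, -53, -38, -15, 4, -12, 36, -1⟩, (.cons (nat_lit 217098) (nat_lit 249880) (nat_lit 519865) (nat_lit
 1) (.cons (nat_lit 2001396) (nat_lit 1986783) (nat_lit 765117) (nat_lit 1) .nil)), (nat_lit 33), (nat_lit 5),
 (nat_lit 19), (nat_lit 1), (1, 34, 13), [751770, 2554221], 37⟩,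
  mz,
  mz,
  ⟨⟨9, 4, -56, 40, 13, -10, 14, -32, -25⟩, (.cons (nat_lit 636209) (nat_lit 432386) (nat_lit 381773) (nat_lit
 1) (.cons (nat_lit 1384513) (nat_lit 364885) (nat_lit 132938) (nat_lit 1) .nil)), (nat_lit 21), (nat_lit 26),
 (nat_lit 34), (nat_lit 1), (37, 2, 5), [588431, 250971], 44⟩,
  ⟨⟨-5, 36, 36, 40, 13, -30, -14, 32, -11⟩, (.cons (nat_lit 846013) (nat_lit 855694) (nat_lit 125580) (nat_lit
 1) (.cons (nat_lit 108531) (nat_lit 441029) (nat_lit 2746442) (nat_lit 1) .nil)), (nat_lit 48), (nat_lit 29),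
 (nat_lit 42), (nat_lit 1), (1, 35, 20), [127667, 221207], 40⟩,
  mz,
  mz,
  mz,
  ⟨⟨33, -8, -53, -20, 27, -20, 30, 24, -13⟩, (.cons (nat_lit 524324) (nat_lit 227036) (nat_lit 890335) (nat_lit
 1) (.cons (nat_lit 26096) (nat_lit 1705600) (nat_lit 1004837) (nat_lit 1) .nil)), (nat_lit 47), (nat_lit 30),
 (nat_lit 26), (nat_lit 1), (39, 35, 12), [820867, 1817798], 16⟩,
  ⟨⟨15, 44, 1, 20, -13, 30, 34, 8, -35⟩, (.cons (nat_lit 238822) (nat_lit 445466) (nat_lit 219394) (nat_lit 1)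
 (.cons (nat_lit 2087187) (nat_lit 2739925) (nat_lit 3165954) (nat_lit 1) .nil)), (nat_lit 16), (nat_lit 49),
 (nat_lit 43), (nat_lit 1), (28, 23, 9), [484563, 1487823], 28⟩,
  mz,
  ⟨⟨9, -16, -53, -38, 15, 4, -12, -36, -1⟩, (.cons (nat_lit 405023) (nat_lit 627861) (nat_lit 599215) (nat_lit
 1) (.cons (nat_lit 174770) (nat_lit 612048) (nat_lit 1801996) (nat_lit 1) .nil)), (nat_lit 46), (nat_lit 40),
 (nat_lit 44), (nat_lit 1), (15, 37, 23), [210967, 2670438], 32⟩,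
  ⟨⟨29, 0, -56, 0, -43, 0, -18, 0, -29⟩, (.cons (nat_lit 923520) (nat_lit 197038) (nat_lit 496339) (nat_lit 1)
 (.cons (nat_lit 3209231) (nat_lit 1530559) (nat_lit 1502132) (nat_lit 1) .nil)), (nat_lit 52), (nat_lit 48),
 (nat_lit 6), (nat_lit 1), (33, 0, 24), [362581, 785530], 28⟩,
  ⟨⟨39, -16, -43, 20, 37, 0, 2, 8, -43⟩, (.cons (nat_lit 591957) (nat_lit 65358) (nat_lit 544765) (nat_lit 1)
 (.cons (nat_lit 3226480) (nat_lit 1682033) (nat_lit 1167119) (nat_lit 1) .nil)), (nat_lit 8), (nat_lit 28),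
 (nat_lit 24), (nat_lit 1), (6, 13, 40), [813257, 2630232], 38⟩,
  ⟨⟨33, -8, 20, -20, 27, 40, 30, 24, -17⟩, (.cons (nat_lit 923520) (nat_lit 43916) (nat_lit 469561) (nat_lit 1)
 (.cons (nat_lit 164283) (nat_lit 1518532) (nat_lit 194498) (nat_lit 1) .nil)), (nat_lit 52), (nat_lit 12),
 (nat_lit 30), (nat_lit 1), (11, 22, 10), [210687, 1054263], 47⟩,
  ⟨⟨37, -24, -37, 20, 37, -20, -2, -8, -41⟩, (.cons (nat_lit 365379) (nat_lit 588770) (nat_lit 564746) (nat_lit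
 1) (.cons (nat_lit 3262242) (nat_lit 1617536) (nat_lit 819122) (nat_lit 1) .nil)), (nat_lit 20), (nat_lit 21),
 (nat_lit 27), (nat_lit 1), (12, 3, 4), [574534, 3152401], 42⟩,
  ⟨⟨3, -44, -20, 2, -15, 44, 36, -12, -25⟩, (.cons (nat_lit 666088) (nat_lit 755672) (nat_lit 125302) (nat_lit
 1) (.cons (nat_lit 456693) (nat_lit 2164147) (nat_lit 2803623) (nat_lit 1) .nil)), (nat_lit 5), (nat_lit 31),
 (nat_lit 8), (nat_lit 1), (10, 21, 34), [23234, 3149158], 8⟩,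
  ⟨⟨-15, -44, 16, 20, -13, -50, -34, -8, -1⟩, (.cons (nat_lit 375742) (nat_lit 529395) (nat_lit 304920)
 (nat_lit 1) (.cons (nat_lit 1675946) (nat_lit 1144855) (nat_lit 435123) (nat_lit 1) .nil)), (nat_lit 35),
 (nat_lit 21), (nat_lit 38), (nat_lit 1), (2, 26, 16), [777941, 991310], 2⟩,
  mz,
  mz,
  ⟨⟨33, 32, -28, 2, -15, -46, 36, -12, -11⟩, (.cons (nat_lit 841836) (nat_lit 561781) (nat_lit 342757) (nat_lit
 1) (.cons (nat_lit 797529) (nat_lit 469261) (nat_lit 24795) (nat_lit 1) .nil)), (nat_lit 20), (nat_lit 11),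
 (nat_lit 25), (nat_lit 1), (34, 19, 41), [53471, 349163], 47⟩]

/-- Moves. -/
noncomputable def t1_19 : List Mv := [
  mz,
  ⟨⟨3, 44, -20, -2, -15, -44, 36, 12, -25⟩, (.cons (nat_lit 803045) (nat_lit 604467) (nat_lit 174004) (nat_lit
 1) (.cons (nat_lit 1645799) (nat_lit 1481520) (nat_lit 1938735) (nat_lit 1) .nil)), (nat_lit 49), (nat_lit 6),
 (nat_lit 47), (nat_lit 1), (36, 19, 2), [478643, 1559261], 2⟩,
  mz,
  mz,
  ⟨⟨15, -44, 1, -20, -13, -30, 34, -8, -35⟩, (.cons (nat_lit 213358) (nat_lit 761542) (nat_lit 332536) (nat_lit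
 1) (.cons (nat_lit 1214044) (nat_lit 1443005) (nat_lit 2559748) (nat_lit 1) .nil)), (nat_lit 1), (nat_lit 14),
 (nat_lit 42), (nat_lit 1), (2, 26, 16), [19705, 2771321], 40⟩,
  ⟨⟨33, -32, -28, -2, -15, 46, 36, 12, -11⟩, (.cons (nat_lit 429323) (nat_lit 797727) (nat_lit 139455) (nat_lit
 1) (.cons (nat_lit 2872972) (nat_lit 1932837) (nat_lit 588237) (nat_lit 1) .nil)), (nat_lit 16), (nat_lit 28),
 (nat_lit 21), (nat_lit 1), (19, 21, 9), [64721, 67235], 4⟩,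
  ⟨⟨-37, -24, 0, 20, -37, 0, 2, -8, -43⟩, (.cons (nat_lit 513195) (nat_lit 589480) (nat_lit 585013) (nat_lit 1)
 (.cons (nat_lit 2194156) (nat_lit 701506) (nat_lit 1546716) (nat_lit 1) .nil)), (nat_lit 9), (nat_lit 11),
 (nat_lit 5), (nat_lit 1), (12, 40, 4), [299260, 67969], 17⟩,
  ⟨⟨33, 8, -53, -20, -27, -20, 30, -24, -13⟩, (.cons (nat_lit 587054) (nat_lit 187200) (nat_lit 315827)
 (nat_lit 1) (.cons (nat_lit 791007) (nat_lit 726738) (nat_lit 1258269) (nat_lit 1) .nil)), (nat_lit 24),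
 (nat_lit 10), (nat_lit 52), (nat_lit 1), (32, 21, 33), [96372, 983244], 22⟩,
  ⟨⟨37, 24, -37, -20, 37, 20, -2, 8, -41⟩, (.cons (nat_lit 141621) (nat_lit 385665) (nat_lit 780275) (nat_lit
 1) (.cons (nat_lit 1904370) (nat_lit 1078499) (nat_lit 2912854) (nat_lit 1) .nil)), (nat_lit 20), (nat_lit
 23), (nat_lit 50), (nat_lit 1), (34, 13, 40), [82471, 2752085], 42⟩,
  ⟨⟨-29, 0, -27, 0, -43, 0, 18, 0, -47⟩, (.cons (nat_lit 649420) (nat_lit 98627) (nat_lit 1) (nat_lit 179955)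
 (.cons (nat_lit 1293439) (nat_lit 2522280) (nat_lit 1454843) (nat_lit 1) .nil)), (nat_lit 44), (nat_lit 47),
 (nat_lit 16), (nat_lit 1), (33, 0, 24), [8624, 1337266], 22⟩,
  ⟨⟨-9, -16, -44, 38, 15, -34, 12, -36, -13⟩, (.cons (nat_lit 802691) (nat_lit 543119) (nat_lit 707005)
 (nat_lit 1) (.cons (nat_lit 53027) (nat_lit 1582251) (nat_lit 1131366) (nat_lit 1) .nil)), (nat_lit 10),
 (nat_lit 38), (nat_lit 2), (nat_lit 1), (15, 37, 23), [586844, 3203368], 24⟩,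
  mz,
  ⟨⟨-15, 44, 16, 20, 13, -50, -34, 8, -1⟩, (.cons (nat_lit 47267) (nat_lit 854189) (nat_lit 335949) (nat_lit 1)
 (.cons (nat_lit 1539506) (nat_lit 79428) (nat_lit 2482881) (nat_lit 1) .nil)), (nat_lit 48), (nat_lit 24),
 (nat_lit 11), (nat_lit 1), (28, 20, 9), [198905, 1384322], 40⟩,
  ⟨⟨33, 8, 20, 20, 27, -40, 30, -24, -17⟩, (.cons (nat_lit 923520) (nat_lit 612083) (nat_lit 382216) (nat_lit
 1) (.cons (nat_lit 94589) (nat_lit 1143719) (nat_lit 2900111) (nat_lit 1) .nil)), (nat_lit 52), (nat_lit 52),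
 (nat_lit 2), (nat_lit 1), (4, 35, 31), [359954, 1484423], 10⟩,
  mz,
  mz,
  mz,
  ⟨⟨9, -4, -56, 40, -13, -10, 14, 32, -25⟩, (.cons (nat_lit 55449) (nat_lit 548403) (nat_lit 449311) (nat_lit
 1) (.cons (nat_lit 2524543) (nat_lit 276797) (nat_lit 1671644) (nat_lit 1) .nil)), (nat_lit 28), (nat_lit 37),
 (nat_lit 33), (nat_lit 1), (19, 8, 20), [412758, 2992385], 48⟩,
  ⟨⟨-5, -36, 36, 40, -13, -30, -14, -32, -11⟩, (.cons (nat_lit 392401) (nat_lit 752328) (nat_lit 66975)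
 (nat_lit 1) (.cons (nat_lit 611979) (nat_lit 1218699) (nat_lit 1655662) (nat_lit 1) .nil)), (nat_lit 36),
 (nat_lit 48), (nat_lit 1), (nat_lit 1), (11, 41, 5), [282502, 593166], 39⟩,
  mz,
  mz,
  ⟨⟨21, 20, 31, 38, -15, -34, 12, 36, -13⟩, (.cons (nat_lit 511526) (nat_lit 490575) (nat_lit 757021) (nat_lit
 1) (.cons (nat_lit 1348502) (nat_lit 2904354) (nat_lit 2033500) (nat_lit 1) .nil)), (nat_lit 40), (nat_lit
 21), (nat_lit 24), (nat_lit 1), (12, 34, 13), [199363, 148609], 29⟩,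
  ⟨⟨-21, 20, 52, 38, 15, -4, -12, 36, -1⟩, (.cons (nat_lit 609247) (nat_lit 750069) (nat_lit 704855) (nat_lit
 1) (.cons (nat_lit 527024) (nat_lit 1293804) (nat_lit 2000161) (nat_lit 1) .nil)), (nat_lit 16), (nat_lit 12),
 (nat_lit 49), (nat_lit 1), (12, 9, 13), [658943, 1197117], 49⟩,
  mz,
  mz,
  ⟨⟨9, 4, -56, 40, 13, -10, 14, -32, -25⟩, (.cons (nat_lit 636209) (nat_lit 432386) (nat_lit 381773) (nat_lit
 1) (.cons (nat_lit 1384513) (nat_lit 364885) (nat_lit 132938) (nat_lit 1) .nil)), (nat_lit 21), (nat_lit 26),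
 (nat_lit 34), (nat_lit 1), (37, 2, 5), [588431, 250971], 44⟩,
  ⟨⟨-5, 36, 36, 40, 13, -30, -14, 32, -11⟩, (.cons (nat_lit 846013) (nat_lit 855694) (nat_lit 125580) (nat_lit
 1) (.cons (nat_lit 108531) (nat_lit 441029) (nat_lit 2746442) (nat_lit 1) .nil)), (nat_lit 48), (nat_lit 29),
 (nat_lit 42), (nat_lit 1), (1, 35, 20), [127667, 221207], 40⟩,
  mz,
  mz,
  mz,
  ⟨⟨33, -8, -53, -20, 27, -20, 30, 24, -13⟩, (.cons (nat_lit 524324) (nat_lit 227036) (nat_lit 890335) (nat_lit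
 1) (.cons (nat_lit 26096) (nat_lit 1705600) (nat_lit 1004837) (nat_lit 1) .nil)), (nat_lit 47), (nat_lit 30),
 (nat_lit 26), (nat_lit 1), (39, 35, 12), [820867, 1817798], 16⟩,
  ⟨⟨15, 44, 1, -20, 13, -30, 34, 8, -35⟩, (.cons (nat_lit 307423) (nat_lit 192996) (nat_lit 521032) (nat_lit 1)
 (.cons (nat_lit 69960) (nat_lit 325332) (nat_lit 490169) (nat_lit 1) .nil)), (nat_lit 21), (nat_lit 33),
 (nat_lit 1), (nat_lit 1), (28, 20, 9), [709450, 1037304], 39⟩,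
  mz,
  ⟨⟨-21, -20, 52, -38, 15, 4, -12, -36, -1⟩, (.cons (nat_lit 1798) (nat_lit 41163) (nat_lit 433316) (nat_lit 1)
 (.cons (nat_lit 3286902) (nat_lit 3272443) (nat_lit 530744) (nat_lit 1) .nil)), (nat_lit 20), (nat_lit 37),
 (nat_lit 6), (nat_lit 1), (8, 37, 23), [889239, 3339733], 6⟩,
  ⟨⟨29, 0, -56, 0, -43, 0, -18, 0, -29⟩, (.cons (nat_lit 923520) (nat_lit 197038) (nat_lit 496339) (nat_lit 1)
 (.cons (nat_lit 3209231) (nat_lit 1530559) (nat_lit 1502132) (nat_lit 1) .nil)), (nat_lit 52), (nat_lit 48),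
 (nat_lit 6), (nat_lit 1), (33, 0, 24), [362581, 785530], 28⟩,
  ⟨⟨-37, 24, 0, -20, -37, 0, 2, 8, -43⟩, (.cons (nat_lit 338089) (nat_lit 51601) (nat_lit 338329) (nat_lit 1)
 (.cons (nat_lit 3298369) (nat_lit 633887) (nat_lit 339107) (nat_lit 1) .nil)), (nat_lit 6), (nat_lit 40),
 (nat_lit 23), (nat_lit 1), (34, 30, 40), [350670, 1945267], 29⟩,
  ⟨⟨-3, 32, -37, 20, -27, -40, 30, 24, -17⟩, (.cons (nat_lit 806840) (nat_lit 511152) (nat_lit 147887) (nat_lit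
 1) (.cons (nat_lit 1700587) (nat_lit 1862452) (nat_lit 357057) (nat_lit 1) .nil)), (nat_lit 44), (nat_lit 5),
 (nat_lit 22), (nat_lit 1), (42, 21, 10), [729082, 2003065], 29⟩,
  ⟨⟨-39, 16, -4, 20, 37, -20, -2, -8, -41⟩, (.cons (nat_lit 923520) (nat_lit 623746) (nat_lit 589824) (nat_lit
 1) (.cons (nat_lit 3377990) (nat_lit 2301785) (nat_lit 2863299) (nat_lit 1) .nil)), (nat_lit 52), (nat_lit
 42), (nat_lit 10), (nat_lit 1), (35, 3, 4), [662670, 881055], 23⟩,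
  ⟨⟨3, -44, -20, -2, 15, -44, 36, -12, -25⟩, (.cons (nat_lit 83344) (nat_lit 191443) (nat_lit 1) (nat_lit
 242110) (.cons (nat_lit 1243679) (nat_lit 1372496) (nat_lit 1) (nat_lit 463239) .nil)), (nat_lit 8), (nat_lit
 22), (nat_lit 5), (nat_lit 1), (10, 22, 34), [893235, 3412071], 13⟩,
  ⟨⟨-15, -44, 16, 20, -13, -50, -34, -8, -1⟩, (.cons (nat_lit 375742) (nat_lit 529395) (nat_lit 304920)
 (nat_lit 1) (.cons (nat_lit 1675946) (nat_lit 1144855) (nat_lit 435123) (nat_lit 1) .nil)), (nat_lit 35),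
 (nat_lit 21), (nat_lit 38), (nat_lit 1), (2, 26, 16), [777941, 991310], 2⟩,
  mz,
  mz,
  ⟨⟨3, -44, 17, 2, -15, -46, 36, -12, -11⟩, (.cons (nat_lit 447811) (nat_lit 5972) (nat_lit 1) (nat_lit 177134)
 (.cons (nat_lit 1208851) (nat_lit 2091819) (nat_lit 1532633) (nat_lit 1) .nil)), (nat_lit 28), (nat_lit 47),
 (nat_lit 18), (nat_lit 1), (7, 19, 41), [812735, 1273577], 18⟩]

/-- Moves. -/
noncomputable def t4_1 : List Mv := [
  mz,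
  mz,
  mz,
  mz,
  ⟨⟨51, 20, -47, 10, -47, -30, -2, 20, -47⟩, (.cons (nat_lit 844773) (nat_lit 142320) (nat_lit 381453) (nat_lit
 1) (.cons (nat_lit 935130) (nat_lit 2095481) (nat_lit 1906275) (nat_lit 1) .nil)), (nat_lit 15), (nat_lit 0),
 (nat_lit 0), (nat_lit 0), (24, 39, 24), [809841, 362458], 0⟩,
  ⟨⟨51, -20, -47, 10, 47, -30, -2, -20, -47⟩, (.cons (nat_lit 323075) (nat_lit 218263) (nat_lit 880307)
 (nat_lit 1) (.cons (nat_lit 2117880) (nat_lit 877621) (nat_lit 932911) (nat_lit 1) .nil)), (nat_lit 15),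
 (nat_lit 0), (nat_lit 0), (nat_lit 0), (12, 46, 12), [807673, 1424175], 0⟩,
  ⟨⟨15, 56, -11, -28, 5, -36, 40, 8, -47⟩, (.cons (nat_lit 524308) (nat_lit 844859) (nat_lit 615458) (nat_lit
 1) (.cons (nat_lit 742319) (nat_lit 1609244) (nat_lit 2628530) (nat_lit 1) .nil)), (nat_lit 28), (nat_lit 0),
 (nat_lit 0), (nat_lit 0), (1, 37, 38), [403024, 2691079], 0⟩,
  mz,
  mz,
  ⟨⟨57, -4, -17, 8, 45, -34, 24, -24, -49⟩, (.cons (nat_lit 923520) (nat_lit 483143) (nat_lit 539964) (nat_lit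
 1) (.cons (nat_lit 3418800) (nat_lit 1962884) (nat_lit 2524142) (nat_lit 1) .nil)), (nat_lit 9), (nat_lit 0),
 (nat_lit 0), (nat_lit 0), (7, 14, 42), [414122, 3393929], 0⟩,
  ⟨⟨-25, 48, -11, 28, -5, -64, -40, -8, -7⟩, (.cons (nat_lit 135160) (nat_lit 254855) (nat_lit 867617) (nat_lit
 1) (.cons (nat_lit 3056385) (nat_lit 3282269) (nat_lit 52848) (nat_lit 1) .nil)), (nat_lit 36), (nat_lit 0),
 (nat_lit 0), (nat_lit 0), (52, 52, 9), [385027, 2967509], 0⟩,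
  ⟨⟨15, -32, 44, 50, 17, -30, 14, -44, -19⟩, (.cons (nat_lit 657743) (nat_lit 753514) (nat_lit 685174) (nat_lit
 1) (.cons (nat_lit 2911381) (nat_lit 285076) (nat_lit 1238725) (nat_lit 1) .nil)), (nat_lit 41), (nat_lit 0),
 (nat_lit 0), (nat_lit 0), (29, 26, 20), [608874, 1613339], 0⟩,
  ⟨⟨-51, 20, 4, -10, -47, -20, 2, 20, -49⟩, (.cons (nat_lit 325523) (nat_lit 508915) (nat_lit 1) (nat_lit
 223913) (.cons (nat_lit 718392) (nat_lit 2947397) (nat_lit 755554) (nat_lit 1) .nil)), (nat_lit 15), (nat_lit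
 0), (nat_lit 0), (nat_lit 0), (48, 25, 48), [781401, 931735], 0⟩,
  mz,
  mz,
  ⟨⟨-51, -20, 4, -10, 47, -20, 2, -20, -49⟩, (.cons (nat_lit 923520) (nat_lit 272215) (nat_lit 495164) (nat_lit
 1) (.cons (nat_lit 3418800) (nat_lit 3085972) (nat_lit 1294446) (nat_lit 1) .nil)), (nat_lit 15), (nat_lit 0),
 (nat_lit 0), (nat_lit 0), (36, 32, 36), [553860, 3070516], 0⟩,
  ⟨⟨15, 52, 16, 10, 17, -60, 46, 4, -11⟩, (.cons (nat_lit 408793) (nat_lit 76015) (nat_lit 680672) (nat_lit 1)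
 (.cons (nat_lit 3050834) (nat_lit 2896135) (nat_lit 366621) (nat_lit 1) .nil)), (nat_lit 44), (nat_lit 0),
 (nat_lit 0), (nat_lit 0), (24, 16, 10), [891172, 1409584], 0⟩,
  ⟨⟨31, -48, -4, -10, -17, -50, 46, 4, -35⟩, (.cons (nat_lit 789345) (nat_lit 163142) (nat_lit 328617) (nat_lit
 1) (.cons (nat_lit 122171) (nat_lit 2250697) (nat_lit 1464028) (nat_lit 1) .nil)), (nat_lit 11), (nat_lit 0),
 (nat_lit 0), (nat_lit 0), (18, 13, 25), [55956, 3139581], 0⟩,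
  ⟨⟨-57, -4, 40, -8, 45, -26, -24, -24, -25⟩, (.cons (nat_lit 643105) (nat_lit 436881) (nat_lit 269195)
 (nat_lit 1) (.cons (nat_lit 1683537) (nat_lit 2688767) (nat_lit 794082) (nat_lit 1) .nil)), (nat_lit 9),
 (nat_lit 0), (nat_lit 0), (nat_lit 0), (12, 24, 19), [5621, 121887], 0⟩,
  mz,
  mz,
  ⟨⟨-33, 20, -32, 8, -45, -34, 24, 24, -49⟩, (.cons (nat_lit 557871) (nat_lit 437256) (nat_lit 801228) (nat_lit
 1) (.cons (nat_lit 2839974) (nat_lit 1812148) (nat_lit 2310072) (nat_lit 1) .nil)), (nat_lit 18), (nat_lit 0),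
 (nat_lit 0), (nat_lit 0), (47, 40, 14), [856591, 2959298], 0⟩,
  ⟨⟨-45, -28, -4, 28, -45, -14, 0, 0, -53⟩, (.cons (nat_lit 150258) (nat_lit 524541) (nat_lit 690793) (nat_lit
 1) (.cons (nat_lit 2324925) (nat_lit 765895) (nat_lit 3348251) (nat_lit 1) .nil)), (nat_lit 31), (nat_lit 0),
 (nat_lit 0), (nat_lit 0), (29, 22, 0), [432182, 3249823], 0⟩,
  mz,
  ⟨⟨43, -12, 20, 30, -17, -60, 30, 36, -7⟩, (.cons (nat_lit 265814) (nat_lit 131137) (nat_lit 275991) (nat_lit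
 1) (.cons (nat_lit 664072) (nat_lit 2816117) (nat_lit 2319180) (nat_lit 1) .nil)), (nat_lit 46), (nat_lit 0),
 (nat_lit 0), (nat_lit 0), (37, 48, 48), [203457, 1652000], 0⟩,
  mz,
  ⟨⟨-25, -48, -11, 28, 5, -64, -40, 8, -7⟩, (.cons (nat_lit 244145) (nat_lit 14157) (nat_lit 715101) (nat_lit
 1) (.cons (nat_lit 300408) (nat_lit 1071978) (nat_lit 321485) (nat_lit 1) .nil)), (nat_lit 36), (nat_lit 0),
 (nat_lit 0), (nat_lit 0), (2, 2, 35), [668282, 2798321], 0⟩,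
  mz,
  ⟨⟨-1, -48, 37, 52, 5, -16, 8, -40, -31⟩, (.cons (nat_lit 651459) (nat_lit 734610) (nat_lit 65407) (nat_lit 1)
 (.cons (nat_lit 213551) (nat_lit 2211076) (nat_lit 888558) (nat_lit 1) .nil)), (nat_lit 6), (nat_lit 0),
 (nat_lit 0), (nat_lit 0), (29, 29, 33), [530995, 1953718], 0⟩,
  ⟨⟨43, -12, -63, -30, 17, -30, 30, 36, -23⟩, (.cons (nat_lit 337070) (nat_lit 217430) (nat_lit 372023)
 (nat_lit 1) (.cons (nat_lit 2427378) (nat_lit 70202) (nat_lit 1526039) (nat_lit 1) .nil)), (nat_lit 24),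
 (nat_lit 0), (nat_lit 0), (nat_lit 0), (16, 48, 5), [89102, 973862], 0⟩,
  mz,
  ⟨⟨-45, 28, -4, -28, -45, 14, 0, 0, -53⟩, (.cons (nat_lit 681009) (nat_lit 780931) (nat_lit 729658) (nat_lit
 1) (.cons (nat_lit 435634) (nat_lit 1143563) (nat_lit 2376511) (nat_lit 1) .nil)), (nat_lit 22), (nat_lit 0),
 (nat_lit 0), (nat_lit 0), (14, 4, 0), [319931, 116714], 0⟩,
  mz,
  ⟨⟨-39, 28, -17, 10, -33, -50, 18, 36, -37⟩, (.cons (nat_lit 249204) (nat_lit 227957) (nat_lit 20457) (nat_lit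
 1) (.cons (nat_lit 1816463) (nat_lit 1396121) (nat_lit 2702585) (nat_lit 1) .nil)), (nat_lit 50), (nat_lit 0),
 (nat_lit 0), (nat_lit 0), (43, 8, 25), [27396, 3389618], 0⟩,
  mz,
  mz,
  ⟨⟨-9, 8, -59, 52, -5, -36, -8, -40, -23⟩, (.cons (nat_lit 502713) (nat_lit 223194) (nat_lit 1) (nat_lit
 478547) (.cons (nat_lit 192450) (nat_lit 2097715) (nat_lit 335375) (nat_lit 1) .nil)), (nat_lit 10), (nat_lit
 0), (nat_lit 0), (nat_lit 0), (2, 12, 43), [923126, 1225167], 0⟩,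
  ⟨⟨-1, 48, 37, 52, -5, -16, 8, 40, -31⟩, (.cons (nat_lit 700414) (nat_lit 901986) (nat_lit 384563) (nat_lit 1)
 (.cons (nat_lit 2245233) (nat_lit 1830204) (nat_lit 2087918) (nat_lit 1) .nil)), (nat_lit 6), (nat_lit 0),
 (nat_lit 0), (nat_lit 0), (26, 26, 4), [334776, 1839490], 0⟩,
  ⟨⟨-57, 8, 37, 10, 33, 40, -18, 36, -19⟩, (.cons (nat_lit 717294) (nat_lit 117023) (nat_lit 364780) (nat_lit
 1) (.cons (nat_lit 3047497) (nat_lit 2215860) (nat_lit 3173892) (nat_lit 1) .nil)), (nat_lit 33), (nat_lit 0),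
 (nat_lit 0), (nat_lit 0), (40, 6, 21), [145285, 2685949], 0⟩,
  ⟨⟨15, -56, -11, -28, -5, -36, 40, -8, -47⟩, (.cons (nat_lit 916077) (nat_lit 793566) (nat_lit 533695)
 (nat_lit 1) (.cons (nat_lit 90546) (nat_lit 1836924) (nat_lit 2431821) (nat_lit 1) .nil)), (nat_lit 28),
 (nat_lit 0), (nat_lit 0), (nat_lit 0), (31, 34, 12), [197719, 596532], 0⟩,
  ⟨⟨-9, -8, -59, -52, -5, 36, -8, 40, -23⟩, (.cons (nat_lit 776019) (nat_lit 17964) (nat_lit 663642) (nat_lit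
 1) (.cons (nat_lit 3059481) (nat_lit 3037353) (nat_lit 596400) (nat_lit 1) .nil)), (nat_lit 26), (nat_lit 0),
 (nat_lit 0), (nat_lit 0), (29, 38, 14), [388152, 907293], 0⟩,
  ⟨⟨31, 48, -4, -10, 17, -50, 46, -4, -35⟩, (.cons (nat_lit 676794) (nat_lit 83210) (nat_lit 406448) (nat_lit
 1) (.cons (nat_lit 3172211) (nat_lit 2923479) (nat_lit 1003604) (nat_lit 1) .nil)), (nat_lit 11), (nat_lit 0),
 (nat_lit 0), (nat_lit 0), (15, 2, 12), [897989, 3162612], 0⟩,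
  ⟨⟨-57, 4, 40, -8, -45, -26, -24, 24, -25⟩, (.cons (nat_lit 870343) (nat_lit 342524) (nat_lit 578563) (nat_lit
 1) (.cons (nat_lit 425825) (nat_lit 265612) (nat_lit 132844) (nat_lit 1) .nil)), (nat_lit 9), (nat_lit 0),
 (nat_lit 0), (nat_lit 0), (25, 50, 44), [862380, 3029861], 0⟩,
  ⟨⟨-1, 12, -63, 50, -17, -30, 14, 44, -19⟩, (.cons (nat_lit 267378) (nat_lit 259096) (nat_lit 578715) (nat_lit
 1) (.cons (nat_lit 1950300) (nat_lit 1995896) (nat_lit 345400) (nat_lit 1) .nil)), (nat_lit 16), (nat_lit 0),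
 (nat_lit 0), (nat_lit 0), (30, 37, 4), [290189, 676971], 0⟩,
  ⟨⟨1, 12, -64, 50, 17, -20, -14, 44, -5⟩, (.cons (nat_lit 332043) (nat_lit 815164) (nat_lit 69638) (nat_lit 1)
 (.cons (nat_lit 581160) (nat_lit 2566019) (nat_lit 1856483) (nat_lit 1) .nil)), (nat_lit 48), (nat_lit 0),
 (nat_lit 0), (nat_lit 0), (42, 33, 48), [567467, 2596904], 0⟩,
  mz,
  ⟨⟨-13, -48, -27, 30, 17, -60, 30, -36, -7⟩, (.cons (nat_lit 644623) (nat_lit 220252) (nat_lit 636886)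
 (nat_lit 1) (.cons (nat_lit 313385) (nat_lit 1897701) (nat_lit 2253490) (nat_lit 1) .nil)), (nat_lit 29),
 (nat_lit 0), (nat_lit 0), (nat_lit 0), (14, 37, 37), [80080, 1086747], 0⟩,
  ⟨⟨-15, -32, 59, -50, 17, 20, -14, -44, -5⟩, (.cons (nat_lit 833171) (nat_lit 264754) (nat_lit 912479)
 (nat_lit 1) (.cons (nat_lit 146693) (nat_lit 202817) (nat_lit 1397734) (nat_lit 1) .nil)), (nat_lit 41),
 (nat_lit 0), (nat_lit 0), (nat_lit 0), (8, 9, 11), [711768, 327510], 0⟩,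
  ⟨⟨15, -52, 16, 10, -17, -60, 46, -4, -11⟩, (.cons (nat_lit 878711) (nat_lit 396248) (nat_lit 824842) (nat_lit
 1) (.cons (nat_lit 278835) (nat_lit 1021818) (nat_lit 1897309) (nat_lit 1) .nil)), (nat_lit 44), (nat_lit 0),
 (nat_lit 0), (nat_lit 0), (14, 27, 50), [395619, 2520853], 0⟩,
  ⟨⟨-39, -28, -17, -10, -33, 50, 18, -36, -37⟩, (.cons (nat_lit 458803) (nat_lit 811691) (nat_lit 581472)
 (nat_lit 1) (.cons (nat_lit 905018) (nat_lit 427730) (nat_lit 1636948) (nat_lit 1) .nil)), (nat_lit 38),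
 (nat_lit 0), (nat_lit 0), (nat_lit 0), (5, 4, 14), [10129, 1652960], 0⟩,
  ⟨⟨39, -28, -56, -10, 33, -40, -18, -36, -19⟩, (.cons (nat_lit 923520) (nat_lit 434446) (nat_lit 417550)
 (nat_lit 1) (.cons (nat_lit 3418800) (nat_lit 1727362) (nat_lit 2679058) (nat_lit 1) .nil)), (nat_lit 50),
 (nat_lit 0), (nat_lit 0), (nat_lit 0), (49, 35, 10), [65050, 963025], 0⟩,
  mz,
  ⟨⟨-13, -48, 40, -30, -17, -30, 30, -36, -23⟩, (.cons (nat_lit 923520) (nat_lit 887747) (nat_lit 853256)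
 (nat_lit 1) (.cons (nat_lit 3418800) (nat_lit 1320800) (nat_lit 1151545) (nat_lit 1) .nil)), (nat_lit 52),
 (nat_lit 0), (nat_lit 0), (nat_lit 0), (45, 6, 47), [383014, 199856], 0⟩]

/-- Moves. -/
noncomputable def t4_4 : List Mv := [
  mz,
  mz,
  mz,
  mz,
  ⟨⟨-53, 0, 0, -10, 47, 30, -2, 20, -47⟩, (.cons (nat_lit 923520) (nat_lit 597169) (nat_lit 520746) (nat_lit 1)
 (.cons (nat_lit 3418800) (nat_lit 3081381) (nat_lit 1641372) (nat_lit 1) .nil)), (nat_lit 4), (nat_lit 0),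
 (nat_lit 0), (nat_lit 0), (0, 14, 24), [389374, 2145285], 0⟩,
  ⟨⟨51, -20, -47, -10, -47, 30, -2, -20, -47⟩, (.cons (nat_lit 56559) (nat_lit 549459) (nat_lit 536516)
 (nat_lit 1) (.cons (nat_lit 644809) (nat_lit 53698) (nat_lit 951308) (nat_lit 1) .nil)), (nat_lit 12),
 (nat_lit 0), (nat_lit 0), (nat_lit 0), (12, 7, 12), [440736, 14635], 0⟩,
  ⟨⟨15, 56, -11, 28, -5, 36, 40, 8, -47⟩, (.cons (nat_lit 763712) (nat_lit 475952) (nat_lit 1) (nat_lit 131316)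
 (.cons (nat_lit 983908) (nat_lit 1924289) (nat_lit 690545) (nat_lit 1) .nil)), (nat_lit 37), (nat_lit 0),
 (nat_lit 0), (nat_lit 0), (1, 16, 38), [775577, 1271607], 0⟩,
  mz,
  mz,
  ⟨⟨-33, -20, -32, 8, 45, -34, 24, -24, -49⟩, (.cons (nat_lit 231753) (nat_lit 818921) (nat_lit 788799)
 (nat_lit 1) (.cons (nat_lit 1040042) (nat_lit 1601343) (nat_lit 1126126) (nat_lit 1) .nil)), (nat_lit 18),
 (nat_lit 0), (nat_lit 0), (nat_lit 0), (35, 14, 42), [203698, 880751], 0⟩,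
  ⟨⟨-25, 48, -11, 28, -5, -64, -40, -8, -7⟩, (.cons (nat_lit 135160) (nat_lit 254855) (nat_lit 867617) (nat_lit
 1) (.cons (nat_lit 3056385) (nat_lit 3282269) (nat_lit 52848) (nat_lit 1) .nil)), (nat_lit 36), (nat_lit 0),
 (nat_lit 0), (nat_lit 0), (52, 52, 9), [385027, 2967509], 0⟩,
  ⟨⟨15, -32, 44, 50, 17, -30, 14, -44, -19⟩, (.cons (nat_lit 657743) (nat_lit 753514) (nat_lit 685174) (nat_lit
 1) (.cons (nat_lit 2911381) (nat_lit 285076) (nat_lit 1238725) (nat_lit 1) .nil)), (nat_lit 41), (nat_lit 0),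
 (nat_lit 0), (nat_lit 0), (29, 26, 20), [608874, 1613339], 0⟩,
  ⟨⟨53, 0, -53, -10, -47, -20, 2, 20, -49⟩, (.cons (nat_lit 601181) (nat_lit 680201) (nat_lit 177938) (nat_lit
 1) (.cons (nat_lit 1476543) (nat_lit 1426778) (nat_lit 1410616) (nat_lit 1) .nil)), (nat_lit 5), (nat_lit 0),
 (nat_lit 0), (nat_lit 0), (0, 25, 48), [852970, 545122], 0⟩,
  mz,
  mz,
  ⟨⟨-51, -20, 4, -10, 47, -20, 2, -20, -49⟩, (.cons (nat_lit 923520) (nat_lit 272215) (nat_lit 495164) (nat_lit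
 1) (.cons (nat_lit 3418800) (nat_lit 3085972) (nat_lit 1294446) (nat_lit 1) .nil)), (nat_lit 15), (nat_lit 0),
 (nat_lit 0), (nat_lit 0), (36, 32, 36), [553860, 3070516], 0⟩,
  ⟨⟨31, -48, -27, 10, 17, -60, 46, 4, -11⟩, (.cons (nat_lit 457519) (nat_lit 889215) (nat_lit 362615) (nat_lit
 1) (.cons (nat_lit 1741215) (nat_lit 2376482) (nat_lit 2716915) (nat_lit 1) .nil)), (nat_lit 43), (nat_lit 0),
 (nat_lit 0), (nat_lit 0), (39, 16, 10), [632879, 2512835], 0⟩,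
  ⟨⟨31, -48, -4, -10, -17, -50, 46, 4, -35⟩, (.cons (nat_lit 789345) (nat_lit 163142) (nat_lit 328617) (nat_lit
 1) (.cons (nat_lit 122171) (nat_lit 2250697) (nat_lit 1464028) (nat_lit 1) .nil)), (nat_lit 11), (nat_lit 0),
 (nat_lit 0), (nat_lit 0), (18, 13, 25), [55956, 3139581], 0⟩,
  ⟨⟨-57, -4, 40, -8, 45, -26, -24, -24, -25⟩, (.cons (nat_lit 643105) (nat_lit 436881) (nat_lit 269195)
 (nat_lit 1) (.cons (nat_lit 1683537) (nat_lit 2688767) (nat_lit 794082) (nat_lit 1) .nil)), (nat_lit 9),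
 (nat_lit 0), (nat_lit 0), (nat_lit 0), (12, 24, 19), [5621, 121887], 0⟩,
  mz,
  mz,
  ⟨⟨57, 4, -17, -8, 45, 34, 24, 24, -49⟩, (.cons (nat_lit 923520) (nat_lit 444586) (nat_lit 469087) (nat_lit 1)
 (.cons (nat_lit 3418800) (nat_lit 2095858) (nat_lit 3313068) (nat_lit 1) .nil)), (nat_lit 21), (nat_lit 0),
 (nat_lit 0), (nat_lit 0), (20, 13, 14), [40439, 1984389], 0⟩,
  ⟨⟨45, 28, -49, 28, -45, -14, 0, 0, -53⟩, (.cons (nat_lit 923520) (nat_lit 722025) (nat_lit 71029) (nat_lit 1)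
 (.cons (nat_lit 3418800) (nat_lit 1216190) (nat_lit 523710) (nat_lit 1) .nil)), (nat_lit 22), (nat_lit 0),
 (nat_lit 0), (nat_lit 0), (24, 22, 0), [556344, 960675], 0⟩,
  mz,
  ⟨⟨-13, 48, -27, 30, -17, -60, 30, 36, -7⟩, (.cons (nat_lit 837350) (nat_lit 690003) (nat_lit 332981) (nat_lit
 1) (.cons (nat_lit 197261) (nat_lit 1446129) (nat_lit 867672) (nat_lit 1) .nil)), (nat_lit 29), (nat_lit 0),
 (nat_lit 0), (nat_lit 0), (11, 48, 48), [648089, 220616], 0⟩,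
  mz,
  ⟨⟨-25, -48, -11, -28, -5, 64, -40, 8, -7⟩, (.cons (nat_lit 552784) (nat_lit 409537) (nat_lit 491023) (nat_lit
 1) (.cons (nat_lit 624170) (nat_lit 3096520) (nat_lit 1158885) (nat_lit 1) .nil)), (nat_lit 40), (nat_lit 0),
 (nat_lit 0), (nat_lit 0), (2, 51, 35), [339483, 163325], 0⟩,
  mz,
  ⟨⟨-1, -48, 37, 52, 5, -16, 8, -40, -31⟩, (.cons (nat_lit 651459) (nat_lit 734610) (nat_lit 65407) (nat_lit 1)
 (.cons (nat_lit 213551) (nat_lit 2211076) (nat_lit 888558) (nat_lit 1) .nil)), (nat_lit 6), (nat_lit 0),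
 (nat_lit 0), (nat_lit 0), (29, 29, 33), [530995, 1953718], 0⟩,
  ⟨⟨43, -12, -63, -30, 17, -30, 30, 36, -23⟩, (.cons (nat_lit 337070) (nat_lit 217430) (nat_lit 372023)
 (nat_lit 1) (.cons (nat_lit 2427378) (nat_lit 70202) (nat_lit 1526039) (nat_lit 1) .nil)), (nat_lit 24),
 (nat_lit 0), (nat_lit 0), (nat_lit 0), (16, 48, 5), [89102, 973862], 0⟩,
  mz,
  ⟨⟨-45, 28, -4, -28, -45, 14, 0, 0, -53⟩, (.cons (nat_lit 681009) (nat_lit 780931) (nat_lit 729658) (nat_lit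
 1) (.cons (nat_lit 435634) (nat_lit 1143563) (nat_lit 2376511) (nat_lit 1) .nil)), (nat_lit 22), (nat_lit 0),
 (nat_lit 0), (nat_lit 0), (14, 4, 0), [319931, 116714], 0⟩,
  mz,
  ⟨⟨-39, 28, -17, 10, -33, -50, 18, 36, -37⟩, (.cons (nat_lit 249204) (nat_lit 227957) (nat_lit 20457) (nat_lit
 1) (.cons (nat_lit 1816463) (nat_lit 1396121) (nat_lit 2702585) (nat_lit 1) .nil)), (nat_lit 50), (nat_lit 0),
 (nat_lit 0), (nat_lit 0), (43, 8, 25), [27396, 3389618], 0⟩,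
  mz,
  mz,
  ⟨⟨-9, 8, -59, 52, -5, -36, -8, -40, -23⟩, (.cons (nat_lit 502713) (nat_lit 223194) (nat_lit 1) (nat_lit
 478547) (.cons (nat_lit 192450) (nat_lit 2097715) (nat_lit 335375) (nat_lit 1) .nil)), (nat_lit 10), (nat_lit
 0), (nat_lit 0), (nat_lit 0), (2, 12, 43), [923126, 1225167], 0⟩,
  ⟨⟨-1, 48, 37, 52, -5, -16, 8, 40, -31⟩, (.cons (nat_lit 700414) (nat_lit 901986) (nat_lit 384563) (nat_lit 1)
 (.cons (nat_lit 2245233) (nat_lit 1830204) (nat_lit 2087918) (nat_lit 1) .nil)), (nat_lit 6), (nat_lit 0),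
 (nat_lit 0), (nat_lit 0), (26, 26, 4), [334776, 1839490], 0⟩,
  ⟨⟨39, 28, -56, -10, -33, -40, -18, 36, -19⟩, (.cons (nat_lit 526559) (nat_lit 54010) (nat_lit 738877)
 (nat_lit 1) (.cons (nat_lit 1616270) (nat_lit 342793) (nat_lit 551569) (nat_lit 1) .nil)), (nat_lit 50),
 (nat_lit 0), (nat_lit 0), (nat_lit 0), (34, 47, 21), [576118, 1429506], 0⟩,
  ⟨⟨25, 48, -36, 28, 5, 36, 40, -8, -47⟩, (.cons (nat_lit 204357) (nat_lit 496553) (nat_lit 681557) (nat_lit 1)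
 (.cons (nat_lit 2830204) (nat_lit 2300814) (nat_lit 2542318) (nat_lit 1) .nil)), (nat_lit 40), (nat_lit 0),
 (nat_lit 0), (nat_lit 0), (34, 19, 12), [345328, 309613], 0⟩,
  ⟨⟨1, 48, 36, 52, 5, -36, -8, 40, -23⟩, (.cons (nat_lit 9201) (nat_lit 797755) (nat_lit 625154) (nat_lit 1)
 (.cons (nat_lit 2681513) (nat_lit 1359446) (nat_lit 1366916) (nat_lit 1) .nil)), (nat_lit 39), (nat_lit 0),
 (nat_lit 0), (nat_lit 0), (38, 15, 14), [170998, 3402858], 0⟩,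
  ⟨⟨31, 48, -4, 10, -17, 50, 46, -4, -35⟩, (.cons (nat_lit 871656) (nat_lit 551454) (nat_lit 712701) (nat_lit
 1) (.cons (nat_lit 2910267) (nat_lit 390613) (nat_lit 3397255) (nat_lit 1) .nil)), (nat_lit 43), (nat_lit 0),
 (nat_lit 0), (nat_lit 0), (15, 51, 12), [237448, 1840829], 0⟩,
  ⟨⟨-57, 4, 40, -8, -45, -26, -24, 24, -25⟩, (.cons (nat_lit 870343) (nat_lit 342524) (nat_lit 578563) (nat_lit
 1) (.cons (nat_lit 425825) (nat_lit 265612) (nat_lit 132844) (nat_lit 1) .nil)), (nat_lit 9), (nat_lit 0),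
 (nat_lit 0), (nat_lit 0), (25, 50, 44), [862380, 3029861], 0⟩,
  ⟨⟨-1, 12, -63, -50, 17, 30, 14, 44, -19⟩, (.cons (nat_lit 137576) (nat_lit 798957) (nat_lit 211) (nat_lit 1)
 (.cons (nat_lit 220360) (nat_lit 2958222) (nat_lit 298720) (nat_lit 1) .nil)), (nat_lit 48), (nat_lit 0),
 (nat_lit 0), (nat_lit 0), (30, 16, 4), [232904, 1190417], 0⟩,
  ⟨⟨-15, 32, 59, 50, 17, -20, -14, 44, -5⟩, (.cons (nat_lit 368150) (nat_lit 695753) (nat_lit 761742) (nat_lit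
 1) (.cons (nat_lit 2047043) (nat_lit 1451686) (nat_lit 1552473) (nat_lit 1) .nil)), (nat_lit 17), (nat_lit 0),
 (nat_lit 0), (nat_lit 0), (6, 33, 48), [534310, 1044174], 0⟩,
  mz,
  ⟨⟨43, 12, 20, -30, -17, 60, 30, -36, -7⟩, (.cons (nat_lit 580582) (nat_lit 213027) (nat_lit 104343) (nat_lit
 1) (.cons (nat_lit 473015) (nat_lit 1850875) (nat_lit 843175) (nat_lit 1) .nil)), (nat_lit 24), (nat_lit 0),
 (nat_lit 0), (nat_lit 0), (23, 16, 37), [410697, 4560], 0⟩,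
  ⟨⟨-15, -32, 59, 50, -17, -20, -14, -44, -5⟩, (.cons (nat_lit 692034) (nat_lit 3352) (nat_lit 355592) (nat_lit
 1) (.cons (nat_lit 2537145) (nat_lit 1875344) (nat_lit 3250688) (nat_lit 1) .nil)), (nat_lit 17), (nat_lit 0),
 (nat_lit 0), (nat_lit 0), (8, 44, 11), [784906, 2033211], 0⟩,
  ⟨⟨15, -52, 16, 10, -17, -60, 46, -4, -11⟩, (.cons (nat_lit 878711) (nat_lit 396248) (nat_lit 824842) (nat_lit
 1) (.cons (nat_lit 278835) (nat_lit 1021818) (nat_lit 1897309) (nat_lit 1) .nil)), (nat_lit 44), (nat_lit 0),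
 (nat_lit 0), (nat_lit 0), (14, 27, 50), [395619, 2520853], 0⟩,
  ⟨⟨57, -8, -20, -10, -33, 50, 18, -36, -37⟩, (.cons (nat_lit 360056) (nat_lit 448534) (nat_lit 220895)
 (nat_lit 1) (.cons (nat_lit 773530) (nat_lit 2895998) (nat_lit 1081603) (nat_lit 1) .nil)), (nat_lit 33),
 (nat_lit 0), (nat_lit 0), (nat_lit 0), (9, 4, 14), [850224, 3082624], 0⟩,
  ⟨⟨39, -28, -56, -10, 33, -40, -18, -36, -19⟩, (.cons (nat_lit 923520) (nat_lit 434446) (nat_lit 417550)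
 (nat_lit 1) (.cons (nat_lit 3418800) (nat_lit 1727362) (nat_lit 2679058) (nat_lit 1) .nil)), (nat_lit 50),
 (nat_lit 0), (nat_lit 0), (nat_lit 0), (49, 35, 10), [65050, 963025], 0⟩,
  mz,
  ⟨⟨43, 12, -63, -30, -17, -30, 30, -36, -23⟩, (.cons (nat_lit 413547) (nat_lit 434202) (nat_lit 140844)
 (nat_lit 1) (.cons (nat_lit 1107165) (nat_lit 1719558) (nat_lit 2560354) (nat_lit 1) .nil)), (nat_lit 24),
 (nat_lit 0), (nat_lit 0), (nat_lit 0), (2, 6, 47), [503004, 1615717], 0⟩]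

/-- Moves. -/
noncomputable def t4_6 : List Mv := [
  mz,
  mz,
  mz,
  mz,
  ⟨⟨-53, 0, 0, -10, 47, 30, -2, 20, -47⟩, (.cons (nat_lit 923520) (nat_lit 597169) (nat_lit 520746) (nat_lit 1)
 (.cons (nat_lit 3418800) (nat_lit 3081381) (nat_lit 1641372) (nat_lit 1) .nil)), (nat_lit 4), (nat_lit 0),
 (nat_lit 0), (nat_lit 0), (0, 14, 24), [389374, 2145285], 0⟩,
  ⟨⟨51, -20, -47, 10, 47, -30, -2, -20, -47⟩, (.cons (nat_lit 323075) (nat_lit 218263) (nat_lit 880307)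
 (nat_lit 1) (.cons (nat_lit 2117880) (nat_lit 877621) (nat_lit 932911) (nat_lit 1) .nil)), (nat_lit 15),
 (nat_lit 0), (nat_lit 0), (nat_lit 0), (12, 46, 12), [807673, 1424175], 0⟩,
  ⟨⟨15, 56, -11, -28, 5, -36, 40, 8, -47⟩, (.cons (nat_lit 524308) (nat_lit 844859) (nat_lit 615458) (nat_lit
 1) (.cons (nat_lit 742319) (nat_lit 1609244) (nat_lit 2628530) (nat_lit 1) .nil)), (nat_lit 28), (nat_lit 0),
 (nat_lit 0), (nat_lit 0), (1, 37, 38), [403024, 2691079], 0⟩,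
  mz,
  mz,
  ⟨⟨-33, -20, -32, 8, 45, -34, 24, -24, -49⟩, (.cons (nat_lit 231753) (nat_lit 818921) (nat_lit 788799)
 (nat_lit 1) (.cons (nat_lit 1040042) (nat_lit 1601343) (nat_lit 1126126) (nat_lit 1) .nil)), (nat_lit 18),
 (nat_lit 0), (nat_lit 0), (nat_lit 0), (35, 14, 42), [203698, 880751], 0⟩,
  ⟨⟨-25, 48, -11, 28, -5, -64, -40, -8, -7⟩, (.cons (nat_lit 135160) (nat_lit 254855) (nat_lit 867617) (nat_lit
 1) (.cons (nat_lit 3056385) (nat_lit 3282269) (nat_lit 52848) (nat_lit 1) .nil)), (nat_lit 36), (nat_lit 0),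
 (nat_lit 0), (nat_lit 0), (52, 52, 9), [385027, 2967509], 0⟩,
  ⟨⟨15, -32, 44, 50, 17, -30, 14, -44, -19⟩, (.cons (nat_lit 657743) (nat_lit 753514) (nat_lit 685174) (nat_lit
 1) (.cons (nat_lit 2911381) (nat_lit 285076) (nat_lit 1238725) (nat_lit 1) .nil)), (nat_lit 41), (nat_lit 0),
 (nat_lit 0), (nat_lit 0), (29, 26, 20), [608874, 1613339], 0⟩,
  ⟨⟨53, 0, -53, -10, -47, -20, 2, 20, -49⟩, (.cons (nat_lit 601181) (nat_lit 680201) (nat_lit 177938) (nat_lit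
 1) (.cons (nat_lit 1476543) (nat_lit 1426778) (nat_lit 1410616) (nat_lit 1) .nil)), (nat_lit 5), (nat_lit 0),
 (nat_lit 0), (nat_lit 0), (0, 25, 48), [852970, 545122], 0⟩,
  mz,
  mz,
  ⟨⟨-51, -20, 4, 10, -47, 20, 2, -20, -49⟩, (.cons (nat_lit 147033) (nat_lit 641342) (nat_lit 248655) (nat_lit
 1) (.cons (nat_lit 646567) (nat_lit 1323316) (nat_lit 3029374) (nat_lit 1) .nil)), (nat_lit 12), (nat_lit 0),
 (nat_lit 0), (nat_lit 0), (36, 21, 36), [685991, 2728150], 0⟩,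
  ⟨⟨15, 52, 16, 10, 17, -60, 46, 4, -11⟩, (.cons (nat_lit 408793) (nat_lit 76015) (nat_lit 680672) (nat_lit 1)
 (.cons (nat_lit 3050834) (nat_lit 2896135) (nat_lit 366621) (nat_lit 1) .nil)), (nat_lit 44), (nat_lit 0),
 (nat_lit 0), (nat_lit 0), (24, 16, 10), [891172, 1409584], 0⟩,
  ⟨⟨15, 52, -31, 10, 17, 50, 46, 4, -35⟩, (.cons (nat_lit 794504) (nat_lit 494164) (nat_lit 256878) (nat_lit 1)
 (.cons (nat_lit 3268579) (nat_lit 114905) (nat_lit 2088791) (nat_lit 1) .nil)), (nat_lit 44), (nat_lit 0),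
 (nat_lit 0), (nat_lit 0), (7, 40, 25), [591330, 2716719], 0⟩,
  ⟨⟨-57, -4, 40, -8, 45, -26, -24, -24, -25⟩, (.cons (nat_lit 643105) (nat_lit 436881) (nat_lit 269195)
 (nat_lit 1) (.cons (nat_lit 1683537) (nat_lit 2688767) (nat_lit 794082) (nat_lit 1) .nil)), (nat_lit 9),
 (nat_lit 0), (nat_lit 0), (nat_lit 0), (12, 24, 19), [5621, 121887], 0⟩,
  mz,
  mz,
  ⟨⟨-33, 20, -32, -8, 45, 34, 24, 24, -49⟩, (.cons (nat_lit 160143) (nat_lit 112253) (nat_lit 636232) (nat_lit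
 1) (.cons (nat_lit 1194928) (nat_lit 70611) (nat_lit 933233) (nat_lit 1) .nil)), (nat_lit 42), (nat_lit 0),
 (nat_lit 0), (nat_lit 0), (47, 13, 14), [835509, 246888], 0⟩,
  ⟨⟨45, 28, -49, -28, 45, 14, 0, 0, -53⟩, (.cons (nat_lit 793694) (nat_lit 856916) (nat_lit 537140) (nat_lit 1)
 (.cons (nat_lit 60846) (nat_lit 159196) (nat_lit 995538) (nat_lit 1) .nil)), (nat_lit 31), (nat_lit 0),
 (nat_lit 0), (nat_lit 0), (24, 31, 0), [449007, 2921782], 0⟩,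
  mz,
  ⟨⟨-13, 48, -27, 30, -17, -60, 30, 36, -7⟩, (.cons (nat_lit 837350) (nat_lit 690003) (nat_lit 332981) (nat_lit
 1) (.cons (nat_lit 197261) (nat_lit 1446129) (nat_lit 867672) (nat_lit 1) .nil)), (nat_lit 29), (nat_lit 0),
 (nat_lit 0), (nat_lit 0), (11, 48, 48), [648089, 220616], 0⟩,
  mz,
  ⟨⟨-15, 56, 4, 28, 5, -64, -40, 8, -7⟩, (.cons (nat_lit 261479) (nat_lit 386264) (nat_lit 200107) (nat_lit 1)
 (.cons (nat_lit 1974937) (nat_lit 1883326) (nat_lit 1412696) (nat_lit 1) .nil)), (nat_lit 28), (nat_lit 0),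
 (nat_lit 0), (nat_lit 0), (33, 2, 35), [648026, 2942414], 0⟩,
  mz,
  ⟨⟨9, 8, -68, -52, -5, 16, 8, -40, -31⟩, (.cons (nat_lit 495055) (nat_lit 578093) (nat_lit 141978) (nat_lit 1)
 (.cons (nat_lit 792809) (nat_lit 3332374) (nat_lit 651045) (nat_lit 1) .nil)), (nat_lit 10), (nat_lit 0),
 (nat_lit 0), (nat_lit 0), (4, 24, 33), [827624, 1696834], 0⟩,
  ⟨⟨43, -12, -63, -30, 17, -30, 30, 36, -23⟩, (.cons (nat_lit 337070) (nat_lit 217430) (nat_lit 372023)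
 (nat_lit 1) (.cons (nat_lit 2427378) (nat_lit 70202) (nat_lit 1526039) (nat_lit 1) .nil)), (nat_lit 24),
 (nat_lit 0), (nat_lit 0), (nat_lit 0), (16, 48, 5), [89102, 973862], 0⟩,
  mz,
  ⟨⟨45, -28, -49, -28, -45, 14, 0, 0, -53⟩, (.cons (nat_lit 923520) (nat_lit 63187) (nat_lit 509813) (nat_lit
 1) (.cons (nat_lit 3418800) (nat_lit 524192) (nat_lit 3033637) (nat_lit 1) .nil)), (nat_lit 31), (nat_lit 0),
 (nat_lit 0), (nat_lit 0), (39, 4, 0), [450130, 752856], 0⟩,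
  mz,
  ⟨⟨57, 8, -20, 10, -33, -50, 18, 36, -37⟩, (.cons (nat_lit 720991) (nat_lit 371376) (nat_lit 660068) (nat_lit
 1) (.cons (nat_lit 2774045) (nat_lit 3151129) (nat_lit 2995888) (nat_lit 1) .nil)), (nat_lit 49), (nat_lit 0),
 (nat_lit 0), (nat_lit 0), (35, 8, 25), [692554, 840449], 0⟩,
  mz,
  mz,
  ⟨⟨-9, 8, -59, 52, -5, -36, -8, -40, -23⟩, (.cons (nat_lit 502713) (nat_lit 223194) (nat_lit 1) (nat_lit
 478547) (.cons (nat_lit 192450) (nat_lit 2097715) (nat_lit 335375) (nat_lit 1) .nil)), (nat_lit 10), (nat_lit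
 0), (nat_lit 0), (nat_lit 0), (2, 12, 43), [923126, 1225167], 0⟩,
  ⟨⟨-1, 48, 37, 52, -5, -16, 8, 40, -31⟩, (.cons (nat_lit 700414) (nat_lit 901986) (nat_lit 384563) (nat_lit 1)
 (.cons (nat_lit 2245233) (nat_lit 1830204) (nat_lit 2087918) (nat_lit 1) .nil)), (nat_lit 6), (nat_lit 0),
 (nat_lit 0), (nat_lit 0), (26, 26, 4), [334776, 1839490], 0⟩,
  ⟨⟨39, 28, -56, -10, -33, -40, -18, 36, -19⟩, (.cons (nat_lit 526559) (nat_lit 54010) (nat_lit 738877)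
 (nat_lit 1) (.cons (nat_lit 1616270) (nat_lit 342793) (nat_lit 551569) (nat_lit 1) .nil)), (nat_lit 50),
 (nat_lit 0), (nat_lit 0), (nat_lit 0), (34, 47, 21), [576118, 1429506], 0⟩,
  ⟨⟨15, -56, -11, 28, 5, 36, 40, -8, -47⟩, (.cons (nat_lit 41895) (nat_lit 785837) (nat_lit 685380) (nat_lit 1)
 (.cons (nat_lit 1466442) (nat_lit 1103668) (nat_lit 2863098) (nat_lit 1) .nil)), (nat_lit 37), (nat_lit 0),
 (nat_lit 0), (nat_lit 0), (31, 19, 12), [749296, 588855], 0⟩,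
  ⟨⟨-9, -8, -59, 52, 5, -36, -8, 40, -23⟩, (.cons (nat_lit 253647) (nat_lit 287021) (nat_lit 517174) (nat_lit
 1) (.cons (nat_lit 2858435) (nat_lit 546142) (nat_lit 1422085) (nat_lit 1) .nil)), (nat_lit 10), (nat_lit 0),
 (nat_lit 0), (nat_lit 0), (29, 15, 14), [572966, 753714], 0⟩,
  ⟨⟨31, 48, -4, -10, 17, -50, 46, -4, -35⟩, (.cons (nat_lit 676794) (nat_lit 83210) (nat_lit 406448) (nat_lit
 1) (.cons (nat_lit 3172211) (nat_lit 2923479) (nat_lit 1003604) (nat_lit 1) .nil)), (nat_lit 11), (nat_lit 0),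
 (nat_lit 0), (nat_lit 0), (15, 2, 12), [897989, 3162612], 0⟩,
  ⟨⟨-57, 4, 40, -8, -45, -26, -24, 24, -25⟩, (.cons (nat_lit 870343) (nat_lit 342524) (nat_lit 578563) (nat_lit
 1) (.cons (nat_lit 425825) (nat_lit 265612) (nat_lit 132844) (nat_lit 1) .nil)), (nat_lit 9), (nat_lit 0),
 (nat_lit 0), (nat_lit 0), (25, 50, 44), [862380, 3029861], 0⟩,
  ⟨⟨15, 32, 44, -50, 17, 30, 14, 44, -19⟩, (.cons (nat_lit 871466) (nat_lit 650171) (nat_lit 780315) (nat_lit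
 1) (.cons (nat_lit 2611534) (nat_lit 3028668) (nat_lit 2938017) (nat_lit 1) .nil)), (nat_lit 17), (nat_lit 0),
 (nat_lit 0), (nat_lit 0), (27, 16, 4), [294337, 3119354], 0⟩,
  ⟨⟨-15, 32, 59, 50, 17, -20, -14, 44, -5⟩, (.cons (nat_lit 368150) (nat_lit 695753) (nat_lit 761742) (nat_lit
 1) (.cons (nat_lit 2047043) (nat_lit 1451686) (nat_lit 1552473) (nat_lit 1) .nil)), (nat_lit 17), (nat_lit 0),
 (nat_lit 0), (nat_lit 0), (6, 33, 48), [534310, 1044174], 0⟩,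
  mz,
  ⟨⟨-13, -48, -27, 30, 17, -60, 30, -36, -7⟩, (.cons (nat_lit 644623) (nat_lit 220252) (nat_lit 636886)
 (nat_lit 1) (.cons (nat_lit 313385) (nat_lit 1897701) (nat_lit 2253490) (nat_lit 1) .nil)), (nat_lit 29),
 (nat_lit 0), (nat_lit 0), (nat_lit 0), (14, 37, 37), [80080, 1086747], 0⟩,
  ⟨⟨-15, -32, 59, 50, -17, -20, -14, -44, -5⟩, (.cons (nat_lit 692034) (nat_lit 3352) (nat_lit 355592) (nat_lit
 1) (.cons (nat_lit 2537145) (nat_lit 1875344) (nat_lit 3250688) (nat_lit 1) .nil)), (nat_lit 17), (nat_lit 0),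
 (nat_lit 0), (nat_lit 0), (8, 44, 11), [784906, 2033211], 0⟩,
  ⟨⟨31, 48, -27, 10, -17, -60, 46, -4, -11⟩, (.cons (nat_lit 465325) (nat_lit 718298) (nat_lit 633172) (nat_lit
 1) (.cons (nat_lit 1850568) (nat_lit 1737965) (nat_lit 1354735) (nat_lit 1) .nil)), (nat_lit 43), (nat_lit 0),
 (nat_lit 0), (nat_lit 0), (36, 27, 50), [457552, 1920917], 0⟩,
  ⟨⟨-39, -28, -17, 10, 33, -50, 18, -36, -37⟩, (.cons (nat_lit 184235) (nat_lit 136800) (nat_lit 134362)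
 (nat_lit 1) (.cons (nat_lit 695741) (nat_lit 839713) (nat_lit 1233899) (nat_lit 1) .nil)), (nat_lit 50),
 (nat_lit 0), (nat_lit 0), (nat_lit 0), (5, 49, 14), [258337, 474029], 0⟩,
  ⟨⟨39, -28, -56, 10, -33, 40, -18, -36, -19⟩, (.cons (nat_lit 452436) (nat_lit 297300) (nat_lit 653687)
 (nat_lit 1) (.cons (nat_lit 254821) (nat_lit 2929298) (nat_lit 2382563) (nat_lit 1) .nil)), (nat_lit 38),
 (nat_lit 0), (nat_lit 0), (nat_lit 0), (49, 18, 10), [707438, 1136186], 0⟩,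
  mz,
  ⟨⟨43, 12, -63, 30, 17, 30, 30, -36, -23⟩, (.cons (nat_lit 790847) (nat_lit 258711) (nat_lit 1) (nat_lit
 567672) (.cons (nat_lit 2063332) (nat_lit 912378) (nat_lit 932265) (nat_lit 1) .nil)), (nat_lit 46), (nat_lit
 0), (nat_lit 0), (nat_lit 0), (2, 47, 47), [180223, 108850], 0⟩]

/-- Moves. -/
noncomputable def t4_8 : List Mv := [
  mz,
  mz,
  mz,
  mz,
  ⟨⟨-53, 0, 0, 10, -47, -30, -2, 20, -47⟩, (.cons (nat_lit 250780) (nat_lit 906615) (nat_lit 1) (nat_lit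
 383315) (.cons (nat_lit 2838507) (nat_lit 2683625) (nat_lit 648439) (nat_lit 1) .nil)), (nat_lit 5), (nat_lit
 0), (nat_lit 0), (nat_lit 0), (0, 39, 24), [789204, 2483089], 0⟩,
  ⟨⟨-53, 0, 0, -10, -47, 30, -2, -20, -47⟩, (.cons (nat_lit 507997) (nat_lit 426717) (nat_lit 363844) (nat_lit
 1) (.cons (nat_lit 939311) (nat_lit 2127348) (nat_lit 863029) (nat_lit 1) .nil)), (nat_lit 4), (nat_lit 0),
 (nat_lit 0), (nat_lit 0), (0, 7, 12), [264298, 846771], 0⟩,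
  ⟨⟨15, 56, -11, 28, -5, 36, 40, 8, -47⟩, (.cons (nat_lit 763712) (nat_lit 475952) (nat_lit 1) (nat_lit 131316)
 (.cons (nat_lit 983908) (nat_lit 1924289) (nat_lit 690545) (nat_lit 1) .nil)), (nat_lit 37), (nat_lit 0),
 (nat_lit 0), (nat_lit 0), (1, 16, 38), [775577, 1271607], 0⟩,
  mz,
  mz,
  ⟨⟨-33, -20, -32, 8, 45, -34, 24, -24, -49⟩, (.cons (nat_lit 231753) (nat_lit 818921) (nat_lit 788799)
 (nat_lit 1) (.cons (nat_lit 1040042) (nat_lit 1601343) (nat_lit 1126126) (nat_lit 1) .nil)), (nat_lit 18),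
 (nat_lit 0), (nat_lit 0), (nat_lit 0), (35, 14, 42), [203698, 880751], 0⟩,
  ⟨⟨-25, 48, -11, 28, -5, -64, -40, -8, -7⟩, (.cons (nat_lit 135160) (nat_lit 254855) (nat_lit 867617) (nat_lit
 1) (.cons (nat_lit 3056385) (nat_lit 3282269) (nat_lit 52848) (nat_lit 1) .nil)), (nat_lit 36), (nat_lit 0),
 (nat_lit 0), (nat_lit 0), (52, 52, 9), [385027, 2967509], 0⟩,
  ⟨⟨15, -32, 44, 50, 17, -30, 14, -44, -19⟩, (.cons (nat_lit 657743) (nat_lit 753514) (nat_lit 685174) (nat_lit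
 1) (.cons (nat_lit 2911381) (nat_lit 285076) (nat_lit 1238725) (nat_lit 1) .nil)), (nat_lit 41), (nat_lit 0),
 (nat_lit 0), (nat_lit 0), (29, 26, 20), [608874, 1613339], 0⟩,
  ⟨⟨-51, 20, 4, -10, -47, -20, 2, 20, -49⟩, (.cons (nat_lit 325523) (nat_lit 508915) (nat_lit 1) (nat_lit
 223913) (.cons (nat_lit 718392) (nat_lit 2947397) (nat_lit 755554) (nat_lit 1) .nil)), (nat_lit 15), (nat_lit
 0), (nat_lit 0), (nat_lit 0), (48, 25, 48), [781401, 931735], 0⟩,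
  mz,
  mz,
  ⟨⟨-51, -20, 4, -10, 47, -20, 2, -20, -49⟩, (.cons (nat_lit 923520) (nat_lit 272215) (nat_lit 495164) (nat_lit
 1) (.cons (nat_lit 3418800) (nat_lit 3085972) (nat_lit 1294446) (nat_lit 1) .nil)), (nat_lit 15), (nat_lit 0),
 (nat_lit 0), (nat_lit 0), (36, 32, 36), [553860, 3070516], 0⟩,
  ⟨⟨31, -48, -27, 10, 17, -60, 46, 4, -11⟩, (.cons (nat_lit 457519) (nat_lit 889215) (nat_lit 362615) (nat_lit
 1) (.cons (nat_lit 1741215) (nat_lit 2376482) (nat_lit 2716915) (nat_lit 1) .nil)), (nat_lit 43), (nat_lit 0),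
 (nat_lit 0), (nat_lit 0), (39, 16, 10), [632879, 2512835], 0⟩,
  ⟨⟨31, -48, -4, -10, -17, -50, 46, 4, -35⟩, (.cons (nat_lit 789345) (nat_lit 163142) (nat_lit 328617) (nat_lit
 1) (.cons (nat_lit 122171) (nat_lit 2250697) (nat_lit 1464028) (nat_lit 1) .nil)), (nat_lit 11), (nat_lit 0),
 (nat_lit 0), (nat_lit 0), (18, 13, 25), [55956, 3139581], 0⟩,
  ⟨⟨-57, -4, 40, -8, 45, -26, -24, -24, -25⟩, (.cons (nat_lit 643105) (nat_lit 436881) (nat_lit 269195)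
 (nat_lit 1) (.cons (nat_lit 1683537) (nat_lit 2688767) (nat_lit 794082) (nat_lit 1) .nil)), (nat_lit 9),
 (nat_lit 0), (nat_lit 0), (nat_lit 0), (12, 24, 19), [5621, 121887], 0⟩,
  mz,
  mz,
  ⟨⟨-33, 20, -32, 8, -45, -34, 24, 24, -49⟩, (.cons (nat_lit 557871) (nat_lit 437256) (nat_lit 801228) (nat_lit
 1) (.cons (nat_lit 2839974) (nat_lit 1812148) (nat_lit 2310072) (nat_lit 1) .nil)), (nat_lit 18), (nat_lit 0),
 (nat_lit 0), (nat_lit 0), (47, 40, 14), [856591, 2959298], 0⟩,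
  ⟨⟨45, 28, -49, 28, -45, -14, 0, 0, -53⟩, (.cons (nat_lit 923520) (nat_lit 722025) (nat_lit 71029) (nat_lit 1)
 (.cons (nat_lit 3418800) (nat_lit 1216190) (nat_lit 523710) (nat_lit 1) .nil)), (nat_lit 22), (nat_lit 0),
 (nat_lit 0), (nat_lit 0), (24, 22, 0), [556344, 960675], 0⟩,
  mz,
  ⟨⟨43, -12, 20, -30, 17, 60, 30, 36, -7⟩, (.cons (nat_lit 923520) (nat_lit 666503) (nat_lit 180738) (nat_lit
 1) (.cons (nat_lit 3418800) (nat_lit 2314592) (nat_lit 2764809) (nat_lit 1) .nil)), (nat_lit 24), (nat_lit 0),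
 (nat_lit 0), (nat_lit 0), (37, 5, 48), [676691, 3388795], 0⟩,
  mz,
  ⟨⟨-25, -48, -11, 28, 5, -64, -40, 8, -7⟩, (.cons (nat_lit 244145) (nat_lit 14157) (nat_lit 715101) (nat_lit
 1) (.cons (nat_lit 300408) (nat_lit 1071978) (nat_lit 321485) (nat_lit 1) .nil)), (nat_lit 36), (nat_lit 0),
 (nat_lit 0), (nat_lit 0), (2, 2, 35), [668282, 2798321], 0⟩,
  mz,
  ⟨⟨-1, -48, 37, 52, 5, -16, 8, -40, -31⟩, (.cons (nat_lit 651459) (nat_lit 734610) (nat_lit 65407) (nat_lit 1)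
 (.cons (nat_lit 213551) (nat_lit 2211076) (nat_lit 888558) (nat_lit 1) .nil)), (nat_lit 6), (nat_lit 0),
 (nat_lit 0), (nat_lit 0), (29, 29, 33), [530995, 1953718], 0⟩,
  ⟨⟨43, -12, -63, -30, 17, -30, 30, 36, -23⟩, (.cons (nat_lit 337070) (nat_lit 217430) (nat_lit 372023)
 (nat_lit 1) (.cons (nat_lit 2427378) (nat_lit 70202) (nat_lit 1526039) (nat_lit 1) .nil)), (nat_lit 24),
 (nat_lit 0), (nat_lit 0), (nat_lit 0), (16, 48, 5), [89102, 973862], 0⟩,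
  mz,
  ⟨⟨45, -28, -49, 28, 45, -14, 0, 0, -53⟩, (.cons (nat_lit 138478) (nat_lit 122963) (nat_lit 155462) (nat_lit
 1) (.cons (nat_lit 1161345) (nat_lit 441858) (nat_lit 205968) (nat_lit 1) .nil)), (nat_lit 22), (nat_lit 0),
 (nat_lit 0), (nat_lit 0), (39, 49, 0), [482239, 3242304], 0⟩,
  mz,
  ⟨⟨57, 8, -20, 10, -33, -50, 18, 36, -37⟩, (.cons (nat_lit 720991) (nat_lit 371376) (nat_lit 660068) (nat_lit
 1) (.cons (nat_lit 2774045) (nat_lit 3151129) (nat_lit 2995888) (nat_lit 1) .nil)), (nat_lit 49), (nat_lit 0),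
 (nat_lit 0), (nat_lit 0), (35, 8, 25), [692554, 840449], 0⟩,
  mz,
  mz,
  ⟨⟨-9, 8, -59, -52, 5, 36, -8, -40, -23⟩, (.cons (nat_lit 138026) (nat_lit 136354) (nat_lit 623291) (nat_lit
 1) (.cons (nat_lit 2227112) (nat_lit 2046784) (nat_lit 2716906) (nat_lit 1) .nil)), (nat_lit 26), (nat_lit 0),
 (nat_lit 0), (nat_lit 0), (2, 41, 43), [2258, 2001792], 0⟩,
  ⟨⟨-1, 48, 37, -52, 5, 16, 8, 40, -31⟩, (.cons (nat_lit 902337) (nat_lit 704983) (nat_lit 416279) (nat_lit 1)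
 (.cons (nat_lit 364263) (nat_lit 1649309) (nat_lit 1672281) (nat_lit 1) .nil)), (nat_lit 39), (nat_lit 0),
 (nat_lit 0), (nat_lit 0), (26, 27, 4), [78507, 1653403], 0⟩,
  ⟨⟨39, 28, -56, -10, -33, -40, -18, 36, -19⟩, (.cons (nat_lit 526559) (nat_lit 54010) (nat_lit 738877)
 (nat_lit 1) (.cons (nat_lit 1616270) (nat_lit 342793) (nat_lit 551569) (nat_lit 1) .nil)), (nat_lit 50),
 (nat_lit 0), (nat_lit 0), (nat_lit 0), (34, 47, 21), [576118, 1429506], 0⟩,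
  ⟨⟨15, -56, -11, -28, -5, -36, 40, -8, -47⟩, (.cons (nat_lit 916077) (nat_lit 793566) (nat_lit 533695)
 (nat_lit 1) (.cons (nat_lit 90546) (nat_lit 1836924) (nat_lit 2431821) (nat_lit 1) .nil)), (nat_lit 28),
 (nat_lit 0), (nat_lit 0), (nat_lit 0), (31, 34, 12), [197719, 596532], 0⟩,
  ⟨⟨-9, -8, -59, 52, 5, -36, -8, 40, -23⟩, (.cons (nat_lit 253647) (nat_lit 287021) (nat_lit 517174) (nat_lit
 1) (.cons (nat_lit 2858435) (nat_lit 546142) (nat_lit 1422085) (nat_lit 1) .nil)), (nat_lit 10), (nat_lit 0),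
 (nat_lit 0), (nat_lit 0), (29, 15, 14), [572966, 753714], 0⟩,
  ⟨⟨31, 48, -4, -10, 17, -50, 46, -4, -35⟩, (.cons (nat_lit 676794) (nat_lit 83210) (nat_lit 406448) (nat_lit
 1) (.cons (nat_lit 3172211) (nat_lit 2923479) (nat_lit 1003604) (nat_lit 1) .nil)), (nat_lit 11), (nat_lit 0),
 (nat_lit 0), (nat_lit 0), (15, 2, 12), [897989, 3162612], 0⟩,
  ⟨⟨-57, 4, 40, -8, -45, -26, -24, 24, -25⟩, (.cons (nat_lit 870343) (nat_lit 342524) (nat_lit 578563) (nat_lit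
 1) (.cons (nat_lit 425825) (nat_lit 265612) (nat_lit 132844) (nat_lit 1) .nil)), (nat_lit 9), (nat_lit 0),
 (nat_lit 0), (nat_lit 0), (25, 50, 44), [862380, 3029861], 0⟩,
  ⟨⟨-1, 12, -63, 50, -17, -30, 14, 44, -19⟩, (.cons (nat_lit 267378) (nat_lit 259096) (nat_lit 578715) (nat_lit
 1) (.cons (nat_lit 1950300) (nat_lit 1995896) (nat_lit 345400) (nat_lit 1) .nil)), (nat_lit 16), (nat_lit 0),
 (nat_lit 0), (nat_lit 0), (30, 37, 4), [290189, 676971], 0⟩,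
  ⟨⟨1, 12, -64, 50, 17, -20, -14, 44, -5⟩, (.cons (nat_lit 332043) (nat_lit 815164) (nat_lit 69638) (nat_lit 1)
 (.cons (nat_lit 581160) (nat_lit 2566019) (nat_lit 1856483) (nat_lit 1) .nil)), (nat_lit 48), (nat_lit 0),
 (nat_lit 0), (nat_lit 0), (42, 33, 48), [567467, 2596904], 0⟩,
  mz,
  ⟨⟨-13, -48, -27, -30, -17, 60, 30, -36, -7⟩, (.cons (nat_lit 347355) (nat_lit 814760) (nat_lit 438748)
 (nat_lit 1) (.cons (nat_lit 3260675) (nat_lit 700229) (nat_lit 55071) (nat_lit 1) .nil)), (nat_lit 52),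
 (nat_lit 0), (nat_lit 0), (nat_lit 0), (14, 16, 37), [449651, 357590], 0⟩,
  ⟨⟨-15, -32, 59, 50, -17, -20, -14, -44, -5⟩, (.cons (nat_lit 692034) (nat_lit 3352) (nat_lit 355592) (nat_lit
 1) (.cons (nat_lit 2537145) (nat_lit 1875344) (nat_lit 3250688) (nat_lit 1) .nil)), (nat_lit 17), (nat_lit 0),
 (nat_lit 0), (nat_lit 0), (8, 44, 11), [784906, 2033211], 0⟩,
  ⟨⟨15, -52, 16, 10, -17, -60, 46, -4, -11⟩, (.cons (nat_lit 878711) (nat_lit 396248) (nat_lit 824842) (nat_lit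
 1) (.cons (nat_lit 278835) (nat_lit 1021818) (nat_lit 1897309) (nat_lit 1) .nil)), (nat_lit 44), (nat_lit 0),
 (nat_lit 0), (nat_lit 0), (14, 27, 50), [395619, 2520853], 0⟩,
  ⟨⟨57, -8, -20, 10, 33, -50, 18, -36, -37⟩, (.cons (nat_lit 923520) (nat_lit 747168) (nat_lit 116369) (nat_lit
 1) (.cons (nat_lit 3418800) (nat_lit 1485555) (nat_lit 3142712) (nat_lit 1) .nil)), (nat_lit 49), (nat_lit 0),
 (nat_lit 0), (nat_lit 0), (9, 49, 14), [442972, 1794602], 0⟩,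
  ⟨⟨39, -28, -56, -10, 33, -40, -18, -36, -19⟩, (.cons (nat_lit 923520) (nat_lit 434446) (nat_lit 417550)
 (nat_lit 1) (.cons (nat_lit 3418800) (nat_lit 1727362) (nat_lit 2679058) (nat_lit 1) .nil)), (nat_lit 50),
 (nat_lit 0), (nat_lit 0), (nat_lit 0), (49, 35, 10), [65050, 963025], 0⟩,
  mz,
  ⟨⟨43, 12, -63, 30, 17, 30, 30, -36, -23⟩, (.cons (nat_lit 790847) (nat_lit 258711) (nat_lit 1) (nat_lit
 567672) (.cons (nat_lit 2063332) (nat_lit 912378) (nat_lit 932265) (nat_lit 1) .nil)), (nat_lit 46), (nat_lit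
 0), (nat_lit 0), (nat_lit 0), (2, 47, 47), [180223, 108850], 0⟩]

/-- Moves. -/
noncomputable def t4_19 : List Mv := [
  mz,
  mz,
  mz,
  mz,
  ⟨⟨51, 20, -47, 10, -47, -30, -2, 20, -47⟩, (.cons (nat_lit 844773) (nat_lit 142320) (nat_lit 381453) (nat_lit
 1) (.cons (nat_lit 935130) (nat_lit 2095481) (nat_lit 1906275) (nat_lit 1) .nil)), (nat_lit 15), (nat_lit 0),
 (nat_lit 0), (nat_lit 0), (24, 39, 24), [809841, 362458], 0⟩,
  ⟨⟨51, -20, -47, -10, -47, 30, -2, -20, -47⟩, (.cons (nat_lit 56559) (nat_lit 549459) (nat_lit 536516)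
 (nat_lit 1) (.cons (nat_lit 644809) (nat_lit 53698) (nat_lit 951308) (nat_lit 1) .nil)), (nat_lit 12),
 (nat_lit 0), (nat_lit 0), (nat_lit 0), (12, 7, 12), [440736, 14635], 0⟩,
  ⟨⟨15, 56, -11, -28, 5, -36, 40, 8, -47⟩, (.cons (nat_lit 524308) (nat_lit 844859) (nat_lit 615458) (nat_lit
 1) (.cons (nat_lit 742319) (nat_lit 1609244) (nat_lit 2628530) (nat_lit 1) .nil)), (nat_lit 28), (nat_lit 0),
 (nat_lit 0), (nat_lit 0), (1, 37, 38), [403024, 2691079], 0⟩,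
  mz,
  mz,
  ⟨⟨-33, -20, -32, -8, -45, 34, 24, -24, -49⟩, (.cons (nat_lit 555818) (nat_lit 78955) (nat_lit 747313)
 (nat_lit 1) (.cons (nat_lit 1726353) (nat_lit 3192288) (nat_lit 951949) (nat_lit 1) .nil)), (nat_lit 42),
 (nat_lit 0), (nat_lit 0), (nat_lit 0), (35, 39, 42), [632344, 104745], 0⟩,
  ⟨⟨-15, -56, 4, 28, -5, -64, -40, -8, -7⟩, (.cons (nat_lit 111881) (nat_lit 246781) (nat_lit 844103) (nat_lit
 1) (.cons (nat_lit 3084316) (nat_lit 846161) (nat_lit 838329) (nat_lit 1) .nil)), (nat_lit 28), (nat_lit 0),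
 (nat_lit 0), (nat_lit 0), (10, 52, 9), [781640, 2037376], 0⟩,
  ⟨⟨15, -32, 44, 50, 17, -30, 14, -44, -19⟩, (.cons (nat_lit 657743) (nat_lit 753514) (nat_lit 685174) (nat_lit
 1) (.cons (nat_lit 2911381) (nat_lit 285076) (nat_lit 1238725) (nat_lit 1) .nil)), (nat_lit 41), (nat_lit 0),
 (nat_lit 0), (nat_lit 0), (29, 26, 20), [608874, 1613339], 0⟩,
  ⟨⟨-51, 20, 4, 10, 47, 20, 2, 20, -49⟩, (.cons (nat_lit 923520) (nat_lit 218876) (nat_lit 14510) (nat_lit 1)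
 (.cons (nat_lit 3418800) (nat_lit 2269539) (nat_lit 915107) (nat_lit 1) .nil)), (nat_lit 12), (nat_lit 0),
 (nat_lit 0), (nat_lit 0), (48, 28, 48), [574169, 496794], 0⟩,
  mz,
  mz,
  ⟨⟨-51, -20, 4, -10, 47, -20, 2, -20, -49⟩, (.cons (nat_lit 923520) (nat_lit 272215) (nat_lit 495164) (nat_lit
 1) (.cons (nat_lit 3418800) (nat_lit 3085972) (nat_lit 1294446) (nat_lit 1) .nil)), (nat_lit 15), (nat_lit 0),
 (nat_lit 0), (nat_lit 0), (36, 32, 36), [553860, 3070516], 0⟩,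
  ⟨⟨15, 52, 16, 10, 17, -60, 46, 4, -11⟩, (.cons (nat_lit 408793) (nat_lit 76015) (nat_lit 680672) (nat_lit 1)
 (.cons (nat_lit 3050834) (nat_lit 2896135) (nat_lit 366621) (nat_lit 1) .nil)), (nat_lit 44), (nat_lit 0),
 (nat_lit 0), (nat_lit 0), (24, 16, 10), [891172, 1409584], 0⟩,
  ⟨⟨31, -48, -4, 10, 17, 50, 46, 4, -35⟩, (.cons (nat_lit 259661) (nat_lit 204374) (nat_lit 363622) (nat_lit 1)
 (.cons (nat_lit 570590) (nat_lit 1017758) (nat_lit 2531519) (nat_lit 1) .nil)), (nat_lit 43), (nat_lit 0),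
 (nat_lit 0), (nat_lit 0), (18, 40, 25), [174485, 583833], 0⟩,
  ⟨⟨-57, -4, 40, -8, 45, -26, -24, -24, -25⟩, (.cons (nat_lit 643105) (nat_lit 436881) (nat_lit 269195)
 (nat_lit 1) (.cons (nat_lit 1683537) (nat_lit 2688767) (nat_lit 794082) (nat_lit 1) .nil)), (nat_lit 9),
 (nat_lit 0), (nat_lit 0), (nat_lit 0), (12, 24, 19), [5621, 121887], 0⟩,
  mz,
  mz,
  ⟨⟨57, 4, -17, -8, 45, 34, 24, 24, -49⟩, (.cons (nat_lit 923520) (nat_lit 444586) (nat_lit 469087) (nat_lit 1)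
 (.cons (nat_lit 3418800) (nat_lit 2095858) (nat_lit 3313068) (nat_lit 1) .nil)), (nat_lit 21), (nat_lit 0),
 (nat_lit 0), (nat_lit 0), (20, 13, 14), [40439, 1984389], 0⟩,
  ⟨⟨-45, -28, -4, 28, -45, -14, 0, 0, -53⟩, (.cons (nat_lit 150258) (nat_lit 524541) (nat_lit 690793) (nat_lit
 1) (.cons (nat_lit 2324925) (nat_lit 765895) (nat_lit 3348251) (nat_lit 1) .nil)), (nat_lit 31), (nat_lit 0),
 (nat_lit 0), (nat_lit 0), (29, 22, 0), [432182, 3249823], 0⟩,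
  mz,
  ⟨⟨43, -12, 20, -30, 17, 60, 30, 36, -7⟩, (.cons (nat_lit 923520) (nat_lit 666503) (nat_lit 180738) (nat_lit
 1) (.cons (nat_lit 3418800) (nat_lit 2314592) (nat_lit 2764809) (nat_lit 1) .nil)), (nat_lit 24), (nat_lit 0),
 (nat_lit 0), (nat_lit 0), (37, 5, 48), [676691, 3388795], 0⟩,
  mz,
  ⟨⟨-25, -48, -11, 28, 5, -64, -40, 8, -7⟩, (.cons (nat_lit 244145) (nat_lit 14157) (nat_lit 715101) (nat_lit
 1) (.cons (nat_lit 300408) (nat_lit 1071978) (nat_lit 321485) (nat_lit 1) .nil)), (nat_lit 36), (nat_lit 0),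
 (nat_lit 0), (nat_lit 0), (2, 2, 35), [668282, 2798321], 0⟩,
  mz,
  ⟨⟨9, 8, -68, 52, 5, -16, 8, -40, -31⟩, (.cons (nat_lit 273642) (nat_lit 772004) (nat_lit 650959) (nat_lit 1)
 (.cons (nat_lit 471955) (nat_lit 2112058) (nat_lit 2211539) (nat_lit 1) .nil)), (nat_lit 26), (nat_lit 0),
 (nat_lit 0), (nat_lit 0), (4, 29, 33), [203689, 3288180], 0⟩,
  ⟨⟨43, -12, -63, -30, 17, -30, 30, 36, -23⟩, (.cons (nat_lit 337070) (nat_lit 217430) (nat_lit 372023)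
 (nat_lit 1) (.cons (nat_lit 2427378) (nat_lit 70202) (nat_lit 1526039) (nat_lit 1) .nil)), (nat_lit 24),
 (nat_lit 0), (nat_lit 0), (nat_lit 0), (16, 48, 5), [89102, 973862], 0⟩,
  mz,
  ⟨⟨45, -28, -49, 28, 45, -14, 0, 0, -53⟩, (.cons (nat_lit 138478) (nat_lit 122963) (nat_lit 155462) (nat_lit
 1) (.cons (nat_lit 1161345) (nat_lit 441858) (nat_lit 205968) (nat_lit 1) .nil)), (nat_lit 22), (nat_lit 0),
 (nat_lit 0), (nat_lit 0), (39, 49, 0), [482239, 3242304], 0⟩,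
  mz,
  ⟨⟨-39, 28, -17, -10, 33, 50, 18, 36, -37⟩, (.cons (nat_lit 30165) (nat_lit 621988) (nat_lit 164015) (nat_lit
 1) (.cons (nat_lit 1523233) (nat_lit 1750288) (nat_lit 743279) (nat_lit 1) .nil)), (nat_lit 38), (nat_lit 0),
 (nat_lit 0), (nat_lit 0), (43, 45, 25), [222129, 313897], 0⟩,
  mz,
  mz,
  ⟨⟨-9, 8, -59, -52, 5, 36, -8, -40, -23⟩, (.cons (nat_lit 138026) (nat_lit 136354) (nat_lit 623291) (nat_lit
 1) (.cons (nat_lit 2227112) (nat_lit 2046784) (nat_lit 2716906) (nat_lit 1) .nil)), (nat_lit 26), (nat_lit 0),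
 (nat_lit 0), (nat_lit 0), (2, 41, 43), [2258, 2001792], 0⟩,
  ⟨⟨-1, 48, 37, -52, 5, 16, 8, 40, -31⟩, (.cons (nat_lit 902337) (nat_lit 704983) (nat_lit 416279) (nat_lit 1)
 (.cons (nat_lit 364263) (nat_lit 1649309) (nat_lit 1672281) (nat_lit 1) .nil)), (nat_lit 39), (nat_lit 0),
 (nat_lit 0), (nat_lit 0), (26, 27, 4), [78507, 1653403], 0⟩,
  ⟨⟨-57, 8, 37, -10, -33, -40, -18, 36, -19⟩, (.cons (nat_lit 152541) (nat_lit 303639) (nat_lit 330572)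
 (nat_lit 1) (.cons (nat_lit 1235447) (nat_lit 2906459) (nat_lit 1885386) (nat_lit 1) .nil)), (nat_lit 49),
 (nat_lit 0), (nat_lit 0), (nat_lit 0), (40, 47, 21), [165019, 2117936], 0⟩,
  ⟨⟨15, -56, -11, 28, 5, 36, 40, -8, -47⟩, (.cons (nat_lit 41895) (nat_lit 785837) (nat_lit 685380) (nat_lit 1)
 (.cons (nat_lit 1466442) (nat_lit 1103668) (nat_lit 2863098) (nat_lit 1) .nil)), (nat_lit 37), (nat_lit 0),
 (nat_lit 0), (nat_lit 0), (31, 19, 12), [749296, 588855], 0⟩,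
  ⟨⟨-9, -8, -59, 52, 5, -36, -8, 40, -23⟩, (.cons (nat_lit 253647) (nat_lit 287021) (nat_lit 517174) (nat_lit
 1) (.cons (nat_lit 2858435) (nat_lit 546142) (nat_lit 1422085) (nat_lit 1) .nil)), (nat_lit 10), (nat_lit 0),
 (nat_lit 0), (nat_lit 0), (29, 15, 14), [572966, 753714], 0⟩,
  ⟨⟨15, -52, -31, -10, 17, -50, 46, -4, -35⟩, (.cons (nat_lit 180728) (nat_lit 85619) (nat_lit 793216) (nat_lit
 1) (.cons (nat_lit 196538) (nat_lit 1972114) (nat_lit 3071861) (nat_lit 1) .nil)), (nat_lit 47), (nat_lit 0),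
 (nat_lit 0), (nat_lit 0), (50, 2, 12), [187923, 503492], 0⟩,
  ⟨⟨-57, 4, 40, 8, 45, 26, -24, 24, -25⟩, (.cons (nat_lit 564892) (nat_lit 900747) (nat_lit 606542) (nat_lit 1)
 (.cons (nat_lit 936971) (nat_lit 177671) (nat_lit 799323) (nat_lit 1) .nil)), (nat_lit 21), (nat_lit 0),
 (nat_lit 0), (nat_lit 0), (25, 3, 44), [657551, 3135413], 0⟩,
  ⟨⟨15, 32, 44, 50, -17, -30, 14, 44, -19⟩, (.cons (nat_lit 701762) (nat_lit 7329) (nat_lit 171203) (nat_lit 1)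
 (.cons (nat_lit 1102098) (nat_lit 1615846) (nat_lit 2230563) (nat_lit 1) .nil)), (nat_lit 41), (nat_lit 0),
 (nat_lit 0), (nat_lit 0), (27, 37, 4), [496524, 916051], 0⟩,
  ⟨⟨-15, 32, 59, 50, 17, -20, -14, 44, -5⟩, (.cons (nat_lit 368150) (nat_lit 695753) (nat_lit 761742) (nat_lit
 1) (.cons (nat_lit 2047043) (nat_lit 1451686) (nat_lit 1552473) (nat_lit 1) .nil)), (nat_lit 17), (nat_lit 0),
 (nat_lit 0), (nat_lit 0), (6, 33, 48), [534310, 1044174], 0⟩,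
  mz,
  ⟨⟨-13, -48, -27, -30, -17, 60, 30, -36, -7⟩, (.cons (nat_lit 347355) (nat_lit 814760) (nat_lit 438748)
 (nat_lit 1) (.cons (nat_lit 3260675) (nat_lit 700229) (nat_lit 55071) (nat_lit 1) .nil)), (nat_lit 52),
 (nat_lit 0), (nat_lit 0), (nat_lit 0), (14, 16, 37), [449651, 357590], 0⟩,
  ⟨⟨-15, -32, 59, 50, -17, -20, -14, -44, -5⟩, (.cons (nat_lit 692034) (nat_lit 3352) (nat_lit 355592) (nat_lit
 1) (.cons (nat_lit 2537145) (nat_lit 1875344) (nat_lit 3250688) (nat_lit 1) .nil)), (nat_lit 17), (nat_lit 0),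
 (nat_lit 0), (nat_lit 0), (8, 44, 11), [784906, 2033211], 0⟩,
  ⟨⟨15, -52, 16, 10, -17, -60, 46, -4, -11⟩, (.cons (nat_lit 878711) (nat_lit 396248) (nat_lit 824842) (nat_lit
 1) (.cons (nat_lit 278835) (nat_lit 1021818) (nat_lit 1897309) (nat_lit 1) .nil)), (nat_lit 44), (nat_lit 0),
 (nat_lit 0), (nat_lit 0), (14, 27, 50), [395619, 2520853], 0⟩,
  ⟨⟨57, -8, -20, -10, -33, 50, 18, -36, -37⟩, (.cons (nat_lit 360056) (nat_lit 448534) (nat_lit 220895)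
 (nat_lit 1) (.cons (nat_lit 773530) (nat_lit 2895998) (nat_lit 1081603) (nat_lit 1) .nil)), (nat_lit 33),
 (nat_lit 0), (nat_lit 0), (nat_lit 0), (9, 4, 14), [850224, 3082624], 0⟩,
  ⟨⟨39, -28, -56, -10, 33, -40, -18, -36, -19⟩, (.cons (nat_lit 923520) (nat_lit 434446) (nat_lit 417550)
 (nat_lit 1) (.cons (nat_lit 3418800) (nat_lit 1727362) (nat_lit 2679058) (nat_lit 1) .nil)), (nat_lit 50),
 (nat_lit 0), (nat_lit 0), (nat_lit 0), (49, 35, 10), [65050, 963025], 0⟩,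
  mz,
  ⟨⟨-13, -48, 40, -30, -17, -30, 30, -36, -23⟩, (.cons (nat_lit 923520) (nat_lit 887747) (nat_lit 853256)
 (nat_lit 1) (.cons (nat_lit 3418800) (nat_lit 1320800) (nat_lit 1151545) (nat_lit 1) .nil)), (nat_lit 52),
 (nat_lit 0), (nat_lit 0), (nat_lit 0), (45, 6, 47), [383014, 199856], 0⟩]

/-- All the moves. -/
noncomputable def tabs : List (List (List Mv)) := [[[], t0_1, [], [], t0_4, [], t0_6, [], t0_8, [], [], [], [],
 [], [], [], [], [], [], t0_19], [[], t1_1, [], [], t1_4, [], t1_6, [], t1_8, [], [], [], [], [], [], [], [],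
 [], [], t1_19], [], [], [[], t4_1, [], [], t4_4, [], t4_6, [], t4_8, [], [], [], [], [], [], [], [], [], [],
 t4_19]]

/-- Subtrie. -/
noncomputable def T1 : Tr := (.ev (nat_lit 20) (nat_lit 70996080432240) (.nd (nat_lit 33) (.br (nat_lit 22)
 (.br (nat_lit 9) (.br (nat_lit 6) (.br (nat_lit 4) (.ch (nat_lit 1) (.ev (nat_lit 52) (nat_lit
 573945690456576) (.ev (nat_lit 84) (nat_lit 4648735162236928) (.ev (nat_lit 116) (nat_lit 17592186044416) (.nd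
 (nat_lit 912) (.br (nat_lit 18) (.br (nat_lit 4) (.br (nat_lit 1) (.ch (nat_lit 0) (.ev (nat_lit 928) (nat_lit
 1408888863721472) .dd)) (.ch (nat_lit 1) (.ev (nat_lit 928) (nat_lit 1127413887008768) (.ev (nat_lit 1092)
 (nat_lit 2048) (.ev (nat_lit 1101) (nat_lit 281474976710656) .dd))))) (.br (nat_lit 9) (.ch (nat_lit 4) (.ev
 (nat_lit 928) (nat_lit 412316862464) (.ev (nat_lit 1092) (nat_lit 1125902054326272) (.ev (nat_lit 1220)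
 (nat_lit 4194304) (.nd (nat_lit 1281) (.ch (nat_lit 17) (.nd (nat_lit 1296) (.ch (nat_lit 4) (.fin (nat_lit
 576474496213926468)))))))))) (.ch (nat_lit 9) (.ev (nat_lit 928) (nat_lit 1408749277284352) (.ev (nat_lit 944)
 (nat_lit 139586437120) .dd))))) (.br (nat_lit 23) (.br (nat_lit 20) (.ch (nat_lit 18) (.ev (nat_lit 928)
 (nat_lit 282988956878848) (.ev (nat_lit 941) (nat_lit 1125899906842624) .dd))) (.ch (nat_lit 20) (.ev (nat_lit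
 928) (nat_lit 1513980168192) (.ev (nat_lit 1104) (nat_lit 1407374883553280) .dd)))) (.br (nat_lit 28) (.ch
 (nat_lit 23) (.ev (nat_lit 928) (nat_lit 1408888863721472) .dd)) (.br (nat_lit 29) (.ch (nat_lit 28) (.ev
 (nat_lit 928) (nat_lit 1408613985814528) (.ev (nat_lit 941) (nat_lit 274877906944) .dd))) (.ch (nat_lit 29)
 (.ev (nat_lit 928) (nat_lit 1408474395183104) (.ev (nat_lit 960) (nat_lit 274877906944) (.ev (nat_lit 1008)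
 (nat_lit 137438953472) (.ev (nat_lit 1092) (nat_lit 2147483648) (.ev (nat_lit 1101) (nat_lit 4194304)
 .dd))))))))))))))) (.br (nat_lit 5) (.ch (nat_lit 4) (.ev (nat_lit 52) (nat_lit 4808164969023488) (.ev
 (nat_lit 84) (nat_lit 1266914420588544) (.ev (nat_lit 180) (nat_lit 512) (.ev (nat_lit 224) (nat_lit
 574082512846848) .dd))))) (.ch (nat_lit 5) (.ev (nat_lit 52) (nat_lit 1553885428711424) (.ev (nat_lit 84)
 (nat_lit 2151678464) (.ev (nat_lit 148) (nat_lit 8933531975680) (.ev (nat_lit 308) (nat_lit 2199023255552)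
 (.ev (nat_lit 614) (nat_lit 2048) (.ev (nat_lit 836) (nat_lit 17592186044416) (.nd (nat_lit 912) (.br (nat_lit
 20) (.br (nat_lit 11) (.br (nat_lit 7) (.ch (nat_lit 0) (.ev (nat_lit 928) (nat_lit 5066549580791808) .dd))
 (.ch (nat_lit 7) (.ev (nat_lit 928) (nat_lit 5066549580791808) .dd))) (.br (nat_lit 16) (.ch (nat_lit 11) (.ev
 (nat_lit 928) (nat_lit 562949953421312) (.ev (nat_lit 941) (nat_lit 4503599627370496) .dd))) (.ch (nat_lit 16)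
 (.ev (nat_lit 928) (nat_lit 5066549580791808) .dd)))) (.br (nat_lit 23) (.br (nat_lit 21) (.ch (nat_lit 20)
 (.ev (nat_lit 928) (nat_lit 4503599627370496) (.ev (nat_lit 941) (nat_lit 562949953421312) .dd))) (.ch
 (nat_lit 21) (.ev (nat_lit 928) (nat_lit 5066549580791808) .dd))) (.br (nat_lit 26) (.ch (nat_lit 23) (.ev
 (nat_lit 928) (nat_lit 562949953421312) (.ev (nat_lit 941) (nat_lit 4503599627370496) .dd))) (.br (nat_lit 28)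
 (.ch (nat_lit 26) (.ev (nat_lit 928) (nat_lit 562949953421312) (.ev (nat_lit 941) (nat_lit 4503599627370496)
 .dd))) (.ch (nat_lit 28) (.ev (nat_lit 928) (nat_lit 562949953421312) (.ev (nat_lit 941) (nat_lit
 4503599627370496) .dd))))))))))))))))) (.br (nat_lit 7) (.ch (nat_lit 6) (.ev (nat_lit 52) (nat_lit
 579444792101376) (.ev (nat_lit 84) (nat_lit 4503874505277440) (.ev (nat_lit 116) (nat_lit 1266637999177728)
 (.ev (nat_lit 244) (nat_lit 17592186044416) (.nd (nat_lit 912) (.br (nat_lit 21) (.br (nat_lit 9) (.br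
 (nat_lit 8) (.ch (nat_lit 4) (.ev (nat_lit 928) (nat_lit 281612415664128) (.ev (nat_lit 941) (nat_lit 4194304)
 .dd))) (.ch (nat_lit 8) (.ev (nat_lit 928) (nat_lit 281612419858432) .dd))) (.br (nat_lit 18) (.ch (nat_lit 9)
 (.ev (nat_lit 928) (nat_lit 281474980904960) (.ev (nat_lit 941) (nat_lit 137438953472) .dd))) (.ch (nat_lit
 18) (.ev (nat_lit 928) (nat_lit 137443147776) (.ev (nat_lit 941) (nat_lit 281474976710656) .dd))))) (.br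
 (nat_lit 25) (.br (nat_lit 23) (.ch (nat_lit 21) (.ev (nat_lit 928) (nat_lit 137438953472) (.ev (nat_lit 1092)
 (nat_lit 4194304) (.ev (nat_lit 1101) (nat_lit 281474976710656) .dd)))) (.ch (nat_lit 23) (.ev (nat_lit 928)
 (nat_lit 281612415664128) (.ev (nat_lit 941) (nat_lit 4194304) .dd)))) (.br (nat_lit 26) (.ch (nat_lit 25)
 (.ev (nat_lit 928) (nat_lit 137443147776) (.ev (nat_lit 941) (nat_lit 281474976710656) .dd))) (.br (nat_lit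
 29) (.ch (nat_lit 26) (.ev (nat_lit 928) (nat_lit 4194304) (.ev (nat_lit 1104) (nat_lit 281612415664128)
 .dd))) (.ch (nat_lit 29) (.ev (nat_lit 928) (nat_lit 281474976710656) (.ev (nat_lit 1104) (nat_lit
 137438953472) (.ev (nat_lit 1117) (nat_lit 4194304) .dd)))))))))))))) (.br (nat_lit 8) (.ch (nat_lit 7) (.ev
 (nat_lit 52) (nat_lit 13469084549120) (.ev (nat_lit 64) (nat_lit 6635692817910272) .dd))) (.ch (nat_lit 8)
 (.ev (nat_lit 52) (nat_lit 4948217326207488) (.ev (nat_lit 84) (nat_lit 1691048950628352) (.ev (nat_lit 116)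
 (nat_lit 8796093022208) (.ev (nat_lit 180) (nat_lit 1099511627776) (.ev (nat_lit 244) (nat_lit 2048) (.nd
 (nat_lit 912) (.br (nat_lit 19) (.br (nat_lit 9) (.br (nat_lit 8) (.ch (nat_lit 1) (.ev (nat_lit 928) (nat_lit
 4194304) (.ev (nat_lit 941) (nat_lit 16777216) .dd))) (.ch (nat_lit 8) (.ev (nat_lit 928) (nat_lit 20971520)
 .dd))) (.br (nat_lit 15) (.ch (nat_lit 9) (.ev (nat_lit 1120) (nat_lit 4194304) (.ev (nat_lit 1133) (nat_lit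
 16777216) .dd))) (.ch (nat_lit 15) (.ev (nat_lit 1092) (nat_lit 4194304) (.ev (nat_lit 1101) (nat_lit
 16777216) .dd))))) (.br (nat_lit 26) (.br (nat_lit 20) (.ch (nat_lit 19) (.ev (nat_lit 928) (nat_lit 20971520)
 .dd)) (.ch (nat_lit 20) (.ev (nat_lit 928) (nat_lit 20971520) .dd))) (.br (nat_lit 28) (.ch (nat_lit 26) (.ev
 (nat_lit 928) (nat_lit 16777216) (.ev (nat_lit 941) (nat_lit 4194304) .dd))) (.br (nat_lit 29) (.ch (nat_lit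
 28) (.ev (nat_lit 928) (nat_lit 20971520) .dd)) (.ch (nat_lit 29) (.ev (nat_lit 928) (nat_lit 20971520)
 .dd)))))))))))))))) (.br (nat_lit 13) (.br (nat_lit 10) (.ch (nat_lit 9) (.ev (nat_lit 52) (nat_lit
 1578211502721024) (.ev (nat_lit 116) (nat_lit 4503599627370496) (.ev (nat_lit 160) (nat_lit 567350772367872)
 .dd)))) (.br (nat_lit 12) (.ch (nat_lit 10) (.ev (nat_lit 52) (nat_lit 5498934747201536) (.ev (nat_lit 84)
 (nat_lit 1130297953353728) (.ev (nat_lit 116) (nat_lit 2199040032768) (.ev (nat_lit 148) (nat_lit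
 137438953472) (.ev (nat_lit 288) (nat_lit 17592722917888) .dd)))))) (.ch (nat_lit 12) (.ev (nat_lit 52)
 (nat_lit 4523528896383488) (.ev (nat_lit 84) (nat_lit 567625025323008) (.ev (nat_lit 148) (nat_lit
 281474980904960) (.ev (nat_lit 400) (nat_lit 1125899906842624) (.nd (nat_lit 912) (.br (nat_lit 11) (.br
 (nat_lit 8) (.br (nat_lit 7) (.ch (nat_lit 1) (.ev (nat_lit 928) (nat_lit 1099511627776) (.ev (nat_lit 944)
 (nat_lit 8796093022208) (.ev (nat_lit 957) (nat_lit 140737488355328) .dd)))) (.ch (nat_lit 7) (.ev (nat_lit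
 928) (nat_lit 9895604649984) (.ev (nat_lit 941) (nat_lit 140737488355328) .dd)))) (.br (nat_lit 9) (.ch
 (nat_lit 8) (.ev (nat_lit 928) (nat_lit 9895604649984) (.ev (nat_lit 941) (nat_lit 140737488355328) .dd)))
 (.ch (nat_lit 9) (.ev (nat_lit 928) (nat_lit 150633093005312) .dd)))) (.br (nat_lit 19) (.br (nat_lit 15) (.ch
 (nat_lit 11) (.ev (nat_lit 928) (nat_lit 149533581377536) (.ev (nat_lit 941) (nat_lit 1099511627776) .dd)))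
 (.ch (nat_lit 15) (.ev (nat_lit 928) (nat_lit 150633093005312) .dd))) (.br (nat_lit 23) (.ch (nat_lit 19) (.ev
 (nat_lit 928) (nat_lit 150633093005312) .dd)) (.br (nat_lit 25) (.ch (nat_lit 23) (.ev (nat_lit 928) (nat_lit
 150633093005312) .dd)) (.ch (nat_lit 25) (.ev (nat_lit 928) (nat_lit 149533581377536) (.ev (nat_lit 941)
 (nat_lit 1099511627776) .dd))))))))))))))) (.br (nat_lit 18) (.br (nat_lit 17) (.ch (nat_lit 13) (.ev (nat_lit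
 52) (nat_lit 5208524086837760) (.ev (nat_lit 84) (nat_lit 277025390592) (.ev (nat_lit 148) (nat_lit
 26388283260928) (.ev (nat_lit 180) (nat_lit 16777216) (.nd (nat_lit 912) (.br (nat_lit 20) (.br (nat_lit 8)
 (.br (nat_lit 1) (.ch (nat_lit 0) (.ev (nat_lit 928) (nat_lit 288072583350272) (.ev (nat_lit 941) (nat_lit
 1125899906842624) .dd))) (.ch (nat_lit 1) (.ev (nat_lit 928) (nat_lit 1132496976611328) (.ev (nat_lit 1188)
 (nat_lit 281474976710656) (.ev (nat_lit 1197) (nat_lit 536870912) .dd))))) (.br (nat_lit 13) (.ch (nat_lit 8)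
 (.ev (nat_lit 928) (nat_lit 1132497513482240) (.ev (nat_lit 941) (nat_lit 281474976710656) .dd))) (.ch
 (nat_lit 13) (.ev (nat_lit 928) (nat_lit 1413971953321984) (.ev (nat_lit 941) (nat_lit 536870912) .dd)))))
 (.br (nat_lit 23) (.br (nat_lit 21) (.ch (nat_lit 20) (.ev (nat_lit 928) (nat_lit 1132496976611328) (.ev
 (nat_lit 1188) (nat_lit 536870912) (.ev (nat_lit 1197) (nat_lit 281474976710656) .dd)))) (.ch (nat_lit 21)
 (.ev (nat_lit 928) (nat_lit 1409574443681792) (.ev (nat_lit 941) (nat_lit 4398046511104) .dd)))) (.br (nat_lit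
 26) (.ch (nat_lit 23) (.ev (nat_lit 928) (nat_lit 1413971953321984) (.ev (nat_lit 941) (nat_lit 536870912)
 .dd))) (.br (nat_lit 29) (.ch (nat_lit 26) (.ev (nat_lit 928) (nat_lit 1411773466935296) (.ev (nat_lit 1238)
 (nat_lit 2199023257600) .dd))) (.ch (nat_lit 29) (.ev (nat_lit 928) (nat_lit 1132497513482240) (.ev (nat_lit
 941) (nat_lit 281474976710656) .dd))))))))))))) (.ch (nat_lit 17) (.ev (nat_lit 52) (nat_lit 6201520462760448)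
 (.ev (nat_lit 84) (nat_lit 67108864) (.ev (nat_lit 116) (nat_lit 2147483648) (.ev (nat_lit 180) (nat_lit
 553648128) (.ev (nat_lit 212) (nat_lit 2199023255552) (.nd (nat_lit 912) (.br (nat_lit 11) (.br (nat_lit 7)
 (.br (nat_lit 4) (.ch (nat_lit 1) (.ev (nat_lit 928) (nat_lit 287109973803008) (.ev (nat_lit 944) (nat_lit
 140737488355328) (.ev (nat_lit 957) (nat_lit 17592186044416) .dd)))) (.ch (nat_lit 4) (.ev (nat_lit 928)
 (nat_lit 21990232555520) (.ev (nat_lit 1092) (nat_lit 140737488355328) (.ev (nat_lit 1172) (nat_lit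
 137438953472) (.nd (nat_lit 1281) (.ch (nat_lit 31) (.nd (nat_lit 1296) (.br (nat_lit 30) (.ch (nat_lit 4)
 (.fin (nat_lit 576448107907596860))) (.ch (nat_lit 30) (.ev (nat_lit 1312) (nat_lit 282574488338432)
 .dd))))))))))) (.br (nat_lit 9) (.ch (nat_lit 7) (.ev (nat_lit 928) (nat_lit 287109973803008) (.nd (nat_lit
 1281) (.ch (nat_lit 25) (.nd (nat_lit 1296) (.br (nat_lit 17) (.ch (nat_lit 0) (.ev (nat_lit 1312) (nat_lit
 158329674399744) .dd)) (.ch (nat_lit 17) (.fin (nat_lit 576460202549133877))))))))) (.ch (nat_lit 9) (.ev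
 (nat_lit 928) (nat_lit 423449415647232) (.ev (nat_lit 944) (nat_lit 4398046511104) (.ev (nat_lit 957) (nat_lit
 17592186044416) .dd)))))) (.br (nat_lit 16) (.br (nat_lit 13) (.ch (nat_lit 11) (.ev (nat_lit 928) (nat_lit
 445439648202752) .dd)) (.ch (nat_lit 13) (.ev (nat_lit 928) (nat_lit 445302209249280) (.ev (nat_lit 941)
 (nat_lit 137438953472) .dd)))) (.br (nat_lit 25) (.ch (nat_lit 16) (.ev (nat_lit 928) (nat_lit
 445302209249280) (.ev (nat_lit 941) (nat_lit 137438953472) .dd))) (.br (nat_lit 26) (.ch (nat_lit 25) (.ev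
 (nat_lit 928) (nat_lit 304702159847424) (.ev (nat_lit 941) (nat_lit 140737488355328) .dd))) (.ch (nat_lit 26)
 (.ev (nat_lit 928) (nat_lit 427710023204864) (.ev (nat_lit 1092) (nat_lit 137438953472) (.ev (nat_lit 1101)
 (nat_lit 17592186044416) .dd)))))))))))))))) (.br (nat_lit 21) (.ch (nat_lit 18) (.ev (nat_lit 52) (nat_lit
 6356689108336640) (.ev (nat_lit 116) (nat_lit 2048) (.ev (nat_lit 212) (nat_lit 2199023255552) (.ev (nat_lit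
 244) (nat_lit 8796093022208) (.ev (nat_lit 308) (nat_lit 512) (.ev (nat_lit 416) (nat_lit 281474976710656)
 (.ev (nat_lit 768) (nat_lit 16777216) (.nd (nat_lit 912) (.br (nat_lit 19) (.br (nat_lit 13) (.br (nat_lit 7)
 (.ch (nat_lit 4) (.ev (nat_lit 928) (nat_lit 2684354560) .dd)) (.ch (nat_lit 7) (.ev (nat_lit 928) (nat_lit
 2684354560) .dd))) (.br (nat_lit 18) (.ch (nat_lit 13) (.ev (nat_lit 928) (nat_lit 2684354560) .dd)) (.ch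
 (nat_lit 18) (.ev (nat_lit 928) (nat_lit 536870912) (.ev (nat_lit 941) (nat_lit 2147483648) .dd))))) (.br
 (nat_lit 25) (.br (nat_lit 23) (.ch (nat_lit 19) (.ev (nat_lit 928) (nat_lit 2684354560) .dd)) (.ch (nat_lit
 23) (.ev (nat_lit 960) (nat_lit 536870912) (.ev (nat_lit 973) (nat_lit 2147483648) .dd)))) (.br (nat_lit 28)
 (.ch (nat_lit 25) (.ev (nat_lit 928) (nat_lit 2684354560) .dd)) (.ch (nat_lit 28) (.ev (nat_lit 928) (nat_lit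
 2684354560) .dd)))))))))))))) (.ch (nat_lit 21) (.ev (nat_lit 52) (nat_lit 1143632220391936) (.ev (nat_lit 84)
 (nat_lit 274877906944) (.ev (nat_lit 116) (nat_lit 713583063203840) (.ev (nat_lit 276) (nat_lit
 281474976710656) (.nd (nat_lit 912) (.br (nat_lit 19) (.br (nat_lit 8) (.br (nat_lit 4) (.ch (nat_lit 0) (.ev
 (nat_lit 928) (nat_lit 6597136875520) (.ev (nat_lit 941) (nat_lit 4503599627370496) .dd))) (.ch (nat_lit 4)
 (.ev (nat_lit 928) (nat_lit 4503599694479360) (.ev (nat_lit 944) (nat_lit 6597069766656) .dd)))) (.br (nat_lit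
 9) (.ch (nat_lit 8) (.ev (nat_lit 928) (nat_lit 6597136875520) (.ev (nat_lit 941) (nat_lit 4503599627370496)
 .dd))) (.ch (nat_lit 9) (.ev (nat_lit 928) (nat_lit 4510196764246016) .dd)))) (.br (nat_lit 23) (.br (nat_lit
 21) (.ch (nat_lit 19) (.ev (nat_lit 928) (nat_lit 4505798650626048) (.ev (nat_lit 1092) (nat_lit 67108864)
 (.ev (nat_lit 1101) (nat_lit 4398046511104) .dd)))) (.ch (nat_lit 21) (.ev (nat_lit 928) (nat_lit
 4510196697137152) (.ev (nat_lit 941) (nat_lit 67108864) .dd)))) (.br (nat_lit 26) (.ch (nat_lit 23) (.ev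
 (nat_lit 928) (nat_lit 6597069766656) (.ev (nat_lit 1092) (nat_lit 4503599627370496) (.ev (nat_lit 1101)
 (nat_lit 67108864) .dd)))) (.br (nat_lit 28) (.ch (nat_lit 26) (.ev (nat_lit 928) (nat_lit 4510196764246016)
 .dd)) (.ch (nat_lit 28) (.ev (nat_lit 928) (nat_lit 6597136875520) (.ev (nat_lit 941) (nat_lit
 4503599627370496) .dd))))))))))))))))) (.br (nat_lit 34) (.br (nat_lit 30) (.br (nat_lit 25) (.ch (nat_lit 22)
 (.ev (nat_lit 52) (nat_lit 716059166375936) (.ev (nat_lit 84) (nat_lit 1125900443713536) (.ev (nat_lit 116)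
 (nat_lit 4398046511104) (.ev (nat_lit 192) (nat_lit 4802804245858816) .dd))))) (.br (nat_lit 26) (.ch (nat_lit
 25) (.ev (nat_lit 52) (nat_lit 1985033506130432) (.ev (nat_lit 116) (nat_lit 4194304) (.ev (nat_lit 758)
 (nat_lit 2199023255552) (.nd (nat_lit 912) (.br (nat_lit 18) (.br (nat_lit 11) (.br (nat_lit 7) (.ch (nat_lit
 4) (.ev (nat_lit 928) (nat_lit 4503599694479360) (.ev (nat_lit 992) (nat_lit 158329674399744) .dd))) (.ch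
 (nat_lit 7) (.ev (nat_lit 928) (nat_lit 67108864) (.ev (nat_lit 944) (nat_lit 4503599627370496) (.fin (nat_lit
 576460202549133877)))))) (.br (nat_lit 16) (.ch (nat_lit 11) (.ev (nat_lit 928) (nat_lit 158329741508608) (.ev
 (nat_lit 941) (nat_lit 4503599627370496) .dd))) (.ch (nat_lit 16) (.ev (nat_lit 928) (nat_lit
 4644337182834688) (.ev (nat_lit 941) (nat_lit 17592186044416) .dd))))) (.br (nat_lit 20) (.br (nat_lit 19)
 (.ch (nat_lit 18) (.ev (nat_lit 928) (nat_lit 4661929368879104) .dd)) (.ch (nat_lit 19) (.ev (nat_lit 928)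
 (nat_lit 4661929301770240) (.ev (nat_lit 941) (nat_lit 67108864) .dd)))) (.br (nat_lit 21) (.ch (nat_lit 20)
 (.ev (nat_lit 928) (nat_lit 4661929368879104) .dd)) (.br (nat_lit 23) (.ch (nat_lit 21) (.ev (nat_lit 928)
 (nat_lit 4644337115725824) (.ev (nat_lit 992) (nat_lit 17592186044416) (.ev (nat_lit 1005) (nat_lit 67108864)
 .dd)))) (.ch (nat_lit 23) (.ev (nat_lit 928) (nat_lit 4661929368879104) .dd))))))))))) (.ch (nat_lit 26) (.ev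
 (nat_lit 52) (nat_lit 1854054250578432) (.ev (nat_lit 116) (nat_lit 2048) (.ev (nat_lit 180) (nat_lit
 8796093022208) (.ev (nat_lit 256) (nat_lit 4786311558856704) .dd))))))) (.br (nat_lit 31) (.ch (nat_lit 30)
 (.ev (nat_lit 52) (nat_lit 1415208920680448) (.ev (nat_lit 84) (nat_lit 5207289216630784) (.ev (nat_lit 180)
 (nat_lit 541065216) (.ev (nat_lit 384) (nat_lit 512) (.nd (nat_lit 912) (.br (nat_lit 20) (.br (nat_lit 16)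
 (.br (nat_lit 15) (.ch (nat_lit 7) (.ev (nat_lit 928) (nat_lit 26388346175488) (.ev (nat_lit 941) (nat_lit
 274877906944) .dd))) (.ch (nat_lit 15) (.ev (nat_lit 928) (nat_lit 26663224082432) .dd))) (.br (nat_lit 18)
 (.ch (nat_lit 16) (.ev (nat_lit 928) (nat_lit 26388279066624) (.ev (nat_lit 1092) (nat_lit 67108864) (.ev
 (nat_lit 1101) (nat_lit 274877906944) .dd)))) (.ch (nat_lit 18) (.ev (nat_lit 928) (nat_lit 17867063951360)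
 (.ev (nat_lit 1092) (nat_lit 67108864) (.ev (nat_lit 1101) (nat_lit 8796093022208) .dd)))))) (.br (nat_lit 23)
 (.br (nat_lit 21) (.ch (nat_lit 20) (.ev (nat_lit 928) (nat_lit 26663224082432) .dd)) (.ch (nat_lit 21) (.ev
 (nat_lit 1092) (nat_lit 26663156973568) (.ev (nat_lit 1101) (nat_lit 67108864) .dd)))) (.br (nat_lit 26) (.ch
 (nat_lit 23) (.ev (nat_lit 928) (nat_lit 26388346175488) (.ev (nat_lit 941) (nat_lit 274877906944) .dd))) (.br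
 (nat_lit 29) (.ch (nat_lit 26) (.ev (nat_lit 928) (nat_lit 26663224082432) .dd)) (.ch (nat_lit 29) (.ev
 (nat_lit 928) (nat_lit 17867131060224) (.ev (nat_lit 941) (nat_lit 8796093022208) .dd))))))))))))) (.br
 (nat_lit 33) (.ch (nat_lit 31) (.ev (nat_lit 52) (nat_lit 4654233341133312) (.ev (nat_lit 84) (nat_lit
 4398046511104) (.ev (nat_lit 96) (nat_lit 1990530514814976) .dd)))) (.ch (nat_lit 33) (.ev (nat_lit 52)
 (nat_lit 1148029813917696) (.ev (nat_lit 96) (nat_lit 5501132088541696) .dd)))))) (.br (nat_lit 37) (.br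
 (nat_lit 35) (.ch (nat_lit 34) (.ev (nat_lit 52) (nat_lit 1014986671392768) (.ev (nat_lit 84) (nat_lit
 4503876652761088) (.ev (nat_lit 116) (nat_lit 512) (.ev (nat_lit 192) (nat_lit 1130298578305024) .dd))))) (.br
 (nat_lit 36) (.ch (nat_lit 35) (.ev (nat_lit 52) (nat_lit 16492695390720) (.ev (nat_lit 84) (nat_lit
 1706444193792000) (.ev (nat_lit 116) (nat_lit 67108864) (.ev (nat_lit 560) (nat_lit 536870912) (.nd (nat_lit
 912) (.br (nat_lit 18) (.br (nat_lit 9) (.br (nat_lit 4) (.ch (nat_lit 0) (.ev (nat_lit 928) (nat_lit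
 281887293571072) (.ev (nat_lit 992) (nat_lit 4503599627370496) (.ev (nat_lit 1005) (nat_lit 140737488355328)
 .dd)))) (.ch (nat_lit 4) (.ev (nat_lit 928) (nat_lit 4926086970343424) (.ev (nat_lit 941) (nat_lit
 137438953472) .dd)))) (.br (nat_lit 11) (.ch (nat_lit 9) (.ev (nat_lit 928) (nat_lit 4926224409296896) .dd))
 (.br (nat_lit 15) (.ch (nat_lit 11) (.ev (nat_lit 928) (nat_lit 4644474554679296) (.ev (nat_lit 1104) (nat_lit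
 281474976710656) (.ev (nat_lit 1117) (nat_lit 274877906944) .dd)))) (.ch (nat_lit 15) (.ev (nat_lit 928)
 (nat_lit 4926224409296896) .dd))))) (.br (nat_lit 21) (.br (nat_lit 19) (.ch (nat_lit 18) (.ev (nat_lit 928)
 (nat_lit 4926224409296896) .dd)) (.br (nat_lit 20) (.ch (nat_lit 19) (.ev (nat_lit 928) (nat_lit
 4925949531389952) (.ev (nat_lit 941) (nat_lit 274877906944) .dd))) (.ch (nat_lit 20) (.ev (nat_lit 928)
 (nat_lit 4644749432586240) (.ev (nat_lit 941) (nat_lit 281474976710656) .dd))))) (.br (nat_lit 25) (.ch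
 (nat_lit 21) (.ev (nat_lit 928) (nat_lit 4925949531389952) (.ev (nat_lit 941) (nat_lit 274877906944) .dd)))
 (.br (nat_lit 29) (.ch (nat_lit 25) (.ev (nat_lit 928) (nat_lit 412316860416) (.ev (nat_lit 1008) (nat_lit
 140737488355328) (.ev (nat_lit 1104) (nat_lit 4503599627370496) (.ev (nat_lit 1117) (nat_lit 281474976710656)
 .dd))))) (.ch (nat_lit 29) (.ev (nat_lit 928) (nat_lit 4644474554679296) (.ev (nat_lit 1024) (nat_lit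
 281474976710656) (.ev (nat_lit 1037) (nat_lit 274877906944) .dd)))))))))))))) (.ch (nat_lit 36) (.ev (nat_lit
 52) (nat_lit 301266789990912) (.ev (nat_lit 64) (nat_lit 6347895112468480) .dd))))) (.br (nat_lit 39) (.br
 (nat_lit 38) (.ch (nat_lit 37) (.ev (nat_lit 52) (nat_lit 6073840211853824) (.ev (nat_lit 84) (nat_lit
 565149043785728) (.ev (nat_lit 192) (nat_lit 10172646819840) .dd)))) (.ch (nat_lit 38) (.ev (nat_lit 52)
 (nat_lit 5354759066225152) (.ev (nat_lit 84) (nat_lit 1125899973951488) (.ev (nat_lit 128) (nat_lit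
 168502862282752) .dd))))) (.br (nat_lit 42) (.ch (nat_lit 39) (.ev (nat_lit 52) (nat_lit 4657669247860736)
 (.ev (nat_lit 84) (nat_lit 562950020532224) (.ev (nat_lit 116) (nat_lit 282574488338432) (.ev (nat_lit 180)
 (nat_lit 4194304) (.ev (nat_lit 212) (nat_lit 512) (.ev (nat_lit 276) (nat_lit 2199023255552) (.nd (nat_lit
 912) (.br (nat_lit 16) (.br (nat_lit 13) (.br (nat_lit 8) (.ch (nat_lit 0) (.ev (nat_lit 928) (nat_lit
 1143769118277632) .dd)) (.ch (nat_lit 8) (.ev (nat_lit 928) (nat_lit 1126176932233216) (.ev (nat_lit 941)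
 (nat_lit 17592186044416) .dd)))) (.br (nat_lit 15) (.ch (nat_lit 13) (.ev (nat_lit 928) (nat_lit
 1143769118277632) .dd)) (.ch (nat_lit 15) (.ev (nat_lit 928) (nat_lit 1143769118277632) .dd)))) (.br (nat_lit
 19) (.br (nat_lit 18) (.ch (nat_lit 16) (.ev (nat_lit 928) (nat_lit 1143494240370688) (.ev (nat_lit 941)
 (nat_lit 274877906944) .dd))) (.ch (nat_lit 18) (.ev (nat_lit 928) (nat_lit 17869211435008) (.ev (nat_lit 941)
 (nat_lit 1125899906842624) .dd)))) (.br (nat_lit 20) (.ch (nat_lit 19) (.ev (nat_lit 928) (nat_lit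
 1143494240370688) (.ev (nat_lit 941) (nat_lit 274877906944) .dd))) (.ch (nat_lit 20) (.ev (nat_lit 928)
 (nat_lit 17867063951360) (.ev (nat_lit 944) (nat_lit 2147483648) (.ev (nat_lit 957) (nat_lit 1125899906842624)
 .dd))))))))))))))) (.ch (nat_lit 42) (.ev (nat_lit 52) (nat_lit 5935438644642304) (.ev (nat_lit 84) (nat_lit
 149533648486400) (.ev (nat_lit 116) (nat_lit 4194304) (.ev (nat_lit 148) (nat_lit 137438953472) (.ev (nat_lit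
 180) (nat_lit 2147483648) (.ev (nat_lit 256) (nat_lit 564050018699264) .dd))))))))))))))

/-- Subtrie. -/
noncomputable def T4 : Tr := (.ev (nat_lit 20) (nat_lit 5792717691063296) (.nd (nat_lit 33) (.br (nat_lit 22)
 (.br (nat_lit 9) (.br (nat_lit 6) (.br (nat_lit 4) (.ch (nat_lit 1) (.ev (nat_lit 52) (nat_lit
 574494911828496) (.ev (nat_lit 116) (nat_lit 64) (.ev (nat_lit 212) (nat_lit 281477124194304) (.nd (nat_lit
 912) (.br (nat_lit 19) (.br (nat_lit 5) (.br (nat_lit 4) (.ch (nat_lit 1) (.ev (nat_lit 928) (nat_lit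
 71468255805472) .dd)) (.ch (nat_lit 4) (.ev (nat_lit 928) (nat_lit 70368744177664) (.ev (nat_lit 960) (nat_lit
 32) (.ev (nat_lit 973) (nat_lit 1099511627776) .dd))))) (.br (nat_lit 12) (.ch (nat_lit 5) (.ev (nat_lit 928)
 (nat_lit 1099511627808) (.ev (nat_lit 941) (nat_lit 70368744177664) .dd))) (.br (nat_lit 18) (.ch (nat_lit 12)
 (.ev (nat_lit 928) (nat_lit 71468255805472) .dd)) (.ch (nat_lit 18) (.ev (nat_lit 1092) (nat_lit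
 1099511627776) (.ev (nat_lit 1104) (nat_lit 32) (.ev (nat_lit 1117) (nat_lit 70368744177664) .dd))))))) (.br
 (nat_lit 24) (.br (nat_lit 21) (.ch (nat_lit 19) (.ev (nat_lit 928) (nat_lit 70368744177696) (.ev (nat_lit
 941) (nat_lit 1099511627776) .dd))) (.ch (nat_lit 21) (.ev (nat_lit 928) (nat_lit 71468255805472) .dd))) (.br
 (nat_lit 25) (.ch (nat_lit 24) (.ev (nat_lit 928) (nat_lit 70368744177696) (.ev (nat_lit 941) (nat_lit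
 1099511627776) .dd))) (.br (nat_lit 29) (.ch (nat_lit 25) (.ev (nat_lit 1040) (nat_lit 32) (.ev (nat_lit 1092)
 (nat_lit 1099511627776) (.ev (nat_lit 1101) (nat_lit 70368744177664) .dd)))) (.ch (nat_lit 29) (.ev (nat_lit
 928) (nat_lit 71468255805472) .dd))))))))))) (.br (nat_lit 5) (.ch (nat_lit 4) (.ev (nat_lit 52) (nat_lit
 353493074317360) (.ev (nat_lit 128) (nat_lit 573947217510976) .dd))) (.ch (nat_lit 5) (.ev (nat_lit 52)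
 (nat_lit 283124330463264) (.ev (nat_lit 84) (nat_lit 2199023259648) (.ev (nat_lit 116) (nat_lit 8796093022208)
 (.ev (nat_lit 180) (nat_lit 2147483648) (.ev (nat_lit 212) (nat_lit 633318697598976) (.nd (nat_lit 912) (.br
 (nat_lit 19) (.br (nat_lit 4) (.br (nat_lit 2) (.ch (nat_lit 1) (.ev (nat_lit 928) (nat_lit 592) .dd)) (.ch
 (nat_lit 2) (.ev (nat_lit 928) (nat_lit 576) (.ev (nat_lit 941) (nat_lit 16) .dd)))) (.br (nat_lit 13) (.ch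
 (nat_lit 4) (.ev (nat_lit 928) (nat_lit 512) (.ev (nat_lit 976) (nat_lit 80) .dd))) (.ch (nat_lit 13) (.ev
 (nat_lit 928) (nat_lit 592) .dd)))) (.br (nat_lit 27) (.br (nat_lit 20) (.ch (nat_lit 19) (.ev (nat_lit 928)
 (nat_lit 80) (.ev (nat_lit 941) (nat_lit 512) .dd))) (.ch (nat_lit 20) (.ev (nat_lit 928) (nat_lit 592) .dd)))
 (.br (nat_lit 28) (.ch (nat_lit 27) (.ev (nat_lit 928) (nat_lit 592) .dd)) (.ch (nat_lit 28) (.ev (nat_lit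
 928) (nat_lit 592) .dd)))))))))))))) (.br (nat_lit 7) (.ch (nat_lit 6) (.ev (nat_lit 52) (nat_lit
 645415492125200) (.ev (nat_lit 84) (nat_lit 4096) (.ev (nat_lit 148) (nat_lit 32) (.ev (nat_lit 212) (nat_lit
 64) (.ev (nat_lit 276) (nat_lit 67108864) (.nd (nat_lit 912) (.br (nat_lit 18) (.br (nat_lit 5) (.br (nat_lit
 4) (.ch (nat_lit 2) (.ev (nat_lit 928) (nat_lit 281474976710656) (.ev (nat_lit 1092) (nat_lit 549755813888)
 (.ev (nat_lit 1101) (nat_lit 65536) .dd)))) (.ch (nat_lit 4) (.ev (nat_lit 928) (nat_lit 282024732590080)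
 .dd))) (.br (nat_lit 12) (.ch (nat_lit 5) (.ev (nat_lit 928) (nat_lit 281474976776192) (.ev (nat_lit 941)
 (nat_lit 549755813888) .dd))) (.br (nat_lit 15) (.ch (nat_lit 12) (.ev (nat_lit 928) (nat_lit 282024732524544)
 (.ev (nat_lit 941) (nat_lit 65536) .dd))) (.ch (nat_lit 15) (.ev (nat_lit 928) (nat_lit 281474976776192) (.ev
 (nat_lit 941) (nat_lit 549755813888) .dd)))))) (.br (nat_lit 25) (.br (nat_lit 20) (.ch (nat_lit 18) (.ev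
 (nat_lit 928) (nat_lit 282024732524544) (.ev (nat_lit 941) (nat_lit 65536) .dd))) (.br (nat_lit 21) (.ch
 (nat_lit 20) (.ev (nat_lit 928) (nat_lit 282024732590080) .dd)) (.ch (nat_lit 21) (.ev (nat_lit 928) (nat_lit
 282024732590080) .dd)))) (.br (nat_lit 26) (.ch (nat_lit 25) (.ev (nat_lit 928) (nat_lit 281474976776192) (.ev
 (nat_lit 941) (nat_lit 549755813888) .dd))) (.br (nat_lit 28) (.ch (nat_lit 26) (.ev (nat_lit 928) (nat_lit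
 282024732590080) .dd)) (.ch (nat_lit 28) (.ev (nat_lit 928) (nat_lit 549755879424) (.ev (nat_lit 941) (nat_lit
 281474976710656) .dd)))))))))))))) (.br (nat_lit 8) (.ch (nat_lit 7) (.ev (nat_lit 52) (nat_lit
 79714660450384) (.ev (nat_lit 84) (nat_lit 283676149547520) (.ev (nat_lit 116) (nat_lit 4128) (.nd (nat_lit
 912) (.br (nat_lit 18) (.br (nat_lit 12) (.br (nat_lit 4) (.ch (nat_lit 0) (.ev (nat_lit 928) (nat_lit
 564049481826304) .dd)) (.ch (nat_lit 4) (.ev (nat_lit 928) (nat_lit 562949970198528) (.ev (nat_lit 941)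
 (nat_lit 1099511627776) .dd)))) (.br (nat_lit 13) (.ch (nat_lit 12) (.ev (nat_lit 928) (nat_lit
 562949970198528) (.ev (nat_lit 941) (nat_lit 1099511627776) .dd))) (.ch (nat_lit 13) (.ev (nat_lit 928)
 (nat_lit 1099528404992) (.ev (nat_lit 941) (nat_lit 562949953421312) .dd))))) (.br (nat_lit 24) (.br (nat_lit
 19) (.ch (nat_lit 18) (.ev (nat_lit 928) (nat_lit 562949970198528) (.ev (nat_lit 941) (nat_lit 1099511627776)
 .dd))) (.ch (nat_lit 19) (.ev (nat_lit 928) (nat_lit 564049481826304) .dd))) (.br (nat_lit 27) (.ch (nat_lit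
 24) (.ev (nat_lit 928) (nat_lit 562949970198528) (.ev (nat_lit 941) (nat_lit 1099511627776) .dd))) (.br
 (nat_lit 29) (.ch (nat_lit 27) (.ev (nat_lit 928) (nat_lit 564049481826304) .dd)) (.ch (nat_lit 29) (.ev
 (nat_lit 928) (nat_lit 564049465049088) (.ev (nat_lit 941) (nat_lit 16777216) .dd)))))))))))) (.ch (nat_lit 8)
 (.ev (nat_lit 52) (nat_lit 281477126619664) (.ev (nat_lit 84) (nat_lit 2199090364416) (.ev (nat_lit 116)
 (nat_lit 549755817984) (.ev (nat_lit 148) (nat_lit 8796093022208) (.ev (nat_lit 180) (nat_lit 64) (.ev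
 (nat_lit 212) (nat_lit 70368744177664) (.ev (nat_lit 276) (nat_lit 16777216) (.nd (nat_lit 912) (.br (nat_lit
 18) (.br (nat_lit 5) (.br (nat_lit 4) (.ch (nat_lit 2) (.ev (nat_lit 928) (nat_lit 564049465049120) .dd)) (.ch
 (nat_lit 4) (.ev (nat_lit 928) (nat_lit 564049465049120) .dd))) (.br (nat_lit 12) (.ch (nat_lit 5) (.ev
 (nat_lit 928) (nat_lit 564049465049120) .dd)) (.br (nat_lit 13) (.ch (nat_lit 12) (.ev (nat_lit 928) (nat_lit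
 562949953421344) (.ev (nat_lit 941) (nat_lit 1099511627776) .dd))) (.ch (nat_lit 13) (.ev (nat_lit 928)
 (nat_lit 1099511627808) (.ev (nat_lit 941) (nat_lit 562949953421312) .dd)))))) (.br (nat_lit 21) (.br (nat_lit
 19) (.ch (nat_lit 18) (.ev (nat_lit 928) (nat_lit 564049465049088) (.ev (nat_lit 941) (nat_lit 32) .dd))) (.br
 (nat_lit 20) (.ch (nat_lit 19) (.ev (nat_lit 928) (nat_lit 562949953421344) (.ev (nat_lit 941) (nat_lit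
 1099511627776) .dd))) (.ch (nat_lit 20) (.ev (nat_lit 928) (nat_lit 564049465049088) (.ev (nat_lit 941)
 (nat_lit 32) .dd))))) (.br (nat_lit 25) (.ch (nat_lit 21) (.ev (nat_lit 928) (nat_lit 564049465049120) .dd))
 (.br (nat_lit 26) (.ch (nat_lit 25) (.ev (nat_lit 928) (nat_lit 562949953421312) (.ev (nat_lit 1092) (nat_lit
 1099511627776) (.ev (nat_lit 1101) (nat_lit 32) .dd)))) (.ch (nat_lit 26) (.ev (nat_lit 928) (nat_lit
 562949953421344) (.ev (nat_lit 941) (nat_lit 1099511627776) .dd))))))))))))))))))) (.br (nat_lit 13) (.br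
 (nat_lit 10) (.ch (nat_lit 9) (.ev (nat_lit 52) (nat_lit 293569604681776) (.ev (nat_lit 84) (nat_lit 512) (.ev
 (nat_lit 96) (nat_lit 633870687146048) .dd)))) (.br (nat_lit 12) (.ch (nat_lit 10) (.ev (nat_lit 52) (nat_lit
 854872507285600) (.ev (nat_lit 84) (nat_lit 4096) (.ev (nat_lit 160) (nat_lit 72567784538640) .dd)))) (.ch
 (nat_lit 12) (.ev (nat_lit 52) (nat_lit 73117607400032) (.ev (nat_lit 84) (nat_lit 562952100904960) (.ev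
 (nat_lit 116) (nat_lit 1099511627776) (.ev (nat_lit 224) (nat_lit 290271071895568) .dd))))))) (.br (nat_lit
 18) (.br (nat_lit 17) (.ch (nat_lit 13) (.ev (nat_lit 52) (nat_lit 564599290135056) (.ev (nat_lit 84) (nat_lit
 262144) (.ev (nat_lit 116) (nat_lit 290271069732864) (.ev (nat_lit 160) (nat_lit 72569931698272) .dd))))) (.ch
 (nat_lit 17) (.ev (nat_lit 52) (nat_lit 642664548860480) (.ev (nat_lit 84) (nat_lit 67112960) (.ev (nat_lit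
 116) (nat_lit 1099511627776) (.ev (nat_lit 148) (nat_lit 16) (.ev (nat_lit 308) (nat_lit 281474976710688) (.nd
 (nat_lit 912) (.br (nat_lit 20) (.br (nat_lit 5) (.br (nat_lit 4) (.ch (nat_lit 1) (.ev (nat_lit 928) (nat_lit
 2199023255552) (.ev (nat_lit 1204) (nat_lit 16777216) (.ev (nat_lit 1213) (nat_lit 2147483648) .dd)))) (.ch
 (nat_lit 4) (.ev (nat_lit 928) (nat_lit 2201187516416) .dd))) (.br (nat_lit 12) (.ch (nat_lit 5) (.ev (nat_lit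
 928) (nat_lit 2201170739200) (.ev (nat_lit 941) (nat_lit 16777216) .dd))) (.ch (nat_lit 12) (.ev (nat_lit 928)
 (nat_lit 2164260864) (.ev (nat_lit 941) (nat_lit 2199023255552) .dd))))) (.br (nat_lit 27) (.br (nat_lit 21)
 (.ch (nat_lit 20) (.ev (nat_lit 928) (nat_lit 2201187516416) .dd)) (.ch (nat_lit 21) (.ev (nat_lit 928)
 (nat_lit 2201187516416) .dd))) (.br (nat_lit 28) (.ch (nat_lit 27) (.ev (nat_lit 928) (nat_lit 2201187516416)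
 .dd)) (.br (nat_lit 29) (.ch (nat_lit 28) (.ev (nat_lit 928) (nat_lit 2199023255552) (.ev (nat_lit 1172)
 (nat_lit 2147483648) (.ev (nat_lit 1181) (nat_lit 16777216) .dd)))) (.ch (nat_lit 29) (.ev (nat_lit 928)
 (nat_lit 2201170739200) (.ev (nat_lit 941) (nat_lit 16777216) .dd))))))))))))))) (.br (nat_lit 21) (.ch
 (nat_lit 18) (.ev (nat_lit 52) (nat_lit 634418278694912) (.ev (nat_lit 64) (nat_lit 293022013133424) .dd)))
 (.ch (nat_lit 21) (.ev (nat_lit 52) (nat_lit 551903367760) (.ev (nat_lit 84) (nat_lit 2199023255552) (.ev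
 (nat_lit 148) (nat_lit 562949953421312) (.ev (nat_lit 180) (nat_lit 2097184) (.ev (nat_lit 212) (nat_lit
 8796176908288) (.ev (nat_lit 688) (nat_lit 70368744177664) (.ev (nat_lit 886) (nat_lit 262144) (.nd (nat_lit
 912) (.br (nat_lit 6) (.br (nat_lit 2) (.br (nat_lit 1) (.ch (nat_lit 0) (.ev (nat_lit 928) (nat_lit
 282574488338432) .dd)) (.ch (nat_lit 1) (.ev (nat_lit 992) (nat_lit 282574488338432) .dd))) (.br (nat_lit 5)
 (.ch (nat_lit 2) (.ev (nat_lit 928) (nat_lit 282574488338432) .dd)) (.ch (nat_lit 5) (.ev (nat_lit 928)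
 (nat_lit 282574488338432) .dd)))) (.br (nat_lit 15) (.br (nat_lit 13) (.ch (nat_lit 6) (.fin (nat_lit
 576464600585159233))) (.ch (nat_lit 13) (.ev (nat_lit 928) (nat_lit 282574488338432) .dd))) (.br (nat_lit 18)
 (.ch (nat_lit 15) (.ev (nat_lit 928) (nat_lit 282574488338432) .dd)) (.br (nat_lit 27) (.ch (nat_lit 18) (.ev
 (nat_lit 928) (nat_lit 1099511627776) (.ev (nat_lit 941) (nat_lit 281474976710656) .dd))) (.ch (nat_lit 27)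
 (.ev (nat_lit 928) (nat_lit 1099511627776) (.ev (nat_lit 941) (nat_lit 281474976710656)
 .dd)))))))))))))))))))) (.br (nat_lit 34) (.br (nat_lit 30) (.br (nat_lit 25) (.ch (nat_lit 22) (.ev (nat_lit
 52) (nat_lit 645965296177168) (.ev (nat_lit 116) (nat_lit 96) (.ev (nat_lit 148) (nat_lit 65536) (.ev (nat_lit
 592) (nat_lit 16777216) (.nd (nat_lit 912) (.br (nat_lit 13) (.br (nat_lit 6) (.br (nat_lit 5) (.ch (nat_lit
 1) (.ev (nat_lit 928) (nat_lit 281474978808320) .dd)) (.ch (nat_lit 5) (.ev (nat_lit 928) (nat_lit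
 281474978808320) .dd))) (.br (nat_lit 12) (.ch (nat_lit 6) (.ev (nat_lit 928) (nat_lit 281474978807808) (.ev
 (nat_lit 941) (nat_lit 512) .dd))) (.ch (nat_lit 12) (.ev (nat_lit 928) (nat_lit 2097664) (.ev (nat_lit 941)
 (nat_lit 281474976710656) .dd))))) (.br (nat_lit 20) (.br (nat_lit 15) (.ch (nat_lit 13) (.ev (nat_lit 928)
 (nat_lit 281474978808320) .dd)) (.ch (nat_lit 15) (.ev (nat_lit 928) (nat_lit 281474978808320) .dd))) (.br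
 (nat_lit 24) (.ch (nat_lit 20) (.ev (nat_lit 928) (nat_lit 281474978808320) .dd)) (.ch (nat_lit 24) (.ev
 (nat_lit 928) (nat_lit 281474976711168) (.ev (nat_lit 941) (nat_lit 2097152) .dd)))))))))))) (.br (nat_lit 26)
 (.ch (nat_lit 25) (.ev (nat_lit 52) (nat_lit 854872456954432) (.ev (nat_lit 84) (nat_lit 70368744177664) (.ev
 (nat_lit 116) (nat_lit 65536) (.ev (nat_lit 212) (nat_lit 262144) (.ev (nat_lit 276) (nat_lit 67108864) (.ev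
 (nat_lit 676) (nat_lit 2199023255552) (.nd (nat_lit 912) (.br (nat_lit 19) (.br (nat_lit 15) (.br (nat_lit 2)
 (.ch (nat_lit 0) (.ev (nat_lit 928) (nat_lit 4144) .dd)) (.ch (nat_lit 2) (.ev (nat_lit 928) (nat_lit 4144)
 .dd))) (.br (nat_lit 18) (.ch (nat_lit 15) (.ev (nat_lit 928) (nat_lit 32) (.ev (nat_lit 1092) (nat_lit 4096)
 (.ev (nat_lit 1101) (nat_lit 16) .dd)))) (.ch (nat_lit 18) (.ev (nat_lit 928) (nat_lit 4144) .dd)))) (.br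
 (nat_lit 26) (.br (nat_lit 24) (.ch (nat_lit 19) (.ev (nat_lit 928) (nat_lit 4144) .dd)) (.ch (nat_lit 24)
 (.ev (nat_lit 928) (nat_lit 4144) .dd))) (.br (nat_lit 27) (.ch (nat_lit 26) (.ev (nat_lit 928) (nat_lit 4112)
 (.ev (nat_lit 941) (nat_lit 32) .dd))) (.br (nat_lit 29) (.ch (nat_lit 27) (.ev (nat_lit 928) (nat_lit 4112)
 (.ev (nat_lit 941) (nat_lit 32) .dd))) (.ch (nat_lit 29) (.ev (nat_lit 928) (nat_lit 4128) (.ev (nat_lit 941)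
 (nat_lit 16) .dd))))))))))))))) (.ch (nat_lit 26) (.ev (nat_lit 52) (nat_lit 565151208309248) (.ev (nat_lit
 84) (nat_lit 2097152) (.ev (nat_lit 96) (nat_lit 362289081421936) .dd)))))) (.br (nat_lit 31) (.ch (nat_lit
 30) (.ev (nat_lit 52) (nat_lit 285323284451424) (.ev (nat_lit 84) (nat_lit 66048) (.ev (nat_lit 160) (nat_lit
 642117007310864) .dd)))) (.br (nat_lit 33) (.ch (nat_lit 31) (.ev (nat_lit 52) (nat_lit 80264433042032) (.ev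
 (nat_lit 84) (nat_lit 2101248) (.ev (nat_lit 116) (nat_lit 565148976676864) (.ev (nat_lit 148) (nat_lit
 281474976710656) (.nd (nat_lit 912) (.br (nat_lit 13) (.br (nat_lit 4) (.br (nat_lit 1) (.ch (nat_lit 0) (.ev
 (nat_lit 928) (nat_lit 551903297536) .dd)) (.br (nat_lit 2) (.ch (nat_lit 1) (.ev (nat_lit 928) (nat_lit
 551903297536) .dd)) (.ch (nat_lit 2) (.ev (nat_lit 928) (nat_lit 2147483648) (.ev (nat_lit 941) (nat_lit
 549755813888) .dd))))) (.br (nat_lit 6) (.ch (nat_lit 4) (.ev (nat_lit 928) (nat_lit 551903297536) .dd)) (.br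
 (nat_lit 12) (.ch (nat_lit 6) (.ev (nat_lit 928) (nat_lit 2147483648) (.ev (nat_lit 941) (nat_lit
 549755813888) .dd))) (.ch (nat_lit 12) (.ev (nat_lit 928) (nat_lit 551903297536) .dd))))) (.br (nat_lit 26)
 (.br (nat_lit 15) (.ch (nat_lit 13) (.ev (nat_lit 928) (nat_lit 551903297536) .dd)) (.br (nat_lit 25) (.ch
 (nat_lit 15) (.ev (nat_lit 928) (nat_lit 2147483648) (.ev (nat_lit 941) (nat_lit 549755813888) .dd))) (.ch
 (nat_lit 25) (.ev (nat_lit 1092) (nat_lit 549755813888) (.ev (nat_lit 1101) (nat_lit 2147483648) .dd))))) (.br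
 (nat_lit 27) (.ch (nat_lit 26) (.ev (nat_lit 928) (nat_lit 549755813888) (.ev (nat_lit 941) (nat_lit
 2147483648) .dd))) (.br (nat_lit 29) (.ch (nat_lit 27) (.ev (nat_lit 928) (nat_lit 2147483648) (.ev (nat_lit
 941) (nat_lit 549755813888) .dd))) (.ch (nat_lit 29) (.ev (nat_lit 928) (nat_lit 549755813888) (.ev (nat_lit
 941) (nat_lit 2147483648) .dd))))))))))))) (.ch (nat_lit 33) (.ev (nat_lit 52) (nat_lit 2231369824) (.ev
 (nat_lit 84) (nat_lit 2097664) (.ev (nat_lit 116) (nat_lit 4096) (.ev (nat_lit 148) (nat_lit 1099511889936)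
 (.ev (nat_lit 180) (nat_lit 2199023255552) (.ev (nat_lit 212) (nat_lit 633318697598976) (.ev (nat_lit 244)
 (nat_lit 65536) (.ev (nat_lit 804) (nat_lit 549755813888) (.ev (nat_lit 820) (nat_lit 8796093022208) (.ev
 (nat_lit 829) (nat_lit 281474976710656) .dd)))))))))))))) (.br (nat_lit 37) (.br (nat_lit 35) (.ch (nat_lit
 34) (.ev (nat_lit 52) (nat_lit 856519558107136) (.ev (nat_lit 84) (nat_lit 2097152) (.ev (nat_lit 148)
 (nat_lit 2164260864) (.ev (nat_lit 180) (nat_lit 16) (.ev (nat_lit 276) (nat_lit 70368744177664) (.ev (nat_lit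
 432) (nat_lit 512) (.nd (nat_lit 912) (.br (nat_lit 24) (.br (nat_lit 20) (.br (nat_lit 18) (.ch (nat_lit 13)
 (.ev (nat_lit 928) (nat_lit 549823184992) .dd)) (.ch (nat_lit 18) (.ev (nat_lit 928) (nat_lit 549823184960)
 (.ev (nat_lit 941) (nat_lit 32) .dd)))) (.br (nat_lit 21) (.ch (nat_lit 20) (.ev (nat_lit 928) (nat_lit
 549823184928) (.ev (nat_lit 941) (nat_lit 64) .dd))) (.ch (nat_lit 21) (.ev (nat_lit 928) (nat_lit
 549822922784) (.ev (nat_lit 1092) (nat_lit 64) (.ev (nat_lit 1101) (nat_lit 262144) .dd)))))) (.br (nat_lit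
 26) (.br (nat_lit 25) (.ch (nat_lit 24) (.ev (nat_lit 928) (nat_lit 549822922848) (.ev (nat_lit 941) (nat_lit
 262144) .dd))) (.ch (nat_lit 25) (.ev (nat_lit 928) (nat_lit 549823184992) .dd))) (.br (nat_lit 27) (.ch
 (nat_lit 26) (.ev (nat_lit 928) (nat_lit 67371072) (.fin (nat_lit 576451406454014521)))) (.br (nat_lit 28)
 (.ch (nat_lit 27) (.ev (nat_lit 928) (nat_lit 549823184992) .dd)) (.ch (nat_lit 28) (.ev (nat_lit 960)
 (nat_lit 32) (.ev (nat_lit 1092) (nat_lit 549755813952) (.fin (nat_lit 576465700110418480)))))))))))))))))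
 (.br (nat_lit 36) (.ch (nat_lit 35) (.ev (nat_lit 52) (nat_lit 82463391224352) (.ev (nat_lit 128) (nat_lit
 844976900603984) .dd))) (.ch (nat_lit 36) (.ev (nat_lit 52) (nat_lit 283674069176928) (.ev (nat_lit 84)
 (nat_lit 71468272582656) (.ev (nat_lit 116) (nat_lit 2147483648) (.ev (nat_lit 180) (nat_lit 262144) (.ev
 (nat_lit 212) (nat_lit 8796093022208) (.ev (nat_lit 244) (nat_lit 562949953421312) (.nd (nat_lit 912) (.br
 (nat_lit 13) (.br (nat_lit 5) (.br (nat_lit 4) (.ch (nat_lit 0) (.ev (nat_lit 928) (nat_lit 549755879440)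
 .dd)) (.ch (nat_lit 4) (.ev (nat_lit 928) (nat_lit 549755879424) (.ev (nat_lit 941) (nat_lit 16) .dd)))) (.br
 (nat_lit 6) (.ch (nat_lit 5) (.ev (nat_lit 928) (nat_lit 65552) (.ev (nat_lit 941) (nat_lit 549755813888)
 .dd))) (.ch (nat_lit 6) (.ev (nat_lit 928) (nat_lit 65552) (.ev (nat_lit 941) (nat_lit 549755813888) .dd)))))
 (.br (nat_lit 25) (.br (nat_lit 18) (.ch (nat_lit 13) (.ev (nat_lit 928) (nat_lit 549755879440) .dd)) (.ch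
 (nat_lit 18) (.ev (nat_lit 928) (nat_lit 65552) (.ev (nat_lit 941) (nat_lit 549755813888) .dd)))) (.br
 (nat_lit 27) (.ch (nat_lit 25) (.ev (nat_lit 928) (nat_lit 549755879440) .dd)) (.br (nat_lit 28) (.ch (nat_lit
 27) (.ev (nat_lit 928) (nat_lit 65552) (.ev (nat_lit 941) (nat_lit 549755813888) .dd))) (.ch (nat_lit 28) (.ev
 (nat_lit 928) (nat_lit 549755813888) (.ev (nat_lit 944) (nat_lit 16) (.ev (nat_lit 957) (nat_lit 65536)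
 .dd)))))))))))))))))) (.br (nat_lit 39) (.br (nat_lit 38) (.ch (nat_lit 37) (.ev (nat_lit 52) (nat_lit
 281474979140128) (.ev (nat_lit 84) (nat_lit 2199023255568) (.ev (nat_lit 116) (nat_lit 549822922752) (.ev
 (nat_lit 148) (nat_lit 79164837199872) (.ev (nat_lit 180) (nat_lit 562949953421312) (.ev (nat_lit 244)
 (nat_lit 2147483648) (.ev (nat_lit 308) (nat_lit 16777216) (.ev (nat_lit 790) (nat_lit 1099511627776) (.ev
 (nat_lit 797) (nat_lit 64) .dd)))))))))) (.ch (nat_lit 38) (.ev (nat_lit 52) (nat_lit 916992699662944) (.ev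
 (nat_lit 96) (nat_lit 10447592165392) .dd)))) (.br (nat_lit 42) (.ch (nat_lit 39) (.ev (nat_lit 52) (nat_lit
 79714611892304) (.ev (nat_lit 84) (nat_lit 512) (.ev (nat_lit 116) (nat_lit 562949953421312) (.ev (nat_lit
 212) (nat_lit 65568) (.nd (nat_lit 912) (.br (nat_lit 18) (.br (nat_lit 6) (.br (nat_lit 2) (.ch (nat_lit 1)
 (.ev (nat_lit 928) (nat_lit 283674067337216) (.ev (nat_lit 1092) (nat_lit 2147483648) (.ev (nat_lit 1101)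
 (nat_lit 1099511627776) .dd)))) (.ch (nat_lit 2) (.ev (nat_lit 928) (nat_lit 282574555709440) (.ev (nat_lit
 944) (nat_lit 2199023255552) (.ev (nat_lit 957) (nat_lit 2147483648) .dd))))) (.br (nat_lit 12) (.ch (nat_lit
 6) (.ev (nat_lit 928) (nat_lit 2201238110208) (.nd (nat_lit 1281) (.ch (nat_lit 16) (.nd (nat_lit 1296) (.br
 (nat_lit 17) (.ch (nat_lit 6) (.fin (nat_lit 576458003536364095))) (.ch (nat_lit 17) (.ev (nat_lit 1312)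
 (nat_lit 282574488338432) .dd)))))))) (.ch (nat_lit 12) (.ev (nat_lit 928) (nat_lit 281477191565312) (.ev
 (nat_lit 944) (nat_lit 2199023255552) (.ev (nat_lit 957) (nat_lit 1099511627776) .dd)))))) (.br (nat_lit 24)
 (.br (nat_lit 19) (.ch (nat_lit 18) (.ev (nat_lit 928) (nat_lit 284775726448640) .dd)) (.ch (nat_lit 19) (.ev
 (nat_lit 928) (nat_lit 2201238110208) (.ev (nat_lit 944) (nat_lit 1099511627776) (.ev (nat_lit 957) (nat_lit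
 281474976710656) .dd))))) (.br (nat_lit 28) (.ch (nat_lit 24) (.ev (nat_lit 928) (nat_lit 284773578964992)
 (.ev (nat_lit 941) (nat_lit 2147483648) .dd))) (.br (nat_lit 29) (.ch (nat_lit 28) (.ev (nat_lit 928) (nat_lit
 3298534883328) (.ev (nat_lit 1092) (nat_lit 281474976710656) (.ev (nat_lit 1172) (nat_lit 2147483648) (.nd
 (nat_lit 1281) (.ch (nat_lit 18) (.nd (nat_lit 1296) (.br (nat_lit 25) (.ch (nat_lit 9) (.fin (nat_lit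
 576465700110418480))) (.ch (nat_lit 25) (.ev (nat_lit 1312) (nat_lit 67371008) .dd)))))))))) (.ch (nat_lit 29)
 (.ev (nat_lit 928) (nat_lit 3300749737984) (.ev (nat_lit 941) (nat_lit 281474976710656) .dd))))))))))))) (.ch
 (nat_lit 42) (.ev (nat_lit 52) (nat_lit 354042744476240) (.ev (nat_lit 84) (nat_lit 2097152) (.ev (nat_lit
 116) (nat_lit 1099511627776) (.ev (nat_lit 180) (nat_lit 16777216) (.ev (nat_lit 276) (nat_lit 2147483648)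
 (.ev (nat_lit 308) (nat_lit 562949953421312) (.nd (nat_lit 912) (.br (nat_lit 18) (.br (nat_lit 5) (.br
 (nat_lit 2) (.ch (nat_lit 0) (.ev (nat_lit 928) (nat_lit 9345848836128) (.ev (nat_lit 941) (nat_lit 67108864)
 .dd))) (.ch (nat_lit 2) (.ev (nat_lit 928) (nat_lit 549822922784) (.ev (nat_lit 941) (nat_lit 8796093022208)
 .dd)))) (.br (nat_lit 6) (.ch (nat_lit 5) (.ev (nat_lit 928) (nat_lit 8796160131104) (.ev (nat_lit 941)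
 (nat_lit 549755813888) .dd))) (.ch (nat_lit 6) (.ev (nat_lit 928) (nat_lit 9345848836128) (.ev (nat_lit 941)
 (nat_lit 67108864) .dd))))) (.br (nat_lit 26) (.br (nat_lit 20) (.ch (nat_lit 18) (.ev (nat_lit 928) (nat_lit
 9345915944992) .dd)) (.ch (nat_lit 20) (.ev (nat_lit 928) (nat_lit 9345915944992) .dd))) (.br (nat_lit 27)
 (.ch (nat_lit 26) (.ev (nat_lit 928) (nat_lit 67108864) (.ev (nat_lit 992) (nat_lit 8796093022208) (.fin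
 (nat_lit 576451406454014521))))) (.br (nat_lit 28) (.ch (nat_lit 27) (.ev (nat_lit 928) (nat_lit
 8796160131072) (.ev (nat_lit 976) (nat_lit 549755813920) .dd))) (.ch (nat_lit 28) (.ev (nat_lit 928) (nat_lit
 8796160131104) (.ev (nat_lit 941) (nat_lit 549755813888) .dd))))))))))))))))))))))

/-- Subtrie. -/
noncomputable def T6 : Tr := (.ev (nat_lit 20) (nat_lit 799414226848800) (.nd (nat_lit 33) (.br (nat_lit 22)
 (.br (nat_lit 9) (.br (nat_lit 6) (.br (nat_lit 4) (.ch (nat_lit 1) (.ev (nat_lit 52) (nat_lit 9354776547856)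
 (.ev (nat_lit 84) (nat_lit 137438953472) (.ev (nat_lit 116) (nat_lit 4194304) (.ev (nat_lit 148) (nat_lit 64)
 (.ev (nat_lit 192) (nat_lit 5911251536347136) .dd)))))) (.br (nat_lit 5) (.ch (nat_lit 4) (.ev (nat_lit 52)
 (nat_lit 4785624429105168) (.ev (nat_lit 84) (nat_lit 8798240505856) (.ev (nat_lit 148) (nat_lit
 1125908496777216) (.nd (nat_lit 912) (.br (nat_lit 13) (.br (nat_lit 7) (.br (nat_lit 5) (.ch (nat_lit 2) (.ev
 (nat_lit 928) (nat_lit 137711747648) (.ev (nat_lit 941) (nat_lit 274877906944) .dd))) (.ch (nat_lit 5) (.ev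
 (nat_lit 928) (nat_lit 412585426944) (.ev (nat_lit 1008) (nat_lit 32768) (.ev (nat_lit 1104) (nat_lit 4194304)
 (.fin (nat_lit 576465700110418516))))))) (.br (nat_lit 11) (.ch (nat_lit 7) (.ev (nat_lit 928) (nat_lit
 274877907008) (.ev (nat_lit 944) (nat_lit 131072) (.ev (nat_lit 960) (nat_lit 268435456) (.ev (nat_lit 1092)
 (nat_lit 137443148288) (.ev (nat_lit 1101) (nat_lit 32768) .dd)))))) (.ch (nat_lit 11) (.ev (nat_lit 928)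
 (nat_lit 412321219136) (.ev (nat_lit 941) (nat_lit 268435456) .dd))))) (.br (nat_lit 23) (.br (nat_lit 15)
 (.ch (nat_lit 13) (.ev (nat_lit 928) (nat_lit 137711747648) (.ev (nat_lit 941) (nat_lit 274877906944) .dd)))
 (.ch (nat_lit 15) (.ev (nat_lit 928) (nat_lit 412589654592) .dd))) (.br (nat_lit 24) (.ch (nat_lit 23) (.ev
 (nat_lit 928) (nat_lit 412589654592) .dd)) (.br (nat_lit 26) (.ch (nat_lit 24) (.ev (nat_lit 928) (nat_lit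
 412589654080) (.ev (nat_lit 941) (nat_lit 512) .dd))) (.ch (nat_lit 26) (.ev (nat_lit 928) (nat_lit
 412589654592) .dd))))))))))) (.ch (nat_lit 5) (.ev (nat_lit 52) (nat_lit 1408199586643968) (.ev (nat_lit 84)
 (nat_lit 8796361457664) (.ev (nat_lit 116) (nat_lit 4194304) (.ev (nat_lit 160) (nat_lit 4503747803746896)
 .dd))))))) (.br (nat_lit 7) (.ch (nat_lit 6) (.ev (nat_lit 52) (nat_lit 8798242767376) (.ev (nat_lit 84)
 (nat_lit 268435456) (.ev (nat_lit 96) (nat_lit 5911945244840000) .dd)))) (.br (nat_lit 8) (.ch (nat_lit 7)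
 (.ev (nat_lit 52) (nat_lit 9621062451280) (.ev (nat_lit 84) (nat_lit 4096) (.ev (nat_lit 116) (nat_lit
 1126037345796608) (.ev (nat_lit 192) (nat_lit 4785085347790848) .dd))))) (.ch (nat_lit 8) (.ev (nat_lit 52)
 (nat_lit 4785489338991120) (.ev (nat_lit 84) (nat_lit 71434240) (.ev (nat_lit 116) (nat_lit 549755813888) (.ev
 (nat_lit 180) (nat_lit 64) (.ev (nat_lit 288) (nat_lit 1134704589803520) .dd))))))))) (.br (nat_lit 13) (.br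
 (nat_lit 10) (.ch (nat_lit 9) (.ev (nat_lit 52) (nat_lit 1416583562002448) (.ev (nat_lit 84) (nat_lit 2097152)
 (.ev (nat_lit 116) (nat_lit 8594128896) (.ev (nat_lit 180) (nat_lit 549755813888) (.ev (nat_lit 212) (nat_lit
 2147483648) (.ev (nat_lit 576) (nat_lit 4503599627370496) (.nd (nat_lit 912) (.br (nat_lit 11) (.br (nat_lit
 5) (.br (nat_lit 2) (.ch (nat_lit 0) (.ev (nat_lit 928) (nat_lit 67146304) .dd)) (.ch (nat_lit 2) (.ev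
 (nat_lit 928) (nat_lit 67113536) (.ev (nat_lit 941) (nat_lit 32768) .dd)))) (.br (nat_lit 9) (.ch (nat_lit 5)
 (.ev (nat_lit 960) (nat_lit 67108864) (.ev (nat_lit 1092) (nat_lit 36864) (.fin (nat_lit
 576456904011104812))))) (.ch (nat_lit 9) (.ev (nat_lit 928) (nat_lit 37440) (.ev (nat_lit 941) (nat_lit
 67108864) .dd))))) (.br (nat_lit 19) (.br (nat_lit 12) (.ch (nat_lit 11) (.ev (nat_lit 928) (nat_lit 67146304)
 .dd)) (.ch (nat_lit 12) (.ev (nat_lit 928) (nat_lit 33344) (.fin (nat_lit 576471197663314498))))) (.br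
 (nat_lit 24) (.ch (nat_lit 19) (.ev (nat_lit 928) (nat_lit 67146240) (.ev (nat_lit 941) (nat_lit 64) .dd)))
 (.ch (nat_lit 24) (.ev (nat_lit 928) (nat_lit 67146304) .dd))))))))))))) (.br (nat_lit 12) (.ch (nat_lit 10)
 (.ev (nat_lit 52) (nat_lit 4794697820176448) (.ev (nat_lit 116) (nat_lit 16) (.ev (nat_lit 192) (nat_lit
 1126045935866368) .dd)))) (.ch (nat_lit 12) (.ev (nat_lit 52) (nat_lit 4504287157719616) (.ev (nat_lit 84)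
 (nat_lit 8796093153280) (.ev (nat_lit 128) (nat_lit 1407660505169936) .dd)))))) (.br (nat_lit 18) (.br
 (nat_lit 17) (.ch (nat_lit 13) (.ev (nat_lit 52) (nat_lit 4504286891508240) (.ev (nat_lit 84) (nat_lit
 4194304) (.ev (nat_lit 116) (nat_lit 274877906944) (.ev (nat_lit 148) (nat_lit 64) (.ev (nat_lit 244) (nat_lit
 1407374883553280) (.ev (nat_lit 448) (nat_lit 2147483648) (.nd (nat_lit 912) (.br (nat_lit 7) (.br (nat_lit 5)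
 (.br (nat_lit 1) (.ch (nat_lit 0) (.ev (nat_lit 928) (nat_lit 8804951396352) .dd)) (.ch (nat_lit 1) (.ev
 (nat_lit 928) (nat_lit 8804951396352) .dd))) (.br (nat_lit 6) (.ch (nat_lit 5) (.ev (nat_lit 928) (nat_lit
 8804951396352) .dd)) (.ch (nat_lit 6) (.ev (nat_lit 1092) (nat_lit 8804682960896) (.ev (nat_lit 1101) (nat_lit
 268435456) .dd))))) (.br (nat_lit 18) (.br (nat_lit 15) (.ch (nat_lit 7) (.ev (nat_lit 928) (nat_lit
 8589938688) (.ev (nat_lit 1092) (nat_lit 268435456) (.ev (nat_lit 1101) (nat_lit 8796093022208) .dd)))) (.ch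
 (nat_lit 15) (.ev (nat_lit 928) (nat_lit 8858374144) (.ev (nat_lit 941) (nat_lit 8796093022208) .dd)))) (.br
 (nat_lit 19) (.ch (nat_lit 18) (.ev (nat_lit 928) (nat_lit 8858374144) (.ev (nat_lit 941) (nat_lit
 8796093022208) .dd))) (.br (nat_lit 23) (.ch (nat_lit 19) (.ev (nat_lit 928) (nat_lit 8804682956800) (.ev
 (nat_lit 1092) (nat_lit 268435456) (.ev (nat_lit 1101) (nat_lit 4096) .dd)))) (.ch (nat_lit 23) (.ev (nat_lit
 928) (nat_lit 8804951392256) (.ev (nat_lit 941) (nat_lit 4096) .dd))))))))))))))) (.ch (nat_lit 17) (.ev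
 (nat_lit 52) (nat_lit 5639129125618240) (.ev (nat_lit 84) (nat_lit 67108880) (.ev (nat_lit 116) (nat_lit
 131072) (.ev (nat_lit 148) (nat_lit 2147516416) (.ev (nat_lit 180) (nat_lit 4096) (.ev (nat_lit 804) (nat_lit
 137438953472) (.ev (nat_lit 813) (nat_lit 281474976710656) .dd))))))))) (.br (nat_lit 21) (.ch (nat_lit 18)
 (.ev (nat_lit 52) (nat_lit 5629920514539520) (.ev (nat_lit 84) (nat_lit 549755813888) (.ev (nat_lit 116)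
 (nat_lit 32768) (.ev (nat_lit 128) (nat_lit 290273485656656) .dd))))) (.ch (nat_lit 21) (.ev (nat_lit 52)
 (nat_lit 1126597843227216) (.ev (nat_lit 84) (nat_lit 131072) (.ev (nat_lit 116) (nat_lit 281474978807808)
 (.ev (nat_lit 224) (nat_lit 4512670933876736) .dd))))))))) (.br (nat_lit 34) (.br (nat_lit 30) (.br (nat_lit
 25) (.ch (nat_lit 22) (.ev (nat_lit 52) (nat_lit 9623213969424) (.ev (nat_lit 84) (nat_lit 4503599629467648)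
 (.ev (nat_lit 116) (nat_lit 131072) (.ev (nat_lit 148) (nat_lit 281474976711168) (.ev (nat_lit 180) (nat_lit
 8589934592) (.ev (nat_lit 212) (nat_lit 1125899906842624) (.nd (nat_lit 912) (.br (nat_lit 12) (.br (nat_lit
 7) (.br (nat_lit 6) (.ch (nat_lit 2) (.ev (nat_lit 928) (nat_lit 137438953536) (.ev (nat_lit 941) (nat_lit
 32768) .dd))) (.ch (nat_lit 6) (.ev (nat_lit 928) (nat_lit 137438986304) .dd))) (.br (nat_lit 9) (.ch (nat_lit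
 7) (.ev (nat_lit 928) (nat_lit 137438953536) (.ev (nat_lit 941) (nat_lit 32768) .dd))) (.br (nat_lit 11) (.ch
 (nat_lit 9) (.ev (nat_lit 928) (nat_lit 32832) (.ev (nat_lit 941) (nat_lit 137438953472) .dd))) (.ch (nat_lit
 11) (.ev (nat_lit 928) (nat_lit 32832) (.ev (nat_lit 941) (nat_lit 137438953472) .dd)))))) (.br (nat_lit 16)
 (.br (nat_lit 13) (.ch (nat_lit 12) (.ev (nat_lit 928) (nat_lit 137438986304) .dd)) (.br (nat_lit 15) (.ch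
 (nat_lit 13) (.ev (nat_lit 928) (nat_lit 137438953472) (.ev (nat_lit 1092) (nat_lit 32768) (.ev (nat_lit 1101)
 (nat_lit 64) .dd)))) (.ch (nat_lit 15) (.ev (nat_lit 928) (nat_lit 137438986304) .dd)))) (.br (nat_lit 24)
 (.ch (nat_lit 16) (.ev (nat_lit 928) (nat_lit 137438986240) (.ev (nat_lit 941) (nat_lit 64) .dd))) (.br
 (nat_lit 29) (.ch (nat_lit 24) (.ev (nat_lit 928) (nat_lit 137438986240) (.ev (nat_lit 941) (nat_lit 64)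
 .dd))) (.ch (nat_lit 29) (.ev (nat_lit 928) (nat_lit 64) (.ev (nat_lit 976) (nat_lit 137438953472) (.ev
 (nat_lit 989) (nat_lit 32768) .dd)))))))))))))))) (.br (nat_lit 26) (.ch (nat_lit 25) (.ev (nat_lit 52)
 (nat_lit 1417143788765760) (.ev (nat_lit 84) (nat_lit 4503599694479360) (.ev (nat_lit 148) (nat_lit 16) (.ev
 (nat_lit 180) (nat_lit 32768) (.ev (nat_lit 676) (nat_lit 4194304) (.nd (nat_lit 912) (.br (nat_lit 14) (.br
 (nat_lit 12) (.br (nat_lit 7) (.ch (nat_lit 5) (.ev (nat_lit 928) (nat_lit 131072) (.ev (nat_lit 944) (nat_lit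
 268435456) (.ev (nat_lit 957) (nat_lit 4096) .dd)))) (.ch (nat_lit 7) (.ev (nat_lit 928) (nat_lit 268570624)
 .dd))) (.br (nat_lit 13) (.ch (nat_lit 12) (.ev (nat_lit 928) (nat_lit 268566528) (.ev (nat_lit 941) (nat_lit
 4096) .dd))) (.ch (nat_lit 13) (.ev (nat_lit 928) (nat_lit 268570624) .dd)))) (.br (nat_lit 16) (.br (nat_lit
 15) (.ch (nat_lit 14) (.ev (nat_lit 928) (nat_lit 268570624) .dd)) (.ch (nat_lit 15) (.ev (nat_lit 928)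
 (nat_lit 268439552) (.ev (nat_lit 941) (nat_lit 131072) .dd)))) (.br (nat_lit 19) (.ch (nat_lit 16) (.ev
 (nat_lit 928) (nat_lit 268570624) .dd)) (.br (nat_lit 24) (.ch (nat_lit 19) (.ev (nat_lit 928) (nat_lit
 268439552) (.ev (nat_lit 941) (nat_lit 131072) .dd))) (.ch (nat_lit 24) (.ev (nat_lit 928) (nat_lit 268439552)
 (.ev (nat_lit 941) (nat_lit 131072) .dd)))))))))))))) (.ch (nat_lit 26) (.ev (nat_lit 52) (nat_lit
 1126185857712640) (.ev (nat_lit 84) (nat_lit 4512395726684160) (.ev (nat_lit 116) (nat_lit 687194771456) (.ev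
 (nat_lit 148) (nat_lit 32768) (.nd (nat_lit 912) (.br (nat_lit 16) (.br (nat_lit 11) (.br (nat_lit 2) (.ch
 (nat_lit 1) (.ev (nat_lit 928) (nat_lit 131152) (.ev (nat_lit 941) (nat_lit 281474976710656) .dd))) (.ch
 (nat_lit 2) (.ev (nat_lit 928) (nat_lit 281474976841808) .dd))) (.br (nat_lit 15) (.ch (nat_lit 11) (.ev
 (nat_lit 928) (nat_lit 281474976841808) .dd)) (.ch (nat_lit 15) (.ev (nat_lit 928) (nat_lit 281474976710656)
 (.ev (nat_lit 944) (nat_lit 64) (.ev (nat_lit 1092) (nat_lit 16) (.ev (nat_lit 1101) (nat_lit 131072)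
 .dd))))))) (.br (nat_lit 23) (.br (nat_lit 19) (.ch (nat_lit 16) (.ev (nat_lit 928) (nat_lit 281474976841792)
 (.ev (nat_lit 941) (nat_lit 16) .dd))) (.ch (nat_lit 19) (.ev (nat_lit 928) (nat_lit 281474976841744) (.ev
 (nat_lit 941) (nat_lit 64) .dd)))) (.br (nat_lit 26) (.ch (nat_lit 23) (.ev (nat_lit 928) (nat_lit 131152)
 (.ev (nat_lit 941) (nat_lit 281474976710656) .dd))) (.ch (nat_lit 26) (.ev (nat_lit 928) (nat_lit
 281474976841808) .dd))))))))))))) (.br (nat_lit 31) (.ch (nat_lit 30) (.ev (nat_lit 52) (nat_lit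
 1408062078324800) (.ev (nat_lit 64) (nat_lit 4512681677718032) .dd))) (.br (nat_lit 33) (.ch (nat_lit 31) (.ev
 (nat_lit 52) (nat_lit 4512395787534928) (.ev (nat_lit 84) (nat_lit 4194304) (.ev (nat_lit 96) (nat_lit
 1408347964313600) .dd)))) (.ch (nat_lit 33) (.ev (nat_lit 52) (nat_lit 1126048154681408) (.ev (nat_lit 84)
 (nat_lit 268435456) (.ev (nat_lit 116) (nat_lit 281474976711168) (.ev (nat_lit 180) (nat_lit 4512395720392704)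
 (.ev (nat_lit 244) (nat_lit 16) (.ev (nat_lit 854) (nat_lit 274877906944) (.nd (nat_lit 912) (.br (nat_lit 15)
 (.br (nat_lit 6) (.br (nat_lit 5) (.ch (nat_lit 0) (.ev (nat_lit 928) (nat_lit 549757915136) .dd)) (.ch
 (nat_lit 5) (.ev (nat_lit 928) (nat_lit 2101248) (.ev (nat_lit 941) (nat_lit 549755813888) .dd)))) (.br
 (nat_lit 11) (.ch (nat_lit 6) (.ev (nat_lit 928) (nat_lit 2097152) (.ev (nat_lit 1092) (nat_lit 549755813888)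
 (.ev (nat_lit 1101) (nat_lit 4096) .dd)))) (.ch (nat_lit 11) (.ev (nat_lit 928) (nat_lit 549755813888) (.ev
 (nat_lit 976) (nat_lit 2097152) (.ev (nat_lit 989) (nat_lit 4096) .dd)))))) (.br (nat_lit 23) (.br (nat_lit
 19) (.ch (nat_lit 15) (.ev (nat_lit 928) (nat_lit 2101248) (.ev (nat_lit 941) (nat_lit 549755813888) .dd)))
 (.ch (nat_lit 19) (.ev (nat_lit 928) (nat_lit 549757911040) (.ev (nat_lit 941) (nat_lit 4096) .dd)))) (.br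
 (nat_lit 24) (.ch (nat_lit 23) (.ev (nat_lit 928) (nat_lit 2101248) (.ev (nat_lit 941) (nat_lit 549755813888)
 .dd))) (.br (nat_lit 29) (.ch (nat_lit 24) (.ev (nat_lit 928) (nat_lit 549757915136) .dd)) (.ch (nat_lit 29)
 (.ev (nat_lit 928) (nat_lit 4096) (.ev (nat_lit 960) (nat_lit 2097152) (.ev (nat_lit 973) (nat_lit
 549755813888) .dd))))))))))))))))))) (.br (nat_lit 37) (.br (nat_lit 35) (.ch (nat_lit 34) (.ev (nat_lit 52)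
 (nat_lit 290417367224320) (.ev (nat_lit 84) (nat_lit 549757911040) (.ev (nat_lit 116) (nat_lit 67108864) (.ev
 (nat_lit 180) (nat_lit 2147484160) (.nd (nat_lit 912) (.br (nat_lit 9) (.br (nat_lit 2) (.br (nat_lit 1) (.ch
 (nat_lit 0) (.ev (nat_lit 928) (nat_lit 5629774416314384) (.ev (nat_lit 941) (nat_lit 64) .dd))) (.ch (nat_lit
 1) (.ev (nat_lit 928) (nat_lit 5629774416314448) .dd))) (.br (nat_lit 6) (.ch (nat_lit 2) (.ev (nat_lit 928)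
 (nat_lit 5629499538407488) (.ev (nat_lit 944) (nat_lit 16) (.ev (nat_lit 957) (nat_lit 274877906944) .dd))))
 (.ch (nat_lit 6) (.ev (nat_lit 928) (nat_lit 4503874505277520) (.ev (nat_lit 1092) (nat_lit 4194304) (.ev
 (nat_lit 1101) (nat_lit 1125899906842624) .dd)))))) (.br (nat_lit 14) (.br (nat_lit 13) (.ch (nat_lit 9) (.ev
 (nat_lit 928) (nat_lit 274882101328) (.ev (nat_lit 1092) (nat_lit 1125899906842624) (.ev (nat_lit 1101)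
 (nat_lit 4503599627370496) .dd)))) (.ch (nat_lit 13) (.ev (nat_lit 928) (nat_lit 5629499538407504) (.ev
 (nat_lit 941) (nat_lit 274877906944) .dd)))) (.br (nat_lit 15) (.ch (nat_lit 14) (.ev (nat_lit 928) (nat_lit
 5629774416314448) .dd)) (.br (nat_lit 23) (.ch (nat_lit 15) (.ev (nat_lit 928) (nat_lit 5629774416314432) (.ev
 (nat_lit 941) (nat_lit 16) .dd))) (.ch (nat_lit 23) (.ev (nat_lit 928) (nat_lit 4503599631564880) (.ev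
 (nat_lit 1264) (nat_lit 1126174784749568) .dd))))))))))))) (.br (nat_lit 36) (.ch (nat_lit 35) (.ev (nat_lit
 52) (nat_lit 8804689383936) (.ev (nat_lit 84) (nat_lit 1125899906842624) (.ev (nat_lit 116) (nat_lit
 4503601774854144) (.ev (nat_lit 180) (nat_lit 281612415664128) (.ev (nat_lit 212) (nat_lit 274877906944) (.ev
 (nat_lit 464) (nat_lit 67108864) (.nd (nat_lit 912) (.br (nat_lit 12) (.br (nat_lit 5) (.br (nat_lit 1) (.ch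
 (nat_lit 0) (.ev (nat_lit 928) (nat_lit 550024282128) (.ev (nat_lit 941) (nat_lit 64) .dd))) (.ch (nat_lit 1)
 (.ev (nat_lit 928) (nat_lit 268468304) (.ev (nat_lit 941) (nat_lit 549755813888) .dd)))) (.br (nat_lit 7) (.ch
 (nat_lit 5) (.ev (nat_lit 928) (nat_lit 268468304) (.ev (nat_lit 941) (nat_lit 549755813888) .dd))) (.br
 (nat_lit 9) (.ch (nat_lit 7) (.ev (nat_lit 928) (nat_lit 549755813952) (.ev (nat_lit 1092) (nat_lit 16) (.ev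
 (nat_lit 1120) (nat_lit 268468224) .dd)))) (.ch (nat_lit 9) (.ev (nat_lit 928) (nat_lit 549755846720) (.ev
 (nat_lit 1104) (nat_lit 268435472) .dd)))))) (.br (nat_lit 23) (.br (nat_lit 14) (.ch (nat_lit 12) (.ev
 (nat_lit 928) (nat_lit 550024282192) .dd)) (.br (nat_lit 16) (.ch (nat_lit 14) (.ev (nat_lit 928) (nat_lit
 550024282192) .dd)) (.ch (nat_lit 16) (.ev (nat_lit 928) (nat_lit 268468304) (.ev (nat_lit 941) (nat_lit
 549755813888) .dd))))) (.br (nat_lit 26) (.ch (nat_lit 23) (.ev (nat_lit 928) (nat_lit 268435536) (.ev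
 (nat_lit 1104) (nat_lit 32768) (.ev (nat_lit 1117) (nat_lit 549755813888) .dd)))) (.br (nat_lit 29) (.ch
 (nat_lit 26) (.ev (nat_lit 928) (nat_lit 550024249424) (.ev (nat_lit 941) (nat_lit 32768) .dd))) (.ch (nat_lit
 29) (.ev (nat_lit 928) (nat_lit 268435536) (.ev (nat_lit 1092) (nat_lit 549755813888) (.ev (nat_lit 1101)
 (nat_lit 32768) .dd)))))))))))))))) (.ch (nat_lit 36) (.ev (nat_lit 52) (nat_lit 281483904291392) (.ev
 (nat_lit 84) (nat_lit 4325376) (.ev (nat_lit 116) (nat_lit 16) (.ev (nat_lit 148) (nat_lit 139586469888) (.ev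
 (nat_lit 212) (nat_lit 274877906944) (.nd (nat_lit 912) (.br (nat_lit 13) (.br (nat_lit 7) (.br (nat_lit 6)
 (.ch (nat_lit 5) (.ev (nat_lit 928) (nat_lit 5638845383049216) .dd)) (.ch (nat_lit 6) (.ev (nat_lit 928)
 (nat_lit 4503599627370496) (.ev (nat_lit 1092) (nat_lit 1134695999864832) (.ev (nat_lit 1101) (nat_lit
 549755813888) .dd))))) (.br (nat_lit 9) (.ch (nat_lit 7) (.ev (nat_lit 928) (nat_lit 5638845383049216) .dd))
 (.ch (nat_lit 9) (.ev (nat_lit 928) (nat_lit 4504149383184384) (.ev (nat_lit 1040) (nat_lit 1125899906842624)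
 (.ev (nat_lit 1053) (nat_lit 8796093022208) .dd)))))) (.br (nat_lit 19) (.br (nat_lit 18) (.ch (nat_lit 13)
 (.ev (nat_lit 928) (nat_lit 5638845383049216) .dd)) (.ch (nat_lit 18) (.ev (nat_lit 928) (nat_lit
 5630049290027008) (.ev (nat_lit 941) (nat_lit 8796093022208) .dd)))) (.br (nat_lit 24) (.ch (nat_lit 19) (.ev
 (nat_lit 928) (nat_lit 5630049290027008) (.ev (nat_lit 941) (nat_lit 8796093022208) .dd))) (.br (nat_lit 26)
 (.ch (nat_lit 24) (.ev (nat_lit 928) (nat_lit 5638845383049216) .dd)) (.ch (nat_lit 26) (.ev (nat_lit 928)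
 (nat_lit 1135245755678720) (.ev (nat_lit 941) (nat_lit 4503599627370496) .dd)))))))))))))))) (.br (nat_lit 39)
 (.br (nat_lit 38) (.ch (nat_lit 37) (.ev (nat_lit 52) (nat_lit 5911112224608768) (.ev (nat_lit 84) (nat_lit
 67239936) (.ev (nat_lit 116) (nat_lit 64) (.ev (nat_lit 148) (nat_lit 274877906944) (.ev (nat_lit 180)
 (nat_lit 16) (.ev (nat_lit 224) (nat_lit 9356586287104) .dd))))))) (.ch (nat_lit 38) (.ev (nat_lit 52)
 (nat_lit 4785220635230784) (.ev (nat_lit 84) (nat_lit 4194304) (.ev (nat_lit 116) (nat_lit 275146342400) (.ev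
 (nat_lit 148) (nat_lit 2147483648) (.ev (nat_lit 180) (nat_lit 16) (.ev (nat_lit 870) (nat_lit
 1125899906842624) (.nd (nat_lit 912) (.br (nat_lit 14) (.br (nat_lit 6) (.br (nat_lit 1) (.ch (nat_lit 0) (.ev
 (nat_lit 928) (nat_lit 9345915949056) .dd)) (.ch (nat_lit 1) (.ev (nat_lit 928) (nat_lit 9345915949056) .dd)))
 (.br (nat_lit 12) (.ch (nat_lit 6) (.ev (nat_lit 960) (nat_lit 549755817984) (.ev (nat_lit 1092) (nat_lit
 67108864) (.ev (nat_lit 1101) (nat_lit 8796093022208) .dd)))) (.ch (nat_lit 12) (.ev (nat_lit 928) (nat_lit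
 9345848836096) (.nd (nat_lit 1281) (.ch (nat_lit 32) (.nd (nat_lit 1296) (.ch (nat_lit 27) (.fin (nat_lit
 576451406458208830)))))))))) (.br (nat_lit 24) (.br (nat_lit 18) (.ch (nat_lit 14) (.ev (nat_lit 928) (nat_lit
 9345915949056) .dd)) (.ch (nat_lit 18) (.ev (nat_lit 928) (nat_lit 9345915949056) .dd))) (.br (nat_lit 29)
 (.ch (nat_lit 24) (.ev (nat_lit 928) (nat_lit 9345915949056) .dd)) (.ch (nat_lit 29) (.ev (nat_lit 928)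
 (nat_lit 549822922752) (.ev (nat_lit 944) (nat_lit 8796093026304) .dd))))))))))))))) (.br (nat_lit 42) (.ch
 (nat_lit 39) (.ev (nat_lit 52) (nat_lit 4513083185860688) (.ev (nat_lit 84) (nat_lit 281474976710656) (.ev
 (nat_lit 116) (nat_lit 1125899906842624) (.ev (nat_lit 244) (nat_lit 2147483648) (.ev (nat_lit 308) (nat_lit
 274877906944) (.ev (nat_lit 902) (nat_lit 512) (.nd (nat_lit 912) (.br (nat_lit 12) (.br (nat_lit 6) (.br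
 (nat_lit 2) (.ch (nat_lit 0) (.ev (nat_lit 928) (nat_lit 8661237760) .dd)) (.ch (nat_lit 2) (.ev (nat_lit 928)
 (nat_lit 8661237760) .dd))) (.br (nat_lit 7) (.ch (nat_lit 6) (.ev (nat_lit 944) (nat_lit 4194304) (.ev
 (nat_lit 1092) (nat_lit 8589934592) (.ev (nat_lit 1101) (nat_lit 67108864) .dd)))) (.ch (nat_lit 7) (.ev
 (nat_lit 928) (nat_lit 8661237760) .dd)))) (.br (nat_lit 18) (.br (nat_lit 16) (.ch (nat_lit 12) (.ev (nat_lit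
 928) (nat_lit 8589934592) (.ev (nat_lit 944) (nat_lit 71303168) .dd))) (.ch (nat_lit 16) (.ev (nat_lit 928)
 (nat_lit 8661237760) .dd))) (.br (nat_lit 23) (.ch (nat_lit 18) (.ev (nat_lit 928) (nat_lit 8661237760) .dd))
 (.br (nat_lit 26) (.ch (nat_lit 23) (.ev (nat_lit 928) (nat_lit 8661237760) .dd)) (.ch (nat_lit 26) (.ev
 (nat_lit 928) (nat_lit 8661237760) .dd)))))))))))))) (.ch (nat_lit 42) (.ev (nat_lit 52) (nat_lit
 5911249388835408) (.ev (nat_lit 84) (nat_lit 2228224) (.ev (nat_lit 116) (nat_lit 8796093022208) (.ev (nat_lit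
 128) (nat_lit 698271956992) .dd))))))))))))

/-- Subtrie. -/
noncomputable def T8 : Tr := (.ev (nat_lit 20) (nat_lit 1554437321950720) (.nd (nat_lit 33) (.br (nat_lit 22)
 (.br (nat_lit 9) (.br (nat_lit 6) (.br (nat_lit 4) (.ch (nat_lit 1) (.ev (nat_lit 52) (nat_lit
 573953944915984) (.ev (nat_lit 116) (nat_lit 64) (.ev (nat_lit 180) (nat_lit 137438953472) (.ev (nat_lit 276)
 (nat_lit 17592186044416) (.ev (nat_lit 340) (nat_lit 2048) (.nd (nat_lit 912) (.br (nat_lit 12) (.br (nat_lit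
 6) (.br (nat_lit 3) (.ch (nat_lit 2) (.ev (nat_lit 928) (nat_lit 4573968371548192) (.ev (nat_lit 941) (nat_lit
 68719476736) .dd))) (.ch (nat_lit 3) (.ev (nat_lit 928) (nat_lit 68719476768) (.ev (nat_lit 1092) (nat_lit
 70368744177664) (.ev (nat_lit 1101) (nat_lit 4503599627370496) .dd))))) (.br (nat_lit 11) (.ch (nat_lit 6)
 (.ev (nat_lit 928) (nat_lit 4503599627370528) (.ev (nat_lit 1092) (nat_lit 68719476736) (.ev (nat_lit 1101)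
 (nat_lit 70368744177664) .dd)))) (.ch (nat_lit 11) (.ev (nat_lit 928) (nat_lit 4574037091024928) .dd)))) (.br
 (nat_lit 16) (.br (nat_lit 15) (.ch (nat_lit 12) (.ev (nat_lit 928) (nat_lit 4573968371548192) (.ev (nat_lit
 941) (nat_lit 68719476736) .dd))) (.ch (nat_lit 15) (.ev (nat_lit 928) (nat_lit 70437463654400) (.ev (nat_lit
 960) (nat_lit 4503599627370528) .dd)))) (.br (nat_lit 18) (.ch (nat_lit 16) (.ev (nat_lit 928) (nat_lit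
 4574037091024928) .dd)) (.br (nat_lit 20) (.ch (nat_lit 18) (.ev (nat_lit 928) (nat_lit 4573968371548192) (.ev
 (nat_lit 941) (nat_lit 68719476736) .dd))) (.ch (nat_lit 20) (.ev (nat_lit 928) (nat_lit 4503668346847264)
 (.ev (nat_lit 941) (nat_lit 70368744177664) .dd)))))))))))))) (.br (nat_lit 5) (.ch (nat_lit 4) (.ev (nat_lit
 52) (nat_lit 4591629293852720) (.ev (nat_lit 128) (nat_lit 574091367088192) .dd))) (.ch (nat_lit 5) (.ev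
 (nat_lit 52) (nat_lit 16842784) (.ev (nat_lit 116) (nat_lit 17592186046464) (.ev (nat_lit 148) (nat_lit
 8796093022208) (.ev (nat_lit 244) (nat_lit 64) (.ev (nat_lit 340) (nat_lit 562949953421312) (.ev (nat_lit 372)
 (nat_lit 70368744177664) (.nd (nat_lit 912) (.br (nat_lit 13) (.br (nat_lit 6) (.br (nat_lit 2) (.ch (nat_lit
 1) (.ev (nat_lit 928) (nat_lit 4505944947953680) (.ev (nat_lit 941) (nat_lit 68719476736) .dd))) (.ch (nat_lit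
 2) (.ev (nat_lit 928) (nat_lit 4506013667426320) (.ev (nat_lit 941) (nat_lit 4096) .dd)))) (.br (nat_lit 12)
 (.ch (nat_lit 6) (.ev (nat_lit 928) (nat_lit 4505944947953680) (.ev (nat_lit 941) (nat_lit 68719476736) .dd)))
 (.ch (nat_lit 12) (.ev (nat_lit 928) (nat_lit 4503676936785920) (.ev (nat_lit 1024) (nat_lit 16) (.ev (nat_lit
 1104) (nat_lit 137438953472) (.fin (nat_lit 576474496186663496)))))))) (.br (nat_lit 18) (.br (nat_lit 15)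
 (.ch (nat_lit 13) (.ev (nat_lit 928) (nat_lit 77577846784) (.ev (nat_lit 1040) (nat_lit 4503599627370496) (.ev
 (nat_lit 1092) (nat_lit 137438957584) (.ev (nat_lit 1101) (nat_lit 2199023255552) .dd))))) (.ch (nat_lit 15)
 (.ev (nat_lit 928) (nat_lit 4506013667430416) .dd))) (.br (nat_lit 19) (.ch (nat_lit 18) (.ev (nat_lit 928)
 (nat_lit 4505944947953680) (.ev (nat_lit 941) (nat_lit 68719476736) .dd))) (.br (nat_lit 20) (.ch (nat_lit 19)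
 (.ev (nat_lit 928) (nat_lit 2405450121232) (.ev (nat_lit 960) (nat_lit 4503599627370496) (.ev (nat_lit 1092)
 (nat_lit 4096) (.ev (nat_lit 1101) (nat_lit 8589934592) .dd))))) (.ch (nat_lit 20) (.ev (nat_lit 928) (nat_lit
 4505944947949584) (.ev (nat_lit 992) (nat_lit 68719476736) (.ev (nat_lit 1005) (nat_lit 4096)
 .dd)))))))))))))))))) (.br (nat_lit 7) (.ch (nat_lit 6) (.ev (nat_lit 52) (nat_lit 644382550132752) (.ev
 (nat_lit 116) (nat_lit 32) (.ev (nat_lit 128) (nat_lit 4521338110808128) .dd)))) (.br (nat_lit 8) (.ch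
 (nat_lit 7) (.ev (nat_lit 52) (nat_lit 79233825177680) (.ev (nat_lit 84) (nat_lit 17592186044416) (.ev
 (nat_lit 116) (nat_lit 137455730688) (.ev (nat_lit 160) (nat_lit 5068757193988128) .dd))))) (.ch (nat_lit 8)
 (.ev (nat_lit 52) (nat_lit 4521329520869392) (.ev (nat_lit 84) (nat_lit 68736253952) (.ev (nat_lit 128)
 (nat_lit 644322403817568) .dd))))))) (.br (nat_lit 13) (.br (nat_lit 10) (.ch (nat_lit 9) (.ev (nat_lit 52)
 (nat_lit 28793729255472) (.ev (nat_lit 84) (nat_lit 8606711808) (.ev (nat_lit 212) (nat_lit 4096) (.ev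
 (nat_lit 276) (nat_lit 64) (.ev (nat_lit 352) (nat_lit 5136918324969472) .dd)))))) (.br (nat_lit 12) (.ch
 (nat_lit 10) (.ev (nat_lit 52) (nat_lit 5075345942249568) (.ev (nat_lit 84) (nat_lit 68719476736) (.ev
 (nat_lit 116) (nat_lit 16777216) (.ev (nat_lit 148) (nat_lit 65536) (.nd (nat_lit 912) (.br (nat_lit 18) (.br
 (nat_lit 9) (.br (nat_lit 4) (.ch (nat_lit 2) (.ev (nat_lit 928) (nat_lit 90305982369792) (.ev (nat_lit 1092)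
 (nat_lit 16) (.ev (nat_lit 1101) (nat_lit 2048) .dd)))) (.ch (nat_lit 4) (.ev (nat_lit 928) (nat_lit
 90305982371856) .dd))) (.br (nat_lit 16) (.ch (nat_lit 9) (.ev (nat_lit 928) (nat_lit 90168543418384) (.ev
 (nat_lit 941) (nat_lit 137438953472) .dd))) (.ch (nat_lit 16) (.ev (nat_lit 928) (nat_lit 8589938704) (.ev
 (nat_lit 1092) (nat_lit 70506183131136) (.ev (nat_lit 1220) (nat_lit 2199023255552) (.nd (nat_lit 1281) (.ch
 (nat_lit 42) (.nd (nat_lit 1296) (.ch (nat_lit 11) (.fin (nat_lit 576461302078587464)))))))))))) (.br (nat_lit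
 22) (.br (nat_lit 19) (.ch (nat_lit 18) (.ev (nat_lit 928) (nat_lit 90305982371856) .dd)) (.ch (nat_lit 19)
 (.ev (nat_lit 928) (nat_lit 17729624999952) (.ev (nat_lit 960) (nat_lit 8589934592) (.ev (nat_lit 1008)
 (nat_lit 4096) (.ev (nat_lit 1092) (nat_lit 70368744177664) (.ev (nat_lit 1101) (nat_lit 2199023255552)
 .dd))))))) (.br (nat_lit 29) (.ch (nat_lit 22) (.ev (nat_lit 928) (nat_lit 90305982371856) .dd)) (.ch (nat_lit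
 29) (.ev (nat_lit 928) (nat_lit 19937238190096) (.ev (nat_lit 944) (nat_lit 70368744181760) .dd))))))))))))
 (.ch (nat_lit 12) (.ev (nat_lit 52) (nat_lit 4593897305020512) (.ev (nat_lit 84) (nat_lit 68719476736) (.ev
 (nat_lit 180) (nat_lit 562949953421312) (.ev (nat_lit 630) (nat_lit 8589934592) (.ev (nat_lit 720) (nat_lit
 8796093022208) (.nd (nat_lit 912) (.br (nat_lit 9) (.br (nat_lit 6) (.br (nat_lit 2) (.ch (nat_lit 1) (.ev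
 (nat_lit 928) (nat_lit 65552) .dd)) (.ch (nat_lit 2) (.ev (nat_lit 928) (nat_lit 65536) (.ev (nat_lit 941)
 (nat_lit 16) .dd)))) (.br (nat_lit 8) (.ch (nat_lit 6) (.ev (nat_lit 928) (nat_lit 65552) .dd)) (.ch (nat_lit
 8) (.ev (nat_lit 928) (nat_lit 65536) (.ev (nat_lit 941) (nat_lit 16) .dd))))) (.br (nat_lit 15) (.br (nat_lit
 11) (.ch (nat_lit 9) (.ev (nat_lit 928) (nat_lit 65536) (.ev (nat_lit 941) (nat_lit 16) .dd))) (.ch (nat_lit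
 11) (.ev (nat_lit 928) (nat_lit 65552) .dd))) (.br (nat_lit 17) (.ch (nat_lit 15) (.ev (nat_lit 928) (nat_lit
 65536) (.ev (nat_lit 941) (nat_lit 16) .dd))) (.br (nat_lit 20) (.ch (nat_lit 17) (.ev (nat_lit 928) (nat_lit
 65552) .dd)) (.ch (nat_lit 20) (.ev (nat_lit 928) (nat_lit 16) (.ev (nat_lit 941) (nat_lit 65536)
 .dd)))))))))))))))) (.br (nat_lit 18) (.br (nat_lit 17) (.ch (nat_lit 13) (.ev (nat_lit 52) (nat_lit
 5066687019810832) (.ev (nat_lit 116) (nat_lit 68719476736) (.ev (nat_lit 148) (nat_lit 32) (.nd (nat_lit 912)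
 (.br (nat_lit 7) (.br (nat_lit 4) (.br (nat_lit 2) (.ch (nat_lit 1) (.ev (nat_lit 928) (nat_lit
 90168811847744) (.ev (nat_lit 1092) (nat_lit 16777216) (.ev (nat_lit 1104) (nat_lit 2048) (.ev (nat_lit 1136)
 (nat_lit 8796093026304) .dd))))) (.ch (nat_lit 2) (.ev (nat_lit 928) (nat_lit 96765898393664) (.ev (nat_lit
 1104) (nat_lit 2199023259648) .dd)))) (.br (nat_lit 6) (.ch (nat_lit 4) (.ev (nat_lit 928) (nat_lit
 96765898395712) (.ev (nat_lit 1248) (nat_lit 2199023257600) .dd))) (.ch (nat_lit 6) (.ev (nat_lit 928)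
 (nat_lit 79173712353344) (.ev (nat_lit 1092) (nat_lit 17592186044416) (.ev (nat_lit 1101) (nat_lit
 2199023255552) .dd)))))) (.br (nat_lit 19) (.br (nat_lit 17) (.ch (nat_lit 7) (.ev (nat_lit 928) (nat_lit
 10995401494592) (.ev (nat_lit 1104) (nat_lit 2048) (.ev (nat_lit 1136) (nat_lit 87969520156672) .dd)))) (.ch
 (nat_lit 17) (.ev (nat_lit 928) (nat_lit 98964921649216) (.ev (nat_lit 941) (nat_lit 4096) .dd)))) (.br
 (nat_lit 20) (.ch (nat_lit 19) (.ev (nat_lit 928) (nat_lit 28595892258880) (.ev (nat_lit 1092) (nat_lit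
 70369012613120) (.ev (nat_lit 1104) (nat_lit 16781312) .dd)))) (.br (nat_lit 22) (.ch (nat_lit 20) (.ev
 (nat_lit 928) (nat_lit 11003974653952) (.ev (nat_lit 1092) (nat_lit 16777280) (.ev (nat_lit 1104) (nat_lit
 87960930222080) .dd)))) (.ch (nat_lit 22) (.ev (nat_lit 928) (nat_lit 81372735608896) (.ev (nat_lit 941)
 (nat_lit 17592186044416) .dd)))))))))))) (.ch (nat_lit 17) (.ev (nat_lit 52) (nat_lit 5145791995906112) (.ev
 (nat_lit 84) (nat_lit 16781312) (.ev (nat_lit 148) (nat_lit 16) (.ev (nat_lit 256) (nat_lit 19928648253472)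
 .dd)))))) (.br (nat_lit 21) (.ch (nat_lit 18) (.ev (nat_lit 52) (nat_lit 5154656539901952) (.ev (nat_lit 116)
 (nat_lit 16) (.ev (nat_lit 180) (nat_lit 65536) (.ev (nat_lit 244) (nat_lit 4096) (.nd (nat_lit 912) (.br
 (nat_lit 11) (.br (nat_lit 8) (.br (nat_lit 7) (.ch (nat_lit 3) (.ev (nat_lit 928) (nat_lit 11064120969312)
 .dd)) (.ch (nat_lit 7) (.ev (nat_lit 928) (nat_lit 11064120969312) .dd))) (.br (nat_lit 9) (.ch (nat_lit 8)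
 (.ev (nat_lit 928) (nat_lit 11064120969280) (.ev (nat_lit 941) (nat_lit 32) .dd))) (.ch (nat_lit 9) (.ev
 (nat_lit 928) (nat_lit 11064120969280) (.ev (nat_lit 941) (nat_lit 32) .dd))))) (.br (nat_lit 17) (.br
 (nat_lit 12) (.ch (nat_lit 11) (.ev (nat_lit 928) (nat_lit 2199023255584) (.ev (nat_lit 944) (nat_lit
 8796109799424) (.ev (nat_lit 1092) (nat_lit 68987914240) (.ev (nat_lit 1101) (nat_lit 64) .dd))))) (.ch
 (nat_lit 12) (.ev (nat_lit 928) (nat_lit 8796109801504) (.ev (nat_lit 1008) (nat_lit 64) (.ev (nat_lit 1104)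
 (nat_lit 68719476736) (.fin (nat_lit 576448107934859832))))))) (.br (nat_lit 22) (.ch (nat_lit 17) (.ev
 (nat_lit 928) (nat_lit 11064120969312) .dd)) (.br (nat_lit 29) (.ch (nat_lit 22) (.ev (nat_lit 928) (nat_lit
 11064120967264) (.ev (nat_lit 941) (nat_lit 2048) .dd))) (.ch (nat_lit 29) (.ev (nat_lit 928) (nat_lit
 11064104192064) (.ev (nat_lit 944) (nat_lit 16777216) (.ev (nat_lit 957) (nat_lit 32) .dd)))))))))))))) (.ch
 (nat_lit 21) (.ev (nat_lit 52) (nat_lit 17806934480976) (.ev (nat_lit 84) (nat_lit 16777216) (.ev (nat_lit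
 116) (nat_lit 70369012613120) (.ev (nat_lit 148) (nat_lit 4503599627370496) (.ev (nat_lit 320) (nat_lit
 573945069699104) .dd)))))))))) (.br (nat_lit 34) (.br (nat_lit 30) (.br (nat_lit 25) (.ch (nat_lit 22) (.ev
 (nat_lit 52) (nat_lit 644314082316304) (.ev (nat_lit 84) (nat_lit 8589934592) (.ev (nat_lit 372) (nat_lit
 4503599627370496) (.nd (nat_lit 912) (.br (nat_lit 12) (.br (nat_lit 9) (.br (nat_lit 7) (.ch (nat_lit 4) (.ev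
 (nat_lit 928) (nat_lit 17798361253984) (.ev (nat_lit 941) (nat_lit 65536) .dd))) (.ch (nat_lit 7) (.ev
 (nat_lit 928) (nat_lit 17798361253952) (.ev (nat_lit 992) (nat_lit 32) (.ev (nat_lit 1005) (nat_lit 65536)
 .dd))))) (.br (nat_lit 11) (.ch (nat_lit 9) (.ev (nat_lit 928) (nat_lit 17798361319488) (.ev (nat_lit 941)
 (nat_lit 32) .dd))) (.ch (nat_lit 11) (.ev (nat_lit 928) (nat_lit 68719478816) (.ev (nat_lit 1040) (nat_lit
 64) (.ev (nat_lit 1092) (nat_lit 137455796224) (.ev (nat_lit 1101) (nat_lit 17592186044416) .dd))))))) (.br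
 (nat_lit 16) (.br (nat_lit 15) (.ch (nat_lit 12) (.ev (nat_lit 928) (nat_lit 17729641777184) (.ev (nat_lit
 976) (nat_lit 64) (.ev (nat_lit 1092) (nat_lit 65536) (.ev (nat_lit 1101) (nat_lit 68719476736) .dd))))) (.ch
 (nat_lit 15) (.ev (nat_lit 928) (nat_lit 17798361319488) (.ev (nat_lit 941) (nat_lit 32) .dd)))) (.br (nat_lit
 17) (.ch (nat_lit 16) (.ev (nat_lit 928) (nat_lit 68719542368) (.ev (nat_lit 1024) (nat_lit 137438953472) (.ev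
 (nat_lit 1120) (nat_lit 16777216) (.fin (nat_lit 576461302042935864)))))) (.br (nat_lit 22) (.ch (nat_lit 17)
 (.ev (nat_lit 928) (nat_lit 17798361319488) (.ev (nat_lit 941) (nat_lit 32) .dd))) (.ch (nat_lit 22) (.ev
 (nat_lit 928) (nat_lit 206175209504) (.ev (nat_lit 1092) (nat_lit 65536) (.ev (nat_lit 1104) (nat_lit
 17592186044416) (.ev (nat_lit 1117) (nat_lit 64) .dd)))))))))))))) (.br (nat_lit 26) (.ch (nat_lit 25) (.ev
 (nat_lit 52) (nat_lit 571892092110912) (.ev (nat_lit 96) (nat_lit 4593828568830000) .dd))) (.ch (nat_lit 26)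
 (.ev (nat_lit 52) (nat_lit 582818757345280) (.ev (nat_lit 84) (nat_lit 137438953536) (.ev (nat_lit 128)
 (nat_lit 4582764464642096) .dd)))))) (.br (nat_lit 31) (.ch (nat_lit 30) (.ev (nat_lit 52) (nat_lit
 2336478992480) (.ev (nat_lit 84) (nat_lit 8589934592) (.ev (nat_lit 148) (nat_lit 79164837199888) (.nd
 (nat_lit 912) (.br (nat_lit 13) (.br (nat_lit 4) (.br (nat_lit 3) (.ch (nat_lit 1) (.ev (nat_lit 928) (nat_lit
 4503668615348224) (.ev (nat_lit 1092) (nat_lit 562949953421312) (.ev (nat_lit 1101) (nat_lit 17592186044416)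
 .dd)))) (.ch (nat_lit 3) (.ev (nat_lit 928) (nat_lit 563018941399040) (.ev (nat_lit 1120) (nat_lit
 4521191813414912) .dd)))) (.br (nat_lit 11) (.ch (nat_lit 4) (.ev (nat_lit 928) (nat_lit 5084142035271680)
 (.ev (nat_lit 944) (nat_lit 68719476736) (.ev (nat_lit 957) (nat_lit 65536) .dd)))) (.br (nat_lit 12) (.ch
 (nat_lit 11) (.ev (nat_lit 928) (nat_lit 5084141766836224) (.ev (nat_lit 1092) (nat_lit 268500992) (.ev
 (nat_lit 1101) (nat_lit 68719476736) .dd)))) (.ch (nat_lit 12) (.ev (nat_lit 928) (nat_lit 5084210754748416)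
 (.ev (nat_lit 941) (nat_lit 65536) .dd)))))) (.br (nat_lit 19) (.br (nat_lit 17) (.ch (nat_lit 13) (.ev
 (nat_lit 928) (nat_lit 580542407966720) (.ev (nat_lit 1120) (nat_lit 4503668346847232) .dd))) (.br (nat_lit
 18) (.ch (nat_lit 17) (.ev (nat_lit 928) (nat_lit 580611127443456) (.ev (nat_lit 941) (nat_lit
 4503599627370496) .dd))) (.ch (nat_lit 18) (.ev (nat_lit 928) (nat_lit 5084142035337216) (.ev (nat_lit 941)
 (nat_lit 68719476736) .dd))))) (.br (nat_lit 20) (.ch (nat_lit 19) (.ev (nat_lit 928) (nat_lit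
 5084210754748416) (.ev (nat_lit 941) (nat_lit 65536) .dd))) (.br (nat_lit 29) (.ch (nat_lit 20) (.ev (nat_lit
 928) (nat_lit 5066618568769536) (.ev (nat_lit 941) (nat_lit 17592186044416) .dd))) (.ch (nat_lit 29) (.ev
 (nat_lit 928) (nat_lit 5066618300268544) (.ev (nat_lit 960) (nat_lit 268435456) (.ev (nat_lit 1092) (nat_lit
 65536) (.ev (nat_lit 1101) (nat_lit 17592186044416) .dd)))))))))))))) (.br (nat_lit 33) (.ch (nat_lit 31) (.ev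
 (nat_lit 52) (nat_lit 4582833200889968) (.ev (nat_lit 84) (nat_lit 146028888064) (.ev (nat_lit 148) (nat_lit
 2199023255552) (.ev (nat_lit 180) (nat_lit 268435456) (.ev (nat_lit 244) (nat_lit 4096) (.nd (nat_lit 912)
 (.br (nat_lit 16) (.br (nat_lit 7) (.br (nat_lit 6) (.ch (nat_lit 2) (.ev (nat_lit 928) (nat_lit
 562949953423360) (.ev (nat_lit 941) (nat_lit 17592186044416) .dd))) (.ch (nat_lit 6) (.ev (nat_lit 928)
 (nat_lit 562949953423360) (.ev (nat_lit 941) (nat_lit 17592186044416) .dd)))) (.br (nat_lit 11) (.ch (nat_lit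
 7) (.ev (nat_lit 928) (nat_lit 580542139467776) .dd)) (.ch (nat_lit 11) (.ev (nat_lit 928) (nat_lit
 562949953421312) (.ev (nat_lit 1172) (nat_lit 2048) (.ev (nat_lit 1181) (nat_lit 17592186044416) .dd))))))
 (.br (nat_lit 20) (.br (nat_lit 17) (.ch (nat_lit 16) (.ev (nat_lit 928) (nat_lit 580542139467776) .dd)) (.ch
 (nat_lit 17) (.ev (nat_lit 928) (nat_lit 580542139467776) .dd))) (.br (nat_lit 22) (.ch (nat_lit 20) (.ev
 (nat_lit 928) (nat_lit 580542139467776) .dd)) (.br (nat_lit 29) (.ch (nat_lit 22) (.ev (nat_lit 928) (nat_lit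
 562949953421312) (.ev (nat_lit 1204) (nat_lit 17592186044416) (.ev (nat_lit 1213) (nat_lit 2048) .dd)))) (.ch
 (nat_lit 29) (.ev (nat_lit 928) (nat_lit 17592186046464) (.ev (nat_lit 941) (nat_lit 562949953421312)
 .dd)))))))))))))) (.ch (nat_lit 33) (.ev (nat_lit 52) (nat_lit 17806951188576) (.ev (nat_lit 116) (nat_lit
 8796093022208) (.ev (nat_lit 148) (nat_lit 4573968371617792) (.ev (nat_lit 340) (nat_lit 16) (.nd (nat_lit
 912) (.br (nat_lit 11) (.br (nat_lit 7) (.br (nat_lit 2) (.ch (nat_lit 1) (.ev (nat_lit 928) (nat_lit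
 565149245112320) .dd)) (.ch (nat_lit 2) (.ev (nat_lit 928) (nat_lit 565149245112320) .dd))) (.br (nat_lit 8)
 (.ch (nat_lit 7) (.ev (nat_lit 928) (nat_lit 565149245112320) .dd)) (.ch (nat_lit 8) (.ev (nat_lit 928)
 (nat_lit 565149245112320) .dd)))) (.br (nat_lit 16) (.br (nat_lit 15) (.ch (nat_lit 11) (.ev (nat_lit 928)
 (nat_lit 565149245112320) .dd)) (.ch (nat_lit 15) (.ev (nat_lit 928) (nat_lit 565149245112320) .dd))) (.br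
 (nat_lit 19) (.ch (nat_lit 16) (.ev (nat_lit 928) (nat_lit 268435456) (.ev (nat_lit 944) (nat_lit
 565148976676864) .dd))) (.br (nat_lit 22) (.ch (nat_lit 19) (.ev (nat_lit 928) (nat_lit 562949953421312) (.ev
 (nat_lit 960) (nat_lit 2199291691008) .dd))) (.ch (nat_lit 22) (.ev (nat_lit 928) (nat_lit 565149245112320)
 .dd))))))))))))))) (.br (nat_lit 37) (.br (nat_lit 35) (.ch (nat_lit 34) (.ev (nat_lit 52) (nat_lit
 591752272615424) (.ev (nat_lit 180) (nat_lit 16) (.ev (nat_lit 212) (nat_lit 64) (.ev (nat_lit 676) (nat_lit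
 16777216) (.nd (nat_lit 912) (.br (nat_lit 8) (.br (nat_lit 4) (.br (nat_lit 3) (.ch (nat_lit 2) (.ev (nat_lit
 928) (nat_lit 4573968371548192) .dd)) (.ch (nat_lit 3) (.ev (nat_lit 928) (nat_lit 4573968371548192) .dd)))
 (.br (nat_lit 7) (.ch (nat_lit 4) (.ev (nat_lit 928) (nat_lit 4503599627370528) (.ev (nat_lit 941) (nat_lit
 70368744177664) .dd))) (.ch (nat_lit 7) (.ev (nat_lit 928) (nat_lit 4503599627370528) (.ev (nat_lit 941)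
 (nat_lit 70368744177664) .dd))))) (.br (nat_lit 17) (.br (nat_lit 13) (.ch (nat_lit 8) (.ev (nat_lit 928)
 (nat_lit 70368744177664) (.ev (nat_lit 960) (nat_lit 4503599627370496) (.ev (nat_lit 973) (nat_lit 32) .dd))))
 (.ch (nat_lit 13) (.ev (nat_lit 928) (nat_lit 4573968371548192) .dd))) (.br (nat_lit 18) (.ch (nat_lit 17)
 (.ev (nat_lit 928) (nat_lit 70368744177696) (.ev (nat_lit 941) (nat_lit 4503599627370496) .dd))) (.br (nat_lit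
 29) (.ch (nat_lit 18) (.ev (nat_lit 928) (nat_lit 4573968371548192) .dd)) (.ch (nat_lit 29) (.ev (nat_lit 928)
 (nat_lit 70368744177664) (.ev (nat_lit 1008) (nat_lit 32) (.ev (nat_lit 1021) (nat_lit 4503599627370496)
 .dd)))))))))))))) (.br (nat_lit 36) (.ch (nat_lit 35) (.ev (nat_lit 52) (nat_lit 81441186650144) (.ev (nat_lit
 84) (nat_lit 64) (.ev (nat_lit 276) (nat_lit 16) (.ev (nat_lit 480) (nat_lit 17592186044416) (.nd (nat_lit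
 912) (.br (nat_lit 12) (.br (nat_lit 8) (.br (nat_lit 7) (.ch (nat_lit 4) (.ev (nat_lit 928) (nat_lit
 5066687019810816) (.ev (nat_lit 941) (nat_lit 268435456) .dd))) (.ch (nat_lit 7) (.ev (nat_lit 928) (nat_lit
 562949953421312) (.ev (nat_lit 1092) (nat_lit 137438953472) (.ev (nat_lit 1120) (nat_lit 65536) (.ev (nat_lit
 1152) (nat_lit 268435456) (.ev (nat_lit 1165) (nat_lit 4503599627370496) .dd))))))) (.br (nat_lit 9) (.ch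
 (nat_lit 8) (.ev (nat_lit 928) (nat_lit 5066687288246272) .dd)) (.ch (nat_lit 9) (.ev (nat_lit 928) (nat_lit
 5066549580857344) (.ev (nat_lit 1092) (nat_lit 268435456) (.ev (nat_lit 1101) (nat_lit 137438953472) .dd))))))
 (.br (nat_lit 17) (.br (nat_lit 13) (.ch (nat_lit 12) (.ev (nat_lit 928) (nat_lit 5066549849292800) (.ev
 (nat_lit 941) (nat_lit 137438953472) .dd))) (.ch (nat_lit 13) (.ev (nat_lit 928) (nat_lit 563087660875776)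
 (.ev (nat_lit 941) (nat_lit 4503599627370496) .dd)))) (.br (nat_lit 19) (.ch (nat_lit 17) (.ev (nat_lit 928)
 (nat_lit 5066549849292800) (.ev (nat_lit 941) (nat_lit 137438953472) .dd))) (.br (nat_lit 22) (.ch (nat_lit
 19) (.ev (nat_lit 928) (nat_lit 137707454464) (.ev (nat_lit 944) (nat_lit 562949953421312) (.ev (nat_lit 957)
 (nat_lit 4503599627370496) .dd)))) (.ch (nat_lit 22) (.ev (nat_lit 928) (nat_lit 5066687288246272)
 .dd)))))))))))) (.ch (nat_lit 36) (.ev (nat_lit 52) (nat_lit 19868787150944) (.ev (nat_lit 84) (nat_lit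
 16777216) (.ev (nat_lit 116) (nat_lit 4503599627370496) (.ev (nat_lit 148) (nat_lit 562949953423360) (.ev
 (nat_lit 180) (nat_lit 70368744177664) (.ev (nat_lit 704) (nat_lit 65536) (.nd (nat_lit 912) (.br (nat_lit 13)
 (.br (nat_lit 6) (.br (nat_lit 4) (.ch (nat_lit 2) (.ev (nat_lit 928) (nat_lit 8933531975696) .dd)) (.ch
 (nat_lit 4) (.ev (nat_lit 928) (nat_lit 8933531975696) .dd))) (.br (nat_lit 12) (.ch (nat_lit 6) (.ev (nat_lit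
 928) (nat_lit 137438953488) (.ev (nat_lit 941) (nat_lit 8796093022208) .dd))) (.ch (nat_lit 12) (.ev (nat_lit
 1056) (nat_lit 8796093022208) (.ev (nat_lit 1092) (nat_lit 16) (.ev (nat_lit 1101) (nat_lit 137438953472)
 .dd)))))) (.br (nat_lit 16) (.br (nat_lit 15) (.ch (nat_lit 13) (.ev (nat_lit 928) (nat_lit 137438953472) (.ev
 (nat_lit 1040) (nat_lit 16) (.ev (nat_lit 1053) (nat_lit 8796093022208) .dd)))) (.ch (nat_lit 15) (.ev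
 (nat_lit 928) (nat_lit 137438953472) (.ev (nat_lit 1092) (nat_lit 16) (.ev (nat_lit 1101) (nat_lit
 8796093022208) .dd))))) (.br (nat_lit 18) (.ch (nat_lit 16) (.ev (nat_lit 928) (nat_lit 137438953488) (.ev
 (nat_lit 941) (nat_lit 8796093022208) .dd))) (.br (nat_lit 22) (.ch (nat_lit 18) (.ev (nat_lit 928) (nat_lit
 8933531975696) .dd)) (.ch (nat_lit 22) (.ev (nat_lit 928) (nat_lit 8933531975696) .dd)))))))))))))))) (.br
 (nat_lit 39) (.br (nat_lit 38) (.ch (nat_lit 37) (.ev (nat_lit 52) (nat_lit 4521329520873504) (.ev (nat_lit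
 84) (nat_lit 68736253952) (.ev (nat_lit 180) (nat_lit 565148976676880) (.ev (nat_lit 276) (nat_lit 2048) (.ev
 (nat_lit 340) (nat_lit 8796093022208) (.nd (nat_lit 912) (.br (nat_lit 18) (.br (nat_lit 7) (.br (nat_lit 6)
 (.ch (nat_lit 3) (.ev (nat_lit 928) (nat_lit 8589934656) (.ev (nat_lit 941) (nat_lit 70368744177664) .dd)))
 (.ch (nat_lit 6) (.ev (nat_lit 928) (nat_lit 70368744177728) (.ev (nat_lit 941) (nat_lit 8589934592) .dd))))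
 (.br (nat_lit 17) (.ch (nat_lit 7) (.ev (nat_lit 928) (nat_lit 70368744177664) (.ev (nat_lit 1056) (nat_lit
 8589934592) (.ev (nat_lit 1069) (nat_lit 64) .dd)))) (.ch (nat_lit 17) (.ev (nat_lit 928) (nat_lit
 70368744177728) (.ev (nat_lit 941) (nat_lit 8589934592) .dd))))) (.br (nat_lit 20) (.br (nat_lit 19) (.ch
 (nat_lit 18) (.ev (nat_lit 928) (nat_lit 70377334112256) (.ev (nat_lit 941) (nat_lit 64) .dd))) (.ch (nat_lit
 19) (.ev (nat_lit 928) (nat_lit 70368744177728) (.ev (nat_lit 941) (nat_lit 8589934592) .dd)))) (.br (nat_lit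
 22) (.ch (nat_lit 20) (.ev (nat_lit 928) (nat_lit 8589934592) (.ev (nat_lit 1104) (nat_lit 70368744177664)
 (.ev (nat_lit 1117) (nat_lit 64) .dd)))) (.br (nat_lit 29) (.ch (nat_lit 22) (.ev (nat_lit 928) (nat_lit
 70377334112256) (.ev (nat_lit 941) (nat_lit 64) .dd))) (.ch (nat_lit 29) (.ev (nat_lit 928) (nat_lit
 70368744177728) (.ev (nat_lit 941) (nat_lit 8589934592) .dd)))))))))))))) (.ch (nat_lit 38) (.ev (nat_lit 52)
 (nat_lit 5139263377115232) (.ev (nat_lit 84) (nat_lit 68719476736) (.ev (nat_lit 116) (nat_lit 17592186044416)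
 (.ev (nat_lit 148) (nat_lit 268435456) (.ev (nat_lit 340) (nat_lit 65552) (.nd (nat_lit 912) (.br (nat_lit 13)
 (.br (nat_lit 8) (.br (nat_lit 3) (.ch (nat_lit 1) (.ev (nat_lit 928) (nat_lit 4096) (.ev (nat_lit 1092)
 (nat_lit 8796093022208) (.ev (nat_lit 1101) (nat_lit 16777216) .dd)))) (.ch (nat_lit 3) (.ev (nat_lit 928)
 (nat_lit 16781312) (.ev (nat_lit 941) (nat_lit 8796093022208) .dd)))) (.br (nat_lit 11) (.ch (nat_lit 8) (.ev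
 (nat_lit 928) (nat_lit 8796109803520) .dd)) (.br (nat_lit 12) (.ch (nat_lit 11) (.ev (nat_lit 928) (nat_lit
 8796093026304) (.ev (nat_lit 941) (nat_lit 16777216) .dd))) (.ch (nat_lit 12) (.ev (nat_lit 928) (nat_lit
 16781312) (.ev (nat_lit 941) (nat_lit 8796093022208) .dd)))))) (.br (nat_lit 18) (.br (nat_lit 16) (.ch
 (nat_lit 13) (.ev (nat_lit 928) (nat_lit 16777216) (.ev (nat_lit 976) (nat_lit 4096) (.ev (nat_lit 989)
 (nat_lit 8796093022208) .dd)))) (.br (nat_lit 17) (.ch (nat_lit 16) (.ev (nat_lit 928) (nat_lit 16781312) (.ev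
 (nat_lit 941) (nat_lit 8796093022208) .dd))) (.ch (nat_lit 17) (.ev (nat_lit 928) (nat_lit 8796093026304) (.ev
 (nat_lit 941) (nat_lit 16777216) .dd))))) (.br (nat_lit 19) (.ch (nat_lit 18) (.ev (nat_lit 928) (nat_lit
 8796109803520) .dd)) (.br (nat_lit 29) (.ch (nat_lit 19) (.ev (nat_lit 928) (nat_lit 8796109803520) .dd)) (.ch
 (nat_lit 29) (.ev (nat_lit 928) (nat_lit 8796109799424) (.ev (nat_lit 941) (nat_lit 4096) .dd)))))))))))))))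
 (.br (nat_lit 42) (.ch (nat_lit 39) (.ev (nat_lit 52) (nat_lit 4582902188740688) (.ev (nat_lit 84) (nat_lit
 8589934592) (.ev (nat_lit 148) (nat_lit 562949953421312) (.ev (nat_lit 180) (nat_lit 2199023257600) (.ev
 (nat_lit 212) (nat_lit 17592186044416) (.ev (nat_lit 320) (nat_lit 68719542304) .dd))))))) (.ch (nat_lit 42)
 (.ev (nat_lit 52) (nat_lit 4593828300394576) (.ev (nat_lit 84) (nat_lit 8589934592) (.ev (nat_lit 160)
 (nat_lit 571883770611744) .dd)))))))))))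

/-- Subtrie. -/
noncomputable def T19 : Tr := (.ev (nat_lit 20) (nat_lit 423312513665104) (.nd (nat_lit 33) (.br (nat_lit 22)
 (.br (nat_lit 9) (.br (nat_lit 6) (.br (nat_lit 4) (.ch (nat_lit 1) (.ev (nat_lit 52) (nat_lit
 574503770264064) (.ev (nat_lit 84) (nat_lit 4398046511104) (.ev (nat_lit 96) (nat_lit 5717943652451360)
 .dd)))) (.br (nat_lit 5) (.ch (nat_lit 4) (.ev (nat_lit 52) (nat_lit 4596577165382688) (.ev (nat_lit 84)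
 (nat_lit 274877906944) (.ev (nat_lit 148) (nat_lit 137707520000) (.ev (nat_lit 180) (nat_lit 8796093022208)
 (.ev (nat_lit 212) (nat_lit 10741613056) (.ev (nat_lit 742) (nat_lit 562949953421312) (.nd (nat_lit 912) (.br
 (nat_lit 14) (.br (nat_lit 7) (.br (nat_lit 4) (.ch (nat_lit 3) (.ev (nat_lit 928) (nat_lit 2199023517696)
 (.ev (nat_lit 941) (nat_lit 1125899906842624) .dd))) (.ch (nat_lit 4) (.ev (nat_lit 928) (nat_lit
 1128098930360320) .dd))) (.br (nat_lit 8) (.ch (nat_lit 7) (.ev (nat_lit 928) (nat_lit 2199023517696) (.ev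
 (nat_lit 941) (nat_lit 1125899906842624) .dd))) (.br (nat_lit 10) (.ch (nat_lit 8) (.ev (nat_lit 928) (nat_lit
 1128098930360320) .dd)) (.ch (nat_lit 10) (.ev (nat_lit 928) (nat_lit 1128098930360320) .dd))))) (.br (nat_lit
 18) (.br (nat_lit 15) (.ch (nat_lit 14) (.ev (nat_lit 928) (nat_lit 1128098930360320) .dd)) (.ch (nat_lit 15)
 (.ev (nat_lit 928) (nat_lit 1128098930360320) .dd))) (.br (nat_lit 20) (.ch (nat_lit 18) (.ev (nat_lit 928)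
 (nat_lit 1128098930098176) (.ev (nat_lit 941) (nat_lit 262144) .dd))) (.br (nat_lit 26) (.ch (nat_lit 20) (.ev
 (nat_lit 928) (nat_lit 1125899907104768) (.ev (nat_lit 941) (nat_lit 2199023255552) .dd))) (.ch (nat_lit 26)
 (.ev (nat_lit 928) (nat_lit 1125899907104768) (.ev (nat_lit 941) (nat_lit 2199023255552) .dd)))))))))))))))
 (.ch (nat_lit 5) (.ev (nat_lit 52) (nat_lit 1131122673451040) (.ev (nat_lit 116) (nat_lit 2199023255552) (.ev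
 (nat_lit 212) (nat_lit 17592186044416) (.ev (nat_lit 244) (nat_lit 137438953472) (.ev (nat_lit 544) (nat_lit
 70368744177664) (.nd (nat_lit 912) (.br (nat_lit 13) (.br (nat_lit 8) (.br (nat_lit 5) (.ch (nat_lit 4) (.ev
 (nat_lit 928) (nat_lit 5066552000910848) (.ev (nat_lit 960) (nat_lit 68719476736) (.ev (nat_lit 1092) (nat_lit
 8796093022208) (.ev (nat_lit 1101) (nat_lit 8589934592) .dd))))) (.ch (nat_lit 5) (.ev (nat_lit 928) (nat_lit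
 4512475449922048) (.ev (nat_lit 944) (nat_lit 1024) (.ev (nat_lit 957) (nat_lit 562949953421312) .dd))))) (.br
 (nat_lit 10) (.ch (nat_lit 8) (.ev (nat_lit 928) (nat_lit 5075425403344384) .dd)) (.ch (nat_lit 10) (.ev
 (nat_lit 928) (nat_lit 5075416813409792) (.ev (nat_lit 941) (nat_lit 8589934592) .dd))))) (.br (nat_lit 19)
 (.br (nat_lit 15) (.ch (nat_lit 13) (.ev (nat_lit 928) (nat_lit 5066629041886720) (.ev (nat_lit 944) (nat_lit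
 8796361457664) .dd))) (.ch (nat_lit 15) (.ev (nat_lit 928) (nat_lit 571748462364160) (.ev (nat_lit 1008)
 (nat_lit 4096) (.ev (nat_lit 1092) (nat_lit 77313605632) (.ev (nat_lit 1101) (nat_lit 4503599627370496)
 .dd)))))) (.br (nat_lit 20) (.ch (nat_lit 19) (.ev (nat_lit 928) (nat_lit 571825503338496) (.ev (nat_lit 976)
 (nat_lit 1024) (.ev (nat_lit 1024) (nat_lit 4096) (.ev (nat_lit 1092) (nat_lit 4503599631565312) (.ev (nat_lit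
 1101) (nat_lit 268435456) .dd)))))) (.br (nat_lit 21) (.ch (nat_lit 20) (.ev (nat_lit 928) (nat_lit
 5075423255860736) (.ev (nat_lit 941) (nat_lit 2147483648) .dd))) (.ch (nat_lit 21) (.ev (nat_lit 928) (nat_lit
 5075416813409792) (.ev (nat_lit 941) (nat_lit 8589934592) .dd)))))))))))))))) (.br (nat_lit 7) (.ch (nat_lit
 6) (.ev (nat_lit 52) (nat_lit 648782746616320) (.ev (nat_lit 84) (nat_lit 275146346528) (.ev (nat_lit 116)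
 (nat_lit 17592186044416) (.ev (nat_lit 148) (nat_lit 1024) (.nd (nat_lit 912) (.br (nat_lit 14) (.br (nat_lit
 5) (.br (nat_lit 4) (.ch (nat_lit 3) (.ev (nat_lit 928) (nat_lit 4504158044422144) (.ev (nat_lit 1092)
 (nat_lit 137438953472) (.ev (nat_lit 1101) (nat_lit 1125899906842624) .dd)))) (.ch (nat_lit 4) (.ev (nat_lit
 928) (nat_lit 4504295483375616) (.ev (nat_lit 941) (nat_lit 1125899906842624) .dd)))) (.br (nat_lit 7) (.ch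
 (nat_lit 5) (.ev (nat_lit 928) (nat_lit 5630057947070464) (.ev (nat_lit 960) (nat_lit 4194304) (.ev (nat_lit
 973) (nat_lit 137438953472) .dd)))) (.br (nat_lit 8) (.ch (nat_lit 7) (.ev (nat_lit 928) (nat_lit
 4504286893441024) (.ev (nat_lit 976) (nat_lit 1125899906842624) (.ev (nat_lit 989) (nat_lit 8589934592)
 .dd)))) (.ch (nat_lit 8) (.ev (nat_lit 928) (nat_lit 5630195390218240) .dd))))) (.br (nat_lit 19) (.br
 (nat_lit 15) (.ch (nat_lit 14) (.ev (nat_lit 928) (nat_lit 1126595762847744) (.ev (nat_lit 941) (nat_lit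
 4503599627370496) .dd))) (.br (nat_lit 17) (.ch (nat_lit 15) (.ev (nat_lit 928) (nat_lit 5630049361330176)
 (.ev (nat_lit 1092) (nat_lit 8589934592) (.ev (nat_lit 1101) (nat_lit 137438953472) .dd)))) (.ch (nat_lit 17)
 (.ev (nat_lit 928) (nat_lit 1126045939924992) (.ev (nat_lit 1008) (nat_lit 549755813888) (.ev (nat_lit 1092)
 (nat_lit 4503599627370496) (.ev (nat_lit 1101) (nat_lit 67108864) .dd))))))) (.br (nat_lit 22) (.ch (nat_lit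
 19) (.ev (nat_lit 928) (nat_lit 1126458323894272) (.ev (nat_lit 1092) (nat_lit 137438953472) (.ev (nat_lit
 1101) (nat_lit 4503599627370496) .dd)))) (.br (nat_lit 24) (.ch (nat_lit 22) (.ev (nat_lit 928) (nat_lit
 5630195323109376) (.ev (nat_lit 941) (nat_lit 67108864) .dd))) (.ch (nat_lit 24) (.ev (nat_lit 928) (nat_lit
 1126458323894272) (.ev (nat_lit 944) (nat_lit 4503599627370496) (.ev (nat_lit 957) (nat_lit 137438953472)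
 .dd)))))))))))))) (.br (nat_lit 8) (.ch (nat_lit 7) (.ev (nat_lit 52) (nat_lit 84456572846080) (.ev (nat_lit
 64) (nat_lit 6212388896380448) .dd))) (.ch (nat_lit 8) (.ev (nat_lit 52) (nat_lit 4526004595065344) (.ev
 (nat_lit 84) (nat_lit 2199023386624) (.ev (nat_lit 116) (nat_lit 4198400) (.ev (nat_lit 148) (nat_lit
 8589934592) (.ev (nat_lit 180) (nat_lit 32) (.ev (nat_lit 244) (nat_lit 70368744178688) (.ev (nat_lit 276)
 (nat_lit 549755813888) (.ev (nat_lit 496) (nat_lit 1125899906842624) (.nd (nat_lit 912) (.br (nat_lit 16) (.br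
 (nat_lit 14) (.br (nat_lit 12) (.ch (nat_lit 4) (.ev (nat_lit 928) (nat_lit 562950037307392) (.ev (nat_lit
 944) (nat_lit 8796093022208) (.ev (nat_lit 957) (nat_lit 68719476736) .dd)))) (.ch (nat_lit 12) (.ev (nat_lit
 928) (nat_lit 571814765920256) (.ev (nat_lit 1092) (nat_lit 16777216) (.ev (nat_lit 1101) (nat_lit 67108864)
 .dd))))) (.br (nat_lit 15) (.ch (nat_lit 14) (.ev (nat_lit 928) (nat_lit 571814849806336) .dd)) (.ch (nat_lit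
 15) (.ev (nat_lit 928) (nat_lit 571746130329600) (.ev (nat_lit 941) (nat_lit 68719476736) .dd))))) (.br
 (nat_lit 19) (.br (nat_lit 18) (.ch (nat_lit 16) (.ev (nat_lit 928) (nat_lit 571814833029120) (.ev (nat_lit
 941) (nat_lit 16777216) .dd))) (.ch (nat_lit 18) (.ev (nat_lit 928) (nat_lit 571814782697472) (.ev (nat_lit
 941) (nat_lit 67108864) .dd)))) (.br (nat_lit 22) (.ch (nat_lit 19) (.ev (nat_lit 928) (nat_lit
 571814849806336) .dd)) (.br (nat_lit 26) (.ch (nat_lit 22) (.ev (nat_lit 928) (nat_lit 571814782697472) (.ev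
 (nat_lit 941) (nat_lit 67108864) .dd))) (.ch (nat_lit 26) (.ev (nat_lit 928) (nat_lit 8796093022208) (.ev
 (nat_lit 1092) (nat_lit 67108864) (.ev (nat_lit 1152) (nat_lit 562949970198528) (.ev (nat_lit 1165) (nat_lit
 68719476736) .dd)))))))))))))))))))))) (.br (nat_lit 13) (.br (nat_lit 10) (.ch (nat_lit 9) (.ev (nat_lit 52)
 (nat_lit 1154968514068512) (.ev (nat_lit 64) (nat_lit 5141876955158016) .dd))) (.br (nat_lit 12) (.ch (nat_lit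
 10) (.ev (nat_lit 52) (nat_lit 5076172796854304) (.ev (nat_lit 148) (nat_lit 4398046511104) (.ev (nat_lit 180)
 (nat_lit 68719476736) (.ev (nat_lit 528) (nat_lit 262144) (.nd (nat_lit 912) (.br (nat_lit 18) (.br (nat_lit
 13) (.br (nat_lit 12) (.ch (nat_lit 8) (.ev (nat_lit 928) (nat_lit 1216197316187648) (.ev (nat_lit 941)
 (nat_lit 8589934592) .dd))) (.ch (nat_lit 12) (.ev (nat_lit 928) (nat_lit 70514773070336) (.ev (nat_lit 976)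
 (nat_lit 16777216) (.ev (nat_lit 1024) (nat_lit 131072) (.ev (nat_lit 1092) (nat_lit 1128098930098176) (.ev
 (nat_lit 1120) (nat_lit 1024) (.ev (nat_lit 1133) (nat_lit 17592186044416) .dd)))))))) (.br (nat_lit 15) (.ch
 (nat_lit 13) (.ev (nat_lit 928) (nat_lit 1213869443909120) (.ev (nat_lit 1092) (nat_lit 137438957568) (.ev
 (nat_lit 1101) (nat_lit 2199023255552) .dd)))) (.ch (nat_lit 15) (.ev (nat_lit 928) (nat_lit 1216068467164160)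
 (.ev (nat_lit 976) (nat_lit 4096) (.ev (nat_lit 1092) (nat_lit 512) (.ev (nat_lit 1101) (nat_lit 137438953472)
 .dd))))))) (.br (nat_lit 20) (.br (nat_lit 19) (.ch (nat_lit 18) (.ev (nat_lit 928) (nat_lit 1145837161944576)
 (.ev (nat_lit 941) (nat_lit 70368744177664) .dd))) (.ch (nat_lit 19) (.ev (nat_lit 928) (nat_lit
 1213869443777024) (.ev (nat_lit 1008) (nat_lit 131072) (.ev (nat_lit 1056) (nat_lit 137438953472) (.ev
 (nat_lit 1092) (nat_lit 2199023259648) (.ev (nat_lit 1101) (nat_lit 1024) .dd))))))) (.br (nat_lit 21) (.ch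
 (nat_lit 20) (.ev (nat_lit 928) (nat_lit 1216068467168768) (.ev (nat_lit 941) (nat_lit 137438953472) .dd)))
 (.br (nat_lit 24) (.ch (nat_lit 21) (.ev (nat_lit 928) (nat_lit 1216197316187648) (.ev (nat_lit 941) (nat_lit
 8589934592) .dd))) (.ch (nat_lit 24) (.ev (nat_lit 928) (nat_lit 1216068450391552) (.ev (nat_lit 944) (nat_lit
 137455730688) .dd))))))))))))) (.ch (nat_lit 12) (.ev (nat_lit 52) (nat_lit 4594447128203808) (.ev (nat_lit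
 64) (nat_lit 1702398341022720) .dd))))) (.br (nat_lit 18) (.br (nat_lit 17) (.ch (nat_lit 13) (.ev (nat_lit
 52) (nat_lit 5067236844897792) (.ev (nat_lit 64) (nat_lit 1229608624328736) .dd))) (.ch (nat_lit 17) (.ev
 (nat_lit 52) (nat_lit 6272516542956032) (.ev (nat_lit 84) (nat_lit 4096) (.ev (nat_lit 96) (nat_lit
 24328926266400) .dd))))) (.br (nat_lit 21) (.ch (nat_lit 18) (.ev (nat_lit 52) (nat_lit 6285229444957184) (.ev
 (nat_lit 96) (nat_lit 11616024269344) .dd))) (.ch (nat_lit 21) (.ev (nat_lit 52) (nat_lit 1144258748749312)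
 (.ev (nat_lit 64) (nat_lit 5152586720477216) .dd))))))) (.br (nat_lit 34) (.br (nat_lit 30) (.br (nat_lit 25)
 (.ch (nat_lit 22) (.ev (nat_lit 52) (nat_lit 645140935087104) (.ev (nat_lit 64) (nat_lit 5651704534139424)
 .dd))) (.br (nat_lit 26) (.ch (nat_lit 25) (.ev (nat_lit 52) (nat_lit 1703016828764672) (.ev (nat_lit 84)
 (nat_lit 1024) (.ev (nat_lit 116) (nat_lit 4503599895805952) (.ev (nat_lit 148) (nat_lit 2199027449856) (.ev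
 (nat_lit 180) (nat_lit 266240) (.ev (nat_lit 212) (nat_lit 68719476736) (.ev (nat_lit 308) (nat_lit 131072)
 (.nd (nat_lit 912) (.br (nat_lit 18) (.br (nat_lit 10) (.br (nat_lit 8) (.ch (nat_lit 7) (.ev (nat_lit 928)
 (nat_lit 17592253153280) (.ev (nat_lit 944) (nat_lit 70368744177696) .dd))) (.ch (nat_lit 8) (.ev (nat_lit
 928) (nat_lit 87960930222112) (.ev (nat_lit 941) (nat_lit 67108864) .dd)))) (.br (nat_lit 16) (.ch (nat_lit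
 10) (.ev (nat_lit 928) (nat_lit 87960930222112) (.ev (nat_lit 941) (nat_lit 67108864) .dd))) (.ch (nat_lit 16)
 (.ev (nat_lit 928) (nat_lit 87960930222112) (.ev (nat_lit 941) (nat_lit 67108864) .dd))))) (.br (nat_lit 21)
 (.br (nat_lit 19) (.ch (nat_lit 18) (.ev (nat_lit 928) (nat_lit 87960930222112) (.ev (nat_lit 941) (nat_lit
 67108864) .dd))) (.ch (nat_lit 19) (.ev (nat_lit 928) (nat_lit 87960997330976) .dd))) (.br (nat_lit 22) (.ch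
 (nat_lit 21) (.ev (nat_lit 928) (nat_lit 87960997330976) .dd)) (.br (nat_lit 26) (.ch (nat_lit 22) (.ev
 (nat_lit 928) (nat_lit 70368811286560) (.ev (nat_lit 941) (nat_lit 17592186044416) .dd))) (.ch (nat_lit 26)
 (.ev (nat_lit 928) (nat_lit 87960997330976) .dd))))))))))))))) (.ch (nat_lit 26) (.ev (nat_lit 52) (nat_lit
 1713393803462144) (.ev (nat_lit 84) (nat_lit 4503599627370496) (.ev (nat_lit 116) (nat_lit 32) (.ev (nat_lit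
 160) (nat_lit 79852038393856) .dd))))))) (.br (nat_lit 31) (.ch (nat_lit 30) (.ev (nat_lit 52) (nat_lit
 1133184188421152) (.ev (nat_lit 64) (nat_lit 5163661280805376) .dd))) (.br (nat_lit 33) (.ch (nat_lit 31) (.ev
 (nat_lit 52) (nat_lit 4582833268196896) (.ev (nat_lit 84) (nat_lit 1143492097081344) (.ev (nat_lit 116)
 (nat_lit 10739515392) (.ev (nat_lit 148) (nat_lit 562949953421312) (.ev (nat_lit 180) (nat_lit 549755813888)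
 (.ev (nat_lit 244) (nat_lit 274878038016) (.nd (nat_lit 912) (.br (nat_lit 16) (.br (nat_lit 12) (.br (nat_lit
 8) (.ch (nat_lit 5) (.ev (nat_lit 928) (nat_lit 2199291695104) (.ev (nat_lit 944) (nat_lit 4398046511104) (.ev
 (nat_lit 957) (nat_lit 137438953472) .dd)))) (.ch (nat_lit 8) (.ev (nat_lit 928) (nat_lit 6734777159680)
 .dd))) (.br (nat_lit 13) (.ch (nat_lit 12) (.ev (nat_lit 928) (nat_lit 6734777159680) .dd)) (.ch (nat_lit 13)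
 (.ev (nat_lit 928) (nat_lit 4535485468672) (.fin (nat_lit 576464600606130754)))))) (.br (nat_lit 20) (.br
 (nat_lit 19) (.ch (nat_lit 16) (.ev (nat_lit 928) (nat_lit 4535753900032) (.ev (nat_lit 992) (nat_lit
 2199023255552) (.ev (nat_lit 1005) (nat_lit 4096) .dd)))) (.ch (nat_lit 19) (.ev (nat_lit 928) (nat_lit
 4535485468672) (.ev (nat_lit 976) (nat_lit 2199291691008) .dd)))) (.br (nat_lit 22) (.ch (nat_lit 20) (.ev
 (nat_lit 928) (nat_lit 2336730644480) (.ev (nat_lit 976) (nat_lit 4398046511104) (.ev (nat_lit 989) (nat_lit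
 4096) .dd)))) (.br (nat_lit 26) (.ch (nat_lit 22) (.ev (nat_lit 928) (nat_lit 6734777155584) (.ev (nat_lit
 941) (nat_lit 4096) .dd))) (.ch (nat_lit 26) (.ev (nat_lit 928) (nat_lit 4535753904128) (.ev (nat_lit 941)
 (nat_lit 2199023255552) .dd))))))))))))))) (.ch (nat_lit 33) (.ev (nat_lit 52) (nat_lit 1148107123459104) (.ev
 (nat_lit 84) (nat_lit 8796093284352) (.ev (nat_lit 116) (nat_lit 70368744177664) (.ev (nat_lit 148) (nat_lit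
 549755813888) (.ev (nat_lit 180) (nat_lit 562949953421824) (.ev (nat_lit 244) (nat_lit 2097152) (.nd (nat_lit
 912) (.br (nat_lit 13) (.br (nat_lit 10) (.br (nat_lit 7) (.ch (nat_lit 3) (.ev (nat_lit 928) (nat_lit
 2474169602048) (.ev (nat_lit 941) (nat_lit 4503599627370496) .dd))) (.ch (nat_lit 7) (.ev (nat_lit 928)
 (nat_lit 4505798919065600) (.ev (nat_lit 941) (nat_lit 274877906944) .dd)))) (.br (nat_lit 12) (.ch (nat_lit
 10) (.ev (nat_lit 928) (nat_lit 4506073796972544) .dd)) (.ch (nat_lit 12) (.ev (nat_lit 928) (nat_lit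
 4506073796972544) .dd)))) (.br (nat_lit 18) (.br (nat_lit 16) (.ch (nat_lit 13) (.ev (nat_lit 928) (nat_lit
 4503874505281536) (.nd (nat_lit 1281) (.ch (nat_lit 3) (.nd (nat_lit 1296) (.ch (nat_lit 2) (.fin (nat_lit
 576464600606130754)))))))) (.ch (nat_lit 16) (.ev (nat_lit 928) (nat_lit 274877906944) (.ev (nat_lit 960)
 (nat_lit 268435456) (.ev (nat_lit 976) (nat_lit 4503599627370496) (.ev (nat_lit 1092) (nat_lit 2199023255552)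
 (.ev (nat_lit 1101) (nat_lit 4096) .dd))))))) (.br (nat_lit 19) (.ch (nat_lit 18) (.ev (nat_lit 928) (nat_lit
 4506073796972544) .dd)) (.br (nat_lit 20) (.ch (nat_lit 19) (.ev (nat_lit 928) (nat_lit 4506073796972544)
 .dd)) (.ch (nat_lit 20) (.ev (nat_lit 928) (nat_lit 4506073528532992) (.ev (nat_lit 944) (nat_lit 268439552)
 .dd)))))))))))))))))) (.br (nat_lit 37) (.br (nat_lit 35) (.ch (nat_lit 34) (.ev (nat_lit 52) (nat_lit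
 591752272678912) (.ev (nat_lit 116) (nat_lit 4398113620000) (.ev (nat_lit 148) (nat_lit 2147746816) (.ev
 (nat_lit 180) (nat_lit 274894684160) (.ev (nat_lit 212) (nat_lit 5699868278390784) (.nd (nat_lit 912) (.br
 (nat_lit 18) (.br (nat_lit 8) (.br (nat_lit 4) (.ch (nat_lit 3) (.ev (nat_lit 928) (nat_lit 549762105344) (.ev
 (nat_lit 941) (nat_lit 512) .dd))) (.ch (nat_lit 4) (.ev (nat_lit 928) (nat_lit 549757911552) (.ev (nat_lit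
 941) (nat_lit 4194304) .dd)))) (.br (nat_lit 10) (.ch (nat_lit 8) (.ev (nat_lit 928) (nat_lit 549762105344)
 (.ev (nat_lit 941) (nat_lit 512) .dd))) (.ch (nat_lit 10) (.ev (nat_lit 928) (nat_lit 549762105856) .dd))))
 (.br (nat_lit 22) (.br (nat_lit 20) (.ch (nat_lit 18) (.ev (nat_lit 928) (nat_lit 549760008704) (.ev (nat_lit
 941) (nat_lit 2097152) .dd))) (.ch (nat_lit 20) (.ev (nat_lit 928) (nat_lit 2097664) (.ev (nat_lit 960)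
 (nat_lit 4194304) (.ev (nat_lit 973) (nat_lit 549755813888) .dd))))) (.br (nat_lit 24) (.ch (nat_lit 22) (.ev
 (nat_lit 928) (nat_lit 549762105856) .dd)) (.ch (nat_lit 24) (.ev (nat_lit 928) (nat_lit 2097664) (.ev
 (nat_lit 1008) (nat_lit 549755813888) (.ev (nat_lit 1021) (nat_lit 4194304) .dd)))))))))))))) (.br (nat_lit
 36) (.ch (nat_lit 35) (.ev (nat_lit 52) (nat_lit 85839239844384) (.ev (nat_lit 84) (nat_lit 1125899906842624)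
 (.ev (nat_lit 148) (nat_lit 562949953421312) (.ev (nat_lit 244) (nat_lit 268435456) (.ev (nat_lit 276)
 (nat_lit 274877906944) (.nd (nat_lit 912) (.br (nat_lit 16) (.br (nat_lit 7) (.br (nat_lit 5) (.ch (nat_lit 4)
 (.ev (nat_lit 928) (nat_lit 4521879075292160) (.ev (nat_lit 941) (nat_lit 2147483648) .dd))) (.ch (nat_lit 5)
 (.ev (nat_lit 928) (nat_lit 4521741569229824) (.ev (nat_lit 1092) (nat_lit 67108864) (.ev (nat_lit 1120)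
 (nat_lit 139586437120) .dd))))) (.br (nat_lit 12) (.ch (nat_lit 7) (.ev (nat_lit 928) (nat_lit
 4503739280917504) (.ev (nat_lit 976) (nat_lit 549755813888) (.ev (nat_lit 989) (nat_lit 17592186044416)
 .dd)))) (.br (nat_lit 13) (.ch (nat_lit 12) (.ev (nat_lit 928) (nat_lit 4504289036731392) (.ev (nat_lit 941)
 (nat_lit 17592186044416) .dd))) (.ch (nat_lit 13) (.ev (nat_lit 928) (nat_lit 4521881222775808) .dd))))) (.br
 (nat_lit 20) (.br (nat_lit 17) (.ch (nat_lit 16) (.ev (nat_lit 928) (nat_lit 18281528296448) (.ev (nat_lit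
 944) (nat_lit 67108864) (.ev (nat_lit 957) (nat_lit 4503599627370496) .dd)))) (.br (nat_lit 18) (.ch (nat_lit
 17) (.ev (nat_lit 928) (nat_lit 18281528296448) (.ev (nat_lit 1092) (nat_lit 67108864) (.ev (nat_lit 1101)
 (nat_lit 4503599627370496) .dd)))) (.ch (nat_lit 18) (.ev (nat_lit 928) (nat_lit 4521881155666944) (.ev
 (nat_lit 941) (nat_lit 67108864) .dd))))) (.br (nat_lit 24) (.ch (nat_lit 20) (.ev (nat_lit 928) (nat_lit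
 4521331466961920) (.ev (nat_lit 941) (nat_lit 549755813888) .dd))) (.br (nat_lit 26) (.ch (nat_lit 24) (.ev
 (nat_lit 928) (nat_lit 689409360896) (.ev (nat_lit 1092) (nat_lit 17592186044416) (.ev (nat_lit 1101) (nat_lit
 4503599627370496) .dd)))) (.ch (nat_lit 26) (.ev (nat_lit 928) (nat_lit 18281595404288) (.ev (nat_lit 960)
 (nat_lit 1024) (.ev (nat_lit 973) (nat_lit 4503599627370496) .dd))))))))))))))) (.ch (nat_lit 36) (.ev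
 (nat_lit 52) (nat_lit 19868856358432) (.ev (nat_lit 84) (nat_lit 4194304) (.ev (nat_lit 116) (nat_lit
 1126312223703040) (.ev (nat_lit 180) (nat_lit 8796093022208) (.ev (nat_lit 212) (nat_lit 74766790688768) (.ev
 (nat_lit 276) (nat_lit 4503599627370496) (.nd (nat_lit 912) (.br (nat_lit 17) (.br (nat_lit 7) (.br (nat_lit
 5) (.ch (nat_lit 3) (.ev (nat_lit 928) (nat_lit 551920467968) (.ev (nat_lit 941) (nat_lit 562949953421312)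
 .dd))) (.ch (nat_lit 5) (.ev (nat_lit 928) (nat_lit 551920205824) (.ev (nat_lit 1092) (nat_lit 262144) (.ev
 (nat_lit 1101) (nat_lit 562949953421312) .dd))))) (.br (nat_lit 12) (.ch (nat_lit 7) (.ev (nat_lit 928)
 (nat_lit 562952101298176) (.ev (nat_lit 1120) (nat_lit 549772591104) .dd))) (.br (nat_lit 13) (.ch (nat_lit
 12) (.ev (nat_lit 928) (nat_lit 563501873758208) (.ev (nat_lit 941) (nat_lit 131072) .dd))) (.ch (nat_lit 13)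
 (.ev (nat_lit 928) (nat_lit 562952118075392) (.ev (nat_lit 941) (nat_lit 549755813888) .dd)))))) (.br (nat_lit
 21) (.br (nat_lit 18) (.ch (nat_lit 17) (.ev (nat_lit 928) (nat_lit 562949970460672) (.ev (nat_lit 1024)
 (nat_lit 549755813888) (.ev (nat_lit 1092) (nat_lit 131072) (.ev (nat_lit 1101) (nat_lit 2147483648) .dd)))))
 (.br (nat_lit 20) (.ch (nat_lit 18) (.ev (nat_lit 928) (nat_lit 563501857112064) (.ev (nat_lit 941) (nat_lit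
 16777216) .dd))) (.ch (nat_lit 20) (.ev (nat_lit 928) (nat_lit 549772853248) (.ev (nat_lit 960) (nat_lit
 2147483648) (.ev (nat_lit 1092) (nat_lit 131072) (.ev (nat_lit 1101) (nat_lit 562949953421312) .dd))))))) (.br
 (nat_lit 24) (.ch (nat_lit 21) (.ev (nat_lit 928) (nat_lit 562952117944320) (.ev (nat_lit 944) (nat_lit
 549755813888) (.ev (nat_lit 957) (nat_lit 131072) .dd)))) (.br (nat_lit 26) (.ch (nat_lit 24) (.ev (nat_lit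
 928) (nat_lit 551920467968) (.ev (nat_lit 941) (nat_lit 562949953421312) .dd))) (.ch (nat_lit 26) (.ev
 (nat_lit 928) (nat_lit 551903690752) (.ev (nat_lit 1072) (nat_lit 16777216) (.ev (nat_lit 1085) (nat_lit
 562949953421312) .dd)))))))))))))))))) (.br (nat_lit 39) (.br (nat_lit 38) (.ch (nat_lit 37) (.ev (nat_lit 52)
 (nat_lit 5651627480715808) (.ev (nat_lit 84) (nat_lit 2199023255552) (.ev (nat_lit 116) (nat_lit 274877906944)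
 (.ev (nat_lit 148) (nat_lit 8798240505856) (.ev (nat_lit 180) (nat_lit 70368744177664) (.nd (nat_lit 912) (.br
 (nat_lit 10) (.br (nat_lit 5) (.br (nat_lit 4) (.ch (nat_lit 3) (.ev (nat_lit 928) (nat_lit 563508383187968)
 (.ev (nat_lit 941) (nat_lit 68719476736) .dd))) (.ch (nat_lit 4) (.ev (nat_lit 928) (nat_lit 563577102664704)
 .dd))) (.br (nat_lit 7) (.ch (nat_lit 5) (.ev (nat_lit 928) (nat_lit 618542531584) (.ev (nat_lit 1024)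
 (nat_lit 8589934592) (.ev (nat_lit 1104) (nat_lit 562949970198528) .dd)))) (.br (nat_lit 8) (.ch (nat_lit 7)
 (.ev (nat_lit 928) (nat_lit 563568512729088) (.ev (nat_lit 1104) (nat_lit 8589934592) (.ev (nat_lit 1117)
 (nat_lit 1024) .dd)))) (.ch (nat_lit 8) (.ev (nat_lit 928) (nat_lit 563577102532608) (.ev (nat_lit 944)
 (nat_lit 1024) (.ev (nat_lit 957) (nat_lit 131072) .dd))))))) (.br (nat_lit 15) (.br (nat_lit 12) (.ch
 (nat_lit 10) (.ev (nat_lit 928) (nat_lit 563018756916224) (.ev (nat_lit 944) (nat_lit 8589934592) (.ev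
 (nat_lit 957) (nat_lit 549755813888) .dd)))) (.br (nat_lit 14) (.ch (nat_lit 12) (.ev (nat_lit 928) (nat_lit
 563577085756416) (.ev (nat_lit 944) (nat_lit 131072) (.ev (nat_lit 957) (nat_lit 16777216) .dd)))) (.ch
 (nat_lit 14) (.ev (nat_lit 928) (nat_lit 563499793253376) (.ev (nat_lit 944) (nat_lit 68719476736) (.ev
 (nat_lit 957) (nat_lit 8589934592) .dd)))))) (.br (nat_lit 17) (.ch (nat_lit 15) (.ev (nat_lit 928) (nat_lit
 563508383056896) (.ev (nat_lit 1104) (nat_lit 131072) (.ev (nat_lit 1117) (nat_lit 68719476736) .dd)))) (.br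
 (nat_lit 19) (.ch (nat_lit 17) (.ev (nat_lit 928) (nat_lit 563027279610880) (.ev (nat_lit 992) (nat_lit
 549755813888) (.ev (nat_lit 1092) (nat_lit 131072) (.ev (nat_lit 1101) (nat_lit 67108864) .dd))))) (.ch
 (nat_lit 19) (.ev (nat_lit 928) (nat_lit 563577102663680) (.ev (nat_lit 941) (nat_lit 1024) .dd))))))))))))))
 (.ch (nat_lit 38) (.ev (nat_lit 52) (nat_lit 5143661425853984) (.ev (nat_lit 64) (nat_lit 1153184043372544)
 .dd)))) (.br (nat_lit 42) (.ch (nat_lit 39) (.ev (nat_lit 52) (nat_lit 4587849993294848) (.ev (nat_lit 64)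
 (nat_lit 1708995475931680) .dd))) (.ch (nat_lit 42) (.ev (nat_lit 52) (nat_lit 5724401131853312) (.ev (nat_lit
 116) (nat_lit 146028888096) (.ev (nat_lit 148) (nat_lit 563499709235200) (.ev (nat_lit 180) (nat_lit 6291456)
 (.ev (nat_lit 244) (nat_lit 131072) (.ev (nat_lit 340) (nat_lit 67108864) (.ev (nat_lit 512) (nat_lit
 268435456) (.ev (nat_lit 640) (nat_lit 2147483648) (.ev (nat_lit 662) (nat_lit 16777216) (.ev (nat_lit 669)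
 (nat_lit 8796093022208) .dd))))))))))))))))))

/-- The trie. -/
noncomputable def T : Tr := .nd (nat_lit 1000000) (.br (nat_lit 9) (.br (nat_lit 5) (.br (nat_lit 3) (.br
 (nat_lit 1) (.ch (nat_lit 0) (.ev (nat_lit 0) (nat_lit 9007199254740991) .dd)) (.ch (nat_lit 1) T1)) (.br
 (nat_lit 4) (.ch (nat_lit 3) (.ev (nat_lit 0) (nat_lit 9007199254740991) .dd)) (.ch (nat_lit 4) T4))) (.br
 (nat_lit 7) (.br (nat_lit 6) (.ch (nat_lit 5) (.ev (nat_lit 0) (nat_lit 9007199254740991) .dd)) (.ch (nat_lit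
 6) T6)) (.br (nat_lit 8) (.ch (nat_lit 7) (.ev (nat_lit 0) (nat_lit 9007199254740991) .dd)) (.ch (nat_lit 8)
 T8)))) (.br (nat_lit 16) (.br (nat_lit 11) (.br (nat_lit 10) (.ch (nat_lit 9) (.ev (nat_lit 0) (nat_lit
 9007199254740991) .dd)) (.ch (nat_lit 10) (.ev (nat_lit 0) (nat_lit 9007199254740991) .dd))) (.br (nat_lit 12)
 (.ch (nat_lit 11) (.ev (nat_lit 0) (nat_lit 9007199254740991) .dd)) (.ch (nat_lit 12) (.ev (nat_lit 0)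
 (nat_lit 9007199254740991) .dd)))) (.br (nat_lit 19) (.br (nat_lit 17) (.ch (nat_lit 16) (.ev (nat_lit 0)
 (nat_lit 9007199254740991) .dd)) (.ch (nat_lit 17) (.ev (nat_lit 0) (nat_lit 9007199254740991) .dd))) (.br
 (nat_lit 30) (.ch (nat_lit 19) T19) (.ch (nat_lit 30) (.ev (nat_lit 0) (nat_lit 9007199254740991) .dd))))))

/-- The possible values. -/
noncomputable def oks : List ℕ := [223, 706]

/-- The parameters. -/
noncomputable def S : Pr := ⟨fun i l e => lget mz (lget [] (lget [] tabs i) l) e, oks, [(nat_lit 0), (nat_lit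
 1), (nat_lit 0), (nat_lit 1), (nat_lit 0)], T, (nat_lit 9007199254740991), (nat_lit 2287041271849359),
 (nat_lit 53), [(nat_lit 1073946281), (nat_lit 3303796230157)], [(nat_lit 923521), (nat_lit 3418801)]⟩

/-- Nothing known. -/
noncomputable def cs0 : Cs := (.cons (nat_lit 31) (nat_lit 0) (nat_lit 1) (.cons (nat_lit 43) (nat_lit 0) (nat_lit 1) .nil))

theorem part_1 : part S cs0 (nat_lit 1) = true := by decide +kernel

theorem part_4 : part S cs0 (nat_lit 4) = true := by decide +kernel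

theorem part_6 : part S cs0 (nat_lit 6) = true := by decide +kernel

theorem part_8 : part S cs0 (nat_lit 8) = true := by decide +kernel

theorem part_19 : part S cs0 (nat_lit 19) = true := by decide +kernel

/-- Data of a prime. -/
noncomputable def D0 : PD := ⟨(nat_lit 31), (nat_lit 4), (701965, 8, 13), (856532, 861885, 201127), (191905, 134505, 170383)⟩

theorem D0_ok : D0.Ok := pdb_sound (s := 3) (C := ⟨⟨11, 26, -43, -19, 34, 32, -12, -3, -1⟩, (11, 12, 19)⟩) (by show Nat.Prime 31; norm_num) (by decide +kernel)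

/-- Lines of the first type. -/
noncomputable def Cl0 : List C1 := [⟨⟨-11, -26, -32, 19, -34, 13, 12, 3, -13⟩, (22, 24, 7)⟩,
  ⟨⟨0, 0, 0, 0, 0, 0, 0, 0, 0⟩, (0, 0, 0)⟩,
  ⟨⟨0, 0, 0, 0, 0, 0, 0, 0, 0⟩, (0, 0, 0)⟩,
  ⟨⟨29, 26, -37, 21, 6, 32, 8, -11, -7⟩, (2, 10, 23)⟩,
  ⟨⟨0, 0, 0, 0, 0, 0, 0, 0, 0⟩, (0, 0, 0)⟩,
  ⟨⟨21, 6, -53, 29, 26, 8, 8, -11, -1⟩, (6, 26, 20)⟩,
  ⟨⟨0, 0, 0, 0, 0, 0, 0, 0, 0⟩, (0, 0, 0)⟩,
  ⟨⟨29, -26, -37, 21, -6, 32, 8, 11, -7⟩, (27, 11, 16)⟩,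
  ⟨⟨0, 0, 0, 0, 0, 0, 0, 0, 0⟩, (0, 0, 0)⟩,
  ⟨⟨-9, -6, -43, -41, 14, 28, 4, 13, -5⟩, (4, 1, 12)⟩,
  ⟨⟨9, -6, -52, -41, -14, 13, -4, 13, -1⟩, (29, 16, 25)⟩,
  ⟨⟨21, -6, -53, 29, -26, 8, 8, 11, -1⟩, (7, 20, 13)⟩,
  ⟨⟨9, 6, -52, -41, 14, 13, -4, -13, -1⟩, (28, 24, 22)⟩,
  ⟨⟨0, 0, 0, 0, 0, 0, 0, 0, 0⟩, (0, 0, 0)⟩,
  ⟨⟨0, 0, 0, 0, 0, 0, 0, 0, 0⟩, (0, 0, 0)⟩,
  ⟨⟨0, 0, 0, 0, 0, 0, 0, 0, 0⟩, (0, 0, 0)⟩,
  ⟨⟨11, -26, -43, -19, -34, 32, -12, 3, -1⟩, (25, 16, 15)⟩,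
  ⟨⟨-9, 6, -43, -41, -14, 28, 4, -13, -5⟩, (3, 24, 9)⟩,
  ⟨⟨0, 0, 0, 0, 0, 0, 0, 0, 0⟩, (0, 0, 0)⟩,
  ⟨⟨0, 0, 0, 0, 0, 0, 0, 0, 0⟩, (0, 0, 0)⟩,
  ⟨⟨0, 0, 0, 0, 0, 0, 0, 0, 0⟩, (0, 0, 0)⟩,
  ⟨⟨0, 0, 0, 0, 0, 0, 0, 0, 0⟩, (0, 0, 0)⟩,
  ⟨⟨0, 0, 0, 0, 0, 0, 0, 0, 0⟩, (0, 0, 0)⟩,
  ⟨⟨0, 0, 0, 0, 0, 0, 0, 0, 0⟩, (0, 0, 0)⟩,
  ⟨⟨0, 0, 0, 0, 0, 0, 0, 0, 0⟩, (0, 0, 0)⟩,
  ⟨⟨0, 0, 0, 0, 0, 0, 0, 0, 0⟩, (0, 0, 0)⟩,
  ⟨⟨0, 0, 0, 0, 0, 0, 0, 0, 0⟩, (0, 0, 0)⟩,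
  ⟨⟨0, 0, 0, 0, 0, 0, 0, 0, 0⟩, (0, 0, 0)⟩,
  ⟨⟨0, 0, 0, 0, 0, 0, 0, 0, 0⟩, (0, 0, 0)⟩,
  ⟨⟨0, 0, 0, 0, 0, 0, 0, 0, 0⟩, (0, 0, 0)⟩,
  ⟨⟨-11, 26, -32, 19, 34, 13, 12, -3, -13⟩, (28, 8, 23)⟩]

/-- Data of a prime. -/
noncomputable def D1 : PD := ⟨(nat_lit 43), (nat_lit 4), (2393595, 1, 17), (861437, 3297541, 834535), (2917894, 2632981, 81486)⟩

theorem D1_ok : D1.Ok := pdb_sound (s := 1) (C := ⟨⟨43, -38, -44, 43, 38, 1, 0, 9, -19⟩, (5, 38, 9)⟩) (by show Nat.Prime 43; norm_num) (by decide +kernel)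

/-- Lines of the first type. -/
noncomputable def Cl1 : List C1 := [⟨⟨43, 38, -44, 43, -38, 1, 0, -9, -19⟩, (42, 1, 24)⟩,
  ⟨⟨0, 0, 0, 0, 0, 0, 0, 0, 0⟩, (0, 0, 0)⟩,
  ⟨⟨57, -18, -16, -17, -58, 1, 4, 1, -23⟩, (41, 27, 24)⟩,
  ⟨⟨7, -38, -56, -33, -42, 49, -16, 7, -1⟩, (28, 40, 22)⟩,
  ⟨⟨0, 0, 0, 0, 0, 0, 0, 0, 0⟩, (0, 0, 0)⟩,
  ⟨⟨0, 0, 0, 0, 0, 0, 0, 0, 0⟩, (0, 0, 0)⟩,
  ⟨⟨0, 0, 0, 0, 0, 0, 0, 0, 0⟩, (0, 0, 0)⟩,
  ⟨⟨0, 0, 0, 0, 0, 0, 0, 0, 0⟩, (0, 0, 0)⟩,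
  ⟨⟨0, 0, 0, 0, 0, 0, 0, 0, 0⟩, (0, 0, 0)⟩,
  ⟨⟨0, 0, 0, 0, 0, 0, 0, 0, 0⟩, (0, 0, 0)⟩,
  ⟨⟨0, 0, 0, 0, 0, 0, 0, 0, 0⟩, (0, 0, 0)⟩,
  ⟨⟨27, -18, -71, -53, -22, 4, -4, 17, -7⟩, (6, 36, 23)⟩,
  ⟨⟨0, 0, 0, 0, 0, 0, 0, 0, 0⟩, (0, 0, 0)⟩,
  ⟨⟨0, 0, 0, 0, 0, 0, 0, 0, 0⟩, (0, 0, 0)⟩,
  ⟨⟨-7, -2, -64, -47, -38, 31, 12, -15, -7⟩, (37, 15, 41)⟩,
  ⟨⟨-7, 2, -64, -47, 38, 31, 12, 15, -7⟩, (3, 14, 1)⟩,
  ⟨⟨-7, 38, -49, 33, 42, 16, 16, -7, -17⟩, (27, 14, 12)⟩,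
  ⟨⟨0, 0, 0, 0, 0, 0, 0, 0, 0⟩, (0, 0, 0)⟩,
  ⟨⟨0, 0, 0, 0, 0, 0, 0, 0, 0⟩, (0, 0, 0)⟩,
  ⟨⟨57, 18, -16, -17, 58, 1, 4, -1, -23⟩, (36, 30, 41)⟩,
  ⟨⟨53, 22, -49, 27, -18, 44, 4, -17, -11⟩, (6, 42, 11)⟩,
  ⟨⟨0, 0, 0, 0, 0, 0, 0, 0, 0⟩, (0, 0, 0)⟩,
  ⟨⟨0, 0, 0, 0, 0, 0, 0, 0, 0⟩, (0, 0, 0)⟩,
  ⟨⟨27, 18, -71, -53, 22, 4, -4, -17, -7⟩, (1, 6, 11)⟩,
  ⟨⟨57, -18, -41, -17, -58, 16, -4, -1, -19⟩, (7, 13, 41)⟩,
  ⟨⟨0, 0, 0, 0, 0, 0, 0, 0, 0⟩, (0, 0, 0)⟩,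
  ⟨⟨0, 0, 0, 0, 0, 0, 0, 0, 0⟩, (0, 0, 0)⟩,
  ⟨⟨7, 38, -56, -33, 42, 49, -16, -7, -1⟩, (27, 14, 12)⟩,
  ⟨⟨7, 2, -71, -47, -38, 16, 12, -15, -5⟩, (3, 29, 42)⟩,
  ⟨⟨7, -2, -71, -47, 38, 16, 12, 15, -5⟩, (37, 28, 2)⟩,
  ⟨⟨0, 0, 0, 0, 0, 0, 0, 0, 0⟩, (0, 0, 0)⟩,
  ⟨⟨0, 0, 0, 0, 0, 0, 0, 0, 0⟩, (0, 0, 0)⟩,
  ⟨⟨53, -22, -49, 27, 18, 44, 4, 17, -11⟩, (36, 37, 23)⟩,
  ⟨⟨0, 0, 0, 0, 0, 0, 0, 0, 0⟩, (0, 0, 0)⟩,
  ⟨⟨0, 0, 0, 0, 0, 0, 0, 0, 0⟩, (0, 0, 0)⟩,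
  ⟨⟨0, 0, 0, 0, 0, 0, 0, 0, 0⟩, (0, 0, 0)⟩,
  ⟨⟨0, 0, 0, 0, 0, 0, 0, 0, 0⟩, (0, 0, 0)⟩,
  ⟨⟨0, 0, 0, 0, 0, 0, 0, 0, 0⟩, (0, 0, 0)⟩,
  ⟨⟨0, 0, 0, 0, 0, 0, 0, 0, 0⟩, (0, 0, 0)⟩,
  ⟨⟨0, 0, 0, 0, 0, 0, 0, 0, 0⟩, (0, 0, 0)⟩,
  ⟨⟨-7, -38, -49, 33, -42, 16, 16, 7, -17⟩, (28, 40, 22)⟩,
  ⟨⟨57, 18, -41, -17, 58, 16, -4, 1, -19⟩, (2, 16, 24)⟩,
  ⟨⟨0, 0, 0, 0, 0, 0, 0, 0, 0⟩, (0, 0, 0)⟩]

/-- Data of a prime. -/
noncomputable def Dm : PD := ⟨(nat_lit 53), (nat_lit 2), (2545, 8, 14), (2610, 800, 1557), (1968, 957, 2439)⟩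

theorem Dm_ok : Dm.Ok := pdb_sound (s := 12) (C := ⟨⟨-13, 2, -76, -47, -58, 31, 18, -15, -13⟩, (40, 6, 18)⟩) (by show Nat.Prime 53; norm_num) (by decide +kernel)

/-- Lines of the first type. -/
noncomputable def Clm : List C1 := [⟨⟨13, -2, -89, -47, -58, 16, 18, -15, -5⟩, (17, 16, 48)⟩,
  ⟨⟨-23, 38, -56, 43, 58, 1, 18, -9, -23⟩, (9, 50, 16)⟩,
  ⟨⟨-23, -38, -56, 43, -58, 1, 18, 9, -23⟩, (18, 47, 32)⟩,
  ⟨⟨-13, -2, -76, -47, 58, 31, 18, 15, -13⟩, (20, 3, 9)⟩,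
  ⟨⟨0, 0, 0, 0, 0, 0, 0, 0, 0⟩, (0, 0, 0)⟩,
  ⟨⟨0, 0, 0, 0, 0, 0, 0, 0, 0⟩, (0, 0, 0)⟩,
  ⟨⟨0, 0, 0, 0, 0, 0, 0, 0, 0⟩, (0, 0, 0)⟩,
  ⟨⟨23, -38, -79, -43, -58, 44, -18, 9, -5⟩, (29, 8, 28)⟩,
  ⟨⟨33, -18, -89, 67, 2, 4, 2, 23, -7⟩, (12, 34, 20)⟩,
  ⟨⟨0, 0, 0, 0, 0, 0, 0, 0, 0⟩, (0, 0, 0)⟩,
  ⟨⟨0, 0, 0, 0, 0, 0, 0, 0, 0⟩, (0, 0, 0)⟩,
  ⟨⟨0, 0, 0, 0, 0, 0, 0, 0, 0⟩, (0, 0, 0)⟩,
  ⟨⟨0, 0, 0, 0, 0, 0, 0, 0, 0⟩, (0, 0, 0)⟩,
  ⟨⟨27, 42, -76, 7, 58, 49, 22, -7, -5⟩, (1, 14, 44)⟩,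
  ⟨⟨33, 18, -89, 67, -2, 4, 2, -23, -7⟩, (44, 1, 38)⟩,
  ⟨⟨0, 0, 0, 0, 0, 0, 0, 0, 0⟩, (0, 0, 0)⟩,
  ⟨⟨0, 0, 0, 0, 0, 0, 0, 0, 0⟩, (0, 0, 0)⟩,
  ⟨⟨0, 0, 0, 0, 0, 0, 0, 0, 0⟩, (0, 0, 0)⟩,
  ⟨⟨0, 0, 0, 0, 0, 0, 0, 0, 0⟩, (0, 0, 0)⟩,
  ⟨⟨57, 42, -56, -37, 62, 41, -10, 1, -19⟩, (20, 27, 3)⟩,
  ⟨⟨13, 2, -89, -47, 58, 16, 18, 15, -5⟩, (50, 19, 4)⟩,
  ⟨⟨0, 0, 0, 0, 0, 0, 0, 0, 0⟩, (0, 0, 0)⟩,
  ⟨⟨0, 0, 0, 0, 0, 0, 0, 0, 0⟩, (0, 0, 0)⟩,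
  ⟨⟨57, -42, -56, -37, -62, 41, -10, -1, -19⟩, (16, 11, 13)⟩,
  ⟨⟨0, 0, 0, 0, 0, 0, 0, 0, 0⟩, (0, 0, 0)⟩,
  ⟨⟨7, 58, -56, 27, 42, 49, 22, -7, -17⟩, (20, 9, 25)⟩,
  ⟨⟨0, 0, 0, 0, 0, 0, 0, 0, 0⟩, (0, 0, 0)⟩,
  ⟨⟨67, -2, -71, 33, 18, 56, -2, 23, -5⟩, (28, 13, 49)⟩,
  ⟨⟨0, 0, 0, 0, 0, 0, 0, 0, 0⟩, (0, 0, 0)⟩,
  ⟨⟨0, 0, 0, 0, 0, 0, 0, 0, 0⟩, (0, 0, 0)⟩,
  ⟨⟨23, 38, -79, -43, 58, 44, -18, -9, -5⟩, (20, 11, 12)⟩,
  ⟨⟨0, 0, 0, 0, 0, 0, 0, 0, 0⟩, (0, 0, 0)⟩,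
  ⟨⟨7, -58, -56, 27, -42, 49, 22, 7, -17⟩, (17, 5, 8)⟩,
  ⟨⟨0, 0, 0, 0, 0, 0, 0, 0, 0⟩, (0, 0, 0)⟩,
  ⟨⟨67, 2, -71, 33, -18, 56, -2, -23, -5⟩, (8, 34, 14)⟩,
  ⟨⟨27, -42, -76, 7, -58, 49, 22, 7, -5⟩, (50, 11, 27)⟩,
  ⟨⟨0, 0, 0, 0, 0, 0, 0, 0, 0⟩, (0, 0, 0)⟩,
  ⟨⟨0, 0, 0, 0, 0, 0, 0, 0, 0⟩, (0, 0, 0)⟩,
  ⟨⟨0, 0, 0, 0, 0, 0, 0, 0, 0⟩, (0, 0, 0)⟩,
  ⟨⟨0, 0, 0, 0, 0, 0, 0, 0, 0⟩, (0, 0, 0)⟩,
  ⟨⟨0, 0, 0, 0, 0, 0, 0, 0, 0⟩, (0, 0, 0)⟩,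
  ⟨⟨0, 0, 0, 0, 0, 0, 0, 0, 0⟩, (0, 0, 0)⟩,
  ⟨⟨0, 0, 0, 0, 0, 0, 0, 0, 0⟩, (0, 0, 0)⟩,
  ⟨⟨0, 0, 0, 0, 0, 0, 0, 0, 0⟩, (0, 0, 0)⟩,
  ⟨⟨0, 0, 0, 0, 0, 0, 0, 0, 0⟩, (0, 0, 0)⟩,
  ⟨⟨-37, 62, -4, -57, -42, 1, 10, -1, -29⟩, (22, 21, 27)⟩,
  ⟨⟨0, 0, 0, 0, 0, 0, 0, 0, 0⟩, (0, 0, 0)⟩,
  ⟨⟨0, 0, 0, 0, 0, 0, 0, 0, 0⟩, (0, 0, 0)⟩,
  ⟨⟨0, 0, 0, 0, 0, 0, 0, 0, 0⟩, (0, 0, 0)⟩,
  ⟨⟨0, 0, 0, 0, 0, 0, 0, 0, 0⟩, (0, 0, 0)⟩,
  ⟨⟨0, 0, 0, 0, 0, 0, 0, 0, 0⟩, (0, 0, 0)⟩,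
  ⟨⟨-37, -62, -4, -57, 42, 1, 10, 1, -29⟩, (6, 25, 17)⟩,
  ⟨⟨0, 0, 0, 0, 0, 0, 0, 0, 0⟩, (0, 0, 0)⟩]

/-- Unit moves. -/
noncomputable def U : List Mv := [mz,
  mz,
  ⟨⟨1, 0, 0, 0, -1, 0, 0, 0, 1⟩, .nil, (nat_lit 30), (nat_lit 30), (nat_lit 29), (nat_lit 1), (0, 0, 0), [], 3⟩,
  mz,
  mz,
  mz,
  mz,
  mz,
  mz,
  mz,
  mz,
  mz,
  mz,
  ⟨⟨1, 0, 0, 0, -1, 0, 0, 0, 1⟩, .nil, (nat_lit 30), (nat_lit 30), (nat_lit 29), (nat_lit 1), (0, 0, 0), [], 3⟩,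
  ⟨⟨1, 0, 0, 0, -1, 0, 0, 0, 1⟩, .nil, (nat_lit 30), (nat_lit 30), (nat_lit 29), (nat_lit 1), (0, 0, 0), [], 3⟩,
  ⟨⟨-1, 0, 1, 0, -1, 0, 0, 0, 1⟩, .nil, (nat_lit 0), (nat_lit 15), (nat_lit 1), (nat_lit 0), (0, 0, 0), [], 16⟩,
  mz,
  mz,
  ⟨⟨-1, 0, 1, 0, -1, 0, 0, 0, 1⟩, .nil, (nat_lit 0), (nat_lit 15), (nat_lit 1), (nat_lit 0), (0, 0, 0), [], 16⟩,
  mz,
  ⟨⟨-1, 0, 1, 0, 1, 0, 0, 0, 1⟩, .nil, (nat_lit 30), (nat_lit 16), (nat_lit 1), (nat_lit 1), (0, 0, 0), [], 17⟩,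
  ⟨⟨-1, 0, 1, 0, 1, 0, 0, 0, 1⟩, .nil, (nat_lit 30), (nat_lit 16), (nat_lit 1), (nat_lit 1), (0, 0, 0), [], 17⟩,
  ⟨⟨-1, 0, 1, 0, -1, 0, 0, 0, 1⟩, .nil, (nat_lit 0), (nat_lit 15), (nat_lit 1), (nat_lit 0), (0, 0, 0), [], 16⟩,
  ⟨⟨-1, 0, 1, 0, 1, 0, 0, 0, 1⟩, .nil, (nat_lit 30), (nat_lit 16), (nat_lit 1), (nat_lit 1), (0, 0, 0), [], 17⟩,
  ⟨⟨1, 0, 0, 0, -1, 0, 0, 0, 1⟩, .nil, (nat_lit 30), (nat_lit 30), (nat_lit 29), (nat_lit 1), (0, 0, 0), [], 3⟩,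
  ⟨⟨-1, 0, 1, 0, 1, 0, 0, 0, 1⟩, .nil, (nat_lit 30), (nat_lit 16), (nat_lit 1), (nat_lit 1), (0, 0, 0), [], 17⟩,
  ⟨⟨1, 0, 0, 0, -1, 0, 0, 0, 1⟩, .nil, (nat_lit 30), (nat_lit 30), (nat_lit 29), (nat_lit 1), (0, 0, 0), [], 3⟩,
  ⟨⟨-1, 0, 1, 0, -1, 0, 0, 0, 1⟩, .nil, (nat_lit 0), (nat_lit 15), (nat_lit 1), (nat_lit 0), (0, 0, 0), [], 16⟩,
  ⟨⟨-1, 0, 1, 0, 1, 0, 0, 0, 1⟩, .nil, (nat_lit 30), (nat_lit 16), (nat_lit 1), (nat_lit 1), (0, 0, 0), [], 17⟩,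
  ⟨⟨-1, 0, 1, 0, -1, 0, 0, 0, 1⟩, .nil, (nat_lit 0), (nat_lit 15), (nat_lit 1), (nat_lit 0), (0, 0, 0), [], 16⟩,
  mz]

theorem v_ty : tyb Dm S.ty1 Clm = true := by decide +kernel

theorem v_ty0 : tyb D0 (S.tys.getD 0 0) Cl0 = true := by decide +kernel

theorem v_ty1 : tyb D1 (S.tys.getD 1 0) Cl1 = true := by decide +kernel

theorem v_msc : mscb S D0 [D1] Dm (nat_lit 524626) = true := by decide +kernel

theorem v_mv0 : mvsn (nat_lit 8868952661963689) S D0 [D1] Dm (nat_lit 524626) 0 D0 = true := by decide +kernel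

theorem v_mv1 : mvsn (nat_lit 8868952661963689) S D0 [D1] Dm (nat_lit 524626) 1 D1 = true := by decide +kernel

theorem v_mm : mmsn (nat_lit 8868952661963689) S D0 [D1] Dm (nat_lit 524626) = true := by decide +kernel

theorem v_un : unb S D0 (nat_lit 524626) U = true := by decide +kernel

theorem v_ok : okb S.oks [(0, 0, 0), (0, 0, 0)] = true := by decide +kernel

theorem v_part : ∀ d < D0.p, (nat_lit 524626).testBit d = true → part S (zc (D0 :: [D1])) d = true := by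
  intro d hd h
  have h1 : ∀ d < 31, (nat_lit 524626).testBit d = true → d = 1 ∨ d = 4 ∨ d = 6 ∨ d = 8 ∨ d = 19 := by decide
  rcases h1 d hd h with rfl | rfl | rfl | rfl | rfl
  · exact part_1
  · exact part_4
  · exact part_6
  · exact part_8
  · exact part_19

theorem main (n : ℕ) (ho : Odd n) (hr : ¬ Rep n) (h0 : Split 31 n) (h1 : Split 43 n) (hm : Split 53 n) :
    n ∈ EE := by
  refine concln (W := nat_lit 8868952661963689) (S := S) (P0 := D0) (Pl := [D1]) (Pm := Dm) (cn := nat_lit 524626) ?_ Dm_ok v_ty ?_ ?_ v_msc ?_ v_mm v_un v_part v_ok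
    n ho hr ?_ hm
  · simp only [List.forall_mem_cons]
    exact ⟨D0_ok, D1_ok, fun _ h => absurd h (by simp)⟩
  · exact all2 (φ := fun j P => ∃ L, tyb P (S.tys.getD j 0) L = true) ⟨_, v_ty0⟩ ⟨_, v_ty1⟩
  · exact all2 (φ := fun j P => Nat.ble (S.pks.getD j 0) (Nat.pow P.p P.K) = true) (by decide +kernel) (by decide +kernel)
  · exact all2 (φ := fun i P => mvsn (nat_lit 8868952661963689) S D0 [D1] Dm (nat_lit 524626) i P = true) v_mv0 v_mv1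
  · simp only [List.forall_mem_cons]
    exact ⟨h0, h1, fun _ h => absurd h (by simp)⟩

end Pool.Agent.Work.MP_9954fe_nt.P31_43_53

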