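import Pool.Agent.Work.MP_9954fe_nt.Event

/-!
Soundness of the checks of missing digits.
-/

set_option autoImplicit false

namespace Pool.Agent.Work.MP_9954fe_nt

variable {S : Pr} {P0 : PD} {Pl : List PD} {Pm : PD} {cn : ℕ} {n : ℤ}

/-- All primes are small. -/
def Sm : Cs → Prop
  | .nil => True
  | .cons p _ _ t => (1 < p ∧ p < 1000) ∧ Sm t

theorem Sm.shift {cs : Cs} (h : Sm cs) : ∀ i, Sm (shiftc cs i) := by
  induction cs with
  | nil => intro i; exact trivial
  | cons p X P t ih =>
    intro i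
    cases i with
    | zero => exact h
    | succ i => exact ⟨h.1, ih h.2 i⟩

theorem Sm.push {cs : Cs} (h : Sm cs) (d : ℕ) : ∀ i, Sm (push cs d i) := by
  induction cs with
  | nil => intro i; exact trivial
  | cons p X P t ih =>
    intro i
    cases i with
    | zero => rw [push_zero]; exact h
    | succ i => rw [push_succ]; exact ⟨h.1, ih h.2 i⟩

theorem Sm.nth {cs : Cs} (h : Sm cs) : ∀ {i p X P : ℕ}, nth cs i = some (p, X, P) →
    1 < p ∧ p < 1000 := by
  induction cs with
  | nil => intro i p X P hi; simp [MP_9954fe_nt.nth] at hi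
  | cons p X P t ih =>
    intro i q Y Q hi
    cases i with
    | zero =>
      simp only [MP_9954fe_nt.nth, Option.some.injEq, Prod.mk.injEq] at hi
      obtain ⟨rfl, rfl, rfl⟩ := hi
      exact h.1
    | succ i => exact ih h.2 hi

theorem app_sm {mo : Mo} : ∀ {cs cs' : Cs}, Sm cs → app mo cs = .ok cs' → Sm cs' := by
  induction mo with
  | nil =>
    intro cs cs' h h1
    have h2 : app .nil cs = .ok .nil := rfl
    rw [h2] at h1
    simp only [Rs.ok.injEq] at h1
    rw [← h1]; exact trivial
  | cons a b c d mo ih =>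
    intro cs cs' h h1
    cases cs with
    | nil =>
      have h2 : app (.cons a b c d mo) .nil = .ok .nil := rfl
      rw [h2] at h1
      simp only [Rs.ok.injEq] at h1
      rw [← h1]; exact trivial
    | cons p X P t =>
      obtain ⟨t', h2, h3⟩ := app_cons_ok h1
      have h4 := ih h.2 h2
      rcases h3 with ⟨-, h3⟩ | ⟨-, -, X', -, -, h3⟩
      · rw [h3]; exact ⟨h.1, h4⟩
      · rw [h3]; exact ⟨h.1, h4⟩

/-- Two residues that differ only in the top digit of the component `j`; `td` is the top digit of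
the second one. -/
def Tw : ℕ → ℕ → Cs → Cs → Prop
  | 0, td, .cons p X P t, .cons p' X' P' t' => p = p' ∧ P = P' ∧ t = t' ∧ 1 < p ∧
      ∃ k, P = p ^ (k + 1) ∧ X < P ∧ X' < P ∧ X ≡ X' [MOD p ^ k] ∧ X' / p ^ k = td
  | j + 1, td, .cons p X P t, .cons p' X' P' t' => p = p' ∧ X = X' ∧ P = P' ∧ Tw j td t t'
  | _, _, _, _ => False

theorem Tw.step {j td : ℕ} : ∀ {cs csd : Cs}, Tw j td cs csd → ∀ {h p X P : ℕ},
    nth cs h = some (p, X, P) → 1 < P → ¬ (h = j ∧ P = p) →
    rd csd h = some (X % p, shiftc csd h) ∧ Tw j td (shiftc cs h) (shiftc csd h) := by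
  induction j with
  | zero =>
    intro cs csd ht h p X P hn hP hne
    cases cs with
    | nil => simp [Tw] at ht
    | cons q Y Q t =>
      cases csd with
      | nil => simp [Tw] at ht
      | cons q' Y' Q' t' =>
        obtain ⟨rfl, rfl, rfl, h1, k, h2, h3, h4, h5, h6⟩ := ht
        cases h with
        | zero =>
          simp only [nth, Option.some.injEq, Prod.mk.injEq] at hn
          obtain ⟨rfl, rfl, rfl⟩ := hn
          have hk : 1 ≤ k := by
            by_contra hk
            have : k = 0 := by omega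
            rw [this] at h2
            exact hne ⟨rfl, by rw [h2]; simp⟩
          obtain ⟨k', rfl⟩ : ∃ k', k = k' + 1 := ⟨k - 1, by omega⟩
          obtain ⟨h7, h8⟩ := mod_div_pow h5
          refine ⟨?_, ?_⟩
          · rw [rd, if_neg (by omega), h7]; rfl
          · rw [shiftc_zero, shiftc_zero]
            have h9 : Q / q = q ^ (k' + 1) := by
              rw [h2, pow_succ]; exact Nat.mul_div_cancel _ (by omega)
            have h10 : Q = q ^ (k' + 1) * q := by rw [h2, pow_succ]
            refine ⟨rfl, rfl, rfl, h1, k', h9, ?_, ?_, h8, ?_⟩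
            · rw [h9]; exact Nat.div_lt_of_lt_mul (by rw [mul_comm, ← h10]; exact h3)
            · rw [h9]; exact Nat.div_lt_of_lt_mul (by rw [mul_comm, ← h10]; exact h4)
            · rw [Nat.div_div_eq_div_mul, ← pow_succ']; exact h6
        | succ h =>
          refine ⟨?_, ?_⟩
          · have h7 : rd t h = some (X % p, shiftc t h) := by
              have key : ∀ (t : Cs) (h : ℕ), nth t h = some (p, X, P) →
                  rd t h = some (X % p, shiftc t h) := by
                intro t
                induction t with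
                | nil => intro h hn; simp [nth] at hn
                | cons a b c t ih =>
                  intro h hn
                  cases h with
                  | zero =>
                    simp only [nth, Option.some.injEq, Prod.mk.injEq] at hn
                    obtain ⟨rfl, rfl, rfl⟩ := hn
                    rw [rd, if_neg (by omega)]; rfl
                  | succ h => rw [rd, ih h hn]; rfl
              exact key t h hn
            rw [rd, h7]; rfl
          · exact ⟨rfl, rfl, rfl, h1, k, h2, h3, h4, h5, h6⟩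
  | succ j ih =>
    intro cs csd ht h p X P hn hP hne
    cases cs with
    | nil => simp [Tw] at ht
    | cons q Y Q t =>
      cases csd with
      | nil => simp [Tw] at ht
      | cons q' Y' Q' t' =>
        obtain ⟨rfl, rfl, rfl, ht⟩ := ht
        cases h with
        | zero =>
          simp only [nth, Option.some.injEq, Prod.mk.injEq] at hn
          obtain ⟨rfl, rfl, rfl⟩ := hn
          refine ⟨?_, rfl, rfl, rfl, ht⟩
          rw [rd, if_neg (by omega)]; rfl
        | succ h =>
          obtain ⟨h1, h2⟩ := ih ht hn hP (fun h' => hne ⟨by omega, h'.2⟩)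
          refine ⟨?_, rfl, rfl, rfl, h2⟩
          rw [rd, h1]; rfl

theorem Tw.last {j td : ℕ} : ∀ {cs csd : Cs}, Tw j td cs csd → ∀ {p X : ℕ},
    nth cs j = some (p, X, p) → rd csd j = some (td, shiftc csd j) ∧ shiftc csd j = shiftc cs j := by
  induction j with
  | zero =>
    intro cs csd ht p X hn
    cases cs with
    | nil => simp [Tw] at ht
    | cons q Y Q t =>
      cases csd with
      | nil => simp [Tw] at ht
      | cons q' Y' Q' t' =>
        obtain ⟨rfl, rfl, rfl, h1, k, h2, h3, h4, h5, h6⟩ := ht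
        simp only [nth, Option.some.injEq, Prod.mk.injEq] at hn
        obtain ⟨rfl, rfl, rfl⟩ := hn
        have hk : k = 0 := by
          have h7 : Q ^ 1 = Q ^ (k + 1) := by rw [pow_one]; exact h2
          have := Nat.pow_right_injective (by omega : 2 ≤ Q) h7
          omega
        subst hk
        rw [pow_zero, Nat.div_one] at h6
        refine ⟨?_, ?_⟩
        · rw [rd, if_neg (by omega), ← h6, Nat.mod_eq_of_lt h4]; rfl
        · rw [shiftc_zero, shiftc_zero, Nat.div_eq_of_lt h4, Nat.div_eq_of_lt h3]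
  | succ j ih =>
    intro cs csd ht p X hn
    cases cs with
    | nil => simp [Tw] at ht
    | cons q Y Q t =>
      cases csd with
      | nil => simp [Tw] at ht
      | cons q' Y' Q' t' =>
        obtain ⟨rfl, rfl, rfl, ht⟩ := ht
        obtain ⟨h1, h2⟩ := ih ht hn
        refine ⟨?_, ?_⟩
        · rw [rd, h1]; rfl
        · rw [shiftc_succ, shiftc_succ, h2]

/-- The linearity of the top digit. -/
theorem top_digit {p k : ℕ} (hp : p.Prime) (hk : 1 ≤ k) {a b c d Z e : ℕ}
    (hu : ¬ p ∣ c * Z + d) {x0 x1 xe : ℕ} (hx0 : x0 < p ^ (k + 1)) (hx1 : x1 < p ^ (k + 1))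
    (hxe : xe < p ^ (k + 1))
    (h0 : (c * (Z + 0 * p ^ k) + d) * x0 ≡ a * (Z + 0 * p ^ k) + b [MOD p ^ (k + 1)])
    (h1 : (c * (Z + 1 * p ^ k) + d) * x1 ≡ a * (Z + 1 * p ^ k) + b [MOD p ^ (k + 1)])
    (he : (c * (Z + e * p ^ k) + d) * xe ≡ a * (Z + e * p ^ k) + b [MOD p ^ (k + 1)]) :
    x0 ≡ xe [MOD p ^ k] ∧
      xe / p ^ k = (x0 / p ^ k + e * ((x1 / p ^ k + (p - x0 / p ^ k)) % p)) % p := by
  have hpr := intPrime hp
  have hqP : p ^ k ∣ p ^ (k + 1) := pow_dvd_pow p (by omega)
  have hcop : Nat.Coprime (p ^ k) (c * Z + d) :=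
    Nat.Coprime.pow_left k ((hp.coprime_iff_not_dvd).mpr hu)
  -- reduction modulo q
  have red : ∀ {f y : ℕ}, (c * (Z + f * p ^ k) + d) * y ≡ a * (Z + f * p ^ k) + b [MOD p ^ (k + 1)] →
      (c * Z + d) * y ≡ a * Z + b [MOD p ^ k] := by
    intro f y hy
    have h2 := hy.of_dvd hqP
    have h3 : Z + f * p ^ k ≡ Z [MOD p ^ k] := by
      have h4 : f * p ^ k ≡ 0 [MOD p ^ k] :=
        Nat.modEq_zero_iff_dvd.mpr (Dvd.intro_left f rfl)
      exact (Nat.ModEq.refl Z).add h4
    exact (((h3.mul_left c).add_right d).mul_right y).symm.trans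
      (h2.trans ((h3.mul_left a).add_right b))
  have hc0e : x0 ≡ xe [MOD p ^ k] :=
    Nat.ModEq.cancel_left_of_coprime hcop ((red h0).trans (red he).symm)
  have hc01 : x0 ≡ x1 [MOD p ^ k] :=
    Nat.ModEq.cancel_left_of_coprime hcop ((red h0).trans (red h1).symm)
  refine ⟨hc0e, ?_⟩
  have hq0 : 0 < p ^ k := pow_pos hp.pos k
  set q := p ^ k with hq
  have hP : p ^ (k + 1) = q * p := by rw [pow_succ]
  rw [hP] at h0 h1 he hx0 hx1 hxe
  have ht0 : x0 / q < p := Nat.div_lt_of_lt_mul hx0
  have ht1 : x1 / q < p := Nat.div_lt_of_lt_mul hx1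
  have hte : xe / q < p := Nat.div_lt_of_lt_mul hxe
  have e0 : (x0 : ℤ) = (x0 % q : ℕ) + q * (x0 / q : ℕ) := by exact_mod_cast (Nat.mod_add_div x0 q).symm
  have e1 : (x1 : ℤ) = (x0 % q : ℕ) + q * (x1 / q : ℕ) := by
    have h5 : x0 % q = x1 % q := hc01
    rw [h5]; exact_mod_cast (Nat.mod_add_div x1 q).symm
  have ee : (xe : ℤ) = (x0 % q : ℕ) + q * (xe / q : ℕ) := by
    have h5 : x0 % q = xe % q := hc0e
    rw [h5]; exact_mod_cast (Nat.mod_add_div xe q).symm
  have H0 := (Nat.modEq_iff_dvd.mp h0.symm)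
  have H1 := (Nat.modEq_iff_dvd.mp h1.symm)
  have He := (Nat.modEq_iff_dvd.mp he.symm)
  push_cast at H0 H1 He
  rw [e0] at H0
  rw [e1] at H1
  rw [ee] at He
  generalize x0 % q = r at *
  generalize x0 / q = t0 at *
  generalize x1 / q = t1 at *
  generalize xe / q = te at *
  obtain ⟨g, hg⟩ : (p : ℤ) ∣ (q : ℤ) := by
    exact_mod_cast (show p ∣ q from dvd_pow_self p (by omega))
  have hqZ : (q : ℤ) ≠ 0 := by exact_mod_cast hq0.ne'
  have key : (p : ℤ) ∣ (c * Z + d) * ((te : ℤ) - t0 - e * (t1 - t0)) := by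
    have h6 : (q : ℤ) * p ∣ q * ((c * Z + d) * ((te : ℤ) - t0 - e * (t1 - t0))) := by
      have h7 := dvd_sub (dvd_sub He H0) (Dvd.dvd.mul_left (dvd_sub H1 H0) (e : ℤ))
      have h8 : (q : ℤ) * p ∣ (c * e * (te - t1)) * (q * q) := by
        refine Dvd.dvd.mul_left (mul_dvd_mul_left _ ?_) _
        exact ⟨g, hg⟩
      have h9 := dvd_sub h7 h8
      have h10 : (q : ℤ) * ((c * Z + d) * ((te : ℤ) - t0 - e * (t1 - t0))) =
        ((c * (Z + e * q) + d) * (r + q * te) - (a * (Z + e * q) + b) -
          ((c * (Z + 0 * q) + d) * (r + q * t0) - (a * (Z + 0 * q) + b)) -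
          e * ((c * (Z + 1 * q) + d) * (r + q * t1) - (a * (Z + 1 * q) + b) -
          ((c * (Z + 0 * q) + d) * (r + q * t0) - (a * (Z + 0 * q) + b)))) -
          (c * e * (te - t1)) * (q * q) := by ring
      rw [h10]
      exact h9
    exact (mul_dvd_mul_iff_left hqZ).mp h6
  have hu' : ¬ (p : ℤ) ∣ (c : ℤ) * Z + d := by
    intro h
    apply hu
    have : ((p : ℕ) : ℤ) ∣ ((c * Z + d : ℕ) : ℤ) := by push_cast; exact h
    exact Int.natCast_dvd_natCast.mp this
  have key2 := (hpr.dvd_or_dvd key).resolve_left hu'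
  have h11 : t0 + e * (t1 + (p - t0)) ≡ te [MOD p] := by
    rw [Nat.modEq_iff_dvd]
    push_cast [Nat.cast_sub ht0.le]
    have h12 : (te : ℤ) - (t0 + e * (t1 + (p - t0))) = (te - t0 - e * (t1 - t0)) - p * e := by ring
    rw [h12]
    exact dvd_sub key2 (Dvd.intro _ rfl)
  have h13 : t0 + e * ((t1 + (p - t0)) % p) ≡ te [MOD p] :=
    (((Nat.mod_modEq _ _).mul_left e).add_left t0).trans h11
  have h14 : (t0 + e * ((t1 + (p - t0)) % p)) % p = te % p := h13
  rw [h14, Nat.mod_eq_of_lt hte]

/-- The moved residues for different next digits. -/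
theorem app_tw {mo : Mo} : ∀ {cs : Cs} {j p X k e : ℕ} {cs0 cs1 ec : Cs}, p.Prime → 1 ≤ k →
    nth cs j = some (p, X, p ^ (k + 1)) →
    app mo (shiftc (push cs 0 j) j) = .ok cs0 → app mo (shiftc (push cs 1 j) j) = .ok cs1 →
    Img mo (shiftc (push cs e j) j) ec → ∀ {p0 X0 Q0 p1 X1 Q1 : ℕ},
      nth cs0 j = some (p0, X0, Q0) → nth cs1 j = some (p1, X1, Q1) →
      ∃ cse, Co ec cse ∧
        Tw j ((X0 / p ^ k + e * ((X1 / p ^ k + (p - X0 / p ^ k)) % p)) % p) cs0 cse := by
  induction mo with
  | nil =>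
    intro cs j p X k e cs0 cs1 cse hp hk hn h0 h1 he p0 X0 Q0 p1 X1 Q1 g0 g1
    have h2 : app .nil (shiftc (push cs 0 j) j) = .ok .nil := rfl
    rw [h2] at h0
    simp only [Rs.ok.injEq] at h0
    rw [← h0] at g0
    exact absurd g0 (by simp [nth])
  | cons a b c d mo ih =>
    intro cs j p X k e cs0 cs1 ec hp hk hn h0 h1 he p0 X0 Q0 p1 X1 Q1 g0 g1
    cases cs with
    | nil => simp [nth] at hn
    | cons q Y Q t =>
      cases j with
      | zero =>
        simp only [nth, Option.some.injEq, Prod.mk.injEq] at hn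
        obtain ⟨rfl, rfl, rfl⟩ := hn
        rw [push_zero, shiftc_zero] at h0 h1 he
        have hdiv : ∀ f : ℕ, (Y + f * q ^ (k + 1)) / q = Y / q + f * q ^ k := by
          intro f
          rw [pow_succ, ← mul_assoc]
          exact Nat.add_mul_div_right _ _ hp.pos
        have hQ : q ^ (k + 1) * q / q = q ^ (k + 1) := Nat.mul_div_cancel _ hp.pos
        rw [hdiv, hQ] at h0 h1 he
        have hP1 : 1 < q ^ (k + 1) := Nat.one_lt_pow (by omega) hp.one_lt
        obtain ⟨t0, a1, a2⟩ := app_cons_ok h0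
        obtain ⟨t1, b1, b2⟩ := app_cons_ok h1
        rcases a2 with ⟨a2, -⟩ | ⟨-, a2, X0', a3, a4, a5⟩
        · omega
        rcases b2 with ⟨b2, -⟩ | ⟨-, b2, X1', b3, b4, b5⟩
        · omega
        cases he with
        | @cons _ _ _ _ _ _ _ _ _ y Qe te hp' k' K' hkK hPk hQk hc ht =>
          have hkk : k + 1 = k' := Nat.pow_right_injective hp.two_le hPk
          obtain ⟨c1, c2⟩ := hc (by omega)
          have hu : ¬ q ∣ c * (Y / q) + d := by
            intro h
            apply a2
            rw [Nat.mod_mod_of_dvd _ (dvd_pow_self q (by omega)), Nat.zero_mul, Nat.add_zero]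
            exact Nat.mod_eq_zero_of_dvd h
          have c3 : y % q ^ (k + 1) < q ^ (k + 1) := Nat.mod_lt _ (by omega)
          have c4 : (c * (Y / q + e * q ^ k) + d) * (y % q ^ (k + 1)) ≡
              a * (Y / q + e * q ^ k) + b [MOD q ^ (k + 1)] :=
            ((Nat.mod_modEq _ _).mul_left _).trans c2
          obtain ⟨e1, e2⟩ := top_digit hp hk hu a3 b3 c3 a4.1 b4.1 c4
          rw [a5] at g0
          rw [b5] at g1
          simp only [nth, Option.some.injEq, Prod.mk.injEq] at g0 g1
          obtain ⟨-, rfl, -⟩ := g0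
          obtain ⟨-, rfl, -⟩ := g1
          refine ⟨.cons q (y % q ^ (k + 1)) (q ^ (k + 1)) t0, ?_, ?_⟩
          · refine Co.cons hp.one_lt K' (k + 1) (by omega) hQk rfl (Nat.mod_modEq _ _).symm ?_
            exact app_ok_co ht a1
          · rw [a5]
            exact ⟨rfl, rfl, rfl, hp.one_lt, k, rfl, a3, c3, e1, e2⟩
      | succ j =>
        rw [push_succ, shiftc_succ] at h0 h1 he
        have hn' : nth t j = some (p, X, p ^ (k + 1)) := hn
        obtain ⟨t0, a1, a2⟩ := app_cons_ok h0
        obtain ⟨t1, b1, b2⟩ := app_cons_ok h1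
        cases he with
        | @cons _ _ _ _ _ _ _ _ _ y Qe te hp' k' K' hkK hPk hQk hc ht =>
          rcases a2 with ⟨a2, a5⟩ | ⟨a2, a2', X0', a3, a4, a5⟩
          · rcases b2 with ⟨b2, b5⟩ | ⟨b2, -⟩
            · rw [a5] at g0 ⊢
              rw [b5] at g1
              obtain ⟨cse, f1, f2⟩ := ih hp hk hn' a1 b1 ht g0 g1
              have hk0 : k' = 0 := by
                by_contra hk0
                have : 1 < q ^ k' := Nat.one_lt_pow hk0 hp'.one_lt
                omega
              refine ⟨.cons q 0 Q cse, ?_, rfl, rfl, rfl, f2⟩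
              refine Co.cons hp'.one_lt K' k' hkK hQk hPk ?_ f1
              rw [hPk, hk0, pow_zero]; exact Nat.modEq_one
            · omega
          · rcases b2 with ⟨b2, b5⟩ | ⟨b2, -, X1', b3, b4, b5⟩
            · omega
            · rw [a5] at g0 ⊢
              rw [b5] at g1
              obtain ⟨cse, f1, f2⟩ := ih hp hk hn' a1 b1 ht g0 g1
              have hk0 : 1 ≤ k' := by
                by_contra hk0
                have : k' = 0 := by omega
                rw [hPk, this, pow_zero] at a2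
                omega
              obtain ⟨c1, c2⟩ := hc hk0
              refine ⟨.cons q X0' Q cse, ?_, rfl, rfl, rfl, f2⟩
              refine Co.cons hp'.one_lt K' k' hkK hQk hPk ?_ f1
              have hcop : Nat.Coprime Q (c * Y + d) := by
                rw [hPk]
                exact Nat.Coprime.pow_left k' ((hp'.coprime_iff_not_dvd).mpr c1)
              exact Nat.ModEq.cancel_left_of_coprime hcop (c2.trans a4.1.symm)

/-- A move that is defined for one next digit is not dead for the others. -/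
theorem app_nd {mo : Mo} : ∀ {cs : Cs} {j p X k e f : ℕ} {ec : Cs}, p.Prime → 1 ≤ k →
    nth cs j = some (p, X, p ^ (k + 1)) → Img mo (shiftc (push cs e j) j) ec →
    app mo (shiftc (push cs f j) j) ≠ .dead := by
  induction mo with
  | nil =>
    intro cs j p X k e f ec hp hk hn he h
    have h2 : app .nil (shiftc (push cs f j) j) = .ok .nil := rfl
    rw [h2] at h
    exact absurd h (by simp)
  | cons a b c d mo ih =>
    intro cs j p X k e f ec hp hk hn he h
    cases cs with
    | nil => simp [nth] at hn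
    | cons q Y Q t =>
      cases j with
      | zero =>
        simp only [nth, Option.some.injEq, Prod.mk.injEq] at hn
        obtain ⟨rfl, rfl, rfl⟩ := hn
        rw [push_zero, shiftc_zero] at h he
        have hdiv : ∀ f : ℕ, (Y + f * q ^ (k + 1)) / q = Y / q + f * q ^ k := by
          intro f
          rw [pow_succ, ← mul_assoc]
          exact Nat.add_mul_div_right _ _ hp.pos
        have hQ : q ^ (k + 1) * q / q = q ^ (k + 1) := Nat.mul_div_cancel _ hp.pos
        rw [hdiv, hQ] at h he
        have hP1 : 1 < q ^ (k + 1) := Nat.one_lt_pow (by omega) hp.one_lt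
        cases he with
        | @cons _ _ _ _ _ _ _ _ _ y Qe te hp' k' K' hkK hPk hQk hc ht =>
          have hkk : k + 1 = k' := Nat.pow_right_injective hp.two_le hPk
          obtain ⟨c1, -⟩ := hc (by omega)
          rcases app_cons_dead h with h3 | ⟨-, h3⟩
          · rcases app_sound ht with h4 | ⟨cs'', h4, -⟩
            · rw [h4] at h3; exact absurd h3 (by simp)
            · rw [h4] at h3; exact absurd h3 (by simp)
          · apply c1
            have hqd : q ∣ q ^ (k + 1) := dvd_pow_self q (by omega)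
            rw [Nat.mod_mod_of_dvd _ hqd] at h3
            have key : ∀ g : ℕ, (c * (Y / q + g * q ^ k) + d) % q = (c * (Y / q) + d) % q := by
              intro g
              have h4 : g * q ^ k ≡ 0 [MOD q] :=
                Nat.modEq_zero_iff_dvd.mpr (Dvd.dvd.mul_left (dvd_pow_self q (by omega)) g)
              exact ((((Nat.ModEq.refl (Y / q)).add h4).mul_left c).add_right d)
            rw [key] at h3
            apply Nat.dvd_of_mod_eq_zero
            rw [key]
            exact h3
      | succ j =>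
        rw [push_succ, shiftc_succ] at h he
        have hn' : nth t j = some (p, X, p ^ (k + 1)) := hn
        cases he with
        | @cons _ _ _ _ _ _ _ _ _ y Qe te hp' k' K' hkK hPk hQk hc ht =>
          rcases app_cons_dead h with h3 | ⟨h3, h4⟩
          · exact ih hp hk hn' ht h3
          · have hk0 : 1 ≤ k' := by
              by_contra hk0
              have : k' = 0 := by omega
              rw [hPk, this, pow_zero] at h3
              omega
            obtain ⟨c1, -⟩ := hc hk0
            rw [hPk, Nat.mod_mod_of_dvd _ (dvd_pow_self q (by omega))] at h4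
            exact c1 (Nat.dvd_of_mod_eq_zero h4)

/-- Soundness of the run through the trie. -/
theorem Sv_sound {S : Pr} {c j td : ℕ} {k : ℕ → ℕ → Tr → List ℕ → Cs → Bool}
    (hk : ∀ acc df T' ls' cs', k acc df T' ls' cs' = true → (∃ p X, nth cs' j = some (p, X, p)) →
      ∀ l, S.full.testBit l = true → acc.testBit l = true ∨
        (Qm S.full T' td ls' (shiftc cs' j) c df).testBit l = true ∨ S.ty1.testBit l = true)
    (T : Tr) : ∀ {d : ℕ} {ls : List ℕ} {cs csd : Cs} {df acc : ℕ}, Tw j td cs csd → Sm cs →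
    d ≠ ALL → Sv S c j k T d ls cs df acc = true →
    ∀ l, S.full.testBit l = true → acc.testBit l = true ∨
        (Qm S.full T d ls csd c df).testBit l = true ∨ S.ty1.testBit l = true := by
  have hfull : ∀ {acc : ℕ}, Nat.beq (Nat.lor acc S.ty1) S.full = true → ∀ l,
      S.full.testBit l = true → acc.testBit l = true ∨ S.ty1.testBit l = true := by
    intro acc h l hl
    rw [beq_iff] at h
    rw [← h, lor_bit, Bool.or_eq_true] at hl
    exact hl
  induction T with
  | dd =>
    intro d ls cs csd df acc ht hs hd h l hl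
    have h' : Nat.beq (Nat.lor acc S.ty1) S.full = true := h
    rcases hfull h' l hl with h1 | h1
    · exact Or.inl h1
    · exact Or.inr (Or.inr h1)
  | fin c0 =>
    intro d ls cs csd df acc ht hs hd h l hl
    have h' : Nat.beq (Nat.lor acc S.ty1) S.full = true := h
    rcases hfull h' l hl with h1 | h1
    · exact Or.inl h1
    · exact Or.inr (Or.inr h1)
  | ev c' m t ih =>
    intro d ls cs csd df acc ht hs hd h l hl
    have h' : fo (Nat.lor acc (bi (Nat.ble c c') 0 m)) (fun acc' => Sv S c j k t d ls cs df acc') =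
      true := h
    rw [fo_eq] at h'
    rcases ih ht hs hd h' l hl with h1 | h1 | h1
    · rw [lor_bit, Bool.or_eq_true] at h1
      rcases h1 with h1 | h1
      · exact Or.inl h1
      · right; left
        rw [Qm_ev, lor_bit, h1, Bool.true_or]
    · right; left
      rw [Qm_ev, lor_bit, h1, Bool.or_true]
    · exact Or.inr (Or.inr h1)
  | nd c' t ih =>
    intro d ls cs csd df acc ht hs hd h l hl
    have h' : getc false cs (fun p X P =>
      bi (an (Nat.beq (MP_9954fe_nt.hd ls) j) (Nat.beq P p))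
        (k acc (bi (Nat.ble c c') 0 S.full) t (tl ls) cs)
        (bi (Nat.ble P 1) false
          (Sv S c j k t (Nat.mod X p) (tl ls) (shiftc cs (MP_9954fe_nt.hd ls)) (bi (Nat.ble c c') 0 S.full) acc)))
      (MP_9954fe_nt.hd ls) = true := h
    obtain ⟨p, X, P, h1, h2⟩ := getc_true h'
    by_cases hb : MP_9954fe_nt.hd ls = j ∧ P = p
    · obtain ⟨rfl, rfl⟩ := hb
      rw [an_iff.mpr ⟨beq_iff.mpr rfl, beq_iff.mpr rfl⟩, bi_true] at h2
      obtain ⟨h3, h4⟩ := ht.last h1
      rw [Qm_nd, h3, h4]
      exact hk _ _ _ _ _ h2 ⟨P, X, h1⟩ l hl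
    · have h3 : an (Nat.beq (MP_9954fe_nt.hd ls) j) (Nat.beq P p) = false := by
        rw [← Bool.not_eq_true, an_iff, beq_iff, beq_iff]; exact hb
      rw [h3, bi_false] at h2
      by_cases hP : P ≤ 1
      · rw [ble_iff.mpr hP, bi_true] at h2; exact absurd h2 (by simp)
      · rw [ble_false.mpr (by omega), bi_false] at h2
        obtain ⟨h4, h5⟩ := ht.step h1 (by omega) hb
        rw [Qm_nd, h4]
        have h6 := hs.nth h1
        have h7 : X % p ≠ ALL := by
          have h8 := Nat.mod_lt X (show p > 0 by omega)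
          have h9 : ALL = 1000 := rfl
          omega
        exact ih h5 (hs.shift _) h7 h2 l hl
  | br m x y ihx ihy =>
    intro d ls cs csd df acc ht hs hd h l hl
    have h' : bi (Nat.ble m d) (Sv S c j k y d ls cs df acc) (Sv S c j k x d ls cs df acc) = true := h
    rw [Qm_br, beq_false.mpr hd, bi_false]
    rcases hm : Nat.ble m d with _ | _
    · rw [hm, bi_false] at h'
      rw [bi_false]; exact ihx ht hs hd h' l hl
    · rw [hm, bi_true] at h'
      rw [bi_true]; exact ihy ht hs hd h' l hl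
  | ch d' t ih =>
    intro d ls cs csd df acc ht hs hd h l hl
    have h' : bi (Nat.beq d d') (Sv S c j k t 0 ls cs 0 acc)
      (Nat.beq (Nat.lor (Nat.lor acc df) S.ty1) S.full) = true := h
    rw [Qm_ch, beq_false.mpr hd, bi_false]
    rcases hm : Nat.beq d d' with _ | _
    · rw [hm, bi_false] at h'
      rw [bi_false]
      rcases hfull h' l hl with h1 | h1
      · rw [lor_bit, Bool.or_eq_true] at h1
        rcases h1 with h1 | h1
        · exact Or.inl h1
        · exact Or.inr (Or.inl h1)
      · exact Or.inr (Or.inr h1)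
    · rw [hm, bi_true] at h'
      rw [bi_true]
      exact ih ht hs (by decide) h' l hl

theorem St.sm {Ps : List PD} {xs : List ℕ} {er cs : Cs} (h : St Ps xs er cs)
    (hok : ∀ P ∈ Ps, P.Ok) : Sm cs := by
  induction h with
  | nil => exact trivial
  | @cons D Ps x xs er cs hp k hk h ih =>
    exact ⟨⟨hp.one_lt, (hok D (List.mem_cons_self ..)).small⟩,
      ih (fun P hP => hok P (List.mem_cons_of_mem _ hP))⟩

theorem mvq_push {k : Mv → Cs → Bool} {j f : ℕ} {cs : Cs} (hq : mvq S k j (push cs f j) = true)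
    {p X m p0 X0 Q0 : ℕ} (hp : 1 < p) (hm : 1 ≤ m) (hn : nth cs j = some (p, X, p ^ (m + 1)))
    (hn0 : nth cs 0 = some (p0, X0, Q0)) :
    app (S.tab j (X0 % p0) (if j = 0 then X / p % p else X % p)).mo (shiftc (push cs f j) j) = .dead ∨
        ∃ cs', app (S.tab j (X0 % p0) (if j = 0 then X / p % p else X % p)).mo
          (shiftc (push cs f j) j) = .ok cs' ∧
          k (S.tab j (X0 % p0) (if j = 0 then X / p % p else X % p)) cs' = true := by
  obtain ⟨q0, Y0, R0, q, Y, R, h1, h2, h3⟩ := mvq_true hq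
  have e1 : (X + f * p ^ (m + 1)) % p = X % p := by
    rw [pow_succ, ← mul_assoc]; exact Nat.add_mul_mod_self_right _ _ _
  have e2 : (X + f * p ^ (m + 1)) / p % p = X / p % p := by
    rw [pow_succ, ← mul_assoc, Nat.add_mul_div_right _ _ (by omega : 0 < p)]
    obtain ⟨m', rfl⟩ : ∃ m', m = m' + 1 := ⟨m - 1, by omega⟩
    rw [pow_succ, ← mul_assoc]; exact Nat.add_mul_mod_self_right _ _ _
  rw [nth_push hn, if_pos rfl] at h2
  simp only [Option.some.injEq, Prod.mk.injEq] at h2
  obtain ⟨rfl, rfl, rfl⟩ := h2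
  rw [e1, e2] at h3
  rw [nth_push hn0] at h1
  by_cases hj : j = 0
  · subst hj
    rw [if_pos rfl] at h1
    simp only [Option.some.injEq, Prod.mk.injEq] at h1
    obtain ⟨rfl, rfl, rfl⟩ := h1
    rw [hn] at hn0
    simp only [Option.some.injEq, Prod.mk.injEq] at hn0
    obtain ⟨rfl, rfl, rfl⟩ := hn0
    rw [e1] at h3
    exact h3
  · rw [if_neg (fun h => hj h.symm)] at h1
    simp only [Option.some.injEq, Prod.mk.injEq] at h1
    obtain ⟨rfl, rfl, rfl⟩ := h1
    exact h3

/-- Soundness of the checks of missing digits, first part. -/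
theorem Ctx.miss_read (H : Ctx S P0 Pl Pm cn n) {c : ℕ} {x0 : ℕ} {xr : List ℕ} {er cs : Cs}
    (hS : St (P0 :: Pl) (x0 :: xr) er cs) {j : ℕ} {t : Tr} (hm : miss S c j t cs = true) :
    ∃ D x k er', (P0 :: Pl)[j]? = some D ∧ (x0 :: xr)[j]? = some x ∧
      nth cs j = some (D.p, x % D.p ^ k, D.p ^ k) ∧
      rd er j = some (x / D.p ^ k % D.p, er') ∧ x / D.p ^ k % D.p ≠ ALL ∧
      St (P0 :: Pl) (x0 :: xr) er' (push cs (x / D.p ^ k % D.p) j) := by
  obtain ⟨p, X, P, h1, h2⟩ := getc_true hm
  rw [an_iff, ble_iff] at h2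
  obtain ⟨D, x, k, g1, g2, g3, g4, g5, g6, g7, g8⟩ := hS.nth h1
  have h3 : P * p ≤ D.p ^ D.K := h2.1.trans (H.pks j D g1)
  have h4 : k < D.K := by
    rw [g7, g3, ← pow_succ] at h3
    exact (Nat.pow_le_pow_iff_right g4.one_lt).mp h3
  obtain ⟨er', g9, g10⟩ := g8 h4
  refine ⟨D, x, k, er', g1, g2, ?_, g9, ?_, g10⟩
  · rw [h1, g3, g6, g7]
  · have h5 := Nat.mod_lt (x / D.p ^ k) g4.pos
    have h6 := (H.okd D (mem_of_get g1)).small
    have h9 : ALL = 1000 := rfl
    omega

/-- Soundness of the checks of missing digits. -/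
theorem Ctx.miss_sound (H : Ctx S P0 Pl Pm cn n) {c : ℕ} (hcl : Cl S P0 Pl Pm cn n c) {v : V}
    {x0 : ℕ} {xr : List ℕ} (hc : Cnr P0 Pl cn n v x0 xr) {l : ℕ} (hl : Line Pm v l) {er cs : Cs}
    (hS : St (P0 :: Pl) (x0 :: xr) er cs) (h0 : K0 cs) {j : ℕ} {t : Tr}
    (hm : miss S c j t cs = true) {d : ℕ} {er' : Cs} (hd : rd er j = some (d, er')) :
    has t d = true := by
  obtain ⟨D, x, k, er'', g1, g2, g3, g4, g5, g6⟩ := H.miss_read hS hm
  rw [hd] at g4
  simp only [Option.some.injEq, Prod.mk.injEq] at g4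
  obtain ⟨g4, rfl⟩ := g4
  rw [← g4] at g5 g6
  have hDp := (H.okd D (mem_of_get g1)).prime
  have hE : End D v x := ends_get hc.e g1 g2
  have hdp : d < D.p := by rw [g4]; exact Nat.mod_lt _ hDp.pos
  have hm' : getc false cs (fun p _ P => an (Nat.ble (Nat.mul P p) (S.pks.getD j 0))
    (bi (Nat.ble P 1)
      (alln (fun d => bi (has t d) true (tb (S.tys.getD j 0) d)) p)
      (bi (Nat.beq P p)
        (alln (fun d => bi (has t d) true (fulld S c j (push cs d j))) p)
        (mvq S (fun _ cs0 => mvq S (fun _ cs1 =>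
          getc false cs0 (fun _ X0 _ => getc false cs1 (fun _ X1 _ =>
            fo (Nat.div X0 (Nat.div P p)) (fun t0 =>
              fo (Nat.mod (Nat.add (Nat.div X1 (Nat.div P p)) (Nat.sub p t0)) p) (fun dl =>
                Sv S c j (fun acc df T' ls' cs' =>
                  fo acc (fun acc => fo df (fun df =>
                    alln (fun d => bi (has t d) true
                      (Nat.beq (Nat.lor (Nat.lor acc
                        (Qm S.full T' (Nat.mod (Nat.add t0 (Nat.mul d dl)) p) ls' (shiftc cs' j) c df))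
                          S.ty1) S.full)) p)))
                  S.T 0 S.ls cs0 0 0))) j) j)
            j (push cs 1 j)) j (push cs 0 j))))) j = true := hm
  obtain ⟨p, X, P, h1, h2⟩ := getc_true hm'
  rw [g3] at h1
  simp only [Option.some.injEq, Prod.mk.injEq] at h1
  obtain ⟨rfl, rfl, rfl⟩ := h1
  rw [an_iff] at h2
  obtain ⟨-, h2⟩ := h2
  by_contra hhas
  rw [Bool.not_eq_true] at hhas
  by_cases hk0 : k = 0
  · subst hk0
    rw [ble_iff.mpr (by rw [pow_zero]), bi_true, alln_iff] at h2
    have h3 := h2 d hdp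
    rw [hhas, bi_false, tb_eq] at h3
    rw [pow_zero, Nat.div_one] at g4
    rw [g4, H.not_ty hc.q g1 hE] at h3
    exact absurd h3 (by simp)
  · have hP1 : 1 < D.p ^ k := Nat.one_lt_pow hk0 hDp.one_lt
    rw [ble_false.mpr hP1, bi_false] at h2
    by_cases hk1 : k = 1
    · subst hk1
      rw [beq_iff.mpr (pow_one D.p), bi_true, alln_iff] at h2
      have h3 := h2 d hdp
      rw [hhas, bi_false] at h3
      obtain ⟨v', y0, yr, mv, cs', f1, f2, f3, f4⟩ := H.mvs_sound hc g6 (h0.push hS.pos _ _) h3
      obtain ⟨l', f5, -⟩ := f1.line l hl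
      exact H.dead_of_full hcl f2 f5 f4 f3
    · obtain ⟨m, rfl, hm1⟩ : ∃ m, k = m + 1 ∧ 1 ≤ m := ⟨k - 1, by omega, by omega⟩
      have hne : D.p ^ (m + 1) ≠ D.p := by
        intro h
        have h3 : D.p ^ (m + 1) = D.p ^ 1 := by rw [pow_one]; exact h
        have := Nat.pow_right_injective hDp.two_le h3
        omega
      rw [beq_false.mpr hne, bi_false] at h2
      -- the first component
      obtain ⟨p0, X0, Q0, h3⟩ : ∃ p0 X0 Q0, nth cs 0 = some (p0, X0, Q0) := by
        cases cs with
        | nil => simp [nth] at g3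
        | cons p X P t => exact ⟨p, X, P, rfl⟩
      -- the actual move
      have n0 : nth (push cs d j) j = some (D.p, x % D.p ^ (m + 1) + d * D.p ^ (m + 1),
          D.p ^ (m + 1) * D.p) := by rw [nth_push g3, if_pos rfl]
      obtain ⟨q0, Y0, R0, n1⟩ : ∃ q0 Y0 R0, nth (push cs d j) 0 = some (q0, Y0, R0) := by
        rw [nth_push h3]; split_ifs <;> exact ⟨_, _, _, rfl⟩
      have hlt : D.p < D.p ^ (m + 1) * D.p := by
        have h4 := hDp.pos
        nlinarith
      obtain ⟨v', y0, yr, f1, f2, -⟩ := H.moveq hc g6 (h0.push hS.pos _ _) n1 n0 hlt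
      have e1 : (x % D.p ^ (m + 1) + d * D.p ^ (m + 1)) % D.p = x % D.p ^ (m + 1) % D.p := by
        rw [pow_succ, ← mul_assoc]; exact Nat.add_mul_mod_self_right _ _ _
      have e2 : (x % D.p ^ (m + 1) + d * D.p ^ (m + 1)) / D.p % D.p =
          x % D.p ^ (m + 1) / D.p % D.p := by
        conv_lhs => rw [pow_succ, ← mul_assoc, Nat.add_mul_div_right _ _ hDp.pos]
        obtain ⟨m', rfl⟩ : ∃ m', m = m' + 1 := ⟨m - 1, by omega⟩
        conv_lhs => rw [pow_succ _ m', ← mul_assoc]
        exact Nat.add_mul_mod_self_right _ _ _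
      have e3 : Y0 % q0 = X0 % p0 := by
        rw [nth_push h3] at n1
        by_cases hj : j = 0
        · subst hj
          rw [if_pos rfl] at n1
          simp only [Option.some.injEq, Prod.mk.injEq] at n1
          obtain ⟨rfl, rfl, -⟩ := n1
          rw [g3] at h3
          simp only [Option.some.injEq, Prod.mk.injEq] at h3
          obtain ⟨rfl, rfl, rfl⟩ := h3
          exact e1
        · rw [if_neg (fun h => hj h.symm)] at n1
          simp only [Option.some.injEq, Prod.mk.injEq] at n1
          obtain ⟨rfl, rfl, -⟩ := n1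
          rfl
      rw [e1, e2, e3] at f1
      have hI : Img (S.tab j (X0 % p0) (if j = 0 then x % D.p ^ (m + 1) / D.p % D.p
          else x % D.p ^ (m + 1) % D.p)).mo (shiftc (push cs d j) j) (E (P0 :: Pl) (y0 :: yr)) :=
        f1.img.co (g6.co.shift n0 (by have := hDp.one_lt; omega))
      rcases mvq_push h2 hDp.one_lt hm1 g3 h3 with h4 | ⟨cs0, h4, h5⟩
      · exact app_nd hDp hm1 g3 hI h4
      rcases mvq_push h5 hDp.one_lt hm1 g3 h3 with h6 | ⟨cs1, h6, h7⟩
      · exact app_nd hDp hm1 g3 hI h6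
      obtain ⟨p0', X0', Q0', h8, h9⟩ := getc_true h7
      obtain ⟨p1', X1', Q1', h10, h11⟩ := getc_true h9
      rw [fo_eq, fo_eq] at h11
      have hdv : Nat.div (D.p ^ (m + 1)) D.p = D.p ^ m := by
        show D.p ^ (m + 1) / D.p = D.p ^ m
        rw [pow_succ]; exact Nat.mul_div_cancel _ hDp.pos
      rw [hdv] at h11
      obtain ⟨cse, h12, h13⟩ := app_tw hDp hm1 g3 h4 h6 hI h8 h10
      have hsm : Sm cs0 := app_sm (((hS.sm H.okd).push 0 j).shift j) h4
      obtain ⟨l', f5, -⟩ := f1.line l hl
      have h14 := Sv_sound (S := S) (c := c) (j := j) (k := _) (fun acc df T' ls' cs' hk' _ l hl => by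
        rw [fo_eq, fo_eq, alln_iff] at hk'
        have h15 := hk' d hdp
        rw [hhas, bi_false, beq_iff] at h15
        rw [← h15, lor_bit, lor_bit, Bool.or_eq_true, Bool.or_eq_true] at hl
        rcases hl with (hl | hl) | hl
        · exact Or.inl hl
        · exact Or.inr (Or.inl hl)
        · exact Or.inr (Or.inr hl)) S.T h13 hsm (by decide) h11 l' (H.full l' f5.1)
      rcases h14 with h14 | h14 | h14
      · exact absurd h14 (by simp)
      · have h15 := (Qm_mono S.full S.T S.ls _ cse c l' h12).1 0 0 h14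
        rw [hcl v' y0 yr f2 l' f5] at h15
        exact absurd h15 (by simp)
      · rw [H.not_ty1 f2.q f5] at h14
        exact absurd h14 (by simp)

end Pool.Agent.Work.MP_9954fe_nt
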