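import Pool.Agent.Work.MP_9954fe_nt.Check

/-!
Combinatorics of the trie queries: reading digits, monotonicity in the known information.
-/

set_option autoImplicit false

namespace Pool.Agent.Work.MP_9954fe_nt

theorem fo_eq {α : Type} (n : ℕ) (f : ℕ → α) : fo n f = f n := by cases n <;> rfl

theorem bi_true {α : Type} (x y : α) : bi true x y = x := rfl
theorem bi_false {α : Type} (x y : α) : bi false x y = y := rfl

theorem an_eq (a b : Bool) : an a b = (a && b) := by cases a <;> rfl

theorem an_iff {a b : Bool} : an a b = true ↔ a = true ∧ b = true := by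
  rw [an_eq]; simp

theorem ble_iff {a b : ℕ} : Nat.ble a b = true ↔ a ≤ b := by rw [Nat.ble_eq]
theorem ble_false {a b : ℕ} : Nat.ble a b = false ↔ b < a := by
  rw [← Bool.not_eq_true, ble_iff]; omega
theorem beq_iff {a b : ℕ} : Nat.beq a b = true ↔ a = b := by rw [Nat.beq_eq]
theorem beq_false {a b : ℕ} : Nat.beq a b = false ↔ a ≠ b := by
  rw [← Bool.not_eq_true, beq_iff]

theorem alln_iff {f : ℕ → Bool} {n : ℕ} : alln f n = true ↔ ∀ d < n, f d = true := by
  induction n with
  | zero => simp [alln]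
  | succ n ih =>
    have h : alln f (n + 1) = an (f n) (alln f n) := rfl
    rw [h, an_iff, ih]
    constructor
    · rintro ⟨h1, h2⟩ d hd
      rcases Nat.lt_succ_iff_lt_or_eq.mp hd with h3 | h3
      · exact h2 d h3
      · rw [h3]; exact h1
    · intro h1
      exact ⟨h1 n (by omega), fun d hd => h1 d (by omega)⟩

theorem lor_bit (x y i : ℕ) : (Nat.lor x y).testBit i = (x.testBit i || y.testBit i) :=
  Nat.testBit_or x y i

theorem land_bit (x y i : ℕ) : (Nat.land x y).testBit i = (x.testBit i && y.testBit i) :=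
  Nat.testBit_and x y i

theorem tb_eq (m l : ℕ) : tb m l = m.testBit l := by
  have h1 : tb m l = Nat.beq ((m >>> l) &&& 1) 1 := rfl
  rw [h1, Nat.and_one_is_mod]
  rw [Nat.testBit_eq_decide_div_mod_eq, Nat.shiftRight_eq_div_pow]
  rcases Nat.mod_two_eq_zero_or_one (m / 2 ^ l) with h | h
  · rw [h]; rfl
  · rw [h]; rfl

theorem allb_sound {f : ℕ → Bool} : ∀ {fuel m : ℕ}, allb f fuel m = true →
    ∀ l, m.testBit l = true → f l = true := by
  intro fuel
  induction fuel with
  | zero => intro m h; exact absurd h (by simp [allb])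
  | succ fuel ih =>
    intro m h l hl
    have h0 : allb f (fuel + 1) m = bi (Nat.beq m 0) true
      (fo (Nat.log2 m) (fun l => an (f l) (fo (Nat.sub m (Nat.pow 2 l)) (fun m' => allb f fuel m')))) := rfl
    rw [h0] at h
    by_cases hm : m = 0
    · rw [hm] at hl; simp at hl
    · rw [beq_false.mpr hm, bi_false, fo_eq, an_iff, fo_eq] at h
      obtain ⟨h1, h2⟩ := h
      have h3 : m < 2 ^ (Nat.log2 m + 1) := Nat.lt_log2_self
      have h4 : 2 ^ Nat.log2 m ≤ m := Nat.log2_self_le hm
      rcases lt_trichotomy l (Nat.log2 m) with h5 | h5 | h5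
      · apply ih h2
        have h6 : m = 2 ^ Nat.log2 m + (m - 2 ^ Nat.log2 m) := by omega
        rw [h6, Nat.testBit_two_pow_add_gt h5] at hl
        exact hl
      · rw [h5]; exact h1
      · exfalso
        have h6 : m < 2 ^ l := lt_of_lt_of_le h3 (Nat.pow_le_pow_right (by norm_num) (by omega))
        rw [Nat.testBit_lt_two_pow h6] at hl
        exact absurd hl (by simp)

/-- Reading a digit. -/
def rd : Cs → ℕ → Option (ℕ × Cs)
  | .nil, _ => none
  | .cons p X P t, 0 => if P ≤ 1 then none else some (X % p, .cons p (X / p) (P / p) t)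
  | .cons p X P t, j + 1 => (rd t j).map (fun r => (r.1, .cons p X P r.2))

theorem pop_eq (cs : Cs) : ∀ (j : ℕ) (kA : Cs → ℕ) (kK : ℕ → Cs → ℕ),
    pop cs j kA kK = match rd cs j with
      | none => kA cs
      | some r => kK r.1 r.2 := by
  induction cs with
  | nil => intro j kA kK; rfl
  | cons p X P t ih =>
    intro j kA kK
    cases j with
    | zero =>
      have h : pop (.cons p X P t) 0 kA kK = bi (Nat.ble P 1) (kA (.cons p X P t))
        (kK (X % p) (.cons p (X / p) (P / p) t)) := rfl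
      rw [h, rd]
      by_cases hP : P ≤ 1
      · rw [ble_iff.mpr hP, bi_true, if_pos hP]
      · rw [ble_false.mpr (by omega), bi_false, if_neg hP]
    | succ j =>
      have h : pop (.cons p X P t) (j + 1) kA kK = pop t j (fun t' => kA (.cons p X P t'))
        (fun d t' => kK d (.cons p X P t')) := rfl
      rw [h, ih, rd]
      cases rd t j <;> rfl

/-- `Co cs cs'`: the residues `cs'` are partial information on the residues `cs`. -/
inductive Co : Cs → Cs → Prop
  | nil : Co .nil .nil
  | cons {p X P X' P' : ℕ} {t t' : Cs} (hp : 1 < p) (a b : ℕ) (hab : b ≤ a) (hP : P = p ^ a)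
      (hP' : P' = p ^ b) (hX : X ≡ X' [MOD P']) (h : Co t t') :
      Co (.cons p X P t) (.cons p X' P' t')

theorem mod_div_pow {p X X' b : ℕ} (h : X ≡ X' [MOD p ^ (b + 1)]) :
    X % p = X' % p ∧ X / p ≡ X' / p [MOD p ^ b] := by
  constructor
  · exact Nat.ModEq.of_dvd (dvd_pow_self p (by omega)) h
  · unfold Nat.ModEq at h ⊢
    rw [← Nat.mod_mul_right_div_self, ← Nat.mod_mul_right_div_self, ← pow_succ', h]

theorem Co.rd_some {cs cs' : Cs} (h : Co cs cs') : ∀ {j d : ℕ} {u' : Cs}, rd cs' j = some (d, u') →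
    ∃ u, rd cs j = some (d, u) ∧ Co u u' := by
  induction h with
  | nil => intro j d u' hj; simp [rd] at hj
  | @cons p X P X' P' t t' hp a b hab hP hP' hX h ih =>
    intro j d u' hj
    cases j with
    | zero =>
      rw [rd] at hj ⊢
      by_cases hb : b = 0
      · subst hb; rw [if_pos (by rw [hP', pow_zero])] at hj; exact absurd hj (by simp)
      · obtain ⟨b', rfl⟩ : ∃ b', b = b' + 1 := ⟨b - 1, by omega⟩
        obtain ⟨a', rfl⟩ : ∃ a', a = a' + 1 := ⟨a - 1, by omega⟩
        have h1 : 1 < P' := by rw [hP']; exact Nat.one_lt_pow (by omega) hp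
        have h2 : 1 < P := by rw [hP]; exact Nat.one_lt_pow (by omega) hp
        rw [if_neg (by omega)] at hj ⊢
        rw [hP'] at hX
        obtain ⟨h3, h4⟩ := mod_div_pow hX
        simp only [Option.some.injEq, Prod.mk.injEq] at hj
        obtain ⟨rfl, rfl⟩ := hj
        refine ⟨_, by rw [h3], Co.cons hp a' b' (by omega) ?_ ?_ ?_ h⟩
        · rw [hP, pow_succ]; exact Nat.mul_div_cancel _ (by omega)
        · rw [hP', pow_succ]; exact Nat.mul_div_cancel _ (by omega)
        · rw [hP', pow_succ, Nat.mul_div_cancel _ (by omega)]; exact h4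
    | succ j =>
      rw [rd, Option.map_eq_some_iff] at hj
      obtain ⟨⟨d1, u1⟩, h1, h2⟩ := hj
      simp only [Prod.mk.injEq] at h2
      obtain ⟨rfl, rfl⟩ := h2
      obtain ⟨u, hu1, hu2⟩ := ih h1
      exact ⟨.cons p X P u, by rw [rd, hu1]; rfl, Co.cons hp a b hab hP hP' hX hu2⟩

theorem Co.rd_none {cs cs' : Cs} (h : Co cs cs') : ∀ {j d : ℕ} {u : Cs}, rd cs' j = none →
    rd cs j = some (d, u) → Co u cs' := by
  induction h with
  | nil => intro j d u' _ hj; simp [rd] at hj
  | @cons p X P X' P' t t' hp a b hab hP hP' hX h ih =>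
    intro j d u hn hj
    cases j with
    | zero =>
      rw [rd] at hn hj
      by_cases hP1 : P' ≤ 1
      · have hb : b = 0 := by
          by_contra hb
          have : 1 < P' := by rw [hP']; exact Nat.one_lt_pow hb hp
          omega
        subst hb
        by_cases hP2 : P ≤ 1
        · rw [if_pos hP2] at hj; exact absurd hj (by simp)
        · rw [if_neg hP2] at hj
          simp only [Option.some.injEq, Prod.mk.injEq] at hj
          obtain ⟨rfl, rfl⟩ := hj
          have ha : a ≠ 0 := by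
            rintro rfl
            rw [hP, pow_zero] at hP2
            exact hP2 le_rfl
          obtain ⟨a', rfl⟩ : ∃ a', a = a' + 1 := ⟨a - 1, by omega⟩
          refine Co.cons hp a' 0 (by omega) ?_ hP' ?_ h
          · rw [hP, pow_succ]; exact Nat.mul_div_cancel _ (by omega)
          · rw [hP', pow_zero]; exact Nat.modEq_one
      · rw [if_neg hP1] at hn; exact absurd hn (by simp)
    | succ j =>
      rw [rd, Option.map_eq_none_iff] at hn
      rw [rd, Option.map_eq_some_iff] at hj
      obtain ⟨⟨d1, u1⟩, h1, h2⟩ := hj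
      simp only [Prod.mk.injEq] at h2
      obtain ⟨rfl, rfl⟩ := h2
      exact Co.cons hp a b hab hP hP' hX (ih hn h1)

theorem lnd_eq (a b : ℕ) : lnd a b = Nat.land a b := by
  cases a with
  | zero => exact (Nat.zero_and b).symm
  | succ k => rfl

theorem Qm_ev (full c' m : ℕ) (t : Tr) (d : ℕ) (ls : List ℕ) (cs : Cs) (c df : ℕ) :
    Qm full (.ev c' m t) d ls cs c df =
      Nat.lor (bi (Nat.ble c c') 0 m) (Qm full t d ls cs c df) := rfl

theorem Qm_nd (full c' : ℕ) (t : Tr) (d : ℕ) (ls : List ℕ) (cs : Cs) (c df : ℕ) :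
    Qm full (.nd c' t) d ls cs c df = match rd cs (hd ls) with
      | none => Nat.land (bi (Nat.ble c c') 0 full)
          (Qm full t ALL (tl ls) cs c (bi (Nat.ble c c') 0 full))
      | some r => Qm full t r.1 (tl ls) r.2 c (bi (Nat.ble c c') 0 full) := by
  have h : Qm full (.nd c' t) d ls cs c df = pop cs (hd ls)
      (fun cs' => lnd (bi (Nat.ble c c') 0 full)
        (Qm full t ALL (tl ls) cs' c (bi (Nat.ble c c') 0 full)))
      (fun d cs' => Qm full t d (tl ls) cs' c (bi (Nat.ble c c') 0 full)) := rfl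
  rw [h, pop_eq]
  simp only [lnd_eq]

theorem Qm_br (full m : ℕ) (l r : Tr) (d : ℕ) (ls : List ℕ) (cs : Cs) (c df : ℕ) :
    Qm full (.br m l r) d ls cs c df = bi (Nat.beq d ALL)
      (Nat.land (Qm full l d ls cs c df) (Qm full r d ls cs c df))
      (bi (Nat.ble m d) (Qm full r d ls cs c df) (Qm full l d ls cs c df)) := by
  rw [← lnd_eq]
  have h : Qm full (.br m l r) d ls cs c df = Bool.rec (motive := fun _ => List ℕ → Cs → ℕ → ℕ → ℕ)
      (Bool.rec (motive := fun _ => List ℕ → Cs → ℕ → ℕ → ℕ) (Qm full l d) (Qm full r d) (Nat.ble m d))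
      (lnf (Qm full l d) (Qm full r d)) (Nat.beq d ALL) ls cs c df := rfl
  rw [h]
  cases Nat.beq d ALL
  · cases Nat.ble m d <;> rfl
  · rfl

theorem Qm_ch (full d' : ℕ) (t : Tr) (d : ℕ) (ls : List ℕ) (cs : Cs) (c df : ℕ) :
    Qm full (.ch d' t) d ls cs c df = bi (Nat.beq d ALL) (Qm full t 0 ls cs c 0)
      (bi (Nat.beq d d') (Qm full t 0 ls cs c 0) df) := rfl

/-- More information kills more lines. -/
theorem Qm_mono (full : ℕ) (T : Tr) : ∀ (ls : List ℕ) (cs cs' : Cs) (c l : ℕ), Co cs cs' →
    (∀ d df, (Qm full T d ls cs' c df).testBit l = true → (Qm full T d ls cs c df).testBit l = true) ∧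
    (∀ d df df', (Qm full T ALL ls cs' c df').testBit l = true → df.testBit l = true →
      (Qm full T d ls cs c df).testBit l = true) := by
  induction T with
  | dd =>
    intro ls cs cs' c l _
    refine ⟨fun d df h => h, fun d df df' h => ?_⟩
    exact absurd h (by simp [Qm])
  | fin c0 =>
    intro ls cs cs' c l _
    refine ⟨fun d df h => h, fun d df df' h => ?_⟩
    exact absurd h (by simp [Qm])
  | ev c' m t ih =>
    intro ls cs cs' c l h
    obtain ⟨h1, h2⟩ := ih ls cs cs' c l h
    refine ⟨fun d df => ?_, fun d df df' => ?_⟩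
    · rw [Qm_ev, Qm_ev, lor_bit, lor_bit, Bool.or_eq_true, Bool.or_eq_true]
      rintro (h3 | h3)
      · exact Or.inl h3
      · exact Or.inr (h1 d df h3)
    · rw [Qm_ev, Qm_ev, lor_bit, lor_bit, Bool.or_eq_true, Bool.or_eq_true]
      rintro (h3 | h3) h4
      · exact Or.inl h3
      · exact Or.inr (h2 d df df' h3 h4)
  | nd c' t ih =>
    intro ls cs cs' c l h
    have key : ∀ d d' df df', (Qm full (.nd c' t) d' ls cs' c df').testBit l = true →
        (Qm full (.nd c' t) d ls cs c df).testBit l = true := by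
      intro d d' df df'
      rw [Qm_nd, Qm_nd]
      rcases h1 : rd cs' (hd ls) with _ | ⟨e', u'⟩
      · rcases h2 : rd cs (hd ls) with _ | ⟨e, u⟩
        · simp only [land_bit, Bool.and_eq_true]
          rintro ⟨h3, h4⟩
          exact ⟨h3, (ih (tl ls) cs cs' c l h).1 _ _ h4⟩
        · simp only [land_bit, Bool.and_eq_true]
          rintro ⟨h3, h4⟩
          exact (ih (tl ls) u cs' c l (h.rd_none h1 h2)).2 _ _ _ h4 h3
      · obtain ⟨u, h2, h3⟩ := h.rd_some h1
        rw [h2]
        simp only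
        exact (ih (tl ls) u u' c l h3).1 _ _
    exact ⟨fun d df => key d d df df, fun d df df' h' _ => key d ALL df df' h'⟩
  | br m x y ihx ihy =>
    intro ls cs cs' c l h
    obtain ⟨hx1, hx2⟩ := ihx ls cs cs' c l h
    obtain ⟨hy1, hy2⟩ := ihy ls cs cs' c l h
    refine ⟨fun d df => ?_, fun d df df' => ?_⟩
    · rw [Qm_br, Qm_br]
      cases Nat.beq d ALL
      · cases Nat.ble m d
        · exact hx1 d df
        · exact hy1 d df
      · simp only [bi_true, land_bit, Bool.and_eq_true]
        exact fun h3 => ⟨hx1 d df h3.1, hy1 d df h3.2⟩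
    · rw [Qm_br, Qm_br]
      have h0 : Nat.beq ALL ALL = true := beq_iff.mpr rfl
      rw [h0, bi_true, land_bit, Bool.and_eq_true]
      rintro ⟨h3, h4⟩ h5
      cases Nat.beq d ALL
      · cases Nat.ble m d
        · exact hx2 d df df' h3 h5
        · exact hy2 d df df' h4 h5
      · simp only [bi_true, land_bit, Bool.and_eq_true]
        exact ⟨hx2 d df df' h3 h5, hy2 d df df' h4 h5⟩
  | ch d' t ih =>
    intro ls cs cs' c l h
    obtain ⟨h1, h2⟩ := ih ls cs cs' c l h
    refine ⟨fun d df => ?_, fun d df df' => ?_⟩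
    · rw [Qm_ch, Qm_ch]
      cases Nat.beq d ALL
      · cases Nat.beq d d'
        · exact fun h => h
        · exact h1 0 0
      · exact h1 0 0
    · rw [Qm_ch, Qm_ch]
      have h0 : Nat.beq ALL ALL = true := beq_iff.mpr rfl
      rw [h0, bi_true]
      intro h3 h5
      cases Nat.beq d ALL
      · cases Nat.beq d d'
        · exact h5
        · exact h1 0 0 h3
      · exact h1 0 0 h3

/-- The flat order on final codes. -/
def Dm (a b : ℕ) : Prop := a = 0 ∨ b = a ∨ b = FAIL

theorem Dm.refl (a : ℕ) : Dm a a := Or.inr (Or.inl rfl)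

theorem FAIL_ne : FAIL ≠ 0 := by decide

theorem Dm.trans {a b c : ℕ} (h1 : Dm a b) (h2 : Dm b c) : Dm a c := by
  rcases h1 with h | h | h
  · exact Or.inl h
  · rw [h] at h2; exact h2
  · rw [h] at h2
    rcases h2 with h3 | h3 | h3
    · exact absurd h3 FAIL_ne
    · exact Or.inr (Or.inr h3)
    · exact Or.inr (Or.inr h3)

theorem comb_eq (a b : ℕ) : comb a b = if a = 0 then b else if b = 0 then a else
    if a = b then a else FAIL := by
  have h : comb a b = bi (Nat.beq a 0) b (bi (Nat.beq b 0) a (bi (Nat.beq a b) a FAIL)) := rfl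
  rw [h]
  by_cases h1 : a = 0
  · rw [beq_iff.mpr h1, if_pos h1, bi_true]
  · rw [beq_false.mpr h1, if_neg h1, bi_false]
    by_cases h2 : b = 0
    · rw [beq_iff.mpr h2, if_pos h2, bi_true]
    · rw [beq_false.mpr h2, if_neg h2, bi_false]
      by_cases h3 : a = b
      · rw [beq_iff.mpr h3, if_pos h3, bi_true]
      · rw [beq_false.mpr h3, if_neg h3, bi_false]

theorem Dm.left (a b : ℕ) : Dm a (comb a b) := by
  rw [comb_eq]; unfold Dm; split_ifs <;> simp_all

theorem Dm.right (a b : ℕ) : Dm b (comb a b) := by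
  rw [comb_eq]; unfold Dm; split_ifs <;> simp_all

theorem Dm.comb {a b c : ℕ} (h1 : Dm a c) (h2 : Dm b c) : Dm (comb a b) c := by
  rw [comb_eq]
  split_ifs with h3 h4 h5
  · exact h2
  · exact h1
  · exact h1
  · rcases h1 with h | h | h
    · exact absurd h h3
    · rcases h2 with h' | h' | h'
      · exact absurd h' h4
      · exact absurd (h.symm.trans h') h5
      · exact Or.inr (Or.inr h')
    · exact Or.inr (Or.inr h)

theorem Qc_ev (c' m : ℕ) (t : Tr) (d : ℕ) (ls : List ℕ) (cs : Cs) (df : ℕ) :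
    Qc (.ev c' m t) d ls cs df = Qc t d ls cs df := rfl

theorem Qc_nd (c' : ℕ) (t : Tr) (d : ℕ) (ls : List ℕ) (cs : Cs) (df : ℕ) :
    Qc (.nd c' t) d ls cs df = match rd cs (hd ls) with
      | none => comb (bi (Nat.ble BIG c') FAIL 0) (Qc t ALL (tl ls) cs 0)
      | some r => Qc t r.1 (tl ls) r.2 (bi (Nat.ble BIG c') FAIL 0) := by
  have h : Qc (.nd c' t) d ls cs df = pop cs (hd ls)
      (fun cs' => comb (bi (Nat.ble BIG c') FAIL 0) (Qc t ALL (tl ls) cs' 0))
      (fun d cs' => Qc t d (tl ls) cs' (bi (Nat.ble BIG c') FAIL 0)) := rfl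
  rw [h, pop_eq]

theorem Qc_br (m : ℕ) (l r : Tr) (d : ℕ) (ls : List ℕ) (cs : Cs) (df : ℕ) :
    Qc (.br m l r) d ls cs df = bi (Nat.beq d ALL)
      (comb (Qc l d ls cs df) (Qc r d ls cs df))
      (bi (Nat.ble m d) (Qc r d ls cs df) (Qc l d ls cs df)) := rfl

theorem Qc_ch (d' : ℕ) (t : Tr) (d : ℕ) (ls : List ℕ) (cs : Cs) (df : ℕ) :
    Qc (.ch d' t) d ls cs df = bi (Nat.beq d ALL) (Qc t 0 ls cs 0)
      (bi (Nat.beq d d') (Qc t 0 ls cs 0) df) := rfl

theorem Qc_mono (T : Tr) : ∀ (ls : List ℕ) (cs cs' : Cs), Co cs cs' →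
    (∀ d df, Dm (Qc T d ls cs df) (Qc T d ls cs' df)) ∧
    (∀ d df df', Dm (Qc T d ls cs df) (comb df (Qc T ALL ls cs' df'))) := by
  induction T with
  | dd =>
    intro ls cs cs' _
    exact ⟨fun d df => Dm.refl _, fun d df df' => Or.inl rfl⟩
  | fin c0 =>
    intro ls cs cs' _
    exact ⟨fun d df => Dm.refl _, fun d df df' => Dm.right _ _⟩
  | ev c' m t ih =>
    intro ls cs cs' h
    exact ih ls cs cs' h
  | nd c' t ih =>
    intro ls cs cs' h
    have key : ∀ d d' df df', Dm (Qc (.nd c' t) d ls cs df) (Qc (.nd c' t) d' ls cs' df') := by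
      intro d d' df df'
      rw [Qc_nd, Qc_nd]
      rcases h1 : rd cs' (hd ls) with _ | ⟨e', u'⟩
      · rcases h2 : rd cs (hd ls) with _ | ⟨e, u⟩
        · simp only
          exact Dm.comb (Dm.left _ _) (((ih (tl ls) cs cs' h).1 _ _).trans (Dm.right _ _))
        · simp only
          exact (ih (tl ls) u cs' (h.rd_none h1 h2)).2 _ _ _
      · obtain ⟨u, h2, h3⟩ := h.rd_some h1
        rw [h2]
        exact (ih (tl ls) u u' h3).1 _ _
    exact ⟨fun d df => key d d df df, fun d df df' => (key d ALL df df').trans (Dm.right _ _)⟩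
  | br m x y ihx ihy =>
    intro ls cs cs' h
    obtain ⟨hx1, hx2⟩ := ihx ls cs cs' h
    obtain ⟨hy1, hy2⟩ := ihy ls cs cs' h
    refine ⟨fun d df => ?_, fun d df df' => ?_⟩
    · rw [Qc_br, Qc_br]
      cases Nat.beq d ALL
      · cases Nat.ble m d
        · exact hx1 d df
        · exact hy1 d df
      · exact Dm.comb ((hx1 d df).trans (Dm.left _ _)) ((hy1 d df).trans (Dm.right _ _))
    · rw [Qc_br, Qc_br]
      have h0 : Nat.beq ALL ALL = true := beq_iff.mpr rfl
      rw [h0, bi_true]
      have e1 : Dm (Qc x d ls cs df) (comb df (comb (Qc x ALL ls cs' df') (Qc y ALL ls cs' df'))) :=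
        (hx2 d df df').trans (Dm.comb (Dm.left _ _) ((Dm.left _ _).trans (Dm.right _ _)))
      have e2 : Dm (Qc y d ls cs df) (comb df (comb (Qc x ALL ls cs' df') (Qc y ALL ls cs' df'))) :=
        (hy2 d df df').trans (Dm.comb (Dm.left _ _) ((Dm.right _ _).trans (Dm.right _ _)))
      cases Nat.beq d ALL
      · cases Nat.ble m d
        · exact e1
        · exact e2
      · exact Dm.comb e1 e2
  | ch d' t ih =>
    intro ls cs cs' h
    obtain ⟨h1, h2⟩ := ih ls cs cs' h
    refine ⟨fun d df => ?_, fun d df df' => ?_⟩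
    · rw [Qc_ch, Qc_ch]
      cases Nat.beq d ALL
      · cases Nat.beq d d'
        · exact Dm.refl _
        · exact h1 0 0
      · exact h1 0 0
    · rw [Qc_ch, Qc_ch]
      have h0 : Nat.beq ALL ALL = true := beq_iff.mpr rfl
      rw [h0, bi_true]
      cases Nat.beq d ALL
      · cases Nat.beq d d'
        · exact Dm.left _ _
        · exact (h1 0 0).trans (Dm.right _ _)
      · exact (h1 0 0).trans (Dm.right _ _)

/-- `Img mo cs ec`: the exact residues `ec` are the images of the residues `cs`. -/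
inductive Img : Mo → Cs → Cs → Prop
  | nil : Img .nil .nil .nil
  | cons {a b c d : ℕ} {mo : Mo} {p X P : ℕ} {t : Cs} {y Q : ℕ} {t' : Cs} (hp : p.Prime) (k K : ℕ)
      (hk : k ≤ K) (hP : P = p ^ k) (hQ : Q = p ^ K)
      (h : 1 ≤ k → ¬ p ∣ c * X + d ∧ (c * X + d) * y ≡ a * X + b [MOD P])
      (ht : Img mo t t') : Img (.cons a b c d mo) (.cons p X P t) (.cons p y Q t')

/-- Map on the results. -/
def Rs.mp (r : Rs) (f : Cs → Cs) : Rs :=
  match r with
  | .dead => .dead
  | .bad => .bad
  | .ok t => .ok (f t)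

theorem app_cons (a b c d : ℕ) (mo : Mo) (p X P : ℕ) (t : Cs) :
    app (.cons a b c d mo) (.cons p X P t) = bi (Nat.ble P 1)
      ((app mo t).mp (fun t' => .cons p 0 P t'))
      (bi (Nat.beq ((c * X + d) % P % p) 0) .dead
        (bi (Nat.beq (((c * X + d) % P) * inv p P ((c * X + d) % P) % P) 1)
          ((app mo t).mp
            (fun t' => .cons p ((a * X + b) * inv p P ((c * X + d) % P) % P) P t'))
          .bad)) := by
  have h : app (.cons a b c d mo) (.cons p X P t) = bi (Nat.ble P 1)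
            (Rs.rec (motive := fun _ => Rs) Rs.dead Rs.bad (fun t' => Rs.ok (Cs.cons p 0 P t')) (app mo t))
            (fo ((c * X + d) % P) (fun D =>
              bi (Nat.beq (D % p) 0) Rs.dead
                (fo (inv p P D) (fun y =>
                  bi (Nat.beq ((D * y) % P) 1)
                    (fo (((a * X + b) * y) % P) (fun X' =>
                      Rs.rec (motive := fun _ => Rs) Rs.dead Rs.bad
                        (fun t' => Rs.ok (Cs.cons p X' P t')) (app mo t)))
                    Rs.bad)))) := rfl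
  rw [h]
  simp only [fo_eq]
  cases app mo t <;> rfl

theorem app_sound {mo : Mo} {cs ec : Cs} (h : Img mo cs ec) :
    app mo cs = .bad ∨ ∃ cs', app mo cs = .ok cs' ∧ Co ec cs' := by
  induction h with
  | nil => exact Or.inr ⟨.nil, rfl, Co.nil⟩
  | @cons a b c d mo p X P t y Q t' hp k K hk hP hQ h ht ih =>
    rw [app_cons]
    by_cases hk0 : k = 0
    · subst hk0
      have hP1 : P = 1 := by rw [hP, pow_zero]
      rw [ble_iff.mpr (by omega), bi_true]
      rcases ih with ih | ⟨cs', ih, hc⟩
      · rw [ih]; exact Or.inl rfl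
      · rw [ih]
        refine Or.inr ⟨_, rfl, Co.cons hp.one_lt K 0 (by omega) hQ hP ?_ hc⟩
        rw [hP1]; exact Nat.modEq_one
    · obtain ⟨h1, h2⟩ := h (by omega)
      have hP1 : 1 < P := by rw [hP]; exact Nat.one_lt_pow hk0 hp.one_lt
      have hpP : p ∣ P := by rw [hP]; exact dvd_pow_self p hk0
      rw [ble_false.mpr hP1, bi_false]
      have h3 : (c * X + d) % P % p ≠ 0 := by
        intro h4
        rw [Nat.mod_mod_of_dvd _ hpP] at h4
        exact h1 (Nat.dvd_of_mod_eq_zero h4)
      rw [beq_false.mpr h3, bi_false]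
      by_cases h4 : ((c * X + d) % P) * inv p P ((c * X + d) % P) % P = 1
      · rw [beq_iff.mpr h4, bi_true]
        rcases ih with ih | ⟨cs', ih, hc⟩
        · rw [ih]; exact Or.inl rfl
        · rw [ih]
          refine Or.inr ⟨_, rfl, Co.cons hp.one_lt K k hk hQ hP ?_ hc⟩
          set I := inv p P ((c * X + d) % P) with hI
          have h5 : (c * X + d) * I ≡ 1 [MOD P] := by
            have h6 : (c * X + d) % P * I ≡ (c * X + d) * I [MOD P] :=
              (Nat.mod_modEq _ _).mul_right _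
            have h7 : (c * X + d) % P * I ≡ 1 [MOD P] := by
              unfold Nat.ModEq; rw [h4, Nat.mod_eq_of_lt hP1]
            exact h6.symm.trans h7
          calc y = 1 * y := (one_mul y).symm
            _ ≡ ((c * X + d) * I) * y [MOD P] := (h5.symm.mul_right y)
            _ = ((c * X + d) * y) * I := by ring
            _ ≡ (a * X + b) * I [MOD P] := h2.mul_right I
            _ ≡ (a * X + b) * I % P [MOD P] := (Nat.mod_modEq _ _).symm
      · rw [beq_false.mpr h4, bi_false]; exact Or.inl rfl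

theorem Img.co {mo : Mo} {cs ec : Cs} (h : Img mo cs ec) : ∀ {cs' : Cs}, Co cs cs' →
    Img mo cs' ec := by
  induction h with
  | nil => intro cs' h; cases h; exact Img.nil
  | @cons a b c d mo p X P t y Q t' hp k K hk hP hQ h ht ih =>
    intro cs' hc
    cases hc with
    | @cons _ _ _ X' P' _ u' hp1 a1 b1 hab hP1 hP' hX hco =>
      have hka : a1 = k := Nat.pow_right_injective hp.two_le (by
        show p ^ a1 = p ^ k
        rw [← hP1, hP])
      subst hka
      refine Img.cons hp b1 K (by omega) hP' hQ ?_ (ih hco)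
      intro hb
      obtain ⟨h1, h2⟩ := h (by omega)
      have hpP' : p ∣ P' := by rw [hP']; exact dvd_pow_self p (by omega)
      have hX' : c * X + d ≡ c * X' + d [MOD P'] := (hX.mul_left c).add_right d
      refine ⟨fun h3 => h1 ?_, ?_⟩
      · exact (Nat.ModEq.dvd_iff (hX'.of_dvd hpP') (dvd_refl p)).mpr h3
      · have hPP : P' ∣ P := by rw [hP', hP]; exact pow_dvd_pow p hab
        exact ((hX'.mul_right y).symm.trans (h2.of_dvd hPP)).trans ((hX.mul_left a).add_right b)

theorem getc_nil {α : Type} (z : α) (k : ℕ → ℕ → ℕ → α) (i : ℕ) : getc z .nil k i = z := rfl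
theorem getc_zero {α : Type} (z : α) (p X P : ℕ) (t : Cs) (k : ℕ → ℕ → ℕ → α) :
    getc z (.cons p X P t) k 0 = k p X P := rfl
theorem getc_succ {α : Type} (z : α) (p X P : ℕ) (t : Cs) (k : ℕ → ℕ → ℕ → α) (i : ℕ) :
    getc z (.cons p X P t) k (i + 1) = getc z t k i := rfl

theorem shiftc_zero (p X P : ℕ) (t : Cs) :
    shiftc (.cons p X P t) 0 = .cons p (X / p) (P / p) t := rfl
theorem shiftc_succ (p X P : ℕ) (t : Cs) (i : ℕ) :
    shiftc (.cons p X P t) (i + 1) = .cons p X P (shiftc t i) := rfl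

theorem push_zero (p X P : ℕ) (t : Cs) (d : ℕ) :
    push (.cons p X P t) d 0 = .cons p (X + d * P) (P * p) t := by
  have h : push (.cons p X P t) d 0 =
    fo (X + d * P) (fun X' => fo (P * p) (fun P' => Cs.cons p X' P' t)) := rfl
  rw [h, fo_eq, fo_eq]
theorem push_succ (p X P : ℕ) (t : Cs) (d i : ℕ) :
    push (.cons p X P t) d (i + 1) = .cons p X P (push t d i) := rfl

end Pool.Agent.Work.MP_9954fe_nt
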