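import Pool.Agent.Work.MP_9954fe_nt.Sem
import Pool.Agent.Work.MP_9954fe_nt.Trie

/-!
Moves of corners and their effect on known residues.
-/

set_option autoImplicit false

namespace Pool.Agent.Work.MP_9954fe_nt

/-- The exact residues. -/
def E : List PD → List ℕ → Cs
  | P :: Ps, x :: xs => .cons P.p x (P.p ^ P.K) (E Ps xs)
  | _, _ => .nil

/-- The `j`th component. -/
def nth : Cs → ℕ → Option (ℕ × ℕ × ℕ)
  | .nil, _ => none
  | .cons p X P _, 0 => some (p, X, P)
  | .cons _ _ _ t, j + 1 => nth t j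

theorem getc_eq {α : Type} (z : α) (k : ℕ → ℕ → ℕ → α) (cs : Cs) : ∀ i,
    getc z cs k i = match nth cs i with
      | none => z
      | some r => k r.1 r.2.1 r.2.2 := by
  induction cs with
  | nil => intro i; rfl
  | cons p X P t ih =>
    intro i
    cases i with
    | zero => rfl
    | succ i => rw [getc_succ, ih]; rfl

theorem getc_true {cs : Cs} {k : ℕ → ℕ → ℕ → Bool} {i : ℕ} (h : getc false cs k i = true) :
    ∃ p X P, nth cs i = some (p, X, P) ∧ k p X P = true := by
  rw [getc_eq] at h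
  rcases h1 : nth cs i with _ | ⟨p, X, P⟩
  · rw [h1] at h; simp at h
  · rw [h1] at h; exact ⟨p, X, P, rfl, h⟩

/-- `er` are the residues left and `cs` the residues known after reading some digits. -/
inductive St : List PD → List ℕ → Cs → Cs → Prop
  | nil : St [] [] .nil .nil
  | cons {P : PD} {Ps : List PD} {x : ℕ} {xs : List ℕ} {er cs : Cs} (hp : P.p.Prime) (k : ℕ)
      (hk : k ≤ P.K) (h : St Ps xs er cs) :
      St (P :: Ps) (x :: xs) (.cons P.p (x / P.p ^ k) (P.p ^ (P.K - k)) er)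
        (.cons P.p (x % P.p ^ k) (P.p ^ k) cs)

theorem St.co {Ps : List PD} {xs : List ℕ} {er cs : Cs} (h : St Ps xs er cs) : Co (E Ps xs) cs := by
  induction h with
  | nil => exact Co.nil
  | cons hp k hk h ih => exact Co.cons hp.one_lt _ k hk rfl rfl (Nat.mod_modEq _ _).symm ih

theorem St.nth {Ps : List PD} {xs : List ℕ} {er cs : Cs} (h : St Ps xs er cs) :
    ∀ {j p X P : ℕ}, nth cs j = some (p, X, P) → ∃ (D : PD) (x k : ℕ), Ps[j]? = some D ∧
      xs[j]? = some x ∧ p = D.p ∧ D.p.Prime ∧ k ≤ D.K ∧ X = x % D.p ^ k ∧ P = D.p ^ k ∧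
      (k < D.K → ∃ er', rd er j = some (x / D.p ^ k % D.p, er') ∧
        St Ps xs er' (push cs (x / D.p ^ k % D.p) j)) := by
  induction h with
  | nil => intro j p X P hj; simp [MP_9954fe_nt.nth] at hj
  | @cons D Ps x xs er cs hp k hk h ih =>
    intro j p X P hj
    cases j with
    | zero =>
      simp only [MP_9954fe_nt.nth, Option.some.injEq, Prod.mk.injEq] at hj
      obtain ⟨rfl, rfl, rfl⟩ := hj
      refine ⟨D, x, k, rfl, rfl, rfl, hp, hk, rfl, rfl, fun hkK => ?_⟩
      have h1 : 1 < D.p ^ (D.K - k) := Nat.one_lt_pow (by omega) hp.one_lt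
      refine ⟨.cons D.p (x / D.p ^ (k + 1)) (D.p ^ (D.K - (k + 1))) er, ?_, ?_⟩
      · rw [rd, if_neg (by omega)]
        have h2 : D.p ^ (D.K - k) / D.p = D.p ^ (D.K - (k + 1)) := by
          rw [show D.K - k = (D.K - (k + 1)) + 1 by omega, pow_succ,
            Nat.mul_div_cancel _ hp.pos]
        rw [h2, Nat.div_div_eq_div_mul, ← pow_succ]
      · rw [push_zero]
        have h3 : x % D.p ^ k + x / D.p ^ k % D.p * D.p ^ k = x % D.p ^ (k + 1) := by
          rw [pow_succ, Nat.mod_mul]; ring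
        rw [h3, ← pow_succ]
        exact St.cons hp (k + 1) (by omega) h
    | succ j =>
      obtain ⟨D', x', k', h1, h2, h3, h4, h5, h6, h7, h8⟩ := ih hj
      refine ⟨D', x', k', h1, h2, h3, h4, h5, h6, h7, fun hkK => ?_⟩
      obtain ⟨er', h9, h10⟩ := h8 hkK
      refine ⟨.cons D.p (x / D.p ^ k) (D.p ^ (D.K - k)) er', ?_, ?_⟩
      · rw [rd, h9]; rfl
      · rw [push_succ]; exact St.cons hp k hk h10

theorem Co.shift {cs cs' : Cs} (h : Co cs cs') : ∀ {i p X P : ℕ}, nth cs' i = some (p, X, P) → 1 < P →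
    Co (shiftc cs i) (shiftc cs' i) := by
  induction h with
  | nil => intro i p X P hi; simp [MP_9954fe_nt.nth] at hi
  | @cons p X P X' P' t t' hp a b hab hP hP' hX h ih =>
    intro i q Y Q hi hQ
    cases i with
    | zero =>
      simp only [MP_9954fe_nt.nth, Option.some.injEq, Prod.mk.injEq] at hi
      obtain ⟨rfl, rfl, rfl⟩ := hi
      have hb : b ≠ 0 := by rintro rfl; rw [hP', pow_zero] at hQ; omega
      obtain ⟨b', rfl⟩ : ∃ b', b = b' + 1 := ⟨b - 1, by omega⟩
      obtain ⟨a', rfl⟩ : ∃ a', a = a' + 1 := ⟨a - 1, by omega⟩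
      rw [shiftc_zero, shiftc_zero]
      rw [hP'] at hX
      obtain ⟨h3, h4⟩ := mod_div_pow hX
      refine Co.cons hp a' b' (by omega) ?_ ?_ ?_ h
      · rw [hP, pow_succ]; exact Nat.mul_div_cancel _ (by omega)
      · rw [hP', pow_succ]; exact Nat.mul_div_cancel _ (by omega)
      · rw [hP', pow_succ, Nat.mul_div_cancel _ (by omega)]; exact h4
    | succ i =>
      rw [shiftc_succ, shiftc_succ]
      exact Co.cons hp a b hab hP hP' hX (ih hi hQ)

/-- Moebius maps of primes coprime to the factor of the move. -/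
def MoJ (M : M3) (q : ℕ) : List PD → Mo → List ℤ → Prop
  | [], .nil, _ => True
  | P :: Ps, .cons a b c d mo, mu :: mus =>
    ¬ (P.p : ℤ) ∣ (q : ℤ) ∧ TrI P ((P.p : ℤ) ^ P.K) M a b c d mu ∧ MoJ M q Ps mo mus
  | _, _, _ => False

/-- Moebius maps of a move in direction `i`. -/
def MoI (M : M3) (l q : ℕ) : ℕ → List PD → Mo → List ℤ → Prop
  | 0, P :: Ps, .cons a b c d mo, mu :: mus =>
    q = P.p ∧ OwI P M l a b c d mu ∧ MoJ M q Ps mo mus
  | i + 1, P :: Ps, .cons a b c d mo, mu :: mus =>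
    ¬ (P.p : ℤ) ∣ (q : ℤ) ∧ TrI P ((P.p : ℤ) ^ P.K) M a b c d mu ∧ MoI M l q i Ps mo mus
  | _, _, _, _ => False

theorem modEq_of {p k : ℕ} {c x d y a b : ℕ}
    (h : ((p : ℤ) ^ k) ∣ ((c : ℤ) * x + d) * y - (a * x + b)) :
    (c * x + d) * y ≡ a * x + b [MOD p ^ k] := by
  have h2 : a * x + b ≡ (c * x + d) * y [MOD p ^ k] := by
    rw [Nat.modEq_iff_dvd]
    push_cast
    exact h
  exact h2.symm

theorem not_dvd_of {p : ℕ} {c x d : ℕ} (h : ¬ (p : ℤ) ∣ (c : ℤ) * x + d) : ¬ p ∣ c * x + d := by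
  intro h'
  apply h
  have : ((p : ℕ) : ℤ) ∣ ((c * x + d : ℕ) : ℤ) := Int.natCast_dvd_natCast.mpr h'
  push_cast at this
  exact this

/-- The ends of `v`. -/
abbrev Ends (v : V) (Ps : List PD) (xs : List ℕ) : Prop := List.Forall₂ (fun P x => End P v x) Ps xs

theorem MoJ.img {M : M3} {q : ℕ} {n : ℤ} {v v' : V} (hr : ¬ Rep n) (hv' : Qf v' = n)
    (hM : M.mul v = smul (q : ℤ) v') : ∀ {Ps : List PD} {mo : Mo} {mus : List ℤ} {xs : List ℕ},
    (∀ P ∈ Ps, P.Ok) → MoJ M q Ps mo mus → Ends v Ps xs →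
    ∃ ys, Ends v' Ps ys ∧ Img mo (E Ps xs) (E Ps ys) := by
  intro Ps
  induction Ps with
  | nil =>
    intro mo mus xs hok h he
    cases he
    cases mo with
    | nil => exact ⟨[], List.Forall₂.nil, Img.nil⟩
    | cons a b c d mo => simp [MoJ] at h
  | cons P Ps ih =>
    intro mo mus xs hok h he
    cases he with
    | @cons _ x _ xs hx hxs =>
      cases mo with
      | nil => simp [MoJ] at h
      | cons a b c d mo =>
        cases mus with
        | nil => simp [MoJ] at h
        | cons mu mus =>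
          obtain ⟨h1, h2, h3⟩ := h
          obtain ⟨ys, hys, hi⟩ := ih (fun P hP => hok P (List.mem_cons_of_mem _ hP)) h3 hxs
          have hP := hok P (List.mem_cons_self ..)
          obtain ⟨h4, y, h5, h6⟩ := h2.end_ hP hr hv' h1 hM hx
          refine ⟨y :: ys, List.Forall₂.cons h6 hys, ?_⟩
          exact Img.cons hP.prime P.K P.K le_rfl rfl rfl (fun _ => ⟨not_dvd_of h4, modEq_of h5⟩) hi

theorem MoI.img {M : M3} {q l : ℕ} {n : ℤ} {v v' : V} (hr : ¬ Rep n) (hv' : Qf v' = n)
    (hM : M.mul v = smul (q : ℤ) v') : ∀ {Ps : List PD} {mo : Mo} {mus : List ℤ} {xs : List ℕ}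
    {i : ℕ}, (∀ P ∈ Ps, P.Ok) → (∀ P ∈ Ps, ¬ (P.p : ℤ) ∣ n) → MoI M l q i Ps mo mus → Ends v Ps xs →
    (∀ P x, Ps[i]? = some P → xs[i]? = some x → x % P.p = l) →
    ∃ ys, Ends v' Ps ys ∧ Img mo (shiftc (E Ps xs) i) (E Ps ys) := by
  intro Ps
  induction Ps with
  | nil =>
    intro mo mus xs i hok hn h he hl
    simp [MoI] at h
  | cons P Ps ih =>
    intro mo mus xs i hok hn h he hl
    cases he with
    | @cons _ x _ xs hx hxs =>
      cases mo with
      | nil => cases i <;> simp [MoI] at h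
      | cons a b c d mo =>
        cases mus with
        | nil => cases i <;> simp [MoI] at h
        | cons mu mus =>
          have hP := hok P (List.mem_cons_self ..)
          have hok' : ∀ P ∈ Ps, P.Ok := fun P hP => hok P (List.mem_cons_of_mem _ hP)
          have hn' : ∀ P ∈ Ps, ¬ (P.p : ℤ) ∣ n := fun P hP => hn P (List.mem_cons_of_mem _ hP)
          cases i with
          | zero =>
            obtain ⟨h1, h2, h3⟩ := h
            obtain ⟨ys, hys, hi⟩ := h3.img hr hv' hM hok' hxs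
            have hl0 := hl P x rfl rfl
            rw [h1] at hM
            obtain ⟨h4, y, h5, h6⟩ := h2.end_ hP hr (hn P (List.mem_cons_self ..)) hv' hM hx hl0
            refine ⟨y :: ys, List.Forall₂.cons h6 hys, ?_⟩
            have hK := hP.K2
            have h7 : P.p ^ P.K / P.p = P.p ^ (P.K - 1) := by
              conv_lhs => rw [show P.K = (P.K - 1) + 1 by omega, pow_succ]
              exact Nat.mul_div_cancel _ hP.prime.pos
            rw [E, shiftc_zero, h7]
            exact Img.cons hP.prime (P.K - 1) P.K (by omega) rfl rfl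
              (fun _ => ⟨not_dvd_of h4, modEq_of h5⟩) hi
          | succ i =>
            obtain ⟨h1, h2, h3⟩ := h
            obtain ⟨ys, hys, hi⟩ := ih hok' hn' h3 hxs (fun P x h8 h9 => hl P x h8 h9)
            obtain ⟨h4, y, h5, h6⟩ := h2.end_ hP hr hv' h1 hM hx
            refine ⟨y :: ys, List.Forall₂.cons h6 hys, ?_⟩
            rw [E, shiftc_succ]
            exact Img.cons hP.prime P.K P.K le_rfl rfl rfl (fun _ => ⟨not_dvd_of h4, modEq_of h5⟩) hi

/-- Soundness of the test of an image. -/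
theorem sg_sound {p : ℕ} (hp : p.Prime) {a b c d m l x y : ℕ} (hs : sg p a b c d m l = true)
    (hx : x ≡ l [MOD p]) (h1 : ¬ p ∣ c * x + d) (h2 : (c * x + d) * y ≡ a * x + b [MOD p]) :
    m.testBit (y % p) = true := by
  have h0 : sg p a b c d m l = fo (Nat.mod (c * l + d) p) (fun D => bi (Nat.beq D 0) true
    (tb m (Nat.mod ((a * l + b) * (Nat.pow D (p - 2))) p))) := rfl
  rw [h0, fo_eq] at hs
  have h3 : c * x + d ≡ c * l + d [MOD p] := (hx.mul_left c).add_right d
  have h4 : ¬ p ∣ c * l + d := by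
    rw [← h3.dvd_iff (dvd_refl p)]; exact h1
  have h5 : Nat.mod (c * l + d) p ≠ 0 := fun h => h4 (Nat.dvd_of_mod_eq_zero h)
  rw [beq_false.mpr h5, bi_false, tb_eq] at hs
  have h6 : y % p = Nat.mod ((a * l + b) * (Nat.pow (Nat.mod (c * l + d) p) (p - 2))) p := by
    have h7 : y ≡ (a * l + b) * ((c * l + d) % p) ^ (p - 2) [MOD p] := by
      set D := (c * l + d) % p with hD
      have h8 : D ^ (p - 2) * D ≡ 1 [MOD p] := by
        rw [← pow_succ]
        have h9 : p - 2 + 1 = p - 1 := by have := hp.two_le; omega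
        rw [h9]
        have hc : D.Coprime p := by
          rw [Nat.coprime_comm, hp.coprime_iff_not_dvd]
          intro h10
          exact h5 (Nat.eq_zero_of_dvd_of_lt h10 (Nat.mod_lt _ hp.pos))
        have := Nat.ModEq.pow_totient hc
        rwa [Nat.totient_prime hp] at this
      have h11 : (c * x + d) ≡ D [MOD p] := h3.trans (Nat.mod_modEq _ _).symm
      calc y = 1 * y := (one_mul y).symm
        _ ≡ (D ^ (p - 2) * D) * y [MOD p] := h8.symm.mul_right y
        _ = D ^ (p - 2) * (D * y) := by ring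
        _ ≡ D ^ (p - 2) * ((c * x + d) * y) [MOD p] := (h11.symm.mul_right y).mul_left _
        _ ≡ D ^ (p - 2) * (a * x + b) [MOD p] := h2.mul_left _
        _ ≡ D ^ (p - 2) * (a * l + b) [MOD p] := ((hx.mul_left a).add_right b).mul_left _
        _ = (a * l + b) * D ^ (p - 2) := by ring
    exact h7
  rw [h6]; exact hs

end Pool.Agent.Work.MP_9954fe_nt
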