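import Pool.Agent.Work.MP_9954fe_nt.Check

/-!
Number theory of the rank two argument: ends of a vector at a prime, transport by a move, Hensel.
-/

set_option autoImplicit false

namespace Pool.Agent.Work.MP_9954fe_nt

/-- Data of a prime: precision `K` and a parametrised conic `A x^2 + B x + C` of covectors. -/
structure PD where
  (p K : ℕ) (A B C : V)

/-- `u A + v B + w C`. -/
def PD.cov (P : PD) (u v w : ℤ) : V :=
  (u * P.A.1 + v * P.B.1 + w * P.C.1, u * P.A.2.1 + v * P.B.2.1 + w * P.C.2.1,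
    u * P.A.2.2 + v * P.B.2.2 + w * P.C.2.2)

/-- The covector with parameter `x`. -/
def PD.lam (P : PD) (x : ℤ) : V := P.cov (x ^ 2) x 1

/-- `M` is congruent to the matrix of rank one `s (x) l`. -/
def Outer (p : ℤ) (M : M3) (s l : V) : Prop :=
  (p ∣ M.a - s.1 * l.1 ∧ p ∣ M.b - s.1 * l.2.1 ∧ p ∣ M.c - s.1 * l.2.2) ∧
  (p ∣ M.d - s.2.1 * l.1 ∧ p ∣ M.e - s.2.1 * l.2.1 ∧ p ∣ M.f - s.2.1 * l.2.2) ∧
  (p ∣ M.g - s.2.2 * l.1 ∧ p ∣ M.h - s.2.2 * l.2.1 ∧ p ∣ M.i - s.2.2 * l.2.2)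

/-- The covector `l` is of the first type at `p`. -/
def T1 (p : ℕ) (l : V) : Prop :=
  ∃ (N : M3) (s : V), (∀ v, Q1 (N.mul v) = (p : ℤ) ^ 2 * Qf v) ∧ Outer p N s l

/-- Validity of the data of a prime. -/
structure PD.Ok (P : PD) : Prop where
  prime : P.p.Prime
  K2 : 2 ≤ P.K
  small : P.p < 1000
  ten : ¬ (P.p : ℤ) ∣ 10
  disc : ∃ s : ℤ, ¬ (P.p : ℤ) ∣ s ∧ ∀ v, (P.p : ℤ) ∣
    (dot P.B v) ^ 2 - 4 * dot P.A v * dot P.C v + 10 * s ^ 2 * Qf v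
  inf : T1 P.p P.A

/-- `x` is the parameter of an end of `v`. -/
def End (P : PD) (v : V) (x : ℕ) : Prop := ((P.p : ℤ) ^ P.K) ∣ dot (P.lam x) v

/-- `l` is the parameter of a line of `v`. -/
def Line (P : PD) (v : V) (l : ℕ) : Prop := l < P.p ∧ (P.p : ℤ) ∣ dot (P.lam l) v

theorem dot_cov (P : PD) (u v w : ℤ) (z : V) :
    dot (P.cov u v w) z = u * dot P.A z + v * dot P.B z + w * dot P.C z := by
  simp only [dot, PD.cov]; ring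

theorem dot_lam (P : PD) (x : ℤ) (z : V) :
    dot (P.lam x) z = x ^ 2 * dot P.A z + x * dot P.B z + dot P.C z := by
  rw [PD.lam, dot_cov]; ring

theorem dot_tmul (M : M3) (l v : V) : dot (M.tmul l) v = dot l (M.mul v) := by
  simp only [dot, M3.tmul, M3.mul]; ring

/-- If `l` kills `v` modulo `p` then `M v` is divisible by `p`. -/
theorem Outer.mul_dvd {p : ℤ} {M : M3} {s l : V} (h : Outer p M s l) {v : V} (hv : p ∣ dot l v) :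
    ∃ u : V, M.mul v = (p * u.1, p * u.2.1, p * u.2.2) := by
  obtain ⟨⟨a, b, c⟩, ⟨d, e, f⟩, g, hh, i⟩ := h
  obtain ⟨a, ha⟩ := a
  obtain ⟨b, hb⟩ := b
  obtain ⟨c, hc⟩ := c
  obtain ⟨d, hd⟩ := d
  obtain ⟨e, he⟩ := e
  obtain ⟨f, hf⟩ := f
  obtain ⟨g, hg⟩ := g
  obtain ⟨hh, hhh⟩ := hh
  obtain ⟨i, hi⟩ := i
  obtain ⟨k, hk⟩ := hv
  simp only [dot] at hk
  refine ⟨(a * v.1 + b * v.2.1 + c * v.2.2 + s.1 * k, d * v.1 + e * v.2.1 + f * v.2.2 + s.2.1 * k,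
    g * v.1 + hh * v.2.1 + i * v.2.2 + s.2.2 * k), ?_⟩
  simp only [M3.mul, Prod.mk.injEq]
  refine ⟨?_, ?_, ?_⟩
  · linear_combination v.1 * ha + v.2.1 * hb + v.2.2 * hc + s.1 * hk
  · linear_combination v.1 * hd + v.2.1 * he + v.2.2 * hf + s.2.1 * hk
  · linear_combination v.1 * hg + v.2.1 * hhh + v.2.2 * hi + s.2.2 * hk

/-- Covectors of the first type do not kill bad vectors. -/
theorem T1.not_dvd {p : ℕ} (hp : p.Prime) {l : V} (h : T1 p l) {n : ℤ} (hn : ¬ Rep n) {v : V}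
    (hv : Qf v = n) : ¬ (p : ℤ) ∣ dot l v := by
  intro hd
  obtain ⟨N, s, hN, ho⟩ := h
  obtain ⟨u, hu⟩ := ho.mul_dvd hd
  have h1 := hN v
  rw [hu, hv] at h1
  have hp0 : (p : ℤ) ^ 2 ≠ 0 := pow_ne_zero _ (by exact_mod_cast hp.ne_zero)
  have h2 : (p : ℤ) ^ 2 * n = (p : ℤ) ^ 2 * (u.1 ^ 2 + u.2.1 ^ 2 + 10 * u.2.2 ^ 2) := by
    rw [← h1]; simp only [Q1]; ring
  exact hn ⟨u.1, u.2.1, u.2.2, mul_left_cancel₀ hp0 h2⟩

theorem intPrime {p : ℕ} (hp : p.Prime) : Prime (p : ℤ) := Nat.prime_iff_prime_int.mp hp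

/-- Cancel a unit. -/
theorem dvd_of_unit {p : ℕ} (hp : p.Prime) {k : ℕ} {a x : ℤ} (ha : ¬ (p : ℤ) ∣ a)
    (h : (p : ℤ) ^ k ∣ a * x) : (p : ℤ) ^ k ∣ x := by
  have hc : IsCoprime ((p : ℤ) ^ k) a := by
    apply IsCoprime.pow_left
    exact ((intPrime hp).coprime_iff_not_dvd).mpr ha
  exact hc.dvd_of_dvd_mul_left h

/-- Inverse of a unit, as a natural number. -/
theorem exists_sol {p : ℕ} (hp : p.Prime) (k : ℕ) {D : ℤ} (hD : ¬ (p : ℤ) ∣ D) (N : ℤ) :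
    ∃ y : ℕ, (p : ℤ) ^ k ∣ D * y - N := by
  have hc : IsCoprime ((p : ℤ) ^ k) D := by
    apply IsCoprime.pow_left
    exact ((intPrime hp).coprime_iff_not_dvd).mpr hD
  obtain ⟨u, w, huw⟩ := hc
  have hpp : (0 : ℤ) < (p : ℤ) ^ k := pow_pos (by exact_mod_cast hp.pos) k
  refine ⟨((w * N) % ((p : ℤ) ^ k)).toNat, ?_⟩
  rw [Int.toNat_of_nonneg (Int.emod_nonneg _ hpp.ne')]
  have h2 : (p : ℤ) ^ k ∣ (w * N) % ((p : ℤ) ^ k) - w * N :=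
    ⟨-((w * N) / ((p : ℤ) ^ k)), by
      have := Int.emod_add_mul_ediv (w * N) ((p : ℤ) ^ k); linarith⟩
  obtain ⟨t, ht⟩ := h2
  refine ⟨D * t - u * N, ?_⟩
  linear_combination D * ht + N * huw

variable {P : PD} {n : ℤ} {v : V}

/-- The derivative at a root is a unit. -/
theorem PD.Ok.deriv (h : P.Ok) (hn : ¬ (P.p : ℤ) ∣ n) (hv : Qf v = n) {x : ℤ}
    (hx : (P.p : ℤ) ∣ dot (P.lam x) v) : ¬ (P.p : ℤ) ∣ 2 * x * dot P.A v + dot P.B v := by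
  intro hd
  obtain ⟨s, hs, hdisc⟩ := h.disc
  have hpr := intPrime h.prime
  have h1 := hdisc v
  rw [hv] at h1
  rw [dot_lam] at hx
  have h2 : (P.p : ℤ) ∣ 10 * s ^ 2 * n := by
    have h3 : 10 * s ^ 2 * n = ((dot P.B v) ^ 2 - 4 * dot P.A v * dot P.C v + 10 * s ^ 2 * n)
        - (2 * x * dot P.A v + dot P.B v) * (2 * x * dot P.A v + dot P.B v)
        + 4 * dot P.A v * (x ^ 2 * dot P.A v + x * dot P.B v + dot P.C v) := by ring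
    rw [h3]
    exact dvd_add (dvd_sub h1 (Dvd.dvd.mul_left hd _)) (Dvd.dvd.mul_left hx _)
  rcases hpr.dvd_or_dvd h2 with h3 | h3
  · rcases hpr.dvd_or_dvd h3 with h4 | h4
    · exact h.ten h4
    · exact hs (hpr.dvd_of_dvd_pow h4)
  · exact hn h3

/-- Hensel's lemma, one step. -/
theorem PD.Ok.hensel1 (h : P.Ok) (hn : ¬ (P.p : ℤ) ∣ n) (hv : Qf v = n) {k x : ℕ} (hk : 1 ≤ k)
    (hx : ((P.p : ℤ) ^ k) ∣ dot (P.lam x) v) :
    ∃ y : ℕ, ((P.p : ℤ) ^ k) ∣ (y : ℤ) - x ∧ ((P.p : ℤ) ^ (k + 1)) ∣ dot (P.lam y) v := by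
  have hd := h.deriv hn hv (x := (x : ℤ)) ((dvd_pow_self _ (by omega)).trans hx)
  obtain ⟨g, hg⟩ := hx
  obtain ⟨t, ht⟩ := exists_sol h.prime 1 hd (-g)
  refine ⟨x + P.p ^ k * t, ⟨t, by push_cast; ring⟩, ?_⟩
  rw [pow_one] at ht
  obtain ⟨w, hw⟩ := ht
  obtain ⟨m, hm⟩ : ∃ m, k = m + 1 := ⟨k - 1, by omega⟩
  rw [dot_lam] at hg ⊢
  refine ⟨w + (P.p : ℤ) ^ m * t ^ 2 * dot P.A v, ?_⟩
  push_cast
  have e1 : (P.p : ℤ) ^ (k + 1) = (P.p : ℤ) ^ k * P.p := pow_succ _ _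
  have e2 : (P.p : ℤ) ^ k = (P.p : ℤ) ^ m * P.p := by rw [hm, pow_succ]
  rw [e1]
  have e3 : ((P.p : ℤ) ^ k) * ((P.p : ℤ) ^ k) = (P.p : ℤ) ^ k * ((P.p : ℤ) ^ m * P.p) := by
    rw [← e2]
  linear_combination hg + (P.p : ℤ) ^ k * hw + t ^ 2 * dot P.A v * e3

/-- Hensel's lemma. -/
theorem PD.Ok.hensel (h : P.Ok) (hn : ¬ (P.p : ℤ) ∣ n) (hv : Qf v = n) {k x : ℕ} (hk : 1 ≤ k)
    (hx : ((P.p : ℤ) ^ k) ∣ dot (P.lam x) v) (j : ℕ) :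
    ∃ y : ℕ, ((P.p : ℤ) ^ k) ∣ (y : ℤ) - x ∧ ((P.p : ℤ) ^ (k + j)) ∣ dot (P.lam y) v := by
  induction j with
  | zero => exact ⟨x, by simp, by simpa using hx⟩
  | succ j ih =>
    obtain ⟨y, hy1, hy2⟩ := ih
    obtain ⟨z, hz1, hz2⟩ := h.hensel1 hn hv (by omega : 1 ≤ k + j) hy2
    refine ⟨z, ?_, by rw [← add_assoc]; exact hz2⟩
    have : (z : ℤ) - x = (z - y) + (y - x) := by ring
    rw [this]
    exact dvd_add ((pow_dvd_pow _ (by omega)).trans hz1) hy1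

/-- Existence of an end at a split prime. -/
theorem PD.Ok.exists_end (h : P.Ok) (hr : ¬ Rep n) (hn : ¬ (P.p : ℤ) ∣ n) (hv : Qf v = n) {r : ℤ}
    (hsq : (P.p : ℤ) ∣ r ^ 2 + 10 * n) : ∃ x : ℕ, End P v x := by
  obtain ⟨s, hs, hdisc⟩ := h.disc
  have hpr := intPrime h.prime
  have h2 : ¬ (P.p : ℤ) ∣ 2 := fun h' => h.ten (h'.trans ⟨5, by norm_num⟩)
  have hA : ¬ (P.p : ℤ) ∣ 2 * dot P.A v := by
    intro h'
    rcases hpr.dvd_or_dvd h' with h3 | h3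
    · exact h2 h3
    · exact h.inf.not_dvd h.prime hr hv h3
  obtain ⟨x, hx⟩ := exists_sol h.prime 1 hA (-(dot P.B v) + s * r)
  rw [pow_one] at hx
  have hx1 : (P.p : ℤ) ∣ dot (P.lam x) v := by
    have h3 : ¬ (P.p : ℤ) ∣ 4 * dot P.A v := by
      intro h'
      have : (4 : ℤ) * dot P.A v = 2 * (2 * dot P.A v) := by ring
      rw [this] at h'
      rcases hpr.dvd_or_dvd h' with h4 | h4
      · exact h2 h4
      · exact hA h4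
    have h4 : (P.p : ℤ) ∣ 4 * dot P.A v * dot (P.lam x) v := by
      rw [dot_lam]
      have h5 := hdisc v
      rw [hv] at h5
      have h6 : 4 * dot P.A v * ((x : ℤ) ^ 2 * dot P.A v + x * dot P.B v + dot P.C v) =
          (2 * dot P.A v * x - (-(dot P.B v) + s * r)) * (2 * dot P.A v * x + dot P.B v + s * r)
          - ((dot P.B v) ^ 2 - 4 * dot P.A v * dot P.C v + 10 * s ^ 2 * n)
          + s ^ 2 * (r ^ 2 + 10 * n) := by ring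
      rw [h6]
      exact dvd_add (dvd_sub (Dvd.dvd.mul_right hx _) h5) (Dvd.dvd.mul_left hsq _)
    exact (hpr.dvd_or_dvd h4).resolve_left h3
  obtain ⟨y, -, hy⟩ := h.hensel hn hv (le_refl 1) (by simpa using hx1) (P.K - 1)
  refine ⟨y, ?_⟩
  have := h.K2
  rwa [show 1 + (P.K - 1) = P.K by omega] at hy

/-- An end gives a line. -/
theorem End.line (h : P.Ok) {x : ℕ} (hx : End P v x) : Line P v (x % P.p) := by
  refine ⟨Nat.mod_lt _ h.prime.pos, ?_⟩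
  have h1 : (P.p : ℤ) ∣ dot (P.lam x) v :=
    (dvd_pow_self _ (by have := h.K2; omega)).trans hx
  rw [dot_lam] at h1 ⊢
  have h2 : (P.p : ℤ) ∣ (x : ℤ) - ((x % P.p : ℕ) : ℤ) := by
    rw [Int.natCast_mod]
    exact Int.dvd_self_sub_emod
  have h3 : ((x % P.p : ℕ) : ℤ) ^ 2 * dot P.A v + ((x % P.p : ℕ) : ℤ) * dot P.B v + dot P.C v =
      ((x : ℤ) ^ 2 * dot P.A v + x * dot P.B v + dot P.C v) -
      ((x : ℤ) - ((x % P.p : ℕ) : ℤ)) *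
        (((x : ℤ) + ((x % P.p : ℕ) : ℤ)) * dot P.A v + dot P.B v) := by ring
  rw [h3]
  exact dvd_sub h1 (Dvd.dvd.mul_right h2 _)

/-- The other line. -/
theorem Line.other (h : P.Ok) (hr : ¬ Rep n) (hn : ¬ (P.p : ℤ) ∣ n) (hv : Qf v = n) {l : ℕ}
    (hl : Line P v l) : ∃ l' : ℕ, l' ≠ l ∧ Line P v l' := by
  have hpr := intPrime h.prime
  have hA := h.inf.not_dvd h.prime hr hv
  obtain ⟨y, hy⟩ := exists_sol h.prime 1 hA (-(dot P.B v) - l * dot P.A v)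
  rw [pow_one] at hy
  have hd := h.deriv hn hv hl.2
  have hy2 : (P.p : ℤ) ∣ dot (P.lam y) v := by
    have h4 : (P.p : ℤ) ∣ dot P.A v * dot (P.lam y) v := by
      have h5 := hl.2
      rw [dot_lam] at h5 ⊢
      have h6 : dot P.A v * ((y : ℤ) ^ 2 * dot P.A v + y * dot P.B v + dot P.C v) =
          (dot P.A v * y - (-(dot P.B v) - l * dot P.A v)) *
            (dot P.A v * y - (l * dot P.A v))
          + dot P.A v * ((l : ℤ) ^ 2 * dot P.A v + l * dot P.B v + dot P.C v) := by ring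
      rw [h6]
      exact dvd_add (Dvd.dvd.mul_right hy _) (Dvd.dvd.mul_left h5 _)
    exact (hpr.dvd_or_dvd h4).resolve_left hA
  have hmod : (P.p : ℤ) ∣ (y : ℤ) - ((y % P.p : ℕ) : ℤ) := by
    rw [Int.natCast_mod]
    exact Int.dvd_self_sub_emod
  refine ⟨y % P.p, ?_, Nat.mod_lt _ h.prime.pos, ?_⟩
  · intro he
    apply hd
    rw [he] at hmod
    have h7 : 2 * (l : ℤ) * dot P.A v + dot P.B v =
        (dot P.A v * y - (-(dot P.B v) - l * dot P.A v)) - ((y : ℤ) - l) * dot P.A v := by ring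
    rw [h7]
    exact dvd_sub hy (Dvd.dvd.mul_right hmod _)
  · rw [dot_lam] at hy2 ⊢
    have h3 : ((y % P.p : ℕ) : ℤ) ^ 2 * dot P.A v + ((y % P.p : ℕ) : ℤ) * dot P.B v + dot P.C v =
        ((y : ℤ) ^ 2 * dot P.A v + y * dot P.B v + dot P.C v) -
        ((y : ℤ) - ((y % P.p : ℕ) : ℤ)) *
          (((y : ℤ) + ((y % P.p : ℕ) : ℤ)) * dot P.A v + dot P.B v) := by ring
    rw [h3]
    exact dvd_sub hy2 (Dvd.dvd.mul_right hmod _)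

/-- Congruence of covectors. -/
def VDvd (m : ℤ) (u w : V) : Prop := m ∣ u.1 - w.1 ∧ m ∣ u.2.1 - w.2.1 ∧ m ∣ u.2.2 - w.2.2

/-- Scalar multiple. -/
def smul (k : ℤ) (w : V) : V := (k * w.1, k * w.2.1, k * w.2.2)

theorem VDvd.dot {m : ℤ} {u w : V} (h : VDvd m u w) (v : V) : m ∣ dot u v - dot w v := by
  obtain ⟨⟨a, ha⟩, ⟨b, hb⟩, ⟨c, hc⟩⟩ := h
  refine ⟨a * v.1 + b * v.2.1 + c * v.2.2, ?_⟩
  simp only [MP_9954fe_nt.dot]
  linear_combination v.1 * ha + v.2.1 * hb + v.2.2 * hc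

theorem dot_smul (k : ℤ) (w v : V) : dot (smul k w) v = k * dot w v := by
  simp only [dot, smul]; ring

/-- Transport identity for a prime different from the direction. -/
structure TrI (P : PD) (m : ℤ) (M : M3) (a b c d : ℕ) (mu : ℤ) : Prop where
  i0 : VDvd m (M.tmul (P.cov (a ^ 2) (a * c) (c ^ 2))) (smul mu P.A)
  i1 : VDvd m (M.tmul (P.cov (2 * a * b) (a * d + b * c) (2 * c * d))) (smul mu P.B)
  i2 : VDvd m (M.tmul (P.cov (b ^ 2) (b * d) (d ^ 2))) (smul mu P.C)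
  det : ¬ (P.p : ℤ) ∣ (a : ℤ) * d - b * c

/-- Transport identity for the direction itself, from the first digit `l`. -/
structure OwI (P : PD) (M : M3) (l a b c d : ℕ) (mu : ℤ) : Prop where
  i0 : VDvd ((P.p : ℤ) ^ P.K) (M.tmul (P.cov (a ^ 2) (a * c) (c ^ 2))) (smul (mu * P.p ^ 2) P.A)
  i1 : VDvd ((P.p : ℤ) ^ P.K) (M.tmul (P.cov (2 * a * b) (a * d + b * c) (2 * c * d)))
    (smul (mu * P.p) (P.cov (2 * l) 1 0))
  i2 : VDvd ((P.p : ℤ) ^ P.K) (M.tmul (P.cov (b ^ 2) (b * d) (d ^ 2))) (smul mu (P.lam l))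
  det : ¬ (P.p : ℤ) ∣ (a : ℤ) * d - b * c
  unit : ¬ (P.p : ℤ) ∣ mu

theorem tmul_comb (M : M3) (P : PD) (x a b c d : ℤ) :
    M.tmul (P.cov ((a * x + b) ^ 2) ((a * x + b) * (c * x + d)) ((c * x + d) ^ 2)) =
      (x ^ 2 * (M.tmul (P.cov (a ^ 2) (a * c) (c ^ 2))).1 +
        x * (M.tmul (P.cov (2 * a * b) (a * d + b * c) (2 * c * d))).1 +
        (M.tmul (P.cov (b ^ 2) (b * d) (d ^ 2))).1,
       x ^ 2 * (M.tmul (P.cov (a ^ 2) (a * c) (c ^ 2))).2.1 +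
        x * (M.tmul (P.cov (2 * a * b) (a * d + b * c) (2 * c * d))).2.1 +
        (M.tmul (P.cov (b ^ 2) (b * d) (d ^ 2))).2.1,
       x ^ 2 * (M.tmul (P.cov (a ^ 2) (a * c) (c ^ 2))).2.2 +
        x * (M.tmul (P.cov (2 * a * b) (a * d + b * c) (2 * c * d))).2.2 +
        (M.tmul (P.cov (b ^ 2) (b * d) (d ^ 2))).2.2) := by
  simp only [M3.tmul, PD.cov, Prod.mk.injEq]
  refine ⟨by ring, by ring, by ring⟩

theorem TrI.eval {P : PD} {m : ℤ} {M : M3} {a b c d : ℕ} {mu : ℤ} (h : TrI P m M a b c d mu)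
    (x : ℤ) : VDvd m (M.tmul (P.cov ((a * x + b) ^ 2) ((a * x + b) * (c * x + d)) ((c * x + d) ^ 2)))
      (smul mu (P.lam x)) := by
  rw [tmul_comb]
  obtain ⟨⟨a1, a2, a3⟩, ⟨b1, b2, b3⟩, ⟨c1, c2, c3⟩, -⟩ := h
  obtain ⟨a1, ha1⟩ := a1
  obtain ⟨a2, ha2⟩ := a2
  obtain ⟨a3, ha3⟩ := a3
  obtain ⟨b1, hb1⟩ := b1
  obtain ⟨b2, hb2⟩ := b2
  obtain ⟨b3, hb3⟩ := b3
  obtain ⟨c1, hc1⟩ := c1
  obtain ⟨c2, hc2⟩ := c2
  obtain ⟨c3, hc3⟩ := c3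
  refine ⟨⟨x ^ 2 * a1 + x * b1 + c1, ?_⟩, ⟨x ^ 2 * a2 + x * b2 + c2, ?_⟩,
    ⟨x ^ 2 * a3 + x * b3 + c3, ?_⟩⟩
  · simp only [smul, PD.lam, PD.cov] at *
    linear_combination x ^ 2 * ha1 + x * hb1 + hc1
  · simp only [smul, PD.lam, PD.cov] at *
    linear_combination x ^ 2 * ha2 + x * hb2 + hc2
  · simp only [smul, PD.lam, PD.cov] at *
    linear_combination x ^ 2 * ha3 + x * hb3 + hc3

theorem OwI.eval {P : PD} {M : M3} {l a b c d : ℕ} {mu : ℤ} (h : OwI P M l a b c d mu)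
    (x : ℤ) : VDvd ((P.p : ℤ) ^ P.K)
      (M.tmul (P.cov ((a * x + b) ^ 2) ((a * x + b) * (c * x + d)) ((c * x + d) ^ 2)))
      (smul mu (P.lam (l + P.p * x))) := by
  rw [tmul_comb]
  obtain ⟨⟨a1, a2, a3⟩, ⟨b1, b2, b3⟩, ⟨c1, c2, c3⟩, -, -⟩ := h
  obtain ⟨a1, ha1⟩ := a1
  obtain ⟨a2, ha2⟩ := a2
  obtain ⟨a3, ha3⟩ := a3
  obtain ⟨b1, hb1⟩ := b1
  obtain ⟨b2, hb2⟩ := b2
  obtain ⟨b3, hb3⟩ := b3
  obtain ⟨c1, hc1⟩ := c1
  obtain ⟨c2, hc2⟩ := c2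
  obtain ⟨c3, hc3⟩ := c3
  refine ⟨⟨x ^ 2 * a1 + x * b1 + c1, ?_⟩, ⟨x ^ 2 * a2 + x * b2 + c2, ?_⟩,
    ⟨x ^ 2 * a3 + x * b3 + c3, ?_⟩⟩
  · simp only [smul, PD.lam, PD.cov] at *
    linear_combination x ^ 2 * ha1 + x * hb1 + hc1
  · simp only [smul, PD.lam, PD.cov] at *
    linear_combination x ^ 2 * ha2 + x * hb2 + hc2
  · simp only [smul, PD.lam, PD.cov] at *
    linear_combination x ^ 2 * ha3 + x * hb3 + hc3

/-- The core of the transport: from `p^k ∣ dot (cov (N^2) (N D) (D^2)) v'`. -/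
theorem core (h : P.Ok) (hr : ¬ Rep n) (hv : Qf v = n) {k : ℕ} (hk : 1 ≤ k) {N D : ℤ}
    (hND : ¬ ((P.p : ℤ) ∣ N ∧ (P.p : ℤ) ∣ D))
    (hd : ((P.p : ℤ) ^ k) ∣ dot (P.cov (N ^ 2) (N * D) (D ^ 2)) v) :
    ¬ (P.p : ℤ) ∣ D ∧ ∃ y : ℕ, ((P.p : ℤ) ^ k) ∣ D * y - N ∧ ((P.p : ℤ) ^ k) ∣ dot (P.lam y) v := by
  have hpr := intPrime h.prime
  have hD : ¬ (P.p : ℤ) ∣ D := by
    intro hD
    have h1 : (P.p : ℤ) ∣ dot (P.cov (N ^ 2) (N * D) (D ^ 2)) v :=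
      (dvd_pow_self _ (by omega)).trans hd
    rw [dot_cov] at h1
    have h2 : (P.p : ℤ) ∣ N ^ 2 * dot P.A v := by
      have h3 : N ^ 2 * dot P.A v = (N ^ 2 * dot P.A v + N * D * dot P.B v + D ^ 2 * dot P.C v) -
          D * (N * dot P.B v + D * dot P.C v) := by ring
      rw [h3]
      exact dvd_sub h1 (Dvd.dvd.mul_right hD _)
    rcases hpr.dvd_or_dvd h2 with h3 | h3
    · exact hND ⟨hpr.dvd_of_dvd_pow h3, hD⟩
    · exact h.inf.not_dvd h.prime hr hv h3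
  refine ⟨hD, ?_⟩
  obtain ⟨y, hy⟩ := exists_sol h.prime k hD N
  refine ⟨y, hy, ?_⟩
  have hD2 : ¬ (P.p : ℤ) ∣ D ^ 2 := fun h' => hD (hpr.dvd_of_dvd_pow h')
  apply dvd_of_unit h.prime hD2
  rw [dot_cov] at hd
  rw [dot_lam]
  have h3 : D ^ 2 * ((y : ℤ) ^ 2 * dot P.A v + y * dot P.B v + dot P.C v) =
      (N ^ 2 * dot P.A v + N * D * dot P.B v + D ^ 2 * dot P.C v) +
      (D * y - N) * ((D * y + N) * dot P.A v + D * dot P.B v) := by ring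
  rw [h3]
  exact dvd_add hd (Dvd.dvd.mul_right hy _)

theorem det_coprime {p a b c d x : ℤ} (hdet : ¬ p ∣ a * d - b * c) :
    ¬ (p ∣ a * x + b ∧ p ∣ c * x + d) := by
  rintro ⟨h1, h2⟩
  apply hdet
  have : a * d - b * c = a * (c * x + d) - c * (a * x + b) := by ring
  rw [this]
  exact dvd_sub (Dvd.dvd.mul_left h2 _) (Dvd.dvd.mul_left h1 _)

/-- Transport of an end (other prime). -/
theorem TrI.end_ {M : M3} {a b c d : ℕ} {mu m : ℤ} {v' : V}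
    (h : P.Ok) (hr : ¬ Rep n) (hv' : Qf v' = n)
    (hm : ¬ (P.p : ℤ) ∣ m) (hM : M.mul v = smul m v')
    (hI : TrI P ((P.p : ℤ) ^ P.K) M a b c d mu) {x : ℕ} (hx : End P v x) :
    ¬ (P.p : ℤ) ∣ (c : ℤ) * x + d ∧ ∃ y : ℕ, ((P.p : ℤ) ^ P.K) ∣ ((c : ℤ) * x + d) * y - (a * x + b) ∧
      End P v' y := by
  have h1 := (hI.eval (x : ℤ)).dot v
  rw [dot_tmul, dot_smul, hM] at h1
  have h2 : ((P.p : ℤ) ^ P.K) ∣ m * dot (P.cov (((a : ℤ) * x + b) ^ 2)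
      (((a : ℤ) * x + b) * ((c : ℤ) * x + d)) (((c : ℤ) * x + d) ^ 2)) v' := by
    have h3 : dot (P.cov (((a : ℤ) * x + b) ^ 2)
      (((a : ℤ) * x + b) * ((c : ℤ) * x + d)) (((c : ℤ) * x + d) ^ 2)) (smul m v') =
      m * dot (P.cov (((a : ℤ) * x + b) ^ 2)
      (((a : ℤ) * x + b) * ((c : ℤ) * x + d)) (((c : ℤ) * x + d) ^ 2)) v' := by
      simp only [dot, smul]; ring
    rw [← h3]
    have h4 := dvd_add h1 (Dvd.dvd.mul_left hx mu)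
    simpa using h4
  have h3 := dvd_of_unit h.prime hm h2
  exact core h hr hv' (by have := h.K2; omega) (det_coprime hI.det) h3

/-- Transport of a line (other prime), modulo `p` only. -/
theorem TrI.line_ {M : M3} {a b c d : ℕ} {mu m : ℤ} {v' : V}
    (h : P.Ok) (hr : ¬ Rep n) (hv' : Qf v' = n)
    (hm : ¬ (P.p : ℤ) ∣ m) (hM : M.mul v = smul m v')
    (hI : TrI P (P.p : ℤ) M a b c d mu) {x : ℕ} (hx : Line P v x) :
    ¬ (P.p : ℤ) ∣ (c : ℤ) * x + d ∧ ∃ y : ℕ, (P.p : ℤ) ∣ ((c : ℤ) * x + d) * y - (a * x + b) ∧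
      Line P v' y := by
  have h1 := (hI.eval (x : ℤ)).dot v
  rw [dot_tmul, dot_smul, hM] at h1
  have h2 : ((P.p : ℤ) ^ 1) ∣ m * dot (P.cov (((a : ℤ) * x + b) ^ 2)
      (((a : ℤ) * x + b) * ((c : ℤ) * x + d)) (((c : ℤ) * x + d) ^ 2)) v' := by
    have h3 : dot (P.cov (((a : ℤ) * x + b) ^ 2)
      (((a : ℤ) * x + b) * ((c : ℤ) * x + d)) (((c : ℤ) * x + d) ^ 2)) (smul m v') =
      m * dot (P.cov (((a : ℤ) * x + b) ^ 2)
      (((a : ℤ) * x + b) * ((c : ℤ) * x + d)) (((c : ℤ) * x + d) ^ 2)) v' := by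
      simp only [dot, smul]; ring
    rw [← h3, pow_one]
    have h4 := dvd_add h1 (Dvd.dvd.mul_left hx.2 mu)
    simpa using h4
  have h3 := dvd_of_unit h.prime hm h2
  obtain ⟨hD, y, hy1, hy2⟩ := core h hr hv' le_rfl (det_coprime hI.det) h3
  rw [pow_one] at hy1 hy2
  refine ⟨hD, y % P.p, ?_, Nat.mod_lt _ h.prime.pos, ?_⟩
  · have h5 : (P.p : ℤ) ∣ (y : ℤ) - ((y % P.p : ℕ) : ℤ) := by
      rw [Int.natCast_mod]; exact Int.dvd_self_sub_emod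
    have h6 : ((c : ℤ) * x + d) * ((y % P.p : ℕ) : ℤ) - (a * x + b) =
      (((c : ℤ) * x + d) * y - (a * x + b)) - ((c : ℤ) * x + d) * ((y : ℤ) - ((y % P.p : ℕ) : ℤ)) := by
      ring
    rw [h6]
    exact dvd_sub hy1 (Dvd.dvd.mul_left h5 _)
  · have h5 : (P.p : ℤ) ∣ (y : ℤ) - ((y % P.p : ℕ) : ℤ) := by
      rw [Int.natCast_mod]; exact Int.dvd_self_sub_emod
    rw [dot_lam] at hy2 ⊢
    have h3 : ((y % P.p : ℕ) : ℤ) ^ 2 * dot P.A v' + ((y % P.p : ℕ) : ℤ) * dot P.B v' + dot P.C v' =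
        ((y : ℤ) ^ 2 * dot P.A v' + y * dot P.B v' + dot P.C v') -
        ((y : ℤ) - ((y % P.p : ℕ) : ℤ)) *
          (((y : ℤ) + ((y % P.p : ℕ) : ℤ)) * dot P.A v' + dot P.B v') := by ring
    rw [h3]
    exact dvd_sub hy2 (Dvd.dvd.mul_right h5 _)

/-- Transport of the end in the direction of the move. -/
theorem OwI.end_ {M : M3} {l a b c d : ℕ} {mu : ℤ} {v' : V}
    (h : P.Ok) (hr : ¬ Rep n) (hn : ¬ (P.p : ℤ) ∣ n) (hv' : Qf v' = n)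
    (hM : M.mul v = smul (P.p : ℤ) v')
    (hI : OwI P M l a b c d mu) {x : ℕ} (hx : End P v x) (hl : x % P.p = l) :
    ¬ (P.p : ℤ) ∣ (c : ℤ) * (x / P.p : ℕ) + d ∧ ∃ y : ℕ,
      ((P.p : ℤ) ^ (P.K - 1)) ∣ ((c : ℤ) * (x / P.p : ℕ) + d) * y - (a * (x / P.p : ℕ) + b) ∧
      End P v' y := by
  set z : ℕ := x / P.p with hz
  have hxz : (l : ℤ) + P.p * z = x := by
    rw [← hl, hz]; exact_mod_cast Nat.mod_add_div x P.p
  have h1 := (hI.eval (z : ℤ)).dot v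
  rw [dot_tmul, dot_smul, hM, hxz] at h1
  have hK := h.K2
  have hpp : (P.p : ℤ) ^ P.K = P.p * (P.p : ℤ) ^ (P.K - 1) := by
    rw [← pow_succ', show P.K - 1 + 1 = P.K by omega]
  have hp0 : (P.p : ℤ) ≠ 0 := by exact_mod_cast h.prime.ne_zero
  have h2 : ((P.p : ℤ) ^ (P.K - 1)) ∣ dot (P.cov (((a : ℤ) * z + b) ^ 2)
      (((a : ℤ) * z + b) * ((c : ℤ) * z + d)) (((c : ℤ) * z + d) ^ 2)) v' := by
    have h3 : dot (P.cov (((a : ℤ) * z + b) ^ 2)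
      (((a : ℤ) * z + b) * ((c : ℤ) * z + d)) (((c : ℤ) * z + d) ^ 2)) (smul (P.p : ℤ) v') =
      P.p * dot (P.cov (((a : ℤ) * z + b) ^ 2)
      (((a : ℤ) * z + b) * ((c : ℤ) * z + d)) (((c : ℤ) * z + d) ^ 2)) v' := by
      simp only [dot, smul]; ring
    have h4 := dvd_add h1 (Dvd.dvd.mul_left hx mu)
    rw [sub_add_cancel, h3, hpp] at h4
    exact (mul_dvd_mul_iff_left hp0).mp h4
  obtain ⟨hD, y, hy1, hy2⟩ := core h hr hv' (by omega : 1 ≤ P.K - 1) (det_coprime hI.det) h2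
  obtain ⟨y', hy3, hy4⟩ := h.hensel hn hv' (by omega : 1 ≤ P.K - 1) hy2 1
  refine ⟨hD, y', ?_, ?_⟩
  · have h6 : ((c : ℤ) * z + d) * (y' : ℤ) - (a * z + b) =
      (((c : ℤ) * z + d) * y - (a * z + b)) + ((c : ℤ) * z + d) * ((y' : ℤ) - y) := by ring
    rw [h6]
    exact dvd_add hy1 (Dvd.dvd.mul_left hy3 _)
  · rwa [show P.K - 1 + 1 = P.K by omega] at hy4

/-- The pulled back covector of the new end is a unit multiple of the old one, modulo `p`. -/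
theorem OwI.cov_ {M : M3} {l a b c d : ℕ} {mu : ℤ} (h : P.Ok)
    (hI : OwI P M l a b c d mu) {x y : ℕ} (hl : x % P.p = l)
    (hD : ¬ (P.p : ℤ) ∣ (c : ℤ) * (x / P.p : ℕ) + d)
    (hy : ((P.p : ℤ) ^ (P.K - 1)) ∣ ((c : ℤ) * (x / P.p : ℕ) + d) * y - (a * (x / P.p : ℕ) + b)) :
    ∃ u : ℤ, ¬ (P.p : ℤ) ∣ u ∧ VDvd P.p (M.tmul (P.lam y)) (smul u (P.lam x)) := by
  set z : ℕ := x / P.p with hz
  have hxz : (l : ℤ) + P.p * z = x := by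
    rw [← hl, hz]; exact_mod_cast Nat.mod_add_div x P.p
  have hpr := intPrime h.prime
  have hK := h.K2
  have h1 := hI.eval (z : ℤ)
  rw [hxz] at h1
  have hpK : (P.p : ℤ) ∣ (P.p : ℤ) ^ P.K := dvd_pow_self _ (by omega)
  have hy' : (P.p : ℤ) ∣ ((c : ℤ) * z + d) * y - (a * z + b) :=
    (dvd_pow_self _ (by omega)).trans hy
  set D : ℤ := (c : ℤ) * z + d with hDD
  set N : ℤ := (a : ℤ) * z + b with hNN
  have hD2 : ¬ (P.p : ℤ) ∣ D ^ 2 := fun h' => hD (hpr.dvd_of_dvd_pow h')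
  obtain ⟨e, he⟩ := exists_sol h.prime 1 hD2 1
  rw [pow_one] at he
  refine ⟨e * mu, ?_, ?_⟩
  · intro h'
    rcases hpr.dvd_or_dvd h' with h3 | h3
    · have h4 : (P.p : ℤ) ∣ 1 := by
        have h5 : (1 : ℤ) = D ^ 2 * e - (D ^ 2 * e - 1) := by ring
        rw [h5]
        exact dvd_sub (Dvd.dvd.mul_left h3 _) he
      exact hpr.not_dvd_one h4
    · exact hI.unit h3
  · obtain ⟨⟨a1, ha1⟩, ⟨a2, ha2⟩, ⟨a3, ha3⟩⟩ := h1
    obtain ⟨q, hq⟩ := hpK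
    obtain ⟨r, hr⟩ := he
    obtain ⟨w, hw⟩ := hy'
    rw [hq] at ha1 ha2 ha3
    simp only [smul, M3.tmul, PD.lam, PD.cov] at ha1 ha2 ha3 ⊢
    refine ⟨⟨e * q * a1 - r * (M.a * ((y:ℤ)^2 * P.A.1 + y * P.B.1 + P.C.1) +
        M.d * ((y:ℤ)^2 * P.A.2.1 + y * P.B.2.1 + P.C.2.1) +
        M.g * ((y:ℤ)^2 * P.A.2.2 + y * P.B.2.2 + P.C.2.2))
        + e * w * (M.a * ((D * y + N) * P.A.1 + D * P.B.1) +
          M.d * ((D * y + N) * P.A.2.1 + D * P.B.2.1) + M.g * ((D * y + N) * P.A.2.2 + D * P.B.2.2)), ?_⟩,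
      ⟨e * q * a2 - r * (M.b * ((y:ℤ)^2 * P.A.1 + y * P.B.1 + P.C.1) +
        M.e * ((y:ℤ)^2 * P.A.2.1 + y * P.B.2.1 + P.C.2.1) +
        M.h * ((y:ℤ)^2 * P.A.2.2 + y * P.B.2.2 + P.C.2.2))
        + e * w * (M.b * ((D * y + N) * P.A.1 + D * P.B.1) +
          M.e * ((D * y + N) * P.A.2.1 + D * P.B.2.1) + M.h * ((D * y + N) * P.A.2.2 + D * P.B.2.2)), ?_⟩,
      ⟨e * q * a3 - r * (M.c * ((y:ℤ)^2 * P.A.1 + y * P.B.1 + P.C.1) +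
        M.f * ((y:ℤ)^2 * P.A.2.1 + y * P.B.2.1 + P.C.2.1) +
        M.i * ((y:ℤ)^2 * P.A.2.2 + y * P.B.2.2 + P.C.2.2))
        + e * w * (M.c * ((D * y + N) * P.A.1 + D * P.B.1) +
          M.f * ((D * y + N) * P.A.2.1 + D * P.B.2.1) + M.i * ((D * y + N) * P.A.2.2 + D * P.B.2.2)), ?_⟩⟩
    · linear_combination e * ha1 - (M.a * ((y:ℤ)^2 * P.A.1 + y * P.B.1 + P.C.1) +
        M.d * ((y:ℤ)^2 * P.A.2.1 + y * P.B.2.1 + P.C.2.1) +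
        M.g * ((y:ℤ)^2 * P.A.2.2 + y * P.B.2.2 + P.C.2.2)) * hr
        + e * (M.a * ((D * y + N) * P.A.1 + D * P.B.1) +
          M.d * ((D * y + N) * P.A.2.1 + D * P.B.2.1) + M.g * ((D * y + N) * P.A.2.2 + D * P.B.2.2)) * hw
    · linear_combination e * ha2 - (M.b * ((y:ℤ)^2 * P.A.1 + y * P.B.1 + P.C.1) +
        M.e * ((y:ℤ)^2 * P.A.2.1 + y * P.B.2.1 + P.C.2.1) +
        M.h * ((y:ℤ)^2 * P.A.2.2 + y * P.B.2.2 + P.C.2.2)) * hr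
        + e * (M.b * ((D * y + N) * P.A.1 + D * P.B.1) +
          M.e * ((D * y + N) * P.A.2.1 + D * P.B.2.1) + M.h * ((D * y + N) * P.A.2.2 + D * P.B.2.2)) * hw
    · linear_combination e * ha3 - (M.c * ((y:ℤ)^2 * P.A.1 + y * P.B.1 + P.C.1) +
        M.f * ((y:ℤ)^2 * P.A.2.1 + y * P.B.2.1 + P.C.2.1) +
        M.i * ((y:ℤ)^2 * P.A.2.2 + y * P.B.2.2 + P.C.2.2)) * hr
        + e * (M.c * ((D * y + N) * P.A.1 + D * P.B.1) +
          M.f * ((D * y + N) * P.A.2.1 + D * P.B.2.1) + M.i * ((D * y + N) * P.A.2.2 + D * P.B.2.2)) * hw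

end Pool.Agent.Work.MP_9954fe_nt
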