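import Pool.Agent.Work.MP_9954fe_nt.Move

/-!
Validity of the data of a check, and the step from a corner to the next one.
-/

set_option autoImplicit false

namespace Pool.Agent.Work.MP_9954fe_nt

/-- The test of an image, for the first of a list of maps. -/
noncomputable def sgh : Mo → ℕ → ℕ → ℕ → Bool
  | .cons a b c d _, p, m, t => sg p a b c d m t
  | .nil, _, _, _ => false

/-- A valid move in direction `i`, at the prime of `P`, from the first digit `l` of the first
prime and the digit `e`. -/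
structure MvOk (P0 : PD) (Pl : List PD) (Pm : PD) (m0 i : ℕ) (P : PD) (l e : ℕ) (mv : Mv) :
    Prop where
  sim : ∀ v, Qf (mv.M.mul v) = (P.p : ℤ) ^ 2 * Qf v
  dual : ∀ w, Qs (mv.M.tmul w) = (P.p : ℤ) ^ 2 * Qs w
  out : Outer P.p mv.M mv.s (P.lam ((if i = 0 then l else e : ℕ) : ℤ))
  mo : MoI mv.M (if i = 0 then l else e) P.p i (P0 :: Pl) mv.mo mv.mu
  cop : ¬ (Pm.p : ℤ) ∣ (P.p : ℤ)
  msk : TrI Pm (Pm.p : ℤ) mv.M mv.a mv.b mv.c mv.d mv.mum
  can : sgh mv.mo P0.p m0 (if i = 0 then e else l) = true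

/-- A valid move in the direction of the line `e` of the mask prime. -/
structure MmOk (P0 : PD) (Pl : List PD) (Pm : PD) (m0 l e : ℕ) (mv : Mv) : Prop where
  sim : ∀ v, Qf (mv.M.mul v) = (Pm.p : ℤ) ^ 2 * Qf v
  out : Outer Pm.p mv.M mv.s (Pm.lam (e : ℤ))
  mo : MoJ mv.M Pm.p (P0 :: Pl) mv.mo mv.mu
  lt : mv.a < Pm.p
  rev : VDvd ((Pm.p : ℤ) ^ 2) (mv.M.tmul (Pm.lam (mv.a : ℤ))) (0, 0, 0)
  can : sgh mv.mo P0.p m0 l = true

/-- All the data of a check are valid. -/
structure Val (S : Pr) (P0 : PD) (Pl : List PD) (Pm : PD) (cn : ℕ) : Prop where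
  okd : ∀ P ∈ P0 :: Pl, P.Ok
  okm : Pm.Ok
  len : Pl.length ≤ 3
  pm : S.pm = Pm.p
  full : ∀ l < Pm.p, S.full.testBit l = true
  ty1 : ∀ l < Pm.p, S.ty1.testBit l = true → T1 Pm.p (Pm.lam (l : ℤ))
  tys : ∀ (j : ℕ) (P : PD), (P0 :: Pl)[j]? = some P → ∀ d < P.p,
    (S.tys.getD j 0).testBit d = true → T1 P.p (P.lam (d : ℤ))
  pks : ∀ (j : ℕ) (P : PD), (P0 :: Pl)[j]? = some P → S.pks.getD j 0 ≤ P.p ^ P.K
  lab : ∀ a ∈ S.ls, a < 4
  mv : ∀ (i : ℕ) (P : PD), (P0 :: Pl)[i]? = some P → ∀ l < P0.p, cn.testBit l = true →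
    ∀ e < P.p, (i = 0 ∨ (S.tys.getD i 0).testBit e = false) →
    MvOk P0 Pl Pm (Nat.lor cn (S.tys.getD 0 0)) i P l e (S.tab i l e)
  mm : ∀ l < P0.p, cn.testBit l = true → ∀ e < Pm.p, S.ty1.testBit e = false →
    MmOk P0 Pl Pm (Nat.lor cn (S.tys.getD 0 0)) l e (S.tab 4 l e)

/-- The standing assumptions: `n` is a bad number. -/
structure Ctx (S : Pr) (P0 : PD) (Pl : List PD) (Pm : PD) (cn : ℕ) (n : ℤ) : Prop
    extends Val S P0 Pl Pm cn where
  bad : ¬ Rep n
  nd : ∀ P ∈ P0 :: Pl, ¬ (P.p : ℤ) ∣ n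
  ndm : ¬ (Pm.p : ℤ) ∣ n

/-- A corner with canonical first digit. -/
structure Cnr (P0 : PD) (Pl : List PD) (cn : ℕ) (n : ℤ) (v : V) (x0 : ℕ) (xr : List ℕ) : Prop where
  q : Qf v = n
  e : Ends v (P0 :: Pl) (x0 :: xr)
  can : cn.testBit (x0 % P0.p) = true

/-- No line of a corner is dead with a code less than `c`. -/
def Cl (S : Pr) (P0 : PD) (Pl : List PD) (Pm : PD) (cn : ℕ) (n : ℤ) (c : ℕ) : Prop :=
  ∀ v x0 xr, Cnr P0 Pl cn n v x0 xr → ∀ l, Line Pm v l →
    (Qm S.full S.T 0 S.ls (E (P0 :: Pl) (x0 :: xr)) c 0).testBit l = false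

variable {S : Pr} {P0 : PD} {Pl : List PD} {Pm : PD} {cn : ℕ} {n : ℤ}

theorem ends_get {v : V} {Ps : List PD} {xs : List ℕ} (h : Ends v Ps xs) :
    ∀ {i : ℕ} {P : PD} {x : ℕ}, Ps[i]? = some P → xs[i]? = some x → End P v x := by
  induction h with
  | nil => intro i P x h1 _; simp at h1
  | @cons P x Ps xs hx h ih =>
    intro i P' x' h1 h2
    cases i with
    | zero =>
      simp only [List.getElem?_cons_zero, Option.some.injEq] at h1 h2
      obtain ⟨rfl⟩ := h1
      obtain ⟨rfl⟩ := h2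
      exact hx
    | succ i =>
      simp only [List.getElem?_cons_succ] at h1 h2
      exact ih h1 h2

theorem ends_len {v : V} {Ps : List PD} {xs : List ℕ} (h : Ends v Ps xs) : Ps.length = xs.length :=
  List.Forall₂.length_eq h

theorem mem_of_get {Ps : List PD} {i : ℕ} {P : PD} (h : Ps[i]? = some P) : P ∈ Ps :=
  List.mem_of_getElem? h

/-- The digit of a type one line does not occur. -/
theorem Ctx.not_ty (H : Ctx S P0 Pl Pm cn n) {v : V} (hv : Qf v = n) {j : ℕ} {P : PD}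
    (hP : (P0 :: Pl)[j]? = some P) {x : ℕ} (hx : End P v x) :
    (S.tys.getD j 0).testBit (x % P.p) = false := by
  have hok := H.okd P (mem_of_get hP)
  have hl := End.line hok hx
  rcases h : (S.tys.getD j 0).testBit (x % P.p) with _ | _
  · rfl
  · exact absurd hl.2 ((H.tys j P hP _ hl.1 h).not_dvd hok.prime H.bad hv)

theorem Ctx.not_ty1 (H : Ctx S P0 Pl Pm cn n) {v : V} (hv : Qf v = n) {l : ℕ} (hl : Line Pm v l) :
    S.ty1.testBit l = false := by
  rcases h : S.ty1.testBit l with _ | _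
  · rfl
  · exact absurd hl.2 ((H.ty1 _ hl.1 h).not_dvd H.okm.prime H.bad hv)

/-- If everything is dead or of the first type, there is no line. -/
theorem Ctx.no_line (H : Ctx S P0 Pl Pm cn n) {v : V} (hv : Qf v = n) {l : ℕ} (hl : Line Pm v l)
    {m : ℕ} (hm : Nat.beq (Nat.lor m S.ty1) S.full = true) : m.testBit l = true := by
  rw [beq_iff] at hm
  have h1 := H.full l hl.1
  rw [← hm, lor_bit, H.not_ty1 hv hl, Bool.or_false] at h1
  exact h1

/-- The new vector. -/
theorem newv {p : ℕ} (hp : p.Prime) {M : M3} {s l : V} (hs : ∀ v, Qf (M.mul v) = (p : ℤ) ^ 2 * Qf v)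
    (ho : Outer p M s l) {v : V} (hv : Qf v = n) (hd : (p : ℤ) ∣ dot l v) :
    ∃ v', Qf v' = n ∧ M.mul v = smul (p : ℤ) v' := by
  obtain ⟨u, hu⟩ := ho.mul_dvd hd
  refine ⟨u, ?_, hu⟩
  have h1 := hs v
  rw [hu, hv] at h1
  have hp0 : (p : ℤ) ^ 2 ≠ 0 := pow_ne_zero _ (by exact_mod_cast hp.ne_zero)
  apply mul_left_cancel₀ hp0
  rw [← h1]
  simp only [Qf]
  ring

theorem lor_false {a b i : ℕ} (h : (Nat.lor a b).testBit i = true) (hb : b.testBit i = false) :
    a.testBit i = true := by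
  rw [lor_bit, hb, Bool.or_false] at h
  exact h

/-- A move in direction `i`. -/
theorem Ctx.move (H : Ctx S P0 Pl Pm cn n) {v : V} {x0 : ℕ} {xr : List ℕ}
    (hc : Cnr P0 Pl cn n v x0 xr) {i : ℕ} {P : PD} (hP : (P0 :: Pl)[i]? = some P) {x : ℕ}
    (hx : (x0 :: xr)[i]? = some x) {e : ℕ}
    (he : e = if i = 0 then x0 / P0.p % P0.p else x % P.p) :
    ∃ v' y0 yr, Cnr P0 Pl cn n v' y0 yr ∧
      (S.tab i (x0 % P0.p) e).M.mul v = smul (P.p : ℤ) v' ∧
      Img (S.tab i (x0 % P0.p) e).mo (shiftc (E (P0 :: Pl) (x0 :: xr)) i) (E (P0 :: Pl) (y0 :: yr)) ∧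
      ∀ l, Line Pm v l → ∃ l', Line Pm v' l' ∧
        ¬ Pm.p ∣ (S.tab i (x0 % P0.p) e).c * l + (S.tab i (x0 % P0.p) e).d ∧
        ((S.tab i (x0 % P0.p) e).c * l + (S.tab i (x0 % P0.p) e).d) * l' ≡
          (S.tab i (x0 % P0.p) e).a * l + (S.tab i (x0 % P0.p) e).b [MOD Pm.p] := by
  have hok0 := H.okd P0 (List.mem_cons_self ..)
  have hok := H.okd P (mem_of_get hP)
  have hE : End P v x := ends_get hc.e hP hx
  have hl0 : x0 % P0.p < P0.p := Nat.mod_lt _ hok0.prime.pos
  have hPi : i = 0 → P = P0 ∧ x = x0 := by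
    rintro rfl
    simp only [List.getElem?_cons_zero, Option.some.injEq] at hP hx
    exact ⟨hP.symm, hx.symm⟩
  have hep : e < P.p := by
    rw [he]
    split_ifs with h0
    · rw [(hPi h0).1]; exact Nat.mod_lt _ hok0.prime.pos
    · exact Nat.mod_lt _ hok.prime.pos
  have hm := H.mv i P hP _ hl0 hc.can e hep (by
    by_cases h0 : i = 0
    · exact Or.inl h0
    · right; rw [he, if_neg h0]; exact H.not_ty hc.q hP hE)
  set mv := S.tab i (x0 % P0.p) e with hmv
  -- the own first digit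
  have hown : x % P.p = if i = 0 then x0 % P0.p else e := by
    split_ifs with h0
    · obtain ⟨h1, h2⟩ := hPi h0; rw [h1, h2]
    · rw [he, if_neg h0]
  have hline := End.line hok hE
  obtain ⟨v', hv', hM⟩ := newv hok.prime hm.sim hm.out hc.q (by rw [← hown]; exact hline.2)
  obtain ⟨ys, hys, hI⟩ := hm.mo.img H.bad hv' hM H.okd H.nd hc.e (by
    intro P' x' h1 h2
    rw [hP] at h1
    rw [hx] at h2
    simp only [Option.some.injEq] at h1 h2
    rw [← h1, ← h2]
    exact hown)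
  cases hys with
  | @cons _ y0 _ yr hy0 hyr =>
    refine ⟨v', y0, yr, ⟨hv', List.Forall₂.cons hy0 hyr, ?_⟩, hM, hI, ?_⟩
    · -- canonical
      have hcan := hm.can
      have key : ∀ {k X : ℕ} {t : Cs}, 1 ≤ k →
          Img mv.mo (.cons P0.p X (P0.p ^ k) t) (E (P0 :: Pl) (y0 :: yr)) →
          X ≡ (if i = 0 then e else x0 % P0.p) [MOD P0.p] → cn.testBit (y0 % P0.p) = true := by
        intro k X t hk hI hX
        generalize hmo : mv.mo = mo at hI hcan
        rw [E] at hI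
        cases hI with
        | @cons a b c d mo p X P t y Q t' hp k' K' hkK hPk hQ h ht =>
          have hkk : k' = k := Nat.pow_right_injective hok0.prime.two_le (by
            show P0.p ^ k' = P0.p ^ k
            exact hPk.symm)
          obtain ⟨h1, h2⟩ := h (by omega)
          have h3 : (c * X + d) * y0 ≡ a * X + b [MOD P0.p] :=
            h2.of_dvd (dvd_pow_self _ (by omega))
          have h4 := sg_sound hok0.prime (m := Nat.lor cn (S.tys.getD 0 0)) hcan hX h1 h3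
          exact lor_false h4 (H.not_ty hv' rfl hy0)
      have hK := hok0.K2
      cases i with
      | zero =>
        rw [E, shiftc_zero] at hI
        have h7 : P0.p ^ P0.K / P0.p = P0.p ^ (P0.K - 1) := by
          conv_lhs => rw [show P0.K = (P0.K - 1) + 1 by omega, pow_succ]
          exact Nat.mul_div_cancel _ hok0.prime.pos
        rw [h7] at hI
        refine key (by omega : 1 ≤ P0.K - 1) hI ?_
        rw [if_pos rfl, he, if_pos rfl]
        exact (Nat.mod_modEq _ _).symm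
      | succ i =>
        rw [E, shiftc_succ] at hI
        refine key (by omega : 1 ≤ P0.K) hI ?_
        rw [if_neg (by omega)]
        exact (Nat.mod_modEq _ _).symm
    · intro l hl
      obtain ⟨h1, l', h2, h3⟩ := hm.msk.line_ H.okm H.bad hv' hm.cop hM hl
      refine ⟨l', h3, not_dvd_of h1, ?_⟩
      have := modEq_of (k := 1) (by rw [pow_one]; exact h2)
      rwa [pow_one] at this

/-- A move in the direction of a line of the mask prime. -/
theorem Ctx.movem (H : Ctx S P0 Pl Pm cn n) {v : V} {x0 : ℕ} {xr : List ℕ}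
    (hc : Cnr P0 Pl cn n v x0 xr) {e : ℕ} (he : Line Pm v e) :
    ∃ v' y0 yr, Cnr P0 Pl cn n v' y0 yr ∧
      Img (S.tab 4 (x0 % P0.p) e).mo (E (P0 :: Pl) (x0 :: xr)) (E (P0 :: Pl) (y0 :: yr)) ∧
      ∃ l', l' ≠ (S.tab 4 (x0 % P0.p) e).a ∧ Line Pm v' l' := by
  have hok0 := H.okd P0 (List.mem_cons_self ..)
  have hl0 : x0 % P0.p < P0.p := Nat.mod_lt _ hok0.prime.pos
  have hm := H.mm _ hl0 hc.can e he.1 (H.not_ty1 hc.q he)
  set mv := S.tab 4 (x0 % P0.p) e with hmv
  obtain ⟨v', hv', hM⟩ := newv H.okm.prime hm.sim hm.out hc.q he.2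
  obtain ⟨ys, hys, hI⟩ := hm.mo.img H.bad hv' hM H.okd hc.e
  cases hys with
  | @cons _ y0 _ yr hy0 hyr =>
    refine ⟨v', y0, yr, ⟨hv', List.Forall₂.cons hy0 hyr, ?_⟩, hI, ?_⟩
    · have hcan := hm.can
      have hK := hok0.K2
      generalize hmo : mv.mo = mo at hI hcan
      rw [E, E] at hI
      cases hI with
      | @cons a b c d mo p X P t y Q t' hp k' K' hkK hPk hQ h ht =>
        have hkk : k' = P0.K := Nat.pow_right_injective hok0.prime.two_le (by
          show P0.p ^ k' = P0.p ^ P0.K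
          exact hPk.symm)
        obtain ⟨h1, h2⟩ := h (by omega)
        have h3 : (c * x0 + d) * y0 ≡ a * x0 + b [MOD P0.p] :=
          h2.of_dvd (dvd_pow_self _ (by omega))
        have h4 := sg_sound hok0.prime (m := Nat.lor cn (S.tys.getD 0 0)) hcan
          (Nat.mod_modEq _ _).symm h1 h3
        exact lor_false h4 (H.not_ty hv' rfl hy0)
    · have hrev : Line Pm v' mv.a := by
        refine ⟨hm.lt, ?_⟩
        have h1 := hm.rev.dot v
        rw [dot_tmul, hM] at h1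
        have h2 : dot (Pm.lam (mv.a : ℤ)) (smul (Pm.p : ℤ) v') - dot (0, 0, 0) v =
            Pm.p * dot (Pm.lam (mv.a : ℤ)) v' := by
          simp only [dot, smul]; ring
        rw [h2, pow_two] at h1
        have hp0 : (Pm.p : ℤ) ≠ 0 := by exact_mod_cast H.okm.prime.ne_zero
        exact (mul_dvd_mul_iff_left hp0).mp h1
      exact hrev.other H.okm H.bad H.ndm hv'

end Pool.Agent.Work.MP_9954fe_nt
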