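import Pool.Agent.Work.MP_9954fe_nt.Genus
import Pool.Agent.Work.MP_9954fe_nt.Parallel

/-!
Odd numbers congruent to two modulo three are represented.
-/

set_option autoImplicit false

namespace Pool.Agent.Work.MP_9954fe_nt

theorem three_bad {n : ℤ} (hr : ¬ Rep n) (h3 : n % 3 = 2) {v : V} (hv : Qf v = n) :
    (3 : ℤ) ∣ v.1 ∧ (3 : ℤ) ∣ v.2.2 := by
  obtain ⟨x, y, z⟩ := v
  simp only [Qf] at hv
  have h1 : ¬ (3 : ℤ) ∣ y + z := by
    rintro ⟨k, hk⟩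
    apply hr
    refine ⟨x + 2 * k - 2 * z, x - 2 * k + z, -k, ?_⟩
    have hy : y = 3 * k - z := by linarith
    rw [← hv, hy]; ring
  have h2 : ¬ (3 : ℤ) ∣ y - z := by
    rintro ⟨k, hk⟩
    apply hr
    refine ⟨x - 2 * z - 2 * k, x + z + 2 * k, k, ?_⟩
    have hy : y = 3 * k + z := by linarith
    rw [← hv, hy]; ring
  have hx : x % 3 = 0 ∨ x % 3 = 1 ∨ x % 3 = 2 := by omega
  have hy : y % 3 = 0 ∨ y % 3 = 1 ∨ y % 3 = 2 := by omega
  have hz : z % 3 = 0 ∨ z % 3 = 1 ∨ z % 3 = 2 := by omega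
  have key : (2 * (x % 3) ^ 2 - 2 * (x % 3) * (z % 3) + 2 * (y % 3) ^ 2) % 3 = 2 := by
    have h4 : (2 * (x % 3) ^ 2 - 2 * (x % 3) * (z % 3) + 2 * (y % 3) ^ 2) ≡
        2 * x ^ 2 - 2 * x * z + 3 * z ^ 2 + 2 * y ^ 2 [ZMOD 3] := by
      have a1 : x % 3 ≡ x [ZMOD 3] := Int.mod_modEq x 3
      have a2 : y % 3 ≡ y [ZMOD 3] := Int.mod_modEq y 3
      have a3 : z % 3 ≡ z [ZMOD 3] := Int.mod_modEq z 3
      have a4 : (0 : ℤ) ≡ 3 * z ^ 2 [ZMOD 3] := by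
        rw [Int.modEq_iff_dvd]; exact ⟨z ^ 2, by ring⟩
      have := ((((a1.pow 2).mul_left 2).sub ((a1.mul_left 2).mul a3)).add a4).add ((a2.pow 2).mul_left 2)
      simpa using this
    rw [hv] at h4
    rw [h4]; exact h3
  rcases hx with hx | hx | hx <;> rcases hy with hy | hy | hy <;> rcases hz with hz | hz | hz <;>
    rw [hx, hy, hz] at key <;> norm_num at key <;> refine ⟨?_, ?_⟩ <;> dsimp only <;>
    omega

theorem three_common {n : ℤ} (hr : ¬ Rep n) (h3 : n % 3 = 2) (j : ℕ) : ∀ {v : V}, Qf v = n →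
    ∃ l : V, (¬ (3 : ℤ) ∣ l.1 ∧ (3 : ℤ) ∣ l.2.1 ∧ (3 : ℤ) ∣ l.2.2) ∧ (3 : ℤ) ^ j ∣ dot l v ∧
      (3 : ℤ) ^ j ∣ dot l (0, 1, 0) ∧ (3 : ℤ) ^ j ∣ Qs l := by
  induction j with
  | zero =>
    intro v hv
    refine ⟨(1, 0, 0), ⟨by norm_num, by norm_num, by norm_num⟩, ?_, ?_, ?_⟩ <;>
      rw [pow_zero] <;> exact one_dvd _
  | succ j ih =>
    rintro ⟨x, y, z⟩ hv
    obtain ⟨⟨a, ha⟩, -⟩ := three_bad hr h3 hv
    simp only at ha
    subst ha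
    have hv' : Qf (a + z, y, -2 * a + z) = n := by
      rw [← hv]; simp only [Qf]; ring
    obtain ⟨⟨l1, l2, l3⟩, ⟨h1, h2, h4⟩, ⟨b, h5⟩, ⟨c, h6⟩, ⟨d, h7⟩⟩ := ih hv'
    simp only [dot, Qs] at h1 h2 h4 h5 h6 h7
    refine ⟨(l1 - 2 * l3, 3 * l2, 3 * l1 + 3 * l3), ⟨?_, ⟨l2, rfl⟩, ⟨l1 + l3, by ring⟩⟩, ?_, ?_, ?_⟩
    · simp only
      omega
    · refine ⟨b, ?_⟩
      simp only [dot]
      rw [pow_succ]
      linear_combination 3 * h5
    · refine ⟨c, ?_⟩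
      simp only [dot]
      rw [pow_succ]
      linear_combination 3 * h6
    · refine ⟨3 * d, ?_⟩
      simp only [Qs]
      rw [pow_succ]
      linear_combination 9 * h7

theorem rep_two_mod_three (n : ℕ) (ho : Odd n) (h3 : n % 3 = 2) : Rep n := by
  by_contra hr
  have h3' : (n : ℤ) % 3 = 2 := by omega
  rcases genus_odd n ho with h | ⟨v, hv⟩
  · exact hr h
  · have hc : cross v (0, 1, 0) = 0 := by
      apply cross_eq_zero_of_forall 3 Nat.prime_three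
      intro j
      obtain ⟨l, ⟨h1, -, -⟩, h2, h4, h5⟩ := three_common hr h3' j hv
      refine ⟨l, fun h => h1 ?_, ?_, ?_, ?_⟩
      · exact_mod_cast h.1
      · exact_mod_cast h2
      · exact_mod_cast h4
      · exact_mod_cast h5
    obtain ⟨t, -, ht⟩ := eq_sq_mul_of_cross v (0, 1, 0) (by decide) hc
    rw [hv] at ht
    simp only [Qf] at ht
    have h6 : (n : ℤ) = 2 * t ^ 2 := by rw [ht]; ring
    obtain ⟨k, hk⟩ := ho
    rw [hk] at h6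
    push_cast at h6
    omega

end Pool.Agent.Work.MP_9954fe_nt
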