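import Pool.Agent.Work.MP_9954fe_nt.Fin

/-!
Boolean checks of the validity of the data.
-/

set_option autoImplicit false

namespace Pool.Agent.Work.MP_9954fe_nt

/-- Divisibility. -/
def cz (m : ℕ) (x : ℤ) : Bool := Nat.beq (Nat.mod (Int.natAbs x) m) 0

theorem cz_iff {m : ℕ} {x : ℤ} : cz m x = true ↔ (m : ℤ) ∣ x := by
  unfold cz
  rw [beq_iff, Int.natCast_dvd]
  exact ⟨fun h => Nat.dvd_of_mod_eq_zero h, fun h => Nat.mod_eq_zero_of_dvd h⟩

theorem cz_not {m : ℕ} {x : ℤ} : (!cz m x) = true ↔ ¬ (m : ℤ) ∣ x := by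
  rw [← cz_iff]; simp

/-- Vanishing. -/
def ez (x : ℤ) : Bool := Nat.beq (Int.natAbs x) 0

theorem ez_iff {x : ℤ} : ez x = true ↔ x = 0 := by
  unfold ez
  rw [beq_iff, Int.natAbs_eq_zero]

/-- `M` multiplies `Qf` by `k`. -/
def simb (k : ℤ) : M3 → Bool
  | ⟨a, b, c, d, e, f, g, h, i⟩ =>
    ez (2 * a * a - 2 * a * g + 3 * g * g + 2 * d * d - 2 * k) &&
    (ez (2 * b * b - 2 * b * h + 3 * h * h + 2 * e * e - 2 * k) &&
    (ez (2 * c * c - 2 * c * i + 3 * i * i + 2 * f * f - 3 * k) &&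
    (ez (4 * a * b - 2 * a * h - 2 * b * g + 6 * g * h + 4 * d * e) &&
    (ez (4 * a * c - 2 * a * i - 2 * c * g + 6 * g * i + 4 * d * f + 2 * k) &&
    ez (4 * b * c - 2 * b * i - 2 * c * h + 6 * h * i + 4 * e * f)))))

theorem simb_sound {k : ℤ} {M : M3} (h : simb k M = true) : ∀ v, Qf (M.mul v) = k * Qf v := by
  obtain ⟨a, b, c, d, e, f, g, h', i⟩ := M
  unfold simb at h
  simp only [Bool.and_eq_true, ez_iff] at h
  obtain ⟨h1, h2, h3, h4, h5, h6⟩ := h
  rintro ⟨x, y, z⟩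
  simp only [Qf, M3.mul]
  linear_combination x ^ 2 * h1 + y ^ 2 * h2 + z ^ 2 * h3 + x * y * h4 + x * z * h5 + y * z * h6

/-- The transpose of `M` multiplies `Qs` by `k`. -/
def dualb (k : ℤ) : M3 → Bool
  | ⟨a, b, c, d, e, f, g, h, i⟩ =>
    ez (6 * a * a + 5 * b * b + 4 * c * c + 4 * a * c - 6 * k) &&
    (ez (6 * d * d + 5 * e * e + 4 * f * f + 4 * d * f - 5 * k) &&
    (ez (6 * g * g + 5 * h * h + 4 * i * i + 4 * g * i - 4 * k) &&
    (ez (12 * a * d + 10 * b * e + 8 * c * f + 4 * a * f + 4 * d * c) &&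
    (ez (12 * a * g + 10 * b * h + 8 * c * i + 4 * a * i + 4 * g * c - 4 * k) &&
    ez (12 * d * g + 10 * e * h + 8 * f * i + 4 * d * i + 4 * g * f)))))

theorem dualb_sound {k : ℤ} {M : M3} (h : dualb k M = true) : ∀ w, Qs (M.tmul w) = k * Qs w := by
  obtain ⟨a, b, c, d, e, f, g, h', i⟩ := M
  unfold dualb at h
  simp only [Bool.and_eq_true, ez_iff] at h
  obtain ⟨h1, h2, h3, h4, h5, h6⟩ := h
  rintro ⟨x, y, z⟩
  simp only [Qs, M3.tmul]
  linear_combination x ^ 2 * h1 + y ^ 2 * h2 + z ^ 2 * h3 + x * y * h4 + x * z * h5 + y * z * h6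

/-- `M` maps `k Qf` to `Q1`. -/
def sim1b (k : ℤ) : M3 → Bool
  | ⟨a, b, c, d, e, f, g, h, i⟩ =>
    ez (a * a + d * d + 10 * g * g - 2 * k) &&
    (ez (b * b + e * e + 10 * h * h - 2 * k) &&
    (ez (c * c + f * f + 10 * i * i - 3 * k) &&
    (ez (a * b + d * e + 10 * g * h) &&
    (ez (a * c + d * f + 10 * g * i + k) &&
    ez (b * c + e * f + 10 * h * i)))))

theorem sim1b_sound {k : ℤ} {M : M3} (h : sim1b k M = true) : ∀ v, Q1 (M.mul v) = k * Qf v := by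
  obtain ⟨a, b, c, d, e, f, g, h', i⟩ := M
  unfold sim1b at h
  simp only [Bool.and_eq_true, ez_iff] at h
  obtain ⟨h1, h2, h3, h4, h5, h6⟩ := h
  rintro ⟨x, y, z⟩
  simp only [Qf, Q1, M3.mul]
  linear_combination x ^ 2 * h1 + y ^ 2 * h2 + z ^ 2 * h3 + 2 * x * y * h4 + 2 * x * z * h5 +
    2 * y * z * h6

/-- Check of `Outer`. -/
def outb (p : ℕ) : M3 → V → V → Bool
  | ⟨a, b, c, d, e, f, g, h, i⟩, (s1, s2, s3), (l1, l2, l3) =>
    (cz p (a - s1 * l1) && (cz p (b - s1 * l2) && cz p (c - s1 * l3))) &&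
    ((cz p (d - s2 * l1) && (cz p (e - s2 * l2) && cz p (f - s2 * l3))) &&
    (cz p (g - s3 * l1) && (cz p (h - s3 * l2) && cz p (i - s3 * l3))))

theorem outb_sound {p : ℕ} {M : M3} {s l : V} (h : outb p M s l = true) : Outer p M s l := by
  obtain ⟨a, b, c, d, e, f, g, h', i⟩ := M
  obtain ⟨s1, s2, s3⟩ := s
  obtain ⟨l1, l2, l3⟩ := l
  unfold outb at h
  simp only [Bool.and_eq_true, cz_iff] at h
  exact h

/-- A certificate of a line of the first type. -/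
structure C1 where
  (N : M3) (s : V)

/-- Check of a line of the first type. -/
def t1b (p : ℕ) (l : V) : C1 → Bool
  | ⟨N, s⟩ => sim1b (Int.ofNat (Nat.mul p p)) N && outb p N s l

theorem ofNat_mul (p : ℕ) : Int.ofNat (Nat.mul p p) = (p : ℤ) ^ 2 := by
  show ((p * p : ℕ) : ℤ) = _
  push_cast; ring

theorem t1b_sound {p : ℕ} {l : V} {C : C1} (h : t1b p l C = true) : T1 p l := by
  obtain ⟨N, s⟩ := C
  unfold t1b at h
  rw [Bool.and_eq_true] at h
  refine ⟨N, s, ?_, outb_sound h.2⟩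
  have := sim1b_sound h.1
  rw [ofNat_mul] at this
  exact this

/-- The covector with parameter `x`, without powers. -/
def PD.lam' (P : PD) (x : ℤ) : V :=
  (x * x * P.A.1 + x * P.B.1 + P.C.1, x * x * P.A.2.1 + x * P.B.2.1 + P.C.2.1,
    x * x * P.A.2.2 + x * P.B.2.2 + P.C.2.2)

theorem PD.lam'_eq (P : PD) (x : ℤ) : P.lam' x = P.lam x := by
  simp only [PD.lam', PD.lam, PD.cov, Prod.mk.injEq]
  refine ⟨by ring, by ring, by ring⟩

/-- Check of the first type lines of a mask. -/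
noncomputable def tyb (P : PD) (m : ℕ) (L : List C1) : Bool :=
  alln (fun d => bi (tb m d) (t1b P.p (P.lam' (Int.ofNat d)) (lget ⟨⟨0, 0, 0, 0, 0, 0, 0, 0, 0⟩, (0, 0, 0)⟩ L d))
    true) P.p

theorem tyb_sound {P : PD} {m : ℕ} {L : List C1} (h : tyb P m L = true) : ∀ d < P.p,
    m.testBit d = true → T1 P.p (P.lam (d : ℤ)) := by
  intro d hd hm
  unfold tyb at h
  rw [alln_iff] at h
  have h1 := h d hd
  rw [tb_eq, hm, bi_true] at h1
  have h2 := t1b_sound h1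
  rw [PD.lam'_eq] at h2
  exact h2

/-- Check of the data of a prime. -/
def pdb (P : PD) (s : ℤ) (C : C1) : Bool :=
  Nat.ble 2 P.K && (Nat.ble (Nat.succ P.p) 1000 && ((!cz P.p 10) && ((!cz P.p s) &&
  (t1b P.p P.A C && (
    cz P.p (P.B.1 * P.B.1 - 4 * P.A.1 * P.C.1 + 20 * s * s) &&
    (cz P.p (P.B.2.1 * P.B.2.1 - 4 * P.A.2.1 * P.C.2.1 + 20 * s * s) &&
    (cz P.p (P.B.2.2 * P.B.2.2 - 4 * P.A.2.2 * P.C.2.2 + 30 * s * s) &&
    (cz P.p (2 * P.B.1 * P.B.2.1 - 4 * (P.A.1 * P.C.2.1 + P.A.2.1 * P.C.1)) &&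
    (cz P.p (2 * P.B.1 * P.B.2.2 - 4 * (P.A.1 * P.C.2.2 + P.A.2.2 * P.C.1) - 20 * s * s) &&
    cz P.p (2 * P.B.2.1 * P.B.2.2 - 4 * (P.A.2.1 * P.C.2.2 + P.A.2.2 * P.C.2.1)))))))))))

theorem pdb_sound {P : PD} {s : ℤ} {C : C1} (hp : P.p.Prime) (h : pdb P s C = true) : P.Ok := by
  unfold pdb at h
  simp only [Bool.and_eq_true, cz_iff, cz_not] at h
  obtain ⟨h1, h2, h3, h4, h5, g1, g2, g3, g4, g5, g6⟩ := h
  rw [ble_iff] at h1 h2
  refine ⟨hp, h1, by omega, h3, ⟨s, h4, ?_⟩, t1b_sound h5⟩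
  rintro ⟨x, y, z⟩
  obtain ⟨a1, ha1⟩ := g1
  obtain ⟨a2, ha2⟩ := g2
  obtain ⟨a3, ha3⟩ := g3
  obtain ⟨a4, ha4⟩ := g4
  obtain ⟨a5, ha5⟩ := g5
  obtain ⟨a6, ha6⟩ := g6
  refine ⟨x ^ 2 * a1 + y ^ 2 * a2 + z ^ 2 * a3 + x * y * a4 + x * z * a5 + y * z * a6, ?_⟩
  simp only [dot, Qf]
  linear_combination x ^ 2 * ha1 + y ^ 2 * ha2 + z ^ 2 * ha3 + x * y * ha4 + x * z * ha5 + y * z * ha6

/-- Congruence of covectors. -/
def vz (m : ℕ) (u w : V) : Bool := cz m (u.1 - w.1) && (cz m (u.2.1 - w.2.1) && cz m (u.2.2 - w.2.2))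

theorem vz_sound {m : ℕ} {u w : V} (h : vz m u w = true) : VDvd (m : ℤ) u w := by
  unfold vz at h
  simp only [Bool.and_eq_true, cz_iff] at h
  exact h

/-- Check of a transport identity. -/
def trib (P : PD) (m : ℕ) (M : M3) (a b c d : ℤ) (mu : ℤ) : Bool :=
  vz m (M.tmul (P.cov (a * a) (a * c) (c * c))) (smul mu P.A) &&
  (vz m (M.tmul (P.cov (2 * a * b) (a * d + b * c) (2 * c * d))) (smul mu P.B) &&
  (vz m (M.tmul (P.cov (b * b) (b * d) (d * d))) (smul mu P.C) &&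
  !cz P.p (a * d - b * c)))

theorem trib_sound {P : PD} {m : ℕ} {M : M3} {a b c d : ℕ} {mu : ℤ}
    (h : trib P m M (Int.ofNat a) (Int.ofNat b) (Int.ofNat c) (Int.ofNat d) mu = true) :
    TrI P (m : ℤ) M a b c d mu := by
  unfold trib at h
  simp only [Bool.and_eq_true, cz_not] at h
  obtain ⟨h1, h2, h3, h4⟩ := h
  refine ⟨?_, ?_, ?_, h4⟩
  · rw [pow_two, pow_two]; exact vz_sound h1
  · exact vz_sound h2
  · rw [pow_two, pow_two]; exact vz_sound h3

/-- Check of an own identity. -/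
def ownb (P : PD) (M : M3) (l : ℕ) (a b c d : ℤ) (mu : ℤ) : Bool :=
  vz (Nat.pow P.p P.K) (M.tmul (P.cov (a * a) (a * c) (c * c)))
    (smul (mu * Int.ofNat P.p * Int.ofNat P.p) P.A) &&
  (vz (Nat.pow P.p P.K) (M.tmul (P.cov (2 * a * b) (a * d + b * c) (2 * c * d)))
    (smul (mu * Int.ofNat P.p) (P.cov (2 * Int.ofNat l) 1 0)) &&
  (vz (Nat.pow P.p P.K) (M.tmul (P.cov (b * b) (b * d) (d * d))) (smul mu (P.lam' (Int.ofNat l))) &&
  ((!cz P.p (a * d - b * c)) && !cz P.p mu)))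

theorem ownb_sound {P : PD} {M : M3} {l a b c d : ℕ} {mu : ℤ}
    (h : ownb P M l (Int.ofNat a) (Int.ofNat b) (Int.ofNat c) (Int.ofNat d) mu = true) :
    OwI P M l a b c d mu := by
  unfold ownb at h
  simp only [Bool.and_eq_true, cz_not] at h
  obtain ⟨h1, h2, h3, h4, h5⟩ := h
  have hpK : ((Nat.pow P.p P.K : ℕ) : ℤ) = (P.p : ℤ) ^ P.K := by
    show ((P.p ^ P.K : ℕ) : ℤ) = _
    push_cast; rfl
  refine ⟨?_, ?_, ?_, h4, h5⟩
  · have := vz_sound h1
    rw [hpK] at this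
    rw [pow_two, pow_two, pow_two, ← mul_assoc]; exact this
  · have := vz_sound h2
    rw [hpK] at this
    exact this
  · have := vz_sound h3
    rw [hpK, PD.lam'_eq] at this
    rw [pow_two, pow_two]; exact this

/-- Check of `MoJ`. -/
def mojb (M : M3) (q : ℕ) : List PD → Mo → List ℤ → Bool
  | [], .nil, _ => true
  | P :: Ps, .cons a b c d mo, mu :: mus =>
    (!cz P.p (Int.ofNat q)) && (trib P (Nat.pow P.p P.K) M (Int.ofNat a) (Int.ofNat b) (Int.ofNat c)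
      (Int.ofNat d) mu && mojb M q Ps mo mus)
  | _, _, _ => false

theorem mojb_sound {M : M3} {q : ℕ} : ∀ {Ps : List PD} {mo : Mo} {mus : List ℤ},
    mojb M q Ps mo mus = true → MoJ M q Ps mo mus := by
  intro Ps
  induction Ps with
  | nil =>
    intro mo mus h
    cases mo with
    | nil => trivial
    | cons a b c d mo => simp [mojb] at h
  | cons P Ps ih =>
    intro mo mus h
    cases mo with
    | nil => simp [mojb] at h
    | cons a b c d mo =>
      cases mus with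
      | nil => simp [mojb] at h
      | cons mu mus =>
        unfold mojb at h
        simp only [Bool.and_eq_true, cz_not] at h
        obtain ⟨h1, h2, h3⟩ := h
        refine ⟨h1, ?_, ih h3⟩
        have := trib_sound h2
        have hpK : ((Nat.pow P.p P.K : ℕ) : ℤ) = (P.p : ℤ) ^ P.K := by
          show ((P.p ^ P.K : ℕ) : ℤ) = _
          push_cast; rfl
        rw [hpK] at this
        exact this

/-- Check of `MoI`. -/
def moib (M : M3) (l q : ℕ) : ℕ → List PD → Mo → List ℤ → Bool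
  | 0, P :: Ps, .cons a b c d mo, mu :: mus =>
    Nat.beq q P.p && (ownb P M l (Int.ofNat a) (Int.ofNat b) (Int.ofNat c) (Int.ofNat d) mu &&
      mojb M q Ps mo mus)
  | i + 1, P :: Ps, .cons a b c d mo, mu :: mus =>
    (!cz P.p (Int.ofNat q)) && (trib P (Nat.pow P.p P.K) M (Int.ofNat a) (Int.ofNat b) (Int.ofNat c)
      (Int.ofNat d) mu && moib M l q i Ps mo mus)
  | _, _, _, _ => false

theorem moib_sound {M : M3} {l q : ℕ} : ∀ {Ps : List PD} {mo : Mo} {mus : List ℤ} {i : ℕ},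
    moib M l q i Ps mo mus = true → MoI M l q i Ps mo mus := by
  intro Ps
  induction Ps with
  | nil =>
    intro mo mus i h
    cases i <;> simp [moib] at h
  | cons P Ps ih =>
    intro mo mus i h
    cases mo with
    | nil => cases i <;> simp [moib] at h
    | cons a b c d mo =>
      cases mus with
      | nil => cases i <;> simp [moib] at h
      | cons mu mus =>
        cases i with
        | zero =>
          unfold moib at h
          simp only [Bool.and_eq_true] at h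
          obtain ⟨h1, h2, h3⟩ := h
          exact ⟨beq_iff.mp h1, ownb_sound h2, mojb_sound h3⟩
        | succ i =>
          unfold moib at h
          simp only [Bool.and_eq_true, cz_not] at h
          obtain ⟨h1, h2, h3⟩ := h
          refine ⟨h1, ?_, ih h3⟩
          have := trib_sound h2
          have hpK : ((Nat.pow P.p P.K : ℕ) : ℤ) = (P.p : ℤ) ^ P.K := by
            show ((P.p ^ P.K : ℕ) : ℤ) = _
            push_cast; rfl
          rw [hpK] at this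
          exact this

/-- Check of a move. -/
noncomputable def mvokb (P0 : PD) (Pl : List PD) (Pm : PD) (m0 i : ℕ) (P : PD) (l e : ℕ) : Mv → Bool
  | ⟨M, mo, a, b, c, d, s, mu, mum⟩ =>
    simb (Int.ofNat (Nat.mul P.p P.p)) M && (dualb (Int.ofNat (Nat.mul P.p P.p)) M &&
    (outb P.p M s (P.lam' (Int.ofNat (bi (Nat.beq i 0) l e))) &&
    (moib M (bi (Nat.beq i 0) l e) P.p i (P0 :: Pl) mo mu &&
    ((!cz Pm.p (Int.ofNat P.p)) && (trib Pm Pm.p M (Int.ofNat a) (Int.ofNat b) (Int.ofNat c)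
      (Int.ofNat d) mum && sgh mo P0.p m0 (bi (Nat.beq i 0) e l))))))

theorem bi_ite {α : Type} (i : ℕ) (x y : α) : bi (Nat.beq i 0) x y = if i = 0 then x else y := by
  by_cases h : i = 0
  · rw [beq_iff.mpr h, if_pos h, bi_true]
  · rw [beq_false.mpr h, if_neg h, bi_false]

theorem mvokb_sound {P0 : PD} {Pl : List PD} {Pm : PD} {m0 i : ℕ} {P : PD} {l e : ℕ} {mv : Mv}
    (h : mvokb P0 Pl Pm m0 i P l e mv = true) : MvOk P0 Pl Pm m0 i P l e mv := by
  obtain ⟨M, mo, a, b, c, d, s, mu, mum⟩ := mv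
  unfold mvokb at h
  simp only [Bool.and_eq_true, cz_not, bi_ite] at h
  obtain ⟨h1, h2, h3, h4, h5, h6, h7⟩ := h
  have e1 := simb_sound h1
  have e2 := dualb_sound h2
  rw [ofNat_mul] at e1 e2
  have e3 := outb_sound h3
  rw [PD.lam'_eq] at e3
  exact ⟨e1, e2, e3, moib_sound h4, h5, trib_sound h6, h7⟩

/-- Check of a mask move. -/
noncomputable def mmokb (P0 : PD) (Pl : List PD) (Pm : PD) (m0 l e : ℕ) : Mv → Bool
  | ⟨M, mo, a, _, _, _, s, mu, _⟩ =>
    simb (Int.ofNat (Nat.mul Pm.p Pm.p)) M &&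
    (outb Pm.p M s (Pm.lam' (Int.ofNat e)) &&
    (mojb M Pm.p (P0 :: Pl) mo mu &&
    (Nat.ble (Nat.succ a) Pm.p &&
    (vz (Nat.mul Pm.p Pm.p) (M.tmul (Pm.lam' (Int.ofNat a))) (0, 0, 0) && sgh mo P0.p m0 l))))

theorem mmokb_sound {P0 : PD} {Pl : List PD} {Pm : PD} {m0 : ℕ} {l e : ℕ} {mv : Mv}
    (h : mmokb P0 Pl Pm m0 l e mv = true) : MmOk P0 Pl Pm m0 l e mv := by
  obtain ⟨M, mo, a, b, c, d, s, mu, mum⟩ := mv
  unfold mmokb at h
  simp only [Bool.and_eq_true] at h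
  obtain ⟨h1, h3, h4, h5, h6, h7⟩ := h
  have e1 := simb_sound h1
  rw [ofNat_mul] at e1
  have e3 := outb_sound h3
  rw [PD.lam'_eq] at e3
  have e6 := vz_sound h6
  have e7 : ((Nat.mul Pm.p Pm.p : ℕ) : ℤ) = (Pm.p : ℤ) ^ 2 := ofNat_mul Pm.p
  rw [PD.lam'_eq, e7] at e6
  exact ⟨e1, e3, mojb_sound h4, ble_iff.mp h5, e6, h7⟩

/-- Check of the moves in direction `i`. -/
noncomputable def mvsb (S : Pr) (P0 : PD) (Pl : List PD) (Pm : PD) (cn i : ℕ) (P : PD) : Bool :=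
  fo (Nat.lor cn (S.tys.getD 0 0)) (fun m0 => fo (bi (Nat.beq i 0) 0 (S.tys.getD i 0)) (fun ti =>
    alln (fun l => bi (tb cn l) (alln (fun e => bi (tb ti e) true
      (mvokb P0 Pl Pm m0 i P l e (S.tab i l e))) P.p) true) P0.p))

theorem mvsb_sound {S : Pr} {P0 : PD} {Pl : List PD} {Pm : PD} {cn i : ℕ} {P : PD}
    (h : mvsb S P0 Pl Pm cn i P = true) : ∀ l < P0.p, cn.testBit l = true →
    ∀ e < P.p, (i = 0 ∨ (S.tys.getD i 0).testBit e = false) →
    MvOk P0 Pl Pm (Nat.lor cn (S.tys.getD 0 0)) i P l e (S.tab i l e) := by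
  intro l hl hcn e he hie
  unfold mvsb at h
  rw [fo_eq, fo_eq, alln_iff] at h
  have h1 := h l hl
  rw [tb_eq, hcn, bi_true, alln_iff] at h1
  have h2 := h1 e he
  rw [tb_eq] at h2
  have h3 : (bi (Nat.beq i 0) 0 (S.tys.getD i 0)).testBit e = false := by
    rw [bi_ite]
    rcases hie with hie | hie
    · rw [if_pos hie]; simp
    · split_ifs
      · simp
      · exact hie
  rw [h3, bi_false] at h2
  exact mvokb_sound h2

/-- Check of the mask moves. -/
noncomputable def mmsb (S : Pr) (P0 : PD) (Pl : List PD) (Pm : PD) (cn : ℕ) : Bool :=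
  fo (Nat.lor cn (S.tys.getD 0 0)) (fun m0 =>
    alln (fun l => bi (tb cn l) (alln (fun e => bi (tb S.ty1 e) true
      (mmokb P0 Pl Pm m0 l e (S.tab 4 l e))) Pm.p) true) P0.p)

theorem mmsb_sound {S : Pr} {P0 : PD} {Pl : List PD} {Pm : PD} {cn : ℕ}
    (h : mmsb S P0 Pl Pm cn = true) : ∀ l < P0.p, cn.testBit l = true → ∀ e < Pm.p,
    S.ty1.testBit e = false → MmOk P0 Pl Pm (Nat.lor cn (S.tys.getD 0 0)) l e (S.tab 4 l e) := by
  intro l hl hcn e he hie
  unfold mmsb at h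
  rw [fo_eq, alln_iff] at h
  have h1 := h l hl
  rw [tb_eq, hcn, bi_true, alln_iff] at h1
  have h2 := h1 e he
  rw [tb_eq, hie, bi_false] at h2
  exact mmokb_sound h2

/-- Check of a unit move. -/
noncomputable def unokb (P0 : PD) (m0 l : ℕ) : Mv → Bool
  | ⟨M, _, a, b, c, d, _, _, mum⟩ =>
    simb 1 M && (trib P0 P0.p M (Int.ofNat a) (Int.ofNat b) (Int.ofNat c) (Int.ofNat d) mum &&
      sg P0.p a b c d m0 l)

theorem unokb_sound {P0 : PD} {m0 l : ℕ} {mv : Mv} (h : unokb P0 m0 l mv = true) :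
    UnOk P0 m0 l mv := by
  obtain ⟨M, mo, a, b, c, d, s, mu, mum⟩ := mv
  unfold unokb at h
  simp only [Bool.and_eq_true] at h
  obtain ⟨h1, h3, h4⟩ := h
  refine ⟨fun v => ?_, trib_sound h3, h4⟩
  rw [simb_sound h1]; ring

/-- Check of the unit moves. -/
noncomputable def unb (S : Pr) (P0 : PD) (cn : ℕ) (L : List Mv) : Bool :=
  fo (Nat.lor cn (S.tys.getD 0 0)) (fun m0 =>
    alln (fun l => bi (tb m0 l) true (unokb P0 m0 l
      (lget ⟨⟨0, 0, 0, 0, 0, 0, 0, 0, 0⟩, .nil, 0, 0, 0, 0, (0, 0, 0), [], 0⟩ L l))) P0.p)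

theorem unb_sound {S : Pr} {P0 : PD} {cn : ℕ} {L : List Mv} (h : unb S P0 cn L = true) :
    ∀ l < P0.p, cn.testBit l = true ∨ (S.tys.getD 0 0).testBit l = true ∨
      ∃ mv, UnOk P0 (Nat.lor cn (S.tys.getD 0 0)) l mv := by
  intro l hl
  unfold unb at h
  rw [fo_eq, alln_iff] at h
  have h1 := h l hl
  rw [tb_eq] at h1
  rcases hb : (Nat.lor cn (S.tys.getD 0 0)).testBit l with _ | _
  · rw [hb, bi_false] at h1
    exact Or.inr (Or.inr ⟨_, unokb_sound h1⟩)
  · rw [lor_bit, Bool.or_eq_true] at hb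
    rcases hb with hb | hb
    · exact Or.inl hb
    · exact Or.inr (Or.inl hb)

/-- Check of the remaining data. -/
noncomputable def mscb (S : Pr) (P0 : PD) (Pl : List PD) (Pm : PD) (cn : ℕ) : Bool :=
  Nat.ble Pl.length 3 && (Nat.beq S.pm Pm.p && (alln (fun l => tb S.full l) Pm.p &&
  (S.ls.all (fun a => Nat.ble (Nat.succ a) 4) && (Nat.beq (hd S.ls) 0 &&
  (Tr.rec (motive := fun _ => Bool) false (fun _ => false) (fun _ _ _ _ => false)
    (fun c0 t0 _ => Nat.ble BIG c0 && (gen t0 && alln (fun d => bi (tb cn d) (has t0 d) true) P0.p))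
    (fun _ _ _ _ _ => false) (fun _ _ _ => false) S.T)))))

theorem mscb_sound {S : Pr} {P0 : PD} {Pl : List PD} {Pm : PD} {cn : ℕ}
    (h : mscb S P0 Pl Pm cn = true) : Pl.length ≤ 3 ∧ S.pm = Pm.p ∧
      (∀ l < Pm.p, S.full.testBit l = true) ∧ (∀ a ∈ S.ls, a < 4) ∧ hd S.ls = 0 ∧
      ∃ c0 t0, S.T = .nd c0 t0 ∧ BIG ≤ c0 ∧ gen t0 = true ∧ ∀ d < P0.p, cn.testBit d = true →
        has t0 d = true := by
  unfold mscb at h
  simp only [Bool.and_eq_true] at h
  obtain ⟨h1, h2, h3, h4, h5, h6⟩ := h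
  refine ⟨ble_iff.mp h1, beq_iff.mp h2, ?_, ?_, beq_iff.mp h5, ?_⟩
  · intro l hl
    rw [alln_iff] at h3
    rw [← tb_eq]; exact h3 l hl
  · intro a ha
    rw [List.all_eq_true] at h4
    exact ble_iff.mp (h4 a ha)
  · generalize S.T = T at h6
    cases T with
    | dd => exact absurd h6 (by simp)
    | fin c => exact absurd h6 (by simp)
    | ev c m t => exact absurd h6 (by simp)
    | br m x y => exact absurd h6 (by simp)
    | ch d t => exact absurd h6 (by simp)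
    | nd c0 t0 =>
      have h7 : (Nat.ble BIG c0 && (gen t0 && alln (fun d => bi (tb cn d) (has t0 d) true) P0.p)) =
        true := h6
      simp only [Bool.and_eq_true] at h7
      obtain ⟨g1, g2, g3⟩ := h7
      refine ⟨c0, t0, rfl, ble_iff.mp g1, g2, ?_⟩
      intro d hd hc
      rw [alln_iff] at g3
      have g4 := g3 d hd
      rw [tb_eq, hc, bi_true] at g4
      exact g4

end Pool.Agent.Work.MP_9954fe_nt
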