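import Pool.Agent.Work.MP_9954fe_nt.G01
import Pool.Agent.Work.MP_9954fe_nt.G02
import Pool.Agent.Work.MP_9954fe_nt.G03
import Pool.Agent.Work.MP_9954fe_nt.G04
import Pool.Agent.Work.MP_9954fe_nt.G05
import Pool.Agent.Work.MP_9954fe_nt.G06
import Pool.Agent.Work.MP_9954fe_nt.G07
import Pool.Agent.Work.MP_9954fe_nt.G08
import Pool.Agent.Work.MP_9954fe_nt.G09
import Pool.Agent.Work.MP_9954fe_nt.G10
import Pool.Agent.Work.MP_9954fe_nt.G11
import Pool.Agent.Work.MP_9954fe_nt.G12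
import Pool.Agent.Work.MP_9954fe_nt.G13
import Pool.Agent.Work.MP_9954fe_nt.G14
import Pool.Agent.Work.MP_9954fe_nt.G15
import Pool.Agent.Work.MP_9954fe_nt.G16
import Pool.Agent.Work.MP_9954fe_nt.Three

/-!
Combination of the certificates: split primes of total weight at least six.
-/

set_option autoImplicit false
set_option maxRecDepth 10000

open Finset

namespace Pool.Agent.Work.MP_9954fe_nt

/-- The weight is less than six or one of the certified sets is split. -/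
def wcomb (b7 b11 b13 b17 b19 b31 b37 b43 b47 b53 b71 : Bool) : Bool :=
  Nat.blt (
      cond b7 3 0 + cond b11 3 0 + cond b13 3 0 + cond b17 4 0 + cond b19 3 0 + cond b31 2 0 +
      cond b37 1 0 + cond b43 2 0 + cond b47 2 0 + cond b53 2 0 + cond b71 2 0) 6 ||
    ((b7 && b11) || ((b7 && b13) || ((b7 && b17) || ((b7 && b19) || ((b11 && b13) || ((b11 && b17)
    || ((b11 && b19) || ((b13 && b17) || ((b13 && b19) || ((b17 && b19) || ((b7 && (b31 && b37))
    || ((b7 && (b31 && b43)) || ((b7 && (b31 && b47)) || ((b7 && (b31 && b53)) || ((b7 && (b31 &&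
    b71)) || ((b7 && (b37 && b43)) || ((b7 && (b37 && b47)) || ((b7 && (b37 && b53)) || ((b7 &&
    (b37 && b71)) || ((b7 && (b43 && b47)) || ((b7 && (b43 && b53)) || ((b7 && (b43 && b71)) ||
    ((b7 && (b47 && b53)) || ((b7 && (b47 && b71)) || ((b7 && (b53 && b71)) || ((b11 && (b31 &&
    b37)) || ((b11 && (b31 && b43)) || ((b11 && (b31 && b47)) || ((b11 && (b31 && b53)) || ((b11
    && (b31 && b71)) || ((b11 && (b37 && b43)) || ((b11 && (b37 && b47)) || ((b11 && (b37 && b53))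
    || ((b11 && (b37 && b71)) || ((b11 && (b43 && b47)) || ((b11 && (b43 && b53)) || ((b11 && (b43
    && b71)) || ((b11 && (b47 && b53)) || ((b11 && (b47 && b71)) || ((b11 && (b53 && b71)) ||
    ((b13 && (b31 && b37)) || ((b13 && (b31 && b43)) || ((b13 && (b31 && b47)) || ((b13 && (b31 &&
    b53)) || ((b13 && (b31 && b71)) || ((b13 && (b37 && b43)) || ((b13 && (b37 && b47)) || ((b13
    && (b37 && b53)) || ((b13 && (b37 && b71)) || ((b13 && (b43 && b47)) || ((b13 && (b43 && b53))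
    || ((b13 && (b43 && b71)) || ((b13 && (b47 && b53)) || ((b13 && (b47 && b71)) || ((b13 && (b53
    && b71)) || ((b17 && b31) || ((b17 && b43) || ((b17 && b47) || ((b17 && b53) || ((b17 && b71)
    || ((b19 && (b31 && b37)) || ((b19 && (b31 && b43)) || ((b19 && (b31 && b47)) || ((b19 && (b31
    && b53)) || ((b19 && (b31 && b71)) || ((b19 && (b37 && b43)) || ((b19 && (b37 && b47)) ||
    ((b19 && (b37 && b53)) || ((b19 && (b37 && b71)) || ((b19 && (b43 && b47)) || ((b19 && (b43 &&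
    b53)) || ((b19 && (b43 && b71)) || ((b19 && (b47 && b53)) || ((b19 && (b47 && b71)) || ((b19
    && (b53 && b71)) || ((b31 && (b43 && b47)) || ((b31 && (b43 && b53)) || ((b31 && (b43 && b71))
    || ((b31 && (b47 && b53)) || ((b31 && (b47 && b71)) || ((b31 && (b53 && b71)) || ((b43 && (b47
    && b53)) || ((b43 && (b47 && b71)) || ((b43 && (b53 && b71)) || (b47 && (b53 &&
    b71))))))))))))))))))))))))))))))))))))))))))))))))))))))))))))))))))))))))))))))))))))))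

theorem wcomb_all : ∀ b7 b11 b13 b17 b19 b31 b37 b43 b47 b53 b71 : Bool,
    wcomb b7 b11 b13 b17 b19 b31 b37 b43 b47 b53 b71 = true := by
  decide +kernel

theorem weights (n : ℕ) (ho : Odd n) (hr : ¬ Rep n) (S : Finset (ℕ × ℕ))
    (hS : S ⊆ {(17, 4), (7, 3), (11, 3), (13, 3), (19, 3), (31, 2), (43, 2), (47, 2), (53, 2),
      (71, 2), (37, 1)}) (hw : 6 ≤ ∑ s ∈ S, s.2) (h : ∀ s ∈ S, Split s.1 n) : n ∈ EE := by
  classical
  have h1 : ∑ s ∈ S, s.2 = ∑ s ∈ S, (if Split s.1 n then s.2 else 0) :=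
    sum_congr rfl fun s hs => (if_pos (h s hs)).symm
  have h2 := sum_le_sum_of_subset (f := fun s : ℕ × ℕ => if Split s.1 n then s.2 else 0) hS
  have h3 : ∑ s ∈ ({(17, 4), (7, 3), (11, 3), (13, 3), (19, 3), (31, 2), (43, 2), (47, 2), (53, 2),
      (71, 2), (37, 1)} : Finset (ℕ × ℕ)), (if Split s.1 n then s.2 else 0) =
      cond (decide (Split 7 n)) 3 0 + cond (decide (Split 11 n)) 3 0 + cond (decide (Split 13 n))
      3 0 + cond (decide (Split 17 n)) 4 0 + cond (decide (Split 19 n)) 3 0 + cond (decide (Split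
      31 n)) 2 0 + cond (decide (Split 37 n)) 1 0 + cond (decide (Split 43 n)) 2 0 + cond (decide
      (Split 47 n)) 2 0 + cond (decide (Split 53 n)) 2 0 + cond (decide (Split 71 n)) 2 0 := by
    repeat rw [sum_insert (by decide)]
    rw [sum_singleton]
    simp only [Bool.cond_decide]
    ring
  have hd := wcomb_all
    (decide (Split 7 n)) (decide (Split 11 n)) (decide (Split 13 n)) (decide (Split 17 n)) (decide
    (Split 19 n)) (decide (Split 31 n)) (decide (Split 37 n)) (decide (Split 43 n)) (decide (Split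
    47 n)) (decide (Split 53 n)) (decide (Split 71 n))
  simp only [wcomb, Bool.or_eq_true, Bool.and_eq_true, Nat.blt_eq, decide_eq_true_eq] at hd
  rcases hd with hc |
    ⟨h7, h11⟩ | ⟨h7, h13⟩ | ⟨h7, h17⟩ | ⟨h7, h19⟩ | ⟨h11, h13⟩ | ⟨h11, h17⟩ | ⟨h11, h19⟩ | ⟨h13,
    h17⟩ | ⟨h13, h19⟩ | ⟨h17, h19⟩ | ⟨h7, h31, h37⟩ | ⟨h7, h31, h43⟩ | ⟨h7, h31, h47⟩ | ⟨h7, h31,
    h53⟩ | ⟨h7, h31, h71⟩ | ⟨h7, h37, h43⟩ | ⟨h7, h37, h47⟩ | ⟨h7, h37, h53⟩ | ⟨h7, h37, h71⟩ |
    ⟨h7, h43, h47⟩ | ⟨h7, h43, h53⟩ | ⟨h7, h43, h71⟩ | ⟨h7, h47, h53⟩ | ⟨h7, h47, h71⟩ | ⟨h7, h53,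
    h71⟩ | ⟨h11, h31, h37⟩ | ⟨h11, h31, h43⟩ | ⟨h11, h31, h47⟩ | ⟨h11, h31, h53⟩ | ⟨h11, h31, h71⟩
    | ⟨h11, h37, h43⟩ | ⟨h11, h37, h47⟩ | ⟨h11, h37, h53⟩ | ⟨h11, h37, h71⟩ | ⟨h11, h43, h47⟩ |
    ⟨h11, h43, h53⟩ | ⟨h11, h43, h71⟩ | ⟨h11, h47, h53⟩ | ⟨h11, h47, h71⟩ | ⟨h11, h53, h71⟩ |
    ⟨h13, h31, h37⟩ | ⟨h13, h31, h43⟩ | ⟨h13, h31, h47⟩ | ⟨h13, h31, h53⟩ | ⟨h13, h31, h71⟩ |
    ⟨h13, h37, h43⟩ | ⟨h13, h37, h47⟩ | ⟨h13, h37, h53⟩ | ⟨h13, h37, h71⟩ | ⟨h13, h43, h47⟩ |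
    ⟨h13, h43, h53⟩ | ⟨h13, h43, h71⟩ | ⟨h13, h47, h53⟩ | ⟨h13, h47, h71⟩ | ⟨h13, h53, h71⟩ |
    ⟨h17, h31⟩ | ⟨h17, h43⟩ | ⟨h17, h47⟩ | ⟨h17, h53⟩ | ⟨h17, h71⟩ | ⟨h19, h31, h37⟩ | ⟨h19, h31,
    h43⟩ | ⟨h19, h31, h47⟩ | ⟨h19, h31, h53⟩ | ⟨h19, h31, h71⟩ | ⟨h19, h37, h43⟩ | ⟨h19, h37, h47⟩
    | ⟨h19, h37, h53⟩ | ⟨h19, h37, h71⟩ | ⟨h19, h43, h47⟩ | ⟨h19, h43, h53⟩ | ⟨h19, h43, h71⟩ |
    ⟨h19, h47, h53⟩ | ⟨h19, h47, h71⟩ | ⟨h19, h53, h71⟩ | ⟨h31, h43, h47⟩ | ⟨h31, h43, h53⟩ |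
    ⟨h31, h43, h71⟩ | ⟨h31, h47, h53⟩ | ⟨h31, h47, h71⟩ | ⟨h31, h53, h71⟩ | ⟨h43, h47, h53⟩ |
    ⟨h43, h47, h71⟩ | ⟨h43, h53, h71⟩ | ⟨h47, h53, h71⟩
  · omega
  · exact P7_11.main n ho hr h7 h11
  · exact P7_13.main n ho hr h7 h13
  · exact P7_17.main n ho hr h7 h17
  · exact P7_19.main n ho hr h7 h19
  · exact P11_13.main n ho hr h11 h13
  · exact P11_17.main n ho hr h11 h17
  · exact P11_19.main n ho hr h11 h19
  · exact P13_17.main n ho hr h13 h17
  · exact P13_19.main n ho hr h13 h19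
  · exact P19_17.main n ho hr h19 h17
  · exact P7_37_31.main n ho hr h7 h37 h31
  · exact P7_31_43.main n ho hr h7 h31 h43
  · exact P7_31_47.main n ho hr h7 h31 h47
  · exact P7_53_31.main n ho hr h7 h53 h31
  · exact P7_71_31.main n ho hr h7 h71 h31
  · exact P7_43_37.main n ho hr h7 h43 h37
  · exact P7_37_47.main n ho hr h7 h37 h47
  · exact P7_53_37.main n ho hr h7 h53 h37
  · exact P7_71_37.main n ho hr h7 h71 h37
  · exact P7_47_43.main n ho hr h7 h47 h43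
  · exact P7_53_43.main n ho hr h7 h53 h43
  · exact P7_43_71.main n ho hr h7 h43 h71
  · exact P7_47_53.main n ho hr h7 h47 h53
  · exact P7_71_47.main n ho hr h7 h71 h47
  · exact P7_71_53.main n ho hr h7 h71 h53
  · exact P11_37_31.main n ho hr h11 h37 h31
  · exact P11_31_43.main n ho hr h11 h31 h43
  · exact P11_31_47.main n ho hr h11 h31 h47
  · exact P11_53_31.main n ho hr h11 h53 h31
  · exact P11_71_31.main n ho hr h11 h71 h31
  · exact P11_37_43.main n ho hr h11 h37 h43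
  · exact P11_37_47.main n ho hr h11 h37 h47
  · exact P11_37_53.main n ho hr h11 h37 h53
  · exact P11_71_37.main n ho hr h11 h71 h37
  · exact P11_43_47.main n ho hr h11 h43 h47
  · exact P11_53_43.main n ho hr h11 h53 h43
  · exact P11_71_43.main n ho hr h11 h71 h43
  · exact P11_53_47.main n ho hr h11 h53 h47
  · exact P11_71_47.main n ho hr h11 h71 h47
  · exact P11_71_53.main n ho hr h11 h71 h53
  · exact P13_37_31.main n ho hr h13 h37 h31
  · exact P13_31_43.main n ho hr h13 h31 h43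
  · exact P13_47_31.main n ho hr h13 h47 h31
  · exact P13_31_53.main n ho hr h13 h31 h53
  · exact P13_71_31.main n ho hr h13 h71 h31
  · exact P13_37_43.main n ho hr h13 h37 h43
  · exact P13_37_47.main n ho hr h13 h37 h47
  · exact P13_53_37.main n ho hr h13 h53 h37
  · exact P13_71_37.main n ho hr h13 h71 h37
  · exact P13_43_47.main n ho hr h13 h43 h47
  · exact P13_43_53.main n ho hr h13 h43 h53
  · exact P13_71_43.main n ho hr h13 h71 h43
  · exact P13_53_47.main n ho hr h13 h53 h47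
  · exact P13_71_47.main n ho hr h13 h71 h47
  · exact P13_71_53.main n ho hr h13 h71 h53
  · exact P17_31.main n ho hr h17 h31
  · exact P17_43.main n ho hr h17 h43
  · exact P17_47.main n ho hr h17 h47
  · exact P17_53.main n ho hr h17 h53
  · exact P17_71.main n ho hr h17 h71
  · exact P19_37_31.main n ho hr h19 h37 h31
  · exact P19_43_31.main n ho hr h19 h43 h31
  · exact P19_31_47.main n ho hr h19 h31 h47
  · exact P19_31_53.main n ho hr h19 h31 h53
  · exact P19_71_31.main n ho hr h19 h71 h31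
  · exact P19_37_43.main n ho hr h19 h37 h43
  · exact P19_37_47.main n ho hr h19 h37 h47
  · exact P19_37_53.main n ho hr h19 h37 h53
  · exact P19_37_71.main n ho hr h19 h37 h71
  · exact P19_47_43.main n ho hr h19 h47 h43
  · exact P19_53_43.main n ho hr h19 h53 h43
  · exact P19_71_43.main n ho hr h19 h71 h43
  · exact P19_53_47.main n ho hr h19 h53 h47
  · exact P19_71_47.main n ho hr h19 h71 h47
  · exact P19_71_53.main n ho hr h19 h71 h53
  · exact P31_43_47.main n ho hr h31 h43 h47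
  · exact P31_43_53.main n ho hr h31 h43 h53
  · exact P31_71_43.main n ho hr h31 h71 h43
  · exact P31_47_53.main n ho hr h31 h47 h53
  · exact P31_47_71.main n ho hr h31 h47 h71
  · exact P31_71_53.main n ho hr h31 h71 h53
  · exact P43_47_53.main n ho hr h43 h47 h53
  · exact P43_47_71.main n ho hr h43 h47 h71
  · exact P43_53_71.main n ho hr h43 h53 h71
  · exact P47_53_71.main n ho hr h47 h53 h71

end Pool.Agent.Work.MP_9954fe_nt
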